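import Pool.Agent.Lib.MP_5854e1_co.DtD

/-!
# Windows and cells of the rings
-/

set_option autoImplicit false
set_option maxRecDepth 100000
set_option deprecated.oldSectionVars true

namespace Pool.Agent.Lib.MP_5854e1_co.Cz

open Pool.Agent.Lib.MP_5854e1_co

noncomputable section

noncomputable def tv1046 : DT := (.nd (nat_lit 0) (.nd (nat_lit 1) (.nd (nat_lit 2) (.nd (nat_lit 3) (.nd (nat_lit 4) (.nd (nat_lit 5) 
(.lf (nat_lit 77376) (.g (nat_lit 3119) (.e (nat_lit 1800) (nat_lit 119) (.e (nat_lit 516115) (nat_lit 1) (.e (nat_lit 164403) (nat_lit 256) (.e (nat_lit 57373) (nat_lit 2) (.e (nat_lit 90167) (nat_lit 13) (.e (nat_lit 172067) (nat_lit 3) (.e (nat_lit 204837) (nat_lit 20) (.e (nat_lit 114708) (nat_lit 20) .nil)))))))) (.g (nat_lit 4) .nil .nil))) 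
(.lf (nat_lit 77408) (.g (nat_lit 2147) (.e (nat_lit 1800) (nat_lit 119) (.e (nat_lit 516117) (nat_lit 1) (.e (nat_lit 164329) (nat_lit 230) (.e (nat_lit 163902) (nat_lit 12) (.e (nat_lit 426479) (nat_lit 27) (.e (nat_lit 336443) (nat_lit 32) (.e (nat_lit 474880) (nat_lit 0) .nil))))))) (.g (nat_lit 4) .nil .nil)))) (.nd (nat_lit 5) 
(.lf (nat_lit 77392) (.g (nat_lit 3701) (.e (nat_lit 1800) (nat_lit 119) (.e (nat_lit 516115) (nat_lit 1) (.e (nat_lit 164403) (nat_lit 256) (.e (nat_lit 57373) (nat_lit 2) (.e (nat_lit 90174) (nat_lit 14) (.e (nat_lit 180243) (nat_lit 5) (.e (nat_lit 532515) (nat_lit 3) (.e (nat_lit 114708) (nat_lit 20) .nil)))))))) (.g (nat_lit 5) .nil .nil))) 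
(.lf (nat_lit 77424) (.g (nat_lit 4028) (.e (nat_lit 1800) (nat_lit 119) (.e (nat_lit 516117) (nat_lit 1) (.e (nat_lit 164330) (nat_lit 230) (.e (nat_lit 163850) (nat_lit 0) (.e (nat_lit 3304) (nat_lit 202) (.e (nat_lit 573489) (nat_lit 14) (.e (nat_lit 73755) (nat_lit 8) (.e (nat_lit 557097) (nat_lit 13) (.e (nat_lit 172133) (nat_lit 15) .nil))))))))) (.g (nat_lit 6) .nil .nil))))) 
(.nd (nat_lit 4) (.nd (nat_lit 5) 
(.lf (nat_lit 77384) (.g (nat_lit 3684) (.e (nat_lit 1800) (nat_lit 119) (.e (nat_lit 516115) (nat_lit 1) (.e (nat_lit 164403) (nat_lit 256) (.e (nat_lit 57373) (nat_lit 2) (.e (nat_lit 90172) (nat_lit 14) (.e (nat_lit 180244) (nat_lit 5) (.e (nat_lit 532513) (nat_lit 3) (.e (nat_lit 114707) (nat_lit 20) .nil)))))))) (.g (nat_lit 4) .nil .nil))) 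
(.lf (nat_lit 77416) (.g (nat_lit 3081) (.e (nat_lit 1800) (nat_lit 119) (.e (nat_lit 516117) (nat_lit 1) (.e (nat_lit 164329) (nat_lit 230) (.e (nat_lit 163902) (nat_lit 12) (.e (nat_lit 426568) (nat_lit 34) (.e (nat_lit 393279) (nat_lit 23) (.e (nat_lit 426419) (nat_lit 15) .nil))))))) (.g (nat_lit 5) .nil .nil)))) (.nd (nat_lit 5) 
(.lf (nat_lit 77400) (.g (nat_lit 2411) (.e (nat_lit 1800) (nat_lit 119) (.e (nat_lit 516117) (nat_lit 1) (.e (nat_lit 164329) (nat_lit 230) (.e (nat_lit 163843) (nat_lit 0) (.e (nat_lit 3248) (nat_lit 197) .nil))))) .nil)) 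
(.lf (nat_lit 77432) (.g (nat_lit 3168) (.e (nat_lit 1800) (nat_lit 119) (.e (nat_lit 516117) (nat_lit 1) (.e (nat_lit 164330) (nat_lit 230) (.e (nat_lit 163902) (nat_lit 12) (.e (nat_lit 426479) (nat_lit 27) (.e (nat_lit 336428) (nat_lit 29) (.e (nat_lit 442374) (nat_lit 0) .nil))))))) (.g (nat_lit 4) .nil .nil)))))) (.nd (nat_lit 3) (.nd (nat_lit 4) (.nd (nat_lit 5) 
(.lf (nat_lit 77380) (.g (nat_lit 3865) (.e (nat_lit 1800) (nat_lit 119) (.e (nat_lit 516115) (nat_lit 1) (.e (nat_lit 164403) (nat_lit 256) (.e (nat_lit 57373) (nat_lit 2) (.e (nat_lit 90170) (nat_lit 13) (.e (nat_lit 172065) (nat_lit 3) (.e (nat_lit 204838) (nat_lit 20) (.e (nat_lit 114708) (nat_lit 20) .nil)))))))) (.g (nat_lit 6) .nil .nil))) 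
(.lf (nat_lit 77412) (.g (nat_lit 2013) (.e (nat_lit 1800) (nat_lit 119) (.e (nat_lit 516117) (nat_lit 1) (.e (nat_lit 164329) (nat_lit 230) (.e (nat_lit 163902) (nat_lit 12) (.e (nat_lit 426568) (nat_lit 34) (.e (nat_lit 393274) (nat_lit 23) (.e (nat_lit 426396) (nat_lit 15) .nil))))))) (.g (nat_lit 4) .nil .nil)))) (.nd (nat_lit 5) 
(.lf (nat_lit 77396) (.g (nat_lit 3417) (.e (nat_lit 1800) (nat_lit 119) (.e (nat_lit 516115) (nat_lit 1) (.e (nat_lit 164403) (nat_lit 256) (.e (nat_lit 57378) (nat_lit 3) (.e (nat_lit 98358) (nat_lit 26) (.e (nat_lit 426131) (nat_lit 3) (.e (nat_lit 204838) (nat_lit 20) (.e (nat_lit 114708) (nat_lit 20) .nil)))))))) (.g (nat_lit 6) .nil .nil))) 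
(.lf (nat_lit 77428) (.g (nat_lit 2540) (.e (nat_lit 1800) (nat_lit 119) (.e (nat_lit 516117) (nat_lit 1) (.e (nat_lit 164330) (nat_lit 230) (.e (nat_lit 163874) (nat_lit 3) (.e (nat_lit 204837) (nat_lit 20) (.e (nat_lit 114714) (nat_lit 22) (.e (nat_lit 90169) (nat_lit 13) (.e (nat_lit 172133) (nat_lit 15) .nil)))))))) (.g (nat_lit 4) .nil .nil))))) (.nd (nat_lit 4) (.nd (nat_lit 5) 
(.lf (nat_lit 77388) (.g (nat_lit 3693) (.e (nat_lit 1800) (nat_lit 119) (.e (nat_lit 516115) (nat_lit 1) (.e (nat_lit 164403) (nat_lit 256) (.e (nat_lit 57373) (nat_lit 2) (.e (nat_lit 90172) (nat_lit 14) (.e (nat_lit 180244) (nat_lit 5) (.e (nat_lit 532515) (nat_lit 3) (.e (nat_lit 114708) (nat_lit 20) .nil)))))))) (.g (nat_lit 5) .nil .nil))) 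
(.lf (nat_lit 77420) (.g (nat_lit 2319) (.e (nat_lit 1800) (nat_lit 119) (.e (nat_lit 516117) (nat_lit 1) (.e (nat_lit 164329) (nat_lit 230) (.e (nat_lit 163942) (nat_lit 19) (.e (nat_lit 491264) (nat_lit 11) (.e (nat_lit 442377) (nat_lit 0) .nil)))))) (.g (nat_lit 4) .nil .nil)))) (.nd (nat_lit 5) 
(.lf (nat_lit 77404) (.g (nat_lit 3788) (.e (nat_lit 1800) (nat_lit 119) (.e (nat_lit 516117) (nat_lit 1) (.e (nat_lit 164329) (nat_lit 230) (.e (nat_lit 163850) (nat_lit 0) (.e (nat_lit 3304) (nat_lit 202) (.e (nat_lit 573489) (nat_lit 14) (.e (nat_lit 73755) (nat_lit 8) (.e (nat_lit 557098) (nat_lit 13) (.e (nat_lit 172136) (nat_lit 15) .nil))))))))) (.g (nat_lit 5) .nil .nil))) 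
(.lf (nat_lit 77436) (.g (nat_lit 1977) (.e (nat_lit 1800) (nat_lit 119) (.e (nat_lit 516117) (nat_lit 1) (.e (nat_lit 164332) (nat_lit 230) (.e (nat_lit 163874) (nat_lit 3) (.e (nat_lit 204837) (nat_lit 20) (.e (nat_lit 114716) (nat_lit 22) (.e (nat_lit 90169) (nat_lit 13) (.e (nat_lit 172133) (nat_lit 15) .nil)))))))) (.g (nat_lit 4) .nil .nil))))))) 
(.nd (nat_lit 2) (.nd (nat_lit 3) (.nd (nat_lit 4) (.nd (nat_lit 5) 
(.lf (nat_lit 77378) (.g (nat_lit 2869) (.e (nat_lit 1800) (nat_lit 119) (.e (nat_lit 516115) (nat_lit 1) (.e (nat_lit 164403) (nat_lit 256) (.e (nat_lit 57373) (nat_lit 2) (.e (nat_lit 90168) (nat_lit 13) (.e (nat_lit 172067) (nat_lit 3) (.e (nat_lit 204837) (nat_lit 20) (.e (nat_lit 114708) (nat_lit 20) .nil)))))))) (.g (nat_lit 4) .nil .nil))) 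
(.lf (nat_lit 77410) (.g (nat_lit 2177) (.e (nat_lit 1800) (nat_lit 119) (.e (nat_lit 516117) (nat_lit 1) (.e (nat_lit 164329) (nat_lit 230) (.e (nat_lit 163902) (nat_lit 12) (.e (nat_lit 426568) (nat_lit 34) (.e (nat_lit 393266) (nat_lit 23) (.e (nat_lit 426396) (nat_lit 15) .nil))))))) (.g (nat_lit 4) .nil .nil)))) (.nd (nat_lit 5) 
(.lf (nat_lit 77394) (.g (nat_lit 2714) (.e (nat_lit 1800) (nat_lit 119) (.e (nat_lit 516115) (nat_lit 1) (.e (nat_lit 164403) (nat_lit 256) (.e (nat_lit 57378) (nat_lit 3) (.e (nat_lit 98356) (nat_lit 26) (.e (nat_lit 426131) (nat_lit 3) (.e (nat_lit 204837) (nat_lit 20) (.e (nat_lit 114708) (nat_lit 20) .nil)))))))) (.g (nat_lit 4) .nil .nil))) 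
(.lf (nat_lit 77426) (.g (nat_lit 3361) (.e (nat_lit 1800) (nat_lit 119) (.e (nat_lit 516117) (nat_lit 1) (.e (nat_lit 164330) (nat_lit 230) (.e (nat_lit 163872) (nat_lit 3) (.e (nat_lit 204838) (nat_lit 20) (.e (nat_lit 114716) (nat_lit 22) (.e (nat_lit 90169) (nat_lit 13) (.e (nat_lit 172133) (nat_lit 15) .nil)))))))) (.g (nat_lit 6) .nil .nil))))) (.nd (nat_lit 4) (.nd (nat_lit 5) 
(.lf (nat_lit 77386) (.g (nat_lit 3075) (.e (nat_lit 1800) (nat_lit 119) (.e (nat_lit 516115) (nat_lit 1) (.e (nat_lit 164403) (nat_lit 256) (.e (nat_lit 57373) (nat_lit 2) (.e (nat_lit 90172) (nat_lit 14) (.e (nat_lit 180244) (nat_lit 5) (.e (nat_lit 532514) (nat_lit 3) (.e (nat_lit 114708) (nat_lit 20) .nil)))))))) (.g (nat_lit 4) .nil .nil))) 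
(.lf (nat_lit 77418) (.g (nat_lit 3207) (.e (nat_lit 1800) (nat_lit 119) (.e (nat_lit 516117) (nat_lit 1) (.e (nat_lit 164329) (nat_lit 230) (.e (nat_lit 163902) (nat_lit 12) (.e (nat_lit 426568) (nat_lit 34) (.e (nat_lit 393281) (nat_lit 23) (.e (nat_lit 426410) (nat_lit 15) .nil))))))) (.g (nat_lit 6) .nil .nil)))) (.nd (nat_lit 5) 
(.lf (nat_lit 77402) (.g (nat_lit 2139) (.e (nat_lit 1800) (nat_lit 119) (.e (nat_lit 516117) (nat_lit 1) (.e (nat_lit 164329) (nat_lit 230) (.e (nat_lit 163850) (nat_lit 0) (.e (nat_lit 3251) (nat_lit 197) .nil))))) .nil)) 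
(.lf (nat_lit 77434) (.g (nat_lit 1659) (.e (nat_lit 1800) (nat_lit 119) (.e (nat_lit 516117) (nat_lit 1) (.e (nat_lit 164330) (nat_lit 230) (.e (nat_lit 163942) (nat_lit 19) .nil)))) .nil))))) (.nd (nat_lit 3) (.nd (nat_lit 4) (.nd (nat_lit 5) 
(.lf (nat_lit 77382) (.g (nat_lit 4435) (.e (nat_lit 1800) (nat_lit 119) (.e (nat_lit 516115) (nat_lit 1) (.e (nat_lit 164403) (nat_lit 256) (.e (nat_lit 57373) (nat_lit 2) (.e (nat_lit 90170) (nat_lit 13) (.e (nat_lit 172067) (nat_lit 3) (.e (nat_lit 204837) (nat_lit 20) (.e (nat_lit 114708) (nat_lit 20) .nil)))))))) (.g (nat_lit 6) .nil .nil))) 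
(.lf (nat_lit 77414) (.g (nat_lit 2424) (.e (nat_lit 1800) (nat_lit 119) (.e (nat_lit 516117) (nat_lit 1) (.e (nat_lit 164329) (nat_lit 230) (.e (nat_lit 163902) (nat_lit 12) (.e (nat_lit 426568) (nat_lit 34) (.e (nat_lit 393275) (nat_lit 23) (.e (nat_lit 426380) (nat_lit 15) .nil))))))) (.g (nat_lit 4) .nil .nil)))) (.nd (nat_lit 5) 
(.lf (nat_lit 77398) (.g (nat_lit 3992) (.e (nat_lit 1800) (nat_lit 119) (.e (nat_lit 516115) (nat_lit 1) (.e (nat_lit 164403) (nat_lit 256) (.e (nat_lit 57378) (nat_lit 3) (.e (nat_lit 98367) (nat_lit 27) (.e (nat_lit 434231) (nat_lit 23) (.e (nat_lit 532514) (nat_lit 3) (.e (nat_lit 114708) (nat_lit 20) .nil)))))))) (.g (nat_lit 6) .nil .nil))) 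
(.lf (nat_lit 77430) (.g (nat_lit 1764) (.e (nat_lit 1800) (nat_lit 119) (.e (nat_lit 516117) (nat_lit 1) (.e (nat_lit 164330) (nat_lit 230) (.e (nat_lit 163902) (nat_lit 12) .nil)))) .nil)))) (.nd (nat_lit 4) (.nd (nat_lit 5) 
(.lf (nat_lit 77390) (.g (nat_lit 4854) (.e (nat_lit 1800) (nat_lit 119) (.e (nat_lit 516115) (nat_lit 1) (.e (nat_lit 164403) (nat_lit 256) (.e (nat_lit 57373) (nat_lit 2) (.e (nat_lit 90174) (nat_lit 14) (.e (nat_lit 180243) (nat_lit 5) (.e (nat_lit 532513) (nat_lit 3) (.e (nat_lit 114708) (nat_lit 20) .nil)))))))) (.g (nat_lit 6) .nil .nil))) 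
(.lf (nat_lit 77422) (.g (nat_lit 491) (.e (nat_lit 1800) (nat_lit 119) (.e (nat_lit 516117) (nat_lit 1) (.e (nat_lit 164330) (nat_lit 230) .nil))) .nil))) (.nd (nat_lit 5) 
(.lf (nat_lit 77406) (.g (nat_lit 2803) (.e (nat_lit 1800) (nat_lit 119) (.e (nat_lit 516117) (nat_lit 1) (.e (nat_lit 164329) (nat_lit 230) (.e (nat_lit 163902) (nat_lit 12) (.e (nat_lit 426479) (nat_lit 27) (.e (nat_lit 336430) (nat_lit 29) (.e (nat_lit 442379) (nat_lit 0) .nil))))))) (.g (nat_lit 7) .nil .nil))) 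
(.lf (nat_lit 77438) (.g (nat_lit 2833) (.e (nat_lit 1800) (nat_lit 119) (.e (nat_lit 516117) (nat_lit 1) (.e (nat_lit 164332) (nat_lit 230) (.e (nat_lit 163902) (nat_lit 12) (.e (nat_lit 426479) (nat_lit 27) (.e (nat_lit 336430) (nat_lit 29) (.e (nat_lit 442379) (nat_lit 0) .nil))))))) (.g (nat_lit 0) .nil .nil)))))))) 
(.nd (nat_lit 1) (.nd (nat_lit 2) (.nd (nat_lit 3) (.nd (nat_lit 4) (.nd (nat_lit 5) 
(.lf (nat_lit 77377) (.g (nat_lit 2900) (.e (nat_lit 1800) (nat_lit 119) (.e (nat_lit 516115) (nat_lit 1) (.e (nat_lit 164403) (nat_lit 256) (.e (nat_lit 57373) (nat_lit 2) (.e (nat_lit 90167) (nat_lit 13) (.e (nat_lit 172067) (nat_lit 3) (.e (nat_lit 204838) (nat_lit 20) (.e (nat_lit 114708) (nat_lit 20) .nil)))))))) (.g (nat_lit 4) .nil .nil))) 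
(.lf (nat_lit 77409) (.g (nat_lit 1459) (.e (nat_lit 1800) (nat_lit 119) (.e (nat_lit 516117) (nat_lit 1) (.e (nat_lit 164329) (nat_lit 230) (.e (nat_lit 163902) (nat_lit 12) (.e (nat_lit 426568) (nat_lit 34) .nil))))) .nil))) (.nd (nat_lit 5) 
(.lf (nat_lit 77393) (.g (nat_lit 2525) (.e (nat_lit 1800) (nat_lit 119) (.e (nat_lit 516115) (nat_lit 1) (.e (nat_lit 164403) (nat_lit 256) (.e (nat_lit 57377) (nat_lit 3) (.e (nat_lit 98357) (nat_lit 26) .nil))))) .nil)) 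
(.lf (nat_lit 77425) (.g (nat_lit 3810) (.e (nat_lit 1800) (nat_lit 119) (.e (nat_lit 516117) (nat_lit 1) (.e (nat_lit 164330) (nat_lit 230) (.e (nat_lit 163851) (nat_lit 0) (.e (nat_lit 3307) (nat_lit 202) (.e (nat_lit 573489) (nat_lit 14) (.e (nat_lit 73755) (nat_lit 8) (.e (nat_lit 557097) (nat_lit 13) (.e (nat_lit 172133) (nat_lit 15) .nil))))))))) (.g (nat_lit 6) .nil .nil))))) 
(.nd (nat_lit 4) (.nd (nat_lit 5) 
(.lf (nat_lit 77385) (.g (nat_lit 4571) (.e (nat_lit 1800) (nat_lit 119) (.e (nat_lit 516115) (nat_lit 1) (.e (nat_lit 164403) (nat_lit 256) (.e (nat_lit 57373) (nat_lit 2) (.e (nat_lit 90172) (nat_lit 14) (.e (nat_lit 180244) (nat_lit 5) (.e (nat_lit 532513) (nat_lit 3) (.e (nat_lit 114708) (nat_lit 20) .nil)))))))) (.g (nat_lit 6) .nil .nil))) 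
(.lf (nat_lit 77417) (.g (nat_lit 2732) (.e (nat_lit 1800) (nat_lit 119) (.e (nat_lit 516117) (nat_lit 1) (.e (nat_lit 164329) (nat_lit 230) (.e (nat_lit 163902) (nat_lit 12) (.e (nat_lit 426568) (nat_lit 34) (.e (nat_lit 393281) (nat_lit 23) (.e (nat_lit 426387) (nat_lit 15) .nil))))))) (.g (nat_lit 5) .nil .nil)))) (.nd (nat_lit 5) 
(.lf (nat_lit 77401) (.g (nat_lit 1407) (.e (nat_lit 1800) (nat_lit 119) (.e (nat_lit 516117) (nat_lit 1) (.e (nat_lit 164329) (nat_lit 230) (.e (nat_lit 163850) (nat_lit 0) .nil)))) .nil)) 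
(.lf (nat_lit 77433) (.g (nat_lit 1362) (.e (nat_lit 1800) (nat_lit 119) (.e (nat_lit 516117) (nat_lit 1) (.e (nat_lit 164330) (nat_lit 230) (.e (nat_lit 163905) (nat_lit 12) .nil)))) .nil))))) (.nd (nat_lit 3) (.nd (nat_lit 4) (.nd (nat_lit 5) 
(.lf (nat_lit 77381) (.g (nat_lit 2839) (.e (nat_lit 1800) (nat_lit 119) (.e (nat_lit 516115) (nat_lit 1) (.e (nat_lit 164403) (nat_lit 256) (.e (nat_lit 57373) (nat_lit 2) (.e (nat_lit 90170) (nat_lit 13) (.e (nat_lit 172067) (nat_lit 3) (.e (nat_lit 204837) (nat_lit 20) (.e (nat_lit 114707) (nat_lit 20) .nil)))))))) (.g (nat_lit 4) .nil .nil))) 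
(.lf (nat_lit 77413) (.g (nat_lit 2223) (.e (nat_lit 1800) (nat_lit 119) (.e (nat_lit 516117) (nat_lit 1) (.e (nat_lit 164329) (nat_lit 230) (.e (nat_lit 163902) (nat_lit 12) (.e (nat_lit 426568) (nat_lit 34) (.e (nat_lit 393274) (nat_lit 23) (.e (nat_lit 426412) (nat_lit 15) .nil))))))) (.g (nat_lit 4) .nil .nil)))) (.nd (nat_lit 5) 
(.lf (nat_lit 77397) (.g (nat_lit 4237) (.e (nat_lit 1800) (nat_lit 119) (.e (nat_lit 516115) (nat_lit 1) (.e (nat_lit 164403) (nat_lit 256) (.e (nat_lit 57378) (nat_lit 3) (.e (nat_lit 98366) (nat_lit 27) (.e (nat_lit 434231) (nat_lit 23) (.e (nat_lit 532514) (nat_lit 3) (.e (nat_lit 114708) (nat_lit 20) .nil)))))))) (.g (nat_lit 6) .nil .nil))) 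
(.lf (nat_lit 77429) (.g (nat_lit 2357) (.e (nat_lit 1800) (nat_lit 119) (.e (nat_lit 516117) (nat_lit 1) (.e (nat_lit 164330) (nat_lit 230) (.e (nat_lit 163874) (nat_lit 3) (.e (nat_lit 204838) (nat_lit 20) (.e (nat_lit 114716) (nat_lit 22) (.e (nat_lit 90169) (nat_lit 13) (.e (nat_lit 172133) (nat_lit 15) .nil)))))))) (.g (nat_lit 4) .nil .nil))))) (.nd (nat_lit 4) (.nd (nat_lit 5) 
(.lf (nat_lit 77389) (.g (nat_lit 4268) (.e (nat_lit 1800) (nat_lit 119) (.e (nat_lit 516115) (nat_lit 1) (.e (nat_lit 164403) (nat_lit 256) (.e (nat_lit 57373) (nat_lit 2) (.e (nat_lit 90174) (nat_lit 14) (.e (nat_lit 180243) (nat_lit 5) (.e (nat_lit 532513) (nat_lit 3) (.e (nat_lit 114707) (nat_lit 20) .nil)))))))) (.g (nat_lit 5) .nil .nil))) 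
(.lf (nat_lit 77421) (.g (nat_lit 1980) (.e (nat_lit 1800) (nat_lit 119) (.e (nat_lit 516117) (nat_lit 1) (.e (nat_lit 164329) (nat_lit 230) (.e (nat_lit 163942) (nat_lit 19) (.e (nat_lit 491264) (nat_lit 11) (.e (nat_lit 450304) (nat_lit 0) .nil)))))) (.g (nat_lit 4) .nil .nil)))) (.nd (nat_lit 5) 
(.lf (nat_lit 77405) (.g (nat_lit 3118) (.e (nat_lit 1800) (nat_lit 119) (.e (nat_lit 516117) (nat_lit 1) (.e (nat_lit 164329) (nat_lit 230) (.e (nat_lit 163902) (nat_lit 12) (.e (nat_lit 426479) (nat_lit 27) (.e (nat_lit 336430) (nat_lit 29) (.e (nat_lit 442378) (nat_lit 0) .nil))))))) (.g (nat_lit 6) .nil .nil))) 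
(.lf (nat_lit 77437) (.g (nat_lit 2417) (.e (nat_lit 1800) (nat_lit 119) (.e (nat_lit 516117) (nat_lit 1) (.e (nat_lit 164332) (nat_lit 230) (.e (nat_lit 163902) (nat_lit 12) (.e (nat_lit 426479) (nat_lit 27) (.e (nat_lit 336430) (nat_lit 29) (.e (nat_lit 442378) (nat_lit 0) .nil))))))) (.g (nat_lit 6) .nil .nil))))))) (.nd (nat_lit 2) (.nd (nat_lit 3) (.nd (nat_lit 4) (.nd (nat_lit 5) 
(.lf (nat_lit 77379) (.g (nat_lit 3715) (.e (nat_lit 1800) (nat_lit 119) (.e (nat_lit 516115) (nat_lit 1) (.e (nat_lit 164403) (nat_lit 256) (.e (nat_lit 57373) (nat_lit 2) (.e (nat_lit 90170) (nat_lit 13) (.e (nat_lit 172065) (nat_lit 3) (.e (nat_lit 204837) (nat_lit 20) (.e (nat_lit 114708) (nat_lit 20) .nil)))))))) (.g (nat_lit 5) .nil .nil))) 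
(.lf (nat_lit 77411) (.g (nat_lit 2858) (.e (nat_lit 1800) (nat_lit 119) (.e (nat_lit 516117) (nat_lit 1) (.e (nat_lit 164329) (nat_lit 230) (.e (nat_lit 163902) (nat_lit 12) (.e (nat_lit 426568) (nat_lit 34) (.e (nat_lit 393267) (nat_lit 23) (.e (nat_lit 426382) (nat_lit 15) .nil))))))) (.g (nat_lit 5) .nil .nil)))) (.nd (nat_lit 5) 
(.lf (nat_lit 77395) (.g (nat_lit 3121) (.e (nat_lit 1800) (nat_lit 119) (.e (nat_lit 516115) (nat_lit 1) (.e (nat_lit 164403) (nat_lit 256) (.e (nat_lit 57378) (nat_lit 3) (.e (nat_lit 98358) (nat_lit 26) (.e (nat_lit 426131) (nat_lit 3) (.e (nat_lit 204837) (nat_lit 20) (.e (nat_lit 114708) (nat_lit 20) .nil)))))))) (.g (nat_lit 6) .nil .nil))) 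
(.lf (nat_lit 77427) (.g (nat_lit 2716) (.e (nat_lit 1800) (nat_lit 119) (.e (nat_lit 516117) (nat_lit 1) (.e (nat_lit 164330) (nat_lit 230) (.e (nat_lit 163873) (nat_lit 3) (.e (nat_lit 204809) (nat_lit 9) (.e (nat_lit 426139) (nat_lit 3) (.e (nat_lit 204837) (nat_lit 20) (.e (nat_lit 114708) (nat_lit 20) .nil)))))))) (.g (nat_lit 4) .nil .nil))))) (.nd (nat_lit 4) (.nd (nat_lit 5) 
(.lf (nat_lit 77387) (.g (nat_lit 2785) (.e (nat_lit 1800) (nat_lit 119) (.e (nat_lit 516115) (nat_lit 1) (.e (nat_lit 164403) (nat_lit 256) (.e (nat_lit 57373) (nat_lit 2) (.e (nat_lit 90172) (nat_lit 14) (.e (nat_lit 180244) (nat_lit 5) (.e (nat_lit 532515) (nat_lit 3) (.e (nat_lit 114707) (nat_lit 20) .nil)))))))) (.g (nat_lit 4) .nil .nil))) 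
(.lf (nat_lit 77419) (.g (nat_lit 3059) (.e (nat_lit 1800) (nat_lit 119) (.e (nat_lit 516117) (nat_lit 1) (.e (nat_lit 164329) (nat_lit 230) (.e (nat_lit 163902) (nat_lit 12) (.e (nat_lit 426568) (nat_lit 34) (.e (nat_lit 393281) (nat_lit 23) (.e (nat_lit 426413) (nat_lit 15) .nil))))))) (.g (nat_lit 5) .nil .nil)))) (.nd (nat_lit 5) 
(.lf (nat_lit 77403) (.g (nat_lit 3765) (.e (nat_lit 1800) (nat_lit 119) (.e (nat_lit 516117) (nat_lit 1) (.e (nat_lit 164329) (nat_lit 230) (.e (nat_lit 163850) (nat_lit 0) (.e (nat_lit 3304) (nat_lit 202) (.e (nat_lit 573489) (nat_lit 14) (.e (nat_lit 73755) (nat_lit 8) (.e (nat_lit 557096) (nat_lit 13) (.e (nat_lit 172133) (nat_lit 15) .nil))))))))) (.g (nat_lit 6) .nil .nil))) 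
(.lf (nat_lit 77435) (.g (nat_lit 352) (.e (nat_lit 1800) (nat_lit 119) (.e (nat_lit 516117) (nat_lit 1) (.e (nat_lit 164332) (nat_lit 230) .nil))) .nil))))) (.nd (nat_lit 3) (.nd (nat_lit 4) (.nd (nat_lit 5) 
(.lf (nat_lit 77383) (.g (nat_lit 4209) (.e (nat_lit 1800) (nat_lit 119) (.e (nat_lit 516115) (nat_lit 1) (.e (nat_lit 164403) (nat_lit 256) (.e (nat_lit 57373) (nat_lit 2) (.e (nat_lit 90170) (nat_lit 13) (.e (nat_lit 172067) (nat_lit 3) (.e (nat_lit 204838) (nat_lit 20) (.e (nat_lit 114708) (nat_lit 20) .nil)))))))) (.g (nat_lit 6) .nil .nil))) 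
(.lf (nat_lit 77415) (.g (nat_lit 2134) (.e (nat_lit 1800) (nat_lit 119) (.e (nat_lit 516117) (nat_lit 1) (.e (nat_lit 164329) (nat_lit 230) (.e (nat_lit 163902) (nat_lit 12) (.e (nat_lit 426568) (nat_lit 34) (.e (nat_lit 393275) (nat_lit 23) (.e (nat_lit 426410) (nat_lit 15) .nil))))))) (.g (nat_lit 4) .nil .nil)))) (.nd (nat_lit 5) 
(.lf (nat_lit 77399) (.g (nat_lit 598) (.e (nat_lit 1800) (nat_lit 119) (.e (nat_lit 516117) (nat_lit 1) (.e (nat_lit 164322) (nat_lit 230) .nil))) .nil)) 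
(.lf (nat_lit 77431) (.g (nat_lit 3134) (.e (nat_lit 1800) (nat_lit 119) (.e (nat_lit 516117) (nat_lit 1) (.e (nat_lit 164330) (nat_lit 230) (.e (nat_lit 163902) (nat_lit 12) (.e (nat_lit 426479) (nat_lit 27) .nil))))) .nil)))) (.nd (nat_lit 4) (.nd (nat_lit 5) 
(.lf (nat_lit 77391) (.g (nat_lit 2857) (.e (nat_lit 1800) (nat_lit 119) (.e (nat_lit 516115) (nat_lit 1) (.e (nat_lit 164403) (nat_lit 256) (.e (nat_lit 57373) (nat_lit 2) (.e (nat_lit 90174) (nat_lit 14) (.e (nat_lit 180243) (nat_lit 5) (.e (nat_lit 532515) (nat_lit 3) (.e (nat_lit 114707) (nat_lit 20) .nil)))))))) (.g (nat_lit 4) .nil .nil))) 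
(.lf (nat_lit 77423) (.g (nat_lit 2997) (.e (nat_lit 1800) (nat_lit 119) (.e (nat_lit 516117) (nat_lit 1) (.e (nat_lit 164330) (nat_lit 230) (.e (nat_lit 163850) (nat_lit 0) (.e (nat_lit 3304) (nat_lit 202) (.e (nat_lit 573489) (nat_lit 14) (.e (nat_lit 73755) (nat_lit 8) (.e (nat_lit 557096) (nat_lit 13) (.e (nat_lit 172133) (nat_lit 15) .nil))))))))) (.g (nat_lit 4) .nil .nil)))) 
(.nd (nat_lit 5) 
(.lf (nat_lit 77407) (.g (nat_lit 3107) (.e (nat_lit 1800) (nat_lit 119) (.e (nat_lit 516117) (nat_lit 1) (.e (nat_lit 164329) (nat_lit 230) (.e (nat_lit 163902) (nat_lit 12) (.e (nat_lit 426479) (nat_lit 27) (.e (nat_lit 336430) (nat_lit 29) (.e (nat_lit 450304) (nat_lit 0) .nil))))))) (.g (nat_lit 6) .nil .nil))) 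
(.lf (nat_lit 77439) (.g (nat_lit 2509) (.e (nat_lit 1800) (nat_lit 119) (.e (nat_lit 516117) (nat_lit 1) (.e (nat_lit 164332) (nat_lit 230) (.e (nat_lit 163902) (nat_lit 12) (.e (nat_lit 426479) (nat_lit 27) (.e (nat_lit 336430) (nat_lit 29) (.e (nat_lit 450304) (nat_lit 0) .nil))))))) (.g (nat_lit 6) .nil .nil)))))))))

noncomputable def tv1047 : DT := (.nd (nat_lit 0) (.nd (nat_lit 1) (.nd (nat_lit 2) (.nd (nat_lit 3) (.nd (nat_lit 4) (.nd (nat_lit 5) 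
(.lf (nat_lit 77440) (.g (nat_lit 1555) (.e (nat_lit 1800) (nat_lit 119) (.e (nat_lit 516117) (nat_lit 1) (.e (nat_lit 164332) (nat_lit 230) (.e (nat_lit 163902) (nat_lit 12) (.e (nat_lit 426479) (nat_lit 27) (.e (nat_lit 336443) (nat_lit 32) (.e (nat_lit 474880) (nat_lit 0) .nil))))))) (.g (nat_lit 4) .nil .nil))) 
(.lf (nat_lit 77472) (.g (nat_lit 2026) (.e (nat_lit 1800) (nat_lit 119) (.e (nat_lit 516117) (nat_lit 1) (.e (nat_lit 164396) (nat_lit 256) (.e (nat_lit 57375) (nat_lit 2) (.e (nat_lit 90174) (nat_lit 14) (.e (nat_lit 180243) (nat_lit 5) (.e (nat_lit 532513) (nat_lit 3) (.e (nat_lit 114707) (nat_lit 20) .nil)))))))) (.g (nat_lit 4) .nil .nil)))) (.nd (nat_lit 5) 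
(.lf (nat_lit 77456) (.g (nat_lit 2232) (.e (nat_lit 1800) (nat_lit 119) (.e (nat_lit 516117) (nat_lit 1) (.e (nat_lit 164332) (nat_lit 230) (.e (nat_lit 163943) (nat_lit 19) (.e (nat_lit 491264) (nat_lit 11) (.e (nat_lit 442377) (nat_lit 0) .nil)))))) (.g (nat_lit 4) .nil .nil))) 
(.lf (nat_lit 77488) (.g (nat_lit 3763) (.e (nat_lit 1800) (nat_lit 119) (.e (nat_lit 516117) (nat_lit 1) (.e (nat_lit 164398) (nat_lit 256) (.e (nat_lit 57372) (nat_lit 2) (.e (nat_lit 90167) (nat_lit 13) (.e (nat_lit 172067) (nat_lit 3) (.e (nat_lit 204837) (nat_lit 20) (.e (nat_lit 114708) (nat_lit 20) .nil)))))))) (.g (nat_lit 6) .nil .nil))))) (.nd (nat_lit 4) (.nd (nat_lit 5) 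
(.lf (nat_lit 77448) (.g (nat_lit 2442) (.e (nat_lit 1800) (nat_lit 119) (.e (nat_lit 516117) (nat_lit 1) (.e (nat_lit 164332) (nat_lit 230) (.e (nat_lit 163905) (nat_lit 12) (.e (nat_lit 426568) (nat_lit 34) (.e (nat_lit 393275) (nat_lit 23) (.e (nat_lit 426396) (nat_lit 15) .nil))))))) (.g (nat_lit 5) .nil .nil))) 
(.lf (nat_lit 77480) (.g (nat_lit 2571) (.e (nat_lit 1800) (nat_lit 119) (.e (nat_lit 516117) (nat_lit 1) (.e (nat_lit 164397) (nat_lit 256) (.e (nat_lit 57375) (nat_lit 2) (.e (nat_lit 90172) (nat_lit 14) (.e (nat_lit 180244) (nat_lit 5) (.e (nat_lit 532513) (nat_lit 3) (.e (nat_lit 114707) (nat_lit 20) .nil)))))))) (.g (nat_lit 4) .nil .nil)))) (.nd (nat_lit 5) 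
(.lf (nat_lit 77464) (.g (nat_lit 2155) (.e (nat_lit 1800) (nat_lit 119) (.e (nat_lit 516117) (nat_lit 1) (.e (nat_lit 164396) (nat_lit 256) (.e (nat_lit 57371) (nat_lit 2) (.e (nat_lit 90172) (nat_lit 14) (.e (nat_lit 180244) (nat_lit 5) (.e (nat_lit 532514) (nat_lit 3) (.e (nat_lit 114708) (nat_lit 20) .nil)))))))) (.g (nat_lit 4) .nil .nil))) 
(.lf (nat_lit 77496) (.g (nat_lit 3552) (.e (nat_lit 1800) (nat_lit 119) (.e (nat_lit 516117) (nat_lit 1) (.e (nat_lit 164398) (nat_lit 256) (.e (nat_lit 57372) (nat_lit 2) (.e (nat_lit 90174) (nat_lit 14) (.e (nat_lit 180243) (nat_lit 5) (.e (nat_lit 532513) (nat_lit 3) (.e (nat_lit 114707) (nat_lit 20) .nil)))))))) (.g (nat_lit 5) .nil .nil)))))) 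
(.nd (nat_lit 3) (.nd (nat_lit 4) (.nd (nat_lit 5) 
(.lf (nat_lit 77444) (.g (nat_lit 2590) (.e (nat_lit 1800) (nat_lit 119) (.e (nat_lit 516117) (nat_lit 1) (.e (nat_lit 164332) (nat_lit 230) (.e (nat_lit 163905) (nat_lit 12) (.e (nat_lit 426479) (nat_lit 27) (.e (nat_lit 336430) (nat_lit 29) (.e (nat_lit 442379) (nat_lit 0) .nil))))))) (.g (nat_lit 0) .nil .nil))) 
(.lf (nat_lit 77476) (.g (nat_lit 3009) (.e (nat_lit 1800) (nat_lit 119) (.e (nat_lit 516117) (nat_lit 1) (.e (nat_lit 164397) (nat_lit 256) (.e (nat_lit 57371) (nat_lit 2) (.e (nat_lit 90174) (nat_lit 14) (.e (nat_lit 180243) (nat_lit 5) (.e (nat_lit 532513) (nat_lit 3) (.e (nat_lit 114708) (nat_lit 20) .nil)))))))) (.g (nat_lit 5) .nil .nil)))) (.nd (nat_lit 5) 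
(.lf (nat_lit 77460) (.g (nat_lit 2120) (.e (nat_lit 1800) (nat_lit 119) (.e (nat_lit 516117) (nat_lit 1) (.e (nat_lit 164396) (nat_lit 256) (.e (nat_lit 57371) (nat_lit 2) (.e (nat_lit 90172) (nat_lit 14) (.e (nat_lit 180243) (nat_lit 5) (.e (nat_lit 532513) (nat_lit 3) (.e (nat_lit 114707) (nat_lit 20) .nil)))))))) (.g (nat_lit 4) .nil .nil))) 
(.lf (nat_lit 77492) (.g (nat_lit 3616) (.e (nat_lit 1800) (nat_lit 119) (.e (nat_lit 516117) (nat_lit 1) (.e (nat_lit 164398) (nat_lit 256) (.e (nat_lit 57372) (nat_lit 2) (.e (nat_lit 90172) (nat_lit 14) (.e (nat_lit 180244) (nat_lit 5) (.e (nat_lit 532513) (nat_lit 3) (.e (nat_lit 114707) (nat_lit 20) .nil)))))))) (.g (nat_lit 5) .nil .nil))))) (.nd (nat_lit 4) (.nd (nat_lit 5) 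
(.lf (nat_lit 77452) (.g (nat_lit 1908) (.e (nat_lit 1800) (nat_lit 119) (.e (nat_lit 516117) (nat_lit 1) (.e (nat_lit 164332) (nat_lit 230) (.e (nat_lit 163941) (nat_lit 19) (.e (nat_lit 491264) (nat_lit 11) (.e (nat_lit 442377) (nat_lit 0) .nil)))))) (.g (nat_lit 4) .nil .nil))) 
(.lf (nat_lit 77484) (.g (nat_lit 3164) (.e (nat_lit 1800) (nat_lit 119) (.e (nat_lit 516117) (nat_lit 1) (.e (nat_lit 164397) (nat_lit 256) (.e (nat_lit 57379) (nat_lit 3) (.e (nat_lit 98367) (nat_lit 27) (.e (nat_lit 434231) (nat_lit 23) (.e (nat_lit 532514) (nat_lit 3) (.e (nat_lit 114708) (nat_lit 20) .nil)))))))) (.g (nat_lit 6) .nil .nil)))) (.nd (nat_lit 5) 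
(.lf (nat_lit 77468) (.g (nat_lit 2300) (.e (nat_lit 1800) (nat_lit 119) (.e (nat_lit 516117) (nat_lit 1) (.e (nat_lit 164396) (nat_lit 256) (.e (nat_lit 57371) (nat_lit 2) (.e (nat_lit 90174) (nat_lit 14) (.e (nat_lit 180243) (nat_lit 5) (.e (nat_lit 532515) (nat_lit 3) (.e (nat_lit 114707) (nat_lit 20) .nil)))))))) (.g (nat_lit 4) .nil .nil))) 
(.lf (nat_lit 77500) (.g (nat_lit 2282) (.e (nat_lit 1800) (nat_lit 119) (.e (nat_lit 516117) (nat_lit 1) (.e (nat_lit 164398) (nat_lit 256) (.e (nat_lit 57373) (nat_lit 2) (.e (nat_lit 90168) (nat_lit 13) (.e (nat_lit 172067) (nat_lit 3) (.e (nat_lit 204837) (nat_lit 20) (.e (nat_lit 114708) (nat_lit 20) .nil)))))))) (.g (nat_lit 4) .nil .nil))))))) 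
(.nd (nat_lit 2) (.nd (nat_lit 3) (.nd (nat_lit 4) (.nd (nat_lit 5) 
(.lf (nat_lit 77442) (.g (nat_lit 2020) (.e (nat_lit 1800) (nat_lit 119) (.e (nat_lit 516117) (nat_lit 1) (.e (nat_lit 164332) (nat_lit 230) (.e (nat_lit 163902) (nat_lit 12) (.e (nat_lit 426568) (nat_lit 34) (.e (nat_lit 393279) (nat_lit 23) (.e (nat_lit 426419) (nat_lit 15) .nil))))))) (.g (nat_lit 4) .nil .nil))) 
(.lf (nat_lit 77474) (.g (nat_lit 3043) (.e (nat_lit 1800) (nat_lit 119) (.e (nat_lit 516117) (nat_lit 1) (.e (nat_lit 164396) (nat_lit 256) (.e (nat_lit 57379) (nat_lit 3) (.e (nat_lit 98367) (nat_lit 27) (.e (nat_lit 434231) (nat_lit 23) (.e (nat_lit 532514) (nat_lit 3) (.e (nat_lit 114708) (nat_lit 20) .nil)))))))) (.g (nat_lit 5) .nil .nil)))) (.nd (nat_lit 5) 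
(.lf (nat_lit 77458) (.g (nat_lit 2913) (.e (nat_lit 1800) (nat_lit 119) (.e (nat_lit 516117) (nat_lit 1) (.e (nat_lit 164396) (nat_lit 256) (.e (nat_lit 57371) (nat_lit 2) (.e (nat_lit 90167) (nat_lit 13) (.e (nat_lit 172067) (nat_lit 3) (.e (nat_lit 204837) (nat_lit 20) (.e (nat_lit 114708) (nat_lit 20) .nil)))))))) (.g (nat_lit 5) .nil .nil))) 
(.lf (nat_lit 77490) (.g (nat_lit 4070) (.e (nat_lit 1800) (nat_lit 119) (.e (nat_lit 516117) (nat_lit 1) (.e (nat_lit 164398) (nat_lit 256) (.e (nat_lit 57372) (nat_lit 2) (.e (nat_lit 90172) (nat_lit 14) (.e (nat_lit 180243) (nat_lit 5) (.e (nat_lit 532513) (nat_lit 3) (.e (nat_lit 114708) (nat_lit 20) .nil)))))))) (.g (nat_lit 6) .nil .nil))))) (.nd (nat_lit 4) (.nd (nat_lit 5) 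
(.lf (nat_lit 77450) (.g (nat_lit 1791) (.e (nat_lit 1800) (nat_lit 119) (.e (nat_lit 516117) (nat_lit 1) (.e (nat_lit 164332) (nat_lit 230) (.e (nat_lit 163941) (nat_lit 19) (.e (nat_lit 483339) (nat_lit 9) (.e (nat_lit 426259) (nat_lit 9) (.e (nat_lit 426419) (nat_lit 15) .nil))))))) (.g (nat_lit 4) .nil .nil))) 
(.lf (nat_lit 77482) (.g (nat_lit 2260) (.e (nat_lit 1800) (nat_lit 119) (.e (nat_lit 516117) (nat_lit 1) (.e (nat_lit 164397) (nat_lit 256) (.e (nat_lit 57375) (nat_lit 2) (.e (nat_lit 90174) (nat_lit 14) (.e (nat_lit 180243) (nat_lit 5) (.e (nat_lit 532513) (nat_lit 3) (.e (nat_lit 114707) (nat_lit 20) .nil)))))))) (.g (nat_lit 4) .nil .nil)))) (.nd (nat_lit 5) 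
(.lf (nat_lit 77466) (.g (nat_lit 3693) (.e (nat_lit 1800) (nat_lit 119) (.e (nat_lit 516117) (nat_lit 1) (.e (nat_lit 164396) (nat_lit 256) (.e (nat_lit 57371) (nat_lit 2) (.e (nat_lit 90174) (nat_lit 14) (.e (nat_lit 180243) (nat_lit 5) (.e (nat_lit 532513) (nat_lit 3) (.e (nat_lit 114707) (nat_lit 20) .nil)))))))) (.g (nat_lit 6) .nil .nil))) 
(.lf (nat_lit 77498) (.g (nat_lit 2770) (.e (nat_lit 1800) (nat_lit 119) (.e (nat_lit 516117) (nat_lit 1) (.e (nat_lit 164398) (nat_lit 256) (.e (nat_lit 57372) (nat_lit 2) (.e (nat_lit 90174) (nat_lit 14) (.e (nat_lit 180243) (nat_lit 5) (.e (nat_lit 532515) (nat_lit 3) (.e (nat_lit 114708) (nat_lit 20) .nil)))))))) (.g (nat_lit 4) .nil .nil)))))) 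
(.nd (nat_lit 3) (.nd (nat_lit 4) (.nd (nat_lit 5) 
(.lf (nat_lit 77446) (.g (nat_lit 1296) (.e (nat_lit 1800) (nat_lit 119) (.e (nat_lit 516117) (nat_lit 1) (.e (nat_lit 164332) (nat_lit 230) (.e (nat_lit 163905) (nat_lit 12) (.e (nat_lit 426479) (nat_lit 27) (.e (nat_lit 336443) (nat_lit 32) (.e (nat_lit 474880) (nat_lit 0) .nil))))))) (.g (nat_lit 4) .nil .nil))) 
(.lf (nat_lit 77478) (.g (nat_lit 4134) (.e (nat_lit 1800) (nat_lit 119) (.e (nat_lit 516117) (nat_lit 1) (.e (nat_lit 164397) (nat_lit 256) (.e (nat_lit 57374) (nat_lit 2) (.e (nat_lit 90170) (nat_lit 13) (.e (nat_lit 172067) (nat_lit 3) (.e (nat_lit 204837) (nat_lit 20) (.e (nat_lit 114708) (nat_lit 20) .nil)))))))) (.g (nat_lit 7) .nil .nil)))) (.nd (nat_lit 5) 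
(.lf (nat_lit 77462) (.g (nat_lit 2718) (.e (nat_lit 1800) (nat_lit 119) (.e (nat_lit 516117) (nat_lit 1) (.e (nat_lit 164396) (nat_lit 256) (.e (nat_lit 57371) (nat_lit 2) (.e (nat_lit 90172) (nat_lit 14) (.e (nat_lit 180244) (nat_lit 5) (.e (nat_lit 532513) (nat_lit 3) (.e (nat_lit 114707) (nat_lit 20) .nil)))))))) (.g (nat_lit 4) .nil .nil))) 
(.lf (nat_lit 77494) (.g (nat_lit 2713) (.e (nat_lit 1800) (nat_lit 119) (.e (nat_lit 516117) (nat_lit 1) (.e (nat_lit 164398) (nat_lit 256) (.e (nat_lit 57372) (nat_lit 2) (.e (nat_lit 90172) (nat_lit 14) (.e (nat_lit 180244) (nat_lit 5) (.e (nat_lit 532515) (nat_lit 3) (.e (nat_lit 114707) (nat_lit 20) .nil)))))))) (.g (nat_lit 4) .nil .nil))))) (.nd (nat_lit 4) (.nd (nat_lit 5) 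
(.lf (nat_lit 77454) (.g (nat_lit 1672) (.e (nat_lit 1800) (nat_lit 119) (.e (nat_lit 516117) (nat_lit 1) (.e (nat_lit 164332) (nat_lit 230) (.e (nat_lit 163941) (nat_lit 19) (.e (nat_lit 491264) (nat_lit 11) (.e (nat_lit 450304) (nat_lit 0) .nil)))))) (.g (nat_lit 4) .nil .nil))) 
(.lf (nat_lit 77486) (.g (nat_lit 2799) (.e (nat_lit 1800) (nat_lit 119) (.e (nat_lit 516117) (nat_lit 1) (.e (nat_lit 164398) (nat_lit 256) (.e (nat_lit 57371) (nat_lit 2) (.e (nat_lit 90174) (nat_lit 14) (.e (nat_lit 180243) (nat_lit 5) (.e (nat_lit 532513) (nat_lit 3) (.e (nat_lit 114707) (nat_lit 20) .nil)))))))) (.g (nat_lit 4) .nil .nil)))) (.nd (nat_lit 5) 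
(.lf (nat_lit 77470) (.g (nat_lit 3460) (.e (nat_lit 1800) (nat_lit 119) (.e (nat_lit 516117) (nat_lit 1) (.e (nat_lit 164396) (nat_lit 256) (.e (nat_lit 57374) (nat_lit 2) (.e (nat_lit 90170) (nat_lit 13) (.e (nat_lit 172067) (nat_lit 3) (.e (nat_lit 204837) (nat_lit 20) (.e (nat_lit 114708) (nat_lit 20) .nil)))))))) (.g (nat_lit 5) .nil .nil))) 
(.lf (nat_lit 77502) (.g (nat_lit 3220) (.e (nat_lit 1800) (nat_lit 119) (.e (nat_lit 516117) (nat_lit 1) (.e (nat_lit 164398) (nat_lit 256) (.e (nat_lit 57373) (nat_lit 2) (.e (nat_lit 90170) (nat_lit 13) (.e (nat_lit 172065) (nat_lit 3) (.e (nat_lit 204838) (nat_lit 20) (.e (nat_lit 114708) (nat_lit 20) .nil)))))))) (.g (nat_lit 5) .nil .nil)))))))) 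
(.nd (nat_lit 1) (.nd (nat_lit 2) (.nd (nat_lit 3) (.nd (nat_lit 4) (.nd (nat_lit 5) 
(.lf (nat_lit 77441) (.g (nat_lit 2789) (.e (nat_lit 1800) (nat_lit 119) (.e (nat_lit 516117) (nat_lit 1) (.e (nat_lit 164332) (nat_lit 230) (.e (nat_lit 163902) (nat_lit 12) (.e (nat_lit 426568) (nat_lit 34) (.e (nat_lit 393275) (nat_lit 23) (.e (nat_lit 426396) (nat_lit 15) .nil))))))) (.g (nat_lit 5) .nil .nil))) 
(.lf (nat_lit 77473) (.g (nat_lit 3817) (.e (nat_lit 1800) (nat_lit 119) (.e (nat_lit 516117) (nat_lit 1) (.e (nat_lit 164396) (nat_lit 256) (.e (nat_lit 57379) (nat_lit 3) (.e (nat_lit 98366) (nat_lit 27) (.e (nat_lit 434231) (nat_lit 23) (.e (nat_lit 532514) (nat_lit 3) (.e (nat_lit 114708) (nat_lit 20) .nil)))))))) (.g (nat_lit 6) .nil .nil)))) (.nd (nat_lit 5) 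
(.lf (nat_lit 77457) (.g (nat_lit 1738) (.e (nat_lit 1800) (nat_lit 119) (.e (nat_lit 516117) (nat_lit 1) (.e (nat_lit 164332) (nat_lit 230) (.e (nat_lit 163943) (nat_lit 19) (.e (nat_lit 491264) (nat_lit 11) (.e (nat_lit 450304) (nat_lit 0) .nil)))))) (.g (nat_lit 4) .nil .nil))) 
(.lf (nat_lit 77489) (.g (nat_lit 3529) (.e (nat_lit 1800) (nat_lit 119) (.e (nat_lit 516117) (nat_lit 1) (.e (nat_lit 164398) (nat_lit 256) (.e (nat_lit 57372) (nat_lit 2) (.e (nat_lit 90172) (nat_lit 14) (.e (nat_lit 180243) (nat_lit 5) (.e (nat_lit 532513) (nat_lit 3) (.e (nat_lit 114707) (nat_lit 20) .nil)))))))) (.g (nat_lit 5) .nil .nil))))) (.nd (nat_lit 4) (.nd (nat_lit 5) 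
(.lf (nat_lit 77449) (.g (nat_lit 1791) (.e (nat_lit 1800) (nat_lit 119) (.e (nat_lit 516117) (nat_lit 1) (.e (nat_lit 164332) (nat_lit 230) (.e (nat_lit 163905) (nat_lit 12) (.e (nat_lit 426568) (nat_lit 34) (.e (nat_lit 393281) (nat_lit 23) (.e (nat_lit 426410) (nat_lit 15) .nil))))))) (.g (nat_lit 4) .nil .nil))) 
(.lf (nat_lit 77481) (.g (nat_lit 3250) (.e (nat_lit 1800) (nat_lit 119) (.e (nat_lit 516117) (nat_lit 1) (.e (nat_lit 164397) (nat_lit 256) (.e (nat_lit 57375) (nat_lit 2) (.e (nat_lit 90172) (nat_lit 14) (.e (nat_lit 180244) (nat_lit 5) (.e (nat_lit 532513) (nat_lit 3) (.e (nat_lit 114708) (nat_lit 20) .nil)))))))) (.g (nat_lit 6) .nil .nil)))) (.nd (nat_lit 5) 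
(.lf (nat_lit 77465) (.g (nat_lit 2704) (.e (nat_lit 1800) (nat_lit 119) (.e (nat_lit 516117) (nat_lit 1) (.e (nat_lit 164396) (nat_lit 256) (.e (nat_lit 57371) (nat_lit 2) (.e (nat_lit 90172) (nat_lit 14) (.e (nat_lit 180244) (nat_lit 5) (.e (nat_lit 532515) (nat_lit 3) (.e (nat_lit 114708) (nat_lit 20) .nil)))))))) (.g (nat_lit 5) .nil .nil))) 
(.lf (nat_lit 77497) (.g (nat_lit 3927) (.e (nat_lit 1800) (nat_lit 119) (.e (nat_lit 516117) (nat_lit 1) (.e (nat_lit 164398) (nat_lit 256) (.e (nat_lit 57372) (nat_lit 2) (.e (nat_lit 90174) (nat_lit 14) (.e (nat_lit 180243) (nat_lit 5) (.e (nat_lit 532513) (nat_lit 3) (.e (nat_lit 114708) (nat_lit 20) .nil)))))))) (.g (nat_lit 6) .nil .nil)))))) 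
(.nd (nat_lit 3) (.nd (nat_lit 4) (.nd (nat_lit 5) 
(.lf (nat_lit 77445) (.g (nat_lit 2258) (.e (nat_lit 1800) (nat_lit 119) (.e (nat_lit 516117) (nat_lit 1) (.e (nat_lit 164332) (nat_lit 230) (.e (nat_lit 163905) (nat_lit 12) (.e (nat_lit 426479) (nat_lit 27) (.e (nat_lit 336430) (nat_lit 29) (.e (nat_lit 450304) (nat_lit 0) .nil))))))) (.g (nat_lit 6) .nil .nil))) 
(.lf (nat_lit 77477) (.g (nat_lit 3461) (.e (nat_lit 1800) (nat_lit 119) (.e (nat_lit 516117) (nat_lit 1) (.e (nat_lit 164397) (nat_lit 256) (.e (nat_lit 57374) (nat_lit 2) (.e (nat_lit 90170) (nat_lit 13) (.e (nat_lit 172065) (nat_lit 3) (.e (nat_lit 204837) (nat_lit 20) (.e (nat_lit 114708) (nat_lit 20) .nil)))))))) (.g (nat_lit 5) .nil .nil)))) (.nd (nat_lit 5) 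
(.lf (nat_lit 77461) (.g (nat_lit 2887) (.e (nat_lit 1800) (nat_lit 119) (.e (nat_lit 516117) (nat_lit 1) (.e (nat_lit 164396) (nat_lit 256) (.e (nat_lit 57371) (nat_lit 2) (.e (nat_lit 90172) (nat_lit 14) (.e (nat_lit 180243) (nat_lit 5) (.e (nat_lit 532513) (nat_lit 3) (.e (nat_lit 114708) (nat_lit 20) .nil)))))))) (.g (nat_lit 5) .nil .nil))) 
(.lf (nat_lit 77493) (.g (nat_lit 2880) (.e (nat_lit 1800) (nat_lit 119) (.e (nat_lit 516117) (nat_lit 1) (.e (nat_lit 164398) (nat_lit 256) (.e (nat_lit 57372) (nat_lit 2) (.e (nat_lit 90172) (nat_lit 14) (.e (nat_lit 180244) (nat_lit 5) (.e (nat_lit 532514) (nat_lit 3) (.e (nat_lit 114708) (nat_lit 20) .nil)))))))) (.g (nat_lit 4) .nil .nil))))) (.nd (nat_lit 4) (.nd (nat_lit 5) 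
(.lf (nat_lit 77453) (.g (nat_lit 2016) (.e (nat_lit 1800) (nat_lit 119) (.e (nat_lit 516117) (nat_lit 1) (.e (nat_lit 164332) (nat_lit 230) (.e (nat_lit 163941) (nat_lit 19) (.e (nat_lit 491264) (nat_lit 11) (.e (nat_lit 442378) (nat_lit 0) .nil)))))) (.g (nat_lit 4) .nil .nil))) 
(.lf (nat_lit 77485) (.g (nat_lit 2834) (.e (nat_lit 1800) (nat_lit 119) (.e (nat_lit 516117) (nat_lit 1) (.e (nat_lit 164398) (nat_lit 256) (.e (nat_lit 57371) (nat_lit 2) (.e (nat_lit 90172) (nat_lit 14) (.e (nat_lit 180244) (nat_lit 5) (.e (nat_lit 532513) (nat_lit 3) (.e (nat_lit 114708) (nat_lit 20) .nil)))))))) (.g (nat_lit 4) .nil .nil)))) (.nd (nat_lit 5) 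
(.lf (nat_lit 77469) (.g (nat_lit 3159) (.e (nat_lit 1800) (nat_lit 119) (.e (nat_lit 516117) (nat_lit 1) (.e (nat_lit 164396) (nat_lit 256) (.e (nat_lit 57371) (nat_lit 2) (.e (nat_lit 90174) (nat_lit 14) (.e (nat_lit 180243) (nat_lit 5) (.e (nat_lit 532515) (nat_lit 3) (.e (nat_lit 114708) (nat_lit 20) .nil)))))))) (.g (nat_lit 6) .nil .nil))) 
(.lf (nat_lit 77501) (.g (nat_lit 3099) (.e (nat_lit 1800) (nat_lit 119) (.e (nat_lit 516117) (nat_lit 1) (.e (nat_lit 164398) (nat_lit 256) (.e (nat_lit 57373) (nat_lit 2) (.e (nat_lit 90170) (nat_lit 13) (.e (nat_lit 172065) (nat_lit 3) (.e (nat_lit 204837) (nat_lit 20) (.e (nat_lit 114708) (nat_lit 20) .nil)))))))) (.g (nat_lit 5) .nil .nil))))))) 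
(.nd (nat_lit 2) (.nd (nat_lit 3) (.nd (nat_lit 4) (.nd (nat_lit 5) 
(.lf (nat_lit 77443) (.g (nat_lit 2587) (.e (nat_lit 1800) (nat_lit 119) (.e (nat_lit 516117) (nat_lit 1) (.e (nat_lit 164332) (nat_lit 230) (.e (nat_lit 163902) (nat_lit 12) (.e (nat_lit 426568) (nat_lit 34) (.e (nat_lit 393281) (nat_lit 23) (.e (nat_lit 426410) (nat_lit 15) .nil))))))) (.g (nat_lit 5) .nil .nil))) 
(.lf (nat_lit 77475) (.g (nat_lit 2631) (.e (nat_lit 1800) (nat_lit 119) (.e (nat_lit 516117) (nat_lit 1) (.e (nat_lit 164397) (nat_lit 256) (.e (nat_lit 57371) (nat_lit 2) (.e (nat_lit 90174) (nat_lit 14) (.e (nat_lit 180243) (nat_lit 5) (.e (nat_lit 532513) (nat_lit 3) (.e (nat_lit 114707) (nat_lit 20) .nil)))))))) (.g (nat_lit 4) .nil .nil)))) (.nd (nat_lit 5) 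
(.lf (nat_lit 77459) (.g (nat_lit 2611) (.e (nat_lit 1800) (nat_lit 119) (.e (nat_lit 516117) (nat_lit 1) (.e (nat_lit 164396) (nat_lit 256) (.e (nat_lit 57371) (nat_lit 2) (.e (nat_lit 90167) (nat_lit 13) (.e (nat_lit 172067) (nat_lit 3) (.e (nat_lit 204838) (nat_lit 20) (.e (nat_lit 114708) (nat_lit 20) .nil)))))))) (.g (nat_lit 4) .nil .nil))) 
(.lf (nat_lit 77491) (.g (nat_lit 2717) (.e (nat_lit 1800) (nat_lit 119) (.e (nat_lit 516117) (nat_lit 1) (.e (nat_lit 164398) (nat_lit 256) (.e (nat_lit 57372) (nat_lit 2) (.e (nat_lit 90172) (nat_lit 14) (.e (nat_lit 180243) (nat_lit 5) (.e (nat_lit 532515) (nat_lit 3) (.e (nat_lit 114708) (nat_lit 20) .nil)))))))) (.g (nat_lit 4) .nil .nil))))) (.nd (nat_lit 4) (.nd (nat_lit 5) 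
(.lf (nat_lit 77451) (.g (nat_lit 2580) (.e (nat_lit 1800) (nat_lit 119) (.e (nat_lit 516117) (nat_lit 1) (.e (nat_lit 164332) (nat_lit 230) (.e (nat_lit 163941) (nat_lit 19) (.e (nat_lit 483341) (nat_lit 9) (.e (nat_lit 426198) (nat_lit 9) (.e (nat_lit 426382) (nat_lit 15) .nil))))))) (.g (nat_lit 5) .nil .nil))) 
(.lf (nat_lit 77483) (.g (nat_lit 3789) (.e (nat_lit 1800) (nat_lit 119) (.e (nat_lit 516117) (nat_lit 1) (.e (nat_lit 164397) (nat_lit 256) (.e (nat_lit 57379) (nat_lit 3) (.e (nat_lit 98366) (nat_lit 27) (.e (nat_lit 434231) (nat_lit 23) (.e (nat_lit 532514) (nat_lit 3) (.e (nat_lit 114708) (nat_lit 20) .nil)))))))) (.g (nat_lit 7) .nil .nil)))) (.nd (nat_lit 5) 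
(.lf (nat_lit 77467) (.g (nat_lit 4294) (.e (nat_lit 1800) (nat_lit 119) (.e (nat_lit 516117) (nat_lit 1) (.e (nat_lit 164396) (nat_lit 256) (.e (nat_lit 57371) (nat_lit 2) (.e (nat_lit 90174) (nat_lit 14) (.e (nat_lit 180243) (nat_lit 5) (.e (nat_lit 532513) (nat_lit 3) (.e (nat_lit 114708) (nat_lit 20) .nil)))))))) (.g (nat_lit 7) .nil .nil))) 
(.lf (nat_lit 77499) (.g (nat_lit 2291) (.e (nat_lit 1800) (nat_lit 119) (.e (nat_lit 516117) (nat_lit 1) (.e (nat_lit 164398) (nat_lit 256) (.e (nat_lit 57373) (nat_lit 2) (.e (nat_lit 90167) (nat_lit 13) (.e (nat_lit 172067) (nat_lit 3) (.e (nat_lit 204837) (nat_lit 20) (.e (nat_lit 114708) (nat_lit 20) .nil)))))))) (.g (nat_lit 4) .nil .nil)))))) 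
(.nd (nat_lit 3) (.nd (nat_lit 4) (.nd (nat_lit 5) 
(.lf (nat_lit 77447) (.g (nat_lit 2175) (.e (nat_lit 1800) (nat_lit 119) (.e (nat_lit 516117) (nat_lit 1) (.e (nat_lit 164332) (nat_lit 230) (.e (nat_lit 163905) (nat_lit 12) (.e (nat_lit 426486) (nat_lit 27) .nil))))) .nil)) 
(.lf (nat_lit 77479) (.g (nat_lit 3851) (.e (nat_lit 1800) (nat_lit 119) (.e (nat_lit 516117) (nat_lit 1) (.e (nat_lit 164397) (nat_lit 256) (.e (nat_lit 57374) (nat_lit 2) (.e (nat_lit 90170) (nat_lit 13) (.e (nat_lit 172067) (nat_lit 3) (.e (nat_lit 204838) (nat_lit 20) (.e (nat_lit 114708) (nat_lit 20) .nil)))))))) (.g (nat_lit 6) .nil .nil)))) (.nd (nat_lit 5) 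
(.lf (nat_lit 77463) (.g (nat_lit 3620) (.e (nat_lit 1800) (nat_lit 119) (.e (nat_lit 516117) (nat_lit 1) (.e (nat_lit 164396) (nat_lit 256) (.e (nat_lit 57371) (nat_lit 2) (.e (nat_lit 90172) (nat_lit 14) (.e (nat_lit 180244) (nat_lit 5) (.e (nat_lit 532513) (nat_lit 3) (.e (nat_lit 114708) (nat_lit 20) .nil)))))))) (.g (nat_lit 6) .nil .nil))) 
(.lf (nat_lit 77495) (.g (nat_lit 3410) (.e (nat_lit 1800) (nat_lit 119) (.e (nat_lit 516117) (nat_lit 1) (.e (nat_lit 164398) (nat_lit 256) (.e (nat_lit 57372) (nat_lit 2) (.e (nat_lit 90172) (nat_lit 14) (.e (nat_lit 180244) (nat_lit 5) (.e (nat_lit 532515) (nat_lit 3) (.e (nat_lit 114708) (nat_lit 20) .nil)))))))) (.g (nat_lit 5) .nil .nil))))) (.nd (nat_lit 4) (.nd (nat_lit 5) 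
(.lf (nat_lit 77455) (.g (nat_lit 1314) (.e (nat_lit 1800) (nat_lit 119) (.e (nat_lit 516117) (nat_lit 1) (.e (nat_lit 164332) (nat_lit 230) (.e (nat_lit 163942) (nat_lit 19) (.e (nat_lit 491264) (nat_lit 11) (.e (nat_lit 450304) (nat_lit 0) .nil)))))) (.g (nat_lit 4) .nil .nil))) 
(.lf (nat_lit 77487) (.g (nat_lit 3174) (.e (nat_lit 1800) (nat_lit 119) (.e (nat_lit 516117) (nat_lit 1) (.e (nat_lit 164398) (nat_lit 256) (.e (nat_lit 57371) (nat_lit 2) (.e (nat_lit 90174) (nat_lit 14) (.e (nat_lit 180243) (nat_lit 5) (.e (nat_lit 532513) (nat_lit 3) (.e (nat_lit 114708) (nat_lit 20) .nil)))))))) (.g (nat_lit 5) .nil .nil)))) (.nd (nat_lit 5) 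
(.lf (nat_lit 77471) (.g (nat_lit 2035) (.e (nat_lit 1800) (nat_lit 119) (.e (nat_lit 516117) (nat_lit 1) (.e (nat_lit 164396) (nat_lit 256) (.e (nat_lit 57375) (nat_lit 2) (.e (nat_lit 90172) (nat_lit 14) (.e (nat_lit 180243) (nat_lit 5) (.e (nat_lit 532513) (nat_lit 3) (.e (nat_lit 114708) (nat_lit 20) .nil)))))))) (.g (nat_lit 4) .nil .nil))) 
(.lf (nat_lit 77503) (.g (nat_lit 2450) (.e (nat_lit 1800) (nat_lit 119) (.e (nat_lit 516117) (nat_lit 1) (.e (nat_lit 164398) (nat_lit 256) (.e (nat_lit 57373) (nat_lit 2) (.e (nat_lit 90170) (nat_lit 13) (.e (nat_lit 172067) (nat_lit 3) (.e (nat_lit 204837) (nat_lit 20) (.e (nat_lit 114707) (nat_lit 20) .nil)))))))) (.g (nat_lit 4) .nil .nil)))))))))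

noncomputable def tv1048 : DT := (.nd (nat_lit 0) (.nd (nat_lit 1) (.nd (nat_lit 2) (.nd (nat_lit 3) (.nd (nat_lit 4) (.nd (nat_lit 5) 
(.lf (nat_lit 77504) (.g (nat_lit 3609) (.e (nat_lit 1800) (nat_lit 119) (.e (nat_lit 516117) (nat_lit 1) (.e (nat_lit 164398) (nat_lit 256) (.e (nat_lit 57373) (nat_lit 2) (.e (nat_lit 90170) (nat_lit 13) (.e (nat_lit 172067) (nat_lit 3) (.e (nat_lit 204838) (nat_lit 20) (.e (nat_lit 114708) (nat_lit 20) .nil)))))))) (.g (nat_lit 5) .nil .nil))) 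
(.lf (nat_lit 77536) (.g (nat_lit 2428) (.e (nat_lit 1800) (nat_lit 119) (.e (nat_lit 516117) (nat_lit 1) (.e (nat_lit 164398) (nat_lit 256) (.e (nat_lit 57378) (nat_lit 3) (.e (nat_lit 98377) (nat_lit 30) (.e (nat_lit 458789) (nat_lit 23) (.e (nat_lit 532515) (nat_lit 3) (.e (nat_lit 114708) (nat_lit 20) .nil)))))))) (.g (nat_lit 4) .nil .nil)))) (.nd (nat_lit 5) 
(.lf (nat_lit 77520) (.g (nat_lit 2560) (.e (nat_lit 1800) (nat_lit 119) (.e (nat_lit 516117) (nat_lit 1) (.e (nat_lit 164398) (nat_lit 256) (.e (nat_lit 57375) (nat_lit 2) (.e (nat_lit 90172) (nat_lit 14) (.e (nat_lit 180243) (nat_lit 5) (.e (nat_lit 532513) (nat_lit 3) (.e (nat_lit 114707) (nat_lit 20) .nil)))))))) (.g (nat_lit 4) .nil .nil))) 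
(.lf (nat_lit 77552) (.g (nat_lit 2303) (.e (nat_lit 1800) (nat_lit 119) (.e (nat_lit 516117) (nat_lit 1) (.e (nat_lit 164399) (nat_lit 256) (.e (nat_lit 57370) (nat_lit 2) (.e (nat_lit 90172) (nat_lit 14) (.e (nat_lit 180244) (nat_lit 5) (.e (nat_lit 532515) (nat_lit 3) (.e (nat_lit 114708) (nat_lit 20) .nil)))))))) (.g (nat_lit 5) .nil .nil))))) (.nd (nat_lit 4) (.nd (nat_lit 5) 
(.lf (nat_lit 77512) (.g (nat_lit 4554) (.e (nat_lit 1800) (nat_lit 119) (.e (nat_lit 516117) (nat_lit 1) (.e (nat_lit 164398) (nat_lit 256) (.e (nat_lit 57373) (nat_lit 2) (.e (nat_lit 90174) (nat_lit 14) (.e (nat_lit 180243) (nat_lit 5) (.e (nat_lit 532513) (nat_lit 3) (.e (nat_lit 114707) (nat_lit 20) .nil)))))))) (.g (nat_lit 7) .nil .nil))) 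
(.lf (nat_lit 77544) (.g (nat_lit 2641) (.e (nat_lit 1800) (nat_lit 119) (.e (nat_lit 516117) (nat_lit 1) (.e (nat_lit 164398) (nat_lit 256) (.e (nat_lit 57379) (nat_lit 3) (.e (nat_lit 98367) (nat_lit 27) (.e (nat_lit 434231) (nat_lit 23) (.e (nat_lit 532513) (nat_lit 3) (.e (nat_lit 114708) (nat_lit 20) .nil)))))))) (.g (nat_lit 4) .nil .nil)))) (.nd (nat_lit 5) 
(.lf (nat_lit 77528) (.g (nat_lit 2431) (.e (nat_lit 1800) (nat_lit 119) (.e (nat_lit 516117) (nat_lit 1) (.e (nat_lit 164398) (nat_lit 256) (.e (nat_lit 57375) (nat_lit 2) (.e (nat_lit 90174) (nat_lit 14) (.e (nat_lit 180243) (nat_lit 5) (.e (nat_lit 532515) (nat_lit 3) (.e (nat_lit 114708) (nat_lit 20) .nil)))))))) (.g (nat_lit 4) .nil .nil))) 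
(.lf (nat_lit 77560) (.g (nat_lit 4561) (.e (nat_lit 1800) (nat_lit 119) (.e (nat_lit 516117) (nat_lit 1) (.e (nat_lit 164399) (nat_lit 256) (.e (nat_lit 57372) (nat_lit 2) (.e (nat_lit 90167) (nat_lit 13) (.e (nat_lit 172067) (nat_lit 3) (.e (nat_lit 204837) (nat_lit 20) (.e (nat_lit 114708) (nat_lit 20) .nil)))))))) (.g (nat_lit 7) .nil .nil)))))) 
(.nd (nat_lit 3) (.nd (nat_lit 4) (.nd (nat_lit 5) 
(.lf (nat_lit 77508) (.g (nat_lit 4192) (.e (nat_lit 1800) (nat_lit 119) (.e (nat_lit 516117) (nat_lit 1) (.e (nat_lit 164398) (nat_lit 256) (.e (nat_lit 57373) (nat_lit 2) (.e (nat_lit 90172) (nat_lit 14) (.e (nat_lit 180244) (nat_lit 5) (.e (nat_lit 532513) (nat_lit 3) (.e (nat_lit 114708) (nat_lit 20) .nil)))))))) (.g (nat_lit 7) .nil .nil))) 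
(.lf (nat_lit 77540) (.g (nat_lit 2431) (.e (nat_lit 1800) (nat_lit 119) (.e (nat_lit 516117) (nat_lit 1) (.e (nat_lit 164398) (nat_lit 256) (.e (nat_lit 57379) (nat_lit 3) (.e (nat_lit 98366) (nat_lit 27) (.e (nat_lit 434231) (nat_lit 23) (.e (nat_lit 532513) (nat_lit 3) (.e (nat_lit 114707) (nat_lit 20) .nil)))))))) (.g (nat_lit 4) .nil .nil)))) (.nd (nat_lit 5) 
(.lf (nat_lit 77524) (.g (nat_lit 2401) (.e (nat_lit 1800) (nat_lit 119) (.e (nat_lit 516117) (nat_lit 1) (.e (nat_lit 164398) (nat_lit 256) (.e (nat_lit 57375) (nat_lit 2) (.e (nat_lit 90172) (nat_lit 14) (.e (nat_lit 180244) (nat_lit 5) (.e (nat_lit 532514) (nat_lit 3) (.e (nat_lit 114708) (nat_lit 20) .nil)))))))) (.g (nat_lit 4) .nil .nil))) 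
(.lf (nat_lit 77556) (.g (nat_lit 2518) (.e (nat_lit 1800) (nat_lit 119) (.e (nat_lit 516117) (nat_lit 1) (.e (nat_lit 164399) (nat_lit 256) (.e (nat_lit 57371) (nat_lit 2) (.e (nat_lit 90172) (nat_lit 14) (.e (nat_lit 180244) (nat_lit 5) (.e (nat_lit 532513) (nat_lit 3) (.e (nat_lit 114708) (nat_lit 20) .nil)))))))) (.g (nat_lit 4) .nil .nil))))) (.nd (nat_lit 4) (.nd (nat_lit 5) 
(.lf (nat_lit 77516) (.g (nat_lit 3776) (.e (nat_lit 1800) (nat_lit 119) (.e (nat_lit 516117) (nat_lit 1) (.e (nat_lit 164398) (nat_lit 256) (.e (nat_lit 57373) (nat_lit 2) (.e (nat_lit 90174) (nat_lit 14) (.e (nat_lit 180243) (nat_lit 5) (.e (nat_lit 532515) (nat_lit 3) (.e (nat_lit 114708) (nat_lit 20) .nil)))))))) (.g (nat_lit 6) .nil .nil))) 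
(.lf (nat_lit 77548) (.g (nat_lit 2132) (.e (nat_lit 1800) (nat_lit 119) (.e (nat_lit 516117) (nat_lit 1) (.e (nat_lit 164399) (nat_lit 256) (.e (nat_lit 57370) (nat_lit 2) (.e (nat_lit 90168) (nat_lit 13) (.e (nat_lit 172067) (nat_lit 3) (.e (nat_lit 204837) (nat_lit 20) (.e (nat_lit 114708) (nat_lit 20) .nil)))))))) (.g (nat_lit 4) .nil .nil)))) (.nd (nat_lit 5) 
(.lf (nat_lit 77532) (.g (nat_lit 3905) (.e (nat_lit 1800) (nat_lit 119) (.e (nat_lit 516117) (nat_lit 1) (.e (nat_lit 164398) (nat_lit 256) (.e (nat_lit 57378) (nat_lit 3) (.e (nat_lit 98356) (nat_lit 26) (.e (nat_lit 426131) (nat_lit 3) (.e (nat_lit 204838) (nat_lit 20) (.e (nat_lit 114708) (nat_lit 20) .nil)))))))) (.g (nat_lit 5) .nil .nil))) 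
(.lf (nat_lit 77564) (.g (nat_lit 3946) (.e (nat_lit 1800) (nat_lit 119) (.e (nat_lit 516117) (nat_lit 1) (.e (nat_lit 164399) (nat_lit 256) (.e (nat_lit 57372) (nat_lit 2) (.e (nat_lit 90172) (nat_lit 14) (.e (nat_lit 180243) (nat_lit 5) (.e (nat_lit 532513) (nat_lit 3) (.e (nat_lit 114707) (nat_lit 20) .nil)))))))) (.g (nat_lit 5) .nil .nil))))))) 
(.nd (nat_lit 2) (.nd (nat_lit 3) (.nd (nat_lit 4) (.nd (nat_lit 5) 
(.lf (nat_lit 77506) (.g (nat_lit 3316) (.e (nat_lit 1800) (nat_lit 119) (.e (nat_lit 516117) (nat_lit 1) (.e (nat_lit 164398) (nat_lit 256) (.e (nat_lit 57373) (nat_lit 2) (.e (nat_lit 90172) (nat_lit 14) (.e (nat_lit 180243) (nat_lit 5) (.e (nat_lit 532513) (nat_lit 3) (.e (nat_lit 114708) (nat_lit 20) .nil)))))))) (.g (nat_lit 5) .nil .nil))) 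
(.lf (nat_lit 77538) (.g (nat_lit 3620) (.e (nat_lit 1800) (nat_lit 119) (.e (nat_lit 516117) (nat_lit 1) (.e (nat_lit 164398) (nat_lit 256) (.e (nat_lit 57379) (nat_lit 3) (.e (nat_lit 98356) (nat_lit 26) (.e (nat_lit 426131) (nat_lit 3) (.e (nat_lit 204837) (nat_lit 20) (.e (nat_lit 114708) (nat_lit 20) .nil)))))))) (.g (nat_lit 6) .nil .nil)))) (.nd (nat_lit 5) 
(.lf (nat_lit 77522) (.g (nat_lit 3163) (.e (nat_lit 1800) (nat_lit 119) (.e (nat_lit 516117) (nat_lit 1) (.e (nat_lit 164398) (nat_lit 256) (.e (nat_lit 57375) (nat_lit 2) (.e (nat_lit 90172) (nat_lit 14) (.e (nat_lit 180244) (nat_lit 5) (.e (nat_lit 532513) (nat_lit 3) (.e (nat_lit 114707) (nat_lit 20) .nil)))))))) (.g (nat_lit 4) .nil .nil))) 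
(.lf (nat_lit 77554) (.g (nat_lit 3081) (.e (nat_lit 1800) (nat_lit 119) (.e (nat_lit 516117) (nat_lit 1) (.e (nat_lit 164399) (nat_lit 256) (.e (nat_lit 57370) (nat_lit 2) (.e (nat_lit 90174) (nat_lit 14) (.e (nat_lit 180243) (nat_lit 5) (.e (nat_lit 532513) (nat_lit 3) (.e (nat_lit 114708) (nat_lit 20) .nil)))))))) (.g (nat_lit 6) .nil .nil))))) (.nd (nat_lit 4) (.nd (nat_lit 5) 
(.lf (nat_lit 77514) (.g (nat_lit 1992) (.e (nat_lit 1800) (nat_lit 119) (.e (nat_lit 516117) (nat_lit 1) (.e (nat_lit 164398) (nat_lit 256) (.e (nat_lit 57373) (nat_lit 2) (.e (nat_lit 90174) (nat_lit 14) (.e (nat_lit 180243) (nat_lit 5) (.e (nat_lit 532514) (nat_lit 3) (.e (nat_lit 114708) (nat_lit 20) .nil)))))))) (.g (nat_lit 4) .nil .nil))) 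
(.lf (nat_lit 77546) (.g (nat_lit 2453) (.e (nat_lit 1800) (nat_lit 119) (.e (nat_lit 516117) (nat_lit 1) (.e (nat_lit 164398) (nat_lit 256) (.e (nat_lit 57379) (nat_lit 3) (.e (nat_lit 98376) (nat_lit 30) (.e (nat_lit 458789) (nat_lit 23) (.e (nat_lit 532515) (nat_lit 3) (.e (nat_lit 114708) (nat_lit 20) .nil)))))))) (.g (nat_lit 4) .nil .nil)))) (.nd (nat_lit 5) 
(.lf (nat_lit 77530) (.g (nat_lit 3085) (.e (nat_lit 1800) (nat_lit 119) (.e (nat_lit 516117) (nat_lit 1) (.e (nat_lit 164398) (nat_lit 256) (.e (nat_lit 57378) (nat_lit 3) (.e (nat_lit 98355) (nat_lit 26) (.e (nat_lit 426131) (nat_lit 3) (.e (nat_lit 204838) (nat_lit 20) (.e (nat_lit 114708) (nat_lit 20) .nil)))))))) (.g (nat_lit 4) .nil .nil))) 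
(.lf (nat_lit 77562) (.g (nat_lit 4259) (.e (nat_lit 1800) (nat_lit 119) (.e (nat_lit 516117) (nat_lit 1) (.e (nat_lit 164399) (nat_lit 256) (.e (nat_lit 57372) (nat_lit 2) (.e (nat_lit 90167) (nat_lit 13) (.e (nat_lit 172067) (nat_lit 3) (.e (nat_lit 204838) (nat_lit 20) (.e (nat_lit 114708) (nat_lit 20) .nil)))))))) (.g (nat_lit 7) .nil .nil)))))) 
(.nd (nat_lit 3) (.nd (nat_lit 4) (.nd (nat_lit 5) 
(.lf (nat_lit 77510) (.g (nat_lit 2617) (.e (nat_lit 1800) (nat_lit 119) (.e (nat_lit 516117) (nat_lit 1) (.e (nat_lit 164398) (nat_lit 256) (.e (nat_lit 57373) (nat_lit 2) (.e (nat_lit 90172) (nat_lit 14) (.e (nat_lit 180244) (nat_lit 5) (.e (nat_lit 532515) (nat_lit 3) (.e (nat_lit 114707) (nat_lit 20) .nil)))))))) (.g (nat_lit 4) .nil .nil))) 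
(.lf (nat_lit 77542) (.g (nat_lit 2638) (.e (nat_lit 1800) (nat_lit 119) (.e (nat_lit 516117) (nat_lit 1) (.e (nat_lit 164398) (nat_lit 256) (.e (nat_lit 57379) (nat_lit 3) (.e (nat_lit 98366) (nat_lit 27) (.e (nat_lit 434231) (nat_lit 23) (.e (nat_lit 532514) (nat_lit 3) (.e (nat_lit 114707) (nat_lit 20) .nil)))))))) (.g (nat_lit 4) .nil .nil)))) (.nd (nat_lit 5) 
(.lf (nat_lit 77526) (.g (nat_lit 3232) (.e (nat_lit 1800) (nat_lit 119) (.e (nat_lit 516117) (nat_lit 1) (.e (nat_lit 164398) (nat_lit 256) (.e (nat_lit 57375) (nat_lit 2) (.e (nat_lit 90174) (nat_lit 14) (.e (nat_lit 180243) (nat_lit 5) (.e (nat_lit 532513) (nat_lit 3) (.e (nat_lit 114707) (nat_lit 20) .nil)))))))) (.g (nat_lit 5) .nil .nil))) 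
(.lf (nat_lit 77558) (.g (nat_lit 2827) (.e (nat_lit 1800) (nat_lit 119) (.e (nat_lit 516117) (nat_lit 1) (.e (nat_lit 164399) (nat_lit 256) (.e (nat_lit 57372) (nat_lit 2) (.e (nat_lit 90167) (nat_lit 13) (.e (nat_lit 172065) (nat_lit 3) (.e (nat_lit 204837) (nat_lit 20) (.e (nat_lit 114708) (nat_lit 20) .nil)))))))) (.g (nat_lit 5) .nil .nil))))) (.nd (nat_lit 4) (.nd (nat_lit 5) 
(.lf (nat_lit 77518) (.g (nat_lit 3966) (.e (nat_lit 1800) (nat_lit 119) (.e (nat_lit 516117) (nat_lit 1) (.e (nat_lit 164398) (nat_lit 256) (.e (nat_lit 57374) (nat_lit 2) (.e (nat_lit 90170) (nat_lit 13) (.e (nat_lit 172067) (nat_lit 3) (.e (nat_lit 204838) (nat_lit 20) (.e (nat_lit 114708) (nat_lit 20) .nil)))))))) (.g (nat_lit 5) .nil .nil))) 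
(.lf (nat_lit 77550) (.g (nat_lit 2587) (.e (nat_lit 1800) (nat_lit 119) (.e (nat_lit 516117) (nat_lit 1) (.e (nat_lit 164399) (nat_lit 256) (.e (nat_lit 57370) (nat_lit 2) (.e (nat_lit 90172) (nat_lit 14) (.e (nat_lit 180244) (nat_lit 5) (.e (nat_lit 532513) (nat_lit 3) (.e (nat_lit 114707) (nat_lit 20) .nil)))))))) (.g (nat_lit 4) .nil .nil)))) (.nd (nat_lit 5) 
(.lf (nat_lit 77534) (.g (nat_lit 3440) (.e (nat_lit 1800) (nat_lit 119) (.e (nat_lit 516117) (nat_lit 1) (.e (nat_lit 164398) (nat_lit 256) (.e (nat_lit 57378) (nat_lit 3) (.e (nat_lit 98358) (nat_lit 26) (.e (nat_lit 426131) (nat_lit 3) (.e (nat_lit 204838) (nat_lit 20) (.e (nat_lit 114708) (nat_lit 20) .nil)))))))) (.g (nat_lit 6) .nil .nil))) 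
(.lf (nat_lit 77566) (.g (nat_lit 2468) (.e (nat_lit 1800) (nat_lit 119) (.e (nat_lit 516117) (nat_lit 1) (.e (nat_lit 164399) (nat_lit 256) (.e (nat_lit 57372) (nat_lit 2) (.e (nat_lit 90172) (nat_lit 14) (.e (nat_lit 180243) (nat_lit 5) (.e (nat_lit 532515) (nat_lit 3) (.e (nat_lit 114707) (nat_lit 20) .nil)))))))) (.g (nat_lit 4) .nil .nil)))))))) 
(.nd (nat_lit 1) (.nd (nat_lit 2) (.nd (nat_lit 3) (.nd (nat_lit 4) (.nd (nat_lit 5) 
(.lf (nat_lit 77505) (.g (nat_lit 2775) (.e (nat_lit 1800) (nat_lit 119) (.e (nat_lit 516117) (nat_lit 1) (.e (nat_lit 164398) (nat_lit 256) (.e (nat_lit 57373) (nat_lit 2) (.e (nat_lit 90172) (nat_lit 14) (.e (nat_lit 180243) (nat_lit 5) (.e (nat_lit 532513) (nat_lit 3) (.e (nat_lit 114707) (nat_lit 20) .nil)))))))) (.g (nat_lit 4) .nil .nil))) 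
(.lf (nat_lit 77537) (.g (nat_lit 2312) (.e (nat_lit 1800) (nat_lit 119) (.e (nat_lit 516117) (nat_lit 1) (.e (nat_lit 164398) (nat_lit 256) (.e (nat_lit 57379) (nat_lit 3) (.e (nat_lit 98355) (nat_lit 26) (.e (nat_lit 426131) (nat_lit 3) (.e (nat_lit 204838) (nat_lit 20) (.e (nat_lit 114708) (nat_lit 20) .nil)))))))) (.g (nat_lit 4) .nil .nil)))) (.nd (nat_lit 5) 
(.lf (nat_lit 77521) (.g (nat_lit 3101) (.e (nat_lit 1800) (nat_lit 119) (.e (nat_lit 516117) (nat_lit 1) (.e (nat_lit 164398) (nat_lit 256) (.e (nat_lit 57375) (nat_lit 2) (.e (nat_lit 90172) (nat_lit 14) (.e (nat_lit 180243) (nat_lit 5) (.e (nat_lit 532513) (nat_lit 3) (.e (nat_lit 114708) (nat_lit 20) .nil)))))))) (.g (nat_lit 5) .nil .nil))) 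
(.lf (nat_lit 77553) (.g (nat_lit 2703) (.e (nat_lit 1800) (nat_lit 119) (.e (nat_lit 516117) (nat_lit 1) (.e (nat_lit 164399) (nat_lit 256) (.e (nat_lit 57370) (nat_lit 2) (.e (nat_lit 90174) (nat_lit 14) (.e (nat_lit 180243) (nat_lit 5) (.e (nat_lit 532513) (nat_lit 3) (.e (nat_lit 114707) (nat_lit 20) .nil)))))))) (.g (nat_lit 4) .nil .nil))))) (.nd (nat_lit 4) (.nd (nat_lit 5) 
(.lf (nat_lit 77513) (.g (nat_lit 2191) (.e (nat_lit 1800) (nat_lit 119) (.e (nat_lit 516117) (nat_lit 1) (.e (nat_lit 164398) (nat_lit 256) (.e (nat_lit 57373) (nat_lit 2) (.e (nat_lit 90174) (nat_lit 14) (.e (nat_lit 180243) (nat_lit 5) (.e (nat_lit 532513) (nat_lit 3) (.e (nat_lit 122624) (nat_lit 20) .nil)))))))) (.g (nat_lit 4) .nil .nil))) 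
(.lf (nat_lit 77545) (.g (nat_lit 4587) (.e (nat_lit 1800) (nat_lit 119) (.e (nat_lit 516117) (nat_lit 1) (.e (nat_lit 164398) (nat_lit 256) (.e (nat_lit 57379) (nat_lit 3) (.e (nat_lit 98367) (nat_lit 27) (.e (nat_lit 434231) (nat_lit 23) (.e (nat_lit 532514) (nat_lit 3) (.e (nat_lit 114708) (nat_lit 20) .nil)))))))) (.g (nat_lit 7) .nil .nil)))) (.nd (nat_lit 5) 
(.lf (nat_lit 77529) (.g (nat_lit 2843) (.e (nat_lit 1800) (nat_lit 119) (.e (nat_lit 516117) (nat_lit 1) (.e (nat_lit 164398) (nat_lit 256) (.e (nat_lit 57378) (nat_lit 3) (.e (nat_lit 98355) (nat_lit 26) (.e (nat_lit 426131) (nat_lit 3) (.e (nat_lit 204837) (nat_lit 20) (.e (nat_lit 114708) (nat_lit 20) .nil)))))))) (.g (nat_lit 4) .nil .nil))) 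
(.lf (nat_lit 77561) (.g (nat_lit 2338) (.e (nat_lit 1800) (nat_lit 119) (.e (nat_lit 516117) (nat_lit 1) (.e (nat_lit 164399) (nat_lit 256) (.e (nat_lit 57372) (nat_lit 2) (.e (nat_lit 90167) (nat_lit 13) (.e (nat_lit 172067) (nat_lit 3) (.e (nat_lit 204838) (nat_lit 20) (.e (nat_lit 114707) (nat_lit 20) .nil)))))))) (.g (nat_lit 4) .nil .nil)))))) 
(.nd (nat_lit 3) (.nd (nat_lit 4) (.nd (nat_lit 5) 
(.lf (nat_lit 77509) (.g (nat_lit 2696) (.e (nat_lit 1800) (nat_lit 119) (.e (nat_lit 516117) (nat_lit 1) (.e (nat_lit 164398) (nat_lit 256) (.e (nat_lit 57373) (nat_lit 2) (.e (nat_lit 90172) (nat_lit 14) (.e (nat_lit 180244) (nat_lit 5) (.e (nat_lit 532514) (nat_lit 3) (.e (nat_lit 114708) (nat_lit 20) .nil)))))))) (.g (nat_lit 4) .nil .nil))) 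
(.lf (nat_lit 77541) (.g (nat_lit 3054) (.e (nat_lit 1800) (nat_lit 119) (.e (nat_lit 516117) (nat_lit 1) (.e (nat_lit 164398) (nat_lit 256) (.e (nat_lit 57379) (nat_lit 3) (.e (nat_lit 98366) (nat_lit 27) (.e (nat_lit 434231) (nat_lit 23) (.e (nat_lit 532513) (nat_lit 3) (.e (nat_lit 114708) (nat_lit 20) .nil)))))))) (.g (nat_lit 5) .nil .nil)))) (.nd (nat_lit 5) 
(.lf (nat_lit 77525) (.g (nat_lit 2921) (.e (nat_lit 1800) (nat_lit 119) (.e (nat_lit 516117) (nat_lit 1) (.e (nat_lit 164398) (nat_lit 256) (.e (nat_lit 57375) (nat_lit 2) (.e (nat_lit 90172) (nat_lit 14) (.e (nat_lit 180244) (nat_lit 5) (.e (nat_lit 532515) (nat_lit 3) (.e (nat_lit 114708) (nat_lit 20) .nil)))))))) (.g (nat_lit 5) .nil .nil))) 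
(.lf (nat_lit 77557) (.g (nat_lit 2480) (.e (nat_lit 1800) (nat_lit 119) (.e (nat_lit 516117) (nat_lit 1) (.e (nat_lit 164399) (nat_lit 256) (.e (nat_lit 57371) (nat_lit 2) (.e (nat_lit 90174) (nat_lit 14) (.e (nat_lit 180243) (nat_lit 5) (.e (nat_lit 532513) (nat_lit 3) (.e (nat_lit 114707) (nat_lit 20) .nil)))))))) (.g (nat_lit 4) .nil .nil))))) (.nd (nat_lit 4) (.nd (nat_lit 5) 
(.lf (nat_lit 77517) (.g (nat_lit 4249) (.e (nat_lit 1800) (nat_lit 119) (.e (nat_lit 516117) (nat_lit 1) (.e (nat_lit 164398) (nat_lit 256) (.e (nat_lit 57374) (nat_lit 2) (.e (nat_lit 90170) (nat_lit 13) (.e (nat_lit 172067) (nat_lit 3) (.e (nat_lit 204837) (nat_lit 20) (.e (nat_lit 114708) (nat_lit 20) .nil)))))))) (.g (nat_lit 5) .nil .nil))) 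
(.lf (nat_lit 77549) (.g (nat_lit 3115) (.e (nat_lit 1800) (nat_lit 119) (.e (nat_lit 516117) (nat_lit 1) (.e (nat_lit 164399) (nat_lit 256) (.e (nat_lit 57370) (nat_lit 2) (.e (nat_lit 90170) (nat_lit 13) (.e (nat_lit 172067) (nat_lit 3) (.e (nat_lit 204837) (nat_lit 20) (.e (nat_lit 114708) (nat_lit 20) .nil)))))))) (.g (nat_lit 5) .nil .nil)))) (.nd (nat_lit 5) 
(.lf (nat_lit 77533) (.g (nat_lit 3173) (.e (nat_lit 1800) (nat_lit 119) (.e (nat_lit 516117) (nat_lit 1) (.e (nat_lit 164398) (nat_lit 256) (.e (nat_lit 57378) (nat_lit 3) (.e (nat_lit 98358) (nat_lit 26) (.e (nat_lit 426131) (nat_lit 3) (.e (nat_lit 204837) (nat_lit 20) (.e (nat_lit 114708) (nat_lit 20) .nil)))))))) (.g (nat_lit 6) .nil .nil))) 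
(.lf (nat_lit 77565) (.g (nat_lit 4490) (.e (nat_lit 1800) (nat_lit 119) (.e (nat_lit 516117) (nat_lit 1) (.e (nat_lit 164399) (nat_lit 256) (.e (nat_lit 57372) (nat_lit 2) (.e (nat_lit 90172) (nat_lit 14) (.e (nat_lit 180243) (nat_lit 5) (.e (nat_lit 532513) (nat_lit 3) (.e (nat_lit 114708) (nat_lit 20) .nil)))))))) (.g (nat_lit 7) .nil .nil))))))) 
(.nd (nat_lit 2) (.nd (nat_lit 3) (.nd (nat_lit 4) (.nd (nat_lit 5) 
(.lf (nat_lit 77507) (.g (nat_lit 3516) (.e (nat_lit 1800) (nat_lit 119) (.e (nat_lit 516117) (nat_lit 1) (.e (nat_lit 164398) (nat_lit 256) (.e (nat_lit 57373) (nat_lit 2) (.e (nat_lit 90172) (nat_lit 14) (.e (nat_lit 180244) (nat_lit 5) (.e (nat_lit 532513) (nat_lit 3) (.e (nat_lit 114707) (nat_lit 20) .nil)))))))) (.g (nat_lit 5) .nil .nil))) 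
(.lf (nat_lit 77539) (.g (nat_lit 3862) (.e (nat_lit 1800) (nat_lit 119) (.e (nat_lit 516117) (nat_lit 1) (.e (nat_lit 164398) (nat_lit 256) (.e (nat_lit 57379) (nat_lit 3) (.e (nat_lit 98356) (nat_lit 26) (.e (nat_lit 426131) (nat_lit 3) (.e (nat_lit 204838) (nat_lit 20) (.e (nat_lit 114708) (nat_lit 20) .nil)))))))) (.g (nat_lit 6) .nil .nil)))) (.nd (nat_lit 5) 
(.lf (nat_lit 77523) (.g (nat_lit 3839) (.e (nat_lit 1800) (nat_lit 119) (.e (nat_lit 516117) (nat_lit 1) (.e (nat_lit 164398) (nat_lit 256) (.e (nat_lit 57375) (nat_lit 2) (.e (nat_lit 90172) (nat_lit 14) (.e (nat_lit 180244) (nat_lit 5) (.e (nat_lit 532513) (nat_lit 3) (.e (nat_lit 114708) (nat_lit 20) .nil)))))))) (.g (nat_lit 6) .nil .nil))) 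
(.lf (nat_lit 77555) (.g (nat_lit 1925) (.e (nat_lit 1800) (nat_lit 119) (.e (nat_lit 516117) (nat_lit 1) (.e (nat_lit 164399) (nat_lit 256) (.e (nat_lit 57370) (nat_lit 2) (.e (nat_lit 90174) (nat_lit 14) (.e (nat_lit 180243) (nat_lit 5) (.e (nat_lit 532515) (nat_lit 3) (.e (nat_lit 114708) (nat_lit 20) .nil)))))))) (.g (nat_lit 4) .nil .nil))))) (.nd (nat_lit 4) (.nd (nat_lit 5) 
(.lf (nat_lit 77515) (.g (nat_lit 3143) (.e (nat_lit 1800) (nat_lit 119) (.e (nat_lit 516117) (nat_lit 1) (.e (nat_lit 164398) (nat_lit 256) (.e (nat_lit 57373) (nat_lit 2) (.e (nat_lit 90174) (nat_lit 14) (.e (nat_lit 180243) (nat_lit 5) (.e (nat_lit 532515) (nat_lit 3) (.e (nat_lit 114707) (nat_lit 20) .nil)))))))) (.g (nat_lit 5) .nil .nil))) 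
(.lf (nat_lit 77547) (.g (nat_lit 2654) (.e (nat_lit 1800) (nat_lit 119) (.e (nat_lit 516117) (nat_lit 1) (.e (nat_lit 164398) (nat_lit 256) (.e (nat_lit 57379) (nat_lit 3) (.e (nat_lit 98377) (nat_lit 30) (.e (nat_lit 458789) (nat_lit 23) (.e (nat_lit 532515) (nat_lit 3) (.e (nat_lit 114708) (nat_lit 20) .nil)))))))) (.g (nat_lit 5) .nil .nil)))) (.nd (nat_lit 5) 
(.lf (nat_lit 77531) (.g (nat_lit 3663) (.e (nat_lit 1800) (nat_lit 119) (.e (nat_lit 516117) (nat_lit 1) (.e (nat_lit 164398) (nat_lit 256) (.e (nat_lit 57378) (nat_lit 3) (.e (nat_lit 98356) (nat_lit 26) (.e (nat_lit 426131) (nat_lit 3) (.e (nat_lit 204837) (nat_lit 20) (.e (nat_lit 114708) (nat_lit 20) .nil)))))))) (.g (nat_lit 5) .nil .nil))) 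
(.lf (nat_lit 77563) (.g (nat_lit 3090) (.e (nat_lit 1800) (nat_lit 119) (.e (nat_lit 516117) (nat_lit 1) (.e (nat_lit 164399) (nat_lit 256) (.e (nat_lit 57372) (nat_lit 2) (.e (nat_lit 90168) (nat_lit 13) (.e (nat_lit 172067) (nat_lit 3) (.e (nat_lit 204838) (nat_lit 20) (.e (nat_lit 114708) (nat_lit 20) .nil)))))))) (.g (nat_lit 5) .nil .nil)))))) 
(.nd (nat_lit 3) (.nd (nat_lit 4) (.nd (nat_lit 5) 
(.lf (nat_lit 77511) (.g (nat_lit 3314) (.e (nat_lit 1800) (nat_lit 119) (.e (nat_lit 516117) (nat_lit 1) (.e (nat_lit 164398) (nat_lit 256) (.e (nat_lit 57373) (nat_lit 2) (.e (nat_lit 90172) (nat_lit 14) (.e (nat_lit 180244) (nat_lit 5) (.e (nat_lit 532515) (nat_lit 3) (.e (nat_lit 114708) (nat_lit 20) .nil)))))))) (.g (nat_lit 5) .nil .nil))) 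
(.lf (nat_lit 77543) (.g (nat_lit 4998) (.e (nat_lit 1800) (nat_lit 119) (.e (nat_lit 516117) (nat_lit 1) (.e (nat_lit 164398) (nat_lit 256) (.e (nat_lit 57379) (nat_lit 3) (.e (nat_lit 98366) (nat_lit 27) (.e (nat_lit 434231) (nat_lit 23) (.e (nat_lit 532514) (nat_lit 3) (.e (nat_lit 114708) (nat_lit 20) .nil)))))))) (.g (nat_lit 8) .nil .nil)))) (.nd (nat_lit 5) 
(.lf (nat_lit 77527) (.g (nat_lit 3607) (.e (nat_lit 1800) (nat_lit 119) (.e (nat_lit 516117) (nat_lit 1) (.e (nat_lit 164398) (nat_lit 256) (.e (nat_lit 57375) (nat_lit 2) (.e (nat_lit 90174) (nat_lit 14) (.e (nat_lit 180243) (nat_lit 5) (.e (nat_lit 532513) (nat_lit 3) (.e (nat_lit 114708) (nat_lit 20) .nil)))))))) (.g (nat_lit 6) .nil .nil))) 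
(.lf (nat_lit 77559) (.g (nat_lit 3127) (.e (nat_lit 1800) (nat_lit 119) (.e (nat_lit 516117) (nat_lit 1) (.e (nat_lit 164399) (nat_lit 256) (.e (nat_lit 57372) (nat_lit 2) (.e (nat_lit 90167) (nat_lit 13) (.e (nat_lit 172067) (nat_lit 3) (.e (nat_lit 204837) (nat_lit 20) (.e (nat_lit 114707) (nat_lit 20) .nil)))))))) (.g (nat_lit 5) .nil .nil))))) (.nd (nat_lit 4) (.nd (nat_lit 5) 
(.lf (nat_lit 77519) (.g (nat_lit 2386) (.e (nat_lit 1800) (nat_lit 119) (.e (nat_lit 516117) (nat_lit 1) (.e (nat_lit 164398) (nat_lit 256) (.e (nat_lit 57374) (nat_lit 2) (.e (nat_lit 90174) (nat_lit 14) .nil))))) .nil)) 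
(.lf (nat_lit 77551) (.g (nat_lit 3266) (.e (nat_lit 1800) (nat_lit 119) (.e (nat_lit 516117) (nat_lit 1) (.e (nat_lit 164399) (nat_lit 256) (.e (nat_lit 57370) (nat_lit 2) (.e (nat_lit 90172) (nat_lit 14) (.e (nat_lit 180244) (nat_lit 5) (.e (nat_lit 532513) (nat_lit 3) (.e (nat_lit 114708) (nat_lit 20) .nil)))))))) (.g (nat_lit 6) .nil .nil)))) (.nd (nat_lit 5) 
(.lf (nat_lit 77535) (.g (nat_lit 2296) (.e (nat_lit 1800) (nat_lit 119) (.e (nat_lit 516117) (nat_lit 1) (.e (nat_lit 164398) (nat_lit 256) (.e (nat_lit 57378) (nat_lit 3) (.e (nat_lit 98376) (nat_lit 30) (.e (nat_lit 458789) (nat_lit 23) (.e (nat_lit 532515) (nat_lit 3) (.e (nat_lit 114708) (nat_lit 20) .nil)))))))) (.g (nat_lit 4) .nil .nil))) 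
(.lf (nat_lit 77567) (.g (nat_lit 3137) (.e (nat_lit 1800) (nat_lit 119) (.e (nat_lit 516117) (nat_lit 1) (.e (nat_lit 164399) (nat_lit 256) (.e (nat_lit 57372) (nat_lit 2) (.e (nat_lit 90172) (nat_lit 14) (.e (nat_lit 180243) (nat_lit 5) (.e (nat_lit 532515) (nat_lit 3) (.e (nat_lit 114708) (nat_lit 20) .nil)))))))) (.g (nat_lit 5) .nil .nil)))))))))

noncomputable def tv1049 : DT := (.nd (nat_lit 0) (.nd (nat_lit 1) (.nd (nat_lit 2) (.nd (nat_lit 3) (.nd (nat_lit 4) (.nd (nat_lit 5) 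
(.lf (nat_lit 77568) (.g (nat_lit 3945) (.e (nat_lit 1800) (nat_lit 119) (.e (nat_lit 516117) (nat_lit 1) (.e (nat_lit 164399) (nat_lit 256) (.e (nat_lit 57372) (nat_lit 2) (.e (nat_lit 90172) (nat_lit 14) (.e (nat_lit 180244) (nat_lit 5) (.e (nat_lit 532513) (nat_lit 3) (.e (nat_lit 114707) (nat_lit 20) .nil)))))))) (.g (nat_lit 6) .nil .nil))) 
(.lf (nat_lit 77600) (.g (nat_lit 3656) (.e (nat_lit 1800) (nat_lit 119) (.e (nat_lit 516117) (nat_lit 1) (.e (nat_lit 164399) (nat_lit 256) (.e (nat_lit 57374) (nat_lit 2) (.e (nat_lit 90170) (nat_lit 13) (.e (nat_lit 172067) (nat_lit 3) (.e (nat_lit 204837) (nat_lit 20) (.e (nat_lit 114707) (nat_lit 20) .nil)))))))) (.g (nat_lit 5) .nil .nil)))) (.nd (nat_lit 5) 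
(.lf (nat_lit 77584) (.g (nat_lit 4826) (.e (nat_lit 1800) (nat_lit 119) (.e (nat_lit 516117) (nat_lit 1) (.e (nat_lit 164399) (nat_lit 256) (.e (nat_lit 57373) (nat_lit 2) (.e (nat_lit 90170) (nat_lit 13) (.e (nat_lit 172067) (nat_lit 3) (.e (nat_lit 204837) (nat_lit 20) (.e (nat_lit 114708) (nat_lit 20) .nil)))))))) (.g (nat_lit 8) .nil .nil))) 
(.lf (nat_lit 77616) (.g (nat_lit 2866) (.e (nat_lit 1800) (nat_lit 119) (.e (nat_lit 516117) (nat_lit 1) (.e (nat_lit 164399) (nat_lit 256) (.e (nat_lit 57377) (nat_lit 3) (.e (nat_lit 98355) (nat_lit 26) (.e (nat_lit 426131) (nat_lit 3) (.e (nat_lit 204838) (nat_lit 20) (.e (nat_lit 114708) (nat_lit 20) .nil)))))))) (.g (nat_lit 4) .nil .nil))))) (.nd (nat_lit 4) (.nd (nat_lit 5) 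
(.lf (nat_lit 77576) (.g (nat_lit 3191) (.e (nat_lit 1800) (nat_lit 119) (.e (nat_lit 516117) (nat_lit 1) (.e (nat_lit 164399) (nat_lit 256) (.e (nat_lit 57372) (nat_lit 2) (.e (nat_lit 90174) (nat_lit 14) (.e (nat_lit 180243) (nat_lit 5) (.e (nat_lit 532515) (nat_lit 3) (.e (nat_lit 114708) (nat_lit 20) .nil)))))))) (.g (nat_lit 5) .nil .nil))) 
(.lf (nat_lit 77608) (.g (nat_lit 3663) (.e (nat_lit 1800) (nat_lit 119) (.e (nat_lit 516117) (nat_lit 1) (.e (nat_lit 164399) (nat_lit 256) (.e (nat_lit 57375) (nat_lit 2) (.e (nat_lit 90172) (nat_lit 14) (.e (nat_lit 180244) (nat_lit 5) (.e (nat_lit 532513) (nat_lit 3) (.e (nat_lit 114707) (nat_lit 20) .nil)))))))) (.g (nat_lit 5) .nil .nil)))) (.nd (nat_lit 5) 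
(.lf (nat_lit 77592) (.g (nat_lit 3765) (.e (nat_lit 1800) (nat_lit 119) (.e (nat_lit 516117) (nat_lit 1) (.e (nat_lit 164399) (nat_lit 256) (.e (nat_lit 57373) (nat_lit 2) (.e (nat_lit 90172) (nat_lit 14) (.e (nat_lit 180244) (nat_lit 5) (.e (nat_lit 532515) (nat_lit 3) (.e (nat_lit 114708) (nat_lit 20) .nil)))))))) (.g (nat_lit 6) .nil .nil))) 
(.lf (nat_lit 77624) (.g (nat_lit 4422) (.e (nat_lit 1800) (nat_lit 119) (.e (nat_lit 516117) (nat_lit 1) (.e (nat_lit 164399) (nat_lit 256) (.e (nat_lit 57378) (nat_lit 3) (.e (nat_lit 98358) (nat_lit 26) (.e (nat_lit 426131) (nat_lit 3) (.e (nat_lit 204838) (nat_lit 20) (.e (nat_lit 114708) (nat_lit 20) .nil)))))))) (.g (nat_lit 7) .nil .nil)))))) 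
(.nd (nat_lit 3) (.nd (nat_lit 4) (.nd (nat_lit 5) 
(.lf (nat_lit 77572) (.g (nat_lit 3742) (.e (nat_lit 1800) (nat_lit 119) (.e (nat_lit 516117) (nat_lit 1) (.e (nat_lit 164399) (nat_lit 256) (.e (nat_lit 57372) (nat_lit 2) (.e (nat_lit 90172) (nat_lit 14) (.e (nat_lit 180244) (nat_lit 5) (.e (nat_lit 532515) (nat_lit 3) (.e (nat_lit 114708) (nat_lit 20) .nil)))))))) (.g (nat_lit 6) .nil .nil))) 
(.lf (nat_lit 77604) (.g (nat_lit 3028) (.e (nat_lit 1800) (nat_lit 119) (.e (nat_lit 516117) (nat_lit 1) (.e (nat_lit 164399) (nat_lit 256) (.e (nat_lit 57375) (nat_lit 2) (.e (nat_lit 90167) (nat_lit 13) (.e (nat_lit 172067) (nat_lit 3) (.e (nat_lit 204837) (nat_lit 20) (.e (nat_lit 114708) (nat_lit 20) .nil)))))))) (.g (nat_lit 4) .nil .nil)))) (.nd (nat_lit 5) 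
(.lf (nat_lit 77588) (.g (nat_lit 3964) (.e (nat_lit 1800) (nat_lit 119) (.e (nat_lit 516117) (nat_lit 1) (.e (nat_lit 164399) (nat_lit 256) (.e (nat_lit 57373) (nat_lit 2) (.e (nat_lit 90172) (nat_lit 14) (.e (nat_lit 180244) (nat_lit 5) (.e (nat_lit 532513) (nat_lit 3) (.e (nat_lit 114707) (nat_lit 20) .nil)))))))) (.g (nat_lit 6) .nil .nil))) 
(.lf (nat_lit 77620) (.g (nat_lit 3134) (.e (nat_lit 1800) (nat_lit 119) (.e (nat_lit 516117) (nat_lit 1) (.e (nat_lit 164399) (nat_lit 256) (.e (nat_lit 57378) (nat_lit 3) (.e (nat_lit 98357) (nat_lit 26) (.e (nat_lit 426131) (nat_lit 3) (.e (nat_lit 204837) (nat_lit 20) (.e (nat_lit 114708) (nat_lit 20) .nil)))))))) (.g (nat_lit 4) .nil .nil))))) (.nd (nat_lit 4) (.nd (nat_lit 5) 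
(.lf (nat_lit 77580) (.g (nat_lit 4113) (.e (nat_lit 1800) (nat_lit 119) (.e (nat_lit 516117) (nat_lit 1) (.e (nat_lit 164399) (nat_lit 256) (.e (nat_lit 57373) (nat_lit 2) (.e (nat_lit 90170) (nat_lit 13) (.e (nat_lit 172065) (nat_lit 3) (.e (nat_lit 204837) (nat_lit 20) (.e (nat_lit 114708) (nat_lit 20) .nil)))))))) (.g (nat_lit 7) .nil .nil))) 
(.lf (nat_lit 77612) (.g (nat_lit 3518) (.e (nat_lit 1800) (nat_lit 119) (.e (nat_lit 516117) (nat_lit 1) (.e (nat_lit 164399) (nat_lit 256) (.e (nat_lit 57375) (nat_lit 2) (.e (nat_lit 90174) (nat_lit 14) (.e (nat_lit 180243) (nat_lit 5) (.e (nat_lit 532513) (nat_lit 3) (.e (nat_lit 114707) (nat_lit 20) .nil)))))))) (.g (nat_lit 6) .nil .nil)))) (.nd (nat_lit 5) 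
(.lf (nat_lit 77596) (.g (nat_lit 3242) (.e (nat_lit 1800) (nat_lit 119) (.e (nat_lit 516117) (nat_lit 1) (.e (nat_lit 164399) (nat_lit 256) (.e (nat_lit 57373) (nat_lit 2) (.e (nat_lit 90174) (nat_lit 14) (.e (nat_lit 180243) (nat_lit 5) (.e (nat_lit 532515) (nat_lit 3) (.e (nat_lit 114707) (nat_lit 20) .nil)))))))) (.g (nat_lit 5) .nil .nil))) 
(.lf (nat_lit 77628) (.g (nat_lit 2696) (.e (nat_lit 1800) (nat_lit 119) (.e (nat_lit 516117) (nat_lit 1) (.e (nat_lit 164399) (nat_lit 256) (.e (nat_lit 57378) (nat_lit 3) (.e (nat_lit 98376) (nat_lit 30) (.e (nat_lit 458789) (nat_lit 23) (.e (nat_lit 532515) (nat_lit 3) (.e (nat_lit 114708) (nat_lit 20) .nil)))))))) (.g (nat_lit 4) .nil .nil))))))) 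
(.nd (nat_lit 2) (.nd (nat_lit 3) (.nd (nat_lit 4) (.nd (nat_lit 5) 
(.lf (nat_lit 77570) (.g (nat_lit 3212) (.e (nat_lit 1800) (nat_lit 119) (.e (nat_lit 516117) (nat_lit 1) (.e (nat_lit 164399) (nat_lit 256) (.e (nat_lit 57372) (nat_lit 2) (.e (nat_lit 90172) (nat_lit 14) (.e (nat_lit 180244) (nat_lit 5) (.e (nat_lit 532514) (nat_lit 3) (.e (nat_lit 114708) (nat_lit 20) .nil)))))))) (.g (nat_lit 5) .nil .nil))) 
(.lf (nat_lit 77602) (.g (nat_lit 2869) (.e (nat_lit 1800) (nat_lit 119) (.e (nat_lit 516117) (nat_lit 1) (.e (nat_lit 164399) (nat_lit 256) (.e (nat_lit 57374) (nat_lit 2) (.e (nat_lit 90170) (nat_lit 13) (.e (nat_lit 172067) (nat_lit 3) (.e (nat_lit 204838) (nat_lit 20) (.e (nat_lit 114707) (nat_lit 20) .nil)))))))) (.g (nat_lit 4) .nil .nil)))) (.nd (nat_lit 5) 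
(.lf (nat_lit 77586) (.g (nat_lit 4571) (.e (nat_lit 1800) (nat_lit 119) (.e (nat_lit 516117) (nat_lit 1) (.e (nat_lit 164399) (nat_lit 256) (.e (nat_lit 57373) (nat_lit 2) (.e (nat_lit 90170) (nat_lit 13) (.e (nat_lit 172067) (nat_lit 3) (.e (nat_lit 204838) (nat_lit 20) (.e (nat_lit 114708) (nat_lit 20) .nil)))))))) (.g (nat_lit 7) .nil .nil))) 
(.lf (nat_lit 77618) (.g (nat_lit 3637) (.e (nat_lit 1800) (nat_lit 119) (.e (nat_lit 516117) (nat_lit 1) (.e (nat_lit 164399) (nat_lit 256) (.e (nat_lit 57378) (nat_lit 3) (.e (nat_lit 98355) (nat_lit 26) (.e (nat_lit 426131) (nat_lit 3) (.e (nat_lit 204837) (nat_lit 20) (.e (nat_lit 114708) (nat_lit 20) .nil)))))))) (.g (nat_lit 5) .nil .nil))))) (.nd (nat_lit 4) (.nd (nat_lit 5) 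
(.lf (nat_lit 77578) (.g (nat_lit 2749) (.e (nat_lit 1800) (nat_lit 119) (.e (nat_lit 516117) (nat_lit 1) (.e (nat_lit 164399) (nat_lit 256) (.e (nat_lit 57373) (nat_lit 2) (.e (nat_lit 90168) (nat_lit 13) (.e (nat_lit 172067) (nat_lit 3) (.e (nat_lit 204838) (nat_lit 20) (.e (nat_lit 114708) (nat_lit 20) .nil)))))))) (.g (nat_lit 4) .nil .nil))) 
(.lf (nat_lit 77610) (.g (nat_lit 2724) (.e (nat_lit 1800) (nat_lit 119) (.e (nat_lit 516117) (nat_lit 1) (.e (nat_lit 164399) (nat_lit 256) (.e (nat_lit 57375) (nat_lit 2) (.e (nat_lit 90172) (nat_lit 14) (.e (nat_lit 180244) (nat_lit 5) (.e (nat_lit 532515) (nat_lit 3) (.e (nat_lit 114707) (nat_lit 20) .nil)))))))) (.g (nat_lit 4) .nil .nil)))) (.nd (nat_lit 5) 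
(.lf (nat_lit 77594) (.g (nat_lit 5031) (.e (nat_lit 1800) (nat_lit 119) (.e (nat_lit 516117) (nat_lit 1) (.e (nat_lit 164399) (nat_lit 256) (.e (nat_lit 57373) (nat_lit 2) (.e (nat_lit 90174) (nat_lit 14) (.e (nat_lit 180243) (nat_lit 5) (.e (nat_lit 532513) (nat_lit 3) (.e (nat_lit 114708) (nat_lit 20) .nil)))))))) (.g (nat_lit 8) .nil .nil))) 
(.lf (nat_lit 77626) (.g (nat_lit 2443) (.e (nat_lit 1800) (nat_lit 119) (.e (nat_lit 516117) (nat_lit 1) (.e (nat_lit 164399) (nat_lit 256) (.e (nat_lit 57378) (nat_lit 3) (.e (nat_lit 98366) (nat_lit 27) (.e (nat_lit 434231) (nat_lit 23) (.e (nat_lit 532514) (nat_lit 3) (.e (nat_lit 114707) (nat_lit 20) .nil)))))))) (.g (nat_lit 4) .nil .nil)))))) 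
(.nd (nat_lit 3) (.nd (nat_lit 4) (.nd (nat_lit 5) 
(.lf (nat_lit 77574) (.g (nat_lit 4348) (.e (nat_lit 1800) (nat_lit 119) (.e (nat_lit 516117) (nat_lit 1) (.e (nat_lit 164399) (nat_lit 256) (.e (nat_lit 57372) (nat_lit 2) (.e (nat_lit 90174) (nat_lit 14) (.e (nat_lit 180243) (nat_lit 5) (.e (nat_lit 532513) (nat_lit 3) (.e (nat_lit 114708) (nat_lit 20) .nil)))))))) (.g (nat_lit 7) .nil .nil))) 
(.lf (nat_lit 77606) (.g (nat_lit 2418) (.e (nat_lit 1800) (nat_lit 119) (.e (nat_lit 516117) (nat_lit 1) (.e (nat_lit 164399) (nat_lit 256) (.e (nat_lit 57375) (nat_lit 2) (.e (nat_lit 90168) (nat_lit 13) (.e (nat_lit 172067) (nat_lit 3) (.e (nat_lit 204837) (nat_lit 20) (.e (nat_lit 114708) (nat_lit 20) .nil)))))))) (.g (nat_lit 4) .nil .nil)))) (.nd (nat_lit 5) 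
(.lf (nat_lit 77590) (.g (nat_lit 3147) (.e (nat_lit 1800) (nat_lit 119) (.e (nat_lit 516117) (nat_lit 1) (.e (nat_lit 164399) (nat_lit 256) (.e (nat_lit 57373) (nat_lit 2) (.e (nat_lit 90172) (nat_lit 14) (.e (nat_lit 180244) (nat_lit 5) (.e (nat_lit 532514) (nat_lit 3) (.e (nat_lit 114708) (nat_lit 20) .nil)))))))) (.g (nat_lit 5) .nil .nil))) 
(.lf (nat_lit 77622) (.g (nat_lit 4155) (.e (nat_lit 1800) (nat_lit 119) (.e (nat_lit 516117) (nat_lit 1) (.e (nat_lit 164399) (nat_lit 256) (.e (nat_lit 57378) (nat_lit 3) (.e (nat_lit 98358) (nat_lit 26) (.e (nat_lit 426131) (nat_lit 3) (.e (nat_lit 204837) (nat_lit 20) (.e (nat_lit 114708) (nat_lit 20) .nil)))))))) (.g (nat_lit 7) .nil .nil))))) (.nd (nat_lit 4) (.nd (nat_lit 5) 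
(.lf (nat_lit 77582) (.g (nat_lit 4234) (.e (nat_lit 1800) (nat_lit 119) (.e (nat_lit 516117) (nat_lit 1) (.e (nat_lit 164399) (nat_lit 256) (.e (nat_lit 57373) (nat_lit 2) (.e (nat_lit 90170) (nat_lit 13) (.e (nat_lit 172065) (nat_lit 3) (.e (nat_lit 204838) (nat_lit 20) (.e (nat_lit 114708) (nat_lit 20) .nil)))))))) (.g (nat_lit 7) .nil .nil))) 
(.lf (nat_lit 77614) (.g (nat_lit 2720) (.e (nat_lit 1800) (nat_lit 119) (.e (nat_lit 516117) (nat_lit 1) (.e (nat_lit 164399) (nat_lit 256) (.e (nat_lit 57375) (nat_lit 2) (.e (nat_lit 90174) (nat_lit 14) (.e (nat_lit 180243) (nat_lit 5) (.e (nat_lit 532515) (nat_lit 3) (.e (nat_lit 114708) (nat_lit 20) .nil)))))))) (.g (nat_lit 5) .nil .nil)))) (.nd (nat_lit 5) 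
(.lf (nat_lit 77598) (.g (nat_lit 4399) (.e (nat_lit 1800) (nat_lit 119) (.e (nat_lit 516117) (nat_lit 1) (.e (nat_lit 164399) (nat_lit 256) (.e (nat_lit 57374) (nat_lit 2) (.e (nat_lit 90170) (nat_lit 13) (.e (nat_lit 172065) (nat_lit 3) (.e (nat_lit 204837) (nat_lit 20) (.e (nat_lit 114708) (nat_lit 20) .nil)))))))) (.g (nat_lit 6) .nil .nil))) 
(.lf (nat_lit 77630) (.g (nat_lit 2165) (.e (nat_lit 1800) (nat_lit 119) (.e (nat_lit 516117) (nat_lit 1) (.e (nat_lit 164399) (nat_lit 256) (.e (nat_lit 57379) (nat_lit 3) (.e (nat_lit 98355) (nat_lit 26) (.e (nat_lit 426131) (nat_lit 3) (.e (nat_lit 204837) (nat_lit 20) (.e (nat_lit 114708) (nat_lit 20) .nil)))))))) (.g (nat_lit 4) .nil .nil)))))))) 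
(.nd (nat_lit 1) (.nd (nat_lit 2) (.nd (nat_lit 3) (.nd (nat_lit 4) (.nd (nat_lit 5) 
(.lf (nat_lit 77569) (.g (nat_lit 4624) (.e (nat_lit 1800) (nat_lit 119) (.e (nat_lit 516117) (nat_lit 1) (.e (nat_lit 164399) (nat_lit 256) (.e (nat_lit 57372) (nat_lit 2) (.e (nat_lit 90172) (nat_lit 14) (.e (nat_lit 180244) (nat_lit 5) (.e (nat_lit 532513) (nat_lit 3) (.e (nat_lit 114708) (nat_lit 20) .nil)))))))) (.g (nat_lit 7) .nil .nil))) 
(.lf (nat_lit 77601) (.g (nat_lit 5073) (.e (nat_lit 1800) (nat_lit 119) (.e (nat_lit 516117) (nat_lit 1) (.e (nat_lit 164399) (nat_lit 256) (.e (nat_lit 57374) (nat_lit 2) (.e (nat_lit 90170) (nat_lit 13) (.e (nat_lit 172067) (nat_lit 3) (.e (nat_lit 204837) (nat_lit 20) (.e (nat_lit 114708) (nat_lit 20) .nil)))))))) (.g (nat_lit 7) .nil .nil)))) (.nd (nat_lit 5) 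
(.lf (nat_lit 77585) (.g (nat_lit 2650) (.e (nat_lit 1800) (nat_lit 119) (.e (nat_lit 516117) (nat_lit 1) (.e (nat_lit 164399) (nat_lit 256) (.e (nat_lit 57373) (nat_lit 2) (.e (nat_lit 90170) (nat_lit 13) (.e (nat_lit 172067) (nat_lit 3) (.e (nat_lit 204838) (nat_lit 20) (.e (nat_lit 114707) (nat_lit 20) .nil)))))))) (.g (nat_lit 4) .nil .nil))) 
(.lf (nat_lit 77617) (.g (nat_lit 3681) (.e (nat_lit 1800) (nat_lit 119) (.e (nat_lit 516117) (nat_lit 1) (.e (nat_lit 164399) (nat_lit 256) (.e (nat_lit 57377) (nat_lit 3) (.e (nat_lit 98357) (nat_lit 26) (.e (nat_lit 426131) (nat_lit 3) (.e (nat_lit 204837) (nat_lit 20) (.e (nat_lit 114708) (nat_lit 20) .nil)))))))) (.g (nat_lit 6) .nil .nil))))) (.nd (nat_lit 4) (.nd (nat_lit 5) 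
(.lf (nat_lit 77577) (.g (nat_lit 2986) (.e (nat_lit 1800) (nat_lit 119) (.e (nat_lit 516117) (nat_lit 1) (.e (nat_lit 164399) (nat_lit 256) (.e (nat_lit 57373) (nat_lit 2) (.e (nat_lit 90167) (nat_lit 13) (.e (nat_lit 172067) (nat_lit 3) (.e (nat_lit 204838) (nat_lit 20) (.e (nat_lit 114708) (nat_lit 20) .nil)))))))) (.g (nat_lit 5) .nil .nil))) 
(.lf (nat_lit 77609) (.g (nat_lit 4342) (.e (nat_lit 1800) (nat_lit 119) (.e (nat_lit 516117) (nat_lit 1) (.e (nat_lit 164399) (nat_lit 256) (.e (nat_lit 57375) (nat_lit 2) (.e (nat_lit 90172) (nat_lit 14) (.e (nat_lit 180244) (nat_lit 5) (.e (nat_lit 532513) (nat_lit 3) (.e (nat_lit 114708) (nat_lit 20) .nil)))))))) (.g (nat_lit 7) .nil .nil)))) (.nd (nat_lit 5) 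
(.lf (nat_lit 77593) (.g (nat_lit 4653) (.e (nat_lit 1800) (nat_lit 119) (.e (nat_lit 516117) (nat_lit 1) (.e (nat_lit 164399) (nat_lit 256) (.e (nat_lit 57373) (nat_lit 2) (.e (nat_lit 90174) (nat_lit 14) (.e (nat_lit 180243) (nat_lit 5) (.e (nat_lit 532513) (nat_lit 3) (.e (nat_lit 114707) (nat_lit 20) .nil)))))))) (.g (nat_lit 7) .nil .nil))) 
(.lf (nat_lit 77625) (.g (nat_lit 2342) (.e (nat_lit 1800) (nat_lit 119) (.e (nat_lit 516117) (nat_lit 1) (.e (nat_lit 164399) (nat_lit 256) (.e (nat_lit 57378) (nat_lit 3) (.e (nat_lit 98363) (nat_lit 26) (.e (nat_lit 426129) (nat_lit 3) (.e (nat_lit 204837) (nat_lit 20) (.e (nat_lit 114708) (nat_lit 20) .nil)))))))) (.g (nat_lit 4) .nil .nil)))))) 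
(.nd (nat_lit 3) (.nd (nat_lit 4) (.nd (nat_lit 5) 
(.lf (nat_lit 77573) (.g (nat_lit 3970) (.e (nat_lit 1800) (nat_lit 119) (.e (nat_lit 516117) (nat_lit 1) (.e (nat_lit 164399) (nat_lit 256) (.e (nat_lit 57372) (nat_lit 2) (.e (nat_lit 90174) (nat_lit 14) (.e (nat_lit 180243) (nat_lit 5) (.e (nat_lit 532513) (nat_lit 3) (.e (nat_lit 114707) (nat_lit 20) .nil)))))))) (.g (nat_lit 6) .nil .nil))) 
(.lf (nat_lit 77605) (.g (nat_lit 2780) (.e (nat_lit 1800) (nat_lit 119) (.e (nat_lit 516117) (nat_lit 1) (.e (nat_lit 164399) (nat_lit 256) (.e (nat_lit 57375) (nat_lit 2) (.e (nat_lit 90167) (nat_lit 13) (.e (nat_lit 172067) (nat_lit 3) (.e (nat_lit 204838) (nat_lit 20) (.e (nat_lit 114708) (nat_lit 20) .nil)))))))) (.g (nat_lit 4) .nil .nil)))) (.nd (nat_lit 5) 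
(.lf (nat_lit 77589) (.g (nat_lit 4643) (.e (nat_lit 1800) (nat_lit 119) (.e (nat_lit 516117) (nat_lit 1) (.e (nat_lit 164399) (nat_lit 256) (.e (nat_lit 57373) (nat_lit 2) (.e (nat_lit 90172) (nat_lit 14) (.e (nat_lit 180244) (nat_lit 5) (.e (nat_lit 532513) (nat_lit 3) (.e (nat_lit 114708) (nat_lit 20) .nil)))))))) (.g (nat_lit 7) .nil .nil))) 
(.lf (nat_lit 77621) (.g (nat_lit 3376) (.e (nat_lit 1800) (nat_lit 119) (.e (nat_lit 516117) (nat_lit 1) (.e (nat_lit 164399) (nat_lit 256) (.e (nat_lit 57378) (nat_lit 3) (.e (nat_lit 98357) (nat_lit 26) (.e (nat_lit 426131) (nat_lit 3) (.e (nat_lit 204838) (nat_lit 20) (.e (nat_lit 114708) (nat_lit 20) .nil)))))))) (.g (nat_lit 4) .nil .nil))))) (.nd (nat_lit 4) (.nd (nat_lit 5) 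
(.lf (nat_lit 77581) (.g (nat_lit 2313) (.e (nat_lit 1800) (nat_lit 119) (.e (nat_lit 516117) (nat_lit 1) (.e (nat_lit 164399) (nat_lit 256) (.e (nat_lit 57373) (nat_lit 2) (.e (nat_lit 90170) (nat_lit 13) (.e (nat_lit 172065) (nat_lit 3) (.e (nat_lit 204838) (nat_lit 20) (.e (nat_lit 114707) (nat_lit 20) .nil)))))))) (.g (nat_lit 4) .nil .nil))) 
(.lf (nat_lit 77613) (.g (nat_lit 3896) (.e (nat_lit 1800) (nat_lit 119) (.e (nat_lit 516117) (nat_lit 1) (.e (nat_lit 164399) (nat_lit 256) (.e (nat_lit 57375) (nat_lit 2) (.e (nat_lit 90174) (nat_lit 14) (.e (nat_lit 180243) (nat_lit 5) (.e (nat_lit 532513) (nat_lit 3) (.e (nat_lit 114708) (nat_lit 20) .nil)))))))) (.g (nat_lit 7) .nil .nil)))) (.nd (nat_lit 5) 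
(.lf (nat_lit 77597) (.g (nat_lit 3878) (.e (nat_lit 1800) (nat_lit 119) (.e (nat_lit 516117) (nat_lit 1) (.e (nat_lit 164399) (nat_lit 256) (.e (nat_lit 57373) (nat_lit 2) (.e (nat_lit 90174) (nat_lit 14) (.e (nat_lit 180243) (nat_lit 5) (.e (nat_lit 532515) (nat_lit 3) (.e (nat_lit 114708) (nat_lit 20) .nil)))))))) (.g (nat_lit 6) .nil .nil))) 
(.lf (nat_lit 77629) (.g (nat_lit 2903) (.e (nat_lit 1800) (nat_lit 119) (.e (nat_lit 516117) (nat_lit 1) (.e (nat_lit 164399) (nat_lit 256) (.e (nat_lit 57378) (nat_lit 3) (.e (nat_lit 98377) (nat_lit 30) (.e (nat_lit 458789) (nat_lit 23) (.e (nat_lit 532515) (nat_lit 3) (.e (nat_lit 114708) (nat_lit 20) .nil)))))))) (.g (nat_lit 5) .nil .nil))))))) 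
(.nd (nat_lit 2) (.nd (nat_lit 3) (.nd (nat_lit 4) (.nd (nat_lit 5) 
(.lf (nat_lit 77571) (.g (nat_lit 3042) (.e (nat_lit 1800) (nat_lit 119) (.e (nat_lit 516117) (nat_lit 1) (.e (nat_lit 164399) (nat_lit 256) (.e (nat_lit 57372) (nat_lit 2) (.e (nat_lit 90172) (nat_lit 14) (.e (nat_lit 180244) (nat_lit 5) (.e (nat_lit 532515) (nat_lit 3) (.e (nat_lit 114707) (nat_lit 20) .nil)))))))) (.g (nat_lit 4) .nil .nil))) 
(.lf (nat_lit 77603) (.g (nat_lit 2573) (.e (nat_lit 1800) (nat_lit 119) (.e (nat_lit 516117) (nat_lit 1) (.e (nat_lit 164399) (nat_lit 256) (.e (nat_lit 57374) (nat_lit 2) (.e (nat_lit 90174) (nat_lit 14) (.e (nat_lit 180243) (nat_lit 5) (.e (nat_lit 532513) (nat_lit 3) (.e (nat_lit 114708) (nat_lit 20) .nil)))))))) (.g (nat_lit 4) .nil .nil)))) (.nd (nat_lit 5) 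
(.lf (nat_lit 77587) (.g (nat_lit 3875) (.e (nat_lit 1800) (nat_lit 119) (.e (nat_lit 516117) (nat_lit 1) (.e (nat_lit 164399) (nat_lit 256) (.e (nat_lit 57373) (nat_lit 2) (.e (nat_lit 90172) (nat_lit 14) (.e (nat_lit 180243) (nat_lit 5) (.e (nat_lit 532513) (nat_lit 3) (.e (nat_lit 114708) (nat_lit 20) .nil)))))))) (.g (nat_lit 5) .nil .nil))) 
(.lf (nat_lit 77619) (.g (nat_lit 4095) (.e (nat_lit 1800) (nat_lit 119) (.e (nat_lit 516117) (nat_lit 1) (.e (nat_lit 164399) (nat_lit 256) (.e (nat_lit 57378) (nat_lit 3) (.e (nat_lit 98356) (nat_lit 26) (.e (nat_lit 426131) (nat_lit 3) (.e (nat_lit 204837) (nat_lit 20) (.e (nat_lit 114708) (nat_lit 20) .nil)))))))) (.g (nat_lit 5) .nil .nil))))) (.nd (nat_lit 4) (.nd (nat_lit 5) 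
(.lf (nat_lit 77579) (.g (nat_lit 2336) (.e (nat_lit 1800) (nat_lit 119) (.e (nat_lit 516117) (nat_lit 1) (.e (nat_lit 164399) (nat_lit 256) (.e (nat_lit 57373) (nat_lit 2) (.e (nat_lit 90170) (nat_lit 13) (.e (nat_lit 172065) (nat_lit 3) (.e (nat_lit 204837) (nat_lit 20) (.e (nat_lit 114707) (nat_lit 20) .nil)))))))) (.g (nat_lit 4) .nil .nil))) 
(.lf (nat_lit 77611) (.g (nat_lit 3424) (.e (nat_lit 1800) (nat_lit 119) (.e (nat_lit 516117) (nat_lit 1) (.e (nat_lit 164399) (nat_lit 256) (.e (nat_lit 57375) (nat_lit 2) (.e (nat_lit 90172) (nat_lit 14) (.e (nat_lit 180244) (nat_lit 5) (.e (nat_lit 532515) (nat_lit 3) (.e (nat_lit 114708) (nat_lit 20) .nil)))))))) (.g (nat_lit 6) .nil .nil)))) (.nd (nat_lit 5) 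
(.lf (nat_lit 77595) (.g (nat_lit 2290) (.e (nat_lit 1800) (nat_lit 119) (.e (nat_lit 516117) (nat_lit 1) (.e (nat_lit 164399) (nat_lit 256) (.e (nat_lit 57373) (nat_lit 2) (.e (nat_lit 90174) (nat_lit 14) (.e (nat_lit 180243) (nat_lit 5) (.e (nat_lit 532513) (nat_lit 3) (.e (nat_lit 122624) (nat_lit 20) .nil)))))))) (.g (nat_lit 4) .nil .nil))) 
(.lf (nat_lit 77627) (.g (nat_lit 2378) (.e (nat_lit 1800) (nat_lit 119) (.e (nat_lit 516117) (nat_lit 1) (.e (nat_lit 164399) (nat_lit 256) (.e (nat_lit 57378) (nat_lit 3) (.e (nat_lit 98367) (nat_lit 27) (.e (nat_lit 434231) (nat_lit 23) (.e (nat_lit 532514) (nat_lit 3) (.e (nat_lit 114707) (nat_lit 20) .nil)))))))) (.g (nat_lit 4) .nil .nil)))))) 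
(.nd (nat_lit 3) (.nd (nat_lit 4) (.nd (nat_lit 5) 
(.lf (nat_lit 77575) (.g (nat_lit 2555) (.e (nat_lit 1800) (nat_lit 119) (.e (nat_lit 516117) (nat_lit 1) (.e (nat_lit 164399) (nat_lit 256) (.e (nat_lit 57372) (nat_lit 2) (.e (nat_lit 90174) (nat_lit 14) (.e (nat_lit 180243) (nat_lit 5) (.e (nat_lit 532515) (nat_lit 3) (.e (nat_lit 114707) (nat_lit 20) .nil)))))))) (.g (nat_lit 4) .nil .nil))) 
(.lf (nat_lit 77607) (.g (nat_lit 3134) (.e (nat_lit 1800) (nat_lit 119) (.e (nat_lit 516117) (nat_lit 1) (.e (nat_lit 164399) (nat_lit 256) (.e (nat_lit 57375) (nat_lit 2) (.e (nat_lit 90172) (nat_lit 14) (.e (nat_lit 180243) (nat_lit 5) (.e (nat_lit 532513) (nat_lit 3) (.e (nat_lit 114707) (nat_lit 20) .nil)))))))) (.g (nat_lit 5) .nil .nil)))) (.nd (nat_lit 5) 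
(.lf (nat_lit 77591) (.g (nat_lit 3065) (.e (nat_lit 1800) (nat_lit 119) (.e (nat_lit 516117) (nat_lit 1) (.e (nat_lit 164399) (nat_lit 256) (.e (nat_lit 57373) (nat_lit 2) (.e (nat_lit 90172) (nat_lit 14) (.e (nat_lit 180244) (nat_lit 5) (.e (nat_lit 532515) (nat_lit 3) (.e (nat_lit 114707) (nat_lit 20) .nil)))))))) (.g (nat_lit 4) .nil .nil))) 
(.lf (nat_lit 77623) (.g (nat_lit 2501) (.e (nat_lit 1800) (nat_lit 119) (.e (nat_lit 516117) (nat_lit 1) (.e (nat_lit 164399) (nat_lit 256) (.e (nat_lit 57378) (nat_lit 3) (.e (nat_lit 98358) (nat_lit 26) (.e (nat_lit 426131) (nat_lit 3) (.e (nat_lit 204838) (nat_lit 20) (.e (nat_lit 114707) (nat_lit 20) .nil)))))))) (.g (nat_lit 4) .nil .nil))))) (.nd (nat_lit 4) (.nd (nat_lit 5) 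
(.lf (nat_lit 77583) (.g (nat_lit 3409) (.e (nat_lit 1800) (nat_lit 119) (.e (nat_lit 516117) (nat_lit 1) (.e (nat_lit 164399) (nat_lit 256) (.e (nat_lit 57373) (nat_lit 2) (.e (nat_lit 90170) (nat_lit 13) (.e (nat_lit 172067) (nat_lit 3) (.e (nat_lit 204837) (nat_lit 20) (.e (nat_lit 114707) (nat_lit 20) .nil)))))))) (.g (nat_lit 5) .nil .nil))) 
(.lf (nat_lit 77615) (.g (nat_lit 2624) (.e (nat_lit 1800) (nat_lit 119) (.e (nat_lit 516117) (nat_lit 1) (.e (nat_lit 164399) (nat_lit 256) (.e (nat_lit 57377) (nat_lit 3) (.e (nat_lit 98355) (nat_lit 26) (.e (nat_lit 426131) (nat_lit 3) (.e (nat_lit 204837) (nat_lit 20) (.e (nat_lit 114708) (nat_lit 20) .nil)))))))) (.g (nat_lit 4) .nil .nil)))) (.nd (nat_lit 5) 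
(.lf (nat_lit 77599) (.g (nat_lit 4570) (.e (nat_lit 1800) (nat_lit 119) (.e (nat_lit 516117) (nat_lit 1) (.e (nat_lit 164399) (nat_lit 256) (.e (nat_lit 57374) (nat_lit 2) (.e (nat_lit 90170) (nat_lit 13) (.e (nat_lit 172065) (nat_lit 3) (.e (nat_lit 204838) (nat_lit 20) (.e (nat_lit 114708) (nat_lit 20) .nil)))))))) (.g (nat_lit 6) .nil .nil))) 
(.lf (nat_lit 77631) (.g (nat_lit 2407) (.e (nat_lit 1800) (nat_lit 119) (.e (nat_lit 516117) (nat_lit 1) (.e (nat_lit 164399) (nat_lit 256) (.e (nat_lit 57379) (nat_lit 3) (.e (nat_lit 98355) (nat_lit 26) (.e (nat_lit 426131) (nat_lit 3) (.e (nat_lit 204838) (nat_lit 20) (.e (nat_lit 114708) (nat_lit 20) .nil)))))))) (.g (nat_lit 4) .nil .nil)))))))))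

noncomputable def tv1050 : DT := (.nd (nat_lit 0) (.nd (nat_lit 1) (.nd (nat_lit 2) (.nd (nat_lit 3) (.nd (nat_lit 4) (.nd (nat_lit 5) 
(.lf (nat_lit 77632) (.g (nat_lit 3686) (.e (nat_lit 1800) (nat_lit 119) (.e (nat_lit 516117) (nat_lit 1) (.e (nat_lit 164399) (nat_lit 256) (.e (nat_lit 57379) (nat_lit 3) (.e (nat_lit 98356) (nat_lit 26) (.e (nat_lit 426131) (nat_lit 3) (.e (nat_lit 204837) (nat_lit 20) (.e (nat_lit 114708) (nat_lit 20) .nil)))))))) (.g (nat_lit 6) .nil .nil))) 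
(.lf (nat_lit 77664) (.g (nat_lit 3856) (.e (nat_lit 1800) (nat_lit 119) (.e (nat_lit 516117) (nat_lit 1) (.e (nat_lit 164400) (nat_lit 256) (.e (nat_lit 57375) (nat_lit 2) (.e (nat_lit 90174) (nat_lit 14) (.e (nat_lit 180243) (nat_lit 5) (.e (nat_lit 532513) (nat_lit 3) (.e (nat_lit 114708) (nat_lit 20) .nil)))))))) (.g (nat_lit 7) .nil .nil)))) (.nd (nat_lit 5) 
(.lf (nat_lit 77648) (.g (nat_lit 2734) (.e (nat_lit 1800) (nat_lit 119) (.e (nat_lit 516117) (nat_lit 1) (.e (nat_lit 164400) (nat_lit 256) (.e (nat_lit 57372) (nat_lit 2) (.e (nat_lit 90172) (nat_lit 14) (.e (nat_lit 180244) (nat_lit 5) (.e (nat_lit 532514) (nat_lit 3) (.e (nat_lit 114708) (nat_lit 20) .nil)))))))) (.g (nat_lit 5) .nil .nil))) 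
(.lf (nat_lit 77680) (.g (nat_lit 2311) (.e (nat_lit 1800) (nat_lit 119) (.e (nat_lit 516117) (nat_lit 1) (.e (nat_lit 164401) (nat_lit 256) (.e (nat_lit 57373) (nat_lit 2) (.e (nat_lit 90174) (nat_lit 14) (.e (nat_lit 180243) (nat_lit 5) (.e (nat_lit 532515) (nat_lit 3) (.e (nat_lit 114707) (nat_lit 20) .nil)))))))) (.g (nat_lit 4) .nil .nil))))) (.nd (nat_lit 4) (.nd (nat_lit 5) 
(.lf (nat_lit 77640) (.g (nat_lit 2578) (.e (nat_lit 1800) (nat_lit 119) (.e (nat_lit 516117) (nat_lit 1) (.e (nat_lit 164399) (nat_lit 256) (.e (nat_lit 57379) (nat_lit 3) (.e (nat_lit 98376) (nat_lit 30) (.e (nat_lit 458789) (nat_lit 23) (.e (nat_lit 532515) (nat_lit 3) (.e (nat_lit 114708) (nat_lit 20) .nil)))))))) (.g (nat_lit 5) .nil .nil))) 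
(.lf (nat_lit 77672) (.g (nat_lit 3467) (.e (nat_lit 1800) (nat_lit 119) (.e (nat_lit 516117) (nat_lit 1) (.e (nat_lit 164401) (nat_lit 256) (.e (nat_lit 57373) (nat_lit 2) (.e (nat_lit 90170) (nat_lit 13) (.e (nat_lit 172067) (nat_lit 3) (.e (nat_lit 204837) (nat_lit 20) (.e (nat_lit 114708) (nat_lit 20) .nil)))))))) (.g (nat_lit 6) .nil .nil)))) (.nd (nat_lit 5) 
(.lf (nat_lit 77656) (.g (nat_lit 3368) (.e (nat_lit 1800) (nat_lit 119) (.e (nat_lit 516117) (nat_lit 1) (.e (nat_lit 164400) (nat_lit 256) (.e (nat_lit 57375) (nat_lit 2) (.e (nat_lit 90172) (nat_lit 14) (.e (nat_lit 180243) (nat_lit 5) (.e (nat_lit 532513) (nat_lit 3) (.e (nat_lit 114708) (nat_lit 20) .nil)))))))) (.g (nat_lit 6) .nil .nil))) 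
(.lf (nat_lit 77688) (.g (nat_lit 3202) (.e (nat_lit 1800) (nat_lit 119) (.e (nat_lit 516117) (nat_lit 1) (.e (nat_lit 164403) (nat_lit 256) (.e (nat_lit 57371) (nat_lit 2) (.e (nat_lit 90167) (nat_lit 13) (.e (nat_lit 172067) (nat_lit 3) (.e (nat_lit 204837) (nat_lit 20) (.e (nat_lit 114708) (nat_lit 20) .nil)))))))) (.g (nat_lit 5) .nil .nil)))))) 
(.nd (nat_lit 3) (.nd (nat_lit 4) (.nd (nat_lit 5) 
(.lf (nat_lit 77636) (.g (nat_lit 2445) (.e (nat_lit 1800) (nat_lit 119) (.e (nat_lit 516117) (nat_lit 1) (.e (nat_lit 164399) (nat_lit 256) (.e (nat_lit 57379) (nat_lit 3) (.e (nat_lit 98366) (nat_lit 27) (.e (nat_lit 434231) (nat_lit 23) (.e (nat_lit 532514) (nat_lit 3) (.e (nat_lit 114707) (nat_lit 20) .nil)))))))) (.g (nat_lit 4) .nil .nil))) 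
(.lf (nat_lit 77668) (.g (nat_lit 3703) (.e (nat_lit 1800) (nat_lit 119) (.e (nat_lit 516117) (nat_lit 1) (.e (nat_lit 164400) (nat_lit 256) (.e (nat_lit 57379) (nat_lit 3) (.e (nat_lit 98367) (nat_lit 27) (.e (nat_lit 434231) (nat_lit 23) (.e (nat_lit 532514) (nat_lit 3) (.e (nat_lit 114708) (nat_lit 20) .nil)))))))) (.g (nat_lit 7) .nil .nil)))) (.nd (nat_lit 5) 
(.lf (nat_lit 77652) (.g (nat_lit 3399) (.e (nat_lit 1800) (nat_lit 119) (.e (nat_lit 516117) (nat_lit 1) (.e (nat_lit 164400) (nat_lit 256) (.e (nat_lit 57372) (nat_lit 2) (.e (nat_lit 90174) (nat_lit 14) (.e (nat_lit 180243) (nat_lit 5) (.e (nat_lit 532513) (nat_lit 3) (.e (nat_lit 114708) (nat_lit 20) .nil)))))))) (.g (nat_lit 5) .nil .nil))) 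
(.lf (nat_lit 77684) (.g (nat_lit 2566) (.e (nat_lit 1800) (nat_lit 119) (.e (nat_lit 516117) (nat_lit 1) (.e (nat_lit 164401) (nat_lit 256) (.e (nat_lit 57378) (nat_lit 3) (.e (nat_lit 98355) (nat_lit 26) (.e (nat_lit 426131) (nat_lit 3) (.e (nat_lit 204838) (nat_lit 20) (.e (nat_lit 114708) (nat_lit 20) .nil)))))))) (.g (nat_lit 4) .nil .nil))))) (.nd (nat_lit 4) (.nd (nat_lit 5) 
(.lf (nat_lit 77644) (.g (nat_lit 3034) (.e (nat_lit 1800) (nat_lit 119) (.e (nat_lit 516117) (nat_lit 1) (.e (nat_lit 164400) (nat_lit 256) (.e (nat_lit 57372) (nat_lit 2) (.e (nat_lit 90172) (nat_lit 14) (.e (nat_lit 180243) (nat_lit 5) (.e (nat_lit 532513) (nat_lit 3) (.e (nat_lit 114707) (nat_lit 20) .nil)))))))) (.g (nat_lit 5) .nil .nil))) 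
(.lf (nat_lit 77676) (.g (nat_lit 2026) (.e (nat_lit 1800) (nat_lit 119) (.e (nat_lit 516117) (nat_lit 1) (.e (nat_lit 164401) (nat_lit 256) (.e (nat_lit 57373) (nat_lit 2) (.e (nat_lit 90172) (nat_lit 14) (.e (nat_lit 180244) (nat_lit 5) (.e (nat_lit 532515) (nat_lit 3) (.e (nat_lit 114707) (nat_lit 20) .nil)))))))) (.g (nat_lit 4) .nil .nil)))) (.nd (nat_lit 5) 
(.lf (nat_lit 77660) (.g (nat_lit 2628) (.e (nat_lit 1800) (nat_lit 119) (.e (nat_lit 516117) (nat_lit 1) (.e (nat_lit 164400) (nat_lit 256) (.e (nat_lit 57375) (nat_lit 2) (.e (nat_lit 90172) (nat_lit 14) (.e (nat_lit 180244) (nat_lit 5) (.e (nat_lit 532514) (nat_lit 3) (.e (nat_lit 114708) (nat_lit 20) .nil)))))))) (.g (nat_lit 5) .nil .nil))) 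
(.lf (nat_lit 77692) (.g (nat_lit 3429) (.e (nat_lit 1800) (nat_lit 119) (.e (nat_lit 516117) (nat_lit 1) (.e (nat_lit 164403) (nat_lit 256) (.e (nat_lit 57371) (nat_lit 2) (.e (nat_lit 90172) (nat_lit 14) (.e (nat_lit 180244) (nat_lit 5) (.e (nat_lit 532513) (nat_lit 3) (.e (nat_lit 114708) (nat_lit 20) .nil)))))))) (.g (nat_lit 5) .nil .nil))))))) 
(.nd (nat_lit 2) (.nd (nat_lit 3) (.nd (nat_lit 4) (.nd (nat_lit 5) 
(.lf (nat_lit 77634) (.g (nat_lit 2376) (.e (nat_lit 1800) (nat_lit 119) (.e (nat_lit 516117) (nat_lit 1) (.e (nat_lit 164399) (nat_lit 256) (.e (nat_lit 57379) (nat_lit 3) (.e (nat_lit 98363) (nat_lit 26) (.e (nat_lit 426129) (nat_lit 3) (.e (nat_lit 204837) (nat_lit 20) (.e (nat_lit 114708) (nat_lit 20) .nil)))))))) (.g (nat_lit 4) .nil .nil))) 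
(.lf (nat_lit 77666) (.g (nat_lit 2680) (.e (nat_lit 1800) (nat_lit 119) (.e (nat_lit 516117) (nat_lit 1) (.e (nat_lit 164400) (nat_lit 256) (.e (nat_lit 57375) (nat_lit 2) (.e (nat_lit 90174) (nat_lit 14) (.e (nat_lit 180243) (nat_lit 5) (.e (nat_lit 532515) (nat_lit 3) (.e (nat_lit 114708) (nat_lit 20) .nil)))))))) (.g (nat_lit 5) .nil .nil)))) (.nd (nat_lit 5) 
(.lf (nat_lit 77650) (.g (nat_lit 3264) (.e (nat_lit 1800) (nat_lit 119) (.e (nat_lit 516117) (nat_lit 1) (.e (nat_lit 164400) (nat_lit 256) (.e (nat_lit 57372) (nat_lit 2) (.e (nat_lit 90172) (nat_lit 14) (.e (nat_lit 180244) (nat_lit 5) (.e (nat_lit 532515) (nat_lit 3) (.e (nat_lit 114708) (nat_lit 20) .nil)))))))) (.g (nat_lit 6) .nil .nil))) 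
(.lf (nat_lit 77682) (.g (nat_lit 2017) (.e (nat_lit 1800) (nat_lit 119) (.e (nat_lit 516117) (nat_lit 1) (.e (nat_lit 164401) (nat_lit 256) (.e (nat_lit 57377) (nat_lit 3) (.e (nat_lit 98357) (nat_lit 26) .nil))))) .nil)))) (.nd (nat_lit 4) (.nd (nat_lit 5) 
(.lf (nat_lit 77642) (.g (nat_lit 2140) (.e (nat_lit 1800) (nat_lit 119) (.e (nat_lit 516117) (nat_lit 1) (.e (nat_lit 164400) (nat_lit 256) (.e (nat_lit 57372) (nat_lit 2) (.e (nat_lit 90167) (nat_lit 13) .nil))))) .nil)) 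
(.lf (nat_lit 77674) (.g (nat_lit 3604) (.e (nat_lit 1800) (nat_lit 119) (.e (nat_lit 516117) (nat_lit 1) (.e (nat_lit 164401) (nat_lit 256) (.e (nat_lit 57373) (nat_lit 2) (.e (nat_lit 90172) (nat_lit 14) (.e (nat_lit 180244) (nat_lit 5) (.e (nat_lit 532513) (nat_lit 3) (.e (nat_lit 114708) (nat_lit 20) .nil)))))))) (.g (nat_lit 6) .nil .nil)))) (.nd (nat_lit 5) 
(.lf (nat_lit 77658) (.g (nat_lit 3396) (.e (nat_lit 1800) (nat_lit 119) (.e (nat_lit 516117) (nat_lit 1) (.e (nat_lit 164400) (nat_lit 256) (.e (nat_lit 57375) (nat_lit 2) (.e (nat_lit 90172) (nat_lit 14) (.e (nat_lit 180244) (nat_lit 5) (.e (nat_lit 532513) (nat_lit 3) (.e (nat_lit 114707) (nat_lit 20) .nil)))))))) (.g (nat_lit 6) .nil .nil))) 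
(.lf (nat_lit 77690) (.g (nat_lit 3290) (.e (nat_lit 1800) (nat_lit 119) (.e (nat_lit 516117) (nat_lit 1) (.e (nat_lit 164403) (nat_lit 256) (.e (nat_lit 57371) (nat_lit 2) (.e (nat_lit 90172) (nat_lit 14) (.e (nat_lit 180243) (nat_lit 5) (.e (nat_lit 532513) (nat_lit 3) (.e (nat_lit 114708) (nat_lit 20) .nil)))))))) (.g (nat_lit 5) .nil .nil)))))) 
(.nd (nat_lit 3) (.nd (nat_lit 4) (.nd (nat_lit 5) 
(.lf (nat_lit 77638) (.g (nat_lit 2397) (.e (nat_lit 1800) (nat_lit 119) (.e (nat_lit 516117) (nat_lit 1) (.e (nat_lit 164399) (nat_lit 256) (.e (nat_lit 57379) (nat_lit 3) (.e (nat_lit 98367) (nat_lit 27) (.e (nat_lit 434231) (nat_lit 23) (.e (nat_lit 532513) (nat_lit 3) (.e (nat_lit 114708) (nat_lit 20) .nil)))))))) (.g (nat_lit 4) .nil .nil))) 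
(.lf (nat_lit 77670) (.g (nat_lit 2837) (.e (nat_lit 1800) (nat_lit 119) (.e (nat_lit 516117) (nat_lit 1) (.e (nat_lit 164401) (nat_lit 256) (.e (nat_lit 57373) (nat_lit 2) (.e (nat_lit 90170) (nat_lit 13) (.e (nat_lit 172065) (nat_lit 3) (.e (nat_lit 204837) (nat_lit 20) (.e (nat_lit 114708) (nat_lit 20) .nil)))))))) (.g (nat_lit 5) .nil .nil)))) (.nd (nat_lit 5) 
(.lf (nat_lit 77654) (.g (nat_lit 4449) (.e (nat_lit 1800) (nat_lit 119) (.e (nat_lit 516117) (nat_lit 1) (.e (nat_lit 164400) (nat_lit 256) (.e (nat_lit 57374) (nat_lit 2) (.e (nat_lit 90170) (nat_lit 13) (.e (nat_lit 172067) (nat_lit 3) (.e (nat_lit 204837) (nat_lit 20) (.e (nat_lit 114708) (nat_lit 20) .nil)))))))) (.g (nat_lit 7) .nil .nil))) 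
(.lf (nat_lit 77686) (.g (nat_lit 1857) (.e (nat_lit 1800) (nat_lit 119) (.e (nat_lit 516117) (nat_lit 1) (.e (nat_lit 164401) (nat_lit 256) (.e (nat_lit 57378) (nat_lit 3) (.e (nat_lit 98377) (nat_lit 30) (.e (nat_lit 458789) (nat_lit 23) (.e (nat_lit 532515) (nat_lit 3) (.e (nat_lit 114708) (nat_lit 20) .nil)))))))) (.g (nat_lit 4) .nil .nil))))) (.nd (nat_lit 4) (.nd (nat_lit 5) 
(.lf (nat_lit 77646) (.g (nat_lit 3476) (.e (nat_lit 1800) (nat_lit 119) (.e (nat_lit 516117) (nat_lit 1) (.e (nat_lit 164400) (nat_lit 256) (.e (nat_lit 57372) (nat_lit 2) (.e (nat_lit 90172) (nat_lit 14) (.e (nat_lit 180244) (nat_lit 5) (.e (nat_lit 532513) (nat_lit 3) (.e (nat_lit 114707) (nat_lit 20) .nil)))))))) (.g (nat_lit 6) .nil .nil))) 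
(.lf (nat_lit 77678) (.g (nat_lit 3722) (.e (nat_lit 1800) (nat_lit 119) (.e (nat_lit 516117) (nat_lit 1) (.e (nat_lit 164401) (nat_lit 256) (.e (nat_lit 57373) (nat_lit 2) (.e (nat_lit 90174) (nat_lit 14) (.e (nat_lit 180243) (nat_lit 5) (.e (nat_lit 532513) (nat_lit 3) (.e (nat_lit 114707) (nat_lit 20) .nil)))))))) (.g (nat_lit 6) .nil .nil)))) (.nd (nat_lit 5) 
(.lf (nat_lit 77662) (.g (nat_lit 3148) (.e (nat_lit 1800) (nat_lit 119) (.e (nat_lit 516117) (nat_lit 1) (.e (nat_lit 164400) (nat_lit 256) (.e (nat_lit 57375) (nat_lit 2) (.e (nat_lit 90172) (nat_lit 14) (.e (nat_lit 180244) (nat_lit 5) (.e (nat_lit 532515) (nat_lit 3) (.e (nat_lit 114708) (nat_lit 20) .nil)))))))) (.g (nat_lit 6) .nil .nil))) 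
(.lf (nat_lit 77694) (.g (nat_lit 3229) (.e (nat_lit 1800) (nat_lit 119) (.e (nat_lit 516117) (nat_lit 1) (.e (nat_lit 164403) (nat_lit 256) (.e (nat_lit 57371) (nat_lit 2) (.e (nat_lit 90174) (nat_lit 14) (.e (nat_lit 180243) (nat_lit 5) (.e (nat_lit 532513) (nat_lit 3) (.e (nat_lit 114707) (nat_lit 20) .nil)))))))) (.g (nat_lit 5) .nil .nil)))))))) 
(.nd (nat_lit 1) (.nd (nat_lit 2) (.nd (nat_lit 3) (.nd (nat_lit 4) (.nd (nat_lit 5) 
(.lf (nat_lit 77633) (.g (nat_lit 3928) (.e (nat_lit 1800) (nat_lit 119) (.e (nat_lit 516117) (nat_lit 1) (.e (nat_lit 164399) (nat_lit 256) (.e (nat_lit 57379) (nat_lit 3) (.e (nat_lit 98356) (nat_lit 26) (.e (nat_lit 426131) (nat_lit 3) (.e (nat_lit 204838) (nat_lit 20) (.e (nat_lit 114708) (nat_lit 20) .nil)))))))) (.g (nat_lit 6) .nil .nil))) 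
(.lf (nat_lit 77665) (.g (nat_lit 2053) (.e (nat_lit 1800) (nat_lit 119) (.e (nat_lit 516117) (nat_lit 1) (.e (nat_lit 164400) (nat_lit 256) (.e (nat_lit 57375) (nat_lit 2) (.e (nat_lit 90174) (nat_lit 14) (.e (nat_lit 180243) (nat_lit 5) (.e (nat_lit 532515) (nat_lit 3) (.e (nat_lit 114707) (nat_lit 20) .nil)))))))) (.g (nat_lit 4) .nil .nil)))) (.nd (nat_lit 5) 
(.lf (nat_lit 77649) (.g (nat_lit 2573) (.e (nat_lit 1800) (nat_lit 119) (.e (nat_lit 516117) (nat_lit 1) (.e (nat_lit 164400) (nat_lit 256) (.e (nat_lit 57372) (nat_lit 2) (.e (nat_lit 90172) (nat_lit 14) (.e (nat_lit 180244) (nat_lit 5) (.e (nat_lit 532515) (nat_lit 3) (.e (nat_lit 114707) (nat_lit 20) .nil)))))))) (.g (nat_lit 4) .nil .nil))) 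
(.lf (nat_lit 77681) (.g (nat_lit 2947) (.e (nat_lit 1800) (nat_lit 119) (.e (nat_lit 516117) (nat_lit 1) (.e (nat_lit 164401) (nat_lit 256) (.e (nat_lit 57373) (nat_lit 2) (.e (nat_lit 90174) (nat_lit 14) (.e (nat_lit 180243) (nat_lit 5) (.e (nat_lit 532515) (nat_lit 3) (.e (nat_lit 114708) (nat_lit 20) .nil)))))))) (.g (nat_lit 5) .nil .nil))))) (.nd (nat_lit 4) (.nd (nat_lit 5) 
(.lf (nat_lit 77641) (.g (nat_lit 2807) (.e (nat_lit 1800) (nat_lit 119) (.e (nat_lit 516117) (nat_lit 1) (.e (nat_lit 164399) (nat_lit 256) (.e (nat_lit 57379) (nat_lit 3) (.e (nat_lit 98377) (nat_lit 30) (.e (nat_lit 458789) (nat_lit 23) (.e (nat_lit 532515) (nat_lit 3) (.e (nat_lit 114708) (nat_lit 20) .nil)))))))) (.g (nat_lit 5) .nil .nil))) 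
(.lf (nat_lit 77673) (.g (nat_lit 2925) (.e (nat_lit 1800) (nat_lit 119) (.e (nat_lit 516117) (nat_lit 1) (.e (nat_lit 164401) (nat_lit 256) (.e (nat_lit 57373) (nat_lit 2) (.e (nat_lit 90172) (nat_lit 14) (.e (nat_lit 180244) (nat_lit 5) (.e (nat_lit 532513) (nat_lit 3) (.e (nat_lit 114707) (nat_lit 20) .nil)))))))) (.g (nat_lit 5) .nil .nil)))) (.nd (nat_lit 5) 
(.lf (nat_lit 77657) (.g (nat_lit 2016) (.e (nat_lit 1800) (nat_lit 119) (.e (nat_lit 516117) (nat_lit 1) (.e (nat_lit 164400) (nat_lit 256) (.e (nat_lit 57375) (nat_lit 2) (.e (nat_lit 90172) (nat_lit 14) (.e (nat_lit 180243) (nat_lit 5) (.e (nat_lit 532515) (nat_lit 3) (.e (nat_lit 114708) (nat_lit 20) .nil)))))))) (.g (nat_lit 4) .nil .nil))) 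
(.lf (nat_lit 77689) (.g (nat_lit 2900) (.e (nat_lit 1800) (nat_lit 119) (.e (nat_lit 516117) (nat_lit 1) (.e (nat_lit 164403) (nat_lit 256) (.e (nat_lit 57371) (nat_lit 2) (.e (nat_lit 90167) (nat_lit 13) (.e (nat_lit 172067) (nat_lit 3) (.e (nat_lit 204838) (nat_lit 20) (.e (nat_lit 114708) (nat_lit 20) .nil)))))))) (.g (nat_lit 5) .nil .nil)))))) 
(.nd (nat_lit 3) (.nd (nat_lit 4) (.nd (nat_lit 5) 
(.lf (nat_lit 77637) (.g (nat_lit 4808) (.e (nat_lit 1800) (nat_lit 119) (.e (nat_lit 516117) (nat_lit 1) (.e (nat_lit 164399) (nat_lit 256) (.e (nat_lit 57379) (nat_lit 3) (.e (nat_lit 98366) (nat_lit 27) (.e (nat_lit 434231) (nat_lit 23) (.e (nat_lit 532514) (nat_lit 3) (.e (nat_lit 114708) (nat_lit 20) .nil)))))))) (.g (nat_lit 8) .nil .nil))) 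
(.lf (nat_lit 77669) (.g (nat_lit 2194) (.e (nat_lit 1800) (nat_lit 119) (.e (nat_lit 516117) (nat_lit 1) (.e (nat_lit 164401) (nat_lit 256) (.e (nat_lit 57371) (nat_lit 2) (.e (nat_lit 90172) (nat_lit 14) (.e (nat_lit 180244) (nat_lit 5) (.e (nat_lit 532513) (nat_lit 3) (.e (nat_lit 114708) (nat_lit 20) .nil)))))))) (.g (nat_lit 4) .nil .nil)))) (.nd (nat_lit 5) 
(.lf (nat_lit 77653) (.g (nat_lit 3775) (.e (nat_lit 1800) (nat_lit 119) (.e (nat_lit 516117) (nat_lit 1) (.e (nat_lit 164400) (nat_lit 256) (.e (nat_lit 57374) (nat_lit 2) (.e (nat_lit 90170) (nat_lit 13) (.e (nat_lit 172065) (nat_lit 3) (.e (nat_lit 204837) (nat_lit 20) (.e (nat_lit 114708) (nat_lit 20) .nil)))))))) (.g (nat_lit 5) .nil .nil))) 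
(.lf (nat_lit 77685) (.g (nat_lit 1779) (.e (nat_lit 1800) (nat_lit 119) (.e (nat_lit 516117) (nat_lit 1) (.e (nat_lit 164401) (nat_lit 256) (.e (nat_lit 57378) (nat_lit 3) (.e (nat_lit 98376) (nat_lit 30) (.e (nat_lit 458789) (nat_lit 23) (.e (nat_lit 532515) (nat_lit 3) (.e (nat_lit 114708) (nat_lit 20) .nil)))))))) (.g (nat_lit 4) .nil .nil))))) (.nd (nat_lit 4) (.nd (nat_lit 5) 
(.lf (nat_lit 77645) (.g (nat_lit 3569) (.e (nat_lit 1800) (nat_lit 119) (.e (nat_lit 516117) (nat_lit 1) (.e (nat_lit 164400) (nat_lit 256) (.e (nat_lit 57372) (nat_lit 2) (.e (nat_lit 90172) (nat_lit 14) (.e (nat_lit 180243) (nat_lit 5) (.e (nat_lit 532513) (nat_lit 3) (.e (nat_lit 114708) (nat_lit 20) .nil)))))))) (.g (nat_lit 6) .nil .nil))) 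
(.lf (nat_lit 77677) (.g (nat_lit 2726) (.e (nat_lit 1800) (nat_lit 119) (.e (nat_lit 516117) (nat_lit 1) (.e (nat_lit 164401) (nat_lit 256) (.e (nat_lit 57373) (nat_lit 2) (.e (nat_lit 90172) (nat_lit 14) (.e (nat_lit 180244) (nat_lit 5) (.e (nat_lit 532515) (nat_lit 3) (.e (nat_lit 114708) (nat_lit 20) .nil)))))))) (.g (nat_lit 5) .nil .nil)))) (.nd (nat_lit 5) 
(.lf (nat_lit 77661) (.g (nat_lit 2457) (.e (nat_lit 1800) (nat_lit 119) (.e (nat_lit 516117) (nat_lit 1) (.e (nat_lit 164400) (nat_lit 256) (.e (nat_lit 57375) (nat_lit 2) (.e (nat_lit 90172) (nat_lit 14) (.e (nat_lit 180244) (nat_lit 5) (.e (nat_lit 532515) (nat_lit 3) (.e (nat_lit 114707) (nat_lit 20) .nil)))))))) (.g (nat_lit 4) .nil .nil))) 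
(.lf (nat_lit 77693) (.g (nat_lit 2513) (.e (nat_lit 1800) (nat_lit 119) (.e (nat_lit 516117) (nat_lit 1) (.e (nat_lit 164403) (nat_lit 256) (.e (nat_lit 57371) (nat_lit 2) (.e (nat_lit 90172) (nat_lit 14) (.e (nat_lit 180244) (nat_lit 5) (.e (nat_lit 532515) (nat_lit 3) (.e (nat_lit 114708) (nat_lit 20) .nil)))))))) (.g (nat_lit 4) .nil .nil))))))) 
(.nd (nat_lit 2) (.nd (nat_lit 3) (.nd (nat_lit 4) (.nd (nat_lit 5) 
(.lf (nat_lit 77635) (.g (nat_lit 2864) (.e (nat_lit 1800) (nat_lit 119) (.e (nat_lit 516117) (nat_lit 1) (.e (nat_lit 164399) (nat_lit 256) (.e (nat_lit 57379) (nat_lit 3) (.e (nat_lit 98366) (nat_lit 27) (.e (nat_lit 434231) (nat_lit 23) (.e (nat_lit 532513) (nat_lit 3) (.e (nat_lit 114708) (nat_lit 20) .nil)))))))) (.g (nat_lit 5) .nil .nil))) 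
(.lf (nat_lit 77667) (.g (nat_lit 2102) (.e (nat_lit 1800) (nat_lit 119) (.e (nat_lit 516117) (nat_lit 1) (.e (nat_lit 164400) (nat_lit 256) (.e (nat_lit 57379) (nat_lit 3) (.e (nat_lit 98366) (nat_lit 27) (.e (nat_lit 434231) (nat_lit 23) (.e (nat_lit 532514) (nat_lit 3) (.e (nat_lit 114707) (nat_lit 20) .nil)))))))) (.g (nat_lit 4) .nil .nil)))) (.nd (nat_lit 5) 
(.lf (nat_lit 77651) (.g (nat_lit 3030) (.e (nat_lit 1800) (nat_lit 119) (.e (nat_lit 516117) (nat_lit 1) (.e (nat_lit 164400) (nat_lit 256) (.e (nat_lit 57372) (nat_lit 2) (.e (nat_lit 90174) (nat_lit 14) (.e (nat_lit 180243) (nat_lit 5) (.e (nat_lit 532513) (nat_lit 3) (.e (nat_lit 114707) (nat_lit 20) .nil)))))))) (.g (nat_lit 4) .nil .nil))) 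
(.lf (nat_lit 77683) (.g (nat_lit 2324) (.e (nat_lit 1800) (nat_lit 119) (.e (nat_lit 516117) (nat_lit 1) (.e (nat_lit 164401) (nat_lit 256) (.e (nat_lit 57378) (nat_lit 3) (.e (nat_lit 98355) (nat_lit 26) (.e (nat_lit 426131) (nat_lit 3) (.e (nat_lit 204837) (nat_lit 20) (.e (nat_lit 114708) (nat_lit 20) .nil)))))))) (.g (nat_lit 4) .nil .nil))))) (.nd (nat_lit 4) (.nd (nat_lit 5) 
(.lf (nat_lit 77643) (.g (nat_lit 3281) (.e (nat_lit 1800) (nat_lit 119) (.e (nat_lit 516117) (nat_lit 1) (.e (nat_lit 164400) (nat_lit 256) (.e (nat_lit 57372) (nat_lit 2) (.e (nat_lit 90167) (nat_lit 13) (.e (nat_lit 172067) (nat_lit 3) (.e (nat_lit 204837) (nat_lit 20) (.e (nat_lit 114708) (nat_lit 20) .nil)))))))) (.g (nat_lit 5) .nil .nil))) 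
(.lf (nat_lit 77675) (.g (nat_lit 2108) (.e (nat_lit 1800) (nat_lit 119) (.e (nat_lit 516117) (nat_lit 1) (.e (nat_lit 164401) (nat_lit 256) (.e (nat_lit 57373) (nat_lit 2) (.e (nat_lit 90172) (nat_lit 14) (.e (nat_lit 180244) (nat_lit 5) (.e (nat_lit 532514) (nat_lit 3) (.e (nat_lit 114708) (nat_lit 20) .nil)))))))) (.g (nat_lit 4) .nil .nil)))) (.nd (nat_lit 5) 
(.lf (nat_lit 77659) (.g (nat_lit 4066) (.e (nat_lit 1800) (nat_lit 119) (.e (nat_lit 516117) (nat_lit 1) (.e (nat_lit 164400) (nat_lit 256) (.e (nat_lit 57375) (nat_lit 2) (.e (nat_lit 90172) (nat_lit 14) (.e (nat_lit 180244) (nat_lit 5) (.e (nat_lit 532513) (nat_lit 3) (.e (nat_lit 114708) (nat_lit 20) .nil)))))))) (.g (nat_lit 7) .nil .nil))) 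
(.lf (nat_lit 77691) (.g (nat_lit 2555) (.e (nat_lit 1800) (nat_lit 119) (.e (nat_lit 516117) (nat_lit 1) (.e (nat_lit 164403) (nat_lit 256) (.e (nat_lit 57371) (nat_lit 2) (.e (nat_lit 90172) (nat_lit 14) (.e (nat_lit 180244) (nat_lit 5) (.e (nat_lit 532513) (nat_lit 3) (.e (nat_lit 114707) (nat_lit 20) .nil)))))))) (.g (nat_lit 4) .nil .nil)))))) 
(.nd (nat_lit 3) (.nd (nat_lit 4) (.nd (nat_lit 5) 
(.lf (nat_lit 77639) (.g (nat_lit 4343) (.e (nat_lit 1800) (nat_lit 119) (.e (nat_lit 516117) (nat_lit 1) (.e (nat_lit 164399) (nat_lit 256) (.e (nat_lit 57379) (nat_lit 3) (.e (nat_lit 98367) (nat_lit 27) (.e (nat_lit 434231) (nat_lit 23) (.e (nat_lit 532514) (nat_lit 3) (.e (nat_lit 114708) (nat_lit 20) .nil)))))))) (.g (nat_lit 7) .nil .nil))) 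
(.lf (nat_lit 77671) (.g (nat_lit 2958) (.e (nat_lit 1800) (nat_lit 119) (.e (nat_lit 516117) (nat_lit 1) (.e (nat_lit 164401) (nat_lit 256) (.e (nat_lit 57373) (nat_lit 2) (.e (nat_lit 90170) (nat_lit 13) (.e (nat_lit 172065) (nat_lit 3) (.e (nat_lit 204838) (nat_lit 20) (.e (nat_lit 114708) (nat_lit 20) .nil)))))))) (.g (nat_lit 5) .nil .nil)))) (.nd (nat_lit 5) 
(.lf (nat_lit 77655) (.g (nat_lit 4166) (.e (nat_lit 1800) (nat_lit 119) (.e (nat_lit 516117) (nat_lit 1) (.e (nat_lit 164400) (nat_lit 256) (.e (nat_lit 57374) (nat_lit 2) (.e (nat_lit 90170) (nat_lit 13) (.e (nat_lit 172067) (nat_lit 3) (.e (nat_lit 204838) (nat_lit 20) (.e (nat_lit 114708) (nat_lit 20) .nil)))))))) (.g (nat_lit 6) .nil .nil))) 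
(.lf (nat_lit 77687) (.g (nat_lit 2085) (.e (nat_lit 1800) (nat_lit 119) (.e (nat_lit 516117) (nat_lit 1) (.e (nat_lit 164403) (nat_lit 256) (.e (nat_lit 57370) (nat_lit 2) (.e (nat_lit 90172) (nat_lit 14) (.e (nat_lit 180244) (nat_lit 5) (.e (nat_lit 532513) (nat_lit 3) (.e (nat_lit 114708) (nat_lit 20) .nil)))))))) (.g (nat_lit 4) .nil .nil))))) (.nd (nat_lit 4) (.nd (nat_lit 5) 
(.lf (nat_lit 77647) (.g (nat_lit 4146) (.e (nat_lit 1800) (nat_lit 119) (.e (nat_lit 516117) (nat_lit 1) (.e (nat_lit 164400) (nat_lit 256) (.e (nat_lit 57372) (nat_lit 2) (.e (nat_lit 90172) (nat_lit 14) (.e (nat_lit 180244) (nat_lit 5) (.e (nat_lit 532513) (nat_lit 3) (.e (nat_lit 114708) (nat_lit 20) .nil)))))))) (.g (nat_lit 7) .nil .nil))) 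
(.lf (nat_lit 77679) (.g (nat_lit 4100) (.e (nat_lit 1800) (nat_lit 119) (.e (nat_lit 516117) (nat_lit 1) (.e (nat_lit 164401) (nat_lit 256) (.e (nat_lit 57373) (nat_lit 2) (.e (nat_lit 90174) (nat_lit 14) (.e (nat_lit 180243) (nat_lit 5) (.e (nat_lit 532513) (nat_lit 3) (.e (nat_lit 114708) (nat_lit 20) .nil)))))))) (.g (nat_lit 7) .nil .nil)))) (.nd (nat_lit 5) 
(.lf (nat_lit 77663) (.g (nat_lit 3487) (.e (nat_lit 1800) (nat_lit 119) (.e (nat_lit 516117) (nat_lit 1) (.e (nat_lit 164400) (nat_lit 256) (.e (nat_lit 57375) (nat_lit 2) (.e (nat_lit 90174) (nat_lit 14) (.e (nat_lit 180243) (nat_lit 5) (.e (nat_lit 532513) (nat_lit 3) (.e (nat_lit 114707) (nat_lit 20) .nil)))))))) (.g (nat_lit 6) .nil .nil))) 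
(.lf (nat_lit 77695) (.g (nat_lit 3802) (.e (nat_lit 1800) (nat_lit 119) (.e (nat_lit 516117) (nat_lit 1) (.e (nat_lit 164403) (nat_lit 256) (.e (nat_lit 57371) (nat_lit 2) (.e (nat_lit 90174) (nat_lit 14) (.e (nat_lit 180243) (nat_lit 5) (.e (nat_lit 532513) (nat_lit 3) (.e (nat_lit 114708) (nat_lit 20) .nil)))))))) (.g (nat_lit 6) .nil .nil)))))))))

noncomputable def tv1051 : DT := (.nd (nat_lit 0) (.nd (nat_lit 1) (.nd (nat_lit 2) (.nd (nat_lit 3) (.nd (nat_lit 4) (.nd (nat_lit 5) 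
(.lf (nat_lit 77696) (.g (nat_lit 2667) (.e (nat_lit 1800) (nat_lit 119) (.e (nat_lit 516117) (nat_lit 1) (.e (nat_lit 164403) (nat_lit 256) (.e (nat_lit 57371) (nat_lit 2) (.e (nat_lit 90174) (nat_lit 14) (.e (nat_lit 180243) (nat_lit 5) (.e (nat_lit 532515) (nat_lit 3) (.e (nat_lit 114708) (nat_lit 20) .nil)))))))) (.g (nat_lit 4) .nil .nil))) 
(.lf (nat_lit 77728) (.g (nat_lit 2768) (.e (nat_lit 1800) (nat_lit 119) (.e (nat_lit 516119) (nat_lit 1) (.e (nat_lit 164322) (nat_lit 230) (.e (nat_lit 163902) (nat_lit 12) (.e (nat_lit 426479) (nat_lit 27) (.e (nat_lit 336430) (nat_lit 29) (.e (nat_lit 442378) (nat_lit 0) .nil))))))) (.g (nat_lit 4) .nil .nil)))) (.nd (nat_lit 5) 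
(.lf (nat_lit 77712) (.g (nat_lit 3990) (.e (nat_lit 1800) (nat_lit 119) (.e (nat_lit 516117) (nat_lit 1) (.e (nat_lit 164403) (nat_lit 256) (.e (nat_lit 57373) (nat_lit 2) (.e (nat_lit 90172) (nat_lit 14) (.e (nat_lit 180244) (nat_lit 5) (.e (nat_lit 532515) (nat_lit 3) (.e (nat_lit 114708) (nat_lit 20) .nil)))))))) (.g (nat_lit 5) .nil .nil))) 
(.lf (nat_lit 77744) (.g (nat_lit 373) (.e (nat_lit 1800) (nat_lit 119) (.e (nat_lit 516119) (nat_lit 1) (.e (nat_lit 164325) (nat_lit 230) .nil))) .nil)))) (.nd (nat_lit 4) (.nd (nat_lit 5) 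
(.lf (nat_lit 77704) (.g (nat_lit 4759) (.e (nat_lit 1800) (nat_lit 119) (.e (nat_lit 516117) (nat_lit 1) (.e (nat_lit 164403) (nat_lit 256) (.e (nat_lit 57373) (nat_lit 2) (.e (nat_lit 90170) (nat_lit 13) (.e (nat_lit 172067) (nat_lit 3) (.e (nat_lit 204837) (nat_lit 20) (.e (nat_lit 114708) (nat_lit 20) .nil)))))))) (.g (nat_lit 6) .nil .nil))) 
(.lf (nat_lit 77736) (.g (nat_lit 2161) (.e (nat_lit 1800) (nat_lit 119) (.e (nat_lit 516119) (nat_lit 1) (.e (nat_lit 164322) (nat_lit 230) (.e (nat_lit 163942) (nat_lit 19) (.e (nat_lit 483339) (nat_lit 9) (.e (nat_lit 426259) (nat_lit 9) (.e (nat_lit 426419) (nat_lit 15) .nil))))))) (.g (nat_lit 4) .nil .nil)))) (.nd (nat_lit 5) 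
(.lf (nat_lit 77720) (.g (nat_lit 2678) (.e (nat_lit 1800) (nat_lit 119) (.e (nat_lit 516117) (nat_lit 1) (.e (nat_lit 164403) (nat_lit 256) (.e (nat_lit 57378) (nat_lit 3) (.e (nat_lit 98355) (nat_lit 26) .nil))))) .nil)) 
(.lf (nat_lit 77752) (.g (nat_lit 1914) (.e (nat_lit 1800) (nat_lit 119) (.e (nat_lit 516119) (nat_lit 1) (.e (nat_lit 164325) (nat_lit 230) (.e (nat_lit 163903) (nat_lit 12) (.e (nat_lit 426479) (nat_lit 27) (.e (nat_lit 336443) (nat_lit 32) (.e (nat_lit 474880) (nat_lit 0) .nil))))))) (.g (nat_lit 4) .nil .nil)))))) (.nd (nat_lit 3) (.nd (nat_lit 4) (.nd (nat_lit 5) 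
(.lf (nat_lit 77700) (.g (nat_lit 2799) (.e (nat_lit 1800) (nat_lit 119) (.e (nat_lit 516117) (nat_lit 1) (.e (nat_lit 164403) (nat_lit 256) (.e (nat_lit 57373) (nat_lit 2) (.e (nat_lit 90168) (nat_lit 13) (.e (nat_lit 172067) (nat_lit 3) (.e (nat_lit 204838) (nat_lit 20) (.e (nat_lit 114708) (nat_lit 20) .nil)))))))) (.g (nat_lit 4) .nil .nil))) 
(.lf (nat_lit 77732) (.g (nat_lit 2260) (.e (nat_lit 1800) (nat_lit 119) (.e (nat_lit 516119) (nat_lit 1) (.e (nat_lit 164322) (nat_lit 230) (.e (nat_lit 163902) (nat_lit 12) (.e (nat_lit 426568) (nat_lit 34) (.e (nat_lit 393267) (nat_lit 23) (.e (nat_lit 426382) (nat_lit 15) .nil))))))) (.g (nat_lit 4) .nil .nil)))) (.nd (nat_lit 5) 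
(.lf (nat_lit 77716) (.g (nat_lit 4002) (.e (nat_lit 1800) (nat_lit 119) (.e (nat_lit 516117) (nat_lit 1) (.e (nat_lit 164403) (nat_lit 256) (.e (nat_lit 57373) (nat_lit 2) (.e (nat_lit 90174) (nat_lit 14) (.e (nat_lit 180243) (nat_lit 5) (.e (nat_lit 532515) (nat_lit 3) (.e (nat_lit 114708) (nat_lit 20) .nil)))))))) (.g (nat_lit 5) .nil .nil))) 
(.lf (nat_lit 77748) (.g (nat_lit 2468) (.e (nat_lit 1800) (nat_lit 119) (.e (nat_lit 516119) (nat_lit 1) (.e (nat_lit 164325) (nat_lit 230) (.e (nat_lit 163875) (nat_lit 3) (.e (nat_lit 204838) (nat_lit 20) (.e (nat_lit 114716) (nat_lit 22) (.e (nat_lit 90169) (nat_lit 13) (.e (nat_lit 172133) (nat_lit 15) .nil)))))))) (.g (nat_lit 5) .nil .nil))))) (.nd (nat_lit 4) (.nd (nat_lit 5) 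
(.lf (nat_lit 77708) (.g (nat_lit 3994) (.e (nat_lit 1800) (nat_lit 119) (.e (nat_lit 516117) (nat_lit 1) (.e (nat_lit 164403) (nat_lit 256) (.e (nat_lit 57373) (nat_lit 2) (.e (nat_lit 90172) (nat_lit 14) (.e (nat_lit 180244) (nat_lit 5) (.e (nat_lit 532513) (nat_lit 3) (.e (nat_lit 114707) (nat_lit 20) .nil)))))))) (.g (nat_lit 5) .nil .nil))) 
(.lf (nat_lit 77740) (.g (nat_lit 1397) (.e (nat_lit 1800) (nat_lit 119) (.e (nat_lit 516119) (nat_lit 1) (.e (nat_lit 164324) (nat_lit 230) (.e (nat_lit 163903) (nat_lit 12) .nil)))) .nil))) (.nd (nat_lit 5) 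
(.lf (nat_lit 77724) (.g (nat_lit 2118) (.e (nat_lit 1800) (nat_lit 119) (.e (nat_lit 516117) (nat_lit 1) (.e (nat_lit 164403) (nat_lit 256) (.e (nat_lit 57378) (nat_lit 3) (.e (nat_lit 98377) (nat_lit 30) .nil))))) .nil)) 
(.lf (nat_lit 77756) (.g (nat_lit 2403) (.e (nat_lit 1800) (nat_lit 119) (.e (nat_lit 516119) (nat_lit 1) (.e (nat_lit 164325) (nat_lit 230) (.e (nat_lit 163903) (nat_lit 12) (.e (nat_lit 426568) (nat_lit 34) (.e (nat_lit 393281) (nat_lit 23) (.e (nat_lit 426410) (nat_lit 15) .nil))))))) (.g (nat_lit 4) .nil .nil))))))) (.nd (nat_lit 2) (.nd (nat_lit 3) (.nd (nat_lit 4) (.nd (nat_lit 5) 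
(.lf (nat_lit 77698) (.g (nat_lit 3195) (.e (nat_lit 1800) (nat_lit 119) (.e (nat_lit 516117) (nat_lit 1) (.e (nat_lit 164403) (nat_lit 256) (.e (nat_lit 57373) (nat_lit 2) (.e (nat_lit 90167) (nat_lit 13) (.e (nat_lit 172067) (nat_lit 3) (.e (nat_lit 204838) (nat_lit 20) (.e (nat_lit 114708) (nat_lit 20) .nil)))))))) (.g (nat_lit 4) .nil .nil))) 
(.lf (nat_lit 77730) (.g (nat_lit 2861) (.e (nat_lit 1800) (nat_lit 119) (.e (nat_lit 516119) (nat_lit 1) (.e (nat_lit 164322) (nat_lit 230) (.e (nat_lit 163902) (nat_lit 12) (.e (nat_lit 426479) (nat_lit 27) (.e (nat_lit 336430) (nat_lit 29) (.e (nat_lit 450304) (nat_lit 0) .nil))))))) (.g (nat_lit 5) .nil .nil)))) (.nd (nat_lit 5) 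
(.lf (nat_lit 77714) (.g (nat_lit 5155) (.e (nat_lit 1800) (nat_lit 119) (.e (nat_lit 516117) (nat_lit 1) (.e (nat_lit 164403) (nat_lit 256) (.e (nat_lit 57373) (nat_lit 2) (.e (nat_lit 90174) (nat_lit 14) (.e (nat_lit 180243) (nat_lit 5) (.e (nat_lit 532513) (nat_lit 3) (.e (nat_lit 114708) (nat_lit 20) .nil)))))))) (.g (nat_lit 7) .nil .nil))) 
(.lf (nat_lit 77746) (.g (nat_lit 2014) (.e (nat_lit 1800) (nat_lit 119) (.e (nat_lit 516119) (nat_lit 1) (.e (nat_lit 164325) (nat_lit 230) (.e (nat_lit 163873) (nat_lit 3) .nil)))) .nil)))) (.nd (nat_lit 4) (.nd (nat_lit 5) 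
(.lf (nat_lit 77706) (.g (nat_lit 3343) (.e (nat_lit 1800) (nat_lit 119) (.e (nat_lit 516117) (nat_lit 1) (.e (nat_lit 164403) (nat_lit 256) (.e (nat_lit 57373) (nat_lit 2) (.e (nat_lit 90172) (nat_lit 14) (.e (nat_lit 180243) (nat_lit 5) (.e (nat_lit 532513) (nat_lit 3) (.e (nat_lit 114707) (nat_lit 20) .nil)))))))) (.g (nat_lit 4) .nil .nil))) 
(.lf (nat_lit 77738) (.g (nat_lit 1842) (.e (nat_lit 1800) (nat_lit 119) (.e (nat_lit 516119) (nat_lit 1) (.e (nat_lit 164322) (nat_lit 230) (.e (nat_lit 163942) (nat_lit 19) (.e (nat_lit 491264) (nat_lit 11) (.e (nat_lit 450304) (nat_lit 0) .nil)))))) (.g (nat_lit 4) .nil .nil)))) (.nd (nat_lit 5) 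
(.lf (nat_lit 77722) (.g (nat_lit 3261) (.e (nat_lit 1800) (nat_lit 119) (.e (nat_lit 516117) (nat_lit 1) (.e (nat_lit 164403) (nat_lit 256) (.e (nat_lit 57378) (nat_lit 3) (.e (nat_lit 98358) (nat_lit 26) (.e (nat_lit 426131) (nat_lit 3) (.e (nat_lit 204837) (nat_lit 20) (.e (nat_lit 114708) (nat_lit 20) .nil)))))))) (.g (nat_lit 6) .nil .nil))) 
(.lf (nat_lit 77754) (.g (nat_lit 2623) (.e (nat_lit 1800) (nat_lit 119) (.e (nat_lit 516119) (nat_lit 1) (.e (nat_lit 164325) (nat_lit 230) (.e (nat_lit 163903) (nat_lit 12) (.e (nat_lit 426568) (nat_lit 34) (.e (nat_lit 393275) (nat_lit 23) (.e (nat_lit 426396) (nat_lit 15) .nil))))))) (.g (nat_lit 5) .nil .nil)))))) (.nd (nat_lit 3) (.nd (nat_lit 4) (.nd (nat_lit 5) 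
(.lf (nat_lit 77702) (.g (nat_lit 4160) (.e (nat_lit 1800) (nat_lit 119) (.e (nat_lit 516117) (nat_lit 1) (.e (nat_lit 164403) (nat_lit 256) (.e (nat_lit 57373) (nat_lit 2) (.e (nat_lit 90170) (nat_lit 13) (.e (nat_lit 172065) (nat_lit 3) (.e (nat_lit 204838) (nat_lit 20) (.e (nat_lit 114708) (nat_lit 20) .nil)))))))) (.g (nat_lit 6) .nil .nil))) 
(.lf (nat_lit 77734) (.g (nat_lit 2343) (.e (nat_lit 1800) (nat_lit 119) (.e (nat_lit 516119) (nat_lit 1) (.e (nat_lit 164322) (nat_lit 230) (.e (nat_lit 163902) (nat_lit 12) (.e (nat_lit 426568) (nat_lit 34) (.e (nat_lit 393281) (nat_lit 23) (.e (nat_lit 426387) (nat_lit 15) .nil))))))) (.g (nat_lit 4) .nil .nil)))) (.nd (nat_lit 5) 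
(.lf (nat_lit 77718) (.g (nat_lit 2396) (.e (nat_lit 1800) (nat_lit 119) (.e (nat_lit 516117) (nat_lit 1) (.e (nat_lit 164403) (nat_lit 256) (.e (nat_lit 57377) (nat_lit 3) (.e (nat_lit 98357) (nat_lit 26) .nil))))) .nil)) 
(.lf (nat_lit 77750) (.g (nat_lit 2872) (.e (nat_lit 1800) (nat_lit 119) (.e (nat_lit 516119) (nat_lit 1) (.e (nat_lit 164325) (nat_lit 230) (.e (nat_lit 163903) (nat_lit 12) (.e (nat_lit 426479) (nat_lit 27) (.e (nat_lit 336430) (nat_lit 29) (.e (nat_lit 450304) (nat_lit 0) .nil))))))) (.g (nat_lit 6) .nil .nil))))) (.nd (nat_lit 4) (.nd (nat_lit 5) 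
(.lf (nat_lit 77710) (.g (nat_lit 3372) (.e (nat_lit 1800) (nat_lit 119) (.e (nat_lit 516117) (nat_lit 1) (.e (nat_lit 164403) (nat_lit 256) (.e (nat_lit 57373) (nat_lit 2) (.e (nat_lit 90172) (nat_lit 14) (.e (nat_lit 180244) (nat_lit 5) (.e (nat_lit 532514) (nat_lit 3) (.e (nat_lit 114708) (nat_lit 20) .nil)))))))) (.g (nat_lit 4) .nil .nil))) 
(.lf (nat_lit 77742) (.g (nat_lit 2336) (.e (nat_lit 1800) (nat_lit 119) (.e (nat_lit 516119) (nat_lit 1) (.e (nat_lit 164324) (nat_lit 230) (.e (nat_lit 163903) (nat_lit 12) (.e (nat_lit 426479) (nat_lit 27) (.e (nat_lit 336428) (nat_lit 29) (.e (nat_lit 442374) (nat_lit 0) .nil))))))) (.g (nat_lit 4) .nil .nil)))) (.nd (nat_lit 5) 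
(.lf (nat_lit 77726) (.g (nat_lit 1911) (.e (nat_lit 1800) (nat_lit 119) (.e (nat_lit 516119) (nat_lit 1) (.e (nat_lit 164179) (nat_lit 154) (.e (nat_lit 57447) (nat_lit 19) (.e (nat_lit 401152) (nat_lit 14) (.e (nat_lit 376855) (nat_lit 20) .nil)))))) (.g (nat_lit 4) .nil .nil))) 
(.lf (nat_lit 77758) (.g (nat_lit 760) (.e (nat_lit 1800) (nat_lit 119) (.e (nat_lit 516119) (nat_lit 1) (.e (nat_lit 164325) (nat_lit 230) (.e (nat_lit 163907) (nat_lit 12) .nil)))) .nil))))))) (.nd (nat_lit 1) (.nd (nat_lit 2) (.nd (nat_lit 3) (.nd (nat_lit 4) (.nd (nat_lit 5) 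
(.lf (nat_lit 77697) (.g (nat_lit 3443) (.e (nat_lit 1800) (nat_lit 119) (.e (nat_lit 516117) (nat_lit 1) (.e (nat_lit 164403) (nat_lit 256) (.e (nat_lit 57373) (nat_lit 2) (.e (nat_lit 90167) (nat_lit 13) (.e (nat_lit 172067) (nat_lit 3) (.e (nat_lit 204837) (nat_lit 20) (.e (nat_lit 114708) (nat_lit 20) .nil)))))))) (.g (nat_lit 4) .nil .nil))) 
(.lf (nat_lit 77729) (.g (nat_lit 3102) (.e (nat_lit 1800) (nat_lit 119) (.e (nat_lit 516119) (nat_lit 1) (.e (nat_lit 164322) (nat_lit 230) (.e (nat_lit 163902) (nat_lit 12) (.e (nat_lit 426479) (nat_lit 27) (.e (nat_lit 336430) (nat_lit 29) (.e (nat_lit 442379) (nat_lit 0) .nil))))))) (.g (nat_lit 6) .nil .nil)))) (.nd (nat_lit 5) 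
(.lf (nat_lit 77713) (.g (nat_lit 4582) (.e (nat_lit 1800) (nat_lit 119) (.e (nat_lit 516117) (nat_lit 1) (.e (nat_lit 164403) (nat_lit 256) (.e (nat_lit 57373) (nat_lit 2) (.e (nat_lit 90174) (nat_lit 14) (.e (nat_lit 180243) (nat_lit 5) (.e (nat_lit 532513) (nat_lit 3) (.e (nat_lit 114707) (nat_lit 20) .nil)))))))) (.g (nat_lit 6) .nil .nil))) 
(.lf (nat_lit 77745) (.g (nat_lit 1667) (.e (nat_lit 1800) (nat_lit 119) (.e (nat_lit 516119) (nat_lit 1) (.e (nat_lit 164325) (nat_lit 230) (.e (nat_lit 163844) (nat_lit 0) (.e (nat_lit 3248) (nat_lit 197) .nil))))) .nil)))) (.nd (nat_lit 4) (.nd (nat_lit 5) 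
(.lf (nat_lit 77705) (.g (nat_lit 4504) (.e (nat_lit 1800) (nat_lit 119) (.e (nat_lit 516117) (nat_lit 1) (.e (nat_lit 164403) (nat_lit 256) (.e (nat_lit 57373) (nat_lit 2) (.e (nat_lit 90170) (nat_lit 13) (.e (nat_lit 172067) (nat_lit 3) (.e (nat_lit 204838) (nat_lit 20) (.e (nat_lit 114708) (nat_lit 20) .nil)))))))) (.g (nat_lit 6) .nil .nil))) 
(.lf (nat_lit 77737) (.g (nat_lit 2186) (.e (nat_lit 1800) (nat_lit 119) (.e (nat_lit 516119) (nat_lit 1) (.e (nat_lit 164322) (nat_lit 230) (.e (nat_lit 163942) (nat_lit 19) (.e (nat_lit 491264) (nat_lit 11) (.e (nat_lit 442378) (nat_lit 0) .nil)))))) (.g (nat_lit 4) .nil .nil)))) (.nd (nat_lit 5) 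
(.lf (nat_lit 77721) (.g (nat_lit 2854) (.e (nat_lit 1800) (nat_lit 119) (.e (nat_lit 516117) (nat_lit 1) (.e (nat_lit 164403) (nat_lit 256) (.e (nat_lit 57378) (nat_lit 3) (.e (nat_lit 98356) (nat_lit 26) (.e (nat_lit 426131) (nat_lit 3) (.e (nat_lit 204837) (nat_lit 20) (.e (nat_lit 114708) (nat_lit 20) .nil)))))))) (.g (nat_lit 4) .nil .nil))) 
(.lf (nat_lit 77753) (.g (nat_lit 2284) (.e (nat_lit 1800) (nat_lit 119) (.e (nat_lit 516119) (nat_lit 1) (.e (nat_lit 164325) (nat_lit 230) (.e (nat_lit 163903) (nat_lit 12) (.e (nat_lit 426566) (nat_lit 34) (.e (nat_lit 393273) (nat_lit 23) (.e (nat_lit 426382) (nat_lit 15) .nil))))))) (.g (nat_lit 4) .nil .nil)))))) (.nd (nat_lit 3) (.nd (nat_lit 4) (.nd (nat_lit 5) 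
(.lf (nat_lit 77701) (.g (nat_lit 4039) (.e (nat_lit 1800) (nat_lit 119) (.e (nat_lit 516117) (nat_lit 1) (.e (nat_lit 164403) (nat_lit 256) (.e (nat_lit 57373) (nat_lit 2) (.e (nat_lit 90170) (nat_lit 13) (.e (nat_lit 172065) (nat_lit 3) (.e (nat_lit 204837) (nat_lit 20) (.e (nat_lit 114708) (nat_lit 20) .nil)))))))) (.g (nat_lit 6) .nil .nil))) 
(.lf (nat_lit 77733) (.g (nat_lit 3027) (.e (nat_lit 1800) (nat_lit 119) (.e (nat_lit 516119) (nat_lit 1) (.e (nat_lit 164322) (nat_lit 230) (.e (nat_lit 163902) (nat_lit 12) (.e (nat_lit 426568) (nat_lit 34) (.e (nat_lit 393279) (nat_lit 23) (.e (nat_lit 426419) (nat_lit 15) .nil))))))) (.g (nat_lit 4) .nil .nil)))) (.nd (nat_lit 5) 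
(.lf (nat_lit 77717) (.g (nat_lit 2229) (.e (nat_lit 1800) (nat_lit 119) (.e (nat_lit 516117) (nat_lit 1) (.e (nat_lit 164403) (nat_lit 256) (.e (nat_lit 57373) (nat_lit 2) (.e (nat_lit 90185) (nat_lit 17) .nil))))) .nil)) 
(.lf (nat_lit 77749) (.g (nat_lit 2789) (.e (nat_lit 1800) (nat_lit 119) (.e (nat_lit 516119) (nat_lit 1) (.e (nat_lit 164325) (nat_lit 230) (.e (nat_lit 163903) (nat_lit 12) (.e (nat_lit 426479) (nat_lit 27) (.e (nat_lit 336430) (nat_lit 29) (.e (nat_lit 442378) (nat_lit 0) .nil))))))) (.g (nat_lit 6) .nil .nil))))) (.nd (nat_lit 4) (.nd (nat_lit 5) 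
(.lf (nat_lit 77709) (.g (nat_lit 4868) (.e (nat_lit 1800) (nat_lit 119) (.e (nat_lit 516117) (nat_lit 1) (.e (nat_lit 164403) (nat_lit 256) (.e (nat_lit 57373) (nat_lit 2) (.e (nat_lit 90172) (nat_lit 14) (.e (nat_lit 180244) (nat_lit 5) (.e (nat_lit 532513) (nat_lit 3) (.e (nat_lit 114708) (nat_lit 20) .nil)))))))) (.g (nat_lit 6) .nil .nil))) 
(.lf (nat_lit 77741) (.g (nat_lit 1868) (.e (nat_lit 1800) (nat_lit 119) (.e (nat_lit 516119) (nat_lit 1) (.e (nat_lit 164324) (nat_lit 230) (.e (nat_lit 163903) (nat_lit 12) (.e (nat_lit 426479) (nat_lit 27) .nil))))) .nil))) (.nd (nat_lit 5) 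
(.lf (nat_lit 77725) (.g (nat_lit 2175) (.e (nat_lit 1800) (nat_lit 119) (.e (nat_lit 516119) (nat_lit 1) (.e (nat_lit 164179) (nat_lit 154) (.e (nat_lit 57377) (nat_lit 3) (.e (nat_lit 98342) (nat_lit 20) (.e (nat_lit 221212) (nat_lit 22) (.e (nat_lit 196665) (nat_lit 13) (.e (nat_lit 65561) (nat_lit 0) .nil)))))))) (.g (nat_lit 4) .nil .nil))) 
(.lf (nat_lit 77757) (.g (nat_lit 1974) (.e (nat_lit 1800) (nat_lit 119) (.e (nat_lit 516119) (nat_lit 1) (.e (nat_lit 164325) (nat_lit 230) (.e (nat_lit 163903) (nat_lit 12) (.e (nat_lit 426568) (nat_lit 34) (.e (nat_lit 393281) (nat_lit 23) (.e (nat_lit 426413) (nat_lit 15) .nil))))))) (.g (nat_lit 4) .nil .nil))))))) (.nd (nat_lit 2) (.nd (nat_lit 3) (.nd (nat_lit 4) (.nd (nat_lit 5) 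
(.lf (nat_lit 77699) (.g (nat_lit 3193) (.e (nat_lit 1800) (nat_lit 119) (.e (nat_lit 516117) (nat_lit 1) (.e (nat_lit 164403) (nat_lit 256) (.e (nat_lit 57373) (nat_lit 2) (.e (nat_lit 90168) (nat_lit 13) (.e (nat_lit 172067) (nat_lit 3) (.e (nat_lit 204837) (nat_lit 20) (.e (nat_lit 114708) (nat_lit 20) .nil)))))))) (.g (nat_lit 4) .nil .nil))) 
(.lf (nat_lit 77731) (.g (nat_lit 2051) (.e (nat_lit 1800) (nat_lit 119) (.e (nat_lit 516119) (nat_lit 1) (.e (nat_lit 164322) (nat_lit 230) (.e (nat_lit 163902) (nat_lit 12) (.e (nat_lit 426568) (nat_lit 34) .nil))))) .nil))) (.nd (nat_lit 5) 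
(.lf (nat_lit 77715) (.g (nat_lit 3171) (.e (nat_lit 1800) (nat_lit 119) (.e (nat_lit 516117) (nat_lit 1) (.e (nat_lit 164403) (nat_lit 256) (.e (nat_lit 57373) (nat_lit 2) (.e (nat_lit 90174) (nat_lit 14) (.e (nat_lit 180243) (nat_lit 5) (.e (nat_lit 532515) (nat_lit 3) (.e (nat_lit 114707) (nat_lit 20) .nil)))))))) (.g (nat_lit 4) .nil .nil))) 
(.lf (nat_lit 77747) (.g (nat_lit 3051) (.e (nat_lit 1800) (nat_lit 119) (.e (nat_lit 516119) (nat_lit 1) (.e (nat_lit 164325) (nat_lit 230) (.e (nat_lit 163873) (nat_lit 3) (.e (nat_lit 204809) (nat_lit 9) (.e (nat_lit 426139) (nat_lit 3) (.e (nat_lit 204837) (nat_lit 20) (.e (nat_lit 114708) (nat_lit 20) .nil)))))))) (.g (nat_lit 4) .nil .nil))))) (.nd (nat_lit 4) (.nd (nat_lit 5) 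
(.lf (nat_lit 77707) (.g (nat_lit 4082) (.e (nat_lit 1800) (nat_lit 119) (.e (nat_lit 516117) (nat_lit 1) (.e (nat_lit 164403) (nat_lit 256) (.e (nat_lit 57373) (nat_lit 2) (.e (nat_lit 90172) (nat_lit 14) (.e (nat_lit 180243) (nat_lit 5) (.e (nat_lit 532513) (nat_lit 3) (.e (nat_lit 114708) (nat_lit 20) .nil)))))))) (.g (nat_lit 5) .nil .nil))) 
(.lf (nat_lit 77739) (.g (nat_lit 563) (.e (nat_lit 1800) (nat_lit 119) (.e (nat_lit 516119) (nat_lit 1) (.e (nat_lit 164324) (nat_lit 230) .nil))) .nil))) (.nd (nat_lit 5) 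
(.lf (nat_lit 77723) (.g (nat_lit 3528) (.e (nat_lit 1800) (nat_lit 119) (.e (nat_lit 516117) (nat_lit 1) (.e (nat_lit 164403) (nat_lit 256) (.e (nat_lit 57378) (nat_lit 3) (.e (nat_lit 98358) (nat_lit 26) (.e (nat_lit 426131) (nat_lit 3) (.e (nat_lit 204838) (nat_lit 20) (.e (nat_lit 114708) (nat_lit 20) .nil)))))))) (.g (nat_lit 6) .nil .nil))) 
(.lf (nat_lit 77755) (.g (nat_lit 2196) (.e (nat_lit 1800) (nat_lit 119) (.e (nat_lit 516119) (nat_lit 1) (.e (nat_lit 164325) (nat_lit 230) (.e (nat_lit 163903) (nat_lit 12) (.e (nat_lit 426568) (nat_lit 34) (.e (nat_lit 393279) (nat_lit 23) (.e (nat_lit 426419) (nat_lit 15) .nil))))))) (.g (nat_lit 4) .nil .nil)))))) (.nd (nat_lit 3) (.nd (nat_lit 4) (.nd (nat_lit 5) 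
(.lf (nat_lit 77703) (.g (nat_lit 3147) (.e (nat_lit 1800) (nat_lit 119) (.e (nat_lit 516117) (nat_lit 1) (.e (nat_lit 164403) (nat_lit 256) (.e (nat_lit 57373) (nat_lit 2) (.e (nat_lit 90170) (nat_lit 13) (.e (nat_lit 172067) (nat_lit 3) (.e (nat_lit 204837) (nat_lit 20) (.e (nat_lit 114707) (nat_lit 20) .nil)))))))) (.g (nat_lit 4) .nil .nil))) 
(.lf (nat_lit 77735) (.g (nat_lit 2670) (.e (nat_lit 1800) (nat_lit 119) (.e (nat_lit 516119) (nat_lit 1) (.e (nat_lit 164322) (nat_lit 230) (.e (nat_lit 163902) (nat_lit 12) (.e (nat_lit 426568) (nat_lit 34) (.e (nat_lit 393281) (nat_lit 23) (.e (nat_lit 426413) (nat_lit 15) .nil))))))) (.g (nat_lit 4) .nil .nil)))) (.nd (nat_lit 5) 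
(.lf (nat_lit 77719) (.g (nat_lit 2400) (.e (nat_lit 1800) (nat_lit 119) (.e (nat_lit 516117) (nat_lit 1) (.e (nat_lit 164403) (nat_lit 256) (.e (nat_lit 57377) (nat_lit 3) (.e (nat_lit 98357) (nat_lit 26) (.e (nat_lit 426131) (nat_lit 3) (.e (nat_lit 204838) (nat_lit 20) (.e (nat_lit 114708) (nat_lit 20) .nil)))))))) (.g (nat_lit 4) .nil .nil))) 
(.lf (nat_lit 77751) (.g (nat_lit 1778) (.e (nat_lit 1800) (nat_lit 119) (.e (nat_lit 516119) (nat_lit 1) (.e (nat_lit 164325) (nat_lit 230) (.e (nat_lit 163903) (nat_lit 12) (.e (nat_lit 426479) (nat_lit 27) (.e (nat_lit 336443) (nat_lit 32) (.e (nat_lit 466949) (nat_lit 0) .nil))))))) (.g (nat_lit 4) .nil .nil))))) (.nd (nat_lit 4) (.nd (nat_lit 5) 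
(.lf (nat_lit 77711) (.g (nat_lit 3095) (.e (nat_lit 1800) (nat_lit 119) (.e (nat_lit 516117) (nat_lit 1) (.e (nat_lit 164403) (nat_lit 256) (.e (nat_lit 57373) (nat_lit 2) (.e (nat_lit 90172) (nat_lit 14) (.e (nat_lit 180244) (nat_lit 5) (.e (nat_lit 532515) (nat_lit 3) (.e (nat_lit 114707) (nat_lit 20) .nil)))))))) (.g (nat_lit 4) .nil .nil))) 
(.lf (nat_lit 77743) (.g (nat_lit 2298) (.e (nat_lit 1800) (nat_lit 119) (.e (nat_lit 516119) (nat_lit 1) (.e (nat_lit 164324) (nat_lit 230) (.e (nat_lit 163941) (nat_lit 19) (.e (nat_lit 491264) (nat_lit 11) .nil))))) .nil))) (.nd (nat_lit 5) 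
(.lf (nat_lit 77727) (.g (nat_lit 450) (.e (nat_lit 1800) (nat_lit 119) (.e (nat_lit 516119) (nat_lit 1) (.e (nat_lit 164322) (nat_lit 230) .nil))) .nil)) 
(.lf (nat_lit 77759) (.g (nat_lit 2477) (.e (nat_lit 1800) (nat_lit 119) (.e (nat_lit 516119) (nat_lit 1) (.e (nat_lit 164325) (nat_lit 230) (.e (nat_lit 163907) (nat_lit 12) (.e (nat_lit 426479) (nat_lit 27) (.e (nat_lit 336430) (nat_lit 29) (.e (nat_lit 442379) (nat_lit 0) .nil))))))) (.g (nat_lit 0) .nil .nil)))))))))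

noncomputable def tv1052 : DT := (.nd (nat_lit 0) (.nd (nat_lit 1) (.nd (nat_lit 2) (.nd (nat_lit 3) (.nd (nat_lit 4) (.nd (nat_lit 5) 
(.lf (nat_lit 77760) (.g (nat_lit 2280) (.e (nat_lit 1800) (nat_lit 119) (.e (nat_lit 516119) (nat_lit 1) (.e (nat_lit 164325) (nat_lit 230) (.e (nat_lit 163907) (nat_lit 12) (.e (nat_lit 426479) (nat_lit 27) (.e (nat_lit 336430) (nat_lit 29) (.e (nat_lit 450304) (nat_lit 0) .nil))))))) (.g (nat_lit 6) .nil .nil))) 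
(.lf (nat_lit 77792) (.g (nat_lit 2479) (.e (nat_lit 1800) (nat_lit 119) (.e (nat_lit 516119) (nat_lit 1) (.e (nat_lit 164326) (nat_lit 230) (.e (nat_lit 163903) (nat_lit 12) (.e (nat_lit 426568) (nat_lit 34) (.e (nat_lit 393275) (nat_lit 23) (.e (nat_lit 426410) (nat_lit 15) .nil))))))) (.g (nat_lit 5) .nil .nil)))) (.nd (nat_lit 5) 
(.lf (nat_lit 77776) (.g (nat_lit 1497) (.e (nat_lit 1800) (nat_lit 119) (.e (nat_lit 516119) (nat_lit 1) (.e (nat_lit 164325) (nat_lit 230) (.e (nat_lit 163943) (nat_lit 19) (.e (nat_lit 491264) (nat_lit 11) (.e (nat_lit 450304) (nat_lit 0) .nil)))))) (.g (nat_lit 4) .nil .nil))) 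
(.lf (nat_lit 77808) (.g (nat_lit 2549) (.e (nat_lit 1800) (nat_lit 119) (.e (nat_lit 516119) (nat_lit 1) (.e (nat_lit 164327) (nat_lit 230) (.e (nat_lit 163875) (nat_lit 3) (.e (nat_lit 204837) (nat_lit 20) (.e (nat_lit 114716) (nat_lit 22) (.e (nat_lit 90169) (nat_lit 13) (.e (nat_lit 172133) (nat_lit 15) .nil)))))))) (.g (nat_lit 4) .nil .nil))))) (.nd (nat_lit 4) (.nd (nat_lit 5) 
(.lf (nat_lit 77768) (.g (nat_lit 2138) (.e (nat_lit 1800) (nat_lit 119) (.e (nat_lit 516119) (nat_lit 1) (.e (nat_lit 164325) (nat_lit 230) (.e (nat_lit 163941) (nat_lit 19) (.e (nat_lit 491264) (nat_lit 11) (.e (nat_lit 442377) (nat_lit 0) .nil)))))) (.g (nat_lit 4) .nil .nil))) 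
(.lf (nat_lit 77800) (.g (nat_lit 2532) (.e (nat_lit 1800) (nat_lit 119) (.e (nat_lit 516119) (nat_lit 1) (.e (nat_lit 164326) (nat_lit 230) (.e (nat_lit 163942) (nat_lit 19) (.e (nat_lit 483339) (nat_lit 9) (.e (nat_lit 426259) (nat_lit 9) (.e (nat_lit 426419) (nat_lit 15) .nil))))))) (.g (nat_lit 6) .nil .nil)))) (.nd (nat_lit 5) 
(.lf (nat_lit 77784) (.g (nat_lit 3152) (.e (nat_lit 1800) (nat_lit 119) (.e (nat_lit 516119) (nat_lit 1) (.e (nat_lit 164326) (nat_lit 230) (.e (nat_lit 163903) (nat_lit 12) (.e (nat_lit 426479) (nat_lit 27) (.e (nat_lit 336430) (nat_lit 29) (.e (nat_lit 450304) (nat_lit 0) .nil))))))) (.g (nat_lit 6) .nil .nil))) 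
(.lf (nat_lit 77816) (.g (nat_lit 565) (.e (nat_lit 1800) (nat_lit 119) (.e (nat_lit 516119) (nat_lit 1) (.e (nat_lit 164345) (nat_lit 240) .nil))) .nil))))) (.nd (nat_lit 3) (.nd (nat_lit 4) (.nd (nat_lit 5) 
(.lf (nat_lit 77764) (.g (nat_lit 2029) (.e (nat_lit 1800) (nat_lit 119) (.e (nat_lit 516119) (nat_lit 1) (.e (nat_lit 164325) (nat_lit 230) (.e (nat_lit 163941) (nat_lit 19) (.e (nat_lit 483339) (nat_lit 9) (.e (nat_lit 426259) (nat_lit 9) (.e (nat_lit 426419) (nat_lit 15) .nil))))))) (.g (nat_lit 4) .nil .nil))) 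
(.lf (nat_lit 77796) (.g (nat_lit 3361) (.e (nat_lit 1800) (nat_lit 119) (.e (nat_lit 516119) (nat_lit 1) (.e (nat_lit 164326) (nat_lit 230) (.e (nat_lit 163903) (nat_lit 12) (.e (nat_lit 426568) (nat_lit 34) (.e (nat_lit 393281) (nat_lit 23) (.e (nat_lit 426410) (nat_lit 15) .nil))))))) (.g (nat_lit 6) .nil .nil)))) (.nd (nat_lit 5) 
(.lf (nat_lit 77780) (.g (nat_lit 344) (.e (nat_lit 1800) (nat_lit 119) (.e (nat_lit 516119) (nat_lit 1) (.e (nat_lit 164326) (nat_lit 230) .nil))) .nil)) 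
(.lf (nat_lit 77812) (.g (nat_lit 2204) (.e (nat_lit 1800) (nat_lit 119) (.e (nat_lit 516119) (nat_lit 1) (.e (nat_lit 164327) (nat_lit 230) (.e (nat_lit 163903) (nat_lit 12) (.e (nat_lit 426479) (nat_lit 27) .nil))))) .nil)))) (.nd (nat_lit 4) (.nd (nat_lit 5) 
(.lf (nat_lit 77772) (.g (nat_lit 1997) (.e (nat_lit 1800) (nat_lit 119) (.e (nat_lit 516119) (nat_lit 1) (.e (nat_lit 164325) (nat_lit 230) (.e (nat_lit 163942) (nat_lit 19) (.e (nat_lit 491264) (nat_lit 11) (.e (nat_lit 442378) (nat_lit 0) .nil)))))) (.g (nat_lit 4) .nil .nil))) 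
(.lf (nat_lit 77804) (.g (nat_lit 1607) (.e (nat_lit 1800) (nat_lit 119) (.e (nat_lit 516119) (nat_lit 1) (.e (nat_lit 164327) (nat_lit 230) (.e (nat_lit 163873) (nat_lit 3) .nil)))) .nil))) (.nd (nat_lit 5) 
(.lf (nat_lit 77788) (.g (nat_lit 2104) (.e (nat_lit 1800) (nat_lit 119) (.e (nat_lit 516119) (nat_lit 1) (.e (nat_lit 164326) (nat_lit 230) (.e (nat_lit 163903) (nat_lit 12) (.e (nat_lit 426568) (nat_lit 34) (.e (nat_lit 393266) (nat_lit 23) (.e (nat_lit 426396) (nat_lit 15) .nil))))))) (.g (nat_lit 4) .nil .nil))) 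
(.lf (nat_lit 77820) (.g (nat_lit 2746) (.e (nat_lit 1800) (nat_lit 119) (.e (nat_lit 516119) (nat_lit 1) (.e (nat_lit 164396) (nat_lit 256) (.e (nat_lit 57371) (nat_lit 2) (.e (nat_lit 90172) (nat_lit 14) (.e (nat_lit 180243) (nat_lit 5) (.e (nat_lit 532513) (nat_lit 3) (.e (nat_lit 114707) (nat_lit 20) .nil)))))))) (.g (nat_lit 4) .nil .nil))))))) 
(.nd (nat_lit 2) (.nd (nat_lit 3) (.nd (nat_lit 4) (.nd (nat_lit 5) 
(.lf (nat_lit 77762) (.g (nat_lit 1777) (.e (nat_lit 1800) (nat_lit 119) (.e (nat_lit 516119) (nat_lit 1) (.e (nat_lit 164325) (nat_lit 230) (.e (nat_lit 163907) (nat_lit 12) (.e (nat_lit 426568) (nat_lit 34) (.e (nat_lit 393279) (nat_lit 23) (.e (nat_lit 426419) (nat_lit 15) .nil))))))) (.g (nat_lit 4) .nil .nil))) 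
(.lf (nat_lit 77794) (.g (nat_lit 3198) (.e (nat_lit 1800) (nat_lit 119) (.e (nat_lit 516119) (nat_lit 1) (.e (nat_lit 164326) (nat_lit 230) (.e (nat_lit 163903) (nat_lit 12) (.e (nat_lit 426568) (nat_lit 34) (.e (nat_lit 393279) (nat_lit 23) (.e (nat_lit 426419) (nat_lit 15) .nil))))))) (.g (nat_lit 6) .nil .nil)))) (.nd (nat_lit 5) 
(.lf (nat_lit 77778) (.g (nat_lit 2140) (.e (nat_lit 1800) (nat_lit 119) (.e (nat_lit 516119) (nat_lit 1) (.e (nat_lit 164325) (nat_lit 230) (.e (nat_lit 163944) (nat_lit 19) (.e (nat_lit 483341) (nat_lit 9) (.e (nat_lit 426198) (nat_lit 9) (.e (nat_lit 426382) (nat_lit 15) .nil))))))) (.g (nat_lit 4) .nil .nil))) 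
(.lf (nat_lit 77810) (.g (nat_lit 3264) (.e (nat_lit 1800) (nat_lit 119) (.e (nat_lit 516119) (nat_lit 1) (.e (nat_lit 164327) (nat_lit 230) (.e (nat_lit 163875) (nat_lit 3) (.e (nat_lit 204838) (nat_lit 20) (.e (nat_lit 114715) (nat_lit 22) (.e (nat_lit 90170) (nat_lit 13) (.e (nat_lit 172138) (nat_lit 15) .nil)))))))) (.g (nat_lit 4) .nil .nil))))) (.nd (nat_lit 4) (.nd (nat_lit 5) 
(.lf (nat_lit 77770) (.g (nat_lit 1903) (.e (nat_lit 1800) (nat_lit 119) (.e (nat_lit 516119) (nat_lit 1) (.e (nat_lit 164325) (nat_lit 230) (.e (nat_lit 163941) (nat_lit 19) (.e (nat_lit 491264) (nat_lit 11) (.e (nat_lit 450304) (nat_lit 0) .nil)))))) (.g (nat_lit 4) .nil .nil))) 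
(.lf (nat_lit 77802) (.g (nat_lit 1894) (.e (nat_lit 1800) (nat_lit 119) (.e (nat_lit 516119) (nat_lit 1) (.e (nat_lit 164326) (nat_lit 230) (.e (nat_lit 163942) (nat_lit 19) (.e (nat_lit 491264) (nat_lit 11) (.e (nat_lit 450304) (nat_lit 0) .nil)))))) (.g (nat_lit 4) .nil .nil)))) (.nd (nat_lit 5) 
(.lf (nat_lit 77786) (.g (nat_lit 2185) (.e (nat_lit 1800) (nat_lit 119) (.e (nat_lit 516119) (nat_lit 1) (.e (nat_lit 164326) (nat_lit 230) (.e (nat_lit 163903) (nat_lit 12) (.e (nat_lit 426479) (nat_lit 27) (.e (nat_lit 336443) (nat_lit 32) (.e (nat_lit 474880) (nat_lit 0) .nil))))))) (.g (nat_lit 5) .nil .nil))) 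
(.lf (nat_lit 77818) (.g (nat_lit 3566) (.e (nat_lit 1800) (nat_lit 119) (.e (nat_lit 516119) (nat_lit 1) (.e (nat_lit 164396) (nat_lit 256) (.e (nat_lit 57371) (nat_lit 2) (.e (nat_lit 90167) (nat_lit 13) (.e (nat_lit 172067) (nat_lit 3) (.e (nat_lit 204837) (nat_lit 20) (.e (nat_lit 114708) (nat_lit 20) .nil)))))))) (.g (nat_lit 6) .nil .nil)))))) 
(.nd (nat_lit 3) (.nd (nat_lit 4) (.nd (nat_lit 5) 
(.lf (nat_lit 77766) (.g (nat_lit 1781) (.e (nat_lit 1800) (nat_lit 119) (.e (nat_lit 516119) (nat_lit 1) (.e (nat_lit 164325) (nat_lit 230) (.e (nat_lit 163941) (nat_lit 19) (.e (nat_lit 483341) (nat_lit 9) (.e (nat_lit 426198) (nat_lit 9) (.e (nat_lit 426376) (nat_lit 15) .nil))))))) (.g (nat_lit 4) .nil .nil))) 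
(.lf (nat_lit 77798) (.g (nat_lit 2402) (.e (nat_lit 1800) (nat_lit 119) (.e (nat_lit 516119) (nat_lit 1) (.e (nat_lit 164326) (nat_lit 230) (.e (nat_lit 163941) (nat_lit 19) (.e (nat_lit 491264) (nat_lit 11) (.e (nat_lit 442377) (nat_lit 0) .nil)))))) (.g (nat_lit 4) .nil .nil)))) (.nd (nat_lit 5) 
(.lf (nat_lit 77782) (.g (nat_lit 2111) (.e (nat_lit 1800) (nat_lit 119) (.e (nat_lit 516119) (nat_lit 1) (.e (nat_lit 164326) (nat_lit 230) (.e (nat_lit 163903) (nat_lit 12) (.e (nat_lit 426479) (nat_lit 27) (.e (nat_lit 336430) (nat_lit 29) (.e (nat_lit 442377) (nat_lit 0) .nil))))))) (.g (nat_lit 4) .nil .nil))) 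
(.lf (nat_lit 77814) (.g (nat_lit 778) (.e (nat_lit 1800) (nat_lit 119) (.e (nat_lit 516119) (nat_lit 1) (.e (nat_lit 164329) (nat_lit 230) .nil))) .nil)))) (.nd (nat_lit 4) (.nd (nat_lit 5) 
(.lf (nat_lit 77774) (.g (nat_lit 1990) (.e (nat_lit 1800) (nat_lit 119) (.e (nat_lit 516119) (nat_lit 1) (.e (nat_lit 164325) (nat_lit 230) (.e (nat_lit 163943) (nat_lit 19) (.e (nat_lit 491264) (nat_lit 11) (.e (nat_lit 442377) (nat_lit 0) .nil)))))) (.g (nat_lit 4) .nil .nil))) 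
(.lf (nat_lit 77806) (.g (nat_lit 1414) (.e (nat_lit 1800) (nat_lit 119) (.e (nat_lit 516119) (nat_lit 1) (.e (nat_lit 164327) (nat_lit 230) (.e (nat_lit 163875) (nat_lit 3) .nil)))) .nil))) (.nd (nat_lit 5) 
(.lf (nat_lit 77790) (.g (nat_lit 1893) (.e (nat_lit 1800) (nat_lit 119) (.e (nat_lit 516119) (nat_lit 1) (.e (nat_lit 164326) (nat_lit 230) (.e (nat_lit 163903) (nat_lit 12) (.e (nat_lit 426568) (nat_lit 34) (.e (nat_lit 393274) (nat_lit 23) (.e (nat_lit 426412) (nat_lit 15) .nil))))))) (.g (nat_lit 4) .nil .nil))) 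
(.lf (nat_lit 77822) (.g (nat_lit 2202) (.e (nat_lit 1800) (nat_lit 119) (.e (nat_lit 516119) (nat_lit 1) (.e (nat_lit 164396) (nat_lit 256) (.e (nat_lit 57371) (nat_lit 2) (.e (nat_lit 90172) (nat_lit 14) (.e (nat_lit 180243) (nat_lit 5) (.e (nat_lit 532515) (nat_lit 3) (.e (nat_lit 114708) (nat_lit 20) .nil)))))))) (.g (nat_lit 4) .nil .nil)))))))) 
(.nd (nat_lit 1) (.nd (nat_lit 2) (.nd (nat_lit 3) (.nd (nat_lit 4) (.nd (nat_lit 5) 
(.lf (nat_lit 77761) (.g (nat_lit 1323) (.e (nat_lit 1800) (nat_lit 119) (.e (nat_lit 516119) (nat_lit 1) (.e (nat_lit 164325) (nat_lit 230) (.e (nat_lit 163907) (nat_lit 12) (.e (nat_lit 426479) (nat_lit 27) (.e (nat_lit 336443) (nat_lit 32) (.e (nat_lit 474880) (nat_lit 0) .nil))))))) (.g (nat_lit 4) .nil .nil))) 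
(.lf (nat_lit 77793) (.g (nat_lit 2109) (.e (nat_lit 1800) (nat_lit 119) (.e (nat_lit 516119) (nat_lit 1) (.e (nat_lit 164326) (nat_lit 230) (.e (nat_lit 163903) (nat_lit 12) (.e (nat_lit 426568) (nat_lit 34) (.e (nat_lit 393275) (nat_lit 23) (.e (nat_lit 426414) (nat_lit 15) .nil))))))) (.g (nat_lit 4) .nil .nil)))) (.nd (nat_lit 5) 
(.lf (nat_lit 77777) (.g (nat_lit 1753) (.e (nat_lit 1800) (nat_lit 119) (.e (nat_lit 516119) (nat_lit 1) (.e (nat_lit 164325) (nat_lit 230) (.e (nat_lit 163944) (nat_lit 19) (.e (nat_lit 483339) (nat_lit 9) (.e (nat_lit 426259) (nat_lit 9) (.e (nat_lit 426419) (nat_lit 15) .nil))))))) (.g (nat_lit 4) .nil .nil))) 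
(.lf (nat_lit 77809) (.g (nat_lit 2981) (.e (nat_lit 1800) (nat_lit 119) (.e (nat_lit 516119) (nat_lit 1) (.e (nat_lit 164327) (nat_lit 230) (.e (nat_lit 163875) (nat_lit 3) (.e (nat_lit 204838) (nat_lit 20) (.e (nat_lit 114714) (nat_lit 22) (.e (nat_lit 90169) (nat_lit 13) (.e (nat_lit 172133) (nat_lit 15) .nil)))))))) (.g (nat_lit 4) .nil .nil))))) (.nd (nat_lit 4) (.nd (nat_lit 5) 
(.lf (nat_lit 77769) (.g (nat_lit 2246) (.e (nat_lit 1800) (nat_lit 119) (.e (nat_lit 516119) (nat_lit 1) (.e (nat_lit 164325) (nat_lit 230) (.e (nat_lit 163941) (nat_lit 19) (.e (nat_lit 491264) (nat_lit 11) (.e (nat_lit 442378) (nat_lit 0) .nil)))))) (.g (nat_lit 4) .nil .nil))) 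
(.lf (nat_lit 77801) (.g (nat_lit 2250) (.e (nat_lit 1800) (nat_lit 119) (.e (nat_lit 516119) (nat_lit 1) (.e (nat_lit 164326) (nat_lit 230) (.e (nat_lit 163942) (nat_lit 19) (.e (nat_lit 491264) (nat_lit 11) (.e (nat_lit 442377) (nat_lit 0) .nil)))))) (.g (nat_lit 4) .nil .nil)))) (.nd (nat_lit 5) 
(.lf (nat_lit 77785) (.g (nat_lit 2170) (.e (nat_lit 1800) (nat_lit 119) (.e (nat_lit 516119) (nat_lit 1) (.e (nat_lit 164326) (nat_lit 230) (.e (nat_lit 163903) (nat_lit 12) (.e (nat_lit 426479) (nat_lit 27) (.e (nat_lit 336443) (nat_lit 32) (.e (nat_lit 466949) (nat_lit 0) .nil))))))) (.g (nat_lit 4) .nil .nil))) 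
(.lf (nat_lit 77817) (.g (nat_lit 2001) (.e (nat_lit 1800) (nat_lit 119) (.e (nat_lit 516119) (nat_lit 1) (.e (nat_lit 164396) (nat_lit 256) (.e (nat_lit 57371) (nat_lit 2) (.e (nat_lit 90167) (nat_lit 13) .nil))))) .nil))))) (.nd (nat_lit 3) (.nd (nat_lit 4) (.nd (nat_lit 5) 
(.lf (nat_lit 77765) (.g (nat_lit 1782) (.e (nat_lit 1800) (nat_lit 119) (.e (nat_lit 516119) (nat_lit 1) (.e (nat_lit 164325) (nat_lit 230) (.e (nat_lit 163941) (nat_lit 19) (.e (nat_lit 483341) (nat_lit 9) (.e (nat_lit 426198) (nat_lit 9) (.e (nat_lit 426375) (nat_lit 15) .nil))))))) (.g (nat_lit 4) .nil .nil))) 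
(.lf (nat_lit 77797) (.g (nat_lit 2932) (.e (nat_lit 1800) (nat_lit 119) (.e (nat_lit 516119) (nat_lit 1) (.e (nat_lit 164326) (nat_lit 230) (.e (nat_lit 163903) (nat_lit 12) (.e (nat_lit 426568) (nat_lit 34) (.e (nat_lit 393281) (nat_lit 23) (.e (nat_lit 426413) (nat_lit 15) .nil))))))) (.g (nat_lit 5) .nil .nil)))) (.nd (nat_lit 5) 
(.lf (nat_lit 77781) (.g (nat_lit 3641) (.e (nat_lit 1800) (nat_lit 119) (.e (nat_lit 516119) (nat_lit 1) (.e (nat_lit 164326) (nat_lit 230) (.e (nat_lit 163851) (nat_lit 0) (.e (nat_lit 3307) (nat_lit 202) (.e (nat_lit 573489) (nat_lit 14) (.e (nat_lit 73755) (nat_lit 8) (.e (nat_lit 557097) (nat_lit 13) (.e (nat_lit 172133) (nat_lit 15) .nil))))))))) (.g (nat_lit 6) .nil .nil))) 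
(.lf (nat_lit 77813) (.g (nat_lit 2125) (.e (nat_lit 1800) (nat_lit 119) (.e (nat_lit 516119) (nat_lit 1) (.e (nat_lit 164327) (nat_lit 230) (.e (nat_lit 163903) (nat_lit 12) (.e (nat_lit 426568) (nat_lit 34) .nil))))) .nil)))) (.nd (nat_lit 4) (.nd (nat_lit 5) 
(.lf (nat_lit 77773) (.g (nat_lit 1653) (.e (nat_lit 1800) (nat_lit 119) (.e (nat_lit 516119) (nat_lit 1) (.e (nat_lit 164325) (nat_lit 230) (.e (nat_lit 163942) (nat_lit 19) (.e (nat_lit 491264) (nat_lit 11) (.e (nat_lit 450304) (nat_lit 0) .nil)))))) (.g (nat_lit 4) .nil .nil))) 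
(.lf (nat_lit 77805) (.g (nat_lit 2866) (.e (nat_lit 1800) (nat_lit 119) (.e (nat_lit 516119) (nat_lit 1) (.e (nat_lit 164327) (nat_lit 230) (.e (nat_lit 163873) (nat_lit 3) (.e (nat_lit 204809) (nat_lit 9) (.e (nat_lit 426139) (nat_lit 3) (.e (nat_lit 204837) (nat_lit 20) (.e (nat_lit 114708) (nat_lit 20) .nil)))))))) (.g (nat_lit 4) .nil .nil)))) (.nd (nat_lit 5) 
(.lf (nat_lit 77789) (.g (nat_lit 2867) (.e (nat_lit 1800) (nat_lit 119) (.e (nat_lit 516119) (nat_lit 1) (.e (nat_lit 164326) (nat_lit 230) (.e (nat_lit 163903) (nat_lit 12) (.e (nat_lit 426568) (nat_lit 34) (.e (nat_lit 393267) (nat_lit 23) (.e (nat_lit 426382) (nat_lit 15) .nil))))))) (.g (nat_lit 5) .nil .nil))) 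
(.lf (nat_lit 77821) (.g (nat_lit 3545) (.e (nat_lit 1800) (nat_lit 119) (.e (nat_lit 516119) (nat_lit 1) (.e (nat_lit 164396) (nat_lit 256) (.e (nat_lit 57371) (nat_lit 2) (.e (nat_lit 90172) (nat_lit 14) (.e (nat_lit 180243) (nat_lit 5) (.e (nat_lit 532513) (nat_lit 3) (.e (nat_lit 114708) (nat_lit 20) .nil)))))))) (.g (nat_lit 6) .nil .nil))))))) 
(.nd (nat_lit 2) (.nd (nat_lit 3) (.nd (nat_lit 4) (.nd (nat_lit 5) 
(.lf (nat_lit 77763) (.g (nat_lit 2017) (.e (nat_lit 1800) (nat_lit 119) (.e (nat_lit 516119) (nat_lit 1) (.e (nat_lit 164325) (nat_lit 230) (.e (nat_lit 163907) (nat_lit 12) (.e (nat_lit 426568) (nat_lit 34) (.e (nat_lit 393281) (nat_lit 23) (.e (nat_lit 426410) (nat_lit 15) .nil))))))) (.g (nat_lit 4) .nil .nil))) 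
(.lf (nat_lit 77795) (.g (nat_lit 2604) (.e (nat_lit 1800) (nat_lit 119) (.e (nat_lit 516119) (nat_lit 1) (.e (nat_lit 164326) (nat_lit 230) (.e (nat_lit 163903) (nat_lit 12) (.e (nat_lit 426568) (nat_lit 34) (.e (nat_lit 393281) (nat_lit 23) (.e (nat_lit 426387) (nat_lit 15) .nil))))))) (.g (nat_lit 5) .nil .nil)))) (.nd (nat_lit 5) 
(.lf (nat_lit 77779) (.g (nat_lit 1405) (.e (nat_lit 1800) (nat_lit 119) (.e (nat_lit 516119) (nat_lit 1) (.e (nat_lit 164325) (nat_lit 230) (.e (nat_lit 163944) (nat_lit 19) (.e (nat_lit 491264) (nat_lit 11) (.e (nat_lit 450304) (nat_lit 0) .nil)))))) (.g (nat_lit 4) .nil .nil))) 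
(.lf (nat_lit 77811) (.g (nat_lit 2820) (.e (nat_lit 1800) (nat_lit 119) (.e (nat_lit 516119) (nat_lit 1) (.e (nat_lit 164327) (nat_lit 230) (.e (nat_lit 163875) (nat_lit 3) (.e (nat_lit 204838) (nat_lit 20) (.e (nat_lit 114716) (nat_lit 22) (.e (nat_lit 90169) (nat_lit 13) (.e (nat_lit 172133) (nat_lit 15) .nil)))))))) (.g (nat_lit 4) .nil .nil))))) (.nd (nat_lit 4) (.nd (nat_lit 5) 
(.lf (nat_lit 77771) (.g (nat_lit 1888) (.e (nat_lit 1800) (nat_lit 119) (.e (nat_lit 516119) (nat_lit 1) (.e (nat_lit 164325) (nat_lit 230) (.e (nat_lit 163942) (nat_lit 19) (.e (nat_lit 491264) (nat_lit 11) (.e (nat_lit 442377) (nat_lit 0) .nil)))))) (.g (nat_lit 4) .nil .nil))) 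
(.lf (nat_lit 77803) (.g (nat_lit 529) (.e (nat_lit 1800) (nat_lit 119) (.e (nat_lit 516119) (nat_lit 1) (.e (nat_lit 164327) (nat_lit 230) .nil))) .nil))) (.nd (nat_lit 5) 
(.lf (nat_lit 77787) (.g (nat_lit 1324) (.e (nat_lit 1800) (nat_lit 119) (.e (nat_lit 516119) (nat_lit 1) (.e (nat_lit 164326) (nat_lit 230) (.e (nat_lit 163903) (nat_lit 12) (.e (nat_lit 426568) (nat_lit 34) .nil))))) .nil)) 
(.lf (nat_lit 77819) (.g (nat_lit 2180) (.e (nat_lit 1800) (nat_lit 119) (.e (nat_lit 516119) (nat_lit 1) (.e (nat_lit 164396) (nat_lit 256) (.e (nat_lit 57371) (nat_lit 2) (.e (nat_lit 90168) (nat_lit 13) (.e (nat_lit 172067) (nat_lit 3) (.e (nat_lit 204837) (nat_lit 20) (.e (nat_lit 114708) (nat_lit 20) .nil)))))))) (.g (nat_lit 4) .nil .nil)))))) 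
(.nd (nat_lit 3) (.nd (nat_lit 4) (.nd (nat_lit 5) 
(.lf (nat_lit 77767) (.g (nat_lit 1960) (.e (nat_lit 1800) (nat_lit 119) (.e (nat_lit 516119) (nat_lit 1) (.e (nat_lit 164325) (nat_lit 230) (.e (nat_lit 163941) (nat_lit 19) (.e (nat_lit 483341) (nat_lit 9) (.e (nat_lit 426198) (nat_lit 9) (.e (nat_lit 426405) (nat_lit 15) .nil))))))) (.g (nat_lit 4) .nil .nil))) 
(.lf (nat_lit 77799) (.g (nat_lit 2046) (.e (nat_lit 1800) (nat_lit 119) (.e (nat_lit 516119) (nat_lit 1) (.e (nat_lit 164326) (nat_lit 230) (.e (nat_lit 163941) (nat_lit 19) (.e (nat_lit 491264) (nat_lit 11) (.e (nat_lit 450304) (nat_lit 0) .nil)))))) (.g (nat_lit 4) .nil .nil)))) (.nd (nat_lit 5) 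
(.lf (nat_lit 77783) (.g (nat_lit 3190) (.e (nat_lit 1800) (nat_lit 119) (.e (nat_lit 516119) (nat_lit 1) (.e (nat_lit 164326) (nat_lit 230) (.e (nat_lit 163903) (nat_lit 12) (.e (nat_lit 426479) (nat_lit 27) (.e (nat_lit 336430) (nat_lit 29) (.e (nat_lit 442378) (nat_lit 0) .nil))))))) (.g (nat_lit 6) .nil .nil))) 
(.lf (nat_lit 77815) (.g (nat_lit 778) (.e (nat_lit 1800) (nat_lit 119) (.e (nat_lit 516119) (nat_lit 1) (.e (nat_lit 164332) (nat_lit 230) .nil))) .nil)))) (.nd (nat_lit 4) (.nd (nat_lit 5) 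
(.lf (nat_lit 77775) (.g (nat_lit 2083) (.e (nat_lit 1800) (nat_lit 119) (.e (nat_lit 516119) (nat_lit 1) (.e (nat_lit 164325) (nat_lit 230) (.e (nat_lit 163943) (nat_lit 19) (.e (nat_lit 491264) (nat_lit 11) (.e (nat_lit 442378) (nat_lit 0) .nil)))))) (.g (nat_lit 4) .nil .nil))) 
(.lf (nat_lit 77807) (.g (nat_lit 3340) (.e (nat_lit 1800) (nat_lit 119) (.e (nat_lit 516119) (nat_lit 1) (.e (nat_lit 164327) (nat_lit 230) (.e (nat_lit 163875) (nat_lit 3) (.e (nat_lit 204837) (nat_lit 20) (.e (nat_lit 114715) (nat_lit 22) (.e (nat_lit 90170) (nat_lit 13) (.e (nat_lit 172138) (nat_lit 15) .nil)))))))) (.g (nat_lit 4) .nil .nil)))) (.nd (nat_lit 5) 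
(.lf (nat_lit 77791) (.g (nat_lit 2625) (.e (nat_lit 1800) (nat_lit 119) (.e (nat_lit 516119) (nat_lit 1) (.e (nat_lit 164326) (nat_lit 230) (.e (nat_lit 163903) (nat_lit 12) (.e (nat_lit 426568) (nat_lit 34) (.e (nat_lit 393275) (nat_lit 23) (.e (nat_lit 426380) (nat_lit 15) .nil))))))) (.g (nat_lit 5) .nil .nil))) 
(.lf (nat_lit 77823) (.g (nat_lit 3344) (.e (nat_lit 1800) (nat_lit 119) (.e (nat_lit 516119) (nat_lit 1) (.e (nat_lit 164396) (nat_lit 256) (.e (nat_lit 57371) (nat_lit 2) (.e (nat_lit 90172) (nat_lit 14) (.e (nat_lit 180244) (nat_lit 5) (.e (nat_lit 532513) (nat_lit 3) (.e (nat_lit 114707) (nat_lit 20) .nil)))))))) (.g (nat_lit 5) .nil .nil)))))))))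

noncomputable def tv1053 : DT := (.nd (nat_lit 0) (.nd (nat_lit 1) (.nd (nat_lit 2) (.nd (nat_lit 3) (.nd (nat_lit 4) (.nd (nat_lit 5) 
(.lf (nat_lit 77824) (.g (nat_lit 4278) (.e (nat_lit 1800) (nat_lit 119) (.e (nat_lit 516119) (nat_lit 1) (.e (nat_lit 164396) (nat_lit 256) (.e (nat_lit 57371) (nat_lit 2) (.e (nat_lit 90172) (nat_lit 14) (.e (nat_lit 180244) (nat_lit 5) (.e (nat_lit 532513) (nat_lit 3) (.e (nat_lit 114708) (nat_lit 20) .nil)))))))) (.g (nat_lit 7) .nil .nil))) 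
(.lf (nat_lit 77856) (.g (nat_lit 2449) (.e (nat_lit 1800) (nat_lit 119) (.e (nat_lit 516119) (nat_lit 1) (.e (nat_lit 164401) (nat_lit 256) (.e (nat_lit 57373) (nat_lit 2) (.e (nat_lit 90172) (nat_lit 14) (.e (nat_lit 180244) (nat_lit 5) (.e (nat_lit 532514) (nat_lit 3) (.e (nat_lit 114708) (nat_lit 20) .nil)))))))) (.g (nat_lit 4) .nil .nil)))) (.nd (nat_lit 5) 
(.lf (nat_lit 77840) (.g (nat_lit 3285) (.e (nat_lit 1800) (nat_lit 119) (.e (nat_lit 516119) (nat_lit 1) (.e (nat_lit 164396) (nat_lit 256) (.e (nat_lit 57375) (nat_lit 2) (.e (nat_lit 90174) (nat_lit 14) (.e (nat_lit 180243) (nat_lit 5) (.e (nat_lit 532513) (nat_lit 3) (.e (nat_lit 114708) (nat_lit 20) .nil)))))))) (.g (nat_lit 5) .nil .nil))) 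
(.lf (nat_lit 77872) (.g (nat_lit 2139) (.e (nat_lit 1800) (nat_lit 119) (.e (nat_lit 516119) (nat_lit 1) (.e (nat_lit 164402) (nat_lit 256) (.e (nat_lit 57371) (nat_lit 2) (.e (nat_lit 90172) (nat_lit 14) .nil))))) .nil)))) (.nd (nat_lit 4) (.nd (nat_lit 5) 
(.lf (nat_lit 77832) (.g (nat_lit 3302) (.e (nat_lit 1800) (nat_lit 119) (.e (nat_lit 516119) (nat_lit 1) (.e (nat_lit 164396) (nat_lit 256) (.e (nat_lit 57372) (nat_lit 2) (.e (nat_lit 90172) (nat_lit 14) (.e (nat_lit 180244) (nat_lit 5) (.e (nat_lit 532513) (nat_lit 3) (.e (nat_lit 114708) (nat_lit 20) .nil)))))))) (.g (nat_lit 5) .nil .nil))) 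
(.lf (nat_lit 77864) (.g (nat_lit 2907) (.e (nat_lit 1800) (nat_lit 119) (.e (nat_lit 516119) (nat_lit 1) (.e (nat_lit 164401) (nat_lit 256) (.e (nat_lit 57378) (nat_lit 3) (.e (nat_lit 98355) (nat_lit 26) (.e (nat_lit 426131) (nat_lit 3) (.e (nat_lit 204838) (nat_lit 20) (.e (nat_lit 114708) (nat_lit 20) .nil)))))))) (.g (nat_lit 4) .nil .nil)))) (.nd (nat_lit 5) 
(.lf (nat_lit 77848) (.g (nat_lit 2289) (.e (nat_lit 1800) (nat_lit 119) (.e (nat_lit 516119) (nat_lit 1) (.e (nat_lit 164401) (nat_lit 256) (.e (nat_lit 57371) (nat_lit 2) (.e (nat_lit 90174) (nat_lit 14) (.e (nat_lit 180243) (nat_lit 5) (.e (nat_lit 532513) (nat_lit 3) (.e (nat_lit 114707) (nat_lit 20) .nil)))))))) (.g (nat_lit 4) .nil .nil))) 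
(.lf (nat_lit 77880) (.g (nat_lit 2303) (.e (nat_lit 1800) (nat_lit 119) (.e (nat_lit 516119) (nat_lit 1) (.e (nat_lit 164402) (nat_lit 256) (.e (nat_lit 57371) (nat_lit 2) (.e (nat_lit 90174) (nat_lit 14) (.e (nat_lit 180243) (nat_lit 5) (.e (nat_lit 532515) (nat_lit 3) (.e (nat_lit 114707) (nat_lit 20) .nil)))))))) (.g (nat_lit 4) .nil .nil)))))) 
(.nd (nat_lit 3) (.nd (nat_lit 4) (.nd (nat_lit 5) 
(.lf (nat_lit 77828) (.g (nat_lit 4319) (.e (nat_lit 1800) (nat_lit 119) (.e (nat_lit 516119) (nat_lit 1) (.e (nat_lit 164396) (nat_lit 256) (.e (nat_lit 57371) (nat_lit 2) (.e (nat_lit 90174) (nat_lit 14) (.e (nat_lit 180243) (nat_lit 5) (.e (nat_lit 532513) (nat_lit 3) (.e (nat_lit 114707) (nat_lit 20) .nil)))))))) (.g (nat_lit 7) .nil .nil))) 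
(.lf (nat_lit 77860) (.g (nat_lit 4432) (.e (nat_lit 1800) (nat_lit 119) (.e (nat_lit 516119) (nat_lit 1) (.e (nat_lit 164401) (nat_lit 256) (.e (nat_lit 57373) (nat_lit 2) (.e (nat_lit 90174) (nat_lit 14) (.e (nat_lit 180243) (nat_lit 5) (.e (nat_lit 532513) (nat_lit 3) (.e (nat_lit 114708) (nat_lit 20) .nil)))))))) (.g (nat_lit 7) .nil .nil)))) (.nd (nat_lit 5) 
(.lf (nat_lit 77844) (.g (nat_lit 2531) (.e (nat_lit 1800) (nat_lit 119) (.e (nat_lit 516119) (nat_lit 1) (.e (nat_lit 164396) (nat_lit 256) (.e (nat_lit 57379) (nat_lit 3) (.e (nat_lit 98366) (nat_lit 27) (.e (nat_lit 434231) (nat_lit 23) (.e (nat_lit 532513) (nat_lit 3) (.e (nat_lit 114708) (nat_lit 20) .nil)))))))) (.g (nat_lit 4) .nil .nil))) 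
(.lf (nat_lit 77876) (.g (nat_lit 3948) (.e (nat_lit 1800) (nat_lit 119) (.e (nat_lit 516119) (nat_lit 1) (.e (nat_lit 164402) (nat_lit 256) (.e (nat_lit 57371) (nat_lit 2) (.e (nat_lit 90172) (nat_lit 14) (.e (nat_lit 180244) (nat_lit 5) (.e (nat_lit 532513) (nat_lit 3) (.e (nat_lit 114708) (nat_lit 20) .nil)))))))) (.g (nat_lit 6) .nil .nil))))) (.nd (nat_lit 4) (.nd (nat_lit 5) 
(.lf (nat_lit 77836) (.g (nat_lit 2485) (.e (nat_lit 1800) (nat_lit 119) (.e (nat_lit 516119) (nat_lit 1) (.e (nat_lit 164396) (nat_lit 256) (.e (nat_lit 57375) (nat_lit 2) (.e (nat_lit 90172) (nat_lit 14) (.e (nat_lit 180244) (nat_lit 5) (.e (nat_lit 532513) (nat_lit 3) (.e (nat_lit 114707) (nat_lit 20) .nil)))))))) (.g (nat_lit 4) .nil .nil))) 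
(.lf (nat_lit 77868) (.g (nat_lit 2120) (.e (nat_lit 1800) (nat_lit 119) (.e (nat_lit 516119) (nat_lit 1) (.e (nat_lit 164401) (nat_lit 256) (.e (nat_lit 57378) (nat_lit 3) (.e (nat_lit 98376) (nat_lit 30) (.e (nat_lit 458789) (nat_lit 23) (.e (nat_lit 532515) (nat_lit 3) (.e (nat_lit 114708) (nat_lit 20) .nil)))))))) (.g (nat_lit 4) .nil .nil)))) (.nd (nat_lit 5) 
(.lf (nat_lit 77852) (.g (nat_lit 3299) (.e (nat_lit 1800) (nat_lit 119) (.e (nat_lit 516119) (nat_lit 1) (.e (nat_lit 164401) (nat_lit 256) (.e (nat_lit 57373) (nat_lit 2) (.e (nat_lit 90170) (nat_lit 13) (.e (nat_lit 172065) (nat_lit 3) (.e (nat_lit 204838) (nat_lit 20) (.e (nat_lit 114708) (nat_lit 20) .nil)))))))) (.g (nat_lit 5) .nil .nil))) 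
(.lf (nat_lit 77884) (.g (nat_lit 3670) (.e (nat_lit 1800) (nat_lit 119) (.e (nat_lit 516119) (nat_lit 1) (.e (nat_lit 164402) (nat_lit 256) (.e (nat_lit 57373) (nat_lit 2) (.e (nat_lit 90172) (nat_lit 14) (.e (nat_lit 180244) (nat_lit 5) (.e (nat_lit 532513) (nat_lit 3) (.e (nat_lit 114708) (nat_lit 20) .nil)))))))) (.g (nat_lit 6) .nil .nil))))))) 
(.nd (nat_lit 2) (.nd (nat_lit 3) (.nd (nat_lit 4) (.nd (nat_lit 5) 
(.lf (nat_lit 77826) (.g (nat_lit 2407) (.e (nat_lit 1800) (nat_lit 119) (.e (nat_lit 516119) (nat_lit 1) (.e (nat_lit 164396) (nat_lit 256) (.e (nat_lit 57371) (nat_lit 2) (.e (nat_lit 90172) (nat_lit 14) (.e (nat_lit 180244) (nat_lit 5) (.e (nat_lit 532515) (nat_lit 3) (.e (nat_lit 114707) (nat_lit 20) .nil)))))))) (.g (nat_lit 4) .nil .nil))) 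
(.lf (nat_lit 77858) (.g (nat_lit 3067) (.e (nat_lit 1800) (nat_lit 119) (.e (nat_lit 516119) (nat_lit 1) (.e (nat_lit 164401) (nat_lit 256) (.e (nat_lit 57373) (nat_lit 2) (.e (nat_lit 90172) (nat_lit 14) (.e (nat_lit 180244) (nat_lit 5) (.e (nat_lit 532515) (nat_lit 3) (.e (nat_lit 114708) (nat_lit 20) .nil)))))))) (.g (nat_lit 5) .nil .nil)))) (.nd (nat_lit 5) 
(.lf (nat_lit 77842) (.g (nat_lit 2267) (.e (nat_lit 1800) (nat_lit 119) (.e (nat_lit 516119) (nat_lit 1) (.e (nat_lit 164396) (nat_lit 256) (.e (nat_lit 57377) (nat_lit 3) (.e (nat_lit 98357) (nat_lit 26) .nil))))) .nil)) 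
(.lf (nat_lit 77874) (.g (nat_lit 3202) (.e (nat_lit 1800) (nat_lit 119) (.e (nat_lit 516119) (nat_lit 1) (.e (nat_lit 164402) (nat_lit 256) (.e (nat_lit 57371) (nat_lit 2) (.e (nat_lit 90172) (nat_lit 14) (.e (nat_lit 180243) (nat_lit 5) (.e (nat_lit 532513) (nat_lit 3) (.e (nat_lit 114708) (nat_lit 20) .nil)))))))) (.g (nat_lit 5) .nil .nil))))) (.nd (nat_lit 4) (.nd (nat_lit 5) 
(.lf (nat_lit 77834) (.g (nat_lit 4111) (.e (nat_lit 1800) (nat_lit 119) (.e (nat_lit 516119) (nat_lit 1) (.e (nat_lit 164396) (nat_lit 256) (.e (nat_lit 57374) (nat_lit 2) (.e (nat_lit 90170) (nat_lit 13) (.e (nat_lit 172067) (nat_lit 3) (.e (nat_lit 204837) (nat_lit 20) (.e (nat_lit 114708) (nat_lit 20) .nil)))))))) (.g (nat_lit 6) .nil .nil))) 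
(.lf (nat_lit 77866) (.g (nat_lit 2956) (.e (nat_lit 1800) (nat_lit 119) (.e (nat_lit 516119) (nat_lit 1) (.e (nat_lit 164401) (nat_lit 256) (.e (nat_lit 57378) (nat_lit 3) (.e (nat_lit 98358) (nat_lit 26) (.e (nat_lit 426131) (nat_lit 3) (.e (nat_lit 204837) (nat_lit 20) (.e (nat_lit 114708) (nat_lit 20) .nil)))))))) (.g (nat_lit 6) .nil .nil)))) (.nd (nat_lit 5) 
(.lf (nat_lit 77850) (.g (nat_lit 1994) (.e (nat_lit 1800) (nat_lit 119) (.e (nat_lit 516119) (nat_lit 1) (.e (nat_lit 164401) (nat_lit 256) (.e (nat_lit 57373) (nat_lit 2) (.e (nat_lit 90168) (nat_lit 13) (.e (nat_lit 172067) (nat_lit 3) (.e (nat_lit 204837) (nat_lit 20) (.e (nat_lit 114708) (nat_lit 20) .nil)))))))) (.g (nat_lit 4) .nil .nil))) 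
(.lf (nat_lit 77882) (.g (nat_lit 2686) (.e (nat_lit 1800) (nat_lit 119) (.e (nat_lit 516119) (nat_lit 1) (.e (nat_lit 164402) (nat_lit 256) (.e (nat_lit 57373) (nat_lit 2) (.e (nat_lit 90172) (nat_lit 14) (.e (nat_lit 180243) (nat_lit 5) (.e (nat_lit 532513) (nat_lit 3) (.e (nat_lit 114708) (nat_lit 20) .nil)))))))) (.g (nat_lit 4) .nil .nil)))))) 
(.nd (nat_lit 3) (.nd (nat_lit 4) (.nd (nat_lit 5) 
(.lf (nat_lit 77830) (.g (nat_lit 3826) (.e (nat_lit 1800) (nat_lit 119) (.e (nat_lit 516119) (nat_lit 1) (.e (nat_lit 164396) (nat_lit 256) (.e (nat_lit 57371) (nat_lit 2) (.e (nat_lit 90174) (nat_lit 14) (.e (nat_lit 180243) (nat_lit 5) (.e (nat_lit 532515) (nat_lit 3) (.e (nat_lit 114708) (nat_lit 20) .nil)))))))) (.g (nat_lit 6) .nil .nil))) 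
(.lf (nat_lit 77862) (.g (nat_lit 3288) (.e (nat_lit 1800) (nat_lit 119) (.e (nat_lit 516119) (nat_lit 1) (.e (nat_lit 164401) (nat_lit 256) (.e (nat_lit 57373) (nat_lit 2) (.e (nat_lit 90174) (nat_lit 14) (.e (nat_lit 180243) (nat_lit 5) (.e (nat_lit 532515) (nat_lit 3) (.e (nat_lit 114708) (nat_lit 20) .nil)))))))) (.g (nat_lit 6) .nil .nil)))) (.nd (nat_lit 5) 
(.lf (nat_lit 77846) (.g (nat_lit 3710) (.e (nat_lit 1800) (nat_lit 119) (.e (nat_lit 516119) (nat_lit 1) (.e (nat_lit 164396) (nat_lit 256) (.e (nat_lit 57379) (nat_lit 3) (.e (nat_lit 98367) (nat_lit 27) (.e (nat_lit 434231) (nat_lit 23) (.e (nat_lit 532514) (nat_lit 3) (.e (nat_lit 114708) (nat_lit 20) .nil)))))))) (.g (nat_lit 6) .nil .nil))) 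
(.lf (nat_lit 77878) (.g (nat_lit 3041) (.e (nat_lit 1800) (nat_lit 119) (.e (nat_lit 516119) (nat_lit 1) (.e (nat_lit 164402) (nat_lit 256) (.e (nat_lit 57371) (nat_lit 2) (.e (nat_lit 90172) (nat_lit 14) (.e (nat_lit 180244) (nat_lit 5) (.e (nat_lit 532515) (nat_lit 3) (.e (nat_lit 114708) (nat_lit 20) .nil)))))))) (.g (nat_lit 5) .nil .nil))))) (.nd (nat_lit 4) (.nd (nat_lit 5) 
(.lf (nat_lit 77838) (.g (nat_lit 2510) (.e (nat_lit 1800) (nat_lit 119) (.e (nat_lit 516119) (nat_lit 1) (.e (nat_lit 164396) (nat_lit 256) (.e (nat_lit 57375) (nat_lit 2) (.e (nat_lit 90172) (nat_lit 14) (.e (nat_lit 180244) (nat_lit 5) (.e (nat_lit 532515) (nat_lit 3) (.e (nat_lit 114708) (nat_lit 20) .nil)))))))) (.g (nat_lit 4) .nil .nil))) 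
(.lf (nat_lit 77870) (.g (nat_lit 2892) (.e (nat_lit 1800) (nat_lit 119) (.e (nat_lit 516119) (nat_lit 1) (.e (nat_lit 164402) (nat_lit 256) (.e (nat_lit 57371) (nat_lit 2) (.e (nat_lit 90167) (nat_lit 13) (.e (nat_lit 172067) (nat_lit 3) (.e (nat_lit 204837) (nat_lit 20) (.e (nat_lit 114708) (nat_lit 20) .nil)))))))) (.g (nat_lit 4) .nil .nil)))) (.nd (nat_lit 5) 
(.lf (nat_lit 77854) (.g (nat_lit 2324) (.e (nat_lit 1800) (nat_lit 119) (.e (nat_lit 516119) (nat_lit 1) (.e (nat_lit 164401) (nat_lit 256) (.e (nat_lit 57373) (nat_lit 2) (.e (nat_lit 90172) (nat_lit 14) (.e (nat_lit 180243) (nat_lit 5) (.e (nat_lit 532513) (nat_lit 3) (.e (nat_lit 114707) (nat_lit 20) .nil)))))))) (.g (nat_lit 4) .nil .nil))) 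
(.lf (nat_lit 77886) (.g (nat_lit 3415) (.e (nat_lit 1800) (nat_lit 119) (.e (nat_lit 516119) (nat_lit 1) (.e (nat_lit 164402) (nat_lit 256) (.e (nat_lit 57373) (nat_lit 2) (.e (nat_lit 90174) (nat_lit 14) (.e (nat_lit 180243) (nat_lit 5) (.e (nat_lit 532513) (nat_lit 3) (.e (nat_lit 114707) (nat_lit 20) .nil)))))))) (.g (nat_lit 5) .nil .nil)))))))) 
(.nd (nat_lit 1) (.nd (nat_lit 2) (.nd (nat_lit 3) (.nd (nat_lit 4) (.nd (nat_lit 5) 
(.lf (nat_lit 77825) (.g (nat_lit 2822) (.e (nat_lit 1800) (nat_lit 119) (.e (nat_lit 516119) (nat_lit 1) (.e (nat_lit 164396) (nat_lit 256) (.e (nat_lit 57371) (nat_lit 2) (.e (nat_lit 90172) (nat_lit 14) (.e (nat_lit 180244) (nat_lit 5) (.e (nat_lit 532514) (nat_lit 3) (.e (nat_lit 114708) (nat_lit 20) .nil)))))))) (.g (nat_lit 5) .nil .nil))) 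
(.lf (nat_lit 77857) (.g (nat_lit 2159) (.e (nat_lit 1800) (nat_lit 119) (.e (nat_lit 516119) (nat_lit 1) (.e (nat_lit 164401) (nat_lit 256) (.e (nat_lit 57373) (nat_lit 2) (.e (nat_lit 90172) (nat_lit 14) (.e (nat_lit 180244) (nat_lit 5) (.e (nat_lit 532515) (nat_lit 3) (.e (nat_lit 114707) (nat_lit 20) .nil)))))))) (.g (nat_lit 4) .nil .nil)))) (.nd (nat_lit 5) 
(.lf (nat_lit 77841) (.g (nat_lit 2118) (.e (nat_lit 1800) (nat_lit 119) (.e (nat_lit 516119) (nat_lit 1) (.e (nat_lit 164396) (nat_lit 256) (.e (nat_lit 57375) (nat_lit 2) (.e (nat_lit 90174) (nat_lit 14) (.e (nat_lit 180243) (nat_lit 5) (.e (nat_lit 532515) (nat_lit 3) (.e (nat_lit 114708) (nat_lit 20) .nil)))))))) (.g (nat_lit 4) .nil .nil))) 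
(.lf (nat_lit 77873) (.g (nat_lit 2383) (.e (nat_lit 1800) (nat_lit 119) (.e (nat_lit 516119) (nat_lit 1) (.e (nat_lit 164402) (nat_lit 256) (.e (nat_lit 57371) (nat_lit 2) (.e (nat_lit 90172) (nat_lit 14) (.e (nat_lit 180243) (nat_lit 5) (.e (nat_lit 532513) (nat_lit 3) (.e (nat_lit 114707) (nat_lit 20) .nil)))))))) (.g (nat_lit 4) .nil .nil))))) (.nd (nat_lit 4) (.nd (nat_lit 5) 
(.lf (nat_lit 77833) (.g (nat_lit 2429) (.e (nat_lit 1800) (nat_lit 119) (.e (nat_lit 516119) (nat_lit 1) (.e (nat_lit 164396) (nat_lit 256) (.e (nat_lit 57372) (nat_lit 2) (.e (nat_lit 90172) (nat_lit 14) (.e (nat_lit 180244) (nat_lit 5) (.e (nat_lit 532515) (nat_lit 3) (.e (nat_lit 114708) (nat_lit 20) .nil)))))))) (.g (nat_lit 4) .nil .nil))) 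
(.lf (nat_lit 77865) (.g (nat_lit 3338) (.e (nat_lit 1800) (nat_lit 119) (.e (nat_lit 516119) (nat_lit 1) (.e (nat_lit 164401) (nat_lit 256) (.e (nat_lit 57378) (nat_lit 3) (.e (nat_lit 98356) (nat_lit 26) (.e (nat_lit 426131) (nat_lit 3) (.e (nat_lit 204838) (nat_lit 20) (.e (nat_lit 114708) (nat_lit 20) .nil)))))))) (.g (nat_lit 5) .nil .nil)))) (.nd (nat_lit 5) 
(.lf (nat_lit 77849) (.g (nat_lit 2021) (.e (nat_lit 1800) (nat_lit 119) (.e (nat_lit 516119) (nat_lit 1) (.e (nat_lit 164401) (nat_lit 256) (.e (nat_lit 57373) (nat_lit 2) (.e (nat_lit 90167) (nat_lit 13) (.e (nat_lit 172067) (nat_lit 3) (.e (nat_lit 204837) (nat_lit 20) (.e (nat_lit 114708) (nat_lit 20) .nil)))))))) (.g (nat_lit 4) .nil .nil))) 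
(.lf (nat_lit 77881) (.g (nat_lit 3223) (.e (nat_lit 1800) (nat_lit 119) (.e (nat_lit 516119) (nat_lit 1) (.e (nat_lit 164402) (nat_lit 256) (.e (nat_lit 57371) (nat_lit 2) (.e (nat_lit 90174) (nat_lit 14) (.e (nat_lit 180243) (nat_lit 5) (.e (nat_lit 532515) (nat_lit 3) (.e (nat_lit 114708) (nat_lit 20) .nil)))))))) (.g (nat_lit 5) .nil .nil)))))) 
(.nd (nat_lit 3) (.nd (nat_lit 4) (.nd (nat_lit 5) 
(.lf (nat_lit 77829) (.g (nat_lit 2926) (.e (nat_lit 1800) (nat_lit 119) (.e (nat_lit 516119) (nat_lit 1) (.e (nat_lit 164396) (nat_lit 256) (.e (nat_lit 57371) (nat_lit 2) (.e (nat_lit 90174) (nat_lit 14) (.e (nat_lit 180243) (nat_lit 5) (.e (nat_lit 532515) (nat_lit 3) (.e (nat_lit 114707) (nat_lit 20) .nil)))))))) (.g (nat_lit 5) .nil .nil))) 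
(.lf (nat_lit 77861) (.g (nat_lit 2444) (.e (nat_lit 1800) (nat_lit 119) (.e (nat_lit 516119) (nat_lit 1) (.e (nat_lit 164401) (nat_lit 256) (.e (nat_lit 57373) (nat_lit 2) (.e (nat_lit 90174) (nat_lit 14) (.e (nat_lit 180243) (nat_lit 5) (.e (nat_lit 532515) (nat_lit 3) (.e (nat_lit 114707) (nat_lit 20) .nil)))))))) (.g (nat_lit 4) .nil .nil)))) (.nd (nat_lit 5) 
(.lf (nat_lit 77845) (.g (nat_lit 4484) (.e (nat_lit 1800) (nat_lit 119) (.e (nat_lit 516119) (nat_lit 1) (.e (nat_lit 164396) (nat_lit 256) (.e (nat_lit 57379) (nat_lit 3) (.e (nat_lit 98366) (nat_lit 27) (.e (nat_lit 434231) (nat_lit 23) (.e (nat_lit 532514) (nat_lit 3) (.e (nat_lit 114708) (nat_lit 20) .nil)))))))) (.g (nat_lit 7) .nil .nil))) 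
(.lf (nat_lit 77877) (.g (nat_lit 2492) (.e (nat_lit 1800) (nat_lit 119) (.e (nat_lit 516119) (nat_lit 1) (.e (nat_lit 164402) (nat_lit 256) (.e (nat_lit 57371) (nat_lit 2) (.e (nat_lit 90172) (nat_lit 14) (.e (nat_lit 180244) (nat_lit 5) (.e (nat_lit 532514) (nat_lit 3) (.e (nat_lit 114708) (nat_lit 20) .nil)))))))) (.g (nat_lit 4) .nil .nil))))) (.nd (nat_lit 4) (.nd (nat_lit 5) 
(.lf (nat_lit 77837) (.g (nat_lit 3419) (.e (nat_lit 1800) (nat_lit 119) (.e (nat_lit 516119) (nat_lit 1) (.e (nat_lit 164396) (nat_lit 256) (.e (nat_lit 57375) (nat_lit 2) (.e (nat_lit 90172) (nat_lit 14) (.e (nat_lit 180244) (nat_lit 5) (.e (nat_lit 532513) (nat_lit 3) (.e (nat_lit 114708) (nat_lit 20) .nil)))))))) (.g (nat_lit 6) .nil .nil))) 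
(.lf (nat_lit 77869) (.g (nat_lit 2198) (.e (nat_lit 1800) (nat_lit 119) (.e (nat_lit 516119) (nat_lit 1) (.e (nat_lit 164401) (nat_lit 256) (.e (nat_lit 57378) (nat_lit 3) (.e (nat_lit 98377) (nat_lit 30) (.e (nat_lit 458789) (nat_lit 23) (.e (nat_lit 532515) (nat_lit 3) (.e (nat_lit 114708) (nat_lit 20) .nil)))))))) (.g (nat_lit 4) .nil .nil)))) (.nd (nat_lit 5) 
(.lf (nat_lit 77853) (.g (nat_lit 3794) (.e (nat_lit 1800) (nat_lit 119) (.e (nat_lit 516119) (nat_lit 1) (.e (nat_lit 164401) (nat_lit 256) (.e (nat_lit 57373) (nat_lit 2) (.e (nat_lit 90170) (nat_lit 13) (.e (nat_lit 172067) (nat_lit 3) (.e (nat_lit 204837) (nat_lit 20) (.e (nat_lit 114708) (nat_lit 20) .nil)))))))) (.g (nat_lit 6) .nil .nil))) 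
(.lf (nat_lit 77885) (.g (nat_lit 2801) (.e (nat_lit 1800) (nat_lit 119) (.e (nat_lit 516119) (nat_lit 1) (.e (nat_lit 164402) (nat_lit 256) (.e (nat_lit 57373) (nat_lit 2) (.e (nat_lit 90172) (nat_lit 14) (.e (nat_lit 180244) (nat_lit 5) (.e (nat_lit 532515) (nat_lit 3) (.e (nat_lit 114708) (nat_lit 20) .nil)))))))) (.g (nat_lit 5) .nil .nil))))))) 
(.nd (nat_lit 2) (.nd (nat_lit 3) (.nd (nat_lit 4) (.nd (nat_lit 5) 
(.lf (nat_lit 77827) (.g (nat_lit 3371) (.e (nat_lit 1800) (nat_lit 119) (.e (nat_lit 516119) (nat_lit 1) (.e (nat_lit 164396) (nat_lit 256) (.e (nat_lit 57371) (nat_lit 2) (.e (nat_lit 90172) (nat_lit 14) (.e (nat_lit 180244) (nat_lit 5) (.e (nat_lit 532515) (nat_lit 3) (.e (nat_lit 114708) (nat_lit 20) .nil)))))))) (.g (nat_lit 6) .nil .nil))) 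
(.lf (nat_lit 77859) (.g (nat_lit 3855) (.e (nat_lit 1800) (nat_lit 119) (.e (nat_lit 516119) (nat_lit 1) (.e (nat_lit 164401) (nat_lit 256) (.e (nat_lit 57373) (nat_lit 2) (.e (nat_lit 90174) (nat_lit 14) (.e (nat_lit 180243) (nat_lit 5) (.e (nat_lit 532513) (nat_lit 3) (.e (nat_lit 114707) (nat_lit 20) .nil)))))))) (.g (nat_lit 6) .nil .nil)))) (.nd (nat_lit 5) 
(.lf (nat_lit 77843) (.g (nat_lit 2278) (.e (nat_lit 1800) (nat_lit 119) (.e (nat_lit 516119) (nat_lit 1) (.e (nat_lit 164396) (nat_lit 256) (.e (nat_lit 57377) (nat_lit 3) (.e (nat_lit 98357) (nat_lit 26) (.e (nat_lit 426131) (nat_lit 3) (.e (nat_lit 204838) (nat_lit 20) (.e (nat_lit 114708) (nat_lit 20) .nil)))))))) (.g (nat_lit 4) .nil .nil))) 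
(.lf (nat_lit 77875) (.g (nat_lit 2994) (.e (nat_lit 1800) (nat_lit 119) (.e (nat_lit 516119) (nat_lit 1) (.e (nat_lit 164402) (nat_lit 256) (.e (nat_lit 57371) (nat_lit 2) (.e (nat_lit 90172) (nat_lit 14) (.e (nat_lit 180244) (nat_lit 5) (.e (nat_lit 532513) (nat_lit 3) (.e (nat_lit 114707) (nat_lit 20) .nil)))))))) (.g (nat_lit 4) .nil .nil))))) (.nd (nat_lit 4) (.nd (nat_lit 5) 
(.lf (nat_lit 77835) (.g (nat_lit 3842) (.e (nat_lit 1800) (nat_lit 119) (.e (nat_lit 516119) (nat_lit 1) (.e (nat_lit 164396) (nat_lit 256) (.e (nat_lit 57374) (nat_lit 2) (.e (nat_lit 90170) (nat_lit 13) (.e (nat_lit 172067) (nat_lit 3) (.e (nat_lit 204838) (nat_lit 20) (.e (nat_lit 114708) (nat_lit 20) .nil)))))))) (.g (nat_lit 6) .nil .nil))) 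
(.lf (nat_lit 77867) (.g (nat_lit 3237) (.e (nat_lit 1800) (nat_lit 119) (.e (nat_lit 516119) (nat_lit 1) (.e (nat_lit 164401) (nat_lit 256) (.e (nat_lit 57378) (nat_lit 3) (.e (nat_lit 98358) (nat_lit 26) (.e (nat_lit 426131) (nat_lit 3) (.e (nat_lit 204838) (nat_lit 20) (.e (nat_lit 114708) (nat_lit 20) .nil)))))))) (.g (nat_lit 6) .nil .nil)))) (.nd (nat_lit 5) 
(.lf (nat_lit 77851) (.g (nat_lit 3164) (.e (nat_lit 1800) (nat_lit 119) (.e (nat_lit 516119) (nat_lit 1) (.e (nat_lit 164401) (nat_lit 256) (.e (nat_lit 57373) (nat_lit 2) (.e (nat_lit 90170) (nat_lit 13) (.e (nat_lit 172065) (nat_lit 3) (.e (nat_lit 204837) (nat_lit 20) (.e (nat_lit 114708) (nat_lit 20) .nil)))))))) (.g (nat_lit 5) .nil .nil))) 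
(.lf (nat_lit 77883) (.g (nat_lit 2716) (.e (nat_lit 1800) (nat_lit 119) (.e (nat_lit 516119) (nat_lit 1) (.e (nat_lit 164402) (nat_lit 256) (.e (nat_lit 57373) (nat_lit 2) (.e (nat_lit 90172) (nat_lit 14) (.e (nat_lit 180244) (nat_lit 5) (.e (nat_lit 532513) (nat_lit 3) (.e (nat_lit 114707) (nat_lit 20) .nil)))))))) (.g (nat_lit 4) .nil .nil)))))) 
(.nd (nat_lit 3) (.nd (nat_lit 4) (.nd (nat_lit 5) 
(.lf (nat_lit 77831) (.g (nat_lit 2368) (.e (nat_lit 1800) (nat_lit 119) (.e (nat_lit 516119) (nat_lit 1) (.e (nat_lit 164396) (nat_lit 256) (.e (nat_lit 57372) (nat_lit 2) (.e (nat_lit 90172) (nat_lit 14) (.e (nat_lit 180244) (nat_lit 5) (.e (nat_lit 532513) (nat_lit 3) (.e (nat_lit 114707) (nat_lit 20) .nil)))))))) (.g (nat_lit 4) .nil .nil))) 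
(.lf (nat_lit 77863) (.g (nat_lit 2651) (.e (nat_lit 1800) (nat_lit 119) (.e (nat_lit 516119) (nat_lit 1) (.e (nat_lit 164401) (nat_lit 256) (.e (nat_lit 57378) (nat_lit 3) (.e (nat_lit 98355) (nat_lit 26) (.e (nat_lit 426131) (nat_lit 3) (.e (nat_lit 204837) (nat_lit 20) (.e (nat_lit 114708) (nat_lit 20) .nil)))))))) (.g (nat_lit 4) .nil .nil)))) (.nd (nat_lit 5) 
(.lf (nat_lit 77847) (.g (nat_lit 2526) (.e (nat_lit 1800) (nat_lit 119) (.e (nat_lit 516119) (nat_lit 1) (.e (nat_lit 164401) (nat_lit 256) (.e (nat_lit 57371) (nat_lit 2) (.e (nat_lit 90172) (nat_lit 14) (.e (nat_lit 180244) (nat_lit 5) (.e (nat_lit 532513) (nat_lit 3) (.e (nat_lit 114708) (nat_lit 20) .nil)))))))) (.g (nat_lit 4) .nil .nil))) 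
(.lf (nat_lit 77879) (.g (nat_lit 3696) (.e (nat_lit 1800) (nat_lit 119) (.e (nat_lit 516119) (nat_lit 1) (.e (nat_lit 164402) (nat_lit 256) (.e (nat_lit 57371) (nat_lit 2) (.e (nat_lit 90174) (nat_lit 14) (.e (nat_lit 180243) (nat_lit 5) (.e (nat_lit 532513) (nat_lit 3) (.e (nat_lit 114707) (nat_lit 20) .nil)))))))) (.g (nat_lit 5) .nil .nil))))) (.nd (nat_lit 4) (.nd (nat_lit 5) 
(.lf (nat_lit 77839) (.g (nat_lit 2652) (.e (nat_lit 1800) (nat_lit 119) (.e (nat_lit 516119) (nat_lit 1) (.e (nat_lit 164396) (nat_lit 256) (.e (nat_lit 57375) (nat_lit 2) (.e (nat_lit 90174) (nat_lit 14) (.e (nat_lit 180243) (nat_lit 5) (.e (nat_lit 532513) (nat_lit 3) (.e (nat_lit 114707) (nat_lit 20) .nil)))))))) (.g (nat_lit 4) .nil .nil))) 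
(.lf (nat_lit 77871) (.g (nat_lit 2604) (.e (nat_lit 1800) (nat_lit 119) (.e (nat_lit 516119) (nat_lit 1) (.e (nat_lit 164402) (nat_lit 256) (.e (nat_lit 57371) (nat_lit 2) (.e (nat_lit 90167) (nat_lit 13) (.e (nat_lit 172067) (nat_lit 3) (.e (nat_lit 204838) (nat_lit 20) (.e (nat_lit 114708) (nat_lit 20) .nil)))))))) (.g (nat_lit 4) .nil .nil)))) (.nd (nat_lit 5) 
(.lf (nat_lit 77855) (.g (nat_lit 3058) (.e (nat_lit 1800) (nat_lit 119) (.e (nat_lit 516119) (nat_lit 1) (.e (nat_lit 164401) (nat_lit 256) (.e (nat_lit 57373) (nat_lit 2) (.e (nat_lit 90172) (nat_lit 14) (.e (nat_lit 180244) (nat_lit 5) (.e (nat_lit 532513) (nat_lit 3) (.e (nat_lit 114707) (nat_lit 20) .nil)))))))) (.g (nat_lit 5) .nil .nil))) 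
(.lf (nat_lit 77887) (.g (nat_lit 4068) (.e (nat_lit 1800) (nat_lit 119) (.e (nat_lit 516119) (nat_lit 1) (.e (nat_lit 164402) (nat_lit 256) (.e (nat_lit 57373) (nat_lit 2) (.e (nat_lit 90174) (nat_lit 14) (.e (nat_lit 180243) (nat_lit 5) (.e (nat_lit 532513) (nat_lit 3) (.e (nat_lit 114708) (nat_lit 20) .nil)))))))) (.g (nat_lit 6) .nil .nil)))))))))

noncomputable def tv1054 : DT := (.nd (nat_lit 0) (.nd (nat_lit 1) (.nd (nat_lit 2) (.nd (nat_lit 3) (.nd (nat_lit 4) (.nd (nat_lit 5) 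
(.lf (nat_lit 77888) (.g (nat_lit 2924) (.e (nat_lit 1800) (nat_lit 119) (.e (nat_lit 516119) (nat_lit 1) (.e (nat_lit 164402) (nat_lit 256) (.e (nat_lit 57373) (nat_lit 2) (.e (nat_lit 90174) (nat_lit 14) (.e (nat_lit 180243) (nat_lit 5) (.e (nat_lit 532515) (nat_lit 3) (.e (nat_lit 114708) (nat_lit 20) .nil)))))))) (.g (nat_lit 5) .nil .nil))) 
(.lf (nat_lit 77920) (.g (nat_lit 3774) (.e (nat_lit 1800) (nat_lit 119) (.e (nat_lit 516119) (nat_lit 1) (.e (nat_lit 164403) (nat_lit 256) (.e (nat_lit 57371) (nat_lit 2) (.e (nat_lit 90174) (nat_lit 14) (.e (nat_lit 180243) (nat_lit 5) (.e (nat_lit 532515) (nat_lit 3) (.e (nat_lit 114708) (nat_lit 20) .nil)))))))) (.g (nat_lit 6) .nil .nil)))) (.nd (nat_lit 5) 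
(.lf (nat_lit 77904) (.g (nat_lit 3434) (.e (nat_lit 1800) (nat_lit 119) (.e (nat_lit 516119) (nat_lit 1) (.e (nat_lit 164403) (nat_lit 256) (.e (nat_lit 57370) (nat_lit 2) (.e (nat_lit 90174) (nat_lit 14) (.e (nat_lit 180243) (nat_lit 5) (.e (nat_lit 532513) (nat_lit 3) (.e (nat_lit 114708) (nat_lit 20) .nil)))))))) (.g (nat_lit 6) .nil .nil))) 
(.lf (nat_lit 77936) (.g (nat_lit 4197) (.e (nat_lit 1800) (nat_lit 119) (.e (nat_lit 516119) (nat_lit 1) (.e (nat_lit 164403) (nat_lit 256) (.e (nat_lit 57373) (nat_lit 2) (.e (nat_lit 90172) (nat_lit 14) (.e (nat_lit 180244) (nat_lit 5) (.e (nat_lit 532515) (nat_lit 3) (.e (nat_lit 114708) (nat_lit 20) .nil)))))))) (.g (nat_lit 6) .nil .nil))))) (.nd (nat_lit 4) (.nd (nat_lit 5) 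
(.lf (nat_lit 77896) (.g (nat_lit 3591) (.e (nat_lit 1800) (nat_lit 119) (.e (nat_lit 516119) (nat_lit 1) (.e (nat_lit 164403) (nat_lit 256) (.e (nat_lit 57370) (nat_lit 2) (.e (nat_lit 90170) (nat_lit 13) (.e (nat_lit 172065) (nat_lit 3) (.e (nat_lit 204838) (nat_lit 20) (.e (nat_lit 114708) (nat_lit 20) .nil)))))))) (.g (nat_lit 5) .nil .nil))) 
(.lf (nat_lit 77928) (.g (nat_lit 2609) (.e (nat_lit 1800) (nat_lit 119) (.e (nat_lit 516119) (nat_lit 1) (.e (nat_lit 164403) (nat_lit 256) (.e (nat_lit 57373) (nat_lit 2) (.e (nat_lit 90170) (nat_lit 13) (.e (nat_lit 172067) (nat_lit 3) (.e (nat_lit 204838) (nat_lit 20) (.e (nat_lit 114707) (nat_lit 20) .nil)))))))) (.g (nat_lit 4) .nil .nil)))) (.nd (nat_lit 5) 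
(.lf (nat_lit 77912) (.g (nat_lit 3673) (.e (nat_lit 1800) (nat_lit 119) (.e (nat_lit 516119) (nat_lit 1) (.e (nat_lit 164403) (nat_lit 256) (.e (nat_lit 57371) (nat_lit 2) (.e (nat_lit 90172) (nat_lit 14) (.e (nat_lit 180244) (nat_lit 5) (.e (nat_lit 532513) (nat_lit 3) (.e (nat_lit 114707) (nat_lit 20) .nil)))))))) (.g (nat_lit 5) .nil .nil))) 
(.lf (nat_lit 77944) (.g (nat_lit 3461) (.e (nat_lit 1800) (nat_lit 119) (.e (nat_lit 516119) (nat_lit 1) (.e (nat_lit 164403) (nat_lit 256) (.e (nat_lit 57377) (nat_lit 3) (.e (nat_lit 98357) (nat_lit 26) (.e (nat_lit 426131) (nat_lit 3) (.e (nat_lit 204837) (nat_lit 20) (.e (nat_lit 114708) (nat_lit 20) .nil)))))))) (.g (nat_lit 6) .nil .nil)))))) 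
(.nd (nat_lit 3) (.nd (nat_lit 4) (.nd (nat_lit 5) 
(.lf (nat_lit 77892) (.g (nat_lit 2014) (.e (nat_lit 1800) (nat_lit 119) (.e (nat_lit 516119) (nat_lit 1) (.e (nat_lit 164403) (nat_lit 256) (.e (nat_lit 57370) (nat_lit 2) (.e (nat_lit 90167) (nat_lit 13) (.e (nat_lit 172067) (nat_lit 3) (.e (nat_lit 204838) (nat_lit 20) (.e (nat_lit 114708) (nat_lit 20) .nil)))))))) (.g (nat_lit 4) .nil .nil))) 
(.lf (nat_lit 77924) (.g (nat_lit 2265) (.e (nat_lit 1800) (nat_lit 119) (.e (nat_lit 516119) (nat_lit 1) (.e (nat_lit 164403) (nat_lit 256) (.e (nat_lit 57373) (nat_lit 2) (.e (nat_lit 90170) (nat_lit 13) (.e (nat_lit 172065) (nat_lit 3) (.e (nat_lit 204838) (nat_lit 20) (.e (nat_lit 114707) (nat_lit 20) .nil)))))))) (.g (nat_lit 4) .nil .nil)))) (.nd (nat_lit 5) 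
(.lf (nat_lit 77908) (.g (nat_lit 2693) (.e (nat_lit 1800) (nat_lit 119) (.e (nat_lit 516119) (nat_lit 1) (.e (nat_lit 164403) (nat_lit 256) (.e (nat_lit 57371) (nat_lit 2) (.e (nat_lit 90167) (nat_lit 13) (.e (nat_lit 172067) (nat_lit 3) (.e (nat_lit 204837) (nat_lit 20) (.e (nat_lit 114707) (nat_lit 20) .nil)))))))) (.g (nat_lit 4) .nil .nil))) 
(.lf (nat_lit 77940) (.g (nat_lit 3376) (.e (nat_lit 1800) (nat_lit 119) (.e (nat_lit 516119) (nat_lit 1) (.e (nat_lit 164403) (nat_lit 256) (.e (nat_lit 57373) (nat_lit 2) (.e (nat_lit 90174) (nat_lit 14) (.e (nat_lit 180243) (nat_lit 5) (.e (nat_lit 532515) (nat_lit 3) (.e (nat_lit 114707) (nat_lit 20) .nil)))))))) (.g (nat_lit 5) .nil .nil))))) (.nd (nat_lit 4) (.nd (nat_lit 5) 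
(.lf (nat_lit 77900) (.g (nat_lit 3723) (.e (nat_lit 1800) (nat_lit 119) (.e (nat_lit 516119) (nat_lit 1) (.e (nat_lit 164403) (nat_lit 256) (.e (nat_lit 57370) (nat_lit 2) (.e (nat_lit 90172) (nat_lit 14) (.e (nat_lit 180244) (nat_lit 5) (.e (nat_lit 532513) (nat_lit 3) (.e (nat_lit 114708) (nat_lit 20) .nil)))))))) (.g (nat_lit 6) .nil .nil))) 
(.lf (nat_lit 77932) (.g (nat_lit 4214) (.e (nat_lit 1800) (nat_lit 119) (.e (nat_lit 516119) (nat_lit 1) (.e (nat_lit 164403) (nat_lit 256) (.e (nat_lit 57373) (nat_lit 2) (.e (nat_lit 90172) (nat_lit 14) (.e (nat_lit 180244) (nat_lit 5) (.e (nat_lit 532513) (nat_lit 3) (.e (nat_lit 114707) (nat_lit 20) .nil)))))))) (.g (nat_lit 6) .nil .nil)))) (.nd (nat_lit 5) 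
(.lf (nat_lit 77916) (.g (nat_lit 3618) (.e (nat_lit 1800) (nat_lit 119) (.e (nat_lit 516119) (nat_lit 1) (.e (nat_lit 164403) (nat_lit 256) (.e (nat_lit 57371) (nat_lit 2) (.e (nat_lit 90172) (nat_lit 14) (.e (nat_lit 180244) (nat_lit 5) (.e (nat_lit 532515) (nat_lit 3) (.e (nat_lit 114708) (nat_lit 20) .nil)))))))) (.g (nat_lit 6) .nil .nil))) 
(.lf (nat_lit 77948) (.g (nat_lit 4036) (.e (nat_lit 1800) (nat_lit 119) (.e (nat_lit 516119) (nat_lit 1) (.e (nat_lit 164403) (nat_lit 256) (.e (nat_lit 57378) (nat_lit 3) (.e (nat_lit 98356) (nat_lit 26) (.e (nat_lit 426131) (nat_lit 3) (.e (nat_lit 204837) (nat_lit 20) (.e (nat_lit 114708) (nat_lit 20) .nil)))))))) (.g (nat_lit 6) .nil .nil))))))) 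
(.nd (nat_lit 2) (.nd (nat_lit 3) (.nd (nat_lit 4) (.nd (nat_lit 5) 
(.lf (nat_lit 77890) (.g (nat_lit 2881) (.e (nat_lit 1800) (nat_lit 119) (.e (nat_lit 516119) (nat_lit 1) (.e (nat_lit 164402) (nat_lit 256) (.e (nat_lit 57377) (nat_lit 3) (.e (nat_lit 98357) (nat_lit 26) (.e (nat_lit 426131) (nat_lit 3) (.e (nat_lit 204838) (nat_lit 20) (.e (nat_lit 114708) (nat_lit 20) .nil)))))))) (.g (nat_lit 4) .nil .nil))) 
(.lf (nat_lit 77922) (.g (nat_lit 2288) (.e (nat_lit 1800) (nat_lit 119) (.e (nat_lit 516119) (nat_lit 1) (.e (nat_lit 164403) (nat_lit 256) (.e (nat_lit 57373) (nat_lit 2) (.e (nat_lit 90170) (nat_lit 13) (.e (nat_lit 172065) (nat_lit 3) (.e (nat_lit 204837) (nat_lit 20) (.e (nat_lit 114707) (nat_lit 20) .nil)))))))) (.g (nat_lit 4) .nil .nil)))) (.nd (nat_lit 5) 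
(.lf (nat_lit 77906) (.g (nat_lit 2311) (.e (nat_lit 1800) (nat_lit 119) (.e (nat_lit 516119) (nat_lit 1) (.e (nat_lit 164403) (nat_lit 256) (.e (nat_lit 57371) (nat_lit 2) (.e (nat_lit 90167) (nat_lit 13) (.e (nat_lit 172065) (nat_lit 3) (.e (nat_lit 204837) (nat_lit 20) (.e (nat_lit 114708) (nat_lit 20) .nil)))))))) (.g (nat_lit 4) .nil .nil))) 
(.lf (nat_lit 77938) (.g (nat_lit 2431) (.e (nat_lit 1800) (nat_lit 119) (.e (nat_lit 516119) (nat_lit 1) (.e (nat_lit 164403) (nat_lit 256) (.e (nat_lit 57373) (nat_lit 2) (.e (nat_lit 90174) (nat_lit 14) (.e (nat_lit 180243) (nat_lit 5) (.e (nat_lit 532513) (nat_lit 3) (.e (nat_lit 122624) (nat_lit 20) .nil)))))))) (.g (nat_lit 4) .nil .nil))))) (.nd (nat_lit 4) (.nd (nat_lit 5) 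
(.lf (nat_lit 77898) (.g (nat_lit 2479) (.e (nat_lit 1800) (nat_lit 119) (.e (nat_lit 516119) (nat_lit 1) (.e (nat_lit 164403) (nat_lit 256) (.e (nat_lit 57370) (nat_lit 2) (.e (nat_lit 90172) (nat_lit 14) (.e (nat_lit 180243) (nat_lit 5) (.e (nat_lit 532513) (nat_lit 3) (.e (nat_lit 114708) (nat_lit 20) .nil)))))))) (.g (nat_lit 4) .nil .nil))) 
(.lf (nat_lit 77930) (.g (nat_lit 3563) (.e (nat_lit 1800) (nat_lit 119) (.e (nat_lit 516119) (nat_lit 1) (.e (nat_lit 164403) (nat_lit 256) (.e (nat_lit 57373) (nat_lit 2) (.e (nat_lit 90172) (nat_lit 14) (.e (nat_lit 180243) (nat_lit 5) (.e (nat_lit 532513) (nat_lit 3) (.e (nat_lit 114707) (nat_lit 20) .nil)))))))) (.g (nat_lit 5) .nil .nil)))) (.nd (nat_lit 5) 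
(.lf (nat_lit 77914) (.g (nat_lit 3069) (.e (nat_lit 1800) (nat_lit 119) (.e (nat_lit 516119) (nat_lit 1) (.e (nat_lit 164403) (nat_lit 256) (.e (nat_lit 57371) (nat_lit 2) (.e (nat_lit 90172) (nat_lit 14) (.e (nat_lit 180244) (nat_lit 5) (.e (nat_lit 532514) (nat_lit 3) (.e (nat_lit 114708) (nat_lit 20) .nil)))))))) (.g (nat_lit 5) .nil .nil))) 
(.lf (nat_lit 77946) (.g (nat_lit 3579) (.e (nat_lit 1800) (nat_lit 119) (.e (nat_lit 516119) (nat_lit 1) (.e (nat_lit 164403) (nat_lit 256) (.e (nat_lit 57378) (nat_lit 3) (.e (nat_lit 98355) (nat_lit 26) (.e (nat_lit 426131) (nat_lit 3) (.e (nat_lit 204837) (nat_lit 20) (.e (nat_lit 114708) (nat_lit 20) .nil)))))))) (.g (nat_lit 5) .nil .nil)))))) 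
(.nd (nat_lit 3) (.nd (nat_lit 4) (.nd (nat_lit 5) 
(.lf (nat_lit 77894) (.g (nat_lit 2125) (.e (nat_lit 1800) (nat_lit 119) (.e (nat_lit 516119) (nat_lit 1) (.e (nat_lit 164403) (nat_lit 256) (.e (nat_lit 57370) (nat_lit 2) (.e (nat_lit 90168) (nat_lit 13) (.e (nat_lit 172067) (nat_lit 3) (.e (nat_lit 204838) (nat_lit 20) (.e (nat_lit 114708) (nat_lit 20) .nil)))))))) (.g (nat_lit 4) .nil .nil))) 
(.lf (nat_lit 77926) (.g (nat_lit 3368) (.e (nat_lit 1800) (nat_lit 119) (.e (nat_lit 516119) (nat_lit 1) (.e (nat_lit 164403) (nat_lit 256) (.e (nat_lit 57373) (nat_lit 2) (.e (nat_lit 90170) (nat_lit 13) (.e (nat_lit 172067) (nat_lit 3) (.e (nat_lit 204837) (nat_lit 20) (.e (nat_lit 114707) (nat_lit 20) .nil)))))))) (.g (nat_lit 5) .nil .nil)))) (.nd (nat_lit 5) 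
(.lf (nat_lit 77910) (.g (nat_lit 2978) (.e (nat_lit 1800) (nat_lit 119) (.e (nat_lit 516119) (nat_lit 1) (.e (nat_lit 164403) (nat_lit 256) (.e (nat_lit 57371) (nat_lit 2) (.e (nat_lit 90168) (nat_lit 13) (.e (nat_lit 172067) (nat_lit 3) (.e (nat_lit 204838) (nat_lit 20) (.e (nat_lit 114708) (nat_lit 20) .nil)))))))) (.g (nat_lit 5) .nil .nil))) 
(.lf (nat_lit 77942) (.g (nat_lit 2492) (.e (nat_lit 1800) (nat_lit 119) (.e (nat_lit 516119) (nat_lit 1) (.e (nat_lit 164403) (nat_lit 256) (.e (nat_lit 57377) (nat_lit 3) (.e (nat_lit 98355) (nat_lit 26) .nil))))) .nil)))) (.nd (nat_lit 4) (.nd (nat_lit 5) 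
(.lf (nat_lit 77902) (.g (nat_lit 2769) (.e (nat_lit 1800) (nat_lit 119) (.e (nat_lit 516119) (nat_lit 1) (.e (nat_lit 164403) (nat_lit 256) (.e (nat_lit 57370) (nat_lit 2) (.e (nat_lit 90172) (nat_lit 14) (.e (nat_lit 180244) (nat_lit 5) (.e (nat_lit 532515) (nat_lit 3) (.e (nat_lit 114708) (nat_lit 20) .nil)))))))) (.g (nat_lit 5) .nil .nil))) 
(.lf (nat_lit 77934) (.g (nat_lit 3579) (.e (nat_lit 1800) (nat_lit 119) (.e (nat_lit 516119) (nat_lit 1) (.e (nat_lit 164403) (nat_lit 256) (.e (nat_lit 57373) (nat_lit 2) (.e (nat_lit 90172) (nat_lit 14) (.e (nat_lit 180244) (nat_lit 5) (.e (nat_lit 532514) (nat_lit 3) (.e (nat_lit 114708) (nat_lit 20) .nil)))))))) (.g (nat_lit 5) .nil .nil)))) (.nd (nat_lit 5) 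
(.lf (nat_lit 77918) (.g (nat_lit 4900) (.e (nat_lit 1800) (nat_lit 119) (.e (nat_lit 516119) (nat_lit 1) (.e (nat_lit 164403) (nat_lit 256) (.e (nat_lit 57371) (nat_lit 2) (.e (nat_lit 90174) (nat_lit 14) (.e (nat_lit 180243) (nat_lit 5) (.e (nat_lit 532513) (nat_lit 3) (.e (nat_lit 114708) (nat_lit 20) .nil)))))))) (.g (nat_lit 7) .nil .nil))) 
(.lf (nat_lit 77950) (.g (nat_lit 3149) (.e (nat_lit 1800) (nat_lit 119) (.e (nat_lit 516119) (nat_lit 1) (.e (nat_lit 164403) (nat_lit 256) (.e (nat_lit 57378) (nat_lit 3) (.e (nat_lit 98357) (nat_lit 26) (.e (nat_lit 426131) (nat_lit 3) (.e (nat_lit 204837) (nat_lit 20) (.e (nat_lit 114708) (nat_lit 20) .nil)))))))) (.g (nat_lit 4) .nil .nil)))))))) 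
(.nd (nat_lit 1) (.nd (nat_lit 2) (.nd (nat_lit 3) (.nd (nat_lit 4) (.nd (nat_lit 5) 
(.lf (nat_lit 77889) (.g (nat_lit 2625) (.e (nat_lit 1800) (nat_lit 119) (.e (nat_lit 516119) (nat_lit 1) (.e (nat_lit 164402) (nat_lit 256) (.e (nat_lit 57377) (nat_lit 3) (.e (nat_lit 98357) (nat_lit 26) (.e (nat_lit 426131) (nat_lit 3) (.e (nat_lit 204837) (nat_lit 20) (.e (nat_lit 114708) (nat_lit 20) .nil)))))))) (.g (nat_lit 4) .nil .nil))) 
(.lf (nat_lit 77921) (.g (nat_lit 3415) (.e (nat_lit 1800) (nat_lit 119) (.e (nat_lit 516119) (nat_lit 1) (.e (nat_lit 164403) (nat_lit 256) (.e (nat_lit 57373) (nat_lit 2) (.e (nat_lit 90168) (nat_lit 13) (.e (nat_lit 172067) (nat_lit 3) (.e (nat_lit 204838) (nat_lit 20) (.e (nat_lit 114708) (nat_lit 20) .nil)))))))) (.g (nat_lit 5) .nil .nil)))) (.nd (nat_lit 5) 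
(.lf (nat_lit 77905) (.g (nat_lit 2287) (.e (nat_lit 1800) (nat_lit 119) (.e (nat_lit 516119) (nat_lit 1) (.e (nat_lit 164403) (nat_lit 256) (.e (nat_lit 57370) (nat_lit 2) (.e (nat_lit 90174) (nat_lit 14) (.e (nat_lit 180243) (nat_lit 5) (.e (nat_lit 532515) (nat_lit 3) (.e (nat_lit 114708) (nat_lit 20) .nil)))))))) (.g (nat_lit 4) .nil .nil))) 
(.lf (nat_lit 77937) (.g (nat_lit 4787) (.e (nat_lit 1800) (nat_lit 119) (.e (nat_lit 516119) (nat_lit 1) (.e (nat_lit 164403) (nat_lit 256) (.e (nat_lit 57373) (nat_lit 2) (.e (nat_lit 90174) (nat_lit 14) (.e (nat_lit 180243) (nat_lit 5) (.e (nat_lit 532513) (nat_lit 3) (.e (nat_lit 114707) (nat_lit 20) .nil)))))))) (.g (nat_lit 7) .nil .nil))))) (.nd (nat_lit 4) (.nd (nat_lit 5) 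
(.lf (nat_lit 77897) (.g (nat_lit 3456) (.e (nat_lit 1800) (nat_lit 119) (.e (nat_lit 516119) (nat_lit 1) (.e (nat_lit 164403) (nat_lit 256) (.e (nat_lit 57370) (nat_lit 2) (.e (nat_lit 90170) (nat_lit 13) (.e (nat_lit 172067) (nat_lit 3) (.e (nat_lit 204837) (nat_lit 20) (.e (nat_lit 114708) (nat_lit 20) .nil)))))))) (.g (nat_lit 5) .nil .nil))) 
(.lf (nat_lit 77929) (.g (nat_lit 4712) (.e (nat_lit 1800) (nat_lit 119) (.e (nat_lit 516119) (nat_lit 1) (.e (nat_lit 164403) (nat_lit 256) (.e (nat_lit 57373) (nat_lit 2) (.e (nat_lit 90170) (nat_lit 13) (.e (nat_lit 172067) (nat_lit 3) (.e (nat_lit 204838) (nat_lit 20) (.e (nat_lit 114708) (nat_lit 20) .nil)))))))) (.g (nat_lit 7) .nil .nil)))) (.nd (nat_lit 5) 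
(.lf (nat_lit 77913) (.g (nat_lit 4525) (.e (nat_lit 1800) (nat_lit 119) (.e (nat_lit 516119) (nat_lit 1) (.e (nat_lit 164403) (nat_lit 256) (.e (nat_lit 57371) (nat_lit 2) (.e (nat_lit 90172) (nat_lit 14) (.e (nat_lit 180244) (nat_lit 5) (.e (nat_lit 532513) (nat_lit 3) (.e (nat_lit 114708) (nat_lit 20) .nil)))))))) (.g (nat_lit 7) .nil .nil))) 
(.lf (nat_lit 77945) (.g (nat_lit 3717) (.e (nat_lit 1800) (nat_lit 119) (.e (nat_lit 516119) (nat_lit 1) (.e (nat_lit 164403) (nat_lit 256) (.e (nat_lit 57377) (nat_lit 3) (.e (nat_lit 98357) (nat_lit 26) (.e (nat_lit 426131) (nat_lit 3) (.e (nat_lit 204838) (nat_lit 20) (.e (nat_lit 114708) (nat_lit 20) .nil)))))))) (.g (nat_lit 6) .nil .nil)))))) 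
(.nd (nat_lit 3) (.nd (nat_lit 4) (.nd (nat_lit 5) 
(.lf (nat_lit 77893) (.g (nat_lit 2473) (.e (nat_lit 1800) (nat_lit 119) (.e (nat_lit 516119) (nat_lit 1) (.e (nat_lit 164403) (nat_lit 256) (.e (nat_lit 57370) (nat_lit 2) (.e (nat_lit 90168) (nat_lit 13) (.e (nat_lit 172067) (nat_lit 3) (.e (nat_lit 204837) (nat_lit 20) (.e (nat_lit 114708) (nat_lit 20) .nil)))))))) (.g (nat_lit 4) .nil .nil))) 
(.lf (nat_lit 77925) (.g (nat_lit 4368) (.e (nat_lit 1800) (nat_lit 119) (.e (nat_lit 516119) (nat_lit 1) (.e (nat_lit 164403) (nat_lit 256) (.e (nat_lit 57373) (nat_lit 2) (.e (nat_lit 90170) (nat_lit 13) (.e (nat_lit 172065) (nat_lit 3) (.e (nat_lit 204838) (nat_lit 20) (.e (nat_lit 114708) (nat_lit 20) .nil)))))))) (.g (nat_lit 7) .nil .nil)))) (.nd (nat_lit 5) 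
(.lf (nat_lit 77909) (.g (nat_lit 4295) (.e (nat_lit 1800) (nat_lit 119) (.e (nat_lit 516119) (nat_lit 1) (.e (nat_lit 164403) (nat_lit 256) (.e (nat_lit 57371) (nat_lit 2) (.e (nat_lit 90167) (nat_lit 13) (.e (nat_lit 172067) (nat_lit 3) (.e (nat_lit 204837) (nat_lit 20) (.e (nat_lit 114708) (nat_lit 20) .nil)))))))) (.g (nat_lit 6) .nil .nil))) 
(.lf (nat_lit 77941) (.g (nat_lit 4194) (.e (nat_lit 1800) (nat_lit 119) (.e (nat_lit 516119) (nat_lit 1) (.e (nat_lit 164403) (nat_lit 256) (.e (nat_lit 57373) (nat_lit 2) (.e (nat_lit 90174) (nat_lit 14) (.e (nat_lit 180243) (nat_lit 5) (.e (nat_lit 532515) (nat_lit 3) (.e (nat_lit 114708) (nat_lit 20) .nil)))))))) (.g (nat_lit 7) .nil .nil))))) (.nd (nat_lit 4) (.nd (nat_lit 5) 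
(.lf (nat_lit 77901) (.g (nat_lit 2196) (.e (nat_lit 1800) (nat_lit 119) (.e (nat_lit 516119) (nat_lit 1) (.e (nat_lit 164403) (nat_lit 256) (.e (nat_lit 57370) (nat_lit 2) (.e (nat_lit 90172) (nat_lit 14) (.e (nat_lit 180244) (nat_lit 5) (.e (nat_lit 532514) (nat_lit 3) (.e (nat_lit 114708) (nat_lit 20) .nil)))))))) (.g (nat_lit 4) .nil .nil))) 
(.lf (nat_lit 77933) (.g (nat_lit 5066) (.e (nat_lit 1800) (nat_lit 119) (.e (nat_lit 516119) (nat_lit 1) (.e (nat_lit 164403) (nat_lit 256) (.e (nat_lit 57373) (nat_lit 2) (.e (nat_lit 90172) (nat_lit 14) (.e (nat_lit 180244) (nat_lit 5) (.e (nat_lit 532513) (nat_lit 3) (.e (nat_lit 114708) (nat_lit 20) .nil)))))))) (.g (nat_lit 7) .nil .nil)))) (.nd (nat_lit 5) 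
(.lf (nat_lit 77917) (.g (nat_lit 4349) (.e (nat_lit 1800) (nat_lit 119) (.e (nat_lit 516119) (nat_lit 1) (.e (nat_lit 164403) (nat_lit 256) (.e (nat_lit 57371) (nat_lit 2) (.e (nat_lit 90174) (nat_lit 14) (.e (nat_lit 180243) (nat_lit 5) (.e (nat_lit 532513) (nat_lit 3) (.e (nat_lit 114707) (nat_lit 20) .nil)))))))) (.g (nat_lit 6) .nil .nil))) 
(.lf (nat_lit 77949) (.g (nat_lit 4292) (.e (nat_lit 1800) (nat_lit 119) (.e (nat_lit 516119) (nat_lit 1) (.e (nat_lit 164403) (nat_lit 256) (.e (nat_lit 57378) (nat_lit 3) (.e (nat_lit 98356) (nat_lit 26) (.e (nat_lit 426131) (nat_lit 3) (.e (nat_lit 204838) (nat_lit 20) (.e (nat_lit 114708) (nat_lit 20) .nil)))))))) (.g (nat_lit 6) .nil .nil))))))) 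
(.nd (nat_lit 2) (.nd (nat_lit 3) (.nd (nat_lit 4) (.nd (nat_lit 5) 
(.lf (nat_lit 77891) (.g (nat_lit 2248) (.e (nat_lit 1800) (nat_lit 119) (.e (nat_lit 516119) (nat_lit 1) (.e (nat_lit 164403) (nat_lit 256) (.e (nat_lit 57370) (nat_lit 2) (.e (nat_lit 90167) (nat_lit 13) (.e (nat_lit 172067) (nat_lit 3) (.e (nat_lit 204837) (nat_lit 20) (.e (nat_lit 114708) (nat_lit 20) .nil)))))))) (.g (nat_lit 4) .nil .nil))) 
(.lf (nat_lit 77923) (.g (nat_lit 4233) (.e (nat_lit 1800) (nat_lit 119) (.e (nat_lit 516119) (nat_lit 1) (.e (nat_lit 164403) (nat_lit 256) (.e (nat_lit 57373) (nat_lit 2) (.e (nat_lit 90170) (nat_lit 13) (.e (nat_lit 172065) (nat_lit 3) (.e (nat_lit 204837) (nat_lit 20) (.e (nat_lit 114708) (nat_lit 20) .nil)))))))) (.g (nat_lit 7) .nil .nil)))) (.nd (nat_lit 5) 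
(.lf (nat_lit 77907) (.g (nat_lit 2699) (.e (nat_lit 1800) (nat_lit 119) (.e (nat_lit 516119) (nat_lit 1) (.e (nat_lit 164403) (nat_lit 256) (.e (nat_lit 57371) (nat_lit 2) (.e (nat_lit 90167) (nat_lit 13) (.e (nat_lit 172065) (nat_lit 3) (.e (nat_lit 204838) (nat_lit 20) (.e (nat_lit 114708) (nat_lit 20) .nil)))))))) (.g (nat_lit 5) .nil .nil))) 
(.lf (nat_lit 77939) (.g (nat_lit 2410) (.e (nat_lit 1800) (nat_lit 119) (.e (nat_lit 516119) (nat_lit 1) (.e (nat_lit 164403) (nat_lit 256) (.e (nat_lit 57373) (nat_lit 2) (.e (nat_lit 90174) (nat_lit 14) (.e (nat_lit 180243) (nat_lit 5) (.e (nat_lit 532514) (nat_lit 3) (.e (nat_lit 114708) (nat_lit 20) .nil)))))))) (.g (nat_lit 4) .nil .nil))))) (.nd (nat_lit 4) (.nd (nat_lit 5) 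
(.lf (nat_lit 77899) (.g (nat_lit 2871) (.e (nat_lit 1800) (nat_lit 119) (.e (nat_lit 516119) (nat_lit 1) (.e (nat_lit 164403) (nat_lit 256) (.e (nat_lit 57370) (nat_lit 2) (.e (nat_lit 90172) (nat_lit 14) (.e (nat_lit 180244) (nat_lit 5) (.e (nat_lit 532513) (nat_lit 3) (.e (nat_lit 114707) (nat_lit 20) .nil)))))))) (.g (nat_lit 4) .nil .nil))) 
(.lf (nat_lit 77931) (.g (nat_lit 4280) (.e (nat_lit 1800) (nat_lit 119) (.e (nat_lit 516119) (nat_lit 1) (.e (nat_lit 164403) (nat_lit 256) (.e (nat_lit 57373) (nat_lit 2) (.e (nat_lit 90172) (nat_lit 14) (.e (nat_lit 180243) (nat_lit 5) (.e (nat_lit 532513) (nat_lit 3) (.e (nat_lit 114708) (nat_lit 20) .nil)))))))) (.g (nat_lit 5) .nil .nil)))) (.nd (nat_lit 5) 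
(.lf (nat_lit 77915) (.g (nat_lit 2736) (.e (nat_lit 1800) (nat_lit 119) (.e (nat_lit 516119) (nat_lit 1) (.e (nat_lit 164403) (nat_lit 256) (.e (nat_lit 57371) (nat_lit 2) (.e (nat_lit 90172) (nat_lit 14) (.e (nat_lit 180244) (nat_lit 5) (.e (nat_lit 532515) (nat_lit 3) (.e (nat_lit 114707) (nat_lit 20) .nil)))))))) (.g (nat_lit 4) .nil .nil))) 
(.lf (nat_lit 77947) (.g (nat_lit 3835) (.e (nat_lit 1800) (nat_lit 119) (.e (nat_lit 516119) (nat_lit 1) (.e (nat_lit 164403) (nat_lit 256) (.e (nat_lit 57378) (nat_lit 3) (.e (nat_lit 98355) (nat_lit 26) (.e (nat_lit 426131) (nat_lit 3) (.e (nat_lit 204838) (nat_lit 20) (.e (nat_lit 114708) (nat_lit 20) .nil)))))))) (.g (nat_lit 5) .nil .nil)))))) 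
(.nd (nat_lit 3) (.nd (nat_lit 4) (.nd (nat_lit 5) 
(.lf (nat_lit 77895) (.g (nat_lit 3399) (.e (nat_lit 1800) (nat_lit 119) (.e (nat_lit 516119) (nat_lit 1) (.e (nat_lit 164403) (nat_lit 256) (.e (nat_lit 57370) (nat_lit 2) (.e (nat_lit 90170) (nat_lit 13) (.e (nat_lit 172065) (nat_lit 3) (.e (nat_lit 204837) (nat_lit 20) (.e (nat_lit 114708) (nat_lit 20) .nil)))))))) (.g (nat_lit 5) .nil .nil))) 
(.lf (nat_lit 77927) (.g (nat_lit 4953) (.e (nat_lit 1800) (nat_lit 119) (.e (nat_lit 516119) (nat_lit 1) (.e (nat_lit 164403) (nat_lit 256) (.e (nat_lit 57373) (nat_lit 2) (.e (nat_lit 90170) (nat_lit 13) (.e (nat_lit 172067) (nat_lit 3) (.e (nat_lit 204837) (nat_lit 20) (.e (nat_lit 114708) (nat_lit 20) .nil)))))))) (.g (nat_lit 7) .nil .nil)))) (.nd (nat_lit 5) 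
(.lf (nat_lit 77911) (.g (nat_lit 3669) (.e (nat_lit 1800) (nat_lit 119) (.e (nat_lit 516119) (nat_lit 1) (.e (nat_lit 164403) (nat_lit 256) (.e (nat_lit 57371) (nat_lit 2) (.e (nat_lit 90172) (nat_lit 14) (.e (nat_lit 180243) (nat_lit 5) (.e (nat_lit 532513) (nat_lit 3) (.e (nat_lit 114707) (nat_lit 20) .nil)))))))) (.g (nat_lit 5) .nil .nil))) 
(.lf (nat_lit 77943) (.g (nat_lit 2602) (.e (nat_lit 1800) (nat_lit 119) (.e (nat_lit 516119) (nat_lit 1) (.e (nat_lit 164403) (nat_lit 256) (.e (nat_lit 57377) (nat_lit 3) (.e (nat_lit 98355) (nat_lit 26) (.e (nat_lit 426131) (nat_lit 3) (.e (nat_lit 204838) (nat_lit 20) (.e (nat_lit 114708) (nat_lit 20) .nil)))))))) (.g (nat_lit 4) .nil .nil))))) (.nd (nat_lit 4) (.nd (nat_lit 5) 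
(.lf (nat_lit 77903) (.g (nat_lit 2883) (.e (nat_lit 1800) (nat_lit 119) (.e (nat_lit 516119) (nat_lit 1) (.e (nat_lit 164403) (nat_lit 256) (.e (nat_lit 57370) (nat_lit 2) (.e (nat_lit 90174) (nat_lit 14) (.e (nat_lit 180243) (nat_lit 5) (.e (nat_lit 532513) (nat_lit 3) (.e (nat_lit 114707) (nat_lit 20) .nil)))))))) (.g (nat_lit 4) .nil .nil))) 
(.lf (nat_lit 77935) (.g (nat_lit 3315) (.e (nat_lit 1800) (nat_lit 119) (.e (nat_lit 516119) (nat_lit 1) (.e (nat_lit 164403) (nat_lit 256) (.e (nat_lit 57373) (nat_lit 2) (.e (nat_lit 90172) (nat_lit 14) (.e (nat_lit 180244) (nat_lit 5) (.e (nat_lit 532515) (nat_lit 3) (.e (nat_lit 114707) (nat_lit 20) .nil)))))))) (.g (nat_lit 5) .nil .nil)))) (.nd (nat_lit 5) 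
(.lf (nat_lit 77919) (.g (nat_lit 2956) (.e (nat_lit 1800) (nat_lit 119) (.e (nat_lit 516119) (nat_lit 1) (.e (nat_lit 164403) (nat_lit 256) (.e (nat_lit 57371) (nat_lit 2) (.e (nat_lit 90174) (nat_lit 14) (.e (nat_lit 180243) (nat_lit 5) (.e (nat_lit 532515) (nat_lit 3) (.e (nat_lit 114707) (nat_lit 20) .nil)))))))) (.g (nat_lit 5) .nil .nil))) 
(.lf (nat_lit 77951) (.g (nat_lit 3405) (.e (nat_lit 1800) (nat_lit 119) (.e (nat_lit 516119) (nat_lit 1) (.e (nat_lit 164403) (nat_lit 256) (.e (nat_lit 57378) (nat_lit 3) (.e (nat_lit 98357) (nat_lit 26) (.e (nat_lit 426131) (nat_lit 3) (.e (nat_lit 204838) (nat_lit 20) (.e (nat_lit 114708) (nat_lit 20) .nil)))))))) (.g (nat_lit 4) .nil .nil)))))))))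

noncomputable def tv1055 : DT := (.nd (nat_lit 0) (.nd (nat_lit 1) (.nd (nat_lit 2) (.nd (nat_lit 3) (.nd (nat_lit 4) (.nd (nat_lit 5) 
(.lf (nat_lit 77952) (.g (nat_lit 2217) (.e (nat_lit 1800) (nat_lit 119) (.e (nat_lit 516119) (nat_lit 1) (.e (nat_lit 164403) (nat_lit 256) (.e (nat_lit 57378) (nat_lit 3) (.e (nat_lit 98358) (nat_lit 26) (.e (nat_lit 426131) (nat_lit 3) (.e (nat_lit 204837) (nat_lit 20) (.e (nat_lit 114707) (nat_lit 20) .nil)))))))) (.g (nat_lit 4) .nil .nil))) 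
(.lf (nat_lit 77984) (.g (nat_lit 1940) (.e (nat_lit 1800) (nat_lit 119) (.e (nat_lit 516120) (nat_lit 1) (.e (nat_lit 164330) (nat_lit 230) (.e (nat_lit 163840) (nat_lit 0) .nil)))) .nil))) (.nd (nat_lit 5) 
(.lf (nat_lit 77968) (.g (nat_lit 2109) (.e (nat_lit 1800) (nat_lit 119) (.e (nat_lit 516120) (nat_lit 1) (.e (nat_lit 164329) (nat_lit 230) (.e (nat_lit 163902) (nat_lit 12) (.e (nat_lit 426479) (nat_lit 27) (.e (nat_lit 336430) (nat_lit 29) (.e (nat_lit 442377) (nat_lit 0) .nil))))))) (.g (nat_lit 4) .nil .nil))) 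
(.lf (nat_lit 78000) (.g (nat_lit 3376) (.e (nat_lit 1800) (nat_lit 119) (.e (nat_lit 516120) (nat_lit 1) (.e (nat_lit 164330) (nat_lit 230) (.e (nat_lit 163869) (nat_lit 2) (.e (nat_lit 196654) (nat_lit 11) (.e (nat_lit 16416) (nat_lit 3) (.e (nat_lit 204837) (nat_lit 20) (.e (nat_lit 114708) (nat_lit 20) .nil)))))))) (.g (nat_lit 5) .nil .nil))))) (.nd (nat_lit 4) (.nd (nat_lit 5) 
(.lf (nat_lit 77960) (.g (nat_lit 2967) (.e (nat_lit 1800) (nat_lit 119) (.e (nat_lit 516119) (nat_lit 1) (.e (nat_lit 164403) (nat_lit 256) (.e (nat_lit 57378) (nat_lit 3) (.e (nat_lit 98377) (nat_lit 30) (.e (nat_lit 458789) (nat_lit 23) (.e (nat_lit 532515) (nat_lit 3) (.e (nat_lit 114708) (nat_lit 20) .nil)))))))) (.g (nat_lit 5) .nil .nil))) 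
(.lf (nat_lit 77992) (.g (nat_lit 5171) (.e (nat_lit 1800) (nat_lit 119) (.e (nat_lit 516120) (nat_lit 1) (.e (nat_lit 164330) (nat_lit 230) (.e (nat_lit 163851) (nat_lit 0) (.e (nat_lit 3307) (nat_lit 202) (.e (nat_lit 573489) (nat_lit 14) (.e (nat_lit 73755) (nat_lit 8) (.e (nat_lit 557098) (nat_lit 13) (.e (nat_lit 172133) (nat_lit 15) .nil))))))))) (.g (nat_lit 7) .nil .nil)))) 
(.nd (nat_lit 5) 
(.lf (nat_lit 77976) (.g (nat_lit 2090) (.e (nat_lit 1800) (nat_lit 119) (.e (nat_lit 516120) (nat_lit 1) (.e (nat_lit 164329) (nat_lit 230) (.e (nat_lit 163902) (nat_lit 12) (.e (nat_lit 426568) (nat_lit 34) (.e (nat_lit 393274) (nat_lit 23) (.e (nat_lit 426412) (nat_lit 15) .nil))))))) (.g (nat_lit 4) .nil .nil))) 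
(.lf (nat_lit 78008) (.g (nat_lit 2301) (.e (nat_lit 1800) (nat_lit 119) (.e (nat_lit 516120) (nat_lit 1) (.e (nat_lit 164330) (nat_lit 230) (.e (nat_lit 163874) (nat_lit 3) (.e (nat_lit 204836) (nat_lit 20) .nil))))) .nil))))) (.nd (nat_lit 3) (.nd (nat_lit 4) (.nd (nat_lit 5) 
(.lf (nat_lit 77956) (.g (nat_lit 2635) (.e (nat_lit 1800) (nat_lit 119) (.e (nat_lit 516119) (nat_lit 1) (.e (nat_lit 164403) (nat_lit 256) (.e (nat_lit 57378) (nat_lit 3) (.e (nat_lit 98366) (nat_lit 27) (.e (nat_lit 434231) (nat_lit 23) (.e (nat_lit 532513) (nat_lit 3) (.e (nat_lit 114707) (nat_lit 20) .nil)))))))) (.g (nat_lit 4) .nil .nil))) 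
(.lf (nat_lit 77988) (.g (nat_lit 2285) (.e (nat_lit 1800) (nat_lit 119) (.e (nat_lit 516120) (nat_lit 1) (.e (nat_lit 164330) (nat_lit 230) (.e (nat_lit 163850) (nat_lit 0) (.e (nat_lit 3304) (nat_lit 202) .nil))))) .nil))) (.nd (nat_lit 5) 
(.lf (nat_lit 77972) (.g (nat_lit 2023) (.e (nat_lit 1800) (nat_lit 119) (.e (nat_lit 516120) (nat_lit 1) (.e (nat_lit 164329) (nat_lit 230) (.e (nat_lit 163902) (nat_lit 12) (.e (nat_lit 426479) (nat_lit 27) (.e (nat_lit 336443) (nat_lit 32) (.e (nat_lit 474880) (nat_lit 0) .nil))))))) (.g (nat_lit 4) .nil .nil))) 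
(.lf (nat_lit 78004) (.g (nat_lit 2385) (.e (nat_lit 1800) (nat_lit 119) (.e (nat_lit 516120) (nat_lit 1) (.e (nat_lit 164330) (nat_lit 230) (.e (nat_lit 163873) (nat_lit 3) (.e (nat_lit 204809) (nat_lit 9) .nil))))) .nil)))) (.nd (nat_lit 4) (.nd (nat_lit 5) 
(.lf (nat_lit 77964) (.g (nat_lit 3722) (.e (nat_lit 1800) (nat_lit 119) (.e (nat_lit 516120) (nat_lit 1) (.e (nat_lit 164329) (nat_lit 230) (.e (nat_lit 163850) (nat_lit 0) (.e (nat_lit 3304) (nat_lit 202) (.e (nat_lit 573489) (nat_lit 14) (.e (nat_lit 73755) (nat_lit 8) (.e (nat_lit 557096) (nat_lit 13) (.e (nat_lit 172133) (nat_lit 15) .nil))))))))) (.g (nat_lit 6) .nil .nil))) 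
(.lf (nat_lit 77996) (.g (nat_lit 5251) (.e (nat_lit 1800) (nat_lit 119) (.e (nat_lit 516120) (nat_lit 1) (.e (nat_lit 164330) (nat_lit 230) (.e (nat_lit 163853) (nat_lit 0) (.e (nat_lit 3307) (nat_lit 202) (.e (nat_lit 573489) (nat_lit 14) (.e (nat_lit 73755) (nat_lit 8) (.e (nat_lit 557098) (nat_lit 13) (.e (nat_lit 172133) (nat_lit 15) .nil))))))))) (.g (nat_lit 7) .nil .nil)))) 
(.nd (nat_lit 5) 
(.lf (nat_lit 77980) (.g (nat_lit 2671) (.e (nat_lit 1800) (nat_lit 119) (.e (nat_lit 516120) (nat_lit 1) (.e (nat_lit 164329) (nat_lit 230) (.e (nat_lit 163902) (nat_lit 12) (.e (nat_lit 426568) (nat_lit 34) (.e (nat_lit 393281) (nat_lit 23) (.e (nat_lit 426387) (nat_lit 15) .nil))))))) (.g (nat_lit 5) .nil .nil))) 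
(.lf (nat_lit 78012) (.g (nat_lit 2740) (.e (nat_lit 1800) (nat_lit 119) (.e (nat_lit 516120) (nat_lit 1) (.e (nat_lit 164330) (nat_lit 230) (.e (nat_lit 163902) (nat_lit 12) (.e (nat_lit 426479) (nat_lit 27) (.e (nat_lit 336430) (nat_lit 29) (.e (nat_lit 442377) (nat_lit 0) .nil))))))) (.g (nat_lit 4) .nil .nil))))))) (.nd (nat_lit 2) (.nd (nat_lit 3) (.nd (nat_lit 4) (.nd (nat_lit 5) 
(.lf (nat_lit 77954) (.g (nat_lit 4724) (.e (nat_lit 1800) (nat_lit 119) (.e (nat_lit 516119) (nat_lit 1) (.e (nat_lit 164403) (nat_lit 256) (.e (nat_lit 57378) (nat_lit 3) (.e (nat_lit 98358) (nat_lit 26) (.e (nat_lit 426131) (nat_lit 3) (.e (nat_lit 204838) (nat_lit 20) (.e (nat_lit 114708) (nat_lit 20) .nil)))))))) (.g (nat_lit 8) .nil .nil))) 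
(.lf (nat_lit 77986) (.g (nat_lit 3595) (.e (nat_lit 1800) (nat_lit 119) (.e (nat_lit 516120) (nat_lit 1) (.e (nat_lit 164330) (nat_lit 230) (.e (nat_lit 163845) (nat_lit 0) (.e (nat_lit 3309) (nat_lit 202) (.e (nat_lit 573489) (nat_lit 14) (.e (nat_lit 73755) (nat_lit 8) (.e (nat_lit 557097) (nat_lit 13) (.e (nat_lit 172133) (nat_lit 15) .nil))))))))) (.g (nat_lit 6) .nil .nil)))) 
(.nd (nat_lit 5) 
(.lf (nat_lit 77970) (.g (nat_lit 2983) (.e (nat_lit 1800) (nat_lit 119) (.e (nat_lit 516120) (nat_lit 1) (.e (nat_lit 164329) (nat_lit 230) (.e (nat_lit 163902) (nat_lit 12) (.e (nat_lit 426479) (nat_lit 27) (.e (nat_lit 336430) (nat_lit 29) (.e (nat_lit 450304) (nat_lit 0) .nil))))))) (.g (nat_lit 6) .nil .nil))) 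
(.lf (nat_lit 78002) (.g (nat_lit 3059) (.e (nat_lit 1800) (nat_lit 119) (.e (nat_lit 516120) (nat_lit 1) (.e (nat_lit 164330) (nat_lit 230) (.e (nat_lit 163872) (nat_lit 3) (.e (nat_lit 204837) (nat_lit 20) (.e (nat_lit 114714) (nat_lit 22) (.e (nat_lit 90169) (nat_lit 13) (.e (nat_lit 172133) (nat_lit 15) .nil)))))))) (.g (nat_lit 5) .nil .nil))))) (.nd (nat_lit 4) (.nd (nat_lit 5) 
(.lf (nat_lit 77962) (.g (nat_lit 2109) (.e (nat_lit 1800) (nat_lit 119) (.e (nat_lit 516120) (nat_lit 1) (.e (nat_lit 164183) (nat_lit 154) (.e (nat_lit 57378) (nat_lit 3) (.e (nat_lit 98342) (nat_lit 20) (.e (nat_lit 221212) (nat_lit 22) (.e (nat_lit 196665) (nat_lit 13) (.e (nat_lit 65561) (nat_lit 0) .nil)))))))) (.g (nat_lit 4) .nil .nil))) 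
(.lf (nat_lit 77994) (.g (nat_lit 3743) (.e (nat_lit 1800) (nat_lit 119) (.e (nat_lit 516120) (nat_lit 1) (.e (nat_lit 164330) (nat_lit 230) (.e (nat_lit 163853) (nat_lit 0) (.e (nat_lit 3304) (nat_lit 202) (.e (nat_lit 573489) (nat_lit 14) (.e (nat_lit 73755) (nat_lit 8) (.e (nat_lit 557097) (nat_lit 13) (.e (nat_lit 172133) (nat_lit 15) .nil))))))))) (.g (nat_lit 6) .nil .nil)))) 
(.nd (nat_lit 5) 
(.lf (nat_lit 77978) (.g (nat_lit 2002) (.e (nat_lit 1800) (nat_lit 119) (.e (nat_lit 516120) (nat_lit 1) (.e (nat_lit 164329) (nat_lit 230) (.e (nat_lit 163902) (nat_lit 12) (.e (nat_lit 426568) (nat_lit 34) (.e (nat_lit 393275) (nat_lit 23) (.e (nat_lit 426410) (nat_lit 15) .nil))))))) (.g (nat_lit 4) .nil .nil))) 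
(.lf (nat_lit 78010) (.g (nat_lit 3062) (.e (nat_lit 1800) (nat_lit 119) (.e (nat_lit 516120) (nat_lit 1) (.e (nat_lit 164330) (nat_lit 230) (.e (nat_lit 163874) (nat_lit 3) (.e (nat_lit 204837) (nat_lit 20) (.e (nat_lit 114716) (nat_lit 22) (.e (nat_lit 90169) (nat_lit 13) (.e (nat_lit 172133) (nat_lit 15) .nil)))))))) (.g (nat_lit 5) .nil .nil)))))) 
(.nd (nat_lit 3) (.nd (nat_lit 4) (.nd (nat_lit 5) 
(.lf (nat_lit 77958) (.g (nat_lit 2402) (.e (nat_lit 1800) (nat_lit 119) (.e (nat_lit 516119) (nat_lit 1) (.e (nat_lit 164403) (nat_lit 256) (.e (nat_lit 57378) (nat_lit 3) (.e (nat_lit 98367) (nat_lit 27) (.e (nat_lit 434231) (nat_lit 23) (.e (nat_lit 532514) (nat_lit 3) (.e (nat_lit 114707) (nat_lit 20) .nil)))))))) (.g (nat_lit 4) .nil .nil))) 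
(.lf (nat_lit 77990) (.g (nat_lit 3510) (.e (nat_lit 1800) (nat_lit 119) (.e (nat_lit 516120) (nat_lit 1) (.e (nat_lit 164330) (nat_lit 230) (.e (nat_lit 163850) (nat_lit 0) (.e (nat_lit 3304) (nat_lit 202) (.e (nat_lit 573489) (nat_lit 14) (.e (nat_lit 73755) (nat_lit 8) (.e (nat_lit 557098) (nat_lit 13) (.e (nat_lit 172136) (nat_lit 15) .nil))))))))) (.g (nat_lit 5) .nil .nil)))) 
(.nd (nat_lit 5) 
(.lf (nat_lit 77974) (.g (nat_lit 1979) (.e (nat_lit 1800) (nat_lit 119) (.e (nat_lit 516120) (nat_lit 1) (.e (nat_lit 164329) (nat_lit 230) (.e (nat_lit 163902) (nat_lit 12) (.e (nat_lit 426568) (nat_lit 34) (.e (nat_lit 393266) (nat_lit 23) (.e (nat_lit 426396) (nat_lit 15) .nil))))))) (.g (nat_lit 4) .nil .nil))) 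
(.lf (nat_lit 78006) (.g (nat_lit 1612) (.e (nat_lit 1800) (nat_lit 119) (.e (nat_lit 516120) (nat_lit 1) (.e (nat_lit 164330) (nat_lit 230) (.e (nat_lit 163874) (nat_lit 3) .nil)))) .nil)))) (.nd (nat_lit 4) (.nd (nat_lit 5) 
(.lf (nat_lit 77966) (.g (nat_lit 3406) (.e (nat_lit 1800) (nat_lit 119) (.e (nat_lit 516120) (nat_lit 1) (.e (nat_lit 164329) (nat_lit 230) (.e (nat_lit 163850) (nat_lit 0) (.e (nat_lit 3304) (nat_lit 202) (.e (nat_lit 573489) (nat_lit 14) (.e (nat_lit 73755) (nat_lit 8) (.e (nat_lit 557098) (nat_lit 13) (.e (nat_lit 172136) (nat_lit 15) .nil))))))))) (.g (nat_lit 5) .nil .nil))) 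
(.lf (nat_lit 77998) (.g (nat_lit 1959) (.e (nat_lit 1800) (nat_lit 119) (.e (nat_lit 516120) (nat_lit 1) (.e (nat_lit 164330) (nat_lit 230) (.e (nat_lit 163867) (nat_lit 2) .nil)))) .nil))) (.nd (nat_lit 5) 
(.lf (nat_lit 77982) (.g (nat_lit 2770) (.e (nat_lit 1800) (nat_lit 119) (.e (nat_lit 516120) (nat_lit 1) (.e (nat_lit 164329) (nat_lit 230) (.e (nat_lit 163902) (nat_lit 12) (.e (nat_lit 426568) (nat_lit 34) (.e (nat_lit 393281) (nat_lit 23) (.e (nat_lit 426413) (nat_lit 15) .nil))))))) (.g (nat_lit 5) .nil .nil))) 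
(.lf (nat_lit 78014) (.g (nat_lit 4011) (.e (nat_lit 1800) (nat_lit 119) (.e (nat_lit 516120) (nat_lit 1) (.e (nat_lit 164330) (nat_lit 230) (.e (nat_lit 163902) (nat_lit 12) (.e (nat_lit 426479) (nat_lit 27) (.e (nat_lit 336430) (nat_lit 29) (.e (nat_lit 442379) (nat_lit 0) .nil))))))) (.g (nat_lit 7) .nil .nil)))))))) 
(.nd (nat_lit 1) (.nd (nat_lit 2) (.nd (nat_lit 3) (.nd (nat_lit 4) (.nd (nat_lit 5) 
(.lf (nat_lit 77953) (.g (nat_lit 2621) (.e (nat_lit 1800) (nat_lit 119) (.e (nat_lit 516119) (nat_lit 1) (.e (nat_lit 164403) (nat_lit 256) (.e (nat_lit 57378) (nat_lit 3) (.e (nat_lit 98358) (nat_lit 26) (.e (nat_lit 426131) (nat_lit 3) (.e (nat_lit 204838) (nat_lit 20) (.e (nat_lit 114707) (nat_lit 20) .nil)))))))) (.g (nat_lit 4) .nil .nil))) 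
(.lf (nat_lit 77985) (.g (nat_lit 4434) (.e (nat_lit 1800) (nat_lit 119) (.e (nat_lit 516120) (nat_lit 1) (.e (nat_lit 164330) (nat_lit 230) (.e (nat_lit 163840) (nat_lit 0) (.e (nat_lit 3307) (nat_lit 202) (.e (nat_lit 573489) (nat_lit 14) (.e (nat_lit 73755) (nat_lit 8) (.e (nat_lit 557096) (nat_lit 13) (.e (nat_lit 172133) (nat_lit 15) .nil))))))))) (.g (nat_lit 6) .nil .nil)))) 
(.nd (nat_lit 5) 
(.lf (nat_lit 77969) (.g (nat_lit 3185) (.e (nat_lit 1800) (nat_lit 119) (.e (nat_lit 516120) (nat_lit 1) (.e (nat_lit 164329) (nat_lit 230) (.e (nat_lit 163902) (nat_lit 12) (.e (nat_lit 426479) (nat_lit 27) (.e (nat_lit 336430) (nat_lit 29) (.e (nat_lit 442378) (nat_lit 0) .nil))))))) (.g (nat_lit 6) .nil .nil))) 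
(.lf (nat_lit 78001) (.g (nat_lit 3850) (.e (nat_lit 1800) (nat_lit 119) (.e (nat_lit 516120) (nat_lit 1) (.e (nat_lit 164330) (nat_lit 230) (.e (nat_lit 163869) (nat_lit 2) (.e (nat_lit 196656) (nat_lit 11) (.e (nat_lit 16416) (nat_lit 3) (.e (nat_lit 204837) (nat_lit 20) (.e (nat_lit 114708) (nat_lit 20) .nil)))))))) (.g (nat_lit 5) .nil .nil))))) (.nd (nat_lit 4) (.nd (nat_lit 5) 
(.lf (nat_lit 77961) (.g (nat_lit 1622) (.e (nat_lit 1800) (nat_lit 119) (.e (nat_lit 516120) (nat_lit 1) (.e (nat_lit 164183) (nat_lit 154) (.e (nat_lit 57378) (nat_lit 3) (.e (nat_lit 98340) (nat_lit 20) .nil))))) .nil)) 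
(.lf (nat_lit 77993) (.g (nat_lit 3876) (.e (nat_lit 1800) (nat_lit 119) (.e (nat_lit 516120) (nat_lit 1) (.e (nat_lit 164330) (nat_lit 230) (.e (nat_lit 163851) (nat_lit 0) (.e (nat_lit 3307) (nat_lit 202) (.e (nat_lit 573489) (nat_lit 14) (.e (nat_lit 73755) (nat_lit 8) (.e (nat_lit 557098) (nat_lit 13) (.e (nat_lit 172136) (nat_lit 15) .nil))))))))) (.g (nat_lit 6) .nil .nil)))) 
(.nd (nat_lit 5) 
(.lf (nat_lit 77977) (.g (nat_lit 2420) (.e (nat_lit 1800) (nat_lit 119) (.e (nat_lit 516120) (nat_lit 1) (.e (nat_lit 164329) (nat_lit 230) (.e (nat_lit 163902) (nat_lit 12) (.e (nat_lit 426568) (nat_lit 34) (.e (nat_lit 393275) (nat_lit 23) (.e (nat_lit 426380) (nat_lit 15) .nil))))))) (.g (nat_lit 4) .nil .nil))) 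
(.lf (nat_lit 78009) (.g (nat_lit 3513) (.e (nat_lit 1800) (nat_lit 119) (.e (nat_lit 516120) (nat_lit 1) (.e (nat_lit 164330) (nat_lit 230) (.e (nat_lit 163874) (nat_lit 3) (.e (nat_lit 204837) (nat_lit 20) (.e (nat_lit 114715) (nat_lit 22) (.e (nat_lit 90170) (nat_lit 13) (.e (nat_lit 172138) (nat_lit 15) .nil)))))))) (.g (nat_lit 5) .nil .nil)))))) 
(.nd (nat_lit 3) (.nd (nat_lit 4) (.nd (nat_lit 5) 
(.lf (nat_lit 77957) (.g (nat_lit 2875) (.e (nat_lit 1800) (nat_lit 119) (.e (nat_lit 516119) (nat_lit 1) (.e (nat_lit 164403) (nat_lit 256) (.e (nat_lit 57378) (nat_lit 3) (.e (nat_lit 98366) (nat_lit 27) (.e (nat_lit 434231) (nat_lit 23) (.e (nat_lit 532514) (nat_lit 3) (.e (nat_lit 114707) (nat_lit 20) .nil)))))))) (.g (nat_lit 4) .nil .nil))) 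
(.lf (nat_lit 77989) (.g (nat_lit 3837) (.e (nat_lit 1800) (nat_lit 119) (.e (nat_lit 516120) (nat_lit 1) (.e (nat_lit 164330) (nat_lit 230) (.e (nat_lit 163850) (nat_lit 0) (.e (nat_lit 3304) (nat_lit 202) (.e (nat_lit 573489) (nat_lit 14) (.e (nat_lit 73755) (nat_lit 8) (.e (nat_lit 557096) (nat_lit 13) (.e (nat_lit 172133) (nat_lit 15) .nil))))))))) (.g (nat_lit 6) .nil .nil)))) 
(.nd (nat_lit 5) 
(.lf (nat_lit 77973) (.g (nat_lit 1376) (.e (nat_lit 1800) (nat_lit 119) (.e (nat_lit 516120) (nat_lit 1) (.e (nat_lit 164329) (nat_lit 230) (.e (nat_lit 163902) (nat_lit 12) (.e (nat_lit 426568) (nat_lit 34) .nil))))) .nil)) 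
(.lf (nat_lit 78005) (.g (nat_lit 3800) (.e (nat_lit 1800) (nat_lit 119) (.e (nat_lit 516120) (nat_lit 1) (.e (nat_lit 164330) (nat_lit 230) (.e (nat_lit 163873) (nat_lit 3) (.e (nat_lit 204809) (nat_lit 9) (.e (nat_lit 426139) (nat_lit 3) (.e (nat_lit 204837) (nat_lit 20) (.e (nat_lit 114708) (nat_lit 20) .nil)))))))) (.g (nat_lit 5) .nil .nil))))) (.nd (nat_lit 4) (.nd (nat_lit 5) 
(.lf (nat_lit 77965) (.g (nat_lit 4758) (.e (nat_lit 1800) (nat_lit 119) (.e (nat_lit 516120) (nat_lit 1) (.e (nat_lit 164329) (nat_lit 230) (.e (nat_lit 163850) (nat_lit 0) (.e (nat_lit 3304) (nat_lit 202) (.e (nat_lit 573489) (nat_lit 14) (.e (nat_lit 73755) (nat_lit 8) (.e (nat_lit 557097) (nat_lit 13) (.e (nat_lit 172133) (nat_lit 15) .nil))))))))) (.g (nat_lit 7) .nil .nil))) 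
(.lf (nat_lit 77997) (.g (nat_lit 3956) (.e (nat_lit 1800) (nat_lit 119) (.e (nat_lit 516120) (nat_lit 1) (.e (nat_lit 164330) (nat_lit 230) (.e (nat_lit 163853) (nat_lit 0) (.e (nat_lit 3307) (nat_lit 202) (.e (nat_lit 573489) (nat_lit 14) (.e (nat_lit 73755) (nat_lit 8) (.e (nat_lit 557098) (nat_lit 13) (.e (nat_lit 172136) (nat_lit 15) .nil))))))))) (.g (nat_lit 5) .nil .nil)))) 
(.nd (nat_lit 5) 
(.lf (nat_lit 77981) (.g (nat_lit 3075) (.e (nat_lit 1800) (nat_lit 119) (.e (nat_lit 516120) (nat_lit 1) (.e (nat_lit 164329) (nat_lit 230) (.e (nat_lit 163902) (nat_lit 12) (.e (nat_lit 426568) (nat_lit 34) (.e (nat_lit 393281) (nat_lit 23) (.e (nat_lit 426410) (nat_lit 15) .nil))))))) (.g (nat_lit 6) .nil .nil))) 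
(.lf (nat_lit 78013) (.g (nat_lit 3816) (.e (nat_lit 1800) (nat_lit 119) (.e (nat_lit 516120) (nat_lit 1) (.e (nat_lit 164330) (nat_lit 230) (.e (nat_lit 163902) (nat_lit 12) (.e (nat_lit 426479) (nat_lit 27) (.e (nat_lit 336430) (nat_lit 29) (.e (nat_lit 442378) (nat_lit 0) .nil))))))) (.g (nat_lit 5) .nil .nil))))))) (.nd (nat_lit 2) (.nd (nat_lit 3) (.nd (nat_lit 4) (.nd (nat_lit 5) 
(.lf (nat_lit 77955) (.g (nat_lit 2602) (.e (nat_lit 1800) (nat_lit 119) (.e (nat_lit 516119) (nat_lit 1) (.e (nat_lit 164403) (nat_lit 256) (.e (nat_lit 57378) (nat_lit 3) (.e (nat_lit 98363) (nat_lit 26) (.e (nat_lit 426129) (nat_lit 3) (.e (nat_lit 204837) (nat_lit 20) (.e (nat_lit 114708) (nat_lit 20) .nil)))))))) (.g (nat_lit 4) .nil .nil))) 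
(.lf (nat_lit 77987) (.g (nat_lit 1706) (.e (nat_lit 1800) (nat_lit 119) (.e (nat_lit 516120) (nat_lit 1) (.e (nat_lit 164330) (nat_lit 230) (.e (nat_lit 163850) (nat_lit 0) .nil)))) .nil))) (.nd (nat_lit 5) 
(.lf (nat_lit 77971) (.g (nat_lit 2150) (.e (nat_lit 1800) (nat_lit 119) (.e (nat_lit 516120) (nat_lit 1) (.e (nat_lit 164329) (nat_lit 230) (.e (nat_lit 163902) (nat_lit 12) (.e (nat_lit 426479) (nat_lit 27) (.e (nat_lit 336443) (nat_lit 32) (.e (nat_lit 466949) (nat_lit 0) .nil))))))) (.g (nat_lit 4) .nil .nil))) 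
(.lf (nat_lit 78003) (.g (nat_lit 1801) (.e (nat_lit 1800) (nat_lit 119) (.e (nat_lit 516120) (nat_lit 1) (.e (nat_lit 164330) (nat_lit 230) (.e (nat_lit 163873) (nat_lit 3) .nil)))) .nil)))) (.nd (nat_lit 4) (.nd (nat_lit 5) 
(.lf (nat_lit 77963) (.g (nat_lit 2349) (.e (nat_lit 1800) (nat_lit 119) (.e (nat_lit 516120) (nat_lit 1) (.e (nat_lit 164322) (nat_lit 230) (.e (nat_lit 163902) (nat_lit 12) (.e (nat_lit 426479) (nat_lit 27) .nil))))) .nil)) 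
(.lf (nat_lit 77995) (.g (nat_lit 5332) (.e (nat_lit 1800) (nat_lit 119) (.e (nat_lit 516120) (nat_lit 1) (.e (nat_lit 164330) (nat_lit 230) (.e (nat_lit 163853) (nat_lit 0) (.e (nat_lit 3307) (nat_lit 202) (.e (nat_lit 573489) (nat_lit 14) (.e (nat_lit 73755) (nat_lit 8) (.e (nat_lit 557097) (nat_lit 13) (.e (nat_lit 172133) (nat_lit 15) .nil))))))))) (.g (nat_lit 7) .nil .nil)))) 
(.nd (nat_lit 5) 
(.lf (nat_lit 77979) (.g (nat_lit 2806) (.e (nat_lit 1800) (nat_lit 119) (.e (nat_lit 516120) (nat_lit 1) (.e (nat_lit 164329) (nat_lit 230) (.e (nat_lit 163902) (nat_lit 12) (.e (nat_lit 426568) (nat_lit 34) (.e (nat_lit 393279) (nat_lit 23) (.e (nat_lit 426419) (nat_lit 15) .nil))))))) (.g (nat_lit 5) .nil .nil))) 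
(.lf (nat_lit 78011) (.g (nat_lit 3601) (.e (nat_lit 1800) (nat_lit 119) (.e (nat_lit 516120) (nat_lit 1) (.e (nat_lit 164330) (nat_lit 230) (.e (nat_lit 163874) (nat_lit 3) (.e (nat_lit 204838) (nat_lit 20) (.e (nat_lit 114716) (nat_lit 22) (.e (nat_lit 90169) (nat_lit 13) (.e (nat_lit 172133) (nat_lit 15) .nil)))))))) (.g (nat_lit 6) .nil .nil)))))) 
(.nd (nat_lit 3) (.nd (nat_lit 4) (.nd (nat_lit 5) 
(.lf (nat_lit 77959) (.g (nat_lit 3104) (.e (nat_lit 1800) (nat_lit 119) (.e (nat_lit 516119) (nat_lit 1) (.e (nat_lit 164403) (nat_lit 256) (.e (nat_lit 57378) (nat_lit 3) (.e (nat_lit 98376) (nat_lit 30) (.e (nat_lit 458789) (nat_lit 23) (.e (nat_lit 532515) (nat_lit 3) (.e (nat_lit 114708) (nat_lit 20) .nil)))))))) (.g (nat_lit 5) .nil .nil))) 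
(.lf (nat_lit 77991) (.g (nat_lit 5252) (.e (nat_lit 1800) (nat_lit 119) (.e (nat_lit 516120) (nat_lit 1) (.e (nat_lit 164330) (nat_lit 230) (.e (nat_lit 163851) (nat_lit 0) (.e (nat_lit 3307) (nat_lit 202) (.e (nat_lit 573489) (nat_lit 14) (.e (nat_lit 73755) (nat_lit 8) (.e (nat_lit 557097) (nat_lit 13) (.e (nat_lit 172133) (nat_lit 15) .nil))))))))) (.g (nat_lit 7) .nil .nil)))) 
(.nd (nat_lit 5) 
(.lf (nat_lit 77975) (.g (nat_lit 2855) (.e (nat_lit 1800) (nat_lit 119) (.e (nat_lit 516120) (nat_lit 1) (.e (nat_lit 164329) (nat_lit 230) (.e (nat_lit 163902) (nat_lit 12) (.e (nat_lit 426568) (nat_lit 34) (.e (nat_lit 393267) (nat_lit 23) (.e (nat_lit 426382) (nat_lit 15) .nil))))))) (.g (nat_lit 5) .nil .nil))) 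
(.lf (nat_lit 78007) (.g (nat_lit 3416) (.e (nat_lit 1800) (nat_lit 119) (.e (nat_lit 516120) (nat_lit 1) (.e (nat_lit 164330) (nat_lit 230) (.e (nat_lit 163874) (nat_lit 3) (.e (nat_lit 204809) (nat_lit 9) (.e (nat_lit 426139) (nat_lit 3) (.e (nat_lit 204837) (nat_lit 20) (.e (nat_lit 114708) (nat_lit 20) .nil)))))))) (.g (nat_lit 5) .nil .nil))))) (.nd (nat_lit 4) (.nd (nat_lit 5) 
(.lf (nat_lit 77967) (.g (nat_lit 3089) (.e (nat_lit 1800) (nat_lit 119) (.e (nat_lit 516120) (nat_lit 1) (.e (nat_lit 164329) (nat_lit 230) (.e (nat_lit 163851) (nat_lit 0) (.e (nat_lit 3307) (nat_lit 202) (.e (nat_lit 573489) (nat_lit 14) (.e (nat_lit 73755) (nat_lit 8) (.e (nat_lit 557097) (nat_lit 13) (.e (nat_lit 172133) (nat_lit 15) .nil))))))))) (.g (nat_lit 5) .nil .nil))) 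
(.lf (nat_lit 77999) (.g (nat_lit 3329) (.e (nat_lit 1800) (nat_lit 119) (.e (nat_lit 516120) (nat_lit 1) (.e (nat_lit 164330) (nat_lit 230) (.e (nat_lit 163867) (nat_lit 2) (.e (nat_lit 196654) (nat_lit 11) (.e (nat_lit 16416) (nat_lit 3) (.e (nat_lit 204837) (nat_lit 20) (.e (nat_lit 114708) (nat_lit 20) .nil)))))))) (.g (nat_lit 5) .nil .nil)))) (.nd (nat_lit 5) 
(.lf (nat_lit 77983) (.g (nat_lit 1857) (.e (nat_lit 1800) (nat_lit 119) (.e (nat_lit 516120) (nat_lit 1) (.e (nat_lit 164329) (nat_lit 230) (.e (nat_lit 163942) (nat_lit 19) (.e (nat_lit 491264) (nat_lit 11) (.e (nat_lit 450304) (nat_lit 0) .nil)))))) (.g (nat_lit 4) .nil .nil))) 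
(.lf (nat_lit 78015) (.g (nat_lit 3733) (.e (nat_lit 1800) (nat_lit 119) (.e (nat_lit 516120) (nat_lit 1) (.e (nat_lit 164330) (nat_lit 230) (.e (nat_lit 163902) (nat_lit 12) (.e (nat_lit 426479) (nat_lit 27) (.e (nat_lit 336430) (nat_lit 29) (.e (nat_lit 450304) (nat_lit 0) .nil))))))) (.g (nat_lit 6) .nil .nil)))))))))

noncomputable def tv1056 : DT := (.nd (nat_lit 0) (.nd (nat_lit 1) (.nd (nat_lit 2) (.nd (nat_lit 3) (.nd (nat_lit 4) (.nd (nat_lit 5) 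
(.lf (nat_lit 78016) (.g (nat_lit 2838) (.e (nat_lit 1800) (nat_lit 119) (.e (nat_lit 516120) (nat_lit 1) (.e (nat_lit 164330) (nat_lit 230) (.e (nat_lit 163902) (nat_lit 12) (.e (nat_lit 426479) (nat_lit 27) (.e (nat_lit 336443) (nat_lit 32) (.e (nat_lit 466949) (nat_lit 0) .nil))))))) (.g (nat_lit 4) .nil .nil))) 
(.lf (nat_lit 78048) (.g (nat_lit 2887) (.e (nat_lit 1800) (nat_lit 119) (.e (nat_lit 516120) (nat_lit 1) (.e (nat_lit 164332) (nat_lit 230) (.e (nat_lit 163902) (nat_lit 12) (.e (nat_lit 426568) (nat_lit 34) (.e (nat_lit 393275) (nat_lit 23) (.e (nat_lit 426396) (nat_lit 15) .nil))))))) (.g (nat_lit 5) .nil .nil)))) (.nd (nat_lit 5) 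
(.lf (nat_lit 78032) (.g (nat_lit 1824) (.e (nat_lit 1800) (nat_lit 119) (.e (nat_lit 516120) (nat_lit 1) (.e (nat_lit 164330) (nat_lit 230) (.e (nat_lit 163942) (nat_lit 19) (.e (nat_lit 491264) (nat_lit 11) (.e (nat_lit 450304) (nat_lit 0) .nil)))))) (.g (nat_lit 4) .nil .nil))) 
(.lf (nat_lit 78064) (.g (nat_lit 1864) (.e (nat_lit 1800) (nat_lit 119) (.e (nat_lit 516120) (nat_lit 1) (.e (nat_lit 164332) (nat_lit 230) (.e (nat_lit 163941) (nat_lit 19) (.e (nat_lit 491264) (nat_lit 11) (.e (nat_lit 450304) (nat_lit 0) .nil)))))) (.g (nat_lit 4) .nil .nil))))) (.nd (nat_lit 4) (.nd (nat_lit 5) 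
(.lf (nat_lit 78024) (.g (nat_lit 3012) (.e (nat_lit 1800) (nat_lit 119) (.e (nat_lit 516120) (nat_lit 1) (.e (nat_lit 164330) (nat_lit 230) (.e (nat_lit 163902) (nat_lit 12) (.e (nat_lit 426568) (nat_lit 34) (.e (nat_lit 393281) (nat_lit 23) (.e (nat_lit 426413) (nat_lit 15) .nil))))))) (.g (nat_lit 4) .nil .nil))) 
(.lf (nat_lit 78056) (.g (nat_lit 2407) (.e (nat_lit 1800) (nat_lit 119) (.e (nat_lit 516120) (nat_lit 1) (.e (nat_lit 164332) (nat_lit 230) (.e (nat_lit 163905) (nat_lit 12) (.e (nat_lit 426486) (nat_lit 27) .nil))))) .nil))) (.nd (nat_lit 5) 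
(.lf (nat_lit 78040) (.g (nat_lit 1868) (.e (nat_lit 1800) (nat_lit 119) (.e (nat_lit 516120) (nat_lit 1) (.e (nat_lit 164331) (nat_lit 230) (.e (nat_lit 163942) (nat_lit 19) (.e (nat_lit 491264) (nat_lit 11) (.e (nat_lit 450304) (nat_lit 0) .nil)))))) (.g (nat_lit 4) .nil .nil))) 
(.lf (nat_lit 78072) (.g (nat_lit 2811) (.e (nat_lit 1800) (nat_lit 119) (.e (nat_lit 516120) (nat_lit 1) (.e (nat_lit 164396) (nat_lit 256) (.e (nat_lit 57371) (nat_lit 2) (.e (nat_lit 90167) (nat_lit 13) (.e (nat_lit 172067) (nat_lit 3) (.e (nat_lit 204838) (nat_lit 20) (.e (nat_lit 114708) (nat_lit 20) .nil)))))))) (.g (nat_lit 4) .nil .nil)))))) 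
(.nd (nat_lit 3) (.nd (nat_lit 4) (.nd (nat_lit 5) 
(.lf (nat_lit 78020) (.g (nat_lit 2522) (.e (nat_lit 1800) (nat_lit 119) (.e (nat_lit 516120) (nat_lit 1) (.e (nat_lit 164330) (nat_lit 230) (.e (nat_lit 163902) (nat_lit 12) (.e (nat_lit 426566) (nat_lit 34) (.e (nat_lit 393273) (nat_lit 23) (.e (nat_lit 426382) (nat_lit 15) .nil))))))) (.g (nat_lit 5) .nil .nil))) 
(.lf (nat_lit 78052) (.g (nat_lit 1028) (.e (nat_lit 1800) (nat_lit 119) (.e (nat_lit 516120) (nat_lit 1) (.e (nat_lit 164332) (nat_lit 230) (.e (nat_lit 163905) (nat_lit 12) .nil)))) .nil))) (.nd (nat_lit 5) 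
(.lf (nat_lit 78036) (.g (nat_lit 2362) (.e (nat_lit 1800) (nat_lit 119) (.e (nat_lit 516120) (nat_lit 1) (.e (nat_lit 164330) (nat_lit 230) (.e (nat_lit 163943) (nat_lit 19) (.e (nat_lit 491264) (nat_lit 11) (.e (nat_lit 442379) (nat_lit 0) .nil)))))) (.g (nat_lit 4) .nil .nil))) 
(.lf (nat_lit 78068) (.g (nat_lit 2084) (.e (nat_lit 1800) (nat_lit 119) (.e (nat_lit 516120) (nat_lit 1) (.e (nat_lit 164332) (nat_lit 230) (.e (nat_lit 163943) (nat_lit 19) (.e (nat_lit 483341) (nat_lit 9) (.e (nat_lit 426198) (nat_lit 9) (.e (nat_lit 426376) (nat_lit 15) .nil))))))) (.g (nat_lit 4) .nil .nil))))) (.nd (nat_lit 4) (.nd (nat_lit 5) 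
(.lf (nat_lit 78028) (.g (nat_lit 2096) (.e (nat_lit 1800) (nat_lit 119) (.e (nat_lit 516120) (nat_lit 1) (.e (nat_lit 164330) (nat_lit 230) (.e (nat_lit 163905) (nat_lit 12) (.e (nat_lit 426486) (nat_lit 27) (.e (nat_lit 336428) (nat_lit 29) (.e (nat_lit 442374) (nat_lit 0) .nil))))))) (.g (nat_lit 4) .nil .nil))) 
(.lf (nat_lit 78060) (.g (nat_lit 2847) (.e (nat_lit 1800) (nat_lit 119) (.e (nat_lit 516120) (nat_lit 1) (.e (nat_lit 164332) (nat_lit 230) (.e (nat_lit 163941) (nat_lit 19) (.e (nat_lit 483341) (nat_lit 9) (.e (nat_lit 426198) (nat_lit 9) (.e (nat_lit 426382) (nat_lit 15) .nil))))))) (.g (nat_lit 5) .nil .nil)))) (.nd (nat_lit 5) 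
(.lf (nat_lit 78044) (.g (nat_lit 2758) (.e (nat_lit 1800) (nat_lit 119) (.e (nat_lit 516120) (nat_lit 1) (.e (nat_lit 164332) (nat_lit 230) (.e (nat_lit 163902) (nat_lit 12) (.e (nat_lit 426479) (nat_lit 27) (.e (nat_lit 336430) (nat_lit 29) (.e (nat_lit 442378) (nat_lit 0) .nil))))))) (.g (nat_lit 6) .nil .nil))) 
(.lf (nat_lit 78076) (.g (nat_lit 2355) (.e (nat_lit 1800) (nat_lit 119) (.e (nat_lit 516120) (nat_lit 1) (.e (nat_lit 164396) (nat_lit 256) (.e (nat_lit 57371) (nat_lit 2) (.e (nat_lit 90172) (nat_lit 14) (.e (nat_lit 180244) (nat_lit 5) (.e (nat_lit 532514) (nat_lit 3) (.e (nat_lit 114708) (nat_lit 20) .nil)))))))) (.g (nat_lit 4) .nil .nil))))))) 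
(.nd (nat_lit 2) (.nd (nat_lit 3) (.nd (nat_lit 4) (.nd (nat_lit 5) 
(.lf (nat_lit 78018) (.g (nat_lit 2669) (.e (nat_lit 1800) (nat_lit 119) (.e (nat_lit 516120) (nat_lit 1) (.e (nat_lit 164330) (nat_lit 230) (.e (nat_lit 163902) (nat_lit 12) (.e (nat_lit 426484) (nat_lit 27) .nil))))) .nil)) 
(.lf (nat_lit 78050) (.g (nat_lit 2247) (.e (nat_lit 1800) (nat_lit 119) (.e (nat_lit 516120) (nat_lit 1) (.e (nat_lit 164332) (nat_lit 230) (.e (nat_lit 163902) (nat_lit 12) (.e (nat_lit 426568) (nat_lit 34) (.e (nat_lit 393281) (nat_lit 23) (.e (nat_lit 426387) (nat_lit 15) .nil))))))) (.g (nat_lit 4) .nil .nil)))) (.nd (nat_lit 5) 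
(.lf (nat_lit 78034) (.g (nat_lit 2455) (.e (nat_lit 1800) (nat_lit 119) (.e (nat_lit 516120) (nat_lit 1) (.e (nat_lit 164330) (nat_lit 230) (.e (nat_lit 163943) (nat_lit 19) (.e (nat_lit 491264) (nat_lit 11) (.e (nat_lit 442377) (nat_lit 0) .nil)))))) (.g (nat_lit 4) .nil .nil))) 
(.lf (nat_lit 78066) (.g (nat_lit 1538) (.e (nat_lit 1800) (nat_lit 119) (.e (nat_lit 516120) (nat_lit 1) (.e (nat_lit 164332) (nat_lit 230) (.e (nat_lit 163942) (nat_lit 19) (.e (nat_lit 491264) (nat_lit 11) (.e (nat_lit 450304) (nat_lit 0) .nil)))))) (.g (nat_lit 4) .nil .nil))))) (.nd (nat_lit 4) (.nd (nat_lit 5) 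
(.lf (nat_lit 78026) (.g (nat_lit 2277) (.e (nat_lit 1800) (nat_lit 119) (.e (nat_lit 516120) (nat_lit 1) (.e (nat_lit 164330) (nat_lit 230) (.e (nat_lit 163905) (nat_lit 12) (.e (nat_lit 426479) (nat_lit 27) .nil))))) .nil)) 
(.lf (nat_lit 78058) (.g (nat_lit 2020) (.e (nat_lit 1800) (nat_lit 119) (.e (nat_lit 516120) (nat_lit 1) (.e (nat_lit 164332) (nat_lit 230) (.e (nat_lit 163905) (nat_lit 12) (.e (nat_lit 426568) (nat_lit 34) (.e (nat_lit 393281) (nat_lit 23) (.e (nat_lit 426410) (nat_lit 15) .nil))))))) (.g (nat_lit 4) .nil .nil)))) (.nd (nat_lit 5) 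
(.lf (nat_lit 78042) (.g (nat_lit 2598) (.e (nat_lit 1800) (nat_lit 119) (.e (nat_lit 516120) (nat_lit 1) (.e (nat_lit 164332) (nat_lit 230) (.e (nat_lit 163874) (nat_lit 3) (.e (nat_lit 204837) (nat_lit 20) (.e (nat_lit 114716) (nat_lit 22) (.e (nat_lit 90169) (nat_lit 13) (.e (nat_lit 172133) (nat_lit 15) .nil)))))))) (.g (nat_lit 5) .nil .nil))) 
(.lf (nat_lit 78074) (.g (nat_lit 2679) (.e (nat_lit 1800) (nat_lit 119) (.e (nat_lit 516120) (nat_lit 1) (.e (nat_lit 164396) (nat_lit 256) (.e (nat_lit 57371) (nat_lit 2) (.e (nat_lit 90172) (nat_lit 14) (.e (nat_lit 180244) (nat_lit 5) (.e (nat_lit 532513) (nat_lit 3) (.e (nat_lit 114707) (nat_lit 20) .nil)))))))) (.g (nat_lit 4) .nil .nil)))))) 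
(.nd (nat_lit 3) (.nd (nat_lit 4) (.nd (nat_lit 5) 
(.lf (nat_lit 78022) (.g (nat_lit 2997) (.e (nat_lit 1800) (nat_lit 119) (.e (nat_lit 516120) (nat_lit 1) (.e (nat_lit 164330) (nat_lit 230) (.e (nat_lit 163902) (nat_lit 12) (.e (nat_lit 426568) (nat_lit 34) (.e (nat_lit 393279) (nat_lit 23) (.e (nat_lit 426419) (nat_lit 15) .nil))))))) (.g (nat_lit 4) .nil .nil))) 
(.lf (nat_lit 78054) (.g (nat_lit 2498) (.e (nat_lit 1800) (nat_lit 119) (.e (nat_lit 516120) (nat_lit 1) (.e (nat_lit 164332) (nat_lit 230) (.e (nat_lit 163905) (nat_lit 12) (.e (nat_lit 426479) (nat_lit 27) (.e (nat_lit 336430) (nat_lit 29) (.e (nat_lit 450304) (nat_lit 0) .nil))))))) (.g (nat_lit 6) .nil .nil)))) (.nd (nat_lit 5) 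
(.lf (nat_lit 78038) (.g (nat_lit 2143) (.e (nat_lit 1800) (nat_lit 119) (.e (nat_lit 516120) (nat_lit 1) (.e (nat_lit 164331) (nat_lit 230) (.e (nat_lit 163941) (nat_lit 19) (.e (nat_lit 491264) (nat_lit 11) (.e (nat_lit 450304) (nat_lit 0) .nil)))))) (.g (nat_lit 4) .nil .nil))) 
(.lf (nat_lit 78070) (.g (nat_lit 1989) (.e (nat_lit 1800) (nat_lit 119) (.e (nat_lit 516120) (nat_lit 1) (.e (nat_lit 164332) (nat_lit 230) (.e (nat_lit 163943) (nat_lit 19) (.e (nat_lit 491264) (nat_lit 11) (.e (nat_lit 450304) (nat_lit 0) .nil)))))) (.g (nat_lit 4) .nil .nil))))) (.nd (nat_lit 4) (.nd (nat_lit 5) 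
(.lf (nat_lit 78030) (.g (nat_lit 2235) (.e (nat_lit 1800) (nat_lit 119) (.e (nat_lit 516120) (nat_lit 1) (.e (nat_lit 164330) (nat_lit 230) (.e (nat_lit 163942) (nat_lit 19) (.e (nat_lit 491264) (nat_lit 11) (.e (nat_lit 442377) (nat_lit 0) .nil)))))) (.g (nat_lit 4) .nil .nil))) 
(.lf (nat_lit 78062) (.g (nat_lit 2153) (.e (nat_lit 1800) (nat_lit 119) (.e (nat_lit 516120) (nat_lit 1) (.e (nat_lit 164332) (nat_lit 230) (.e (nat_lit 163941) (nat_lit 19) (.e (nat_lit 491264) (nat_lit 11) (.e (nat_lit 442377) (nat_lit 0) .nil)))))) (.g (nat_lit 4) .nil .nil)))) (.nd (nat_lit 5) 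
(.lf (nat_lit 78046) (.g (nat_lit 1843) (.e (nat_lit 1800) (nat_lit 119) (.e (nat_lit 516120) (nat_lit 1) (.e (nat_lit 164332) (nat_lit 230) (.e (nat_lit 163902) (nat_lit 12) (.e (nat_lit 426479) (nat_lit 27) (.e (nat_lit 336443) (nat_lit 32) (.e (nat_lit 474880) (nat_lit 0) .nil))))))) (.g (nat_lit 4) .nil .nil))) 
(.lf (nat_lit 78078) (.g (nat_lit 3654) (.e (nat_lit 1800) (nat_lit 119) (.e (nat_lit 516120) (nat_lit 1) (.e (nat_lit 164396) (nat_lit 256) (.e (nat_lit 57371) (nat_lit 2) (.e (nat_lit 90174) (nat_lit 14) (.e (nat_lit 180243) (nat_lit 5) (.e (nat_lit 532513) (nat_lit 3) (.e (nat_lit 114707) (nat_lit 20) .nil)))))))) (.g (nat_lit 6) .nil .nil)))))))) 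
(.nd (nat_lit 1) (.nd (nat_lit 2) (.nd (nat_lit 3) (.nd (nat_lit 4) (.nd (nat_lit 5) 
(.lf (nat_lit 78017) (.g (nat_lit 2798) (.e (nat_lit 1800) (nat_lit 119) (.e (nat_lit 516120) (nat_lit 1) (.e (nat_lit 164330) (nat_lit 230) (.e (nat_lit 163902) (nat_lit 12) (.e (nat_lit 426479) (nat_lit 27) (.e (nat_lit 336443) (nat_lit 32) (.e (nat_lit 474880) (nat_lit 0) .nil))))))) (.g (nat_lit 4) .nil .nil))) 
(.lf (nat_lit 78049) (.g (nat_lit 2188) (.e (nat_lit 1800) (nat_lit 119) (.e (nat_lit 516120) (nat_lit 1) (.e (nat_lit 164332) (nat_lit 230) (.e (nat_lit 163902) (nat_lit 12) (.e (nat_lit 426568) (nat_lit 34) (.e (nat_lit 393279) (nat_lit 23) (.e (nat_lit 426419) (nat_lit 15) .nil))))))) (.g (nat_lit 4) .nil .nil)))) (.nd (nat_lit 5) 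
(.lf (nat_lit 78033) (.g (nat_lit 2036) (.e (nat_lit 1800) (nat_lit 119) (.e (nat_lit 516120) (nat_lit 1) (.e (nat_lit 164330) (nat_lit 230) (.e (nat_lit 163943) (nat_lit 19) (.e (nat_lit 483341) (nat_lit 9) .nil))))) .nil)) 
(.lf (nat_lit 78065) (.g (nat_lit 1936) (.e (nat_lit 1800) (nat_lit 119) (.e (nat_lit 516120) (nat_lit 1) (.e (nat_lit 164332) (nat_lit 230) (.e (nat_lit 163942) (nat_lit 19) (.e (nat_lit 491264) (nat_lit 11) (.e (nat_lit 442378) (nat_lit 0) .nil)))))) (.g (nat_lit 4) .nil .nil))))) (.nd (nat_lit 4) (.nd (nat_lit 5) 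
(.lf (nat_lit 78025) (.g (nat_lit 1396) (.e (nat_lit 1800) (nat_lit 119) (.e (nat_lit 516120) (nat_lit 1) (.e (nat_lit 164330) (nat_lit 230) (.e (nat_lit 163905) (nat_lit 12) .nil)))) .nil)) 
(.lf (nat_lit 78057) (.g (nat_lit 2518) (.e (nat_lit 1800) (nat_lit 119) (.e (nat_lit 516120) (nat_lit 1) (.e (nat_lit 164332) (nat_lit 230) (.e (nat_lit 163905) (nat_lit 12) (.e (nat_lit 426568) (nat_lit 34) (.e (nat_lit 393275) (nat_lit 23) (.e (nat_lit 426396) (nat_lit 15) .nil))))))) (.g (nat_lit 5) .nil .nil)))) (.nd (nat_lit 5) 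
(.lf (nat_lit 78041) (.g (nat_lit 437) (.e (nat_lit 1800) (nat_lit 119) (.e (nat_lit 516120) (nat_lit 1) (.e (nat_lit 164332) (nat_lit 230) .nil))) .nil)) 
(.lf (nat_lit 78073) (.g (nat_lit 3087) (.e (nat_lit 1800) (nat_lit 119) (.e (nat_lit 516120) (nat_lit 1) (.e (nat_lit 164396) (nat_lit 256) (.e (nat_lit 57371) (nat_lit 2) (.e (nat_lit 90172) (nat_lit 14) (.e (nat_lit 180243) (nat_lit 5) (.e (nat_lit 532513) (nat_lit 3) (.e (nat_lit 114708) (nat_lit 20) .nil)))))))) (.g (nat_lit 5) .nil .nil)))))) 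
(.nd (nat_lit 3) (.nd (nat_lit 4) (.nd (nat_lit 5) 
(.lf (nat_lit 78021) (.g (nat_lit 2205) (.e (nat_lit 1800) (nat_lit 119) (.e (nat_lit 516120) (nat_lit 1) (.e (nat_lit 164330) (nat_lit 230) (.e (nat_lit 163902) (nat_lit 12) (.e (nat_lit 426568) (nat_lit 34) .nil))))) .nil)) 
(.lf (nat_lit 78053) (.g (nat_lit 2787) (.e (nat_lit 1800) (nat_lit 119) (.e (nat_lit 516120) (nat_lit 1) (.e (nat_lit 164332) (nat_lit 230) (.e (nat_lit 163905) (nat_lit 12) (.e (nat_lit 426479) (nat_lit 27) (.e (nat_lit 336430) (nat_lit 29) (.e (nat_lit 442379) (nat_lit 0) .nil))))))) (.g (nat_lit 0) .nil .nil)))) (.nd (nat_lit 5) 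
(.lf (nat_lit 78037) (.g (nat_lit 2001) (.e (nat_lit 1800) (nat_lit 119) (.e (nat_lit 516120) (nat_lit 1) (.e (nat_lit 164331) (nat_lit 230) (.e (nat_lit 163902) (nat_lit 12) (.e (nat_lit 426479) (nat_lit 27) .nil))))) .nil)) 
(.lf (nat_lit 78069) (.g (nat_lit 2724) (.e (nat_lit 1800) (nat_lit 119) (.e (nat_lit 516120) (nat_lit 1) (.e (nat_lit 164332) (nat_lit 230) (.e (nat_lit 163943) (nat_lit 19) (.e (nat_lit 483341) (nat_lit 9) (.e (nat_lit 426198) (nat_lit 9) (.e (nat_lit 426382) (nat_lit 15) .nil))))))) (.g (nat_lit 5) .nil .nil))))) (.nd (nat_lit 4) (.nd (nat_lit 5) 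
(.lf (nat_lit 78029) (.g (nat_lit 2249) (.e (nat_lit 1800) (nat_lit 119) (.e (nat_lit 516120) (nat_lit 1) (.e (nat_lit 164330) (nat_lit 230) (.e (nat_lit 163942) (nat_lit 19) (.e (nat_lit 483339) (nat_lit 9) (.e (nat_lit 426259) (nat_lit 9) (.e (nat_lit 426419) (nat_lit 15) .nil))))))) (.g (nat_lit 5) .nil .nil))) 
(.lf (nat_lit 78061) (.g (nat_lit 2055) (.e (nat_lit 1800) (nat_lit 119) (.e (nat_lit 516120) (nat_lit 1) (.e (nat_lit 164332) (nat_lit 230) (.e (nat_lit 163941) (nat_lit 19) (.e (nat_lit 483341) (nat_lit 9) (.e (nat_lit 426198) (nat_lit 9) (.e (nat_lit 426405) (nat_lit 15) .nil))))))) (.g (nat_lit 4) .nil .nil)))) (.nd (nat_lit 5) 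
(.lf (nat_lit 78045) (.g (nat_lit 2797) (.e (nat_lit 1800) (nat_lit 119) (.e (nat_lit 516120) (nat_lit 1) (.e (nat_lit 164332) (nat_lit 230) (.e (nat_lit 163902) (nat_lit 12) (.e (nat_lit 426479) (nat_lit 27) (.e (nat_lit 336430) (nat_lit 29) (.e (nat_lit 450304) (nat_lit 0) .nil))))))) (.g (nat_lit 6) .nil .nil))) 
(.lf (nat_lit 78077) (.g (nat_lit 2904) (.e (nat_lit 1800) (nat_lit 119) (.e (nat_lit 516120) (nat_lit 1) (.e (nat_lit 164396) (nat_lit 256) (.e (nat_lit 57371) (nat_lit 2) (.e (nat_lit 90172) (nat_lit 14) (.e (nat_lit 180244) (nat_lit 5) (.e (nat_lit 532515) (nat_lit 3) (.e (nat_lit 114708) (nat_lit 20) .nil)))))))) (.g (nat_lit 5) .nil .nil))))))) 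
(.nd (nat_lit 2) (.nd (nat_lit 3) (.nd (nat_lit 4) (.nd (nat_lit 5) 
(.lf (nat_lit 78019) (.g (nat_lit 1855) (.e (nat_lit 1800) (nat_lit 119) (.e (nat_lit 516120) (nat_lit 1) (.e (nat_lit 164330) (nat_lit 230) (.e (nat_lit 163902) (nat_lit 12) (.e (nat_lit 426566) (nat_lit 34) (.e (nat_lit 393272) (nat_lit 23) (.e (nat_lit 426382) (nat_lit 15) .nil))))))) (.g (nat_lit 4) .nil .nil))) 
(.lf (nat_lit 78051) (.g (nat_lit 2838) (.e (nat_lit 1800) (nat_lit 119) (.e (nat_lit 516120) (nat_lit 1) (.e (nat_lit 164332) (nat_lit 230) (.e (nat_lit 163902) (nat_lit 12) (.e (nat_lit 426568) (nat_lit 34) (.e (nat_lit 393281) (nat_lit 23) (.e (nat_lit 426410) (nat_lit 15) .nil))))))) (.g (nat_lit 5) .nil .nil)))) (.nd (nat_lit 5) 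
(.lf (nat_lit 78035) (.g (nat_lit 2548) (.e (nat_lit 1800) (nat_lit 119) (.e (nat_lit 516120) (nat_lit 1) (.e (nat_lit 164330) (nat_lit 230) (.e (nat_lit 163943) (nat_lit 19) (.e (nat_lit 491264) (nat_lit 11) (.e (nat_lit 442378) (nat_lit 0) .nil)))))) (.g (nat_lit 4) .nil .nil))) 
(.lf (nat_lit 78067) (.g (nat_lit 2084) (.e (nat_lit 1800) (nat_lit 119) (.e (nat_lit 516120) (nat_lit 1) (.e (nat_lit 164332) (nat_lit 230) (.e (nat_lit 163943) (nat_lit 19) (.e (nat_lit 483341) (nat_lit 9) (.e (nat_lit 426198) (nat_lit 9) (.e (nat_lit 426375) (nat_lit 15) .nil))))))) (.g (nat_lit 4) .nil .nil))))) (.nd (nat_lit 4) (.nd (nat_lit 5) 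
(.lf (nat_lit 78027) (.g (nat_lit 2488) (.e (nat_lit 1800) (nat_lit 119) (.e (nat_lit 516120) (nat_lit 1) (.e (nat_lit 164330) (nat_lit 230) (.e (nat_lit 163905) (nat_lit 12) (.e (nat_lit 426479) (nat_lit 27) (.e (nat_lit 336428) (nat_lit 29) (.e (nat_lit 442374) (nat_lit 0) .nil))))))) (.g (nat_lit 4) .nil .nil))) 
(.lf (nat_lit 78059) (.g (nat_lit 1866) (.e (nat_lit 1800) (nat_lit 119) (.e (nat_lit 516120) (nat_lit 1) (.e (nat_lit 164332) (nat_lit 230) (.e (nat_lit 163941) (nat_lit 19) (.e (nat_lit 483339) (nat_lit 9) (.e (nat_lit 426259) (nat_lit 9) (.e (nat_lit 426419) (nat_lit 15) .nil))))))) (.g (nat_lit 4) .nil .nil)))) (.nd (nat_lit 5) 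
(.lf (nat_lit 78043) (.g (nat_lit 998) (.e (nat_lit 1800) (nat_lit 119) (.e (nat_lit 516120) (nat_lit 1) (.e (nat_lit 164332) (nat_lit 230) (.e (nat_lit 163902) (nat_lit 12) .nil)))) .nil)) 
(.lf (nat_lit 78075) (.g (nat_lit 3820) (.e (nat_lit 1800) (nat_lit 119) (.e (nat_lit 516120) (nat_lit 1) (.e (nat_lit 164396) (nat_lit 256) (.e (nat_lit 57371) (nat_lit 2) (.e (nat_lit 90172) (nat_lit 14) (.e (nat_lit 180244) (nat_lit 5) (.e (nat_lit 532513) (nat_lit 3) (.e (nat_lit 114708) (nat_lit 20) .nil)))))))) (.g (nat_lit 6) .nil .nil)))))) 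
(.nd (nat_lit 3) (.nd (nat_lit 4) (.nd (nat_lit 5) 
(.lf (nat_lit 78023) (.g (nat_lit 2712) (.e (nat_lit 1800) (nat_lit 119) (.e (nat_lit 516120) (nat_lit 1) (.e (nat_lit 164330) (nat_lit 230) (.e (nat_lit 163902) (nat_lit 12) (.e (nat_lit 426568) (nat_lit 34) (.e (nat_lit 393281) (nat_lit 23) (.e (nat_lit 426387) (nat_lit 15) .nil))))))) (.g (nat_lit 4) .nil .nil))) 
(.lf (nat_lit 78055) (.g (nat_lit 1536) (.e (nat_lit 1800) (nat_lit 119) (.e (nat_lit 516120) (nat_lit 1) (.e (nat_lit 164332) (nat_lit 230) (.e (nat_lit 163905) (nat_lit 12) (.e (nat_lit 426479) (nat_lit 27) (.e (nat_lit 336443) (nat_lit 32) (.e (nat_lit 474880) (nat_lit 0) .nil))))))) (.g (nat_lit 4) .nil .nil)))) (.nd (nat_lit 5) 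
(.lf (nat_lit 78039) (.g (nat_lit 2157) (.e (nat_lit 1800) (nat_lit 119) (.e (nat_lit 516120) (nat_lit 1) (.e (nat_lit 164331) (nat_lit 230) (.e (nat_lit 163942) (nat_lit 19) (.e (nat_lit 491264) (nat_lit 11) (.e (nat_lit 442377) (nat_lit 0) .nil)))))) (.g (nat_lit 4) .nil .nil))) 
(.lf (nat_lit 78071) (.g (nat_lit 3113) (.e (nat_lit 1800) (nat_lit 119) (.e (nat_lit 516120) (nat_lit 1) (.e (nat_lit 164396) (nat_lit 256) (.e (nat_lit 57371) (nat_lit 2) (.e (nat_lit 90167) (nat_lit 13) (.e (nat_lit 172067) (nat_lit 3) (.e (nat_lit 204837) (nat_lit 20) (.e (nat_lit 114708) (nat_lit 20) .nil)))))))) (.g (nat_lit 5) .nil .nil))))) (.nd (nat_lit 4) (.nd (nat_lit 5) 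
(.lf (nat_lit 78031) (.g (nat_lit 2344) (.e (nat_lit 1800) (nat_lit 119) (.e (nat_lit 516120) (nat_lit 1) (.e (nat_lit 164330) (nat_lit 230) (.e (nat_lit 163942) (nat_lit 19) (.e (nat_lit 491264) (nat_lit 11) (.e (nat_lit 442378) (nat_lit 0) .nil)))))) (.g (nat_lit 4) .nil .nil))) 
(.lf (nat_lit 78063) (.g (nat_lit 2261) (.e (nat_lit 1800) (nat_lit 119) (.e (nat_lit 516120) (nat_lit 1) (.e (nat_lit 164332) (nat_lit 230) (.e (nat_lit 163941) (nat_lit 19) (.e (nat_lit 491264) (nat_lit 11) (.e (nat_lit 442378) (nat_lit 0) .nil)))))) (.g (nat_lit 4) .nil .nil)))) (.nd (nat_lit 5) 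
(.lf (nat_lit 78047) (.g (nat_lit 2084) (.e (nat_lit 1800) (nat_lit 119) (.e (nat_lit 516120) (nat_lit 1) (.e (nat_lit 164332) (nat_lit 230) (.e (nat_lit 163902) (nat_lit 12) (.e (nat_lit 426568) (nat_lit 34) (.e (nat_lit 393267) (nat_lit 23) (.e (nat_lit 426382) (nat_lit 15) .nil))))))) (.g (nat_lit 4) .nil .nil))) 
(.lf (nat_lit 78079) (.g (nat_lit 4494) (.e (nat_lit 1800) (nat_lit 119) (.e (nat_lit 516120) (nat_lit 1) (.e (nat_lit 164396) (nat_lit 256) (.e (nat_lit 57371) (nat_lit 2) (.e (nat_lit 90174) (nat_lit 14) (.e (nat_lit 180243) (nat_lit 5) (.e (nat_lit 532513) (nat_lit 3) (.e (nat_lit 114708) (nat_lit 20) .nil)))))))) (.g (nat_lit 7) .nil .nil)))))))))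

noncomputable def tv1057 : DT := (.nd (nat_lit 0) (.nd (nat_lit 1) (.nd (nat_lit 2) (.nd (nat_lit 3) (.nd (nat_lit 4) (.nd (nat_lit 5) 
(.lf (nat_lit 78080) (.g (nat_lit 2261) (.e (nat_lit 1800) (nat_lit 119) (.e (nat_lit 516120) (nat_lit 1) (.e (nat_lit 164396) (nat_lit 256) (.e (nat_lit 57371) (nat_lit 2) (.e (nat_lit 90174) (nat_lit 14) (.e (nat_lit 180243) (nat_lit 5) (.e (nat_lit 532515) (nat_lit 3) (.e (nat_lit 114707) (nat_lit 20) .nil)))))))) (.g (nat_lit 4) .nil .nil))) 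
(.lf (nat_lit 78112) (.g (nat_lit 4765) (.e (nat_lit 1800) (nat_lit 119) (.e (nat_lit 516120) (nat_lit 1) (.e (nat_lit 164401) (nat_lit 256) (.e (nat_lit 57373) (nat_lit 2) (.e (nat_lit 90174) (nat_lit 14) (.e (nat_lit 180243) (nat_lit 5) (.e (nat_lit 532513) (nat_lit 3) (.e (nat_lit 114708) (nat_lit 20) .nil)))))))) (.g (nat_lit 7) .nil .nil)))) (.nd (nat_lit 5) 
(.lf (nat_lit 78096) (.g (nat_lit 2359) (.e (nat_lit 1800) (nat_lit 119) (.e (nat_lit 516120) (nat_lit 1) (.e (nat_lit 164401) (nat_lit 256) (.e (nat_lit 57373) (nat_lit 2) (.e (nat_lit 90167) (nat_lit 13) (.e (nat_lit 172067) (nat_lit 3) (.e (nat_lit 204837) (nat_lit 20) (.e (nat_lit 114708) (nat_lit 20) .nil)))))))) (.g (nat_lit 4) .nil .nil))) 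
(.lf (nat_lit 78128) (.g (nat_lit 2612) (.e (nat_lit 1800) (nat_lit 119) (.e (nat_lit 516120) (nat_lit 1) (.e (nat_lit 164402) (nat_lit 256) (.e (nat_lit 57371) (nat_lit 2) (.e (nat_lit 90174) (nat_lit 14) (.e (nat_lit 180243) (nat_lit 5) (.e (nat_lit 532513) (nat_lit 3) (.e (nat_lit 114708) (nat_lit 20) .nil)))))))) (.g (nat_lit 4) .nil .nil))))) (.nd (nat_lit 4) (.nd (nat_lit 5) 
(.lf (nat_lit 78088) (.g (nat_lit 4017) (.e (nat_lit 1800) (nat_lit 119) (.e (nat_lit 516120) (nat_lit 1) (.e (nat_lit 164396) (nat_lit 256) (.e (nat_lit 57379) (nat_lit 3) (.e (nat_lit 98366) (nat_lit 27) (.e (nat_lit 434231) (nat_lit 23) (.e (nat_lit 532514) (nat_lit 3) (.e (nat_lit 114708) (nat_lit 20) .nil)))))))) (.g (nat_lit 6) .nil .nil))) 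
(.lf (nat_lit 78120) (.g (nat_lit 3658) (.e (nat_lit 1800) (nat_lit 119) (.e (nat_lit 516120) (nat_lit 1) (.e (nat_lit 164401) (nat_lit 256) (.e (nat_lit 57378) (nat_lit 3) (.e (nat_lit 98356) (nat_lit 26) (.e (nat_lit 426131) (nat_lit 3) (.e (nat_lit 204838) (nat_lit 20) (.e (nat_lit 114708) (nat_lit 20) .nil)))))))) (.g (nat_lit 5) .nil .nil)))) (.nd (nat_lit 5) 
(.lf (nat_lit 78104) (.g (nat_lit 2394) (.e (nat_lit 1800) (nat_lit 119) (.e (nat_lit 516120) (nat_lit 1) (.e (nat_lit 164401) (nat_lit 256) (.e (nat_lit 57373) (nat_lit 2) (.e (nat_lit 90172) (nat_lit 14) (.e (nat_lit 180243) (nat_lit 5) (.e (nat_lit 532513) (nat_lit 3) (.e (nat_lit 114707) (nat_lit 20) .nil)))))))) (.g (nat_lit 4) .nil .nil))) 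
(.lf (nat_lit 78136) (.g (nat_lit 4027) (.e (nat_lit 1800) (nat_lit 119) (.e (nat_lit 516120) (nat_lit 1) (.e (nat_lit 164403) (nat_lit 256) (.e (nat_lit 57371) (nat_lit 2) (.e (nat_lit 90167) (nat_lit 13) (.e (nat_lit 172067) (nat_lit 3) (.e (nat_lit 204837) (nat_lit 20) (.e (nat_lit 114708) (nat_lit 20) .nil)))))))) (.g (nat_lit 6) .nil .nil)))))) 
(.nd (nat_lit 3) (.nd (nat_lit 4) (.nd (nat_lit 5) 
(.lf (nat_lit 78084) (.g (nat_lit 2235) (.e (nat_lit 1800) (nat_lit 119) (.e (nat_lit 516120) (nat_lit 1) (.e (nat_lit 164396) (nat_lit 256) (.e (nat_lit 57375) (nat_lit 2) (.e (nat_lit 90172) (nat_lit 14) (.e (nat_lit 180243) (nat_lit 5) (.e (nat_lit 532513) (nat_lit 3) (.e (nat_lit 114708) (nat_lit 20) .nil)))))))) (.g (nat_lit 4) .nil .nil))) 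
(.lf (nat_lit 78116) (.g (nat_lit 2668) (.e (nat_lit 1800) (nat_lit 119) (.e (nat_lit 516120) (nat_lit 1) (.e (nat_lit 164401) (nat_lit 256) (.e (nat_lit 57377) (nat_lit 3) (.e (nat_lit 98357) (nat_lit 26) (.e (nat_lit 426131) (nat_lit 3) (.e (nat_lit 204838) (nat_lit 20) (.e (nat_lit 114708) (nat_lit 20) .nil)))))))) (.g (nat_lit 4) .nil .nil)))) (.nd (nat_lit 5) 
(.lf (nat_lit 78100) (.g (nat_lit 3502) (.e (nat_lit 1800) (nat_lit 119) (.e (nat_lit 516120) (nat_lit 1) (.e (nat_lit 164401) (nat_lit 256) (.e (nat_lit 57373) (nat_lit 2) (.e (nat_lit 90170) (nat_lit 13) (.e (nat_lit 172065) (nat_lit 3) (.e (nat_lit 204837) (nat_lit 20) (.e (nat_lit 114708) (nat_lit 20) .nil)))))))) (.g (nat_lit 5) .nil .nil))) 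
(.lf (nat_lit 78132) (.g (nat_lit 2845) (.e (nat_lit 1800) (nat_lit 119) (.e (nat_lit 516120) (nat_lit 1) (.e (nat_lit 164403) (nat_lit 256) (.e (nat_lit 57370) (nat_lit 2) (.e (nat_lit 90170) (nat_lit 13) (.e (nat_lit 172067) (nat_lit 3) (.e (nat_lit 204837) (nat_lit 20) (.e (nat_lit 114708) (nat_lit 20) .nil)))))))) (.g (nat_lit 4) .nil .nil))))) (.nd (nat_lit 4) (.nd (nat_lit 5) 
(.lf (nat_lit 78092) (.g (nat_lit 2037) (.e (nat_lit 1800) (nat_lit 119) (.e (nat_lit 516120) (nat_lit 1) (.e (nat_lit 164401) (nat_lit 256) (.e (nat_lit 57371) (nat_lit 2) (.e (nat_lit 90172) (nat_lit 14) (.e (nat_lit 180244) (nat_lit 5) (.e (nat_lit 532515) (nat_lit 3) (.e (nat_lit 114708) (nat_lit 20) .nil)))))))) (.g (nat_lit 4) .nil .nil))) 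
(.lf (nat_lit 78124) (.g (nat_lit 3557) (.e (nat_lit 1800) (nat_lit 119) (.e (nat_lit 516120) (nat_lit 1) (.e (nat_lit 164401) (nat_lit 256) (.e (nat_lit 57378) (nat_lit 3) (.e (nat_lit 98358) (nat_lit 26) (.e (nat_lit 426131) (nat_lit 3) (.e (nat_lit 204838) (nat_lit 20) (.e (nat_lit 114708) (nat_lit 20) .nil)))))))) (.g (nat_lit 6) .nil .nil)))) (.nd (nat_lit 5) 
(.lf (nat_lit 78108) (.g (nat_lit 2773) (.e (nat_lit 1800) (nat_lit 119) (.e (nat_lit 516120) (nat_lit 1) (.e (nat_lit 164401) (nat_lit 256) (.e (nat_lit 57373) (nat_lit 2) (.e (nat_lit 90172) (nat_lit 14) (.e (nat_lit 180244) (nat_lit 5) (.e (nat_lit 532514) (nat_lit 3) (.e (nat_lit 114708) (nat_lit 20) .nil)))))))) (.g (nat_lit 5) .nil .nil))) 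
(.lf (nat_lit 78140) (.g (nat_lit 4115) (.e (nat_lit 1800) (nat_lit 119) (.e (nat_lit 516120) (nat_lit 1) (.e (nat_lit 164403) (nat_lit 256) (.e (nat_lit 57371) (nat_lit 2) (.e (nat_lit 90172) (nat_lit 14) (.e (nat_lit 180243) (nat_lit 5) (.e (nat_lit 532513) (nat_lit 3) (.e (nat_lit 114708) (nat_lit 20) .nil)))))))) (.g (nat_lit 5) .nil .nil))))))) 
(.nd (nat_lit 2) (.nd (nat_lit 3) (.nd (nat_lit 4) (.nd (nat_lit 5) 
(.lf (nat_lit 78082) (.g (nat_lit 2271) (.e (nat_lit 1800) (nat_lit 119) (.e (nat_lit 516120) (nat_lit 1) (.e (nat_lit 164396) (nat_lit 256) (.e (nat_lit 57372) (nat_lit 2) (.e (nat_lit 90172) (nat_lit 14) (.e (nat_lit 180243) (nat_lit 5) (.e (nat_lit 532513) (nat_lit 3) (.e (nat_lit 114708) (nat_lit 20) .nil)))))))) (.g (nat_lit 4) .nil .nil))) 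
(.lf (nat_lit 78114) (.g (nat_lit 3612) (.e (nat_lit 1800) (nat_lit 119) (.e (nat_lit 516120) (nat_lit 1) (.e (nat_lit 164401) (nat_lit 256) (.e (nat_lit 57373) (nat_lit 2) (.e (nat_lit 90174) (nat_lit 14) (.e (nat_lit 180243) (nat_lit 5) (.e (nat_lit 532515) (nat_lit 3) (.e (nat_lit 114708) (nat_lit 20) .nil)))))))) (.g (nat_lit 6) .nil .nil)))) (.nd (nat_lit 5) 
(.lf (nat_lit 78098) (.g (nat_lit 2332) (.e (nat_lit 1800) (nat_lit 119) (.e (nat_lit 516120) (nat_lit 1) (.e (nat_lit 164401) (nat_lit 256) (.e (nat_lit 57373) (nat_lit 2) (.e (nat_lit 90168) (nat_lit 13) (.e (nat_lit 172067) (nat_lit 3) (.e (nat_lit 204837) (nat_lit 20) (.e (nat_lit 114708) (nat_lit 20) .nil)))))))) (.g (nat_lit 4) .nil .nil))) 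
(.lf (nat_lit 78130) (.g (nat_lit 570) (.e (nat_lit 1800) (nat_lit 119) (.e (nat_lit 516120) (nat_lit 1) (.e (nat_lit 164403) (nat_lit 256) .nil))) .nil)))) (.nd (nat_lit 4) (.nd (nat_lit 5) 
(.lf (nat_lit 78090) (.g (nat_lit 2197) (.e (nat_lit 1800) (nat_lit 119) (.e (nat_lit 516120) (nat_lit 1) (.e (nat_lit 164401) (nat_lit 256) (.e (nat_lit 57371) (nat_lit 2) (.e (nat_lit 90172) (nat_lit 14) (.e (nat_lit 180243) (nat_lit 5) (.e (nat_lit 532513) (nat_lit 3) (.e (nat_lit 114708) (nat_lit 20) .nil)))))))) (.g (nat_lit 4) .nil .nil))) 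
(.lf (nat_lit 78122) (.g (nat_lit 2816) (.e (nat_lit 1800) (nat_lit 119) (.e (nat_lit 516120) (nat_lit 1) (.e (nat_lit 164401) (nat_lit 256) (.e (nat_lit 57378) (nat_lit 3) (.e (nat_lit 98357) (nat_lit 26) (.e (nat_lit 426131) (nat_lit 3) (.e (nat_lit 204838) (nat_lit 20) (.e (nat_lit 114708) (nat_lit 20) .nil)))))))) (.g (nat_lit 4) .nil .nil)))) (.nd (nat_lit 5) 
(.lf (nat_lit 78106) (.g (nat_lit 3128) (.e (nat_lit 1800) (nat_lit 119) (.e (nat_lit 516120) (nat_lit 1) (.e (nat_lit 164401) (nat_lit 256) (.e (nat_lit 57373) (nat_lit 2) (.e (nat_lit 90172) (nat_lit 14) (.e (nat_lit 180244) (nat_lit 5) (.e (nat_lit 532513) (nat_lit 3) (.e (nat_lit 114707) (nat_lit 20) .nil)))))))) (.g (nat_lit 5) .nil .nil))) 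
(.lf (nat_lit 78138) (.g (nat_lit 2696) (.e (nat_lit 1800) (nat_lit 119) (.e (nat_lit 516120) (nat_lit 1) (.e (nat_lit 164403) (nat_lit 256) (.e (nat_lit 57371) (nat_lit 2) (.e (nat_lit 90168) (nat_lit 13) (.e (nat_lit 172067) (nat_lit 3) (.e (nat_lit 204838) (nat_lit 20) (.e (nat_lit 114708) (nat_lit 20) .nil)))))))) (.g (nat_lit 4) .nil .nil)))))) 
(.nd (nat_lit 3) (.nd (nat_lit 4) (.nd (nat_lit 5) 
(.lf (nat_lit 78086) (.g (nat_lit 2043) (.e (nat_lit 1800) (nat_lit 119) (.e (nat_lit 516120) (nat_lit 1) (.e (nat_lit 164396) (nat_lit 256) (.e (nat_lit 57375) (nat_lit 2) (.e (nat_lit 90172) (nat_lit 14) (.e (nat_lit 180244) (nat_lit 5) (.e (nat_lit 532515) (nat_lit 3) (.e (nat_lit 114708) (nat_lit 20) .nil)))))))) (.g (nat_lit 4) .nil .nil))) 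
(.lf (nat_lit 78118) (.g (nat_lit 3227) (.e (nat_lit 1800) (nat_lit 119) (.e (nat_lit 516120) (nat_lit 1) (.e (nat_lit 164401) (nat_lit 256) (.e (nat_lit 57378) (nat_lit 3) (.e (nat_lit 98355) (nat_lit 26) (.e (nat_lit 426131) (nat_lit 3) (.e (nat_lit 204838) (nat_lit 20) (.e (nat_lit 114708) (nat_lit 20) .nil)))))))) (.g (nat_lit 4) .nil .nil)))) (.nd (nat_lit 5) 
(.lf (nat_lit 78102) (.g (nat_lit 4132) (.e (nat_lit 1800) (nat_lit 119) (.e (nat_lit 516120) (nat_lit 1) (.e (nat_lit 164401) (nat_lit 256) (.e (nat_lit 57373) (nat_lit 2) (.e (nat_lit 90170) (nat_lit 13) (.e (nat_lit 172067) (nat_lit 3) (.e (nat_lit 204837) (nat_lit 20) (.e (nat_lit 114708) (nat_lit 20) .nil)))))))) (.g (nat_lit 6) .nil .nil))) 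
(.lf (nat_lit 78134) (.g (nat_lit 2818) (.e (nat_lit 1800) (nat_lit 119) (.e (nat_lit 516120) (nat_lit 1) (.e (nat_lit 164403) (nat_lit 256) (.e (nat_lit 57370) (nat_lit 2) (.e (nat_lit 90174) (nat_lit 14) (.e (nat_lit 180243) (nat_lit 5) (.e (nat_lit 532513) (nat_lit 3) (.e (nat_lit 114708) (nat_lit 20) .nil)))))))) (.g (nat_lit 4) .nil .nil))))) (.nd (nat_lit 4) (.nd (nat_lit 5) 
(.lf (nat_lit 78094) (.g (nat_lit 3293) (.e (nat_lit 1800) (nat_lit 119) (.e (nat_lit 516120) (nat_lit 1) (.e (nat_lit 164401) (nat_lit 256) (.e (nat_lit 57371) (nat_lit 2) (.e (nat_lit 90174) (nat_lit 14) (.e (nat_lit 180243) (nat_lit 5) (.e (nat_lit 532513) (nat_lit 3) (.e (nat_lit 114708) (nat_lit 20) .nil)))))))) (.g (nat_lit 5) .nil .nil))) 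
(.lf (nat_lit 78126) (.g (nat_lit 2518) (.e (nat_lit 1800) (nat_lit 119) (.e (nat_lit 516120) (nat_lit 1) (.e (nat_lit 164401) (nat_lit 256) (.e (nat_lit 57378) (nat_lit 3) (.e (nat_lit 98377) (nat_lit 30) (.e (nat_lit 458789) (nat_lit 23) (.e (nat_lit 532515) (nat_lit 3) (.e (nat_lit 114708) (nat_lit 20) .nil)))))))) (.g (nat_lit 4) .nil .nil)))) (.nd (nat_lit 5) 
(.lf (nat_lit 78110) (.g (nat_lit 3391) (.e (nat_lit 1800) (nat_lit 119) (.e (nat_lit 516120) (nat_lit 1) (.e (nat_lit 164401) (nat_lit 256) (.e (nat_lit 57373) (nat_lit 2) (.e (nat_lit 90172) (nat_lit 14) (.e (nat_lit 180244) (nat_lit 5) (.e (nat_lit 532515) (nat_lit 3) (.e (nat_lit 114708) (nat_lit 20) .nil)))))))) (.g (nat_lit 5) .nil .nil))) 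
(.lf (nat_lit 78142) (.g (nat_lit 3113) (.e (nat_lit 1800) (nat_lit 119) (.e (nat_lit 516120) (nat_lit 1) (.e (nat_lit 164403) (nat_lit 256) (.e (nat_lit 57371) (nat_lit 2) (.e (nat_lit 90172) (nat_lit 14) (.e (nat_lit 180244) (nat_lit 5) (.e (nat_lit 532513) (nat_lit 3) (.e (nat_lit 114707) (nat_lit 20) .nil)))))))) (.g (nat_lit 4) .nil .nil)))))))) 
(.nd (nat_lit 1) (.nd (nat_lit 2) (.nd (nat_lit 3) (.nd (nat_lit 4) (.nd (nat_lit 5) 
(.lf (nat_lit 78081) (.g (nat_lit 3359) (.e (nat_lit 1800) (nat_lit 119) (.e (nat_lit 516120) (nat_lit 1) (.e (nat_lit 164396) (nat_lit 256) (.e (nat_lit 57371) (nat_lit 2) (.e (nat_lit 90174) (nat_lit 14) (.e (nat_lit 180243) (nat_lit 5) (.e (nat_lit 532515) (nat_lit 3) (.e (nat_lit 114708) (nat_lit 20) .nil)))))))) (.g (nat_lit 5) .nil .nil))) 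
(.lf (nat_lit 78113) (.g (nat_lit 2514) (.e (nat_lit 1800) (nat_lit 119) (.e (nat_lit 516120) (nat_lit 1) (.e (nat_lit 164401) (nat_lit 256) (.e (nat_lit 57373) (nat_lit 2) (.e (nat_lit 90174) (nat_lit 14) (.e (nat_lit 180243) (nat_lit 5) (.e (nat_lit 532515) (nat_lit 3) (.e (nat_lit 114707) (nat_lit 20) .nil)))))))) (.g (nat_lit 4) .nil .nil)))) (.nd (nat_lit 5) 
(.lf (nat_lit 78097) (.g (nat_lit 2111) (.e (nat_lit 1800) (nat_lit 119) (.e (nat_lit 516120) (nat_lit 1) (.e (nat_lit 164401) (nat_lit 256) (.e (nat_lit 57373) (nat_lit 2) (.e (nat_lit 90167) (nat_lit 13) (.e (nat_lit 172067) (nat_lit 3) (.e (nat_lit 204838) (nat_lit 20) (.e (nat_lit 114708) (nat_lit 20) .nil)))))))) (.g (nat_lit 4) .nil .nil))) 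
(.lf (nat_lit 78129) (.g (nat_lit 2331) (.e (nat_lit 1800) (nat_lit 119) (.e (nat_lit 516120) (nat_lit 1) (.e (nat_lit 164402) (nat_lit 256) (.e (nat_lit 57373) (nat_lit 2) (.e (nat_lit 90174) (nat_lit 14) (.e (nat_lit 180243) (nat_lit 5) (.e (nat_lit 532513) (nat_lit 3) (.e (nat_lit 114708) (nat_lit 20) .nil)))))))) (.g (nat_lit 4) .nil .nil))))) (.nd (nat_lit 4) (.nd (nat_lit 5) 
(.lf (nat_lit 78089) (.g (nat_lit 3243) (.e (nat_lit 1800) (nat_lit 119) (.e (nat_lit 516120) (nat_lit 1) (.e (nat_lit 164396) (nat_lit 256) (.e (nat_lit 57379) (nat_lit 3) (.e (nat_lit 98367) (nat_lit 27) (.e (nat_lit 434231) (nat_lit 23) (.e (nat_lit 532514) (nat_lit 3) (.e (nat_lit 114708) (nat_lit 20) .nil)))))))) (.g (nat_lit 5) .nil .nil))) 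
(.lf (nat_lit 78121) (.g (nat_lit 2574) (.e (nat_lit 1800) (nat_lit 119) (.e (nat_lit 516120) (nat_lit 1) (.e (nat_lit 164401) (nat_lit 256) (.e (nat_lit 57378) (nat_lit 3) (.e (nat_lit 98357) (nat_lit 26) (.e (nat_lit 426131) (nat_lit 3) (.e (nat_lit 204837) (nat_lit 20) (.e (nat_lit 114708) (nat_lit 20) .nil)))))))) (.g (nat_lit 4) .nil .nil)))) (.nd (nat_lit 5) 
(.lf (nat_lit 78105) (.g (nat_lit 3400) (.e (nat_lit 1800) (nat_lit 119) (.e (nat_lit 516120) (nat_lit 1) (.e (nat_lit 164401) (nat_lit 256) (.e (nat_lit 57373) (nat_lit 2) (.e (nat_lit 90172) (nat_lit 14) (.e (nat_lit 180243) (nat_lit 5) (.e (nat_lit 532513) (nat_lit 3) (.e (nat_lit 114708) (nat_lit 20) .nil)))))))) (.g (nat_lit 5) .nil .nil))) 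
(.lf (nat_lit 78137) (.g (nat_lit 3058) (.e (nat_lit 1800) (nat_lit 119) (.e (nat_lit 516120) (nat_lit 1) (.e (nat_lit 164403) (nat_lit 256) (.e (nat_lit 57371) (nat_lit 2) (.e (nat_lit 90168) (nat_lit 13) (.e (nat_lit 172067) (nat_lit 3) (.e (nat_lit 204837) (nat_lit 20) (.e (nat_lit 114708) (nat_lit 20) .nil)))))))) (.g (nat_lit 4) .nil .nil)))))) 
(.nd (nat_lit 3) (.nd (nat_lit 4) (.nd (nat_lit 5) 
(.lf (nat_lit 78085) (.g (nat_lit 2961) (.e (nat_lit 1800) (nat_lit 119) (.e (nat_lit 516120) (nat_lit 1) (.e (nat_lit 164396) (nat_lit 256) (.e (nat_lit 57375) (nat_lit 2) (.e (nat_lit 90172) (nat_lit 14) (.e (nat_lit 180244) (nat_lit 5) (.e (nat_lit 532513) (nat_lit 3) (.e (nat_lit 114708) (nat_lit 20) .nil)))))))) (.g (nat_lit 5) .nil .nil))) 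
(.lf (nat_lit 78117) (.g (nat_lit 2985) (.e (nat_lit 1800) (nat_lit 119) (.e (nat_lit 516120) (nat_lit 1) (.e (nat_lit 164401) (nat_lit 256) (.e (nat_lit 57378) (nat_lit 3) (.e (nat_lit 98355) (nat_lit 26) (.e (nat_lit 426131) (nat_lit 3) (.e (nat_lit 204837) (nat_lit 20) (.e (nat_lit 114708) (nat_lit 20) .nil)))))))) (.g (nat_lit 4) .nil .nil)))) (.nd (nat_lit 5) 
(.lf (nat_lit 78101) (.g (nat_lit 3623) (.e (nat_lit 1800) (nat_lit 119) (.e (nat_lit 516120) (nat_lit 1) (.e (nat_lit 164401) (nat_lit 256) (.e (nat_lit 57373) (nat_lit 2) (.e (nat_lit 90170) (nat_lit 13) (.e (nat_lit 172065) (nat_lit 3) (.e (nat_lit 204838) (nat_lit 20) (.e (nat_lit 114708) (nat_lit 20) .nil)))))))) (.g (nat_lit 6) .nil .nil))) 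
(.lf (nat_lit 78133) (.g (nat_lit 3107) (.e (nat_lit 1800) (nat_lit 119) (.e (nat_lit 516120) (nat_lit 1) (.e (nat_lit 164403) (nat_lit 256) (.e (nat_lit 57370) (nat_lit 2) (.e (nat_lit 90172) (nat_lit 14) (.e (nat_lit 180244) (nat_lit 5) (.e (nat_lit 532513) (nat_lit 3) (.e (nat_lit 114708) (nat_lit 20) .nil)))))))) (.g (nat_lit 5) .nil .nil))))) (.nd (nat_lit 4) (.nd (nat_lit 5) 
(.lf (nat_lit 78093) (.g (nat_lit 2453) (.e (nat_lit 1800) (nat_lit 119) (.e (nat_lit 516120) (nat_lit 1) (.e (nat_lit 164401) (nat_lit 256) (.e (nat_lit 57371) (nat_lit 2) (.e (nat_lit 90174) (nat_lit 14) (.e (nat_lit 180243) (nat_lit 5) (.e (nat_lit 532513) (nat_lit 3) (.e (nat_lit 114707) (nat_lit 20) .nil)))))))) (.g (nat_lit 4) .nil .nil))) 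
(.lf (nat_lit 78125) (.g (nat_lit 2440) (.e (nat_lit 1800) (nat_lit 119) (.e (nat_lit 516120) (nat_lit 1) (.e (nat_lit 164401) (nat_lit 256) (.e (nat_lit 57378) (nat_lit 3) (.e (nat_lit 98376) (nat_lit 30) (.e (nat_lit 458789) (nat_lit 23) (.e (nat_lit 532515) (nat_lit 3) (.e (nat_lit 114708) (nat_lit 20) .nil)))))))) (.g (nat_lit 4) .nil .nil)))) (.nd (nat_lit 5) 
(.lf (nat_lit 78109) (.g (nat_lit 2229) (.e (nat_lit 1800) (nat_lit 119) (.e (nat_lit 516120) (nat_lit 1) (.e (nat_lit 164401) (nat_lit 256) (.e (nat_lit 57373) (nat_lit 2) (.e (nat_lit 90172) (nat_lit 14) (.e (nat_lit 180244) (nat_lit 5) (.e (nat_lit 532515) (nat_lit 3) (.e (nat_lit 114707) (nat_lit 20) .nil)))))))) (.g (nat_lit 4) .nil .nil))) 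
(.lf (nat_lit 78141) (.g (nat_lit 2763) (.e (nat_lit 1800) (nat_lit 119) (.e (nat_lit 516120) (nat_lit 1) (.e (nat_lit 164403) (nat_lit 256) (.e (nat_lit 57371) (nat_lit 2) (.e (nat_lit 90172) (nat_lit 14) (.e (nat_lit 180243) (nat_lit 5) (.e (nat_lit 532515) (nat_lit 3) (.e (nat_lit 114708) (nat_lit 20) .nil)))))))) (.g (nat_lit 4) .nil .nil))))))) 
(.nd (nat_lit 2) (.nd (nat_lit 3) (.nd (nat_lit 4) (.nd (nat_lit 5) 
(.lf (nat_lit 78083) (.g (nat_lit 3660) (.e (nat_lit 1800) (nat_lit 119) (.e (nat_lit 516120) (nat_lit 1) (.e (nat_lit 164396) (nat_lit 256) (.e (nat_lit 57374) (nat_lit 2) (.e (nat_lit 90170) (nat_lit 13) (.e (nat_lit 172067) (nat_lit 3) (.e (nat_lit 204837) (nat_lit 20) (.e (nat_lit 114708) (nat_lit 20) .nil)))))))) (.g (nat_lit 5) .nil .nil))) 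
(.lf (nat_lit 78115) (.g (nat_lit 2426) (.e (nat_lit 1800) (nat_lit 119) (.e (nat_lit 516120) (nat_lit 1) (.e (nat_lit 164401) (nat_lit 256) (.e (nat_lit 57377) (nat_lit 3) (.e (nat_lit 98357) (nat_lit 26) (.e (nat_lit 426131) (nat_lit 3) (.e (nat_lit 204837) (nat_lit 20) (.e (nat_lit 114708) (nat_lit 20) .nil)))))))) (.g (nat_lit 4) .nil .nil)))) (.nd (nat_lit 5) 
(.lf (nat_lit 78099) (.g (nat_lit 1938) (.e (nat_lit 1800) (nat_lit 119) (.e (nat_lit 516120) (nat_lit 1) (.e (nat_lit 164401) (nat_lit 256) (.e (nat_lit 57373) (nat_lit 2) (.e (nat_lit 90168) (nat_lit 13) (.e (nat_lit 172067) (nat_lit 3) (.e (nat_lit 204838) (nat_lit 20) (.e (nat_lit 114708) (nat_lit 20) .nil)))))))) (.g (nat_lit 4) .nil .nil))) 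
(.lf (nat_lit 78131) (.g (nat_lit 2788) (.e (nat_lit 1800) (nat_lit 119) (.e (nat_lit 516120) (nat_lit 1) (.e (nat_lit 164403) (nat_lit 256) (.e (nat_lit 57370) (nat_lit 2) (.e (nat_lit 90170) (nat_lit 13) (.e (nat_lit 172065) (nat_lit 3) (.e (nat_lit 204837) (nat_lit 20) (.e (nat_lit 114708) (nat_lit 20) .nil)))))))) (.g (nat_lit 4) .nil .nil))))) (.nd (nat_lit 4) (.nd (nat_lit 5) 
(.lf (nat_lit 78091) (.g (nat_lit 2953) (.e (nat_lit 1800) (nat_lit 119) (.e (nat_lit 516120) (nat_lit 1) (.e (nat_lit 164401) (nat_lit 256) (.e (nat_lit 57371) (nat_lit 2) (.e (nat_lit 90172) (nat_lit 14) (.e (nat_lit 180244) (nat_lit 5) (.e (nat_lit 532513) (nat_lit 3) (.e (nat_lit 114708) (nat_lit 20) .nil)))))))) (.g (nat_lit 5) .nil .nil))) 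
(.lf (nat_lit 78123) (.g (nat_lit 3290) (.e (nat_lit 1800) (nat_lit 119) (.e (nat_lit 516120) (nat_lit 1) (.e (nat_lit 164401) (nat_lit 256) (.e (nat_lit 57378) (nat_lit 3) (.e (nat_lit 98358) (nat_lit 26) (.e (nat_lit 426131) (nat_lit 3) (.e (nat_lit 204837) (nat_lit 20) (.e (nat_lit 114708) (nat_lit 20) .nil)))))))) (.g (nat_lit 6) .nil .nil)))) (.nd (nat_lit 5) 
(.lf (nat_lit 78107) (.g (nat_lit 4269) (.e (nat_lit 1800) (nat_lit 119) (.e (nat_lit 516120) (nat_lit 1) (.e (nat_lit 164401) (nat_lit 256) (.e (nat_lit 57373) (nat_lit 2) (.e (nat_lit 90172) (nat_lit 14) (.e (nat_lit 180244) (nat_lit 5) (.e (nat_lit 532513) (nat_lit 3) (.e (nat_lit 114708) (nat_lit 20) .nil)))))))) (.g (nat_lit 7) .nil .nil))) 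
(.lf (nat_lit 78139) (.g (nat_lit 3109) (.e (nat_lit 1800) (nat_lit 119) (.e (nat_lit 516120) (nat_lit 1) (.e (nat_lit 164403) (nat_lit 256) (.e (nat_lit 57371) (nat_lit 2) (.e (nat_lit 90172) (nat_lit 14) (.e (nat_lit 180243) (nat_lit 5) (.e (nat_lit 532513) (nat_lit 3) (.e (nat_lit 114707) (nat_lit 20) .nil)))))))) (.g (nat_lit 4) .nil .nil)))))) 
(.nd (nat_lit 3) (.nd (nat_lit 4) (.nd (nat_lit 5) 
(.lf (nat_lit 78087) (.g (nat_lit 2827) (.e (nat_lit 1800) (nat_lit 119) (.e (nat_lit 516120) (nat_lit 1) (.e (nat_lit 164396) (nat_lit 256) (.e (nat_lit 57375) (nat_lit 2) (.e (nat_lit 90174) (nat_lit 14) (.e (nat_lit 180243) (nat_lit 5) (.e (nat_lit 532513) (nat_lit 3) (.e (nat_lit 114708) (nat_lit 20) .nil)))))))) (.g (nat_lit 4) .nil .nil))) 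
(.lf (nat_lit 78119) (.g (nat_lit 3416) (.e (nat_lit 1800) (nat_lit 119) (.e (nat_lit 516120) (nat_lit 1) (.e (nat_lit 164401) (nat_lit 256) (.e (nat_lit 57378) (nat_lit 3) (.e (nat_lit 98356) (nat_lit 26) (.e (nat_lit 426131) (nat_lit 3) (.e (nat_lit 204837) (nat_lit 20) (.e (nat_lit 114708) (nat_lit 20) .nil)))))))) (.g (nat_lit 5) .nil .nil)))) (.nd (nat_lit 5) 
(.lf (nat_lit 78103) (.g (nat_lit 3877) (.e (nat_lit 1800) (nat_lit 119) (.e (nat_lit 516120) (nat_lit 1) (.e (nat_lit 164401) (nat_lit 256) (.e (nat_lit 57373) (nat_lit 2) (.e (nat_lit 90170) (nat_lit 13) (.e (nat_lit 172067) (nat_lit 3) (.e (nat_lit 204838) (nat_lit 20) (.e (nat_lit 114708) (nat_lit 20) .nil)))))))) (.g (nat_lit 6) .nil .nil))) 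
(.lf (nat_lit 78135) (.g (nat_lit 2417) (.e (nat_lit 1800) (nat_lit 119) (.e (nat_lit 516120) (nat_lit 1) (.e (nat_lit 164403) (nat_lit 256) (.e (nat_lit 57371) (nat_lit 2) (.e (nat_lit 90167) (nat_lit 13) (.e (nat_lit 172065) (nat_lit 3) (.e (nat_lit 204838) (nat_lit 20) (.e (nat_lit 114708) (nat_lit 20) .nil)))))))) (.g (nat_lit 4) .nil .nil))))) (.nd (nat_lit 4) (.nd (nat_lit 5) 
(.lf (nat_lit 78095) (.g (nat_lit 2158) (.e (nat_lit 1800) (nat_lit 119) (.e (nat_lit 516120) (nat_lit 1) (.e (nat_lit 164401) (nat_lit 256) (.e (nat_lit 57371) (nat_lit 2) (.e (nat_lit 90174) (nat_lit 14) (.e (nat_lit 180243) (nat_lit 5) (.e (nat_lit 532515) (nat_lit 3) (.e (nat_lit 114708) (nat_lit 20) .nil)))))))) (.g (nat_lit 4) .nil .nil))) 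
(.lf (nat_lit 78127) (.g (nat_lit 2211) (.e (nat_lit 1800) (nat_lit 119) (.e (nat_lit 516120) (nat_lit 1) (.e (nat_lit 164402) (nat_lit 256) (.e (nat_lit 57371) (nat_lit 2) (.e (nat_lit 90172) (nat_lit 14) (.e (nat_lit 180244) (nat_lit 5) (.e (nat_lit 532513) (nat_lit 3) (.e (nat_lit 114708) (nat_lit 20) .nil)))))))) (.g (nat_lit 4) .nil .nil)))) (.nd (nat_lit 5) 
(.lf (nat_lit 78111) (.g (nat_lit 3925) (.e (nat_lit 1800) (nat_lit 119) (.e (nat_lit 516120) (nat_lit 1) (.e (nat_lit 164401) (nat_lit 256) (.e (nat_lit 57373) (nat_lit 2) (.e (nat_lit 90174) (nat_lit 14) (.e (nat_lit 180243) (nat_lit 5) (.e (nat_lit 532513) (nat_lit 3) (.e (nat_lit 114707) (nat_lit 20) .nil)))))))) (.g (nat_lit 6) .nil .nil))) 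
(.lf (nat_lit 78143) (.g (nat_lit 4254) (.e (nat_lit 1800) (nat_lit 119) (.e (nat_lit 516120) (nat_lit 1) (.e (nat_lit 164403) (nat_lit 256) (.e (nat_lit 57371) (nat_lit 2) (.e (nat_lit 90172) (nat_lit 14) (.e (nat_lit 180244) (nat_lit 5) (.e (nat_lit 532513) (nat_lit 3) (.e (nat_lit 114708) (nat_lit 20) .nil)))))))) (.g (nat_lit 6) .nil .nil)))))))))

noncomputable def tv1058 : DT := (.nd (nat_lit 0) (.nd (nat_lit 1) (.nd (nat_lit 2) (.nd (nat_lit 3) (.nd (nat_lit 4) (.nd (nat_lit 5) 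
(.lf (nat_lit 78144) (.g (nat_lit 2789) (.e (nat_lit 1800) (nat_lit 119) (.e (nat_lit 516120) (nat_lit 1) (.e (nat_lit 164403) (nat_lit 256) (.e (nat_lit 57371) (nat_lit 2) (.e (nat_lit 90172) (nat_lit 14) (.e (nat_lit 180244) (nat_lit 5) (.e (nat_lit 532514) (nat_lit 3) (.e (nat_lit 114708) (nat_lit 20) .nil)))))))) (.g (nat_lit 4) .nil .nil))) 
(.lf (nat_lit 78176) (.g (nat_lit 3095) (.e (nat_lit 1800) (nat_lit 119) (.e (nat_lit 516120) (nat_lit 1) (.e (nat_lit 164403) (nat_lit 256) (.e (nat_lit 57378) (nat_lit 3) (.e (nat_lit 98357) (nat_lit 26) (.e (nat_lit 426131) (nat_lit 3) (.e (nat_lit 204838) (nat_lit 20) (.e (nat_lit 114708) (nat_lit 20) .nil)))))))) (.g (nat_lit 4) .nil .nil)))) (.nd (nat_lit 5) 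
(.lf (nat_lit 78160) (.g (nat_lit 4435) (.e (nat_lit 1800) (nat_lit 119) (.e (nat_lit 516120) (nat_lit 1) (.e (nat_lit 164403) (nat_lit 256) (.e (nat_lit 57373) (nat_lit 2) (.e (nat_lit 90172) (nat_lit 14) (.e (nat_lit 180243) (nat_lit 5) (.e (nat_lit 532513) (nat_lit 3) (.e (nat_lit 114708) (nat_lit 20) .nil)))))))) (.g (nat_lit 5) .nil .nil))) 
(.lf (nat_lit 78192) (.g (nat_lit 1603) (.e (nat_lit 1800) (nat_lit 119) (.e (nat_lit 516127) (nat_lit 2) (.e (nat_lit 213030) (nat_lit 11) (.e (nat_lit 24605) (nat_lit 2) (.e (nat_lit 90176) (nat_lit 15) (.e (nat_lit 196352) (nat_lit 0) .nil)))))) (.g (nat_lit 5) .nil .nil))))) (.nd (nat_lit 4) (.nd (nat_lit 5) 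
(.lf (nat_lit 78152) (.g (nat_lit 3152) (.e (nat_lit 1800) (nat_lit 119) (.e (nat_lit 516120) (nat_lit 1) (.e (nat_lit 164403) (nat_lit 256) (.e (nat_lit 57373) (nat_lit 2) (.e (nat_lit 90168) (nat_lit 13) (.e (nat_lit 172067) (nat_lit 3) (.e (nat_lit 204838) (nat_lit 20) (.e (nat_lit 114708) (nat_lit 20) .nil)))))))) (.g (nat_lit 4) .nil .nil))) 
(.lf (nat_lit 78184) (.g (nat_lit 1763) (.e (nat_lit 1800) (nat_lit 119) (.e (nat_lit 516126) (nat_lit 2) (.e (nat_lit 213030) (nat_lit 11) (.e (nat_lit 24604) (nat_lit 2) (.e (nat_lit 90176) (nat_lit 15) (.e (nat_lit 196352) (nat_lit 0) .nil)))))) (.g (nat_lit 5) .nil .nil)))) (.nd (nat_lit 5) 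
(.lf (nat_lit 78168) (.g (nat_lit 3160) (.e (nat_lit 1800) (nat_lit 119) (.e (nat_lit 516120) (nat_lit 1) (.e (nat_lit 164403) (nat_lit 256) (.e (nat_lit 57373) (nat_lit 2) (.e (nat_lit 90174) (nat_lit 14) (.e (nat_lit 180243) (nat_lit 5) (.e (nat_lit 532515) (nat_lit 3) (.e (nat_lit 114707) (nat_lit 20) .nil)))))))) (.g (nat_lit 4) .nil .nil))) 
(.lf (nat_lit 78200) (.g (nat_lit 1872) (.e (nat_lit 1800) (nat_lit 119) (.e (nat_lit 516129) (nat_lit 3) (.e (nat_lit 221190) (nat_lit 11) (.e (nat_lit 336027) (nat_lit 3) (.e (nat_lit 98381) (nat_lit 31) (.e (nat_lit 466947) (nat_lit 0) .nil)))))) (.g (nat_lit 4) .nil .nil)))))) (.nd (nat_lit 3) (.nd (nat_lit 4) (.nd (nat_lit 5) 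
(.lf (nat_lit 78148) (.g (nat_lit 3492) (.e (nat_lit 1800) (nat_lit 119) (.e (nat_lit 516120) (nat_lit 1) (.e (nat_lit 164403) (nat_lit 256) (.e (nat_lit 57371) (nat_lit 2) (.e (nat_lit 90174) (nat_lit 14) (.e (nat_lit 180243) (nat_lit 5) (.e (nat_lit 532515) (nat_lit 3) (.e (nat_lit 114708) (nat_lit 20) .nil)))))))) (.g (nat_lit 5) .nil .nil))) 
(.lf (nat_lit 78180) (.g (nat_lit 2918) (.e (nat_lit 1800) (nat_lit 119) (.e (nat_lit 516120) (nat_lit 1) (.e (nat_lit 164403) (nat_lit 256) (.e (nat_lit 57378) (nat_lit 3) (.e (nat_lit 98376) (nat_lit 30) (.e (nat_lit 458789) (nat_lit 23) (.e (nat_lit 532515) (nat_lit 3) (.e (nat_lit 114708) (nat_lit 20) .nil)))))))) (.g (nat_lit 4) .nil .nil)))) (.nd (nat_lit 5) 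
(.lf (nat_lit 78164) (.g (nat_lit 3181) (.e (nat_lit 1800) (nat_lit 119) (.e (nat_lit 516120) (nat_lit 1) (.e (nat_lit 164403) (nat_lit 256) (.e (nat_lit 57373) (nat_lit 2) (.e (nat_lit 90172) (nat_lit 14) (.e (nat_lit 180244) (nat_lit 5) (.e (nat_lit 532515) (nat_lit 3) (.e (nat_lit 114707) (nat_lit 20) .nil)))))))) (.g (nat_lit 4) .nil .nil))) 
(.lf (nat_lit 78196) (.g (nat_lit 1990) (.e (nat_lit 1800) (nat_lit 119) (.e (nat_lit 516129) (nat_lit 3) (.e (nat_lit 221190) (nat_lit 11) (.e (nat_lit 336012) (nat_lit 2) (.e (nat_lit 90176) (nat_lit 15) (.e (nat_lit 188420) (nat_lit 0) .nil)))))) (.g (nat_lit 5) .nil .nil))))) (.nd (nat_lit 4) (.nd (nat_lit 5) 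
(.lf (nat_lit 78156) (.g (nat_lit 5087) (.e (nat_lit 1800) (nat_lit 119) (.e (nat_lit 516120) (nat_lit 1) (.e (nat_lit 164403) (nat_lit 256) (.e (nat_lit 57373) (nat_lit 2) (.e (nat_lit 90170) (nat_lit 13) (.e (nat_lit 172067) (nat_lit 3) (.e (nat_lit 204837) (nat_lit 20) (.e (nat_lit 114708) (nat_lit 20) .nil)))))))) (.g (nat_lit 7) .nil .nil))) 
(.lf (nat_lit 78188) (.g (nat_lit 1641) (.e (nat_lit 1800) (nat_lit 119) (.e (nat_lit 516126) (nat_lit 2) (.e (nat_lit 213032) (nat_lit 11) (.e (nat_lit 24605) (nat_lit 2) (.e (nat_lit 90176) (nat_lit 15) (.e (nat_lit 196352) (nat_lit 0) .nil)))))) (.g (nat_lit 5) .nil .nil)))) (.nd (nat_lit 5) 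
(.lf (nat_lit 78172) (.g (nat_lit 3283) (.e (nat_lit 1800) (nat_lit 119) (.e (nat_lit 516120) (nat_lit 1) (.e (nat_lit 164403) (nat_lit 256) (.e (nat_lit 57378) (nat_lit 3) (.e (nat_lit 98355) (nat_lit 26) (.e (nat_lit 426131) (nat_lit 3) (.e (nat_lit 204837) (nat_lit 20) (.e (nat_lit 114708) (nat_lit 20) .nil)))))))) (.g (nat_lit 4) .nil .nil))) 
(.lf (nat_lit 78204) (.g (nat_lit 1748) (.e (nat_lit 1800) (nat_lit 119) (.e (nat_lit 516129) (nat_lit 3) (.e (nat_lit 221193) (nat_lit 11) (.e (nat_lit 336010) (nat_lit 2) (.e (nat_lit 90176) (nat_lit 15) (.e (nat_lit 196352) (nat_lit 0) .nil)))))) (.g (nat_lit 5) .nil .nil))))))) (.nd (nat_lit 2) (.nd (nat_lit 3) (.nd (nat_lit 4) (.nd (nat_lit 5) 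
(.lf (nat_lit 78146) (.g (nat_lit 3787) (.e (nat_lit 1800) (nat_lit 119) (.e (nat_lit 516120) (nat_lit 1) (.e (nat_lit 164403) (nat_lit 256) (.e (nat_lit 57371) (nat_lit 2) (.e (nat_lit 90174) (nat_lit 14) (.e (nat_lit 180243) (nat_lit 5) (.e (nat_lit 532513) (nat_lit 3) (.e (nat_lit 114707) (nat_lit 20) .nil)))))))) (.g (nat_lit 5) .nil .nil))) 
(.lf (nat_lit 78178) (.g (nat_lit 4414) (.e (nat_lit 1800) (nat_lit 119) (.e (nat_lit 516120) (nat_lit 1) (.e (nat_lit 164403) (nat_lit 256) (.e (nat_lit 57378) (nat_lit 3) (.e (nat_lit 98358) (nat_lit 26) (.e (nat_lit 426131) (nat_lit 3) (.e (nat_lit 204838) (nat_lit 20) (.e (nat_lit 114708) (nat_lit 20) .nil)))))))) (.g (nat_lit 7) .nil .nil)))) (.nd (nat_lit 5) 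
(.lf (nat_lit 78162) (.g (nat_lit 5221) (.e (nat_lit 1800) (nat_lit 119) (.e (nat_lit 516120) (nat_lit 1) (.e (nat_lit 164403) (nat_lit 256) (.e (nat_lit 57373) (nat_lit 2) (.e (nat_lit 90172) (nat_lit 14) (.e (nat_lit 180244) (nat_lit 5) (.e (nat_lit 532513) (nat_lit 3) (.e (nat_lit 114708) (nat_lit 20) .nil)))))))) (.g (nat_lit 7) .nil .nil))) 
(.lf (nat_lit 78194) (.g (nat_lit 1696) (.e (nat_lit 1800) (nat_lit 119) (.e (nat_lit 516127) (nat_lit 2) (.e (nat_lit 213032) (nat_lit 11) (.e (nat_lit 24605) (nat_lit 2) (.e (nat_lit 90176) (nat_lit 15) (.e (nat_lit 196352) (nat_lit 0) .nil)))))) (.g (nat_lit 5) .nil .nil))))) (.nd (nat_lit 4) (.nd (nat_lit 5) 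
(.lf (nat_lit 78154) (.g (nat_lit 4488) (.e (nat_lit 1800) (nat_lit 119) (.e (nat_lit 516120) (nat_lit 1) (.e (nat_lit 164403) (nat_lit 256) (.e (nat_lit 57373) (nat_lit 2) (.e (nat_lit 90170) (nat_lit 13) (.e (nat_lit 172065) (nat_lit 3) (.e (nat_lit 204838) (nat_lit 20) (.e (nat_lit 114708) (nat_lit 20) .nil)))))))) (.g (nat_lit 7) .nil .nil))) 
(.lf (nat_lit 78186) (.g (nat_lit 1589) (.e (nat_lit 1800) (nat_lit 119) (.e (nat_lit 516126) (nat_lit 2) (.e (nat_lit 213030) (nat_lit 11) (.e (nat_lit 24605) (nat_lit 2) (.e (nat_lit 90176) (nat_lit 15) (.e (nat_lit 196352) (nat_lit 0) .nil)))))) (.g (nat_lit 5) .nil .nil)))) (.nd (nat_lit 5) 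
(.lf (nat_lit 78170) (.g (nat_lit 3180) (.e (nat_lit 1800) (nat_lit 119) (.e (nat_lit 516120) (nat_lit 1) (.e (nat_lit 164403) (nat_lit 256) (.e (nat_lit 57377) (nat_lit 3) (.e (nat_lit 98357) (nat_lit 26) (.e (nat_lit 426131) (nat_lit 3) (.e (nat_lit 204837) (nat_lit 20) (.e (nat_lit 114708) (nat_lit 20) .nil)))))))) (.g (nat_lit 4) .nil .nil))) 
(.lf (nat_lit 78202) (.g (nat_lit 1869) (.e (nat_lit 1800) (nat_lit 119) (.e (nat_lit 516129) (nat_lit 3) (.e (nat_lit 221193) (nat_lit 11) (.e (nat_lit 336009) (nat_lit 2) (.e (nat_lit 90178) (nat_lit 15) (.e (nat_lit 188418) (nat_lit 0) .nil)))))) (.g (nat_lit 5) .nil .nil)))))) (.nd (nat_lit 3) (.nd (nat_lit 4) (.nd (nat_lit 5) 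
(.lf (nat_lit 78150) (.g (nat_lit 3548) (.e (nat_lit 1800) (nat_lit 119) (.e (nat_lit 516120) (nat_lit 1) (.e (nat_lit 164403) (nat_lit 256) (.e (nat_lit 57373) (nat_lit 2) (.e (nat_lit 90167) (nat_lit 13) (.e (nat_lit 172067) (nat_lit 3) (.e (nat_lit 204838) (nat_lit 20) (.e (nat_lit 114708) (nat_lit 20) .nil)))))))) (.g (nat_lit 4) .nil .nil))) 
(.lf (nat_lit 78182) (.g (nat_lit 1429) (.e (nat_lit 1800) (nat_lit 119) (.e (nat_lit 516124) (nat_lit 2) (.e (nat_lit 213030) (nat_lit 11) (.e (nat_lit 24605) (nat_lit 2) (.e (nat_lit 90178) (nat_lit 15) (.e (nat_lit 196352) (nat_lit 0) .nil)))))) (.g (nat_lit 4) .nil .nil)))) (.nd (nat_lit 5) 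
(.lf (nat_lit 78166) (.g (nat_lit 4571) (.e (nat_lit 1800) (nat_lit 119) (.e (nat_lit 516120) (nat_lit 1) (.e (nat_lit 164403) (nat_lit 256) (.e (nat_lit 57373) (nat_lit 2) (.e (nat_lit 90174) (nat_lit 14) (.e (nat_lit 180243) (nat_lit 5) (.e (nat_lit 532513) (nat_lit 3) (.e (nat_lit 114707) (nat_lit 20) .nil)))))))) (.g (nat_lit 6) .nil .nil))) 
(.lf (nat_lit 78198) (.g (nat_lit 2616) (.e (nat_lit 1800) (nat_lit 119) (.e (nat_lit 516129) (nat_lit 3) (.e (nat_lit 221190) (nat_lit 11) (.e (nat_lit 336027) (nat_lit 3) (.e (nat_lit 98370) (nat_lit 28) (.e (nat_lit 442374) (nat_lit 0) .nil)))))) (.g (nat_lit 5) .nil .nil))))) (.nd (nat_lit 4) (.nd (nat_lit 5) 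
(.lf (nat_lit 78158) (.g (nat_lit 4832) (.e (nat_lit 1800) (nat_lit 119) (.e (nat_lit 516120) (nat_lit 1) (.e (nat_lit 164403) (nat_lit 256) (.e (nat_lit 57373) (nat_lit 2) (.e (nat_lit 90170) (nat_lit 13) (.e (nat_lit 172067) (nat_lit 3) (.e (nat_lit 204838) (nat_lit 20) (.e (nat_lit 114708) (nat_lit 20) .nil)))))))) (.g (nat_lit 6) .nil .nil))) 
(.lf (nat_lit 78190) (.g (nat_lit 1780) (.e (nat_lit 1800) (nat_lit 119) (.e (nat_lit 516127) (nat_lit 2) (.e (nat_lit 213030) (nat_lit 11) (.e (nat_lit 24604) (nat_lit 2) (.e (nat_lit 90176) (nat_lit 15) (.e (nat_lit 196352) (nat_lit 0) .nil)))))) (.g (nat_lit 5) .nil .nil)))) (.nd (nat_lit 5) 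
(.lf (nat_lit 78174) (.g (nat_lit 3740) (.e (nat_lit 1800) (nat_lit 119) (.e (nat_lit 516120) (nat_lit 1) (.e (nat_lit 164403) (nat_lit 256) (.e (nat_lit 57378) (nat_lit 3) (.e (nat_lit 98356) (nat_lit 26) (.e (nat_lit 426131) (nat_lit 3) (.e (nat_lit 204837) (nat_lit 20) (.e (nat_lit 114708) (nat_lit 20) .nil)))))))) (.g (nat_lit 5) .nil .nil))) 
(.lf (nat_lit 78206) (.g (nat_lit 1696) (.e (nat_lit 1800) (nat_lit 119) (.e (nat_lit 516129) (nat_lit 3) (.e (nat_lit 221193) (nat_lit 11) (.e (nat_lit 336012) (nat_lit 2) (.e (nat_lit 90176) (nat_lit 15) (.e (nat_lit 188418) (nat_lit 0) .nil)))))) (.g (nat_lit 4) .nil .nil)))))))) (.nd (nat_lit 1) (.nd (nat_lit 2) (.nd (nat_lit 3) (.nd (nat_lit 4) (.nd (nat_lit 5) 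
(.lf (nat_lit 78145) (.g (nat_lit 3338) (.e (nat_lit 1800) (nat_lit 119) (.e (nat_lit 516120) (nat_lit 1) (.e (nat_lit 164403) (nat_lit 256) (.e (nat_lit 57371) (nat_lit 2) (.e (nat_lit 90172) (nat_lit 14) (.e (nat_lit 180244) (nat_lit 5) (.e (nat_lit 532515) (nat_lit 3) (.e (nat_lit 114708) (nat_lit 20) .nil)))))))) (.g (nat_lit 5) .nil .nil))) 
(.lf (nat_lit 78177) (.g (nat_lit 4147) (.e (nat_lit 1800) (nat_lit 119) (.e (nat_lit 516120) (nat_lit 1) (.e (nat_lit 164403) (nat_lit 256) (.e (nat_lit 57378) (nat_lit 3) (.e (nat_lit 98358) (nat_lit 26) (.e (nat_lit 426131) (nat_lit 3) (.e (nat_lit 204837) (nat_lit 20) (.e (nat_lit 114708) (nat_lit 20) .nil)))))))) (.g (nat_lit 7) .nil .nil)))) (.nd (nat_lit 5) 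
(.lf (nat_lit 78161) (.g (nat_lit 4080) (.e (nat_lit 1800) (nat_lit 119) (.e (nat_lit 516120) (nat_lit 1) (.e (nat_lit 164403) (nat_lit 256) (.e (nat_lit 57373) (nat_lit 2) (.e (nat_lit 90172) (nat_lit 14) (.e (nat_lit 180244) (nat_lit 5) (.e (nat_lit 532513) (nat_lit 3) (.e (nat_lit 114707) (nat_lit 20) .nil)))))))) (.g (nat_lit 5) .nil .nil))) 
(.lf (nat_lit 78193) (.g (nat_lit 1833) (.e (nat_lit 1800) (nat_lit 119) (.e (nat_lit 516127) (nat_lit 2) (.e (nat_lit 213030) (nat_lit 11) (.e (nat_lit 24605) (nat_lit 2) (.e (nat_lit 90178) (nat_lit 15) (.e (nat_lit 196352) (nat_lit 0) .nil)))))) (.g (nat_lit 5) .nil .nil))))) (.nd (nat_lit 4) (.nd (nat_lit 5) 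
(.lf (nat_lit 78153) (.g (nat_lit 4367) (.e (nat_lit 1800) (nat_lit 119) (.e (nat_lit 516120) (nat_lit 1) (.e (nat_lit 164403) (nat_lit 256) (.e (nat_lit 57373) (nat_lit 2) (.e (nat_lit 90170) (nat_lit 13) (.e (nat_lit 172065) (nat_lit 3) (.e (nat_lit 204837) (nat_lit 20) (.e (nat_lit 114708) (nat_lit 20) .nil)))))))) (.g (nat_lit 6) .nil .nil))) 
(.lf (nat_lit 78185) (.g (nat_lit 1741) (.e (nat_lit 1800) (nat_lit 119) (.e (nat_lit 516126) (nat_lit 2) (.e (nat_lit 213030) (nat_lit 11) (.e (nat_lit 24604) (nat_lit 2) (.e (nat_lit 90178) (nat_lit 15) (.e (nat_lit 196352) (nat_lit 0) .nil)))))) (.g (nat_lit 5) .nil .nil)))) (.nd (nat_lit 5) 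
(.lf (nat_lit 78169) (.g (nat_lit 4258) (.e (nat_lit 1800) (nat_lit 119) (.e (nat_lit 516120) (nat_lit 1) (.e (nat_lit 164403) (nat_lit 256) (.e (nat_lit 57373) (nat_lit 2) (.e (nat_lit 90174) (nat_lit 14) (.e (nat_lit 180243) (nat_lit 5) (.e (nat_lit 532515) (nat_lit 3) (.e (nat_lit 114708) (nat_lit 20) .nil)))))))) (.g (nat_lit 6) .nil .nil))) 
(.lf (nat_lit 78201) (.g (nat_lit 2147) (.e (nat_lit 1800) (nat_lit 119) (.e (nat_lit 516129) (nat_lit 3) (.e (nat_lit 221193) (nat_lit 11) (.e (nat_lit 336009) (nat_lit 2) (.e (nat_lit 90176) (nat_lit 15) (.e (nat_lit 188420) (nat_lit 0) .nil)))))) (.g (nat_lit 5) .nil .nil)))))) (.nd (nat_lit 3) (.nd (nat_lit 4) (.nd (nat_lit 5) 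
(.lf (nat_lit 78149) (.g (nat_lit 3796) (.e (nat_lit 1800) (nat_lit 119) (.e (nat_lit 516120) (nat_lit 1) (.e (nat_lit 164403) (nat_lit 256) (.e (nat_lit 57373) (nat_lit 2) (.e (nat_lit 90167) (nat_lit 13) (.e (nat_lit 172067) (nat_lit 3) (.e (nat_lit 204837) (nat_lit 20) (.e (nat_lit 114708) (nat_lit 20) .nil)))))))) (.g (nat_lit 5) .nil .nil))) 
(.lf (nat_lit 78181) (.g (nat_lit 2780) (.e (nat_lit 1800) (nat_lit 119) (.e (nat_lit 516120) (nat_lit 1) (.e (nat_lit 164403) (nat_lit 256) (.e (nat_lit 57378) (nat_lit 3) (.e (nat_lit 98377) (nat_lit 30) (.e (nat_lit 458789) (nat_lit 23) (.e (nat_lit 532515) (nat_lit 3) (.e (nat_lit 114708) (nat_lit 20) .nil)))))))) (.g (nat_lit 4) .nil .nil)))) (.nd (nat_lit 5) 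
(.lf (nat_lit 78165) (.g (nat_lit 4343) (.e (nat_lit 1800) (nat_lit 119) (.e (nat_lit 516120) (nat_lit 1) (.e (nat_lit 164403) (nat_lit 256) (.e (nat_lit 57373) (nat_lit 2) (.e (nat_lit 90172) (nat_lit 14) (.e (nat_lit 180244) (nat_lit 5) (.e (nat_lit 532515) (nat_lit 3) (.e (nat_lit 114708) (nat_lit 20) .nil)))))))) (.g (nat_lit 6) .nil .nil))) 
(.lf (nat_lit 78197) (.g (nat_lit 2232) (.e (nat_lit 1800) (nat_lit 119) (.e (nat_lit 516129) (nat_lit 3) (.e (nat_lit 221190) (nat_lit 11) (.e (nat_lit 336012) (nat_lit 2) (.e (nat_lit 90178) (nat_lit 15) (.e (nat_lit 188418) (nat_lit 0) .nil)))))) (.g (nat_lit 5) .nil .nil))))) (.nd (nat_lit 4) (.nd (nat_lit 5) 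
(.lf (nat_lit 78157) (.g (nat_lit 2449) (.e (nat_lit 1800) (nat_lit 119) (.e (nat_lit 516120) (nat_lit 1) (.e (nat_lit 164403) (nat_lit 256) (.e (nat_lit 57373) (nat_lit 2) (.e (nat_lit 90170) (nat_lit 13) (.e (nat_lit 172067) (nat_lit 3) (.e (nat_lit 204838) (nat_lit 20) (.e (nat_lit 114707) (nat_lit 20) .nil)))))))) (.g (nat_lit 4) .nil .nil))) 
(.lf (nat_lit 78189) (.g (nat_lit 1873) (.e (nat_lit 1800) (nat_lit 119) (.e (nat_lit 516126) (nat_lit 2) (.e (nat_lit 213032) (nat_lit 11) (.e (nat_lit 24605) (nat_lit 2) (.e (nat_lit 90178) (nat_lit 15) (.e (nat_lit 196352) (nat_lit 0) .nil)))))) (.g (nat_lit 5) .nil .nil)))) (.nd (nat_lit 5) 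
(.lf (nat_lit 78173) (.g (nat_lit 3525) (.e (nat_lit 1800) (nat_lit 119) (.e (nat_lit 516120) (nat_lit 1) (.e (nat_lit 164403) (nat_lit 256) (.e (nat_lit 57378) (nat_lit 3) (.e (nat_lit 98355) (nat_lit 26) (.e (nat_lit 426131) (nat_lit 3) (.e (nat_lit 204838) (nat_lit 20) (.e (nat_lit 114708) (nat_lit 20) .nil)))))))) (.g (nat_lit 4) .nil .nil))) 
(.lf (nat_lit 78205) (.g (nat_lit 1973) (.e (nat_lit 1800) (nat_lit 119) (.e (nat_lit 516129) (nat_lit 3) (.e (nat_lit 221193) (nat_lit 11) (.e (nat_lit 336010) (nat_lit 2) (.e (nat_lit 90178) (nat_lit 15) (.e (nat_lit 196352) (nat_lit 0) .nil)))))) (.g (nat_lit 5) .nil .nil))))))) (.nd (nat_lit 2) (.nd (nat_lit 3) (.nd (nat_lit 4) (.nd (nat_lit 5) 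
(.lf (nat_lit 78147) (.g (nat_lit 4627) (.e (nat_lit 1800) (nat_lit 119) (.e (nat_lit 516120) (nat_lit 1) (.e (nat_lit 164403) (nat_lit 256) (.e (nat_lit 57371) (nat_lit 2) (.e (nat_lit 90174) (nat_lit 14) (.e (nat_lit 180243) (nat_lit 5) (.e (nat_lit 532513) (nat_lit 3) (.e (nat_lit 114708) (nat_lit 20) .nil)))))))) (.g (nat_lit 7) .nil .nil))) 
(.lf (nat_lit 78179) (.g (nat_lit 2306) (.e (nat_lit 1800) (nat_lit 119) (.e (nat_lit 516120) (nat_lit 1) (.e (nat_lit 164403) (nat_lit 256) (.e (nat_lit 57378) (nat_lit 3) (.e (nat_lit 98363) (nat_lit 26) (.e (nat_lit 426129) (nat_lit 3) (.e (nat_lit 204837) (nat_lit 20) (.e (nat_lit 114708) (nat_lit 20) .nil)))))))) (.g (nat_lit 4) .nil .nil)))) (.nd (nat_lit 5) 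
(.lf (nat_lit 78163) (.g (nat_lit 3725) (.e (nat_lit 1800) (nat_lit 119) (.e (nat_lit 516120) (nat_lit 1) (.e (nat_lit 164403) (nat_lit 256) (.e (nat_lit 57373) (nat_lit 2) (.e (nat_lit 90172) (nat_lit 14) (.e (nat_lit 180244) (nat_lit 5) (.e (nat_lit 532514) (nat_lit 3) (.e (nat_lit 114708) (nat_lit 20) .nil)))))))) (.g (nat_lit 5) .nil .nil))) 
(.lf (nat_lit 78195) (.g (nat_lit 1929) (.e (nat_lit 1800) (nat_lit 119) (.e (nat_lit 516127) (nat_lit 2) (.e (nat_lit 213032) (nat_lit 11) (.e (nat_lit 24605) (nat_lit 2) (.e (nat_lit 90178) (nat_lit 15) (.e (nat_lit 196352) (nat_lit 0) .nil)))))) (.g (nat_lit 5) .nil .nil))))) (.nd (nat_lit 4) (.nd (nat_lit 5) 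
(.lf (nat_lit 78155) (.g (nat_lit 3208) (.e (nat_lit 1800) (nat_lit 119) (.e (nat_lit 516120) (nat_lit 1) (.e (nat_lit 164403) (nat_lit 256) (.e (nat_lit 57373) (nat_lit 2) (.e (nat_lit 90170) (nat_lit 13) (.e (nat_lit 172067) (nat_lit 3) (.e (nat_lit 204837) (nat_lit 20) (.e (nat_lit 114707) (nat_lit 20) .nil)))))))) (.g (nat_lit 4) .nil .nil))) 
(.lf (nat_lit 78187) (.g (nat_lit 1819) (.e (nat_lit 1800) (nat_lit 119) (.e (nat_lit 516126) (nat_lit 2) (.e (nat_lit 213030) (nat_lit 11) (.e (nat_lit 24605) (nat_lit 2) (.e (nat_lit 90178) (nat_lit 15) (.e (nat_lit 196352) (nat_lit 0) .nil)))))) (.g (nat_lit 5) .nil .nil)))) (.nd (nat_lit 5) 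
(.lf (nat_lit 78171) (.g (nat_lit 3422) (.e (nat_lit 1800) (nat_lit 119) (.e (nat_lit 516120) (nat_lit 1) (.e (nat_lit 164403) (nat_lit 256) (.e (nat_lit 57377) (nat_lit 3) (.e (nat_lit 98357) (nat_lit 26) (.e (nat_lit 426131) (nat_lit 3) (.e (nat_lit 204838) (nat_lit 20) (.e (nat_lit 114708) (nat_lit 20) .nil)))))))) (.g (nat_lit 4) .nil .nil))) 
(.lf (nat_lit 78203) (.g (nat_lit 2058) (.e (nat_lit 1800) (nat_lit 119) (.e (nat_lit 516129) (nat_lit 3) (.e (nat_lit 221193) (nat_lit 11) (.e (nat_lit 336010) (nat_lit 2) (.e (nat_lit 90176) (nat_lit 15) (.e (nat_lit 188420) (nat_lit 0) .nil)))))) (.g (nat_lit 0) .nil .nil)))))) (.nd (nat_lit 3) (.nd (nat_lit 4) (.nd (nat_lit 5) 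
(.lf (nat_lit 78151) (.g (nat_lit 3546) (.e (nat_lit 1800) (nat_lit 119) (.e (nat_lit 516120) (nat_lit 1) (.e (nat_lit 164403) (nat_lit 256) (.e (nat_lit 57373) (nat_lit 2) (.e (nat_lit 90168) (nat_lit 13) (.e (nat_lit 172067) (nat_lit 3) (.e (nat_lit 204837) (nat_lit 20) (.e (nat_lit 114708) (nat_lit 20) .nil)))))))) (.g (nat_lit 4) .nil .nil))) 
(.lf (nat_lit 78183) (.g (nat_lit 2454) (.e (nat_lit 1800) (nat_lit 119) (.e (nat_lit 516124) (nat_lit 2) (.e (nat_lit 213030) (nat_lit 11) (.e (nat_lit 24608) (nat_lit 3) (.e (nat_lit 98370) (nat_lit 28) (.e (nat_lit 442374) (nat_lit 0) .nil)))))) (.g (nat_lit 6) .nil .nil)))) (.nd (nat_lit 5) 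
(.lf (nat_lit 78167) (.g (nat_lit 5411) (.e (nat_lit 1800) (nat_lit 119) (.e (nat_lit 516120) (nat_lit 1) (.e (nat_lit 164403) (nat_lit 256) (.e (nat_lit 57373) (nat_lit 2) (.e (nat_lit 90174) (nat_lit 14) (.e (nat_lit 180243) (nat_lit 5) (.e (nat_lit 532513) (nat_lit 3) (.e (nat_lit 114708) (nat_lit 20) .nil)))))))) (.g (nat_lit 7) .nil .nil))) 
(.lf (nat_lit 78199) (.g (nat_lit 1828) (.e (nat_lit 1800) (nat_lit 119) (.e (nat_lit 516129) (nat_lit 3) (.e (nat_lit 221190) (nat_lit 11) (.e (nat_lit 336027) (nat_lit 3) (.e (nat_lit 98380) (nat_lit 31) (.e (nat_lit 466947) (nat_lit 0) .nil)))))) (.g (nat_lit 4) .nil .nil))))) (.nd (nat_lit 4) (.nd (nat_lit 5) 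
(.lf (nat_lit 78159) (.g (nat_lit 3429) (.e (nat_lit 1800) (nat_lit 119) (.e (nat_lit 516120) (nat_lit 1) (.e (nat_lit 164403) (nat_lit 256) (.e (nat_lit 57373) (nat_lit 2) (.e (nat_lit 90172) (nat_lit 14) (.e (nat_lit 180243) (nat_lit 5) (.e (nat_lit 532513) (nat_lit 3) (.e (nat_lit 114707) (nat_lit 20) .nil)))))))) (.g (nat_lit 4) .nil .nil))) 
(.lf (nat_lit 78191) (.g (nat_lit 1758) (.e (nat_lit 1800) (nat_lit 119) (.e (nat_lit 516127) (nat_lit 2) (.e (nat_lit 213030) (nat_lit 11) (.e (nat_lit 24604) (nat_lit 2) (.e (nat_lit 90178) (nat_lit 15) (.e (nat_lit 196352) (nat_lit 0) .nil)))))) (.g (nat_lit 5) .nil .nil)))) (.nd (nat_lit 5) 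
(.lf (nat_lit 78175) (.g (nat_lit 3982) (.e (nat_lit 1800) (nat_lit 119) (.e (nat_lit 516120) (nat_lit 1) (.e (nat_lit 164403) (nat_lit 256) (.e (nat_lit 57378) (nat_lit 3) (.e (nat_lit 98356) (nat_lit 26) (.e (nat_lit 426131) (nat_lit 3) (.e (nat_lit 204838) (nat_lit 20) (.e (nat_lit 114708) (nat_lit 20) .nil)))))))) (.g (nat_lit 5) .nil .nil))) 
(.lf (nat_lit 78207) (.g (nat_lit 2476) (.e (nat_lit 1800) (nat_lit 119) (.e (nat_lit 516129) (nat_lit 3) (.e (nat_lit 221193) (nat_lit 11) (.e (nat_lit 336012) (nat_lit 2) (.e (nat_lit 90176) (nat_lit 15) (.e (nat_lit 188420) (nat_lit 0) .nil)))))) (.g (nat_lit 0) .nil .nil)))))))))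

noncomputable def tv1059 : DT := (.nd (nat_lit 0) (.nd (nat_lit 1) (.nd (nat_lit 2) (.nd (nat_lit 3) (.nd (nat_lit 4) (.nd (nat_lit 5) 
(.lf (nat_lit 78208) (.g (nat_lit 1973) (.e (nat_lit 1800) (nat_lit 119) (.e (nat_lit 516129) (nat_lit 3) (.e (nat_lit 221193) (nat_lit 11) (.e (nat_lit 336012) (nat_lit 2) (.e (nat_lit 90176) (nat_lit 15) (.e (nat_lit 196352) (nat_lit 0) .nil)))))) (.g (nat_lit 4) .nil .nil))) 
(.lf (nat_lit 78240) (.g (nat_lit 2229) (.e (nat_lit 1800) (nat_lit 119) (.e (nat_lit 516131) (nat_lit 3) (.e (nat_lit 221194) (nat_lit 11) (.e (nat_lit 336004) (nat_lit 2) (.e (nat_lit 90176) (nat_lit 15) (.e (nat_lit 188420) (nat_lit 0) .nil)))))) (.g (nat_lit 5) .nil .nil)))) (.nd (nat_lit 5) 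
(.lf (nat_lit 78224) (.g (nat_lit 1291) (.e (nat_lit 1800) (nat_lit 119) (.e (nat_lit 516129) (nat_lit 3) (.e (nat_lit 229120) (nat_lit 11) (.e (nat_lit 336012) (nat_lit 2) (.e (nat_lit 90176) (nat_lit 15) (.e (nat_lit 196352) (nat_lit 0) .nil)))))) (.g (nat_lit 4) .nil .nil))) 
(.lf (nat_lit 78256) (.g (nat_lit 3777) (.e (nat_lit 1800) (nat_lit 119) (.e (nat_lit 516131) (nat_lit 3) (.e (nat_lit 221212) (nat_lit 22) (.e (nat_lit 196668) (nat_lit 14) (.e (nat_lit 73747) (nat_lit 3) (.e (nat_lit 516115) (nat_lit 1) (.e (nat_lit 164182) (nat_lit 154) (.e (nat_lit 57361) (nat_lit 0) .nil)))))))) (.g (nat_lit 6) .nil .nil))))) (.nd (nat_lit 4) (.nd (nat_lit 5) 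
(.lf (nat_lit 78216) (.g (nat_lit 2021) (.e (nat_lit 1800) (nat_lit 119) (.e (nat_lit 516129) (nat_lit 3) (.e (nat_lit 221194) (nat_lit 11) (.e (nat_lit 336012) (nat_lit 2) (.e (nat_lit 90176) (nat_lit 15) (.e (nat_lit 188418) (nat_lit 0) .nil)))))) (.g (nat_lit 4) .nil .nil))) 
(.lf (nat_lit 78248) (.g (nat_lit 1543) (.e (nat_lit 1800) (nat_lit 119) (.e (nat_lit 516131) (nat_lit 3) (.e (nat_lit 229120) (nat_lit 11) (.e (nat_lit 336004) (nat_lit 2) (.e (nat_lit 90176) (nat_lit 15) (.e (nat_lit 188420) (nat_lit 0) .nil)))))) (.g (nat_lit 5) .nil .nil)))) (.nd (nat_lit 5) 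
(.lf (nat_lit 78232) (.g (nat_lit 1413) (.e (nat_lit 1800) (nat_lit 119) (.e (nat_lit 516131) (nat_lit 3) (.e (nat_lit 221193) (nat_lit 11) (.e (nat_lit 336009) (nat_lit 2) (.e (nat_lit 90176) (nat_lit 15) (.e (nat_lit 196352) (nat_lit 0) .nil)))))) (.g (nat_lit 4) .nil .nil))) 
(.lf (nat_lit 78264) (.g (nat_lit 3492) (.e (nat_lit 1800) (nat_lit 119) (.e (nat_lit 516131) (nat_lit 3) (.e (nat_lit 221212) (nat_lit 22) (.e (nat_lit 196670) (nat_lit 14) (.e (nat_lit 73746) (nat_lit 3) (.e (nat_lit 516120) (nat_lit 1) (.e (nat_lit 164181) (nat_lit 154) (.e (nat_lit 57361) (nat_lit 0) .nil)))))))) (.g (nat_lit 6) .nil .nil)))))) 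
(.nd (nat_lit 3) (.nd (nat_lit 4) (.nd (nat_lit 5) 
(.lf (nat_lit 78212) (.g (nat_lit 2576) (.e (nat_lit 1800) (nat_lit 119) (.e (nat_lit 516129) (nat_lit 3) (.e (nat_lit 221194) (nat_lit 11) (.e (nat_lit 336004) (nat_lit 2) (.e (nat_lit 90176) (nat_lit 15) (.e (nat_lit 188420) (nat_lit 0) .nil)))))) (.g (nat_lit 5) .nil .nil))) 
(.lf (nat_lit 78244) (.g (nat_lit 1817) (.e (nat_lit 1800) (nat_lit 119) (.e (nat_lit 516131) (nat_lit 3) (.e (nat_lit 221194) (nat_lit 11) (.e (nat_lit 336010) (nat_lit 2) (.e (nat_lit 90178) (nat_lit 15) (.e (nat_lit 196352) (nat_lit 0) .nil)))))) (.g (nat_lit 5) .nil .nil)))) (.nd (nat_lit 5) 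
(.lf (nat_lit 78228) (.g (nat_lit 2458) (.e (nat_lit 1800) (nat_lit 119) (.e (nat_lit 516131) (nat_lit 3) (.e (nat_lit 221190) (nat_lit 11) (.e (nat_lit 336027) (nat_lit 3) (.e (nat_lit 98370) (nat_lit 28) (.e (nat_lit 442374) (nat_lit 0) .nil)))))) (.g (nat_lit 6) .nil .nil))) 
(.lf (nat_lit 78260) (.g (nat_lit 3126) (.e (nat_lit 1800) (nat_lit 119) (.e (nat_lit 516131) (nat_lit 3) (.e (nat_lit 221212) (nat_lit 22) (.e (nat_lit 196670) (nat_lit 14) (.e (nat_lit 73746) (nat_lit 3) (.e (nat_lit 516115) (nat_lit 1) (.e (nat_lit 164182) (nat_lit 154) (.e (nat_lit 57361) (nat_lit 0) .nil)))))))) (.g (nat_lit 6) .nil .nil))))) (.nd (nat_lit 4) (.nd (nat_lit 5) 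
(.lf (nat_lit 78220) (.g (nat_lit 1868) (.e (nat_lit 1800) (nat_lit 119) (.e (nat_lit 516129) (nat_lit 3) (.e (nat_lit 221194) (nat_lit 11) (.e (nat_lit 336020) (nat_lit 3) (.e (nat_lit 98381) (nat_lit 31) (.e (nat_lit 466947) (nat_lit 0) .nil)))))) (.g (nat_lit 4) .nil .nil))) 
(.lf (nat_lit 78252) (.g (nat_lit 2895) (.e (nat_lit 1800) (nat_lit 119) (.e (nat_lit 516131) (nat_lit 3) (.e (nat_lit 221211) (nat_lit 22) (.e (nat_lit 196666) (nat_lit 13) (.e (nat_lit 65642) (nat_lit 15) (.e (nat_lit 3253) (nat_lit 197) (.e (nat_lit 532504) (nat_lit 1) (.e (nat_lit 57852) (nat_lit 252) (.e (nat_lit 57361) (nat_lit 0) .nil))))))))) (.g (nat_lit 4) .nil .nil)))) (.nd (nat_lit 5) 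
(.lf (nat_lit 78236) (.g (nat_lit 1699) (.e (nat_lit 1800) (nat_lit 119) (.e (nat_lit 516131) (nat_lit 3) (.e (nat_lit 221193) (nat_lit 11) (.e (nat_lit 336010) (nat_lit 2) (.e (nat_lit 90178) (nat_lit 15) (.e (nat_lit 196352) (nat_lit 0) .nil)))))) (.g (nat_lit 5) .nil .nil))) 
(.lf (nat_lit 78268) (.g (nat_lit 2273) (.e (nat_lit 1800) (nat_lit 119) (.e (nat_lit 516131) (nat_lit 3) (.e (nat_lit 221214) (nat_lit 23) (.e (nat_lit 204852) (nat_lit 26) (.e (nat_lit 336326) (nat_lit 18) (.e (nat_lit 204830) (nat_lit 18) (.e (nat_lit 57852) (nat_lit 252) (.e (nat_lit 57361) (nat_lit 0) .nil)))))))) (.g (nat_lit 4) .nil .nil))))))) 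
(.nd (nat_lit 2) (.nd (nat_lit 3) (.nd (nat_lit 4) (.nd (nat_lit 5) 
(.lf (nat_lit 78210) (.g (nat_lit 2446) (.e (nat_lit 1800) (nat_lit 119) (.e (nat_lit 516129) (nat_lit 3) (.e (nat_lit 221193) (nat_lit 11) (.e (nat_lit 336025) (nat_lit 3) (.e (nat_lit 98369) (nat_lit 28) (.e (nat_lit 442374) (nat_lit 0) .nil)))))) (.g (nat_lit 6) .nil .nil))) 
(.lf (nat_lit 78242) (.g (nat_lit 1675) (.e (nat_lit 1800) (nat_lit 119) (.e (nat_lit 516131) (nat_lit 3) (.e (nat_lit 221194) (nat_lit 11) (.e (nat_lit 336009) (nat_lit 2) (.e (nat_lit 90176) (nat_lit 15) (.e (nat_lit 188420) (nat_lit 0) .nil)))))) (.g (nat_lit 4) .nil .nil)))) (.nd (nat_lit 5) 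
(.lf (nat_lit 78226) (.g (nat_lit 1999) (.e (nat_lit 1800) (nat_lit 119) (.e (nat_lit 516131) (nat_lit 3) (.e (nat_lit 221190) (nat_lit 11) (.e (nat_lit 336012) (nat_lit 2) (.e (nat_lit 90176) (nat_lit 15) (.e (nat_lit 188420) (nat_lit 0) .nil)))))) (.g (nat_lit 5) .nil .nil))) 
(.lf (nat_lit 78258) (.g (nat_lit 2255) (.e (nat_lit 1800) (nat_lit 119) (.e (nat_lit 516131) (nat_lit 3) (.e (nat_lit 221212) (nat_lit 22) (.e (nat_lit 196668) (nat_lit 14) (.e (nat_lit 73747) (nat_lit 3) (.e (nat_lit 516117) (nat_lit 1) (.e (nat_lit 164182) (nat_lit 154) (.e (nat_lit 57361) (nat_lit 0) .nil)))))))) (.g (nat_lit 4) .nil .nil))))) (.nd (nat_lit 4) (.nd (nat_lit 5) 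
(.lf (nat_lit 78218) (.g (nat_lit 2524) (.e (nat_lit 1800) (nat_lit 119) (.e (nat_lit 516129) (nat_lit 3) (.e (nat_lit 221194) (nat_lit 11) (.e (nat_lit 336012) (nat_lit 2) (.e (nat_lit 90178) (nat_lit 15) (.e (nat_lit 196352) (nat_lit 0) .nil)))))) (.g (nat_lit 5) .nil .nil))) 
(.lf (nat_lit 78250) (.g (nat_lit 1150) (.e (nat_lit 1800) (nat_lit 119) (.e (nat_lit 516131) (nat_lit 3) (.e (nat_lit 229120) (nat_lit 11) (.e (nat_lit 336012) (nat_lit 2) (.e (nat_lit 90176) (nat_lit 15) (.e (nat_lit 196352) (nat_lit 0) .nil)))))) (.g (nat_lit 4) .nil .nil)))) (.nd (nat_lit 5) 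
(.lf (nat_lit 78234) (.g (nat_lit 1847) (.e (nat_lit 1800) (nat_lit 119) (.e (nat_lit 516131) (nat_lit 3) (.e (nat_lit 221193) (nat_lit 11) (.e (nat_lit 336010) (nat_lit 2) (.e (nat_lit 90176) (nat_lit 15) (.e (nat_lit 188420) (nat_lit 0) .nil)))))) (.g (nat_lit 0) .nil .nil))) 
(.lf (nat_lit 78266) (.g (nat_lit 1802) (.e (nat_lit 1800) (nat_lit 119) (.e (nat_lit 516131) (nat_lit 3) (.e (nat_lit 221212) (nat_lit 22) (.e (nat_lit 196681) (nat_lit 17) (.e (nat_lit 131098) (nat_lit 3) (.e (nat_lit 98333) (nat_lit 18) (.e (nat_lit 164182) (nat_lit 154) (.e (nat_lit 57361) (nat_lit 0) .nil)))))))) (.g (nat_lit 4) .nil .nil)))))) 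
(.nd (nat_lit 3) (.nd (nat_lit 4) (.nd (nat_lit 5) 
(.lf (nat_lit 78214) (.g (nat_lit 1960) (.e (nat_lit 1800) (nat_lit 119) (.e (nat_lit 516129) (nat_lit 3) (.e (nat_lit 221194) (nat_lit 11) (.e (nat_lit 336010) (nat_lit 2) (.e (nat_lit 90176) (nat_lit 15) (.e (nat_lit 196352) (nat_lit 0) .nil)))))) (.g (nat_lit 5) .nil .nil))) 
(.lf (nat_lit 78246) (.g (nat_lit 2162) (.e (nat_lit 1800) (nat_lit 119) (.e (nat_lit 516131) (nat_lit 3) (.e (nat_lit 221194) (nat_lit 11) (.e (nat_lit 336012) (nat_lit 2) (.e (nat_lit 90178) (nat_lit 15) (.e (nat_lit 196352) (nat_lit 0) .nil)))))) (.g (nat_lit 5) .nil .nil)))) (.nd (nat_lit 5) 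
(.lf (nat_lit 78230) (.g (nat_lit 1851) (.e (nat_lit 1800) (nat_lit 119) (.e (nat_lit 516131) (nat_lit 3) (.e (nat_lit 221190) (nat_lit 11) (.e (nat_lit 336027) (nat_lit 3) (.e (nat_lit 98381) (nat_lit 31) (.e (nat_lit 466947) (nat_lit 0) .nil)))))) (.g (nat_lit 4) .nil .nil))) 
(.lf (nat_lit 78262) (.g (nat_lit 3376) (.e (nat_lit 1800) (nat_lit 119) (.e (nat_lit 516131) (nat_lit 3) (.e (nat_lit 221212) (nat_lit 22) (.e (nat_lit 196670) (nat_lit 14) (.e (nat_lit 73746) (nat_lit 3) (.e (nat_lit 516117) (nat_lit 1) (.e (nat_lit 164181) (nat_lit 154) (.e (nat_lit 57361) (nat_lit 0) .nil)))))))) (.g (nat_lit 6) .nil .nil))))) (.nd (nat_lit 4) (.nd (nat_lit 5) 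
(.lf (nat_lit 78222) (.g (nat_lit 2093) (.e (nat_lit 1800) (nat_lit 119) (.e (nat_lit 516129) (nat_lit 3) (.e (nat_lit 221194) (nat_lit 11) (.e (nat_lit 336025) (nat_lit 3) (.e (nat_lit 98370) (nat_lit 28) (.e (nat_lit 442374) (nat_lit 0) .nil)))))) (.g (nat_lit 4) .nil .nil))) 
(.lf (nat_lit 78254) (.g (nat_lit 2744) (.e (nat_lit 1800) (nat_lit 119) (.e (nat_lit 516131) (nat_lit 3) (.e (nat_lit 221212) (nat_lit 22) (.e (nat_lit 196668) (nat_lit 14) (.e (nat_lit 73746) (nat_lit 3) (.e (nat_lit 516120) (nat_lit 1) (.e (nat_lit 164181) (nat_lit 154) (.e (nat_lit 57361) (nat_lit 0) .nil)))))))) (.g (nat_lit 5) .nil .nil)))) (.nd (nat_lit 5) 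
(.lf (nat_lit 78238) (.g (nat_lit 1699) (.e (nat_lit 1800) (nat_lit 119) (.e (nat_lit 516131) (nat_lit 3) (.e (nat_lit 221193) (nat_lit 11) (.e (nat_lit 336012) (nat_lit 2) (.e (nat_lit 90176) (nat_lit 15) (.e (nat_lit 196352) (nat_lit 0) .nil)))))) (.g (nat_lit 4) .nil .nil))) 
(.lf (nat_lit 78270) (.g (nat_lit 2392) (.e (nat_lit 1800) (nat_lit 119) (.e (nat_lit 516131) (nat_lit 3) (.e (nat_lit 221215) (nat_lit 23) (.e (nat_lit 204880) (nat_lit 32) (.e (nat_lit 385066) (nat_lit 26) (.e (nat_lit 532501) (nat_lit 1) (.e (nat_lit 57852) (nat_lit 252) (.e (nat_lit 57361) (nat_lit 0) .nil)))))))) (.g (nat_lit 4) .nil .nil)))))))) 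
(.nd (nat_lit 1) (.nd (nat_lit 2) (.nd (nat_lit 3) (.nd (nat_lit 4) (.nd (nat_lit 5) 
(.lf (nat_lit 78209) (.g (nat_lit 2120) (.e (nat_lit 1800) (nat_lit 119) (.e (nat_lit 516129) (nat_lit 3) (.e (nat_lit 221193) (nat_lit 11) (.e (nat_lit 336012) (nat_lit 2) (.e (nat_lit 90178) (nat_lit 15) (.e (nat_lit 196352) (nat_lit 0) .nil)))))) (.g (nat_lit 5) .nil .nil))) 
(.lf (nat_lit 78241) (.g (nat_lit 1764) (.e (nat_lit 1800) (nat_lit 119) (.e (nat_lit 516131) (nat_lit 3) (.e (nat_lit 221194) (nat_lit 11) (.e (nat_lit 336004) (nat_lit 2) (.e (nat_lit 90176) (nat_lit 15) (.e (nat_lit 196352) (nat_lit 0) .nil)))))) (.g (nat_lit 4) .nil .nil)))) (.nd (nat_lit 5) 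
(.lf (nat_lit 78225) (.g (nat_lit 2488) (.e (nat_lit 1800) (nat_lit 119) (.e (nat_lit 516129) (nat_lit 3) (.e (nat_lit 221210) (nat_lit 22) (.e (nat_lit 196668) (nat_lit 14) (.e (nat_lit 73747) (nat_lit 3) (.e (nat_lit 516115) (nat_lit 1) (.e (nat_lit 164182) (nat_lit 154) (.e (nat_lit 57361) (nat_lit 0) .nil)))))))) (.g (nat_lit 4) .nil .nil))) 
(.lf (nat_lit 78257) (.g (nat_lit 2075) (.e (nat_lit 1800) (nat_lit 119) (.e (nat_lit 516131) (nat_lit 3) (.e (nat_lit 221212) (nat_lit 22) (.e (nat_lit 196668) (nat_lit 14) (.e (nat_lit 73747) (nat_lit 3) (.e (nat_lit 516117) (nat_lit 1) (.e (nat_lit 164180) (nat_lit 154) (.e (nat_lit 57361) (nat_lit 0) .nil)))))))) (.g (nat_lit 4) .nil .nil))))) (.nd (nat_lit 4) (.nd (nat_lit 5) 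
(.lf (nat_lit 78217) (.g (nat_lit 2350) (.e (nat_lit 1800) (nat_lit 119) (.e (nat_lit 516129) (nat_lit 3) (.e (nat_lit 221194) (nat_lit 11) (.e (nat_lit 336012) (nat_lit 2) (.e (nat_lit 90176) (nat_lit 15) (.e (nat_lit 196352) (nat_lit 0) .nil)))))) (.g (nat_lit 4) .nil .nil))) 
(.lf (nat_lit 78249) (.g (nat_lit 1047) (.e (nat_lit 1800) (nat_lit 119) (.e (nat_lit 516131) (nat_lit 3) (.e (nat_lit 229120) (nat_lit 11) (.e (nat_lit 336004) (nat_lit 2) (.e (nat_lit 90176) (nat_lit 15) (.e (nat_lit 196352) (nat_lit 0) .nil)))))) (.g (nat_lit 4) .nil .nil)))) (.nd (nat_lit 5) 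
(.lf (nat_lit 78233) (.g (nat_lit 1708) (.e (nat_lit 1800) (nat_lit 119) (.e (nat_lit 516131) (nat_lit 3) (.e (nat_lit 221193) (nat_lit 11) (.e (nat_lit 336009) (nat_lit 2) (.e (nat_lit 90178) (nat_lit 15) (.e (nat_lit 188418) (nat_lit 0) .nil)))))) (.g (nat_lit 5) .nil .nil))) 
(.lf (nat_lit 78265) (.g (nat_lit 1840) (.e (nat_lit 1800) (nat_lit 119) (.e (nat_lit 516131) (nat_lit 3) (.e (nat_lit 221212) (nat_lit 22) (.e (nat_lit 196681) (nat_lit 17) (.e (nat_lit 131096) (nat_lit 3) (.e (nat_lit 98334) (nat_lit 18) (.e (nat_lit 164182) (nat_lit 154) (.e (nat_lit 57361) (nat_lit 0) .nil)))))))) (.g (nat_lit 4) .nil .nil)))))) 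
(.nd (nat_lit 3) (.nd (nat_lit 4) (.nd (nat_lit 5) 
(.lf (nat_lit 78213) (.g (nat_lit 2176) (.e (nat_lit 1800) (nat_lit 119) (.e (nat_lit 516129) (nat_lit 3) (.e (nat_lit 221194) (nat_lit 11) (.e (nat_lit 336004) (nat_lit 2) (.e (nat_lit 90176) (nat_lit 15) (.e (nat_lit 196352) (nat_lit 0) .nil)))))) (.g (nat_lit 4) .nil .nil))) 
(.lf (nat_lit 78245) (.g (nat_lit 2004) (.e (nat_lit 1800) (nat_lit 119) (.e (nat_lit 516131) (nat_lit 3) (.e (nat_lit 221194) (nat_lit 11) (.e (nat_lit 336012) (nat_lit 2) (.e (nat_lit 90176) (nat_lit 15) (.e (nat_lit 196352) (nat_lit 0) .nil)))))) (.g (nat_lit 4) .nil .nil)))) (.nd (nat_lit 5) 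
(.lf (nat_lit 78229) (.g (nat_lit 1808) (.e (nat_lit 1800) (nat_lit 119) (.e (nat_lit 516131) (nat_lit 3) (.e (nat_lit 221190) (nat_lit 11) (.e (nat_lit 336027) (nat_lit 3) (.e (nat_lit 98380) (nat_lit 31) (.e (nat_lit 466947) (nat_lit 0) .nil)))))) (.g (nat_lit 4) .nil .nil))) 
(.lf (nat_lit 78261) (.g (nat_lit 2777) (.e (nat_lit 1800) (nat_lit 119) (.e (nat_lit 516131) (nat_lit 3) (.e (nat_lit 221212) (nat_lit 22) (.e (nat_lit 196670) (nat_lit 14) (.e (nat_lit 73746) (nat_lit 3) (.e (nat_lit 516117) (nat_lit 1) (.e (nat_lit 164180) (nat_lit 154) (.e (nat_lit 57361) (nat_lit 0) .nil)))))))) (.g (nat_lit 5) .nil .nil))))) (.nd (nat_lit 4) (.nd (nat_lit 5) 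
(.lf (nat_lit 78221) (.g (nat_lit 2658) (.e (nat_lit 1800) (nat_lit 119) (.e (nat_lit 516129) (nat_lit 3) (.e (nat_lit 221194) (nat_lit 11) (.e (nat_lit 336021) (nat_lit 3) (.e (nat_lit 98381) (nat_lit 31) .nil))))) .nil)) 
(.lf (nat_lit 78253) (.g (nat_lit 2544) (.e (nat_lit 1800) (nat_lit 119) (.e (nat_lit 516131) (nat_lit 3) (.e (nat_lit 221212) (nat_lit 22) (.e (nat_lit 196668) (nat_lit 14) (.e (nat_lit 73746) (nat_lit 3) (.e (nat_lit 516117) (nat_lit 1) (.e (nat_lit 164181) (nat_lit 154) (.e (nat_lit 57361) (nat_lit 0) .nil)))))))) (.g (nat_lit 4) .nil .nil)))) (.nd (nat_lit 5) 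
(.lf (nat_lit 78237) (.g (nat_lit 2265) (.e (nat_lit 1800) (nat_lit 119) (.e (nat_lit 516131) (nat_lit 3) (.e (nat_lit 221193) (nat_lit 11) (.e (nat_lit 336012) (nat_lit 2) (.e (nat_lit 90176) (nat_lit 15) (.e (nat_lit 188420) (nat_lit 0) .nil)))))) (.g (nat_lit 0) .nil .nil))) 
(.lf (nat_lit 78269) (.g (nat_lit 2158) (.e (nat_lit 1800) (nat_lit 119) (.e (nat_lit 516131) (nat_lit 3) (.e (nat_lit 221214) (nat_lit 23) (.e (nat_lit 204852) (nat_lit 26) (.e (nat_lit 336326) (nat_lit 18) (.e (nat_lit 204831) (nat_lit 18) (.e (nat_lit 57852) (nat_lit 252) (.e (nat_lit 57361) (nat_lit 0) .nil)))))))) (.g (nat_lit 4) .nil .nil))))))) 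
(.nd (nat_lit 2) (.nd (nat_lit 3) (.nd (nat_lit 4) (.nd (nat_lit 5) 
(.lf (nat_lit 78211) (.g (nat_lit 2717) (.e (nat_lit 1800) (nat_lit 119) (.e (nat_lit 516129) (nat_lit 3) (.e (nat_lit 221193) (nat_lit 11) (.e (nat_lit 336025) (nat_lit 3) (.e (nat_lit 98370) (nat_lit 28) (.e (nat_lit 442374) (nat_lit 0) .nil)))))) (.g (nat_lit 6) .nil .nil))) 
(.lf (nat_lit 78243) (.g (nat_lit 1595) (.e (nat_lit 1800) (nat_lit 119) (.e (nat_lit 516131) (nat_lit 3) (.e (nat_lit 221194) (nat_lit 11) (.e (nat_lit 336010) (nat_lit 2) (.e (nat_lit 90176) (nat_lit 15) (.e (nat_lit 196352) (nat_lit 0) .nil)))))) (.g (nat_lit 5) .nil .nil)))) (.nd (nat_lit 5) 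
(.lf (nat_lit 78227) (.g (nat_lit 2178) (.e (nat_lit 1800) (nat_lit 119) (.e (nat_lit 516131) (nat_lit 3) (.e (nat_lit 221190) (nat_lit 11) (.e (nat_lit 336012) (nat_lit 2) (.e (nat_lit 90178) (nat_lit 15) (.e (nat_lit 188418) (nat_lit 0) .nil)))))) (.g (nat_lit 5) .nil .nil))) 
(.lf (nat_lit 78259) (.g (nat_lit 2034) (.e (nat_lit 1800) (nat_lit 119) (.e (nat_lit 516131) (nat_lit 3) (.e (nat_lit 221212) (nat_lit 22) (.e (nat_lit 196668) (nat_lit 14) (.e (nat_lit 81664) (nat_lit 5) (.e (nat_lit 532490) (nat_lit 0) (.e (nat_lit 7936) (nat_lit 153) (.e (nat_lit 794627) (nat_lit 0) .nil)))))))) (.g (nat_lit 4) .nil .nil))))) (.nd (nat_lit 4) (.nd (nat_lit 5) 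
(.lf (nat_lit 78219) (.g (nat_lit 2307) (.e (nat_lit 1800) (nat_lit 119) (.e (nat_lit 516129) (nat_lit 3) (.e (nat_lit 221194) (nat_lit 11) (.e (nat_lit 336020) (nat_lit 3) (.e (nat_lit 98370) (nat_lit 28) (.e (nat_lit 442374) (nat_lit 0) .nil)))))) (.g (nat_lit 5) .nil .nil))) 
(.lf (nat_lit 78251) (.g (nat_lit 169) (.e (nat_lit 1800) (nat_lit 119) (.e (nat_lit 516131) (nat_lit 3) (.e (nat_lit 229120) (nat_lit 12) .nil))) .nil))) (.nd (nat_lit 5) 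
(.lf (nat_lit 78235) (.g (nat_lit 1474) (.e (nat_lit 1800) (nat_lit 119) (.e (nat_lit 516131) (nat_lit 3) (.e (nat_lit 221193) (nat_lit 11) (.e (nat_lit 336010) (nat_lit 2) (.e (nat_lit 90176) (nat_lit 15) (.e (nat_lit 196352) (nat_lit 0) .nil)))))) (.g (nat_lit 5) .nil .nil))) 
(.lf (nat_lit 78267) (.g (nat_lit 2044) (.e (nat_lit 1800) (nat_lit 119) (.e (nat_lit 516131) (nat_lit 3) (.e (nat_lit 221212) (nat_lit 22) (.e (nat_lit 196681) (nat_lit 17) (.e (nat_lit 131098) (nat_lit 3) (.e (nat_lit 98334) (nat_lit 18) (.e (nat_lit 164182) (nat_lit 154) (.e (nat_lit 57361) (nat_lit 0) .nil)))))))) (.g (nat_lit 4) .nil .nil)))))) 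
(.nd (nat_lit 3) (.nd (nat_lit 4) (.nd (nat_lit 5) 
(.lf (nat_lit 78215) (.g (nat_lit 2177) (.e (nat_lit 1800) (nat_lit 119) (.e (nat_lit 516129) (nat_lit 3) (.e (nat_lit 221194) (nat_lit 11) (.e (nat_lit 336010) (nat_lit 2) (.e (nat_lit 90178) (nat_lit 15) (.e (nat_lit 196352) (nat_lit 0) .nil)))))) (.g (nat_lit 5) .nil .nil))) 
(.lf (nat_lit 78247) (.g (nat_lit 1756) (.e (nat_lit 1800) (nat_lit 119) (.e (nat_lit 516131) (nat_lit 3) (.e (nat_lit 221194) (nat_lit 11) (.e (nat_lit 336025) (nat_lit 3) (.e (nat_lit 98370) (nat_lit 28) (.e (nat_lit 442374) (nat_lit 0) .nil)))))) (.g (nat_lit 4) .nil .nil)))) (.nd (nat_lit 5) 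
(.lf (nat_lit 78231) (.g (nat_lit 1976) (.e (nat_lit 1800) (nat_lit 119) (.e (nat_lit 516131) (nat_lit 3) (.e (nat_lit 221193) (nat_lit 11) (.e (nat_lit 336009) (nat_lit 2) (.e (nat_lit 90176) (nat_lit 15) (.e (nat_lit 188420) (nat_lit 0) .nil)))))) (.g (nat_lit 6) .nil .nil))) 
(.lf (nat_lit 78263) (.g (nat_lit 2577) (.e (nat_lit 1800) (nat_lit 119) (.e (nat_lit 516131) (nat_lit 3) (.e (nat_lit 221212) (nat_lit 22) (.e (nat_lit 196670) (nat_lit 14) (.e (nat_lit 73746) (nat_lit 3) (.e (nat_lit 516117) (nat_lit 1) (.e (nat_lit 164182) (nat_lit 154) (.e (nat_lit 57361) (nat_lit 0) .nil)))))))) (.g (nat_lit 5) .nil .nil))))) (.nd (nat_lit 4) (.nd (nat_lit 5) 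
(.lf (nat_lit 78223) (.g (nat_lit 1286) (.e (nat_lit 1800) (nat_lit 119) (.e (nat_lit 516129) (nat_lit 3) (.e (nat_lit 229120) (nat_lit 11) (.e (nat_lit 336004) (nat_lit 2) (.e (nat_lit 90176) (nat_lit 15) (.e (nat_lit 196352) (nat_lit 0) .nil)))))) (.g (nat_lit 4) .nil .nil))) 
(.lf (nat_lit 78255) (.g (nat_lit 2673) (.e (nat_lit 1800) (nat_lit 119) (.e (nat_lit 516131) (nat_lit 3) (.e (nat_lit 221212) (nat_lit 22) (.e (nat_lit 196668) (nat_lit 14) (.e (nat_lit 73746) (nat_lit 3) (.e (nat_lit 516120) (nat_lit 1) (.e (nat_lit 164182) (nat_lit 154) (.e (nat_lit 57361) (nat_lit 0) .nil)))))))) (.g (nat_lit 4) .nil .nil)))) (.nd (nat_lit 5) 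
(.lf (nat_lit 78239) (.g (nat_lit 1848) (.e (nat_lit 1800) (nat_lit 119) (.e (nat_lit 516131) (nat_lit 3) (.e (nat_lit 221193) (nat_lit 11) (.e (nat_lit 336012) (nat_lit 2) (.e (nat_lit 90178) (nat_lit 15) (.e (nat_lit 196352) (nat_lit 0) .nil)))))) (.g (nat_lit 5) .nil .nil))) 
(.lf (nat_lit 78271) (.g (nat_lit 2442) (.e (nat_lit 1800) (nat_lit 119) (.e (nat_lit 516131) (nat_lit 3) (.e (nat_lit 221215) (nat_lit 23) (.e (nat_lit 204880) (nat_lit 32) (.e (nat_lit 385066) (nat_lit 26) (.e (nat_lit 532504) (nat_lit 1) (.e (nat_lit 57852) (nat_lit 252) (.e (nat_lit 57361) (nat_lit 0) .nil)))))))) (.g (nat_lit 4) .nil .nil)))))))))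

noncomputable def tv1060 : DT := (.nd (nat_lit 0) (.nd (nat_lit 1) (.nd (nat_lit 2) (.nd (nat_lit 3) (.nd (nat_lit 4) (.nd (nat_lit 5) 
(.lf (nat_lit 78272) (.g (nat_lit 2511) (.e (nat_lit 1800) (nat_lit 119) (.e (nat_lit 516138) (nat_lit 7) (.e (nat_lit 409645) (nat_lit 18) (.e (nat_lit 303119) (nat_lit 3) (.e (nat_lit 204877) (nat_lit 31) (.e (nat_lit 376855) (nat_lit 20) .nil)))))) (.g (nat_lit 4) .nil .nil))) 
(.lf (nat_lit 78304) (.g (nat_lit 2030) (.e (nat_lit 1800) (nat_lit 119) (.e (nat_lit 516146) (nat_lit 9) (.e (nat_lit 426131) (nat_lit 3) (.e (nat_lit 204838) (nat_lit 20) (.e (nat_lit 122624) (nat_lit 3) .nil))))) .nil))) (.nd (nat_lit 5) 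
(.lf (nat_lit 78288) (.g (nat_lit 2938) (.e (nat_lit 1800) (nat_lit 119) (.e (nat_lit 516139) (nat_lit 7) (.e (nat_lit 409647) (nat_lit 18) (.e (nat_lit 303119) (nat_lit 3) (.e (nat_lit 204878) (nat_lit 31) (.e (nat_lit 376855) (nat_lit 20) .nil)))))) (.g (nat_lit 0) .nil .nil))) 
(.lf (nat_lit 78320) (.g (nat_lit 1661) (.e (nat_lit 1800) (nat_lit 119) (.e (nat_lit 516146) (nat_lit 9) (.e (nat_lit 426437) (nat_lit 18) (.e (nat_lit 98356) (nat_lit 26) (.e (nat_lit 426438) (nat_lit 18) .nil))))) .nil)))) (.nd (nat_lit 4) (.nd (nat_lit 5) 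
(.lf (nat_lit 78280) (.g (nat_lit 2667) (.e (nat_lit 1800) (nat_lit 119) (.e (nat_lit 516139) (nat_lit 7) (.e (nat_lit 409643) (nat_lit 18) (.e (nat_lit 303119) (nat_lit 3) (.e (nat_lit 204878) (nat_lit 31) (.e (nat_lit 376855) (nat_lit 20) .nil)))))) (.g (nat_lit 0) .nil .nil))) 
(.lf (nat_lit 78312) (.g (nat_lit 4129) (.e (nat_lit 1800) (nat_lit 119) (.e (nat_lit 516146) (nat_lit 9) (.e (nat_lit 426436) (nat_lit 18) (.e (nat_lit 98358) (nat_lit 26) (.e (nat_lit 426428) (nat_lit 17) (.e (nat_lit 90170) (nat_lit 13) (.e (nat_lit 172138) (nat_lit 15) .nil))))))) (.g (nat_lit 7) .nil .nil)))) (.nd (nat_lit 5) 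
(.lf (nat_lit 78296) (.g (nat_lit 2584) (.e (nat_lit 1800) (nat_lit 119) (.e (nat_lit 516139) (nat_lit 7) (.e (nat_lit 409649) (nat_lit 18) (.e (nat_lit 303118) (nat_lit 3) (.e (nat_lit 204875) (nat_lit 31) .nil))))) .nil)) 
(.lf (nat_lit 78328) (.g (nat_lit 2598) (.e (nat_lit 1800) (nat_lit 119) (.e (nat_lit 516146) (nat_lit 9) (.e (nat_lit 426438) (nat_lit 18) (.e (nat_lit 98384) (nat_lit 32) (.e (nat_lit 475169) (nat_lit 22) (.e (nat_lit 499941) (nat_lit 13) (.e (nat_lit 237629) (nat_lit 15) .nil))))))) (.g (nat_lit 4) .nil .nil)))))) (.nd (nat_lit 3) (.nd (nat_lit 4) (.nd (nat_lit 5) 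
(.lf (nat_lit 78276) (.g (nat_lit 2492) (.e (nat_lit 1800) (nat_lit 119) (.e (nat_lit 516139) (nat_lit 7) (.e (nat_lit 409617) (nat_lit 10) (.e (nat_lit 5355) (nat_lit 298) (.e (nat_lit 1235) (nat_lit 91) (.e (nat_lit 90165) (nat_lit 12) (.e (nat_lit 171776) (nat_lit 194) (.e (nat_lit 131084) (nat_lit 0) .nil)))))))) (.g (nat_lit 4) .nil .nil))) 
(.lf (nat_lit 78308) (.g (nat_lit 3379) (.e (nat_lit 1800) (nat_lit 119) (.e (nat_lit 516146) (nat_lit 9) (.e (nat_lit 426436) (nat_lit 18) (.e (nat_lit 98356) (nat_lit 26) (.e (nat_lit 426428) (nat_lit 17) (.e (nat_lit 90169) (nat_lit 13) (.e (nat_lit 172133) (nat_lit 15) .nil))))))) (.g (nat_lit 0) .nil .nil)))) (.nd (nat_lit 5) 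
(.lf (nat_lit 78292) (.g (nat_lit 3054) (.e (nat_lit 1800) (nat_lit 119) (.e (nat_lit 516139) (nat_lit 7) (.e (nat_lit 409648) (nat_lit 18) (.e (nat_lit 303119) (nat_lit 3) (.e (nat_lit 204878) (nat_lit 31) (.e (nat_lit 376855) (nat_lit 20) .nil)))))) (.g (nat_lit 0) .nil .nil))) 
(.lf (nat_lit 78324) (.g (nat_lit 4014) (.e (nat_lit 1800) (nat_lit 119) (.e (nat_lit 516146) (nat_lit 9) (.e (nat_lit 426438) (nat_lit 18) (.e (nat_lit 98358) (nat_lit 26) (.e (nat_lit 426428) (nat_lit 17) (.e (nat_lit 90170) (nat_lit 13) (.e (nat_lit 172138) (nat_lit 15) .nil))))))) (.g (nat_lit 6) .nil .nil))))) (.nd (nat_lit 4) (.nd (nat_lit 5) 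
(.lf (nat_lit 78284) (.g (nat_lit 2862) (.e (nat_lit 1800) (nat_lit 119) (.e (nat_lit 516139) (nat_lit 7) (.e (nat_lit 409647) (nat_lit 18) (.e (nat_lit 303118) (nat_lit 3) (.e (nat_lit 204877) (nat_lit 31) (.e (nat_lit 376855) (nat_lit 20) .nil)))))) (.g (nat_lit 5) .nil .nil))) 
(.lf (nat_lit 78316) (.g (nat_lit 2392) (.e (nat_lit 1800) (nat_lit 119) (.e (nat_lit 516146) (nat_lit 9) (.e (nat_lit 426436) (nat_lit 18) (.e (nat_lit 98384) (nat_lit 32) (.e (nat_lit 475169) (nat_lit 22) (.e (nat_lit 499941) (nat_lit 13) (.e (nat_lit 237629) (nat_lit 15) .nil))))))) (.g (nat_lit 4) .nil .nil)))) (.nd (nat_lit 5) 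
(.lf (nat_lit 78300) (.g (nat_lit 3116) (.e (nat_lit 1800) (nat_lit 119) (.e (nat_lit 516139) (nat_lit 7) (.e (nat_lit 409649) (nat_lit 18) (.e (nat_lit 303119) (nat_lit 3) (.e (nat_lit 204878) (nat_lit 31) (.e (nat_lit 376855) (nat_lit 20) .nil)))))) (.g (nat_lit 0) .nil .nil))) 
(.lf (nat_lit 78332) (.g (nat_lit 1807) (.e (nat_lit 1800) (nat_lit 119) (.e (nat_lit 516150) (nat_lit 9) (.e (nat_lit 426131) (nat_lit 3) (.e (nat_lit 204837) (nat_lit 20) .nil)))) .nil)))))) (.nd (nat_lit 2) (.nd (nat_lit 3) (.nd (nat_lit 4) (.nd (nat_lit 5) 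
(.lf (nat_lit 78274) (.g (nat_lit 1449) (.e (nat_lit 1800) (nat_lit 119) (.e (nat_lit 516139) (nat_lit 7) (.e (nat_lit 409616) (nat_lit 10) (.e (nat_lit 5355) (nat_lit 298) .nil)))) .nil)) 
(.lf (nat_lit 78306) (.g (nat_lit 897) (.e (nat_lit 1800) (nat_lit 119) (.e (nat_lit 516146) (nat_lit 9) (.e (nat_lit 426428) (nat_lit 17) .nil))) .nil))) (.nd (nat_lit 5) 
(.lf (nat_lit 78290) (.g (nat_lit 2674) (.e (nat_lit 1800) (nat_lit 119) (.e (nat_lit 516139) (nat_lit 7) (.e (nat_lit 409648) (nat_lit 18) (.e (nat_lit 303118) (nat_lit 3) (.e (nat_lit 204875) (nat_lit 31) .nil))))) .nil)) 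
(.lf (nat_lit 78322) (.g (nat_lit 1810) (.e (nat_lit 1800) (nat_lit 119) (.e (nat_lit 516146) (nat_lit 9) (.e (nat_lit 426438) (nat_lit 18) (.e (nat_lit 98356) (nat_lit 26) (.e (nat_lit 426438) (nat_lit 18) .nil))))) .nil)))) (.nd (nat_lit 4) (.nd (nat_lit 5) 
(.lf (nat_lit 78282) (.g (nat_lit 2323) (.e (nat_lit 1800) (nat_lit 119) (.e (nat_lit 516139) (nat_lit 7) (.e (nat_lit 409646) (nat_lit 18) (.e (nat_lit 303119) (nat_lit 3) (.e (nat_lit 204877) (nat_lit 31) .nil))))) .nil)) 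
(.lf (nat_lit 78314) (.g (nat_lit 2503) (.e (nat_lit 1800) (nat_lit 119) (.e (nat_lit 516146) (nat_lit 9) (.e (nat_lit 426436) (nat_lit 18) (.e (nat_lit 98358) (nat_lit 26) (.e (nat_lit 426438) (nat_lit 18) (.e (nat_lit 98358) (nat_lit 26) (.e (nat_lit 426375) (nat_lit 15) .nil))))))) (.g (nat_lit 4) .nil .nil)))) (.nd (nat_lit 5) 
(.lf (nat_lit 78298) (.g (nat_lit 2520) (.e (nat_lit 1800) (nat_lit 119) (.e (nat_lit 516139) (nat_lit 7) (.e (nat_lit 409649) (nat_lit 18) (.e (nat_lit 303119) (nat_lit 3) (.e (nat_lit 204865) (nat_lit 28) (.e (nat_lit 352305) (nat_lit 20) .nil)))))) (.g (nat_lit 4) .nil .nil))) 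
(.lf (nat_lit 78330) (.g (nat_lit 2209) (.e (nat_lit 1800) (nat_lit 119) (.e (nat_lit 516146) (nat_lit 9) (.e (nat_lit 426438) (nat_lit 18) (.e (nat_lit 98386) (nat_lit 32) (.e (nat_lit 475171) (nat_lit 22) (.e (nat_lit 499919) (nat_lit 9) (.e (nat_lit 172138) (nat_lit 15) .nil))))))) (.g (nat_lit 4) .nil .nil)))))) (.nd (nat_lit 3) (.nd (nat_lit 4) (.nd (nat_lit 5) 
(.lf (nat_lit 78278) (.g (nat_lit 2884) (.e (nat_lit 1800) (nat_lit 119) (.e (nat_lit 516139) (nat_lit 7) (.e (nat_lit 409640) (nat_lit 17) (.e (nat_lit 294928) (nat_lit 2) (.e (nat_lit 90165) (nat_lit 12) (.e (nat_lit 171776) (nat_lit 194) (.e (nat_lit 131084) (nat_lit 0) .nil))))))) (.g (nat_lit 5) .nil .nil))) 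
(.lf (nat_lit 78310) (.g (nat_lit 1624) (.e (nat_lit 1800) (nat_lit 119) (.e (nat_lit 516146) (nat_lit 9) (.e (nat_lit 426436) (nat_lit 18) (.e (nat_lit 98356) (nat_lit 26) (.e (nat_lit 426438) (nat_lit 18) .nil))))) .nil))) (.nd (nat_lit 5) 
(.lf (nat_lit 78294) (.g (nat_lit 1574) (.e (nat_lit 1800) (nat_lit 119) (.e (nat_lit 516139) (nat_lit 7) (.e (nat_lit 409649) (nat_lit 18) (.e (nat_lit 303111) (nat_lit 0) .nil)))) .nil)) 
(.lf (nat_lit 78326) (.g (nat_lit 2671) (.e (nat_lit 1800) (nat_lit 119) (.e (nat_lit 516146) (nat_lit 9) (.e (nat_lit 426438) (nat_lit 18) (.e (nat_lit 98358) (nat_lit 26) (.e (nat_lit 426432) (nat_lit 17) (.e (nat_lit 90169) (nat_lit 13) (.e (nat_lit 172133) (nat_lit 15) .nil))))))) (.g (nat_lit 4) .nil .nil))))) (.nd (nat_lit 4) (.nd (nat_lit 5) 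
(.lf (nat_lit 78286) (.g (nat_lit 2466) (.e (nat_lit 1800) (nat_lit 119) (.e (nat_lit 516139) (nat_lit 7) (.e (nat_lit 409647) (nat_lit 18) (.e (nat_lit 303119) (nat_lit 3) (.e (nat_lit 204876) (nat_lit 31) (.e (nat_lit 376855) (nat_lit 20) .nil)))))) (.g (nat_lit 4) .nil .nil))) 
(.lf (nat_lit 78318) (.g (nat_lit 2403) (.e (nat_lit 1800) (nat_lit 119) (.e (nat_lit 516146) (nat_lit 9) (.e (nat_lit 426436) (nat_lit 18) (.e (nat_lit 98386) (nat_lit 32) (.e (nat_lit 475171) (nat_lit 22) (.e (nat_lit 499919) (nat_lit 9) (.e (nat_lit 172138) (nat_lit 15) .nil))))))) (.g (nat_lit 4) .nil .nil)))) (.nd (nat_lit 5) 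
(.lf (nat_lit 78302) (.g (nat_lit 734) (.e (nat_lit 1800) (nat_lit 119) (.e (nat_lit 516146) (nat_lit 9) (.e (nat_lit 426131) (nat_lit 3) .nil))) .nil)) 
(.lf (nat_lit 78334) (.g (nat_lit 4018) (.e (nat_lit 1800) (nat_lit 119) (.e (nat_lit 516150) (nat_lit 9) (.e (nat_lit 426131) (nat_lit 3) (.e (nat_lit 204837) (nat_lit 20) (.e (nat_lit 122624) (nat_lit 2) (.e (nat_lit 196656) (nat_lit 11) (.e (nat_lit 16477) (nat_lit 15) .nil))))))) (.g (nat_lit 6) .nil .nil)))))))) 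
(.nd (nat_lit 1) (.nd (nat_lit 2) (.nd (nat_lit 3) (.nd (nat_lit 4) (.nd (nat_lit 5) 
(.lf (nat_lit 78273) (.g (nat_lit 2533) (.e (nat_lit 1800) (nat_lit 119) (.e (nat_lit 516138) (nat_lit 7) (.e (nat_lit 409646) (nat_lit 18) (.e (nat_lit 303119) (nat_lit 3) (.e (nat_lit 204877) (nat_lit 31) .nil))))) .nil)) 
(.lf (nat_lit 78305) (.g (nat_lit 2555) (.e (nat_lit 1800) (nat_lit 119) (.e (nat_lit 516146) (nat_lit 9) (.e (nat_lit 426131) (nat_lit 3) (.e (nat_lit 204838) (nat_lit 20) (.e (nat_lit 114701) (nat_lit 20) .nil))))) .nil))) (.nd (nat_lit 5) 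
(.lf (nat_lit 78289) (.g (nat_lit 3032) (.e (nat_lit 1800) (nat_lit 119) (.e (nat_lit 516139) (nat_lit 7) (.e (nat_lit 409648) (nat_lit 18) (.e (nat_lit 303116) (nat_lit 2) (.e (nat_lit 196672) (nat_lit 15) (.e (nat_lit 89856) (nat_lit 20) .nil)))))) (.g (nat_lit 4) .nil .nil))) 
(.lf (nat_lit 78321) (.g (nat_lit 2743) (.e (nat_lit 1800) (nat_lit 119) (.e (nat_lit 516146) (nat_lit 9) (.e (nat_lit 426438) (nat_lit 18) (.e (nat_lit 98356) (nat_lit 26) (.e (nat_lit 426428) (nat_lit 17) (.e (nat_lit 90170) (nat_lit 13) (.e (nat_lit 172138) (nat_lit 15) .nil))))))) (.g (nat_lit 5) .nil .nil))))) (.nd (nat_lit 4) (.nd (nat_lit 5) 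
(.lf (nat_lit 78281) (.g (nat_lit 3225) (.e (nat_lit 1800) (nat_lit 119) (.e (nat_lit 516139) (nat_lit 7) (.e (nat_lit 409645) (nat_lit 18) (.e (nat_lit 303119) (nat_lit 3) (.e (nat_lit 204878) (nat_lit 31) (.e (nat_lit 376855) (nat_lit 20) .nil)))))) (.g (nat_lit 0) .nil .nil))) 
(.lf (nat_lit 78313) (.g (nat_lit 2023) (.e (nat_lit 1800) (nat_lit 119) (.e (nat_lit 516146) (nat_lit 9) (.e (nat_lit 426436) (nat_lit 18) (.e (nat_lit 98358) (nat_lit 26) (.e (nat_lit 426428) (nat_lit 17) (.e (nat_lit 90170) (nat_lit 13) (.e (nat_lit 179968) (nat_lit 15) .nil))))))) (.g (nat_lit 4) .nil .nil)))) (.nd (nat_lit 5) 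
(.lf (nat_lit 78297) (.g (nat_lit 3303) (.e (nat_lit 1800) (nat_lit 119) (.e (nat_lit 516139) (nat_lit 7) (.e (nat_lit 409649) (nat_lit 18) (.e (nat_lit 303118) (nat_lit 3) (.e (nat_lit 204878) (nat_lit 31) (.e (nat_lit 376855) (nat_lit 20) .nil)))))) (.g (nat_lit 6) .nil .nil))) 
(.lf (nat_lit 78329) (.g (nat_lit 3302) (.e (nat_lit 1800) (nat_lit 119) (.e (nat_lit 516146) (nat_lit 9) (.e (nat_lit 426438) (nat_lit 18) (.e (nat_lit 98384) (nat_lit 32) (.e (nat_lit 475169) (nat_lit 22) (.e (nat_lit 499944) (nat_lit 13) (.e (nat_lit 237629) (nat_lit 15) .nil))))))) (.g (nat_lit 5) .nil .nil)))))) (.nd (nat_lit 3) (.nd (nat_lit 4) (.nd (nat_lit 5) 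
(.lf (nat_lit 78277) (.g (nat_lit 1343) (.e (nat_lit 1800) (nat_lit 119) (.e (nat_lit 516139) (nat_lit 7) (.e (nat_lit 417536) (nat_lit 16) (.e (nat_lit 286733) (nat_lit 2) (.e (nat_lit 90165) (nat_lit 12) (.e (nat_lit 171776) (nat_lit 194) (.e (nat_lit 131084) (nat_lit 0) .nil))))))) (.g (nat_lit 4) .nil .nil))) 
(.lf (nat_lit 78309) (.g (nat_lit 3716) (.e (nat_lit 1800) (nat_lit 119) (.e (nat_lit 516146) (nat_lit 9) (.e (nat_lit 426436) (nat_lit 18) (.e (nat_lit 98356) (nat_lit 26) (.e (nat_lit 426428) (nat_lit 17) (.e (nat_lit 90170) (nat_lit 13) (.e (nat_lit 172138) (nat_lit 15) .nil))))))) (.g (nat_lit 7) .nil .nil)))) (.nd (nat_lit 5) 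
(.lf (nat_lit 78293) (.g (nat_lit 1858) (.e (nat_lit 1800) (nat_lit 119) (.e (nat_lit 516139) (nat_lit 7) (.e (nat_lit 409649) (nat_lit 18) (.e (nat_lit 303104) (nat_lit 0) .nil)))) .nil)) 
(.lf (nat_lit 78325) (.g (nat_lit 2071) (.e (nat_lit 1800) (nat_lit 119) (.e (nat_lit 516146) (nat_lit 9) (.e (nat_lit 426438) (nat_lit 18) (.e (nat_lit 98358) (nat_lit 26) (.e (nat_lit 426428) (nat_lit 17) (.e (nat_lit 90170) (nat_lit 13) (.e (nat_lit 179968) (nat_lit 15) .nil))))))) (.g (nat_lit 4) .nil .nil))))) (.nd (nat_lit 4) (.nd (nat_lit 5) 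
(.lf (nat_lit 78285) (.g (nat_lit 2229) (.e (nat_lit 1800) (nat_lit 119) (.e (nat_lit 516139) (nat_lit 7) (.e (nat_lit 409647) (nat_lit 18) (.e (nat_lit 303118) (nat_lit 3) (.e (nat_lit 204878) (nat_lit 31) (.e (nat_lit 376855) (nat_lit 20) .nil)))))) (.g (nat_lit 4) .nil .nil))) 
(.lf (nat_lit 78317) (.g (nat_lit 3096) (.e (nat_lit 1800) (nat_lit 119) (.e (nat_lit 516146) (nat_lit 9) (.e (nat_lit 426436) (nat_lit 18) (.e (nat_lit 98384) (nat_lit 32) (.e (nat_lit 475169) (nat_lit 22) (.e (nat_lit 499944) (nat_lit 13) (.e (nat_lit 237629) (nat_lit 15) .nil))))))) (.g (nat_lit 5) .nil .nil)))) (.nd (nat_lit 5) 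
(.lf (nat_lit 78301) (.g (nat_lit 1952) (.e (nat_lit 1800) (nat_lit 119) (.e (nat_lit 516139) (nat_lit 7) (.e (nat_lit 409650) (nat_lit 19) (.e (nat_lit 311315) (nat_lit 3) .nil)))) .nil)) 
(.lf (nat_lit 78333) (.g (nat_lit 2583) (.e (nat_lit 1800) (nat_lit 119) (.e (nat_lit 516150) (nat_lit 9) (.e (nat_lit 426131) (nat_lit 3) (.e (nat_lit 204837) (nat_lit 20) (.e (nat_lit 122624) (nat_lit 2) .nil))))) .nil)))))) (.nd (nat_lit 2) (.nd (nat_lit 3) (.nd (nat_lit 4) (.nd (nat_lit 5) 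
(.lf (nat_lit 78275) (.g (nat_lit 2382) (.e (nat_lit 1800) (nat_lit 119) (.e (nat_lit 516139) (nat_lit 7) (.e (nat_lit 409616) (nat_lit 10) (.e (nat_lit 5355) (nat_lit 298) (.e (nat_lit 1235) (nat_lit 91) (.e (nat_lit 90165) (nat_lit 12) (.e (nat_lit 171776) (nat_lit 194) (.e (nat_lit 131084) (nat_lit 0) .nil)))))))) (.g (nat_lit 4) .nil .nil))) 
(.lf (nat_lit 78307) (.g (nat_lit 504) (.e (nat_lit 1800) (nat_lit 119) (.e (nat_lit 516146) (nat_lit 9) (.e (nat_lit 426436) (nat_lit 18) .nil))) .nil))) (.nd (nat_lit 5) 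
(.lf (nat_lit 78291) (.g (nat_lit 3203) (.e (nat_lit 1800) (nat_lit 119) (.e (nat_lit 516139) (nat_lit 7) (.e (nat_lit 409648) (nat_lit 18) (.e (nat_lit 303118) (nat_lit 3) (.e (nat_lit 204878) (nat_lit 31) (.e (nat_lit 376855) (nat_lit 20) .nil)))))) (.g (nat_lit 0) .nil .nil))) 
(.lf (nat_lit 78323) (.g (nat_lit 3704) (.e (nat_lit 1800) (nat_lit 119) (.e (nat_lit 516146) (nat_lit 9) (.e (nat_lit 426438) (nat_lit 18) (.e (nat_lit 98358) (nat_lit 26) (.e (nat_lit 426428) (nat_lit 17) (.e (nat_lit 90169) (nat_lit 13) (.e (nat_lit 172133) (nat_lit 15) .nil))))))) (.g (nat_lit 7) .nil .nil))))) (.nd (nat_lit 4) (.nd (nat_lit 5) 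
(.lf (nat_lit 78283) (.g (nat_lit 2861) (.e (nat_lit 1800) (nat_lit 119) (.e (nat_lit 516139) (nat_lit 7) (.e (nat_lit 409647) (nat_lit 18) (.e (nat_lit 303118) (nat_lit 3) (.e (nat_lit 204876) (nat_lit 31) (.e (nat_lit 376855) (nat_lit 20) .nil)))))) (.g (nat_lit 6) .nil .nil))) 
(.lf (nat_lit 78315) (.g (nat_lit 2684) (.e (nat_lit 1800) (nat_lit 119) (.e (nat_lit 516146) (nat_lit 9) (.e (nat_lit 426436) (nat_lit 18) (.e (nat_lit 98358) (nat_lit 26) (.e (nat_lit 426438) (nat_lit 18) (.e (nat_lit 98358) (nat_lit 26) (.e (nat_lit 426382) (nat_lit 15) .nil))))))) (.g (nat_lit 4) .nil .nil)))) (.nd (nat_lit 5) 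
(.lf (nat_lit 78299) (.g (nat_lit 2222) (.e (nat_lit 1800) (nat_lit 119) (.e (nat_lit 516139) (nat_lit 7) (.e (nat_lit 409649) (nat_lit 18) (.e (nat_lit 303119) (nat_lit 3) (.e (nat_lit 204875) (nat_lit 31) .nil))))) .nil)) 
(.lf (nat_lit 78331) (.g (nat_lit 2968) (.e (nat_lit 1800) (nat_lit 119) (.e (nat_lit 516149) (nat_lit 9) (.e (nat_lit 426131) (nat_lit 3) (.e (nat_lit 204838) (nat_lit 20) (.e (nat_lit 114702) (nat_lit 20) (.e (nat_lit 1836) (nat_lit 123) (.e (nat_lit 548913) (nat_lit 18) (.e (nat_lit 172138) (nat_lit 15) .nil)))))))) (.g (nat_lit 5) .nil .nil)))))) 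
(.nd (nat_lit 3) (.nd (nat_lit 4) (.nd (nat_lit 5) 
(.lf (nat_lit 78279) (.g (nat_lit 3819) (.e (nat_lit 1800) (nat_lit 119) (.e (nat_lit 516139) (nat_lit 7) (.e (nat_lit 409641) (nat_lit 17) (.e (nat_lit 294928) (nat_lit 2) (.e (nat_lit 90165) (nat_lit 12) (.e (nat_lit 171776) (nat_lit 194) (.e (nat_lit 131084) (nat_lit 0) .nil))))))) (.g (nat_lit 5) .nil .nil))) 
(.lf (nat_lit 78311) (.g (nat_lit 3831) (.e (nat_lit 1800) (nat_lit 119) (.e (nat_lit 516146) (nat_lit 9) (.e (nat_lit 426436) (nat_lit 18) (.e (nat_lit 98358) (nat_lit 26) (.e (nat_lit 426428) (nat_lit 17) (.e (nat_lit 90169) (nat_lit 13) (.e (nat_lit 172133) (nat_lit 15) .nil))))))) (.g (nat_lit 0) .nil .nil)))) (.nd (nat_lit 5) 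
(.lf (nat_lit 78295) (.g (nat_lit 3061) (.e (nat_lit 1800) (nat_lit 119) (.e (nat_lit 516139) (nat_lit 7) (.e (nat_lit 409649) (nat_lit 18) (.e (nat_lit 303116) (nat_lit 2) (.e (nat_lit 196672) (nat_lit 15) (.e (nat_lit 89856) (nat_lit 20) .nil)))))) (.g (nat_lit 4) .nil .nil))) 
(.lf (nat_lit 78327) (.g (nat_lit 1757) (.e (nat_lit 1800) (nat_lit 119) (.e (nat_lit 516146) (nat_lit 9) (.e (nat_lit 426438) (nat_lit 18) (.e (nat_lit 98358) (nat_lit 26) (.e (nat_lit 426438) (nat_lit 18) .nil))))) .nil)))) (.nd (nat_lit 4) (.nd (nat_lit 5) 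
(.lf (nat_lit 78287) (.g (nat_lit 2867) (.e (nat_lit 1800) (nat_lit 119) (.e (nat_lit 516139) (nat_lit 7) (.e (nat_lit 409647) (nat_lit 18) (.e (nat_lit 303119) (nat_lit 3) (.e (nat_lit 204877) (nat_lit 31) (.e (nat_lit 376855) (nat_lit 20) .nil)))))) (.g (nat_lit 5) .nil .nil))) 
(.lf (nat_lit 78319) (.g (nat_lit 1870) (.e (nat_lit 1800) (nat_lit 119) (.e (nat_lit 516146) (nat_lit 9) (.e (nat_lit 426437) (nat_lit 18) (.e (nat_lit 98356) (nat_lit 26) (.e (nat_lit 426428) (nat_lit 17) .nil))))) .nil))) (.nd (nat_lit 5) 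
(.lf (nat_lit 78303) (.g (nat_lit 2179) (.e (nat_lit 1800) (nat_lit 119) (.e (nat_lit 516146) (nat_lit 9) (.e (nat_lit 426131) (nat_lit 3) (.e (nat_lit 204837) (nat_lit 20) (.e (nat_lit 122624) (nat_lit 3) .nil))))) .nil)) 
(.lf (nat_lit 78335) (.g (nat_lit 2583) (.e (nat_lit 1800) (nat_lit 119) (.e (nat_lit 516150) (nat_lit 9) (.e (nat_lit 426131) (nat_lit 3) (.e (nat_lit 204837) (nat_lit 20) (.e (nat_lit 122624) (nat_lit 3) .nil))))) .nil))))))))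

noncomputable def tv1061 : DT := (.nd (nat_lit 0) (.nd (nat_lit 1) (.nd (nat_lit 2) (.nd (nat_lit 3) (.nd (nat_lit 4) (.nd (nat_lit 5) (.nd (nat_lit 6) 
(.lf (nat_lit 78336) (.g (nat_lit 3587) (.e (nat_lit 1800) (nat_lit 119) (.e (nat_lit 516150) (nat_lit 9) (.e (nat_lit 426131) (nat_lit 3) (.e (nat_lit 204837) (nat_lit 20) (.e (nat_lit 122624) (nat_lit 3) (.e (nat_lit 204809) (nat_lit 9) (.e (nat_lit 426389) (nat_lit 15) .nil))))))) (.g (nat_lit 4) .nil .nil))) 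
(.lf (nat_lit 78400) (.g (nat_lit 2752) (.e (nat_lit 1800) (nat_lit 119) (.e (nat_lit 516174) (nat_lit 14) (.e (nat_lit 466954) (nat_lit 11) (.e (nat_lit 335995) (nat_lit 1) (.e (nat_lit 57688) (nat_lit 156) (.e (nat_lit 163908) (nat_lit 12) (.e (nat_lit 426412) (nat_lit 15) .nil))))))) (.g (nat_lit 4) .nil .nil)))) (.nd (nat_lit 6) 
(.lf (nat_lit 78368) (.g (nat_lit 4604) (.e (nat_lit 1800) (nat_lit 119) (.e (nat_lit 516166) (nat_lit 12) (.e (nat_lit 450587) (nat_lit 10) (.e (nat_lit 573477) (nat_lit 12) (.e (nat_lit 57574) (nat_lit 55) (.e (nat_lit 778465) (nat_lit 11) (.e (nat_lit 24595) (nat_lit 0) .nil))))))) (.g (nat_lit 5) .nil .nil))) 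
(.lf (nat_lit 78432) (.g (nat_lit 2141) (.e (nat_lit 1800) (nat_lit 119) (.e (nat_lit 516176) (nat_lit 14) (.e (nat_lit 466974) (nat_lit 22) (.e (nat_lit 196681) (nat_lit 17) (.e (nat_lit 131089) (nat_lit 1) .nil))))) .nil)))) (.nd (nat_lit 5) (.nd (nat_lit 6) 
(.lf (nat_lit 78352) (.g (nat_lit 1729) (.e (nat_lit 1800) (nat_lit 119) (.e (nat_lit 516150) (nat_lit 9) (.e (nat_lit 426436) (nat_lit 18) (.e (nat_lit 98356) (nat_lit 26) (.e (nat_lit 426428) (nat_lit 17) (.e (nat_lit 90169) (nat_lit 13) (.e (nat_lit 172133) (nat_lit 15) .nil))))))) (.g (nat_lit 4) .nil .nil))) 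
(.lf (nat_lit 78416) (.g (nat_lit 2909) (.e (nat_lit 1800) (nat_lit 119) (.e (nat_lit 516176) (nat_lit 14) (.e (nat_lit 466954) (nat_lit 11) (.e (nat_lit 335994) (nat_lit 1) (.e (nat_lit 57688) (nat_lit 156) (.e (nat_lit 163908) (nat_lit 12) (.e (nat_lit 426412) (nat_lit 15) .nil))))))) (.g (nat_lit 5) .nil .nil)))) (.nd (nat_lit 6) 
(.lf (nat_lit 78384) (.g (nat_lit 4457) (.e (nat_lit 1800) (nat_lit 119) (.e (nat_lit 516166) (nat_lit 12) (.e (nat_lit 450588) (nat_lit 10) (.e (nat_lit 573473) (nat_lit 12) .nil)))) .nil)) 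
(.lf (nat_lit 78448) (.g (nat_lit 3025) (.e (nat_lit 1800) (nat_lit 119) (.e (nat_lit 516176) (nat_lit 14) (.e (nat_lit 466980) (nat_lit 23) (.e (nat_lit 204846) (nat_lit 24) (.e (nat_lit 319533) (nat_lit 16) (.e (nat_lit 294656) (nat_lit 0) .nil)))))) (.g (nat_lit 5) .nil .nil)))))) (.nd (nat_lit 4) (.nd (nat_lit 5) (.nd (nat_lit 6) 
(.lf (nat_lit 78344) (.g (nat_lit 3740) (.e (nat_lit 1800) (nat_lit 119) (.e (nat_lit 516150) (nat_lit 9) (.e (nat_lit 426131) (nat_lit 3) (.e (nat_lit 204838) (nat_lit 20) (.e (nat_lit 114701) (nat_lit 20) (.e (nat_lit 1838) (nat_lit 123) (.e (nat_lit 548913) (nat_lit 18) (.e (nat_lit 172138) (nat_lit 15) .nil)))))))) (.g (nat_lit 4) .nil .nil))) 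
(.lf (nat_lit 78408) (.g (nat_lit 1241) (.e (nat_lit 1800) (nat_lit 119) (.e (nat_lit 516176) (nat_lit 14) (.e (nat_lit 466954) (nat_lit 11) (.e (nat_lit 335986) (nat_lit 1) .nil)))) .nil))) (.nd (nat_lit 6) 
(.lf (nat_lit 78376) (.g (nat_lit 6088) (.e (nat_lit 1800) (nat_lit 119) (.e (nat_lit 516166) (nat_lit 12) (.e (nat_lit 450587) (nat_lit 10) (.e (nat_lit 573478) (nat_lit 12) (.e (nat_lit 57574) (nat_lit 55) (.e (nat_lit 778466) (nat_lit 11) (.e (nat_lit 24595) (nat_lit 0) .nil))))))) (.g (nat_lit 7) .nil .nil))) 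
(.lf (nat_lit 78440) (.g (nat_lit 2083) (.e (nat_lit 1800) (nat_lit 119) (.e (nat_lit 516176) (nat_lit 14) (.e (nat_lit 466977) (nat_lit 22) (.e (nat_lit 196681) (nat_lit 17) (.e (nat_lit 131088) (nat_lit 1) .nil))))) .nil)))) (.nd (nat_lit 5) (.nd (nat_lit 6) 
(.lf (nat_lit 78360) (.g (nat_lit 2771) (.e (nat_lit 1800) (nat_lit 119) (.e (nat_lit 516165) (nat_lit 12) (.e (nat_lit 450586) (nat_lit 10) (.e (nat_lit 573475) (nat_lit 12) (.e (nat_lit 57574) (nat_lit 55) (.e (nat_lit 778466) (nat_lit 11) (.e (nat_lit 24595) (nat_lit 0) .nil))))))) (.g (nat_lit 4) .nil .nil))) 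
(.lf (nat_lit 78424) (.g (nat_lit 493) (.e (nat_lit 1800) (nat_lit 119) (.e (nat_lit 516176) (nat_lit 14) (.e (nat_lit 474880) (nat_lit 18) .nil))) .nil))) (.nd (nat_lit 6) 
(.lf (nat_lit 78392) (.g (nat_lit 2475) (.e (nat_lit 1800) (nat_lit 119) (.e (nat_lit 516169) (nat_lit 13) (.e (nat_lit 458789) (nat_lit 23) (.e (nat_lit 532515) (nat_lit 3) (.e (nat_lit 114702) (nat_lit 20) (.e (nat_lit 1836) (nat_lit 123) (.e (nat_lit 548913) (nat_lit 18) (.e (nat_lit 172138) (nat_lit 15) .nil)))))))) (.g (nat_lit 4) .nil .nil))) 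
(.lf (nat_lit 78456) (.g (nat_lit 2633) (.e (nat_lit 1800) (nat_lit 119) (.e (nat_lit 516176) (nat_lit 14) (.e (nat_lit 466981) (nat_lit 23) (.e (nat_lit 204861) (nat_lit 26) (.e (nat_lit 335988) (nat_lit 1) (.e (nat_lit 57926) (nat_lit 282) (.e (nat_lit 164082) (nat_lit 61) .nil))))))) (.g (nat_lit 5) .nil .nil))))))) (.nd (nat_lit 3) (.nd (nat_lit 4) (.nd (nat_lit 5) (.nd (nat_lit 6) 
(.lf (nat_lit 78340) (.g (nat_lit 2556) (.e (nat_lit 1800) (nat_lit 119) (.e (nat_lit 516150) (nat_lit 9) (.e (nat_lit 426131) (nat_lit 3) (.e (nat_lit 204838) (nat_lit 20) (.e (nat_lit 122624) (nat_lit 3) .nil))))) .nil)) 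
(.lf (nat_lit 78404) (.g (nat_lit 1741) (.e (nat_lit 1800) (nat_lit 119) (.e (nat_lit 516176) (nat_lit 14) (.e (nat_lit 466952) (nat_lit 11) (.e (nat_lit 335998) (nat_lit 1) (.e (nat_lit 57654) (nat_lit 152) .nil))))) .nil))) (.nd (nat_lit 6) 
(.lf (nat_lit 78372) (.g (nat_lit 3704) (.e (nat_lit 1800) (nat_lit 119) (.e (nat_lit 516166) (nat_lit 12) (.e (nat_lit 450587) (nat_lit 10) (.e (nat_lit 573477) (nat_lit 12) (.e (nat_lit 57575) (nat_lit 55) (.e (nat_lit 778466) (nat_lit 11) (.e (nat_lit 24595) (nat_lit 0) .nil))))))) (.g (nat_lit 4) .nil .nil))) 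
(.lf (nat_lit 78436) (.g (nat_lit 1876) (.e (nat_lit 1800) (nat_lit 119) (.e (nat_lit 516176) (nat_lit 14) (.e (nat_lit 466977) (nat_lit 22) (.e (nat_lit 196668) (nat_lit 14) (.e (nat_lit 73766) (nat_lit 19) (.e (nat_lit 647171) (nat_lit 0) (.e (nat_lit 46) (nat_lit 0) .nil))))))) (.g (nat_lit 4) .nil .nil))))) (.nd (nat_lit 5) (.nd (nat_lit 6) 
(.lf (nat_lit 78356) (.g (nat_lit 1282) (.e (nat_lit 1800) (nat_lit 119) (.e (nat_lit 516151) (nat_lit 9) (.e (nat_lit 426285) (nat_lit 10) .nil))) .nil)) 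
(.lf (nat_lit 78420) (.g (nat_lit 3408) (.e (nat_lit 1800) (nat_lit 119) (.e (nat_lit 516176) (nat_lit 14) (.e (nat_lit 466954) (nat_lit 11) (.e (nat_lit 335995) (nat_lit 1) (.e (nat_lit 57688) (nat_lit 156) (.e (nat_lit 163908) (nat_lit 12) (.e (nat_lit 426412) (nat_lit 15) .nil))))))) (.g (nat_lit 5) .nil .nil)))) (.nd (nat_lit 6) 
(.lf (nat_lit 78388) (.g (nat_lit 5722) (.e (nat_lit 1800) (nat_lit 119) (.e (nat_lit 516166) (nat_lit 12) (.e (nat_lit 450588) (nat_lit 10) (.e (nat_lit 573475) (nat_lit 12) (.e (nat_lit 57574) (nat_lit 55) (.e (nat_lit 778465) (nat_lit 11) (.e (nat_lit 24595) (nat_lit 0) .nil))))))) (.g (nat_lit 6) .nil .nil))) 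
(.lf (nat_lit 78452) (.g (nat_lit 1175) (.e (nat_lit 1800) (nat_lit 119) (.e (nat_lit 516176) (nat_lit 14) (.e (nat_lit 466981) (nat_lit 23) (.e (nat_lit 204861) (nat_lit 26) .nil)))) .nil))))) (.nd (nat_lit 4) (.nd (nat_lit 5) (.nd (nat_lit 6) 
(.lf (nat_lit 78348) (.g (nat_lit 1095) (.e (nat_lit 1800) (nat_lit 119) (.e (nat_lit 516150) (nat_lit 9) (.e (nat_lit 426323) (nat_lit 13) (.e (nat_lit 483363) (nat_lit 18) .nil)))) .nil)) 
(.lf (nat_lit 78412) (.g (nat_lit 3004) (.e (nat_lit 1800) (nat_lit 119) (.e (nat_lit 516176) (nat_lit 14) (.e (nat_lit 466954) (nat_lit 11) (.e (nat_lit 335986) (nat_lit 1) (.e (nat_lit 57658) (nat_lit 152) .nil))))) .nil))) (.nd (nat_lit 6) 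
(.lf (nat_lit 78380) (.g (nat_lit 5327) (.e (nat_lit 1800) (nat_lit 119) (.e (nat_lit 516166) (nat_lit 12) (.e (nat_lit 450588) (nat_lit 10) (.e (nat_lit 573469) (nat_lit 11) (.e (nat_lit 16473) (nat_lit 14) .nil))))) .nil)) 
(.lf (nat_lit 78444) (.g (nat_lit 3262) (.e (nat_lit 1800) (nat_lit 119) (.e (nat_lit 516176) (nat_lit 14) (.e (nat_lit 466977) (nat_lit 22) (.e (nat_lit 196681) (nat_lit 17) (.e (nat_lit 131089) (nat_lit 1) (.e (nat_lit 57930) (nat_lit 282) (.e (nat_lit 164082) (nat_lit 61) .nil))))))) (.g (nat_lit 0) .nil .nil))))) (.nd (nat_lit 5) (.nd (nat_lit 6) 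
(.lf (nat_lit 78364) (.g (nat_lit 2830) (.e (nat_lit 1800) (nat_lit 119) (.e (nat_lit 516166) (nat_lit 12) (.e (nat_lit 450587) (nat_lit 10) (.e (nat_lit 573456) (nat_lit 9) .nil)))) .nil)) 
(.lf (nat_lit 78428) (.g (nat_lit 2538) (.e (nat_lit 1800) (nat_lit 119) (.e (nat_lit 516176) (nat_lit 14) (.e (nat_lit 466972) (nat_lit 21) (.e (nat_lit 164182) (nat_lit 154) (.e (nat_lit 57386) (nat_lit 4) (.e (nat_lit 106534) (nat_lit 11) (.e (nat_lit 16477) (nat_lit 15) .nil))))))) (.g (nat_lit 4) .nil .nil)))) (.nd (nat_lit 6) 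
(.lf (nat_lit 78396) (.g (nat_lit 2856) (.e (nat_lit 1800) (nat_lit 119) (.e (nat_lit 516174) (nat_lit 14) (.e (nat_lit 466954) (nat_lit 11) (.e (nat_lit 335986) (nat_lit 1) (.e (nat_lit 57654) (nat_lit 152) .nil))))) .nil)) 
(.lf (nat_lit 78460) (.g (nat_lit 2219) (.e (nat_lit 1800) (nat_lit 119) (.e (nat_lit 516176) (nat_lit 14) (.e (nat_lit 466981) (nat_lit 23) (.e (nat_lit 204861) (nat_lit 26) (.e (nat_lit 335988) (nat_lit 1) (.e (nat_lit 57931) (nat_lit 282) (.e (nat_lit 164077) (nat_lit 61) .nil))))))) (.g (nat_lit 4) .nil .nil)))))))) 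
(.nd (nat_lit 2) (.nd (nat_lit 3) (.nd (nat_lit 4) (.nd (nat_lit 5) (.nd (nat_lit 6) 
(.lf (nat_lit 78338) (.g (nat_lit 3016) (.e (nat_lit 1800) (nat_lit 119) (.e (nat_lit 516150) (nat_lit 9) (.e (nat_lit 426131) (nat_lit 3) (.e (nat_lit 204837) (nat_lit 20) (.e (nat_lit 114702) (nat_lit 20) (.e (nat_lit 1836) (nat_lit 123) (.e (nat_lit 548913) (nat_lit 18) (.e (nat_lit 172138) (nat_lit 15) .nil)))))))) (.g (nat_lit 4) .nil .nil))) 
(.lf (nat_lit 78402) (.g (nat_lit 613) (.e (nat_lit 1800) (nat_lit 119) (.e (nat_lit 516174) (nat_lit 14) (.e (nat_lit 466975) (nat_lit 22) .nil))) .nil))) (.nd (nat_lit 6) 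
(.lf (nat_lit 78370) (.g (nat_lit 5287) (.e (nat_lit 1800) (nat_lit 119) (.e (nat_lit 516166) (nat_lit 12) (.e (nat_lit 450587) (nat_lit 10) (.e (nat_lit 573477) (nat_lit 12) (.e (nat_lit 57574) (nat_lit 55) (.e (nat_lit 778466) (nat_lit 11) (.e (nat_lit 24595) (nat_lit 0) .nil))))))) (.g (nat_lit 6) .nil .nil))) 
(.lf (nat_lit 78434) (.g (nat_lit 2881) (.e (nat_lit 1800) (nat_lit 119) (.e (nat_lit 516176) (nat_lit 14) (.e (nat_lit 466974) (nat_lit 22) (.e (nat_lit 196681) (nat_lit 17) (.e (nat_lit 131089) (nat_lit 1) (.e (nat_lit 57931) (nat_lit 282) (.e (nat_lit 164077) (nat_lit 61) .nil))))))) (.g (nat_lit 4) .nil .nil))))) (.nd (nat_lit 5) (.nd (nat_lit 6) 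
(.lf (nat_lit 78354) (.g (nat_lit 2752) (.e (nat_lit 1800) (nat_lit 119) (.e (nat_lit 516150) (nat_lit 9) (.e (nat_lit 426436) (nat_lit 18) (.e (nat_lit 98358) (nat_lit 26) (.e (nat_lit 426428) (nat_lit 17) (.e (nat_lit 90169) (nat_lit 13) (.e (nat_lit 172133) (nat_lit 15) .nil))))))) (.g (nat_lit 5) .nil .nil))) 
(.lf (nat_lit 78418) (.g (nat_lit 2369) (.e (nat_lit 1800) (nat_lit 119) (.e (nat_lit 516176) (nat_lit 14) (.e (nat_lit 466954) (nat_lit 11) (.e (nat_lit 335995) (nat_lit 1) (.e (nat_lit 57652) (nat_lit 152) .nil))))) .nil))) (.nd (nat_lit 6) 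
(.lf (nat_lit 78386) (.g (nat_lit 3251) (.e (nat_lit 1800) (nat_lit 119) (.e (nat_lit 516166) (nat_lit 12) (.e (nat_lit 450588) (nat_lit 10) (.e (nat_lit 573475) (nat_lit 12) .nil)))) .nil)) 
(.lf (nat_lit 78450) (.g (nat_lit 3149) (.e (nat_lit 1800) (nat_lit 119) (.e (nat_lit 516176) (nat_lit 14) (.e (nat_lit 466981) (nat_lit 23) (.e (nat_lit 204846) (nat_lit 24) (.e (nat_lit 319533) (nat_lit 16) (.e (nat_lit 294656) (nat_lit 0) .nil)))))) (.g (nat_lit 5) .nil .nil)))))) (.nd (nat_lit 4) (.nd (nat_lit 5) (.nd (nat_lit 6) 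
(.lf (nat_lit 78346) (.g (nat_lit 619) (.e (nat_lit 1800) (nat_lit 119) (.e (nat_lit 516150) (nat_lit 9) (.e (nat_lit 426320) (nat_lit 12) .nil))) .nil)) 
(.lf (nat_lit 78410) (.g (nat_lit 3337) (.e (nat_lit 1800) (nat_lit 119) (.e (nat_lit 516176) (nat_lit 14) (.e (nat_lit 466954) (nat_lit 11) (.e (nat_lit 335986) (nat_lit 1) (.e (nat_lit 57654) (nat_lit 152) (.e (nat_lit 2633) (nat_lit 164) (.e (nat_lit 172133) (nat_lit 15) .nil))))))) (.g (nat_lit 4) .nil .nil)))) (.nd (nat_lit 6) 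
(.lf (nat_lit 78378) (.g (nat_lit 4601) (.e (nat_lit 1800) (nat_lit 119) (.e (nat_lit 516166) (nat_lit 12) (.e (nat_lit 450588) (nat_lit 10) (.e (nat_lit 573452) (nat_lit 9) .nil)))) .nil)) 
(.lf (nat_lit 78442) (.g (nat_lit 3459) (.e (nat_lit 1800) (nat_lit 119) (.e (nat_lit 516176) (nat_lit 14) (.e (nat_lit 466977) (nat_lit 22) (.e (nat_lit 196681) (nat_lit 17) (.e (nat_lit 131089) (nat_lit 1) (.e (nat_lit 57930) (nat_lit 282) (.e (nat_lit 164078) (nat_lit 61) .nil))))))) (.g (nat_lit 7) .nil .nil))))) (.nd (nat_lit 5) (.nd (nat_lit 6) 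
(.lf (nat_lit 78362) (.g (nat_lit 3997) (.e (nat_lit 1800) (nat_lit 119) (.e (nat_lit 516166) (nat_lit 12) (.e (nat_lit 450563) (nat_lit 0) (.e (nat_lit 6420) (nat_lit 341) (.e (nat_lit 163843) (nat_lit 0) .nil))))) .nil)) 
(.lf (nat_lit 78426) (.g (nat_lit 1393) (.e (nat_lit 1800) (nat_lit 119) (.e (nat_lit 516176) (nat_lit 14) (.e (nat_lit 466971) (nat_lit 21) (.e (nat_lit 164182) (nat_lit 154) .nil)))) .nil))) (.nd (nat_lit 6) 
(.lf (nat_lit 78394) (.g (nat_lit 2540) (.e (nat_lit 1800) (nat_lit 119) (.e (nat_lit 516174) (nat_lit 14) (.e (nat_lit 466954) (nat_lit 11) (.e (nat_lit 335912) (nat_lit 0) (.e (nat_lit 2265) (nat_lit 149) (.e (nat_lit 761903) (nat_lit 16) (.e (nat_lit 172133) (nat_lit 15) .nil))))))) (.g (nat_lit 4) .nil .nil))) 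
(.lf (nat_lit 78458) (.g (nat_lit 3274) (.e (nat_lit 1800) (nat_lit 119) (.e (nat_lit 516176) (nat_lit 14) (.e (nat_lit 466981) (nat_lit 23) (.e (nat_lit 204861) (nat_lit 26) (.e (nat_lit 335988) (nat_lit 1) (.e (nat_lit 57927) (nat_lit 282) (.e (nat_lit 164081) (nat_lit 61) .nil))))))) (.g (nat_lit 5) .nil .nil))))))) (.nd (nat_lit 3) (.nd (nat_lit 4) (.nd (nat_lit 5) (.nd (nat_lit 6) 
(.lf (nat_lit 78342) (.g (nat_lit 3667) (.e (nat_lit 1800) (nat_lit 119) (.e (nat_lit 516150) (nat_lit 9) (.e (nat_lit 426131) (nat_lit 3) (.e (nat_lit 204838) (nat_lit 20) (.e (nat_lit 122624) (nat_lit 3) (.e (nat_lit 204811) (nat_lit 9) (.e (nat_lit 426391) (nat_lit 15) .nil))))))) (.g (nat_lit 4) .nil .nil))) 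
(.lf (nat_lit 78406) (.g (nat_lit 1583) (.e (nat_lit 1800) (nat_lit 119) (.e (nat_lit 516176) (nat_lit 14) (.e (nat_lit 466954) (nat_lit 11) (.e (nat_lit 335897) (nat_lit 0) .nil)))) .nil))) (.nd (nat_lit 6) 
(.lf (nat_lit 78374) (.g (nat_lit 3832) (.e (nat_lit 1800) (nat_lit 119) (.e (nat_lit 516166) (nat_lit 12) (.e (nat_lit 450587) (nat_lit 10) (.e (nat_lit 573478) (nat_lit 12) (.e (nat_lit 57574) (nat_lit 55) (.e (nat_lit 778465) (nat_lit 11) (.e (nat_lit 24594) (nat_lit 0) .nil))))))) (.g (nat_lit 4) .nil .nil))) 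
(.lf (nat_lit 78438) (.g (nat_lit 2134) (.e (nat_lit 1800) (nat_lit 119) (.e (nat_lit 516176) (nat_lit 14) (.e (nat_lit 466977) (nat_lit 22) (.e (nat_lit 196681) (nat_lit 17) (.e (nat_lit 131086) (nat_lit 1) .nil))))) .nil)))) (.nd (nat_lit 5) (.nd (nat_lit 6) 
(.lf (nat_lit 78358) (.g (nat_lit 3776) (.e (nat_lit 1800) (nat_lit 119) (.e (nat_lit 516151) (nat_lit 9) (.e (nat_lit 426286) (nat_lit 10) (.e (nat_lit 434248) (nat_lit 28) .nil)))) .nil)) 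
(.lf (nat_lit 78422) (.g (nat_lit 2583) (.e (nat_lit 1800) (nat_lit 119) (.e (nat_lit 516176) (nat_lit 14) (.e (nat_lit 466954) (nat_lit 11) (.e (nat_lit 335996) (nat_lit 1) (.e (nat_lit 57663) (nat_lit 152) (.e (nat_lit 2630) (nat_lit 164) (.e (nat_lit 172138) (nat_lit 15) .nil))))))) (.g (nat_lit 4) .nil .nil)))) (.nd (nat_lit 6) 
(.lf (nat_lit 78390) (.g (nat_lit 1330) (.e (nat_lit 1800) (nat_lit 119) (.e (nat_lit 516166) (nat_lit 12) (.e (nat_lit 450601) (nat_lit 21) .nil))) .nil)) 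
(.lf (nat_lit 78454) (.g (nat_lit 3154) (.e (nat_lit 1800) (nat_lit 119) (.e (nat_lit 516176) (nat_lit 14) (.e (nat_lit 466981) (nat_lit 23) (.e (nat_lit 204861) (nat_lit 26) (.e (nat_lit 335988) (nat_lit 1) (.e (nat_lit 57926) (nat_lit 282) (.e (nat_lit 164077) (nat_lit 61) .nil))))))) (.g (nat_lit 6) .nil .nil)))))) (.nd (nat_lit 4) (.nd (nat_lit 5) (.nd (nat_lit 6) 
(.lf (nat_lit 78350) (.g (nat_lit 3370) (.e (nat_lit 1800) (nat_lit 119) (.e (nat_lit 516150) (nat_lit 9) (.e (nat_lit 426323) (nat_lit 13) (.e (nat_lit 483363) (nat_lit 18) (.e (nat_lit 57688) (nat_lit 156) (.e (nat_lit 163908) (nat_lit 12) (.e (nat_lit 426412) (nat_lit 15) .nil))))))) (.g (nat_lit 5) .nil .nil))) 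
(.lf (nat_lit 78414) (.g (nat_lit 2866) (.e (nat_lit 1800) (nat_lit 119) (.e (nat_lit 516176) (nat_lit 14) (.e (nat_lit 466954) (nat_lit 11) (.e (nat_lit 335986) (nat_lit 1) (.e (nat_lit 57665) (nat_lit 152) .nil))))) .nil))) (.nd (nat_lit 6) 
(.lf (nat_lit 78382) (.g (nat_lit 6463) (.e (nat_lit 1800) (nat_lit 119) (.e (nat_lit 516166) (nat_lit 12) (.e (nat_lit 450588) (nat_lit 10) (.e (nat_lit 573470) (nat_lit 11) (.e (nat_lit 16473) (nat_lit 14) (.e (nat_lit 491529) (nat_lit 0) .nil)))))) (.g (nat_lit 5) .nil .nil))) 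
(.lf (nat_lit 78446) (.g (nat_lit 2406) (.e (nat_lit 1800) (nat_lit 119) (.e (nat_lit 516176) (nat_lit 14) (.e (nat_lit 466977) (nat_lit 22) (.e (nat_lit 196681) (nat_lit 17) (.e (nat_lit 131089) (nat_lit 1) (.e (nat_lit 57931) (nat_lit 282) (.e (nat_lit 164081) (nat_lit 61) .nil))))))) (.g (nat_lit 4) .nil .nil))))) (.nd (nat_lit 5) (.nd (nat_lit 6) 
(.lf (nat_lit 78366) (.g (nat_lit 3988) (.e (nat_lit 1800) (nat_lit 119) (.e (nat_lit 516166) (nat_lit 12) (.e (nat_lit 450587) (nat_lit 10) (.e (nat_lit 573475) (nat_lit 12) .nil)))) .nil)) 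
(.lf (nat_lit 78430) (.g (nat_lit 2270) (.e (nat_lit 1800) (nat_lit 119) (.e (nat_lit 516176) (nat_lit 14) (.e (nat_lit 466972) (nat_lit 21) (.e (nat_lit 164183) (nat_lit 154) (.e (nat_lit 57385) (nat_lit 4) (.e (nat_lit 106534) (nat_lit 11) (.e (nat_lit 16477) (nat_lit 15) .nil))))))) (.g (nat_lit 4) .nil .nil)))) (.nd (nat_lit 6) 
(.lf (nat_lit 78398) (.g (nat_lit 2981) (.e (nat_lit 1800) (nat_lit 119) (.e (nat_lit 516174) (nat_lit 14) (.e (nat_lit 466954) (nat_lit 11) (.e (nat_lit 335986) (nat_lit 1) (.e (nat_lit 57659) (nat_lit 152) .nil))))) .nil)) 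
(.lf (nat_lit 78462) (.g (nat_lit 3195) (.e (nat_lit 1800) (nat_lit 119) (.e (nat_lit 516179) (nat_lit 15) (.e (nat_lit 475177) (nat_lit 24) (.e (nat_lit 516146) (nat_lit 9) (.e (nat_lit 426428) (nat_lit 17) (.e (nat_lit 90169) (nat_lit 13) (.e (nat_lit 172133) (nat_lit 15) .nil))))))) (.g (nat_lit 7) .nil .nil))))))))) 
(.nd (nat_lit 1) (.nd (nat_lit 2) (.nd (nat_lit 3) (.nd (nat_lit 4) (.nd (nat_lit 5) 
(.nd (nat_lit 6) 
(.lf (nat_lit 78337) (.g (nat_lit 2951) (.e (nat_lit 1800) (nat_lit 119) (.e (nat_lit 516150) (nat_lit 9) (.e (nat_lit 426131) (nat_lit 3) (.e (nat_lit 204837) (nat_lit 20) (.e (nat_lit 114701) (nat_lit 20) (.e (nat_lit 1838) (nat_lit 123) (.e (nat_lit 548913) (nat_lit 18) (.e (nat_lit 172138) (nat_lit 15) .nil)))))))) (.g (nat_lit 4) .nil .nil))) 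
(.lf (nat_lit 78401) (.g (nat_lit 2479) (.e (nat_lit 1800) (nat_lit 119) (.e (nat_lit 516174) (nat_lit 14) (.e (nat_lit 466954) (nat_lit 11) (.e (nat_lit 335996) (nat_lit 1) (.e (nat_lit 57663) (nat_lit 152) .nil))))) .nil))) (.nd (nat_lit 6) 
(.lf (nat_lit 78369) (.g (nat_lit 4442) (.e (nat_lit 1800) (nat_lit 119) (.e (nat_lit 516166) (nat_lit 12) (.e (nat_lit 450587) (nat_lit 10) (.e (nat_lit 573477) (nat_lit 12) (.e (nat_lit 57574) (nat_lit 55) (.e (nat_lit 778466) (nat_lit 11) (.e (nat_lit 24594) (nat_lit 0) .nil))))))) (.g (nat_lit 5) .nil .nil))) 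
(.lf (nat_lit 78433) (.g (nat_lit 2499) (.e (nat_lit 1800) (nat_lit 119) (.e (nat_lit 516176) (nat_lit 14) (.e (nat_lit 466974) (nat_lit 22) (.e (nat_lit 196681) (nat_lit 17) (.e (nat_lit 131089) (nat_lit 1) (.e (nat_lit 57930) (nat_lit 282) (.e (nat_lit 164078) (nat_lit 61) .nil))))))) (.g (nat_lit 4) .nil .nil))))) (.nd (nat_lit 5) (.nd (nat_lit 6) 
(.lf (nat_lit 78353) (.g (nat_lit 1958) (.e (nat_lit 1800) (nat_lit 119) (.e (nat_lit 516150) (nat_lit 9) (.e (nat_lit 426436) (nat_lit 18) (.e (nat_lit 98356) (nat_lit 26) (.e (nat_lit 426428) (nat_lit 17) (.e (nat_lit 90170) (nat_lit 13) (.e (nat_lit 172138) (nat_lit 15) .nil))))))) (.g (nat_lit 4) .nil .nil))) 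
(.lf (nat_lit 78417) (.g (nat_lit 1289) (.e (nat_lit 1800) (nat_lit 119) (.e (nat_lit 516176) (nat_lit 14) (.e (nat_lit 466954) (nat_lit 11) (.e (nat_lit 335995) (nat_lit 1) .nil)))) .nil))) (.nd (nat_lit 6) 
(.lf (nat_lit 78385) (.g (nat_lit 7033) (.e (nat_lit 1800) (nat_lit 119) (.e (nat_lit 516166) (nat_lit 12) (.e (nat_lit 450588) (nat_lit 10) (.e (nat_lit 573474) (nat_lit 12) .nil)))) .nil)) 
(.lf (nat_lit 78449) (.g (nat_lit 2145) (.e (nat_lit 1800) (nat_lit 119) (.e (nat_lit 516176) (nat_lit 14) (.e (nat_lit 466980) (nat_lit 23) (.e (nat_lit 204846) (nat_lit 24) (.e (nat_lit 319534) (nat_lit 16) (.e (nat_lit 294656) (nat_lit 0) .nil)))))) (.g (nat_lit 4) .nil .nil)))))) (.nd (nat_lit 4) (.nd (nat_lit 5) (.nd (nat_lit 6) 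
(.lf (nat_lit 78345) (.g (nat_lit 3145) (.e (nat_lit 1800) (nat_lit 119) (.e (nat_lit 516150) (nat_lit 9) (.e (nat_lit 426131) (nat_lit 3) (.e (nat_lit 204838) (nat_lit 20) (.e (nat_lit 114716) (nat_lit 22) (.e (nat_lit 90196) (nat_lit 18) (.e (nat_lit 2798) (nat_lit 180) (.e (nat_lit 303150) (nat_lit 15) .nil)))))))) (.g (nat_lit 4) .nil .nil))) 
(.lf (nat_lit 78409) (.g (nat_lit 2674) (.e (nat_lit 1800) (nat_lit 119) (.e (nat_lit 516176) (nat_lit 14) (.e (nat_lit 466954) (nat_lit 11) (.e (nat_lit 335986) (nat_lit 1) (.e (nat_lit 57652) (nat_lit 152) .nil))))) .nil))) (.nd (nat_lit 6) 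
(.lf (nat_lit 78377) (.g (nat_lit 4693) (.e (nat_lit 1800) (nat_lit 119) (.e (nat_lit 516166) (nat_lit 12) (.e (nat_lit 450588) (nat_lit 10) (.e (nat_lit 573449) (nat_lit 9) .nil)))) .nil)) 
(.lf (nat_lit 78441) (.g (nat_lit 1892) (.e (nat_lit 1800) (nat_lit 119) (.e (nat_lit 516176) (nat_lit 14) (.e (nat_lit 466977) (nat_lit 22) (.e (nat_lit 196681) (nat_lit 17) (.e (nat_lit 131089) (nat_lit 1) .nil))))) .nil)))) (.nd (nat_lit 5) (.nd (nat_lit 6) 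
(.lf (nat_lit 78361) (.g (nat_lit 2741) (.e (nat_lit 1800) (nat_lit 119) (.e (nat_lit 516165) (nat_lit 12) (.e (nat_lit 450586) (nat_lit 10) (.e (nat_lit 573478) (nat_lit 12) (.e (nat_lit 57574) (nat_lit 55) (.e (nat_lit 778466) (nat_lit 11) (.e (nat_lit 24595) (nat_lit 0) .nil))))))) (.g (nat_lit 4) .nil .nil))) 
(.lf (nat_lit 78425) (.g (nat_lit 1871) (.e (nat_lit 1800) (nat_lit 119) (.e (nat_lit 516176) (nat_lit 14) (.e (nat_lit 466967) (nat_lit 20) (.e (nat_lit 3253) (nat_lit 197) (.e (nat_lit 532523) (nat_lit 7) (.e (nat_lit 319533) (nat_lit 16) (.e (nat_lit 294656) (nat_lit 0) .nil))))))) (.g (nat_lit 4) .nil .nil)))) (.nd (nat_lit 6) 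
(.lf (nat_lit 78393) (.g (nat_lit 538) (.e (nat_lit 1800) (nat_lit 119) (.e (nat_lit 516174) (nat_lit 14) (.e (nat_lit 466954) (nat_lit 11) .nil))) .nil)) 
(.lf (nat_lit 78457) (.g (nat_lit 3751) (.e (nat_lit 1800) (nat_lit 119) (.e (nat_lit 516176) (nat_lit 14) (.e (nat_lit 466981) (nat_lit 23) (.e (nat_lit 204861) (nat_lit 26) (.e (nat_lit 335988) (nat_lit 1) (.e (nat_lit 57927) (nat_lit 282) (.e (nat_lit 164077) (nat_lit 61) .nil))))))) (.g (nat_lit 6) .nil .nil))))))) (.nd (nat_lit 3) (.nd (nat_lit 4) (.nd (nat_lit 5) (.nd (nat_lit 6) 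
(.lf (nat_lit 78341) (.g (nat_lit 3374) (.e (nat_lit 1800) (nat_lit 119) (.e (nat_lit 516150) (nat_lit 9) (.e (nat_lit 426131) (nat_lit 3) (.e (nat_lit 204838) (nat_lit 20) (.e (nat_lit 122624) (nat_lit 3) (.e (nat_lit 204809) (nat_lit 9) (.e (nat_lit 426389) (nat_lit 15) .nil))))))) (.g (nat_lit 4) .nil .nil))) 
(.lf (nat_lit 78405) (.g (nat_lit 426) (.e (nat_lit 1800) (nat_lit 119) (.e (nat_lit 516176) (nat_lit 14) (.e (nat_lit 466954) (nat_lit 11) .nil))) .nil))) (.nd (nat_lit 6) 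
(.lf (nat_lit 78373) (.g (nat_lit 2761) (.e (nat_lit 1800) (nat_lit 119) (.e (nat_lit 516166) (nat_lit 12) (.e (nat_lit 450587) (nat_lit 10) (.e (nat_lit 573478) (nat_lit 12) .nil)))) .nil)) 
(.lf (nat_lit 78437) (.g (nat_lit 2284) (.e (nat_lit 1800) (nat_lit 119) (.e (nat_lit 516176) (nat_lit 14) (.e (nat_lit 466977) (nat_lit 22) (.e (nat_lit 196670) (nat_lit 14) (.e (nat_lit 73766) (nat_lit 19) (.e (nat_lit 647171) (nat_lit 0) (.e (nat_lit 46) (nat_lit 0) .nil))))))) (.g (nat_lit 4) .nil .nil))))) (.nd (nat_lit 5) (.nd (nat_lit 6) 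
(.lf (nat_lit 78357) (.g (nat_lit 3775) (.e (nat_lit 1800) (nat_lit 119) (.e (nat_lit 516151) (nat_lit 9) (.e (nat_lit 426286) (nat_lit 10) (.e (nat_lit 434247) (nat_lit 28) .nil)))) .nil)) 
(.lf (nat_lit 78421) (.g (nat_lit 1294) (.e (nat_lit 1800) (nat_lit 119) (.e (nat_lit 516176) (nat_lit 14) (.e (nat_lit 466954) (nat_lit 11) (.e (nat_lit 335996) (nat_lit 1) .nil)))) .nil))) (.nd (nat_lit 6) 
(.lf (nat_lit 78389) (.g (nat_lit 6387) (.e (nat_lit 1800) (nat_lit 119) (.e (nat_lit 516166) (nat_lit 12) (.e (nat_lit 450588) (nat_lit 10) (.e (nat_lit 573475) (nat_lit 12) (.e (nat_lit 57574) (nat_lit 55) (.e (nat_lit 778466) (nat_lit 11) (.e (nat_lit 24595) (nat_lit 0) .nil))))))) (.g (nat_lit 6) .nil .nil))) 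
(.lf (nat_lit 78453) (.g (nat_lit 1858) (.e (nat_lit 1800) (nat_lit 119) (.e (nat_lit 516176) (nat_lit 14) (.e (nat_lit 466981) (nat_lit 23) (.e (nat_lit 204861) (nat_lit 26) (.e (nat_lit 335987) (nat_lit 1) .nil))))) .nil))))) (.nd (nat_lit 4) (.nd (nat_lit 5) (.nd (nat_lit 6) 
(.lf (nat_lit 78349) (.g (nat_lit 2457) (.e (nat_lit 1800) (nat_lit 119) (.e (nat_lit 516150) (nat_lit 9) (.e (nat_lit 426323) (nat_lit 13) (.e (nat_lit 483363) (nat_lit 18) (.e (nat_lit 57652) (nat_lit 152) (.e (nat_lit 2633) (nat_lit 164) (.e (nat_lit 172133) (nat_lit 15) .nil))))))) (.g (nat_lit 4) .nil .nil))) 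
(.lf (nat_lit 78413) (.g (nat_lit 2884) (.e (nat_lit 1800) (nat_lit 119) (.e (nat_lit 516176) (nat_lit 14) (.e (nat_lit 466954) (nat_lit 11) (.e (nat_lit 335986) (nat_lit 1) (.e (nat_lit 57659) (nat_lit 152) .nil))))) .nil))) (.nd (nat_lit 6) 
(.lf (nat_lit 78381) (.g (nat_lit 4665) (.e (nat_lit 1800) (nat_lit 119) (.e (nat_lit 516166) (nat_lit 12) (.e (nat_lit 450588) (nat_lit 10) (.e (nat_lit 573470) (nat_lit 11) .nil)))) .nil)) 
(.lf (nat_lit 78445) (.g (nat_lit 3827) (.e (nat_lit 1800) (nat_lit 119) (.e (nat_lit 516176) (nat_lit 14) (.e (nat_lit 466977) (nat_lit 22) (.e (nat_lit 196681) (nat_lit 17) (.e (nat_lit 131089) (nat_lit 1) (.e (nat_lit 57931) (nat_lit 282) (.e (nat_lit 164077) (nat_lit 61) .nil))))))) (.g (nat_lit 6) .nil .nil))))) (.nd (nat_lit 5) (.nd (nat_lit 6) 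
(.lf (nat_lit 78365) (.g (nat_lit 2804) (.e (nat_lit 1800) (nat_lit 119) (.e (nat_lit 516166) (nat_lit 12) (.e (nat_lit 450587) (nat_lit 10) (.e (nat_lit 573457) (nat_lit 9) .nil)))) .nil)) 
(.lf (nat_lit 78429) (.g (nat_lit 2380) (.e (nat_lit 1800) (nat_lit 119) (.e (nat_lit 516176) (nat_lit 14) (.e (nat_lit 466972) (nat_lit 21) (.e (nat_lit 164183) (nat_lit 154) (.e (nat_lit 57384) (nat_lit 4) (.e (nat_lit 106534) (nat_lit 11) (.e (nat_lit 16477) (nat_lit 15) .nil))))))) (.g (nat_lit 4) .nil .nil)))) (.nd (nat_lit 6) 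
(.lf (nat_lit 78397) (.g (nat_lit 2734) (.e (nat_lit 1800) (nat_lit 119) (.e (nat_lit 516174) (nat_lit 14) (.e (nat_lit 466954) (nat_lit 11) (.e (nat_lit 335986) (nat_lit 1) (.e (nat_lit 57657) (nat_lit 152) (.e (nat_lit 2622) (nat_lit 164) (.e (nat_lit 172133) (nat_lit 15) .nil))))))) (.g (nat_lit 4) .nil .nil))) 
(.lf (nat_lit 78461) (.g (nat_lit 2295) (.e (nat_lit 1800) (nat_lit 119) (.e (nat_lit 516176) (nat_lit 14) (.e (nat_lit 466981) (nat_lit 23) (.e (nat_lit 204863) (nat_lit 27) (.e (nat_lit 344164) (nat_lit 37) (.e (nat_lit 647171) (nat_lit 0) (.e (nat_lit 46) (nat_lit 0) .nil))))))) (.g (nat_lit 4) .nil .nil)))))))) 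
(.nd (nat_lit 2) (.nd (nat_lit 3) (.nd (nat_lit 4) (.nd (nat_lit 5) (.nd (nat_lit 6) 
(.lf (nat_lit 78339) (.g (nat_lit 1890) (.e (nat_lit 1800) (nat_lit 119) (.e (nat_lit 516150) (nat_lit 9) (.e (nat_lit 426131) (nat_lit 3) (.e (nat_lit 204838) (nat_lit 20) .nil)))) .nil)) 
(.lf (nat_lit 78403) (.g (nat_lit 2057) (.e (nat_lit 1800) (nat_lit 119) (.e (nat_lit 516174) (nat_lit 14) (.e (nat_lit 466980) (nat_lit 23) (.e (nat_lit 204846) (nat_lit 24) (.e (nat_lit 319533) (nat_lit 16) (.e (nat_lit 294656) (nat_lit 0) .nil)))))) (.g (nat_lit 4) .nil .nil)))) (.nd (nat_lit 6) 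
(.lf (nat_lit 78371) (.g (nat_lit 3907) (.e (nat_lit 1800) (nat_lit 119) (.e (nat_lit 516166) (nat_lit 12) (.e (nat_lit 450587) (nat_lit 10) (.e (nat_lit 573477) (nat_lit 12) (.e (nat_lit 57575) (nat_lit 55) (.e (nat_lit 778465) (nat_lit 11) (.e (nat_lit 24595) (nat_lit 0) .nil))))))) (.g (nat_lit 4) .nil .nil))) 
(.lf (nat_lit 78435) (.g (nat_lit 1877) (.e (nat_lit 1800) (nat_lit 119) (.e (nat_lit 516176) (nat_lit 14) (.e (nat_lit 466975) (nat_lit 22) (.e (nat_lit 196626) (nat_lit 9) (.e (nat_lit 1400) (nat_lit 106) (.e (nat_lit 319534) (nat_lit 16) (.e (nat_lit 294656) (nat_lit 0) .nil))))))) (.g (nat_lit 4) .nil .nil))))) (.nd (nat_lit 5) (.nd (nat_lit 6) 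
(.lf (nat_lit 78355) (.g (nat_lit 2942) (.e (nat_lit 1800) (nat_lit 119) (.e (nat_lit 516150) (nat_lit 9) (.e (nat_lit 426436) (nat_lit 18) (.e (nat_lit 98358) (nat_lit 26) (.e (nat_lit 426428) (nat_lit 17) (.e (nat_lit 90170) (nat_lit 13) (.e (nat_lit 172138) (nat_lit 15) .nil))))))) (.g (nat_lit 5) .nil .nil))) 
(.lf (nat_lit 78419) (.g (nat_lit 2729) (.e (nat_lit 1800) (nat_lit 119) (.e (nat_lit 516176) (nat_lit 14) (.e (nat_lit 466954) (nat_lit 11) (.e (nat_lit 335995) (nat_lit 1) (.e (nat_lit 57658) (nat_lit 152) (.e (nat_lit 2622) (nat_lit 164) (.e (nat_lit 172133) (nat_lit 15) .nil))))))) (.g (nat_lit 4) .nil .nil)))) (.nd (nat_lit 6) 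
(.lf (nat_lit 78387) (.g (nat_lit 4577) (.e (nat_lit 1800) (nat_lit 119) (.e (nat_lit 516166) (nat_lit 12) (.e (nat_lit 450588) (nat_lit 10) (.e (nat_lit 573475) (nat_lit 12) (.e (nat_lit 57574) (nat_lit 55) (.e (nat_lit 778465) (nat_lit 11) (.e (nat_lit 24594) (nat_lit 0) .nil))))))) (.g (nat_lit 4) .nil .nil))) 
(.lf (nat_lit 78451) (.g (nat_lit 2329) (.e (nat_lit 1800) (nat_lit 119) (.e (nat_lit 516176) (nat_lit 14) (.e (nat_lit 466981) (nat_lit 23) (.e (nat_lit 204846) (nat_lit 24) (.e (nat_lit 319534) (nat_lit 16) (.e (nat_lit 294656) (nat_lit 0) .nil)))))) (.g (nat_lit 4) .nil .nil)))))) (.nd (nat_lit 4) (.nd (nat_lit 5) (.nd (nat_lit 6) 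
(.lf (nat_lit 78347) (.g (nat_lit 517) (.e (nat_lit 1800) (nat_lit 119) (.e (nat_lit 516150) (nat_lit 9) (.e (nat_lit 426323) (nat_lit 13) .nil))) .nil)) 
(.lf (nat_lit 78411) (.g (nat_lit 2119) (.e (nat_lit 1800) (nat_lit 119) (.e (nat_lit 516176) (nat_lit 14) (.e (nat_lit 466954) (nat_lit 11) (.e (nat_lit 335986) (nat_lit 1) (.e (nat_lit 57657) (nat_lit 152) .nil))))) .nil))) (.nd (nat_lit 6) 
(.lf (nat_lit 78379) (.g (nat_lit 4988) (.e (nat_lit 1800) (nat_lit 119) (.e (nat_lit 516166) (nat_lit 12) (.e (nat_lit 450588) (nat_lit 10) (.e (nat_lit 573457) (nat_lit 9) .nil)))) .nil)) 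
(.lf (nat_lit 78443) (.g (nat_lit 2871) (.e (nat_lit 1800) (nat_lit 119) (.e (nat_lit 516176) (nat_lit 14) (.e (nat_lit 466977) (nat_lit 22) (.e (nat_lit 196681) (nat_lit 17) (.e (nat_lit 131089) (nat_lit 1) (.e (nat_lit 57930) (nat_lit 282) (.e (nat_lit 164081) (nat_lit 61) .nil))))))) (.g (nat_lit 6) .nil .nil))))) (.nd (nat_lit 5) (.nd (nat_lit 6) 
(.lf (nat_lit 78363) (.g (nat_lit 5454) (.e (nat_lit 1800) (nat_lit 119) (.e (nat_lit 516166) (nat_lit 12) (.e (nat_lit 450563) (nat_lit 0) (.e (nat_lit 6420) (nat_lit 341) (.e (nat_lit 163843) (nat_lit 0) (.e (nat_lit 3605) (nat_lit 225) (.e (nat_lit 761905) (nat_lit 16) (.e (nat_lit 172138) (nat_lit 15) .nil)))))))) (.g (nat_lit 5) .nil .nil))) 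
(.lf (nat_lit 78427) (.g (nat_lit 2062) (.e (nat_lit 1800) (nat_lit 119) (.e (nat_lit 516176) (nat_lit 14) (.e (nat_lit 466972) (nat_lit 21) (.e (nat_lit 164182) (nat_lit 154) (.e (nat_lit 57386) (nat_lit 4) .nil))))) .nil))) (.nd (nat_lit 6) 
(.lf (nat_lit 78395) (.g (nat_lit 2787) (.e (nat_lit 1800) (nat_lit 119) (.e (nat_lit 516174) (nat_lit 14) (.e (nat_lit 466954) (nat_lit 11) (.e (nat_lit 335986) (nat_lit 1) (.e (nat_lit 57652) (nat_lit 152) (.e (nat_lit 2633) (nat_lit 164) (.e (nat_lit 172133) (nat_lit 15) .nil))))))) (.g (nat_lit 4) .nil .nil))) 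
(.lf (nat_lit 78459) (.g (nat_lit 3069) (.e (nat_lit 1800) (nat_lit 119) (.e (nat_lit 516176) (nat_lit 14) (.e (nat_lit 466981) (nat_lit 23) (.e (nat_lit 204861) (nat_lit 26) (.e (nat_lit 335988) (nat_lit 1) (.e (nat_lit 57927) (nat_lit 282) (.e (nat_lit 164082) (nat_lit 61) .nil))))))) (.g (nat_lit 5) .nil .nil))))))) (.nd (nat_lit 3) (.nd (nat_lit 4) (.nd (nat_lit 5) (.nd (nat_lit 6) 
(.lf (nat_lit 78343) (.g (nat_lit 3612) (.e (nat_lit 1800) (nat_lit 119) (.e (nat_lit 516150) (nat_lit 9) (.e (nat_lit 426131) (nat_lit 3) (.e (nat_lit 204838) (nat_lit 20) (.e (nat_lit 122624) (nat_lit 3) (.e (nat_lit 204813) (nat_lit 9) (.e (nat_lit 426413) (nat_lit 15) .nil))))))) (.g (nat_lit 4) .nil .nil))) 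
(.lf (nat_lit 78407) (.g (nat_lit 1794) (.e (nat_lit 1800) (nat_lit 119) (.e (nat_lit 516176) (nat_lit 14) (.e (nat_lit 466954) (nat_lit 11) (.e (nat_lit 335914) (nat_lit 0) .nil)))) .nil))) (.nd (nat_lit 6) 
(.lf (nat_lit 78375) (.g (nat_lit 5116) (.e (nat_lit 1800) (nat_lit 119) (.e (nat_lit 516166) (nat_lit 12) (.e (nat_lit 450587) (nat_lit 10) (.e (nat_lit 573478) (nat_lit 12) (.e (nat_lit 57574) (nat_lit 55) (.e (nat_lit 778465) (nat_lit 11) (.e (nat_lit 24595) (nat_lit 0) .nil))))))) (.g (nat_lit 6) .nil .nil))) 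
(.lf (nat_lit 78439) (.g (nat_lit 2386) (.e (nat_lit 1800) (nat_lit 119) (.e (nat_lit 516176) (nat_lit 14) (.e (nat_lit 466977) (nat_lit 22) (.e (nat_lit 196681) (nat_lit 17) (.e (nat_lit 131086) (nat_lit 1) (.e (nat_lit 57931) (nat_lit 282) (.e (nat_lit 164082) (nat_lit 61) .nil))))))) (.g (nat_lit 4) .nil .nil))))) (.nd (nat_lit 5) (.nd (nat_lit 6) 
(.lf (nat_lit 78359) (.g (nat_lit 1338) (.e (nat_lit 1800) (nat_lit 119) (.e (nat_lit 516151) (nat_lit 9) (.e (nat_lit 426338) (nat_lit 14) .nil))) .nil)) 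
(.lf (nat_lit 78423) (.g (nat_lit 493) (.e (nat_lit 1800) (nat_lit 119) (.e (nat_lit 516176) (nat_lit 14) (.e (nat_lit 474880) (nat_lit 12) .nil))) .nil))) (.nd (nat_lit 6) 
(.lf (nat_lit 78391) (.g (nat_lit 1584) (.e (nat_lit 1800) (nat_lit 119) (.e (nat_lit 516169) (nat_lit 13) (.e (nat_lit 458789) (nat_lit 23) (.e (nat_lit 532508) (nat_lit 2) (.e (nat_lit 114432) (nat_lit 0) .nil))))) .nil)) 
(.lf (nat_lit 78455) (.g (nat_lit 2654) (.e (nat_lit 1800) (nat_lit 119) (.e (nat_lit 516176) (nat_lit 14) (.e (nat_lit 466981) (nat_lit 23) (.e (nat_lit 204861) (nat_lit 26) (.e (nat_lit 335988) (nat_lit 1) (.e (nat_lit 57926) (nat_lit 282) (.e (nat_lit 164081) (nat_lit 61) .nil))))))) (.g (nat_lit 5) .nil .nil)))))) (.nd (nat_lit 4) (.nd (nat_lit 5) (.nd (nat_lit 6) 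
(.lf (nat_lit 78351) (.g (nat_lit 2064) (.e (nat_lit 1800) (nat_lit 119) (.e (nat_lit 516150) (nat_lit 9) (.e (nat_lit 426323) (nat_lit 13) (.e (nat_lit 483365) (nat_lit 18) (.e (nat_lit 57657) (nat_lit 152) .nil))))) .nil)) 
(.lf (nat_lit 78415) (.g (nat_lit 1343) (.e (nat_lit 1800) (nat_lit 119) (.e (nat_lit 516176) (nat_lit 14) (.e (nat_lit 466954) (nat_lit 11) (.e (nat_lit 335988) (nat_lit 1) .nil)))) .nil))) (.nd (nat_lit 6) 
(.lf (nat_lit 78383) (.g (nat_lit 4450) (.e (nat_lit 1800) (nat_lit 119) (.e (nat_lit 516166) (nat_lit 12) (.e (nat_lit 450588) (nat_lit 10) (.e (nat_lit 573471) (nat_lit 11) .nil)))) .nil)) 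
(.lf (nat_lit 78447) (.g (nat_lit 3053) (.e (nat_lit 1800) (nat_lit 119) (.e (nat_lit 516176) (nat_lit 14) (.e (nat_lit 466977) (nat_lit 22) (.e (nat_lit 196681) (nat_lit 17) (.e (nat_lit 131089) (nat_lit 1) (.e (nat_lit 57931) (nat_lit 282) (.e (nat_lit 164082) (nat_lit 61) .nil))))))) (.g (nat_lit 6) .nil .nil))))) (.nd (nat_lit 5) (.nd (nat_lit 6) 
(.lf (nat_lit 78367) (.g (nat_lit 2482) (.e (nat_lit 1800) (nat_lit 119) (.e (nat_lit 516166) (nat_lit 12) (.e (nat_lit 450587) (nat_lit 10) (.e (nat_lit 573477) (nat_lit 12) .nil)))) .nil)) 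
(.lf (nat_lit 78431) (.g (nat_lit 2521) (.e (nat_lit 1800) (nat_lit 119) (.e (nat_lit 516176) (nat_lit 14) (.e (nat_lit 466972) (nat_lit 21) (.e (nat_lit 164183) (nat_lit 154) (.e (nat_lit 57386) (nat_lit 4) (.e (nat_lit 106534) (nat_lit 11) (.e (nat_lit 16477) (nat_lit 15) .nil))))))) (.g (nat_lit 4) .nil .nil)))) (.nd (nat_lit 6) 
(.lf (nat_lit 78399) (.g (nat_lit 2646) (.e (nat_lit 1800) (nat_lit 119) (.e (nat_lit 516174) (nat_lit 14) (.e (nat_lit 466954) (nat_lit 11) (.e (nat_lit 335986) (nat_lit 1) (.e (nat_lit 57660) (nat_lit 152) (.e (nat_lit 2631) (nat_lit 164) (.e (nat_lit 172133) (nat_lit 15) .nil))))))) (.g (nat_lit 4) .nil .nil))) 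
(.lf (nat_lit 78463) (.g (nat_lit 3480) (.e (nat_lit 1800) (nat_lit 119) (.e (nat_lit 516179) (nat_lit 15) (.e (nat_lit 475177) (nat_lit 24) (.e (nat_lit 516146) (nat_lit 9) (.e (nat_lit 426428) (nat_lit 17) (.e (nat_lit 90170) (nat_lit 13) (.e (nat_lit 172138) (nat_lit 15) .nil))))))) (.g (nat_lit 6) .nil .nil))))))))))

noncomputable def tv1062 : DT := (.nd (nat_lit 0) (.nd (nat_lit 1) (.nd (nat_lit 2) (.nd (nat_lit 3) (.nd (nat_lit 4) (.nd (nat_lit 5) (.nd (nat_lit 6) 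
(.lf (nat_lit 78464) (.g (nat_lit 2674) (.e (nat_lit 1800) (nat_lit 119) (.e (nat_lit 516179) (nat_lit 15) (.e (nat_lit 475177) (nat_lit 24) (.e (nat_lit 516146) (nat_lit 9) (.e (nat_lit 426438) (nat_lit 18) (.e (nat_lit 98358) (nat_lit 26) (.e (nat_lit 426382) (nat_lit 15) .nil))))))) (.g (nat_lit 4) .nil .nil))) 
(.lf (nat_lit 78528) (.g (nat_lit 1340) (.e (nat_lit 1801) (nat_lit 119) (.e (nat_lit 516176) (nat_lit 14) (.e (nat_lit 466981) (nat_lit 23) (.e (nat_lit 204846) (nat_lit 24) .nil)))) .nil))) (.nd (nat_lit 6) 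
(.lf (nat_lit 78496) (.g (nat_lit 2432) (.e (nat_lit 1801) (nat_lit 119) (.e (nat_lit 516120) (nat_lit 1) (.e (nat_lit 164329) (nat_lit 230) (.e (nat_lit 163902) (nat_lit 12) (.e (nat_lit 426568) (nat_lit 34) (.e (nat_lit 393271) (nat_lit 23) (.e (nat_lit 426363) (nat_lit 15) .nil))))))) (.g (nat_lit 4) .nil .nil))) 
(.lf (nat_lit 78560) (.g (nat_lit 1723) (.e (nat_lit 1802) (nat_lit 119) (.e (nat_lit 516129) (nat_lit 3) (.e (nat_lit 221194) (nat_lit 11) (.e (nat_lit 336010) (nat_lit 2) (.e (nat_lit 90176) (nat_lit 15) (.e (nat_lit 196352) (nat_lit 0) .nil)))))) (.g (nat_lit 5) .nil .nil))))) (.nd (nat_lit 5) (.nd (nat_lit 6) 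
(.lf (nat_lit 78480) (.g (nat_lit 2589) (.e (nat_lit 1801) (nat_lit 119) (.e (nat_lit 516117) (nat_lit 1) (.e (nat_lit 164329) (nat_lit 230) (.e (nat_lit 163902) (nat_lit 12) (.e (nat_lit 426568) (nat_lit 34) .nil))))) .nil)) 
(.lf (nat_lit 78544) (.g (nat_lit 1771) (.e (nat_lit 1802) (nat_lit 119) (.e (nat_lit 516118) (nat_lit 1) (.e (nat_lit 164179) (nat_lit 154) (.e (nat_lit 57447) (nat_lit 19) (.e (nat_lit 401152) (nat_lit 11) .nil))))) .nil))) (.nd (nat_lit 6) 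
(.lf (nat_lit 78512) (.g (nat_lit 2887) (.e (nat_lit 1801) (nat_lit 119) (.e (nat_lit 516151) (nat_lit 9) (.e (nat_lit 426285) (nat_lit 10) (.e (nat_lit 434233) (nat_lit 23) (.e (nat_lit 532523) (nat_lit 7) .nil))))) .nil)) 
(.lf (nat_lit 78576) (.g (nat_lit 1888) (.e (nat_lit 1802) (nat_lit 119) (.e (nat_lit 516131) (nat_lit 3) (.e (nat_lit 221212) (nat_lit 22) (.e (nat_lit 196681) (nat_lit 17) (.e (nat_lit 131096) (nat_lit 3) (.e (nat_lit 98333) (nat_lit 18) (.e (nat_lit 164179) (nat_lit 154) (.e (nat_lit 57355) (nat_lit 0) .nil)))))))) (.g (nat_lit 4) .nil .nil)))))) 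
(.nd (nat_lit 4) (.nd (nat_lit 5) (.nd (nat_lit 6) 
(.lf (nat_lit 78472) (.g (nat_lit 2029) (.e (nat_lit 1800) (nat_lit 119) (.e (nat_lit 516182) (nat_lit 15) (.e (nat_lit 475199) (nat_lit 40) (.e (nat_lit 704590) (nat_lit 3) (.e (nat_lit 163975) (nat_lit 30) (.e (nat_lit 573491) (nat_lit 15) (.e (nat_lit 89856) (nat_lit 20) .nil))))))) (.g (nat_lit 4) .nil .nil))) 
(.lf (nat_lit 78536) (.g (nat_lit 2517) (.e (nat_lit 1802) (nat_lit 119) (.e (nat_lit 516117) (nat_lit 1) (.e (nat_lit 164329) (nat_lit 230) (.e (nat_lit 163902) (nat_lit 12) (.e (nat_lit 426568) (nat_lit 34) .nil))))) .nil))) (.nd (nat_lit 6) 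
(.lf (nat_lit 78504) (.g (nat_lit 2437) (.e (nat_lit 1801) (nat_lit 119) (.e (nat_lit 516139) (nat_lit 7) (.e (nat_lit 409646) (nat_lit 18) (.e (nat_lit 303119) (nat_lit 3) (.e (nat_lit 204878) (nat_lit 31) .nil))))) .nil)) 
(.lf (nat_lit 78568) (.g (nat_lit 1576) (.e (nat_lit 1802) (nat_lit 119) (.e (nat_lit 516131) (nat_lit 3) (.e (nat_lit 221212) (nat_lit 22) (.e (nat_lit 196668) (nat_lit 14) (.e (nat_lit 73750) (nat_lit 6) (.e (nat_lit 540674) (nat_lit 0) (.e (nat_lit 2270) (nat_lit 149) (.e (nat_lit 761867) (nat_lit 5) (.e (nat_lit 1037) (nat_lit 81) .nil))))))))) (.g (nat_lit 4) .nil .nil))))) 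
(.nd (nat_lit 5) (.nd (nat_lit 6) 
(.lf (nat_lit 78488) (.g (nat_lit 2287) (.e (nat_lit 1801) (nat_lit 119) (.e (nat_lit 516119) (nat_lit 1) (.e (nat_lit 164327) (nat_lit 230) (.e (nat_lit 163903) (nat_lit 12) (.e (nat_lit 426566) (nat_lit 34) (.e (nat_lit 393273) (nat_lit 23) (.e (nat_lit 426364) (nat_lit 15) .nil))))))) (.g (nat_lit 4) .nil .nil))) 
(.lf (nat_lit 78552) (.g (nat_lit 2785) (.e (nat_lit 1802) (nat_lit 119) (.e (nat_lit 516120) (nat_lit 1) (.e (nat_lit 164329) (nat_lit 230) (.e (nat_lit 163902) (nat_lit 12) (.e (nat_lit 426568) (nat_lit 34) (.e (nat_lit 393267) (nat_lit 23) (.e (nat_lit 426363) (nat_lit 15) .nil))))))) (.g (nat_lit 4) .nil .nil)))) (.nd (nat_lit 6) 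
(.lf (nat_lit 78520) (.g (nat_lit 4711) (.e (nat_lit 1801) (nat_lit 119) (.e (nat_lit 516166) (nat_lit 12) (.e (nat_lit 450588) (nat_lit 10) (.e (nat_lit 573469) (nat_lit 11) .nil)))) .nil)) 
(.lf (nat_lit 78584) (.g (nat_lit 1072) (.e (nat_lit 1802) (nat_lit 119) (.e (nat_lit 516147) (nat_lit 9) (.e (nat_lit 426446) (nat_lit 20) (.e (nat_lit 114719) (nat_lit 23) (.e (nat_lit 106240) (nat_lit 11) (.e (nat_lit 352296) (nat_lit 20) .nil)))))) (.g (nat_lit 4) .nil .nil))))))) (.nd (nat_lit 3) (.nd (nat_lit 4) (.nd (nat_lit 5) (.nd (nat_lit 6) 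
(.lf (nat_lit 78468) (.g (nat_lit 2618) (.e (nat_lit 1800) (nat_lit 119) (.e (nat_lit 516179) (nat_lit 15) (.e (nat_lit 475177) (nat_lit 24) (.e (nat_lit 516150) (nat_lit 9) (.e (nat_lit 426438) (nat_lit 18) (.e (nat_lit 98358) (nat_lit 26) (.e (nat_lit 426382) (nat_lit 15) .nil))))))) (.g (nat_lit 4) .nil .nil))) 
(.lf (nat_lit 78532) (.g (nat_lit 2007) (.e (nat_lit 1802) (nat_lit 119) (.e (nat_lit 516115) (nat_lit 1) (.e (nat_lit 164179) (nat_lit 154) (.e (nat_lit 57446) (nat_lit 19) .nil)))) .nil))) (.nd (nat_lit 6) 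
(.lf (nat_lit 78500) (.g (nat_lit 2690) (.e (nat_lit 1801) (nat_lit 119) (.e (nat_lit 516120) (nat_lit 1) (.e (nat_lit 164330) (nat_lit 230) (.e (nat_lit 163913) (nat_lit 12) (.e (nat_lit 433920) (nat_lit 34) .nil))))) .nil)) 
(.lf (nat_lit 78564) (.g (nat_lit 1514) (.e (nat_lit 1802) (nat_lit 119) (.e (nat_lit 516131) (nat_lit 3) (.e (nat_lit 221193) (nat_lit 11) (.e (nat_lit 336012) (nat_lit 2) (.e (nat_lit 90178) (nat_lit 15) (.e (nat_lit 196352) (nat_lit 0) .nil)))))) (.g (nat_lit 4) .nil .nil))))) (.nd (nat_lit 5) (.nd (nat_lit 6) 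
(.lf (nat_lit 78484) (.g (nat_lit 1760) (.e (nat_lit 1801) (nat_lit 119) (.e (nat_lit 516117) (nat_lit 1) (.e (nat_lit 164332) (nat_lit 230) (.e (nat_lit 163905) (nat_lit 12) (.e (nat_lit 426566) (nat_lit 34) .nil))))) .nil)) 
(.lf (nat_lit 78548) (.g (nat_lit 2200) (.e (nat_lit 1802) (nat_lit 119) (.e (nat_lit 516119) (nat_lit 1) (.e (nat_lit 164325) (nat_lit 230) (.e (nat_lit 163903) (nat_lit 12) (.e (nat_lit 426566) (nat_lit 34) (.e (nat_lit 393273) (nat_lit 23) (.e (nat_lit 426364) (nat_lit 15) .nil))))))) (.g (nat_lit 4) .nil .nil)))) (.nd (nat_lit 6) 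
(.lf (nat_lit 78516) (.g (nat_lit 4411) (.e (nat_lit 1801) (nat_lit 119) (.e (nat_lit 516166) (nat_lit 12) (.e (nat_lit 450587) (nat_lit 10) (.e (nat_lit 573469) (nat_lit 11) .nil)))) .nil)) 
(.lf (nat_lit 78580) (.g (nat_lit 564) (.e (nat_lit 1802) (nat_lit 119) (.e (nat_lit 516131) (nat_lit 3) (.e (nat_lit 221218) (nat_lit 24) (.e (nat_lit 213029) (nat_lit 10) .nil)))) .nil))))) (.nd (nat_lit 4) (.nd (nat_lit 5) (.nd (nat_lit 6) 
(.lf (nat_lit 78476) (.g (nat_lit 1730) (.e (nat_lit 1800) (nat_lit 119) (.e (nat_lit 524032) (nat_lit 29) (.e (nat_lit 360466) (nat_lit 3) (.e (nat_lit 516146) (nat_lit 9) (.e (nat_lit 426448) (nat_lit 20) (.e (nat_lit 122624) (nat_lit 20) .nil)))))) (.g (nat_lit 5) .nil .nil))) 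
(.lf (nat_lit 78540) (.g (nat_lit 1315) (.e (nat_lit 1802) (nat_lit 119) (.e (nat_lit 516117) (nat_lit 1) (.e (nat_lit 164330) (nat_lit 230) (.e (nat_lit 163915) (nat_lit 12) .nil)))) .nil))) (.nd (nat_lit 6) 
(.lf (nat_lit 78508) (.g (nat_lit 3105) (.e (nat_lit 1801) (nat_lit 119) (.e (nat_lit 516151) (nat_lit 9) (.e (nat_lit 426211) (nat_lit 9) (.e (nat_lit 426040) (nat_lit 0) .nil)))) .nil)) 
(.lf (nat_lit 78572) (.g (nat_lit 2689) (.e (nat_lit 1802) (nat_lit 119) (.e (nat_lit 516131) (nat_lit 3) (.e (nat_lit 221212) (nat_lit 22) (.e (nat_lit 196670) (nat_lit 14) (.e (nat_lit 73746) (nat_lit 3) (.e (nat_lit 516117) (nat_lit 1) (.e (nat_lit 164181) (nat_lit 154) (.e (nat_lit 57357) (nat_lit 0) .nil)))))))) (.g (nat_lit 6) .nil .nil))))) (.nd (nat_lit 5) (.nd (nat_lit 6) 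
(.lf (nat_lit 78492) (.g (nat_lit 2064) (.e (nat_lit 1801) (nat_lit 119) (.e (nat_lit 516120) (nat_lit 1) (.e (nat_lit 164183) (nat_lit 154) (.e (nat_lit 57447) (nat_lit 19) (.e (nat_lit 401152) (nat_lit 11) .nil))))) .nil)) 
(.lf (nat_lit 78556) (.g (nat_lit 1567) (.e (nat_lit 1802) (nat_lit 119) (.e (nat_lit 516129) (nat_lit 3) (.e (nat_lit 221193) (nat_lit 11) (.e (nat_lit 336010) (nat_lit 2) (.e (nat_lit 90178) (nat_lit 15) (.e (nat_lit 196352) (nat_lit 0) .nil)))))) (.g (nat_lit 5) .nil .nil)))) (.nd (nat_lit 6) 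
(.lf (nat_lit 78524) (.g (nat_lit 5041) (.e (nat_lit 1801) (nat_lit 119) (.e (nat_lit 516166) (nat_lit 12) (.e (nat_lit 450588) (nat_lit 10) (.e (nat_lit 573475) (nat_lit 12) (.e (nat_lit 57574) (nat_lit 55) .nil))))) .nil)) 
(.lf (nat_lit 78588) (.g (nat_lit 3105) (.e (nat_lit 1802) (nat_lit 119) (.e (nat_lit 516151) (nat_lit 9) (.e (nat_lit 426211) (nat_lit 9) (.e (nat_lit 426033) (nat_lit 0) .nil)))) .nil))))))) (.nd (nat_lit 2) (.nd (nat_lit 3) (.nd (nat_lit 4) (.nd (nat_lit 5) (.nd (nat_lit 6) 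
(.lf (nat_lit 78466) (.g (nat_lit 1806) (.e (nat_lit 1800) (nat_lit 119) (.e (nat_lit 516179) (nat_lit 15) (.e (nat_lit 475177) (nat_lit 24) (.e (nat_lit 516150) (nat_lit 9) (.e (nat_lit 426428) (nat_lit 17) (.e (nat_lit 90170) (nat_lit 13) (.e (nat_lit 179968) (nat_lit 15) .nil))))))) (.g (nat_lit 4) .nil .nil))) 
(.lf (nat_lit 78530) (.g (nat_lit 2438) (.e (nat_lit 1801) (nat_lit 119) (.e (nat_lit 516179) (nat_lit 15) (.e (nat_lit 475177) (nat_lit 24) (.e (nat_lit 516179) (nat_lit 15) (.e (nat_lit 475177) (nat_lit 24) .nil))))) .nil))) (.nd (nat_lit 6) 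
(.lf (nat_lit 78498) (.g (nat_lit 4015) (.e (nat_lit 1801) (nat_lit 119) (.e (nat_lit 516120) (nat_lit 1) (.e (nat_lit 164330) (nat_lit 230) (.e (nat_lit 163902) (nat_lit 12) (.e (nat_lit 426566) (nat_lit 34) (.e (nat_lit 393273) (nat_lit 23) (.e (nat_lit 426364) (nat_lit 15) .nil))))))) (.g (nat_lit 0) .nil .nil))) 
(.lf (nat_lit 78562) (.g (nat_lit 1455) (.e (nat_lit 1802) (nat_lit 119) (.e (nat_lit 516129) (nat_lit 3) (.e (nat_lit 221210) (nat_lit 22) (.e (nat_lit 196668) (nat_lit 14) (.e (nat_lit 73750) (nat_lit 6) (.e (nat_lit 540675) (nat_lit 0) (.e (nat_lit 2270) (nat_lit 149) (.e (nat_lit 761867) (nat_lit 5) (.e (nat_lit 1037) (nat_lit 81) .nil))))))))) (.g (nat_lit 4) .nil .nil))))) 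
(.nd (nat_lit 5) (.nd (nat_lit 6) 
(.lf (nat_lit 78482) (.g (nat_lit 2017) (.e (nat_lit 1801) (nat_lit 119) (.e (nat_lit 516117) (nat_lit 1) (.e (nat_lit 164330) (nat_lit 230) (.e (nat_lit 163902) (nat_lit 12) .nil)))) .nil)) 
(.lf (nat_lit 78546) (.g (nat_lit 2256) (.e (nat_lit 1802) (nat_lit 119) (.e (nat_lit 516119) (nat_lit 1) (.e (nat_lit 164179) (nat_lit 154) (.e (nat_lit 57445) (nat_lit 19) (.e (nat_lit 401152) (nat_lit 11) (.e (nat_lit 352296) (nat_lit 20) .nil)))))) (.g (nat_lit 4) .nil .nil)))) (.nd (nat_lit 6) 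
(.lf (nat_lit 78514) (.g (nat_lit 1156) (.e (nat_lit 1801) (nat_lit 119) (.e (nat_lit 516166) (nat_lit 12) (.e (nat_lit 450587) (nat_lit 10) .nil))) .nil)) 
(.lf (nat_lit 78578) (.g (nat_lit 1659) (.e (nat_lit 1802) (nat_lit 119) (.e (nat_lit 516131) (nat_lit 3) (.e (nat_lit 221212) (nat_lit 22) (.e (nat_lit 196681) (nat_lit 17) (.e (nat_lit 131098) (nat_lit 3) .nil))))) .nil))))) (.nd (nat_lit 4) (.nd (nat_lit 5) (.nd (nat_lit 6) 
(.lf (nat_lit 78474) (.g (nat_lit 2084) (.e (nat_lit 1800) (nat_lit 119) (.e (nat_lit 516185) (nat_lit 16) (.e (nat_lit 491560) (nat_lit 10) (.e (nat_lit 344117) (nat_lit 21) .nil)))) .nil)) 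
(.lf (nat_lit 78538) (.g (nat_lit 3077) (.e (nat_lit 1802) (nat_lit 119) (.e (nat_lit 516117) (nat_lit 1) (.e (nat_lit 164330) (nat_lit 230) (.e (nat_lit 163913) (nat_lit 12) (.e (nat_lit 426565) (nat_lit 34) (.e (nat_lit 393273) (nat_lit 23) (.e (nat_lit 426364) (nat_lit 15) .nil))))))) (.g (nat_lit 6) .nil .nil)))) (.nd (nat_lit 6) 
(.lf (nat_lit 78506) (.g (nat_lit 3105) (.e (nat_lit 1801) (nat_lit 119) (.e (nat_lit 516151) (nat_lit 9) (.e (nat_lit 426211) (nat_lit 9) (.e (nat_lit 426003) (nat_lit 0) .nil)))) .nil)) 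
(.lf (nat_lit 78570) (.g (nat_lit 3201) (.e (nat_lit 1802) (nat_lit 119) (.e (nat_lit 516131) (nat_lit 3) (.e (nat_lit 221212) (nat_lit 22) (.e (nat_lit 196670) (nat_lit 14) (.e (nat_lit 73746) (nat_lit 3) (.e (nat_lit 516117) (nat_lit 1) (.e (nat_lit 164180) (nat_lit 154) (.e (nat_lit 57357) (nat_lit 0) .nil)))))))) (.g (nat_lit 7) .nil .nil))))) (.nd (nat_lit 5) (.nd (nat_lit 6) 
(.lf (nat_lit 78490) (.g (nat_lit 3245) (.e (nat_lit 1801) (nat_lit 119) (.e (nat_lit 516119) (nat_lit 1) (.e (nat_lit 164403) (nat_lit 256) (.e (nat_lit 57371) (nat_lit 2) (.e (nat_lit 90174) (nat_lit 14) (.e (nat_lit 180243) (nat_lit 5) (.e (nat_lit 532513) (nat_lit 3) (.e (nat_lit 114704) (nat_lit 20) .nil)))))))) (.g (nat_lit 5) .nil .nil))) 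
(.lf (nat_lit 78554) (.g (nat_lit 2362) (.e (nat_lit 1802) (nat_lit 119) (.e (nat_lit 516120) (nat_lit 1) (.e (nat_lit 164332) (nat_lit 230) (.e (nat_lit 163902) (nat_lit 12) (.e (nat_lit 426566) (nat_lit 34) .nil))))) .nil))) (.nd (nat_lit 6) 
(.lf (nat_lit 78522) (.g (nat_lit 5279) (.e (nat_lit 1801) (nat_lit 119) (.e (nat_lit 516166) (nat_lit 12) (.e (nat_lit 450588) (nat_lit 10) (.e (nat_lit 573471) (nat_lit 11) .nil)))) .nil)) 
(.lf (nat_lit 78586) (.g (nat_lit 1612) (.e (nat_lit 1802) (nat_lit 119) (.e (nat_lit 516147) (nat_lit 9) (.e (nat_lit 426448) (nat_lit 20) (.e (nat_lit 114719) (nat_lit 23) (.e (nat_lit 106240) (nat_lit 11) (.e (nat_lit 352296) (nat_lit 20) .nil)))))) (.g (nat_lit 4) .nil .nil))))))) (.nd (nat_lit 3) (.nd (nat_lit 4) (.nd (nat_lit 5) (.nd (nat_lit 6) 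
(.lf (nat_lit 78470) (.g (nat_lit 1872) (.e (nat_lit 1800) (nat_lit 119) (.e (nat_lit 516182) (nat_lit 15) (.e (nat_lit 475177) (nat_lit 24) (.e (nat_lit 516150) (nat_lit 9) (.e (nat_lit 426428) (nat_lit 17) (.e (nat_lit 90169) (nat_lit 13) (.e (nat_lit 172133) (nat_lit 15) .nil))))))) (.g (nat_lit 5) .nil .nil))) 
(.lf (nat_lit 78534) (.g (nat_lit 1870) (.e (nat_lit 1802) (nat_lit 119) (.e (nat_lit 516117) (nat_lit 1) (.e (nat_lit 164305) (nat_lit 226) (.e (nat_lit 2630) (nat_lit 164) (.e (nat_lit 179968) (nat_lit 34) .nil))))) .nil))) (.nd (nat_lit 6) 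
(.lf (nat_lit 78502) (.g (nat_lit 908) (.e (nat_lit 1801) (nat_lit 119) (.e (nat_lit 516127) (nat_lit 2) (.e (nat_lit 213032) (nat_lit 11) (.e (nat_lit 24605) (nat_lit 2) (.e (nat_lit 90176) (nat_lit 15) .nil))))) .nil)) 
(.lf (nat_lit 78566) (.g (nat_lit 3516) (.e (nat_lit 1802) (nat_lit 119) (.e (nat_lit 516131) (nat_lit 3) (.e (nat_lit 221212) (nat_lit 22) (.e (nat_lit 196668) (nat_lit 14) (.e (nat_lit 73747) (nat_lit 3) (.e (nat_lit 516119) (nat_lit 1) (.e (nat_lit 164176) (nat_lit 154) (.e (nat_lit 57355) (nat_lit 0) .nil)))))))) (.g (nat_lit 8) .nil .nil))))) (.nd (nat_lit 5) (.nd (nat_lit 6) 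
(.lf (nat_lit 78486) (.g (nat_lit 1701) (.e (nat_lit 1801) (nat_lit 119) (.e (nat_lit 516119) (nat_lit 1) (.e (nat_lit 164179) (nat_lit 154) (.e (nat_lit 57446) (nat_lit 19) (.e (nat_lit 401152) (nat_lit 11) .nil))))) .nil)) 
(.lf (nat_lit 78550) (.g (nat_lit 2037) (.e (nat_lit 1802) (nat_lit 119) (.e (nat_lit 516120) (nat_lit 1) (.e (nat_lit 164183) (nat_lit 154) (.e (nat_lit 57448) (nat_lit 19) (.e (nat_lit 401152) (nat_lit 11) (.e (nat_lit 352296) (nat_lit 20) .nil)))))) (.g (nat_lit 4) .nil .nil)))) (.nd (nat_lit 6) 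
(.lf (nat_lit 78518) (.g (nat_lit 4667) (.e (nat_lit 1801) (nat_lit 119) (.e (nat_lit 516166) (nat_lit 12) (.e (nat_lit 450587) (nat_lit 10) (.e (nat_lit 573478) (nat_lit 12) (.e (nat_lit 57574) (nat_lit 55) .nil))))) .nil)) 
(.lf (nat_lit 78582) (.g (nat_lit 886) (.e (nat_lit 1802) (nat_lit 119) (.e (nat_lit 516146) (nat_lit 9) (.e (nat_lit 426438) (nat_lit 18) .nil))) .nil))))) (.nd (nat_lit 4) (.nd (nat_lit 5) (.nd (nat_lit 6) 
(.lf (nat_lit 78478) (.g (nat_lit 2801) (.e (nat_lit 1801) (nat_lit 119) (.e (nat_lit 516115) (nat_lit 1) (.e (nat_lit 164325) (nat_lit 230) (.e (nat_lit 163906) (nat_lit 12) (.e (nat_lit 426566) (nat_lit 34) (.e (nat_lit 393273) (nat_lit 23) (.e (nat_lit 426364) (nat_lit 15) .nil))))))) (.g (nat_lit 4) .nil .nil))) 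
(.lf (nat_lit 78542) (.g (nat_lit 1981) (.e (nat_lit 1802) (nat_lit 119) (.e (nat_lit 516118) (nat_lit 1) (.e (nat_lit 164179) (nat_lit 154) (.e (nat_lit 57445) (nat_lit 19) (.e (nat_lit 401152) (nat_lit 11) (.e (nat_lit 352296) (nat_lit 20) .nil)))))) (.g (nat_lit 4) .nil .nil)))) (.nd (nat_lit 6) 
(.lf (nat_lit 78510) (.g (nat_lit 3052) (.e (nat_lit 1801) (nat_lit 119) (.e (nat_lit 516151) (nat_lit 9) (.e (nat_lit 426211) (nat_lit 9) (.e (nat_lit 426140) (nat_lit 3) .nil)))) .nil)) 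
(.lf (nat_lit 78574) (.g (nat_lit 1465) (.e (nat_lit 1802) (nat_lit 119) (.e (nat_lit 516131) (nat_lit 3) (.e (nat_lit 221212) (nat_lit 22) (.e (nat_lit 196670) (nat_lit 14) (.e (nat_lit 73750) (nat_lit 6) .nil))))) .nil)))) (.nd (nat_lit 5) (.nd (nat_lit 6) 
(.lf (nat_lit 78494) (.g (nat_lit 976) (.e (nat_lit 1801) (nat_lit 119) (.e (nat_lit 516120) (nat_lit 1) (.e (nat_lit 164329) (nat_lit 230) .nil))) .nil)) 
(.lf (nat_lit 78558) (.g (nat_lit 1722) (.e (nat_lit 1802) (nat_lit 119) (.e (nat_lit 516129) (nat_lit 3) (.e (nat_lit 221193) (nat_lit 11) (.e (nat_lit 336012) (nat_lit 2) (.e (nat_lit 90178) (nat_lit 15) (.e (nat_lit 196352) (nat_lit 0) .nil)))))) (.g (nat_lit 4) .nil .nil)))) (.nd (nat_lit 6) 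
(.lf (nat_lit 78526) (.g (nat_lit 2765) (.e (nat_lit 1801) (nat_lit 119) (.e (nat_lit 516176) (nat_lit 14) (.e (nat_lit 466980) (nat_lit 23) (.e (nat_lit 204846) (nat_lit 24) (.e (nat_lit 319533) (nat_lit 16) (.e (nat_lit 286724) (nat_lit 0) .nil)))))) (.g (nat_lit 6) .nil .nil))) 
(.lf (nat_lit 78590) (.g (nat_lit 3105) (.e (nat_lit 1802) (nat_lit 119) (.e (nat_lit 516151) (nat_lit 9) (.e (nat_lit 426211) (nat_lit 9) (.e (nat_lit 426038) (nat_lit 0) .nil)))) .nil)))))))) (.nd (nat_lit 1) (.nd (nat_lit 2) (.nd (nat_lit 3) (.nd (nat_lit 4) (.nd (nat_lit 5) (.nd (nat_lit 6) 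
(.lf (nat_lit 78465) (.g (nat_lit 3951) (.e (nat_lit 1800) (nat_lit 119) (.e (nat_lit 516179) (nat_lit 15) (.e (nat_lit 475177) (nat_lit 24) (.e (nat_lit 516150) (nat_lit 9) (.e (nat_lit 426428) (nat_lit 17) (.e (nat_lit 90170) (nat_lit 13) (.e (nat_lit 172138) (nat_lit 15) .nil))))))) (.g (nat_lit 7) .nil .nil))) 
(.lf (nat_lit 78529) (.g (nat_lit 3423) (.e (nat_lit 1801) (nat_lit 119) (.e (nat_lit 516176) (nat_lit 14) (.e (nat_lit 466981) (nat_lit 23) (.e (nat_lit 204846) (nat_lit 24) (.e (nat_lit 319533) (nat_lit 16) (.e (nat_lit 286724) (nat_lit 0) .nil)))))) (.g (nat_lit 5) .nil .nil)))) (.nd (nat_lit 6) 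
(.lf (nat_lit 78497) (.g (nat_lit 2130) (.e (nat_lit 1801) (nat_lit 119) (.e (nat_lit 516120) (nat_lit 1) (.e (nat_lit 164329) (nat_lit 230) (.e (nat_lit 163942) (nat_lit 19) (.e (nat_lit 483341) (nat_lit 9) (.e (nat_lit 426200) (nat_lit 9) (.e (nat_lit 426360) (nat_lit 15) .nil))))))) (.g (nat_lit 4) .nil .nil))) 
(.lf (nat_lit 78561) (.g (nat_lit 1880) (.e (nat_lit 1802) (nat_lit 119) (.e (nat_lit 516129) (nat_lit 3) (.e (nat_lit 221194) (nat_lit 11) (.e (nat_lit 336010) (nat_lit 2) (.e (nat_lit 90178) (nat_lit 15) (.e (nat_lit 196352) (nat_lit 0) .nil)))))) (.g (nat_lit 5) .nil .nil))))) (.nd (nat_lit 5) (.nd (nat_lit 6) 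
(.lf (nat_lit 78481) (.g (nat_lit 2275) (.e (nat_lit 1801) (nat_lit 119) (.e (nat_lit 516117) (nat_lit 1) (.e (nat_lit 164329) (nat_lit 230) (.e (nat_lit 163942) (nat_lit 19) .nil)))) .nil)) 
(.lf (nat_lit 78545) (.g (nat_lit 517) (.e (nat_lit 1802) (nat_lit 119) (.e (nat_lit 516119) (nat_lit 1) (.e (nat_lit 164178) (nat_lit 154) .nil))) .nil))) (.nd (nat_lit 6) 
(.lf (nat_lit 78513) (.g (nat_lit 3986) (.e (nat_lit 1801) (nat_lit 119) (.e (nat_lit 516166) (nat_lit 12) (.e (nat_lit 450580) (nat_lit 5) (.e (nat_lit 532523) (nat_lit 7) .nil)))) .nil)) 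
(.lf (nat_lit 78577) (.g (nat_lit 1707) (.e (nat_lit 1802) (nat_lit 119) (.e (nat_lit 516131) (nat_lit 3) (.e (nat_lit 221212) (nat_lit 22) (.e (nat_lit 196681) (nat_lit 17) (.e (nat_lit 131096) (nat_lit 3) (.e (nat_lit 98334) (nat_lit 18) (.e (nat_lit 164183) (nat_lit 154) (.e (nat_lit 57356) (nat_lit 0) .nil)))))))) (.g (nat_lit 4) .nil .nil)))))) 
(.nd (nat_lit 4) (.nd (nat_lit 5) (.nd (nat_lit 6) 
(.lf (nat_lit 78473) (.g (nat_lit 1803) (.e (nat_lit 1800) (nat_lit 119) (.e (nat_lit 516185) (nat_lit 16) (.e (nat_lit 491546) (nat_lit 9) (.e (nat_lit 336028) (nat_lit 3) .nil)))) .nil)) 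
(.lf (nat_lit 78537) (.g (nat_lit 2017) (.e (nat_lit 1802) (nat_lit 119) (.e (nat_lit 516117) (nat_lit 1) (.e (nat_lit 164330) (nat_lit 230) (.e (nat_lit 163902) (nat_lit 12) .nil)))) .nil))) (.nd (nat_lit 6) 
(.lf (nat_lit 78505) (.g (nat_lit 1360) (.e (nat_lit 1801) (nat_lit 119) (.e (nat_lit 516151) (nat_lit 9) (.e (nat_lit 426211) (nat_lit 9) .nil))) .nil)) 
(.lf (nat_lit 78569) (.g (nat_lit 2927) (.e (nat_lit 1802) (nat_lit 119) (.e (nat_lit 516131) (nat_lit 3) (.e (nat_lit 221212) (nat_lit 22) (.e (nat_lit 196670) (nat_lit 14) (.e (nat_lit 73746) (nat_lit 3) (.e (nat_lit 516115) (nat_lit 1) (.e (nat_lit 164178) (nat_lit 154) (.e (nat_lit 57355) (nat_lit 0) .nil)))))))) (.g (nat_lit 6) .nil .nil))))) (.nd (nat_lit 5) (.nd (nat_lit 6) 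
(.lf (nat_lit 78489) (.g (nat_lit 1910) (.e (nat_lit 1801) (nat_lit 119) (.e (nat_lit 516119) (nat_lit 1) (.e (nat_lit 164327) (nat_lit 230) (.e (nat_lit 163907) (nat_lit 12) (.e (nat_lit 426566) (nat_lit 34) .nil))))) .nil)) 
(.lf (nat_lit 78553) (.g (nat_lit 1744) (.e (nat_lit 1802) (nat_lit 119) (.e (nat_lit 516120) (nat_lit 1) (.e (nat_lit 164330) (nat_lit 230) (.e (nat_lit 163905) (nat_lit 12) .nil)))) .nil))) (.nd (nat_lit 6) 
(.lf (nat_lit 78521) (.g (nat_lit 4990) (.e (nat_lit 1801) (nat_lit 119) (.e (nat_lit 516166) (nat_lit 12) (.e (nat_lit 450588) (nat_lit 10) (.e (nat_lit 573470) (nat_lit 11) .nil)))) .nil)) 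
(.lf (nat_lit 78585) (.g (nat_lit 1640) (.e (nat_lit 1802) (nat_lit 119) (.e (nat_lit 516147) (nat_lit 9) (.e (nat_lit 426448) (nat_lit 20) (.e (nat_lit 114718) (nat_lit 23) (.e (nat_lit 106240) (nat_lit 11) (.e (nat_lit 352296) (nat_lit 20) .nil)))))) (.g (nat_lit 4) .nil .nil))))))) (.nd (nat_lit 3) (.nd (nat_lit 4) (.nd (nat_lit 5) (.nd (nat_lit 6) 
(.lf (nat_lit 78469) (.g (nat_lit 2599) (.e (nat_lit 1800) (nat_lit 119) (.e (nat_lit 516179) (nat_lit 15) (.e (nat_lit 475179) (nat_lit 24) (.e (nat_lit 516146) (nat_lit 9) (.e (nat_lit 426438) (nat_lit 18) .nil))))) .nil)) 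
(.lf (nat_lit 78533) (.g (nat_lit 3435) (.e (nat_lit 1802) (nat_lit 119) (.e (nat_lit 516115) (nat_lit 1) (.e (nat_lit 164325) (nat_lit 230) (.e (nat_lit 163907) (nat_lit 12) (.e (nat_lit 433920) (nat_lit 34) .nil))))) .nil))) (.nd (nat_lit 6) 
(.lf (nat_lit 78501) (.g (nat_lit 1630) (.e (nat_lit 1801) (nat_lit 119) (.e (nat_lit 516120) (nat_lit 1) (.e (nat_lit 164330) (nat_lit 230) (.e (nat_lit 163915) (nat_lit 12) .nil)))) .nil)) 
(.lf (nat_lit 78565) (.g (nat_lit 3112) (.e (nat_lit 1802) (nat_lit 119) (.e (nat_lit 516131) (nat_lit 3) (.e (nat_lit 221212) (nat_lit 22) (.e (nat_lit 196668) (nat_lit 14) (.e (nat_lit 73747) (nat_lit 3) (.e (nat_lit 516115) (nat_lit 1) (.e (nat_lit 164178) (nat_lit 154) (.e (nat_lit 57355) (nat_lit 0) .nil)))))))) (.g (nat_lit 6) .nil .nil))))) (.nd (nat_lit 5) (.nd (nat_lit 6) 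
(.lf (nat_lit 78485) (.g (nat_lit 1852) (.e (nat_lit 1801) (nat_lit 119) (.e (nat_lit 516119) (nat_lit 1) (.e (nat_lit 164179) (nat_lit 154) (.e (nat_lit 57445) (nat_lit 19) (.e (nat_lit 401152) (nat_lit 11) .nil))))) .nil)) 
(.lf (nat_lit 78549) (.g (nat_lit 2271) (.e (nat_lit 1802) (nat_lit 119) (.e (nat_lit 516120) (nat_lit 1) (.e (nat_lit 164183) (nat_lit 154) (.e (nat_lit 57447) (nat_lit 19) (.e (nat_lit 401152) (nat_lit 11) .nil))))) .nil))) (.nd (nat_lit 6) 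
(.lf (nat_lit 78517) (.g (nat_lit 4880) (.e (nat_lit 1801) (nat_lit 119) (.e (nat_lit 516166) (nat_lit 12) (.e (nat_lit 450587) (nat_lit 10) (.e (nat_lit 573477) (nat_lit 12) (.e (nat_lit 57574) (nat_lit 55) .nil))))) .nil)) 
(.lf (nat_lit 78581) (.g (nat_lit 1081) (.e (nat_lit 1802) (nat_lit 119) (.e (nat_lit 516139) (nat_lit 7) (.e (nat_lit 409623) (nat_lit 10) (.e (nat_lit 5664) (nat_lit 312) .nil)))) .nil))))) (.nd (nat_lit 4) (.nd (nat_lit 5) (.nd (nat_lit 6) 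
(.lf (nat_lit 78477) (.g (nat_lit 1551) (.e (nat_lit 1800) (nat_lit 119) (.e (nat_lit 524032) (nat_lit 29) (.e (nat_lit 360467) (nat_lit 3) (.e (nat_lit 516146) (nat_lit 9) (.e (nat_lit 426448) (nat_lit 20) (.e (nat_lit 122624) (nat_lit 20) .nil)))))) (.g (nat_lit 4) .nil .nil))) 
(.lf (nat_lit 78541) (.g (nat_lit 693) (.e (nat_lit 1802) (nat_lit 119) (.e (nat_lit 516118) (nat_lit 1) (.e (nat_lit 164177) (nat_lit 154) (.e (nat_lit 57445) (nat_lit 19) .nil)))) .nil))) (.nd (nat_lit 6) 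
(.lf (nat_lit 78509) (.g (nat_lit 4631) (.e (nat_lit 1801) (nat_lit 119) (.e (nat_lit 516151) (nat_lit 9) (.e (nat_lit 426211) (nat_lit 9) (.e (nat_lit 426125) (nat_lit 2) (.e (nat_lit 196630) (nat_lit 9) (.e (nat_lit 1401) (nat_lit 106) (.e (nat_lit 319531) (nat_lit 16) (.e (nat_lit 286727) (nat_lit 0) .nil)))))))) (.g (nat_lit 4) .nil .nil))) 
(.lf (nat_lit 78573) (.g (nat_lit 2805) (.e (nat_lit 1802) (nat_lit 119) (.e (nat_lit 516131) (nat_lit 3) (.e (nat_lit 221212) (nat_lit 22) (.e (nat_lit 196670) (nat_lit 14) (.e (nat_lit 73746) (nat_lit 3) (.e (nat_lit 516120) (nat_lit 1) (.e (nat_lit 164181) (nat_lit 154) (.e (nat_lit 57357) (nat_lit 0) .nil)))))))) (.g (nat_lit 6) .nil .nil))))) (.nd (nat_lit 5) (.nd (nat_lit 6) 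
(.lf (nat_lit 78493) (.g (nat_lit 1779) (.e (nat_lit 1801) (nat_lit 119) (.e (nat_lit 516120) (nat_lit 1) (.e (nat_lit 164183) (nat_lit 154) (.e (nat_lit 57448) (nat_lit 19) (.e (nat_lit 401152) (nat_lit 11) .nil))))) .nil)) 
(.lf (nat_lit 78557) (.g (nat_lit 1635) (.e (nat_lit 1802) (nat_lit 119) (.e (nat_lit 516129) (nat_lit 3) (.e (nat_lit 221193) (nat_lit 11) (.e (nat_lit 336012) (nat_lit 2) (.e (nat_lit 90176) (nat_lit 15) (.e (nat_lit 196352) (nat_lit 0) .nil)))))) (.g (nat_lit 4) .nil .nil)))) (.nd (nat_lit 6) 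
(.lf (nat_lit 78525) (.g (nat_lit 2617) (.e (nat_lit 1801) (nat_lit 119) (.e (nat_lit 516174) (nat_lit 14) (.e (nat_lit 466980) (nat_lit 23) (.e (nat_lit 204846) (nat_lit 24) (.e (nat_lit 319533) (nat_lit 16) (.e (nat_lit 286724) (nat_lit 0) .nil)))))) (.g (nat_lit 5) .nil .nil))) 
(.lf (nat_lit 78589) (.g (nat_lit 3105) (.e (nat_lit 1802) (nat_lit 119) (.e (nat_lit 516151) (nat_lit 9) (.e (nat_lit 426211) (nat_lit 9) (.e (nat_lit 426036) (nat_lit 0) .nil)))) .nil))))))) (.nd (nat_lit 2) (.nd (nat_lit 3) (.nd (nat_lit 4) (.nd (nat_lit 5) (.nd (nat_lit 6) 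
(.lf (nat_lit 78467) (.g (nat_lit 2461) (.e (nat_lit 1800) (nat_lit 119) (.e (nat_lit 516179) (nat_lit 15) (.e (nat_lit 475177) (nat_lit 24) (.e (nat_lit 516150) (nat_lit 9) (.e (nat_lit 426438) (nat_lit 18) (.e (nat_lit 98358) (nat_lit 26) (.e (nat_lit 426375) (nat_lit 15) .nil))))))) (.g (nat_lit 4) .nil .nil))) 
(.lf (nat_lit 78531) (.g (nat_lit 1908) (.e (nat_lit 1802) (nat_lit 119) (.e (nat_lit 516115) (nat_lit 1) (.e (nat_lit 164179) (nat_lit 154) (.e (nat_lit 57445) (nat_lit 19) .nil)))) .nil))) (.nd (nat_lit 6) 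
(.lf (nat_lit 78499) (.g (nat_lit 2813) (.e (nat_lit 1801) (nat_lit 119) (.e (nat_lit 516120) (nat_lit 1) (.e (nat_lit 164330) (nat_lit 230) (.e (nat_lit 163905) (nat_lit 12) (.e (nat_lit 426566) (nat_lit 34) (.e (nat_lit 393273) (nat_lit 23) (.e (nat_lit 426364) (nat_lit 15) .nil))))))) (.g (nat_lit 5) .nil .nil))) 
(.lf (nat_lit 78563) (.g (nat_lit 1425) (.e (nat_lit 1802) (nat_lit 119) (.e (nat_lit 516131) (nat_lit 3) (.e (nat_lit 221193) (nat_lit 11) (.e (nat_lit 336012) (nat_lit 2) (.e (nat_lit 90176) (nat_lit 15) (.e (nat_lit 196352) (nat_lit 0) .nil)))))) (.g (nat_lit 4) .nil .nil))))) (.nd (nat_lit 5) (.nd (nat_lit 6) 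
(.lf (nat_lit 78483) (.g (nat_lit 1783) (.e (nat_lit 1801) (nat_lit 119) (.e (nat_lit 516117) (nat_lit 1) (.e (nat_lit 164332) (nat_lit 230) (.e (nat_lit 163902) (nat_lit 12) (.e (nat_lit 426566) (nat_lit 34) .nil))))) .nil)) 
(.lf (nat_lit 78547) (.g (nat_lit 2214) (.e (nat_lit 1802) (nat_lit 119) (.e (nat_lit 516119) (nat_lit 1) (.e (nat_lit 164179) (nat_lit 154) (.e (nat_lit 57447) (nat_lit 19) (.e (nat_lit 401152) (nat_lit 11) .nil))))) .nil))) (.nd (nat_lit 6) 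
(.lf (nat_lit 78515) (.g (nat_lit 4324) (.e (nat_lit 1801) (nat_lit 119) (.e (nat_lit 516166) (nat_lit 12) (.e (nat_lit 450587) (nat_lit 10) (.e (nat_lit 573454) (nat_lit 9) .nil)))) .nil)) 
(.lf (nat_lit 78579) (.g (nat_lit 1726) (.e (nat_lit 1802) (nat_lit 119) (.e (nat_lit 516131) (nat_lit 3) (.e (nat_lit 221212) (nat_lit 22) (.e (nat_lit 196681) (nat_lit 17) (.e (nat_lit 131098) (nat_lit 3) (.e (nat_lit 98334) (nat_lit 18) (.e (nat_lit 164182) (nat_lit 154) (.e (nat_lit 57358) (nat_lit 0) .nil)))))))) (.g (nat_lit 4) .nil .nil)))))) 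
(.nd (nat_lit 4) (.nd (nat_lit 5) (.nd (nat_lit 6) 
(.lf (nat_lit 78475) (.g (nat_lit 2441) (.e (nat_lit 1800) (nat_lit 119) (.e (nat_lit 516185) (nat_lit 16) (.e (nat_lit 491560) (nat_lit 10) (.e (nat_lit 344118) (nat_lit 21) .nil)))) .nil)) 
(.lf (nat_lit 78539) (.g (nat_lit 2379) (.e (nat_lit 1802) (nat_lit 119) (.e (nat_lit 516117) (nat_lit 1) (.e (nat_lit 164330) (nat_lit 230) (.e (nat_lit 163913) (nat_lit 12) (.e (nat_lit 433920) (nat_lit 34) .nil))))) .nil))) (.nd (nat_lit 6) 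
(.lf (nat_lit 78507) (.g (nat_lit 3105) (.e (nat_lit 1801) (nat_lit 119) (.e (nat_lit 516151) (nat_lit 9) (.e (nat_lit 426211) (nat_lit 9) (.e (nat_lit 426037) (nat_lit 0) .nil)))) .nil)) 
(.lf (nat_lit 78571) (.g (nat_lit 3205) (.e (nat_lit 1802) (nat_lit 119) (.e (nat_lit 516131) (nat_lit 3) (.e (nat_lit 221212) (nat_lit 22) (.e (nat_lit 196670) (nat_lit 14) (.e (nat_lit 73746) (nat_lit 3) (.e (nat_lit 516117) (nat_lit 1) (.e (nat_lit 164180) (nat_lit 154) (.e (nat_lit 57358) (nat_lit 0) .nil)))))))) (.g (nat_lit 7) .nil .nil))))) (.nd (nat_lit 5) (.nd (nat_lit 6) 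
(.lf (nat_lit 78491) (.g (nat_lit 2779) (.e (nat_lit 1801) (nat_lit 119) (.e (nat_lit 516119) (nat_lit 1) (.e (nat_lit 164403) (nat_lit 256) (.e (nat_lit 57373) (nat_lit 2) (.e (nat_lit 90172) (nat_lit 14) .nil))))) .nil)) 
(.lf (nat_lit 78555) (.g (nat_lit 1402) (.e (nat_lit 1802) (nat_lit 119) (.e (nat_lit 516129) (nat_lit 3) (.e (nat_lit 221193) (nat_lit 11) (.e (nat_lit 336010) (nat_lit 2) (.e (nat_lit 90176) (nat_lit 15) (.e (nat_lit 196352) (nat_lit 0) .nil)))))) (.g (nat_lit 4) .nil .nil)))) (.nd (nat_lit 6) 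
(.lf (nat_lit 78523) (.g (nat_lit 7348) (.e (nat_lit 1801) (nat_lit 119) (.e (nat_lit 516166) (nat_lit 12) (.e (nat_lit 450588) (nat_lit 10) (.e (nat_lit 573474) (nat_lit 12) .nil)))) .nil)) 
(.lf (nat_lit 78587) (.g (nat_lit 1378) (.e (nat_lit 1802) (nat_lit 119) (.e (nat_lit 516151) (nat_lit 9) (.e (nat_lit 426185) (nat_lit 9) .nil))) .nil)))))) (.nd (nat_lit 3) (.nd (nat_lit 4) (.nd (nat_lit 5) (.nd (nat_lit 6) 
(.lf (nat_lit 78471) (.g (nat_lit 2822) (.e (nat_lit 1800) (nat_lit 119) (.e (nat_lit 516182) (nat_lit 15) (.e (nat_lit 475198) (nat_lit 40) (.e (nat_lit 704590) (nat_lit 3) (.e (nat_lit 163975) (nat_lit 30) (.e (nat_lit 573491) (nat_lit 15) (.e (nat_lit 89856) (nat_lit 20) .nil))))))) (.g (nat_lit 5) .nil .nil))) 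
(.lf (nat_lit 78535) (.g (nat_lit 1649) (.e (nat_lit 1802) (nat_lit 119) (.e (nat_lit 516117) (nat_lit 1) (.e (nat_lit 164305) (nat_lit 226) (.e (nat_lit 2725) (nat_lit 172) (.e (nat_lit 245504) (nat_lit 34) .nil))))) .nil))) (.nd (nat_lit 6) 
(.lf (nat_lit 78503) (.g (nat_lit 1363) (.e (nat_lit 1801) (nat_lit 119) (.e (nat_lit 516139) (nat_lit 7) (.e (nat_lit 409646) (nat_lit 18) (.e (nat_lit 303106) (nat_lit 0) .nil)))) .nil)) 
(.lf (nat_lit 78567) (.g (nat_lit 2999) (.e (nat_lit 1802) (nat_lit 119) (.e (nat_lit 516131) (nat_lit 3) (.e (nat_lit 221212) (nat_lit 22) (.e (nat_lit 196668) (nat_lit 14) (.e (nat_lit 73747) (nat_lit 3) (.e (nat_lit 516119) (nat_lit 1) (.e (nat_lit 164176) (nat_lit 154) (.e (nat_lit 57357) (nat_lit 0) .nil)))))))) (.g (nat_lit 6) .nil .nil))))) (.nd (nat_lit 5) (.nd (nat_lit 6) 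
(.lf (nat_lit 78487) (.g (nat_lit 2000) (.e (nat_lit 1801) (nat_lit 119) (.e (nat_lit 516119) (nat_lit 1) (.e (nat_lit 164179) (nat_lit 154) (.e (nat_lit 57447) (nat_lit 19) (.e (nat_lit 401152) (nat_lit 11) .nil))))) .nil)) 
(.lf (nat_lit 78551) (.g (nat_lit 2606) (.e (nat_lit 1802) (nat_lit 119) (.e (nat_lit 516120) (nat_lit 1) (.e (nat_lit 164329) (nat_lit 230) (.e (nat_lit 163902) (nat_lit 12) (.e (nat_lit 426568) (nat_lit 34) .nil))))) .nil))) (.nd (nat_lit 6) 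
(.lf (nat_lit 78519) (.g (nat_lit 4975) (.e (nat_lit 1801) (nat_lit 119) (.e (nat_lit 516166) (nat_lit 12) (.e (nat_lit 450588) (nat_lit 10) (.e (nat_lit 573452) (nat_lit 9) .nil)))) .nil)) 
(.lf (nat_lit 78583) (.g (nat_lit 1131) (.e (nat_lit 1802) (nat_lit 119) (.e (nat_lit 516147) (nat_lit 9) (.e (nat_lit 426446) (nat_lit 20) (.e (nat_lit 114718) (nat_lit 23) (.e (nat_lit 106240) (nat_lit 11) (.e (nat_lit 352296) (nat_lit 20) .nil)))))) (.g (nat_lit 4) .nil .nil)))))) (.nd (nat_lit 4) (.nd (nat_lit 5) (.nd (nat_lit 6) 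
(.lf (nat_lit 78479) (.g (nat_lit 2168) (.e (nat_lit 1801) (nat_lit 119) (.e (nat_lit 516115) (nat_lit 1) (.e (nat_lit 164325) (nat_lit 230) (.e (nat_lit 163907) (nat_lit 12) .nil)))) .nil)) 
(.lf (nat_lit 78543) (.g (nat_lit 1572) (.e (nat_lit 1802) (nat_lit 119) (.e (nat_lit 516118) (nat_lit 1) (.e (nat_lit 164179) (nat_lit 154) (.e (nat_lit 57446) (nat_lit 19) (.e (nat_lit 401152) (nat_lit 11) (.e (nat_lit 352296) (nat_lit 20) .nil)))))) (.g (nat_lit 4) .nil .nil)))) (.nd (nat_lit 6) 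
(.lf (nat_lit 78511) (.g (nat_lit 1282) (.e (nat_lit 1801) (nat_lit 119) (.e (nat_lit 516151) (nat_lit 9) (.e (nat_lit 426285) (nat_lit 10) .nil))) .nil)) 
(.lf (nat_lit 78575) (.g (nat_lit 1616) (.e (nat_lit 1802) (nat_lit 119) (.e (nat_lit 516131) (nat_lit 3) (.e (nat_lit 221212) (nat_lit 22) (.e (nat_lit 196681) (nat_lit 17) (.e (nat_lit 131096) (nat_lit 3) .nil))))) .nil)))) (.nd (nat_lit 5) (.nd (nat_lit 6) 
(.lf (nat_lit 78495) (.g (nat_lit 1834) (.e (nat_lit 1801) (nat_lit 119) (.e (nat_lit 516120) (nat_lit 1) (.e (nat_lit 164329) (nat_lit 230) (.e (nat_lit 163902) (nat_lit 12) .nil)))) .nil)) 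
(.lf (nat_lit 78559) (.g (nat_lit 1947) (.e (nat_lit 1802) (nat_lit 119) (.e (nat_lit 516129) (nat_lit 3) (.e (nat_lit 221194) (nat_lit 11) (.e (nat_lit 336004) (nat_lit 2) (.e (nat_lit 90176) (nat_lit 15) (.e (nat_lit 196352) (nat_lit 0) .nil)))))) (.g (nat_lit 4) .nil .nil)))) (.nd (nat_lit 6) 
(.lf (nat_lit 78527) (.g (nat_lit 645) (.e (nat_lit 1801) (nat_lit 119) (.e (nat_lit 516176) (nat_lit 14) (.e (nat_lit 466981) (nat_lit 23) .nil))) .nil)) 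
(.lf (nat_lit 78591) (.g (nat_lit 3105) (.e (nat_lit 1802) (nat_lit 119) (.e (nat_lit 516151) (nat_lit 9) (.e (nat_lit 426211) (nat_lit 9) (.e (nat_lit 426041) (nat_lit 0) .nil)))) .nil)))))))))

noncomputable def tv1063 : DT := (.nd (nat_lit 0) (.nd (nat_lit 1) (.nd (nat_lit 2) (.nd (nat_lit 3) (.nd (nat_lit 4) (.nd (nat_lit 5) 
(.lf (nat_lit 78592) (.g (nat_lit 3088) (.e (nat_lit 1802) (nat_lit 119) (.e (nat_lit 516151) (nat_lit 9) (.e (nat_lit 426211) (nat_lit 9) (.e (nat_lit 426042) (nat_lit 0) .nil)))) .nil)) 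
(.lf (nat_lit 78624) (.g (nat_lit 2180) (.e (nat_lit 1802) (nat_lit 119) (.e (nat_lit 516176) (nat_lit 14) (.e (nat_lit 466979) (nat_lit 23) (.e (nat_lit 204846) (nat_lit 24) (.e (nat_lit 319534) (nat_lit 16) (.e (nat_lit 286728) (nat_lit 0) .nil)))))) (.g (nat_lit 4) .nil .nil)))) (.nd (nat_lit 5) 
(.lf (nat_lit 78608) (.g (nat_lit 3721) (.e (nat_lit 1802) (nat_lit 119) (.e (nat_lit 516151) (nat_lit 9) (.e (nat_lit 426285) (nat_lit 10) (.e (nat_lit 434233) (nat_lit 23) (.e (nat_lit 532523) (nat_lit 7) (.e (nat_lit 319534) (nat_lit 16) (.e (nat_lit 286728) (nat_lit 0) .nil))))))) (.g (nat_lit 5) .nil .nil))) 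
(.lf (nat_lit 78640) (.g (nat_lit 2032) (.e (nat_lit 1803) (nat_lit 119) (.e (nat_lit 516115) (nat_lit 1) (.e (nat_lit 164399) (nat_lit 256) (.e (nat_lit 57375) (nat_lit 2) (.e (nat_lit 90174) (nat_lit 14) (.e (nat_lit 180243) (nat_lit 5) (.e (nat_lit 532513) (nat_lit 3) (.e (nat_lit 114700) (nat_lit 20) .nil)))))))) (.g (nat_lit 4) .nil .nil))))) (.nd (nat_lit 4) (.nd (nat_lit 5) 
(.lf (nat_lit 78600) (.g (nat_lit 3204) (.e (nat_lit 1802) (nat_lit 119) (.e (nat_lit 516151) (nat_lit 9) (.e (nat_lit 426211) (nat_lit 9) (.e (nat_lit 426125) (nat_lit 2) (.e (nat_lit 204544) (nat_lit 21) .nil))))) .nil)) 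
(.lf (nat_lit 78632) (.g (nat_lit 2438) (.e (nat_lit 1803) (nat_lit 119) (.e (nat_lit 516115) (nat_lit 1) (.e (nat_lit 164399) (nat_lit 256) (.e (nat_lit 57372) (nat_lit 2) (.e (nat_lit 90172) (nat_lit 14) (.e (nat_lit 180243) (nat_lit 5) (.e (nat_lit 532513) (nat_lit 3) (.e (nat_lit 114700) (nat_lit 20) .nil)))))))) (.g (nat_lit 4) .nil .nil)))) (.nd (nat_lit 5) 
(.lf (nat_lit 78616) (.g (nat_lit 5766) (.e (nat_lit 1802) (nat_lit 119) (.e (nat_lit 516166) (nat_lit 12) (.e (nat_lit 450587) (nat_lit 10) (.e (nat_lit 573475) (nat_lit 12) .nil)))) .nil)) 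
(.lf (nat_lit 78648) (.g (nat_lit 919) (.e (nat_lit 1803) (nat_lit 119) (.e (nat_lit 516117) (nat_lit 1) (.e (nat_lit 164399) (nat_lit 256) .nil))) .nil))))) (.nd (nat_lit 3) (.nd (nat_lit 4) (.nd (nat_lit 5) 
(.lf (nat_lit 78596) (.g (nat_lit 5242) (.e (nat_lit 1802) (nat_lit 119) (.e (nat_lit 516151) (nat_lit 9) (.e (nat_lit 426211) (nat_lit 9) (.e (nat_lit 426125) (nat_lit 2) (.e (nat_lit 196617) (nat_lit 9) .nil))))) .nil)) 
(.lf (nat_lit 78628) (.g (nat_lit 2603) (.e (nat_lit 1802) (nat_lit 119) (.e (nat_lit 516179) (nat_lit 15) (.e (nat_lit 475199) (nat_lit 40) (.e (nat_lit 704590) (nat_lit 3) (.e (nat_lit 163975) (nat_lit 30) (.e (nat_lit 573491) (nat_lit 15) (.e (nat_lit 81946) (nat_lit 20) .nil))))))) (.g (nat_lit 4) .nil .nil)))) (.nd (nat_lit 5) 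
(.lf (nat_lit 78612) (.g (nat_lit 3143) (.e (nat_lit 1802) (nat_lit 119) (.e (nat_lit 516165) (nat_lit 12) (.e (nat_lit 450579) (nat_lit 5) (.e (nat_lit 532523) (nat_lit 7) (.e (nat_lit 319534) (nat_lit 16) (.e (nat_lit 286728) (nat_lit 0) .nil)))))) (.g (nat_lit 4) .nil .nil))) 
(.lf (nat_lit 78644) (.g (nat_lit 2668) (.e (nat_lit 1803) (nat_lit 119) (.e (nat_lit 516117) (nat_lit 1) (.e (nat_lit 164329) (nat_lit 230) (.e (nat_lit 163902) (nat_lit 12) (.e (nat_lit 426568) (nat_lit 34) (.e (nat_lit 393279) (nat_lit 23) (.e (nat_lit 426353) (nat_lit 15) .nil))))))) (.g (nat_lit 4) .nil .nil))))) (.nd (nat_lit 4) (.nd (nat_lit 5) 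
(.lf (nat_lit 78604) (.g (nat_lit 5242) (.e (nat_lit 1802) (nat_lit 119) (.e (nat_lit 516151) (nat_lit 9) (.e (nat_lit 426211) (nat_lit 9) (.e (nat_lit 426140) (nat_lit 3) (.e (nat_lit 204846) (nat_lit 24) (.e (nat_lit 319534) (nat_lit 16) (.e (nat_lit 286728) (nat_lit 0) .nil))))))) (.g (nat_lit 6) .nil .nil))) 
(.lf (nat_lit 78636) (.g (nat_lit 2545) (.e (nat_lit 1803) (nat_lit 119) (.e (nat_lit 516115) (nat_lit 1) (.e (nat_lit 164399) (nat_lit 256) (.e (nat_lit 57373) (nat_lit 2) (.e (nat_lit 90172) (nat_lit 14) (.e (nat_lit 180244) (nat_lit 5) (.e (nat_lit 532513) (nat_lit 3) (.e (nat_lit 114700) (nat_lit 20) .nil)))))))) (.g (nat_lit 4) .nil .nil)))) (.nd (nat_lit 5) 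
(.lf (nat_lit 78620) (.g (nat_lit 7345) (.e (nat_lit 1802) (nat_lit 119) (.e (nat_lit 516166) (nat_lit 12) (.e (nat_lit 450588) (nat_lit 10) (.e (nat_lit 573474) (nat_lit 12) .nil)))) .nil)) 
(.lf (nat_lit 78652) (.g (nat_lit 3720) (.e (nat_lit 1803) (nat_lit 119) (.e (nat_lit 516119) (nat_lit 1) (.e (nat_lit 164403) (nat_lit 256) (.e (nat_lit 57373) (nat_lit 2) (.e (nat_lit 90172) (nat_lit 14) (.e (nat_lit 180244) (nat_lit 5) (.e (nat_lit 532513) (nat_lit 3) (.e (nat_lit 114700) (nat_lit 20) .nil)))))))) (.g (nat_lit 5) .nil .nil))))))) 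
(.nd (nat_lit 2) (.nd (nat_lit 3) (.nd (nat_lit 4) (.nd (nat_lit 5) 
(.lf (nat_lit 78594) (.g (nat_lit 3105) (.e (nat_lit 1802) (nat_lit 119) (.e (nat_lit 516151) (nat_lit 9) (.e (nat_lit 426211) (nat_lit 9) (.e (nat_lit 426047) (nat_lit 0) .nil)))) .nil)) 
(.lf (nat_lit 78626) (.g (nat_lit 3915) (.e (nat_lit 1802) (nat_lit 119) (.e (nat_lit 516176) (nat_lit 14) (.e (nat_lit 466981) (nat_lit 23) (.e (nat_lit 204846) (nat_lit 24) (.e (nat_lit 319534) (nat_lit 16) (.e (nat_lit 286728) (nat_lit 0) .nil)))))) (.g (nat_lit 6) .nil .nil)))) (.nd (nat_lit 5) 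
(.lf (nat_lit 78610) (.g (nat_lit 2168) (.e (nat_lit 1802) (nat_lit 119) (.e (nat_lit 516163) (nat_lit 11) (.e (nat_lit 442424) (nat_lit 22) (.e (nat_lit 196626) (nat_lit 9) (.e (nat_lit 1400) (nat_lit 106) .nil))))) .nil)) 
(.lf (nat_lit 78642) (.g (nat_lit 3070) (.e (nat_lit 1803) (nat_lit 119) (.e (nat_lit 516117) (nat_lit 1) (.e (nat_lit 164329) (nat_lit 230) (.e (nat_lit 163902) (nat_lit 12) (.e (nat_lit 426568) (nat_lit 34) (.e (nat_lit 393271) (nat_lit 23) (.e (nat_lit 426354) (nat_lit 15) .nil))))))) (.g (nat_lit 5) .nil .nil))))) (.nd (nat_lit 4) (.nd (nat_lit 5) 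
(.lf (nat_lit 78602) (.g (nat_lit 3105) (.e (nat_lit 1802) (nat_lit 119) (.e (nat_lit 516151) (nat_lit 9) (.e (nat_lit 426211) (nat_lit 9) (.e (nat_lit 426135) (nat_lit 3) .nil)))) .nil)) 
(.lf (nat_lit 78634) (.g (nat_lit 2324) (.e (nat_lit 1803) (nat_lit 119) (.e (nat_lit 516115) (nat_lit 1) (.e (nat_lit 164399) (nat_lit 256) (.e (nat_lit 57372) (nat_lit 2) (.e (nat_lit 90172) (nat_lit 14) (.e (nat_lit 180244) (nat_lit 5) (.e (nat_lit 532515) (nat_lit 3) (.e (nat_lit 114701) (nat_lit 20) .nil)))))))) (.g (nat_lit 4) .nil .nil)))) (.nd (nat_lit 5) 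
(.lf (nat_lit 78618) (.g (nat_lit 4242) (.e (nat_lit 1802) (nat_lit 119) (.e (nat_lit 516166) (nat_lit 12) (.e (nat_lit 450587) (nat_lit 10) (.e (nat_lit 573478) (nat_lit 12) .nil)))) .nil)) 
(.lf (nat_lit 78650) (.g (nat_lit 2623) (.e (nat_lit 1803) (nat_lit 119) (.e (nat_lit 516119) (nat_lit 1) (.e (nat_lit 164403) (nat_lit 256) (.e (nat_lit 57373) (nat_lit 2) (.e (nat_lit 90170) (nat_lit 13) (.e (nat_lit 172067) (nat_lit 3) (.e (nat_lit 204837) (nat_lit 20) (.e (nat_lit 114701) (nat_lit 20) .nil)))))))) (.g (nat_lit 4) .nil .nil)))))) 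
(.nd (nat_lit 3) (.nd (nat_lit 4) (.nd (nat_lit 5) 
(.lf (nat_lit 78598) (.g (nat_lit 5447) (.e (nat_lit 1802) (nat_lit 119) (.e (nat_lit 516151) (nat_lit 9) (.e (nat_lit 426211) (nat_lit 9) (.e (nat_lit 426125) (nat_lit 2) (.e (nat_lit 196626) (nat_lit 9) .nil))))) .nil)) 
(.lf (nat_lit 78630) (.g (nat_lit 4073) (.e (nat_lit 1802) (nat_lit 119) (.e (nat_lit 516185) (nat_lit 16) (.e (nat_lit 491563) (nat_lit 12) (.e (nat_lit 385074) (nat_lit 31) (.e (nat_lit 573491) (nat_lit 15) .nil))))) .nil))) (.nd (nat_lit 5) 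
(.lf (nat_lit 78614) (.g (nat_lit 3986) (.e (nat_lit 1802) (nat_lit 119) (.e (nat_lit 516166) (nat_lit 12) (.e (nat_lit 450580) (nat_lit 5) (.e (nat_lit 532523) (nat_lit 7) .nil)))) .nil)) 
(.lf (nat_lit 78646) (.g (nat_lit 2291) (.e (nat_lit 1803) (nat_lit 119) (.e (nat_lit 516117) (nat_lit 1) (.e (nat_lit 164398) (nat_lit 256) (.e (nat_lit 57373) (nat_lit 2) (.e (nat_lit 90174) (nat_lit 14) .nil))))) .nil)))) (.nd (nat_lit 4) (.nd (nat_lit 5) 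
(.lf (nat_lit 78606) (.g (nat_lit 1361) (.e (nat_lit 1802) (nat_lit 119) (.e (nat_lit 516151) (nat_lit 9) (.e (nat_lit 426216) (nat_lit 9) .nil))) .nil)) 
(.lf (nat_lit 78638) (.g (nat_lit 3155) (.e (nat_lit 1803) (nat_lit 119) (.e (nat_lit 516115) (nat_lit 1) (.e (nat_lit 164399) (nat_lit 256) (.e (nat_lit 57373) (nat_lit 2) (.e (nat_lit 90174) (nat_lit 14) (.e (nat_lit 180243) (nat_lit 5) (.e (nat_lit 532513) (nat_lit 3) (.e (nat_lit 114700) (nat_lit 20) .nil)))))))) (.g (nat_lit 5) .nil .nil)))) (.nd (nat_lit 5) 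
(.lf (nat_lit 78622) (.g (nat_lit 6123) (.e (nat_lit 1802) (nat_lit 119) (.e (nat_lit 516166) (nat_lit 12) (.e (nat_lit 450588) (nat_lit 10) (.e (nat_lit 573475) (nat_lit 12) (.e (nat_lit 57574) (nat_lit 55) (.e (nat_lit 778466) (nat_lit 11) (.e (nat_lit 24589) (nat_lit 0) .nil))))))) (.g (nat_lit 5) .nil .nil))) 
(.lf (nat_lit 78654) (.g (nat_lit 3582) (.e (nat_lit 1803) (nat_lit 119) (.e (nat_lit 516119) (nat_lit 1) (.e (nat_lit 164403) (nat_lit 256) (.e (nat_lit 57373) (nat_lit 2) (.e (nat_lit 90172) (nat_lit 14) (.e (nat_lit 180244) (nat_lit 5) (.e (nat_lit 532515) (nat_lit 3) (.e (nat_lit 114701) (nat_lit 20) .nil)))))))) (.g (nat_lit 5) .nil .nil)))))))) 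
(.nd (nat_lit 1) (.nd (nat_lit 2) (.nd (nat_lit 3) (.nd (nat_lit 4) (.nd (nat_lit 5) 
(.lf (nat_lit 78593) (.g (nat_lit 3105) (.e (nat_lit 1802) (nat_lit 119) (.e (nat_lit 516151) (nat_lit 9) (.e (nat_lit 426211) (nat_lit 9) (.e (nat_lit 426046) (nat_lit 0) .nil)))) .nil)) 
(.lf (nat_lit 78625) (.g (nat_lit 3505) (.e (nat_lit 1802) (nat_lit 119) (.e (nat_lit 516176) (nat_lit 14) (.e (nat_lit 466980) (nat_lit 23) (.e (nat_lit 204846) (nat_lit 24) (.e (nat_lit 319534) (nat_lit 16) (.e (nat_lit 286728) (nat_lit 0) .nil)))))) (.g (nat_lit 0) .nil .nil)))) (.nd (nat_lit 5) 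
(.lf (nat_lit 78609) (.g (nat_lit 2152) (.e (nat_lit 1802) (nat_lit 119) (.e (nat_lit 516151) (nat_lit 9) (.e (nat_lit 426286) (nat_lit 10) .nil))) .nil)) 
(.lf (nat_lit 78641) (.g (nat_lit 2587) (.e (nat_lit 1803) (nat_lit 119) (.e (nat_lit 516117) (nat_lit 1) (.e (nat_lit 164329) (nat_lit 230) (.e (nat_lit 163902) (nat_lit 12) (.e (nat_lit 426568) (nat_lit 34) .nil))))) .nil)))) (.nd (nat_lit 4) (.nd (nat_lit 5) 
(.lf (nat_lit 78601) (.g (nat_lit 3106) (.e (nat_lit 1802) (nat_lit 119) (.e (nat_lit 516151) (nat_lit 9) (.e (nat_lit 426211) (nat_lit 9) (.e (nat_lit 426132) (nat_lit 3) .nil)))) .nil)) 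
(.lf (nat_lit 78633) (.g (nat_lit 2466) (.e (nat_lit 1803) (nat_lit 119) (.e (nat_lit 516115) (nat_lit 1) (.e (nat_lit 164399) (nat_lit 256) (.e (nat_lit 57372) (nat_lit 2) (.e (nat_lit 90172) (nat_lit 14) (.e (nat_lit 180244) (nat_lit 5) (.e (nat_lit 532513) (nat_lit 3) (.e (nat_lit 114700) (nat_lit 20) .nil)))))))) (.g (nat_lit 4) .nil .nil)))) (.nd (nat_lit 5) 
(.lf (nat_lit 78617) (.g (nat_lit 4304) (.e (nat_lit 1802) (nat_lit 119) (.e (nat_lit 516166) (nat_lit 12) (.e (nat_lit 450587) (nat_lit 10) (.e (nat_lit 573477) (nat_lit 12) .nil)))) .nil)) 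
(.lf (nat_lit 78649) (.g (nat_lit 2798) (.e (nat_lit 1803) (nat_lit 119) (.e (nat_lit 516117) (nat_lit 1) (.e (nat_lit 164399) (nat_lit 256) (.e (nat_lit 57373) (nat_lit 2) (.e (nat_lit 90174) (nat_lit 14) (.e (nat_lit 180243) (nat_lit 5) (.e (nat_lit 532513) (nat_lit 3) (.e (nat_lit 114700) (nat_lit 20) .nil)))))))) (.g (nat_lit 4) .nil .nil)))))) 
(.nd (nat_lit 3) (.nd (nat_lit 4) (.nd (nat_lit 5) 
(.lf (nat_lit 78597) (.g (nat_lit 5603) (.e (nat_lit 1802) (nat_lit 119) (.e (nat_lit 516151) (nat_lit 9) (.e (nat_lit 426211) (nat_lit 9) (.e (nat_lit 426125) (nat_lit 2) (.e (nat_lit 196623) (nat_lit 9) .nil))))) .nil)) 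
(.lf (nat_lit 78629) (.g (nat_lit 865) (.e (nat_lit 1802) (nat_lit 119) (.e (nat_lit 516180) (nat_lit 15) (.e (nat_lit 475214) (nat_lit 42) (.e (nat_lit 720943) (nat_lit 23) .nil)))) .nil))) (.nd (nat_lit 5) 
(.lf (nat_lit 78613) (.g (nat_lit 2501) (.e (nat_lit 1802) (nat_lit 119) (.e (nat_lit 516165) (nat_lit 12) (.e (nat_lit 450580) (nat_lit 5) (.e (nat_lit 532523) (nat_lit 7) (.e (nat_lit 319534) (nat_lit 16) .nil))))) .nil)) 
(.lf (nat_lit 78645) (.g (nat_lit 920) (.e (nat_lit 1803) (nat_lit 119) (.e (nat_lit 516117) (nat_lit 1) (.e (nat_lit 164398) (nat_lit 256) .nil))) .nil)))) (.nd (nat_lit 4) (.nd (nat_lit 5) 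
(.lf (nat_lit 78605) (.g (nat_lit 3141) (.e (nat_lit 1802) (nat_lit 119) (.e (nat_lit 516151) (nat_lit 9) (.e (nat_lit 426211) (nat_lit 9) (.e (nat_lit 433920) (nat_lit 3) .nil)))) .nil)) 
(.lf (nat_lit 78637) (.g (nat_lit 2407) (.e (nat_lit 1803) (nat_lit 119) (.e (nat_lit 516115) (nat_lit 1) (.e (nat_lit 164399) (nat_lit 256) (.e (nat_lit 57373) (nat_lit 2) (.e (nat_lit 90172) (nat_lit 14) (.e (nat_lit 180244) (nat_lit 5) (.e (nat_lit 532515) (nat_lit 3) (.e (nat_lit 114701) (nat_lit 20) .nil)))))))) (.g (nat_lit 4) .nil .nil)))) (.nd (nat_lit 5) 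
(.lf (nat_lit 78621) (.g (nat_lit 5539) (.e (nat_lit 1802) (nat_lit 119) (.e (nat_lit 516166) (nat_lit 12) (.e (nat_lit 450588) (nat_lit 10) (.e (nat_lit 573475) (nat_lit 12) (.e (nat_lit 57574) (nat_lit 55) .nil))))) .nil)) 
(.lf (nat_lit 78653) (.g (nat_lit 3017) (.e (nat_lit 1803) (nat_lit 119) (.e (nat_lit 516119) (nat_lit 1) (.e (nat_lit 164403) (nat_lit 256) (.e (nat_lit 57373) (nat_lit 2) (.e (nat_lit 90172) (nat_lit 14) (.e (nat_lit 180244) (nat_lit 5) (.e (nat_lit 532513) (nat_lit 3) (.e (nat_lit 114701) (nat_lit 20) .nil)))))))) (.g (nat_lit 4) .nil .nil))))))) 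
(.nd (nat_lit 2) (.nd (nat_lit 3) (.nd (nat_lit 4) (.nd (nat_lit 5) 
(.lf (nat_lit 78595) (.g (nat_lit 3105) (.e (nat_lit 1802) (nat_lit 119) (.e (nat_lit 516151) (nat_lit 9) (.e (nat_lit 426211) (nat_lit 9) (.e (nat_lit 426048) (nat_lit 0) .nil)))) .nil)) 
(.lf (nat_lit 78627) (.g (nat_lit 3534) (.e (nat_lit 1802) (nat_lit 119) (.e (nat_lit 516179) (nat_lit 15) (.e (nat_lit 475198) (nat_lit 40) (.e (nat_lit 704590) (nat_lit 3) (.e (nat_lit 163975) (nat_lit 30) (.e (nat_lit 573491) (nat_lit 15) (.e (nat_lit 81946) (nat_lit 20) .nil))))))) (.g (nat_lit 5) .nil .nil)))) (.nd (nat_lit 5) 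
(.lf (nat_lit 78611) (.g (nat_lit 460) (.e (nat_lit 1802) (nat_lit 119) (.e (nat_lit 516165) (nat_lit 12) (.e (nat_lit 450579) (nat_lit 5) .nil))) .nil)) 
(.lf (nat_lit 78643) (.g (nat_lit 3321) (.e (nat_lit 1803) (nat_lit 119) (.e (nat_lit 516117) (nat_lit 1) (.e (nat_lit 164329) (nat_lit 230) (.e (nat_lit 163902) (nat_lit 12) (.e (nat_lit 426568) (nat_lit 34) (.e (nat_lit 393271) (nat_lit 23) (.e (nat_lit 426361) (nat_lit 15) .nil))))))) (.g (nat_lit 5) .nil .nil))))) (.nd (nat_lit 4) (.nd (nat_lit 5) 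
(.lf (nat_lit 78603) (.g (nat_lit 3052) (.e (nat_lit 1802) (nat_lit 119) (.e (nat_lit 516151) (nat_lit 9) (.e (nat_lit 426211) (nat_lit 9) (.e (nat_lit 426140) (nat_lit 3) .nil)))) .nil)) 
(.lf (nat_lit 78635) (.g (nat_lit 2385) (.e (nat_lit 1803) (nat_lit 119) (.e (nat_lit 516115) (nat_lit 1) (.e (nat_lit 164399) (nat_lit 256) (.e (nat_lit 57372) (nat_lit 2) (.e (nat_lit 90174) (nat_lit 14) (.e (nat_lit 180243) (nat_lit 5) (.e (nat_lit 532513) (nat_lit 3) (.e (nat_lit 114700) (nat_lit 20) .nil)))))))) (.g (nat_lit 4) .nil .nil)))) (.nd (nat_lit 5) 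
(.lf (nat_lit 78619) (.g (nat_lit 5014) (.e (nat_lit 1802) (nat_lit 119) (.e (nat_lit 516166) (nat_lit 12) (.e (nat_lit 450588) (nat_lit 10) (.e (nat_lit 573470) (nat_lit 11) .nil)))) .nil)) 
(.lf (nat_lit 78651) (.g (nat_lit 3040) (.e (nat_lit 1803) (nat_lit 119) (.e (nat_lit 516119) (nat_lit 1) (.e (nat_lit 164403) (nat_lit 256) (.e (nat_lit 57373) (nat_lit 2) (.e (nat_lit 90172) (nat_lit 14) (.e (nat_lit 180243) (nat_lit 5) (.e (nat_lit 532513) (nat_lit 3) (.e (nat_lit 114700) (nat_lit 20) .nil)))))))) (.g (nat_lit 4) .nil .nil)))))) 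
(.nd (nat_lit 3) (.nd (nat_lit 4) (.nd (nat_lit 5) 
(.lf (nat_lit 78599) (.g (nat_lit 5603) (.e (nat_lit 1802) (nat_lit 119) (.e (nat_lit 516151) (nat_lit 9) (.e (nat_lit 426211) (nat_lit 9) (.e (nat_lit 426125) (nat_lit 2) (.e (nat_lit 196627) (nat_lit 9) .nil))))) .nil)) 
(.lf (nat_lit 78631) (.g (nat_lit 2112) (.e (nat_lit 1803) (nat_lit 119) (.e (nat_lit 516115) (nat_lit 1) (.e (nat_lit 164398) (nat_lit 256) (.e (nat_lit 57373) (nat_lit 2) (.e (nat_lit 90174) (nat_lit 14) .nil))))) .nil))) (.nd (nat_lit 5) 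
(.lf (nat_lit 78615) (.g (nat_lit 3711) (.e (nat_lit 1802) (nat_lit 119) (.e (nat_lit 516166) (nat_lit 12) (.e (nat_lit 450581) (nat_lit 5) (.e (nat_lit 532523) (nat_lit 7) .nil)))) .nil)) 
(.lf (nat_lit 78647) (.g (nat_lit 2735) (.e (nat_lit 1803) (nat_lit 119) (.e (nat_lit 516117) (nat_lit 1) (.e (nat_lit 164398) (nat_lit 256) (.e (nat_lit 57373) (nat_lit 2) (.e (nat_lit 90174) (nat_lit 14) (.e (nat_lit 180243) (nat_lit 5) (.e (nat_lit 532513) (nat_lit 3) (.e (nat_lit 114700) (nat_lit 20) .nil)))))))) (.g (nat_lit 4) .nil .nil))))) (.nd (nat_lit 4) (.nd (nat_lit 5) 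
(.lf (nat_lit 78607) (.g (nat_lit 1282) (.e (nat_lit 1802) (nat_lit 119) (.e (nat_lit 516151) (nat_lit 9) (.e (nat_lit 426285) (nat_lit 10) .nil))) .nil)) 
(.lf (nat_lit 78639) (.g (nat_lit 2234) (.e (nat_lit 1803) (nat_lit 119) (.e (nat_lit 516115) (nat_lit 1) (.e (nat_lit 164399) (nat_lit 256) (.e (nat_lit 57375) (nat_lit 2) (.e (nat_lit 90172) (nat_lit 14) (.e (nat_lit 180244) (nat_lit 5) (.e (nat_lit 532513) (nat_lit 3) (.e (nat_lit 114700) (nat_lit 20) .nil)))))))) (.g (nat_lit 4) .nil .nil)))) (.nd (nat_lit 5) 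
(.lf (nat_lit 78623) (.g (nat_lit 3336) (.e (nat_lit 1802) (nat_lit 119) (.e (nat_lit 516174) (nat_lit 14) (.e (nat_lit 466980) (nat_lit 23) (.e (nat_lit 204846) (nat_lit 24) (.e (nat_lit 319534) (nat_lit 16) (.e (nat_lit 286728) (nat_lit 0) .nil)))))) (.g (nat_lit 6) .nil .nil))) 
(.lf (nat_lit 78655) (.g (nat_lit 4235) (.e (nat_lit 1803) (nat_lit 119) (.e (nat_lit 516119) (nat_lit 1) (.e (nat_lit 164403) (nat_lit 256) (.e (nat_lit 57373) (nat_lit 2) (.e (nat_lit 90174) (nat_lit 14) (.e (nat_lit 180243) (nat_lit 5) (.e (nat_lit 532513) (nat_lit 3) (.e (nat_lit 114700) (nat_lit 20) .nil)))))))) (.g (nat_lit 6) .nil .nil)))))))))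

noncomputable def tv1064 : DT := (.nd (nat_lit 0) (.nd (nat_lit 1) (.nd (nat_lit 2) (.nd (nat_lit 3) (.nd (nat_lit 4) (.nd (nat_lit 5) 
(.lf (nat_lit 78656) (.g (nat_lit 3602) (.e (nat_lit 1803) (nat_lit 119) (.e (nat_lit 516119) (nat_lit 1) (.e (nat_lit 164403) (nat_lit 256) (.e (nat_lit 57373) (nat_lit 2) (.e (nat_lit 90174) (nat_lit 14) (.e (nat_lit 180243) (nat_lit 5) (.e (nat_lit 532513) (nat_lit 3) (.e (nat_lit 114701) (nat_lit 20) .nil)))))))) (.g (nat_lit 5) .nil .nil))) 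
(.lf (nat_lit 78688) (.g (nat_lit 1816) (.e (nat_lit 1803) (nat_lit 119) (.e (nat_lit 516131) (nat_lit 3) (.e (nat_lit 221193) (nat_lit 11) (.e (nat_lit 336012) (nat_lit 2) (.e (nat_lit 90176) (nat_lit 15) (.e (nat_lit 196352) (nat_lit 0) .nil)))))) (.g (nat_lit 5) .nil .nil)))) (.nd (nat_lit 5) 
(.lf (nat_lit 78672) (.g (nat_lit 2093) (.e (nat_lit 1803) (nat_lit 119) (.e (nat_lit 516129) (nat_lit 3) (.e (nat_lit 221194) (nat_lit 11) (.e (nat_lit 336010) (nat_lit 2) (.e (nat_lit 90176) (nat_lit 15) (.e (nat_lit 196352) (nat_lit 0) .nil)))))) (.g (nat_lit 5) .nil .nil))) 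
(.lf (nat_lit 78704) (.g (nat_lit 4001) (.e (nat_lit 1803) (nat_lit 119) (.e (nat_lit 516131) (nat_lit 3) (.e (nat_lit 221212) (nat_lit 22) (.e (nat_lit 196668) (nat_lit 14) (.e (nat_lit 73747) (nat_lit 3) (.e (nat_lit 516119) (nat_lit 1) (.e (nat_lit 164178) (nat_lit 154) (.e (nat_lit 57345) (nat_lit 0) .nil)))))))) (.g (nat_lit 8) .nil .nil))))) (.nd (nat_lit 4) (.nd (nat_lit 5) 
(.lf (nat_lit 78664) (.g (nat_lit 2972) (.e (nat_lit 1803) (nat_lit 119) (.e (nat_lit 516120) (nat_lit 1) (.e (nat_lit 164329) (nat_lit 230) (.e (nat_lit 163902) (nat_lit 12) (.e (nat_lit 426568) (nat_lit 34) (.e (nat_lit 393279) (nat_lit 23) (.e (nat_lit 426353) (nat_lit 15) .nil))))))) (.g (nat_lit 4) .nil .nil))) 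
(.lf (nat_lit 78696) (.g (nat_lit 714) (.e (nat_lit 1803) (nat_lit 119) (.e (nat_lit 516131) (nat_lit 3) (.e (nat_lit 229120) (nat_lit 12) (.e (nat_lit 344107) (nat_lit 19) (.e (nat_lit 499931) (nat_lit 11) (.e (nat_lit 196352) (nat_lit 0) .nil)))))) (.g (nat_lit 4) .nil .nil)))) (.nd (nat_lit 5) 
(.lf (nat_lit 78680) (.g (nat_lit 1440) (.e (nat_lit 1803) (nat_lit 119) (.e (nat_lit 516129) (nat_lit 3) (.e (nat_lit 229120) (nat_lit 12) (.e (nat_lit 344107) (nat_lit 19) (.e (nat_lit 499930) (nat_lit 11) (.e (nat_lit 196352) (nat_lit 0) .nil)))))) (.g (nat_lit 4) .nil .nil))) 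
(.lf (nat_lit 78712) (.g (nat_lit 3657) (.e (nat_lit 1803) (nat_lit 119) (.e (nat_lit 516131) (nat_lit 3) (.e (nat_lit 221212) (nat_lit 22) (.e (nat_lit 196670) (nat_lit 14) (.e (nat_lit 73746) (nat_lit 3) (.e (nat_lit 516119) (nat_lit 1) (.e (nat_lit 164178) (nat_lit 154) (.e (nat_lit 57345) (nat_lit 0) .nil)))))))) (.g (nat_lit 0) .nil .nil)))))) 
(.nd (nat_lit 3) (.nd (nat_lit 4) (.nd (nat_lit 5) 
(.lf (nat_lit 78660) (.g (nat_lit 2749) (.e (nat_lit 1803) (nat_lit 119) (.e (nat_lit 516120) (nat_lit 1) (.e (nat_lit 164329) (nat_lit 230) (.e (nat_lit 163902) (nat_lit 12) (.e (nat_lit 426566) (nat_lit 34) (.e (nat_lit 393271) (nat_lit 23) (.e (nat_lit 426354) (nat_lit 15) .nil))))))) (.g (nat_lit 4) .nil .nil))) 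
(.lf (nat_lit 78692) (.g (nat_lit 1630) (.e (nat_lit 1803) (nat_lit 119) (.e (nat_lit 516131) (nat_lit 3) (.e (nat_lit 221194) (nat_lit 11) (.e (nat_lit 336010) (nat_lit 2) (.e (nat_lit 90178) (nat_lit 15) (.e (nat_lit 196352) (nat_lit 0) .nil)))))) (.g (nat_lit 5) .nil .nil)))) (.nd (nat_lit 5) 
(.lf (nat_lit 78676) (.g (nat_lit 444) (.e (nat_lit 1803) (nat_lit 119) (.e (nat_lit 516129) (nat_lit 3) (.e (nat_lit 229120) (nat_lit 11) .nil))) .nil)) 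
(.lf (nat_lit 78708) (.g (nat_lit 3971) (.e (nat_lit 1803) (nat_lit 119) (.e (nat_lit 516131) (nat_lit 3) (.e (nat_lit 221212) (nat_lit 22) (.e (nat_lit 196670) (nat_lit 14) (.e (nat_lit 73746) (nat_lit 3) (.e (nat_lit 516115) (nat_lit 1) (.e (nat_lit 164179) (nat_lit 154) (.e (nat_lit 57345) (nat_lit 0) .nil)))))))) (.g (nat_lit 7) .nil .nil))))) (.nd (nat_lit 4) (.nd (nat_lit 5) 
(.lf (nat_lit 78668) (.g (nat_lit 1923) (.e (nat_lit 1803) (nat_lit 119) (.e (nat_lit 516129) (nat_lit 3) (.e (nat_lit 221193) (nat_lit 11) (.e (nat_lit 336010) (nat_lit 2) (.e (nat_lit 90176) (nat_lit 15) (.e (nat_lit 196352) (nat_lit 0) .nil)))))) (.g (nat_lit 5) .nil .nil))) 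
(.lf (nat_lit 78700) (.g (nat_lit 3898) (.e (nat_lit 1803) (nat_lit 119) (.e (nat_lit 516131) (nat_lit 3) (.e (nat_lit 221212) (nat_lit 22) (.e (nat_lit 196668) (nat_lit 14) (.e (nat_lit 73747) (nat_lit 3) (.e (nat_lit 516115) (nat_lit 1) (.e (nat_lit 164179) (nat_lit 154) (.e (nat_lit 57349) (nat_lit 0) .nil)))))))) (.g (nat_lit 7) .nil .nil)))) (.nd (nat_lit 5) 
(.lf (nat_lit 78684) (.g (nat_lit 1958) (.e (nat_lit 1803) (nat_lit 119) (.e (nat_lit 516131) (nat_lit 3) (.e (nat_lit 221190) (nat_lit 11) (.e (nat_lit 336012) (nat_lit 2) (.e (nat_lit 90178) (nat_lit 15) (.e (nat_lit 196352) (nat_lit 0) .nil)))))) (.g (nat_lit 5) .nil .nil))) 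
(.lf (nat_lit 78716) (.g (nat_lit 1464) (.e (nat_lit 1803) (nat_lit 119) (.e (nat_lit 516131) (nat_lit 3) (.e (nat_lit 221212) (nat_lit 22) (.e (nat_lit 196681) (nat_lit 17) (.e (nat_lit 131098) (nat_lit 3) .nil))))) .nil)))))) (.nd (nat_lit 2) (.nd (nat_lit 3) (.nd (nat_lit 4) (.nd (nat_lit 5) 
(.lf (nat_lit 78658) (.g (nat_lit 3569) (.e (nat_lit 1803) (nat_lit 119) (.e (nat_lit 516119) (nat_lit 1) (.e (nat_lit 164403) (nat_lit 256) (.e (nat_lit 57373) (nat_lit 2) (.e (nat_lit 90174) (nat_lit 14) (.e (nat_lit 180243) (nat_lit 5) (.e (nat_lit 532515) (nat_lit 3) (.e (nat_lit 114701) (nat_lit 20) .nil)))))))) (.g (nat_lit 5) .nil .nil))) 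
(.lf (nat_lit 78690) (.g (nat_lit 1256) (.e (nat_lit 1803) (nat_lit 119) (.e (nat_lit 516131) (nat_lit 3) (.e (nat_lit 221194) (nat_lit 11) (.e (nat_lit 336009) (nat_lit 2) .nil)))) .nil))) (.nd (nat_lit 5) 
(.lf (nat_lit 78674) (.g (nat_lit 2592) (.e (nat_lit 1803) (nat_lit 119) (.e (nat_lit 516129) (nat_lit 3) (.e (nat_lit 221194) (nat_lit 11) (.e (nat_lit 336012) (nat_lit 2) (.e (nat_lit 90176) (nat_lit 15) (.e (nat_lit 196352) (nat_lit 0) .nil)))))) (.g (nat_lit 5) .nil .nil))) 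
(.lf (nat_lit 78706) (.g (nat_lit 3417) (.e (nat_lit 1803) (nat_lit 119) (.e (nat_lit 516131) (nat_lit 3) (.e (nat_lit 221212) (nat_lit 22) (.e (nat_lit 196670) (nat_lit 14) (.e (nat_lit 73746) (nat_lit 3) (.e (nat_lit 516115) (nat_lit 1) (.e (nat_lit 164178) (nat_lit 154) (.e (nat_lit 57345) (nat_lit 0) .nil)))))))) (.g (nat_lit 0) .nil .nil))))) (.nd (nat_lit 4) (.nd (nat_lit 5) 
(.lf (nat_lit 78666) (.g (nat_lit 2511) (.e (nat_lit 1803) (nat_lit 119) (.e (nat_lit 516129) (nat_lit 3) (.e (nat_lit 221190) (nat_lit 11) (.e (nat_lit 336012) (nat_lit 2) (.e (nat_lit 90178) (nat_lit 15) (.e (nat_lit 196352) (nat_lit 0) .nil)))))) (.g (nat_lit 5) .nil .nil))) 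
(.lf (nat_lit 78698) (.g (nat_lit 3523) (.e (nat_lit 1803) (nat_lit 119) (.e (nat_lit 516131) (nat_lit 3) (.e (nat_lit 221212) (nat_lit 22) (.e (nat_lit 196668) (nat_lit 14) (.e (nat_lit 73747) (nat_lit 3) (.e (nat_lit 516115) (nat_lit 1) (.e (nat_lit 164178) (nat_lit 154) (.e (nat_lit 57349) (nat_lit 0) .nil)))))))) (.g (nat_lit 8) .nil .nil)))) (.nd (nat_lit 5) 
(.lf (nat_lit 78682) (.g (nat_lit 2211) (.e (nat_lit 1803) (nat_lit 119) (.e (nat_lit 516129) (nat_lit 3) (.e (nat_lit 221206) (nat_lit 21) (.e (nat_lit 164196) (nat_lit 158) (.e (nat_lit 1182) (nat_lit 87) (.e (nat_lit 57479) (nat_lit 28) (.e (nat_lit 557107) (nat_lit 15) (.e (nat_lit 196352) (nat_lit 0) .nil)))))))) (.g (nat_lit 4) .nil .nil))) 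
(.lf (nat_lit 78714) (.g (nat_lit 3231) (.e (nat_lit 1803) (nat_lit 119) (.e (nat_lit 516131) (nat_lit 3) (.e (nat_lit 221212) (nat_lit 22) (.e (nat_lit 196670) (nat_lit 14) (.e (nat_lit 73746) (nat_lit 3) (.e (nat_lit 516119) (nat_lit 1) (.e (nat_lit 164179) (nat_lit 154) (.e (nat_lit 57349) (nat_lit 0) .nil)))))))) (.g (nat_lit 7) .nil .nil)))))) 
(.nd (nat_lit 3) (.nd (nat_lit 4) (.nd (nat_lit 5) 
(.lf (nat_lit 78662) (.g (nat_lit 3590) (.e (nat_lit 1803) (nat_lit 119) (.e (nat_lit 516120) (nat_lit 1) (.e (nat_lit 164329) (nat_lit 230) (.e (nat_lit 163902) (nat_lit 12) (.e (nat_lit 426568) (nat_lit 34) (.e (nat_lit 393271) (nat_lit 23) (.e (nat_lit 426354) (nat_lit 15) .nil))))))) (.g (nat_lit 5) .nil .nil))) 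
(.lf (nat_lit 78694) (.g (nat_lit 1984) (.e (nat_lit 1803) (nat_lit 119) (.e (nat_lit 516131) (nat_lit 3) (.e (nat_lit 221194) (nat_lit 11) (.e (nat_lit 336012) (nat_lit 2) (.e (nat_lit 90178) (nat_lit 15) (.e (nat_lit 196352) (nat_lit 0) .nil)))))) (.g (nat_lit 4) .nil .nil)))) (.nd (nat_lit 5) 
(.lf (nat_lit 78678) (.g (nat_lit 1924) (.e (nat_lit 1803) (nat_lit 119) (.e (nat_lit 516129) (nat_lit 3) (.e (nat_lit 229120) (nat_lit 11) (.e (nat_lit 336012) (nat_lit 2) (.e (nat_lit 90176) (nat_lit 15) (.e (nat_lit 196352) (nat_lit 0) .nil)))))) (.g (nat_lit 5) .nil .nil))) 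
(.lf (nat_lit 78710) (.g (nat_lit 3309) (.e (nat_lit 1803) (nat_lit 119) (.e (nat_lit 516131) (nat_lit 3) (.e (nat_lit 221212) (nat_lit 22) (.e (nat_lit 196670) (nat_lit 14) (.e (nat_lit 73746) (nat_lit 3) (.e (nat_lit 516115) (nat_lit 1) (.e (nat_lit 164182) (nat_lit 154) (.e (nat_lit 57351) (nat_lit 0) .nil)))))))) (.g (nat_lit 8) .nil .nil))))) (.nd (nat_lit 4) (.nd (nat_lit 5) 
(.lf (nat_lit 78670) (.g (nat_lit 2213) (.e (nat_lit 1803) (nat_lit 119) (.e (nat_lit 516129) (nat_lit 3) (.e (nat_lit 221193) (nat_lit 11) (.e (nat_lit 336012) (nat_lit 2) (.e (nat_lit 90176) (nat_lit 15) (.e (nat_lit 196352) (nat_lit 0) .nil)))))) (.g (nat_lit 5) .nil .nil))) 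
(.lf (nat_lit 78702) (.g (nat_lit 3541) (.e (nat_lit 1803) (nat_lit 119) (.e (nat_lit 516131) (nat_lit 3) (.e (nat_lit 221212) (nat_lit 22) (.e (nat_lit 196668) (nat_lit 14) (.e (nat_lit 73747) (nat_lit 3) (.e (nat_lit 516119) (nat_lit 1) (.e (nat_lit 164176) (nat_lit 154) (.e (nat_lit 57345) (nat_lit 0) .nil)))))))) (.g (nat_lit 8) .nil .nil)))) (.nd (nat_lit 5) 
(.lf (nat_lit 78686) (.g (nat_lit 1506) (.e (nat_lit 1803) (nat_lit 119) (.e (nat_lit 516131) (nat_lit 3) (.e (nat_lit 221193) (nat_lit 11) (.e (nat_lit 336010) (nat_lit 2) (.e (nat_lit 90176) (nat_lit 15) (.e (nat_lit 196352) (nat_lit 0) .nil)))))) (.g (nat_lit 5) .nil .nil))) 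
(.lf (nat_lit 78718) (.g (nat_lit 1076) (.e (nat_lit 1803) (nat_lit 119) (.e (nat_lit 516131) (nat_lit 3) (.e (nat_lit 221215) (nat_lit 23) (.e (nat_lit 204828) (nat_lit 18) .nil)))) .nil))))))) (.nd (nat_lit 1) (.nd (nat_lit 2) (.nd (nat_lit 3) (.nd (nat_lit 4) (.nd (nat_lit 5) 
(.lf (nat_lit 78657) (.g (nat_lit 2781) (.e (nat_lit 1803) (nat_lit 119) (.e (nat_lit 516119) (nat_lit 1) (.e (nat_lit 164403) (nat_lit 256) (.e (nat_lit 57373) (nat_lit 2) (.e (nat_lit 90174) (nat_lit 14) (.e (nat_lit 180243) (nat_lit 5) (.e (nat_lit 532515) (nat_lit 3) (.e (nat_lit 114700) (nat_lit 20) .nil)))))))) (.g (nat_lit 4) .nil .nil))) 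
(.lf (nat_lit 78689) (.g (nat_lit 1837) (.e (nat_lit 1803) (nat_lit 119) (.e (nat_lit 516131) (nat_lit 3) (.e (nat_lit 221194) (nat_lit 11) (.e (nat_lit 336004) (nat_lit 2) (.e (nat_lit 90176) (nat_lit 15) (.e (nat_lit 196352) (nat_lit 0) .nil)))))) (.g (nat_lit 4) .nil .nil)))) (.nd (nat_lit 5) 
(.lf (nat_lit 78673) (.g (nat_lit 2111) (.e (nat_lit 1803) (nat_lit 119) (.e (nat_lit 516129) (nat_lit 3) (.e (nat_lit 221194) (nat_lit 11) (.e (nat_lit 336010) (nat_lit 2) (.e (nat_lit 90178) (nat_lit 15) (.e (nat_lit 196352) (nat_lit 0) .nil)))))) (.g (nat_lit 5) .nil .nil))) 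
(.lf (nat_lit 78705) (.g (nat_lit 3822) (.e (nat_lit 1803) (nat_lit 119) (.e (nat_lit 516131) (nat_lit 3) (.e (nat_lit 221212) (nat_lit 22) (.e (nat_lit 196668) (nat_lit 14) (.e (nat_lit 73747) (nat_lit 3) (.e (nat_lit 516119) (nat_lit 1) (.e (nat_lit 164178) (nat_lit 154) (.e (nat_lit 57349) (nat_lit 0) .nil)))))))) (.g (nat_lit 8) .nil .nil))))) (.nd (nat_lit 4) (.nd (nat_lit 5) 
(.lf (nat_lit 78665) (.g (nat_lit 2501) (.e (nat_lit 1803) (nat_lit 119) (.e (nat_lit 516129) (nat_lit 3) (.e (nat_lit 221190) (nat_lit 11) (.e (nat_lit 336012) (nat_lit 2) (.e (nat_lit 90176) (nat_lit 15) (.e (nat_lit 196352) (nat_lit 0) .nil)))))) (.g (nat_lit 5) .nil .nil))) 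
(.lf (nat_lit 78697) (.g (nat_lit 3702) (.e (nat_lit 1803) (nat_lit 119) (.e (nat_lit 516131) (nat_lit 3) (.e (nat_lit 221212) (nat_lit 22) (.e (nat_lit 196668) (nat_lit 14) (.e (nat_lit 73747) (nat_lit 3) (.e (nat_lit 516115) (nat_lit 1) (.e (nat_lit 164178) (nat_lit 154) (.e (nat_lit 57345) (nat_lit 0) .nil)))))))) (.g (nat_lit 0) .nil .nil)))) (.nd (nat_lit 5) 
(.lf (nat_lit 78681) (.g (nat_lit 1466) (.e (nat_lit 1803) (nat_lit 119) (.e (nat_lit 516129) (nat_lit 3) (.e (nat_lit 229120) (nat_lit 12) (.e (nat_lit 344107) (nat_lit 19) (.e (nat_lit 499931) (nat_lit 11) (.e (nat_lit 196352) (nat_lit 0) .nil)))))) (.g (nat_lit 4) .nil .nil))) 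
(.lf (nat_lit 78713) (.g (nat_lit 3478) (.e (nat_lit 1803) (nat_lit 119) (.e (nat_lit 516131) (nat_lit 3) (.e (nat_lit 221212) (nat_lit 22) (.e (nat_lit 196670) (nat_lit 14) (.e (nat_lit 73746) (nat_lit 3) (.e (nat_lit 516119) (nat_lit 1) (.e (nat_lit 164178) (nat_lit 154) (.e (nat_lit 57349) (nat_lit 0) .nil)))))))) (.g (nat_lit 8) .nil .nil)))))) 
(.nd (nat_lit 3) (.nd (nat_lit 4) (.nd (nat_lit 5) 
(.lf (nat_lit 78661) (.g (nat_lit 2711) (.e (nat_lit 1803) (nat_lit 119) (.e (nat_lit 516120) (nat_lit 1) (.e (nat_lit 164329) (nat_lit 230) (.e (nat_lit 163902) (nat_lit 12) (.e (nat_lit 426568) (nat_lit 34) .nil))))) .nil)) 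
(.lf (nat_lit 78693) (.g (nat_lit 2025) (.e (nat_lit 1803) (nat_lit 119) (.e (nat_lit 516131) (nat_lit 3) (.e (nat_lit 221194) (nat_lit 11) (.e (nat_lit 336012) (nat_lit 2) (.e (nat_lit 90176) (nat_lit 15) (.e (nat_lit 196352) (nat_lit 0) .nil)))))) (.g (nat_lit 5) .nil .nil)))) (.nd (nat_lit 5) 
(.lf (nat_lit 78677) (.g (nat_lit 1919) (.e (nat_lit 1803) (nat_lit 119) (.e (nat_lit 516129) (nat_lit 3) (.e (nat_lit 229120) (nat_lit 11) (.e (nat_lit 336004) (nat_lit 2) (.e (nat_lit 90176) (nat_lit 15) (.e (nat_lit 196352) (nat_lit 0) .nil)))))) (.g (nat_lit 5) .nil .nil))) 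
(.lf (nat_lit 78709) (.g (nat_lit 4187) (.e (nat_lit 1803) (nat_lit 119) (.e (nat_lit 516131) (nat_lit 3) (.e (nat_lit 221212) (nat_lit 22) (.e (nat_lit 196670) (nat_lit 14) (.e (nat_lit 73746) (nat_lit 3) (.e (nat_lit 516115) (nat_lit 1) (.e (nat_lit 164179) (nat_lit 154) (.e (nat_lit 57349) (nat_lit 0) .nil)))))))) (.g (nat_lit 8) .nil .nil))))) (.nd (nat_lit 4) (.nd (nat_lit 5) 
(.lf (nat_lit 78669) (.g (nat_lit 1949) (.e (nat_lit 1803) (nat_lit 119) (.e (nat_lit 516129) (nat_lit 3) (.e (nat_lit 221193) (nat_lit 11) (.e (nat_lit 336010) (nat_lit 2) (.e (nat_lit 90178) (nat_lit 15) (.e (nat_lit 196352) (nat_lit 0) .nil)))))) (.g (nat_lit 5) .nil .nil))) 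
(.lf (nat_lit 78701) (.g (nat_lit 3904) (.e (nat_lit 1803) (nat_lit 119) (.e (nat_lit 516131) (nat_lit 3) (.e (nat_lit 221212) (nat_lit 22) (.e (nat_lit 196668) (nat_lit 14) (.e (nat_lit 73747) (nat_lit 3) (.e (nat_lit 516115) (nat_lit 1) (.e (nat_lit 164182) (nat_lit 154) (.e (nat_lit 57351) (nat_lit 0) .nil)))))))) (.g (nat_lit 8) .nil .nil)))) (.nd (nat_lit 5) 
(.lf (nat_lit 78685) (.g (nat_lit 516) (.e (nat_lit 1803) (nat_lit 119) (.e (nat_lit 516131) (nat_lit 3) (.e (nat_lit 221191) (nat_lit 11) .nil))) .nil)) 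
(.lf (nat_lit 78717) (.g (nat_lit 2477) (.e (nat_lit 1803) (nat_lit 119) (.e (nat_lit 516131) (nat_lit 3) (.e (nat_lit 221214) (nat_lit 23) (.e (nat_lit 204852) (nat_lit 26) (.e (nat_lit 336326) (nat_lit 18) (.e (nat_lit 204831) (nat_lit 18) (.e (nat_lit 57854) (nat_lit 252) (.e (nat_lit 57351) (nat_lit 0) .nil)))))))) (.g (nat_lit 4) .nil .nil))))))) 
(.nd (nat_lit 2) (.nd (nat_lit 3) (.nd (nat_lit 4) (.nd (nat_lit 5) 
(.lf (nat_lit 78659) (.g (nat_lit 1511) (.e (nat_lit 1803) (nat_lit 119) (.e (nat_lit 516119) (nat_lit 1) (.e (nat_lit 164403) (nat_lit 256) (.e (nat_lit 57378) (nat_lit 3) .nil)))) .nil)) 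
(.lf (nat_lit 78691) (.g (nat_lit 1607) (.e (nat_lit 1803) (nat_lit 119) (.e (nat_lit 516131) (nat_lit 3) (.e (nat_lit 221194) (nat_lit 11) (.e (nat_lit 336010) (nat_lit 2) (.e (nat_lit 90176) (nat_lit 15) (.e (nat_lit 196352) (nat_lit 0) .nil)))))) (.g (nat_lit 5) .nil .nil)))) (.nd (nat_lit 5) 
(.lf (nat_lit 78675) (.g (nat_lit 2567) (.e (nat_lit 1803) (nat_lit 119) (.e (nat_lit 516129) (nat_lit 3) (.e (nat_lit 221194) (nat_lit 11) (.e (nat_lit 336012) (nat_lit 2) (.e (nat_lit 90178) (nat_lit 15) (.e (nat_lit 196352) (nat_lit 0) .nil)))))) (.g (nat_lit 5) .nil .nil))) 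
(.lf (nat_lit 78707) (.g (nat_lit 3238) (.e (nat_lit 1803) (nat_lit 119) (.e (nat_lit 516131) (nat_lit 3) (.e (nat_lit 221212) (nat_lit 22) (.e (nat_lit 196670) (nat_lit 14) (.e (nat_lit 73746) (nat_lit 3) (.e (nat_lit 516115) (nat_lit 1) (.e (nat_lit 164178) (nat_lit 154) (.e (nat_lit 57349) (nat_lit 0) .nil)))))))) (.g (nat_lit 7) .nil .nil))))) (.nd (nat_lit 4) (.nd (nat_lit 5) 
(.lf (nat_lit 78667) (.g (nat_lit 1725) (.e (nat_lit 1803) (nat_lit 119) (.e (nat_lit 516129) (nat_lit 3) (.e (nat_lit 221193) (nat_lit 11) (.e (nat_lit 336004) (nat_lit 2) (.e (nat_lit 90176) (nat_lit 15) (.e (nat_lit 196352) (nat_lit 0) .nil)))))) (.g (nat_lit 4) .nil .nil))) 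
(.lf (nat_lit 78699) (.g (nat_lit 3682) (.e (nat_lit 1803) (nat_lit 119) (.e (nat_lit 516131) (nat_lit 3) (.e (nat_lit 221212) (nat_lit 22) (.e (nat_lit 196668) (nat_lit 14) (.e (nat_lit 73747) (nat_lit 3) (.e (nat_lit 516115) (nat_lit 1) (.e (nat_lit 164179) (nat_lit 154) (.e (nat_lit 57345) (nat_lit 0) .nil)))))))) (.g (nat_lit 7) .nil .nil)))) (.nd (nat_lit 5) 
(.lf (nat_lit 78683) (.g (nat_lit 1949) (.e (nat_lit 1803) (nat_lit 119) (.e (nat_lit 516131) (nat_lit 3) (.e (nat_lit 221190) (nat_lit 11) (.e (nat_lit 336012) (nat_lit 2) (.e (nat_lit 90176) (nat_lit 15) (.e (nat_lit 196352) (nat_lit 0) .nil)))))) (.g (nat_lit 5) .nil .nil))) 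
(.lf (nat_lit 78715) (.g (nat_lit 1421) (.e (nat_lit 1803) (nat_lit 119) (.e (nat_lit 516131) (nat_lit 3) (.e (nat_lit 221212) (nat_lit 22) (.e (nat_lit 196681) (nat_lit 17) (.e (nat_lit 131096) (nat_lit 3) .nil))))) .nil))))) (.nd (nat_lit 3) (.nd (nat_lit 4) (.nd (nat_lit 5) 
(.lf (nat_lit 78663) (.g (nat_lit 3546) (.e (nat_lit 1803) (nat_lit 119) (.e (nat_lit 516120) (nat_lit 1) (.e (nat_lit 164329) (nat_lit 230) (.e (nat_lit 163902) (nat_lit 12) (.e (nat_lit 426568) (nat_lit 34) (.e (nat_lit 393271) (nat_lit 23) (.e (nat_lit 426361) (nat_lit 15) .nil))))))) (.g (nat_lit 5) .nil .nil))) 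
(.lf (nat_lit 78695) (.g (nat_lit 709) (.e (nat_lit 1803) (nat_lit 119) (.e (nat_lit 516131) (nat_lit 3) (.e (nat_lit 229120) (nat_lit 12) (.e (nat_lit 344107) (nat_lit 19) (.e (nat_lit 499930) (nat_lit 11) .nil))))) .nil))) (.nd (nat_lit 5) 
(.lf (nat_lit 78679) (.g (nat_lit 444) (.e (nat_lit 1803) (nat_lit 119) (.e (nat_lit 516129) (nat_lit 3) (.e (nat_lit 229120) (nat_lit 12) .nil))) .nil)) 
(.lf (nat_lit 78711) (.g (nat_lit 2924) (.e (nat_lit 1803) (nat_lit 119) (.e (nat_lit 516131) (nat_lit 3) (.e (nat_lit 221212) (nat_lit 22) (.e (nat_lit 196670) (nat_lit 14) (.e (nat_lit 73746) (nat_lit 3) (.e (nat_lit 516119) (nat_lit 1) (.e (nat_lit 164176) (nat_lit 154) (.e (nat_lit 57345) (nat_lit 0) .nil)))))))) (.g (nat_lit 7) .nil .nil))))) (.nd (nat_lit 4) (.nd (nat_lit 5) 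
(.lf (nat_lit 78671) (.g (nat_lit 2161) (.e (nat_lit 1803) (nat_lit 119) (.e (nat_lit 516129) (nat_lit 3) (.e (nat_lit 221193) (nat_lit 11) (.e (nat_lit 336012) (nat_lit 2) (.e (nat_lit 90178) (nat_lit 15) (.e (nat_lit 196352) (nat_lit 0) .nil)))))) (.g (nat_lit 5) .nil .nil))) 
(.lf (nat_lit 78703) (.g (nat_lit 3373) (.e (nat_lit 1803) (nat_lit 119) (.e (nat_lit 516131) (nat_lit 3) (.e (nat_lit 221212) (nat_lit 22) (.e (nat_lit 196668) (nat_lit 14) (.e (nat_lit 73747) (nat_lit 3) (.e (nat_lit 516119) (nat_lit 1) (.e (nat_lit 164176) (nat_lit 154) (.e (nat_lit 57349) (nat_lit 0) .nil)))))))) (.g (nat_lit 7) .nil .nil)))) (.nd (nat_lit 5) 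
(.lf (nat_lit 78687) (.g (nat_lit 1532) (.e (nat_lit 1803) (nat_lit 119) (.e (nat_lit 516131) (nat_lit 3) (.e (nat_lit 221193) (nat_lit 11) (.e (nat_lit 336010) (nat_lit 2) (.e (nat_lit 90178) (nat_lit 15) (.e (nat_lit 196352) (nat_lit 0) .nil)))))) (.g (nat_lit 5) .nil .nil))) 
(.lf (nat_lit 78719) (.g (nat_lit 1808) (.e (nat_lit 1803) (nat_lit 119) (.e (nat_lit 516131) (nat_lit 3) (.e (nat_lit 221215) (nat_lit 23) (.e (nat_lit 204852) (nat_lit 26) (.e (nat_lit 336326) (nat_lit 18) .nil))))) .nil))))))))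

noncomputable def tv1065 : DT := (.nd (nat_lit 0) (.nd (nat_lit 1) (.nd (nat_lit 2) (.nd (nat_lit 3) (.nd (nat_lit 4) (.nd (nat_lit 5) (.nd (nat_lit 6) 
(.lf (nat_lit 78720) (.g (nat_lit 2241) (.e (nat_lit 1803) (nat_lit 119) (.e (nat_lit 516131) (nat_lit 3) (.e (nat_lit 221215) (nat_lit 23) (.e (nat_lit 204880) (nat_lit 32) (.e (nat_lit 385068) (nat_lit 26) .nil))))) .nil)) 
(.lf (nat_lit 78784) (.g (nat_lit 2206) (.e (nat_lit 1806) (nat_lit 119) (.e (nat_lit 516119) (nat_lit 1) (.e (nat_lit 164403) (nat_lit 256) (.e (nat_lit 57373) (nat_lit 2) (.e (nat_lit 90170) (nat_lit 13) .nil))))) .nil))) (.nd (nat_lit 6) 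
(.lf (nat_lit 78752) (.g (nat_lit 4818) (.e (nat_lit 1803) (nat_lit 119) (.e (nat_lit 516166) (nat_lit 12) (.e (nat_lit 450588) (nat_lit 10) (.e (nat_lit 573475) (nat_lit 12) (.e (nat_lit 57574) (nat_lit 55) .nil))))) .nil)) 
(.lf (nat_lit 78816) (.g (nat_lit 1879) (.e (nat_lit 1808) (nat_lit 120) (.e (nat_lit 524322) (nat_lit 12) (.e (nat_lit 450588) (nat_lit 10) (.e (nat_lit 573474) (nat_lit 12) .nil)))) .nil)))) (.nd (nat_lit 5) (.nd (nat_lit 6) 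
(.lf (nat_lit 78736) (.g (nat_lit 4172) (.e (nat_lit 1803) (nat_lit 119) (.e (nat_lit 516166) (nat_lit 12) (.e (nat_lit 450587) (nat_lit 10) (.e (nat_lit 573469) (nat_lit 11) .nil)))) .nil)) 
(.lf (nat_lit 78800) (.g (nat_lit 2426) (.e (nat_lit 1807) (nat_lit 119) (.e (nat_lit 516120) (nat_lit 1) (.e (nat_lit 164329) (nat_lit 230) (.e (nat_lit 163902) (nat_lit 12) (.e (nat_lit 426568) (nat_lit 34) .nil))))) .nil))) (.nd (nat_lit 6) 
(.lf (nat_lit 78768) (.g (nat_lit 2412) (.e (nat_lit 1804) (nat_lit 119) (.e (nat_lit 516120) (nat_lit 1) (.e (nat_lit 164329) (nat_lit 230) (.e (nat_lit 163902) (nat_lit 12) (.e (nat_lit 426568) (nat_lit 34) .nil))))) .nil)) 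
(.lf (nat_lit 78832) (.g (nat_lit 3418) (.e (nat_lit 1809) (nat_lit 120) (.e (nat_lit 524322) (nat_lit 12) (.e (nat_lit 450588) (nat_lit 10) (.e (nat_lit 573452) (nat_lit 9) (.e (nat_lit 430) (nat_lit 32) .nil))))) .nil))))) (.nd (nat_lit 4) (.nd (nat_lit 5) (.nd (nat_lit 6) 
(.lf (nat_lit 78728) (.g (nat_lit 5447) (.e (nat_lit 1803) (nat_lit 119) (.e (nat_lit 516151) (nat_lit 9) (.e (nat_lit 426211) (nat_lit 9) (.e (nat_lit 426125) (nat_lit 2) (.e (nat_lit 196626) (nat_lit 9) .nil))))) .nil)) 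
(.lf (nat_lit 78792) (.g (nat_lit 2462) (.e (nat_lit 1806) (nat_lit 119) (.e (nat_lit 516120) (nat_lit 1) (.e (nat_lit 164401) (nat_lit 256) (.e (nat_lit 57373) (nat_lit 2) (.e (nat_lit 90174) (nat_lit 14) .nil))))) .nil))) (.nd (nat_lit 6) 
(.lf (nat_lit 78760) (.g (nat_lit 1799) (.e (nat_lit 1803) (nat_lit 119) (.e (nat_lit 516179) (nat_lit 15) (.e (nat_lit 475177) (nat_lit 24) (.e (nat_lit 516182) (nat_lit 15) .nil)))) .nil)) 
(.lf (nat_lit 78824) (.g (nat_lit 3552) (.e (nat_lit 1809) (nat_lit 120) (.e (nat_lit 524320) (nat_lit 12) (.e (nat_lit 450579) (nat_lit 5) (.e (nat_lit 532523) (nat_lit 7) (.e (nat_lit 319531) (nat_lit 16) (.e (nat_lit 286727) (nat_lit 0) .nil)))))) (.g (nat_lit 6) .nil .nil))))) (.nd (nat_lit 5) (.nd (nat_lit 6) 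
(.lf (nat_lit 78744) (.g (nat_lit 4727) (.e (nat_lit 1803) (nat_lit 119) (.e (nat_lit 516166) (nat_lit 12) (.e (nat_lit 450587) (nat_lit 10) (.e (nat_lit 573478) (nat_lit 12) (.e (nat_lit 57574) (nat_lit 55) (.e (nat_lit 778466) (nat_lit 11) (.e (nat_lit 24577) (nat_lit 0) .nil))))))) (.g (nat_lit 4) .nil .nil))) 
(.lf (nat_lit 78808) (.g (nat_lit 3738) (.e (nat_lit 7936) (nat_lit 119) (.e (nat_lit 516185) (nat_lit 16) (.e (nat_lit 491563) (nat_lit 12) (.e (nat_lit 385074) (nat_lit 31) (.e (nat_lit 573491) (nat_lit 15) .nil))))) .nil))) (.nd (nat_lit 6) 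
(.lf (nat_lit 78776) (.g (nat_lit 2437) (.e (nat_lit 1805) (nat_lit 119) (.e (nat_lit 516119) (nat_lit 1) (.e (nat_lit 164403) (nat_lit 256) (.e (nat_lit 57371) (nat_lit 2) (.e (nat_lit 90174) (nat_lit 14) .nil))))) .nil)) 
(.lf (nat_lit 78840) (.g (nat_lit 2737) (.e (nat_lit 1809) (nat_lit 120) (.e (nat_lit 524322) (nat_lit 12) (.e (nat_lit 450588) (nat_lit 10) (.e (nat_lit 573471) (nat_lit 11) (.e (nat_lit 16473) (nat_lit 14) .nil))))) .nil)))))) (.nd (nat_lit 3) (.nd (nat_lit 4) (.nd (nat_lit 5) (.nd (nat_lit 6) 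
(.lf (nat_lit 78724) (.g (nat_lit 2274) (.e (nat_lit 1803) (nat_lit 119) (.e (nat_lit 516146) (nat_lit 9) (.e (nat_lit 426438) (nat_lit 18) (.e (nat_lit 98384) (nat_lit 32) (.e (nat_lit 475177) (nat_lit 24) (.e (nat_lit 516150) (nat_lit 9) (.e (nat_lit 426360) (nat_lit 15) .nil))))))) (.g (nat_lit 4) .nil .nil))) 
(.lf (nat_lit 78788) (.g (nat_lit 2583) (.e (nat_lit 1806) (nat_lit 119) (.e (nat_lit 516119) (nat_lit 1) (.e (nat_lit 164403) (nat_lit 256) (.e (nat_lit 57373) (nat_lit 2) (.e (nat_lit 90174) (nat_lit 14) (.e (nat_lit 180243) (nat_lit 5) (.e (nat_lit 532515) (nat_lit 3) (.e (nat_lit 114702) (nat_lit 20) .nil)))))))) (.g (nat_lit 4) .nil .nil)))) (.nd (nat_lit 6) 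
(.lf (nat_lit 78756) (.g (nat_lit 5501) (.e (nat_lit 1803) (nat_lit 119) (.e (nat_lit 516166) (nat_lit 12) (.e (nat_lit 450588) (nat_lit 10) (.e (nat_lit 573475) (nat_lit 12) (.e (nat_lit 57574) (nat_lit 55) (.e (nat_lit 778465) (nat_lit 11) (.e (nat_lit 24583) (nat_lit 0) .nil))))))) (.g (nat_lit 5) .nil .nil))) 
(.lf (nat_lit 78820) (.g (nat_lit 2838) (.e (nat_lit 1808) (nat_lit 120) (.e (nat_lit 524322) (nat_lit 12) (.e (nat_lit 450588) (nat_lit 10) (.e (nat_lit 573475) (nat_lit 12) (.e (nat_lit 57574) (nat_lit 55) (.e (nat_lit 778466) (nat_lit 11) (.e (nat_lit 24578) (nat_lit 0) .nil))))))) (.g (nat_lit 4) .nil .nil))))) (.nd (nat_lit 5) (.nd (nat_lit 6) 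
(.lf (nat_lit 78740) (.g (nat_lit 5267) (.e (nat_lit 1803) (nat_lit 119) (.e (nat_lit 516166) (nat_lit 12) (.e (nat_lit 450587) (nat_lit 10) (.e (nat_lit 573477) (nat_lit 12) (.e (nat_lit 57574) (nat_lit 55) (.e (nat_lit 778466) (nat_lit 11) (.e (nat_lit 24577) (nat_lit 0) .nil))))))) (.g (nat_lit 5) .nil .nil))) 
(.lf (nat_lit 78804) (.g (nat_lit 693) (.e (nat_lit 7936) (nat_lit 119) (.e (nat_lit 516166) (nat_lit 12) (.e (nat_lit 450579) (nat_lit 5) .nil))) .nil))) (.nd (nat_lit 6) 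
(.lf (nat_lit 78772) (.g (nat_lit 1571) (.e (nat_lit 1804) (nat_lit 119) (.e (nat_lit 516127) (nat_lit 2) (.e (nat_lit 213032) (nat_lit 11) (.e (nat_lit 24604) (nat_lit 2) (.e (nat_lit 90176) (nat_lit 15) (.e (nat_lit 196352) (nat_lit 0) .nil)))))) (.g (nat_lit 4) .nil .nil))) 
(.lf (nat_lit 78836) (.g (nat_lit 3476) (.e (nat_lit 1809) (nat_lit 120) (.e (nat_lit 524322) (nat_lit 12) (.e (nat_lit 450588) (nat_lit 10) (.e (nat_lit 573470) (nat_lit 11) (.e (nat_lit 16473) (nat_lit 14) (.e (nat_lit 491525) (nat_lit 0) .nil)))))) (.g (nat_lit 0) .nil .nil)))))) (.nd (nat_lit 4) (.nd (nat_lit 5) (.nd (nat_lit 6) 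
(.lf (nat_lit 78732) (.g (nat_lit 2152) (.e (nat_lit 1803) (nat_lit 119) (.e (nat_lit 516151) (nat_lit 9) (.e (nat_lit 426286) (nat_lit 10) .nil))) .nil)) 
(.lf (nat_lit 78796) (.g (nat_lit 3201) (.e (nat_lit 1807) (nat_lit 119) (.e (nat_lit 516119) (nat_lit 1) (.e (nat_lit 164403) (nat_lit 256) (.e (nat_lit 57371) (nat_lit 2) (.e (nat_lit 90172) (nat_lit 14) (.e (nat_lit 180244) (nat_lit 5) (.e (nat_lit 532513) (nat_lit 3) (.e (nat_lit 114700) (nat_lit 20) .nil)))))))) (.g (nat_lit 5) .nil .nil)))) (.nd (nat_lit 6) 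
(.lf (nat_lit 78764) (.g (nat_lit 2555) (.e (nat_lit 1804) (nat_lit 119) (.e (nat_lit 516119) (nat_lit 1) (.e (nat_lit 164403) (nat_lit 256) (.e (nat_lit 57371) (nat_lit 2) (.e (nat_lit 90174) (nat_lit 14) (.e (nat_lit 180243) (nat_lit 5) (.e (nat_lit 532513) (nat_lit 3) (.e (nat_lit 114702) (nat_lit 20) .nil)))))))) (.g (nat_lit 4) .nil .nil))) 
(.lf (nat_lit 78828) (.g (nat_lit 648) (.e (nat_lit 1809) (nat_lit 120) (.e (nat_lit 524322) (nat_lit 12) (.e (nat_lit 450580) (nat_lit 5) (.e (nat_lit 532523) (nat_lit 7) .nil)))) .nil)))) (.nd (nat_lit 5) (.nd (nat_lit 6) 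
(.lf (nat_lit 78748) (.g (nat_lit 4560) (.e (nat_lit 1803) (nat_lit 119) (.e (nat_lit 516166) (nat_lit 12) (.e (nat_lit 450588) (nat_lit 10) (.e (nat_lit 573469) (nat_lit 11) .nil)))) .nil)) 
(.lf (nat_lit 78812) (.g (nat_lit 914) (.e (nat_lit 1808) (nat_lit 120) (.e (nat_lit 524320) (nat_lit 12) (.e (nat_lit 450586) (nat_lit 10) (.e (nat_lit 573477) (nat_lit 12) .nil)))) .nil))) (.nd (nat_lit 6) 
(.lf (nat_lit 78780) (.g (nat_lit 2026) (.e (nat_lit 1805) (nat_lit 119) (.e (nat_lit 516120) (nat_lit 1) (.e (nat_lit 164329) (nat_lit 230) (.e (nat_lit 163942) (nat_lit 19) .nil)))) .nil)) 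
(.lf (nat_lit 78844) (.g (nat_lit 3299) (.e (nat_lit 1809) (nat_lit 120) (.e (nat_lit 524322) (nat_lit 12) (.e (nat_lit 450588) (nat_lit 10) (.e (nat_lit 573473) (nat_lit 12) (.e (nat_lit 57569) (nat_lit 53) (.e (nat_lit 761866) (nat_lit 5) (.e (nat_lit 1454) (nat_lit 108) (.e (nat_lit 335928) (nat_lit 0) .nil)))))))) (.g (nat_lit 4) .nil .nil)))))))) 
(.nd (nat_lit 2) (.nd (nat_lit 3) (.nd (nat_lit 4) (.nd (nat_lit 5) (.nd (nat_lit 6) 
(.lf (nat_lit 78722) (.g (nat_lit 2405) (.e (nat_lit 1803) (nat_lit 119) (.e (nat_lit 516146) (nat_lit 9) (.e (nat_lit 426438) (nat_lit 18) (.e (nat_lit 98356) (nat_lit 26) (.e (nat_lit 426438) (nat_lit 18) (.e (nat_lit 98358) (nat_lit 26) (.e (nat_lit 426361) (nat_lit 15) .nil))))))) (.g (nat_lit 4) .nil .nil))) 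
(.lf (nat_lit 78786) (.g (nat_lit 2766) (.e (nat_lit 1806) (nat_lit 119) (.e (nat_lit 516119) (nat_lit 1) (.e (nat_lit 164403) (nat_lit 256) (.e (nat_lit 57373) (nat_lit 2) (.e (nat_lit 90172) (nat_lit 14) (.e (nat_lit 180244) (nat_lit 5) (.e (nat_lit 532515) (nat_lit 3) (.e (nat_lit 114701) (nat_lit 20) .nil)))))))) (.g (nat_lit 4) .nil .nil)))) (.nd (nat_lit 6) 
(.lf (nat_lit 78754) (.g (nat_lit 5038) (.e (nat_lit 1803) (nat_lit 119) (.e (nat_lit 516166) (nat_lit 12) (.e (nat_lit 450588) (nat_lit 10) (.e (nat_lit 573475) (nat_lit 12) (.e (nat_lit 57574) (nat_lit 55) (.e (nat_lit 778465) (nat_lit 11) (.e (nat_lit 24577) (nat_lit 0) .nil))))))) (.g (nat_lit 4) .nil .nil))) 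
(.lf (nat_lit 78818) (.g (nat_lit 4258) (.e (nat_lit 1808) (nat_lit 120) (.e (nat_lit 524322) (nat_lit 12) (.e (nat_lit 450588) (nat_lit 10) (.e (nat_lit 573474) (nat_lit 12) (.e (nat_lit 57572) (nat_lit 54) (.e (nat_lit 770072) (nat_lit 8) (.e (nat_lit 65538) (nat_lit 0) .nil))))))) (.g (nat_lit 0) .nil .nil))))) (.nd (nat_lit 5) (.nd (nat_lit 6) 
(.lf (nat_lit 78738) (.g (nat_lit 4712) (.e (nat_lit 1803) (nat_lit 119) (.e (nat_lit 516166) (nat_lit 12) (.e (nat_lit 450587) (nat_lit 10) (.e (nat_lit 573477) (nat_lit 12) (.e (nat_lit 57574) (nat_lit 55) (.e (nat_lit 778465) (nat_lit 11) (.e (nat_lit 24576) (nat_lit 0) .nil))))))) (.g (nat_lit 4) .nil .nil))) 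
(.lf (nat_lit 78802) (.g (nat_lit 514) (.e (nat_lit 7936) (nat_lit 119) (.e (nat_lit 516138) (nat_lit 7) (.e (nat_lit 409645) (nat_lit 18) .nil))) .nil))) (.nd (nat_lit 6) 
(.lf (nat_lit 78770) (.g (nat_lit 1360) (.e (nat_lit 1804) (nat_lit 119) (.e (nat_lit 516126) (nat_lit 2) (.e (nat_lit 213032) (nat_lit 11) (.e (nat_lit 24605) (nat_lit 2) (.e (nat_lit 90176) (nat_lit 15) (.e (nat_lit 196352) (nat_lit 0) .nil)))))) (.g (nat_lit 5) .nil .nil))) 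
(.lf (nat_lit 78834) (.g (nat_lit 2982) (.e (nat_lit 1809) (nat_lit 120) (.e (nat_lit 524322) (nat_lit 12) (.e (nat_lit 450588) (nat_lit 10) (.e (nat_lit 573468) (nat_lit 10) .nil)))) .nil))))) (.nd (nat_lit 4) (.nd (nat_lit 5) (.nd (nat_lit 6) 
(.lf (nat_lit 78730) (.g (nat_lit 3562) (.e (nat_lit 1803) (nat_lit 119) (.e (nat_lit 516151) (nat_lit 9) (.e (nat_lit 426285) (nat_lit 10) (.e (nat_lit 434238) (nat_lit 25) (.e (nat_lit 548913) (nat_lit 18) (.e (nat_lit 172124) (nat_lit 14) (.e (nat_lit 491524) (nat_lit 0) .nil))))))) (.g (nat_lit 4) .nil .nil))) 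
(.lf (nat_lit 78794) (.g (nat_lit 1092) (.e (nat_lit 1806) (nat_lit 119) (.e (nat_lit 516126) (nat_lit 2) (.e (nat_lit 213032) (nat_lit 11) (.e (nat_lit 24605) (nat_lit 2) (.e (nat_lit 90178) (nat_lit 15) (.e (nat_lit 196352) (nat_lit 0) .nil)))))) (.g (nat_lit 4) .nil .nil)))) (.nd (nat_lit 6) 
(.lf (nat_lit 78762) (.g (nat_lit 2563) (.e (nat_lit 1804) (nat_lit 119) (.e (nat_lit 516119) (nat_lit 1) (.e (nat_lit 164403) (nat_lit 256) (.e (nat_lit 57371) (nat_lit 2) (.e (nat_lit 90172) (nat_lit 14) (.e (nat_lit 180244) (nat_lit 5) (.e (nat_lit 532515) (nat_lit 3) (.e (nat_lit 114701) (nat_lit 20) .nil)))))))) (.g (nat_lit 4) .nil .nil))) 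
(.lf (nat_lit 78826) (.g (nat_lit 3416) (.e (nat_lit 1809) (nat_lit 120) (.e (nat_lit 524320) (nat_lit 12) (.e (nat_lit 450580) (nat_lit 5) (.e (nat_lit 532523) (nat_lit 7) (.e (nat_lit 319534) (nat_lit 16) (.e (nat_lit 286728) (nat_lit 0) .nil)))))) (.g (nat_lit 6) .nil .nil))))) (.nd (nat_lit 5) (.nd (nat_lit 6) 
(.lf (nat_lit 78746) (.g (nat_lit 824) (.e (nat_lit 1803) (nat_lit 119) (.e (nat_lit 516166) (nat_lit 12) (.e (nat_lit 450588) (nat_lit 10) .nil))) .nil)) 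
(.lf (nat_lit 78810) (.g (nat_lit 3375) (.e (nat_lit 1808) (nat_lit 120) (.e (nat_lit 524320) (nat_lit 12) (.e (nat_lit 450586) (nat_lit 10) (.e (nat_lit 573474) (nat_lit 12) (.e (nat_lit 57572) (nat_lit 54) (.e (nat_lit 770072) (nat_lit 8) (.e (nat_lit 65538) (nat_lit 0) .nil))))))) (.g (nat_lit 5) .nil .nil)))) (.nd (nat_lit 6) 
(.lf (nat_lit 78778) (.g (nat_lit 2199) (.e (nat_lit 1805) (nat_lit 119) (.e (nat_lit 516120) (nat_lit 1) (.e (nat_lit 164329) (nat_lit 230) (.e (nat_lit 163902) (nat_lit 12) (.e (nat_lit 426479) (nat_lit 27) .nil))))) .nil)) 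
(.lf (nat_lit 78842) (.g (nat_lit 2244) (.e (nat_lit 1809) (nat_lit 120) (.e (nat_lit 524322) (nat_lit 12) (.e (nat_lit 450588) (nat_lit 10) (.e (nat_lit 573473) (nat_lit 12) .nil)))) .nil)))))) (.nd (nat_lit 3) (.nd (nat_lit 4) (.nd (nat_lit 5) (.nd (nat_lit 6) 
(.lf (nat_lit 78726) (.g (nat_lit 3608) (.e (nat_lit 1803) (nat_lit 119) (.e (nat_lit 516151) (nat_lit 9) (.e (nat_lit 426170) (nat_lit 7) (.e (nat_lit 409631) (nat_lit 12) (.e (nat_lit 32807) (nat_lit 18) (.e (nat_lit 172124) (nat_lit 14) (.e (nat_lit 491524) (nat_lit 0) .nil))))))) (.g (nat_lit 5) .nil .nil))) 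
(.lf (nat_lit 78790) (.g (nat_lit 2258) (.e (nat_lit 1806) (nat_lit 119) (.e (nat_lit 516120) (nat_lit 1) (.e (nat_lit 164329) (nat_lit 230) (.e (nat_lit 163904) (nat_lit 12) .nil)))) .nil))) (.nd (nat_lit 6) 
(.lf (nat_lit 78758) (.g (nat_lit 5574) (.e (nat_lit 1803) (nat_lit 119) (.e (nat_lit 516166) (nat_lit 12) (.e (nat_lit 450588) (nat_lit 10) (.e (nat_lit 573475) (nat_lit 12) (.e (nat_lit 57574) (nat_lit 55) (.e (nat_lit 778466) (nat_lit 11) (.e (nat_lit 24577) (nat_lit 0) .nil))))))) (.g (nat_lit 5) .nil .nil))) 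
(.lf (nat_lit 78822) (.g (nat_lit 1755) (.e (nat_lit 1809) (nat_lit 120) (.e (nat_lit 524319) (nat_lit 11) (.e (nat_lit 442427) (nat_lit 23) (.e (nat_lit 204845) (nat_lit 24) (.e (nat_lit 327424) (nat_lit 16) .nil))))) .nil)))) (.nd (nat_lit 5) (.nd (nat_lit 6) 
(.lf (nat_lit 78742) (.g (nat_lit 4788) (.e (nat_lit 1803) (nat_lit 119) (.e (nat_lit 516166) (nat_lit 12) (.e (nat_lit 450587) (nat_lit 10) (.e (nat_lit 573478) (nat_lit 12) (.e (nat_lit 57574) (nat_lit 55) (.e (nat_lit 778465) (nat_lit 11) (.e (nat_lit 24583) (nat_lit 0) .nil))))))) (.g (nat_lit 4) .nil .nil))) 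
(.lf (nat_lit 78806) (.g (nat_lit 1493) (.e (nat_lit 7936) (nat_lit 119) (.e (nat_lit 516166) (nat_lit 12) (.e (nat_lit 450587) (nat_lit 10) (.e (nat_lit 573456) (nat_lit 9) (.e (nat_lit 1312) (nat_lit 98) .nil))))) .nil))) (.nd (nat_lit 6) 
(.lf (nat_lit 78774) (.g (nat_lit 2274) (.e (nat_lit 1805) (nat_lit 119) (.e (nat_lit 516119) (nat_lit 1) (.e (nat_lit 164403) (nat_lit 256) (.e (nat_lit 57370) (nat_lit 2) (.e (nat_lit 90174) (nat_lit 14) .nil))))) .nil)) 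
(.lf (nat_lit 78838) (.g (nat_lit 3384) (.e (nat_lit 1809) (nat_lit 120) (.e (nat_lit 524322) (nat_lit 12) (.e (nat_lit 450588) (nat_lit 10) (.e (nat_lit 573470) (nat_lit 11) (.e (nat_lit 16473) (nat_lit 14) (.e (nat_lit 491527) (nat_lit 0) .nil)))))) (.g (nat_lit 0) .nil .nil)))))) (.nd (nat_lit 4) (.nd (nat_lit 5) (.nd (nat_lit 6) 
(.lf (nat_lit 78734) (.g (nat_lit 917) (.e (nat_lit 1803) (nat_lit 119) (.e (nat_lit 516166) (nat_lit 12) (.e (nat_lit 450587) (nat_lit 10) .nil))) .nil)) 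
(.lf (nat_lit 78798) (.g (nat_lit 1913) (.e (nat_lit 1807) (nat_lit 119) (.e (nat_lit 516120) (nat_lit 1) (.e (nat_lit 164329) (nat_lit 230) (.e (nat_lit 163902) (nat_lit 12) .nil)))) .nil))) (.nd (nat_lit 6) 
(.lf (nat_lit 78766) (.g (nat_lit 2805) (.e (nat_lit 1804) (nat_lit 119) (.e (nat_lit 516119) (nat_lit 1) (.e (nat_lit 164403) (nat_lit 256) (.e (nat_lit 57377) (nat_lit 3) (.e (nat_lit 98357) (nat_lit 26) .nil))))) .nil)) 
(.lf (nat_lit 78830) (.g (nat_lit 3049) (.e (nat_lit 1809) (nat_lit 120) (.e (nat_lit 524322) (nat_lit 12) (.e (nat_lit 450581) (nat_lit 5) (.e (nat_lit 532523) (nat_lit 7) (.e (nat_lit 319534) (nat_lit 16) (.e (nat_lit 286728) (nat_lit 0) .nil)))))) (.g (nat_lit 6) .nil .nil))))) (.nd (nat_lit 5) (.nd (nat_lit 6) 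
(.lf (nat_lit 78750) (.g (nat_lit 4600) (.e (nat_lit 1803) (nat_lit 119) (.e (nat_lit 516166) (nat_lit 12) (.e (nat_lit 450588) (nat_lit 10) (.e (nat_lit 573473) (nat_lit 12) .nil)))) .nil)) 
(.lf (nat_lit 78814) (.g (nat_lit 1853) (.e (nat_lit 1808) (nat_lit 120) (.e (nat_lit 524322) (nat_lit 12) (.e (nat_lit 450588) (nat_lit 10) (.e (nat_lit 573449) (nat_lit 9) .nil)))) .nil))) (.nd (nat_lit 6) 
(.lf (nat_lit 78782) (.g (nat_lit 1215) (.e (nat_lit 1805) (nat_lit 119) (.e (nat_lit 516127) (nat_lit 2) (.e (nat_lit 213032) (nat_lit 11) (.e (nat_lit 24605) (nat_lit 2) (.e (nat_lit 90176) (nat_lit 15) (.e (nat_lit 196352) (nat_lit 0) .nil)))))) (.g (nat_lit 5) .nil .nil))) 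
(.lf (nat_lit 78846) (.g (nat_lit 2074) (.e (nat_lit 1809) (nat_lit 120) (.e (nat_lit 524322) (nat_lit 12) (.e (nat_lit 450588) (nat_lit 10) (.e (nat_lit 573474) (nat_lit 12) (.e (nat_lit 57572) (nat_lit 54) .nil))))) .nil)))))))) (.nd (nat_lit 1) (.nd (nat_lit 2) (.nd (nat_lit 3) (.nd (nat_lit 4) (.nd (nat_lit 5) (.nd (nat_lit 6) 
(.lf (nat_lit 78721) (.g (nat_lit 884) (.e (nat_lit 1803) (nat_lit 119) (.e (nat_lit 516146) (nat_lit 9) (.e (nat_lit 426438) (nat_lit 18) .nil))) .nil)) 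
(.lf (nat_lit 78785) (.g (nat_lit 2338) (.e (nat_lit 1806) (nat_lit 119) (.e (nat_lit 516119) (nat_lit 1) (.e (nat_lit 164403) (nat_lit 256) (.e (nat_lit 57373) (nat_lit 2) (.e (nat_lit 90170) (nat_lit 13) (.e (nat_lit 172067) (nat_lit 3) (.e (nat_lit 204837) (nat_lit 20) (.e (nat_lit 114700) (nat_lit 20) .nil)))))))) (.g (nat_lit 4) .nil .nil)))) (.nd (nat_lit 6) 
(.lf (nat_lit 78753) (.g (nat_lit 4906) (.e (nat_lit 1803) (nat_lit 119) (.e (nat_lit 516166) (nat_lit 12) (.e (nat_lit 450588) (nat_lit 10) (.e (nat_lit 573475) (nat_lit 12) (.e (nat_lit 57574) (nat_lit 55) (.e (nat_lit 778464) (nat_lit 11) (.e (nat_lit 24582) (nat_lit 0) .nil))))))) (.g (nat_lit 4) .nil .nil))) 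
(.lf (nat_lit 78817) (.g (nat_lit 4352) (.e (nat_lit 1808) (nat_lit 120) (.e (nat_lit 524322) (nat_lit 12) (.e (nat_lit 450588) (nat_lit 10) (.e (nat_lit 573474) (nat_lit 12) (.e (nat_lit 57572) (nat_lit 54) (.e (nat_lit 770072) (nat_lit 8) (.e (nat_lit 65537) (nat_lit 0) .nil))))))) (.g (nat_lit 0) .nil .nil))))) (.nd (nat_lit 5) (.nd (nat_lit 6) 
(.lf (nat_lit 78737) (.g (nat_lit 4655) (.e (nat_lit 1803) (nat_lit 119) (.e (nat_lit 516166) (nat_lit 12) (.e (nat_lit 450587) (nat_lit 10) (.e (nat_lit 573477) (nat_lit 12) (.e (nat_lit 57574) (nat_lit 55) .nil))))) .nil)) 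
(.lf (nat_lit 78801) (.g (nat_lit 2171) (.e (nat_lit 1807) (nat_lit 119) (.e (nat_lit 516120) (nat_lit 1) (.e (nat_lit 164329) (nat_lit 230) (.e (nat_lit 163904) (nat_lit 12) .nil)))) .nil))) (.nd (nat_lit 6) 
(.lf (nat_lit 78769) (.g (nat_lit 3006) (.e (nat_lit 1804) (nat_lit 119) (.e (nat_lit 516120) (nat_lit 1) (.e (nat_lit 164329) (nat_lit 230) (.e (nat_lit 163902) (nat_lit 12) (.e (nat_lit 426568) (nat_lit 34) (.e (nat_lit 393271) (nat_lit 23) (.e (nat_lit 426354) (nat_lit 15) .nil))))))) (.g (nat_lit 5) .nil .nil))) 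
(.lf (nat_lit 78833) (.g (nat_lit 2284) (.e (nat_lit 1809) (nat_lit 120) (.e (nat_lit 524322) (nat_lit 12) (.e (nat_lit 450588) (nat_lit 10) (.e (nat_lit 573457) (nat_lit 9) .nil)))) .nil))))) (.nd (nat_lit 4) (.nd (nat_lit 5) (.nd (nat_lit 6) 
(.lf (nat_lit 78729) (.g (nat_lit 3052) (.e (nat_lit 1803) (nat_lit 119) (.e (nat_lit 516151) (nat_lit 9) (.e (nat_lit 426211) (nat_lit 9) (.e (nat_lit 426140) (nat_lit 3) .nil)))) .nil)) 
(.lf (nat_lit 78793) (.g (nat_lit 1625) (.e (nat_lit 1806) (nat_lit 119) (.e (nat_lit 516126) (nat_lit 2) (.e (nat_lit 213032) (nat_lit 11) (.e (nat_lit 24604) (nat_lit 2) (.e (nat_lit 90176) (nat_lit 15) (.e (nat_lit 196352) (nat_lit 0) .nil)))))) (.g (nat_lit 4) .nil .nil)))) (.nd (nat_lit 6) 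
(.lf (nat_lit 78761) (.g (nat_lit 2447) (.e (nat_lit 1804) (nat_lit 119) (.e (nat_lit 516119) (nat_lit 1) (.e (nat_lit 164403) (nat_lit 256) (.e (nat_lit 57371) (nat_lit 2) (.e (nat_lit 90172) (nat_lit 14) (.e (nat_lit 180244) (nat_lit 5) (.e (nat_lit 532513) (nat_lit 3) (.e (nat_lit 114700) (nat_lit 20) .nil)))))))) (.g (nat_lit 4) .nil .nil))) 
(.lf (nat_lit 78825) (.g (nat_lit 2820) (.e (nat_lit 1809) (nat_lit 120) (.e (nat_lit 524320) (nat_lit 12) (.e (nat_lit 450580) (nat_lit 5) (.e (nat_lit 532523) (nat_lit 7) (.e (nat_lit 319533) (nat_lit 16) (.e (nat_lit 286724) (nat_lit 0) .nil)))))) (.g (nat_lit 5) .nil .nil))))) (.nd (nat_lit 5) (.nd (nat_lit 6) 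
(.lf (nat_lit 78745) (.g (nat_lit 4758) (.e (nat_lit 1803) (nat_lit 119) (.e (nat_lit 516166) (nat_lit 12) (.e (nat_lit 450587) (nat_lit 10) (.e (nat_lit 573478) (nat_lit 12) (.e (nat_lit 57574) (nat_lit 55) (.e (nat_lit 778466) (nat_lit 11) (.e (nat_lit 24582) (nat_lit 0) .nil))))))) (.g (nat_lit 4) .nil .nil))) 
(.lf (nat_lit 78809) (.g (nat_lit 4102) (.e (nat_lit 7936) (nat_lit 119) (.e (nat_lit 516185) (nat_lit 16) (.e (nat_lit 491563) (nat_lit 12) (.e (nat_lit 385074) (nat_lit 31) (.e (nat_lit 573493) (nat_lit 15) .nil))))) .nil))) (.nd (nat_lit 6) 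
(.lf (nat_lit 78777) (.g (nat_lit 2316) (.e (nat_lit 1805) (nat_lit 119) (.e (nat_lit 516119) (nat_lit 1) (.e (nat_lit 164403) (nat_lit 256) (.e (nat_lit 57373) (nat_lit 2) (.e (nat_lit 90170) (nat_lit 13) .nil))))) .nil)) 
(.lf (nat_lit 78841) (.g (nat_lit 2549) (.e (nat_lit 1809) (nat_lit 120) (.e (nat_lit 524322) (nat_lit 12) (.e (nat_lit 450588) (nat_lit 10) (.e (nat_lit 581376) (nat_lit 11) .nil)))) .nil)))))) (.nd (nat_lit 3) (.nd (nat_lit 4) (.nd (nat_lit 5) (.nd (nat_lit 6) 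
(.lf (nat_lit 78725) (.g (nat_lit 2392) (.e (nat_lit 1803) (nat_lit 119) (.e (nat_lit 516151) (nat_lit 9) (.e (nat_lit 426170) (nat_lit 7) (.e (nat_lit 409631) (nat_lit 12) .nil)))) .nil)) 
(.lf (nat_lit 78789) (.g (nat_lit 2440) (.e (nat_lit 1806) (nat_lit 119) (.e (nat_lit 516120) (nat_lit 1) (.e (nat_lit 164329) (nat_lit 230) (.e (nat_lit 163902) (nat_lit 12) (.e (nat_lit 426568) (nat_lit 34) (.e (nat_lit 393267) (nat_lit 23) (.e (nat_lit 426361) (nat_lit 15) .nil))))))) (.g (nat_lit 4) .nil .nil)))) (.nd (nat_lit 6) 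
(.lf (nat_lit 78757) (.g (nat_lit 5666) (.e (nat_lit 1803) (nat_lit 119) (.e (nat_lit 516166) (nat_lit 12) (.e (nat_lit 450588) (nat_lit 10) (.e (nat_lit 573475) (nat_lit 12) (.e (nat_lit 57574) (nat_lit 55) (.e (nat_lit 778466) (nat_lit 11) (.e (nat_lit 24576) (nat_lit 0) .nil))))))) (.g (nat_lit 5) .nil .nil))) 
(.lf (nat_lit 78821) (.g (nat_lit 3595) (.e (nat_lit 1809) (nat_lit 120) (.e (nat_lit 524319) (nat_lit 11) (.e (nat_lit 442427) (nat_lit 23) (.e (nat_lit 204845) (nat_lit 24) (.e (nat_lit 319531) (nat_lit 16) (.e (nat_lit 286727) (nat_lit 0) .nil)))))) (.g (nat_lit 0) .nil .nil))))) (.nd (nat_lit 5) (.nd (nat_lit 6) 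
(.lf (nat_lit 78741) (.g (nat_lit 5532) (.e (nat_lit 1803) (nat_lit 119) (.e (nat_lit 516166) (nat_lit 12) (.e (nat_lit 450587) (nat_lit 10) (.e (nat_lit 573477) (nat_lit 12) (.e (nat_lit 57574) (nat_lit 55) (.e (nat_lit 778466) (nat_lit 11) (.e (nat_lit 24582) (nat_lit 0) .nil))))))) (.g (nat_lit 5) .nil .nil))) 
(.lf (nat_lit 78805) (.g (nat_lit 979) (.e (nat_lit 7936) (nat_lit 119) (.e (nat_lit 516166) (nat_lit 12) (.e (nat_lit 450580) (nat_lit 5) (.e (nat_lit 532523) (nat_lit 7) .nil)))) .nil))) (.nd (nat_lit 6) 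
(.lf (nat_lit 78773) (.g (nat_lit 1013) (.e (nat_lit 1804) (nat_lit 119) (.e (nat_lit 516127) (nat_lit 2) (.e (nat_lit 213032) (nat_lit 11) (.e (nat_lit 24605) (nat_lit 2) (.e (nat_lit 90178) (nat_lit 15) (.e (nat_lit 196352) (nat_lit 0) .nil)))))) (.g (nat_lit 4) .nil .nil))) 
(.lf (nat_lit 78837) (.g (nat_lit 3623) (.e (nat_lit 1809) (nat_lit 120) (.e (nat_lit 524322) (nat_lit 12) (.e (nat_lit 450588) (nat_lit 10) (.e (nat_lit 573470) (nat_lit 11) (.e (nat_lit 16473) (nat_lit 14) (.e (nat_lit 491526) (nat_lit 0) .nil)))))) (.g (nat_lit 0) .nil .nil)))))) (.nd (nat_lit 4) (.nd (nat_lit 5) (.nd (nat_lit 6) 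
(.lf (nat_lit 78733) (.g (nat_lit 1338) (.e (nat_lit 1803) (nat_lit 119) (.e (nat_lit 516151) (nat_lit 9) (.e (nat_lit 426338) (nat_lit 14) .nil))) .nil)) 
(.lf (nat_lit 78797) (.g (nat_lit 2815) (.e (nat_lit 1807) (nat_lit 119) (.e (nat_lit 516119) (nat_lit 1) (.e (nat_lit 164403) (nat_lit 256) (.e (nat_lit 57373) (nat_lit 2) (.e (nat_lit 90172) (nat_lit 14) (.e (nat_lit 180244) (nat_lit 5) (.e (nat_lit 532515) (nat_lit 3) (.e (nat_lit 114700) (nat_lit 20) .nil)))))))) (.g (nat_lit 4) .nil .nil)))) (.nd (nat_lit 6) 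
(.lf (nat_lit 78765) (.g (nat_lit 3526) (.e (nat_lit 1804) (nat_lit 119) (.e (nat_lit 516119) (nat_lit 1) (.e (nat_lit 164403) (nat_lit 256) (.e (nat_lit 57373) (nat_lit 2) (.e (nat_lit 90174) (nat_lit 14) (.e (nat_lit 180243) (nat_lit 5) (.e (nat_lit 532513) (nat_lit 3) (.e (nat_lit 114700) (nat_lit 20) .nil)))))))) (.g (nat_lit 5) .nil .nil))) 
(.lf (nat_lit 78829) (.g (nat_lit 2418) (.e (nat_lit 1809) (nat_lit 120) (.e (nat_lit 524322) (nat_lit 12) (.e (nat_lit 450581) (nat_lit 5) (.e (nat_lit 532523) (nat_lit 7) (.e (nat_lit 319533) (nat_lit 16) (.e (nat_lit 286724) (nat_lit 0) .nil)))))) (.g (nat_lit 5) .nil .nil))))) (.nd (nat_lit 5) (.nd (nat_lit 6) 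
(.lf (nat_lit 78749) (.g (nat_lit 4542) (.e (nat_lit 1803) (nat_lit 119) (.e (nat_lit 516166) (nat_lit 12) (.e (nat_lit 450588) (nat_lit 10) (.e (nat_lit 573471) (nat_lit 11) .nil)))) .nil)) 
(.lf (nat_lit 78813) (.g (nat_lit 3250) (.e (nat_lit 1808) (nat_lit 120) (.e (nat_lit 524320) (nat_lit 12) (.e (nat_lit 450588) (nat_lit 10) (.e (nat_lit 573474) (nat_lit 12) .nil)))) .nil))) (.nd (nat_lit 6) 
(.lf (nat_lit 78781) (.g (nat_lit 1244) (.e (nat_lit 1805) (nat_lit 119) (.e (nat_lit 516126) (nat_lit 2) (.e (nat_lit 213032) (nat_lit 11) (.e (nat_lit 24605) (nat_lit 2) (.e (nat_lit 90176) (nat_lit 15) (.e (nat_lit 196352) (nat_lit 0) .nil)))))) (.g (nat_lit 5) .nil .nil))) 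
(.lf (nat_lit 78845) (.g (nat_lit 3395) (.e (nat_lit 1809) (nat_lit 120) (.e (nat_lit 524322) (nat_lit 12) (.e (nat_lit 450588) (nat_lit 10) (.e (nat_lit 573474) (nat_lit 12) (.e (nat_lit 57569) (nat_lit 53) .nil))))) .nil))))))) (.nd (nat_lit 2) (.nd (nat_lit 3) (.nd (nat_lit 4) (.nd (nat_lit 5) (.nd (nat_lit 6) 
(.lf (nat_lit 78723) (.g (nat_lit 2495) (.e (nat_lit 1803) (nat_lit 119) (.e (nat_lit 516146) (nat_lit 9) (.e (nat_lit 426438) (nat_lit 18) (.e (nat_lit 98358) (nat_lit 26) (.e (nat_lit 426438) (nat_lit 18) (.e (nat_lit 98358) (nat_lit 26) (.e (nat_lit 426361) (nat_lit 15) .nil))))))) (.g (nat_lit 4) .nil .nil))) 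
(.lf (nat_lit 78787) (.g (nat_lit 2824) (.e (nat_lit 1806) (nat_lit 119) (.e (nat_lit 516119) (nat_lit 1) (.e (nat_lit 164403) (nat_lit 256) (.e (nat_lit 57373) (nat_lit 2) (.e (nat_lit 90172) (nat_lit 14) (.e (nat_lit 180244) (nat_lit 5) (.e (nat_lit 532515) (nat_lit 3) (.e (nat_lit 114702) (nat_lit 20) .nil)))))))) (.g (nat_lit 4) .nil .nil)))) (.nd (nat_lit 6) 
(.lf (nat_lit 78755) (.g (nat_lit 5012) (.e (nat_lit 1803) (nat_lit 119) (.e (nat_lit 516166) (nat_lit 12) (.e (nat_lit 450588) (nat_lit 10) (.e (nat_lit 573475) (nat_lit 12) (.e (nat_lit 57574) (nat_lit 55) (.e (nat_lit 778465) (nat_lit 11) (.e (nat_lit 24582) (nat_lit 0) .nil))))))) (.g (nat_lit 4) .nil .nil))) 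
(.lf (nat_lit 78819) (.g (nat_lit 2723) (.e (nat_lit 1808) (nat_lit 120) (.e (nat_lit 524322) (nat_lit 12) (.e (nat_lit 450588) (nat_lit 10) (.e (nat_lit 573475) (nat_lit 12) (.e (nat_lit 57574) (nat_lit 55) .nil))))) .nil)))) (.nd (nat_lit 5) (.nd (nat_lit 6) 
(.lf (nat_lit 78739) (.g (nat_lit 4958) (.e (nat_lit 1803) (nat_lit 119) (.e (nat_lit 516166) (nat_lit 12) (.e (nat_lit 450587) (nat_lit 10) (.e (nat_lit 573477) (nat_lit 12) (.e (nat_lit 57574) (nat_lit 55) (.e (nat_lit 778465) (nat_lit 11) (.e (nat_lit 24583) (nat_lit 0) .nil))))))) (.g (nat_lit 4) .nil .nil))) 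
(.lf (nat_lit 78803) (.g (nat_lit 718) (.e (nat_lit 7936) (nat_lit 119) (.e (nat_lit 516163) (nat_lit 11) (.e (nat_lit 442426) (nat_lit 23) .nil))) .nil))) (.nd (nat_lit 6) 
(.lf (nat_lit 78771) (.g (nat_lit 883) (.e (nat_lit 1804) (nat_lit 119) (.e (nat_lit 516127) (nat_lit 2) (.e (nat_lit 213030) (nat_lit 11) (.e (nat_lit 24605) (nat_lit 2) (.e (nat_lit 90176) (nat_lit 15) .nil))))) .nil)) 
(.lf (nat_lit 78835) (.g (nat_lit 2423) (.e (nat_lit 1809) (nat_lit 120) (.e (nat_lit 524322) (nat_lit 12) (.e (nat_lit 450588) (nat_lit 10) (.e (nat_lit 573470) (nat_lit 11) (.e (nat_lit 16472) (nat_lit 14) (.e (nat_lit 491526) (nat_lit 0) .nil)))))) (.g (nat_lit 5) .nil .nil)))))) (.nd (nat_lit 4) (.nd (nat_lit 5) (.nd (nat_lit 6) 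
(.lf (nat_lit 78731) (.g (nat_lit 6472) (.e (nat_lit 1803) (nat_lit 119) (.e (nat_lit 516151) (nat_lit 9) (.e (nat_lit 426285) (nat_lit 10) (.e (nat_lit 434238) (nat_lit 25) (.e (nat_lit 548913) (nat_lit 18) (.e (nat_lit 172126) (nat_lit 14) (.e (nat_lit 491524) (nat_lit 0) .nil))))))) (.g (nat_lit 6) .nil .nil))) 
(.lf (nat_lit 78795) (.g (nat_lit 541) (.e (nat_lit 1806) (nat_lit 119) (.e (nat_lit 516165) (nat_lit 12) (.e (nat_lit 450583) (nat_lit 7) .nil))) .nil))) (.nd (nat_lit 6) 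
(.lf (nat_lit 78763) (.g (nat_lit 3185) (.e (nat_lit 1804) (nat_lit 119) (.e (nat_lit 516119) (nat_lit 1) (.e (nat_lit 164403) (nat_lit 256) (.e (nat_lit 57371) (nat_lit 2) (.e (nat_lit 90172) (nat_lit 14) (.e (nat_lit 180244) (nat_lit 5) (.e (nat_lit 532515) (nat_lit 3) (.e (nat_lit 114702) (nat_lit 20) .nil)))))))) (.g (nat_lit 5) .nil .nil))) 
(.lf (nat_lit 78827) (.g (nat_lit 1081) (.e (nat_lit 1809) (nat_lit 120) (.e (nat_lit 524320) (nat_lit 12) (.e (nat_lit 450580) (nat_lit 5) (.e (nat_lit 532526) (nat_lit 8) .nil)))) .nil)))) (.nd (nat_lit 5) (.nd (nat_lit 6) 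
(.lf (nat_lit 78747) (.g (nat_lit 4824) (.e (nat_lit 1803) (nat_lit 119) (.e (nat_lit 516166) (nat_lit 12) (.e (nat_lit 450588) (nat_lit 10) (.e (nat_lit 573452) (nat_lit 9) .nil)))) .nil)) 
(.lf (nat_lit 78811) (.g (nat_lit 1355) (.e (nat_lit 1808) (nat_lit 120) (.e (nat_lit 524320) (nat_lit 12) (.e (nat_lit 450586) (nat_lit 10) (.e (nat_lit 573475) (nat_lit 12) (.e (nat_lit 57574) (nat_lit 55) .nil))))) .nil))) (.nd (nat_lit 6) 
(.lf (nat_lit 78779) (.g (nat_lit 2328) (.e (nat_lit 1805) (nat_lit 119) (.e (nat_lit 516120) (nat_lit 1) (.e (nat_lit 164329) (nat_lit 230) (.e (nat_lit 163902) (nat_lit 12) (.e (nat_lit 426568) (nat_lit 34) (.e (nat_lit 393267) (nat_lit 23) (.e (nat_lit 426350) (nat_lit 15) .nil))))))) (.g (nat_lit 4) .nil .nil))) 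
(.lf (nat_lit 78843) (.g (nat_lit 3089) (.e (nat_lit 1809) (nat_lit 120) (.e (nat_lit 524322) (nat_lit 12) (.e (nat_lit 450588) (nat_lit 10) (.e (nat_lit 573473) (nat_lit 12) (.e (nat_lit 57569) (nat_lit 53) .nil))))) .nil)))))) (.nd (nat_lit 3) (.nd (nat_lit 4) (.nd (nat_lit 5) (.nd (nat_lit 6) 
(.lf (nat_lit 78727) (.g (nat_lit 3006) (.e (nat_lit 1803) (nat_lit 119) (.e (nat_lit 516151) (nat_lit 9) (.e (nat_lit 426211) (nat_lit 9) (.e (nat_lit 426125) (nat_lit 2) .nil)))) .nil)) 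
(.lf (nat_lit 78791) (.g (nat_lit 2229) (.e (nat_lit 1806) (nat_lit 119) (.e (nat_lit 516120) (nat_lit 1) (.e (nat_lit 164329) (nat_lit 230) (.e (nat_lit 163942) (nat_lit 19) .nil)))) .nil))) (.nd (nat_lit 6) 
(.lf (nat_lit 78759) (.g (nat_lit 5662) (.e (nat_lit 1803) (nat_lit 119) (.e (nat_lit 516166) (nat_lit 12) (.e (nat_lit 450588) (nat_lit 10) (.e (nat_lit 573475) (nat_lit 12) (.e (nat_lit 57574) (nat_lit 55) (.e (nat_lit 778466) (nat_lit 11) (.e (nat_lit 24582) (nat_lit 0) .nil))))))) (.g (nat_lit 5) .nil .nil))) 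
(.lf (nat_lit 78823) (.g (nat_lit 2090) (.e (nat_lit 1809) (nat_lit 120) (.e (nat_lit 524319) (nat_lit 11) (.e (nat_lit 442427) (nat_lit 23) (.e (nat_lit 204846) (nat_lit 24) (.e (nat_lit 319534) (nat_lit 16) (.e (nat_lit 286728) (nat_lit 0) .nil)))))) (.g (nat_lit 4) .nil .nil))))) (.nd (nat_lit 5) (.nd (nat_lit 6) 
(.lf (nat_lit 78743) (.g (nat_lit 4768) (.e (nat_lit 1803) (nat_lit 119) (.e (nat_lit 516166) (nat_lit 12) (.e (nat_lit 450587) (nat_lit 10) (.e (nat_lit 573478) (nat_lit 12) (.e (nat_lit 57574) (nat_lit 55) (.e (nat_lit 778466) (nat_lit 11) (.e (nat_lit 24576) (nat_lit 0) .nil))))))) (.g (nat_lit 4) .nil .nil))) 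
(.lf (nat_lit 78807) (.g (nat_lit 5304) (.e (nat_lit 7936) (nat_lit 119) (.e (nat_lit 516166) (nat_lit 12) (.e (nat_lit 450588) (nat_lit 10) (.e (nat_lit 573474) (nat_lit 12) .nil)))) .nil))) (.nd (nat_lit 6) 
(.lf (nat_lit 78775) (.g (nat_lit 3234) (.e (nat_lit 1805) (nat_lit 119) (.e (nat_lit 516119) (nat_lit 1) (.e (nat_lit 164403) (nat_lit 256) (.e (nat_lit 57371) (nat_lit 2) (.e (nat_lit 90172) (nat_lit 14) (.e (nat_lit 180244) (nat_lit 5) (.e (nat_lit 532513) (nat_lit 3) (.e (nat_lit 114706) (nat_lit 20) .nil)))))))) (.g (nat_lit 5) .nil .nil))) 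
(.lf (nat_lit 78839) (.g (nat_lit 3317) (.e (nat_lit 1809) (nat_lit 120) (.e (nat_lit 524322) (nat_lit 12) (.e (nat_lit 450588) (nat_lit 10) (.e (nat_lit 573470) (nat_lit 11) (.e (nat_lit 16473) (nat_lit 14) (.e (nat_lit 491529) (nat_lit 0) .nil)))))) (.g (nat_lit 6) .nil .nil)))))) (.nd (nat_lit 4) (.nd (nat_lit 5) (.nd (nat_lit 6) 
(.lf (nat_lit 78735) (.g (nat_lit 3780) (.e (nat_lit 1803) (nat_lit 119) (.e (nat_lit 516166) (nat_lit 12) (.e (nat_lit 450587) (nat_lit 10) (.e (nat_lit 573454) (nat_lit 9) .nil)))) .nil)) 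
(.lf (nat_lit 78799) (.g (nat_lit 2174) (.e (nat_lit 1807) (nat_lit 119) (.e (nat_lit 516120) (nat_lit 1) (.e (nat_lit 164329) (nat_lit 230) (.e (nat_lit 163902) (nat_lit 12) (.e (nat_lit 426566) (nat_lit 34) .nil))))) .nil))) (.nd (nat_lit 6) 
(.lf (nat_lit 78767) (.g (nat_lit 3256) (.e (nat_lit 1804) (nat_lit 119) (.e (nat_lit 516119) (nat_lit 1) (.e (nat_lit 164403) (nat_lit 256) (.e (nat_lit 57378) (nat_lit 3) (.e (nat_lit 98358) (nat_lit 26) (.e (nat_lit 426131) (nat_lit 3) (.e (nat_lit 204838) (nat_lit 20) (.e (nat_lit 114702) (nat_lit 20) .nil)))))))) (.g (nat_lit 6) .nil .nil))) 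
(.lf (nat_lit 78831) (.g (nat_lit 3202) (.e (nat_lit 1809) (nat_lit 120) (.e (nat_lit 524322) (nat_lit 12) (.e (nat_lit 450587) (nat_lit 10) (.e (nat_lit 573478) (nat_lit 12) (.e (nat_lit 57574) (nat_lit 55) (.e (nat_lit 778466) (nat_lit 11) (.e (nat_lit 24589) (nat_lit 0) .nil))))))) (.g (nat_lit 6) .nil .nil))))) (.nd (nat_lit 5) (.nd (nat_lit 6) 
(.lf (nat_lit 78751) (.g (nat_lit 4091) (.e (nat_lit 1803) (nat_lit 119) (.e (nat_lit 516166) (nat_lit 12) (.e (nat_lit 450588) (nat_lit 10) (.e (nat_lit 573475) (nat_lit 12) .nil)))) .nil)) 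
(.lf (nat_lit 78815) (.g (nat_lit 2485) (.e (nat_lit 1808) (nat_lit 120) (.e (nat_lit 524322) (nat_lit 12) (.e (nat_lit 450588) (nat_lit 10) (.e (nat_lit 573452) (nat_lit 9) .nil)))) .nil))) (.nd (nat_lit 6) 
(.lf (nat_lit 78783) (.g (nat_lit 3351) (.e (nat_lit 1806) (nat_lit 119) (.e (nat_lit 516119) (nat_lit 1) (.e (nat_lit 164403) (nat_lit 256) (.e (nat_lit 57371) (nat_lit 2) (.e (nat_lit 90174) (nat_lit 14) (.e (nat_lit 180243) (nat_lit 5) (.e (nat_lit 532513) (nat_lit 3) (.e (nat_lit 114700) (nat_lit 20) .nil)))))))) (.g (nat_lit 5) .nil .nil))) 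
(.lf (nat_lit 78847) (.g (nat_lit 2145) (.e (nat_lit 1809) (nat_lit 120) (.e (nat_lit 524322) (nat_lit 12) (.e (nat_lit 450588) (nat_lit 10) (.e (nat_lit 573474) (nat_lit 12) (.e (nat_lit 57572) (nat_lit 54) (.e (nat_lit 770071) (nat_lit 8) (.e (nat_lit 65547) (nat_lit 0) .nil))))))) (.g (nat_lit 4) .nil .nil))))))))))

noncomputable def tv1066 : DT := (.nd (nat_lit 0) (.nd (nat_lit 1) (.nd (nat_lit 2) (.nd (nat_lit 3) (.nd (nat_lit 4) (.nd (nat_lit 5) 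
(.lf (nat_lit 78848) (.g (nat_lit 3041) (.e (nat_lit 1809) (nat_lit 120) (.e (nat_lit 524322) (nat_lit 12) (.e (nat_lit 450588) (nat_lit 10) (.e (nat_lit 573474) (nat_lit 12) (.e (nat_lit 57572) (nat_lit 54) (.e (nat_lit 770071) (nat_lit 8) (.e (nat_lit 65553) (nat_lit 0) .nil))))))) (.g (nat_lit 5) .nil .nil))) 
(.lf (nat_lit 78880) (.g (nat_lit 3531) (.e (nat_lit 1810) (nat_lit 120) (.e (nat_lit 524322) (nat_lit 12) (.e (nat_lit 450588) (nat_lit 10) (.e (nat_lit 573475) (nat_lit 12) (.e (nat_lit 57354) (nat_lit 0) .nil))))) .nil))) (.nd (nat_lit 5) 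
(.lf (nat_lit 78864) (.g (nat_lit 2276) (.e (nat_lit 1810) (nat_lit 120) (.e (nat_lit 524322) (nat_lit 12) (.e (nat_lit 450588) (nat_lit 10) (.e (nat_lit 573473) (nat_lit 12) .nil)))) .nil)) 
(.lf (nat_lit 78896) (.g (nat_lit 2349) (.e (nat_lit 1812) (nat_lit 120) (.e (nat_lit 524320) (nat_lit 12) (.e (nat_lit 450579) (nat_lit 5) (.e (nat_lit 532522) (nat_lit 7) (.e (nat_lit 319530) (nat_lit 16) (.e (nat_lit 286722) (nat_lit 0) .nil)))))) (.g (nat_lit 5) .nil .nil))))) (.nd (nat_lit 4) (.nd (nat_lit 5) 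
(.lf (nat_lit 78856) (.g (nat_lit 2570) (.e (nat_lit 1809) (nat_lit 120) (.e (nat_lit 524322) (nat_lit 12) (.e (nat_lit 450588) (nat_lit 10) (.e (nat_lit 573475) (nat_lit 12) (.e (nat_lit 57574) (nat_lit 55) (.e (nat_lit 778464) (nat_lit 11) (.e (nat_lit 24592) (nat_lit 0) .nil))))))) (.g (nat_lit 4) .nil .nil))) 
(.lf (nat_lit 78888) (.g (nat_lit 2445) (.e (nat_lit 1811) (nat_lit 120) (.e (nat_lit 524322) (nat_lit 12) (.e (nat_lit 450588) (nat_lit 10) (.e (nat_lit 573474) (nat_lit 12) (.e (nat_lit 57572) (nat_lit 54) .nil))))) .nil))) (.nd (nat_lit 5) 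
(.lf (nat_lit 78872) (.g (nat_lit 3451) (.e (nat_lit 1810) (nat_lit 120) (.e (nat_lit 524322) (nat_lit 12) (.e (nat_lit 450588) (nat_lit 10) (.e (nat_lit 573474) (nat_lit 12) (.e (nat_lit 57572) (nat_lit 54) (.e (nat_lit 770072) (nat_lit 8) (.e (nat_lit 65536) (nat_lit 0) .nil))))))) (.g (nat_lit 6) .nil .nil))) 
(.lf (nat_lit 78904) (.g (nat_lit 3077) (.e (nat_lit 1812) (nat_lit 120) (.e (nat_lit 524322) (nat_lit 12) (.e (nat_lit 450580) (nat_lit 5) (.e (nat_lit 532523) (nat_lit 7) (.e (nat_lit 319533) (nat_lit 16) (.e (nat_lit 286722) (nat_lit 0) .nil)))))) (.g (nat_lit 6) .nil .nil)))))) (.nd (nat_lit 3) (.nd (nat_lit 4) (.nd (nat_lit 5) 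
(.lf (nat_lit 78852) (.g (nat_lit 4054) (.e (nat_lit 1809) (nat_lit 120) (.e (nat_lit 524322) (nat_lit 12) (.e (nat_lit 450588) (nat_lit 10) (.e (nat_lit 573474) (nat_lit 12) (.e (nat_lit 57572) (nat_lit 54) (.e (nat_lit 770072) (nat_lit 8) (.e (nat_lit 65546) (nat_lit 0) .nil))))))) (.g (nat_lit 0) .nil .nil))) 
(.lf (nat_lit 78884) (.g (nat_lit 3215) (.e (nat_lit 1811) (nat_lit 120) (.e (nat_lit 524322) (nat_lit 12) (.e (nat_lit 450588) (nat_lit 10) (.e (nat_lit 573469) (nat_lit 11) (.e (nat_lit 16473) (nat_lit 14) .nil))))) .nil))) (.nd (nat_lit 5) 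
(.lf (nat_lit 78868) (.g (nat_lit 3320) (.e (nat_lit 1810) (nat_lit 120) (.e (nat_lit 524322) (nat_lit 12) (.e (nat_lit 450588) (nat_lit 10) (.e (nat_lit 573473) (nat_lit 12) (.e (nat_lit 57353) (nat_lit 0) .nil))))) .nil)) 
(.lf (nat_lit 78900) (.g (nat_lit 2534) (.e (nat_lit 1812) (nat_lit 120) (.e (nat_lit 524322) (nat_lit 12) (.e (nat_lit 450579) (nat_lit 5) (.e (nat_lit 532522) (nat_lit 7) (.e (nat_lit 319531) (nat_lit 16) (.e (nat_lit 286722) (nat_lit 0) .nil)))))) (.g (nat_lit 5) .nil .nil))))) (.nd (nat_lit 4) (.nd (nat_lit 5) 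
(.lf (nat_lit 78860) (.g (nat_lit 917) (.e (nat_lit 1810) (nat_lit 120) (.e (nat_lit 524320) (nat_lit 12) (.e (nat_lit 450579) (nat_lit 5) (.e (nat_lit 532522) (nat_lit 7) .nil)))) .nil)) 
(.lf (nat_lit 78892) (.g (nat_lit 2773) (.e (nat_lit 1811) (nat_lit 120) (.e (nat_lit 524322) (nat_lit 12) (.e (nat_lit 450588) (nat_lit 10) (.e (nat_lit 573475) (nat_lit 12) (.e (nat_lit 57574) (nat_lit 55) (.e (nat_lit 778464) (nat_lit 11) (.e (nat_lit 24583) (nat_lit 0) .nil))))))) (.g (nat_lit 4) .nil .nil)))) (.nd (nat_lit 5) 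
(.lf (nat_lit 78876) (.g (nat_lit 3425) (.e (nat_lit 1810) (nat_lit 120) (.e (nat_lit 524322) (nat_lit 12) (.e (nat_lit 450588) (nat_lit 10) (.e (nat_lit 573475) (nat_lit 12) (.e (nat_lit 57347) (nat_lit 0) (.e (nat_lit 7265) (nat_lit 384) (.e (nat_lit 57412) (nat_lit 12) (.e (nat_lit 335886) (nat_lit 0) .nil)))))))) (.g (nat_lit 4) .nil .nil))) 
(.lf (nat_lit 78908) (.g (nat_lit 2318) (.e (nat_lit 1812) (nat_lit 120) (.e (nat_lit 524322) (nat_lit 12) (.e (nat_lit 450581) (nat_lit 5) (.e (nat_lit 532523) (nat_lit 7) (.e (nat_lit 319511) (nat_lit 10) (.e (nat_lit 5293) (nat_lit 298) (.e (nat_lit 1006) (nat_lit 81) .nil))))))) (.g (nat_lit 0) .nil .nil))))))) (.nd (nat_lit 2) (.nd (nat_lit 3) (.nd (nat_lit 4) (.nd (nat_lit 5) 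
(.lf (nat_lit 78850) (.g (nat_lit 2286) (.e (nat_lit 1809) (nat_lit 120) (.e (nat_lit 524322) (nat_lit 12) (.e (nat_lit 450588) (nat_lit 10) (.e (nat_lit 573474) (nat_lit 12) (.e (nat_lit 57572) (nat_lit 54) (.e (nat_lit 770071) (nat_lit 8) (.e (nat_lit 65558) (nat_lit 0) .nil))))))) (.g (nat_lit 4) .nil .nil))) 
(.lf (nat_lit 78882) (.g (nat_lit 3536) (.e (nat_lit 1811) (nat_lit 120) (.e (nat_lit 524322) (nat_lit 12) (.e (nat_lit 450588) (nat_lit 10) (.e (nat_lit 573452) (nat_lit 9) (.e (nat_lit 430) (nat_lit 32) .nil))))) .nil))) (.nd (nat_lit 5) 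
(.lf (nat_lit 78866) (.g (nat_lit 3307) (.e (nat_lit 1810) (nat_lit 120) (.e (nat_lit 524322) (nat_lit 12) (.e (nat_lit 450588) (nat_lit 10) (.e (nat_lit 573473) (nat_lit 12) (.e (nat_lit 57348) (nat_lit 0) .nil))))) .nil)) 
(.lf (nat_lit 78898) (.g (nat_lit 2840) (.e (nat_lit 1812) (nat_lit 120) (.e (nat_lit 524320) (nat_lit 12) (.e (nat_lit 450583) (nat_lit 7) (.e (nat_lit 548913) (nat_lit 18) (.e (nat_lit 172125) (nat_lit 14) (.e (nat_lit 491524) (nat_lit 0) .nil)))))) (.g (nat_lit 5) .nil .nil))))) (.nd (nat_lit 4) (.nd (nat_lit 5) 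
(.lf (nat_lit 78858) (.g (nat_lit 2622) (.e (nat_lit 1809) (nat_lit 120) (.e (nat_lit 524322) (nat_lit 12) (.e (nat_lit 450588) (nat_lit 10) (.e (nat_lit 573475) (nat_lit 12) (.e (nat_lit 57574) (nat_lit 55) (.e (nat_lit 778466) (nat_lit 11) (.e (nat_lit 24582) (nat_lit 0) .nil))))))) (.g (nat_lit 4) .nil .nil))) 
(.lf (nat_lit 78890) (.g (nat_lit 1875) (.e (nat_lit 1811) (nat_lit 120) (.e (nat_lit 524322) (nat_lit 12) (.e (nat_lit 450588) (nat_lit 10) (.e (nat_lit 573475) (nat_lit 12) .nil)))) .nil))) (.nd (nat_lit 5) 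
(.lf (nat_lit 78874) (.g (nat_lit 1946) (.e (nat_lit 1810) (nat_lit 120) (.e (nat_lit 524322) (nat_lit 12) (.e (nat_lit 450588) (nat_lit 10) (.e (nat_lit 573475) (nat_lit 12) .nil)))) .nil)) 
(.lf (nat_lit 78906) (.g (nat_lit 2945) (.e (nat_lit 1812) (nat_lit 120) (.e (nat_lit 524322) (nat_lit 12) (.e (nat_lit 450580) (nat_lit 5) (.e (nat_lit 532523) (nat_lit 7) (.e (nat_lit 319534) (nat_lit 16) (.e (nat_lit 286722) (nat_lit 0) .nil)))))) (.g (nat_lit 5) .nil .nil)))))) (.nd (nat_lit 3) (.nd (nat_lit 4) (.nd (nat_lit 5) 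
(.lf (nat_lit 78854) (.g (nat_lit 3762) (.e (nat_lit 1809) (nat_lit 120) (.e (nat_lit 524322) (nat_lit 12) (.e (nat_lit 450588) (nat_lit 10) (.e (nat_lit 573474) (nat_lit 12) (.e (nat_lit 57572) (nat_lit 54) (.e (nat_lit 770072) (nat_lit 8) (.e (nat_lit 65559) (nat_lit 0) .nil))))))) (.g (nat_lit 7) .nil .nil))) 
(.lf (nat_lit 78886) (.g (nat_lit 3260) (.e (nat_lit 1811) (nat_lit 120) (.e (nat_lit 524322) (nat_lit 12) (.e (nat_lit 450588) (nat_lit 10) (.e (nat_lit 573470) (nat_lit 11) (.e (nat_lit 16473) (nat_lit 14) (.e (nat_lit 491520) (nat_lit 0) .nil)))))) (.g (nat_lit 5) .nil .nil)))) (.nd (nat_lit 5) 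
(.lf (nat_lit 78870) (.g (nat_lit 3203) (.e (nat_lit 1810) (nat_lit 120) (.e (nat_lit 524322) (nat_lit 12) (.e (nat_lit 450588) (nat_lit 10) (.e (nat_lit 573474) (nat_lit 12) (.e (nat_lit 57348) (nat_lit 0) .nil))))) .nil)) 
(.lf (nat_lit 78902) (.g (nat_lit 2680) (.e (nat_lit 1812) (nat_lit 120) (.e (nat_lit 524322) (nat_lit 12) (.e (nat_lit 450580) (nat_lit 5) (.e (nat_lit 532523) (nat_lit 7) (.e (nat_lit 319531) (nat_lit 16) (.e (nat_lit 286722) (nat_lit 0) .nil)))))) (.g (nat_lit 5) .nil .nil))))) (.nd (nat_lit 4) (.nd (nat_lit 5) 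
(.lf (nat_lit 78862) (.g (nat_lit 3343) (.e (nat_lit 1810) (nat_lit 120) (.e (nat_lit 524322) (nat_lit 12) (.e (nat_lit 450588) (nat_lit 10) (.e (nat_lit 573454) (nat_lit 9) .nil)))) .nil)) 
(.lf (nat_lit 78894) (.g (nat_lit 1046) (.e (nat_lit 1812) (nat_lit 120) (.e (nat_lit 524316) (nat_lit 10) (.e (nat_lit 434271) (nat_lit 38) (.e (nat_lit 655387) (nat_lit 9) (.e (nat_lit 1256) (nat_lit 92) (.e (nat_lit 106240) (nat_lit 11) (.e (nat_lit 352289) (nat_lit 20) .nil))))))) (.g (nat_lit 5) .nil .nil)))) (.nd (nat_lit 5) 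
(.lf (nat_lit 78878) (.g (nat_lit 3513) (.e (nat_lit 1810) (nat_lit 120) (.e (nat_lit 524322) (nat_lit 12) (.e (nat_lit 450588) (nat_lit 10) (.e (nat_lit 573475) (nat_lit 12) (.e (nat_lit 57351) (nat_lit 0) .nil))))) .nil)) 
(.lf (nat_lit 78910) (.g (nat_lit 3391) (.e (nat_lit 1812) (nat_lit 120) (.e (nat_lit 524322) (nat_lit 12) (.e (nat_lit 450583) (nat_lit 7) (.e (nat_lit 548913) (nat_lit 18) (.e (nat_lit 172125) (nat_lit 14) (.e (nat_lit 491524) (nat_lit 0) .nil)))))) (.g (nat_lit 0) .nil .nil)))))))) (.nd (nat_lit 1) (.nd (nat_lit 2) (.nd (nat_lit 3) (.nd (nat_lit 4) (.nd (nat_lit 5) 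
(.lf (nat_lit 78849) (.g (nat_lit 2092) (.e (nat_lit 1809) (nat_lit 120) (.e (nat_lit 524322) (nat_lit 12) (.e (nat_lit 450588) (nat_lit 10) (.e (nat_lit 573474) (nat_lit 12) (.e (nat_lit 57572) (nat_lit 54) (.e (nat_lit 770071) (nat_lit 8) (.e (nat_lit 65556) (nat_lit 0) .nil))))))) (.g (nat_lit 4) .nil .nil))) 
(.lf (nat_lit 78881) (.g (nat_lit 2400) (.e (nat_lit 1811) (nat_lit 120) (.e (nat_lit 524322) (nat_lit 12) (.e (nat_lit 450588) (nat_lit 10) (.e (nat_lit 573452) (nat_lit 9) .nil)))) .nil))) (.nd (nat_lit 5) 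
(.lf (nat_lit 78865) (.g (nat_lit 3355) (.e (nat_lit 1810) (nat_lit 120) (.e (nat_lit 524322) (nat_lit 12) (.e (nat_lit 450588) (nat_lit 10) (.e (nat_lit 573473) (nat_lit 12) (.e (nat_lit 57347) (nat_lit 0) .nil))))) .nil)) 
(.lf (nat_lit 78897) (.g (nat_lit 2405) (.e (nat_lit 1812) (nat_lit 120) (.e (nat_lit 524320) (nat_lit 12) (.e (nat_lit 450579) (nat_lit 5) (.e (nat_lit 532522) (nat_lit 7) (.e (nat_lit 319531) (nat_lit 16) (.e (nat_lit 286722) (nat_lit 0) .nil)))))) (.g (nat_lit 6) .nil .nil))))) (.nd (nat_lit 4) (.nd (nat_lit 5) 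
(.lf (nat_lit 78857) (.g (nat_lit 3276) (.e (nat_lit 1809) (nat_lit 120) (.e (nat_lit 524322) (nat_lit 12) (.e (nat_lit 450588) (nat_lit 10) (.e (nat_lit 573475) (nat_lit 12) (.e (nat_lit 57574) (nat_lit 55) (.e (nat_lit 778465) (nat_lit 11) (.e (nat_lit 24588) (nat_lit 0) .nil))))))) (.g (nat_lit 5) .nil .nil))) 
(.lf (nat_lit 78889) (.g (nat_lit 3957) (.e (nat_lit 1811) (nat_lit 120) (.e (nat_lit 524322) (nat_lit 12) (.e (nat_lit 450588) (nat_lit 10) (.e (nat_lit 573474) (nat_lit 12) (.e (nat_lit 57572) (nat_lit 54) (.e (nat_lit 770072) (nat_lit 8) (.e (nat_lit 65536) (nat_lit 0) .nil))))))) (.g (nat_lit 7) .nil .nil)))) (.nd (nat_lit 5) 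
(.lf (nat_lit 78873) (.g (nat_lit 3862) (.e (nat_lit 1810) (nat_lit 120) (.e (nat_lit 524322) (nat_lit 12) (.e (nat_lit 450588) (nat_lit 10) (.e (nat_lit 573474) (nat_lit 12) (.e (nat_lit 57572) (nat_lit 54) (.e (nat_lit 770072) (nat_lit 8) (.e (nat_lit 65544) (nat_lit 0) .nil))))))) (.g (nat_lit 0) .nil .nil))) 
(.lf (nat_lit 78905) (.g (nat_lit 2861) (.e (nat_lit 1812) (nat_lit 120) (.e (nat_lit 524322) (nat_lit 12) (.e (nat_lit 450580) (nat_lit 5) (.e (nat_lit 532523) (nat_lit 7) (.e (nat_lit 319534) (nat_lit 16) (.e (nat_lit 286720) (nat_lit 0) .nil)))))) (.g (nat_lit 5) .nil .nil)))))) (.nd (nat_lit 3) (.nd (nat_lit 4) (.nd (nat_lit 5) 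
(.lf (nat_lit 78853) (.g (nat_lit 2825) (.e (nat_lit 1809) (nat_lit 120) (.e (nat_lit 524322) (nat_lit 12) (.e (nat_lit 450588) (nat_lit 10) (.e (nat_lit 573474) (nat_lit 12) (.e (nat_lit 57572) (nat_lit 54) (.e (nat_lit 770072) (nat_lit 8) (.e (nat_lit 65550) (nat_lit 0) .nil))))))) (.g (nat_lit 5) .nil .nil))) 
(.lf (nat_lit 78885) (.g (nat_lit 2411) (.e (nat_lit 1811) (nat_lit 120) (.e (nat_lit 524322) (nat_lit 12) (.e (nat_lit 450588) (nat_lit 10) (.e (nat_lit 573470) (nat_lit 11) (.e (nat_lit 16472) (nat_lit 14) .nil))))) .nil))) (.nd (nat_lit 5) 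
(.lf (nat_lit 78869) (.g (nat_lit 2959) (.e (nat_lit 1810) (nat_lit 120) (.e (nat_lit 524322) (nat_lit 12) (.e (nat_lit 450588) (nat_lit 10) (.e (nat_lit 573474) (nat_lit 12) (.e (nat_lit 57347) (nat_lit 0) .nil))))) .nil)) 
(.lf (nat_lit 78901) (.g (nat_lit 1067) (.e (nat_lit 1812) (nat_lit 120) (.e (nat_lit 524322) (nat_lit 12) (.e (nat_lit 450579) (nat_lit 5) (.e (nat_lit 532526) (nat_lit 8) .nil)))) .nil)))) (.nd (nat_lit 4) (.nd (nat_lit 5) 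
(.lf (nat_lit 78861) (.g (nat_lit 3531) (.e (nat_lit 1810) (nat_lit 120) (.e (nat_lit 524322) (nat_lit 12) (.e (nat_lit 450588) (nat_lit 10) (.e (nat_lit 573452) (nat_lit 9) (.e (nat_lit 430) (nat_lit 32) .nil))))) .nil)) 
(.lf (nat_lit 78893) (.g (nat_lit 1625) (.e (nat_lit 1812) (nat_lit 120) (.e (nat_lit 524291) (nat_lit 0) (.e (nat_lit 3459) (nat_lit 216) (.e (nat_lit 688161) (nat_lit 13) (.e (nat_lit 1661) (nat_lit 115) (.e (nat_lit 401152) (nat_lit 11) (.e (nat_lit 352289) (nat_lit 20) .nil))))))) (.g (nat_lit 5) .nil .nil)))) (.nd (nat_lit 5) 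
(.lf (nat_lit 78877) (.g (nat_lit 3711) (.e (nat_lit 1810) (nat_lit 120) (.e (nat_lit 524322) (nat_lit 12) (.e (nat_lit 450588) (nat_lit 10) (.e (nat_lit 573475) (nat_lit 12) (.e (nat_lit 57348) (nat_lit 0) .nil))))) .nil)) 
(.lf (nat_lit 78909) (.g (nat_lit 2881) (.e (nat_lit 1812) (nat_lit 120) (.e (nat_lit 524322) (nat_lit 12) (.e (nat_lit 450581) (nat_lit 5) (.e (nat_lit 532523) (nat_lit 7) (.e (nat_lit 319533) (nat_lit 16) (.e (nat_lit 286720) (nat_lit 0) .nil)))))) (.g (nat_lit 0) .nil .nil))))))) (.nd (nat_lit 2) (.nd (nat_lit 3) (.nd (nat_lit 4) (.nd (nat_lit 5) 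
(.lf (nat_lit 78851) (.g (nat_lit 2898) (.e (nat_lit 1809) (nat_lit 120) (.e (nat_lit 524322) (nat_lit 12) (.e (nat_lit 450588) (nat_lit 10) (.e (nat_lit 573474) (nat_lit 12) (.e (nat_lit 57572) (nat_lit 54) (.e (nat_lit 770072) (nat_lit 8) (.e (nat_lit 65536) (nat_lit 0) .nil))))))) (.g (nat_lit 5) .nil .nil))) 
(.lf (nat_lit 78883) (.g (nat_lit 3344) (.e (nat_lit 1811) (nat_lit 120) (.e (nat_lit 524322) (nat_lit 12) (.e (nat_lit 450588) (nat_lit 10) (.e (nat_lit 573454) (nat_lit 9) .nil)))) .nil))) (.nd (nat_lit 5) 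
(.lf (nat_lit 78867) (.g (nat_lit 3125) (.e (nat_lit 1810) (nat_lit 120) (.e (nat_lit 524322) (nat_lit 12) (.e (nat_lit 450588) (nat_lit 10) (.e (nat_lit 573473) (nat_lit 12) (.e (nat_lit 57352) (nat_lit 0) .nil))))) .nil)) 
(.lf (nat_lit 78899) (.g (nat_lit 4325) (.e (nat_lit 1812) (nat_lit 120) (.e (nat_lit 524320) (nat_lit 12) (.e (nat_lit 450583) (nat_lit 7) (.e (nat_lit 548913) (nat_lit 18) (.e (nat_lit 172126) (nat_lit 14) (.e (nat_lit 491524) (nat_lit 0) .nil)))))) (.g (nat_lit 0) .nil .nil))))) (.nd (nat_lit 4) (.nd (nat_lit 5) 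
(.lf (nat_lit 78859) (.g (nat_lit 2728) (.e (nat_lit 1809) (nat_lit 120) (.e (nat_lit 524322) (nat_lit 12) (.e (nat_lit 450588) (nat_lit 10) (.e (nat_lit 573475) (nat_lit 12) (.e (nat_lit 57574) (nat_lit 55) (.e (nat_lit 778466) (nat_lit 11) (.e (nat_lit 24595) (nat_lit 0) .nil))))))) (.g (nat_lit 4) .nil .nil))) 
(.lf (nat_lit 78891) (.g (nat_lit 3430) (.e (nat_lit 1811) (nat_lit 120) (.e (nat_lit 524322) (nat_lit 12) (.e (nat_lit 450588) (nat_lit 10) (.e (nat_lit 573475) (nat_lit 12) (.e (nat_lit 57574) (nat_lit 55) (.e (nat_lit 778464) (nat_lit 11) (.e (nat_lit 24577) (nat_lit 0) .nil))))))) (.g (nat_lit 5) .nil .nil)))) (.nd (nat_lit 5) 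
(.lf (nat_lit 78875) (.g (nat_lit 3404) (.e (nat_lit 1810) (nat_lit 120) (.e (nat_lit 524322) (nat_lit 12) (.e (nat_lit 450588) (nat_lit 10) (.e (nat_lit 573475) (nat_lit 12) (.e (nat_lit 57347) (nat_lit 0) .nil))))) .nil)) 
(.lf (nat_lit 78907) (.g (nat_lit 1781) (.e (nat_lit 1812) (nat_lit 120) (.e (nat_lit 524322) (nat_lit 12) (.e (nat_lit 450581) (nat_lit 5) (.e (nat_lit 532523) (nat_lit 7) (.e (nat_lit 319504) (nat_lit 10) (.e (nat_lit 7936) (nat_lit 298) (.e (nat_lit 1016) (nat_lit 81) .nil))))))) (.g (nat_lit 5) .nil .nil)))))) (.nd (nat_lit 3) (.nd (nat_lit 4) (.nd (nat_lit 5) 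
(.lf (nat_lit 78855) (.g (nat_lit 1700) (.e (nat_lit 1809) (nat_lit 120) (.e (nat_lit 524322) (nat_lit 12) (.e (nat_lit 450588) (nat_lit 10) (.e (nat_lit 573475) (nat_lit 12) .nil)))) .nil)) 
(.lf (nat_lit 78887) (.g (nat_lit 2284) (.e (nat_lit 1811) (nat_lit 120) (.e (nat_lit 524322) (nat_lit 12) (.e (nat_lit 450588) (nat_lit 10) (.e (nat_lit 573473) (nat_lit 12) .nil)))) .nil))) (.nd (nat_lit 5) 
(.lf (nat_lit 78871) (.g (nat_lit 3976) (.e (nat_lit 1810) (nat_lit 120) (.e (nat_lit 524322) (nat_lit 12) (.e (nat_lit 450588) (nat_lit 10) (.e (nat_lit 573474) (nat_lit 12) (.e (nat_lit 57572) (nat_lit 54) (.e (nat_lit 770071) (nat_lit 8) (.e (nat_lit 65544) (nat_lit 0) .nil))))))) (.g (nat_lit 0) .nil .nil))) 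
(.lf (nat_lit 78903) (.g (nat_lit 2972) (.e (nat_lit 1812) (nat_lit 120) (.e (nat_lit 524322) (nat_lit 12) (.e (nat_lit 450580) (nat_lit 5) (.e (nat_lit 532523) (nat_lit 7) (.e (nat_lit 319533) (nat_lit 16) (.e (nat_lit 286720) (nat_lit 0) .nil)))))) (.g (nat_lit 6) .nil .nil))))) (.nd (nat_lit 4) (.nd (nat_lit 5) 
(.lf (nat_lit 78863) (.g (nat_lit 1660) (.e (nat_lit 1810) (nat_lit 120) (.e (nat_lit 524322) (nat_lit 12) (.e (nat_lit 450588) (nat_lit 10) (.e (nat_lit 573471) (nat_lit 11) .nil)))) .nil)) 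
(.lf (nat_lit 78895) (.g (nat_lit 1389) (.e (nat_lit 1812) (nat_lit 120) (.e (nat_lit 524316) (nat_lit 10) (.e (nat_lit 434272) (nat_lit 38) (.e (nat_lit 655386) (nat_lit 9) (.e (nat_lit 1256) (nat_lit 92) (.e (nat_lit 106240) (nat_lit 11) (.e (nat_lit 352289) (nat_lit 20) .nil))))))) (.g (nat_lit 5) .nil .nil)))) (.nd (nat_lit 5) 
(.lf (nat_lit 78879) (.g (nat_lit 3740) (.e (nat_lit 1810) (nat_lit 120) (.e (nat_lit 524322) (nat_lit 12) (.e (nat_lit 450588) (nat_lit 10) (.e (nat_lit 573475) (nat_lit 12) (.e (nat_lit 57353) (nat_lit 0) .nil))))) .nil)) 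
(.lf (nat_lit 78911) (.g (nat_lit 3719) (.e (nat_lit 1812) (nat_lit 120) (.e (nat_lit 524322) (nat_lit 12) (.e (nat_lit 450583) (nat_lit 7) (.e (nat_lit 548913) (nat_lit 18) (.e (nat_lit 172126) (nat_lit 14) (.e (nat_lit 491524) (nat_lit 0) .nil)))))) (.g (nat_lit 0) .nil .nil)))))))))

noncomputable def tv1067 : DT := (.nd (nat_lit 0) (.nd (nat_lit 1) (.nd (nat_lit 2) (.nd (nat_lit 3) (.nd (nat_lit 4) (.nd (nat_lit 5) 
(.lf (nat_lit 78912) (.g (nat_lit 1850) (.e (nat_lit 1812) (nat_lit 120) (.e (nat_lit 524322) (nat_lit 12) (.e (nat_lit 450587) (nat_lit 10) (.e (nat_lit 573454) (nat_lit 9) (.e (nat_lit 1315) (nat_lit 98) (.e (nat_lit 147496) (nat_lit 11) (.e (nat_lit 24585) (nat_lit 0) .nil))))))) (.g (nat_lit 4) .nil .nil))) 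
(.lf (nat_lit 78944) (.g (nat_lit 2165) (.e (nat_lit 1812) (nat_lit 120) (.e (nat_lit 524322) (nat_lit 12) (.e (nat_lit 450587) (nat_lit 10) (.e (nat_lit 573478) (nat_lit 12) (.e (nat_lit 57574) (nat_lit 55) (.e (nat_lit 778463) (nat_lit 11) (.e (nat_lit 24583) (nat_lit 0) .nil))))))) (.g (nat_lit 5) .nil .nil)))) (.nd (nat_lit 5) 
(.lf (nat_lit 78928) (.g (nat_lit 2371) (.e (nat_lit 1812) (nat_lit 120) (.e (nat_lit 524322) (nat_lit 12) (.e (nat_lit 450587) (nat_lit 10) (.e (nat_lit 573477) (nat_lit 12) (.e (nat_lit 57574) (nat_lit 55) (.e (nat_lit 778360) (nat_lit 9) (.e (nat_lit 232) (nat_lit 21) (.e (nat_lit 335915) (nat_lit 0) .nil)))))))) (.g (nat_lit 5) .nil .nil))) 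
(.lf (nat_lit 78960) (.g (nat_lit 2512) (.e (nat_lit 1812) (nat_lit 120) (.e (nat_lit 524322) (nat_lit 12) (.e (nat_lit 450588) (nat_lit 10) (.e (nat_lit 573449) (nat_lit 9) (.e (nat_lit 1312) (nat_lit 98) .nil))))) .nil)))) (.nd (nat_lit 4) (.nd (nat_lit 5) 
(.lf (nat_lit 78920) (.g (nat_lit 3781) (.e (nat_lit 1812) (nat_lit 120) (.e (nat_lit 524322) (nat_lit 12) (.e (nat_lit 450587) (nat_lit 10) (.e (nat_lit 573475) (nat_lit 12) (.e (nat_lit 57569) (nat_lit 53) .nil))))) .nil)) 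
(.lf (nat_lit 78952) (.g (nat_lit 163) (.e (nat_lit 1812) (nat_lit 120) (.e (nat_lit 524322) (nat_lit 12) (.e (nat_lit 450588) (nat_lit 10) .nil))) .nil))) (.nd (nat_lit 5) 
(.lf (nat_lit 78936) (.g (nat_lit 3543) (.e (nat_lit 1812) (nat_lit 120) (.e (nat_lit 524322) (nat_lit 12) (.e (nat_lit 450587) (nat_lit 10) (.e (nat_lit 573477) (nat_lit 12) (.e (nat_lit 57574) (nat_lit 55) (.e (nat_lit 778466) (nat_lit 11) (.e (nat_lit 24585) (nat_lit 0) .nil))))))) (.g (nat_lit 0) .nil .nil))) 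
(.lf (nat_lit 78968) (.g (nat_lit 2801) (.e (nat_lit 1812) (nat_lit 120) (.e (nat_lit 524322) (nat_lit 12) (.e (nat_lit 450588) (nat_lit 10) (.e (nat_lit 573451) (nat_lit 9) (.e (nat_lit 16) (nat_lit 0) (.e (nat_lit 7086) (nat_lit 379) (.e (nat_lit 123202) (nat_lit 270) (.e (nat_lit 1016) (nat_lit 81) .nil)))))))) (.g (nat_lit 4) .nil .nil)))))) (.nd (nat_lit 3) (.nd (nat_lit 4) (.nd (nat_lit 5) 
(.lf (nat_lit 78916) (.g (nat_lit 833) (.e (nat_lit 1812) (nat_lit 120) (.e (nat_lit 524322) (nat_lit 12) (.e (nat_lit 450587) (nat_lit 10) (.e (nat_lit 573457) (nat_lit 9) .nil)))) .nil)) 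
(.lf (nat_lit 78948) (.g (nat_lit 3280) (.e (nat_lit 1812) (nat_lit 120) (.e (nat_lit 524322) (nat_lit 12) (.e (nat_lit 450587) (nat_lit 10) (.e (nat_lit 573478) (nat_lit 12) (.e (nat_lit 57574) (nat_lit 55) (.e (nat_lit 778465) (nat_lit 11) (.e (nat_lit 24583) (nat_lit 0) .nil))))))) (.g (nat_lit 6) .nil .nil)))) (.nd (nat_lit 5) 
(.lf (nat_lit 78932) (.g (nat_lit 3070) (.e (nat_lit 1812) (nat_lit 120) (.e (nat_lit 524322) (nat_lit 12) (.e (nat_lit 450587) (nat_lit 10) (.e (nat_lit 573477) (nat_lit 12) (.e (nat_lit 57574) (nat_lit 55) (.e (nat_lit 778464) (nat_lit 11) (.e (nat_lit 24586) (nat_lit 0) .nil))))))) (.g (nat_lit 6) .nil .nil))) 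
(.lf (nat_lit 78964) (.g (nat_lit 1995) (.e (nat_lit 1812) (nat_lit 120) (.e (nat_lit 524322) (nat_lit 12) (.e (nat_lit 450588) (nat_lit 10) (.e (nat_lit 573450) (nat_lit 9) (.e (nat_lit 442) (nat_lit 33) .nil))))) .nil)))) (.nd (nat_lit 4) (.nd (nat_lit 5) 
(.lf (nat_lit 78924) (.g (nat_lit 1498) (.e (nat_lit 1812) (nat_lit 120) (.e (nat_lit 524322) (nat_lit 12) (.e (nat_lit 450587) (nat_lit 10) (.e (nat_lit 573477) (nat_lit 12) (.e (nat_lit 57353) (nat_lit 0) (.e (nat_lit 7261) (nat_lit 384) (.e (nat_lit 57412) (nat_lit 12) (.e (nat_lit 335886) (nat_lit 0) .nil)))))))) (.g (nat_lit 4) .nil .nil))) 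
(.lf (nat_lit 78956) (.g (nat_lit 2491) (.e (nat_lit 1812) (nat_lit 120) (.e (nat_lit 524322) (nat_lit 12) (.e (nat_lit 450588) (nat_lit 10) (.e (nat_lit 573449) (nat_lit 9) (.e (nat_lit 411) (nat_lit 32) .nil))))) .nil))) (.nd (nat_lit 5) 
(.lf (nat_lit 78940) (.g (nat_lit 851) (.e (nat_lit 1812) (nat_lit 120) (.e (nat_lit 524322) (nat_lit 12) (.e (nat_lit 450587) (nat_lit 10) (.e (nat_lit 573478) (nat_lit 12) .nil)))) .nil)) 
(.lf (nat_lit 78972) (.g (nat_lit 2475) (.e (nat_lit 1812) (nat_lit 120) (.e (nat_lit 524322) (nat_lit 12) (.e (nat_lit 450588) (nat_lit 10) (.e (nat_lit 573451) (nat_lit 9) (.e (nat_lit 396) (nat_lit 32) .nil))))) .nil)))))) (.nd (nat_lit 2) (.nd (nat_lit 3) (.nd (nat_lit 4) (.nd (nat_lit 5) 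
(.lf (nat_lit 78914) (.g (nat_lit 1656) (.e (nat_lit 1812) (nat_lit 120) (.e (nat_lit 524322) (nat_lit 12) (.e (nat_lit 450587) (nat_lit 10) (.e (nat_lit 573456) (nat_lit 9) (.e (nat_lit 430) (nat_lit 32) .nil))))) .nil)) 
(.lf (nat_lit 78946) (.g (nat_lit 2987) (.e (nat_lit 1812) (nat_lit 120) (.e (nat_lit 524322) (nat_lit 12) (.e (nat_lit 450587) (nat_lit 10) (.e (nat_lit 573478) (nat_lit 12) (.e (nat_lit 57574) (nat_lit 55) (.e (nat_lit 778464) (nat_lit 11) (.e (nat_lit 24583) (nat_lit 0) .nil))))))) (.g (nat_lit 7) .nil .nil)))) (.nd (nat_lit 5) 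
(.lf (nat_lit 78930) (.g (nat_lit 2571) (.e (nat_lit 1812) (nat_lit 120) (.e (nat_lit 524322) (nat_lit 12) (.e (nat_lit 450587) (nat_lit 10) (.e (nat_lit 573477) (nat_lit 12) (.e (nat_lit 57574) (nat_lit 55) (.e (nat_lit 778464) (nat_lit 11) (.e (nat_lit 24582) (nat_lit 0) .nil))))))) (.g (nat_lit 5) .nil .nil))) 
(.lf (nat_lit 78962) (.g (nat_lit 1342) (.e (nat_lit 1812) (nat_lit 120) (.e (nat_lit 524322) (nat_lit 12) (.e (nat_lit 450588) (nat_lit 10) (.e (nat_lit 573450) (nat_lit 9) .nil)))) .nil)))) (.nd (nat_lit 4) (.nd (nat_lit 5) 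
(.lf (nat_lit 78922) (.g (nat_lit 848) (.e (nat_lit 1812) (nat_lit 120) (.e (nat_lit 524322) (nat_lit 12) (.e (nat_lit 450587) (nat_lit 10) (.e (nat_lit 573477) (nat_lit 12) .nil)))) .nil)) 
(.lf (nat_lit 78954) (.g (nat_lit 1730) (.e (nat_lit 1812) (nat_lit 120) (.e (nat_lit 524322) (nat_lit 12) (.e (nat_lit 450588) (nat_lit 10) (.e (nat_lit 573449) (nat_lit 9) .nil)))) .nil))) (.nd (nat_lit 5) 
(.lf (nat_lit 78938) (.g (nat_lit 3090) (.e (nat_lit 1812) (nat_lit 120) (.e (nat_lit 524322) (nat_lit 12) (.e (nat_lit 450587) (nat_lit 10) (.e (nat_lit 573477) (nat_lit 12) (.e (nat_lit 57575) (nat_lit 55) (.e (nat_lit 778463) (nat_lit 11) (.e (nat_lit 24583) (nat_lit 0) .nil))))))) (.g (nat_lit 5) .nil .nil))) 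
(.lf (nat_lit 78970) (.g (nat_lit 3471) (.e (nat_lit 1812) (nat_lit 120) (.e (nat_lit 524322) (nat_lit 12) (.e (nat_lit 450588) (nat_lit 10) (.e (nat_lit 573451) (nat_lit 9) (.e (nat_lit 359) (nat_lit 30) (.e (nat_lit 409603) (nat_lit 0) (.e (nat_lit 5270) (nat_lit 298) (.e (nat_lit 1016) (nat_lit 81) .nil)))))))) (.g (nat_lit 5) .nil .nil)))))) (.nd (nat_lit 3) (.nd (nat_lit 4) (.nd (nat_lit 5) 
(.lf (nat_lit 78918) (.g (nat_lit 3498) (.e (nat_lit 1812) (nat_lit 120) (.e (nat_lit 524322) (nat_lit 12) (.e (nat_lit 450587) (nat_lit 10) (.e (nat_lit 573471) (nat_lit 11) (.e (nat_lit 16470) (nat_lit 14) .nil))))) .nil)) 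
(.lf (nat_lit 78950) (.g (nat_lit 3308) (.e (nat_lit 1812) (nat_lit 120) (.e (nat_lit 524322) (nat_lit 12) (.e (nat_lit 450587) (nat_lit 10) (.e (nat_lit 573478) (nat_lit 12) (.e (nat_lit 57574) (nat_lit 55) (.e (nat_lit 778466) (nat_lit 11) (.e (nat_lit 24585) (nat_lit 0) .nil))))))) (.g (nat_lit 7) .nil .nil)))) (.nd (nat_lit 5) 
(.lf (nat_lit 78934) (.g (nat_lit 3470) (.e (nat_lit 1812) (nat_lit 120) (.e (nat_lit 524322) (nat_lit 12) (.e (nat_lit 450587) (nat_lit 10) (.e (nat_lit 573477) (nat_lit 12) (.e (nat_lit 57574) (nat_lit 55) (.e (nat_lit 778465) (nat_lit 11) (.e (nat_lit 24585) (nat_lit 0) .nil))))))) (.g (nat_lit 6) .nil .nil))) 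
(.lf (nat_lit 78966) (.g (nat_lit 2571) (.e (nat_lit 1812) (nat_lit 120) (.e (nat_lit 524322) (nat_lit 12) (.e (nat_lit 450588) (nat_lit 10) (.e (nat_lit 573451) (nat_lit 9) (.e (nat_lit 11) (nat_lit 0) .nil))))) .nil)))) (.nd (nat_lit 4) (.nd (nat_lit 5) 
(.lf (nat_lit 78926) (.g (nat_lit 1879) (.e (nat_lit 1812) (nat_lit 120) (.e (nat_lit 524322) (nat_lit 12) (.e (nat_lit 450587) (nat_lit 10) (.e (nat_lit 573477) (nat_lit 12) (.e (nat_lit 57353) (nat_lit 0) (.e (nat_lit 7265) (nat_lit 384) (.e (nat_lit 57406) (nat_lit 12) (.e (nat_lit 335878) (nat_lit 0) .nil)))))))) (.g (nat_lit 5) .nil .nil))) 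
(.lf (nat_lit 78958) (.g (nat_lit 2463) (.e (nat_lit 1812) (nat_lit 120) (.e (nat_lit 524322) (nat_lit 12) (.e (nat_lit 450588) (nat_lit 10) (.e (nat_lit 573449) (nat_lit 9) (.e (nat_lit 7936) (nat_lit 33) .nil))))) .nil))) (.nd (nat_lit 5) 
(.lf (nat_lit 78942) (.g (nat_lit 1524) (.e (nat_lit 1812) (nat_lit 120) (.e (nat_lit 524322) (nat_lit 12) (.e (nat_lit 450587) (nat_lit 10) (.e (nat_lit 573478) (nat_lit 12) (.e (nat_lit 57353) (nat_lit 0) .nil))))) .nil)) 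
(.lf (nat_lit 78974) (.g (nat_lit 2597) (.e (nat_lit 1812) (nat_lit 120) (.e (nat_lit 524322) (nat_lit 12) (.e (nat_lit 450588) (nat_lit 10) (.e (nat_lit 573451) (nat_lit 9) (.e (nat_lit 428) (nat_lit 32) (.e (nat_lit 426347) (nat_lit 14) (.e (nat_lit 491522) (nat_lit 0) .nil))))))) (.g (nat_lit 4) .nil .nil)))))))) 
(.nd (nat_lit 1) (.nd (nat_lit 2) (.nd (nat_lit 3) (.nd (nat_lit 4) (.nd (nat_lit 5) 
(.lf (nat_lit 78913) (.g (nat_lit 781) (.e (nat_lit 1812) (nat_lit 120) (.e (nat_lit 524322) (nat_lit 12) (.e (nat_lit 450587) (nat_lit 10) (.e (nat_lit 573456) (nat_lit 9) .nil)))) .nil)) 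
(.lf (nat_lit 78945) (.g (nat_lit 1722) (.e (nat_lit 1812) (nat_lit 120) (.e (nat_lit 524322) (nat_lit 12) (.e (nat_lit 450587) (nat_lit 10) (.e (nat_lit 573478) (nat_lit 12) (.e (nat_lit 57574) (nat_lit 55) (.e (nat_lit 778463) (nat_lit 11) (.e (nat_lit 24587) (nat_lit 0) .nil))))))) (.g (nat_lit 4) .nil .nil)))) (.nd (nat_lit 5) 
(.lf (nat_lit 78929) (.g (nat_lit 2456) (.e (nat_lit 1812) (nat_lit 120) (.e (nat_lit 524322) (nat_lit 12) (.e (nat_lit 450587) (nat_lit 10) (.e (nat_lit 573477) (nat_lit 12) (.e (nat_lit 57574) (nat_lit 55) (.e (nat_lit 778463) (nat_lit 11) (.e (nat_lit 24583) (nat_lit 0) .nil))))))) (.g (nat_lit 5) .nil .nil))) 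
(.lf (nat_lit 78961) (.g (nat_lit 2531) (.e (nat_lit 1812) (nat_lit 120) (.e (nat_lit 524322) (nat_lit 12) (.e (nat_lit 450588) (nat_lit 10) (.e (nat_lit 573449) (nat_lit 9) (.e (nat_lit 1312) (nat_lit 98) (.e (nat_lit 147494) (nat_lit 11) (.e (nat_lit 24583) (nat_lit 0) .nil))))))) (.g (nat_lit 4) .nil .nil))))) (.nd (nat_lit 4) (.nd (nat_lit 5) 
(.lf (nat_lit 78921) (.g (nat_lit 4315) (.e (nat_lit 1812) (nat_lit 120) (.e (nat_lit 524322) (nat_lit 12) (.e (nat_lit 450587) (nat_lit 10) (.e (nat_lit 573475) (nat_lit 12) (.e (nat_lit 57574) (nat_lit 55) .nil))))) .nil)) 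
(.lf (nat_lit 78953) (.g (nat_lit 2575) (.e (nat_lit 1812) (nat_lit 120) (.e (nat_lit 524322) (nat_lit 12) (.e (nat_lit 450588) (nat_lit 10) (.e (nat_lit 573448) (nat_lit 9) .nil)))) .nil))) (.nd (nat_lit 5) 
(.lf (nat_lit 78937) (.g (nat_lit 2877) (.e (nat_lit 1812) (nat_lit 120) (.e (nat_lit 524322) (nat_lit 12) (.e (nat_lit 450587) (nat_lit 10) (.e (nat_lit 573477) (nat_lit 12) (.e (nat_lit 57575) (nat_lit 55) (.e (nat_lit 778463) (nat_lit 11) (.e (nat_lit 24582) (nat_lit 0) .nil))))))) (.g (nat_lit 5) .nil .nil))) 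
(.lf (nat_lit 78969) (.g (nat_lit 2820) (.e (nat_lit 1812) (nat_lit 120) (.e (nat_lit 524322) (nat_lit 12) (.e (nat_lit 450588) (nat_lit 10) (.e (nat_lit 573451) (nat_lit 9) (.e (nat_lit 16) (nat_lit 0) (.e (nat_lit 7087) (nat_lit 379) (.e (nat_lit 123202) (nat_lit 270) (.e (nat_lit 1016) (nat_lit 81) .nil)))))))) (.g (nat_lit 4) .nil .nil)))))) (.nd (nat_lit 3) (.nd (nat_lit 4) (.nd (nat_lit 5) 
(.lf (nat_lit 78917) (.g (nat_lit 6031) (.e (nat_lit 1812) (nat_lit 120) (.e (nat_lit 524322) (nat_lit 12) (.e (nat_lit 450587) (nat_lit 10) (.e (nat_lit 573469) (nat_lit 11) (.e (nat_lit 16470) (nat_lit 14) (.e (nat_lit 491522) (nat_lit 0) .nil)))))) (.g (nat_lit 6) .nil .nil))) 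
(.lf (nat_lit 78949) (.g (nat_lit 3044) (.e (nat_lit 1812) (nat_lit 120) (.e (nat_lit 524322) (nat_lit 12) (.e (nat_lit 450587) (nat_lit 10) (.e (nat_lit 573478) (nat_lit 12) (.e (nat_lit 57574) (nat_lit 55) (.e (nat_lit 778465) (nat_lit 11) (.e (nat_lit 24585) (nat_lit 0) .nil))))))) (.g (nat_lit 6) .nil .nil)))) (.nd (nat_lit 5) 
(.lf (nat_lit 78933) (.g (nat_lit 3430) (.e (nat_lit 1812) (nat_lit 120) (.e (nat_lit 524322) (nat_lit 12) (.e (nat_lit 450587) (nat_lit 10) (.e (nat_lit 573477) (nat_lit 12) (.e (nat_lit 57574) (nat_lit 55) (.e (nat_lit 778465) (nat_lit 11) (.e (nat_lit 24583) (nat_lit 0) .nil))))))) (.g (nat_lit 6) .nil .nil))) 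
(.lf (nat_lit 78965) (.g (nat_lit 1353) (.e (nat_lit 1812) (nat_lit 120) (.e (nat_lit 524322) (nat_lit 12) (.e (nat_lit 450588) (nat_lit 10) (.e (nat_lit 573451) (nat_lit 9) .nil)))) .nil)))) (.nd (nat_lit 4) (.nd (nat_lit 5) 
(.lf (nat_lit 78925) (.g (nat_lit 1591) (.e (nat_lit 1812) (nat_lit 120) (.e (nat_lit 524322) (nat_lit 12) (.e (nat_lit 450587) (nat_lit 10) (.e (nat_lit 573477) (nat_lit 12) (.e (nat_lit 57353) (nat_lit 0) (.e (nat_lit 7265) (nat_lit 384) (.e (nat_lit 57406) (nat_lit 12) (.e (nat_lit 335873) (nat_lit 0) .nil)))))))) (.g (nat_lit 4) .nil .nil))) 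
(.lf (nat_lit 78957) (.g (nat_lit 2524) (.e (nat_lit 1812) (nat_lit 120) (.e (nat_lit 524322) (nat_lit 12) (.e (nat_lit 450588) (nat_lit 10) (.e (nat_lit 573449) (nat_lit 9) (.e (nat_lit 442) (nat_lit 33) .nil))))) .nil))) (.nd (nat_lit 5) 
(.lf (nat_lit 78941) (.g (nat_lit 1608) (.e (nat_lit 1812) (nat_lit 120) (.e (nat_lit 524322) (nat_lit 12) (.e (nat_lit 450587) (nat_lit 10) (.e (nat_lit 573478) (nat_lit 12) (.e (nat_lit 57351) (nat_lit 0) (.e (nat_lit 7265) (nat_lit 384) (.e (nat_lit 57406) (nat_lit 12) (.e (nat_lit 335873) (nat_lit 0) .nil)))))))) (.g (nat_lit 4) .nil .nil))) 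
(.lf (nat_lit 78973) (.g (nat_lit 2571) (.e (nat_lit 1812) (nat_lit 120) (.e (nat_lit 524322) (nat_lit 12) (.e (nat_lit 450588) (nat_lit 10) (.e (nat_lit 573451) (nat_lit 9) (.e (nat_lit 428) (nat_lit 32) .nil))))) .nil)))))) (.nd (nat_lit 2) (.nd (nat_lit 3) (.nd (nat_lit 4) (.nd (nat_lit 5) 
(.lf (nat_lit 78915) (.g (nat_lit 2865) (.e (nat_lit 1812) (nat_lit 120) (.e (nat_lit 524322) (nat_lit 12) (.e (nat_lit 450587) (nat_lit 10) (.e (nat_lit 573456) (nat_lit 9) (.e (nat_lit 430) (nat_lit 32) (.e (nat_lit 426343) (nat_lit 14) (.e (nat_lit 491522) (nat_lit 0) .nil))))))) (.g (nat_lit 6) .nil .nil))) 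
(.lf (nat_lit 78947) (.g (nat_lit 2898) (.e (nat_lit 1812) (nat_lit 120) (.e (nat_lit 524322) (nat_lit 12) (.e (nat_lit 450587) (nat_lit 10) (.e (nat_lit 573478) (nat_lit 12) (.e (nat_lit 57574) (nat_lit 55) (.e (nat_lit 778464) (nat_lit 11) (.e (nat_lit 24586) (nat_lit 0) .nil))))))) (.g (nat_lit 6) .nil .nil)))) (.nd (nat_lit 5) 
(.lf (nat_lit 78931) (.g (nat_lit 3159) (.e (nat_lit 1812) (nat_lit 120) (.e (nat_lit 524322) (nat_lit 12) (.e (nat_lit 450587) (nat_lit 10) (.e (nat_lit 573477) (nat_lit 12) (.e (nat_lit 57574) (nat_lit 55) (.e (nat_lit 778464) (nat_lit 11) (.e (nat_lit 24583) (nat_lit 0) .nil))))))) (.g (nat_lit 7) .nil .nil))) 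
(.lf (nat_lit 78963) (.g (nat_lit 2190) (.e (nat_lit 1812) (nat_lit 120) (.e (nat_lit 524322) (nat_lit 12) (.e (nat_lit 450588) (nat_lit 10) (.e (nat_lit 573450) (nat_lit 9) (.e (nat_lit 411) (nat_lit 32) .nil))))) .nil)))) (.nd (nat_lit 4) (.nd (nat_lit 5) 
(.lf (nat_lit 78923) (.g (nat_lit 1497) (.e (nat_lit 1812) (nat_lit 120) (.e (nat_lit 524322) (nat_lit 12) (.e (nat_lit 450587) (nat_lit 10) (.e (nat_lit 573477) (nat_lit 12) (.e (nat_lit 57353) (nat_lit 0) .nil))))) .nil)) 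
(.lf (nat_lit 78955) (.g (nat_lit 2546) (.e (nat_lit 1812) (nat_lit 120) (.e (nat_lit 524322) (nat_lit 12) (.e (nat_lit 450588) (nat_lit 10) (.e (nat_lit 573449) (nat_lit 9) (.e (nat_lit 359) (nat_lit 30) .nil))))) .nil))) (.nd (nat_lit 5) 
(.lf (nat_lit 78939) (.g (nat_lit 2892) (.e (nat_lit 1812) (nat_lit 120) (.e (nat_lit 524322) (nat_lit 12) (.e (nat_lit 450587) (nat_lit 10) (.e (nat_lit 573477) (nat_lit 12) (.e (nat_lit 57575) (nat_lit 55) (.e (nat_lit 778463) (nat_lit 11) (.e (nat_lit 24586) (nat_lit 0) .nil))))))) (.g (nat_lit 5) .nil .nil))) 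
(.lf (nat_lit 78971) (.g (nat_lit 3551) (.e (nat_lit 1812) (nat_lit 120) (.e (nat_lit 524322) (nat_lit 12) (.e (nat_lit 450588) (nat_lit 10) (.e (nat_lit 573451) (nat_lit 9) (.e (nat_lit 359) (nat_lit 30) (.e (nat_lit 409603) (nat_lit 0) (.e (nat_lit 5293) (nat_lit 298) (.e (nat_lit 1006) (nat_lit 81) .nil)))))))) (.g (nat_lit 5) .nil .nil)))))) (.nd (nat_lit 3) (.nd (nat_lit 4) (.nd (nat_lit 5) 
(.lf (nat_lit 78919) (.g (nat_lit 2102) (.e (nat_lit 1812) (nat_lit 120) (.e (nat_lit 524322) (nat_lit 12) (.e (nat_lit 450587) (nat_lit 10) (.e (nat_lit 573475) (nat_lit 12) .nil)))) .nil)) 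
(.lf (nat_lit 78951) (.g (nat_lit 1363) (.e (nat_lit 1812) (nat_lit 120) (.e (nat_lit 524322) (nat_lit 12) (.e (nat_lit 450587) (nat_lit 10) (.e (nat_lit 573478) (nat_lit 12) (.e (nat_lit 65280) (nat_lit 57) .nil))))) .nil))) (.nd (nat_lit 5) 
(.lf (nat_lit 78935) (.g (nat_lit 3526) (.e (nat_lit 1812) (nat_lit 120) (.e (nat_lit 524322) (nat_lit 12) (.e (nat_lit 450587) (nat_lit 10) (.e (nat_lit 573477) (nat_lit 12) (.e (nat_lit 57574) (nat_lit 55) (.e (nat_lit 778466) (nat_lit 11) (.e (nat_lit 24576) (nat_lit 0) .nil))))))) (.g (nat_lit 0) .nil .nil))) 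
(.lf (nat_lit 78967) (.g (nat_lit 2495) (.e (nat_lit 1812) (nat_lit 120) (.e (nat_lit 524322) (nat_lit 12) (.e (nat_lit 450588) (nat_lit 10) (.e (nat_lit 573451) (nat_lit 9) (.e (nat_lit 13) (nat_lit 0) .nil))))) .nil)))) (.nd (nat_lit 4) (.nd (nat_lit 5) 
(.lf (nat_lit 78927) (.g (nat_lit 2493) (.e (nat_lit 1812) (nat_lit 120) (.e (nat_lit 524322) (nat_lit 12) (.e (nat_lit 450587) (nat_lit 10) (.e (nat_lit 573477) (nat_lit 12) (.e (nat_lit 57574) (nat_lit 55) (.e (nat_lit 778359) (nat_lit 9) (.e (nat_lit 232) (nat_lit 21) (.e (nat_lit 335915) (nat_lit 0) .nil)))))))) (.g (nat_lit 5) .nil .nil))) 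
(.lf (nat_lit 78959) (.g (nat_lit 2537) (.e (nat_lit 1812) (nat_lit 120) (.e (nat_lit 524322) (nat_lit 12) (.e (nat_lit 450588) (nat_lit 10) (.e (nat_lit 573449) (nat_lit 9) (.e (nat_lit 473) (nat_lit 36) .nil))))) .nil))) (.nd (nat_lit 5) 
(.lf (nat_lit 78943) (.g (nat_lit 1447) (.e (nat_lit 1812) (nat_lit 120) (.e (nat_lit 524322) (nat_lit 12) (.e (nat_lit 450587) (nat_lit 10) (.e (nat_lit 573478) (nat_lit 12) (.e (nat_lit 57568) (nat_lit 53) .nil))))) .nil)) 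
(.lf (nat_lit 78975) (.g (nat_lit 2762) (.e (nat_lit 1812) (nat_lit 120) (.e (nat_lit 524322) (nat_lit 12) (.e (nat_lit 450588) (nat_lit 10) (.e (nat_lit 573451) (nat_lit 9) (.e (nat_lit 430) (nat_lit 32) (.e (nat_lit 426342) (nat_lit 14) (.e (nat_lit 491522) (nat_lit 0) .nil))))))) (.g (nat_lit 4) .nil .nil)))))))))

noncomputable def tv1068 : DT := (.nd (nat_lit 0) (.nd (nat_lit 1) (.nd (nat_lit 2) (.nd (nat_lit 3) (.nd (nat_lit 4) (.nd (nat_lit 5) 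
(.lf (nat_lit 78976) (.g (nat_lit 2464) (.e (nat_lit 1812) (nat_lit 120) (.e (nat_lit 524322) (nat_lit 12) (.e (nat_lit 450588) (nat_lit 10) (.e (nat_lit 573451) (nat_lit 9) (.e (nat_lit 7936) (nat_lit 33) .nil))))) .nil)) 
(.lf (nat_lit 79008) (.g (nat_lit 2042) (.e (nat_lit 1812) (nat_lit 120) (.e (nat_lit 524322) (nat_lit 12) (.e (nat_lit 450588) (nat_lit 10) (.e (nat_lit 573470) (nat_lit 11) (.e (nat_lit 16388) (nat_lit 0) (.e (nat_lit 7495) (nat_lit 402) (.e (nat_lit 982) (nat_lit 81) .nil))))))) (.g (nat_lit 4) .nil .nil)))) (.nd (nat_lit 5) 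
(.lf (nat_lit 78992) (.g (nat_lit 2492) (.e (nat_lit 1812) (nat_lit 120) (.e (nat_lit 524322) (nat_lit 12) (.e (nat_lit 450588) (nat_lit 10) (.e (nat_lit 573457) (nat_lit 9) (.e (nat_lit 430) (nat_lit 32) .nil))))) .nil)) 
(.lf (nat_lit 79024) (.g (nat_lit 2041) (.e (nat_lit 1812) (nat_lit 120) (.e (nat_lit 524322) (nat_lit 12) (.e (nat_lit 450588) (nat_lit 10) (.e (nat_lit 573473) (nat_lit 12) .nil)))) .nil)))) (.nd (nat_lit 4) (.nd (nat_lit 5) 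
(.lf (nat_lit 78984) (.g (nat_lit 2453) (.e (nat_lit 1812) (nat_lit 120) (.e (nat_lit 524322) (nat_lit 12) (.e (nat_lit 450588) (nat_lit 10) (.e (nat_lit 573452) (nat_lit 9) (.e (nat_lit 430) (nat_lit 32) (.e (nat_lit 426344) (nat_lit 14) (.e (nat_lit 491521) (nat_lit 0) .nil))))))) (.g (nat_lit 4) .nil .nil))) 
(.lf (nat_lit 79016) (.g (nat_lit 3151) (.e (nat_lit 1812) (nat_lit 120) (.e (nat_lit 524322) (nat_lit 12) (.e (nat_lit 450588) (nat_lit 10) (.e (nat_lit 573470) (nat_lit 11) (.e (nat_lit 16472) (nat_lit 14) (.e (nat_lit 491522) (nat_lit 0) .nil)))))) (.g (nat_lit 0) .nil .nil)))) (.nd (nat_lit 5) 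
(.lf (nat_lit 79000) (.g (nat_lit 7006) (.e (nat_lit 1812) (nat_lit 120) (.e (nat_lit 524322) (nat_lit 12) (.e (nat_lit 450588) (nat_lit 10) (.e (nat_lit 573469) (nat_lit 11) (.e (nat_lit 16470) (nat_lit 14) (.e (nat_lit 491522) (nat_lit 0) .nil)))))) (.g (nat_lit 6) .nil .nil))) 
(.lf (nat_lit 79032) (.g (nat_lit 2890) (.e (nat_lit 1812) (nat_lit 120) (.e (nat_lit 524322) (nat_lit 12) (.e (nat_lit 450588) (nat_lit 10) (.e (nat_lit 573473) (nat_lit 12) (.e (nat_lit 57352) (nat_lit 0) .nil))))) .nil))))) (.nd (nat_lit 3) (.nd (nat_lit 4) (.nd (nat_lit 5) 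
(.lf (nat_lit 78980) (.g (nat_lit 2365) (.e (nat_lit 1812) (nat_lit 120) (.e (nat_lit 524322) (nat_lit 12) (.e (nat_lit 450588) (nat_lit 10) (.e (nat_lit 573452) (nat_lit 9) (.e (nat_lit 365) (nat_lit 31) .nil))))) .nil)) 
(.lf (nat_lit 79012) (.g (nat_lit 4451) (.e (nat_lit 1812) (nat_lit 120) (.e (nat_lit 524322) (nat_lit 12) (.e (nat_lit 450588) (nat_lit 10) (.e (nat_lit 573470) (nat_lit 11) (.e (nat_lit 16470) (nat_lit 14) (.e (nat_lit 491522) (nat_lit 0) .nil)))))) (.g (nat_lit 0) .nil .nil)))) (.nd (nat_lit 5) 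
(.lf (nat_lit 78996) (.g (nat_lit 2554) (.e (nat_lit 1812) (nat_lit 120) (.e (nat_lit 524322) (nat_lit 12) (.e (nat_lit 450588) (nat_lit 10) (.e (nat_lit 581376) (nat_lit 9) .nil)))) .nil)) 
(.lf (nat_lit 79028) (.g (nat_lit 3017) (.e (nat_lit 1812) (nat_lit 120) (.e (nat_lit 524322) (nat_lit 12) (.e (nat_lit 450588) (nat_lit 10) (.e (nat_lit 573473) (nat_lit 12) (.e (nat_lit 57348) (nat_lit 0) .nil))))) .nil)))) (.nd (nat_lit 4) (.nd (nat_lit 5) 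
(.lf (nat_lit 78988) (.g (nat_lit 2558) (.e (nat_lit 1812) (nat_lit 120) (.e (nat_lit 524322) (nat_lit 12) (.e (nat_lit 450588) (nat_lit 10) (.e (nat_lit 573452) (nat_lit 9) (.e (nat_lit 7936) (nat_lit 33) (.e (nat_lit 434181) (nat_lit 0) (.e (nat_lit 1011) (nat_lit 81) .nil))))))) (.g (nat_lit 4) .nil .nil))) 
(.lf (nat_lit 79020) (.g (nat_lit 821) (.e (nat_lit 1812) (nat_lit 120) (.e (nat_lit 524322) (nat_lit 12) (.e (nat_lit 450588) (nat_lit 10) (.e (nat_lit 573471) (nat_lit 11) .nil)))) .nil))) (.nd (nat_lit 5) 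
(.lf (nat_lit 79004) (.g (nat_lit 1828) (.e (nat_lit 1812) (nat_lit 120) (.e (nat_lit 524322) (nat_lit 12) (.e (nat_lit 450588) (nat_lit 10) (.e (nat_lit 573470) (nat_lit 11) (.e (nat_lit 16387) (nat_lit 0) .nil))))) .nil)) 
(.lf (nat_lit 79036) (.g (nat_lit 3109) (.e (nat_lit 1812) (nat_lit 120) (.e (nat_lit 524322) (nat_lit 12) (.e (nat_lit 450588) (nat_lit 10) (.e (nat_lit 573473) (nat_lit 12) (.e (nat_lit 57353) (nat_lit 0) (.e (nat_lit 7263) (nat_lit 384) (.e (nat_lit 57412) (nat_lit 12) (.e (nat_lit 335886) (nat_lit 0) .nil)))))))) (.g (nat_lit 4) .nil .nil))))))) 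
(.nd (nat_lit 2) (.nd (nat_lit 3) (.nd (nat_lit 4) (.nd (nat_lit 5) 
(.lf (nat_lit 78978) (.g (nat_lit 2604) (.e (nat_lit 1812) (nat_lit 120) (.e (nat_lit 524322) (nat_lit 12) (.e (nat_lit 450588) (nat_lit 10) (.e (nat_lit 573452) (nat_lit 9) (.e (nat_lit 16) (nat_lit 0) .nil))))) .nil)) 
(.lf (nat_lit 79010) (.g (nat_lit 2115) (.e (nat_lit 1812) (nat_lit 120) (.e (nat_lit 524322) (nat_lit 12) (.e (nat_lit 450588) (nat_lit 10) (.e (nat_lit 573470) (nat_lit 11) (.e (nat_lit 16396) (nat_lit 0) .nil))))) .nil))) (.nd (nat_lit 5) 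
(.lf (nat_lit 78994) (.g (nat_lit 1607) (.e (nat_lit 1812) (nat_lit 120) (.e (nat_lit 524322) (nat_lit 12) (.e (nat_lit 450588) (nat_lit 10) (.e (nat_lit 573458) (nat_lit 9) .nil)))) .nil)) 
(.lf (nat_lit 79026) (.g (nat_lit 3981) (.e (nat_lit 1812) (nat_lit 120) (.e (nat_lit 524322) (nat_lit 12) (.e (nat_lit 450588) (nat_lit 10) (.e (nat_lit 573473) (nat_lit 12) (.e (nat_lit 57347) (nat_lit 0) (.e (nat_lit 7261) (nat_lit 384) (.e (nat_lit 57412) (nat_lit 12) (.e (nat_lit 335886) (nat_lit 0) .nil)))))))) (.g (nat_lit 5) .nil .nil))))) (.nd (nat_lit 4) (.nd (nat_lit 5) 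
(.lf (nat_lit 78986) (.g (nat_lit 2452) (.e (nat_lit 1812) (nat_lit 120) (.e (nat_lit 524322) (nat_lit 12) (.e (nat_lit 450588) (nat_lit 10) (.e (nat_lit 573452) (nat_lit 9) (.e (nat_lit 7936) (nat_lit 33) .nil))))) .nil)) 
(.lf (nat_lit 79018) (.g (nat_lit 2999) (.e (nat_lit 1812) (nat_lit 120) (.e (nat_lit 524322) (nat_lit 12) (.e (nat_lit 450588) (nat_lit 10) (.e (nat_lit 573470) (nat_lit 11) (.e (nat_lit 16473) (nat_lit 14) (.e (nat_lit 491521) (nat_lit 0) .nil)))))) (.g (nat_lit 0) .nil .nil)))) (.nd (nat_lit 5) 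
(.lf (nat_lit 79002) (.g (nat_lit 1844) (.e (nat_lit 1812) (nat_lit 120) (.e (nat_lit 524322) (nat_lit 12) (.e (nat_lit 450588) (nat_lit 10) (.e (nat_lit 573470) (nat_lit 11) (.e (nat_lit 16385) (nat_lit 0) .nil))))) .nil)) 
(.lf (nat_lit 79034) (.g (nat_lit 3037) (.e (nat_lit 1812) (nat_lit 120) (.e (nat_lit 524322) (nat_lit 12) (.e (nat_lit 450588) (nat_lit 10) (.e (nat_lit 573473) (nat_lit 12) (.e (nat_lit 57353) (nat_lit 0) .nil))))) .nil))))) (.nd (nat_lit 3) (.nd (nat_lit 4) (.nd (nat_lit 5) 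
(.lf (nat_lit 78982) (.g (nat_lit 2393) (.e (nat_lit 1812) (nat_lit 120) (.e (nat_lit 524322) (nat_lit 12) (.e (nat_lit 450588) (nat_lit 10) (.e (nat_lit 573452) (nat_lit 9) (.e (nat_lit 428) (nat_lit 32) .nil))))) .nil)) 
(.lf (nat_lit 79014) (.g (nat_lit 3174) (.e (nat_lit 1812) (nat_lit 120) (.e (nat_lit 524322) (nat_lit 12) (.e (nat_lit 450588) (nat_lit 10) (.e (nat_lit 573470) (nat_lit 11) (.e (nat_lit 16471) (nat_lit 14) (.e (nat_lit 491522) (nat_lit 0) .nil)))))) (.g (nat_lit 0) .nil .nil)))) (.nd (nat_lit 5) 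
(.lf (nat_lit 78998) (.g (nat_lit 2543) (.e (nat_lit 1812) (nat_lit 120) (.e (nat_lit 524322) (nat_lit 12) (.e (nat_lit 450588) (nat_lit 10) (.e (nat_lit 573468) (nat_lit 10) .nil)))) .nil)) 
(.lf (nat_lit 79030) (.g (nat_lit 4372) (.e (nat_lit 1812) (nat_lit 120) (.e (nat_lit 524322) (nat_lit 12) (.e (nat_lit 450588) (nat_lit 10) (.e (nat_lit 573473) (nat_lit 12) (.e (nat_lit 57348) (nat_lit 0) (.e (nat_lit 7265) (nat_lit 384) (.e (nat_lit 57412) (nat_lit 12) (.e (nat_lit 335886) (nat_lit 0) .nil)))))))) (.g (nat_lit 7) .nil .nil))))) (.nd (nat_lit 4) (.nd (nat_lit 5) 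
(.lf (nat_lit 78990) (.g (nat_lit 2020) (.e (nat_lit 1812) (nat_lit 120) (.e (nat_lit 524322) (nat_lit 12) (.e (nat_lit 450588) (nat_lit 10) (.e (nat_lit 573457) (nat_lit 9) .nil)))) .nil)) 
(.lf (nat_lit 79022) (.g (nat_lit 5426) (.e (nat_lit 1812) (nat_lit 120) (.e (nat_lit 524322) (nat_lit 12) (.e (nat_lit 450588) (nat_lit 10) (.e (nat_lit 573471) (nat_lit 11) (.e (nat_lit 16470) (nat_lit 14) (.e (nat_lit 491522) (nat_lit 0) .nil)))))) (.g (nat_lit 6) .nil .nil)))) (.nd (nat_lit 5) 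
(.lf (nat_lit 79006) (.g (nat_lit 1705) (.e (nat_lit 1812) (nat_lit 120) (.e (nat_lit 524322) (nat_lit 12) (.e (nat_lit 450588) (nat_lit 10) (.e (nat_lit 573470) (nat_lit 11) (.e (nat_lit 16388) (nat_lit 0) .nil))))) .nil)) 
(.lf (nat_lit 79038) (.g (nat_lit 3018) (.e (nat_lit 1812) (nat_lit 120) (.e (nat_lit 524322) (nat_lit 12) (.e (nat_lit 450588) (nat_lit 10) (.e (nat_lit 573473) (nat_lit 12) (.e (nat_lit 57354) (nat_lit 0) .nil))))) .nil))))))) (.nd (nat_lit 1) (.nd (nat_lit 2) (.nd (nat_lit 3) (.nd (nat_lit 4) (.nd (nat_lit 5) 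
(.lf (nat_lit 78977) (.g (nat_lit 1305) (.e (nat_lit 1812) (nat_lit 120) (.e (nat_lit 524322) (nat_lit 12) (.e (nat_lit 450588) (nat_lit 10) (.e (nat_lit 573452) (nat_lit 9) .nil)))) .nil)) 
(.lf (nat_lit 79009) (.g (nat_lit 2070) (.e (nat_lit 1812) (nat_lit 120) (.e (nat_lit 524322) (nat_lit 12) (.e (nat_lit 450588) (nat_lit 10) (.e (nat_lit 573470) (nat_lit 11) (.e (nat_lit 16391) (nat_lit 0) .nil))))) .nil))) (.nd (nat_lit 5) 
(.lf (nat_lit 78993) (.g (nat_lit 2271) (.e (nat_lit 1812) (nat_lit 120) (.e (nat_lit 524322) (nat_lit 12) (.e (nat_lit 450588) (nat_lit 10) (.e (nat_lit 573457) (nat_lit 9) (.e (nat_lit 7936) (nat_lit 33) .nil))))) .nil)) 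
(.lf (nat_lit 79025) (.g (nat_lit 3120) (.e (nat_lit 1812) (nat_lit 120) (.e (nat_lit 524322) (nat_lit 12) (.e (nat_lit 450588) (nat_lit 10) (.e (nat_lit 573473) (nat_lit 12) (.e (nat_lit 57347) (nat_lit 0) .nil))))) .nil)))) (.nd (nat_lit 4) (.nd (nat_lit 5) 
(.lf (nat_lit 78985) (.g (nat_lit 2452) (.e (nat_lit 1812) (nat_lit 120) (.e (nat_lit 524322) (nat_lit 12) (.e (nat_lit 450588) (nat_lit 10) (.e (nat_lit 573452) (nat_lit 9) (.e (nat_lit 7936) (nat_lit 32) .nil))))) .nil)) 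
(.lf (nat_lit 79017) (.g (nat_lit 3078) (.e (nat_lit 1812) (nat_lit 120) (.e (nat_lit 524322) (nat_lit 12) (.e (nat_lit 450588) (nat_lit 10) (.e (nat_lit 573470) (nat_lit 11) (.e (nat_lit 16473) (nat_lit 14) (.e (nat_lit 491520) (nat_lit 0) .nil)))))) (.g (nat_lit 0) .nil .nil)))) (.nd (nat_lit 5) 
(.lf (nat_lit 79001) (.g (nat_lit 1143) (.e (nat_lit 1812) (nat_lit 120) (.e (nat_lit 524322) (nat_lit 12) (.e (nat_lit 450588) (nat_lit 10) (.e (nat_lit 573470) (nat_lit 11) .nil)))) .nil)) 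
(.lf (nat_lit 79033) (.g (nat_lit 4077) (.e (nat_lit 1812) (nat_lit 120) (.e (nat_lit 524322) (nat_lit 12) (.e (nat_lit 450588) (nat_lit 10) (.e (nat_lit 573473) (nat_lit 12) (.e (nat_lit 57352) (nat_lit 0) (.e (nat_lit 7263) (nat_lit 384) (.e (nat_lit 57412) (nat_lit 12) (.e (nat_lit 335886) (nat_lit 0) .nil)))))))) (.g (nat_lit 8) .nil .nil)))))) 
(.nd (nat_lit 3) (.nd (nat_lit 4) (.nd (nat_lit 5) 
(.lf (nat_lit 78981) (.g (nat_lit 2794) (.e (nat_lit 1812) (nat_lit 120) (.e (nat_lit 524322) (nat_lit 12) (.e (nat_lit 450588) (nat_lit 10) (.e (nat_lit 573452) (nat_lit 9) (.e (nat_lit 396) (nat_lit 32) .nil))))) .nil)) 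
(.lf (nat_lit 79013) (.g (nat_lit 3742) (.e (nat_lit 1812) (nat_lit 120) (.e (nat_lit 524322) (nat_lit 12) (.e (nat_lit 450588) (nat_lit 10) (.e (nat_lit 573470) (nat_lit 11) (.e (nat_lit 16470) (nat_lit 14) (.e (nat_lit 491524) (nat_lit 0) .nil)))))) (.g (nat_lit 0) .nil .nil)))) (.nd (nat_lit 5) 
(.lf (nat_lit 78997) (.g (nat_lit 1784) (.e (nat_lit 1812) (nat_lit 120) (.e (nat_lit 524322) (nat_lit 12) (.e (nat_lit 450588) (nat_lit 10) (.e (nat_lit 573467) (nat_lit 10) .nil)))) .nil)) 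
(.lf (nat_lit 79029) (.g (nat_lit 4357) (.e (nat_lit 1812) (nat_lit 120) (.e (nat_lit 524322) (nat_lit 12) (.e (nat_lit 450588) (nat_lit 10) (.e (nat_lit 573473) (nat_lit 12) (.e (nat_lit 57348) (nat_lit 0) (.e (nat_lit 7261) (nat_lit 384) (.e (nat_lit 57412) (nat_lit 12) (.e (nat_lit 335886) (nat_lit 0) .nil)))))))) (.g (nat_lit 7) .nil .nil))))) (.nd (nat_lit 4) (.nd (nat_lit 5) 
(.lf (nat_lit 78989) (.g (nat_lit 3242) (.e (nat_lit 1812) (nat_lit 120) (.e (nat_lit 524322) (nat_lit 12) (.e (nat_lit 450588) (nat_lit 10) (.e (nat_lit 573454) (nat_lit 9) .nil)))) .nil)) 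
(.lf (nat_lit 79021) (.g (nat_lit 3383) (.e (nat_lit 1812) (nat_lit 120) (.e (nat_lit 524322) (nat_lit 12) (.e (nat_lit 450588) (nat_lit 10) (.e (nat_lit 573471) (nat_lit 11) (.e (nat_lit 16469) (nat_lit 14) (.e (nat_lit 491524) (nat_lit 0) .nil)))))) (.g (nat_lit 5) .nil .nil)))) (.nd (nat_lit 5) 
(.lf (nat_lit 79005) (.g (nat_lit 2329) (.e (nat_lit 1812) (nat_lit 120) (.e (nat_lit 524322) (nat_lit 12) (.e (nat_lit 450588) (nat_lit 10) (.e (nat_lit 573470) (nat_lit 11) (.e (nat_lit 16387) (nat_lit 0) (.e (nat_lit 7486) (nat_lit 402) (.e (nat_lit 1016) (nat_lit 81) .nil))))))) (.g (nat_lit 5) .nil .nil))) 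
(.lf (nat_lit 79037) (.g (nat_lit 4300) (.e (nat_lit 1812) (nat_lit 120) (.e (nat_lit 524322) (nat_lit 12) (.e (nat_lit 450588) (nat_lit 10) (.e (nat_lit 573473) (nat_lit 12) (.e (nat_lit 57353) (nat_lit 0) (.e (nat_lit 7265) (nat_lit 384) (.e (nat_lit 57412) (nat_lit 12) (.e (nat_lit 335886) (nat_lit 0) .nil)))))))) (.g (nat_lit 7) .nil .nil))))))) 
(.nd (nat_lit 2) (.nd (nat_lit 3) (.nd (nat_lit 4) (.nd (nat_lit 5) 
(.lf (nat_lit 78979) (.g (nat_lit 2376) (.e (nat_lit 1812) (nat_lit 120) (.e (nat_lit 524322) (nat_lit 12) (.e (nat_lit 450588) (nat_lit 10) (.e (nat_lit 573452) (nat_lit 9) (.e (nat_lit 359) (nat_lit 30) .nil))))) .nil)) 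
(.lf (nat_lit 79011) (.g (nat_lit 2093) (.e (nat_lit 1812) (nat_lit 120) (.e (nat_lit 524322) (nat_lit 12) (.e (nat_lit 450588) (nat_lit 10) (.e (nat_lit 573470) (nat_lit 11) (.e (nat_lit 16403) (nat_lit 0) .nil))))) .nil))) (.nd (nat_lit 5) 
(.lf (nat_lit 78995) (.g (nat_lit 2288) (.e (nat_lit 1812) (nat_lit 120) (.e (nat_lit 524322) (nat_lit 12) (.e (nat_lit 450588) (nat_lit 10) (.e (nat_lit 573458) (nat_lit 9) (.e (nat_lit 420) (nat_lit 32) .nil))))) .nil)) 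
(.lf (nat_lit 79027) (.g (nat_lit 4290) (.e (nat_lit 1812) (nat_lit 120) (.e (nat_lit 524322) (nat_lit 12) (.e (nat_lit 450588) (nat_lit 10) (.e (nat_lit 573473) (nat_lit 12) (.e (nat_lit 57347) (nat_lit 0) (.e (nat_lit 7265) (nat_lit 384) (.e (nat_lit 57406) (nat_lit 12) (.e (nat_lit 335878) (nat_lit 0) .nil)))))))) (.g (nat_lit 5) .nil .nil))))) (.nd (nat_lit 4) (.nd (nat_lit 5) 
(.lf (nat_lit 78987) (.g (nat_lit 2622) (.e (nat_lit 1812) (nat_lit 120) (.e (nat_lit 524322) (nat_lit 12) (.e (nat_lit 450588) (nat_lit 10) (.e (nat_lit 573452) (nat_lit 9) (.e (nat_lit 7936) (nat_lit 33) (.e (nat_lit 434180) (nat_lit 0) (.e (nat_lit 1011) (nat_lit 81) .nil))))))) (.g (nat_lit 4) .nil .nil))) 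
(.lf (nat_lit 79019) (.g (nat_lit 2965) (.e (nat_lit 1812) (nat_lit 120) (.e (nat_lit 524322) (nat_lit 12) (.e (nat_lit 450588) (nat_lit 10) (.e (nat_lit 573470) (nat_lit 11) (.e (nat_lit 16473) (nat_lit 14) (.e (nat_lit 499456) (nat_lit 0) .nil)))))) (.g (nat_lit 5) .nil .nil)))) (.nd (nat_lit 5) 
(.lf (nat_lit 79003) (.g (nat_lit 2073) (.e (nat_lit 1812) (nat_lit 120) (.e (nat_lit 524322) (nat_lit 12) (.e (nat_lit 450588) (nat_lit 10) (.e (nat_lit 573470) (nat_lit 11) (.e (nat_lit 16386) (nat_lit 0) .nil))))) .nil)) 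
(.lf (nat_lit 79035) (.g (nat_lit 4245) (.e (nat_lit 1812) (nat_lit 120) (.e (nat_lit 524322) (nat_lit 12) (.e (nat_lit 450588) (nat_lit 10) (.e (nat_lit 573473) (nat_lit 12) (.e (nat_lit 57353) (nat_lit 0) (.e (nat_lit 7261) (nat_lit 384) (.e (nat_lit 57412) (nat_lit 12) (.e (nat_lit 335886) (nat_lit 0) .nil)))))))) (.g (nat_lit 7) .nil .nil)))))) 
(.nd (nat_lit 3) (.nd (nat_lit 4) (.nd (nat_lit 5) 
(.lf (nat_lit 78983) (.g (nat_lit 2431) (.e (nat_lit 1812) (nat_lit 120) (.e (nat_lit 524322) (nat_lit 12) (.e (nat_lit 450588) (nat_lit 10) (.e (nat_lit 573452) (nat_lit 9) (.e (nat_lit 430) (nat_lit 32) .nil))))) .nil)) 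
(.lf (nat_lit 79015) (.g (nat_lit 2450) (.e (nat_lit 1812) (nat_lit 120) (.e (nat_lit 524322) (nat_lit 12) (.e (nat_lit 450588) (nat_lit 10) (.e (nat_lit 573470) (nat_lit 11) (.e (nat_lit 16472) (nat_lit 14) (.e (nat_lit 491520) (nat_lit 0) .nil)))))) (.g (nat_lit 5) .nil .nil)))) (.nd (nat_lit 5) 
(.lf (nat_lit 78999) (.g (nat_lit 1765) (.e (nat_lit 1812) (nat_lit 120) (.e (nat_lit 524322) (nat_lit 12) (.e (nat_lit 450588) (nat_lit 10) (.e (nat_lit 573469) (nat_lit 11) .nil)))) .nil)) 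
(.lf (nat_lit 79031) (.g (nat_lit 3375) (.e (nat_lit 1812) (nat_lit 120) (.e (nat_lit 524322) (nat_lit 12) (.e (nat_lit 450588) (nat_lit 10) (.e (nat_lit 573473) (nat_lit 12) (.e (nat_lit 57351) (nat_lit 0) .nil))))) .nil)))) (.nd (nat_lit 4) (.nd (nat_lit 5) 
(.lf (nat_lit 78991) (.g (nat_lit 2558) (.e (nat_lit 1812) (nat_lit 120) (.e (nat_lit 524322) (nat_lit 12) (.e (nat_lit 450588) (nat_lit 10) (.e (nat_lit 573457) (nat_lit 9) (.e (nat_lit 428) (nat_lit 32) .nil))))) .nil)) 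
(.lf (nat_lit 79023) (.g (nat_lit 2356) (.e (nat_lit 1812) (nat_lit 120) (.e (nat_lit 524322) (nat_lit 12) (.e (nat_lit 450588) (nat_lit 10) (.e (nat_lit 573471) (nat_lit 11) (.e (nat_lit 16471) (nat_lit 14) .nil))))) .nil))) (.nd (nat_lit 5) 
(.lf (nat_lit 79007) (.g (nat_lit 2880) (.e (nat_lit 1812) (nat_lit 120) (.e (nat_lit 524322) (nat_lit 12) (.e (nat_lit 450588) (nat_lit 10) (.e (nat_lit 573470) (nat_lit 11) (.e (nat_lit 16388) (nat_lit 0) (.e (nat_lit 7486) (nat_lit 402) (.e (nat_lit 1016) (nat_lit 81) .nil))))))) (.g (nat_lit 6) .nil .nil))) 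
(.lf (nat_lit 79039) (.g (nat_lit 3130) (.e (nat_lit 1812) (nat_lit 120) (.e (nat_lit 524322) (nat_lit 12) (.e (nat_lit 450588) (nat_lit 10) (.e (nat_lit 573473) (nat_lit 12) (.e (nat_lit 57354) (nat_lit 0) (.e (nat_lit 7270) (nat_lit 385) (.e (nat_lit 122903) (nat_lit 12) (.e (nat_lit 335915) (nat_lit 0) .nil)))))))) (.g (nat_lit 4) .nil .nil)))))))))

noncomputable def tv1069 : DT := (.nd (nat_lit 0) (.nd (nat_lit 1) (.nd (nat_lit 2) (.nd (nat_lit 3) (.nd (nat_lit 4) (.nd (nat_lit 5) 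
(.lf (nat_lit 79040) (.g (nat_lit 3656) (.e (nat_lit 1812) (nat_lit 120) (.e (nat_lit 524322) (nat_lit 12) (.e (nat_lit 450588) (nat_lit 10) (.e (nat_lit 573473) (nat_lit 12) (.e (nat_lit 57354) (nat_lit 0) (.e (nat_lit 7270) (nat_lit 385) (.e (nat_lit 122906) (nat_lit 12) (.e (nat_lit 335886) (nat_lit 0) .nil)))))))) (.g (nat_lit 5) .nil .nil))) 
(.lf (nat_lit 79072) (.g (nat_lit 3385) (.e (nat_lit 1812) (nat_lit 120) (.e (nat_lit 524322) (nat_lit 12) (.e (nat_lit 450588) (nat_lit 10) (.e (nat_lit 573474) (nat_lit 12) (.e (nat_lit 57572) (nat_lit 54) (.e (nat_lit 770071) (nat_lit 8) (.e (nat_lit 65536) (nat_lit 0) .nil))))))) (.g (nat_lit 7) .nil .nil)))) (.nd (nat_lit 5) 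
(.lf (nat_lit 79056) (.g (nat_lit 2431) (.e (nat_lit 1812) (nat_lit 120) (.e (nat_lit 524322) (nat_lit 12) (.e (nat_lit 450588) (nat_lit 10) (.e (nat_lit 573474) (nat_lit 12) (.e (nat_lit 57572) (nat_lit 54) (.e (nat_lit 770055) (nat_lit 5) (.e (nat_lit 1444) (nat_lit 108) (.e (nat_lit 335909) (nat_lit 0) .nil)))))))) (.g (nat_lit 5) .nil .nil))) 
(.lf (nat_lit 79088) (.g (nat_lit 4225) (.e (nat_lit 1812) (nat_lit 120) (.e (nat_lit 524322) (nat_lit 12) (.e (nat_lit 450588) (nat_lit 10) (.e (nat_lit 573475) (nat_lit 12) (.e (nat_lit 57348) (nat_lit 0) (.e (nat_lit 7261) (nat_lit 384) (.e (nat_lit 57412) (nat_lit 12) (.e (nat_lit 335886) (nat_lit 0) .nil)))))))) (.g (nat_lit 6) .nil .nil))))) (.nd (nat_lit 4) (.nd (nat_lit 5) 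
(.lf (nat_lit 79048) (.g (nat_lit 3044) (.e (nat_lit 1812) (nat_lit 120) (.e (nat_lit 524322) (nat_lit 12) (.e (nat_lit 450588) (nat_lit 10) (.e (nat_lit 573473) (nat_lit 12) (.e (nat_lit 65280) (nat_lit 57) (.e (nat_lit 794636) (nat_lit 11) (.e (nat_lit 335913) (nat_lit 0) .nil))))))) (.g (nat_lit 6) .nil .nil))) 
(.lf (nat_lit 79080) (.g (nat_lit 2969) (.e (nat_lit 1812) (nat_lit 120) (.e (nat_lit 524322) (nat_lit 12) (.e (nat_lit 450588) (nat_lit 10) (.e (nat_lit 573475) (nat_lit 12) (.e (nat_lit 57347) (nat_lit 0) (.e (nat_lit 7125) (nat_lit 382) (.e (nat_lit 1296) (nat_lit 96) (.e (nat_lit 131076) (nat_lit 0) .nil)))))))) (.g (nat_lit 4) .nil .nil)))) (.nd (nat_lit 5) 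
(.lf (nat_lit 79064) (.g (nat_lit 2359) (.e (nat_lit 1812) (nat_lit 120) (.e (nat_lit 524322) (nat_lit 12) (.e (nat_lit 450588) (nat_lit 10) (.e (nat_lit 573474) (nat_lit 12) (.e (nat_lit 57572) (nat_lit 54) (.e (nat_lit 770057) (nat_lit 5) (.e (nat_lit 1446) (nat_lit 108) (.e (nat_lit 335915) (nat_lit 0) .nil)))))))) (.g (nat_lit 5) .nil .nil))) 
(.lf (nat_lit 79096) (.g (nat_lit 3056) (.e (nat_lit 1812) (nat_lit 120) (.e (nat_lit 524322) (nat_lit 12) (.e (nat_lit 450588) (nat_lit 10) (.e (nat_lit 573475) (nat_lit 12) (.e (nat_lit 57354) (nat_lit 0) .nil))))) .nil))))) (.nd (nat_lit 3) (.nd (nat_lit 4) (.nd (nat_lit 5) 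
(.lf (nat_lit 79044) (.g (nat_lit 2955) (.e (nat_lit 1812) (nat_lit 120) (.e (nat_lit 524322) (nat_lit 12) (.e (nat_lit 450588) (nat_lit 10) (.e (nat_lit 573473) (nat_lit 12) (.e (nat_lit 57569) (nat_lit 53) (.e (nat_lit 761867) (nat_lit 5) (.e (nat_lit 1454) (nat_lit 108) (.e (nat_lit 335886) (nat_lit 0) .nil)))))))) (.g (nat_lit 4) .nil .nil))) 
(.lf (nat_lit 79076) (.g (nat_lit 1556) (.e (nat_lit 1812) (nat_lit 120) (.e (nat_lit 524322) (nat_lit 12) (.e (nat_lit 450588) (nat_lit 10) (.e (nat_lit 573475) (nat_lit 12) .nil)))) .nil))) (.nd (nat_lit 5) 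
(.lf (nat_lit 79060) (.g (nat_lit 1801) (.e (nat_lit 1812) (nat_lit 120) (.e (nat_lit 524322) (nat_lit 12) (.e (nat_lit 450588) (nat_lit 10) (.e (nat_lit 573474) (nat_lit 12) (.e (nat_lit 57572) (nat_lit 54) (.e (nat_lit 770056) (nat_lit 5) (.e (nat_lit 1453) (nat_lit 108) (.e (nat_lit 335915) (nat_lit 0) .nil)))))))) (.g (nat_lit 4) .nil .nil))) 
(.lf (nat_lit 79092) (.g (nat_lit 3105) (.e (nat_lit 1812) (nat_lit 120) (.e (nat_lit 524322) (nat_lit 12) (.e (nat_lit 450588) (nat_lit 10) (.e (nat_lit 573475) (nat_lit 12) (.e (nat_lit 57351) (nat_lit 0) .nil))))) .nil)))) (.nd (nat_lit 4) (.nd (nat_lit 5) 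
(.lf (nat_lit 79052) (.g (nat_lit 3616) (.e (nat_lit 1812) (nat_lit 120) (.e (nat_lit 524322) (nat_lit 12) (.e (nat_lit 450588) (nat_lit 10) (.e (nat_lit 573474) (nat_lit 12) (.e (nat_lit 57347) (nat_lit 0) (.e (nat_lit 7265) (nat_lit 384) (.e (nat_lit 57406) (nat_lit 12) (.e (nat_lit 335873) (nat_lit 0) .nil)))))))) (.g (nat_lit 5) .nil .nil))) 
(.lf (nat_lit 79084) (.g (nat_lit 2991) (.e (nat_lit 1812) (nat_lit 120) (.e (nat_lit 524322) (nat_lit 12) (.e (nat_lit 450588) (nat_lit 10) (.e (nat_lit 573475) (nat_lit 12) (.e (nat_lit 57347) (nat_lit 0) (.e (nat_lit 7261) (nat_lit 384) (.e (nat_lit 57412) (nat_lit 12) (.e (nat_lit 335900) (nat_lit 0) .nil)))))))) (.g (nat_lit 4) .nil .nil)))) (.nd (nat_lit 5) 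
(.lf (nat_lit 79068) (.g (nat_lit 2271) (.e (nat_lit 1812) (nat_lit 120) (.e (nat_lit 524322) (nat_lit 12) (.e (nat_lit 450588) (nat_lit 10) (.e (nat_lit 573474) (nat_lit 12) (.e (nat_lit 57572) (nat_lit 54) (.e (nat_lit 770057) (nat_lit 5) (.e (nat_lit 1465) (nat_lit 108) (.e (nat_lit 335915) (nat_lit 0) .nil)))))))) (.g (nat_lit 5) .nil .nil))) 
(.lf (nat_lit 79100) (.g (nat_lit 3193) (.e (nat_lit 1812) (nat_lit 120) (.e (nat_lit 524322) (nat_lit 12) (.e (nat_lit 450588) (nat_lit 10) (.e (nat_lit 573475) (nat_lit 12) (.e (nat_lit 57569) (nat_lit 53) .nil))))) .nil)))))) (.nd (nat_lit 2) (.nd (nat_lit 3) (.nd (nat_lit 4) (.nd (nat_lit 5) 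
(.lf (nat_lit 79042) (.g (nat_lit 2886) (.e (nat_lit 1812) (nat_lit 120) (.e (nat_lit 524322) (nat_lit 12) (.e (nat_lit 450588) (nat_lit 10) (.e (nat_lit 573473) (nat_lit 12) (.e (nat_lit 57569) (nat_lit 53) .nil))))) .nil)) 
(.lf (nat_lit 79074) (.g (nat_lit 3331) (.e (nat_lit 1812) (nat_lit 120) (.e (nat_lit 524322) (nat_lit 12) (.e (nat_lit 450588) (nat_lit 10) (.e (nat_lit 573474) (nat_lit 12) (.e (nat_lit 57572) (nat_lit 54) (.e (nat_lit 770072) (nat_lit 8) (.e (nat_lit 65536) (nat_lit 0) .nil))))))) (.g (nat_lit 0) .nil .nil)))) (.nd (nat_lit 5) 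
(.lf (nat_lit 79058) (.g (nat_lit 1802) (.e (nat_lit 1812) (nat_lit 120) (.e (nat_lit 524322) (nat_lit 12) (.e (nat_lit 450588) (nat_lit 10) (.e (nat_lit 573474) (nat_lit 12) (.e (nat_lit 57572) (nat_lit 54) (.e (nat_lit 770056) (nat_lit 5) (.e (nat_lit 1443) (nat_lit 108) (.e (nat_lit 335915) (nat_lit 0) .nil)))))))) (.g (nat_lit 4) .nil .nil))) 
(.lf (nat_lit 79090) (.g (nat_lit 4208) (.e (nat_lit 1812) (nat_lit 120) (.e (nat_lit 524322) (nat_lit 12) (.e (nat_lit 450588) (nat_lit 10) (.e (nat_lit 573475) (nat_lit 12) (.e (nat_lit 57348) (nat_lit 0) (.e (nat_lit 7265) (nat_lit 384) (.e (nat_lit 57406) (nat_lit 12) (.e (nat_lit 335873) (nat_lit 0) .nil)))))))) (.g (nat_lit 6) .nil .nil))))) (.nd (nat_lit 4) (.nd (nat_lit 5) 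
(.lf (nat_lit 79050) (.g (nat_lit 2276) (.e (nat_lit 1812) (nat_lit 120) (.e (nat_lit 524322) (nat_lit 12) (.e (nat_lit 450588) (nat_lit 10) (.e (nat_lit 573474) (nat_lit 12) (.e (nat_lit 57347) (nat_lit 0) .nil))))) .nil)) 
(.lf (nat_lit 79082) (.g (nat_lit 2993) (.e (nat_lit 1812) (nat_lit 120) (.e (nat_lit 524322) (nat_lit 12) (.e (nat_lit 450588) (nat_lit 10) (.e (nat_lit 573475) (nat_lit 12) (.e (nat_lit 57347) (nat_lit 0) (.e (nat_lit 7261) (nat_lit 384) (.e (nat_lit 57407) (nat_lit 12) (.e (nat_lit 335878) (nat_lit 0) .nil)))))))) (.g (nat_lit 4) .nil .nil)))) (.nd (nat_lit 5) 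
(.lf (nat_lit 79066) (.g (nat_lit 2345) (.e (nat_lit 1812) (nat_lit 120) (.e (nat_lit 524322) (nat_lit 12) (.e (nat_lit 450588) (nat_lit 10) (.e (nat_lit 573474) (nat_lit 12) (.e (nat_lit 57572) (nat_lit 54) (.e (nat_lit 770057) (nat_lit 5) (.e (nat_lit 1455) (nat_lit 108) (.e (nat_lit 335915) (nat_lit 0) .nil)))))))) (.g (nat_lit 5) .nil .nil))) 
(.lf (nat_lit 79098) (.g (nat_lit 2932) (.e (nat_lit 1812) (nat_lit 120) (.e (nat_lit 524322) (nat_lit 12) (.e (nat_lit 450588) (nat_lit 10) (.e (nat_lit 573475) (nat_lit 12) (.e (nat_lit 57568) (nat_lit 53) .nil))))) .nil))))) (.nd (nat_lit 3) (.nd (nat_lit 4) (.nd (nat_lit 5) 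
(.lf (nat_lit 79046) (.g (nat_lit 3107) (.e (nat_lit 1812) (nat_lit 120) (.e (nat_lit 524322) (nat_lit 12) (.e (nat_lit 450588) (nat_lit 10) (.e (nat_lit 573473) (nat_lit 12) (.e (nat_lit 57569) (nat_lit 53) (.e (nat_lit 761867) (nat_lit 5) (.e (nat_lit 1454) (nat_lit 108) (.e (nat_lit 335909) (nat_lit 0) .nil)))))))) (.g (nat_lit 4) .nil .nil))) 
(.lf (nat_lit 79078) (.g (nat_lit 2929) (.e (nat_lit 1812) (nat_lit 120) (.e (nat_lit 524322) (nat_lit 12) (.e (nat_lit 450588) (nat_lit 10) (.e (nat_lit 573475) (nat_lit 12) (.e (nat_lit 57347) (nat_lit 0) .nil))))) .nil))) (.nd (nat_lit 5) 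
(.lf (nat_lit 79062) (.g (nat_lit 2296) (.e (nat_lit 1812) (nat_lit 120) (.e (nat_lit 524322) (nat_lit 12) (.e (nat_lit 450588) (nat_lit 10) (.e (nat_lit 573474) (nat_lit 12) (.e (nat_lit 57572) (nat_lit 54) (.e (nat_lit 770056) (nat_lit 5) (.e (nat_lit 1464) (nat_lit 108) (.e (nat_lit 335903) (nat_lit 0) .nil)))))))) (.g (nat_lit 5) .nil .nil))) 
(.lf (nat_lit 79094) (.g (nat_lit 3483) (.e (nat_lit 1812) (nat_lit 120) (.e (nat_lit 524322) (nat_lit 12) (.e (nat_lit 450588) (nat_lit 10) (.e (nat_lit 573475) (nat_lit 12) (.e (nat_lit 57353) (nat_lit 0) (.e (nat_lit 7265) (nat_lit 384) (.e (nat_lit 57406) (nat_lit 12) (.e (nat_lit 335873) (nat_lit 0) .nil)))))))) (.g (nat_lit 4) .nil .nil))))) (.nd (nat_lit 4) (.nd (nat_lit 5) 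
(.lf (nat_lit 79054) (.g (nat_lit 2520) (.e (nat_lit 1812) (nat_lit 120) (.e (nat_lit 524322) (nat_lit 12) (.e (nat_lit 450588) (nat_lit 10) (.e (nat_lit 573474) (nat_lit 12) (.e (nat_lit 57348) (nat_lit 0) .nil))))) .nil)) 
(.lf (nat_lit 79086) (.g (nat_lit 3006) (.e (nat_lit 1812) (nat_lit 120) (.e (nat_lit 524322) (nat_lit 12) (.e (nat_lit 450588) (nat_lit 10) (.e (nat_lit 573475) (nat_lit 12) (.e (nat_lit 57347) (nat_lit 0) (.e (nat_lit 7265) (nat_lit 384) (.e (nat_lit 57412) (nat_lit 12) (.e (nat_lit 335900) (nat_lit 0) .nil)))))))) (.g (nat_lit 4) .nil .nil)))) (.nd (nat_lit 5) 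
(.lf (nat_lit 79070) (.g (nat_lit 2505) (.e (nat_lit 1812) (nat_lit 120) (.e (nat_lit 524322) (nat_lit 12) (.e (nat_lit 450588) (nat_lit 10) (.e (nat_lit 573474) (nat_lit 12) (.e (nat_lit 57572) (nat_lit 54) (.e (nat_lit 770058) (nat_lit 5) (.e (nat_lit 1449) (nat_lit 108) (.e (nat_lit 335903) (nat_lit 0) .nil)))))))) (.g (nat_lit 5) .nil .nil))) 
(.lf (nat_lit 79102) (.g (nat_lit 2429) (.e (nat_lit 1812) (nat_lit 120) (.e (nat_lit 524322) (nat_lit 12) (.e (nat_lit 450588) (nat_lit 10) (.e (nat_lit 573475) (nat_lit 12) (.e (nat_lit 57574) (nat_lit 55) .nil))))) .nil))))))) (.nd (nat_lit 1) (.nd (nat_lit 2) (.nd (nat_lit 3) (.nd (nat_lit 4) (.nd (nat_lit 5) 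
(.lf (nat_lit 79041) (.g (nat_lit 3298) (.e (nat_lit 1812) (nat_lit 120) (.e (nat_lit 524322) (nat_lit 12) (.e (nat_lit 450588) (nat_lit 10) (.e (nat_lit 573473) (nat_lit 12) (.e (nat_lit 57357) (nat_lit 0) .nil))))) .nil)) 
(.lf (nat_lit 79073) (.g (nat_lit 3543) (.e (nat_lit 1812) (nat_lit 120) (.e (nat_lit 524322) (nat_lit 12) (.e (nat_lit 450588) (nat_lit 10) (.e (nat_lit 573474) (nat_lit 12) (.e (nat_lit 57572) (nat_lit 54) (.e (nat_lit 770071) (nat_lit 8) (.e (nat_lit 65544) (nat_lit 0) .nil))))))) (.g (nat_lit 0) .nil .nil)))) (.nd (nat_lit 5) 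
(.lf (nat_lit 79057) (.g (nat_lit 2342) (.e (nat_lit 1812) (nat_lit 120) (.e (nat_lit 524322) (nat_lit 12) (.e (nat_lit 450588) (nat_lit 10) (.e (nat_lit 573474) (nat_lit 12) (.e (nat_lit 57572) (nat_lit 54) (.e (nat_lit 770056) (nat_lit 5) (.e (nat_lit 1413) (nat_lit 108) (.e (nat_lit 335915) (nat_lit 0) .nil)))))))) (.g (nat_lit 5) .nil .nil))) 
(.lf (nat_lit 79089) (.g (nat_lit 3845) (.e (nat_lit 1812) (nat_lit 120) (.e (nat_lit 524322) (nat_lit 12) (.e (nat_lit 450588) (nat_lit 10) (.e (nat_lit 573475) (nat_lit 12) (.e (nat_lit 57348) (nat_lit 0) (.e (nat_lit 7263) (nat_lit 384) (.e (nat_lit 57412) (nat_lit 12) (.e (nat_lit 335886) (nat_lit 0) .nil)))))))) (.g (nat_lit 5) .nil .nil))))) (.nd (nat_lit 4) (.nd (nat_lit 5) 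
(.lf (nat_lit 79049) (.g (nat_lit 2807) (.e (nat_lit 1812) (nat_lit 120) (.e (nat_lit 524322) (nat_lit 12) (.e (nat_lit 450588) (nat_lit 10) (.e (nat_lit 573473) (nat_lit 12) (.e (nat_lit 65280) (nat_lit 58) .nil))))) .nil)) 
(.lf (nat_lit 79081) (.g (nat_lit 3039) (.e (nat_lit 1812) (nat_lit 120) (.e (nat_lit 524322) (nat_lit 12) (.e (nat_lit 450588) (nat_lit 10) (.e (nat_lit 573475) (nat_lit 12) (.e (nat_lit 57347) (nat_lit 0) (.e (nat_lit 7261) (nat_lit 384) (.e (nat_lit 57406) (nat_lit 12) (.e (nat_lit 335878) (nat_lit 0) .nil)))))))) (.g (nat_lit 4) .nil .nil)))) (.nd (nat_lit 5) 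
(.lf (nat_lit 79065) (.g (nat_lit 2327) (.e (nat_lit 1812) (nat_lit 120) (.e (nat_lit 524322) (nat_lit 12) (.e (nat_lit 450588) (nat_lit 10) (.e (nat_lit 573474) (nat_lit 12) (.e (nat_lit 57572) (nat_lit 54) (.e (nat_lit 770057) (nat_lit 5) (.e (nat_lit 1449) (nat_lit 108) (.e (nat_lit 335915) (nat_lit 0) .nil)))))))) (.g (nat_lit 5) .nil .nil))) 
(.lf (nat_lit 79097) (.g (nat_lit 2922) (.e (nat_lit 1812) (nat_lit 120) (.e (nat_lit 524322) (nat_lit 12) (.e (nat_lit 450588) (nat_lit 10) (.e (nat_lit 573475) (nat_lit 12) (.e (nat_lit 57356) (nat_lit 0) .nil))))) .nil))))) (.nd (nat_lit 3) (.nd (nat_lit 4) (.nd (nat_lit 5) 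
(.lf (nat_lit 79045) (.g (nat_lit 3016) (.e (nat_lit 1812) (nat_lit 120) (.e (nat_lit 524322) (nat_lit 12) (.e (nat_lit 450588) (nat_lit 10) (.e (nat_lit 573473) (nat_lit 12) (.e (nat_lit 57569) (nat_lit 53) (.e (nat_lit 761867) (nat_lit 5) (.e (nat_lit 1454) (nat_lit 108) (.e (nat_lit 335903) (nat_lit 0) .nil)))))))) (.g (nat_lit 4) .nil .nil))) 
(.lf (nat_lit 79077) (.g (nat_lit 3281) (.e (nat_lit 1812) (nat_lit 120) (.e (nat_lit 524322) (nat_lit 12) (.e (nat_lit 450588) (nat_lit 10) (.e (nat_lit 573475) (nat_lit 12) (.e (nat_lit 57344) (nat_lit 0) .nil))))) .nil))) (.nd (nat_lit 5) 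
(.lf (nat_lit 79061) (.g (nat_lit 2240) (.e (nat_lit 1812) (nat_lit 120) (.e (nat_lit 524322) (nat_lit 12) (.e (nat_lit 450588) (nat_lit 10) (.e (nat_lit 573474) (nat_lit 12) (.e (nat_lit 57572) (nat_lit 54) (.e (nat_lit 770056) (nat_lit 5) (.e (nat_lit 1455) (nat_lit 108) (.e (nat_lit 335915) (nat_lit 0) .nil)))))))) (.g (nat_lit 5) .nil .nil))) 
(.lf (nat_lit 79093) (.g (nat_lit 3434) (.e (nat_lit 1812) (nat_lit 120) (.e (nat_lit 524322) (nat_lit 12) (.e (nat_lit 450588) (nat_lit 10) (.e (nat_lit 573475) (nat_lit 12) (.e (nat_lit 57353) (nat_lit 0) (.e (nat_lit 7261) (nat_lit 384) (.e (nat_lit 57412) (nat_lit 12) (.e (nat_lit 335886) (nat_lit 0) .nil)))))))) (.g (nat_lit 4) .nil .nil))))) (.nd (nat_lit 4) (.nd (nat_lit 5) 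
(.lf (nat_lit 79053) (.g (nat_lit 3506) (.e (nat_lit 1812) (nat_lit 120) (.e (nat_lit 524322) (nat_lit 12) (.e (nat_lit 450588) (nat_lit 10) (.e (nat_lit 573474) (nat_lit 12) (.e (nat_lit 57347) (nat_lit 0) (.e (nat_lit 7265) (nat_lit 384) (.e (nat_lit 57412) (nat_lit 12) (.e (nat_lit 335886) (nat_lit 0) .nil)))))))) (.g (nat_lit 5) .nil .nil))) 
(.lf (nat_lit 79085) (.g (nat_lit 4418) (.e (nat_lit 1812) (nat_lit 120) (.e (nat_lit 524322) (nat_lit 12) (.e (nat_lit 450588) (nat_lit 10) (.e (nat_lit 573475) (nat_lit 12) (.e (nat_lit 57347) (nat_lit 0) (.e (nat_lit 7265) (nat_lit 384) (.e (nat_lit 57412) (nat_lit 12) (.e (nat_lit 335886) (nat_lit 0) .nil)))))))) (.g (nat_lit 6) .nil .nil)))) (.nd (nat_lit 5) 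
(.lf (nat_lit 79069) (.g (nat_lit 3139) (.e (nat_lit 1812) (nat_lit 120) (.e (nat_lit 524322) (nat_lit 12) (.e (nat_lit 450588) (nat_lit 10) (.e (nat_lit 573474) (nat_lit 12) (.e (nat_lit 57572) (nat_lit 54) (.e (nat_lit 770058) (nat_lit 5) (.e (nat_lit 1413) (nat_lit 108) (.e (nat_lit 335915) (nat_lit 0) .nil)))))))) (.g (nat_lit 6) .nil .nil))) 
(.lf (nat_lit 79101) (.g (nat_lit 3770) (.e (nat_lit 1812) (nat_lit 120) (.e (nat_lit 524322) (nat_lit 12) (.e (nat_lit 450588) (nat_lit 10) (.e (nat_lit 573475) (nat_lit 12) (.e (nat_lit 57569) (nat_lit 53) (.e (nat_lit 761867) (nat_lit 5) (.e (nat_lit 1454) (nat_lit 108) (.e (nat_lit 335915) (nat_lit 0) .nil)))))))) (.g (nat_lit 5) .nil .nil))))))) 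
(.nd (nat_lit 2) (.nd (nat_lit 3) (.nd (nat_lit 4) (.nd (nat_lit 5) 
(.lf (nat_lit 79043) (.g (nat_lit 3054) (.e (nat_lit 1812) (nat_lit 120) (.e (nat_lit 524322) (nat_lit 12) (.e (nat_lit 450588) (nat_lit 10) (.e (nat_lit 573473) (nat_lit 12) (.e (nat_lit 57569) (nat_lit 53) (.e (nat_lit 761866) (nat_lit 5) (.e (nat_lit 1454) (nat_lit 108) (.e (nat_lit 335900) (nat_lit 0) .nil)))))))) (.g (nat_lit 4) .nil .nil))) 
(.lf (nat_lit 79075) (.g (nat_lit 3476) (.e (nat_lit 1812) (nat_lit 120) (.e (nat_lit 524322) (nat_lit 12) (.e (nat_lit 450588) (nat_lit 10) (.e (nat_lit 573474) (nat_lit 12) (.e (nat_lit 57572) (nat_lit 54) (.e (nat_lit 770072) (nat_lit 8) (.e (nat_lit 65544) (nat_lit 0) .nil))))))) (.g (nat_lit 0) .nil .nil)))) (.nd (nat_lit 5) 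
(.lf (nat_lit 79059) (.g (nat_lit 2317) (.e (nat_lit 1812) (nat_lit 120) (.e (nat_lit 524322) (nat_lit 12) (.e (nat_lit 450588) (nat_lit 10) (.e (nat_lit 573474) (nat_lit 12) (.e (nat_lit 57572) (nat_lit 54) (.e (nat_lit 770056) (nat_lit 5) (.e (nat_lit 1449) (nat_lit 108) (.e (nat_lit 335915) (nat_lit 0) .nil)))))))) (.g (nat_lit 5) .nil .nil))) 
(.lf (nat_lit 79091) (.g (nat_lit 4244) (.e (nat_lit 1812) (nat_lit 120) (.e (nat_lit 524322) (nat_lit 12) (.e (nat_lit 450588) (nat_lit 10) (.e (nat_lit 573475) (nat_lit 12) (.e (nat_lit 57348) (nat_lit 0) (.e (nat_lit 7265) (nat_lit 384) (.e (nat_lit 57412) (nat_lit 12) (.e (nat_lit 335886) (nat_lit 0) .nil)))))))) (.g (nat_lit 6) .nil .nil))))) (.nd (nat_lit 4) (.nd (nat_lit 5) 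
(.lf (nat_lit 79051) (.g (nat_lit 3507) (.e (nat_lit 1812) (nat_lit 120) (.e (nat_lit 524322) (nat_lit 12) (.e (nat_lit 450588) (nat_lit 10) (.e (nat_lit 573474) (nat_lit 12) (.e (nat_lit 57347) (nat_lit 0) (.e (nat_lit 7261) (nat_lit 384) (.e (nat_lit 57412) (nat_lit 12) (.e (nat_lit 335886) (nat_lit 0) .nil)))))))) (.g (nat_lit 5) .nil .nil))) 
(.lf (nat_lit 79083) (.g (nat_lit 4427) (.e (nat_lit 1812) (nat_lit 120) (.e (nat_lit 524322) (nat_lit 12) (.e (nat_lit 450588) (nat_lit 10) (.e (nat_lit 573475) (nat_lit 12) (.e (nat_lit 57347) (nat_lit 0) (.e (nat_lit 7261) (nat_lit 384) (.e (nat_lit 57412) (nat_lit 12) (.e (nat_lit 335886) (nat_lit 0) .nil)))))))) (.g (nat_lit 6) .nil .nil)))) (.nd (nat_lit 5) 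
(.lf (nat_lit 79067) (.g (nat_lit 2166) (.e (nat_lit 1812) (nat_lit 120) (.e (nat_lit 524322) (nat_lit 12) (.e (nat_lit 450588) (nat_lit 10) (.e (nat_lit 573474) (nat_lit 12) (.e (nat_lit 57572) (nat_lit 54) (.e (nat_lit 770057) (nat_lit 5) (.e (nat_lit 1461) (nat_lit 108) (.e (nat_lit 335915) (nat_lit 0) .nil)))))))) (.g (nat_lit 5) .nil .nil))) 
(.lf (nat_lit 79099) (.g (nat_lit 3126) (.e (nat_lit 1812) (nat_lit 120) (.e (nat_lit 524322) (nat_lit 12) (.e (nat_lit 450588) (nat_lit 10) (.e (nat_lit 573475) (nat_lit 12) (.e (nat_lit 57568) (nat_lit 53) (.e (nat_lit 761867) (nat_lit 5) (.e (nat_lit 1454) (nat_lit 108) (.e (nat_lit 335915) (nat_lit 0) .nil)))))))) (.g (nat_lit 4) .nil .nil)))))) 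
(.nd (nat_lit 3) (.nd (nat_lit 4) (.nd (nat_lit 5) 
(.lf (nat_lit 79047) (.g (nat_lit 2807) (.e (nat_lit 1812) (nat_lit 120) (.e (nat_lit 524322) (nat_lit 12) (.e (nat_lit 450588) (nat_lit 10) (.e (nat_lit 573473) (nat_lit 12) (.e (nat_lit 65280) (nat_lit 57) .nil))))) .nil)) 
(.lf (nat_lit 79079) (.g (nat_lit 3015) (.e (nat_lit 1812) (nat_lit 120) (.e (nat_lit 524322) (nat_lit 12) (.e (nat_lit 450588) (nat_lit 10) (.e (nat_lit 573475) (nat_lit 12) (.e (nat_lit 57347) (nat_lit 0) (.e (nat_lit 7125) (nat_lit 382) (.e (nat_lit 1296) (nat_lit 96) (.e (nat_lit 131073) (nat_lit 0) .nil)))))))) (.g (nat_lit 4) .nil .nil)))) (.nd (nat_lit 5) 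
(.lf (nat_lit 79063) (.g (nat_lit 2155) (.e (nat_lit 1812) (nat_lit 120) (.e (nat_lit 524322) (nat_lit 12) (.e (nat_lit 450588) (nat_lit 10) (.e (nat_lit 573474) (nat_lit 12) (.e (nat_lit 57572) (nat_lit 54) (.e (nat_lit 770056) (nat_lit 5) (.e (nat_lit 1464) (nat_lit 108) (.e (nat_lit 335904) (nat_lit 0) .nil)))))))) (.g (nat_lit 5) .nil .nil))) 
(.lf (nat_lit 79095) (.g (nat_lit 3476) (.e (nat_lit 1812) (nat_lit 120) (.e (nat_lit 524322) (nat_lit 12) (.e (nat_lit 450588) (nat_lit 10) (.e (nat_lit 573475) (nat_lit 12) (.e (nat_lit 57353) (nat_lit 0) (.e (nat_lit 7265) (nat_lit 384) (.e (nat_lit 57412) (nat_lit 12) (.e (nat_lit 335886) (nat_lit 0) .nil)))))))) (.g (nat_lit 4) .nil .nil))))) (.nd (nat_lit 4) (.nd (nat_lit 5) 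
(.lf (nat_lit 79055) (.g (nat_lit 2516) (.e (nat_lit 1812) (nat_lit 120) (.e (nat_lit 524322) (nat_lit 12) (.e (nat_lit 450588) (nat_lit 10) (.e (nat_lit 573474) (nat_lit 12) (.e (nat_lit 57572) (nat_lit 54) (.e (nat_lit 770055) (nat_lit 5) (.e (nat_lit 1413) (nat_lit 108) (.e (nat_lit 335915) (nat_lit 0) .nil)))))))) (.g (nat_lit 5) .nil .nil))) 
(.lf (nat_lit 79087) (.g (nat_lit 3237) (.e (nat_lit 1812) (nat_lit 120) (.e (nat_lit 524322) (nat_lit 12) (.e (nat_lit 450588) (nat_lit 10) (.e (nat_lit 573475) (nat_lit 12) (.e (nat_lit 57348) (nat_lit 0) .nil))))) .nil))) (.nd (nat_lit 5) 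
(.lf (nat_lit 79071) (.g (nat_lit 2803) (.e (nat_lit 1812) (nat_lit 120) (.e (nat_lit 524322) (nat_lit 12) (.e (nat_lit 450588) (nat_lit 10) (.e (nat_lit 573474) (nat_lit 12) (.e (nat_lit 57572) (nat_lit 54) (.e (nat_lit 770070) (nat_lit 8) (.e (nat_lit 65544) (nat_lit 0) .nil))))))) (.g (nat_lit 5) .nil .nil))) 
(.lf (nat_lit 79103) (.g (nat_lit 3112) (.e (nat_lit 1812) (nat_lit 120) (.e (nat_lit 524322) (nat_lit 12) (.e (nat_lit 450588) (nat_lit 10) (.e (nat_lit 573475) (nat_lit 12) (.e (nat_lit 57574) (nat_lit 55) (.e (nat_lit 778359) (nat_lit 9) (.e (nat_lit 232) (nat_lit 21) (.e (nat_lit 335915) (nat_lit 0) .nil)))))))) (.g (nat_lit 5) .nil .nil)))))))))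

noncomputable def tv1070 : DT := (.nd (nat_lit 0) (.nd (nat_lit 1) (.nd (nat_lit 2) (.nd (nat_lit 3) (.nd (nat_lit 4) (.nd (nat_lit 5) (.nd (nat_lit 6) 
(.lf (nat_lit 79104) (.g (nat_lit 3982) (.e (nat_lit 1812) (nat_lit 120) (.e (nat_lit 524322) (nat_lit 12) (.e (nat_lit 450588) (nat_lit 10) (.e (nat_lit 573475) (nat_lit 12) (.e (nat_lit 57574) (nat_lit 55) (.e (nat_lit 778362) (nat_lit 9) (.e (nat_lit 268) (nat_lit 21) (.e (nat_lit 335915) (nat_lit 0) .nil)))))))) (.g (nat_lit 6) .nil .nil))) 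
(.lf (nat_lit 79168) (.g (nat_lit 3657) (.e (nat_lit 1822) (nat_lit 121) (.e (nat_lit 532499) (nat_lit 1) (.e (nat_lit 57847) (nat_lit 252) (.e (nat_lit 57368) (nat_lit 1) (.e (nat_lit 57854) (nat_lit 252) (.e (nat_lit 57373) (nat_lit 2) (.e (nat_lit 98048) (nat_lit 6) (.e (nat_lit 81928) (nat_lit 20) .nil)))))))) (.g (nat_lit 4) .nil .nil)))) (.nd (nat_lit 6) 
(.lf (nat_lit 79136) (.g (nat_lit 1022) (.e (nat_lit 1816) (nat_lit 121) (.e (nat_lit 532563) (nat_lit 15) (.e (nat_lit 385066) (nat_lit 26) .nil))) .nil)) 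
(.lf (nat_lit 79200) (.g (nat_lit 2001) (.e (nat_lit 7936) (nat_lit 121) (.e (nat_lit 532544) (nat_lit 10) (.e (nat_lit 344129) (nat_lit 26) (.e (nat_lit 557097) (nat_lit 13) (.e (nat_lit 172062) (nat_lit 2) .nil))))) .nil)))) (.nd (nat_lit 5) (.nd (nat_lit 6) 
(.lf (nat_lit 79120) (.g (nat_lit 2633) (.e (nat_lit 1812) (nat_lit 120) (.e (nat_lit 524322) (nat_lit 12) (.e (nat_lit 450588) (nat_lit 10) (.e (nat_lit 573495) (nat_lit 16) (.e (nat_lit 122883) (nat_lit 0) (.e (nat_lit 7273) (nat_lit 385) (.e (nat_lit 122909) (nat_lit 12) (.e (nat_lit 335872) (nat_lit 0) .nil)))))))) (.g (nat_lit 4) .nil .nil))) 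
(.lf (nat_lit 79184) (.g (nat_lit 1759) (.e (nat_lit 1822) (nat_lit 121) (.e (nat_lit 532530) (nat_lit 9) (.e (nat_lit 336326) (nat_lit 18) (.e (nat_lit 204863) (nat_lit 27) (.e (nat_lit 344129) (nat_lit 26) .nil))))) .nil))) (.nd (nat_lit 6) 
(.lf (nat_lit 79152) (.g (nat_lit 1287) (.e (nat_lit 1820) (nat_lit 121) (.e (nat_lit 532503) (nat_lit 1) (.e (nat_lit 57680) (nat_lit 155) (.e (nat_lit 122925) (nat_lit 19) .nil)))) .nil)) 
(.lf (nat_lit 79216) (.g (nat_lit 1717) (.e (nat_lit 7936) (nat_lit 121) (.e (nat_lit 532544) (nat_lit 10) (.e (nat_lit 344132) (nat_lit 26) (.e (nat_lit 557101) (nat_lit 13) (.e (nat_lit 172062) (nat_lit 2) .nil))))) .nil))))) (.nd (nat_lit 4) (.nd (nat_lit 5) (.nd (nat_lit 6) 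
(.lf (nat_lit 79112) (.g (nat_lit 4023) (.e (nat_lit 1812) (nat_lit 120) (.e (nat_lit 524322) (nat_lit 12) (.e (nat_lit 450588) (nat_lit 10) (.e (nat_lit 573475) (nat_lit 12) (.e (nat_lit 57574) (nat_lit 55) (.e (nat_lit 778465) (nat_lit 11) (.e (nat_lit 24583) (nat_lit 0) .nil))))))) (.g (nat_lit 6) .nil .nil))) 
(.lf (nat_lit 79176) (.g (nat_lit 1914) (.e (nat_lit 1822) (nat_lit 121) (.e (nat_lit 532513) (nat_lit 3) (.e (nat_lit 114714) (nat_lit 22) (.e (nat_lit 90172) (nat_lit 14) (.e (nat_lit 188160) (nat_lit 1) .nil))))) .nil))) (.nd (nat_lit 6) 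
(.lf (nat_lit 79144) (.g (nat_lit 1935) (.e (nat_lit 1818) (nat_lit 121) (.e (nat_lit 532513) (nat_lit 3) (.e (nat_lit 114714) (nat_lit 22) (.e (nat_lit 90172) (nat_lit 14) (.e (nat_lit 188160) (nat_lit 3) .nil))))) .nil)) 
(.lf (nat_lit 79208) (.g (nat_lit 1852) (.e (nat_lit 7936) (nat_lit 121) (.e (nat_lit 532544) (nat_lit 10) (.e (nat_lit 344130) (nat_lit 26) (.e (nat_lit 557097) (nat_lit 13) (.e (nat_lit 172064) (nat_lit 2) .nil))))) .nil)))) (.nd (nat_lit 5) (.nd (nat_lit 6) 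
(.lf (nat_lit 79128) (.g (nat_lit 1931) (.e (nat_lit 1815) (nat_lit 121) (.e (nat_lit 532513) (nat_lit 3) (.e (nat_lit 114714) (nat_lit 22) (.e (nat_lit 90172) (nat_lit 14) (.e (nat_lit 188160) (nat_lit 3) .nil))))) .nil)) 
(.lf (nat_lit 79192) (.g (nat_lit 883) (.e (nat_lit 7936) (nat_lit 121) (.e (nat_lit 532499) (nat_lit 1) (.e (nat_lit 57735) (nat_lit 183) .nil))) .nil))) (.nd (nat_lit 6) 
(.lf (nat_lit 79160) (.g (nat_lit 1405) (.e (nat_lit 1820) (nat_lit 121) (.e (nat_lit 532514) (nat_lit 3) (.e (nat_lit 114716) (nat_lit 22) (.e (nat_lit 90185) (nat_lit 17) (.e (nat_lit 237590) (nat_lit 2) .nil))))) .nil)) 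
(.lf (nat_lit 79224) (.g (nat_lit 1604) (.e (nat_lit 7936) (nat_lit 121) (.e (nat_lit 532544) (nat_lit 10) (.e (nat_lit 344133) (nat_lit 26) (.e (nat_lit 557113) (nat_lit 17) .nil)))) .nil)))))) (.nd (nat_lit 3) (.nd (nat_lit 4) (.nd (nat_lit 5) (.nd (nat_lit 6) 
(.lf (nat_lit 79108) (.g (nat_lit 3791) (.e (nat_lit 1812) (nat_lit 120) (.e (nat_lit 524322) (nat_lit 12) (.e (nat_lit 450588) (nat_lit 10) (.e (nat_lit 573475) (nat_lit 12) (.e (nat_lit 57574) (nat_lit 55) (.e (nat_lit 778464) (nat_lit 11) (.e (nat_lit 24583) (nat_lit 0) .nil))))))) (.g (nat_lit 7) .nil .nil))) 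
(.lf (nat_lit 79172) (.g (nat_lit 1495) (.e (nat_lit 1822) (nat_lit 121) (.e (nat_lit 532513) (nat_lit 3) (.e (nat_lit 114714) (nat_lit 22) (.e (nat_lit 90167) (nat_lit 13) .nil)))) .nil))) (.nd (nat_lit 6) 
(.lf (nat_lit 79140) (.g (nat_lit 444) (.e (nat_lit 1817) (nat_lit 121) (.e (nat_lit 532490) (nat_lit 0) (.e (nat_lit 7936) (nat_lit 154) .nil))) .nil)) 
(.lf (nat_lit 79204) (.g (nat_lit 1602) (.e (nat_lit 7936) (nat_lit 121) (.e (nat_lit 532544) (nat_lit 10) (.e (nat_lit 344129) (nat_lit 26) (.e (nat_lit 557113) (nat_lit 17) .nil)))) .nil)))) (.nd (nat_lit 5) (.nd (nat_lit 6) 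
(.lf (nat_lit 79124) (.g (nat_lit 1694) (.e (nat_lit 1814) (nat_lit 121) (.e (nat_lit 532514) (nat_lit 3) (.e (nat_lit 114716) (nat_lit 22) (.e (nat_lit 90172) (nat_lit 14) (.e (nat_lit 180248) (nat_lit 9) (.e (nat_lit 565267) (nat_lit 4) (.e (nat_lit 65541) (nat_lit 0) .nil))))))) (.g (nat_lit 4) .nil .nil))) 
(.lf (nat_lit 79188) (.g (nat_lit 747) (.e (nat_lit 7936) (nat_lit 121) (.e (nat_lit 532490) (nat_lit 0) (.e (nat_lit 2030) (nat_lit 140) .nil))) .nil))) (.nd (nat_lit 6) 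
(.lf (nat_lit 79156) (.g (nat_lit 1338) (.e (nat_lit 1820) (nat_lit 121) (.e (nat_lit 532513) (nat_lit 3) (.e (nat_lit 114714) (nat_lit 22) (.e (nat_lit 90172) (nat_lit 14) .nil)))) .nil)) 
(.lf (nat_lit 79220) (.g (nat_lit 2343) (.e (nat_lit 7936) (nat_lit 121) (.e (nat_lit 532544) (nat_lit 10) (.e (nat_lit 344133) (nat_lit 26) (.e (nat_lit 557103) (nat_lit 14) (.e (nat_lit 180244) (nat_lit 5) .nil))))) .nil))))) (.nd (nat_lit 4) (.nd (nat_lit 5) (.nd (nat_lit 6) 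
(.lf (nat_lit 79116) (.g (nat_lit 2612) (.e (nat_lit 1812) (nat_lit 120) (.e (nat_lit 524322) (nat_lit 12) (.e (nat_lit 450588) (nat_lit 10) (.e (nat_lit 573475) (nat_lit 12) (.e (nat_lit 65280) (nat_lit 57) .nil))))) .nil)) 
(.lf (nat_lit 79180) (.g (nat_lit 2079) (.e (nat_lit 1822) (nat_lit 121) (.e (nat_lit 532513) (nat_lit 3) (.e (nat_lit 114714) (nat_lit 22) (.e (nat_lit 90172) (nat_lit 14) (.e (nat_lit 188160) (nat_lit 3) (.e (nat_lit 516199) (nat_lit 26) (.e (nat_lit 335895) (nat_lit 0) .nil))))))) (.g (nat_lit 4) .nil .nil)))) (.nd (nat_lit 6) 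
(.lf (nat_lit 79148) (.g (nat_lit 828) (.e (nat_lit 1819) (nat_lit 121) (.e (nat_lit 532503) (nat_lit 1) (.e (nat_lit 57680) (nat_lit 155) .nil))) .nil)) 
(.lf (nat_lit 79212) (.g (nat_lit 1756) (.e (nat_lit 7936) (nat_lit 121) (.e (nat_lit 532544) (nat_lit 10) (.e (nat_lit 344131) (nat_lit 26) (.e (nat_lit 557098) (nat_lit 13) (.e (nat_lit 172062) (nat_lit 2) .nil))))) .nil)))) (.nd (nat_lit 5) (.nd (nat_lit 6) 
(.lf (nat_lit 79132) (.g (nat_lit 1022) (.e (nat_lit 1815) (nat_lit 121) (.e (nat_lit 532563) (nat_lit 15) (.e (nat_lit 385066) (nat_lit 26) .nil))) .nil)) 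
(.lf (nat_lit 79196) (.g (nat_lit 1171) (.e (nat_lit 7936) (nat_lit 121) (.e (nat_lit 532513) (nat_lit 3) (.e (nat_lit 114714) (nat_lit 22) (.e (nat_lit 90172) (nat_lit 14) .nil)))) .nil))) (.nd (nat_lit 6) 
(.lf (nat_lit 79164) (.g (nat_lit 1373) (.e (nat_lit 1821) (nat_lit 121) (.e (nat_lit 532503) (nat_lit 1) (.e (nat_lit 57683) (nat_lit 155) (.e (nat_lit 122892) (nat_lit 3) .nil)))) .nil)) 
(.lf (nat_lit 79228) (.g (nat_lit 1409) (.e (nat_lit 7936) (nat_lit 121) (.e (nat_lit 532563) (nat_lit 15) (.e (nat_lit 385066) (nat_lit 26) (.e (nat_lit 540416) (nat_lit 10) .nil)))) .nil))))))) (.nd (nat_lit 2) (.nd (nat_lit 3) (.nd (nat_lit 4) (.nd (nat_lit 5) (.nd (nat_lit 6) 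
(.lf (nat_lit 79106) (.g (nat_lit 3064) (.e (nat_lit 1812) (nat_lit 120) (.e (nat_lit 524322) (nat_lit 12) (.e (nat_lit 450588) (nat_lit 10) (.e (nat_lit 573475) (nat_lit 12) (.e (nat_lit 57574) (nat_lit 55) (.e (nat_lit 778464) (nat_lit 11) (.e (nat_lit 24577) (nat_lit 0) .nil))))))) (.g (nat_lit 5) .nil .nil))) 
(.lf (nat_lit 79170) (.g (nat_lit 1814) (.e (nat_lit 1822) (nat_lit 121) (.e (nat_lit 532503) (nat_lit 1) (.e (nat_lit 57681) (nat_lit 155) (.e (nat_lit 122925) (nat_lit 19) .nil)))) .nil))) (.nd (nat_lit 6) 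
(.lf (nat_lit 79138) (.g (nat_lit 1925) (.e (nat_lit 1816) (nat_lit 121) (.e (nat_lit 532563) (nat_lit 15) (.e (nat_lit 385066) (nat_lit 26) (.e (nat_lit 540416) (nat_lit 10) .nil)))) .nil)) 
(.lf (nat_lit 79202) (.g (nat_lit 961) (.e (nat_lit 7936) (nat_lit 121) (.e (nat_lit 532544) (nat_lit 10) (.e (nat_lit 344129) (nat_lit 26) (.e (nat_lit 557104) (nat_lit 14) .nil)))) .nil)))) (.nd (nat_lit 5) (.nd (nat_lit 6) 
(.lf (nat_lit 79122) (.g (nat_lit 698) (.e (nat_lit 1814) (nat_lit 121) (.e (nat_lit 532502) (nat_lit 1) (.e (nat_lit 57680) (nat_lit 155) (.e (nat_lit 122925) (nat_lit 19) .nil)))) .nil)) 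
(.lf (nat_lit 79186) (.g (nat_lit 1047) (.e (nat_lit 7936) (nat_lit 121) (.e (nat_lit 532481) (nat_lit 0) (.e (nat_lit 2031) (nat_lit 140) (.e (nat_lit 688178) (nat_lit 16) .nil)))) .nil))) (.nd (nat_lit 6) 
(.lf (nat_lit 79154) (.g (nat_lit 1570) (.e (nat_lit 1820) (nat_lit 121) (.e (nat_lit 532513) (nat_lit 3) (.e (nat_lit 114714) (nat_lit 22) (.e (nat_lit 90168) (nat_lit 13) .nil)))) .nil)) 
(.lf (nat_lit 79218) (.g (nat_lit 2024) (.e (nat_lit 7936) (nat_lit 121) (.e (nat_lit 532544) (nat_lit 10) (.e (nat_lit 344133) (nat_lit 26) (.e (nat_lit 557096) (nat_lit 13) (.e (nat_lit 172067) (nat_lit 3) .nil))))) .nil))))) (.nd (nat_lit 4) (.nd (nat_lit 5) (.nd (nat_lit 6) 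
(.lf (nat_lit 79114) (.g (nat_lit 4156) (.e (nat_lit 1812) (nat_lit 120) (.e (nat_lit 524322) (nat_lit 12) (.e (nat_lit 450588) (nat_lit 10) (.e (nat_lit 573475) (nat_lit 12) (.e (nat_lit 57574) (nat_lit 55) (.e (nat_lit 778466) (nat_lit 11) (.e (nat_lit 24585) (nat_lit 0) .nil))))))) (.g (nat_lit 7) .nil .nil))) 
(.lf (nat_lit 79178) (.g (nat_lit 2051) (.e (nat_lit 1822) (nat_lit 121) (.e (nat_lit 532513) (nat_lit 3) (.e (nat_lit 114714) (nat_lit 22) (.e (nat_lit 90172) (nat_lit 14) (.e (nat_lit 188160) (nat_lit 3) (.e (nat_lit 516194) (nat_lit 26) (.e (nat_lit 335894) (nat_lit 0) .nil))))))) (.g (nat_lit 4) .nil .nil)))) (.nd (nat_lit 6) 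
(.lf (nat_lit 79146) (.g (nat_lit 1458) (.e (nat_lit 1818) (nat_lit 121) (.e (nat_lit 532514) (nat_lit 3) (.e (nat_lit 114716) (nat_lit 22) (.e (nat_lit 90185) (nat_lit 17) (.e (nat_lit 237587) (nat_lit 2) .nil))))) .nil)) 
(.lf (nat_lit 79210) (.g (nat_lit 2040) (.e (nat_lit 7936) (nat_lit 121) (.e (nat_lit 532544) (nat_lit 10) (.e (nat_lit 344130) (nat_lit 26) (.e (nat_lit 557104) (nat_lit 14) (.e (nat_lit 180236) (nat_lit 1) .nil))))) .nil)))) (.nd (nat_lit 5) (.nd (nat_lit 6) 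
(.lf (nat_lit 79130) (.g (nat_lit 1406) (.e (nat_lit 1815) (nat_lit 121) (.e (nat_lit 532514) (nat_lit 3) (.e (nat_lit 114716) (nat_lit 22) (.e (nat_lit 90185) (nat_lit 17) (.e (nat_lit 237590) (nat_lit 2) (.e (nat_lit 204544) (nat_lit 2) (.e (nat_lit 24580) (nat_lit 0) .nil))))))) (.g (nat_lit 4) .nil .nil))) 
(.lf (nat_lit 79194) (.g (nat_lit 763) (.e (nat_lit 7936) (nat_lit 121) (.e (nat_lit 532503) (nat_lit 1) (.e (nat_lit 57680) (nat_lit 155) .nil))) .nil))) (.nd (nat_lit 6) 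
(.lf (nat_lit 79162) (.g (nat_lit 1985) (.e (nat_lit 1820) (nat_lit 121) (.e (nat_lit 532563) (nat_lit 15) (.e (nat_lit 385066) (nat_lit 26) (.e (nat_lit 532543) (nat_lit 10) .nil)))) .nil)) 
(.lf (nat_lit 79226) (.g (nat_lit 1475) (.e (nat_lit 7936) (nat_lit 121) (.e (nat_lit 532563) (nat_lit 15) (.e (nat_lit 385057) (nat_lit 22) (.e (nat_lit 500072) (nat_lit 19) (.e (nat_lit 73754) (nat_lit 8) .nil))))) .nil)))))) (.nd (nat_lit 3) (.nd (nat_lit 4) (.nd (nat_lit 5) (.nd (nat_lit 6) 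
(.lf (nat_lit 79110) (.g (nat_lit 3231) (.e (nat_lit 1812) (nat_lit 120) (.e (nat_lit 524322) (nat_lit 12) (.e (nat_lit 450588) (nat_lit 10) (.e (nat_lit 573475) (nat_lit 12) (.e (nat_lit 57574) (nat_lit 55) (.e (nat_lit 778465) (nat_lit 11) (.e (nat_lit 24577) (nat_lit 0) .nil))))))) (.g (nat_lit 5) .nil .nil))) 
(.lf (nat_lit 79174) (.g (nat_lit 2343) (.e (nat_lit 1822) (nat_lit 121) (.e (nat_lit 532513) (nat_lit 3) (.e (nat_lit 114714) (nat_lit 22) (.e (nat_lit 90170) (nat_lit 13) (.e (nat_lit 172064) (nat_lit 2) .nil))))) .nil))) (.nd (nat_lit 6) 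
(.lf (nat_lit 79142) (.g (nat_lit 2267) (.e (nat_lit 1817) (nat_lit 121) (.e (nat_lit 532535) (nat_lit 9) (.e (nat_lit 336226) (nat_lit 14) (.e (nat_lit 409344) (nat_lit 34) .nil)))) .nil)) 
(.lf (nat_lit 79206) (.g (nat_lit 1768) (.e (nat_lit 7936) (nat_lit 121) (.e (nat_lit 532544) (nat_lit 10) (.e (nat_lit 344130) (nat_lit 26) (.e (nat_lit 557097) (nat_lit 13) (.e (nat_lit 172062) (nat_lit 2) .nil))))) .nil)))) (.nd (nat_lit 5) (.nd (nat_lit 6) 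
(.lf (nat_lit 79126) (.g (nat_lit 1022) (.e (nat_lit 1814) (nat_lit 121) (.e (nat_lit 532563) (nat_lit 15) (.e (nat_lit 385066) (nat_lit 26) .nil))) .nil)) 
(.lf (nat_lit 79190) (.g (nat_lit 2467) (.e (nat_lit 7936) (nat_lit 121) (.e (nat_lit 532490) (nat_lit 0) (.e (nat_lit 2030) (nat_lit 140) (.e (nat_lit 688177) (nat_lit 16) (.e (nat_lit 65571) (nat_lit 3) .nil))))) .nil))) (.nd (nat_lit 6) 
(.lf (nat_lit 79158) (.g (nat_lit 1924) (.e (nat_lit 1820) (nat_lit 121) (.e (nat_lit 532513) (nat_lit 3) (.e (nat_lit 114714) (nat_lit 22) (.e (nat_lit 90172) (nat_lit 14) (.e (nat_lit 188160) (nat_lit 3) (.e (nat_lit 516194) (nat_lit 26) (.e (nat_lit 335894) (nat_lit 0) .nil))))))) (.g (nat_lit 4) .nil .nil))) 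
(.lf (nat_lit 79222) (.g (nat_lit 2763) (.e (nat_lit 7936) (nat_lit 121) (.e (nat_lit 532544) (nat_lit 10) (.e (nat_lit 344133) (nat_lit 26) (.e (nat_lit 557105) (nat_lit 14) (.e (nat_lit 180237) (nat_lit 1) .nil))))) .nil))))) (.nd (nat_lit 4) (.nd (nat_lit 5) (.nd (nat_lit 6) 
(.lf (nat_lit 79118) (.g (nat_lit 2980) (.e (nat_lit 1812) (nat_lit 120) (.e (nat_lit 524322) (nat_lit 12) (.e (nat_lit 450588) (nat_lit 10) (.e (nat_lit 573477) (nat_lit 12) .nil)))) .nil)) 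
(.lf (nat_lit 79182) (.g (nat_lit 844) (.e (nat_lit 1822) (nat_lit 121) (.e (nat_lit 532515) (nat_lit 3) (.e (nat_lit 114716) (nat_lit 22) (.e (nat_lit 90168) (nat_lit 13) .nil)))) .nil))) (.nd (nat_lit 6) 
(.lf (nat_lit 79150) (.g (nat_lit 3648) (.e (nat_lit 1820) (nat_lit 121) (.e (nat_lit 532499) (nat_lit 1) (.e (nat_lit 57847) (nat_lit 252) (.e (nat_lit 57365) (nat_lit 1) (.e (nat_lit 57854) (nat_lit 252) (.e (nat_lit 57373) (nat_lit 2) (.e (nat_lit 98048) (nat_lit 6) (.e (nat_lit 81930) (nat_lit 20) .nil)))))))) (.g (nat_lit 4) .nil .nil))) 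
(.lf (nat_lit 79214) (.g (nat_lit 2368) (.e (nat_lit 7936) (nat_lit 121) (.e (nat_lit 532544) (nat_lit 10) (.e (nat_lit 344131) (nat_lit 26) (.e (nat_lit 557100) (nat_lit 13) (.e (nat_lit 172062) (nat_lit 2) .nil))))) .nil)))) (.nd (nat_lit 5) (.nd (nat_lit 6) 
(.lf (nat_lit 79134) (.g (nat_lit 2205) (.e (nat_lit 1816) (nat_lit 121) (.e (nat_lit 532529) (nat_lit 9) (.e (nat_lit 336316) (nat_lit 17) (.e (nat_lit 196670) (nat_lit 14) (.e (nat_lit 73754) (nat_lit 8) .nil))))) .nil)) 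
(.lf (nat_lit 79198) (.g (nat_lit 1114) (.e (nat_lit 7936) (nat_lit 121) (.e (nat_lit 532529) (nat_lit 9) (.e (nat_lit 336326) (nat_lit 18) (.e (nat_lit 204864) (nat_lit 27) .nil)))) .nil))) (.nd (nat_lit 6) 
(.lf (nat_lit 79166) (.g (nat_lit 2529) (.e (nat_lit 1821) (nat_lit 121) (.e (nat_lit 532504) (nat_lit 1) (.e (nat_lit 57730) (nat_lit 181) (.e (nat_lit 1209) (nat_lit 89) (.e (nat_lit 73747) (nat_lit 3) .nil))))) .nil)) 
(.lf (nat_lit 79230) (.g (nat_lit 1978) (.e (nat_lit 7936) (nat_lit 121) (.e (nat_lit 532563) (nat_lit 15) (.e (nat_lit 385068) (nat_lit 26) (.e (nat_lit 532553) (nat_lit 13) .nil)))) .nil)))))))) (.nd (nat_lit 1) (.nd (nat_lit 2) (.nd (nat_lit 3) (.nd (nat_lit 4) (.nd (nat_lit 5) (.nd (nat_lit 6) 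
(.lf (nat_lit 79105) (.g (nat_lit 3069) (.e (nat_lit 1812) (nat_lit 120) (.e (nat_lit 524322) (nat_lit 12) (.e (nat_lit 450588) (nat_lit 10) (.e (nat_lit 573475) (nat_lit 12) (.e (nat_lit 57574) (nat_lit 55) (.e (nat_lit 778463) (nat_lit 11) (.e (nat_lit 24583) (nat_lit 0) .nil))))))) (.g (nat_lit 5) .nil .nil))) 
(.lf (nat_lit 79169) (.g (nat_lit 1054) (.e (nat_lit 1822) (nat_lit 121) (.e (nat_lit 532501) (nat_lit 1) (.e (nat_lit 57851) (nat_lit 252) .nil))) .nil))) (.nd (nat_lit 6) 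
(.lf (nat_lit 79137) (.g (nat_lit 1985) (.e (nat_lit 1816) (nat_lit 121) (.e (nat_lit 532563) (nat_lit 15) (.e (nat_lit 385066) (nat_lit 26) (.e (nat_lit 532543) (nat_lit 10) .nil)))) .nil)) 
(.lf (nat_lit 79201) (.g (nat_lit 2024) (.e (nat_lit 7936) (nat_lit 121) (.e (nat_lit 532544) (nat_lit 10) (.e (nat_lit 344129) (nat_lit 26) (.e (nat_lit 557097) (nat_lit 13) (.e (nat_lit 172063) (nat_lit 2) .nil))))) .nil)))) (.nd (nat_lit 5) (.nd (nat_lit 6) 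
(.lf (nat_lit 79121) (.g (nat_lit 2619) (.e (nat_lit 1812) (nat_lit 120) (.e (nat_lit 524340) (nat_lit 28) (.e (nat_lit 352313) (nat_lit 23) (.e (nat_lit 98356) (nat_lit 26) (.e (nat_lit 426448) (nat_lit 20) (.e (nat_lit 114701) (nat_lit 20) .nil)))))) (.g (nat_lit 5) .nil .nil))) 
(.lf (nat_lit 79185) (.g (nat_lit 515) (.e (nat_lit 7936) (nat_lit 121) (.e (nat_lit 532481) (nat_lit 0) (.e (nat_lit 2031) (nat_lit 140) .nil))) .nil))) (.nd (nat_lit 6) 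
(.lf (nat_lit 79153) (.g (nat_lit 1206) (.e (nat_lit 1820) (nat_lit 121) (.e (nat_lit 532504) (nat_lit 1) (.e (nat_lit 57730) (nat_lit 181) .nil))) .nil)) 
(.lf (nat_lit 79217) (.g (nat_lit 1722) (.e (nat_lit 7936) (nat_lit 121) (.e (nat_lit 532544) (nat_lit 10) (.e (nat_lit 344132) (nat_lit 26) (.e (nat_lit 557101) (nat_lit 13) (.e (nat_lit 172064) (nat_lit 2) .nil))))) .nil))))) (.nd (nat_lit 4) (.nd (nat_lit 5) (.nd (nat_lit 6) 
(.lf (nat_lit 79113) (.g (nat_lit 4036) (.e (nat_lit 1812) (nat_lit 120) (.e (nat_lit 524322) (nat_lit 12) (.e (nat_lit 450588) (nat_lit 10) (.e (nat_lit 573475) (nat_lit 12) (.e (nat_lit 57574) (nat_lit 55) (.e (nat_lit 778465) (nat_lit 11) (.e (nat_lit 24585) (nat_lit 0) .nil))))))) (.g (nat_lit 6) .nil .nil))) 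
(.lf (nat_lit 79177) (.g (nat_lit 1914) (.e (nat_lit 1822) (nat_lit 121) (.e (nat_lit 532513) (nat_lit 3) (.e (nat_lit 114714) (nat_lit 22) (.e (nat_lit 90172) (nat_lit 14) (.e (nat_lit 188160) (nat_lit 3) .nil))))) .nil))) (.nd (nat_lit 6) 
(.lf (nat_lit 79145) (.g (nat_lit 1994) (.e (nat_lit 1818) (nat_lit 121) (.e (nat_lit 532513) (nat_lit 3) (.e (nat_lit 114714) (nat_lit 22) (.e (nat_lit 90172) (nat_lit 14) (.e (nat_lit 188160) (nat_lit 3) (.e (nat_lit 516199) (nat_lit 26) (.e (nat_lit 335895) (nat_lit 0) .nil))))))) (.g (nat_lit 4) .nil .nil))) 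
(.lf (nat_lit 79209) (.g (nat_lit 958) (.e (nat_lit 7936) (nat_lit 121) (.e (nat_lit 532544) (nat_lit 10) (.e (nat_lit 344130) (nat_lit 26) (.e (nat_lit 557104) (nat_lit 14) .nil)))) .nil)))) (.nd (nat_lit 5) (.nd (nat_lit 6) 
(.lf (nat_lit 79129) (.g (nat_lit 2031) (.e (nat_lit 1815) (nat_lit 121) (.e (nat_lit 532513) (nat_lit 3) (.e (nat_lit 114714) (nat_lit 22) (.e (nat_lit 90172) (nat_lit 14) (.e (nat_lit 188160) (nat_lit 3) (.e (nat_lit 516199) (nat_lit 26) (.e (nat_lit 335895) (nat_lit 0) .nil))))))) (.g (nat_lit 4) .nil .nil))) 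
(.lf (nat_lit 79193) (.g (nat_lit 632) (.e (nat_lit 7936) (nat_lit 121) (.e (nat_lit 532500) (nat_lit 1) (.e (nat_lit 57680) (nat_lit 155) .nil))) .nil))) (.nd (nat_lit 6) 
(.lf (nat_lit 79161) (.g (nat_lit 1022) (.e (nat_lit 1820) (nat_lit 121) (.e (nat_lit 532563) (nat_lit 15) (.e (nat_lit 385066) (nat_lit 26) .nil))) .nil)) 
(.lf (nat_lit 79225) (.g (nat_lit 718) (.e (nat_lit 7936) (nat_lit 121) (.e (nat_lit 532563) (nat_lit 15) (.e (nat_lit 385057) (nat_lit 22) .nil))) .nil)))))) (.nd (nat_lit 3) (.nd (nat_lit 4) (.nd (nat_lit 5) (.nd (nat_lit 6) 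
(.lf (nat_lit 79109) (.g (nat_lit 3759) (.e (nat_lit 1812) (nat_lit 120) (.e (nat_lit 524322) (nat_lit 12) (.e (nat_lit 450588) (nat_lit 10) (.e (nat_lit 573475) (nat_lit 12) (.e (nat_lit 57574) (nat_lit 55) (.e (nat_lit 778464) (nat_lit 11) (.e (nat_lit 24586) (nat_lit 0) .nil))))))) (.g (nat_lit 6) .nil .nil))) 
(.lf (nat_lit 79173) (.g (nat_lit 3116) (.e (nat_lit 1822) (nat_lit 121) (.e (nat_lit 532513) (nat_lit 3) (.e (nat_lit 114714) (nat_lit 22) (.e (nat_lit 90170) (nat_lit 13) (.e (nat_lit 172062) (nat_lit 2) (.e (nat_lit 204544) (nat_lit 2) (.e (nat_lit 24580) (nat_lit 0) .nil))))))) (.g (nat_lit 4) .nil .nil)))) (.nd (nat_lit 6) 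
(.lf (nat_lit 79141) (.g (nat_lit 1881) (.e (nat_lit 1817) (nat_lit 121) (.e (nat_lit 532513) (nat_lit 3) (.e (nat_lit 114714) (nat_lit 22) (.e (nat_lit 90172) (nat_lit 14) (.e (nat_lit 188160) (nat_lit 3) .nil))))) .nil)) 
(.lf (nat_lit 79205) (.g (nat_lit 1034) (.e (nat_lit 7936) (nat_lit 121) (.e (nat_lit 532544) (nat_lit 10) (.e (nat_lit 344130) (nat_lit 26) (.e (nat_lit 557097) (nat_lit 13) .nil)))) .nil)))) (.nd (nat_lit 5) (.nd (nat_lit 6) 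
(.lf (nat_lit 79125) (.g (nat_lit 1907) (.e (nat_lit 1814) (nat_lit 121) (.e (nat_lit 532529) (nat_lit 9) (.e (nat_lit 336316) (nat_lit 17) (.e (nat_lit 196630) (nat_lit 9) .nil)))) .nil)) 
(.lf (nat_lit 79189) (.g (nat_lit 1375) (.e (nat_lit 7936) (nat_lit 121) (.e (nat_lit 532490) (nat_lit 0) (.e (nat_lit 2030) (nat_lit 140) (.e (nat_lit 688174) (nat_lit 16) .nil)))) .nil))) (.nd (nat_lit 6) 
(.lf (nat_lit 79157) (.g (nat_lit 1923) (.e (nat_lit 1820) (nat_lit 121) (.e (nat_lit 532513) (nat_lit 3) (.e (nat_lit 114714) (nat_lit 22) (.e (nat_lit 90172) (nat_lit 14) (.e (nat_lit 188160) (nat_lit 3) .nil))))) .nil)) 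
(.lf (nat_lit 79221) (.g (nat_lit 2772) (.e (nat_lit 7936) (nat_lit 121) (.e (nat_lit 532544) (nat_lit 10) (.e (nat_lit 344133) (nat_lit 26) (.e (nat_lit 557105) (nat_lit 14) (.e (nat_lit 180234) (nat_lit 1) .nil))))) .nil))))) (.nd (nat_lit 4) (.nd (nat_lit 5) (.nd (nat_lit 6) 
(.lf (nat_lit 79117) (.g (nat_lit 2612) (.e (nat_lit 1812) (nat_lit 120) (.e (nat_lit 524322) (nat_lit 12) (.e (nat_lit 450588) (nat_lit 10) (.e (nat_lit 573475) (nat_lit 12) (.e (nat_lit 65280) (nat_lit 58) .nil))))) .nil)) 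
(.lf (nat_lit 79181) (.g (nat_lit 1435) (.e (nat_lit 1822) (nat_lit 121) (.e (nat_lit 532515) (nat_lit 3) (.e (nat_lit 114716) (nat_lit 22) (.e (nat_lit 90167) (nat_lit 13) (.e (nat_lit 172064) (nat_lit 2) (.e (nat_lit 204544) (nat_lit 2) (.e (nat_lit 24578) (nat_lit 0) .nil))))))) (.g (nat_lit 4) .nil .nil)))) (.nd (nat_lit 6) 
(.lf (nat_lit 79149) (.g (nat_lit 2184) (.e (nat_lit 1819) (nat_lit 121) (.e (nat_lit 532514) (nat_lit 3) (.e (nat_lit 114715) (nat_lit 22) (.e (nat_lit 90170) (nat_lit 13) (.e (nat_lit 172062) (nat_lit 2) (.e (nat_lit 204544) (nat_lit 2) (.e (nat_lit 24580) (nat_lit 0) .nil))))))) (.g (nat_lit 4) .nil .nil))) 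
(.lf (nat_lit 79213) (.g (nat_lit 1888) (.e (nat_lit 7936) (nat_lit 121) (.e (nat_lit 532544) (nat_lit 10) (.e (nat_lit 344131) (nat_lit 26) (.e (nat_lit 557098) (nat_lit 13) (.e (nat_lit 172063) (nat_lit 2) .nil))))) .nil)))) (.nd (nat_lit 5) (.nd (nat_lit 6) 
(.lf (nat_lit 79133) (.g (nat_lit 3016) (.e (nat_lit 1816) (nat_lit 121) (.e (nat_lit 532529) (nat_lit 9) (.e (nat_lit 336316) (nat_lit 17) (.e (nat_lit 196670) (nat_lit 14) (.e (nat_lit 73753) (nat_lit 8) (.e (nat_lit 557101) (nat_lit 13) (.e (nat_lit 179968) (nat_lit 15) .nil))))))) (.g (nat_lit 5) .nil .nil))) 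
(.lf (nat_lit 79197) (.g (nat_lit 1473) (.e (nat_lit 7936) (nat_lit 121) (.e (nat_lit 532529) (nat_lit 9) (.e (nat_lit 336316) (nat_lit 17) (.e (nat_lit 196630) (nat_lit 9) .nil)))) .nil))) (.nd (nat_lit 6) 
(.lf (nat_lit 79165) (.g (nat_lit 1206) (.e (nat_lit 1821) (nat_lit 121) (.e (nat_lit 532504) (nat_lit 1) (.e (nat_lit 57730) (nat_lit 181) .nil))) .nil)) 
(.lf (nat_lit 79229) (.g (nat_lit 1866) (.e (nat_lit 7936) (nat_lit 121) (.e (nat_lit 532563) (nat_lit 15) (.e (nat_lit 385066) (nat_lit 26) (.e (nat_lit 532555) (nat_lit 13) (.e (nat_lit 368682) (nat_lit 26) .nil))))) .nil))))))) (.nd (nat_lit 2) (.nd (nat_lit 3) (.nd (nat_lit 4) (.nd (nat_lit 5) (.nd (nat_lit 6) 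
(.lf (nat_lit 79107) (.g (nat_lit 3203) (.e (nat_lit 1812) (nat_lit 120) (.e (nat_lit 524322) (nat_lit 12) (.e (nat_lit 450588) (nat_lit 10) (.e (nat_lit 573475) (nat_lit 12) (.e (nat_lit 57574) (nat_lit 55) (.e (nat_lit 778464) (nat_lit 11) (.e (nat_lit 24582) (nat_lit 0) .nil))))))) (.g (nat_lit 5) .nil .nil))) 
(.lf (nat_lit 79171) (.g (nat_lit 1203) (.e (nat_lit 1822) (nat_lit 121) (.e (nat_lit 532504) (nat_lit 1) (.e (nat_lit 57680) (nat_lit 155) .nil))) .nil))) (.nd (nat_lit 6) 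
(.lf (nat_lit 79139) (.g (nat_lit 444) (.e (nat_lit 1817) (nat_lit 121) (.e (nat_lit 532490) (nat_lit 0) (.e (nat_lit 7936) (nat_lit 153) .nil))) .nil)) 
(.lf (nat_lit 79203) (.g (nat_lit 2310) (.e (nat_lit 7936) (nat_lit 121) (.e (nat_lit 532544) (nat_lit 10) (.e (nat_lit 344129) (nat_lit 26) (.e (nat_lit 557104) (nat_lit 14) (.e (nat_lit 180236) (nat_lit 1) .nil))))) .nil)))) (.nd (nat_lit 5) (.nd (nat_lit 6) 
(.lf (nat_lit 79123) (.g (nat_lit 1937) (.e (nat_lit 1814) (nat_lit 121) (.e (nat_lit 532513) (nat_lit 3) (.e (nat_lit 114714) (nat_lit 22) (.e (nat_lit 90172) (nat_lit 14) (.e (nat_lit 188160) (nat_lit 3) .nil))))) .nil)) 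
(.lf (nat_lit 79187) (.g (nat_lit 753) (.e (nat_lit 7936) (nat_lit 121) (.e (nat_lit 532490) (nat_lit 0) (.e (nat_lit 2024) (nat_lit 140) .nil))) .nil))) (.nd (nat_lit 6) 
(.lf (nat_lit 79155) (.g (nat_lit 3248) (.e (nat_lit 1820) (nat_lit 121) (.e (nat_lit 532513) (nat_lit 3) (.e (nat_lit 114714) (nat_lit 22) (.e (nat_lit 90170) (nat_lit 13) (.e (nat_lit 172062) (nat_lit 2) (.e (nat_lit 204544) (nat_lit 2) (.e (nat_lit 24580) (nat_lit 0) .nil))))))) (.g (nat_lit 5) .nil .nil))) 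
(.lf (nat_lit 79219) (.g (nat_lit 2583) (.e (nat_lit 7936) (nat_lit 121) (.e (nat_lit 532544) (nat_lit 10) (.e (nat_lit 344133) (nat_lit 26) (.e (nat_lit 557103) (nat_lit 14) (.e (nat_lit 180235) (nat_lit 1) .nil))))) .nil))))) (.nd (nat_lit 4) (.nd (nat_lit 5) (.nd (nat_lit 6) 
(.lf (nat_lit 79115) (.g (nat_lit 4018) (.e (nat_lit 1812) (nat_lit 120) (.e (nat_lit 524322) (nat_lit 12) (.e (nat_lit 450588) (nat_lit 10) (.e (nat_lit 573475) (nat_lit 12) (.e (nat_lit 57574) (nat_lit 55) (.e (nat_lit 778466) (nat_lit 11) (.e (nat_lit 32512) (nat_lit 0) .nil))))))) (.g (nat_lit 6) .nil .nil))) 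
(.lf (nat_lit 79179) (.g (nat_lit 1974) (.e (nat_lit 1822) (nat_lit 121) (.e (nat_lit 532513) (nat_lit 3) (.e (nat_lit 114714) (nat_lit 22) (.e (nat_lit 90172) (nat_lit 14) (.e (nat_lit 188160) (nat_lit 3) (.e (nat_lit 516195) (nat_lit 26) (.e (nat_lit 335895) (nat_lit 0) .nil))))))) (.g (nat_lit 4) .nil .nil)))) (.nd (nat_lit 6) 
(.lf (nat_lit 79147) (.g (nat_lit 1066) (.e (nat_lit 1818) (nat_lit 121) (.e (nat_lit 532514) (nat_lit 3) (.e (nat_lit 114719) (nat_lit 23) (.e (nat_lit 98365) (nat_lit 26) .nil)))) .nil)) 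
(.lf (nat_lit 79211) (.g (nat_lit 1968) (.e (nat_lit 7936) (nat_lit 121) (.e (nat_lit 532544) (nat_lit 10) (.e (nat_lit 344130) (nat_lit 26) (.e (nat_lit 557104) (nat_lit 14) (.e (nat_lit 180237) (nat_lit 1) .nil))))) .nil)))) (.nd (nat_lit 5) (.nd (nat_lit 6) 
(.lf (nat_lit 79131) (.g (nat_lit 1064) (.e (nat_lit 1815) (nat_lit 121) (.e (nat_lit 532514) (nat_lit 3) (.e (nat_lit 114719) (nat_lit 23) (.e (nat_lit 98365) (nat_lit 26) .nil)))) .nil)) 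
(.lf (nat_lit 79195) (.g (nat_lit 1756) (.e (nat_lit 7936) (nat_lit 121) (.e (nat_lit 532503) (nat_lit 1) (.e (nat_lit 57681) (nat_lit 155) (.e (nat_lit 122925) (nat_lit 19) .nil)))) .nil))) (.nd (nat_lit 6) 
(.lf (nat_lit 79163) (.g (nat_lit 828) (.e (nat_lit 1821) (nat_lit 121) (.e (nat_lit 532503) (nat_lit 1) (.e (nat_lit 57680) (nat_lit 155) .nil))) .nil)) 
(.lf (nat_lit 79227) (.g (nat_lit 1535) (.e (nat_lit 7936) (nat_lit 121) (.e (nat_lit 532563) (nat_lit 15) (.e (nat_lit 385066) (nat_lit 26) (.e (nat_lit 532545) (nat_lit 10) .nil)))) .nil)))))) (.nd (nat_lit 3) (.nd (nat_lit 4) (.nd (nat_lit 5) (.nd (nat_lit 6) 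
(.lf (nat_lit 79111) (.g (nat_lit 3059) (.e (nat_lit 1812) (nat_lit 120) (.e (nat_lit 524322) (nat_lit 12) (.e (nat_lit 450588) (nat_lit 10) (.e (nat_lit 573475) (nat_lit 12) (.e (nat_lit 57574) (nat_lit 55) (.e (nat_lit 778465) (nat_lit 11) (.e (nat_lit 24582) (nat_lit 0) .nil))))))) (.g (nat_lit 5) .nil .nil))) 
(.lf (nat_lit 79175) (.g (nat_lit 3286) (.e (nat_lit 1822) (nat_lit 121) (.e (nat_lit 532513) (nat_lit 3) (.e (nat_lit 114714) (nat_lit 22) (.e (nat_lit 90170) (nat_lit 13) (.e (nat_lit 172064) (nat_lit 2) (.e (nat_lit 204544) (nat_lit 2) (.e (nat_lit 24580) (nat_lit 0) .nil))))))) (.g (nat_lit 5) .nil .nil)))) (.nd (nat_lit 6) 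
(.lf (nat_lit 79143) (.g (nat_lit 1582) (.e (nat_lit 1818) (nat_lit 121) (.e (nat_lit 532513) (nat_lit 3) (.e (nat_lit 114714) (nat_lit 22) (.e (nat_lit 90168) (nat_lit 13) .nil)))) .nil)) 
(.lf (nat_lit 79207) (.g (nat_lit 1777) (.e (nat_lit 7936) (nat_lit 121) (.e (nat_lit 532544) (nat_lit 10) (.e (nat_lit 344130) (nat_lit 26) (.e (nat_lit 557097) (nat_lit 13) (.e (nat_lit 172063) (nat_lit 2) .nil))))) .nil)))) (.nd (nat_lit 5) (.nd (nat_lit 6) 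
(.lf (nat_lit 79127) (.g (nat_lit 1579) (.e (nat_lit 1815) (nat_lit 121) (.e (nat_lit 532513) (nat_lit 3) (.e (nat_lit 114714) (nat_lit 22) (.e (nat_lit 90168) (nat_lit 13) .nil)))) .nil)) 
(.lf (nat_lit 79191) (.g (nat_lit 1305) (.e (nat_lit 7936) (nat_lit 121) (.e (nat_lit 532490) (nat_lit 0) (.e (nat_lit 2030) (nat_lit 140) (.e (nat_lit 688182) (nat_lit 17) .nil)))) .nil))) (.nd (nat_lit 6) 
(.lf (nat_lit 79159) (.g (nat_lit 1947) (.e (nat_lit 1820) (nat_lit 121) (.e (nat_lit 532513) (nat_lit 3) (.e (nat_lit 114714) (nat_lit 22) (.e (nat_lit 90172) (nat_lit 14) (.e (nat_lit 188160) (nat_lit 3) (.e (nat_lit 516199) (nat_lit 26) (.e (nat_lit 335895) (nat_lit 0) .nil))))))) (.g (nat_lit 4) .nil .nil))) 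
(.lf (nat_lit 79223) (.g (nat_lit 2487) (.e (nat_lit 7936) (nat_lit 121) (.e (nat_lit 532544) (nat_lit 10) (.e (nat_lit 344133) (nat_lit 26) (.e (nat_lit 557105) (nat_lit 14) (.e (nat_lit 180251) (nat_lit 10) .nil))))) .nil))))) (.nd (nat_lit 4) (.nd (nat_lit 5) (.nd (nat_lit 6) 
(.lf (nat_lit 79119) (.g (nat_lit 2684) (.e (nat_lit 1812) (nat_lit 120) (.e (nat_lit 524322) (nat_lit 12) (.e (nat_lit 450588) (nat_lit 10) (.e (nat_lit 573478) (nat_lit 12) .nil)))) .nil)) 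
(.lf (nat_lit 79183) (.g (nat_lit 1147) (.e (nat_lit 1822) (nat_lit 121) (.e (nat_lit 532515) (nat_lit 3) (.e (nat_lit 114716) (nat_lit 22) (.e (nat_lit 90168) (nat_lit 13) (.e (nat_lit 172064) (nat_lit 2) (.e (nat_lit 204544) (nat_lit 2) (.e (nat_lit 24578) (nat_lit 0) .nil))))))) (.g (nat_lit 4) .nil .nil)))) (.nd (nat_lit 6) 
(.lf (nat_lit 79151) (.g (nat_lit 1085) (.e (nat_lit 1820) (nat_lit 121) (.e (nat_lit 532502) (nat_lit 1) (.e (nat_lit 57681) (nat_lit 155) (.e (nat_lit 122925) (nat_lit 19) .nil)))) .nil)) 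
(.lf (nat_lit 79215) (.g (nat_lit 1718) (.e (nat_lit 7936) (nat_lit 121) (.e (nat_lit 532544) (nat_lit 10) (.e (nat_lit 344132) (nat_lit 26) (.e (nat_lit 557101) (nat_lit 13) (.e (nat_lit 172051) (nat_lit 0) .nil))))) .nil)))) (.nd (nat_lit 5) (.nd (nat_lit 6) 
(.lf (nat_lit 79135) (.g (nat_lit 2028) (.e (nat_lit 1816) (nat_lit 121) (.e (nat_lit 532529) (nat_lit 9) (.e (nat_lit 336326) (nat_lit 18) (.e (nat_lit 204862) (nat_lit 27) (.e (nat_lit 344132) (nat_lit 26) .nil))))) .nil)) 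
(.lf (nat_lit 79199) (.g (nat_lit 1145) (.e (nat_lit 7936) (nat_lit 121) (.e (nat_lit 532544) (nat_lit 10) (.e (nat_lit 344129) (nat_lit 26) (.e (nat_lit 557097) (nat_lit 13) .nil)))) .nil))) (.nd (nat_lit 6) 
(.lf (nat_lit 79167) (.g (nat_lit 3660) (.e (nat_lit 1822) (nat_lit 121) (.e (nat_lit 532499) (nat_lit 1) (.e (nat_lit 57847) (nat_lit 252) (.e (nat_lit 57365) (nat_lit 1) (.e (nat_lit 57854) (nat_lit 252) (.e (nat_lit 57373) (nat_lit 2) (.e (nat_lit 98048) (nat_lit 6) (.e (nat_lit 81928) (nat_lit 20) .nil)))))))) (.g (nat_lit 4) .nil .nil))) 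
(.lf (nat_lit 79231) (.g (nat_lit 2438) (.e (nat_lit 7936) (nat_lit 121) (.e (nat_lit 532563) (nat_lit 15) (.e (nat_lit 385068) (nat_lit 26) (.e (nat_lit 532555) (nat_lit 13) (.e (nat_lit 368682) (nat_lit 26) .nil))))) .nil)))))))))

noncomputable def tv1071 : DT := (.nd (nat_lit 0) (.nd (nat_lit 1) (.nd (nat_lit 2) (.nd (nat_lit 3) (.nd (nat_lit 4) (.nd (nat_lit 5) 
(.lf (nat_lit 79232) (.g (nat_lit 2884) (.e (nat_lit 7936) (nat_lit 121) (.e (nat_lit 532567) (nat_lit 16) (.e (nat_lit 401459) (nat_lit 13) (.e (nat_lit 483337) (nat_lit 9) (.e (nat_lit 433920) (nat_lit 20) .nil))))) .nil)) 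
(.lf (nat_lit 79264) (.g (nat_lit 1670) (.e (nat_lit 1840) (nat_lit 123) (.e (nat_lit 548874) (nat_lit 5) (.e (nat_lit 1586) (nat_lit 111) (.e (nat_lit 360474) (nat_lit 8) (.e (nat_lit 557073) (nat_lit 9) (.e (nat_lit 7936) (nat_lit 23) (.e (nat_lit 352296) (nat_lit 20) .nil))))))) (.g (nat_lit 5) .nil .nil)))) (.nd (nat_lit 5) 
(.lf (nat_lit 79248) (.g (nat_lit 1270) (.e (nat_lit 1836) (nat_lit 123) (.e (nat_lit 548889) (nat_lit 9) (.e (nat_lit 65628) (nat_lit 14) (.e (nat_lit 401428) (nat_lit 3) .nil)))) .nil)) 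
(.lf (nat_lit 79280) (.g (nat_lit 1399) (.e (nat_lit 1840) (nat_lit 123) (.e (nat_lit 548874) (nat_lit 5) (.e (nat_lit 1598) (nat_lit 111) (.e (nat_lit 360473) (nat_lit 8) (.e (nat_lit 557068) (nat_lit 9) (.e (nat_lit 7936) (nat_lit 23) (.e (nat_lit 352280) (nat_lit 20) .nil))))))) (.g (nat_lit 5) .nil .nil))))) (.nd (nat_lit 4) (.nd (nat_lit 5) 
(.lf (nat_lit 79240) (.g (nat_lit 2633) (.e (nat_lit 1836) (nat_lit 123) (.e (nat_lit 548889) (nat_lit 9) (.e (nat_lit 65610) (nat_lit 10) (.e (nat_lit 344117) (nat_lit 21) (.e (nat_lit 516106) (nat_lit 0) (.e (nat_lit 7936) (nat_lit 409) (.e (nat_lit 131084) (nat_lit 0) .nil))))))) (.g (nat_lit 4) .nil .nil))) 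
(.lf (nat_lit 79272) (.g (nat_lit 2021) (.e (nat_lit 1840) (nat_lit 123) (.e (nat_lit 548874) (nat_lit 5) (.e (nat_lit 1595) (nat_lit 111) (.e (nat_lit 360471) (nat_lit 7) (.e (nat_lit 548891) (nat_lit 11) (.e (nat_lit 81943) (nat_lit 20) .nil)))))) (.g (nat_lit 5) .nil .nil)))) (.nd (nat_lit 5) 
(.lf (nat_lit 79256) (.g (nat_lit 1175) (.e (nat_lit 1836) (nat_lit 123) (.e (nat_lit 548891) (nat_lit 11) (.e (nat_lit 81956) (nat_lit 23) (.e (nat_lit 98321) (nat_lit 17) .nil)))) .nil)) 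
(.lf (nat_lit 79288) (.g (nat_lit 1017) (.e (nat_lit 1840) (nat_lit 123) (.e (nat_lit 548889) (nat_lit 9) (.e (nat_lit 65583) (nat_lit 7) (.e (nat_lit 319498) (nat_lit 10) .nil)))) .nil))))) (.nd (nat_lit 3) (.nd (nat_lit 4) (.nd (nat_lit 5) 
(.lf (nat_lit 79236) (.g (nat_lit 139) (.e (nat_lit 1830) (nat_lit 122) (.e (nat_lit 540724) (nat_lit 28) (.e (nat_lit 450304) (nat_lit 19) .nil))) .nil)) 
(.lf (nat_lit 79268) (.g (nat_lit 1590) (.e (nat_lit 1840) (nat_lit 123) (.e (nat_lit 548874) (nat_lit 5) (.e (nat_lit 1589) (nat_lit 111) (.e (nat_lit 360473) (nat_lit 8) (.e (nat_lit 557068) (nat_lit 9) (.e (nat_lit 7936) (nat_lit 23) (.e (nat_lit 352297) (nat_lit 20) .nil))))))) (.g (nat_lit 4) .nil .nil)))) (.nd (nat_lit 5) 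
(.lf (nat_lit 79252) (.g (nat_lit 1427) (.e (nat_lit 1836) (nat_lit 123) (.e (nat_lit 548889) (nat_lit 9) (.e (nat_lit 65630) (nat_lit 14) (.e (nat_lit 401428) (nat_lit 3) .nil)))) .nil)) 
(.lf (nat_lit 79284) (.g (nat_lit 1554) (.e (nat_lit 1840) (nat_lit 123) (.e (nat_lit 548874) (nat_lit 5) (.e (nat_lit 1598) (nat_lit 111) (.e (nat_lit 360473) (nat_lit 8) (.e (nat_lit 557072) (nat_lit 9) (.e (nat_lit 7936) (nat_lit 23) (.e (nat_lit 352296) (nat_lit 20) .nil))))))) (.g (nat_lit 5) .nil .nil))))) (.nd (nat_lit 4) (.nd (nat_lit 5) 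
(.lf (nat_lit 79244) (.g (nat_lit 1967) (.e (nat_lit 1836) (nat_lit 123) (.e (nat_lit 548889) (nat_lit 9) (.e (nat_lit 65617) (nat_lit 10) (.e (nat_lit 344130) (nat_lit 26) (.e (nat_lit 557067) (nat_lit 9) .nil))))) .nil)) 
(.lf (nat_lit 79276) (.g (nat_lit 370) (.e (nat_lit 1840) (nat_lit 123) (.e (nat_lit 548874) (nat_lit 5) (.e (nat_lit 1598) (nat_lit 111) .nil))) .nil))) (.nd (nat_lit 5) 
(.lf (nat_lit 79260) (.g (nat_lit 728) (.e (nat_lit 1839) (nat_lit 123) (.e (nat_lit 548889) (nat_lit 9) (.e (nat_lit 65624) (nat_lit 12) .nil))) .nil)) 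
(.lf (nat_lit 79292) (.g (nat_lit 1034) (.e (nat_lit 1840) (nat_lit 123) (.e (nat_lit 548889) (nat_lit 9) (.e (nat_lit 65583) (nat_lit 7) (.e (nat_lit 319519) (nat_lit 12) (.e (nat_lit 32774) (nat_lit 5) .nil))))) .nil)))))) (.nd (nat_lit 2) (.nd (nat_lit 3) (.nd (nat_lit 4) (.nd (nat_lit 5) 
(.lf (nat_lit 79234) (.g (nat_lit 1406) (.e (nat_lit 1828) (nat_lit 122) (.e (nat_lit 540700) (nat_lit 10) (.e (nat_lit 344130) (nat_lit 26) (.e (nat_lit 557103) (nat_lit 14) (.e (nat_lit 180244) (nat_lit 5) .nil))))) .nil)) 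
(.lf (nat_lit 79266) (.g (nat_lit 1103) (.e (nat_lit 1840) (nat_lit 123) (.e (nat_lit 548874) (nat_lit 5) (.e (nat_lit 1589) (nat_lit 111) (.e (nat_lit 360473) (nat_lit 8) .nil)))) .nil))) (.nd (nat_lit 5) 
(.lf (nat_lit 79250) (.g (nat_lit 1819) (.e (nat_lit 1836) (nat_lit 123) (.e (nat_lit 548889) (nat_lit 9) (.e (nat_lit 65630) (nat_lit 14) (.e (nat_lit 401426) (nat_lit 3) .nil)))) .nil)) 
(.lf (nat_lit 79282) (.g (nat_lit 1732) (.e (nat_lit 1840) (nat_lit 123) (.e (nat_lit 548874) (nat_lit 5) (.e (nat_lit 1598) (nat_lit 111) (.e (nat_lit 360473) (nat_lit 8) (.e (nat_lit 557070) (nat_lit 9) (.e (nat_lit 7936) (nat_lit 23) (.e (nat_lit 352297) (nat_lit 20) .nil))))))) (.g (nat_lit 5) .nil .nil))))) (.nd (nat_lit 4) (.nd (nat_lit 5) 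
(.lf (nat_lit 79242) (.g (nat_lit 2006) (.e (nat_lit 1836) (nat_lit 123) (.e (nat_lit 548889) (nat_lit 9) (.e (nat_lit 65610) (nat_lit 10) (.e (nat_lit 344129) (nat_lit 26) (.e (nat_lit 557074) (nat_lit 9) .nil))))) .nil)) 
(.lf (nat_lit 79274) (.g (nat_lit 2714) (.e (nat_lit 1840) (nat_lit 123) (.e (nat_lit 548874) (nat_lit 5) (.e (nat_lit 1595) (nat_lit 111) (.e (nat_lit 360473) (nat_lit 8) (.e (nat_lit 557066) (nat_lit 9) (.e (nat_lit 314) (nat_lit 23) (.e (nat_lit 352297) (nat_lit 20) .nil))))))) (.g (nat_lit 6) .nil .nil)))) (.nd (nat_lit 5) 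
(.lf (nat_lit 79258) (.g (nat_lit 2632) (.e (nat_lit 1836) (nat_lit 123) (.e (nat_lit 548891) (nat_lit 11) (.e (nat_lit 81956) (nat_lit 23) (.e (nat_lit 98389) (nat_lit 33) .nil)))) .nil)) 
(.lf (nat_lit 79290) (.g (nat_lit 1375) (.e (nat_lit 1840) (nat_lit 123) (.e (nat_lit 548889) (nat_lit 9) (.e (nat_lit 65583) (nat_lit 7) (.e (nat_lit 319518) (nat_lit 12) (.e (nat_lit 32789) (nat_lit 11) (.e (nat_lit 81943) (nat_lit 20) .nil)))))) (.g (nat_lit 4) .nil .nil)))))) (.nd (nat_lit 3) (.nd (nat_lit 4) (.nd (nat_lit 5) 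
(.lf (nat_lit 79238) (.g (nat_lit 1827) (.e (nat_lit 1836) (nat_lit 123) (.e (nat_lit 548889) (nat_lit 9) (.e (nat_lit 65604) (nat_lit 9) (.e (nat_lit 336013) (nat_lit 2) (.e (nat_lit 90165) (nat_lit 12) .nil))))) .nil)) 
(.lf (nat_lit 79270) (.g (nat_lit 1789) (.e (nat_lit 1840) (nat_lit 123) (.e (nat_lit 548874) (nat_lit 5) (.e (nat_lit 1589) (nat_lit 111) (.e (nat_lit 360473) (nat_lit 8) (.e (nat_lit 557081) (nat_lit 9) .nil))))) .nil))) (.nd (nat_lit 5) 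
(.lf (nat_lit 79254) (.g (nat_lit 1214) (.e (nat_lit 1836) (nat_lit 123) (.e (nat_lit 548891) (nat_lit 11) (.e (nat_lit 81953) (nat_lit 22) (.e (nat_lit 90165) (nat_lit 12) .nil)))) .nil)) 
(.lf (nat_lit 79286) (.g (nat_lit 497) (.e (nat_lit 1840) (nat_lit 123) (.e (nat_lit 548889) (nat_lit 9) (.e (nat_lit 65582) (nat_lit 7) .nil))) .nil)))) (.nd (nat_lit 4) (.nd (nat_lit 5) 
(.lf (nat_lit 79246) (.g (nat_lit 2144) (.e (nat_lit 1836) (nat_lit 123) (.e (nat_lit 548889) (nat_lit 9) (.e (nat_lit 65619) (nat_lit 10) (.e (nat_lit 344117) (nat_lit 21) (.e (nat_lit 516106) (nat_lit 0) .nil))))) .nil)) 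
(.lf (nat_lit 79278) (.g (nat_lit 1828) (.e (nat_lit 1840) (nat_lit 123) (.e (nat_lit 548874) (nat_lit 5) (.e (nat_lit 1598) (nat_lit 111) (.e (nat_lit 360471) (nat_lit 7) (.e (nat_lit 548891) (nat_lit 11) (.e (nat_lit 81939) (nat_lit 20) .nil)))))) (.g (nat_lit 5) .nil .nil)))) (.nd (nat_lit 5) 
(.lf (nat_lit 79262) (.g (nat_lit 2347) (.e (nat_lit 1840) (nat_lit 123) (.e (nat_lit 548874) (nat_lit 5) (.e (nat_lit 1586) (nat_lit 111) (.e (nat_lit 360471) (nat_lit 7) (.e (nat_lit 548891) (nat_lit 11) (.e (nat_lit 81943) (nat_lit 20) .nil)))))) (.g (nat_lit 0) .nil .nil))) 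
(.lf (nat_lit 79294) (.g (nat_lit 1285) (.e (nat_lit 1840) (nat_lit 123) (.e (nat_lit 548889) (nat_lit 9) (.e (nat_lit 65583) (nat_lit 7) (.e (nat_lit 319519) (nat_lit 12) (.e (nat_lit 32774) (nat_lit 5) (.e (nat_lit 1572) (nat_lit 110) (.e (nat_lit 352295) (nat_lit 20) .nil))))))) (.g (nat_lit 4) .nil .nil)))))))) 
(.nd (nat_lit 1) (.nd (nat_lit 2) (.nd (nat_lit 3) (.nd (nat_lit 4) (.nd (nat_lit 5) 
(.lf (nat_lit 79233) (.g (nat_lit 1867) (.e (nat_lit 1828) (nat_lit 122) (.e (nat_lit 540700) (nat_lit 10) (.e (nat_lit 344130) (nat_lit 26) (.e (nat_lit 557097) (nat_lit 13) (.e (nat_lit 172066) (nat_lit 3) (.e (nat_lit 204811) (nat_lit 9) (.e (nat_lit 426356) (nat_lit 15) .nil))))))) (.g (nat_lit 5) .nil .nil))) 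
(.lf (nat_lit 79265) (.g (nat_lit 3621) (.e (nat_lit 1840) (nat_lit 123) (.e (nat_lit 548874) (nat_lit 5) (.e (nat_lit 1586) (nat_lit 111) (.e (nat_lit 360475) (nat_lit 8) (.e (nat_lit 557087) (nat_lit 11) (.e (nat_lit 24631) (nat_lit 9) (.e (nat_lit 335928) (nat_lit 0) .nil))))))) (.g (nat_lit 0) .nil .nil)))) (.nd (nat_lit 5) 
(.lf (nat_lit 79249) (.g (nat_lit 2131) (.e (nat_lit 1836) (nat_lit 123) (.e (nat_lit 548889) (nat_lit 9) (.e (nat_lit 65629) (nat_lit 14) (.e (nat_lit 401428) (nat_lit 3) (.e (nat_lit 204877) (nat_lit 31) .nil))))) .nil)) 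
(.lf (nat_lit 79281) (.g (nat_lit 1300) (.e (nat_lit 1840) (nat_lit 123) (.e (nat_lit 548874) (nat_lit 5) (.e (nat_lit 1598) (nat_lit 111) (.e (nat_lit 360473) (nat_lit 8) (.e (nat_lit 557068) (nat_lit 9) (.e (nat_lit 7936) (nat_lit 23) (.e (nat_lit 352291) (nat_lit 20) .nil))))))) (.g (nat_lit 5) .nil .nil))))) (.nd (nat_lit 4) (.nd (nat_lit 5) 
(.lf (nat_lit 79241) (.g (nat_lit 2286) (.e (nat_lit 1836) (nat_lit 123) (.e (nat_lit 548889) (nat_lit 9) (.e (nat_lit 65610) (nat_lit 10) (.e (nat_lit 344129) (nat_lit 26) (.e (nat_lit 557067) (nat_lit 9) .nil))))) .nil)) 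
(.lf (nat_lit 79273) (.g (nat_lit 938) (.e (nat_lit 1840) (nat_lit 123) (.e (nat_lit 548874) (nat_lit 5) (.e (nat_lit 1595) (nat_lit 111) (.e (nat_lit 360473) (nat_lit 8) .nil)))) .nil))) (.nd (nat_lit 5) 
(.lf (nat_lit 79257) (.g (nat_lit 1536) (.e (nat_lit 1836) (nat_lit 123) (.e (nat_lit 548891) (nat_lit 11) (.e (nat_lit 81956) (nat_lit 23) (.e (nat_lit 98325) (nat_lit 17) .nil)))) .nil)) 
(.lf (nat_lit 79289) (.g (nat_lit 1116) (.e (nat_lit 1840) (nat_lit 123) (.e (nat_lit 548889) (nat_lit 9) (.e (nat_lit 65583) (nat_lit 7) (.e (nat_lit 319518) (nat_lit 12) .nil)))) .nil))))) (.nd (nat_lit 3) (.nd (nat_lit 4) (.nd (nat_lit 5) 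
(.lf (nat_lit 79237) (.g (nat_lit 1151) (.e (nat_lit 1830) (nat_lit 122) (.e (nat_lit 540724) (nat_lit 28) (.e (nat_lit 442419) (nat_lit 21) (.e (nat_lit 164196) (nat_lit 158) .nil)))) .nil)) 
(.lf (nat_lit 79269) (.g (nat_lit 1785) (.e (nat_lit 1840) (nat_lit 123) (.e (nat_lit 548874) (nat_lit 5) (.e (nat_lit 1589) (nat_lit 111) (.e (nat_lit 360473) (nat_lit 8) (.e (nat_lit 557073) (nat_lit 9) .nil))))) .nil))) (.nd (nat_lit 5) 
(.lf (nat_lit 79253) (.g (nat_lit 1243) (.e (nat_lit 1836) (nat_lit 123) (.e (nat_lit 548891) (nat_lit 11) (.e (nat_lit 81951) (nat_lit 22) (.e (nat_lit 90165) (nat_lit 12) .nil)))) .nil)) 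
(.lf (nat_lit 79285) (.g (nat_lit 1178) (.e (nat_lit 1840) (nat_lit 123) (.e (nat_lit 548874) (nat_lit 5) (.e (nat_lit 1598) (nat_lit 111) (.e (nat_lit 360473) (nat_lit 8) (.e (nat_lit 557073) (nat_lit 9) (.e (nat_lit 7936) (nat_lit 23) (.e (nat_lit 352291) (nat_lit 20) .nil))))))) (.g (nat_lit 4) .nil .nil))))) (.nd (nat_lit 4) (.nd (nat_lit 5) 
(.lf (nat_lit 79245) (.g (nat_lit 1932) (.e (nat_lit 1836) (nat_lit 123) (.e (nat_lit 548889) (nat_lit 9) (.e (nat_lit 65617) (nat_lit 10) (.e (nat_lit 344130) (nat_lit 26) (.e (nat_lit 557074) (nat_lit 9) .nil))))) .nil)) 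
(.lf (nat_lit 79277) (.g (nat_lit 2046) (.e (nat_lit 1840) (nat_lit 123) (.e (nat_lit 548874) (nat_lit 5) (.e (nat_lit 1598) (nat_lit 111) (.e (nat_lit 360466) (nat_lit 3) (.e (nat_lit 516179) (nat_lit 15) (.e (nat_lit 475209) (nat_lit 41) (.e (nat_lit 712706) (nat_lit 0) .nil))))))) (.g (nat_lit 5) .nil .nil)))) (.nd (nat_lit 5) 
(.lf (nat_lit 79261) (.g (nat_lit 1871) (.e (nat_lit 1839) (nat_lit 123) (.e (nat_lit 548889) (nat_lit 9) (.e (nat_lit 65624) (nat_lit 12) (.e (nat_lit 385074) (nat_lit 31) .nil)))) .nil)) 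
(.lf (nat_lit 79293) (.g (nat_lit 1732) (.e (nat_lit 1840) (nat_lit 123) (.e (nat_lit 548889) (nat_lit 9) (.e (nat_lit 65583) (nat_lit 7) (.e (nat_lit 319519) (nat_lit 12) (.e (nat_lit 32774) (nat_lit 5) (.e (nat_lit 1567) (nat_lit 110) (.e (nat_lit 352295) (nat_lit 20) .nil))))))) (.g (nat_lit 7) .nil .nil))))))) (.nd (nat_lit 2) (.nd (nat_lit 3) (.nd (nat_lit 4) (.nd (nat_lit 5) 
(.lf (nat_lit 79235) (.g (nat_lit 222) (.e (nat_lit 1829) (nat_lit 122) (.e (nat_lit 540703) (nat_lit 11) (.e (nat_lit 360192) (nat_lit 18) .nil))) .nil)) 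
(.lf (nat_lit 79267) (.g (nat_lit 1576) (.e (nat_lit 1840) (nat_lit 123) (.e (nat_lit 548874) (nat_lit 5) (.e (nat_lit 1589) (nat_lit 111) (.e (nat_lit 360473) (nat_lit 8) (.e (nat_lit 557068) (nat_lit 9) .nil))))) .nil))) (.nd (nat_lit 5) 
(.lf (nat_lit 79251) (.g (nat_lit 2710) (.e (nat_lit 1836) (nat_lit 123) (.e (nat_lit 548889) (nat_lit 9) (.e (nat_lit 65630) (nat_lit 14) (.e (nat_lit 401427) (nat_lit 3) (.e (nat_lit 204877) (nat_lit 31) .nil))))) .nil)) 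
(.lf (nat_lit 79283) (.g (nat_lit 1332) (.e (nat_lit 1840) (nat_lit 123) (.e (nat_lit 548874) (nat_lit 5) (.e (nat_lit 1598) (nat_lit 111) (.e (nat_lit 360473) (nat_lit 8) (.e (nat_lit 557072) (nat_lit 9) (.e (nat_lit 7936) (nat_lit 23) (.e (nat_lit 352291) (nat_lit 20) .nil))))))) (.g (nat_lit 5) .nil .nil))))) (.nd (nat_lit 4) (.nd (nat_lit 5) 
(.lf (nat_lit 79243) (.g (nat_lit 2874) (.e (nat_lit 1836) (nat_lit 123) (.e (nat_lit 548889) (nat_lit 9) (.e (nat_lit 65610) (nat_lit 10) (.e (nat_lit 344129) (nat_lit 26) (.e (nat_lit 557074) (nat_lit 9) (.e (nat_lit 7936) (nat_lit 26) (.e (nat_lit 376848) (nat_lit 20) .nil))))))) (.g (nat_lit 5) .nil .nil))) 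
(.lf (nat_lit 79275) (.g (nat_lit 2999) (.e (nat_lit 1840) (nat_lit 123) (.e (nat_lit 548874) (nat_lit 5) (.e (nat_lit 1595) (nat_lit 111) (.e (nat_lit 360473) (nat_lit 8) (.e (nat_lit 557087) (nat_lit 11) (.e (nat_lit 24631) (nat_lit 9) (.e (nat_lit 335928) (nat_lit 0) .nil))))))) (.g (nat_lit 6) .nil .nil)))) (.nd (nat_lit 5) 
(.lf (nat_lit 79259) (.g (nat_lit 1418) (.e (nat_lit 1838) (nat_lit 123) (.e (nat_lit 548897) (nat_lit 14) (.e (nat_lit 2828) (nat_lit 182) (.e (nat_lit 409646) (nat_lit 18) (.e (nat_lit 311040) (nat_lit 34) .nil))))) .nil)) 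
(.lf (nat_lit 79291) (.g (nat_lit 853) (.e (nat_lit 1840) (nat_lit 123) (.e (nat_lit 548889) (nat_lit 9) (.e (nat_lit 65583) (nat_lit 7) (.e (nat_lit 319519) (nat_lit 12) .nil)))) .nil))))) (.nd (nat_lit 3) (.nd (nat_lit 4) (.nd (nat_lit 5) 
(.lf (nat_lit 79239) (.g (nat_lit 1898) (.e (nat_lit 1836) (nat_lit 123) (.e (nat_lit 548889) (nat_lit 9) (.e (nat_lit 65604) (nat_lit 9) (.e (nat_lit 336028) (nat_lit 3) (.e (nat_lit 98325) (nat_lit 17) .nil))))) .nil)) 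
(.lf (nat_lit 79271) (.g (nat_lit 1880) (.e (nat_lit 1840) (nat_lit 123) (.e (nat_lit 548874) (nat_lit 5) (.e (nat_lit 1595) (nat_lit 111) (.e (nat_lit 360471) (nat_lit 7) (.e (nat_lit 548891) (nat_lit 11) (.e (nat_lit 81942) (nat_lit 20) .nil)))))) (.g (nat_lit 5) .nil .nil)))) (.nd (nat_lit 5) 
(.lf (nat_lit 79255) (.g (nat_lit 1378) (.e (nat_lit 1836) (nat_lit 123) (.e (nat_lit 548891) (nat_lit 11) (.e (nat_lit 81954) (nat_lit 23) (.e (nat_lit 98325) (nat_lit 17) .nil)))) .nil)) 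
(.lf (nat_lit 79287) (.g (nat_lit 428) (.e (nat_lit 1840) (nat_lit 123) (.e (nat_lit 548889) (nat_lit 9) (.e (nat_lit 65583) (nat_lit 7) .nil))) .nil)))) (.nd (nat_lit 4) (.nd (nat_lit 5) 
(.lf (nat_lit 79247) (.g (nat_lit 707) (.e (nat_lit 1836) (nat_lit 123) (.e (nat_lit 548889) (nat_lit 9) (.e (nat_lit 65624) (nat_lit 12) .nil))) .nil)) 
(.lf (nat_lit 79279) (.g (nat_lit 2069) (.e (nat_lit 1840) (nat_lit 123) (.e (nat_lit 548874) (nat_lit 5) (.e (nat_lit 1598) (nat_lit 111) (.e (nat_lit 360471) (nat_lit 7) (.e (nat_lit 548891) (nat_lit 11) (.e (nat_lit 81943) (nat_lit 20) .nil)))))) (.g (nat_lit 0) .nil .nil)))) (.nd (nat_lit 5) 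
(.lf (nat_lit 79263) (.g (nat_lit 1850) (.e (nat_lit 1840) (nat_lit 123) (.e (nat_lit 548874) (nat_lit 5) (.e (nat_lit 1586) (nat_lit 111) (.e (nat_lit 360474) (nat_lit 8) (.e (nat_lit 557072) (nat_lit 9) (.e (nat_lit 7936) (nat_lit 23) (.e (nat_lit 352296) (nat_lit 20) .nil))))))) (.g (nat_lit 5) .nil .nil))) 
(.lf (nat_lit 79295) (.g (nat_lit 1824) (.e (nat_lit 1840) (nat_lit 123) (.e (nat_lit 548889) (nat_lit 9) (.e (nat_lit 65583) (nat_lit 7) (.e (nat_lit 319519) (nat_lit 12) (.e (nat_lit 32789) (nat_lit 11) (.e (nat_lit 81939) (nat_lit 20) .nil)))))) (.g (nat_lit 5) .nil .nil)))))))))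

noncomputable def tv1072 : DT := (.nd (nat_lit 0) (.nd (nat_lit 1) (.nd (nat_lit 2) (.nd (nat_lit 3) (.nd (nat_lit 4) (.nd (nat_lit 5) 
(.lf (nat_lit 79296) (.g (nat_lit 2088) (.e (nat_lit 1840) (nat_lit 123) (.e (nat_lit 548889) (nat_lit 9) (.e (nat_lit 65583) (nat_lit 7) (.e (nat_lit 319519) (nat_lit 12) (.e (nat_lit 32789) (nat_lit 11) (.e (nat_lit 81943) (nat_lit 20) .nil)))))) (.g (nat_lit 0) .nil .nil))) 
(.lf (nat_lit 79328) (.g (nat_lit 2400) (.e (nat_lit 1840) (nat_lit 123) (.e (nat_lit 548889) (nat_lit 9) (.e (nat_lit 65616) (nat_lit 10) (.e (nat_lit 344126) (nat_lit 25) (.e (nat_lit 548891) (nat_lit 11) (.e (nat_lit 81942) (nat_lit 20) .nil)))))) (.g (nat_lit 5) .nil .nil)))) (.nd (nat_lit 5) 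
(.lf (nat_lit 79312) (.g (nat_lit 2023) (.e (nat_lit 1840) (nat_lit 123) (.e (nat_lit 548889) (nat_lit 9) (.e (nat_lit 65586) (nat_lit 7) (.e (nat_lit 319519) (nat_lit 12) (.e (nat_lit 32789) (nat_lit 11) (.e (nat_lit 81943) (nat_lit 20) .nil)))))) (.g (nat_lit 0) .nil .nil))) 
(.lf (nat_lit 79344) (.g (nat_lit 1926) (.e (nat_lit 1840) (nat_lit 123) (.e (nat_lit 548889) (nat_lit 9) (.e (nat_lit 65617) (nat_lit 10) (.e (nat_lit 344132) (nat_lit 26) (.e (nat_lit 557070) (nat_lit 9) (.e (nat_lit 7936) (nat_lit 23) (.e (nat_lit 352296) (nat_lit 20) .nil))))))) (.g (nat_lit 4) .nil .nil))))) (.nd (nat_lit 4) (.nd (nat_lit 5) 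
(.lf (nat_lit 79304) (.g (nat_lit 1435) (.e (nat_lit 1840) (nat_lit 123) (.e (nat_lit 548889) (nat_lit 9) (.e (nat_lit 65586) (nat_lit 7) (.e (nat_lit 319500) (nat_lit 10) (.e (nat_lit 562) (nat_lit 41) .nil))))) .nil)) 
(.lf (nat_lit 79336) (.g (nat_lit 2429) (.e (nat_lit 1840) (nat_lit 123) (.e (nat_lit 548889) (nat_lit 9) (.e (nat_lit 65617) (nat_lit 10) (.e (nat_lit 344130) (nat_lit 26) (.e (nat_lit 557067) (nat_lit 9) (.e (nat_lit 7936) (nat_lit 23) (.e (nat_lit 352280) (nat_lit 20) .nil))))))) (.g (nat_lit 5) .nil .nil)))) (.nd (nat_lit 5) 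
(.lf (nat_lit 79320) (.g (nat_lit 2572) (.e (nat_lit 1840) (nat_lit 123) (.e (nat_lit 548889) (nat_lit 9) (.e (nat_lit 65610) (nat_lit 10) (.e (nat_lit 344129) (nat_lit 26) (.e (nat_lit 557074) (nat_lit 9) (.e (nat_lit 7936) (nat_lit 23) (.e (nat_lit 352296) (nat_lit 20) .nil))))))) (.g (nat_lit 5) .nil .nil))) 
(.lf (nat_lit 79352) (.g (nat_lit 2584) (.e (nat_lit 1840) (nat_lit 123) (.e (nat_lit 548889) (nat_lit 9) (.e (nat_lit 65617) (nat_lit 10) (.e (nat_lit 344133) (nat_lit 26) (.e (nat_lit 557068) (nat_lit 9) (.e (nat_lit 7936) (nat_lit 23) (.e (nat_lit 352296) (nat_lit 20) .nil))))))) (.g (nat_lit 5) .nil .nil)))))) (.nd (nat_lit 3) (.nd (nat_lit 4) (.nd (nat_lit 5) 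
(.lf (nat_lit 79300) (.g (nat_lit 1405) (.e (nat_lit 1840) (nat_lit 123) (.e (nat_lit 548889) (nat_lit 9) (.e (nat_lit 65584) (nat_lit 7) (.e (nat_lit 319519) (nat_lit 12) (.e (nat_lit 40704) (nat_lit 11) .nil))))) .nil)) 
(.lf (nat_lit 79332) (.g (nat_lit 3017) (.e (nat_lit 1840) (nat_lit 123) (.e (nat_lit 548889) (nat_lit 9) (.e (nat_lit 65617) (nat_lit 10) (.e (nat_lit 344126) (nat_lit 25) (.e (nat_lit 548891) (nat_lit 11) (.e (nat_lit 81942) (nat_lit 20) .nil)))))) (.g (nat_lit 6) .nil .nil)))) (.nd (nat_lit 5) 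
(.lf (nat_lit 79316) (.g (nat_lit 2430) (.e (nat_lit 1840) (nat_lit 123) (.e (nat_lit 548889) (nat_lit 9) (.e (nat_lit 65610) (nat_lit 10) (.e (nat_lit 344126) (nat_lit 25) (.e (nat_lit 548891) (nat_lit 11) (.e (nat_lit 81942) (nat_lit 20) .nil)))))) (.g (nat_lit 6) .nil .nil))) 
(.lf (nat_lit 79348) (.g (nat_lit 2261) (.e (nat_lit 1840) (nat_lit 123) (.e (nat_lit 548889) (nat_lit 9) (.e (nat_lit 65617) (nat_lit 10) (.e (nat_lit 344132) (nat_lit 26) (.e (nat_lit 557073) (nat_lit 9) (.e (nat_lit 7936) (nat_lit 23) (.e (nat_lit 352296) (nat_lit 20) .nil))))))) (.g (nat_lit 5) .nil .nil))))) (.nd (nat_lit 4) (.nd (nat_lit 5) 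
(.lf (nat_lit 79308) (.g (nat_lit 1858) (.e (nat_lit 1840) (nat_lit 123) (.e (nat_lit 548889) (nat_lit 9) (.e (nat_lit 65586) (nat_lit 7) (.e (nat_lit 319518) (nat_lit 12) (.e (nat_lit 32789) (nat_lit 11) (.e (nat_lit 81943) (nat_lit 20) .nil)))))) (.g (nat_lit 6) .nil .nil))) 
(.lf (nat_lit 79340) (.g (nat_lit 2488) (.e (nat_lit 1840) (nat_lit 123) (.e (nat_lit 548889) (nat_lit 9) (.e (nat_lit 65617) (nat_lit 10) (.e (nat_lit 344130) (nat_lit 26) (.e (nat_lit 557070) (nat_lit 9) (.e (nat_lit 7936) (nat_lit 23) (.e (nat_lit 352297) (nat_lit 20) .nil))))))) (.g (nat_lit 5) .nil .nil)))) (.nd (nat_lit 5) 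
(.lf (nat_lit 79324) (.g (nat_lit 2626) (.e (nat_lit 1840) (nat_lit 123) (.e (nat_lit 548889) (nat_lit 9) (.e (nat_lit 65611) (nat_lit 10) (.e (nat_lit 344126) (nat_lit 25) (.e (nat_lit 548891) (nat_lit 11) (.e (nat_lit 81942) (nat_lit 20) .nil)))))) (.g (nat_lit 5) .nil .nil))) 
(.lf (nat_lit 79356) (.g (nat_lit 3796) (.e (nat_lit 1840) (nat_lit 123) (.e (nat_lit 548889) (nat_lit 9) (.e (nat_lit 65619) (nat_lit 10) (.e (nat_lit 344117) (nat_lit 21) (.e (nat_lit 516185) (nat_lit 16) (.e (nat_lit 491552) (nat_lit 9) (.e (nat_lit 335924) (nat_lit 0) .nil))))))) (.g (nat_lit 6) .nil .nil))))))) (.nd (nat_lit 2) (.nd (nat_lit 3) (.nd (nat_lit 4) (.nd (nat_lit 5) 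
(.lf (nat_lit 79298) (.g (nat_lit 1637) (.e (nat_lit 1840) (nat_lit 123) (.e (nat_lit 548889) (nat_lit 9) (.e (nat_lit 65584) (nat_lit 7) (.e (nat_lit 319519) (nat_lit 12) (.e (nat_lit 32789) (nat_lit 11) (.e (nat_lit 81939) (nat_lit 20) .nil)))))) (.g (nat_lit 4) .nil .nil))) 
(.lf (nat_lit 79330) (.g (nat_lit 933) (.e (nat_lit 1840) (nat_lit 123) (.e (nat_lit 548889) (nat_lit 9) (.e (nat_lit 65617) (nat_lit 10) (.e (nat_lit 344126) (nat_lit 25) .nil)))) .nil))) (.nd (nat_lit 5) 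
(.lf (nat_lit 79314) (.g (nat_lit 2940) (.e (nat_lit 1840) (nat_lit 123) (.e (nat_lit 548889) (nat_lit 9) (.e (nat_lit 65610) (nat_lit 10) (.e (nat_lit 344117) (nat_lit 21) (.e (nat_lit 516099) (nat_lit 0) .nil))))) .nil)) 
(.lf (nat_lit 79346) (.g (nat_lit 2472) (.e (nat_lit 1840) (nat_lit 123) (.e (nat_lit 548889) (nat_lit 9) (.e (nat_lit 65617) (nat_lit 10) (.e (nat_lit 344132) (nat_lit 26) (.e (nat_lit 557072) (nat_lit 9) (.e (nat_lit 7936) (nat_lit 23) (.e (nat_lit 352296) (nat_lit 20) .nil))))))) (.g (nat_lit 5) .nil .nil))))) (.nd (nat_lit 4) (.nd (nat_lit 5) 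
(.lf (nat_lit 79306) (.g (nat_lit 1475) (.e (nat_lit 1840) (nat_lit 123) (.e (nat_lit 548889) (nat_lit 9) (.e (nat_lit 65586) (nat_lit 7) (.e (nat_lit 319517) (nat_lit 12) (.e (nat_lit 32789) (nat_lit 11) (.e (nat_lit 81943) (nat_lit 20) .nil)))))) (.g (nat_lit 5) .nil .nil))) 
(.lf (nat_lit 79338) (.g (nat_lit 2606) (.e (nat_lit 1840) (nat_lit 123) (.e (nat_lit 548889) (nat_lit 9) (.e (nat_lit 65617) (nat_lit 10) (.e (nat_lit 344130) (nat_lit 26) (.e (nat_lit 557067) (nat_lit 9) (.e (nat_lit 7936) (nat_lit 23) (.e (nat_lit 352296) (nat_lit 20) .nil))))))) (.g (nat_lit 5) .nil .nil)))) (.nd (nat_lit 5) 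
(.lf (nat_lit 79322) (.g (nat_lit 1429) (.e (nat_lit 1840) (nat_lit 123) (.e (nat_lit 548889) (nat_lit 9) (.e (nat_lit 65611) (nat_lit 10) (.e (nat_lit 344126) (nat_lit 25) (.e (nat_lit 548891) (nat_lit 11) .nil))))) .nil)) 
(.lf (nat_lit 79354) (.g (nat_lit 3976) (.e (nat_lit 1840) (nat_lit 123) (.e (nat_lit 548889) (nat_lit 9) (.e (nat_lit 65619) (nat_lit 10) (.e (nat_lit 344117) (nat_lit 21) (.e (nat_lit 516185) (nat_lit 16) (.e (nat_lit 491551) (nat_lit 9) (.e (nat_lit 335928) (nat_lit 0) .nil))))))) (.g (nat_lit 5) .nil .nil)))))) (.nd (nat_lit 3) (.nd (nat_lit 4) (.nd (nat_lit 5) 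
(.lf (nat_lit 79302) (.g (nat_lit 1691) (.e (nat_lit 1840) (nat_lit 123) (.e (nat_lit 548889) (nat_lit 9) (.e (nat_lit 65585) (nat_lit 7) (.e (nat_lit 319519) (nat_lit 12) (.e (nat_lit 32789) (nat_lit 11) (.e (nat_lit 81943) (nat_lit 20) .nil)))))) (.g (nat_lit 5) .nil .nil))) 
(.lf (nat_lit 79334) (.g (nat_lit 1753) (.e (nat_lit 1840) (nat_lit 123) (.e (nat_lit 548889) (nat_lit 9) (.e (nat_lit 65617) (nat_lit 10) (.e (nat_lit 344127) (nat_lit 26) (.e (nat_lit 557080) (nat_lit 9) (.e (nat_lit 316) (nat_lit 23) (.e (nat_lit 352297) (nat_lit 20) .nil))))))) (.g (nat_lit 5) .nil .nil)))) (.nd (nat_lit 5) 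
(.lf (nat_lit 79318) (.g (nat_lit 2525) (.e (nat_lit 1840) (nat_lit 123) (.e (nat_lit 548889) (nat_lit 9) (.e (nat_lit 65610) (nat_lit 10) (.e (nat_lit 344129) (nat_lit 26) (.e (nat_lit 557067) (nat_lit 9) (.e (nat_lit 7936) (nat_lit 23) (.e (nat_lit 352296) (nat_lit 20) .nil))))))) (.g (nat_lit 5) .nil .nil))) 
(.lf (nat_lit 79350) (.g (nat_lit 3367) (.e (nat_lit 1840) (nat_lit 123) (.e (nat_lit 548889) (nat_lit 9) (.e (nat_lit 65617) (nat_lit 10) (.e (nat_lit 344133) (nat_lit 26) (.e (nat_lit 557066) (nat_lit 9) (.e (nat_lit 314) (nat_lit 23) (.e (nat_lit 352297) (nat_lit 20) .nil))))))) (.g (nat_lit 6) .nil .nil))))) (.nd (nat_lit 4) (.nd (nat_lit 5) 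
(.lf (nat_lit 79310) (.g (nat_lit 1270) (.e (nat_lit 1840) (nat_lit 123) (.e (nat_lit 548889) (nat_lit 9) (.e (nat_lit 65586) (nat_lit 7) (.e (nat_lit 319519) (nat_lit 12) (.e (nat_lit 32774) (nat_lit 5) (.e (nat_lit 1572) (nat_lit 110) (.e (nat_lit 352295) (nat_lit 20) .nil))))))) (.g (nat_lit 4) .nil .nil))) 
(.lf (nat_lit 79342) (.g (nat_lit 3682) (.e (nat_lit 1840) (nat_lit 123) (.e (nat_lit 548889) (nat_lit 9) (.e (nat_lit 65617) (nat_lit 10) (.e (nat_lit 344130) (nat_lit 26) (.e (nat_lit 557087) (nat_lit 11) (.e (nat_lit 24631) (nat_lit 9) (.e (nat_lit 335928) (nat_lit 0) .nil))))))) (.g (nat_lit 0) .nil .nil)))) (.nd (nat_lit 5) 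
(.lf (nat_lit 79326) (.g (nat_lit 443) (.e (nat_lit 1840) (nat_lit 123) (.e (nat_lit 548889) (nat_lit 9) (.e (nat_lit 65616) (nat_lit 10) .nil))) .nil)) 
(.lf (nat_lit 79358) (.g (nat_lit 2917) (.e (nat_lit 1840) (nat_lit 123) (.e (nat_lit 548889) (nat_lit 9) (.e (nat_lit 65619) (nat_lit 10) (.e (nat_lit 344126) (nat_lit 25) (.e (nat_lit 548891) (nat_lit 11) (.e (nat_lit 81942) (nat_lit 20) .nil)))))) (.g (nat_lit 5) .nil .nil)))))))) (.nd (nat_lit 1) (.nd (nat_lit 2) (.nd (nat_lit 3) (.nd (nat_lit 4) (.nd (nat_lit 5) 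
(.lf (nat_lit 79297) (.g (nat_lit 1371) (.e (nat_lit 1840) (nat_lit 123) (.e (nat_lit 548889) (nat_lit 9) (.e (nat_lit 65583) (nat_lit 7) (.e (nat_lit 319519) (nat_lit 12) (.e (nat_lit 40704) (nat_lit 11) .nil))))) .nil)) 
(.lf (nat_lit 79329) (.g (nat_lit 2657) (.e (nat_lit 1840) (nat_lit 123) (.e (nat_lit 548889) (nat_lit 9) (.e (nat_lit 65616) (nat_lit 10) (.e (nat_lit 344126) (nat_lit 25) (.e (nat_lit 548891) (nat_lit 11) (.e (nat_lit 81943) (nat_lit 20) .nil)))))) (.g (nat_lit 5) .nil .nil)))) (.nd (nat_lit 5) 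
(.lf (nat_lit 79313) (.g (nat_lit 1879) (.e (nat_lit 1840) (nat_lit 123) (.e (nat_lit 548889) (nat_lit 9) (.e (nat_lit 65604) (nat_lit 9) (.e (nat_lit 336028) (nat_lit 3) (.e (nat_lit 98325) (nat_lit 17) .nil))))) .nil)) 
(.lf (nat_lit 79345) (.g (nat_lit 2141) (.e (nat_lit 1840) (nat_lit 123) (.e (nat_lit 548889) (nat_lit 9) (.e (nat_lit 65617) (nat_lit 10) (.e (nat_lit 344132) (nat_lit 26) (.e (nat_lit 557072) (nat_lit 9) (.e (nat_lit 7936) (nat_lit 23) (.e (nat_lit 352280) (nat_lit 20) .nil))))))) (.g (nat_lit 4) .nil .nil))))) (.nd (nat_lit 4) (.nd (nat_lit 5) 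
(.lf (nat_lit 79305) (.g (nat_lit 937) (.e (nat_lit 1840) (nat_lit 123) (.e (nat_lit 548889) (nat_lit 9) (.e (nat_lit 65586) (nat_lit 7) (.e (nat_lit 319517) (nat_lit 12) .nil)))) .nil)) 
(.lf (nat_lit 79337) (.g (nat_lit 2441) (.e (nat_lit 1840) (nat_lit 123) (.e (nat_lit 548889) (nat_lit 9) (.e (nat_lit 65617) (nat_lit 10) (.e (nat_lit 344130) (nat_lit 26) (.e (nat_lit 557067) (nat_lit 9) (.e (nat_lit 7936) (nat_lit 23) (.e (nat_lit 352291) (nat_lit 20) .nil))))))) (.g (nat_lit 5) .nil .nil)))) (.nd (nat_lit 5) 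
(.lf (nat_lit 79321) (.g (nat_lit 3449) (.e (nat_lit 1840) (nat_lit 123) (.e (nat_lit 548889) (nat_lit 9) (.e (nat_lit 65610) (nat_lit 10) (.e (nat_lit 344129) (nat_lit 26) (.e (nat_lit 557087) (nat_lit 11) (.e (nat_lit 24631) (nat_lit 9) (.e (nat_lit 335928) (nat_lit 0) .nil))))))) (.g (nat_lit 0) .nil .nil))) 
(.lf (nat_lit 79353) (.g (nat_lit 2540) (.e (nat_lit 1840) (nat_lit 123) (.e (nat_lit 548889) (nat_lit 9) (.e (nat_lit 65619) (nat_lit 10) (.e (nat_lit 344117) (nat_lit 21) (.e (nat_lit 516106) (nat_lit 0) (.e (nat_lit 6986) (nat_lit 377) (.e (nat_lit 2782) (nat_lit 178) (.e (nat_lit 286725) (nat_lit 0) .nil)))))))) (.g (nat_lit 4) .nil .nil)))))) 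
(.nd (nat_lit 3) (.nd (nat_lit 4) (.nd (nat_lit 5) 
(.lf (nat_lit 79301) (.g (nat_lit 1325) (.e (nat_lit 1840) (nat_lit 123) (.e (nat_lit 548889) (nat_lit 9) (.e (nat_lit 65585) (nat_lit 7) (.e (nat_lit 319519) (nat_lit 12) (.e (nat_lit 32789) (nat_lit 11) (.e (nat_lit 81939) (nat_lit 20) .nil)))))) (.g (nat_lit 4) .nil .nil))) 
(.lf (nat_lit 79333) (.g (nat_lit 3087) (.e (nat_lit 1840) (nat_lit 123) (.e (nat_lit 548889) (nat_lit 9) (.e (nat_lit 65617) (nat_lit 10) (.e (nat_lit 344126) (nat_lit 25) (.e (nat_lit 548891) (nat_lit 11) (.e (nat_lit 81943) (nat_lit 20) .nil)))))) (.g (nat_lit 0) .nil .nil)))) (.nd (nat_lit 5) 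
(.lf (nat_lit 79317) (.g (nat_lit 2624) (.e (nat_lit 1840) (nat_lit 123) (.e (nat_lit 548889) (nat_lit 9) (.e (nat_lit 65610) (nat_lit 10) (.e (nat_lit 344126) (nat_lit 25) (.e (nat_lit 548891) (nat_lit 11) (.e (nat_lit 81943) (nat_lit 20) .nil)))))) (.g (nat_lit 0) .nil .nil))) 
(.lf (nat_lit 79349) (.g (nat_lit 1850) (.e (nat_lit 1840) (nat_lit 123) (.e (nat_lit 548889) (nat_lit 9) (.e (nat_lit 65617) (nat_lit 10) (.e (nat_lit 344133) (nat_lit 26) (.e (nat_lit 557064) (nat_lit 9) .nil))))) .nil)))) (.nd (nat_lit 4) (.nd (nat_lit 5) 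
(.lf (nat_lit 79309) (.g (nat_lit 865) (.e (nat_lit 1840) (nat_lit 123) (.e (nat_lit 548889) (nat_lit 9) (.e (nat_lit 65586) (nat_lit 7) (.e (nat_lit 319519) (nat_lit 12) .nil)))) .nil)) 
(.lf (nat_lit 79341) (.g (nat_lit 2618) (.e (nat_lit 1840) (nat_lit 123) (.e (nat_lit 548889) (nat_lit 9) (.e (nat_lit 65617) (nat_lit 10) (.e (nat_lit 344130) (nat_lit 26) (.e (nat_lit 557074) (nat_lit 9) (.e (nat_lit 7936) (nat_lit 23) (.e (nat_lit 352296) (nat_lit 20) .nil))))))) (.g (nat_lit 5) .nil .nil)))) (.nd (nat_lit 5) 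
(.lf (nat_lit 79325) (.g (nat_lit 2940) (.e (nat_lit 1840) (nat_lit 123) (.e (nat_lit 548889) (nat_lit 9) (.e (nat_lit 65611) (nat_lit 10) (.e (nat_lit 344126) (nat_lit 25) (.e (nat_lit 548891) (nat_lit 11) (.e (nat_lit 81943) (nat_lit 20) .nil)))))) (.g (nat_lit 6) .nil .nil))) 
(.lf (nat_lit 79357) (.g (nat_lit 2775) (.e (nat_lit 1840) (nat_lit 123) (.e (nat_lit 548889) (nat_lit 9) (.e (nat_lit 65619) (nat_lit 10) (.e (nat_lit 344126) (nat_lit 25) (.e (nat_lit 548891) (nat_lit 11) (.e (nat_lit 81939) (nat_lit 20) .nil)))))) (.g (nat_lit 5) .nil .nil))))))) (.nd (nat_lit 2) (.nd (nat_lit 3) (.nd (nat_lit 4) (.nd (nat_lit 5) 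
(.lf (nat_lit 79299) (.g (nat_lit 2009) (.e (nat_lit 1840) (nat_lit 123) (.e (nat_lit 548889) (nat_lit 9) (.e (nat_lit 65584) (nat_lit 7) (.e (nat_lit 319519) (nat_lit 12) (.e (nat_lit 32789) (nat_lit 11) (.e (nat_lit 81943) (nat_lit 20) .nil)))))) (.g (nat_lit 5) .nil .nil))) 
(.lf (nat_lit 79331) (.g (nat_lit 2742) (.e (nat_lit 1840) (nat_lit 123) (.e (nat_lit 548889) (nat_lit 9) (.e (nat_lit 65617) (nat_lit 10) (.e (nat_lit 344126) (nat_lit 25) (.e (nat_lit 548891) (nat_lit 11) (.e (nat_lit 81939) (nat_lit 20) .nil)))))) (.g (nat_lit 6) .nil .nil)))) (.nd (nat_lit 5) 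
(.lf (nat_lit 79315) (.g (nat_lit 2142) (.e (nat_lit 1840) (nat_lit 123) (.e (nat_lit 548889) (nat_lit 9) (.e (nat_lit 65610) (nat_lit 10) (.e (nat_lit 344126) (nat_lit 25) (.e (nat_lit 548891) (nat_lit 11) (.e (nat_lit 81939) (nat_lit 20) .nil)))))) (.g (nat_lit 6) .nil .nil))) 
(.lf (nat_lit 79347) (.g (nat_lit 1979) (.e (nat_lit 1840) (nat_lit 123) (.e (nat_lit 548889) (nat_lit 9) (.e (nat_lit 65617) (nat_lit 10) (.e (nat_lit 344132) (nat_lit 26) (.e (nat_lit 557073) (nat_lit 9) (.e (nat_lit 7936) (nat_lit 23) (.e (nat_lit 352291) (nat_lit 20) .nil))))))) (.g (nat_lit 4) .nil .nil))))) (.nd (nat_lit 4) (.nd (nat_lit 5) 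
(.lf (nat_lit 79307) (.g (nat_lit 1271) (.e (nat_lit 1840) (nat_lit 123) (.e (nat_lit 548889) (nat_lit 9) (.e (nat_lit 65586) (nat_lit 7) (.e (nat_lit 319518) (nat_lit 12) (.e (nat_lit 32789) (nat_lit 11) (.e (nat_lit 81939) (nat_lit 20) .nil)))))) (.g (nat_lit 4) .nil .nil))) 
(.lf (nat_lit 79339) (.g (nat_lit 1913) (.e (nat_lit 1840) (nat_lit 123) (.e (nat_lit 548889) (nat_lit 9) (.e (nat_lit 65617) (nat_lit 10) (.e (nat_lit 344130) (nat_lit 26) (.e (nat_lit 557070) (nat_lit 9) .nil))))) .nil))) (.nd (nat_lit 5) 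
(.lf (nat_lit 79323) (.g (nat_lit 2474) (.e (nat_lit 1840) (nat_lit 123) (.e (nat_lit 548889) (nat_lit 9) (.e (nat_lit 65611) (nat_lit 10) (.e (nat_lit 344126) (nat_lit 25) (.e (nat_lit 548891) (nat_lit 11) (.e (nat_lit 81939) (nat_lit 20) .nil)))))) (.g (nat_lit 5) .nil .nil))) 
(.lf (nat_lit 79355) (.g (nat_lit 1987) (.e (nat_lit 1840) (nat_lit 123) (.e (nat_lit 548889) (nat_lit 9) (.e (nat_lit 65619) (nat_lit 10) (.e (nat_lit 344117) (nat_lit 21) (.e (nat_lit 516185) (nat_lit 16) (.e (nat_lit 491552) (nat_lit 9) (.e (nat_lit 335886) (nat_lit 0) .nil))))))) (.g (nat_lit 4) .nil .nil)))))) (.nd (nat_lit 3) (.nd (nat_lit 4) (.nd (nat_lit 5) 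
(.lf (nat_lit 79303) (.g (nat_lit 1029) (.e (nat_lit 1840) (nat_lit 123) (.e (nat_lit 548889) (nat_lit 9) (.e (nat_lit 65586) (nat_lit 7) (.e (nat_lit 319498) (nat_lit 10) .nil)))) .nil)) 
(.lf (nat_lit 79335) (.g (nat_lit 1058) (.e (nat_lit 1840) (nat_lit 123) (.e (nat_lit 548889) (nat_lit 9) (.e (nat_lit 65617) (nat_lit 10) (.e (nat_lit 344130) (nat_lit 26) .nil)))) .nil))) (.nd (nat_lit 5) 
(.lf (nat_lit 79319) (.g (nat_lit 2364) (.e (nat_lit 1840) (nat_lit 123) (.e (nat_lit 548889) (nat_lit 9) (.e (nat_lit 65610) (nat_lit 10) (.e (nat_lit 344129) (nat_lit 26) (.e (nat_lit 557070) (nat_lit 9) .nil))))) .nil)) 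
(.lf (nat_lit 79351) (.g (nat_lit 2407) (.e (nat_lit 1840) (nat_lit 123) (.e (nat_lit 548889) (nat_lit 9) (.e (nat_lit 65617) (nat_lit 10) (.e (nat_lit 344133) (nat_lit 26) (.e (nat_lit 557068) (nat_lit 9) (.e (nat_lit 7936) (nat_lit 23) (.e (nat_lit 352280) (nat_lit 20) .nil))))))) (.g (nat_lit 5) .nil .nil))))) (.nd (nat_lit 4) (.nd (nat_lit 5) 
(.lf (nat_lit 79311) (.g (nat_lit 1668) (.e (nat_lit 1840) (nat_lit 123) (.e (nat_lit 548889) (nat_lit 9) (.e (nat_lit 65586) (nat_lit 7) (.e (nat_lit 319519) (nat_lit 12) (.e (nat_lit 32789) (nat_lit 11) (.e (nat_lit 81939) (nat_lit 20) .nil)))))) (.g (nat_lit 5) .nil .nil))) 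
(.lf (nat_lit 79343) (.g (nat_lit 2668) (.e (nat_lit 1840) (nat_lit 123) (.e (nat_lit 548889) (nat_lit 9) (.e (nat_lit 65617) (nat_lit 10) (.e (nat_lit 344132) (nat_lit 26) (.e (nat_lit 557070) (nat_lit 9) (.e (nat_lit 313) (nat_lit 23) (.e (nat_lit 352297) (nat_lit 20) .nil))))))) (.g (nat_lit 5) .nil .nil)))) (.nd (nat_lit 5) 
(.lf (nat_lit 79327) (.g (nat_lit 2280) (.e (nat_lit 1840) (nat_lit 123) (.e (nat_lit 548889) (nat_lit 9) (.e (nat_lit 65616) (nat_lit 10) (.e (nat_lit 344126) (nat_lit 25) (.e (nat_lit 548891) (nat_lit 11) (.e (nat_lit 81939) (nat_lit 20) .nil)))))) (.g (nat_lit 5) .nil .nil))) 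
(.lf (nat_lit 79359) (.g (nat_lit 3202) (.e (nat_lit 1840) (nat_lit 123) (.e (nat_lit 548889) (nat_lit 9) (.e (nat_lit 65619) (nat_lit 10) (.e (nat_lit 344126) (nat_lit 25) (.e (nat_lit 548891) (nat_lit 11) (.e (nat_lit 81943) (nat_lit 20) .nil)))))) (.g (nat_lit 6) .nil .nil)))))))))

noncomputable def tv1073 : DT := (.nd (nat_lit 0) (.nd (nat_lit 1) (.nd (nat_lit 2) (.nd (nat_lit 3) (.nd (nat_lit 4) (.nd (nat_lit 5) 
(.lf (nat_lit 79360) (.g (nat_lit 2911) (.e (nat_lit 1840) (nat_lit 123) (.e (nat_lit 548889) (nat_lit 9) (.e (nat_lit 65619) (nat_lit 10) (.e (nat_lit 344129) (nat_lit 26) (.e (nat_lit 557066) (nat_lit 9) (.e (nat_lit 312) (nat_lit 23) (.e (nat_lit 352295) (nat_lit 20) .nil))))))) (.g (nat_lit 5) .nil .nil))) 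
(.lf (nat_lit 79392) (.g (nat_lit 978) (.e (nat_lit 1840) (nat_lit 123) (.e (nat_lit 548889) (nat_lit 9) (.e (nat_lit 65629) (nat_lit 14) (.e (nat_lit 401412) (nat_lit 0) .nil)))) .nil))) (.nd (nat_lit 5) 
(.lf (nat_lit 79376) (.g (nat_lit 1798) (.e (nat_lit 1840) (nat_lit 123) (.e (nat_lit 548889) (nat_lit 9) (.e (nat_lit 65624) (nat_lit 12) (.e (nat_lit 385073) (nat_lit 31) .nil)))) .nil)) 
(.lf (nat_lit 79408) (.g (nat_lit 2217) (.e (nat_lit 1840) (nat_lit 123) (.e (nat_lit 548891) (nat_lit 11) (.e (nat_lit 81938) (nat_lit 20) (.e (nat_lit 1842) (nat_lit 123) (.e (nat_lit 548891) (nat_lit 11) (.e (nat_lit 81943) (nat_lit 20) .nil)))))) (.g (nat_lit 6) .nil .nil))))) (.nd (nat_lit 4) (.nd (nat_lit 5) 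
(.lf (nat_lit 79368) (.g (nat_lit 2801) (.e (nat_lit 1840) (nat_lit 123) (.e (nat_lit 548889) (nat_lit 9) (.e (nat_lit 65620) (nat_lit 10) (.e (nat_lit 344126) (nat_lit 25) (.e (nat_lit 548891) (nat_lit 11) (.e (nat_lit 81943) (nat_lit 20) .nil)))))) (.g (nat_lit 5) .nil .nil))) 
(.lf (nat_lit 79400) (.g (nat_lit 3389) (.e (nat_lit 1840) (nat_lit 123) (.e (nat_lit 548889) (nat_lit 9) (.e (nat_lit 65630) (nat_lit 14) (.e (nat_lit 401425) (nat_lit 2) (.e (nat_lit 196672) (nat_lit 15) (.e (nat_lit 81943) (nat_lit 20) .nil)))))) (.g (nat_lit 0) .nil .nil)))) (.nd (nat_lit 5) 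
(.lf (nat_lit 79384) (.g (nat_lit 3948) (.e (nat_lit 1840) (nat_lit 123) (.e (nat_lit 548889) (nat_lit 9) (.e (nat_lit 65624) (nat_lit 12) (.e (nat_lit 385074) (nat_lit 31) (.e (nat_lit 573493) (nat_lit 15) (.e (nat_lit 81947) (nat_lit 20) .nil)))))) (.g (nat_lit 5) .nil .nil))) 
(.lf (nat_lit 79416) (.g (nat_lit 2029) (.e (nat_lit 1840) (nat_lit 123) (.e (nat_lit 548891) (nat_lit 11) (.e (nat_lit 81942) (nat_lit 20) (.e (nat_lit 1842) (nat_lit 123) (.e (nat_lit 548891) (nat_lit 11) (.e (nat_lit 81943) (nat_lit 20) .nil)))))) (.g (nat_lit 6) .nil .nil)))))) (.nd (nat_lit 3) (.nd (nat_lit 4) (.nd (nat_lit 5) 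
(.lf (nat_lit 79364) (.g (nat_lit 2409) (.e (nat_lit 1840) (nat_lit 123) (.e (nat_lit 548889) (nat_lit 9) (.e (nat_lit 65619) (nat_lit 10) (.e (nat_lit 344129) (nat_lit 26) (.e (nat_lit 557074) (nat_lit 9) (.e (nat_lit 7936) (nat_lit 23) (.e (nat_lit 352296) (nat_lit 20) .nil))))))) (.g (nat_lit 4) .nil .nil))) 
(.lf (nat_lit 79396) (.g (nat_lit 1875) (.e (nat_lit 1840) (nat_lit 123) (.e (nat_lit 548889) (nat_lit 9) (.e (nat_lit 65630) (nat_lit 14) (.e (nat_lit 401412) (nat_lit 0) .nil)))) .nil))) (.nd (nat_lit 5) 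
(.lf (nat_lit 79380) (.g (nat_lit 3275) (.e (nat_lit 1840) (nat_lit 123) (.e (nat_lit 548889) (nat_lit 9) (.e (nat_lit 65624) (nat_lit 12) (.e (nat_lit 385074) (nat_lit 31) (.e (nat_lit 573491) (nat_lit 15) (.e (nat_lit 81943) (nat_lit 20) .nil)))))) (.g (nat_lit 0) .nil .nil))) 
(.lf (nat_lit 79412) (.g (nat_lit 514) (.e (nat_lit 1840) (nat_lit 123) (.e (nat_lit 548891) (nat_lit 11) (.e (nat_lit 81942) (nat_lit 20) .nil))) .nil)))) (.nd (nat_lit 4) (.nd (nat_lit 5) 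
(.lf (nat_lit 79372) (.g (nat_lit 4143) (.e (nat_lit 1840) (nat_lit 123) (.e (nat_lit 548889) (nat_lit 9) (.e (nat_lit 65624) (nat_lit 12) (.e (nat_lit 385072) (nat_lit 31) (.e (nat_lit 573492) (nat_lit 15) (.e (nat_lit 81938) (nat_lit 20) .nil)))))) (.g (nat_lit 4) .nil .nil))) 
(.lf (nat_lit 79404) (.g (nat_lit 2544) (.e (nat_lit 1840) (nat_lit 123) (.e (nat_lit 548891) (nat_lit 11) (.e (nat_lit 81922) (nat_lit 0) (.e (nat_lit 3305) (nat_lit 202) (.e (nat_lit 573491) (nat_lit 15) (.e (nat_lit 81943) (nat_lit 20) .nil)))))) (.g (nat_lit 0) .nil .nil)))) (.nd (nat_lit 5) 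
(.lf (nat_lit 79388) (.g (nat_lit 1481) (.e (nat_lit 1840) (nat_lit 123) (.e (nat_lit 548889) (nat_lit 9) (.e (nat_lit 65628) (nat_lit 14) (.e (nat_lit 401428) (nat_lit 3) .nil)))) .nil)) 
(.lf (nat_lit 79420) (.g (nat_lit 2124) (.e (nat_lit 1840) (nat_lit 123) (.e (nat_lit 548891) (nat_lit 11) (.e (nat_lit 81943) (nat_lit 20) (.e (nat_lit 1841) (nat_lit 123) (.e (nat_lit 548891) (nat_lit 11) (.e (nat_lit 81943) (nat_lit 20) .nil)))))) (.g (nat_lit 0) .nil .nil))))))) (.nd (nat_lit 2) (.nd (nat_lit 3) (.nd (nat_lit 4) (.nd (nat_lit 5) 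
(.lf (nat_lit 79362) (.g (nat_lit 4167) (.e (nat_lit 1840) (nat_lit 123) (.e (nat_lit 548889) (nat_lit 9) (.e (nat_lit 65619) (nat_lit 10) (.e (nat_lit 344129) (nat_lit 26) (.e (nat_lit 557066) (nat_lit 9) (.e (nat_lit 314) (nat_lit 23) (.e (nat_lit 352297) (nat_lit 20) .nil))))))) (.g (nat_lit 6) .nil .nil))) 
(.lf (nat_lit 79394) (.g (nat_lit 3535) (.e (nat_lit 1840) (nat_lit 123) (.e (nat_lit 548889) (nat_lit 9) (.e (nat_lit 65629) (nat_lit 14) (.e (nat_lit 401424) (nat_lit 2) (.e (nat_lit 196672) (nat_lit 15) (.e (nat_lit 81943) (nat_lit 20) .nil)))))) (.g (nat_lit 0) .nil .nil)))) (.nd (nat_lit 5) 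
(.lf (nat_lit 79378) (.g (nat_lit 4141) (.e (nat_lit 1840) (nat_lit 123) (.e (nat_lit 548889) (nat_lit 9) (.e (nat_lit 65624) (nat_lit 12) (.e (nat_lit 385073) (nat_lit 31) (.e (nat_lit 573493) (nat_lit 15) (.e (nat_lit 81939) (nat_lit 20) .nil)))))) (.g (nat_lit 4) .nil .nil))) 
(.lf (nat_lit 79410) (.g (nat_lit 1598) (.e (nat_lit 1840) (nat_lit 123) (.e (nat_lit 548891) (nat_lit 11) (.e (nat_lit 81939) (nat_lit 20) (.e (nat_lit 1841) (nat_lit 123) (.e (nat_lit 548891) (nat_lit 11) (.e (nat_lit 81943) (nat_lit 20) .nil)))))) (.g (nat_lit 6) .nil .nil))))) (.nd (nat_lit 4) (.nd (nat_lit 5) 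
(.lf (nat_lit 79370) (.g (nat_lit 3800) (.e (nat_lit 1840) (nat_lit 123) (.e (nat_lit 548889) (nat_lit 9) (.e (nat_lit 65623) (nat_lit 12) (.e (nat_lit 385074) (nat_lit 31) (.e (nat_lit 573491) (nat_lit 15) (.e (nat_lit 81943) (nat_lit 20) .nil)))))) (.g (nat_lit 5) .nil .nil))) 
(.lf (nat_lit 79402) (.g (nat_lit 1594) (.e (nat_lit 1840) (nat_lit 123) (.e (nat_lit 548889) (nat_lit 9) (.e (nat_lit 65630) (nat_lit 14) (.e (nat_lit 401428) (nat_lit 3) .nil)))) .nil))) (.nd (nat_lit 5) 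
(.lf (nat_lit 79386) (.g (nat_lit 3188) (.e (nat_lit 1840) (nat_lit 123) (.e (nat_lit 548889) (nat_lit 9) (.e (nat_lit 65628) (nat_lit 14) (.e (nat_lit 401424) (nat_lit 2) (.e (nat_lit 196672) (nat_lit 15) (.e (nat_lit 81943) (nat_lit 20) .nil)))))) (.g (nat_lit 5) .nil .nil))) 
(.lf (nat_lit 79418) (.g (nat_lit 1716) (.e (nat_lit 1840) (nat_lit 123) (.e (nat_lit 548891) (nat_lit 11) (.e (nat_lit 81943) (nat_lit 20) (.e (nat_lit 1841) (nat_lit 123) (.e (nat_lit 548891) (nat_lit 11) (.e (nat_lit 81939) (nat_lit 20) .nil)))))) (.g (nat_lit 5) .nil .nil)))))) (.nd (nat_lit 3) (.nd (nat_lit 4) (.nd (nat_lit 5) 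
(.lf (nat_lit 79366) (.g (nat_lit 2394) (.e (nat_lit 1840) (nat_lit 123) (.e (nat_lit 548889) (nat_lit 9) (.e (nat_lit 65620) (nat_lit 10) (.e (nat_lit 344126) (nat_lit 25) (.e (nat_lit 548891) (nat_lit 11) (.e (nat_lit 81939) (nat_lit 20) .nil)))))) (.g (nat_lit 5) .nil .nil))) 
(.lf (nat_lit 79398) (.g (nat_lit 2946) (.e (nat_lit 1840) (nat_lit 123) (.e (nat_lit 548889) (nat_lit 9) (.e (nat_lit 65630) (nat_lit 14) (.e (nat_lit 401423) (nat_lit 2) (.e (nat_lit 196672) (nat_lit 15) (.e (nat_lit 81943) (nat_lit 20) .nil)))))) (.g (nat_lit 4) .nil .nil)))) (.nd (nat_lit 5) 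
(.lf (nat_lit 79382) (.g (nat_lit 4959) (.e (nat_lit 1840) (nat_lit 123) (.e (nat_lit 548889) (nat_lit 9) (.e (nat_lit 65624) (nat_lit 12) (.e (nat_lit 385074) (nat_lit 31) (.e (nat_lit 573493) (nat_lit 15) (.e (nat_lit 81938) (nat_lit 20) .nil)))))) (.g (nat_lit 6) .nil .nil))) 
(.lf (nat_lit 79414) (.g (nat_lit 1736) (.e (nat_lit 1840) (nat_lit 123) (.e (nat_lit 548891) (nat_lit 11) (.e (nat_lit 81942) (nat_lit 20) (.e (nat_lit 1841) (nat_lit 123) (.e (nat_lit 548891) (nat_lit 11) (.e (nat_lit 81943) (nat_lit 20) .nil)))))) (.g (nat_lit 5) .nil .nil))))) (.nd (nat_lit 4) (.nd (nat_lit 5) 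
(.lf (nat_lit 79374) (.g (nat_lit 5029) (.e (nat_lit 1840) (nat_lit 123) (.e (nat_lit 548889) (nat_lit 9) (.e (nat_lit 65624) (nat_lit 12) (.e (nat_lit 385072) (nat_lit 31) (.e (nat_lit 573493) (nat_lit 15) (.e (nat_lit 81938) (nat_lit 20) .nil)))))) (.g (nat_lit 5) .nil .nil))) 
(.lf (nat_lit 79406) (.g (nat_lit 1355) (.e (nat_lit 1840) (nat_lit 123) (.e (nat_lit 548891) (nat_lit 11) (.e (nat_lit 81938) (nat_lit 20) (.e (nat_lit 1841) (nat_lit 123) (.e (nat_lit 548891) (nat_lit 11) (.e (nat_lit 81942) (nat_lit 20) .nil)))))) (.g (nat_lit 4) .nil .nil)))) (.nd (nat_lit 5) 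
(.lf (nat_lit 79390) (.g (nat_lit 2092) (.e (nat_lit 1840) (nat_lit 123) (.e (nat_lit 548889) (nat_lit 9) (.e (nat_lit 65628) (nat_lit 14) (.e (nat_lit 401428) (nat_lit 3) (.e (nat_lit 204866) (nat_lit 28) .nil))))) .nil)) 
(.lf (nat_lit 79422) (.g (nat_lit 2014) (.e (nat_lit 1840) (nat_lit 123) (.e (nat_lit 548891) (nat_lit 11) (.e (nat_lit 81943) (nat_lit 20) (.e (nat_lit 1842) (nat_lit 123) (.e (nat_lit 548891) (nat_lit 11) (.e (nat_lit 81942) (nat_lit 20) .nil)))))) (.g (nat_lit 5) .nil .nil)))))))) (.nd (nat_lit 1) (.nd (nat_lit 2) (.nd (nat_lit 3) (.nd (nat_lit 4) (.nd (nat_lit 5) 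
(.lf (nat_lit 79361) (.g (nat_lit 2389) (.e (nat_lit 1840) (nat_lit 123) (.e (nat_lit 548889) (nat_lit 9) (.e (nat_lit 65619) (nat_lit 10) (.e (nat_lit 344129) (nat_lit 26) (.e (nat_lit 557066) (nat_lit 9) (.e (nat_lit 314) (nat_lit 23) (.e (nat_lit 352290) (nat_lit 20) .nil))))))) (.g (nat_lit 4) .nil .nil))) 
(.lf (nat_lit 79393) (.g (nat_lit 3248) (.e (nat_lit 1840) (nat_lit 123) (.e (nat_lit 548889) (nat_lit 9) (.e (nat_lit 65629) (nat_lit 14) (.e (nat_lit 401423) (nat_lit 2) (.e (nat_lit 196672) (nat_lit 15) (.e (nat_lit 81943) (nat_lit 20) .nil)))))) (.g (nat_lit 6) .nil .nil)))) (.nd (nat_lit 5) 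
(.lf (nat_lit 79377) (.g (nat_lit 4486) (.e (nat_lit 1840) (nat_lit 123) (.e (nat_lit 548889) (nat_lit 9) (.e (nat_lit 65624) (nat_lit 12) (.e (nat_lit 385073) (nat_lit 31) (.e (nat_lit 573493) (nat_lit 15) (.e (nat_lit 81938) (nat_lit 20) .nil)))))) (.g (nat_lit 5) .nil .nil))) 
(.lf (nat_lit 79409) (.g (nat_lit 511) (.e (nat_lit 1840) (nat_lit 123) (.e (nat_lit 548891) (nat_lit 11) (.e (nat_lit 81939) (nat_lit 20) .nil))) .nil)))) (.nd (nat_lit 4) (.nd (nat_lit 5) 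
(.lf (nat_lit 79369) (.g (nat_lit 3095) (.e (nat_lit 1840) (nat_lit 123) (.e (nat_lit 548889) (nat_lit 9) (.e (nat_lit 65622) (nat_lit 12) (.e (nat_lit 385074) (nat_lit 31) (.e (nat_lit 573491) (nat_lit 15) (.e (nat_lit 81943) (nat_lit 20) .nil)))))) (.g (nat_lit 0) .nil .nil))) 
(.lf (nat_lit 79401) (.g (nat_lit 2049) (.e (nat_lit 1840) (nat_lit 123) (.e (nat_lit 548889) (nat_lit 9) (.e (nat_lit 65630) (nat_lit 14) (.e (nat_lit 401427) (nat_lit 3) .nil)))) .nil))) (.nd (nat_lit 5) 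
(.lf (nat_lit 79385) (.g (nat_lit 2594) (.e (nat_lit 1840) (nat_lit 123) (.e (nat_lit 548889) (nat_lit 9) (.e (nat_lit 65628) (nat_lit 14) (.e (nat_lit 401423) (nat_lit 2) (.e (nat_lit 196672) (nat_lit 15) .nil))))) .nil)) 
(.lf (nat_lit 79417) (.g (nat_lit 2370) (.e (nat_lit 1840) (nat_lit 123) (.e (nat_lit 548891) (nat_lit 11) (.e (nat_lit 81943) (nat_lit 20) (.e (nat_lit 1840) (nat_lit 123) (.e (nat_lit 548891) (nat_lit 11) (.e (nat_lit 81943) (nat_lit 20) .nil)))))) (.g (nat_lit 6) .nil .nil)))))) (.nd (nat_lit 3) (.nd (nat_lit 4) (.nd (nat_lit 5) 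
(.lf (nat_lit 79365) (.g (nat_lit 3341) (.e (nat_lit 1840) (nat_lit 123) (.e (nat_lit 548889) (nat_lit 9) (.e (nat_lit 65619) (nat_lit 10) (.e (nat_lit 344129) (nat_lit 26) (.e (nat_lit 557087) (nat_lit 11) (.e (nat_lit 24631) (nat_lit 9) (.e (nat_lit 335928) (nat_lit 0) .nil))))))) (.g (nat_lit 6) .nil .nil))) 
(.lf (nat_lit 79397) (.g (nat_lit 2538) (.e (nat_lit 1840) (nat_lit 123) (.e (nat_lit 548889) (nat_lit 9) (.e (nat_lit 65630) (nat_lit 14) (.e (nat_lit 401412) (nat_lit 0) (.e (nat_lit 3262) (nat_lit 198) .nil))))) .nil))) (.nd (nat_lit 5) 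
(.lf (nat_lit 79381) (.g (nat_lit 2794) (.e (nat_lit 1840) (nat_lit 123) (.e (nat_lit 548889) (nat_lit 9) (.e (nat_lit 65624) (nat_lit 12) (.e (nat_lit 385074) (nat_lit 31) (.e (nat_lit 573491) (nat_lit 15) (.e (nat_lit 81947) (nat_lit 20) .nil)))))) (.g (nat_lit 4) .nil .nil))) 
(.lf (nat_lit 79413) (.g (nat_lit 944) (.e (nat_lit 1840) (nat_lit 123) (.e (nat_lit 548891) (nat_lit 11) (.e (nat_lit 81942) (nat_lit 20) (.e (nat_lit 1841) (nat_lit 123) (.e (nat_lit 548891) (nat_lit 11) .nil))))) .nil)))) (.nd (nat_lit 4) (.nd (nat_lit 5) 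
(.lf (nat_lit 79373) (.g (nat_lit 4222) (.e (nat_lit 1840) (nat_lit 123) (.e (nat_lit 548889) (nat_lit 9) (.e (nat_lit 65624) (nat_lit 12) (.e (nat_lit 385072) (nat_lit 31) (.e (nat_lit 573492) (nat_lit 15) (.e (nat_lit 81939) (nat_lit 20) .nil)))))) (.g (nat_lit 4) .nil .nil))) 
(.lf (nat_lit 79405) (.g (nat_lit 1308) (.e (nat_lit 1840) (nat_lit 123) (.e (nat_lit 548891) (nat_lit 11) (.e (nat_lit 81938) (nat_lit 20) (.e (nat_lit 1841) (nat_lit 123) (.e (nat_lit 548891) (nat_lit 11) (.e (nat_lit 81939) (nat_lit 20) .nil)))))) (.g (nat_lit 4) .nil .nil)))) (.nd (nat_lit 5) 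
(.lf (nat_lit 79389) (.g (nat_lit 2190) (.e (nat_lit 1840) (nat_lit 123) (.e (nat_lit 548889) (nat_lit 9) (.e (nat_lit 65628) (nat_lit 14) (.e (nat_lit 401428) (nat_lit 3) (.e (nat_lit 204865) (nat_lit 28) .nil))))) .nil)) 
(.lf (nat_lit 79421) (.g (nat_lit 2019) (.e (nat_lit 1840) (nat_lit 123) (.e (nat_lit 548891) (nat_lit 11) (.e (nat_lit 81943) (nat_lit 20) (.e (nat_lit 1842) (nat_lit 123) (.e (nat_lit 548891) (nat_lit 11) (.e (nat_lit 81939) (nat_lit 20) .nil)))))) (.g (nat_lit 5) .nil .nil))))))) (.nd (nat_lit 2) (.nd (nat_lit 3) (.nd (nat_lit 4) (.nd (nat_lit 5) 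
(.lf (nat_lit 79363) (.g (nat_lit 2292) (.e (nat_lit 1840) (nat_lit 123) (.e (nat_lit 548889) (nat_lit 9) (.e (nat_lit 65619) (nat_lit 10) (.e (nat_lit 344129) (nat_lit 26) (.e (nat_lit 557074) (nat_lit 9) (.e (nat_lit 7936) (nat_lit 23) (.e (nat_lit 352280) (nat_lit 20) .nil))))))) (.g (nat_lit 4) .nil .nil))) 
(.lf (nat_lit 79395) (.g (nat_lit 4098) (.e (nat_lit 1840) (nat_lit 123) (.e (nat_lit 548889) (nat_lit 9) (.e (nat_lit 65629) (nat_lit 14) (.e (nat_lit 401425) (nat_lit 2) (.e (nat_lit 196672) (nat_lit 15) (.e (nat_lit 81943) (nat_lit 20) .nil)))))) (.g (nat_lit 6) .nil .nil)))) (.nd (nat_lit 5) 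
(.lf (nat_lit 79379) (.g (nat_lit 3316) (.e (nat_lit 1840) (nat_lit 123) (.e (nat_lit 548889) (nat_lit 9) (.e (nat_lit 65624) (nat_lit 12) (.e (nat_lit 385074) (nat_lit 31) (.e (nat_lit 573491) (nat_lit 15) (.e (nat_lit 81942) (nat_lit 20) .nil)))))) (.g (nat_lit 4) .nil .nil))) 
(.lf (nat_lit 79411) (.g (nat_lit 1987) (.e (nat_lit 1840) (nat_lit 123) (.e (nat_lit 548891) (nat_lit 11) (.e (nat_lit 81939) (nat_lit 20) (.e (nat_lit 1842) (nat_lit 123) (.e (nat_lit 548891) (nat_lit 11) (.e (nat_lit 81943) (nat_lit 20) .nil)))))) (.g (nat_lit 6) .nil .nil))))) (.nd (nat_lit 4) (.nd (nat_lit 5) 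
(.lf (nat_lit 79371) (.g (nat_lit 1881) (.e (nat_lit 1840) (nat_lit 123) (.e (nat_lit 548889) (nat_lit 9) (.e (nat_lit 65624) (nat_lit 12) (.e (nat_lit 385072) (nat_lit 31) .nil)))) .nil)) 
(.lf (nat_lit 79403) (.g (nat_lit 2605) (.e (nat_lit 1840) (nat_lit 123) (.e (nat_lit 548889) (nat_lit 9) (.e (nat_lit 65630) (nat_lit 14) (.e (nat_lit 401428) (nat_lit 3) (.e (nat_lit 204865) (nat_lit 28) .nil))))) .nil))) (.nd (nat_lit 5) 
(.lf (nat_lit 79387) (.g (nat_lit 3392) (.e (nat_lit 1840) (nat_lit 123) (.e (nat_lit 548889) (nat_lit 9) (.e (nat_lit 65628) (nat_lit 14) (.e (nat_lit 401425) (nat_lit 2) (.e (nat_lit 196672) (nat_lit 15) (.e (nat_lit 81943) (nat_lit 20) .nil)))))) (.g (nat_lit 0) .nil .nil))) 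
(.lf (nat_lit 79419) (.g (nat_lit 1738) (.e (nat_lit 1840) (nat_lit 123) (.e (nat_lit 548891) (nat_lit 11) (.e (nat_lit 81943) (nat_lit 20) (.e (nat_lit 1841) (nat_lit 123) (.e (nat_lit 548891) (nat_lit 11) (.e (nat_lit 81942) (nat_lit 20) .nil)))))) (.g (nat_lit 5) .nil .nil)))))) (.nd (nat_lit 3) (.nd (nat_lit 4) (.nd (nat_lit 5) 
(.lf (nat_lit 79367) (.g (nat_lit 2546) (.e (nat_lit 1840) (nat_lit 123) (.e (nat_lit 548889) (nat_lit 9) (.e (nat_lit 65620) (nat_lit 10) (.e (nat_lit 344126) (nat_lit 25) (.e (nat_lit 548891) (nat_lit 11) (.e (nat_lit 81942) (nat_lit 20) .nil)))))) (.g (nat_lit 5) .nil .nil))) 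
(.lf (nat_lit 79399) (.g (nat_lit 3086) (.e (nat_lit 1840) (nat_lit 123) (.e (nat_lit 548889) (nat_lit 9) (.e (nat_lit 65630) (nat_lit 14) (.e (nat_lit 401424) (nat_lit 2) (.e (nat_lit 196672) (nat_lit 15) .nil))))) .nil))) (.nd (nat_lit 5) 
(.lf (nat_lit 79383) (.g (nat_lit 3359) (.e (nat_lit 1840) (nat_lit 123) (.e (nat_lit 548889) (nat_lit 9) (.e (nat_lit 65624) (nat_lit 12) (.e (nat_lit 385074) (nat_lit 31) (.e (nat_lit 573493) (nat_lit 15) (.e (nat_lit 81939) (nat_lit 20) .nil)))))) (.g (nat_lit 4) .nil .nil))) 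
(.lf (nat_lit 79415) (.g (nat_lit 1276) (.e (nat_lit 1840) (nat_lit 123) (.e (nat_lit 548891) (nat_lit 11) (.e (nat_lit 81942) (nat_lit 20) (.e (nat_lit 1842) (nat_lit 123) (.e (nat_lit 548891) (nat_lit 11) (.e (nat_lit 81939) (nat_lit 20) .nil)))))) (.g (nat_lit 4) .nil .nil))))) (.nd (nat_lit 4) (.nd (nat_lit 5) 
(.lf (nat_lit 79375) (.g (nat_lit 3803) (.e (nat_lit 1840) (nat_lit 123) (.e (nat_lit 548889) (nat_lit 9) (.e (nat_lit 65624) (nat_lit 12) (.e (nat_lit 385072) (nat_lit 31) (.e (nat_lit 573493) (nat_lit 15) (.e (nat_lit 81939) (nat_lit 20) .nil)))))) (.g (nat_lit 4) .nil .nil))) 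
(.lf (nat_lit 79407) (.g (nat_lit 1572) (.e (nat_lit 1840) (nat_lit 123) (.e (nat_lit 548891) (nat_lit 11) (.e (nat_lit 81938) (nat_lit 20) (.e (nat_lit 1842) (nat_lit 123) (.e (nat_lit 548891) (nat_lit 11) (.e (nat_lit 81939) (nat_lit 20) .nil)))))) (.g (nat_lit 4) .nil .nil)))) (.nd (nat_lit 5) 
(.lf (nat_lit 79391) (.g (nat_lit 464) (.e (nat_lit 1840) (nat_lit 123) (.e (nat_lit 548889) (nat_lit 9) (.e (nat_lit 65629) (nat_lit 14) .nil))) .nil)) 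
(.lf (nat_lit 79423) (.g (nat_lit 2489) (.e (nat_lit 1840) (nat_lit 123) (.e (nat_lit 548891) (nat_lit 11) (.e (nat_lit 81943) (nat_lit 20) (.e (nat_lit 1842) (nat_lit 123) (.e (nat_lit 548891) (nat_lit 11) (.e (nat_lit 81943) (nat_lit 20) .nil)))))) (.g (nat_lit 0) .nil .nil)))))))))

noncomputable def tv1074 : DT := (.nd (nat_lit 0) (.nd (nat_lit 1) (.nd (nat_lit 2) (.nd (nat_lit 3) (.nd (nat_lit 4) (.nd (nat_lit 5) 
(.lf (nat_lit 79424) (.g (nat_lit 1715) (.e (nat_lit 1840) (nat_lit 123) (.e (nat_lit 548891) (nat_lit 11) (.e (nat_lit 81946) (nat_lit 20) (.e (nat_lit 1841) (nat_lit 123) (.e (nat_lit 548891) (nat_lit 11) (.e (nat_lit 81939) (nat_lit 20) .nil)))))) (.g (nat_lit 5) .nil .nil))) 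
(.lf (nat_lit 79456) (.g (nat_lit 1668) (.e (nat_lit 1841) (nat_lit 123) (.e (nat_lit 548874) (nat_lit 5) (.e (nat_lit 1592) (nat_lit 111) (.e (nat_lit 360471) (nat_lit 7) (.e (nat_lit 548891) (nat_lit 11) (.e (nat_lit 81942) (nat_lit 20) .nil)))))) (.g (nat_lit 5) .nil .nil)))) (.nd (nat_lit 5) 
(.lf (nat_lit 79440) (.g (nat_lit 1185) (.e (nat_lit 1841) (nat_lit 123) (.e (nat_lit 548874) (nat_lit 5) (.e (nat_lit 1586) (nat_lit 111) (.e (nat_lit 360474) (nat_lit 8) (.e (nat_lit 557073) (nat_lit 9) .nil))))) .nil)) 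
(.lf (nat_lit 79472) (.g (nat_lit 1600) (.e (nat_lit 1841) (nat_lit 123) (.e (nat_lit 548874) (nat_lit 5) (.e (nat_lit 1598) (nat_lit 111) (.e (nat_lit 360473) (nat_lit 8) (.e (nat_lit 557072) (nat_lit 9) (.e (nat_lit 7936) (nat_lit 23) (.e (nat_lit 352291) (nat_lit 20) .nil))))))) (.g (nat_lit 5) .nil .nil))))) (.nd (nat_lit 4) (.nd (nat_lit 5) 
(.lf (nat_lit 79432) (.g (nat_lit 2723) (.e (nat_lit 1840) (nat_lit 123) (.e (nat_lit 548891) (nat_lit 11) (.e (nat_lit 81956) (nat_lit 23) (.e (nat_lit 98320) (nat_lit 17) .nil)))) .nil)) 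
(.lf (nat_lit 79464) (.g (nat_lit 3117) (.e (nat_lit 1841) (nat_lit 123) (.e (nat_lit 548874) (nat_lit 5) (.e (nat_lit 1595) (nat_lit 111) (.e (nat_lit 360473) (nat_lit 8) (.e (nat_lit 557087) (nat_lit 11) (.e (nat_lit 24631) (nat_lit 9) (.e (nat_lit 335928) (nat_lit 0) .nil))))))) (.g (nat_lit 6) .nil .nil)))) (.nd (nat_lit 5) 
(.lf (nat_lit 79448) (.g (nat_lit 2367) (.e (nat_lit 1841) (nat_lit 123) (.e (nat_lit 548874) (nat_lit 5) (.e (nat_lit 1589) (nat_lit 111) (.e (nat_lit 360471) (nat_lit 7) (.e (nat_lit 548891) (nat_lit 11) (.e (nat_lit 81939) (nat_lit 20) .nil)))))) (.g (nat_lit 5) .nil .nil))) 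
(.lf (nat_lit 79480) (.g (nat_lit 897) (.e (nat_lit 1841) (nat_lit 123) (.e (nat_lit 548889) (nat_lit 9) (.e (nat_lit 65583) (nat_lit 7) (.e (nat_lit 319499) (nat_lit 10) .nil)))) .nil))))) (.nd (nat_lit 3) (.nd (nat_lit 4) (.nd (nat_lit 5) 
(.lf (nat_lit 79428) (.g (nat_lit 1946) (.e (nat_lit 1840) (nat_lit 123) (.e (nat_lit 548891) (nat_lit 11) (.e (nat_lit 81946) (nat_lit 20) (.e (nat_lit 1842) (nat_lit 123) (.e (nat_lit 548891) (nat_lit 11) (.e (nat_lit 81942) (nat_lit 20) .nil)))))) (.g (nat_lit 5) .nil .nil))) 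
(.lf (nat_lit 79460) (.g (nat_lit 2946) (.e (nat_lit 1841) (nat_lit 123) (.e (nat_lit 548874) (nat_lit 5) (.e (nat_lit 1595) (nat_lit 111) (.e (nat_lit 360473) (nat_lit 8) (.e (nat_lit 557066) (nat_lit 9) (.e (nat_lit 314) (nat_lit 23) (.e (nat_lit 352290) (nat_lit 20) .nil))))))) (.g (nat_lit 6) .nil .nil)))) (.nd (nat_lit 5) 
(.lf (nat_lit 79444) (.g (nat_lit 2170) (.e (nat_lit 1841) (nat_lit 123) (.e (nat_lit 548874) (nat_lit 5) (.e (nat_lit 1586) (nat_lit 111) (.e (nat_lit 360475) (nat_lit 8) (.e (nat_lit 557068) (nat_lit 9) (.e (nat_lit 7936) (nat_lit 23) (.e (nat_lit 352291) (nat_lit 20) .nil))))))) (.g (nat_lit 5) .nil .nil))) 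
(.lf (nat_lit 79476) (.g (nat_lit 1460) (.e (nat_lit 1841) (nat_lit 123) (.e (nat_lit 548889) (nat_lit 9) (.e (nat_lit 65582) (nat_lit 7) (.e (nat_lit 319517) (nat_lit 12) (.e (nat_lit 32789) (nat_lit 11) (.e (nat_lit 81946) (nat_lit 20) .nil)))))) (.g (nat_lit 4) .nil .nil))))) (.nd (nat_lit 4) (.nd (nat_lit 5) 
(.lf (nat_lit 79436) (.g (nat_lit 2000) (.e (nat_lit 1841) (nat_lit 123) (.e (nat_lit 548874) (nat_lit 5) (.e (nat_lit 1586) (nat_lit 111) (.e (nat_lit 360450) (nat_lit 0) (.e (nat_lit 4153) (nat_lit 249) (.e (nat_lit 171776) (nat_lit 75) (.e (nat_lit 352290) (nat_lit 20) .nil))))))) (.g (nat_lit 5) .nil .nil))) 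
(.lf (nat_lit 79468) (.g (nat_lit 1008) (.e (nat_lit 1841) (nat_lit 123) (.e (nat_lit 548874) (nat_lit 5) (.e (nat_lit 1598) (nat_lit 111) (.e (nat_lit 360473) (nat_lit 8) (.e (nat_lit 557068) (nat_lit 9) .nil))))) .nil))) (.nd (nat_lit 5) 
(.lf (nat_lit 79452) (.g (nat_lit 1615) (.e (nat_lit 1841) (nat_lit 123) (.e (nat_lit 548874) (nat_lit 5) (.e (nat_lit 1589) (nat_lit 111) (.e (nat_lit 360473) (nat_lit 8) (.e (nat_lit 557072) (nat_lit 9) (.e (nat_lit 7936) (nat_lit 23) (.e (nat_lit 352290) (nat_lit 20) .nil))))))) (.g (nat_lit 4) .nil .nil))) 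
(.lf (nat_lit 79484) (.g (nat_lit 675) (.e (nat_lit 1841) (nat_lit 123) (.e (nat_lit 548889) (nat_lit 9) (.e (nat_lit 65583) (nat_lit 7) (.e (nat_lit 319519) (nat_lit 12) .nil)))) .nil)))))) (.nd (nat_lit 2) (.nd (nat_lit 3) (.nd (nat_lit 4) (.nd (nat_lit 5) 
(.lf (nat_lit 79426) (.g (nat_lit 2256) (.e (nat_lit 1840) (nat_lit 123) (.e (nat_lit 548891) (nat_lit 11) (.e (nat_lit 81946) (nat_lit 20) (.e (nat_lit 1841) (nat_lit 123) (.e (nat_lit 548891) (nat_lit 11) (.e (nat_lit 81943) (nat_lit 20) .nil)))))) (.g (nat_lit 0) .nil .nil))) 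
(.lf (nat_lit 79458) (.g (nat_lit 2081) (.e (nat_lit 1841) (nat_lit 123) (.e (nat_lit 548874) (nat_lit 5) (.e (nat_lit 1595) (nat_lit 111) (.e (nat_lit 360471) (nat_lit 7) (.e (nat_lit 548891) (nat_lit 11) (.e (nat_lit 81942) (nat_lit 20) .nil)))))) (.g (nat_lit 5) .nil .nil)))) (.nd (nat_lit 5) 
(.lf (nat_lit 79442) (.g (nat_lit 3219) (.e (nat_lit 1841) (nat_lit 123) (.e (nat_lit 548874) (nat_lit 5) (.e (nat_lit 1586) (nat_lit 111) (.e (nat_lit 360475) (nat_lit 8) (.e (nat_lit 557066) (nat_lit 9) (.e (nat_lit 314) (nat_lit 23) (.e (nat_lit 352297) (nat_lit 20) .nil))))))) (.g (nat_lit 0) .nil .nil))) 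
(.lf (nat_lit 79474) (.g (nat_lit 1446) (.e (nat_lit 1841) (nat_lit 123) (.e (nat_lit 548874) (nat_lit 5) (.e (nat_lit 1598) (nat_lit 111) (.e (nat_lit 360473) (nat_lit 8) (.e (nat_lit 557073) (nat_lit 9) (.e (nat_lit 7936) (nat_lit 23) (.e (nat_lit 352291) (nat_lit 20) .nil))))))) (.g (nat_lit 5) .nil .nil))))) (.nd (nat_lit 4) (.nd (nat_lit 5) 
(.lf (nat_lit 79434) (.g (nat_lit 2652) (.e (nat_lit 1840) (nat_lit 123) (.e (nat_lit 548891) (nat_lit 11) (.e (nat_lit 81956) (nat_lit 23) (.e (nat_lit 98389) (nat_lit 33) .nil)))) .nil)) 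
(.lf (nat_lit 79466) (.g (nat_lit 2397) (.e (nat_lit 1841) (nat_lit 123) (.e (nat_lit 548874) (nat_lit 5) (.e (nat_lit 1598) (nat_lit 111) (.e (nat_lit 360471) (nat_lit 7) (.e (nat_lit 548891) (nat_lit 11) (.e (nat_lit 81938) (nat_lit 20) .nil)))))) (.g (nat_lit 0) .nil .nil)))) (.nd (nat_lit 5) 
(.lf (nat_lit 79450) (.g (nat_lit 2834) (.e (nat_lit 1841) (nat_lit 123) (.e (nat_lit 548874) (nat_lit 5) (.e (nat_lit 1589) (nat_lit 111) (.e (nat_lit 360473) (nat_lit 8) (.e (nat_lit 557066) (nat_lit 9) (.e (nat_lit 314) (nat_lit 23) (.e (nat_lit 352297) (nat_lit 20) .nil))))))) (.g (nat_lit 6) .nil .nil))) 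
(.lf (nat_lit 79482) (.g (nat_lit 1454) (.e (nat_lit 1841) (nat_lit 123) (.e (nat_lit 548889) (nat_lit 9) (.e (nat_lit 65583) (nat_lit 7) (.e (nat_lit 319518) (nat_lit 12) (.e (nat_lit 32789) (nat_lit 11) (.e (nat_lit 81946) (nat_lit 20) .nil)))))) (.g (nat_lit 4) .nil .nil)))))) (.nd (nat_lit 3) (.nd (nat_lit 4) (.nd (nat_lit 5) 
(.lf (nat_lit 79430) (.g (nat_lit 1148) (.e (nat_lit 1840) (nat_lit 123) (.e (nat_lit 548891) (nat_lit 11) (.e (nat_lit 81947) (nat_lit 20) (.e (nat_lit 1841) (nat_lit 123) .nil)))) .nil)) 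
(.lf (nat_lit 79462) (.g (nat_lit 1647) (.e (nat_lit 1841) (nat_lit 123) (.e (nat_lit 548874) (nat_lit 5) (.e (nat_lit 1595) (nat_lit 111) (.e (nat_lit 360473) (nat_lit 8) (.e (nat_lit 557068) (nat_lit 9) .nil))))) .nil))) (.nd (nat_lit 5) 
(.lf (nat_lit 79446) (.g (nat_lit 3037) (.e (nat_lit 1841) (nat_lit 123) (.e (nat_lit 548874) (nat_lit 5) (.e (nat_lit 1589) (nat_lit 111) (.e (nat_lit 360467) (nat_lit 3) (.e (nat_lit 516139) (nat_lit 7) (.e (nat_lit 417536) (nat_lit 16) (.e (nat_lit 286728) (nat_lit 0) .nil))))))) (.g (nat_lit 5) .nil .nil))) 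
(.lf (nat_lit 79478) (.g (nat_lit 347) (.e (nat_lit 1841) (nat_lit 123) (.e (nat_lit 548889) (nat_lit 9) (.e (nat_lit 65583) (nat_lit 7) .nil))) .nil)))) (.nd (nat_lit 4) (.nd (nat_lit 5) 
(.lf (nat_lit 79438) (.g (nat_lit 1883) (.e (nat_lit 1841) (nat_lit 123) (.e (nat_lit 548874) (nat_lit 5) (.e (nat_lit 1586) (nat_lit 111) (.e (nat_lit 360474) (nat_lit 8) (.e (nat_lit 557072) (nat_lit 9) (.e (nat_lit 7936) (nat_lit 23) (.e (nat_lit 352291) (nat_lit 20) .nil))))))) (.g (nat_lit 5) .nil .nil))) 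
(.lf (nat_lit 79470) (.g (nat_lit 1924) (.e (nat_lit 1841) (nat_lit 123) (.e (nat_lit 548874) (nat_lit 5) (.e (nat_lit 1598) (nat_lit 111) (.e (nat_lit 360473) (nat_lit 8) (.e (nat_lit 557070) (nat_lit 9) (.e (nat_lit 313) (nat_lit 23) (.e (nat_lit 352290) (nat_lit 20) .nil))))))) (.g (nat_lit 5) .nil .nil)))) (.nd (nat_lit 5) 
(.lf (nat_lit 79454) (.g (nat_lit 1647) (.e (nat_lit 1841) (nat_lit 123) (.e (nat_lit 548874) (nat_lit 5) (.e (nat_lit 1589) (nat_lit 111) (.e (nat_lit 360473) (nat_lit 8) (.e (nat_lit 557072) (nat_lit 9) (.e (nat_lit 7936) (nat_lit 23) (.e (nat_lit 352302) (nat_lit 20) .nil))))))) (.g (nat_lit 4) .nil .nil))) 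
(.lf (nat_lit 79486) (.g (nat_lit 570) (.e (nat_lit 1841) (nat_lit 123) (.e (nat_lit 548889) (nat_lit 9) (.e (nat_lit 65584) (nat_lit 7) (.e (nat_lit 319518) (nat_lit 12) .nil)))) .nil))))))) (.nd (nat_lit 1) (.nd (nat_lit 2) (.nd (nat_lit 3) (.nd (nat_lit 4) (.nd (nat_lit 5) 
(.lf (nat_lit 79425) (.g (nat_lit 1731) (.e (nat_lit 1840) (nat_lit 123) (.e (nat_lit 548891) (nat_lit 11) (.e (nat_lit 81946) (nat_lit 20) (.e (nat_lit 1841) (nat_lit 123) (.e (nat_lit 548891) (nat_lit 11) (.e (nat_lit 81942) (nat_lit 20) .nil)))))) (.g (nat_lit 5) .nil .nil))) 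
(.lf (nat_lit 79457) (.g (nat_lit 1968) (.e (nat_lit 1841) (nat_lit 123) (.e (nat_lit 548874) (nat_lit 5) (.e (nat_lit 1595) (nat_lit 111) (.e (nat_lit 360471) (nat_lit 7) (.e (nat_lit 548891) (nat_lit 11) (.e (nat_lit 81939) (nat_lit 20) .nil)))))) (.g (nat_lit 5) .nil .nil)))) (.nd (nat_lit 5) 
(.lf (nat_lit 79441) (.g (nat_lit 1643) (.e (nat_lit 1841) (nat_lit 123) (.e (nat_lit 548874) (nat_lit 5) (.e (nat_lit 1586) (nat_lit 111) (.e (nat_lit 360474) (nat_lit 8) (.e (nat_lit 557073) (nat_lit 9) (.e (nat_lit 7936) (nat_lit 23) (.e (nat_lit 352291) (nat_lit 20) .nil))))))) (.g (nat_lit 5) .nil .nil))) 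
(.lf (nat_lit 79473) (.g (nat_lit 1498) (.e (nat_lit 1841) (nat_lit 123) (.e (nat_lit 548874) (nat_lit 5) (.e (nat_lit 1598) (nat_lit 111) (.e (nat_lit 360473) (nat_lit 8) (.e (nat_lit 557072) (nat_lit 9) (.e (nat_lit 7936) (nat_lit 23) (.e (nat_lit 352296) (nat_lit 20) .nil))))))) (.g (nat_lit 5) .nil .nil))))) (.nd (nat_lit 4) (.nd (nat_lit 5) 
(.lf (nat_lit 79433) (.g (nat_lit 2563) (.e (nat_lit 1840) (nat_lit 123) (.e (nat_lit 548891) (nat_lit 11) (.e (nat_lit 81956) (nat_lit 23) (.e (nat_lit 98388) (nat_lit 33) .nil)))) .nil)) 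
(.lf (nat_lit 79465) (.g (nat_lit 1066) (.e (nat_lit 1841) (nat_lit 123) (.e (nat_lit 548874) (nat_lit 5) (.e (nat_lit 1598) (nat_lit 111) (.e (nat_lit 360466) (nat_lit 3) (.e (nat_lit 516105) (nat_lit 0) .nil))))) .nil))) (.nd (nat_lit 5) 
(.lf (nat_lit 79449) (.g (nat_lit 2629) (.e (nat_lit 1841) (nat_lit 123) (.e (nat_lit 548874) (nat_lit 5) (.e (nat_lit 1589) (nat_lit 111) (.e (nat_lit 360471) (nat_lit 7) (.e (nat_lit 548891) (nat_lit 11) (.e (nat_lit 81943) (nat_lit 20) .nil)))))) (.g (nat_lit 0) .nil .nil))) 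
(.lf (nat_lit 79481) (.g (nat_lit 1279) (.e (nat_lit 1841) (nat_lit 123) (.e (nat_lit 548889) (nat_lit 9) (.e (nat_lit 65583) (nat_lit 7) (.e (nat_lit 319518) (nat_lit 12) (.e (nat_lit 32789) (nat_lit 11) (.e (nat_lit 81943) (nat_lit 20) .nil)))))) (.g (nat_lit 4) .nil .nil)))))) (.nd (nat_lit 3) (.nd (nat_lit 4) (.nd (nat_lit 5) 
(.lf (nat_lit 79429) (.g (nat_lit 2570) (.e (nat_lit 1840) (nat_lit 123) (.e (nat_lit 548891) (nat_lit 11) (.e (nat_lit 81946) (nat_lit 20) (.e (nat_lit 1842) (nat_lit 123) (.e (nat_lit 548891) (nat_lit 11) (.e (nat_lit 81943) (nat_lit 20) .nil)))))) (.g (nat_lit 0) .nil .nil))) 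
(.lf (nat_lit 79461) (.g (nat_lit 2724) (.e (nat_lit 1841) (nat_lit 123) (.e (nat_lit 548874) (nat_lit 5) (.e (nat_lit 1595) (nat_lit 111) (.e (nat_lit 360473) (nat_lit 8) (.e (nat_lit 557066) (nat_lit 9) (.e (nat_lit 314) (nat_lit 23) (.e (nat_lit 352297) (nat_lit 20) .nil))))))) (.g (nat_lit 6) .nil .nil)))) (.nd (nat_lit 5) 
(.lf (nat_lit 79445) (.g (nat_lit 2775) (.e (nat_lit 1841) (nat_lit 123) (.e (nat_lit 548874) (nat_lit 5) (.e (nat_lit 1586) (nat_lit 111) (.e (nat_lit 360475) (nat_lit 8) (.e (nat_lit 557070) (nat_lit 9) (.e (nat_lit 313) (nat_lit 23) (.e (nat_lit 352297) (nat_lit 20) .nil))))))) (.g (nat_lit 5) .nil .nil))) 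
(.lf (nat_lit 79477) (.g (nat_lit 1164) (.e (nat_lit 1841) (nat_lit 123) (.e (nat_lit 548889) (nat_lit 9) (.e (nat_lit 65582) (nat_lit 7) (.e (nat_lit 319519) (nat_lit 12) (.e (nat_lit 32789) (nat_lit 11) .nil))))) .nil)))) (.nd (nat_lit 4) (.nd (nat_lit 5) 
(.lf (nat_lit 79437) (.g (nat_lit 1944) (.e (nat_lit 1841) (nat_lit 123) (.e (nat_lit 548874) (nat_lit 5) (.e (nat_lit 1586) (nat_lit 111) (.e (nat_lit 360471) (nat_lit 7) (.e (nat_lit 548891) (nat_lit 11) (.e (nat_lit 81939) (nat_lit 20) .nil)))))) (.g (nat_lit 5) .nil .nil))) 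
(.lf (nat_lit 79469) (.g (nat_lit 1568) (.e (nat_lit 1841) (nat_lit 123) (.e (nat_lit 548874) (nat_lit 5) (.e (nat_lit 1598) (nat_lit 111) (.e (nat_lit 360473) (nat_lit 8) (.e (nat_lit 557068) (nat_lit 9) (.e (nat_lit 7936) (nat_lit 23) (.e (nat_lit 352291) (nat_lit 20) .nil))))))) (.g (nat_lit 5) .nil .nil)))) (.nd (nat_lit 5) 
(.lf (nat_lit 79453) (.g (nat_lit 1643) (.e (nat_lit 1841) (nat_lit 123) (.e (nat_lit 548874) (nat_lit 5) (.e (nat_lit 1589) (nat_lit 111) (.e (nat_lit 360473) (nat_lit 8) (.e (nat_lit 557072) (nat_lit 9) (.e (nat_lit 7936) (nat_lit 23) (.e (nat_lit 352297) (nat_lit 20) .nil))))))) (.g (nat_lit 4) .nil .nil))) 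
(.lf (nat_lit 79485) (.g (nat_lit 1193) (.e (nat_lit 1841) (nat_lit 123) (.e (nat_lit 548889) (nat_lit 9) (.e (nat_lit 65583) (nat_lit 7) (.e (nat_lit 319519) (nat_lit 12) (.e (nat_lit 40704) (nat_lit 11) .nil))))) .nil)))))) (.nd (nat_lit 2) (.nd (nat_lit 3) (.nd (nat_lit 4) (.nd (nat_lit 5) 
(.lf (nat_lit 79427) (.g (nat_lit 1966) (.e (nat_lit 1840) (nat_lit 123) (.e (nat_lit 548891) (nat_lit 11) (.e (nat_lit 81946) (nat_lit 20) (.e (nat_lit 1842) (nat_lit 123) (.e (nat_lit 548891) (nat_lit 11) (.e (nat_lit 81939) (nat_lit 20) .nil)))))) (.g (nat_lit 5) .nil .nil))) 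
(.lf (nat_lit 79459) (.g (nat_lit 2063) (.e (nat_lit 1841) (nat_lit 123) (.e (nat_lit 548874) (nat_lit 5) (.e (nat_lit 1595) (nat_lit 111) (.e (nat_lit 360471) (nat_lit 7) (.e (nat_lit 548891) (nat_lit 11) (.e (nat_lit 81943) (nat_lit 20) .nil)))))) (.g (nat_lit 5) .nil .nil)))) (.nd (nat_lit 5) 
(.lf (nat_lit 79443) (.g (nat_lit 1460) (.e (nat_lit 1841) (nat_lit 123) (.e (nat_lit 548874) (nat_lit 5) (.e (nat_lit 1586) (nat_lit 111) (.e (nat_lit 360475) (nat_lit 8) (.e (nat_lit 557068) (nat_lit 9) .nil))))) .nil)) 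
(.lf (nat_lit 79475) (.g (nat_lit 443) (.e (nat_lit 1841) (nat_lit 123) (.e (nat_lit 548889) (nat_lit 9) (.e (nat_lit 65582) (nat_lit 7) .nil))) .nil)))) (.nd (nat_lit 4) (.nd (nat_lit 5) 
(.lf (nat_lit 79435) (.g (nat_lit 3682) (.e (nat_lit 1840) (nat_lit 123) (.e (nat_lit 548891) (nat_lit 11) (.e (nat_lit 81956) (nat_lit 23) (.e (nat_lit 98389) (nat_lit 33) (.e (nat_lit 491551) (nat_lit 9) .nil))))) .nil)) 
(.lf (nat_lit 79467) (.g (nat_lit 1824) (.e (nat_lit 1841) (nat_lit 123) (.e (nat_lit 548874) (nat_lit 5) (.e (nat_lit 1598) (nat_lit 111) (.e (nat_lit 360471) (nat_lit 7) (.e (nat_lit 548891) (nat_lit 11) (.e (nat_lit 81939) (nat_lit 20) .nil)))))) (.g (nat_lit 5) .nil .nil)))) (.nd (nat_lit 5) 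
(.lf (nat_lit 79451) (.g (nat_lit 1737) (.e (nat_lit 1841) (nat_lit 123) (.e (nat_lit 548874) (nat_lit 5) (.e (nat_lit 1589) (nat_lit 111) (.e (nat_lit 360473) (nat_lit 8) (.e (nat_lit 557068) (nat_lit 9) (.e (nat_lit 7936) (nat_lit 23) (.e (nat_lit 352291) (nat_lit 20) .nil))))))) (.g (nat_lit 5) .nil .nil))) 
(.lf (nat_lit 79483) (.g (nat_lit 1316) (.e (nat_lit 1841) (nat_lit 123) (.e (nat_lit 548889) (nat_lit 9) (.e (nat_lit 65583) (nat_lit 7) (.e (nat_lit 319518) (nat_lit 12) (.e (nat_lit 32789) (nat_lit 11) (.e (nat_lit 81947) (nat_lit 20) .nil)))))) (.g (nat_lit 4) .nil .nil)))))) (.nd (nat_lit 3) (.nd (nat_lit 4) (.nd (nat_lit 5) 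
(.lf (nat_lit 79431) (.g (nat_lit 1763) (.e (nat_lit 1840) (nat_lit 123) (.e (nat_lit 548891) (nat_lit 11) (.e (nat_lit 81947) (nat_lit 20) (.e (nat_lit 1842) (nat_lit 123) (.e (nat_lit 548891) (nat_lit 11) (.e (nat_lit 81942) (nat_lit 20) .nil)))))) (.g (nat_lit 4) .nil .nil))) 
(.lf (nat_lit 79463) (.g (nat_lit 1872) (.e (nat_lit 1841) (nat_lit 123) (.e (nat_lit 548874) (nat_lit 5) (.e (nat_lit 1595) (nat_lit 111) (.e (nat_lit 360473) (nat_lit 8) (.e (nat_lit 557081) (nat_lit 9) (.e (nat_lit 316) (nat_lit 23) (.e (nat_lit 352297) (nat_lit 20) .nil))))))) (.g (nat_lit 4) .nil .nil)))) (.nd (nat_lit 5) 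
(.lf (nat_lit 79447) (.g (nat_lit 2895) (.e (nat_lit 1841) (nat_lit 123) (.e (nat_lit 548874) (nat_lit 5) (.e (nat_lit 1589) (nat_lit 111) (.e (nat_lit 360471) (nat_lit 7) (.e (nat_lit 548891) (nat_lit 11) (.e (nat_lit 81938) (nat_lit 20) .nil)))))) (.g (nat_lit 0) .nil .nil))) 
(.lf (nat_lit 79479) (.g (nat_lit 924) (.e (nat_lit 1841) (nat_lit 123) (.e (nat_lit 548889) (nat_lit 9) (.e (nat_lit 65583) (nat_lit 7) (.e (nat_lit 319498) (nat_lit 10) .nil)))) .nil)))) (.nd (nat_lit 4) (.nd (nat_lit 5) 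
(.lf (nat_lit 79439) (.g (nat_lit 1916) (.e (nat_lit 1841) (nat_lit 123) (.e (nat_lit 548874) (nat_lit 5) (.e (nat_lit 1586) (nat_lit 111) (.e (nat_lit 360474) (nat_lit 8) (.e (nat_lit 557072) (nat_lit 9) (.e (nat_lit 7936) (nat_lit 23) (.e (nat_lit 352296) (nat_lit 20) .nil))))))) (.g (nat_lit 5) .nil .nil))) 
(.lf (nat_lit 79471) (.g (nat_lit 1766) (.e (nat_lit 1841) (nat_lit 123) (.e (nat_lit 548874) (nat_lit 5) (.e (nat_lit 1598) (nat_lit 111) (.e (nat_lit 360473) (nat_lit 8) (.e (nat_lit 557070) (nat_lit 9) (.e (nat_lit 7936) (nat_lit 23) (.e (nat_lit 352297) (nat_lit 20) .nil))))))) (.g (nat_lit 5) .nil .nil)))) (.nd (nat_lit 5) 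
(.lf (nat_lit 79455) (.g (nat_lit 1603) (.e (nat_lit 1841) (nat_lit 123) (.e (nat_lit 548874) (nat_lit 5) (.e (nat_lit 1589) (nat_lit 111) (.e (nat_lit 360473) (nat_lit 8) (.e (nat_lit 557073) (nat_lit 9) .nil))))) .nil)) 
(.lf (nat_lit 79487) (.g (nat_lit 1262) (.e (nat_lit 1841) (nat_lit 123) (.e (nat_lit 548889) (nat_lit 9) (.e (nat_lit 65584) (nat_lit 7) (.e (nat_lit 319519) (nat_lit 12) (.e (nat_lit 40704) (nat_lit 11) (.e (nat_lit 81938) (nat_lit 20) .nil)))))) (.g (nat_lit 4) .nil .nil)))))))))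

noncomputable def tv1075 : DT := (.nd (nat_lit 0) (.nd (nat_lit 1) (.nd (nat_lit 2) (.nd (nat_lit 3) (.nd (nat_lit 4) (.nd (nat_lit 5) 
(.lf (nat_lit 79488) (.g (nat_lit 1143) (.e (nat_lit 1841) (nat_lit 123) (.e (nat_lit 548889) (nat_lit 9) (.e (nat_lit 65584) (nat_lit 7) (.e (nat_lit 319519) (nat_lit 12) (.e (nat_lit 40704) (nat_lit 11) (.e (nat_lit 81943) (nat_lit 20) .nil)))))) (.g (nat_lit 4) .nil .nil))) 
(.lf (nat_lit 79520) (.g (nat_lit 2569) (.e (nat_lit 1841) (nat_lit 123) (.e (nat_lit 548889) (nat_lit 9) (.e (nat_lit 65611) (nat_lit 10) (.e (nat_lit 344126) (nat_lit 25) (.e (nat_lit 548891) (nat_lit 11) (.e (nat_lit 81939) (nat_lit 20) .nil)))))) (.g (nat_lit 6) .nil .nil)))) (.nd (nat_lit 5) 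
(.lf (nat_lit 79504) (.g (nat_lit 1954) (.e (nat_lit 1841) (nat_lit 123) (.e (nat_lit 548889) (nat_lit 9) (.e (nat_lit 65604) (nat_lit 9) (.e (nat_lit 336013) (nat_lit 2) (.e (nat_lit 90165) (nat_lit 12) (.e (nat_lit 164208) (nat_lit 176) (.e (nat_lit 2781) (nat_lit 178) (.e (nat_lit 286728) (nat_lit 0) .nil)))))))) (.g (nat_lit 4) .nil .nil))) 
(.lf (nat_lit 79536) (.g (nat_lit 2301) (.e (nat_lit 1841) (nat_lit 123) (.e (nat_lit 548889) (nat_lit 9) (.e (nat_lit 65617) (nat_lit 10) (.e (nat_lit 344130) (nat_lit 26) (.e (nat_lit 557070) (nat_lit 9) (.e (nat_lit 7936) (nat_lit 23) (.e (nat_lit 352290) (nat_lit 20) .nil))))))) (.g (nat_lit 5) .nil .nil))))) (.nd (nat_lit 4) (.nd (nat_lit 5) 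
(.lf (nat_lit 79496) (.g (nat_lit 1708) (.e (nat_lit 1841) (nat_lit 123) (.e (nat_lit 548889) (nat_lit 9) (.e (nat_lit 65586) (nat_lit 7) (.e (nat_lit 319518) (nat_lit 12) (.e (nat_lit 32789) (nat_lit 11) (.e (nat_lit 81943) (nat_lit 20) .nil)))))) (.g (nat_lit 6) .nil .nil))) 
(.lf (nat_lit 79528) (.g (nat_lit 2506) (.e (nat_lit 1841) (nat_lit 123) (.e (nat_lit 548889) (nat_lit 9) (.e (nat_lit 65616) (nat_lit 10) (.e (nat_lit 344126) (nat_lit 25) (.e (nat_lit 548891) (nat_lit 11) (.e (nat_lit 81943) (nat_lit 20) .nil)))))) (.g (nat_lit 0) .nil .nil)))) (.nd (nat_lit 5) 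
(.lf (nat_lit 79512) (.g (nat_lit 2349) (.e (nat_lit 1841) (nat_lit 123) (.e (nat_lit 548889) (nat_lit 9) (.e (nat_lit 65610) (nat_lit 10) (.e (nat_lit 344126) (nat_lit 25) (.e (nat_lit 548891) (nat_lit 11) (.e (nat_lit 81939) (nat_lit 20) .nil)))))) (.g (nat_lit 0) .nil .nil))) 
(.lf (nat_lit 79544) (.g (nat_lit 1814) (.e (nat_lit 1841) (nat_lit 123) (.e (nat_lit 548889) (nat_lit 9) (.e (nat_lit 65617) (nat_lit 10) (.e (nat_lit 344132) (nat_lit 26) (.e (nat_lit 557072) (nat_lit 9) .nil))))) .nil))))) (.nd (nat_lit 3) (.nd (nat_lit 4) (.nd (nat_lit 5) 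
(.lf (nat_lit 79492) (.g (nat_lit 924) (.e (nat_lit 1841) (nat_lit 123) (.e (nat_lit 548889) (nat_lit 9) (.e (nat_lit 65586) (nat_lit 7) (.e (nat_lit 319498) (nat_lit 10) .nil)))) .nil)) 
(.lf (nat_lit 79524) (.g (nat_lit 2953) (.e (nat_lit 1841) (nat_lit 123) (.e (nat_lit 548889) (nat_lit 9) (.e (nat_lit 65611) (nat_lit 10) (.e (nat_lit 344126) (nat_lit 25) (.e (nat_lit 548891) (nat_lit 11) (.e (nat_lit 81947) (nat_lit 20) .nil)))))) (.g (nat_lit 0) .nil .nil)))) (.nd (nat_lit 5) 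
(.lf (nat_lit 79508) (.g (nat_lit 2913) (.e (nat_lit 1841) (nat_lit 123) (.e (nat_lit 548889) (nat_lit 9) (.e (nat_lit 65610) (nat_lit 10) (.e (nat_lit 344117) (nat_lit 21) (.e (nat_lit 516099) (nat_lit 0) .nil))))) .nil)) 
(.lf (nat_lit 79540) (.g (nat_lit 1676) (.e (nat_lit 1841) (nat_lit 123) (.e (nat_lit 548889) (nat_lit 9) (.e (nat_lit 65617) (nat_lit 10) (.e (nat_lit 344130) (nat_lit 26) (.e (nat_lit 557090) (nat_lit 12) .nil))))) .nil)))) (.nd (nat_lit 4) (.nd (nat_lit 5) 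
(.lf (nat_lit 79500) (.g (nat_lit 2181) (.e (nat_lit 1841) (nat_lit 123) (.e (nat_lit 548889) (nat_lit 9) (.e (nat_lit 65586) (nat_lit 7) (.e (nat_lit 319519) (nat_lit 12) (.e (nat_lit 32789) (nat_lit 11) (.e (nat_lit 81946) (nat_lit 20) .nil)))))) (.g (nat_lit 0) .nil .nil))) 
(.lf (nat_lit 79532) (.g (nat_lit 3021) (.e (nat_lit 1841) (nat_lit 123) (.e (nat_lit 548889) (nat_lit 9) (.e (nat_lit 65617) (nat_lit 10) (.e (nat_lit 344126) (nat_lit 25) (.e (nat_lit 548891) (nat_lit 11) (.e (nat_lit 81942) (nat_lit 20) .nil)))))) (.g (nat_lit 0) .nil .nil)))) (.nd (nat_lit 5) 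
(.lf (nat_lit 79516) (.g (nat_lit 2276) (.e (nat_lit 1841) (nat_lit 123) (.e (nat_lit 548889) (nat_lit 9) (.e (nat_lit 65610) (nat_lit 10) (.e (nat_lit 344129) (nat_lit 26) (.e (nat_lit 557067) (nat_lit 9) (.e (nat_lit 7936) (nat_lit 23) (.e (nat_lit 352303) (nat_lit 20) .nil))))))) (.g (nat_lit 4) .nil .nil))) 
(.lf (nat_lit 79548) (.g (nat_lit 2282) (.e (nat_lit 1841) (nat_lit 123) (.e (nat_lit 548889) (nat_lit 9) (.e (nat_lit 65617) (nat_lit 10) (.e (nat_lit 344132) (nat_lit 26) (.e (nat_lit 557073) (nat_lit 9) (.e (nat_lit 7936) (nat_lit 23) (.e (nat_lit 352291) (nat_lit 20) .nil))))))) (.g (nat_lit 5) .nil .nil))))))) (.nd (nat_lit 2) (.nd (nat_lit 3) (.nd (nat_lit 4) (.nd (nat_lit 5) 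
(.lf (nat_lit 79490) (.g (nat_lit 876) (.e (nat_lit 1841) (nat_lit 123) (.e (nat_lit 548889) (nat_lit 9) (.e (nat_lit 65585) (nat_lit 7) (.e (nat_lit 319519) (nat_lit 12) (.e (nat_lit 40704) (nat_lit 11) .nil))))) .nil)) 
(.lf (nat_lit 79522) (.g (nat_lit 2800) (.e (nat_lit 1841) (nat_lit 123) (.e (nat_lit 548889) (nat_lit 9) (.e (nat_lit 65611) (nat_lit 10) (.e (nat_lit 344126) (nat_lit 25) (.e (nat_lit 548891) (nat_lit 11) (.e (nat_lit 81943) (nat_lit 20) .nil)))))) (.g (nat_lit 0) .nil .nil)))) (.nd (nat_lit 5) 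
(.lf (nat_lit 79506) (.g (nat_lit 1884) (.e (nat_lit 1841) (nat_lit 123) (.e (nat_lit 548889) (nat_lit 9) (.e (nat_lit 65604) (nat_lit 9) (.e (nat_lit 336028) (nat_lit 3) (.e (nat_lit 98325) (nat_lit 17) (.e (nat_lit 6986) (nat_lit 377) (.e (nat_lit 2782) (nat_lit 178) (.e (nat_lit 286725) (nat_lit 0) .nil)))))))) (.g (nat_lit 4) .nil .nil))) 
(.lf (nat_lit 79538) (.g (nat_lit 2381) (.e (nat_lit 1841) (nat_lit 123) (.e (nat_lit 548889) (nat_lit 9) (.e (nat_lit 65617) (nat_lit 10) (.e (nat_lit 344130) (nat_lit 26) (.e (nat_lit 557070) (nat_lit 9) (.e (nat_lit 7936) (nat_lit 23) (.e (nat_lit 352297) (nat_lit 20) .nil))))))) (.g (nat_lit 5) .nil .nil))))) (.nd (nat_lit 4) (.nd (nat_lit 5) 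
(.lf (nat_lit 79498) (.g (nat_lit 768) (.e (nat_lit 1841) (nat_lit 123) (.e (nat_lit 548889) (nat_lit 9) (.e (nat_lit 65586) (nat_lit 7) (.e (nat_lit 319519) (nat_lit 12) .nil)))) .nil)) 
(.lf (nat_lit 79530) (.g (nat_lit 3198) (.e (nat_lit 1841) (nat_lit 123) (.e (nat_lit 548889) (nat_lit 9) (.e (nat_lit 65617) (nat_lit 10) (.e (nat_lit 344126) (nat_lit 25) (.e (nat_lit 548891) (nat_lit 11) (.e (nat_lit 81938) (nat_lit 20) .nil)))))) (.g (nat_lit 0) .nil .nil)))) (.nd (nat_lit 5) 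
(.lf (nat_lit 79514) (.g (nat_lit 1877) (.e (nat_lit 1841) (nat_lit 123) (.e (nat_lit 548889) (nat_lit 9) (.e (nat_lit 65610) (nat_lit 10) (.e (nat_lit 344129) (nat_lit 26) (.e (nat_lit 557066) (nat_lit 9) .nil))))) .nil)) 
(.lf (nat_lit 79546) (.g (nat_lit 2575) (.e (nat_lit 1841) (nat_lit 123) (.e (nat_lit 548889) (nat_lit 9) (.e (nat_lit 65617) (nat_lit 10) (.e (nat_lit 344132) (nat_lit 26) (.e (nat_lit 557072) (nat_lit 9) (.e (nat_lit 7936) (nat_lit 23) (.e (nat_lit 352296) (nat_lit 20) .nil))))))) (.g (nat_lit 5) .nil .nil)))))) (.nd (nat_lit 3) (.nd (nat_lit 4) (.nd (nat_lit 5) 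
(.lf (nat_lit 79494) (.g (nat_lit 1329) (.e (nat_lit 1841) (nat_lit 123) (.e (nat_lit 548889) (nat_lit 9) (.e (nat_lit 65586) (nat_lit 7) (.e (nat_lit 319500) (nat_lit 10) (.e (nat_lit 562) (nat_lit 41) .nil))))) .nil)) 
(.lf (nat_lit 79526) (.g (nat_lit 2307) (.e (nat_lit 1841) (nat_lit 123) (.e (nat_lit 548889) (nat_lit 9) (.e (nat_lit 65616) (nat_lit 10) (.e (nat_lit 344126) (nat_lit 25) (.e (nat_lit 548891) (nat_lit 11) (.e (nat_lit 81939) (nat_lit 20) .nil)))))) (.g (nat_lit 0) .nil .nil)))) (.nd (nat_lit 5) 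
(.lf (nat_lit 79510) (.g (nat_lit 2267) (.e (nat_lit 1841) (nat_lit 123) (.e (nat_lit 548889) (nat_lit 9) (.e (nat_lit 65610) (nat_lit 10) (.e (nat_lit 344117) (nat_lit 21) (.e (nat_lit 516106) (nat_lit 0) (.e (nat_lit 6986) (nat_lit 377) (.e (nat_lit 2782) (nat_lit 178) (.e (nat_lit 286725) (nat_lit 0) .nil)))))))) (.g (nat_lit 4) .nil .nil))) 
(.lf (nat_lit 79542) (.g (nat_lit 2449) (.e (nat_lit 1841) (nat_lit 123) (.e (nat_lit 548889) (nat_lit 9) (.e (nat_lit 65617) (nat_lit 10) (.e (nat_lit 344132) (nat_lit 26) (.e (nat_lit 557070) (nat_lit 9) (.e (nat_lit 7936) (nat_lit 23) (.e (nat_lit 352290) (nat_lit 20) .nil))))))) (.g (nat_lit 5) .nil .nil))))) (.nd (nat_lit 4) (.nd (nat_lit 5) 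
(.lf (nat_lit 79502) (.g (nat_lit 1662) (.e (nat_lit 1841) (nat_lit 123) (.e (nat_lit 548889) (nat_lit 9) (.e (nat_lit 65598) (nat_lit 9) (.e (nat_lit 336028) (nat_lit 3) (.e (nat_lit 98325) (nat_lit 17) .nil))))) .nil)) 
(.lf (nat_lit 79534) (.g (nat_lit 3156) (.e (nat_lit 1841) (nat_lit 123) (.e (nat_lit 548889) (nat_lit 9) (.e (nat_lit 65617) (nat_lit 10) (.e (nat_lit 344126) (nat_lit 25) (.e (nat_lit 548891) (nat_lit 11) (.e (nat_lit 81946) (nat_lit 20) .nil)))))) (.g (nat_lit 0) .nil .nil)))) (.nd (nat_lit 5) 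
(.lf (nat_lit 79518) (.g (nat_lit 2626) (.e (nat_lit 1841) (nat_lit 123) (.e (nat_lit 548889) (nat_lit 9) (.e (nat_lit 65610) (nat_lit 10) (.e (nat_lit 344129) (nat_lit 26) (.e (nat_lit 557074) (nat_lit 9) (.e (nat_lit 7936) (nat_lit 23) (.e (nat_lit 352296) (nat_lit 20) .nil))))))) (.g (nat_lit 5) .nil .nil))) 
(.lf (nat_lit 79550) (.g (nat_lit 3221) (.e (nat_lit 1841) (nat_lit 123) (.e (nat_lit 548889) (nat_lit 9) (.e (nat_lit 65617) (nat_lit 10) (.e (nat_lit 344133) (nat_lit 26) (.e (nat_lit 557066) (nat_lit 9) (.e (nat_lit 314) (nat_lit 23) (.e (nat_lit 352290) (nat_lit 20) .nil))))))) (.g (nat_lit 6) .nil .nil)))))))) 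
(.nd (nat_lit 1) (.nd (nat_lit 2) (.nd (nat_lit 3) (.nd (nat_lit 4) (.nd (nat_lit 5) 
(.lf (nat_lit 79489) (.g (nat_lit 342) (.e (nat_lit 1841) (nat_lit 123) (.e (nat_lit 548889) (nat_lit 9) (.e (nat_lit 65585) (nat_lit 7) .nil))) .nil)) 
(.lf (nat_lit 79521) (.g (nat_lit 2569) (.e (nat_lit 1841) (nat_lit 123) (.e (nat_lit 548889) (nat_lit 9) (.e (nat_lit 65611) (nat_lit 10) (.e (nat_lit 344126) (nat_lit 25) (.e (nat_lit 548891) (nat_lit 11) (.e (nat_lit 81942) (nat_lit 20) .nil)))))) (.g (nat_lit 6) .nil .nil)))) (.nd (nat_lit 5) 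
(.lf (nat_lit 79505) (.g (nat_lit 1752) (.e (nat_lit 1841) (nat_lit 123) (.e (nat_lit 548889) (nat_lit 9) (.e (nat_lit 65604) (nat_lit 9) (.e (nat_lit 336028) (nat_lit 3) (.e (nat_lit 98325) (nat_lit 17) .nil))))) .nil)) 
(.lf (nat_lit 79537) (.g (nat_lit 1881) (.e (nat_lit 1841) (nat_lit 123) (.e (nat_lit 548889) (nat_lit 9) (.e (nat_lit 65617) (nat_lit 10) (.e (nat_lit 344130) (nat_lit 26) (.e (nat_lit 557070) (nat_lit 9) (.e (nat_lit 7936) (nat_lit 23) (.e (nat_lit 352296) (nat_lit 20) .nil))))))) (.g (nat_lit 4) .nil .nil))))) (.nd (nat_lit 4) (.nd (nat_lit 5) 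
(.lf (nat_lit 79497) (.g (nat_lit 1896) (.e (nat_lit 1841) (nat_lit 123) (.e (nat_lit 548889) (nat_lit 9) (.e (nat_lit 65586) (nat_lit 7) (.e (nat_lit 319518) (nat_lit 12) (.e (nat_lit 32789) (nat_lit 11) (.e (nat_lit 81946) (nat_lit 20) .nil)))))) (.g (nat_lit 6) .nil .nil))) 
(.lf (nat_lit 79529) (.g (nat_lit 2751) (.e (nat_lit 1841) (nat_lit 123) (.e (nat_lit 548889) (nat_lit 9) (.e (nat_lit 65616) (nat_lit 10) (.e (nat_lit 344126) (nat_lit 25) (.e (nat_lit 548891) (nat_lit 11) (.e (nat_lit 81946) (nat_lit 20) .nil)))))) (.g (nat_lit 0) .nil .nil)))) (.nd (nat_lit 5) 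
(.lf (nat_lit 79513) (.g (nat_lit 2497) (.e (nat_lit 1841) (nat_lit 123) (.e (nat_lit 548889) (nat_lit 9) (.e (nat_lit 65610) (nat_lit 10) (.e (nat_lit 344126) (nat_lit 25) (.e (nat_lit 548891) (nat_lit 11) (.e (nat_lit 81942) (nat_lit 20) .nil)))))) (.g (nat_lit 0) .nil .nil))) 
(.lf (nat_lit 79545) (.g (nat_lit 2553) (.e (nat_lit 1841) (nat_lit 123) (.e (nat_lit 548889) (nat_lit 9) (.e (nat_lit 65617) (nat_lit 10) (.e (nat_lit 344132) (nat_lit 26) (.e (nat_lit 557072) (nat_lit 9) (.e (nat_lit 7936) (nat_lit 23) (.e (nat_lit 352291) (nat_lit 20) .nil))))))) (.g (nat_lit 5) .nil .nil)))))) (.nd (nat_lit 3) (.nd (nat_lit 4) (.nd (nat_lit 5) 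
(.lf (nat_lit 79493) (.g (nat_lit 766) (.e (nat_lit 1841) (nat_lit 123) (.e (nat_lit 548889) (nat_lit 9) (.e (nat_lit 65586) (nat_lit 7) (.e (nat_lit 319500) (nat_lit 10) .nil)))) .nil)) 
(.lf (nat_lit 79525) (.g (nat_lit 2663) (.e (nat_lit 1841) (nat_lit 123) (.e (nat_lit 548889) (nat_lit 9) (.e (nat_lit 65616) (nat_lit 10) (.e (nat_lit 344126) (nat_lit 25) (.e (nat_lit 548891) (nat_lit 11) (.e (nat_lit 81938) (nat_lit 20) .nil)))))) (.g (nat_lit 0) .nil .nil)))) (.nd (nat_lit 5) 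
(.lf (nat_lit 79509) (.g (nat_lit 3207) (.e (nat_lit 1841) (nat_lit 123) (.e (nat_lit 548889) (nat_lit 9) (.e (nat_lit 65610) (nat_lit 10) (.e (nat_lit 344117) (nat_lit 21) (.e (nat_lit 516099) (nat_lit 0) (.e (nat_lit 7936) (nat_lit 406) (.e (nat_lit 65558) (nat_lit 0) .nil))))))) (.g (nat_lit 5) .nil .nil))) 
(.lf (nat_lit 79541) (.g (nat_lit 2560) (.e (nat_lit 1841) (nat_lit 123) (.e (nat_lit 548889) (nat_lit 9) (.e (nat_lit 65617) (nat_lit 10) (.e (nat_lit 344132) (nat_lit 26) (.e (nat_lit 557070) (nat_lit 9) (.e (nat_lit 313) (nat_lit 23) (.e (nat_lit 352297) (nat_lit 20) .nil))))))) (.g (nat_lit 5) .nil .nil))))) (.nd (nat_lit 4) (.nd (nat_lit 5) 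
(.lf (nat_lit 79501) (.g (nat_lit 1189) (.e (nat_lit 1841) (nat_lit 123) (.e (nat_lit 548889) (nat_lit 9) (.e (nat_lit 65586) (nat_lit 7) (.e (nat_lit 319519) (nat_lit 12) (.e (nat_lit 40704) (nat_lit 11) .nil))))) .nil)) 
(.lf (nat_lit 79533) (.g (nat_lit 2988) (.e (nat_lit 1841) (nat_lit 123) (.e (nat_lit 548889) (nat_lit 9) (.e (nat_lit 65617) (nat_lit 10) (.e (nat_lit 344126) (nat_lit 25) (.e (nat_lit 548891) (nat_lit 11) (.e (nat_lit 81943) (nat_lit 20) .nil)))))) (.g (nat_lit 0) .nil .nil)))) (.nd (nat_lit 5) 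
(.lf (nat_lit 79517) (.g (nat_lit 2288) (.e (nat_lit 1841) (nat_lit 123) (.e (nat_lit 548889) (nat_lit 9) (.e (nat_lit 65610) (nat_lit 10) (.e (nat_lit 344129) (nat_lit 26) (.e (nat_lit 557070) (nat_lit 9) .nil))))) .nil)) 
(.lf (nat_lit 79549) (.g (nat_lit 1745) (.e (nat_lit 1841) (nat_lit 123) (.e (nat_lit 548889) (nat_lit 9) (.e (nat_lit 65617) (nat_lit 10) (.e (nat_lit 344133) (nat_lit 26) (.e (nat_lit 557064) (nat_lit 9) .nil))))) .nil)))))) (.nd (nat_lit 2) (.nd (nat_lit 3) (.nd (nat_lit 4) (.nd (nat_lit 5) 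
(.lf (nat_lit 79491) (.g (nat_lit 271) (.e (nat_lit 1841) (nat_lit 123) (.e (nat_lit 548889) (nat_lit 9) (.e (nat_lit 65586) (nat_lit 7) .nil))) .nil)) 
(.lf (nat_lit 79523) (.g (nat_lit 3014) (.e (nat_lit 1841) (nat_lit 123) (.e (nat_lit 548889) (nat_lit 9) (.e (nat_lit 65611) (nat_lit 10) (.e (nat_lit 344126) (nat_lit 25) (.e (nat_lit 548891) (nat_lit 11) (.e (nat_lit 81946) (nat_lit 20) .nil)))))) (.g (nat_lit 0) .nil .nil)))) (.nd (nat_lit 5) 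
(.lf (nat_lit 79507) (.g (nat_lit 1755) (.e (nat_lit 1841) (nat_lit 123) (.e (nat_lit 548889) (nat_lit 9) (.e (nat_lit 65604) (nat_lit 9) (.e (nat_lit 336028) (nat_lit 3) (.e (nat_lit 98325) (nat_lit 17) (.e (nat_lit 7936) (nat_lit 406) (.e (nat_lit 65558) (nat_lit 0) .nil))))))) (.g (nat_lit 4) .nil .nil))) 
(.lf (nat_lit 79539) (.g (nat_lit 2714) (.e (nat_lit 1841) (nat_lit 123) (.e (nat_lit 548889) (nat_lit 9) (.e (nat_lit 65617) (nat_lit 10) (.e (nat_lit 344130) (nat_lit 26) (.e (nat_lit 557074) (nat_lit 9) (.e (nat_lit 7936) (nat_lit 23) (.e (nat_lit 352296) (nat_lit 20) .nil))))))) (.g (nat_lit 5) .nil .nil))))) (.nd (nat_lit 4) (.nd (nat_lit 5) 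
(.lf (nat_lit 79499) (.g (nat_lit 1890) (.e (nat_lit 1841) (nat_lit 123) (.e (nat_lit 548889) (nat_lit 9) (.e (nat_lit 65586) (nat_lit 7) (.e (nat_lit 319519) (nat_lit 12) (.e (nat_lit 32789) (nat_lit 11) (.e (nat_lit 81943) (nat_lit 20) .nil)))))) (.g (nat_lit 0) .nil .nil))) 
(.lf (nat_lit 79531) (.g (nat_lit 2733) (.e (nat_lit 1841) (nat_lit 123) (.e (nat_lit 548889) (nat_lit 9) (.e (nat_lit 65617) (nat_lit 10) (.e (nat_lit 344126) (nat_lit 25) (.e (nat_lit 548891) (nat_lit 11) (.e (nat_lit 81939) (nat_lit 20) .nil)))))) (.g (nat_lit 0) .nil .nil)))) (.nd (nat_lit 5) 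
(.lf (nat_lit 79515) (.g (nat_lit 2530) (.e (nat_lit 1841) (nat_lit 123) (.e (nat_lit 548889) (nat_lit 9) (.e (nat_lit 65610) (nat_lit 10) (.e (nat_lit 344129) (nat_lit 26) (.e (nat_lit 557067) (nat_lit 9) (.e (nat_lit 7936) (nat_lit 23) (.e (nat_lit 352291) (nat_lit 20) .nil))))))) (.g (nat_lit 5) .nil .nil))) 
(.lf (nat_lit 79547) (.g (nat_lit 1707) (.e (nat_lit 1841) (nat_lit 123) (.e (nat_lit 548889) (nat_lit 9) (.e (nat_lit 65617) (nat_lit 10) (.e (nat_lit 344132) (nat_lit 26) (.e (nat_lit 557073) (nat_lit 9) .nil))))) .nil))))) (.nd (nat_lit 3) (.nd (nat_lit 4) (.nd (nat_lit 5) 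
(.lf (nat_lit 79495) (.g (nat_lit 1431) (.e (nat_lit 1841) (nat_lit 123) (.e (nat_lit 548889) (nat_lit 9) (.e (nat_lit 65586) (nat_lit 7) (.e (nat_lit 319518) (nat_lit 12) (.e (nat_lit 32789) (nat_lit 11) (.e (nat_lit 81939) (nat_lit 20) .nil)))))) (.g (nat_lit 5) .nil .nil))) 
(.lf (nat_lit 79527) (.g (nat_lit 2306) (.e (nat_lit 1841) (nat_lit 123) (.e (nat_lit 548889) (nat_lit 9) (.e (nat_lit 65616) (nat_lit 10) (.e (nat_lit 344126) (nat_lit 25) (.e (nat_lit 548891) (nat_lit 11) (.e (nat_lit 81942) (nat_lit 20) .nil)))))) (.g (nat_lit 6) .nil .nil)))) (.nd (nat_lit 5) 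
(.lf (nat_lit 79511) (.g (nat_lit 4284) (.e (nat_lit 1841) (nat_lit 123) (.e (nat_lit 548889) (nat_lit 9) (.e (nat_lit 65610) (nat_lit 10) (.e (nat_lit 344117) (nat_lit 21) (.e (nat_lit 516185) (nat_lit 16) (.e (nat_lit 491551) (nat_lit 9) (.e (nat_lit 335928) (nat_lit 0) .nil))))))) (.g (nat_lit 6) .nil .nil))) 
(.lf (nat_lit 79543) (.g (nat_lit 2529) (.e (nat_lit 1841) (nat_lit 123) (.e (nat_lit 548889) (nat_lit 9) (.e (nat_lit 65617) (nat_lit 10) (.e (nat_lit 344132) (nat_lit 26) (.e (nat_lit 557070) (nat_lit 9) (.e (nat_lit 7936) (nat_lit 23) (.e (nat_lit 352297) (nat_lit 20) .nil))))))) (.g (nat_lit 5) .nil .nil))))) (.nd (nat_lit 4) (.nd (nat_lit 5) 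
(.lf (nat_lit 79503) (.g (nat_lit 1745) (.e (nat_lit 1841) (nat_lit 123) (.e (nat_lit 548889) (nat_lit 9) (.e (nat_lit 65598) (nat_lit 9) (.e (nat_lit 336028) (nat_lit 3) (.e (nat_lit 98325) (nat_lit 17) (.e (nat_lit 6986) (nat_lit 377) (.e (nat_lit 2781) (nat_lit 178) (.e (nat_lit 286728) (nat_lit 0) .nil)))))))) (.g (nat_lit 4) .nil .nil))) 
(.lf (nat_lit 79535) (.g (nat_lit 944) (.e (nat_lit 1841) (nat_lit 123) (.e (nat_lit 548889) (nat_lit 9) (.e (nat_lit 65617) (nat_lit 10) (.e (nat_lit 344130) (nat_lit 26) .nil)))) .nil))) (.nd (nat_lit 5) 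
(.lf (nat_lit 79519) (.g (nat_lit 2953) (.e (nat_lit 1841) (nat_lit 123) (.e (nat_lit 548889) (nat_lit 9) (.e (nat_lit 65611) (nat_lit 10) (.e (nat_lit 344126) (nat_lit 25) (.e (nat_lit 548891) (nat_lit 11) (.e (nat_lit 81938) (nat_lit 20) .nil)))))) (.g (nat_lit 6) .nil .nil))) 
(.lf (nat_lit 79551) (.g (nat_lit 3308) (.e (nat_lit 1841) (nat_lit 123) (.e (nat_lit 548889) (nat_lit 9) (.e (nat_lit 65617) (nat_lit 10) (.e (nat_lit 344133) (nat_lit 26) (.e (nat_lit 557066) (nat_lit 9) (.e (nat_lit 314) (nat_lit 23) (.e (nat_lit 352297) (nat_lit 20) .nil))))))) (.g (nat_lit 6) .nil .nil)))))))))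

noncomputable def tv1076 : DT := (.nd (nat_lit 0) (.nd (nat_lit 1) (.nd (nat_lit 2) (.nd (nat_lit 3) (.nd (nat_lit 4) (.nd (nat_lit 5) 
(.lf (nat_lit 79552) (.g (nat_lit 2594) (.e (nat_lit 1841) (nat_lit 123) (.e (nat_lit 548889) (nat_lit 9) (.e (nat_lit 65617) (nat_lit 10) (.e (nat_lit 344133) (nat_lit 26) (.e (nat_lit 557068) (nat_lit 9) (.e (nat_lit 7936) (nat_lit 23) (.e (nat_lit 352291) (nat_lit 20) .nil))))))) (.g (nat_lit 5) .nil .nil))) 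
(.lf (nat_lit 79584) (.g (nat_lit 3298) (.e (nat_lit 1841) (nat_lit 123) (.e (nat_lit 548889) (nat_lit 9) (.e (nat_lit 65624) (nat_lit 12) (.e (nat_lit 385074) (nat_lit 31) (.e (nat_lit 573491) (nat_lit 15) (.e (nat_lit 81942) (nat_lit 20) .nil)))))) (.g (nat_lit 4) .nil .nil)))) (.nd (nat_lit 5) 
(.lf (nat_lit 79568) (.g (nat_lit 2439) (.e (nat_lit 1841) (nat_lit 123) (.e (nat_lit 548889) (nat_lit 9) (.e (nat_lit 65619) (nat_lit 10) (.e (nat_lit 344129) (nat_lit 26) (.e (nat_lit 557074) (nat_lit 9) (.e (nat_lit 7936) (nat_lit 23) (.e (nat_lit 352296) (nat_lit 20) .nil))))))) (.g (nat_lit 4) .nil .nil))) 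
(.lf (nat_lit 79600) (.g (nat_lit 813) (.e (nat_lit 1841) (nat_lit 123) (.e (nat_lit 548889) (nat_lit 9) (.e (nat_lit 65629) (nat_lit 14) (.e (nat_lit 401412) (nat_lit 0) .nil)))) .nil)))) (.nd (nat_lit 4) (.nd (nat_lit 5) 
(.lf (nat_lit 79560) (.g (nat_lit 2745) (.e (nat_lit 1841) (nat_lit 123) (.e (nat_lit 548889) (nat_lit 9) (.e (nat_lit 65619) (nat_lit 10) (.e (nat_lit 344126) (nat_lit 25) (.e (nat_lit 548891) (nat_lit 11) (.e (nat_lit 81939) (nat_lit 20) .nil)))))) (.g (nat_lit 5) .nil .nil))) 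
(.lf (nat_lit 79592) (.g (nat_lit 2922) (.e (nat_lit 1841) (nat_lit 123) (.e (nat_lit 548889) (nat_lit 9) (.e (nat_lit 65628) (nat_lit 14) (.e (nat_lit 401424) (nat_lit 2) (.e (nat_lit 196672) (nat_lit 15) (.e (nat_lit 81943) (nat_lit 20) .nil)))))) (.g (nat_lit 5) .nil .nil)))) (.nd (nat_lit 5) 
(.lf (nat_lit 79576) (.g (nat_lit 2987) (.e (nat_lit 1841) (nat_lit 123) (.e (nat_lit 548889) (nat_lit 9) (.e (nat_lit 65622) (nat_lit 12) (.e (nat_lit 385074) (nat_lit 31) (.e (nat_lit 573493) (nat_lit 15) (.e (nat_lit 81947) (nat_lit 20) .nil)))))) (.g (nat_lit 5) .nil .nil))) 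
(.lf (nat_lit 79608) (.g (nat_lit 4578) (.e (nat_lit 1841) (nat_lit 123) (.e (nat_lit 548889) (nat_lit 9) (.e (nat_lit 65629) (nat_lit 14) (.e (nat_lit 401425) (nat_lit 2) (.e (nat_lit 196674) (nat_lit 15) (.e (nat_lit 81946) (nat_lit 20) .nil)))))) (.g (nat_lit 6) .nil .nil)))))) (.nd (nat_lit 3) (.nd (nat_lit 4) (.nd (nat_lit 5) 
(.lf (nat_lit 79556) (.g (nat_lit 1982) (.e (nat_lit 1841) (nat_lit 123) (.e (nat_lit 548889) (nat_lit 9) (.e (nat_lit 65619) (nat_lit 10) (.e (nat_lit 344117) (nat_lit 21) (.e (nat_lit 516185) (nat_lit 16) (.e (nat_lit 491552) (nat_lit 9) (.e (nat_lit 335886) (nat_lit 0) .nil))))))) (.g (nat_lit 4) .nil .nil))) 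
(.lf (nat_lit 79588) (.g (nat_lit 3390) (.e (nat_lit 1841) (nat_lit 123) (.e (nat_lit 548889) (nat_lit 9) (.e (nat_lit 65624) (nat_lit 12) (.e (nat_lit 385074) (nat_lit 31) (.e (nat_lit 573493) (nat_lit 15) (.e (nat_lit 81947) (nat_lit 20) .nil)))))) (.g (nat_lit 5) .nil .nil)))) (.nd (nat_lit 5) 
(.lf (nat_lit 79572) (.g (nat_lit 2481) (.e (nat_lit 1841) (nat_lit 123) (.e (nat_lit 548889) (nat_lit 9) (.e (nat_lit 65620) (nat_lit 10) (.e (nat_lit 344126) (nat_lit 25) (.e (nat_lit 548891) (nat_lit 11) (.e (nat_lit 81942) (nat_lit 20) .nil)))))) (.g (nat_lit 6) .nil .nil))) 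
(.lf (nat_lit 79604) (.g (nat_lit 2978) (.e (nat_lit 1841) (nat_lit 123) (.e (nat_lit 548889) (nat_lit 9) (.e (nat_lit 65629) (nat_lit 14) (.e (nat_lit 401424) (nat_lit 2) (.e (nat_lit 196674) (nat_lit 15) (.e (nat_lit 81946) (nat_lit 20) .nil)))))) (.g (nat_lit 5) .nil .nil))))) (.nd (nat_lit 4) (.nd (nat_lit 5) 
(.lf (nat_lit 79564) (.g (nat_lit 3109) (.e (nat_lit 1841) (nat_lit 123) (.e (nat_lit 548889) (nat_lit 9) (.e (nat_lit 65619) (nat_lit 10) (.e (nat_lit 344126) (nat_lit 25) (.e (nat_lit 548891) (nat_lit 11) (.e (nat_lit 81947) (nat_lit 20) .nil)))))) (.g (nat_lit 6) .nil .nil))) 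
(.lf (nat_lit 79596) (.g (nat_lit 1665) (.e (nat_lit 1841) (nat_lit 123) (.e (nat_lit 548889) (nat_lit 9) (.e (nat_lit 65628) (nat_lit 14) (.e (nat_lit 401427) (nat_lit 3) .nil)))) .nil))) (.nd (nat_lit 5) 
(.lf (nat_lit 79580) (.g (nat_lit 2660) (.e (nat_lit 1841) (nat_lit 123) (.e (nat_lit 548889) (nat_lit 9) (.e (nat_lit 65624) (nat_lit 12) (.e (nat_lit 385072) (nat_lit 31) (.e (nat_lit 573491) (nat_lit 15) (.e (nat_lit 81946) (nat_lit 20) .nil)))))) (.g (nat_lit 4) .nil .nil))) 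
(.lf (nat_lit 79612) (.g (nat_lit 2234) (.e (nat_lit 1841) (nat_lit 123) (.e (nat_lit 548889) (nat_lit 9) (.e (nat_lit 65630) (nat_lit 14) (.e (nat_lit 401412) (nat_lit 0) .nil)))) .nil)))))) (.nd (nat_lit 2) (.nd (nat_lit 3) (.nd (nat_lit 4) (.nd (nat_lit 5) 
(.lf (nat_lit 79554) (.g (nat_lit 1997) (.e (nat_lit 1841) (nat_lit 123) (.e (nat_lit 548889) (nat_lit 9) (.e (nat_lit 65619) (nat_lit 10) (.e (nat_lit 344117) (nat_lit 21) (.e (nat_lit 516106) (nat_lit 0) .nil))))) .nil)) 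
(.lf (nat_lit 79586) (.g (nat_lit 2816) (.e (nat_lit 1841) (nat_lit 123) (.e (nat_lit 548889) (nat_lit 9) (.e (nat_lit 65624) (nat_lit 12) (.e (nat_lit 385074) (nat_lit 31) (.e (nat_lit 573491) (nat_lit 15) (.e (nat_lit 81947) (nat_lit 20) .nil)))))) (.g (nat_lit 5) .nil .nil)))) (.nd (nat_lit 5) 
(.lf (nat_lit 79570) (.g (nat_lit 2881) (.e (nat_lit 1841) (nat_lit 123) (.e (nat_lit 548889) (nat_lit 9) (.e (nat_lit 65620) (nat_lit 10) (.e (nat_lit 344126) (nat_lit 25) (.e (nat_lit 548891) (nat_lit 11) (.e (nat_lit 81938) (nat_lit 20) .nil)))))) (.g (nat_lit 6) .nil .nil))) 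
(.lf (nat_lit 79602) (.g (nat_lit 1312) (.e (nat_lit 1841) (nat_lit 123) (.e (nat_lit 548889) (nat_lit 9) (.e (nat_lit 65629) (nat_lit 14) (.e (nat_lit 401418) (nat_lit 0) (.e (nat_lit 3141) (nat_lit 193) .nil))))) .nil)))) (.nd (nat_lit 4) (.nd (nat_lit 5) 
(.lf (nat_lit 79562) (.g (nat_lit 3044) (.e (nat_lit 1841) (nat_lit 123) (.e (nat_lit 548889) (nat_lit 9) (.e (nat_lit 65619) (nat_lit 10) (.e (nat_lit 344126) (nat_lit 25) (.e (nat_lit 548891) (nat_lit 11) (.e (nat_lit 81943) (nat_lit 20) .nil)))))) (.g (nat_lit 6) .nil .nil))) 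
(.lf (nat_lit 79594) (.g (nat_lit 2498) (.e (nat_lit 1841) (nat_lit 123) (.e (nat_lit 548889) (nat_lit 9) (.e (nat_lit 65628) (nat_lit 14) (.e (nat_lit 401424) (nat_lit 2) (.e (nat_lit 196674) (nat_lit 15) (.e (nat_lit 81946) (nat_lit 20) .nil)))))) (.g (nat_lit 4) .nil .nil)))) (.nd (nat_lit 5) 
(.lf (nat_lit 79578) (.g (nat_lit 3991) (.e (nat_lit 1841) (nat_lit 123) (.e (nat_lit 548889) (nat_lit 9) (.e (nat_lit 65623) (nat_lit 12) (.e (nat_lit 385074) (nat_lit 31) (.e (nat_lit 573491) (nat_lit 15) (.e (nat_lit 81946) (nat_lit 20) .nil)))))) (.g (nat_lit 0) .nil .nil))) 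
(.lf (nat_lit 79610) (.g (nat_lit 1900) (.e (nat_lit 1841) (nat_lit 123) (.e (nat_lit 548889) (nat_lit 9) (.e (nat_lit 65630) (nat_lit 14) (.e (nat_lit 401410) (nat_lit 0) .nil)))) .nil))))) (.nd (nat_lit 3) (.nd (nat_lit 4) (.nd (nat_lit 5) 
(.lf (nat_lit 79558) (.g (nat_lit 2014) (.e (nat_lit 1841) (nat_lit 123) (.e (nat_lit 548889) (nat_lit 9) (.e (nat_lit 65619) (nat_lit 10) (.e (nat_lit 344117) (nat_lit 21) (.e (nat_lit 516185) (nat_lit 16) (.e (nat_lit 491552) (nat_lit 9) (.e (nat_lit 335927) (nat_lit 0) .nil))))))) (.g (nat_lit 4) .nil .nil))) 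
(.lf (nat_lit 79590) (.g (nat_lit 1563) (.e (nat_lit 1841) (nat_lit 123) (.e (nat_lit 548889) (nat_lit 9) (.e (nat_lit 65628) (nat_lit 14) (.e (nat_lit 401412) (nat_lit 0) .nil)))) .nil))) (.nd (nat_lit 5) 
(.lf (nat_lit 79574) (.g (nat_lit 2920) (.e (nat_lit 1841) (nat_lit 123) (.e (nat_lit 548889) (nat_lit 9) (.e (nat_lit 65620) (nat_lit 10) (.e (nat_lit 344126) (nat_lit 25) (.e (nat_lit 548891) (nat_lit 11) (.e (nat_lit 81946) (nat_lit 20) .nil)))))) (.g (nat_lit 0) .nil .nil))) 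
(.lf (nat_lit 79606) (.g (nat_lit 3801) (.e (nat_lit 1841) (nat_lit 123) (.e (nat_lit 548889) (nat_lit 9) (.e (nat_lit 65629) (nat_lit 14) (.e (nat_lit 401425) (nat_lit 2) (.e (nat_lit 196672) (nat_lit 15) (.e (nat_lit 81943) (nat_lit 20) .nil)))))) (.g (nat_lit 0) .nil .nil))))) (.nd (nat_lit 4) (.nd (nat_lit 5) 
(.lf (nat_lit 79566) (.g (nat_lit 3950) (.e (nat_lit 1841) (nat_lit 123) (.e (nat_lit 548889) (nat_lit 9) (.e (nat_lit 65619) (nat_lit 10) (.e (nat_lit 344129) (nat_lit 26) (.e (nat_lit 557066) (nat_lit 9) (.e (nat_lit 314) (nat_lit 23) (.e (nat_lit 352290) (nat_lit 20) .nil))))))) (.g (nat_lit 6) .nil .nil))) 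
(.lf (nat_lit 79598) (.g (nat_lit 3157) (.e (nat_lit 1841) (nat_lit 123) (.e (nat_lit 548889) (nat_lit 9) (.e (nat_lit 65628) (nat_lit 14) (.e (nat_lit 401428) (nat_lit 3) (.e (nat_lit 204866) (nat_lit 28) (.e (nat_lit 352303) (nat_lit 20) .nil)))))) (.g (nat_lit 6) .nil .nil)))) (.nd (nat_lit 5) 
(.lf (nat_lit 79582) (.g (nat_lit 3467) (.e (nat_lit 1841) (nat_lit 123) (.e (nat_lit 548889) (nat_lit 9) (.e (nat_lit 65624) (nat_lit 12) (.e (nat_lit 385072) (nat_lit 31) (.e (nat_lit 573493) (nat_lit 15) (.e (nat_lit 81939) (nat_lit 20) .nil)))))) (.g (nat_lit 4) .nil .nil))) 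
(.lf (nat_lit 79614) (.g (nat_lit 3272) (.e (nat_lit 1841) (nat_lit 123) (.e (nat_lit 548889) (nat_lit 9) (.e (nat_lit 65630) (nat_lit 14) (.e (nat_lit 401412) (nat_lit 0) (.e (nat_lit 3260) (nat_lit 198) .nil))))) .nil))))))) (.nd (nat_lit 1) (.nd (nat_lit 2) (.nd (nat_lit 3) (.nd (nat_lit 4) (.nd (nat_lit 5) 
(.lf (nat_lit 79553) (.g (nat_lit 1681) (.e (nat_lit 1841) (nat_lit 123) (.e (nat_lit 548889) (nat_lit 9) (.e (nat_lit 65617) (nat_lit 10) (.e (nat_lit 344133) (nat_lit 26) (.e (nat_lit 557091) (nat_lit 12) .nil))))) .nil)) 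
(.lf (nat_lit 79585) (.g (nat_lit 3577) (.e (nat_lit 1841) (nat_lit 123) (.e (nat_lit 548889) (nat_lit 9) (.e (nat_lit 65624) (nat_lit 12) (.e (nat_lit 385074) (nat_lit 31) (.e (nat_lit 573491) (nat_lit 15) (.e (nat_lit 81946) (nat_lit 20) .nil)))))) (.g (nat_lit 0) .nil .nil)))) (.nd (nat_lit 5) 
(.lf (nat_lit 79569) (.g (nat_lit 3146) (.e (nat_lit 1841) (nat_lit 123) (.e (nat_lit 548889) (nat_lit 9) (.e (nat_lit 65619) (nat_lit 10) (.e (nat_lit 344129) (nat_lit 26) (.e (nat_lit 557087) (nat_lit 11) (.e (nat_lit 24631) (nat_lit 9) (.e (nat_lit 335928) (nat_lit 0) .nil))))))) (.g (nat_lit 6) .nil .nil))) 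
(.lf (nat_lit 79601) (.g (nat_lit 1291) (.e (nat_lit 1841) (nat_lit 123) (.e (nat_lit 548889) (nat_lit 9) (.e (nat_lit 65629) (nat_lit 14) (.e (nat_lit 401412) (nat_lit 0) (.e (nat_lit 3111) (nat_lit 193) .nil))))) .nil)))) (.nd (nat_lit 4) (.nd (nat_lit 5) 
(.lf (nat_lit 79561) (.g (nat_lit 2830) (.e (nat_lit 1841) (nat_lit 123) (.e (nat_lit 548889) (nat_lit 9) (.e (nat_lit 65619) (nat_lit 10) (.e (nat_lit 344126) (nat_lit 25) (.e (nat_lit 548891) (nat_lit 11) (.e (nat_lit 81942) (nat_lit 20) .nil)))))) (.g (nat_lit 5) .nil .nil))) 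
(.lf (nat_lit 79593) (.g (nat_lit 2329) (.e (nat_lit 1841) (nat_lit 123) (.e (nat_lit 548889) (nat_lit 9) (.e (nat_lit 65628) (nat_lit 14) (.e (nat_lit 401424) (nat_lit 2) (.e (nat_lit 196673) (nat_lit 15) .nil))))) .nil))) (.nd (nat_lit 5) 
(.lf (nat_lit 79577) (.g (nat_lit 1400) (.e (nat_lit 1841) (nat_lit 123) (.e (nat_lit 548889) (nat_lit 9) (.e (nat_lit 65623) (nat_lit 12) (.e (nat_lit 385073) (nat_lit 31) (.e (nat_lit 573491) (nat_lit 15) .nil))))) .nil)) 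
(.lf (nat_lit 79609) (.g (nat_lit 245) (.e (nat_lit 1841) (nat_lit 123) (.e (nat_lit 548889) (nat_lit 9) (.e (nat_lit 65630) (nat_lit 14) .nil))) .nil))))) (.nd (nat_lit 3) (.nd (nat_lit 4) (.nd (nat_lit 5) 
(.lf (nat_lit 79557) (.g (nat_lit 2024) (.e (nat_lit 1841) (nat_lit 123) (.e (nat_lit 548889) (nat_lit 9) (.e (nat_lit 65619) (nat_lit 10) (.e (nat_lit 344117) (nat_lit 21) (.e (nat_lit 516185) (nat_lit 16) (.e (nat_lit 491552) (nat_lit 9) (.e (nat_lit 335924) (nat_lit 0) .nil))))))) (.g (nat_lit 4) .nil .nil))) 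
(.lf (nat_lit 79589) (.g (nat_lit 1665) (.e (nat_lit 1841) (nat_lit 123) (.e (nat_lit 548889) (nat_lit 9) (.e (nat_lit 65628) (nat_lit 14) (.e (nat_lit 401411) (nat_lit 0) .nil)))) .nil))) (.nd (nat_lit 5) 
(.lf (nat_lit 79573) (.g (nat_lit 2671) (.e (nat_lit 1841) (nat_lit 123) (.e (nat_lit 548889) (nat_lit 9) (.e (nat_lit 65620) (nat_lit 10) (.e (nat_lit 344126) (nat_lit 25) (.e (nat_lit 548891) (nat_lit 11) (.e (nat_lit 81943) (nat_lit 20) .nil)))))) (.g (nat_lit 0) .nil .nil))) 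
(.lf (nat_lit 79605) (.g (nat_lit 3113) (.e (nat_lit 1841) (nat_lit 123) (.e (nat_lit 548889) (nat_lit 9) (.e (nat_lit 65629) (nat_lit 14) (.e (nat_lit 401424) (nat_lit 2) (.e (nat_lit 196674) (nat_lit 15) (.e (nat_lit 81947) (nat_lit 20) .nil)))))) (.g (nat_lit 5) .nil .nil))))) (.nd (nat_lit 4) (.nd (nat_lit 5) 
(.lf (nat_lit 79565) (.g (nat_lit 1942) (.e (nat_lit 1841) (nat_lit 123) (.e (nat_lit 548889) (nat_lit 9) (.e (nat_lit 65619) (nat_lit 10) (.e (nat_lit 344126) (nat_lit 25) (.e (nat_lit 556800) (nat_lit 11) .nil))))) .nil)) 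
(.lf (nat_lit 79597) (.g (nat_lit 2699) (.e (nat_lit 1841) (nat_lit 123) (.e (nat_lit 548889) (nat_lit 9) (.e (nat_lit 65628) (nat_lit 14) (.e (nat_lit 401428) (nat_lit 3) (.e (nat_lit 204866) (nat_lit 28) (.e (nat_lit 352302) (nat_lit 20) .nil)))))) (.g (nat_lit 5) .nil .nil)))) (.nd (nat_lit 5) 
(.lf (nat_lit 79581) (.g (nat_lit 3895) (.e (nat_lit 1841) (nat_lit 123) (.e (nat_lit 548889) (nat_lit 9) (.e (nat_lit 65624) (nat_lit 12) (.e (nat_lit 385072) (nat_lit 31) (.e (nat_lit 573492) (nat_lit 15) (.e (nat_lit 81939) (nat_lit 20) .nil)))))) (.g (nat_lit 4) .nil .nil))) 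
(.lf (nat_lit 79613) (.g (nat_lit 3274) (.e (nat_lit 1841) (nat_lit 123) (.e (nat_lit 548889) (nat_lit 9) (.e (nat_lit 65630) (nat_lit 14) (.e (nat_lit 401412) (nat_lit 0) (.e (nat_lit 3111) (nat_lit 193) .nil))))) .nil)))))) (.nd (nat_lit 2) (.nd (nat_lit 3) (.nd (nat_lit 4) (.nd (nat_lit 5) 
(.lf (nat_lit 79555) (.g (nat_lit 3932) (.e (nat_lit 1841) (nat_lit 123) (.e (nat_lit 548889) (nat_lit 9) (.e (nat_lit 65619) (nat_lit 10) (.e (nat_lit 344117) (nat_lit 21) (.e (nat_lit 516185) (nat_lit 16) (.e (nat_lit 491551) (nat_lit 9) (.e (nat_lit 335928) (nat_lit 0) .nil))))))) (.g (nat_lit 5) .nil .nil))) 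
(.lf (nat_lit 79587) (.g (nat_lit 3135) (.e (nat_lit 1841) (nat_lit 123) (.e (nat_lit 548889) (nat_lit 9) (.e (nat_lit 65624) (nat_lit 12) (.e (nat_lit 385074) (nat_lit 31) (.e (nat_lit 573493) (nat_lit 15) (.e (nat_lit 81939) (nat_lit 20) .nil)))))) (.g (nat_lit 4) .nil .nil)))) (.nd (nat_lit 5) 
(.lf (nat_lit 79571) (.g (nat_lit 2466) (.e (nat_lit 1841) (nat_lit 123) (.e (nat_lit 548889) (nat_lit 9) (.e (nat_lit 65620) (nat_lit 10) (.e (nat_lit 344126) (nat_lit 25) (.e (nat_lit 548891) (nat_lit 11) (.e (nat_lit 81939) (nat_lit 20) .nil)))))) (.g (nat_lit 0) .nil .nil))) 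
(.lf (nat_lit 79603) (.g (nat_lit 2940) (.e (nat_lit 1841) (nat_lit 123) (.e (nat_lit 548889) (nat_lit 9) (.e (nat_lit 65629) (nat_lit 14) (.e (nat_lit 401423) (nat_lit 2) (.e (nat_lit 196672) (nat_lit 15) (.e (nat_lit 81943) (nat_lit 20) .nil)))))) (.g (nat_lit 6) .nil .nil))))) (.nd (nat_lit 4) (.nd (nat_lit 5) 
(.lf (nat_lit 79563) (.g (nat_lit 3319) (.e (nat_lit 1841) (nat_lit 123) (.e (nat_lit 548889) (nat_lit 9) (.e (nat_lit 65619) (nat_lit 10) (.e (nat_lit 344126) (nat_lit 25) (.e (nat_lit 548891) (nat_lit 11) (.e (nat_lit 81946) (nat_lit 20) .nil)))))) (.g (nat_lit 6) .nil .nil))) 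
(.lf (nat_lit 79595) (.g (nat_lit 3913) (.e (nat_lit 1841) (nat_lit 123) (.e (nat_lit 548889) (nat_lit 9) (.e (nat_lit 65628) (nat_lit 14) (.e (nat_lit 401425) (nat_lit 2) (.e (nat_lit 196674) (nat_lit 15) (.e (nat_lit 81946) (nat_lit 20) .nil)))))) (.g (nat_lit 0) .nil .nil)))) (.nd (nat_lit 5) 
(.lf (nat_lit 79579) (.g (nat_lit 4241) (.e (nat_lit 1841) (nat_lit 123) (.e (nat_lit 548889) (nat_lit 9) (.e (nat_lit 65623) (nat_lit 12) (.e (nat_lit 385074) (nat_lit 31) (.e (nat_lit 573493) (nat_lit 15) (.e (nat_lit 81938) (nat_lit 20) .nil)))))) (.g (nat_lit 0) .nil .nil))) 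
(.lf (nat_lit 79611) (.g (nat_lit 2674) (.e (nat_lit 1841) (nat_lit 123) (.e (nat_lit 548889) (nat_lit 9) (.e (nat_lit 65630) (nat_lit 14) (.e (nat_lit 401411) (nat_lit 0) (.e (nat_lit 3114) (nat_lit 193) .nil))))) .nil))))) (.nd (nat_lit 3) (.nd (nat_lit 4) (.nd (nat_lit 5) 
(.lf (nat_lit 79559) (.g (nat_lit 3091) (.e (nat_lit 1841) (nat_lit 123) (.e (nat_lit 548889) (nat_lit 9) (.e (nat_lit 65619) (nat_lit 10) (.e (nat_lit 344126) (nat_lit 25) (.e (nat_lit 548891) (nat_lit 11) (.e (nat_lit 81938) (nat_lit 20) .nil)))))) (.g (nat_lit 6) .nil .nil))) 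
(.lf (nat_lit 79591) (.g (nat_lit 2426) (.e (nat_lit 1841) (nat_lit 123) (.e (nat_lit 548889) (nat_lit 9) (.e (nat_lit 65628) (nat_lit 14) (.e (nat_lit 401423) (nat_lit 2) (.e (nat_lit 196672) (nat_lit 15) .nil))))) .nil))) (.nd (nat_lit 5) 
(.lf (nat_lit 79575) (.g (nat_lit 3341) (.e (nat_lit 1841) (nat_lit 123) (.e (nat_lit 548889) (nat_lit 9) (.e (nat_lit 65622) (nat_lit 12) (.e (nat_lit 385074) (nat_lit 31) (.e (nat_lit 573491) (nat_lit 15) (.e (nat_lit 81946) (nat_lit 20) .nil)))))) (.g (nat_lit 0) .nil .nil))) 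
(.lf (nat_lit 79607) (.g (nat_lit 3064) (.e (nat_lit 1841) (nat_lit 123) (.e (nat_lit 548889) (nat_lit 9) (.e (nat_lit 65629) (nat_lit 14) (.e (nat_lit 401425) (nat_lit 2) (.e (nat_lit 196673) (nat_lit 15) .nil))))) .nil)))) (.nd (nat_lit 4) (.nd (nat_lit 5) 
(.lf (nat_lit 79567) (.g (nat_lit 2024) (.e (nat_lit 1841) (nat_lit 123) (.e (nat_lit 548889) (nat_lit 9) (.e (nat_lit 65619) (nat_lit 10) (.e (nat_lit 344129) (nat_lit 26) (.e (nat_lit 557074) (nat_lit 9) .nil))))) .nil)) 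
(.lf (nat_lit 79599) (.g (nat_lit 366) (.e (nat_lit 1841) (nat_lit 123) (.e (nat_lit 548889) (nat_lit 9) (.e (nat_lit 65629) (nat_lit 14) .nil))) .nil))) (.nd (nat_lit 5) 
(.lf (nat_lit 79583) (.g (nat_lit 1682) (.e (nat_lit 1841) (nat_lit 123) (.e (nat_lit 548889) (nat_lit 9) (.e (nat_lit 65624) (nat_lit 12) (.e (nat_lit 385073) (nat_lit 31) .nil)))) .nil)) 
(.lf (nat_lit 79615) (.g (nat_lit 2648) (.e (nat_lit 1841) (nat_lit 123) (.e (nat_lit 548889) (nat_lit 9) (.e (nat_lit 65630) (nat_lit 14) (.e (nat_lit 401418) (nat_lit 0) .nil)))) .nil))))))))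

noncomputable def tv1077 : DT := (.nd (nat_lit 0) (.nd (nat_lit 1) (.nd (nat_lit 2) (.nd (nat_lit 3) (.nd (nat_lit 4) (.nd (nat_lit 5) 
(.lf (nat_lit 79616) (.g (nat_lit 2974) (.e (nat_lit 1841) (nat_lit 123) (.e (nat_lit 548889) (nat_lit 9) (.e (nat_lit 65630) (nat_lit 14) (.e (nat_lit 401423) (nat_lit 2) (.e (nat_lit 196672) (nat_lit 15) .nil))))) .nil)) 
(.lf (nat_lit 79648) (.g (nat_lit 2012) (.e (nat_lit 1841) (nat_lit 123) (.e (nat_lit 548891) (nat_lit 11) (.e (nat_lit 81939) (nat_lit 20) (.e (nat_lit 1841) (nat_lit 123) (.e (nat_lit 548891) (nat_lit 11) (.e (nat_lit 81946) (nat_lit 20) .nil)))))) (.g (nat_lit 0) .nil .nil)))) (.nd (nat_lit 5) 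
(.lf (nat_lit 79632) (.g (nat_lit 1895) (.e (nat_lit 1841) (nat_lit 123) (.e (nat_lit 548891) (nat_lit 11) (.e (nat_lit 81923) (nat_lit 0) (.e (nat_lit 3305) (nat_lit 202) (.e (nat_lit 573491) (nat_lit 15) (.e (nat_lit 81946) (nat_lit 20) .nil)))))) (.g (nat_lit 4) .nil .nil))) 
(.lf (nat_lit 79664) (.g (nat_lit 2256) (.e (nat_lit 1841) (nat_lit 123) (.e (nat_lit 548891) (nat_lit 11) (.e (nat_lit 81946) (nat_lit 20) (.e (nat_lit 1842) (nat_lit 123) (.e (nat_lit 548891) (nat_lit 11) (.e (nat_lit 81939) (nat_lit 20) .nil)))))) (.g (nat_lit 0) .nil .nil))))) (.nd (nat_lit 4) (.nd (nat_lit 5) 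
(.lf (nat_lit 79624) (.g (nat_lit 1203) (.e (nat_lit 1841) (nat_lit 123) (.e (nat_lit 548889) (nat_lit 9) (.e (nat_lit 65630) (nat_lit 14) (.e (nat_lit 401428) (nat_lit 3) .nil)))) .nil)) 
(.lf (nat_lit 79656) (.g (nat_lit 1818) (.e (nat_lit 1841) (nat_lit 123) (.e (nat_lit 548891) (nat_lit 11) (.e (nat_lit 81942) (nat_lit 20) (.e (nat_lit 1842) (nat_lit 123) (.e (nat_lit 548891) (nat_lit 11) (.e (nat_lit 81942) (nat_lit 20) .nil)))))) (.g (nat_lit 5) .nil .nil)))) (.nd (nat_lit 5) 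
(.lf (nat_lit 79640) (.g (nat_lit 2686) (.e (nat_lit 1841) (nat_lit 123) (.e (nat_lit 548891) (nat_lit 11) (.e (nat_lit 81938) (nat_lit 20) (.e (nat_lit 1842) (nat_lit 123) (.e (nat_lit 548891) (nat_lit 11) (.e (nat_lit 81938) (nat_lit 20) .nil)))))) (.g (nat_lit 6) .nil .nil))) 
(.lf (nat_lit 79672) (.g (nat_lit 2673) (.e (nat_lit 1841) (nat_lit 123) (.e (nat_lit 548891) (nat_lit 11) (.e (nat_lit 81956) (nat_lit 23) (.e (nat_lit 98320) (nat_lit 17) .nil)))) .nil))))) (.nd (nat_lit 3) (.nd (nat_lit 4) (.nd (nat_lit 5) 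
(.lf (nat_lit 79620) (.g (nat_lit 3312) (.e (nat_lit 1841) (nat_lit 123) (.e (nat_lit 548889) (nat_lit 9) (.e (nat_lit 65630) (nat_lit 14) (.e (nat_lit 401425) (nat_lit 2) (.e (nat_lit 196673) (nat_lit 15) (.e (nat_lit 81938) (nat_lit 20) .nil)))))) (.g (nat_lit 5) .nil .nil))) 
(.lf (nat_lit 79652) (.g (nat_lit 1961) (.e (nat_lit 1841) (nat_lit 123) (.e (nat_lit 548891) (nat_lit 11) (.e (nat_lit 81942) (nat_lit 20) (.e (nat_lit 1841) (nat_lit 123) (.e (nat_lit 548891) (nat_lit 11) (.e (nat_lit 81943) (nat_lit 20) .nil)))))) (.g (nat_lit 6) .nil .nil)))) (.nd (nat_lit 5) 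
(.lf (nat_lit 79636) (.g (nat_lit 1997) (.e (nat_lit 1841) (nat_lit 123) (.e (nat_lit 548891) (nat_lit 11) (.e (nat_lit 81938) (nat_lit 20) (.e (nat_lit 1841) (nat_lit 123) (.e (nat_lit 548891) (nat_lit 11) (.e (nat_lit 81939) (nat_lit 20) .nil)))))) (.g (nat_lit 5) .nil .nil))) 
(.lf (nat_lit 79668) (.g (nat_lit 2379) (.e (nat_lit 1841) (nat_lit 123) (.e (nat_lit 548891) (nat_lit 11) (.e (nat_lit 81947) (nat_lit 20) (.e (nat_lit 1841) (nat_lit 123) (.e (nat_lit 548891) (nat_lit 11) (.e (nat_lit 81946) (nat_lit 20) .nil)))))) (.g (nat_lit 0) .nil .nil))))) (.nd (nat_lit 4) (.nd (nat_lit 5) 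
(.lf (nat_lit 79628) (.g (nat_lit 1503) (.e (nat_lit 1841) (nat_lit 123) (.e (nat_lit 548890) (nat_lit 10) (.e (nat_lit 73789) (nat_lit 45) (.e (nat_lit 1139) (nat_lit 84) (.e (nat_lit 32789) (nat_lit 11) (.e (nat_lit 81947) (nat_lit 20) .nil)))))) (.g (nat_lit 6) .nil .nil))) 
(.lf (nat_lit 79660) (.g (nat_lit 2078) (.e (nat_lit 1841) (nat_lit 123) (.e (nat_lit 548891) (nat_lit 11) (.e (nat_lit 81943) (nat_lit 20) (.e (nat_lit 1842) (nat_lit 123) (.e (nat_lit 548891) (nat_lit 11) (.e (nat_lit 81939) (nat_lit 20) .nil)))))) (.g (nat_lit 0) .nil .nil)))) (.nd (nat_lit 5) 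
(.lf (nat_lit 79644) (.g (nat_lit 2635) (.e (nat_lit 1841) (nat_lit 123) (.e (nat_lit 548891) (nat_lit 11) (.e (nat_lit 81938) (nat_lit 20) (.e (nat_lit 1842) (nat_lit 123) (.e (nat_lit 548891) (nat_lit 11) (.e (nat_lit 81946) (nat_lit 20) .nil)))))) (.g (nat_lit 6) .nil .nil))) 
(.lf (nat_lit 79676) (.g (nat_lit 1509) (.e (nat_lit 1841) (nat_lit 123) (.e (nat_lit 548900) (nat_lit 14) (.e (nat_lit 284) (nat_lit 21) (.e (nat_lit 336215) (nat_lit 13) (.e (nat_lit 401152) (nat_lit 7) .nil))))) .nil)))))) (.nd (nat_lit 2) (.nd (nat_lit 3) (.nd (nat_lit 4) (.nd (nat_lit 5) 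
(.lf (nat_lit 79618) (.g (nat_lit 2903) (.e (nat_lit 1841) (nat_lit 123) (.e (nat_lit 548889) (nat_lit 9) (.e (nat_lit 65630) (nat_lit 14) (.e (nat_lit 401424) (nat_lit 2) (.e (nat_lit 196672) (nat_lit 15) .nil))))) .nil)) 
(.lf (nat_lit 79650) (.g (nat_lit 1947) (.e (nat_lit 1841) (nat_lit 123) (.e (nat_lit 548891) (nat_lit 11) (.e (nat_lit 81939) (nat_lit 20) (.e (nat_lit 1842) (nat_lit 123) (.e (nat_lit 548891) (nat_lit 11) (.e (nat_lit 81939) (nat_lit 20) .nil)))))) (.g (nat_lit 0) .nil .nil)))) (.nd (nat_lit 5) 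
(.lf (nat_lit 79634) (.g (nat_lit 2160) (.e (nat_lit 1841) (nat_lit 123) (.e (nat_lit 548891) (nat_lit 11) (.e (nat_lit 81924) (nat_lit 0) (.e (nat_lit 3305) (nat_lit 202) (.e (nat_lit 573491) (nat_lit 15) (.e (nat_lit 81947) (nat_lit 20) .nil)))))) (.g (nat_lit 5) .nil .nil))) 
(.lf (nat_lit 79666) (.g (nat_lit 2667) (.e (nat_lit 1841) (nat_lit 123) (.e (nat_lit 548891) (nat_lit 11) (.e (nat_lit 81946) (nat_lit 20) (.e (nat_lit 1842) (nat_lit 123) (.e (nat_lit 548891) (nat_lit 11) (.e (nat_lit 81946) (nat_lit 20) .nil)))))) (.g (nat_lit 0) .nil .nil))))) (.nd (nat_lit 4) (.nd (nat_lit 5) 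
(.lf (nat_lit 79626) (.g (nat_lit 3274) (.e (nat_lit 1841) (nat_lit 123) (.e (nat_lit 548889) (nat_lit 9) (.e (nat_lit 65630) (nat_lit 14) (.e (nat_lit 401428) (nat_lit 3) (.e (nat_lit 204866) (nat_lit 28) (.e (nat_lit 352303) (nat_lit 20) .nil)))))) (.g (nat_lit 6) .nil .nil))) 
(.lf (nat_lit 79658) (.g (nat_lit 2261) (.e (nat_lit 1841) (nat_lit 123) (.e (nat_lit 548891) (nat_lit 11) (.e (nat_lit 81942) (nat_lit 20) (.e (nat_lit 1842) (nat_lit 123) (.e (nat_lit 548891) (nat_lit 11) (.e (nat_lit 81947) (nat_lit 20) .nil)))))) (.g (nat_lit 6) .nil .nil)))) (.nd (nat_lit 5) 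
(.lf (nat_lit 79642) (.g (nat_lit 2208) (.e (nat_lit 1841) (nat_lit 123) (.e (nat_lit 548891) (nat_lit 11) (.e (nat_lit 81938) (nat_lit 20) (.e (nat_lit 1842) (nat_lit 123) (.e (nat_lit 548891) (nat_lit 11) (.e (nat_lit 81942) (nat_lit 20) .nil)))))) (.g (nat_lit 5) .nil .nil))) 
(.lf (nat_lit 79674) (.g (nat_lit 2681) (.e (nat_lit 1841) (nat_lit 123) (.e (nat_lit 548891) (nat_lit 11) (.e (nat_lit 81956) (nat_lit 23) (.e (nat_lit 98389) (nat_lit 33) .nil)))) .nil))))) (.nd (nat_lit 3) (.nd (nat_lit 4) (.nd (nat_lit 5) 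
(.lf (nat_lit 79622) (.g (nat_lit 3199) (.e (nat_lit 1841) (nat_lit 123) (.e (nat_lit 548889) (nat_lit 9) (.e (nat_lit 65630) (nat_lit 14) (.e (nat_lit 401426) (nat_lit 3) (.e (nat_lit 204866) (nat_lit 28) .nil))))) .nil)) 
(.lf (nat_lit 79654) (.g (nat_lit 2365) (.e (nat_lit 1841) (nat_lit 123) (.e (nat_lit 548891) (nat_lit 11) (.e (nat_lit 81942) (nat_lit 20) (.e (nat_lit 1842) (nat_lit 123) (.e (nat_lit 548891) (nat_lit 11) (.e (nat_lit 81938) (nat_lit 20) .nil)))))) (.g (nat_lit 6) .nil .nil)))) (.nd (nat_lit 5) 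
(.lf (nat_lit 79638) (.g (nat_lit 2348) (.e (nat_lit 1841) (nat_lit 123) (.e (nat_lit 548891) (nat_lit 11) (.e (nat_lit 81938) (nat_lit 20) (.e (nat_lit 1841) (nat_lit 123) (.e (nat_lit 548891) (nat_lit 11) (.e (nat_lit 81946) (nat_lit 20) .nil)))))) (.g (nat_lit 6) .nil .nil))) 
(.lf (nat_lit 79670) (.g (nat_lit 2422) (.e (nat_lit 1841) (nat_lit 123) (.e (nat_lit 548891) (nat_lit 11) (.e (nat_lit 81947) (nat_lit 20) (.e (nat_lit 1842) (nat_lit 123) (.e (nat_lit 548891) (nat_lit 11) (.e (nat_lit 81942) (nat_lit 20) .nil)))))) (.g (nat_lit 6) .nil .nil))))) (.nd (nat_lit 4) (.nd (nat_lit 5) 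
(.lf (nat_lit 79630) (.g (nat_lit 2169) (.e (nat_lit 1841) (nat_lit 123) (.e (nat_lit 548891) (nat_lit 11) (.e (nat_lit 81922) (nat_lit 0) (.e (nat_lit 3305) (nat_lit 202) (.e (nat_lit 573491) (nat_lit 15) (.e (nat_lit 81947) (nat_lit 20) .nil)))))) (.g (nat_lit 5) .nil .nil))) 
(.lf (nat_lit 79662) (.g (nat_lit 2410) (.e (nat_lit 1841) (nat_lit 123) (.e (nat_lit 548891) (nat_lit 11) (.e (nat_lit 81946) (nat_lit 20) (.e (nat_lit 1841) (nat_lit 123) (.e (nat_lit 548891) (nat_lit 11) (.e (nat_lit 81946) (nat_lit 20) .nil)))))) (.g (nat_lit 0) .nil .nil)))) (.nd (nat_lit 5) 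
(.lf (nat_lit 79646) (.g (nat_lit 1608) (.e (nat_lit 1841) (nat_lit 123) (.e (nat_lit 548891) (nat_lit 11) (.e (nat_lit 81939) (nat_lit 20) (.e (nat_lit 1841) (nat_lit 123) (.e (nat_lit 548891) (nat_lit 11) (.e (nat_lit 81939) (nat_lit 20) .nil)))))) (.g (nat_lit 0) .nil .nil))) 
(.lf (nat_lit 79678) (.g (nat_lit 2140) (.e (nat_lit 1842) (nat_lit 123) (.e (nat_lit 548872) (nat_lit 5) (.e (nat_lit 1598) (nat_lit 111) (.e (nat_lit 360466) (nat_lit 3) (.e (nat_lit 516117) (nat_lit 1) (.e (nat_lit 164427) (nat_lit 278) (.e (nat_lit 2555) (nat_lit 159) (.e (nat_lit 24589) (nat_lit 0) .nil)))))))) (.g (nat_lit 5) .nil .nil)))))))) 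
(.nd (nat_lit 1) (.nd (nat_lit 2) (.nd (nat_lit 3) (.nd (nat_lit 4) (.nd (nat_lit 5) 
(.lf (nat_lit 79617) (.g (nat_lit 1904) (.e (nat_lit 1841) (nat_lit 123) (.e (nat_lit 548889) (nat_lit 9) (.e (nat_lit 65630) (nat_lit 14) (.e (nat_lit 401424) (nat_lit 2) .nil)))) .nil)) 
(.lf (nat_lit 79649) (.g (nat_lit 2395) (.e (nat_lit 1841) (nat_lit 123) (.e (nat_lit 548891) (nat_lit 11) (.e (nat_lit 81939) (nat_lit 20) (.e (nat_lit 1842) (nat_lit 123) (.e (nat_lit 548891) (nat_lit 11) (.e (nat_lit 81938) (nat_lit 20) .nil)))))) (.g (nat_lit 0) .nil .nil)))) (.nd (nat_lit 5) 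
(.lf (nat_lit 79633) (.g (nat_lit 2826) (.e (nat_lit 1841) (nat_lit 123) (.e (nat_lit 548891) (nat_lit 11) (.e (nat_lit 81924) (nat_lit 0) (.e (nat_lit 3305) (nat_lit 202) (.e (nat_lit 573491) (nat_lit 15) (.e (nat_lit 81946) (nat_lit 20) .nil)))))) (.g (nat_lit 0) .nil .nil))) 
(.lf (nat_lit 79665) (.g (nat_lit 2366) (.e (nat_lit 1841) (nat_lit 123) (.e (nat_lit 548891) (nat_lit 11) (.e (nat_lit 81946) (nat_lit 20) (.e (nat_lit 1842) (nat_lit 123) (.e (nat_lit 548891) (nat_lit 11) (.e (nat_lit 81942) (nat_lit 20) .nil)))))) (.g (nat_lit 6) .nil .nil))))) (.nd (nat_lit 4) (.nd (nat_lit 5) 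
(.lf (nat_lit 79625) (.g (nat_lit 2779) (.e (nat_lit 1841) (nat_lit 123) (.e (nat_lit 548889) (nat_lit 9) (.e (nat_lit 65630) (nat_lit 14) (.e (nat_lit 401428) (nat_lit 3) (.e (nat_lit 204866) (nat_lit 28) (.e (nat_lit 352302) (nat_lit 20) .nil)))))) (.g (nat_lit 5) .nil .nil))) 
(.lf (nat_lit 79657) (.g (nat_lit 2428) (.e (nat_lit 1841) (nat_lit 123) (.e (nat_lit 548891) (nat_lit 11) (.e (nat_lit 81942) (nat_lit 20) (.e (nat_lit 1842) (nat_lit 123) (.e (nat_lit 548891) (nat_lit 11) (.e (nat_lit 81946) (nat_lit 20) .nil)))))) (.g (nat_lit 0) .nil .nil)))) (.nd (nat_lit 5) 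
(.lf (nat_lit 79641) (.g (nat_lit 2274) (.e (nat_lit 1841) (nat_lit 123) (.e (nat_lit 548891) (nat_lit 11) (.e (nat_lit 81938) (nat_lit 20) (.e (nat_lit 1842) (nat_lit 123) (.e (nat_lit 548891) (nat_lit 11) (.e (nat_lit 81939) (nat_lit 20) .nil)))))) (.g (nat_lit 5) .nil .nil))) 
(.lf (nat_lit 79673) (.g (nat_lit 3344) (.e (nat_lit 1841) (nat_lit 123) (.e (nat_lit 548891) (nat_lit 11) (.e (nat_lit 81956) (nat_lit 23) (.e (nat_lit 98350) (nat_lit 24) (.e (nat_lit 417536) (nat_lit 16) .nil))))) .nil))))) (.nd (nat_lit 3) (.nd (nat_lit 4) (.nd (nat_lit 5) 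
(.lf (nat_lit 79621) (.g (nat_lit 4293) (.e (nat_lit 1841) (nat_lit 123) (.e (nat_lit 548889) (nat_lit 9) (.e (nat_lit 65630) (nat_lit 14) (.e (nat_lit 401425) (nat_lit 2) (.e (nat_lit 196674) (nat_lit 15) (.e (nat_lit 81946) (nat_lit 20) .nil)))))) (.g (nat_lit 0) .nil .nil))) 
(.lf (nat_lit 79653) (.g (nat_lit 2154) (.e (nat_lit 1841) (nat_lit 123) (.e (nat_lit 548891) (nat_lit 11) (.e (nat_lit 81942) (nat_lit 20) (.e (nat_lit 1841) (nat_lit 123) (.e (nat_lit 548891) (nat_lit 11) (.e (nat_lit 81946) (nat_lit 20) .nil)))))) (.g (nat_lit 6) .nil .nil)))) (.nd (nat_lit 5) 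
(.lf (nat_lit 79637) (.g (nat_lit 1844) (.e (nat_lit 1841) (nat_lit 123) (.e (nat_lit 548891) (nat_lit 11) (.e (nat_lit 81938) (nat_lit 20) (.e (nat_lit 1841) (nat_lit 123) (.e (nat_lit 548891) (nat_lit 11) (.e (nat_lit 81942) (nat_lit 20) .nil)))))) (.g (nat_lit 5) .nil .nil))) 
(.lf (nat_lit 79669) (.g (nat_lit 2486) (.e (nat_lit 1841) (nat_lit 123) (.e (nat_lit 548891) (nat_lit 11) (.e (nat_lit 81947) (nat_lit 20) (.e (nat_lit 1842) (nat_lit 123) (.e (nat_lit 548891) (nat_lit 11) (.e (nat_lit 81939) (nat_lit 20) .nil)))))) (.g (nat_lit 0) .nil .nil))))) (.nd (nat_lit 4) (.nd (nat_lit 5) 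
(.lf (nat_lit 79629) (.g (nat_lit 2812) (.e (nat_lit 1841) (nat_lit 123) (.e (nat_lit 548891) (nat_lit 11) (.e (nat_lit 81922) (nat_lit 0) (.e (nat_lit 3305) (nat_lit 202) (.e (nat_lit 573491) (nat_lit 15) (.e (nat_lit 81946) (nat_lit 20) .nil)))))) (.g (nat_lit 0) .nil .nil))) 
(.lf (nat_lit 79661) (.g (nat_lit 2234) (.e (nat_lit 1841) (nat_lit 123) (.e (nat_lit 548891) (nat_lit 11) (.e (nat_lit 81943) (nat_lit 20) (.e (nat_lit 1842) (nat_lit 123) (.e (nat_lit 548891) (nat_lit 11) (.e (nat_lit 81942) (nat_lit 20) .nil)))))) (.g (nat_lit 6) .nil .nil)))) (.nd (nat_lit 5) 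
(.lf (nat_lit 79645) (.g (nat_lit 2661) (.e (nat_lit 1841) (nat_lit 123) (.e (nat_lit 548891) (nat_lit 11) (.e (nat_lit 81938) (nat_lit 20) (.e (nat_lit 1842) (nat_lit 123) (.e (nat_lit 548891) (nat_lit 11) (.e (nat_lit 81947) (nat_lit 20) .nil)))))) (.g (nat_lit 6) .nil .nil))) 
(.lf (nat_lit 79677) (.g (nat_lit 2268) (.e (nat_lit 1842) (nat_lit 123) (.e (nat_lit 548872) (nat_lit 5) (.e (nat_lit 1598) (nat_lit 111) (.e (nat_lit 360466) (nat_lit 3) (.e (nat_lit 516117) (nat_lit 1) (.e (nat_lit 164427) (nat_lit 278) (.e (nat_lit 2555) (nat_lit 159) (.e (nat_lit 24588) (nat_lit 0) .nil)))))))) (.g (nat_lit 5) .nil .nil))))))) 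
(.nd (nat_lit 2) (.nd (nat_lit 3) (.nd (nat_lit 4) (.nd (nat_lit 5) 
(.lf (nat_lit 79619) (.g (nat_lit 2065) (.e (nat_lit 1841) (nat_lit 123) (.e (nat_lit 548889) (nat_lit 9) (.e (nat_lit 65630) (nat_lit 14) (.e (nat_lit 401425) (nat_lit 2) (.e (nat_lit 196672) (nat_lit 15) .nil))))) .nil)) 
(.lf (nat_lit 79651) (.g (nat_lit 2360) (.e (nat_lit 1841) (nat_lit 123) (.e (nat_lit 548891) (nat_lit 11) (.e (nat_lit 81939) (nat_lit 20) (.e (nat_lit 1842) (nat_lit 123) (.e (nat_lit 548891) (nat_lit 11) (.e (nat_lit 81946) (nat_lit 20) .nil)))))) (.g (nat_lit 0) .nil .nil)))) (.nd (nat_lit 5) 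
(.lf (nat_lit 79635) (.g (nat_lit 2294) (.e (nat_lit 1841) (nat_lit 123) (.e (nat_lit 548891) (nat_lit 11) (.e (nat_lit 81938) (nat_lit 20) (.e (nat_lit 1841) (nat_lit 123) (.e (nat_lit 548891) (nat_lit 11) (.e (nat_lit 81938) (nat_lit 20) .nil)))))) (.g (nat_lit 6) .nil .nil))) 
(.lf (nat_lit 79667) (.g (nat_lit 1980) (.e (nat_lit 1841) (nat_lit 123) (.e (nat_lit 548891) (nat_lit 11) (.e (nat_lit 81947) (nat_lit 20) (.e (nat_lit 1841) (nat_lit 123) (.e (nat_lit 548891) (nat_lit 11) (.e (nat_lit 81939) (nat_lit 20) .nil)))))) (.g (nat_lit 0) .nil .nil))))) (.nd (nat_lit 4) (.nd (nat_lit 5) 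
(.lf (nat_lit 79627) (.g (nat_lit 1001) (.e (nat_lit 1841) (nat_lit 123) (.e (nat_lit 548890) (nat_lit 10) (.e (nat_lit 73788) (nat_lit 45) (.e (nat_lit 1141) (nat_lit 84) (.e (nat_lit 32789) (nat_lit 11) (.e (nat_lit 81939) (nat_lit 20) .nil)))))) (.g (nat_lit 0) .nil .nil))) 
(.lf (nat_lit 79659) (.g (nat_lit 1782) (.e (nat_lit 1841) (nat_lit 123) (.e (nat_lit 548891) (nat_lit 11) (.e (nat_lit 81943) (nat_lit 20) (.e (nat_lit 1841) (nat_lit 123) (.e (nat_lit 548891) (nat_lit 11) (.e (nat_lit 81939) (nat_lit 20) .nil)))))) (.g (nat_lit 0) .nil .nil)))) (.nd (nat_lit 5) 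
(.lf (nat_lit 79643) (.g (nat_lit 2432) (.e (nat_lit 1841) (nat_lit 123) (.e (nat_lit 548891) (nat_lit 11) (.e (nat_lit 81938) (nat_lit 20) (.e (nat_lit 1842) (nat_lit 123) (.e (nat_lit 548891) (nat_lit 11) (.e (nat_lit 81943) (nat_lit 20) .nil)))))) (.g (nat_lit 0) .nil .nil))) 
(.lf (nat_lit 79675) (.g (nat_lit 4017) (.e (nat_lit 1841) (nat_lit 123) (.e (nat_lit 548891) (nat_lit 11) (.e (nat_lit 81956) (nat_lit 23) (.e (nat_lit 98389) (nat_lit 33) (.e (nat_lit 491551) (nat_lit 9) (.e (nat_lit 335928) (nat_lit 0) .nil)))))) (.g (nat_lit 4) .nil .nil)))))) (.nd (nat_lit 3) (.nd (nat_lit 4) (.nd (nat_lit 5) 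
(.lf (nat_lit 79623) (.g (nat_lit 2774) (.e (nat_lit 1841) (nat_lit 123) (.e (nat_lit 548889) (nat_lit 9) (.e (nat_lit 65630) (nat_lit 14) (.e (nat_lit 401427) (nat_lit 3) (.e (nat_lit 204866) (nat_lit 28) .nil))))) .nil)) 
(.lf (nat_lit 79655) (.g (nat_lit 1909) (.e (nat_lit 1841) (nat_lit 123) (.e (nat_lit 548891) (nat_lit 11) (.e (nat_lit 81942) (nat_lit 20) (.e (nat_lit 1842) (nat_lit 123) (.e (nat_lit 548891) (nat_lit 11) (.e (nat_lit 81939) (nat_lit 20) .nil)))))) (.g (nat_lit 5) .nil .nil)))) (.nd (nat_lit 5) 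
(.lf (nat_lit 79639) (.g (nat_lit 2351) (.e (nat_lit 1841) (nat_lit 123) (.e (nat_lit 548891) (nat_lit 11) (.e (nat_lit 81938) (nat_lit 20) (.e (nat_lit 1841) (nat_lit 123) (.e (nat_lit 548891) (nat_lit 11) (.e (nat_lit 81947) (nat_lit 20) .nil)))))) (.g (nat_lit 6) .nil .nil))) 
(.lf (nat_lit 79671) (.g (nat_lit 2894) (.e (nat_lit 1841) (nat_lit 123) (.e (nat_lit 548891) (nat_lit 11) (.e (nat_lit 81947) (nat_lit 20) (.e (nat_lit 1842) (nat_lit 123) (.e (nat_lit 548891) (nat_lit 11) (.e (nat_lit 81946) (nat_lit 20) .nil)))))) (.g (nat_lit 0) .nil .nil))))) (.nd (nat_lit 4) (.nd (nat_lit 5) 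
(.lf (nat_lit 79631) (.g (nat_lit 1593) (.e (nat_lit 1841) (nat_lit 123) (.e (nat_lit 548891) (nat_lit 11) (.e (nat_lit 81923) (nat_lit 0) (.e (nat_lit 3305) (nat_lit 202) (.e (nat_lit 573491) (nat_lit 15) (.e (nat_lit 81943) (nat_lit 20) .nil)))))) (.g (nat_lit 4) .nil .nil))) 
(.lf (nat_lit 79663) (.g (nat_lit 2713) (.e (nat_lit 1841) (nat_lit 123) (.e (nat_lit 548891) (nat_lit 11) (.e (nat_lit 81946) (nat_lit 20) (.e (nat_lit 1842) (nat_lit 123) (.e (nat_lit 548891) (nat_lit 11) (.e (nat_lit 81938) (nat_lit 20) .nil)))))) (.g (nat_lit 0) .nil .nil)))) (.nd (nat_lit 5) 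
(.lf (nat_lit 79647) (.g (nat_lit 1459) (.e (nat_lit 1841) (nat_lit 123) (.e (nat_lit 548891) (nat_lit 11) (.e (nat_lit 81939) (nat_lit 20) (.e (nat_lit 1841) (nat_lit 123) (.e (nat_lit 548891) (nat_lit 11) (.e (nat_lit 81942) (nat_lit 20) .nil)))))) (.g (nat_lit 5) .nil .nil))) 
(.lf (nat_lit 79679) (.g (nat_lit 1764) (.e (nat_lit 1842) (nat_lit 123) (.e (nat_lit 548872) (nat_lit 5) (.e (nat_lit 1598) (nat_lit 111) (.e (nat_lit 360466) (nat_lit 3) (.e (nat_lit 516120) (nat_lit 1) (.e (nat_lit 164427) (nat_lit 278) (.e (nat_lit 2554) (nat_lit 159) (.e (nat_lit 24589) (nat_lit 0) .nil)))))))) (.g (nat_lit 5) .nil .nil)))))))))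

noncomputable def tv1078 : DT := (.nd (nat_lit 0) (.nd (nat_lit 1) (.nd (nat_lit 2) (.nd (nat_lit 3) (.nd (nat_lit 4) (.nd (nat_lit 5) 
(.lf (nat_lit 79680) (.g (nat_lit 2425) (.e (nat_lit 1842) (nat_lit 123) (.e (nat_lit 548872) (nat_lit 5) (.e (nat_lit 1598) (nat_lit 111) (.e (nat_lit 360466) (nat_lit 3) (.e (nat_lit 516120) (nat_lit 1) (.e (nat_lit 164427) (nat_lit 278) (.e (nat_lit 2555) (nat_lit 159) (.e (nat_lit 24588) (nat_lit 0) .nil)))))))) (.g (nat_lit 5) .nil .nil))) 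
(.lf (nat_lit 79712) (.g (nat_lit 1874) (.e (nat_lit 1842) (nat_lit 123) (.e (nat_lit 548873) (nat_lit 5) (.e (nat_lit 1598) (nat_lit 111) (.e (nat_lit 360466) (nat_lit 3) (.e (nat_lit 516120) (nat_lit 1) (.e (nat_lit 164427) (nat_lit 278) (.e (nat_lit 2554) (nat_lit 159) (.e (nat_lit 24589) (nat_lit 0) .nil)))))))) (.g (nat_lit 5) .nil .nil)))) (.nd (nat_lit 5) 
(.lf (nat_lit 79696) (.g (nat_lit 2411) (.e (nat_lit 1842) (nat_lit 123) (.e (nat_lit 548873) (nat_lit 5) (.e (nat_lit 1586) (nat_lit 111) (.e (nat_lit 360475) (nat_lit 8) (.e (nat_lit 557070) (nat_lit 9) (.e (nat_lit 7936) (nat_lit 23) (.e (nat_lit 352297) (nat_lit 20) .nil))))))) (.g (nat_lit 5) .nil .nil))) 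
(.lf (nat_lit 79728) (.g (nat_lit 2008) (.e (nat_lit 1842) (nat_lit 123) (.e (nat_lit 548874) (nat_lit 5) (.e (nat_lit 1586) (nat_lit 111) (.e (nat_lit 360474) (nat_lit 8) (.e (nat_lit 557064) (nat_lit 9) .nil))))) .nil)))) (.nd (nat_lit 4) (.nd (nat_lit 5) 
(.lf (nat_lit 79688) (.g (nat_lit 1723) (.e (nat_lit 1842) (nat_lit 123) (.e (nat_lit 548872) (nat_lit 5) (.e (nat_lit 1598) (nat_lit 111) (.e (nat_lit 360473) (nat_lit 8) (.e (nat_lit 557070) (nat_lit 9) (.e (nat_lit 7936) (nat_lit 23) (.e (nat_lit 352297) (nat_lit 20) .nil))))))) (.g (nat_lit 5) .nil .nil))) 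
(.lf (nat_lit 79720) (.g (nat_lit 2495) (.e (nat_lit 1842) (nat_lit 123) (.e (nat_lit 548874) (nat_lit 5) (.e (nat_lit 1413) (nat_lit 108) (.e (nat_lit 336228) (nat_lit 14) (.e (nat_lit 401425) (nat_lit 2) (.e (nat_lit 196672) (nat_lit 15) (.e (nat_lit 81943) (nat_lit 20) .nil))))))) (.g (nat_lit 5) .nil .nil)))) (.nd (nat_lit 5) 
(.lf (nat_lit 79704) (.g (nat_lit 1690) (.e (nat_lit 1842) (nat_lit 123) (.e (nat_lit 548873) (nat_lit 5) (.e (nat_lit 1595) (nat_lit 111) (.e (nat_lit 360473) (nat_lit 8) (.e (nat_lit 557068) (nat_lit 9) (.e (nat_lit 7936) (nat_lit 23) (.e (nat_lit 352296) (nat_lit 20) .nil))))))) (.g (nat_lit 4) .nil .nil))) 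
(.lf (nat_lit 79736) (.g (nat_lit 2414) (.e (nat_lit 1842) (nat_lit 123) (.e (nat_lit 548874) (nat_lit 5) (.e (nat_lit 1586) (nat_lit 111) (.e (nat_lit 360475) (nat_lit 8) (.e (nat_lit 557070) (nat_lit 9) (.e (nat_lit 7936) (nat_lit 23) (.e (nat_lit 352296) (nat_lit 20) .nil))))))) (.g (nat_lit 4) .nil .nil)))))) (.nd (nat_lit 3) (.nd (nat_lit 4) (.nd (nat_lit 5) 
(.lf (nat_lit 79684) (.g (nat_lit 1632) (.e (nat_lit 1842) (nat_lit 123) (.e (nat_lit 548872) (nat_lit 5) (.e (nat_lit 1598) (nat_lit 111) (.e (nat_lit 360473) (nat_lit 8) (.e (nat_lit 557068) (nat_lit 9) (.e (nat_lit 7936) (nat_lit 23) (.e (nat_lit 352291) (nat_lit 20) .nil))))))) (.g (nat_lit 5) .nil .nil))) 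
(.lf (nat_lit 79716) (.g (nat_lit 1319) (.e (nat_lit 1842) (nat_lit 123) (.e (nat_lit 548873) (nat_lit 5) (.e (nat_lit 1598) (nat_lit 111) (.e (nat_lit 360473) (nat_lit 8) (.e (nat_lit 557070) (nat_lit 9) (.e (nat_lit 7936) (nat_lit 23) (.e (nat_lit 352296) (nat_lit 20) .nil))))))) (.g (nat_lit 4) .nil .nil)))) (.nd (nat_lit 5) 
(.lf (nat_lit 79700) (.g (nat_lit 2376) (.e (nat_lit 1842) (nat_lit 123) (.e (nat_lit 548873) (nat_lit 5) (.e (nat_lit 1595) (nat_lit 111) (.e (nat_lit 360471) (nat_lit 7) (.e (nat_lit 548891) (nat_lit 11) (.e (nat_lit 81943) (nat_lit 20) .nil)))))) (.g (nat_lit 0) .nil .nil))) 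
(.lf (nat_lit 79732) (.g (nat_lit 1957) (.e (nat_lit 1842) (nat_lit 123) (.e (nat_lit 548874) (nat_lit 5) (.e (nat_lit 1586) (nat_lit 111) (.e (nat_lit 360475) (nat_lit 8) (.e (nat_lit 557068) (nat_lit 9) (.e (nat_lit 7936) (nat_lit 23) (.e (nat_lit 352280) (nat_lit 20) .nil))))))) (.g (nat_lit 4) .nil .nil))))) (.nd (nat_lit 4) (.nd (nat_lit 5) 
(.lf (nat_lit 79692) (.g (nat_lit 1445) (.e (nat_lit 1842) (nat_lit 123) (.e (nat_lit 548873) (nat_lit 5) (.e (nat_lit 1586) (nat_lit 111) (.e (nat_lit 360474) (nat_lit 8) (.e (nat_lit 557073) (nat_lit 9) (.e (nat_lit 7936) (nat_lit 23) (.e (nat_lit 352303) (nat_lit 20) .nil))))))) (.g (nat_lit 4) .nil .nil))) 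
(.lf (nat_lit 79724) (.g (nat_lit 2358) (.e (nat_lit 1842) (nat_lit 123) (.e (nat_lit 548874) (nat_lit 5) (.e (nat_lit 1586) (nat_lit 111) (.e (nat_lit 360450) (nat_lit 0) (.e (nat_lit 4153) (nat_lit 249) (.e (nat_lit 171776) (nat_lit 75) (.e (nat_lit 352290) (nat_lit 20) .nil))))))) (.g (nat_lit 5) .nil .nil)))) (.nd (nat_lit 5) 
(.lf (nat_lit 79708) (.g (nat_lit 1392) (.e (nat_lit 1842) (nat_lit 123) (.e (nat_lit 548873) (nat_lit 5) (.e (nat_lit 1595) (nat_lit 111) (.e (nat_lit 360473) (nat_lit 8) (.e (nat_lit 557073) (nat_lit 9) (.e (nat_lit 7936) (nat_lit 23) (.e (nat_lit 352296) (nat_lit 20) .nil))))))) (.g (nat_lit 4) .nil .nil))) 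
(.lf (nat_lit 79740) (.g (nat_lit 3726) (.e (nat_lit 1842) (nat_lit 123) (.e (nat_lit 548874) (nat_lit 5) (.e (nat_lit 1586) (nat_lit 111) (.e (nat_lit 360475) (nat_lit 8) (.e (nat_lit 557087) (nat_lit 11) (.e (nat_lit 24631) (nat_lit 9) (.e (nat_lit 335925) (nat_lit 0) .nil))))))) (.g (nat_lit 6) .nil .nil))))))) (.nd (nat_lit 2) (.nd (nat_lit 3) (.nd (nat_lit 4) (.nd (nat_lit 5) 
(.lf (nat_lit 79682) (.g (nat_lit 2069) (.e (nat_lit 1842) (nat_lit 123) (.e (nat_lit 548872) (nat_lit 5) (.e (nat_lit 1598) (nat_lit 111) (.e (nat_lit 360471) (nat_lit 7) (.e (nat_lit 548891) (nat_lit 11) (.e (nat_lit 81943) (nat_lit 20) .nil)))))) (.g (nat_lit 0) .nil .nil))) 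
(.lf (nat_lit 79714) (.g (nat_lit 1960) (.e (nat_lit 1842) (nat_lit 123) (.e (nat_lit 548873) (nat_lit 5) (.e (nat_lit 1598) (nat_lit 111) (.e (nat_lit 360473) (nat_lit 8) (.e (nat_lit 557070) (nat_lit 9) (.e (nat_lit 313) (nat_lit 23) (.e (nat_lit 352290) (nat_lit 20) .nil))))))) (.g (nat_lit 5) .nil .nil)))) (.nd (nat_lit 5) 
(.lf (nat_lit 79698) (.g (nat_lit 3722) (.e (nat_lit 1842) (nat_lit 123) (.e (nat_lit 548873) (nat_lit 5) (.e (nat_lit 1586) (nat_lit 111) (.e (nat_lit 360475) (nat_lit 8) (.e (nat_lit 557091) (nat_lit 12) (.e (nat_lit 163844) (nat_lit 0) (.e (nat_lit 6047) (nat_lit 326) (.e (nat_lit 1199) (nat_lit 88) (.e (nat_lit 65546) (nat_lit 0) .nil))))))))) (.g (nat_lit 5) .nil .nil))) 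
(.lf (nat_lit 79730) (.g (nat_lit 2395) (.e (nat_lit 1842) (nat_lit 123) (.e (nat_lit 548874) (nat_lit 5) (.e (nat_lit 1586) (nat_lit 111) (.e (nat_lit 360475) (nat_lit 8) (.e (nat_lit 557065) (nat_lit 9) .nil))))) .nil)))) (.nd (nat_lit 4) (.nd (nat_lit 5) 
(.lf (nat_lit 79690) (.g (nat_lit 1976) (.e (nat_lit 1842) (nat_lit 123) (.e (nat_lit 548873) (nat_lit 5) (.e (nat_lit 1586) (nat_lit 111) (.e (nat_lit 360450) (nat_lit 0) (.e (nat_lit 4153) (nat_lit 249) (.e (nat_lit 171776) (nat_lit 75) (.e (nat_lit 352290) (nat_lit 20) .nil))))))) (.g (nat_lit 5) .nil .nil))) 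
(.lf (nat_lit 79722) (.g (nat_lit 3332) (.e (nat_lit 1842) (nat_lit 123) (.e (nat_lit 548874) (nat_lit 5) (.e (nat_lit 1575) (nat_lit 110) (.e (nat_lit 352262) (nat_lit 0) (.e (nat_lit 3305) (nat_lit 202) (.e (nat_lit 573491) (nat_lit 15) (.e (nat_lit 81946) (nat_lit 20) .nil))))))) (.g (nat_lit 0) .nil .nil)))) (.nd (nat_lit 5) 
(.lf (nat_lit 79706) (.g (nat_lit 1993) (.e (nat_lit 1842) (nat_lit 123) (.e (nat_lit 548873) (nat_lit 5) (.e (nat_lit 1595) (nat_lit 111) (.e (nat_lit 360473) (nat_lit 8) (.e (nat_lit 557068) (nat_lit 9) (.e (nat_lit 7936) (nat_lit 23) (.e (nat_lit 352302) (nat_lit 20) .nil))))))) (.g (nat_lit 4) .nil .nil))) 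
(.lf (nat_lit 79738) (.g (nat_lit 2720) (.e (nat_lit 1842) (nat_lit 123) (.e (nat_lit 548874) (nat_lit 5) (.e (nat_lit 1586) (nat_lit 111) (.e (nat_lit 360475) (nat_lit 8) (.e (nat_lit 557073) (nat_lit 9) (.e (nat_lit 7936) (nat_lit 23) (.e (nat_lit 352302) (nat_lit 20) .nil))))))) (.g (nat_lit 4) .nil .nil)))))) (.nd (nat_lit 3) (.nd (nat_lit 4) (.nd (nat_lit 5) 
(.lf (nat_lit 79686) (.g (nat_lit 1711) (.e (nat_lit 1842) (nat_lit 123) (.e (nat_lit 548872) (nat_lit 5) (.e (nat_lit 1598) (nat_lit 111) (.e (nat_lit 360473) (nat_lit 8) (.e (nat_lit 557070) (nat_lit 9) (.e (nat_lit 7936) (nat_lit 23) (.e (nat_lit 352290) (nat_lit 20) .nil))))))) (.g (nat_lit 5) .nil .nil))) 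
(.lf (nat_lit 79718) (.g (nat_lit 2186) (.e (nat_lit 1842) (nat_lit 123) (.e (nat_lit 548873) (nat_lit 5) (.e (nat_lit 1599) (nat_lit 111) (.e (nat_lit 360474) (nat_lit 8) (.e (nat_lit 557070) (nat_lit 9) (.e (nat_lit 313) (nat_lit 23) (.e (nat_lit 352297) (nat_lit 20) .nil))))))) (.g (nat_lit 5) .nil .nil)))) (.nd (nat_lit 5) 
(.lf (nat_lit 79702) (.g (nat_lit 1553) (.e (nat_lit 1842) (nat_lit 123) (.e (nat_lit 548873) (nat_lit 5) (.e (nat_lit 1595) (nat_lit 111) (.e (nat_lit 360473) (nat_lit 8) (.e (nat_lit 557068) (nat_lit 9) (.e (nat_lit 7936) (nat_lit 23) (.e (nat_lit 352290) (nat_lit 20) .nil))))))) (.g (nat_lit 4) .nil .nil))) 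
(.lf (nat_lit 79734) (.g (nat_lit 2821) (.e (nat_lit 1842) (nat_lit 123) (.e (nat_lit 548874) (nat_lit 5) (.e (nat_lit 1586) (nat_lit 111) (.e (nat_lit 360475) (nat_lit 8) (.e (nat_lit 557070) (nat_lit 9) (.e (nat_lit 313) (nat_lit 23) (.e (nat_lit 352290) (nat_lit 20) .nil))))))) (.g (nat_lit 5) .nil .nil))))) (.nd (nat_lit 4) (.nd (nat_lit 5) 
(.lf (nat_lit 79694) (.g (nat_lit 2435) (.e (nat_lit 1842) (nat_lit 123) (.e (nat_lit 548873) (nat_lit 5) (.e (nat_lit 1586) (nat_lit 111) (.e (nat_lit 360475) (nat_lit 8) (.e (nat_lit 557070) (nat_lit 9) (.e (nat_lit 313) (nat_lit 23) (.e (nat_lit 352290) (nat_lit 20) .nil))))))) (.g (nat_lit 5) .nil .nil))) 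
(.lf (nat_lit 79726) (.g (nat_lit 1795) (.e (nat_lit 1842) (nat_lit 123) (.e (nat_lit 548874) (nat_lit 5) (.e (nat_lit 1586) (nat_lit 111) (.e (nat_lit 360450) (nat_lit 0) (.e (nat_lit 4159) (nat_lit 250) (.e (nat_lit 229491) (nat_lit 75) (.e (nat_lit 352303) (nat_lit 20) .nil))))))) (.g (nat_lit 4) .nil .nil)))) (.nd (nat_lit 5) 
(.lf (nat_lit 79710) (.g (nat_lit 1717) (.e (nat_lit 1842) (nat_lit 123) (.e (nat_lit 548873) (nat_lit 5) (.e (nat_lit 1598) (nat_lit 111) (.e (nat_lit 360466) (nat_lit 3) (.e (nat_lit 516117) (nat_lit 1) (.e (nat_lit 164427) (nat_lit 278) (.e (nat_lit 2554) (nat_lit 159) (.e (nat_lit 24589) (nat_lit 0) .nil)))))))) (.g (nat_lit 5) .nil .nil))) 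
(.lf (nat_lit 79742) (.g (nat_lit 4571) (.e (nat_lit 1842) (nat_lit 123) (.e (nat_lit 548874) (nat_lit 5) (.e (nat_lit 1586) (nat_lit 111) (.e (nat_lit 360475) (nat_lit 8) (.e (nat_lit 557089) (nat_lit 12) (.e (nat_lit 163844) (nat_lit 0) (.e (nat_lit 6047) (nat_lit 326) (.e (nat_lit 1199) (nat_lit 88) (.e (nat_lit 65546) (nat_lit 0) .nil))))))))) (.g (nat_lit 5) .nil .nil)))))))) 
(.nd (nat_lit 1) (.nd (nat_lit 2) (.nd (nat_lit 3) (.nd (nat_lit 4) (.nd (nat_lit 5) 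
(.lf (nat_lit 79681) (.g (nat_lit 2297) (.e (nat_lit 1842) (nat_lit 123) (.e (nat_lit 548872) (nat_lit 5) (.e (nat_lit 1598) (nat_lit 111) (.e (nat_lit 360466) (nat_lit 3) (.e (nat_lit 516120) (nat_lit 1) (.e (nat_lit 164427) (nat_lit 278) (.e (nat_lit 2555) (nat_lit 159) (.e (nat_lit 24589) (nat_lit 0) .nil)))))))) (.g (nat_lit 5) .nil .nil))) 
(.lf (nat_lit 79713) (.g (nat_lit 1151) (.e (nat_lit 1842) (nat_lit 123) (.e (nat_lit 548873) (nat_lit 5) (.e (nat_lit 1598) (nat_lit 111) (.e (nat_lit 360473) (nat_lit 8) (.e (nat_lit 557068) (nat_lit 9) (.e (nat_lit 7936) (nat_lit 23) (.e (nat_lit 352303) (nat_lit 20) .nil))))))) (.g (nat_lit 4) .nil .nil)))) (.nd (nat_lit 5) 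
(.lf (nat_lit 79697) (.g (nat_lit 4025) (.e (nat_lit 1842) (nat_lit 123) (.e (nat_lit 548873) (nat_lit 5) (.e (nat_lit 1586) (nat_lit 111) (.e (nat_lit 360475) (nat_lit 8) (.e (nat_lit 557089) (nat_lit 12) (.e (nat_lit 163844) (nat_lit 0) (.e (nat_lit 6047) (nat_lit 326) (.e (nat_lit 1199) (nat_lit 88) (.e (nat_lit 65546) (nat_lit 0) .nil))))))))) (.g (nat_lit 5) .nil .nil))) 
(.lf (nat_lit 79729) (.g (nat_lit 3233) (.e (nat_lit 1842) (nat_lit 123) (.e (nat_lit 548874) (nat_lit 5) (.e (nat_lit 1586) (nat_lit 111) (.e (nat_lit 360474) (nat_lit 8) (.e (nat_lit 557070) (nat_lit 9) (.e (nat_lit 313) (nat_lit 23) (.e (nat_lit 352290) (nat_lit 20) .nil))))))) (.g (nat_lit 5) .nil .nil))))) (.nd (nat_lit 4) (.nd (nat_lit 5) 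
(.lf (nat_lit 79689) (.g (nat_lit 1664) (.e (nat_lit 1842) (nat_lit 123) (.e (nat_lit 548872) (nat_lit 5) (.e (nat_lit 1598) (nat_lit 111) (.e (nat_lit 360473) (nat_lit 8) (.e (nat_lit 557072) (nat_lit 9) (.e (nat_lit 7936) (nat_lit 23) (.e (nat_lit 352291) (nat_lit 20) .nil))))))) (.g (nat_lit 5) .nil .nil))) 
(.lf (nat_lit 79721) (.g (nat_lit 3469) (.e (nat_lit 1842) (nat_lit 123) (.e (nat_lit 548874) (nat_lit 5) (.e (nat_lit 1559) (nat_lit 110) (.e (nat_lit 352262) (nat_lit 0) (.e (nat_lit 3305) (nat_lit 202) (.e (nat_lit 573491) (nat_lit 15) (.e (nat_lit 81946) (nat_lit 20) .nil))))))) (.g (nat_lit 0) .nil .nil)))) (.nd (nat_lit 5) 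
(.lf (nat_lit 79705) (.g (nat_lit 1641) (.e (nat_lit 1842) (nat_lit 123) (.e (nat_lit 548873) (nat_lit 5) (.e (nat_lit 1595) (nat_lit 111) (.e (nat_lit 360473) (nat_lit 8) (.e (nat_lit 557068) (nat_lit 9) (.e (nat_lit 7936) (nat_lit 23) (.e (nat_lit 352297) (nat_lit 20) .nil))))))) (.g (nat_lit 4) .nil .nil))) 
(.lf (nat_lit 79737) (.g (nat_lit 2752) (.e (nat_lit 1842) (nat_lit 123) (.e (nat_lit 548874) (nat_lit 5) (.e (nat_lit 1586) (nat_lit 111) (.e (nat_lit 360475) (nat_lit 8) (.e (nat_lit 557070) (nat_lit 9) (.e (nat_lit 7936) (nat_lit 23) (.e (nat_lit 352297) (nat_lit 20) .nil))))))) (.g (nat_lit 5) .nil .nil)))))) (.nd (nat_lit 3) (.nd (nat_lit 4) (.nd (nat_lit 5) 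
(.lf (nat_lit 79685) (.g (nat_lit 1975) (.e (nat_lit 1842) (nat_lit 123) (.e (nat_lit 548872) (nat_lit 5) (.e (nat_lit 1598) (nat_lit 111) (.e (nat_lit 360473) (nat_lit 8) (.e (nat_lit 557070) (nat_lit 9) (.e (nat_lit 313) (nat_lit 23) (.e (nat_lit 352290) (nat_lit 20) .nil))))))) (.g (nat_lit 5) .nil .nil))) 
(.lf (nat_lit 79717) (.g (nat_lit 1787) (.e (nat_lit 1842) (nat_lit 123) (.e (nat_lit 548873) (nat_lit 5) (.e (nat_lit 1598) (nat_lit 111) (.e (nat_lit 360473) (nat_lit 8) (.e (nat_lit 557070) (nat_lit 9) (.e (nat_lit 7936) (nat_lit 23) (.e (nat_lit 352297) (nat_lit 20) .nil))))))) (.g (nat_lit 5) .nil .nil)))) (.nd (nat_lit 5) 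
(.lf (nat_lit 79701) (.g (nat_lit 3021) (.e (nat_lit 1842) (nat_lit 123) (.e (nat_lit 548873) (nat_lit 5) (.e (nat_lit 1595) (nat_lit 111) (.e (nat_lit 360473) (nat_lit 8) (.e (nat_lit 557066) (nat_lit 9) (.e (nat_lit 314) (nat_lit 23) (.e (nat_lit 352297) (nat_lit 20) .nil))))))) (.g (nat_lit 0) .nil .nil))) 
(.lf (nat_lit 79733) (.g (nat_lit 1986) (.e (nat_lit 1842) (nat_lit 123) (.e (nat_lit 548874) (nat_lit 5) (.e (nat_lit 1586) (nat_lit 111) (.e (nat_lit 360475) (nat_lit 8) (.e (nat_lit 557070) (nat_lit 9) .nil))))) .nil)))) (.nd (nat_lit 4) (.nd (nat_lit 5) 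
(.lf (nat_lit 79693) (.g (nat_lit 3237) (.e (nat_lit 1842) (nat_lit 123) (.e (nat_lit 548873) (nat_lit 5) (.e (nat_lit 1586) (nat_lit 111) (.e (nat_lit 360475) (nat_lit 8) (.e (nat_lit 557066) (nat_lit 9) (.e (nat_lit 314) (nat_lit 23) (.e (nat_lit 352297) (nat_lit 20) .nil))))))) (.g (nat_lit 0) .nil .nil))) 
(.lf (nat_lit 79725) (.g (nat_lit 1526) (.e (nat_lit 1842) (nat_lit 123) (.e (nat_lit 548874) (nat_lit 5) (.e (nat_lit 1586) (nat_lit 111) (.e (nat_lit 360450) (nat_lit 0) (.e (nat_lit 4153) (nat_lit 249) (.e (nat_lit 171776) (nat_lit 75) (.e (nat_lit 352303) (nat_lit 20) .nil))))))) (.g (nat_lit 4) .nil .nil)))) (.nd (nat_lit 5) 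
(.lf (nat_lit 79709) (.g (nat_lit 2255) (.e (nat_lit 1842) (nat_lit 123) (.e (nat_lit 548873) (nat_lit 5) (.e (nat_lit 1595) (nat_lit 111) (.e (nat_lit 360473) (nat_lit 8) (.e (nat_lit 557081) (nat_lit 9) (.e (nat_lit 316) (nat_lit 23) (.e (nat_lit 352297) (nat_lit 20) .nil))))))) (.g (nat_lit 5) .nil .nil))) 
(.lf (nat_lit 79741) (.g (nat_lit 3454) (.e (nat_lit 1842) (nat_lit 123) (.e (nat_lit 548874) (nat_lit 5) (.e (nat_lit 1586) (nat_lit 111) (.e (nat_lit 360475) (nat_lit 8) (.e (nat_lit 557087) (nat_lit 11) (.e (nat_lit 24634) (nat_lit 9) (.e (nat_lit 335925) (nat_lit 0) .nil))))))) (.g (nat_lit 5) .nil .nil))))))) (.nd (nat_lit 2) (.nd (nat_lit 3) (.nd (nat_lit 4) (.nd (nat_lit 5) 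
(.lf (nat_lit 79683) (.g (nat_lit 2580) (.e (nat_lit 1842) (nat_lit 123) (.e (nat_lit 548872) (nat_lit 5) (.e (nat_lit 1598) (nat_lit 111) (.e (nat_lit 360473) (nat_lit 8) (.e (nat_lit 557066) (nat_lit 9) (.e (nat_lit 314) (nat_lit 23) (.e (nat_lit 352297) (nat_lit 20) .nil))))))) (.g (nat_lit 0) .nil .nil))) 
(.lf (nat_lit 79715) (.g (nat_lit 1689) (.e (nat_lit 1842) (nat_lit 123) (.e (nat_lit 548873) (nat_lit 5) (.e (nat_lit 1598) (nat_lit 111) (.e (nat_lit 360473) (nat_lit 8) (.e (nat_lit 557070) (nat_lit 9) (.e (nat_lit 7936) (nat_lit 23) (.e (nat_lit 352290) (nat_lit 20) .nil))))))) (.g (nat_lit 5) .nil .nil)))) (.nd (nat_lit 5) 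
(.lf (nat_lit 79699) (.g (nat_lit 628) (.e (nat_lit 1842) (nat_lit 123) (.e (nat_lit 548873) (nat_lit 5) (.e (nat_lit 1589) (nat_lit 111) (.e (nat_lit 360473) (nat_lit 8) .nil)))) .nil)) 
(.lf (nat_lit 79731) (.g (nat_lit 3600) (.e (nat_lit 1842) (nat_lit 123) (.e (nat_lit 548874) (nat_lit 5) (.e (nat_lit 1586) (nat_lit 111) (.e (nat_lit 360475) (nat_lit 8) (.e (nat_lit 557066) (nat_lit 9) (.e (nat_lit 314) (nat_lit 23) (.e (nat_lit 352297) (nat_lit 20) .nil))))))) (.g (nat_lit 0) .nil .nil))))) (.nd (nat_lit 4) (.nd (nat_lit 5) 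
(.lf (nat_lit 79691) (.g (nat_lit 2872) (.e (nat_lit 1842) (nat_lit 123) (.e (nat_lit 548873) (nat_lit 5) (.e (nat_lit 1586) (nat_lit 111) (.e (nat_lit 360474) (nat_lit 8) (.e (nat_lit 557070) (nat_lit 9) (.e (nat_lit 313) (nat_lit 23) (.e (nat_lit 352290) (nat_lit 20) .nil))))))) (.g (nat_lit 5) .nil .nil))) 
(.lf (nat_lit 79723) (.g (nat_lit 419) (.e (nat_lit 1842) (nat_lit 123) (.e (nat_lit 548874) (nat_lit 5) (.e (nat_lit 1586) (nat_lit 111) .nil))) .nil))) (.nd (nat_lit 5) 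
(.lf (nat_lit 79707) (.g (nat_lit 1969) (.e (nat_lit 1842) (nat_lit 123) (.e (nat_lit 548873) (nat_lit 5) (.e (nat_lit 1595) (nat_lit 111) (.e (nat_lit 360473) (nat_lit 8) (.e (nat_lit 557072) (nat_lit 9) (.e (nat_lit 7936) (nat_lit 23) (.e (nat_lit 352302) (nat_lit 20) .nil))))))) (.g (nat_lit 4) .nil .nil))) 
(.lf (nat_lit 79739) (.g (nat_lit 3327) (.e (nat_lit 1842) (nat_lit 123) (.e (nat_lit 548874) (nat_lit 5) (.e (nat_lit 1586) (nat_lit 111) (.e (nat_lit 360475) (nat_lit 8) (.e (nat_lit 557087) (nat_lit 11) (.e (nat_lit 24631) (nat_lit 9) (.e (nat_lit 335886) (nat_lit 0) .nil))))))) (.g (nat_lit 5) .nil .nil)))))) (.nd (nat_lit 3) (.nd (nat_lit 4) (.nd (nat_lit 5) 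
(.lf (nat_lit 79687) (.g (nat_lit 1353) (.e (nat_lit 1842) (nat_lit 123) (.e (nat_lit 548872) (nat_lit 5) (.e (nat_lit 1598) (nat_lit 111) (.e (nat_lit 360473) (nat_lit 8) (.e (nat_lit 557070) (nat_lit 9) (.e (nat_lit 7936) (nat_lit 23) (.e (nat_lit 352296) (nat_lit 20) .nil))))))) (.g (nat_lit 4) .nil .nil))) 
(.lf (nat_lit 79719) (.g (nat_lit 4263) (.e (nat_lit 1842) (nat_lit 123) (.e (nat_lit 548874) (nat_lit 5) (.e (nat_lit 1401) (nat_lit 106) (.e (nat_lit 319531) (nat_lit 16) (.e (nat_lit 286735) (nat_lit 3) (.e (nat_lit 98353) (nat_lit 25) (.e (nat_lit 417809) (nat_lit 6) (.e (nat_lit 286724) (nat_lit 0) .nil)))))))) (.g (nat_lit 7) .nil .nil)))) (.nd (nat_lit 5) 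
(.lf (nat_lit 79703) (.g (nat_lit 1630) (.e (nat_lit 1842) (nat_lit 123) (.e (nat_lit 548873) (nat_lit 5) (.e (nat_lit 1595) (nat_lit 111) (.e (nat_lit 360473) (nat_lit 8) (.e (nat_lit 557068) (nat_lit 9) (.e (nat_lit 7936) (nat_lit 23) (.e (nat_lit 352291) (nat_lit 20) .nil))))))) (.g (nat_lit 4) .nil .nil))) 
(.lf (nat_lit 79735) (.g (nat_lit 2720) (.e (nat_lit 1842) (nat_lit 123) (.e (nat_lit 548874) (nat_lit 5) (.e (nat_lit 1586) (nat_lit 111) (.e (nat_lit 360475) (nat_lit 8) (.e (nat_lit 557070) (nat_lit 9) (.e (nat_lit 7936) (nat_lit 23) (.e (nat_lit 352290) (nat_lit 20) .nil))))))) (.g (nat_lit 5) .nil .nil))))) (.nd (nat_lit 4) (.nd (nat_lit 5) 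
(.lf (nat_lit 79695) (.g (nat_lit 2325) (.e (nat_lit 1842) (nat_lit 123) (.e (nat_lit 548873) (nat_lit 5) (.e (nat_lit 1586) (nat_lit 111) (.e (nat_lit 360475) (nat_lit 8) (.e (nat_lit 557070) (nat_lit 9) (.e (nat_lit 7936) (nat_lit 23) (.e (nat_lit 352290) (nat_lit 20) .nil))))))) (.g (nat_lit 5) .nil .nil))) 
(.lf (nat_lit 79727) (.g (nat_lit 1049) (.e (nat_lit 1842) (nat_lit 123) (.e (nat_lit 548874) (nat_lit 5) (.e (nat_lit 1586) (nat_lit 111) (.e (nat_lit 360473) (nat_lit 8) .nil)))) .nil))) (.nd (nat_lit 5) 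
(.lf (nat_lit 79711) (.g (nat_lit 2250) (.e (nat_lit 1842) (nat_lit 123) (.e (nat_lit 548873) (nat_lit 5) (.e (nat_lit 1598) (nat_lit 111) (.e (nat_lit 360466) (nat_lit 3) (.e (nat_lit 516117) (nat_lit 1) (.e (nat_lit 164427) (nat_lit 278) (.e (nat_lit 2555) (nat_lit 159) (.e (nat_lit 24589) (nat_lit 0) .nil)))))))) (.g (nat_lit 5) .nil .nil))) 
(.lf (nat_lit 79743) (.g (nat_lit 4221) (.e (nat_lit 1842) (nat_lit 123) (.e (nat_lit 548874) (nat_lit 5) (.e (nat_lit 1586) (nat_lit 111) (.e (nat_lit 360475) (nat_lit 8) (.e (nat_lit 557091) (nat_lit 12) (.e (nat_lit 163843) (nat_lit 0) (.e (nat_lit 6047) (nat_lit 326) (.e (nat_lit 1199) (nat_lit 88) (.e (nat_lit 65546) (nat_lit 0) .nil))))))))) (.g (nat_lit 5) .nil .nil)))))))))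

noncomputable def tv1079 : DT := (.nd (nat_lit 0) (.nd (nat_lit 1) (.nd (nat_lit 2) (.nd (nat_lit 3) (.nd (nat_lit 4) (.nd (nat_lit 5) 
(.lf (nat_lit 79744) (.g (nat_lit 4268) (.e (nat_lit 1842) (nat_lit 123) (.e (nat_lit 548874) (nat_lit 5) (.e (nat_lit 1586) (nat_lit 111) (.e (nat_lit 360475) (nat_lit 8) (.e (nat_lit 557091) (nat_lit 12) (.e (nat_lit 163844) (nat_lit 0) (.e (nat_lit 6047) (nat_lit 326) (.e (nat_lit 1199) (nat_lit 88) (.e (nat_lit 65546) (nat_lit 0) .nil))))))))) (.g (nat_lit 5) .nil .nil))) 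
(.lf (nat_lit 79776) (.g (nat_lit 1954) (.e (nat_lit 1842) (nat_lit 123) (.e (nat_lit 548874) (nat_lit 5) (.e (nat_lit 1595) (nat_lit 111) (.e (nat_lit 360473) (nat_lit 8) (.e (nat_lit 557068) (nat_lit 9) (.e (nat_lit 7936) (nat_lit 23) (.e (nat_lit 352290) (nat_lit 20) .nil))))))) (.g (nat_lit 4) .nil .nil)))) (.nd (nat_lit 5) 
(.lf (nat_lit 79760) (.g (nat_lit 1811) (.e (nat_lit 1842) (nat_lit 123) (.e (nat_lit 548874) (nat_lit 5) (.e (nat_lit 1589) (nat_lit 111) (.e (nat_lit 360473) (nat_lit 8) (.e (nat_lit 557073) (nat_lit 9) (.e (nat_lit 7936) (nat_lit 23) (.e (nat_lit 352291) (nat_lit 20) .nil))))))) (.g (nat_lit 4) .nil .nil))) 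
(.lf (nat_lit 79792) (.g (nat_lit 1957) (.e (nat_lit 1842) (nat_lit 123) (.e (nat_lit 548874) (nat_lit 5) (.e (nat_lit 1595) (nat_lit 111) (.e (nat_lit 360473) (nat_lit 8) (.e (nat_lit 557073) (nat_lit 9) (.e (nat_lit 7936) (nat_lit 23) (.e (nat_lit 352296) (nat_lit 20) .nil))))))) (.g (nat_lit 4) .nil .nil))))) (.nd (nat_lit 4) (.nd (nat_lit 5) 
(.lf (nat_lit 79752) (.g (nat_lit 1776) (.e (nat_lit 1842) (nat_lit 123) (.e (nat_lit 548874) (nat_lit 5) (.e (nat_lit 1589) (nat_lit 111) (.e (nat_lit 360473) (nat_lit 8) (.e (nat_lit 557070) (nat_lit 9) (.e (nat_lit 7936) (nat_lit 23) (.e (nat_lit 352290) (nat_lit 20) .nil))))))) (.g (nat_lit 4) .nil .nil))) 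
(.lf (nat_lit 79784) (.g (nat_lit 1945) (.e (nat_lit 1842) (nat_lit 123) (.e (nat_lit 548874) (nat_lit 5) (.e (nat_lit 1595) (nat_lit 111) (.e (nat_lit 360473) (nat_lit 8) (.e (nat_lit 557070) (nat_lit 9) (.e (nat_lit 7936) (nat_lit 23) (.e (nat_lit 352297) (nat_lit 20) .nil))))))) (.g (nat_lit 4) .nil .nil)))) (.nd (nat_lit 5) 
(.lf (nat_lit 79768) (.g (nat_lit 3067) (.e (nat_lit 1842) (nat_lit 123) (.e (nat_lit 548874) (nat_lit 5) (.e (nat_lit 1589) (nat_lit 111) (.e (nat_lit 360475) (nat_lit 8) (.e (nat_lit 557068) (nat_lit 9) (.e (nat_lit 7936) (nat_lit 23) (.e (nat_lit 352297) (nat_lit 20) .nil))))))) (.g (nat_lit 5) .nil .nil))) 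
(.lf (nat_lit 79800) (.g (nat_lit 1977) (.e (nat_lit 1842) (nat_lit 123) (.e (nat_lit 548874) (nat_lit 5) (.e (nat_lit 1598) (nat_lit 111) (.e (nat_lit 360466) (nat_lit 3) (.e (nat_lit 516117) (nat_lit 1) (.e (nat_lit 164415) (nat_lit 260) (.e (nat_lit 1196) (nat_lit 88) (.e (nat_lit 65553) (nat_lit 0) .nil)))))))) (.g (nat_lit 4) .nil .nil)))))) (.nd (nat_lit 3) (.nd (nat_lit 4) (.nd (nat_lit 5) 
(.lf (nat_lit 79748) (.g (nat_lit 1384) (.e (nat_lit 1842) (nat_lit 123) (.e (nat_lit 548874) (nat_lit 5) (.e (nat_lit 1589) (nat_lit 111) (.e (nat_lit 360473) (nat_lit 8) (.e (nat_lit 557068) (nat_lit 9) .nil))))) .nil)) 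
(.lf (nat_lit 79780) (.g (nat_lit 1729) (.e (nat_lit 1842) (nat_lit 123) (.e (nat_lit 548874) (nat_lit 5) (.e (nat_lit 1595) (nat_lit 111) (.e (nat_lit 360473) (nat_lit 8) (.e (nat_lit 557068) (nat_lit 9) (.e (nat_lit 7936) (nat_lit 23) (.e (nat_lit 352303) (nat_lit 20) .nil))))))) (.g (nat_lit 4) .nil .nil)))) (.nd (nat_lit 5) 
(.lf (nat_lit 79764) (.g (nat_lit 2467) (.e (nat_lit 1842) (nat_lit 123) (.e (nat_lit 548874) (nat_lit 5) (.e (nat_lit 1589) (nat_lit 111) (.e (nat_lit 360473) (nat_lit 8) (.e (nat_lit 557081) (nat_lit 9) (.e (nat_lit 316) (nat_lit 23) (.e (nat_lit 352297) (nat_lit 20) .nil))))))) (.g (nat_lit 5) .nil .nil))) 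
(.lf (nat_lit 79796) (.g (nat_lit 3168) (.e (nat_lit 1842) (nat_lit 123) (.e (nat_lit 548874) (nat_lit 5) (.e (nat_lit 1595) (nat_lit 111) (.e (nat_lit 360473) (nat_lit 8) (.e (nat_lit 557087) (nat_lit 11) (.e (nat_lit 24634) (nat_lit 9) (.e (nat_lit 335925) (nat_lit 0) .nil))))))) (.g (nat_lit 5) .nil .nil))))) (.nd (nat_lit 4) (.nd (nat_lit 5) 
(.lf (nat_lit 79756) (.g (nat_lit 1897) (.e (nat_lit 1842) (nat_lit 123) (.e (nat_lit 548874) (nat_lit 5) (.e (nat_lit 1589) (nat_lit 111) (.e (nat_lit 360473) (nat_lit 8) (.e (nat_lit 557072) (nat_lit 9) (.e (nat_lit 7936) (nat_lit 23) (.e (nat_lit 352296) (nat_lit 20) .nil))))))) (.g (nat_lit 4) .nil .nil))) 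
(.lf (nat_lit 79788) (.g (nat_lit 1921) (.e (nat_lit 1842) (nat_lit 123) (.e (nat_lit 548874) (nat_lit 5) (.e (nat_lit 1595) (nat_lit 111) (.e (nat_lit 360473) (nat_lit 8) (.e (nat_lit 557072) (nat_lit 9) (.e (nat_lit 7936) (nat_lit 23) (.e (nat_lit 352297) (nat_lit 20) .nil))))))) (.g (nat_lit 4) .nil .nil)))) (.nd (nat_lit 5) 
(.lf (nat_lit 79772) (.g (nat_lit 414) (.e (nat_lit 1842) (nat_lit 123) (.e (nat_lit 548874) (nat_lit 5) (.e (nat_lit 1592) (nat_lit 111) .nil))) .nil)) 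
(.lf (nat_lit 79804) (.g (nat_lit 2379) (.e (nat_lit 1842) (nat_lit 123) (.e (nat_lit 548874) (nat_lit 5) (.e (nat_lit 1598) (nat_lit 111) (.e (nat_lit 360473) (nat_lit 8) (.e (nat_lit 557070) (nat_lit 9) (.e (nat_lit 313) (nat_lit 23) (.e (nat_lit 352290) (nat_lit 20) .nil))))))) (.g (nat_lit 5) .nil .nil))))))) (.nd (nat_lit 2) (.nd (nat_lit 3) (.nd (nat_lit 4) (.nd (nat_lit 5) 
(.lf (nat_lit 79746) (.g (nat_lit 911) (.e (nat_lit 1842) (nat_lit 123) (.e (nat_lit 548874) (nat_lit 5) (.e (nat_lit 1589) (nat_lit 111) (.e (nat_lit 360473) (nat_lit 8) .nil)))) .nil)) 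
(.lf (nat_lit 79778) (.g (nat_lit 2288) (.e (nat_lit 1842) (nat_lit 123) (.e (nat_lit 548874) (nat_lit 5) (.e (nat_lit 1595) (nat_lit 111) (.e (nat_lit 360473) (nat_lit 8) (.e (nat_lit 557068) (nat_lit 9) (.e (nat_lit 7936) (nat_lit 23) (.e (nat_lit 352296) (nat_lit 20) .nil))))))) (.g (nat_lit 4) .nil .nil)))) (.nd (nat_lit 5) 
(.lf (nat_lit 79762) (.g (nat_lit 2000) (.e (nat_lit 1842) (nat_lit 123) (.e (nat_lit 548874) (nat_lit 5) (.e (nat_lit 1589) (nat_lit 111) (.e (nat_lit 360473) (nat_lit 8) (.e (nat_lit 557073) (nat_lit 9) (.e (nat_lit 7936) (nat_lit 23) (.e (nat_lit 352297) (nat_lit 20) .nil))))))) (.g (nat_lit 4) .nil .nil))) 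
(.lf (nat_lit 79794) (.g (nat_lit 2555) (.e (nat_lit 1842) (nat_lit 123) (.e (nat_lit 548874) (nat_lit 5) (.e (nat_lit 1595) (nat_lit 111) (.e (nat_lit 360473) (nat_lit 8) (.e (nat_lit 557081) (nat_lit 9) (.e (nat_lit 316) (nat_lit 23) (.e (nat_lit 352297) (nat_lit 20) .nil))))))) (.g (nat_lit 5) .nil .nil))))) (.nd (nat_lit 4) (.nd (nat_lit 5) 
(.lf (nat_lit 79754) (.g (nat_lit 1954) (.e (nat_lit 1842) (nat_lit 123) (.e (nat_lit 548874) (nat_lit 5) (.e (nat_lit 1589) (nat_lit 111) (.e (nat_lit 360473) (nat_lit 8) (.e (nat_lit 557072) (nat_lit 9) (.e (nat_lit 7936) (nat_lit 23) (.e (nat_lit 352290) (nat_lit 20) .nil))))))) (.g (nat_lit 4) .nil .nil))) 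
(.lf (nat_lit 79786) (.g (nat_lit 2098) (.e (nat_lit 1842) (nat_lit 123) (.e (nat_lit 548874) (nat_lit 5) (.e (nat_lit 1595) (nat_lit 111) (.e (nat_lit 360473) (nat_lit 8) (.e (nat_lit 557072) (nat_lit 9) (.e (nat_lit 7936) (nat_lit 23) (.e (nat_lit 352291) (nat_lit 20) .nil))))))) (.g (nat_lit 4) .nil .nil)))) (.nd (nat_lit 5) 
(.lf (nat_lit 79770) (.g (nat_lit 2164) (.e (nat_lit 1842) (nat_lit 123) (.e (nat_lit 548874) (nat_lit 5) (.e (nat_lit 1589) (nat_lit 111) (.e (nat_lit 360475) (nat_lit 8) (.e (nat_lit 557070) (nat_lit 9) .nil))))) .nil)) 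
(.lf (nat_lit 79802) (.g (nat_lit 2817) (.e (nat_lit 1842) (nat_lit 123) (.e (nat_lit 548874) (nat_lit 5) (.e (nat_lit 1598) (nat_lit 111) (.e (nat_lit 360466) (nat_lit 3) (.e (nat_lit 516120) (nat_lit 1) (.e (nat_lit 164427) (nat_lit 278) (.e (nat_lit 2554) (nat_lit 159) (.e (nat_lit 24589) (nat_lit 0) .nil)))))))) (.g (nat_lit 5) .nil .nil)))))) 
(.nd (nat_lit 3) (.nd (nat_lit 4) (.nd (nat_lit 5) 
(.lf (nat_lit 79750) (.g (nat_lit 2037) (.e (nat_lit 1842) (nat_lit 123) (.e (nat_lit 548874) (nat_lit 5) (.e (nat_lit 1589) (nat_lit 111) (.e (nat_lit 360473) (nat_lit 8) (.e (nat_lit 557070) (nat_lit 9) (.e (nat_lit 313) (nat_lit 23) (.e (nat_lit 352290) (nat_lit 20) .nil))))))) (.g (nat_lit 4) .nil .nil))) 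
(.lf (nat_lit 79782) (.g (nat_lit 2552) (.e (nat_lit 1842) (nat_lit 123) (.e (nat_lit 548874) (nat_lit 5) (.e (nat_lit 1595) (nat_lit 111) (.e (nat_lit 360473) (nat_lit 8) (.e (nat_lit 557070) (nat_lit 9) (.e (nat_lit 313) (nat_lit 23) (.e (nat_lit 352297) (nat_lit 20) .nil))))))) (.g (nat_lit 5) .nil .nil)))) (.nd (nat_lit 5) 
(.lf (nat_lit 79766) (.g (nat_lit 3340) (.e (nat_lit 1842) (nat_lit 123) (.e (nat_lit 548874) (nat_lit 5) (.e (nat_lit 1589) (nat_lit 111) (.e (nat_lit 360473) (nat_lit 8) (.e (nat_lit 557087) (nat_lit 11) (.e (nat_lit 24631) (nat_lit 9) (.e (nat_lit 335928) (nat_lit 0) .nil))))))) (.g (nat_lit 6) .nil .nil))) 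
(.lf (nat_lit 79798) (.g (nat_lit 1777) (.e (nat_lit 1842) (nat_lit 123) (.e (nat_lit 548874) (nat_lit 5) (.e (nat_lit 1598) (nat_lit 111) (.e (nat_lit 360466) (nat_lit 3) (.e (nat_lit 516100) (nat_lit 0) (.e (nat_lit 7936) (nat_lit 406) (.e (nat_lit 65553) (nat_lit 0) .nil))))))) (.g (nat_lit 4) .nil .nil))))) (.nd (nat_lit 4) (.nd (nat_lit 5) 
(.lf (nat_lit 79758) (.g (nat_lit 1593) (.e (nat_lit 1842) (nat_lit 123) (.e (nat_lit 548874) (nat_lit 5) (.e (nat_lit 1589) (nat_lit 111) (.e (nat_lit 360473) (nat_lit 8) (.e (nat_lit 557073) (nat_lit 9) .nil))))) .nil)) 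
(.lf (nat_lit 79790) (.g (nat_lit 1624) (.e (nat_lit 1842) (nat_lit 123) (.e (nat_lit 548874) (nat_lit 5) (.e (nat_lit 1595) (nat_lit 111) (.e (nat_lit 360473) (nat_lit 8) (.e (nat_lit 557073) (nat_lit 9) .nil))))) .nil))) (.nd (nat_lit 5) 
(.lf (nat_lit 79774) (.g (nat_lit 889) (.e (nat_lit 1842) (nat_lit 123) (.e (nat_lit 548874) (nat_lit 5) (.e (nat_lit 1595) (nat_lit 111) (.e (nat_lit 360473) (nat_lit 8) .nil)))) .nil)) 
(.lf (nat_lit 79806) (.g (nat_lit 2117) (.e (nat_lit 1842) (nat_lit 123) (.e (nat_lit 548874) (nat_lit 5) (.e (nat_lit 1598) (nat_lit 111) (.e (nat_lit 360473) (nat_lit 8) (.e (nat_lit 557070) (nat_lit 9) (.e (nat_lit 7936) (nat_lit 23) (.e (nat_lit 352290) (nat_lit 20) .nil))))))) (.g (nat_lit 5) .nil .nil)))))))) 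
(.nd (nat_lit 1) (.nd (nat_lit 2) (.nd (nat_lit 3) (.nd (nat_lit 4) (.nd (nat_lit 5) 
(.lf (nat_lit 79745) (.g (nat_lit 3275) (.e (nat_lit 1842) (nat_lit 123) (.e (nat_lit 548874) (nat_lit 5) (.e (nat_lit 1589) (nat_lit 111) (.e (nat_lit 360467) (nat_lit 3) (.e (nat_lit 516139) (nat_lit 7) (.e (nat_lit 417536) (nat_lit 16) (.e (nat_lit 286728) (nat_lit 0) .nil))))))) (.g (nat_lit 5) .nil .nil))) 
(.lf (nat_lit 79777) (.g (nat_lit 2165) (.e (nat_lit 1842) (nat_lit 123) (.e (nat_lit 548874) (nat_lit 5) (.e (nat_lit 1595) (nat_lit 111) (.e (nat_lit 360473) (nat_lit 8) (.e (nat_lit 557068) (nat_lit 9) (.e (nat_lit 7936) (nat_lit 23) (.e (nat_lit 352291) (nat_lit 20) .nil))))))) (.g (nat_lit 4) .nil .nil)))) (.nd (nat_lit 5) 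
(.lf (nat_lit 79761) (.g (nat_lit 1905) (.e (nat_lit 1842) (nat_lit 123) (.e (nat_lit 548874) (nat_lit 5) (.e (nat_lit 1589) (nat_lit 111) (.e (nat_lit 360473) (nat_lit 8) (.e (nat_lit 557073) (nat_lit 9) (.e (nat_lit 7936) (nat_lit 23) (.e (nat_lit 352296) (nat_lit 20) .nil))))))) (.g (nat_lit 4) .nil .nil))) 
(.lf (nat_lit 79793) (.g (nat_lit 2260) (.e (nat_lit 1842) (nat_lit 123) (.e (nat_lit 548874) (nat_lit 5) (.e (nat_lit 1595) (nat_lit 111) (.e (nat_lit 360473) (nat_lit 8) (.e (nat_lit 557073) (nat_lit 9) (.e (nat_lit 7936) (nat_lit 23) (.e (nat_lit 352302) (nat_lit 20) .nil))))))) (.g (nat_lit 4) .nil .nil))))) (.nd (nat_lit 4) (.nd (nat_lit 5) 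
(.lf (nat_lit 79753) (.g (nat_lit 1898) (.e (nat_lit 1842) (nat_lit 123) (.e (nat_lit 548874) (nat_lit 5) (.e (nat_lit 1589) (nat_lit 111) (.e (nat_lit 360473) (nat_lit 8) (.e (nat_lit 557070) (nat_lit 9) (.e (nat_lit 7936) (nat_lit 23) (.e (nat_lit 352297) (nat_lit 20) .nil))))))) (.g (nat_lit 4) .nil .nil))) 
(.lf (nat_lit 79785) (.g (nat_lit 1912) (.e (nat_lit 1842) (nat_lit 123) (.e (nat_lit 548874) (nat_lit 5) (.e (nat_lit 1595) (nat_lit 111) (.e (nat_lit 360473) (nat_lit 8) (.e (nat_lit 557072) (nat_lit 9) (.e (nat_lit 7936) (nat_lit 23) (.e (nat_lit 352290) (nat_lit 20) .nil))))))) (.g (nat_lit 4) .nil .nil)))) (.nd (nat_lit 5) 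
(.lf (nat_lit 79769) (.g (nat_lit 3273) (.e (nat_lit 1842) (nat_lit 123) (.e (nat_lit 548874) (nat_lit 5) (.e (nat_lit 1589) (nat_lit 111) (.e (nat_lit 360475) (nat_lit 8) (.e (nat_lit 557068) (nat_lit 9) (.e (nat_lit 7936) (nat_lit 23) (.e (nat_lit 352302) (nat_lit 20) .nil))))))) (.g (nat_lit 5) .nil .nil))) 
(.lf (nat_lit 79801) (.g (nat_lit 2665) (.e (nat_lit 1842) (nat_lit 123) (.e (nat_lit 548874) (nat_lit 5) (.e (nat_lit 1598) (nat_lit 111) (.e (nat_lit 360466) (nat_lit 3) (.e (nat_lit 516117) (nat_lit 1) (.e (nat_lit 164427) (nat_lit 278) (.e (nat_lit 2554) (nat_lit 159) (.e (nat_lit 24589) (nat_lit 0) .nil)))))))) (.g (nat_lit 5) .nil .nil)))))) 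
(.nd (nat_lit 3) (.nd (nat_lit 4) (.nd (nat_lit 5) 
(.lf (nat_lit 79749) (.g (nat_lit 2266) (.e (nat_lit 1842) (nat_lit 123) (.e (nat_lit 548874) (nat_lit 5) (.e (nat_lit 1589) (nat_lit 111) (.e (nat_lit 360473) (nat_lit 8) (.e (nat_lit 557068) (nat_lit 9) (.e (nat_lit 7936) (nat_lit 23) (.e (nat_lit 352291) (nat_lit 20) .nil))))))) (.g (nat_lit 5) .nil .nil))) 
(.lf (nat_lit 79781) (.g (nat_lit 2196) (.e (nat_lit 1842) (nat_lit 123) (.e (nat_lit 548874) (nat_lit 5) (.e (nat_lit 1595) (nat_lit 111) (.e (nat_lit 360473) (nat_lit 8) (.e (nat_lit 557070) (nat_lit 9) (.e (nat_lit 313) (nat_lit 23) (.e (nat_lit 352290) (nat_lit 20) .nil))))))) (.g (nat_lit 4) .nil .nil)))) (.nd (nat_lit 5) 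
(.lf (nat_lit 79765) (.g (nat_lit 1437) (.e (nat_lit 1842) (nat_lit 123) (.e (nat_lit 548874) (nat_lit 5) (.e (nat_lit 1589) (nat_lit 111) (.e (nat_lit 360473) (nat_lit 8) (.e (nat_lit 557087) (nat_lit 11) .nil))))) .nil)) 
(.lf (nat_lit 79797) (.g (nat_lit 574) (.e (nat_lit 1842) (nat_lit 123) (.e (nat_lit 548874) (nat_lit 5) (.e (nat_lit 1598) (nat_lit 111) (.e (nat_lit 360466) (nat_lit 3) .nil)))) .nil)))) (.nd (nat_lit 4) (.nd (nat_lit 5) 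
(.lf (nat_lit 79757) (.g (nat_lit 2077) (.e (nat_lit 1842) (nat_lit 123) (.e (nat_lit 548874) (nat_lit 5) (.e (nat_lit 1589) (nat_lit 111) (.e (nat_lit 360473) (nat_lit 8) (.e (nat_lit 557072) (nat_lit 9) (.e (nat_lit 7936) (nat_lit 23) (.e (nat_lit 352297) (nat_lit 20) .nil))))))) (.g (nat_lit 4) .nil .nil))) 
(.lf (nat_lit 79789) (.g (nat_lit 2536) (.e (nat_lit 1842) (nat_lit 123) (.e (nat_lit 548874) (nat_lit 5) (.e (nat_lit 1595) (nat_lit 111) (.e (nat_lit 360473) (nat_lit 8) (.e (nat_lit 557072) (nat_lit 9) (.e (nat_lit 7936) (nat_lit 23) (.e (nat_lit 352302) (nat_lit 20) .nil))))))) (.g (nat_lit 4) .nil .nil)))) (.nd (nat_lit 5) 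
(.lf (nat_lit 79773) (.g (nat_lit 3147) (.e (nat_lit 1842) (nat_lit 123) (.e (nat_lit 548874) (nat_lit 5) (.e (nat_lit 1595) (nat_lit 111) (.e (nat_lit 360467) (nat_lit 3) (.e (nat_lit 516185) (nat_lit 16) (.e (nat_lit 491552) (nat_lit 9) (.e (nat_lit 335886) (nat_lit 0) .nil))))))) (.g (nat_lit 5) .nil .nil))) 
(.lf (nat_lit 79805) (.g (nat_lit 1934) (.e (nat_lit 1842) (nat_lit 123) (.e (nat_lit 548874) (nat_lit 5) (.e (nat_lit 1598) (nat_lit 111) (.e (nat_lit 360473) (nat_lit 8) (.e (nat_lit 557070) (nat_lit 9) (.e (nat_lit 313) (nat_lit 23) (.e (nat_lit 352303) (nat_lit 20) .nil))))))) (.g (nat_lit 5) .nil .nil))))))) (.nd (nat_lit 2) (.nd (nat_lit 3) (.nd (nat_lit 4) (.nd (nat_lit 5) 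
(.lf (nat_lit 79747) (.g (nat_lit 3251) (.e (nat_lit 1842) (nat_lit 123) (.e (nat_lit 548874) (nat_lit 5) (.e (nat_lit 1589) (nat_lit 111) (.e (nat_lit 360473) (nat_lit 8) (.e (nat_lit 557066) (nat_lit 9) (.e (nat_lit 314) (nat_lit 23) (.e (nat_lit 352297) (nat_lit 20) .nil))))))) (.g (nat_lit 6) .nil .nil))) 
(.lf (nat_lit 79779) (.g (nat_lit 1963) (.e (nat_lit 1842) (nat_lit 123) (.e (nat_lit 548874) (nat_lit 5) (.e (nat_lit 1595) (nat_lit 111) (.e (nat_lit 360473) (nat_lit 8) (.e (nat_lit 557068) (nat_lit 9) (.e (nat_lit 7936) (nat_lit 23) (.e (nat_lit 352297) (nat_lit 20) .nil))))))) (.g (nat_lit 4) .nil .nil)))) (.nd (nat_lit 5) 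
(.lf (nat_lit 79763) (.g (nat_lit 2224) (.e (nat_lit 1842) (nat_lit 123) (.e (nat_lit 548874) (nat_lit 5) (.e (nat_lit 1589) (nat_lit 111) (.e (nat_lit 360473) (nat_lit 8) (.e (nat_lit 557073) (nat_lit 9) (.e (nat_lit 7936) (nat_lit 23) (.e (nat_lit 352302) (nat_lit 20) .nil))))))) (.g (nat_lit 4) .nil .nil))) 
(.lf (nat_lit 79795) (.g (nat_lit 3040) (.e (nat_lit 1842) (nat_lit 123) (.e (nat_lit 548874) (nat_lit 5) (.e (nat_lit 1595) (nat_lit 111) (.e (nat_lit 360473) (nat_lit 8) (.e (nat_lit 557087) (nat_lit 11) (.e (nat_lit 24631) (nat_lit 9) (.e (nat_lit 335886) (nat_lit 0) .nil))))))) (.g (nat_lit 5) .nil .nil))))) (.nd (nat_lit 4) (.nd (nat_lit 5) 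
(.lf (nat_lit 79755) (.g (nat_lit 1863) (.e (nat_lit 1842) (nat_lit 123) (.e (nat_lit 548874) (nat_lit 5) (.e (nat_lit 1589) (nat_lit 111) (.e (nat_lit 360473) (nat_lit 8) (.e (nat_lit 557072) (nat_lit 9) (.e (nat_lit 7936) (nat_lit 23) (.e (nat_lit 352291) (nat_lit 20) .nil))))))) (.g (nat_lit 4) .nil .nil))) 
(.lf (nat_lit 79787) (.g (nat_lit 2148) (.e (nat_lit 1842) (nat_lit 123) (.e (nat_lit 548874) (nat_lit 5) (.e (nat_lit 1595) (nat_lit 111) (.e (nat_lit 360473) (nat_lit 8) (.e (nat_lit 557072) (nat_lit 9) (.e (nat_lit 7936) (nat_lit 23) (.e (nat_lit 352296) (nat_lit 20) .nil))))))) (.g (nat_lit 4) .nil .nil)))) (.nd (nat_lit 5) 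
(.lf (nat_lit 79771) (.g (nat_lit 2555) (.e (nat_lit 1842) (nat_lit 123) (.e (nat_lit 548874) (nat_lit 5) (.e (nat_lit 1589) (nat_lit 111) (.e (nat_lit 360475) (nat_lit 8) (.e (nat_lit 557070) (nat_lit 9) (.e (nat_lit 313) (nat_lit 23) (.e (nat_lit 352297) (nat_lit 20) .nil))))))) (.g (nat_lit 4) .nil .nil))) 
(.lf (nat_lit 79803) (.g (nat_lit 1224) (.e (nat_lit 1842) (nat_lit 123) (.e (nat_lit 548874) (nat_lit 5) (.e (nat_lit 1598) (nat_lit 111) (.e (nat_lit 360473) (nat_lit 8) (.e (nat_lit 557065) (nat_lit 9) .nil))))) .nil))))) (.nd (nat_lit 3) (.nd (nat_lit 4) (.nd (nat_lit 5) 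
(.lf (nat_lit 79751) (.g (nat_lit 2507) (.e (nat_lit 1842) (nat_lit 123) (.e (nat_lit 548874) (nat_lit 5) (.e (nat_lit 1589) (nat_lit 111) (.e (nat_lit 360473) (nat_lit 8) (.e (nat_lit 557070) (nat_lit 9) (.e (nat_lit 313) (nat_lit 23) (.e (nat_lit 352297) (nat_lit 20) .nil))))))) (.g (nat_lit 5) .nil .nil))) 
(.lf (nat_lit 79783) (.g (nat_lit 1937) (.e (nat_lit 1842) (nat_lit 123) (.e (nat_lit 548874) (nat_lit 5) (.e (nat_lit 1595) (nat_lit 111) (.e (nat_lit 360473) (nat_lit 8) (.e (nat_lit 557070) (nat_lit 9) (.e (nat_lit 7936) (nat_lit 23) (.e (nat_lit 352290) (nat_lit 20) .nil))))))) (.g (nat_lit 4) .nil .nil)))) (.nd (nat_lit 5) 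
(.lf (nat_lit 79767) (.g (nat_lit 1925) (.e (nat_lit 1842) (nat_lit 123) (.e (nat_lit 548874) (nat_lit 5) (.e (nat_lit 1589) (nat_lit 111) (.e (nat_lit 360475) (nat_lit 8) (.e (nat_lit 557065) (nat_lit 9) .nil))))) .nil)) 
(.lf (nat_lit 79799) (.g (nat_lit 1968) (.e (nat_lit 1842) (nat_lit 123) (.e (nat_lit 548874) (nat_lit 5) (.e (nat_lit 1598) (nat_lit 111) (.e (nat_lit 360466) (nat_lit 3) (.e (nat_lit 516117) (nat_lit 1) (.e (nat_lit 164409) (nat_lit 260) (.e (nat_lit 1196) (nat_lit 88) (.e (nat_lit 65553) (nat_lit 0) .nil)))))))) (.g (nat_lit 4) .nil .nil))))) (.nd (nat_lit 4) (.nd (nat_lit 5) 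
(.lf (nat_lit 79759) (.g (nat_lit 1877) (.e (nat_lit 1842) (nat_lit 123) (.e (nat_lit 548874) (nat_lit 5) (.e (nat_lit 1589) (nat_lit 111) (.e (nat_lit 360473) (nat_lit 8) (.e (nat_lit 557073) (nat_lit 9) (.e (nat_lit 7936) (nat_lit 23) (.e (nat_lit 352290) (nat_lit 20) .nil))))))) (.g (nat_lit 4) .nil .nil))) 
(.lf (nat_lit 79791) (.g (nat_lit 1847) (.e (nat_lit 1842) (nat_lit 123) (.e (nat_lit 548874) (nat_lit 5) (.e (nat_lit 1595) (nat_lit 111) (.e (nat_lit 360473) (nat_lit 8) (.e (nat_lit 557073) (nat_lit 9) (.e (nat_lit 7936) (nat_lit 23) (.e (nat_lit 352291) (nat_lit 20) .nil))))))) (.g (nat_lit 4) .nil .nil)))) (.nd (nat_lit 5) 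
(.lf (nat_lit 79775) (.g (nat_lit 3332) (.e (nat_lit 1842) (nat_lit 123) (.e (nat_lit 548874) (nat_lit 5) (.e (nat_lit 1595) (nat_lit 111) (.e (nat_lit 360473) (nat_lit 8) (.e (nat_lit 557066) (nat_lit 9) (.e (nat_lit 314) (nat_lit 23) (.e (nat_lit 352297) (nat_lit 20) .nil))))))) (.g (nat_lit 0) .nil .nil))) 
(.lf (nat_lit 79807) (.g (nat_lit 2141) (.e (nat_lit 1842) (nat_lit 123) (.e (nat_lit 548874) (nat_lit 5) (.e (nat_lit 1598) (nat_lit 111) (.e (nat_lit 360473) (nat_lit 8) (.e (nat_lit 557070) (nat_lit 9) (.e (nat_lit 7936) (nat_lit 23) (.e (nat_lit 352297) (nat_lit 20) .nil))))))) (.g (nat_lit 5) .nil .nil)))))))))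

noncomputable def tv1080 : DT := (.nd (nat_lit 0) (.nd (nat_lit 1) (.nd (nat_lit 2) (.nd (nat_lit 3) (.nd (nat_lit 4) (.nd (nat_lit 5) 
(.lf (nat_lit 79808) (.g (nat_lit 2720) (.e (nat_lit 1842) (nat_lit 123) (.e (nat_lit 548874) (nat_lit 5) (.e (nat_lit 1598) (nat_lit 111) (.e (nat_lit 360473) (nat_lit 8) (.e (nat_lit 557089) (nat_lit 12) (.e (nat_lit 163844) (nat_lit 0) (.e (nat_lit 6047) (nat_lit 326) (.e (nat_lit 1199) (nat_lit 88) (.e (nat_lit 65546) (nat_lit 0) .nil))))))))) (.g (nat_lit 5) .nil .nil))) 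
(.lf (nat_lit 79840) (.g (nat_lit 2059) (.e (nat_lit 1842) (nat_lit 123) (.e (nat_lit 548889) (nat_lit 9) (.e (nat_lit 65586) (nat_lit 7) (.e (nat_lit 319518) (nat_lit 12) (.e (nat_lit 32789) (nat_lit 11) (.e (nat_lit 81939) (nat_lit 20) .nil)))))) (.g (nat_lit 5) .nil .nil)))) (.nd (nat_lit 5) 
(.lf (nat_lit 79824) (.g (nat_lit 444) (.e (nat_lit 1842) (nat_lit 123) (.e (nat_lit 548889) (nat_lit 9) (.e (nat_lit 65582) (nat_lit 7) .nil))) .nil)) 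
(.lf (nat_lit 79856) (.g (nat_lit 3869) (.e (nat_lit 1842) (nat_lit 123) (.e (nat_lit 548889) (nat_lit 9) (.e (nat_lit 65610) (nat_lit 10) (.e (nat_lit 344117) (nat_lit 21) (.e (nat_lit 516099) (nat_lit 0) (.e (nat_lit 7936) (nat_lit 406) (.e (nat_lit 65553) (nat_lit 0) .nil))))))) (.g (nat_lit 4) .nil .nil))))) (.nd (nat_lit 4) (.nd (nat_lit 5) 
(.lf (nat_lit 79816) (.g (nat_lit 3820) (.e (nat_lit 1842) (nat_lit 123) (.e (nat_lit 548874) (nat_lit 5) (.e (nat_lit 1669) (nat_lit 116) (.e (nat_lit 401454) (nat_lit 12) (.e (nat_lit 475178) (nat_lit 24) (.e (nat_lit 516124) (nat_lit 2) (.e (nat_lit 213030) (nat_lit 11) (.e (nat_lit 24589) (nat_lit 0) .nil)))))))) (.g (nat_lit 4) .nil .nil))) 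
(.lf (nat_lit 79848) (.g (nat_lit 1418) (.e (nat_lit 1842) (nat_lit 123) (.e (nat_lit 548889) (nat_lit 9) (.e (nat_lit 65609) (nat_lit 10) (.e (nat_lit 344126) (nat_lit 25) (.e (nat_lit 548891) (nat_lit 11) .nil))))) .nil))) (.nd (nat_lit 5) 
(.lf (nat_lit 79832) (.g (nat_lit 1609) (.e (nat_lit 1842) (nat_lit 123) (.e (nat_lit 548889) (nat_lit 9) (.e (nat_lit 65583) (nat_lit 7) (.e (nat_lit 319519) (nat_lit 12) (.e (nat_lit 40704) (nat_lit 11) (.e (nat_lit 81939) (nat_lit 20) .nil)))))) (.g (nat_lit 4) .nil .nil))) 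
(.lf (nat_lit 79864) (.g (nat_lit 2589) (.e (nat_lit 1842) (nat_lit 123) (.e (nat_lit 548889) (nat_lit 9) (.e (nat_lit 65610) (nat_lit 10) (.e (nat_lit 344117) (nat_lit 21) (.e (nat_lit 516139) (nat_lit 7) (.e (nat_lit 417536) (nat_lit 16) (.e (nat_lit 286728) (nat_lit 0) .nil))))))) (.g (nat_lit 4) .nil .nil)))))) (.nd (nat_lit 3) (.nd (nat_lit 4) (.nd (nat_lit 5) 
(.lf (nat_lit 79812) (.g (nat_lit 5503) (.e (nat_lit 1842) (nat_lit 123) (.e (nat_lit 548874) (nat_lit 5) (.e (nat_lit 1669) (nat_lit 116) (.e (nat_lit 401434) (nat_lit 9) (.e (nat_lit 426140) (nat_lit 3) (.e (nat_lit 204846) (nat_lit 24) (.e (nat_lit 319533) (nat_lit 16) (.e (nat_lit 286724) (nat_lit 0) .nil)))))))) (.g (nat_lit 7) .nil .nil))) 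
(.lf (nat_lit 79844) (.g (nat_lit 3450) (.e (nat_lit 1842) (nat_lit 123) (.e (nat_lit 548889) (nat_lit 9) (.e (nat_lit 65598) (nat_lit 9) (.e (nat_lit 336028) (nat_lit 3) (.e (nat_lit 98325) (nat_lit 17) (.e (nat_lit 6986) (nat_lit 377) (.e (nat_lit 2782) (nat_lit 178) (.e (nat_lit 286725) (nat_lit 0) .nil)))))))) (.g (nat_lit 6) .nil .nil)))) (.nd (nat_lit 5) 
(.lf (nat_lit 79828) (.g (nat_lit 1790) (.e (nat_lit 1842) (nat_lit 123) (.e (nat_lit 548889) (nat_lit 9) (.e (nat_lit 65583) (nat_lit 7) (.e (nat_lit 319518) (nat_lit 12) (.e (nat_lit 32789) (nat_lit 11) (.e (nat_lit 81946) (nat_lit 20) .nil)))))) (.g (nat_lit 4) .nil .nil))) 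
(.lf (nat_lit 79860) (.g (nat_lit 3647) (.e (nat_lit 1842) (nat_lit 123) (.e (nat_lit 548889) (nat_lit 9) (.e (nat_lit 65610) (nat_lit 10) (.e (nat_lit 344117) (nat_lit 21) (.e (nat_lit 516102) (nat_lit 0) (.e (nat_lit 6989) (nat_lit 377) (.e (nat_lit 2779) (nat_lit 178) (.e (nat_lit 286728) (nat_lit 0) .nil)))))))) (.g (nat_lit 4) .nil .nil))))) (.nd (nat_lit 4) (.nd (nat_lit 5) 
(.lf (nat_lit 79820) (.g (nat_lit 3579) (.e (nat_lit 1842) (nat_lit 123) (.e (nat_lit 548883) (nat_lit 7) (.e (nat_lit 16473) (nat_lit 14) (.e (nat_lit 491535) (nat_lit 2) (.e (nat_lit 90176) (nat_lit 15) (.e (nat_lit 196352) (nat_lit 0) .nil)))))) (.g (nat_lit 5) .nil .nil))) 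
(.lf (nat_lit 79852) (.g (nat_lit 2769) (.e (nat_lit 1842) (nat_lit 123) (.e (nat_lit 548889) (nat_lit 9) (.e (nat_lit 65610) (nat_lit 10) (.e (nat_lit 344117) (nat_lit 21) (.e (nat_lit 516098) (nat_lit 0) (.e (nat_lit 7587) (nat_lit 406) (.e (nat_lit 65547) (nat_lit 0) .nil))))))) (.g (nat_lit 4) .nil .nil)))) (.nd (nat_lit 5) 
(.lf (nat_lit 79836) (.g (nat_lit 1757) (.e (nat_lit 1842) (nat_lit 123) (.e (nat_lit 548889) (nat_lit 9) (.e (nat_lit 65584) (nat_lit 7) (.e (nat_lit 319519) (nat_lit 12) (.e (nat_lit 40704) (nat_lit 11) (.e (nat_lit 81943) (nat_lit 20) .nil)))))) (.g (nat_lit 4) .nil .nil))) 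
(.lf (nat_lit 79868) (.g (nat_lit 4334) (.e (nat_lit 1842) (nat_lit 123) (.e (nat_lit 548889) (nat_lit 9) (.e (nat_lit 65610) (nat_lit 10) (.e (nat_lit 344117) (nat_lit 21) (.e (nat_lit 516185) (nat_lit 16) (.e (nat_lit 491552) (nat_lit 9) (.e (nat_lit 335886) (nat_lit 0) .nil))))))) (.g (nat_lit 6) .nil .nil))))))) (.nd (nat_lit 2) (.nd (nat_lit 3) (.nd (nat_lit 4) (.nd (nat_lit 5) 
(.lf (nat_lit 79810) (.g (nat_lit 3031) (.e (nat_lit 1842) (nat_lit 123) (.e (nat_lit 548874) (nat_lit 5) (.e (nat_lit 1599) (nat_lit 111) (.e (nat_lit 360474) (nat_lit 8) (.e (nat_lit 557070) (nat_lit 9) (.e (nat_lit 313) (nat_lit 23) (.e (nat_lit 352297) (nat_lit 20) .nil))))))) (.g (nat_lit 5) .nil .nil))) 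
(.lf (nat_lit 79842) (.g (nat_lit 2581) (.e (nat_lit 1842) (nat_lit 123) (.e (nat_lit 548889) (nat_lit 9) (.e (nat_lit 65586) (nat_lit 7) (.e (nat_lit 319519) (nat_lit 12) (.e (nat_lit 32789) (nat_lit 11) (.e (nat_lit 81946) (nat_lit 20) .nil)))))) (.g (nat_lit 0) .nil .nil)))) (.nd (nat_lit 5) 
(.lf (nat_lit 79826) (.g (nat_lit 744) (.e (nat_lit 1842) (nat_lit 123) (.e (nat_lit 548889) (nat_lit 9) (.e (nat_lit 65583) (nat_lit 7) (.e (nat_lit 319499) (nat_lit 10) .nil)))) .nil)) 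
(.lf (nat_lit 79858) (.g (nat_lit 3177) (.e (nat_lit 1842) (nat_lit 123) (.e (nat_lit 548889) (nat_lit 9) (.e (nat_lit 65610) (nat_lit 10) (.e (nat_lit 344117) (nat_lit 21) (.e (nat_lit 516099) (nat_lit 0) (.e (nat_lit 7936) (nat_lit 406) (.e (nat_lit 65559) (nat_lit 0) .nil))))))) (.g (nat_lit 4) .nil .nil))))) (.nd (nat_lit 4) (.nd (nat_lit 5) 
(.lf (nat_lit 79818) (.g (nat_lit 4119) (.e (nat_lit 1842) (nat_lit 123) (.e (nat_lit 548874) (nat_lit 5) (.e (nat_lit 1669) (nat_lit 116) (.e (nat_lit 401454) (nat_lit 12) (.e (nat_lit 475178) (nat_lit 24) (.e (nat_lit 516127) (nat_lit 2) (.e (nat_lit 213030) (nat_lit 11) (.e (nat_lit 24589) (nat_lit 0) .nil)))))))) (.g (nat_lit 4) .nil .nil))) 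
(.lf (nat_lit 79850) (.g (nat_lit 3367) (.e (nat_lit 1842) (nat_lit 123) (.e (nat_lit 548889) (nat_lit 9) (.e (nat_lit 65610) (nat_lit 10) (.e (nat_lit 344117) (nat_lit 21) (.e (nat_lit 516097) (nat_lit 0) (.e (nat_lit 7587) (nat_lit 406) (.e (nat_lit 65553) (nat_lit 0) .nil))))))) (.g (nat_lit 4) .nil .nil)))) (.nd (nat_lit 5) 
(.lf (nat_lit 79834) (.g (nat_lit 2516) (.e (nat_lit 1842) (nat_lit 123) (.e (nat_lit 548889) (nat_lit 9) (.e (nat_lit 65584) (nat_lit 7) (.e (nat_lit 319519) (nat_lit 12) (.e (nat_lit 32789) (nat_lit 11) (.e (nat_lit 81946) (nat_lit 20) .nil)))))) (.g (nat_lit 0) .nil .nil))) 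
(.lf (nat_lit 79866) (.g (nat_lit 2542) (.e (nat_lit 1842) (nat_lit 123) (.e (nat_lit 548889) (nat_lit 9) (.e (nat_lit 65610) (nat_lit 10) (.e (nat_lit 344117) (nat_lit 21) (.e (nat_lit 516185) (nat_lit 16) (.e (nat_lit 491546) (nat_lit 9) (.e (nat_lit 335927) (nat_lit 0) .nil))))))) (.g (nat_lit 4) .nil .nil)))))) (.nd (nat_lit 3) (.nd (nat_lit 4) (.nd (nat_lit 5) 
(.lf (nat_lit 79814) (.g (nat_lit 3701) (.e (nat_lit 1842) (nat_lit 123) (.e (nat_lit 548874) (nat_lit 5) (.e (nat_lit 1669) (nat_lit 116) (.e (nat_lit 401454) (nat_lit 12) (.e (nat_lit 475177) (nat_lit 24) .nil))))) .nil)) 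
(.lf (nat_lit 79846) (.g (nat_lit 2574) (.e (nat_lit 1842) (nat_lit 123) (.e (nat_lit 548889) (nat_lit 9) (.e (nat_lit 65604) (nat_lit 9) (.e (nat_lit 336028) (nat_lit 3) (.e (nat_lit 98325) (nat_lit 17) (.e (nat_lit 6986) (nat_lit 377) (.e (nat_lit 2781) (nat_lit 178) (.e (nat_lit 286728) (nat_lit 0) .nil)))))))) (.g (nat_lit 4) .nil .nil)))) (.nd (nat_lit 5) 
(.lf (nat_lit 79830) (.g (nat_lit 658) (.e (nat_lit 1842) (nat_lit 123) (.e (nat_lit 548889) (nat_lit 9) (.e (nat_lit 65583) (nat_lit 7) (.e (nat_lit 319519) (nat_lit 12) .nil)))) .nil)) 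
(.lf (nat_lit 79862) (.g (nat_lit 3345) (.e (nat_lit 1842) (nat_lit 123) (.e (nat_lit 548889) (nat_lit 9) (.e (nat_lit 65610) (nat_lit 10) (.e (nat_lit 344117) (nat_lit 21) (.e (nat_lit 516106) (nat_lit 0) (.e (nat_lit 7936) (nat_lit 406) (.e (nat_lit 65553) (nat_lit 0) .nil))))))) (.g (nat_lit 5) .nil .nil))))) (.nd (nat_lit 4) (.nd (nat_lit 5) 
(.lf (nat_lit 79822) (.g (nat_lit 416) (.e (nat_lit 1842) (nat_lit 123) (.e (nat_lit 548889) (nat_lit 9) (.e (nat_lit 65542) (nat_lit 0) .nil))) .nil)) 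
(.lf (nat_lit 79854) (.g (nat_lit 2487) (.e (nat_lit 1842) (nat_lit 123) (.e (nat_lit 548889) (nat_lit 9) (.e (nat_lit 65610) (nat_lit 10) (.e (nat_lit 344117) (nat_lit 21) (.e (nat_lit 516098) (nat_lit 0) (.e (nat_lit 7589) (nat_lit 406) (.e (nat_lit 65553) (nat_lit 0) .nil))))))) (.g (nat_lit 4) .nil .nil)))) (.nd (nat_lit 5) 
(.lf (nat_lit 79838) (.g (nat_lit 861) (.e (nat_lit 1842) (nat_lit 123) (.e (nat_lit 548889) (nat_lit 9) (.e (nat_lit 65585) (nat_lit 7) (.e (nat_lit 319519) (nat_lit 12) (.e (nat_lit 40704) (nat_lit 11) .nil))))) .nil)) 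
(.lf (nat_lit 79870) (.g (nat_lit 3734) (.e (nat_lit 1842) (nat_lit 123) (.e (nat_lit 548889) (nat_lit 9) (.e (nat_lit 65610) (nat_lit 10) (.e (nat_lit 344117) (nat_lit 21) (.e (nat_lit 516185) (nat_lit 16) (.e (nat_lit 491552) (nat_lit 9) (.e (nat_lit 335924) (nat_lit 0) .nil))))))) (.g (nat_lit 5) .nil .nil)))))))) 
(.nd (nat_lit 1) (.nd (nat_lit 2) (.nd (nat_lit 3) (.nd (nat_lit 4) (.nd (nat_lit 5) 
(.lf (nat_lit 79809) (.g (nat_lit 2494) (.e (nat_lit 1842) (nat_lit 123) (.e (nat_lit 548874) (nat_lit 5) (.e (nat_lit 1599) (nat_lit 111) (.e (nat_lit 360474) (nat_lit 8) (.e (nat_lit 557070) (nat_lit 9) (.e (nat_lit 313) (nat_lit 23) (.e (nat_lit 352290) (nat_lit 20) .nil))))))) (.g (nat_lit 5) .nil .nil))) 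
(.lf (nat_lit 79841) (.g (nat_lit 2347) (.e (nat_lit 1842) (nat_lit 123) (.e (nat_lit 548889) (nat_lit 9) (.e (nat_lit 65586) (nat_lit 7) (.e (nat_lit 319518) (nat_lit 12) (.e (nat_lit 32789) (nat_lit 11) (.e (nat_lit 81946) (nat_lit 20) .nil)))))) (.g (nat_lit 6) .nil .nil)))) (.nd (nat_lit 5) 
(.lf (nat_lit 79825) (.g (nat_lit 2273) (.e (nat_lit 1842) (nat_lit 123) (.e (nat_lit 548889) (nat_lit 9) (.e (nat_lit 65582) (nat_lit 7) (.e (nat_lit 319517) (nat_lit 12) (.e (nat_lit 32789) (nat_lit 11) (.e (nat_lit 81943) (nat_lit 20) .nil)))))) (.g (nat_lit 5) .nil .nil))) 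
(.lf (nat_lit 79857) (.g (nat_lit 3137) (.e (nat_lit 1842) (nat_lit 123) (.e (nat_lit 548889) (nat_lit 9) (.e (nat_lit 65610) (nat_lit 10) (.e (nat_lit 344117) (nat_lit 21) (.e (nat_lit 516099) (nat_lit 0) (.e (nat_lit 7936) (nat_lit 406) (.e (nat_lit 65558) (nat_lit 0) .nil))))))) (.g (nat_lit 4) .nil .nil))))) (.nd (nat_lit 4) (.nd (nat_lit 5) 
(.lf (nat_lit 79817) (.g (nat_lit 3713) (.e (nat_lit 1842) (nat_lit 123) (.e (nat_lit 548874) (nat_lit 5) (.e (nat_lit 1669) (nat_lit 116) (.e (nat_lit 401454) (nat_lit 12) (.e (nat_lit 475178) (nat_lit 24) (.e (nat_lit 516126) (nat_lit 2) (.e (nat_lit 213030) (nat_lit 11) (.e (nat_lit 24589) (nat_lit 0) .nil)))))))) (.g (nat_lit 4) .nil .nil))) 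
(.lf (nat_lit 79849) (.g (nat_lit 3427) (.e (nat_lit 1842) (nat_lit 123) (.e (nat_lit 548889) (nat_lit 9) (.e (nat_lit 65610) (nat_lit 10) (.e (nat_lit 344117) (nat_lit 21) (.e (nat_lit 516097) (nat_lit 0) (.e (nat_lit 7587) (nat_lit 406) (.e (nat_lit 65547) (nat_lit 0) .nil))))))) (.g (nat_lit 4) .nil .nil)))) (.nd (nat_lit 5) 
(.lf (nat_lit 79833) (.g (nat_lit 1480) (.e (nat_lit 1842) (nat_lit 123) (.e (nat_lit 548889) (nat_lit 9) (.e (nat_lit 65584) (nat_lit 7) (.e (nat_lit 319519) (nat_lit 12) (.e (nat_lit 32789) (nat_lit 11) (.e (nat_lit 81942) (nat_lit 20) .nil)))))) (.g (nat_lit 4) .nil .nil))) 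
(.lf (nat_lit 79865) (.g (nat_lit 3936) (.e (nat_lit 1842) (nat_lit 123) (.e (nat_lit 548889) (nat_lit 9) (.e (nat_lit 65610) (nat_lit 10) (.e (nat_lit 344117) (nat_lit 21) (.e (nat_lit 516184) (nat_lit 16) (.e (nat_lit 491551) (nat_lit 9) (.e (nat_lit 335928) (nat_lit 0) .nil))))))) (.g (nat_lit 5) .nil .nil)))))) (.nd (nat_lit 3) (.nd (nat_lit 4) (.nd (nat_lit 5) 
(.lf (nat_lit 79813) (.g (nat_lit 2128) (.e (nat_lit 1842) (nat_lit 123) (.e (nat_lit 548874) (nat_lit 5) (.e (nat_lit 1669) (nat_lit 116) (.e (nat_lit 401444) (nat_lit 9) (.e (nat_lit 426129) (nat_lit 3) .nil))))) .nil)) 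
(.lf (nat_lit 79845) (.g (nat_lit 1689) (.e (nat_lit 1842) (nat_lit 123) (.e (nat_lit 548889) (nat_lit 9) (.e (nat_lit 65604) (nat_lit 9) (.e (nat_lit 336028) (nat_lit 3) (.e (nat_lit 98325) (nat_lit 17) .nil))))) .nil))) (.nd (nat_lit 5) 
(.lf (nat_lit 79829) (.g (nat_lit 2073) (.e (nat_lit 1842) (nat_lit 123) (.e (nat_lit 548889) (nat_lit 9) (.e (nat_lit 65583) (nat_lit 7) (.e (nat_lit 319518) (nat_lit 12) (.e (nat_lit 32789) (nat_lit 11) (.e (nat_lit 81947) (nat_lit 20) .nil)))))) (.g (nat_lit 4) .nil .nil))) 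
(.lf (nat_lit 79861) (.g (nat_lit 4486) (.e (nat_lit 1842) (nat_lit 123) (.e (nat_lit 548889) (nat_lit 9) (.e (nat_lit 65610) (nat_lit 10) (.e (nat_lit 344117) (nat_lit 21) (.e (nat_lit 516106) (nat_lit 0) (.e (nat_lit 6986) (nat_lit 377) (.e (nat_lit 2782) (nat_lit 178) (.e (nat_lit 286725) (nat_lit 0) .nil)))))))) (.g (nat_lit 6) .nil .nil))))) (.nd (nat_lit 4) (.nd (nat_lit 5) 
(.lf (nat_lit 79821) (.g (nat_lit 2470) (.e (nat_lit 1842) (nat_lit 123) (.e (nat_lit 548887) (nat_lit 9) (.e (nat_lit 65630) (nat_lit 14) (.e (nat_lit 401425) (nat_lit 2) (.e (nat_lit 196672) (nat_lit 15) (.e (nat_lit 81943) (nat_lit 20) .nil)))))) (.g (nat_lit 4) .nil .nil))) 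
(.lf (nat_lit 79853) (.g (nat_lit 2709) (.e (nat_lit 1842) (nat_lit 123) (.e (nat_lit 548889) (nat_lit 9) (.e (nat_lit 65610) (nat_lit 10) (.e (nat_lit 344117) (nat_lit 21) (.e (nat_lit 516098) (nat_lit 0) (.e (nat_lit 7587) (nat_lit 406) (.e (nat_lit 65553) (nat_lit 0) .nil))))))) (.g (nat_lit 4) .nil .nil)))) (.nd (nat_lit 5) 
(.lf (nat_lit 79837) (.g (nat_lit 2284) (.e (nat_lit 1842) (nat_lit 123) (.e (nat_lit 548889) (nat_lit 9) (.e (nat_lit 65585) (nat_lit 7) (.e (nat_lit 319519) (nat_lit 12) (.e (nat_lit 32789) (nat_lit 11) (.e (nat_lit 81946) (nat_lit 20) .nil)))))) (.g (nat_lit 0) .nil .nil))) 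
(.lf (nat_lit 79869) (.g (nat_lit 2516) (.e (nat_lit 1842) (nat_lit 123) (.e (nat_lit 548889) (nat_lit 9) (.e (nat_lit 65610) (nat_lit 10) (.e (nat_lit 344117) (nat_lit 21) (.e (nat_lit 516185) (nat_lit 16) (.e (nat_lit 491552) (nat_lit 9) (.e (nat_lit 335919) (nat_lit 0) .nil))))))) (.g (nat_lit 4) .nil .nil))))))) (.nd (nat_lit 2) (.nd (nat_lit 3) (.nd (nat_lit 4) (.nd (nat_lit 5) 
(.lf (nat_lit 79811) (.g (nat_lit 3049) (.e (nat_lit 1842) (nat_lit 123) (.e (nat_lit 548874) (nat_lit 5) (.e (nat_lit 1599) (nat_lit 111) (.e (nat_lit 360474) (nat_lit 8) (.e (nat_lit 557081) (nat_lit 9) .nil))))) .nil)) 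
(.lf (nat_lit 79843) (.g (nat_lit 4323) (.e (nat_lit 1842) (nat_lit 123) (.e (nat_lit 548889) (nat_lit 9) (.e (nat_lit 65598) (nat_lit 9) (.e (nat_lit 336013) (nat_lit 2) (.e (nat_lit 90165) (nat_lit 12) (.e (nat_lit 164208) (nat_lit 176) (.e (nat_lit 2782) (nat_lit 178) (.e (nat_lit 286725) (nat_lit 0) .nil)))))))) (.g (nat_lit 6) .nil .nil)))) (.nd (nat_lit 5) 
(.lf (nat_lit 79827) (.g (nat_lit 1914) (.e (nat_lit 1842) (nat_lit 123) (.e (nat_lit 548889) (nat_lit 9) (.e (nat_lit 65583) (nat_lit 7) (.e (nat_lit 319518) (nat_lit 12) (.e (nat_lit 32789) (nat_lit 11) (.e (nat_lit 81943) (nat_lit 20) .nil)))))) (.g (nat_lit 4) .nil .nil))) 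
(.lf (nat_lit 79859) (.g (nat_lit 3166) (.e (nat_lit 1842) (nat_lit 123) (.e (nat_lit 548889) (nat_lit 9) (.e (nat_lit 65610) (nat_lit 10) (.e (nat_lit 344117) (nat_lit 21) (.e (nat_lit 516102) (nat_lit 0) (.e (nat_lit 6989) (nat_lit 377) (.e (nat_lit 2777) (nat_lit 178) (.e (nat_lit 286724) (nat_lit 0) .nil)))))))) (.g (nat_lit 4) .nil .nil))))) (.nd (nat_lit 4) (.nd (nat_lit 5) 
(.lf (nat_lit 79819) (.g (nat_lit 2974) (.e (nat_lit 1842) (nat_lit 123) (.e (nat_lit 548874) (nat_lit 5) (.e (nat_lit 1669) (nat_lit 116) (.e (nat_lit 401454) (nat_lit 12) (.e (nat_lit 475179) (nat_lit 24) .nil))))) .nil)) 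
(.lf (nat_lit 79851) (.g (nat_lit 2064) (.e (nat_lit 1842) (nat_lit 123) (.e (nat_lit 548889) (nat_lit 9) (.e (nat_lit 65610) (nat_lit 10) (.e (nat_lit 344117) (nat_lit 21) (.e (nat_lit 516098) (nat_lit 0) .nil))))) .nil))) (.nd (nat_lit 5) 
(.lf (nat_lit 79835) (.g (nat_lit 2021) (.e (nat_lit 1842) (nat_lit 123) (.e (nat_lit 548889) (nat_lit 9) (.e (nat_lit 65584) (nat_lit 7) (.e (nat_lit 319519) (nat_lit 12) (.e (nat_lit 40704) (nat_lit 11) (.e (nat_lit 81938) (nat_lit 20) .nil)))))) (.g (nat_lit 4) .nil .nil))) 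
(.lf (nat_lit 79867) (.g (nat_lit 5250) (.e (nat_lit 1842) (nat_lit 123) (.e (nat_lit 548889) (nat_lit 9) (.e (nat_lit 65610) (nat_lit 10) (.e (nat_lit 344117) (nat_lit 21) (.e (nat_lit 516185) (nat_lit 16) (.e (nat_lit 491551) (nat_lit 9) (.e (nat_lit 335928) (nat_lit 0) .nil))))))) (.g (nat_lit 7) .nil .nil)))))) (.nd (nat_lit 3) (.nd (nat_lit 4) (.nd (nat_lit 5) 
(.lf (nat_lit 79815) (.g (nat_lit 3284) (.e (nat_lit 1842) (nat_lit 123) (.e (nat_lit 548874) (nat_lit 5) (.e (nat_lit 1669) (nat_lit 116) (.e (nat_lit 401454) (nat_lit 12) (.e (nat_lit 475178) (nat_lit 24) .nil))))) .nil)) 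
(.lf (nat_lit 79847) (.g (nat_lit 2194) (.e (nat_lit 1842) (nat_lit 123) (.e (nat_lit 548889) (nat_lit 9) (.e (nat_lit 65604) (nat_lit 9) (.e (nat_lit 336028) (nat_lit 3) (.e (nat_lit 98325) (nat_lit 17) (.e (nat_lit 7936) (nat_lit 406) (.e (nat_lit 65553) (nat_lit 0) .nil))))))) (.g (nat_lit 4) .nil .nil)))) (.nd (nat_lit 5) 
(.lf (nat_lit 79831) (.g (nat_lit 1678) (.e (nat_lit 1842) (nat_lit 123) (.e (nat_lit 548889) (nat_lit 9) (.e (nat_lit 65583) (nat_lit 7) (.e (nat_lit 319519) (nat_lit 12) (.e (nat_lit 32789) (nat_lit 11) (.e (nat_lit 81942) (nat_lit 20) .nil)))))) (.g (nat_lit 4) .nil .nil))) 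
(.lf (nat_lit 79863) (.g (nat_lit 2653) (.e (nat_lit 1842) (nat_lit 123) (.e (nat_lit 548889) (nat_lit 9) (.e (nat_lit 65610) (nat_lit 10) (.e (nat_lit 344117) (nat_lit 21) (.e (nat_lit 516106) (nat_lit 0) (.e (nat_lit 7936) (nat_lit 406) (.e (nat_lit 65559) (nat_lit 0) .nil))))))) (.g (nat_lit 4) .nil .nil))))) (.nd (nat_lit 4) (.nd (nat_lit 5) 
(.lf (nat_lit 79823) (.g (nat_lit 416) (.e (nat_lit 1842) (nat_lit 123) (.e (nat_lit 548889) (nat_lit 9) (.e (nat_lit 65543) (nat_lit 0) .nil))) .nil)) 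
(.lf (nat_lit 79855) (.g (nat_lit 2884) (.e (nat_lit 1842) (nat_lit 123) (.e (nat_lit 548889) (nat_lit 9) (.e (nat_lit 65610) (nat_lit 10) (.e (nat_lit 344117) (nat_lit 21) (.e (nat_lit 516099) (nat_lit 0) .nil))))) .nil))) (.nd (nat_lit 5) 
(.lf (nat_lit 79839) (.g (nat_lit 2011) (.e (nat_lit 1842) (nat_lit 123) (.e (nat_lit 548889) (nat_lit 9) (.e (nat_lit 65586) (nat_lit 7) (.e (nat_lit 319517) (nat_lit 12) (.e (nat_lit 32789) (nat_lit 11) (.e (nat_lit 81943) (nat_lit 20) .nil)))))) (.g (nat_lit 5) .nil .nil))) 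
(.lf (nat_lit 79871) (.g (nat_lit 3213) (.e (nat_lit 1842) (nat_lit 123) (.e (nat_lit 548889) (nat_lit 9) (.e (nat_lit 65610) (nat_lit 10) (.e (nat_lit 344117) (nat_lit 21) (.e (nat_lit 516185) (nat_lit 16) (.e (nat_lit 491552) (nat_lit 9) (.e (nat_lit 335925) (nat_lit 0) .nil))))))) (.g (nat_lit 5) .nil .nil)))))))))

noncomputable def tv1081 : DT := (.nd (nat_lit 0) (.nd (nat_lit 1) (.nd (nat_lit 2) (.nd (nat_lit 3) (.nd (nat_lit 4) (.nd (nat_lit 5) 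
(.lf (nat_lit 79872) (.g (nat_lit 4023) (.e (nat_lit 1842) (nat_lit 123) (.e (nat_lit 548889) (nat_lit 9) (.e (nat_lit 65610) (nat_lit 10) (.e (nat_lit 344117) (nat_lit 21) (.e (nat_lit 516185) (nat_lit 16) (.e (nat_lit 491552) (nat_lit 9) (.e (nat_lit 335927) (nat_lit 0) .nil))))))) (.g (nat_lit 5) .nil .nil))) 
(.lf (nat_lit 79904) (.g (nat_lit 3120) (.e (nat_lit 1842) (nat_lit 123) (.e (nat_lit 548889) (nat_lit 9) (.e (nat_lit 65616) (nat_lit 10) (.e (nat_lit 344126) (nat_lit 25) (.e (nat_lit 548891) (nat_lit 11) (.e (nat_lit 81943) (nat_lit 20) .nil)))))) (.g (nat_lit 0) .nil .nil)))) (.nd (nat_lit 5) 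
(.lf (nat_lit 79888) (.g (nat_lit 2431) (.e (nat_lit 1842) (nat_lit 123) (.e (nat_lit 548889) (nat_lit 9) (.e (nat_lit 65610) (nat_lit 10) (.e (nat_lit 344129) (nat_lit 26) (.e (nat_lit 557067) (nat_lit 9) (.e (nat_lit 7936) (nat_lit 23) (.e (nat_lit 352280) (nat_lit 20) .nil))))))) (.g (nat_lit 4) .nil .nil))) 
(.lf (nat_lit 79920) (.g (nat_lit 1932) (.e (nat_lit 1842) (nat_lit 123) (.e (nat_lit 548889) (nat_lit 9) (.e (nat_lit 65617) (nat_lit 10) (.e (nat_lit 344130) (nat_lit 26) (.e (nat_lit 557065) (nat_lit 9) (.e (nat_lit 314) (nat_lit 23) (.e (nat_lit 352290) (nat_lit 20) .nil))))))) (.g (nat_lit 4) .nil .nil))))) (.nd (nat_lit 4) (.nd (nat_lit 5) 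
(.lf (nat_lit 79880) (.g (nat_lit 2836) (.e (nat_lit 1842) (nat_lit 123) (.e (nat_lit 548889) (nat_lit 9) (.e (nat_lit 65610) (nat_lit 10) (.e (nat_lit 344129) (nat_lit 26) (.e (nat_lit 557064) (nat_lit 9) (.e (nat_lit 314) (nat_lit 23) (.e (nat_lit 352290) (nat_lit 20) .nil))))))) (.g (nat_lit 4) .nil .nil))) 
(.lf (nat_lit 79912) (.g (nat_lit 1581) (.e (nat_lit 1842) (nat_lit 123) (.e (nat_lit 548889) (nat_lit 9) (.e (nat_lit 65617) (nat_lit 10) (.e (nat_lit 344126) (nat_lit 25) (.e (nat_lit 556800) (nat_lit 11) .nil))))) .nil))) (.nd (nat_lit 5) 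
(.lf (nat_lit 79896) (.g (nat_lit 3379) (.e (nat_lit 1842) (nat_lit 123) (.e (nat_lit 548889) (nat_lit 9) (.e (nat_lit 65610) (nat_lit 10) (.e (nat_lit 344129) (nat_lit 26) (.e (nat_lit 557074) (nat_lit 9) (.e (nat_lit 7936) (nat_lit 26) (.e (nat_lit 376843) (nat_lit 20) .nil))))))) (.g (nat_lit 5) .nil .nil))) 
(.lf (nat_lit 79928) (.g (nat_lit 2227) (.e (nat_lit 1842) (nat_lit 123) (.e (nat_lit 548889) (nat_lit 9) (.e (nat_lit 65617) (nat_lit 10) (.e (nat_lit 344130) (nat_lit 26) (.e (nat_lit 557070) (nat_lit 9) (.e (nat_lit 313) (nat_lit 23) (.e (nat_lit 352290) (nat_lit 20) .nil))))))) (.g (nat_lit 4) .nil .nil)))))) (.nd (nat_lit 3) (.nd (nat_lit 4) (.nd (nat_lit 5) 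
(.lf (nat_lit 79876) (.g (nat_lit 3437) (.e (nat_lit 1842) (nat_lit 123) (.e (nat_lit 548889) (nat_lit 9) (.e (nat_lit 65610) (nat_lit 10) (.e (nat_lit 344126) (nat_lit 25) (.e (nat_lit 548891) (nat_lit 11) (.e (nat_lit 81943) (nat_lit 20) .nil)))))) (.g (nat_lit 0) .nil .nil))) 
(.lf (nat_lit 79908) (.g (nat_lit 916) (.e (nat_lit 1842) (nat_lit 123) (.e (nat_lit 548889) (nat_lit 9) (.e (nat_lit 65617) (nat_lit 10) (.e (nat_lit 344126) (nat_lit 25) .nil)))) .nil))) (.nd (nat_lit 5) 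
(.lf (nat_lit 79892) (.g (nat_lit 2586) (.e (nat_lit 1842) (nat_lit 123) (.e (nat_lit 548889) (nat_lit 9) (.e (nat_lit 65610) (nat_lit 10) (.e (nat_lit 344129) (nat_lit 26) (.e (nat_lit 557070) (nat_lit 9) (.e (nat_lit 7936) (nat_lit 23) (.e (nat_lit 352296) (nat_lit 20) .nil))))))) (.g (nat_lit 4) .nil .nil))) 
(.lf (nat_lit 79924) (.g (nat_lit 2221) (.e (nat_lit 1842) (nat_lit 123) (.e (nat_lit 548889) (nat_lit 9) (.e (nat_lit 65617) (nat_lit 10) (.e (nat_lit 344130) (nat_lit 26) (.e (nat_lit 557066) (nat_lit 9) (.e (nat_lit 314) (nat_lit 23) (.e (nat_lit 352303) (nat_lit 20) .nil))))))) (.g (nat_lit 4) .nil .nil))))) (.nd (nat_lit 4) (.nd (nat_lit 5) 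
(.lf (nat_lit 79884) (.g (nat_lit 2280) (.e (nat_lit 1842) (nat_lit 123) (.e (nat_lit 548889) (nat_lit 9) (.e (nat_lit 65610) (nat_lit 10) (.e (nat_lit 344129) (nat_lit 26) (.e (nat_lit 557066) (nat_lit 9) (.e (nat_lit 310) (nat_lit 23) (.e (nat_lit 352303) (nat_lit 20) .nil))))))) (.g (nat_lit 4) .nil .nil))) 
(.lf (nat_lit 79916) (.g (nat_lit 1148) (.e (nat_lit 1842) (nat_lit 123) (.e (nat_lit 548889) (nat_lit 9) (.e (nat_lit 65617) (nat_lit 10) (.e (nat_lit 344127) (nat_lit 26) (.e (nat_lit 557071) (nat_lit 9) .nil))))) .nil))) (.nd (nat_lit 5) 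
(.lf (nat_lit 79900) (.g (nat_lit 2057) (.e (nat_lit 1842) (nat_lit 123) (.e (nat_lit 548889) (nat_lit 9) (.e (nat_lit 65610) (nat_lit 10) (.e (nat_lit 344129) (nat_lit 26) (.e (nat_lit 557087) (nat_lit 11) (.e (nat_lit 24632) (nat_lit 9) (.e (nat_lit 335916) (nat_lit 0) .nil))))))) (.g (nat_lit 4) .nil .nil))) 
(.lf (nat_lit 79932) (.g (nat_lit 1699) (.e (nat_lit 1842) (nat_lit 123) (.e (nat_lit 548889) (nat_lit 9) (.e (nat_lit 65617) (nat_lit 10) (.e (nat_lit 344130) (nat_lit 26) (.e (nat_lit 557071) (nat_lit 9) .nil))))) .nil)))))) (.nd (nat_lit 2) (.nd (nat_lit 3) (.nd (nat_lit 4) (.nd (nat_lit 5) 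
(.lf (nat_lit 79874) (.g (nat_lit 782) (.e (nat_lit 1842) (nat_lit 123) (.e (nat_lit 548889) (nat_lit 9) (.e (nat_lit 65610) (nat_lit 10) (.e (nat_lit 344126) (nat_lit 25) .nil)))) .nil)) 
(.lf (nat_lit 79906) (.g (nat_lit 1203) (.e (nat_lit 1842) (nat_lit 123) (.e (nat_lit 548889) (nat_lit 9) (.e (nat_lit 65616) (nat_lit 10) (.e (nat_lit 344126) (nat_lit 25) (.e (nat_lit 556800) (nat_lit 11) .nil))))) .nil))) (.nd (nat_lit 5) 
(.lf (nat_lit 79890) (.g (nat_lit 2273) (.e (nat_lit 1842) (nat_lit 123) (.e (nat_lit 548889) (nat_lit 9) (.e (nat_lit 65610) (nat_lit 10) (.e (nat_lit 344129) (nat_lit 26) (.e (nat_lit 557070) (nat_lit 9) .nil))))) .nil)) 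
(.lf (nat_lit 79922) (.g (nat_lit 2521) (.e (nat_lit 1842) (nat_lit 123) (.e (nat_lit 548889) (nat_lit 9) (.e (nat_lit 65617) (nat_lit 10) (.e (nat_lit 344130) (nat_lit 26) (.e (nat_lit 557065) (nat_lit 9) (.e (nat_lit 7936) (nat_lit 23) (.e (nat_lit 352290) (nat_lit 20) .nil))))))) (.g (nat_lit 5) .nil .nil))))) (.nd (nat_lit 4) (.nd (nat_lit 5) 
(.lf (nat_lit 79882) (.g (nat_lit 2165) (.e (nat_lit 1842) (nat_lit 123) (.e (nat_lit 548889) (nat_lit 9) (.e (nat_lit 65610) (nat_lit 10) (.e (nat_lit 344129) (nat_lit 26) (.e (nat_lit 557065) (nat_lit 9) .nil))))) .nil)) 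
(.lf (nat_lit 79914) (.g (nat_lit 3116) (.e (nat_lit 1842) (nat_lit 123) (.e (nat_lit 548889) (nat_lit 9) (.e (nat_lit 65617) (nat_lit 10) (.e (nat_lit 344127) (nat_lit 26) (.e (nat_lit 557066) (nat_lit 9) (.e (nat_lit 314) (nat_lit 23) (.e (nat_lit 352290) (nat_lit 20) .nil))))))) (.g (nat_lit 6) .nil .nil)))) (.nd (nat_lit 5) 
(.lf (nat_lit 79898) (.g (nat_lit 2789) (.e (nat_lit 1842) (nat_lit 123) (.e (nat_lit 548889) (nat_lit 9) (.e (nat_lit 65610) (nat_lit 10) (.e (nat_lit 344129) (nat_lit 26) (.e (nat_lit 557087) (nat_lit 11) (.e (nat_lit 24631) (nat_lit 9) (.e (nat_lit 335886) (nat_lit 0) .nil))))))) (.g (nat_lit 4) .nil .nil))) 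
(.lf (nat_lit 79930) (.g (nat_lit 2279) (.e (nat_lit 1842) (nat_lit 123) (.e (nat_lit 548889) (nat_lit 9) (.e (nat_lit 65617) (nat_lit 10) (.e (nat_lit 344130) (nat_lit 26) (.e (nat_lit 557070) (nat_lit 9) (.e (nat_lit 7936) (nat_lit 23) (.e (nat_lit 352296) (nat_lit 20) .nil))))))) (.g (nat_lit 4) .nil .nil)))))) (.nd (nat_lit 3) (.nd (nat_lit 4) (.nd (nat_lit 5) 
(.lf (nat_lit 79878) (.g (nat_lit 1996) (.e (nat_lit 1842) (nat_lit 123) (.e (nat_lit 548889) (nat_lit 9) (.e (nat_lit 65610) (nat_lit 10) (.e (nat_lit 344126) (nat_lit 25) (.e (nat_lit 556800) (nat_lit 11) (.e (nat_lit 81938) (nat_lit 20) .nil)))))) (.g (nat_lit 4) .nil .nil))) 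
(.lf (nat_lit 79910) (.g (nat_lit 3445) (.e (nat_lit 1842) (nat_lit 123) (.e (nat_lit 548889) (nat_lit 9) (.e (nat_lit 65617) (nat_lit 10) (.e (nat_lit 344126) (nat_lit 25) (.e (nat_lit 548891) (nat_lit 11) (.e (nat_lit 81942) (nat_lit 20) .nil)))))) (.g (nat_lit 0) .nil .nil)))) (.nd (nat_lit 5) 
(.lf (nat_lit 79894) (.g (nat_lit 3209) (.e (nat_lit 1842) (nat_lit 123) (.e (nat_lit 548889) (nat_lit 9) (.e (nat_lit 65610) (nat_lit 10) (.e (nat_lit 344129) (nat_lit 26) (.e (nat_lit 557074) (nat_lit 9) (.e (nat_lit 7936) (nat_lit 23) (.e (nat_lit 352296) (nat_lit 20) .nil))))))) (.g (nat_lit 5) .nil .nil))) 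
(.lf (nat_lit 79926) (.g (nat_lit 2158) (.e (nat_lit 1842) (nat_lit 123) (.e (nat_lit 548889) (nat_lit 9) (.e (nat_lit 65617) (nat_lit 10) (.e (nat_lit 344130) (nat_lit 26) (.e (nat_lit 557067) (nat_lit 9) (.e (nat_lit 7936) (nat_lit 26) (.e (nat_lit 376843) (nat_lit 20) .nil))))))) (.g (nat_lit 4) .nil .nil))))) (.nd (nat_lit 4) (.nd (nat_lit 5) 
(.lf (nat_lit 79886) (.g (nat_lit 2471) (.e (nat_lit 1842) (nat_lit 123) (.e (nat_lit 548889) (nat_lit 9) (.e (nat_lit 65610) (nat_lit 10) (.e (nat_lit 344129) (nat_lit 26) (.e (nat_lit 557066) (nat_lit 9) (.e (nat_lit 314) (nat_lit 23) (.e (nat_lit 352291) (nat_lit 20) .nil))))))) (.g (nat_lit 4) .nil .nil))) 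
(.lf (nat_lit 79918) (.g (nat_lit 1910) (.e (nat_lit 1842) (nat_lit 123) (.e (nat_lit 548889) (nat_lit 9) (.e (nat_lit 65617) (nat_lit 10) (.e (nat_lit 344130) (nat_lit 26) (.e (nat_lit 557064) (nat_lit 9) (.e (nat_lit 313) (nat_lit 23) (.e (nat_lit 352297) (nat_lit 20) .nil))))))) (.g (nat_lit 4) .nil .nil)))) (.nd (nat_lit 5) 
(.lf (nat_lit 79902) (.g (nat_lit 3391) (.e (nat_lit 1842) (nat_lit 123) (.e (nat_lit 548889) (nat_lit 9) (.e (nat_lit 65611) (nat_lit 10) (.e (nat_lit 344126) (nat_lit 25) (.e (nat_lit 548891) (nat_lit 11) (.e (nat_lit 81946) (nat_lit 20) .nil)))))) (.g (nat_lit 0) .nil .nil))) 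
(.lf (nat_lit 79934) (.g (nat_lit 3112) (.e (nat_lit 1842) (nat_lit 123) (.e (nat_lit 548889) (nat_lit 9) (.e (nat_lit 65617) (nat_lit 10) (.e (nat_lit 344130) (nat_lit 26) (.e (nat_lit 557074) (nat_lit 9) (.e (nat_lit 7936) (nat_lit 23) (.e (nat_lit 352296) (nat_lit 20) .nil))))))) (.g (nat_lit 5) .nil .nil)))))))) 
(.nd (nat_lit 1) (.nd (nat_lit 2) (.nd (nat_lit 3) (.nd (nat_lit 4) (.nd (nat_lit 5) 
(.lf (nat_lit 79873) (.g (nat_lit 2867) (.e (nat_lit 1842) (nat_lit 123) (.e (nat_lit 548889) (nat_lit 9) (.e (nat_lit 65610) (nat_lit 10) (.e (nat_lit 344117) (nat_lit 21) (.e (nat_lit 516185) (nat_lit 16) (.e (nat_lit 491552) (nat_lit 9) (.e (nat_lit 335937) (nat_lit 0) .nil))))))) (.g (nat_lit 4) .nil .nil))) 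
(.lf (nat_lit 79905) (.g (nat_lit 3104) (.e (nat_lit 1842) (nat_lit 123) (.e (nat_lit 548889) (nat_lit 9) (.e (nat_lit 65616) (nat_lit 10) (.e (nat_lit 344126) (nat_lit 25) (.e (nat_lit 548891) (nat_lit 11) (.e (nat_lit 81946) (nat_lit 20) .nil)))))) (.g (nat_lit 0) .nil .nil)))) (.nd (nat_lit 5) 
(.lf (nat_lit 79889) (.g (nat_lit 2816) (.e (nat_lit 1842) (nat_lit 123) (.e (nat_lit 548889) (nat_lit 9) (.e (nat_lit 65610) (nat_lit 10) (.e (nat_lit 344129) (nat_lit 26) (.e (nat_lit 557067) (nat_lit 9) (.e (nat_lit 7936) (nat_lit 23) (.e (nat_lit 352303) (nat_lit 20) .nil))))))) (.g (nat_lit 4) .nil .nil))) 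
(.lf (nat_lit 79921) (.g (nat_lit 2213) (.e (nat_lit 1842) (nat_lit 123) (.e (nat_lit 548889) (nat_lit 9) (.e (nat_lit 65617) (nat_lit 10) (.e (nat_lit 344130) (nat_lit 26) (.e (nat_lit 557065) (nat_lit 9) (.e (nat_lit 314) (nat_lit 23) (.e (nat_lit 352297) (nat_lit 20) .nil))))))) (.g (nat_lit 4) .nil .nil))))) (.nd (nat_lit 4) (.nd (nat_lit 5) 
(.lf (nat_lit 79881) (.g (nat_lit 3054) (.e (nat_lit 1842) (nat_lit 123) (.e (nat_lit 548889) (nat_lit 9) (.e (nat_lit 65610) (nat_lit 10) (.e (nat_lit 344129) (nat_lit 26) (.e (nat_lit 557064) (nat_lit 9) (.e (nat_lit 314) (nat_lit 23) (.e (nat_lit 352297) (nat_lit 20) .nil))))))) (.g (nat_lit 4) .nil .nil))) 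
(.lf (nat_lit 79913) (.g (nat_lit 796) (.e (nat_lit 1842) (nat_lit 123) (.e (nat_lit 548889) (nat_lit 9) (.e (nat_lit 65617) (nat_lit 10) (.e (nat_lit 344127) (nat_lit 26) .nil)))) .nil))) (.nd (nat_lit 5) 
(.lf (nat_lit 79897) (.g (nat_lit 1751) (.e (nat_lit 1842) (nat_lit 123) (.e (nat_lit 548889) (nat_lit 9) (.e (nat_lit 65610) (nat_lit 10) (.e (nat_lit 344129) (nat_lit 26) (.e (nat_lit 557087) (nat_lit 11) .nil))))) .nil)) 
(.lf (nat_lit 79929) (.g (nat_lit 2845) (.e (nat_lit 1842) (nat_lit 123) (.e (nat_lit 548889) (nat_lit 9) (.e (nat_lit 65617) (nat_lit 10) (.e (nat_lit 344130) (nat_lit 26) (.e (nat_lit 557070) (nat_lit 9) (.e (nat_lit 7936) (nat_lit 23) (.e (nat_lit 352290) (nat_lit 20) .nil))))))) (.g (nat_lit 5) .nil .nil)))))) (.nd (nat_lit 3) (.nd (nat_lit 4) (.nd (nat_lit 5) 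
(.lf (nat_lit 79877) (.g (nat_lit 1840) (.e (nat_lit 1842) (nat_lit 123) (.e (nat_lit 548889) (nat_lit 9) (.e (nat_lit 65610) (nat_lit 10) (.e (nat_lit 344126) (nat_lit 25) (.e (nat_lit 556800) (nat_lit 11) .nil))))) .nil)) 
(.lf (nat_lit 79909) (.g (nat_lit 3412) (.e (nat_lit 1842) (nat_lit 123) (.e (nat_lit 548889) (nat_lit 9) (.e (nat_lit 65617) (nat_lit 10) (.e (nat_lit 344126) (nat_lit 25) (.e (nat_lit 548891) (nat_lit 11) (.e (nat_lit 81939) (nat_lit 20) .nil)))))) (.g (nat_lit 0) .nil .nil)))) (.nd (nat_lit 5) 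
(.lf (nat_lit 79893) (.g (nat_lit 2538) (.e (nat_lit 1842) (nat_lit 123) (.e (nat_lit 548889) (nat_lit 9) (.e (nat_lit 65610) (nat_lit 10) (.e (nat_lit 344129) (nat_lit 26) (.e (nat_lit 557074) (nat_lit 9) (.e (nat_lit 7936) (nat_lit 23) (.e (nat_lit 352280) (nat_lit 20) .nil))))))) (.g (nat_lit 4) .nil .nil))) 
(.lf (nat_lit 79925) (.g (nat_lit 2458) (.e (nat_lit 1842) (nat_lit 123) (.e (nat_lit 548889) (nat_lit 9) (.e (nat_lit 65617) (nat_lit 10) (.e (nat_lit 344130) (nat_lit 26) (.e (nat_lit 557067) (nat_lit 9) (.e (nat_lit 7936) (nat_lit 23) (.e (nat_lit 352280) (nat_lit 20) .nil))))))) (.g (nat_lit 4) .nil .nil))))) (.nd (nat_lit 4) (.nd (nat_lit 5) 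
(.lf (nat_lit 79885) (.g (nat_lit 2120) (.e (nat_lit 1842) (nat_lit 123) (.e (nat_lit 548889) (nat_lit 9) (.e (nat_lit 65610) (nat_lit 10) (.e (nat_lit 344129) (nat_lit 26) (.e (nat_lit 557066) (nat_lit 9) (.e (nat_lit 312) (nat_lit 23) (.e (nat_lit 352297) (nat_lit 20) .nil))))))) (.g (nat_lit 4) .nil .nil))) 
(.lf (nat_lit 79917) (.g (nat_lit 892) (.e (nat_lit 1842) (nat_lit 123) (.e (nat_lit 548889) (nat_lit 9) (.e (nat_lit 65617) (nat_lit 10) (.e (nat_lit 344130) (nat_lit 26) .nil)))) .nil))) (.nd (nat_lit 5) 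
(.lf (nat_lit 79901) (.g (nat_lit 3177) (.e (nat_lit 1842) (nat_lit 123) (.e (nat_lit 548889) (nat_lit 9) (.e (nat_lit 65611) (nat_lit 10) (.e (nat_lit 344126) (nat_lit 25) (.e (nat_lit 548891) (nat_lit 11) (.e (nat_lit 81942) (nat_lit 20) .nil)))))) (.g (nat_lit 0) .nil .nil))) 
(.lf (nat_lit 79933) (.g (nat_lit 2530) (.e (nat_lit 1842) (nat_lit 123) (.e (nat_lit 548889) (nat_lit 9) (.e (nat_lit 65617) (nat_lit 10) (.e (nat_lit 344130) (nat_lit 26) (.e (nat_lit 557074) (nat_lit 9) (.e (nat_lit 7936) (nat_lit 23) (.e (nat_lit 352280) (nat_lit 20) .nil))))))) (.g (nat_lit 4) .nil .nil))))))) (.nd (nat_lit 2) (.nd (nat_lit 3) (.nd (nat_lit 4) (.nd (nat_lit 5) 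
(.lf (nat_lit 79875) (.g (nat_lit 3157) (.e (nat_lit 1842) (nat_lit 123) (.e (nat_lit 548889) (nat_lit 9) (.e (nat_lit 65610) (nat_lit 10) (.e (nat_lit 344126) (nat_lit 25) (.e (nat_lit 548891) (nat_lit 11) (.e (nat_lit 81942) (nat_lit 20) .nil)))))) (.g (nat_lit 0) .nil .nil))) 
(.lf (nat_lit 79907) (.g (nat_lit 1911) (.e (nat_lit 1842) (nat_lit 123) (.e (nat_lit 548889) (nat_lit 9) (.e (nat_lit 65616) (nat_lit 10) (.e (nat_lit 344133) (nat_lit 26) (.e (nat_lit 557066) (nat_lit 9) .nil))))) .nil))) (.nd (nat_lit 5) 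
(.lf (nat_lit 79891) (.g (nat_lit 2937) (.e (nat_lit 1842) (nat_lit 123) (.e (nat_lit 548889) (nat_lit 9) (.e (nat_lit 65610) (nat_lit 10) (.e (nat_lit 344129) (nat_lit 26) (.e (nat_lit 557070) (nat_lit 9) (.e (nat_lit 313) (nat_lit 23) (.e (nat_lit 352290) (nat_lit 20) .nil))))))) (.g (nat_lit 4) .nil .nil))) 
(.lf (nat_lit 79923) (.g (nat_lit 2499) (.e (nat_lit 1842) (nat_lit 123) (.e (nat_lit 548889) (nat_lit 9) (.e (nat_lit 65617) (nat_lit 10) (.e (nat_lit 344130) (nat_lit 26) (.e (nat_lit 557066) (nat_lit 9) (.e (nat_lit 314) (nat_lit 23) (.e (nat_lit 352291) (nat_lit 20) .nil))))))) (.g (nat_lit 4) .nil .nil))))) (.nd (nat_lit 4) (.nd (nat_lit 5) 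
(.lf (nat_lit 79883) (.g (nat_lit 1862) (.e (nat_lit 1842) (nat_lit 123) (.e (nat_lit 548889) (nat_lit 9) (.e (nat_lit 65610) (nat_lit 10) (.e (nat_lit 344129) (nat_lit 26) (.e (nat_lit 557066) (nat_lit 9) .nil))))) .nil)) 
(.lf (nat_lit 79915) (.g (nat_lit 3160) (.e (nat_lit 1842) (nat_lit 123) (.e (nat_lit 548889) (nat_lit 9) (.e (nat_lit 65617) (nat_lit 10) (.e (nat_lit 344127) (nat_lit 26) (.e (nat_lit 557066) (nat_lit 9) (.e (nat_lit 314) (nat_lit 23) (.e (nat_lit 352297) (nat_lit 20) .nil))))))) (.g (nat_lit 6) .nil .nil)))) (.nd (nat_lit 5) 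
(.lf (nat_lit 79899) (.g (nat_lit 2879) (.e (nat_lit 1842) (nat_lit 123) (.e (nat_lit 548889) (nat_lit 9) (.e (nat_lit 65610) (nat_lit 10) (.e (nat_lit 344129) (nat_lit 26) (.e (nat_lit 557087) (nat_lit 11) (.e (nat_lit 24631) (nat_lit 9) (.e (nat_lit 335925) (nat_lit 0) .nil))))))) (.g (nat_lit 5) .nil .nil))) 
(.lf (nat_lit 79931) (.g (nat_lit 2902) (.e (nat_lit 1842) (nat_lit 123) (.e (nat_lit 548889) (nat_lit 9) (.e (nat_lit 65617) (nat_lit 10) (.e (nat_lit 344130) (nat_lit 26) (.e (nat_lit 557070) (nat_lit 9) (.e (nat_lit 7936) (nat_lit 23) (.e (nat_lit 352297) (nat_lit 20) .nil))))))) (.g (nat_lit 5) .nil .nil)))))) (.nd (nat_lit 3) (.nd (nat_lit 4) (.nd (nat_lit 5) 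
(.lf (nat_lit 79879) (.g (nat_lit 1880) (.e (nat_lit 1842) (nat_lit 123) (.e (nat_lit 548889) (nat_lit 9) (.e (nat_lit 65610) (nat_lit 10) (.e (nat_lit 344126) (nat_lit 25) (.e (nat_lit 556800) (nat_lit 11) (.e (nat_lit 81943) (nat_lit 20) .nil)))))) (.g (nat_lit 4) .nil .nil))) 
(.lf (nat_lit 79911) (.g (nat_lit 3670) (.e (nat_lit 1842) (nat_lit 123) (.e (nat_lit 548889) (nat_lit 9) (.e (nat_lit 65617) (nat_lit 10) (.e (nat_lit 344126) (nat_lit 25) (.e (nat_lit 548891) (nat_lit 11) (.e (nat_lit 81943) (nat_lit 20) .nil)))))) (.g (nat_lit 0) .nil .nil)))) (.nd (nat_lit 5) 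
(.lf (nat_lit 79895) (.g (nat_lit 3254) (.e (nat_lit 1842) (nat_lit 123) (.e (nat_lit 548889) (nat_lit 9) (.e (nat_lit 65610) (nat_lit 10) (.e (nat_lit 344129) (nat_lit 26) (.e (nat_lit 557074) (nat_lit 9) (.e (nat_lit 7936) (nat_lit 23) (.e (nat_lit 352302) (nat_lit 20) .nil))))))) (.g (nat_lit 5) .nil .nil))) 
(.lf (nat_lit 79927) (.g (nat_lit 1748) (.e (nat_lit 1842) (nat_lit 123) (.e (nat_lit 548889) (nat_lit 9) (.e (nat_lit 65617) (nat_lit 10) (.e (nat_lit 344130) (nat_lit 26) (.e (nat_lit 557070) (nat_lit 9) .nil))))) .nil)))) (.nd (nat_lit 4) (.nd (nat_lit 5) 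
(.lf (nat_lit 79887) (.g (nat_lit 2322) (.e (nat_lit 1842) (nat_lit 123) (.e (nat_lit 548889) (nat_lit 9) (.e (nat_lit 65610) (nat_lit 10) (.e (nat_lit 344129) (nat_lit 26) (.e (nat_lit 557066) (nat_lit 9) (.e (nat_lit 314) (nat_lit 23) (.e (nat_lit 352303) (nat_lit 20) .nil))))))) (.g (nat_lit 4) .nil .nil))) 
(.lf (nat_lit 79919) (.g (nat_lit 1560) (.e (nat_lit 1842) (nat_lit 123) (.e (nat_lit 548889) (nat_lit 9) (.e (nat_lit 65617) (nat_lit 10) (.e (nat_lit 344130) (nat_lit 26) (.e (nat_lit 557065) (nat_lit 9) .nil))))) .nil))) (.nd (nat_lit 5) 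
(.lf (nat_lit 79903) (.g (nat_lit 2899) (.e (nat_lit 1842) (nat_lit 123) (.e (nat_lit 548889) (nat_lit 9) (.e (nat_lit 65616) (nat_lit 10) (.e (nat_lit 344126) (nat_lit 25) (.e (nat_lit 548891) (nat_lit 11) (.e (nat_lit 81942) (nat_lit 20) .nil)))))) (.g (nat_lit 0) .nil .nil))) 
(.lf (nat_lit 79935) (.g (nat_lit 3128) (.e (nat_lit 1842) (nat_lit 123) (.e (nat_lit 548889) (nat_lit 9) (.e (nat_lit 65617) (nat_lit 10) (.e (nat_lit 344130) (nat_lit 26) (.e (nat_lit 557074) (nat_lit 9) (.e (nat_lit 7936) (nat_lit 23) (.e (nat_lit 352302) (nat_lit 20) .nil))))))) (.g (nat_lit 5) .nil .nil)))))))))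

noncomputable def tv1082 : DT := (.nd (nat_lit 0) (.nd (nat_lit 1) (.nd (nat_lit 2) (.nd (nat_lit 3) (.nd (nat_lit 4) (.nd (nat_lit 5) 
(.lf (nat_lit 79936) (.g (nat_lit 3385) (.e (nat_lit 1842) (nat_lit 123) (.e (nat_lit 548889) (nat_lit 9) (.e (nat_lit 65617) (nat_lit 10) (.e (nat_lit 344130) (nat_lit 26) (.e (nat_lit 557074) (nat_lit 9) (.e (nat_lit 7936) (nat_lit 26) (.e (nat_lit 376843) (nat_lit 20) .nil))))))) (.g (nat_lit 5) .nil .nil))) 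
(.lf (nat_lit 79968) (.g (nat_lit 2076) (.e (nat_lit 1842) (nat_lit 123) (.e (nat_lit 548889) (nat_lit 9) (.e (nat_lit 65617) (nat_lit 10) (.e (nat_lit 344133) (nat_lit 26) (.e (nat_lit 557068) (nat_lit 9) (.e (nat_lit 7936) (nat_lit 23) (.e (nat_lit 352303) (nat_lit 20) .nil))))))) (.g (nat_lit 4) .nil .nil)))) (.nd (nat_lit 5) 
(.lf (nat_lit 79952) (.g (nat_lit 3147) (.e (nat_lit 1842) (nat_lit 123) (.e (nat_lit 548889) (nat_lit 9) (.e (nat_lit 65617) (nat_lit 10) (.e (nat_lit 344132) (nat_lit 26) (.e (nat_lit 557070) (nat_lit 9) (.e (nat_lit 313) (nat_lit 23) (.e (nat_lit 352297) (nat_lit 20) .nil))))))) (.g (nat_lit 5) .nil .nil))) 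
(.lf (nat_lit 79984) (.g (nat_lit 2530) (.e (nat_lit 1842) (nat_lit 123) (.e (nat_lit 548889) (nat_lit 9) (.e (nat_lit 65619) (nat_lit 10) (.e (nat_lit 344117) (nat_lit 21) (.e (nat_lit 516185) (nat_lit 16) (.e (nat_lit 491552) (nat_lit 9) (.e (nat_lit 335925) (nat_lit 0) .nil))))))) (.g (nat_lit 4) .nil .nil))))) (.nd (nat_lit 4) (.nd (nat_lit 5) 
(.lf (nat_lit 79944) (.g (nat_lit 2594) (.e (nat_lit 1842) (nat_lit 123) (.e (nat_lit 548889) (nat_lit 9) (.e (nat_lit 65617) (nat_lit 10) (.e (nat_lit 344130) (nat_lit 26) (.e (nat_lit 557087) (nat_lit 11) (.e (nat_lit 24634) (nat_lit 9) (.e (nat_lit 335925) (nat_lit 0) .nil))))))) (.g (nat_lit 4) .nil .nil))) 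
(.lf (nat_lit 79976) (.g (nat_lit 2186) (.e (nat_lit 1842) (nat_lit 123) (.e (nat_lit 548889) (nat_lit 9) (.e (nat_lit 65619) (nat_lit 10) (.e (nat_lit 344117) (nat_lit 21) (.e (nat_lit 516097) (nat_lit 0) (.e (nat_lit 7587) (nat_lit 406) (.e (nat_lit 65547) (nat_lit 0) .nil))))))) (.g (nat_lit 4) .nil .nil)))) (.nd (nat_lit 5) 
(.lf (nat_lit 79960) (.g (nat_lit 1745) (.e (nat_lit 1842) (nat_lit 123) (.e (nat_lit 548889) (nat_lit 9) (.e (nat_lit 65617) (nat_lit 10) (.e (nat_lit 344133) (nat_lit 26) (.e (nat_lit 557065) (nat_lit 9) .nil))))) .nil)) 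
(.lf (nat_lit 79992) (.g (nat_lit 1926) (.e (nat_lit 1842) (nat_lit 123) (.e (nat_lit 548889) (nat_lit 9) (.e (nat_lit 65619) (nat_lit 10) (.e (nat_lit 344126) (nat_lit 25) (.e (nat_lit 556800) (nat_lit 11) (.e (nat_lit 81938) (nat_lit 20) .nil)))))) (.g (nat_lit 4) .nil .nil)))))) (.nd (nat_lit 3) (.nd (nat_lit 4) (.nd (nat_lit 5) 
(.lf (nat_lit 79940) (.g (nat_lit 3246) (.e (nat_lit 1842) (nat_lit 123) (.e (nat_lit 548889) (nat_lit 9) (.e (nat_lit 65617) (nat_lit 10) (.e (nat_lit 344130) (nat_lit 26) (.e (nat_lit 557087) (nat_lit 11) (.e (nat_lit 24631) (nat_lit 9) (.e (nat_lit 335925) (nat_lit 0) .nil))))))) (.g (nat_lit 5) .nil .nil))) 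
(.lf (nat_lit 79972) (.g (nat_lit 1921) (.e (nat_lit 1842) (nat_lit 123) (.e (nat_lit 548889) (nat_lit 9) (.e (nat_lit 65617) (nat_lit 10) (.e (nat_lit 344133) (nat_lit 26) (.e (nat_lit 557079) (nat_lit 9) (.e (nat_lit 316) (nat_lit 23) (.e (nat_lit 352297) (nat_lit 20) .nil))))))) (.g (nat_lit 4) .nil .nil)))) (.nd (nat_lit 5) 
(.lf (nat_lit 79956) (.g (nat_lit 2979) (.e (nat_lit 1842) (nat_lit 123) (.e (nat_lit 548889) (nat_lit 9) (.e (nat_lit 65617) (nat_lit 10) (.e (nat_lit 344132) (nat_lit 26) (.e (nat_lit 557072) (nat_lit 9) (.e (nat_lit 7936) (nat_lit 23) (.e (nat_lit 352296) (nat_lit 20) .nil))))))) (.g (nat_lit 5) .nil .nil))) 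
(.lf (nat_lit 79988) (.g (nat_lit 871) (.e (nat_lit 1842) (nat_lit 123) (.e (nat_lit 548889) (nat_lit 9) (.e (nat_lit 65619) (nat_lit 10) (.e (nat_lit 344126) (nat_lit 25) .nil)))) .nil)))) (.nd (nat_lit 4) (.nd (nat_lit 5) 
(.lf (nat_lit 79948) (.g (nat_lit 2401) (.e (nat_lit 1842) (nat_lit 123) (.e (nat_lit 548889) (nat_lit 9) (.e (nat_lit 65617) (nat_lit 10) (.e (nat_lit 344130) (nat_lit 26) (.e (nat_lit 557087) (nat_lit 11) (.e (nat_lit 24638) (nat_lit 9) (.e (nat_lit 335917) (nat_lit 0) .nil))))))) (.g (nat_lit 4) .nil .nil))) 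
(.lf (nat_lit 79980) (.g (nat_lit 2257) (.e (nat_lit 1842) (nat_lit 123) (.e (nat_lit 548889) (nat_lit 9) (.e (nat_lit 65619) (nat_lit 10) (.e (nat_lit 344117) (nat_lit 21) (.e (nat_lit 516106) (nat_lit 0) (.e (nat_lit 7936) (nat_lit 406) (.e (nat_lit 65553) (nat_lit 0) .nil))))))) (.g (nat_lit 4) .nil .nil)))) (.nd (nat_lit 5) 
(.lf (nat_lit 79964) (.g (nat_lit 3809) (.e (nat_lit 1842) (nat_lit 123) (.e (nat_lit 548889) (nat_lit 9) (.e (nat_lit 65617) (nat_lit 10) (.e (nat_lit 344133) (nat_lit 26) (.e (nat_lit 557066) (nat_lit 9) (.e (nat_lit 314) (nat_lit 23) (.e (nat_lit 352290) (nat_lit 20) .nil))))))) (.g (nat_lit 6) .nil .nil))) 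
(.lf (nat_lit 79996) (.g (nat_lit 2865) (.e (nat_lit 1842) (nat_lit 123) (.e (nat_lit 548889) (nat_lit 9) (.e (nat_lit 65619) (nat_lit 10) (.e (nat_lit 344129) (nat_lit 26) (.e (nat_lit 557074) (nat_lit 9) (.e (nat_lit 7936) (nat_lit 23) (.e (nat_lit 352302) (nat_lit 20) .nil))))))) (.g (nat_lit 4) .nil .nil))))))) (.nd (nat_lit 2) (.nd (nat_lit 3) (.nd (nat_lit 4) (.nd (nat_lit 5) 
(.lf (nat_lit 79938) (.g (nat_lit 1490) (.e (nat_lit 1842) (nat_lit 123) (.e (nat_lit 548889) (nat_lit 9) (.e (nat_lit 65617) (nat_lit 10) (.e (nat_lit 344130) (nat_lit 26) (.e (nat_lit 557087) (nat_lit 11) .nil))))) .nil)) 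
(.lf (nat_lit 79970) (.g (nat_lit 2314) (.e (nat_lit 1842) (nat_lit 123) (.e (nat_lit 548889) (nat_lit 9) (.e (nat_lit 65617) (nat_lit 10) (.e (nat_lit 344133) (nat_lit 26) (.e (nat_lit 557070) (nat_lit 9) .nil))))) .nil))) (.nd (nat_lit 5) 
(.lf (nat_lit 79954) (.g (nat_lit 3056) (.e (nat_lit 1842) (nat_lit 123) (.e (nat_lit 548889) (nat_lit 9) (.e (nat_lit 65617) (nat_lit 10) (.e (nat_lit 344132) (nat_lit 26) (.e (nat_lit 557070) (nat_lit 9) (.e (nat_lit 7936) (nat_lit 23) (.e (nat_lit 352297) (nat_lit 20) .nil))))))) (.g (nat_lit 5) .nil .nil))) 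
(.lf (nat_lit 79986) (.g (nat_lit 2340) (.e (nat_lit 1842) (nat_lit 123) (.e (nat_lit 548889) (nat_lit 9) (.e (nat_lit 65619) (nat_lit 10) (.e (nat_lit 344117) (nat_lit 21) (.e (nat_lit 516185) (nat_lit 16) (.e (nat_lit 491552) (nat_lit 9) (.e (nat_lit 335928) (nat_lit 0) .nil))))))) (.g (nat_lit 4) .nil .nil))))) (.nd (nat_lit 4) (.nd (nat_lit 5) 
(.lf (nat_lit 79946) (.g (nat_lit 2987) (.e (nat_lit 1842) (nat_lit 123) (.e (nat_lit 548889) (nat_lit 9) (.e (nat_lit 65617) (nat_lit 10) (.e (nat_lit 344130) (nat_lit 26) (.e (nat_lit 557087) (nat_lit 11) (.e (nat_lit 24637) (nat_lit 9) (.e (nat_lit 335917) (nat_lit 0) .nil))))))) (.g (nat_lit 5) .nil .nil))) 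
(.lf (nat_lit 79978) (.g (nat_lit 2668) (.e (nat_lit 1842) (nat_lit 123) (.e (nat_lit 548889) (nat_lit 9) (.e (nat_lit 65619) (nat_lit 10) (.e (nat_lit 344117) (nat_lit 21) (.e (nat_lit 516106) (nat_lit 0) (.e (nat_lit 6986) (nat_lit 377) (.e (nat_lit 2779) (nat_lit 178) (.e (nat_lit 286728) (nat_lit 0) .nil)))))))) (.g (nat_lit 4) .nil .nil)))) (.nd (nat_lit 5) 
(.lf (nat_lit 79962) (.g (nat_lit 2437) (.e (nat_lit 1842) (nat_lit 123) (.e (nat_lit 548889) (nat_lit 9) (.e (nat_lit 65617) (nat_lit 10) (.e (nat_lit 344133) (nat_lit 26) (.e (nat_lit 557065) (nat_lit 9) (.e (nat_lit 7936) (nat_lit 23) (.e (nat_lit 352290) (nat_lit 20) .nil))))))) (.g (nat_lit 4) .nil .nil))) 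
(.lf (nat_lit 79994) (.g (nat_lit 3326) (.e (nat_lit 1842) (nat_lit 123) (.e (nat_lit 548889) (nat_lit 9) (.e (nat_lit 65619) (nat_lit 10) (.e (nat_lit 344129) (nat_lit 26) (.e (nat_lit 557065) (nat_lit 9) (.e (nat_lit 7936) (nat_lit 23) (.e (nat_lit 352290) (nat_lit 20) .nil))))))) (.g (nat_lit 5) .nil .nil)))))) (.nd (nat_lit 3) (.nd (nat_lit 4) (.nd (nat_lit 5) 
(.lf (nat_lit 79942) (.g (nat_lit 2306) (.e (nat_lit 1842) (nat_lit 123) (.e (nat_lit 548889) (nat_lit 9) (.e (nat_lit 65617) (nat_lit 10) (.e (nat_lit 344130) (nat_lit 26) (.e (nat_lit 557087) (nat_lit 11) (.e (nat_lit 24632) (nat_lit 9) (.e (nat_lit 335927) (nat_lit 0) .nil))))))) (.g (nat_lit 4) .nil .nil))) 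
(.lf (nat_lit 79974) (.g (nat_lit 3053) (.e (nat_lit 1842) (nat_lit 123) (.e (nat_lit 548889) (nat_lit 9) (.e (nat_lit 65617) (nat_lit 10) (.e (nat_lit 344133) (nat_lit 26) (.e (nat_lit 557091) (nat_lit 12) (.e (nat_lit 163843) (nat_lit 0) (.e (nat_lit 6047) (nat_lit 326) (.e (nat_lit 1199) (nat_lit 88) (.e (nat_lit 65546) (nat_lit 0) .nil))))))))) (.g (nat_lit 5) .nil .nil)))) (.nd (nat_lit 5) 
(.lf (nat_lit 79958) (.g (nat_lit 2313) (.e (nat_lit 1842) (nat_lit 123) (.e (nat_lit 548889) (nat_lit 9) (.e (nat_lit 65617) (nat_lit 10) (.e (nat_lit 344132) (nat_lit 26) (.e (nat_lit 557081) (nat_lit 9) (.e (nat_lit 316) (nat_lit 23) (.e (nat_lit 352297) (nat_lit 20) .nil))))))) (.g (nat_lit 4) .nil .nil))) 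
(.lf (nat_lit 79990) (.g (nat_lit 3574) (.e (nat_lit 1842) (nat_lit 123) (.e (nat_lit 548889) (nat_lit 9) (.e (nat_lit 65619) (nat_lit 10) (.e (nat_lit 344126) (nat_lit 25) (.e (nat_lit 548891) (nat_lit 11) (.e (nat_lit 81943) (nat_lit 20) .nil)))))) (.g (nat_lit 0) .nil .nil))))) (.nd (nat_lit 4) (.nd (nat_lit 5) 
(.lf (nat_lit 79950) (.g (nat_lit 2017) (.e (nat_lit 1842) (nat_lit 123) (.e (nat_lit 548889) (nat_lit 9) (.e (nat_lit 65617) (nat_lit 10) (.e (nat_lit 344132) (nat_lit 26) (.e (nat_lit 557064) (nat_lit 9) .nil))))) .nil)) 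
(.lf (nat_lit 79982) (.g (nat_lit 3544) (.e (nat_lit 1842) (nat_lit 123) (.e (nat_lit 548889) (nat_lit 9) (.e (nat_lit 65619) (nat_lit 10) (.e (nat_lit 344117) (nat_lit 21) (.e (nat_lit 516185) (nat_lit 16) (.e (nat_lit 491552) (nat_lit 9) (.e (nat_lit 335886) (nat_lit 0) .nil))))))) (.g (nat_lit 6) .nil .nil)))) (.nd (nat_lit 5) 
(.lf (nat_lit 79966) (.g (nat_lit 2471) (.e (nat_lit 1842) (nat_lit 123) (.e (nat_lit 548889) (nat_lit 9) (.e (nat_lit 65617) (nat_lit 10) (.e (nat_lit 344133) (nat_lit 26) (.e (nat_lit 557068) (nat_lit 9) (.e (nat_lit 7936) (nat_lit 23) (.e (nat_lit 352280) (nat_lit 20) .nil))))))) (.g (nat_lit 4) .nil .nil))) 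
(.lf (nat_lit 79998) (.g (nat_lit 2401) (.e (nat_lit 1842) (nat_lit 123) (.e (nat_lit 548889) (nat_lit 9) (.e (nat_lit 65619) (nat_lit 10) (.e (nat_lit 344129) (nat_lit 26) (.e (nat_lit 557087) (nat_lit 11) (.e (nat_lit 24631) (nat_lit 9) (.e (nat_lit 335886) (nat_lit 0) .nil))))))) (.g (nat_lit 4) .nil .nil)))))))) 
(.nd (nat_lit 1) (.nd (nat_lit 2) (.nd (nat_lit 3) (.nd (nat_lit 4) (.nd (nat_lit 5) 
(.lf (nat_lit 79937) (.g (nat_lit 2177) (.e (nat_lit 1842) (nat_lit 123) (.e (nat_lit 548889) (nat_lit 9) (.e (nat_lit 65617) (nat_lit 10) (.e (nat_lit 344130) (nat_lit 26) (.e (nat_lit 557080) (nat_lit 9) (.e (nat_lit 316) (nat_lit 23) (.e (nat_lit 352297) (nat_lit 20) .nil))))))) (.g (nat_lit 4) .nil .nil))) 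
(.lf (nat_lit 79969) (.g (nat_lit 2171) (.e (nat_lit 1842) (nat_lit 123) (.e (nat_lit 548889) (nat_lit 9) (.e (nat_lit 65617) (nat_lit 10) (.e (nat_lit 344133) (nat_lit 26) (.e (nat_lit 557068) (nat_lit 9) (.e (nat_lit 7936) (nat_lit 26) (.e (nat_lit 376843) (nat_lit 20) .nil))))))) (.g (nat_lit 4) .nil .nil)))) (.nd (nat_lit 5) 
(.lf (nat_lit 79953) (.g (nat_lit 2999) (.e (nat_lit 1842) (nat_lit 123) (.e (nat_lit 548889) (nat_lit 9) (.e (nat_lit 65617) (nat_lit 10) (.e (nat_lit 344132) (nat_lit 26) (.e (nat_lit 557070) (nat_lit 9) (.e (nat_lit 7936) (nat_lit 23) (.e (nat_lit 352290) (nat_lit 20) .nil))))))) (.g (nat_lit 5) .nil .nil))) 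
(.lf (nat_lit 79985) (.g (nat_lit 3165) (.e (nat_lit 1842) (nat_lit 123) (.e (nat_lit 548889) (nat_lit 9) (.e (nat_lit 65619) (nat_lit 10) (.e (nat_lit 344117) (nat_lit 21) (.e (nat_lit 516185) (nat_lit 16) (.e (nat_lit 491552) (nat_lit 9) (.e (nat_lit 335927) (nat_lit 0) .nil))))))) (.g (nat_lit 5) .nil .nil))))) (.nd (nat_lit 4) (.nd (nat_lit 5) 
(.lf (nat_lit 79945) (.g (nat_lit 2193) (.e (nat_lit 1842) (nat_lit 123) (.e (nat_lit 548889) (nat_lit 9) (.e (nat_lit 65617) (nat_lit 10) (.e (nat_lit 344130) (nat_lit 26) (.e (nat_lit 557087) (nat_lit 11) (.e (nat_lit 24634) (nat_lit 9) (.e (nat_lit 335927) (nat_lit 0) .nil))))))) (.g (nat_lit 4) .nil .nil))) 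
(.lf (nat_lit 79977) (.g (nat_lit 2133) (.e (nat_lit 1842) (nat_lit 123) (.e (nat_lit 548889) (nat_lit 9) (.e (nat_lit 65619) (nat_lit 10) (.e (nat_lit 344117) (nat_lit 21) (.e (nat_lit 516097) (nat_lit 0) (.e (nat_lit 7587) (nat_lit 406) (.e (nat_lit 65553) (nat_lit 0) .nil))))))) (.g (nat_lit 4) .nil .nil)))) (.nd (nat_lit 5) 
(.lf (nat_lit 79961) (.g (nat_lit 2129) (.e (nat_lit 1842) (nat_lit 123) (.e (nat_lit 548889) (nat_lit 9) (.e (nat_lit 65617) (nat_lit 10) (.e (nat_lit 344133) (nat_lit 26) (.e (nat_lit 557065) (nat_lit 9) (.e (nat_lit 314) (nat_lit 23) (.e (nat_lit 352297) (nat_lit 20) .nil))))))) (.g (nat_lit 4) .nil .nil))) 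
(.lf (nat_lit 79993) (.g (nat_lit 2737) (.e (nat_lit 1842) (nat_lit 123) (.e (nat_lit 548889) (nat_lit 9) (.e (nat_lit 65619) (nat_lit 10) (.e (nat_lit 344129) (nat_lit 26) (.e (nat_lit 557065) (nat_lit 9) (.e (nat_lit 314) (nat_lit 23) (.e (nat_lit 352290) (nat_lit 20) .nil))))))) (.g (nat_lit 4) .nil .nil)))))) (.nd (nat_lit 3) (.nd (nat_lit 4) (.nd (nat_lit 5) 
(.lf (nat_lit 79941) (.g (nat_lit 2357) (.e (nat_lit 1842) (nat_lit 123) (.e (nat_lit 548889) (nat_lit 9) (.e (nat_lit 65617) (nat_lit 10) (.e (nat_lit 344130) (nat_lit 26) (.e (nat_lit 557087) (nat_lit 11) (.e (nat_lit 24632) (nat_lit 9) (.e (nat_lit 335916) (nat_lit 0) .nil))))))) (.g (nat_lit 4) .nil .nil))) 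
(.lf (nat_lit 79973) (.g (nat_lit 2152) (.e (nat_lit 1842) (nat_lit 123) (.e (nat_lit 548889) (nat_lit 9) (.e (nat_lit 65617) (nat_lit 10) (.e (nat_lit 344133) (nat_lit 26) (.e (nat_lit 557080) (nat_lit 9) .nil))))) .nil))) (.nd (nat_lit 5) 
(.lf (nat_lit 79957) (.g (nat_lit 2897) (.e (nat_lit 1842) (nat_lit 123) (.e (nat_lit 548889) (nat_lit 9) (.e (nat_lit 65617) (nat_lit 10) (.e (nat_lit 344132) (nat_lit 26) (.e (nat_lit 557073) (nat_lit 9) (.e (nat_lit 7936) (nat_lit 23) (.e (nat_lit 352291) (nat_lit 20) .nil))))))) (.g (nat_lit 5) .nil .nil))) 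
(.lf (nat_lit 79989) (.g (nat_lit 3363) (.e (nat_lit 1842) (nat_lit 123) (.e (nat_lit 548889) (nat_lit 9) (.e (nat_lit 65619) (nat_lit 10) (.e (nat_lit 344126) (nat_lit 25) (.e (nat_lit 548891) (nat_lit 11) (.e (nat_lit 81942) (nat_lit 20) .nil)))))) (.g (nat_lit 0) .nil .nil))))) (.nd (nat_lit 4) (.nd (nat_lit 5) 
(.lf (nat_lit 79949) (.g (nat_lit 3477) (.e (nat_lit 1842) (nat_lit 123) (.e (nat_lit 548889) (nat_lit 9) (.e (nat_lit 65617) (nat_lit 10) (.e (nat_lit 344130) (nat_lit 26) (.e (nat_lit 557090) (nat_lit 12) (.e (nat_lit 163844) (nat_lit 0) (.e (nat_lit 6047) (nat_lit 326) (.e (nat_lit 1199) (nat_lit 88) (.e (nat_lit 65546) (nat_lit 0) .nil))))))))) (.g (nat_lit 5) .nil .nil))) 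
(.lf (nat_lit 79981) (.g (nat_lit 4915) (.e (nat_lit 1842) (nat_lit 123) (.e (nat_lit 548889) (nat_lit 9) (.e (nat_lit 65619) (nat_lit 10) (.e (nat_lit 344117) (nat_lit 21) (.e (nat_lit 516185) (nat_lit 16) (.e (nat_lit 491551) (nat_lit 9) (.e (nat_lit 335928) (nat_lit 0) .nil))))))) (.g (nat_lit 6) .nil .nil)))) (.nd (nat_lit 5) 
(.lf (nat_lit 79965) (.g (nat_lit 3853) (.e (nat_lit 1842) (nat_lit 123) (.e (nat_lit 548889) (nat_lit 9) (.e (nat_lit 65617) (nat_lit 10) (.e (nat_lit 344133) (nat_lit 26) (.e (nat_lit 557066) (nat_lit 9) (.e (nat_lit 314) (nat_lit 23) (.e (nat_lit 352297) (nat_lit 20) .nil))))))) (.g (nat_lit 6) .nil .nil))) 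
(.lf (nat_lit 79997) (.g (nat_lit 2969) (.e (nat_lit 1842) (nat_lit 123) (.e (nat_lit 548889) (nat_lit 9) (.e (nat_lit 65619) (nat_lit 10) (.e (nat_lit 344129) (nat_lit 26) (.e (nat_lit 557074) (nat_lit 9) (.e (nat_lit 7936) (nat_lit 26) (.e (nat_lit 376843) (nat_lit 20) .nil))))))) (.g (nat_lit 4) .nil .nil))))))) (.nd (nat_lit 2) (.nd (nat_lit 3) (.nd (nat_lit 4) (.nd (nat_lit 5) 
(.lf (nat_lit 79939) (.g (nat_lit 2931) (.e (nat_lit 1842) (nat_lit 123) (.e (nat_lit 548889) (nat_lit 9) (.e (nat_lit 65617) (nat_lit 10) (.e (nat_lit 344130) (nat_lit 26) (.e (nat_lit 557087) (nat_lit 11) (.e (nat_lit 24631) (nat_lit 9) (.e (nat_lit 335886) (nat_lit 0) .nil))))))) (.g (nat_lit 5) .nil .nil))) 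
(.lf (nat_lit 79971) (.g (nat_lit 2848) (.e (nat_lit 1842) (nat_lit 123) (.e (nat_lit 548889) (nat_lit 9) (.e (nat_lit 65617) (nat_lit 10) (.e (nat_lit 344133) (nat_lit 26) (.e (nat_lit 557070) (nat_lit 9) (.e (nat_lit 313) (nat_lit 23) (.e (nat_lit 352297) (nat_lit 20) .nil))))))) (.g (nat_lit 4) .nil .nil)))) (.nd (nat_lit 5) 
(.lf (nat_lit 79955) (.g (nat_lit 3168) (.e (nat_lit 1842) (nat_lit 123) (.e (nat_lit 548889) (nat_lit 9) (.e (nat_lit 65617) (nat_lit 10) (.e (nat_lit 344132) (nat_lit 26) (.e (nat_lit 557072) (nat_lit 9) (.e (nat_lit 7936) (nat_lit 23) (.e (nat_lit 352291) (nat_lit 20) .nil))))))) (.g (nat_lit 5) .nil .nil))) 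
(.lf (nat_lit 79987) (.g (nat_lit 2110) (.e (nat_lit 1842) (nat_lit 123) (.e (nat_lit 548889) (nat_lit 9) (.e (nat_lit 65619) (nat_lit 10) (.e (nat_lit 344117) (nat_lit 21) (.e (nat_lit 516185) (nat_lit 16) (.e (nat_lit 491552) (nat_lit 9) (.e (nat_lit 335937) (nat_lit 0) .nil))))))) (.g (nat_lit 4) .nil .nil))))) (.nd (nat_lit 4) (.nd (nat_lit 5) 
(.lf (nat_lit 79947) (.g (nat_lit 2518) (.e (nat_lit 1842) (nat_lit 123) (.e (nat_lit 548889) (nat_lit 9) (.e (nat_lit 65617) (nat_lit 10) (.e (nat_lit 344130) (nat_lit 26) (.e (nat_lit 557087) (nat_lit 11) (.e (nat_lit 24637) (nat_lit 9) (.e (nat_lit 335926) (nat_lit 0) .nil))))))) (.g (nat_lit 4) .nil .nil))) 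
(.lf (nat_lit 79979) (.g (nat_lit 4614) (.e (nat_lit 1842) (nat_lit 123) (.e (nat_lit 548889) (nat_lit 9) (.e (nat_lit 65619) (nat_lit 10) (.e (nat_lit 344117) (nat_lit 21) (.e (nat_lit 516106) (nat_lit 0) (.e (nat_lit 6986) (nat_lit 377) (.e (nat_lit 2782) (nat_lit 178) (.e (nat_lit 286725) (nat_lit 0) .nil)))))))) (.g (nat_lit 6) .nil .nil)))) (.nd (nat_lit 5) 
(.lf (nat_lit 79963) (.g (nat_lit 2315) (.e (nat_lit 1842) (nat_lit 123) (.e (nat_lit 548889) (nat_lit 9) (.e (nat_lit 65617) (nat_lit 10) (.e (nat_lit 344133) (nat_lit 26) (.e (nat_lit 557065) (nat_lit 9) (.e (nat_lit 7936) (nat_lit 23) (.e (nat_lit 352297) (nat_lit 20) .nil))))))) (.g (nat_lit 4) .nil .nil))) 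
(.lf (nat_lit 79995) (.g (nat_lit 2140) (.e (nat_lit 1842) (nat_lit 123) (.e (nat_lit 548889) (nat_lit 9) (.e (nat_lit 65619) (nat_lit 10) (.e (nat_lit 344129) (nat_lit 26) (.e (nat_lit 557066) (nat_lit 9) (.e (nat_lit 312) (nat_lit 23) (.e (nat_lit 352297) (nat_lit 20) .nil))))))) (.g (nat_lit 4) .nil .nil)))))) (.nd (nat_lit 3) (.nd (nat_lit 4) (.nd (nat_lit 5) 
(.lf (nat_lit 79943) (.g (nat_lit 2369) (.e (nat_lit 1842) (nat_lit 123) (.e (nat_lit 548889) (nat_lit 9) (.e (nat_lit 65617) (nat_lit 10) (.e (nat_lit 344130) (nat_lit 26) (.e (nat_lit 557087) (nat_lit 11) (.e (nat_lit 24632) (nat_lit 9) (.e (nat_lit 335938) (nat_lit 0) .nil))))))) (.g (nat_lit 4) .nil .nil))) 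
(.lf (nat_lit 79975) (.g (nat_lit 3088) (.e (nat_lit 1842) (nat_lit 123) (.e (nat_lit 548889) (nat_lit 9) (.e (nat_lit 65617) (nat_lit 10) (.e (nat_lit 344133) (nat_lit 26) (.e (nat_lit 557091) (nat_lit 12) (.e (nat_lit 163844) (nat_lit 0) (.e (nat_lit 6047) (nat_lit 326) (.e (nat_lit 1199) (nat_lit 88) (.e (nat_lit 65546) (nat_lit 0) .nil))))))))) (.g (nat_lit 5) .nil .nil)))) (.nd (nat_lit 5) 
(.lf (nat_lit 79959) (.g (nat_lit 2077) (.e (nat_lit 1842) (nat_lit 123) (.e (nat_lit 548889) (nat_lit 9) (.e (nat_lit 65617) (nat_lit 10) (.e (nat_lit 344133) (nat_lit 26) (.e (nat_lit 557064) (nat_lit 9) (.e (nat_lit 314) (nat_lit 23) (.e (nat_lit 352297) (nat_lit 20) .nil))))))) (.g (nat_lit 4) .nil .nil))) 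
(.lf (nat_lit 79991) (.g (nat_lit 1882) (.e (nat_lit 1842) (nat_lit 123) (.e (nat_lit 548889) (nat_lit 9) (.e (nat_lit 65619) (nat_lit 10) (.e (nat_lit 344126) (nat_lit 25) (.e (nat_lit 556800) (nat_lit 11) .nil))))) .nil)))) (.nd (nat_lit 4) (.nd (nat_lit 5) 
(.lf (nat_lit 79951) (.g (nat_lit 2698) (.e (nat_lit 1842) (nat_lit 123) (.e (nat_lit 548889) (nat_lit 9) (.e (nat_lit 65617) (nat_lit 10) (.e (nat_lit 344132) (nat_lit 26) (.e (nat_lit 557070) (nat_lit 9) (.e (nat_lit 313) (nat_lit 23) (.e (nat_lit 352290) (nat_lit 20) .nil))))))) (.g (nat_lit 5) .nil .nil))) 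
(.lf (nat_lit 79983) (.g (nat_lit 2977) (.e (nat_lit 1842) (nat_lit 123) (.e (nat_lit 548889) (nat_lit 9) (.e (nat_lit 65619) (nat_lit 10) (.e (nat_lit 344117) (nat_lit 21) (.e (nat_lit 516185) (nat_lit 16) (.e (nat_lit 491552) (nat_lit 9) (.e (nat_lit 335924) (nat_lit 0) .nil))))))) (.g (nat_lit 5) .nil .nil)))) (.nd (nat_lit 5) 
(.lf (nat_lit 79967) (.g (nat_lit 3229) (.e (nat_lit 1842) (nat_lit 123) (.e (nat_lit 548889) (nat_lit 9) (.e (nat_lit 65617) (nat_lit 10) (.e (nat_lit 344133) (nat_lit 26) (.e (nat_lit 557068) (nat_lit 9) (.e (nat_lit 7936) (nat_lit 23) (.e (nat_lit 352291) (nat_lit 20) .nil))))))) (.g (nat_lit 5) .nil .nil))) 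
(.lf (nat_lit 79999) (.g (nat_lit 2598) (.e (nat_lit 1842) (nat_lit 123) (.e (nat_lit 548889) (nat_lit 9) (.e (nat_lit 65619) (nat_lit 10) (.e (nat_lit 344129) (nat_lit 26) (.e (nat_lit 557087) (nat_lit 11) (.e (nat_lit 24631) (nat_lit 9) (.e (nat_lit 335925) (nat_lit 0) .nil))))))) (.g (nat_lit 5) .nil .nil)))))))))

noncomputable def tv1083 : DT := (.nd (nat_lit 0) (.nd (nat_lit 1) (.nd (nat_lit 2) (.nd (nat_lit 3) (.nd (nat_lit 4) (.nd (nat_lit 5) 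
(.lf (nat_lit 80000) (.g (nat_lit 2424) (.e (nat_lit 1842) (nat_lit 123) (.e (nat_lit 548889) (nat_lit 9) (.e (nat_lit 65619) (nat_lit 10) (.e (nat_lit 344129) (nat_lit 26) (.e (nat_lit 557087) (nat_lit 11) (.e (nat_lit 24632) (nat_lit 9) (.e (nat_lit 335916) (nat_lit 0) .nil))))))) (.g (nat_lit 4) .nil .nil))) 
(.lf (nat_lit 80032) (.g (nat_lit 2746) (.e (nat_lit 1842) (nat_lit 123) (.e (nat_lit 548889) (nat_lit 9) (.e (nat_lit 65628) (nat_lit 14) (.e (nat_lit 401424) (nat_lit 2) (.e (nat_lit 196673) (nat_lit 15) (.e (nat_lit 81938) (nat_lit 20) .nil)))))) (.g (nat_lit 4) .nil .nil)))) (.nd (nat_lit 5) 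
(.lf (nat_lit 80016) (.g (nat_lit 2941) (.e (nat_lit 1842) (nat_lit 123) (.e (nat_lit 548889) (nat_lit 9) (.e (nat_lit 65624) (nat_lit 12) (.e (nat_lit 385072) (nat_lit 31) (.e (nat_lit 573491) (nat_lit 15) (.e (nat_lit 81947) (nat_lit 20) .nil)))))) (.g (nat_lit 4) .nil .nil))) 
(.lf (nat_lit 80048) (.g (nat_lit 3801) (.e (nat_lit 1842) (nat_lit 123) (.e (nat_lit 548889) (nat_lit 9) (.e (nat_lit 65629) (nat_lit 14) (.e (nat_lit 401424) (nat_lit 2) (.e (nat_lit 196672) (nat_lit 15) (.e (nat_lit 81943) (nat_lit 20) .nil)))))) (.g (nat_lit 0) .nil .nil))))) (.nd (nat_lit 4) (.nd (nat_lit 5) 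
(.lf (nat_lit 80008) (.g (nat_lit 3765) (.e (nat_lit 1842) (nat_lit 123) (.e (nat_lit 548889) (nat_lit 9) (.e (nat_lit 65622) (nat_lit 12) (.e (nat_lit 385074) (nat_lit 31) (.e (nat_lit 573491) (nat_lit 15) (.e (nat_lit 81946) (nat_lit 20) .nil)))))) (.g (nat_lit 0) .nil .nil))) 
(.lf (nat_lit 80040) (.g (nat_lit 3720) (.e (nat_lit 1842) (nat_lit 123) (.e (nat_lit 548889) (nat_lit 9) (.e (nat_lit 65628) (nat_lit 14) (.e (nat_lit 401425) (nat_lit 2) (.e (nat_lit 196674) (nat_lit 15) (.e (nat_lit 81947) (nat_lit 20) .nil)))))) (.g (nat_lit 5) .nil .nil)))) (.nd (nat_lit 5) 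
(.lf (nat_lit 80024) (.g (nat_lit 4120) (.e (nat_lit 1842) (nat_lit 123) (.e (nat_lit 548889) (nat_lit 9) (.e (nat_lit 65624) (nat_lit 12) (.e (nat_lit 385074) (nat_lit 31) (.e (nat_lit 573491) (nat_lit 15) (.e (nat_lit 81946) (nat_lit 20) .nil)))))) (.g (nat_lit 0) .nil .nil))) 
(.lf (nat_lit 80056) (.g (nat_lit 4082) (.e (nat_lit 1842) (nat_lit 123) (.e (nat_lit 548889) (nat_lit 9) (.e (nat_lit 65629) (nat_lit 14) (.e (nat_lit 401425) (nat_lit 2) (.e (nat_lit 196674) (nat_lit 15) (.e (nat_lit 81947) (nat_lit 20) .nil)))))) (.g (nat_lit 5) .nil .nil)))))) (.nd (nat_lit 3) (.nd (nat_lit 4) (.nd (nat_lit 5) 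
(.lf (nat_lit 80004) (.g (nat_lit 3086) (.e (nat_lit 1842) (nat_lit 123) (.e (nat_lit 548889) (nat_lit 9) (.e (nat_lit 65620) (nat_lit 10) (.e (nat_lit 344126) (nat_lit 25) (.e (nat_lit 548891) (nat_lit 11) (.e (nat_lit 81939) (nat_lit 20) .nil)))))) (.g (nat_lit 0) .nil .nil))) 
(.lf (nat_lit 80036) (.g (nat_lit 2106) (.e (nat_lit 1842) (nat_lit 123) (.e (nat_lit 548889) (nat_lit 9) (.e (nat_lit 65628) (nat_lit 14) (.e (nat_lit 401425) (nat_lit 2) (.e (nat_lit 196672) (nat_lit 15) .nil))))) .nil))) (.nd (nat_lit 5) 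
(.lf (nat_lit 80020) (.g (nat_lit 2088) (.e (nat_lit 1842) (nat_lit 123) (.e (nat_lit 548889) (nat_lit 9) (.e (nat_lit 65624) (nat_lit 12) (.e (nat_lit 385073) (nat_lit 31) (.e (nat_lit 573491) (nat_lit 15) .nil))))) .nil)) 
(.lf (nat_lit 80052) (.g (nat_lit 2323) (.e (nat_lit 1842) (nat_lit 123) (.e (nat_lit 548889) (nat_lit 9) (.e (nat_lit 65629) (nat_lit 14) (.e (nat_lit 401425) (nat_lit 2) (.e (nat_lit 196672) (nat_lit 15) .nil))))) .nil)))) (.nd (nat_lit 4) (.nd (nat_lit 5) 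
(.lf (nat_lit 80012) (.g (nat_lit 3714) (.e (nat_lit 1842) (nat_lit 123) (.e (nat_lit 548889) (nat_lit 9) (.e (nat_lit 65623) (nat_lit 12) (.e (nat_lit 385074) (nat_lit 31) (.e (nat_lit 573491) (nat_lit 15) (.e (nat_lit 81947) (nat_lit 20) .nil)))))) (.g (nat_lit 5) .nil .nil))) 
(.lf (nat_lit 80044) (.g (nat_lit 1347) (.e (nat_lit 1842) (nat_lit 123) (.e (nat_lit 548889) (nat_lit 9) (.e (nat_lit 65628) (nat_lit 14) (.e (nat_lit 401428) (nat_lit 3) (.e (nat_lit 204877) (nat_lit 31) (.e (nat_lit 376843) (nat_lit 20) .nil)))))) (.g (nat_lit 4) .nil .nil)))) (.nd (nat_lit 5) 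
(.lf (nat_lit 80028) (.g (nat_lit 2844) (.e (nat_lit 1842) (nat_lit 123) (.e (nat_lit 548889) (nat_lit 9) (.e (nat_lit 65627) (nat_lit 13) (.e (nat_lit 393258) (nat_lit 20) (.e (nat_lit 253996) (nat_lit 12) (.e (nat_lit 57555) (nat_lit 49) (.e (nat_lit 729104) (nat_lit 20) .nil))))))) (.g (nat_lit 0) .nil .nil))) 
(.lf (nat_lit 80060) (.g (nat_lit 2660) (.e (nat_lit 1842) (nat_lit 123) (.e (nat_lit 548889) (nat_lit 9) (.e (nat_lit 65630) (nat_lit 14) (.e (nat_lit 401411) (nat_lit 0) (.e (nat_lit 3114) (nat_lit 193) .nil))))) .nil)))))) (.nd (nat_lit 2) (.nd (nat_lit 3) (.nd (nat_lit 4) (.nd (nat_lit 5) 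
(.lf (nat_lit 80002) (.g (nat_lit 2396) (.e (nat_lit 1842) (nat_lit 123) (.e (nat_lit 548889) (nat_lit 9) (.e (nat_lit 65619) (nat_lit 10) (.e (nat_lit 344129) (nat_lit 26) (.e (nat_lit 557087) (nat_lit 11) (.e (nat_lit 24632) (nat_lit 9) (.e (nat_lit 335927) (nat_lit 0) .nil))))))) (.g (nat_lit 4) .nil .nil))) 
(.lf (nat_lit 80034) (.g (nat_lit 3622) (.e (nat_lit 1842) (nat_lit 123) (.e (nat_lit 548889) (nat_lit 9) (.e (nat_lit 65628) (nat_lit 14) (.e (nat_lit 401424) (nat_lit 2) (.e (nat_lit 196674) (nat_lit 15) (.e (nat_lit 81947) (nat_lit 20) .nil)))))) (.g (nat_lit 5) .nil .nil)))) (.nd (nat_lit 5) 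
(.lf (nat_lit 80018) (.g (nat_lit 4610) (.e (nat_lit 1842) (nat_lit 123) (.e (nat_lit 548889) (nat_lit 9) (.e (nat_lit 65624) (nat_lit 12) (.e (nat_lit 385072) (nat_lit 31) (.e (nat_lit 573492) (nat_lit 15) (.e (nat_lit 81939) (nat_lit 20) .nil)))))) (.g (nat_lit 5) .nil .nil))) 
(.lf (nat_lit 80050) (.g (nat_lit 3323) (.e (nat_lit 1842) (nat_lit 123) (.e (nat_lit 548889) (nat_lit 9) (.e (nat_lit 65629) (nat_lit 14) (.e (nat_lit 401424) (nat_lit 2) (.e (nat_lit 196674) (nat_lit 15) (.e (nat_lit 81946) (nat_lit 20) .nil)))))) (.g (nat_lit 5) .nil .nil))))) (.nd (nat_lit 4) (.nd (nat_lit 5) 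
(.lf (nat_lit 80010) (.g (nat_lit 4354) (.e (nat_lit 1842) (nat_lit 123) (.e (nat_lit 548889) (nat_lit 9) (.e (nat_lit 65622) (nat_lit 12) (.e (nat_lit 385074) (nat_lit 31) (.e (nat_lit 573493) (nat_lit 15) (.e (nat_lit 81938) (nat_lit 20) .nil)))))) (.g (nat_lit 0) .nil .nil))) 
(.lf (nat_lit 80042) (.g (nat_lit 2298) (.e (nat_lit 1842) (nat_lit 123) (.e (nat_lit 548889) (nat_lit 9) (.e (nat_lit 65628) (nat_lit 14) (.e (nat_lit 401428) (nat_lit 3) (.e (nat_lit 204866) (nat_lit 28) (.e (nat_lit 352290) (nat_lit 20) .nil)))))) (.g (nat_lit 5) .nil .nil)))) (.nd (nat_lit 5) 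
(.lf (nat_lit 80026) (.g (nat_lit 3757) (.e (nat_lit 1842) (nat_lit 123) (.e (nat_lit 548889) (nat_lit 9) (.e (nat_lit 65624) (nat_lit 12) (.e (nat_lit 385074) (nat_lit 31) (.e (nat_lit 573493) (nat_lit 15) (.e (nat_lit 81939) (nat_lit 20) .nil)))))) (.g (nat_lit 4) .nil .nil))) 
(.lf (nat_lit 80058) (.g (nat_lit 2739) (.e (nat_lit 1842) (nat_lit 123) (.e (nat_lit 548889) (nat_lit 9) (.e (nat_lit 65630) (nat_lit 14) (.e (nat_lit 401409) (nat_lit 0) .nil)))) .nil))))) (.nd (nat_lit 3) (.nd (nat_lit 4) (.nd (nat_lit 5) 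
(.lf (nat_lit 80006) (.g (nat_lit 3310) (.e (nat_lit 1842) (nat_lit 123) (.e (nat_lit 548889) (nat_lit 9) (.e (nat_lit 65620) (nat_lit 10) (.e (nat_lit 344126) (nat_lit 25) (.e (nat_lit 548891) (nat_lit 11) (.e (nat_lit 81943) (nat_lit 20) .nil)))))) (.g (nat_lit 0) .nil .nil))) 
(.lf (nat_lit 80038) (.g (nat_lit 4562) (.e (nat_lit 1842) (nat_lit 123) (.e (nat_lit 548889) (nat_lit 9) (.e (nat_lit 65628) (nat_lit 14) (.e (nat_lit 401425) (nat_lit 2) (.e (nat_lit 196673) (nat_lit 15) (.e (nat_lit 81938) (nat_lit 20) .nil)))))) (.g (nat_lit 0) .nil .nil)))) (.nd (nat_lit 5) 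
(.lf (nat_lit 80022) (.g (nat_lit 4512) (.e (nat_lit 1842) (nat_lit 123) (.e (nat_lit 548889) (nat_lit 9) (.e (nat_lit 65624) (nat_lit 12) (.e (nat_lit 385073) (nat_lit 31) (.e (nat_lit 573493) (nat_lit 15) (.e (nat_lit 81939) (nat_lit 20) .nil)))))) (.g (nat_lit 5) .nil .nil))) 
(.lf (nat_lit 80054) (.g (nat_lit 3549) (.e (nat_lit 1842) (nat_lit 123) (.e (nat_lit 548889) (nat_lit 9) (.e (nat_lit 65629) (nat_lit 14) (.e (nat_lit 401425) (nat_lit 2) (.e (nat_lit 196673) (nat_lit 15) (.e (nat_lit 81938) (nat_lit 20) .nil)))))) (.g (nat_lit 4) .nil .nil))))) (.nd (nat_lit 4) (.nd (nat_lit 5) 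
(.lf (nat_lit 80014) (.g (nat_lit 3774) (.e (nat_lit 1842) (nat_lit 123) (.e (nat_lit 548889) (nat_lit 9) (.e (nat_lit 65623) (nat_lit 12) (.e (nat_lit 385074) (nat_lit 31) (.e (nat_lit 573493) (nat_lit 15) (.e (nat_lit 81947) (nat_lit 20) .nil)))))) (.g (nat_lit 5) .nil .nil))) 
(.lf (nat_lit 80046) (.g (nat_lit 856) (.e (nat_lit 1842) (nat_lit 123) (.e (nat_lit 548889) (nat_lit 9) (.e (nat_lit 65629) (nat_lit 14) (.e (nat_lit 401412) (nat_lit 0) .nil)))) .nil))) (.nd (nat_lit 5) 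
(.lf (nat_lit 80030) (.g (nat_lit 1693) (.e (nat_lit 1842) (nat_lit 123) (.e (nat_lit 548889) (nat_lit 9) (.e (nat_lit 65628) (nat_lit 14) (.e (nat_lit 401412) (nat_lit 0) .nil)))) .nil)) 
(.lf (nat_lit 80062) (.g (nat_lit 2660) (.e (nat_lit 1842) (nat_lit 123) (.e (nat_lit 548889) (nat_lit 9) (.e (nat_lit 65630) (nat_lit 14) (.e (nat_lit 401412) (nat_lit 0) (.e (nat_lit 3109) (nat_lit 193) .nil))))) .nil))))))) (.nd (nat_lit 1) (.nd (nat_lit 2) (.nd (nat_lit 3) (.nd (nat_lit 4) (.nd (nat_lit 5) 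
(.lf (nat_lit 80001) (.g (nat_lit 2053) (.e (nat_lit 1842) (nat_lit 123) (.e (nat_lit 548889) (nat_lit 9) (.e (nat_lit 65619) (nat_lit 10) (.e (nat_lit 344129) (nat_lit 26) (.e (nat_lit 557087) (nat_lit 11) (.e (nat_lit 24632) (nat_lit 9) (.e (nat_lit 335925) (nat_lit 0) .nil))))))) (.g (nat_lit 4) .nil .nil))) 
(.lf (nat_lit 80033) (.g (nat_lit 2818) (.e (nat_lit 1842) (nat_lit 123) (.e (nat_lit 548889) (nat_lit 9) (.e (nat_lit 65628) (nat_lit 14) (.e (nat_lit 401424) (nat_lit 2) (.e (nat_lit 196674) (nat_lit 15) (.e (nat_lit 81946) (nat_lit 20) .nil)))))) (.g (nat_lit 4) .nil .nil)))) (.nd (nat_lit 5) 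
(.lf (nat_lit 80017) (.g (nat_lit 4081) (.e (nat_lit 1842) (nat_lit 123) (.e (nat_lit 548889) (nat_lit 9) (.e (nat_lit 65624) (nat_lit 12) (.e (nat_lit 385072) (nat_lit 31) (.e (nat_lit 573492) (nat_lit 15) (.e (nat_lit 81938) (nat_lit 20) .nil)))))) (.g (nat_lit 6) .nil .nil))) 
(.lf (nat_lit 80049) (.g (nat_lit 3029) (.e (nat_lit 1842) (nat_lit 123) (.e (nat_lit 548889) (nat_lit 9) (.e (nat_lit 65629) (nat_lit 14) (.e (nat_lit 401424) (nat_lit 2) (.e (nat_lit 196673) (nat_lit 15) (.e (nat_lit 81938) (nat_lit 20) .nil)))))) (.g (nat_lit 5) .nil .nil))))) (.nd (nat_lit 4) (.nd (nat_lit 5) 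
(.lf (nat_lit 80009) (.g (nat_lit 3303) (.e (nat_lit 1842) (nat_lit 123) (.e (nat_lit 548889) (nat_lit 9) (.e (nat_lit 65622) (nat_lit 12) (.e (nat_lit 385074) (nat_lit 31) (.e (nat_lit 573491) (nat_lit 15) (.e (nat_lit 81947) (nat_lit 20) .nil)))))) (.g (nat_lit 5) .nil .nil))) 
(.lf (nat_lit 80041) (.g (nat_lit 2405) (.e (nat_lit 1842) (nat_lit 123) (.e (nat_lit 548889) (nat_lit 9) (.e (nat_lit 65628) (nat_lit 14) (.e (nat_lit 401427) (nat_lit 3) (.e (nat_lit 204866) (nat_lit 28) .nil))))) .nil))) (.nd (nat_lit 5) 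
(.lf (nat_lit 80025) (.g (nat_lit 3520) (.e (nat_lit 1842) (nat_lit 123) (.e (nat_lit 548889) (nat_lit 9) (.e (nat_lit 65624) (nat_lit 12) (.e (nat_lit 385074) (nat_lit 31) (.e (nat_lit 573491) (nat_lit 15) (.e (nat_lit 81947) (nat_lit 20) .nil)))))) (.g (nat_lit 5) .nil .nil))) 
(.lf (nat_lit 80057) (.g (nat_lit 2662) (.e (nat_lit 1842) (nat_lit 123) (.e (nat_lit 548889) (nat_lit 9) (.e (nat_lit 65629) (nat_lit 14) (.e (nat_lit 401428) (nat_lit 3) (.e (nat_lit 204866) (nat_lit 28) (.e (nat_lit 352303) (nat_lit 20) .nil)))))) (.g (nat_lit 4) .nil .nil)))))) (.nd (nat_lit 3) (.nd (nat_lit 4) (.nd (nat_lit 5) 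
(.lf (nat_lit 80005) (.g (nat_lit 3097) (.e (nat_lit 1842) (nat_lit 123) (.e (nat_lit 548889) (nat_lit 9) (.e (nat_lit 65620) (nat_lit 10) (.e (nat_lit 344126) (nat_lit 25) (.e (nat_lit 548891) (nat_lit 11) (.e (nat_lit 81942) (nat_lit 20) .nil)))))) (.g (nat_lit 0) .nil .nil))) 
(.lf (nat_lit 80037) (.g (nat_lit 4062) (.e (nat_lit 1842) (nat_lit 123) (.e (nat_lit 548889) (nat_lit 9) (.e (nat_lit 65628) (nat_lit 14) (.e (nat_lit 401425) (nat_lit 2) (.e (nat_lit 196672) (nat_lit 15) (.e (nat_lit 81943) (nat_lit 20) .nil)))))) (.g (nat_lit 0) .nil .nil)))) (.nd (nat_lit 5) 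
(.lf (nat_lit 80021) (.g (nat_lit 2490) (.e (nat_lit 1842) (nat_lit 123) (.e (nat_lit 548889) (nat_lit 9) (.e (nat_lit 65624) (nat_lit 12) (.e (nat_lit 385073) (nat_lit 31) (.e (nat_lit 573491) (nat_lit 15) (.e (nat_lit 81943) (nat_lit 20) .nil)))))) (.g (nat_lit 4) .nil .nil))) 
(.lf (nat_lit 80053) (.g (nat_lit 4408) (.e (nat_lit 1842) (nat_lit 123) (.e (nat_lit 548889) (nat_lit 9) (.e (nat_lit 65629) (nat_lit 14) (.e (nat_lit 401425) (nat_lit 2) (.e (nat_lit 196672) (nat_lit 15) (.e (nat_lit 81943) (nat_lit 20) .nil)))))) (.g (nat_lit 0) .nil .nil))))) (.nd (nat_lit 4) (.nd (nat_lit 5) 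
(.lf (nat_lit 80013) (.g (nat_lit 4876) (.e (nat_lit 1842) (nat_lit 123) (.e (nat_lit 548889) (nat_lit 9) (.e (nat_lit 65623) (nat_lit 12) (.e (nat_lit 385074) (nat_lit 31) (.e (nat_lit 573493) (nat_lit 15) (.e (nat_lit 81938) (nat_lit 20) .nil)))))) (.g (nat_lit 0) .nil .nil))) 
(.lf (nat_lit 80045) (.g (nat_lit 365) (.e (nat_lit 1842) (nat_lit 123) (.e (nat_lit 548889) (nat_lit 9) (.e (nat_lit 65629) (nat_lit 14) .nil))) .nil))) (.nd (nat_lit 5) 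
(.lf (nat_lit 80029) (.g (nat_lit 1783) (.e (nat_lit 1842) (nat_lit 123) (.e (nat_lit 548889) (nat_lit 9) (.e (nat_lit 65628) (nat_lit 14) (.e (nat_lit 401411) (nat_lit 0) .nil)))) .nil)) 
(.lf (nat_lit 80061) (.g (nat_lit 1593) (.e (nat_lit 1842) (nat_lit 123) (.e (nat_lit 548889) (nat_lit 9) (.e (nat_lit 65630) (nat_lit 14) (.e (nat_lit 401412) (nat_lit 0) .nil)))) .nil)))))) (.nd (nat_lit 2) (.nd (nat_lit 3) (.nd (nat_lit 4) (.nd (nat_lit 5) 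
(.lf (nat_lit 80003) (.g (nat_lit 2560) (.e (nat_lit 1842) (nat_lit 123) (.e (nat_lit 548889) (nat_lit 9) (.e (nat_lit 65619) (nat_lit 10) (.e (nat_lit 344129) (nat_lit 26) (.e (nat_lit 557087) (nat_lit 11) (.e (nat_lit 24632) (nat_lit 9) (.e (nat_lit 335938) (nat_lit 0) .nil))))))) (.g (nat_lit 4) .nil .nil))) 
(.lf (nat_lit 80035) (.g (nat_lit 3050) (.e (nat_lit 1842) (nat_lit 123) (.e (nat_lit 548889) (nat_lit 9) (.e (nat_lit 65628) (nat_lit 14) (.e (nat_lit 401425) (nat_lit 2) (.e (nat_lit 196671) (nat_lit 15) .nil))))) .nil))) (.nd (nat_lit 5) 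
(.lf (nat_lit 80019) (.g (nat_lit 4181) (.e (nat_lit 1842) (nat_lit 123) (.e (nat_lit 548889) (nat_lit 9) (.e (nat_lit 65624) (nat_lit 12) (.e (nat_lit 385072) (nat_lit 31) (.e (nat_lit 573493) (nat_lit 15) (.e (nat_lit 81939) (nat_lit 20) .nil)))))) (.g (nat_lit 4) .nil .nil))) 
(.lf (nat_lit 80051) (.g (nat_lit 3898) (.e (nat_lit 1842) (nat_lit 123) (.e (nat_lit 548889) (nat_lit 9) (.e (nat_lit 65629) (nat_lit 14) (.e (nat_lit 401424) (nat_lit 2) (.e (nat_lit 196674) (nat_lit 15) (.e (nat_lit 81947) (nat_lit 20) .nil)))))) (.g (nat_lit 5) .nil .nil))))) (.nd (nat_lit 4) (.nd (nat_lit 5) 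
(.lf (nat_lit 80011) (.g (nat_lit 4295) (.e (nat_lit 1842) (nat_lit 123) (.e (nat_lit 548889) (nat_lit 9) (.e (nat_lit 65623) (nat_lit 12) (.e (nat_lit 385074) (nat_lit 31) (.e (nat_lit 573491) (nat_lit 15) (.e (nat_lit 81946) (nat_lit 20) .nil)))))) (.g (nat_lit 6) .nil .nil))) 
(.lf (nat_lit 80043) (.g (nat_lit 3555) (.e (nat_lit 1842) (nat_lit 123) (.e (nat_lit 548889) (nat_lit 9) (.e (nat_lit 65628) (nat_lit 14) (.e (nat_lit 401428) (nat_lit 3) (.e (nat_lit 204866) (nat_lit 28) (.e (nat_lit 352302) (nat_lit 20) .nil)))))) (.g (nat_lit 0) .nil .nil)))) (.nd (nat_lit 5) 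
(.lf (nat_lit 80027) (.g (nat_lit 4156) (.e (nat_lit 1842) (nat_lit 123) (.e (nat_lit 548889) (nat_lit 9) (.e (nat_lit 65624) (nat_lit 12) (.e (nat_lit 385074) (nat_lit 31) (.e (nat_lit 573493) (nat_lit 15) (.e (nat_lit 81947) (nat_lit 20) .nil)))))) (.g (nat_lit 5) .nil .nil))) 
(.lf (nat_lit 80059) (.g (nat_lit 1681) (.e (nat_lit 1842) (nat_lit 123) (.e (nat_lit 548889) (nat_lit 9) (.e (nat_lit 65630) (nat_lit 14) (.e (nat_lit 401410) (nat_lit 0) .nil)))) .nil))))) (.nd (nat_lit 3) (.nd (nat_lit 4) (.nd (nat_lit 5) 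
(.lf (nat_lit 80007) (.g (nat_lit 3314) (.e (nat_lit 1842) (nat_lit 123) (.e (nat_lit 548889) (nat_lit 9) (.e (nat_lit 65620) (nat_lit 10) (.e (nat_lit 344126) (nat_lit 25) (.e (nat_lit 548891) (nat_lit 11) (.e (nat_lit 81946) (nat_lit 20) .nil)))))) (.g (nat_lit 0) .nil .nil))) 
(.lf (nat_lit 80039) (.g (nat_lit 4392) (.e (nat_lit 1842) (nat_lit 123) (.e (nat_lit 548889) (nat_lit 9) (.e (nat_lit 65628) (nat_lit 14) (.e (nat_lit 401425) (nat_lit 2) (.e (nat_lit 196674) (nat_lit 15) (.e (nat_lit 81946) (nat_lit 20) .nil)))))) (.g (nat_lit 0) .nil .nil)))) (.nd (nat_lit 5) 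
(.lf (nat_lit 80023) (.g (nat_lit 3333) (.e (nat_lit 1842) (nat_lit 123) (.e (nat_lit 548889) (nat_lit 9) (.e (nat_lit 65624) (nat_lit 12) (.e (nat_lit 385074) (nat_lit 31) (.e (nat_lit 573491) (nat_lit 15) (.e (nat_lit 81942) (nat_lit 20) .nil)))))) (.g (nat_lit 4) .nil .nil))) 
(.lf (nat_lit 80055) (.g (nat_lit 4919) (.e (nat_lit 1842) (nat_lit 123) (.e (nat_lit 548889) (nat_lit 9) (.e (nat_lit 65629) (nat_lit 14) (.e (nat_lit 401425) (nat_lit 2) (.e (nat_lit 196674) (nat_lit 15) (.e (nat_lit 81946) (nat_lit 20) .nil)))))) (.g (nat_lit 6) .nil .nil))))) (.nd (nat_lit 4) (.nd (nat_lit 5) 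
(.lf (nat_lit 80015) (.g (nat_lit 3704) (.e (nat_lit 1842) (nat_lit 123) (.e (nat_lit 548889) (nat_lit 9) (.e (nat_lit 65624) (nat_lit 12) (.e (nat_lit 385072) (nat_lit 31) (.e (nat_lit 573491) (nat_lit 15) (.e (nat_lit 81943) (nat_lit 20) .nil)))))) (.g (nat_lit 5) .nil .nil))) 
(.lf (nat_lit 80047) (.g (nat_lit 3549) (.e (nat_lit 1842) (nat_lit 123) (.e (nat_lit 548889) (nat_lit 9) (.e (nat_lit 65629) (nat_lit 14) (.e (nat_lit 401423) (nat_lit 2) (.e (nat_lit 196672) (nat_lit 15) (.e (nat_lit 81943) (nat_lit 20) .nil)))))) (.g (nat_lit 6) .nil .nil)))) (.nd (nat_lit 5) 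
(.lf (nat_lit 80031) (.g (nat_lit 3588) (.e (nat_lit 1842) (nat_lit 123) (.e (nat_lit 548889) (nat_lit 9) (.e (nat_lit 65628) (nat_lit 14) (.e (nat_lit 401424) (nat_lit 2) (.e (nat_lit 196672) (nat_lit 15) (.e (nat_lit 81943) (nat_lit 20) .nil)))))) (.g (nat_lit 0) .nil .nil))) 
(.lf (nat_lit 80063) (.g (nat_lit 2683) (.e (nat_lit 1842) (nat_lit 123) (.e (nat_lit 548889) (nat_lit 9) (.e (nat_lit 65630) (nat_lit 14) (.e (nat_lit 401412) (nat_lit 0) (.e (nat_lit 3122) (nat_lit 193) .nil))))) .nil))))))))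

noncomputable def tv1084 : DT := (.nd (nat_lit 0) (.nd (nat_lit 1) (.nd (nat_lit 2) (.nd (nat_lit 3) (.nd (nat_lit 4) (.nd (nat_lit 5) 
(.lf (nat_lit 80064) (.g (nat_lit 2666) (.e (nat_lit 1842) (nat_lit 123) (.e (nat_lit 548889) (nat_lit 9) (.e (nat_lit 65630) (nat_lit 14) (.e (nat_lit 401412) (nat_lit 0) (.e (nat_lit 3132) (nat_lit 193) .nil))))) .nil)) 
(.lf (nat_lit 80096) (.g (nat_lit 2364) (.e (nat_lit 1842) (nat_lit 123) (.e (nat_lit 548891) (nat_lit 11) (.e (nat_lit 81942) (nat_lit 20) (.e (nat_lit 1842) (nat_lit 123) (.e (nat_lit 548891) (nat_lit 11) (.e (nat_lit 81942) (nat_lit 20) .nil)))))) (.g (nat_lit 0) .nil .nil)))) (.nd (nat_lit 5) 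
(.lf (nat_lit 80080) (.g (nat_lit 2993) (.e (nat_lit 1842) (nat_lit 123) (.e (nat_lit 548889) (nat_lit 9) (.e (nat_lit 65630) (nat_lit 14) (.e (nat_lit 401426) (nat_lit 3) (.e (nat_lit 204866) (nat_lit 28) (.e (nat_lit 352303) (nat_lit 20) .nil)))))) (.g (nat_lit 4) .nil .nil))) 
(.lf (nat_lit 80112) (.g (nat_lit 527) (.e (nat_lit 1844) (nat_lit 123) (.e (nat_lit 548889) (nat_lit 9) (.e (nat_lit 65616) (nat_lit 10) .nil))) .nil)))) (.nd (nat_lit 4) (.nd (nat_lit 5) 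
(.lf (nat_lit 80072) (.g (nat_lit 3366) (.e (nat_lit 1842) (nat_lit 123) (.e (nat_lit 548889) (nat_lit 9) (.e (nat_lit 65630) (nat_lit 14) (.e (nat_lit 401424) (nat_lit 2) (.e (nat_lit 196674) (nat_lit 15) (.e (nat_lit 81947) (nat_lit 20) .nil)))))) (.g (nat_lit 4) .nil .nil))) 
(.lf (nat_lit 80104) (.g (nat_lit 3300) (.e (nat_lit 1842) (nat_lit 123) (.e (nat_lit 548891) (nat_lit 11) (.e (nat_lit 81956) (nat_lit 23) (.e (nat_lit 98350) (nat_lit 24) (.e (nat_lit 417536) (nat_lit 16) .nil))))) .nil))) (.nd (nat_lit 5) 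
(.lf (nat_lit 80088) (.g (nat_lit 516) (.e (nat_lit 1842) (nat_lit 123) (.e (nat_lit 548891) (nat_lit 11) (.e (nat_lit 81921) (nat_lit 0) .nil))) .nil)) 
(.lf (nat_lit 80120) (.g (nat_lit 1786) (.e (nat_lit 7936) (nat_lit 123) (.e (nat_lit 548889) (nat_lit 9) (.e (nat_lit 65604) (nat_lit 9) (.e (nat_lit 336013) (nat_lit 2) (.e (nat_lit 90165) (nat_lit 12) .nil))))) .nil))))) (.nd (nat_lit 3) (.nd (nat_lit 4) (.nd (nat_lit 5) 
(.lf (nat_lit 80068) (.g (nat_lit 1503) (.e (nat_lit 1842) (nat_lit 123) (.e (nat_lit 548889) (nat_lit 9) (.e (nat_lit 65630) (nat_lit 14) (.e (nat_lit 401423) (nat_lit 2) .nil)))) .nil)) 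
(.lf (nat_lit 80100) (.g (nat_lit 516) (.e (nat_lit 1842) (nat_lit 123) (.e (nat_lit 548891) (nat_lit 11) (.e (nat_lit 81950) (nat_lit 21) .nil))) .nil))) (.nd (nat_lit 5) 
(.lf (nat_lit 80084) (.g (nat_lit 1258) (.e (nat_lit 1842) (nat_lit 123) (.e (nat_lit 548889) (nat_lit 9) (.e (nat_lit 65630) (nat_lit 14) (.e (nat_lit 401428) (nat_lit 3) .nil)))) .nil)) 
(.lf (nat_lit 80116) (.g (nat_lit 2625) (.e (nat_lit 1844) (nat_lit 123) (.e (nat_lit 548891) (nat_lit 11) (.e (nat_lit 81956) (nat_lit 23) (.e (nat_lit 98388) (nat_lit 33) .nil)))) .nil)))) (.nd (nat_lit 4) (.nd (nat_lit 5) 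
(.lf (nat_lit 80076) (.g (nat_lit 2261) (.e (nat_lit 1842) (nat_lit 123) (.e (nat_lit 548889) (nat_lit 9) (.e (nat_lit 65630) (nat_lit 14) (.e (nat_lit 401425) (nat_lit 2) (.e (nat_lit 196672) (nat_lit 15) (.e (nat_lit 81939) (nat_lit 20) .nil)))))) (.g (nat_lit 4) .nil .nil))) 
(.lf (nat_lit 80108) (.g (nat_lit 3015) (.e (nat_lit 1842) (nat_lit 123) (.e (nat_lit 548891) (nat_lit 11) (.e (nat_lit 81956) (nat_lit 23) (.e (nat_lit 98389) (nat_lit 33) (.e (nat_lit 491552) (nat_lit 9) .nil))))) .nil))) (.nd (nat_lit 5) 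
(.lf (nat_lit 80092) (.g (nat_lit 2744) (.e (nat_lit 1842) (nat_lit 123) (.e (nat_lit 548891) (nat_lit 11) (.e (nat_lit 81938) (nat_lit 20) (.e (nat_lit 1842) (nat_lit 123) (.e (nat_lit 548891) (nat_lit 11) (.e (nat_lit 81942) (nat_lit 20) .nil)))))) (.g (nat_lit 0) .nil .nil))) 
(.lf (nat_lit 80124) (.g (nat_lit 508) (.e (nat_lit 7936) (nat_lit 123) (.e (nat_lit 548891) (nat_lit 11) (.e (nat_lit 81951) (nat_lit 22) .nil))) .nil)))))) (.nd (nat_lit 2) (.nd (nat_lit 3) (.nd (nat_lit 4) (.nd (nat_lit 5) 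
(.lf (nat_lit 80066) (.g (nat_lit 2714) (.e (nat_lit 1842) (nat_lit 123) (.e (nat_lit 548889) (nat_lit 9) (.e (nat_lit 65630) (nat_lit 14) (.e (nat_lit 401412) (nat_lit 0) (.e (nat_lit 3138) (nat_lit 193) (.e (nat_lit 500076) (nat_lit 20) (.e (nat_lit 81943) (nat_lit 20) .nil))))))) (.g (nat_lit 4) .nil .nil))) 
(.lf (nat_lit 80098) (.g (nat_lit 2641) (.e (nat_lit 1842) (nat_lit 123) (.e (nat_lit 548891) (nat_lit 11) (.e (nat_lit 81947) (nat_lit 20) (.e (nat_lit 1841) (nat_lit 123) (.e (nat_lit 548891) (nat_lit 11) (.e (nat_lit 81946) (nat_lit 20) .nil)))))) (.g (nat_lit 0) .nil .nil)))) (.nd (nat_lit 5) 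
(.lf (nat_lit 80082) (.g (nat_lit 3320) (.e (nat_lit 1842) (nat_lit 123) (.e (nat_lit 548889) (nat_lit 9) (.e (nat_lit 65630) (nat_lit 14) (.e (nat_lit 401427) (nat_lit 3) (.e (nat_lit 204866) (nat_lit 28) (.e (nat_lit 352302) (nat_lit 20) .nil)))))) (.g (nat_lit 4) .nil .nil))) 
(.lf (nat_lit 80114) (.g (nat_lit 3160) (.e (nat_lit 1844) (nat_lit 123) (.e (nat_lit 548889) (nat_lit 9) (.e (nat_lit 65628) (nat_lit 14) (.e (nat_lit 401425) (nat_lit 2) (.e (nat_lit 196681) (nat_lit 17) (.e (nat_lit 131109) (nat_lit 9) (.e (nat_lit 335878) (nat_lit 0) .nil))))))) (.g (nat_lit 4) .nil .nil))))) (.nd (nat_lit 4) (.nd (nat_lit 5) 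
(.lf (nat_lit 80074) (.g (nat_lit 2062) (.e (nat_lit 1842) (nat_lit 123) (.e (nat_lit 548889) (nat_lit 9) (.e (nat_lit 65630) (nat_lit 14) (.e (nat_lit 401425) (nat_lit 2) (.e (nat_lit 196672) (nat_lit 15) .nil))))) .nil)) 
(.lf (nat_lit 80106) (.g (nat_lit 2479) (.e (nat_lit 1842) (nat_lit 123) (.e (nat_lit 548891) (nat_lit 11) (.e (nat_lit 81956) (nat_lit 23) (.e (nat_lit 98389) (nat_lit 33) .nil)))) .nil))) (.nd (nat_lit 5) 
(.lf (nat_lit 80090) (.g (nat_lit 514) (.e (nat_lit 1842) (nat_lit 123) (.e (nat_lit 548891) (nat_lit 11) (.e (nat_lit 81931) (nat_lit 20) .nil))) .nil)) 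
(.lf (nat_lit 80122) (.g (nat_lit 2297) (.e (nat_lit 7936) (nat_lit 123) (.e (nat_lit 548889) (nat_lit 9) (.e (nat_lit 65610) (nat_lit 10) (.e (nat_lit 344117) (nat_lit 21) (.e (nat_lit 516185) (nat_lit 16) .nil))))) .nil))))) (.nd (nat_lit 3) (.nd (nat_lit 4) (.nd (nat_lit 5) 
(.lf (nat_lit 80070) (.g (nat_lit 3766) (.e (nat_lit 1842) (nat_lit 123) (.e (nat_lit 548889) (nat_lit 9) (.e (nat_lit 65630) (nat_lit 14) (.e (nat_lit 401424) (nat_lit 2) (.e (nat_lit 196672) (nat_lit 15) (.e (nat_lit 81943) (nat_lit 20) .nil)))))) (.g (nat_lit 5) .nil .nil))) 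
(.lf (nat_lit 80102) (.g (nat_lit 2416) (.e (nat_lit 1842) (nat_lit 123) (.e (nat_lit 548891) (nat_lit 11) (.e (nat_lit 81954) (nat_lit 23) (.e (nat_lit 98389) (nat_lit 33) (.e (nat_lit 491551) (nat_lit 9) (.e (nat_lit 335928) (nat_lit 0) .nil)))))) (.g (nat_lit 4) .nil .nil)))) (.nd (nat_lit 5) 
(.lf (nat_lit 80086) (.g (nat_lit 3501) (.e (nat_lit 1842) (nat_lit 123) (.e (nat_lit 548889) (nat_lit 9) (.e (nat_lit 65630) (nat_lit 14) (.e (nat_lit 401428) (nat_lit 3) (.e (nat_lit 204866) (nat_lit 28) (.e (nat_lit 352302) (nat_lit 20) .nil)))))) (.g (nat_lit 5) .nil .nil))) 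
(.lf (nat_lit 80118) (.g (nat_lit 489) (.e (nat_lit 7936) (nat_lit 123) (.e (nat_lit 548874) (nat_lit 5) (.e (nat_lit 1598) (nat_lit 111) .nil))) .nil)))) (.nd (nat_lit 4) (.nd (nat_lit 5) 
(.lf (nat_lit 80078) (.g (nat_lit 2582) (.e (nat_lit 1842) (nat_lit 123) (.e (nat_lit 548889) (nat_lit 9) (.e (nat_lit 65630) (nat_lit 14) (.e (nat_lit 401425) (nat_lit 2) (.e (nat_lit 196672) (nat_lit 15) (.e (nat_lit 81947) (nat_lit 20) .nil)))))) (.g (nat_lit 4) .nil .nil))) 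
(.lf (nat_lit 80110) (.g (nat_lit 1169) (.e (nat_lit 1844) (nat_lit 123) (.e (nat_lit 548874) (nat_lit 5) (.e (nat_lit 1589) (nat_lit 111) (.e (nat_lit 360473) (nat_lit 8) .nil)))) .nil))) (.nd (nat_lit 5) 
(.lf (nat_lit 80094) (.g (nat_lit 2611) (.e (nat_lit 1842) (nat_lit 123) (.e (nat_lit 548891) (nat_lit 11) (.e (nat_lit 81939) (nat_lit 20) (.e (nat_lit 1842) (nat_lit 123) (.e (nat_lit 548891) (nat_lit 11) (.e (nat_lit 81946) (nat_lit 20) .nil)))))) (.g (nat_lit 0) .nil .nil))) 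
(.lf (nat_lit 80126) (.g (nat_lit 489) (.e (nat_lit 7936) (nat_lit 123) (.e (nat_lit 548891) (nat_lit 11) (.e (nat_lit 81954) (nat_lit 23) .nil))) .nil))))))) (.nd (nat_lit 1) (.nd (nat_lit 2) (.nd (nat_lit 3) (.nd (nat_lit 4) (.nd (nat_lit 5) 
(.lf (nat_lit 80065) (.g (nat_lit 2660) (.e (nat_lit 1842) (nat_lit 123) (.e (nat_lit 548889) (nat_lit 9) (.e (nat_lit 65630) (nat_lit 14) (.e (nat_lit 401412) (nat_lit 0) (.e (nat_lit 3133) (nat_lit 193) .nil))))) .nil)) 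
(.lf (nat_lit 80097) (.g (nat_lit 2647) (.e (nat_lit 1842) (nat_lit 123) (.e (nat_lit 548891) (nat_lit 11) (.e (nat_lit 81942) (nat_lit 20) (.e (nat_lit 1842) (nat_lit 123) (.e (nat_lit 548891) (nat_lit 11) (.e (nat_lit 81946) (nat_lit 20) .nil)))))) (.g (nat_lit 0) .nil .nil)))) (.nd (nat_lit 5) 
(.lf (nat_lit 80081) (.g (nat_lit 1784) (.e (nat_lit 1842) (nat_lit 123) (.e (nat_lit 548889) (nat_lit 9) (.e (nat_lit 65630) (nat_lit 14) (.e (nat_lit 401427) (nat_lit 3) .nil)))) .nil)) 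
(.lf (nat_lit 80113) (.g (nat_lit 1321) (.e (nat_lit 1844) (nat_lit 123) (.e (nat_lit 548889) (nat_lit 9) (.e (nat_lit 65617) (nat_lit 10) (.e (nat_lit 344130) (nat_lit 26) .nil)))) .nil)))) (.nd (nat_lit 4) (.nd (nat_lit 5) 
(.lf (nat_lit 80073) (.g (nat_lit 3450) (.e (nat_lit 1842) (nat_lit 123) (.e (nat_lit 548889) (nat_lit 9) (.e (nat_lit 65630) (nat_lit 14) (.e (nat_lit 401425) (nat_lit 2) (.e (nat_lit 196671) (nat_lit 15) .nil))))) .nil)) 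
(.lf (nat_lit 80105) (.g (nat_lit 2302) (.e (nat_lit 1842) (nat_lit 123) (.e (nat_lit 548891) (nat_lit 11) (.e (nat_lit 81956) (nat_lit 23) (.e (nat_lit 98388) (nat_lit 33) .nil)))) .nil))) (.nd (nat_lit 5) 
(.lf (nat_lit 80089) (.g (nat_lit 2173) (.e (nat_lit 1842) (nat_lit 123) (.e (nat_lit 548891) (nat_lit 11) (.e (nat_lit 81923) (nat_lit 0) (.e (nat_lit 3305) (nat_lit 202) (.e (nat_lit 573491) (nat_lit 15) (.e (nat_lit 81943) (nat_lit 20) .nil)))))) (.g (nat_lit 4) .nil .nil))) 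
(.lf (nat_lit 80121) (.g (nat_lit 1857) (.e (nat_lit 7936) (nat_lit 123) (.e (nat_lit 548889) (nat_lit 9) (.e (nat_lit 65604) (nat_lit 9) (.e (nat_lit 336028) (nat_lit 3) (.e (nat_lit 98325) (nat_lit 17) .nil))))) .nil))))) (.nd (nat_lit 3) (.nd (nat_lit 4) (.nd (nat_lit 5) 
(.lf (nat_lit 80069) (.g (nat_lit 3832) (.e (nat_lit 1842) (nat_lit 123) (.e (nat_lit 548889) (nat_lit 9) (.e (nat_lit 65630) (nat_lit 14) (.e (nat_lit 401423) (nat_lit 2) (.e (nat_lit 196672) (nat_lit 15) (.e (nat_lit 81943) (nat_lit 20) .nil)))))) (.g (nat_lit 0) .nil .nil))) 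
(.lf (nat_lit 80101) (.g (nat_lit 1732) (.e (nat_lit 1842) (nat_lit 123) (.e (nat_lit 548891) (nat_lit 11) (.e (nat_lit 81954) (nat_lit 23) (.e (nat_lit 98325) (nat_lit 17) (.e (nat_lit 6986) (nat_lit 377) .nil))))) .nil))) (.nd (nat_lit 5) 
(.lf (nat_lit 80085) (.g (nat_lit 2269) (.e (nat_lit 1842) (nat_lit 123) (.e (nat_lit 548889) (nat_lit 9) (.e (nat_lit 65630) (nat_lit 14) (.e (nat_lit 401428) (nat_lit 3) (.e (nat_lit 204865) (nat_lit 28) .nil))))) .nil)) 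
(.lf (nat_lit 80117) (.g (nat_lit 2690) (.e (nat_lit 1844) (nat_lit 123) (.e (nat_lit 548891) (nat_lit 11) (.e (nat_lit 81956) (nat_lit 23) (.e (nat_lit 98389) (nat_lit 33) .nil)))) .nil)))) (.nd (nat_lit 4) (.nd (nat_lit 5) 
(.lf (nat_lit 80077) (.g (nat_lit 4613) (.e (nat_lit 1842) (nat_lit 123) (.e (nat_lit 548889) (nat_lit 9) (.e (nat_lit 65630) (nat_lit 14) (.e (nat_lit 401425) (nat_lit 2) (.e (nat_lit 196672) (nat_lit 15) (.e (nat_lit 81943) (nat_lit 20) .nil)))))) (.g (nat_lit 0) .nil .nil))) 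
(.lf (nat_lit 80109) (.g (nat_lit 1162) (.e (nat_lit 1842) (nat_lit 123) (.e (nat_lit 548891) (nat_lit 11) (.e (nat_lit 81957) (nat_lit 24) (.e (nat_lit 130816) (nat_lit 140) .nil)))) .nil))) (.nd (nat_lit 5) 
(.lf (nat_lit 80093) (.g (nat_lit 2333) (.e (nat_lit 1842) (nat_lit 123) (.e (nat_lit 548891) (nat_lit 11) (.e (nat_lit 81939) (nat_lit 20) (.e (nat_lit 1842) (nat_lit 123) (.e (nat_lit 548891) (nat_lit 11) (.e (nat_lit 81942) (nat_lit 20) .nil)))))) (.g (nat_lit 0) .nil .nil))) 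
(.lf (nat_lit 80125) (.g (nat_lit 460) (.e (nat_lit 7936) (nat_lit 123) (.e (nat_lit 548891) (nat_lit 11) (.e (nat_lit 81953) (nat_lit 22) .nil))) .nil)))))) (.nd (nat_lit 2) (.nd (nat_lit 3) (.nd (nat_lit 4) (.nd (nat_lit 5) 
(.lf (nat_lit 80067) (.g (nat_lit 3128) (.e (nat_lit 1842) (nat_lit 123) (.e (nat_lit 548889) (nat_lit 9) (.e (nat_lit 65630) (nat_lit 14) (.e (nat_lit 401412) (nat_lit 0) (.e (nat_lit 3260) (nat_lit 198) (.e (nat_lit 540703) (nat_lit 11) (.e (nat_lit 352302) (nat_lit 20) .nil))))))) (.g (nat_lit 4) .nil .nil))) 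
(.lf (nat_lit 80099) (.g (nat_lit 3165) (.e (nat_lit 1842) (nat_lit 123) (.e (nat_lit 548891) (nat_lit 11) (.e (nat_lit 81947) (nat_lit 20) (.e (nat_lit 1842) (nat_lit 123) (.e (nat_lit 548891) (nat_lit 11) (.e (nat_lit 81946) (nat_lit 20) .nil)))))) (.g (nat_lit 0) .nil .nil)))) (.nd (nat_lit 5) 
(.lf (nat_lit 80083) (.g (nat_lit 3767) (.e (nat_lit 1842) (nat_lit 123) (.e (nat_lit 548889) (nat_lit 9) (.e (nat_lit 65630) (nat_lit 14) (.e (nat_lit 401427) (nat_lit 3) (.e (nat_lit 204866) (nat_lit 28) (.e (nat_lit 352303) (nat_lit 20) .nil)))))) (.g (nat_lit 5) .nil .nil))) 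
(.lf (nat_lit 80115) (.g (nat_lit 3818) (.e (nat_lit 1844) (nat_lit 123) (.e (nat_lit 548889) (nat_lit 9) (.e (nat_lit 65630) (nat_lit 14) (.e (nat_lit 401425) (nat_lit 2) (.e (nat_lit 196681) (nat_lit 17) (.e (nat_lit 131109) (nat_lit 9) (.e (nat_lit 335878) (nat_lit 0) .nil))))))) (.g (nat_lit 7) .nil .nil))))) (.nd (nat_lit 4) (.nd (nat_lit 5) 
(.lf (nat_lit 80075) (.g (nat_lit 3202) (.e (nat_lit 1842) (nat_lit 123) (.e (nat_lit 548889) (nat_lit 9) (.e (nat_lit 65630) (nat_lit 14) (.e (nat_lit 401425) (nat_lit 2) (.e (nat_lit 196672) (nat_lit 15) (.e (nat_lit 81938) (nat_lit 20) .nil)))))) (.g (nat_lit 4) .nil .nil))) 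
(.lf (nat_lit 80107) (.g (nat_lit 4597) (.e (nat_lit 1842) (nat_lit 123) (.e (nat_lit 548891) (nat_lit 11) (.e (nat_lit 81956) (nat_lit 23) (.e (nat_lit 98389) (nat_lit 33) (.e (nat_lit 491551) (nat_lit 9) (.e (nat_lit 335928) (nat_lit 0) .nil)))))) (.g (nat_lit 5) .nil .nil)))) (.nd (nat_lit 5) 
(.lf (nat_lit 80091) (.g (nat_lit 1078) (.e (nat_lit 1842) (nat_lit 123) (.e (nat_lit 548891) (nat_lit 11) (.e (nat_lit 81938) (nat_lit 20) (.e (nat_lit 1840) (nat_lit 123) .nil)))) .nil)) 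
(.lf (nat_lit 80123) (.g (nat_lit 688) (.e (nat_lit 7936) (nat_lit 123) (.e (nat_lit 548889) (nat_lit 9) (.e (nat_lit 65624) (nat_lit 12) .nil))) .nil))))) (.nd (nat_lit 3) (.nd (nat_lit 4) (.nd (nat_lit 5) 
(.lf (nat_lit 80071) (.g (nat_lit 2947) (.e (nat_lit 1842) (nat_lit 123) (.e (nat_lit 548889) (nat_lit 9) (.e (nat_lit 65630) (nat_lit 14) (.e (nat_lit 401424) (nat_lit 2) (.e (nat_lit 196673) (nat_lit 15) .nil))))) .nil)) 
(.lf (nat_lit 80103) (.g (nat_lit 2643) (.e (nat_lit 1842) (nat_lit 123) (.e (nat_lit 548891) (nat_lit 11) (.e (nat_lit 81956) (nat_lit 23) (.e (nat_lit 98320) (nat_lit 17) .nil)))) .nil))) (.nd (nat_lit 5) 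
(.lf (nat_lit 80087) (.g (nat_lit 3906) (.e (nat_lit 1842) (nat_lit 123) (.e (nat_lit 548889) (nat_lit 9) (.e (nat_lit 65630) (nat_lit 14) (.e (nat_lit 401428) (nat_lit 3) (.e (nat_lit 204866) (nat_lit 28) (.e (nat_lit 352303) (nat_lit 20) .nil)))))) (.g (nat_lit 6) .nil .nil))) 
(.lf (nat_lit 80119) (.g (nat_lit 1161) (.e (nat_lit 7936) (nat_lit 123) (.e (nat_lit 548874) (nat_lit 5) (.e (nat_lit 1598) (nat_lit 111) (.e (nat_lit 360466) (nat_lit 3) (.e (nat_lit 516100) (nat_lit 0) .nil))))) .nil)))) (.nd (nat_lit 4) (.nd (nat_lit 5) 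
(.lf (nat_lit 80079) (.g (nat_lit 3316) (.e (nat_lit 1842) (nat_lit 123) (.e (nat_lit 548889) (nat_lit 9) (.e (nat_lit 65630) (nat_lit 14) (.e (nat_lit 401425) (nat_lit 2) (.e (nat_lit 204544) (nat_lit 15) .nil))))) .nil)) 
(.lf (nat_lit 80111) (.g (nat_lit 2088) (.e (nat_lit 1844) (nat_lit 123) (.e (nat_lit 548889) (nat_lit 9) (.e (nat_lit 65610) (nat_lit 10) (.e (nat_lit 344129) (nat_lit 26) (.e (nat_lit 557087) (nat_lit 11) .nil))))) .nil))) (.nd (nat_lit 5) 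
(.lf (nat_lit 80095) (.g (nat_lit 1885) (.e (nat_lit 1842) (nat_lit 123) (.e (nat_lit 548891) (nat_lit 11) (.e (nat_lit 81942) (nat_lit 20) (.e (nat_lit 1841) (nat_lit 123) (.e (nat_lit 548891) (nat_lit 11) (.e (nat_lit 81939) (nat_lit 20) .nil)))))) (.g (nat_lit 5) .nil .nil))) 
(.lf (nat_lit 80127) (.g (nat_lit 2668) (.e (nat_lit 7936) (nat_lit 123) (.e (nat_lit 548891) (nat_lit 11) (.e (nat_lit 81956) (nat_lit 23) (.e (nat_lit 98389) (nat_lit 33) .nil)))) .nil))))))))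

noncomputable def tv1085 : DT := (.nd (nat_lit 0) (.nd (nat_lit 1) (.nd (nat_lit 2) (.nd (nat_lit 3) (.nd (nat_lit 4) (.nd (nat_lit 5) (.nd (nat_lit 6) 
(.lf (nat_lit 80128) (.g (nat_lit 1226) (.e (nat_lit 1846) (nat_lit 124) (.e (nat_lit 557087) (nat_lit 11) (.e (nat_lit 24617) (nat_lit 7) .nil))) .nil)) 
(.lf (nat_lit 80192) (.g (nat_lit 1225) (.e (nat_lit 1846) (nat_lit 124) (.e (nat_lit 557103) (nat_lit 14) (.e (nat_lit 180278) (nat_lit 32) (.e (nat_lit 1252) (nat_lit 92) .nil)))) .nil))) (.nd (nat_lit 6) 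
(.lf (nat_lit 80160) (.g (nat_lit 1625) (.e (nat_lit 1846) (nat_lit 124) (.e (nat_lit 557100) (nat_lit 13) (.e (nat_lit 172124) (nat_lit 14) (.e (nat_lit 491540) (nat_lit 3) .nil)))) .nil)) 
(.lf (nat_lit 80224) (.g (nat_lit 3304) (.e (nat_lit 1846) (nat_lit 124) (.e (nat_lit 557108) (nat_lit 15) (.e (nat_lit 188452) (nat_lit 23) (.e (nat_lit 204817) (nat_lit 17) .nil)))) .nil)))) (.nd (nat_lit 5) (.nd (nat_lit 6) 
(.lf (nat_lit 80144) (.g (nat_lit 2636) (.e (nat_lit 1846) (nat_lit 124) (.e (nat_lit 557098) (nat_lit 13) (.e (nat_lit 172115) (nat_lit 10) (.e (nat_lit 434244) (nat_lit 28) (.e (nat_lit 573471) (nat_lit 11) (.e (nat_lit 16440) (nat_lit 9) (.e (nat_lit 426380) (nat_lit 15) .nil))))))) (.g (nat_lit 5) .nil .nil))) 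
(.lf (nat_lit 80208) (.g (nat_lit 663) (.e (nat_lit 1846) (nat_lit 124) (.e (nat_lit 557105) (nat_lit 14) (.e (nat_lit 180277) (nat_lit 32) .nil))) .nil))) (.nd (nat_lit 6) 
(.lf (nat_lit 80176) (.g (nat_lit 1887) (.e (nat_lit 1846) (nat_lit 124) (.e (nat_lit 557101) (nat_lit 13) (.e (nat_lit 172115) (nat_lit 10) (.e (nat_lit 434231) (nat_lit 23) (.e (nat_lit 532481) (nat_lit 0) (.e (nat_lit 6720) (nat_lit 361) (.e (nat_lit 172133) (nat_lit 15) .nil))))))) (.g (nat_lit 4) .nil .nil))) 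
(.lf (nat_lit 80240) (.g (nat_lit 2054) (.e (nat_lit 1846) (nat_lit 124) (.e (nat_lit 557108) (nat_lit 15) (.e (nat_lit 188461) (nat_lit 26) (.e (nat_lit 253987) (nat_lit 10) .nil)))) .nil))))) (.nd (nat_lit 4) (.nd (nat_lit 5) (.nd (nat_lit 6) 
(.lf (nat_lit 80136) (.g (nat_lit 1575) (.e (nat_lit 1846) (nat_lit 124) (.e (nat_lit 557094) (nat_lit 12) (.e (nat_lit 164030) (nat_lit 53) (.e (nat_lit 761906) (nat_lit 16) (.e (nat_lit 179968) (nat_lit 34) .nil))))) .nil)) 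
(.lf (nat_lit 80200) (.g (nat_lit 2683) (.e (nat_lit 1846) (nat_lit 124) (.e (nat_lit 557105) (nat_lit 14) (.e (nat_lit 180252) (nat_lit 10) (.e (nat_lit 573482) (nat_lit 13) .nil)))) .nil))) (.nd (nat_lit 6) 
(.lf (nat_lit 80168) (.g (nat_lit 2113) (.e (nat_lit 1846) (nat_lit 124) (.e (nat_lit 557101) (nat_lit 13) (.e (nat_lit 172115) (nat_lit 10) (.e (nat_lit 434227) (nat_lit 20) (.e (nat_lit 507928) (nat_lit 10) (.e (nat_lit 5772) (nat_lit 316) (.e (nat_lit 172132) (nat_lit 15) .nil))))))) (.g (nat_lit 7) .nil .nil))) 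
(.lf (nat_lit 80232) (.g (nat_lit 2199) (.e (nat_lit 1846) (nat_lit 124) (.e (nat_lit 557108) (nat_lit 15) (.e (nat_lit 188452) (nat_lit 23) (.e (nat_lit 204846) (nat_lit 24) (.e (nat_lit 319504) (nat_lit 10) (.e (nat_lit 5734) (nat_lit 312) (.e (nat_lit 40) (nat_lit 0) .nil))))))) (.g (nat_lit 4) .nil .nil))))) (.nd (nat_lit 5) (.nd (nat_lit 6) 
(.lf (nat_lit 80152) (.g (nat_lit 2289) (.e (nat_lit 1846) (nat_lit 124) (.e (nat_lit 557100) (nat_lit 13) (.e (nat_lit 172106) (nat_lit 10) (.e (nat_lit 434244) (nat_lit 28) .nil)))) .nil)) 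
(.lf (nat_lit 80216) (.g (nat_lit 747) (.e (nat_lit 1846) (nat_lit 124) (.e (nat_lit 557108) (nat_lit 15) (.e (nat_lit 188435) (nat_lit 20) .nil))) .nil))) (.nd (nat_lit 6) 
(.lf (nat_lit 80184) (.g (nat_lit 2539) (.e (nat_lit 1846) (nat_lit 124) (.e (nat_lit 557101) (nat_lit 13) (.e (nat_lit 172115) (nat_lit 10) (.e (nat_lit 434244) (nat_lit 28) (.e (nat_lit 573471) (nat_lit 11) (.e (nat_lit 16440) (nat_lit 9) (.e (nat_lit 426414) (nat_lit 15) .nil))))))) (.g (nat_lit 5) .nil .nil))) 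
(.lf (nat_lit 80248) (.g (nat_lit 1158) (.e (nat_lit 1846) (nat_lit 124) (.e (nat_lit 557109) (nat_lit 15) (.e (nat_lit 188447) (nat_lit 22) .nil))) .nil)))))) (.nd (nat_lit 3) (.nd (nat_lit 4) (.nd (nat_lit 5) (.nd (nat_lit 6) 
(.lf (nat_lit 80132) (.g (nat_lit 2297) (.e (nat_lit 1846) (nat_lit 124) (.e (nat_lit 557093) (nat_lit 12) (.e (nat_lit 164022) (nat_lit 46) (.e (nat_lit 704738) (nat_lit 11) (.e (nat_lit 16412) (nat_lit 2) (.e (nat_lit 196672) (nat_lit 15) (.e (nat_lit 81943) (nat_lit 20) .nil))))))) (.g (nat_lit 4) .nil .nil))) 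
(.lf (nat_lit 80196) (.g (nat_lit 1122) (.e (nat_lit 1846) (nat_lit 124) (.e (nat_lit 557104) (nat_lit 14) (.e (nat_lit 180278) (nat_lit 32) (.e (nat_lit 1252) (nat_lit 92) .nil)))) .nil))) (.nd (nat_lit 6) 
(.lf (nat_lit 80164) (.g (nat_lit 2994) (.e (nat_lit 1846) (nat_lit 124) (.e (nat_lit 557100) (nat_lit 13) (.e (nat_lit 172126) (nat_lit 14) (.e (nat_lit 491540) (nat_lit 3) (.e (nat_lit 98370) (nat_lit 28) (.e (nat_lit 442372) (nat_lit 0) .nil)))))) (.g (nat_lit 4) .nil .nil))) 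
(.lf (nat_lit 80228) (.g (nat_lit 2881) (.e (nat_lit 1846) (nat_lit 124) (.e (nat_lit 557108) (nat_lit 15) (.e (nat_lit 188452) (nat_lit 23) (.e (nat_lit 204821) (nat_lit 17) (.e (nat_lit 6114) (nat_lit 332) .nil))))) .nil)))) (.nd (nat_lit 5) (.nd (nat_lit 6) 
(.lf (nat_lit 80148) (.g (nat_lit 2028) (.e (nat_lit 1846) (nat_lit 124) (.e (nat_lit 557100) (nat_lit 13) (.e (nat_lit 172106) (nat_lit 10) (.e (nat_lit 434231) (nat_lit 23) .nil)))) .nil)) 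
(.lf (nat_lit 80212) (.g (nat_lit 1580) (.e (nat_lit 1846) (nat_lit 124) (.e (nat_lit 557108) (nat_lit 15) (.e (nat_lit 188434) (nat_lit 20) (.e (nat_lit 3271) (nat_lit 199) .nil)))) .nil))) (.nd (nat_lit 6) 
(.lf (nat_lit 80180) (.g (nat_lit 2422) (.e (nat_lit 1846) (nat_lit 124) (.e (nat_lit 557101) (nat_lit 13) (.e (nat_lit 172115) (nat_lit 10) (.e (nat_lit 434231) (nat_lit 23) (.e (nat_lit 532569) (nat_lit 16) (.e (nat_lit 401440) (nat_lit 9) (.e (nat_lit 426396) (nat_lit 15) .nil))))))) (.g (nat_lit 5) .nil .nil))) 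
(.lf (nat_lit 80244) (.g (nat_lit 2576) (.e (nat_lit 1846) (nat_lit 124) (.e (nat_lit 557109) (nat_lit 15) (.e (nat_lit 188434) (nat_lit 20) (.e (nat_lit 3272) (nat_lit 199) .nil)))) .nil))))) (.nd (nat_lit 4) (.nd (nat_lit 5) (.nd (nat_lit 6) 
(.lf (nat_lit 80140) (.g (nat_lit 1516) (.e (nat_lit 1846) (nat_lit 124) (.e (nat_lit 557097) (nat_lit 13) (.e (nat_lit 172115) (nat_lit 10) (.e (nat_lit 434244) (nat_lit 28) .nil)))) .nil)) 
(.lf (nat_lit 80204) (.g (nat_lit 2196) (.e (nat_lit 1846) (nat_lit 124) (.e (nat_lit 557105) (nat_lit 14) (.e (nat_lit 180252) (nat_lit 10) (.e (nat_lit 573489) (nat_lit 14) .nil)))) .nil))) (.nd (nat_lit 6) 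
(.lf (nat_lit 80172) (.g (nat_lit 1856) (.e (nat_lit 1846) (nat_lit 124) (.e (nat_lit 557101) (nat_lit 13) (.e (nat_lit 172115) (nat_lit 10) (.e (nat_lit 434227) (nat_lit 20) (.e (nat_lit 507929) (nat_lit 10) (.e (nat_lit 5773) (nat_lit 316) (.e (nat_lit 172132) (nat_lit 15) .nil))))))) (.g (nat_lit 6) .nil .nil))) 
(.lf (nat_lit 80236) (.g (nat_lit 3422) (.e (nat_lit 1846) (nat_lit 124) (.e (nat_lit 557108) (nat_lit 15) (.e (nat_lit 188452) (nat_lit 23) (.e (nat_lit 204885) (nat_lit 33) (.e (nat_lit 401440) (nat_lit 9) .nil))))) .nil)))) (.nd (nat_lit 5) (.nd (nat_lit 6) 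
(.lf (nat_lit 80156) (.g (nat_lit 1688) (.e (nat_lit 1846) (nat_lit 124) (.e (nat_lit 557100) (nat_lit 13) (.e (nat_lit 172113) (nat_lit 10) (.e (nat_lit 434238) (nat_lit 25) .nil)))) .nil)) 
(.lf (nat_lit 80220) (.g (nat_lit 577) (.e (nat_lit 1846) (nat_lit 124) (.e (nat_lit 557108) (nat_lit 15) (.e (nat_lit 188452) (nat_lit 23) .nil))) .nil))) (.nd (nat_lit 6) 
(.lf (nat_lit 80188) (.g (nat_lit 1959) (.e (nat_lit 1846) (nat_lit 124) (.e (nat_lit 557101) (nat_lit 13) (.e (nat_lit 172124) (nat_lit 14) (.e (nat_lit 491540) (nat_lit 3) (.e (nat_lit 98370) (nat_lit 28) (.e (nat_lit 442374) (nat_lit 0) .nil)))))) (.g (nat_lit 5) .nil .nil))) 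
(.lf (nat_lit 80252) (.g (nat_lit 3520) (.e (nat_lit 1846) (nat_lit 124) (.e (nat_lit 557109) (nat_lit 15) (.e (nat_lit 188449) (nat_lit 22) (.e (nat_lit 196661) (nat_lit 12) (.e (nat_lit 57712) (nat_lit 176) .nil))))) .nil))))))) (.nd (nat_lit 2) (.nd (nat_lit 3) (.nd (nat_lit 4) (.nd (nat_lit 5) (.nd (nat_lit 6) 
(.lf (nat_lit 80130) (.g (nat_lit 4725) (.e (nat_lit 1846) (nat_lit 124) (.e (nat_lit 557087) (nat_lit 11) (.e (nat_lit 24662) (nat_lit 14) (.e (nat_lit 401425) (nat_lit 2) .nil)))) .nil)) 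
(.lf (nat_lit 80194) (.g (nat_lit 485) (.e (nat_lit 1846) (nat_lit 124) (.e (nat_lit 557104) (nat_lit 14) (.e (nat_lit 180277) (nat_lit 32) .nil))) .nil))) (.nd (nat_lit 6) 
(.lf (nat_lit 80162) (.g (nat_lit 2161) (.e (nat_lit 1846) (nat_lit 124) (.e (nat_lit 557100) (nat_lit 13) (.e (nat_lit 172126) (nat_lit 14) (.e (nat_lit 491539) (nat_lit 3) .nil)))) .nil)) 
(.lf (nat_lit 80226) (.g (nat_lit 3168) (.e (nat_lit 1846) (nat_lit 124) (.e (nat_lit 557108) (nat_lit 15) (.e (nat_lit 188452) (nat_lit 23) (.e (nat_lit 204819) (nat_lit 17) (.e (nat_lit 6113) (nat_lit 332) .nil))))) .nil)))) (.nd (nat_lit 5) (.nd (nat_lit 6) 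
(.lf (nat_lit 80146) (.g (nat_lit 929) (.e (nat_lit 1846) (nat_lit 124) (.e (nat_lit 557098) (nat_lit 13) (.e (nat_lit 172126) (nat_lit 14) .nil))) .nil)) 
(.lf (nat_lit 80210) (.g (nat_lit 620) (.e (nat_lit 1846) (nat_lit 124) (.e (nat_lit 557107) (nat_lit 15) (.e (nat_lit 188439) (nat_lit 20) .nil))) .nil))) (.nd (nat_lit 6) 
(.lf (nat_lit 80178) (.g (nat_lit 1991) (.e (nat_lit 1846) (nat_lit 124) (.e (nat_lit 557101) (nat_lit 13) (.e (nat_lit 172115) (nat_lit 10) (.e (nat_lit 434231) (nat_lit 23) (.e (nat_lit 532490) (nat_lit 0) (.e (nat_lit 7936) (nat_lit 364) (.e (nat_lit 237627) (nat_lit 15) .nil))))))) (.g (nat_lit 4) .nil .nil))) 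
(.lf (nat_lit 80242) (.g (nat_lit 1028) (.e (nat_lit 1846) (nat_lit 124) (.e (nat_lit 557109) (nat_lit 15) (.e (nat_lit 188434) (nat_lit 20) .nil))) .nil))))) (.nd (nat_lit 4) (.nd (nat_lit 5) (.nd (nat_lit 6) 
(.lf (nat_lit 80138) (.g (nat_lit 1593) (.e (nat_lit 1846) (nat_lit 124) (.e (nat_lit 557097) (nat_lit 13) (.e (nat_lit 172115) (nat_lit 10) (.e (nat_lit 434238) (nat_lit 25) .nil)))) .nil)) 
(.lf (nat_lit 80202) (.g (nat_lit 2682) (.e (nat_lit 1846) (nat_lit 124) (.e (nat_lit 557105) (nat_lit 14) (.e (nat_lit 180252) (nat_lit 10) (.e (nat_lit 573488) (nat_lit 14) .nil)))) .nil))) (.nd (nat_lit 6) 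
(.lf (nat_lit 80170) (.g (nat_lit 2092) (.e (nat_lit 1846) (nat_lit 124) (.e (nat_lit 557101) (nat_lit 13) (.e (nat_lit 172115) (nat_lit 10) (.e (nat_lit 434227) (nat_lit 20) (.e (nat_lit 507929) (nat_lit 10) (.e (nat_lit 5772) (nat_lit 316) (.e (nat_lit 172132) (nat_lit 15) .nil))))))) (.g (nat_lit 7) .nil .nil))) 
(.lf (nat_lit 80234) (.g (nat_lit 3969) (.e (nat_lit 1846) (nat_lit 124) (.e (nat_lit 557108) (nat_lit 15) (.e (nat_lit 188452) (nat_lit 23) (.e (nat_lit 204848) (nat_lit 25) .nil)))) .nil)))) (.nd (nat_lit 5) (.nd (nat_lit 6) 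
(.lf (nat_lit 80154) (.g (nat_lit 3433) (.e (nat_lit 1846) (nat_lit 124) (.e (nat_lit 557100) (nat_lit 13) (.e (nat_lit 172106) (nat_lit 10) (.e (nat_lit 434244) (nat_lit 28) (.e (nat_lit 573450) (nat_lit 9) (.e (nat_lit 457) (nat_lit 34) (.e (nat_lit 442374) (nat_lit 0) .nil))))))) (.g (nat_lit 4) .nil .nil))) 
(.lf (nat_lit 80218) (.g (nat_lit 2027) (.e (nat_lit 1846) (nat_lit 124) (.e (nat_lit 557108) (nat_lit 15) (.e (nat_lit 188449) (nat_lit 22) (.e (nat_lit 196661) (nat_lit 12) .nil)))) .nil))) (.nd (nat_lit 6) 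
(.lf (nat_lit 80186) (.g (nat_lit 3078) (.e (nat_lit 1846) (nat_lit 124) (.e (nat_lit 557101) (nat_lit 13) (.e (nat_lit 172115) (nat_lit 10) (.e (nat_lit 434244) (nat_lit 28) (.e (nat_lit 573471) (nat_lit 11) (.e (nat_lit 16446) (nat_lit 9) (.e (nat_lit 426413) (nat_lit 15) .nil))))))) (.g (nat_lit 5) .nil .nil))) 
(.lf (nat_lit 80250) (.g (nat_lit 3279) (.e (nat_lit 1846) (nat_lit 124) (.e (nat_lit 557109) (nat_lit 15) (.e (nat_lit 188449) (nat_lit 22) (.e (nat_lit 196630) (nat_lit 9) .nil)))) .nil)))))) (.nd (nat_lit 3) (.nd (nat_lit 4) (.nd (nat_lit 5) (.nd (nat_lit 6) 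
(.lf (nat_lit 80134) (.g (nat_lit 1554) (.e (nat_lit 1846) (nat_lit 124) (.e (nat_lit 557094) (nat_lit 12) (.e (nat_lit 164030) (nat_lit 53) (.e (nat_lit 761903) (nat_lit 16) (.e (nat_lit 179968) (nat_lit 34) .nil))))) .nil)) 
(.lf (nat_lit 80198) (.g (nat_lit 398) (.e (nat_lit 1846) (nat_lit 124) (.e (nat_lit 557104) (nat_lit 14) (.e (nat_lit 188160) (nat_lit 32) .nil))) .nil))) (.nd (nat_lit 6) 
(.lf (nat_lit 80166) (.g (nat_lit 1769) (.e (nat_lit 1846) (nat_lit 124) (.e (nat_lit 557101) (nat_lit 13) (.e (nat_lit 172097) (nat_lit 9) (.e (nat_lit 426140) (nat_lit 3) (.e (nat_lit 204821) (nat_lit 17) .nil))))) .nil)) 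
(.lf (nat_lit 80230) (.g (nat_lit 2530) (.e (nat_lit 1846) (nat_lit 124) (.e (nat_lit 557108) (nat_lit 15) (.e (nat_lit 188452) (nat_lit 23) (.e (nat_lit 204845) (nat_lit 24) .nil)))) .nil)))) (.nd (nat_lit 5) (.nd (nat_lit 6) 
(.lf (nat_lit 80150) (.g (nat_lit 3437) (.e (nat_lit 1846) (nat_lit 124) (.e (nat_lit 557100) (nat_lit 13) (.e (nat_lit 172106) (nat_lit 10) (.e (nat_lit 434231) (nat_lit 23) (.e (nat_lit 532564) (nat_lit 15) (.e (nat_lit 385105) (nat_lit 50) (.e (nat_lit 786450) (nat_lit 15) .nil))))))) (.g (nat_lit 4) .nil .nil))) 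
(.lf (nat_lit 80214) (.g (nat_lit 1548) (.e (nat_lit 1846) (nat_lit 124) (.e (nat_lit 557108) (nat_lit 15) (.e (nat_lit 188434) (nat_lit 20) (.e (nat_lit 3272) (nat_lit 199) .nil)))) .nil))) (.nd (nat_lit 6) 
(.lf (nat_lit 80182) (.g (nat_lit 2371) (.e (nat_lit 1846) (nat_lit 124) (.e (nat_lit 557101) (nat_lit 13) (.e (nat_lit 172115) (nat_lit 10) (.e (nat_lit 434244) (nat_lit 28) (.e (nat_lit 573458) (nat_lit 9) (.e (nat_lit 7936) (nat_lit 37) (.e (nat_lit 466945) (nat_lit 0) .nil))))))) (.g (nat_lit 5) .nil .nil))) 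
(.lf (nat_lit 80246) (.g (nat_lit 1072) (.e (nat_lit 1846) (nat_lit 124) (.e (nat_lit 557109) (nat_lit 15) (.e (nat_lit 188441) (nat_lit 20) .nil))) .nil))))) (.nd (nat_lit 4) (.nd (nat_lit 5) (.nd (nat_lit 6) 
(.lf (nat_lit 80142) (.g (nat_lit 1249) (.e (nat_lit 1846) (nat_lit 124) (.e (nat_lit 557098) (nat_lit 13) (.e (nat_lit 172115) (nat_lit 10) (.e (nat_lit 434227) (nat_lit 20) .nil)))) .nil)) 
(.lf (nat_lit 80206) (.g (nat_lit 3013) (.e (nat_lit 1846) (nat_lit 124) (.e (nat_lit 557105) (nat_lit 14) (.e (nat_lit 180252) (nat_lit 10) (.e (nat_lit 573489) (nat_lit 14) (.e (nat_lit 73755) (nat_lit 8) (.e (nat_lit 557090) (nat_lit 12) (.e (nat_lit 164006) (nat_lit 41) (.e (nat_lit 663580) (nat_lit 9) (.e (nat_lit 40) (nat_lit 0) .nil))))))))) (.g (nat_lit 5) .nil .nil)))) (.nd (nat_lit 6) 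
(.lf (nat_lit 80174) (.g (nat_lit 1435) (.e (nat_lit 1846) (nat_lit 124) (.e (nat_lit 557101) (nat_lit 13) (.e (nat_lit 172115) (nat_lit 10) (.e (nat_lit 434227) (nat_lit 20) (.e (nat_lit 507930) (nat_lit 10) (.e (nat_lit 5772) (nat_lit 316) (.e (nat_lit 172133) (nat_lit 15) .nil))))))) (.g (nat_lit 4) .nil .nil))) 
(.lf (nat_lit 80238) (.g (nat_lit 3511) (.e (nat_lit 1846) (nat_lit 124) (.e (nat_lit 557108) (nat_lit 15) (.e (nat_lit 188452) (nat_lit 23) (.e (nat_lit 204885) (nat_lit 33) (.e (nat_lit 401444) (nat_lit 9) (.e (nat_lit 426358) (nat_lit 15) .nil)))))) (.g (nat_lit 4) .nil .nil))))) (.nd (nat_lit 5) (.nd (nat_lit 6) 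
(.lf (nat_lit 80158) (.g (nat_lit 2881) (.e (nat_lit 1846) (nat_lit 124) (.e (nat_lit 557100) (nat_lit 13) (.e (nat_lit 172113) (nat_lit 10) (.e (nat_lit 434247) (nat_lit 28) (.e (nat_lit 573469) (nat_lit 11) (.e (nat_lit 16438) (nat_lit 9) (.e (nat_lit 426402) (nat_lit 15) .nil))))))) (.g (nat_lit 4) .nil .nil))) 
(.lf (nat_lit 80222) (.g (nat_lit 4528) (.e (nat_lit 1846) (nat_lit 124) (.e (nat_lit 557108) (nat_lit 15) (.e (nat_lit 188452) (nat_lit 23) (.e (nat_lit 204816) (nat_lit 17) (.e (nat_lit 6718) (nat_lit 361) (.e (nat_lit 172133) (nat_lit 15) .nil)))))) (.g (nat_lit 0) .nil .nil)))) (.nd (nat_lit 6) 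
(.lf (nat_lit 80190) (.g (nat_lit 647) (.e (nat_lit 1846) (nat_lit 124) (.e (nat_lit 557103) (nat_lit 14) (.e (nat_lit 180276) (nat_lit 32) .nil))) .nil)) 
(.lf (nat_lit 80254) (.g (nat_lit 1195) (.e (nat_lit 1846) (nat_lit 124) (.e (nat_lit 557109) (nat_lit 15) (.e (nat_lit 188450) (nat_lit 23) .nil))) .nil)))))))) (.nd (nat_lit 1) (.nd (nat_lit 2) (.nd (nat_lit 3) (.nd (nat_lit 4) (.nd (nat_lit 5) (.nd (nat_lit 6) 
(.lf (nat_lit 80129) (.g (nat_lit 3673) (.e (nat_lit 1846) (nat_lit 124) (.e (nat_lit 557087) (nat_lit 11) (.e (nat_lit 24617) (nat_lit 7) (.e (nat_lit 319505) (nat_lit 10) .nil)))) .nil)) 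
(.lf (nat_lit 80193) (.g (nat_lit 1198) (.e (nat_lit 1846) (nat_lit 124) (.e (nat_lit 557103) (nat_lit 14) (.e (nat_lit 180278) (nat_lit 32) (.e (nat_lit 1253) (nat_lit 92) .nil)))) .nil))) (.nd (nat_lit 6) 
(.lf (nat_lit 80161) (.g (nat_lit 1613) (.e (nat_lit 1846) (nat_lit 124) (.e (nat_lit 557100) (nat_lit 13) (.e (nat_lit 172126) (nat_lit 14) (.e (nat_lit 491537) (nat_lit 2) .nil)))) .nil)) 
(.lf (nat_lit 80225) (.g (nat_lit 2528) (.e (nat_lit 1846) (nat_lit 124) (.e (nat_lit 557108) (nat_lit 15) (.e (nat_lit 188452) (nat_lit 23) (.e (nat_lit 204819) (nat_lit 17) .nil)))) .nil)))) (.nd (nat_lit 5) (.nd (nat_lit 6) 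
(.lf (nat_lit 80145) (.g (nat_lit 1337) (.e (nat_lit 1846) (nat_lit 124) (.e (nat_lit 557098) (nat_lit 13) (.e (nat_lit 172124) (nat_lit 14) (.e (nat_lit 491540) (nat_lit 3) .nil)))) .nil)) 
(.lf (nat_lit 80209) (.g (nat_lit 757) (.e (nat_lit 1846) (nat_lit 124) (.e (nat_lit 557105) (nat_lit 14) (.e (nat_lit 180278) (nat_lit 32) .nil))) .nil))) (.nd (nat_lit 6) 
(.lf (nat_lit 80177) (.g (nat_lit 1869) (.e (nat_lit 1846) (nat_lit 124) (.e (nat_lit 557101) (nat_lit 13) (.e (nat_lit 172115) (nat_lit 10) (.e (nat_lit 434231) (nat_lit 23) (.e (nat_lit 532490) (nat_lit 0) .nil))))) .nil)) 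
(.lf (nat_lit 80241) (.g (nat_lit 1691) (.e (nat_lit 1846) (nat_lit 124) (.e (nat_lit 557109) (nat_lit 15) (.e (nat_lit 188419) (nat_lit 0) (.e (nat_lit 1855) (nat_lit 124) .nil)))) .nil))))) (.nd (nat_lit 4) (.nd (nat_lit 5) (.nd (nat_lit 6) 
(.lf (nat_lit 80137) (.g (nat_lit 674) (.e (nat_lit 1846) (nat_lit 124) (.e (nat_lit 557097) (nat_lit 13) (.e (nat_lit 172115) (nat_lit 10) .nil))) .nil)) 
(.lf (nat_lit 80201) (.g (nat_lit 2666) (.e (nat_lit 1846) (nat_lit 124) (.e (nat_lit 557105) (nat_lit 14) (.e (nat_lit 180252) (nat_lit 10) (.e (nat_lit 573487) (nat_lit 14) .nil)))) .nil))) (.nd (nat_lit 6) 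
(.lf (nat_lit 80169) (.g (nat_lit 1413) (.e (nat_lit 1846) (nat_lit 124) (.e (nat_lit 557101) (nat_lit 13) (.e (nat_lit 172115) (nat_lit 10) (.e (nat_lit 434227) (nat_lit 20) (.e (nat_lit 507928) (nat_lit 10) (.e (nat_lit 5772) (nat_lit 316) (.e (nat_lit 172133) (nat_lit 15) .nil))))))) (.g (nat_lit 4) .nil .nil))) 
(.lf (nat_lit 80233) (.g (nat_lit 3486) (.e (nat_lit 1846) (nat_lit 124) (.e (nat_lit 557108) (nat_lit 15) (.e (nat_lit 188452) (nat_lit 23) (.e (nat_lit 204846) (nat_lit 24) (.e (nat_lit 319505) (nat_lit 10) (.e (nat_lit 5712) (nat_lit 312) (.e (nat_lit 42) (nat_lit 0) .nil))))))) (.g (nat_lit 5) .nil .nil))))) (.nd (nat_lit 5) (.nd (nat_lit 6) 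
(.lf (nat_lit 80153) (.g (nat_lit 3095) (.e (nat_lit 1846) (nat_lit 124) (.e (nat_lit 557100) (nat_lit 13) (.e (nat_lit 172106) (nat_lit 10) (.e (nat_lit 434244) (nat_lit 28) (.e (nat_lit 573450) (nat_lit 9) .nil))))) .nil)) 
(.lf (nat_lit 80217) (.g (nat_lit 2727) (.e (nat_lit 1846) (nat_lit 124) (.e (nat_lit 557108) (nat_lit 15) (.e (nat_lit 188449) (nat_lit 22) (.e (nat_lit 196628) (nat_lit 9) .nil)))) .nil))) (.nd (nat_lit 6) 
(.lf (nat_lit 80185) (.g (nat_lit 2904) (.e (nat_lit 1846) (nat_lit 124) (.e (nat_lit 557101) (nat_lit 13) (.e (nat_lit 172115) (nat_lit 10) (.e (nat_lit 434244) (nat_lit 28) (.e (nat_lit 573471) (nat_lit 11) (.e (nat_lit 16444) (nat_lit 9) (.e (nat_lit 426386) (nat_lit 15) .nil))))))) (.g (nat_lit 5) .nil .nil))) 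
(.lf (nat_lit 80249) (.g (nat_lit 3692) (.e (nat_lit 1846) (nat_lit 124) (.e (nat_lit 557109) (nat_lit 15) (.e (nat_lit 188449) (nat_lit 22) (.e (nat_lit 196628) (nat_lit 9) .nil)))) .nil)))))) (.nd (nat_lit 3) (.nd (nat_lit 4) (.nd (nat_lit 5) (.nd (nat_lit 6) 
(.lf (nat_lit 80133) (.g (nat_lit 1083) (.e (nat_lit 1846) (nat_lit 124) (.e (nat_lit 557094) (nat_lit 12) (.e (nat_lit 164030) (nat_lit 53) (.e (nat_lit 761902) (nat_lit 16) .nil)))) .nil)) 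
(.lf (nat_lit 80197) (.g (nat_lit 1123) (.e (nat_lit 1846) (nat_lit 124) (.e (nat_lit 557104) (nat_lit 14) (.e (nat_lit 180278) (nat_lit 32) (.e (nat_lit 1253) (nat_lit 92) .nil)))) .nil))) (.nd (nat_lit 6) 
(.lf (nat_lit 80165) (.g (nat_lit 1796) (.e (nat_lit 1846) (nat_lit 124) (.e (nat_lit 557101) (nat_lit 13) (.e (nat_lit 172097) (nat_lit 9) (.e (nat_lit 426125) (nat_lit 2) (.e (nat_lit 196661) (nat_lit 12) (.e (nat_lit 65280) (nat_lit 208) (.e (nat_lit 237627) (nat_lit 15) .nil))))))) (.g (nat_lit 4) .nil .nil))) 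
(.lf (nat_lit 80229) (.g (nat_lit 2815) (.e (nat_lit 1846) (nat_lit 124) (.e (nat_lit 557108) (nat_lit 15) (.e (nat_lit 188452) (nat_lit 23) (.e (nat_lit 204821) (nat_lit 17) (.e (nat_lit 7936) (nat_lit 364) (.e (nat_lit 237629) (nat_lit 15) .nil)))))) (.g (nat_lit 4) .nil .nil))))) (.nd (nat_lit 5) (.nd (nat_lit 6) 
(.lf (nat_lit 80149) (.g (nat_lit 4056) (.e (nat_lit 1846) (nat_lit 124) (.e (nat_lit 557100) (nat_lit 13) (.e (nat_lit 172106) (nat_lit 10) (.e (nat_lit 434231) (nat_lit 23) (.e (nat_lit 532563) (nat_lit 15) (.e (nat_lit 385105) (nat_lit 50) (.e (nat_lit 786450) (nat_lit 15) .nil))))))) (.g (nat_lit 5) .nil .nil))) 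
(.lf (nat_lit 80213) (.g (nat_lit 1727) (.e (nat_lit 1846) (nat_lit 124) (.e (nat_lit 557108) (nat_lit 15) (.e (nat_lit 188434) (nat_lit 20) (.e (nat_lit 3271) (nat_lit 199) (.e (nat_lit 548898) (nat_lit 14) .nil))))) .nil))) (.nd (nat_lit 6) 
(.lf (nat_lit 80181) (.g (nat_lit 1886) (.e (nat_lit 1846) (nat_lit 124) (.e (nat_lit 557101) (nat_lit 13) (.e (nat_lit 172115) (nat_lit 10) (.e (nat_lit 434244) (nat_lit 28) (.e (nat_lit 573458) (nat_lit 9) .nil))))) .nil)) 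
(.lf (nat_lit 80245) (.g (nat_lit 3030) (.e (nat_lit 1846) (nat_lit 124) (.e (nat_lit 557109) (nat_lit 15) (.e (nat_lit 188434) (nat_lit 20) (.e (nat_lit 3272) (nat_lit 199) (.e (nat_lit 548898) (nat_lit 14) .nil))))) .nil))))) (.nd (nat_lit 4) (.nd (nat_lit 5) (.nd (nat_lit 6) 
(.lf (nat_lit 80141) (.g (nat_lit 2304) (.e (nat_lit 1846) (nat_lit 124) (.e (nat_lit 557097) (nat_lit 13) (.e (nat_lit 172115) (nat_lit 10) (.e (nat_lit 434244) (nat_lit 28) (.e (nat_lit 573471) (nat_lit 11) (.e (nat_lit 16440) (nat_lit 9) (.e (nat_lit 426380) (nat_lit 15) .nil))))))) (.g (nat_lit 4) .nil .nil))) 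
(.lf (nat_lit 80205) (.g (nat_lit 2497) (.e (nat_lit 1846) (nat_lit 124) (.e (nat_lit 557105) (nat_lit 14) (.e (nat_lit 180252) (nat_lit 10) (.e (nat_lit 573489) (nat_lit 14) (.e (nat_lit 73755) (nat_lit 8) .nil))))) .nil))) (.nd (nat_lit 6) 
(.lf (nat_lit 80173) (.g (nat_lit 2124) (.e (nat_lit 1846) (nat_lit 124) (.e (nat_lit 557101) (nat_lit 13) (.e (nat_lit 172115) (nat_lit 10) (.e (nat_lit 434227) (nat_lit 20) (.e (nat_lit 507930) (nat_lit 10) (.e (nat_lit 5772) (nat_lit 316) (.e (nat_lit 172132) (nat_lit 15) .nil))))))) (.g (nat_lit 7) .nil .nil))) 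
(.lf (nat_lit 80237) (.g (nat_lit 4706) (.e (nat_lit 1846) (nat_lit 124) (.e (nat_lit 557108) (nat_lit 15) (.e (nat_lit 188452) (nat_lit 23) (.e (nat_lit 204885) (nat_lit 33) (.e (nat_lit 401440) (nat_lit 9) (.e (nat_lit 426396) (nat_lit 15) .nil)))))) (.g (nat_lit 0) .nil .nil))))) (.nd (nat_lit 5) (.nd (nat_lit 6) 
(.lf (nat_lit 80157) (.g (nat_lit 1426) (.e (nat_lit 1846) (nat_lit 124) (.e (nat_lit 557100) (nat_lit 13) (.e (nat_lit 172113) (nat_lit 10) (.e (nat_lit 434245) (nat_lit 28) .nil)))) .nil)) 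
(.lf (nat_lit 80221) (.g (nat_lit 3213) (.e (nat_lit 1846) (nat_lit 124) (.e (nat_lit 557108) (nat_lit 15) (.e (nat_lit 188452) (nat_lit 23) (.e (nat_lit 204816) (nat_lit 17) .nil)))) .nil))) (.nd (nat_lit 6) 
(.lf (nat_lit 80189) (.g (nat_lit 1802) (.e (nat_lit 1846) (nat_lit 124) (.e (nat_lit 557101) (nat_lit 13) (.e (nat_lit 172126) (nat_lit 14) (.e (nat_lit 491540) (nat_lit 3) (.e (nat_lit 98370) (nat_lit 28) (.e (nat_lit 442372) (nat_lit 0) .nil)))))) (.g (nat_lit 4) .nil .nil))) 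
(.lf (nat_lit 80253) (.g (nat_lit 3154) (.e (nat_lit 1846) (nat_lit 124) (.e (nat_lit 557109) (nat_lit 15) (.e (nat_lit 188449) (nat_lit 22) (.e (nat_lit 196666) (nat_lit 13) .nil)))) .nil))))))) (.nd (nat_lit 2) (.nd (nat_lit 3) (.nd (nat_lit 4) (.nd (nat_lit 5) (.nd (nat_lit 6) 
(.lf (nat_lit 80131) (.g (nat_lit 969) (.e (nat_lit 1846) (nat_lit 124) (.e (nat_lit 557090) (nat_lit 12) (.e (nat_lit 164020) (nat_lit 45) .nil))) .nil)) 
(.lf (nat_lit 80195) (.g (nat_lit 2337) (.e (nat_lit 1846) (nat_lit 124) (.e (nat_lit 557104) (nat_lit 14) (.e (nat_lit 180278) (nat_lit 32) (.e (nat_lit 1235) (nat_lit 91) (.e (nat_lit 90170) (nat_lit 13) (.e (nat_lit 172095) (nat_lit 9) (.e (nat_lit 426380) (nat_lit 15) .nil))))))) (.g (nat_lit 6) .nil .nil)))) (.nd (nat_lit 6) 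
(.lf (nat_lit 80163) (.g (nat_lit 2120) (.e (nat_lit 1846) (nat_lit 124) (.e (nat_lit 557100) (nat_lit 13) (.e (nat_lit 172126) (nat_lit 14) (.e (nat_lit 491540) (nat_lit 3) .nil)))) .nil)) 
(.lf (nat_lit 80227) (.g (nat_lit 2366) (.e (nat_lit 1846) (nat_lit 124) (.e (nat_lit 557108) (nat_lit 15) (.e (nat_lit 188452) (nat_lit 23) (.e (nat_lit 204821) (nat_lit 17) .nil)))) .nil)))) (.nd (nat_lit 5) (.nd (nat_lit 6) 
(.lf (nat_lit 80147) (.g (nat_lit 2188) (.e (nat_lit 1846) (nat_lit 124) (.e (nat_lit 557100) (nat_lit 13) (.e (nat_lit 172106) (nat_lit 10) (.e (nat_lit 434227) (nat_lit 20) .nil)))) .nil)) 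
(.lf (nat_lit 80211) (.g (nat_lit 744) (.e (nat_lit 1846) (nat_lit 124) (.e (nat_lit 557108) (nat_lit 15) (.e (nat_lit 188420) (nat_lit 0) .nil))) .nil))) (.nd (nat_lit 6) 
(.lf (nat_lit 80179) (.g (nat_lit 1684) (.e (nat_lit 1846) (nat_lit 124) (.e (nat_lit 557101) (nat_lit 13) (.e (nat_lit 172115) (nat_lit 10) (.e (nat_lit 434231) (nat_lit 23) (.e (nat_lit 532569) (nat_lit 16) .nil))))) .nil)) 
(.lf (nat_lit 80243) (.g (nat_lit 2579) (.e (nat_lit 1846) (nat_lit 124) (.e (nat_lit 557109) (nat_lit 15) (.e (nat_lit 188434) (nat_lit 20) (.e (nat_lit 3271) (nat_lit 199) .nil)))) .nil))))) (.nd (nat_lit 4) (.nd (nat_lit 5) (.nd (nat_lit 6) 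
(.lf (nat_lit 80139) (.g (nat_lit 2017) (.e (nat_lit 1846) (nat_lit 124) (.e (nat_lit 557097) (nat_lit 13) (.e (nat_lit 172115) (nat_lit 10) (.e (nat_lit 434238) (nat_lit 25) (.e (nat_lit 548898) (nat_lit 14) .nil))))) .nil)) 
(.lf (nat_lit 80203) (.g (nat_lit 3330) (.e (nat_lit 1846) (nat_lit 124) (.e (nat_lit 557105) (nat_lit 14) (.e (nat_lit 180252) (nat_lit 10) (.e (nat_lit 573488) (nat_lit 14) (.e (nat_lit 73747) (nat_lit 3) .nil))))) .nil))) (.nd (nat_lit 6) 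
(.lf (nat_lit 80171) (.g (nat_lit 1384) (.e (nat_lit 1846) (nat_lit 124) (.e (nat_lit 557101) (nat_lit 13) (.e (nat_lit 172115) (nat_lit 10) (.e (nat_lit 434227) (nat_lit 20) (.e (nat_lit 507929) (nat_lit 10) (.e (nat_lit 5772) (nat_lit 316) (.e (nat_lit 172133) (nat_lit 15) .nil))))))) (.g (nat_lit 4) .nil .nil))) 
(.lf (nat_lit 80235) (.g (nat_lit 3842) (.e (nat_lit 1846) (nat_lit 124) (.e (nat_lit 557108) (nat_lit 15) (.e (nat_lit 188452) (nat_lit 23) (.e (nat_lit 204849) (nat_lit 25) .nil)))) .nil)))) (.nd (nat_lit 5) (.nd (nat_lit 6) 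
(.lf (nat_lit 80155) (.g (nat_lit 3024) (.e (nat_lit 1846) (nat_lit 124) (.e (nat_lit 557100) (nat_lit 13) (.e (nat_lit 172106) (nat_lit 10) (.e (nat_lit 434244) (nat_lit 28) (.e (nat_lit 573458) (nat_lit 9) .nil))))) .nil)) 
(.lf (nat_lit 80219) (.g (nat_lit 3275) (.e (nat_lit 1846) (nat_lit 124) (.e (nat_lit 557108) (nat_lit 15) (.e (nat_lit 188449) (nat_lit 22) (.e (nat_lit 204544) (nat_lit 21) .nil)))) .nil))) (.nd (nat_lit 6) 
(.lf (nat_lit 80187) (.g (nat_lit 2301) (.e (nat_lit 1846) (nat_lit 124) (.e (nat_lit 557101) (nat_lit 13) (.e (nat_lit 172124) (nat_lit 14) (.e (nat_lit 491540) (nat_lit 3) (.e (nat_lit 98370) (nat_lit 28) (.e (nat_lit 442372) (nat_lit 0) .nil)))))) (.g (nat_lit 5) .nil .nil))) 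
(.lf (nat_lit 80251) (.g (nat_lit 3156) (.e (nat_lit 1846) (nat_lit 124) (.e (nat_lit 557109) (nat_lit 15) (.e (nat_lit 188449) (nat_lit 22) (.e (nat_lit 196661) (nat_lit 12) .nil)))) .nil)))))) (.nd (nat_lit 3) (.nd (nat_lit 4) (.nd (nat_lit 5) (.nd (nat_lit 6) 
(.lf (nat_lit 80135) (.g (nat_lit 1603) (.e (nat_lit 1846) (nat_lit 124) (.e (nat_lit 557094) (nat_lit 12) (.e (nat_lit 164030) (nat_lit 53) (.e (nat_lit 761903) (nat_lit 16) (.e (nat_lit 179968) (nat_lit 34) (.e (nat_lit 393273) (nat_lit 23) (.e (nat_lit 426364) (nat_lit 15) .nil))))))) (.g (nat_lit 4) .nil .nil))) 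
(.lf (nat_lit 80199) (.g (nat_lit 2681) (.e (nat_lit 1846) (nat_lit 124) (.e (nat_lit 557105) (nat_lit 14) (.e (nat_lit 180252) (nat_lit 10) (.e (nat_lit 573481) (nat_lit 13) .nil)))) .nil))) (.nd (nat_lit 6) 
(.lf (nat_lit 80167) (.g (nat_lit 1088) (.e (nat_lit 1846) (nat_lit 124) (.e (nat_lit 557101) (nat_lit 13) (.e (nat_lit 172115) (nat_lit 10) (.e (nat_lit 434227) (nat_lit 20) .nil)))) .nil)) 
(.lf (nat_lit 80231) (.g (nat_lit 1854) (.e (nat_lit 1846) (nat_lit 124) (.e (nat_lit 557108) (nat_lit 15) (.e (nat_lit 188452) (nat_lit 23) (.e (nat_lit 204846) (nat_lit 24) .nil)))) .nil)))) (.nd (nat_lit 5) (.nd (nat_lit 6) 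
(.lf (nat_lit 80151) (.g (nat_lit 2300) (.e (nat_lit 1846) (nat_lit 124) (.e (nat_lit 557100) (nat_lit 13) (.e (nat_lit 172106) (nat_lit 10) (.e (nat_lit 434238) (nat_lit 25) .nil)))) .nil)) 
(.lf (nat_lit 80215) (.g (nat_lit 2008) (.e (nat_lit 1846) (nat_lit 124) (.e (nat_lit 557108) (nat_lit 15) (.e (nat_lit 188434) (nat_lit 20) (.e (nat_lit 3272) (nat_lit 199) (.e (nat_lit 548898) (nat_lit 14) .nil))))) .nil))) (.nd (nat_lit 6) 
(.lf (nat_lit 80183) (.g (nat_lit 3674) (.e (nat_lit 1846) (nat_lit 124) (.e (nat_lit 557101) (nat_lit 13) (.e (nat_lit 172115) (nat_lit 10) (.e (nat_lit 434244) (nat_lit 28) (.e (nat_lit 573471) (nat_lit 11) (.e (nat_lit 16440) (nat_lit 9) (.e (nat_lit 426380) (nat_lit 15) .nil))))))) (.g (nat_lit 0) .nil .nil))) 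
(.lf (nat_lit 80247) (.g (nat_lit 2119) (.e (nat_lit 1846) (nat_lit 124) (.e (nat_lit 557109) (nat_lit 15) (.e (nat_lit 188441) (nat_lit 20) (.e (nat_lit 3272) (nat_lit 199) .nil)))) .nil))))) (.nd (nat_lit 4) (.nd (nat_lit 5) (.nd (nat_lit 6) 
(.lf (nat_lit 80143) (.g (nat_lit 1956) (.e (nat_lit 1846) (nat_lit 124) (.e (nat_lit 557098) (nat_lit 13) (.e (nat_lit 172115) (nat_lit 10) (.e (nat_lit 434244) (nat_lit 28) (.e (nat_lit 573458) (nat_lit 9) .nil))))) .nil)) 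
(.lf (nat_lit 80207) (.g (nat_lit 3814) (.e (nat_lit 1846) (nat_lit 124) (.e (nat_lit 557105) (nat_lit 14) (.e (nat_lit 180252) (nat_lit 10) (.e (nat_lit 573489) (nat_lit 14) (.e (nat_lit 73755) (nat_lit 8) (.e (nat_lit 557090) (nat_lit 12) (.e (nat_lit 164007) (nat_lit 41) (.e (nat_lit 663580) (nat_lit 9) (.e (nat_lit 40) (nat_lit 0) .nil))))))))) (.g (nat_lit 6) .nil .nil)))) (.nd (nat_lit 6) 
(.lf (nat_lit 80175) (.g (nat_lit 1864) (.e (nat_lit 1846) (nat_lit 124) (.e (nat_lit 557101) (nat_lit 13) (.e (nat_lit 172115) (nat_lit 10) (.e (nat_lit 434231) (nat_lit 23) (.e (nat_lit 532481) (nat_lit 0) (.e (nat_lit 6718) (nat_lit 361) (.e (nat_lit 172133) (nat_lit 15) .nil))))))) (.g (nat_lit 4) .nil .nil))) 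
(.lf (nat_lit 80239) (.g (nat_lit 4716) (.e (nat_lit 1846) (nat_lit 124) (.e (nat_lit 557108) (nat_lit 15) (.e (nat_lit 188452) (nat_lit 23) (.e (nat_lit 204885) (nat_lit 33) (.e (nat_lit 401444) (nat_lit 9) (.e (nat_lit 426386) (nat_lit 15) .nil)))))) (.g (nat_lit 6) .nil .nil))))) (.nd (nat_lit 5) (.nd (nat_lit 6) 
(.lf (nat_lit 80159) (.g (nat_lit 1349) (.e (nat_lit 1846) (nat_lit 124) (.e (nat_lit 557100) (nat_lit 13) (.e (nat_lit 172113) (nat_lit 10) (.e (nat_lit 434248) (nat_lit 28) .nil)))) .nil)) 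
(.lf (nat_lit 80223) (.g (nat_lit 4516) (.e (nat_lit 1846) (nat_lit 124) (.e (nat_lit 557108) (nat_lit 15) (.e (nat_lit 188452) (nat_lit 23) (.e (nat_lit 204816) (nat_lit 17) (.e (nat_lit 6720) (nat_lit 361) (.e (nat_lit 172133) (nat_lit 15) .nil)))))) (.g (nat_lit 0) .nil .nil)))) (.nd (nat_lit 6) 
(.lf (nat_lit 80191) (.g (nat_lit 594) (.e (nat_lit 1846) (nat_lit 124) (.e (nat_lit 557103) (nat_lit 14) (.e (nat_lit 180278) (nat_lit 32) .nil))) .nil)) 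
(.lf (nat_lit 80255) (.g (nat_lit 591) (.e (nat_lit 1846) (nat_lit 124) (.e (nat_lit 557109) (nat_lit 15) (.e (nat_lit 188452) (nat_lit 23) .nil))) .nil)))))))))

noncomputable def tv1086 : DT := (.nd (nat_lit 0) (.nd (nat_lit 1) (.nd (nat_lit 2) (.nd (nat_lit 3) (.nd (nat_lit 4) (.nd (nat_lit 5) (.nd (nat_lit 6) 
(.lf (nat_lit 80256) (.g (nat_lit 4361) (.e (nat_lit 1846) (nat_lit 124) (.e (nat_lit 557109) (nat_lit 15) (.e (nat_lit 188452) (nat_lit 23) (.e (nat_lit 204816) (nat_lit 17) .nil)))) .nil)) 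
(.lf (nat_lit 80320) (.g (nat_lit 1345) (.e (nat_lit 1847) (nat_lit 124) (.e (nat_lit 557104) (nat_lit 14) (.e (nat_lit 180278) (nat_lit 32) (.e (nat_lit 1253) (nat_lit 92) .nil)))) .nil))) (.nd (nat_lit 6) 
(.lf (nat_lit 80288) (.g (nat_lit 1315) (.e (nat_lit 1847) (nat_lit 124) (.e (nat_lit 557093) (nat_lit 12) (.e (nat_lit 164022) (nat_lit 46) (.e (nat_lit 704736) (nat_lit 11) .nil)))) .nil)) 
(.lf (nat_lit 80352) (.g (nat_lit 5872) (.e (nat_lit 1847) (nat_lit 124) (.e (nat_lit 557109) (nat_lit 15) (.e (nat_lit 188452) (nat_lit 23) (.e (nat_lit 204884) (nat_lit 33) .nil)))) .nil)))) (.nd (nat_lit 5) (.nd (nat_lit 6) 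
(.lf (nat_lit 80272) (.g (nat_lit 4084) (.e (nat_lit 1846) (nat_lit 124) (.e (nat_lit 557109) (nat_lit 15) (.e (nat_lit 188452) (nat_lit 23) (.e (nat_lit 204885) (nat_lit 33) .nil)))) .nil)) 
(.lf (nat_lit 80336) (.g (nat_lit 3373) (.e (nat_lit 1847) (nat_lit 124) (.e (nat_lit 557108) (nat_lit 15) (.e (nat_lit 188452) (nat_lit 23) (.e (nat_lit 204885) (nat_lit 33) (.e (nat_lit 401437) (nat_lit 9) .nil))))) .nil))) (.nd (nat_lit 6) 
(.lf (nat_lit 80304) (.g (nat_lit 1692) (.e (nat_lit 1847) (nat_lit 124) (.e (nat_lit 557098) (nat_lit 13) (.e (nat_lit 172115) (nat_lit 10) (.e (nat_lit 434238) (nat_lit 25) (.e (nat_lit 548897) (nat_lit 14) .nil))))) .nil)) 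
(.lf (nat_lit 80368) (.g (nat_lit 2389) (.e (nat_lit 1848) (nat_lit 124) (.e (nat_lit 557087) (nat_lit 11) (.e (nat_lit 24617) (nat_lit 7) (.e (nat_lit 319504) (nat_lit 10) (.e (nat_lit 511) (nat_lit 41) .nil))))) .nil))))) (.nd (nat_lit 4) (.nd (nat_lit 5) (.nd (nat_lit 6) 
(.lf (nat_lit 80264) (.g (nat_lit 3657) (.e (nat_lit 1846) (nat_lit 124) (.e (nat_lit 557109) (nat_lit 15) (.e (nat_lit 188452) (nat_lit 23) (.e (nat_lit 212736) (nat_lit 17) .nil)))) .nil)) 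
(.lf (nat_lit 80328) (.g (nat_lit 3572) (.e (nat_lit 1847) (nat_lit 124) (.e (nat_lit 557108) (nat_lit 15) (.e (nat_lit 188452) (nat_lit 23) (.e (nat_lit 204816) (nat_lit 17) .nil)))) .nil))) (.nd (nat_lit 6) 
(.lf (nat_lit 80296) (.g (nat_lit 1784) (.e (nat_lit 1847) (nat_lit 124) (.e (nat_lit 557098) (nat_lit 13) (.e (nat_lit 172097) (nat_lit 9) (.e (nat_lit 426125) (nat_lit 2) (.e (nat_lit 196661) (nat_lit 12) .nil))))) .nil)) 
(.lf (nat_lit 80360) (.g (nat_lit 2615) (.e (nat_lit 1848) (nat_lit 124) (.e (nat_lit 557066) (nat_lit 9) (.e (nat_lit 232) (nat_lit 21) (.e (nat_lit 336060) (nat_lit 7) (.e (nat_lit 319504) (nat_lit 10) (.e (nat_lit 7936) (nat_lit 45) (.e (nat_lit 532535) (nat_lit 9) (.e (nat_lit 336099) (nat_lit 9) (.e (nat_lit 335924) (nat_lit 0) .nil))))))))) (.g (nat_lit 4) .nil .nil))))) 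
(.nd (nat_lit 5) (.nd (nat_lit 6) 
(.lf (nat_lit 80280) (.g (nat_lit 545) (.e (nat_lit 1846) (nat_lit 124) (.e (nat_lit 557109) (nat_lit 15) (.e (nat_lit 188461) (nat_lit 26) .nil))) .nil)) 
(.lf (nat_lit 80344) (.g (nat_lit 4496) (.e (nat_lit 1847) (nat_lit 124) (.e (nat_lit 557109) (nat_lit 15) (.e (nat_lit 188452) (nat_lit 23) (.e (nat_lit 204815) (nat_lit 17) .nil)))) .nil))) (.nd (nat_lit 6) 
(.lf (nat_lit 80312) (.g (nat_lit 1699) (.e (nat_lit 1847) (nat_lit 124) (.e (nat_lit 557101) (nat_lit 13) (.e (nat_lit 172115) (nat_lit 10) (.e (nat_lit 434238) (nat_lit 25) (.e (nat_lit 548898) (nat_lit 14) .nil))))) .nil)) 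
(.lf (nat_lit 80376) (.g (nat_lit 2264) (.e (nat_lit 1848) (nat_lit 124) (.e (nat_lit 557087) (nat_lit 11) (.e (nat_lit 24617) (nat_lit 7) (.e (nat_lit 319505) (nat_lit 10) (.e (nat_lit 511) (nat_lit 41) .nil))))) .nil)))))) (.nd (nat_lit 3) (.nd (nat_lit 4) (.nd (nat_lit 5) (.nd (nat_lit 6) 
(.lf (nat_lit 80260) (.g (nat_lit 3166) (.e (nat_lit 1846) (nat_lit 124) (.e (nat_lit 557109) (nat_lit 15) (.e (nat_lit 188452) (nat_lit 23) (.e (nat_lit 204819) (nat_lit 17) .nil)))) .nil)) 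
(.lf (nat_lit 80324) (.g (nat_lit 1258) (.e (nat_lit 1847) (nat_lit 124) (.e (nat_lit 557108) (nat_lit 15) (.e (nat_lit 188434) (nat_lit 20) .nil))) .nil))) (.nd (nat_lit 6) 
(.lf (nat_lit 80292) (.g (nat_lit 1780) (.e (nat_lit 1847) (nat_lit 124) (.e (nat_lit 557093) (nat_lit 12) (.e (nat_lit 164023) (nat_lit 46) (.e (nat_lit 704738) (nat_lit 11) (.e (nat_lit 16411) (nat_lit 2) .nil))))) .nil)) 
(.lf (nat_lit 80356) (.g (nat_lit 1728) (.e (nat_lit 1848) (nat_lit 124) (.e (nat_lit 557066) (nat_lit 9) (.e (nat_lit 232) (nat_lit 21) (.e (nat_lit 336060) (nat_lit 7) .nil)))) .nil)))) (.nd (nat_lit 5) (.nd (nat_lit 6) 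
(.lf (nat_lit 80276) (.g (nat_lit 865) (.e (nat_lit 1846) (nat_lit 124) (.e (nat_lit 557109) (nat_lit 15) (.e (nat_lit 188458) (nat_lit 25) .nil))) .nil)) 
(.lf (nat_lit 80340) (.g (nat_lit 3665) (.e (nat_lit 1847) (nat_lit 124) (.e (nat_lit 557109) (nat_lit 15) (.e (nat_lit 188449) (nat_lit 22) (.e (nat_lit 196630) (nat_lit 9) .nil)))) .nil))) (.nd (nat_lit 6) 
(.lf (nat_lit 80308) (.g (nat_lit 1696) (.e (nat_lit 1847) (nat_lit 124) (.e (nat_lit 557098) (nat_lit 13) (.e (nat_lit 172115) (nat_lit 10) (.e (nat_lit 434238) (nat_lit 25) (.e (nat_lit 548898) (nat_lit 14) (.e (nat_lit 2998) (nat_lit 186) (.e (nat_lit 450304) (nat_lit 0) .nil))))))) (.g (nat_lit 4) .nil .nil))) 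
(.lf (nat_lit 80372) (.g (nat_lit 2821) (.e (nat_lit 1848) (nat_lit 124) (.e (nat_lit 557087) (nat_lit 11) (.e (nat_lit 24617) (nat_lit 7) (.e (nat_lit 319504) (nat_lit 10) (.e (nat_lit 7936) (nat_lit 45) (.e (nat_lit 532548) (nat_lit 11) (.e (nat_lit 352291) (nat_lit 20) .nil))))))) (.g (nat_lit 4) .nil .nil)))))) (.nd (nat_lit 4) (.nd (nat_lit 5) (.nd (nat_lit 6) 
(.lf (nat_lit 80268) (.g (nat_lit 4862) (.e (nat_lit 1846) (nat_lit 124) (.e (nat_lit 557109) (nat_lit 15) (.e (nat_lit 188452) (nat_lit 23) (.e (nat_lit 204846) (nat_lit 24) (.e (nat_lit 319539) (nat_lit 19) .nil))))) .nil)) 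
(.lf (nat_lit 80332) (.g (nat_lit 3799) (.e (nat_lit 1847) (nat_lit 124) (.e (nat_lit 557108) (nat_lit 15) (.e (nat_lit 188452) (nat_lit 23) (.e (nat_lit 204821) (nat_lit 17) .nil)))) .nil))) (.nd (nat_lit 6) 
(.lf (nat_lit 80300) (.g (nat_lit 875) (.e (nat_lit 1847) (nat_lit 124) (.e (nat_lit 557098) (nat_lit 13) (.e (nat_lit 172115) (nat_lit 10) (.e (nat_lit 434231) (nat_lit 23) .nil)))) .nil)) 
(.lf (nat_lit 80364) (.g (nat_lit 2809) (.e (nat_lit 1848) (nat_lit 124) (.e (nat_lit 557066) (nat_lit 9) (.e (nat_lit 324) (nat_lit 24) (.e (nat_lit 360466) (nat_lit 3) (.e (nat_lit 516182) (nat_lit 15) (.e (nat_lit 475211) (nat_lit 41) (.e (nat_lit 712706) (nat_lit 0) .nil))))))) (.g (nat_lit 7) .nil .nil))))) (.nd (nat_lit 5) (.nd (nat_lit 6) 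
(.lf (nat_lit 80284) (.g (nat_lit 2079) (.e (nat_lit 1846) (nat_lit 124) (.e (nat_lit 557109) (nat_lit 15) (.e (nat_lit 188461) (nat_lit 26) (.e (nat_lit 253987) (nat_lit 10) .nil)))) .nil)) 
(.lf (nat_lit 80348) (.g (nat_lit 3346) (.e (nat_lit 1847) (nat_lit 124) (.e (nat_lit 557109) (nat_lit 15) (.e (nat_lit 188452) (nat_lit 23) (.e (nat_lit 204821) (nat_lit 17) .nil)))) .nil))) (.nd (nat_lit 6) 
(.lf (nat_lit 80316) (.g (nat_lit 702) (.e (nat_lit 1847) (nat_lit 124) (.e (nat_lit 557104) (nat_lit 14) (.e (nat_lit 180277) (nat_lit 32) .nil))) .nil)) 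
(.lf (nat_lit 80380) (.g (nat_lit 2598) (.e (nat_lit 1848) (nat_lit 124) (.e (nat_lit 557087) (nat_lit 11) (.e (nat_lit 24617) (nat_lit 7) (.e (nat_lit 319505) (nat_lit 10) (.e (nat_lit 7936) (nat_lit 45) (.e (nat_lit 532548) (nat_lit 11) (.e (nat_lit 352301) (nat_lit 20) .nil))))))) (.g (nat_lit 4) .nil .nil)))))))) 
(.nd (nat_lit 2) (.nd (nat_lit 3) (.nd (nat_lit 4) (.nd (nat_lit 5) (.nd (nat_lit 6) 
(.lf (nat_lit 80258) (.g (nat_lit 5819) (.e (nat_lit 1846) (nat_lit 124) (.e (nat_lit 557109) (nat_lit 15) (.e (nat_lit 188452) (nat_lit 23) (.e (nat_lit 204816) (nat_lit 17) (.e (nat_lit 6720) (nat_lit 361) (.e (nat_lit 172133) (nat_lit 15) .nil)))))) (.g (nat_lit 6) .nil .nil))) 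
(.lf (nat_lit 80322) (.g (nat_lit 1679) (.e (nat_lit 1847) (nat_lit 124) (.e (nat_lit 557104) (nat_lit 14) (.e (nat_lit 180278) (nat_lit 32) (.e (nat_lit 1253) (nat_lit 92) (.e (nat_lit 98381) (nat_lit 31) .nil))))) .nil))) (.nd (nat_lit 6) 
(.lf (nat_lit 80290) (.g (nat_lit 2403) (.e (nat_lit 1847) (nat_lit 124) (.e (nat_lit 557093) (nat_lit 12) (.e (nat_lit 164023) (nat_lit 46) (.e (nat_lit 704737) (nat_lit 11) (.e (nat_lit 16411) (nat_lit 2) (.e (nat_lit 196672) (nat_lit 15) (.e (nat_lit 81943) (nat_lit 20) .nil))))))) (.g (nat_lit 5) .nil .nil))) 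
(.lf (nat_lit 80354) (.g (nat_lit 2163) (.e (nat_lit 1848) (nat_lit 124) (.e (nat_lit 557065) (nat_lit 9) (.e (nat_lit 2830) (nat_lit 182) (.e (nat_lit 409648) (nat_lit 18) (.e (nat_lit 311040) (nat_lit 34) .nil))))) .nil)))) (.nd (nat_lit 5) (.nd (nat_lit 6) 
(.lf (nat_lit 80274) (.g (nat_lit 4919) (.e (nat_lit 1846) (nat_lit 124) (.e (nat_lit 557109) (nat_lit 15) (.e (nat_lit 188452) (nat_lit 23) (.e (nat_lit 204885) (nat_lit 33) (.e (nat_lit 401444) (nat_lit 9) (.e (nat_lit 426386) (nat_lit 15) .nil)))))) (.g (nat_lit 4) .nil .nil))) 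
(.lf (nat_lit 80338) (.g (nat_lit 1036) (.e (nat_lit 1847) (nat_lit 124) (.e (nat_lit 557109) (nat_lit 15) (.e (nat_lit 188434) (nat_lit 20) .nil))) .nil))) (.nd (nat_lit 6) 
(.lf (nat_lit 80306) (.g (nat_lit 2019) (.e (nat_lit 1847) (nat_lit 124) (.e (nat_lit 557098) (nat_lit 13) (.e (nat_lit 172115) (nat_lit 10) (.e (nat_lit 434238) (nat_lit 25) (.e (nat_lit 548897) (nat_lit 14) (.e (nat_lit 3004) (nat_lit 186) (.e (nat_lit 450304) (nat_lit 0) .nil))))))) (.g (nat_lit 5) .nil .nil))) 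
(.lf (nat_lit 80370) (.g (nat_lit 2202) (.e (nat_lit 1848) (nat_lit 124) (.e (nat_lit 557087) (nat_lit 11) (.e (nat_lit 24617) (nat_lit 7) (.e (nat_lit 319504) (nat_lit 10) (.e (nat_lit 7936) (nat_lit 41) .nil))))) .nil))))) (.nd (nat_lit 4) (.nd (nat_lit 5) (.nd (nat_lit 6) 
(.lf (nat_lit 80266) (.g (nat_lit 2095) (.e (nat_lit 1846) (nat_lit 124) (.e (nat_lit 557109) (nat_lit 15) (.e (nat_lit 188452) (nat_lit 23) (.e (nat_lit 204846) (nat_lit 24) .nil)))) .nil)) 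
(.lf (nat_lit 80330) (.g (nat_lit 3296) (.e (nat_lit 1847) (nat_lit 124) (.e (nat_lit 557108) (nat_lit 15) (.e (nat_lit 188452) (nat_lit 23) (.e (nat_lit 204817) (nat_lit 17) .nil)))) .nil))) (.nd (nat_lit 6) 
(.lf (nat_lit 80298) (.g (nat_lit 490) (.e (nat_lit 1847) (nat_lit 124) (.e (nat_lit 557098) (nat_lit 13) (.e (nat_lit 172115) (nat_lit 10) .nil))) .nil)) 
(.lf (nat_lit 80362) (.g (nat_lit 294) (.e (nat_lit 1848) (nat_lit 124) (.e (nat_lit 557066) (nat_lit 9) (.e (nat_lit 324) (nat_lit 24) .nil))) .nil)))) (.nd (nat_lit 5) (.nd (nat_lit 6) 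
(.lf (nat_lit 80282) (.g (nat_lit 2110) (.e (nat_lit 1846) (nat_lit 124) (.e (nat_lit 557109) (nat_lit 15) (.e (nat_lit 188461) (nat_lit 26) (.e (nat_lit 253985) (nat_lit 10) .nil)))) .nil)) 
(.lf (nat_lit 80346) (.g (nat_lit 4425) (.e (nat_lit 1847) (nat_lit 124) (.e (nat_lit 557109) (nat_lit 15) (.e (nat_lit 188452) (nat_lit 23) (.e (nat_lit 204817) (nat_lit 17) .nil)))) .nil))) (.nd (nat_lit 6) 
(.lf (nat_lit 80314) (.g (nat_lit 594) (.e (nat_lit 1847) (nat_lit 124) (.e (nat_lit 557103) (nat_lit 14) (.e (nat_lit 180278) (nat_lit 32) .nil))) .nil)) 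
(.lf (nat_lit 80378) (.g (nat_lit 2674) (.e (nat_lit 1848) (nat_lit 124) (.e (nat_lit 557087) (nat_lit 11) (.e (nat_lit 24617) (nat_lit 7) (.e (nat_lit 319505) (nat_lit 10) (.e (nat_lit 7936) (nat_lit 45) (.e (nat_lit 532548) (nat_lit 11) (.e (nat_lit 352291) (nat_lit 20) .nil))))))) (.g (nat_lit 4) .nil .nil))))))) (.nd (nat_lit 3) (.nd (nat_lit 4) (.nd (nat_lit 5) (.nd (nat_lit 6) 
(.lf (nat_lit 80262) (.g (nat_lit 3295) (.e (nat_lit 1846) (nat_lit 124) (.e (nat_lit 557109) (nat_lit 15) (.e (nat_lit 188452) (nat_lit 23) (.e (nat_lit 204821) (nat_lit 17) (.e (nat_lit 6114) (nat_lit 332) .nil))))) .nil)) 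
(.lf (nat_lit 80326) (.g (nat_lit 532) (.e (nat_lit 1847) (nat_lit 124) (.e (nat_lit 557108) (nat_lit 15) (.e (nat_lit 188452) (nat_lit 23) .nil))) .nil))) (.nd (nat_lit 6) 
(.lf (nat_lit 80294) (.g (nat_lit 909) (.e (nat_lit 1847) (nat_lit 124) (.e (nat_lit 557094) (nat_lit 12) (.e (nat_lit 164030) (nat_lit 53) (.e (nat_lit 761902) (nat_lit 16) .nil)))) .nil)) 
(.lf (nat_lit 80358) (.g (nat_lit 2563) (.e (nat_lit 1848) (nat_lit 124) (.e (nat_lit 557066) (nat_lit 9) (.e (nat_lit 232) (nat_lit 21) (.e (nat_lit 336060) (nat_lit 7) (.e (nat_lit 319504) (nat_lit 10) (.e (nat_lit 7936) (nat_lit 45) (.e (nat_lit 532535) (nat_lit 9) (.e (nat_lit 336099) (nat_lit 9) (.e (nat_lit 335918) (nat_lit 0) .nil))))))))) (.g (nat_lit 4) .nil .nil))))) 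
(.nd (nat_lit 5) (.nd (nat_lit 6) 
(.lf (nat_lit 80278) (.g (nat_lit 2474) (.e (nat_lit 1846) (nat_lit 124) (.e (nat_lit 557109) (nat_lit 15) (.e (nat_lit 188458) (nat_lit 25) (.e (nat_lit 245797) (nat_lit 18) .nil)))) .nil)) 
(.lf (nat_lit 80342) (.g (nat_lit 3751) (.e (nat_lit 1847) (nat_lit 124) (.e (nat_lit 557109) (nat_lit 15) (.e (nat_lit 188449) (nat_lit 22) (.e (nat_lit 196666) (nat_lit 13) .nil)))) .nil))) (.nd (nat_lit 6) 
(.lf (nat_lit 80310) (.g (nat_lit 1207) (.e (nat_lit 1847) (nat_lit 124) (.e (nat_lit 557098) (nat_lit 13) (.e (nat_lit 172124) (nat_lit 14) (.e (nat_lit 491540) (nat_lit 3) .nil)))) .nil)) 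
(.lf (nat_lit 80374) (.g (nat_lit 3181) (.e (nat_lit 1848) (nat_lit 124) (.e (nat_lit 557087) (nat_lit 11) (.e (nat_lit 24617) (nat_lit 7) (.e (nat_lit 319504) (nat_lit 10) (.e (nat_lit 7936) (nat_lit 45) (.e (nat_lit 532548) (nat_lit 11) (.e (nat_lit 352295) (nat_lit 20) .nil))))))) (.g (nat_lit 4) .nil .nil)))))) (.nd (nat_lit 4) (.nd (nat_lit 5) (.nd (nat_lit 6) 
(.lf (nat_lit 80270) (.g (nat_lit 3765) (.e (nat_lit 1846) (nat_lit 124) (.e (nat_lit 557109) (nat_lit 15) (.e (nat_lit 188452) (nat_lit 23) (.e (nat_lit 204849) (nat_lit 25) .nil)))) .nil)) 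
(.lf (nat_lit 80334) (.g (nat_lit 4081) (.e (nat_lit 1847) (nat_lit 124) (.e (nat_lit 557108) (nat_lit 15) (.e (nat_lit 188452) (nat_lit 23) (.e (nat_lit 204884) (nat_lit 33) .nil)))) .nil))) (.nd (nat_lit 6) 
(.lf (nat_lit 80302) (.g (nat_lit 1616) (.e (nat_lit 1847) (nat_lit 124) (.e (nat_lit 557098) (nat_lit 13) (.e (nat_lit 172115) (nat_lit 10) (.e (nat_lit 434231) (nat_lit 23) (.e (nat_lit 532490) (nat_lit 0) .nil))))) .nil)) 
(.lf (nat_lit 80366) (.g (nat_lit 1684) (.e (nat_lit 1848) (nat_lit 124) (.e (nat_lit 557087) (nat_lit 11) (.e (nat_lit 24617) (nat_lit 7) (.e (nat_lit 319496) (nat_lit 10) .nil)))) .nil)))) (.nd (nat_lit 5) (.nd (nat_lit 6) 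
(.lf (nat_lit 80286) (.g (nat_lit 916) (.e (nat_lit 1847) (nat_lit 124) (.e (nat_lit 557092) (nat_lit 12) (.e (nat_lit 164022) (nat_lit 46) (.e (nat_lit 704738) (nat_lit 11) .nil)))) .nil)) 
(.lf (nat_lit 80350) (.g (nat_lit 4477) (.e (nat_lit 1847) (nat_lit 124) (.e (nat_lit 557109) (nat_lit 15) (.e (nat_lit 188452) (nat_lit 23) (.e (nat_lit 204852) (nat_lit 26) .nil)))) .nil))) (.nd (nat_lit 6) 
(.lf (nat_lit 80318) (.g (nat_lit 1326) (.e (nat_lit 1847) (nat_lit 124) (.e (nat_lit 557104) (nat_lit 14) (.e (nat_lit 180278) (nat_lit 32) (.e (nat_lit 1252) (nat_lit 92) .nil)))) .nil)) 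
(.lf (nat_lit 80382) (.g (nat_lit 2562) (.e (nat_lit 1848) (nat_lit 124) (.e (nat_lit 557087) (nat_lit 11) (.e (nat_lit 24617) (nat_lit 7) (.e (nat_lit 319518) (nat_lit 12) .nil)))) .nil)))))))) (.nd (nat_lit 1) (.nd (nat_lit 2) (.nd (nat_lit 3) (.nd (nat_lit 4) (.nd (nat_lit 5) (.nd (nat_lit 6) 
(.lf (nat_lit 80257) (.g (nat_lit 5838) (.e (nat_lit 1846) (nat_lit 124) (.e (nat_lit 557109) (nat_lit 15) (.e (nat_lit 188452) (nat_lit 23) (.e (nat_lit 204816) (nat_lit 17) (.e (nat_lit 6718) (nat_lit 361) (.e (nat_lit 172133) (nat_lit 15) .nil)))))) (.g (nat_lit 6) .nil .nil))) 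
(.lf (nat_lit 80321) (.g (nat_lit 1664) (.e (nat_lit 1847) (nat_lit 124) (.e (nat_lit 557104) (nat_lit 14) (.e (nat_lit 180278) (nat_lit 32) (.e (nat_lit 1253) (nat_lit 92) (.e (nat_lit 98369) (nat_lit 28) .nil))))) .nil))) (.nd (nat_lit 6) 
(.lf (nat_lit 80289) (.g (nat_lit 1132) (.e (nat_lit 1847) (nat_lit 124) (.e (nat_lit 557093) (nat_lit 12) (.e (nat_lit 164023) (nat_lit 46) (.e (nat_lit 704736) (nat_lit 11) .nil)))) .nil)) 
(.lf (nat_lit 80353) (.g (nat_lit 5362) (.e (nat_lit 1847) (nat_lit 124) (.e (nat_lit 557109) (nat_lit 15) (.e (nat_lit 188452) (nat_lit 23) (.e (nat_lit 204885) (nat_lit 33) .nil)))) .nil)))) (.nd (nat_lit 5) (.nd (nat_lit 6) 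
(.lf (nat_lit 80273) (.g (nat_lit 4654) (.e (nat_lit 1846) (nat_lit 124) (.e (nat_lit 557109) (nat_lit 15) (.e (nat_lit 188452) (nat_lit 23) (.e (nat_lit 204885) (nat_lit 33) (.e (nat_lit 401444) (nat_lit 9) .nil))))) .nil)) 
(.lf (nat_lit 80337) (.g (nat_lit 3142) (.e (nat_lit 1847) (nat_lit 124) (.e (nat_lit 557108) (nat_lit 15) (.e (nat_lit 188452) (nat_lit 23) (.e (nat_lit 204885) (nat_lit 33) (.e (nat_lit 401440) (nat_lit 9) (.e (nat_lit 433920) (nat_lit 15) .nil)))))) (.g (nat_lit 4) .nil .nil)))) (.nd (nat_lit 6) 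
(.lf (nat_lit 80305) (.g (nat_lit 2118) (.e (nat_lit 1847) (nat_lit 124) (.e (nat_lit 557098) (nat_lit 13) (.e (nat_lit 172115) (nat_lit 10) (.e (nat_lit 434238) (nat_lit 25) (.e (nat_lit 548897) (nat_lit 14) (.e (nat_lit 2988) (nat_lit 186) (.e (nat_lit 450304) (nat_lit 0) .nil))))))) (.g (nat_lit 6) .nil .nil))) 
(.lf (nat_lit 80369) (.g (nat_lit 2499) (.e (nat_lit 1848) (nat_lit 124) (.e (nat_lit 557087) (nat_lit 11) (.e (nat_lit 24617) (nat_lit 7) (.e (nat_lit 319504) (nat_lit 10) (.e (nat_lit 531) (nat_lit 41) .nil))))) .nil))))) (.nd (nat_lit 4) (.nd (nat_lit 5) (.nd (nat_lit 6) 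
(.lf (nat_lit 80265) (.g (nat_lit 3230) (.e (nat_lit 1846) (nat_lit 124) (.e (nat_lit 557109) (nat_lit 15) (.e (nat_lit 188452) (nat_lit 23) (.e (nat_lit 204845) (nat_lit 24) .nil)))) .nil)) 
(.lf (nat_lit 80329) (.g (nat_lit 4129) (.e (nat_lit 1847) (nat_lit 124) (.e (nat_lit 557108) (nat_lit 15) (.e (nat_lit 188452) (nat_lit 23) (.e (nat_lit 204816) (nat_lit 17) (.e (nat_lit 6720) (nat_lit 361) (.e (nat_lit 179968) (nat_lit 15) .nil)))))) (.g (nat_lit 5) .nil .nil)))) (.nd (nat_lit 6) 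
(.lf (nat_lit 80297) (.g (nat_lit 1842) (.e (nat_lit 1847) (nat_lit 124) (.e (nat_lit 557098) (nat_lit 13) (.e (nat_lit 172097) (nat_lit 9) (.e (nat_lit 426140) (nat_lit 3) (.e (nat_lit 204821) (nat_lit 17) .nil))))) .nil)) 
(.lf (nat_lit 80361) (.g (nat_lit 2945) (.e (nat_lit 1848) (nat_lit 124) (.e (nat_lit 557066) (nat_lit 9) (.e (nat_lit 232) (nat_lit 21) (.e (nat_lit 336060) (nat_lit 7) (.e (nat_lit 319517) (nat_lit 12) .nil))))) .nil)))) (.nd (nat_lit 5) (.nd (nat_lit 6) 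
(.lf (nat_lit 80281) (.g (nat_lit 2007) (.e (nat_lit 1846) (nat_lit 124) (.e (nat_lit 557109) (nat_lit 15) (.e (nat_lit 188461) (nat_lit 26) (.e (nat_lit 253983) (nat_lit 10) .nil)))) .nil)) 
(.lf (nat_lit 80345) (.g (nat_lit 5630) (.e (nat_lit 1847) (nat_lit 124) (.e (nat_lit 557109) (nat_lit 15) (.e (nat_lit 188452) (nat_lit 23) (.e (nat_lit 204816) (nat_lit 17) .nil)))) .nil))) (.nd (nat_lit 6) 
(.lf (nat_lit 80313) (.g (nat_lit 1721) (.e (nat_lit 1847) (nat_lit 124) (.e (nat_lit 557101) (nat_lit 13) (.e (nat_lit 172115) (nat_lit 10) (.e (nat_lit 434244) (nat_lit 28) (.e (nat_lit 573450) (nat_lit 9) (.e (nat_lit 457) (nat_lit 34) (.e (nat_lit 450304) (nat_lit 0) .nil))))))) (.g (nat_lit 4) .nil .nil))) 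
(.lf (nat_lit 80377) (.g (nat_lit 2156) (.e (nat_lit 1848) (nat_lit 124) (.e (nat_lit 557087) (nat_lit 11) (.e (nat_lit 24617) (nat_lit 7) (.e (nat_lit 319505) (nat_lit 10) (.e (nat_lit 531) (nat_lit 41) .nil))))) .nil)))))) (.nd (nat_lit 3) (.nd (nat_lit 4) (.nd (nat_lit 5) (.nd (nat_lit 6) 
(.lf (nat_lit 80261) (.g (nat_lit 2644) (.e (nat_lit 1846) (nat_lit 124) (.e (nat_lit 557109) (nat_lit 15) (.e (nat_lit 188452) (nat_lit 23) (.e (nat_lit 204821) (nat_lit 17) .nil)))) .nil)) 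
(.lf (nat_lit 80325) (.g (nat_lit 784) (.e (nat_lit 1847) (nat_lit 124) (.e (nat_lit 557108) (nat_lit 15) (.e (nat_lit 188449) (nat_lit 22) .nil))) .nil))) (.nd (nat_lit 6) 
(.lf (nat_lit 80293) (.g (nat_lit 1678) (.e (nat_lit 1847) (nat_lit 124) (.e (nat_lit 557094) (nat_lit 12) (.e (nat_lit 164022) (nat_lit 46) (.e (nat_lit 704738) (nat_lit 11) (.e (nat_lit 16411) (nat_lit 2) .nil))))) .nil)) 
(.lf (nat_lit 80357) (.g (nat_lit 1969) (.e (nat_lit 1848) (nat_lit 124) (.e (nat_lit 557066) (nat_lit 9) (.e (nat_lit 232) (nat_lit 21) (.e (nat_lit 336060) (nat_lit 7) (.e (nat_lit 319504) (nat_lit 10) .nil))))) .nil)))) (.nd (nat_lit 5) (.nd (nat_lit 6) 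
(.lf (nat_lit 80277) (.g (nat_lit 2575) (.e (nat_lit 1846) (nat_lit 124) (.e (nat_lit 557109) (nat_lit 15) (.e (nat_lit 188458) (nat_lit 25) (.e (nat_lit 245784) (nat_lit 9) .nil)))) .nil)) 
(.lf (nat_lit 80341) (.g (nat_lit 3613) (.e (nat_lit 1847) (nat_lit 124) (.e (nat_lit 557109) (nat_lit 15) (.e (nat_lit 188449) (nat_lit 22) (.e (nat_lit 196661) (nat_lit 12) .nil)))) .nil))) (.nd (nat_lit 6) 
(.lf (nat_lit 80309) (.g (nat_lit 2566) (.e (nat_lit 1847) (nat_lit 124) (.e (nat_lit 557098) (nat_lit 13) (.e (nat_lit 172115) (nat_lit 10) (.e (nat_lit 434238) (nat_lit 25) (.e (nat_lit 548898) (nat_lit 14) (.e (nat_lit 3004) (nat_lit 186) (.e (nat_lit 450304) (nat_lit 0) .nil))))))) (.g (nat_lit 5) .nil .nil))) 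
(.lf (nat_lit 80373) (.g (nat_lit 3350) (.e (nat_lit 1848) (nat_lit 124) (.e (nat_lit 557087) (nat_lit 11) (.e (nat_lit 24617) (nat_lit 7) (.e (nat_lit 319504) (nat_lit 10) (.e (nat_lit 7936) (nat_lit 45) (.e (nat_lit 532548) (nat_lit 11) (.e (nat_lit 352294) (nat_lit 20) .nil))))))) (.g (nat_lit 4) .nil .nil)))))) (.nd (nat_lit 4) (.nd (nat_lit 5) (.nd (nat_lit 6) 
(.lf (nat_lit 80269) (.g (nat_lit 4352) (.e (nat_lit 1846) (nat_lit 124) (.e (nat_lit 557109) (nat_lit 15) (.e (nat_lit 188452) (nat_lit 23) (.e (nat_lit 204848) (nat_lit 25) .nil)))) .nil)) 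
(.lf (nat_lit 80333) (.g (nat_lit 3516) (.e (nat_lit 1847) (nat_lit 124) (.e (nat_lit 557108) (nat_lit 15) (.e (nat_lit 188452) (nat_lit 23) (.e (nat_lit 204846) (nat_lit 24) .nil)))) .nil))) (.nd (nat_lit 6) 
(.lf (nat_lit 80301) (.g (nat_lit 1450) (.e (nat_lit 1847) (nat_lit 124) (.e (nat_lit 557098) (nat_lit 13) (.e (nat_lit 172115) (nat_lit 10) (.e (nat_lit 434231) (nat_lit 23) (.e (nat_lit 532482) (nat_lit 0) (.e (nat_lit 6718) (nat_lit 361) (.e (nat_lit 179968) (nat_lit 15) .nil))))))) (.g (nat_lit 4) .nil .nil))) 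
(.lf (nat_lit 80365) (.g (nat_lit 903) (.e (nat_lit 1848) (nat_lit 124) (.e (nat_lit 557066) (nat_lit 9) (.e (nat_lit 2738) (nat_lit 174) (.e (nat_lit 253992) (nat_lit 11) .nil)))) .nil)))) (.nd (nat_lit 5) (.nd (nat_lit 6) 
(.lf (nat_lit 80285) (.g (nat_lit 2179) (.e (nat_lit 1846) (nat_lit 124) (.e (nat_lit 557109) (nat_lit 15) (.e (nat_lit 188461) (nat_lit 26) (.e (nat_lit 253987) (nat_lit 10) (.e (nat_lit 8276) (nat_lit 47) .nil))))) .nil)) 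
(.lf (nat_lit 80349) (.g (nat_lit 1784) (.e (nat_lit 1847) (nat_lit 124) (.e (nat_lit 557109) (nat_lit 15) (.e (nat_lit 188452) (nat_lit 23) (.e (nat_lit 204846) (nat_lit 24) .nil)))) .nil))) (.nd (nat_lit 6) 
(.lf (nat_lit 80317) (.g (nat_lit 1304) (.e (nat_lit 1847) (nat_lit 124) (.e (nat_lit 557104) (nat_lit 14) (.e (nat_lit 180277) (nat_lit 32) (.e (nat_lit 1253) (nat_lit 92) .nil)))) .nil)) 
(.lf (nat_lit 80381) (.g (nat_lit 2657) (.e (nat_lit 1848) (nat_lit 124) (.e (nat_lit 557087) (nat_lit 11) (.e (nat_lit 24617) (nat_lit 7) (.e (nat_lit 319517) (nat_lit 12) .nil)))) .nil))))))) (.nd (nat_lit 2) (.nd (nat_lit 3) (.nd (nat_lit 4) (.nd (nat_lit 5) (.nd (nat_lit 6) 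
(.lf (nat_lit 80259) (.g (nat_lit 4227) (.e (nat_lit 1846) (nat_lit 124) (.e (nat_lit 557109) (nat_lit 15) (.e (nat_lit 188452) (nat_lit 23) (.e (nat_lit 204817) (nat_lit 17) .nil)))) .nil)) 
(.lf (nat_lit 80323) (.g (nat_lit 2684) (.e (nat_lit 1847) (nat_lit 124) (.e (nat_lit 557106) (nat_lit 15) (.e (nat_lit 188452) (nat_lit 23) (.e (nat_lit 204816) (nat_lit 17) .nil)))) .nil))) (.nd (nat_lit 6) 
(.lf (nat_lit 80291) (.g (nat_lit 3453) (.e (nat_lit 1847) (nat_lit 124) (.e (nat_lit 557093) (nat_lit 12) (.e (nat_lit 164023) (nat_lit 46) (.e (nat_lit 704737) (nat_lit 11) (.e (nat_lit 16412) (nat_lit 2) (.e (nat_lit 196672) (nat_lit 15) (.e (nat_lit 81943) (nat_lit 20) .nil))))))) (.g (nat_lit 6) .nil .nil))) 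
(.lf (nat_lit 80355) (.g (nat_lit 2158) (.e (nat_lit 1848) (nat_lit 124) (.e (nat_lit 557065) (nat_lit 9) (.e (nat_lit 2830) (nat_lit 182) (.e (nat_lit 409649) (nat_lit 18) (.e (nat_lit 311040) (nat_lit 34) .nil))))) .nil)))) (.nd (nat_lit 5) (.nd (nat_lit 6) 
(.lf (nat_lit 80275) (.g (nat_lit 2159) (.e (nat_lit 1846) (nat_lit 124) (.e (nat_lit 557109) (nat_lit 15) (.e (nat_lit 188455) (nat_lit 24) (.e (nat_lit 237312) (nat_lit 138) .nil)))) .nil)) 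
(.lf (nat_lit 80339) (.g (nat_lit 4089) (.e (nat_lit 1847) (nat_lit 124) (.e (nat_lit 557109) (nat_lit 15) (.e (nat_lit 188449) (nat_lit 22) (.e (nat_lit 196628) (nat_lit 9) .nil)))) .nil))) (.nd (nat_lit 6) 
(.lf (nat_lit 80307) (.g (nat_lit 2688) (.e (nat_lit 1847) (nat_lit 124) (.e (nat_lit 557098) (nat_lit 13) (.e (nat_lit 172115) (nat_lit 10) (.e (nat_lit 434238) (nat_lit 25) (.e (nat_lit 548898) (nat_lit 14) (.e (nat_lit 2988) (nat_lit 186) (.e (nat_lit 450304) (nat_lit 0) .nil))))))) (.g (nat_lit 6) .nil .nil))) 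
(.lf (nat_lit 80371) (.g (nat_lit 2202) (.e (nat_lit 1848) (nat_lit 124) (.e (nat_lit 557087) (nat_lit 11) (.e (nat_lit 24617) (nat_lit 7) (.e (nat_lit 319504) (nat_lit 10) (.e (nat_lit 7936) (nat_lit 45) .nil))))) .nil))))) (.nd (nat_lit 4) (.nd (nat_lit 5) (.nd (nat_lit 6) 
(.lf (nat_lit 80267) (.g (nat_lit 4862) (.e (nat_lit 1846) (nat_lit 124) (.e (nat_lit 557109) (nat_lit 15) (.e (nat_lit 188452) (nat_lit 23) (.e (nat_lit 204846) (nat_lit 24) (.e (nat_lit 319538) (nat_lit 19) .nil))))) .nil)) 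
(.lf (nat_lit 80331) (.g (nat_lit 4454) (.e (nat_lit 1847) (nat_lit 124) (.e (nat_lit 557108) (nat_lit 15) (.e (nat_lit 188452) (nat_lit 23) (.e (nat_lit 204819) (nat_lit 17) .nil)))) .nil))) (.nd (nat_lit 6) 
(.lf (nat_lit 80299) (.g (nat_lit 1149) (.e (nat_lit 1847) (nat_lit 124) (.e (nat_lit 557098) (nat_lit 13) (.e (nat_lit 172115) (nat_lit 10) (.e (nat_lit 434227) (nat_lit 20) .nil)))) .nil)) 
(.lf (nat_lit 80363) (.g (nat_lit 2345) (.e (nat_lit 1848) (nat_lit 124) (.e (nat_lit 557066) (nat_lit 9) (.e (nat_lit 324) (nat_lit 24) (.e (nat_lit 360466) (nat_lit 3) (.e (nat_lit 516179) (nat_lit 15) (.e (nat_lit 475209) (nat_lit 41) (.e (nat_lit 712706) (nat_lit 0) .nil))))))) (.g (nat_lit 5) .nil .nil))))) (.nd (nat_lit 5) (.nd (nat_lit 6) 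
(.lf (nat_lit 80283) (.g (nat_lit 2151) (.e (nat_lit 1846) (nat_lit 124) (.e (nat_lit 557109) (nat_lit 15) (.e (nat_lit 188461) (nat_lit 26) (.e (nat_lit 253986) (nat_lit 10) .nil)))) .nil)) 
(.lf (nat_lit 80347) (.g (nat_lit 3360) (.e (nat_lit 1847) (nat_lit 124) (.e (nat_lit 557109) (nat_lit 15) (.e (nat_lit 188452) (nat_lit 23) (.e (nat_lit 204819) (nat_lit 17) .nil)))) .nil))) (.nd (nat_lit 6) 
(.lf (nat_lit 80315) (.g (nat_lit 1198) (.e (nat_lit 1847) (nat_lit 124) (.e (nat_lit 557103) (nat_lit 14) (.e (nat_lit 180278) (nat_lit 32) (.e (nat_lit 1253) (nat_lit 92) .nil)))) .nil)) 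
(.lf (nat_lit 80379) (.g (nat_lit 3034) (.e (nat_lit 1848) (nat_lit 124) (.e (nat_lit 557087) (nat_lit 11) (.e (nat_lit 24617) (nat_lit 7) (.e (nat_lit 319505) (nat_lit 10) (.e (nat_lit 7936) (nat_lit 45) (.e (nat_lit 532548) (nat_lit 11) (.e (nat_lit 352295) (nat_lit 20) .nil))))))) (.g (nat_lit 4) .nil .nil))))))) (.nd (nat_lit 3) (.nd (nat_lit 4) (.nd (nat_lit 5) (.nd (nat_lit 6) 
(.lf (nat_lit 80263) (.g (nat_lit 3236) (.e (nat_lit 1846) (nat_lit 124) (.e (nat_lit 557109) (nat_lit 15) (.e (nat_lit 188452) (nat_lit 23) (.e (nat_lit 204821) (nat_lit 17) (.e (nat_lit 7936) (nat_lit 364) .nil))))) .nil)) 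
(.lf (nat_lit 80327) (.g (nat_lit 3435) (.e (nat_lit 1847) (nat_lit 124) (.e (nat_lit 557108) (nat_lit 15) (.e (nat_lit 188452) (nat_lit 23) (.e (nat_lit 204815) (nat_lit 17) .nil)))) .nil))) (.nd (nat_lit 6) 
(.lf (nat_lit 80295) (.g (nat_lit 1402) (.e (nat_lit 1847) (nat_lit 124) (.e (nat_lit 557094) (nat_lit 12) (.e (nat_lit 164030) (nat_lit 53) (.e (nat_lit 761906) (nat_lit 16) (.e (nat_lit 179968) (nat_lit 34) .nil))))) .nil)) 
(.lf (nat_lit 80359) (.g (nat_lit 2589) (.e (nat_lit 1848) (nat_lit 124) (.e (nat_lit 557066) (nat_lit 9) (.e (nat_lit 232) (nat_lit 21) (.e (nat_lit 336060) (nat_lit 7) (.e (nat_lit 319504) (nat_lit 10) (.e (nat_lit 7936) (nat_lit 45) (.e (nat_lit 532535) (nat_lit 9) (.e (nat_lit 336099) (nat_lit 9) (.e (nat_lit 335922) (nat_lit 0) .nil))))))))) (.g (nat_lit 4) .nil .nil))))) 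
(.nd (nat_lit 5) (.nd (nat_lit 6) 
(.lf (nat_lit 80279) (.g (nat_lit 2478) (.e (nat_lit 1846) (nat_lit 124) (.e (nat_lit 557109) (nat_lit 15) (.e (nat_lit 188458) (nat_lit 25) (.e (nat_lit 253696) (nat_lit 18) .nil)))) .nil)) 
(.lf (nat_lit 80343) (.g (nat_lit 727) (.e (nat_lit 1847) (nat_lit 124) (.e (nat_lit 557109) (nat_lit 15) (.e (nat_lit 188452) (nat_lit 23) .nil))) .nil))) (.nd (nat_lit 6) 
(.lf (nat_lit 80311) (.g (nat_lit 1802) (.e (nat_lit 1847) (nat_lit 124) (.e (nat_lit 557101) (nat_lit 13) (.e (nat_lit 172097) (nat_lit 9) (.e (nat_lit 426140) (nat_lit 3) (.e (nat_lit 204821) (nat_lit 17) .nil))))) .nil)) 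
(.lf (nat_lit 80375) (.g (nat_lit 1325) (.e (nat_lit 1848) (nat_lit 124) (.e (nat_lit 557087) (nat_lit 11) (.e (nat_lit 24617) (nat_lit 7) (.e (nat_lit 319505) (nat_lit 10) .nil)))) .nil))))) (.nd (nat_lit 4) (.nd (nat_lit 5) (.nd (nat_lit 6) 
(.lf (nat_lit 80271) (.g (nat_lit 4174) (.e (nat_lit 1846) (nat_lit 124) (.e (nat_lit 557109) (nat_lit 15) (.e (nat_lit 188452) (nat_lit 23) (.e (nat_lit 204852) (nat_lit 26) .nil)))) .nil)) 
(.lf (nat_lit 80335) (.g (nat_lit 4365) (.e (nat_lit 1847) (nat_lit 124) (.e (nat_lit 557108) (nat_lit 15) (.e (nat_lit 188452) (nat_lit 23) (.e (nat_lit 204884) (nat_lit 33) (.e (nat_lit 401437) (nat_lit 9) .nil))))) .nil))) (.nd (nat_lit 6) 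
(.lf (nat_lit 80303) (.g (nat_lit 1222) (.e (nat_lit 1847) (nat_lit 124) (.e (nat_lit 557098) (nat_lit 13) (.e (nat_lit 172115) (nat_lit 10) (.e (nat_lit 434238) (nat_lit 25) .nil)))) .nil)) 
(.lf (nat_lit 80367) (.g (nat_lit 1592) (.e (nat_lit 1848) (nat_lit 124) (.e (nat_lit 557087) (nat_lit 11) (.e (nat_lit 24617) (nat_lit 7) (.e (nat_lit 319504) (nat_lit 10) .nil)))) .nil)))) (.nd (nat_lit 5) (.nd (nat_lit 6) 
(.lf (nat_lit 80287) (.g (nat_lit 2726) (.e (nat_lit 1847) (nat_lit 124) (.e (nat_lit 557092) (nat_lit 12) (.e (nat_lit 164022) (nat_lit 46) (.e (nat_lit 704738) (nat_lit 11) (.e (nat_lit 16412) (nat_lit 2) .nil))))) .nil)) 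
(.lf (nat_lit 80351) (.g (nat_lit 4417) (.e (nat_lit 1847) (nat_lit 124) (.e (nat_lit 557109) (nat_lit 15) (.e (nat_lit 188452) (nat_lit 23) (.e (nat_lit 204880) (nat_lit 32) .nil)))) .nil))) (.nd (nat_lit 6) 
(.lf (nat_lit 80319) (.g (nat_lit 1522) (.e (nat_lit 1847) (nat_lit 124) (.e (nat_lit 557104) (nat_lit 14) (.e (nat_lit 180278) (nat_lit 32) (.e (nat_lit 1252) (nat_lit 92) (.e (nat_lit 98369) (nat_lit 28) .nil))))) .nil)) 
(.lf (nat_lit 80383) (.g (nat_lit 4132) (.e (nat_lit 1848) (nat_lit 124) (.e (nat_lit 557087) (nat_lit 11) (.e (nat_lit 24625) (nat_lit 9) (.e (nat_lit 336456) (nat_lit 34) .nil)))) .nil)))))))))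

noncomputable def tv1087 : DT := (.nd (nat_lit 0) (.nd (nat_lit 1) (.nd (nat_lit 2) (.nd (nat_lit 3) (.nd (nat_lit 4) (.nd (nat_lit 5) 
(.lf (nat_lit 80384) (.g (nat_lit 862) (.e (nat_lit 1848) (nat_lit 124) (.e (nat_lit 557087) (nat_lit 11) (.e (nat_lit 24628) (nat_lit 9) .nil))) .nil)) 
(.lf (nat_lit 80416) (.g (nat_lit 3675) (.e (nat_lit 1848) (nat_lit 124) (.e (nat_lit 557097) (nat_lit 13) (.e (nat_lit 172097) (nat_lit 9) (.e (nat_lit 426125) (nat_lit 2) (.e (nat_lit 196630) (nat_lit 9) (.e (nat_lit 1669) (nat_lit 116) (.e (nat_lit 401436) (nat_lit 9) (.e (nat_lit 426402) (nat_lit 15) .nil)))))))) (.g (nat_lit 6) .nil .nil)))) (.nd (nat_lit 5) 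
(.lf (nat_lit 80400) (.g (nat_lit 3050) (.e (nat_lit 1848) (nat_lit 124) (.e (nat_lit 557087) (nat_lit 11) (.e (nat_lit 24665) (nat_lit 14) (.e (nat_lit 401423) (nat_lit 2) (.e (nat_lit 196674) (nat_lit 15) .nil))))) .nil)) 
(.lf (nat_lit 80432) (.g (nat_lit 2974) (.e (nat_lit 1848) (nat_lit 124) (.e (nat_lit 557097) (nat_lit 13) (.e (nat_lit 172097) (nat_lit 9) (.e (nat_lit 426140) (nat_lit 3) (.e (nat_lit 204821) (nat_lit 17) (.e (nat_lit 6114) (nat_lit 332) (.e (nat_lit 1378) (nat_lit 104) (.e (nat_lit 311040) (nat_lit 15) .nil)))))))) (.g (nat_lit 6) .nil .nil))))) (.nd (nat_lit 4) (.nd (nat_lit 5) 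
(.lf (nat_lit 80392) (.g (nat_lit 590) (.e (nat_lit 1848) (nat_lit 124) (.e (nat_lit 557087) (nat_lit 11) (.e (nat_lit 24662) (nat_lit 14) .nil))) .nil)) 
(.lf (nat_lit 80424) (.g (nat_lit 1806) (.e (nat_lit 1848) (nat_lit 124) (.e (nat_lit 557097) (nat_lit 13) (.e (nat_lit 172097) (nat_lit 9) (.e (nat_lit 426125) (nat_lit 2) (.e (nat_lit 196661) (nat_lit 12) (.e (nat_lit 57722) (nat_lit 178) (.e (nat_lit 123166) (nat_lit 256) (.e (nat_lit 7936) (nat_lit 0) .nil)))))))) (.g (nat_lit 4) .nil .nil)))) (.nd (nat_lit 5) 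
(.lf (nat_lit 80408) (.g (nat_lit 2552) (.e (nat_lit 1848) (nat_lit 124) (.e (nat_lit 557090) (nat_lit 12) (.e (nat_lit 164031) (nat_lit 53) (.e (nat_lit 761905) (nat_lit 16) (.e (nat_lit 179968) (nat_lit 34) (.e (nat_lit 393273) (nat_lit 23) (.e (nat_lit 426402) (nat_lit 15) .nil))))))) (.g (nat_lit 4) .nil .nil))) 
(.lf (nat_lit 80440) (.g (nat_lit 2675) (.e (nat_lit 1848) (nat_lit 124) (.e (nat_lit 557097) (nat_lit 13) (.e (nat_lit 172097) (nat_lit 9) (.e (nat_lit 426140) (nat_lit 3) (.e (nat_lit 204821) (nat_lit 17) (.e (nat_lit 6674) (nat_lit 357) (.e (nat_lit 2941) (nat_lit 184) (.e (nat_lit 426401) (nat_lit 15) .nil)))))))) (.g (nat_lit 5) .nil .nil)))))) 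
(.nd (nat_lit 3) (.nd (nat_lit 4) (.nd (nat_lit 5) 
(.lf (nat_lit 80388) (.g (nat_lit 958) (.e (nat_lit 1848) (nat_lit 124) (.e (nat_lit 557087) (nat_lit 11) (.e (nat_lit 24644) (nat_lit 11) .nil))) .nil)) 
(.lf (nat_lit 80420) (.g (nat_lit 2711) (.e (nat_lit 1848) (nat_lit 124) (.e (nat_lit 557097) (nat_lit 13) (.e (nat_lit 172097) (nat_lit 9) (.e (nat_lit 426125) (nat_lit 2) (.e (nat_lit 196661) (nat_lit 12) (.e (nat_lit 57712) (nat_lit 176) (.e (nat_lit 1378) (nat_lit 104) (.e (nat_lit 311040) (nat_lit 15) .nil)))))))) (.g (nat_lit 5) .nil .nil)))) (.nd (nat_lit 5) 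
(.lf (nat_lit 80404) (.g (nat_lit 1481) (.e (nat_lit 1848) (nat_lit 124) (.e (nat_lit 557089) (nat_lit 12) (.e (nat_lit 164031) (nat_lit 53) (.e (nat_lit 761903) (nat_lit 16) (.e (nat_lit 179968) (nat_lit 34) (.e (nat_lit 393273) (nat_lit 23) (.e (nat_lit 426402) (nat_lit 15) .nil))))))) (.g (nat_lit 4) .nil .nil))) 
(.lf (nat_lit 80436) (.g (nat_lit 2803) (.e (nat_lit 1848) (nat_lit 124) (.e (nat_lit 557097) (nat_lit 13) (.e (nat_lit 172097) (nat_lit 9) (.e (nat_lit 426140) (nat_lit 3) (.e (nat_lit 204821) (nat_lit 17) (.e (nat_lit 6674) (nat_lit 357) (.e (nat_lit 2936) (nat_lit 184) (.e (nat_lit 426401) (nat_lit 15) .nil)))))))) (.g (nat_lit 5) .nil .nil))))) (.nd (nat_lit 4) (.nd (nat_lit 5) 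
(.lf (nat_lit 80396) (.g (nat_lit 755) (.e (nat_lit 1848) (nat_lit 124) (.e (nat_lit 557087) (nat_lit 11) (.e (nat_lit 24664) (nat_lit 14) .nil))) .nil)) 
(.lf (nat_lit 80428) (.g (nat_lit 1846) (.e (nat_lit 1848) (nat_lit 124) (.e (nat_lit 557097) (nat_lit 13) (.e (nat_lit 172097) (nat_lit 9) (.e (nat_lit 426125) (nat_lit 2) (.e (nat_lit 196666) (nat_lit 13) (.e (nat_lit 65574) (nat_lit 4) (.e (nat_lit 123195) (nat_lit 266) (.e (nat_lit 57354) (nat_lit 0) .nil)))))))) (.g (nat_lit 4) .nil .nil)))) (.nd (nat_lit 5) 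
(.lf (nat_lit 80412) (.g (nat_lit 1854) (.e (nat_lit 1848) (nat_lit 124) (.e (nat_lit 557096) (nat_lit 13) (.e (nat_lit 172126) (nat_lit 14) (.e (nat_lit 491540) (nat_lit 3) (.e (nat_lit 98369) (nat_lit 28) (.e (nat_lit 450304) (nat_lit 0) .nil)))))) (.g (nat_lit 5) .nil .nil))) 
(.lf (nat_lit 80444) (.g (nat_lit 3186) (.e (nat_lit 1848) (nat_lit 124) (.e (nat_lit 557097) (nat_lit 13) (.e (nat_lit 172097) (nat_lit 9) (.e (nat_lit 426140) (nat_lit 3) (.e (nat_lit 204821) (nat_lit 17) (.e (nat_lit 6680) (nat_lit 357) (.e (nat_lit 2854) (nat_lit 184) (.e (nat_lit 426402) (nat_lit 15) .nil)))))))) (.g (nat_lit 0) .nil .nil))))))) 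
(.nd (nat_lit 2) (.nd (nat_lit 3) (.nd (nat_lit 4) (.nd (nat_lit 5) 
(.lf (nat_lit 80386) (.g (nat_lit 2173) (.e (nat_lit 1848) (nat_lit 124) (.e (nat_lit 557087) (nat_lit 11) (.e (nat_lit 24640) (nat_lit 10) (.e (nat_lit 344126) (nat_lit 25) (.e (nat_lit 548891) (nat_lit 11) .nil))))) .nil)) 
(.lf (nat_lit 80418) (.g (nat_lit 1758) (.e (nat_lit 1848) (nat_lit 124) (.e (nat_lit 557097) (nat_lit 13) (.e (nat_lit 172097) (nat_lit 9) (.e (nat_lit 426125) (nat_lit 2) (.e (nat_lit 196661) (nat_lit 12) .nil))))) .nil))) (.nd (nat_lit 5) 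
(.lf (nat_lit 80402) (.g (nat_lit 3213) (.e (nat_lit 1848) (nat_lit 124) (.e (nat_lit 557087) (nat_lit 11) (.e (nat_lit 24665) (nat_lit 14) (.e (nat_lit 401424) (nat_lit 2) (.e (nat_lit 196674) (nat_lit 15) (.e (nat_lit 81946) (nat_lit 20) .nil)))))) (.g (nat_lit 4) .nil .nil))) 
(.lf (nat_lit 80434) (.g (nat_lit 2125) (.e (nat_lit 1848) (nat_lit 124) (.e (nat_lit 557097) (nat_lit 13) (.e (nat_lit 172097) (nat_lit 9) (.e (nat_lit 426140) (nat_lit 3) (.e (nat_lit 204821) (nat_lit 17) (.e (nat_lit 6671) (nat_lit 357) (.e (nat_lit 2940) (nat_lit 184) (.e (nat_lit 426401) (nat_lit 15) .nil)))))))) (.g (nat_lit 4) .nil .nil))))) (.nd (nat_lit 4) (.nd (nat_lit 5) 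
(.lf (nat_lit 80394) (.g (nat_lit 4695) (.e (nat_lit 1848) (nat_lit 124) (.e (nat_lit 557087) (nat_lit 11) (.e (nat_lit 24662) (nat_lit 14) (.e (nat_lit 401425) (nat_lit 2) .nil)))) .nil)) 
(.lf (nat_lit 80426) (.g (nat_lit 2337) (.e (nat_lit 1848) (nat_lit 124) (.e (nat_lit 557097) (nat_lit 13) (.e (nat_lit 172097) (nat_lit 9) (.e (nat_lit 426125) (nat_lit 2) (.e (nat_lit 196661) (nat_lit 12) (.e (nat_lit 65280) (nat_lit 208) (.e (nat_lit 245504) (nat_lit 15) .nil))))))) (.g (nat_lit 5) .nil .nil)))) (.nd (nat_lit 5) 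
(.lf (nat_lit 80410) (.g (nat_lit 685) (.e (nat_lit 1848) (nat_lit 124) (.e (nat_lit 557093) (nat_lit 12) (.e (nat_lit 164239) (nat_lit 187) (.e (nat_lit 1638) (nat_lit 114) .nil)))) .nil)) 
(.lf (nat_lit 80442) (.g (nat_lit 3731) (.e (nat_lit 1848) (nat_lit 124) (.e (nat_lit 557097) (nat_lit 13) (.e (nat_lit 172097) (nat_lit 9) (.e (nat_lit 426140) (nat_lit 3) (.e (nat_lit 204821) (nat_lit 17) (.e (nat_lit 6676) (nat_lit 357) (.e (nat_lit 2856) (nat_lit 184) (.e (nat_lit 426402) (nat_lit 15) .nil)))))))) (.g (nat_lit 8) .nil .nil)))))) 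
(.nd (nat_lit 3) (.nd (nat_lit 4) (.nd (nat_lit 5) 
(.lf (nat_lit 80390) (.g (nat_lit 3034) (.e (nat_lit 1848) (nat_lit 124) (.e (nat_lit 557087) (nat_lit 11) (.e (nat_lit 24647) (nat_lit 12) (.e (nat_lit 385074) (nat_lit 31) (.e (nat_lit 573491) (nat_lit 15) (.e (nat_lit 81946) (nat_lit 20) .nil)))))) (.g (nat_lit 4) .nil .nil))) 
(.lf (nat_lit 80422) (.g (nat_lit 3543) (.e (nat_lit 1848) (nat_lit 124) (.e (nat_lit 557097) (nat_lit 13) (.e (nat_lit 172097) (nat_lit 9) (.e (nat_lit 426125) (nat_lit 2) (.e (nat_lit 196661) (nat_lit 12) (.e (nat_lit 57714) (nat_lit 176) (.e (nat_lit 1386) (nat_lit 105) (.e (nat_lit 311348) (nat_lit 15) .nil)))))))) (.g (nat_lit 0) .nil .nil)))) (.nd (nat_lit 5) 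
(.lf (nat_lit 80406) (.g (nat_lit 2316) (.e (nat_lit 1848) (nat_lit 124) (.e (nat_lit 557090) (nat_lit 12) (.e (nat_lit 164030) (nat_lit 53) (.e (nat_lit 761906) (nat_lit 16) (.e (nat_lit 179968) (nat_lit 34) (.e (nat_lit 393273) (nat_lit 23) (.e (nat_lit 426402) (nat_lit 15) .nil))))))) (.g (nat_lit 4) .nil .nil))) 
(.lf (nat_lit 80438) (.g (nat_lit 2708) (.e (nat_lit 1848) (nat_lit 124) (.e (nat_lit 557097) (nat_lit 13) (.e (nat_lit 172097) (nat_lit 9) (.e (nat_lit 426140) (nat_lit 3) (.e (nat_lit 204821) (nat_lit 17) (.e (nat_lit 6674) (nat_lit 357) (.e (nat_lit 2940) (nat_lit 184) (.e (nat_lit 426401) (nat_lit 15) .nil)))))))) (.g (nat_lit 5) .nil .nil))))) (.nd (nat_lit 4) (.nd (nat_lit 5) 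
(.lf (nat_lit 80398) (.g (nat_lit 2944) (.e (nat_lit 1848) (nat_lit 124) (.e (nat_lit 557087) (nat_lit 11) (.e (nat_lit 24665) (nat_lit 14) (.e (nat_lit 401423) (nat_lit 2) (.e (nat_lit 196672) (nat_lit 15) .nil))))) .nil)) 
(.lf (nat_lit 80430) (.g (nat_lit 1900) (.e (nat_lit 1848) (nat_lit 124) (.e (nat_lit 557097) (nat_lit 13) (.e (nat_lit 172097) (nat_lit 9) (.e (nat_lit 426140) (nat_lit 3) (.e (nat_lit 204821) (nat_lit 17) (.e (nat_lit 6092) (nat_lit 332) (.e (nat_lit 1386) (nat_lit 105) (.e (nat_lit 311348) (nat_lit 15) .nil)))))))) (.g (nat_lit 4) .nil .nil)))) (.nd (nat_lit 5) 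
(.lf (nat_lit 80414) (.g (nat_lit 4925) (.e (nat_lit 1848) (nat_lit 124) (.e (nat_lit 557097) (nat_lit 13) (.e (nat_lit 172061) (nat_lit 1) (.e (nat_lit 164403) (nat_lit 256) (.e (nat_lit 57447) (nat_lit 19) (.e (nat_lit 393301) (nat_lit 27) (.e (nat_lit 491526) (nat_lit 0) .nil))))))) (.g (nat_lit 7) .nil .nil))) 
(.lf (nat_lit 80446) (.g (nat_lit 3760) (.e (nat_lit 1848) (nat_lit 124) (.e (nat_lit 557097) (nat_lit 13) (.e (nat_lit 172097) (nat_lit 9) (.e (nat_lit 426140) (nat_lit 3) (.e (nat_lit 204821) (nat_lit 17) (.e (nat_lit 6680) (nat_lit 357) (.e (nat_lit 2856) (nat_lit 184) (.e (nat_lit 426402) (nat_lit 15) .nil)))))))) (.g (nat_lit 0) .nil .nil)))))))) 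
(.nd (nat_lit 1) (.nd (nat_lit 2) (.nd (nat_lit 3) (.nd (nat_lit 4) (.nd (nat_lit 5) 
(.lf (nat_lit 80385) (.g (nat_lit 1413) (.e (nat_lit 1848) (nat_lit 124) (.e (nat_lit 557087) (nat_lit 11) (.e (nat_lit 24640) (nat_lit 10) (.e (nat_lit 344117) (nat_lit 21) .nil)))) .nil)) 
(.lf (nat_lit 80417) (.g (nat_lit 4535) (.e (nat_lit 1848) (nat_lit 124) (.e (nat_lit 557097) (nat_lit 13) (.e (nat_lit 172097) (nat_lit 9) (.e (nat_lit 426125) (nat_lit 2) (.e (nat_lit 196630) (nat_lit 9) (.e (nat_lit 1669) (nat_lit 116) (.e (nat_lit 401438) (nat_lit 9) (.e (nat_lit 426402) (nat_lit 15) .nil)))))))) (.g (nat_lit 0) .nil .nil)))) (.nd (nat_lit 5) 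
(.lf (nat_lit 80401) (.g (nat_lit 2882) (.e (nat_lit 1848) (nat_lit 124) (.e (nat_lit 557087) (nat_lit 11) (.e (nat_lit 24665) (nat_lit 14) (.e (nat_lit 401424) (nat_lit 2) (.e (nat_lit 196672) (nat_lit 15) (.e (nat_lit 81943) (nat_lit 20) .nil)))))) (.g (nat_lit 4) .nil .nil))) 
(.lf (nat_lit 80433) (.g (nat_lit 2223) (.e (nat_lit 1848) (nat_lit 124) (.e (nat_lit 557097) (nat_lit 13) (.e (nat_lit 172097) (nat_lit 9) (.e (nat_lit 426140) (nat_lit 3) (.e (nat_lit 204821) (nat_lit 17) (.e (nat_lit 6149) (nat_lit 332) (.e (nat_lit 1385) (nat_lit 105) (.e (nat_lit 311348) (nat_lit 15) .nil)))))))) (.g (nat_lit 4) .nil .nil))))) (.nd (nat_lit 4) (.nd (nat_lit 5) 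
(.lf (nat_lit 80393) (.g (nat_lit 3836) (.e (nat_lit 1848) (nat_lit 124) (.e (nat_lit 557087) (nat_lit 11) (.e (nat_lit 24662) (nat_lit 14) (.e (nat_lit 401423) (nat_lit 2) .nil)))) .nil)) 
(.lf (nat_lit 80425) (.g (nat_lit 2712) (.e (nat_lit 1848) (nat_lit 124) (.e (nat_lit 557097) (nat_lit 13) (.e (nat_lit 172097) (nat_lit 9) (.e (nat_lit 426125) (nat_lit 2) (.e (nat_lit 196661) (nat_lit 12) (.e (nat_lit 65280) (nat_lit 205) (.e (nat_lit 179968) (nat_lit 15) .nil))))))) (.g (nat_lit 5) .nil .nil)))) (.nd (nat_lit 5) 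
(.lf (nat_lit 80409) (.g (nat_lit 2146) (.e (nat_lit 1848) (nat_lit 124) (.e (nat_lit 557093) (nat_lit 12) (.e (nat_lit 164022) (nat_lit 46) (.e (nat_lit 704738) (nat_lit 11) (.e (nat_lit 16412) (nat_lit 2) (.e (nat_lit 196672) (nat_lit 15) (.e (nat_lit 81943) (nat_lit 20) .nil))))))) (.g (nat_lit 4) .nil .nil))) 
(.lf (nat_lit 80441) (.g (nat_lit 2804) (.e (nat_lit 1848) (nat_lit 124) (.e (nat_lit 557097) (nat_lit 13) (.e (nat_lit 172097) (nat_lit 9) (.e (nat_lit 426140) (nat_lit 3) (.e (nat_lit 204821) (nat_lit 17) (.e (nat_lit 6676) (nat_lit 357) (.e (nat_lit 2855) (nat_lit 184) (.e (nat_lit 426402) (nat_lit 15) .nil)))))))) (.g (nat_lit 6) .nil .nil)))))) 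
(.nd (nat_lit 3) (.nd (nat_lit 4) (.nd (nat_lit 5) 
(.lf (nat_lit 80389) (.g (nat_lit 2380) (.e (nat_lit 1848) (nat_lit 124) (.e (nat_lit 557087) (nat_lit 11) (.e (nat_lit 24647) (nat_lit 12) (.e (nat_lit 385074) (nat_lit 31) (.e (nat_lit 573491) (nat_lit 15) .nil))))) .nil)) 
(.lf (nat_lit 80421) (.g (nat_lit 2113) (.e (nat_lit 1848) (nat_lit 124) (.e (nat_lit 557097) (nat_lit 13) (.e (nat_lit 172097) (nat_lit 9) (.e (nat_lit 426125) (nat_lit 2) (.e (nat_lit 196661) (nat_lit 12) (.e (nat_lit 57713) (nat_lit 176) (.e (nat_lit 1386) (nat_lit 105) (.e (nat_lit 311348) (nat_lit 15) .nil)))))))) (.g (nat_lit 4) .nil .nil)))) (.nd (nat_lit 5) 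
(.lf (nat_lit 80405) (.g (nat_lit 2494) (.e (nat_lit 1848) (nat_lit 124) (.e (nat_lit 557090) (nat_lit 12) (.e (nat_lit 164030) (nat_lit 53) (.e (nat_lit 761903) (nat_lit 16) (.e (nat_lit 179968) (nat_lit 34) (.e (nat_lit 393273) (nat_lit 23) (.e (nat_lit 426402) (nat_lit 15) .nil))))))) (.g (nat_lit 4) .nil .nil))) 
(.lf (nat_lit 80437) (.g (nat_lit 2743) (.e (nat_lit 1848) (nat_lit 124) (.e (nat_lit 557097) (nat_lit 13) (.e (nat_lit 172097) (nat_lit 9) (.e (nat_lit 426140) (nat_lit 3) (.e (nat_lit 204821) (nat_lit 17) (.e (nat_lit 6674) (nat_lit 357) (.e (nat_lit 2939) (nat_lit 184) (.e (nat_lit 426401) (nat_lit 15) .nil)))))))) (.g (nat_lit 5) .nil .nil))))) (.nd (nat_lit 4) (.nd (nat_lit 5) 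
(.lf (nat_lit 80397) (.g (nat_lit 650) (.e (nat_lit 1848) (nat_lit 124) (.e (nat_lit 557087) (nat_lit 11) (.e (nat_lit 24665) (nat_lit 14) .nil))) .nil)) 
(.lf (nat_lit 80429) (.g (nat_lit 1804) (.e (nat_lit 1848) (nat_lit 124) (.e (nat_lit 557097) (nat_lit 13) (.e (nat_lit 172097) (nat_lit 9) (.e (nat_lit 426140) (nat_lit 3) (.e (nat_lit 204821) (nat_lit 17) .nil))))) .nil))) (.nd (nat_lit 5) 
(.lf (nat_lit 80413) (.g (nat_lit 2237) (.e (nat_lit 1848) (nat_lit 124) (.e (nat_lit 557096) (nat_lit 13) (.e (nat_lit 172126) (nat_lit 14) (.e (nat_lit 491540) (nat_lit 3) (.e (nat_lit 98370) (nat_lit 28) (.e (nat_lit 450304) (nat_lit 0) .nil)))))) (.g (nat_lit 5) .nil .nil))) 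
(.lf (nat_lit 80445) (.g (nat_lit 3292) (.e (nat_lit 1848) (nat_lit 124) (.e (nat_lit 557097) (nat_lit 13) (.e (nat_lit 172097) (nat_lit 9) (.e (nat_lit 426140) (nat_lit 3) (.e (nat_lit 204821) (nat_lit 17) (.e (nat_lit 6680) (nat_lit 357) (.e (nat_lit 2855) (nat_lit 184) (.e (nat_lit 426402) (nat_lit 15) .nil)))))))) (.g (nat_lit 0) .nil .nil))))))) 
(.nd (nat_lit 2) (.nd (nat_lit 3) (.nd (nat_lit 4) (.nd (nat_lit 5) 
(.lf (nat_lit 80387) (.g (nat_lit 1605) (.e (nat_lit 1848) (nat_lit 124) (.e (nat_lit 557087) (nat_lit 11) (.e (nat_lit 24640) (nat_lit 10) (.e (nat_lit 344133) (nat_lit 26) .nil)))) .nil)) 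
(.lf (nat_lit 80419) (.g (nat_lit 2024) (.e (nat_lit 1848) (nat_lit 124) (.e (nat_lit 557097) (nat_lit 13) (.e (nat_lit 172097) (nat_lit 9) (.e (nat_lit 426125) (nat_lit 2) (.e (nat_lit 196661) (nat_lit 12) (.e (nat_lit 57712) (nat_lit 176) (.e (nat_lit 1376) (nat_lit 104) (.e (nat_lit 311040) (nat_lit 15) .nil)))))))) (.g (nat_lit 4) .nil .nil)))) (.nd (nat_lit 5) 
(.lf (nat_lit 80403) (.g (nat_lit 3658) (.e (nat_lit 1848) (nat_lit 124) (.e (nat_lit 557087) (nat_lit 11) (.e (nat_lit 24665) (nat_lit 14) (.e (nat_lit 401424) (nat_lit 2) (.e (nat_lit 196674) (nat_lit 15) (.e (nat_lit 81947) (nat_lit 20) .nil)))))) (.g (nat_lit 5) .nil .nil))) 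
(.lf (nat_lit 80435) (.g (nat_lit 2079) (.e (nat_lit 1848) (nat_lit 124) (.e (nat_lit 557097) (nat_lit 13) (.e (nat_lit 172097) (nat_lit 9) (.e (nat_lit 426140) (nat_lit 3) (.e (nat_lit 204821) (nat_lit 17) (.e (nat_lit 6671) (nat_lit 357) (.e (nat_lit 2940) (nat_lit 184) (.e (nat_lit 433920) (nat_lit 15) .nil)))))))) (.g (nat_lit 4) .nil .nil))))) (.nd (nat_lit 4) (.nd (nat_lit 5) 
(.lf (nat_lit 80395) (.g (nat_lit 7049) (.e (nat_lit 1848) (nat_lit 124) (.e (nat_lit 557087) (nat_lit 11) (.e (nat_lit 24662) (nat_lit 14) (.e (nat_lit 401425) (nat_lit 2) (.e (nat_lit 196674) (nat_lit 15) .nil))))) .nil)) 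
(.lf (nat_lit 80427) (.g (nat_lit 2081) (.e (nat_lit 1848) (nat_lit 124) (.e (nat_lit 557097) (nat_lit 13) (.e (nat_lit 172097) (nat_lit 9) (.e (nat_lit 426125) (nat_lit 2) (.e (nat_lit 196666) (nat_lit 13) (.e (nat_lit 65572) (nat_lit 4) (.e (nat_lit 123195) (nat_lit 266) (.e (nat_lit 57354) (nat_lit 0) .nil)))))))) (.g (nat_lit 4) .nil .nil)))) (.nd (nat_lit 5) 
(.lf (nat_lit 80411) (.g (nat_lit 2244) (.e (nat_lit 1848) (nat_lit 124) (.e (nat_lit 557096) (nat_lit 13) (.e (nat_lit 172126) (nat_lit 14) (.e (nat_lit 491537) (nat_lit 2) (.e (nat_lit 90170) (nat_lit 13) (.e (nat_lit 172095) (nat_lit 9) (.e (nat_lit 433920) (nat_lit 15) .nil))))))) (.g (nat_lit 6) .nil .nil))) 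
(.lf (nat_lit 80443) (.g (nat_lit 3564) (.e (nat_lit 1848) (nat_lit 124) (.e (nat_lit 557097) (nat_lit 13) (.e (nat_lit 172097) (nat_lit 9) (.e (nat_lit 426140) (nat_lit 3) (.e (nat_lit 204821) (nat_lit 17) (.e (nat_lit 6676) (nat_lit 357) (.e (nat_lit 2857) (nat_lit 184) (.e (nat_lit 426402) (nat_lit 15) .nil)))))))) (.g (nat_lit 8) .nil .nil)))))) 
(.nd (nat_lit 3) (.nd (nat_lit 4) (.nd (nat_lit 5) 
(.lf (nat_lit 80391) (.g (nat_lit 3498) (.e (nat_lit 1848) (nat_lit 124) (.e (nat_lit 557087) (nat_lit 11) (.e (nat_lit 24651) (nat_lit 12) (.e (nat_lit 385074) (nat_lit 31) (.e (nat_lit 573491) (nat_lit 15) .nil))))) .nil)) 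
(.lf (nat_lit 80423) (.g (nat_lit 2906) (.e (nat_lit 1848) (nat_lit 124) (.e (nat_lit 557097) (nat_lit 13) (.e (nat_lit 172097) (nat_lit 9) (.e (nat_lit 426125) (nat_lit 2) (.e (nat_lit 196661) (nat_lit 12) (.e (nat_lit 57718) (nat_lit 176) (.e (nat_lit 1386) (nat_lit 105) (.e (nat_lit 311348) (nat_lit 15) .nil)))))))) (.g (nat_lit 5) .nil .nil)))) (.nd (nat_lit 5) 
(.lf (nat_lit 80407) (.g (nat_lit 857) (.e (nat_lit 1848) (nat_lit 124) (.e (nat_lit 557090) (nat_lit 12) (.e (nat_lit 164031) (nat_lit 53) .nil))) .nil)) 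
(.lf (nat_lit 80439) (.g (nat_lit 2784) (.e (nat_lit 1848) (nat_lit 124) (.e (nat_lit 557097) (nat_lit 13) (.e (nat_lit 172097) (nat_lit 9) (.e (nat_lit 426140) (nat_lit 3) (.e (nat_lit 204821) (nat_lit 17) (.e (nat_lit 6674) (nat_lit 357) (.e (nat_lit 2940) (nat_lit 184) (.e (nat_lit 433920) (nat_lit 15) .nil)))))))) (.g (nat_lit 7) .nil .nil))))) (.nd (nat_lit 4) (.nd (nat_lit 5) 
(.lf (nat_lit 80399) (.g (nat_lit 4181) (.e (nat_lit 1848) (nat_lit 124) (.e (nat_lit 557087) (nat_lit 11) (.e (nat_lit 24665) (nat_lit 14) (.e (nat_lit 401423) (nat_lit 2) (.e (nat_lit 196672) (nat_lit 15) (.e (nat_lit 81943) (nat_lit 20) .nil)))))) (.g (nat_lit 6) .nil .nil))) 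
(.lf (nat_lit 80431) (.g (nat_lit 2301) (.e (nat_lit 1848) (nat_lit 124) (.e (nat_lit 557097) (nat_lit 13) (.e (nat_lit 172097) (nat_lit 9) (.e (nat_lit 426140) (nat_lit 3) (.e (nat_lit 204821) (nat_lit 17) (.e (nat_lit 6114) (nat_lit 332) (.e (nat_lit 1376) (nat_lit 104) (.e (nat_lit 311040) (nat_lit 15) .nil)))))))) (.g (nat_lit 5) .nil .nil)))) (.nd (nat_lit 5) 
(.lf (nat_lit 80415) (.g (nat_lit 3134) (.e (nat_lit 1848) (nat_lit 124) (.e (nat_lit 557097) (nat_lit 13) (.e (nat_lit 172097) (nat_lit 9) (.e (nat_lit 426125) (nat_lit 2) (.e (nat_lit 196630) (nat_lit 9) (.e (nat_lit 1667) (nat_lit 116) (.e (nat_lit 401437) (nat_lit 9) (.e (nat_lit 426402) (nat_lit 15) .nil)))))))) (.g (nat_lit 5) .nil .nil))) 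
(.lf (nat_lit 80447) (.g (nat_lit 3539) (.e (nat_lit 1848) (nat_lit 124) (.e (nat_lit 557097) (nat_lit 13) (.e (nat_lit 172097) (nat_lit 9) (.e (nat_lit 426140) (nat_lit 3) (.e (nat_lit 204821) (nat_lit 17) (.e (nat_lit 6680) (nat_lit 357) (.e (nat_lit 2857) (nat_lit 184) (.e (nat_lit 426402) (nat_lit 15) .nil)))))))) (.g (nat_lit 0) .nil .nil)))))))))

noncomputable def tv1088 : DT := (.nd (nat_lit 0) (.nd (nat_lit 1) (.nd (nat_lit 2) (.nd (nat_lit 3) (.nd (nat_lit 4) (.nd (nat_lit 5) 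
(.lf (nat_lit 80448) (.g (nat_lit 2496) (.e (nat_lit 1848) (nat_lit 124) (.e (nat_lit 557097) (nat_lit 13) (.e (nat_lit 172097) (nat_lit 9) (.e (nat_lit 426140) (nat_lit 3) (.e (nat_lit 204821) (nat_lit 17) (.e (nat_lit 7936) (nat_lit 361) (.e (nat_lit 179968) (nat_lit 15) .nil))))))) (.g (nat_lit 5) .nil .nil))) 
(.lf (nat_lit 80480) (.g (nat_lit 2646) (.e (nat_lit 1848) (nat_lit 124) (.e (nat_lit 557097) (nat_lit 13) (.e (nat_lit 172115) (nat_lit 10) (.e (nat_lit 434231) (nat_lit 23) (.e (nat_lit 532490) (nat_lit 0) (.e (nat_lit 7936) (nat_lit 364) (.e (nat_lit 245504) (nat_lit 15) .nil))))))) (.g (nat_lit 5) .nil .nil)))) (.nd (nat_lit 5) 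
(.lf (nat_lit 80464) (.g (nat_lit 2244) (.e (nat_lit 1848) (nat_lit 124) (.e (nat_lit 557097) (nat_lit 13) (.e (nat_lit 172115) (nat_lit 10) (.e (nat_lit 434227) (nat_lit 20) (.e (nat_lit 507930) (nat_lit 10) (.e (nat_lit 5770) (nat_lit 316) (.e (nat_lit 179968) (nat_lit 15) .nil))))))) (.g (nat_lit 5) .nil .nil))) 
(.lf (nat_lit 80496) (.g (nat_lit 4209) (.e (nat_lit 1848) (nat_lit 124) (.e (nat_lit 557097) (nat_lit 13) (.e (nat_lit 172115) (nat_lit 10) (.e (nat_lit 434231) (nat_lit 23) (.e (nat_lit 532568) (nat_lit 16) (.e (nat_lit 401437) (nat_lit 9) (.e (nat_lit 426402) (nat_lit 15) .nil))))))) (.g (nat_lit 7) .nil .nil))))) (.nd (nat_lit 4) (.nd (nat_lit 5) 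
(.lf (nat_lit 80456) (.g (nat_lit 534) (.e (nat_lit 1848) (nat_lit 124) (.e (nat_lit 557097) (nat_lit 13) (.e (nat_lit 172115) (nat_lit 10) .nil))) .nil)) 
(.lf (nat_lit 80488) (.g (nat_lit 3725) (.e (nat_lit 1848) (nat_lit 124) (.e (nat_lit 557097) (nat_lit 13) (.e (nat_lit 172115) (nat_lit 10) (.e (nat_lit 434231) (nat_lit 23) (.e (nat_lit 532564) (nat_lit 15) (.e (nat_lit 385103) (nat_lit 50) (.e (nat_lit 786447) (nat_lit 15) .nil))))))) (.g (nat_lit 6) .nil .nil)))) (.nd (nat_lit 5) 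
(.lf (nat_lit 80472) (.g (nat_lit 3092) (.e (nat_lit 1848) (nat_lit 124) (.e (nat_lit 557097) (nat_lit 13) (.e (nat_lit 172115) (nat_lit 10) (.e (nat_lit 434231) (nat_lit 23) (.e (nat_lit 532482) (nat_lit 0) (.e (nat_lit 6718) (nat_lit 361) (.e (nat_lit 179968) (nat_lit 15) .nil))))))) (.g (nat_lit 6) .nil .nil))) 
(.lf (nat_lit 80504) (.g (nat_lit 2719) (.e (nat_lit 1848) (nat_lit 124) (.e (nat_lit 557097) (nat_lit 13) (.e (nat_lit 172115) (nat_lit 10) (.e (nat_lit 434231) (nat_lit 23) (.e (nat_lit 532569) (nat_lit 16) (.e (nat_lit 401444) (nat_lit 9) (.e (nat_lit 433920) (nat_lit 15) .nil))))))) (.g (nat_lit 5) .nil .nil)))))) (.nd (nat_lit 3) (.nd (nat_lit 4) (.nd (nat_lit 5) 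
(.lf (nat_lit 80452) (.g (nat_lit 3064) (.e (nat_lit 1848) (nat_lit 124) (.e (nat_lit 557097) (nat_lit 13) (.e (nat_lit 172097) (nat_lit 9) (.e (nat_lit 426140) (nat_lit 3) (.e (nat_lit 204882) (nat_lit 32) (.e (nat_lit 385104) (nat_lit 50) (.e (nat_lit 786447) (nat_lit 15) .nil))))))) (.g (nat_lit 5) .nil .nil))) 
(.lf (nat_lit 80484) (.g (nat_lit 3635) (.e (nat_lit 1848) (nat_lit 124) (.e (nat_lit 557097) (nat_lit 13) (.e (nat_lit 172115) (nat_lit 10) (.e (nat_lit 434231) (nat_lit 23) (.e (nat_lit 532528) (nat_lit 9) (.e (nat_lit 336260) (nat_lit 15) (.e (nat_lit 3733) (nat_lit 228) (.e (nat_lit 786447) (nat_lit 15) .nil)))))))) (.g (nat_lit 5) .nil .nil)))) (.nd (nat_lit 5) 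
(.lf (nat_lit 80468) (.g (nat_lit 1399) (.e (nat_lit 1848) (nat_lit 124) (.e (nat_lit 557097) (nat_lit 13) (.e (nat_lit 172115) (nat_lit 10) (.e (nat_lit 434231) (nat_lit 23) .nil)))) .nil)) 
(.lf (nat_lit 80500) (.g (nat_lit 4083) (.e (nat_lit 1848) (nat_lit 124) (.e (nat_lit 557097) (nat_lit 13) (.e (nat_lit 172115) (nat_lit 10) (.e (nat_lit 434231) (nat_lit 23) (.e (nat_lit 532569) (nat_lit 16) (.e (nat_lit 401436) (nat_lit 9) (.e (nat_lit 426402) (nat_lit 15) .nil))))))) (.g (nat_lit 7) .nil .nil))))) (.nd (nat_lit 4) (.nd (nat_lit 5) 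
(.lf (nat_lit 80460) (.g (nat_lit 2070) (.e (nat_lit 1848) (nat_lit 124) (.e (nat_lit 557097) (nat_lit 13) (.e (nat_lit 172115) (nat_lit 10) (.e (nat_lit 434227) (nat_lit 20) (.e (nat_lit 507929) (nat_lit 10) (.e (nat_lit 5770) (nat_lit 316) (.e (nat_lit 179968) (nat_lit 15) .nil))))))) (.g (nat_lit 5) .nil .nil))) 
(.lf (nat_lit 80492) (.g (nat_lit 3430) (.e (nat_lit 1848) (nat_lit 124) (.e (nat_lit 557097) (nat_lit 13) (.e (nat_lit 172115) (nat_lit 10) (.e (nat_lit 434231) (nat_lit 23) (.e (nat_lit 532567) (nat_lit 16) (.e (nat_lit 401436) (nat_lit 9) (.e (nat_lit 426402) (nat_lit 15) .nil))))))) (.g (nat_lit 0) .nil .nil)))) (.nd (nat_lit 5) 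
(.lf (nat_lit 80476) (.g (nat_lit 3601) (.e (nat_lit 1848) (nat_lit 124) (.e (nat_lit 557097) (nat_lit 13) (.e (nat_lit 172115) (nat_lit 10) (.e (nat_lit 434231) (nat_lit 23) (.e (nat_lit 532490) (nat_lit 0) (.e (nat_lit 6114) (nat_lit 332) (.e (nat_lit 1376) (nat_lit 104) (.e (nat_lit 311040) (nat_lit 15) .nil)))))))) (.g (nat_lit 5) .nil .nil))) 
(.lf (nat_lit 80508) (.g (nat_lit 2250) (.e (nat_lit 1848) (nat_lit 124) (.e (nat_lit 557097) (nat_lit 13) (.e (nat_lit 172115) (nat_lit 10) (.e (nat_lit 434238) (nat_lit 25) (.e (nat_lit 548896) (nat_lit 14) (.e (nat_lit 3005) (nat_lit 186) (.e (nat_lit 450304) (nat_lit 0) .nil))))))) (.g (nat_lit 4) .nil .nil))))))) (.nd (nat_lit 2) (.nd (nat_lit 3) (.nd (nat_lit 4) (.nd (nat_lit 5) 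
(.lf (nat_lit 80450) (.g (nat_lit 2351) (.e (nat_lit 1848) (nat_lit 124) (.e (nat_lit 557097) (nat_lit 13) (.e (nat_lit 172097) (nat_lit 9) (.e (nat_lit 426140) (nat_lit 3) (.e (nat_lit 204845) (nat_lit 24) (.e (nat_lit 319539) (nat_lit 19) (.e (nat_lit 311348) (nat_lit 15) .nil))))))) (.g (nat_lit 4) .nil .nil))) 
(.lf (nat_lit 80482) (.g (nat_lit 4547) (.e (nat_lit 1848) (nat_lit 124) (.e (nat_lit 557097) (nat_lit 13) (.e (nat_lit 172115) (nat_lit 10) (.e (nat_lit 434231) (nat_lit 23) (.e (nat_lit 532523) (nat_lit 7) (.e (nat_lit 319538) (nat_lit 19) (.e (nat_lit 311348) (nat_lit 15) .nil))))))) (.g (nat_lit 5) .nil .nil)))) (.nd (nat_lit 5) 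
(.lf (nat_lit 80466) (.g (nat_lit 1947) (.e (nat_lit 1848) (nat_lit 124) (.e (nat_lit 557097) (nat_lit 13) (.e (nat_lit 172115) (nat_lit 10) (.e (nat_lit 434227) (nat_lit 20) (.e (nat_lit 507930) (nat_lit 10) (.e (nat_lit 5773) (nat_lit 316) (.e (nat_lit 179968) (nat_lit 15) .nil))))))) (.g (nat_lit 5) .nil .nil))) 
(.lf (nat_lit 80498) (.g (nat_lit 2180) (.e (nat_lit 1848) (nat_lit 124) (.e (nat_lit 557097) (nat_lit 13) (.e (nat_lit 172115) (nat_lit 10) (.e (nat_lit 434231) (nat_lit 23) (.e (nat_lit 532569) (nat_lit 16) (.e (nat_lit 401434) (nat_lit 9) (.e (nat_lit 426402) (nat_lit 15) .nil))))))) (.g (nat_lit 4) .nil .nil))))) (.nd (nat_lit 4) (.nd (nat_lit 5) 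
(.lf (nat_lit 80458) (.g (nat_lit 2202) (.e (nat_lit 1848) (nat_lit 124) (.e (nat_lit 557097) (nat_lit 13) (.e (nat_lit 172115) (nat_lit 10) (.e (nat_lit 434227) (nat_lit 20) (.e (nat_lit 507928) (nat_lit 10) (.e (nat_lit 5772) (nat_lit 316) (.e (nat_lit 179968) (nat_lit 15) .nil))))))) (.g (nat_lit 6) .nil .nil))) 
(.lf (nat_lit 80490) (.g (nat_lit 3086) (.e (nat_lit 1848) (nat_lit 124) (.e (nat_lit 557097) (nat_lit 13) (.e (nat_lit 172115) (nat_lit 10) (.e (nat_lit 434231) (nat_lit 23) (.e (nat_lit 532564) (nat_lit 15) (.e (nat_lit 385105) (nat_lit 50) (.e (nat_lit 786447) (nat_lit 15) .nil))))))) (.g (nat_lit 5) .nil .nil)))) (.nd (nat_lit 5) 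
(.lf (nat_lit 80474) (.g (nat_lit 2159) (.e (nat_lit 1848) (nat_lit 124) (.e (nat_lit 557097) (nat_lit 13) (.e (nat_lit 172115) (nat_lit 10) (.e (nat_lit 434231) (nat_lit 23) (.e (nat_lit 532490) (nat_lit 0) .nil))))) .nil)) 
(.lf (nat_lit 80506) (.g (nat_lit 1344) (.e (nat_lit 1848) (nat_lit 124) (.e (nat_lit 557097) (nat_lit 13) (.e (nat_lit 172115) (nat_lit 10) (.e (nat_lit 434238) (nat_lit 25) .nil)))) .nil))))) (.nd (nat_lit 3) (.nd (nat_lit 4) (.nd (nat_lit 5) 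
(.lf (nat_lit 80454) (.g (nat_lit 3433) (.e (nat_lit 1848) (nat_lit 124) (.e (nat_lit 557097) (nat_lit 13) (.e (nat_lit 172097) (nat_lit 9) (.e (nat_lit 426140) (nat_lit 3) (.e (nat_lit 204883) (nat_lit 33) (.e (nat_lit 401437) (nat_lit 9) (.e (nat_lit 426402) (nat_lit 15) .nil))))))) (.g (nat_lit 0) .nil .nil))) 
(.lf (nat_lit 80486) (.g (nat_lit 2666) (.e (nat_lit 1848) (nat_lit 124) (.e (nat_lit 557097) (nat_lit 13) (.e (nat_lit 172115) (nat_lit 10) (.e (nat_lit 434231) (nat_lit 23) (.e (nat_lit 532531) (nat_lit 9) (.e (nat_lit 336260) (nat_lit 15) (.e (nat_lit 3733) (nat_lit 228) (.e (nat_lit 786447) (nat_lit 15) .nil)))))))) (.g (nat_lit 4) .nil .nil)))) (.nd (nat_lit 5) 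
(.lf (nat_lit 80470) (.g (nat_lit 3392) (.e (nat_lit 1848) (nat_lit 124) (.e (nat_lit 557097) (nat_lit 13) (.e (nat_lit 172115) (nat_lit 10) (.e (nat_lit 434231) (nat_lit 23) (.e (nat_lit 532481) (nat_lit 0) (.e (nat_lit 6718) (nat_lit 361) (.e (nat_lit 179968) (nat_lit 15) .nil))))))) (.g (nat_lit 6) .nil .nil))) 
(.lf (nat_lit 80502) (.g (nat_lit 3374) (.e (nat_lit 1848) (nat_lit 124) (.e (nat_lit 557097) (nat_lit 13) (.e (nat_lit 172115) (nat_lit 10) (.e (nat_lit 434231) (nat_lit 23) (.e (nat_lit 532569) (nat_lit 16) (.e (nat_lit 401440) (nat_lit 9) (.e (nat_lit 433920) (nat_lit 15) .nil))))))) (.g (nat_lit 6) .nil .nil))))) (.nd (nat_lit 4) (.nd (nat_lit 5) 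
(.lf (nat_lit 80462) (.g (nat_lit 1869) (.e (nat_lit 1848) (nat_lit 124) (.e (nat_lit 557097) (nat_lit 13) (.e (nat_lit 172115) (nat_lit 10) (.e (nat_lit 434227) (nat_lit 20) (.e (nat_lit 507929) (nat_lit 10) (.e (nat_lit 5773) (nat_lit 316) (.e (nat_lit 179968) (nat_lit 15) .nil))))))) (.g (nat_lit 4) .nil .nil))) 
(.lf (nat_lit 80494) (.g (nat_lit 3767) (.e (nat_lit 1848) (nat_lit 124) (.e (nat_lit 557097) (nat_lit 13) (.e (nat_lit 172115) (nat_lit 10) (.e (nat_lit 434231) (nat_lit 23) (.e (nat_lit 532567) (nat_lit 16) (.e (nat_lit 401438) (nat_lit 9) (.e (nat_lit 426402) (nat_lit 15) .nil))))))) (.g (nat_lit 0) .nil .nil)))) (.nd (nat_lit 5) 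
(.lf (nat_lit 80478) (.g (nat_lit 2283) (.e (nat_lit 1848) (nat_lit 124) (.e (nat_lit 557097) (nat_lit 13) (.e (nat_lit 172115) (nat_lit 10) (.e (nat_lit 434231) (nat_lit 23) (.e (nat_lit 532490) (nat_lit 0) (.e (nat_lit 6223) (nat_lit 334) (.e (nat_lit 123166) (nat_lit 256) (.e (nat_lit 7936) (nat_lit 0) .nil)))))))) (.g (nat_lit 4) .nil .nil))) 
(.lf (nat_lit 80510) (.g (nat_lit 2553) (.e (nat_lit 1848) (nat_lit 124) (.e (nat_lit 557097) (nat_lit 13) (.e (nat_lit 172115) (nat_lit 10) (.e (nat_lit 434238) (nat_lit 25) (.e (nat_lit 548897) (nat_lit 14) (.e (nat_lit 3005) (nat_lit 186) (.e (nat_lit 450304) (nat_lit 0) .nil))))))) (.g (nat_lit 5) .nil .nil)))))))) 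
(.nd (nat_lit 1) (.nd (nat_lit 2) (.nd (nat_lit 3) (.nd (nat_lit 4) (.nd (nat_lit 5) 
(.lf (nat_lit 80449) (.g (nat_lit 2121) (.e (nat_lit 1848) (nat_lit 124) (.e (nat_lit 557097) (nat_lit 13) (.e (nat_lit 172097) (nat_lit 9) (.e (nat_lit 426140) (nat_lit 3) (.e (nat_lit 204821) (nat_lit 17) (.e (nat_lit 7936) (nat_lit 364) (.e (nat_lit 245504) (nat_lit 15) .nil))))))) (.g (nat_lit 4) .nil .nil))) 
(.lf (nat_lit 80481) (.g (nat_lit 3381) (.e (nat_lit 1848) (nat_lit 124) (.e (nat_lit 557097) (nat_lit 13) (.e (nat_lit 172115) (nat_lit 10) (.e (nat_lit 434231) (nat_lit 23) (.e (nat_lit 532522) (nat_lit 7) (.e (nat_lit 319539) (nat_lit 19) (.e (nat_lit 311348) (nat_lit 15) .nil))))))) (.g (nat_lit 5) .nil .nil)))) (.nd (nat_lit 5) 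
(.lf (nat_lit 80465) (.g (nat_lit 2248) (.e (nat_lit 1848) (nat_lit 124) (.e (nat_lit 557097) (nat_lit 13) (.e (nat_lit 172115) (nat_lit 10) (.e (nat_lit 434227) (nat_lit 20) (.e (nat_lit 507930) (nat_lit 10) (.e (nat_lit 5772) (nat_lit 316) (.e (nat_lit 179968) (nat_lit 15) .nil))))))) (.g (nat_lit 6) .nil .nil))) 
(.lf (nat_lit 80497) (.g (nat_lit 3932) (.e (nat_lit 1848) (nat_lit 124) (.e (nat_lit 557097) (nat_lit 13) (.e (nat_lit 172115) (nat_lit 10) (.e (nat_lit 434231) (nat_lit 23) (.e (nat_lit 532568) (nat_lit 16) (.e (nat_lit 401438) (nat_lit 9) (.e (nat_lit 426402) (nat_lit 15) .nil))))))) (.g (nat_lit 0) .nil .nil))))) (.nd (nat_lit 4) (.nd (nat_lit 5) 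
(.lf (nat_lit 80457) (.g (nat_lit 1324) (.e (nat_lit 1848) (nat_lit 124) (.e (nat_lit 557097) (nat_lit 13) (.e (nat_lit 172115) (nat_lit 10) (.e (nat_lit 434227) (nat_lit 20) .nil)))) .nil)) 
(.lf (nat_lit 80489) (.g (nat_lit 4077) (.e (nat_lit 1848) (nat_lit 124) (.e (nat_lit 557097) (nat_lit 13) (.e (nat_lit 172115) (nat_lit 10) (.e (nat_lit 434231) (nat_lit 23) (.e (nat_lit 532564) (nat_lit 15) (.e (nat_lit 385104) (nat_lit 50) (.e (nat_lit 786447) (nat_lit 15) .nil))))))) (.g (nat_lit 7) .nil .nil)))) (.nd (nat_lit 5) 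
(.lf (nat_lit 80473) (.g (nat_lit 3144) (.e (nat_lit 1848) (nat_lit 124) (.e (nat_lit 557097) (nat_lit 13) (.e (nat_lit 172115) (nat_lit 10) (.e (nat_lit 434231) (nat_lit 23) (.e (nat_lit 532482) (nat_lit 0) (.e (nat_lit 6720) (nat_lit 361) (.e (nat_lit 179968) (nat_lit 15) .nil))))))) (.g (nat_lit 6) .nil .nil))) 
(.lf (nat_lit 80505) (.g (nat_lit 2203) (.e (nat_lit 1848) (nat_lit 124) (.e (nat_lit 557097) (nat_lit 13) (.e (nat_lit 172115) (nat_lit 10) (.e (nat_lit 434231) (nat_lit 23) (.e (nat_lit 532569) (nat_lit 16) (.e (nat_lit 409344) (nat_lit 9) (.e (nat_lit 426402) (nat_lit 15) .nil))))))) (.g (nat_lit 4) .nil .nil)))))) (.nd (nat_lit 3) (.nd (nat_lit 4) (.nd (nat_lit 5) 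
(.lf (nat_lit 80453) (.g (nat_lit 2984) (.e (nat_lit 1848) (nat_lit 124) (.e (nat_lit 557097) (nat_lit 13) (.e (nat_lit 172097) (nat_lit 9) (.e (nat_lit 426140) (nat_lit 3) (.e (nat_lit 204883) (nat_lit 33) (.e (nat_lit 401436) (nat_lit 9) (.e (nat_lit 426402) (nat_lit 15) .nil))))))) (.g (nat_lit 0) .nil .nil))) 
(.lf (nat_lit 80485) (.g (nat_lit 4731) (.e (nat_lit 1848) (nat_lit 124) (.e (nat_lit 557097) (nat_lit 13) (.e (nat_lit 172115) (nat_lit 10) (.e (nat_lit 434231) (nat_lit 23) (.e (nat_lit 532529) (nat_lit 9) (.e (nat_lit 336260) (nat_lit 15) (.e (nat_lit 3733) (nat_lit 228) (.e (nat_lit 786447) (nat_lit 15) .nil)))))))) (.g (nat_lit 5) .nil .nil)))) (.nd (nat_lit 5) 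
(.lf (nat_lit 80469) (.g (nat_lit 2006) (.e (nat_lit 1848) (nat_lit 124) (.e (nat_lit 557097) (nat_lit 13) (.e (nat_lit 172115) (nat_lit 10) (.e (nat_lit 434231) (nat_lit 23) (.e (nat_lit 532481) (nat_lit 0) .nil))))) .nil)) 
(.lf (nat_lit 80501) (.g (nat_lit 4595) (.e (nat_lit 1848) (nat_lit 124) (.e (nat_lit 557097) (nat_lit 13) (.e (nat_lit 172115) (nat_lit 10) (.e (nat_lit 434231) (nat_lit 23) (.e (nat_lit 532569) (nat_lit 16) (.e (nat_lit 401437) (nat_lit 9) (.e (nat_lit 426402) (nat_lit 15) .nil))))))) (.g (nat_lit 7) .nil .nil))))) (.nd (nat_lit 4) (.nd (nat_lit 5) 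
(.lf (nat_lit 80461) (.g (nat_lit 2212) (.e (nat_lit 1848) (nat_lit 124) (.e (nat_lit 557097) (nat_lit 13) (.e (nat_lit 172115) (nat_lit 10) (.e (nat_lit 434227) (nat_lit 20) (.e (nat_lit 507929) (nat_lit 10) (.e (nat_lit 5772) (nat_lit 316) (.e (nat_lit 179968) (nat_lit 15) .nil))))))) (.g (nat_lit 6) .nil .nil))) 
(.lf (nat_lit 80493) (.g (nat_lit 3994) (.e (nat_lit 1848) (nat_lit 124) (.e (nat_lit 557097) (nat_lit 13) (.e (nat_lit 172115) (nat_lit 10) (.e (nat_lit 434231) (nat_lit 23) (.e (nat_lit 532567) (nat_lit 16) (.e (nat_lit 401437) (nat_lit 9) (.e (nat_lit 426402) (nat_lit 15) .nil))))))) (.g (nat_lit 0) .nil .nil)))) (.nd (nat_lit 5) 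
(.lf (nat_lit 80477) (.g (nat_lit 4237) (.e (nat_lit 1848) (nat_lit 124) (.e (nat_lit 557097) (nat_lit 13) (.e (nat_lit 172115) (nat_lit 10) (.e (nat_lit 434231) (nat_lit 23) (.e (nat_lit 532490) (nat_lit 0) (.e (nat_lit 6114) (nat_lit 332) (.e (nat_lit 1378) (nat_lit 104) (.e (nat_lit 311040) (nat_lit 15) .nil)))))))) (.g (nat_lit 6) .nil .nil))) 
(.lf (nat_lit 80509) (.g (nat_lit 1814) (.e (nat_lit 1848) (nat_lit 124) (.e (nat_lit 557097) (nat_lit 13) (.e (nat_lit 172115) (nat_lit 10) (.e (nat_lit 434238) (nat_lit 25) (.e (nat_lit 548897) (nat_lit 14) .nil))))) .nil)))))) (.nd (nat_lit 2) (.nd (nat_lit 3) (.nd (nat_lit 4) (.nd (nat_lit 5) 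
(.lf (nat_lit 80451) (.g (nat_lit 2031) (.e (nat_lit 1848) (nat_lit 124) (.e (nat_lit 557097) (nat_lit 13) (.e (nat_lit 172097) (nat_lit 9) (.e (nat_lit 426140) (nat_lit 3) (.e (nat_lit 204882) (nat_lit 32) .nil))))) .nil)) 
(.lf (nat_lit 80483) (.g (nat_lit 2398) (.e (nat_lit 1848) (nat_lit 124) (.e (nat_lit 557097) (nat_lit 13) (.e (nat_lit 172115) (nat_lit 10) (.e (nat_lit 434231) (nat_lit 23) (.e (nat_lit 532525) (nat_lit 8) (.e (nat_lit 327718) (nat_lit 19) (.e (nat_lit 311348) (nat_lit 15) .nil))))))) (.g (nat_lit 4) .nil .nil)))) (.nd (nat_lit 5) 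
(.lf (nat_lit 80467) (.g (nat_lit 1920) (.e (nat_lit 1848) (nat_lit 124) (.e (nat_lit 557097) (nat_lit 13) (.e (nat_lit 172115) (nat_lit 10) (.e (nat_lit 434227) (nat_lit 20) (.e (nat_lit 507947) (nat_lit 19) .nil))))) .nil)) 
(.lf (nat_lit 80499) (.g (nat_lit 4754) (.e (nat_lit 1848) (nat_lit 124) (.e (nat_lit 557097) (nat_lit 13) (.e (nat_lit 172115) (nat_lit 10) (.e (nat_lit 434231) (nat_lit 23) (.e (nat_lit 532569) (nat_lit 16) (.e (nat_lit 401435) (nat_lit 9) (.e (nat_lit 426402) (nat_lit 15) .nil))))))) (.g (nat_lit 0) .nil .nil))))) (.nd (nat_lit 4) (.nd (nat_lit 5) 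
(.lf (nat_lit 80459) (.g (nat_lit 2340) (.e (nat_lit 1848) (nat_lit 124) (.e (nat_lit 557097) (nat_lit 13) (.e (nat_lit 172115) (nat_lit 10) (.e (nat_lit 434227) (nat_lit 20) (.e (nat_lit 507929) (nat_lit 10) (.e (nat_lit 5768) (nat_lit 316) (.e (nat_lit 179968) (nat_lit 15) .nil))))))) (.g (nat_lit 6) .nil .nil))) 
(.lf (nat_lit 80491) (.g (nat_lit 2723) (.e (nat_lit 1848) (nat_lit 124) (.e (nat_lit 557097) (nat_lit 13) (.e (nat_lit 172115) (nat_lit 10) (.e (nat_lit 434231) (nat_lit 23) (.e (nat_lit 532565) (nat_lit 15) (.e (nat_lit 385104) (nat_lit 50) (.e (nat_lit 786447) (nat_lit 15) .nil))))))) (.g (nat_lit 4) .nil .nil)))) (.nd (nat_lit 5) 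
(.lf (nat_lit 80475) (.g (nat_lit 2505) (.e (nat_lit 1848) (nat_lit 124) (.e (nat_lit 557097) (nat_lit 13) (.e (nat_lit 172115) (nat_lit 10) (.e (nat_lit 434231) (nat_lit 23) (.e (nat_lit 532490) (nat_lit 0) (.e (nat_lit 6114) (nat_lit 332) (.e (nat_lit 1374) (nat_lit 104) (.e (nat_lit 311040) (nat_lit 15) .nil)))))))) (.g (nat_lit 4) .nil .nil))) 
(.lf (nat_lit 80507) (.g (nat_lit 2141) (.e (nat_lit 1848) (nat_lit 124) (.e (nat_lit 557097) (nat_lit 13) (.e (nat_lit 172115) (nat_lit 10) (.e (nat_lit 434238) (nat_lit 25) (.e (nat_lit 548896) (nat_lit 14) (.e (nat_lit 2982) (nat_lit 186) (.e (nat_lit 450304) (nat_lit 0) .nil))))))) (.g (nat_lit 4) .nil .nil)))))) (.nd (nat_lit 3) (.nd (nat_lit 4) (.nd (nat_lit 5) 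
(.lf (nat_lit 80455) (.g (nat_lit 3309) (.e (nat_lit 1848) (nat_lit 124) (.e (nat_lit 557097) (nat_lit 13) (.e (nat_lit 172097) (nat_lit 9) (.e (nat_lit 426140) (nat_lit 3) (.e (nat_lit 204883) (nat_lit 33) (.e (nat_lit 401438) (nat_lit 9) (.e (nat_lit 426402) (nat_lit 15) .nil))))))) (.g (nat_lit 0) .nil .nil))) 
(.lf (nat_lit 80487) (.g (nat_lit 2966) (.e (nat_lit 1848) (nat_lit 124) (.e (nat_lit 557097) (nat_lit 13) (.e (nat_lit 172115) (nat_lit 10) (.e (nat_lit 434231) (nat_lit 23) (.e (nat_lit 532564) (nat_lit 15) (.e (nat_lit 385102) (nat_lit 50) (.e (nat_lit 786447) (nat_lit 15) .nil))))))) (.g (nat_lit 4) .nil .nil)))) (.nd (nat_lit 5) 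
(.lf (nat_lit 80471) (.g (nat_lit 3457) (.e (nat_lit 1848) (nat_lit 124) (.e (nat_lit 557097) (nat_lit 13) (.e (nat_lit 172115) (nat_lit 10) (.e (nat_lit 434231) (nat_lit 23) (.e (nat_lit 532481) (nat_lit 0) (.e (nat_lit 6720) (nat_lit 361) (.e (nat_lit 179968) (nat_lit 15) .nil))))))) (.g (nat_lit 6) .nil .nil))) 
(.lf (nat_lit 80503) (.g (nat_lit 3366) (.e (nat_lit 1848) (nat_lit 124) (.e (nat_lit 557097) (nat_lit 13) (.e (nat_lit 172115) (nat_lit 10) (.e (nat_lit 434231) (nat_lit 23) (.e (nat_lit 532569) (nat_lit 16) (.e (nat_lit 401444) (nat_lit 9) (.e (nat_lit 426401) (nat_lit 15) .nil))))))) (.g (nat_lit 6) .nil .nil))))) (.nd (nat_lit 4) (.nd (nat_lit 5) 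
(.lf (nat_lit 80463) (.g (nat_lit 2355) (.e (nat_lit 1848) (nat_lit 124) (.e (nat_lit 557097) (nat_lit 13) (.e (nat_lit 172115) (nat_lit 10) (.e (nat_lit 434227) (nat_lit 20) (.e (nat_lit 507930) (nat_lit 10) (.e (nat_lit 5768) (nat_lit 316) (.e (nat_lit 179968) (nat_lit 15) .nil))))))) (.g (nat_lit 6) .nil .nil))) 
(.lf (nat_lit 80495) (.g (nat_lit 3581) (.e (nat_lit 1848) (nat_lit 124) (.e (nat_lit 557097) (nat_lit 13) (.e (nat_lit 172115) (nat_lit 10) (.e (nat_lit 434231) (nat_lit 23) (.e (nat_lit 532568) (nat_lit 16) (.e (nat_lit 401436) (nat_lit 9) (.e (nat_lit 426402) (nat_lit 15) .nil))))))) (.g (nat_lit 6) .nil .nil)))) (.nd (nat_lit 5) 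
(.lf (nat_lit 80479) (.g (nat_lit 3021) (.e (nat_lit 1848) (nat_lit 124) (.e (nat_lit 557097) (nat_lit 13) (.e (nat_lit 172115) (nat_lit 10) (.e (nat_lit 434231) (nat_lit 23) (.e (nat_lit 532490) (nat_lit 0) (.e (nat_lit 7936) (nat_lit 361) (.e (nat_lit 179968) (nat_lit 15) .nil))))))) (.g (nat_lit 5) .nil .nil))) 
(.lf (nat_lit 80511) (.g (nat_lit 2183) (.e (nat_lit 1848) (nat_lit 124) (.e (nat_lit 557097) (nat_lit 13) (.e (nat_lit 172115) (nat_lit 10) (.e (nat_lit 434238) (nat_lit 25) (.e (nat_lit 548898) (nat_lit 14) (.e (nat_lit 2982) (nat_lit 186) (.e (nat_lit 450304) (nat_lit 0) .nil))))))) (.g (nat_lit 4) .nil .nil)))))))))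

noncomputable def tv1089 : DT := (.nd (nat_lit 0) (.nd (nat_lit 1) (.nd (nat_lit 2) (.nd (nat_lit 3) (.nd (nat_lit 4) (.nd (nat_lit 5) 
(.lf (nat_lit 80512) (.g (nat_lit 3168) (.e (nat_lit 1848) (nat_lit 124) (.e (nat_lit 557097) (nat_lit 13) (.e (nat_lit 172115) (nat_lit 10) (.e (nat_lit 434238) (nat_lit 25) (.e (nat_lit 548898) (nat_lit 14) (.e (nat_lit 3005) (nat_lit 186) (.e (nat_lit 450304) (nat_lit 0) .nil))))))) (.g (nat_lit 5) .nil .nil))) 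
(.lf (nat_lit 80544) (.g (nat_lit 2698) (.e (nat_lit 1848) (nat_lit 124) (.e (nat_lit 557098) (nat_lit 13) (.e (nat_lit 172115) (nat_lit 10) (.e (nat_lit 434231) (nat_lit 23) (.e (nat_lit 532490) (nat_lit 0) .nil))))) .nil))) (.nd (nat_lit 5) 
(.lf (nat_lit 80528) (.g (nat_lit 2152) (.e (nat_lit 1848) (nat_lit 124) (.e (nat_lit 557097) (nat_lit 13) (.e (nat_lit 172124) (nat_lit 14) (.e (nat_lit 491537) (nat_lit 2) (.e (nat_lit 90185) (nat_lit 17) .nil))))) .nil)) 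
(.lf (nat_lit 80560) (.g (nat_lit 2360) (.e (nat_lit 1848) (nat_lit 124) (.e (nat_lit 557103) (nat_lit 14) (.e (nat_lit 180278) (nat_lit 32) (.e (nat_lit 1235) (nat_lit 91) (.e (nat_lit 90134) (nat_lit 9) (.e (nat_lit 3002) (nat_lit 186) (.e (nat_lit 450304) (nat_lit 0) .nil))))))) (.g (nat_lit 5) .nil .nil))))) (.nd (nat_lit 4) (.nd (nat_lit 5) 
(.lf (nat_lit 80520) (.g (nat_lit 4400) (.e (nat_lit 1848) (nat_lit 124) (.e (nat_lit 557097) (nat_lit 13) (.e (nat_lit 172115) (nat_lit 10) (.e (nat_lit 434244) (nat_lit 28) (.e (nat_lit 573471) (nat_lit 11) (.e (nat_lit 16435) (nat_lit 9) (.e (nat_lit 426402) (nat_lit 15) .nil))))))) (.g (nat_lit 7) .nil .nil))) 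
(.lf (nat_lit 80552) (.g (nat_lit 2674) (.e (nat_lit 1848) (nat_lit 124) (.e (nat_lit 557100) (nat_lit 13) (.e (nat_lit 172113) (nat_lit 10) (.e (nat_lit 434245) (nat_lit 28) (.e (nat_lit 573471) (nat_lit 11) (.e (nat_lit 16438) (nat_lit 9) (.e (nat_lit 426402) (nat_lit 15) .nil))))))) (.g (nat_lit 4) .nil .nil)))) (.nd (nat_lit 5) 
(.lf (nat_lit 80536) (.g (nat_lit 2179) (.e (nat_lit 1848) (nat_lit 124) (.e (nat_lit 557097) (nat_lit 13) (.e (nat_lit 172126) (nat_lit 14) (.e (nat_lit 491537) (nat_lit 2) (.e (nat_lit 90178) (nat_lit 15) (.e (nat_lit 196352) (nat_lit 0) .nil)))))) (.g (nat_lit 4) .nil .nil))) 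
(.lf (nat_lit 80568) (.g (nat_lit 1841) (.e (nat_lit 1848) (nat_lit 124) (.e (nat_lit 557103) (nat_lit 14) (.e (nat_lit 180278) (nat_lit 32) (.e (nat_lit 1252) (nat_lit 92) (.e (nat_lit 98381) (nat_lit 31) (.e (nat_lit 474880) (nat_lit 0) .nil)))))) (.g (nat_lit 5) .nil .nil)))))) (.nd (nat_lit 3) (.nd (nat_lit 4) (.nd (nat_lit 5) 
(.lf (nat_lit 80516) (.g (nat_lit 3571) (.e (nat_lit 1848) (nat_lit 124) (.e (nat_lit 557097) (nat_lit 13) (.e (nat_lit 172115) (nat_lit 10) (.e (nat_lit 434244) (nat_lit 28) (.e (nat_lit 573468) (nat_lit 10) (.e (nat_lit 8525) (nat_lit 205) (.e (nat_lit 2857) (nat_lit 184) (.e (nat_lit 426402) (nat_lit 15) .nil)))))))) (.g (nat_lit 5) .nil .nil))) 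
(.lf (nat_lit 80548) (.g (nat_lit 3208) (.e (nat_lit 1848) (nat_lit 124) (.e (nat_lit 557100) (nat_lit 13) (.e (nat_lit 172106) (nat_lit 10) (.e (nat_lit 434231) (nat_lit 23) (.e (nat_lit 532529) (nat_lit 9) (.e (nat_lit 336260) (nat_lit 15) (.e (nat_lit 3733) (nat_lit 228) (.e (nat_lit 786447) (nat_lit 15) .nil)))))))) (.g (nat_lit 4) .nil .nil)))) (.nd (nat_lit 5) 
(.lf (nat_lit 80532) (.g (nat_lit 2594) (.e (nat_lit 1848) (nat_lit 124) (.e (nat_lit 557097) (nat_lit 13) (.e (nat_lit 172124) (nat_lit 14) (.e (nat_lit 491540) (nat_lit 3) (.e (nat_lit 98370) (nat_lit 28) (.e (nat_lit 450304) (nat_lit 0) .nil)))))) (.g (nat_lit 5) .nil .nil))) 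
(.lf (nat_lit 80564) (.g (nat_lit 2793) (.e (nat_lit 1848) (nat_lit 124) (.e (nat_lit 557103) (nat_lit 14) (.e (nat_lit 180278) (nat_lit 32) (.e (nat_lit 1235) (nat_lit 91) (.e (nat_lit 90185) (nat_lit 17) (.e (nat_lit 237605) (nat_lit 9) (.e (nat_lit 426402) (nat_lit 15) .nil))))))) (.g (nat_lit 6) .nil .nil))))) (.nd (nat_lit 4) (.nd (nat_lit 5) 
(.lf (nat_lit 80524) (.g (nat_lit 1795) (.e (nat_lit 1848) (nat_lit 124) (.e (nat_lit 557097) (nat_lit 13) (.e (nat_lit 172115) (nat_lit 10) (.e (nat_lit 434244) (nat_lit 28) (.e (nat_lit 573471) (nat_lit 11) (.e (nat_lit 16440) (nat_lit 9) (.e (nat_lit 433920) (nat_lit 15) .nil))))))) (.g (nat_lit 4) .nil .nil))) 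
(.lf (nat_lit 80556) (.g (nat_lit 660) (.e (nat_lit 1848) (nat_lit 124) (.e (nat_lit 557103) (nat_lit 14) (.e (nat_lit 180275) (nat_lit 32) .nil))) .nil))) (.nd (nat_lit 5) 
(.lf (nat_lit 80540) (.g (nat_lit 2160) (.e (nat_lit 1848) (nat_lit 124) (.e (nat_lit 557097) (nat_lit 13) (.e (nat_lit 172126) (nat_lit 14) (.e (nat_lit 491540) (nat_lit 3) (.e (nat_lit 98369) (nat_lit 28) (.e (nat_lit 450304) (nat_lit 0) .nil)))))) (.g (nat_lit 4) .nil .nil))) 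
(.lf (nat_lit 80572) (.g (nat_lit 1897) (.e (nat_lit 1848) (nat_lit 124) (.e (nat_lit 557103) (nat_lit 14) (.e (nat_lit 180278) (nat_lit 32) (.e (nat_lit 1253) (nat_lit 92) (.e (nat_lit 98380) (nat_lit 31) (.e (nat_lit 474880) (nat_lit 0) .nil)))))) (.g (nat_lit 5) .nil .nil))))))) (.nd (nat_lit 2) (.nd (nat_lit 3) (.nd (nat_lit 4) (.nd (nat_lit 5) 
(.lf (nat_lit 80514) (.g (nat_lit 2019) (.e (nat_lit 1848) (nat_lit 124) (.e (nat_lit 557097) (nat_lit 13) (.e (nat_lit 172115) (nat_lit 10) (.e (nat_lit 434244) (nat_lit 28) (.e (nat_lit 573450) (nat_lit 9) (.e (nat_lit 479) (nat_lit 37) (.e (nat_lit 474880) (nat_lit 0) .nil))))))) (.g (nat_lit 4) .nil .nil))) 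
(.lf (nat_lit 80546) (.g (nat_lit 2659) (.e (nat_lit 1848) (nat_lit 124) (.e (nat_lit 557098) (nat_lit 13) (.e (nat_lit 172115) (nat_lit 10) (.e (nat_lit 434244) (nat_lit 28) (.e (nat_lit 573458) (nat_lit 9) .nil))))) .nil))) (.nd (nat_lit 5) 
(.lf (nat_lit 80530) (.g (nat_lit 2029) (.e (nat_lit 1848) (nat_lit 124) (.e (nat_lit 557097) (nat_lit 13) (.e (nat_lit 172124) (nat_lit 14) (.e (nat_lit 491540) (nat_lit 3) (.e (nat_lit 98365) (nat_lit 26) (.e (nat_lit 426198) (nat_lit 9) (.e (nat_lit 426402) (nat_lit 15) .nil))))))) (.g (nat_lit 4) .nil .nil))) 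
(.lf (nat_lit 80562) (.g (nat_lit 1667) (.e (nat_lit 1848) (nat_lit 124) (.e (nat_lit 557103) (nat_lit 14) (.e (nat_lit 180278) (nat_lit 32) (.e (nat_lit 1235) (nat_lit 91) (.e (nat_lit 90176) (nat_lit 15) (.e (nat_lit 196352) (nat_lit 0) .nil)))))) (.g (nat_lit 4) .nil .nil))))) (.nd (nat_lit 4) (.nd (nat_lit 5) 
(.lf (nat_lit 80522) (.g (nat_lit 4150) (.e (nat_lit 1848) (nat_lit 124) (.e (nat_lit 557097) (nat_lit 13) (.e (nat_lit 172115) (nat_lit 10) (.e (nat_lit 434244) (nat_lit 28) (.e (nat_lit 573471) (nat_lit 11) (.e (nat_lit 16438) (nat_lit 9) (.e (nat_lit 426402) (nat_lit 15) .nil))))))) (.g (nat_lit 7) .nil .nil))) 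
(.lf (nat_lit 80554) (.g (nat_lit 3211) (.e (nat_lit 1848) (nat_lit 124) (.e (nat_lit 557100) (nat_lit 13) (.e (nat_lit 172113) (nat_lit 10) (.e (nat_lit 434248) (nat_lit 28) (.e (nat_lit 573469) (nat_lit 11) (.e (nat_lit 16438) (nat_lit 9) (.e (nat_lit 426402) (nat_lit 15) .nil))))))) (.g (nat_lit 4) .nil .nil)))) (.nd (nat_lit 5) 
(.lf (nat_lit 80538) (.g (nat_lit 1381) (.e (nat_lit 1848) (nat_lit 124) (.e (nat_lit 557097) (nat_lit 13) (.e (nat_lit 172126) (nat_lit 14) (.e (nat_lit 491539) (nat_lit 3) .nil)))) .nil)) 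
(.lf (nat_lit 80570) (.g (nat_lit 2056) (.e (nat_lit 1848) (nat_lit 124) (.e (nat_lit 557103) (nat_lit 14) (.e (nat_lit 180278) (nat_lit 32) (.e (nat_lit 1253) (nat_lit 92) (.e (nat_lit 98369) (nat_lit 28) (.e (nat_lit 450304) (nat_lit 0) .nil)))))) (.g (nat_lit 5) .nil .nil)))))) (.nd (nat_lit 3) (.nd (nat_lit 4) (.nd (nat_lit 5) 
(.lf (nat_lit 80518) (.g (nat_lit 3039) (.e (nat_lit 1848) (nat_lit 124) (.e (nat_lit 557097) (nat_lit 13) (.e (nat_lit 172115) (nat_lit 10) (.e (nat_lit 434244) (nat_lit 28) (.e (nat_lit 573470) (nat_lit 11) (.e (nat_lit 16435) (nat_lit 9) (.e (nat_lit 426402) (nat_lit 15) .nil))))))) (.g (nat_lit 5) .nil .nil))) 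
(.lf (nat_lit 80550) (.g (nat_lit 3127) (.e (nat_lit 1848) (nat_lit 124) (.e (nat_lit 557100) (nat_lit 13) (.e (nat_lit 172113) (nat_lit 10) (.e (nat_lit 434245) (nat_lit 28) (.e (nat_lit 573469) (nat_lit 11) (.e (nat_lit 16438) (nat_lit 9) (.e (nat_lit 426402) (nat_lit 15) .nil))))))) (.g (nat_lit 5) .nil .nil)))) (.nd (nat_lit 5) 
(.lf (nat_lit 80534) (.g (nat_lit 2111) (.e (nat_lit 1848) (nat_lit 124) (.e (nat_lit 557097) (nat_lit 13) (.e (nat_lit 172124) (nat_lit 14) (.e (nat_lit 491540) (nat_lit 3) (.e (nat_lit 98381) (nat_lit 31) (.e (nat_lit 474880) (nat_lit 0) .nil)))))) (.g (nat_lit 5) .nil .nil))) 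
(.lf (nat_lit 80566) (.g (nat_lit 2265) (.e (nat_lit 1848) (nat_lit 124) (.e (nat_lit 557103) (nat_lit 14) (.e (nat_lit 180278) (nat_lit 32) (.e (nat_lit 1252) (nat_lit 92) (.e (nat_lit 98370) (nat_lit 28) (.e (nat_lit 450304) (nat_lit 0) .nil)))))) (.g (nat_lit 5) .nil .nil))))) (.nd (nat_lit 4) (.nd (nat_lit 5) 
(.lf (nat_lit 80526) (.g (nat_lit 2790) (.e (nat_lit 1848) (nat_lit 124) (.e (nat_lit 557097) (nat_lit 13) (.e (nat_lit 172120) (nat_lit 12) (.e (nat_lit 475185) (nat_lit 29) (.e (nat_lit 557109) (nat_lit 15) (.e (nat_lit 196352) (nat_lit 0) .nil)))))) (.g (nat_lit 5) .nil .nil))) 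
(.lf (nat_lit 80558) (.g (nat_lit 1847) (.e (nat_lit 1848) (nat_lit 124) (.e (nat_lit 557103) (nat_lit 14) (.e (nat_lit 180278) (nat_lit 32) (.e (nat_lit 1234) (nat_lit 91) (.e (nat_lit 90185) (nat_lit 17) (.e (nat_lit 237601) (nat_lit 9) (.e (nat_lit 426402) (nat_lit 15) .nil))))))) (.g (nat_lit 4) .nil .nil)))) (.nd (nat_lit 5) 
(.lf (nat_lit 80542) (.g (nat_lit 1944) (.e (nat_lit 1848) (nat_lit 124) (.e (nat_lit 557097) (nat_lit 13) (.e (nat_lit 172126) (nat_lit 14) (.e (nat_lit 491540) (nat_lit 3) (.e (nat_lit 98380) (nat_lit 31) .nil))))) .nil)) 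
(.lf (nat_lit 80574) (.g (nat_lit 3344) (.e (nat_lit 1848) (nat_lit 124) (.e (nat_lit 557103) (nat_lit 14) (.e (nat_lit 188160) (nat_lit 35) (.e (nat_lit 57464) (nat_lit 23) (.e (nat_lit 516151) (nat_lit 9) (.e (nat_lit 426195) (nat_lit 9) (.e (nat_lit 426402) (nat_lit 15) .nil))))))) (.g (nat_lit 6) .nil .nil)))))))) 
(.nd (nat_lit 1) (.nd (nat_lit 2) (.nd (nat_lit 3) (.nd (nat_lit 4) (.nd (nat_lit 5) 
(.lf (nat_lit 80513) (.g (nat_lit 1123) (.e (nat_lit 1848) (nat_lit 124) (.e (nat_lit 557097) (nat_lit 13) (.e (nat_lit 172115) (nat_lit 10) (.e (nat_lit 434244) (nat_lit 28) .nil)))) .nil)) 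
(.lf (nat_lit 80545) (.g (nat_lit 2523) (.e (nat_lit 1848) (nat_lit 124) (.e (nat_lit 557098) (nat_lit 13) (.e (nat_lit 172115) (nat_lit 10) (.e (nat_lit 434231) (nat_lit 23) (.e (nat_lit 532569) (nat_lit 16) .nil))))) .nil))) (.nd (nat_lit 5) 
(.lf (nat_lit 80529) (.g (nat_lit 2399) (.e (nat_lit 1848) (nat_lit 124) (.e (nat_lit 557097) (nat_lit 13) (.e (nat_lit 172124) (nat_lit 14) (.e (nat_lit 491537) (nat_lit 2) (.e (nat_lit 90185) (nat_lit 17) (.e (nat_lit 237605) (nat_lit 9) (.e (nat_lit 426402) (nat_lit 15) .nil))))))) (.g (nat_lit 4) .nil .nil))) 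
(.lf (nat_lit 80561) (.g (nat_lit 2103) (.e (nat_lit 1848) (nat_lit 124) (.e (nat_lit 557103) (nat_lit 14) (.e (nat_lit 180278) (nat_lit 32) (.e (nat_lit 1235) (nat_lit 91) (.e (nat_lit 90170) (nat_lit 13) (.e (nat_lit 172095) (nat_lit 9) (.e (nat_lit 433920) (nat_lit 15) .nil))))))) (.g (nat_lit 5) .nil .nil))))) (.nd (nat_lit 4) (.nd (nat_lit 5) 
(.lf (nat_lit 80521) (.g (nat_lit 4390) (.e (nat_lit 1848) (nat_lit 124) (.e (nat_lit 557097) (nat_lit 13) (.e (nat_lit 172115) (nat_lit 10) (.e (nat_lit 434244) (nat_lit 28) (.e (nat_lit 573471) (nat_lit 11) (.e (nat_lit 16436) (nat_lit 9) (.e (nat_lit 426402) (nat_lit 15) .nil))))))) (.g (nat_lit 7) .nil .nil))) 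
(.lf (nat_lit 80553) (.g (nat_lit 3840) (.e (nat_lit 1848) (nat_lit 124) (.e (nat_lit 557100) (nat_lit 13) (.e (nat_lit 172113) (nat_lit 10) (.e (nat_lit 434247) (nat_lit 28) (.e (nat_lit 573469) (nat_lit 11) (.e (nat_lit 16438) (nat_lit 9) (.e (nat_lit 426402) (nat_lit 15) .nil))))))) (.g (nat_lit 5) .nil .nil)))) (.nd (nat_lit 5) 
(.lf (nat_lit 80537) (.g (nat_lit 3889) (.e (nat_lit 1848) (nat_lit 124) (.e (nat_lit 557097) (nat_lit 13) (.e (nat_lit 172126) (nat_lit 14) (.e (nat_lit 491537) (nat_lit 2) (.e (nat_lit 90185) (nat_lit 17) (.e (nat_lit 237605) (nat_lit 9) (.e (nat_lit 426402) (nat_lit 15) .nil))))))) (.g (nat_lit 7) .nil .nil))) 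
(.lf (nat_lit 80569) (.g (nat_lit 2729) (.e (nat_lit 1848) (nat_lit 124) (.e (nat_lit 557103) (nat_lit 14) (.e (nat_lit 180278) (nat_lit 32) (.e (nat_lit 1253) (nat_lit 92) (.e (nat_lit 98358) (nat_lit 26) (.e (nat_lit 426227) (nat_lit 9) (.e (nat_lit 433920) (nat_lit 15) .nil))))))) (.g (nat_lit 6) .nil .nil)))))) (.nd (nat_lit 3) (.nd (nat_lit 4) (.nd (nat_lit 5) 
(.lf (nat_lit 80517) (.g (nat_lit 4444) (.e (nat_lit 1848) (nat_lit 124) (.e (nat_lit 557097) (nat_lit 13) (.e (nat_lit 172115) (nat_lit 10) (.e (nat_lit 434244) (nat_lit 28) (.e (nat_lit 573469) (nat_lit 11) (.e (nat_lit 16438) (nat_lit 9) (.e (nat_lit 426402) (nat_lit 15) .nil))))))) (.g (nat_lit 7) .nil .nil))) 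
(.lf (nat_lit 80549) (.g (nat_lit 2536) (.e (nat_lit 1848) (nat_lit 124) (.e (nat_lit 557100) (nat_lit 13) (.e (nat_lit 172106) (nat_lit 10) (.e (nat_lit 434244) (nat_lit 28) .nil)))) .nil))) (.nd (nat_lit 5) 
(.lf (nat_lit 80533) (.g (nat_lit 2029) (.e (nat_lit 1848) (nat_lit 124) (.e (nat_lit 557097) (nat_lit 13) (.e (nat_lit 172124) (nat_lit 14) (.e (nat_lit 491540) (nat_lit 3) (.e (nat_lit 98380) (nat_lit 31) (.e (nat_lit 474880) (nat_lit 0) .nil)))))) (.g (nat_lit 5) .nil .nil))) 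
(.lf (nat_lit 80565) (.g (nat_lit 1951) (.e (nat_lit 1848) (nat_lit 124) (.e (nat_lit 557103) (nat_lit 14) (.e (nat_lit 180278) (nat_lit 32) (.e (nat_lit 1252) (nat_lit 92) (.e (nat_lit 98369) (nat_lit 28) (.e (nat_lit 450304) (nat_lit 0) .nil)))))) (.g (nat_lit 5) .nil .nil))))) (.nd (nat_lit 4) (.nd (nat_lit 5) 
(.lf (nat_lit 80525) (.g (nat_lit 2257) (.e (nat_lit 1848) (nat_lit 124) (.e (nat_lit 557097) (nat_lit 13) (.e (nat_lit 172115) (nat_lit 10) (.e (nat_lit 434244) (nat_lit 28) (.e (nat_lit 573471) (nat_lit 11) (.e (nat_lit 16444) (nat_lit 9) (.e (nat_lit 426401) (nat_lit 15) .nil))))))) (.g (nat_lit 4) .nil .nil))) 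
(.lf (nat_lit 80557) (.g (nat_lit 2017) (.e (nat_lit 1848) (nat_lit 124) (.e (nat_lit 557103) (nat_lit 14) (.e (nat_lit 180278) (nat_lit 32) (.e (nat_lit 1234) (nat_lit 91) (.e (nat_lit 90170) (nat_lit 13) (.e (nat_lit 172095) (nat_lit 9) (.e (nat_lit 433920) (nat_lit 15) .nil))))))) (.g (nat_lit 5) .nil .nil)))) (.nd (nat_lit 5) 
(.lf (nat_lit 80541) (.g (nat_lit 2544) (.e (nat_lit 1848) (nat_lit 124) (.e (nat_lit 557097) (nat_lit 13) (.e (nat_lit 172126) (nat_lit 14) (.e (nat_lit 491540) (nat_lit 3) (.e (nat_lit 98370) (nat_lit 28) (.e (nat_lit 450304) (nat_lit 0) .nil)))))) (.g (nat_lit 5) .nil .nil))) 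
(.lf (nat_lit 80573) (.g (nat_lit 1959) (.e (nat_lit 1848) (nat_lit 124) (.e (nat_lit 557103) (nat_lit 14) (.e (nat_lit 180278) (nat_lit 32) (.e (nat_lit 1253) (nat_lit 92) (.e (nat_lit 98381) (nat_lit 31) (.e (nat_lit 474880) (nat_lit 0) .nil)))))) (.g (nat_lit 5) .nil .nil))))))) (.nd (nat_lit 2) (.nd (nat_lit 3) (.nd (nat_lit 4) (.nd (nat_lit 5) 
(.lf (nat_lit 80515) (.g (nat_lit 2205) (.e (nat_lit 1848) (nat_lit 124) (.e (nat_lit 557097) (nat_lit 13) (.e (nat_lit 172115) (nat_lit 10) (.e (nat_lit 434244) (nat_lit 28) (.e (nat_lit 573458) (nat_lit 9) (.e (nat_lit 7936) (nat_lit 37) (.e (nat_lit 474880) (nat_lit 0) .nil))))))) (.g (nat_lit 4) .nil .nil))) 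
(.lf (nat_lit 80547) (.g (nat_lit 2398) (.e (nat_lit 1848) (nat_lit 124) (.e (nat_lit 557100) (nat_lit 13) (.e (nat_lit 172106) (nat_lit 10) (.e (nat_lit 434231) (nat_lit 23) .nil)))) .nil))) (.nd (nat_lit 5) 
(.lf (nat_lit 80531) (.g (nat_lit 2224) (.e (nat_lit 1848) (nat_lit 124) (.e (nat_lit 557097) (nat_lit 13) (.e (nat_lit 172124) (nat_lit 14) (.e (nat_lit 491540) (nat_lit 3) (.e (nat_lit 98369) (nat_lit 28) (.e (nat_lit 450304) (nat_lit 0) .nil)))))) (.g (nat_lit 5) .nil .nil))) 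
(.lf (nat_lit 80563) (.g (nat_lit 1804) (.e (nat_lit 1848) (nat_lit 124) (.e (nat_lit 557103) (nat_lit 14) (.e (nat_lit 180278) (nat_lit 32) (.e (nat_lit 1235) (nat_lit 91) (.e (nat_lit 90178) (nat_lit 15) (.e (nat_lit 196352) (nat_lit 0) .nil)))))) (.g (nat_lit 4) .nil .nil))))) (.nd (nat_lit 4) (.nd (nat_lit 5) 
(.lf (nat_lit 80523) (.g (nat_lit 3087) (.e (nat_lit 1848) (nat_lit 124) (.e (nat_lit 557097) (nat_lit 13) (.e (nat_lit 172115) (nat_lit 10) (.e (nat_lit 434244) (nat_lit 28) (.e (nat_lit 573471) (nat_lit 11) (.e (nat_lit 16439) (nat_lit 9) (.e (nat_lit 433920) (nat_lit 15) .nil))))))) (.g (nat_lit 6) .nil .nil))) 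
(.lf (nat_lit 80555) (.g (nat_lit 3073) (.e (nat_lit 1848) (nat_lit 124) (.e (nat_lit 557100) (nat_lit 13) (.e (nat_lit 172113) (nat_lit 10) (.e (nat_lit 434248) (nat_lit 28) (.e (nat_lit 573470) (nat_lit 11) (.e (nat_lit 16438) (nat_lit 9) (.e (nat_lit 426402) (nat_lit 15) .nil))))))) (.g (nat_lit 4) .nil .nil)))) (.nd (nat_lit 5) 
(.lf (nat_lit 80539) (.g (nat_lit 2109) (.e (nat_lit 1848) (nat_lit 124) (.e (nat_lit 557097) (nat_lit 13) (.e (nat_lit 172126) (nat_lit 14) (.e (nat_lit 491540) (nat_lit 3) (.e (nat_lit 98365) (nat_lit 26) (.e (nat_lit 426198) (nat_lit 9) (.e (nat_lit 426402) (nat_lit 15) .nil))))))) (.g (nat_lit 4) .nil .nil))) 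
(.lf (nat_lit 80571) (.g (nat_lit 2388) (.e (nat_lit 1848) (nat_lit 124) (.e (nat_lit 557103) (nat_lit 14) (.e (nat_lit 180278) (nat_lit 32) (.e (nat_lit 1253) (nat_lit 92) (.e (nat_lit 98370) (nat_lit 28) (.e (nat_lit 450304) (nat_lit 0) .nil)))))) (.g (nat_lit 5) .nil .nil)))))) (.nd (nat_lit 3) (.nd (nat_lit 4) (.nd (nat_lit 5) 
(.lf (nat_lit 80519) (.g (nat_lit 4309) (.e (nat_lit 1848) (nat_lit 124) (.e (nat_lit 557097) (nat_lit 13) (.e (nat_lit 172115) (nat_lit 10) (.e (nat_lit 434244) (nat_lit 28) (.e (nat_lit 573470) (nat_lit 11) (.e (nat_lit 16438) (nat_lit 9) (.e (nat_lit 426402) (nat_lit 15) .nil))))))) (.g (nat_lit 7) .nil .nil))) 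
(.lf (nat_lit 80551) (.g (nat_lit 2954) (.e (nat_lit 1848) (nat_lit 124) (.e (nat_lit 557100) (nat_lit 13) (.e (nat_lit 172113) (nat_lit 10) (.e (nat_lit 434245) (nat_lit 28) (.e (nat_lit 573470) (nat_lit 11) (.e (nat_lit 16438) (nat_lit 9) (.e (nat_lit 426402) (nat_lit 15) .nil))))))) (.g (nat_lit 4) .nil .nil)))) (.nd (nat_lit 5) 
(.lf (nat_lit 80535) (.g (nat_lit 1958) (.e (nat_lit 1848) (nat_lit 124) (.e (nat_lit 557097) (nat_lit 13) (.e (nat_lit 172126) (nat_lit 14) (.e (nat_lit 491537) (nat_lit 2) (.e (nat_lit 90176) (nat_lit 15) .nil))))) .nil)) 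
(.lf (nat_lit 80567) (.g (nat_lit 1786) (.e (nat_lit 1848) (nat_lit 124) (.e (nat_lit 557103) (nat_lit 14) (.e (nat_lit 180278) (nat_lit 32) (.e (nat_lit 1252) (nat_lit 92) (.e (nat_lit 98380) (nat_lit 31) (.e (nat_lit 474880) (nat_lit 0) .nil)))))) (.g (nat_lit 5) .nil .nil))))) (.nd (nat_lit 4) (.nd (nat_lit 5) 
(.lf (nat_lit 80527) (.g (nat_lit 527) (.e (nat_lit 1848) (nat_lit 124) (.e (nat_lit 557097) (nat_lit 13) (.e (nat_lit 172124) (nat_lit 14) .nil))) .nil)) 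
(.lf (nat_lit 80559) (.g (nat_lit 2513) (.e (nat_lit 1848) (nat_lit 124) (.e (nat_lit 557103) (nat_lit 14) (.e (nat_lit 180278) (nat_lit 32) (.e (nat_lit 1234) (nat_lit 91) (.e (nat_lit 90185) (nat_lit 17) (.e (nat_lit 237605) (nat_lit 9) (.e (nat_lit 426402) (nat_lit 15) .nil))))))) (.g (nat_lit 5) .nil .nil)))) (.nd (nat_lit 5) 
(.lf (nat_lit 80543) (.g (nat_lit 2109) (.e (nat_lit 1848) (nat_lit 124) (.e (nat_lit 557097) (nat_lit 13) (.e (nat_lit 172126) (nat_lit 14) (.e (nat_lit 491540) (nat_lit 3) (.e (nat_lit 98381) (nat_lit 31) (.e (nat_lit 474880) (nat_lit 0) .nil)))))) (.g (nat_lit 4) .nil .nil))) 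
(.lf (nat_lit 80575) (.g (nat_lit 1515) (.e (nat_lit 1848) (nat_lit 124) (.e (nat_lit 557103) (nat_lit 14) (.e (nat_lit 188160) (nat_lit 35) (.e (nat_lit 57464) (nat_lit 23) (.e (nat_lit 516162) (nat_lit 11) (.e (nat_lit 450304) (nat_lit 0) .nil)))))) (.g (nat_lit 5) .nil .nil)))))))))

noncomputable def tv1090 : DT := (.nd (nat_lit 0) (.nd (nat_lit 1) (.nd (nat_lit 2) (.nd (nat_lit 3) (.nd (nat_lit 4) (.nd (nat_lit 5) 
(.lf (nat_lit 80576) (.g (nat_lit 1982) (.e (nat_lit 1848) (nat_lit 124) (.e (nat_lit 557103) (nat_lit 14) (.e (nat_lit 188160) (nat_lit 35) (.e (nat_lit 57464) (nat_lit 23) (.e (nat_lit 516163) (nat_lit 11) (.e (nat_lit 450304) (nat_lit 0) .nil)))))) (.g (nat_lit 5) .nil .nil))) 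
(.lf (nat_lit 80608) (.g (nat_lit 1695) (.e (nat_lit 1848) (nat_lit 124) (.e (nat_lit 557104) (nat_lit 14) (.e (nat_lit 180277) (nat_lit 32) (.e (nat_lit 1252) (nat_lit 92) (.e (nat_lit 98381) (nat_lit 31) (.e (nat_lit 474880) (nat_lit 0) .nil)))))) (.g (nat_lit 5) .nil .nil)))) (.nd (nat_lit 5) 
(.lf (nat_lit 80592) (.g (nat_lit 649) (.e (nat_lit 1848) (nat_lit 124) (.e (nat_lit 557103) (nat_lit 14) (.e (nat_lit 180288) (nat_lit 45) .nil))) .nil)) 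
(.lf (nat_lit 80624) (.g (nat_lit 3041) (.e (nat_lit 1848) (nat_lit 124) (.e (nat_lit 557104) (nat_lit 14) (.e (nat_lit 180278) (nat_lit 32) (.e (nat_lit 1235) (nat_lit 91) (.e (nat_lit 90185) (nat_lit 17) (.e (nat_lit 237601) (nat_lit 9) (.e (nat_lit 426402) (nat_lit 15) .nil))))))) (.g (nat_lit 5) .nil .nil))))) (.nd (nat_lit 4) (.nd (nat_lit 5) 
(.lf (nat_lit 80584) (.g (nat_lit 1664) (.e (nat_lit 1848) (nat_lit 124) (.e (nat_lit 557103) (nat_lit 14) (.e (nat_lit 180285) (nat_lit 45) (.e (nat_lit 2569) (nat_lit 160) (.e (nat_lit 32807) (nat_lit 18) (.e (nat_lit 172095) (nat_lit 9) (.e (nat_lit 433920) (nat_lit 15) .nil))))))) (.g (nat_lit 6) .nil .nil))) 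
(.lf (nat_lit 80616) (.g (nat_lit 2581) (.e (nat_lit 1848) (nat_lit 124) (.e (nat_lit 557104) (nat_lit 14) (.e (nat_lit 180278) (nat_lit 32) (.e (nat_lit 1234) (nat_lit 91) (.e (nat_lit 90176) (nat_lit 15) (.e (nat_lit 196352) (nat_lit 0) .nil)))))) (.g (nat_lit 5) .nil .nil)))) (.nd (nat_lit 5) 
(.lf (nat_lit 80600) (.g (nat_lit 1960) (.e (nat_lit 1848) (nat_lit 124) (.e (nat_lit 557104) (nat_lit 14) (.e (nat_lit 180276) (nat_lit 32) (.e (nat_lit 1077) (nat_lit 81) (.e (nat_lit 1796) (nat_lit 119) (.e (nat_lit 516175) (nat_lit 14) (.e (nat_lit 474880) (nat_lit 0) .nil))))))) (.g (nat_lit 6) .nil .nil))) 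
(.lf (nat_lit 80632) (.g (nat_lit 2995) (.e (nat_lit 1848) (nat_lit 124) (.e (nat_lit 557104) (nat_lit 14) (.e (nat_lit 180278) (nat_lit 32) (.e (nat_lit 1253) (nat_lit 92) (.e (nat_lit 98370) (nat_lit 28) (.e (nat_lit 450304) (nat_lit 0) .nil)))))) (.g (nat_lit 5) .nil .nil)))))) (.nd (nat_lit 3) (.nd (nat_lit 4) (.nd (nat_lit 5) 
(.lf (nat_lit 80580) (.g (nat_lit 1660) (.e (nat_lit 1848) (nat_lit 124) (.e (nat_lit 557103) (nat_lit 14) (.e (nat_lit 188160) (nat_lit 35) (.e (nat_lit 57464) (nat_lit 23) (.e (nat_lit 516176) (nat_lit 14) (.e (nat_lit 474880) (nat_lit 0) .nil)))))) (.g (nat_lit 5) .nil .nil))) 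
(.lf (nat_lit 80612) (.g (nat_lit 1801) (.e (nat_lit 1848) (nat_lit 124) (.e (nat_lit 557104) (nat_lit 14) (.e (nat_lit 180277) (nat_lit 32) (.e (nat_lit 1253) (nat_lit 92) (.e (nat_lit 98380) (nat_lit 31) (.e (nat_lit 474880) (nat_lit 0) .nil)))))) (.g (nat_lit 5) .nil .nil)))) (.nd (nat_lit 5) 
(.lf (nat_lit 80596) (.g (nat_lit 4699) (.e (nat_lit 1848) (nat_lit 124) (.e (nat_lit 557104) (nat_lit 14) (.e (nat_lit 180233) (nat_lit 0) (.e (nat_lit 5949) (nat_lit 322) (.e (nat_lit 57447) (nat_lit 19) (.e (nat_lit 393301) (nat_lit 27) (.e (nat_lit 491526) (nat_lit 0) .nil))))))) (.g (nat_lit 7) .nil .nil))) 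
(.lf (nat_lit 80628) (.g (nat_lit 2359) (.e (nat_lit 1848) (nat_lit 124) (.e (nat_lit 557104) (nat_lit 14) (.e (nat_lit 180278) (nat_lit 32) (.e (nat_lit 1252) (nat_lit 92) (.e (nat_lit 98380) (nat_lit 31) (.e (nat_lit 474880) (nat_lit 0) .nil)))))) (.g (nat_lit 4) .nil .nil))))) (.nd (nat_lit 4) (.nd (nat_lit 5) 
(.lf (nat_lit 80588) (.g (nat_lit 944) (.e (nat_lit 1848) (nat_lit 124) (.e (nat_lit 557103) (nat_lit 14) (.e (nat_lit 180285) (nat_lit 45) (.e (nat_lit 2570) (nat_lit 160) (.e (nat_lit 32809) (nat_lit 20) (.e (nat_lit 196352) (nat_lit 0) .nil)))))) (.g (nat_lit 4) .nil .nil))) 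
(.lf (nat_lit 80620) (.g (nat_lit 2113) (.e (nat_lit 1848) (nat_lit 124) (.e (nat_lit 557104) (nat_lit 14) (.e (nat_lit 180278) (nat_lit 32) (.e (nat_lit 1234) (nat_lit 91) (.e (nat_lit 90185) (nat_lit 17) (.e (nat_lit 237604) (nat_lit 9) (.e (nat_lit 426402) (nat_lit 15) .nil))))))) (.g (nat_lit 4) .nil .nil)))) (.nd (nat_lit 5) 
(.lf (nat_lit 80604) (.g (nat_lit 2826) (.e (nat_lit 1848) (nat_lit 124) (.e (nat_lit 557104) (nat_lit 14) (.e (nat_lit 180277) (nat_lit 32) (.e (nat_lit 1235) (nat_lit 91) (.e (nat_lit 90185) (nat_lit 17) (.e (nat_lit 237605) (nat_lit 9) (.e (nat_lit 426402) (nat_lit 15) .nil))))))) (.g (nat_lit 6) .nil .nil))) 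
(.lf (nat_lit 80636) (.g (nat_lit 1860) (.e (nat_lit 1848) (nat_lit 124) (.e (nat_lit 557104) (nat_lit 14) (.e (nat_lit 188160) (nat_lit 32) (.e (nat_lit 1239) (nat_lit 91) (.e (nat_lit 90134) (nat_lit 9) (.e (nat_lit 3002) (nat_lit 186) (.e (nat_lit 450304) (nat_lit 0) .nil))))))) (.g (nat_lit 5) .nil .nil))))))) (.nd (nat_lit 2) (.nd (nat_lit 3) (.nd (nat_lit 4) (.nd (nat_lit 5) 
(.lf (nat_lit 80578) (.g (nat_lit 1719) (.e (nat_lit 1848) (nat_lit 124) (.e (nat_lit 557103) (nat_lit 14) (.e (nat_lit 188160) (nat_lit 35) (.e (nat_lit 57464) (nat_lit 23) (.e (nat_lit 516174) (nat_lit 14) (.e (nat_lit 474880) (nat_lit 0) .nil)))))) (.g (nat_lit 5) .nil .nil))) 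
(.lf (nat_lit 80610) (.g (nat_lit 1952) (.e (nat_lit 1848) (nat_lit 124) (.e (nat_lit 557104) (nat_lit 14) (.e (nat_lit 180277) (nat_lit 32) (.e (nat_lit 1253) (nat_lit 92) (.e (nat_lit 98369) (nat_lit 28) (.e (nat_lit 450304) (nat_lit 0) .nil)))))) (.g (nat_lit 5) .nil .nil)))) (.nd (nat_lit 5) 
(.lf (nat_lit 80594) (.g (nat_lit 4725) (.e (nat_lit 1848) (nat_lit 124) (.e (nat_lit 557104) (nat_lit 14) (.e (nat_lit 180233) (nat_lit 0) (.e (nat_lit 5946) (nat_lit 322) (.e (nat_lit 57447) (nat_lit 19) (.e (nat_lit 393301) (nat_lit 27) (.e (nat_lit 491526) (nat_lit 0) .nil))))))) (.g (nat_lit 7) .nil .nil))) 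
(.lf (nat_lit 80626) (.g (nat_lit 2504) (.e (nat_lit 1848) (nat_lit 124) (.e (nat_lit 557104) (nat_lit 14) (.e (nat_lit 180278) (nat_lit 32) (.e (nat_lit 1252) (nat_lit 92) (.e (nat_lit 98369) (nat_lit 28) (.e (nat_lit 450304) (nat_lit 0) .nil)))))) (.g (nat_lit 5) .nil .nil))))) (.nd (nat_lit 4) (.nd (nat_lit 5) 
(.lf (nat_lit 80586) (.g (nat_lit 1061) (.e (nat_lit 1848) (nat_lit 124) (.e (nat_lit 557103) (nat_lit 14) (.e (nat_lit 180285) (nat_lit 45) (.e (nat_lit 2570) (nat_lit 160) (.e (nat_lit 32807) (nat_lit 18) (.e (nat_lit 172091) (nat_lit 9) (.e (nat_lit 433920) (nat_lit 15) .nil))))))) (.g (nat_lit 5) .nil .nil))) 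
(.lf (nat_lit 80618) (.g (nat_lit 2769) (.e (nat_lit 1848) (nat_lit 124) (.e (nat_lit 557104) (nat_lit 14) (.e (nat_lit 180278) (nat_lit 32) (.e (nat_lit 1234) (nat_lit 91) (.e (nat_lit 90185) (nat_lit 17) (.e (nat_lit 237601) (nat_lit 9) (.e (nat_lit 426402) (nat_lit 15) .nil))))))) (.g (nat_lit 5) .nil .nil)))) (.nd (nat_lit 5) 
(.lf (nat_lit 80602) (.g (nat_lit 2430) (.e (nat_lit 1848) (nat_lit 124) (.e (nat_lit 557104) (nat_lit 14) (.e (nat_lit 180277) (nat_lit 32) (.e (nat_lit 1235) (nat_lit 91) (.e (nat_lit 90134) (nat_lit 9) (.e (nat_lit 3002) (nat_lit 186) (.e (nat_lit 450304) (nat_lit 0) .nil))))))) (.g (nat_lit 5) .nil .nil))) 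
(.lf (nat_lit 80634) (.g (nat_lit 2532) (.e (nat_lit 1848) (nat_lit 124) (.e (nat_lit 557104) (nat_lit 14) (.e (nat_lit 180278) (nat_lit 32) (.e (nat_lit 1253) (nat_lit 92) (.e (nat_lit 98381) (nat_lit 31) (.e (nat_lit 474880) (nat_lit 0) .nil)))))) (.g (nat_lit 5) .nil .nil)))))) (.nd (nat_lit 3) (.nd (nat_lit 4) (.nd (nat_lit 5) 
(.lf (nat_lit 80582) (.g (nat_lit 2085) (.e (nat_lit 1848) (nat_lit 124) (.e (nat_lit 557103) (nat_lit 14) (.e (nat_lit 188160) (nat_lit 38) (.e (nat_lit 122936) (nat_lit 23) (.e (nat_lit 516176) (nat_lit 14) (.e (nat_lit 474880) (nat_lit 0) .nil)))))) (.g (nat_lit 5) .nil .nil))) 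
(.lf (nat_lit 80614) (.g (nat_lit 579) (.e (nat_lit 1848) (nat_lit 124) (.e (nat_lit 557104) (nat_lit 14) (.e (nat_lit 180278) (nat_lit 32) .nil))) .nil))) (.nd (nat_lit 5) 
(.lf (nat_lit 80598) (.g (nat_lit 2063) (.e (nat_lit 1848) (nat_lit 124) (.e (nat_lit 557104) (nat_lit 14) (.e (nat_lit 180276) (nat_lit 32) (.e (nat_lit 1074) (nat_lit 81) (.e (nat_lit 1796) (nat_lit 119) (.e (nat_lit 516175) (nat_lit 14) (.e (nat_lit 474880) (nat_lit 0) .nil))))))) (.g (nat_lit 6) .nil .nil))) 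
(.lf (nat_lit 80630) (.g (nat_lit 3304) (.e (nat_lit 1848) (nat_lit 124) (.e (nat_lit 557104) (nat_lit 14) (.e (nat_lit 180278) (nat_lit 32) (.e (nat_lit 1253) (nat_lit 92) (.e (nat_lit 98358) (nat_lit 26) (.e (nat_lit 426227) (nat_lit 9) (.e (nat_lit 433920) (nat_lit 15) .nil))))))) (.g (nat_lit 6) .nil .nil))))) (.nd (nat_lit 4) (.nd (nat_lit 5) 
(.lf (nat_lit 80590) (.g (nat_lit 1078) (.e (nat_lit 1848) (nat_lit 124) (.e (nat_lit 557103) (nat_lit 14) (.e (nat_lit 180285) (nat_lit 45) (.e (nat_lit 2571) (nat_lit 160) (.e (nat_lit 32807) (nat_lit 18) (.e (nat_lit 172091) (nat_lit 9) (.e (nat_lit 433920) (nat_lit 15) .nil))))))) (.g (nat_lit 5) .nil .nil))) 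
(.lf (nat_lit 80622) (.g (nat_lit 2789) (.e (nat_lit 1848) (nat_lit 124) (.e (nat_lit 557104) (nat_lit 14) (.e (nat_lit 180278) (nat_lit 32) (.e (nat_lit 1235) (nat_lit 91) (.e (nat_lit 90170) (nat_lit 13) (.e (nat_lit 172095) (nat_lit 9) (.e (nat_lit 433920) (nat_lit 15) .nil))))))) (.g (nat_lit 6) .nil .nil)))) (.nd (nat_lit 5) 
(.lf (nat_lit 80606) (.g (nat_lit 2110) (.e (nat_lit 1848) (nat_lit 124) (.e (nat_lit 557104) (nat_lit 14) (.e (nat_lit 180277) (nat_lit 32) (.e (nat_lit 1252) (nat_lit 92) (.e (nat_lit 98370) (nat_lit 28) (.e (nat_lit 450304) (nat_lit 0) .nil)))))) (.g (nat_lit 5) .nil .nil))) 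
(.lf (nat_lit 80638) (.g (nat_lit 894) (.e (nat_lit 1848) (nat_lit 124) (.e (nat_lit 557104) (nat_lit 14) (.e (nat_lit 188160) (nat_lit 35) (.e (nat_lit 57454) (nat_lit 21) (.e (nat_lit 507648) (nat_lit 11) (.e (nat_lit 196352) (nat_lit 0) .nil)))))) (.g (nat_lit 4) .nil .nil)))))))) (.nd (nat_lit 1) (.nd (nat_lit 2) (.nd (nat_lit 3) (.nd (nat_lit 4) (.nd (nat_lit 5) 
(.lf (nat_lit 80577) (.g (nat_lit 1614) (.e (nat_lit 1848) (nat_lit 124) (.e (nat_lit 557103) (nat_lit 14) (.e (nat_lit 188160) (nat_lit 35) (.e (nat_lit 57464) (nat_lit 23) (.e (nat_lit 516164) (nat_lit 11) (.e (nat_lit 450304) (nat_lit 0) .nil)))))) (.g (nat_lit 5) .nil .nil))) 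
(.lf (nat_lit 80609) (.g (nat_lit 2642) (.e (nat_lit 1848) (nat_lit 124) (.e (nat_lit 557104) (nat_lit 14) (.e (nat_lit 180277) (nat_lit 32) (.e (nat_lit 1253) (nat_lit 92) (.e (nat_lit 98358) (nat_lit 26) (.e (nat_lit 426227) (nat_lit 9) (.e (nat_lit 433920) (nat_lit 15) .nil))))))) (.g (nat_lit 6) .nil .nil)))) (.nd (nat_lit 5) 
(.lf (nat_lit 80593) (.g (nat_lit 4293) (.e (nat_lit 1848) (nat_lit 124) (.e (nat_lit 557104) (nat_lit 14) (.e (nat_lit 180229) (nat_lit 0) (.e (nat_lit 5946) (nat_lit 322) (.e (nat_lit 57447) (nat_lit 19) (.e (nat_lit 393301) (nat_lit 27) (.e (nat_lit 491526) (nat_lit 0) .nil))))))) (.g (nat_lit 6) .nil .nil))) 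
(.lf (nat_lit 80625) (.g (nat_lit 3239) (.e (nat_lit 1848) (nat_lit 124) (.e (nat_lit 557104) (nat_lit 14) (.e (nat_lit 180278) (nat_lit 32) (.e (nat_lit 1235) (nat_lit 91) (.e (nat_lit 90185) (nat_lit 17) (.e (nat_lit 237603) (nat_lit 9) (.e (nat_lit 426402) (nat_lit 15) .nil))))))) (.g (nat_lit 5) .nil .nil))))) (.nd (nat_lit 4) (.nd (nat_lit 5) 
(.lf (nat_lit 80585) (.g (nat_lit 1028) (.e (nat_lit 1848) (nat_lit 124) (.e (nat_lit 557103) (nat_lit 14) (.e (nat_lit 180285) (nat_lit 45) (.e (nat_lit 2569) (nat_lit 160) (.e (nat_lit 32809) (nat_lit 20) (.e (nat_lit 196352) (nat_lit 0) .nil)))))) (.g (nat_lit 4) .nil .nil))) 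
(.lf (nat_lit 80617) (.g (nat_lit 2542) (.e (nat_lit 1848) (nat_lit 124) (.e (nat_lit 557104) (nat_lit 14) (.e (nat_lit 180278) (nat_lit 32) (.e (nat_lit 1234) (nat_lit 91) (.e (nat_lit 90178) (nat_lit 15) (.e (nat_lit 196352) (nat_lit 0) .nil)))))) (.g (nat_lit 5) .nil .nil)))) (.nd (nat_lit 5) 
(.lf (nat_lit 80601) (.g (nat_lit 1982) (.e (nat_lit 1848) (nat_lit 124) (.e (nat_lit 557104) (nat_lit 14) (.e (nat_lit 180277) (nat_lit 32) (.e (nat_lit 1234) (nat_lit 91) (.e (nat_lit 90170) (nat_lit 13) (.e (nat_lit 172095) (nat_lit 9) (.e (nat_lit 433920) (nat_lit 15) .nil))))))) (.g (nat_lit 5) .nil .nil))) 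
(.lf (nat_lit 80633) (.g (nat_lit 2481) (.e (nat_lit 1848) (nat_lit 124) (.e (nat_lit 557104) (nat_lit 14) (.e (nat_lit 180278) (nat_lit 32) (.e (nat_lit 1253) (nat_lit 92) (.e (nat_lit 98380) (nat_lit 31) (.e (nat_lit 474880) (nat_lit 0) .nil)))))) (.g (nat_lit 4) .nil .nil)))))) (.nd (nat_lit 3) (.nd (nat_lit 4) (.nd (nat_lit 5) 
(.lf (nat_lit 80581) (.g (nat_lit 1752) (.e (nat_lit 1848) (nat_lit 124) (.e (nat_lit 557103) (nat_lit 14) (.e (nat_lit 188160) (nat_lit 38) (.e (nat_lit 122936) (nat_lit 23) (.e (nat_lit 516174) (nat_lit 14) (.e (nat_lit 474880) (nat_lit 0) .nil)))))) (.g (nat_lit 5) .nil .nil))) 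
(.lf (nat_lit 80613) (.g (nat_lit 1861) (.e (nat_lit 1848) (nat_lit 124) (.e (nat_lit 557104) (nat_lit 14) (.e (nat_lit 180277) (nat_lit 32) (.e (nat_lit 1253) (nat_lit 92) (.e (nat_lit 98381) (nat_lit 31) (.e (nat_lit 474880) (nat_lit 0) .nil)))))) (.g (nat_lit 5) .nil .nil)))) (.nd (nat_lit 5) 
(.lf (nat_lit 80597) (.g (nat_lit 2502) (.e (nat_lit 1848) (nat_lit 124) (.e (nat_lit 557104) (nat_lit 14) (.e (nat_lit 180276) (nat_lit 32) (.e (nat_lit 1074) (nat_lit 81) (.e (nat_lit 1796) (nat_lit 119) (.e (nat_lit 516163) (nat_lit 11) (.e (nat_lit 450304) (nat_lit 0) .nil))))))) (.g (nat_lit 6) .nil .nil))) 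
(.lf (nat_lit 80629) (.g (nat_lit 2411) (.e (nat_lit 1848) (nat_lit 124) (.e (nat_lit 557104) (nat_lit 14) (.e (nat_lit 180278) (nat_lit 32) (.e (nat_lit 1252) (nat_lit 92) (.e (nat_lit 98381) (nat_lit 31) (.e (nat_lit 474880) (nat_lit 0) .nil)))))) (.g (nat_lit 5) .nil .nil))))) (.nd (nat_lit 4) (.nd (nat_lit 5) 
(.lf (nat_lit 80589) (.g (nat_lit 976) (.e (nat_lit 1848) (nat_lit 124) (.e (nat_lit 557103) (nat_lit 14) (.e (nat_lit 180285) (nat_lit 45) (.e (nat_lit 2571) (nat_lit 160) (.e (nat_lit 32798) (nat_lit 14) (.e (nat_lit 3048) (nat_lit 189) (.e (nat_lit 474880) (nat_lit 0) .nil))))))) (.g (nat_lit 4) .nil .nil))) 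
(.lf (nat_lit 80621) (.g (nat_lit 2967) (.e (nat_lit 1848) (nat_lit 124) (.e (nat_lit 557104) (nat_lit 14) (.e (nat_lit 180278) (nat_lit 32) (.e (nat_lit 1235) (nat_lit 91) (.e (nat_lit 90134) (nat_lit 9) (.e (nat_lit 3002) (nat_lit 186) (.e (nat_lit 450304) (nat_lit 0) .nil))))))) (.g (nat_lit 5) .nil .nil)))) (.nd (nat_lit 5) 
(.lf (nat_lit 80605) (.g (nat_lit 1796) (.e (nat_lit 1848) (nat_lit 124) (.e (nat_lit 557104) (nat_lit 14) (.e (nat_lit 180277) (nat_lit 32) (.e (nat_lit 1252) (nat_lit 92) (.e (nat_lit 98369) (nat_lit 28) (.e (nat_lit 450304) (nat_lit 0) .nil)))))) (.g (nat_lit 5) .nil .nil))) 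
(.lf (nat_lit 80637) (.g (nat_lit 362) (.e (nat_lit 1848) (nat_lit 124) (.e (nat_lit 557104) (nat_lit 14) (.e (nat_lit 188160) (nat_lit 35) .nil))) .nil)))))) (.nd (nat_lit 2) (.nd (nat_lit 3) (.nd (nat_lit 4) (.nd (nat_lit 5) 
(.lf (nat_lit 80579) (.g (nat_lit 1284) (.e (nat_lit 1848) (nat_lit 124) (.e (nat_lit 557103) (nat_lit 14) (.e (nat_lit 188160) (nat_lit 35) (.e (nat_lit 57464) (nat_lit 23) (.e (nat_lit 516175) (nat_lit 14) (.e (nat_lit 474880) (nat_lit 0) .nil)))))) (.g (nat_lit 4) .nil .nil))) 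
(.lf (nat_lit 80611) (.g (nat_lit 2283) (.e (nat_lit 1848) (nat_lit 124) (.e (nat_lit 557104) (nat_lit 14) (.e (nat_lit 180277) (nat_lit 32) (.e (nat_lit 1253) (nat_lit 92) (.e (nat_lit 98370) (nat_lit 28) (.e (nat_lit 450304) (nat_lit 0) .nil)))))) (.g (nat_lit 5) .nil .nil)))) (.nd (nat_lit 5) 
(.lf (nat_lit 80595) (.g (nat_lit 4467) (.e (nat_lit 1848) (nat_lit 124) (.e (nat_lit 557104) (nat_lit 14) (.e (nat_lit 180233) (nat_lit 0) (.e (nat_lit 5948) (nat_lit 322) (.e (nat_lit 57447) (nat_lit 19) (.e (nat_lit 393301) (nat_lit 27) (.e (nat_lit 491526) (nat_lit 0) .nil))))))) (.g (nat_lit 7) .nil .nil))) 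
(.lf (nat_lit 80627) (.g (nat_lit 2843) (.e (nat_lit 1848) (nat_lit 124) (.e (nat_lit 557104) (nat_lit 14) (.e (nat_lit 180278) (nat_lit 32) (.e (nat_lit 1252) (nat_lit 92) (.e (nat_lit 98370) (nat_lit 28) (.e (nat_lit 450304) (nat_lit 0) .nil)))))) (.g (nat_lit 5) .nil .nil))))) (.nd (nat_lit 4) (.nd (nat_lit 5) 
(.lf (nat_lit 80587) (.g (nat_lit 1564) (.e (nat_lit 1848) (nat_lit 124) (.e (nat_lit 557103) (nat_lit 14) (.e (nat_lit 180285) (nat_lit 45) (.e (nat_lit 2570) (nat_lit 160) (.e (nat_lit 32807) (nat_lit 18) (.e (nat_lit 172095) (nat_lit 9) (.e (nat_lit 433920) (nat_lit 15) .nil))))))) (.g (nat_lit 6) .nil .nil))) 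
(.lf (nat_lit 80619) (.g (nat_lit 3550) (.e (nat_lit 1848) (nat_lit 124) (.e (nat_lit 557104) (nat_lit 14) (.e (nat_lit 180278) (nat_lit 32) (.e (nat_lit 1234) (nat_lit 91) (.e (nat_lit 90185) (nat_lit 17) (.e (nat_lit 237603) (nat_lit 9) (.e (nat_lit 426402) (nat_lit 15) .nil))))))) (.g (nat_lit 5) .nil .nil)))) (.nd (nat_lit 5) 
(.lf (nat_lit 80603) (.g (nat_lit 2181) (.e (nat_lit 1848) (nat_lit 124) (.e (nat_lit 557104) (nat_lit 14) (.e (nat_lit 180277) (nat_lit 32) (.e (nat_lit 1235) (nat_lit 91) (.e (nat_lit 90170) (nat_lit 13) (.e (nat_lit 172095) (nat_lit 9) (.e (nat_lit 433920) (nat_lit 15) .nil))))))) (.g (nat_lit 5) .nil .nil))) 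
(.lf (nat_lit 80635) (.g (nat_lit 362) (.e (nat_lit 1848) (nat_lit 124) (.e (nat_lit 557104) (nat_lit 14) (.e (nat_lit 188160) (nat_lit 32) .nil))) .nil))))) (.nd (nat_lit 3) (.nd (nat_lit 4) (.nd (nat_lit 5) 
(.lf (nat_lit 80583) (.g (nat_lit 1153) (.e (nat_lit 1848) (nat_lit 124) (.e (nat_lit 557103) (nat_lit 14) (.e (nat_lit 180285) (nat_lit 45) (.e (nat_lit 2569) (nat_lit 160) (.e (nat_lit 32807) (nat_lit 18) (.e (nat_lit 172091) (nat_lit 9) (.e (nat_lit 433920) (nat_lit 15) .nil))))))) (.g (nat_lit 5) .nil .nil))) 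
(.lf (nat_lit 80615) (.g (nat_lit 2797) (.e (nat_lit 1848) (nat_lit 124) (.e (nat_lit 557104) (nat_lit 14) (.e (nat_lit 180278) (nat_lit 32) (.e (nat_lit 1234) (nat_lit 91) (.e (nat_lit 90170) (nat_lit 13) (.e (nat_lit 172095) (nat_lit 9) (.e (nat_lit 433920) (nat_lit 15) .nil))))))) (.g (nat_lit 6) .nil .nil)))) (.nd (nat_lit 5) 
(.lf (nat_lit 80599) (.g (nat_lit 2331) (.e (nat_lit 1848) (nat_lit 124) (.e (nat_lit 557104) (nat_lit 14) (.e (nat_lit 180276) (nat_lit 32) (.e (nat_lit 1077) (nat_lit 81) (.e (nat_lit 1796) (nat_lit 119) (.e (nat_lit 516163) (nat_lit 11) (.e (nat_lit 450304) (nat_lit 0) .nil))))))) (.g (nat_lit 6) .nil .nil))) 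
(.lf (nat_lit 80631) (.g (nat_lit 2644) (.e (nat_lit 1848) (nat_lit 124) (.e (nat_lit 557104) (nat_lit 14) (.e (nat_lit 180278) (nat_lit 32) (.e (nat_lit 1253) (nat_lit 92) (.e (nat_lit 98369) (nat_lit 28) (.e (nat_lit 450304) (nat_lit 0) .nil)))))) (.g (nat_lit 5) .nil .nil))))) (.nd (nat_lit 4) (.nd (nat_lit 5) 
(.lf (nat_lit 80591) (.g (nat_lit 1580) (.e (nat_lit 1848) (nat_lit 124) (.e (nat_lit 557103) (nat_lit 14) (.e (nat_lit 180285) (nat_lit 45) (.e (nat_lit 2571) (nat_lit 160) (.e (nat_lit 32807) (nat_lit 18) (.e (nat_lit 172095) (nat_lit 9) (.e (nat_lit 433920) (nat_lit 15) .nil))))))) (.g (nat_lit 6) .nil .nil))) 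
(.lf (nat_lit 80623) (.g (nat_lit 2454) (.e (nat_lit 1848) (nat_lit 124) (.e (nat_lit 557104) (nat_lit 14) (.e (nat_lit 180278) (nat_lit 32) (.e (nat_lit 1235) (nat_lit 91) (.e (nat_lit 90178) (nat_lit 15) (.e (nat_lit 196352) (nat_lit 0) .nil)))))) (.g (nat_lit 5) .nil .nil)))) (.nd (nat_lit 5) 
(.lf (nat_lit 80607) (.g (nat_lit 1640) (.e (nat_lit 1848) (nat_lit 124) (.e (nat_lit 557104) (nat_lit 14) (.e (nat_lit 180277) (nat_lit 32) (.e (nat_lit 1252) (nat_lit 92) (.e (nat_lit 98380) (nat_lit 31) (.e (nat_lit 474880) (nat_lit 0) .nil)))))) (.g (nat_lit 5) .nil .nil))) 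
(.lf (nat_lit 80639) (.g (nat_lit 3053) (.e (nat_lit 1848) (nat_lit 124) (.e (nat_lit 557104) (nat_lit 14) (.e (nat_lit 188160) (nat_lit 35) (.e (nat_lit 57464) (nat_lit 23) (.e (nat_lit 516151) (nat_lit 9) (.e (nat_lit 426195) (nat_lit 9) (.e (nat_lit 426402) (nat_lit 15) .nil))))))) (.g (nat_lit 5) .nil .nil)))))))))

noncomputable def tv1091 : DT := (.nd (nat_lit 0) (.nd (nat_lit 1) (.nd (nat_lit 2) (.nd (nat_lit 3) (.nd (nat_lit 4) (.nd (nat_lit 5) 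
(.lf (nat_lit 80640) (.g (nat_lit 1225) (.e (nat_lit 1848) (nat_lit 124) (.e (nat_lit 557104) (nat_lit 14) (.e (nat_lit 188160) (nat_lit 35) (.e (nat_lit 57464) (nat_lit 23) (.e (nat_lit 516162) (nat_lit 11) (.e (nat_lit 450304) (nat_lit 0) .nil)))))) (.g (nat_lit 5) .nil .nil))) 
(.lf (nat_lit 80672) (.g (nat_lit 1677) (.e (nat_lit 1848) (nat_lit 124) (.e (nat_lit 557107) (nat_lit 15) (.e (nat_lit 188439) (nat_lit 20) (.e (nat_lit 3270) (nat_lit 199) (.e (nat_lit 548898) (nat_lit 14) (.e (nat_lit 3004) (nat_lit 186) (.e (nat_lit 450304) (nat_lit 0) .nil))))))) (.g (nat_lit 6) .nil .nil)))) (.nd (nat_lit 5) 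
(.lf (nat_lit 80656) (.g (nat_lit 2027) (.e (nat_lit 1848) (nat_lit 124) (.e (nat_lit 557107) (nat_lit 15) (.e (nat_lit 188420) (nat_lit 0) (.e (nat_lit 1855) (nat_lit 124) (.e (nat_lit 557107) (nat_lit 15) (.e (nat_lit 196352) (nat_lit 0) .nil)))))) (.g (nat_lit 5) .nil .nil))) 
(.lf (nat_lit 80688) (.g (nat_lit 1967) (.e (nat_lit 1848) (nat_lit 124) (.e (nat_lit 557107) (nat_lit 15) (.e (nat_lit 188439) (nat_lit 20) (.e (nat_lit 3272) (nat_lit 199) (.e (nat_lit 548897) (nat_lit 14) (.e (nat_lit 2999) (nat_lit 186) (.e (nat_lit 450304) (nat_lit 0) .nil))))))) (.g (nat_lit 6) .nil .nil))))) (.nd (nat_lit 4) (.nd (nat_lit 5) 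
(.lf (nat_lit 80648) (.g (nat_lit 1795) (.e (nat_lit 1848) (nat_lit 124) (.e (nat_lit 557104) (nat_lit 14) (.e (nat_lit 188160) (nat_lit 38) (.e (nat_lit 122936) (nat_lit 23) (.e (nat_lit 516176) (nat_lit 14) (.e (nat_lit 474880) (nat_lit 0) .nil)))))) (.g (nat_lit 5) .nil .nil))) 
(.lf (nat_lit 80680) (.g (nat_lit 1701) (.e (nat_lit 1848) (nat_lit 124) (.e (nat_lit 557107) (nat_lit 15) (.e (nat_lit 188439) (nat_lit 20) (.e (nat_lit 3271) (nat_lit 199) (.e (nat_lit 548898) (nat_lit 14) (.e (nat_lit 3005) (nat_lit 186) (.e (nat_lit 450304) (nat_lit 0) .nil))))))) (.g (nat_lit 6) .nil .nil)))) (.nd (nat_lit 5) 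
(.lf (nat_lit 80664) (.g (nat_lit 1503) (.e (nat_lit 1848) (nat_lit 124) (.e (nat_lit 557107) (nat_lit 15) (.e (nat_lit 196352) (nat_lit 0) (.e (nat_lit 1858) (nat_lit 124) (.e (nat_lit 557107) (nat_lit 15) (.e (nat_lit 196352) (nat_lit 0) .nil)))))) (.g (nat_lit 4) .nil .nil))) 
(.lf (nat_lit 80696) (.g (nat_lit 2112) (.e (nat_lit 1848) (nat_lit 124) (.e (nat_lit 557107) (nat_lit 15) (.e (nat_lit 188439) (nat_lit 20) (.e (nat_lit 3272) (nat_lit 199) (.e (nat_lit 548898) (nat_lit 14) (.e (nat_lit 3005) (nat_lit 186) (.e (nat_lit 450304) (nat_lit 0) .nil))))))) (.g (nat_lit 6) .nil .nil)))))) (.nd (nat_lit 3) (.nd (nat_lit 4) (.nd (nat_lit 5) 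
(.lf (nat_lit 80644) (.g (nat_lit 994) (.e (nat_lit 1848) (nat_lit 124) (.e (nat_lit 557104) (nat_lit 14) (.e (nat_lit 188160) (nat_lit 35) (.e (nat_lit 57464) (nat_lit 23) (.e (nat_lit 516175) (nat_lit 14) (.e (nat_lit 474880) (nat_lit 0) .nil)))))) (.g (nat_lit 4) .nil .nil))) 
(.lf (nat_lit 80676) (.g (nat_lit 999) (.e (nat_lit 1848) (nat_lit 124) (.e (nat_lit 557107) (nat_lit 15) (.e (nat_lit 188439) (nat_lit 20) (.e (nat_lit 3271) (nat_lit 199) (.e (nat_lit 548898) (nat_lit 14) (.e (nat_lit 2989) (nat_lit 186) (.e (nat_lit 450304) (nat_lit 0) .nil))))))) (.g (nat_lit 4) .nil .nil)))) (.nd (nat_lit 5) 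
(.lf (nat_lit 80660) (.g (nat_lit 2065) (.e (nat_lit 1848) (nat_lit 124) (.e (nat_lit 557107) (nat_lit 15) (.e (nat_lit 196352) (nat_lit 0) (.e (nat_lit 1853) (nat_lit 124) (.e (nat_lit 557107) (nat_lit 15) (.e (nat_lit 196352) (nat_lit 0) .nil)))))) (.g (nat_lit 5) .nil .nil))) 
(.lf (nat_lit 80692) (.g (nat_lit 1587) (.e (nat_lit 1848) (nat_lit 124) (.e (nat_lit 557107) (nat_lit 15) (.e (nat_lit 188439) (nat_lit 20) (.e (nat_lit 3272) (nat_lit 199) (.e (nat_lit 548898) (nat_lit 14) (.e (nat_lit 2989) (nat_lit 186) (.e (nat_lit 450304) (nat_lit 0) .nil))))))) (.g (nat_lit 6) .nil .nil))))) (.nd (nat_lit 4) (.nd (nat_lit 5) 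
(.lf (nat_lit 80652) (.g (nat_lit 2691) (.e (nat_lit 1848) (nat_lit 124) (.e (nat_lit 557106) (nat_lit 15) (.e (nat_lit 188452) (nat_lit 23) (.e (nat_lit 204884) (nat_lit 33) .nil)))) .nil)) 
(.lf (nat_lit 80684) (.g (nat_lit 1693) (.e (nat_lit 1848) (nat_lit 124) (.e (nat_lit 557107) (nat_lit 15) (.e (nat_lit 188439) (nat_lit 20) (.e (nat_lit 3272) (nat_lit 199) (.e (nat_lit 548896) (nat_lit 14) (.e (nat_lit 3004) (nat_lit 186) (.e (nat_lit 450304) (nat_lit 0) .nil))))))) (.g (nat_lit 6) .nil .nil)))) (.nd (nat_lit 5) 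
(.lf (nat_lit 80668) (.g (nat_lit 385) (.e (nat_lit 1848) (nat_lit 124) (.e (nat_lit 557107) (nat_lit 15) (.e (nat_lit 188439) (nat_lit 20) .nil))) .nil)) 
(.lf (nat_lit 80700) (.g (nat_lit 1337) (.e (nat_lit 1848) (nat_lit 124) (.e (nat_lit 557107) (nat_lit 15) (.e (nat_lit 188440) (nat_lit 20) (.e (nat_lit 3255) (nat_lit 197) .nil)))) .nil)))))) (.nd (nat_lit 2) (.nd (nat_lit 3) (.nd (nat_lit 4) (.nd (nat_lit 5) 
(.lf (nat_lit 80642) (.g (nat_lit 1324) (.e (nat_lit 1848) (nat_lit 124) (.e (nat_lit 557104) (nat_lit 14) (.e (nat_lit 188160) (nat_lit 35) (.e (nat_lit 57464) (nat_lit 23) (.e (nat_lit 516164) (nat_lit 11) (.e (nat_lit 450304) (nat_lit 0) .nil)))))) (.g (nat_lit 5) .nil .nil))) 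
(.lf (nat_lit 80674) (.g (nat_lit 1617) (.e (nat_lit 1848) (nat_lit 124) (.e (nat_lit 557107) (nat_lit 15) (.e (nat_lit 188439) (nat_lit 20) (.e (nat_lit 3270) (nat_lit 199) (.e (nat_lit 548915) (nat_lit 20) (.e (nat_lit 196352) (nat_lit 0) .nil)))))) (.g (nat_lit 5) .nil .nil)))) (.nd (nat_lit 5) 
(.lf (nat_lit 80658) (.g (nat_lit 2100) (.e (nat_lit 1848) (nat_lit 124) (.e (nat_lit 557107) (nat_lit 15) (.e (nat_lit 188420) (nat_lit 0) (.e (nat_lit 1856) (nat_lit 124) (.e (nat_lit 557107) (nat_lit 15) (.e (nat_lit 196352) (nat_lit 0) .nil)))))) (.g (nat_lit 5) .nil .nil))) 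
(.lf (nat_lit 80690) (.g (nat_lit 1600) (.e (nat_lit 1848) (nat_lit 124) (.e (nat_lit 557107) (nat_lit 15) (.e (nat_lit 188439) (nat_lit 20) (.e (nat_lit 3272) (nat_lit 199) (.e (nat_lit 548897) (nat_lit 14) (.e (nat_lit 3005) (nat_lit 186) (.e (nat_lit 450304) (nat_lit 0) .nil))))))) (.g (nat_lit 5) .nil .nil))))) (.nd (nat_lit 4) (.nd (nat_lit 5) 
(.lf (nat_lit 80650) (.g (nat_lit 1739) (.e (nat_lit 1848) (nat_lit 124) (.e (nat_lit 557105) (nat_lit 14) (.e (nat_lit 180265) (nat_lit 21) (.e (nat_lit 663555) (nat_lit 0) .nil)))) .nil)) 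
(.lf (nat_lit 80682) (.g (nat_lit 1204) (.e (nat_lit 1848) (nat_lit 124) (.e (nat_lit 557107) (nat_lit 15) (.e (nat_lit 188439) (nat_lit 20) (.e (nat_lit 3272) (nat_lit 199) (.e (nat_lit 548896) (nat_lit 14) (.e (nat_lit 2982) (nat_lit 186) (.e (nat_lit 450304) (nat_lit 0) .nil))))))) (.g (nat_lit 4) .nil .nil)))) (.nd (nat_lit 5) 
(.lf (nat_lit 80666) (.g (nat_lit 2128) (.e (nat_lit 1848) (nat_lit 124) (.e (nat_lit 557107) (nat_lit 15) (.e (nat_lit 196352) (nat_lit 0) (.e (nat_lit 1859) (nat_lit 124) (.e (nat_lit 557109) (nat_lit 15) (.e (nat_lit 196352) (nat_lit 0) .nil)))))) (.g (nat_lit 5) .nil .nil))) 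
(.lf (nat_lit 80698) (.g (nat_lit 2754) (.e (nat_lit 1848) (nat_lit 124) (.e (nat_lit 557107) (nat_lit 15) (.e (nat_lit 188439) (nat_lit 20) (.e (nat_lit 3272) (nat_lit 199) (.e (nat_lit 548913) (nat_lit 18) (.e (nat_lit 172095) (nat_lit 9) (.e (nat_lit 433920) (nat_lit 15) .nil))))))) (.g (nat_lit 6) .nil .nil)))))) (.nd (nat_lit 3) (.nd (nat_lit 4) (.nd (nat_lit 5) 
(.lf (nat_lit 80646) (.g (nat_lit 362) (.e (nat_lit 1848) (nat_lit 124) (.e (nat_lit 557104) (nat_lit 14) (.e (nat_lit 188160) (nat_lit 38) .nil))) .nil)) 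
(.lf (nat_lit 80678) (.g (nat_lit 2101) (.e (nat_lit 1848) (nat_lit 124) (.e (nat_lit 557107) (nat_lit 15) (.e (nat_lit 188439) (nat_lit 20) (.e (nat_lit 3271) (nat_lit 199) (.e (nat_lit 548898) (nat_lit 14) (.e (nat_lit 2999) (nat_lit 186) (.e (nat_lit 450304) (nat_lit 0) .nil))))))) (.g (nat_lit 6) .nil .nil)))) (.nd (nat_lit 5) 
(.lf (nat_lit 80662) (.g (nat_lit 1493) (.e (nat_lit 1848) (nat_lit 124) (.e (nat_lit 557107) (nat_lit 15) (.e (nat_lit 196352) (nat_lit 0) (.e (nat_lit 1855) (nat_lit 124) (.e (nat_lit 557107) (nat_lit 15) (.e (nat_lit 196352) (nat_lit 0) .nil)))))) (.g (nat_lit 4) .nil .nil))) 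
(.lf (nat_lit 80694) (.g (nat_lit 2514) (.e (nat_lit 1848) (nat_lit 124) (.e (nat_lit 557107) (nat_lit 15) (.e (nat_lit 188439) (nat_lit 20) (.e (nat_lit 3272) (nat_lit 199) (.e (nat_lit 548898) (nat_lit 14) (.e (nat_lit 2999) (nat_lit 186) (.e (nat_lit 450304) (nat_lit 0) .nil))))))) (.g (nat_lit 6) .nil .nil))))) (.nd (nat_lit 4) (.nd (nat_lit 5) 
(.lf (nat_lit 80654) (.g (nat_lit 2577) (.e (nat_lit 1848) (nat_lit 124) (.e (nat_lit 557107) (nat_lit 15) (.e (nat_lit 188418) (nat_lit 0) (.e (nat_lit 1856) (nat_lit 124) (.e (nat_lit 557109) (nat_lit 15) (.e (nat_lit 196352) (nat_lit 0) .nil)))))) (.g (nat_lit 5) .nil .nil))) 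
(.lf (nat_lit 80686) (.g (nat_lit 1703) (.e (nat_lit 1848) (nat_lit 124) (.e (nat_lit 557107) (nat_lit 15) (.e (nat_lit 188439) (nat_lit 20) (.e (nat_lit 3272) (nat_lit 199) (.e (nat_lit 548897) (nat_lit 14) (.e (nat_lit 2988) (nat_lit 186) (.e (nat_lit 450304) (nat_lit 0) .nil))))))) (.g (nat_lit 6) .nil .nil)))) (.nd (nat_lit 5) 
(.lf (nat_lit 80670) (.g (nat_lit 1688) (.e (nat_lit 1848) (nat_lit 124) (.e (nat_lit 557107) (nat_lit 15) (.e (nat_lit 188439) (nat_lit 20) (.e (nat_lit 3270) (nat_lit 199) (.e (nat_lit 548898) (nat_lit 14) (.e (nat_lit 2998) (nat_lit 186) (.e (nat_lit 450304) (nat_lit 0) .nil))))))) (.g (nat_lit 6) .nil .nil))) 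
(.lf (nat_lit 80702) (.g (nat_lit 1658) (.e (nat_lit 1848) (nat_lit 124) (.e (nat_lit 557107) (nat_lit 15) (.e (nat_lit 188440) (nat_lit 20) (.e (nat_lit 3271) (nat_lit 199) (.e (nat_lit 548913) (nat_lit 18) (.e (nat_lit 172095) (nat_lit 9) (.e (nat_lit 433920) (nat_lit 15) .nil))))))) (.g (nat_lit 4) .nil .nil)))))))) 
(.nd (nat_lit 1) (.nd (nat_lit 2) (.nd (nat_lit 3) (.nd (nat_lit 4) (.nd (nat_lit 5) 
(.lf (nat_lit 80641) (.g (nat_lit 1692) (.e (nat_lit 1848) (nat_lit 124) (.e (nat_lit 557104) (nat_lit 14) (.e (nat_lit 188160) (nat_lit 35) (.e (nat_lit 57464) (nat_lit 23) (.e (nat_lit 516163) (nat_lit 11) (.e (nat_lit 450304) (nat_lit 0) .nil)))))) (.g (nat_lit 5) .nil .nil))) 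
(.lf (nat_lit 80673) (.g (nat_lit 1664) (.e (nat_lit 1848) (nat_lit 124) (.e (nat_lit 557107) (nat_lit 15) (.e (nat_lit 188439) (nat_lit 20) (.e (nat_lit 3270) (nat_lit 199) (.e (nat_lit 548898) (nat_lit 14) (.e (nat_lit 3005) (nat_lit 186) (.e (nat_lit 450304) (nat_lit 0) .nil))))))) (.g (nat_lit 5) .nil .nil)))) (.nd (nat_lit 5) 
(.lf (nat_lit 80657) (.g (nat_lit 2502) (.e (nat_lit 1848) (nat_lit 124) (.e (nat_lit 557107) (nat_lit 15) (.e (nat_lit 188420) (nat_lit 0) (.e (nat_lit 1855) (nat_lit 124) (.e (nat_lit 557109) (nat_lit 15) (.e (nat_lit 196352) (nat_lit 0) .nil)))))) (.g (nat_lit 5) .nil .nil))) 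
(.lf (nat_lit 80689) (.g (nat_lit 1727) (.e (nat_lit 1848) (nat_lit 124) (.e (nat_lit 557107) (nat_lit 15) (.e (nat_lit 188439) (nat_lit 20) (.e (nat_lit 3272) (nat_lit 199) (.e (nat_lit 548897) (nat_lit 14) (.e (nat_lit 3004) (nat_lit 186) (.e (nat_lit 450304) (nat_lit 0) .nil))))))) (.g (nat_lit 6) .nil .nil))))) (.nd (nat_lit 4) (.nd (nat_lit 5) 
(.lf (nat_lit 80649) (.g (nat_lit 564) (.e (nat_lit 1848) (nat_lit 124) (.e (nat_lit 557104) (nat_lit 14) (.e (nat_lit 180284) (nat_lit 45) .nil))) .nil)) 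
(.lf (nat_lit 80681) (.g (nat_lit 1778) (.e (nat_lit 1848) (nat_lit 124) (.e (nat_lit 557107) (nat_lit 15) (.e (nat_lit 188439) (nat_lit 20) (.e (nat_lit 3271) (nat_lit 199) (.e (nat_lit 548915) (nat_lit 20) (.e (nat_lit 196352) (nat_lit 0) .nil)))))) (.g (nat_lit 5) .nil .nil)))) (.nd (nat_lit 5) 
(.lf (nat_lit 80665) (.g (nat_lit 1781) (.e (nat_lit 1848) (nat_lit 124) (.e (nat_lit 557107) (nat_lit 15) (.e (nat_lit 196352) (nat_lit 0) (.e (nat_lit 1859) (nat_lit 124) (.e (nat_lit 557107) (nat_lit 15) (.e (nat_lit 196352) (nat_lit 0) .nil)))))) (.g (nat_lit 5) .nil .nil))) 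
(.lf (nat_lit 80697) (.g (nat_lit 2171) (.e (nat_lit 1848) (nat_lit 124) (.e (nat_lit 557107) (nat_lit 15) (.e (nat_lit 188439) (nat_lit 20) (.e (nat_lit 3272) (nat_lit 199) (.e (nat_lit 548913) (nat_lit 18) (.e (nat_lit 172088) (nat_lit 9) (.e (nat_lit 433920) (nat_lit 15) .nil))))))) (.g (nat_lit 5) .nil .nil)))))) (.nd (nat_lit 3) (.nd (nat_lit 4) (.nd (nat_lit 5) 
(.lf (nat_lit 80645) (.g (nat_lit 1370) (.e (nat_lit 1848) (nat_lit 124) (.e (nat_lit 557104) (nat_lit 14) (.e (nat_lit 188160) (nat_lit 35) (.e (nat_lit 57464) (nat_lit 23) (.e (nat_lit 516176) (nat_lit 14) (.e (nat_lit 474880) (nat_lit 0) .nil)))))) (.g (nat_lit 5) .nil .nil))) 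
(.lf (nat_lit 80677) (.g (nat_lit 1661) (.e (nat_lit 1848) (nat_lit 124) (.e (nat_lit 557107) (nat_lit 15) (.e (nat_lit 188439) (nat_lit 20) (.e (nat_lit 3271) (nat_lit 199) (.e (nat_lit 548898) (nat_lit 14) (.e (nat_lit 2998) (nat_lit 186) (.e (nat_lit 450304) (nat_lit 0) .nil))))))) (.g (nat_lit 6) .nil .nil)))) (.nd (nat_lit 5) 
(.lf (nat_lit 80661) (.g (nat_lit 2059) (.e (nat_lit 1848) (nat_lit 124) (.e (nat_lit 557107) (nat_lit 15) (.e (nat_lit 196352) (nat_lit 0) (.e (nat_lit 1853) (nat_lit 124) (.e (nat_lit 557109) (nat_lit 15) (.e (nat_lit 196352) (nat_lit 0) .nil)))))) (.g (nat_lit 5) .nil .nil))) 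
(.lf (nat_lit 80693) (.g (nat_lit 2077) (.e (nat_lit 1848) (nat_lit 124) (.e (nat_lit 557107) (nat_lit 15) (.e (nat_lit 188439) (nat_lit 20) (.e (nat_lit 3272) (nat_lit 199) (.e (nat_lit 548898) (nat_lit 14) (.e (nat_lit 2998) (nat_lit 186) (.e (nat_lit 450304) (nat_lit 0) .nil))))))) (.g (nat_lit 6) .nil .nil))))) (.nd (nat_lit 4) (.nd (nat_lit 5) 
(.lf (nat_lit 80653) (.g (nat_lit 2431) (.e (nat_lit 1848) (nat_lit 124) (.e (nat_lit 557106) (nat_lit 15) (.e (nat_lit 188452) (nat_lit 23) (.e (nat_lit 204885) (nat_lit 33) .nil)))) .nil)) 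
(.lf (nat_lit 80685) (.g (nat_lit 1332) (.e (nat_lit 1848) (nat_lit 124) (.e (nat_lit 557107) (nat_lit 15) (.e (nat_lit 188439) (nat_lit 20) (.e (nat_lit 3272) (nat_lit 199) (.e (nat_lit 548896) (nat_lit 14) (.e (nat_lit 3005) (nat_lit 186) (.e (nat_lit 450304) (nat_lit 0) .nil))))))) (.g (nat_lit 5) .nil .nil)))) (.nd (nat_lit 5) 
(.lf (nat_lit 80669) (.g (nat_lit 1664) (.e (nat_lit 1848) (nat_lit 124) (.e (nat_lit 557107) (nat_lit 15) (.e (nat_lit 188439) (nat_lit 20) (.e (nat_lit 3270) (nat_lit 199) (.e (nat_lit 548898) (nat_lit 14) (.e (nat_lit 2988) (nat_lit 186) (.e (nat_lit 450304) (nat_lit 0) .nil))))))) (.g (nat_lit 6) .nil .nil))) 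
(.lf (nat_lit 80701) (.g (nat_lit 1175) (.e (nat_lit 1848) (nat_lit 124) (.e (nat_lit 557107) (nat_lit 15) (.e (nat_lit 188440) (nat_lit 20) (.e (nat_lit 3271) (nat_lit 199) .nil)))) .nil)))))) (.nd (nat_lit 2) (.nd (nat_lit 3) (.nd (nat_lit 4) (.nd (nat_lit 5) 
(.lf (nat_lit 80643) (.g (nat_lit 1429) (.e (nat_lit 1848) (nat_lit 124) (.e (nat_lit 557104) (nat_lit 14) (.e (nat_lit 188160) (nat_lit 35) (.e (nat_lit 57464) (nat_lit 23) (.e (nat_lit 516174) (nat_lit 14) (.e (nat_lit 474880) (nat_lit 0) .nil)))))) (.g (nat_lit 5) .nil .nil))) 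
(.lf (nat_lit 80675) (.g (nat_lit 1649) (.e (nat_lit 1848) (nat_lit 124) (.e (nat_lit 557107) (nat_lit 15) (.e (nat_lit 188439) (nat_lit 20) (.e (nat_lit 3271) (nat_lit 199) (.e (nat_lit 548898) (nat_lit 14) (.e (nat_lit 2988) (nat_lit 186) (.e (nat_lit 450304) (nat_lit 0) .nil))))))) (.g (nat_lit 6) .nil .nil)))) (.nd (nat_lit 5) 
(.lf (nat_lit 80659) (.g (nat_lit 2283) (.e (nat_lit 1848) (nat_lit 124) (.e (nat_lit 557107) (nat_lit 15) (.e (nat_lit 188420) (nat_lit 0) (.e (nat_lit 1856) (nat_lit 124) (.e (nat_lit 557109) (nat_lit 15) (.e (nat_lit 196352) (nat_lit 0) .nil)))))) (.g (nat_lit 5) .nil .nil))) 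
(.lf (nat_lit 80691) (.g (nat_lit 2077) (.e (nat_lit 1848) (nat_lit 124) (.e (nat_lit 557107) (nat_lit 15) (.e (nat_lit 188439) (nat_lit 20) (.e (nat_lit 3272) (nat_lit 199) (.e (nat_lit 548898) (nat_lit 14) (.e (nat_lit 2988) (nat_lit 186) (.e (nat_lit 450304) (nat_lit 0) .nil))))))) (.g (nat_lit 6) .nil .nil))))) (.nd (nat_lit 4) (.nd (nat_lit 5) 
(.lf (nat_lit 80651) (.g (nat_lit 2704) (.e (nat_lit 1848) (nat_lit 124) (.e (nat_lit 557106) (nat_lit 15) (.e (nat_lit 188452) (nat_lit 23) (.e (nat_lit 204816) (nat_lit 17) .nil)))) .nil)) 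
(.lf (nat_lit 80683) (.g (nat_lit 1554) (.e (nat_lit 1848) (nat_lit 124) (.e (nat_lit 557107) (nat_lit 15) (.e (nat_lit 188439) (nat_lit 20) (.e (nat_lit 3272) (nat_lit 199) (.e (nat_lit 548896) (nat_lit 14) (.e (nat_lit 2998) (nat_lit 186) (.e (nat_lit 450304) (nat_lit 0) .nil))))))) (.g (nat_lit 5) .nil .nil)))) (.nd (nat_lit 5) 
(.lf (nat_lit 80667) (.g (nat_lit 1359) (.e (nat_lit 1848) (nat_lit 124) (.e (nat_lit 557107) (nat_lit 15) (.e (nat_lit 196352) (nat_lit 0) (.e (nat_lit 1860) (nat_lit 124) (.e (nat_lit 557109) (nat_lit 15) (.e (nat_lit 196352) (nat_lit 0) .nil)))))) (.g (nat_lit 4) .nil .nil))) 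
(.lf (nat_lit 80699) (.g (nat_lit 1992) (.e (nat_lit 1848) (nat_lit 124) (.e (nat_lit 557107) (nat_lit 15) (.e (nat_lit 188439) (nat_lit 20) (.e (nat_lit 3272) (nat_lit 199) (.e (nat_lit 548915) (nat_lit 20) (.e (nat_lit 196352) (nat_lit 0) .nil)))))) (.g (nat_lit 5) .nil .nil)))))) (.nd (nat_lit 3) (.nd (nat_lit 4) (.nd (nat_lit 5) 
(.lf (nat_lit 80647) (.g (nat_lit 1462) (.e (nat_lit 1848) (nat_lit 124) (.e (nat_lit 557104) (nat_lit 14) (.e (nat_lit 188160) (nat_lit 38) (.e (nat_lit 122936) (nat_lit 23) (.e (nat_lit 516174) (nat_lit 14) (.e (nat_lit 474880) (nat_lit 0) .nil)))))) (.g (nat_lit 5) .nil .nil))) 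
(.lf (nat_lit 80679) (.g (nat_lit 1748) (.e (nat_lit 1848) (nat_lit 124) (.e (nat_lit 557107) (nat_lit 15) (.e (nat_lit 188439) (nat_lit 20) (.e (nat_lit 3271) (nat_lit 199) (.e (nat_lit 548898) (nat_lit 14) (.e (nat_lit 3004) (nat_lit 186) (.e (nat_lit 450304) (nat_lit 0) .nil))))))) (.g (nat_lit 6) .nil .nil)))) (.nd (nat_lit 5) 
(.lf (nat_lit 80663) (.g (nat_lit 2166) (.e (nat_lit 1848) (nat_lit 124) (.e (nat_lit 557107) (nat_lit 15) (.e (nat_lit 196352) (nat_lit 0) (.e (nat_lit 1855) (nat_lit 124) (.e (nat_lit 557109) (nat_lit 15) (.e (nat_lit 196352) (nat_lit 0) .nil)))))) (.g (nat_lit 5) .nil .nil))) 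
(.lf (nat_lit 80695) (.g (nat_lit 2102) (.e (nat_lit 1848) (nat_lit 124) (.e (nat_lit 557107) (nat_lit 15) (.e (nat_lit 188439) (nat_lit 20) (.e (nat_lit 3272) (nat_lit 199) (.e (nat_lit 548898) (nat_lit 14) (.e (nat_lit 3004) (nat_lit 186) (.e (nat_lit 450304) (nat_lit 0) .nil))))))) (.g (nat_lit 6) .nil .nil))))) (.nd (nat_lit 4) (.nd (nat_lit 5) 
(.lf (nat_lit 80655) (.g (nat_lit 376) (.e (nat_lit 1848) (nat_lit 124) (.e (nat_lit 557107) (nat_lit 15) (.e (nat_lit 188420) (nat_lit 0) .nil))) .nil)) 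
(.lf (nat_lit 80687) (.g (nat_lit 1498) (.e (nat_lit 1848) (nat_lit 124) (.e (nat_lit 557107) (nat_lit 15) (.e (nat_lit 188439) (nat_lit 20) (.e (nat_lit 3272) (nat_lit 199) (.e (nat_lit 548897) (nat_lit 14) (.e (nat_lit 2998) (nat_lit 186) (.e (nat_lit 450304) (nat_lit 0) .nil))))))) (.g (nat_lit 5) .nil .nil)))) (.nd (nat_lit 5) 
(.lf (nat_lit 80671) (.g (nat_lit 2103) (.e (nat_lit 1848) (nat_lit 124) (.e (nat_lit 557107) (nat_lit 15) (.e (nat_lit 188439) (nat_lit 20) (.e (nat_lit 3270) (nat_lit 199) (.e (nat_lit 548898) (nat_lit 14) (.e (nat_lit 2999) (nat_lit 186) (.e (nat_lit 450304) (nat_lit 0) .nil))))))) (.g (nat_lit 6) .nil .nil))) 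
(.lf (nat_lit 80703) (.g (nat_lit 1680) (.e (nat_lit 1848) (nat_lit 124) (.e (nat_lit 557107) (nat_lit 15) (.e (nat_lit 188440) (nat_lit 20) (.e (nat_lit 3271) (nat_lit 199) (.e (nat_lit 548915) (nat_lit 20) (.e (nat_lit 196352) (nat_lit 0) .nil)))))) (.g (nat_lit 4) .nil .nil)))))))))

noncomputable def tv1092 : DT := (.nd (nat_lit 0) (.nd (nat_lit 1) (.nd (nat_lit 2) (.nd (nat_lit 3) (.nd (nat_lit 4) (.nd (nat_lit 5) 
(.lf (nat_lit 80704) (.g (nat_lit 1912) (.e (nat_lit 1848) (nat_lit 124) (.e (nat_lit 557107) (nat_lit 15) (.e (nat_lit 188440) (nat_lit 20) (.e (nat_lit 3272) (nat_lit 199) (.e (nat_lit 548898) (nat_lit 14) (.e (nat_lit 2988) (nat_lit 186) (.e (nat_lit 450304) (nat_lit 0) .nil))))))) (.g (nat_lit 4) .nil .nil))) 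
(.lf (nat_lit 80736) (.g (nat_lit 1555) (.e (nat_lit 1848) (nat_lit 124) (.e (nat_lit 557107) (nat_lit 15) (.e (nat_lit 188450) (nat_lit 23) (.e (nat_lit 204821) (nat_lit 17) (.e (nat_lit 6149) (nat_lit 332) .nil))))) .nil))) (.nd (nat_lit 5) 
(.lf (nat_lit 80720) (.g (nat_lit 2720) (.e (nat_lit 1848) (nat_lit 124) (.e (nat_lit 557107) (nat_lit 15) (.e (nat_lit 188447) (nat_lit 22) (.e (nat_lit 196630) (nat_lit 9) (.e (nat_lit 1669) (nat_lit 116) (.e (nat_lit 401436) (nat_lit 9) (.e (nat_lit 426402) (nat_lit 15) .nil))))))) (.g (nat_lit 5) .nil .nil))) 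
(.lf (nat_lit 80752) (.g (nat_lit 2319) (.e (nat_lit 1848) (nat_lit 124) (.e (nat_lit 557107) (nat_lit 15) (.e (nat_lit 188450) (nat_lit 23) (.e (nat_lit 204846) (nat_lit 24) (.e (nat_lit 319539) (nat_lit 19) (.e (nat_lit 311348) (nat_lit 15) .nil)))))) (.g (nat_lit 6) .nil .nil))))) (.nd (nat_lit 4) (.nd (nat_lit 5) 
(.lf (nat_lit 80712) (.g (nat_lit 1615) (.e (nat_lit 1848) (nat_lit 124) (.e (nat_lit 557107) (nat_lit 15) (.e (nat_lit 188441) (nat_lit 20) (.e (nat_lit 3272) (nat_lit 199) (.e (nat_lit 548897) (nat_lit 14) (.e (nat_lit 2988) (nat_lit 186) (.e (nat_lit 450304) (nat_lit 0) .nil))))))) (.g (nat_lit 4) .nil .nil))) 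
(.lf (nat_lit 80744) (.g (nat_lit 2927) (.e (nat_lit 1848) (nat_lit 124) (.e (nat_lit 557107) (nat_lit 15) (.e (nat_lit 188450) (nat_lit 23) (.e (nat_lit 204821) (nat_lit 17) (.e (nat_lit 6676) (nat_lit 357) (.e (nat_lit 2856) (nat_lit 184) (.e (nat_lit 426402) (nat_lit 15) .nil))))))) (.g (nat_lit 7) .nil .nil)))) (.nd (nat_lit 5) 
(.lf (nat_lit 80728) (.g (nat_lit 2046) (.e (nat_lit 1848) (nat_lit 124) (.e (nat_lit 557107) (nat_lit 15) (.e (nat_lit 188450) (nat_lit 23) (.e (nat_lit 204816) (nat_lit 17) (.e (nat_lit 6718) (nat_lit 361) (.e (nat_lit 179968) (nat_lit 15) .nil)))))) (.g (nat_lit 5) .nil .nil))) 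
(.lf (nat_lit 80760) (.g (nat_lit 2243) (.e (nat_lit 1848) (nat_lit 124) (.e (nat_lit 557107) (nat_lit 15) (.e (nat_lit 188450) (nat_lit 23) (.e (nat_lit 204852) (nat_lit 26) (.e (nat_lit 336261) (nat_lit 15) (.e (nat_lit 3749) (nat_lit 228) (.e (nat_lit 786447) (nat_lit 15) .nil))))))) (.g (nat_lit 4) .nil .nil)))))) (.nd (nat_lit 3) (.nd (nat_lit 4) (.nd (nat_lit 5) 
(.lf (nat_lit 80708) (.g (nat_lit 2386) (.e (nat_lit 1848) (nat_lit 124) (.e (nat_lit 557107) (nat_lit 15) (.e (nat_lit 188440) (nat_lit 20) (.e (nat_lit 3307) (nat_lit 202) (.e (nat_lit 573456) (nat_lit 9) .nil))))) .nil)) 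
(.lf (nat_lit 80740) (.g (nat_lit 1870) (.e (nat_lit 1848) (nat_lit 124) (.e (nat_lit 557107) (nat_lit 15) (.e (nat_lit 188450) (nat_lit 23) (.e (nat_lit 204821) (nat_lit 17) (.e (nat_lit 6674) (nat_lit 357) (.e (nat_lit 2940) (nat_lit 184) (.e (nat_lit 426401) (nat_lit 15) .nil))))))) (.g (nat_lit 4) .nil .nil)))) (.nd (nat_lit 5) 
(.lf (nat_lit 80724) (.g (nat_lit 2602) (.e (nat_lit 1848) (nat_lit 124) (.e (nat_lit 557107) (nat_lit 15) (.e (nat_lit 188447) (nat_lit 22) (.e (nat_lit 196661) (nat_lit 12) (.e (nat_lit 57714) (nat_lit 176) (.e (nat_lit 1386) (nat_lit 105) (.e (nat_lit 311348) (nat_lit 15) .nil))))))) (.g (nat_lit 0) .nil .nil))) 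
(.lf (nat_lit 80756) (.g (nat_lit 2251) (.e (nat_lit 1848) (nat_lit 124) (.e (nat_lit 557107) (nat_lit 15) (.e (nat_lit 188450) (nat_lit 23) (.e (nat_lit 204852) (nat_lit 26) (.e (nat_lit 336258) (nat_lit 15) (.e (nat_lit 3744) (nat_lit 228) (.e (nat_lit 786447) (nat_lit 15) .nil))))))) (.g (nat_lit 4) .nil .nil))))) (.nd (nat_lit 4) (.nd (nat_lit 5) 
(.lf (nat_lit 80716) (.g (nat_lit 1897) (.e (nat_lit 1848) (nat_lit 124) (.e (nat_lit 557107) (nat_lit 15) (.e (nat_lit 188441) (nat_lit 20) (.e (nat_lit 3272) (nat_lit 199) (.e (nat_lit 548898) (nat_lit 14) (.e (nat_lit 2998) (nat_lit 186) (.e (nat_lit 450304) (nat_lit 0) .nil))))))) (.g (nat_lit 4) .nil .nil))) 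
(.lf (nat_lit 80748) (.g (nat_lit 2709) (.e (nat_lit 1848) (nat_lit 124) (.e (nat_lit 557107) (nat_lit 15) (.e (nat_lit 188450) (nat_lit 23) (.e (nat_lit 204821) (nat_lit 17) (.e (nat_lit 6680) (nat_lit 357) (.e (nat_lit 2857) (nat_lit 184) (.e (nat_lit 426402) (nat_lit 15) .nil))))))) (.g (nat_lit 0) .nil .nil)))) (.nd (nat_lit 5) 
(.lf (nat_lit 80732) (.g (nat_lit 1800) (.e (nat_lit 1848) (nat_lit 124) (.e (nat_lit 557107) (nat_lit 15) (.e (nat_lit 188450) (nat_lit 23) (.e (nat_lit 204819) (nat_lit 17) (.e (nat_lit 6113) (nat_lit 332) .nil))))) .nil)) 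
(.lf (nat_lit 80764) (.g (nat_lit 3970) (.e (nat_lit 1848) (nat_lit 124) (.e (nat_lit 557107) (nat_lit 15) (.e (nat_lit 188450) (nat_lit 23) (.e (nat_lit 204880) (nat_lit 32) (.e (nat_lit 385105) (nat_lit 50) (.e (nat_lit 786447) (nat_lit 15) .nil)))))) (.g (nat_lit 5) .nil .nil))))))) (.nd (nat_lit 2) (.nd (nat_lit 3) (.nd (nat_lit 4) (.nd (nat_lit 5) 
(.lf (nat_lit 80706) (.g (nat_lit 2098) (.e (nat_lit 1848) (nat_lit 124) (.e (nat_lit 557107) (nat_lit 15) (.e (nat_lit 188440) (nat_lit 20) (.e (nat_lit 3272) (nat_lit 199) (.e (nat_lit 548898) (nat_lit 14) (.e (nat_lit 3005) (nat_lit 186) (.e (nat_lit 450304) (nat_lit 0) .nil))))))) (.g (nat_lit 4) .nil .nil))) 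
(.lf (nat_lit 80738) (.g (nat_lit 1970) (.e (nat_lit 1848) (nat_lit 124) (.e (nat_lit 557107) (nat_lit 15) (.e (nat_lit 188450) (nat_lit 23) (.e (nat_lit 204821) (nat_lit 17) (.e (nat_lit 6674) (nat_lit 357) (.e (nat_lit 2936) (nat_lit 184) (.e (nat_lit 426401) (nat_lit 15) .nil))))))) (.g (nat_lit 4) .nil .nil)))) (.nd (nat_lit 5) 
(.lf (nat_lit 80722) (.g (nat_lit 1226) (.e (nat_lit 1848) (nat_lit 124) (.e (nat_lit 557107) (nat_lit 15) (.e (nat_lit 188447) (nat_lit 22) (.e (nat_lit 196661) (nat_lit 12) .nil)))) .nil)) 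
(.lf (nat_lit 80754) (.g (nat_lit 2255) (.e (nat_lit 1848) (nat_lit 124) (.e (nat_lit 557107) (nat_lit 15) (.e (nat_lit 188450) (nat_lit 23) (.e (nat_lit 204852) (nat_lit 26) (.e (nat_lit 336257) (nat_lit 15) .nil))))) .nil)))) (.nd (nat_lit 4) (.nd (nat_lit 5) 
(.lf (nat_lit 80714) (.g (nat_lit 1643) (.e (nat_lit 1848) (nat_lit 124) (.e (nat_lit 557107) (nat_lit 15) (.e (nat_lit 188441) (nat_lit 20) (.e (nat_lit 3272) (nat_lit 199) (.e (nat_lit 548897) (nat_lit 14) (.e (nat_lit 3004) (nat_lit 186) (.e (nat_lit 450304) (nat_lit 0) .nil))))))) (.g (nat_lit 4) .nil .nil))) 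
(.lf (nat_lit 80746) (.g (nat_lit 2439) (.e (nat_lit 1848) (nat_lit 124) (.e (nat_lit 557107) (nat_lit 15) (.e (nat_lit 188450) (nat_lit 23) (.e (nat_lit 204821) (nat_lit 17) (.e (nat_lit 6680) (nat_lit 357) (.e (nat_lit 2855) (nat_lit 184) (.e (nat_lit 426402) (nat_lit 15) .nil))))))) (.g (nat_lit 0) .nil .nil)))) (.nd (nat_lit 5) 
(.lf (nat_lit 80730) (.g (nat_lit 1743) (.e (nat_lit 1848) (nat_lit 124) (.e (nat_lit 557107) (nat_lit 15) (.e (nat_lit 188450) (nat_lit 23) (.e (nat_lit 204817) (nat_lit 17) (.e (nat_lit 7936) (nat_lit 361) (.e (nat_lit 179968) (nat_lit 15) .nil)))))) (.g (nat_lit 4) .nil .nil))) 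
(.lf (nat_lit 80762) (.g (nat_lit 3254) (.e (nat_lit 1848) (nat_lit 124) (.e (nat_lit 557107) (nat_lit 15) (.e (nat_lit 188450) (nat_lit 23) (.e (nat_lit 204880) (nat_lit 32) (.e (nat_lit 385103) (nat_lit 50) (.e (nat_lit 786447) (nat_lit 15) .nil)))))) (.g (nat_lit 4) .nil .nil)))))) (.nd (nat_lit 3) (.nd (nat_lit 4) (.nd (nat_lit 5) 
(.lf (nat_lit 80710) (.g (nat_lit 2271) (.e (nat_lit 1848) (nat_lit 124) (.e (nat_lit 557107) (nat_lit 15) (.e (nat_lit 188440) (nat_lit 20) (.e (nat_lit 3307) (nat_lit 202) (.e (nat_lit 573470) (nat_lit 11) .nil))))) .nil)) 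
(.lf (nat_lit 80742) (.g (nat_lit 1841) (.e (nat_lit 1848) (nat_lit 124) (.e (nat_lit 557107) (nat_lit 15) (.e (nat_lit 188450) (nat_lit 23) (.e (nat_lit 204821) (nat_lit 17) (.e (nat_lit 6674) (nat_lit 357) (.e (nat_lit 2941) (nat_lit 184) (.e (nat_lit 426401) (nat_lit 15) .nil))))))) (.g (nat_lit 4) .nil .nil)))) (.nd (nat_lit 5) 
(.lf (nat_lit 80726) (.g (nat_lit 1909) (.e (nat_lit 1848) (nat_lit 124) (.e (nat_lit 557107) (nat_lit 15) (.e (nat_lit 188450) (nat_lit 23) (.e (nat_lit 204815) (nat_lit 17) (.e (nat_lit 6718) (nat_lit 361) (.e (nat_lit 179968) (nat_lit 15) .nil)))))) (.g (nat_lit 5) .nil .nil))) 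
(.lf (nat_lit 80758) (.g (nat_lit 3500) (.e (nat_lit 1848) (nat_lit 124) (.e (nat_lit 557107) (nat_lit 15) (.e (nat_lit 188450) (nat_lit 23) (.e (nat_lit 204852) (nat_lit 26) (.e (nat_lit 336260) (nat_lit 15) (.e (nat_lit 3733) (nat_lit 228) (.e (nat_lit 786447) (nat_lit 15) .nil))))))) (.g (nat_lit 7) .nil .nil))))) (.nd (nat_lit 4) (.nd (nat_lit 5) 
(.lf (nat_lit 80718) (.g (nat_lit 1863) (.e (nat_lit 1848) (nat_lit 124) (.e (nat_lit 557107) (nat_lit 15) (.e (nat_lit 188441) (nat_lit 20) (.e (nat_lit 3272) (nat_lit 199) (.e (nat_lit 548898) (nat_lit 14) (.e (nat_lit 3005) (nat_lit 186) (.e (nat_lit 450304) (nat_lit 0) .nil))))))) (.g (nat_lit 4) .nil .nil))) 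
(.lf (nat_lit 80750) (.g (nat_lit 2620) (.e (nat_lit 1848) (nat_lit 124) (.e (nat_lit 557107) (nat_lit 15) (.e (nat_lit 188450) (nat_lit 23) (.e (nat_lit 204845) (nat_lit 24) (.e (nat_lit 319539) (nat_lit 19) (.e (nat_lit 311348) (nat_lit 15) .nil)))))) (.g (nat_lit 0) .nil .nil)))) (.nd (nat_lit 5) 
(.lf (nat_lit 80734) (.g (nat_lit 1477) (.e (nat_lit 1848) (nat_lit 124) (.e (nat_lit 557107) (nat_lit 15) (.e (nat_lit 188450) (nat_lit 23) (.e (nat_lit 204821) (nat_lit 17) (.e (nat_lit 6114) (nat_lit 332) (.e (nat_lit 1376) (nat_lit 104) (.e (nat_lit 311040) (nat_lit 15) .nil))))))) (.g (nat_lit 4) .nil .nil))) 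
(.lf (nat_lit 80766) (.g (nat_lit 2317) (.e (nat_lit 1848) (nat_lit 124) (.e (nat_lit 557107) (nat_lit 15) (.e (nat_lit 188450) (nat_lit 23) (.e (nat_lit 204881) (nat_lit 32) (.e (nat_lit 385104) (nat_lit 50) (.e (nat_lit 786447) (nat_lit 15) .nil)))))) (.g (nat_lit 5) .nil .nil)))))))) (.nd (nat_lit 1) (.nd (nat_lit 2) (.nd (nat_lit 3) (.nd (nat_lit 4) (.nd (nat_lit 5) 
(.lf (nat_lit 80705) (.g (nat_lit 1921) (.e (nat_lit 1848) (nat_lit 124) (.e (nat_lit 557107) (nat_lit 15) (.e (nat_lit 188440) (nat_lit 20) (.e (nat_lit 3272) (nat_lit 199) (.e (nat_lit 548898) (nat_lit 14) (.e (nat_lit 3004) (nat_lit 186) (.e (nat_lit 450304) (nat_lit 0) .nil))))))) (.g (nat_lit 4) .nil .nil))) 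
(.lf (nat_lit 80737) (.g (nat_lit 1516) (.e (nat_lit 1848) (nat_lit 124) (.e (nat_lit 557107) (nat_lit 15) (.e (nat_lit 188450) (nat_lit 23) (.e (nat_lit 204821) (nat_lit 17) (.e (nat_lit 6671) (nat_lit 357) .nil))))) .nil))) (.nd (nat_lit 5) 
(.lf (nat_lit 80721) (.g (nat_lit 3558) (.e (nat_lit 1848) (nat_lit 124) (.e (nat_lit 557107) (nat_lit 15) (.e (nat_lit 188447) (nat_lit 22) (.e (nat_lit 196630) (nat_lit 9) (.e (nat_lit 1669) (nat_lit 116) (.e (nat_lit 401438) (nat_lit 9) (.e (nat_lit 426402) (nat_lit 15) .nil))))))) (.g (nat_lit 0) .nil .nil))) 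
(.lf (nat_lit 80753) (.g (nat_lit 1919) (.e (nat_lit 1848) (nat_lit 124) (.e (nat_lit 557107) (nat_lit 15) (.e (nat_lit 188450) (nat_lit 23) (.e (nat_lit 204851) (nat_lit 26) (.e (nat_lit 336260) (nat_lit 15) (.e (nat_lit 3733) (nat_lit 228) (.e (nat_lit 786447) (nat_lit 15) .nil))))))) (.g (nat_lit 4) .nil .nil))))) (.nd (nat_lit 4) (.nd (nat_lit 5) 
(.lf (nat_lit 80713) (.g (nat_lit 1647) (.e (nat_lit 1848) (nat_lit 124) (.e (nat_lit 557107) (nat_lit 15) (.e (nat_lit 188441) (nat_lit 20) (.e (nat_lit 3272) (nat_lit 199) (.e (nat_lit 548897) (nat_lit 14) (.e (nat_lit 2999) (nat_lit 186) (.e (nat_lit 450304) (nat_lit 0) .nil))))))) (.g (nat_lit 4) .nil .nil))) 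
(.lf (nat_lit 80745) (.g (nat_lit 2341) (.e (nat_lit 1848) (nat_lit 124) (.e (nat_lit 557107) (nat_lit 15) (.e (nat_lit 188450) (nat_lit 23) (.e (nat_lit 204821) (nat_lit 17) (.e (nat_lit 6680) (nat_lit 357) (.e (nat_lit 2854) (nat_lit 184) (.e (nat_lit 426402) (nat_lit 15) .nil))))))) (.g (nat_lit 0) .nil .nil)))) (.nd (nat_lit 5) 
(.lf (nat_lit 80729) (.g (nat_lit 2089) (.e (nat_lit 1848) (nat_lit 124) (.e (nat_lit 557107) (nat_lit 15) (.e (nat_lit 188450) (nat_lit 23) (.e (nat_lit 204816) (nat_lit 17) (.e (nat_lit 6720) (nat_lit 361) (.e (nat_lit 179968) (nat_lit 15) .nil)))))) (.g (nat_lit 5) .nil .nil))) 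
(.lf (nat_lit 80761) (.g (nat_lit 3604) (.e (nat_lit 1848) (nat_lit 124) (.e (nat_lit 557107) (nat_lit 15) (.e (nat_lit 188450) (nat_lit 23) (.e (nat_lit 204880) (nat_lit 32) (.e (nat_lit 385102) (nat_lit 50) (.e (nat_lit 786447) (nat_lit 15) .nil)))))) (.g (nat_lit 5) .nil .nil)))))) (.nd (nat_lit 3) (.nd (nat_lit 4) (.nd (nat_lit 5) 
(.lf (nat_lit 80709) (.g (nat_lit 3075) (.e (nat_lit 1848) (nat_lit 124) (.e (nat_lit 557107) (nat_lit 15) (.e (nat_lit 188440) (nat_lit 20) (.e (nat_lit 3307) (nat_lit 202) (.e (nat_lit 573469) (nat_lit 11) (.e (nat_lit 16438) (nat_lit 9) (.e (nat_lit 426402) (nat_lit 15) .nil))))))) (.g (nat_lit 5) .nil .nil))) 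
(.lf (nat_lit 80741) (.g (nat_lit 1959) (.e (nat_lit 1848) (nat_lit 124) (.e (nat_lit 557107) (nat_lit 15) (.e (nat_lit 188450) (nat_lit 23) (.e (nat_lit 204821) (nat_lit 17) (.e (nat_lit 6674) (nat_lit 357) (.e (nat_lit 2940) (nat_lit 184) (.e (nat_lit 433920) (nat_lit 15) .nil))))))) (.g (nat_lit 6) .nil .nil)))) (.nd (nat_lit 5) 
(.lf (nat_lit 80725) (.g (nat_lit 1787) (.e (nat_lit 1848) (nat_lit 124) (.e (nat_lit 557107) (nat_lit 15) (.e (nat_lit 188447) (nat_lit 22) (.e (nat_lit 196661) (nat_lit 12) (.e (nat_lit 65280) (nat_lit 205) (.e (nat_lit 179968) (nat_lit 15) .nil)))))) (.g (nat_lit 4) .nil .nil))) 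
(.lf (nat_lit 80757) (.g (nat_lit 2234) (.e (nat_lit 1848) (nat_lit 124) (.e (nat_lit 557107) (nat_lit 15) (.e (nat_lit 188450) (nat_lit 23) (.e (nat_lit 204852) (nat_lit 26) (.e (nat_lit 336258) (nat_lit 15) (.e (nat_lit 3753) (nat_lit 228) (.e (nat_lit 786447) (nat_lit 15) .nil))))))) (.g (nat_lit 4) .nil .nil))))) (.nd (nat_lit 4) (.nd (nat_lit 5) 
(.lf (nat_lit 80717) (.g (nat_lit 2301) (.e (nat_lit 1848) (nat_lit 124) (.e (nat_lit 557107) (nat_lit 15) (.e (nat_lit 188441) (nat_lit 20) (.e (nat_lit 3272) (nat_lit 199) (.e (nat_lit 548898) (nat_lit 14) (.e (nat_lit 2999) (nat_lit 186) (.e (nat_lit 450304) (nat_lit 0) .nil))))))) (.g (nat_lit 5) .nil .nil))) 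
(.lf (nat_lit 80749) (.g (nat_lit 1706) (.e (nat_lit 1848) (nat_lit 124) (.e (nat_lit 557107) (nat_lit 15) (.e (nat_lit 188450) (nat_lit 23) (.e (nat_lit 204821) (nat_lit 17) (.e (nat_lit 7936) (nat_lit 361) (.e (nat_lit 179968) (nat_lit 15) .nil)))))) (.g (nat_lit 4) .nil .nil)))) (.nd (nat_lit 5) 
(.lf (nat_lit 80733) (.g (nat_lit 1027) (.e (nat_lit 1848) (nat_lit 124) (.e (nat_lit 557107) (nat_lit 15) (.e (nat_lit 188450) (nat_lit 23) (.e (nat_lit 204821) (nat_lit 17) .nil)))) .nil)) 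
(.lf (nat_lit 80765) (.g (nat_lit 1842) (.e (nat_lit 1848) (nat_lit 124) (.e (nat_lit 557107) (nat_lit 15) (.e (nat_lit 188450) (nat_lit 23) (.e (nat_lit 204881) (nat_lit 32) (.e (nat_lit 385103) (nat_lit 50) (.e (nat_lit 786447) (nat_lit 15) .nil)))))) (.g (nat_lit 4) .nil .nil))))))) (.nd (nat_lit 2) (.nd (nat_lit 3) (.nd (nat_lit 4) (.nd (nat_lit 5) 
(.lf (nat_lit 80707) (.g (nat_lit 1899) (.e (nat_lit 1848) (nat_lit 124) (.e (nat_lit 557107) (nat_lit 15) (.e (nat_lit 188440) (nat_lit 20) (.e (nat_lit 3272) (nat_lit 199) (.e (nat_lit 548913) (nat_lit 18) (.e (nat_lit 172087) (nat_lit 9) (.e (nat_lit 426402) (nat_lit 15) .nil))))))) (.g (nat_lit 4) .nil .nil))) 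
(.lf (nat_lit 80739) (.g (nat_lit 1909) (.e (nat_lit 1848) (nat_lit 124) (.e (nat_lit 557107) (nat_lit 15) (.e (nat_lit 188450) (nat_lit 23) (.e (nat_lit 204821) (nat_lit 17) (.e (nat_lit 6674) (nat_lit 357) (.e (nat_lit 2939) (nat_lit 184) (.e (nat_lit 426401) (nat_lit 15) .nil))))))) (.g (nat_lit 4) .nil .nil)))) (.nd (nat_lit 5) 
(.lf (nat_lit 80723) (.g (nat_lit 1725) (.e (nat_lit 1848) (nat_lit 124) (.e (nat_lit 557107) (nat_lit 15) (.e (nat_lit 188447) (nat_lit 22) (.e (nat_lit 196661) (nat_lit 12) (.e (nat_lit 57712) (nat_lit 176) (.e (nat_lit 1378) (nat_lit 104) (.e (nat_lit 311040) (nat_lit 15) .nil))))))) (.g (nat_lit 4) .nil .nil))) 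
(.lf (nat_lit 80755) (.g (nat_lit 1969) (.e (nat_lit 1848) (nat_lit 124) (.e (nat_lit 557107) (nat_lit 15) (.e (nat_lit 188450) (nat_lit 23) (.e (nat_lit 204852) (nat_lit 26) (.e (nat_lit 336258) (nat_lit 15) .nil))))) .nil)))) (.nd (nat_lit 4) (.nd (nat_lit 5) 
(.lf (nat_lit 80715) (.g (nat_lit 1954) (.e (nat_lit 1848) (nat_lit 124) (.e (nat_lit 557107) (nat_lit 15) (.e (nat_lit 188441) (nat_lit 20) (.e (nat_lit 3272) (nat_lit 199) (.e (nat_lit 548898) (nat_lit 14) (.e (nat_lit 2988) (nat_lit 186) (.e (nat_lit 450304) (nat_lit 0) .nil))))))) (.g (nat_lit 4) .nil .nil))) 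
(.lf (nat_lit 80747) (.g (nat_lit 2920) (.e (nat_lit 1848) (nat_lit 124) (.e (nat_lit 557107) (nat_lit 15) (.e (nat_lit 188450) (nat_lit 23) (.e (nat_lit 204821) (nat_lit 17) (.e (nat_lit 6680) (nat_lit 357) (.e (nat_lit 2856) (nat_lit 184) (.e (nat_lit 426402) (nat_lit 15) .nil))))))) (.g (nat_lit 0) .nil .nil)))) (.nd (nat_lit 5) 
(.lf (nat_lit 80731) (.g (nat_lit 1142) (.e (nat_lit 1848) (nat_lit 124) (.e (nat_lit 557107) (nat_lit 15) (.e (nat_lit 188450) (nat_lit 23) (.e (nat_lit 204819) (nat_lit 17) .nil)))) .nil)) 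
(.lf (nat_lit 80763) (.g (nat_lit 3999) (.e (nat_lit 1848) (nat_lit 124) (.e (nat_lit 557107) (nat_lit 15) (.e (nat_lit 188450) (nat_lit 23) (.e (nat_lit 204880) (nat_lit 32) (.e (nat_lit 385104) (nat_lit 50) (.e (nat_lit 786447) (nat_lit 15) .nil)))))) (.g (nat_lit 6) .nil .nil)))))) (.nd (nat_lit 3) (.nd (nat_lit 4) (.nd (nat_lit 5) 
(.lf (nat_lit 80711) (.g (nat_lit 1133) (.e (nat_lit 1848) (nat_lit 124) (.e (nat_lit 557107) (nat_lit 15) (.e (nat_lit 188441) (nat_lit 20) (.e (nat_lit 3271) (nat_lit 199) .nil)))) .nil)) 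
(.lf (nat_lit 80743) (.g (nat_lit 1627) (.e (nat_lit 1848) (nat_lit 124) (.e (nat_lit 557107) (nat_lit 15) (.e (nat_lit 188450) (nat_lit 23) (.e (nat_lit 204821) (nat_lit 17) (.e (nat_lit 6676) (nat_lit 357) (.e (nat_lit 2854) (nat_lit 184) (.e (nat_lit 426402) (nat_lit 15) .nil))))))) (.g (nat_lit 4) .nil .nil)))) (.nd (nat_lit 5) 
(.lf (nat_lit 80727) (.g (nat_lit 1942) (.e (nat_lit 1848) (nat_lit 124) (.e (nat_lit 557107) (nat_lit 15) (.e (nat_lit 188450) (nat_lit 23) (.e (nat_lit 204815) (nat_lit 17) (.e (nat_lit 6720) (nat_lit 361) (.e (nat_lit 179968) (nat_lit 15) .nil)))))) (.g (nat_lit 5) .nil .nil))) 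
(.lf (nat_lit 80759) (.g (nat_lit 2096) (.e (nat_lit 1848) (nat_lit 124) (.e (nat_lit 557107) (nat_lit 15) (.e (nat_lit 188450) (nat_lit 23) (.e (nat_lit 204852) (nat_lit 26) (.e (nat_lit 336261) (nat_lit 15) .nil))))) .nil)))) (.nd (nat_lit 4) (.nd (nat_lit 5) 
(.lf (nat_lit 80719) (.g (nat_lit 2250) (.e (nat_lit 1848) (nat_lit 124) (.e (nat_lit 557107) (nat_lit 15) (.e (nat_lit 188447) (nat_lit 22) (.e (nat_lit 196628) (nat_lit 9) (.e (nat_lit 968) (nat_lit 81) (.e (nat_lit 6719) (nat_lit 361) (.e (nat_lit 179968) (nat_lit 15) .nil))))))) (.g (nat_lit 5) .nil .nil))) 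
(.lf (nat_lit 80751) (.g (nat_lit 1813) (.e (nat_lit 1848) (nat_lit 124) (.e (nat_lit 557107) (nat_lit 15) (.e (nat_lit 188450) (nat_lit 23) (.e (nat_lit 204846) (nat_lit 24) (.e (nat_lit 319538) (nat_lit 19) (.e (nat_lit 311348) (nat_lit 15) .nil)))))) (.g (nat_lit 6) .nil .nil)))) (.nd (nat_lit 5) 
(.lf (nat_lit 80735) (.g (nat_lit 2150) (.e (nat_lit 1848) (nat_lit 124) (.e (nat_lit 557107) (nat_lit 15) (.e (nat_lit 188450) (nat_lit 23) (.e (nat_lit 204821) (nat_lit 17) (.e (nat_lit 6114) (nat_lit 332) (.e (nat_lit 1378) (nat_lit 104) (.e (nat_lit 311040) (nat_lit 15) .nil))))))) (.g (nat_lit 5) .nil .nil))) 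
(.lf (nat_lit 80767) (.g (nat_lit 2400) (.e (nat_lit 1848) (nat_lit 124) (.e (nat_lit 557107) (nat_lit 15) (.e (nat_lit 188450) (nat_lit 23) (.e (nat_lit 204882) (nat_lit 32) (.e (nat_lit 385102) (nat_lit 50) (.e (nat_lit 786447) (nat_lit 15) .nil)))))) (.g (nat_lit 4) .nil .nil)))))))))

noncomputable def tv1093 : DT := (.nd (nat_lit 0) (.nd (nat_lit 1) (.nd (nat_lit 2) (.nd (nat_lit 3) (.nd (nat_lit 4) (.nd (nat_lit 5) 
(.lf (nat_lit 80768) (.g (nat_lit 2311) (.e (nat_lit 1848) (nat_lit 124) (.e (nat_lit 557107) (nat_lit 15) (.e (nat_lit 188450) (nat_lit 23) (.e (nat_lit 204882) (nat_lit 32) (.e (nat_lit 385103) (nat_lit 50) .nil))))) .nil)) 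
(.lf (nat_lit 80800) (.g (nat_lit 2331) (.e (nat_lit 1848) (nat_lit 124) (.e (nat_lit 557108) (nat_lit 15) (.e (nat_lit 188434) (nat_lit 20) (.e (nat_lit 3271) (nat_lit 199) (.e (nat_lit 548913) (nat_lit 18) (.e (nat_lit 172095) (nat_lit 9) (.e (nat_lit 433920) (nat_lit 15) .nil))))))) (.g (nat_lit 6) .nil .nil)))) (.nd (nat_lit 5) 
(.lf (nat_lit 80784) (.g (nat_lit 1408) (.e (nat_lit 1848) (nat_lit 124) (.e (nat_lit 557107) (nat_lit 15) (.e (nat_lit 188452) (nat_lit 23) (.e (nat_lit 204852) (nat_lit 26) .nil)))) .nil)) 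
(.lf (nat_lit 80816) (.g (nat_lit 2623) (.e (nat_lit 1848) (nat_lit 124) (.e (nat_lit 557108) (nat_lit 15) (.e (nat_lit 188434) (nat_lit 20) (.e (nat_lit 3272) (nat_lit 199) (.e (nat_lit 548898) (nat_lit 14) (.e (nat_lit 3005) (nat_lit 186) (.e (nat_lit 450304) (nat_lit 0) .nil))))))) (.g (nat_lit 6) .nil .nil))))) (.nd (nat_lit 4) (.nd (nat_lit 5) 
(.lf (nat_lit 80776) (.g (nat_lit 2597) (.e (nat_lit 1848) (nat_lit 124) (.e (nat_lit 557107) (nat_lit 15) (.e (nat_lit 188450) (nat_lit 23) (.e (nat_lit 204885) (nat_lit 33) (.e (nat_lit 401434) (nat_lit 9) (.e (nat_lit 426402) (nat_lit 15) .nil)))))) (.g (nat_lit 6) .nil .nil))) 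
(.lf (nat_lit 80808) (.g (nat_lit 2196) (.e (nat_lit 1848) (nat_lit 124) (.e (nat_lit 557108) (nat_lit 15) (.e (nat_lit 188434) (nat_lit 20) (.e (nat_lit 3272) (nat_lit 199) (.e (nat_lit 548897) (nat_lit 14) (.e (nat_lit 2999) (nat_lit 186) (.e (nat_lit 450304) (nat_lit 0) .nil))))))) (.g (nat_lit 6) .nil .nil)))) (.nd (nat_lit 5) 
(.lf (nat_lit 80792) (.g (nat_lit 2370) (.e (nat_lit 1848) (nat_lit 124) (.e (nat_lit 557108) (nat_lit 15) (.e (nat_lit 196352) (nat_lit 0) (.e (nat_lit 1860) (nat_lit 124) (.e (nat_lit 557109) (nat_lit 15) (.e (nat_lit 196352) (nat_lit 0) .nil)))))) (.g (nat_lit 5) .nil .nil))) 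
(.lf (nat_lit 80824) (.g (nat_lit 3179) (.e (nat_lit 1848) (nat_lit 124) (.e (nat_lit 557108) (nat_lit 15) (.e (nat_lit 188446) (nat_lit 21) (.e (nat_lit 164177) (nat_lit 154) (.e (nat_lit 57390) (nat_lit 5) (.e (nat_lit 114711) (nat_lit 21) (.e (nat_lit 57681) (nat_lit 155) (.e (nat_lit 122883) (nat_lit 0) .nil)))))))) (.g (nat_lit 5) .nil .nil)))))) 
(.nd (nat_lit 3) (.nd (nat_lit 4) (.nd (nat_lit 5) 
(.lf (nat_lit 80772) (.g (nat_lit 2407) (.e (nat_lit 1848) (nat_lit 124) (.e (nat_lit 557107) (nat_lit 15) (.e (nat_lit 188450) (nat_lit 23) (.e (nat_lit 204883) (nat_lit 33) (.e (nat_lit 401438) (nat_lit 9) (.e (nat_lit 426402) (nat_lit 15) .nil)))))) (.g (nat_lit 0) .nil .nil))) 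
(.lf (nat_lit 80804) (.g (nat_lit 2207) (.e (nat_lit 1848) (nat_lit 124) (.e (nat_lit 557108) (nat_lit 15) (.e (nat_lit 188434) (nat_lit 20) (.e (nat_lit 3272) (nat_lit 199) (.e (nat_lit 548896) (nat_lit 14) (.e (nat_lit 3004) (nat_lit 186) (.e (nat_lit 450304) (nat_lit 0) .nil))))))) (.g (nat_lit 6) .nil .nil)))) (.nd (nat_lit 5) 
(.lf (nat_lit 80788) (.g (nat_lit 2297) (.e (nat_lit 1848) (nat_lit 124) (.e (nat_lit 557107) (nat_lit 15) (.e (nat_lit 188452) (nat_lit 23) (.e (nat_lit 204885) (nat_lit 33) .nil)))) .nil)) 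
(.lf (nat_lit 80820) (.g (nat_lit 2664) (.e (nat_lit 1848) (nat_lit 124) (.e (nat_lit 557108) (nat_lit 15) (.e (nat_lit 188434) (nat_lit 20) (.e (nat_lit 3272) (nat_lit 199) (.e (nat_lit 548915) (nat_lit 20) (.e (nat_lit 196352) (nat_lit 0) .nil)))))) (.g (nat_lit 5) .nil .nil))))) (.nd (nat_lit 4) (.nd (nat_lit 5) 
(.lf (nat_lit 80780) (.g (nat_lit 1899) (.e (nat_lit 1848) (nat_lit 124) (.e (nat_lit 557107) (nat_lit 15) (.e (nat_lit 188450) (nat_lit 23) (.e (nat_lit 204885) (nat_lit 33) (.e (nat_lit 401440) (nat_lit 9) (.e (nat_lit 433920) (nat_lit 15) .nil)))))) (.g (nat_lit 5) .nil .nil))) 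
(.lf (nat_lit 80812) (.g (nat_lit 2042) (.e (nat_lit 1848) (nat_lit 124) (.e (nat_lit 557108) (nat_lit 15) (.e (nat_lit 188434) (nat_lit 20) (.e (nat_lit 3272) (nat_lit 199) (.e (nat_lit 548898) (nat_lit 14) (.e (nat_lit 2989) (nat_lit 186) (.e (nat_lit 450304) (nat_lit 0) .nil))))))) (.g (nat_lit 6) .nil .nil)))) (.nd (nat_lit 5) 
(.lf (nat_lit 80796) (.g (nat_lit 2586) (.e (nat_lit 1848) (nat_lit 124) (.e (nat_lit 557108) (nat_lit 15) (.e (nat_lit 188434) (nat_lit 20) (.e (nat_lit 3271) (nat_lit 199) (.e (nat_lit 548898) (nat_lit 14) (.e (nat_lit 2999) (nat_lit 186) (.e (nat_lit 450304) (nat_lit 0) .nil))))))) (.g (nat_lit 6) .nil .nil))) 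
(.lf (nat_lit 80828) (.g (nat_lit 2320) (.e (nat_lit 1848) (nat_lit 124) (.e (nat_lit 557108) (nat_lit 15) (.e (nat_lit 188447) (nat_lit 22) (.e (nat_lit 196630) (nat_lit 9) (.e (nat_lit 1669) (nat_lit 116) (.e (nat_lit 401438) (nat_lit 9) (.e (nat_lit 426402) (nat_lit 15) .nil))))))) (.g (nat_lit 4) .nil .nil))))))) (.nd (nat_lit 2) (.nd (nat_lit 3) (.nd (nat_lit 4) (.nd (nat_lit 5) 
(.lf (nat_lit 80770) (.g (nat_lit 2087) (.e (nat_lit 1848) (nat_lit 124) (.e (nat_lit 557107) (nat_lit 15) (.e (nat_lit 188450) (nat_lit 23) (.e (nat_lit 204883) (nat_lit 33) (.e (nat_lit 401436) (nat_lit 9) (.e (nat_lit 426402) (nat_lit 15) .nil)))))) (.g (nat_lit 0) .nil .nil))) 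
(.lf (nat_lit 80802) (.g (nat_lit 1519) (.e (nat_lit 1848) (nat_lit 124) (.e (nat_lit 557108) (nat_lit 15) (.e (nat_lit 188434) (nat_lit 20) (.e (nat_lit 3272) (nat_lit 199) (.e (nat_lit 548896) (nat_lit 14) (.e (nat_lit 2982) (nat_lit 186) (.e (nat_lit 450304) (nat_lit 0) .nil))))))) (.g (nat_lit 4) .nil .nil)))) (.nd (nat_lit 5) 
(.lf (nat_lit 80786) (.g (nat_lit 3572) (.e (nat_lit 1848) (nat_lit 124) (.e (nat_lit 557107) (nat_lit 15) (.e (nat_lit 188452) (nat_lit 23) (.e (nat_lit 204884) (nat_lit 33) (.e (nat_lit 401437) (nat_lit 9) (.e (nat_lit 426402) (nat_lit 15) .nil)))))) (.g (nat_lit 4) .nil .nil))) 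
(.lf (nat_lit 80818) (.g (nat_lit 2470) (.e (nat_lit 1848) (nat_lit 124) (.e (nat_lit 557108) (nat_lit 15) (.e (nat_lit 188434) (nat_lit 20) (.e (nat_lit 3272) (nat_lit 199) (.e (nat_lit 548913) (nat_lit 18) (.e (nat_lit 172088) (nat_lit 9) (.e (nat_lit 433920) (nat_lit 15) .nil))))))) (.g (nat_lit 5) .nil .nil))))) (.nd (nat_lit 4) (.nd (nat_lit 5) 
(.lf (nat_lit 80778) (.g (nat_lit 2544) (.e (nat_lit 1848) (nat_lit 124) (.e (nat_lit 557107) (nat_lit 15) (.e (nat_lit 188450) (nat_lit 23) (.e (nat_lit 204885) (nat_lit 33) (.e (nat_lit 401436) (nat_lit 9) (.e (nat_lit 426402) (nat_lit 15) .nil)))))) (.g (nat_lit 6) .nil .nil))) 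
(.lf (nat_lit 80810) (.g (nat_lit 1883) (.e (nat_lit 1848) (nat_lit 124) (.e (nat_lit 557108) (nat_lit 15) (.e (nat_lit 188434) (nat_lit 20) (.e (nat_lit 3272) (nat_lit 199) (.e (nat_lit 548897) (nat_lit 14) (.e (nat_lit 3005) (nat_lit 186) (.e (nat_lit 450304) (nat_lit 0) .nil))))))) (.g (nat_lit 5) .nil .nil)))) (.nd (nat_lit 5) 
(.lf (nat_lit 80794) (.g (nat_lit 1500) (.e (nat_lit 1848) (nat_lit 124) (.e (nat_lit 557108) (nat_lit 15) (.e (nat_lit 188434) (nat_lit 20) (.e (nat_lit 3271) (nat_lit 199) (.e (nat_lit 548898) (nat_lit 14) (.e (nat_lit 2989) (nat_lit 186) (.e (nat_lit 450304) (nat_lit 0) .nil))))))) (.g (nat_lit 4) .nil .nil))) 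
(.lf (nat_lit 80826) (.g (nat_lit 3460) (.e (nat_lit 1848) (nat_lit 124) (.e (nat_lit 557108) (nat_lit 15) (.e (nat_lit 188446) (nat_lit 21) (.e (nat_lit 164178) (nat_lit 154) (.e (nat_lit 57390) (nat_lit 5) (.e (nat_lit 114711) (nat_lit 21) (.e (nat_lit 57683) (nat_lit 155) (.e (nat_lit 122883) (nat_lit 0) .nil)))))))) (.g (nat_lit 5) .nil .nil)))))) 
(.nd (nat_lit 3) (.nd (nat_lit 4) (.nd (nat_lit 5) 
(.lf (nat_lit 80774) (.g (nat_lit 2809) (.e (nat_lit 1848) (nat_lit 124) (.e (nat_lit 557107) (nat_lit 15) (.e (nat_lit 188450) (nat_lit 23) (.e (nat_lit 204884) (nat_lit 33) (.e (nat_lit 401437) (nat_lit 9) (.e (nat_lit 426402) (nat_lit 15) .nil)))))) (.g (nat_lit 6) .nil .nil))) 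
(.lf (nat_lit 80806) (.g (nat_lit 2155) (.e (nat_lit 1848) (nat_lit 124) (.e (nat_lit 557108) (nat_lit 15) (.e (nat_lit 188434) (nat_lit 20) (.e (nat_lit 3272) (nat_lit 199) (.e (nat_lit 548897) (nat_lit 14) (.e (nat_lit 2988) (nat_lit 186) (.e (nat_lit 450304) (nat_lit 0) .nil))))))) (.g (nat_lit 6) .nil .nil)))) (.nd (nat_lit 5) 
(.lf (nat_lit 80790) (.g (nat_lit 3345) (.e (nat_lit 1848) (nat_lit 124) (.e (nat_lit 557107) (nat_lit 15) (.e (nat_lit 188452) (nat_lit 23) (.e (nat_lit 204885) (nat_lit 33) (.e (nat_lit 401437) (nat_lit 9) .nil))))) .nil)) 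
(.lf (nat_lit 80822) (.g (nat_lit 1418) (.e (nat_lit 1848) (nat_lit 124) (.e (nat_lit 557108) (nat_lit 15) (.e (nat_lit 188446) (nat_lit 21) (.e (nat_lit 164131) (nat_lit 134) .nil)))) .nil)))) (.nd (nat_lit 4) (.nd (nat_lit 5) 
(.lf (nat_lit 80782) (.g (nat_lit 638) (.e (nat_lit 1848) (nat_lit 124) (.e (nat_lit 557107) (nat_lit 15) (.e (nat_lit 188451) (nat_lit 23) .nil))) .nil)) 
(.lf (nat_lit 80814) (.g (nat_lit 3046) (.e (nat_lit 1848) (nat_lit 124) (.e (nat_lit 557108) (nat_lit 15) (.e (nat_lit 188434) (nat_lit 20) (.e (nat_lit 3272) (nat_lit 199) (.e (nat_lit 548898) (nat_lit 14) (.e (nat_lit 2999) (nat_lit 186) (.e (nat_lit 450304) (nat_lit 0) .nil))))))) (.g (nat_lit 6) .nil .nil)))) (.nd (nat_lit 5) 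
(.lf (nat_lit 80798) (.g (nat_lit 2183) (.e (nat_lit 1848) (nat_lit 124) (.e (nat_lit 557108) (nat_lit 15) (.e (nat_lit 188434) (nat_lit 20) (.e (nat_lit 3271) (nat_lit 199) (.e (nat_lit 548898) (nat_lit 14) (.e (nat_lit 3005) (nat_lit 186) (.e (nat_lit 450304) (nat_lit 0) .nil))))))) (.g (nat_lit 6) .nil .nil))) 
(.lf (nat_lit 80830) (.g (nat_lit 252) (.e (nat_lit 1848) (nat_lit 124) (.e (nat_lit 557108) (nat_lit 15) (.e (nat_lit 188449) (nat_lit 22) .nil))) .nil))))))) (.nd (nat_lit 1) (.nd (nat_lit 2) (.nd (nat_lit 3) (.nd (nat_lit 4) (.nd (nat_lit 5) 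
(.lf (nat_lit 80769) (.g (nat_lit 3329) (.e (nat_lit 1848) (nat_lit 124) (.e (nat_lit 557107) (nat_lit 15) (.e (nat_lit 188450) (nat_lit 23) (.e (nat_lit 204882) (nat_lit 32) (.e (nat_lit 385104) (nat_lit 50) (.e (nat_lit 786447) (nat_lit 15) .nil)))))) (.g (nat_lit 6) .nil .nil))) 
(.lf (nat_lit 80801) (.g (nat_lit 2316) (.e (nat_lit 1848) (nat_lit 124) (.e (nat_lit 557108) (nat_lit 15) (.e (nat_lit 188434) (nat_lit 20) (.e (nat_lit 3271) (nat_lit 199) (.e (nat_lit 548915) (nat_lit 20) (.e (nat_lit 196352) (nat_lit 0) .nil)))))) (.g (nat_lit 5) .nil .nil)))) (.nd (nat_lit 5) 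
(.lf (nat_lit 80785) (.g (nat_lit 3424) (.e (nat_lit 1848) (nat_lit 124) (.e (nat_lit 557107) (nat_lit 15) (.e (nat_lit 188452) (nat_lit 23) (.e (nat_lit 204884) (nat_lit 33) (.e (nat_lit 401436) (nat_lit 9) .nil))))) .nil)) 
(.lf (nat_lit 80817) (.g (nat_lit 2460) (.e (nat_lit 1848) (nat_lit 124) (.e (nat_lit 557108) (nat_lit 15) (.e (nat_lit 188434) (nat_lit 20) (.e (nat_lit 3272) (nat_lit 199) (.e (nat_lit 548913) (nat_lit 18) (.e (nat_lit 172087) (nat_lit 9) (.e (nat_lit 426399) (nat_lit 15) .nil))))))) (.g (nat_lit 5) .nil .nil))))) (.nd (nat_lit 4) (.nd (nat_lit 5) 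
(.lf (nat_lit 80777) (.g (nat_lit 2543) (.e (nat_lit 1848) (nat_lit 124) (.e (nat_lit 557107) (nat_lit 15) (.e (nat_lit 188450) (nat_lit 23) (.e (nat_lit 204885) (nat_lit 33) (.e (nat_lit 401435) (nat_lit 9) (.e (nat_lit 426402) (nat_lit 15) .nil)))))) (.g (nat_lit 0) .nil .nil))) 
(.lf (nat_lit 80809) (.g (nat_lit 2162) (.e (nat_lit 1848) (nat_lit 124) (.e (nat_lit 557108) (nat_lit 15) (.e (nat_lit 188434) (nat_lit 20) (.e (nat_lit 3272) (nat_lit 199) (.e (nat_lit 548897) (nat_lit 14) (.e (nat_lit 3004) (nat_lit 186) (.e (nat_lit 450304) (nat_lit 0) .nil))))))) (.g (nat_lit 6) .nil .nil)))) (.nd (nat_lit 5) 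
(.lf (nat_lit 80793) (.g (nat_lit 2138) (.e (nat_lit 1848) (nat_lit 124) (.e (nat_lit 557108) (nat_lit 15) (.e (nat_lit 188434) (nat_lit 20) (.e (nat_lit 3271) (nat_lit 199) (.e (nat_lit 548898) (nat_lit 14) (.e (nat_lit 2988) (nat_lit 186) (.e (nat_lit 450304) (nat_lit 0) .nil))))))) (.g (nat_lit 6) .nil .nil))) 
(.lf (nat_lit 80825) (.g (nat_lit 4245) (.e (nat_lit 1848) (nat_lit 124) (.e (nat_lit 557108) (nat_lit 15) (.e (nat_lit 188446) (nat_lit 21) (.e (nat_lit 164178) (nat_lit 154) (.e (nat_lit 57390) (nat_lit 5) (.e (nat_lit 114711) (nat_lit 21) (.e (nat_lit 57681) (nat_lit 155) (.e (nat_lit 122883) (nat_lit 0) .nil)))))))) (.g (nat_lit 6) .nil .nil)))))) 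
(.nd (nat_lit 3) (.nd (nat_lit 4) (.nd (nat_lit 5) 
(.lf (nat_lit 80773) (.g (nat_lit 2125) (.e (nat_lit 1848) (nat_lit 124) (.e (nat_lit 557107) (nat_lit 15) (.e (nat_lit 188450) (nat_lit 23) (.e (nat_lit 204884) (nat_lit 33) (.e (nat_lit 401436) (nat_lit 9) (.e (nat_lit 426402) (nat_lit 15) .nil)))))) (.g (nat_lit 5) .nil .nil))) 
(.lf (nat_lit 80805) (.g (nat_lit 1628) (.e (nat_lit 1848) (nat_lit 124) (.e (nat_lit 557108) (nat_lit 15) (.e (nat_lit 188434) (nat_lit 20) (.e (nat_lit 3272) (nat_lit 199) (.e (nat_lit 548896) (nat_lit 14) (.e (nat_lit 3005) (nat_lit 186) (.e (nat_lit 450304) (nat_lit 0) .nil))))))) (.g (nat_lit 4) .nil .nil)))) (.nd (nat_lit 5) 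
(.lf (nat_lit 80789) (.g (nat_lit 3518) (.e (nat_lit 1848) (nat_lit 124) (.e (nat_lit 557107) (nat_lit 15) (.e (nat_lit 188452) (nat_lit 23) (.e (nat_lit 204885) (nat_lit 33) (.e (nat_lit 401436) (nat_lit 9) .nil))))) .nil)) 
(.lf (nat_lit 80821) (.g (nat_lit 587) (.e (nat_lit 1848) (nat_lit 124) (.e (nat_lit 557108) (nat_lit 15) (.e (nat_lit 188435) (nat_lit 20) .nil))) .nil)))) (.nd (nat_lit 4) (.nd (nat_lit 5) 
(.lf (nat_lit 80781) (.g (nat_lit 2315) (.e (nat_lit 1848) (nat_lit 124) (.e (nat_lit 557107) (nat_lit 15) (.e (nat_lit 188450) (nat_lit 23) (.e (nat_lit 204885) (nat_lit 33) (.e (nat_lit 401444) (nat_lit 9) (.e (nat_lit 426401) (nat_lit 15) .nil)))))) (.g (nat_lit 5) .nil .nil))) 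
(.lf (nat_lit 80813) (.g (nat_lit 2595) (.e (nat_lit 1848) (nat_lit 124) (.e (nat_lit 557108) (nat_lit 15) (.e (nat_lit 188434) (nat_lit 20) (.e (nat_lit 3272) (nat_lit 199) (.e (nat_lit 548898) (nat_lit 14) (.e (nat_lit 2998) (nat_lit 186) (.e (nat_lit 450304) (nat_lit 0) .nil))))))) (.g (nat_lit 6) .nil .nil)))) (.nd (nat_lit 5) 
(.lf (nat_lit 80797) (.g (nat_lit 2225) (.e (nat_lit 1848) (nat_lit 124) (.e (nat_lit 557108) (nat_lit 15) (.e (nat_lit 188434) (nat_lit 20) (.e (nat_lit 3271) (nat_lit 199) (.e (nat_lit 548898) (nat_lit 14) (.e (nat_lit 3004) (nat_lit 186) (.e (nat_lit 450304) (nat_lit 0) .nil))))))) (.g (nat_lit 6) .nil .nil))) 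
(.lf (nat_lit 80829) (.g (nat_lit 1140) (.e (nat_lit 1848) (nat_lit 124) (.e (nat_lit 557108) (nat_lit 15) (.e (nat_lit 188447) (nat_lit 22) (.e (nat_lit 196661) (nat_lit 12) .nil)))) .nil)))))) (.nd (nat_lit 2) (.nd (nat_lit 3) (.nd (nat_lit 4) (.nd (nat_lit 5) 
(.lf (nat_lit 80771) (.g (nat_lit 2534) (.e (nat_lit 1848) (nat_lit 124) (.e (nat_lit 557107) (nat_lit 15) (.e (nat_lit 188450) (nat_lit 23) (.e (nat_lit 204883) (nat_lit 33) (.e (nat_lit 401437) (nat_lit 9) (.e (nat_lit 426402) (nat_lit 15) .nil)))))) (.g (nat_lit 0) .nil .nil))) 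
(.lf (nat_lit 80803) (.g (nat_lit 1850) (.e (nat_lit 1848) (nat_lit 124) (.e (nat_lit 557108) (nat_lit 15) (.e (nat_lit 188434) (nat_lit 20) (.e (nat_lit 3272) (nat_lit 199) (.e (nat_lit 548896) (nat_lit 14) (.e (nat_lit 2998) (nat_lit 186) (.e (nat_lit 450304) (nat_lit 0) .nil))))))) (.g (nat_lit 5) .nil .nil)))) (.nd (nat_lit 5) 
(.lf (nat_lit 80787) (.g (nat_lit 3216) (.e (nat_lit 1848) (nat_lit 124) (.e (nat_lit 557107) (nat_lit 15) (.e (nat_lit 188452) (nat_lit 23) (.e (nat_lit 204884) (nat_lit 33) (.e (nat_lit 401438) (nat_lit 9) (.e (nat_lit 426402) (nat_lit 15) .nil)))))) (.g (nat_lit 4) .nil .nil))) 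
(.lf (nat_lit 80819) (.g (nat_lit 3053) (.e (nat_lit 1848) (nat_lit 124) (.e (nat_lit 557108) (nat_lit 15) (.e (nat_lit 188434) (nat_lit 20) (.e (nat_lit 3272) (nat_lit 199) (.e (nat_lit 548913) (nat_lit 18) (.e (nat_lit 172095) (nat_lit 9) (.e (nat_lit 433920) (nat_lit 15) .nil))))))) (.g (nat_lit 6) .nil .nil))))) (.nd (nat_lit 4) (.nd (nat_lit 5) 
(.lf (nat_lit 80779) (.g (nat_lit 2961) (.e (nat_lit 1848) (nat_lit 124) (.e (nat_lit 557107) (nat_lit 15) (.e (nat_lit 188450) (nat_lit 23) (.e (nat_lit 204885) (nat_lit 33) (.e (nat_lit 401437) (nat_lit 9) (.e (nat_lit 426402) (nat_lit 15) .nil)))))) (.g (nat_lit 6) .nil .nil))) 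
(.lf (nat_lit 80811) (.g (nat_lit 2519) (.e (nat_lit 1848) (nat_lit 124) (.e (nat_lit 557108) (nat_lit 15) (.e (nat_lit 188434) (nat_lit 20) (.e (nat_lit 3272) (nat_lit 199) (.e (nat_lit 548898) (nat_lit 14) (.e (nat_lit 2988) (nat_lit 186) (.e (nat_lit 450304) (nat_lit 0) .nil))))))) (.g (nat_lit 6) .nil .nil)))) (.nd (nat_lit 5) 
(.lf (nat_lit 80795) (.g (nat_lit 2157) (.e (nat_lit 1848) (nat_lit 124) (.e (nat_lit 557108) (nat_lit 15) (.e (nat_lit 188434) (nat_lit 20) (.e (nat_lit 3271) (nat_lit 199) (.e (nat_lit 548898) (nat_lit 14) (.e (nat_lit 2998) (nat_lit 186) (.e (nat_lit 450304) (nat_lit 0) .nil))))))) (.g (nat_lit 6) .nil .nil))) 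
(.lf (nat_lit 80827) (.g (nat_lit 1456) (.e (nat_lit 1848) (nat_lit 124) (.e (nat_lit 557108) (nat_lit 15) (.e (nat_lit 188447) (nat_lit 22) (.e (nat_lit 196628) (nat_lit 9) .nil)))) .nil))))) (.nd (nat_lit 3) (.nd (nat_lit 4) (.nd (nat_lit 5) 
(.lf (nat_lit 80775) (.g (nat_lit 2453) (.e (nat_lit 1848) (nat_lit 124) (.e (nat_lit 557107) (nat_lit 15) (.e (nat_lit 188450) (nat_lit 23) (.e (nat_lit 204884) (nat_lit 33) (.e (nat_lit 401438) (nat_lit 9) (.e (nat_lit 426402) (nat_lit 15) .nil)))))) (.g (nat_lit 0) .nil .nil))) 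
(.lf (nat_lit 80807) (.g (nat_lit 1916) (.e (nat_lit 1848) (nat_lit 124) (.e (nat_lit 557108) (nat_lit 15) (.e (nat_lit 188434) (nat_lit 20) (.e (nat_lit 3272) (nat_lit 199) (.e (nat_lit 548897) (nat_lit 14) (.e (nat_lit 2998) (nat_lit 186) (.e (nat_lit 450304) (nat_lit 0) .nil))))))) (.g (nat_lit 5) .nil .nil)))) (.nd (nat_lit 5) 
(.lf (nat_lit 80791) (.g (nat_lit 1552) (.e (nat_lit 1848) (nat_lit 124) (.e (nat_lit 557107) (nat_lit 15) (.e (nat_lit 196352) (nat_lit 23) (.e (nat_lit 204882) (nat_lit 32) (.e (nat_lit 385104) (nat_lit 50) (.e (nat_lit 786447) (nat_lit 15) .nil)))))) (.g (nat_lit 4) .nil .nil))) 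
(.lf (nat_lit 80823) (.g (nat_lit 3098) (.e (nat_lit 1848) (nat_lit 124) (.e (nat_lit 557108) (nat_lit 15) (.e (nat_lit 188446) (nat_lit 21) (.e (nat_lit 164177) (nat_lit 154) (.e (nat_lit 57389) (nat_lit 5) (.e (nat_lit 114711) (nat_lit 21) (.e (nat_lit 57681) (nat_lit 155) (.e (nat_lit 122883) (nat_lit 0) .nil)))))))) (.g (nat_lit 5) .nil .nil))))) (.nd (nat_lit 4) (.nd (nat_lit 5) 
(.lf (nat_lit 80783) (.g (nat_lit 512) (.e (nat_lit 1848) (nat_lit 124) (.e (nat_lit 557107) (nat_lit 15) (.e (nat_lit 188452) (nat_lit 23) .nil))) .nil)) 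
(.lf (nat_lit 80815) (.g (nat_lit 2552) (.e (nat_lit 1848) (nat_lit 124) (.e (nat_lit 557108) (nat_lit 15) (.e (nat_lit 188434) (nat_lit 20) (.e (nat_lit 3272) (nat_lit 199) (.e (nat_lit 548898) (nat_lit 14) (.e (nat_lit 3004) (nat_lit 186) (.e (nat_lit 450304) (nat_lit 0) .nil))))))) (.g (nat_lit 6) .nil .nil)))) (.nd (nat_lit 5) 
(.lf (nat_lit 80799) (.g (nat_lit 1584) (.e (nat_lit 1848) (nat_lit 124) (.e (nat_lit 557108) (nat_lit 15) (.e (nat_lit 188434) (nat_lit 20) (.e (nat_lit 3271) (nat_lit 199) (.e (nat_lit 548913) (nat_lit 18) (.e (nat_lit 172088) (nat_lit 9) (.e (nat_lit 433920) (nat_lit 15) .nil))))))) (.g (nat_lit 5) .nil .nil))) 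
(.lf (nat_lit 80831) (.g (nat_lit 3125) (.e (nat_lit 1848) (nat_lit 124) (.e (nat_lit 557108) (nat_lit 15) (.e (nat_lit 188449) (nat_lit 22) (.e (nat_lit 196617) (nat_lit 9) .nil)))) .nil))))))))

noncomputable def tv1094 : DT := (.nd (nat_lit 0) (.nd (nat_lit 1) (.nd (nat_lit 2) (.nd (nat_lit 3) (.nd (nat_lit 4) (.nd (nat_lit 5) 
(.lf (nat_lit 80832) (.g (nat_lit 3875) (.e (nat_lit 1848) (nat_lit 124) (.e (nat_lit 557108) (nat_lit 15) (.e (nat_lit 188449) (nat_lit 22) (.e (nat_lit 196618) (nat_lit 9) .nil)))) .nil)) 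
(.lf (nat_lit 80864) (.g (nat_lit 1920) (.e (nat_lit 1848) (nat_lit 124) (.e (nat_lit 557108) (nat_lit 15) (.e (nat_lit 188449) (nat_lit 22) (.e (nat_lit 196661) (nat_lit 12) (.e (nat_lit 57718) (nat_lit 176) .nil))))) .nil))) (.nd (nat_lit 5) 
(.lf (nat_lit 80848) (.g (nat_lit 3095) (.e (nat_lit 1848) (nat_lit 124) (.e (nat_lit 557108) (nat_lit 15) (.e (nat_lit 188449) (nat_lit 22) (.e (nat_lit 196630) (nat_lit 9) (.e (nat_lit 1669) (nat_lit 116) (.e (nat_lit 401436) (nat_lit 9) (.e (nat_lit 426402) (nat_lit 15) .nil))))))) (.g (nat_lit 5) .nil .nil))) 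
(.lf (nat_lit 80880) (.g (nat_lit 2585) (.e (nat_lit 1848) (nat_lit 124) (.e (nat_lit 557108) (nat_lit 15) (.e (nat_lit 188452) (nat_lit 23) (.e (nat_lit 204814) (nat_lit 17) .nil)))) .nil)))) (.nd (nat_lit 4) (.nd (nat_lit 5) 
(.lf (nat_lit 80840) (.g (nat_lit 1494) (.e (nat_lit 1848) (nat_lit 124) (.e (nat_lit 557108) (nat_lit 15) (.e (nat_lit 188449) (nat_lit 22) (.e (nat_lit 196628) (nat_lit 9) .nil)))) .nil)) 
(.lf (nat_lit 80872) (.g (nat_lit 3954) (.e (nat_lit 1848) (nat_lit 124) (.e (nat_lit 557108) (nat_lit 15) (.e (nat_lit 188449) (nat_lit 22) (.e (nat_lit 196677) (nat_lit 16) .nil)))) .nil))) (.nd (nat_lit 5) 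
(.lf (nat_lit 80856) (.g (nat_lit 2835) (.e (nat_lit 1848) (nat_lit 124) (.e (nat_lit 557108) (nat_lit 15) (.e (nat_lit 188449) (nat_lit 22) (.e (nat_lit 196646) (nat_lit 9) .nil)))) .nil)) 
(.lf (nat_lit 80888) (.g (nat_lit 3719) (.e (nat_lit 1848) (nat_lit 124) (.e (nat_lit 557108) (nat_lit 15) (.e (nat_lit 188452) (nat_lit 23) (.e (nat_lit 204818) (nat_lit 17) .nil)))) .nil))))) (.nd (nat_lit 3) (.nd (nat_lit 4) (.nd (nat_lit 5) 
(.lf (nat_lit 80836) (.g (nat_lit 3967) (.e (nat_lit 1848) (nat_lit 124) (.e (nat_lit 557108) (nat_lit 15) (.e (nat_lit 188449) (nat_lit 22) (.e (nat_lit 196623) (nat_lit 9) .nil)))) .nil)) 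
(.lf (nat_lit 80868) (.g (nat_lit 2205) (.e (nat_lit 1848) (nat_lit 124) (.e (nat_lit 557108) (nat_lit 15) (.e (nat_lit 188449) (nat_lit 22) (.e (nat_lit 196666) (nat_lit 13) (.e (nat_lit 65572) (nat_lit 4) .nil))))) .nil))) (.nd (nat_lit 5) 
(.lf (nat_lit 80852) (.g (nat_lit 4090) (.e (nat_lit 1848) (nat_lit 124) (.e (nat_lit 557108) (nat_lit 15) (.e (nat_lit 188449) (nat_lit 22) (.e (nat_lit 196638) (nat_lit 9) .nil)))) .nil)) 
(.lf (nat_lit 80884) (.g (nat_lit 3482) (.e (nat_lit 1848) (nat_lit 124) (.e (nat_lit 557108) (nat_lit 15) (.e (nat_lit 188452) (nat_lit 23) (.e (nat_lit 204816) (nat_lit 17) (.e (nat_lit 6718) (nat_lit 361) (.e (nat_lit 179968) (nat_lit 15) .nil)))))) (.g (nat_lit 5) .nil .nil))))) (.nd (nat_lit 4) (.nd (nat_lit 5) 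
(.lf (nat_lit 80844) (.g (nat_lit 2661) (.e (nat_lit 1848) (nat_lit 124) (.e (nat_lit 557108) (nat_lit 15) (.e (nat_lit 188449) (nat_lit 22) (.e (nat_lit 196628) (nat_lit 9) (.e (nat_lit 970) (nat_lit 81) (.e (nat_lit 6719) (nat_lit 361) (.e (nat_lit 179968) (nat_lit 15) .nil))))))) (.g (nat_lit 6) .nil .nil))) 
(.lf (nat_lit 80876) (.g (nat_lit 3531) (.e (nat_lit 1848) (nat_lit 124) (.e (nat_lit 557108) (nat_lit 15) (.e (nat_lit 188449) (nat_lit 22) (.e (nat_lit 196700) (nat_lit 22) .nil)))) .nil))) (.nd (nat_lit 5) 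
(.lf (nat_lit 80860) (.g (nat_lit 1075) (.e (nat_lit 1848) (nat_lit 124) (.e (nat_lit 557108) (nat_lit 15) (.e (nat_lit 188449) (nat_lit 22) (.e (nat_lit 196661) (nat_lit 12) .nil)))) .nil)) 
(.lf (nat_lit 80892) (.g (nat_lit 1401) (.e (nat_lit 1848) (nat_lit 124) (.e (nat_lit 557108) (nat_lit 15) (.e (nat_lit 188452) (nat_lit 23) (.e (nat_lit 204821) (nat_lit 17) .nil)))) .nil)))))) (.nd (nat_lit 2) (.nd (nat_lit 3) (.nd (nat_lit 4) (.nd (nat_lit 5) 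
(.lf (nat_lit 80834) (.g (nat_lit 3677) (.e (nat_lit 1848) (nat_lit 124) (.e (nat_lit 557108) (nat_lit 15) (.e (nat_lit 188449) (nat_lit 22) (.e (nat_lit 196620) (nat_lit 9) .nil)))) .nil)) 
(.lf (nat_lit 80866) (.g (nat_lit 1547) (.e (nat_lit 1848) (nat_lit 124) (.e (nat_lit 557108) (nat_lit 15) (.e (nat_lit 188449) (nat_lit 22) (.e (nat_lit 196661) (nat_lit 12) (.e (nat_lit 65280) (nat_lit 208) (.e (nat_lit 245504) (nat_lit 15) .nil)))))) (.g (nat_lit 4) .nil .nil)))) (.nd (nat_lit 5) 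
(.lf (nat_lit 80850) (.g (nat_lit 3859) (.e (nat_lit 1848) (nat_lit 124) (.e (nat_lit 557108) (nat_lit 15) (.e (nat_lit 188449) (nat_lit 22) (.e (nat_lit 196632) (nat_lit 9) .nil)))) .nil)) 
(.lf (nat_lit 80882) (.g (nat_lit 2871) (.e (nat_lit 1848) (nat_lit 124) (.e (nat_lit 557108) (nat_lit 15) (.e (nat_lit 188452) (nat_lit 23) (.e (nat_lit 204815) (nat_lit 17) (.e (nat_lit 6720) (nat_lit 361) (.e (nat_lit 179968) (nat_lit 15) .nil)))))) (.g (nat_lit 5) .nil .nil))))) (.nd (nat_lit 4) (.nd (nat_lit 5) 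
(.lf (nat_lit 80842) (.g (nat_lit 2742) (.e (nat_lit 1848) (nat_lit 124) (.e (nat_lit 557108) (nat_lit 15) (.e (nat_lit 188449) (nat_lit 22) (.e (nat_lit 196628) (nat_lit 9) (.e (nat_lit 968) (nat_lit 81) (.e (nat_lit 6719) (nat_lit 361) (.e (nat_lit 179968) (nat_lit 15) .nil))))))) (.g (nat_lit 6) .nil .nil))) 
(.lf (nat_lit 80874) (.g (nat_lit 3612) (.e (nat_lit 1848) (nat_lit 124) (.e (nat_lit 557108) (nat_lit 15) (.e (nat_lit 188449) (nat_lit 22) (.e (nat_lit 196680) (nat_lit 17) .nil)))) .nil))) (.nd (nat_lit 5) 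
(.lf (nat_lit 80858) (.g (nat_lit 4116) (.e (nat_lit 1848) (nat_lit 124) (.e (nat_lit 557108) (nat_lit 15) (.e (nat_lit 188449) (nat_lit 22) (.e (nat_lit 196658) (nat_lit 12) .nil)))) .nil)) 
(.lf (nat_lit 80890) (.g (nat_lit 2682) (.e (nat_lit 1848) (nat_lit 124) (.e (nat_lit 557108) (nat_lit 15) (.e (nat_lit 188452) (nat_lit 23) (.e (nat_lit 204819) (nat_lit 17) (.e (nat_lit 6113) (nat_lit 332) (.e (nat_lit 1376) (nat_lit 104) (.e (nat_lit 311040) (nat_lit 15) .nil))))))) (.g (nat_lit 4) .nil .nil)))))) (.nd (nat_lit 3) (.nd (nat_lit 4) (.nd (nat_lit 5) 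
(.lf (nat_lit 80838) (.g (nat_lit 2866) (.e (nat_lit 1848) (nat_lit 124) (.e (nat_lit 557108) (nat_lit 15) (.e (nat_lit 188449) (nat_lit 22) (.e (nat_lit 196626) (nat_lit 9) .nil)))) .nil)) 
(.lf (nat_lit 80870) (.g (nat_lit 4116) (.e (nat_lit 1848) (nat_lit 124) (.e (nat_lit 557108) (nat_lit 15) (.e (nat_lit 188449) (nat_lit 22) (.e (nat_lit 196675) (nat_lit 16) .nil)))) .nil))) (.nd (nat_lit 5) 
(.lf (nat_lit 80854) (.g (nat_lit 3982) (.e (nat_lit 1848) (nat_lit 124) (.e (nat_lit 557108) (nat_lit 15) (.e (nat_lit 188449) (nat_lit 22) (.e (nat_lit 196643) (nat_lit 9) .nil)))) .nil)) 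
(.lf (nat_lit 80886) (.g (nat_lit 1769) (.e (nat_lit 1848) (nat_lit 124) (.e (nat_lit 557108) (nat_lit 15) (.e (nat_lit 188452) (nat_lit 23) (.e (nat_lit 204817) (nat_lit 17) .nil)))) .nil)))) (.nd (nat_lit 4) (.nd (nat_lit 5) 
(.lf (nat_lit 80846) (.g (nat_lit 2888) (.e (nat_lit 1848) (nat_lit 124) (.e (nat_lit 557108) (nat_lit 15) (.e (nat_lit 188449) (nat_lit 22) (.e (nat_lit 196630) (nat_lit 9) (.e (nat_lit 1667) (nat_lit 116) (.e (nat_lit 401437) (nat_lit 9) (.e (nat_lit 426402) (nat_lit 15) .nil))))))) (.g (nat_lit 4) .nil .nil))) 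
(.lf (nat_lit 80878) (.g (nat_lit 1173) (.e (nat_lit 1848) (nat_lit 124) (.e (nat_lit 557108) (nat_lit 15) (.e (nat_lit 188450) (nat_lit 23) (.e (nat_lit 204852) (nat_lit 26) .nil)))) .nil))) (.nd (nat_lit 5) 
(.lf (nat_lit 80862) (.g (nat_lit 1839) (.e (nat_lit 1848) (nat_lit 124) (.e (nat_lit 557108) (nat_lit 15) (.e (nat_lit 188449) (nat_lit 22) (.e (nat_lit 196661) (nat_lit 12) (.e (nat_lit 57712) (nat_lit 176) (.e (nat_lit 1378) (nat_lit 104) (.e (nat_lit 311040) (nat_lit 15) .nil))))))) (.g (nat_lit 4) .nil .nil))) 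
(.lf (nat_lit 80894) (.g (nat_lit 2810) (.e (nat_lit 1848) (nat_lit 124) (.e (nat_lit 557108) (nat_lit 15) (.e (nat_lit 188452) (nat_lit 23) (.e (nat_lit 204821) (nat_lit 17) (.e (nat_lit 6114) (nat_lit 332) (.e (nat_lit 1378) (nat_lit 104) (.e (nat_lit 311040) (nat_lit 15) .nil))))))) (.g (nat_lit 5) .nil .nil)))))))) 
(.nd (nat_lit 1) (.nd (nat_lit 2) (.nd (nat_lit 3) (.nd (nat_lit 4) (.nd (nat_lit 5) 
(.lf (nat_lit 80833) (.g (nat_lit 4090) (.e (nat_lit 1848) (nat_lit 124) (.e (nat_lit 557108) (nat_lit 15) (.e (nat_lit 188449) (nat_lit 22) (.e (nat_lit 196619) (nat_lit 9) .nil)))) .nil)) 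
(.lf (nat_lit 80865) (.g (nat_lit 1922) (.e (nat_lit 1848) (nat_lit 124) (.e (nat_lit 557108) (nat_lit 15) (.e (nat_lit 188449) (nat_lit 22) (.e (nat_lit 196661) (nat_lit 12) (.e (nat_lit 65280) (nat_lit 205) (.e (nat_lit 179968) (nat_lit 15) .nil)))))) (.g (nat_lit 4) .nil .nil)))) (.nd (nat_lit 5) 
(.lf (nat_lit 80849) (.g (nat_lit 3953) (.e (nat_lit 1848) (nat_lit 124) (.e (nat_lit 557108) (nat_lit 15) (.e (nat_lit 188449) (nat_lit 22) (.e (nat_lit 196630) (nat_lit 9) (.e (nat_lit 1669) (nat_lit 116) (.e (nat_lit 401438) (nat_lit 9) (.e (nat_lit 426402) (nat_lit 15) .nil))))))) (.g (nat_lit 0) .nil .nil))) 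
(.lf (nat_lit 80881) (.g (nat_lit 2840) (.e (nat_lit 1848) (nat_lit 124) (.e (nat_lit 557108) (nat_lit 15) (.e (nat_lit 188452) (nat_lit 23) (.e (nat_lit 204815) (nat_lit 17) (.e (nat_lit 6718) (nat_lit 361) (.e (nat_lit 179968) (nat_lit 15) .nil)))))) (.g (nat_lit 5) .nil .nil))))) (.nd (nat_lit 4) (.nd (nat_lit 5) 
(.lf (nat_lit 80841) (.g (nat_lit 1887) (.e (nat_lit 1848) (nat_lit 124) (.e (nat_lit 557108) (nat_lit 15) (.e (nat_lit 188449) (nat_lit 22) (.e (nat_lit 196628) (nat_lit 9) (.e (nat_lit 968) (nat_lit 81) .nil))))) .nil)) 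
(.lf (nat_lit 80873) (.g (nat_lit 4106) (.e (nat_lit 1848) (nat_lit 124) (.e (nat_lit 557108) (nat_lit 15) (.e (nat_lit 188449) (nat_lit 22) (.e (nat_lit 196679) (nat_lit 17) .nil)))) .nil))) (.nd (nat_lit 5) 
(.lf (nat_lit 80857) (.g (nat_lit 3497) (.e (nat_lit 1848) (nat_lit 124) (.e (nat_lit 557108) (nat_lit 15) (.e (nat_lit 188449) (nat_lit 22) (.e (nat_lit 196657) (nat_lit 12) .nil)))) .nil)) 
(.lf (nat_lit 80889) (.g (nat_lit 1707) (.e (nat_lit 1848) (nat_lit 124) (.e (nat_lit 557108) (nat_lit 15) (.e (nat_lit 188452) (nat_lit 23) (.e (nat_lit 204819) (nat_lit 17) .nil)))) .nil))))) (.nd (nat_lit 3) (.nd (nat_lit 4) (.nd (nat_lit 5) 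
(.lf (nat_lit 80837) (.g (nat_lit 2830) (.e (nat_lit 1848) (nat_lit 124) (.e (nat_lit 557108) (nat_lit 15) (.e (nat_lit 188449) (nat_lit 22) (.e (nat_lit 196624) (nat_lit 9) .nil)))) .nil)) 
(.lf (nat_lit 80869) (.g (nat_lit 2189) (.e (nat_lit 1848) (nat_lit 124) (.e (nat_lit 557108) (nat_lit 15) (.e (nat_lit 188449) (nat_lit 22) (.e (nat_lit 196666) (nat_lit 13) (.e (nat_lit 65574) (nat_lit 4) .nil))))) .nil))) (.nd (nat_lit 5) 
(.lf (nat_lit 80853) (.g (nat_lit 3456) (.e (nat_lit 1848) (nat_lit 124) (.e (nat_lit 557108) (nat_lit 15) (.e (nat_lit 188449) (nat_lit 22) (.e (nat_lit 196642) (nat_lit 9) .nil)))) .nil)) 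
(.lf (nat_lit 80885) (.g (nat_lit 3511) (.e (nat_lit 1848) (nat_lit 124) (.e (nat_lit 557108) (nat_lit 15) (.e (nat_lit 188452) (nat_lit 23) (.e (nat_lit 204816) (nat_lit 17) (.e (nat_lit 6720) (nat_lit 361) (.e (nat_lit 179968) (nat_lit 15) .nil)))))) (.g (nat_lit 5) .nil .nil))))) (.nd (nat_lit 4) (.nd (nat_lit 5) 
(.lf (nat_lit 80845) (.g (nat_lit 2444) (.e (nat_lit 1848) (nat_lit 124) (.e (nat_lit 557108) (nat_lit 15) (.e (nat_lit 188449) (nat_lit 22) (.e (nat_lit 196628) (nat_lit 9) (.e (nat_lit 1676) (nat_lit 116) (.e (nat_lit 401437) (nat_lit 9) (.e (nat_lit 426402) (nat_lit 15) .nil))))))) (.g (nat_lit 4) .nil .nil))) 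
(.lf (nat_lit 80877) (.g (nat_lit 658) (.e (nat_lit 1848) (nat_lit 124) (.e (nat_lit 557108) (nat_lit 15) (.e (nat_lit 188449) (nat_lit 22) (.e (nat_lit 204544) (nat_lit 22) .nil)))) .nil))) (.nd (nat_lit 5) 
(.lf (nat_lit 80861) (.g (nat_lit 1522) (.e (nat_lit 1848) (nat_lit 124) (.e (nat_lit 557108) (nat_lit 15) (.e (nat_lit 188449) (nat_lit 22) (.e (nat_lit 196661) (nat_lit 12) (.e (nat_lit 57712) (nat_lit 176) .nil))))) .nil)) 
(.lf (nat_lit 80893) (.g (nat_lit 2141) (.e (nat_lit 1848) (nat_lit 124) (.e (nat_lit 557108) (nat_lit 15) (.e (nat_lit 188452) (nat_lit 23) (.e (nat_lit 204821) (nat_lit 17) (.e (nat_lit 6114) (nat_lit 332) (.e (nat_lit 1376) (nat_lit 104) (.e (nat_lit 311040) (nat_lit 15) .nil))))))) (.g (nat_lit 4) .nil .nil))))))) (.nd (nat_lit 2) (.nd (nat_lit 3) (.nd (nat_lit 4) (.nd (nat_lit 5) 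
(.lf (nat_lit 80835) (.g (nat_lit 3696) (.e (nat_lit 1848) (nat_lit 124) (.e (nat_lit 557108) (nat_lit 15) (.e (nat_lit 188449) (nat_lit 22) (.e (nat_lit 196622) (nat_lit 9) .nil)))) .nil)) 
(.lf (nat_lit 80867) (.g (nat_lit 3741) (.e (nat_lit 1848) (nat_lit 124) (.e (nat_lit 557108) (nat_lit 15) (.e (nat_lit 188449) (nat_lit 22) (.e (nat_lit 196663) (nat_lit 13) .nil)))) .nil))) (.nd (nat_lit 5) 
(.lf (nat_lit 80851) (.g (nat_lit 2838) (.e (nat_lit 1848) (nat_lit 124) (.e (nat_lit 557108) (nat_lit 15) (.e (nat_lit 188449) (nat_lit 22) (.e (nat_lit 196637) (nat_lit 9) .nil)))) .nil)) 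
(.lf (nat_lit 80883) (.g (nat_lit 1973) (.e (nat_lit 1848) (nat_lit 124) (.e (nat_lit 557108) (nat_lit 15) (.e (nat_lit 188452) (nat_lit 23) (.e (nat_lit 204816) (nat_lit 17) .nil)))) .nil)))) (.nd (nat_lit 4) (.nd (nat_lit 5) 
(.lf (nat_lit 80843) (.g (nat_lit 1952) (.e (nat_lit 1848) (nat_lit 124) (.e (nat_lit 557108) (nat_lit 15) (.e (nat_lit 188449) (nat_lit 22) (.e (nat_lit 196628) (nat_lit 9) (.e (nat_lit 970) (nat_lit 81) (.e (nat_lit 6717) (nat_lit 361) (.e (nat_lit 179968) (nat_lit 15) .nil))))))) (.g (nat_lit 4) .nil .nil))) 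
(.lf (nat_lit 80875) (.g (nat_lit 3012) (.e (nat_lit 1848) (nat_lit 124) (.e (nat_lit 557108) (nat_lit 15) (.e (nat_lit 188449) (nat_lit 22) (.e (nat_lit 196687) (nat_lit 18) .nil)))) .nil))) (.nd (nat_lit 5) 
(.lf (nat_lit 80859) (.g (nat_lit 4116) (.e (nat_lit 1848) (nat_lit 124) (.e (nat_lit 557108) (nat_lit 15) (.e (nat_lit 188449) (nat_lit 22) (.e (nat_lit 196660) (nat_lit 12) .nil)))) .nil)) 
(.lf (nat_lit 80891) (.g (nat_lit 2298) (.e (nat_lit 1848) (nat_lit 124) (.e (nat_lit 557108) (nat_lit 15) (.e (nat_lit 188452) (nat_lit 23) (.e (nat_lit 204819) (nat_lit 17) (.e (nat_lit 7936) (nat_lit 361) (.e (nat_lit 179968) (nat_lit 15) .nil)))))) (.g (nat_lit 4) .nil .nil)))))) (.nd (nat_lit 3) (.nd (nat_lit 4) (.nd (nat_lit 5) 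
(.lf (nat_lit 80839) (.g (nat_lit 4098) (.e (nat_lit 1848) (nat_lit 124) (.e (nat_lit 557108) (nat_lit 15) (.e (nat_lit 188449) (nat_lit 22) (.e (nat_lit 196627) (nat_lit 9) .nil)))) .nil)) 
(.lf (nat_lit 80871) (.g (nat_lit 4116) (.e (nat_lit 1848) (nat_lit 124) (.e (nat_lit 557108) (nat_lit 15) (.e (nat_lit 188449) (nat_lit 22) (.e (nat_lit 196676) (nat_lit 16) .nil)))) .nil))) (.nd (nat_lit 5) 
(.lf (nat_lit 80855) (.g (nat_lit 3758) (.e (nat_lit 1848) (nat_lit 124) (.e (nat_lit 557108) (nat_lit 15) (.e (nat_lit 188449) (nat_lit 22) (.e (nat_lit 196645) (nat_lit 9) .nil)))) .nil)) 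
(.lf (nat_lit 80887) (.g (nat_lit 2606) (.e (nat_lit 1848) (nat_lit 124) (.e (nat_lit 557108) (nat_lit 15) (.e (nat_lit 188452) (nat_lit 23) (.e (nat_lit 204817) (nat_lit 17) (.e (nat_lit 7936) (nat_lit 361) (.e (nat_lit 179968) (nat_lit 15) .nil)))))) (.g (nat_lit 4) .nil .nil))))) (.nd (nat_lit 4) (.nd (nat_lit 5) 
(.lf (nat_lit 80847) (.g (nat_lit 2346) (.e (nat_lit 1848) (nat_lit 124) (.e (nat_lit 557108) (nat_lit 15) (.e (nat_lit 188449) (nat_lit 22) (.e (nat_lit 196630) (nat_lit 9) (.e (nat_lit 1667) (nat_lit 116) (.e (nat_lit 401438) (nat_lit 9) (.e (nat_lit 426402) (nat_lit 15) .nil))))))) (.g (nat_lit 4) .nil .nil))) 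
(.lf (nat_lit 80879) (.g (nat_lit 217) (.e (nat_lit 1848) (nat_lit 124) (.e (nat_lit 557108) (nat_lit 15) (.e (nat_lit 188452) (nat_lit 23) .nil))) .nil))) (.nd (nat_lit 5) 
(.lf (nat_lit 80863) (.g (nat_lit 2777) (.e (nat_lit 1848) (nat_lit 124) (.e (nat_lit 557108) (nat_lit 15) (.e (nat_lit 188449) (nat_lit 22) (.e (nat_lit 196661) (nat_lit 12) (.e (nat_lit 57714) (nat_lit 176) (.e (nat_lit 1386) (nat_lit 105) (.e (nat_lit 311348) (nat_lit 15) .nil))))))) (.g (nat_lit 0) .nil .nil))) 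
(.lf (nat_lit 80895) (.g (nat_lit 2362) (.e (nat_lit 1848) (nat_lit 124) (.e (nat_lit 557108) (nat_lit 15) (.e (nat_lit 188452) (nat_lit 23) (.e (nat_lit 204821) (nat_lit 17) (.e (nat_lit 6149) (nat_lit 332) (.e (nat_lit 1385) (nat_lit 105) (.e (nat_lit 311348) (nat_lit 15) .nil))))))) (.g (nat_lit 4) .nil .nil)))))))))

noncomputable def tv1095 : DT := (.nd (nat_lit 0) (.nd (nat_lit 1) (.nd (nat_lit 2) (.nd (nat_lit 3) (.nd (nat_lit 4) (.nd (nat_lit 5) 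
(.lf (nat_lit 80896) (.g (nat_lit 2548) (.e (nat_lit 1848) (nat_lit 124) (.e (nat_lit 557108) (nat_lit 15) (.e (nat_lit 188452) (nat_lit 23) (.e (nat_lit 204821) (nat_lit 17) (.e (nat_lit 6149) (nat_lit 332) (.e (nat_lit 1386) (nat_lit 105) (.e (nat_lit 311348) (nat_lit 15) .nil))))))) (.g (nat_lit 4) .nil .nil))) 
(.lf (nat_lit 80928) (.g (nat_lit 3322) (.e (nat_lit 1848) (nat_lit 124) (.e (nat_lit 557108) (nat_lit 15) (.e (nat_lit 188452) (nat_lit 23) (.e (nat_lit 204848) (nat_lit 25) .nil)))) .nil))) (.nd (nat_lit 5) 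
(.lf (nat_lit 80912) (.g (nat_lit 2006) (.e (nat_lit 1848) (nat_lit 124) (.e (nat_lit 557108) (nat_lit 15) (.e (nat_lit 188452) (nat_lit 23) (.e (nat_lit 204821) (nat_lit 17) (.e (nat_lit 7936) (nat_lit 364) (.e (nat_lit 245504) (nat_lit 15) .nil)))))) (.g (nat_lit 4) .nil .nil))) 
(.lf (nat_lit 80944) (.g (nat_lit 3358) (.e (nat_lit 1848) (nat_lit 124) (.e (nat_lit 557108) (nat_lit 15) (.e (nat_lit 188452) (nat_lit 23) (.e (nat_lit 204852) (nat_lit 26) (.e (nat_lit 336261) (nat_lit 15) (.e (nat_lit 3749) (nat_lit 228) (.e (nat_lit 786447) (nat_lit 15) .nil))))))) (.g (nat_lit 4) .nil .nil))))) (.nd (nat_lit 4) (.nd (nat_lit 5) 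
(.lf (nat_lit 80904) (.g (nat_lit 2658) (.e (nat_lit 1848) (nat_lit 124) (.e (nat_lit 557108) (nat_lit 15) (.e (nat_lit 188452) (nat_lit 23) (.e (nat_lit 204821) (nat_lit 17) (.e (nat_lit 6676) (nat_lit 357) (.e (nat_lit 2855) (nat_lit 184) (.e (nat_lit 426402) (nat_lit 15) .nil))))))) (.g (nat_lit 5) .nil .nil))) 
(.lf (nat_lit 80936) (.g (nat_lit 3056) (.e (nat_lit 1848) (nat_lit 124) (.e (nat_lit 557108) (nat_lit 15) (.e (nat_lit 188452) (nat_lit 23) (.e (nat_lit 204852) (nat_lit 26) (.e (nat_lit 336257) (nat_lit 15) .nil))))) .nil))) (.nd (nat_lit 5) 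
(.lf (nat_lit 80920) (.g (nat_lit 1744) (.e (nat_lit 1848) (nat_lit 124) (.e (nat_lit 557108) (nat_lit 15) (.e (nat_lit 188452) (nat_lit 23) (.e (nat_lit 204846) (nat_lit 24) (.e (nat_lit 319504) (nat_lit 10) (.e (nat_lit 7936) (nat_lit 312) (.e (nat_lit 15) (nat_lit 0) .nil))))))) (.g (nat_lit 5) .nil .nil))) 
(.lf (nat_lit 80952) (.g (nat_lit 3767) (.e (nat_lit 1848) (nat_lit 124) (.e (nat_lit 557108) (nat_lit 15) (.e (nat_lit 188452) (nat_lit 23) (.e (nat_lit 204880) (nat_lit 32) (.e (nat_lit 385105) (nat_lit 50) (.e (nat_lit 786447) (nat_lit 15) .nil)))))) (.g (nat_lit 5) .nil .nil)))))) (.nd (nat_lit 3) (.nd (nat_lit 4) (.nd (nat_lit 5) 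
(.lf (nat_lit 80900) (.g (nat_lit 2759) (.e (nat_lit 1848) (nat_lit 124) (.e (nat_lit 557108) (nat_lit 15) (.e (nat_lit 188452) (nat_lit 23) (.e (nat_lit 204821) (nat_lit 17) (.e (nat_lit 6674) (nat_lit 357) (.e (nat_lit 2940) (nat_lit 184) (.e (nat_lit 426401) (nat_lit 15) .nil))))))) (.g (nat_lit 4) .nil .nil))) 
(.lf (nat_lit 80932) (.g (nat_lit 3077) (.e (nat_lit 1848) (nat_lit 124) (.e (nat_lit 557108) (nat_lit 15) (.e (nat_lit 188452) (nat_lit 23) (.e (nat_lit 204851) (nat_lit 26) .nil)))) .nil))) (.nd (nat_lit 5) 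
(.lf (nat_lit 80916) (.g (nat_lit 3055) (.e (nat_lit 1848) (nat_lit 124) (.e (nat_lit 557108) (nat_lit 15) (.e (nat_lit 188452) (nat_lit 23) (.e (nat_lit 204830) (nat_lit 18) .nil)))) .nil)) 
(.lf (nat_lit 80948) (.g (nat_lit 2746) (.e (nat_lit 1848) (nat_lit 124) (.e (nat_lit 557108) (nat_lit 15) (.e (nat_lit 188452) (nat_lit 23) (.e (nat_lit 204879) (nat_lit 32) .nil)))) .nil)))) (.nd (nat_lit 4) (.nd (nat_lit 5) 
(.lf (nat_lit 80908) (.g (nat_lit 3221) (.e (nat_lit 1848) (nat_lit 124) (.e (nat_lit 557108) (nat_lit 15) (.e (nat_lit 188452) (nat_lit 23) (.e (nat_lit 204821) (nat_lit 17) (.e (nat_lit 6680) (nat_lit 357) (.e (nat_lit 2855) (nat_lit 184) (.e (nat_lit 426402) (nat_lit 15) .nil))))))) (.g (nat_lit 0) .nil .nil))) 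
(.lf (nat_lit 80940) (.g (nat_lit 3000) (.e (nat_lit 1848) (nat_lit 124) (.e (nat_lit 557108) (nat_lit 15) (.e (nat_lit 188452) (nat_lit 23) (.e (nat_lit 204852) (nat_lit 26) (.e (nat_lit 336258) (nat_lit 15) (.e (nat_lit 3733) (nat_lit 228) (.e (nat_lit 786447) (nat_lit 15) .nil))))))) (.g (nat_lit 4) .nil .nil)))) (.nd (nat_lit 5) 
(.lf (nat_lit 80924) (.g (nat_lit 4049) (.e (nat_lit 1848) (nat_lit 124) (.e (nat_lit 557108) (nat_lit 15) (.e (nat_lit 188452) (nat_lit 23) (.e (nat_lit 204846) (nat_lit 24) (.e (nat_lit 319538) (nat_lit 19) .nil))))) .nil)) 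
(.lf (nat_lit 80956) (.g (nat_lit 2448) (.e (nat_lit 1848) (nat_lit 124) (.e (nat_lit 557108) (nat_lit 15) (.e (nat_lit 188452) (nat_lit 23) (.e (nat_lit 204882) (nat_lit 32) .nil)))) .nil)))))) (.nd (nat_lit 2) (.nd (nat_lit 3) (.nd (nat_lit 4) (.nd (nat_lit 5) 
(.lf (nat_lit 80898) (.g (nat_lit 2364) (.e (nat_lit 1848) (nat_lit 124) (.e (nat_lit 557108) (nat_lit 15) (.e (nat_lit 188452) (nat_lit 23) (.e (nat_lit 204821) (nat_lit 17) (.e (nat_lit 6671) (nat_lit 357) (.e (nat_lit 2940) (nat_lit 184) (.e (nat_lit 426401) (nat_lit 15) .nil))))))) (.g (nat_lit 4) .nil .nil))) 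
(.lf (nat_lit 80930) (.g (nat_lit 3066) (.e (nat_lit 1848) (nat_lit 124) (.e (nat_lit 557108) (nat_lit 15) (.e (nat_lit 188452) (nat_lit 23) (.e (nat_lit 204849) (nat_lit 25) .nil)))) .nil))) (.nd (nat_lit 5) 
(.lf (nat_lit 80914) (.g (nat_lit 3586) (.e (nat_lit 1848) (nat_lit 124) (.e (nat_lit 557108) (nat_lit 15) (.e (nat_lit 188452) (nat_lit 23) (.e (nat_lit 204824) (nat_lit 17) .nil)))) .nil)) 
(.lf (nat_lit 80946) (.g (nat_lit 3275) (.e (nat_lit 1848) (nat_lit 124) (.e (nat_lit 557108) (nat_lit 15) (.e (nat_lit 188452) (nat_lit 23) (.e (nat_lit 204853) (nat_lit 26) .nil)))) .nil)))) (.nd (nat_lit 4) (.nd (nat_lit 5) 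
(.lf (nat_lit 80906) (.g (nat_lit 3438) (.e (nat_lit 1848) (nat_lit 124) (.e (nat_lit 557108) (nat_lit 15) (.e (nat_lit 188452) (nat_lit 23) (.e (nat_lit 204821) (nat_lit 17) (.e (nat_lit 6676) (nat_lit 357) (.e (nat_lit 2857) (nat_lit 184) (.e (nat_lit 426402) (nat_lit 15) .nil))))))) (.g (nat_lit 7) .nil .nil))) 
(.lf (nat_lit 80938) (.g (nat_lit 3500) (.e (nat_lit 1848) (nat_lit 124) (.e (nat_lit 557108) (nat_lit 15) (.e (nat_lit 188452) (nat_lit 23) (.e (nat_lit 204852) (nat_lit 26) (.e (nat_lit 336257) (nat_lit 15) (.e (nat_lit 3749) (nat_lit 228) (.e (nat_lit 786447) (nat_lit 15) .nil))))))) (.g (nat_lit 4) .nil .nil)))) (.nd (nat_lit 5) 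
(.lf (nat_lit 80922) (.g (nat_lit 1920) (.e (nat_lit 1848) (nat_lit 124) (.e (nat_lit 557108) (nat_lit 15) (.e (nat_lit 188452) (nat_lit 23) (.e (nat_lit 204846) (nat_lit 24) (.e (nat_lit 327424) (nat_lit 18) .nil))))) .nil)) 
(.lf (nat_lit 80954) (.g (nat_lit 3842) (.e (nat_lit 1848) (nat_lit 124) (.e (nat_lit 557108) (nat_lit 15) (.e (nat_lit 188452) (nat_lit 23) (.e (nat_lit 204881) (nat_lit 32) (.e (nat_lit 385103) (nat_lit 50) (.e (nat_lit 786447) (nat_lit 15) .nil)))))) (.g (nat_lit 4) .nil .nil)))))) (.nd (nat_lit 3) (.nd (nat_lit 4) (.nd (nat_lit 5) 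
(.lf (nat_lit 80902) (.g (nat_lit 2731) (.e (nat_lit 1848) (nat_lit 124) (.e (nat_lit 557108) (nat_lit 15) (.e (nat_lit 188452) (nat_lit 23) (.e (nat_lit 204821) (nat_lit 17) (.e (nat_lit 6674) (nat_lit 357) (.e (nat_lit 2941) (nat_lit 184) (.e (nat_lit 426401) (nat_lit 15) .nil))))))) (.g (nat_lit 4) .nil .nil))) 
(.lf (nat_lit 80934) (.g (nat_lit 3498) (.e (nat_lit 1848) (nat_lit 124) (.e (nat_lit 557108) (nat_lit 15) (.e (nat_lit 188452) (nat_lit 23) (.e (nat_lit 204851) (nat_lit 26) (.e (nat_lit 336306) (nat_lit 15) .nil))))) .nil))) (.nd (nat_lit 5) 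
(.lf (nat_lit 80918) (.g (nat_lit 510) (.e (nat_lit 1848) (nat_lit 124) (.e (nat_lit 557108) (nat_lit 15) (.e (nat_lit 188452) (nat_lit 23) (.e (nat_lit 204846) (nat_lit 24) .nil)))) .nil)) 
(.lf (nat_lit 80950) (.g (nat_lit 3866) (.e (nat_lit 1848) (nat_lit 124) (.e (nat_lit 557108) (nat_lit 15) (.e (nat_lit 188452) (nat_lit 23) (.e (nat_lit 204880) (nat_lit 32) (.e (nat_lit 385103) (nat_lit 50) (.e (nat_lit 786447) (nat_lit 15) .nil)))))) (.g (nat_lit 4) .nil .nil))))) (.nd (nat_lit 4) (.nd (nat_lit 5) 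
(.lf (nat_lit 80910) (.g (nat_lit 3485) (.e (nat_lit 1848) (nat_lit 124) (.e (nat_lit 557108) (nat_lit 15) (.e (nat_lit 188452) (nat_lit 23) (.e (nat_lit 204821) (nat_lit 17) (.e (nat_lit 6680) (nat_lit 357) (.e (nat_lit 2857) (nat_lit 184) (.e (nat_lit 426402) (nat_lit 15) .nil))))))) (.g (nat_lit 0) .nil .nil))) 
(.lf (nat_lit 80942) (.g (nat_lit 3421) (.e (nat_lit 1848) (nat_lit 124) (.e (nat_lit 557108) (nat_lit 15) (.e (nat_lit 188452) (nat_lit 23) (.e (nat_lit 204852) (nat_lit 26) (.e (nat_lit 336258) (nat_lit 15) (.e (nat_lit 3753) (nat_lit 228) (.e (nat_lit 786447) (nat_lit 15) .nil))))))) (.g (nat_lit 4) .nil .nil)))) (.nd (nat_lit 5) 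
(.lf (nat_lit 80926) (.g (nat_lit 4073) (.e (nat_lit 1848) (nat_lit 124) (.e (nat_lit 557108) (nat_lit 15) (.e (nat_lit 188452) (nat_lit 23) (.e (nat_lit 204846) (nat_lit 24) (.e (nat_lit 319539) (nat_lit 19) .nil))))) .nil)) 
(.lf (nat_lit 80958) (.g (nat_lit 3405) (.e (nat_lit 1848) (nat_lit 124) (.e (nat_lit 557108) (nat_lit 15) (.e (nat_lit 188452) (nat_lit 23) (.e (nat_lit 204882) (nat_lit 32) (.e (nat_lit 385103) (nat_lit 50) .nil))))) .nil))))))) (.nd (nat_lit 1) (.nd (nat_lit 2) (.nd (nat_lit 3) (.nd (nat_lit 4) (.nd (nat_lit 5) 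
(.lf (nat_lit 80897) (.g (nat_lit 1921) (.e (nat_lit 1848) (nat_lit 124) (.e (nat_lit 557108) (nat_lit 15) (.e (nat_lit 188452) (nat_lit 23) (.e (nat_lit 204821) (nat_lit 17) (.e (nat_lit 6671) (nat_lit 357) .nil))))) .nil)) 
(.lf (nat_lit 80929) (.g (nat_lit 4004) (.e (nat_lit 1848) (nat_lit 124) (.e (nat_lit 557108) (nat_lit 15) (.e (nat_lit 188452) (nat_lit 23) (.e (nat_lit 204848) (nat_lit 25) (.e (nat_lit 327718) (nat_lit 19) (.e (nat_lit 311348) (nat_lit 15) .nil)))))) (.g (nat_lit 4) .nil .nil)))) (.nd (nat_lit 5) 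
(.lf (nat_lit 80913) (.g (nat_lit 3660) (.e (nat_lit 1848) (nat_lit 124) (.e (nat_lit 557108) (nat_lit 15) (.e (nat_lit 188452) (nat_lit 23) (.e (nat_lit 204823) (nat_lit 17) .nil)))) .nil)) 
(.lf (nat_lit 80945) (.g (nat_lit 3687) (.e (nat_lit 1848) (nat_lit 124) (.e (nat_lit 557108) (nat_lit 15) (.e (nat_lit 188452) (nat_lit 23) (.e (nat_lit 204852) (nat_lit 26) (.e (nat_lit 336284) (nat_lit 15) (.e (nat_lit 3743) (nat_lit 228) (.e (nat_lit 786447) (nat_lit 15) .nil))))))) (.g (nat_lit 4) .nil .nil))))) (.nd (nat_lit 4) (.nd (nat_lit 5) 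
(.lf (nat_lit 80905) (.g (nat_lit 3598) (.e (nat_lit 1848) (nat_lit 124) (.e (nat_lit 557108) (nat_lit 15) (.e (nat_lit 188452) (nat_lit 23) (.e (nat_lit 204821) (nat_lit 17) (.e (nat_lit 6676) (nat_lit 357) (.e (nat_lit 2856) (nat_lit 184) (.e (nat_lit 426402) (nat_lit 15) .nil))))))) (.g (nat_lit 7) .nil .nil))) 
(.lf (nat_lit 80937) (.g (nat_lit 3362) (.e (nat_lit 1848) (nat_lit 124) (.e (nat_lit 557108) (nat_lit 15) (.e (nat_lit 188452) (nat_lit 23) (.e (nat_lit 204852) (nat_lit 26) (.e (nat_lit 336257) (nat_lit 15) (.e (nat_lit 3742) (nat_lit 228) (.e (nat_lit 786447) (nat_lit 15) .nil))))))) (.g (nat_lit 4) .nil .nil)))) (.nd (nat_lit 5) 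
(.lf (nat_lit 80921) (.g (nat_lit 3333) (.e (nat_lit 1848) (nat_lit 124) (.e (nat_lit 557108) (nat_lit 15) (.e (nat_lit 188452) (nat_lit 23) (.e (nat_lit 204846) (nat_lit 24) (.e (nat_lit 319506) (nat_lit 10) .nil))))) .nil)) 
(.lf (nat_lit 80953) (.g (nat_lit 2733) (.e (nat_lit 1848) (nat_lit 124) (.e (nat_lit 557108) (nat_lit 15) (.e (nat_lit 188452) (nat_lit 23) (.e (nat_lit 204881) (nat_lit 32) .nil)))) .nil))))) (.nd (nat_lit 3) (.nd (nat_lit 4) (.nd (nat_lit 5) 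
(.lf (nat_lit 80901) (.g (nat_lit 2637) (.e (nat_lit 1848) (nat_lit 124) (.e (nat_lit 557108) (nat_lit 15) (.e (nat_lit 188452) (nat_lit 23) (.e (nat_lit 204821) (nat_lit 17) (.e (nat_lit 6674) (nat_lit 357) (.e (nat_lit 2940) (nat_lit 184) (.e (nat_lit 433920) (nat_lit 15) .nil))))))) (.g (nat_lit 6) .nil .nil))) 
(.lf (nat_lit 80933) (.g (nat_lit 4456) (.e (nat_lit 1848) (nat_lit 124) (.e (nat_lit 557108) (nat_lit 15) (.e (nat_lit 188452) (nat_lit 23) (.e (nat_lit 204851) (nat_lit 26) (.e (nat_lit 336260) (nat_lit 15) (.e (nat_lit 3733) (nat_lit 228) (.e (nat_lit 786447) (nat_lit 15) .nil))))))) (.g (nat_lit 5) .nil .nil)))) (.nd (nat_lit 5) 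
(.lf (nat_lit 80917) (.g (nat_lit 3927) (.e (nat_lit 1848) (nat_lit 124) (.e (nat_lit 557108) (nat_lit 15) (.e (nat_lit 188452) (nat_lit 23) (.e (nat_lit 204845) (nat_lit 24) (.e (nat_lit 319539) (nat_lit 19) (.e (nat_lit 311348) (nat_lit 15) .nil)))))) (.g (nat_lit 0) .nil .nil))) 
(.lf (nat_lit 80949) (.g (nat_lit 3552) (.e (nat_lit 1848) (nat_lit 124) (.e (nat_lit 557108) (nat_lit 15) (.e (nat_lit 188452) (nat_lit 23) (.e (nat_lit 204880) (nat_lit 32) (.e (nat_lit 385102) (nat_lit 50) (.e (nat_lit 786447) (nat_lit 15) .nil)))))) (.g (nat_lit 4) .nil .nil))))) (.nd (nat_lit 4) (.nd (nat_lit 5) 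
(.lf (nat_lit 80909) (.g (nat_lit 3698) (.e (nat_lit 1848) (nat_lit 124) (.e (nat_lit 557108) (nat_lit 15) (.e (nat_lit 188452) (nat_lit 23) (.e (nat_lit 204821) (nat_lit 17) (.e (nat_lit 6680) (nat_lit 357) (.e (nat_lit 2856) (nat_lit 184) (.e (nat_lit 426402) (nat_lit 15) .nil))))))) (.g (nat_lit 0) .nil .nil))) 
(.lf (nat_lit 80941) (.g (nat_lit 3446) (.e (nat_lit 1848) (nat_lit 124) (.e (nat_lit 557108) (nat_lit 15) (.e (nat_lit 188452) (nat_lit 23) (.e (nat_lit 204852) (nat_lit 26) (.e (nat_lit 336258) (nat_lit 15) (.e (nat_lit 3744) (nat_lit 228) (.e (nat_lit 786447) (nat_lit 15) .nil))))))) (.g (nat_lit 4) .nil .nil)))) (.nd (nat_lit 5) 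
(.lf (nat_lit 80925) (.g (nat_lit 6010) (.e (nat_lit 1848) (nat_lit 124) (.e (nat_lit 557108) (nat_lit 15) (.e (nat_lit 188452) (nat_lit 23) (.e (nat_lit 204846) (nat_lit 24) (.e (nat_lit 319538) (nat_lit 19) (.e (nat_lit 311348) (nat_lit 15) .nil)))))) (.g (nat_lit 6) .nil .nil))) 
(.lf (nat_lit 80957) (.g (nat_lit 3383) (.e (nat_lit 1848) (nat_lit 124) (.e (nat_lit 557108) (nat_lit 15) (.e (nat_lit 188452) (nat_lit 23) (.e (nat_lit 204882) (nat_lit 32) (.e (nat_lit 385102) (nat_lit 50) .nil))))) .nil)))))) (.nd (nat_lit 2) (.nd (nat_lit 3) (.nd (nat_lit 4) (.nd (nat_lit 5) 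
(.lf (nat_lit 80899) (.g (nat_lit 2120) (.e (nat_lit 1848) (nat_lit 124) (.e (nat_lit 557108) (nat_lit 15) (.e (nat_lit 188452) (nat_lit 23) (.e (nat_lit 204821) (nat_lit 17) (.e (nat_lit 6671) (nat_lit 357) (.e (nat_lit 2940) (nat_lit 184) (.e (nat_lit 433920) (nat_lit 15) .nil))))))) (.g (nat_lit 4) .nil .nil))) 
(.lf (nat_lit 80931) (.g (nat_lit 4315) (.e (nat_lit 1848) (nat_lit 124) (.e (nat_lit 557108) (nat_lit 15) (.e (nat_lit 188452) (nat_lit 23) (.e (nat_lit 204849) (nat_lit 25) (.e (nat_lit 327718) (nat_lit 19) (.e (nat_lit 311348) (nat_lit 15) .nil)))))) (.g (nat_lit 5) .nil .nil)))) (.nd (nat_lit 5) 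
(.lf (nat_lit 80915) (.g (nat_lit 2484) (.e (nat_lit 1848) (nat_lit 124) (.e (nat_lit 557108) (nat_lit 15) (.e (nat_lit 188452) (nat_lit 23) (.e (nat_lit 212736) (nat_lit 17) .nil)))) .nil)) 
(.lf (nat_lit 80947) (.g (nat_lit 3686) (.e (nat_lit 1848) (nat_lit 124) (.e (nat_lit 557108) (nat_lit 15) (.e (nat_lit 188452) (nat_lit 23) (.e (nat_lit 204853) (nat_lit 26) (.e (nat_lit 336260) (nat_lit 15) .nil))))) .nil)))) (.nd (nat_lit 4) (.nd (nat_lit 5) 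
(.lf (nat_lit 80907) (.g (nat_lit 3123) (.e (nat_lit 1848) (nat_lit 124) (.e (nat_lit 557108) (nat_lit 15) (.e (nat_lit 188452) (nat_lit 23) (.e (nat_lit 204821) (nat_lit 17) (.e (nat_lit 6680) (nat_lit 357) (.e (nat_lit 2854) (nat_lit 184) (.e (nat_lit 426402) (nat_lit 15) .nil))))))) (.g (nat_lit 0) .nil .nil))) 
(.lf (nat_lit 80939) (.g (nat_lit 3328) (.e (nat_lit 1848) (nat_lit 124) (.e (nat_lit 557108) (nat_lit 15) (.e (nat_lit 188452) (nat_lit 23) (.e (nat_lit 204852) (nat_lit 26) (.e (nat_lit 336257) (nat_lit 15) (.e (nat_lit 3753) (nat_lit 228) (.e (nat_lit 786447) (nat_lit 15) .nil))))))) (.g (nat_lit 4) .nil .nil)))) (.nd (nat_lit 5) 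
(.lf (nat_lit 80923) (.g (nat_lit 3117) (.e (nat_lit 1848) (nat_lit 124) (.e (nat_lit 557108) (nat_lit 15) (.e (nat_lit 188452) (nat_lit 23) (.e (nat_lit 204846) (nat_lit 24) (.e (nat_lit 319537) (nat_lit 19) (.e (nat_lit 311348) (nat_lit 15) .nil)))))) (.g (nat_lit 6) .nil .nil))) 
(.lf (nat_lit 80955) (.g (nat_lit 4276) (.e (nat_lit 1848) (nat_lit 124) (.e (nat_lit 557108) (nat_lit 15) (.e (nat_lit 188452) (nat_lit 23) (.e (nat_lit 204881) (nat_lit 32) (.e (nat_lit 385104) (nat_lit 50) (.e (nat_lit 786447) (nat_lit 15) .nil)))))) (.g (nat_lit 6) .nil .nil)))))) (.nd (nat_lit 3) (.nd (nat_lit 4) (.nd (nat_lit 5) 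
(.lf (nat_lit 80903) (.g (nat_lit 2300) (.e (nat_lit 1848) (nat_lit 124) (.e (nat_lit 557108) (nat_lit 15) (.e (nat_lit 188452) (nat_lit 23) (.e (nat_lit 204821) (nat_lit 17) (.e (nat_lit 6676) (nat_lit 357) (.e (nat_lit 2854) (nat_lit 184) (.e (nat_lit 426402) (nat_lit 15) .nil))))))) (.g (nat_lit 4) .nil .nil))) 
(.lf (nat_lit 80935) (.g (nat_lit 2026) (.e (nat_lit 1848) (nat_lit 124) (.e (nat_lit 557108) (nat_lit 15) (.e (nat_lit 188452) (nat_lit 23) (.e (nat_lit 204852) (nat_lit 26) .nil)))) .nil))) (.nd (nat_lit 5) 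
(.lf (nat_lit 80919) (.g (nat_lit 1695) (.e (nat_lit 1848) (nat_lit 124) (.e (nat_lit 557108) (nat_lit 15) (.e (nat_lit 188452) (nat_lit 23) (.e (nat_lit 204846) (nat_lit 24) (.e (nat_lit 319504) (nat_lit 10) (.e (nat_lit 7936) (nat_lit 312) (.e (nat_lit 12) (nat_lit 0) .nil))))))) (.g (nat_lit 5) .nil .nil))) 
(.lf (nat_lit 80951) (.g (nat_lit 3873) (.e (nat_lit 1848) (nat_lit 124) (.e (nat_lit 557108) (nat_lit 15) (.e (nat_lit 188452) (nat_lit 23) (.e (nat_lit 204880) (nat_lit 32) (.e (nat_lit 385104) (nat_lit 50) (.e (nat_lit 786447) (nat_lit 15) .nil)))))) (.g (nat_lit 4) .nil .nil))))) (.nd (nat_lit 4) (.nd (nat_lit 5) 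
(.lf (nat_lit 80911) (.g (nat_lit 2381) (.e (nat_lit 1848) (nat_lit 124) (.e (nat_lit 557108) (nat_lit 15) (.e (nat_lit 188452) (nat_lit 23) (.e (nat_lit 204821) (nat_lit 17) (.e (nat_lit 7936) (nat_lit 361) (.e (nat_lit 179968) (nat_lit 15) .nil)))))) (.g (nat_lit 4) .nil .nil))) 
(.lf (nat_lit 80943) (.g (nat_lit 4612) (.e (nat_lit 1848) (nat_lit 124) (.e (nat_lit 557108) (nat_lit 15) (.e (nat_lit 188452) (nat_lit 23) (.e (nat_lit 204852) (nat_lit 26) (.e (nat_lit 336260) (nat_lit 15) (.e (nat_lit 3733) (nat_lit 228) (.e (nat_lit 786447) (nat_lit 15) .nil))))))) (.g (nat_lit 7) .nil .nil)))) (.nd (nat_lit 5) 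
(.lf (nat_lit 80927) (.g (nat_lit 6021) (.e (nat_lit 1848) (nat_lit 124) (.e (nat_lit 557108) (nat_lit 15) (.e (nat_lit 188452) (nat_lit 23) (.e (nat_lit 204846) (nat_lit 24) (.e (nat_lit 319539) (nat_lit 19) (.e (nat_lit 311348) (nat_lit 15) .nil)))))) (.g (nat_lit 6) .nil .nil))) 
(.lf (nat_lit 80959) (.g (nat_lit 4211) (.e (nat_lit 1848) (nat_lit 124) (.e (nat_lit 557108) (nat_lit 15) (.e (nat_lit 188452) (nat_lit 23) (.e (nat_lit 204882) (nat_lit 32) (.e (nat_lit 385104) (nat_lit 50) (.e (nat_lit 786447) (nat_lit 15) .nil)))))) (.g (nat_lit 5) .nil .nil)))))))))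

noncomputable def tv1096 : DT := (.nd (nat_lit 0) (.nd (nat_lit 1) (.nd (nat_lit 2) (.nd (nat_lit 3) (.nd (nat_lit 4) (.nd (nat_lit 5) 
(.lf (nat_lit 80960) (.g (nat_lit 2865) (.e (nat_lit 1848) (nat_lit 124) (.e (nat_lit 557108) (nat_lit 15) (.e (nat_lit 188452) (nat_lit 23) (.e (nat_lit 204883) (nat_lit 33) (.e (nat_lit 401436) (nat_lit 9) (.e (nat_lit 426402) (nat_lit 15) .nil)))))) (.g (nat_lit 0) .nil .nil))) 
(.lf (nat_lit 80992) (.g (nat_lit 851) (.e (nat_lit 1849) (nat_lit 124) (.e (nat_lit 557087) (nat_lit 11) (.e (nat_lit 24647) (nat_lit 12) .nil))) .nil))) (.nd (nat_lit 5) 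
(.lf (nat_lit 80976) (.g (nat_lit 1107) (.e (nat_lit 1848) (nat_lit 124) (.e (nat_lit 557108) (nat_lit 15) (.e (nat_lit 188455) (nat_lit 24) (.e (nat_lit 237312) (nat_lit 134) .nil)))) .nil)) 
(.lf (nat_lit 81008) (.g (nat_lit 2029) (.e (nat_lit 1849) (nat_lit 124) (.e (nat_lit 557096) (nat_lit 13) (.e (nat_lit 172126) (nat_lit 14) (.e (nat_lit 491540) (nat_lit 3) (.e (nat_lit 98370) (nat_lit 28) (.e (nat_lit 450304) (nat_lit 0) .nil)))))) (.g (nat_lit 5) .nil .nil))))) (.nd (nat_lit 4) (.nd (nat_lit 5) 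
(.lf (nat_lit 80968) (.g (nat_lit 3842) (.e (nat_lit 1848) (nat_lit 124) (.e (nat_lit 557108) (nat_lit 15) (.e (nat_lit 188452) (nat_lit 23) (.e (nat_lit 204885) (nat_lit 33) (.e (nat_lit 401435) (nat_lit 9) (.e (nat_lit 426402) (nat_lit 15) .nil)))))) (.g (nat_lit 0) .nil .nil))) 
(.lf (nat_lit 81000) (.g (nat_lit 2149) (.e (nat_lit 1849) (nat_lit 124) (.e (nat_lit 557090) (nat_lit 12) (.e (nat_lit 164030) (nat_lit 53) (.e (nat_lit 761906) (nat_lit 16) (.e (nat_lit 179968) (nat_lit 34) (.e (nat_lit 393273) (nat_lit 23) (.e (nat_lit 426402) (nat_lit 15) .nil))))))) (.g (nat_lit 4) .nil .nil)))) (.nd (nat_lit 5) 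
(.lf (nat_lit 80984) (.g (nat_lit 3603) (.e (nat_lit 1848) (nat_lit 124) (.e (nat_lit 557109) (nat_lit 15) (.e (nat_lit 188452) (nat_lit 23) (.e (nat_lit 204846) (nat_lit 24) .nil)))) .nil)) 
(.lf (nat_lit 81016) (.g (nat_lit 2413) (.e (nat_lit 1849) (nat_lit 124) (.e (nat_lit 557097) (nat_lit 13) (.e (nat_lit 172097) (nat_lit 9) (.e (nat_lit 426125) (nat_lit 2) (.e (nat_lit 196661) (nat_lit 12) (.e (nat_lit 65280) (nat_lit 208) (.e (nat_lit 245504) (nat_lit 15) .nil))))))) (.g (nat_lit 5) .nil .nil)))))) (.nd (nat_lit 3) (.nd (nat_lit 4) (.nd (nat_lit 5) 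
(.lf (nat_lit 80964) (.g (nat_lit 3087) (.e (nat_lit 1848) (nat_lit 124) (.e (nat_lit 557108) (nat_lit 15) (.e (nat_lit 188452) (nat_lit 23) (.e (nat_lit 204884) (nat_lit 33) (.e (nat_lit 401436) (nat_lit 9) (.e (nat_lit 426402) (nat_lit 15) .nil)))))) (.g (nat_lit 5) .nil .nil))) 
(.lf (nat_lit 80996) (.g (nat_lit 603) (.e (nat_lit 1849) (nat_lit 124) (.e (nat_lit 557090) (nat_lit 12) (.e (nat_lit 164030) (nat_lit 53) .nil))) .nil))) (.nd (nat_lit 5) 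
(.lf (nat_lit 80980) (.g (nat_lit 4042) (.e (nat_lit 1848) (nat_lit 124) (.e (nat_lit 557109) (nat_lit 15) (.e (nat_lit 188449) (nat_lit 22) (.e (nat_lit 196628) (nat_lit 9) .nil)))) .nil)) 
(.lf (nat_lit 81012) (.g (nat_lit 1638) (.e (nat_lit 1849) (nat_lit 124) (.e (nat_lit 557097) (nat_lit 13) (.e (nat_lit 172097) (nat_lit 9) (.e (nat_lit 426125) (nat_lit 2) (.e (nat_lit 196661) (nat_lit 12) .nil))))) .nil)))) (.nd (nat_lit 4) (.nd (nat_lit 5) 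
(.lf (nat_lit 80972) (.g (nat_lit 3687) (.e (nat_lit 1848) (nat_lit 124) (.e (nat_lit 557108) (nat_lit 15) (.e (nat_lit 188452) (nat_lit 23) (.e (nat_lit 204885) (nat_lit 33) (.e (nat_lit 401444) (nat_lit 9) (.e (nat_lit 426401) (nat_lit 15) .nil)))))) (.g (nat_lit 5) .nil .nil))) 
(.lf (nat_lit 81004) (.g (nat_lit 883) (.e (nat_lit 1849) (nat_lit 124) (.e (nat_lit 557094) (nat_lit 12) (.e (nat_lit 164030) (nat_lit 53) (.e (nat_lit 761902) (nat_lit 16) .nil)))) .nil))) (.nd (nat_lit 5) 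
(.lf (nat_lit 80988) (.g (nat_lit 2332) (.e (nat_lit 1849) (nat_lit 124) (.e (nat_lit 557066) (nat_lit 9) (.e (nat_lit 232) (nat_lit 21) (.e (nat_lit 336060) (nat_lit 7) (.e (nat_lit 319505) (nat_lit 10) (.e (nat_lit 7936) (nat_lit 45) (.e (nat_lit 532535) (nat_lit 9) (.e (nat_lit 336099) (nat_lit 9) (.e (nat_lit 335925) (nat_lit 0) .nil))))))))) (.g (nat_lit 4) .nil .nil))) 
(.lf (nat_lit 81020) (.g (nat_lit 1814) (.e (nat_lit 1849) (nat_lit 124) (.e (nat_lit 557097) (nat_lit 13) (.e (nat_lit 172097) (nat_lit 9) (.e (nat_lit 426140) (nat_lit 3) (.e (nat_lit 204821) (nat_lit 17) (.e (nat_lit 6671) (nat_lit 357) (.e (nat_lit 2940) (nat_lit 184) (.e (nat_lit 433920) (nat_lit 15) .nil)))))))) (.g (nat_lit 4) .nil .nil))))))) 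
(.nd (nat_lit 2) (.nd (nat_lit 3) (.nd (nat_lit 4) (.nd (nat_lit 5) 
(.lf (nat_lit 80962) (.g (nat_lit 3200) (.e (nat_lit 1848) (nat_lit 124) (.e (nat_lit 557108) (nat_lit 15) (.e (nat_lit 188452) (nat_lit 23) (.e (nat_lit 204883) (nat_lit 33) (.e (nat_lit 401438) (nat_lit 9) (.e (nat_lit 426402) (nat_lit 15) .nil)))))) (.g (nat_lit 0) .nil .nil))) 
(.lf (nat_lit 80994) (.g (nat_lit 4791) (.e (nat_lit 1849) (nat_lit 124) (.e (nat_lit 557087) (nat_lit 11) (.e (nat_lit 24662) (nat_lit 14) (.e (nat_lit 401425) (nat_lit 2) .nil)))) .nil))) (.nd (nat_lit 5) 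
(.lf (nat_lit 80978) (.g (nat_lit 2316) (.e (nat_lit 1848) (nat_lit 124) (.e (nat_lit 557108) (nat_lit 15) (.e (nat_lit 188455) (nat_lit 24) (.e (nat_lit 237312) (nat_lit 138) (.e (nat_lit 163933) (nat_lit 17) (.e (nat_lit 474880) (nat_lit 0) .nil)))))) (.g (nat_lit 5) .nil .nil))) 
(.lf (nat_lit 81010) (.g (nat_lit 3332) (.e (nat_lit 1849) (nat_lit 124) (.e (nat_lit 557097) (nat_lit 13) (.e (nat_lit 172097) (nat_lit 9) (.e (nat_lit 426125) (nat_lit 2) (.e (nat_lit 196630) (nat_lit 9) (.e (nat_lit 1669) (nat_lit 116) (.e (nat_lit 401436) (nat_lit 9) (.e (nat_lit 426402) (nat_lit 15) .nil)))))))) (.g (nat_lit 6) .nil .nil))))) (.nd (nat_lit 4) (.nd (nat_lit 5) 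
(.lf (nat_lit 80970) (.g (nat_lit 4297) (.e (nat_lit 1848) (nat_lit 124) (.e (nat_lit 557108) (nat_lit 15) (.e (nat_lit 188452) (nat_lit 23) (.e (nat_lit 204885) (nat_lit 33) (.e (nat_lit 401437) (nat_lit 9) (.e (nat_lit 426402) (nat_lit 15) .nil)))))) (.g (nat_lit 6) .nil .nil))) 
(.lf (nat_lit 81002) (.g (nat_lit 2446) (.e (nat_lit 1849) (nat_lit 124) (.e (nat_lit 557090) (nat_lit 12) (.e (nat_lit 164031) (nat_lit 53) (.e (nat_lit 761905) (nat_lit 16) (.e (nat_lit 179968) (nat_lit 34) .nil))))) .nil))) (.nd (nat_lit 5) 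
(.lf (nat_lit 80986) (.g (nat_lit 1009) (.e (nat_lit 1848) (nat_lit 124) (.e (nat_lit 557109) (nat_lit 15) (.e (nat_lit 188458) (nat_lit 25) .nil))) .nil)) 
(.lf (nat_lit 81018) (.g (nat_lit 2266) (.e (nat_lit 1849) (nat_lit 124) (.e (nat_lit 557097) (nat_lit 13) (.e (nat_lit 172097) (nat_lit 9) (.e (nat_lit 426140) (nat_lit 3) (.e (nat_lit 204821) (nat_lit 17) (.e (nat_lit 6114) (nat_lit 332) (.e (nat_lit 1376) (nat_lit 104) (.e (nat_lit 311040) (nat_lit 15) .nil)))))))) (.g (nat_lit 5) .nil .nil)))))) 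
(.nd (nat_lit 3) (.nd (nat_lit 4) (.nd (nat_lit 5) 
(.lf (nat_lit 80966) (.g (nat_lit 3618) (.e (nat_lit 1848) (nat_lit 124) (.e (nat_lit 557108) (nat_lit 15) (.e (nat_lit 188452) (nat_lit 23) (.e (nat_lit 204884) (nat_lit 33) (.e (nat_lit 401438) (nat_lit 9) (.e (nat_lit 426402) (nat_lit 15) .nil)))))) (.g (nat_lit 0) .nil .nil))) 
(.lf (nat_lit 80998) (.g (nat_lit 1500) (.e (nat_lit 1849) (nat_lit 124) (.e (nat_lit 557090) (nat_lit 12) (.e (nat_lit 164030) (nat_lit 53) (.e (nat_lit 761902) (nat_lit 16) .nil)))) .nil))) (.nd (nat_lit 5) 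
(.lf (nat_lit 80982) (.g (nat_lit 1038) (.e (nat_lit 1848) (nat_lit 124) (.e (nat_lit 557109) (nat_lit 15) (.e (nat_lit 188452) (nat_lit 23) .nil))) .nil)) 
(.lf (nat_lit 81014) (.g (nat_lit 1758) (.e (nat_lit 1849) (nat_lit 124) (.e (nat_lit 557097) (nat_lit 13) (.e (nat_lit 172097) (nat_lit 9) (.e (nat_lit 426125) (nat_lit 2) (.e (nat_lit 196661) (nat_lit 12) (.e (nat_lit 57722) (nat_lit 178) (.e (nat_lit 123166) (nat_lit 256) (.e (nat_lit 7936) (nat_lit 0) .nil)))))))) (.g (nat_lit 4) .nil .nil))))) (.nd (nat_lit 4) (.nd (nat_lit 5) 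
(.lf (nat_lit 80974) (.g (nat_lit 2535) (.e (nat_lit 1848) (nat_lit 124) (.e (nat_lit 557108) (nat_lit 15) (.e (nat_lit 188452) (nat_lit 23) (.e (nat_lit 204885) (nat_lit 33) (.e (nat_lit 409344) (nat_lit 9) .nil))))) .nil)) 
(.lf (nat_lit 81006) (.g (nat_lit 2104) (.e (nat_lit 1849) (nat_lit 124) (.e (nat_lit 557096) (nat_lit 13) (.e (nat_lit 172126) (nat_lit 14) (.e (nat_lit 491537) (nat_lit 2) (.e (nat_lit 90170) (nat_lit 13) (.e (nat_lit 172095) (nat_lit 9) (.e (nat_lit 433920) (nat_lit 15) .nil))))))) (.g (nat_lit 6) .nil .nil)))) (.nd (nat_lit 5) 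
(.lf (nat_lit 80990) (.g (nat_lit 536) (.e (nat_lit 1849) (nat_lit 124) (.e (nat_lit 557066) (nat_lit 9) (.e (nat_lit 324) (nat_lit 24) .nil))) .nil)) 
(.lf (nat_lit 81022) (.g (nat_lit 2210) (.e (nat_lit 1849) (nat_lit 124) (.e (nat_lit 557097) (nat_lit 13) (.e (nat_lit 172097) (nat_lit 9) (.e (nat_lit 426140) (nat_lit 3) (.e (nat_lit 204821) (nat_lit 17) (.e (nat_lit 7936) (nat_lit 361) (.e (nat_lit 179968) (nat_lit 15) .nil))))))) (.g (nat_lit 5) .nil .nil)))))))) 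
(.nd (nat_lit 1) (.nd (nat_lit 2) (.nd (nat_lit 3) (.nd (nat_lit 4) (.nd (nat_lit 5) 
(.lf (nat_lit 80961) (.g (nat_lit 3329) (.e (nat_lit 1848) (nat_lit 124) (.e (nat_lit 557108) (nat_lit 15) (.e (nat_lit 188452) (nat_lit 23) (.e (nat_lit 204883) (nat_lit 33) (.e (nat_lit 401437) (nat_lit 9) (.e (nat_lit 426402) (nat_lit 15) .nil)))))) (.g (nat_lit 0) .nil .nil))) 
(.lf (nat_lit 80993) (.g (nat_lit 4044) (.e (nat_lit 1849) (nat_lit 124) (.e (nat_lit 557087) (nat_lit 11) (.e (nat_lit 24662) (nat_lit 14) (.e (nat_lit 401423) (nat_lit 2) .nil)))) .nil))) (.nd (nat_lit 5) 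
(.lf (nat_lit 80977) (.g (nat_lit 2366) (.e (nat_lit 1848) (nat_lit 124) (.e (nat_lit 557108) (nat_lit 15) (.e (nat_lit 188455) (nat_lit 24) (.e (nat_lit 237312) (nat_lit 138) (.e (nat_lit 163920) (nat_lit 14) (.e (nat_lit 450304) (nat_lit 0) .nil)))))) (.g (nat_lit 5) .nil .nil))) 
(.lf (nat_lit 81009) (.g (nat_lit 2804) (.e (nat_lit 1849) (nat_lit 124) (.e (nat_lit 557097) (nat_lit 13) (.e (nat_lit 172097) (nat_lit 9) (.e (nat_lit 426125) (nat_lit 2) (.e (nat_lit 196630) (nat_lit 9) (.e (nat_lit 1667) (nat_lit 116) (.e (nat_lit 401437) (nat_lit 9) (.e (nat_lit 426402) (nat_lit 15) .nil)))))))) (.g (nat_lit 5) .nil .nil))))) (.nd (nat_lit 4) (.nd (nat_lit 5) 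
(.lf (nat_lit 80969) (.g (nat_lit 3877) (.e (nat_lit 1848) (nat_lit 124) (.e (nat_lit 557108) (nat_lit 15) (.e (nat_lit 188452) (nat_lit 23) (.e (nat_lit 204885) (nat_lit 33) (.e (nat_lit 401436) (nat_lit 9) (.e (nat_lit 426402) (nat_lit 15) .nil)))))) (.g (nat_lit 6) .nil .nil))) 
(.lf (nat_lit 81001) (.g (nat_lit 903) (.e (nat_lit 1849) (nat_lit 124) (.e (nat_lit 557090) (nat_lit 12) (.e (nat_lit 164031) (nat_lit 53) .nil))) .nil))) (.nd (nat_lit 5) 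
(.lf (nat_lit 80985) (.g (nat_lit 4409) (.e (nat_lit 1848) (nat_lit 124) (.e (nat_lit 557109) (nat_lit 15) (.e (nat_lit 188452) (nat_lit 23) (.e (nat_lit 204852) (nat_lit 26) .nil)))) .nil)) 
(.lf (nat_lit 81017) (.g (nat_lit 1697) (.e (nat_lit 1849) (nat_lit 124) (.e (nat_lit 557097) (nat_lit 13) (.e (nat_lit 172097) (nat_lit 9) (.e (nat_lit 426140) (nat_lit 3) (.e (nat_lit 204821) (nat_lit 17) .nil))))) .nil))))) (.nd (nat_lit 3) (.nd (nat_lit 4) (.nd (nat_lit 5) 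
(.lf (nat_lit 80965) (.g (nat_lit 3942) (.e (nat_lit 1848) (nat_lit 124) (.e (nat_lit 557108) (nat_lit 15) (.e (nat_lit 188452) (nat_lit 23) (.e (nat_lit 204884) (nat_lit 33) (.e (nat_lit 401437) (nat_lit 9) (.e (nat_lit 426402) (nat_lit 15) .nil)))))) (.g (nat_lit 6) .nil .nil))) 
(.lf (nat_lit 80997) (.g (nat_lit 1494) (.e (nat_lit 1849) (nat_lit 124) (.e (nat_lit 557090) (nat_lit 12) (.e (nat_lit 164030) (nat_lit 53) (.e (nat_lit 761901) (nat_lit 16) .nil)))) .nil))) (.nd (nat_lit 5) 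
(.lf (nat_lit 80981) (.g (nat_lit 3607) (.e (nat_lit 1848) (nat_lit 124) (.e (nat_lit 557109) (nat_lit 15) (.e (nat_lit 188449) (nat_lit 22) (.e (nat_lit 196661) (nat_lit 12) .nil)))) .nil)) 
(.lf (nat_lit 81013) (.g (nat_lit 2663) (.e (nat_lit 1849) (nat_lit 124) (.e (nat_lit 557097) (nat_lit 13) (.e (nat_lit 172097) (nat_lit 9) (.e (nat_lit 426125) (nat_lit 2) (.e (nat_lit 196661) (nat_lit 12) (.e (nat_lit 57712) (nat_lit 176) (.e (nat_lit 1378) (nat_lit 104) (.e (nat_lit 311040) (nat_lit 15) .nil)))))))) (.g (nat_lit 6) .nil .nil))))) (.nd (nat_lit 4) (.nd (nat_lit 5) 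
(.lf (nat_lit 80973) (.g (nat_lit 2834) (.e (nat_lit 1848) (nat_lit 124) (.e (nat_lit 557108) (nat_lit 15) (.e (nat_lit 188452) (nat_lit 23) (.e (nat_lit 204885) (nat_lit 33) (.e (nat_lit 401444) (nat_lit 9) (.e (nat_lit 433920) (nat_lit 15) .nil)))))) (.g (nat_lit 4) .nil .nil))) 
(.lf (nat_lit 81005) (.g (nat_lit 1465) (.e (nat_lit 1849) (nat_lit 124) (.e (nat_lit 557094) (nat_lit 12) (.e (nat_lit 164030) (nat_lit 53) (.e (nat_lit 761906) (nat_lit 16) (.e (nat_lit 179968) (nat_lit 34) (.e (nat_lit 393273) (nat_lit 23) (.e (nat_lit 426402) (nat_lit 15) .nil))))))) (.g (nat_lit 4) .nil .nil)))) (.nd (nat_lit 5) 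
(.lf (nat_lit 80989) (.g (nat_lit 538) (.e (nat_lit 1849) (nat_lit 124) (.e (nat_lit 557066) (nat_lit 9) (.e (nat_lit 321) (nat_lit 24) .nil))) .nil)) 
(.lf (nat_lit 81021) (.g (nat_lit 2519) (.e (nat_lit 1849) (nat_lit 124) (.e (nat_lit 557097) (nat_lit 13) (.e (nat_lit 172097) (nat_lit 9) (.e (nat_lit 426140) (nat_lit 3) (.e (nat_lit 204821) (nat_lit 17) (.e (nat_lit 6674) (nat_lit 357) (.e (nat_lit 2940) (nat_lit 184) (.e (nat_lit 433920) (nat_lit 15) .nil)))))))) (.g (nat_lit 7) .nil .nil))))))) 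
(.nd (nat_lit 2) (.nd (nat_lit 3) (.nd (nat_lit 4) (.nd (nat_lit 5) 
(.lf (nat_lit 80963) (.g (nat_lit 1765) (.e (nat_lit 1848) (nat_lit 124) (.e (nat_lit 557108) (nat_lit 15) (.e (nat_lit 188452) (nat_lit 23) (.e (nat_lit 204884) (nat_lit 33) .nil)))) .nil)) 
(.lf (nat_lit 80995) (.g (nat_lit 1295) (.e (nat_lit 1849) (nat_lit 124) (.e (nat_lit 557089) (nat_lit 12) (.e (nat_lit 164031) (nat_lit 53) (.e (nat_lit 761903) (nat_lit 16) (.e (nat_lit 179968) (nat_lit 34) .nil))))) .nil))) (.nd (nat_lit 5) 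
(.lf (nat_lit 80979) (.g (nat_lit 781) (.e (nat_lit 1848) (nat_lit 124) (.e (nat_lit 557108) (nat_lit 15) (.e (nat_lit 188458) (nat_lit 25) (.e (nat_lit 245784) (nat_lit 9) .nil)))) .nil)) 
(.lf (nat_lit 81011) (.g (nat_lit 4505) (.e (nat_lit 1849) (nat_lit 124) (.e (nat_lit 557097) (nat_lit 13) (.e (nat_lit 172097) (nat_lit 9) (.e (nat_lit 426125) (nat_lit 2) (.e (nat_lit 196630) (nat_lit 9) (.e (nat_lit 1669) (nat_lit 116) (.e (nat_lit 401437) (nat_lit 9) (.e (nat_lit 426402) (nat_lit 15) .nil)))))))) (.g (nat_lit 8) .nil .nil))))) (.nd (nat_lit 4) (.nd (nat_lit 5) 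
(.lf (nat_lit 80971) (.g (nat_lit 3164) (.e (nat_lit 1848) (nat_lit 124) (.e (nat_lit 557108) (nat_lit 15) (.e (nat_lit 188452) (nat_lit 23) (.e (nat_lit 204885) (nat_lit 33) (.e (nat_lit 401440) (nat_lit 9) (.e (nat_lit 433920) (nat_lit 15) .nil)))))) (.g (nat_lit 5) .nil .nil))) 
(.lf (nat_lit 81003) (.g (nat_lit 661) (.e (nat_lit 1849) (nat_lit 124) (.e (nat_lit 557091) (nat_lit 12) (.e (nat_lit 164030) (nat_lit 53) .nil))) .nil))) (.nd (nat_lit 5) 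
(.lf (nat_lit 80987) (.g (nat_lit 1724) (.e (nat_lit 1849) (nat_lit 124) (.e (nat_lit 557066) (nat_lit 9) (.e (nat_lit 232) (nat_lit 21) (.e (nat_lit 336060) (nat_lit 7) .nil)))) .nil)) 
(.lf (nat_lit 81019) (.g (nat_lit 2939) (.e (nat_lit 1849) (nat_lit 124) (.e (nat_lit 557097) (nat_lit 13) (.e (nat_lit 172097) (nat_lit 9) (.e (nat_lit 426140) (nat_lit 3) (.e (nat_lit 204821) (nat_lit 17) (.e (nat_lit 6114) (nat_lit 332) (.e (nat_lit 1378) (nat_lit 104) (.e (nat_lit 311040) (nat_lit 15) .nil)))))))) (.g (nat_lit 7) .nil .nil)))))) 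
(.nd (nat_lit 3) (.nd (nat_lit 4) (.nd (nat_lit 5) 
(.lf (nat_lit 80967) (.g (nat_lit 3773) (.e (nat_lit 1848) (nat_lit 124) (.e (nat_lit 557108) (nat_lit 15) (.e (nat_lit 188452) (nat_lit 23) (.e (nat_lit 204885) (nat_lit 33) (.e (nat_lit 401434) (nat_lit 9) (.e (nat_lit 426402) (nat_lit 15) .nil)))))) (.g (nat_lit 6) .nil .nil))) 
(.lf (nat_lit 80999) (.g (nat_lit 2327) (.e (nat_lit 1849) (nat_lit 124) (.e (nat_lit 557090) (nat_lit 12) (.e (nat_lit 164030) (nat_lit 53) (.e (nat_lit 761903) (nat_lit 16) (.e (nat_lit 179968) (nat_lit 34) (.e (nat_lit 393273) (nat_lit 23) (.e (nat_lit 426402) (nat_lit 15) .nil))))))) (.g (nat_lit 4) .nil .nil)))) (.nd (nat_lit 5) 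
(.lf (nat_lit 80983) (.g (nat_lit 5806) (.e (nat_lit 1848) (nat_lit 124) (.e (nat_lit 557109) (nat_lit 15) (.e (nat_lit 188452) (nat_lit 23) (.e (nat_lit 204816) (nat_lit 17) .nil)))) .nil)) 
(.lf (nat_lit 81015) (.g (nat_lit 2413) (.e (nat_lit 1849) (nat_lit 124) (.e (nat_lit 557097) (nat_lit 13) (.e (nat_lit 172097) (nat_lit 9) (.e (nat_lit 426125) (nat_lit 2) (.e (nat_lit 196661) (nat_lit 12) (.e (nat_lit 65280) (nat_lit 205) (.e (nat_lit 179968) (nat_lit 15) .nil))))))) (.g (nat_lit 5) .nil .nil))))) (.nd (nat_lit 4) (.nd (nat_lit 5) 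
(.lf (nat_lit 80975) (.g (nat_lit 2484) (.e (nat_lit 1848) (nat_lit 124) (.e (nat_lit 557108) (nat_lit 15) (.e (nat_lit 188452) (nat_lit 23) (.e (nat_lit 212736) (nat_lit 33) .nil)))) .nil)) 
(.lf (nat_lit 81007) (.g (nat_lit 1646) (.e (nat_lit 1849) (nat_lit 124) (.e (nat_lit 557096) (nat_lit 13) (.e (nat_lit 172126) (nat_lit 14) (.e (nat_lit 491540) (nat_lit 3) (.e (nat_lit 98369) (nat_lit 28) (.e (nat_lit 450304) (nat_lit 0) .nil)))))) (.g (nat_lit 5) .nil .nil)))) (.nd (nat_lit 5) 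
(.lf (nat_lit 80991) (.g (nat_lit 2307) (.e (nat_lit 1849) (nat_lit 124) (.e (nat_lit 557087) (nat_lit 11) (.e (nat_lit 24617) (nat_lit 7) (.e (nat_lit 319504) (nat_lit 10) (.e (nat_lit 7936) (nat_lit 41) .nil))))) .nil)) 
(.lf (nat_lit 81023) (.g (nat_lit 2210) (.e (nat_lit 1849) (nat_lit 124) (.e (nat_lit 557097) (nat_lit 13) (.e (nat_lit 172097) (nat_lit 9) (.e (nat_lit 426140) (nat_lit 3) (.e (nat_lit 204821) (nat_lit 17) (.e (nat_lit 7936) (nat_lit 364) (.e (nat_lit 245504) (nat_lit 15) .nil))))))) (.g (nat_lit 5) .nil .nil)))))))))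

noncomputable def tv1097 : DT := (.nd (nat_lit 0) (.nd (nat_lit 1) (.nd (nat_lit 2) (.nd (nat_lit 3) (.nd (nat_lit 4) (.nd (nat_lit 5) 
(.lf (nat_lit 81024) (.g (nat_lit 885) (.e (nat_lit 1849) (nat_lit 124) (.e (nat_lit 557097) (nat_lit 13) (.e (nat_lit 172105) (nat_lit 10) (.e (nat_lit 434247) (nat_lit 28) (.e (nat_lit 573456) (nat_lit 9) .nil))))) .nil)) 
(.lf (nat_lit 81056) (.g (nat_lit 2113) (.e (nat_lit 1849) (nat_lit 124) (.e (nat_lit 557097) (nat_lit 13) (.e (nat_lit 172115) (nat_lit 10) (.e (nat_lit 434231) (nat_lit 23) (.e (nat_lit 532525) (nat_lit 8) (.e (nat_lit 327718) (nat_lit 19) (.e (nat_lit 311348) (nat_lit 15) .nil))))))) (.g (nat_lit 4) .nil .nil)))) (.nd (nat_lit 5) 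
(.lf (nat_lit 81040) (.g (nat_lit 1776) (.e (nat_lit 1849) (nat_lit 124) (.e (nat_lit 557097) (nat_lit 13) (.e (nat_lit 172115) (nat_lit 10) (.e (nat_lit 434231) (nat_lit 23) (.e (nat_lit 532482) (nat_lit 0) .nil))))) .nil)) 
(.lf (nat_lit 81072) (.g (nat_lit 2398) (.e (nat_lit 1849) (nat_lit 124) (.e (nat_lit 557097) (nat_lit 13) (.e (nat_lit 172115) (nat_lit 10) (.e (nat_lit 434238) (nat_lit 25) (.e (nat_lit 548897) (nat_lit 14) (.e (nat_lit 3004) (nat_lit 186) (.e (nat_lit 450304) (nat_lit 0) .nil))))))) (.g (nat_lit 6) .nil .nil))))) (.nd (nat_lit 4) (.nd (nat_lit 5) 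
(.lf (nat_lit 81032) (.g (nat_lit 2174) (.e (nat_lit 1849) (nat_lit 124) (.e (nat_lit 557097) (nat_lit 13) (.e (nat_lit 172115) (nat_lit 10) (.e (nat_lit 434227) (nat_lit 20) (.e (nat_lit 507930) (nat_lit 10) (.e (nat_lit 5770) (nat_lit 316) (.e (nat_lit 179968) (nat_lit 15) .nil))))))) (.g (nat_lit 6) .nil .nil))) 
(.lf (nat_lit 81064) (.g (nat_lit 2096) (.e (nat_lit 1849) (nat_lit 124) (.e (nat_lit 557097) (nat_lit 13) (.e (nat_lit 172115) (nat_lit 10) (.e (nat_lit 434238) (nat_lit 25) (.e (nat_lit 548896) (nat_lit 14) (.e (nat_lit 2982) (nat_lit 186) (.e (nat_lit 450304) (nat_lit 0) .nil))))))) (.g (nat_lit 5) .nil .nil)))) (.nd (nat_lit 5) 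
(.lf (nat_lit 81048) (.g (nat_lit 4178) (.e (nat_lit 1849) (nat_lit 124) (.e (nat_lit 557097) (nat_lit 13) (.e (nat_lit 172115) (nat_lit 10) (.e (nat_lit 434231) (nat_lit 23) (.e (nat_lit 532490) (nat_lit 0) (.e (nat_lit 6114) (nat_lit 332) (.e (nat_lit 1378) (nat_lit 104) (.e (nat_lit 311040) (nat_lit 15) .nil)))))))) (.g (nat_lit 6) .nil .nil))) 
(.lf (nat_lit 81080) (.g (nat_lit 1013) (.e (nat_lit 1849) (nat_lit 124) (.e (nat_lit 557097) (nat_lit 13) (.e (nat_lit 172115) (nat_lit 10) (.e (nat_lit 434244) (nat_lit 28) .nil)))) .nil))))) (.nd (nat_lit 3) (.nd (nat_lit 4) (.nd (nat_lit 5) 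
(.lf (nat_lit 81028) (.g (nat_lit 2000) (.e (nat_lit 1849) (nat_lit 124) (.e (nat_lit 557097) (nat_lit 13) (.e (nat_lit 172115) (nat_lit 10) (.e (nat_lit 434227) (nat_lit 20) (.e (nat_lit 507929) (nat_lit 10) (.e (nat_lit 5770) (nat_lit 316) (.e (nat_lit 179968) (nat_lit 15) .nil))))))) (.g (nat_lit 6) .nil .nil))) 
(.lf (nat_lit 81060) (.g (nat_lit 4275) (.e (nat_lit 1849) (nat_lit 124) (.e (nat_lit 557097) (nat_lit 13) (.e (nat_lit 172115) (nat_lit 10) (.e (nat_lit 434231) (nat_lit 23) (.e (nat_lit 532569) (nat_lit 16) (.e (nat_lit 401437) (nat_lit 9) (.e (nat_lit 426402) (nat_lit 15) .nil))))))) (.g (nat_lit 0) .nil .nil)))) (.nd (nat_lit 5) 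
(.lf (nat_lit 81044) (.g (nat_lit 2319) (.e (nat_lit 1849) (nat_lit 124) (.e (nat_lit 557097) (nat_lit 13) (.e (nat_lit 172115) (nat_lit 10) (.e (nat_lit 434231) (nat_lit 23) (.e (nat_lit 532486) (nat_lit 0) (.e (nat_lit 6218) (nat_lit 333) (.e (nat_lit 57863) (nat_lit 256) (.e (nat_lit 60) (nat_lit 0) .nil)))))))) (.g (nat_lit 4) .nil .nil))) 
(.lf (nat_lit 81076) (.g (nat_lit 2768) (.e (nat_lit 1849) (nat_lit 124) (.e (nat_lit 557097) (nat_lit 13) (.e (nat_lit 172115) (nat_lit 10) (.e (nat_lit 434238) (nat_lit 25) (.e (nat_lit 548898) (nat_lit 14) (.e (nat_lit 2998) (nat_lit 186) (.e (nat_lit 450304) (nat_lit 0) .nil))))))) (.g (nat_lit 6) .nil .nil))))) (.nd (nat_lit 4) (.nd (nat_lit 5) 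
(.lf (nat_lit 81036) (.g (nat_lit 1279) (.e (nat_lit 1849) (nat_lit 124) (.e (nat_lit 557097) (nat_lit 13) (.e (nat_lit 172115) (nat_lit 10) (.e (nat_lit 434231) (nat_lit 23) .nil)))) .nil)) 
(.lf (nat_lit 81068) (.g (nat_lit 1707) (.e (nat_lit 1849) (nat_lit 124) (.e (nat_lit 557097) (nat_lit 13) (.e (nat_lit 172115) (nat_lit 10) (.e (nat_lit 434238) (nat_lit 25) (.e (nat_lit 548897) (nat_lit 14) .nil))))) .nil))) (.nd (nat_lit 5) 
(.lf (nat_lit 81052) (.g (nat_lit 2224) (.e (nat_lit 1849) (nat_lit 124) (.e (nat_lit 557097) (nat_lit 13) (.e (nat_lit 172115) (nat_lit 10) (.e (nat_lit 434231) (nat_lit 23) (.e (nat_lit 532490) (nat_lit 0) (.e (nat_lit 6223) (nat_lit 334) (.e (nat_lit 123166) (nat_lit 256) (.e (nat_lit 7936) (nat_lit 0) .nil)))))))) (.g (nat_lit 4) .nil .nil))) 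
(.lf (nat_lit 81084) (.g (nat_lit 4055) (.e (nat_lit 1849) (nat_lit 124) (.e (nat_lit 557097) (nat_lit 13) (.e (nat_lit 172115) (nat_lit 10) (.e (nat_lit 434244) (nat_lit 28) (.e (nat_lit 573470) (nat_lit 11) (.e (nat_lit 16438) (nat_lit 9) (.e (nat_lit 426402) (nat_lit 15) .nil))))))) (.g (nat_lit 7) .nil .nil))))))) (.nd (nat_lit 2) (.nd (nat_lit 3) (.nd (nat_lit 4) (.nd (nat_lit 5) 
(.lf (nat_lit 81026) (.g (nat_lit 1881) (.e (nat_lit 1849) (nat_lit 124) (.e (nat_lit 557097) (nat_lit 13) (.e (nat_lit 172115) (nat_lit 10) (.e (nat_lit 434227) (nat_lit 20) (.e (nat_lit 507928) (nat_lit 10) (.e (nat_lit 5772) (nat_lit 316) (.e (nat_lit 179968) (nat_lit 15) .nil))))))) (.g (nat_lit 6) .nil .nil))) 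
(.lf (nat_lit 81058) (.g (nat_lit 3965) (.e (nat_lit 1849) (nat_lit 124) (.e (nat_lit 557097) (nat_lit 13) (.e (nat_lit 172115) (nat_lit 10) (.e (nat_lit 434231) (nat_lit 23) (.e (nat_lit 532568) (nat_lit 16) (.e (nat_lit 401437) (nat_lit 9) (.e (nat_lit 426402) (nat_lit 15) .nil))))))) (.g (nat_lit 0) .nil .nil)))) (.nd (nat_lit 5) 
(.lf (nat_lit 81042) (.g (nat_lit 2834) (.e (nat_lit 1849) (nat_lit 124) (.e (nat_lit 557097) (nat_lit 13) (.e (nat_lit 172115) (nat_lit 10) (.e (nat_lit 434231) (nat_lit 23) (.e (nat_lit 532482) (nat_lit 0) (.e (nat_lit 6720) (nat_lit 361) (.e (nat_lit 179968) (nat_lit 15) .nil))))))) (.g (nat_lit 6) .nil .nil))) 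
(.lf (nat_lit 81074) (.g (nat_lit 2867) (.e (nat_lit 1849) (nat_lit 124) (.e (nat_lit 557097) (nat_lit 13) (.e (nat_lit 172115) (nat_lit 10) (.e (nat_lit 434238) (nat_lit 25) (.e (nat_lit 548898) (nat_lit 14) (.e (nat_lit 2988) (nat_lit 186) (.e (nat_lit 450304) (nat_lit 0) .nil))))))) (.g (nat_lit 6) .nil .nil))))) (.nd (nat_lit 4) (.nd (nat_lit 5) 
(.lf (nat_lit 81034) (.g (nat_lit 1862) (.e (nat_lit 1849) (nat_lit 124) (.e (nat_lit 557097) (nat_lit 13) (.e (nat_lit 172115) (nat_lit 10) (.e (nat_lit 434227) (nat_lit 20) (.e (nat_lit 507930) (nat_lit 10) (.e (nat_lit 5773) (nat_lit 316) (.e (nat_lit 179968) (nat_lit 15) .nil))))))) (.g (nat_lit 6) .nil .nil))) 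
(.lf (nat_lit 81066) (.g (nat_lit 2498) (.e (nat_lit 1849) (nat_lit 124) (.e (nat_lit 557097) (nat_lit 13) (.e (nat_lit 172115) (nat_lit 10) (.e (nat_lit 434238) (nat_lit 25) (.e (nat_lit 548896) (nat_lit 14) (.e (nat_lit 3004) (nat_lit 186) (.e (nat_lit 450304) (nat_lit 0) .nil))))))) (.g (nat_lit 6) .nil .nil)))) (.nd (nat_lit 5) 
(.lf (nat_lit 81050) (.g (nat_lit 2233) (.e (nat_lit 1849) (nat_lit 124) (.e (nat_lit 557097) (nat_lit 13) (.e (nat_lit 172115) (nat_lit 10) (.e (nat_lit 434231) (nat_lit 23) (.e (nat_lit 532490) (nat_lit 0) (.e (nat_lit 6206) (nat_lit 333) (.e (nat_lit 57864) (nat_lit 256) (.e (nat_lit 59) (nat_lit 0) .nil)))))))) (.g (nat_lit 4) .nil .nil))) 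
(.lf (nat_lit 81082) (.g (nat_lit 4190) (.e (nat_lit 1849) (nat_lit 124) (.e (nat_lit 557097) (nat_lit 13) (.e (nat_lit 172115) (nat_lit 10) (.e (nat_lit 434244) (nat_lit 28) (.e (nat_lit 573469) (nat_lit 11) (.e (nat_lit 16438) (nat_lit 9) (.e (nat_lit 426402) (nat_lit 15) .nil))))))) (.g (nat_lit 0) .nil .nil)))))) (.nd (nat_lit 3) (.nd (nat_lit 4) (.nd (nat_lit 5) 
(.lf (nat_lit 81030) (.g (nat_lit 1784) (.e (nat_lit 1849) (nat_lit 124) (.e (nat_lit 557097) (nat_lit 13) (.e (nat_lit 172115) (nat_lit 10) (.e (nat_lit 434227) (nat_lit 20) (.e (nat_lit 507929) (nat_lit 10) (.e (nat_lit 5773) (nat_lit 316) (.e (nat_lit 179968) (nat_lit 15) .nil))))))) (.g (nat_lit 5) .nil .nil))) 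
(.lf (nat_lit 81062) (.g (nat_lit 1900) (.e (nat_lit 1849) (nat_lit 124) (.e (nat_lit 557097) (nat_lit 13) (.e (nat_lit 172115) (nat_lit 10) (.e (nat_lit 434231) (nat_lit 23) (.e (nat_lit 532569) (nat_lit 16) (.e (nat_lit 409344) (nat_lit 9) (.e (nat_lit 426402) (nat_lit 15) .nil))))))) (.g (nat_lit 4) .nil .nil)))) (.nd (nat_lit 5) 
(.lf (nat_lit 81046) (.g (nat_lit 2039) (.e (nat_lit 1849) (nat_lit 124) (.e (nat_lit 557097) (nat_lit 13) (.e (nat_lit 172115) (nat_lit 10) (.e (nat_lit 434231) (nat_lit 23) (.e (nat_lit 532490) (nat_lit 0) .nil))))) .nil)) 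
(.lf (nat_lit 81078) (.g (nat_lit 2925) (.e (nat_lit 1849) (nat_lit 124) (.e (nat_lit 557097) (nat_lit 13) (.e (nat_lit 172115) (nat_lit 10) (.e (nat_lit 434238) (nat_lit 25) (.e (nat_lit 548898) (nat_lit 14) (.e (nat_lit 3004) (nat_lit 186) (.e (nat_lit 450304) (nat_lit 0) .nil))))))) (.g (nat_lit 6) .nil .nil))))) (.nd (nat_lit 4) (.nd (nat_lit 5) 
(.lf (nat_lit 81038) (.g (nat_lit 3082) (.e (nat_lit 1849) (nat_lit 124) (.e (nat_lit 557097) (nat_lit 13) (.e (nat_lit 172115) (nat_lit 10) (.e (nat_lit 434231) (nat_lit 23) (.e (nat_lit 532481) (nat_lit 0) (.e (nat_lit 6718) (nat_lit 361) (.e (nat_lit 179968) (nat_lit 15) .nil))))))) (.g (nat_lit 6) .nil .nil))) 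
(.lf (nat_lit 81070) (.g (nat_lit 2364) (.e (nat_lit 1849) (nat_lit 124) (.e (nat_lit 557097) (nat_lit 13) (.e (nat_lit 172115) (nat_lit 10) (.e (nat_lit 434238) (nat_lit 25) (.e (nat_lit 548897) (nat_lit 14) (.e (nat_lit 2998) (nat_lit 186) (.e (nat_lit 450304) (nat_lit 0) .nil))))))) (.g (nat_lit 6) .nil .nil)))) (.nd (nat_lit 5) 
(.lf (nat_lit 81054) (.g (nat_lit 2711) (.e (nat_lit 1849) (nat_lit 124) (.e (nat_lit 557097) (nat_lit 13) (.e (nat_lit 172115) (nat_lit 10) (.e (nat_lit 434231) (nat_lit 23) (.e (nat_lit 532490) (nat_lit 0) (.e (nat_lit 7936) (nat_lit 364) (.e (nat_lit 245504) (nat_lit 15) .nil))))))) (.g (nat_lit 5) .nil .nil))) 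
(.lf (nat_lit 81086) (.g (nat_lit 4107) (.e (nat_lit 1849) (nat_lit 124) (.e (nat_lit 557097) (nat_lit 13) (.e (nat_lit 172115) (nat_lit 10) (.e (nat_lit 434244) (nat_lit 28) (.e (nat_lit 573471) (nat_lit 11) (.e (nat_lit 16436) (nat_lit 9) (.e (nat_lit 426402) (nat_lit 15) .nil))))))) (.g (nat_lit 0) .nil .nil)))))))) 
(.nd (nat_lit 1) (.nd (nat_lit 2) (.nd (nat_lit 3) (.nd (nat_lit 4) (.nd (nat_lit 5) 
(.lf (nat_lit 81025) (.g (nat_lit 1192) (.e (nat_lit 1849) (nat_lit 124) (.e (nat_lit 557097) (nat_lit 13) (.e (nat_lit 172115) (nat_lit 10) (.e (nat_lit 434227) (nat_lit 20) .nil)))) .nil)) 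
(.lf (nat_lit 81057) (.g (nat_lit 2133) (.e (nat_lit 1849) (nat_lit 124) (.e (nat_lit 557097) (nat_lit 13) (.e (nat_lit 172115) (nat_lit 10) (.e (nat_lit 434231) (nat_lit 23) (.e (nat_lit 532564) (nat_lit 15) .nil))))) .nil))) (.nd (nat_lit 5) 
(.lf (nat_lit 81041) (.g (nat_lit 2782) (.e (nat_lit 1849) (nat_lit 124) (.e (nat_lit 557097) (nat_lit 13) (.e (nat_lit 172115) (nat_lit 10) (.e (nat_lit 434231) (nat_lit 23) (.e (nat_lit 532482) (nat_lit 0) (.e (nat_lit 6718) (nat_lit 361) (.e (nat_lit 179968) (nat_lit 15) .nil))))))) (.g (nat_lit 6) .nil .nil))) 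
(.lf (nat_lit 81073) (.g (nat_lit 2282) (.e (nat_lit 1849) (nat_lit 124) (.e (nat_lit 557097) (nat_lit 13) (.e (nat_lit 172115) (nat_lit 10) (.e (nat_lit 434238) (nat_lit 25) (.e (nat_lit 548897) (nat_lit 14) (.e (nat_lit 3005) (nat_lit 186) (.e (nat_lit 450304) (nat_lit 0) .nil))))))) (.g (nat_lit 5) .nil .nil))))) (.nd (nat_lit 4) (.nd (nat_lit 5) 
(.lf (nat_lit 81033) (.g (nat_lit 1927) (.e (nat_lit 1849) (nat_lit 124) (.e (nat_lit 557097) (nat_lit 13) (.e (nat_lit 172115) (nat_lit 10) (.e (nat_lit 434227) (nat_lit 20) (.e (nat_lit 507930) (nat_lit 10) (.e (nat_lit 5772) (nat_lit 316) (.e (nat_lit 179968) (nat_lit 15) .nil))))))) (.g (nat_lit 6) .nil .nil))) 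
(.lf (nat_lit 81065) (.g (nat_lit 2261) (.e (nat_lit 1849) (nat_lit 124) (.e (nat_lit 557097) (nat_lit 13) (.e (nat_lit 172115) (nat_lit 10) (.e (nat_lit 434238) (nat_lit 25) (.e (nat_lit 548896) (nat_lit 14) (.e (nat_lit 2998) (nat_lit 186) (.e (nat_lit 450304) (nat_lit 0) .nil))))))) (.g (nat_lit 5) .nil .nil)))) (.nd (nat_lit 5) 
(.lf (nat_lit 81049) (.g (nat_lit 2127) (.e (nat_lit 1849) (nat_lit 124) (.e (nat_lit 557097) (nat_lit 13) (.e (nat_lit 172115) (nat_lit 10) (.e (nat_lit 434231) (nat_lit 23) (.e (nat_lit 532490) (nat_lit 0) (.e (nat_lit 6206) (nat_lit 333) (.e (nat_lit 57862) (nat_lit 256) (.e (nat_lit 59) (nat_lit 0) .nil)))))))) (.g (nat_lit 4) .nil .nil))) 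
(.lf (nat_lit 81081) (.g (nat_lit 2283) (.e (nat_lit 1849) (nat_lit 124) (.e (nat_lit 557097) (nat_lit 13) (.e (nat_lit 172115) (nat_lit 10) (.e (nat_lit 434244) (nat_lit 28) (.e (nat_lit 573458) (nat_lit 9) (.e (nat_lit 7936) (nat_lit 37) (.e (nat_lit 474880) (nat_lit 0) .nil))))))) (.g (nat_lit 5) .nil .nil)))))) (.nd (nat_lit 3) (.nd (nat_lit 4) (.nd (nat_lit 5) 
(.lf (nat_lit 81029) (.g (nat_lit 1891) (.e (nat_lit 1849) (nat_lit 124) (.e (nat_lit 557097) (nat_lit 13) (.e (nat_lit 172115) (nat_lit 10) (.e (nat_lit 434227) (nat_lit 20) (.e (nat_lit 507929) (nat_lit 10) (.e (nat_lit 5772) (nat_lit 316) (.e (nat_lit 179968) (nat_lit 15) .nil))))))) (.g (nat_lit 6) .nil .nil))) 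
(.lf (nat_lit 81061) (.g (nat_lit 3064) (.e (nat_lit 1849) (nat_lit 124) (.e (nat_lit 557097) (nat_lit 13) (.e (nat_lit 172115) (nat_lit 10) (.e (nat_lit 434231) (nat_lit 23) (.e (nat_lit 532569) (nat_lit 16) (.e (nat_lit 401440) (nat_lit 9) (.e (nat_lit 433920) (nat_lit 15) .nil))))))) (.g (nat_lit 6) .nil .nil)))) (.nd (nat_lit 5) 
(.lf (nat_lit 81045) (.g (nat_lit 2471) (.e (nat_lit 1849) (nat_lit 124) (.e (nat_lit 557097) (nat_lit 13) (.e (nat_lit 172115) (nat_lit 10) (.e (nat_lit 434231) (nat_lit 23) (.e (nat_lit 532486) (nat_lit 0) (.e (nat_lit 6218) (nat_lit 333) (.e (nat_lit 57864) (nat_lit 256) (.e (nat_lit 60) (nat_lit 0) .nil)))))))) (.g (nat_lit 4) .nil .nil))) 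
(.lf (nat_lit 81077) (.g (nat_lit 3326) (.e (nat_lit 1849) (nat_lit 124) (.e (nat_lit 557097) (nat_lit 13) (.e (nat_lit 172115) (nat_lit 10) (.e (nat_lit 434238) (nat_lit 25) (.e (nat_lit 548898) (nat_lit 14) (.e (nat_lit 2999) (nat_lit 186) (.e (nat_lit 450304) (nat_lit 0) .nil))))))) (.g (nat_lit 6) .nil .nil))))) (.nd (nat_lit 4) (.nd (nat_lit 5) 
(.lf (nat_lit 81037) (.g (nat_lit 1886) (.e (nat_lit 1849) (nat_lit 124) (.e (nat_lit 557097) (nat_lit 13) (.e (nat_lit 172115) (nat_lit 10) (.e (nat_lit 434231) (nat_lit 23) (.e (nat_lit 532481) (nat_lit 0) .nil))))) .nil)) 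
(.lf (nat_lit 81069) (.g (nat_lit 2317) (.e (nat_lit 1849) (nat_lit 124) (.e (nat_lit 557097) (nat_lit 13) (.e (nat_lit 172115) (nat_lit 10) (.e (nat_lit 434238) (nat_lit 25) (.e (nat_lit 548897) (nat_lit 14) (.e (nat_lit 2988) (nat_lit 186) (.e (nat_lit 450304) (nat_lit 0) .nil))))))) (.g (nat_lit 6) .nil .nil)))) (.nd (nat_lit 5) 
(.lf (nat_lit 81053) (.g (nat_lit 2711) (.e (nat_lit 1849) (nat_lit 124) (.e (nat_lit 557097) (nat_lit 13) (.e (nat_lit 172115) (nat_lit 10) (.e (nat_lit 434231) (nat_lit 23) (.e (nat_lit 532490) (nat_lit 0) (.e (nat_lit 7936) (nat_lit 361) (.e (nat_lit 179968) (nat_lit 15) .nil))))))) (.g (nat_lit 5) .nil .nil))) 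
(.lf (nat_lit 81085) (.g (nat_lit 4098) (.e (nat_lit 1849) (nat_lit 124) (.e (nat_lit 557097) (nat_lit 13) (.e (nat_lit 172115) (nat_lit 10) (.e (nat_lit 434244) (nat_lit 28) (.e (nat_lit 573471) (nat_lit 11) (.e (nat_lit 16435) (nat_lit 9) (.e (nat_lit 426402) (nat_lit 15) .nil))))))) (.g (nat_lit 0) .nil .nil))))))) (.nd (nat_lit 2) (.nd (nat_lit 3) (.nd (nat_lit 4) (.nd (nat_lit 5) 
(.lf (nat_lit 81027) (.g (nat_lit 2050) (.e (nat_lit 1849) (nat_lit 124) (.e (nat_lit 557097) (nat_lit 13) (.e (nat_lit 172115) (nat_lit 10) (.e (nat_lit 434227) (nat_lit 20) (.e (nat_lit 507929) (nat_lit 10) (.e (nat_lit 5768) (nat_lit 316) (.e (nat_lit 179968) (nat_lit 15) .nil))))))) (.g (nat_lit 6) .nil .nil))) 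
(.lf (nat_lit 81059) (.g (nat_lit 3730) (.e (nat_lit 1849) (nat_lit 124) (.e (nat_lit 557097) (nat_lit 13) (.e (nat_lit 172115) (nat_lit 10) (.e (nat_lit 434231) (nat_lit 23) (.e (nat_lit 532569) (nat_lit 16) (.e (nat_lit 401436) (nat_lit 9) (.e (nat_lit 426402) (nat_lit 15) .nil))))))) (.g (nat_lit 7) .nil .nil)))) (.nd (nat_lit 5) 
(.lf (nat_lit 81043) (.g (nat_lit 2313) (.e (nat_lit 1849) (nat_lit 124) (.e (nat_lit 557097) (nat_lit 13) (.e (nat_lit 172115) (nat_lit 10) (.e (nat_lit 434231) (nat_lit 23) (.e (nat_lit 532486) (nat_lit 0) (.e (nat_lit 6218) (nat_lit 333) (.e (nat_lit 57862) (nat_lit 256) (.e (nat_lit 60) (nat_lit 0) .nil)))))))) (.g (nat_lit 4) .nil .nil))) 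
(.lf (nat_lit 81075) (.g (nat_lit 1749) (.e (nat_lit 1849) (nat_lit 124) (.e (nat_lit 557097) (nat_lit 13) (.e (nat_lit 172115) (nat_lit 10) (.e (nat_lit 434238) (nat_lit 25) (.e (nat_lit 548898) (nat_lit 14) (.e (nat_lit 2989) (nat_lit 186) (.e (nat_lit 450304) (nat_lit 0) .nil))))))) (.g (nat_lit 4) .nil .nil))))) (.nd (nat_lit 4) (.nd (nat_lit 5) 
(.lf (nat_lit 81035) (.g (nat_lit 1788) (.e (nat_lit 1849) (nat_lit 124) (.e (nat_lit 557097) (nat_lit 13) (.e (nat_lit 172115) (nat_lit 10) (.e (nat_lit 434227) (nat_lit 20) (.e (nat_lit 507947) (nat_lit 19) .nil))))) .nil)) 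
(.lf (nat_lit 81067) (.g (nat_lit 1979) (.e (nat_lit 1849) (nat_lit 124) (.e (nat_lit 557097) (nat_lit 13) (.e (nat_lit 172115) (nat_lit 10) (.e (nat_lit 434238) (nat_lit 25) (.e (nat_lit 548896) (nat_lit 14) (.e (nat_lit 3005) (nat_lit 186) (.e (nat_lit 450304) (nat_lit 0) .nil))))))) (.g (nat_lit 4) .nil .nil)))) (.nd (nat_lit 5) 
(.lf (nat_lit 81051) (.g (nat_lit 2227) (.e (nat_lit 1849) (nat_lit 124) (.e (nat_lit 557097) (nat_lit 13) (.e (nat_lit 172115) (nat_lit 10) (.e (nat_lit 434231) (nat_lit 23) (.e (nat_lit 532490) (nat_lit 0) (.e (nat_lit 6206) (nat_lit 333) (.e (nat_lit 57865) (nat_lit 256) (.e (nat_lit 59) (nat_lit 0) .nil)))))))) (.g (nat_lit 4) .nil .nil))) 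
(.lf (nat_lit 81083) (.g (nat_lit 2748) (.e (nat_lit 1849) (nat_lit 124) (.e (nat_lit 557097) (nat_lit 13) (.e (nat_lit 172115) (nat_lit 10) (.e (nat_lit 434244) (nat_lit 28) (.e (nat_lit 573470) (nat_lit 11) (.e (nat_lit 16435) (nat_lit 9) (.e (nat_lit 426402) (nat_lit 15) .nil))))))) (.g (nat_lit 5) .nil .nil)))))) (.nd (nat_lit 3) (.nd (nat_lit 4) (.nd (nat_lit 5) 
(.lf (nat_lit 81031) (.g (nat_lit 2065) (.e (nat_lit 1849) (nat_lit 124) (.e (nat_lit 557097) (nat_lit 13) (.e (nat_lit 172115) (nat_lit 10) (.e (nat_lit 434227) (nat_lit 20) (.e (nat_lit 507930) (nat_lit 10) (.e (nat_lit 5768) (nat_lit 316) (.e (nat_lit 179968) (nat_lit 15) .nil))))))) (.g (nat_lit 6) .nil .nil))) 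
(.lf (nat_lit 81063) (.g (nat_lit 1238) (.e (nat_lit 1849) (nat_lit 124) (.e (nat_lit 557097) (nat_lit 13) (.e (nat_lit 172115) (nat_lit 10) (.e (nat_lit 434238) (nat_lit 25) .nil)))) .nil))) (.nd (nat_lit 5) 
(.lf (nat_lit 81047) (.g (nat_lit 2075) (.e (nat_lit 1849) (nat_lit 124) (.e (nat_lit 557097) (nat_lit 13) (.e (nat_lit 172115) (nat_lit 10) (.e (nat_lit 434231) (nat_lit 23) (.e (nat_lit 532490) (nat_lit 0) (.e (nat_lit 6092) (nat_lit 332) (.e (nat_lit 1376) (nat_lit 104) (.e (nat_lit 303147) (nat_lit 15) .nil)))))))) (.g (nat_lit 4) .nil .nil))) 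
(.lf (nat_lit 81079) (.g (nat_lit 2897) (.e (nat_lit 1849) (nat_lit 124) (.e (nat_lit 557097) (nat_lit 13) (.e (nat_lit 172115) (nat_lit 10) (.e (nat_lit 434238) (nat_lit 25) (.e (nat_lit 548898) (nat_lit 14) (.e (nat_lit 3005) (nat_lit 186) (.e (nat_lit 450304) (nat_lit 0) .nil))))))) (.g (nat_lit 5) .nil .nil))))) (.nd (nat_lit 4) (.nd (nat_lit 5) 
(.lf (nat_lit 81039) (.g (nat_lit 3147) (.e (nat_lit 1849) (nat_lit 124) (.e (nat_lit 557097) (nat_lit 13) (.e (nat_lit 172115) (nat_lit 10) (.e (nat_lit 434231) (nat_lit 23) (.e (nat_lit 532481) (nat_lit 0) (.e (nat_lit 6720) (nat_lit 361) (.e (nat_lit 179968) (nat_lit 15) .nil))))))) (.g (nat_lit 6) .nil .nil))) 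
(.lf (nat_lit 81071) (.g (nat_lit 2600) (.e (nat_lit 1849) (nat_lit 124) (.e (nat_lit 557097) (nat_lit 13) (.e (nat_lit 172115) (nat_lit 10) (.e (nat_lit 434238) (nat_lit 25) (.e (nat_lit 548897) (nat_lit 14) (.e (nat_lit 2999) (nat_lit 186) (.e (nat_lit 450304) (nat_lit 0) .nil))))))) (.g (nat_lit 6) .nil .nil)))) (.nd (nat_lit 5) 
(.lf (nat_lit 81055) (.g (nat_lit 4210) (.e (nat_lit 1849) (nat_lit 124) (.e (nat_lit 557097) (nat_lit 13) (.e (nat_lit 172115) (nat_lit 10) (.e (nat_lit 434231) (nat_lit 23) (.e (nat_lit 532523) (nat_lit 7) (.e (nat_lit 319538) (nat_lit 19) (.e (nat_lit 311348) (nat_lit 15) .nil))))))) (.g (nat_lit 5) .nil .nil))) 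
(.lf (nat_lit 81087) (.g (nat_lit 3895) (.e (nat_lit 1849) (nat_lit 124) (.e (nat_lit 557097) (nat_lit 13) (.e (nat_lit 172115) (nat_lit 10) (.e (nat_lit 434244) (nat_lit 28) (.e (nat_lit 573471) (nat_lit 11) (.e (nat_lit 16438) (nat_lit 9) (.e (nat_lit 426402) (nat_lit 15) .nil))))))) (.g (nat_lit 7) .nil .nil)))))))))

noncomputable def tv1098 : DT := (.nd (nat_lit 0) (.nd (nat_lit 1) (.nd (nat_lit 2) (.nd (nat_lit 3) (.nd (nat_lit 4) (.nd (nat_lit 5) 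
(.lf (nat_lit 81088) (.g (nat_lit 2907) (.e (nat_lit 1849) (nat_lit 124) (.e (nat_lit 557097) (nat_lit 13) (.e (nat_lit 172115) (nat_lit 10) (.e (nat_lit 434244) (nat_lit 28) (.e (nat_lit 573471) (nat_lit 11) (.e (nat_lit 16439) (nat_lit 9) (.e (nat_lit 433920) (nat_lit 15) .nil))))))) (.g (nat_lit 6) .nil .nil))) 
(.lf (nat_lit 81120) (.g (nat_lit 923) (.e (nat_lit 1849) (nat_lit 124) (.e (nat_lit 557100) (nat_lit 13) (.e (nat_lit 172106) (nat_lit 10) .nil))) .nil))) (.nd (nat_lit 5) 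
(.lf (nat_lit 81104) (.g (nat_lit 2166) (.e (nat_lit 1849) (nat_lit 124) (.e (nat_lit 557098) (nat_lit 13) (.e (nat_lit 172097) (nat_lit 9) (.e (nat_lit 426140) (nat_lit 3) (.e (nat_lit 204821) (nat_lit 17) .nil))))) .nil)) 
(.lf (nat_lit 81136) (.g (nat_lit 1952) (.e (nat_lit 1849) (nat_lit 124) (.e (nat_lit 557103) (nat_lit 14) (.e (nat_lit 180278) (nat_lit 32) (.e (nat_lit 1252) (nat_lit 92) (.e (nat_lit 98370) (nat_lit 28) (.e (nat_lit 450304) (nat_lit 0) .nil)))))) (.g (nat_lit 5) .nil .nil))))) (.nd (nat_lit 4) (.nd (nat_lit 5) 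
(.lf (nat_lit 81096) (.g (nat_lit 1951) (.e (nat_lit 1849) (nat_lit 124) (.e (nat_lit 557097) (nat_lit 13) (.e (nat_lit 172126) (nat_lit 14) (.e (nat_lit 491537) (nat_lit 2) (.e (nat_lit 90176) (nat_lit 15) .nil))))) .nil)) 
(.lf (nat_lit 81128) (.g (nat_lit 1789) (.e (nat_lit 1849) (nat_lit 124) (.e (nat_lit 557103) (nat_lit 14) (.e (nat_lit 180277) (nat_lit 32) (.e (nat_lit 1253) (nat_lit 92) (.e (nat_lit 98358) (nat_lit 26) (.e (nat_lit 426227) (nat_lit 9) (.e (nat_lit 433920) (nat_lit 15) .nil))))))) (.g (nat_lit 4) .nil .nil)))) (.nd (nat_lit 5) 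
(.lf (nat_lit 81112) (.g (nat_lit 2227) (.e (nat_lit 1849) (nat_lit 124) (.e (nat_lit 557098) (nat_lit 13) (.e (nat_lit 172115) (nat_lit 10) (.e (nat_lit 434231) (nat_lit 23) (.e (nat_lit 532567) (nat_lit 16) .nil))))) .nil)) 
(.lf (nat_lit 81144) (.g (nat_lit 1854) (.e (nat_lit 1849) (nat_lit 124) (.e (nat_lit 557103) (nat_lit 14) (.e (nat_lit 180278) (nat_lit 32) (.e (nat_lit 1253) (nat_lit 92) (.e (nat_lit 98381) (nat_lit 31) (.e (nat_lit 474880) (nat_lit 0) .nil)))))) (.g (nat_lit 5) .nil .nil)))))) (.nd (nat_lit 3) (.nd (nat_lit 4) (.nd (nat_lit 5) 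
(.lf (nat_lit 81092) (.g (nat_lit 1880) (.e (nat_lit 1849) (nat_lit 124) (.e (nat_lit 557097) (nat_lit 13) (.e (nat_lit 172124) (nat_lit 14) (.e (nat_lit 491540) (nat_lit 3) (.e (nat_lit 98369) (nat_lit 28) (.e (nat_lit 450304) (nat_lit 0) .nil)))))) (.g (nat_lit 5) .nil .nil))) 
(.lf (nat_lit 81124) (.g (nat_lit 1526) (.e (nat_lit 1849) (nat_lit 124) (.e (nat_lit 557103) (nat_lit 14) (.e (nat_lit 180276) (nat_lit 32) (.e (nat_lit 1077) (nat_lit 81) (.e (nat_lit 1796) (nat_lit 119) (.e (nat_lit 516175) (nat_lit 14) (.e (nat_lit 474880) (nat_lit 0) .nil))))))) (.g (nat_lit 6) .nil .nil)))) (.nd (nat_lit 5) 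
(.lf (nat_lit 81108) (.g (nat_lit 1442) (.e (nat_lit 1849) (nat_lit 124) (.e (nat_lit 557098) (nat_lit 13) (.e (nat_lit 172115) (nat_lit 10) (.e (nat_lit 434231) (nat_lit 23) .nil)))) .nil)) 
(.lf (nat_lit 81140) (.g (nat_lit 1744) (.e (nat_lit 1849) (nat_lit 124) (.e (nat_lit 557103) (nat_lit 14) (.e (nat_lit 180278) (nat_lit 32) (.e (nat_lit 1253) (nat_lit 92) (.e (nat_lit 98369) (nat_lit 28) (.e (nat_lit 450304) (nat_lit 0) .nil)))))) (.g (nat_lit 5) .nil .nil))))) (.nd (nat_lit 4) (.nd (nat_lit 5) 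
(.lf (nat_lit 81100) (.g (nat_lit 1849) (.e (nat_lit 1849) (nat_lit 124) (.e (nat_lit 557097) (nat_lit 13) (.e (nat_lit 172126) (nat_lit 14) (.e (nat_lit 491540) (nat_lit 3) (.e (nat_lit 98369) (nat_lit 28) (.e (nat_lit 450304) (nat_lit 0) .nil)))))) (.g (nat_lit 4) .nil .nil))) 
(.lf (nat_lit 81132) (.g (nat_lit 1860) (.e (nat_lit 1849) (nat_lit 124) (.e (nat_lit 557103) (nat_lit 14) (.e (nat_lit 180278) (nat_lit 32) (.e (nat_lit 1235) (nat_lit 91) (.e (nat_lit 90170) (nat_lit 13) (.e (nat_lit 172095) (nat_lit 9) (.e (nat_lit 433920) (nat_lit 15) .nil))))))) (.g (nat_lit 5) .nil .nil)))) (.nd (nat_lit 5) 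
(.lf (nat_lit 81116) (.g (nat_lit 1931) (.e (nat_lit 1849) (nat_lit 124) (.e (nat_lit 557098) (nat_lit 13) (.e (nat_lit 172115) (nat_lit 10) (.e (nat_lit 434238) (nat_lit 25) (.e (nat_lit 548898) (nat_lit 14) .nil))))) .nil)) 
(.lf (nat_lit 81148) (.g (nat_lit 1640) (.e (nat_lit 1849) (nat_lit 124) (.e (nat_lit 557103) (nat_lit 14) (.e (nat_lit 188160) (nat_lit 35) (.e (nat_lit 57464) (nat_lit 23) (.e (nat_lit 516163) (nat_lit 11) (.e (nat_lit 450304) (nat_lit 0) .nil)))))) (.g (nat_lit 5) .nil .nil))))))) (.nd (nat_lit 2) (.nd (nat_lit 3) (.nd (nat_lit 4) (.nd (nat_lit 5) 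
(.lf (nat_lit 81090) (.g (nat_lit 2281) (.e (nat_lit 1849) (nat_lit 124) (.e (nat_lit 557097) (nat_lit 13) (.e (nat_lit 172120) (nat_lit 12) (.e (nat_lit 475185) (nat_lit 29) (.e (nat_lit 557109) (nat_lit 15) (.e (nat_lit 196352) (nat_lit 0) .nil)))))) (.g (nat_lit 4) .nil .nil))) 
(.lf (nat_lit 81122) (.g (nat_lit 703) (.e (nat_lit 1849) (nat_lit 124) (.e (nat_lit 557103) (nat_lit 14) (.e (nat_lit 180275) (nat_lit 32) .nil))) .nil))) (.nd (nat_lit 5) 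
(.lf (nat_lit 81106) (.g (nat_lit 2208) (.e (nat_lit 1849) (nat_lit 124) (.e (nat_lit 557098) (nat_lit 13) (.e (nat_lit 172097) (nat_lit 9) (.e (nat_lit 426140) (nat_lit 3) (.e (nat_lit 204883) (nat_lit 33) .nil))))) .nil)) 
(.lf (nat_lit 81138) (.g (nat_lit 1735) (.e (nat_lit 1849) (nat_lit 124) (.e (nat_lit 557103) (nat_lit 14) (.e (nat_lit 180278) (nat_lit 32) (.e (nat_lit 1252) (nat_lit 92) (.e (nat_lit 98381) (nat_lit 31) (.e (nat_lit 474880) (nat_lit 0) .nil)))))) (.g (nat_lit 5) .nil .nil))))) (.nd (nat_lit 4) (.nd (nat_lit 5) 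
(.lf (nat_lit 81098) (.g (nat_lit 1405) (.e (nat_lit 1849) (nat_lit 124) (.e (nat_lit 557097) (nat_lit 13) (.e (nat_lit 172126) (nat_lit 14) (.e (nat_lit 491539) (nat_lit 3) .nil)))) .nil)) 
(.lf (nat_lit 81130) (.g (nat_lit 2278) (.e (nat_lit 1849) (nat_lit 124) (.e (nat_lit 557103) (nat_lit 14) (.e (nat_lit 180278) (nat_lit 32) (.e (nat_lit 1234) (nat_lit 91) (.e (nat_lit 90185) (nat_lit 17) (.e (nat_lit 237605) (nat_lit 9) (.e (nat_lit 426402) (nat_lit 15) .nil))))))) (.g (nat_lit 5) .nil .nil)))) (.nd (nat_lit 5) 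
(.lf (nat_lit 81114) (.g (nat_lit 2957) (.e (nat_lit 1849) (nat_lit 124) (.e (nat_lit 557098) (nat_lit 13) (.e (nat_lit 172115) (nat_lit 10) (.e (nat_lit 434231) (nat_lit 23) (.e (nat_lit 532569) (nat_lit 16) (.e (nat_lit 401437) (nat_lit 9) (.e (nat_lit 426402) (nat_lit 15) .nil))))))) (.g (nat_lit 5) .nil .nil))) 
(.lf (nat_lit 81146) (.g (nat_lit 3077) (.e (nat_lit 1849) (nat_lit 124) (.e (nat_lit 557103) (nat_lit 14) (.e (nat_lit 188160) (nat_lit 35) (.e (nat_lit 57464) (nat_lit 23) (.e (nat_lit 516151) (nat_lit 9) (.e (nat_lit 426195) (nat_lit 9) (.e (nat_lit 426402) (nat_lit 15) .nil))))))) (.g (nat_lit 6) .nil .nil)))))) (.nd (nat_lit 3) (.nd (nat_lit 4) (.nd (nat_lit 5) 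
(.lf (nat_lit 81094) (.g (nat_lit 1866) (.e (nat_lit 1849) (nat_lit 124) (.e (nat_lit 557097) (nat_lit 13) (.e (nat_lit 172124) (nat_lit 14) (.e (nat_lit 491540) (nat_lit 3) (.e (nat_lit 98380) (nat_lit 31) (.e (nat_lit 474880) (nat_lit 0) .nil)))))) (.g (nat_lit 5) .nil .nil))) 
(.lf (nat_lit 81126) (.g (nat_lit 1164) (.e (nat_lit 1849) (nat_lit 124) (.e (nat_lit 557103) (nat_lit 14) (.e (nat_lit 180277) (nat_lit 32) (.e (nat_lit 1252) (nat_lit 92) .nil)))) .nil))) (.nd (nat_lit 5) 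
(.lf (nat_lit 81110) (.g (nat_lit 2346) (.e (nat_lit 1849) (nat_lit 124) (.e (nat_lit 557098) (nat_lit 13) (.e (nat_lit 172115) (nat_lit 10) (.e (nat_lit 434231) (nat_lit 23) (.e (nat_lit 532490) (nat_lit 0) (.e (nat_lit 6136) (nat_lit 332) (.e (nat_lit 1386) (nat_lit 105) (.e (nat_lit 311348) (nat_lit 15) .nil)))))))) (.g (nat_lit 4) .nil .nil))) 
(.lf (nat_lit 81142) (.g (nat_lit 1410) (.e (nat_lit 1849) (nat_lit 124) (.e (nat_lit 557103) (nat_lit 14) (.e (nat_lit 180278) (nat_lit 32) (.e (nat_lit 1253) (nat_lit 92) (.e (nat_lit 98371) (nat_lit 28) (.e (nat_lit 450304) (nat_lit 0) .nil)))))) (.g (nat_lit 4) .nil .nil))))) (.nd (nat_lit 4) (.nd (nat_lit 5) 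
(.lf (nat_lit 81102) (.g (nat_lit 2005) (.e (nat_lit 1849) (nat_lit 124) (.e (nat_lit 557097) (nat_lit 13) (.e (nat_lit 172126) (nat_lit 14) (.e (nat_lit 491540) (nat_lit 3) (.e (nat_lit 98381) (nat_lit 31) (.e (nat_lit 474880) (nat_lit 0) .nil)))))) (.g (nat_lit 4) .nil .nil))) 
(.lf (nat_lit 81134) (.g (nat_lit 2558) (.e (nat_lit 1849) (nat_lit 124) (.e (nat_lit 557103) (nat_lit 14) (.e (nat_lit 180278) (nat_lit 32) (.e (nat_lit 1235) (nat_lit 91) (.e (nat_lit 90185) (nat_lit 17) (.e (nat_lit 237605) (nat_lit 9) (.e (nat_lit 426402) (nat_lit 15) .nil))))))) (.g (nat_lit 6) .nil .nil)))) (.nd (nat_lit 5) 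
(.lf (nat_lit 81118) (.g (nat_lit 793) (.e (nat_lit 1849) (nat_lit 124) (.e (nat_lit 557098) (nat_lit 13) (.e (nat_lit 172120) (nat_lit 12) .nil))) .nil)) 
(.lf (nat_lit 81150) (.g (nat_lit 1509) (.e (nat_lit 1849) (nat_lit 124) (.e (nat_lit 557103) (nat_lit 14) (.e (nat_lit 188160) (nat_lit 35) (.e (nat_lit 57464) (nat_lit 23) (.e (nat_lit 516174) (nat_lit 14) (.e (nat_lit 474880) (nat_lit 0) .nil)))))) (.g (nat_lit 5) .nil .nil)))))))) (.nd (nat_lit 1) (.nd (nat_lit 2) (.nd (nat_lit 3) (.nd (nat_lit 4) (.nd (nat_lit 5) 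
(.lf (nat_lit 81089) (.g (nat_lit 1747) (.e (nat_lit 1849) (nat_lit 124) (.e (nat_lit 557097) (nat_lit 13) (.e (nat_lit 172115) (nat_lit 10) (.e (nat_lit 434244) (nat_lit 28) (.e (nat_lit 573471) (nat_lit 11) (.e (nat_lit 16440) (nat_lit 9) (.e (nat_lit 433920) (nat_lit 15) .nil))))))) (.g (nat_lit 4) .nil .nil))) 
(.lf (nat_lit 81121) (.g (nat_lit 2694) (.e (nat_lit 1849) (nat_lit 124) (.e (nat_lit 557100) (nat_lit 13) (.e (nat_lit 172113) (nat_lit 10) (.e (nat_lit 434247) (nat_lit 28) (.e (nat_lit 573469) (nat_lit 11) (.e (nat_lit 16438) (nat_lit 9) (.e (nat_lit 426402) (nat_lit 15) .nil))))))) (.g (nat_lit 4) .nil .nil)))) (.nd (nat_lit 5) 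
(.lf (nat_lit 81105) (.g (nat_lit 2390) (.e (nat_lit 1849) (nat_lit 124) (.e (nat_lit 557098) (nat_lit 13) (.e (nat_lit 172097) (nat_lit 9) (.e (nat_lit 426140) (nat_lit 3) (.e (nat_lit 204821) (nat_lit 17) (.e (nat_lit 6114) (nat_lit 332) (.e (nat_lit 1374) (nat_lit 104) (.e (nat_lit 303147) (nat_lit 15) .nil)))))))) (.g (nat_lit 4) .nil .nil))) 
(.lf (nat_lit 81137) (.g (nat_lit 1654) (.e (nat_lit 1849) (nat_lit 124) (.e (nat_lit 557103) (nat_lit 14) (.e (nat_lit 180278) (nat_lit 32) (.e (nat_lit 1252) (nat_lit 92) (.e (nat_lit 98380) (nat_lit 31) (.e (nat_lit 474880) (nat_lit 0) .nil)))))) (.g (nat_lit 5) .nil .nil))))) (.nd (nat_lit 4) (.nd (nat_lit 5) 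
(.lf (nat_lit 81097) (.g (nat_lit 3678) (.e (nat_lit 1849) (nat_lit 124) (.e (nat_lit 557097) (nat_lit 13) (.e (nat_lit 172126) (nat_lit 14) (.e (nat_lit 491537) (nat_lit 2) (.e (nat_lit 90185) (nat_lit 17) (.e (nat_lit 237605) (nat_lit 9) (.e (nat_lit 426402) (nat_lit 15) .nil))))))) (.g (nat_lit 7) .nil .nil))) 
(.lf (nat_lit 81129) (.g (nat_lit 1441) (.e (nat_lit 1849) (nat_lit 124) (.e (nat_lit 557103) (nat_lit 14) (.e (nat_lit 180277) (nat_lit 32) (.e (nat_lit 1253) (nat_lit 92) (.e (nat_lit 98370) (nat_lit 28) .nil))))) .nil))) (.nd (nat_lit 5) 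
(.lf (nat_lit 81113) (.g (nat_lit 2307) (.e (nat_lit 1849) (nat_lit 124) (.e (nat_lit 557098) (nat_lit 13) (.e (nat_lit 172115) (nat_lit 10) (.e (nat_lit 434231) (nat_lit 23) (.e (nat_lit 532567) (nat_lit 16) (.e (nat_lit 401437) (nat_lit 9) (.e (nat_lit 426402) (nat_lit 15) .nil))))))) (.g (nat_lit 4) .nil .nil))) 
(.lf (nat_lit 81145) (.g (nat_lit 484) (.e (nat_lit 1849) (nat_lit 124) (.e (nat_lit 557103) (nat_lit 14) (.e (nat_lit 188160) (nat_lit 32) .nil))) .nil))))) (.nd (nat_lit 3) (.nd (nat_lit 4) (.nd (nat_lit 5) 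
(.lf (nat_lit 81093) (.g (nat_lit 2250) (.e (nat_lit 1849) (nat_lit 124) (.e (nat_lit 557097) (nat_lit 13) (.e (nat_lit 172124) (nat_lit 14) (.e (nat_lit 491540) (nat_lit 3) (.e (nat_lit 98370) (nat_lit 28) (.e (nat_lit 450304) (nat_lit 0) .nil)))))) (.g (nat_lit 5) .nil .nil))) 
(.lf (nat_lit 81125) (.g (nat_lit 726) (.e (nat_lit 1849) (nat_lit 124) (.e (nat_lit 557103) (nat_lit 14) (.e (nat_lit 180277) (nat_lit 32) .nil))) .nil))) (.nd (nat_lit 5) 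
(.lf (nat_lit 81109) (.g (nat_lit 3426) (.e (nat_lit 1849) (nat_lit 124) (.e (nat_lit 557098) (nat_lit 13) (.e (nat_lit 172115) (nat_lit 10) (.e (nat_lit 434231) (nat_lit 23) (.e (nat_lit 532490) (nat_lit 0) (.e (nat_lit 6114) (nat_lit 332) (.e (nat_lit 1378) (nat_lit 104) (.e (nat_lit 303147) (nat_lit 15) .nil)))))))) (.g (nat_lit 5) .nil .nil))) 
(.lf (nat_lit 81141) (.g (nat_lit 2076) (.e (nat_lit 1849) (nat_lit 124) (.e (nat_lit 557103) (nat_lit 14) (.e (nat_lit 180278) (nat_lit 32) (.e (nat_lit 1253) (nat_lit 92) (.e (nat_lit 98370) (nat_lit 28) (.e (nat_lit 450304) (nat_lit 0) .nil)))))) (.g (nat_lit 5) .nil .nil))))) (.nd (nat_lit 4) (.nd (nat_lit 5) 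
(.lf (nat_lit 81101) (.g (nat_lit 1962) (.e (nat_lit 1849) (nat_lit 124) (.e (nat_lit 557097) (nat_lit 13) (.e (nat_lit 172126) (nat_lit 14) (.e (nat_lit 491540) (nat_lit 3) (.e (nat_lit 98380) (nat_lit 31) .nil))))) .nil)) 
(.lf (nat_lit 81133) (.g (nat_lit 1343) (.e (nat_lit 1849) (nat_lit 124) (.e (nat_lit 557103) (nat_lit 14) (.e (nat_lit 180278) (nat_lit 32) (.e (nat_lit 1235) (nat_lit 91) (.e (nat_lit 90176) (nat_lit 15) .nil))))) .nil))) (.nd (nat_lit 5) 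
(.lf (nat_lit 81117) (.g (nat_lit 1910) (.e (nat_lit 1849) (nat_lit 124) (.e (nat_lit 557098) (nat_lit 13) (.e (nat_lit 172115) (nat_lit 10) (.e (nat_lit 434244) (nat_lit 28) (.e (nat_lit 573471) (nat_lit 11) .nil))))) .nil)) 
(.lf (nat_lit 81149) (.g (nat_lit 1414) (.e (nat_lit 1849) (nat_lit 124) (.e (nat_lit 557103) (nat_lit 14) (.e (nat_lit 188160) (nat_lit 35) (.e (nat_lit 57464) (nat_lit 23) (.e (nat_lit 516164) (nat_lit 11) (.e (nat_lit 450304) (nat_lit 0) .nil)))))) (.g (nat_lit 5) .nil .nil))))))) (.nd (nat_lit 2) (.nd (nat_lit 3) (.nd (nat_lit 4) (.nd (nat_lit 5) 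
(.lf (nat_lit 81091) (.g (nat_lit 2164) (.e (nat_lit 1849) (nat_lit 124) (.e (nat_lit 557097) (nat_lit 13) (.e (nat_lit 172124) (nat_lit 14) (.e (nat_lit 491537) (nat_lit 2) (.e (nat_lit 90185) (nat_lit 17) (.e (nat_lit 237605) (nat_lit 9) (.e (nat_lit 426402) (nat_lit 15) .nil))))))) (.g (nat_lit 4) .nil .nil))) 
(.lf (nat_lit 81123) (.g (nat_lit 1631) (.e (nat_lit 1849) (nat_lit 124) (.e (nat_lit 557103) (nat_lit 14) (.e (nat_lit 180276) (nat_lit 32) (.e (nat_lit 1074) (nat_lit 81) (.e (nat_lit 1796) (nat_lit 119) (.e (nat_lit 516175) (nat_lit 14) (.e (nat_lit 474880) (nat_lit 0) .nil))))))) (.g (nat_lit 6) .nil .nil)))) (.nd (nat_lit 5) 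
(.lf (nat_lit 81107) (.g (nat_lit 626) (.e (nat_lit 1849) (nat_lit 124) (.e (nat_lit 557098) (nat_lit 13) (.e (nat_lit 172115) (nat_lit 10) .nil))) .nil)) 
(.lf (nat_lit 81139) (.g (nat_lit 2668) (.e (nat_lit 1849) (nat_lit 124) (.e (nat_lit 557103) (nat_lit 14) (.e (nat_lit 180278) (nat_lit 32) (.e (nat_lit 1253) (nat_lit 92) (.e (nat_lit 98358) (nat_lit 26) (.e (nat_lit 426227) (nat_lit 9) (.e (nat_lit 433920) (nat_lit 15) .nil))))))) (.g (nat_lit 6) .nil .nil))))) (.nd (nat_lit 4) (.nd (nat_lit 5) 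
(.lf (nat_lit 81099) (.g (nat_lit 2071) (.e (nat_lit 1849) (nat_lit 124) (.e (nat_lit 557097) (nat_lit 13) (.e (nat_lit 172126) (nat_lit 14) (.e (nat_lit 491540) (nat_lit 3) (.e (nat_lit 98365) (nat_lit 26) .nil))))) .nil)) 
(.lf (nat_lit 81131) (.g (nat_lit 2293) (.e (nat_lit 1849) (nat_lit 124) (.e (nat_lit 557103) (nat_lit 14) (.e (nat_lit 180278) (nat_lit 32) (.e (nat_lit 1235) (nat_lit 91) (.e (nat_lit 90134) (nat_lit 9) (.e (nat_lit 3002) (nat_lit 186) (.e (nat_lit 450304) (nat_lit 0) .nil))))))) (.g (nat_lit 5) .nil .nil)))) (.nd (nat_lit 5) 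
(.lf (nat_lit 81115) (.g (nat_lit 1488) (.e (nat_lit 1849) (nat_lit 124) (.e (nat_lit 557098) (nat_lit 13) (.e (nat_lit 172115) (nat_lit 10) (.e (nat_lit 434238) (nat_lit 25) .nil)))) .nil)) 
(.lf (nat_lit 81147) (.g (nat_lit 1173) (.e (nat_lit 1849) (nat_lit 124) (.e (nat_lit 557103) (nat_lit 14) (.e (nat_lit 188160) (nat_lit 35) (.e (nat_lit 57464) (nat_lit 23) (.e (nat_lit 516162) (nat_lit 11) (.e (nat_lit 450304) (nat_lit 0) .nil)))))) (.g (nat_lit 5) .nil .nil)))))) (.nd (nat_lit 3) (.nd (nat_lit 4) (.nd (nat_lit 5) 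
(.lf (nat_lit 81095) (.g (nat_lit 1974) (.e (nat_lit 1849) (nat_lit 124) (.e (nat_lit 557097) (nat_lit 13) (.e (nat_lit 172124) (nat_lit 14) (.e (nat_lit 491540) (nat_lit 3) (.e (nat_lit 98381) (nat_lit 31) (.e (nat_lit 474880) (nat_lit 0) .nil)))))) (.g (nat_lit 5) .nil .nil))) 
(.lf (nat_lit 81127) (.g (nat_lit 1082) (.e (nat_lit 1849) (nat_lit 124) (.e (nat_lit 557103) (nat_lit 14) (.e (nat_lit 180277) (nat_lit 32) (.e (nat_lit 1253) (nat_lit 92) .nil)))) .nil))) (.nd (nat_lit 5) 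
(.lf (nat_lit 81111) (.g (nat_lit 2523) (.e (nat_lit 1849) (nat_lit 124) (.e (nat_lit 557098) (nat_lit 13) (.e (nat_lit 172115) (nat_lit 10) (.e (nat_lit 434231) (nat_lit 23) (.e (nat_lit 532522) (nat_lit 7) .nil))))) .nil)) 
(.lf (nat_lit 81143) (.g (nat_lit 1766) (.e (nat_lit 1849) (nat_lit 124) (.e (nat_lit 557103) (nat_lit 14) (.e (nat_lit 180278) (nat_lit 32) (.e (nat_lit 1253) (nat_lit 92) (.e (nat_lit 98380) (nat_lit 31) (.e (nat_lit 474880) (nat_lit 0) .nil)))))) (.g (nat_lit 5) .nil .nil))))) (.nd (nat_lit 4) (.nd (nat_lit 5) 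
(.lf (nat_lit 81103) (.g (nat_lit 3060) (.e (nat_lit 1849) (nat_lit 124) (.e (nat_lit 557098) (nat_lit 13) (.e (nat_lit 172097) (nat_lit 9) (.e (nat_lit 426125) (nat_lit 2) (.e (nat_lit 196630) (nat_lit 9) (.e (nat_lit 1669) (nat_lit 116) (.e (nat_lit 401437) (nat_lit 9) (.e (nat_lit 426402) (nat_lit 15) .nil)))))))) (.g (nat_lit 5) .nil .nil))) 
(.lf (nat_lit 81135) (.g (nat_lit 1638) (.e (nat_lit 1849) (nat_lit 124) (.e (nat_lit 557103) (nat_lit 14) (.e (nat_lit 180278) (nat_lit 32) (.e (nat_lit 1252) (nat_lit 92) (.e (nat_lit 98369) (nat_lit 28) (.e (nat_lit 450304) (nat_lit 0) .nil)))))) (.g (nat_lit 5) .nil .nil)))) (.nd (nat_lit 5) 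
(.lf (nat_lit 81119) (.g (nat_lit 1522) (.e (nat_lit 1849) (nat_lit 124) (.e (nat_lit 557098) (nat_lit 13) (.e (nat_lit 172124) (nat_lit 14) (.e (nat_lit 491540) (nat_lit 3) .nil)))) .nil)) 
(.lf (nat_lit 81151) (.g (nat_lit 1158) (.e (nat_lit 1849) (nat_lit 124) (.e (nat_lit 557103) (nat_lit 14) (.e (nat_lit 188160) (nat_lit 35) (.e (nat_lit 57464) (nat_lit 23) (.e (nat_lit 516175) (nat_lit 14) (.e (nat_lit 474880) (nat_lit 0) .nil)))))) (.g (nat_lit 5) .nil .nil)))))))))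

noncomputable def tv1099 : DT := (.nd (nat_lit 0) (.nd (nat_lit 1) (.nd (nat_lit 2) (.nd (nat_lit 3) (.nd (nat_lit 4) (.nd (nat_lit 5) 
(.lf (nat_lit 81152) (.g (nat_lit 1454) (.e (nat_lit 1849) (nat_lit 124) (.e (nat_lit 557103) (nat_lit 14) (.e (nat_lit 188160) (nat_lit 35) (.e (nat_lit 57464) (nat_lit 23) (.e (nat_lit 516176) (nat_lit 14) (.e (nat_lit 474880) (nat_lit 0) .nil)))))) (.g (nat_lit 5) .nil .nil))) 
(.lf (nat_lit 81184) (.g (nat_lit 1777) (.e (nat_lit 1849) (nat_lit 124) (.e (nat_lit 557104) (nat_lit 14) (.e (nat_lit 180277) (nat_lit 32) (.e (nat_lit 1253) (nat_lit 92) (.e (nat_lit 98381) (nat_lit 31) (.e (nat_lit 474880) (nat_lit 0) .nil)))))) (.g (nat_lit 5) .nil .nil)))) (.nd (nat_lit 5) 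
(.lf (nat_lit 81168) (.g (nat_lit 1888) (.e (nat_lit 1849) (nat_lit 124) (.e (nat_lit 557104) (nat_lit 14) (.e (nat_lit 180276) (nat_lit 32) (.e (nat_lit 1074) (nat_lit 81) (.e (nat_lit 1796) (nat_lit 119) (.e (nat_lit 516175) (nat_lit 14) (.e (nat_lit 474880) (nat_lit 0) .nil))))))) (.g (nat_lit 6) .nil .nil))) 
(.lf (nat_lit 81200) (.g (nat_lit 2329) (.e (nat_lit 1849) (nat_lit 124) (.e (nat_lit 557104) (nat_lit 14) (.e (nat_lit 180278) (nat_lit 32) (.e (nat_lit 1252) (nat_lit 92) (.e (nat_lit 98381) (nat_lit 31) (.e (nat_lit 474880) (nat_lit 0) .nil)))))) (.g (nat_lit 5) .nil .nil))))) (.nd (nat_lit 4) (.nd (nat_lit 5) 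
(.lf (nat_lit 81160) (.g (nat_lit 1381) (.e (nat_lit 1849) (nat_lit 124) (.e (nat_lit 557103) (nat_lit 14) (.e (nat_lit 180285) (nat_lit 45) (.e (nat_lit 2570) (nat_lit 160) (.e (nat_lit 32807) (nat_lit 18) (.e (nat_lit 172095) (nat_lit 9) (.e (nat_lit 433920) (nat_lit 15) .nil))))))) (.g (nat_lit 6) .nil .nil))) 
(.lf (nat_lit 81192) (.g (nat_lit 2538) (.e (nat_lit 1849) (nat_lit 124) (.e (nat_lit 557104) (nat_lit 14) (.e (nat_lit 180278) (nat_lit 32) (.e (nat_lit 1235) (nat_lit 91) (.e (nat_lit 90170) (nat_lit 13) (.e (nat_lit 172095) (nat_lit 9) (.e (nat_lit 433920) (nat_lit 15) .nil))))))) (.g (nat_lit 6) .nil .nil)))) (.nd (nat_lit 5) 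
(.lf (nat_lit 81176) (.g (nat_lit 1819) (.e (nat_lit 1849) (nat_lit 124) (.e (nat_lit 557104) (nat_lit 14) (.e (nat_lit 180277) (nat_lit 32) (.e (nat_lit 1252) (nat_lit 92) (.e (nat_lit 98370) (nat_lit 28) (.e (nat_lit 450304) (nat_lit 0) .nil)))))) (.g (nat_lit 5) .nil .nil))) 
(.lf (nat_lit 81208) (.g (nat_lit 359) (.e (nat_lit 1849) (nat_lit 124) (.e (nat_lit 557104) (nat_lit 14) (.e (nat_lit 188160) (nat_lit 35) .nil))) .nil))))) (.nd (nat_lit 3) (.nd (nat_lit 4) (.nd (nat_lit 5) 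
(.lf (nat_lit 81156) (.g (nat_lit 1879) (.e (nat_lit 1849) (nat_lit 124) (.e (nat_lit 557103) (nat_lit 14) (.e (nat_lit 188160) (nat_lit 38) (.e (nat_lit 122936) (nat_lit 23) (.e (nat_lit 516176) (nat_lit 14) (.e (nat_lit 474880) (nat_lit 0) .nil)))))) (.g (nat_lit 5) .nil .nil))) 
(.lf (nat_lit 81188) (.g (nat_lit 2603) (.e (nat_lit 1849) (nat_lit 124) (.e (nat_lit 557104) (nat_lit 14) (.e (nat_lit 180278) (nat_lit 32) (.e (nat_lit 1234) (nat_lit 91) (.e (nat_lit 90185) (nat_lit 17) (.e (nat_lit 237601) (nat_lit 9) (.e (nat_lit 426402) (nat_lit 15) .nil))))))) (.g (nat_lit 5) .nil .nil)))) (.nd (nat_lit 5) 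
(.lf (nat_lit 81172) (.g (nat_lit 1963) (.e (nat_lit 1849) (nat_lit 124) (.e (nat_lit 557104) (nat_lit 14) (.e (nat_lit 180277) (nat_lit 32) (.e (nat_lit 1235) (nat_lit 91) (.e (nat_lit 90170) (nat_lit 13) (.e (nat_lit 172095) (nat_lit 9) (.e (nat_lit 433920) (nat_lit 15) .nil))))))) (.g (nat_lit 6) .nil .nil))) 
(.lf (nat_lit 81204) (.g (nat_lit 1977) (.e (nat_lit 1849) (nat_lit 124) (.e (nat_lit 557104) (nat_lit 14) (.e (nat_lit 180278) (nat_lit 32) (.e (nat_lit 1253) (nat_lit 92) (.e (nat_lit 98371) (nat_lit 28) (.e (nat_lit 450304) (nat_lit 0) .nil)))))) (.g (nat_lit 4) .nil .nil))))) (.nd (nat_lit 4) (.nd (nat_lit 5) 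
(.lf (nat_lit 81164) (.g (nat_lit 1386) (.e (nat_lit 1849) (nat_lit 124) (.e (nat_lit 557103) (nat_lit 14) (.e (nat_lit 180285) (nat_lit 45) (.e (nat_lit 2571) (nat_lit 160) (.e (nat_lit 32807) (nat_lit 18) (.e (nat_lit 172095) (nat_lit 9) (.e (nat_lit 433920) (nat_lit 15) .nil))))))) (.g (nat_lit 6) .nil .nil))) 
(.lf (nat_lit 81196) (.g (nat_lit 3017) (.e (nat_lit 1849) (nat_lit 124) (.e (nat_lit 557104) (nat_lit 14) (.e (nat_lit 180278) (nat_lit 32) (.e (nat_lit 1235) (nat_lit 91) (.e (nat_lit 90185) (nat_lit 17) (.e (nat_lit 237603) (nat_lit 9) (.e (nat_lit 426402) (nat_lit 15) .nil))))))) (.g (nat_lit 5) .nil .nil)))) (.nd (nat_lit 5) 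
(.lf (nat_lit 81180) (.g (nat_lit 1661) (.e (nat_lit 1849) (nat_lit 124) (.e (nat_lit 557104) (nat_lit 14) (.e (nat_lit 180277) (nat_lit 32) (.e (nat_lit 1253) (nat_lit 92) (.e (nat_lit 98369) (nat_lit 28) (.e (nat_lit 450304) (nat_lit 0) .nil)))))) (.g (nat_lit 5) .nil .nil))) 
(.lf (nat_lit 81212) (.g (nat_lit 1274) (.e (nat_lit 1849) (nat_lit 124) (.e (nat_lit 557104) (nat_lit 14) (.e (nat_lit 188160) (nat_lit 35) (.e (nat_lit 57464) (nat_lit 23) (.e (nat_lit 516164) (nat_lit 11) (.e (nat_lit 450304) (nat_lit 0) .nil)))))) (.g (nat_lit 5) .nil .nil))))))) (.nd (nat_lit 2) (.nd (nat_lit 3) (.nd (nat_lit 4) (.nd (nat_lit 5) 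
(.lf (nat_lit 81154) (.g (nat_lit 484) (.e (nat_lit 1849) (nat_lit 124) (.e (nat_lit 557103) (nat_lit 14) (.e (nat_lit 188160) (nat_lit 38) .nil))) .nil)) 
(.lf (nat_lit 81186) (.g (nat_lit 2582) (.e (nat_lit 1849) (nat_lit 124) (.e (nat_lit 557104) (nat_lit 14) (.e (nat_lit 180278) (nat_lit 32) (.e (nat_lit 1234) (nat_lit 91) (.e (nat_lit 90170) (nat_lit 13) (.e (nat_lit 172095) (nat_lit 9) (.e (nat_lit 433920) (nat_lit 15) .nil))))))) (.g (nat_lit 6) .nil .nil)))) (.nd (nat_lit 5) 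
(.lf (nat_lit 81170) (.g (nat_lit 2246) (.e (nat_lit 1849) (nat_lit 124) (.e (nat_lit 557104) (nat_lit 14) (.e (nat_lit 180277) (nat_lit 32) (.e (nat_lit 1234) (nat_lit 91) (.e (nat_lit 90185) (nat_lit 17) (.e (nat_lit 237605) (nat_lit 9) (.e (nat_lit 426402) (nat_lit 15) .nil))))))) (.g (nat_lit 5) .nil .nil))) 
(.lf (nat_lit 81202) (.g (nat_lit 2354) (.e (nat_lit 1849) (nat_lit 124) (.e (nat_lit 557104) (nat_lit 14) (.e (nat_lit 180278) (nat_lit 32) (.e (nat_lit 1253) (nat_lit 92) (.e (nat_lit 98369) (nat_lit 28) (.e (nat_lit 450304) (nat_lit 0) .nil)))))) (.g (nat_lit 5) .nil .nil))))) (.nd (nat_lit 4) (.nd (nat_lit 5) 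
(.lf (nat_lit 81162) (.g (nat_lit 955) (.e (nat_lit 1849) (nat_lit 124) (.e (nat_lit 557103) (nat_lit 14) (.e (nat_lit 180285) (nat_lit 45) (.e (nat_lit 2571) (nat_lit 160) (.e (nat_lit 32798) (nat_lit 14) (.e (nat_lit 3048) (nat_lit 189) (.e (nat_lit 474880) (nat_lit 0) .nil))))))) (.g (nat_lit 6) .nil .nil))) 
(.lf (nat_lit 81194) (.g (nat_lit 2379) (.e (nat_lit 1849) (nat_lit 124) (.e (nat_lit 557104) (nat_lit 14) (.e (nat_lit 180278) (nat_lit 32) (.e (nat_lit 1235) (nat_lit 91) (.e (nat_lit 90178) (nat_lit 15) (.e (nat_lit 196352) (nat_lit 0) .nil)))))) (.g (nat_lit 5) .nil .nil)))) (.nd (nat_lit 5) 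
(.lf (nat_lit 81178) (.g (nat_lit 1611) (.e (nat_lit 1849) (nat_lit 124) (.e (nat_lit 557104) (nat_lit 14) (.e (nat_lit 180277) (nat_lit 32) (.e (nat_lit 1252) (nat_lit 92) (.e (nat_lit 98381) (nat_lit 31) (.e (nat_lit 474880) (nat_lit 0) .nil)))))) (.g (nat_lit 5) .nil .nil))) 
(.lf (nat_lit 81210) (.g (nat_lit 1033) (.e (nat_lit 1849) (nat_lit 124) (.e (nat_lit 557104) (nat_lit 14) (.e (nat_lit 188160) (nat_lit 35) (.e (nat_lit 57464) (nat_lit 23) (.e (nat_lit 516162) (nat_lit 11) (.e (nat_lit 450304) (nat_lit 0) .nil)))))) (.g (nat_lit 5) .nil .nil)))))) (.nd (nat_lit 3) (.nd (nat_lit 4) (.nd (nat_lit 5) 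
(.lf (nat_lit 81158) (.g (nat_lit 1460) (.e (nat_lit 1849) (nat_lit 124) (.e (nat_lit 557103) (nat_lit 14) (.e (nat_lit 180285) (nat_lit 45) (.e (nat_lit 2569) (nat_lit 160) (.e (nat_lit 32807) (nat_lit 18) (.e (nat_lit 172095) (nat_lit 9) (.e (nat_lit 433920) (nat_lit 15) .nil))))))) (.g (nat_lit 6) .nil .nil))) 
(.lf (nat_lit 81190) (.g (nat_lit 1910) (.e (nat_lit 1849) (nat_lit 124) (.e (nat_lit 557104) (nat_lit 14) (.e (nat_lit 180278) (nat_lit 32) (.e (nat_lit 1234) (nat_lit 91) (.e (nat_lit 90185) (nat_lit 17) (.e (nat_lit 237604) (nat_lit 9) (.e (nat_lit 426402) (nat_lit 15) .nil))))))) (.g (nat_lit 4) .nil .nil)))) (.nd (nat_lit 5) 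
(.lf (nat_lit 81174) (.g (nat_lit 2178) (.e (nat_lit 1849) (nat_lit 124) (.e (nat_lit 557104) (nat_lit 14) (.e (nat_lit 180277) (nat_lit 32) (.e (nat_lit 1235) (nat_lit 91) (.e (nat_lit 90185) (nat_lit 17) (.e (nat_lit 237601) (nat_lit 9) (.e (nat_lit 426402) (nat_lit 15) .nil))))))) (.g (nat_lit 5) .nil .nil))) 
(.lf (nat_lit 81206) (.g (nat_lit 2449) (.e (nat_lit 1849) (nat_lit 124) (.e (nat_lit 557104) (nat_lit 14) (.e (nat_lit 180278) (nat_lit 32) (.e (nat_lit 1253) (nat_lit 92) (.e (nat_lit 98381) (nat_lit 31) (.e (nat_lit 474880) (nat_lit 0) .nil)))))) (.g (nat_lit 5) .nil .nil))))) (.nd (nat_lit 4) (.nd (nat_lit 5) 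
(.lf (nat_lit 81166) (.g (nat_lit 1281) (.e (nat_lit 1849) (nat_lit 124) (.e (nat_lit 557104) (nat_lit 14) (.e (nat_lit 180275) (nat_lit 32) (.e (nat_lit 1074) (nat_lit 81) (.e (nat_lit 1796) (nat_lit 119) (.e (nat_lit 516175) (nat_lit 14) (.e (nat_lit 474880) (nat_lit 0) .nil))))))) (.g (nat_lit 5) .nil .nil))) 
(.lf (nat_lit 81198) (.g (nat_lit 2554) (.e (nat_lit 1849) (nat_lit 124) (.e (nat_lit 557104) (nat_lit 14) (.e (nat_lit 180278) (nat_lit 32) (.e (nat_lit 1252) (nat_lit 92) (.e (nat_lit 98370) (nat_lit 28) (.e (nat_lit 450304) (nat_lit 0) .nil)))))) (.g (nat_lit 5) .nil .nil)))) (.nd (nat_lit 5) 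
(.lf (nat_lit 81182) (.g (nat_lit 1349) (.e (nat_lit 1849) (nat_lit 124) (.e (nat_lit 557104) (nat_lit 14) (.e (nat_lit 180277) (nat_lit 32) (.e (nat_lit 1253) (nat_lit 92) (.e (nat_lit 98371) (nat_lit 28) (.e (nat_lit 450304) (nat_lit 0) .nil)))))) (.g (nat_lit 4) .nil .nil))) 
(.lf (nat_lit 81214) (.g (nat_lit 1018) (.e (nat_lit 1849) (nat_lit 124) (.e (nat_lit 557104) (nat_lit 14) (.e (nat_lit 188160) (nat_lit 35) (.e (nat_lit 57464) (nat_lit 23) (.e (nat_lit 516175) (nat_lit 14) (.e (nat_lit 474880) (nat_lit 0) .nil)))))) (.g (nat_lit 5) .nil .nil)))))))) (.nd (nat_lit 1) (.nd (nat_lit 2) (.nd (nat_lit 3) (.nd (nat_lit 4) (.nd (nat_lit 5) 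
(.lf (nat_lit 81153) (.g (nat_lit 978) (.e (nat_lit 1849) (nat_lit 124) (.e (nat_lit 557103) (nat_lit 14) (.e (nat_lit 188160) (nat_lit 35) (.e (nat_lit 57464) (nat_lit 23) (.e (nat_lit 516177) (nat_lit 14) (.e (nat_lit 474880) (nat_lit 0) .nil)))))) (.g (nat_lit 4) .nil .nil))) 
(.lf (nat_lit 81185) (.g (nat_lit 523) (.e (nat_lit 1849) (nat_lit 124) (.e (nat_lit 557104) (nat_lit 14) (.e (nat_lit 180278) (nat_lit 32) .nil))) .nil))) (.nd (nat_lit 5) 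
(.lf (nat_lit 81169) (.g (nat_lit 1793) (.e (nat_lit 1849) (nat_lit 124) (.e (nat_lit 557104) (nat_lit 14) (.e (nat_lit 180276) (nat_lit 32) (.e (nat_lit 1077) (nat_lit 81) (.e (nat_lit 1796) (nat_lit 119) (.e (nat_lit 516175) (nat_lit 14) (.e (nat_lit 474880) (nat_lit 0) .nil))))))) (.g (nat_lit 6) .nil .nil))) 
(.lf (nat_lit 81201) (.g (nat_lit 3265) (.e (nat_lit 1849) (nat_lit 124) (.e (nat_lit 557104) (nat_lit 14) (.e (nat_lit 180278) (nat_lit 32) (.e (nat_lit 1253) (nat_lit 92) (.e (nat_lit 98358) (nat_lit 26) (.e (nat_lit 426227) (nat_lit 9) (.e (nat_lit 433920) (nat_lit 15) .nil))))))) (.g (nat_lit 6) .nil .nil))))) (.nd (nat_lit 4) (.nd (nat_lit 5) 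
(.lf (nat_lit 81161) (.g (nat_lit 709) (.e (nat_lit 1849) (nat_lit 124) (.e (nat_lit 557103) (nat_lit 14) (.e (nat_lit 180285) (nat_lit 45) (.e (nat_lit 2571) (nat_lit 160) (.e (nat_lit 32798) (nat_lit 14) (.e (nat_lit 3000) (nat_lit 186) (.e (nat_lit 450304) (nat_lit 0) .nil))))))) (.g (nat_lit 4) .nil .nil))) 
(.lf (nat_lit 81193) (.g (nat_lit 1972) (.e (nat_lit 1849) (nat_lit 124) (.e (nat_lit 557104) (nat_lit 14) (.e (nat_lit 180278) (nat_lit 32) (.e (nat_lit 1235) (nat_lit 91) (.e (nat_lit 90176) (nat_lit 15) (.e (nat_lit 196352) (nat_lit 0) .nil)))))) (.g (nat_lit 4) .nil .nil)))) (.nd (nat_lit 5) 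
(.lf (nat_lit 81177) (.g (nat_lit 1530) (.e (nat_lit 1849) (nat_lit 124) (.e (nat_lit 557104) (nat_lit 14) (.e (nat_lit 180277) (nat_lit 32) (.e (nat_lit 1252) (nat_lit 92) (.e (nat_lit 98380) (nat_lit 31) (.e (nat_lit 474880) (nat_lit 0) .nil)))))) (.g (nat_lit 5) .nil .nil))) 
(.lf (nat_lit 81209) (.g (nat_lit 912) (.e (nat_lit 1849) (nat_lit 124) (.e (nat_lit 557104) (nat_lit 14) (.e (nat_lit 188160) (nat_lit 35) (.e (nat_lit 57454) (nat_lit 21) (.e (nat_lit 507648) (nat_lit 11) (.e (nat_lit 196352) (nat_lit 0) .nil)))))) (.g (nat_lit 4) .nil .nil)))))) (.nd (nat_lit 3) (.nd (nat_lit 4) (.nd (nat_lit 5) 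
(.lf (nat_lit 81157) (.g (nat_lit 1114) (.e (nat_lit 1849) (nat_lit 124) (.e (nat_lit 557103) (nat_lit 14) (.e (nat_lit 180285) (nat_lit 45) (.e (nat_lit 2569) (nat_lit 160) (.e (nat_lit 32807) (nat_lit 18) (.e (nat_lit 172091) (nat_lit 9) (.e (nat_lit 433920) (nat_lit 15) .nil))))))) (.g (nat_lit 6) .nil .nil))) 
(.lf (nat_lit 81189) (.g (nat_lit 3364) (.e (nat_lit 1849) (nat_lit 124) (.e (nat_lit 557104) (nat_lit 14) (.e (nat_lit 180278) (nat_lit 32) (.e (nat_lit 1234) (nat_lit 91) (.e (nat_lit 90185) (nat_lit 17) (.e (nat_lit 237603) (nat_lit 9) (.e (nat_lit 426402) (nat_lit 15) .nil))))))) (.g (nat_lit 5) .nil .nil)))) (.nd (nat_lit 5) 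
(.lf (nat_lit 81173) (.g (nat_lit 1904) (.e (nat_lit 1849) (nat_lit 124) (.e (nat_lit 557104) (nat_lit 14) (.e (nat_lit 180277) (nat_lit 32) (.e (nat_lit 1235) (nat_lit 91) (.e (nat_lit 90178) (nat_lit 15) (.e (nat_lit 196352) (nat_lit 0) .nil)))))) (.g (nat_lit 5) .nil .nil))) 
(.lf (nat_lit 81205) (.g (nat_lit 2372) (.e (nat_lit 1849) (nat_lit 124) (.e (nat_lit 557104) (nat_lit 14) (.e (nat_lit 180278) (nat_lit 32) (.e (nat_lit 1253) (nat_lit 92) (.e (nat_lit 98380) (nat_lit 31) (.e (nat_lit 474880) (nat_lit 0) .nil)))))) (.g (nat_lit 5) .nil .nil))))) (.nd (nat_lit 4) (.nd (nat_lit 5) 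
(.lf (nat_lit 81165) (.g (nat_lit 521) (.e (nat_lit 1849) (nat_lit 124) (.e (nat_lit 557104) (nat_lit 14) (.e (nat_lit 180233) (nat_lit 0) .nil))) .nil)) 
(.lf (nat_lit 81197) (.g (nat_lit 2215) (.e (nat_lit 1849) (nat_lit 124) (.e (nat_lit 557104) (nat_lit 14) (.e (nat_lit 180278) (nat_lit 32) (.e (nat_lit 1252) (nat_lit 92) (.e (nat_lit 98369) (nat_lit 28) (.e (nat_lit 450304) (nat_lit 0) .nil)))))) (.g (nat_lit 5) .nil .nil)))) (.nd (nat_lit 5) 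
(.lf (nat_lit 81181) (.g (nat_lit 1992) (.e (nat_lit 1849) (nat_lit 124) (.e (nat_lit 557104) (nat_lit 14) (.e (nat_lit 180277) (nat_lit 32) (.e (nat_lit 1253) (nat_lit 92) (.e (nat_lit 98370) (nat_lit 28) (.e (nat_lit 450304) (nat_lit 0) .nil)))))) (.g (nat_lit 5) .nil .nil))) 
(.lf (nat_lit 81213) (.g (nat_lit 1369) (.e (nat_lit 1849) (nat_lit 124) (.e (nat_lit 557104) (nat_lit 14) (.e (nat_lit 188160) (nat_lit 35) (.e (nat_lit 57464) (nat_lit 23) (.e (nat_lit 516174) (nat_lit 14) (.e (nat_lit 474880) (nat_lit 0) .nil)))))) (.g (nat_lit 5) .nil .nil))))))) (.nd (nat_lit 2) (.nd (nat_lit 3) (.nd (nat_lit 4) (.nd (nat_lit 5) 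
(.lf (nat_lit 81155) (.g (nat_lit 1542) (.e (nat_lit 1849) (nat_lit 124) (.e (nat_lit 557103) (nat_lit 14) (.e (nat_lit 188160) (nat_lit 38) (.e (nat_lit 122936) (nat_lit 23) (.e (nat_lit 516174) (nat_lit 14) (.e (nat_lit 474880) (nat_lit 0) .nil)))))) (.g (nat_lit 5) .nil .nil))) 
(.lf (nat_lit 81187) (.g (nat_lit 2503) (.e (nat_lit 1849) (nat_lit 124) (.e (nat_lit 557104) (nat_lit 14) (.e (nat_lit 180278) (nat_lit 32) (.e (nat_lit 1234) (nat_lit 91) (.e (nat_lit 90178) (nat_lit 15) (.e (nat_lit 196352) (nat_lit 0) .nil)))))) (.g (nat_lit 5) .nil .nil)))) (.nd (nat_lit 5) 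
(.lf (nat_lit 81171) (.g (nat_lit 2388) (.e (nat_lit 1849) (nat_lit 124) (.e (nat_lit 557104) (nat_lit 14) (.e (nat_lit 180277) (nat_lit 32) (.e (nat_lit 1235) (nat_lit 91) (.e (nat_lit 90134) (nat_lit 9) (.e (nat_lit 3002) (nat_lit 186) (.e (nat_lit 450304) (nat_lit 0) .nil))))))) (.g (nat_lit 6) .nil .nil))) 
(.lf (nat_lit 81203) (.g (nat_lit 2705) (.e (nat_lit 1849) (nat_lit 124) (.e (nat_lit 557104) (nat_lit 14) (.e (nat_lit 180278) (nat_lit 32) (.e (nat_lit 1253) (nat_lit 92) (.e (nat_lit 98370) (nat_lit 28) (.e (nat_lit 450304) (nat_lit 0) .nil)))))) (.g (nat_lit 5) .nil .nil))))) (.nd (nat_lit 4) (.nd (nat_lit 5) 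
(.lf (nat_lit 81163) (.g (nat_lit 1049) (.e (nat_lit 1849) (nat_lit 124) (.e (nat_lit 557103) (nat_lit 14) (.e (nat_lit 180285) (nat_lit 45) (.e (nat_lit 2571) (nat_lit 160) (.e (nat_lit 32807) (nat_lit 18) (.e (nat_lit 172091) (nat_lit 9) (.e (nat_lit 433920) (nat_lit 15) .nil))))))) (.g (nat_lit 6) .nil .nil))) 
(.lf (nat_lit 81195) (.g (nat_lit 2839) (.e (nat_lit 1849) (nat_lit 124) (.e (nat_lit 557104) (nat_lit 14) (.e (nat_lit 180278) (nat_lit 32) (.e (nat_lit 1235) (nat_lit 91) (.e (nat_lit 90185) (nat_lit 17) (.e (nat_lit 237601) (nat_lit 9) (.e (nat_lit 426402) (nat_lit 15) .nil))))))) (.g (nat_lit 5) .nil .nil)))) (.nd (nat_lit 5) 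
(.lf (nat_lit 81179) (.g (nat_lit 2602) (.e (nat_lit 1849) (nat_lit 124) (.e (nat_lit 557104) (nat_lit 14) (.e (nat_lit 180277) (nat_lit 32) (.e (nat_lit 1253) (nat_lit 92) (.e (nat_lit 98358) (nat_lit 26) (.e (nat_lit 426227) (nat_lit 9) (.e (nat_lit 433920) (nat_lit 15) .nil))))))) (.g (nat_lit 6) .nil .nil))) 
(.lf (nat_lit 81211) (.g (nat_lit 1500) (.e (nat_lit 1849) (nat_lit 124) (.e (nat_lit 557104) (nat_lit 14) (.e (nat_lit 188160) (nat_lit 35) (.e (nat_lit 57464) (nat_lit 23) (.e (nat_lit 516163) (nat_lit 11) (.e (nat_lit 450304) (nat_lit 0) .nil)))))) (.g (nat_lit 5) .nil .nil)))))) (.nd (nat_lit 3) (.nd (nat_lit 4) (.nd (nat_lit 5) 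
(.lf (nat_lit 81159) (.g (nat_lit 1043) (.e (nat_lit 1849) (nat_lit 124) (.e (nat_lit 557103) (nat_lit 14) (.e (nat_lit 180285) (nat_lit 45) (.e (nat_lit 2570) (nat_lit 160) (.e (nat_lit 32807) (nat_lit 18) (.e (nat_lit 172091) (nat_lit 9) (.e (nat_lit 433920) (nat_lit 15) .nil))))))) (.g (nat_lit 6) .nil .nil))) 
(.lf (nat_lit 81191) (.g (nat_lit 2892) (.e (nat_lit 1849) (nat_lit 124) (.e (nat_lit 557104) (nat_lit 14) (.e (nat_lit 180278) (nat_lit 32) (.e (nat_lit 1235) (nat_lit 91) (.e (nat_lit 90134) (nat_lit 9) (.e (nat_lit 3002) (nat_lit 186) (.e (nat_lit 450304) (nat_lit 0) .nil))))))) (.g (nat_lit 6) .nil .nil)))) (.nd (nat_lit 5) 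
(.lf (nat_lit 81175) (.g (nat_lit 1505) (.e (nat_lit 1849) (nat_lit 124) (.e (nat_lit 557104) (nat_lit 14) (.e (nat_lit 180277) (nat_lit 32) (.e (nat_lit 1252) (nat_lit 92) (.e (nat_lit 98369) (nat_lit 28) (.e (nat_lit 450304) (nat_lit 0) .nil)))))) (.g (nat_lit 5) .nil .nil))) 
(.lf (nat_lit 81207) (.g (nat_lit 359) (.e (nat_lit 1849) (nat_lit 124) (.e (nat_lit 557104) (nat_lit 14) (.e (nat_lit 188160) (nat_lit 32) .nil))) .nil)))) (.nd (nat_lit 4) (.nd (nat_lit 5) 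
(.lf (nat_lit 81167) (.g (nat_lit 1304) (.e (nat_lit 1849) (nat_lit 124) (.e (nat_lit 557104) (nat_lit 14) (.e (nat_lit 180275) (nat_lit 32) (.e (nat_lit 1077) (nat_lit 81) (.e (nat_lit 1796) (nat_lit 119) (.e (nat_lit 516175) (nat_lit 14) (.e (nat_lit 474880) (nat_lit 0) .nil))))))) (.g (nat_lit 5) .nil .nil))) 
(.lf (nat_lit 81199) (.g (nat_lit 2251) (.e (nat_lit 1849) (nat_lit 124) (.e (nat_lit 557104) (nat_lit 14) (.e (nat_lit 180278) (nat_lit 32) (.e (nat_lit 1252) (nat_lit 92) (.e (nat_lit 98380) (nat_lit 31) (.e (nat_lit 474880) (nat_lit 0) .nil)))))) (.g (nat_lit 5) .nil .nil)))) (.nd (nat_lit 5) 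
(.lf (nat_lit 81183) (.g (nat_lit 1691) (.e (nat_lit 1849) (nat_lit 124) (.e (nat_lit 557104) (nat_lit 14) (.e (nat_lit 180277) (nat_lit 32) (.e (nat_lit 1253) (nat_lit 92) (.e (nat_lit 98380) (nat_lit 31) (.e (nat_lit 474880) (nat_lit 0) .nil)))))) (.g (nat_lit 5) .nil .nil))) 
(.lf (nat_lit 81215) (.g (nat_lit 1314) (.e (nat_lit 1849) (nat_lit 124) (.e (nat_lit 557104) (nat_lit 14) (.e (nat_lit 188160) (nat_lit 35) (.e (nat_lit 57464) (nat_lit 23) (.e (nat_lit 516176) (nat_lit 14) (.e (nat_lit 474880) (nat_lit 0) .nil)))))) (.g (nat_lit 5) .nil .nil)))))))))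

noncomputable def tv1100 : DT := (.nd (nat_lit 0) (.nd (nat_lit 1) (.nd (nat_lit 2) (.nd (nat_lit 3) (.nd (nat_lit 4) (.nd (nat_lit 5) 
(.lf (nat_lit 81216) (.g (nat_lit 838) (.e (nat_lit 1849) (nat_lit 124) (.e (nat_lit 557104) (nat_lit 14) (.e (nat_lit 188160) (nat_lit 35) (.e (nat_lit 57464) (nat_lit 23) (.e (nat_lit 516177) (nat_lit 14) (.e (nat_lit 474880) (nat_lit 0) .nil)))))) (.g (nat_lit 4) .nil .nil))) 
(.lf (nat_lit 81248) (.g (nat_lit 1548) (.e (nat_lit 1849) (nat_lit 124) (.e (nat_lit 557107) (nat_lit 15) (.e (nat_lit 188439) (nat_lit 20) (.e (nat_lit 3272) (nat_lit 199) (.e (nat_lit 548897) (nat_lit 14) (.e (nat_lit 3004) (nat_lit 186) (.e (nat_lit 450304) (nat_lit 0) .nil))))))) (.g (nat_lit 6) .nil .nil)))) (.nd (nat_lit 5) 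
(.lf (nat_lit 81232) (.g (nat_lit 1488) (.e (nat_lit 1849) (nat_lit 124) (.e (nat_lit 557107) (nat_lit 15) (.e (nat_lit 188439) (nat_lit 20) (.e (nat_lit 3270) (nat_lit 199) (.e (nat_lit 548898) (nat_lit 14) (.e (nat_lit 2988) (nat_lit 186) (.e (nat_lit 450304) (nat_lit 0) .nil))))))) (.g (nat_lit 6) .nil .nil))) 
(.lf (nat_lit 81264) (.g (nat_lit 1624) (.e (nat_lit 1849) (nat_lit 124) (.e (nat_lit 557107) (nat_lit 15) (.e (nat_lit 188440) (nat_lit 20) (.e (nat_lit 3272) (nat_lit 199) (.e (nat_lit 548898) (nat_lit 14) .nil))))) .nil)))) (.nd (nat_lit 4) (.nd (nat_lit 5) 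
(.lf (nat_lit 81224) (.g (nat_lit 1900) (.e (nat_lit 1849) (nat_lit 124) (.e (nat_lit 557107) (nat_lit 15) (.e (nat_lit 188420) (nat_lit 0) (.e (nat_lit 1855) (nat_lit 124) (.e (nat_lit 557107) (nat_lit 15) (.e (nat_lit 196352) (nat_lit 0) .nil)))))) (.g (nat_lit 5) .nil .nil))) 
(.lf (nat_lit 81256) (.g (nat_lit 2243) (.e (nat_lit 1849) (nat_lit 124) (.e (nat_lit 557107) (nat_lit 15) (.e (nat_lit 188439) (nat_lit 20) (.e (nat_lit 3272) (nat_lit 199) (.e (nat_lit 548913) (nat_lit 18) (.e (nat_lit 172088) (nat_lit 9) (.e (nat_lit 433920) (nat_lit 15) .nil))))))) (.g (nat_lit 6) .nil .nil)))) (.nd (nat_lit 5) 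
(.lf (nat_lit 81240) (.g (nat_lit 1572) (.e (nat_lit 1849) (nat_lit 124) (.e (nat_lit 557107) (nat_lit 15) (.e (nat_lit 188439) (nat_lit 20) (.e (nat_lit 3271) (nat_lit 199) (.e (nat_lit 548898) (nat_lit 14) (.e (nat_lit 3004) (nat_lit 186) (.e (nat_lit 450304) (nat_lit 0) .nil))))))) (.g (nat_lit 6) .nil .nil))) 
(.lf (nat_lit 81272) (.g (nat_lit 1603) (.e (nat_lit 1849) (nat_lit 124) (.e (nat_lit 557107) (nat_lit 15) (.e (nat_lit 188441) (nat_lit 20) (.e (nat_lit 3272) (nat_lit 199) (.e (nat_lit 548897) (nat_lit 14) .nil))))) .nil))))) (.nd (nat_lit 3) (.nd (nat_lit 4) (.nd (nat_lit 5) 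
(.lf (nat_lit 81220) (.g (nat_lit 2083) (.e (nat_lit 1849) (nat_lit 124) (.e (nat_lit 557105) (nat_lit 14) (.e (nat_lit 180252) (nat_lit 10) (.e (nat_lit 573487) (nat_lit 14) .nil)))) .nil)) 
(.lf (nat_lit 81252) (.g (nat_lit 1983) (.e (nat_lit 1849) (nat_lit 124) (.e (nat_lit 557107) (nat_lit 15) (.e (nat_lit 188439) (nat_lit 20) (.e (nat_lit 3272) (nat_lit 199) (.e (nat_lit 548898) (nat_lit 14) (.e (nat_lit 2998) (nat_lit 186) (.e (nat_lit 450304) (nat_lit 0) .nil))))))) (.g (nat_lit 6) .nil .nil)))) (.nd (nat_lit 5) 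
(.lf (nat_lit 81236) (.g (nat_lit 1513) (.e (nat_lit 1849) (nat_lit 124) (.e (nat_lit 557107) (nat_lit 15) (.e (nat_lit 188439) (nat_lit 20) (.e (nat_lit 3270) (nat_lit 199) (.e (nat_lit 548898) (nat_lit 14) (.e (nat_lit 3005) (nat_lit 186) (.e (nat_lit 450304) (nat_lit 0) .nil))))))) (.g (nat_lit 5) .nil .nil))) 
(.lf (nat_lit 81268) (.g (nat_lit 2332) (.e (nat_lit 1849) (nat_lit 124) (.e (nat_lit 557107) (nat_lit 15) (.e (nat_lit 188440) (nat_lit 20) (.e (nat_lit 3307) (nat_lit 202) (.e (nat_lit 573456) (nat_lit 9) .nil))))) .nil)))) (.nd (nat_lit 4) (.nd (nat_lit 5) 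
(.lf (nat_lit 81228) (.g (nat_lit 1723) (.e (nat_lit 1849) (nat_lit 124) (.e (nat_lit 557107) (nat_lit 15) (.e (nat_lit 196352) (nat_lit 0) (.e (nat_lit 1853) (nat_lit 124) (.e (nat_lit 557107) (nat_lit 15) (.e (nat_lit 196352) (nat_lit 0) .nil)))))) (.g (nat_lit 5) .nil .nil))) 
(.lf (nat_lit 81260) (.g (nat_lit 1392) (.e (nat_lit 1849) (nat_lit 124) (.e (nat_lit 557107) (nat_lit 15) (.e (nat_lit 188440) (nat_lit 20) (.e (nat_lit 3271) (nat_lit 199) (.e (nat_lit 548898) (nat_lit 14) (.e (nat_lit 2998) (nat_lit 186) (.e (nat_lit 450304) (nat_lit 0) .nil))))))) (.g (nat_lit 4) .nil .nil)))) (.nd (nat_lit 5) 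
(.lf (nat_lit 81244) (.g (nat_lit 1514) (.e (nat_lit 1849) (nat_lit 124) (.e (nat_lit 557107) (nat_lit 15) (.e (nat_lit 188439) (nat_lit 20) (.e (nat_lit 3272) (nat_lit 199) (.e (nat_lit 548896) (nat_lit 14) (.e (nat_lit 3004) (nat_lit 186) (.e (nat_lit 450304) (nat_lit 0) .nil))))))) (.g (nat_lit 6) .nil .nil))) 
(.lf (nat_lit 81276) (.g (nat_lit 1758) (.e (nat_lit 1849) (nat_lit 124) (.e (nat_lit 557107) (nat_lit 15) (.e (nat_lit 188447) (nat_lit 22) (.e (nat_lit 196628) (nat_lit 9) (.e (nat_lit 1676) (nat_lit 116) .nil))))) .nil)))))) (.nd (nat_lit 2) (.nd (nat_lit 3) (.nd (nat_lit 4) (.nd (nat_lit 5) 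
(.lf (nat_lit 81218) (.g (nat_lit 1402) (.e (nat_lit 1849) (nat_lit 124) (.e (nat_lit 557104) (nat_lit 14) (.e (nat_lit 188160) (nat_lit 38) (.e (nat_lit 122936) (nat_lit 23) (.e (nat_lit 516174) (nat_lit 14) (.e (nat_lit 474880) (nat_lit 0) .nil)))))) (.g (nat_lit 5) .nil .nil))) 
(.lf (nat_lit 81250) (.g (nat_lit 1898) (.e (nat_lit 1849) (nat_lit 124) (.e (nat_lit 557107) (nat_lit 15) (.e (nat_lit 188439) (nat_lit 20) (.e (nat_lit 3272) (nat_lit 199) (.e (nat_lit 548898) (nat_lit 14) (.e (nat_lit 2988) (nat_lit 186) (.e (nat_lit 450304) (nat_lit 0) .nil))))))) (.g (nat_lit 6) .nil .nil)))) (.nd (nat_lit 5) 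
(.lf (nat_lit 81234) (.g (nat_lit 1927) (.e (nat_lit 1849) (nat_lit 124) (.e (nat_lit 557107) (nat_lit 15) (.e (nat_lit 188439) (nat_lit 20) (.e (nat_lit 3270) (nat_lit 199) (.e (nat_lit 548898) (nat_lit 14) (.e (nat_lit 2999) (nat_lit 186) (.e (nat_lit 450304) (nat_lit 0) .nil))))))) (.g (nat_lit 6) .nil .nil))) 
(.lf (nat_lit 81266) (.g (nat_lit 1645) (.e (nat_lit 1849) (nat_lit 124) (.e (nat_lit 557107) (nat_lit 15) (.e (nat_lit 188440) (nat_lit 20) (.e (nat_lit 3272) (nat_lit 199) (.e (nat_lit 548898) (nat_lit 14) (.e (nat_lit 3004) (nat_lit 186) (.e (nat_lit 450304) (nat_lit 0) .nil))))))) (.g (nat_lit 4) .nil .nil))))) (.nd (nat_lit 4) (.nd (nat_lit 5) 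
(.lf (nat_lit 81226) (.g (nat_lit 1992) (.e (nat_lit 1849) (nat_lit 124) (.e (nat_lit 557107) (nat_lit 15) (.e (nat_lit 188420) (nat_lit 0) (.e (nat_lit 1856) (nat_lit 124) (.e (nat_lit 557107) (nat_lit 15) (.e (nat_lit 196352) (nat_lit 0) .nil)))))) (.g (nat_lit 5) .nil .nil))) 
(.lf (nat_lit 81258) (.g (nat_lit 1121) (.e (nat_lit 1849) (nat_lit 124) (.e (nat_lit 557107) (nat_lit 15) (.e (nat_lit 188440) (nat_lit 20) (.e (nat_lit 3271) (nat_lit 199) .nil)))) .nil))) (.nd (nat_lit 5) 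
(.lf (nat_lit 81242) (.g (nat_lit 1276) (.e (nat_lit 1849) (nat_lit 124) (.e (nat_lit 557107) (nat_lit 15) (.e (nat_lit 188439) (nat_lit 20) (.e (nat_lit 3272) (nat_lit 199) (.e (nat_lit 548896) (nat_lit 14) (.e (nat_lit 2982) (nat_lit 186) (.e (nat_lit 450304) (nat_lit 0) .nil))))))) (.g (nat_lit 5) .nil .nil))) 
(.lf (nat_lit 81274) (.g (nat_lit 1811) (.e (nat_lit 1849) (nat_lit 124) (.e (nat_lit 557107) (nat_lit 15) (.e (nat_lit 188441) (nat_lit 20) (.e (nat_lit 3272) (nat_lit 199) (.e (nat_lit 548898) (nat_lit 14) (.e (nat_lit 3005) (nat_lit 186) (.e (nat_lit 450304) (nat_lit 0) .nil))))))) (.g (nat_lit 4) .nil .nil)))))) (.nd (nat_lit 3) (.nd (nat_lit 4) (.nd (nat_lit 5) 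
(.lf (nat_lit 81222) (.g (nat_lit 2215) (.e (nat_lit 1849) (nat_lit 124) (.e (nat_lit 557105) (nat_lit 14) (.e (nat_lit 180252) (nat_lit 10) (.e (nat_lit 573489) (nat_lit 14) .nil)))) .nil)) 
(.lf (nat_lit 81254) (.g (nat_lit 1923) (.e (nat_lit 1849) (nat_lit 124) (.e (nat_lit 557107) (nat_lit 15) (.e (nat_lit 188439) (nat_lit 20) (.e (nat_lit 3272) (nat_lit 199) (.e (nat_lit 548898) (nat_lit 14) (.e (nat_lit 3004) (nat_lit 186) (.e (nat_lit 450304) (nat_lit 0) .nil))))))) (.g (nat_lit 6) .nil .nil)))) (.nd (nat_lit 5) 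
(.lf (nat_lit 81238) (.g (nat_lit 1570) (.e (nat_lit 1849) (nat_lit 124) (.e (nat_lit 557107) (nat_lit 15) (.e (nat_lit 188439) (nat_lit 20) (.e (nat_lit 3271) (nat_lit 199) (.e (nat_lit 548898) (nat_lit 14) (.e (nat_lit 2998) (nat_lit 186) (.e (nat_lit 450304) (nat_lit 0) .nil))))))) (.g (nat_lit 6) .nil .nil))) 
(.lf (nat_lit 81270) (.g (nat_lit 1134) (.e (nat_lit 1849) (nat_lit 124) (.e (nat_lit 557107) (nat_lit 15) (.e (nat_lit 188441) (nat_lit 20) (.e (nat_lit 3271) (nat_lit 199) .nil)))) .nil)))) (.nd (nat_lit 4) (.nd (nat_lit 5) 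
(.lf (nat_lit 81230) (.g (nat_lit 1704) (.e (nat_lit 1849) (nat_lit 124) (.e (nat_lit 557107) (nat_lit 15) (.e (nat_lit 196352) (nat_lit 0) (.e (nat_lit 1859) (nat_lit 124) (.e (nat_lit 557109) (nat_lit 15) (.e (nat_lit 196352) (nat_lit 0) .nil)))))) (.g (nat_lit 5) .nil .nil))) 
(.lf (nat_lit 81262) (.g (nat_lit 1097) (.e (nat_lit 1849) (nat_lit 124) (.e (nat_lit 557107) (nat_lit 15) (.e (nat_lit 188440) (nat_lit 20) (.e (nat_lit 3272) (nat_lit 199) .nil)))) .nil))) (.nd (nat_lit 5) 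
(.lf (nat_lit 81246) (.g (nat_lit 1404) (.e (nat_lit 1849) (nat_lit 124) (.e (nat_lit 557107) (nat_lit 15) (.e (nat_lit 188439) (nat_lit 20) (.e (nat_lit 3272) (nat_lit 199) (.e (nat_lit 548897) (nat_lit 14) (.e (nat_lit 2998) (nat_lit 186) (.e (nat_lit 450304) (nat_lit 0) .nil))))))) (.g (nat_lit 6) .nil .nil))) 
(.lf (nat_lit 81278) (.g (nat_lit 2542) (.e (nat_lit 1849) (nat_lit 124) (.e (nat_lit 557107) (nat_lit 15) (.e (nat_lit 188447) (nat_lit 22) (.e (nat_lit 196630) (nat_lit 9) (.e (nat_lit 1669) (nat_lit 116) (.e (nat_lit 401436) (nat_lit 9) (.e (nat_lit 426402) (nat_lit 15) .nil))))))) (.g (nat_lit 5) .nil .nil)))))))) 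
(.nd (nat_lit 1) (.nd (nat_lit 2) (.nd (nat_lit 3) (.nd (nat_lit 4) (.nd (nat_lit 5) 
(.lf (nat_lit 81217) (.g (nat_lit 359) (.e (nat_lit 1849) (nat_lit 124) (.e (nat_lit 557104) (nat_lit 14) (.e (nat_lit 188160) (nat_lit 38) .nil))) .nil)) 
(.lf (nat_lit 81249) (.g (nat_lit 1446) (.e (nat_lit 1849) (nat_lit 124) (.e (nat_lit 557107) (nat_lit 15) (.e (nat_lit 188439) (nat_lit 20) (.e (nat_lit 3272) (nat_lit 199) (.e (nat_lit 548897) (nat_lit 14) (.e (nat_lit 3005) (nat_lit 186) (.e (nat_lit 450304) (nat_lit 0) .nil))))))) (.g (nat_lit 5) .nil .nil)))) (.nd (nat_lit 5) 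
(.lf (nat_lit 81233) (.g (nat_lit 1597) (.e (nat_lit 1849) (nat_lit 124) (.e (nat_lit 557107) (nat_lit 15) (.e (nat_lit 188439) (nat_lit 20) (.e (nat_lit 3270) (nat_lit 199) (.e (nat_lit 548898) (nat_lit 14) (.e (nat_lit 2998) (nat_lit 186) (.e (nat_lit 450304) (nat_lit 0) .nil))))))) (.g (nat_lit 6) .nil .nil))) 
(.lf (nat_lit 81265) (.g (nat_lit 1636) (.e (nat_lit 1849) (nat_lit 124) (.e (nat_lit 557107) (nat_lit 15) (.e (nat_lit 188440) (nat_lit 20) (.e (nat_lit 3272) (nat_lit 199) (.e (nat_lit 548898) (nat_lit 14) (.e (nat_lit 2988) (nat_lit 186) (.e (nat_lit 450304) (nat_lit 0) .nil))))))) (.g (nat_lit 4) .nil .nil))))) (.nd (nat_lit 4) (.nd (nat_lit 5) 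
(.lf (nat_lit 81225) (.g (nat_lit 2293) (.e (nat_lit 1849) (nat_lit 124) (.e (nat_lit 557107) (nat_lit 15) (.e (nat_lit 188420) (nat_lit 0) (.e (nat_lit 1855) (nat_lit 124) (.e (nat_lit 557109) (nat_lit 15) (.e (nat_lit 196352) (nat_lit 0) .nil)))))) (.g (nat_lit 5) .nil .nil))) 
(.lf (nat_lit 81257) (.g (nat_lit 2650) (.e (nat_lit 1849) (nat_lit 124) (.e (nat_lit 557107) (nat_lit 15) (.e (nat_lit 188439) (nat_lit 20) (.e (nat_lit 3272) (nat_lit 199) (.e (nat_lit 548913) (nat_lit 18) (.e (nat_lit 172095) (nat_lit 9) (.e (nat_lit 433920) (nat_lit 15) .nil))))))) (.g (nat_lit 6) .nil .nil)))) (.nd (nat_lit 5) 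
(.lf (nat_lit 81241) (.g (nat_lit 1550) (.e (nat_lit 1849) (nat_lit 124) (.e (nat_lit 557107) (nat_lit 15) (.e (nat_lit 188439) (nat_lit 20) (.e (nat_lit 3271) (nat_lit 199) (.e (nat_lit 548898) (nat_lit 14) (.e (nat_lit 3005) (nat_lit 186) (.e (nat_lit 450304) (nat_lit 0) .nil))))))) (.g (nat_lit 6) .nil .nil))) 
(.lf (nat_lit 81273) (.g (nat_lit 1593) (.e (nat_lit 1849) (nat_lit 124) (.e (nat_lit 557107) (nat_lit 15) (.e (nat_lit 188441) (nat_lit 20) (.e (nat_lit 3272) (nat_lit 199) (.e (nat_lit 548898) (nat_lit 14) .nil))))) .nil))))) (.nd (nat_lit 3) (.nd (nat_lit 4) (.nd (nat_lit 5) 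
(.lf (nat_lit 81221) (.g (nat_lit 2100) (.e (nat_lit 1849) (nat_lit 124) (.e (nat_lit 557105) (nat_lit 14) (.e (nat_lit 180252) (nat_lit 10) (.e (nat_lit 573488) (nat_lit 14) .nil)))) .nil)) 
(.lf (nat_lit 81253) (.g (nat_lit 2335) (.e (nat_lit 1849) (nat_lit 124) (.e (nat_lit 557107) (nat_lit 15) (.e (nat_lit 188439) (nat_lit 20) (.e (nat_lit 3272) (nat_lit 199) (.e (nat_lit 548898) (nat_lit 14) (.e (nat_lit 2999) (nat_lit 186) (.e (nat_lit 450304) (nat_lit 0) .nil))))))) (.g (nat_lit 6) .nil .nil)))) (.nd (nat_lit 5) 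
(.lf (nat_lit 81237) (.g (nat_lit 1473) (.e (nat_lit 1849) (nat_lit 124) (.e (nat_lit 557107) (nat_lit 15) (.e (nat_lit 188439) (nat_lit 20) (.e (nat_lit 3271) (nat_lit 199) (.e (nat_lit 548898) (nat_lit 14) (.e (nat_lit 2988) (nat_lit 186) (.e (nat_lit 450304) (nat_lit 0) .nil))))))) (.g (nat_lit 6) .nil .nil))) 
(.lf (nat_lit 81269) (.g (nat_lit 2217) (.e (nat_lit 1849) (nat_lit 124) (.e (nat_lit 557107) (nat_lit 15) (.e (nat_lit 188440) (nat_lit 20) (.e (nat_lit 3307) (nat_lit 202) (.e (nat_lit 573470) (nat_lit 11) .nil))))) .nil)))) (.nd (nat_lit 4) (.nd (nat_lit 5) 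
(.lf (nat_lit 81229) (.g (nat_lit 1635) (.e (nat_lit 1849) (nat_lit 124) (.e (nat_lit 557107) (nat_lit 15) (.e (nat_lit 196352) (nat_lit 0) (.e (nat_lit 1853) (nat_lit 124) (.e (nat_lit 557109) (nat_lit 15) (.e (nat_lit 196352) (nat_lit 0) .nil)))))) (.g (nat_lit 5) .nil .nil))) 
(.lf (nat_lit 81261) (.g (nat_lit 1490) (.e (nat_lit 1849) (nat_lit 124) (.e (nat_lit 557107) (nat_lit 15) (.e (nat_lit 188440) (nat_lit 20) (.e (nat_lit 3271) (nat_lit 199) (.e (nat_lit 548913) (nat_lit 18) (.e (nat_lit 172095) (nat_lit 9) (.e (nat_lit 433920) (nat_lit 15) .nil))))))) (.g (nat_lit 4) .nil .nil)))) (.nd (nat_lit 5) 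
(.lf (nat_lit 81245) (.g (nat_lit 1524) (.e (nat_lit 1849) (nat_lit 124) (.e (nat_lit 557107) (nat_lit 15) (.e (nat_lit 188439) (nat_lit 20) (.e (nat_lit 3272) (nat_lit 199) (.e (nat_lit 548897) (nat_lit 14) (.e (nat_lit 2988) (nat_lit 186) (.e (nat_lit 450304) (nat_lit 0) .nil))))))) (.g (nat_lit 6) .nil .nil))) 
(.lf (nat_lit 81277) (.g (nat_lit 1970) (.e (nat_lit 1849) (nat_lit 124) (.e (nat_lit 557107) (nat_lit 15) (.e (nat_lit 188447) (nat_lit 22) (.e (nat_lit 196630) (nat_lit 9) (.e (nat_lit 1667) (nat_lit 116) .nil))))) .nil)))))) (.nd (nat_lit 2) (.nd (nat_lit 3) (.nd (nat_lit 4) (.nd (nat_lit 5) 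
(.lf (nat_lit 81219) (.g (nat_lit 1739) (.e (nat_lit 1849) (nat_lit 124) (.e (nat_lit 557104) (nat_lit 14) (.e (nat_lit 188160) (nat_lit 38) (.e (nat_lit 122936) (nat_lit 23) (.e (nat_lit 516176) (nat_lit 14) (.e (nat_lit 474880) (nat_lit 0) .nil)))))) (.g (nat_lit 5) .nil .nil))) 
(.lf (nat_lit 81251) (.g (nat_lit 1615) (.e (nat_lit 1849) (nat_lit 124) (.e (nat_lit 557107) (nat_lit 15) (.e (nat_lit 188439) (nat_lit 20) (.e (nat_lit 3272) (nat_lit 199) (.e (nat_lit 548898) (nat_lit 14) (.e (nat_lit 2989) (nat_lit 186) (.e (nat_lit 450304) (nat_lit 0) .nil))))))) (.g (nat_lit 6) .nil .nil)))) (.nd (nat_lit 5) 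
(.lf (nat_lit 81235) (.g (nat_lit 1501) (.e (nat_lit 1849) (nat_lit 124) (.e (nat_lit 557107) (nat_lit 15) (.e (nat_lit 188439) (nat_lit 20) (.e (nat_lit 3270) (nat_lit 199) (.e (nat_lit 548898) (nat_lit 14) (.e (nat_lit 3004) (nat_lit 186) (.e (nat_lit 450304) (nat_lit 0) .nil))))))) (.g (nat_lit 6) .nil .nil))) 
(.lf (nat_lit 81267) (.g (nat_lit 1847) (.e (nat_lit 1849) (nat_lit 124) (.e (nat_lit 557107) (nat_lit 15) (.e (nat_lit 188440) (nat_lit 20) (.e (nat_lit 3272) (nat_lit 199) (.e (nat_lit 548898) (nat_lit 14) (.e (nat_lit 3005) (nat_lit 186) (.e (nat_lit 450304) (nat_lit 0) .nil))))))) (.g (nat_lit 4) .nil .nil))))) (.nd (nat_lit 4) (.nd (nat_lit 5) 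
(.lf (nat_lit 81227) (.g (nat_lit 2093) (.e (nat_lit 1849) (nat_lit 124) (.e (nat_lit 557107) (nat_lit 15) (.e (nat_lit 188420) (nat_lit 0) (.e (nat_lit 1856) (nat_lit 124) (.e (nat_lit 557109) (nat_lit 15) (.e (nat_lit 196352) (nat_lit 0) .nil)))))) (.g (nat_lit 5) .nil .nil))) 
(.lf (nat_lit 81259) (.g (nat_lit 1380) (.e (nat_lit 1849) (nat_lit 124) (.e (nat_lit 557107) (nat_lit 15) (.e (nat_lit 188440) (nat_lit 20) (.e (nat_lit 3271) (nat_lit 199) (.e (nat_lit 548898) (nat_lit 14) .nil))))) .nil))) (.nd (nat_lit 5) 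
(.lf (nat_lit 81243) (.g (nat_lit 1460) (.e (nat_lit 1849) (nat_lit 124) (.e (nat_lit 557107) (nat_lit 15) (.e (nat_lit 188439) (nat_lit 20) (.e (nat_lit 3272) (nat_lit 199) (.e (nat_lit 548896) (nat_lit 14) (.e (nat_lit 2998) (nat_lit 186) (.e (nat_lit 450304) (nat_lit 0) .nil))))))) (.g (nat_lit 6) .nil .nil))) 
(.lf (nat_lit 81275) (.g (nat_lit 2062) (.e (nat_lit 1849) (nat_lit 124) (.e (nat_lit 557107) (nat_lit 15) (.e (nat_lit 188447) (nat_lit 22) (.e (nat_lit 196628) (nat_lit 9) (.e (nat_lit 968) (nat_lit 81) (.e (nat_lit 6719) (nat_lit 361) (.e (nat_lit 179968) (nat_lit 15) .nil))))))) (.g (nat_lit 5) .nil .nil)))))) (.nd (nat_lit 3) (.nd (nat_lit 4) (.nd (nat_lit 5) 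
(.lf (nat_lit 81223) (.g (nat_lit 2343) (.e (nat_lit 1849) (nat_lit 124) (.e (nat_lit 557107) (nat_lit 15) (.e (nat_lit 188418) (nat_lit 0) (.e (nat_lit 1856) (nat_lit 124) (.e (nat_lit 557109) (nat_lit 15) (.e (nat_lit 196352) (nat_lit 0) .nil)))))) (.g (nat_lit 5) .nil .nil))) 
(.lf (nat_lit 81255) (.g (nat_lit 1958) (.e (nat_lit 1849) (nat_lit 124) (.e (nat_lit 557107) (nat_lit 15) (.e (nat_lit 188439) (nat_lit 20) (.e (nat_lit 3272) (nat_lit 199) (.e (nat_lit 548898) (nat_lit 14) (.e (nat_lit 3005) (nat_lit 186) (.e (nat_lit 450304) (nat_lit 0) .nil))))))) (.g (nat_lit 6) .nil .nil)))) (.nd (nat_lit 5) 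
(.lf (nat_lit 81239) (.g (nat_lit 1925) (.e (nat_lit 1849) (nat_lit 124) (.e (nat_lit 557107) (nat_lit 15) (.e (nat_lit 188439) (nat_lit 20) (.e (nat_lit 3271) (nat_lit 199) (.e (nat_lit 548898) (nat_lit 14) (.e (nat_lit 2999) (nat_lit 186) (.e (nat_lit 450304) (nat_lit 0) .nil))))))) (.g (nat_lit 6) .nil .nil))) 
(.lf (nat_lit 81271) (.g (nat_lit 1785) (.e (nat_lit 1849) (nat_lit 124) (.e (nat_lit 557107) (nat_lit 15) (.e (nat_lit 188441) (nat_lit 20) (.e (nat_lit 3272) (nat_lit 199) (.e (nat_lit 548896) (nat_lit 14) .nil))))) .nil)))) (.nd (nat_lit 4) (.nd (nat_lit 5) 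
(.lf (nat_lit 81231) (.g (nat_lit 383) (.e (nat_lit 1849) (nat_lit 124) (.e (nat_lit 557107) (nat_lit 15) (.e (nat_lit 188439) (nat_lit 20) .nil))) .nil)) 
(.lf (nat_lit 81263) (.g (nat_lit 1694) (.e (nat_lit 1849) (nat_lit 124) (.e (nat_lit 557107) (nat_lit 15) (.e (nat_lit 188440) (nat_lit 20) (.e (nat_lit 3272) (nat_lit 199) (.e (nat_lit 548897) (nat_lit 14) .nil))))) .nil))) (.nd (nat_lit 5) 
(.lf (nat_lit 81247) (.g (nat_lit 1788) (.e (nat_lit 1849) (nat_lit 124) (.e (nat_lit 557107) (nat_lit 15) (.e (nat_lit 188439) (nat_lit 20) (.e (nat_lit 3272) (nat_lit 199) (.e (nat_lit 548897) (nat_lit 14) (.e (nat_lit 2999) (nat_lit 186) (.e (nat_lit 450304) (nat_lit 0) .nil))))))) (.g (nat_lit 6) .nil .nil))) 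
(.lf (nat_lit 81279) (.g (nat_lit 3713) (.e (nat_lit 1849) (nat_lit 124) (.e (nat_lit 557107) (nat_lit 15) (.e (nat_lit 188447) (nat_lit 22) (.e (nat_lit 196630) (nat_lit 9) (.e (nat_lit 1669) (nat_lit 116) (.e (nat_lit 401437) (nat_lit 9) (.e (nat_lit 426402) (nat_lit 15) .nil))))))) (.g (nat_lit 7) .nil .nil)))))))))

noncomputable def tv1101 : DT := (.nd (nat_lit 0) (.nd (nat_lit 1) (.nd (nat_lit 2) (.nd (nat_lit 3) (.nd (nat_lit 4) (.nd (nat_lit 5) 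
(.lf (nat_lit 81280) (.g (nat_lit 1200) (.e (nat_lit 1849) (nat_lit 124) (.e (nat_lit 557107) (nat_lit 15) (.e (nat_lit 188447) (nat_lit 22) (.e (nat_lit 196661) (nat_lit 12) .nil)))) .nil)) 
(.lf (nat_lit 81312) (.g (nat_lit 1713) (.e (nat_lit 1849) (nat_lit 124) (.e (nat_lit 557107) (nat_lit 15) (.e (nat_lit 188450) (nat_lit 23) (.e (nat_lit 204885) (nat_lit 33) (.e (nat_lit 401440) (nat_lit 9) (.e (nat_lit 433920) (nat_lit 15) .nil)))))) (.g (nat_lit 5) .nil .nil)))) (.nd (nat_lit 5) 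
(.lf (nat_lit 81296) (.g (nat_lit 2203) (.e (nat_lit 1849) (nat_lit 124) (.e (nat_lit 557107) (nat_lit 15) (.e (nat_lit 188450) (nat_lit 23) (.e (nat_lit 204821) (nat_lit 17) (.e (nat_lit 6114) (nat_lit 332) (.e (nat_lit 1378) (nat_lit 104) (.e (nat_lit 311040) (nat_lit 15) .nil))))))) (.g (nat_lit 6) .nil .nil))) 
(.lf (nat_lit 81328) (.g (nat_lit 1963) (.e (nat_lit 1849) (nat_lit 124) (.e (nat_lit 557108) (nat_lit 15) (.e (nat_lit 188434) (nat_lit 20) (.e (nat_lit 3271) (nat_lit 199) (.e (nat_lit 548898) (nat_lit 14) (.e (nat_lit 3004) (nat_lit 186) (.e (nat_lit 450304) (nat_lit 0) .nil))))))) (.g (nat_lit 6) .nil .nil))))) (.nd (nat_lit 4) (.nd (nat_lit 5) 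
(.lf (nat_lit 81288) (.g (nat_lit 1895) (.e (nat_lit 1849) (nat_lit 124) (.e (nat_lit 557107) (nat_lit 15) (.e (nat_lit 188450) (nat_lit 23) (.e (nat_lit 204816) (nat_lit 17) (.e (nat_lit 6720) (nat_lit 361) (.e (nat_lit 179968) (nat_lit 15) .nil)))))) (.g (nat_lit 5) .nil .nil))) 
(.lf (nat_lit 81320) (.g (nat_lit 3516) (.e (nat_lit 1849) (nat_lit 124) (.e (nat_lit 557107) (nat_lit 15) (.e (nat_lit 188452) (nat_lit 23) (.e (nat_lit 204885) (nat_lit 33) (.e (nat_lit 401436) (nat_lit 9) .nil))))) .nil))) (.nd (nat_lit 5) 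
(.lf (nat_lit 81304) (.g (nat_lit 1610) (.e (nat_lit 1849) (nat_lit 124) (.e (nat_lit 557107) (nat_lit 15) (.e (nat_lit 188450) (nat_lit 23) (.e (nat_lit 204846) (nat_lit 24) (.e (nat_lit 319538) (nat_lit 19) (.e (nat_lit 311348) (nat_lit 15) .nil)))))) (.g (nat_lit 6) .nil .nil))) 
(.lf (nat_lit 81336) (.g (nat_lit 1942) (.e (nat_lit 1849) (nat_lit 124) (.e (nat_lit 557108) (nat_lit 15) (.e (nat_lit 188434) (nat_lit 20) (.e (nat_lit 3272) (nat_lit 199) (.e (nat_lit 548896) (nat_lit 14) (.e (nat_lit 3004) (nat_lit 186) (.e (nat_lit 450304) (nat_lit 0) .nil))))))) (.g (nat_lit 6) .nil .nil)))))) (.nd (nat_lit 3) (.nd (nat_lit 4) (.nd (nat_lit 5) 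
(.lf (nat_lit 81284) (.g (nat_lit 414) (.e (nat_lit 1849) (nat_lit 124) (.e (nat_lit 557107) (nat_lit 15) (.e (nat_lit 188450) (nat_lit 23) .nil))) .nil)) 
(.lf (nat_lit 81316) (.g (nat_lit 3558) (.e (nat_lit 1849) (nat_lit 124) (.e (nat_lit 557107) (nat_lit 15) (.e (nat_lit 188452) (nat_lit 23) (.e (nat_lit 204884) (nat_lit 33) (.e (nat_lit 401437) (nat_lit 9) (.e (nat_lit 426402) (nat_lit 15) .nil)))))) (.g (nat_lit 4) .nil .nil)))) (.nd (nat_lit 5) 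
(.lf (nat_lit 81300) (.g (nat_lit 1496) (.e (nat_lit 1849) (nat_lit 124) (.e (nat_lit 557107) (nat_lit 15) (.e (nat_lit 188450) (nat_lit 23) (.e (nat_lit 204821) (nat_lit 17) (.e (nat_lit 6676) (nat_lit 357) .nil))))) .nil)) 
(.lf (nat_lit 81332) (.g (nat_lit 1956) (.e (nat_lit 1849) (nat_lit 124) (.e (nat_lit 557108) (nat_lit 15) (.e (nat_lit 188434) (nat_lit 20) (.e (nat_lit 3271) (nat_lit 199) (.e (nat_lit 548915) (nat_lit 20) (.e (nat_lit 196352) (nat_lit 0) .nil)))))) (.g (nat_lit 5) .nil .nil))))) (.nd (nat_lit 4) (.nd (nat_lit 5) 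
(.lf (nat_lit 81292) (.g (nat_lit 1116) (.e (nat_lit 1849) (nat_lit 124) (.e (nat_lit 557107) (nat_lit 15) (.e (nat_lit 188450) (nat_lit 23) (.e (nat_lit 204819) (nat_lit 17) .nil)))) .nil)) 
(.lf (nat_lit 81324) (.g (nat_lit 919) (.e (nat_lit 1849) (nat_lit 124) (.e (nat_lit 557108) (nat_lit 15) (.e (nat_lit 188434) (nat_lit 20) (.e (nat_lit 3271) (nat_lit 199) (.e (nat_lit 548898) (nat_lit 14) .nil))))) .nil))) (.nd (nat_lit 5) 
(.lf (nat_lit 81308) (.g (nat_lit 2698) (.e (nat_lit 1849) (nat_lit 124) (.e (nat_lit 557107) (nat_lit 15) (.e (nat_lit 188450) (nat_lit 23) (.e (nat_lit 204884) (nat_lit 33) (.e (nat_lit 401437) (nat_lit 9) (.e (nat_lit 426402) (nat_lit 15) .nil)))))) (.g (nat_lit 0) .nil .nil))) 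
(.lf (nat_lit 81340) (.g (nat_lit 1736) (.e (nat_lit 1849) (nat_lit 124) (.e (nat_lit 557108) (nat_lit 15) (.e (nat_lit 188434) (nat_lit 20) (.e (nat_lit 3272) (nat_lit 199) (.e (nat_lit 548897) (nat_lit 14) (.e (nat_lit 2998) (nat_lit 186) (.e (nat_lit 450304) (nat_lit 0) .nil))))))) (.g (nat_lit 6) .nil .nil))))))) (.nd (nat_lit 2) (.nd (nat_lit 3) (.nd (nat_lit 4) (.nd (nat_lit 5) 
(.lf (nat_lit 81282) (.g (nat_lit 1602) (.e (nat_lit 1849) (nat_lit 124) (.e (nat_lit 557107) (nat_lit 15) (.e (nat_lit 188447) (nat_lit 22) (.e (nat_lit 196661) (nat_lit 12) (.e (nat_lit 65280) (nat_lit 205) (.e (nat_lit 179968) (nat_lit 15) .nil)))))) (.g (nat_lit 4) .nil .nil))) 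
(.lf (nat_lit 81314) (.g (nat_lit 2420) (.e (nat_lit 1849) (nat_lit 124) (.e (nat_lit 557107) (nat_lit 15) (.e (nat_lit 188452) (nat_lit 23) (.e (nat_lit 204816) (nat_lit 17) .nil)))) .nil))) (.nd (nat_lit 5) 
(.lf (nat_lit 81298) (.g (nat_lit 1491) (.e (nat_lit 1849) (nat_lit 124) (.e (nat_lit 557107) (nat_lit 15) (.e (nat_lit 188450) (nat_lit 23) (.e (nat_lit 204821) (nat_lit 17) (.e (nat_lit 6671) (nat_lit 357) .nil))))) .nil)) 
(.lf (nat_lit 81330) (.g (nat_lit 1573) (.e (nat_lit 1849) (nat_lit 124) (.e (nat_lit 557108) (nat_lit 15) (.e (nat_lit 188434) (nat_lit 20) (.e (nat_lit 3271) (nat_lit 199) (.e (nat_lit 548913) (nat_lit 18) (.e (nat_lit 172088) (nat_lit 9) (.e (nat_lit 433920) (nat_lit 15) .nil))))))) (.g (nat_lit 5) .nil .nil))))) (.nd (nat_lit 4) (.nd (nat_lit 5) 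
(.lf (nat_lit 81290) (.g (nat_lit 1370) (.e (nat_lit 1849) (nat_lit 124) (.e (nat_lit 557107) (nat_lit 15) (.e (nat_lit 188450) (nat_lit 23) (.e (nat_lit 204817) (nat_lit 17) (.e (nat_lit 7936) (nat_lit 357) .nil))))) .nil)) 
(.lf (nat_lit 81322) (.g (nat_lit 1475) (.e (nat_lit 1849) (nat_lit 124) (.e (nat_lit 557108) (nat_lit 15) (.e (nat_lit 196352) (nat_lit 0) (.e (nat_lit 1860) (nat_lit 124) (.e (nat_lit 557107) (nat_lit 15) (.e (nat_lit 196352) (nat_lit 0) .nil)))))) (.g (nat_lit 4) .nil .nil)))) (.nd (nat_lit 5) 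
(.lf (nat_lit 81306) (.g (nat_lit 2435) (.e (nat_lit 1849) (nat_lit 124) (.e (nat_lit 557107) (nat_lit 15) (.e (nat_lit 188450) (nat_lit 23) (.e (nat_lit 204880) (nat_lit 32) (.e (nat_lit 385105) (nat_lit 50) .nil))))) .nil)) 
(.lf (nat_lit 81338) (.g (nat_lit 1185) (.e (nat_lit 1849) (nat_lit 124) (.e (nat_lit 557108) (nat_lit 15) (.e (nat_lit 188434) (nat_lit 20) (.e (nat_lit 3272) (nat_lit 199) (.e (nat_lit 548897) (nat_lit 14) .nil))))) .nil))))) (.nd (nat_lit 3) (.nd (nat_lit 4) (.nd (nat_lit 5) 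
(.lf (nat_lit 81286) (.g (nat_lit 1748) (.e (nat_lit 1849) (nat_lit 124) (.e (nat_lit 557107) (nat_lit 15) (.e (nat_lit 188450) (nat_lit 23) (.e (nat_lit 204815) (nat_lit 17) (.e (nat_lit 6720) (nat_lit 361) (.e (nat_lit 179968) (nat_lit 15) .nil)))))) (.g (nat_lit 5) .nil .nil))) 
(.lf (nat_lit 81318) (.g (nat_lit 2295) (.e (nat_lit 1849) (nat_lit 124) (.e (nat_lit 557107) (nat_lit 15) (.e (nat_lit 188452) (nat_lit 23) (.e (nat_lit 204885) (nat_lit 33) .nil)))) .nil))) (.nd (nat_lit 5) 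
(.lf (nat_lit 81302) (.g (nat_lit 1508) (.e (nat_lit 1849) (nat_lit 124) (.e (nat_lit 557107) (nat_lit 15) (.e (nat_lit 188450) (nat_lit 23) (.e (nat_lit 204821) (nat_lit 17) (.e (nat_lit 7936) (nat_lit 361) (.e (nat_lit 179968) (nat_lit 15) .nil)))))) (.g (nat_lit 4) .nil .nil))) 
(.lf (nat_lit 81334) (.g (nat_lit 1505) (.e (nat_lit 1849) (nat_lit 124) (.e (nat_lit 557108) (nat_lit 15) (.e (nat_lit 188434) (nat_lit 20) (.e (nat_lit 3272) (nat_lit 199) (.e (nat_lit 548896) (nat_lit 14) (.e (nat_lit 2982) (nat_lit 186) (.e (nat_lit 450304) (nat_lit 0) .nil))))))) (.g (nat_lit 4) .nil .nil))))) (.nd (nat_lit 4) (.nd (nat_lit 5) 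
(.lf (nat_lit 81294) (.g (nat_lit 1610) (.e (nat_lit 1849) (nat_lit 124) (.e (nat_lit 557107) (nat_lit 15) (.e (nat_lit 188450) (nat_lit 23) (.e (nat_lit 204821) (nat_lit 17) (.e (nat_lit 6092) (nat_lit 332) (.e (nat_lit 1374) (nat_lit 104) (.e (nat_lit 303147) (nat_lit 15) .nil))))))) (.g (nat_lit 4) .nil .nil))) 
(.lf (nat_lit 81326) (.g (nat_lit 1980) (.e (nat_lit 1849) (nat_lit 124) (.e (nat_lit 557108) (nat_lit 15) (.e (nat_lit 188434) (nat_lit 20) (.e (nat_lit 3271) (nat_lit 199) (.e (nat_lit 548898) (nat_lit 14) (.e (nat_lit 2998) (nat_lit 186) (.e (nat_lit 450304) (nat_lit 0) .nil))))))) (.g (nat_lit 6) .nil .nil)))) (.nd (nat_lit 5) 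
(.lf (nat_lit 81310) (.g (nat_lit 2364) (.e (nat_lit 1849) (nat_lit 124) (.e (nat_lit 557107) (nat_lit 15) (.e (nat_lit 188450) (nat_lit 23) (.e (nat_lit 204885) (nat_lit 33) (.e (nat_lit 401436) (nat_lit 9) (.e (nat_lit 426402) (nat_lit 15) .nil)))))) (.g (nat_lit 6) .nil .nil))) 
(.lf (nat_lit 81342) (.g (nat_lit 1897) (.e (nat_lit 1849) (nat_lit 124) (.e (nat_lit 557108) (nat_lit 15) (.e (nat_lit 188434) (nat_lit 20) (.e (nat_lit 3272) (nat_lit 199) (.e (nat_lit 548897) (nat_lit 14) (.e (nat_lit 3004) (nat_lit 186) (.e (nat_lit 450304) (nat_lit 0) .nil))))))) (.g (nat_lit 6) .nil .nil)))))))) 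
(.nd (nat_lit 1) (.nd (nat_lit 2) (.nd (nat_lit 3) (.nd (nat_lit 4) (.nd (nat_lit 5) 
(.lf (nat_lit 81281) (.g (nat_lit 1791) (.e (nat_lit 1849) (nat_lit 124) (.e (nat_lit 557107) (nat_lit 15) (.e (nat_lit 188447) (nat_lit 22) (.e (nat_lit 196661) (nat_lit 12) (.e (nat_lit 57712) (nat_lit 176) (.e (nat_lit 1378) (nat_lit 104) (.e (nat_lit 311040) (nat_lit 15) .nil))))))) (.g (nat_lit 5) .nil .nil))) 
(.lf (nat_lit 81313) (.g (nat_lit 518) (.e (nat_lit 1849) (nat_lit 124) (.e (nat_lit 557107) (nat_lit 15) (.e (nat_lit 188452) (nat_lit 23) .nil))) .nil))) (.nd (nat_lit 5) 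
(.lf (nat_lit 81297) (.g (nat_lit 1529) (.e (nat_lit 1849) (nat_lit 124) (.e (nat_lit 557107) (nat_lit 15) (.e (nat_lit 188450) (nat_lit 23) (.e (nat_lit 204821) (nat_lit 17) (.e (nat_lit 6149) (nat_lit 332) .nil))))) .nil)) 
(.lf (nat_lit 81329) (.g (nat_lit 1946) (.e (nat_lit 1849) (nat_lit 124) (.e (nat_lit 557108) (nat_lit 15) (.e (nat_lit 188434) (nat_lit 20) (.e (nat_lit 3271) (nat_lit 199) (.e (nat_lit 548898) (nat_lit 14) (.e (nat_lit 3005) (nat_lit 186) (.e (nat_lit 450304) (nat_lit 0) .nil))))))) (.g (nat_lit 6) .nil .nil))))) (.nd (nat_lit 4) (.nd (nat_lit 5) 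
(.lf (nat_lit 81289) (.g (nat_lit 1075) (.e (nat_lit 1849) (nat_lit 124) (.e (nat_lit 557107) (nat_lit 15) (.e (nat_lit 188450) (nat_lit 23) (.e (nat_lit 204817) (nat_lit 17) .nil)))) .nil)) 
(.lf (nat_lit 81321) (.g (nat_lit 3343) (.e (nat_lit 1849) (nat_lit 124) (.e (nat_lit 557107) (nat_lit 15) (.e (nat_lit 188452) (nat_lit 23) (.e (nat_lit 204885) (nat_lit 33) (.e (nat_lit 401437) (nat_lit 9) .nil))))) .nil))) (.nd (nat_lit 5) 
(.lf (nat_lit 81305) (.g (nat_lit 2171) (.e (nat_lit 1849) (nat_lit 124) (.e (nat_lit 557107) (nat_lit 15) (.e (nat_lit 188450) (nat_lit 23) (.e (nat_lit 204846) (nat_lit 24) (.e (nat_lit 319539) (nat_lit 19) (.e (nat_lit 311348) (nat_lit 15) .nil)))))) (.g (nat_lit 0) .nil .nil))) 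
(.lf (nat_lit 81337) (.g (nat_lit 1388) (.e (nat_lit 1849) (nat_lit 124) (.e (nat_lit 557108) (nat_lit 15) (.e (nat_lit 188434) (nat_lit 20) (.e (nat_lit 3272) (nat_lit 199) (.e (nat_lit 548896) (nat_lit 14) (.e (nat_lit 3005) (nat_lit 186) (.e (nat_lit 450304) (nat_lit 0) .nil))))))) (.g (nat_lit 4) .nil .nil)))))) (.nd (nat_lit 3) (.nd (nat_lit 4) (.nd (nat_lit 5) 
(.lf (nat_lit 81285) (.g (nat_lit 1715) (.e (nat_lit 1849) (nat_lit 124) (.e (nat_lit 557107) (nat_lit 15) (.e (nat_lit 188450) (nat_lit 23) (.e (nat_lit 204815) (nat_lit 17) (.e (nat_lit 6718) (nat_lit 361) (.e (nat_lit 179968) (nat_lit 15) .nil)))))) (.g (nat_lit 5) .nil .nil))) 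
(.lf (nat_lit 81317) (.g (nat_lit 3105) (.e (nat_lit 1849) (nat_lit 124) (.e (nat_lit 557107) (nat_lit 15) (.e (nat_lit 188452) (nat_lit 23) (.e (nat_lit 204884) (nat_lit 33) (.e (nat_lit 401438) (nat_lit 9) (.e (nat_lit 426402) (nat_lit 15) .nil)))))) (.g (nat_lit 4) .nil .nil)))) (.nd (nat_lit 5) 
(.lf (nat_lit 81301) (.g (nat_lit 2767) (.e (nat_lit 1849) (nat_lit 124) (.e (nat_lit 557107) (nat_lit 15) (.e (nat_lit 188450) (nat_lit 23) (.e (nat_lit 204821) (nat_lit 17) (.e (nat_lit 6676) (nat_lit 357) (.e (nat_lit 2856) (nat_lit 184) (.e (nat_lit 426402) (nat_lit 15) .nil))))))) (.g (nat_lit 7) .nil .nil))) 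
(.lf (nat_lit 81333) (.g (nat_lit 748) (.e (nat_lit 1849) (nat_lit 124) (.e (nat_lit 557108) (nat_lit 15) (.e (nat_lit 188434) (nat_lit 20) (.e (nat_lit 3272) (nat_lit 199) .nil)))) .nil)))) (.nd (nat_lit 4) (.nd (nat_lit 5) 
(.lf (nat_lit 81293) (.g (nat_lit 1002) (.e (nat_lit 1849) (nat_lit 124) (.e (nat_lit 557107) (nat_lit 15) (.e (nat_lit 188450) (nat_lit 23) (.e (nat_lit 204821) (nat_lit 17) .nil)))) .nil)) 
(.lf (nat_lit 81325) (.g (nat_lit 1876) (.e (nat_lit 1849) (nat_lit 124) (.e (nat_lit 557108) (nat_lit 15) (.e (nat_lit 188434) (nat_lit 20) (.e (nat_lit 3271) (nat_lit 199) (.e (nat_lit 548898) (nat_lit 14) (.e (nat_lit 2988) (nat_lit 186) (.e (nat_lit 450304) (nat_lit 0) .nil))))))) (.g (nat_lit 6) .nil .nil)))) (.nd (nat_lit 5) 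
(.lf (nat_lit 81309) (.g (nat_lit 2398) (.e (nat_lit 1849) (nat_lit 124) (.e (nat_lit 557107) (nat_lit 15) (.e (nat_lit 188450) (nat_lit 23) (.e (nat_lit 204885) (nat_lit 33) (.e (nat_lit 401434) (nat_lit 9) (.e (nat_lit 426402) (nat_lit 15) .nil)))))) (.g (nat_lit 6) .nil .nil))) 
(.lf (nat_lit 81341) (.g (nat_lit 1931) (.e (nat_lit 1849) (nat_lit 124) (.e (nat_lit 557108) (nat_lit 15) (.e (nat_lit 188434) (nat_lit 20) (.e (nat_lit 3272) (nat_lit 199) (.e (nat_lit 548897) (nat_lit 14) (.e (nat_lit 2999) (nat_lit 186) (.e (nat_lit 450304) (nat_lit 0) .nil))))))) (.g (nat_lit 6) .nil .nil))))))) (.nd (nat_lit 2) (.nd (nat_lit 3) (.nd (nat_lit 4) (.nd (nat_lit 5) 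
(.lf (nat_lit 81283) (.g (nat_lit 1602) (.e (nat_lit 1849) (nat_lit 124) (.e (nat_lit 557107) (nat_lit 15) (.e (nat_lit 188447) (nat_lit 22) (.e (nat_lit 196661) (nat_lit 12) (.e (nat_lit 65280) (nat_lit 208) (.e (nat_lit 245504) (nat_lit 15) .nil)))))) (.g (nat_lit 4) .nil .nil))) 
(.lf (nat_lit 81315) (.g (nat_lit 3421) (.e (nat_lit 1849) (nat_lit 124) (.e (nat_lit 557107) (nat_lit 15) (.e (nat_lit 188452) (nat_lit 23) (.e (nat_lit 204884) (nat_lit 33) (.e (nat_lit 401436) (nat_lit 9) .nil))))) .nil))) (.nd (nat_lit 5) 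
(.lf (nat_lit 81299) (.g (nat_lit 1782) (.e (nat_lit 1849) (nat_lit 124) (.e (nat_lit 557107) (nat_lit 15) (.e (nat_lit 188450) (nat_lit 23) (.e (nat_lit 204821) (nat_lit 17) (.e (nat_lit 6674) (nat_lit 357) (.e (nat_lit 2940) (nat_lit 184) (.e (nat_lit 433920) (nat_lit 15) .nil))))))) (.g (nat_lit 6) .nil .nil))) 
(.lf (nat_lit 81331) (.g (nat_lit 2144) (.e (nat_lit 1849) (nat_lit 124) (.e (nat_lit 557108) (nat_lit 15) (.e (nat_lit 188434) (nat_lit 20) (.e (nat_lit 3271) (nat_lit 199) (.e (nat_lit 548913) (nat_lit 18) (.e (nat_lit 172095) (nat_lit 9) (.e (nat_lit 433920) (nat_lit 15) .nil))))))) (.g (nat_lit 6) .nil .nil))))) (.nd (nat_lit 4) (.nd (nat_lit 5) 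
(.lf (nat_lit 81291) (.g (nat_lit 1548) (.e (nat_lit 1849) (nat_lit 124) (.e (nat_lit 557107) (nat_lit 15) (.e (nat_lit 188450) (nat_lit 23) (.e (nat_lit 204817) (nat_lit 17) (.e (nat_lit 7936) (nat_lit 361) (.e (nat_lit 179968) (nat_lit 15) .nil)))))) (.g (nat_lit 4) .nil .nil))) 
(.lf (nat_lit 81323) (.g (nat_lit 2194) (.e (nat_lit 1849) (nat_lit 124) (.e (nat_lit 557108) (nat_lit 15) (.e (nat_lit 196352) (nat_lit 0) (.e (nat_lit 1860) (nat_lit 124) (.e (nat_lit 557109) (nat_lit 15) (.e (nat_lit 196352) (nat_lit 0) .nil)))))) (.g (nat_lit 5) .nil .nil)))) (.nd (nat_lit 5) 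
(.lf (nat_lit 81307) (.g (nat_lit 1982) (.e (nat_lit 1849) (nat_lit 124) (.e (nat_lit 557107) (nat_lit 15) (.e (nat_lit 188450) (nat_lit 23) (.e (nat_lit 204884) (nat_lit 33) (.e (nat_lit 401436) (nat_lit 9) (.e (nat_lit 426402) (nat_lit 15) .nil)))))) (.g (nat_lit 5) .nil .nil))) 
(.lf (nat_lit 81339) (.g (nat_lit 1890) (.e (nat_lit 1849) (nat_lit 124) (.e (nat_lit 557108) (nat_lit 15) (.e (nat_lit 188434) (nat_lit 20) (.e (nat_lit 3272) (nat_lit 199) (.e (nat_lit 548897) (nat_lit 14) (.e (nat_lit 2988) (nat_lit 186) (.e (nat_lit 450304) (nat_lit 0) .nil))))))) (.g (nat_lit 6) .nil .nil)))))) (.nd (nat_lit 3) (.nd (nat_lit 4) (.nd (nat_lit 5) 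
(.lf (nat_lit 81287) (.g (nat_lit 1852) (.e (nat_lit 1849) (nat_lit 124) (.e (nat_lit 557107) (nat_lit 15) (.e (nat_lit 188450) (nat_lit 23) (.e (nat_lit 204816) (nat_lit 17) (.e (nat_lit 6718) (nat_lit 361) (.e (nat_lit 179968) (nat_lit 15) .nil)))))) (.g (nat_lit 5) .nil .nil))) 
(.lf (nat_lit 81319) (.g (nat_lit 3101) (.e (nat_lit 1849) (nat_lit 124) (.e (nat_lit 557107) (nat_lit 15) (.e (nat_lit 188452) (nat_lit 23) (.e (nat_lit 204885) (nat_lit 33) (.e (nat_lit 401435) (nat_lit 9) .nil))))) .nil))) (.nd (nat_lit 5) 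
(.lf (nat_lit 81303) (.g (nat_lit 1508) (.e (nat_lit 1849) (nat_lit 124) (.e (nat_lit 557107) (nat_lit 15) (.e (nat_lit 188450) (nat_lit 23) (.e (nat_lit 204821) (nat_lit 17) (.e (nat_lit 7936) (nat_lit 364) (.e (nat_lit 245504) (nat_lit 15) .nil)))))) (.g (nat_lit 4) .nil .nil))) 
(.lf (nat_lit 81335) (.g (nat_lit 1670) (.e (nat_lit 1849) (nat_lit 124) (.e (nat_lit 557108) (nat_lit 15) (.e (nat_lit 188434) (nat_lit 20) (.e (nat_lit 3272) (nat_lit 199) (.e (nat_lit 548896) (nat_lit 14) (.e (nat_lit 2998) (nat_lit 186) (.e (nat_lit 450304) (nat_lit 0) .nil))))))) (.g (nat_lit 5) .nil .nil))))) (.nd (nat_lit 4) (.nd (nat_lit 5) 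
(.lf (nat_lit 81295) (.g (nat_lit 1530) (.e (nat_lit 1849) (nat_lit 124) (.e (nat_lit 557107) (nat_lit 15) (.e (nat_lit 188450) (nat_lit 23) (.e (nat_lit 204821) (nat_lit 17) (.e (nat_lit 6114) (nat_lit 332) (.e (nat_lit 1376) (nat_lit 104) (.e (nat_lit 311040) (nat_lit 15) .nil))))))) (.g (nat_lit 4) .nil .nil))) 
(.lf (nat_lit 81327) (.g (nat_lit 2324) (.e (nat_lit 1849) (nat_lit 124) (.e (nat_lit 557108) (nat_lit 15) (.e (nat_lit 188434) (nat_lit 20) (.e (nat_lit 3271) (nat_lit 199) (.e (nat_lit 548898) (nat_lit 14) (.e (nat_lit 2999) (nat_lit 186) (.e (nat_lit 450304) (nat_lit 0) .nil))))))) (.g (nat_lit 6) .nil .nil)))) (.nd (nat_lit 5) 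
(.lf (nat_lit 81311) (.g (nat_lit 2788) (.e (nat_lit 1849) (nat_lit 124) (.e (nat_lit 557107) (nat_lit 15) (.e (nat_lit 188450) (nat_lit 23) (.e (nat_lit 204885) (nat_lit 33) (.e (nat_lit 401437) (nat_lit 9) (.e (nat_lit 426402) (nat_lit 15) .nil)))))) (.g (nat_lit 6) .nil .nil))) 
(.lf (nat_lit 81343) (.g (nat_lit 1643) (.e (nat_lit 1849) (nat_lit 124) (.e (nat_lit 557108) (nat_lit 15) (.e (nat_lit 188434) (nat_lit 20) (.e (nat_lit 3272) (nat_lit 199) (.e (nat_lit 548897) (nat_lit 14) (.e (nat_lit 3005) (nat_lit 186) (.e (nat_lit 450304) (nat_lit 0) .nil))))))) (.g (nat_lit 5) .nil .nil)))))))))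

noncomputable def tv1102 : DT := (.nd (nat_lit 0) (.nd (nat_lit 1) (.nd (nat_lit 2) (.nd (nat_lit 3) (.nd (nat_lit 4) (.nd (nat_lit 5) 
(.lf (nat_lit 81344) (.g (nat_lit 2254) (.e (nat_lit 1849) (nat_lit 124) (.e (nat_lit 557108) (nat_lit 15) (.e (nat_lit 188434) (nat_lit 20) (.e (nat_lit 3272) (nat_lit 199) (.e (nat_lit 548898) (nat_lit 14) (.e (nat_lit 2988) (nat_lit 186) (.e (nat_lit 450304) (nat_lit 0) .nil))))))) (.g (nat_lit 6) .nil .nil))) 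
(.lf (nat_lit 81376) (.g (nat_lit 4064) (.e (nat_lit 1849) (nat_lit 124) (.e (nat_lit 557108) (nat_lit 15) (.e (nat_lit 188449) (nat_lit 22) (.e (nat_lit 196638) (nat_lit 9) .nil)))) .nil))) (.nd (nat_lit 5) 
(.lf (nat_lit 81360) (.g (nat_lit 3849) (.e (nat_lit 1849) (nat_lit 124) (.e (nat_lit 557108) (nat_lit 15) (.e (nat_lit 188449) (nat_lit 22) (.e (nat_lit 196618) (nat_lit 9) .nil)))) .nil)) 
(.lf (nat_lit 81392) (.g (nat_lit 2366) (.e (nat_lit 1849) (nat_lit 124) (.e (nat_lit 557108) (nat_lit 15) (.e (nat_lit 188449) (nat_lit 22) (.e (nat_lit 196661) (nat_lit 12) (.e (nat_lit 57722) (nat_lit 178) (.e (nat_lit 123163) (nat_lit 256) (.e (nat_lit 61) (nat_lit 0) .nil))))))) (.g (nat_lit 0) .nil .nil))))) (.nd (nat_lit 4) (.nd (nat_lit 5) 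
(.lf (nat_lit 81352) (.g (nat_lit 2301) (.e (nat_lit 1849) (nat_lit 124) (.e (nat_lit 557108) (nat_lit 15) (.e (nat_lit 188434) (nat_lit 20) (.e (nat_lit 3272) (nat_lit 199) (.e (nat_lit 548915) (nat_lit 20) (.e (nat_lit 196352) (nat_lit 0) .nil)))))) (.g (nat_lit 5) .nil .nil))) 
(.lf (nat_lit 81384) (.g (nat_lit 2976) (.e (nat_lit 1849) (nat_lit 124) (.e (nat_lit 557108) (nat_lit 15) (.e (nat_lit 188449) (nat_lit 22) (.e (nat_lit 196661) (nat_lit 12) (.e (nat_lit 57712) (nat_lit 176) (.e (nat_lit 1374) (nat_lit 104) (.e (nat_lit 303147) (nat_lit 15) .nil))))))) (.g (nat_lit 0) .nil .nil)))) (.nd (nat_lit 5) 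
(.lf (nat_lit 81368) (.g (nat_lit 2519) (.e (nat_lit 1849) (nat_lit 124) (.e (nat_lit 557108) (nat_lit 15) (.e (nat_lit 188449) (nat_lit 22) (.e (nat_lit 196628) (nat_lit 9) (.e (nat_lit 968) (nat_lit 81) (.e (nat_lit 6719) (nat_lit 361) (.e (nat_lit 179968) (nat_lit 15) .nil))))))) (.g (nat_lit 6) .nil .nil))) 
(.lf (nat_lit 81400) (.g (nat_lit 892) (.e (nat_lit 1849) (nat_lit 124) (.e (nat_lit 557108) (nat_lit 15) (.e (nat_lit 188449) (nat_lit 22) (.e (nat_lit 204544) (nat_lit 21) (.e (nat_lit 164372) (nat_lit 250) (.e (nat_lit 179968) (nat_lit 15) .nil)))))) (.g (nat_lit 5) .nil .nil)))))) (.nd (nat_lit 3) (.nd (nat_lit 4) (.nd (nat_lit 5) 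
(.lf (nat_lit 81348) (.g (nat_lit 2287) (.e (nat_lit 1849) (nat_lit 124) (.e (nat_lit 557108) (nat_lit 15) (.e (nat_lit 188434) (nat_lit 20) (.e (nat_lit 3272) (nat_lit 199) (.e (nat_lit 548898) (nat_lit 14) (.e (nat_lit 3004) (nat_lit 186) (.e (nat_lit 450304) (nat_lit 0) .nil))))))) (.g (nat_lit 6) .nil .nil))) 
(.lf (nat_lit 81380) (.g (nat_lit 4090) (.e (nat_lit 1849) (nat_lit 124) (.e (nat_lit 557108) (nat_lit 15) (.e (nat_lit 188449) (nat_lit 22) (.e (nat_lit 196658) (nat_lit 12) .nil)))) .nil))) (.nd (nat_lit 5) 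
(.lf (nat_lit 81364) (.g (nat_lit 2804) (.e (nat_lit 1849) (nat_lit 124) (.e (nat_lit 557108) (nat_lit 15) (.e (nat_lit 188449) (nat_lit 22) (.e (nat_lit 196624) (nat_lit 9) .nil)))) .nil)) 
(.lf (nat_lit 81396) (.g (nat_lit 4090) (.e (nat_lit 1849) (nat_lit 124) (.e (nat_lit 557108) (nat_lit 15) (.e (nat_lit 188449) (nat_lit 22) (.e (nat_lit 196676) (nat_lit 16) .nil)))) .nil)))) (.nd (nat_lit 4) (.nd (nat_lit 5) 
(.lf (nat_lit 81356) (.g (nat_lit 2067) (.e (nat_lit 1849) (nat_lit 124) (.e (nat_lit 557108) (nat_lit 15) (.e (nat_lit 188447) (nat_lit 22) (.e (nat_lit 196630) (nat_lit 9) (.e (nat_lit 1669) (nat_lit 116) (.e (nat_lit 401438) (nat_lit 9) (.e (nat_lit 426402) (nat_lit 15) .nil))))))) (.g (nat_lit 4) .nil .nil))) 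
(.lf (nat_lit 81388) (.g (nat_lit 2577) (.e (nat_lit 1849) (nat_lit 124) (.e (nat_lit 557108) (nat_lit 15) (.e (nat_lit 188449) (nat_lit 22) (.e (nat_lit 196661) (nat_lit 12) (.e (nat_lit 57714) (nat_lit 176) (.e (nat_lit 1386) (nat_lit 105) (.e (nat_lit 311348) (nat_lit 15) .nil))))))) (.g (nat_lit 0) .nil .nil)))) (.nd (nat_lit 5) 
(.lf (nat_lit 81372) (.g (nat_lit 2259) (.e (nat_lit 1849) (nat_lit 124) (.e (nat_lit 557108) (nat_lit 15) (.e (nat_lit 188449) (nat_lit 22) (.e (nat_lit 196630) (nat_lit 9) (.e (nat_lit 1667) (nat_lit 116) .nil))))) .nil)) 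
(.lf (nat_lit 81404) (.g (nat_lit 169) (.e (nat_lit 1849) (nat_lit 124) (.e (nat_lit 557108) (nat_lit 15) (.e (nat_lit 188452) (nat_lit 23) .nil))) .nil)))))) (.nd (nat_lit 2) (.nd (nat_lit 3) (.nd (nat_lit 4) (.nd (nat_lit 5) 
(.lf (nat_lit 81346) (.g (nat_lit 2415) (.e (nat_lit 1849) (nat_lit 124) (.e (nat_lit 557108) (nat_lit 15) (.e (nat_lit 188434) (nat_lit 20) (.e (nat_lit 3272) (nat_lit 199) (.e (nat_lit 548898) (nat_lit 14) (.e (nat_lit 2998) (nat_lit 186) (.e (nat_lit 450304) (nat_lit 0) .nil))))))) (.g (nat_lit 6) .nil .nil))) 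
(.lf (nat_lit 81378) (.g (nat_lit 3956) (.e (nat_lit 1849) (nat_lit 124) (.e (nat_lit 557108) (nat_lit 15) (.e (nat_lit 188449) (nat_lit 22) (.e (nat_lit 196643) (nat_lit 9) .nil)))) .nil))) (.nd (nat_lit 5) 
(.lf (nat_lit 81362) (.g (nat_lit 3651) (.e (nat_lit 1849) (nat_lit 124) (.e (nat_lit 557108) (nat_lit 15) (.e (nat_lit 188449) (nat_lit 22) (.e (nat_lit 196620) (nat_lit 9) .nil)))) .nil)) 
(.lf (nat_lit 81394) (.g (nat_lit 1710) (.e (nat_lit 1849) (nat_lit 124) (.e (nat_lit 557108) (nat_lit 15) (.e (nat_lit 188449) (nat_lit 22) (.e (nat_lit 196661) (nat_lit 12) (.e (nat_lit 65280) (nat_lit 205) (.e (nat_lit 179968) (nat_lit 15) .nil)))))) (.g (nat_lit 4) .nil .nil))))) (.nd (nat_lit 4) (.nd (nat_lit 5) 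
(.lf (nat_lit 81354) (.g (nat_lit 1515) (.e (nat_lit 1849) (nat_lit 124) (.e (nat_lit 557108) (nat_lit 15) (.e (nat_lit 188446) (nat_lit 21) (.e (nat_lit 164131) (nat_lit 134) .nil)))) .nil)) 
(.lf (nat_lit 81386) (.g (nat_lit 1878) (.e (nat_lit 1849) (nat_lit 124) (.e (nat_lit 557108) (nat_lit 15) (.e (nat_lit 188449) (nat_lit 22) (.e (nat_lit 196661) (nat_lit 12) (.e (nat_lit 57712) (nat_lit 176) (.e (nat_lit 1378) (nat_lit 104) (.e (nat_lit 311040) (nat_lit 15) .nil))))))) (.g (nat_lit 5) .nil .nil)))) (.nd (nat_lit 5) 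
(.lf (nat_lit 81370) (.g (nat_lit 2438) (.e (nat_lit 1849) (nat_lit 124) (.e (nat_lit 557108) (nat_lit 15) (.e (nat_lit 188449) (nat_lit 22) (.e (nat_lit 196628) (nat_lit 9) (.e (nat_lit 970) (nat_lit 81) (.e (nat_lit 6719) (nat_lit 361) (.e (nat_lit 179968) (nat_lit 15) .nil))))))) (.g (nat_lit 6) .nil .nil))) 
(.lf (nat_lit 81402) (.g (nat_lit 618) (.e (nat_lit 1849) (nat_lit 124) (.e (nat_lit 557108) (nat_lit 15) (.e (nat_lit 188449) (nat_lit 22) (.e (nat_lit 204544) (nat_lit 22) .nil)))) .nil))))) (.nd (nat_lit 3) (.nd (nat_lit 4) (.nd (nat_lit 5) 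
(.lf (nat_lit 81350) (.g (nat_lit 2456) (.e (nat_lit 1849) (nat_lit 124) (.e (nat_lit 557108) (nat_lit 15) (.e (nat_lit 188434) (nat_lit 20) (.e (nat_lit 3272) (nat_lit 199) (.e (nat_lit 548913) (nat_lit 18) (.e (nat_lit 172088) (nat_lit 9) (.e (nat_lit 433920) (nat_lit 15) .nil))))))) (.g (nat_lit 6) .nil .nil))) 
(.lf (nat_lit 81382) (.g (nat_lit 1060) (.e (nat_lit 1849) (nat_lit 124) (.e (nat_lit 557108) (nat_lit 15) (.e (nat_lit 188449) (nat_lit 22) (.e (nat_lit 196661) (nat_lit 12) .nil)))) .nil))) (.nd (nat_lit 5) 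
(.lf (nat_lit 81366) (.g (nat_lit 1474) (.e (nat_lit 1849) (nat_lit 124) (.e (nat_lit 557108) (nat_lit 15) (.e (nat_lit 188449) (nat_lit 22) (.e (nat_lit 196628) (nat_lit 9) .nil)))) .nil)) 
(.lf (nat_lit 81398) (.g (nat_lit 2001) (.e (nat_lit 1849) (nat_lit 124) (.e (nat_lit 557108) (nat_lit 15) (.e (nat_lit 188449) (nat_lit 22) (.e (nat_lit 196683) (nat_lit 18) .nil)))) .nil)))) (.nd (nat_lit 4) (.nd (nat_lit 5) 
(.lf (nat_lit 81358) (.g (nat_lit 233) (.e (nat_lit 1849) (nat_lit 124) (.e (nat_lit 557108) (nat_lit 15) (.e (nat_lit 188449) (nat_lit 22) .nil))) .nil)) 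
(.lf (nat_lit 81390) (.g (nat_lit 2234) (.e (nat_lit 1849) (nat_lit 124) (.e (nat_lit 557108) (nat_lit 15) (.e (nat_lit 188449) (nat_lit 22) (.e (nat_lit 196661) (nat_lit 12) (.e (nat_lit 57721) (nat_lit 177) (.e (nat_lit 57862) (nat_lit 256) (.e (nat_lit 60) (nat_lit 0) .nil))))))) (.g (nat_lit 0) .nil .nil)))) (.nd (nat_lit 5) 
(.lf (nat_lit 81374) (.g (nat_lit 3988) (.e (nat_lit 1849) (nat_lit 124) (.e (nat_lit 557108) (nat_lit 15) (.e (nat_lit 188449) (nat_lit 22) (.e (nat_lit 196630) (nat_lit 9) (.e (nat_lit 1669) (nat_lit 116) (.e (nat_lit 401437) (nat_lit 9) (.e (nat_lit 426402) (nat_lit 15) .nil))))))) (.g (nat_lit 7) .nil .nil))) 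
(.lf (nat_lit 81406) (.g (nat_lit 2599) (.e (nat_lit 1849) (nat_lit 124) (.e (nat_lit 557108) (nat_lit 15) (.e (nat_lit 188452) (nat_lit 23) (.e (nat_lit 204815) (nat_lit 17) (.e (nat_lit 6718) (nat_lit 361) (.e (nat_lit 179968) (nat_lit 15) .nil)))))) (.g (nat_lit 5) .nil .nil)))))))) (.nd (nat_lit 1) (.nd (nat_lit 2) (.nd (nat_lit 3) (.nd (nat_lit 4) (.nd (nat_lit 5) 
(.lf (nat_lit 81345) (.g (nat_lit 1984) (.e (nat_lit 1849) (nat_lit 124) (.e (nat_lit 557108) (nat_lit 15) (.e (nat_lit 188434) (nat_lit 20) (.e (nat_lit 3272) (nat_lit 199) (.e (nat_lit 548898) (nat_lit 14) (.e (nat_lit 2989) (nat_lit 186) (.e (nat_lit 450304) (nat_lit 0) .nil))))))) (.g (nat_lit 6) .nil .nil))) 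
(.lf (nat_lit 81377) (.g (nat_lit 3430) (.e (nat_lit 1849) (nat_lit 124) (.e (nat_lit 557108) (nat_lit 15) (.e (nat_lit 188449) (nat_lit 22) (.e (nat_lit 196642) (nat_lit 9) .nil)))) .nil))) (.nd (nat_lit 5) 
(.lf (nat_lit 81361) (.g (nat_lit 4064) (.e (nat_lit 1849) (nat_lit 124) (.e (nat_lit 557108) (nat_lit 15) (.e (nat_lit 188449) (nat_lit 22) (.e (nat_lit 196619) (nat_lit 9) .nil)))) .nil)) 
(.lf (nat_lit 81393) (.g (nat_lit 2417) (.e (nat_lit 1849) (nat_lit 124) (.e (nat_lit 557108) (nat_lit 15) (.e (nat_lit 188449) (nat_lit 22) (.e (nat_lit 196661) (nat_lit 12) (.e (nat_lit 57722) (nat_lit 178) (.e (nat_lit 123165) (nat_lit 256) (.e (nat_lit 61) (nat_lit 0) .nil))))))) (.g (nat_lit 0) .nil .nil))))) (.nd (nat_lit 4) (.nd (nat_lit 5) 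
(.lf (nat_lit 81353) (.g (nat_lit 1515) (.e (nat_lit 1849) (nat_lit 124) (.e (nat_lit 557108) (nat_lit 15) (.e (nat_lit 188446) (nat_lit 21) (.e (nat_lit 164122) (nat_lit 128) .nil)))) .nil)) 
(.lf (nat_lit 81385) (.g (nat_lit 2595) (.e (nat_lit 1849) (nat_lit 124) (.e (nat_lit 557108) (nat_lit 15) (.e (nat_lit 188449) (nat_lit 22) (.e (nat_lit 196661) (nat_lit 12) (.e (nat_lit 57712) (nat_lit 176) (.e (nat_lit 1378) (nat_lit 104) (.e (nat_lit 303147) (nat_lit 15) .nil))))))) (.g (nat_lit 0) .nil .nil)))) (.nd (nat_lit 5) 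
(.lf (nat_lit 81369) (.g (nat_lit 1897) (.e (nat_lit 1849) (nat_lit 124) (.e (nat_lit 557108) (nat_lit 15) (.e (nat_lit 188449) (nat_lit 22) (.e (nat_lit 196628) (nat_lit 9) (.e (nat_lit 970) (nat_lit 81) (.e (nat_lit 6717) (nat_lit 361) (.e (nat_lit 179968) (nat_lit 15) .nil))))))) (.g (nat_lit 4) .nil .nil))) 
(.lf (nat_lit 81401) (.g (nat_lit 3505) (.e (nat_lit 1849) (nat_lit 124) (.e (nat_lit 557108) (nat_lit 15) (.e (nat_lit 188449) (nat_lit 22) (.e (nat_lit 196700) (nat_lit 22) .nil)))) .nil))))) (.nd (nat_lit 3) (.nd (nat_lit 4) (.nd (nat_lit 5) 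
(.lf (nat_lit 81349) (.g (nat_lit 2383) (.e (nat_lit 1849) (nat_lit 124) (.e (nat_lit 557108) (nat_lit 15) (.e (nat_lit 188434) (nat_lit 20) (.e (nat_lit 3272) (nat_lit 199) (.e (nat_lit 548898) (nat_lit 14) (.e (nat_lit 3005) (nat_lit 186) (.e (nat_lit 450304) (nat_lit 0) .nil))))))) (.g (nat_lit 6) .nil .nil))) 
(.lf (nat_lit 81381) (.g (nat_lit 4090) (.e (nat_lit 1849) (nat_lit 124) (.e (nat_lit 557108) (nat_lit 15) (.e (nat_lit 188449) (nat_lit 22) (.e (nat_lit 196660) (nat_lit 12) .nil)))) .nil))) (.nd (nat_lit 5) 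
(.lf (nat_lit 81365) (.g (nat_lit 2857) (.e (nat_lit 1849) (nat_lit 124) (.e (nat_lit 557108) (nat_lit 15) (.e (nat_lit 188449) (nat_lit 22) (.e (nat_lit 196626) (nat_lit 9) .nil)))) .nil)) 
(.lf (nat_lit 81397) (.g (nat_lit 3787) (.e (nat_lit 1849) (nat_lit 124) (.e (nat_lit 557108) (nat_lit 15) (.e (nat_lit 188449) (nat_lit 22) (.e (nat_lit 196677) (nat_lit 16) .nil)))) .nil)))) (.nd (nat_lit 4) (.nd (nat_lit 5) 
(.lf (nat_lit 81357) (.g (nat_lit 1190) (.e (nat_lit 1849) (nat_lit 124) (.e (nat_lit 557108) (nat_lit 15) (.e (nat_lit 188447) (nat_lit 22) (.e (nat_lit 196661) (nat_lit 12) .nil)))) .nil)) 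
(.lf (nat_lit 81389) (.g (nat_lit 1911) (.e (nat_lit 1849) (nat_lit 124) (.e (nat_lit 557108) (nat_lit 15) (.e (nat_lit 188449) (nat_lit 22) (.e (nat_lit 196661) (nat_lit 12) (.e (nat_lit 57718) (nat_lit 176) .nil))))) .nil))) (.nd (nat_lit 5) 
(.lf (nat_lit 81373) (.g (nat_lit 2811) (.e (nat_lit 1849) (nat_lit 124) (.e (nat_lit 557108) (nat_lit 15) (.e (nat_lit 188449) (nat_lit 22) (.e (nat_lit 196630) (nat_lit 9) (.e (nat_lit 1669) (nat_lit 116) (.e (nat_lit 401436) (nat_lit 9) (.e (nat_lit 426402) (nat_lit 15) .nil))))))) (.g (nat_lit 5) .nil .nil))) 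
(.lf (nat_lit 81405) (.g (nat_lit 2541) (.e (nat_lit 1849) (nat_lit 124) (.e (nat_lit 557108) (nat_lit 15) (.e (nat_lit 188452) (nat_lit 23) (.e (nat_lit 204814) (nat_lit 17) .nil)))) .nil)))))) (.nd (nat_lit 2) (.nd (nat_lit 3) (.nd (nat_lit 4) (.nd (nat_lit 5) 
(.lf (nat_lit 81347) (.g (nat_lit 2781) (.e (nat_lit 1849) (nat_lit 124) (.e (nat_lit 557108) (nat_lit 15) (.e (nat_lit 188434) (nat_lit 20) (.e (nat_lit 3272) (nat_lit 199) (.e (nat_lit 548898) (nat_lit 14) (.e (nat_lit 2999) (nat_lit 186) (.e (nat_lit 450304) (nat_lit 0) .nil))))))) (.g (nat_lit 6) .nil .nil))) 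
(.lf (nat_lit 81379) (.g (nat_lit 3471) (.e (nat_lit 1849) (nat_lit 124) (.e (nat_lit 557108) (nat_lit 15) (.e (nat_lit 188449) (nat_lit 22) (.e (nat_lit 196657) (nat_lit 12) .nil)))) .nil))) (.nd (nat_lit 5) 
(.lf (nat_lit 81363) (.g (nat_lit 3670) (.e (nat_lit 1849) (nat_lit 124) (.e (nat_lit 557108) (nat_lit 15) (.e (nat_lit 188449) (nat_lit 22) (.e (nat_lit 196622) (nat_lit 9) .nil)))) .nil)) 
(.lf (nat_lit 81395) (.g (nat_lit 1710) (.e (nat_lit 1849) (nat_lit 124) (.e (nat_lit 557108) (nat_lit 15) (.e (nat_lit 188449) (nat_lit 22) (.e (nat_lit 196661) (nat_lit 12) (.e (nat_lit 65280) (nat_lit 208) (.e (nat_lit 245504) (nat_lit 15) .nil)))))) (.g (nat_lit 4) .nil .nil))))) (.nd (nat_lit 4) (.nd (nat_lit 5) 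
(.lf (nat_lit 81355) (.g (nat_lit 1506) (.e (nat_lit 1849) (nat_lit 124) (.e (nat_lit 557108) (nat_lit 15) (.e (nat_lit 188447) (nat_lit 22) (.e (nat_lit 196628) (nat_lit 9) .nil)))) .nil)) 
(.lf (nat_lit 81387) (.g (nat_lit 2415) (.e (nat_lit 1849) (nat_lit 124) (.e (nat_lit 557108) (nat_lit 15) (.e (nat_lit 188449) (nat_lit 22) (.e (nat_lit 196661) (nat_lit 12) (.e (nat_lit 57714) (nat_lit 176) (.e (nat_lit 1385) (nat_lit 105) (.e (nat_lit 311348) (nat_lit 15) .nil))))))) (.g (nat_lit 0) .nil .nil)))) (.nd (nat_lit 5) 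
(.lf (nat_lit 81371) (.g (nat_lit 2129) (.e (nat_lit 1849) (nat_lit 124) (.e (nat_lit 557108) (nat_lit 15) (.e (nat_lit 188449) (nat_lit 22) (.e (nat_lit 196628) (nat_lit 9) (.e (nat_lit 1676) (nat_lit 116) (.e (nat_lit 401437) (nat_lit 9) (.e (nat_lit 426402) (nat_lit 15) .nil))))))) (.g (nat_lit 4) .nil .nil))) 
(.lf (nat_lit 81403) (.g (nat_lit 528) (.e (nat_lit 1849) (nat_lit 124) (.e (nat_lit 557108) (nat_lit 15) (.e (nat_lit 188450) (nat_lit 23) .nil))) .nil))))) (.nd (nat_lit 3) (.nd (nat_lit 4) (.nd (nat_lit 5) 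
(.lf (nat_lit 81351) (.g (nat_lit 2863) (.e (nat_lit 1849) (nat_lit 124) (.e (nat_lit 557108) (nat_lit 15) (.e (nat_lit 188434) (nat_lit 20) (.e (nat_lit 3272) (nat_lit 199) (.e (nat_lit 548913) (nat_lit 18) (.e (nat_lit 172095) (nat_lit 9) (.e (nat_lit 433920) (nat_lit 15) .nil))))))) (.g (nat_lit 6) .nil .nil))) 
(.lf (nat_lit 81383) (.g (nat_lit 1758) (.e (nat_lit 1849) (nat_lit 124) (.e (nat_lit 557108) (nat_lit 15) (.e (nat_lit 188449) (nat_lit 22) (.e (nat_lit 196661) (nat_lit 12) (.e (nat_lit 57711) (nat_lit 176) .nil))))) .nil))) (.nd (nat_lit 5) 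
(.lf (nat_lit 81367) (.g (nat_lit 1868) (.e (nat_lit 1849) (nat_lit 124) (.e (nat_lit 557108) (nat_lit 15) (.e (nat_lit 188449) (nat_lit 22) (.e (nat_lit 196628) (nat_lit 9) (.e (nat_lit 968) (nat_lit 81) .nil))))) .nil)) 
(.lf (nat_lit 81399) (.g (nat_lit 2986) (.e (nat_lit 1849) (nat_lit 124) (.e (nat_lit 557108) (nat_lit 15) (.e (nat_lit 188449) (nat_lit 22) (.e (nat_lit 196687) (nat_lit 18) .nil)))) .nil)))) (.nd (nat_lit 4) (.nd (nat_lit 5) 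
(.lf (nat_lit 81359) (.g (nat_lit 3099) (.e (nat_lit 1849) (nat_lit 124) (.e (nat_lit 557108) (nat_lit 15) (.e (nat_lit 188449) (nat_lit 22) (.e (nat_lit 196617) (nat_lit 9) .nil)))) .nil)) 
(.lf (nat_lit 81391) (.g (nat_lit 2227) (.e (nat_lit 1849) (nat_lit 124) (.e (nat_lit 557108) (nat_lit 15) (.e (nat_lit 188449) (nat_lit 22) (.e (nat_lit 196661) (nat_lit 12) (.e (nat_lit 57721) (nat_lit 177) (.e (nat_lit 57864) (nat_lit 256) (.e (nat_lit 60) (nat_lit 0) .nil))))))) (.g (nat_lit 0) .nil .nil)))) (.nd (nat_lit 5) 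
(.lf (nat_lit 81375) (.g (nat_lit 2812) (.e (nat_lit 1849) (nat_lit 124) (.e (nat_lit 557108) (nat_lit 15) (.e (nat_lit 188449) (nat_lit 22) (.e (nat_lit 196637) (nat_lit 9) .nil)))) .nil)) 
(.lf (nat_lit 81407) (.g (nat_lit 2630) (.e (nat_lit 1849) (nat_lit 124) (.e (nat_lit 557108) (nat_lit 15) (.e (nat_lit 188452) (nat_lit 23) (.e (nat_lit 204815) (nat_lit 17) (.e (nat_lit 6720) (nat_lit 361) (.e (nat_lit 179968) (nat_lit 15) .nil)))))) (.g (nat_lit 5) .nil .nil)))))))))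

noncomputable def tv1103 : DT := (.nd (nat_lit 0) (.nd (nat_lit 1) (.nd (nat_lit 2) (.nd (nat_lit 3) (.nd (nat_lit 4) (.nd (nat_lit 5) 
(.lf (nat_lit 81408) (.g (nat_lit 2010) (.e (nat_lit 1849) (nat_lit 124) (.e (nat_lit 557108) (nat_lit 15) (.e (nat_lit 188452) (nat_lit 23) (.e (nat_lit 204816) (nat_lit 17) .nil)))) .nil)) 
(.lf (nat_lit 81440) (.g (nat_lit 2967) (.e (nat_lit 1849) (nat_lit 124) (.e (nat_lit 557108) (nat_lit 15) (.e (nat_lit 188452) (nat_lit 23) (.e (nat_lit 204821) (nat_lit 17) (.e (nat_lit 6680) (nat_lit 357) (.e (nat_lit 2855) (nat_lit 184) (.e (nat_lit 426402) (nat_lit 15) .nil))))))) (.g (nat_lit 0) .nil .nil)))) (.nd (nat_lit 5) 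
(.lf (nat_lit 81424) (.g (nat_lit 3180) (.e (nat_lit 1849) (nat_lit 124) (.e (nat_lit 557108) (nat_lit 15) (.e (nat_lit 188452) (nat_lit 23) (.e (nat_lit 204821) (nat_lit 17) (.e (nat_lit 6136) (nat_lit 332) (.e (nat_lit 1386) (nat_lit 105) (.e (nat_lit 311348) (nat_lit 15) .nil))))))) (.g (nat_lit 0) .nil .nil))) 
(.lf (nat_lit 81456) (.g (nat_lit 3557) (.e (nat_lit 1849) (nat_lit 124) (.e (nat_lit 557108) (nat_lit 15) (.e (nat_lit 188452) (nat_lit 23) (.e (nat_lit 204846) (nat_lit 24) (.e (nat_lit 319506) (nat_lit 10) (.e (nat_lit 5721) (nat_lit 312) (.e (nat_lit 59) (nat_lit 0) .nil))))))) (.g (nat_lit 4) .nil .nil))))) (.nd (nat_lit 4) (.nd (nat_lit 5) 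
(.lf (nat_lit 81416) (.g (nat_lit 3115) (.e (nat_lit 1849) (nat_lit 124) (.e (nat_lit 557108) (nat_lit 15) (.e (nat_lit 188452) (nat_lit 23) (.e (nat_lit 204819) (nat_lit 17) (.e (nat_lit 6218) (nat_lit 333) (.e (nat_lit 57862) (nat_lit 256) (.e (nat_lit 60) (nat_lit 0) .nil))))))) (.g (nat_lit 0) .nil .nil))) 
(.lf (nat_lit 81448) (.g (nat_lit 3681) (.e (nat_lit 1849) (nat_lit 124) (.e (nat_lit 557108) (nat_lit 15) (.e (nat_lit 188452) (nat_lit 23) (.e (nat_lit 204845) (nat_lit 24) (.e (nat_lit 319539) (nat_lit 19) (.e (nat_lit 311348) (nat_lit 15) .nil)))))) (.g (nat_lit 0) .nil .nil)))) (.nd (nat_lit 5) 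
(.lf (nat_lit 81432) (.g (nat_lit 1878) (.e (nat_lit 1849) (nat_lit 124) (.e (nat_lit 557108) (nat_lit 15) (.e (nat_lit 188452) (nat_lit 23) (.e (nat_lit 204821) (nat_lit 17) (.e (nat_lit 6671) (nat_lit 357) .nil))))) .nil)) 
(.lf (nat_lit 81464) (.g (nat_lit 5833) (.e (nat_lit 1849) (nat_lit 124) (.e (nat_lit 557108) (nat_lit 15) (.e (nat_lit 188452) (nat_lit 23) (.e (nat_lit 204846) (nat_lit 24) (.e (nat_lit 319539) (nat_lit 19) (.e (nat_lit 311348) (nat_lit 15) .nil)))))) (.g (nat_lit 0) .nil .nil)))))) (.nd (nat_lit 3) (.nd (nat_lit 4) (.nd (nat_lit 5) 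
(.lf (nat_lit 81412) (.g (nat_lit 2418) (.e (nat_lit 1849) (nat_lit 124) (.e (nat_lit 557108) (nat_lit 15) (.e (nat_lit 188452) (nat_lit 23) (.e (nat_lit 204817) (nat_lit 17) (.e (nat_lit 7936) (nat_lit 361) (.e (nat_lit 179968) (nat_lit 15) .nil)))))) (.g (nat_lit 4) .nil .nil))) 
(.lf (nat_lit 81444) (.g (nat_lit 2097) (.e (nat_lit 1849) (nat_lit 124) (.e (nat_lit 557108) (nat_lit 15) (.e (nat_lit 188452) (nat_lit 23) (.e (nat_lit 204821) (nat_lit 17) (.e (nat_lit 7936) (nat_lit 364) (.e (nat_lit 245504) (nat_lit 15) .nil)))))) (.g (nat_lit 4) .nil .nil)))) (.nd (nat_lit 5) 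
(.lf (nat_lit 81428) (.g (nat_lit 2727) (.e (nat_lit 1849) (nat_lit 124) (.e (nat_lit 557108) (nat_lit 15) (.e (nat_lit 188452) (nat_lit 23) (.e (nat_lit 204821) (nat_lit 17) (.e (nat_lit 6206) (nat_lit 333) (.e (nat_lit 57864) (nat_lit 256) (.e (nat_lit 60) (nat_lit 0) .nil))))))) (.g (nat_lit 0) .nil .nil))) 
(.lf (nat_lit 81460) (.g (nat_lit 2926) (.e (nat_lit 1849) (nat_lit 124) (.e (nat_lit 557108) (nat_lit 15) (.e (nat_lit 188452) (nat_lit 23) (.e (nat_lit 204846) (nat_lit 24) (.e (nat_lit 319537) (nat_lit 19) (.e (nat_lit 311348) (nat_lit 15) .nil)))))) (.g (nat_lit 6) .nil .nil))))) (.nd (nat_lit 4) (.nd (nat_lit 5) 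
(.lf (nat_lit 81420) (.g (nat_lit 2108) (.e (nat_lit 1849) (nat_lit 124) (.e (nat_lit 557108) (nat_lit 15) (.e (nat_lit 188452) (nat_lit 23) (.e (nat_lit 204821) (nat_lit 17) (.e (nat_lit 6114) (nat_lit 332) (.e (nat_lit 1376) (nat_lit 104) (.e (nat_lit 311040) (nat_lit 15) .nil))))))) (.g (nat_lit 4) .nil .nil))) 
(.lf (nat_lit 81452) (.g (nat_lit 2137) (.e (nat_lit 1849) (nat_lit 124) (.e (nat_lit 557108) (nat_lit 15) (.e (nat_lit 188452) (nat_lit 23) (.e (nat_lit 204846) (nat_lit 24) (.e (nat_lit 319504) (nat_lit 10) (.e (nat_lit 5736) (nat_lit 312) (.e (nat_lit 59) (nat_lit 0) .nil))))))) (.g (nat_lit 5) .nil .nil)))) (.nd (nat_lit 5) 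
(.lf (nat_lit 81436) (.g (nat_lit 2567) (.e (nat_lit 1849) (nat_lit 124) (.e (nat_lit 557108) (nat_lit 15) (.e (nat_lit 188452) (nat_lit 23) (.e (nat_lit 204821) (nat_lit 17) (.e (nat_lit 6674) (nat_lit 357) (.e (nat_lit 2940) (nat_lit 184) (.e (nat_lit 426401) (nat_lit 15) .nil))))))) (.g (nat_lit 0) .nil .nil))) 
(.lf (nat_lit 81468) (.g (nat_lit 3272) (.e (nat_lit 1849) (nat_lit 124) (.e (nat_lit 557108) (nat_lit 15) (.e (nat_lit 188452) (nat_lit 23) (.e (nat_lit 204849) (nat_lit 25) (.e (nat_lit 327705) (nat_lit 10) (.e (nat_lit 5722) (nat_lit 312) (.e (nat_lit 60) (nat_lit 0) .nil))))))) (.g (nat_lit 4) .nil .nil))))))) (.nd (nat_lit 2) (.nd (nat_lit 3) (.nd (nat_lit 4) (.nd (nat_lit 5) 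
(.lf (nat_lit 81410) (.g (nat_lit 3314) (.e (nat_lit 1849) (nat_lit 124) (.e (nat_lit 557108) (nat_lit 15) (.e (nat_lit 188452) (nat_lit 23) (.e (nat_lit 204816) (nat_lit 17) (.e (nat_lit 6720) (nat_lit 361) (.e (nat_lit 179968) (nat_lit 15) .nil)))))) (.g (nat_lit 5) .nil .nil))) 
(.lf (nat_lit 81442) (.g (nat_lit 3206) (.e (nat_lit 1849) (nat_lit 124) (.e (nat_lit 557108) (nat_lit 15) (.e (nat_lit 188452) (nat_lit 23) (.e (nat_lit 204821) (nat_lit 17) (.e (nat_lit 6680) (nat_lit 357) (.e (nat_lit 2857) (nat_lit 184) (.e (nat_lit 426402) (nat_lit 15) .nil))))))) (.g (nat_lit 0) .nil .nil)))) (.nd (nat_lit 5) 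
(.lf (nat_lit 81426) (.g (nat_lit 2272) (.e (nat_lit 1849) (nat_lit 124) (.e (nat_lit 557108) (nat_lit 15) (.e (nat_lit 188452) (nat_lit 23) (.e (nat_lit 204821) (nat_lit 17) (.e (nat_lit 6149) (nat_lit 332) (.e (nat_lit 1386) (nat_lit 105) (.e (nat_lit 311348) (nat_lit 15) .nil))))))) (.g (nat_lit 4) .nil .nil))) 
(.lf (nat_lit 81458) (.g (nat_lit 1872) (.e (nat_lit 1849) (nat_lit 124) (.e (nat_lit 557108) (nat_lit 15) (.e (nat_lit 188452) (nat_lit 23) (.e (nat_lit 204846) (nat_lit 24) (.e (nat_lit 327424) (nat_lit 10) .nil))))) .nil)))) (.nd (nat_lit 4) (.nd (nat_lit 5) 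
(.lf (nat_lit 81418) (.g (nat_lit 1801) (.e (nat_lit 1849) (nat_lit 124) (.e (nat_lit 557108) (nat_lit 15) (.e (nat_lit 188452) (nat_lit 23) (.e (nat_lit 204819) (nat_lit 17) (.e (nat_lit 7936) (nat_lit 361) (.e (nat_lit 179968) (nat_lit 15) .nil)))))) (.g (nat_lit 4) .nil .nil))) 
(.lf (nat_lit 81450) (.g (nat_lit 1794) (.e (nat_lit 1849) (nat_lit 124) (.e (nat_lit 557108) (nat_lit 15) (.e (nat_lit 188452) (nat_lit 23) (.e (nat_lit 204846) (nat_lit 24) (.e (nat_lit 319504) (nat_lit 10) (.e (nat_lit 5712) (nat_lit 312) (.e (nat_lit 59) (nat_lit 0) .nil))))))) (.g (nat_lit 5) .nil .nil)))) (.nd (nat_lit 5) 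
(.lf (nat_lit 81434) (.g (nat_lit 1853) (.e (nat_lit 1849) (nat_lit 124) (.e (nat_lit 557108) (nat_lit 15) (.e (nat_lit 188452) (nat_lit 23) (.e (nat_lit 204821) (nat_lit 17) (.e (nat_lit 6674) (nat_lit 357) .nil))))) .nil)) 
(.lf (nat_lit 81466) (.g (nat_lit 3674) (.e (nat_lit 1849) (nat_lit 124) (.e (nat_lit 557108) (nat_lit 15) (.e (nat_lit 188452) (nat_lit 23) (.e (nat_lit 204848) (nat_lit 25) (.e (nat_lit 327718) (nat_lit 19) (.e (nat_lit 311348) (nat_lit 15) .nil)))))) (.g (nat_lit 4) .nil .nil)))))) (.nd (nat_lit 3) (.nd (nat_lit 4) (.nd (nat_lit 5) 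
(.lf (nat_lit 81414) (.g (nat_lit 1497) (.e (nat_lit 1849) (nat_lit 124) (.e (nat_lit 557108) (nat_lit 15) (.e (nat_lit 188452) (nat_lit 23) (.e (nat_lit 204819) (nat_lit 17) .nil)))) .nil)) 
(.lf (nat_lit 81446) (.g (nat_lit 2417) (.e (nat_lit 1849) (nat_lit 124) (.e (nat_lit 557108) (nat_lit 15) (.e (nat_lit 188452) (nat_lit 23) (.e (nat_lit 212736) (nat_lit 17) .nil)))) .nil))) (.nd (nat_lit 5) 
(.lf (nat_lit 81430) (.g (nat_lit 2875) (.e (nat_lit 1849) (nat_lit 124) (.e (nat_lit 557108) (nat_lit 15) (.e (nat_lit 188452) (nat_lit 23) (.e (nat_lit 204821) (nat_lit 17) (.e (nat_lit 6223) (nat_lit 334) (.e (nat_lit 123163) (nat_lit 256) (.e (nat_lit 61) (nat_lit 0) .nil))))))) (.g (nat_lit 0) .nil .nil))) 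
(.lf (nat_lit 81462) (.g (nat_lit 5778) (.e (nat_lit 1849) (nat_lit 124) (.e (nat_lit 557108) (nat_lit 15) (.e (nat_lit 188452) (nat_lit 23) (.e (nat_lit 204846) (nat_lit 24) (.e (nat_lit 319538) (nat_lit 19) (.e (nat_lit 311348) (nat_lit 15) .nil)))))) (.g (nat_lit 6) .nil .nil))))) (.nd (nat_lit 4) (.nd (nat_lit 5) 
(.lf (nat_lit 81422) (.g (nat_lit 3391) (.e (nat_lit 1849) (nat_lit 124) (.e (nat_lit 557108) (nat_lit 15) (.e (nat_lit 188452) (nat_lit 23) (.e (nat_lit 204821) (nat_lit 17) (.e (nat_lit 6114) (nat_lit 332) (.e (nat_lit 1379) (nat_lit 104) (.e (nat_lit 303147) (nat_lit 15) .nil))))))) (.g (nat_lit 0) .nil .nil))) 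
(.lf (nat_lit 81454) (.g (nat_lit 804) (.e (nat_lit 1849) (nat_lit 124) (.e (nat_lit 557108) (nat_lit 15) (.e (nat_lit 188452) (nat_lit 23) (.e (nat_lit 204846) (nat_lit 24) (.e (nat_lit 319505) (nat_lit 10) .nil))))) .nil))) (.nd (nat_lit 5) 
(.lf (nat_lit 81438) (.g (nat_lit 2048) (.e (nat_lit 1849) (nat_lit 124) (.e (nat_lit 557108) (nat_lit 15) (.e (nat_lit 188452) (nat_lit 23) (.e (nat_lit 204821) (nat_lit 17) (.e (nat_lit 6676) (nat_lit 357) (.e (nat_lit 2854) (nat_lit 184) (.e (nat_lit 426402) (nat_lit 15) .nil))))))) (.g (nat_lit 4) .nil .nil))) 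
(.lf (nat_lit 81470) (.g (nat_lit 3120) (.e (nat_lit 1849) (nat_lit 124) (.e (nat_lit 557108) (nat_lit 15) (.e (nat_lit 188452) (nat_lit 23) (.e (nat_lit 204849) (nat_lit 25) (.e (nat_lit 327718) (nat_lit 19) .nil))))) .nil))))))) (.nd (nat_lit 1) (.nd (nat_lit 2) (.nd (nat_lit 3) (.nd (nat_lit 4) (.nd (nat_lit 5) 
(.lf (nat_lit 81409) (.g (nat_lit 3285) (.e (nat_lit 1849) (nat_lit 124) (.e (nat_lit 557108) (nat_lit 15) (.e (nat_lit 188452) (nat_lit 23) (.e (nat_lit 204816) (nat_lit 17) (.e (nat_lit 6718) (nat_lit 361) (.e (nat_lit 179968) (nat_lit 15) .nil)))))) (.g (nat_lit 5) .nil .nil))) 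
(.lf (nat_lit 81441) (.g (nat_lit 3426) (.e (nat_lit 1849) (nat_lit 124) (.e (nat_lit 557108) (nat_lit 15) (.e (nat_lit 188452) (nat_lit 23) (.e (nat_lit 204821) (nat_lit 17) (.e (nat_lit 6680) (nat_lit 357) (.e (nat_lit 2856) (nat_lit 184) (.e (nat_lit 426402) (nat_lit 15) .nil))))))) (.g (nat_lit 0) .nil .nil)))) (.nd (nat_lit 5) 
(.lf (nat_lit 81425) (.g (nat_lit 2110) (.e (nat_lit 1849) (nat_lit 124) (.e (nat_lit 557108) (nat_lit 15) (.e (nat_lit 188452) (nat_lit 23) (.e (nat_lit 204821) (nat_lit 17) (.e (nat_lit 6149) (nat_lit 332) (.e (nat_lit 1385) (nat_lit 105) (.e (nat_lit 311348) (nat_lit 15) .nil))))))) (.g (nat_lit 4) .nil .nil))) 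
(.lf (nat_lit 81457) (.g (nat_lit 2310) (.e (nat_lit 1849) (nat_lit 124) (.e (nat_lit 557108) (nat_lit 15) (.e (nat_lit 188452) (nat_lit 23) (.e (nat_lit 204846) (nat_lit 24) (.e (nat_lit 319511) (nat_lit 10) .nil))))) .nil)))) (.nd (nat_lit 4) (.nd (nat_lit 5) 
(.lf (nat_lit 81417) (.g (nat_lit 3155) (.e (nat_lit 1849) (nat_lit 124) (.e (nat_lit 557108) (nat_lit 15) (.e (nat_lit 188452) (nat_lit 23) (.e (nat_lit 204819) (nat_lit 17) (.e (nat_lit 6218) (nat_lit 333) (.e (nat_lit 57864) (nat_lit 256) (.e (nat_lit 60) (nat_lit 0) .nil))))))) (.g (nat_lit 0) .nil .nil))) 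
(.lf (nat_lit 81449) (.g (nat_lit 2319) (.e (nat_lit 1849) (nat_lit 124) (.e (nat_lit 557108) (nat_lit 15) (.e (nat_lit 188452) (nat_lit 23) (.e (nat_lit 204846) (nat_lit 24) (.e (nat_lit 319502) (nat_lit 10) .nil))))) .nil))) (.nd (nat_lit 5) 
(.lf (nat_lit 81433) (.g (nat_lit 2178) (.e (nat_lit 1849) (nat_lit 124) (.e (nat_lit 557108) (nat_lit 15) (.e (nat_lit 188452) (nat_lit 23) (.e (nat_lit 204821) (nat_lit 17) (.e (nat_lit 6671) (nat_lit 357) (.e (nat_lit 2940) (nat_lit 184) (.e (nat_lit 426401) (nat_lit 15) .nil))))))) (.g (nat_lit 4) .nil .nil))) 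
(.lf (nat_lit 81465) (.g (nat_lit 3279) (.e (nat_lit 1849) (nat_lit 124) (.e (nat_lit 557108) (nat_lit 15) (.e (nat_lit 188452) (nat_lit 23) (.e (nat_lit 204848) (nat_lit 25) .nil)))) .nil))))) (.nd (nat_lit 3) (.nd (nat_lit 4) (.nd (nat_lit 5) 
(.lf (nat_lit 81413) (.g (nat_lit 3671) (.e (nat_lit 1849) (nat_lit 124) (.e (nat_lit 557108) (nat_lit 15) (.e (nat_lit 188452) (nat_lit 23) (.e (nat_lit 204818) (nat_lit 17) .nil)))) .nil)) 
(.lf (nat_lit 81445) (.g (nat_lit 3608) (.e (nat_lit 1849) (nat_lit 124) (.e (nat_lit 557108) (nat_lit 15) (.e (nat_lit 188452) (nat_lit 23) (.e (nat_lit 204823) (nat_lit 17) .nil)))) .nil))) (.nd (nat_lit 5) 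
(.lf (nat_lit 81429) (.g (nat_lit 1841) (.e (nat_lit 1849) (nat_lit 124) (.e (nat_lit 557108) (nat_lit 15) (.e (nat_lit 188452) (nat_lit 23) (.e (nat_lit 204821) (nat_lit 17) (.e (nat_lit 6223) (nat_lit 334) .nil))))) .nil)) 
(.lf (nat_lit 81461) (.g (nat_lit 4001) (.e (nat_lit 1849) (nat_lit 124) (.e (nat_lit 557108) (nat_lit 15) (.e (nat_lit 188452) (nat_lit 23) (.e (nat_lit 204846) (nat_lit 24) (.e (nat_lit 319538) (nat_lit 19) .nil))))) .nil)))) (.nd (nat_lit 4) (.nd (nat_lit 5) 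
(.lf (nat_lit 81421) (.g (nat_lit 2777) (.e (nat_lit 1849) (nat_lit 124) (.e (nat_lit 557108) (nat_lit 15) (.e (nat_lit 188452) (nat_lit 23) (.e (nat_lit 204821) (nat_lit 17) (.e (nat_lit 6114) (nat_lit 332) (.e (nat_lit 1378) (nat_lit 104) (.e (nat_lit 311040) (nat_lit 15) .nil))))))) (.g (nat_lit 6) .nil .nil))) 
(.lf (nat_lit 81453) (.g (nat_lit 1360) (.e (nat_lit 1849) (nat_lit 124) (.e (nat_lit 557108) (nat_lit 15) (.e (nat_lit 188452) (nat_lit 23) (.e (nat_lit 204846) (nat_lit 24) (.e (nat_lit 319504) (nat_lit 10) (.e (nat_lit 7936) (nat_lit 312) (.e (nat_lit 12) (nat_lit 0) .nil))))))) (.g (nat_lit 5) .nil .nil)))) (.nd (nat_lit 5) 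
(.lf (nat_lit 81437) (.g (nat_lit 2374) (.e (nat_lit 1849) (nat_lit 124) (.e (nat_lit 557108) (nat_lit 15) (.e (nat_lit 188452) (nat_lit 23) (.e (nat_lit 204821) (nat_lit 17) (.e (nat_lit 6674) (nat_lit 357) (.e (nat_lit 2940) (nat_lit 184) (.e (nat_lit 433920) (nat_lit 15) .nil))))))) (.g (nat_lit 6) .nil .nil))) 
(.lf (nat_lit 81469) (.g (nat_lit 3271) (.e (nat_lit 1849) (nat_lit 124) (.e (nat_lit 557108) (nat_lit 15) (.e (nat_lit 188452) (nat_lit 23) (.e (nat_lit 204849) (nat_lit 25) (.e (nat_lit 327705) (nat_lit 10) (.e (nat_lit 5723) (nat_lit 312) (.e (nat_lit 60) (nat_lit 0) .nil))))))) (.g (nat_lit 4) .nil .nil))))))) (.nd (nat_lit 2) (.nd (nat_lit 3) (.nd (nat_lit 4) (.nd (nat_lit 5) 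
(.lf (nat_lit 81411) (.g (nat_lit 1812) (.e (nat_lit 1849) (nat_lit 124) (.e (nat_lit 557108) (nat_lit 15) (.e (nat_lit 188452) (nat_lit 23) (.e (nat_lit 204817) (nat_lit 17) .nil)))) .nil)) 
(.lf (nat_lit 81443) (.g (nat_lit 2097) (.e (nat_lit 1849) (nat_lit 124) (.e (nat_lit 557108) (nat_lit 15) (.e (nat_lit 188452) (nat_lit 23) (.e (nat_lit 204821) (nat_lit 17) (.e (nat_lit 7936) (nat_lit 361) (.e (nat_lit 179968) (nat_lit 15) .nil)))))) (.g (nat_lit 4) .nil .nil)))) (.nd (nat_lit 5) 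
(.lf (nat_lit 81427) (.g (nat_lit 2741) (.e (nat_lit 1849) (nat_lit 124) (.e (nat_lit 557108) (nat_lit 15) (.e (nat_lit 188452) (nat_lit 23) (.e (nat_lit 204821) (nat_lit 17) (.e (nat_lit 6206) (nat_lit 333) (.e (nat_lit 57862) (nat_lit 256) (.e (nat_lit 60) (nat_lit 0) .nil))))))) (.g (nat_lit 0) .nil .nil))) 
(.lf (nat_lit 81459) (.g (nat_lit 1903) (.e (nat_lit 1849) (nat_lit 124) (.e (nat_lit 557108) (nat_lit 15) (.e (nat_lit 188452) (nat_lit 23) (.e (nat_lit 204846) (nat_lit 24) (.e (nat_lit 327424) (nat_lit 18) (.e (nat_lit 311040) (nat_lit 15) .nil)))))) (.g (nat_lit 4) .nil .nil))))) (.nd (nat_lit 4) (.nd (nat_lit 5) 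
(.lf (nat_lit 81419) (.g (nat_lit 1358) (.e (nat_lit 1849) (nat_lit 124) (.e (nat_lit 557108) (nat_lit 15) (.e (nat_lit 188452) (nat_lit 23) (.e (nat_lit 204821) (nat_lit 17) .nil)))) .nil)) 
(.lf (nat_lit 81451) (.g (nat_lit 2207) (.e (nat_lit 1849) (nat_lit 124) (.e (nat_lit 557108) (nat_lit 15) (.e (nat_lit 188452) (nat_lit 23) (.e (nat_lit 204846) (nat_lit 24) (.e (nat_lit 319504) (nat_lit 10) (.e (nat_lit 5714) (nat_lit 312) (.e (nat_lit 59) (nat_lit 0) .nil))))))) (.g (nat_lit 6) .nil .nil)))) (.nd (nat_lit 5) 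
(.lf (nat_lit 81435) (.g (nat_lit 2643) (.e (nat_lit 1849) (nat_lit 124) (.e (nat_lit 557108) (nat_lit 15) (.e (nat_lit 188452) (nat_lit 23) (.e (nat_lit 204821) (nat_lit 17) (.e (nat_lit 6674) (nat_lit 357) (.e (nat_lit 2936) (nat_lit 184) (.e (nat_lit 426401) (nat_lit 15) .nil))))))) (.g (nat_lit 0) .nil .nil))) 
(.lf (nat_lit 81467) (.g (nat_lit 2538) (.e (nat_lit 1849) (nat_lit 124) (.e (nat_lit 557108) (nat_lit 15) (.e (nat_lit 188452) (nat_lit 23) (.e (nat_lit 204849) (nat_lit 25) .nil)))) .nil))))) (.nd (nat_lit 3) (.nd (nat_lit 4) (.nd (nat_lit 5) 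
(.lf (nat_lit 81415) (.g (nat_lit 1994) (.e (nat_lit 1849) (nat_lit 124) (.e (nat_lit 557108) (nat_lit 15) (.e (nat_lit 188452) (nat_lit 23) (.e (nat_lit 204819) (nat_lit 17) (.e (nat_lit 6218) (nat_lit 333) .nil))))) .nil)) 
(.lf (nat_lit 81447) (.g (nat_lit 3092) (.e (nat_lit 1849) (nat_lit 124) (.e (nat_lit 557108) (nat_lit 15) (.e (nat_lit 188452) (nat_lit 23) (.e (nat_lit 204830) (nat_lit 18) .nil)))) .nil))) (.nd (nat_lit 5) 
(.lf (nat_lit 81431) (.g (nat_lit 2924) (.e (nat_lit 1849) (nat_lit 124) (.e (nat_lit 557108) (nat_lit 15) (.e (nat_lit 188452) (nat_lit 23) (.e (nat_lit 204821) (nat_lit 17) (.e (nat_lit 6223) (nat_lit 334) (.e (nat_lit 123165) (nat_lit 256) (.e (nat_lit 61) (nat_lit 0) .nil))))))) (.g (nat_lit 0) .nil .nil))) 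
(.lf (nat_lit 81463) (.g (nat_lit 4025) (.e (nat_lit 1849) (nat_lit 124) (.e (nat_lit 557108) (nat_lit 15) (.e (nat_lit 188452) (nat_lit 23) (.e (nat_lit 204846) (nat_lit 24) (.e (nat_lit 319539) (nat_lit 19) .nil))))) .nil)))) (.nd (nat_lit 4) (.nd (nat_lit 5) 
(.lf (nat_lit 81423) (.g (nat_lit 3020) (.e (nat_lit 1849) (nat_lit 124) (.e (nat_lit 557108) (nat_lit 15) (.e (nat_lit 188452) (nat_lit 23) (.e (nat_lit 204821) (nat_lit 17) (.e (nat_lit 6136) (nat_lit 332) (.e (nat_lit 1385) (nat_lit 105) (.e (nat_lit 311348) (nat_lit 15) .nil))))))) (.g (nat_lit 0) .nil .nil))) 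
(.lf (nat_lit 81455) (.g (nat_lit 3285) (.e (nat_lit 1849) (nat_lit 124) (.e (nat_lit 557108) (nat_lit 15) (.e (nat_lit 188452) (nat_lit 23) (.e (nat_lit 204846) (nat_lit 24) (.e (nat_lit 319506) (nat_lit 10) .nil))))) .nil))) (.nd (nat_lit 5) 
(.lf (nat_lit 81439) (.g (nat_lit 2857) (.e (nat_lit 1849) (nat_lit 124) (.e (nat_lit 557108) (nat_lit 15) (.e (nat_lit 188452) (nat_lit 23) (.e (nat_lit 204821) (nat_lit 17) (.e (nat_lit 6680) (nat_lit 357) (.e (nat_lit 2854) (nat_lit 184) (.e (nat_lit 426402) (nat_lit 15) .nil))))))) (.g (nat_lit 0) .nil .nil))) 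
(.lf (nat_lit 81471) (.g (nat_lit 3375) (.e (nat_lit 1849) (nat_lit 124) (.e (nat_lit 557108) (nat_lit 15) (.e (nat_lit 188452) (nat_lit 23) (.e (nat_lit 204851) (nat_lit 26) .nil)))) .nil))))))))

noncomputable def tv1104 : DT := (.nd (nat_lit 0) (.nd (nat_lit 1) (.nd (nat_lit 2) (.nd (nat_lit 3) (.nd (nat_lit 4) (.nd (nat_lit 5) 
(.lf (nat_lit 81472) (.g (nat_lit 2739) (.e (nat_lit 1849) (nat_lit 124) (.e (nat_lit 557108) (nat_lit 15) (.e (nat_lit 188452) (nat_lit 23) (.e (nat_lit 204852) (nat_lit 26) .nil)))) .nil)) 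
(.lf (nat_lit 81504) (.g (nat_lit 2781) (.e (nat_lit 1849) (nat_lit 124) (.e (nat_lit 557109) (nat_lit 15) (.e (nat_lit 188434) (nat_lit 20) (.e (nat_lit 3272) (nat_lit 199) (.e (nat_lit 548913) (nat_lit 18) (.e (nat_lit 172095) (nat_lit 9) (.e (nat_lit 433920) (nat_lit 15) .nil))))))) (.g (nat_lit 4) .nil .nil)))) (.nd (nat_lit 5) 
(.lf (nat_lit 81488) (.g (nat_lit 3646) (.e (nat_lit 1849) (nat_lit 124) (.e (nat_lit 557108) (nat_lit 15) (.e (nat_lit 188452) (nat_lit 23) (.e (nat_lit 204885) (nat_lit 33) (.e (nat_lit 401435) (nat_lit 9) (.e (nat_lit 426402) (nat_lit 15) .nil)))))) (.g (nat_lit 0) .nil .nil))) 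
(.lf (nat_lit 81520) (.g (nat_lit 5107) (.e (nat_lit 1849) (nat_lit 124) (.e (nat_lit 557109) (nat_lit 15) (.e (nat_lit 188449) (nat_lit 22) (.e (nat_lit 196630) (nat_lit 9) (.e (nat_lit 1669) (nat_lit 116) (.e (nat_lit 401437) (nat_lit 9) (.e (nat_lit 426402) (nat_lit 15) .nil))))))) (.g (nat_lit 7) .nil .nil))))) (.nd (nat_lit 4) (.nd (nat_lit 5) 
(.lf (nat_lit 81480) (.g (nat_lit 3029) (.e (nat_lit 1849) (nat_lit 124) (.e (nat_lit 557108) (nat_lit 15) (.e (nat_lit 188452) (nat_lit 23) (.e (nat_lit 204883) (nat_lit 33) (.e (nat_lit 401437) (nat_lit 9) (.e (nat_lit 426402) (nat_lit 15) .nil)))))) (.g (nat_lit 0) .nil .nil))) 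
(.lf (nat_lit 81512) (.g (nat_lit 5676) (.e (nat_lit 1849) (nat_lit 124) (.e (nat_lit 557109) (nat_lit 15) (.e (nat_lit 188449) (nat_lit 22) (.e (nat_lit 196619) (nat_lit 9) .nil)))) .nil))) (.nd (nat_lit 5) 
(.lf (nat_lit 81496) (.g (nat_lit 2336) (.e (nat_lit 1849) (nat_lit 124) (.e (nat_lit 557108) (nat_lit 15) (.e (nat_lit 188455) (nat_lit 24) (.e (nat_lit 237312) (nat_lit 138) (.e (nat_lit 163933) (nat_lit 17) (.e (nat_lit 474880) (nat_lit 0) .nil)))))) (.g (nat_lit 5) .nil .nil))) 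
(.lf (nat_lit 81528) (.g (nat_lit 2674) (.e (nat_lit 1849) (nat_lit 124) (.e (nat_lit 557109) (nat_lit 15) (.e (nat_lit 188449) (nat_lit 22) (.e (nat_lit 196666) (nat_lit 13) .nil)))) .nil))))) (.nd (nat_lit 3) (.nd (nat_lit 4) (.nd (nat_lit 5) 
(.lf (nat_lit 81476) (.g (nat_lit 3706) (.e (nat_lit 1849) (nat_lit 124) (.e (nat_lit 557108) (nat_lit 15) (.e (nat_lit 188452) (nat_lit 23) (.e (nat_lit 204880) (nat_lit 32) (.e (nat_lit 385105) (nat_lit 50) .nil))))) .nil)) 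
(.lf (nat_lit 81508) (.g (nat_lit 2544) (.e (nat_lit 1849) (nat_lit 124) (.e (nat_lit 557109) (nat_lit 15) (.e (nat_lit 188447) (nat_lit 22) (.e (nat_lit 196628) (nat_lit 9) .nil)))) .nil))) (.nd (nat_lit 5) 
(.lf (nat_lit 81492) (.g (nat_lit 2661) (.e (nat_lit 1849) (nat_lit 124) (.e (nat_lit 557108) (nat_lit 15) (.e (nat_lit 188452) (nat_lit 23) (.e (nat_lit 204885) (nat_lit 33) (.e (nat_lit 409344) (nat_lit 9) .nil))))) .nil)) 
(.lf (nat_lit 81524) (.g (nat_lit 1957) (.e (nat_lit 1849) (nat_lit 124) (.e (nat_lit 557109) (nat_lit 15) (.e (nat_lit 188449) (nat_lit 22) (.e (nat_lit 196661) (nat_lit 12) .nil)))) .nil)))) (.nd (nat_lit 4) (.nd (nat_lit 5) 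
(.lf (nat_lit 81484) (.g (nat_lit 3826) (.e (nat_lit 1849) (nat_lit 124) (.e (nat_lit 557108) (nat_lit 15) (.e (nat_lit 188452) (nat_lit 23) (.e (nat_lit 204884) (nat_lit 33) (.e (nat_lit 401437) (nat_lit 9) (.e (nat_lit 426402) (nat_lit 15) .nil)))))) (.g (nat_lit 0) .nil .nil))) 
(.lf (nat_lit 81516) (.g (nat_lit 3151) (.e (nat_lit 1849) (nat_lit 124) (.e (nat_lit 557109) (nat_lit 15) (.e (nat_lit 188449) (nat_lit 22) (.e (nat_lit 196628) (nat_lit 9) (.e (nat_lit 968) (nat_lit 81) (.e (nat_lit 6719) (nat_lit 361) (.e (nat_lit 179968) (nat_lit 15) .nil))))))) (.g (nat_lit 5) .nil .nil)))) (.nd (nat_lit 5) 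
(.lf (nat_lit 81500) (.g (nat_lit 2135) (.e (nat_lit 1849) (nat_lit 124) (.e (nat_lit 557109) (nat_lit 15) (.e (nat_lit 188434) (nat_lit 20) (.e (nat_lit 3271) (nat_lit 199) (.e (nat_lit 548913) (nat_lit 18) .nil))))) .nil)) 
(.lf (nat_lit 81532) (.g (nat_lit 2327) (.e (nat_lit 1849) (nat_lit 124) (.e (nat_lit 557109) (nat_lit 15) (.e (nat_lit 188450) (nat_lit 23) (.e (nat_lit 204821) (nat_lit 17) .nil)))) .nil)))))) (.nd (nat_lit 2) (.nd (nat_lit 3) (.nd (nat_lit 4) (.nd (nat_lit 5) 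
(.lf (nat_lit 81474) (.g (nat_lit 3373) (.e (nat_lit 1849) (nat_lit 124) (.e (nat_lit 557108) (nat_lit 15) (.e (nat_lit 188452) (nat_lit 23) (.e (nat_lit 204853) (nat_lit 26) .nil)))) .nil)) 
(.lf (nat_lit 81506) (.g (nat_lit 933) (.e (nat_lit 1849) (nat_lit 124) (.e (nat_lit 557109) (nat_lit 15) (.e (nat_lit 188441) (nat_lit 20) .nil))) .nil))) (.nd (nat_lit 5) 
(.lf (nat_lit 81490) (.g (nat_lit 4153) (.e (nat_lit 1849) (nat_lit 124) (.e (nat_lit 557108) (nat_lit 15) (.e (nat_lit 188452) (nat_lit 23) (.e (nat_lit 204885) (nat_lit 33) (.e (nat_lit 401437) (nat_lit 9) (.e (nat_lit 426402) (nat_lit 15) .nil)))))) (.g (nat_lit 6) .nil .nil))) 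
(.lf (nat_lit 81522) (.g (nat_lit 5828) (.e (nat_lit 1849) (nat_lit 124) (.e (nat_lit 557109) (nat_lit 15) (.e (nat_lit 188449) (nat_lit 22) (.e (nat_lit 196658) (nat_lit 12) .nil)))) .nil)))) (.nd (nat_lit 4) (.nd (nat_lit 5) 
(.lf (nat_lit 81482) (.g (nat_lit 1862) (.e (nat_lit 1849) (nat_lit 124) (.e (nat_lit 557108) (nat_lit 15) (.e (nat_lit 188452) (nat_lit 23) (.e (nat_lit 204884) (nat_lit 33) .nil)))) .nil)) 
(.lf (nat_lit 81514) (.g (nat_lit 4988) (.e (nat_lit 1849) (nat_lit 124) (.e (nat_lit 557109) (nat_lit 15) (.e (nat_lit 188449) (nat_lit 22) (.e (nat_lit 196624) (nat_lit 9) .nil)))) .nil))) (.nd (nat_lit 5) 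
(.lf (nat_lit 81498) (.g (nat_lit 1365) (.e (nat_lit 1849) (nat_lit 124) (.e (nat_lit 557109) (nat_lit 15) (.e (nat_lit 188419) (nat_lit 0) (.e (nat_lit 1855) (nat_lit 124) .nil)))) .nil)) 
(.lf (nat_lit 81530) (.g (nat_lit 4188) (.e (nat_lit 1849) (nat_lit 124) (.e (nat_lit 557109) (nat_lit 15) (.e (nat_lit 188449) (nat_lit 22) (.e (nat_lit 196683) (nat_lit 18) .nil)))) .nil))))) (.nd (nat_lit 3) (.nd (nat_lit 4) (.nd (nat_lit 5) 
(.lf (nat_lit 81478) (.g (nat_lit 2728) (.e (nat_lit 1849) (nat_lit 124) (.e (nat_lit 557108) (nat_lit 15) (.e (nat_lit 188452) (nat_lit 23) (.e (nat_lit 204882) (nat_lit 32) .nil)))) .nil)) 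
(.lf (nat_lit 81510) (.g (nat_lit 2242) (.e (nat_lit 1849) (nat_lit 124) (.e (nat_lit 557109) (nat_lit 15) (.e (nat_lit 188447) (nat_lit 22) (.e (nat_lit 196661) (nat_lit 12) .nil)))) .nil))) (.nd (nat_lit 5) 
(.lf (nat_lit 81494) (.g (nat_lit 1196) (.e (nat_lit 1849) (nat_lit 124) (.e (nat_lit 557108) (nat_lit 15) (.e (nat_lit 188455) (nat_lit 24) (.e (nat_lit 237312) (nat_lit 134) .nil)))) .nil)) 
(.lf (nat_lit 81526) (.g (nat_lit 2414) (.e (nat_lit 1849) (nat_lit 124) (.e (nat_lit 557109) (nat_lit 15) (.e (nat_lit 188449) (nat_lit 22) (.e (nat_lit 196661) (nat_lit 12) (.e (nat_lit 65280) (nat_lit 205) (.e (nat_lit 179968) (nat_lit 15) .nil)))))) (.g (nat_lit 4) .nil .nil))))) (.nd (nat_lit 4) (.nd (nat_lit 5) 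
(.lf (nat_lit 81486) (.g (nat_lit 2289) (.e (nat_lit 1849) (nat_lit 124) (.e (nat_lit 557108) (nat_lit 15) (.e (nat_lit 188452) (nat_lit 23) (.e (nat_lit 204885) (nat_lit 33) (.e (nat_lit 401434) (nat_lit 9) .nil))))) .nil)) 
(.lf (nat_lit 81518) (.g (nat_lit 3468) (.e (nat_lit 1849) (nat_lit 124) (.e (nat_lit 557109) (nat_lit 15) (.e (nat_lit 188449) (nat_lit 22) (.e (nat_lit 196630) (nat_lit 9) (.e (nat_lit 1667) (nat_lit 116) (.e (nat_lit 401437) (nat_lit 9) (.e (nat_lit 426402) (nat_lit 15) .nil))))))) (.g (nat_lit 4) .nil .nil)))) (.nd (nat_lit 5) 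
(.lf (nat_lit 81502) (.g (nat_lit 2500) (.e (nat_lit 1849) (nat_lit 124) (.e (nat_lit 557109) (nat_lit 15) (.e (nat_lit 188434) (nat_lit 20) (.e (nat_lit 3272) (nat_lit 199) (.e (nat_lit 548898) (nat_lit 14) .nil))))) .nil)) 
(.lf (nat_lit 81534) (.g (nat_lit 3305) (.e (nat_lit 1849) (nat_lit 124) (.e (nat_lit 557109) (nat_lit 15) (.e (nat_lit 188452) (nat_lit 23) (.e (nat_lit 204815) (nat_lit 17) .nil)))) .nil))))))) (.nd (nat_lit 1) (.nd (nat_lit 2) (.nd (nat_lit 3) (.nd (nat_lit 4) (.nd (nat_lit 5) 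
(.lf (nat_lit 81473) (.g (nat_lit 3674) (.e (nat_lit 1849) (nat_lit 124) (.e (nat_lit 557108) (nat_lit 15) (.e (nat_lit 188452) (nat_lit 23) (.e (nat_lit 204852) (nat_lit 26) (.e (nat_lit 336260) (nat_lit 15) .nil))))) .nil)) 
(.lf (nat_lit 81505) (.g (nat_lit 2488) (.e (nat_lit 1849) (nat_lit 124) (.e (nat_lit 557109) (nat_lit 15) (.e (nat_lit 188434) (nat_lit 20) (.e (nat_lit 3272) (nat_lit 199) (.e (nat_lit 548915) (nat_lit 20) .nil))))) .nil))) (.nd (nat_lit 5) 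
(.lf (nat_lit 81489) (.g (nat_lit 3723) (.e (nat_lit 1849) (nat_lit 124) (.e (nat_lit 557108) (nat_lit 15) (.e (nat_lit 188452) (nat_lit 23) (.e (nat_lit 204885) (nat_lit 33) (.e (nat_lit 401436) (nat_lit 9) (.e (nat_lit 426402) (nat_lit 15) .nil)))))) (.g (nat_lit 6) .nil .nil))) 
(.lf (nat_lit 81521) (.g (nat_lit 5543) (.e (nat_lit 1849) (nat_lit 124) (.e (nat_lit 557109) (nat_lit 15) (.e (nat_lit 188449) (nat_lit 22) (.e (nat_lit 196657) (nat_lit 12) .nil)))) .nil)))) (.nd (nat_lit 4) (.nd (nat_lit 5) 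
(.lf (nat_lit 81481) (.g (nat_lit 2892) (.e (nat_lit 1849) (nat_lit 124) (.e (nat_lit 557108) (nat_lit 15) (.e (nat_lit 188452) (nat_lit 23) (.e (nat_lit 204883) (nat_lit 33) (.e (nat_lit 401438) (nat_lit 9) (.e (nat_lit 426402) (nat_lit 15) .nil)))))) (.g (nat_lit 0) .nil .nil))) 
(.lf (nat_lit 81513) (.g (nat_lit 5352) (.e (nat_lit 1849) (nat_lit 124) (.e (nat_lit 557109) (nat_lit 15) (.e (nat_lit 188449) (nat_lit 22) (.e (nat_lit 196620) (nat_lit 9) .nil)))) .nil))) (.nd (nat_lit 5) 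
(.lf (nat_lit 81497) (.g (nat_lit 833) (.e (nat_lit 1849) (nat_lit 124) (.e (nat_lit 557108) (nat_lit 15) (.e (nat_lit 188458) (nat_lit 25) (.e (nat_lit 245784) (nat_lit 9) .nil)))) .nil)) 
(.lf (nat_lit 81529) (.g (nat_lit 5416) (.e (nat_lit 1849) (nat_lit 124) (.e (nat_lit 557109) (nat_lit 15) (.e (nat_lit 188449) (nat_lit 22) (.e (nat_lit 196677) (nat_lit 16) .nil)))) .nil))))) (.nd (nat_lit 3) (.nd (nat_lit 4) (.nd (nat_lit 5) 
(.lf (nat_lit 81477) (.g (nat_lit 3351) (.e (nat_lit 1849) (nat_lit 124) (.e (nat_lit 557108) (nat_lit 15) (.e (nat_lit 188452) (nat_lit 23) (.e (nat_lit 204881) (nat_lit 32) .nil)))) .nil)) 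
(.lf (nat_lit 81509) (.g (nat_lit 2953) (.e (nat_lit 1849) (nat_lit 124) (.e (nat_lit 557109) (nat_lit 15) (.e (nat_lit 188447) (nat_lit 22) (.e (nat_lit 196630) (nat_lit 9) (.e (nat_lit 1669) (nat_lit 116) .nil))))) .nil))) (.nd (nat_lit 5) 
(.lf (nat_lit 81493) (.g (nat_lit 2417) (.e (nat_lit 1849) (nat_lit 124) (.e (nat_lit 557108) (nat_lit 15) (.e (nat_lit 188452) (nat_lit 23) (.e (nat_lit 212736) (nat_lit 33) .nil)))) .nil)) 
(.lf (nat_lit 81525) (.g (nat_lit 2582) (.e (nat_lit 1849) (nat_lit 124) (.e (nat_lit 557109) (nat_lit 15) (.e (nat_lit 188449) (nat_lit 22) (.e (nat_lit 196661) (nat_lit 12) (.e (nat_lit 57712) (nat_lit 176) (.e (nat_lit 1378) (nat_lit 104) (.e (nat_lit 311040) (nat_lit 15) .nil))))))) (.g (nat_lit 5) .nil .nil))))) (.nd (nat_lit 4) (.nd (nat_lit 5) 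
(.lf (nat_lit 81485) (.g (nat_lit 3396) (.e (nat_lit 1849) (nat_lit 124) (.e (nat_lit 557108) (nat_lit 15) (.e (nat_lit 188452) (nat_lit 23) (.e (nat_lit 204884) (nat_lit 33) (.e (nat_lit 401438) (nat_lit 9) (.e (nat_lit 426402) (nat_lit 15) .nil)))))) (.g (nat_lit 0) .nil .nil))) 
(.lf (nat_lit 81517) (.g (nat_lit 2282) (.e (nat_lit 1849) (nat_lit 124) (.e (nat_lit 557109) (nat_lit 15) (.e (nat_lit 188449) (nat_lit 22) (.e (nat_lit 196630) (nat_lit 9) .nil)))) .nil))) (.nd (nat_lit 5) 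
(.lf (nat_lit 81501) (.g (nat_lit 2046) (.e (nat_lit 1849) (nat_lit 124) (.e (nat_lit 557109) (nat_lit 15) (.e (nat_lit 188434) (nat_lit 20) (.e (nat_lit 3272) (nat_lit 199) .nil)))) .nil)) 
(.lf (nat_lit 81533) (.g (nat_lit 3037) (.e (nat_lit 1849) (nat_lit 124) (.e (nat_lit 557109) (nat_lit 15) (.e (nat_lit 188452) (nat_lit 23) (.e (nat_lit 204814) (nat_lit 17) .nil)))) .nil)))))) (.nd (nat_lit 2) (.nd (nat_lit 3) (.nd (nat_lit 4) (.nd (nat_lit 5) 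
(.lf (nat_lit 81475) (.g (nat_lit 2704) (.e (nat_lit 1849) (nat_lit 124) (.e (nat_lit 557108) (nat_lit 15) (.e (nat_lit 188452) (nat_lit 23) (.e (nat_lit 204880) (nat_lit 32) .nil)))) .nil)) 
(.lf (nat_lit 81507) (.g (nat_lit 1589) (.e (nat_lit 1849) (nat_lit 124) (.e (nat_lit 557109) (nat_lit 15) (.e (nat_lit 188441) (nat_lit 20) (.e (nat_lit 3272) (nat_lit 199) .nil)))) .nil))) (.nd (nat_lit 5) 
(.lf (nat_lit 81491) (.g (nat_lit 3049) (.e (nat_lit 1849) (nat_lit 124) (.e (nat_lit 557108) (nat_lit 15) (.e (nat_lit 188452) (nat_lit 23) (.e (nat_lit 204885) (nat_lit 33) (.e (nat_lit 401440) (nat_lit 9) (.e (nat_lit 433920) (nat_lit 15) .nil)))))) (.g (nat_lit 5) .nil .nil))) 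
(.lf (nat_lit 81523) (.g (nat_lit 5732) (.e (nat_lit 1849) (nat_lit 124) (.e (nat_lit 557109) (nat_lit 15) (.e (nat_lit 188449) (nat_lit 22) (.e (nat_lit 196660) (nat_lit 12) .nil)))) .nil)))) (.nd (nat_lit 4) (.nd (nat_lit 5) 
(.lf (nat_lit 81483) (.g (nat_lit 2936) (.e (nat_lit 1849) (nat_lit 124) (.e (nat_lit 557108) (nat_lit 15) (.e (nat_lit 188452) (nat_lit 23) (.e (nat_lit 204884) (nat_lit 33) (.e (nat_lit 401436) (nat_lit 9) (.e (nat_lit 426402) (nat_lit 15) .nil)))))) (.g (nat_lit 5) .nil .nil))) 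
(.lf (nat_lit 81515) (.g (nat_lit 2629) (.e (nat_lit 1849) (nat_lit 124) (.e (nat_lit 557109) (nat_lit 15) (.e (nat_lit 188449) (nat_lit 22) (.e (nat_lit 196628) (nat_lit 9) .nil)))) .nil))) (.nd (nat_lit 5) 
(.lf (nat_lit 81499) (.g (nat_lit 2049) (.e (nat_lit 1849) (nat_lit 124) (.e (nat_lit 557109) (nat_lit 15) (.e (nat_lit 188434) (nat_lit 20) (.e (nat_lit 3271) (nat_lit 199) .nil)))) .nil)) 
(.lf (nat_lit 81531) (.g (nat_lit 933) (.e (nat_lit 1849) (nat_lit 124) (.e (nat_lit 557109) (nat_lit 15) (.e (nat_lit 188450) (nat_lit 23) .nil))) .nil))))) (.nd (nat_lit 3) (.nd (nat_lit 4) (.nd (nat_lit 5) 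
(.lf (nat_lit 81479) (.g (nat_lit 1325) (.e (nat_lit 1849) (nat_lit 124) (.e (nat_lit 557108) (nat_lit 15) (.e (nat_lit 188452) (nat_lit 23) (.e (nat_lit 204883) (nat_lit 33) .nil)))) .nil)) 
(.lf (nat_lit 81511) (.g (nat_lit 396) (.e (nat_lit 1849) (nat_lit 124) (.e (nat_lit 557109) (nat_lit 15) (.e (nat_lit 188449) (nat_lit 22) .nil))) .nil))) (.nd (nat_lit 5) 
(.lf (nat_lit 81495) (.g (nat_lit 2386) (.e (nat_lit 1849) (nat_lit 124) (.e (nat_lit 557108) (nat_lit 15) (.e (nat_lit 188455) (nat_lit 24) (.e (nat_lit 237312) (nat_lit 138) (.e (nat_lit 163920) (nat_lit 14) (.e (nat_lit 450304) (nat_lit 0) .nil)))))) (.g (nat_lit 5) .nil .nil))) 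
(.lf (nat_lit 81527) (.g (nat_lit 2414) (.e (nat_lit 1849) (nat_lit 124) (.e (nat_lit 557109) (nat_lit 15) (.e (nat_lit 188449) (nat_lit 22) (.e (nat_lit 196661) (nat_lit 12) (.e (nat_lit 65280) (nat_lit 208) (.e (nat_lit 245504) (nat_lit 15) .nil)))))) (.g (nat_lit 4) .nil .nil))))) (.nd (nat_lit 4) (.nd (nat_lit 5) 
(.lf (nat_lit 81487) (.g (nat_lit 3624) (.e (nat_lit 1849) (nat_lit 124) (.e (nat_lit 557108) (nat_lit 15) (.e (nat_lit 188452) (nat_lit 23) (.e (nat_lit 204885) (nat_lit 33) (.e (nat_lit 401434) (nat_lit 9) (.e (nat_lit 426402) (nat_lit 15) .nil)))))) (.g (nat_lit 6) .nil .nil))) 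
(.lf (nat_lit 81519) (.g (nat_lit 3933) (.e (nat_lit 1849) (nat_lit 124) (.e (nat_lit 557109) (nat_lit 15) (.e (nat_lit 188449) (nat_lit 22) (.e (nat_lit 196630) (nat_lit 9) (.e (nat_lit 1669) (nat_lit 116) (.e (nat_lit 401436) (nat_lit 9) (.e (nat_lit 426402) (nat_lit 15) .nil))))))) (.g (nat_lit 5) .nil .nil)))) (.nd (nat_lit 5) 
(.lf (nat_lit 81503) (.g (nat_lit 2720) (.e (nat_lit 1849) (nat_lit 124) (.e (nat_lit 557109) (nat_lit 15) (.e (nat_lit 188434) (nat_lit 20) (.e (nat_lit 3272) (nat_lit 199) (.e (nat_lit 548898) (nat_lit 14) (.e (nat_lit 2999) (nat_lit 186) (.e (nat_lit 450304) (nat_lit 0) .nil))))))) (.g (nat_lit 4) .nil .nil))) 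
(.lf (nat_lit 81535) (.g (nat_lit 3795) (.e (nat_lit 1849) (nat_lit 124) (.e (nat_lit 557109) (nat_lit 15) (.e (nat_lit 188452) (nat_lit 23) (.e (nat_lit 204815) (nat_lit 17) (.e (nat_lit 6718) (nat_lit 361) .nil))))) .nil))))))))

noncomputable def tv1105 : DT := (.nd (nat_lit 0) (.nd (nat_lit 1) (.nd (nat_lit 2) (.nd (nat_lit 3) (.nd (nat_lit 4) (.nd (nat_lit 5) (.nd (nat_lit 6) 
(.lf (nat_lit 81536) (.g (nat_lit 3789) (.e (nat_lit 1849) (nat_lit 124) (.e (nat_lit 557109) (nat_lit 15) (.e (nat_lit 188452) (nat_lit 23) (.e (nat_lit 204815) (nat_lit 17) (.e (nat_lit 6720) (nat_lit 361) .nil))))) .nil)) 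
(.lf (nat_lit 81600) (.g (nat_lit 989) (.e (nat_lit 1850) (nat_lit 124) (.e (nat_lit 557109) (nat_lit 15) (.e (nat_lit 188449) (nat_lit 22) .nil))) .nil))) (.nd (nat_lit 6) 
(.lf (nat_lit 81568) (.g (nat_lit 2292) (.e (nat_lit 1849) (nat_lit 124) (.e (nat_lit 557109) (nat_lit 15) (.e (nat_lit 188452) (nat_lit 23) (.e (nat_lit 204883) (nat_lit 33) .nil)))) .nil)) 
(.lf (nat_lit 81632) (.g (nat_lit 4614) (.e (nat_lit 1852) (nat_lit 124) (.e (nat_lit 557108) (nat_lit 15) (.e (nat_lit 188452) (nat_lit 23) (.e (nat_lit 204821) (nat_lit 17) .nil)))) .nil)))) (.nd (nat_lit 5) (.nd (nat_lit 6) 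
(.lf (nat_lit 81552) (.g (nat_lit 3146) (.e (nat_lit 1849) (nat_lit 124) (.e (nat_lit 557109) (nat_lit 15) (.e (nat_lit 188452) (nat_lit 23) (.e (nat_lit 212736) (nat_lit 17) .nil)))) .nil)) 
(.lf (nat_lit 81616) (.g (nat_lit 2725) (.e (nat_lit 1852) (nat_lit 124) (.e (nat_lit 557092) (nat_lit 12) (.e (nat_lit 164022) (nat_lit 46) (.e (nat_lit 704738) (nat_lit 11) (.e (nat_lit 16412) (nat_lit 2) (.e (nat_lit 196681) (nat_lit 17) (.e (nat_lit 131109) (nat_lit 9) (.e (nat_lit 335878) (nat_lit 0) .nil)))))))) (.g (nat_lit 4) .nil .nil)))) (.nd (nat_lit 6) 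
(.lf (nat_lit 81584) (.g (nat_lit 2020) (.e (nat_lit 1849) (nat_lit 124) (.e (nat_lit 557109) (nat_lit 15) (.e (nat_lit 188458) (nat_lit 25) (.e (nat_lit 245784) (nat_lit 9) .nil)))) .nil)) 
(.lf (nat_lit 81648) (.g (nat_lit 2769) (.e (nat_lit 1853) (nat_lit 124) (.e (nat_lit 557087) (nat_lit 11) (.e (nat_lit 24628) (nat_lit 9) (.e (nat_lit 336019) (nat_lit 3) (.e (nat_lit 98350) (nat_lit 24) .nil))))) .nil))))) (.nd (nat_lit 4) (.nd (nat_lit 5) (.nd (nat_lit 6) 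
(.lf (nat_lit 81544) (.g (nat_lit 2791) (.e (nat_lit 1849) (nat_lit 124) (.e (nat_lit 557109) (nat_lit 15) (.e (nat_lit 188452) (nat_lit 23) (.e (nat_lit 204821) (nat_lit 17) (.e (nat_lit 6114) (nat_lit 332) .nil))))) .nil)) 
(.lf (nat_lit 81608) (.g (nat_lit 1120) (.e (nat_lit 1851) (nat_lit 124) (.e (nat_lit 557108) (nat_lit 15) (.e (nat_lit 188452) (nat_lit 23) .nil))) .nil))) (.nd (nat_lit 6) 
(.lf (nat_lit 81576) (.g (nat_lit 4303) (.e (nat_lit 1849) (nat_lit 124) (.e (nat_lit 557109) (nat_lit 15) (.e (nat_lit 188452) (nat_lit 23) (.e (nat_lit 204885) (nat_lit 33) (.e (nat_lit 401435) (nat_lit 9) (.e (nat_lit 426402) (nat_lit 15) .nil)))))) (.g (nat_lit 5) .nil .nil))) 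
(.lf (nat_lit 81640) (.g (nat_lit 3270) (.e (nat_lit 1853) (nat_lit 124) (.e (nat_lit 557087) (nat_lit 11) (.e (nat_lit 24617) (nat_lit 7) (.e (nat_lit 319504) (nat_lit 10) (.e (nat_lit 7936) (nat_lit 45) .nil))))) .nil)))) (.nd (nat_lit 5) (.nd (nat_lit 6) 
(.lf (nat_lit 81560) (.g (nat_lit 4569) (.e (nat_lit 1849) (nat_lit 124) (.e (nat_lit 557109) (nat_lit 15) (.e (nat_lit 188452) (nat_lit 23) (.e (nat_lit 204849) (nat_lit 25) (.e (nat_lit 327705) (nat_lit 10) .nil))))) .nil)) 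
(.lf (nat_lit 81624) (.g (nat_lit 656) (.e (nat_lit 1852) (nat_lit 124) (.e (nat_lit 557107) (nat_lit 15) (.e (nat_lit 188440) (nat_lit 20) .nil))) .nil))) (.nd (nat_lit 6) 
(.lf (nat_lit 81592) (.g (nat_lit 1642) (.e (nat_lit 1850) (nat_lit 124) (.e (nat_lit 557104) (nat_lit 14) (.e (nat_lit 180278) (nat_lit 32) (.e (nat_lit 1253) (nat_lit 92) (.e (nat_lit 98365) (nat_lit 26) .nil))))) .nil)) 
(.lf (nat_lit 81656) (.g (nat_lit 2718) (.e (nat_lit 1853) (nat_lit 124) (.e (nat_lit 557087) (nat_lit 11) (.e (nat_lit 24640) (nat_lit 10) (.e (nat_lit 344133) (nat_lit 26) (.e (nat_lit 557087) (nat_lit 11) .nil))))) .nil)))))) (.nd (nat_lit 3) (.nd (nat_lit 4) (.nd (nat_lit 5) (.nd (nat_lit 6) 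
(.lf (nat_lit 81540) (.g (nat_lit 3335) (.e (nat_lit 1849) (nat_lit 124) (.e (nat_lit 557109) (nat_lit 15) (.e (nat_lit 188452) (nat_lit 23) (.e (nat_lit 204817) (nat_lit 17) .nil)))) .nil)) 
(.lf (nat_lit 81604) (.g (nat_lit 5710) (.e (nat_lit 1850) (nat_lit 124) (.e (nat_lit 557109) (nat_lit 15) (.e (nat_lit 188452) (nat_lit 23) (.e (nat_lit 204885) (nat_lit 33) .nil)))) .nil))) (.nd (nat_lit 6) 
(.lf (nat_lit 81572) (.g (nat_lit 4070) (.e (nat_lit 1849) (nat_lit 124) (.e (nat_lit 557109) (nat_lit 15) (.e (nat_lit 188452) (nat_lit 23) (.e (nat_lit 204884) (nat_lit 33) (.e (nat_lit 401436) (nat_lit 9) (.e (nat_lit 426402) (nat_lit 15) .nil)))))) (.g (nat_lit 4) .nil .nil))) 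
(.lf (nat_lit 81636) (.g (nat_lit 4087) (.e (nat_lit 1852) (nat_lit 124) (.e (nat_lit 557108) (nat_lit 15) (.e (nat_lit 188452) (nat_lit 23) (.e (nat_lit 204885) (nat_lit 33) (.e (nat_lit 401435) (nat_lit 9) .nil))))) .nil)))) (.nd (nat_lit 5) (.nd (nat_lit 6) 
(.lf (nat_lit 81556) (.g (nat_lit 2329) (.e (nat_lit 1849) (nat_lit 124) (.e (nat_lit 557109) (nat_lit 15) (.e (nat_lit 188452) (nat_lit 23) (.e (nat_lit 204846) (nat_lit 24) .nil)))) .nil)) 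
(.lf (nat_lit 81620) (.g (nat_lit 1625) (.e (nat_lit 1852) (nat_lit 124) (.e (nat_lit 557104) (nat_lit 14) (.e (nat_lit 180278) (nat_lit 32) (.e (nat_lit 1253) (nat_lit 92) (.e (nat_lit 98370) (nat_lit 28) .nil))))) .nil))) (.nd (nat_lit 6) 
(.lf (nat_lit 81588) (.g (nat_lit 1486) (.e (nat_lit 1850) (nat_lit 124) (.e (nat_lit 557104) (nat_lit 14) (.e (nat_lit 180278) (nat_lit 32) (.e (nat_lit 1235) (nat_lit 91) (.e (nat_lit 90176) (nat_lit 15) (.e (nat_lit 196352) (nat_lit 0) .nil)))))) (.g (nat_lit 4) .nil .nil))) 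
(.lf (nat_lit 81652) (.g (nat_lit 3258) (.e (nat_lit 1853) (nat_lit 124) (.e (nat_lit 557087) (nat_lit 11) (.e (nat_lit 24636) (nat_lit 9) (.e (nat_lit 336017) (nat_lit 3) (.e (nat_lit 98350) (nat_lit 24) (.e (nat_lit 409616) (nat_lit 10) (.e (nat_lit 5353) (nat_lit 298) (.e (nat_lit 1077) (nat_lit 81) .nil)))))))) (.g (nat_lit 5) .nil .nil)))))) (.nd (nat_lit 4) (.nd (nat_lit 5) (.nd (nat_lit 6) 
(.lf (nat_lit 81548) (.g (nat_lit 2777) (.e (nat_lit 1849) (nat_lit 124) (.e (nat_lit 557109) (nat_lit 15) (.e (nat_lit 188452) (nat_lit 23) (.e (nat_lit 204821) (nat_lit 17) (.e (nat_lit 6671) (nat_lit 357) (.e (nat_lit 2940) (nat_lit 184) (.e (nat_lit 426401) (nat_lit 15) .nil))))))) (.g (nat_lit 4) .nil .nil))) 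
(.lf (nat_lit 81612) (.g (nat_lit 4425) (.e (nat_lit 1851) (nat_lit 124) (.e (nat_lit 557108) (nat_lit 15) (.e (nat_lit 188452) (nat_lit 23) (.e (nat_lit 204885) (nat_lit 33) .nil)))) .nil))) (.nd (nat_lit 6) 
(.lf (nat_lit 81580) (.g (nat_lit 3146) (.e (nat_lit 1849) (nat_lit 124) (.e (nat_lit 557109) (nat_lit 15) (.e (nat_lit 188452) (nat_lit 23) (.e (nat_lit 212736) (nat_lit 33) .nil)))) .nil)) 
(.lf (nat_lit 81644) (.g (nat_lit 3454) (.e (nat_lit 1853) (nat_lit 124) (.e (nat_lit 557087) (nat_lit 11) (.e (nat_lit 24625) (nat_lit 9) (.e (nat_lit 336019) (nat_lit 3) .nil)))) .nil)))) (.nd (nat_lit 5) (.nd (nat_lit 6) 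
(.lf (nat_lit 81564) (.g (nat_lit 3626) (.e (nat_lit 1849) (nat_lit 124) (.e (nat_lit 557109) (nat_lit 15) (.e (nat_lit 188452) (nat_lit 23) (.e (nat_lit 204853) (nat_lit 26) .nil)))) .nil)) 
(.lf (nat_lit 81628) (.g (nat_lit 3453) (.e (nat_lit 1852) (nat_lit 124) (.e (nat_lit 557108) (nat_lit 15) (.e (nat_lit 188434) (nat_lit 20) (.e (nat_lit 3272) (nat_lit 199) .nil)))) .nil))) (.nd (nat_lit 6) 
(.lf (nat_lit 81596) (.g (nat_lit 4910) (.e (nat_lit 1850) (nat_lit 124) (.e (nat_lit 557108) (nat_lit 15) (.e (nat_lit 188452) (nat_lit 23) (.e (nat_lit 204816) (nat_lit 17) .nil)))) .nil)) 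
(.lf (nat_lit 81660) (.g (nat_lit 2359) (.e (nat_lit 1853) (nat_lit 124) (.e (nat_lit 557096) (nat_lit 13) (.e (nat_lit 172126) (nat_lit 14) (.e (nat_lit 491540) (nat_lit 3) (.e (nat_lit 98369) (nat_lit 28) (.e (nat_lit 442373) (nat_lit 0) .nil)))))) (.g (nat_lit 6) .nil .nil)))))))) (.nd (nat_lit 2) (.nd (nat_lit 3) (.nd (nat_lit 4) (.nd (nat_lit 5) (.nd (nat_lit 6) 
(.lf (nat_lit 81538) (.g (nat_lit 4139) (.e (nat_lit 1849) (nat_lit 124) (.e (nat_lit 557109) (nat_lit 15) (.e (nat_lit 188452) (nat_lit 23) (.e (nat_lit 204816) (nat_lit 17) (.e (nat_lit 6718) (nat_lit 361) (.e (nat_lit 179968) (nat_lit 15) .nil)))))) (.g (nat_lit 5) .nil .nil))) 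
(.lf (nat_lit 81602) (.g (nat_lit 5815) (.e (nat_lit 1850) (nat_lit 124) (.e (nat_lit 557109) (nat_lit 15) (.e (nat_lit 188452) (nat_lit 23) (.e (nat_lit 204816) (nat_lit 17) .nil)))) .nil))) (.nd (nat_lit 6) 
(.lf (nat_lit 81570) (.g (nat_lit 3939) (.e (nat_lit 1849) (nat_lit 124) (.e (nat_lit 557109) (nat_lit 15) (.e (nat_lit 188452) (nat_lit 23) (.e (nat_lit 204883) (nat_lit 33) (.e (nat_lit 401437) (nat_lit 9) (.e (nat_lit 426402) (nat_lit 15) .nil)))))) (.g (nat_lit 6) .nil .nil))) 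
(.lf (nat_lit 81634) (.g (nat_lit 4190) (.e (nat_lit 1852) (nat_lit 124) (.e (nat_lit 557108) (nat_lit 15) (.e (nat_lit 188452) (nat_lit 23) (.e (nat_lit 204884) (nat_lit 33) .nil)))) .nil)))) (.nd (nat_lit 5) (.nd (nat_lit 6) 
(.lf (nat_lit 81554) (.g (nat_lit 2934) (.e (nat_lit 1849) (nat_lit 124) (.e (nat_lit 557109) (nat_lit 15) (.e (nat_lit 188452) (nat_lit 23) (.e (nat_lit 204845) (nat_lit 24) .nil)))) .nil)) 
(.lf (nat_lit 81618) (.g (nat_lit 1506) (.e (nat_lit 1852) (nat_lit 124) (.e (nat_lit 557104) (nat_lit 14) (.e (nat_lit 180278) (nat_lit 32) (.e (nat_lit 1252) (nat_lit 92) (.e (nat_lit 98370) (nat_lit 28) .nil))))) .nil))) (.nd (nat_lit 6) 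
(.lf (nat_lit 81586) (.g (nat_lit 3656) (.e (nat_lit 1850) (nat_lit 124) (.e (nat_lit 557093) (nat_lit 12) (.e (nat_lit 164022) (nat_lit 46) (.e (nat_lit 704738) (nat_lit 11) (.e (nat_lit 16412) (nat_lit 2) (.e (nat_lit 196681) (nat_lit 17) (.e (nat_lit 131109) (nat_lit 9) (.e (nat_lit 335878) (nat_lit 0) .nil)))))))) (.g (nat_lit 0) .nil .nil))) 
(.lf (nat_lit 81650) (.g (nat_lit 2745) (.e (nat_lit 1853) (nat_lit 124) (.e (nat_lit 557087) (nat_lit 11) (.e (nat_lit 24632) (nat_lit 9) (.e (nat_lit 336028) (nat_lit 3) (.e (nat_lit 98350) (nat_lit 24) .nil))))) .nil))))) (.nd (nat_lit 4) (.nd (nat_lit 5) (.nd (nat_lit 6) 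
(.lf (nat_lit 81546) (.g (nat_lit 2802) (.e (nat_lit 1849) (nat_lit 124) (.e (nat_lit 557109) (nat_lit 15) (.e (nat_lit 188452) (nat_lit 23) (.e (nat_lit 204821) (nat_lit 17) (.e (nat_lit 6149) (nat_lit 332) .nil))))) .nil)) 
(.lf (nat_lit 81610) (.g (nat_lit 3583) (.e (nat_lit 1851) (nat_lit 124) (.e (nat_lit 557108) (nat_lit 15) (.e (nat_lit 188452) (nat_lit 23) (.e (nat_lit 204846) (nat_lit 24) .nil)))) .nil))) (.nd (nat_lit 6) 
(.lf (nat_lit 81578) (.g (nat_lit 4705) (.e (nat_lit 1849) (nat_lit 124) (.e (nat_lit 557109) (nat_lit 15) (.e (nat_lit 188452) (nat_lit 23) (.e (nat_lit 204885) (nat_lit 33) (.e (nat_lit 401437) (nat_lit 9) (.e (nat_lit 426402) (nat_lit 15) .nil)))))) (.g (nat_lit 5) .nil .nil))) 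
(.lf (nat_lit 81642) (.g (nat_lit 2384) (.e (nat_lit 1853) (nat_lit 124) (.e (nat_lit 557087) (nat_lit 11) (.e (nat_lit 24623) (nat_lit 9) (.e (nat_lit 336028) (nat_lit 3) (.e (nat_lit 98350) (nat_lit 24) .nil))))) .nil)))) (.nd (nat_lit 5) (.nd (nat_lit 6) 
(.lf (nat_lit 81562) (.g (nat_lit 3663) (.e (nat_lit 1849) (nat_lit 124) (.e (nat_lit 557109) (nat_lit 15) (.e (nat_lit 188452) (nat_lit 23) (.e (nat_lit 204852) (nat_lit 26) .nil)))) .nil)) 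
(.lf (nat_lit 81626) (.g (nat_lit 1145) (.e (nat_lit 1852) (nat_lit 124) (.e (nat_lit 557108) (nat_lit 15) (.e (nat_lit 188420) (nat_lit 0) .nil))) .nil))) (.nd (nat_lit 6) 
(.lf (nat_lit 81594) (.g (nat_lit 2682) (.e (nat_lit 1850) (nat_lit 124) (.e (nat_lit 557105) (nat_lit 14) (.e (nat_lit 180252) (nat_lit 10) (.e (nat_lit 573488) (nat_lit 14) .nil)))) .nil)) 
(.lf (nat_lit 81658) (.g (nat_lit 1241) (.e (nat_lit 1853) (nat_lit 124) (.e (nat_lit 557087) (nat_lit 11) (.e (nat_lit 24657) (nat_lit 13) (.e (nat_lit 401152) (nat_lit 10) .nil)))) .nil)))))) (.nd (nat_lit 3) (.nd (nat_lit 4) (.nd (nat_lit 5) (.nd (nat_lit 6) 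
(.lf (nat_lit 81542) (.g (nat_lit 2963) (.e (nat_lit 1849) (nat_lit 124) (.e (nat_lit 557109) (nat_lit 15) (.e (nat_lit 188452) (nat_lit 23) (.e (nat_lit 204819) (nat_lit 17) .nil)))) .nil)) 
(.lf (nat_lit 81606) (.g (nat_lit 2681) (.e (nat_lit 1851) (nat_lit 124) (.e (nat_lit 557105) (nat_lit 14) (.e (nat_lit 180252) (nat_lit 10) (.e (nat_lit 573481) (nat_lit 13) .nil)))) .nil))) (.nd (nat_lit 6) 
(.lf (nat_lit 81574) (.g (nat_lit 4491) (.e (nat_lit 1849) (nat_lit 124) (.e (nat_lit 557109) (nat_lit 15) (.e (nat_lit 188452) (nat_lit 23) (.e (nat_lit 204884) (nat_lit 33) (.e (nat_lit 401438) (nat_lit 9) (.e (nat_lit 426402) (nat_lit 15) .nil)))))) (.g (nat_lit 6) .nil .nil))) 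
(.lf (nat_lit 81638) (.g (nat_lit 1838) (.e (nat_lit 1853) (nat_lit 124) (.e (nat_lit 564992) (nat_lit 6) (.e (nat_lit 81954) (nat_lit 23) (.e (nat_lit 98356) (nat_lit 26) (.e (nat_lit 426448) (nat_lit 20) (.e (nat_lit 122624) (nat_lit 20) .nil)))))) (.g (nat_lit 5) .nil .nil))))) (.nd (nat_lit 5) (.nd (nat_lit 6) 
(.lf (nat_lit 81558) (.g (nat_lit 3841) (.e (nat_lit 1849) (nat_lit 124) (.e (nat_lit 557109) (nat_lit 15) (.e (nat_lit 188452) (nat_lit 23) (.e (nat_lit 204848) (nat_lit 25) .nil)))) .nil)) 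
(.lf (nat_lit 81622) (.g (nat_lit 669) (.e (nat_lit 1852) (nat_lit 124) (.e (nat_lit 557107) (nat_lit 15) (.e (nat_lit 196352) (nat_lit 0) .nil))) .nil))) (.nd (nat_lit 6) 
(.lf (nat_lit 81590) (.g (nat_lit 1247) (.e (nat_lit 1850) (nat_lit 124) (.e (nat_lit 557104) (nat_lit 14) (.e (nat_lit 180278) (nat_lit 32) (.e (nat_lit 1252) (nat_lit 92) .nil)))) .nil)) 
(.lf (nat_lit 81654) (.g (nat_lit 692) (.e (nat_lit 1853) (nat_lit 124) (.e (nat_lit 557087) (nat_lit 11) (.e (nat_lit 24639) (nat_lit 10) .nil))) .nil))))) (.nd (nat_lit 4) (.nd (nat_lit 5) (.nd (nat_lit 6) 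
(.lf (nat_lit 81550) (.g (nat_lit 2731) (.e (nat_lit 1849) (nat_lit 124) (.e (nat_lit 557109) (nat_lit 15) (.e (nat_lit 188452) (nat_lit 23) (.e (nat_lit 204821) (nat_lit 17) (.e (nat_lit 7936) (nat_lit 361) .nil))))) .nil)) 
(.lf (nat_lit 81614) (.g (nat_lit 5710) (.e (nat_lit 1851) (nat_lit 124) (.e (nat_lit 557109) (nat_lit 15) (.e (nat_lit 188452) (nat_lit 23) (.e (nat_lit 204885) (nat_lit 33) .nil)))) .nil))) (.nd (nat_lit 6) 
(.lf (nat_lit 81582) (.g (nat_lit 537) (.e (nat_lit 1849) (nat_lit 124) (.e (nat_lit 557109) (nat_lit 15) (.e (nat_lit 188458) (nat_lit 25) .nil))) .nil)) 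
(.lf (nat_lit 81646) (.g (nat_lit 4119) (.e (nat_lit 1853) (nat_lit 124) (.e (nat_lit 557087) (nat_lit 11) (.e (nat_lit 24625) (nat_lit 9) (.e (nat_lit 336367) (nat_lit 27) .nil)))) .nil)))) (.nd (nat_lit 5) (.nd (nat_lit 6) 
(.lf (nat_lit 81566) (.g (nat_lit 3633) (.e (nat_lit 1849) (nat_lit 124) (.e (nat_lit 557109) (nat_lit 15) (.e (nat_lit 188452) (nat_lit 23) (.e (nat_lit 204881) (nat_lit 32) .nil)))) .nil)) 
(.lf (nat_lit 81630) (.g (nat_lit 4145) (.e (nat_lit 1852) (nat_lit 124) (.e (nat_lit 557108) (nat_lit 15) (.e (nat_lit 188452) (nat_lit 23) (.e (nat_lit 204816) (nat_lit 17) .nil)))) .nil))) (.nd (nat_lit 6) 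
(.lf (nat_lit 81598) (.g (nat_lit 4617) (.e (nat_lit 1850) (nat_lit 124) (.e (nat_lit 557108) (nat_lit 15) (.e (nat_lit 188452) (nat_lit 23) (.e (nat_lit 204885) (nat_lit 33) .nil)))) .nil)) 
(.lf (nat_lit 81662) (.g (nat_lit 2520) (.e (nat_lit 1853) (nat_lit 124) (.e (nat_lit 557096) (nat_lit 13) (.e (nat_lit 172126) (nat_lit 14) (.e (nat_lit 491540) (nat_lit 3) (.e (nat_lit 98370) (nat_lit 28) (.e (nat_lit 442373) (nat_lit 0) .nil)))))) (.g (nat_lit 5) .nil .nil))))))))) (.nd (nat_lit 1) (.nd (nat_lit 2) (.nd (nat_lit 3) (.nd (nat_lit 4) (.nd (nat_lit 5) (.nd (nat_lit 6) 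
(.lf (nat_lit 81537) (.g (nat_lit 3251) (.e (nat_lit 1849) (nat_lit 124) (.e (nat_lit 557109) (nat_lit 15) (.e (nat_lit 188452) (nat_lit 23) (.e (nat_lit 204816) (nat_lit 17) .nil)))) .nil)) 
(.lf (nat_lit 81601) (.g (nat_lit 1048) (.e (nat_lit 1850) (nat_lit 124) (.e (nat_lit 557109) (nat_lit 15) (.e (nat_lit 188452) (nat_lit 23) .nil))) .nil))) (.nd (nat_lit 6) 
(.lf (nat_lit 81569) (.g (nat_lit 3498) (.e (nat_lit 1849) (nat_lit 124) (.e (nat_lit 557109) (nat_lit 15) (.e (nat_lit 188452) (nat_lit 23) (.e (nat_lit 204883) (nat_lit 33) (.e (nat_lit 401436) (nat_lit 9) (.e (nat_lit 426402) (nat_lit 15) .nil)))))) (.g (nat_lit 6) .nil .nil))) 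
(.lf (nat_lit 81633) (.g (nat_lit 3761) (.e (nat_lit 1852) (nat_lit 124) (.e (nat_lit 557108) (nat_lit 15) (.e (nat_lit 188452) (nat_lit 23) (.e (nat_lit 204846) (nat_lit 24) .nil)))) .nil)))) (.nd (nat_lit 5) (.nd (nat_lit 6) 
(.lf (nat_lit 81553) (.g (nat_lit 3787) (.e (nat_lit 1849) (nat_lit 124) (.e (nat_lit 557109) (nat_lit 15) (.e (nat_lit 188452) (nat_lit 23) (.e (nat_lit 204830) (nat_lit 18) .nil)))) .nil)) 
(.lf (nat_lit 81617) (.g (nat_lit 1247) (.e (nat_lit 1852) (nat_lit 124) (.e (nat_lit 557104) (nat_lit 14) (.e (nat_lit 180278) (nat_lit 32) (.e (nat_lit 1252) (nat_lit 92) .nil)))) .nil))) (.nd (nat_lit 6) 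
(.lf (nat_lit 81585) (.g (nat_lit 585) (.e (nat_lit 1850) (nat_lit 124) (.e (nat_lit 557066) (nat_lit 9) (.e (nat_lit 324) (nat_lit 24) .nil))) .nil)) 
(.lf (nat_lit 81649) (.g (nat_lit 3249) (.e (nat_lit 1853) (nat_lit 124) (.e (nat_lit 557087) (nat_lit 11) (.e (nat_lit 24628) (nat_lit 9) (.e (nat_lit 336019) (nat_lit 3) (.e (nat_lit 98350) (nat_lit 24) (.e (nat_lit 409617) (nat_lit 10) (.e (nat_lit 5353) (nat_lit 298) (.e (nat_lit 1077) (nat_lit 81) .nil)))))))) (.g (nat_lit 4) .nil .nil)))))) (.nd (nat_lit 4) (.nd (nat_lit 5) (.nd (nat_lit 6) 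
(.lf (nat_lit 81545) (.g (nat_lit 3408) (.e (nat_lit 1849) (nat_lit 124) (.e (nat_lit 557109) (nat_lit 15) (.e (nat_lit 188452) (nat_lit 23) (.e (nat_lit 204821) (nat_lit 17) (.e (nat_lit 6114) (nat_lit 332) (.e (nat_lit 1378) (nat_lit 104) (.e (nat_lit 311040) (nat_lit 15) .nil))))))) (.g (nat_lit 5) .nil .nil))) 
(.lf (nat_lit 81609) (.g (nat_lit 4946) (.e (nat_lit 1851) (nat_lit 124) (.e (nat_lit 557108) (nat_lit 15) (.e (nat_lit 188452) (nat_lit 23) (.e (nat_lit 204816) (nat_lit 17) .nil)))) .nil))) (.nd (nat_lit 6) 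
(.lf (nat_lit 81577) (.g (nat_lit 4247) (.e (nat_lit 1849) (nat_lit 124) (.e (nat_lit 557109) (nat_lit 15) (.e (nat_lit 188452) (nat_lit 23) (.e (nat_lit 204885) (nat_lit 33) (.e (nat_lit 401436) (nat_lit 9) (.e (nat_lit 426402) (nat_lit 15) .nil)))))) (.g (nat_lit 4) .nil .nil))) 
(.lf (nat_lit 81641) (.g (nat_lit 3458) (.e (nat_lit 1853) (nat_lit 124) (.e (nat_lit 557087) (nat_lit 11) (.e (nat_lit 24617) (nat_lit 7) (.e (nat_lit 319505) (nat_lit 10) (.e (nat_lit 7936) (nat_lit 45) .nil))))) .nil)))) (.nd (nat_lit 5) (.nd (nat_lit 6) 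
(.lf (nat_lit 81561) (.g (nat_lit 3765) (.e (nat_lit 1849) (nat_lit 124) (.e (nat_lit 557109) (nat_lit 15) (.e (nat_lit 188452) (nat_lit 23) (.e (nat_lit 204851) (nat_lit 26) .nil)))) .nil)) 
(.lf (nat_lit 81625) (.g (nat_lit 1184) (.e (nat_lit 1852) (nat_lit 124) (.e (nat_lit 557108) (nat_lit 15) (.e (nat_lit 188419) (nat_lit 0) .nil))) .nil))) (.nd (nat_lit 6) 
(.lf (nat_lit 81593) (.g (nat_lit 582) (.e (nat_lit 1850) (nat_lit 124) (.e (nat_lit 557104) (nat_lit 14) (.e (nat_lit 188160) (nat_lit 32) .nil))) .nil)) 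
(.lf (nat_lit 81657) (.g (nat_lit 644) (.e (nat_lit 1853) (nat_lit 124) (.e (nat_lit 557087) (nat_lit 11) (.e (nat_lit 24641) (nat_lit 10) .nil))) .nil)))))) (.nd (nat_lit 3) (.nd (nat_lit 4) (.nd (nat_lit 5) (.nd (nat_lit 6) 
(.lf (nat_lit 81541) (.g (nat_lit 3727) (.e (nat_lit 1849) (nat_lit 124) (.e (nat_lit 557109) (nat_lit 15) (.e (nat_lit 188452) (nat_lit 23) (.e (nat_lit 204817) (nat_lit 17) (.e (nat_lit 7936) (nat_lit 357) .nil))))) .nil)) 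
(.lf (nat_lit 81605) (.g (nat_lit 1247) (.e (nat_lit 1851) (nat_lit 124) (.e (nat_lit 557104) (nat_lit 14) (.e (nat_lit 180278) (nat_lit 32) (.e (nat_lit 1252) (nat_lit 92) .nil)))) .nil))) (.nd (nat_lit 6) 
(.lf (nat_lit 81573) (.g (nat_lit 4955) (.e (nat_lit 1849) (nat_lit 124) (.e (nat_lit 557109) (nat_lit 15) (.e (nat_lit 188452) (nat_lit 23) (.e (nat_lit 204884) (nat_lit 33) (.e (nat_lit 401437) (nat_lit 9) (.e (nat_lit 426402) (nat_lit 15) .nil)))))) (.g (nat_lit 6) .nil .nil))) 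
(.lf (nat_lit 81637) (.g (nat_lit 4105) (.e (nat_lit 1852) (nat_lit 124) (.e (nat_lit 557108) (nat_lit 15) (.e (nat_lit 188452) (nat_lit 23) (.e (nat_lit 204885) (nat_lit 33) (.e (nat_lit 401440) (nat_lit 9) .nil))))) .nil)))) (.nd (nat_lit 5) (.nd (nat_lit 6) 
(.lf (nat_lit 81557) (.g (nat_lit 4765) (.e (nat_lit 1849) (nat_lit 124) (.e (nat_lit 557109) (nat_lit 15) (.e (nat_lit 188452) (nat_lit 23) (.e (nat_lit 204846) (nat_lit 24) (.e (nat_lit 319506) (nat_lit 10) .nil))))) .nil)) 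
(.lf (nat_lit 81621) (.g (nat_lit 582) (.e (nat_lit 1852) (nat_lit 124) (.e (nat_lit 557104) (nat_lit 14) (.e (nat_lit 188160) (nat_lit 32) .nil))) .nil))) (.nd (nat_lit 6) 
(.lf (nat_lit 81589) (.g (nat_lit 1530) (.e (nat_lit 1850) (nat_lit 124) (.e (nat_lit 557104) (nat_lit 14) (.e (nat_lit 180278) (nat_lit 32) (.e (nat_lit 1235) (nat_lit 91) (.e (nat_lit 90178) (nat_lit 15) (.e (nat_lit 196352) (nat_lit 0) .nil)))))) (.g (nat_lit 4) .nil .nil))) 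
(.lf (nat_lit 81653) (.g (nat_lit 3316) (.e (nat_lit 1853) (nat_lit 124) (.e (nat_lit 557087) (nat_lit 11) (.e (nat_lit 24636) (nat_lit 9) (.e (nat_lit 336017) (nat_lit 3) (.e (nat_lit 98350) (nat_lit 24) (.e (nat_lit 409617) (nat_lit 10) (.e (nat_lit 5353) (nat_lit 298) (.e (nat_lit 1074) (nat_lit 81) .nil)))))))) (.g (nat_lit 5) .nil .nil)))))) (.nd (nat_lit 4) (.nd (nat_lit 5) (.nd (nat_lit 6) 
(.lf (nat_lit 81549) (.g (nat_lit 2647) (.e (nat_lit 1849) (nat_lit 124) (.e (nat_lit 557109) (nat_lit 15) (.e (nat_lit 188452) (nat_lit 23) (.e (nat_lit 204821) (nat_lit 17) (.e (nat_lit 6676) (nat_lit 357) .nil))))) .nil)) 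
(.lf (nat_lit 81613) (.g (nat_lit 1048) (.e (nat_lit 1851) (nat_lit 124) (.e (nat_lit 557109) (nat_lit 15) (.e (nat_lit 188452) (nat_lit 23) .nil))) .nil))) (.nd (nat_lit 6) 
(.lf (nat_lit 81581) (.g (nat_lit 1772) (.e (nat_lit 1849) (nat_lit 124) (.e (nat_lit 557109) (nat_lit 15) (.e (nat_lit 188455) (nat_lit 24) (.e (nat_lit 237312) (nat_lit 138) .nil)))) .nil)) 
(.lf (nat_lit 81645) (.g (nat_lit 4111) (.e (nat_lit 1853) (nat_lit 124) (.e (nat_lit 557087) (nat_lit 11) (.e (nat_lit 24625) (nat_lit 9) (.e (nat_lit 336326) (nat_lit 18) .nil)))) .nil)))) (.nd (nat_lit 5) (.nd (nat_lit 6) 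
(.lf (nat_lit 81565) (.g (nat_lit 3610) (.e (nat_lit 1849) (nat_lit 124) (.e (nat_lit 557109) (nat_lit 15) (.e (nat_lit 188452) (nat_lit 23) (.e (nat_lit 204880) (nat_lit 32) .nil)))) .nil)) 
(.lf (nat_lit 81629) (.g (nat_lit 3225) (.e (nat_lit 1852) (nat_lit 124) (.e (nat_lit 557108) (nat_lit 15) (.e (nat_lit 188452) (nat_lit 23) (.e (nat_lit 204815) (nat_lit 17) .nil)))) .nil))) (.nd (nat_lit 6) 
(.lf (nat_lit 81597) (.g (nat_lit 4964) (.e (nat_lit 1850) (nat_lit 124) (.e (nat_lit 557108) (nat_lit 15) (.e (nat_lit 188452) (nat_lit 23) (.e (nat_lit 204884) (nat_lit 33) .nil)))) .nil)) 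
(.lf (nat_lit 81661) (.g (nat_lit 1731) (.e (nat_lit 1853) (nat_lit 124) (.e (nat_lit 557096) (nat_lit 13) (.e (nat_lit 172126) (nat_lit 14) (.e (nat_lit 491540) (nat_lit 3) (.e (nat_lit 98369) (nat_lit 28) (.e (nat_lit 450304) (nat_lit 0) .nil)))))) (.g (nat_lit 4) .nil .nil)))))))) (.nd (nat_lit 2) (.nd (nat_lit 3) (.nd (nat_lit 4) (.nd (nat_lit 5) (.nd (nat_lit 6) 
(.lf (nat_lit 81539) (.g (nat_lit 4153) (.e (nat_lit 1849) (nat_lit 124) (.e (nat_lit 557109) (nat_lit 15) (.e (nat_lit 188452) (nat_lit 23) (.e (nat_lit 204816) (nat_lit 17) (.e (nat_lit 6720) (nat_lit 361) (.e (nat_lit 179968) (nat_lit 15) .nil)))))) (.g (nat_lit 5) .nil .nil))) 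
(.lf (nat_lit 81603) (.g (nat_lit 5910) (.e (nat_lit 1850) (nat_lit 124) (.e (nat_lit 557109) (nat_lit 15) (.e (nat_lit 188452) (nat_lit 23) (.e (nat_lit 204884) (nat_lit 33) .nil)))) .nil))) (.nd (nat_lit 6) 
(.lf (nat_lit 81571) (.g (nat_lit 3817) (.e (nat_lit 1849) (nat_lit 124) (.e (nat_lit 557109) (nat_lit 15) (.e (nat_lit 188452) (nat_lit 23) (.e (nat_lit 204883) (nat_lit 33) (.e (nat_lit 401438) (nat_lit 9) (.e (nat_lit 426402) (nat_lit 15) .nil)))))) (.g (nat_lit 6) .nil .nil))) 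
(.lf (nat_lit 81635) (.g (nat_lit 3861) (.e (nat_lit 1852) (nat_lit 124) (.e (nat_lit 557108) (nat_lit 15) (.e (nat_lit 188452) (nat_lit 23) (.e (nat_lit 204885) (nat_lit 33) .nil)))) .nil)))) (.nd (nat_lit 5) (.nd (nat_lit 6) 
(.lf (nat_lit 81555) (.g (nat_lit 4113) (.e (nat_lit 1849) (nat_lit 124) (.e (nat_lit 557109) (nat_lit 15) (.e (nat_lit 188452) (nat_lit 23) (.e (nat_lit 204845) (nat_lit 24) (.e (nat_lit 319538) (nat_lit 19) .nil))))) .nil)) 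
(.lf (nat_lit 81619) (.g (nat_lit 1267) (.e (nat_lit 1852) (nat_lit 124) (.e (nat_lit 557104) (nat_lit 14) (.e (nat_lit 180278) (nat_lit 32) (.e (nat_lit 1253) (nat_lit 92) .nil)))) .nil))) (.nd (nat_lit 6) 
(.lf (nat_lit 81587) (.g (nat_lit 642) (.e (nat_lit 1850) (nat_lit 124) (.e (nat_lit 557100) (nat_lit 13) (.e (nat_lit 172126) (nat_lit 14) .nil))) .nil)) 
(.lf (nat_lit 81651) (.g (nat_lit 3335) (.e (nat_lit 1853) (nat_lit 124) (.e (nat_lit 557087) (nat_lit 11) (.e (nat_lit 24632) (nat_lit 9) (.e (nat_lit 336028) (nat_lit 3) (.e (nat_lit 98350) (nat_lit 24) (.e (nat_lit 409617) (nat_lit 10) (.e (nat_lit 5353) (nat_lit 298) (.e (nat_lit 1077) (nat_lit 81) .nil)))))))) (.g (nat_lit 4) .nil .nil)))))) (.nd (nat_lit 4) (.nd (nat_lit 5) (.nd (nat_lit 6) 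
(.lf (nat_lit 81547) (.g (nat_lit 2662) (.e (nat_lit 1849) (nat_lit 124) (.e (nat_lit 557109) (nat_lit 15) (.e (nat_lit 188452) (nat_lit 23) (.e (nat_lit 204821) (nat_lit 17) (.e (nat_lit 6671) (nat_lit 357) .nil))))) .nil)) 
(.lf (nat_lit 81611) (.g (nat_lit 4941) (.e (nat_lit 1851) (nat_lit 124) (.e (nat_lit 557108) (nat_lit 15) (.e (nat_lit 188452) (nat_lit 23) (.e (nat_lit 204884) (nat_lit 33) .nil)))) .nil))) (.nd (nat_lit 6) 
(.lf (nat_lit 81579) (.g (nat_lit 3784) (.e (nat_lit 1849) (nat_lit 124) (.e (nat_lit 557109) (nat_lit 15) (.e (nat_lit 188452) (nat_lit 23) (.e (nat_lit 204885) (nat_lit 33) (.e (nat_lit 401444) (nat_lit 9) .nil))))) .nil)) 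
(.lf (nat_lit 81643) (.g (nat_lit 721) (.e (nat_lit 1853) (nat_lit 124) (.e (nat_lit 557087) (nat_lit 11) (.e (nat_lit 24625) (nat_lit 9) .nil))) .nil)))) (.nd (nat_lit 5) (.nd (nat_lit 6) 
(.lf (nat_lit 81563) (.g (nat_lit 4973) (.e (nat_lit 1849) (nat_lit 124) (.e (nat_lit 557109) (nat_lit 15) (.e (nat_lit 188452) (nat_lit 23) (.e (nat_lit 204852) (nat_lit 26) (.e (nat_lit 336260) (nat_lit 15) .nil))))) .nil)) 
(.lf (nat_lit 81627) (.g (nat_lit 3485) (.e (nat_lit 1852) (nat_lit 124) (.e (nat_lit 557108) (nat_lit 15) (.e (nat_lit 188434) (nat_lit 20) (.e (nat_lit 3271) (nat_lit 199) .nil)))) .nil))) (.nd (nat_lit 6) 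
(.lf (nat_lit 81595) (.g (nat_lit 1078) (.e (nat_lit 1850) (nat_lit 124) (.e (nat_lit 557108) (nat_lit 15) (.e (nat_lit 188452) (nat_lit 23) .nil))) .nil)) 
(.lf (nat_lit 81659) (.g (nat_lit 620) (.e (nat_lit 1853) (nat_lit 124) (.e (nat_lit 557087) (nat_lit 11) (.e (nat_lit 24662) (nat_lit 14) .nil))) .nil)))))) (.nd (nat_lit 3) (.nd (nat_lit 4) (.nd (nat_lit 5) (.nd (nat_lit 6) 
(.lf (nat_lit 81543) (.g (nat_lit 2139) (.e (nat_lit 1849) (nat_lit 124) (.e (nat_lit 557109) (nat_lit 15) (.e (nat_lit 188452) (nat_lit 23) (.e (nat_lit 204821) (nat_lit 17) .nil)))) .nil)) 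
(.lf (nat_lit 81607) (.g (nat_lit 2682) (.e (nat_lit 1851) (nat_lit 124) (.e (nat_lit 557105) (nat_lit 14) (.e (nat_lit 180252) (nat_lit 10) (.e (nat_lit 573488) (nat_lit 14) .nil)))) .nil))) (.nd (nat_lit 6) 
(.lf (nat_lit 81575) (.g (nat_lit 3190) (.e (nat_lit 1849) (nat_lit 124) (.e (nat_lit 557109) (nat_lit 15) (.e (nat_lit 188452) (nat_lit 23) (.e (nat_lit 204885) (nat_lit 33) .nil)))) .nil)) 
(.lf (nat_lit 81639) (.g (nat_lit 608) (.e (nat_lit 1853) (nat_lit 124) (.e (nat_lit 557087) (nat_lit 11) (.e (nat_lit 24617) (nat_lit 7) .nil))) .nil)))) (.nd (nat_lit 5) (.nd (nat_lit 6) 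
(.lf (nat_lit 81559) (.g (nat_lit 3853) (.e (nat_lit 1849) (nat_lit 124) (.e (nat_lit 557109) (nat_lit 15) (.e (nat_lit 188452) (nat_lit 23) (.e (nat_lit 204849) (nat_lit 25) .nil)))) .nil)) 
(.lf (nat_lit 81623) (.g (nat_lit 709) (.e (nat_lit 1852) (nat_lit 124) (.e (nat_lit 557107) (nat_lit 15) (.e (nat_lit 188439) (nat_lit 20) .nil))) .nil))) (.nd (nat_lit 6) 
(.lf (nat_lit 81591) (.g (nat_lit 1267) (.e (nat_lit 1850) (nat_lit 124) (.e (nat_lit 557104) (nat_lit 14) (.e (nat_lit 180278) (nat_lit 32) (.e (nat_lit 1253) (nat_lit 92) .nil)))) .nil)) 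
(.lf (nat_lit 81655) (.g (nat_lit 2061) (.e (nat_lit 1853) (nat_lit 124) (.e (nat_lit 557087) (nat_lit 11) (.e (nat_lit 24640) (nat_lit 10) (.e (nat_lit 344117) (nat_lit 21) .nil)))) .nil))))) (.nd (nat_lit 4) (.nd (nat_lit 5) (.nd (nat_lit 6) 
(.lf (nat_lit 81551) (.g (nat_lit 2731) (.e (nat_lit 1849) (nat_lit 124) (.e (nat_lit 557109) (nat_lit 15) (.e (nat_lit 188452) (nat_lit 23) (.e (nat_lit 204821) (nat_lit 17) (.e (nat_lit 7936) (nat_lit 364) .nil))))) .nil)) 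
(.lf (nat_lit 81615) (.g (nat_lit 3569) (.e (nat_lit 1852) (nat_lit 124) (.e (nat_lit 557061) (nat_lit 0) (.e (nat_lit 1597) (nat_lit 111) (.e (nat_lit 360466) (nat_lit 3) (.e (nat_lit 516179) (nat_lit 15) (.e (nat_lit 475214) (nat_lit 42) (.e (nat_lit 720913) (nat_lit 20) .nil))))))) (.g (nat_lit 7) .nil .nil)))) (.nd (nat_lit 6) 
(.lf (nat_lit 81583) (.g (nat_lit 2284) (.e (nat_lit 1849) (nat_lit 124) (.e (nat_lit 557109) (nat_lit 15) (.e (nat_lit 188458) (nat_lit 25) (.e (nat_lit 245781) (nat_lit 9) .nil)))) .nil)) 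
(.lf (nat_lit 81647) (.g (nat_lit 3794) (.e (nat_lit 1853) (nat_lit 124) (.e (nat_lit 557087) (nat_lit 11) (.e (nat_lit 24625) (nat_lit 9) (.e (nat_lit 336454) (nat_lit 34) .nil)))) .nil)))) (.nd (nat_lit 5) (.nd (nat_lit 6) 
(.lf (nat_lit 81567) (.g (nat_lit 2876) (.e (nat_lit 1849) (nat_lit 124) (.e (nat_lit 557109) (nat_lit 15) (.e (nat_lit 188452) (nat_lit 23) (.e (nat_lit 204882) (nat_lit 32) .nil)))) .nil)) 
(.lf (nat_lit 81631) (.g (nat_lit 3087) (.e (nat_lit 1852) (nat_lit 124) (.e (nat_lit 557108) (nat_lit 15) (.e (nat_lit 188452) (nat_lit 23) (.e (nat_lit 204817) (nat_lit 17) .nil)))) .nil))) (.nd (nat_lit 6) 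
(.lf (nat_lit 81599) (.g (nat_lit 950) (.e (nat_lit 1850) (nat_lit 124) (.e (nat_lit 557109) (nat_lit 15) (.e (nat_lit 188434) (nat_lit 20) .nil))) .nil)) 
(.lf (nat_lit 81663) (.g (nat_lit 2491) (.e (nat_lit 1853) (nat_lit 124) (.e (nat_lit 557096) (nat_lit 13) (.e (nat_lit 172126) (nat_lit 14) (.e (nat_lit 491540) (nat_lit 3) (.e (nat_lit 98370) (nat_lit 28) (.e (nat_lit 450304) (nat_lit 0) .nil)))))) (.g (nat_lit 5) .nil .nil))))))))))

noncomputable def tv1106 : DT := (.nd (nat_lit 0) (.nd (nat_lit 1) (.nd (nat_lit 2) (.nd (nat_lit 3) (.nd (nat_lit 4) (.nd (nat_lit 5) 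
(.lf (nat_lit 81664) (.g (nat_lit 2097) (.e (nat_lit 1853) (nat_lit 124) (.e (nat_lit 557096) (nat_lit 13) (.e (nat_lit 172126) (nat_lit 14) (.e (nat_lit 491540) (nat_lit 3) (.e (nat_lit 98380) (nat_lit 31) (.e (nat_lit 466945) (nat_lit 0) .nil)))))) (.g (nat_lit 4) .nil .nil))) 
(.lf (nat_lit 81696) (.g (nat_lit 1982) (.e (nat_lit 1853) (nat_lit 124) (.e (nat_lit 557097) (nat_lit 13) (.e (nat_lit 172126) (nat_lit 14) (.e (nat_lit 491539) (nat_lit 3) (.e (nat_lit 98370) (nat_lit 28) .nil))))) .nil))) (.nd (nat_lit 5) 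
(.lf (nat_lit 81680) (.g (nat_lit 1838) (.e (nat_lit 1853) (nat_lit 124) (.e (nat_lit 557097) (nat_lit 13) (.e (nat_lit 172119) (nat_lit 12) (.e (nat_lit 475184) (nat_lit 29) (.e (nat_lit 557109) (nat_lit 15) (.e (nat_lit 196352) (nat_lit 0) .nil)))))) (.g (nat_lit 4) .nil .nil))) 
(.lf (nat_lit 81712) (.g (nat_lit 2314) (.e (nat_lit 1853) (nat_lit 124) (.e (nat_lit 557098) (nat_lit 13) (.e (nat_lit 172115) (nat_lit 10) (.e (nat_lit 434238) (nat_lit 25) (.e (nat_lit 548898) (nat_lit 14) .nil))))) .nil)))) (.nd (nat_lit 4) (.nd (nat_lit 5) 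
(.lf (nat_lit 81672) (.g (nat_lit 3158) (.e (nat_lit 1853) (nat_lit 124) (.e (nat_lit 557097) (nat_lit 13) (.e (nat_lit 172115) (nat_lit 10) (.e (nat_lit 434227) (nat_lit 20) (.e (nat_lit 507930) (nat_lit 10) (.e (nat_lit 5773) (nat_lit 316) (.e (nat_lit 172132) (nat_lit 15) .nil))))))) (.g (nat_lit 0) .nil .nil))) 
(.lf (nat_lit 81704) (.g (nat_lit 2476) (.e (nat_lit 1853) (nat_lit 124) (.e (nat_lit 557097) (nat_lit 13) (.e (nat_lit 172126) (nat_lit 14) (.e (nat_lit 491540) (nat_lit 3) (.e (nat_lit 98381) (nat_lit 31) (.e (nat_lit 474880) (nat_lit 0) .nil)))))) (.g (nat_lit 4) .nil .nil)))) (.nd (nat_lit 5) 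
(.lf (nat_lit 81688) (.g (nat_lit 2616) (.e (nat_lit 1853) (nat_lit 124) (.e (nat_lit 557097) (nat_lit 13) (.e (nat_lit 172124) (nat_lit 14) (.e (nat_lit 491540) (nat_lit 3) (.e (nat_lit 98370) (nat_lit 28) (.e (nat_lit 442373) (nat_lit 0) .nil)))))) (.g (nat_lit 5) .nil .nil))) 
(.lf (nat_lit 81720) (.g (nat_lit 2094) (.e (nat_lit 1853) (nat_lit 124) (.e (nat_lit 557098) (nat_lit 13) (.e (nat_lit 172126) (nat_lit 14) (.e (nat_lit 491540) (nat_lit 3) .nil)))) .nil))))) (.nd (nat_lit 3) (.nd (nat_lit 4) (.nd (nat_lit 5) 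
(.lf (nat_lit 81668) (.g (nat_lit 446) (.e (nat_lit 1853) (nat_lit 124) (.e (nat_lit 557097) (nat_lit 13) (.e (nat_lit 172115) (nat_lit 10) .nil))) .nil)) 
(.lf (nat_lit 81700) (.g (nat_lit 3034) (.e (nat_lit 1853) (nat_lit 124) (.e (nat_lit 557097) (nat_lit 13) (.e (nat_lit 172126) (nat_lit 14) (.e (nat_lit 491540) (nat_lit 3) (.e (nat_lit 98370) (nat_lit 28) (.e (nat_lit 450304) (nat_lit 0) .nil)))))) (.g (nat_lit 5) .nil .nil)))) (.nd (nat_lit 5) 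
(.lf (nat_lit 81684) (.g (nat_lit 3102) (.e (nat_lit 1853) (nat_lit 124) (.e (nat_lit 557097) (nat_lit 13) (.e (nat_lit 172120) (nat_lit 12) (.e (nat_lit 475185) (nat_lit 29) (.e (nat_lit 557107) (nat_lit 15) (.e (nat_lit 196352) (nat_lit 0) .nil)))))) (.g (nat_lit 5) .nil .nil))) 
(.lf (nat_lit 81716) (.g (nat_lit 2133) (.e (nat_lit 1853) (nat_lit 124) (.e (nat_lit 557098) (nat_lit 13) (.e (nat_lit 172124) (nat_lit 14) (.e (nat_lit 491540) (nat_lit 3) .nil)))) .nil)))) (.nd (nat_lit 4) (.nd (nat_lit 5) 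
(.lf (nat_lit 81676) (.g (nat_lit 1595) (.e (nat_lit 1853) (nat_lit 124) (.e (nat_lit 557097) (nat_lit 13) (.e (nat_lit 172115) (nat_lit 10) (.e (nat_lit 434238) (nat_lit 25) (.e (nat_lit 548898) (nat_lit 14) .nil))))) .nil)) 
(.lf (nat_lit 81708) (.g (nat_lit 2641) (.e (nat_lit 1853) (nat_lit 124) (.e (nat_lit 557098) (nat_lit 13) (.e (nat_lit 172115) (nat_lit 10) (.e (nat_lit 434227) (nat_lit 20) (.e (nat_lit 507929) (nat_lit 10) (.e (nat_lit 5773) (nat_lit 316) (.e (nat_lit 172132) (nat_lit 15) .nil))))))) (.g (nat_lit 4) .nil .nil)))) (.nd (nat_lit 5) 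
(.lf (nat_lit 81692) (.g (nat_lit 2110) (.e (nat_lit 1853) (nat_lit 124) (.e (nat_lit 557097) (nat_lit 13) (.e (nat_lit 172124) (nat_lit 14) (.e (nat_lit 491540) (nat_lit 3) (.e (nat_lit 98381) (nat_lit 31) (.e (nat_lit 474880) (nat_lit 0) .nil)))))) (.g (nat_lit 4) .nil .nil))) 
(.lf (nat_lit 81724) (.g (nat_lit 3066) (.e (nat_lit 1853) (nat_lit 124) (.e (nat_lit 557100) (nat_lit 13) (.e (nat_lit 172106) (nat_lit 10) (.e (nat_lit 434227) (nat_lit 20) (.e (nat_lit 507929) (nat_lit 10) (.e (nat_lit 5773) (nat_lit 316) (.e (nat_lit 172132) (nat_lit 15) .nil))))))) (.g (nat_lit 6) .nil .nil))))))) (.nd (nat_lit 2) (.nd (nat_lit 3) (.nd (nat_lit 4) (.nd (nat_lit 5) 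
(.lf (nat_lit 81666) (.g (nat_lit 1567) (.e (nat_lit 1853) (nat_lit 124) (.e (nat_lit 557096) (nat_lit 13) (.e (nat_lit 172126) (nat_lit 14) (.e (nat_lit 491540) (nat_lit 3) (.e (nat_lit 98381) (nat_lit 31) (.e (nat_lit 474880) (nat_lit 0) .nil)))))) (.g (nat_lit 4) .nil .nil))) 
(.lf (nat_lit 81698) (.g (nat_lit 2273) (.e (nat_lit 1853) (nat_lit 124) (.e (nat_lit 557097) (nat_lit 13) (.e (nat_lit 172126) (nat_lit 14) (.e (nat_lit 491540) (nat_lit 3) (.e (nat_lit 98369) (nat_lit 28) (.e (nat_lit 450304) (nat_lit 0) .nil)))))) (.g (nat_lit 4) .nil .nil)))) (.nd (nat_lit 5) 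
(.lf (nat_lit 81682) (.g (nat_lit 2758) (.e (nat_lit 1853) (nat_lit 124) (.e (nat_lit 557097) (nat_lit 13) (.e (nat_lit 172119) (nat_lit 12) (.e (nat_lit 475185) (nat_lit 29) (.e (nat_lit 557109) (nat_lit 15) (.e (nat_lit 196352) (nat_lit 0) .nil)))))) (.g (nat_lit 4) .nil .nil))) 
(.lf (nat_lit 81714) (.g (nat_lit 3051) (.e (nat_lit 1853) (nat_lit 124) (.e (nat_lit 557098) (nat_lit 13) (.e (nat_lit 172120) (nat_lit 12) (.e (nat_lit 475185) (nat_lit 29) (.e (nat_lit 557109) (nat_lit 15) .nil))))) .nil)))) (.nd (nat_lit 4) (.nd (nat_lit 5) 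
(.lf (nat_lit 81674) (.g (nat_lit 2375) (.e (nat_lit 1853) (nat_lit 124) (.e (nat_lit 557097) (nat_lit 13) (.e (nat_lit 172115) (nat_lit 10) (.e (nat_lit 434231) (nat_lit 23) (.e (nat_lit 532569) (nat_lit 16) (.e (nat_lit 401440) (nat_lit 9) (.e (nat_lit 426394) (nat_lit 15) .nil))))))) (.g (nat_lit 5) .nil .nil))) 
(.lf (nat_lit 81706) (.g (nat_lit 1821) (.e (nat_lit 1853) (nat_lit 124) (.e (nat_lit 557098) (nat_lit 13) (.e (nat_lit 172115) (nat_lit 10) (.e (nat_lit 434227) (nat_lit 20) .nil)))) .nil))) (.nd (nat_lit 5) 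
(.lf (nat_lit 81690) (.g (nat_lit 2406) (.e (nat_lit 1853) (nat_lit 124) (.e (nat_lit 557097) (nat_lit 13) (.e (nat_lit 172124) (nat_lit 14) (.e (nat_lit 491540) (nat_lit 3) (.e (nat_lit 98380) (nat_lit 31) (.e (nat_lit 466945) (nat_lit 0) .nil)))))) (.g (nat_lit 4) .nil .nil))) 
(.lf (nat_lit 81722) (.g (nat_lit 3120) (.e (nat_lit 1853) (nat_lit 124) (.e (nat_lit 557100) (nat_lit 13) (.e (nat_lit 172106) (nat_lit 10) (.e (nat_lit 434227) (nat_lit 20) (.e (nat_lit 507928) (nat_lit 10) (.e (nat_lit 5772) (nat_lit 316) (.e (nat_lit 172132) (nat_lit 15) .nil))))))) (.g (nat_lit 6) .nil .nil)))))) (.nd (nat_lit 3) (.nd (nat_lit 4) (.nd (nat_lit 5) 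
(.lf (nat_lit 81670) (.g (nat_lit 3192) (.e (nat_lit 1853) (nat_lit 124) (.e (nat_lit 557097) (nat_lit 13) (.e (nat_lit 172115) (nat_lit 10) (.e (nat_lit 434227) (nat_lit 20) (.e (nat_lit 507929) (nat_lit 10) (.e (nat_lit 5772) (nat_lit 316) (.e (nat_lit 172132) (nat_lit 15) .nil))))))) (.g (nat_lit 0) .nil .nil))) 
(.lf (nat_lit 81702) (.g (nat_lit 2641) (.e (nat_lit 1853) (nat_lit 124) (.e (nat_lit 557097) (nat_lit 13) (.e (nat_lit 172126) (nat_lit 14) (.e (nat_lit 491540) (nat_lit 3) (.e (nat_lit 98380) (nat_lit 31) (.e (nat_lit 466945) (nat_lit 0) .nil)))))) (.g (nat_lit 4) .nil .nil)))) (.nd (nat_lit 5) 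
(.lf (nat_lit 81686) (.g (nat_lit 2453) (.e (nat_lit 1853) (nat_lit 124) (.e (nat_lit 557097) (nat_lit 13) (.e (nat_lit 172124) (nat_lit 14) (.e (nat_lit 491540) (nat_lit 3) (.e (nat_lit 98369) (nat_lit 28) (.e (nat_lit 442373) (nat_lit 0) .nil)))))) (.g (nat_lit 5) .nil .nil))) 
(.lf (nat_lit 81718) (.g (nat_lit 2685) (.e (nat_lit 1853) (nat_lit 124) (.e (nat_lit 557098) (nat_lit 13) (.e (nat_lit 172124) (nat_lit 14) (.e (nat_lit 491540) (nat_lit 3) (.e (nat_lit 98370) (nat_lit 28) (.e (nat_lit 450304) (nat_lit 0) .nil)))))) (.g (nat_lit 4) .nil .nil))))) (.nd (nat_lit 4) (.nd (nat_lit 5) 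
(.lf (nat_lit 81678) (.g (nat_lit 2011) (.e (nat_lit 1853) (nat_lit 124) (.e (nat_lit 557097) (nat_lit 13) (.e (nat_lit 172115) (nat_lit 10) (.e (nat_lit 434244) (nat_lit 28) (.e (nat_lit 573450) (nat_lit 9) .nil))))) .nil)) 
(.lf (nat_lit 81710) (.g (nat_lit 2680) (.e (nat_lit 1853) (nat_lit 124) (.e (nat_lit 557098) (nat_lit 13) (.e (nat_lit 172115) (nat_lit 10) (.e (nat_lit 434231) (nat_lit 23) (.e (nat_lit 532562) (nat_lit 15) .nil))))) .nil))) (.nd (nat_lit 5) 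
(.lf (nat_lit 81694) (.g (nat_lit 3399) (.e (nat_lit 1853) (nat_lit 124) (.e (nat_lit 557097) (nat_lit 13) (.e (nat_lit 172126) (nat_lit 14) (.e (nat_lit 491537) (nat_lit 2) (.e (nat_lit 90178) (nat_lit 15) (.e (nat_lit 196352) (nat_lit 0) .nil)))))) (.g (nat_lit 5) .nil .nil))) 
(.lf (nat_lit 81726) (.g (nat_lit 3138) (.e (nat_lit 1853) (nat_lit 124) (.e (nat_lit 557100) (nat_lit 13) (.e (nat_lit 172106) (nat_lit 10) (.e (nat_lit 434227) (nat_lit 20) (.e (nat_lit 507930) (nat_lit 10) (.e (nat_lit 5773) (nat_lit 316) (.e (nat_lit 172132) (nat_lit 15) .nil))))))) (.g (nat_lit 6) .nil .nil)))))))) 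
(.nd (nat_lit 1) (.nd (nat_lit 2) (.nd (nat_lit 3) (.nd (nat_lit 4) (.nd (nat_lit 5) 
(.lf (nat_lit 81665) (.g (nat_lit 2066) (.e (nat_lit 1853) (nat_lit 124) (.e (nat_lit 557096) (nat_lit 13) (.e (nat_lit 172126) (nat_lit 14) (.e (nat_lit 491540) (nat_lit 3) (.e (nat_lit 98381) (nat_lit 31) (.e (nat_lit 466945) (nat_lit 0) .nil)))))) (.g (nat_lit 4) .nil .nil))) 
(.lf (nat_lit 81697) (.g (nat_lit 2770) (.e (nat_lit 1853) (nat_lit 124) (.e (nat_lit 557097) (nat_lit 13) (.e (nat_lit 172126) (nat_lit 14) (.e (nat_lit 491540) (nat_lit 3) (.e (nat_lit 98369) (nat_lit 28) (.e (nat_lit 442373) (nat_lit 0) .nil)))))) (.g (nat_lit 5) .nil .nil)))) (.nd (nat_lit 5) 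
(.lf (nat_lit 81681) (.g (nat_lit 2487) (.e (nat_lit 1853) (nat_lit 124) (.e (nat_lit 557097) (nat_lit 13) (.e (nat_lit 172119) (nat_lit 12) (.e (nat_lit 475185) (nat_lit 29) (.e (nat_lit 557107) (nat_lit 15) (.e (nat_lit 196352) (nat_lit 0) .nil)))))) (.g (nat_lit 4) .nil .nil))) 
(.lf (nat_lit 81713) (.g (nat_lit 1571) (.e (nat_lit 1853) (nat_lit 124) (.e (nat_lit 557098) (nat_lit 13) (.e (nat_lit 172115) (nat_lit 10) (.e (nat_lit 434244) (nat_lit 28) .nil)))) .nil)))) (.nd (nat_lit 4) (.nd (nat_lit 5) 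
(.lf (nat_lit 81673) (.g (nat_lit 2438) (.e (nat_lit 1853) (nat_lit 124) (.e (nat_lit 557097) (nat_lit 13) (.e (nat_lit 172115) (nat_lit 10) (.e (nat_lit 434231) (nat_lit 23) (.e (nat_lit 532490) (nat_lit 0) (.e (nat_lit 7936) (nat_lit 361) (.e (nat_lit 172132) (nat_lit 15) .nil))))))) (.g (nat_lit 4) .nil .nil))) 
(.lf (nat_lit 81705) (.g (nat_lit 2066) (.e (nat_lit 1853) (nat_lit 124) (.e (nat_lit 557098) (nat_lit 13) (.e (nat_lit 172097) (nat_lit 9) (.e (nat_lit 426125) (nat_lit 2) .nil)))) .nil))) (.nd (nat_lit 5) 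
(.lf (nat_lit 81689) (.g (nat_lit 2716) (.e (nat_lit 1853) (nat_lit 124) (.e (nat_lit 557097) (nat_lit 13) (.e (nat_lit 172124) (nat_lit 14) (.e (nat_lit 491540) (nat_lit 3) (.e (nat_lit 98370) (nat_lit 28) (.e (nat_lit 450304) (nat_lit 0) .nil)))))) (.g (nat_lit 5) .nil .nil))) 
(.lf (nat_lit 81721) (.g (nat_lit 1547) (.e (nat_lit 1853) (nat_lit 124) (.e (nat_lit 557100) (nat_lit 13) (.e (nat_lit 172106) (nat_lit 10) (.e (nat_lit 434227) (nat_lit 20) .nil)))) .nil))))) (.nd (nat_lit 3) (.nd (nat_lit 4) (.nd (nat_lit 5) 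
(.lf (nat_lit 81669) (.g (nat_lit 3201) (.e (nat_lit 1853) (nat_lit 124) (.e (nat_lit 557097) (nat_lit 13) (.e (nat_lit 172115) (nat_lit 10) (.e (nat_lit 434227) (nat_lit 20) (.e (nat_lit 507928) (nat_lit 10) (.e (nat_lit 5772) (nat_lit 316) (.e (nat_lit 172132) (nat_lit 15) .nil))))))) (.g (nat_lit 0) .nil .nil))) 
(.lf (nat_lit 81701) (.g (nat_lit 1944) (.e (nat_lit 1853) (nat_lit 124) (.e (nat_lit 557097) (nat_lit 13) (.e (nat_lit 172126) (nat_lit 14) (.e (nat_lit 491540) (nat_lit 3) (.e (nat_lit 98380) (nat_lit 31) .nil))))) .nil))) (.nd (nat_lit 5) 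
(.lf (nat_lit 81685) (.g (nat_lit 3087) (.e (nat_lit 1853) (nat_lit 124) (.e (nat_lit 557097) (nat_lit 13) (.e (nat_lit 172120) (nat_lit 12) (.e (nat_lit 475185) (nat_lit 29) (.e (nat_lit 557109) (nat_lit 15) (.e (nat_lit 196352) (nat_lit 0) .nil)))))) (.g (nat_lit 5) .nil .nil))) 
(.lf (nat_lit 81717) (.g (nat_lit 2988) (.e (nat_lit 1853) (nat_lit 124) (.e (nat_lit 557098) (nat_lit 13) (.e (nat_lit 172124) (nat_lit 14) (.e (nat_lit 491540) (nat_lit 3) (.e (nat_lit 98370) (nat_lit 28) (.e (nat_lit 442373) (nat_lit 0) .nil)))))) (.g (nat_lit 4) .nil .nil))))) (.nd (nat_lit 4) (.nd (nat_lit 5) 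
(.lf (nat_lit 81677) (.g (nat_lit 1438) (.e (nat_lit 1853) (nat_lit 124) (.e (nat_lit 557097) (nat_lit 13) (.e (nat_lit 172115) (nat_lit 10) (.e (nat_lit 434244) (nat_lit 28) .nil)))) .nil)) 
(.lf (nat_lit 81709) (.g (nat_lit 2716) (.e (nat_lit 1853) (nat_lit 124) (.e (nat_lit 557098) (nat_lit 13) (.e (nat_lit 172115) (nat_lit 10) (.e (nat_lit 434227) (nat_lit 20) (.e (nat_lit 507930) (nat_lit 10) (.e (nat_lit 5773) (nat_lit 316) (.e (nat_lit 172132) (nat_lit 15) .nil))))))) (.g (nat_lit 4) .nil .nil)))) (.nd (nat_lit 5) 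
(.lf (nat_lit 81693) (.g (nat_lit 3140) (.e (nat_lit 1853) (nat_lit 124) (.e (nat_lit 557097) (nat_lit 13) (.e (nat_lit 172126) (nat_lit 14) (.e (nat_lit 491537) (nat_lit 2) (.e (nat_lit 90176) (nat_lit 15) (.e (nat_lit 196352) (nat_lit 0) .nil)))))) (.g (nat_lit 5) .nil .nil))) 
(.lf (nat_lit 81725) (.g (nat_lit 3216) (.e (nat_lit 1853) (nat_lit 124) (.e (nat_lit 557100) (nat_lit 13) (.e (nat_lit 172106) (nat_lit 10) (.e (nat_lit 434227) (nat_lit 20) (.e (nat_lit 507930) (nat_lit 10) (.e (nat_lit 5772) (nat_lit 316) (.e (nat_lit 172132) (nat_lit 15) .nil))))))) (.g (nat_lit 7) .nil .nil))))))) (.nd (nat_lit 2) (.nd (nat_lit 3) (.nd (nat_lit 4) (.nd (nat_lit 5) 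
(.lf (nat_lit 81667) (.g (nat_lit 1689) (.e (nat_lit 1853) (nat_lit 124) (.e (nat_lit 557097) (nat_lit 13) (.e (nat_lit 172097) (nat_lit 9) (.e (nat_lit 426125) (nat_lit 2) (.e (nat_lit 196661) (nat_lit 12) .nil))))) .nil)) 
(.lf (nat_lit 81699) (.g (nat_lit 2926) (.e (nat_lit 1853) (nat_lit 124) (.e (nat_lit 557097) (nat_lit 13) (.e (nat_lit 172126) (nat_lit 14) (.e (nat_lit 491540) (nat_lit 3) (.e (nat_lit 98370) (nat_lit 28) (.e (nat_lit 442373) (nat_lit 0) .nil)))))) (.g (nat_lit 5) .nil .nil)))) (.nd (nat_lit 5) 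
(.lf (nat_lit 81683) (.g (nat_lit 1546) (.e (nat_lit 1853) (nat_lit 124) (.e (nat_lit 557097) (nat_lit 13) (.e (nat_lit 172120) (nat_lit 12) (.e (nat_lit 475184) (nat_lit 29) .nil)))) .nil)) 
(.lf (nat_lit 81715) (.g (nat_lit 1103) (.e (nat_lit 1853) (nat_lit 124) (.e (nat_lit 557098) (nat_lit 13) (.e (nat_lit 172124) (nat_lit 14) .nil))) .nil)))) (.nd (nat_lit 4) (.nd (nat_lit 5) 
(.lf (nat_lit 81675) (.g (nat_lit 1171) (.e (nat_lit 1853) (nat_lit 124) (.e (nat_lit 557097) (nat_lit 13) (.e (nat_lit 172115) (nat_lit 10) (.e (nat_lit 434238) (nat_lit 25) .nil)))) .nil)) 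
(.lf (nat_lit 81707) (.g (nat_lit 2758) (.e (nat_lit 1853) (nat_lit 124) (.e (nat_lit 557098) (nat_lit 13) (.e (nat_lit 172115) (nat_lit 10) (.e (nat_lit 434227) (nat_lit 20) (.e (nat_lit 507928) (nat_lit 10) (.e (nat_lit 5772) (nat_lit 316) (.e (nat_lit 172132) (nat_lit 15) .nil))))))) (.g (nat_lit 4) .nil .nil)))) (.nd (nat_lit 5) 
(.lf (nat_lit 81691) (.g (nat_lit 2352) (.e (nat_lit 1853) (nat_lit 124) (.e (nat_lit 557097) (nat_lit 13) (.e (nat_lit 172124) (nat_lit 14) (.e (nat_lit 491540) (nat_lit 3) (.e (nat_lit 98381) (nat_lit 31) (.e (nat_lit 466945) (nat_lit 0) .nil)))))) (.g (nat_lit 4) .nil .nil))) 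
(.lf (nat_lit 81723) (.g (nat_lit 3190) (.e (nat_lit 1853) (nat_lit 124) (.e (nat_lit 557100) (nat_lit 13) (.e (nat_lit 172106) (nat_lit 10) (.e (nat_lit 434227) (nat_lit 20) (.e (nat_lit 507929) (nat_lit 10) (.e (nat_lit 5772) (nat_lit 316) (.e (nat_lit 172132) (nat_lit 15) .nil))))))) (.g (nat_lit 7) .nil .nil)))))) (.nd (nat_lit 3) (.nd (nat_lit 4) (.nd (nat_lit 5) 
(.lf (nat_lit 81671) (.g (nat_lit 3230) (.e (nat_lit 1853) (nat_lit 124) (.e (nat_lit 557097) (nat_lit 13) (.e (nat_lit 172115) (nat_lit 10) (.e (nat_lit 434227) (nat_lit 20) (.e (nat_lit 507930) (nat_lit 10) (.e (nat_lit 5772) (nat_lit 316) (.e (nat_lit 172132) (nat_lit 15) .nil))))))) (.g (nat_lit 0) .nil .nil))) 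
(.lf (nat_lit 81703) (.g (nat_lit 2736) (.e (nat_lit 1853) (nat_lit 124) (.e (nat_lit 557097) (nat_lit 13) (.e (nat_lit 172126) (nat_lit 14) (.e (nat_lit 491540) (nat_lit 3) (.e (nat_lit 98381) (nat_lit 31) (.e (nat_lit 466945) (nat_lit 0) .nil)))))) (.g (nat_lit 4) .nil .nil)))) (.nd (nat_lit 5) 
(.lf (nat_lit 81687) (.g (nat_lit 1969) (.e (nat_lit 1853) (nat_lit 124) (.e (nat_lit 557097) (nat_lit 13) (.e (nat_lit 172124) (nat_lit 14) (.e (nat_lit 491540) (nat_lit 3) (.e (nat_lit 98369) (nat_lit 28) (.e (nat_lit 450304) (nat_lit 0) .nil)))))) (.g (nat_lit 4) .nil .nil))) 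
(.lf (nat_lit 81719) (.g (nat_lit 961) (.e (nat_lit 1853) (nat_lit 124) (.e (nat_lit 557098) (nat_lit 13) (.e (nat_lit 172126) (nat_lit 14) .nil))) .nil)))) (.nd (nat_lit 4) (.nd (nat_lit 5) 
(.lf (nat_lit 81679) (.g (nat_lit 2316) (.e (nat_lit 1853) (nat_lit 124) (.e (nat_lit 557097) (nat_lit 13) (.e (nat_lit 172115) (nat_lit 10) (.e (nat_lit 434244) (nat_lit 28) (.e (nat_lit 573471) (nat_lit 11) (.e (nat_lit 16440) (nat_lit 9) (.e (nat_lit 426394) (nat_lit 15) .nil))))))) (.g (nat_lit 4) .nil .nil))) 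
(.lf (nat_lit 81711) (.g (nat_lit 1871) (.e (nat_lit 1853) (nat_lit 124) (.e (nat_lit 557098) (nat_lit 13) (.e (nat_lit 172115) (nat_lit 10) (.e (nat_lit 434238) (nat_lit 25) .nil)))) .nil))) (.nd (nat_lit 5) 
(.lf (nat_lit 81695) (.g (nat_lit 1364) (.e (nat_lit 1853) (nat_lit 124) (.e (nat_lit 557097) (nat_lit 13) (.e (nat_lit 172126) (nat_lit 14) (.e (nat_lit 491539) (nat_lit 3) .nil)))) .nil)) 
(.lf (nat_lit 81727) (.g (nat_lit 1839) (.e (nat_lit 1853) (nat_lit 124) (.e (nat_lit 557100) (nat_lit 13) (.e (nat_lit 172106) (nat_lit 10) (.e (nat_lit 434230) (nat_lit 23) .nil)))) .nil))))))))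

noncomputable def tv1107 : DT := (.nd (nat_lit 0) (.nd (nat_lit 1) (.nd (nat_lit 2) (.nd (nat_lit 3) (.nd (nat_lit 4) (.nd (nat_lit 5) 
(.lf (nat_lit 81728) (.g (nat_lit 2190) (.e (nat_lit 1853) (nat_lit 124) (.e (nat_lit 557100) (nat_lit 13) (.e (nat_lit 172106) (nat_lit 10) (.e (nat_lit 434231) (nat_lit 23) (.e (nat_lit 532490) (nat_lit 0) (.e (nat_lit 7936) (nat_lit 361) (.e (nat_lit 172132) (nat_lit 15) .nil))))))) (.g (nat_lit 4) .nil .nil))) 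
(.lf (nat_lit 81760) (.g (nat_lit 2547) (.e (nat_lit 1853) (nat_lit 124) (.e (nat_lit 557100) (nat_lit 13) (.e (nat_lit 172126) (nat_lit 14) (.e (nat_lit 491540) (nat_lit 3) (.e (nat_lit 98381) (nat_lit 31) (.e (nat_lit 474880) (nat_lit 0) .nil)))))) (.g (nat_lit 4) .nil .nil)))) (.nd (nat_lit 5) 
(.lf (nat_lit 81744) (.g (nat_lit 425) (.e (nat_lit 1853) (nat_lit 124) (.e (nat_lit 557100) (nat_lit 13) (.e (nat_lit 172113) (nat_lit 10) .nil))) .nil)) 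
(.lf (nat_lit 81776) (.g (nat_lit 2703) (.e (nat_lit 1853) (nat_lit 124) (.e (nat_lit 557103) (nat_lit 14) (.e (nat_lit 180278) (nat_lit 32) (.e (nat_lit 1235) (nat_lit 91) (.e (nat_lit 90178) (nat_lit 15) (.e (nat_lit 196352) (nat_lit 0) .nil)))))) (.g (nat_lit 5) .nil .nil))))) (.nd (nat_lit 4) (.nd (nat_lit 5) 
(.lf (nat_lit 81736) (.g (nat_lit 2288) (.e (nat_lit 1853) (nat_lit 124) (.e (nat_lit 557100) (nat_lit 13) (.e (nat_lit 172106) (nat_lit 10) (.e (nat_lit 434238) (nat_lit 25) (.e (nat_lit 548897) (nat_lit 14) .nil))))) .nil)) 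
(.lf (nat_lit 81768) (.g (nat_lit 2241) (.e (nat_lit 1853) (nat_lit 124) (.e (nat_lit 557101) (nat_lit 13) (.e (nat_lit 172124) (nat_lit 14) (.e (nat_lit 491540) (nat_lit 3) (.e (nat_lit 98370) (nat_lit 28) (.e (nat_lit 450304) (nat_lit 0) .nil)))))) (.g (nat_lit 5) .nil .nil)))) (.nd (nat_lit 5) 
(.lf (nat_lit 81752) (.g (nat_lit 2593) (.e (nat_lit 1853) (nat_lit 124) (.e (nat_lit 557100) (nat_lit 13) (.e (nat_lit 172124) (nat_lit 14) (.e (nat_lit 491540) (nat_lit 3) (.e (nat_lit 98370) (nat_lit 28) (.e (nat_lit 450304) (nat_lit 0) .nil)))))) (.g (nat_lit 4) .nil .nil))) 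
(.lf (nat_lit 81784) (.g (nat_lit 2199) (.e (nat_lit 1853) (nat_lit 124) (.e (nat_lit 557103) (nat_lit 14) (.e (nat_lit 188160) (nat_lit 35) (.e (nat_lit 57464) (nat_lit 23) (.e (nat_lit 516163) (nat_lit 11) (.e (nat_lit 442373) (nat_lit 0) .nil)))))) (.g (nat_lit 5) .nil .nil)))))) (.nd (nat_lit 3) (.nd (nat_lit 4) (.nd (nat_lit 5) 
(.lf (nat_lit 81732) (.g (nat_lit 5616) (.e (nat_lit 1853) (nat_lit 124) (.e (nat_lit 557100) (nat_lit 13) (.e (nat_lit 172106) (nat_lit 10) (.e (nat_lit 434231) (nat_lit 23) (.e (nat_lit 532563) (nat_lit 15) (.e (nat_lit 385106) (nat_lit 50) (.e (nat_lit 786450) (nat_lit 15) .nil))))))) (.g (nat_lit 0) .nil .nil))) 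
(.lf (nat_lit 81764) (.g (nat_lit 1272) (.e (nat_lit 1853) (nat_lit 124) (.e (nat_lit 557101) (nat_lit 13) (.e (nat_lit 172115) (nat_lit 10) (.e (nat_lit 434238) (nat_lit 25) .nil)))) .nil))) (.nd (nat_lit 5) 
(.lf (nat_lit 81748) (.g (nat_lit 3410) (.e (nat_lit 1853) (nat_lit 124) (.e (nat_lit 557100) (nat_lit 13) (.e (nat_lit 172113) (nat_lit 10) (.e (nat_lit 434245) (nat_lit 28) (.e (nat_lit 573458) (nat_lit 9) (.e (nat_lit 7936) (nat_lit 37) (.e (nat_lit 466945) (nat_lit 0) .nil))))))) (.g (nat_lit 4) .nil .nil))) 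
(.lf (nat_lit 81780) (.g (nat_lit 2537) (.e (nat_lit 1853) (nat_lit 124) (.e (nat_lit 557103) (nat_lit 14) (.e (nat_lit 180278) (nat_lit 32) (.e (nat_lit 1253) (nat_lit 92) (.e (nat_lit 98370) (nat_lit 28) (.e (nat_lit 450304) (nat_lit 0) .nil)))))) (.g (nat_lit 5) .nil .nil))))) (.nd (nat_lit 4) (.nd (nat_lit 5) 
(.lf (nat_lit 81740) (.g (nat_lit 1672) (.e (nat_lit 1853) (nat_lit 124) (.e (nat_lit 557100) (nat_lit 13) (.e (nat_lit 172106) (nat_lit 10) (.e (nat_lit 434244) (nat_lit 28) .nil)))) .nil)) 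
(.lf (nat_lit 81772) (.g (nat_lit 2088) (.e (nat_lit 1853) (nat_lit 124) (.e (nat_lit 557103) (nat_lit 14) (.e (nat_lit 180276) (nat_lit 32) (.e (nat_lit 1074) (nat_lit 81) (.e (nat_lit 1796) (nat_lit 119) (.e (nat_lit 516175) (nat_lit 14) (.e (nat_lit 466945) (nat_lit 0) .nil))))))) (.g (nat_lit 5) .nil .nil)))) (.nd (nat_lit 5) 
(.lf (nat_lit 81756) (.g (nat_lit 3115) (.e (nat_lit 1853) (nat_lit 124) (.e (nat_lit 557100) (nat_lit 13) (.e (nat_lit 172126) (nat_lit 14) (.e (nat_lit 491540) (nat_lit 3) (.e (nat_lit 98369) (nat_lit 28) (.e (nat_lit 442373) (nat_lit 0) .nil)))))) (.g (nat_lit 4) .nil .nil))) 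
(.lf (nat_lit 81788) (.g (nat_lit 2206) (.e (nat_lit 1853) (nat_lit 124) (.e (nat_lit 557103) (nat_lit 14) (.e (nat_lit 188160) (nat_lit 38) (.e (nat_lit 122936) (nat_lit 23) (.e (nat_lit 516176) (nat_lit 14) (.e (nat_lit 466945) (nat_lit 0) .nil)))))) (.g (nat_lit 5) .nil .nil))))))) (.nd (nat_lit 2) (.nd (nat_lit 3) (.nd (nat_lit 4) (.nd (nat_lit 5) 
(.lf (nat_lit 81730) (.g (nat_lit 3443) (.e (nat_lit 1853) (nat_lit 124) (.e (nat_lit 557100) (nat_lit 13) (.e (nat_lit 172106) (nat_lit 10) (.e (nat_lit 434231) (nat_lit 23) (.e (nat_lit 532562) (nat_lit 15) (.e (nat_lit 385106) (nat_lit 50) (.e (nat_lit 786450) (nat_lit 15) .nil))))))) (.g (nat_lit 5) .nil .nil))) 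
(.lf (nat_lit 81762) (.g (nat_lit 2848) (.e (nat_lit 1853) (nat_lit 124) (.e (nat_lit 557101) (nat_lit 13) (.e (nat_lit 172115) (nat_lit 10) (.e (nat_lit 434227) (nat_lit 20) (.e (nat_lit 507928) (nat_lit 10) (.e (nat_lit 5772) (nat_lit 316) (.e (nat_lit 172132) (nat_lit 15) .nil))))))) (.g (nat_lit 0) .nil .nil)))) (.nd (nat_lit 5) 
(.lf (nat_lit 81746) (.g (nat_lit 2969) (.e (nat_lit 1853) (nat_lit 124) (.e (nat_lit 557100) (nat_lit 13) (.e (nat_lit 172113) (nat_lit 10) (.e (nat_lit 434238) (nat_lit 25) (.e (nat_lit 548898) (nat_lit 14) (.e (nat_lit 3004) (nat_lit 186) (.e (nat_lit 450304) (nat_lit 0) .nil))))))) (.g (nat_lit 4) .nil .nil))) 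
(.lf (nat_lit 81778) (.g (nat_lit 1871) (.e (nat_lit 1853) (nat_lit 124) (.e (nat_lit 557103) (nat_lit 14) (.e (nat_lit 180278) (nat_lit 32) (.e (nat_lit 1252) (nat_lit 92) (.e (nat_lit 98381) (nat_lit 31) (.e (nat_lit 474880) (nat_lit 0) .nil)))))) (.g (nat_lit 4) .nil .nil))))) (.nd (nat_lit 4) (.nd (nat_lit 5) 
(.lf (nat_lit 81738) (.g (nat_lit 2937) (.e (nat_lit 1853) (nat_lit 124) (.e (nat_lit 557100) (nat_lit 13) (.e (nat_lit 172106) (nat_lit 10) (.e (nat_lit 434238) (nat_lit 25) (.e (nat_lit 548898) (nat_lit 14) (.e (nat_lit 2988) (nat_lit 186) (.e (nat_lit 442373) (nat_lit 0) .nil))))))) (.g (nat_lit 4) .nil .nil))) 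
(.lf (nat_lit 81770) (.g (nat_lit 918) (.e (nat_lit 1853) (nat_lit 124) (.e (nat_lit 557101) (nat_lit 13) (.e (nat_lit 172126) (nat_lit 14) (.e (nat_lit 491540) (nat_lit 3) .nil)))) .nil))) (.nd (nat_lit 5) 
(.lf (nat_lit 81754) (.g (nat_lit 2548) (.e (nat_lit 1853) (nat_lit 124) (.e (nat_lit 557100) (nat_lit 13) (.e (nat_lit 172126) (nat_lit 14) (.e (nat_lit 491539) (nat_lit 3) (.e (nat_lit 98370) (nat_lit 28) .nil))))) .nil)) 
(.lf (nat_lit 81786) (.g (nat_lit 1454) (.e (nat_lit 1853) (nat_lit 124) (.e (nat_lit 557103) (nat_lit 14) (.e (nat_lit 188160) (nat_lit 35) (.e (nat_lit 57464) (nat_lit 23) (.e (nat_lit 516164) (nat_lit 11) (.e (nat_lit 450304) (nat_lit 0) .nil)))))) (.g (nat_lit 4) .nil .nil)))))) (.nd (nat_lit 3) (.nd (nat_lit 4) (.nd (nat_lit 5) 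
(.lf (nat_lit 81734) (.g (nat_lit 1807) (.e (nat_lit 1853) (nat_lit 124) (.e (nat_lit 557100) (nat_lit 13) (.e (nat_lit 172106) (nat_lit 10) (.e (nat_lit 434238) (nat_lit 25) .nil)))) .nil)) 
(.lf (nat_lit 81766) (.g (nat_lit 1499) (.e (nat_lit 1853) (nat_lit 124) (.e (nat_lit 557101) (nat_lit 13) (.e (nat_lit 172124) (nat_lit 14) (.e (nat_lit 491540) (nat_lit 3) (.e (nat_lit 98369) (nat_lit 28) (.e (nat_lit 450304) (nat_lit 0) .nil)))))) (.g (nat_lit 4) .nil .nil)))) (.nd (nat_lit 5) 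
(.lf (nat_lit 81750) (.g (nat_lit 2577) (.e (nat_lit 1853) (nat_lit 124) (.e (nat_lit 557100) (nat_lit 13) (.e (nat_lit 172120) (nat_lit 12) (.e (nat_lit 475185) (nat_lit 29) (.e (nat_lit 557107) (nat_lit 15) .nil))))) .nil)) 
(.lf (nat_lit 81782) (.g (nat_lit 2539) (.e (nat_lit 1853) (nat_lit 124) (.e (nat_lit 557103) (nat_lit 14) (.e (nat_lit 180278) (nat_lit 32) (.e (nat_lit 1253) (nat_lit 92) (.e (nat_lit 98381) (nat_lit 31) (.e (nat_lit 466945) (nat_lit 0) .nil)))))) (.g (nat_lit 5) .nil .nil))))) (.nd (nat_lit 4) (.nd (nat_lit 5) 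
(.lf (nat_lit 81742) (.g (nat_lit 3729) (.e (nat_lit 1853) (nat_lit 124) (.e (nat_lit 557100) (nat_lit 13) (.e (nat_lit 172106) (nat_lit 10) (.e (nat_lit 434244) (nat_lit 28) (.e (nat_lit 573458) (nat_lit 9) (.e (nat_lit 7936) (nat_lit 37) (.e (nat_lit 466945) (nat_lit 0) .nil))))))) (.g (nat_lit 5) .nil .nil))) 
(.lf (nat_lit 81774) (.g (nat_lit 2646) (.e (nat_lit 1853) (nat_lit 124) (.e (nat_lit 557103) (nat_lit 14) (.e (nat_lit 180278) (nat_lit 32) (.e (nat_lit 1234) (nat_lit 91) (.e (nat_lit 90178) (nat_lit 15) (.e (nat_lit 196352) (nat_lit 0) .nil)))))) (.g (nat_lit 5) .nil .nil)))) (.nd (nat_lit 5) 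
(.lf (nat_lit 81758) (.g (nat_lit 3332) (.e (nat_lit 1853) (nat_lit 124) (.e (nat_lit 557100) (nat_lit 13) (.e (nat_lit 172126) (nat_lit 14) (.e (nat_lit 491540) (nat_lit 3) (.e (nat_lit 98370) (nat_lit 28) (.e (nat_lit 442373) (nat_lit 0) .nil)))))) (.g (nat_lit 4) .nil .nil))) 
(.lf (nat_lit 81790) (.g (nat_lit 2622) (.e (nat_lit 1853) (nat_lit 124) (.e (nat_lit 557104) (nat_lit 14) (.e (nat_lit 180277) (nat_lit 32) (.e (nat_lit 1234) (nat_lit 91) (.e (nat_lit 90176) (nat_lit 15) (.e (nat_lit 196352) (nat_lit 0) .nil)))))) (.g (nat_lit 5) .nil .nil)))))))) (.nd (nat_lit 1) (.nd (nat_lit 2) (.nd (nat_lit 3) (.nd (nat_lit 4) (.nd (nat_lit 5) 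
(.lf (nat_lit 81729) (.g (nat_lit 2732) (.e (nat_lit 1853) (nat_lit 124) (.e (nat_lit 557100) (nat_lit 13) (.e (nat_lit 172106) (nat_lit 10) (.e (nat_lit 434231) (nat_lit 23) (.e (nat_lit 532529) (nat_lit 9) (.e (nat_lit 336297) (nat_lit 15) (.e (nat_lit 3747) (nat_lit 228) (.e (nat_lit 786450) (nat_lit 15) .nil)))))))) (.g (nat_lit 4) .nil .nil))) 
(.lf (nat_lit 81761) (.g (nat_lit 1298) (.e (nat_lit 1853) (nat_lit 124) (.e (nat_lit 557101) (nat_lit 13) (.e (nat_lit 172097) (nat_lit 9) (.e (nat_lit 426140) (nat_lit 3) .nil)))) .nil))) (.nd (nat_lit 5) 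
(.lf (nat_lit 81745) (.g (nat_lit 3066) (.e (nat_lit 1853) (nat_lit 124) (.e (nat_lit 557100) (nat_lit 13) (.e (nat_lit 172113) (nat_lit 10) (.e (nat_lit 434238) (nat_lit 25) (.e (nat_lit 548898) (nat_lit 14) (.e (nat_lit 2988) (nat_lit 186) (.e (nat_lit 450304) (nat_lit 0) .nil))))))) (.g (nat_lit 4) .nil .nil))) 
(.lf (nat_lit 81777) (.g (nat_lit 2418) (.e (nat_lit 1853) (nat_lit 124) (.e (nat_lit 557103) (nat_lit 14) (.e (nat_lit 180278) (nat_lit 32) (.e (nat_lit 1252) (nat_lit 92) (.e (nat_lit 98370) (nat_lit 28) (.e (nat_lit 450304) (nat_lit 0) .nil)))))) (.g (nat_lit 5) .nil .nil))))) (.nd (nat_lit 4) (.nd (nat_lit 5) 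
(.lf (nat_lit 81737) (.g (nat_lit 2273) (.e (nat_lit 1853) (nat_lit 124) (.e (nat_lit 557100) (nat_lit 13) (.e (nat_lit 172106) (nat_lit 10) (.e (nat_lit 434238) (nat_lit 25) (.e (nat_lit 548898) (nat_lit 14) .nil))))) .nil)) 
(.lf (nat_lit 81769) (.g (nat_lit 1597) (.e (nat_lit 1853) (nat_lit 124) (.e (nat_lit 557101) (nat_lit 13) (.e (nat_lit 172124) (nat_lit 14) (.e (nat_lit 491540) (nat_lit 3) (.e (nat_lit 98381) (nat_lit 31) (.e (nat_lit 474880) (nat_lit 0) .nil)))))) (.g (nat_lit 4) .nil .nil)))) (.nd (nat_lit 5) 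
(.lf (nat_lit 81753) (.g (nat_lit 2027) (.e (nat_lit 1853) (nat_lit 124) (.e (nat_lit 557100) (nat_lit 13) (.e (nat_lit 172126) (nat_lit 14) (.e (nat_lit 491539) (nat_lit 3) .nil)))) .nil)) 
(.lf (nat_lit 81785) (.g (nat_lit 1890) (.e (nat_lit 1853) (nat_lit 124) (.e (nat_lit 557103) (nat_lit 14) (.e (nat_lit 188160) (nat_lit 35) (.e (nat_lit 57464) (nat_lit 23) (.e (nat_lit 516163) (nat_lit 11) (.e (nat_lit 450304) (nat_lit 0) .nil)))))) (.g (nat_lit 5) .nil .nil)))))) (.nd (nat_lit 3) (.nd (nat_lit 4) (.nd (nat_lit 5) 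
(.lf (nat_lit 81733) (.g (nat_lit 3602) (.e (nat_lit 1853) (nat_lit 124) (.e (nat_lit 557100) (nat_lit 13) (.e (nat_lit 172106) (nat_lit 10) (.e (nat_lit 434231) (nat_lit 23) (.e (nat_lit 532566) (nat_lit 15) .nil))))) .nil)) 
(.lf (nat_lit 81765) (.g (nat_lit 1897) (.e (nat_lit 1853) (nat_lit 124) (.e (nat_lit 557101) (nat_lit 13) (.e (nat_lit 172124) (nat_lit 14) (.e (nat_lit 491540) (nat_lit 3) (.e (nat_lit 98369) (nat_lit 28) (.e (nat_lit 442373) (nat_lit 0) .nil)))))) (.g (nat_lit 4) .nil .nil)))) (.nd (nat_lit 5) 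
(.lf (nat_lit 81749) (.g (nat_lit 4434) (.e (nat_lit 1853) (nat_lit 124) (.e (nat_lit 557100) (nat_lit 13) (.e (nat_lit 172113) (nat_lit 10) (.e (nat_lit 434245) (nat_lit 28) (.e (nat_lit 573471) (nat_lit 11) (.e (nat_lit 16433) (nat_lit 9) (.e (nat_lit 426395) (nat_lit 15) .nil))))))) (.g (nat_lit 5) .nil .nil))) 
(.lf (nat_lit 81781) (.g (nat_lit 2505) (.e (nat_lit 1853) (nat_lit 124) (.e (nat_lit 557103) (nat_lit 14) (.e (nat_lit 180278) (nat_lit 32) (.e (nat_lit 1253) (nat_lit 92) (.e (nat_lit 98380) (nat_lit 31) (.e (nat_lit 466945) (nat_lit 0) .nil)))))) (.g (nat_lit 5) .nil .nil))))) (.nd (nat_lit 4) (.nd (nat_lit 5) 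
(.lf (nat_lit 81741) (.g (nat_lit 2653) (.e (nat_lit 1853) (nat_lit 124) (.e (nat_lit 557100) (nat_lit 13) (.e (nat_lit 172106) (nat_lit 10) (.e (nat_lit 434244) (nat_lit 28) (.e (nat_lit 573451) (nat_lit 9) .nil))))) .nil)) 
(.lf (nat_lit 81773) (.g (nat_lit 2805) (.e (nat_lit 1853) (nat_lit 124) (.e (nat_lit 557103) (nat_lit 14) (.e (nat_lit 180278) (nat_lit 32) (.e (nat_lit 1234) (nat_lit 91) (.e (nat_lit 90176) (nat_lit 15) (.e (nat_lit 196352) (nat_lit 0) .nil)))))) (.g (nat_lit 5) .nil .nil)))) (.nd (nat_lit 5) 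
(.lf (nat_lit 81757) (.g (nat_lit 2463) (.e (nat_lit 1853) (nat_lit 124) (.e (nat_lit 557100) (nat_lit 13) (.e (nat_lit 172126) (nat_lit 14) (.e (nat_lit 491540) (nat_lit 3) (.e (nat_lit 98369) (nat_lit 28) (.e (nat_lit 450304) (nat_lit 0) .nil)))))) (.g (nat_lit 4) .nil .nil))) 
(.lf (nat_lit 81789) (.g (nat_lit 1730) (.e (nat_lit 1853) (nat_lit 124) (.e (nat_lit 557104) (nat_lit 14) (.e (nat_lit 180276) (nat_lit 32) (.e (nat_lit 1077) (nat_lit 81) (.e (nat_lit 1796) (nat_lit 119) (.e (nat_lit 516175) (nat_lit 14) (.e (nat_lit 474880) (nat_lit 0) .nil))))))) (.g (nat_lit 4) .nil .nil))))))) (.nd (nat_lit 2) (.nd (nat_lit 3) (.nd (nat_lit 4) (.nd (nat_lit 5) 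
(.lf (nat_lit 81731) (.g (nat_lit 5441) (.e (nat_lit 1853) (nat_lit 124) (.e (nat_lit 557100) (nat_lit 13) (.e (nat_lit 172106) (nat_lit 10) (.e (nat_lit 434231) (nat_lit 23) (.e (nat_lit 532563) (nat_lit 15) (.e (nat_lit 385105) (nat_lit 50) (.e (nat_lit 786450) (nat_lit 15) .nil))))))) (.g (nat_lit 7) .nil .nil))) 
(.lf (nat_lit 81763) (.g (nat_lit 1992) (.e (nat_lit 1853) (nat_lit 124) (.e (nat_lit 557101) (nat_lit 13) (.e (nat_lit 172115) (nat_lit 10) (.e (nat_lit 434231) (nat_lit 23) (.e (nat_lit 532490) (nat_lit 0) (.e (nat_lit 7936) (nat_lit 361) (.e (nat_lit 172132) (nat_lit 15) .nil))))))) (.g (nat_lit 4) .nil .nil)))) (.nd (nat_lit 5) 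
(.lf (nat_lit 81747) (.g (nat_lit 1210) (.e (nat_lit 1853) (nat_lit 124) (.e (nat_lit 557100) (nat_lit 13) (.e (nat_lit 172113) (nat_lit 10) (.e (nat_lit 434245) (nat_lit 28) .nil)))) .nil)) 
(.lf (nat_lit 81779) (.g (nat_lit 1828) (.e (nat_lit 1853) (nat_lit 124) (.e (nat_lit 557103) (nat_lit 14) (.e (nat_lit 180278) (nat_lit 32) (.e (nat_lit 1253) (nat_lit 92) (.e (nat_lit 98369) (nat_lit 28) (.e (nat_lit 450304) (nat_lit 0) .nil)))))) (.g (nat_lit 4) .nil .nil))))) (.nd (nat_lit 4) (.nd (nat_lit 5) 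
(.lf (nat_lit 81739) (.g (nat_lit 3323) (.e (nat_lit 1853) (nat_lit 124) (.e (nat_lit 557100) (nat_lit 13) (.e (nat_lit 172106) (nat_lit 10) (.e (nat_lit 434238) (nat_lit 25) (.e (nat_lit 548898) (nat_lit 14) (.e (nat_lit 3004) (nat_lit 186) (.e (nat_lit 442373) (nat_lit 0) .nil))))))) (.g (nat_lit 5) .nil .nil))) 
(.lf (nat_lit 81771) (.g (nat_lit 1515) (.e (nat_lit 1853) (nat_lit 124) (.e (nat_lit 557101) (nat_lit 13) (.e (nat_lit 172126) (nat_lit 14) (.e (nat_lit 491540) (nat_lit 3) (.e (nat_lit 98370) (nat_lit 28) (.e (nat_lit 450304) (nat_lit 0) .nil)))))) (.g (nat_lit 4) .nil .nil)))) (.nd (nat_lit 5) 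
(.lf (nat_lit 81755) (.g (nat_lit 1544) (.e (nat_lit 1853) (nat_lit 124) (.e (nat_lit 557100) (nat_lit 13) (.e (nat_lit 172126) (nat_lit 14) (.e (nat_lit 491540) (nat_lit 3) .nil)))) .nil)) 
(.lf (nat_lit 81787) (.g (nat_lit 1315) (.e (nat_lit 1853) (nat_lit 124) (.e (nat_lit 557103) (nat_lit 14) (.e (nat_lit 188160) (nat_lit 38) (.e (nat_lit 122936) (nat_lit 23) (.e (nat_lit 516174) (nat_lit 14) (.e (nat_lit 474880) (nat_lit 0) .nil)))))) (.g (nat_lit 4) .nil .nil)))))) (.nd (nat_lit 3) (.nd (nat_lit 4) (.nd (nat_lit 5) 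
(.lf (nat_lit 81735) (.g (nat_lit 2364) (.e (nat_lit 1853) (nat_lit 124) (.e (nat_lit 557100) (nat_lit 13) (.e (nat_lit 172106) (nat_lit 10) (.e (nat_lit 434238) (nat_lit 25) (.e (nat_lit 548896) (nat_lit 14) .nil))))) .nil)) 
(.lf (nat_lit 81767) (.g (nat_lit 2055) (.e (nat_lit 1853) (nat_lit 124) (.e (nat_lit 557101) (nat_lit 13) (.e (nat_lit 172124) (nat_lit 14) (.e (nat_lit 491540) (nat_lit 3) (.e (nat_lit 98370) (nat_lit 28) (.e (nat_lit 442373) (nat_lit 0) .nil)))))) (.g (nat_lit 4) .nil .nil)))) (.nd (nat_lit 5) 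
(.lf (nat_lit 81751) (.g (nat_lit 2464) (.e (nat_lit 1853) (nat_lit 124) (.e (nat_lit 557100) (nat_lit 13) (.e (nat_lit 172120) (nat_lit 12) (.e (nat_lit 475185) (nat_lit 29) (.e (nat_lit 557109) (nat_lit 15) .nil))))) .nil)) 
(.lf (nat_lit 81783) (.g (nat_lit 1985) (.e (nat_lit 1853) (nat_lit 124) (.e (nat_lit 557103) (nat_lit 14) (.e (nat_lit 180278) (nat_lit 32) (.e (nat_lit 1253) (nat_lit 92) (.e (nat_lit 98381) (nat_lit 31) (.e (nat_lit 474880) (nat_lit 0) .nil)))))) (.g (nat_lit 4) .nil .nil))))) (.nd (nat_lit 4) (.nd (nat_lit 5) 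
(.lf (nat_lit 81743) (.g (nat_lit 3217) (.e (nat_lit 1853) (nat_lit 124) (.e (nat_lit 557100) (nat_lit 13) (.e (nat_lit 172106) (nat_lit 10) (.e (nat_lit 434244) (nat_lit 28) (.e (nat_lit 573471) (nat_lit 11) (.e (nat_lit 16433) (nat_lit 9) (.e (nat_lit 426392) (nat_lit 15) .nil))))))) (.g (nat_lit 4) .nil .nil))) 
(.lf (nat_lit 81775) (.g (nat_lit 2650) (.e (nat_lit 1853) (nat_lit 124) (.e (nat_lit 557103) (nat_lit 14) (.e (nat_lit 180278) (nat_lit 32) (.e (nat_lit 1235) (nat_lit 91) (.e (nat_lit 90176) (nat_lit 15) (.e (nat_lit 196352) (nat_lit 0) .nil)))))) (.g (nat_lit 5) .nil .nil)))) (.nd (nat_lit 5) 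
(.lf (nat_lit 81759) (.g (nat_lit 3285) (.e (nat_lit 1853) (nat_lit 124) (.e (nat_lit 557100) (nat_lit 13) (.e (nat_lit 172126) (nat_lit 14) (.e (nat_lit 491540) (nat_lit 3) (.e (nat_lit 98370) (nat_lit 28) (.e (nat_lit 450304) (nat_lit 0) .nil)))))) (.g (nat_lit 5) .nil .nil))) 
(.lf (nat_lit 81791) (.g (nat_lit 2319) (.e (nat_lit 1853) (nat_lit 124) (.e (nat_lit 557104) (nat_lit 14) (.e (nat_lit 180277) (nat_lit 32) (.e (nat_lit 1234) (nat_lit 91) (.e (nat_lit 90178) (nat_lit 15) (.e (nat_lit 196352) (nat_lit 0) .nil)))))) (.g (nat_lit 4) .nil .nil)))))))))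

noncomputable def tv1108 : DT := (.nd (nat_lit 0) (.nd (nat_lit 1) (.nd (nat_lit 2) (.nd (nat_lit 3) (.nd (nat_lit 4) (.nd (nat_lit 5) 
(.lf (nat_lit 81792) (.g (nat_lit 2486) (.e (nat_lit 1853) (nat_lit 124) (.e (nat_lit 557104) (nat_lit 14) (.e (nat_lit 180277) (nat_lit 32) (.e (nat_lit 1235) (nat_lit 91) (.e (nat_lit 90176) (nat_lit 15) (.e (nat_lit 196352) (nat_lit 0) .nil)))))) (.g (nat_lit 5) .nil .nil))) 
(.lf (nat_lit 81824) (.g (nat_lit 748) (.e (nat_lit 1853) (nat_lit 124) (.e (nat_lit 557105) (nat_lit 14) (.e (nat_lit 180276) (nat_lit 32) .nil))) .nil))) (.nd (nat_lit 5) 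
(.lf (nat_lit 81808) (.g (nat_lit 2267) (.e (nat_lit 1853) (nat_lit 124) (.e (nat_lit 557104) (nat_lit 14) (.e (nat_lit 180278) (nat_lit 32) (.e (nat_lit 1253) (nat_lit 92) (.e (nat_lit 98369) (nat_lit 28) (.e (nat_lit 450304) (nat_lit 0) .nil)))))) (.g (nat_lit 4) .nil .nil))) 
(.lf (nat_lit 81840) (.g (nat_lit 1936) (.e (nat_lit 1853) (nat_lit 124) (.e (nat_lit 557107) (nat_lit 15) (.e (nat_lit 196352) (nat_lit 0) (.e (nat_lit 1853) (nat_lit 124) (.e (nat_lit 557109) (nat_lit 15) (.e (nat_lit 196352) (nat_lit 0) .nil)))))) (.g (nat_lit 5) .nil .nil))))) (.nd (nat_lit 4) (.nd (nat_lit 5) 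
(.lf (nat_lit 81800) (.g (nat_lit 2069) (.e (nat_lit 1853) (nat_lit 124) (.e (nat_lit 557104) (nat_lit 14) (.e (nat_lit 180277) (nat_lit 32) (.e (nat_lit 1253) (nat_lit 92) (.e (nat_lit 98380) (nat_lit 31) (.e (nat_lit 466945) (nat_lit 0) .nil)))))) (.g (nat_lit 4) .nil .nil))) 
(.lf (nat_lit 81832) (.g (nat_lit 2013) (.e (nat_lit 1853) (nat_lit 124) (.e (nat_lit 557105) (nat_lit 14) (.e (nat_lit 180278) (nat_lit 32) (.e (nat_lit 1235) (nat_lit 91) (.e (nat_lit 90178) (nat_lit 15) (.e (nat_lit 196352) (nat_lit 0) .nil)))))) (.g (nat_lit 4) .nil .nil)))) (.nd (nat_lit 5) 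
(.lf (nat_lit 81816) (.g (nat_lit 3246) (.e (nat_lit 1853) (nat_lit 124) (.e (nat_lit 557105) (nat_lit 14) (.e (nat_lit 180252) (nat_lit 10) (.e (nat_lit 573489) (nat_lit 14) (.e (nat_lit 73755) (nat_lit 8) (.e (nat_lit 557090) (nat_lit 12) (.e (nat_lit 163843) (nat_lit 0) (.e (nat_lit 5207) (nat_lit 295) (.e (nat_lit 122886) (nat_lit 0) .nil))))))))) (.g (nat_lit 4) .nil .nil))) 
(.lf (nat_lit 81848) (.g (nat_lit 1319) (.e (nat_lit 1853) (nat_lit 124) (.e (nat_lit 557107) (nat_lit 15) (.e (nat_lit 188439) (nat_lit 20) (.e (nat_lit 3271) (nat_lit 199) (.e (nat_lit 548898) (nat_lit 14) (.e (nat_lit 2998) (nat_lit 186) (.e (nat_lit 450304) (nat_lit 0) .nil))))))) (.g (nat_lit 4) .nil .nil)))))) (.nd (nat_lit 3) (.nd (nat_lit 4) (.nd (nat_lit 5) 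
(.lf (nat_lit 81796) (.g (nat_lit 1947) (.e (nat_lit 1853) (nat_lit 124) (.e (nat_lit 557104) (nat_lit 14) (.e (nat_lit 180277) (nat_lit 32) (.e (nat_lit 1252) (nat_lit 92) (.e (nat_lit 98380) (nat_lit 31) (.e (nat_lit 466945) (nat_lit 0) .nil)))))) (.g (nat_lit 4) .nil .nil))) 
(.lf (nat_lit 81828) (.g (nat_lit 1619) (.e (nat_lit 1853) (nat_lit 124) (.e (nat_lit 557105) (nat_lit 14) (.e (nat_lit 180277) (nat_lit 32) (.e (nat_lit 1253) (nat_lit 92) (.e (nat_lit 98370) (nat_lit 28) (.e (nat_lit 450304) (nat_lit 0) .nil)))))) (.g (nat_lit 4) .nil .nil)))) (.nd (nat_lit 5) 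
(.lf (nat_lit 81812) (.g (nat_lit 2702) (.e (nat_lit 1853) (nat_lit 124) (.e (nat_lit 557105) (nat_lit 14) (.e (nat_lit 180252) (nat_lit 10) (.e (nat_lit 573487) (nat_lit 14) .nil)))) .nil)) 
(.lf (nat_lit 81844) (.g (nat_lit 2124) (.e (nat_lit 1853) (nat_lit 124) (.e (nat_lit 557107) (nat_lit 15) (.e (nat_lit 196352) (nat_lit 0) (.e (nat_lit 1859) (nat_lit 124) (.e (nat_lit 557107) (nat_lit 15) (.e (nat_lit 196352) (nat_lit 0) .nil)))))) (.g (nat_lit 5) .nil .nil))))) (.nd (nat_lit 4) (.nd (nat_lit 5) 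
(.lf (nat_lit 81804) (.g (nat_lit 3212) (.e (nat_lit 1853) (nat_lit 124) (.e (nat_lit 557104) (nat_lit 14) (.e (nat_lit 180278) (nat_lit 32) (.e (nat_lit 1235) (nat_lit 91) (.e (nat_lit 90176) (nat_lit 15) (.e (nat_lit 196352) (nat_lit 0) .nil)))))) (.g (nat_lit 5) .nil .nil))) 
(.lf (nat_lit 81836) (.g (nat_lit 2492) (.e (nat_lit 1853) (nat_lit 124) (.e (nat_lit 557107) (nat_lit 15) (.e (nat_lit 188420) (nat_lit 0) (.e (nat_lit 1855) (nat_lit 124) (.e (nat_lit 557109) (nat_lit 15) (.e (nat_lit 196352) (nat_lit 0) .nil)))))) (.g (nat_lit 5) .nil .nil)))) (.nd (nat_lit 5) 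
(.lf (nat_lit 81820) (.g (nat_lit 4778) (.e (nat_lit 1853) (nat_lit 124) (.e (nat_lit 557105) (nat_lit 14) (.e (nat_lit 180252) (nat_lit 10) (.e (nat_lit 573489) (nat_lit 14) (.e (nat_lit 73755) (nat_lit 8) (.e (nat_lit 557090) (nat_lit 12) (.e (nat_lit 164006) (nat_lit 41) (.e (nat_lit 663580) (nat_lit 9) (.e (nat_lit 40) (nat_lit 0) .nil))))))))) (.g (nat_lit 6) .nil .nil))) 
(.lf (nat_lit 81852) (.g (nat_lit 2733) (.e (nat_lit 1853) (nat_lit 124) (.e (nat_lit 557108) (nat_lit 15) (.e (nat_lit 188418) (nat_lit 0) (.e (nat_lit 1856) (nat_lit 124) (.e (nat_lit 557107) (nat_lit 15) (.e (nat_lit 196352) (nat_lit 0) .nil)))))) (.g (nat_lit 4) .nil .nil))))))) (.nd (nat_lit 2) (.nd (nat_lit 3) (.nd (nat_lit 4) (.nd (nat_lit 5) 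
(.lf (nat_lit 81794) (.g (nat_lit 1932) (.e (nat_lit 1853) (nat_lit 124) (.e (nat_lit 557104) (nat_lit 14) (.e (nat_lit 180277) (nat_lit 32) (.e (nat_lit 1252) (nat_lit 92) (.e (nat_lit 98369) (nat_lit 28) (.e (nat_lit 442373) (nat_lit 0) .nil)))))) (.g (nat_lit 4) .nil .nil))) 
(.lf (nat_lit 81826) (.g (nat_lit 1841) (.e (nat_lit 1853) (nat_lit 124) (.e (nat_lit 557105) (nat_lit 14) (.e (nat_lit 180277) (nat_lit 32) (.e (nat_lit 1234) (nat_lit 91) (.e (nat_lit 90178) (nat_lit 15) (.e (nat_lit 196352) (nat_lit 0) .nil)))))) (.g (nat_lit 4) .nil .nil)))) (.nd (nat_lit 5) 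
(.lf (nat_lit 81810) (.g (nat_lit 2409) (.e (nat_lit 1853) (nat_lit 124) (.e (nat_lit 557104) (nat_lit 14) (.e (nat_lit 180278) (nat_lit 32) (.e (nat_lit 1253) (nat_lit 92) (.e (nat_lit 98381) (nat_lit 31) (.e (nat_lit 474880) (nat_lit 0) .nil)))))) (.g (nat_lit 4) .nil .nil))) 
(.lf (nat_lit 81842) (.g (nat_lit 2043) (.e (nat_lit 1853) (nat_lit 124) (.e (nat_lit 557107) (nat_lit 15) (.e (nat_lit 196352) (nat_lit 0) (.e (nat_lit 1855) (nat_lit 124) (.e (nat_lit 557109) (nat_lit 15) (.e (nat_lit 196352) (nat_lit 0) .nil)))))) (.g (nat_lit 5) .nil .nil))))) (.nd (nat_lit 4) (.nd (nat_lit 5) 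
(.lf (nat_lit 81802) (.g (nat_lit 3415) (.e (nat_lit 1853) (nat_lit 124) (.e (nat_lit 557104) (nat_lit 14) (.e (nat_lit 180278) (nat_lit 32) (.e (nat_lit 1234) (nat_lit 91) (.e (nat_lit 90176) (nat_lit 15) (.e (nat_lit 196352) (nat_lit 0) .nil)))))) (.g (nat_lit 5) .nil .nil))) 
(.lf (nat_lit 81834) (.g (nat_lit 2634) (.e (nat_lit 1853) (nat_lit 124) (.e (nat_lit 557107) (nat_lit 15) (.e (nat_lit 188418) (nat_lit 0) (.e (nat_lit 1856) (nat_lit 124) (.e (nat_lit 557109) (nat_lit 15) (.e (nat_lit 196352) (nat_lit 0) .nil)))))) (.g (nat_lit 5) .nil .nil)))) (.nd (nat_lit 5) 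
(.lf (nat_lit 81818) (.g (nat_lit 3282) (.e (nat_lit 1853) (nat_lit 124) (.e (nat_lit 557105) (nat_lit 14) (.e (nat_lit 180252) (nat_lit 10) (.e (nat_lit 573489) (nat_lit 14) (.e (nat_lit 73755) (nat_lit 8) (.e (nat_lit 557090) (nat_lit 12) (.e (nat_lit 164005) (nat_lit 41) (.e (nat_lit 663574) (nat_lit 9) (.e (nat_lit 54) (nat_lit 0) .nil))))))))) (.g (nat_lit 4) .nil .nil))) 
(.lf (nat_lit 81850) (.g (nat_lit 1041) (.e (nat_lit 1853) (nat_lit 124) (.e (nat_lit 557107) (nat_lit 15) (.e (nat_lit 188450) (nat_lit 23) (.e (nat_lit 204816) (nat_lit 17) .nil)))) .nil))))) (.nd (nat_lit 3) (.nd (nat_lit 4) (.nd (nat_lit 5) 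
(.lf (nat_lit 81798) (.g (nat_lit 2360) (.e (nat_lit 1853) (nat_lit 124) (.e (nat_lit 557104) (nat_lit 14) (.e (nat_lit 180277) (nat_lit 32) (.e (nat_lit 1253) (nat_lit 92) (.e (nat_lit 98370) (nat_lit 28) (.e (nat_lit 442373) (nat_lit 0) .nil)))))) (.g (nat_lit 5) .nil .nil))) 
(.lf (nat_lit 81830) (.g (nat_lit 2052) (.e (nat_lit 1853) (nat_lit 124) (.e (nat_lit 557105) (nat_lit 14) (.e (nat_lit 180278) (nat_lit 32) (.e (nat_lit 1234) (nat_lit 91) (.e (nat_lit 90176) (nat_lit 15) (.e (nat_lit 196352) (nat_lit 0) .nil)))))) (.g (nat_lit 4) .nil .nil)))) (.nd (nat_lit 5) 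
(.lf (nat_lit 81814) (.g (nat_lit 2235) (.e (nat_lit 1853) (nat_lit 124) (.e (nat_lit 557105) (nat_lit 14) (.e (nat_lit 180252) (nat_lit 10) (.e (nat_lit 573489) (nat_lit 14) .nil)))) .nil)) 
(.lf (nat_lit 81846) (.g (nat_lit 1236) (.e (nat_lit 1853) (nat_lit 124) (.e (nat_lit 557107) (nat_lit 15) (.e (nat_lit 196352) (nat_lit 0) (.e (nat_lit 1860) (nat_lit 124) (.e (nat_lit 557109) (nat_lit 15) (.e (nat_lit 196352) (nat_lit 0) .nil)))))) (.g (nat_lit 4) .nil .nil))))) (.nd (nat_lit 4) (.nd (nat_lit 5) 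
(.lf (nat_lit 81806) (.g (nat_lit 2850) (.e (nat_lit 1853) (nat_lit 124) (.e (nat_lit 557104) (nat_lit 14) (.e (nat_lit 180278) (nat_lit 32) (.e (nat_lit 1252) (nat_lit 92) (.e (nat_lit 98370) (nat_lit 28) (.e (nat_lit 450304) (nat_lit 0) .nil)))))) (.g (nat_lit 5) .nil .nil))) 
(.lf (nat_lit 81838) (.g (nat_lit 2324) (.e (nat_lit 1853) (nat_lit 124) (.e (nat_lit 557107) (nat_lit 15) (.e (nat_lit 188420) (nat_lit 0) (.e (nat_lit 1856) (nat_lit 124) (.e (nat_lit 557109) (nat_lit 15) (.e (nat_lit 196352) (nat_lit 0) .nil)))))) (.g (nat_lit 5) .nil .nil)))) (.nd (nat_lit 5) 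
(.lf (nat_lit 81822) (.g (nat_lit 3824) (.e (nat_lit 1853) (nat_lit 124) (.e (nat_lit 557105) (nat_lit 14) (.e (nat_lit 180252) (nat_lit 10) (.e (nat_lit 573489) (nat_lit 14) (.e (nat_lit 73755) (nat_lit 8) (.e (nat_lit 557090) (nat_lit 12) (.e (nat_lit 164007) (nat_lit 41) (.e (nat_lit 663580) (nat_lit 9) (.e (nat_lit 39) (nat_lit 0) .nil))))))))) (.g (nat_lit 5) .nil .nil))) 
(.lf (nat_lit 81854) (.g (nat_lit 2425) (.e (nat_lit 1853) (nat_lit 124) (.e (nat_lit 557108) (nat_lit 15) (.e (nat_lit 188419) (nat_lit 0) (.e (nat_lit 1855) (nat_lit 124) (.e (nat_lit 557107) (nat_lit 15) (.e (nat_lit 196352) (nat_lit 0) .nil)))))) (.g (nat_lit 4) .nil .nil)))))))) (.nd (nat_lit 1) (.nd (nat_lit 2) (.nd (nat_lit 3) (.nd (nat_lit 4) (.nd (nat_lit 5) 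
(.lf (nat_lit 81793) (.g (nat_lit 2522) (.e (nat_lit 1853) (nat_lit 124) (.e (nat_lit 557104) (nat_lit 14) (.e (nat_lit 180277) (nat_lit 32) (.e (nat_lit 1235) (nat_lit 91) (.e (nat_lit 90178) (nat_lit 15) (.e (nat_lit 196352) (nat_lit 0) .nil)))))) (.g (nat_lit 5) .nil .nil))) 
(.lf (nat_lit 81825) (.g (nat_lit 949) (.e (nat_lit 1853) (nat_lit 124) (.e (nat_lit 557105) (nat_lit 14) (.e (nat_lit 180276) (nat_lit 32) (.e (nat_lit 1077) (nat_lit 81) .nil)))) .nil))) (.nd (nat_lit 5) 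
(.lf (nat_lit 81809) (.g (nat_lit 2995) (.e (nat_lit 1853) (nat_lit 124) (.e (nat_lit 557104) (nat_lit 14) (.e (nat_lit 180278) (nat_lit 32) (.e (nat_lit 1253) (nat_lit 92) (.e (nat_lit 98370) (nat_lit 28) (.e (nat_lit 450304) (nat_lit 0) .nil)))))) (.g (nat_lit 5) .nil .nil))) 
(.lf (nat_lit 81841) (.g (nat_lit 1836) (.e (nat_lit 1853) (nat_lit 124) (.e (nat_lit 557107) (nat_lit 15) (.e (nat_lit 196352) (nat_lit 0) (.e (nat_lit 1855) (nat_lit 124) (.e (nat_lit 557107) (nat_lit 15) (.e (nat_lit 196352) (nat_lit 0) .nil)))))) (.g (nat_lit 5) .nil .nil))))) (.nd (nat_lit 4) (.nd (nat_lit 5) 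
(.lf (nat_lit 81801) (.g (nat_lit 2113) (.e (nat_lit 1853) (nat_lit 124) (.e (nat_lit 557104) (nat_lit 14) (.e (nat_lit 180277) (nat_lit 32) (.e (nat_lit 1253) (nat_lit 92) (.e (nat_lit 98381) (nat_lit 31) (.e (nat_lit 466945) (nat_lit 0) .nil)))))) (.g (nat_lit 4) .nil .nil))) 
(.lf (nat_lit 81833) (.g (nat_lit 2775) (.e (nat_lit 1853) (nat_lit 124) (.e (nat_lit 557107) (nat_lit 15) (.e (nat_lit 188418) (nat_lit 0) (.e (nat_lit 1856) (nat_lit 124) (.e (nat_lit 557107) (nat_lit 15) (.e (nat_lit 196352) (nat_lit 0) .nil)))))) (.g (nat_lit 5) .nil .nil)))) (.nd (nat_lit 5) 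
(.lf (nat_lit 81817) (.g (nat_lit 3044) (.e (nat_lit 1853) (nat_lit 124) (.e (nat_lit 557105) (nat_lit 14) (.e (nat_lit 180252) (nat_lit 10) (.e (nat_lit 573489) (nat_lit 14) (.e (nat_lit 73755) (nat_lit 8) (.e (nat_lit 557090) (nat_lit 12) (.e (nat_lit 163844) (nat_lit 0) (.e (nat_lit 5207) (nat_lit 295) (.e (nat_lit 122886) (nat_lit 0) .nil))))))))) (.g (nat_lit 4) .nil .nil))) 
(.lf (nat_lit 81849) (.g (nat_lit 1735) (.e (nat_lit 1853) (nat_lit 124) (.e (nat_lit 557107) (nat_lit 15) (.e (nat_lit 188439) (nat_lit 20) (.e (nat_lit 3272) (nat_lit 199) (.e (nat_lit 548898) (nat_lit 14) (.e (nat_lit 2998) (nat_lit 186) (.e (nat_lit 450304) (nat_lit 0) .nil))))))) (.g (nat_lit 4) .nil .nil)))))) (.nd (nat_lit 3) (.nd (nat_lit 4) (.nd (nat_lit 5) 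
(.lf (nat_lit 81797) (.g (nat_lit 1982) (.e (nat_lit 1853) (nat_lit 124) (.e (nat_lit 557104) (nat_lit 14) (.e (nat_lit 180277) (nat_lit 32) (.e (nat_lit 1252) (nat_lit 92) (.e (nat_lit 98381) (nat_lit 31) (.e (nat_lit 466945) (nat_lit 0) .nil)))))) (.g (nat_lit 4) .nil .nil))) 
(.lf (nat_lit 81829) (.g (nat_lit 1359) (.e (nat_lit 1853) (nat_lit 124) (.e (nat_lit 557105) (nat_lit 14) (.e (nat_lit 180277) (nat_lit 32) (.e (nat_lit 1253) (nat_lit 92) (.e (nat_lit 98381) (nat_lit 31) .nil))))) .nil))) (.nd (nat_lit 5) 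
(.lf (nat_lit 81813) (.g (nat_lit 2719) (.e (nat_lit 1853) (nat_lit 124) (.e (nat_lit 557105) (nat_lit 14) (.e (nat_lit 180252) (nat_lit 10) (.e (nat_lit 573488) (nat_lit 14) .nil)))) .nil)) 
(.lf (nat_lit 81845) (.g (nat_lit 2005) (.e (nat_lit 1853) (nat_lit 124) (.e (nat_lit 557107) (nat_lit 15) (.e (nat_lit 196352) (nat_lit 0) (.e (nat_lit 1859) (nat_lit 124) (.e (nat_lit 557109) (nat_lit 15) (.e (nat_lit 196352) (nat_lit 0) .nil)))))) (.g (nat_lit 5) .nil .nil))))) (.nd (nat_lit 4) (.nd (nat_lit 5) 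
(.lf (nat_lit 81805) (.g (nat_lit 3256) (.e (nat_lit 1853) (nat_lit 124) (.e (nat_lit 557104) (nat_lit 14) (.e (nat_lit 180278) (nat_lit 32) (.e (nat_lit 1235) (nat_lit 91) (.e (nat_lit 90178) (nat_lit 15) (.e (nat_lit 196352) (nat_lit 0) .nil)))))) (.g (nat_lit 5) .nil .nil))) 
(.lf (nat_lit 81837) (.g (nat_lit 2607) (.e (nat_lit 1853) (nat_lit 124) (.e (nat_lit 557107) (nat_lit 15) (.e (nat_lit 188420) (nat_lit 0) (.e (nat_lit 1856) (nat_lit 124) (.e (nat_lit 557107) (nat_lit 15) (.e (nat_lit 196352) (nat_lit 0) .nil)))))) (.g (nat_lit 5) .nil .nil)))) (.nd (nat_lit 5) 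
(.lf (nat_lit 81821) (.g (nat_lit 4670) (.e (nat_lit 1853) (nat_lit 124) (.e (nat_lit 557105) (nat_lit 14) (.e (nat_lit 180252) (nat_lit 10) (.e (nat_lit 573489) (nat_lit 14) (.e (nat_lit 73755) (nat_lit 8) (.e (nat_lit 557090) (nat_lit 12) (.e (nat_lit 164007) (nat_lit 41) (.e (nat_lit 663574) (nat_lit 9) (.e (nat_lit 54) (nat_lit 0) .nil))))))))) (.g (nat_lit 7) .nil .nil))) 
(.lf (nat_lit 81853) (.g (nat_lit 2567) (.e (nat_lit 1853) (nat_lit 124) (.e (nat_lit 557108) (nat_lit 15) (.e (nat_lit 188418) (nat_lit 0) (.e (nat_lit 1856) (nat_lit 124) (.e (nat_lit 557109) (nat_lit 15) (.e (nat_lit 196352) (nat_lit 0) .nil)))))) (.g (nat_lit 4) .nil .nil))))))) (.nd (nat_lit 2) (.nd (nat_lit 3) (.nd (nat_lit 4) (.nd (nat_lit 5) 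
(.lf (nat_lit 81795) (.g (nat_lit 1917) (.e (nat_lit 1853) (nat_lit 124) (.e (nat_lit 557104) (nat_lit 14) (.e (nat_lit 180277) (nat_lit 32) (.e (nat_lit 1252) (nat_lit 92) (.e (nat_lit 98370) (nat_lit 28) (.e (nat_lit 450304) (nat_lit 0) .nil)))))) (.g (nat_lit 4) .nil .nil))) 
(.lf (nat_lit 81827) (.g (nat_lit 1896) (.e (nat_lit 1853) (nat_lit 124) (.e (nat_lit 557105) (nat_lit 14) (.e (nat_lit 180277) (nat_lit 32) (.e (nat_lit 1253) (nat_lit 92) (.e (nat_lit 98370) (nat_lit 28) (.e (nat_lit 442373) (nat_lit 0) .nil)))))) (.g (nat_lit 4) .nil .nil)))) (.nd (nat_lit 5) 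
(.lf (nat_lit 81811) (.g (nat_lit 307) (.e (nat_lit 1853) (nat_lit 124) (.e (nat_lit 557104) (nat_lit 14) (.e (nat_lit 188160) (nat_lit 32) .nil))) .nil)) 
(.lf (nat_lit 81843) (.g (nat_lit 1846) (.e (nat_lit 1853) (nat_lit 124) (.e (nat_lit 557107) (nat_lit 15) (.e (nat_lit 196352) (nat_lit 0) (.e (nat_lit 1858) (nat_lit 124) (.e (nat_lit 557107) (nat_lit 15) (.e (nat_lit 196352) (nat_lit 0) .nil)))))) (.g (nat_lit 4) .nil .nil))))) (.nd (nat_lit 4) (.nd (nat_lit 5) 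
(.lf (nat_lit 81803) (.g (nat_lit 3292) (.e (nat_lit 1853) (nat_lit 124) (.e (nat_lit 557104) (nat_lit 14) (.e (nat_lit 180278) (nat_lit 32) (.e (nat_lit 1234) (nat_lit 91) (.e (nat_lit 90178) (nat_lit 15) (.e (nat_lit 196352) (nat_lit 0) .nil)))))) (.g (nat_lit 5) .nil .nil))) 
(.lf (nat_lit 81835) (.g (nat_lit 2483) (.e (nat_lit 1853) (nat_lit 124) (.e (nat_lit 557107) (nat_lit 15) (.e (nat_lit 188420) (nat_lit 0) (.e (nat_lit 1855) (nat_lit 124) (.e (nat_lit 557107) (nat_lit 15) (.e (nat_lit 196352) (nat_lit 0) .nil)))))) (.g (nat_lit 5) .nil .nil)))) (.nd (nat_lit 5) 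
(.lf (nat_lit 81819) (.g (nat_lit 5315) (.e (nat_lit 1853) (nat_lit 124) (.e (nat_lit 557105) (nat_lit 14) (.e (nat_lit 180252) (nat_lit 10) (.e (nat_lit 573489) (nat_lit 14) (.e (nat_lit 73755) (nat_lit 8) (.e (nat_lit 557090) (nat_lit 12) (.e (nat_lit 164006) (nat_lit 41) (.e (nat_lit 663574) (nat_lit 9) (.e (nat_lit 54) (nat_lit 0) .nil))))))))) (.g (nat_lit 7) .nil .nil))) 
(.lf (nat_lit 81851) (.g (nat_lit 2586) (.e (nat_lit 1853) (nat_lit 124) (.e (nat_lit 557107) (nat_lit 15) (.e (nat_lit 188450) (nat_lit 23) (.e (nat_lit 204882) (nat_lit 32) (.e (nat_lit 385105) (nat_lit 50) (.e (nat_lit 786450) (nat_lit 15) .nil)))))) (.g (nat_lit 4) .nil .nil)))))) (.nd (nat_lit 3) (.nd (nat_lit 4) (.nd (nat_lit 5) 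
(.lf (nat_lit 81799) (.g (nat_lit 2099) (.e (nat_lit 1853) (nat_lit 124) (.e (nat_lit 557104) (nat_lit 14) (.e (nat_lit 180277) (nat_lit 32) (.e (nat_lit 1253) (nat_lit 92) (.e (nat_lit 98370) (nat_lit 28) (.e (nat_lit 450304) (nat_lit 0) .nil)))))) (.g (nat_lit 4) .nil .nil))) 
(.lf (nat_lit 81831) (.g (nat_lit 1986) (.e (nat_lit 1853) (nat_lit 124) (.e (nat_lit 557105) (nat_lit 14) (.e (nat_lit 180278) (nat_lit 32) (.e (nat_lit 1235) (nat_lit 91) (.e (nat_lit 90176) (nat_lit 15) (.e (nat_lit 196352) (nat_lit 0) .nil)))))) (.g (nat_lit 4) .nil .nil)))) (.nd (nat_lit 5) 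
(.lf (nat_lit 81815) (.g (nat_lit 3991) (.e (nat_lit 1853) (nat_lit 124) (.e (nat_lit 557105) (nat_lit 14) (.e (nat_lit 180252) (nat_lit 10) (.e (nat_lit 573489) (nat_lit 14) (.e (nat_lit 73755) (nat_lit 8) (.e (nat_lit 557089) (nat_lit 12) (.e (nat_lit 164007) (nat_lit 41) (.e (nat_lit 663580) (nat_lit 9) (.e (nat_lit 40) (nat_lit 0) .nil))))))))) (.g (nat_lit 5) .nil .nil))) 
(.lf (nat_lit 81847) (.g (nat_lit 1353) (.e (nat_lit 1853) (nat_lit 124) (.e (nat_lit 557107) (nat_lit 15) (.e (nat_lit 188439) (nat_lit 20) (.e (nat_lit 3270) (nat_lit 199) (.e (nat_lit 548898) (nat_lit 14) (.e (nat_lit 2998) (nat_lit 186) (.e (nat_lit 450304) (nat_lit 0) .nil))))))) (.g (nat_lit 4) .nil .nil))))) (.nd (nat_lit 4) (.nd (nat_lit 5) 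
(.lf (nat_lit 81807) (.g (nat_lit 2295) (.e (nat_lit 1853) (nat_lit 124) (.e (nat_lit 557104) (nat_lit 14) (.e (nat_lit 180278) (nat_lit 32) (.e (nat_lit 1252) (nat_lit 92) (.e (nat_lit 98381) (nat_lit 31) (.e (nat_lit 474880) (nat_lit 0) .nil)))))) (.g (nat_lit 4) .nil .nil))) 
(.lf (nat_lit 81839) (.g (nat_lit 2408) (.e (nat_lit 1853) (nat_lit 124) (.e (nat_lit 557107) (nat_lit 15) (.e (nat_lit 196352) (nat_lit 0) (.e (nat_lit 1853) (nat_lit 124) (.e (nat_lit 557107) (nat_lit 15) (.e (nat_lit 196352) (nat_lit 0) .nil)))))) (.g (nat_lit 5) .nil .nil)))) (.nd (nat_lit 5) 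
(.lf (nat_lit 81823) (.g (nat_lit 3116) (.e (nat_lit 1853) (nat_lit 124) (.e (nat_lit 557105) (nat_lit 14) (.e (nat_lit 180252) (nat_lit 10) (.e (nat_lit 573489) (nat_lit 14) (.e (nat_lit 73755) (nat_lit 8) (.e (nat_lit 557091) (nat_lit 12) (.e (nat_lit 164007) (nat_lit 41) (.e (nat_lit 663580) (nat_lit 9) (.e (nat_lit 40) (nat_lit 0) .nil))))))))) (.g (nat_lit 4) .nil .nil))) 
(.lf (nat_lit 81855) (.g (nat_lit 2599) (.e (nat_lit 1853) (nat_lit 124) (.e (nat_lit 557108) (nat_lit 15) (.e (nat_lit 188419) (nat_lit 0) (.e (nat_lit 1855) (nat_lit 124) (.e (nat_lit 557109) (nat_lit 15) (.e (nat_lit 196352) (nat_lit 0) .nil)))))) (.g (nat_lit 4) .nil .nil)))))))))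

noncomputable def tv1109 : DT := (.nd (nat_lit 0) (.nd (nat_lit 1) (.nd (nat_lit 2) (.nd (nat_lit 3) (.nd (nat_lit 4) (.nd (nat_lit 5) 
(.lf (nat_lit 81856) (.g (nat_lit 3035) (.e (nat_lit 1853) (nat_lit 124) (.e (nat_lit 557108) (nat_lit 15) (.e (nat_lit 188419) (nat_lit 0) (.e (nat_lit 1856) (nat_lit 124) (.e (nat_lit 557107) (nat_lit 15) (.e (nat_lit 196352) (nat_lit 0) .nil)))))) (.g (nat_lit 5) .nil .nil))) 
(.lf (nat_lit 81888) (.g (nat_lit 3946) (.e (nat_lit 1853) (nat_lit 124) (.e (nat_lit 557108) (nat_lit 15) (.e (nat_lit 188449) (nat_lit 22) (.e (nat_lit 196617) (nat_lit 9) .nil)))) .nil))) (.nd (nat_lit 5) 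
(.lf (nat_lit 81872) (.g (nat_lit 2931) (.e (nat_lit 1853) (nat_lit 124) (.e (nat_lit 557108) (nat_lit 15) (.e (nat_lit 188434) (nat_lit 20) (.e (nat_lit 3272) (nat_lit 199) (.e (nat_lit 548898) (nat_lit 14) (.e (nat_lit 2988) (nat_lit 186) (.e (nat_lit 450304) (nat_lit 0) .nil))))))) (.g (nat_lit 4) .nil .nil))) 
(.lf (nat_lit 81904) (.g (nat_lit 4342) (.e (nat_lit 1853) (nat_lit 124) (.e (nat_lit 557108) (nat_lit 15) (.e (nat_lit 188449) (nat_lit 22) (.e (nat_lit 196631) (nat_lit 9) .nil)))) .nil)))) (.nd (nat_lit 4) (.nd (nat_lit 5) 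
(.lf (nat_lit 81864) (.g (nat_lit 2855) (.e (nat_lit 1853) (nat_lit 124) (.e (nat_lit 557108) (nat_lit 15) (.e (nat_lit 196352) (nat_lit 0) (.e (nat_lit 1860) (nat_lit 124) (.e (nat_lit 557109) (nat_lit 15) (.e (nat_lit 196352) (nat_lit 0) .nil)))))) (.g (nat_lit 5) .nil .nil))) 
(.lf (nat_lit 81896) (.g (nat_lit 4324) (.e (nat_lit 1853) (nat_lit 124) (.e (nat_lit 557108) (nat_lit 15) (.e (nat_lit 188449) (nat_lit 22) (.e (nat_lit 196627) (nat_lit 9) .nil)))) .nil))) (.nd (nat_lit 5) 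
(.lf (nat_lit 81880) (.g (nat_lit 2494) (.e (nat_lit 1853) (nat_lit 124) (.e (nat_lit 557108) (nat_lit 15) (.e (nat_lit 188435) (nat_lit 20) (.e (nat_lit 3272) (nat_lit 199) (.e (nat_lit 548898) (nat_lit 14) (.e (nat_lit 2988) (nat_lit 186) (.e (nat_lit 442373) (nat_lit 0) .nil))))))) (.g (nat_lit 5) .nil .nil))) 
(.lf (nat_lit 81912) (.g (nat_lit 4305) (.e (nat_lit 1853) (nat_lit 124) (.e (nat_lit 557108) (nat_lit 15) (.e (nat_lit 188449) (nat_lit 22) (.e (nat_lit 196642) (nat_lit 9) .nil)))) .nil))))) (.nd (nat_lit 3) (.nd (nat_lit 4) (.nd (nat_lit 5) 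
(.lf (nat_lit 81860) (.g (nat_lit 3017) (.e (nat_lit 1853) (nat_lit 124) (.e (nat_lit 557108) (nat_lit 15) (.e (nat_lit 188420) (nat_lit 0) (.e (nat_lit 1856) (nat_lit 124) (.e (nat_lit 557107) (nat_lit 15) (.e (nat_lit 196352) (nat_lit 0) .nil)))))) (.g (nat_lit 5) .nil .nil))) 
(.lf (nat_lit 81892) (.g (nat_lit 4193) (.e (nat_lit 1853) (nat_lit 124) (.e (nat_lit 557108) (nat_lit 15) (.e (nat_lit 188449) (nat_lit 22) (.e (nat_lit 196623) (nat_lit 9) .nil)))) .nil))) (.nd (nat_lit 5) 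
(.lf (nat_lit 81876) (.g (nat_lit 3550) (.e (nat_lit 1853) (nat_lit 124) (.e (nat_lit 557108) (nat_lit 15) (.e (nat_lit 188434) (nat_lit 20) (.e (nat_lit 3272) (nat_lit 199) (.e (nat_lit 548915) (nat_lit 20) (.e (nat_lit 196352) (nat_lit 0) .nil)))))) (.g (nat_lit 5) .nil .nil))) 
(.lf (nat_lit 81908) (.g (nat_lit 4024) (.e (nat_lit 1853) (nat_lit 124) (.e (nat_lit 557108) (nat_lit 15) (.e (nat_lit 188449) (nat_lit 22) (.e (nat_lit 196637) (nat_lit 9) .nil)))) .nil)))) (.nd (nat_lit 4) (.nd (nat_lit 5) 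
(.lf (nat_lit 81868) (.g (nat_lit 1194) (.e (nat_lit 1853) (nat_lit 124) (.e (nat_lit 557108) (nat_lit 15) (.e (nat_lit 188434) (nat_lit 20) (.e (nat_lit 3272) (nat_lit 199) .nil)))) .nil)) 
(.lf (nat_lit 81900) (.g (nat_lit 2655) (.e (nat_lit 1853) (nat_lit 124) (.e (nat_lit 557108) (nat_lit 15) (.e (nat_lit 188449) (nat_lit 22) (.e (nat_lit 196628) (nat_lit 9) (.e (nat_lit 970) (nat_lit 81) (.e (nat_lit 6719) (nat_lit 361) (.e (nat_lit 179968) (nat_lit 15) .nil))))))) (.g (nat_lit 4) .nil .nil)))) (.nd (nat_lit 5) 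
(.lf (nat_lit 81884) (.g (nat_lit 1623) (.e (nat_lit 1853) (nat_lit 124) (.e (nat_lit 557108) (nat_lit 15) (.e (nat_lit 188441) (nat_lit 20) (.e (nat_lit 3272) (nat_lit 199) .nil)))) .nil)) 
(.lf (nat_lit 81916) (.g (nat_lit 4044) (.e (nat_lit 1853) (nat_lit 124) (.e (nat_lit 557108) (nat_lit 15) (.e (nat_lit 188449) (nat_lit 22) (.e (nat_lit 196643) (nat_lit 9) (.e (nat_lit 1640) (nat_lit 114) .nil))))) .nil)))))) (.nd (nat_lit 2) (.nd (nat_lit 3) (.nd (nat_lit 4) (.nd (nat_lit 5) 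
(.lf (nat_lit 81858) (.g (nat_lit 3014) (.e (nat_lit 1853) (nat_lit 124) (.e (nat_lit 557108) (nat_lit 15) (.e (nat_lit 188420) (nat_lit 0) (.e (nat_lit 1855) (nat_lit 124) (.e (nat_lit 557107) (nat_lit 15) (.e (nat_lit 196352) (nat_lit 0) .nil)))))) (.g (nat_lit 4) .nil .nil))) 
(.lf (nat_lit 81890) (.g (nat_lit 3493) (.e (nat_lit 1853) (nat_lit 124) (.e (nat_lit 557108) (nat_lit 15) (.e (nat_lit 188449) (nat_lit 22) (.e (nat_lit 196620) (nat_lit 9) .nil)))) .nil))) (.nd (nat_lit 5) 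
(.lf (nat_lit 81874) (.g (nat_lit 2625) (.e (nat_lit 1853) (nat_lit 124) (.e (nat_lit 557108) (nat_lit 15) (.e (nat_lit 188434) (nat_lit 20) (.e (nat_lit 3272) (nat_lit 199) (.e (nat_lit 548898) (nat_lit 14) (.e (nat_lit 2998) (nat_lit 186) (.e (nat_lit 450304) (nat_lit 0) .nil))))))) (.g (nat_lit 4) .nil .nil))) 
(.lf (nat_lit 81906) (.g (nat_lit 4342) (.e (nat_lit 1853) (nat_lit 124) (.e (nat_lit 557108) (nat_lit 15) (.e (nat_lit 188449) (nat_lit 22) (.e (nat_lit 196634) (nat_lit 9) .nil)))) .nil)))) (.nd (nat_lit 4) (.nd (nat_lit 5) 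
(.lf (nat_lit 81866) (.g (nat_lit 2647) (.e (nat_lit 1853) (nat_lit 124) (.e (nat_lit 557108) (nat_lit 15) (.e (nat_lit 188434) (nat_lit 20) (.e (nat_lit 3271) (nat_lit 199) (.e (nat_lit 548898) (nat_lit 14) (.e (nat_lit 3004) (nat_lit 186) (.e (nat_lit 450304) (nat_lit 0) .nil))))))) (.g (nat_lit 4) .nil .nil))) 
(.lf (nat_lit 81898) (.g (nat_lit 2736) (.e (nat_lit 1853) (nat_lit 124) (.e (nat_lit 557108) (nat_lit 15) (.e (nat_lit 188449) (nat_lit 22) (.e (nat_lit 196628) (nat_lit 9) (.e (nat_lit 968) (nat_lit 81) (.e (nat_lit 6719) (nat_lit 361) (.e (nat_lit 179968) (nat_lit 15) .nil))))))) (.g (nat_lit 4) .nil .nil)))) (.nd (nat_lit 5) 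
(.lf (nat_lit 81882) (.g (nat_lit 3031) (.e (nat_lit 1853) (nat_lit 124) (.e (nat_lit 557108) (nat_lit 15) (.e (nat_lit 188435) (nat_lit 20) (.e (nat_lit 3272) (nat_lit 199) (.e (nat_lit 548898) (nat_lit 14) (.e (nat_lit 3004) (nat_lit 186) (.e (nat_lit 442373) (nat_lit 0) .nil))))))) (.g (nat_lit 5) .nil .nil))) 
(.lf (nat_lit 81914) (.g (nat_lit 3797) (.e (nat_lit 1853) (nat_lit 124) (.e (nat_lit 557108) (nat_lit 15) (.e (nat_lit 188449) (nat_lit 22) (.e (nat_lit 196643) (nat_lit 9) .nil)))) .nil))))) (.nd (nat_lit 3) (.nd (nat_lit 4) (.nd (nat_lit 5) 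
(.lf (nat_lit 81862) (.g (nat_lit 2200) (.e (nat_lit 1853) (nat_lit 124) (.e (nat_lit 557108) (nat_lit 15) (.e (nat_lit 196352) (nat_lit 0) (.e (nat_lit 1853) (nat_lit 124) (.e (nat_lit 557108) (nat_lit 15) (.e (nat_lit 196352) (nat_lit 0) .nil)))))) (.g (nat_lit 4) .nil .nil))) 
(.lf (nat_lit 81894) (.g (nat_lit 2575) (.e (nat_lit 1853) (nat_lit 124) (.e (nat_lit 557108) (nat_lit 15) (.e (nat_lit 188449) (nat_lit 22) (.e (nat_lit 196626) (nat_lit 9) .nil)))) .nil))) (.nd (nat_lit 5) 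
(.lf (nat_lit 81878) (.g (nat_lit 2274) (.e (nat_lit 1853) (nat_lit 124) (.e (nat_lit 557108) (nat_lit 15) (.e (nat_lit 188435) (nat_lit 20) (.e (nat_lit 3272) (nat_lit 199) (.e (nat_lit 548896) (nat_lit 14) (.e (nat_lit 3004) (nat_lit 186) (.e (nat_lit 442373) (nat_lit 0) .nil))))))) (.g (nat_lit 4) .nil .nil))) 
(.lf (nat_lit 81910) (.g (nat_lit 3311) (.e (nat_lit 1853) (nat_lit 124) (.e (nat_lit 557108) (nat_lit 15) (.e (nat_lit 188449) (nat_lit 22) (.e (nat_lit 196640) (nat_lit 9) .nil)))) .nil)))) (.nd (nat_lit 4) (.nd (nat_lit 5) 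
(.lf (nat_lit 81870) (.g (nat_lit 2788) (.e (nat_lit 1853) (nat_lit 124) (.e (nat_lit 557108) (nat_lit 15) (.e (nat_lit 188434) (nat_lit 20) (.e (nat_lit 3272) (nat_lit 199) (.e (nat_lit 548897) (nat_lit 14) (.e (nat_lit 2988) (nat_lit 186) (.e (nat_lit 442373) (nat_lit 0) .nil))))))) (.g (nat_lit 4) .nil .nil))) 
(.lf (nat_lit 81902) (.g (nat_lit 2156) (.e (nat_lit 1853) (nat_lit 124) (.e (nat_lit 557108) (nat_lit 15) (.e (nat_lit 188449) (nat_lit 22) (.e (nat_lit 196630) (nat_lit 9) (.e (nat_lit 1642) (nat_lit 114) .nil))))) .nil))) (.nd (nat_lit 5) 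
(.lf (nat_lit 81886) (.g (nat_lit 1496) (.e (nat_lit 1853) (nat_lit 124) (.e (nat_lit 557108) (nat_lit 15) (.e (nat_lit 188446) (nat_lit 21) (.e (nat_lit 164178) (nat_lit 154) .nil)))) .nil)) 
(.lf (nat_lit 81918) (.g (nat_lit 3900) (.e (nat_lit 1853) (nat_lit 124) (.e (nat_lit 557108) (nat_lit 15) (.e (nat_lit 188449) (nat_lit 22) (.e (nat_lit 196645) (nat_lit 9) .nil)))) .nil))))))) (.nd (nat_lit 1) (.nd (nat_lit 2) (.nd (nat_lit 3) (.nd (nat_lit 4) (.nd (nat_lit 5) 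
(.lf (nat_lit 81857) (.g (nat_lit 2690) (.e (nat_lit 1853) (nat_lit 124) (.e (nat_lit 557108) (nat_lit 15) (.e (nat_lit 188419) (nat_lit 0) (.e (nat_lit 1856) (nat_lit 124) (.e (nat_lit 557109) (nat_lit 15) (.e (nat_lit 196352) (nat_lit 0) .nil)))))) (.g (nat_lit 4) .nil .nil))) 
(.lf (nat_lit 81889) (.g (nat_lit 3690) (.e (nat_lit 1853) (nat_lit 124) (.e (nat_lit 557108) (nat_lit 15) (.e (nat_lit 188449) (nat_lit 22) (.e (nat_lit 196618) (nat_lit 9) .nil)))) .nil))) (.nd (nat_lit 5) 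
(.lf (nat_lit 81873) (.g (nat_lit 2806) (.e (nat_lit 1853) (nat_lit 124) (.e (nat_lit 557108) (nat_lit 15) (.e (nat_lit 188434) (nat_lit 20) (.e (nat_lit 3272) (nat_lit 199) (.e (nat_lit 548898) (nat_lit 14) (.e (nat_lit 2989) (nat_lit 186) (.e (nat_lit 442373) (nat_lit 0) .nil))))))) (.g (nat_lit 4) .nil .nil))) 
(.lf (nat_lit 81905) (.g (nat_lit 3780) (.e (nat_lit 1853) (nat_lit 124) (.e (nat_lit 557108) (nat_lit 15) (.e (nat_lit 188449) (nat_lit 22) (.e (nat_lit 196632) (nat_lit 9) .nil)))) .nil)))) (.nd (nat_lit 4) (.nd (nat_lit 5) 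
(.lf (nat_lit 81865) (.g (nat_lit 2872) (.e (nat_lit 1853) (nat_lit 124) (.e (nat_lit 557108) (nat_lit 15) (.e (nat_lit 188434) (nat_lit 20) (.e (nat_lit 3271) (nat_lit 199) (.e (nat_lit 548898) (nat_lit 14) (.e (nat_lit 2988) (nat_lit 186) (.e (nat_lit 442373) (nat_lit 0) .nil))))))) (.g (nat_lit 5) .nil .nil))) 
(.lf (nat_lit 81897) (.g (nat_lit 2643) (.e (nat_lit 1853) (nat_lit 124) (.e (nat_lit 557108) (nat_lit 15) (.e (nat_lit 188449) (nat_lit 22) (.e (nat_lit 196628) (nat_lit 9) (.e (nat_lit 968) (nat_lit 81) (.e (nat_lit 6719) (nat_lit 361) (.e (nat_lit 172132) (nat_lit 15) .nil))))))) (.g (nat_lit 4) .nil .nil)))) (.nd (nat_lit 5) 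
(.lf (nat_lit 81881) (.g (nat_lit 2141) (.e (nat_lit 1853) (nat_lit 124) (.e (nat_lit 557108) (nat_lit 15) (.e (nat_lit 188435) (nat_lit 20) (.e (nat_lit 3272) (nat_lit 199) (.e (nat_lit 548898) (nat_lit 14) (.e (nat_lit 2988) (nat_lit 186) (.e (nat_lit 450304) (nat_lit 0) .nil))))))) (.g (nat_lit 4) .nil .nil))) 
(.lf (nat_lit 81913) (.g (nat_lit 5002) (.e (nat_lit 1853) (nat_lit 124) (.e (nat_lit 557108) (nat_lit 15) (.e (nat_lit 188449) (nat_lit 22) (.e (nat_lit 196642) (nat_lit 9) (.e (nat_lit 1640) (nat_lit 114) .nil))))) .nil))))) (.nd (nat_lit 3) (.nd (nat_lit 4) (.nd (nat_lit 5) 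
(.lf (nat_lit 81861) (.g (nat_lit 2777) (.e (nat_lit 1853) (nat_lit 124) (.e (nat_lit 557108) (nat_lit 15) (.e (nat_lit 188420) (nat_lit 0) (.e (nat_lit 1856) (nat_lit 124) (.e (nat_lit 557109) (nat_lit 15) (.e (nat_lit 196352) (nat_lit 0) .nil)))))) (.g (nat_lit 4) .nil .nil))) 
(.lf (nat_lit 81893) (.g (nat_lit 3306) (.e (nat_lit 1853) (nat_lit 124) (.e (nat_lit 557108) (nat_lit 15) (.e (nat_lit 188449) (nat_lit 22) (.e (nat_lit 196624) (nat_lit 9) (.e (nat_lit 1645) (nat_lit 114) .nil))))) .nil))) (.nd (nat_lit 5) 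
(.lf (nat_lit 81877) (.g (nat_lit 633) (.e (nat_lit 1853) (nat_lit 124) (.e (nat_lit 557108) (nat_lit 15) (.e (nat_lit 188435) (nat_lit 20) .nil))) .nil)) 
(.lf (nat_lit 81909) (.g (nat_lit 4316) (.e (nat_lit 1853) (nat_lit 124) (.e (nat_lit 557108) (nat_lit 15) (.e (nat_lit 188449) (nat_lit 22) (.e (nat_lit 196638) (nat_lit 9) .nil)))) .nil)))) (.nd (nat_lit 4) (.nd (nat_lit 5) 
(.lf (nat_lit 81869) (.g (nat_lit 2618) (.e (nat_lit 1853) (nat_lit 124) (.e (nat_lit 557108) (nat_lit 15) (.e (nat_lit 188434) (nat_lit 20) (.e (nat_lit 3272) (nat_lit 199) (.e (nat_lit 548896) (nat_lit 14) (.e (nat_lit 3004) (nat_lit 186) (.e (nat_lit 450304) (nat_lit 0) .nil))))))) (.g (nat_lit 4) .nil .nil))) 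
(.lf (nat_lit 81901) (.g (nat_lit 2135) (.e (nat_lit 1853) (nat_lit 124) (.e (nat_lit 557108) (nat_lit 15) (.e (nat_lit 188449) (nat_lit 22) (.e (nat_lit 196628) (nat_lit 9) (.e (nat_lit 1643) (nat_lit 114) .nil))))) .nil))) (.nd (nat_lit 5) 
(.lf (nat_lit 81885) (.g (nat_lit 763) (.e (nat_lit 1853) (nat_lit 124) (.e (nat_lit 557108) (nat_lit 15) (.e (nat_lit 188446) (nat_lit 21) .nil))) .nil)) 
(.lf (nat_lit 81917) (.g (nat_lit 4017) (.e (nat_lit 1853) (nat_lit 124) (.e (nat_lit 557108) (nat_lit 15) (.e (nat_lit 188449) (nat_lit 22) (.e (nat_lit 196643) (nat_lit 9) (.e (nat_lit 1641) (nat_lit 114) .nil))))) .nil)))))) (.nd (nat_lit 2) (.nd (nat_lit 3) (.nd (nat_lit 4) (.nd (nat_lit 5) 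
(.lf (nat_lit 81859) (.g (nat_lit 3030) (.e (nat_lit 1853) (nat_lit 124) (.e (nat_lit 557108) (nat_lit 15) (.e (nat_lit 188420) (nat_lit 0) (.e (nat_lit 1855) (nat_lit 124) (.e (nat_lit 557109) (nat_lit 15) (.e (nat_lit 196352) (nat_lit 0) .nil)))))) (.g (nat_lit 4) .nil .nil))) 
(.lf (nat_lit 81891) (.g (nat_lit 3511) (.e (nat_lit 1853) (nat_lit 124) (.e (nat_lit 557108) (nat_lit 15) (.e (nat_lit 188449) (nat_lit 22) (.e (nat_lit 196622) (nat_lit 9) .nil)))) .nil))) (.nd (nat_lit 5) 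
(.lf (nat_lit 81875) (.g (nat_lit 2963) (.e (nat_lit 1853) (nat_lit 124) (.e (nat_lit 557108) (nat_lit 15) (.e (nat_lit 188434) (nat_lit 20) (.e (nat_lit 3272) (nat_lit 199) (.e (nat_lit 548898) (nat_lit 14) (.e (nat_lit 3004) (nat_lit 186) (.e (nat_lit 450304) (nat_lit 0) .nil))))))) (.g (nat_lit 4) .nil .nil))) 
(.lf (nat_lit 81907) (.g (nat_lit 3910) (.e (nat_lit 1853) (nat_lit 124) (.e (nat_lit 557108) (nat_lit 15) (.e (nat_lit 188449) (nat_lit 22) (.e (nat_lit 196635) (nat_lit 9) .nil)))) .nil)))) (.nd (nat_lit 4) (.nd (nat_lit 5) 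
(.lf (nat_lit 81867) (.g (nat_lit 3213) (.e (nat_lit 1853) (nat_lit 124) (.e (nat_lit 557108) (nat_lit 15) (.e (nat_lit 188434) (nat_lit 20) (.e (nat_lit 3271) (nat_lit 199) (.e (nat_lit 548915) (nat_lit 20) (.e (nat_lit 196352) (nat_lit 0) .nil)))))) (.g (nat_lit 5) .nil .nil))) 
(.lf (nat_lit 81899) (.g (nat_lit 2478) (.e (nat_lit 1853) (nat_lit 124) (.e (nat_lit 557108) (nat_lit 15) (.e (nat_lit 188449) (nat_lit 22) (.e (nat_lit 196628) (nat_lit 9) (.e (nat_lit 970) (nat_lit 81) (.e (nat_lit 6717) (nat_lit 361) (.e (nat_lit 179968) (nat_lit 15) .nil))))))) (.g (nat_lit 4) .nil .nil)))) (.nd (nat_lit 5) 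
(.lf (nat_lit 81883) (.g (nat_lit 2337) (.e (nat_lit 1853) (nat_lit 124) (.e (nat_lit 557108) (nat_lit 15) (.e (nat_lit 188435) (nat_lit 20) (.e (nat_lit 3272) (nat_lit 199) (.e (nat_lit 548898) (nat_lit 14) (.e (nat_lit 3004) (nat_lit 186) (.e (nat_lit 450304) (nat_lit 0) .nil))))))) (.g (nat_lit 4) .nil .nil))) 
(.lf (nat_lit 81915) (.g (nat_lit 4026) (.e (nat_lit 1853) (nat_lit 124) (.e (nat_lit 557108) (nat_lit 15) (.e (nat_lit 188449) (nat_lit 22) (.e (nat_lit 196643) (nat_lit 9) (.e (nat_lit 1639) (nat_lit 114) .nil))))) .nil))))) (.nd (nat_lit 3) (.nd (nat_lit 4) (.nd (nat_lit 5) 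
(.lf (nat_lit 81863) (.g (nat_lit 2520) (.e (nat_lit 1853) (nat_lit 124) (.e (nat_lit 557108) (nat_lit 15) (.e (nat_lit 196352) (nat_lit 0) (.e (nat_lit 1860) (nat_lit 124) (.e (nat_lit 557107) (nat_lit 15) (.e (nat_lit 196352) (nat_lit 0) .nil)))))) (.g (nat_lit 5) .nil .nil))) 
(.lf (nat_lit 81895) (.g (nat_lit 3155) (.e (nat_lit 1853) (nat_lit 124) (.e (nat_lit 557108) (nat_lit 15) (.e (nat_lit 188449) (nat_lit 22) (.e (nat_lit 196626) (nat_lit 9) (.e (nat_lit 1642) (nat_lit 114) .nil))))) .nil))) (.nd (nat_lit 5) 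
(.lf (nat_lit 81879) (.g (nat_lit 2316) (.e (nat_lit 1853) (nat_lit 124) (.e (nat_lit 557108) (nat_lit 15) (.e (nat_lit 188435) (nat_lit 20) (.e (nat_lit 3272) (nat_lit 199) (.e (nat_lit 548897) (nat_lit 14) (.e (nat_lit 3004) (nat_lit 186) (.e (nat_lit 442373) (nat_lit 0) .nil))))))) (.g (nat_lit 4) .nil .nil))) 
(.lf (nat_lit 81911) (.g (nat_lit 4150) (.e (nat_lit 1853) (nat_lit 124) (.e (nat_lit 557108) (nat_lit 15) (.e (nat_lit 188449) (nat_lit 22) (.e (nat_lit 196641) (nat_lit 9) .nil)))) .nil)))) (.nd (nat_lit 4) (.nd (nat_lit 5) 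
(.lf (nat_lit 81871) (.g (nat_lit 3233) (.e (nat_lit 1853) (nat_lit 124) (.e (nat_lit 557108) (nat_lit 15) (.e (nat_lit 188434) (nat_lit 20) (.e (nat_lit 3272) (nat_lit 199) (.e (nat_lit 548898) (nat_lit 14) (.e (nat_lit 2988) (nat_lit 186) (.e (nat_lit 442373) (nat_lit 0) .nil))))))) (.g (nat_lit 5) .nil .nil))) 
(.lf (nat_lit 81903) (.g (nat_lit 2903) (.e (nat_lit 1853) (nat_lit 124) (.e (nat_lit 557108) (nat_lit 15) (.e (nat_lit 188449) (nat_lit 22) (.e (nat_lit 196630) (nat_lit 9) (.e (nat_lit 1669) (nat_lit 116) (.e (nat_lit 401438) (nat_lit 9) (.e (nat_lit 426392) (nat_lit 15) .nil))))))) (.g (nat_lit 5) .nil .nil)))) (.nd (nat_lit 5) 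
(.lf (nat_lit 81887) (.g (nat_lit 684) (.e (nat_lit 1853) (nat_lit 124) (.e (nat_lit 557108) (nat_lit 15) (.e (nat_lit 188447) (nat_lit 22) .nil))) .nil)) 
(.lf (nat_lit 81919) (.g (nat_lit 4069) (.e (nat_lit 1853) (nat_lit 124) (.e (nat_lit 557108) (nat_lit 15) (.e (nat_lit 188449) (nat_lit 22) (.e (nat_lit 196646) (nat_lit 9) .nil)))) .nil))))))))

noncomputable def tv1110 : DT := (.nd (nat_lit 0) (.nd (nat_lit 1) (.nd (nat_lit 2) (.nd (nat_lit 3) (.nd (nat_lit 4) (.nd (nat_lit 5) (.nd (nat_lit 6) 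
(.lf (nat_lit 81920) (.g (nat_lit 4344) (.e (nat_lit 1853) (nat_lit 124) (.e (nat_lit 557108) (nat_lit 15) (.e (nat_lit 188449) (nat_lit 22) (.e (nat_lit 196657) (nat_lit 12) .nil)))) .nil)) 
(.lf (nat_lit 81984) (.g (nat_lit 3423) (.e (nat_lit 1853) (nat_lit 124) (.e (nat_lit 557108) (nat_lit 15) (.e (nat_lit 188452) (nat_lit 23) (.e (nat_lit 204852) (nat_lit 26) (.e (nat_lit 336285) (nat_lit 15) .nil))))) .nil))) (.nd (nat_lit 6) 
(.lf (nat_lit 81952) (.g (nat_lit 3803) (.e (nat_lit 1853) (nat_lit 124) (.e (nat_lit 557108) (nat_lit 15) (.e (nat_lit 188452) (nat_lit 23) (.e (nat_lit 204816) (nat_lit 17) (.e (nat_lit 6720) (nat_lit 361) (.e (nat_lit 179968) (nat_lit 15) .nil)))))) (.g (nat_lit 5) .nil .nil))) 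
(.lf (nat_lit 82016) (.g (nat_lit 3986) (.e (nat_lit 1853) (nat_lit 124) (.e (nat_lit 557108) (nat_lit 15) (.e (nat_lit 188452) (nat_lit 23) (.e (nat_lit 204885) (nat_lit 33) (.e (nat_lit 401444) (nat_lit 9) (.e (nat_lit 426356) (nat_lit 15) .nil)))))) (.g (nat_lit 5) .nil .nil))))) (.nd (nat_lit 5) (.nd (nat_lit 6) 
(.lf (nat_lit 81936) (.g (nat_lit 4180) (.e (nat_lit 1853) (nat_lit 124) (.e (nat_lit 557108) (nat_lit 15) (.e (nat_lit 188449) (nat_lit 22) (.e (nat_lit 196677) (nat_lit 16) .nil)))) .nil)) 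
(.lf (nat_lit 82000) (.g (nat_lit 2530) (.e (nat_lit 1853) (nat_lit 124) (.e (nat_lit 557108) (nat_lit 15) (.e (nat_lit 188452) (nat_lit 23) (.e (nat_lit 204881) (nat_lit 32) (.e (nat_lit 385103) (nat_lit 50) .nil))))) .nil))) (.nd (nat_lit 6) 
(.lf (nat_lit 81968) (.g (nat_lit 2902) (.e (nat_lit 1853) (nat_lit 124) (.e (nat_lit 557108) (nat_lit 15) (.e (nat_lit 188452) (nat_lit 23) (.e (nat_lit 204845) (nat_lit 24) (.e (nat_lit 319539) (nat_lit 19) (.e (nat_lit 311346) (nat_lit 15) .nil)))))) (.g (nat_lit 4) .nil .nil))) 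
(.lf (nat_lit 82032) (.g (nat_lit 1534) (.e (nat_lit 1853) (nat_lit 124) (.e (nat_lit 557109) (nat_lit 15) (.e (nat_lit 188434) (nat_lit 20) (.e (nat_lit 3271) (nat_lit 199) .nil)))) .nil))))) (.nd (nat_lit 4) (.nd (nat_lit 5) (.nd (nat_lit 6) 
(.lf (nat_lit 81928) (.g (nat_lit 3767) (.e (nat_lit 1853) (nat_lit 124) (.e (nat_lit 557108) (nat_lit 15) (.e (nat_lit 188449) (nat_lit 22) (.e (nat_lit 196661) (nat_lit 12) (.e (nat_lit 57750) (nat_lit 201) (.e (nat_lit 2856) (nat_lit 184) (.e (nat_lit 426392) (nat_lit 15) .nil))))))) (.g (nat_lit 6) .nil .nil))) 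
(.lf (nat_lit 81992) (.g (nat_lit 3022) (.e (nat_lit 1853) (nat_lit 124) (.e (nat_lit 557108) (nat_lit 15) (.e (nat_lit 188452) (nat_lit 23) (.e (nat_lit 204853) (nat_lit 26) .nil)))) .nil))) (.nd (nat_lit 6) 
(.lf (nat_lit 81960) (.g (nat_lit 1984) (.e (nat_lit 1853) (nat_lit 124) (.e (nat_lit 557108) (nat_lit 15) (.e (nat_lit 188452) (nat_lit 23) (.e (nat_lit 204821) (nat_lit 17) (.e (nat_lit 6671) (nat_lit 357) .nil))))) .nil)) 
(.lf (nat_lit 82024) (.g (nat_lit 1464) (.e (nat_lit 1853) (nat_lit 124) (.e (nat_lit 557109) (nat_lit 15) (.e (nat_lit 196352) (nat_lit 0) (.e (nat_lit 1853) (nat_lit 124) (.e (nat_lit 557109) (nat_lit 15) (.e (nat_lit 196352) (nat_lit 0) .nil)))))) (.g (nat_lit 4) .nil .nil))))) (.nd (nat_lit 5) (.nd (nat_lit 6) 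
(.lf (nat_lit 81944) (.g (nat_lit 301) (.e (nat_lit 1853) (nat_lit 124) (.e (nat_lit 557108) (nat_lit 15) (.e (nat_lit 188452) (nat_lit 23) .nil))) .nil)) 
(.lf (nat_lit 82008) (.g (nat_lit 3550) (.e (nat_lit 1853) (nat_lit 124) (.e (nat_lit 557108) (nat_lit 15) (.e (nat_lit 188452) (nat_lit 23) (.e (nat_lit 204885) (nat_lit 33) (.e (nat_lit 401434) (nat_lit 9) (.e (nat_lit 426355) (nat_lit 15) .nil)))))) (.g (nat_lit 5) .nil .nil)))) (.nd (nat_lit 6) 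
(.lf (nat_lit 81976) (.g (nat_lit 2806) (.e (nat_lit 1853) (nat_lit 124) (.e (nat_lit 557108) (nat_lit 15) (.e (nat_lit 188452) (nat_lit 23) (.e (nat_lit 204849) (nat_lit 25) .nil)))) .nil)) 
(.lf (nat_lit 82040) (.g (nat_lit 1986) (.e (nat_lit 1853) (nat_lit 124) (.e (nat_lit 557109) (nat_lit 15) (.e (nat_lit 188434) (nat_lit 20) (.e (nat_lit 3272) (nat_lit 199) (.e (nat_lit 548898) (nat_lit 14) .nil))))) .nil)))))) (.nd (nat_lit 3) (.nd (nat_lit 4) (.nd (nat_lit 5) (.nd (nat_lit 6) 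
(.lf (nat_lit 81924) (.g (nat_lit 2607) (.e (nat_lit 1853) (nat_lit 124) (.e (nat_lit 557108) (nat_lit 15) (.e (nat_lit 188449) (nat_lit 22) (.e (nat_lit 196661) (nat_lit 12) (.e (nat_lit 57748) (nat_lit 201) (.e (nat_lit 2936) (nat_lit 184) (.e (nat_lit 426356) (nat_lit 15) .nil))))))) (.g (nat_lit 5) .nil .nil))) 
(.lf (nat_lit 81988) (.g (nat_lit 2890) (.e (nat_lit 1853) (nat_lit 124) (.e (nat_lit 557108) (nat_lit 15) (.e (nat_lit 188452) (nat_lit 23) (.e (nat_lit 204852) (nat_lit 26) (.e (nat_lit 336328) (nat_lit 19) .nil))))) .nil))) (.nd (nat_lit 6) 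
(.lf (nat_lit 81956) (.g (nat_lit 2186) (.e (nat_lit 1853) (nat_lit 124) (.e (nat_lit 557108) (nat_lit 15) (.e (nat_lit 188452) (nat_lit 23) (.e (nat_lit 204819) (nat_lit 17) (.e (nat_lit 6113) (nat_lit 332) .nil))))) .nil)) 
(.lf (nat_lit 82020) (.g (nat_lit 1304) (.e (nat_lit 1853) (nat_lit 124) (.e (nat_lit 557108) (nat_lit 15) (.e (nat_lit 188455) (nat_lit 24) (.e (nat_lit 237312) (nat_lit 138) .nil)))) .nil)))) (.nd (nat_lit 5) (.nd (nat_lit 6) 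
(.lf (nat_lit 81940) (.g (nat_lit 2577) (.e (nat_lit 1853) (nat_lit 124) (.e (nat_lit 557108) (nat_lit 15) (.e (nat_lit 188449) (nat_lit 22) (.e (nat_lit 204544) (nat_lit 21) .nil)))) .nil)) 
(.lf (nat_lit 82004) (.g (nat_lit 2530) (.e (nat_lit 1853) (nat_lit 124) (.e (nat_lit 557108) (nat_lit 15) (.e (nat_lit 188452) (nat_lit 23) (.e (nat_lit 212736) (nat_lit 32) .nil)))) .nil))) (.nd (nat_lit 6) 
(.lf (nat_lit 81972) (.g (nat_lit 3364) (.e (nat_lit 1853) (nat_lit 124) (.e (nat_lit 557108) (nat_lit 15) (.e (nat_lit 188452) (nat_lit 23) (.e (nat_lit 204846) (nat_lit 24) (.e (nat_lit 319505) (nat_lit 10) (.e (nat_lit 5712) (nat_lit 312) (.e (nat_lit 39) (nat_lit 0) .nil))))))) (.g (nat_lit 4) .nil .nil))) 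
(.lf (nat_lit 82036) (.g (nat_lit 1532) (.e (nat_lit 1853) (nat_lit 124) (.e (nat_lit 557109) (nat_lit 15) (.e (nat_lit 188434) (nat_lit 20) (.e (nat_lit 3272) (nat_lit 199) .nil)))) .nil))))) (.nd (nat_lit 4) (.nd (nat_lit 5) (.nd (nat_lit 6) 
(.lf (nat_lit 81932) (.g (nat_lit 2238) (.e (nat_lit 1853) (nat_lit 124) (.e (nat_lit 557108) (nat_lit 15) (.e (nat_lit 188449) (nat_lit 22) (.e (nat_lit 196661) (nat_lit 12) (.e (nat_lit 65280) (nat_lit 208) (.e (nat_lit 245504) (nat_lit 15) .nil)))))) (.g (nat_lit 4) .nil .nil))) 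
(.lf (nat_lit 81996) (.g (nat_lit 3186) (.e (nat_lit 1853) (nat_lit 124) (.e (nat_lit 557108) (nat_lit 15) (.e (nat_lit 188452) (nat_lit 23) (.e (nat_lit 204859) (nat_lit 26) .nil)))) .nil))) (.nd (nat_lit 6) 
(.lf (nat_lit 81964) (.g (nat_lit 2844) (.e (nat_lit 1853) (nat_lit 124) (.e (nat_lit 557108) (nat_lit 15) (.e (nat_lit 188452) (nat_lit 23) (.e (nat_lit 204821) (nat_lit 17) (.e (nat_lit 7936) (nat_lit 364) (.e (nat_lit 245504) (nat_lit 15) .nil)))))) (.g (nat_lit 4) .nil .nil))) 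
(.lf (nat_lit 82028) (.g (nat_lit 1939) (.e (nat_lit 1853) (nat_lit 124) (.e (nat_lit 557109) (nat_lit 15) (.e (nat_lit 196352) (nat_lit 0) (.e (nat_lit 1859) (nat_lit 124) (.e (nat_lit 557107) (nat_lit 15) (.e (nat_lit 196352) (nat_lit 0) .nil)))))) (.g (nat_lit 5) .nil .nil))))) (.nd (nat_lit 5) (.nd (nat_lit 6) 
(.lf (nat_lit 81948) (.g (nat_lit 2866) (.e (nat_lit 1853) (nat_lit 124) (.e (nat_lit 557108) (nat_lit 15) (.e (nat_lit 188452) (nat_lit 23) (.e (nat_lit 204815) (nat_lit 17) (.e (nat_lit 6720) (nat_lit 361) (.e (nat_lit 179968) (nat_lit 15) .nil)))))) (.g (nat_lit 4) .nil .nil))) 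
(.lf (nat_lit 82012) (.g (nat_lit 3641) (.e (nat_lit 1853) (nat_lit 124) (.e (nat_lit 557108) (nat_lit 15) (.e (nat_lit 188452) (nat_lit 23) (.e (nat_lit 204885) (nat_lit 33) (.e (nat_lit 401435) (nat_lit 9) (.e (nat_lit 426392) (nat_lit 15) .nil)))))) (.g (nat_lit 5) .nil .nil)))) (.nd (nat_lit 6) 
(.lf (nat_lit 81980) (.g (nat_lit 2800) (.e (nat_lit 1853) (nat_lit 124) (.e (nat_lit 557108) (nat_lit 15) (.e (nat_lit 188452) (nat_lit 23) (.e (nat_lit 204852) (nat_lit 26) (.e (nat_lit 336258) (nat_lit 15) .nil))))) .nil)) 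
(.lf (nat_lit 82044) (.g (nat_lit 2752) (.e (nat_lit 1853) (nat_lit 124) (.e (nat_lit 557109) (nat_lit 15) (.e (nat_lit 188434) (nat_lit 20) (.e (nat_lit 3272) (nat_lit 199) (.e (nat_lit 548898) (nat_lit 14) (.e (nat_lit 3004) (nat_lit 186) (.e (nat_lit 450304) (nat_lit 0) .nil))))))) (.g (nat_lit 5) .nil .nil)))))))) 
(.nd (nat_lit 2) (.nd (nat_lit 3) (.nd (nat_lit 4) (.nd (nat_lit 5) (.nd (nat_lit 6) 
(.lf (nat_lit 81922) (.g (nat_lit 1397) (.e (nat_lit 1853) (nat_lit 124) (.e (nat_lit 557108) (nat_lit 15) (.e (nat_lit 188449) (nat_lit 22) (.e (nat_lit 196661) (nat_lit 12) (.e (nat_lit 57712) (nat_lit 176) .nil))))) .nil)) 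
(.lf (nat_lit 81986) (.g (nat_lit 3401) (.e (nat_lit 1853) (nat_lit 124) (.e (nat_lit 557108) (nat_lit 15) (.e (nat_lit 188452) (nat_lit 23) (.e (nat_lit 204852) (nat_lit 26) (.e (nat_lit 336327) (nat_lit 19) (.e (nat_lit 212997) (nat_lit 0) (.e (nat_lit 1074) (nat_lit 81) .nil))))))) (.g (nat_lit 4) .nil .nil)))) (.nd (nat_lit 6) 
(.lf (nat_lit 81954) (.g (nat_lit 3426) (.e (nat_lit 1853) (nat_lit 124) (.e (nat_lit 557108) (nat_lit 15) (.e (nat_lit 188452) (nat_lit 23) (.e (nat_lit 204818) (nat_lit 17) .nil)))) .nil)) 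
(.lf (nat_lit 82018) (.g (nat_lit 4091) (.e (nat_lit 1853) (nat_lit 124) (.e (nat_lit 557108) (nat_lit 15) (.e (nat_lit 188452) (nat_lit 23) (.e (nat_lit 204885) (nat_lit 33) (.e (nat_lit 401444) (nat_lit 9) (.e (nat_lit 433920) (nat_lit 15) .nil)))))) (.g (nat_lit 5) .nil .nil))))) (.nd (nat_lit 5) (.nd (nat_lit 6) 
(.lf (nat_lit 81938) (.g (nat_lit 3716) (.e (nat_lit 1853) (nat_lit 124) (.e (nat_lit 557108) (nat_lit 15) (.e (nat_lit 188449) (nat_lit 22) (.e (nat_lit 196686) (nat_lit 18) .nil)))) .nil)) 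
(.lf (nat_lit 82002) (.g (nat_lit 2259) (.e (nat_lit 1853) (nat_lit 124) (.e (nat_lit 557108) (nat_lit 15) (.e (nat_lit 188452) (nat_lit 23) (.e (nat_lit 204882) (nat_lit 32) .nil)))) .nil))) (.nd (nat_lit 6) 
(.lf (nat_lit 81970) (.g (nat_lit 4121) (.e (nat_lit 1853) (nat_lit 124) (.e (nat_lit 557108) (nat_lit 15) (.e (nat_lit 188452) (nat_lit 23) (.e (nat_lit 204846) (nat_lit 24) (.e (nat_lit 319504) (nat_lit 10) (.e (nat_lit 5714) (nat_lit 312) (.e (nat_lit 39) (nat_lit 0) .nil))))))) (.g (nat_lit 5) .nil .nil))) 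
(.lf (nat_lit 82034) (.g (nat_lit 2411) (.e (nat_lit 1853) (nat_lit 124) (.e (nat_lit 557109) (nat_lit 15) (.e (nat_lit 188434) (nat_lit 20) (.e (nat_lit 3271) (nat_lit 199) (.e (nat_lit 548898) (nat_lit 14) (.e (nat_lit 3004) (nat_lit 186) (.e (nat_lit 450304) (nat_lit 0) .nil))))))) (.g (nat_lit 5) .nil .nil)))))) (.nd (nat_lit 4) (.nd (nat_lit 5) (.nd (nat_lit 6) 
(.lf (nat_lit 81930) (.g (nat_lit 2120) (.e (nat_lit 1853) (nat_lit 124) (.e (nat_lit 557108) (nat_lit 15) (.e (nat_lit 188449) (nat_lit 22) (.e (nat_lit 196661) (nat_lit 12) (.e (nat_lit 65280) (nat_lit 205) (.e (nat_lit 172132) (nat_lit 15) .nil)))))) (.g (nat_lit 4) .nil .nil))) 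
(.lf (nat_lit 81994) (.g (nat_lit 1232) (.e (nat_lit 1853) (nat_lit 124) (.e (nat_lit 557108) (nat_lit 15) (.e (nat_lit 188452) (nat_lit 23) (.e (nat_lit 204855) (nat_lit 26) .nil)))) .nil))) (.nd (nat_lit 6) 
(.lf (nat_lit 81962) (.g (nat_lit 2794) (.e (nat_lit 1853) (nat_lit 124) (.e (nat_lit 557108) (nat_lit 15) (.e (nat_lit 188452) (nat_lit 23) (.e (nat_lit 204821) (nat_lit 17) (.e (nat_lit 7936) (nat_lit 361) (.e (nat_lit 172132) (nat_lit 15) .nil)))))) (.g (nat_lit 4) .nil .nil))) 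
(.lf (nat_lit 82026) (.g (nat_lit 1972) (.e (nat_lit 1853) (nat_lit 124) (.e (nat_lit 557109) (nat_lit 15) (.e (nat_lit 196352) (nat_lit 0) (.e (nat_lit 1855) (nat_lit 124) (.e (nat_lit 557109) (nat_lit 15) (.e (nat_lit 196352) (nat_lit 0) .nil)))))) (.g (nat_lit 5) .nil .nil))))) (.nd (nat_lit 5) (.nd (nat_lit 6) 
(.lf (nat_lit 81946) (.g (nat_lit 2888) (.e (nat_lit 1853) (nat_lit 124) (.e (nat_lit 557108) (nat_lit 15) (.e (nat_lit 188452) (nat_lit 23) (.e (nat_lit 204815) (nat_lit 17) (.e (nat_lit 6718) (nat_lit 361) (.e (nat_lit 179968) (nat_lit 15) .nil)))))) (.g (nat_lit 4) .nil .nil))) 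
(.lf (nat_lit 82010) (.g (nat_lit 4197) (.e (nat_lit 1853) (nat_lit 124) (.e (nat_lit 557108) (nat_lit 15) (.e (nat_lit 188452) (nat_lit 23) (.e (nat_lit 204885) (nat_lit 33) (.e (nat_lit 401434) (nat_lit 9) (.e (nat_lit 426392) (nat_lit 15) .nil)))))) (.g (nat_lit 0) .nil .nil)))) (.nd (nat_lit 6) 
(.lf (nat_lit 81978) (.g (nat_lit 1837) (.e (nat_lit 1853) (nat_lit 124) (.e (nat_lit 557108) (nat_lit 15) (.e (nat_lit 188452) (nat_lit 23) (.e (nat_lit 204852) (nat_lit 26) .nil)))) .nil)) 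
(.lf (nat_lit 82042) (.g (nat_lit 2314) (.e (nat_lit 1853) (nat_lit 124) (.e (nat_lit 557109) (nat_lit 15) (.e (nat_lit 188434) (nat_lit 20) (.e (nat_lit 3272) (nat_lit 199) (.e (nat_lit 548898) (nat_lit 14) (.e (nat_lit 2989) (nat_lit 186) (.e (nat_lit 450304) (nat_lit 0) .nil))))))) (.g (nat_lit 4) .nil .nil))))))) (.nd (nat_lit 3) (.nd (nat_lit 4) (.nd (nat_lit 5) (.nd (nat_lit 6) 
(.lf (nat_lit 81926) (.g (nat_lit 2685) (.e (nat_lit 1853) (nat_lit 124) (.e (nat_lit 557108) (nat_lit 15) (.e (nat_lit 188449) (nat_lit 22) (.e (nat_lit 196661) (nat_lit 12) (.e (nat_lit 57748) (nat_lit 201) (.e (nat_lit 2939) (nat_lit 184) (.e (nat_lit 426356) (nat_lit 15) .nil))))))) (.g (nat_lit 6) .nil .nil))) 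
(.lf (nat_lit 81990) (.g (nat_lit 2962) (.e (nat_lit 1853) (nat_lit 124) (.e (nat_lit 557108) (nat_lit 15) (.e (nat_lit 188452) (nat_lit 23) (.e (nat_lit 204852) (nat_lit 26) (.e (nat_lit 336355) (nat_lit 24) .nil))))) .nil))) (.nd (nat_lit 6) 
(.lf (nat_lit 81958) (.g (nat_lit 1465) (.e (nat_lit 1853) (nat_lit 124) (.e (nat_lit 557108) (nat_lit 15) (.e (nat_lit 188452) (nat_lit 23) (.e (nat_lit 204821) (nat_lit 17) .nil)))) .nil)) 
(.lf (nat_lit 82022) (.g (nat_lit 767) (.e (nat_lit 1853) (nat_lit 124) (.e (nat_lit 557108) (nat_lit 15) (.e (nat_lit 188458) (nat_lit 25) .nil))) .nil)))) (.nd (nat_lit 5) (.nd (nat_lit 6) 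
(.lf (nat_lit 81942) (.g (nat_lit 2577) (.e (nat_lit 1853) (nat_lit 124) (.e (nat_lit 557108) (nat_lit 15) (.e (nat_lit 188449) (nat_lit 22) (.e (nat_lit 204544) (nat_lit 22) .nil)))) .nil)) 
(.lf (nat_lit 82006) (.g (nat_lit 3264) (.e (nat_lit 1853) (nat_lit 124) (.e (nat_lit 557108) (nat_lit 15) (.e (nat_lit 188452) (nat_lit 23) (.e (nat_lit 204884) (nat_lit 33) (.e (nat_lit 401438) (nat_lit 9) (.e (nat_lit 426392) (nat_lit 15) .nil)))))) (.g (nat_lit 6) .nil .nil)))) (.nd (nat_lit 6) 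
(.lf (nat_lit 81974) (.g (nat_lit 2660) (.e (nat_lit 1853) (nat_lit 124) (.e (nat_lit 557108) (nat_lit 15) (.e (nat_lit 188452) (nat_lit 23) (.e (nat_lit 204846) (nat_lit 24) (.e (nat_lit 319538) (nat_lit 19) .nil))))) .nil)) 
(.lf (nat_lit 82038) (.g (nat_lit 2348) (.e (nat_lit 1853) (nat_lit 124) (.e (nat_lit 557109) (nat_lit 15) (.e (nat_lit 188434) (nat_lit 20) (.e (nat_lit 3272) (nat_lit 199) (.e (nat_lit 548897) (nat_lit 14) (.e (nat_lit 2988) (nat_lit 186) (.e (nat_lit 450304) (nat_lit 0) .nil))))))) (.g (nat_lit 4) .nil .nil)))))) (.nd (nat_lit 4) (.nd (nat_lit 5) (.nd (nat_lit 6) 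
(.lf (nat_lit 81934) (.g (nat_lit 3722) (.e (nat_lit 1853) (nat_lit 124) (.e (nat_lit 557108) (nat_lit 15) (.e (nat_lit 188449) (nat_lit 22) (.e (nat_lit 196663) (nat_lit 13) .nil)))) .nil)) 
(.lf (nat_lit 81998) (.g (nat_lit 3398) (.e (nat_lit 1853) (nat_lit 124) (.e (nat_lit 557108) (nat_lit 15) (.e (nat_lit 188452) (nat_lit 23) (.e (nat_lit 204880) (nat_lit 32) (.e (nat_lit 385103) (nat_lit 50) .nil))))) .nil))) (.nd (nat_lit 6) 
(.lf (nat_lit 81966) (.g (nat_lit 2502) (.e (nat_lit 1853) (nat_lit 124) (.e (nat_lit 557108) (nat_lit 15) (.e (nat_lit 188452) (nat_lit 23) (.e (nat_lit 204830) (nat_lit 18) .nil)))) .nil)) 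
(.lf (nat_lit 82030) (.g (nat_lit 1181) (.e (nat_lit 1853) (nat_lit 124) (.e (nat_lit 557109) (nat_lit 15) (.e (nat_lit 196352) (nat_lit 0) (.e (nat_lit 1860) (nat_lit 124) (.e (nat_lit 557109) (nat_lit 15) (.e (nat_lit 196352) (nat_lit 0) .nil)))))) (.g (nat_lit 4) .nil .nil))))) (.nd (nat_lit 5) (.nd (nat_lit 6) 
(.lf (nat_lit 81950) (.g (nat_lit 4278) (.e (nat_lit 1853) (nat_lit 124) (.e (nat_lit 557108) (nat_lit 15) (.e (nat_lit 188452) (nat_lit 23) (.e (nat_lit 204816) (nat_lit 17) (.e (nat_lit 6718) (nat_lit 361) (.e (nat_lit 172132) (nat_lit 15) .nil)))))) (.g (nat_lit 6) .nil .nil))) 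
(.lf (nat_lit 82014) (.g (nat_lit 3609) (.e (nat_lit 1853) (nat_lit 124) (.e (nat_lit 557108) (nat_lit 15) (.e (nat_lit 188452) (nat_lit 23) (.e (nat_lit 204885) (nat_lit 33) (.e (nat_lit 401440) (nat_lit 9) (.e (nat_lit 433920) (nat_lit 15) .nil)))))) (.g (nat_lit 5) .nil .nil)))) (.nd (nat_lit 6) 
(.lf (nat_lit 81982) (.g (nat_lit 3531) (.e (nat_lit 1853) (nat_lit 124) (.e (nat_lit 557108) (nat_lit 15) (.e (nat_lit 188452) (nat_lit 23) (.e (nat_lit 204852) (nat_lit 26) (.e (nat_lit 336262) (nat_lit 15) (.e (nat_lit 3747) (nat_lit 228) (.e (nat_lit 786450) (nat_lit 15) .nil))))))) (.g (nat_lit 4) .nil .nil))) 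
(.lf (nat_lit 82046) (.g (nat_lit 1085) (.e (nat_lit 1853) (nat_lit 124) (.e (nat_lit 557109) (nat_lit 15) (.e (nat_lit 188435) (nat_lit 20) .nil))) .nil)))))))) (.nd (nat_lit 1) (.nd (nat_lit 2) (.nd (nat_lit 3) (.nd (nat_lit 4) (.nd (nat_lit 5) (.nd (nat_lit 6) 
(.lf (nat_lit 81921) (.g (nat_lit 950) (.e (nat_lit 1853) (nat_lit 124) (.e (nat_lit 557108) (nat_lit 15) (.e (nat_lit 188449) (nat_lit 22) (.e (nat_lit 196661) (nat_lit 12) .nil)))) .nil)) 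
(.lf (nat_lit 81985) (.g (nat_lit 3136) (.e (nat_lit 1853) (nat_lit 124) (.e (nat_lit 557108) (nat_lit 15) (.e (nat_lit 188452) (nat_lit 23) (.e (nat_lit 204852) (nat_lit 26) (.e (nat_lit 336306) (nat_lit 15) .nil))))) .nil))) (.nd (nat_lit 6) 
(.lf (nat_lit 81953) (.g (nat_lit 1768) (.e (nat_lit 1853) (nat_lit 124) (.e (nat_lit 557108) (nat_lit 15) (.e (nat_lit 188452) (nat_lit 23) (.e (nat_lit 204817) (nat_lit 17) .nil)))) .nil)) 
(.lf (nat_lit 82017) (.g (nat_lit 4442) (.e (nat_lit 1853) (nat_lit 124) (.e (nat_lit 557108) (nat_lit 15) (.e (nat_lit 188452) (nat_lit 23) (.e (nat_lit 204885) (nat_lit 33) (.e (nat_lit 401444) (nat_lit 9) (.e (nat_lit 426383) (nat_lit 15) .nil)))))) (.g (nat_lit 5) .nil .nil))))) (.nd (nat_lit 5) (.nd (nat_lit 6) 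
(.lf (nat_lit 81937) (.g (nat_lit 3346) (.e (nat_lit 1853) (nat_lit 124) (.e (nat_lit 557108) (nat_lit 15) (.e (nat_lit 188449) (nat_lit 22) (.e (nat_lit 196683) (nat_lit 18) .nil)))) .nil)) 
(.lf (nat_lit 82001) (.g (nat_lit 2526) (.e (nat_lit 1853) (nat_lit 124) (.e (nat_lit 557108) (nat_lit 15) (.e (nat_lit 188452) (nat_lit 23) (.e (nat_lit 204881) (nat_lit 32) (.e (nat_lit 385104) (nat_lit 50) .nil))))) .nil))) (.nd (nat_lit 6) 
(.lf (nat_lit 81969) (.g (nat_lit 2147) (.e (nat_lit 1853) (nat_lit 124) (.e (nat_lit 557108) (nat_lit 15) (.e (nat_lit 188452) (nat_lit 23) (.e (nat_lit 204846) (nat_lit 24) .nil)))) .nil)) 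
(.lf (nat_lit 82033) (.g (nat_lit 2325) (.e (nat_lit 1853) (nat_lit 124) (.e (nat_lit 557109) (nat_lit 15) (.e (nat_lit 188434) (nat_lit 20) (.e (nat_lit 3271) (nat_lit 199) (.e (nat_lit 548898) (nat_lit 14) (.e (nat_lit 2988) (nat_lit 186) (.e (nat_lit 450304) (nat_lit 0) .nil))))))) (.g (nat_lit 5) .nil .nil)))))) (.nd (nat_lit 4) (.nd (nat_lit 5) (.nd (nat_lit 6) 
(.lf (nat_lit 81929) (.g (nat_lit 1375) (.e (nat_lit 1853) (nat_lit 124) (.e (nat_lit 557108) (nat_lit 15) (.e (nat_lit 188449) (nat_lit 22) (.e (nat_lit 196661) (nat_lit 12) (.e (nat_lit 57751) (nat_lit 201) .nil))))) .nil)) 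
(.lf (nat_lit 81993) (.g (nat_lit 4717) (.e (nat_lit 1853) (nat_lit 124) (.e (nat_lit 557108) (nat_lit 15) (.e (nat_lit 188452) (nat_lit 23) (.e (nat_lit 204854) (nat_lit 26) (.e (nat_lit 336306) (nat_lit 15) .nil))))) .nil))) (.nd (nat_lit 6) 
(.lf (nat_lit 81961) (.g (nat_lit 1959) (.e (nat_lit 1853) (nat_lit 124) (.e (nat_lit 557108) (nat_lit 15) (.e (nat_lit 188452) (nat_lit 23) (.e (nat_lit 204821) (nat_lit 17) (.e (nat_lit 6674) (nat_lit 357) .nil))))) .nil)) 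
(.lf (nat_lit 82025) (.g (nat_lit 1765) (.e (nat_lit 1853) (nat_lit 124) (.e (nat_lit 557109) (nat_lit 15) (.e (nat_lit 196352) (nat_lit 0) (.e (nat_lit 1855) (nat_lit 124) (.e (nat_lit 557107) (nat_lit 15) (.e (nat_lit 196352) (nat_lit 0) .nil)))))) (.g (nat_lit 5) .nil .nil))))) (.nd (nat_lit 5) (.nd (nat_lit 6) 
(.lf (nat_lit 81945) (.g (nat_lit 3343) (.e (nat_lit 1853) (nat_lit 124) (.e (nat_lit 557108) (nat_lit 15) (.e (nat_lit 188452) (nat_lit 23) (.e (nat_lit 204815) (nat_lit 17) (.e (nat_lit 6718) (nat_lit 361) (.e (nat_lit 172132) (nat_lit 15) .nil)))))) (.g (nat_lit 5) .nil .nil))) 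
(.lf (nat_lit 82009) (.g (nat_lit 3263) (.e (nat_lit 1853) (nat_lit 124) (.e (nat_lit 557108) (nat_lit 15) (.e (nat_lit 188452) (nat_lit 23) (.e (nat_lit 204885) (nat_lit 33) (.e (nat_lit 401434) (nat_lit 9) (.e (nat_lit 426357) (nat_lit 15) .nil)))))) (.g (nat_lit 4) .nil .nil)))) (.nd (nat_lit 6) 
(.lf (nat_lit 81977) (.g (nat_lit 2811) (.e (nat_lit 1853) (nat_lit 124) (.e (nat_lit 557108) (nat_lit 15) (.e (nat_lit 188452) (nat_lit 23) (.e (nat_lit 204851) (nat_lit 26) .nil)))) .nil)) 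
(.lf (nat_lit 82041) (.g (nat_lit 2720) (.e (nat_lit 1853) (nat_lit 124) (.e (nat_lit 557109) (nat_lit 15) (.e (nat_lit 188434) (nat_lit 20) (.e (nat_lit 3272) (nat_lit 199) (.e (nat_lit 548898) (nat_lit 14) (.e (nat_lit 2988) (nat_lit 186) (.e (nat_lit 450304) (nat_lit 0) .nil))))))) (.g (nat_lit 5) .nil .nil))))))) (.nd (nat_lit 3) (.nd (nat_lit 4) (.nd (nat_lit 5) (.nd (nat_lit 6) 
(.lf (nat_lit 81925) (.g (nat_lit 1894) (.e (nat_lit 1853) (nat_lit 124) (.e (nat_lit 557108) (nat_lit 15) (.e (nat_lit 188449) (nat_lit 22) (.e (nat_lit 196661) (nat_lit 12) (.e (nat_lit 57748) (nat_lit 201) (.e (nat_lit 2936) (nat_lit 184) (.e (nat_lit 433920) (nat_lit 15) .nil))))))) (.g (nat_lit 4) .nil .nil))) 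
(.lf (nat_lit 81989) (.g (nat_lit 2974) (.e (nat_lit 1853) (nat_lit 124) (.e (nat_lit 557108) (nat_lit 15) (.e (nat_lit 188452) (nat_lit 23) (.e (nat_lit 204852) (nat_lit 26) (.e (nat_lit 336328) (nat_lit 19) (.e (nat_lit 212994) (nat_lit 0) (.e (nat_lit 1074) (nat_lit 81) .nil))))))) (.g (nat_lit 4) .nil .nil)))) (.nd (nat_lit 6) 
(.lf (nat_lit 81957) (.g (nat_lit 2533) (.e (nat_lit 1853) (nat_lit 124) (.e (nat_lit 557108) (nat_lit 15) (.e (nat_lit 188452) (nat_lit 23) (.e (nat_lit 204819) (nat_lit 17) (.e (nat_lit 7936) (nat_lit 361) (.e (nat_lit 172132) (nat_lit 15) .nil)))))) (.g (nat_lit 4) .nil .nil))) 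
(.lf (nat_lit 82021) (.g (nat_lit 3134) (.e (nat_lit 1853) (nat_lit 124) (.e (nat_lit 557108) (nat_lit 15) (.e (nat_lit 188455) (nat_lit 24) (.e (nat_lit 237312) (nat_lit 138) (.e (nat_lit 163931) (nat_lit 17) (.e (nat_lit 466945) (nat_lit 0) .nil)))))) (.g (nat_lit 5) .nil .nil))))) (.nd (nat_lit 5) (.nd (nat_lit 6) 
(.lf (nat_lit 81941) (.g (nat_lit 4342) (.e (nat_lit 1853) (nat_lit 124) (.e (nat_lit 557108) (nat_lit 15) (.e (nat_lit 188449) (nat_lit 22) (.e (nat_lit 196700) (nat_lit 22) .nil)))) .nil)) 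
(.lf (nat_lit 82005) (.g (nat_lit 3280) (.e (nat_lit 1853) (nat_lit 124) (.e (nat_lit 557108) (nat_lit 15) (.e (nat_lit 188452) (nat_lit 23) (.e (nat_lit 204884) (nat_lit 33) (.e (nat_lit 401437) (nat_lit 9) (.e (nat_lit 426392) (nat_lit 15) .nil)))))) (.g (nat_lit 5) .nil .nil)))) (.nd (nat_lit 6) 
(.lf (nat_lit 81973) (.g (nat_lit 4911) (.e (nat_lit 1853) (nat_lit 124) (.e (nat_lit 557108) (nat_lit 15) (.e (nat_lit 188452) (nat_lit 23) (.e (nat_lit 204846) (nat_lit 24) (.e (nat_lit 319505) (nat_lit 10) (.e (nat_lit 5714) (nat_lit 312) (.e (nat_lit 39) (nat_lit 0) .nil))))))) (.g (nat_lit 6) .nil .nil))) 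
(.lf (nat_lit 82037) (.g (nat_lit 2393) (.e (nat_lit 1853) (nat_lit 124) (.e (nat_lit 557109) (nat_lit 15) (.e (nat_lit 188434) (nat_lit 20) (.e (nat_lit 3272) (nat_lit 199) (.e (nat_lit 548896) (nat_lit 14) (.e (nat_lit 3004) (nat_lit 186) (.e (nat_lit 450304) (nat_lit 0) .nil))))))) (.g (nat_lit 4) .nil .nil)))))) (.nd (nat_lit 4) (.nd (nat_lit 5) (.nd (nat_lit 6) 
(.lf (nat_lit 81933) (.g (nat_lit 3715) (.e (nat_lit 1853) (nat_lit 124) (.e (nat_lit 557108) (nat_lit 15) (.e (nat_lit 188449) (nat_lit 22) (.e (nat_lit 196662) (nat_lit 13) .nil)))) .nil)) 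
(.lf (nat_lit 81997) (.g (nat_lit 3210) (.e (nat_lit 1853) (nat_lit 124) (.e (nat_lit 557108) (nat_lit 15) (.e (nat_lit 188452) (nat_lit 23) (.e (nat_lit 204880) (nat_lit 32) (.e (nat_lit 385102) (nat_lit 50) (.e (nat_lit 786450) (nat_lit 15) .nil)))))) (.g (nat_lit 4) .nil .nil)))) (.nd (nat_lit 6) 
(.lf (nat_lit 81965) (.g (nat_lit 2530) (.e (nat_lit 1853) (nat_lit 124) (.e (nat_lit 557108) (nat_lit 15) (.e (nat_lit 188452) (nat_lit 23) (.e (nat_lit 212736) (nat_lit 17) .nil)))) .nil)) 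
(.lf (nat_lit 82029) (.g (nat_lit 1820) (.e (nat_lit 1853) (nat_lit 124) (.e (nat_lit 557109) (nat_lit 15) (.e (nat_lit 196352) (nat_lit 0) (.e (nat_lit 1859) (nat_lit 124) (.e (nat_lit 557109) (nat_lit 15) (.e (nat_lit 196352) (nat_lit 0) .nil)))))) (.g (nat_lit 5) .nil .nil))))) (.nd (nat_lit 5) (.nd (nat_lit 6) 
(.lf (nat_lit 81949) (.g (nat_lit 1958) (.e (nat_lit 1853) (nat_lit 124) (.e (nat_lit 557108) (nat_lit 15) (.e (nat_lit 188452) (nat_lit 23) (.e (nat_lit 204816) (nat_lit 17) .nil)))) .nil)) 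
(.lf (nat_lit 82013) (.g (nat_lit 3932) (.e (nat_lit 1853) (nat_lit 124) (.e (nat_lit 557108) (nat_lit 15) (.e (nat_lit 188452) (nat_lit 23) (.e (nat_lit 204885) (nat_lit 33) (.e (nat_lit 401440) (nat_lit 9) (.e (nat_lit 426394) (nat_lit 15) .nil)))))) (.g (nat_lit 0) .nil .nil)))) (.nd (nat_lit 6) 
(.lf (nat_lit 81981) (.g (nat_lit 3441) (.e (nat_lit 1853) (nat_lit 124) (.e (nat_lit 557108) (nat_lit 15) (.e (nat_lit 188452) (nat_lit 23) (.e (nat_lit 204852) (nat_lit 26) (.e (nat_lit 336262) (nat_lit 15) .nil))))) .nil)) 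
(.lf (nat_lit 82045) (.g (nat_lit 3333) (.e (nat_lit 1853) (nat_lit 124) (.e (nat_lit 557109) (nat_lit 15) (.e (nat_lit 188434) (nat_lit 20) (.e (nat_lit 3272) (nat_lit 199) (.e (nat_lit 548915) (nat_lit 20) (.e (nat_lit 196352) (nat_lit 0) .nil)))))) (.g (nat_lit 5) .nil .nil)))))))) (.nd (nat_lit 2) (.nd (nat_lit 3) (.nd (nat_lit 4) (.nd (nat_lit 5) (.nd (nat_lit 6) 
(.lf (nat_lit 81923) (.g (nat_lit 1362) (.e (nat_lit 1853) (nat_lit 124) (.e (nat_lit 557108) (nat_lit 15) (.e (nat_lit 188449) (nat_lit 22) (.e (nat_lit 196661) (nat_lit 12) (.e (nat_lit 57722) (nat_lit 178) .nil))))) .nil)) 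
(.lf (nat_lit 81987) (.g (nat_lit 3231) (.e (nat_lit 1853) (nat_lit 124) (.e (nat_lit 557108) (nat_lit 15) (.e (nat_lit 188452) (nat_lit 23) (.e (nat_lit 204852) (nat_lit 26) (.e (nat_lit 336327) (nat_lit 19) (.e (nat_lit 212998) (nat_lit 0) (.e (nat_lit 1074) (nat_lit 81) .nil))))))) (.g (nat_lit 4) .nil .nil)))) (.nd (nat_lit 6) 
(.lf (nat_lit 81955) (.g (nat_lit 1547) (.e (nat_lit 1853) (nat_lit 124) (.e (nat_lit 557108) (nat_lit 15) (.e (nat_lit 188452) (nat_lit 23) (.e (nat_lit 204819) (nat_lit 17) .nil)))) .nil)) 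
(.lf (nat_lit 82019) (.g (nat_lit 737) (.e (nat_lit 1853) (nat_lit 124) (.e (nat_lit 557108) (nat_lit 15) (.e (nat_lit 188455) (nat_lit 24) .nil))) .nil)))) (.nd (nat_lit 5) (.nd (nat_lit 6) 
(.lf (nat_lit 81939) (.g (nat_lit 2577) (.e (nat_lit 1853) (nat_lit 124) (.e (nat_lit 557108) (nat_lit 15) (.e (nat_lit 188449) (nat_lit 22) (.e (nat_lit 204544) (nat_lit 18) .nil)))) .nil)) 
(.lf (nat_lit 82003) (.g (nat_lit 3185) (.e (nat_lit 1853) (nat_lit 124) (.e (nat_lit 557108) (nat_lit 15) (.e (nat_lit 188452) (nat_lit 23) (.e (nat_lit 204882) (nat_lit 32) (.e (nat_lit 385102) (nat_lit 50) (.e (nat_lit 786450) (nat_lit 15) .nil)))))) (.g (nat_lit 4) .nil .nil)))) (.nd (nat_lit 6) 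
(.lf (nat_lit 81971) (.g (nat_lit 3307) (.e (nat_lit 1853) (nat_lit 124) (.e (nat_lit 557108) (nat_lit 15) (.e (nat_lit 188452) (nat_lit 23) (.e (nat_lit 204846) (nat_lit 24) (.e (nat_lit 319504) (nat_lit 10) (.e (nat_lit 5734) (nat_lit 312) (.e (nat_lit 40) (nat_lit 0) .nil))))))) (.g (nat_lit 4) .nil .nil))) 
(.lf (nat_lit 82035) (.g (nat_lit 2982) (.e (nat_lit 1853) (nat_lit 124) (.e (nat_lit 557109) (nat_lit 15) (.e (nat_lit 188434) (nat_lit 20) (.e (nat_lit 3271) (nat_lit 199) (.e (nat_lit 548915) (nat_lit 20) (.e (nat_lit 196352) (nat_lit 0) .nil)))))) (.g (nat_lit 5) .nil .nil)))))) (.nd (nat_lit 4) (.nd (nat_lit 5) (.nd (nat_lit 6) 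
(.lf (nat_lit 81931) (.g (nat_lit 1988) (.e (nat_lit 1853) (nat_lit 124) (.e (nat_lit 557108) (nat_lit 15) (.e (nat_lit 188449) (nat_lit 22) (.e (nat_lit 196661) (nat_lit 12) (.e (nat_lit 65280) (nat_lit 208) (.e (nat_lit 237626) (nat_lit 15) .nil)))))) (.g (nat_lit 4) .nil .nil))) 
(.lf (nat_lit 81995) (.g (nat_lit 2084) (.e (nat_lit 1853) (nat_lit 124) (.e (nat_lit 557108) (nat_lit 15) (.e (nat_lit 188452) (nat_lit 23) (.e (nat_lit 204855) (nat_lit 26) (.e (nat_lit 336282) (nat_lit 15) .nil))))) .nil))) (.nd (nat_lit 6) 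
(.lf (nat_lit 81963) (.g (nat_lit 2481) (.e (nat_lit 1853) (nat_lit 124) (.e (nat_lit 557108) (nat_lit 15) (.e (nat_lit 188452) (nat_lit 23) (.e (nat_lit 204821) (nat_lit 17) (.e (nat_lit 7936) (nat_lit 364) (.e (nat_lit 237626) (nat_lit 15) .nil)))))) (.g (nat_lit 4) .nil .nil))) 
(.lf (nat_lit 82027) (.g (nat_lit 1432) (.e (nat_lit 1853) (nat_lit 124) (.e (nat_lit 557109) (nat_lit 15) (.e (nat_lit 196352) (nat_lit 0) (.e (nat_lit 1858) (nat_lit 124) (.e (nat_lit 557107) (nat_lit 15) (.e (nat_lit 196352) (nat_lit 0) .nil)))))) (.g (nat_lit 4) .nil .nil))))) (.nd (nat_lit 5) (.nd (nat_lit 6) 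
(.lf (nat_lit 81947) (.g (nat_lit 3326) (.e (nat_lit 1853) (nat_lit 124) (.e (nat_lit 557108) (nat_lit 15) (.e (nat_lit 188452) (nat_lit 23) (.e (nat_lit 204815) (nat_lit 17) (.e (nat_lit 6720) (nat_lit 361) (.e (nat_lit 172132) (nat_lit 15) .nil)))))) (.g (nat_lit 6) .nil .nil))) 
(.lf (nat_lit 82011) (.g (nat_lit 3061) (.e (nat_lit 1853) (nat_lit 124) (.e (nat_lit 557108) (nat_lit 15) (.e (nat_lit 188452) (nat_lit 23) (.e (nat_lit 204885) (nat_lit 33) (.e (nat_lit 401434) (nat_lit 9) (.e (nat_lit 426394) (nat_lit 15) .nil)))))) (.g (nat_lit 4) .nil .nil)))) (.nd (nat_lit 6) 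
(.lf (nat_lit 81979) (.g (nat_lit 3098) (.e (nat_lit 1853) (nat_lit 124) (.e (nat_lit 557108) (nat_lit 15) (.e (nat_lit 188452) (nat_lit 23) (.e (nat_lit 204852) (nat_lit 26) (.e (nat_lit 336257) (nat_lit 15) .nil))))) .nil)) 
(.lf (nat_lit 82043) (.g (nat_lit 2414) (.e (nat_lit 1853) (nat_lit 124) (.e (nat_lit 557109) (nat_lit 15) (.e (nat_lit 188434) (nat_lit 20) (.e (nat_lit 3272) (nat_lit 199) (.e (nat_lit 548898) (nat_lit 14) (.e (nat_lit 2998) (nat_lit 186) (.e (nat_lit 450304) (nat_lit 0) .nil))))))) (.g (nat_lit 4) .nil .nil))))))) (.nd (nat_lit 3) (.nd (nat_lit 4) (.nd (nat_lit 5) (.nd (nat_lit 6) 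
(.lf (nat_lit 81927) (.g (nat_lit 1919) (.e (nat_lit 1853) (nat_lit 124) (.e (nat_lit 557108) (nat_lit 15) (.e (nat_lit 188449) (nat_lit 22) (.e (nat_lit 196661) (nat_lit 12) (.e (nat_lit 57748) (nat_lit 201) (.e (nat_lit 2939) (nat_lit 184) (.e (nat_lit 433920) (nat_lit 15) .nil))))))) (.g (nat_lit 4) .nil .nil))) 
(.lf (nat_lit 81991) (.g (nat_lit 3151) (.e (nat_lit 1853) (nat_lit 124) (.e (nat_lit 557108) (nat_lit 15) (.e (nat_lit 188452) (nat_lit 23) (.e (nat_lit 204852) (nat_lit 26) (.e (nat_lit 336355) (nat_lit 24) (.e (nat_lit 262150) (nat_lit 0) (.e (nat_lit 1074) (nat_lit 81) .nil))))))) (.g (nat_lit 4) .nil .nil)))) (.nd (nat_lit 6) 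
(.lf (nat_lit 81959) (.g (nat_lit 1947) (.e (nat_lit 1853) (nat_lit 124) (.e (nat_lit 557108) (nat_lit 15) (.e (nat_lit 188452) (nat_lit 23) (.e (nat_lit 204821) (nat_lit 17) (.e (nat_lit 6223) (nat_lit 334) .nil))))) .nil)) 
(.lf (nat_lit 82023) (.g (nat_lit 826) (.e (nat_lit 1853) (nat_lit 124) (.e (nat_lit 557109) (nat_lit 15) (.e (nat_lit 188418) (nat_lit 0) .nil))) .nil)))) (.nd (nat_lit 5) (.nd (nat_lit 6) 
(.lf (nat_lit 81943) (.g (nat_lit 3596) (.e (nat_lit 1853) (nat_lit 124) (.e (nat_lit 557108) (nat_lit 15) (.e (nat_lit 188450) (nat_lit 23) (.e (nat_lit 204880) (nat_lit 32) (.e (nat_lit 385105) (nat_lit 50) (.e (nat_lit 786450) (nat_lit 15) .nil)))))) (.g (nat_lit 4) .nil .nil))) 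
(.lf (nat_lit 82007) (.g (nat_lit 2018) (.e (nat_lit 1853) (nat_lit 124) (.e (nat_lit 557108) (nat_lit 15) (.e (nat_lit 188452) (nat_lit 23) (.e (nat_lit 204884) (nat_lit 33) (.e (nat_lit 401440) (nat_lit 9) .nil))))) .nil))) (.nd (nat_lit 6) 
(.lf (nat_lit 81975) (.g (nat_lit 3150) (.e (nat_lit 1853) (nat_lit 124) (.e (nat_lit 557108) (nat_lit 15) (.e (nat_lit 188452) (nat_lit 23) (.e (nat_lit 204848) (nat_lit 25) .nil)))) .nil)) 
(.lf (nat_lit 82039) (.g (nat_lit 2354) (.e (nat_lit 1853) (nat_lit 124) (.e (nat_lit 557109) (nat_lit 15) (.e (nat_lit 188434) (nat_lit 20) (.e (nat_lit 3272) (nat_lit 199) (.e (nat_lit 548897) (nat_lit 14) (.e (nat_lit 3004) (nat_lit 186) (.e (nat_lit 450304) (nat_lit 0) .nil))))))) (.g (nat_lit 4) .nil .nil)))))) (.nd (nat_lit 4) (.nd (nat_lit 5) (.nd (nat_lit 6) 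
(.lf (nat_lit 81935) (.g (nat_lit 2277) (.e (nat_lit 1853) (nat_lit 124) (.e (nat_lit 557108) (nat_lit 15) (.e (nat_lit 188449) (nat_lit 22) (.e (nat_lit 196665) (nat_lit 13) .nil)))) .nil)) 
(.lf (nat_lit 81999) (.g (nat_lit 4477) (.e (nat_lit 1853) (nat_lit 124) (.e (nat_lit 557108) (nat_lit 15) (.e (nat_lit 188452) (nat_lit 23) (.e (nat_lit 204880) (nat_lit 32) (.e (nat_lit 385106) (nat_lit 50) (.e (nat_lit 786450) (nat_lit 15) .nil)))))) (.g (nat_lit 0) .nil .nil)))) (.nd (nat_lit 6) 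
(.lf (nat_lit 81967) (.g (nat_lit 2675) (.e (nat_lit 1853) (nat_lit 124) (.e (nat_lit 557108) (nat_lit 15) (.e (nat_lit 188452) (nat_lit 23) (.e (nat_lit 204845) (nat_lit 24) (.e (nat_lit 319538) (nat_lit 19) (.e (nat_lit 311346) (nat_lit 15) .nil)))))) (.g (nat_lit 4) .nil .nil))) 
(.lf (nat_lit 82031) (.g (nat_lit 1709) (.e (nat_lit 1853) (nat_lit 124) (.e (nat_lit 557109) (nat_lit 15) (.e (nat_lit 188434) (nat_lit 20) (.e (nat_lit 3270) (nat_lit 199) .nil)))) .nil)))) (.nd (nat_lit 5) (.nd (nat_lit 6) 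
(.lf (nat_lit 81951) (.g (nat_lit 3827) (.e (nat_lit 1853) (nat_lit 124) (.e (nat_lit 557108) (nat_lit 15) (.e (nat_lit 188452) (nat_lit 23) (.e (nat_lit 204816) (nat_lit 17) (.e (nat_lit 6718) (nat_lit 361) (.e (nat_lit 179968) (nat_lit 15) .nil)))))) (.g (nat_lit 5) .nil .nil))) 
(.lf (nat_lit 82015) (.g (nat_lit 3595) (.e (nat_lit 1853) (nat_lit 124) (.e (nat_lit 557108) (nat_lit 15) (.e (nat_lit 188452) (nat_lit 23) (.e (nat_lit 204885) (nat_lit 33) (.e (nat_lit 401443) (nat_lit 9) (.e (nat_lit 426384) (nat_lit 15) .nil)))))) (.g (nat_lit 4) .nil .nil)))) (.nd (nat_lit 6) 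
(.lf (nat_lit 81983) (.g (nat_lit 3441) (.e (nat_lit 1853) (nat_lit 124) (.e (nat_lit 557108) (nat_lit 15) (.e (nat_lit 188452) (nat_lit 23) (.e (nat_lit 204852) (nat_lit 26) (.e (nat_lit 336265) (nat_lit 15) .nil))))) .nil)) 
(.lf (nat_lit 82047) (.g (nat_lit 1729) (.e (nat_lit 1853) (nat_lit 124) (.e (nat_lit 557109) (nat_lit 15) (.e (nat_lit 188441) (nat_lit 20) (.e (nat_lit 3271) (nat_lit 199) .nil)))) .nil)))))))))

noncomputable def tv1111 : DT := (.nd (nat_lit 0) (.nd (nat_lit 1) (.nd (nat_lit 2) (.nd (nat_lit 3) (.nd (nat_lit 4) (.nd (nat_lit 5) (.nd (nat_lit 6) 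
(.lf (nat_lit 82048) (.g (nat_lit 1735) (.e (nat_lit 1853) (nat_lit 124) (.e (nat_lit 557109) (nat_lit 15) (.e (nat_lit 188441) (nat_lit 20) (.e (nat_lit 3272) (nat_lit 199) .nil)))) .nil)) 
(.lf (nat_lit 82112) (.g (nat_lit 4417) (.e (nat_lit 1854) (nat_lit 124) (.e (nat_lit 557109) (nat_lit 15) (.e (nat_lit 188452) (nat_lit 23) (.e (nat_lit 204852) (nat_lit 26) .nil)))) .nil))) (.nd (nat_lit 6) 
(.lf (nat_lit 82080) (.g (nat_lit 2486) (.e (nat_lit 1853) (nat_lit 124) (.e (nat_lit 557109) (nat_lit 15) (.e (nat_lit 188455) (nat_lit 24) (.e (nat_lit 237312) (nat_lit 134) .nil)))) .nil)) 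
(.lf (nat_lit 82144) (.g (nat_lit 1815) (.e (nat_lit 1855) (nat_lit 124) (.e (nat_lit 557093) (nat_lit 12) (.e (nat_lit 164023) (nat_lit 46) (.e (nat_lit 704735) (nat_lit 11) (.e (nat_lit 16412) (nat_lit 2) (.e (nat_lit 196674) (nat_lit 15) (.e (nat_lit 81944) (nat_lit 20) .nil))))))) (.g (nat_lit 4) .nil .nil))))) (.nd (nat_lit 5) (.nd (nat_lit 6) 
(.lf (nat_lit 82064) (.g (nat_lit 4545) (.e (nat_lit 1853) (nat_lit 124) (.e (nat_lit 557109) (nat_lit 15) (.e (nat_lit 188452) (nat_lit 23) (.e (nat_lit 204816) (nat_lit 17) (.e (nat_lit 6720) (nat_lit 361) .nil))))) .nil)) 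
(.lf (nat_lit 82128) (.g (nat_lit 2997) (.e (nat_lit 1855) (nat_lit 124) (.e (nat_lit 557087) (nat_lit 11) (.e (nat_lit 24617) (nat_lit 7) (.e (nat_lit 319504) (nat_lit 10) .nil)))) .nil))) (.nd (nat_lit 6) 
(.lf (nat_lit 82096) (.g (nat_lit 2646) (.e (nat_lit 1854) (nat_lit 124) (.e (nat_lit 557105) (nat_lit 14) (.e (nat_lit 180252) (nat_lit 10) (.e (nat_lit 573482) (nat_lit 13) .nil)))) .nil)) 
(.lf (nat_lit 82160) (.g (nat_lit 1924) (.e (nat_lit 1855) (nat_lit 124) (.e (nat_lit 557096) (nat_lit 13) (.e (nat_lit 172126) (nat_lit 14) (.e (nat_lit 491540) (nat_lit 3) (.e (nat_lit 98370) (nat_lit 28) (.e (nat_lit 442377) (nat_lit 0) .nil)))))) (.g (nat_lit 4) .nil .nil)))))) (.nd (nat_lit 4) (.nd (nat_lit 5) (.nd (nat_lit 6) 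
(.lf (nat_lit 82056) (.g (nat_lit 2543) (.e (nat_lit 1853) (nat_lit 124) (.e (nat_lit 557109) (nat_lit 15) (.e (nat_lit 188449) (nat_lit 22) (.e (nat_lit 196661) (nat_lit 12) .nil)))) .nil)) 
(.lf (nat_lit 82120) (.g (nat_lit 1635) (.e (nat_lit 1855) (nat_lit 124) (.e (nat_lit 564992) (nat_lit 6) (.e (nat_lit 81951) (nat_lit 22) (.e (nat_lit 90170) (nat_lit 13) (.e (nat_lit 179968) (nat_lit 20) (.e (nat_lit 114705) (nat_lit 20) .nil)))))) (.g (nat_lit 4) .nil .nil)))) (.nd (nat_lit 6) 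
(.lf (nat_lit 82088) (.g (nat_lit 2389) (.e (nat_lit 1853) (nat_lit 124) (.e (nat_lit 557109) (nat_lit 15) (.e (nat_lit 188461) (nat_lit 26) (.e (nat_lit 253987) (nat_lit 10) .nil)))) .nil)) 
(.lf (nat_lit 82152) (.g (nat_lit 2442) (.e (nat_lit 1855) (nat_lit 124) (.e (nat_lit 557093) (nat_lit 12) (.e (nat_lit 164023) (nat_lit 46) (.e (nat_lit 704738) (nat_lit 11) (.e (nat_lit 16412) (nat_lit 2) (.e (nat_lit 196672) (nat_lit 15) (.e (nat_lit 81928) (nat_lit 20) .nil))))))) (.g (nat_lit 4) .nil .nil))))) (.nd (nat_lit 5) (.nd (nat_lit 6) 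
(.lf (nat_lit 82072) (.g (nat_lit 5061) (.e (nat_lit 1853) (nat_lit 124) (.e (nat_lit 557109) (nat_lit 15) (.e (nat_lit 188452) (nat_lit 23) (.e (nat_lit 204880) (nat_lit 32) (.e (nat_lit 385105) (nat_lit 50) (.e (nat_lit 786450) (nat_lit 15) .nil)))))) (.g (nat_lit 5) .nil .nil))) 
(.lf (nat_lit 82136) (.g (nat_lit 2578) (.e (nat_lit 1855) (nat_lit 124) (.e (nat_lit 557093) (nat_lit 12) (.e (nat_lit 164022) (nat_lit 46) (.e (nat_lit 704737) (nat_lit 11) (.e (nat_lit 16411) (nat_lit 2) (.e (nat_lit 196672) (nat_lit 15) (.e (nat_lit 81943) (nat_lit 20) .nil))))))) (.g (nat_lit 5) .nil .nil)))) (.nd (nat_lit 6) 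
(.lf (nat_lit 82104) (.g (nat_lit 3260) (.e (nat_lit 1854) (nat_lit 124) (.e (nat_lit 557105) (nat_lit 14) (.e (nat_lit 180252) (nat_lit 10) (.e (nat_lit 573489) (nat_lit 14) (.e (nat_lit 73748) (nat_lit 3) .nil))))) .nil)) 
(.lf (nat_lit 82168) (.g (nat_lit 3023) (.e (nat_lit 1855) (nat_lit 124) (.e (nat_lit 557098) (nat_lit 13) (.e (nat_lit 172097) (nat_lit 9) (.e (nat_lit 426125) (nat_lit 2) (.e (nat_lit 196666) (nat_lit 13) (.e (nat_lit 65572) (nat_lit 4) (.e (nat_lit 123197) (nat_lit 266) (.e (nat_lit 57354) (nat_lit 0) .nil)))))))) (.g (nat_lit 5) .nil .nil))))))) 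
(.nd (nat_lit 3) (.nd (nat_lit 4) (.nd (nat_lit 5) (.nd (nat_lit 6) 
(.lf (nat_lit 82052) (.g (nat_lit 903) (.e (nat_lit 1853) (nat_lit 124) (.e (nat_lit 557109) (nat_lit 15) (.e (nat_lit 188449) (nat_lit 22) .nil))) .nil)) 
(.lf (nat_lit 82116) (.g (nat_lit 1652) (.e (nat_lit 1855) (nat_lit 124) (.e (nat_lit 564992) (nat_lit 0) (.e (nat_lit 1591) (nat_lit 111) (.e (nat_lit 360466) (nat_lit 3) (.e (nat_lit 516146) (nat_lit 9) (.e (nat_lit 426361) (nat_lit 15) (.e (nat_lit 2206) (nat_lit 144) (.e (nat_lit 720920) (nat_lit 20) .nil)))))))) (.g (nat_lit 5) .nil .nil)))) (.nd (nat_lit 6) 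
(.lf (nat_lit 82084) (.g (nat_lit 3344) (.e (nat_lit 1853) (nat_lit 124) (.e (nat_lit 557109) (nat_lit 15) (.e (nat_lit 188458) (nat_lit 25) (.e (nat_lit 245783) (nat_lit 9) .nil)))) .nil)) 
(.lf (nat_lit 82148) (.g (nat_lit 2302) (.e (nat_lit 1855) (nat_lit 124) (.e (nat_lit 557093) (nat_lit 12) (.e (nat_lit 164023) (nat_lit 46) (.e (nat_lit 704737) (nat_lit 11) (.e (nat_lit 16412) (nat_lit 2) (.e (nat_lit 196672) (nat_lit 15) (.e (nat_lit 81945) (nat_lit 20) .nil))))))) (.g (nat_lit 4) .nil .nil))))) (.nd (nat_lit 5) (.nd (nat_lit 6) 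
(.lf (nat_lit 82068) (.g (nat_lit 3397) (.e (nat_lit 1853) (nat_lit 124) (.e (nat_lit 557109) (nat_lit 15) (.e (nat_lit 188452) (nat_lit 23) (.e (nat_lit 204846) (nat_lit 24) .nil)))) .nil)) 
(.lf (nat_lit 82132) (.g (nat_lit 3972) (.e (nat_lit 1855) (nat_lit 124) (.e (nat_lit 557090) (nat_lit 12) (.e (nat_lit 164020) (nat_lit 45) (.e (nat_lit 696344) (nat_lit 8) (.e (nat_lit 172067) (nat_lit 3) (.e (nat_lit 204877) (nat_lit 31) (.e (nat_lit 376855) (nat_lit 20) .nil))))))) (.g (nat_lit 5) .nil .nil)))) (.nd (nat_lit 6) 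
(.lf (nat_lit 82100) (.g (nat_lit 2645) (.e (nat_lit 1854) (nat_lit 124) (.e (nat_lit 557105) (nat_lit 14) (.e (nat_lit 180252) (nat_lit 10) (.e (nat_lit 573488) (nat_lit 14) .nil)))) .nil)) 
(.lf (nat_lit 82164) (.g (nat_lit 2084) (.e (nat_lit 1855) (nat_lit 124) (.e (nat_lit 557098) (nat_lit 13) (.e (nat_lit 172097) (nat_lit 9) (.e (nat_lit 426125) (nat_lit 2) (.e (nat_lit 196661) (nat_lit 12) .nil))))) .nil))))) (.nd (nat_lit 4) (.nd (nat_lit 5) (.nd (nat_lit 6) 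
(.lf (nat_lit 82060) (.g (nat_lit 3139) (.e (nat_lit 1853) (nat_lit 124) (.e (nat_lit 557109) (nat_lit 15) (.e (nat_lit 188452) (nat_lit 23) (.e (nat_lit 204815) (nat_lit 17) .nil)))) .nil)) 
(.lf (nat_lit 82124) (.g (nat_lit 2177) (.e (nat_lit 1855) (nat_lit 124) (.e (nat_lit 564992) (nat_lit 6) (.e (nat_lit 81956) (nat_lit 23) (.e (nat_lit 98356) (nat_lit 26) (.e (nat_lit 426448) (nat_lit 20) (.e (nat_lit 122624) (nat_lit 20) .nil)))))) (.g (nat_lit 5) .nil .nil)))) (.nd (nat_lit 6) 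
(.lf (nat_lit 82092) (.g (nat_lit 604) (.e (nat_lit 1854) (nat_lit 124) (.e (nat_lit 557105) (nat_lit 14) (.e (nat_lit 180252) (nat_lit 10) .nil))) .nil)) 
(.lf (nat_lit 82156) (.g (nat_lit 1914) (.e (nat_lit 1855) (nat_lit 124) (.e (nat_lit 557093) (nat_lit 12) (.e (nat_lit 164238) (nat_lit 187) (.e (nat_lit 1659) (nat_lit 115) (.e (nat_lit 401152) (nat_lit 7) .nil))))) .nil)))) (.nd (nat_lit 5) (.nd (nat_lit 6) 
(.lf (nat_lit 82076) (.g (nat_lit 4298) (.e (nat_lit 1853) (nat_lit 124) (.e (nat_lit 557109) (nat_lit 15) (.e (nat_lit 188452) (nat_lit 23) (.e (nat_lit 204882) (nat_lit 32) (.e (nat_lit 385105) (nat_lit 50) .nil))))) .nil)) 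
(.lf (nat_lit 82140) (.g (nat_lit 4218) (.e (nat_lit 1855) (nat_lit 124) (.e (nat_lit 557093) (nat_lit 12) (.e (nat_lit 164022) (nat_lit 46) (.e (nat_lit 704738) (nat_lit 11) (.e (nat_lit 16412) (nat_lit 2) (.e (nat_lit 196672) (nat_lit 15) (.e (nat_lit 81943) (nat_lit 20) .nil))))))) (.g (nat_lit 6) .nil .nil)))) (.nd (nat_lit 6) 
(.lf (nat_lit 82108) (.g (nat_lit 955) (.e (nat_lit 1854) (nat_lit 124) (.e (nat_lit 557109) (nat_lit 15) (.e (nat_lit 188449) (nat_lit 22) .nil))) .nil)) 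
(.lf (nat_lit 82172) (.g (nat_lit 5257) (.e (nat_lit 1855) (nat_lit 124) (.e (nat_lit 557098) (nat_lit 13) (.e (nat_lit 172097) (nat_lit 9) (.e (nat_lit 426125) (nat_lit 2) (.e (nat_lit 196666) (nat_lit 13) (.e (nat_lit 65574) (nat_lit 4) (.e (nat_lit 123195) (nat_lit 266) (.e (nat_lit 57354) (nat_lit 0) .nil)))))))) (.g (nat_lit 0) .nil .nil)))))))) 
(.nd (nat_lit 2) (.nd (nat_lit 3) (.nd (nat_lit 4) (.nd (nat_lit 5) (.nd (nat_lit 6) 
(.lf (nat_lit 82050) (.g (nat_lit 2164) (.e (nat_lit 1853) (nat_lit 124) (.e (nat_lit 557109) (nat_lit 15) (.e (nat_lit 188441) (nat_lit 20) (.e (nat_lit 3272) (nat_lit 199) (.e (nat_lit 548898) (nat_lit 14) .nil))))) .nil)) 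
(.lf (nat_lit 82114) (.g (nat_lit 5709) (.e (nat_lit 1854) (nat_lit 124) (.e (nat_lit 557109) (nat_lit 15) (.e (nat_lit 188452) (nat_lit 23) (.e (nat_lit 204885) (nat_lit 33) .nil)))) .nil))) (.nd (nat_lit 6) 
(.lf (nat_lit 82082) (.g (nat_lit 1114) (.e (nat_lit 1853) (nat_lit 124) (.e (nat_lit 557109) (nat_lit 15) (.e (nat_lit 188458) (nat_lit 25) .nil))) .nil)) 
(.lf (nat_lit 82146) (.g (nat_lit 2301) (.e (nat_lit 1855) (nat_lit 124) (.e (nat_lit 557093) (nat_lit 12) (.e (nat_lit 164023) (nat_lit 46) (.e (nat_lit 704737) (nat_lit 11) (.e (nat_lit 16412) (nat_lit 2) (.e (nat_lit 196672) (nat_lit 15) (.e (nat_lit 81942) (nat_lit 20) .nil))))))) (.g (nat_lit 4) .nil .nil))))) (.nd (nat_lit 5) (.nd (nat_lit 6) 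
(.lf (nat_lit 82066) (.g (nat_lit 3088) (.e (nat_lit 1853) (nat_lit 124) (.e (nat_lit 557109) (nat_lit 15) (.e (nat_lit 188452) (nat_lit 23) (.e (nat_lit 204817) (nat_lit 17) .nil)))) .nil)) 
(.lf (nat_lit 82130) (.g (nat_lit 3899) (.e (nat_lit 1855) (nat_lit 124) (.e (nat_lit 557087) (nat_lit 11) (.e (nat_lit 24662) (nat_lit 14) (.e (nat_lit 401426) (nat_lit 3) .nil)))) .nil))) (.nd (nat_lit 6) 
(.lf (nat_lit 82098) (.g (nat_lit 3752) (.e (nat_lit 1854) (nat_lit 124) (.e (nat_lit 557105) (nat_lit 14) (.e (nat_lit 180252) (nat_lit 10) (.e (nat_lit 573482) (nat_lit 13) (.e (nat_lit 73472) (nat_lit 18) .nil))))) .nil)) 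
(.lf (nat_lit 82162) (.g (nat_lit 2684) (.e (nat_lit 1855) (nat_lit 124) (.e (nat_lit 557098) (nat_lit 13) (.e (nat_lit 172061) (nat_lit 1) (.e (nat_lit 164403) (nat_lit 256) (.e (nat_lit 57447) (nat_lit 19) (.e (nat_lit 393301) (nat_lit 27) (.e (nat_lit 491526) (nat_lit 0) .nil))))))) (.g (nat_lit 4) .nil .nil)))))) (.nd (nat_lit 4) (.nd (nat_lit 5) (.nd (nat_lit 6) 
(.lf (nat_lit 82058) (.g (nat_lit 4498) (.e (nat_lit 1853) (nat_lit 124) (.e (nat_lit 557109) (nat_lit 15) (.e (nat_lit 188450) (nat_lit 23) (.e (nat_lit 204880) (nat_lit 32) (.e (nat_lit 385105) (nat_lit 50) .nil))))) .nil)) 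
(.lf (nat_lit 82122) (.g (nat_lit 2151) (.e (nat_lit 1855) (nat_lit 124) (.e (nat_lit 564992) (nat_lit 6) (.e (nat_lit 81954) (nat_lit 23) (.e (nat_lit 98356) (nat_lit 26) (.e (nat_lit 426448) (nat_lit 20) (.e (nat_lit 122624) (nat_lit 20) .nil)))))) (.g (nat_lit 5) .nil .nil)))) (.nd (nat_lit 6) 
(.lf (nat_lit 82090) (.g (nat_lit 1637) (.e (nat_lit 1854) (nat_lit 124) (.e (nat_lit 557105) (nat_lit 14) (.e (nat_lit 180251) (nat_lit 10) (.e (nat_lit 573479) (nat_lit 13) .nil)))) .nil)) 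
(.lf (nat_lit 82154) (.g (nat_lit 3535) (.e (nat_lit 1855) (nat_lit 124) (.e (nat_lit 557093) (nat_lit 12) (.e (nat_lit 164023) (nat_lit 46) (.e (nat_lit 704738) (nat_lit 11) (.e (nat_lit 16412) (nat_lit 2) (.e (nat_lit 196673) (nat_lit 15) (.e (nat_lit 81938) (nat_lit 20) .nil))))))) (.g (nat_lit 5) .nil .nil))))) (.nd (nat_lit 5) (.nd (nat_lit 6) 
(.lf (nat_lit 82074) (.g (nat_lit 3226) (.e (nat_lit 1853) (nat_lit 124) (.e (nat_lit 557109) (nat_lit 15) (.e (nat_lit 188452) (nat_lit 23) (.e (nat_lit 204881) (nat_lit 32) .nil)))) .nil)) 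
(.lf (nat_lit 82138) (.g (nat_lit 2946) (.e (nat_lit 1855) (nat_lit 124) (.e (nat_lit 557093) (nat_lit 12) (.e (nat_lit 164022) (nat_lit 46) (.e (nat_lit 704737) (nat_lit 11) (.e (nat_lit 16412) (nat_lit 2) (.e (nat_lit 196674) (nat_lit 15) (.e (nat_lit 81944) (nat_lit 20) .nil))))))) (.g (nat_lit 5) .nil .nil)))) (.nd (nat_lit 6) 
(.lf (nat_lit 82106) (.g (nat_lit 3790) (.e (nat_lit 1854) (nat_lit 124) (.e (nat_lit 557108) (nat_lit 15) (.e (nat_lit 188452) (nat_lit 23) (.e (nat_lit 204846) (nat_lit 24) .nil)))) .nil)) 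
(.lf (nat_lit 82170) (.g (nat_lit 2395) (.e (nat_lit 1855) (nat_lit 124) (.e (nat_lit 557098) (nat_lit 13) (.e (nat_lit 172097) (nat_lit 9) (.e (nat_lit 426125) (nat_lit 2) (.e (nat_lit 196666) (nat_lit 13) (.e (nat_lit 65572) (nat_lit 4) (.e (nat_lit 123198) (nat_lit 266) (.e (nat_lit 57361) (nat_lit 0) .nil)))))))) (.g (nat_lit 4) .nil .nil))))))) 
(.nd (nat_lit 3) (.nd (nat_lit 4) (.nd (nat_lit 5) (.nd (nat_lit 6) 
(.lf (nat_lit 82054) (.g (nat_lit 5471) (.e (nat_lit 1853) (nat_lit 124) (.e (nat_lit 557109) (nat_lit 15) (.e (nat_lit 188449) (nat_lit 22) (.e (nat_lit 196632) (nat_lit 9) .nil)))) .nil)) 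
(.lf (nat_lit 82118) (.g (nat_lit 2369) (.e (nat_lit 1855) (nat_lit 124) (.e (nat_lit 564992) (nat_lit 4) (.e (nat_lit 65619) (nat_lit 10) (.e (nat_lit 344117) (nat_lit 21) (.e (nat_lit 516180) (nat_lit 15) (.e (nat_lit 475212) (nat_lit 42) (.e (nat_lit 720920) (nat_lit 20) .nil))))))) (.g (nat_lit 6) .nil .nil)))) (.nd (nat_lit 6) 
(.lf (nat_lit 82086) (.g (nat_lit 740) (.e (nat_lit 1853) (nat_lit 124) (.e (nat_lit 557109) (nat_lit 15) (.e (nat_lit 188461) (nat_lit 26) .nil))) .nil)) 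
(.lf (nat_lit 82150) (.g (nat_lit 4264) (.e (nat_lit 1855) (nat_lit 124) (.e (nat_lit 557093) (nat_lit 12) (.e (nat_lit 164023) (nat_lit 46) (.e (nat_lit 704737) (nat_lit 11) (.e (nat_lit 16412) (nat_lit 2) (.e (nat_lit 196674) (nat_lit 15) (.e (nat_lit 81944) (nat_lit 20) .nil))))))) (.g (nat_lit 6) .nil .nil))))) (.nd (nat_lit 5) (.nd (nat_lit 6) 
(.lf (nat_lit 82070) (.g (nat_lit 3238) (.e (nat_lit 1853) (nat_lit 124) (.e (nat_lit 557109) (nat_lit 15) (.e (nat_lit 188452) (nat_lit 23) (.e (nat_lit 204851) (nat_lit 26) .nil)))) .nil)) 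
(.lf (nat_lit 82134) (.g (nat_lit 2609) (.e (nat_lit 1855) (nat_lit 124) (.e (nat_lit 557091) (nat_lit 12) (.e (nat_lit 164022) (nat_lit 46) (.e (nat_lit 704738) (nat_lit 11) (.e (nat_lit 16412) (nat_lit 2) (.e (nat_lit 196672) (nat_lit 15) (.e (nat_lit 81943) (nat_lit 20) .nil))))))) (.g (nat_lit 4) .nil .nil)))) (.nd (nat_lit 6) 
(.lf (nat_lit 82102) (.g (nat_lit 3343) (.e (nat_lit 1854) (nat_lit 124) (.e (nat_lit 557105) (nat_lit 14) (.e (nat_lit 180252) (nat_lit 10) (.e (nat_lit 573488) (nat_lit 14) (.e (nat_lit 73747) (nat_lit 3) (.e (nat_lit 516115) (nat_lit 1) (.e (nat_lit 164183) (nat_lit 154) (.e (nat_lit 57353) (nat_lit 0) .nil)))))))) (.g (nat_lit 4) .nil .nil))) 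
(.lf (nat_lit 82166) (.g (nat_lit 2539) (.e (nat_lit 1855) (nat_lit 124) (.e (nat_lit 557098) (nat_lit 13) (.e (nat_lit 172097) (nat_lit 9) (.e (nat_lit 426125) (nat_lit 2) (.e (nat_lit 196661) (nat_lit 12) (.e (nat_lit 65280) (nat_lit 208) (.e (nat_lit 237631) (nat_lit 15) .nil))))))) (.g (nat_lit 4) .nil .nil)))))) (.nd (nat_lit 4) (.nd (nat_lit 5) (.nd (nat_lit 6) 
(.lf (nat_lit 82062) (.g (nat_lit 4585) (.e (nat_lit 1853) (nat_lit 124) (.e (nat_lit 557109) (nat_lit 15) (.e (nat_lit 188452) (nat_lit 23) (.e (nat_lit 204816) (nat_lit 17) (.e (nat_lit 6718) (nat_lit 361) .nil))))) .nil)) 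
(.lf (nat_lit 82126) (.g (nat_lit 560) (.e (nat_lit 1855) (nat_lit 124) (.e (nat_lit 557070) (nat_lit 9) (.e (nat_lit 2397) (nat_lit 157) .nil))) .nil))) (.nd (nat_lit 6) 
(.lf (nat_lit 82094) (.g (nat_lit 3377) (.e (nat_lit 1854) (nat_lit 124) (.e (nat_lit 557105) (nat_lit 14) (.e (nat_lit 180252) (nat_lit 10) (.e (nat_lit 573481) (nat_lit 13) (.e (nat_lit 65570) (nat_lit 3) .nil))))) .nil)) 
(.lf (nat_lit 82158) (.g (nat_lit 1931) (.e (nat_lit 1855) (nat_lit 124) (.e (nat_lit 557095) (nat_lit 13) (.e (nat_lit 172126) (nat_lit 14) (.e (nat_lit 491540) (nat_lit 3) (.e (nat_lit 98380) (nat_lit 31) (.e (nat_lit 466947) (nat_lit 0) .nil)))))) (.g (nat_lit 4) .nil .nil))))) (.nd (nat_lit 5) (.nd (nat_lit 6) 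
(.lf (nat_lit 82078) (.g (nat_lit 3914) (.e (nat_lit 1853) (nat_lit 124) (.e (nat_lit 557109) (nat_lit 15) (.e (nat_lit 188452) (nat_lit 23) (.e (nat_lit 204885) (nat_lit 33) (.e (nat_lit 401444) (nat_lit 9) .nil))))) .nil)) 
(.lf (nat_lit 82142) (.g (nat_lit 5216) (.e (nat_lit 1855) (nat_lit 124) (.e (nat_lit 557093) (nat_lit 12) (.e (nat_lit 164022) (nat_lit 46) (.e (nat_lit 704738) (nat_lit 11) (.e (nat_lit 16416) (nat_lit 3) (.e (nat_lit 204877) (nat_lit 31) (.e (nat_lit 376855) (nat_lit 20) .nil))))))) (.g (nat_lit 6) .nil .nil)))) (.nd (nat_lit 6) 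
(.lf (nat_lit 82110) (.g (nat_lit 1047) (.e (nat_lit 1854) (nat_lit 124) (.e (nat_lit 557109) (nat_lit 15) (.e (nat_lit 188452) (nat_lit 23) .nil))) .nil)) 
(.lf (nat_lit 82174) (.g (nat_lit 2695) (.e (nat_lit 1855) (nat_lit 124) (.e (nat_lit 557098) (nat_lit 13) (.e (nat_lit 172097) (nat_lit 9) (.e (nat_lit 426125) (nat_lit 2) (.e (nat_lit 196666) (nat_lit 13) (.e (nat_lit 65574) (nat_lit 4) (.e (nat_lit 123198) (nat_lit 266) (.e (nat_lit 57361) (nat_lit 0) .nil)))))))) (.g (nat_lit 4) .nil .nil))))))))) 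
(.nd (nat_lit 1) (.nd (nat_lit 2) (.nd (nat_lit 3) (.nd (nat_lit 4) (.nd (nat_lit 5) 
(.nd (nat_lit 6) 
(.lf (nat_lit 82049) (.g (nat_lit 2197) (.e (nat_lit 1853) (nat_lit 124) (.e (nat_lit 557109) (nat_lit 15) (.e (nat_lit 188441) (nat_lit 20) (.e (nat_lit 3272) (nat_lit 199) (.e (nat_lit 548897) (nat_lit 14) .nil))))) .nil)) 
(.lf (nat_lit 82113) (.g (nat_lit 4358) (.e (nat_lit 1854) (nat_lit 124) (.e (nat_lit 557109) (nat_lit 15) (.e (nat_lit 188452) (nat_lit 23) (.e (nat_lit 204880) (nat_lit 32) .nil)))) .nil))) (.nd (nat_lit 6) 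
(.lf (nat_lit 82081) (.g (nat_lit 2486) (.e (nat_lit 1853) (nat_lit 124) (.e (nat_lit 557109) (nat_lit 15) (.e (nat_lit 188455) (nat_lit 24) (.e (nat_lit 237312) (nat_lit 138) .nil)))) .nil)) 
(.lf (nat_lit 82145) (.g (nat_lit 1915) (.e (nat_lit 1855) (nat_lit 124) (.e (nat_lit 557093) (nat_lit 12) (.e (nat_lit 164023) (nat_lit 46) (.e (nat_lit 704737) (nat_lit 11) (.e (nat_lit 16411) (nat_lit 2) .nil))))) .nil)))) (.nd (nat_lit 5) (.nd (nat_lit 6) 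
(.lf (nat_lit 82065) (.g (nat_lit 5108) (.e (nat_lit 1853) (nat_lit 124) (.e (nat_lit 557109) (nat_lit 15) (.e (nat_lit 188452) (nat_lit 23) (.e (nat_lit 204816) (nat_lit 17) (.e (nat_lit 6720) (nat_lit 361) (.e (nat_lit 172132) (nat_lit 15) .nil)))))) (.g (nat_lit 4) .nil .nil))) 
(.lf (nat_lit 82129) (.g (nat_lit 2855) (.e (nat_lit 1855) (nat_lit 124) (.e (nat_lit 557087) (nat_lit 11) (.e (nat_lit 24617) (nat_lit 7) (.e (nat_lit 319505) (nat_lit 10) .nil)))) .nil))) (.nd (nat_lit 6) 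
(.lf (nat_lit 82097) (.g (nat_lit 3865) (.e (nat_lit 1854) (nat_lit 124) (.e (nat_lit 557105) (nat_lit 14) (.e (nat_lit 180252) (nat_lit 10) (.e (nat_lit 573482) (nat_lit 13) (.e (nat_lit 65570) (nat_lit 3) .nil))))) .nil)) 
(.lf (nat_lit 82161) (.g (nat_lit 2210) (.e (nat_lit 1855) (nat_lit 124) (.e (nat_lit 557097) (nat_lit 13) (.e (nat_lit 172126) (nat_lit 14) (.e (nat_lit 491540) (nat_lit 3) (.e (nat_lit 98381) (nat_lit 31) .nil))))) .nil))))) (.nd (nat_lit 4) (.nd (nat_lit 5) (.nd (nat_lit 6) 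
(.lf (nat_lit 82057) (.g (nat_lit 2698) (.e (nat_lit 1853) (nat_lit 124) (.e (nat_lit 557109) (nat_lit 15) (.e (nat_lit 188449) (nat_lit 22) (.e (nat_lit 196666) (nat_lit 13) .nil)))) .nil)) 
(.lf (nat_lit 82121) (.g (nat_lit 1892) (.e (nat_lit 1855) (nat_lit 124) (.e (nat_lit 564992) (nat_lit 6) (.e (nat_lit 81951) (nat_lit 22) (.e (nat_lit 90170) (nat_lit 13) (.e (nat_lit 179968) (nat_lit 20) (.e (nat_lit 114707) (nat_lit 20) .nil)))))) (.g (nat_lit 4) .nil .nil)))) (.nd (nat_lit 6) 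
(.lf (nat_lit 82089) (.g (nat_lit 2398) (.e (nat_lit 1854) (nat_lit 124) (.e (nat_lit 557100) (nat_lit 13) (.e (nat_lit 172106) (nat_lit 10) (.e (nat_lit 434231) (nat_lit 23) .nil)))) .nil)) 
(.lf (nat_lit 82153) (.g (nat_lit 3939) (.e (nat_lit 1855) (nat_lit 124) (.e (nat_lit 557093) (nat_lit 12) (.e (nat_lit 164023) (nat_lit 46) (.e (nat_lit 704738) (nat_lit 11) (.e (nat_lit 16412) (nat_lit 2) (.e (nat_lit 196672) (nat_lit 15) (.e (nat_lit 81943) (nat_lit 20) .nil))))))) (.g (nat_lit 6) .nil .nil))))) (.nd (nat_lit 5) (.nd (nat_lit 6) 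
(.lf (nat_lit 82073) (.g (nat_lit 4849) (.e (nat_lit 1853) (nat_lit 124) (.e (nat_lit 557109) (nat_lit 15) (.e (nat_lit 188452) (nat_lit 23) (.e (nat_lit 204880) (nat_lit 32) (.e (nat_lit 385106) (nat_lit 50) (.e (nat_lit 786450) (nat_lit 15) .nil)))))) (.g (nat_lit 4) .nil .nil))) 
(.lf (nat_lit 82137) (.g (nat_lit 3230) (.e (nat_lit 1855) (nat_lit 124) (.e (nat_lit 557093) (nat_lit 12) (.e (nat_lit 164022) (nat_lit 46) (.e (nat_lit 704737) (nat_lit 11) (.e (nat_lit 16412) (nat_lit 2) (.e (nat_lit 196672) (nat_lit 15) (.e (nat_lit 81943) (nat_lit 20) .nil))))))) (.g (nat_lit 6) .nil .nil)))) (.nd (nat_lit 6) 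
(.lf (nat_lit 82105) (.g (nat_lit 1189) (.e (nat_lit 1854) (nat_lit 124) (.e (nat_lit 557108) (nat_lit 15) (.e (nat_lit 188452) (nat_lit 23) .nil))) .nil)) 
(.lf (nat_lit 82169) (.g (nat_lit 3320) (.e (nat_lit 1855) (nat_lit 124) (.e (nat_lit 557098) (nat_lit 13) (.e (nat_lit 172097) (nat_lit 9) (.e (nat_lit 426125) (nat_lit 2) (.e (nat_lit 196666) (nat_lit 13) (.e (nat_lit 65572) (nat_lit 4) (.e (nat_lit 123198) (nat_lit 266) (.e (nat_lit 57354) (nat_lit 0) .nil)))))))) (.g (nat_lit 5) .nil .nil))))))) 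
(.nd (nat_lit 3) (.nd (nat_lit 4) (.nd (nat_lit 5) (.nd (nat_lit 6) 
(.lf (nat_lit 82053) (.g (nat_lit 3301) (.e (nat_lit 1853) (nat_lit 124) (.e (nat_lit 557109) (nat_lit 15) (.e (nat_lit 188449) (nat_lit 22) (.e (nat_lit 196628) (nat_lit 9) .nil)))) .nil)) 
(.lf (nat_lit 82117) (.g (nat_lit 1859) (.e (nat_lit 1855) (nat_lit 124) (.e (nat_lit 564992) (nat_lit 0) (.e (nat_lit 1598) (nat_lit 111) (.e (nat_lit 360466) (nat_lit 3) (.e (nat_lit 516146) (nat_lit 9) (.e (nat_lit 426448) (nat_lit 20) (.e (nat_lit 122624) (nat_lit 20) .nil))))))) (.g (nat_lit 5) .nil .nil)))) (.nd (nat_lit 6) 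
(.lf (nat_lit 82085) (.g (nat_lit 3242) (.e (nat_lit 1853) (nat_lit 124) (.e (nat_lit 557109) (nat_lit 15) (.e (nat_lit 188458) (nat_lit 25) (.e (nat_lit 245784) (nat_lit 9) .nil)))) .nil)) 
(.lf (nat_lit 82149) (.g (nat_lit 2376) (.e (nat_lit 1855) (nat_lit 124) (.e (nat_lit 557093) (nat_lit 12) (.e (nat_lit 164023) (nat_lit 46) (.e (nat_lit 704737) (nat_lit 11) (.e (nat_lit 16412) (nat_lit 2) (.e (nat_lit 196672) (nat_lit 15) (.e (nat_lit 81946) (nat_lit 20) .nil))))))) (.g (nat_lit 4) .nil .nil))))) (.nd (nat_lit 5) (.nd (nat_lit 6) 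
(.lf (nat_lit 82069) (.g (nat_lit 3439) (.e (nat_lit 1853) (nat_lit 124) (.e (nat_lit 557109) (nat_lit 15) (.e (nat_lit 188452) (nat_lit 23) (.e (nat_lit 204849) (nat_lit 25) .nil)))) .nil)) 
(.lf (nat_lit 82133) (.g (nat_lit 1980) (.e (nat_lit 1855) (nat_lit 124) (.e (nat_lit 557091) (nat_lit 12) (.e (nat_lit 164020) (nat_lit 45) (.e (nat_lit 696344) (nat_lit 8) .nil)))) .nil))) (.nd (nat_lit 6) 
(.lf (nat_lit 82101) (.g (nat_lit 3293) (.e (nat_lit 1854) (nat_lit 124) (.e (nat_lit 557105) (nat_lit 14) (.e (nat_lit 180252) (nat_lit 10) (.e (nat_lit 573488) (nat_lit 14) (.e (nat_lit 73747) (nat_lit 3) .nil))))) .nil)) 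
(.lf (nat_lit 82165) (.g (nat_lit 2306) (.e (nat_lit 1855) (nat_lit 124) (.e (nat_lit 557098) (nat_lit 13) (.e (nat_lit 172097) (nat_lit 9) (.e (nat_lit 426125) (nat_lit 2) (.e (nat_lit 196661) (nat_lit 12) (.e (nat_lit 65280) (nat_lit 205) (.e (nat_lit 172136) (nat_lit 15) .nil))))))) (.g (nat_lit 4) .nil .nil)))))) (.nd (nat_lit 4) (.nd (nat_lit 5) (.nd (nat_lit 6) 
(.lf (nat_lit 82061) (.g (nat_lit 3911) (.e (nat_lit 1853) (nat_lit 124) (.e (nat_lit 557109) (nat_lit 15) (.e (nat_lit 188452) (nat_lit 23) (.e (nat_lit 204816) (nat_lit 17) .nil)))) .nil)) 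
(.lf (nat_lit 82125) (.g (nat_lit 2184) (.e (nat_lit 1855) (nat_lit 124) (.e (nat_lit 564992) (nat_lit 6) (.e (nat_lit 81956) (nat_lit 23) (.e (nat_lit 98385) (nat_lit 32) (.e (nat_lit 475212) (nat_lit 42) (.e (nat_lit 720923) (nat_lit 20) .nil)))))) (.g (nat_lit 5) .nil .nil)))) (.nd (nat_lit 6) 
(.lf (nat_lit 82093) (.g (nat_lit 2619) (.e (nat_lit 1854) (nat_lit 124) (.e (nat_lit 557105) (nat_lit 14) (.e (nat_lit 180252) (nat_lit 10) (.e (nat_lit 573480) (nat_lit 13) .nil)))) .nil)) 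
(.lf (nat_lit 82157) (.g (nat_lit 1987) (.e (nat_lit 1855) (nat_lit 124) (.e (nat_lit 557093) (nat_lit 12) (.e (nat_lit 164238) (nat_lit 187) (.e (nat_lit 1661) (nat_lit 115) (.e (nat_lit 401152) (nat_lit 7) .nil))))) .nil)))) (.nd (nat_lit 5) (.nd (nat_lit 6) 
(.lf (nat_lit 82077) (.g (nat_lit 4005) (.e (nat_lit 1853) (nat_lit 124) (.e (nat_lit 557109) (nat_lit 15) (.e (nat_lit 188452) (nat_lit 23) (.e (nat_lit 204885) (nat_lit 33) (.e (nat_lit 401440) (nat_lit 9) .nil))))) .nil)) 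
(.lf (nat_lit 82141) (.g (nat_lit 2178) (.e (nat_lit 1855) (nat_lit 124) (.e (nat_lit 557093) (nat_lit 12) (.e (nat_lit 164022) (nat_lit 46) (.e (nat_lit 704738) (nat_lit 11) (.e (nat_lit 16412) (nat_lit 2) (.e (nat_lit 196672) (nat_lit 15) (.e (nat_lit 81945) (nat_lit 20) .nil))))))) (.g (nat_lit 4) .nil .nil)))) (.nd (nat_lit 6) 
(.lf (nat_lit 82109) (.g (nat_lit 3547) (.e (nat_lit 1854) (nat_lit 124) (.e (nat_lit 557109) (nat_lit 15) (.e (nat_lit 188449) (nat_lit 22) (.e (nat_lit 196661) (nat_lit 12) .nil)))) .nil)) 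
(.lf (nat_lit 82173) (.g (nat_lit 3620) (.e (nat_lit 1855) (nat_lit 124) (.e (nat_lit 557098) (nat_lit 13) (.e (nat_lit 172097) (nat_lit 9) (.e (nat_lit 426125) (nat_lit 2) (.e (nat_lit 196666) (nat_lit 13) (.e (nat_lit 65574) (nat_lit 4) (.e (nat_lit 123198) (nat_lit 266) (.e (nat_lit 57354) (nat_lit 0) .nil)))))))) (.g (nat_lit 6) .nil .nil)))))))) 
(.nd (nat_lit 2) (.nd (nat_lit 3) (.nd (nat_lit 4) (.nd (nat_lit 5) (.nd (nat_lit 6) 
(.lf (nat_lit 82051) (.g (nat_lit 2329) (.e (nat_lit 1853) (nat_lit 124) (.e (nat_lit 557109) (nat_lit 15) (.e (nat_lit 188441) (nat_lit 20) (.e (nat_lit 3272) (nat_lit 199) (.e (nat_lit 548915) (nat_lit 20) .nil))))) .nil)) 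
(.lf (nat_lit 82115) (.g (nat_lit 965) (.e (nat_lit 1854) (nat_lit 124) (.e (nat_lit 557109) (nat_lit 15) (.e (nat_lit 188461) (nat_lit 26) .nil))) .nil))) (.nd (nat_lit 6) 
(.lf (nat_lit 82083) (.g (nat_lit 3343) (.e (nat_lit 1853) (nat_lit 124) (.e (nat_lit 557109) (nat_lit 15) (.e (nat_lit 188458) (nat_lit 25) (.e (nat_lit 245782) (nat_lit 9) .nil)))) .nil)) 
(.lf (nat_lit 82147) (.g (nat_lit 4453) (.e (nat_lit 1855) (nat_lit 124) (.e (nat_lit 557093) (nat_lit 12) (.e (nat_lit 164023) (nat_lit 46) (.e (nat_lit 704737) (nat_lit 11) (.e (nat_lit 16412) (nat_lit 2) (.e (nat_lit 196672) (nat_lit 15) (.e (nat_lit 81943) (nat_lit 20) .nil))))))) (.g (nat_lit 0) .nil .nil))))) (.nd (nat_lit 5) (.nd (nat_lit 6) 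
(.lf (nat_lit 82067) (.g (nat_lit 2000) (.e (nat_lit 1853) (nat_lit 124) (.e (nat_lit 557109) (nat_lit 15) (.e (nat_lit 188452) (nat_lit 23) (.e (nat_lit 204821) (nat_lit 17) .nil)))) .nil)) 
(.lf (nat_lit 82131) (.g (nat_lit 2218) (.e (nat_lit 1855) (nat_lit 124) (.e (nat_lit 557087) (nat_lit 11) (.e (nat_lit 24665) (nat_lit 14) (.e (nat_lit 401426) (nat_lit 3) .nil)))) .nil))) (.nd (nat_lit 6) 
(.lf (nat_lit 82099) (.g (nat_lit 3178) (.e (nat_lit 1854) (nat_lit 124) (.e (nat_lit 557105) (nat_lit 14) (.e (nat_lit 180252) (nat_lit 10) (.e (nat_lit 573487) (nat_lit 14) (.e (nat_lit 73747) (nat_lit 3) .nil))))) .nil)) 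
(.lf (nat_lit 82163) (.g (nat_lit 1436) (.e (nat_lit 1855) (nat_lit 124) (.e (nat_lit 557098) (nat_lit 13) (.e (nat_lit 172097) (nat_lit 9) (.e (nat_lit 426125) (nat_lit 2) .nil)))) .nil))))) (.nd (nat_lit 4) (.nd (nat_lit 5) (.nd (nat_lit 6) 
(.lf (nat_lit 82059) (.g (nat_lit 566) (.e (nat_lit 1853) (nat_lit 124) (.e (nat_lit 557109) (nat_lit 15) (.e (nat_lit 188452) (nat_lit 23) .nil))) .nil)) 
(.lf (nat_lit 82123) (.g (nat_lit 1900) (.e (nat_lit 1855) (nat_lit 124) (.e (nat_lit 564992) (nat_lit 6) (.e (nat_lit 81954) (nat_lit 23) (.e (nat_lit 98385) (nat_lit 32) (.e (nat_lit 475212) (nat_lit 42) (.e (nat_lit 720923) (nat_lit 20) .nil)))))) (.g (nat_lit 5) .nil .nil)))) (.nd (nat_lit 6) 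
(.lf (nat_lit 82091) (.g (nat_lit 2084) (.e (nat_lit 1854) (nat_lit 124) (.e (nat_lit 557105) (nat_lit 14) (.e (nat_lit 180251) (nat_lit 10) (.e (nat_lit 573485) (nat_lit 13) (.e (nat_lit 65570) (nat_lit 3) .nil))))) .nil)) 
(.lf (nat_lit 82155) (.g (nat_lit 5719) (.e (nat_lit 1855) (nat_lit 124) (.e (nat_lit 557093) (nat_lit 12) (.e (nat_lit 164023) (nat_lit 46) (.e (nat_lit 704738) (nat_lit 11) (.e (nat_lit 16416) (nat_lit 3) (.e (nat_lit 204877) (nat_lit 31) (.e (nat_lit 376855) (nat_lit 20) .nil))))))) (.g (nat_lit 7) .nil .nil))))) (.nd (nat_lit 5) (.nd (nat_lit 6) 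
(.lf (nat_lit 82075) (.g (nat_lit 3948) (.e (nat_lit 1853) (nat_lit 124) (.e (nat_lit 557109) (nat_lit 15) (.e (nat_lit 188452) (nat_lit 23) (.e (nat_lit 204881) (nat_lit 32) (.e (nat_lit 385105) (nat_lit 50) .nil))))) .nil)) 
(.lf (nat_lit 82139) (.g (nat_lit 2480) (.e (nat_lit 1855) (nat_lit 124) (.e (nat_lit 557093) (nat_lit 12) (.e (nat_lit 164022) (nat_lit 46) (.e (nat_lit 704738) (nat_lit 11) (.e (nat_lit 16411) (nat_lit 2) (.e (nat_lit 196672) (nat_lit 15) (.e (nat_lit 81943) (nat_lit 20) .nil))))))) (.g (nat_lit 4) .nil .nil)))) (.nd (nat_lit 6) 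
(.lf (nat_lit 82107) (.g (nat_lit 5175) (.e (nat_lit 1854) (nat_lit 124) (.e (nat_lit 557108) (nat_lit 15) (.e (nat_lit 188452) (nat_lit 23) (.e (nat_lit 204885) (nat_lit 33) .nil)))) .nil)) 
(.lf (nat_lit 82171) (.g (nat_lit 3826) (.e (nat_lit 1855) (nat_lit 124) (.e (nat_lit 557098) (nat_lit 13) (.e (nat_lit 172097) (nat_lit 9) (.e (nat_lit 426125) (nat_lit 2) (.e (nat_lit 196666) (nat_lit 13) (.e (nat_lit 65573) (nat_lit 4) (.e (nat_lit 123195) (nat_lit 266) (.e (nat_lit 57354) (nat_lit 0) .nil)))))))) (.g (nat_lit 5) .nil .nil))))))) 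
(.nd (nat_lit 3) (.nd (nat_lit 4) (.nd (nat_lit 5) (.nd (nat_lit 6) 
(.lf (nat_lit 82055) (.g (nat_lit 6385) (.e (nat_lit 1853) (nat_lit 124) (.e (nat_lit 557109) (nat_lit 15) (.e (nat_lit 188449) (nat_lit 22) (.e (nat_lit 196645) (nat_lit 9) .nil)))) .nil)) 
(.lf (nat_lit 82119) (.g (nat_lit 1693) (.e (nat_lit 1855) (nat_lit 124) (.e (nat_lit 564992) (nat_lit 6) (.e (nat_lit 81951) (nat_lit 22) (.e (nat_lit 90170) (nat_lit 13) (.e (nat_lit 179968) (nat_lit 20) (.e (nat_lit 114704) (nat_lit 20) .nil)))))) (.g (nat_lit 4) .nil .nil)))) (.nd (nat_lit 6) 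
(.lf (nat_lit 82087) (.g (nat_lit 2461) (.e (nat_lit 1853) (nat_lit 124) (.e (nat_lit 557109) (nat_lit 15) (.e (nat_lit 188461) (nat_lit 26) (.e (nat_lit 253986) (nat_lit 10) .nil)))) .nil)) 
(.lf (nat_lit 82151) (.g (nat_lit 4298) (.e (nat_lit 1855) (nat_lit 124) (.e (nat_lit 557093) (nat_lit 12) (.e (nat_lit 164023) (nat_lit 46) (.e (nat_lit 704737) (nat_lit 11) (.e (nat_lit 16416) (nat_lit 3) (.e (nat_lit 204877) (nat_lit 31) (.e (nat_lit 376855) (nat_lit 20) .nil))))))) (.g (nat_lit 6) .nil .nil))))) (.nd (nat_lit 5) (.nd (nat_lit 6) 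
(.lf (nat_lit 82071) (.g (nat_lit 3219) (.e (nat_lit 1853) (nat_lit 124) (.e (nat_lit 557109) (nat_lit 15) (.e (nat_lit 188452) (nat_lit 23) (.e (nat_lit 204852) (nat_lit 26) .nil)))) .nil)) 
(.lf (nat_lit 82135) (.g (nat_lit 2182) (.e (nat_lit 1855) (nat_lit 124) (.e (nat_lit 557091) (nat_lit 12) (.e (nat_lit 164030) (nat_lit 53) (.e (nat_lit 761905) (nat_lit 16) (.e (nat_lit 179968) (nat_lit 34) (.e (nat_lit 393273) (nat_lit 23) (.e (nat_lit 426402) (nat_lit 15) .nil))))))) (.g (nat_lit 4) .nil .nil)))) (.nd (nat_lit 6) 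
(.lf (nat_lit 82103) (.g (nat_lit 3673) (.e (nat_lit 1854) (nat_lit 124) (.e (nat_lit 557105) (nat_lit 14) (.e (nat_lit 180252) (nat_lit 10) (.e (nat_lit 573488) (nat_lit 14) (.e (nat_lit 73747) (nat_lit 3) (.e (nat_lit 516119) (nat_lit 1) (.e (nat_lit 164179) (nat_lit 154) (.e (nat_lit 57347) (nat_lit 0) .nil)))))))) (.g (nat_lit 5) .nil .nil))) 
(.lf (nat_lit 82167) (.g (nat_lit 5491) (.e (nat_lit 1855) (nat_lit 124) (.e (nat_lit 557098) (nat_lit 13) (.e (nat_lit 172097) (nat_lit 9) (.e (nat_lit 426125) (nat_lit 2) (.e (nat_lit 196666) (nat_lit 13) (.e (nat_lit 65572) (nat_lit 4) (.e (nat_lit 123195) (nat_lit 266) (.e (nat_lit 57354) (nat_lit 0) .nil)))))))) (.g (nat_lit 0) .nil .nil)))))) 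
(.nd (nat_lit 4) (.nd (nat_lit 5) (.nd (nat_lit 6) 
(.lf (nat_lit 82063) (.g (nat_lit 5134) (.e (nat_lit 1853) (nat_lit 124) (.e (nat_lit 557109) (nat_lit 15) (.e (nat_lit 188452) (nat_lit 23) (.e (nat_lit 204816) (nat_lit 17) (.e (nat_lit 6718) (nat_lit 361) (.e (nat_lit 172132) (nat_lit 15) .nil)))))) (.g (nat_lit 4) .nil .nil))) 
(.lf (nat_lit 82127) (.g (nat_lit 3378) (.e (nat_lit 1855) (nat_lit 124) (.e (nat_lit 557087) (nat_lit 11) (.e (nat_lit 24617) (nat_lit 7) (.e (nat_lit 319502) (nat_lit 10) .nil)))) .nil))) (.nd (nat_lit 6) 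
(.lf (nat_lit 82095) (.g (nat_lit 2915) (.e (nat_lit 1854) (nat_lit 124) (.e (nat_lit 557105) (nat_lit 14) (.e (nat_lit 180252) (nat_lit 10) (.e (nat_lit 573481) (nat_lit 13) (.e (nat_lit 73472) (nat_lit 18) .nil))))) .nil)) 
(.lf (nat_lit 82159) (.g (nat_lit 2002) (.e (nat_lit 1855) (nat_lit 124) (.e (nat_lit 557095) (nat_lit 13) (.e (nat_lit 172126) (nat_lit 14) (.e (nat_lit 491540) (nat_lit 3) (.e (nat_lit 98381) (nat_lit 31) (.e (nat_lit 466947) (nat_lit 0) .nil)))))) (.g (nat_lit 4) .nil .nil))))) (.nd (nat_lit 5) (.nd (nat_lit 6) 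
(.lf (nat_lit 82079) (.g (nat_lit 4032) (.e (nat_lit 1853) (nat_lit 124) (.e (nat_lit 557109) (nat_lit 15) (.e (nat_lit 188452) (nat_lit 23) (.e (nat_lit 204885) (nat_lit 33) (.e (nat_lit 401444) (nat_lit 9) (.e (nat_lit 433920) (nat_lit 15) .nil)))))) (.g (nat_lit 4) .nil .nil))) 
(.lf (nat_lit 82143) (.g (nat_lit 1061) (.e (nat_lit 1855) (nat_lit 124) (.e (nat_lit 557093) (nat_lit 12) (.e (nat_lit 164023) (nat_lit 46) (.e (nat_lit 704735) (nat_lit 11) .nil)))) .nil))) (.nd (nat_lit 6) 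
(.lf (nat_lit 82111) (.g (nat_lit 3516) (.e (nat_lit 1854) (nat_lit 124) (.e (nat_lit 557109) (nat_lit 15) (.e (nat_lit 188452) (nat_lit 23) (.e (nat_lit 204846) (nat_lit 24) .nil)))) .nil)) 
(.lf (nat_lit 82175) (.g (nat_lit 1440) (.e (nat_lit 1855) (nat_lit 124) (.e (nat_lit 557098) (nat_lit 13) (.e (nat_lit 172097) (nat_lit 9) (.e (nat_lit 426140) (nat_lit 3) .nil)))) .nil)))))))))

noncomputable def tv1112 : DT := (.nd (nat_lit 0) (.nd (nat_lit 1) (.nd (nat_lit 2) (.nd (nat_lit 3) (.nd (nat_lit 4) (.nd (nat_lit 5) 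
(.lf (nat_lit 82176) (.g (nat_lit 2144) (.e (nat_lit 1855) (nat_lit 124) (.e (nat_lit 557098) (nat_lit 13) (.e (nat_lit 172097) (nat_lit 9) (.e (nat_lit 426140) (nat_lit 3) (.e (nat_lit 204821) (nat_lit 17) .nil))))) .nil)) 
(.lf (nat_lit 82208) (.g (nat_lit 3292) (.e (nat_lit 1855) (nat_lit 124) (.e (nat_lit 557098) (nat_lit 13) (.e (nat_lit 172115) (nat_lit 10) (.e (nat_lit 434244) (nat_lit 28) (.e (nat_lit 573471) (nat_lit 11) (.e (nat_lit 16440) (nat_lit 9) (.e (nat_lit 426414) (nat_lit 15) .nil))))))) (.g (nat_lit 6) .nil .nil)))) (.nd (nat_lit 5) 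
(.lf (nat_lit 82192) (.g (nat_lit 2597) (.e (nat_lit 1855) (nat_lit 124) (.e (nat_lit 557098) (nat_lit 13) (.e (nat_lit 172115) (nat_lit 10) (.e (nat_lit 434231) (nat_lit 23) (.e (nat_lit 532528) (nat_lit 9) (.e (nat_lit 336260) (nat_lit 15) (.e (nat_lit 3733) (nat_lit 228) (.e (nat_lit 786447) (nat_lit 15) .nil)))))))) (.g (nat_lit 4) .nil .nil))) 
(.lf (nat_lit 82224) (.g (nat_lit 1263) (.e (nat_lit 1855) (nat_lit 124) (.e (nat_lit 557098) (nat_lit 13) (.e (nat_lit 172126) (nat_lit 14) (.e (nat_lit 491540) (nat_lit 3) .nil)))) .nil)))) (.nd (nat_lit 4) (.nd (nat_lit 5) 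
(.lf (nat_lit 82184) (.g (nat_lit 2188) (.e (nat_lit 1855) (nat_lit 124) (.e (nat_lit 557098) (nat_lit 13) (.e (nat_lit 172115) (nat_lit 10) (.e (nat_lit 434231) (nat_lit 23) (.e (nat_lit 532481) (nat_lit 0) (.e (nat_lit 6720) (nat_lit 361) (.e (nat_lit 172133) (nat_lit 15) .nil))))))) (.g (nat_lit 4) .nil .nil))) 
(.lf (nat_lit 82216) (.g (nat_lit 1320) (.e (nat_lit 1855) (nat_lit 124) (.e (nat_lit 557098) (nat_lit 13) (.e (nat_lit 172124) (nat_lit 14) (.e (nat_lit 491540) (nat_lit 3) .nil)))) .nil))) (.nd (nat_lit 5) 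
(.lf (nat_lit 82200) (.g (nat_lit 1302) (.e (nat_lit 1855) (nat_lit 124) (.e (nat_lit 557098) (nat_lit 13) (.e (nat_lit 172115) (nat_lit 10) (.e (nat_lit 434238) (nat_lit 25) .nil)))) .nil)) 
(.lf (nat_lit 82232) (.g (nat_lit 2173) (.e (nat_lit 1855) (nat_lit 124) (.e (nat_lit 557100) (nat_lit 13) (.e (nat_lit 172106) (nat_lit 10) (.e (nat_lit 434231) (nat_lit 23) (.e (nat_lit 532490) (nat_lit 0) (.e (nat_lit 7936) (nat_lit 361) (.e (nat_lit 172136) (nat_lit 15) .nil))))))) (.g (nat_lit 4) .nil .nil)))))) (.nd (nat_lit 3) (.nd (nat_lit 4) (.nd (nat_lit 5) 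
(.lf (nat_lit 82180) (.g (nat_lit 2697) (.e (nat_lit 1855) (nat_lit 124) (.e (nat_lit 557098) (nat_lit 13) (.e (nat_lit 172097) (nat_lit 9) (.e (nat_lit 426140) (nat_lit 3) (.e (nat_lit 204855) (nat_lit 26) (.e (nat_lit 336030) (nat_lit 4) (.e (nat_lit 123198) (nat_lit 266) (.e (nat_lit 57354) (nat_lit 0) .nil)))))))) (.g (nat_lit 4) .nil .nil))) 
(.lf (nat_lit 82212) (.g (nat_lit 2770) (.e (nat_lit 1855) (nat_lit 124) (.e (nat_lit 557098) (nat_lit 13) (.e (nat_lit 172120) (nat_lit 12) (.e (nat_lit 475185) (nat_lit 29) (.e (nat_lit 557107) (nat_lit 15) (.e (nat_lit 188420) (nat_lit 0) .nil)))))) (.g (nat_lit 5) .nil .nil)))) (.nd (nat_lit 5) 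
(.lf (nat_lit 82196) (.g (nat_lit 2611) (.e (nat_lit 1855) (nat_lit 124) (.e (nat_lit 557098) (nat_lit 13) (.e (nat_lit 172115) (nat_lit 10) (.e (nat_lit 434231) (nat_lit 23) (.e (nat_lit 532564) (nat_lit 15) (.e (nat_lit 385103) (nat_lit 50) (.e (nat_lit 786447) (nat_lit 15) .nil))))))) (.g (nat_lit 4) .nil .nil))) 
(.lf (nat_lit 82228) (.g (nat_lit 517) (.e (nat_lit 1855) (nat_lit 124) (.e (nat_lit 557100) (nat_lit 13) (.e (nat_lit 172082) (nat_lit 7) .nil))) .nil)))) (.nd (nat_lit 4) (.nd (nat_lit 5) 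
(.lf (nat_lit 82188) (.g (nat_lit 2285) (.e (nat_lit 1855) (nat_lit 124) (.e (nat_lit 557098) (nat_lit 13) (.e (nat_lit 172115) (nat_lit 10) (.e (nat_lit 434231) (nat_lit 23) (.e (nat_lit 532490) (nat_lit 0) (.e (nat_lit 6114) (nat_lit 332) (.e (nat_lit 1379) (nat_lit 104) (.e (nat_lit 303150) (nat_lit 15) .nil)))))))) (.g (nat_lit 4) .nil .nil))) 
(.lf (nat_lit 82220) (.g (nat_lit 2806) (.e (nat_lit 1855) (nat_lit 124) (.e (nat_lit 557098) (nat_lit 13) (.e (nat_lit 172126) (nat_lit 14) (.e (nat_lit 491537) (nat_lit 2) (.e (nat_lit 90176) (nat_lit 15) (.e (nat_lit 188420) (nat_lit 0) .nil)))))) (.g (nat_lit 5) .nil .nil)))) (.nd (nat_lit 5) 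
(.lf (nat_lit 82204) (.g (nat_lit 2207) (.e (nat_lit 1855) (nat_lit 124) (.e (nat_lit 557098) (nat_lit 13) (.e (nat_lit 172115) (nat_lit 10) (.e (nat_lit 434244) (nat_lit 28) (.e (nat_lit 573464) (nat_lit 9) .nil))))) .nil)) 
(.lf (nat_lit 82236) (.g (nat_lit 2130) (.e (nat_lit 1855) (nat_lit 124) (.e (nat_lit 557100) (nat_lit 13) (.e (nat_lit 172106) (nat_lit 10) (.e (nat_lit 434231) (nat_lit 23) (.e (nat_lit 532529) (nat_lit 9) (.e (nat_lit 336257) (nat_lit 15) (.e (nat_lit 3749) (nat_lit 228) (.e (nat_lit 786447) (nat_lit 15) .nil)))))))) (.g (nat_lit 4) .nil .nil))))))) 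
(.nd (nat_lit 2) (.nd (nat_lit 3) (.nd (nat_lit 4) (.nd (nat_lit 5) 
(.lf (nat_lit 82178) (.g (nat_lit 2734) (.e (nat_lit 1855) (nat_lit 124) (.e (nat_lit 557098) (nat_lit 13) (.e (nat_lit 172097) (nat_lit 9) (.e (nat_lit 426140) (nat_lit 3) (.e (nat_lit 204821) (nat_lit 17) (.e (nat_lit 7936) (nat_lit 361) (.e (nat_lit 172138) (nat_lit 15) .nil))))))) (.g (nat_lit 4) .nil .nil))) 
(.lf (nat_lit 82210) (.g (nat_lit 747) (.e (nat_lit 1855) (nat_lit 124) (.e (nat_lit 557098) (nat_lit 13) (.e (nat_lit 172118) (nat_lit 12) .nil))) .nil))) (.nd (nat_lit 5) 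
(.lf (nat_lit 82194) (.g (nat_lit 2204) (.e (nat_lit 1855) (nat_lit 124) (.e (nat_lit 557098) (nat_lit 13) (.e (nat_lit 172115) (nat_lit 10) (.e (nat_lit 434231) (nat_lit 23) (.e (nat_lit 532535) (nat_lit 9) (.e (nat_lit 336030) (nat_lit 4) (.e (nat_lit 123197) (nat_lit 266) (.e (nat_lit 57354) (nat_lit 0) .nil)))))))) (.g (nat_lit 4) .nil .nil))) 
(.lf (nat_lit 82226) (.g (nat_lit 2793) (.e (nat_lit 1855) (nat_lit 124) (.e (nat_lit 557098) (nat_lit 13) (.e (nat_lit 172126) (nat_lit 14) (.e (nat_lit 491540) (nat_lit 3) (.e (nat_lit 98370) (nat_lit 28) (.e (nat_lit 442377) (nat_lit 0) .nil)))))) (.g (nat_lit 4) .nil .nil))))) (.nd (nat_lit 4) (.nd (nat_lit 5) 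
(.lf (nat_lit 82186) (.g (nat_lit 1984) (.e (nat_lit 1855) (nat_lit 124) (.e (nat_lit 557098) (nat_lit 13) (.e (nat_lit 172115) (nat_lit 10) (.e (nat_lit 434231) (nat_lit 23) (.e (nat_lit 532490) (nat_lit 0) .nil))))) .nil)) 
(.lf (nat_lit 82218) (.g (nat_lit 2958) (.e (nat_lit 1855) (nat_lit 124) (.e (nat_lit 557098) (nat_lit 13) (.e (nat_lit 172124) (nat_lit 14) (.e (nat_lit 491540) (nat_lit 3) (.e (nat_lit 98370) (nat_lit 28) (.e (nat_lit 442377) (nat_lit 0) .nil)))))) (.g (nat_lit 5) .nil .nil)))) (.nd (nat_lit 5) 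
(.lf (nat_lit 82202) (.g (nat_lit 2315) (.e (nat_lit 1855) (nat_lit 124) (.e (nat_lit 557098) (nat_lit 13) (.e (nat_lit 172115) (nat_lit 10) (.e (nat_lit 434238) (nat_lit 25) (.e (nat_lit 548898) (nat_lit 14) (.e (nat_lit 3004) (nat_lit 186) (.e (nat_lit 450304) (nat_lit 0) .nil))))))) (.g (nat_lit 4) .nil .nil))) 
(.lf (nat_lit 82234) (.g (nat_lit 2341) (.e (nat_lit 1855) (nat_lit 124) (.e (nat_lit 557100) (nat_lit 13) (.e (nat_lit 172106) (nat_lit 10) (.e (nat_lit 434231) (nat_lit 23) (.e (nat_lit 532529) (nat_lit 9) (.e (nat_lit 336036) (nat_lit 4) (.e (nat_lit 123195) (nat_lit 266) (.e (nat_lit 57354) (nat_lit 0) .nil)))))))) (.g (nat_lit 4) .nil .nil)))))) 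
(.nd (nat_lit 3) (.nd (nat_lit 4) (.nd (nat_lit 5) 
(.lf (nat_lit 82182) (.g (nat_lit 1274) (.e (nat_lit 1855) (nat_lit 124) (.e (nat_lit 557098) (nat_lit 13) (.e (nat_lit 172115) (nat_lit 10) (.e (nat_lit 434227) (nat_lit 20) .nil)))) .nil)) 
(.lf (nat_lit 82214) (.g (nat_lit 3262) (.e (nat_lit 1855) (nat_lit 124) (.e (nat_lit 557098) (nat_lit 13) (.e (nat_lit 172120) (nat_lit 12) (.e (nat_lit 475185) (nat_lit 29) (.e (nat_lit 557109) (nat_lit 15) (.e (nat_lit 188419) (nat_lit 0) .nil)))))) (.g (nat_lit 4) .nil .nil)))) (.nd (nat_lit 5) 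
(.lf (nat_lit 82198) (.g (nat_lit 2610) (.e (nat_lit 1855) (nat_lit 124) (.e (nat_lit 557098) (nat_lit 13) (.e (nat_lit 172115) (nat_lit 10) (.e (nat_lit 434231) (nat_lit 23) (.e (nat_lit 532569) (nat_lit 16) (.e (nat_lit 401440) (nat_lit 9) (.e (nat_lit 426396) (nat_lit 15) .nil))))))) (.g (nat_lit 5) .nil .nil))) 
(.lf (nat_lit 82230) (.g (nat_lit 1122) (.e (nat_lit 1855) (nat_lit 124) (.e (nat_lit 557100) (nat_lit 13) (.e (nat_lit 172106) (nat_lit 10) (.e (nat_lit 434231) (nat_lit 23) .nil)))) .nil)))) (.nd (nat_lit 4) (.nd (nat_lit 5) 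
(.lf (nat_lit 82190) (.g (nat_lit 2284) (.e (nat_lit 1855) (nat_lit 124) (.e (nat_lit 557098) (nat_lit 13) (.e (nat_lit 172115) (nat_lit 10) (.e (nat_lit 434231) (nat_lit 23) (.e (nat_lit 532490) (nat_lit 0) (.e (nat_lit 7936) (nat_lit 361) (.e (nat_lit 172138) (nat_lit 15) .nil))))))) (.g (nat_lit 4) .nil .nil))) 
(.lf (nat_lit 82222) (.g (nat_lit 2347) (.e (nat_lit 1855) (nat_lit 124) (.e (nat_lit 557098) (nat_lit 13) (.e (nat_lit 172126) (nat_lit 14) (.e (nat_lit 491539) (nat_lit 3) (.e (nat_lit 98380) (nat_lit 31) (.e (nat_lit 466947) (nat_lit 0) .nil)))))) (.g (nat_lit 4) .nil .nil)))) (.nd (nat_lit 5) 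
(.lf (nat_lit 82206) (.g (nat_lit 2846) (.e (nat_lit 1855) (nat_lit 124) (.e (nat_lit 557098) (nat_lit 13) (.e (nat_lit 172115) (nat_lit 10) (.e (nat_lit 434244) (nat_lit 28) (.e (nat_lit 573471) (nat_lit 11) (.e (nat_lit 16440) (nat_lit 9) (.e (nat_lit 426410) (nat_lit 15) .nil))))))) (.g (nat_lit 5) .nil .nil))) 
(.lf (nat_lit 82238) (.g (nat_lit 2052) (.e (nat_lit 1855) (nat_lit 124) (.e (nat_lit 557100) (nat_lit 13) (.e (nat_lit 172106) (nat_lit 10) (.e (nat_lit 434231) (nat_lit 23) (.e (nat_lit 532529) (nat_lit 9) (.e (nat_lit 336262) (nat_lit 15) (.e (nat_lit 3746) (nat_lit 228) (.e (nat_lit 786447) (nat_lit 15) .nil)))))))) (.g (nat_lit 4) .nil .nil)))))))) 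
(.nd (nat_lit 1) (.nd (nat_lit 2) (.nd (nat_lit 3) (.nd (nat_lit 4) (.nd (nat_lit 5) 
(.lf (nat_lit 82177) (.g (nat_lit 2943) (.e (nat_lit 1855) (nat_lit 124) (.e (nat_lit 557098) (nat_lit 13) (.e (nat_lit 172097) (nat_lit 9) (.e (nat_lit 426140) (nat_lit 3) (.e (nat_lit 204821) (nat_lit 17) (.e (nat_lit 7936) (nat_lit 361) (.e (nat_lit 172136) (nat_lit 15) .nil))))))) (.g (nat_lit 5) .nil .nil))) 
(.lf (nat_lit 82209) (.g (nat_lit 4253) (.e (nat_lit 1855) (nat_lit 124) (.e (nat_lit 557098) (nat_lit 13) (.e (nat_lit 172115) (nat_lit 10) (.e (nat_lit 434244) (nat_lit 28) (.e (nat_lit 573471) (nat_lit 11) (.e (nat_lit 16446) (nat_lit 9) (.e (nat_lit 426413) (nat_lit 15) .nil))))))) (.g (nat_lit 6) .nil .nil)))) (.nd (nat_lit 5) 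
(.lf (nat_lit 82193) (.g (nat_lit 2283) (.e (nat_lit 1855) (nat_lit 124) (.e (nat_lit 557098) (nat_lit 13) (.e (nat_lit 172115) (nat_lit 10) (.e (nat_lit 434231) (nat_lit 23) (.e (nat_lit 532535) (nat_lit 9) (.e (nat_lit 336030) (nat_lit 4) (.e (nat_lit 123196) (nat_lit 266) (.e (nat_lit 57354) (nat_lit 0) .nil)))))))) (.g (nat_lit 4) .nil .nil))) 
(.lf (nat_lit 82225) (.g (nat_lit 2692) (.e (nat_lit 1855) (nat_lit 124) (.e (nat_lit 557098) (nat_lit 13) (.e (nat_lit 172126) (nat_lit 14) (.e (nat_lit 491540) (nat_lit 3) (.e (nat_lit 98370) (nat_lit 28) (.e (nat_lit 442372) (nat_lit 0) .nil)))))) (.g (nat_lit 4) .nil .nil))))) (.nd (nat_lit 4) (.nd (nat_lit 5) 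
(.lf (nat_lit 82185) (.g (nat_lit 2263) (.e (nat_lit 1855) (nat_lit 124) (.e (nat_lit 557098) (nat_lit 13) (.e (nat_lit 172115) (nat_lit 10) (.e (nat_lit 434231) (nat_lit 23) (.e (nat_lit 532486) (nat_lit 0) .nil))))) .nil)) 
(.lf (nat_lit 82217) (.g (nat_lit 2793) (.e (nat_lit 1855) (nat_lit 124) (.e (nat_lit 557098) (nat_lit 13) (.e (nat_lit 172124) (nat_lit 14) (.e (nat_lit 491540) (nat_lit 3) (.e (nat_lit 98370) (nat_lit 28) (.e (nat_lit 442372) (nat_lit 0) .nil)))))) (.g (nat_lit 5) .nil .nil)))) (.nd (nat_lit 5) 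
(.lf (nat_lit 82201) (.g (nat_lit 1745) (.e (nat_lit 1855) (nat_lit 124) (.e (nat_lit 557098) (nat_lit 13) (.e (nat_lit 172115) (nat_lit 10) (.e (nat_lit 434238) (nat_lit 25) (.e (nat_lit 548898) (nat_lit 14) .nil))))) .nil)) 
(.lf (nat_lit 82233) (.g (nat_lit 2494) (.e (nat_lit 1855) (nat_lit 124) (.e (nat_lit 557100) (nat_lit 13) (.e (nat_lit 172106) (nat_lit 10) (.e (nat_lit 434231) (nat_lit 23) (.e (nat_lit 532490) (nat_lit 0) (.e (nat_lit 7936) (nat_lit 364) (.e (nat_lit 237629) (nat_lit 15) .nil))))))) (.g (nat_lit 4) .nil .nil)))))) (.nd (nat_lit 3) (.nd (nat_lit 4) (.nd (nat_lit 5) 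
(.lf (nat_lit 82181) (.g (nat_lit 2375) (.e (nat_lit 1855) (nat_lit 124) (.e (nat_lit 557098) (nat_lit 13) (.e (nat_lit 172097) (nat_lit 9) (.e (nat_lit 426140) (nat_lit 3) (.e (nat_lit 204882) (nat_lit 32) .nil))))) .nil)) 
(.lf (nat_lit 82213) (.g (nat_lit 2396) (.e (nat_lit 1855) (nat_lit 124) (.e (nat_lit 557098) (nat_lit 13) (.e (nat_lit 172120) (nat_lit 12) (.e (nat_lit 475185) (nat_lit 29) (.e (nat_lit 557107) (nat_lit 15) (.e (nat_lit 196352) (nat_lit 0) .nil)))))) (.g (nat_lit 4) .nil .nil)))) (.nd (nat_lit 5) 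
(.lf (nat_lit 82197) (.g (nat_lit 2988) (.e (nat_lit 1855) (nat_lit 124) (.e (nat_lit 557098) (nat_lit 13) (.e (nat_lit 172115) (nat_lit 10) (.e (nat_lit 434231) (nat_lit 23) (.e (nat_lit 532564) (nat_lit 15) (.e (nat_lit 385104) (nat_lit 50) (.e (nat_lit 786447) (nat_lit 15) .nil))))))) (.g (nat_lit 5) .nil .nil))) 
(.lf (nat_lit 82229) (.g (nat_lit 1473) (.e (nat_lit 1855) (nat_lit 124) (.e (nat_lit 557100) (nat_lit 13) (.e (nat_lit 172106) (nat_lit 10) (.e (nat_lit 434227) (nat_lit 20) .nil)))) .nil)))) (.nd (nat_lit 4) (.nd (nat_lit 5) 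
(.lf (nat_lit 82189) (.g (nat_lit 3052) (.e (nat_lit 1855) (nat_lit 124) (.e (nat_lit 557098) (nat_lit 13) (.e (nat_lit 172115) (nat_lit 10) (.e (nat_lit 434231) (nat_lit 23) (.e (nat_lit 532490) (nat_lit 0) (.e (nat_lit 7936) (nat_lit 361) (.e (nat_lit 172136) (nat_lit 15) .nil))))))) (.g (nat_lit 5) .nil .nil))) 
(.lf (nat_lit 82221) (.g (nat_lit 2253) (.e (nat_lit 1855) (nat_lit 124) (.e (nat_lit 557098) (nat_lit 13) (.e (nat_lit 172126) (nat_lit 14) (.e (nat_lit 491537) (nat_lit 2) (.e (nat_lit 90178) (nat_lit 15) (.e (nat_lit 188418) (nat_lit 0) .nil)))))) (.g (nat_lit 4) .nil .nil)))) (.nd (nat_lit 5) 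
(.lf (nat_lit 82205) (.g (nat_lit 1877) (.e (nat_lit 1855) (nat_lit 124) (.e (nat_lit 557098) (nat_lit 13) (.e (nat_lit 172115) (nat_lit 10) (.e (nat_lit 434244) (nat_lit 28) (.e (nat_lit 573471) (nat_lit 11) (.e (nat_lit 16439) (nat_lit 9) (.e (nat_lit 426380) (nat_lit 15) .nil))))))) (.g (nat_lit 4) .nil .nil))) 
(.lf (nat_lit 82237) (.g (nat_lit 1934) (.e (nat_lit 1855) (nat_lit 124) (.e (nat_lit 557100) (nat_lit 13) (.e (nat_lit 172106) (nat_lit 10) (.e (nat_lit 434231) (nat_lit 23) (.e (nat_lit 532529) (nat_lit 9) (.e (nat_lit 336257) (nat_lit 15) (.e (nat_lit 3753) (nat_lit 228) (.e (nat_lit 786447) (nat_lit 15) .nil)))))))) (.g (nat_lit 4) .nil .nil))))))) 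
(.nd (nat_lit 2) (.nd (nat_lit 3) (.nd (nat_lit 4) (.nd (nat_lit 5) 
(.lf (nat_lit 82179) (.g (nat_lit 2217) (.e (nat_lit 1855) (nat_lit 124) (.e (nat_lit 557098) (nat_lit 13) (.e (nat_lit 172097) (nat_lit 9) (.e (nat_lit 426140) (nat_lit 3) (.e (nat_lit 204855) (nat_lit 26) .nil))))) .nil)) 
(.lf (nat_lit 82211) (.g (nat_lit 2659) (.e (nat_lit 1855) (nat_lit 124) (.e (nat_lit 557098) (nat_lit 13) (.e (nat_lit 172119) (nat_lit 12) (.e (nat_lit 475185) (nat_lit 29) (.e (nat_lit 557109) (nat_lit 15) (.e (nat_lit 196352) (nat_lit 0) .nil)))))) (.g (nat_lit 4) .nil .nil)))) (.nd (nat_lit 5) 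
(.lf (nat_lit 82195) (.g (nat_lit 2801) (.e (nat_lit 1855) (nat_lit 124) (.e (nat_lit 557098) (nat_lit 13) (.e (nat_lit 172115) (nat_lit 10) (.e (nat_lit 434231) (nat_lit 23) (.e (nat_lit 532535) (nat_lit 9) (.e (nat_lit 336030) (nat_lit 4) (.e (nat_lit 123198) (nat_lit 266) (.e (nat_lit 57354) (nat_lit 0) .nil)))))))) (.g (nat_lit 5) .nil .nil))) 
(.lf (nat_lit 82227) (.g (nat_lit 2251) (.e (nat_lit 1855) (nat_lit 124) (.e (nat_lit 557098) (nat_lit 13) (.e (nat_lit 172126) (nat_lit 14) (.e (nat_lit 491540) (nat_lit 3) (.e (nat_lit 98370) (nat_lit 28) (.e (nat_lit 442378) (nat_lit 0) .nil)))))) (.g (nat_lit 4) .nil .nil))))) (.nd (nat_lit 4) (.nd (nat_lit 5) 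
(.lf (nat_lit 82187) (.g (nat_lit 3743) (.e (nat_lit 1855) (nat_lit 124) (.e (nat_lit 557098) (nat_lit 13) (.e (nat_lit 172115) (nat_lit 10) (.e (nat_lit 434231) (nat_lit 23) (.e (nat_lit 532490) (nat_lit 0) (.e (nat_lit 6114) (nat_lit 332) (.e (nat_lit 1376) (nat_lit 104) (.e (nat_lit 303147) (nat_lit 15) .nil)))))))) (.g (nat_lit 5) .nil .nil))) 
(.lf (nat_lit 82219) (.g (nat_lit 2352) (.e (nat_lit 1855) (nat_lit 124) (.e (nat_lit 557098) (nat_lit 13) (.e (nat_lit 172124) (nat_lit 14) (.e (nat_lit 491540) (nat_lit 3) (.e (nat_lit 98370) (nat_lit 28) (.e (nat_lit 442378) (nat_lit 0) .nil)))))) (.g (nat_lit 4) .nil .nil)))) (.nd (nat_lit 5) 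
(.lf (nat_lit 82203) (.g (nat_lit 1099) (.e (nat_lit 1855) (nat_lit 124) (.e (nat_lit 557098) (nat_lit 13) (.e (nat_lit 172115) (nat_lit 10) (.e (nat_lit 434244) (nat_lit 28) .nil)))) .nil)) 
(.lf (nat_lit 82235) (.g (nat_lit 1968) (.e (nat_lit 1855) (nat_lit 124) (.e (nat_lit 557100) (nat_lit 13) (.e (nat_lit 172106) (nat_lit 10) (.e (nat_lit 434231) (nat_lit 23) (.e (nat_lit 532529) (nat_lit 9) (.e (nat_lit 336257) (nat_lit 15) (.e (nat_lit 3742) (nat_lit 228) (.e (nat_lit 786447) (nat_lit 15) .nil)))))))) (.g (nat_lit 4) .nil .nil)))))) 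
(.nd (nat_lit 3) (.nd (nat_lit 4) (.nd (nat_lit 5) 
(.lf (nat_lit 82183) (.g (nat_lit 1243) (.e (nat_lit 1855) (nat_lit 124) (.e (nat_lit 557098) (nat_lit 13) (.e (nat_lit 172115) (nat_lit 10) (.e (nat_lit 434231) (nat_lit 23) .nil)))) .nil)) 
(.lf (nat_lit 82215) (.g (nat_lit 3183) (.e (nat_lit 1855) (nat_lit 124) (.e (nat_lit 557098) (nat_lit 13) (.e (nat_lit 172120) (nat_lit 12) (.e (nat_lit 475185) (nat_lit 29) (.e (nat_lit 557109) (nat_lit 15) (.e (nat_lit 196352) (nat_lit 0) .nil)))))) (.g (nat_lit 4) .nil .nil)))) (.nd (nat_lit 5) 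
(.lf (nat_lit 82199) (.g (nat_lit 2574) (.e (nat_lit 1855) (nat_lit 124) (.e (nat_lit 557098) (nat_lit 13) (.e (nat_lit 172115) (nat_lit 10) (.e (nat_lit 434231) (nat_lit 23) (.e (nat_lit 532569) (nat_lit 16) (.e (nat_lit 401440) (nat_lit 9) (.e (nat_lit 426410) (nat_lit 15) .nil))))))) (.g (nat_lit 4) .nil .nil))) 
(.lf (nat_lit 82231) (.g (nat_lit 1810) (.e (nat_lit 1855) (nat_lit 124) (.e (nat_lit 557100) (nat_lit 13) (.e (nat_lit 172106) (nat_lit 10) (.e (nat_lit 434231) (nat_lit 23) (.e (nat_lit 532490) (nat_lit 0) .nil))))) .nil)))) (.nd (nat_lit 4) (.nd (nat_lit 5) 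
(.lf (nat_lit 82191) (.g (nat_lit 2327) (.e (nat_lit 1855) (nat_lit 124) (.e (nat_lit 557098) (nat_lit 13) (.e (nat_lit 172115) (nat_lit 10) (.e (nat_lit 434231) (nat_lit 23) (.e (nat_lit 532490) (nat_lit 0) (.e (nat_lit 7936) (nat_lit 364) (.e (nat_lit 237631) (nat_lit 15) .nil))))))) (.g (nat_lit 4) .nil .nil))) 
(.lf (nat_lit 82223) (.g (nat_lit 2299) (.e (nat_lit 1855) (nat_lit 124) (.e (nat_lit 557098) (nat_lit 13) (.e (nat_lit 172126) (nat_lit 14) (.e (nat_lit 491539) (nat_lit 3) (.e (nat_lit 98381) (nat_lit 31) .nil))))) .nil))) (.nd (nat_lit 5) 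
(.lf (nat_lit 82207) (.g (nat_lit 2277) (.e (nat_lit 1855) (nat_lit 124) (.e (nat_lit 557098) (nat_lit 13) (.e (nat_lit 172115) (nat_lit 10) (.e (nat_lit 434244) (nat_lit 28) (.e (nat_lit 573471) (nat_lit 11) (.e (nat_lit 16440) (nat_lit 9) (.e (nat_lit 426411) (nat_lit 15) .nil))))))) (.g (nat_lit 4) .nil .nil))) 
(.lf (nat_lit 82239) (.g (nat_lit 2868) (.e (nat_lit 1855) (nat_lit 124) (.e (nat_lit 557100) (nat_lit 13) (.e (nat_lit 172106) (nat_lit 10) (.e (nat_lit 434231) (nat_lit 23) (.e (nat_lit 532529) (nat_lit 9) (.e (nat_lit 336297) (nat_lit 15) (.e (nat_lit 3745) (nat_lit 228) (.e (nat_lit 786447) (nat_lit 15) .nil)))))))) (.g (nat_lit 5) .nil .nil)))))))))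

noncomputable def tv1113 : DT := (.nd (nat_lit 0) (.nd (nat_lit 1) (.nd (nat_lit 2) (.nd (nat_lit 3) (.nd (nat_lit 4) (.nd (nat_lit 5) 
(.lf (nat_lit 82240) (.g (nat_lit 2290) (.e (nat_lit 1855) (nat_lit 124) (.e (nat_lit 557100) (nat_lit 13) (.e (nat_lit 172106) (nat_lit 10) (.e (nat_lit 434231) (nat_lit 23) (.e (nat_lit 532529) (nat_lit 9) (.e (nat_lit 336297) (nat_lit 15) (.e (nat_lit 3746) (nat_lit 228) (.e (nat_lit 786447) (nat_lit 15) .nil)))))))) (.g (nat_lit 4) .nil .nil))) 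
(.lf (nat_lit 82272) (.g (nat_lit 2515) (.e (nat_lit 1855) (nat_lit 124) (.e (nat_lit 557100) (nat_lit 13) (.e (nat_lit 172106) (nat_lit 10) (.e (nat_lit 434244) (nat_lit 28) (.e (nat_lit 573458) (nat_lit 9) (.e (nat_lit 7936) (nat_lit 34) (.e (nat_lit 442377) (nat_lit 0) .nil))))))) (.g (nat_lit 4) .nil .nil)))) (.nd (nat_lit 5) 
(.lf (nat_lit 82256) (.g (nat_lit 3997) (.e (nat_lit 1855) (nat_lit 124) (.e (nat_lit 557100) (nat_lit 13) (.e (nat_lit 172106) (nat_lit 10) (.e (nat_lit 434231) (nat_lit 23) (.e (nat_lit 532563) (nat_lit 15) (.e (nat_lit 385106) (nat_lit 50) (.e (nat_lit 786447) (nat_lit 15) .nil))))))) (.g (nat_lit 6) .nil .nil))) 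
(.lf (nat_lit 82288) (.g (nat_lit 2226) (.e (nat_lit 1855) (nat_lit 124) (.e (nat_lit 557100) (nat_lit 13) (.e (nat_lit 172113) (nat_lit 10) (.e (nat_lit 434245) (nat_lit 28) (.e (nat_lit 573450) (nat_lit 9) (.e (nat_lit 457) (nat_lit 34) (.e (nat_lit 442377) (nat_lit 0) .nil))))))) (.g (nat_lit 4) .nil .nil))))) (.nd (nat_lit 4) (.nd (nat_lit 5) 
(.lf (nat_lit 82248) (.g (nat_lit 2033) (.e (nat_lit 1855) (nat_lit 124) (.e (nat_lit 557100) (nat_lit 13) (.e (nat_lit 172106) (nat_lit 10) (.e (nat_lit 434231) (nat_lit 23) (.e (nat_lit 532544) (nat_lit 10) (.e (nat_lit 344103) (nat_lit 18) (.e (nat_lit 5949) (nat_lit 322) (.e (nat_lit 57354) (nat_lit 0) .nil)))))))) (.g (nat_lit 4) .nil .nil))) 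
(.lf (nat_lit 82280) (.g (nat_lit 3050) (.e (nat_lit 1855) (nat_lit 124) (.e (nat_lit 557100) (nat_lit 13) (.e (nat_lit 172113) (nat_lit 10) (.e (nat_lit 434238) (nat_lit 25) (.e (nat_lit 548898) (nat_lit 14) (.e (nat_lit 3004) (nat_lit 186) (.e (nat_lit 450304) (nat_lit 0) .nil))))))) (.g (nat_lit 4) .nil .nil)))) (.nd (nat_lit 5) 
(.lf (nat_lit 82264) (.g (nat_lit 2165) (.e (nat_lit 1855) (nat_lit 124) (.e (nat_lit 557100) (nat_lit 13) (.e (nat_lit 172106) (nat_lit 10) (.e (nat_lit 434238) (nat_lit 25) (.e (nat_lit 548898) (nat_lit 14) .nil))))) .nil)) 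
(.lf (nat_lit 82296) (.g (nat_lit 2253) (.e (nat_lit 1855) (nat_lit 124) (.e (nat_lit 557100) (nat_lit 13) (.e (nat_lit 172113) (nat_lit 10) (.e (nat_lit 434245) (nat_lit 28) (.e (nat_lit 573451) (nat_lit 9) (.e (nat_lit 7936) (nat_lit 34) (.e (nat_lit 450304) (nat_lit 0) .nil))))))) (.g (nat_lit 4) .nil .nil)))))) (.nd (nat_lit 3) (.nd (nat_lit 4) (.nd (nat_lit 5) 
(.lf (nat_lit 82244) (.g (nat_lit 2562) (.e (nat_lit 1855) (nat_lit 124) (.e (nat_lit 557100) (nat_lit 13) (.e (nat_lit 172106) (nat_lit 10) (.e (nat_lit 434231) (nat_lit 23) (.e (nat_lit 532535) (nat_lit 9) (.e (nat_lit 336030) (nat_lit 4) (.e (nat_lit 123198) (nat_lit 266) (.e (nat_lit 57361) (nat_lit 0) .nil)))))))) (.g (nat_lit 5) .nil .nil))) 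
(.lf (nat_lit 82276) (.g (nat_lit 409) (.e (nat_lit 1855) (nat_lit 124) (.e (nat_lit 557100) (nat_lit 13) (.e (nat_lit 172113) (nat_lit 10) .nil))) .nil))) (.nd (nat_lit 5) 
(.lf (nat_lit 82260) (.g (nat_lit 2677) (.e (nat_lit 1855) (nat_lit 124) (.e (nat_lit 557100) (nat_lit 13) (.e (nat_lit 172106) (nat_lit 10) (.e (nat_lit 434231) (nat_lit 23) (.e (nat_lit 532565) (nat_lit 15) .nil))))) .nil)) 
(.lf (nat_lit 82292) (.g (nat_lit 2416) (.e (nat_lit 1855) (nat_lit 124) (.e (nat_lit 557100) (nat_lit 13) (.e (nat_lit 172113) (nat_lit 10) (.e (nat_lit 434245) (nat_lit 28) (.e (nat_lit 573450) (nat_lit 9) (.e (nat_lit 479) (nat_lit 37) (.e (nat_lit 466949) (nat_lit 0) .nil))))))) (.g (nat_lit 4) .nil .nil))))) (.nd (nat_lit 4) (.nd (nat_lit 5) 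
(.lf (nat_lit 82252) (.g (nat_lit 3712) (.e (nat_lit 1855) (nat_lit 124) (.e (nat_lit 557100) (nat_lit 13) (.e (nat_lit 172106) (nat_lit 10) (.e (nat_lit 434231) (nat_lit 23) (.e (nat_lit 532563) (nat_lit 15) (.e (nat_lit 385102) (nat_lit 50) (.e (nat_lit 786447) (nat_lit 15) .nil))))))) (.g (nat_lit 5) .nil .nil))) 
(.lf (nat_lit 82284) (.g (nat_lit 2505) (.e (nat_lit 1855) (nat_lit 124) (.e (nat_lit 557100) (nat_lit 13) (.e (nat_lit 172113) (nat_lit 10) (.e (nat_lit 434245) (nat_lit 28) (.e (nat_lit 573448) (nat_lit 9) (.e (nat_lit 460) (nat_lit 34) (.e (nat_lit 442378) (nat_lit 0) .nil))))))) (.g (nat_lit 4) .nil .nil)))) (.nd (nat_lit 5) 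
(.lf (nat_lit 82268) (.g (nat_lit 2877) (.e (nat_lit 1855) (nat_lit 124) (.e (nat_lit 557100) (nat_lit 13) (.e (nat_lit 172106) (nat_lit 10) (.e (nat_lit 434244) (nat_lit 28) (.e (nat_lit 573450) (nat_lit 9) (.e (nat_lit 457) (nat_lit 34) (.e (nat_lit 442372) (nat_lit 0) .nil))))))) (.g (nat_lit 4) .nil .nil))) 
(.lf (nat_lit 82300) (.g (nat_lit 2772) (.e (nat_lit 1855) (nat_lit 124) (.e (nat_lit 557100) (nat_lit 13) (.e (nat_lit 172113) (nat_lit 10) (.e (nat_lit 434245) (nat_lit 28) (.e (nat_lit 573458) (nat_lit 9) (.e (nat_lit 426) (nat_lit 32) (.e (nat_lit 426198) (nat_lit 9) (.e (nat_lit 426402) (nat_lit 15) .nil)))))))) (.g (nat_lit 4) .nil .nil))))))) 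
(.nd (nat_lit 2) (.nd (nat_lit 3) (.nd (nat_lit 4) (.nd (nat_lit 5) 
(.lf (nat_lit 82242) (.g (nat_lit 2405) (.e (nat_lit 1855) (nat_lit 124) (.e (nat_lit 557100) (nat_lit 13) (.e (nat_lit 172106) (nat_lit 10) (.e (nat_lit 434231) (nat_lit 23) (.e (nat_lit 532529) (nat_lit 9) (.e (nat_lit 336306) (nat_lit 15) (.e (nat_lit 3735) (nat_lit 228) (.e (nat_lit 786447) (nat_lit 15) .nil)))))))) (.g (nat_lit 4) .nil .nil))) 
(.lf (nat_lit 82274) (.g (nat_lit 2803) (.e (nat_lit 1855) (nat_lit 124) (.e (nat_lit 557100) (nat_lit 13) (.e (nat_lit 172106) (nat_lit 10) (.e (nat_lit 434244) (nat_lit 28) (.e (nat_lit 573471) (nat_lit 11) (.e (nat_lit 16440) (nat_lit 9) (.e (nat_lit 426380) (nat_lit 15) .nil))))))) (.g (nat_lit 4) .nil .nil)))) (.nd (nat_lit 5) 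
(.lf (nat_lit 82258) (.g (nat_lit 3506) (.e (nat_lit 1855) (nat_lit 124) (.e (nat_lit 557100) (nat_lit 13) (.e (nat_lit 172106) (nat_lit 10) (.e (nat_lit 434231) (nat_lit 23) (.e (nat_lit 532564) (nat_lit 15) (.e (nat_lit 385103) (nat_lit 50) (.e (nat_lit 786447) (nat_lit 15) .nil))))))) (.g (nat_lit 6) .nil .nil))) 
(.lf (nat_lit 82290) (.g (nat_lit 2179) (.e (nat_lit 1855) (nat_lit 124) (.e (nat_lit 557100) (nat_lit 13) (.e (nat_lit 172113) (nat_lit 10) (.e (nat_lit 434245) (nat_lit 28) (.e (nat_lit 573450) (nat_lit 9) (.e (nat_lit 459) (nat_lit 34) (.e (nat_lit 442377) (nat_lit 0) .nil))))))) (.g (nat_lit 4) .nil .nil))))) (.nd (nat_lit 4) (.nd (nat_lit 5) 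
(.lf (nat_lit 82250) (.g (nat_lit 2339) (.e (nat_lit 1855) (nat_lit 124) (.e (nat_lit 557100) (nat_lit 13) (.e (nat_lit 172106) (nat_lit 10) (.e (nat_lit 434231) (nat_lit 23) (.e (nat_lit 532562) (nat_lit 15) (.e (nat_lit 385104) (nat_lit 50) (.e (nat_lit 786447) (nat_lit 15) .nil))))))) (.g (nat_lit 4) .nil .nil))) 
(.lf (nat_lit 82282) (.g (nat_lit 2024) (.e (nat_lit 1855) (nat_lit 124) (.e (nat_lit 557100) (nat_lit 13) (.e (nat_lit 172113) (nat_lit 10) (.e (nat_lit 434238) (nat_lit 25) (.e (nat_lit 548915) (nat_lit 20) .nil))))) .nil))) (.nd (nat_lit 5) 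
(.lf (nat_lit 82266) (.g (nat_lit 2782) (.e (nat_lit 1855) (nat_lit 124) (.e (nat_lit 557100) (nat_lit 13) (.e (nat_lit 172106) (nat_lit 10) (.e (nat_lit 434244) (nat_lit 28) (.e (nat_lit 573450) (nat_lit 9) (.e (nat_lit 375) (nat_lit 32) (.e (nat_lit 426201) (nat_lit 9) (.e (nat_lit 426399) (nat_lit 15) .nil)))))))) (.g (nat_lit 4) .nil .nil))) 
(.lf (nat_lit 82298) (.g (nat_lit 2468) (.e (nat_lit 1855) (nat_lit 124) (.e (nat_lit 557100) (nat_lit 13) (.e (nat_lit 172113) (nat_lit 10) (.e (nat_lit 434245) (nat_lit 28) (.e (nat_lit 573454) (nat_lit 9) (.e (nat_lit 458) (nat_lit 34) (.e (nat_lit 442379) (nat_lit 0) .nil))))))) (.g (nat_lit 4) .nil .nil)))))) (.nd (nat_lit 3) (.nd (nat_lit 4) (.nd (nat_lit 5) 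
(.lf (nat_lit 82246) (.g (nat_lit 3246) (.e (nat_lit 1855) (nat_lit 124) (.e (nat_lit 557100) (nat_lit 13) (.e (nat_lit 172106) (nat_lit 10) (.e (nat_lit 434231) (nat_lit 23) (.e (nat_lit 532535) (nat_lit 9) (.e (nat_lit 336295) (nat_lit 15) (.e (nat_lit 3747) (nat_lit 228) (.e (nat_lit 786447) (nat_lit 15) .nil)))))))) (.g (nat_lit 6) .nil .nil))) 
(.lf (nat_lit 82278) (.g (nat_lit 2095) (.e (nat_lit 1855) (nat_lit 124) (.e (nat_lit 557100) (nat_lit 13) (.e (nat_lit 172113) (nat_lit 10) (.e (nat_lit 434238) (nat_lit 25) (.e (nat_lit 548894) (nat_lit 14) .nil))))) .nil))) (.nd (nat_lit 5) 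
(.lf (nat_lit 82262) (.g (nat_lit 2023) (.e (nat_lit 1855) (nat_lit 124) (.e (nat_lit 557100) (nat_lit 13) (.e (nat_lit 172106) (nat_lit 10) (.e (nat_lit 434231) (nat_lit 23) (.e (nat_lit 532569) (nat_lit 16) (.e (nat_lit 401435) (nat_lit 9) (.e (nat_lit 426399) (nat_lit 15) .nil))))))) (.g (nat_lit 4) .nil .nil))) 
(.lf (nat_lit 82294) (.g (nat_lit 2846) (.e (nat_lit 1855) (nat_lit 124) (.e (nat_lit 557100) (nat_lit 13) (.e (nat_lit 172113) (nat_lit 10) (.e (nat_lit 434245) (nat_lit 28) (.e (nat_lit 573451) (nat_lit 9) (.e (nat_lit 7936) (nat_lit 34) (.e (nat_lit 442377) (nat_lit 0) .nil))))))) (.g (nat_lit 5) .nil .nil))))) (.nd (nat_lit 4) (.nd (nat_lit 5) 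
(.lf (nat_lit 82254) (.g (nat_lit 4625) (.e (nat_lit 1855) (nat_lit 124) (.e (nat_lit 557100) (nat_lit 13) (.e (nat_lit 172106) (nat_lit 10) (.e (nat_lit 434231) (nat_lit 23) (.e (nat_lit 532563) (nat_lit 15) (.e (nat_lit 385104) (nat_lit 50) (.e (nat_lit 786447) (nat_lit 15) .nil))))))) (.g (nat_lit 0) .nil .nil))) 
(.lf (nat_lit 82286) (.g (nat_lit 2354) (.e (nat_lit 1855) (nat_lit 124) (.e (nat_lit 557100) (nat_lit 13) (.e (nat_lit 172113) (nat_lit 10) (.e (nat_lit 434245) (nat_lit 28) (.e (nat_lit 573449) (nat_lit 9) (.e (nat_lit 460) (nat_lit 34) (.e (nat_lit 442377) (nat_lit 0) .nil))))))) (.g (nat_lit 4) .nil .nil)))) (.nd (nat_lit 5) 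
(.lf (nat_lit 82270) (.g (nat_lit 2859) (.e (nat_lit 1855) (nat_lit 124) (.e (nat_lit 557100) (nat_lit 13) (.e (nat_lit 172106) (nat_lit 10) (.e (nat_lit 434244) (nat_lit 28) (.e (nat_lit 573454) (nat_lit 9) .nil))))) .nil)) 
(.lf (nat_lit 82302) (.g (nat_lit 2469) (.e (nat_lit 1855) (nat_lit 124) (.e (nat_lit 557100) (nat_lit 13) (.e (nat_lit 172113) (nat_lit 10) (.e (nat_lit 434245) (nat_lit 28) (.e (nat_lit 573458) (nat_lit 9) (.e (nat_lit 426) (nat_lit 32) (.e (nat_lit 426213) (nat_lit 9) (.e (nat_lit 426380) (nat_lit 15) .nil)))))))) (.g (nat_lit 4) .nil .nil)))))))) 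
(.nd (nat_lit 1) (.nd (nat_lit 2) (.nd (nat_lit 3) (.nd (nat_lit 4) (.nd (nat_lit 5) 
(.lf (nat_lit 82241) (.g (nat_lit 2320) (.e (nat_lit 1855) (nat_lit 124) (.e (nat_lit 557100) (nat_lit 13) (.e (nat_lit 172106) (nat_lit 10) (.e (nat_lit 434231) (nat_lit 23) (.e (nat_lit 532529) (nat_lit 9) (.e (nat_lit 336306) (nat_lit 15) (.e (nat_lit 3735) (nat_lit 228) (.e (nat_lit 786446) (nat_lit 15) .nil)))))))) (.g (nat_lit 4) .nil .nil))) 
(.lf (nat_lit 82273) (.g (nat_lit 2600) (.e (nat_lit 1855) (nat_lit 124) (.e (nat_lit 557100) (nat_lit 13) (.e (nat_lit 172106) (nat_lit 10) (.e (nat_lit 434244) (nat_lit 28) (.e (nat_lit 573458) (nat_lit 9) (.e (nat_lit 7936) (nat_lit 37) (.e (nat_lit 466949) (nat_lit 0) .nil))))))) (.g (nat_lit 4) .nil .nil)))) (.nd (nat_lit 5) 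
(.lf (nat_lit 82257) (.g (nat_lit 2792) (.e (nat_lit 1855) (nat_lit 124) (.e (nat_lit 557100) (nat_lit 13) (.e (nat_lit 172106) (nat_lit 10) (.e (nat_lit 434231) (nat_lit 23) (.e (nat_lit 532564) (nat_lit 15) (.e (nat_lit 385102) (nat_lit 50) (.e (nat_lit 786447) (nat_lit 15) .nil))))))) (.g (nat_lit 4) .nil .nil))) 
(.lf (nat_lit 82289) (.g (nat_lit 3097) (.e (nat_lit 1855) (nat_lit 124) (.e (nat_lit 557100) (nat_lit 13) (.e (nat_lit 172113) (nat_lit 10) (.e (nat_lit 434245) (nat_lit 28) (.e (nat_lit 573450) (nat_lit 9) (.e (nat_lit 457) (nat_lit 34) (.e (nat_lit 450304) (nat_lit 0) .nil))))))) (.g (nat_lit 5) .nil .nil))))) (.nd (nat_lit 4) (.nd (nat_lit 5) 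
(.lf (nat_lit 82249) (.g (nat_lit 4082) (.e (nat_lit 1855) (nat_lit 124) (.e (nat_lit 557100) (nat_lit 13) (.e (nat_lit 172106) (nat_lit 10) (.e (nat_lit 434231) (nat_lit 23) (.e (nat_lit 532544) (nat_lit 10) (.e (nat_lit 344169) (nat_lit 40) (.e (nat_lit 671751) (nat_lit 0) (.e (nat_lit 1086) (nat_lit 81) .nil)))))))) (.g (nat_lit 7) .nil .nil))) 
(.lf (nat_lit 82281) (.g (nat_lit 2958) (.e (nat_lit 1855) (nat_lit 124) (.e (nat_lit 557100) (nat_lit 13) (.e (nat_lit 172113) (nat_lit 10) (.e (nat_lit 434238) (nat_lit 25) (.e (nat_lit 548913) (nat_lit 18) (.e (nat_lit 172087) (nat_lit 9) (.e (nat_lit 426399) (nat_lit 15) .nil))))))) (.g (nat_lit 4) .nil .nil)))) (.nd (nat_lit 5) 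
(.lf (nat_lit 82265) (.g (nat_lit 2426) (.e (nat_lit 1855) (nat_lit 124) (.e (nat_lit 557100) (nat_lit 13) (.e (nat_lit 172106) (nat_lit 10) (.e (nat_lit 434244) (nat_lit 28) (.e (nat_lit 573450) (nat_lit 9) .nil))))) .nil)) 
(.lf (nat_lit 82297) (.g (nat_lit 2406) (.e (nat_lit 1855) (nat_lit 124) (.e (nat_lit 557100) (nat_lit 13) (.e (nat_lit 172113) (nat_lit 10) (.e (nat_lit 434245) (nat_lit 28) (.e (nat_lit 573451) (nat_lit 9) (.e (nat_lit 7936) (nat_lit 37) (.e (nat_lit 466949) (nat_lit 0) .nil))))))) (.g (nat_lit 4) .nil .nil)))))) (.nd (nat_lit 3) (.nd (nat_lit 4) (.nd (nat_lit 5) 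
(.lf (nat_lit 82245) (.g (nat_lit 3319) (.e (nat_lit 1855) (nat_lit 124) (.e (nat_lit 557100) (nat_lit 13) (.e (nat_lit 172106) (nat_lit 10) (.e (nat_lit 434231) (nat_lit 23) (.e (nat_lit 532535) (nat_lit 9) (.e (nat_lit 336295) (nat_lit 15) (.e (nat_lit 3746) (nat_lit 228) (.e (nat_lit 786447) (nat_lit 15) .nil)))))))) (.g (nat_lit 6) .nil .nil))) 
(.lf (nat_lit 82277) (.g (nat_lit 1369) (.e (nat_lit 1855) (nat_lit 124) (.e (nat_lit 557100) (nat_lit 13) (.e (nat_lit 172113) (nat_lit 10) (.e (nat_lit 434238) (nat_lit 25) .nil)))) .nil))) (.nd (nat_lit 5) 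
(.lf (nat_lit 82261) (.g (nat_lit 3911) (.e (nat_lit 1855) (nat_lit 124) (.e (nat_lit 557100) (nat_lit 13) (.e (nat_lit 172106) (nat_lit 10) (.e (nat_lit 434231) (nat_lit 23) (.e (nat_lit 532565) (nat_lit 15) (.e (nat_lit 385104) (nat_lit 50) (.e (nat_lit 786447) (nat_lit 15) .nil))))))) (.g (nat_lit 6) .nil .nil))) 
(.lf (nat_lit 82293) (.g (nat_lit 3433) (.e (nat_lit 1855) (nat_lit 124) (.e (nat_lit 557100) (nat_lit 13) (.e (nat_lit 172113) (nat_lit 10) (.e (nat_lit 434245) (nat_lit 28) (.e (nat_lit 573451) (nat_lit 9) (.e (nat_lit 430) (nat_lit 32) (.e (nat_lit 426190) (nat_lit 9) (.e (nat_lit 426402) (nat_lit 15) .nil)))))))) (.g (nat_lit 5) .nil .nil))))) (.nd (nat_lit 4) (.nd (nat_lit 5) 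
(.lf (nat_lit 82253) (.g (nat_lit 2307) (.e (nat_lit 1855) (nat_lit 124) (.e (nat_lit 557100) (nat_lit 13) (.e (nat_lit 172106) (nat_lit 10) (.e (nat_lit 434231) (nat_lit 23) (.e (nat_lit 532563) (nat_lit 15) (.e (nat_lit 385104) (nat_lit 50) (.e (nat_lit 786444) (nat_lit 15) .nil))))))) (.g (nat_lit 4) .nil .nil))) 
(.lf (nat_lit 82285) (.g (nat_lit 3166) (.e (nat_lit 1855) (nat_lit 124) (.e (nat_lit 557100) (nat_lit 13) (.e (nat_lit 172113) (nat_lit 10) (.e (nat_lit 434245) (nat_lit 28) (.e (nat_lit 573449) (nat_lit 9) (.e (nat_lit 455) (nat_lit 34) (.e (nat_lit 442372) (nat_lit 0) .nil))))))) (.g (nat_lit 5) .nil .nil)))) (.nd (nat_lit 5) 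
(.lf (nat_lit 82269) (.g (nat_lit 2602) (.e (nat_lit 1855) (nat_lit 124) (.e (nat_lit 557100) (nat_lit 13) (.e (nat_lit 172106) (nat_lit 10) (.e (nat_lit 434244) (nat_lit 28) (.e (nat_lit 573451) (nat_lit 9) .nil))))) .nil)) 
(.lf (nat_lit 82301) (.g (nat_lit 3234) (.e (nat_lit 1855) (nat_lit 124) (.e (nat_lit 557100) (nat_lit 13) (.e (nat_lit 172113) (nat_lit 10) (.e (nat_lit 434245) (nat_lit 28) (.e (nat_lit 573458) (nat_lit 9) (.e (nat_lit 426) (nat_lit 32) (.e (nat_lit 426199) (nat_lit 9) (.e (nat_lit 426399) (nat_lit 15) .nil)))))))) (.g (nat_lit 5) .nil .nil))))))) 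
(.nd (nat_lit 2) (.nd (nat_lit 3) (.nd (nat_lit 4) (.nd (nat_lit 5) 
(.lf (nat_lit 82243) (.g (nat_lit 2369) (.e (nat_lit 1855) (nat_lit 124) (.e (nat_lit 557100) (nat_lit 13) (.e (nat_lit 172106) (nat_lit 10) (.e (nat_lit 434231) (nat_lit 23) (.e (nat_lit 532529) (nat_lit 9) (.e (nat_lit 336332) (nat_lit 19) (.e (nat_lit 212996) (nat_lit 0) (.e (nat_lit 1021) (nat_lit 81) .nil)))))))) (.g (nat_lit 4) .nil .nil))) 
(.lf (nat_lit 82275) (.g (nat_lit 2948) (.e (nat_lit 1855) (nat_lit 124) (.e (nat_lit 557100) (nat_lit 13) (.e (nat_lit 172106) (nat_lit 10) (.e (nat_lit 434244) (nat_lit 28) (.e (nat_lit 573471) (nat_lit 11) (.e (nat_lit 16446) (nat_lit 9) (.e (nat_lit 426413) (nat_lit 15) .nil))))))) (.g (nat_lit 4) .nil .nil)))) (.nd (nat_lit 5) 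
(.lf (nat_lit 82259) (.g (nat_lit 3373) (.e (nat_lit 1855) (nat_lit 124) (.e (nat_lit 557100) (nat_lit 13) (.e (nat_lit 172106) (nat_lit 10) (.e (nat_lit 434231) (nat_lit 23) (.e (nat_lit 532564) (nat_lit 15) (.e (nat_lit 385105) (nat_lit 50) (.e (nat_lit 786447) (nat_lit 15) .nil))))))) (.g (nat_lit 5) .nil .nil))) 
(.lf (nat_lit 82291) (.g (nat_lit 3223) (.e (nat_lit 1855) (nat_lit 124) (.e (nat_lit 557100) (nat_lit 13) (.e (nat_lit 172113) (nat_lit 10) (.e (nat_lit 434245) (nat_lit 28) (.e (nat_lit 573450) (nat_lit 9) (.e (nat_lit 459) (nat_lit 34) (.e (nat_lit 442379) (nat_lit 0) .nil))))))) (.g (nat_lit 5) .nil .nil))))) (.nd (nat_lit 4) (.nd (nat_lit 5) 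
(.lf (nat_lit 82251) (.g (nat_lit 3761) (.e (nat_lit 1855) (nat_lit 124) (.e (nat_lit 557100) (nat_lit 13) (.e (nat_lit 172106) (nat_lit 10) (.e (nat_lit 434231) (nat_lit 23) (.e (nat_lit 532562) (nat_lit 15) (.e (nat_lit 385105) (nat_lit 50) (.e (nat_lit 786447) (nat_lit 15) .nil))))))) (.g (nat_lit 6) .nil .nil))) 
(.lf (nat_lit 82283) (.g (nat_lit 1013) (.e (nat_lit 1855) (nat_lit 124) (.e (nat_lit 557100) (nat_lit 13) (.e (nat_lit 172113) (nat_lit 10) (.e (nat_lit 434245) (nat_lit 28) .nil)))) .nil))) (.nd (nat_lit 5) 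
(.lf (nat_lit 82267) (.g (nat_lit 2906) (.e (nat_lit 1855) (nat_lit 124) (.e (nat_lit 557100) (nat_lit 13) (.e (nat_lit 172106) (nat_lit 10) (.e (nat_lit 434244) (nat_lit 28) (.e (nat_lit 573450) (nat_lit 9) (.e (nat_lit 455) (nat_lit 34) (.e (nat_lit 442372) (nat_lit 0) .nil))))))) (.g (nat_lit 4) .nil .nil))) 
(.lf (nat_lit 82299) (.g (nat_lit 1692) (.e (nat_lit 1855) (nat_lit 124) (.e (nat_lit 557100) (nat_lit 13) (.e (nat_lit 172113) (nat_lit 10) (.e (nat_lit 434245) (nat_lit 28) (.e (nat_lit 573458) (nat_lit 9) .nil))))) .nil))))) (.nd (nat_lit 3) (.nd (nat_lit 4) (.nd (nat_lit 5) 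
(.lf (nat_lit 82247) (.g (nat_lit 3278) (.e (nat_lit 1855) (nat_lit 124) (.e (nat_lit 557100) (nat_lit 13) (.e (nat_lit 172106) (nat_lit 10) (.e (nat_lit 434231) (nat_lit 23) (.e (nat_lit 532535) (nat_lit 9) (.e (nat_lit 336295) (nat_lit 15) (.e (nat_lit 3748) (nat_lit 228) (.e (nat_lit 786447) (nat_lit 15) .nil)))))))) (.g (nat_lit 6) .nil .nil))) 
(.lf (nat_lit 82279) (.g (nat_lit 3326) (.e (nat_lit 1855) (nat_lit 124) (.e (nat_lit 557100) (nat_lit 13) (.e (nat_lit 172113) (nat_lit 10) (.e (nat_lit 434238) (nat_lit 25) (.e (nat_lit 548898) (nat_lit 14) (.e (nat_lit 2988) (nat_lit 186) (.e (nat_lit 450304) (nat_lit 0) .nil))))))) (.g (nat_lit 5) .nil .nil)))) (.nd (nat_lit 5) 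
(.lf (nat_lit 82263) (.g (nat_lit 1637) (.e (nat_lit 1855) (nat_lit 124) (.e (nat_lit 557100) (nat_lit 13) (.e (nat_lit 172106) (nat_lit 10) (.e (nat_lit 434238) (nat_lit 25) .nil)))) .nil)) 
(.lf (nat_lit 82295) (.g (nat_lit 2507) (.e (nat_lit 1855) (nat_lit 124) (.e (nat_lit 557100) (nat_lit 13) (.e (nat_lit 172113) (nat_lit 10) (.e (nat_lit 434245) (nat_lit 28) (.e (nat_lit 573451) (nat_lit 9) (.e (nat_lit 7936) (nat_lit 34) (.e (nat_lit 442378) (nat_lit 0) .nil))))))) (.g (nat_lit 4) .nil .nil))))) (.nd (nat_lit 4) (.nd (nat_lit 5) 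
(.lf (nat_lit 82255) (.g (nat_lit 2373) (.e (nat_lit 1855) (nat_lit 124) (.e (nat_lit 557100) (nat_lit 13) (.e (nat_lit 172106) (nat_lit 10) (.e (nat_lit 434231) (nat_lit 23) (.e (nat_lit 532563) (nat_lit 15) (.e (nat_lit 385105) (nat_lit 50) (.e (nat_lit 786444) (nat_lit 15) .nil))))))) (.g (nat_lit 4) .nil .nil))) 
(.lf (nat_lit 82287) (.g (nat_lit 3855) (.e (nat_lit 1855) (nat_lit 124) (.e (nat_lit 557100) (nat_lit 13) (.e (nat_lit 172113) (nat_lit 10) (.e (nat_lit 434245) (nat_lit 28) (.e (nat_lit 573450) (nat_lit 9) (.e (nat_lit 457) (nat_lit 34) (.e (nat_lit 442372) (nat_lit 0) .nil))))))) (.g (nat_lit 6) .nil .nil)))) (.nd (nat_lit 5) 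
(.lf (nat_lit 82271) (.g (nat_lit 2356) (.e (nat_lit 1855) (nat_lit 124) (.e (nat_lit 557100) (nat_lit 13) (.e (nat_lit 172106) (nat_lit 10) (.e (nat_lit 434244) (nat_lit 28) (.e (nat_lit 573458) (nat_lit 9) .nil))))) .nil)) 
(.lf (nat_lit 82303) (.g (nat_lit 3387) (.e (nat_lit 1855) (nat_lit 124) (.e (nat_lit 557100) (nat_lit 13) (.e (nat_lit 172113) (nat_lit 10) (.e (nat_lit 434245) (nat_lit 28) (.e (nat_lit 573458) (nat_lit 9) (.e (nat_lit 7936) (nat_lit 34) (.e (nat_lit 442372) (nat_lit 0) .nil))))))) (.g (nat_lit 5) .nil .nil)))))))))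

noncomputable def tv1114 : DT := (.nd (nat_lit 0) (.nd (nat_lit 1) (.nd (nat_lit 2) (.nd (nat_lit 3) (.nd (nat_lit 4) (.nd (nat_lit 5) 
(.lf (nat_lit 82304) (.g (nat_lit 2928) (.e (nat_lit 1855) (nat_lit 124) (.e (nat_lit 557100) (nat_lit 13) (.e (nat_lit 172113) (nat_lit 10) (.e (nat_lit 434245) (nat_lit 28) (.e (nat_lit 573458) (nat_lit 9) (.e (nat_lit 7936) (nat_lit 34) (.e (nat_lit 442377) (nat_lit 0) .nil))))))) (.g (nat_lit 5) .nil .nil))) 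
(.lf (nat_lit 82336) (.g (nat_lit 2181) (.e (nat_lit 1855) (nat_lit 124) (.e (nat_lit 557100) (nat_lit 13) (.e (nat_lit 172113) (nat_lit 10) (.e (nat_lit 434247) (nat_lit 28) (.e (nat_lit 573454) (nat_lit 9) .nil))))) .nil))) (.nd (nat_lit 5) 
(.lf (nat_lit 82320) (.g (nat_lit 3916) (.e (nat_lit 1855) (nat_lit 124) (.e (nat_lit 557100) (nat_lit 13) (.e (nat_lit 172113) (nat_lit 10) (.e (nat_lit 434245) (nat_lit 28) (.e (nat_lit 573471) (nat_lit 11) (.e (nat_lit 16438) (nat_lit 9) (.e (nat_lit 426364) (nat_lit 15) .nil))))))) (.g (nat_lit 5) .nil .nil))) 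
(.lf (nat_lit 82352) (.g (nat_lit 2730) (.e (nat_lit 1855) (nat_lit 124) (.e (nat_lit 557100) (nat_lit 13) (.e (nat_lit 172113) (nat_lit 10) (.e (nat_lit 434248) (nat_lit 28) (.e (nat_lit 573449) (nat_lit 9) (.e (nat_lit 460) (nat_lit 34) (.e (nat_lit 442378) (nat_lit 0) .nil))))))) (.g (nat_lit 4) .nil .nil))))) (.nd (nat_lit 4) (.nd (nat_lit 5) 
(.lf (nat_lit 82312) (.g (nat_lit 3957) (.e (nat_lit 1855) (nat_lit 124) (.e (nat_lit 557100) (nat_lit 13) (.e (nat_lit 172113) (nat_lit 10) (.e (nat_lit 434245) (nat_lit 28) (.e (nat_lit 573470) (nat_lit 11) (.e (nat_lit 16438) (nat_lit 9) (.e (nat_lit 426364) (nat_lit 15) .nil))))))) (.g (nat_lit 7) .nil .nil))) 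
(.lf (nat_lit 82344) (.g (nat_lit 3203) (.e (nat_lit 1855) (nat_lit 124) (.e (nat_lit 557100) (nat_lit 13) (.e (nat_lit 172113) (nat_lit 10) (.e (nat_lit 434247) (nat_lit 28) (.e (nat_lit 573469) (nat_lit 11) (.e (nat_lit 16435) (nat_lit 9) (.e (nat_lit 426402) (nat_lit 15) .nil))))))) (.g (nat_lit 5) .nil .nil)))) (.nd (nat_lit 5) 
(.lf (nat_lit 82328) (.g (nat_lit 2371) (.e (nat_lit 1855) (nat_lit 124) (.e (nat_lit 557100) (nat_lit 13) (.e (nat_lit 172113) (nat_lit 10) (.e (nat_lit 434245) (nat_lit 28) (.e (nat_lit 573471) (nat_lit 11) (.e (nat_lit 16440) (nat_lit 9) (.e (nat_lit 426411) (nat_lit 15) .nil))))))) (.g (nat_lit 4) .nil .nil))) 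
(.lf (nat_lit 82360) (.g (nat_lit 2076) (.e (nat_lit 1855) (nat_lit 124) (.e (nat_lit 557100) (nat_lit 13) (.e (nat_lit 172113) (nat_lit 10) (.e (nat_lit 434248) (nat_lit 28) (.e (nat_lit 573457) (nat_lit 9) .nil))))) .nil))))) (.nd (nat_lit 3) (.nd (nat_lit 4) (.nd (nat_lit 5) 
(.lf (nat_lit 82308) (.g (nat_lit 3024) (.e (nat_lit 1855) (nat_lit 124) (.e (nat_lit 557100) (nat_lit 13) (.e (nat_lit 172113) (nat_lit 10) (.e (nat_lit 434245) (nat_lit 28) (.e (nat_lit 573469) (nat_lit 11) (.e (nat_lit 16435) (nat_lit 9) (.e (nat_lit 426402) (nat_lit 15) .nil))))))) (.g (nat_lit 5) .nil .nil))) 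
(.lf (nat_lit 82340) (.g (nat_lit 2663) (.e (nat_lit 1855) (nat_lit 124) (.e (nat_lit 557100) (nat_lit 13) (.e (nat_lit 172113) (nat_lit 10) (.e (nat_lit 434247) (nat_lit 28) (.e (nat_lit 573456) (nat_lit 9) (.e (nat_lit 7936) (nat_lit 34) (.e (nat_lit 442378) (nat_lit 0) .nil))))))) (.g (nat_lit 4) .nil .nil)))) (.nd (nat_lit 5) 
(.lf (nat_lit 82324) (.g (nat_lit 2731) (.e (nat_lit 1855) (nat_lit 124) (.e (nat_lit 557100) (nat_lit 13) (.e (nat_lit 172113) (nat_lit 10) (.e (nat_lit 434245) (nat_lit 28) (.e (nat_lit 573471) (nat_lit 11) (.e (nat_lit 16439) (nat_lit 9) (.e (nat_lit 426412) (nat_lit 15) .nil))))))) (.g (nat_lit 5) .nil .nil))) 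
(.lf (nat_lit 82356) (.g (nat_lit 2633) (.e (nat_lit 1855) (nat_lit 124) (.e (nat_lit 557100) (nat_lit 13) (.e (nat_lit 172113) (nat_lit 10) (.e (nat_lit 434248) (nat_lit 28) (.e (nat_lit 573452) (nat_lit 9) (.e (nat_lit 7936) (nat_lit 34) (.e (nat_lit 442378) (nat_lit 0) .nil))))))) (.g (nat_lit 4) .nil .nil))))) (.nd (nat_lit 4) (.nd (nat_lit 5) 
(.lf (nat_lit 82316) (.g (nat_lit 4210) (.e (nat_lit 1855) (nat_lit 124) (.e (nat_lit 557100) (nat_lit 13) (.e (nat_lit 172113) (nat_lit 10) (.e (nat_lit 434245) (nat_lit 28) (.e (nat_lit 573471) (nat_lit 11) (.e (nat_lit 16433) (nat_lit 9) (.e (nat_lit 426363) (nat_lit 15) .nil))))))) (.g (nat_lit 6) .nil .nil))) 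
(.lf (nat_lit 82348) (.g (nat_lit 2845) (.e (nat_lit 1855) (nat_lit 124) (.e (nat_lit 557100) (nat_lit 13) (.e (nat_lit 172113) (nat_lit 10) (.e (nat_lit 434248) (nat_lit 28) (.e (nat_lit 573449) (nat_lit 9) (.e (nat_lit 454) (nat_lit 34) (.e (nat_lit 442372) (nat_lit 0) .nil))))))) (.g (nat_lit 4) .nil .nil)))) (.nd (nat_lit 5) 
(.lf (nat_lit 82332) (.g (nat_lit 3745) (.e (nat_lit 1855) (nat_lit 124) (.e (nat_lit 557100) (nat_lit 13) (.e (nat_lit 172113) (nat_lit 10) (.e (nat_lit 434245) (nat_lit 28) (.e (nat_lit 573474) (nat_lit 12) (.e (nat_lit 57348) (nat_lit 0) (.e (nat_lit 6850) (nat_lit 371) (.e (nat_lit 2630) (nat_lit 164) (.e (nat_lit 172138) (nat_lit 15) .nil))))))))) (.g (nat_lit 5) .nil .nil))) 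
(.lf (nat_lit 82364) (.g (nat_lit 3484) (.e (nat_lit 1855) (nat_lit 124) (.e (nat_lit 557100) (nat_lit 13) (.e (nat_lit 172113) (nat_lit 10) (.e (nat_lit 434248) (nat_lit 28) (.e (nat_lit 573470) (nat_lit 11) (.e (nat_lit 16435) (nat_lit 9) (.e (nat_lit 426402) (nat_lit 15) .nil))))))) (.g (nat_lit 6) .nil .nil))))))) (.nd (nat_lit 2) (.nd (nat_lit 3) (.nd (nat_lit 4) (.nd (nat_lit 5) 
(.lf (nat_lit 82306) (.g (nat_lit 2570) (.e (nat_lit 1855) (nat_lit 124) (.e (nat_lit 557100) (nat_lit 13) (.e (nat_lit 172113) (nat_lit 10) (.e (nat_lit 434245) (nat_lit 28) (.e (nat_lit 573458) (nat_lit 9) (.e (nat_lit 7936) (nat_lit 37) (.e (nat_lit 466946) (nat_lit 0) .nil))))))) (.g (nat_lit 4) .nil .nil))) 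
(.lf (nat_lit 82338) (.g (nat_lit 3407) (.e (nat_lit 1855) (nat_lit 124) (.e (nat_lit 557100) (nat_lit 13) (.e (nat_lit 172113) (nat_lit 10) (.e (nat_lit 434247) (nat_lit 28) (.e (nat_lit 573456) (nat_lit 9) (.e (nat_lit 430) (nat_lit 32) (.e (nat_lit 426198) (nat_lit 9) (.e (nat_lit 426402) (nat_lit 15) .nil)))))))) (.g (nat_lit 5) .nil .nil)))) (.nd (nat_lit 5) 
(.lf (nat_lit 82322) (.g (nat_lit 2777) (.e (nat_lit 1855) (nat_lit 124) (.e (nat_lit 557100) (nat_lit 13) (.e (nat_lit 172113) (nat_lit 10) (.e (nat_lit 434245) (nat_lit 28) (.e (nat_lit 573471) (nat_lit 11) (.e (nat_lit 16439) (nat_lit 9) (.e (nat_lit 426380) (nat_lit 15) .nil))))))) (.g (nat_lit 5) .nil .nil))) 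
(.lf (nat_lit 82354) (.g (nat_lit 3452) (.e (nat_lit 1855) (nat_lit 124) (.e (nat_lit 557100) (nat_lit 13) (.e (nat_lit 172113) (nat_lit 10) (.e (nat_lit 434248) (nat_lit 28) (.e (nat_lit 573452) (nat_lit 9) (.e (nat_lit 430) (nat_lit 32) (.e (nat_lit 426190) (nat_lit 9) (.e (nat_lit 426402) (nat_lit 15) .nil)))))))) (.g (nat_lit 5) .nil .nil))))) (.nd (nat_lit 4) (.nd (nat_lit 5) 
(.lf (nat_lit 82314) (.g (nat_lit 3301) (.e (nat_lit 1855) (nat_lit 124) (.e (nat_lit 557100) (nat_lit 13) (.e (nat_lit 172113) (nat_lit 10) (.e (nat_lit 434245) (nat_lit 28) (.e (nat_lit 573471) (nat_lit 11) (.e (nat_lit 16431) (nat_lit 9) (.e (nat_lit 426399) (nat_lit 15) .nil))))))) (.g (nat_lit 5) .nil .nil))) 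
(.lf (nat_lit 82346) (.g (nat_lit 5222) (.e (nat_lit 1855) (nat_lit 124) (.e (nat_lit 557100) (nat_lit 13) (.e (nat_lit 172113) (nat_lit 10) (.e (nat_lit 434247) (nat_lit 28) (.e (nat_lit 573469) (nat_lit 11) (.e (nat_lit 16438) (nat_lit 9) (.e (nat_lit 426402) (nat_lit 15) .nil))))))) (.g (nat_lit 0) .nil .nil)))) (.nd (nat_lit 5) 
(.lf (nat_lit 82330) (.g (nat_lit 2764) (.e (nat_lit 1855) (nat_lit 124) (.e (nat_lit 557100) (nat_lit 13) (.e (nat_lit 172113) (nat_lit 10) (.e (nat_lit 434245) (nat_lit 28) (.e (nat_lit 573471) (nat_lit 11) (.e (nat_lit 16445) (nat_lit 9) (.e (nat_lit 426413) (nat_lit 15) .nil))))))) (.g (nat_lit 5) .nil .nil))) 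
(.lf (nat_lit 82362) (.g (nat_lit 4476) (.e (nat_lit 1855) (nat_lit 124) (.e (nat_lit 557100) (nat_lit 13) (.e (nat_lit 172113) (nat_lit 10) (.e (nat_lit 434248) (nat_lit 28) (.e (nat_lit 573469) (nat_lit 11) (.e (nat_lit 16438) (nat_lit 9) (.e (nat_lit 426364) (nat_lit 15) .nil))))))) (.g (nat_lit 6) .nil .nil)))))) (.nd (nat_lit 3) (.nd (nat_lit 4) (.nd (nat_lit 5) 
(.lf (nat_lit 82310) (.g (nat_lit 4379) (.e (nat_lit 1855) (nat_lit 124) (.e (nat_lit 557100) (nat_lit 13) (.e (nat_lit 172113) (nat_lit 10) (.e (nat_lit 434245) (nat_lit 28) (.e (nat_lit 573469) (nat_lit 11) (.e (nat_lit 16438) (nat_lit 9) (.e (nat_lit 426402) (nat_lit 15) .nil))))))) (.g (nat_lit 7) .nil .nil))) 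
(.lf (nat_lit 82342) (.g (nat_lit 2621) (.e (nat_lit 1855) (nat_lit 124) (.e (nat_lit 557100) (nat_lit 13) (.e (nat_lit 172113) (nat_lit 10) (.e (nat_lit 434247) (nat_lit 28) (.e (nat_lit 573457) (nat_lit 9) (.e (nat_lit 7936) (nat_lit 34) (.e (nat_lit 442377) (nat_lit 0) .nil))))))) (.g (nat_lit 4) .nil .nil)))) (.nd (nat_lit 5) 
(.lf (nat_lit 82326) (.g (nat_lit 4141) (.e (nat_lit 1855) (nat_lit 124) (.e (nat_lit 557100) (nat_lit 13) (.e (nat_lit 172113) (nat_lit 10) (.e (nat_lit 434245) (nat_lit 28) (.e (nat_lit 573471) (nat_lit 11) (.e (nat_lit 16440) (nat_lit 9) (.e (nat_lit 426380) (nat_lit 15) .nil))))))) (.g (nat_lit 7) .nil .nil))) 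
(.lf (nat_lit 82358) (.g (nat_lit 2426) (.e (nat_lit 1855) (nat_lit 124) (.e (nat_lit 557100) (nat_lit 13) (.e (nat_lit 172113) (nat_lit 10) (.e (nat_lit 434248) (nat_lit 28) (.e (nat_lit 573452) (nat_lit 9) (.e (nat_lit 7936) (nat_lit 37) (.e (nat_lit 466949) (nat_lit 0) .nil))))))) (.g (nat_lit 4) .nil .nil))))) (.nd (nat_lit 4) (.nd (nat_lit 5) 
(.lf (nat_lit 82318) (.g (nat_lit 2401) (.e (nat_lit 1855) (nat_lit 124) (.e (nat_lit 557100) (nat_lit 13) (.e (nat_lit 172113) (nat_lit 10) (.e (nat_lit 434245) (nat_lit 28) (.e (nat_lit 573471) (nat_lit 11) (.e (nat_lit 16434) (nat_lit 9) (.e (nat_lit 426398) (nat_lit 15) .nil))))))) (.g (nat_lit 4) .nil .nil))) 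
(.lf (nat_lit 82350) (.g (nat_lit 2513) (.e (nat_lit 1855) (nat_lit 124) (.e (nat_lit 557100) (nat_lit 13) (.e (nat_lit 172113) (nat_lit 10) (.e (nat_lit 434248) (nat_lit 28) (.e (nat_lit 573449) (nat_lit 9) (.e (nat_lit 457) (nat_lit 34) (.e (nat_lit 442372) (nat_lit 0) .nil))))))) (.g (nat_lit 4) .nil .nil)))) (.nd (nat_lit 5) 
(.lf (nat_lit 82334) (.g (nat_lit 2503) (.e (nat_lit 1855) (nat_lit 124) (.e (nat_lit 557100) (nat_lit 13) (.e (nat_lit 172113) (nat_lit 10) (.e (nat_lit 434245) (nat_lit 28) (.e (nat_lit 573474) (nat_lit 12) (.e (nat_lit 57567) (nat_lit 52) (.e (nat_lit 753688) (nat_lit 9) (.e (nat_lit 172138) (nat_lit 15) .nil)))))))) (.g (nat_lit 4) .nil .nil))) 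
(.lf (nat_lit 82366) (.g (nat_lit 4447) (.e (nat_lit 1855) (nat_lit 124) (.e (nat_lit 557100) (nat_lit 13) (.e (nat_lit 172113) (nat_lit 10) (.e (nat_lit 434248) (nat_lit 28) (.e (nat_lit 573470) (nat_lit 11) (.e (nat_lit 16438) (nat_lit 9) (.e (nat_lit 426402) (nat_lit 15) .nil))))))) (.g (nat_lit 7) .nil .nil)))))))) 
(.nd (nat_lit 1) (.nd (nat_lit 2) (.nd (nat_lit 3) (.nd (nat_lit 4) (.nd (nat_lit 5) 
(.lf (nat_lit 82305) (.g (nat_lit 2718) (.e (nat_lit 1855) (nat_lit 124) (.e (nat_lit 557100) (nat_lit 13) (.e (nat_lit 172113) (nat_lit 10) (.e (nat_lit 434245) (nat_lit 28) (.e (nat_lit 573458) (nat_lit 9) (.e (nat_lit 7936) (nat_lit 34) (.e (nat_lit 442378) (nat_lit 0) .nil))))))) (.g (nat_lit 4) .nil .nil))) 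
(.lf (nat_lit 82337) (.g (nat_lit 2295) (.e (nat_lit 1855) (nat_lit 124) (.e (nat_lit 557100) (nat_lit 13) (.e (nat_lit 172113) (nat_lit 10) (.e (nat_lit 434247) (nat_lit 28) (.e (nat_lit 573454) (nat_lit 9) (.e (nat_lit 458) (nat_lit 34) (.e (nat_lit 450304) (nat_lit 0) .nil))))))) (.g (nat_lit 4) .nil .nil)))) (.nd (nat_lit 5) 
(.lf (nat_lit 82321) (.g (nat_lit 3927) (.e (nat_lit 1855) (nat_lit 124) (.e (nat_lit 557100) (nat_lit 13) (.e (nat_lit 172113) (nat_lit 10) (.e (nat_lit 434245) (nat_lit 28) (.e (nat_lit 573471) (nat_lit 11) (.e (nat_lit 16438) (nat_lit 9) (.e (nat_lit 426402) (nat_lit 15) .nil))))))) (.g (nat_lit 5) .nil .nil))) 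
(.lf (nat_lit 82353) (.g (nat_lit 1794) (.e (nat_lit 1855) (nat_lit 124) (.e (nat_lit 557100) (nat_lit 13) (.e (nat_lit 172113) (nat_lit 10) (.e (nat_lit 434248) (nat_lit 28) (.e (nat_lit 573452) (nat_lit 9) .nil))))) .nil)))) (.nd (nat_lit 4) (.nd (nat_lit 5) 
(.lf (nat_lit 82313) (.g (nat_lit 4206) (.e (nat_lit 1855) (nat_lit 124) (.e (nat_lit 557100) (nat_lit 13) (.e (nat_lit 172113) (nat_lit 10) (.e (nat_lit 434245) (nat_lit 28) (.e (nat_lit 573470) (nat_lit 11) (.e (nat_lit 16438) (nat_lit 9) (.e (nat_lit 426402) (nat_lit 15) .nil))))))) (.g (nat_lit 7) .nil .nil))) 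
(.lf (nat_lit 82345) (.g (nat_lit 5115) (.e (nat_lit 1855) (nat_lit 124) (.e (nat_lit 557100) (nat_lit 13) (.e (nat_lit 172113) (nat_lit 10) (.e (nat_lit 434247) (nat_lit 28) (.e (nat_lit 573469) (nat_lit 11) (.e (nat_lit 16438) (nat_lit 9) (.e (nat_lit 426364) (nat_lit 15) .nil))))))) (.g (nat_lit 0) .nil .nil)))) (.nd (nat_lit 5) 
(.lf (nat_lit 82329) (.g (nat_lit 3325) (.e (nat_lit 1855) (nat_lit 124) (.e (nat_lit 557100) (nat_lit 13) (.e (nat_lit 172113) (nat_lit 10) (.e (nat_lit 434245) (nat_lit 28) (.e (nat_lit 573471) (nat_lit 11) (.e (nat_lit 16440) (nat_lit 9) (.e (nat_lit 426414) (nat_lit 15) .nil))))))) (.g (nat_lit 6) .nil .nil))) 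
(.lf (nat_lit 82361) (.g (nat_lit 2869) (.e (nat_lit 1855) (nat_lit 124) (.e (nat_lit 557100) (nat_lit 13) (.e (nat_lit 172113) (nat_lit 10) (.e (nat_lit 434248) (nat_lit 28) (.e (nat_lit 573469) (nat_lit 11) (.e (nat_lit 16435) (nat_lit 9) (.e (nat_lit 426402) (nat_lit 15) .nil))))))) (.g (nat_lit 4) .nil .nil)))))) (.nd (nat_lit 3) (.nd (nat_lit 4) (.nd (nat_lit 5) 
(.lf (nat_lit 82309) (.g (nat_lit 4270) (.e (nat_lit 1855) (nat_lit 124) (.e (nat_lit 557100) (nat_lit 13) (.e (nat_lit 172113) (nat_lit 10) (.e (nat_lit 434245) (nat_lit 28) (.e (nat_lit 573469) (nat_lit 11) (.e (nat_lit 16438) (nat_lit 9) (.e (nat_lit 426364) (nat_lit 15) .nil))))))) (.g (nat_lit 7) .nil .nil))) 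
(.lf (nat_lit 82341) (.g (nat_lit 2322) (.e (nat_lit 1855) (nat_lit 124) (.e (nat_lit 557100) (nat_lit 13) (.e (nat_lit 172113) (nat_lit 10) (.e (nat_lit 434247) (nat_lit 28) (.e (nat_lit 573456) (nat_lit 9) (.e (nat_lit 7936) (nat_lit 34) (.e (nat_lit 450304) (nat_lit 0) .nil))))))) (.g (nat_lit 4) .nil .nil)))) (.nd (nat_lit 5) 
(.lf (nat_lit 82325) (.g (nat_lit 2210) (.e (nat_lit 1855) (nat_lit 124) (.e (nat_lit 557100) (nat_lit 13) (.e (nat_lit 172113) (nat_lit 10) (.e (nat_lit 434245) (nat_lit 28) (.e (nat_lit 573471) (nat_lit 11) (.e (nat_lit 16439) (nat_lit 9) (.e (nat_lit 433920) (nat_lit 15) .nil))))))) (.g (nat_lit 4) .nil .nil))) 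
(.lf (nat_lit 82357) (.g (nat_lit 2283) (.e (nat_lit 1855) (nat_lit 124) (.e (nat_lit 557100) (nat_lit 13) (.e (nat_lit 172113) (nat_lit 10) (.e (nat_lit 434248) (nat_lit 28) (.e (nat_lit 573452) (nat_lit 9) (.e (nat_lit 7936) (nat_lit 34) (.e (nat_lit 450304) (nat_lit 0) .nil))))))) (.g (nat_lit 4) .nil .nil))))) (.nd (nat_lit 4) (.nd (nat_lit 5) 
(.lf (nat_lit 82317) (.g (nat_lit 4706) (.e (nat_lit 1855) (nat_lit 124) (.e (nat_lit 557100) (nat_lit 13) (.e (nat_lit 172113) (nat_lit 10) (.e (nat_lit 434245) (nat_lit 28) (.e (nat_lit 573471) (nat_lit 11) (.e (nat_lit 16433) (nat_lit 9) (.e (nat_lit 426364) (nat_lit 15) .nil))))))) (.g (nat_lit 6) .nil .nil))) 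
(.lf (nat_lit 82349) (.g (nat_lit 3024) (.e (nat_lit 1855) (nat_lit 124) (.e (nat_lit 557100) (nat_lit 13) (.e (nat_lit 172113) (nat_lit 10) (.e (nat_lit 434248) (nat_lit 28) (.e (nat_lit 573449) (nat_lit 9) (.e (nat_lit 455) (nat_lit 34) (.e (nat_lit 442372) (nat_lit 0) .nil))))))) (.g (nat_lit 4) .nil .nil)))) (.nd (nat_lit 5) 
(.lf (nat_lit 82333) (.g (nat_lit 3633) (.e (nat_lit 1855) (nat_lit 124) (.e (nat_lit 557100) (nat_lit 13) (.e (nat_lit 172113) (nat_lit 10) (.e (nat_lit 434245) (nat_lit 28) (.e (nat_lit 573474) (nat_lit 12) (.e (nat_lit 57348) (nat_lit 0) (.e (nat_lit 6923) (nat_lit 371) (.e (nat_lit 2628) (nat_lit 164) (.e (nat_lit 172138) (nat_lit 15) .nil))))))))) (.g (nat_lit 5) .nil .nil))) 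
(.lf (nat_lit 82365) (.g (nat_lit 4198) (.e (nat_lit 1855) (nat_lit 124) (.e (nat_lit 557100) (nat_lit 13) (.e (nat_lit 172113) (nat_lit 10) (.e (nat_lit 434248) (nat_lit 28) (.e (nat_lit 573470) (nat_lit 11) (.e (nat_lit 16438) (nat_lit 9) (.e (nat_lit 426364) (nat_lit 15) .nil))))))) (.g (nat_lit 0) .nil .nil))))))) (.nd (nat_lit 2) (.nd (nat_lit 3) (.nd (nat_lit 4) (.nd (nat_lit 5) 
(.lf (nat_lit 82307) (.g (nat_lit 3519) (.e (nat_lit 1855) (nat_lit 124) (.e (nat_lit 557100) (nat_lit 13) (.e (nat_lit 172113) (nat_lit 10) (.e (nat_lit 434245) (nat_lit 28) (.e (nat_lit 573458) (nat_lit 9) (.e (nat_lit 7936) (nat_lit 37) (.e (nat_lit 466949) (nat_lit 0) .nil))))))) (.g (nat_lit 5) .nil .nil))) 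
(.lf (nat_lit 82339) (.g (nat_lit 2697) (.e (nat_lit 1855) (nat_lit 124) (.e (nat_lit 557100) (nat_lit 13) (.e (nat_lit 172113) (nat_lit 10) (.e (nat_lit 434247) (nat_lit 28) (.e (nat_lit 573456) (nat_lit 9) (.e (nat_lit 7936) (nat_lit 34) (.e (nat_lit 442377) (nat_lit 0) .nil))))))) (.g (nat_lit 4) .nil .nil)))) (.nd (nat_lit 5) 
(.lf (nat_lit 82323) (.g (nat_lit 2267) (.e (nat_lit 1855) (nat_lit 124) (.e (nat_lit 557100) (nat_lit 13) (.e (nat_lit 172113) (nat_lit 10) (.e (nat_lit 434245) (nat_lit 28) (.e (nat_lit 573471) (nat_lit 11) (.e (nat_lit 16439) (nat_lit 9) (.e (nat_lit 426410) (nat_lit 15) .nil))))))) (.g (nat_lit 4) .nil .nil))) 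
(.lf (nat_lit 82355) (.g (nat_lit 2883) (.e (nat_lit 1855) (nat_lit 124) (.e (nat_lit 557100) (nat_lit 13) (.e (nat_lit 172113) (nat_lit 10) (.e (nat_lit 434248) (nat_lit 28) (.e (nat_lit 573452) (nat_lit 9) (.e (nat_lit 7936) (nat_lit 34) (.e (nat_lit 442377) (nat_lit 0) .nil))))))) (.g (nat_lit 5) .nil .nil))))) (.nd (nat_lit 4) (.nd (nat_lit 5) 
(.lf (nat_lit 82315) (.g (nat_lit 2977) (.e (nat_lit 1855) (nat_lit 124) (.e (nat_lit 557100) (nat_lit 13) (.e (nat_lit 172113) (nat_lit 10) (.e (nat_lit 434245) (nat_lit 28) (.e (nat_lit 573471) (nat_lit 11) (.e (nat_lit 16432) (nat_lit 9) (.e (nat_lit 426399) (nat_lit 15) .nil))))))) (.g (nat_lit 5) .nil .nil))) 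
(.lf (nat_lit 82347) (.g (nat_lit 984) (.e (nat_lit 1855) (nat_lit 124) (.e (nat_lit 557100) (nat_lit 13) (.e (nat_lit 172113) (nat_lit 10) (.e (nat_lit 434248) (nat_lit 28) .nil)))) .nil))) (.nd (nat_lit 5) 
(.lf (nat_lit 82331) (.g (nat_lit 4366) (.e (nat_lit 1855) (nat_lit 124) (.e (nat_lit 557100) (nat_lit 13) (.e (nat_lit 172113) (nat_lit 10) (.e (nat_lit 434245) (nat_lit 28) (.e (nat_lit 573471) (nat_lit 11) (.e (nat_lit 16446) (nat_lit 9) (.e (nat_lit 426413) (nat_lit 15) .nil))))))) (.g (nat_lit 7) .nil .nil))) 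
(.lf (nat_lit 82363) (.g (nat_lit 4585) (.e (nat_lit 1855) (nat_lit 124) (.e (nat_lit 557100) (nat_lit 13) (.e (nat_lit 172113) (nat_lit 10) (.e (nat_lit 434248) (nat_lit 28) (.e (nat_lit 573469) (nat_lit 11) (.e (nat_lit 16438) (nat_lit 9) (.e (nat_lit 426402) (nat_lit 15) .nil))))))) (.g (nat_lit 7) .nil .nil)))))) (.nd (nat_lit 3) (.nd (nat_lit 4) (.nd (nat_lit 5) 
(.lf (nat_lit 82311) (.g (nat_lit 3321) (.e (nat_lit 1855) (nat_lit 124) (.e (nat_lit 557100) (nat_lit 13) (.e (nat_lit 172113) (nat_lit 10) (.e (nat_lit 434245) (nat_lit 28) (.e (nat_lit 573470) (nat_lit 11) (.e (nat_lit 16435) (nat_lit 9) (.e (nat_lit 426402) (nat_lit 15) .nil))))))) (.g (nat_lit 6) .nil .nil))) 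
(.lf (nat_lit 82343) (.g (nat_lit 2914) (.e (nat_lit 1855) (nat_lit 124) (.e (nat_lit 557100) (nat_lit 13) (.e (nat_lit 172113) (nat_lit 10) (.e (nat_lit 434247) (nat_lit 28) (.e (nat_lit 573465) (nat_lit 9) (.e (nat_lit 461) (nat_lit 34) (.e (nat_lit 442379) (nat_lit 0) .nil))))))) (.g (nat_lit 4) .nil .nil)))) (.nd (nat_lit 5) 
(.lf (nat_lit 82327) (.g (nat_lit 2908) (.e (nat_lit 1855) (nat_lit 124) (.e (nat_lit 557100) (nat_lit 13) (.e (nat_lit 172113) (nat_lit 10) (.e (nat_lit 434245) (nat_lit 28) (.e (nat_lit 573471) (nat_lit 11) (.e (nat_lit 16440) (nat_lit 9) (.e (nat_lit 426410) (nat_lit 15) .nil))))))) (.g (nat_lit 5) .nil .nil))) 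
(.lf (nat_lit 82359) (.g (nat_lit 2715) (.e (nat_lit 1855) (nat_lit 124) (.e (nat_lit 557100) (nat_lit 13) (.e (nat_lit 172113) (nat_lit 10) (.e (nat_lit 434248) (nat_lit 28) (.e (nat_lit 573454) (nat_lit 9) (.e (nat_lit 458) (nat_lit 34) (.e (nat_lit 442379) (nat_lit 0) .nil))))))) (.g (nat_lit 4) .nil .nil))))) (.nd (nat_lit 4) (.nd (nat_lit 5) 
(.lf (nat_lit 82319) (.g (nat_lit 2630) (.e (nat_lit 1855) (nat_lit 124) (.e (nat_lit 557100) (nat_lit 13) (.e (nat_lit 172113) (nat_lit 10) (.e (nat_lit 434245) (nat_lit 28) (.e (nat_lit 573471) (nat_lit 11) (.e (nat_lit 16435) (nat_lit 9) (.e (nat_lit 426402) (nat_lit 15) .nil))))))) (.g (nat_lit 4) .nil .nil))) 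
(.lf (nat_lit 82351) (.g (nat_lit 2212) (.e (nat_lit 1855) (nat_lit 124) (.e (nat_lit 557100) (nat_lit 13) (.e (nat_lit 172113) (nat_lit 10) (.e (nat_lit 434248) (nat_lit 28) (.e (nat_lit 573449) (nat_lit 9) (.e (nat_lit 460) (nat_lit 34) (.e (nat_lit 442377) (nat_lit 0) .nil))))))) (.g (nat_lit 4) .nil .nil)))) (.nd (nat_lit 5) 
(.lf (nat_lit 82335) (.g (nat_lit 1036) (.e (nat_lit 1855) (nat_lit 124) (.e (nat_lit 557100) (nat_lit 13) (.e (nat_lit 172113) (nat_lit 10) (.e (nat_lit 434247) (nat_lit 28) .nil)))) .nil)) 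
(.lf (nat_lit 82367) (.g (nat_lit 1056) (.e (nat_lit 1855) (nat_lit 124) (.e (nat_lit 557100) (nat_lit 13) (.e (nat_lit 172118) (nat_lit 12) (.e (nat_lit 475185) (nat_lit 29) .nil)))) .nil))))))))

noncomputable def tv1115 : DT := (.nd (nat_lit 0) (.nd (nat_lit 1) (.nd (nat_lit 2) (.nd (nat_lit 3) (.nd (nat_lit 4) (.nd (nat_lit 5) 
(.lf (nat_lit 82368) (.g (nat_lit 1798) (.e (nat_lit 1855) (nat_lit 124) (.e (nat_lit 557100) (nat_lit 13) (.e (nat_lit 172118) (nat_lit 12) (.e (nat_lit 475185) (nat_lit 29) (.e (nat_lit 557109) (nat_lit 15) .nil))))) .nil)) 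
(.lf (nat_lit 82400) (.g (nat_lit 1022) (.e (nat_lit 1855) (nat_lit 124) (.e (nat_lit 557101) (nat_lit 13) (.e (nat_lit 172097) (nat_lit 9) (.e (nat_lit 426140) (nat_lit 3) .nil)))) .nil))) (.nd (nat_lit 5) 
(.lf (nat_lit 82384) (.g (nat_lit 3504) (.e (nat_lit 1855) (nat_lit 124) (.e (nat_lit 557100) (nat_lit 13) (.e (nat_lit 172126) (nat_lit 14) (.e (nat_lit 491540) (nat_lit 3) (.e (nat_lit 98370) (nat_lit 28) (.e (nat_lit 442372) (nat_lit 0) .nil)))))) (.g (nat_lit 5) .nil .nil))) 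
(.lf (nat_lit 82416) (.g (nat_lit 2367) (.e (nat_lit 1855) (nat_lit 124) (.e (nat_lit 557101) (nat_lit 13) (.e (nat_lit 172115) (nat_lit 10) (.e (nat_lit 434231) (nat_lit 23) (.e (nat_lit 532490) (nat_lit 0) (.e (nat_lit 6114) (nat_lit 332) (.e (nat_lit 1379) (nat_lit 104) (.e (nat_lit 303150) (nat_lit 15) .nil)))))))) (.g (nat_lit 4) .nil .nil))))) (.nd (nat_lit 4) (.nd (nat_lit 5) 
(.lf (nat_lit 82376) (.g (nat_lit 2265) (.e (nat_lit 1855) (nat_lit 124) (.e (nat_lit 557100) (nat_lit 13) (.e (nat_lit 172124) (nat_lit 14) (.e (nat_lit 491540) (nat_lit 3) (.e (nat_lit 98370) (nat_lit 28) (.e (nat_lit 442378) (nat_lit 0) .nil)))))) (.g (nat_lit 4) .nil .nil))) 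
(.lf (nat_lit 82408) (.g (nat_lit 2129) (.e (nat_lit 1855) (nat_lit 124) (.e (nat_lit 557101) (nat_lit 13) (.e (nat_lit 172115) (nat_lit 10) (.e (nat_lit 434227) (nat_lit 20) (.e (nat_lit 507929) (nat_lit 10) (.e (nat_lit 5768) (nat_lit 316) (.e (nat_lit 172137) (nat_lit 15) .nil))))))) (.g (nat_lit 5) .nil .nil)))) (.nd (nat_lit 5) 
(.lf (nat_lit 82392) (.g (nat_lit 5200) (.e (nat_lit 1855) (nat_lit 124) (.e (nat_lit 557101) (nat_lit 13) (.e (nat_lit 172097) (nat_lit 9) (.e (nat_lit 426125) (nat_lit 2) (.e (nat_lit 196666) (nat_lit 13) (.e (nat_lit 65572) (nat_lit 4) (.e (nat_lit 123195) (nat_lit 266) (.e (nat_lit 57354) (nat_lit 0) .nil)))))))) (.g (nat_lit 0) .nil .nil))) 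
(.lf (nat_lit 82424) (.g (nat_lit 1879) (.e (nat_lit 1855) (nat_lit 124) (.e (nat_lit 557101) (nat_lit 13) (.e (nat_lit 172115) (nat_lit 10) (.e (nat_lit 434231) (nat_lit 23) (.e (nat_lit 532543) (nat_lit 10) .nil))))) .nil))))) (.nd (nat_lit 3) (.nd (nat_lit 4) (.nd (nat_lit 5) 
(.lf (nat_lit 82372) (.g (nat_lit 1085) (.e (nat_lit 1855) (nat_lit 124) (.e (nat_lit 557100) (nat_lit 13) (.e (nat_lit 172124) (nat_lit 14) (.e (nat_lit 491540) (nat_lit 3) .nil)))) .nil)) 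
(.lf (nat_lit 82404) (.g (nat_lit 1981) (.e (nat_lit 1855) (nat_lit 124) (.e (nat_lit 557101) (nat_lit 13) (.e (nat_lit 172097) (nat_lit 9) (.e (nat_lit 426140) (nat_lit 3) (.e (nat_lit 204821) (nat_lit 17) (.e (nat_lit 7936) (nat_lit 364) (.e (nat_lit 237631) (nat_lit 15) .nil))))))) (.g (nat_lit 4) .nil .nil)))) (.nd (nat_lit 5) 
(.lf (nat_lit 82388) (.g (nat_lit 3813) (.e (nat_lit 1855) (nat_lit 124) (.e (nat_lit 557100) (nat_lit 13) (.e (nat_lit 172126) (nat_lit 14) (.e (nat_lit 491540) (nat_lit 3) (.e (nat_lit 98381) (nat_lit 31) (.e (nat_lit 466947) (nat_lit 0) .nil)))))) (.g (nat_lit 0) .nil .nil))) 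
(.lf (nat_lit 82420) (.g (nat_lit 2354) (.e (nat_lit 1855) (nat_lit 124) (.e (nat_lit 557101) (nat_lit 13) (.e (nat_lit 172115) (nat_lit 10) (.e (nat_lit 434231) (nat_lit 23) (.e (nat_lit 532535) (nat_lit 9) (.e (nat_lit 336030) (nat_lit 4) (.e (nat_lit 123196) (nat_lit 266) (.e (nat_lit 57354) (nat_lit 0) .nil)))))))) (.g (nat_lit 4) .nil .nil))))) (.nd (nat_lit 4) (.nd (nat_lit 5) 
(.lf (nat_lit 82380) (.g (nat_lit 2358) (.e (nat_lit 1855) (nat_lit 124) (.e (nat_lit 557100) (nat_lit 13) (.e (nat_lit 172126) (nat_lit 14) (.e (nat_lit 491537) (nat_lit 2) (.e (nat_lit 90178) (nat_lit 15) .nil))))) .nil)) 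
(.lf (nat_lit 82412) (.g (nat_lit 1713) (.e (nat_lit 1855) (nat_lit 124) (.e (nat_lit 557101) (nat_lit 13) (.e (nat_lit 172115) (nat_lit 10) (.e (nat_lit 434231) (nat_lit 23) (.e (nat_lit 532481) (nat_lit 0) (.e (nat_lit 6720) (nat_lit 361) (.e (nat_lit 179968) (nat_lit 15) .nil))))))) (.g (nat_lit 4) .nil .nil)))) (.nd (nat_lit 5) 
(.lf (nat_lit 82396) (.g (nat_lit 2104) (.e (nat_lit 1855) (nat_lit 124) (.e (nat_lit 557101) (nat_lit 13) (.e (nat_lit 172097) (nat_lit 9) (.e (nat_lit 426125) (nat_lit 2) (.e (nat_lit 196666) (nat_lit 13) (.e (nat_lit 65572) (nat_lit 4) (.e (nat_lit 123198) (nat_lit 266) (.e (nat_lit 57361) (nat_lit 0) .nil)))))))) (.g (nat_lit 4) .nil .nil))) 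
(.lf (nat_lit 82428) (.g (nat_lit 2058) (.e (nat_lit 1855) (nat_lit 124) (.e (nat_lit 557101) (nat_lit 13) (.e (nat_lit 172115) (nat_lit 10) (.e (nat_lit 434231) (nat_lit 23) (.e (nat_lit 532564) (nat_lit 15) (.e (nat_lit 385105) (nat_lit 50) (.e (nat_lit 786447) (nat_lit 15) .nil))))))) (.g (nat_lit 4) .nil .nil))))))) (.nd (nat_lit 2) (.nd (nat_lit 3) (.nd (nat_lit 4) (.nd (nat_lit 5) 
(.lf (nat_lit 82370) (.g (nat_lit 2467) (.e (nat_lit 1855) (nat_lit 124) (.e (nat_lit 557100) (nat_lit 13) (.e (nat_lit 172120) (nat_lit 12) (.e (nat_lit 475185) (nat_lit 29) (.e (nat_lit 557107) (nat_lit 15) (.e (nat_lit 188420) (nat_lit 0) .nil)))))) (.g (nat_lit 4) .nil .nil))) 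
(.lf (nat_lit 82402) (.g (nat_lit 2706) (.e (nat_lit 1855) (nat_lit 124) (.e (nat_lit 557101) (nat_lit 13) (.e (nat_lit 172097) (nat_lit 9) (.e (nat_lit 426140) (nat_lit 3) (.e (nat_lit 204821) (nat_lit 17) (.e (nat_lit 7936) (nat_lit 361) (.e (nat_lit 172136) (nat_lit 15) .nil))))))) (.g (nat_lit 5) .nil .nil)))) (.nd (nat_lit 5) 
(.lf (nat_lit 82386) (.g (nat_lit 3063) (.e (nat_lit 1855) (nat_lit 124) (.e (nat_lit 557100) (nat_lit 13) (.e (nat_lit 172126) (nat_lit 14) (.e (nat_lit 491540) (nat_lit 3) (.e (nat_lit 98370) (nat_lit 28) (.e (nat_lit 442378) (nat_lit 0) .nil)))))) (.g (nat_lit 4) .nil .nil))) 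
(.lf (nat_lit 82418) (.g (nat_lit 2409) (.e (nat_lit 1855) (nat_lit 124) (.e (nat_lit 557101) (nat_lit 13) (.e (nat_lit 172115) (nat_lit 10) (.e (nat_lit 434231) (nat_lit 23) (.e (nat_lit 532490) (nat_lit 0) (.e (nat_lit 7936) (nat_lit 364) (.e (nat_lit 237631) (nat_lit 15) .nil))))))) (.g (nat_lit 4) .nil .nil))))) (.nd (nat_lit 4) (.nd (nat_lit 5) 
(.lf (nat_lit 82378) (.g (nat_lit 2163) (.e (nat_lit 1855) (nat_lit 124) (.e (nat_lit 557100) (nat_lit 13) (.e (nat_lit 172126) (nat_lit 14) (.e (nat_lit 491536) (nat_lit 2) .nil)))) .nil)) 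
(.lf (nat_lit 82410) (.g (nat_lit 1999) (.e (nat_lit 1855) (nat_lit 124) (.e (nat_lit 557101) (nat_lit 13) (.e (nat_lit 172115) (nat_lit 10) (.e (nat_lit 434231) (nat_lit 23) (.e (nat_lit 532481) (nat_lit 0) (.e (nat_lit 6718) (nat_lit 361) (.e (nat_lit 172133) (nat_lit 15) .nil))))))) (.g (nat_lit 4) .nil .nil)))) (.nd (nat_lit 5) 
(.lf (nat_lit 82394) (.g (nat_lit 2732) (.e (nat_lit 1855) (nat_lit 124) (.e (nat_lit 557101) (nat_lit 13) (.e (nat_lit 172097) (nat_lit 9) (.e (nat_lit 426125) (nat_lit 2) (.e (nat_lit 196666) (nat_lit 13) (.e (nat_lit 65572) (nat_lit 4) (.e (nat_lit 123197) (nat_lit 266) (.e (nat_lit 57354) (nat_lit 0) .nil)))))))) (.g (nat_lit 5) .nil .nil))) 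
(.lf (nat_lit 82426) (.g (nat_lit 2662) (.e (nat_lit 1855) (nat_lit 124) (.e (nat_lit 557101) (nat_lit 13) (.e (nat_lit 172115) (nat_lit 10) (.e (nat_lit 434231) (nat_lit 23) (.e (nat_lit 532564) (nat_lit 15) (.e (nat_lit 385103) (nat_lit 50) (.e (nat_lit 786447) (nat_lit 15) .nil))))))) (.g (nat_lit 5) .nil .nil)))))) (.nd (nat_lit 3) (.nd (nat_lit 4) (.nd (nat_lit 5) 
(.lf (nat_lit 82374) (.g (nat_lit 2706) (.e (nat_lit 1855) (nat_lit 124) (.e (nat_lit 557100) (nat_lit 13) (.e (nat_lit 172124) (nat_lit 14) (.e (nat_lit 491540) (nat_lit 3) (.e (nat_lit 98370) (nat_lit 28) (.e (nat_lit 442372) (nat_lit 0) .nil)))))) (.g (nat_lit 5) .nil .nil))) 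
(.lf (nat_lit 82406) (.g (nat_lit 2462) (.e (nat_lit 1855) (nat_lit 124) (.e (nat_lit 557101) (nat_lit 13) (.e (nat_lit 172097) (nat_lit 9) (.e (nat_lit 426140) (nat_lit 3) (.e (nat_lit 204855) (nat_lit 26) (.e (nat_lit 336030) (nat_lit 4) (.e (nat_lit 123198) (nat_lit 266) (.e (nat_lit 57354) (nat_lit 0) .nil)))))))) (.g (nat_lit 4) .nil .nil)))) (.nd (nat_lit 5) 
(.lf (nat_lit 82390) (.g (nat_lit 2010) (.e (nat_lit 1855) (nat_lit 124) (.e (nat_lit 557101) (nat_lit 13) (.e (nat_lit 172097) (nat_lit 9) (.e (nat_lit 426125) (nat_lit 2) (.e (nat_lit 196661) (nat_lit 12) (.e (nat_lit 65280) (nat_lit 205) (.e (nat_lit 172136) (nat_lit 15) .nil))))))) (.g (nat_lit 4) .nil .nil))) 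
(.lf (nat_lit 82422) (.g (nat_lit 2872) (.e (nat_lit 1855) (nat_lit 124) (.e (nat_lit 557101) (nat_lit 13) (.e (nat_lit 172115) (nat_lit 10) (.e (nat_lit 434231) (nat_lit 23) (.e (nat_lit 532535) (nat_lit 9) (.e (nat_lit 336030) (nat_lit 4) (.e (nat_lit 123198) (nat_lit 266) (.e (nat_lit 57354) (nat_lit 0) .nil)))))))) (.g (nat_lit 5) .nil .nil))))) (.nd (nat_lit 4) (.nd (nat_lit 5) 
(.lf (nat_lit 82382) (.g (nat_lit 2983) (.e (nat_lit 1855) (nat_lit 124) (.e (nat_lit 557100) (nat_lit 13) (.e (nat_lit 172126) (nat_lit 14) (.e (nat_lit 491539) (nat_lit 3) (.e (nat_lit 98381) (nat_lit 31) (.e (nat_lit 466947) (nat_lit 0) .nil)))))) (.g (nat_lit 4) .nil .nil))) 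
(.lf (nat_lit 82414) (.g (nat_lit 1688) (.e (nat_lit 1855) (nat_lit 124) (.e (nat_lit 557101) (nat_lit 13) (.e (nat_lit 172115) (nat_lit 10) (.e (nat_lit 434231) (nat_lit 23) (.e (nat_lit 532490) (nat_lit 0) .nil))))) .nil))) (.nd (nat_lit 5) 
(.lf (nat_lit 82398) (.g (nat_lit 3329) (.e (nat_lit 1855) (nat_lit 124) (.e (nat_lit 557101) (nat_lit 13) (.e (nat_lit 172097) (nat_lit 9) (.e (nat_lit 426125) (nat_lit 2) (.e (nat_lit 196666) (nat_lit 13) (.e (nat_lit 65574) (nat_lit 4) (.e (nat_lit 123198) (nat_lit 266) (.e (nat_lit 57354) (nat_lit 0) .nil)))))))) (.g (nat_lit 6) .nil .nil))) 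
(.lf (nat_lit 82430) (.g (nat_lit 2487) (.e (nat_lit 1855) (nat_lit 124) (.e (nat_lit 557101) (nat_lit 13) (.e (nat_lit 172115) (nat_lit 10) (.e (nat_lit 434231) (nat_lit 23) (.e (nat_lit 532569) (nat_lit 16) (.e (nat_lit 401440) (nat_lit 9) (.e (nat_lit 426410) (nat_lit 15) .nil))))))) (.g (nat_lit 5) .nil .nil)))))))) 
(.nd (nat_lit 1) (.nd (nat_lit 2) (.nd (nat_lit 3) (.nd (nat_lit 4) (.nd (nat_lit 5) 
(.lf (nat_lit 82369) (.g (nat_lit 652) (.e (nat_lit 1855) (nat_lit 124) (.e (nat_lit 557100) (nat_lit 13) (.e (nat_lit 172119) (nat_lit 12) .nil))) .nil)) 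
(.lf (nat_lit 82401) (.g (nat_lit 1716) (.e (nat_lit 1855) (nat_lit 124) (.e (nat_lit 557101) (nat_lit 13) (.e (nat_lit 172097) (nat_lit 9) (.e (nat_lit 426140) (nat_lit 3) (.e (nat_lit 204821) (nat_lit 17) .nil))))) .nil))) (.nd (nat_lit 5) 
(.lf (nat_lit 82385) (.g (nat_lit 3566) (.e (nat_lit 1855) (nat_lit 124) (.e (nat_lit 557100) (nat_lit 13) (.e (nat_lit 172126) (nat_lit 14) (.e (nat_lit 491540) (nat_lit 3) (.e (nat_lit 98370) (nat_lit 28) (.e (nat_lit 442377) (nat_lit 0) .nil)))))) (.g (nat_lit 5) .nil .nil))) 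
(.lf (nat_lit 82417) (.g (nat_lit 2366) (.e (nat_lit 1855) (nat_lit 124) (.e (nat_lit 557101) (nat_lit 13) (.e (nat_lit 172115) (nat_lit 10) (.e (nat_lit 434231) (nat_lit 23) (.e (nat_lit 532490) (nat_lit 0) (.e (nat_lit 7936) (nat_lit 361) (.e (nat_lit 172138) (nat_lit 15) .nil))))))) (.g (nat_lit 4) .nil .nil))))) (.nd (nat_lit 4) (.nd (nat_lit 5) 
(.lf (nat_lit 82377) (.g (nat_lit 401) (.e (nat_lit 1855) (nat_lit 124) (.e (nat_lit 557100) (nat_lit 13) (.e (nat_lit 172126) (nat_lit 14) .nil))) .nil)) 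
(.lf (nat_lit 82409) (.g (nat_lit 2135) (.e (nat_lit 1855) (nat_lit 124) (.e (nat_lit 557101) (nat_lit 13) (.e (nat_lit 172115) (nat_lit 10) (.e (nat_lit 434227) (nat_lit 20) (.e (nat_lit 507930) (nat_lit 10) (.e (nat_lit 5768) (nat_lit 316) (.e (nat_lit 172137) (nat_lit 15) .nil))))))) (.g (nat_lit 5) .nil .nil)))) (.nd (nat_lit 5) 
(.lf (nat_lit 82393) (.g (nat_lit 2680) (.e (nat_lit 1855) (nat_lit 124) (.e (nat_lit 557101) (nat_lit 13) (.e (nat_lit 172097) (nat_lit 9) (.e (nat_lit 426125) (nat_lit 2) (.e (nat_lit 196666) (nat_lit 13) (.e (nat_lit 65572) (nat_lit 4) (.e (nat_lit 123196) (nat_lit 266) (.e (nat_lit 57354) (nat_lit 0) .nil)))))))) (.g (nat_lit 5) .nil .nil))) 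
(.lf (nat_lit 82425) (.g (nat_lit 1943) (.e (nat_lit 1855) (nat_lit 124) (.e (nat_lit 557101) (nat_lit 13) (.e (nat_lit 172115) (nat_lit 10) (.e (nat_lit 434231) (nat_lit 23) (.e (nat_lit 532564) (nat_lit 15) (.e (nat_lit 385102) (nat_lit 50) (.e (nat_lit 786447) (nat_lit 15) .nil))))))) (.g (nat_lit 4) .nil .nil)))))) (.nd (nat_lit 3) (.nd (nat_lit 4) (.nd (nat_lit 5) 
(.lf (nat_lit 82373) (.g (nat_lit 1770) (.e (nat_lit 1855) (nat_lit 124) (.e (nat_lit 557100) (nat_lit 13) (.e (nat_lit 172124) (nat_lit 14) (.e (nat_lit 491540) (nat_lit 3) (.e (nat_lit 98370) (nat_lit 28) .nil))))) .nil)) 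
(.lf (nat_lit 82405) (.g (nat_lit 1944) (.e (nat_lit 1855) (nat_lit 124) (.e (nat_lit 557101) (nat_lit 13) (.e (nat_lit 172097) (nat_lit 9) (.e (nat_lit 426140) (nat_lit 3) (.e (nat_lit 204855) (nat_lit 26) (.e (nat_lit 336030) (nat_lit 4) (.e (nat_lit 123196) (nat_lit 266) (.e (nat_lit 57354) (nat_lit 0) .nil)))))))) (.g (nat_lit 4) .nil .nil)))) (.nd (nat_lit 5) 
(.lf (nat_lit 82389) (.g (nat_lit 503) (.e (nat_lit 1855) (nat_lit 124) (.e (nat_lit 557100) (nat_lit 13) (.e (nat_lit 179968) (nat_lit 20) .nil))) .nil)) 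
(.lf (nat_lit 82421) (.g (nat_lit 2275) (.e (nat_lit 1855) (nat_lit 124) (.e (nat_lit 557101) (nat_lit 13) (.e (nat_lit 172115) (nat_lit 10) (.e (nat_lit 434231) (nat_lit 23) (.e (nat_lit 532535) (nat_lit 9) (.e (nat_lit 336030) (nat_lit 4) (.e (nat_lit 123197) (nat_lit 266) (.e (nat_lit 57354) (nat_lit 0) .nil)))))))) (.g (nat_lit 4) .nil .nil))))) (.nd (nat_lit 4) (.nd (nat_lit 5) 
(.lf (nat_lit 82381) (.g (nat_lit 1907) (.e (nat_lit 1855) (nat_lit 124) (.e (nat_lit 557100) (nat_lit 13) (.e (nat_lit 172126) (nat_lit 14) (.e (nat_lit 491539) (nat_lit 3) .nil)))) .nil)) 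
(.lf (nat_lit 82413) (.g (nat_lit 1907) (.e (nat_lit 1855) (nat_lit 124) (.e (nat_lit 557101) (nat_lit 13) (.e (nat_lit 172115) (nat_lit 10) (.e (nat_lit 434231) (nat_lit 23) (.e (nat_lit 532482) (nat_lit 0) (.e (nat_lit 6720) (nat_lit 361) (.e (nat_lit 172133) (nat_lit 15) .nil))))))) (.g (nat_lit 4) .nil .nil)))) (.nd (nat_lit 5) 
(.lf (nat_lit 82397) (.g (nat_lit 3535) (.e (nat_lit 1855) (nat_lit 124) (.e (nat_lit 557101) (nat_lit 13) (.e (nat_lit 172097) (nat_lit 9) (.e (nat_lit 426125) (nat_lit 2) (.e (nat_lit 196666) (nat_lit 13) (.e (nat_lit 65573) (nat_lit 4) (.e (nat_lit 123195) (nat_lit 266) (.e (nat_lit 57354) (nat_lit 0) .nil)))))))) (.g (nat_lit 5) .nil .nil))) 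
(.lf (nat_lit 82429) (.g (nat_lit 2660) (.e (nat_lit 1855) (nat_lit 124) (.e (nat_lit 557101) (nat_lit 13) (.e (nat_lit 172115) (nat_lit 10) (.e (nat_lit 434231) (nat_lit 23) (.e (nat_lit 532569) (nat_lit 16) (.e (nat_lit 401440) (nat_lit 9) (.e (nat_lit 426396) (nat_lit 15) .nil))))))) (.g (nat_lit 5) .nil .nil))))))) (.nd (nat_lit 2) (.nd (nat_lit 3) (.nd (nat_lit 4) (.nd (nat_lit 5) 
(.lf (nat_lit 82371) (.g (nat_lit 2277) (.e (nat_lit 1855) (nat_lit 124) (.e (nat_lit 557100) (nat_lit 13) (.e (nat_lit 172120) (nat_lit 12) (.e (nat_lit 475185) (nat_lit 29) (.e (nat_lit 557109) (nat_lit 15) (.e (nat_lit 196352) (nat_lit 0) .nil)))))) (.g (nat_lit 4) .nil .nil))) 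
(.lf (nat_lit 82403) (.g (nat_lit 2497) (.e (nat_lit 1855) (nat_lit 124) (.e (nat_lit 557101) (nat_lit 13) (.e (nat_lit 172097) (nat_lit 9) (.e (nat_lit 426140) (nat_lit 3) (.e (nat_lit 204821) (nat_lit 17) (.e (nat_lit 7936) (nat_lit 361) (.e (nat_lit 172138) (nat_lit 15) .nil))))))) (.g (nat_lit 4) .nil .nil)))) (.nd (nat_lit 5) 
(.lf (nat_lit 82387) (.g (nat_lit 2026) (.e (nat_lit 1855) (nat_lit 124) (.e (nat_lit 557100) (nat_lit 13) (.e (nat_lit 172126) (nat_lit 14) (.e (nat_lit 491540) (nat_lit 3) (.e (nat_lit 98381) (nat_lit 31) .nil))))) .nil)) 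
(.lf (nat_lit 82419) (.g (nat_lit 2572) (.e (nat_lit 1855) (nat_lit 124) (.e (nat_lit 557101) (nat_lit 13) (.e (nat_lit 172115) (nat_lit 10) (.e (nat_lit 434231) (nat_lit 23) (.e (nat_lit 532528) (nat_lit 9) (.e (nat_lit 336260) (nat_lit 15) (.e (nat_lit 3733) (nat_lit 228) (.e (nat_lit 786447) (nat_lit 15) .nil)))))))) (.g (nat_lit 4) .nil .nil))))) (.nd (nat_lit 4) (.nd (nat_lit 5) 
(.lf (nat_lit 82379) (.g (nat_lit 2254) (.e (nat_lit 1855) (nat_lit 124) (.e (nat_lit 557100) (nat_lit 13) (.e (nat_lit 172126) (nat_lit 14) (.e (nat_lit 491537) (nat_lit 2) (.e (nat_lit 90176) (nat_lit 15) .nil))))) .nil)) 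
(.lf (nat_lit 82411) (.g (nat_lit 2211) (.e (nat_lit 1855) (nat_lit 124) (.e (nat_lit 557101) (nat_lit 13) (.e (nat_lit 172115) (nat_lit 10) (.e (nat_lit 434231) (nat_lit 23) (.e (nat_lit 532481) (nat_lit 0) (.e (nat_lit 6720) (nat_lit 361) (.e (nat_lit 172133) (nat_lit 15) .nil))))))) (.g (nat_lit 4) .nil .nil)))) (.nd (nat_lit 5) 
(.lf (nat_lit 82395) (.g (nat_lit 3029) (.e (nat_lit 1855) (nat_lit 124) (.e (nat_lit 557101) (nat_lit 13) (.e (nat_lit 172097) (nat_lit 9) (.e (nat_lit 426125) (nat_lit 2) (.e (nat_lit 196666) (nat_lit 13) (.e (nat_lit 65572) (nat_lit 4) (.e (nat_lit 123198) (nat_lit 266) (.e (nat_lit 57354) (nat_lit 0) .nil)))))))) (.g (nat_lit 5) .nil .nil))) 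
(.lf (nat_lit 82427) (.g (nat_lit 3039) (.e (nat_lit 1855) (nat_lit 124) (.e (nat_lit 557101) (nat_lit 13) (.e (nat_lit 172115) (nat_lit 10) (.e (nat_lit 434231) (nat_lit 23) (.e (nat_lit 532564) (nat_lit 15) (.e (nat_lit 385104) (nat_lit 50) (.e (nat_lit 786447) (nat_lit 15) .nil))))))) (.g (nat_lit 5) .nil .nil)))))) (.nd (nat_lit 3) (.nd (nat_lit 4) (.nd (nat_lit 5) 
(.lf (nat_lit 82375) (.g (nat_lit 2832) (.e (nat_lit 1855) (nat_lit 124) (.e (nat_lit 557100) (nat_lit 13) (.e (nat_lit 172124) (nat_lit 14) (.e (nat_lit 491540) (nat_lit 3) (.e (nat_lit 98370) (nat_lit 28) (.e (nat_lit 442377) (nat_lit 0) .nil)))))) (.g (nat_lit 5) .nil .nil))) 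
(.lf (nat_lit 82407) (.g (nat_lit 1000) (.e (nat_lit 1855) (nat_lit 124) (.e (nat_lit 557101) (nat_lit 13) (.e (nat_lit 172115) (nat_lit 10) (.e (nat_lit 434227) (nat_lit 20) .nil)))) .nil))) (.nd (nat_lit 5) 
(.lf (nat_lit 82391) (.g (nat_lit 2243) (.e (nat_lit 1855) (nat_lit 124) (.e (nat_lit 557101) (nat_lit 13) (.e (nat_lit 172097) (nat_lit 9) (.e (nat_lit 426125) (nat_lit 2) (.e (nat_lit 196661) (nat_lit 12) (.e (nat_lit 65280) (nat_lit 208) (.e (nat_lit 237631) (nat_lit 15) .nil))))))) (.g (nat_lit 4) .nil .nil))) 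
(.lf (nat_lit 82423) (.g (nat_lit 1947) (.e (nat_lit 1855) (nat_lit 124) (.e (nat_lit 557101) (nat_lit 13) (.e (nat_lit 172115) (nat_lit 10) (.e (nat_lit 434231) (nat_lit 23) (.e (nat_lit 532535) (nat_lit 9) (.e (nat_lit 336030) (nat_lit 4) (.e (nat_lit 123198) (nat_lit 266) (.e (nat_lit 57361) (nat_lit 0) .nil)))))))) (.g (nat_lit 4) .nil .nil))))) (.nd (nat_lit 4) (.nd (nat_lit 5) 
(.lf (nat_lit 82383) (.g (nat_lit 1646) (.e (nat_lit 1855) (nat_lit 124) (.e (nat_lit 557100) (nat_lit 13) (.e (nat_lit 172126) (nat_lit 14) (.e (nat_lit 491540) (nat_lit 3) .nil)))) .nil)) 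
(.lf (nat_lit 82415) (.g (nat_lit 2347) (.e (nat_lit 1855) (nat_lit 124) (.e (nat_lit 557101) (nat_lit 13) (.e (nat_lit 172115) (nat_lit 10) (.e (nat_lit 434231) (nat_lit 23) (.e (nat_lit 532490) (nat_lit 0) (.e (nat_lit 6114) (nat_lit 332) (.e (nat_lit 1378) (nat_lit 104) (.e (nat_lit 303150) (nat_lit 15) .nil)))))))) (.g (nat_lit 4) .nil .nil)))) (.nd (nat_lit 5) 
(.lf (nat_lit 82399) (.g (nat_lit 2404) (.e (nat_lit 1855) (nat_lit 124) (.e (nat_lit 557101) (nat_lit 13) (.e (nat_lit 172097) (nat_lit 9) (.e (nat_lit 426125) (nat_lit 2) (.e (nat_lit 196666) (nat_lit 13) (.e (nat_lit 65574) (nat_lit 4) (.e (nat_lit 123198) (nat_lit 266) (.e (nat_lit 57361) (nat_lit 0) .nil)))))))) (.g (nat_lit 4) .nil .nil))) 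
(.lf (nat_lit 82431) (.g (nat_lit 1057) (.e (nat_lit 1855) (nat_lit 124) (.e (nat_lit 557101) (nat_lit 13) (.e (nat_lit 172115) (nat_lit 10) (.e (nat_lit 434238) (nat_lit 25) .nil)))) .nil))))))))

noncomputable def tv1116 : DT := (.nd (nat_lit 0) (.nd (nat_lit 1) (.nd (nat_lit 2) (.nd (nat_lit 3) (.nd (nat_lit 4) (.nd (nat_lit 5) 
(.lf (nat_lit 82432) (.g (nat_lit 1985) (.e (nat_lit 1855) (nat_lit 124) (.e (nat_lit 557101) (nat_lit 13) (.e (nat_lit 172115) (nat_lit 10) (.e (nat_lit 434238) (nat_lit 25) (.e (nat_lit 548896) (nat_lit 14) (.e (nat_lit 3004) (nat_lit 186) (.e (nat_lit 450304) (nat_lit 0) .nil))))))) (.g (nat_lit 4) .nil .nil))) 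
(.lf (nat_lit 82464) (.g (nat_lit 1724) (.e (nat_lit 1855) (nat_lit 124) (.e (nat_lit 557105) (nat_lit 14) (.e (nat_lit 180252) (nat_lit 10) (.e (nat_lit 573480) (nat_lit 13) .nil)))) .nil))) (.nd (nat_lit 5) 
(.lf (nat_lit 82448) (.g (nat_lit 769) (.e (nat_lit 1855) (nat_lit 124) (.e (nat_lit 557101) (nat_lit 13) (.e (nat_lit 172124) (nat_lit 14) (.e (nat_lit 491540) (nat_lit 3) .nil)))) .nil)) 
(.lf (nat_lit 82480) (.g (nat_lit 2272) (.e (nat_lit 1855) (nat_lit 124) (.e (nat_lit 557105) (nat_lit 14) (.e (nat_lit 180252) (nat_lit 10) (.e (nat_lit 573487) (nat_lit 14) (.e (nat_lit 73747) (nat_lit 3) .nil))))) .nil)))) (.nd (nat_lit 4) (.nd (nat_lit 5) 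
(.lf (nat_lit 82440) (.g (nat_lit 3606) (.e (nat_lit 1855) (nat_lit 124) (.e (nat_lit 557101) (nat_lit 13) (.e (nat_lit 172115) (nat_lit 10) (.e (nat_lit 434244) (nat_lit 28) (.e (nat_lit 573450) (nat_lit 9) (.e (nat_lit 375) (nat_lit 32) (.e (nat_lit 426201) (nat_lit 9) (.e (nat_lit 426399) (nat_lit 15) .nil)))))))) (.g (nat_lit 6) .nil .nil))) 
(.lf (nat_lit 82472) (.g (nat_lit 3072) (.e (nat_lit 1855) (nat_lit 124) (.e (nat_lit 557105) (nat_lit 14) (.e (nat_lit 180252) (nat_lit 10) (.e (nat_lit 573482) (nat_lit 13) (.e (nat_lit 65570) (nat_lit 3) .nil))))) .nil))) (.nd (nat_lit 5) 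
(.lf (nat_lit 82456) (.g (nat_lit 520) (.e (nat_lit 1855) (nat_lit 124) (.e (nat_lit 557103) (nat_lit 14) (.e (nat_lit 188160) (nat_lit 35) .nil))) .nil)) 
(.lf (nat_lit 82488) (.g (nat_lit 3248) (.e (nat_lit 1855) (nat_lit 124) (.e (nat_lit 557105) (nat_lit 14) (.e (nat_lit 180252) (nat_lit 10) (.e (nat_lit 573488) (nat_lit 14) (.e (nat_lit 73747) (nat_lit 3) (.e (nat_lit 516119) (nat_lit 1) (.e (nat_lit 164176) (nat_lit 154) (.e (nat_lit 57357) (nat_lit 0) .nil)))))))) (.g (nat_lit 5) .nil .nil)))))) 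
(.nd (nat_lit 3) (.nd (nat_lit 4) (.nd (nat_lit 5) 
(.lf (nat_lit 82436) (.g (nat_lit 1560) (.e (nat_lit 1855) (nat_lit 124) (.e (nat_lit 557101) (nat_lit 13) (.e (nat_lit 172115) (nat_lit 10) (.e (nat_lit 434238) (nat_lit 25) (.e (nat_lit 548898) (nat_lit 14) .nil))))) .nil)) 
(.lf (nat_lit 82468) (.g (nat_lit 4316) (.e (nat_lit 1855) (nat_lit 124) (.e (nat_lit 557105) (nat_lit 14) (.e (nat_lit 180252) (nat_lit 10) (.e (nat_lit 573481) (nat_lit 13) (.e (nat_lit 65570) (nat_lit 3) (.e (nat_lit 98333) (nat_lit 18) (.e (nat_lit 164179) (nat_lit 154) (.e (nat_lit 57354) (nat_lit 0) .nil)))))))) (.g (nat_lit 6) .nil .nil)))) (.nd (nat_lit 5) 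
(.lf (nat_lit 82452) (.g (nat_lit 1967) (.e (nat_lit 1855) (nat_lit 124) (.e (nat_lit 557101) (nat_lit 13) (.e (nat_lit 172126) (nat_lit 14) (.e (nat_lit 491539) (nat_lit 3) (.e (nat_lit 98380) (nat_lit 31) (.e (nat_lit 466947) (nat_lit 0) .nil)))))) (.g (nat_lit 4) .nil .nil))) 
(.lf (nat_lit 82484) (.g (nat_lit 2390) (.e (nat_lit 1855) (nat_lit 124) (.e (nat_lit 557105) (nat_lit 14) (.e (nat_lit 180252) (nat_lit 10) (.e (nat_lit 573487) (nat_lit 14) (.e (nat_lit 73747) (nat_lit 3) (.e (nat_lit 516119) (nat_lit 1) (.e (nat_lit 164178) (nat_lit 154) (.e (nat_lit 57354) (nat_lit 0) .nil)))))))) (.g (nat_lit 4) .nil .nil))))) (.nd (nat_lit 4) (.nd (nat_lit 5) 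
(.lf (nat_lit 82444) (.g (nat_lit 2868) (.e (nat_lit 1855) (nat_lit 124) (.e (nat_lit 557101) (nat_lit 13) (.e (nat_lit 172115) (nat_lit 10) (.e (nat_lit 434244) (nat_lit 28) (.e (nat_lit 573471) (nat_lit 11) (.e (nat_lit 16440) (nat_lit 9) (.e (nat_lit 426410) (nat_lit 15) .nil))))))) (.g (nat_lit 5) .nil .nil))) 
(.lf (nat_lit 82476) (.g (nat_lit 3019) (.e (nat_lit 1855) (nat_lit 124) (.e (nat_lit 557105) (nat_lit 14) (.e (nat_lit 180252) (nat_lit 10) (.e (nat_lit 573482) (nat_lit 13) (.e (nat_lit 73472) (nat_lit 18) (.e (nat_lit 204830) (nat_lit 18) (.e (nat_lit 57852) (nat_lit 252) (.e (nat_lit 57361) (nat_lit 0) .nil)))))))) (.g (nat_lit 4) .nil .nil)))) (.nd (nat_lit 5) 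
(.lf (nat_lit 82460) (.g (nat_lit 1917) (.e (nat_lit 1855) (nat_lit 124) (.e (nat_lit 557105) (nat_lit 14) (.e (nat_lit 180252) (nat_lit 10) (.e (nat_lit 573451) (nat_lit 9) .nil)))) .nil)) 
(.lf (nat_lit 82492) (.g (nat_lit 2731) (.e (nat_lit 1855) (nat_lit 124) (.e (nat_lit 557105) (nat_lit 14) (.e (nat_lit 180252) (nat_lit 10) (.e (nat_lit 573488) (nat_lit 14) (.e (nat_lit 73748) (nat_lit 3) .nil))))) .nil)))))) (.nd (nat_lit 2) (.nd (nat_lit 3) (.nd (nat_lit 4) (.nd (nat_lit 5) 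
(.lf (nat_lit 82434) (.g (nat_lit 1977) (.e (nat_lit 1855) (nat_lit 124) (.e (nat_lit 557101) (nat_lit 13) (.e (nat_lit 172115) (nat_lit 10) (.e (nat_lit 434238) (nat_lit 25) (.e (nat_lit 548897) (nat_lit 14) (.e (nat_lit 2988) (nat_lit 186) (.e (nat_lit 450304) (nat_lit 0) .nil))))))) (.g (nat_lit 4) .nil .nil))) 
(.lf (nat_lit 82466) (.g (nat_lit 1837) (.e (nat_lit 1855) (nat_lit 124) (.e (nat_lit 557105) (nat_lit 14) (.e (nat_lit 180252) (nat_lit 10) (.e (nat_lit 573481) (nat_lit 13) .nil)))) .nil))) (.nd (nat_lit 5) 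
(.lf (nat_lit 82450) (.g (nat_lit 2468) (.e (nat_lit 1855) (nat_lit 124) (.e (nat_lit 557101) (nat_lit 13) (.e (nat_lit 172124) (nat_lit 14) (.e (nat_lit 491540) (nat_lit 3) (.e (nat_lit 98370) (nat_lit 28) (.e (nat_lit 442377) (nat_lit 0) .nil)))))) (.g (nat_lit 5) .nil .nil))) 
(.lf (nat_lit 82482) (.g (nat_lit 2724) (.e (nat_lit 1855) (nat_lit 124) (.e (nat_lit 557105) (nat_lit 14) (.e (nat_lit 180252) (nat_lit 10) (.e (nat_lit 573487) (nat_lit 14) (.e (nat_lit 73747) (nat_lit 3) (.e (nat_lit 516119) (nat_lit 1) (.e (nat_lit 164176) (nat_lit 154) (.e (nat_lit 57354) (nat_lit 0) .nil)))))))) (.g (nat_lit 4) .nil .nil))))) (.nd (nat_lit 4) (.nd (nat_lit 5) 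
(.lf (nat_lit 82442) (.g (nat_lit 1771) (.e (nat_lit 1855) (nat_lit 124) (.e (nat_lit 557101) (nat_lit 13) (.e (nat_lit 172115) (nat_lit 10) (.e (nat_lit 434244) (nat_lit 28) (.e (nat_lit 573471) (nat_lit 11) (.e (nat_lit 16439) (nat_lit 9) (.e (nat_lit 426380) (nat_lit 15) .nil))))))) (.g (nat_lit 4) .nil .nil))) 
(.lf (nat_lit 82474) (.g (nat_lit 3242) (.e (nat_lit 1855) (nat_lit 124) (.e (nat_lit 557105) (nat_lit 14) (.e (nat_lit 180252) (nat_lit 10) (.e (nat_lit 573482) (nat_lit 13) (.e (nat_lit 73472) (nat_lit 18) (.e (nat_lit 204829) (nat_lit 18) (.e (nat_lit 57851) (nat_lit 252) (.e (nat_lit 57354) (nat_lit 0) .nil)))))))) (.g (nat_lit 4) .nil .nil)))) (.nd (nat_lit 5) 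
(.lf (nat_lit 82458) (.g (nat_lit 894) (.e (nat_lit 1855) (nat_lit 124) (.e (nat_lit 557103) (nat_lit 14) (.e (nat_lit 180284) (nat_lit 45) .nil))) .nil)) 
(.lf (nat_lit 82490) (.g (nat_lit 3012) (.e (nat_lit 1855) (nat_lit 124) (.e (nat_lit 557105) (nat_lit 14) (.e (nat_lit 180252) (nat_lit 10) (.e (nat_lit 573488) (nat_lit 14) (.e (nat_lit 73747) (nat_lit 3) (.e (nat_lit 516119) (nat_lit 1) (.e (nat_lit 164180) (nat_lit 154) (.e (nat_lit 57357) (nat_lit 0) .nil)))))))) (.g (nat_lit 4) .nil .nil)))))) 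
(.nd (nat_lit 3) (.nd (nat_lit 4) (.nd (nat_lit 5) 
(.lf (nat_lit 82438) (.g (nat_lit 2399) (.e (nat_lit 1855) (nat_lit 124) (.e (nat_lit 557101) (nat_lit 13) (.e (nat_lit 172115) (nat_lit 10) (.e (nat_lit 434238) (nat_lit 25) (.e (nat_lit 548898) (nat_lit 14) (.e (nat_lit 3004) (nat_lit 186) (.e (nat_lit 450304) (nat_lit 0) .nil))))))) (.g (nat_lit 5) .nil .nil))) 
(.lf (nat_lit 82470) (.g (nat_lit 2648) (.e (nat_lit 1855) (nat_lit 124) (.e (nat_lit 557105) (nat_lit 14) (.e (nat_lit 180252) (nat_lit 10) (.e (nat_lit 573481) (nat_lit 13) (.e (nat_lit 73472) (nat_lit 18) (.e (nat_lit 204830) (nat_lit 18) (.e (nat_lit 57852) (nat_lit 252) (.e (nat_lit 57357) (nat_lit 0) .nil)))))))) (.g (nat_lit 4) .nil .nil)))) (.nd (nat_lit 5) 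
(.lf (nat_lit 82454) (.g (nat_lit 648) (.e (nat_lit 1855) (nat_lit 124) (.e (nat_lit 557103) (nat_lit 14) (.e (nat_lit 180276) (nat_lit 32) .nil))) .nil)) 
(.lf (nat_lit 82486) (.g (nat_lit 2522) (.e (nat_lit 1855) (nat_lit 124) (.e (nat_lit 557105) (nat_lit 14) (.e (nat_lit 180252) (nat_lit 10) (.e (nat_lit 573488) (nat_lit 14) (.e (nat_lit 73747) (nat_lit 3) .nil))))) .nil)))) (.nd (nat_lit 4) (.nd (nat_lit 5) 
(.lf (nat_lit 82446) (.g (nat_lit 3225) (.e (nat_lit 1855) (nat_lit 124) (.e (nat_lit 557101) (nat_lit 13) (.e (nat_lit 172115) (nat_lit 10) (.e (nat_lit 434244) (nat_lit 28) (.e (nat_lit 573471) (nat_lit 11) (.e (nat_lit 16440) (nat_lit 9) (.e (nat_lit 426414) (nat_lit 15) .nil))))))) (.g (nat_lit 6) .nil .nil))) 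
(.lf (nat_lit 82478) (.g (nat_lit 3391) (.e (nat_lit 1855) (nat_lit 124) (.e (nat_lit 557105) (nat_lit 14) (.e (nat_lit 180252) (nat_lit 10) (.e (nat_lit 573482) (nat_lit 13) (.e (nat_lit 73472) (nat_lit 18) (.e (nat_lit 204831) (nat_lit 18) (.e (nat_lit 57852) (nat_lit 252) (.e (nat_lit 57361) (nat_lit 0) .nil)))))))) (.g (nat_lit 4) .nil .nil)))) (.nd (nat_lit 5) 
(.lf (nat_lit 82462) (.g (nat_lit 3315) (.e (nat_lit 1855) (nat_lit 124) (.e (nat_lit 557105) (nat_lit 14) (.e (nat_lit 180252) (nat_lit 10) (.e (nat_lit 573474) (nat_lit 12) (.e (nat_lit 57354) (nat_lit 0) (.e (nat_lit 5194) (nat_lit 294) (.e (nat_lit 57372) (nat_lit 2) (.e (nat_lit 90160) (nat_lit 11) (.e (nat_lit 24588) (nat_lit 0) .nil))))))))) (.g (nat_lit 4) .nil .nil))) 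
(.lf (nat_lit 82494) (.g (nat_lit 3349) (.e (nat_lit 1855) (nat_lit 124) (.e (nat_lit 557105) (nat_lit 14) (.e (nat_lit 180252) (nat_lit 10) (.e (nat_lit 573488) (nat_lit 14) (.e (nat_lit 81664) (nat_lit 5) (.e (nat_lit 532490) (nat_lit 0) (.e (nat_lit 7936) (nat_lit 154) (.e (nat_lit 802818) (nat_lit 0) .nil)))))))) (.g (nat_lit 4) .nil .nil)))))))) 
(.nd (nat_lit 1) (.nd (nat_lit 2) (.nd (nat_lit 3) (.nd (nat_lit 4) (.nd (nat_lit 5) 
(.lf (nat_lit 82433) (.g (nat_lit 1611) (.e (nat_lit 1855) (nat_lit 124) (.e (nat_lit 557101) (nat_lit 13) (.e (nat_lit 172115) (nat_lit 10) (.e (nat_lit 434238) (nat_lit 25) (.e (nat_lit 548897) (nat_lit 14) .nil))))) .nil)) 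
(.lf (nat_lit 82465) (.g (nat_lit 2326) (.e (nat_lit 1855) (nat_lit 124) (.e (nat_lit 557105) (nat_lit 14) (.e (nat_lit 180252) (nat_lit 10) (.e (nat_lit 573480) (nat_lit 13) (.e (nat_lit 73472) (nat_lit 18) (.e (nat_lit 204830) (nat_lit 18) (.e (nat_lit 57851) (nat_lit 252) (.e (nat_lit 57354) (nat_lit 0) .nil)))))))) (.g (nat_lit 4) .nil .nil)))) (.nd (nat_lit 5) 
(.lf (nat_lit 82449) (.g (nat_lit 2303) (.e (nat_lit 1855) (nat_lit 124) (.e (nat_lit 557101) (nat_lit 13) (.e (nat_lit 172124) (nat_lit 14) (.e (nat_lit 491540) (nat_lit 3) (.e (nat_lit 98370) (nat_lit 28) (.e (nat_lit 442372) (nat_lit 0) .nil)))))) (.g (nat_lit 5) .nil .nil))) 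
(.lf (nat_lit 82481) (.g (nat_lit 2758) (.e (nat_lit 1855) (nat_lit 124) (.e (nat_lit 557105) (nat_lit 14) (.e (nat_lit 180252) (nat_lit 10) (.e (nat_lit 573487) (nat_lit 14) (.e (nat_lit 73747) (nat_lit 3) (.e (nat_lit 516115) (nat_lit 1) (.e (nat_lit 164182) (nat_lit 154) (.e (nat_lit 57357) (nat_lit 0) .nil)))))))) (.g (nat_lit 4) .nil .nil))))) (.nd (nat_lit 4) (.nd (nat_lit 5) 
(.lf (nat_lit 82441) (.g (nat_lit 2091) (.e (nat_lit 1855) (nat_lit 124) (.e (nat_lit 557101) (nat_lit 13) (.e (nat_lit 172115) (nat_lit 10) (.e (nat_lit 434244) (nat_lit 28) (.e (nat_lit 573464) (nat_lit 9) .nil))))) .nil)) 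
(.lf (nat_lit 82473) (.g (nat_lit 2995) (.e (nat_lit 1855) (nat_lit 124) (.e (nat_lit 557105) (nat_lit 14) (.e (nat_lit 180252) (nat_lit 10) (.e (nat_lit 573482) (nat_lit 13) (.e (nat_lit 73472) (nat_lit 15) .nil))))) .nil))) (.nd (nat_lit 5) 
(.lf (nat_lit 82457) (.g (nat_lit 2442) (.e (nat_lit 1855) (nat_lit 124) (.e (nat_lit 557103) (nat_lit 14) (.e (nat_lit 188160) (nat_lit 35) (.e (nat_lit 57464) (nat_lit 23) (.e (nat_lit 516163) (nat_lit 11) (.e (nat_lit 442377) (nat_lit 0) .nil)))))) (.g (nat_lit 5) .nil .nil))) 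
(.lf (nat_lit 82489) (.g (nat_lit 3019) (.e (nat_lit 1855) (nat_lit 124) (.e (nat_lit 557105) (nat_lit 14) (.e (nat_lit 180252) (nat_lit 10) (.e (nat_lit 573488) (nat_lit 14) (.e (nat_lit 73747) (nat_lit 3) (.e (nat_lit 516119) (nat_lit 1) (.e (nat_lit 164178) (nat_lit 154) (.e (nat_lit 57354) (nat_lit 0) .nil)))))))) (.g (nat_lit 4) .nil .nil)))))) 
(.nd (nat_lit 3) (.nd (nat_lit 4) (.nd (nat_lit 5) 
(.lf (nat_lit 82437) (.g (nat_lit 2521) (.e (nat_lit 1855) (nat_lit 124) (.e (nat_lit 557101) (nat_lit 13) (.e (nat_lit 172115) (nat_lit 10) (.e (nat_lit 434238) (nat_lit 25) (.e (nat_lit 548898) (nat_lit 14) (.e (nat_lit 2988) (nat_lit 186) (.e (nat_lit 450304) (nat_lit 0) .nil))))))) (.g (nat_lit 5) .nil .nil))) 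
(.lf (nat_lit 82469) (.g (nat_lit 2963) (.e (nat_lit 1855) (nat_lit 124) (.e (nat_lit 557105) (nat_lit 14) (.e (nat_lit 180252) (nat_lit 10) (.e (nat_lit 573481) (nat_lit 13) (.e (nat_lit 65570) (nat_lit 3) (.e (nat_lit 98333) (nat_lit 18) (.e (nat_lit 164182) (nat_lit 154) (.e (nat_lit 57357) (nat_lit 0) .nil)))))))) (.g (nat_lit 4) .nil .nil)))) (.nd (nat_lit 5) 
(.lf (nat_lit 82453) (.g (nat_lit 2803) (.e (nat_lit 1855) (nat_lit 124) (.e (nat_lit 557101) (nat_lit 13) (.e (nat_lit 172126) (nat_lit 14) (.e (nat_lit 491540) (nat_lit 3) (.e (nat_lit 98380) (nat_lit 31) (.e (nat_lit 466947) (nat_lit 0) .nil)))))) (.g (nat_lit 0) .nil .nil))) 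
(.lf (nat_lit 82485) (.g (nat_lit 3246) (.e (nat_lit 1855) (nat_lit 124) (.e (nat_lit 557105) (nat_lit 14) (.e (nat_lit 180252) (nat_lit 10) (.e (nat_lit 573487) (nat_lit 14) (.e (nat_lit 73747) (nat_lit 3) (.e (nat_lit 516119) (nat_lit 1) (.e (nat_lit 164179) (nat_lit 154) (.e (nat_lit 57354) (nat_lit 0) .nil)))))))) (.g (nat_lit 5) .nil .nil))))) (.nd (nat_lit 4) (.nd (nat_lit 5) 
(.lf (nat_lit 82445) (.g (nat_lit 2436) (.e (nat_lit 1855) (nat_lit 124) (.e (nat_lit 557101) (nat_lit 13) (.e (nat_lit 172115) (nat_lit 10) (.e (nat_lit 434244) (nat_lit 28) (.e (nat_lit 573471) (nat_lit 11) (.e (nat_lit 16440) (nat_lit 9) (.e (nat_lit 426411) (nat_lit 15) .nil))))))) (.g (nat_lit 5) .nil .nil))) 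
(.lf (nat_lit 82477) (.g (nat_lit 3243) (.e (nat_lit 1855) (nat_lit 124) (.e (nat_lit 557105) (nat_lit 14) (.e (nat_lit 180252) (nat_lit 10) (.e (nat_lit 573482) (nat_lit 13) (.e (nat_lit 73472) (nat_lit 18) (.e (nat_lit 204831) (nat_lit 18) (.e (nat_lit 57852) (nat_lit 252) (.e (nat_lit 57357) (nat_lit 0) .nil)))))))) (.g (nat_lit 4) .nil .nil)))) (.nd (nat_lit 5) 
(.lf (nat_lit 82461) (.g (nat_lit 3341) (.e (nat_lit 1855) (nat_lit 124) (.e (nat_lit 557105) (nat_lit 14) (.e (nat_lit 180252) (nat_lit 10) (.e (nat_lit 573451) (nat_lit 9) (.e (nat_lit 1626) (nat_lit 114) .nil))))) .nil)) 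
(.lf (nat_lit 82493) (.g (nat_lit 2819) (.e (nat_lit 1855) (nat_lit 124) (.e (nat_lit 557105) (nat_lit 14) (.e (nat_lit 180252) (nat_lit 10) (.e (nat_lit 573488) (nat_lit 14) (.e (nat_lit 81664) (nat_lit 5) .nil))))) .nil)))))) (.nd (nat_lit 2) (.nd (nat_lit 3) (.nd (nat_lit 4) (.nd (nat_lit 5) 
(.lf (nat_lit 82435) (.g (nat_lit 1878) (.e (nat_lit 1855) (nat_lit 124) (.e (nat_lit 557101) (nat_lit 13) (.e (nat_lit 172115) (nat_lit 10) (.e (nat_lit 434238) (nat_lit 25) (.e (nat_lit 548897) (nat_lit 14) (.e (nat_lit 3004) (nat_lit 186) (.e (nat_lit 450304) (nat_lit 0) .nil))))))) (.g (nat_lit 4) .nil .nil))) 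
(.lf (nat_lit 82467) (.g (nat_lit 2596) (.e (nat_lit 1855) (nat_lit 124) (.e (nat_lit 557105) (nat_lit 14) (.e (nat_lit 180252) (nat_lit 10) (.e (nat_lit 573481) (nat_lit 13) (.e (nat_lit 65570) (nat_lit 3) .nil))))) .nil))) (.nd (nat_lit 5) 
(.lf (nat_lit 82451) (.g (nat_lit 1862) (.e (nat_lit 1855) (nat_lit 124) (.e (nat_lit 557101) (nat_lit 13) (.e (nat_lit 172124) (nat_lit 14) (.e (nat_lit 491540) (nat_lit 3) (.e (nat_lit 98370) (nat_lit 28) (.e (nat_lit 442378) (nat_lit 0) .nil)))))) (.g (nat_lit 4) .nil .nil))) 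
(.lf (nat_lit 82483) (.g (nat_lit 2619) (.e (nat_lit 1855) (nat_lit 124) (.e (nat_lit 557105) (nat_lit 14) (.e (nat_lit 180252) (nat_lit 10) (.e (nat_lit 573487) (nat_lit 14) (.e (nat_lit 73747) (nat_lit 3) (.e (nat_lit 516119) (nat_lit 1) (.e (nat_lit 164176) (nat_lit 154) (.e (nat_lit 57357) (nat_lit 0) .nil)))))))) (.g (nat_lit 4) .nil .nil))))) (.nd (nat_lit 4) (.nd (nat_lit 5) 
(.lf (nat_lit 82443) (.g (nat_lit 3984) (.e (nat_lit 1855) (nat_lit 124) (.e (nat_lit 557101) (nat_lit 13) (.e (nat_lit 172115) (nat_lit 10) (.e (nat_lit 434244) (nat_lit 28) (.e (nat_lit 573471) (nat_lit 11) (.e (nat_lit 16440) (nat_lit 9) (.e (nat_lit 426380) (nat_lit 15) .nil))))))) (.g (nat_lit 0) .nil .nil))) 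
(.lf (nat_lit 82475) (.g (nat_lit 3261) (.e (nat_lit 1855) (nat_lit 124) (.e (nat_lit 557105) (nat_lit 14) (.e (nat_lit 180252) (nat_lit 10) (.e (nat_lit 573482) (nat_lit 13) (.e (nat_lit 73472) (nat_lit 18) (.e (nat_lit 204830) (nat_lit 18) (.e (nat_lit 57851) (nat_lit 252) (.e (nat_lit 57354) (nat_lit 0) .nil)))))))) (.g (nat_lit 4) .nil .nil)))) (.nd (nat_lit 5) 
(.lf (nat_lit 82459) (.g (nat_lit 696) (.e (nat_lit 1855) (nat_lit 124) (.e (nat_lit 557104) (nat_lit 14) (.e (nat_lit 180277) (nat_lit 32) .nil))) .nil)) 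
(.lf (nat_lit 82491) (.g (nat_lit 2777) (.e (nat_lit 1855) (nat_lit 124) (.e (nat_lit 557105) (nat_lit 14) (.e (nat_lit 180252) (nat_lit 10) (.e (nat_lit 573488) (nat_lit 14) (.e (nat_lit 73747) (nat_lit 3) (.e (nat_lit 516119) (nat_lit 1) (.e (nat_lit 164184) (nat_lit 155) (.e (nat_lit 122883) (nat_lit 0) .nil)))))))) (.g (nat_lit 4) .nil .nil)))))) 
(.nd (nat_lit 3) (.nd (nat_lit 4) (.nd (nat_lit 5) 
(.lf (nat_lit 82439) (.g (nat_lit 2041) (.e (nat_lit 1855) (nat_lit 124) (.e (nat_lit 557101) (nat_lit 13) (.e (nat_lit 172115) (nat_lit 10) (.e (nat_lit 434238) (nat_lit 25) (.e (nat_lit 548915) (nat_lit 20) (.e (nat_lit 188420) (nat_lit 0) .nil)))))) (.g (nat_lit 4) .nil .nil))) 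
(.lf (nat_lit 82471) (.g (nat_lit 2504) (.e (nat_lit 1855) (nat_lit 124) (.e (nat_lit 557105) (nat_lit 14) (.e (nat_lit 180252) (nat_lit 10) (.e (nat_lit 573481) (nat_lit 13) (.e (nat_lit 73472) (nat_lit 18) (.e (nat_lit 204831) (nat_lit 18) (.e (nat_lit 57851) (nat_lit 252) (.e (nat_lit 57354) (nat_lit 0) .nil)))))))) (.g (nat_lit 4) .nil .nil)))) (.nd (nat_lit 5) 
(.lf (nat_lit 82455) (.g (nat_lit 624) (.e (nat_lit 1855) (nat_lit 124) (.e (nat_lit 557103) (nat_lit 14) (.e (nat_lit 180278) (nat_lit 32) .nil))) .nil)) 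
(.lf (nat_lit 82487) (.g (nat_lit 3353) (.e (nat_lit 1855) (nat_lit 124) (.e (nat_lit 557105) (nat_lit 14) (.e (nat_lit 180252) (nat_lit 10) (.e (nat_lit 573488) (nat_lit 14) (.e (nat_lit 73747) (nat_lit 3) (.e (nat_lit 516119) (nat_lit 1) (.e (nat_lit 164176) (nat_lit 154) (.e (nat_lit 57354) (nat_lit 0) .nil)))))))) (.g (nat_lit 5) .nil .nil))))) (.nd (nat_lit 4) (.nd (nat_lit 5) 
(.lf (nat_lit 82447) (.g (nat_lit 4142) (.e (nat_lit 1855) (nat_lit 124) (.e (nat_lit 557101) (nat_lit 13) (.e (nat_lit 172115) (nat_lit 10) (.e (nat_lit 434244) (nat_lit 28) (.e (nat_lit 573471) (nat_lit 11) (.e (nat_lit 16446) (nat_lit 9) (.e (nat_lit 426413) (nat_lit 15) .nil))))))) (.g (nat_lit 6) .nil .nil))) 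
(.lf (nat_lit 82479) (.g (nat_lit 1817) (.e (nat_lit 1855) (nat_lit 124) (.e (nat_lit 557105) (nat_lit 14) (.e (nat_lit 180252) (nat_lit 10) (.e (nat_lit 573487) (nat_lit 14) .nil)))) .nil))) (.nd (nat_lit 5) 
(.lf (nat_lit 82463) (.g (nat_lit 3593) (.e (nat_lit 1855) (nat_lit 124) (.e (nat_lit 557105) (nat_lit 14) (.e (nat_lit 180252) (nat_lit 10) (.e (nat_lit 573474) (nat_lit 12) (.e (nat_lit 57354) (nat_lit 0) (.e (nat_lit 5194) (nat_lit 294) (.e (nat_lit 57375) (nat_lit 2) (.e (nat_lit 90160) (nat_lit 11) (.e (nat_lit 24588) (nat_lit 0) .nil))))))))) (.g (nat_lit 4) .nil .nil))) 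
(.lf (nat_lit 82495) (.g (nat_lit 2411) (.e (nat_lit 1855) (nat_lit 124) (.e (nat_lit 557105) (nat_lit 14) (.e (nat_lit 180252) (nat_lit 10) (.e (nat_lit 573489) (nat_lit 14) (.e (nat_lit 73748) (nat_lit 3) (.e (nat_lit 516119) (nat_lit 1) (.e (nat_lit 164179) (nat_lit 154) (.e (nat_lit 57354) (nat_lit 0) .nil)))))))) (.g (nat_lit 4) .nil .nil)))))))))

noncomputable def tv1117 : DT := (.nd (nat_lit 0) (.nd (nat_lit 1) (.nd (nat_lit 2) (.nd (nat_lit 3) (.nd (nat_lit 4) (.nd (nat_lit 5) 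
(.lf (nat_lit 82496) (.g (nat_lit 1475) (.e (nat_lit 1855) (nat_lit 124) (.e (nat_lit 557105) (nat_lit 14) (.e (nat_lit 180252) (nat_lit 10) (.e (nat_lit 573489) (nat_lit 14) (.e (nat_lit 73755) (nat_lit 8) .nil))))) .nil)) 
(.lf (nat_lit 82528) (.g (nat_lit 1065) (.e (nat_lit 1855) (nat_lit 124) (.e (nat_lit 557107) (nat_lit 15) (.e (nat_lit 196352) (nat_lit 0) (.e (nat_lit 1860) (nat_lit 124) (.e (nat_lit 557109) (nat_lit 15) (.e (nat_lit 196352) (nat_lit 0) .nil)))))) (.g (nat_lit 4) .nil .nil)))) (.nd (nat_lit 5) 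
(.lf (nat_lit 82512) (.g (nat_lit 337) (.e (nat_lit 1855) (nat_lit 124) (.e (nat_lit 557105) (nat_lit 14) (.e (nat_lit 188160) (nat_lit 35) .nil))) .nil)) 
(.lf (nat_lit 82544) (.g (nat_lit 2558) (.e (nat_lit 1855) (nat_lit 124) (.e (nat_lit 557107) (nat_lit 15) (.e (nat_lit 188450) (nat_lit 23) (.e (nat_lit 204852) (nat_lit 26) (.e (nat_lit 336284) (nat_lit 15) .nil))))) .nil)))) (.nd (nat_lit 4) (.nd (nat_lit 5) 
(.lf (nat_lit 82504) (.g (nat_lit 3878) (.e (nat_lit 1855) (nat_lit 124) (.e (nat_lit 557105) (nat_lit 14) (.e (nat_lit 180252) (nat_lit 10) (.e (nat_lit 573489) (nat_lit 14) (.e (nat_lit 73755) (nat_lit 8) (.e (nat_lit 557090) (nat_lit 12) (.e (nat_lit 164006) (nat_lit 41) (.e (nat_lit 663574) (nat_lit 9) (.e (nat_lit 81) (nat_lit 0) .nil))))))))) (.g (nat_lit 7) .nil .nil))) 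
(.lf (nat_lit 82536) (.g (nat_lit 555) (.e (nat_lit 1855) (nat_lit 124) (.e (nat_lit 557107) (nat_lit 15) (.e (nat_lit 188447) (nat_lit 22) .nil))) .nil))) (.nd (nat_lit 5) 
(.lf (nat_lit 82520) (.g (nat_lit 2432) (.e (nat_lit 1855) (nat_lit 124) (.e (nat_lit 557107) (nat_lit 15) (.e (nat_lit 188420) (nat_lit 0) (.e (nat_lit 1855) (nat_lit 124) (.e (nat_lit 557107) (nat_lit 15) (.e (nat_lit 188420) (nat_lit 0) .nil)))))) (.g (nat_lit 5) .nil .nil))) 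
(.lf (nat_lit 82552) (.g (nat_lit 1060) (.e (nat_lit 1855) (nat_lit 124) (.e (nat_lit 557108) (nat_lit 15) (.e (nat_lit 188449) (nat_lit 22) .nil))) .nil))))) (.nd (nat_lit 3) (.nd (nat_lit 4) (.nd (nat_lit 5) 
(.lf (nat_lit 82500) (.g (nat_lit 3303) (.e (nat_lit 1855) (nat_lit 124) (.e (nat_lit 557105) (nat_lit 14) (.e (nat_lit 180252) (nat_lit 10) (.e (nat_lit 573489) (nat_lit 14) (.e (nat_lit 73755) (nat_lit 8) (.e (nat_lit 557089) (nat_lit 12) (.e (nat_lit 164007) (nat_lit 41) (.e (nat_lit 663580) (nat_lit 9) (.e (nat_lit 46) (nat_lit 0) .nil))))))))) (.g (nat_lit 6) .nil .nil))) 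
(.lf (nat_lit 82532) (.g (nat_lit 539) (.e (nat_lit 1855) (nat_lit 124) (.e (nat_lit 557107) (nat_lit 15) (.e (nat_lit 188440) (nat_lit 20) .nil))) .nil))) (.nd (nat_lit 5) 
(.lf (nat_lit 82516) (.g (nat_lit 254) (.e (nat_lit 1855) (nat_lit 124) (.e (nat_lit 557106) (nat_lit 15) (.e (nat_lit 188452) (nat_lit 23) .nil))) .nil)) 
(.lf (nat_lit 82548) (.g (nat_lit 2488) (.e (nat_lit 1855) (nat_lit 124) (.e (nat_lit 557107) (nat_lit 15) (.e (nat_lit 188452) (nat_lit 23) (.e (nat_lit 204816) (nat_lit 17) .nil)))) .nil)))) (.nd (nat_lit 4) (.nd (nat_lit 5) 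
(.lf (nat_lit 82508) (.g (nat_lit 3233) (.e (nat_lit 1855) (nat_lit 124) (.e (nat_lit 557105) (nat_lit 14) (.e (nat_lit 180252) (nat_lit 10) (.e (nat_lit 573489) (nat_lit 14) (.e (nat_lit 73755) (nat_lit 8) (.e (nat_lit 557090) (nat_lit 12) (.e (nat_lit 164007) (nat_lit 41) (.e (nat_lit 663574) (nat_lit 9) (.e (nat_lit 81) (nat_lit 0) .nil))))))))) (.g (nat_lit 6) .nil .nil))) 
(.lf (nat_lit 82540) (.g (nat_lit 499) (.e (nat_lit 1855) (nat_lit 124) (.e (nat_lit 557107) (nat_lit 15) (.e (nat_lit 188450) (nat_lit 23) .nil))) .nil))) (.nd (nat_lit 5) 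
(.lf (nat_lit 82524) (.g (nat_lit 1264) (.e (nat_lit 1855) (nat_lit 124) (.e (nat_lit 557107) (nat_lit 15) (.e (nat_lit 196352) (nat_lit 0) (.e (nat_lit 1855) (nat_lit 124) (.e (nat_lit 557107) (nat_lit 15) (.e (nat_lit 196352) (nat_lit 0) .nil)))))) (.g (nat_lit 4) .nil .nil))) 
(.lf (nat_lit 82556) (.g (nat_lit 3927) (.e (nat_lit 1855) (nat_lit 124) (.e (nat_lit 557108) (nat_lit 15) (.e (nat_lit 188452) (nat_lit 23) (.e (nat_lit 204816) (nat_lit 17) (.e (nat_lit 6718) (nat_lit 361) (.e (nat_lit 179968) (nat_lit 15) .nil)))))) (.g (nat_lit 5) .nil .nil))))))) (.nd (nat_lit 2) (.nd (nat_lit 3) (.nd (nat_lit 4) (.nd (nat_lit 5) 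
(.lf (nat_lit 82498) (.g (nat_lit 2061) (.e (nat_lit 1855) (nat_lit 124) (.e (nat_lit 557105) (nat_lit 14) (.e (nat_lit 180252) (nat_lit 10) (.e (nat_lit 573489) (nat_lit 14) (.e (nat_lit 73755) (nat_lit 8) (.e (nat_lit 557089) (nat_lit 12) (.e (nat_lit 164006) (nat_lit 41) (.e (nat_lit 663580) (nat_lit 9) (.e (nat_lit 79) (nat_lit 0) .nil))))))))) (.g (nat_lit 4) .nil .nil))) 
(.lf (nat_lit 82530) (.g (nat_lit 1224) (.e (nat_lit 1855) (nat_lit 124) (.e (nat_lit 557107) (nat_lit 15) (.e (nat_lit 188439) (nat_lit 20) (.e (nat_lit 3272) (nat_lit 199) (.e (nat_lit 548898) (nat_lit 14) .nil))))) .nil))) (.nd (nat_lit 5) 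
(.lf (nat_lit 82514) (.g (nat_lit 889) (.e (nat_lit 1855) (nat_lit 124) (.e (nat_lit 557105) (nat_lit 14) (.e (nat_lit 180282) (nat_lit 45) (.e (nat_lit 2570) (nat_lit 160) .nil)))) .nil)) 
(.lf (nat_lit 82546) (.g (nat_lit 2429) (.e (nat_lit 1855) (nat_lit 124) (.e (nat_lit 557107) (nat_lit 15) (.e (nat_lit 188450) (nat_lit 23) (.e (nat_lit 204882) (nat_lit 32) (.e (nat_lit 385104) (nat_lit 50) .nil))))) .nil)))) (.nd (nat_lit 4) (.nd (nat_lit 5) 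
(.lf (nat_lit 82506) (.g (nat_lit 4363) (.e (nat_lit 1855) (nat_lit 124) (.e (nat_lit 557105) (nat_lit 14) (.e (nat_lit 180252) (nat_lit 10) (.e (nat_lit 573489) (nat_lit 14) (.e (nat_lit 73755) (nat_lit 8) (.e (nat_lit 557090) (nat_lit 12) (.e (nat_lit 164006) (nat_lit 41) (.e (nat_lit 663580) (nat_lit 9) (.e (nat_lit 46) (nat_lit 0) .nil))))))))) (.g (nat_lit 8) .nil .nil))) 
(.lf (nat_lit 82538) (.g (nat_lit 2666) (.e (nat_lit 1855) (nat_lit 124) (.e (nat_lit 557107) (nat_lit 15) (.e (nat_lit 188447) (nat_lit 22) (.e (nat_lit 196666) (nat_lit 13) (.e (nat_lit 65574) (nat_lit 4) (.e (nat_lit 123198) (nat_lit 266) (.e (nat_lit 57354) (nat_lit 0) .nil))))))) (.g (nat_lit 4) .nil .nil)))) (.nd (nat_lit 5) 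
(.lf (nat_lit 82522) (.g (nat_lit 3037) (.e (nat_lit 1855) (nat_lit 124) (.e (nat_lit 557107) (nat_lit 15) (.e (nat_lit 188420) (nat_lit 0) (.e (nat_lit 1855) (nat_lit 124) (.e (nat_lit 557109) (nat_lit 15) (.e (nat_lit 188419) (nat_lit 0) .nil)))))) (.g (nat_lit 5) .nil .nil))) 
(.lf (nat_lit 82554) (.g (nat_lit 2733) (.e (nat_lit 1855) (nat_lit 124) (.e (nat_lit 557108) (nat_lit 15) (.e (nat_lit 188452) (nat_lit 23) (.e (nat_lit 204816) (nat_lit 17) .nil)))) .nil))))) (.nd (nat_lit 3) (.nd (nat_lit 4) (.nd (nat_lit 5) 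
(.lf (nat_lit 82502) (.g (nat_lit 3922) (.e (nat_lit 1855) (nat_lit 124) (.e (nat_lit 557105) (nat_lit 14) (.e (nat_lit 180252) (nat_lit 10) (.e (nat_lit 573489) (nat_lit 14) (.e (nat_lit 73755) (nat_lit 8) (.e (nat_lit 557090) (nat_lit 12) (.e (nat_lit 163850) (nat_lit 0) (.e (nat_lit 5190) (nat_lit 294) (.e (nat_lit 57354) (nat_lit 0) .nil))))))))) (.g (nat_lit 7) .nil .nil))) 
(.lf (nat_lit 82534) (.g (nat_lit 1139) (.e (nat_lit 1855) (nat_lit 124) (.e (nat_lit 557107) (nat_lit 15) (.e (nat_lit 188441) (nat_lit 20) (.e (nat_lit 3272) (nat_lit 199) .nil)))) .nil))) (.nd (nat_lit 5) 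
(.lf (nat_lit 82518) (.g (nat_lit 1849) (.e (nat_lit 1855) (nat_lit 124) (.e (nat_lit 557107) (nat_lit 15) (.e (nat_lit 188418) (nat_lit 0) (.e (nat_lit 1856) (nat_lit 124) (.e (nat_lit 557107) (nat_lit 15) (.e (nat_lit 188418) (nat_lit 0) .nil)))))) (.g (nat_lit 4) .nil .nil))) 
(.lf (nat_lit 82550) (.g (nat_lit 432) (.e (nat_lit 1855) (nat_lit 124) (.e (nat_lit 557107) (nat_lit 15) (.e (nat_lit 196352) (nat_lit 23) .nil))) .nil)))) (.nd (nat_lit 4) (.nd (nat_lit 5) 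
(.lf (nat_lit 82510) (.g (nat_lit 4069) (.e (nat_lit 1855) (nat_lit 124) (.e (nat_lit 557105) (nat_lit 14) (.e (nat_lit 180252) (nat_lit 10) (.e (nat_lit 573489) (nat_lit 14) (.e (nat_lit 73755) (nat_lit 8) (.e (nat_lit 557090) (nat_lit 12) (.e (nat_lit 164007) (nat_lit 41) (.e (nat_lit 663580) (nat_lit 9) (.e (nat_lit 44) (nat_lit 0) .nil))))))))) (.g (nat_lit 8) .nil .nil))) 
(.lf (nat_lit 82542) (.g (nat_lit 2053) (.e (nat_lit 1855) (nat_lit 124) (.e (nat_lit 557107) (nat_lit 15) (.e (nat_lit 188450) (nat_lit 23) (.e (nat_lit 204821) (nat_lit 17) (.e (nat_lit 7936) (nat_lit 364) (.e (nat_lit 237629) (nat_lit 15) .nil)))))) (.g (nat_lit 4) .nil .nil)))) (.nd (nat_lit 5) 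
(.lf (nat_lit 82526) (.g (nat_lit 1552) (.e (nat_lit 1855) (nat_lit 124) (.e (nat_lit 557107) (nat_lit 15) (.e (nat_lit 196352) (nat_lit 0) (.e (nat_lit 1859) (nat_lit 124) (.e (nat_lit 557107) (nat_lit 15) (.e (nat_lit 196352) (nat_lit 0) .nil)))))) (.g (nat_lit 5) .nil .nil))) 
(.lf (nat_lit 82558) (.g (nat_lit 3803) (.e (nat_lit 1855) (nat_lit 124) (.e (nat_lit 557108) (nat_lit 15) (.e (nat_lit 188452) (nat_lit 23) (.e (nat_lit 204816) (nat_lit 17) (.e (nat_lit 6720) (nat_lit 361) (.e (nat_lit 172136) (nat_lit 15) .nil)))))) (.g (nat_lit 4) .nil .nil)))))))) (.nd (nat_lit 1) (.nd (nat_lit 2) (.nd (nat_lit 3) (.nd (nat_lit 4) (.nd (nat_lit 5) 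
(.lf (nat_lit 82497) (.g (nat_lit 2622) (.e (nat_lit 1855) (nat_lit 124) (.e (nat_lit 557105) (nat_lit 14) (.e (nat_lit 180252) (nat_lit 10) (.e (nat_lit 573489) (nat_lit 14) (.e (nat_lit 73755) (nat_lit 8) (.e (nat_lit 557089) (nat_lit 12) (.e (nat_lit 164006) (nat_lit 41) (.e (nat_lit 663580) (nat_lit 9) (.e (nat_lit 46) (nat_lit 0) .nil))))))))) (.g (nat_lit 5) .nil .nil))) 
(.lf (nat_lit 82529) (.g (nat_lit 518) (.e (nat_lit 1855) (nat_lit 124) (.e (nat_lit 557107) (nat_lit 15) (.e (nat_lit 188439) (nat_lit 20) .nil))) .nil))) (.nd (nat_lit 5) 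
(.lf (nat_lit 82513) (.g (nat_lit 769) (.e (nat_lit 1855) (nat_lit 124) (.e (nat_lit 557105) (nat_lit 14) (.e (nat_lit 180282) (nat_lit 45) .nil))) .nil)) 
(.lf (nat_lit 82545) (.g (nat_lit 2906) (.e (nat_lit 1855) (nat_lit 124) (.e (nat_lit 557107) (nat_lit 15) (.e (nat_lit 188450) (nat_lit 23) (.e (nat_lit 204880) (nat_lit 32) (.e (nat_lit 385102) (nat_lit 50) .nil))))) .nil)))) (.nd (nat_lit 4) (.nd (nat_lit 5) 
(.lf (nat_lit 82505) (.g (nat_lit 3268) (.e (nat_lit 1855) (nat_lit 124) (.e (nat_lit 557105) (nat_lit 14) (.e (nat_lit 180252) (nat_lit 10) (.e (nat_lit 573489) (nat_lit 14) (.e (nat_lit 73755) (nat_lit 8) (.e (nat_lit 557090) (nat_lit 12) (.e (nat_lit 164006) (nat_lit 41) (.e (nat_lit 663580) (nat_lit 9) (.e (nat_lit 44) (nat_lit 0) .nil))))))))) (.g (nat_lit 6) .nil .nil))) 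
(.lf (nat_lit 82537) (.g (nat_lit 1430) (.e (nat_lit 1855) (nat_lit 124) (.e (nat_lit 557107) (nat_lit 15) (.e (nat_lit 188447) (nat_lit 22) (.e (nat_lit 196661) (nat_lit 12) .nil)))) .nil))) (.nd (nat_lit 5) 
(.lf (nat_lit 82521) (.g (nat_lit 1880) (.e (nat_lit 1855) (nat_lit 124) (.e (nat_lit 557107) (nat_lit 15) (.e (nat_lit 188420) (nat_lit 0) (.e (nat_lit 1855) (nat_lit 124) (.e (nat_lit 557107) (nat_lit 15) (.e (nat_lit 196352) (nat_lit 0) .nil)))))) (.g (nat_lit 4) .nil .nil))) 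
(.lf (nat_lit 82553) (.g (nat_lit 2103) (.e (nat_lit 1855) (nat_lit 124) (.e (nat_lit 557108) (nat_lit 15) (.e (nat_lit 188452) (nat_lit 23) (.e (nat_lit 204815) (nat_lit 17) .nil)))) .nil))))) (.nd (nat_lit 3) (.nd (nat_lit 4) (.nd (nat_lit 5) 
(.lf (nat_lit 82501) (.g (nat_lit 3015) (.e (nat_lit 1855) (nat_lit 124) (.e (nat_lit 557105) (nat_lit 14) (.e (nat_lit 180252) (nat_lit 10) (.e (nat_lit 573489) (nat_lit 14) (.e (nat_lit 73755) (nat_lit 8) (.e (nat_lit 557089) (nat_lit 12) (.e (nat_lit 164007) (nat_lit 41) (.e (nat_lit 663580) (nat_lit 9) (.e (nat_lit 79) (nat_lit 0) .nil))))))))) (.g (nat_lit 5) .nil .nil))) 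
(.lf (nat_lit 82533) (.g (nat_lit 1154) (.e (nat_lit 1855) (nat_lit 124) (.e (nat_lit 557107) (nat_lit 15) (.e (nat_lit 188441) (nat_lit 20) (.e (nat_lit 3271) (nat_lit 199) .nil)))) .nil))) (.nd (nat_lit 5) 
(.lf (nat_lit 82517) (.g (nat_lit 1624) (.e (nat_lit 1855) (nat_lit 124) (.e (nat_lit 557107) (nat_lit 15) (.e (nat_lit 188418) (nat_lit 0) (.e (nat_lit 1855) (nat_lit 124) (.e (nat_lit 557107) (nat_lit 15) .nil))))) .nil)) 
(.lf (nat_lit 82549) (.g (nat_lit 2363) (.e (nat_lit 1855) (nat_lit 124) (.e (nat_lit 557107) (nat_lit 15) (.e (nat_lit 188452) (nat_lit 23) (.e (nat_lit 204885) (nat_lit 33) .nil)))) .nil)))) (.nd (nat_lit 4) (.nd (nat_lit 5) 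
(.lf (nat_lit 82509) (.g (nat_lit 2646) (.e (nat_lit 1855) (nat_lit 124) (.e (nat_lit 557105) (nat_lit 14) (.e (nat_lit 180252) (nat_lit 10) (.e (nat_lit 573489) (nat_lit 14) (.e (nat_lit 73755) (nat_lit 8) (.e (nat_lit 557090) (nat_lit 12) (.e (nat_lit 164007) (nat_lit 41) (.e (nat_lit 663578) (nat_lit 9) (.e (nat_lit 79) (nat_lit 0) .nil))))))))) (.g (nat_lit 5) .nil .nil))) 
(.lf (nat_lit 82541) (.g (nat_lit 1226) (.e (nat_lit 1855) (nat_lit 124) (.e (nat_lit 557107) (nat_lit 15) (.e (nat_lit 188450) (nat_lit 23) (.e (nat_lit 204817) (nat_lit 17) .nil)))) .nil))) (.nd (nat_lit 5) 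
(.lf (nat_lit 82525) (.g (nat_lit 1872) (.e (nat_lit 1855) (nat_lit 124) (.e (nat_lit 557107) (nat_lit 15) (.e (nat_lit 196352) (nat_lit 0) (.e (nat_lit 1855) (nat_lit 124) (.e (nat_lit 557109) (nat_lit 15) (.e (nat_lit 196352) (nat_lit 0) .nil)))))) (.g (nat_lit 5) .nil .nil))) 
(.lf (nat_lit 82557) (.g (nat_lit 4845) (.e (nat_lit 1855) (nat_lit 124) (.e (nat_lit 557108) (nat_lit 15) (.e (nat_lit 188452) (nat_lit 23) (.e (nat_lit 204816) (nat_lit 17) (.e (nat_lit 6720) (nat_lit 361) (.e (nat_lit 172133) (nat_lit 15) .nil)))))) (.g (nat_lit 0) .nil .nil))))))) (.nd (nat_lit 2) (.nd (nat_lit 3) (.nd (nat_lit 4) (.nd (nat_lit 5) 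
(.lf (nat_lit 82499) (.g (nat_lit 2481) (.e (nat_lit 1855) (nat_lit 124) (.e (nat_lit 557105) (nat_lit 14) (.e (nat_lit 180252) (nat_lit 10) (.e (nat_lit 573489) (nat_lit 14) (.e (nat_lit 73755) (nat_lit 8) (.e (nat_lit 557089) (nat_lit 12) (.e (nat_lit 164007) (nat_lit 41) (.e (nat_lit 663580) (nat_lit 9) (.e (nat_lit 44) (nat_lit 0) .nil))))))))) (.g (nat_lit 5) .nil .nil))) 
(.lf (nat_lit 82531) (.g (nat_lit 2589) (.e (nat_lit 1855) (nat_lit 124) (.e (nat_lit 557107) (nat_lit 15) (.e (nat_lit 188439) (nat_lit 20) (.e (nat_lit 3272) (nat_lit 199) (.e (nat_lit 548913) (nat_lit 18) (.e (nat_lit 172087) (nat_lit 9) (.e (nat_lit 426399) (nat_lit 15) .nil))))))) (.g (nat_lit 5) .nil .nil)))) (.nd (nat_lit 5) 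
(.lf (nat_lit 82515) (.g (nat_lit 729) (.e (nat_lit 1855) (nat_lit 124) (.e (nat_lit 557105) (nat_lit 14) (.e (nat_lit 180288) (nat_lit 45) .nil))) .nil)) 
(.lf (nat_lit 82547) (.g (nat_lit 1242) (.e (nat_lit 1855) (nat_lit 124) (.e (nat_lit 557107) (nat_lit 15) (.e (nat_lit 188450) (nat_lit 23) (.e (nat_lit 204885) (nat_lit 33) .nil)))) .nil)))) (.nd (nat_lit 4) (.nd (nat_lit 5) 
(.lf (nat_lit 82507) (.g (nat_lit 2399) (.e (nat_lit 1855) (nat_lit 124) (.e (nat_lit 557105) (nat_lit 14) (.e (nat_lit 180252) (nat_lit 10) (.e (nat_lit 573489) (nat_lit 14) (.e (nat_lit 73755) (nat_lit 8) (.e (nat_lit 557090) (nat_lit 12) (.e (nat_lit 164007) (nat_lit 41) (.e (nat_lit 663574) (nat_lit 9) (.e (nat_lit 79) (nat_lit 0) .nil))))))))) (.g (nat_lit 5) .nil .nil))) 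
(.lf (nat_lit 82539) (.g (nat_lit 1830) (.e (nat_lit 1855) (nat_lit 124) (.e (nat_lit 557107) (nat_lit 15) (.e (nat_lit 188447) (nat_lit 22) (.e (nat_lit 196668) (nat_lit 14) .nil)))) .nil))) (.nd (nat_lit 5) 
(.lf (nat_lit 82523) (.g (nat_lit 1765) (.e (nat_lit 1855) (nat_lit 124) (.e (nat_lit 557107) (nat_lit 15) (.e (nat_lit 188420) (nat_lit 0) (.e (nat_lit 1856) (nat_lit 124) (.e (nat_lit 557107) (nat_lit 15) (.e (nat_lit 188418) (nat_lit 0) .nil)))))) (.g (nat_lit 4) .nil .nil))) 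
(.lf (nat_lit 82555) (.g (nat_lit 4669) (.e (nat_lit 1855) (nat_lit 124) (.e (nat_lit 557108) (nat_lit 15) (.e (nat_lit 188452) (nat_lit 23) (.e (nat_lit 204816) (nat_lit 17) (.e (nat_lit 6718) (nat_lit 361) (.e (nat_lit 172133) (nat_lit 15) .nil)))))) (.g (nat_lit 6) .nil .nil)))))) (.nd (nat_lit 3) (.nd (nat_lit 4) (.nd (nat_lit 5) 
(.lf (nat_lit 82503) (.g (nat_lit 3249) (.e (nat_lit 1855) (nat_lit 124) (.e (nat_lit 557105) (nat_lit 14) (.e (nat_lit 180252) (nat_lit 10) (.e (nat_lit 573489) (nat_lit 14) (.e (nat_lit 73755) (nat_lit 8) (.e (nat_lit 557090) (nat_lit 12) (.e (nat_lit 171776) (nat_lit 0) (.e (nat_lit 5200) (nat_lit 294) (.e (nat_lit 57354) (nat_lit 0) .nil))))))))) (.g (nat_lit 6) .nil .nil))) 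
(.lf (nat_lit 82535) (.g (nat_lit 1613) (.e (nat_lit 1855) (nat_lit 124) (.e (nat_lit 557107) (nat_lit 15) (.e (nat_lit 188441) (nat_lit 20) (.e (nat_lit 3272) (nat_lit 199) (.e (nat_lit 548898) (nat_lit 14) .nil))))) .nil))) (.nd (nat_lit 5) 
(.lf (nat_lit 82519) (.g (nat_lit 2532) (.e (nat_lit 1855) (nat_lit 124) (.e (nat_lit 557107) (nat_lit 15) (.e (nat_lit 188418) (nat_lit 0) (.e (nat_lit 1856) (nat_lit 124) (.e (nat_lit 557109) (nat_lit 15) (.e (nat_lit 196352) (nat_lit 0) .nil)))))) (.g (nat_lit 5) .nil .nil))) 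
(.lf (nat_lit 82551) (.g (nat_lit 1040) (.e (nat_lit 1855) (nat_lit 124) (.e (nat_lit 557108) (nat_lit 15) (.e (nat_lit 188434) (nat_lit 20) .nil))) .nil)))) (.nd (nat_lit 4) (.nd (nat_lit 5) 
(.lf (nat_lit 82511) (.g (nat_lit 2212) (.e (nat_lit 1855) (nat_lit 124) (.e (nat_lit 557105) (nat_lit 14) (.e (nat_lit 180252) (nat_lit 10) (.e (nat_lit 573489) (nat_lit 14) (.e (nat_lit 73755) (nat_lit 8) (.e (nat_lit 557090) (nat_lit 12) (.e (nat_lit 164008) (nat_lit 41) (.e (nat_lit 663579) (nat_lit 9) (.e (nat_lit 82) (nat_lit 0) .nil))))))))) (.g (nat_lit 4) .nil .nil))) 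
(.lf (nat_lit 82543) (.g (nat_lit 2247) (.e (nat_lit 1855) (nat_lit 124) (.e (nat_lit 557107) (nat_lit 15) (.e (nat_lit 188450) (nat_lit 23) (.e (nat_lit 204852) (nat_lit 26) (.e (nat_lit 336260) (nat_lit 15) (.e (nat_lit 3733) (nat_lit 228) (.e (nat_lit 786447) (nat_lit 15) .nil))))))) (.g (nat_lit 4) .nil .nil)))) (.nd (nat_lit 5) 
(.lf (nat_lit 82527) (.g (nat_lit 1834) (.e (nat_lit 1855) (nat_lit 124) (.e (nat_lit 557107) (nat_lit 15) (.e (nat_lit 196352) (nat_lit 0) (.e (nat_lit 1859) (nat_lit 124) (.e (nat_lit 557109) (nat_lit 15) (.e (nat_lit 196352) (nat_lit 0) .nil)))))) (.g (nat_lit 5) .nil .nil))) 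
(.lf (nat_lit 82559) (.g (nat_lit 4128) (.e (nat_lit 1855) (nat_lit 124) (.e (nat_lit 557108) (nat_lit 15) (.e (nat_lit 188452) (nat_lit 23) (.e (nat_lit 204816) (nat_lit 17) (.e (nat_lit 6720) (nat_lit 361) (.e (nat_lit 179968) (nat_lit 15) .nil)))))) (.g (nat_lit 5) .nil .nil)))))))))

noncomputable def tv1118 : DT := (.nd (nat_lit 0) (.nd (nat_lit 1) (.nd (nat_lit 2) (.nd (nat_lit 3) (.nd (nat_lit 4) (.nd (nat_lit 5) (.nd (nat_lit 6) 
(.lf (nat_lit 82560) (.g (nat_lit 1964) (.e (nat_lit 1855) (nat_lit 124) (.e (nat_lit 557108) (nat_lit 15) (.e (nat_lit 188452) (nat_lit 23) (.e (nat_lit 204817) (nat_lit 17) .nil)))) .nil)) 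
(.lf (nat_lit 82624) (.g (nat_lit 4390) (.e (nat_lit 1855) (nat_lit 124) (.e (nat_lit 557109) (nat_lit 15) (.e (nat_lit 188447) (nat_lit 22) (.e (nat_lit 196666) (nat_lit 13) (.e (nat_lit 65574) (nat_lit 4) (.e (nat_lit 123196) (nat_lit 266) (.e (nat_lit 57354) (nat_lit 0) .nil))))))) (.g (nat_lit 4) .nil .nil)))) (.nd (nat_lit 6) 
(.lf (nat_lit 82592) (.g (nat_lit 3866) (.e (nat_lit 1855) (nat_lit 124) (.e (nat_lit 557109) (nat_lit 15) (.e (nat_lit 188419) (nat_lit 0) (.e (nat_lit 1855) (nat_lit 124) (.e (nat_lit 557109) (nat_lit 15) (.e (nat_lit 188419) (nat_lit 0) .nil)))))) (.g (nat_lit 6) .nil .nil))) 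
(.lf (nat_lit 82656) (.g (nat_lit 3636) (.e (nat_lit 1855) (nat_lit 124) (.e (nat_lit 557109) (nat_lit 15) (.e (nat_lit 188450) (nat_lit 23) (.e (nat_lit 204855) (nat_lit 26) (.e (nat_lit 336030) (nat_lit 4) (.e (nat_lit 123195) (nat_lit 266) (.e (nat_lit 57354) (nat_lit 0) .nil))))))) (.g (nat_lit 4) .nil .nil))))) (.nd (nat_lit 5) (.nd (nat_lit 6) 
(.lf (nat_lit 82576) (.g (nat_lit 3833) (.e (nat_lit 1855) (nat_lit 124) (.e (nat_lit 557108) (nat_lit 15) (.e (nat_lit 188452) (nat_lit 23) (.e (nat_lit 204885) (nat_lit 33) (.e (nat_lit 401434) (nat_lit 9) (.e (nat_lit 426414) (nat_lit 15) .nil)))))) (.g (nat_lit 5) .nil .nil))) 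
(.lf (nat_lit 82640) (.g (nat_lit 3433) (.e (nat_lit 1855) (nat_lit 124) (.e (nat_lit 557109) (nat_lit 15) (.e (nat_lit 188449) (nat_lit 22) (.e (nat_lit 196666) (nat_lit 13) (.e (nat_lit 65573) (nat_lit 4) (.e (nat_lit 123195) (nat_lit 266) (.e (nat_lit 57354) (nat_lit 0) .nil))))))) (.g (nat_lit 4) .nil .nil)))) (.nd (nat_lit 6) 
(.lf (nat_lit 82608) (.g (nat_lit 1944) (.e (nat_lit 1855) (nat_lit 124) (.e (nat_lit 557109) (nat_lit 15) (.e (nat_lit 188434) (nat_lit 20) (.e (nat_lit 3271) (nat_lit 199) .nil)))) .nil)) 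
(.lf (nat_lit 82672) (.g (nat_lit 1933) (.e (nat_lit 1855) (nat_lit 124) (.e (nat_lit 557109) (nat_lit 15) (.e (nat_lit 188452) (nat_lit 23) (.e (nat_lit 204821) (nat_lit 17) .nil)))) .nil))))) (.nd (nat_lit 4) (.nd (nat_lit 5) (.nd (nat_lit 6) 
(.lf (nat_lit 82568) (.g (nat_lit 2370) (.e (nat_lit 1855) (nat_lit 124) (.e (nat_lit 557108) (nat_lit 15) (.e (nat_lit 188452) (nat_lit 23) (.e (nat_lit 204852) (nat_lit 26) .nil)))) .nil)) 
(.lf (nat_lit 82632) (.g (nat_lit 2088) (.e (nat_lit 1855) (nat_lit 124) (.e (nat_lit 557109) (nat_lit 15) (.e (nat_lit 188449) (nat_lit 22) (.e (nat_lit 196661) (nat_lit 12) .nil)))) .nil))) (.nd (nat_lit 6) 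
(.lf (nat_lit 82600) (.g (nat_lit 597) (.e (nat_lit 1855) (nat_lit 124) (.e (nat_lit 557109) (nat_lit 15) (.e (nat_lit 196352) (nat_lit 0) .nil))) .nil)) 
(.lf (nat_lit 82664) (.g (nat_lit 2849) (.e (nat_lit 1855) (nat_lit 124) (.e (nat_lit 557109) (nat_lit 15) (.e (nat_lit 188452) (nat_lit 23) (.e (nat_lit 204816) (nat_lit 17) .nil)))) .nil)))) (.nd (nat_lit 5) (.nd (nat_lit 6) 
(.lf (nat_lit 82584) (.g (nat_lit 1459) (.e (nat_lit 1855) (nat_lit 124) (.e (nat_lit 557109) (nat_lit 15) (.e (nat_lit 188418) (nat_lit 0) (.e (nat_lit 1855) (nat_lit 124) .nil)))) .nil)) 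
(.lf (nat_lit 82648) (.g (nat_lit 2680) (.e (nat_lit 1855) (nat_lit 124) (.e (nat_lit 557109) (nat_lit 15) (.e (nat_lit 188450) (nat_lit 23) (.e (nat_lit 204816) (nat_lit 17) .nil)))) .nil))) (.nd (nat_lit 6) 
(.lf (nat_lit 82616) (.g (nat_lit 1925) (.e (nat_lit 1855) (nat_lit 124) (.e (nat_lit 557109) (nat_lit 15) (.e (nat_lit 188441) (nat_lit 20) (.e (nat_lit 3272) (nat_lit 199) (.e (nat_lit 548898) (nat_lit 14) .nil))))) .nil)) 
(.lf (nat_lit 82680) (.g (nat_lit 3159) (.e (nat_lit 1855) (nat_lit 124) (.e (nat_lit 557109) (nat_lit 15) (.e (nat_lit 188452) (nat_lit 23) (.e (nat_lit 204846) (nat_lit 24) (.e (nat_lit 319505) (nat_lit 10) (.e (nat_lit 5712) (nat_lit 312) (.e (nat_lit 44) (nat_lit 0) .nil))))))) (.g (nat_lit 5) .nil .nil))))))) (.nd (nat_lit 3) (.nd (nat_lit 4) (.nd (nat_lit 5) (.nd (nat_lit 6) 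
(.lf (nat_lit 82564) (.g (nat_lit 3433) (.e (nat_lit 1855) (nat_lit 124) (.e (nat_lit 557108) (nat_lit 15) (.e (nat_lit 188452) (nat_lit 23) (.e (nat_lit 204846) (nat_lit 24) .nil)))) .nil)) 
(.lf (nat_lit 82628) (.g (nat_lit 2806) (.e (nat_lit 1855) (nat_lit 124) (.e (nat_lit 557109) (nat_lit 15) (.e (nat_lit 188449) (nat_lit 22) (.e (nat_lit 196628) (nat_lit 9) .nil)))) .nil))) (.nd (nat_lit 6) 
(.lf (nat_lit 82596) (.g (nat_lit 3280) (.e (nat_lit 1855) (nat_lit 124) (.e (nat_lit 557109) (nat_lit 15) (.e (nat_lit 188419) (nat_lit 0) (.e (nat_lit 1856) (nat_lit 124) (.e (nat_lit 557109) (nat_lit 15) (.e (nat_lit 196352) (nat_lit 0) .nil)))))) (.g (nat_lit 5) .nil .nil))) 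
(.lf (nat_lit 82660) (.g (nat_lit 360) (.e (nat_lit 1855) (nat_lit 124) (.e (nat_lit 557109) (nat_lit 15) (.e (nat_lit 188452) (nat_lit 23) .nil))) .nil)))) (.nd (nat_lit 5) (.nd (nat_lit 6) 
(.lf (nat_lit 82580) (.g (nat_lit 3615) (.e (nat_lit 1855) (nat_lit 124) (.e (nat_lit 557108) (nat_lit 15) (.e (nat_lit 188452) (nat_lit 23) (.e (nat_lit 204885) (nat_lit 33) (.e (nat_lit 401440) (nat_lit 9) (.e (nat_lit 433920) (nat_lit 15) .nil)))))) (.g (nat_lit 4) .nil .nil))) 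
(.lf (nat_lit 82644) (.g (nat_lit 4734) (.e (nat_lit 1855) (nat_lit 124) (.e (nat_lit 557109) (nat_lit 15) (.e (nat_lit 188449) (nat_lit 22) (.e (nat_lit 196669) (nat_lit 14) .nil)))) .nil))) (.nd (nat_lit 6) 
(.lf (nat_lit 82612) (.g (nat_lit 3492) (.e (nat_lit 1855) (nat_lit 124) (.e (nat_lit 557109) (nat_lit 15) (.e (nat_lit 188434) (nat_lit 20) (.e (nat_lit 3272) (nat_lit 199) (.e (nat_lit 548913) (nat_lit 18) (.e (nat_lit 172087) (nat_lit 9) (.e (nat_lit 426399) (nat_lit 15) .nil))))))) (.g (nat_lit 5) .nil .nil))) 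
(.lf (nat_lit 82676) (.g (nat_lit 3864) (.e (nat_lit 1855) (nat_lit 124) (.e (nat_lit 557109) (nat_lit 15) (.e (nat_lit 188452) (nat_lit 23) (.e (nat_lit 204840) (nat_lit 21) .nil)))) .nil))))) (.nd (nat_lit 4) (.nd (nat_lit 5) (.nd (nat_lit 6) 
(.lf (nat_lit 82572) (.g (nat_lit 2309) (.e (nat_lit 1855) (nat_lit 124) (.e (nat_lit 557108) (nat_lit 15) (.e (nat_lit 188452) (nat_lit 23) (.e (nat_lit 204882) (nat_lit 32) .nil)))) .nil)) 
(.lf (nat_lit 82636) (.g (nat_lit 2087) (.e (nat_lit 1855) (nat_lit 124) (.e (nat_lit 557109) (nat_lit 15) (.e (nat_lit 188449) (nat_lit 22) (.e (nat_lit 196666) (nat_lit 13) .nil)))) .nil))) (.nd (nat_lit 6) 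
(.lf (nat_lit 82604) (.g (nat_lit 2328) (.e (nat_lit 1855) (nat_lit 124) (.e (nat_lit 557109) (nat_lit 15) (.e (nat_lit 196352) (nat_lit 0) (.e (nat_lit 1859) (nat_lit 124) (.e (nat_lit 557109) (nat_lit 15) (.e (nat_lit 196352) (nat_lit 0) .nil)))))) (.g (nat_lit 5) .nil .nil))) 
(.lf (nat_lit 82668) (.g (nat_lit 4326) (.e (nat_lit 1855) (nat_lit 124) (.e (nat_lit 557109) (nat_lit 15) (.e (nat_lit 188452) (nat_lit 23) (.e (nat_lit 204816) (nat_lit 17) (.e (nat_lit 6720) (nat_lit 361) (.e (nat_lit 179968) (nat_lit 15) .nil)))))) (.g (nat_lit 5) .nil .nil))))) (.nd (nat_lit 5) (.nd (nat_lit 6) 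
(.lf (nat_lit 82588) (.g (nat_lit 2804) (.e (nat_lit 1855) (nat_lit 124) (.e (nat_lit 557109) (nat_lit 15) (.e (nat_lit 188418) (nat_lit 0) (.e (nat_lit 1856) (nat_lit 124) (.e (nat_lit 557109) (nat_lit 15) (.e (nat_lit 188419) (nat_lit 0) .nil)))))) (.g (nat_lit 4) .nil .nil))) 
(.lf (nat_lit 82652) (.g (nat_lit 2581) (.e (nat_lit 1855) (nat_lit 124) (.e (nat_lit 557109) (nat_lit 15) (.e (nat_lit 188450) (nat_lit 23) (.e (nat_lit 204852) (nat_lit 26) .nil)))) .nil))) (.nd (nat_lit 6) 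
(.lf (nat_lit 82620) (.g (nat_lit 2725) (.e (nat_lit 1855) (nat_lit 124) (.e (nat_lit 557109) (nat_lit 15) (.e (nat_lit 188441) (nat_lit 20) (.e (nat_lit 3272) (nat_lit 199) (.e (nat_lit 548915) (nat_lit 20) (.e (nat_lit 196352) (nat_lit 0) .nil)))))) (.g (nat_lit 4) .nil .nil))) 
(.lf (nat_lit 82684) (.g (nat_lit 4078) (.e (nat_lit 1855) (nat_lit 124) (.e (nat_lit 557109) (nat_lit 15) (.e (nat_lit 188452) (nat_lit 23) (.e (nat_lit 204846) (nat_lit 24) (.e (nat_lit 319539) (nat_lit 19) .nil))))) .nil))))))) (.nd (nat_lit 2) (.nd (nat_lit 3) (.nd (nat_lit 4) (.nd (nat_lit 5) (.nd (nat_lit 6) 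
(.lf (nat_lit 82562) (.g (nat_lit 3493) (.e (nat_lit 1855) (nat_lit 124) (.e (nat_lit 557108) (nat_lit 15) (.e (nat_lit 188452) (nat_lit 23) (.e (nat_lit 204819) (nat_lit 17) .nil)))) .nil)) 
(.lf (nat_lit 82626) (.g (nat_lit 3076) (.e (nat_lit 1855) (nat_lit 124) (.e (nat_lit 557109) (nat_lit 15) (.e (nat_lit 188447) (nat_lit 22) (.e (nat_lit 196668) (nat_lit 14) (.e (nat_lit 73737) (nat_lit 0) .nil))))) .nil))) (.nd (nat_lit 6) 
(.lf (nat_lit 82594) (.g (nat_lit 2924) (.e (nat_lit 1855) (nat_lit 124) (.e (nat_lit 557109) (nat_lit 15) (.e (nat_lit 188419) (nat_lit 0) (.e (nat_lit 1856) (nat_lit 124) (.e (nat_lit 557107) (nat_lit 15) (.e (nat_lit 188418) (nat_lit 0) .nil)))))) (.g (nat_lit 5) .nil .nil))) 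
(.lf (nat_lit 82658) (.g (nat_lit 2478) (.e (nat_lit 1855) (nat_lit 124) (.e (nat_lit 557109) (nat_lit 15) (.e (nat_lit 188450) (nat_lit 23) (.e (nat_lit 204863) (nat_lit 27) .nil)))) .nil)))) (.nd (nat_lit 5) (.nd (nat_lit 6) 
(.lf (nat_lit 82578) (.g (nat_lit 4588) (.e (nat_lit 1855) (nat_lit 124) (.e (nat_lit 557108) (nat_lit 15) (.e (nat_lit 188452) (nat_lit 23) (.e (nat_lit 204885) (nat_lit 33) (.e (nat_lit 401440) (nat_lit 9) (.e (nat_lit 426396) (nat_lit 15) .nil)))))) (.g (nat_lit 6) .nil .nil))) 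
(.lf (nat_lit 82642) (.g (nat_lit 4462) (.e (nat_lit 1855) (nat_lit 124) (.e (nat_lit 557109) (nat_lit 15) (.e (nat_lit 188449) (nat_lit 22) (.e (nat_lit 196667) (nat_lit 14) .nil)))) .nil))) (.nd (nat_lit 6) 
(.lf (nat_lit 82610) (.g (nat_lit 1941) (.e (nat_lit 1855) (nat_lit 124) (.e (nat_lit 557109) (nat_lit 15) (.e (nat_lit 188434) (nat_lit 20) (.e (nat_lit 3272) (nat_lit 199) .nil)))) .nil)) 
(.lf (nat_lit 82674) (.g (nat_lit 3065) (.e (nat_lit 1855) (nat_lit 124) (.e (nat_lit 557109) (nat_lit 15) (.e (nat_lit 188452) (nat_lit 23) (.e (nat_lit 204821) (nat_lit 17) (.e (nat_lit 7936) (nat_lit 361) (.e (nat_lit 172138) (nat_lit 15) .nil)))))) (.g (nat_lit 4) .nil .nil)))))) (.nd (nat_lit 4) (.nd (nat_lit 5) (.nd (nat_lit 6) 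
(.lf (nat_lit 82570) (.g (nat_lit 2286) (.e (nat_lit 1855) (nat_lit 124) (.e (nat_lit 557108) (nat_lit 15) (.e (nat_lit 188452) (nat_lit 23) (.e (nat_lit 204880) (nat_lit 32) .nil)))) .nil)) 
(.lf (nat_lit 82634) (.g (nat_lit 4640) (.e (nat_lit 1855) (nat_lit 124) (.e (nat_lit 557109) (nat_lit 15) (.e (nat_lit 188449) (nat_lit 22) (.e (nat_lit 196663) (nat_lit 13) .nil)))) .nil))) (.nd (nat_lit 6) 
(.lf (nat_lit 82602) (.g (nat_lit 1539) (.e (nat_lit 1855) (nat_lit 124) (.e (nat_lit 557109) (nat_lit 15) (.e (nat_lit 196352) (nat_lit 0) (.e (nat_lit 1858) (nat_lit 124) (.e (nat_lit 557107) (nat_lit 15) (.e (nat_lit 196352) (nat_lit 0) .nil)))))) (.g (nat_lit 4) .nil .nil))) 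
(.lf (nat_lit 82666) (.g (nat_lit 3149) (.e (nat_lit 1855) (nat_lit 124) (.e (nat_lit 557109) (nat_lit 15) (.e (nat_lit 188452) (nat_lit 23) (.e (nat_lit 204816) (nat_lit 17) (.e (nat_lit 6718) (nat_lit 361) .nil))))) .nil)))) (.nd (nat_lit 5) (.nd (nat_lit 6) 
(.lf (nat_lit 82586) (.g (nat_lit 3004) (.e (nat_lit 1855) (nat_lit 124) (.e (nat_lit 557109) (nat_lit 15) (.e (nat_lit 188418) (nat_lit 0) (.e (nat_lit 1856) (nat_lit 124) (.e (nat_lit 557107) (nat_lit 15) (.e (nat_lit 188420) (nat_lit 0) .nil)))))) (.g (nat_lit 5) .nil .nil))) 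
(.lf (nat_lit 82650) (.g (nat_lit 2463) (.e (nat_lit 1855) (nat_lit 124) (.e (nat_lit 557109) (nat_lit 15) (.e (nat_lit 188450) (nat_lit 23) (.e (nat_lit 204821) (nat_lit 17) .nil)))) .nil))) (.nd (nat_lit 6) 
(.lf (nat_lit 82618) (.g (nat_lit 2510) (.e (nat_lit 1855) (nat_lit 124) (.e (nat_lit 557109) (nat_lit 15) (.e (nat_lit 188441) (nat_lit 20) (.e (nat_lit 3272) (nat_lit 199) (.e (nat_lit 548913) (nat_lit 18) (.e (nat_lit 172087) (nat_lit 9) (.e (nat_lit 426399) (nat_lit 15) .nil))))))) (.g (nat_lit 4) .nil .nil))) 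
(.lf (nat_lit 82682) (.g (nat_lit 4078) (.e (nat_lit 1855) (nat_lit 124) (.e (nat_lit 557109) (nat_lit 15) (.e (nat_lit 188452) (nat_lit 23) (.e (nat_lit 204846) (nat_lit 24) (.e (nat_lit 319538) (nat_lit 19) .nil))))) .nil)))))) (.nd (nat_lit 3) (.nd (nat_lit 4) (.nd (nat_lit 5) (.nd (nat_lit 6) 
(.lf (nat_lit 82566) (.g (nat_lit 2228) (.e (nat_lit 1855) (nat_lit 124) (.e (nat_lit 557108) (nat_lit 15) (.e (nat_lit 188452) (nat_lit 23) (.e (nat_lit 204849) (nat_lit 25) .nil)))) .nil)) 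
(.lf (nat_lit 82630) (.g (nat_lit 3371) (.e (nat_lit 1855) (nat_lit 124) (.e (nat_lit 557109) (nat_lit 15) (.e (nat_lit 188449) (nat_lit 22) (.e (nat_lit 196630) (nat_lit 9) (.e (nat_lit 1669) (nat_lit 116) .nil))))) .nil))) (.nd (nat_lit 6) 
(.lf (nat_lit 82598) (.g (nat_lit 2148) (.e (nat_lit 1855) (nat_lit 124) (.e (nat_lit 557109) (nat_lit 15) (.e (nat_lit 188420) (nat_lit 0) (.e (nat_lit 1855) (nat_lit 124) (.e (nat_lit 557109) (nat_lit 15) .nil))))) .nil)) 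
(.lf (nat_lit 82662) (.g (nat_lit 3384) (.e (nat_lit 1855) (nat_lit 124) (.e (nat_lit 557109) (nat_lit 15) (.e (nat_lit 188452) (nat_lit 23) (.e (nat_lit 204815) (nat_lit 17) .nil)))) .nil)))) (.nd (nat_lit 5) (.nd (nat_lit 6) 
(.lf (nat_lit 82582) (.g (nat_lit 4510) (.e (nat_lit 1855) (nat_lit 124) (.e (nat_lit 557108) (nat_lit 15) (.e (nat_lit 188452) (nat_lit 23) (.e (nat_lit 204885) (nat_lit 33) (.e (nat_lit 401444) (nat_lit 9) (.e (nat_lit 426419) (nat_lit 15) .nil)))))) (.g (nat_lit 6) .nil .nil))) 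
(.lf (nat_lit 82646) (.g (nat_lit 4714) (.e (nat_lit 1855) (nat_lit 124) (.e (nat_lit 557109) (nat_lit 15) (.e (nat_lit 188449) (nat_lit 22) (.e (nat_lit 196670) (nat_lit 14) (.e (nat_lit 73736) (nat_lit 0) .nil))))) .nil))) (.nd (nat_lit 6) 
(.lf (nat_lit 82614) (.g (nat_lit 763) (.e (nat_lit 1855) (nat_lit 124) (.e (nat_lit 557109) (nat_lit 15) (.e (nat_lit 188441) (nat_lit 20) .nil))) .nil)) 
(.lf (nat_lit 82678) (.g (nat_lit 1342) (.e (nat_lit 1855) (nat_lit 124) (.e (nat_lit 557109) (nat_lit 15) (.e (nat_lit 188452) (nat_lit 23) (.e (nat_lit 204846) (nat_lit 24) .nil)))) .nil))))) (.nd (nat_lit 4) (.nd (nat_lit 5) (.nd (nat_lit 6) 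
(.lf (nat_lit 82574) (.g (nat_lit 2589) (.e (nat_lit 1855) (nat_lit 124) (.e (nat_lit 557108) (nat_lit 15) (.e (nat_lit 188452) (nat_lit 23) (.e (nat_lit 204885) (nat_lit 33) .nil)))) .nil)) 
(.lf (nat_lit 82638) (.g (nat_lit 2989) (.e (nat_lit 1855) (nat_lit 124) (.e (nat_lit 557109) (nat_lit 15) (.e (nat_lit 188449) (nat_lit 22) (.e (nat_lit 196666) (nat_lit 13) (.e (nat_lit 65572) (nat_lit 4) (.e (nat_lit 123197) (nat_lit 266) (.e (nat_lit 57354) (nat_lit 0) .nil))))))) (.g (nat_lit 4) .nil .nil)))) (.nd (nat_lit 6) 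
(.lf (nat_lit 82606) (.g (nat_lit 831) (.e (nat_lit 1855) (nat_lit 124) (.e (nat_lit 557109) (nat_lit 15) (.e (nat_lit 188427) (nat_lit 20) .nil))) .nil)) 
(.lf (nat_lit 82670) (.g (nat_lit 3674) (.e (nat_lit 1855) (nat_lit 124) (.e (nat_lit 557109) (nat_lit 15) (.e (nat_lit 188452) (nat_lit 23) (.e (nat_lit 204817) (nat_lit 17) (.e (nat_lit 7936) (nat_lit 357) .nil))))) .nil)))) (.nd (nat_lit 5) (.nd (nat_lit 6) 
(.lf (nat_lit 82590) (.g (nat_lit 575) (.e (nat_lit 1855) (nat_lit 124) (.e (nat_lit 557109) (nat_lit 15) (.e (nat_lit 188419) (nat_lit 0) .nil))) .nil)) 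
(.lf (nat_lit 82654) (.g (nat_lit 2427) (.e (nat_lit 1855) (nat_lit 124) (.e (nat_lit 557109) (nat_lit 15) (.e (nat_lit 188450) (nat_lit 23) (.e (nat_lit 204854) (nat_lit 26) .nil)))) .nil))) (.nd (nat_lit 6) 
(.lf (nat_lit 82622) (.g (nat_lit 969) (.e (nat_lit 1855) (nat_lit 124) (.e (nat_lit 557109) (nat_lit 15) (.e (nat_lit 188447) (nat_lit 22) .nil))) .nil)) 
(.lf (nat_lit 82686) (.g (nat_lit 2997) (.e (nat_lit 1855) (nat_lit 124) (.e (nat_lit 557109) (nat_lit 15) (.e (nat_lit 188452) (nat_lit 23) (.e (nat_lit 204849) (nat_lit 25) .nil)))) .nil)))))))) (.nd (nat_lit 1) (.nd (nat_lit 2) (.nd (nat_lit 3) (.nd (nat_lit 4) (.nd (nat_lit 5) (.nd (nat_lit 6) 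
(.lf (nat_lit 82561) (.g (nat_lit 2308) (.e (nat_lit 1855) (nat_lit 124) (.e (nat_lit 557108) (nat_lit 15) (.e (nat_lit 188452) (nat_lit 23) (.e (nat_lit 204817) (nat_lit 17) (.e (nat_lit 7936) (nat_lit 357) .nil))))) .nil)) 
(.lf (nat_lit 82625) (.g (nat_lit 2397) (.e (nat_lit 1855) (nat_lit 124) (.e (nat_lit 557109) (nat_lit 15) (.e (nat_lit 188447) (nat_lit 22) (.e (nat_lit 196668) (nat_lit 14) .nil)))) .nil))) (.nd (nat_lit 6) 
(.lf (nat_lit 82593) (.g (nat_lit 3235) (.e (nat_lit 1855) (nat_lit 124) (.e (nat_lit 557109) (nat_lit 15) (.e (nat_lit 188419) (nat_lit 0) (.e (nat_lit 1855) (nat_lit 124) (.e (nat_lit 557109) (nat_lit 15) (.e (nat_lit 196352) (nat_lit 0) .nil)))))) (.g (nat_lit 5) .nil .nil))) 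
(.lf (nat_lit 82657) (.g (nat_lit 2774) (.e (nat_lit 1855) (nat_lit 124) (.e (nat_lit 557109) (nat_lit 15) (.e (nat_lit 188450) (nat_lit 23) (.e (nat_lit 204861) (nat_lit 26) .nil)))) .nil)))) (.nd (nat_lit 5) (.nd (nat_lit 6) 
(.lf (nat_lit 82577) (.g (nat_lit 3565) (.e (nat_lit 1855) (nat_lit 124) (.e (nat_lit 557108) (nat_lit 15) (.e (nat_lit 188452) (nat_lit 23) (.e (nat_lit 204885) (nat_lit 33) (.e (nat_lit 401437) (nat_lit 9) (.e (nat_lit 426364) (nat_lit 15) .nil)))))) (.g (nat_lit 4) .nil .nil))) 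
(.lf (nat_lit 82641) (.g (nat_lit 3698) (.e (nat_lit 1855) (nat_lit 124) (.e (nat_lit 557109) (nat_lit 15) (.e (nat_lit 188449) (nat_lit 22) (.e (nat_lit 196666) (nat_lit 13) (.e (nat_lit 65574) (nat_lit 4) (.e (nat_lit 123198) (nat_lit 266) (.e (nat_lit 57354) (nat_lit 0) .nil))))))) (.g (nat_lit 5) .nil .nil)))) (.nd (nat_lit 6) 
(.lf (nat_lit 82609) (.g (nat_lit 2935) (.e (nat_lit 1855) (nat_lit 124) (.e (nat_lit 557109) (nat_lit 15) (.e (nat_lit 188434) (nat_lit 20) (.e (nat_lit 3271) (nat_lit 199) (.e (nat_lit 548913) (nat_lit 18) (.e (nat_lit 172087) (nat_lit 9) (.e (nat_lit 426399) (nat_lit 15) .nil))))))) (.g (nat_lit 5) .nil .nil))) 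
(.lf (nat_lit 82673) (.g (nat_lit 3283) (.e (nat_lit 1855) (nat_lit 124) (.e (nat_lit 557109) (nat_lit 15) (.e (nat_lit 188452) (nat_lit 23) (.e (nat_lit 204821) (nat_lit 17) (.e (nat_lit 7936) (nat_lit 361) (.e (nat_lit 172136) (nat_lit 15) .nil)))))) (.g (nat_lit 4) .nil .nil)))))) (.nd (nat_lit 4) (.nd (nat_lit 5) (.nd (nat_lit 6) 
(.lf (nat_lit 82569) (.g (nat_lit 3218) (.e (nat_lit 1855) (nat_lit 124) (.e (nat_lit 557108) (nat_lit 15) (.e (nat_lit 188452) (nat_lit 23) (.e (nat_lit 204852) (nat_lit 26) (.e (nat_lit 336260) (nat_lit 15) .nil))))) .nil)) 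
(.lf (nat_lit 82633) (.g (nat_lit 4063) (.e (nat_lit 1855) (nat_lit 124) (.e (nat_lit 557109) (nat_lit 15) (.e (nat_lit 188449) (nat_lit 22) (.e (nat_lit 196662) (nat_lit 13) .nil)))) .nil))) (.nd (nat_lit 6) 
(.lf (nat_lit 82601) (.g (nat_lit 2480) (.e (nat_lit 1855) (nat_lit 124) (.e (nat_lit 557109) (nat_lit 15) (.e (nat_lit 196352) (nat_lit 0) (.e (nat_lit 1855) (nat_lit 124) (.e (nat_lit 557109) (nat_lit 15) (.e (nat_lit 196352) (nat_lit 0) .nil)))))) (.g (nat_lit 5) .nil .nil))) 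
(.lf (nat_lit 82665) (.g (nat_lit 3593) (.e (nat_lit 1855) (nat_lit 124) (.e (nat_lit 557109) (nat_lit 15) (.e (nat_lit 188452) (nat_lit 23) (.e (nat_lit 204816) (nat_lit 17) (.e (nat_lit 6622) (nat_lit 357) .nil))))) .nil)))) (.nd (nat_lit 5) (.nd (nat_lit 6) 
(.lf (nat_lit 82585) (.g (nat_lit 2603) (.e (nat_lit 1855) (nat_lit 124) (.e (nat_lit 557109) (nat_lit 15) (.e (nat_lit 188418) (nat_lit 0) (.e (nat_lit 1855) (nat_lit 124) (.e (nat_lit 557109) (nat_lit 15) (.e (nat_lit 188419) (nat_lit 0) .nil)))))) (.g (nat_lit 4) .nil .nil))) 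
(.lf (nat_lit 82649) (.g (nat_lit 2640) (.e (nat_lit 1855) (nat_lit 124) (.e (nat_lit 557109) (nat_lit 15) (.e (nat_lit 188450) (nat_lit 23) (.e (nat_lit 204817) (nat_lit 17) .nil)))) .nil))) (.nd (nat_lit 6) 
(.lf (nat_lit 82617) (.g (nat_lit 2146) (.e (nat_lit 1855) (nat_lit 124) (.e (nat_lit 557109) (nat_lit 15) (.e (nat_lit 188441) (nat_lit 20) (.e (nat_lit 3272) (nat_lit 199) (.e (nat_lit 548913) (nat_lit 18) .nil))))) .nil)) 
(.lf (nat_lit 82681) (.g (nat_lit 3512) (.e (nat_lit 1855) (nat_lit 124) (.e (nat_lit 557109) (nat_lit 15) (.e (nat_lit 188452) (nat_lit 23) (.e (nat_lit 204846) (nat_lit 24) (.e (nat_lit 327424) (nat_lit 18) .nil))))) .nil)))))) (.nd (nat_lit 3) (.nd (nat_lit 4) (.nd (nat_lit 5) (.nd (nat_lit 6) 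
(.lf (nat_lit 82565) (.g (nat_lit 2355) (.e (nat_lit 1855) (nat_lit 124) (.e (nat_lit 557108) (nat_lit 15) (.e (nat_lit 188452) (nat_lit 23) (.e (nat_lit 204848) (nat_lit 25) .nil)))) .nil)) 
(.lf (nat_lit 82629) (.g (nat_lit 2814) (.e (nat_lit 1855) (nat_lit 124) (.e (nat_lit 557109) (nat_lit 15) (.e (nat_lit 188449) (nat_lit 22) (.e (nat_lit 196630) (nat_lit 9) .nil)))) .nil))) (.nd (nat_lit 6) 
(.lf (nat_lit 82597) (.g (nat_lit 1140) (.e (nat_lit 1855) (nat_lit 124) (.e (nat_lit 557109) (nat_lit 15) (.e (nat_lit 188420) (nat_lit 0) .nil))) .nil)) 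
(.lf (nat_lit 82661) (.g (nat_lit 3016) (.e (nat_lit 1855) (nat_lit 124) (.e (nat_lit 557109) (nat_lit 15) (.e (nat_lit 188452) (nat_lit 23) (.e (nat_lit 204814) (nat_lit 17) .nil)))) .nil)))) (.nd (nat_lit 5) (.nd (nat_lit 6) 
(.lf (nat_lit 82581) (.g (nat_lit 3333) (.e (nat_lit 1855) (nat_lit 124) (.e (nat_lit 557108) (nat_lit 15) (.e (nat_lit 188452) (nat_lit 23) (.e (nat_lit 204885) (nat_lit 33) (.e (nat_lit 401442) (nat_lit 9) .nil))))) .nil)) 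
(.lf (nat_lit 82645) (.g (nat_lit 4017) (.e (nat_lit 1855) (nat_lit 124) (.e (nat_lit 557109) (nat_lit 15) (.e (nat_lit 188449) (nat_lit 22) (.e (nat_lit 196670) (nat_lit 14) .nil)))) .nil))) (.nd (nat_lit 6) 
(.lf (nat_lit 82613) (.g (nat_lit 1253) (.e (nat_lit 1855) (nat_lit 124) (.e (nat_lit 557109) (nat_lit 15) (.e (nat_lit 188435) (nat_lit 20) .nil))) .nil)) 
(.lf (nat_lit 82677) (.g (nat_lit 2603) (.e (nat_lit 1855) (nat_lit 124) (.e (nat_lit 557109) (nat_lit 15) (.e (nat_lit 188452) (nat_lit 23) (.e (nat_lit 204845) (nat_lit 24) .nil)))) .nil))))) (.nd (nat_lit 4) (.nd (nat_lit 5) (.nd (nat_lit 6) 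
(.lf (nat_lit 82573) (.g (nat_lit 2790) (.e (nat_lit 1855) (nat_lit 124) (.e (nat_lit 557108) (nat_lit 15) (.e (nat_lit 188452) (nat_lit 23) (.e (nat_lit 204884) (nat_lit 33) .nil)))) .nil)) 
(.lf (nat_lit 82637) (.g (nat_lit 5421) (.e (nat_lit 1855) (nat_lit 124) (.e (nat_lit 557109) (nat_lit 15) (.e (nat_lit 188449) (nat_lit 22) (.e (nat_lit 196666) (nat_lit 13) (.e (nat_lit 65572) (nat_lit 4) (.e (nat_lit 123195) (nat_lit 266) (.e (nat_lit 57354) (nat_lit 0) .nil))))))) (.g (nat_lit 0) .nil .nil)))) (.nd (nat_lit 6) 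
(.lf (nat_lit 82605) (.g (nat_lit 1689) (.e (nat_lit 1855) (nat_lit 124) (.e (nat_lit 557109) (nat_lit 15) (.e (nat_lit 196352) (nat_lit 0) (.e (nat_lit 1860) (nat_lit 124) (.e (nat_lit 557109) (nat_lit 15) (.e (nat_lit 196352) (nat_lit 0) .nil)))))) (.g (nat_lit 4) .nil .nil))) 
(.lf (nat_lit 82669) (.g (nat_lit 3282) (.e (nat_lit 1855) (nat_lit 124) (.e (nat_lit 557109) (nat_lit 15) (.e (nat_lit 188452) (nat_lit 23) (.e (nat_lit 204817) (nat_lit 17) .nil)))) .nil)))) (.nd (nat_lit 5) (.nd (nat_lit 6) 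
(.lf (nat_lit 82589) (.g (nat_lit 2937) (.e (nat_lit 1855) (nat_lit 124) (.e (nat_lit 557109) (nat_lit 15) (.e (nat_lit 188418) (nat_lit 0) (.e (nat_lit 1856) (nat_lit 124) (.e (nat_lit 557109) (nat_lit 15) (.e (nat_lit 196352) (nat_lit 0) .nil)))))) (.g (nat_lit 5) .nil .nil))) 
(.lf (nat_lit 82653) (.g (nat_lit 3911) (.e (nat_lit 1855) (nat_lit 124) (.e (nat_lit 557109) (nat_lit 15) (.e (nat_lit 188450) (nat_lit 23) (.e (nat_lit 204852) (nat_lit 26) (.e (nat_lit 336260) (nat_lit 15) .nil))))) .nil))) (.nd (nat_lit 6) 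
(.lf (nat_lit 82621) (.g (nat_lit 1014) (.e (nat_lit 1855) (nat_lit 124) (.e (nat_lit 557109) (nat_lit 15) (.e (nat_lit 188446) (nat_lit 21) .nil))) .nil)) 
(.lf (nat_lit 82685) (.g (nat_lit 3821) (.e (nat_lit 1855) (nat_lit 124) (.e (nat_lit 557109) (nat_lit 15) (.e (nat_lit 188452) (nat_lit 23) (.e (nat_lit 204848) (nat_lit 25) .nil)))) .nil))))))) (.nd (nat_lit 2) (.nd (nat_lit 3) (.nd (nat_lit 4) (.nd (nat_lit 5) (.nd (nat_lit 6) 
(.lf (nat_lit 82563) (.g (nat_lit 3969) (.e (nat_lit 1855) (nat_lit 124) (.e (nat_lit 557108) (nat_lit 15) (.e (nat_lit 188452) (nat_lit 23) (.e (nat_lit 204821) (nat_lit 17) .nil)))) .nil)) 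
(.lf (nat_lit 82627) (.g (nat_lit 4693) (.e (nat_lit 1855) (nat_lit 124) (.e (nat_lit 557109) (nat_lit 15) (.e (nat_lit 188449) (nat_lit 22) (.e (nat_lit 196624) (nat_lit 9) .nil)))) .nil))) (.nd (nat_lit 6) 
(.lf (nat_lit 82595) (.g (nat_lit 3233) (.e (nat_lit 1855) (nat_lit 124) (.e (nat_lit 557109) (nat_lit 15) (.e (nat_lit 188419) (nat_lit 0) (.e (nat_lit 1856) (nat_lit 124) (.e (nat_lit 557107) (nat_lit 15) (.e (nat_lit 196352) (nat_lit 0) .nil)))))) (.g (nat_lit 5) .nil .nil))) 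
(.lf (nat_lit 82659) (.g (nat_lit 3479) (.e (nat_lit 1855) (nat_lit 124) (.e (nat_lit 557109) (nat_lit 15) (.e (nat_lit 188450) (nat_lit 23) (.e (nat_lit 204882) (nat_lit 32) (.e (nat_lit 385104) (nat_lit 50) (.e (nat_lit 786447) (nat_lit 15) .nil)))))) (.g (nat_lit 4) .nil .nil))))) (.nd (nat_lit 5) (.nd (nat_lit 6) 
(.lf (nat_lit 82579) (.g (nat_lit 4240) (.e (nat_lit 1855) (nat_lit 124) (.e (nat_lit 557108) (nat_lit 15) (.e (nat_lit 188452) (nat_lit 23) (.e (nat_lit 204885) (nat_lit 33) (.e (nat_lit 401440) (nat_lit 9) (.e (nat_lit 426410) (nat_lit 15) .nil)))))) (.g (nat_lit 0) .nil .nil))) 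
(.lf (nat_lit 82643) (.g (nat_lit 4460) (.e (nat_lit 1855) (nat_lit 124) (.e (nat_lit 557109) (nat_lit 15) (.e (nat_lit 188449) (nat_lit 22) (.e (nat_lit 196668) (nat_lit 14) .nil)))) .nil))) (.nd (nat_lit 6) 
(.lf (nat_lit 82611) (.g (nat_lit 2395) (.e (nat_lit 1855) (nat_lit 124) (.e (nat_lit 557109) (nat_lit 15) (.e (nat_lit 188434) (nat_lit 20) (.e (nat_lit 3272) (nat_lit 199) (.e (nat_lit 548898) (nat_lit 14) .nil))))) .nil)) 
(.lf (nat_lit 82675) (.g (nat_lit 3728) (.e (nat_lit 1855) (nat_lit 124) (.e (nat_lit 557109) (nat_lit 15) (.e (nat_lit 188452) (nat_lit 23) (.e (nat_lit 204830) (nat_lit 18) .nil)))) .nil))))) (.nd (nat_lit 4) (.nd (nat_lit 5) (.nd (nat_lit 6) 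
(.lf (nat_lit 82571) (.g (nat_lit 2155) (.e (nat_lit 1855) (nat_lit 124) (.e (nat_lit 557108) (nat_lit 15) (.e (nat_lit 188452) (nat_lit 23) (.e (nat_lit 204881) (nat_lit 32) .nil)))) .nil)) 
(.lf (nat_lit 82635) (.g (nat_lit 4856) (.e (nat_lit 1855) (nat_lit 124) (.e (nat_lit 557109) (nat_lit 15) (.e (nat_lit 188449) (nat_lit 22) (.e (nat_lit 196664) (nat_lit 13) .nil)))) .nil))) (.nd (nat_lit 6) 
(.lf (nat_lit 82603) (.g (nat_lit 2046) (.e (nat_lit 1855) (nat_lit 124) (.e (nat_lit 557109) (nat_lit 15) (.e (nat_lit 196352) (nat_lit 0) (.e (nat_lit 1859) (nat_lit 124) (.e (nat_lit 557107) (nat_lit 15) (.e (nat_lit 196352) (nat_lit 0) .nil)))))) (.g (nat_lit 5) .nil .nil))) 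
(.lf (nat_lit 82667) (.g (nat_lit 4140) (.e (nat_lit 1855) (nat_lit 124) (.e (nat_lit 557109) (nat_lit 15) (.e (nat_lit 188452) (nat_lit 23) (.e (nat_lit 204816) (nat_lit 17) (.e (nat_lit 6718) (nat_lit 361) (.e (nat_lit 179968) (nat_lit 15) .nil)))))) (.g (nat_lit 4) .nil .nil))))) (.nd (nat_lit 5) (.nd (nat_lit 6) 
(.lf (nat_lit 82587) (.g (nat_lit 2774) (.e (nat_lit 1855) (nat_lit 124) (.e (nat_lit 557109) (nat_lit 15) (.e (nat_lit 188418) (nat_lit 0) (.e (nat_lit 1856) (nat_lit 124) (.e (nat_lit 557107) (nat_lit 15) (.e (nat_lit 196352) (nat_lit 0) .nil)))))) (.g (nat_lit 4) .nil .nil))) 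
(.lf (nat_lit 82651) (.g (nat_lit 2984) (.e (nat_lit 1855) (nat_lit 124) (.e (nat_lit 557109) (nat_lit 15) (.e (nat_lit 188450) (nat_lit 23) (.e (nat_lit 204821) (nat_lit 17) (.e (nat_lit 6114) (nat_lit 332) .nil))))) .nil))) (.nd (nat_lit 6) 
(.lf (nat_lit 82619) (.g (nat_lit 3531) (.e (nat_lit 1855) (nat_lit 124) (.e (nat_lit 557109) (nat_lit 15) (.e (nat_lit 188441) (nat_lit 20) (.e (nat_lit 3272) (nat_lit 199) (.e (nat_lit 548915) (nat_lit 20) (.e (nat_lit 188420) (nat_lit 0) .nil)))))) (.g (nat_lit 5) .nil .nil))) 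
(.lf (nat_lit 82683) (.g (nat_lit 4645) (.e (nat_lit 1855) (nat_lit 124) (.e (nat_lit 557109) (nat_lit 15) (.e (nat_lit 188452) (nat_lit 23) (.e (nat_lit 204846) (nat_lit 24) (.e (nat_lit 319538) (nat_lit 19) (.e (nat_lit 311351) (nat_lit 15) .nil)))))) (.g (nat_lit 4) .nil .nil))))))) (.nd (nat_lit 3) (.nd (nat_lit 4) (.nd (nat_lit 5) (.nd (nat_lit 6) 
(.lf (nat_lit 82567) (.g (nat_lit 2285) (.e (nat_lit 1855) (nat_lit 124) (.e (nat_lit 557108) (nat_lit 15) (.e (nat_lit 188452) (nat_lit 23) (.e (nat_lit 204851) (nat_lit 26) .nil)))) .nil)) 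
(.lf (nat_lit 82631) (.g (nat_lit 5046) (.e (nat_lit 1855) (nat_lit 124) (.e (nat_lit 557109) (nat_lit 15) (.e (nat_lit 188449) (nat_lit 22) (.e (nat_lit 196645) (nat_lit 9) .nil)))) .nil))) (.nd (nat_lit 6) 
(.lf (nat_lit 82599) (.g (nat_lit 1492) (.e (nat_lit 1855) (nat_lit 124) (.e (nat_lit 557109) (nat_lit 15) (.e (nat_lit 188420) (nat_lit 0) (.e (nat_lit 1856) (nat_lit 124) .nil)))) .nil)) 
(.lf (nat_lit 82663) (.g (nat_lit 3838) (.e (nat_lit 1855) (nat_lit 124) (.e (nat_lit 557109) (nat_lit 15) (.e (nat_lit 188452) (nat_lit 23) (.e (nat_lit 204815) (nat_lit 17) (.e (nat_lit 6720) (nat_lit 361) .nil))))) .nil)))) (.nd (nat_lit 5) (.nd (nat_lit 6) 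
(.lf (nat_lit 82583) (.g (nat_lit 997) (.e (nat_lit 1855) (nat_lit 124) (.e (nat_lit 557108) (nat_lit 15) (.e (nat_lit 188455) (nat_lit 24) .nil))) .nil)) 
(.lf (nat_lit 82647) (.g (nat_lit 965) (.e (nat_lit 1855) (nat_lit 124) (.e (nat_lit 557109) (nat_lit 15) (.e (nat_lit 188450) (nat_lit 23) .nil))) .nil))) (.nd (nat_lit 6) 
(.lf (nat_lit 82615) (.g (nat_lit 1418) (.e (nat_lit 1855) (nat_lit 124) (.e (nat_lit 557109) (nat_lit 15) (.e (nat_lit 188441) (nat_lit 20) (.e (nat_lit 3272) (nat_lit 199) .nil)))) .nil)) 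
(.lf (nat_lit 82679) (.g (nat_lit 2700) (.e (nat_lit 1855) (nat_lit 124) (.e (nat_lit 557109) (nat_lit 15) (.e (nat_lit 188452) (nat_lit 23) (.e (nat_lit 204846) (nat_lit 24) (.e (nat_lit 319504) (nat_lit 10) (.e (nat_lit 5712) (nat_lit 312) (.e (nat_lit 48) (nat_lit 0) .nil))))))) (.g (nat_lit 5) .nil .nil)))))) (.nd (nat_lit 4) (.nd (nat_lit 5) (.nd (nat_lit 6) 
(.lf (nat_lit 82575) (.g (nat_lit 3773) (.e (nat_lit 1855) (nat_lit 124) (.e (nat_lit 557108) (nat_lit 15) (.e (nat_lit 188452) (nat_lit 23) (.e (nat_lit 204885) (nat_lit 33) (.e (nat_lit 401434) (nat_lit 9) (.e (nat_lit 426410) (nat_lit 15) .nil)))))) (.g (nat_lit 5) .nil .nil))) 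
(.lf (nat_lit 82639) (.g (nat_lit 3286) (.e (nat_lit 1855) (nat_lit 124) (.e (nat_lit 557109) (nat_lit 15) (.e (nat_lit 188449) (nat_lit 22) (.e (nat_lit 196666) (nat_lit 13) (.e (nat_lit 65572) (nat_lit 4) (.e (nat_lit 123198) (nat_lit 266) (.e (nat_lit 57354) (nat_lit 0) .nil))))))) (.g (nat_lit 4) .nil .nil)))) (.nd (nat_lit 6) 
(.lf (nat_lit 82607) (.g (nat_lit 1988) (.e (nat_lit 1855) (nat_lit 124) (.e (nat_lit 557109) (nat_lit 15) (.e (nat_lit 188434) (nat_lit 20) (.e (nat_lit 3270) (nat_lit 199) .nil)))) .nil)) 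
(.lf (nat_lit 82671) (.g (nat_lit 2537) (.e (nat_lit 1855) (nat_lit 124) (.e (nat_lit 557109) (nat_lit 15) (.e (nat_lit 188452) (nat_lit 23) (.e (nat_lit 204819) (nat_lit 17) .nil)))) .nil)))) (.nd (nat_lit 5) (.nd (nat_lit 6) 
(.lf (nat_lit 82591) (.g (nat_lit 2661) (.e (nat_lit 1855) (nat_lit 124) (.e (nat_lit 557109) (nat_lit 15) (.e (nat_lit 188419) (nat_lit 0) (.e (nat_lit 1855) (nat_lit 124) (.e (nat_lit 557107) (nat_lit 15) (.e (nat_lit 196352) (nat_lit 0) .nil)))))) (.g (nat_lit 5) .nil .nil))) 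
(.lf (nat_lit 82655) (.g (nat_lit 2512) (.e (nat_lit 1855) (nat_lit 124) (.e (nat_lit 557109) (nat_lit 15) (.e (nat_lit 188450) (nat_lit 23) (.e (nat_lit 204855) (nat_lit 26) .nil)))) .nil))) (.nd (nat_lit 6) 
(.lf (nat_lit 82623) (.g (nat_lit 2493) (.e (nat_lit 1855) (nat_lit 124) (.e (nat_lit 557109) (nat_lit 15) (.e (nat_lit 188447) (nat_lit 22) (.e (nat_lit 196661) (nat_lit 12) .nil)))) .nil)) 
(.lf (nat_lit 82687) (.g (nat_lit 3827) (.e (nat_lit 1855) (nat_lit 124) (.e (nat_lit 557109) (nat_lit 15) (.e (nat_lit 188452) (nat_lit 23) (.e (nat_lit 204849) (nat_lit 25) (.e (nat_lit 327692) (nat_lit 1) .nil))))) .nil)))))))))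

noncomputable def tv1119 : DT := (.nd (nat_lit 0) (.nd (nat_lit 1) (.nd (nat_lit 2) (.nd (nat_lit 3) (.nd (nat_lit 4) (.nd (nat_lit 5) (.nd (nat_lit 6) 
(.lf (nat_lit 82688) (.g (nat_lit 3745) (.e (nat_lit 1855) (nat_lit 124) (.e (nat_lit 557109) (nat_lit 15) (.e (nat_lit 188452) (nat_lit 23) (.e (nat_lit 204851) (nat_lit 26) .nil)))) .nil)) 
(.lf (nat_lit 82752) (.g (nat_lit 1992) (.e (nat_lit 1856) (nat_lit 124) (.e (nat_lit 557096) (nat_lit 13) (.e (nat_lit 172126) (nat_lit 14) (.e (nat_lit 491540) (nat_lit 3) (.e (nat_lit 98370) (nat_lit 28) (.e (nat_lit 442378) (nat_lit 0) .nil)))))) (.g (nat_lit 4) .nil .nil)))) (.nd (nat_lit 6) 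
(.lf (nat_lit 82720) (.g (nat_lit 3732) (.e (nat_lit 1855) (nat_lit 124) (.e (nat_lit 557109) (nat_lit 15) (.e (nat_lit 188452) (nat_lit 23) (.e (nat_lit 204885) (nat_lit 33) (.e (nat_lit 401442) (nat_lit 9) .nil))))) .nil)) 
(.lf (nat_lit 82784) (.g (nat_lit 871) (.e (nat_lit 1856) (nat_lit 124) (.e (nat_lit 557100) (nat_lit 13) (.e (nat_lit 172032) (nat_lit 0) (.e (nat_lit 7545) (nat_lit 402) .nil)))) .nil)))) (.nd (nat_lit 5) (.nd (nat_lit 6) 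
(.lf (nat_lit 82704) (.g (nat_lit 2550) (.e (nat_lit 1855) (nat_lit 124) (.e (nat_lit 557109) (nat_lit 15) (.e (nat_lit 188452) (nat_lit 23) (.e (nat_lit 204863) (nat_lit 27) (.e (nat_lit 344168) (nat_lit 40) .nil))))) .nil)) 
(.lf (nat_lit 82768) (.g (nat_lit 2876) (.e (nat_lit 1856) (nat_lit 124) (.e (nat_lit 557098) (nat_lit 13) (.e (nat_lit 172118) (nat_lit 12) (.e (nat_lit 475185) (nat_lit 29) (.e (nat_lit 557107) (nat_lit 15) .nil))))) .nil))) (.nd (nat_lit 6) 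
(.lf (nat_lit 82736) (.g (nat_lit 1688) (.e (nat_lit 1856) (nat_lit 124) (.e (nat_lit 564992) (nat_lit 6) (.e (nat_lit 81951) (nat_lit 22) (.e (nat_lit 90170) (nat_lit 13) (.e (nat_lit 179968) (nat_lit 20) (.e (nat_lit 114708) (nat_lit 20) .nil)))))) (.g (nat_lit 4) .nil .nil))) 
(.lf (nat_lit 82800) (.g (nat_lit 3438) (.e (nat_lit 1856) (nat_lit 124) (.e (nat_lit 557100) (nat_lit 13) (.e (nat_lit 172106) (nat_lit 10) (.e (nat_lit 434227) (nat_lit 20) (.e (nat_lit 507928) (nat_lit 10) (.e (nat_lit 5772) (nat_lit 316) (.e (nat_lit 172133) (nat_lit 15) .nil))))))) (.g (nat_lit 0) .nil .nil)))))) (.nd (nat_lit 4) (.nd (nat_lit 5) (.nd (nat_lit 6) 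
(.lf (nat_lit 82696) (.g (nat_lit 3041) (.e (nat_lit 1855) (nat_lit 124) (.e (nat_lit 557109) (nat_lit 15) (.e (nat_lit 188452) (nat_lit 23) (.e (nat_lit 204856) (nat_lit 26) .nil)))) .nil)) 
(.lf (nat_lit 82760) (.g (nat_lit 2682) (.e (nat_lit 1856) (nat_lit 124) (.e (nat_lit 557098) (nat_lit 13) (.e (nat_lit 172115) (nat_lit 10) (.e (nat_lit 434227) (nat_lit 20) (.e (nat_lit 507929) (nat_lit 10) (.e (nat_lit 5772) (nat_lit 316) (.e (nat_lit 172133) (nat_lit 15) .nil))))))) (.g (nat_lit 7) .nil .nil)))) (.nd (nat_lit 6) 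
(.lf (nat_lit 82728) (.g (nat_lit 1955) (.e (nat_lit 1855) (nat_lit 124) (.e (nat_lit 557109) (nat_lit 15) (.e (nat_lit 188458) (nat_lit 25) (.e (nat_lit 245790) (nat_lit 13) .nil)))) .nil)) 
(.lf (nat_lit 82792) (.g (nat_lit 650) (.e (nat_lit 1856) (nat_lit 124) (.e (nat_lit 557100) (nat_lit 13) (.e (nat_lit 172081) (nat_lit 7) .nil))) .nil)))) (.nd (nat_lit 5) (.nd (nat_lit 6) 
(.lf (nat_lit 82712) (.g (nat_lit 3751) (.e (nat_lit 1855) (nat_lit 124) (.e (nat_lit 557109) (nat_lit 15) (.e (nat_lit 188452) (nat_lit 23) (.e (nat_lit 204882) (nat_lit 32) (.e (nat_lit 385104) (nat_lit 50) (.e (nat_lit 786447) (nat_lit 15) .nil)))))) (.g (nat_lit 4) .nil .nil))) 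
(.lf (nat_lit 82776) (.g (nat_lit 2656) (.e (nat_lit 1856) (nat_lit 124) (.e (nat_lit 557098) (nat_lit 13) (.e (nat_lit 172124) (nat_lit 14) (.e (nat_lit 491537) (nat_lit 2) (.e (nat_lit 90176) (nat_lit 15) .nil))))) .nil))) (.nd (nat_lit 6) 
(.lf (nat_lit 82744) (.g (nat_lit 891) (.e (nat_lit 1856) (nat_lit 124) (.e (nat_lit 557093) (nat_lit 12) (.e (nat_lit 164023) (nat_lit 46) (.e (nat_lit 704735) (nat_lit 11) .nil)))) .nil)) 
(.lf (nat_lit 82808) (.g (nat_lit 1896) (.e (nat_lit 1856) (nat_lit 124) (.e (nat_lit 557100) (nat_lit 13) (.e (nat_lit 172106) (nat_lit 10) (.e (nat_lit 434227) (nat_lit 20) (.e (nat_lit 507929) (nat_lit 10) (.e (nat_lit 5772) (nat_lit 316) (.e (nat_lit 172138) (nat_lit 15) .nil))))))) (.g (nat_lit 4) .nil .nil))))))) (.nd (nat_lit 3) (.nd (nat_lit 4) (.nd (nat_lit 5) (.nd (nat_lit 6) 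
(.lf (nat_lit 82692) (.g (nat_lit 3185) (.e (nat_lit 1855) (nat_lit 124) (.e (nat_lit 557109) (nat_lit 15) (.e (nat_lit 188452) (nat_lit 23) (.e (nat_lit 204854) (nat_lit 26) .nil)))) .nil)) 
(.lf (nat_lit 82756) (.g (nat_lit 590) (.e (nat_lit 1856) (nat_lit 124) (.e (nat_lit 557097) (nat_lit 13) (.e (nat_lit 172124) (nat_lit 14) .nil))) .nil))) (.nd (nat_lit 6) 
(.lf (nat_lit 82724) (.g (nat_lit 663) (.e (nat_lit 1855) (nat_lit 124) (.e (nat_lit 557109) (nat_lit 15) (.e (nat_lit 188455) (nat_lit 24) .nil))) .nil)) 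
(.lf (nat_lit 82788) (.g (nat_lit 655) (.e (nat_lit 1856) (nat_lit 124) (.e (nat_lit 557100) (nat_lit 13) (.e (nat_lit 172077) (nat_lit 7) .nil))) .nil)))) (.nd (nat_lit 5) (.nd (nat_lit 6) 
(.lf (nat_lit 82708) (.g (nat_lit 3824) (.e (nat_lit 1855) (nat_lit 124) (.e (nat_lit 557109) (nat_lit 15) (.e (nat_lit 188452) (nat_lit 23) (.e (nat_lit 204874) (nat_lit 30) .nil)))) .nil)) 
(.lf (nat_lit 82772) (.g (nat_lit 3089) (.e (nat_lit 1856) (nat_lit 124) (.e (nat_lit 557098) (nat_lit 13) (.e (nat_lit 172119) (nat_lit 12) (.e (nat_lit 475185) (nat_lit 29) (.e (nat_lit 557109) (nat_lit 15) (.e (nat_lit 188418) (nat_lit 0) .nil)))))) (.g (nat_lit 4) .nil .nil)))) (.nd (nat_lit 6) 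
(.lf (nat_lit 82740) (.g (nat_lit 719) (.e (nat_lit 1856) (nat_lit 124) (.e (nat_lit 557091) (nat_lit 12) (.e (nat_lit 171776) (nat_lit 192) .nil))) .nil)) 
(.lf (nat_lit 82804) (.g (nat_lit 2601) (.e (nat_lit 1856) (nat_lit 124) (.e (nat_lit 557100) (nat_lit 13) (.e (nat_lit 172106) (nat_lit 10) (.e (nat_lit 434227) (nat_lit 20) (.e (nat_lit 507929) (nat_lit 10) (.e (nat_lit 5766) (nat_lit 316) (.e (nat_lit 172133) (nat_lit 15) .nil))))))) (.g (nat_lit 4) .nil .nil)))))) (.nd (nat_lit 4) (.nd (nat_lit 5) (.nd (nat_lit 6) 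
(.lf (nat_lit 82700) (.g (nat_lit 3126) (.e (nat_lit 1855) (nat_lit 124) (.e (nat_lit 557109) (nat_lit 15) (.e (nat_lit 188452) (nat_lit 23) (.e (nat_lit 212736) (nat_lit 26) .nil)))) .nil)) 
(.lf (nat_lit 82764) (.g (nat_lit 1762) (.e (nat_lit 1856) (nat_lit 124) (.e (nat_lit 557098) (nat_lit 13) (.e (nat_lit 172115) (nat_lit 10) (.e (nat_lit 434231) (nat_lit 23) (.e (nat_lit 532569) (nat_lit 16) .nil))))) .nil))) (.nd (nat_lit 6) 
(.lf (nat_lit 82732) (.g (nat_lit 566) (.e (nat_lit 1855) (nat_lit 124) (.e (nat_lit 557109) (nat_lit 15) (.e (nat_lit 188461) (nat_lit 26) .nil))) .nil)) 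
(.lf (nat_lit 82796) (.g (nat_lit 2129) (.e (nat_lit 1856) (nat_lit 124) (.e (nat_lit 557100) (nat_lit 13) (.e (nat_lit 172106) (nat_lit 10) (.e (nat_lit 434219) (nat_lit 19) (.e (nat_lit 499718) (nat_lit 0) .nil))))) .nil)))) (.nd (nat_lit 5) (.nd (nat_lit 6) 
(.lf (nat_lit 82716) (.g (nat_lit 4114) (.e (nat_lit 1855) (nat_lit 124) (.e (nat_lit 557109) (nat_lit 15) (.e (nat_lit 188452) (nat_lit 23) (.e (nat_lit 204885) (nat_lit 33) (.e (nat_lit 401434) (nat_lit 9) (.e (nat_lit 426410) (nat_lit 15) .nil)))))) (.g (nat_lit 4) .nil .nil))) 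
(.lf (nat_lit 82780) (.g (nat_lit 3739) (.e (nat_lit 1856) (nat_lit 124) (.e (nat_lit 557098) (nat_lit 13) (.e (nat_lit 172126) (nat_lit 14) (.e (nat_lit 491537) (nat_lit 2) (.e (nat_lit 90178) (nat_lit 15) (.e (nat_lit 188418) (nat_lit 0) .nil)))))) (.g (nat_lit 5) .nil .nil)))) (.nd (nat_lit 6) 
(.lf (nat_lit 82748) (.g (nat_lit 1893) (.e (nat_lit 1856) (nat_lit 124) (.e (nat_lit 557095) (nat_lit 13) (.e (nat_lit 172126) (nat_lit 14) (.e (nat_lit 491540) (nat_lit 3) (.e (nat_lit 98381) (nat_lit 31) (.e (nat_lit 466947) (nat_lit 0) .nil)))))) (.g (nat_lit 4) .nil .nil))) 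
(.lf (nat_lit 82812) (.g (nat_lit 2627) (.e (nat_lit 1856) (nat_lit 124) (.e (nat_lit 557100) (nat_lit 13) (.e (nat_lit 172106) (nat_lit 10) (.e (nat_lit 434227) (nat_lit 20) (.e (nat_lit 507930) (nat_lit 10) (.e (nat_lit 5770) (nat_lit 316) (.e (nat_lit 172133) (nat_lit 15) .nil))))))) (.g (nat_lit 4) .nil .nil)))))))) 
(.nd (nat_lit 2) (.nd (nat_lit 3) (.nd (nat_lit 4) (.nd (nat_lit 5) (.nd (nat_lit 6) 
(.lf (nat_lit 82690) (.g (nat_lit 4693) (.e (nat_lit 1855) (nat_lit 124) (.e (nat_lit 557109) (nat_lit 15) (.e (nat_lit 188452) (nat_lit 23) (.e (nat_lit 204852) (nat_lit 26) (.e (nat_lit 336260) (nat_lit 15) (.e (nat_lit 3733) (nat_lit 228) (.e (nat_lit 786447) (nat_lit 15) .nil))))))) (.g (nat_lit 4) .nil .nil))) 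
(.lf (nat_lit 82754) (.g (nat_lit 2888) (.e (nat_lit 1856) (nat_lit 124) (.e (nat_lit 557096) (nat_lit 13) (.e (nat_lit 172126) (nat_lit 14) (.e (nat_lit 491540) (nat_lit 3) (.e (nat_lit 98381) (nat_lit 31) (.e (nat_lit 466947) (nat_lit 0) .nil)))))) (.g (nat_lit 0) .nil .nil)))) (.nd (nat_lit 6) 
(.lf (nat_lit 82722) (.g (nat_lit 4916) (.e (nat_lit 1855) (nat_lit 124) (.e (nat_lit 557109) (nat_lit 15) (.e (nat_lit 188452) (nat_lit 23) (.e (nat_lit 204885) (nat_lit 33) (.e (nat_lit 401444) (nat_lit 9) (.e (nat_lit 426419) (nat_lit 15) .nil)))))) (.g (nat_lit 5) .nil .nil))) 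
(.lf (nat_lit 82786) (.g (nat_lit 650) (.e (nat_lit 1856) (nat_lit 124) (.e (nat_lit 557100) (nat_lit 13) (.e (nat_lit 172034) (nat_lit 0) .nil))) .nil)))) (.nd (nat_lit 5) (.nd (nat_lit 6) 
(.lf (nat_lit 82706) (.g (nat_lit 3612) (.e (nat_lit 1855) (nat_lit 124) (.e (nat_lit 557109) (nat_lit 15) (.e (nat_lit 188452) (nat_lit 23) (.e (nat_lit 204872) (nat_lit 30) .nil)))) .nil)) 
(.lf (nat_lit 82770) (.g (nat_lit 3018) (.e (nat_lit 1856) (nat_lit 124) (.e (nat_lit 557098) (nat_lit 13) (.e (nat_lit 172119) (nat_lit 12) (.e (nat_lit 475185) (nat_lit 29) (.e (nat_lit 557107) (nat_lit 15) (.e (nat_lit 188418) (nat_lit 0) .nil)))))) (.g (nat_lit 4) .nil .nil)))) (.nd (nat_lit 6) 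
(.lf (nat_lit 82738) (.g (nat_lit 666) (.e (nat_lit 1856) (nat_lit 124) (.e (nat_lit 557070) (nat_lit 9) (.e (nat_lit 2945) (nat_lit 184) (.e (nat_lit 426316) (nat_lit 12) .nil)))) .nil)) 
(.lf (nat_lit 82802) (.g (nat_lit 1846) (.e (nat_lit 1856) (nat_lit 124) (.e (nat_lit 557100) (nat_lit 13) (.e (nat_lit 172106) (nat_lit 10) (.e (nat_lit 434227) (nat_lit 20) (.e (nat_lit 507928) (nat_lit 10) (.e (nat_lit 5773) (nat_lit 316) (.e (nat_lit 172138) (nat_lit 15) .nil))))))) (.g (nat_lit 4) .nil .nil)))))) (.nd (nat_lit 4) (.nd (nat_lit 5) (.nd (nat_lit 6) 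
(.lf (nat_lit 82698) (.g (nat_lit 3635) (.e (nat_lit 1855) (nat_lit 124) (.e (nat_lit 557109) (nat_lit 15) (.e (nat_lit 188452) (nat_lit 23) (.e (nat_lit 204859) (nat_lit 26) .nil)))) .nil)) 
(.lf (nat_lit 82762) (.g (nat_lit 3744) (.e (nat_lit 1856) (nat_lit 124) (.e (nat_lit 557098) (nat_lit 13) (.e (nat_lit 172115) (nat_lit 10) (.e (nat_lit 434231) (nat_lit 23) (.e (nat_lit 532481) (nat_lit 0) (.e (nat_lit 6720) (nat_lit 361) (.e (nat_lit 172133) (nat_lit 15) .nil))))))) (.g (nat_lit 7) .nil .nil)))) (.nd (nat_lit 6) 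
(.lf (nat_lit 82730) (.g (nat_lit 1877) (.e (nat_lit 1855) (nat_lit 124) (.e (nat_lit 557109) (nat_lit 15) (.e (nat_lit 188458) (nat_lit 25) (.e (nat_lit 245791) (nat_lit 14) .nil)))) .nil)) 
(.lf (nat_lit 82794) (.g (nat_lit 1962) (.e (nat_lit 1856) (nat_lit 124) (.e (nat_lit 557100) (nat_lit 13) (.e (nat_lit 172082) (nat_lit 7) (.e (nat_lit 409629) (nat_lit 12) (.e (nat_lit 32809) (nat_lit 20) (.e (nat_lit 188420) (nat_lit 0) .nil)))))) (.g (nat_lit 5) .nil .nil))))) (.nd (nat_lit 5) (.nd (nat_lit 6) 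
(.lf (nat_lit 82714) (.g (nat_lit 3649) (.e (nat_lit 1855) (nat_lit 124) (.e (nat_lit 557109) (nat_lit 15) (.e (nat_lit 188452) (nat_lit 23) (.e (nat_lit 204885) (nat_lit 33) (.e (nat_lit 401434) (nat_lit 9) .nil))))) .nil)) 
(.lf (nat_lit 82778) (.g (nat_lit 3768) (.e (nat_lit 1856) (nat_lit 124) (.e (nat_lit 557098) (nat_lit 13) (.e (nat_lit 172124) (nat_lit 14) (.e (nat_lit 491540) (nat_lit 3) (.e (nat_lit 98370) (nat_lit 28) (.e (nat_lit 442374) (nat_lit 0) .nil)))))) (.g (nat_lit 0) .nil .nil)))) (.nd (nat_lit 6) 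
(.lf (nat_lit 82746) (.g (nat_lit 2628) (.e (nat_lit 1856) (nat_lit 124) (.e (nat_lit 557093) (nat_lit 12) (.e (nat_lit 164058) (nat_lit 56) (.e (nat_lit 786455) (nat_lit 17) (.e (nat_lit 90170) (nat_lit 13) (.e (nat_lit 172067) (nat_lit 3) (.e (nat_lit 204837) (nat_lit 20) (.e (nat_lit 114708) (nat_lit 20) .nil)))))))) (.g (nat_lit 5) .nil .nil))) 
(.lf (nat_lit 82810) (.g (nat_lit 2485) (.e (nat_lit 1856) (nat_lit 124) (.e (nat_lit 557100) (nat_lit 13) (.e (nat_lit 172106) (nat_lit 10) (.e (nat_lit 434227) (nat_lit 20) (.e (nat_lit 507930) (nat_lit 10) (.e (nat_lit 5766) (nat_lit 316) (.e (nat_lit 172133) (nat_lit 15) .nil))))))) (.g (nat_lit 4) .nil .nil))))))) (.nd (nat_lit 3) (.nd (nat_lit 4) (.nd (nat_lit 5) (.nd (nat_lit 6) 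
(.lf (nat_lit 82694) (.g (nat_lit 2666) (.e (nat_lit 1855) (nat_lit 124) (.e (nat_lit 557109) (nat_lit 15) (.e (nat_lit 188452) (nat_lit 23) (.e (nat_lit 204855) (nat_lit 26) (.e (nat_lit 336030) (nat_lit 4) (.e (nat_lit 123198) (nat_lit 266) (.e (nat_lit 57354) (nat_lit 0) .nil))))))) (.g (nat_lit 4) .nil .nil))) 
(.lf (nat_lit 82758) (.g (nat_lit 1911) (.e (nat_lit 1856) (nat_lit 124) (.e (nat_lit 557098) (nat_lit 13) (.e (nat_lit 172112) (nat_lit 10) (.e (nat_lit 434238) (nat_lit 25) (.e (nat_lit 548898) (nat_lit 14) .nil))))) .nil))) (.nd (nat_lit 6) 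
(.lf (nat_lit 82726) (.g (nat_lit 1730) (.e (nat_lit 1855) (nat_lit 124) (.e (nat_lit 557109) (nat_lit 15) (.e (nat_lit 188458) (nat_lit 25) (.e (nat_lit 245784) (nat_lit 9) .nil)))) .nil)) 
(.lf (nat_lit 82790) (.g (nat_lit 496) (.e (nat_lit 1856) (nat_lit 124) (.e (nat_lit 557100) (nat_lit 13) (.e (nat_lit 172079) (nat_lit 7) .nil))) .nil)))) (.nd (nat_lit 5) (.nd (nat_lit 6) 
(.lf (nat_lit 82710) (.g (nat_lit 4273) (.e (nat_lit 1855) (nat_lit 124) (.e (nat_lit 557109) (nat_lit 15) (.e (nat_lit 188452) (nat_lit 23) (.e (nat_lit 204881) (nat_lit 32) (.e (nat_lit 385103) (nat_lit 50) .nil))))) .nil)) 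
(.lf (nat_lit 82774) (.g (nat_lit 3410) (.e (nat_lit 1856) (nat_lit 124) (.e (nat_lit 557098) (nat_lit 13) (.e (nat_lit 172120) (nat_lit 12) (.e (nat_lit 475185) (nat_lit 29) (.e (nat_lit 557107) (nat_lit 15) (.e (nat_lit 188418) (nat_lit 0) .nil)))))) (.g (nat_lit 6) .nil .nil)))) (.nd (nat_lit 6) 
(.lf (nat_lit 82742) (.g (nat_lit 1377) (.e (nat_lit 1856) (nat_lit 124) (.e (nat_lit 557093) (nat_lit 12) (.e (nat_lit 164022) (nat_lit 46) (.e (nat_lit 704737) (nat_lit 11) .nil)))) .nil)) 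
(.lf (nat_lit 82806) (.g (nat_lit 2452) (.e (nat_lit 1856) (nat_lit 124) (.e (nat_lit 557100) (nat_lit 13) (.e (nat_lit 172106) (nat_lit 10) (.e (nat_lit 434227) (nat_lit 20) (.e (nat_lit 507929) (nat_lit 10) (.e (nat_lit 5770) (nat_lit 316) (.e (nat_lit 172133) (nat_lit 15) .nil))))))) (.g (nat_lit 4) .nil .nil)))))) (.nd (nat_lit 4) (.nd (nat_lit 5) (.nd (nat_lit 6) 
(.lf (nat_lit 82702) (.g (nat_lit 1818) (.e (nat_lit 1855) (nat_lit 124) (.e (nat_lit 557109) (nat_lit 15) (.e (nat_lit 188452) (nat_lit 23) (.e (nat_lit 204863) (nat_lit 27) .nil)))) .nil)) 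
(.lf (nat_lit 82766) (.g (nat_lit 3403) (.e (nat_lit 1856) (nat_lit 124) (.e (nat_lit 557098) (nat_lit 13) (.e (nat_lit 172115) (nat_lit 10) (.e (nat_lit 434231) (nat_lit 23) (.e (nat_lit 532569) (nat_lit 16) (.e (nat_lit 401444) (nat_lit 9) (.e (nat_lit 426419) (nat_lit 15) .nil))))))) (.g (nat_lit 7) .nil .nil)))) (.nd (nat_lit 6) 
(.lf (nat_lit 82734) (.g (nat_lit 1544) (.e (nat_lit 1855) (nat_lit 124) (.e (nat_lit 557109) (nat_lit 15) (.e (nat_lit 188461) (nat_lit 26) (.e (nat_lit 253986) (nat_lit 10) .nil)))) .nil)) 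
(.lf (nat_lit 82798) (.g (nat_lit 1301) (.e (nat_lit 1856) (nat_lit 124) (.e (nat_lit 557100) (nat_lit 13) (.e (nat_lit 172106) (nat_lit 10) (.e (nat_lit 434227) (nat_lit 20) .nil)))) .nil)))) (.nd (nat_lit 5) (.nd (nat_lit 6) 
(.lf (nat_lit 82718) (.g (nat_lit 4260) (.e (nat_lit 1855) (nat_lit 124) (.e (nat_lit 557109) (nat_lit 15) (.e (nat_lit 188452) (nat_lit 23) (.e (nat_lit 204885) (nat_lit 33) (.e (nat_lit 401435) (nat_lit 9) (.e (nat_lit 426399) (nat_lit 15) .nil)))))) (.g (nat_lit 5) .nil .nil))) 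
(.lf (nat_lit 82782) (.g (nat_lit 2314) (.e (nat_lit 1856) (nat_lit 124) (.e (nat_lit 557098) (nat_lit 13) (.e (nat_lit 172126) (nat_lit 14) (.e (nat_lit 491540) (nat_lit 3) (.e (nat_lit 98370) (nat_lit 28) .nil))))) .nil))) (.nd (nat_lit 6) 
(.lf (nat_lit 82750) (.g (nat_lit 2715) (.e (nat_lit 1856) (nat_lit 124) (.e (nat_lit 557096) (nat_lit 13) (.e (nat_lit 172126) (nat_lit 14) (.e (nat_lit 491537) (nat_lit 2) (.e (nat_lit 90178) (nat_lit 15) (.e (nat_lit 188418) (nat_lit 0) .nil)))))) (.g (nat_lit 5) .nil .nil))) 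
(.lf (nat_lit 82814) (.g (nat_lit 1915) (.e (nat_lit 1856) (nat_lit 124) (.e (nat_lit 557100) (nat_lit 13) (.e (nat_lit 172106) (nat_lit 10) (.e (nat_lit 434227) (nat_lit 20) (.e (nat_lit 507930) (nat_lit 10) (.e (nat_lit 5772) (nat_lit 316) (.e (nat_lit 172138) (nat_lit 15) .nil))))))) (.g (nat_lit 4) .nil .nil))))))))) 
(.nd (nat_lit 1) (.nd (nat_lit 2) (.nd (nat_lit 3) (.nd (nat_lit 4) (.nd (nat_lit 5) 
(.nd (nat_lit 6) 
(.lf (nat_lit 82689) (.g (nat_lit 3279) (.e (nat_lit 1855) (nat_lit 124) (.e (nat_lit 557109) (nat_lit 15) (.e (nat_lit 188452) (nat_lit 23) (.e (nat_lit 204852) (nat_lit 26) .nil)))) .nil)) 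
(.lf (nat_lit 82753) (.g (nat_lit 2781) (.e (nat_lit 1856) (nat_lit 124) (.e (nat_lit 557096) (nat_lit 13) (.e (nat_lit 172126) (nat_lit 14) (.e (nat_lit 491540) (nat_lit 3) (.e (nat_lit 98380) (nat_lit 31) (.e (nat_lit 466947) (nat_lit 0) .nil)))))) (.g (nat_lit 0) .nil .nil)))) (.nd (nat_lit 6) 
(.lf (nat_lit 82721) (.g (nat_lit 3643) (.e (nat_lit 1855) (nat_lit 124) (.e (nat_lit 557109) (nat_lit 15) (.e (nat_lit 188452) (nat_lit 23) (.e (nat_lit 204885) (nat_lit 33) (.e (nat_lit 401444) (nat_lit 9) .nil))))) .nil)) 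
(.lf (nat_lit 82785) (.g (nat_lit 650) (.e (nat_lit 1856) (nat_lit 124) (.e (nat_lit 557100) (nat_lit 13) (.e (nat_lit 172033) (nat_lit 0) .nil))) .nil)))) (.nd (nat_lit 5) (.nd (nat_lit 6) 
(.lf (nat_lit 82705) (.g (nat_lit 2497) (.e (nat_lit 1855) (nat_lit 124) (.e (nat_lit 557109) (nat_lit 15) (.e (nat_lit 188452) (nat_lit 23) (.e (nat_lit 204864) (nat_lit 27) .nil)))) .nil)) 
(.lf (nat_lit 82769) (.g (nat_lit 2824) (.e (nat_lit 1856) (nat_lit 124) (.e (nat_lit 557098) (nat_lit 13) (.e (nat_lit 172118) (nat_lit 12) (.e (nat_lit 475185) (nat_lit 29) (.e (nat_lit 557109) (nat_lit 15) .nil))))) .nil))) (.nd (nat_lit 6) 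
(.lf (nat_lit 82737) (.g (nat_lit 2351) (.e (nat_lit 1856) (nat_lit 124) (.e (nat_lit 557070) (nat_lit 9) (.e (nat_lit 2744) (nat_lit 174) (.e (nat_lit 253991) (nat_lit 11) (.e (nat_lit 16415) (nat_lit 3) .nil))))) .nil)) 
(.lf (nat_lit 82801) (.g (nat_lit 1802) (.e (nat_lit 1856) (nat_lit 124) (.e (nat_lit 557100) (nat_lit 13) (.e (nat_lit 172106) (nat_lit 10) (.e (nat_lit 434227) (nat_lit 20) (.e (nat_lit 507928) (nat_lit 10) (.e (nat_lit 5772) (nat_lit 316) (.e (nat_lit 172138) (nat_lit 15) .nil))))))) (.g (nat_lit 4) .nil .nil)))))) (.nd (nat_lit 4) (.nd (nat_lit 5) (.nd (nat_lit 6) 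
(.lf (nat_lit 82697) (.g (nat_lit 3845) (.e (nat_lit 1855) (nat_lit 124) (.e (nat_lit 557109) (nat_lit 15) (.e (nat_lit 188452) (nat_lit 23) (.e (nat_lit 204858) (nat_lit 26) .nil)))) .nil)) 
(.lf (nat_lit 82761) (.g (nat_lit 2737) (.e (nat_lit 1856) (nat_lit 124) (.e (nat_lit 557098) (nat_lit 13) (.e (nat_lit 172115) (nat_lit 10) (.e (nat_lit 434227) (nat_lit 20) (.e (nat_lit 507930) (nat_lit 10) (.e (nat_lit 5772) (nat_lit 316) (.e (nat_lit 172133) (nat_lit 15) .nil))))))) (.g (nat_lit 7) .nil .nil)))) (.nd (nat_lit 6) 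
(.lf (nat_lit 82729) (.g (nat_lit 2243) (.e (nat_lit 1855) (nat_lit 124) (.e (nat_lit 557109) (nat_lit 15) (.e (nat_lit 188458) (nat_lit 25) (.e (nat_lit 245790) (nat_lit 13) (.e (nat_lit 65574) (nat_lit 4) .nil))))) .nil)) 
(.lf (nat_lit 82793) (.g (nat_lit 1885) (.e (nat_lit 1856) (nat_lit 124) (.e (nat_lit 557100) (nat_lit 13) (.e (nat_lit 172082) (nat_lit 7) (.e (nat_lit 409629) (nat_lit 12) (.e (nat_lit 32809) (nat_lit 20) (.e (nat_lit 188418) (nat_lit 0) .nil)))))) (.g (nat_lit 4) .nil .nil))))) (.nd (nat_lit 5) (.nd (nat_lit 6) 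
(.lf (nat_lit 82713) (.g (nat_lit 5267) (.e (nat_lit 1855) (nat_lit 124) (.e (nat_lit 557109) (nat_lit 15) (.e (nat_lit 188452) (nat_lit 23) (.e (nat_lit 204884) (nat_lit 33) (.e (nat_lit 401437) (nat_lit 9) (.e (nat_lit 426402) (nat_lit 15) .nil)))))) (.g (nat_lit 4) .nil .nil))) 
(.lf (nat_lit 82777) (.g (nat_lit 2714) (.e (nat_lit 1856) (nat_lit 124) (.e (nat_lit 557098) (nat_lit 13) (.e (nat_lit 172124) (nat_lit 14) (.e (nat_lit 491537) (nat_lit 2) (.e (nat_lit 90178) (nat_lit 15) .nil))))) .nil))) (.nd (nat_lit 6) 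
(.lf (nat_lit 82745) (.g (nat_lit 4650) (.e (nat_lit 1856) (nat_lit 124) (.e (nat_lit 557093) (nat_lit 12) (.e (nat_lit 164023) (nat_lit 46) (.e (nat_lit 704737) (nat_lit 11) (.e (nat_lit 16416) (nat_lit 3) (.e (nat_lit 204877) (nat_lit 31) (.e (nat_lit 376855) (nat_lit 20) .nil))))))) (.g (nat_lit 7) .nil .nil))) 
(.lf (nat_lit 82809) (.g (nat_lit 2924) (.e (nat_lit 1856) (nat_lit 124) (.e (nat_lit 557100) (nat_lit 13) (.e (nat_lit 172106) (nat_lit 10) (.e (nat_lit 434227) (nat_lit 20) (.e (nat_lit 507929) (nat_lit 10) (.e (nat_lit 5773) (nat_lit 316) (.e (nat_lit 172138) (nat_lit 15) .nil))))))) (.g (nat_lit 0) .nil .nil))))))) (.nd (nat_lit 3) (.nd (nat_lit 4) (.nd (nat_lit 5) (.nd (nat_lit 6) 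
(.lf (nat_lit 82693) (.g (nat_lit 2616) (.e (nat_lit 1855) (nat_lit 124) (.e (nat_lit 557109) (nat_lit 15) (.e (nat_lit 188452) (nat_lit 23) (.e (nat_lit 204855) (nat_lit 26) (.e (nat_lit 336030) (nat_lit 4) .nil))))) .nil)) 
(.lf (nat_lit 82757) (.g (nat_lit 1147) (.e (nat_lit 1856) (nat_lit 124) (.e (nat_lit 557098) (nat_lit 13) (.e (nat_lit 172081) (nat_lit 7) (.e (nat_lit 409631) (nat_lit 12) .nil)))) .nil))) (.nd (nat_lit 6) 
(.lf (nat_lit 82725) (.g (nat_lit 1607) (.e (nat_lit 1855) (nat_lit 124) (.e (nat_lit 557109) (nat_lit 15) (.e (nat_lit 188455) (nat_lit 24) (.e (nat_lit 237312) (nat_lit 138) .nil)))) .nil)) 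
(.lf (nat_lit 82789) (.g (nat_lit 650) (.e (nat_lit 1856) (nat_lit 124) (.e (nat_lit 557100) (nat_lit 13) (.e (nat_lit 172078) (nat_lit 7) .nil))) .nil)))) (.nd (nat_lit 5) (.nd (nat_lit 6) 
(.lf (nat_lit 82709) (.g (nat_lit 3263) (.e (nat_lit 1855) (nat_lit 124) (.e (nat_lit 557109) (nat_lit 15) (.e (nat_lit 188452) (nat_lit 23) (.e (nat_lit 204880) (nat_lit 32) .nil)))) .nil)) 
(.lf (nat_lit 82773) (.g (nat_lit 2075) (.e (nat_lit 1856) (nat_lit 124) (.e (nat_lit 557098) (nat_lit 13) (.e (nat_lit 172120) (nat_lit 12) (.e (nat_lit 475184) (nat_lit 29) .nil)))) .nil))) (.nd (nat_lit 6) 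
(.lf (nat_lit 82741) (.g (nat_lit 2465) (.e (nat_lit 1856) (nat_lit 124) (.e (nat_lit 557093) (nat_lit 12) (.e (nat_lit 164018) (nat_lit 45) (.e (nat_lit 696344) (nat_lit 8) (.e (nat_lit 172067) (nat_lit 3) (.e (nat_lit 204877) (nat_lit 31) (.e (nat_lit 376855) (nat_lit 20) .nil))))))) (.g (nat_lit 5) .nil .nil))) 
(.lf (nat_lit 82805) (.g (nat_lit 3318) (.e (nat_lit 1856) (nat_lit 124) (.e (nat_lit 557100) (nat_lit 13) (.e (nat_lit 172106) (nat_lit 10) (.e (nat_lit 434227) (nat_lit 20) (.e (nat_lit 507929) (nat_lit 10) (.e (nat_lit 5768) (nat_lit 316) (.e (nat_lit 172137) (nat_lit 15) .nil))))))) (.g (nat_lit 0) .nil .nil)))))) (.nd (nat_lit 4) (.nd (nat_lit 5) (.nd (nat_lit 6) 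
(.lf (nat_lit 82701) (.g (nat_lit 1840) (.e (nat_lit 1855) (nat_lit 124) (.e (nat_lit 557109) (nat_lit 15) (.e (nat_lit 188452) (nat_lit 23) (.e (nat_lit 204862) (nat_lit 27) .nil)))) .nil)) 
(.lf (nat_lit 82765) (.g (nat_lit 4151) (.e (nat_lit 1856) (nat_lit 124) (.e (nat_lit 557098) (nat_lit 13) (.e (nat_lit 172115) (nat_lit 10) (.e (nat_lit 434231) (nat_lit 23) (.e (nat_lit 532569) (nat_lit 16) (.e (nat_lit 401440) (nat_lit 9) (.e (nat_lit 426396) (nat_lit 15) .nil))))))) (.g (nat_lit 0) .nil .nil)))) (.nd (nat_lit 6) 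
(.lf (nat_lit 82733) (.g (nat_lit 1503) (.e (nat_lit 1855) (nat_lit 124) (.e (nat_lit 557109) (nat_lit 15) (.e (nat_lit 188461) (nat_lit 26) (.e (nat_lit 253985) (nat_lit 10) .nil)))) .nil)) 
(.lf (nat_lit 82797) (.g (nat_lit 2050) (.e (nat_lit 1856) (nat_lit 124) (.e (nat_lit 557100) (nat_lit 13) (.e (nat_lit 172106) (nat_lit 10) (.e (nat_lit 434219) (nat_lit 19) (.e (nat_lit 499725) (nat_lit 0) .nil))))) .nil)))) (.nd (nat_lit 5) (.nd (nat_lit 6) 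
(.lf (nat_lit 82717) (.g (nat_lit 4174) (.e (nat_lit 1855) (nat_lit 124) (.e (nat_lit 557109) (nat_lit 15) (.e (nat_lit 188452) (nat_lit 23) (.e (nat_lit 204885) (nat_lit 33) (.e (nat_lit 401434) (nat_lit 9) (.e (nat_lit 426414) (nat_lit 15) .nil)))))) (.g (nat_lit 4) .nil .nil))) 
(.lf (nat_lit 82781) (.g (nat_lit 1745) (.e (nat_lit 1856) (nat_lit 124) (.e (nat_lit 557098) (nat_lit 13) (.e (nat_lit 172126) (nat_lit 14) (.e (nat_lit 491539) (nat_lit 3) .nil)))) .nil))) (.nd (nat_lit 6) 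
(.lf (nat_lit 82749) (.g (nat_lit 678) (.e (nat_lit 1856) (nat_lit 124) (.e (nat_lit 557096) (nat_lit 13) (.e (nat_lit 172120) (nat_lit 12) (.e (nat_lit 475185) (nat_lit 29) .nil)))) .nil)) 
(.lf (nat_lit 82813) (.g (nat_lit 3546) (.e (nat_lit 1856) (nat_lit 124) (.e (nat_lit 557100) (nat_lit 13) (.e (nat_lit 172106) (nat_lit 10) (.e (nat_lit 434227) (nat_lit 20) (.e (nat_lit 507930) (nat_lit 10) (.e (nat_lit 5772) (nat_lit 316) (.e (nat_lit 172133) (nat_lit 15) .nil))))))) (.g (nat_lit 0) .nil .nil)))))))) 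
(.nd (nat_lit 2) (.nd (nat_lit 3) (.nd (nat_lit 4) (.nd (nat_lit 5) (.nd (nat_lit 6) 
(.lf (nat_lit 82691) (.g (nat_lit 3606) (.e (nat_lit 1855) (nat_lit 124) (.e (nat_lit 557109) (nat_lit 15) (.e (nat_lit 188452) (nat_lit 23) (.e (nat_lit 204853) (nat_lit 26) .nil)))) .nil)) 
(.lf (nat_lit 82755) (.g (nat_lit 1593) (.e (nat_lit 1856) (nat_lit 124) (.e (nat_lit 557097) (nat_lit 13) (.e (nat_lit 172115) (nat_lit 10) (.e (nat_lit 434238) (nat_lit 25) .nil)))) .nil))) (.nd (nat_lit 6) 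
(.lf (nat_lit 82723) (.g (nat_lit 1232) (.e (nat_lit 1855) (nat_lit 124) (.e (nat_lit 557109) (nat_lit 15) (.e (nat_lit 188453) (nat_lit 24) .nil))) .nil)) 
(.lf (nat_lit 82787) (.g (nat_lit 650) (.e (nat_lit 1856) (nat_lit 124) (.e (nat_lit 557100) (nat_lit 13) (.e (nat_lit 172041) (nat_lit 0) .nil))) .nil)))) (.nd (nat_lit 5) (.nd (nat_lit 6) 
(.lf (nat_lit 82707) (.g (nat_lit 3616) (.e (nat_lit 1855) (nat_lit 124) (.e (nat_lit 557109) (nat_lit 15) (.e (nat_lit 188452) (nat_lit 23) (.e (nat_lit 204873) (nat_lit 30) .nil)))) .nil)) 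
(.lf (nat_lit 82771) (.g (nat_lit 3010) (.e (nat_lit 1856) (nat_lit 124) (.e (nat_lit 557098) (nat_lit 13) (.e (nat_lit 172119) (nat_lit 12) (.e (nat_lit 475185) (nat_lit 29) (.e (nat_lit 557107) (nat_lit 15) (.e (nat_lit 188420) (nat_lit 0) .nil)))))) (.g (nat_lit 4) .nil .nil)))) (.nd (nat_lit 6) 
(.lf (nat_lit 82739) (.g (nat_lit 637) (.e (nat_lit 1856) (nat_lit 124) (.e (nat_lit 557087) (nat_lit 11) (.e (nat_lit 24662) (nat_lit 14) .nil))) .nil)) 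
(.lf (nat_lit 82803) (.g (nat_lit 1649) (.e (nat_lit 1856) (nat_lit 124) (.e (nat_lit 557100) (nat_lit 13) (.e (nat_lit 172106) (nat_lit 10) (.e (nat_lit 434227) (nat_lit 20) (.e (nat_lit 507929) (nat_lit 10) .nil))))) .nil))))) (.nd (nat_lit 4) (.nd (nat_lit 5) (.nd (nat_lit 6) 
(.lf (nat_lit 82699) (.g (nat_lit 3688) (.e (nat_lit 1855) (nat_lit 124) (.e (nat_lit 557109) (nat_lit 15) (.e (nat_lit 188452) (nat_lit 23) (.e (nat_lit 204861) (nat_lit 26) .nil)))) .nil)) 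
(.lf (nat_lit 82763) (.g (nat_lit 3476) (.e (nat_lit 1856) (nat_lit 124) (.e (nat_lit 557098) (nat_lit 13) (.e (nat_lit 172115) (nat_lit 10) (.e (nat_lit 434231) (nat_lit 23) (.e (nat_lit 532482) (nat_lit 0) (.e (nat_lit 6720) (nat_lit 361) (.e (nat_lit 172133) (nat_lit 15) .nil))))))) (.g (nat_lit 7) .nil .nil)))) (.nd (nat_lit 6) 
(.lf (nat_lit 82731) (.g (nat_lit 1647) (.e (nat_lit 1855) (nat_lit 124) (.e (nat_lit 557109) (nat_lit 15) (.e (nat_lit 188458) (nat_lit 25) (.e (nat_lit 253696) (nat_lit 21) .nil)))) .nil)) 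
(.lf (nat_lit 82795) (.g (nat_lit 2268) (.e (nat_lit 1856) (nat_lit 124) (.e (nat_lit 557100) (nat_lit 13) (.e (nat_lit 172082) (nat_lit 7) (.e (nat_lit 409630) (nat_lit 12) (.e (nat_lit 32809) (nat_lit 20) (.e (nat_lit 188418) (nat_lit 0) .nil)))))) (.g (nat_lit 6) .nil .nil))))) (.nd (nat_lit 5) (.nd (nat_lit 6) 
(.lf (nat_lit 82715) (.g (nat_lit 4984) (.e (nat_lit 1855) (nat_lit 124) (.e (nat_lit 557109) (nat_lit 15) (.e (nat_lit 188452) (nat_lit 23) (.e (nat_lit 204885) (nat_lit 33) (.e (nat_lit 401434) (nat_lit 9) (.e (nat_lit 426399) (nat_lit 15) .nil)))))) (.g (nat_lit 5) .nil .nil))) 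
(.lf (nat_lit 82779) (.g (nat_lit 3211) (.e (nat_lit 1856) (nat_lit 124) (.e (nat_lit 557098) (nat_lit 13) (.e (nat_lit 172126) (nat_lit 14) (.e (nat_lit 491537) (nat_lit 2) (.e (nat_lit 90176) (nat_lit 15) (.e (nat_lit 188420) (nat_lit 0) .nil)))))) (.g (nat_lit 5) .nil .nil)))) (.nd (nat_lit 6) 
(.lf (nat_lit 82747) (.g (nat_lit 1969) (.e (nat_lit 1856) (nat_lit 124) (.e (nat_lit 557095) (nat_lit 13) (.e (nat_lit 172126) (nat_lit 14) (.e (nat_lit 491540) (nat_lit 3) (.e (nat_lit 98370) (nat_lit 28) (.e (nat_lit 442374) (nat_lit 0) .nil)))))) (.g (nat_lit 4) .nil .nil))) 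
(.lf (nat_lit 82811) (.g (nat_lit 3315) (.e (nat_lit 1856) (nat_lit 124) (.e (nat_lit 557100) (nat_lit 13) (.e (nat_lit 172106) (nat_lit 10) (.e (nat_lit 434227) (nat_lit 20) (.e (nat_lit 507930) (nat_lit 10) (.e (nat_lit 5768) (nat_lit 316) (.e (nat_lit 172137) (nat_lit 15) .nil))))))) (.g (nat_lit 0) .nil .nil))))))) (.nd (nat_lit 3) (.nd (nat_lit 4) (.nd (nat_lit 5) (.nd (nat_lit 6) 
(.lf (nat_lit 82695) (.g (nat_lit 3099) (.e (nat_lit 1855) (nat_lit 124) (.e (nat_lit 557109) (nat_lit 15) (.e (nat_lit 188452) (nat_lit 23) (.e (nat_lit 204855) (nat_lit 26) (.e (nat_lit 336034) (nat_lit 4) .nil))))) .nil)) 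
(.lf (nat_lit 82759) (.g (nat_lit 2681) (.e (nat_lit 1856) (nat_lit 124) (.e (nat_lit 557098) (nat_lit 13) (.e (nat_lit 172115) (nat_lit 10) (.e (nat_lit 434227) (nat_lit 20) (.e (nat_lit 507928) (nat_lit 10) (.e (nat_lit 5772) (nat_lit 316) (.e (nat_lit 172133) (nat_lit 15) .nil))))))) (.g (nat_lit 7) .nil .nil)))) (.nd (nat_lit 6) 
(.lf (nat_lit 82727) (.g (nat_lit 1853) (.e (nat_lit 1855) (nat_lit 124) (.e (nat_lit 557109) (nat_lit 15) (.e (nat_lit 188458) (nat_lit 25) (.e (nat_lit 245786) (nat_lit 9) .nil)))) .nil)) 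
(.lf (nat_lit 82791) (.g (nat_lit 858) (.e (nat_lit 1856) (nat_lit 124) (.e (nat_lit 557100) (nat_lit 13) (.e (nat_lit 172080) (nat_lit 7) (.e (nat_lit 409631) (nat_lit 12) .nil)))) .nil)))) (.nd (nat_lit 5) (.nd (nat_lit 6) 
(.lf (nat_lit 82711) (.g (nat_lit 4299) (.e (nat_lit 1855) (nat_lit 124) (.e (nat_lit 557109) (nat_lit 15) (.e (nat_lit 188452) (nat_lit 23) (.e (nat_lit 204881) (nat_lit 32) (.e (nat_lit 385104) (nat_lit 50) (.e (nat_lit 786447) (nat_lit 15) .nil)))))) (.g (nat_lit 4) .nil .nil))) 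
(.lf (nat_lit 82775) (.g (nat_lit 3314) (.e (nat_lit 1856) (nat_lit 124) (.e (nat_lit 557098) (nat_lit 13) (.e (nat_lit 172120) (nat_lit 12) (.e (nat_lit 475185) (nat_lit 29) (.e (nat_lit 557107) (nat_lit 15) (.e (nat_lit 188420) (nat_lit 0) .nil)))))) (.g (nat_lit 5) .nil .nil)))) (.nd (nat_lit 6) 
(.lf (nat_lit 82743) (.g (nat_lit 4696) (.e (nat_lit 1856) (nat_lit 124) (.e (nat_lit 557093) (nat_lit 12) (.e (nat_lit 164022) (nat_lit 46) (.e (nat_lit 704738) (nat_lit 11) (.e (nat_lit 16416) (nat_lit 3) (.e (nat_lit 204876) (nat_lit 31) (.e (nat_lit 376855) (nat_lit 20) .nil))))))) (.g (nat_lit 5) .nil .nil))) 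
(.lf (nat_lit 82807) (.g (nat_lit 1946) (.e (nat_lit 1856) (nat_lit 124) (.e (nat_lit 557100) (nat_lit 13) (.e (nat_lit 172106) (nat_lit 10) (.e (nat_lit 434227) (nat_lit 20) (.e (nat_lit 507929) (nat_lit 10) (.e (nat_lit 5770) (nat_lit 316) (.e (nat_lit 172138) (nat_lit 15) .nil))))))) (.g (nat_lit 4) .nil .nil)))))) (.nd (nat_lit 4) (.nd (nat_lit 5) (.nd (nat_lit 6) 
(.lf (nat_lit 82703) (.g (nat_lit 2805) (.e (nat_lit 1855) (nat_lit 124) (.e (nat_lit 557109) (nat_lit 15) (.e (nat_lit 188452) (nat_lit 23) (.e (nat_lit 204863) (nat_lit 27) (.e (nat_lit 344103) (nat_lit 18) .nil))))) .nil)) 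
(.lf (nat_lit 82767) (.g (nat_lit 2438) (.e (nat_lit 1856) (nat_lit 124) (.e (nat_lit 557098) (nat_lit 13) (.e (nat_lit 172115) (nat_lit 10) (.e (nat_lit 434244) (nat_lit 28) (.e (nat_lit 573471) (nat_lit 11) (.e (nat_lit 16446) (nat_lit 9) (.e (nat_lit 426413) (nat_lit 15) .nil))))))) (.g (nat_lit 4) .nil .nil)))) (.nd (nat_lit 6) 
(.lf (nat_lit 82735) (.g (nat_lit 2388) (.e (nat_lit 1855) (nat_lit 124) (.e (nat_lit 557109) (nat_lit 15) (.e (nat_lit 188461) (nat_lit 26) (.e (nat_lit 253986) (nat_lit 10) (.e (nat_lit 8277) (nat_lit 47) (.e (nat_lit 794683) (nat_lit 25) (.e (nat_lit 221187) (nat_lit 0) .nil))))))) (.g (nat_lit 4) .nil .nil))) 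
(.lf (nat_lit 82799) (.g (nat_lit 1640) (.e (nat_lit 1856) (nat_lit 124) (.e (nat_lit 557100) (nat_lit 13) (.e (nat_lit 172106) (nat_lit 10) (.e (nat_lit 434227) (nat_lit 20) (.e (nat_lit 507928) (nat_lit 10) .nil))))) .nil)))) (.nd (nat_lit 5) (.nd (nat_lit 6) 
(.lf (nat_lit 82719) (.g (nat_lit 4259) (.e (nat_lit 1855) (nat_lit 124) (.e (nat_lit 557109) (nat_lit 15) (.e (nat_lit 188452) (nat_lit 23) (.e (nat_lit 204885) (nat_lit 33) (.e (nat_lit 401440) (nat_lit 9) (.e (nat_lit 433920) (nat_lit 15) .nil)))))) (.g (nat_lit 5) .nil .nil))) 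
(.lf (nat_lit 82783) (.g (nat_lit 3766) (.e (nat_lit 1856) (nat_lit 124) (.e (nat_lit 557098) (nat_lit 13) (.e (nat_lit 172126) (nat_lit 14) (.e (nat_lit 491540) (nat_lit 3) (.e (nat_lit 98370) (nat_lit 28) (.e (nat_lit 442374) (nat_lit 0) .nil)))))) (.g (nat_lit 6) .nil .nil)))) (.nd (nat_lit 6) 
(.lf (nat_lit 82751) (.g (nat_lit 1975) (.e (nat_lit 1856) (nat_lit 124) (.e (nat_lit 557096) (nat_lit 13) (.e (nat_lit 172126) (nat_lit 14) (.e (nat_lit 491540) (nat_lit 3) (.e (nat_lit 98370) (nat_lit 28) (.e (nat_lit 442377) (nat_lit 0) .nil)))))) (.g (nat_lit 4) .nil .nil))) 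
(.lf (nat_lit 82815) (.g (nat_lit 2998) (.e (nat_lit 1856) (nat_lit 124) (.e (nat_lit 557100) (nat_lit 13) (.e (nat_lit 172106) (nat_lit 10) (.e (nat_lit 434227) (nat_lit 20) (.e (nat_lit 507930) (nat_lit 10) (.e (nat_lit 5773) (nat_lit 316) (.e (nat_lit 172138) (nat_lit 15) .nil))))))) (.g (nat_lit 0) .nil .nil))))))))))

noncomputable def tv1120 : DT := (.nd (nat_lit 0) (.nd (nat_lit 1) (.nd (nat_lit 2) (.nd (nat_lit 3) (.nd (nat_lit 4) (.nd (nat_lit 5) 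
(.lf (nat_lit 82816) (.g (nat_lit 4015) (.e (nat_lit 1856) (nat_lit 124) (.e (nat_lit 557100) (nat_lit 13) (.e (nat_lit 172106) (nat_lit 10) (.e (nat_lit 434231) (nat_lit 23) (.e (nat_lit 532481) (nat_lit 0) (.e (nat_lit 6718) (nat_lit 361) (.e (nat_lit 172133) (nat_lit 15) .nil))))))) (.g (nat_lit 5) .nil .nil))) 
(.lf (nat_lit 82848) (.g (nat_lit 2877) (.e (nat_lit 1856) (nat_lit 124) (.e (nat_lit 557100) (nat_lit 13) (.e (nat_lit 172106) (nat_lit 10) (.e (nat_lit 434244) (nat_lit 28) (.e (nat_lit 573449) (nat_lit 9) (.e (nat_lit 460) (nat_lit 34) (.e (nat_lit 442379) (nat_lit 0) .nil))))))) (.g (nat_lit 4) .nil .nil)))) (.nd (nat_lit 5) 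
(.lf (nat_lit 82832) (.g (nat_lit 3158) (.e (nat_lit 1856) (nat_lit 124) (.e (nat_lit 557100) (nat_lit 13) (.e (nat_lit 172106) (nat_lit 10) (.e (nat_lit 434231) (nat_lit 23) (.e (nat_lit 532563) (nat_lit 15) (.e (nat_lit 385106) (nat_lit 50) (.e (nat_lit 786451) (nat_lit 15) .nil))))))) (.g (nat_lit 5) .nil .nil))) 
(.lf (nat_lit 82864) (.g (nat_lit 650) (.e (nat_lit 1856) (nat_lit 124) (.e (nat_lit 557100) (nat_lit 13) (.e (nat_lit 172112) (nat_lit 10) .nil))) .nil)))) (.nd (nat_lit 4) (.nd (nat_lit 5) 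
(.lf (nat_lit 82824) (.g (nat_lit 2520) (.e (nat_lit 1856) (nat_lit 124) (.e (nat_lit 557100) (nat_lit 13) (.e (nat_lit 172106) (nat_lit 10) (.e (nat_lit 434231) (nat_lit 23) (.e (nat_lit 532490) (nat_lit 0) (.e (nat_lit 7936) (nat_lit 364) (.e (nat_lit 237628) (nat_lit 15) .nil))))))) (.g (nat_lit 4) .nil .nil))) 
(.lf (nat_lit 82856) (.g (nat_lit 3613) (.e (nat_lit 1856) (nat_lit 124) (.e (nat_lit 557100) (nat_lit 13) (.e (nat_lit 172106) (nat_lit 10) (.e (nat_lit 434244) (nat_lit 28) (.e (nat_lit 573458) (nat_lit 9) (.e (nat_lit 7936) (nat_lit 37) (.e (nat_lit 466947) (nat_lit 0) .nil))))))) (.g (nat_lit 5) .nil .nil)))) (.nd (nat_lit 5) 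
(.lf (nat_lit 82840) (.g (nat_lit 1862) (.e (nat_lit 1856) (nat_lit 124) (.e (nat_lit 557100) (nat_lit 13) (.e (nat_lit 172106) (nat_lit 10) (.e (nat_lit 434238) (nat_lit 25) (.e (nat_lit 548898) (nat_lit 14) .nil))))) .nil)) 
(.lf (nat_lit 82872) (.g (nat_lit 2049) (.e (nat_lit 1856) (nat_lit 124) (.e (nat_lit 557100) (nat_lit 13) (.e (nat_lit 172113) (nat_lit 10) (.e (nat_lit 434227) (nat_lit 20) (.e (nat_lit 507929) (nat_lit 10) (.e (nat_lit 5770) (nat_lit 316) (.e (nat_lit 172133) (nat_lit 15) .nil))))))) (.g (nat_lit 4) .nil .nil)))))) (.nd (nat_lit 3) (.nd (nat_lit 4) (.nd (nat_lit 5) 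
(.lf (nat_lit 82820) (.g (nat_lit 2767) (.e (nat_lit 1856) (nat_lit 124) (.e (nat_lit 557100) (nat_lit 13) (.e (nat_lit 172106) (nat_lit 10) (.e (nat_lit 434231) (nat_lit 23) (.e (nat_lit 532483) (nat_lit 0) (.e (nat_lit 7936) (nat_lit 364) (.e (nat_lit 237629) (nat_lit 15) .nil))))))) (.g (nat_lit 4) .nil .nil))) 
(.lf (nat_lit 82852) (.g (nat_lit 2739) (.e (nat_lit 1856) (nat_lit 124) (.e (nat_lit 557100) (nat_lit 13) (.e (nat_lit 172106) (nat_lit 10) (.e (nat_lit 434244) (nat_lit 28) (.e (nat_lit 573454) (nat_lit 9) (.e (nat_lit 458) (nat_lit 34) (.e (nat_lit 442378) (nat_lit 0) .nil))))))) (.g (nat_lit 4) .nil .nil)))) (.nd (nat_lit 5) 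
(.lf (nat_lit 82836) (.g (nat_lit 2870) (.e (nat_lit 1856) (nat_lit 124) (.e (nat_lit 557100) (nat_lit 13) (.e (nat_lit 172106) (nat_lit 10) (.e (nat_lit 434231) (nat_lit 23) (.e (nat_lit 532569) (nat_lit 16) (.e (nat_lit 401443) (nat_lit 9) (.e (nat_lit 426389) (nat_lit 15) .nil))))))) (.g (nat_lit 4) .nil .nil))) 
(.lf (nat_lit 82868) (.g (nat_lit 1034) (.e (nat_lit 1856) (nat_lit 124) (.e (nat_lit 557100) (nat_lit 13) (.e (nat_lit 172113) (nat_lit 10) (.e (nat_lit 434227) (nat_lit 20) .nil)))) .nil)))) (.nd (nat_lit 4) (.nd (nat_lit 5) 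
(.lf (nat_lit 82828) (.g (nat_lit 2024) (.e (nat_lit 1856) (nat_lit 124) (.e (nat_lit 557100) (nat_lit 13) (.e (nat_lit 172106) (nat_lit 10) (.e (nat_lit 434231) (nat_lit 23) (.e (nat_lit 532562) (nat_lit 15) (.e (nat_lit 385106) (nat_lit 50) (.e (nat_lit 786449) (nat_lit 15) .nil))))))) (.g (nat_lit 4) .nil .nil))) 
(.lf (nat_lit 82860) (.g (nat_lit 2588) (.e (nat_lit 1856) (nat_lit 124) (.e (nat_lit 557100) (nat_lit 13) (.e (nat_lit 172106) (nat_lit 10) (.e (nat_lit 434244) (nat_lit 28) (.e (nat_lit 573471) (nat_lit 11) (.e (nat_lit 16444) (nat_lit 9) (.e (nat_lit 426391) (nat_lit 15) .nil))))))) (.g (nat_lit 4) .nil .nil)))) (.nd (nat_lit 5) 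
(.lf (nat_lit 82844) (.g (nat_lit 1239) (.e (nat_lit 1856) (nat_lit 124) (.e (nat_lit 557100) (nat_lit 13) (.e (nat_lit 172106) (nat_lit 10) (.e (nat_lit 434244) (nat_lit 28) .nil)))) .nil)) 
(.lf (nat_lit 82876) (.g (nat_lit 2036) (.e (nat_lit 1856) (nat_lit 124) (.e (nat_lit 557100) (nat_lit 13) (.e (nat_lit 172113) (nat_lit 10) (.e (nat_lit 434227) (nat_lit 20) (.e (nat_lit 507930) (nat_lit 10) (.e (nat_lit 5766) (nat_lit 316) (.e (nat_lit 172133) (nat_lit 15) .nil))))))) (.g (nat_lit 4) .nil .nil))))))) (.nd (nat_lit 2) (.nd (nat_lit 3) (.nd (nat_lit 4) (.nd (nat_lit 5) 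
(.lf (nat_lit 82818) (.g (nat_lit 2946) (.e (nat_lit 1856) (nat_lit 124) (.e (nat_lit 557100) (nat_lit 13) (.e (nat_lit 172106) (nat_lit 10) (.e (nat_lit 434231) (nat_lit 23) (.e (nat_lit 532483) (nat_lit 0) (.e (nat_lit 7936) (nat_lit 361) (.e (nat_lit 172136) (nat_lit 15) .nil))))))) (.g (nat_lit 4) .nil .nil))) 
(.lf (nat_lit 82850) (.g (nat_lit 2748) (.e (nat_lit 1856) (nat_lit 124) (.e (nat_lit 557100) (nat_lit 13) (.e (nat_lit 172106) (nat_lit 10) (.e (nat_lit 434244) (nat_lit 28) (.e (nat_lit 573451) (nat_lit 9) (.e (nat_lit 7936) (nat_lit 34) (.e (nat_lit 442374) (nat_lit 0) .nil))))))) (.g (nat_lit 4) .nil .nil)))) (.nd (nat_lit 5) 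
(.lf (nat_lit 82834) (.g (nat_lit 3272) (.e (nat_lit 1856) (nat_lit 124) (.e (nat_lit 557100) (nat_lit 13) (.e (nat_lit 172106) (nat_lit 10) (.e (nat_lit 434231) (nat_lit 23) (.e (nat_lit 532569) (nat_lit 16) (.e (nat_lit 401440) (nat_lit 9) (.e (nat_lit 426410) (nat_lit 15) .nil))))))) (.g (nat_lit 5) .nil .nil))) 
(.lf (nat_lit 82866) (.g (nat_lit 1688) (.e (nat_lit 1856) (nat_lit 124) (.e (nat_lit 557100) (nat_lit 13) (.e (nat_lit 172113) (nat_lit 10) (.e (nat_lit 434203) (nat_lit 18) (.e (nat_lit 3948) (nat_lit 239) .nil))))) .nil)))) (.nd (nat_lit 4) (.nd (nat_lit 5) 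
(.lf (nat_lit 82826) (.g (nat_lit 3561) (.e (nat_lit 1856) (nat_lit 124) (.e (nat_lit 557100) (nat_lit 13) (.e (nat_lit 172106) (nat_lit 10) (.e (nat_lit 434231) (nat_lit 23) (.e (nat_lit 532544) (nat_lit 10) (.e (nat_lit 344169) (nat_lit 40) (.e (nat_lit 671751) (nat_lit 0) (.e (nat_lit 1086) (nat_lit 81) .nil)))))))) (.g (nat_lit 6) .nil .nil))) 
(.lf (nat_lit 82858) (.g (nat_lit 2314) (.e (nat_lit 1856) (nat_lit 124) (.e (nat_lit 557100) (nat_lit 13) (.e (nat_lit 172106) (nat_lit 10) (.e (nat_lit 434244) (nat_lit 28) (.e (nat_lit 573471) (nat_lit 11) (.e (nat_lit 16439) (nat_lit 9) (.e (nat_lit 426410) (nat_lit 15) .nil))))))) (.g (nat_lit 4) .nil .nil)))) (.nd (nat_lit 5) 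
(.lf (nat_lit 82842) (.g (nat_lit 3622) (.e (nat_lit 1856) (nat_lit 124) (.e (nat_lit 557100) (nat_lit 13) (.e (nat_lit 172106) (nat_lit 10) (.e (nat_lit 434238) (nat_lit 25) (.e (nat_lit 548915) (nat_lit 20) (.e (nat_lit 188420) (nat_lit 0) .nil)))))) (.g (nat_lit 0) .nil .nil))) 
(.lf (nat_lit 82874) (.g (nat_lit 2372) (.e (nat_lit 1856) (nat_lit 124) (.e (nat_lit 557100) (nat_lit 13) (.e (nat_lit 172113) (nat_lit 10) (.e (nat_lit 434227) (nat_lit 20) (.e (nat_lit 507929) (nat_lit 10) (.e (nat_lit 5773) (nat_lit 316) (.e (nat_lit 172138) (nat_lit 15) .nil))))))) (.g (nat_lit 4) .nil .nil)))))) (.nd (nat_lit 3) (.nd (nat_lit 4) (.nd (nat_lit 5) 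
(.lf (nat_lit 82822) (.g (nat_lit 3882) (.e (nat_lit 1856) (nat_lit 124) (.e (nat_lit 557100) (nat_lit 13) (.e (nat_lit 172106) (nat_lit 10) (.e (nat_lit 434231) (nat_lit 23) (.e (nat_lit 532490) (nat_lit 0) (.e (nat_lit 7936) (nat_lit 361) (.e (nat_lit 172136) (nat_lit 15) .nil))))))) (.g (nat_lit 5) .nil .nil))) 
(.lf (nat_lit 82854) (.g (nat_lit 2204) (.e (nat_lit 1856) (nat_lit 124) (.e (nat_lit 557100) (nat_lit 13) (.e (nat_lit 172106) (nat_lit 10) (.e (nat_lit 434244) (nat_lit 28) (.e (nat_lit 573458) (nat_lit 9) (.e (nat_lit 420) (nat_lit 32) (.e (nat_lit 426261) (nat_lit 9) (.e (nat_lit 426419) (nat_lit 15) .nil)))))))) (.g (nat_lit 4) .nil .nil)))) (.nd (nat_lit 5) 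
(.lf (nat_lit 82838) (.g (nat_lit 1377) (.e (nat_lit 1856) (nat_lit 124) (.e (nat_lit 557100) (nat_lit 13) (.e (nat_lit 172106) (nat_lit 10) (.e (nat_lit 434238) (nat_lit 25) .nil)))) .nil)) 
(.lf (nat_lit 82870) (.g (nat_lit 2017) (.e (nat_lit 1856) (nat_lit 124) (.e (nat_lit 557100) (nat_lit 13) (.e (nat_lit 172113) (nat_lit 10) (.e (nat_lit 434227) (nat_lit 20) (.e (nat_lit 507928) (nat_lit 10) (.e (nat_lit 5773) (nat_lit 316) (.e (nat_lit 172133) (nat_lit 15) .nil))))))) (.g (nat_lit 4) .nil .nil))))) (.nd (nat_lit 4) (.nd (nat_lit 5) 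
(.lf (nat_lit 82830) (.g (nat_lit 2150) (.e (nat_lit 1856) (nat_lit 124) (.e (nat_lit 557100) (nat_lit 13) (.e (nat_lit 172106) (nat_lit 10) (.e (nat_lit 434231) (nat_lit 23) (.e (nat_lit 532563) (nat_lit 15) (.e (nat_lit 385104) (nat_lit 50) (.e (nat_lit 786449) (nat_lit 15) .nil))))))) (.g (nat_lit 4) .nil .nil))) 
(.lf (nat_lit 82862) (.g (nat_lit 3399) (.e (nat_lit 1856) (nat_lit 124) (.e (nat_lit 557100) (nat_lit 13) (.e (nat_lit 172106) (nat_lit 10) (.e (nat_lit 434244) (nat_lit 28) (.e (nat_lit 573471) (nat_lit 11) (.e (nat_lit 16446) (nat_lit 9) (.e (nat_lit 426413) (nat_lit 15) .nil))))))) (.g (nat_lit 6) .nil .nil)))) (.nd (nat_lit 5) 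
(.lf (nat_lit 82846) (.g (nat_lit 2426) (.e (nat_lit 1856) (nat_lit 124) (.e (nat_lit 557100) (nat_lit 13) (.e (nat_lit 172106) (nat_lit 10) (.e (nat_lit 434244) (nat_lit 28) (.e (nat_lit 573449) (nat_lit 9) .nil))))) .nil)) 
(.lf (nat_lit 82878) (.g (nat_lit 3128) (.e (nat_lit 1856) (nat_lit 124) (.e (nat_lit 557100) (nat_lit 13) (.e (nat_lit 172113) (nat_lit 10) (.e (nat_lit 434227) (nat_lit 20) (.e (nat_lit 507930) (nat_lit 10) (.e (nat_lit 5772) (nat_lit 316) (.e (nat_lit 172133) (nat_lit 15) .nil))))))) (.g (nat_lit 0) .nil .nil)))))))) 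
(.nd (nat_lit 1) (.nd (nat_lit 2) (.nd (nat_lit 3) (.nd (nat_lit 4) (.nd (nat_lit 5) 
(.lf (nat_lit 82817) (.g (nat_lit 4227) (.e (nat_lit 1856) (nat_lit 124) (.e (nat_lit 557100) (nat_lit 13) (.e (nat_lit 172106) (nat_lit 10) (.e (nat_lit 434231) (nat_lit 23) (.e (nat_lit 532481) (nat_lit 0) (.e (nat_lit 6720) (nat_lit 361) (.e (nat_lit 172133) (nat_lit 15) .nil))))))) (.g (nat_lit 5) .nil .nil))) 
(.lf (nat_lit 82849) (.g (nat_lit 2045) (.e (nat_lit 1856) (nat_lit 124) (.e (nat_lit 557100) (nat_lit 13) (.e (nat_lit 172106) (nat_lit 10) (.e (nat_lit 434244) (nat_lit 28) (.e (nat_lit 573450) (nat_lit 9) .nil))))) .nil))) (.nd (nat_lit 5) 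
(.lf (nat_lit 82833) (.g (nat_lit 2719) (.e (nat_lit 1856) (nat_lit 124) (.e (nat_lit 557100) (nat_lit 13) (.e (nat_lit 172106) (nat_lit 10) (.e (nat_lit 434231) (nat_lit 23) (.e (nat_lit 532569) (nat_lit 16) (.e (nat_lit 401434) (nat_lit 9) (.e (nat_lit 426396) (nat_lit 15) .nil))))))) (.g (nat_lit 4) .nil .nil))) 
(.lf (nat_lit 82865) (.g (nat_lit 293) (.e (nat_lit 1856) (nat_lit 124) (.e (nat_lit 557100) (nat_lit 13) (.e (nat_lit 172113) (nat_lit 10) .nil))) .nil)))) (.nd (nat_lit 4) (.nd (nat_lit 5) 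
(.lf (nat_lit 82825) (.g (nat_lit 2370) (.e (nat_lit 1856) (nat_lit 124) (.e (nat_lit 557100) (nat_lit 13) (.e (nat_lit 172106) (nat_lit 10) (.e (nat_lit 434231) (nat_lit 23) (.e (nat_lit 532490) (nat_lit 0) (.e (nat_lit 7936) (nat_lit 364) (.e (nat_lit 237631) (nat_lit 15) .nil))))))) (.g (nat_lit 4) .nil .nil))) 
(.lf (nat_lit 82857) (.g (nat_lit 2547) (.e (nat_lit 1856) (nat_lit 124) (.e (nat_lit 557100) (nat_lit 13) (.e (nat_lit 172106) (nat_lit 10) (.e (nat_lit 434244) (nat_lit 28) (.e (nat_lit 573458) (nat_lit 9) (.e (nat_lit 7936) (nat_lit 37) (.e (nat_lit 466949) (nat_lit 0) .nil))))))) (.g (nat_lit 4) .nil .nil)))) (.nd (nat_lit 5) 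
(.lf (nat_lit 82841) (.g (nat_lit 3709) (.e (nat_lit 1856) (nat_lit 124) (.e (nat_lit 557100) (nat_lit 13) (.e (nat_lit 172106) (nat_lit 10) (.e (nat_lit 434238) (nat_lit 25) (.e (nat_lit 548915) (nat_lit 20) (.e (nat_lit 188418) (nat_lit 0) .nil)))))) (.g (nat_lit 0) .nil .nil))) 
(.lf (nat_lit 82873) (.g (nat_lit 3099) (.e (nat_lit 1856) (nat_lit 124) (.e (nat_lit 557100) (nat_lit 13) (.e (nat_lit 172113) (nat_lit 10) (.e (nat_lit 434227) (nat_lit 20) (.e (nat_lit 507929) (nat_lit 10) (.e (nat_lit 5772) (nat_lit 316) (.e (nat_lit 172133) (nat_lit 15) .nil))))))) (.g (nat_lit 0) .nil .nil)))))) (.nd (nat_lit 3) (.nd (nat_lit 4) (.nd (nat_lit 5) 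
(.lf (nat_lit 82821) (.g (nat_lit 1947) (.e (nat_lit 1856) (nat_lit 124) (.e (nat_lit 557100) (nat_lit 13) (.e (nat_lit 172106) (nat_lit 10) (.e (nat_lit 434231) (nat_lit 23) (.e (nat_lit 532490) (nat_lit 0) .nil))))) .nil)) 
(.lf (nat_lit 82853) (.g (nat_lit 1974) (.e (nat_lit 1856) (nat_lit 124) (.e (nat_lit 557100) (nat_lit 13) (.e (nat_lit 172106) (nat_lit 10) (.e (nat_lit 434244) (nat_lit 28) (.e (nat_lit 573458) (nat_lit 9) .nil))))) .nil))) (.nd (nat_lit 5) 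
(.lf (nat_lit 82837) (.g (nat_lit 5139) (.e (nat_lit 1856) (nat_lit 124) (.e (nat_lit 557100) (nat_lit 13) (.e (nat_lit 172106) (nat_lit 10) (.e (nat_lit 434231) (nat_lit 23) (.e (nat_lit 532569) (nat_lit 16) (.e (nat_lit 401444) (nat_lit 9) (.e (nat_lit 426419) (nat_lit 15) .nil))))))) (.g (nat_lit 0) .nil .nil))) 
(.lf (nat_lit 82869) (.g (nat_lit 3068) (.e (nat_lit 1856) (nat_lit 124) (.e (nat_lit 557100) (nat_lit 13) (.e (nat_lit 172113) (nat_lit 10) (.e (nat_lit 434227) (nat_lit 20) (.e (nat_lit 507928) (nat_lit 10) (.e (nat_lit 5772) (nat_lit 316) (.e (nat_lit 172133) (nat_lit 15) .nil))))))) (.g (nat_lit 0) .nil .nil))))) (.nd (nat_lit 4) (.nd (nat_lit 5) 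
(.lf (nat_lit 82829) (.g (nat_lit 1444) (.e (nat_lit 1856) (nat_lit 124) (.e (nat_lit 557100) (nat_lit 13) (.e (nat_lit 172106) (nat_lit 10) (.e (nat_lit 434231) (nat_lit 23) (.e (nat_lit 532563) (nat_lit 15) .nil))))) .nil)) 
(.lf (nat_lit 82861) (.g (nat_lit 2413) (.e (nat_lit 1856) (nat_lit 124) (.e (nat_lit 557100) (nat_lit 13) (.e (nat_lit 172106) (nat_lit 10) (.e (nat_lit 434244) (nat_lit 28) (.e (nat_lit 573471) (nat_lit 11) (.e (nat_lit 16444) (nat_lit 9) (.e (nat_lit 426419) (nat_lit 15) .nil))))))) (.g (nat_lit 4) .nil .nil)))) (.nd (nat_lit 5) 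
(.lf (nat_lit 82845) (.g (nat_lit 3095) (.e (nat_lit 1856) (nat_lit 124) (.e (nat_lit 557100) (nat_lit 13) (.e (nat_lit 172106) (nat_lit 10) (.e (nat_lit 434244) (nat_lit 28) (.e (nat_lit 573448) (nat_lit 9) .nil))))) .nil)) 
(.lf (nat_lit 82877) (.g (nat_lit 2178) (.e (nat_lit 1856) (nat_lit 124) (.e (nat_lit 557100) (nat_lit 13) (.e (nat_lit 172113) (nat_lit 10) (.e (nat_lit 434227) (nat_lit 20) (.e (nat_lit 507930) (nat_lit 10) (.e (nat_lit 5770) (nat_lit 316) (.e (nat_lit 172133) (nat_lit 15) .nil))))))) (.g (nat_lit 4) .nil .nil))))))) (.nd (nat_lit 2) (.nd (nat_lit 3) (.nd (nat_lit 4) (.nd (nat_lit 5) 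
(.lf (nat_lit 82819) (.g (nat_lit 2246) (.e (nat_lit 1856) (nat_lit 124) (.e (nat_lit 557100) (nat_lit 13) (.e (nat_lit 172106) (nat_lit 10) (.e (nat_lit 434231) (nat_lit 23) (.e (nat_lit 532483) (nat_lit 0) (.e (nat_lit 7936) (nat_lit 361) (.e (nat_lit 172137) (nat_lit 15) .nil))))))) (.g (nat_lit 4) .nil .nil))) 
(.lf (nat_lit 82851) (.g (nat_lit 2477) (.e (nat_lit 1856) (nat_lit 124) (.e (nat_lit 557100) (nat_lit 13) (.e (nat_lit 172106) (nat_lit 10) (.e (nat_lit 434244) (nat_lit 28) (.e (nat_lit 573454) (nat_lit 9) .nil))))) .nil))) (.nd (nat_lit 5) 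
(.lf (nat_lit 82835) (.g (nat_lit 2128) (.e (nat_lit 1856) (nat_lit 124) (.e (nat_lit 557100) (nat_lit 13) (.e (nat_lit 172106) (nat_lit 10) (.e (nat_lit 434231) (nat_lit 23) (.e (nat_lit 532569) (nat_lit 16) (.e (nat_lit 401440) (nat_lit 9) (.e (nat_lit 433920) (nat_lit 15) .nil))))))) (.g (nat_lit 4) .nil .nil))) 
(.lf (nat_lit 82867) (.g (nat_lit 934) (.e (nat_lit 1856) (nat_lit 124) (.e (nat_lit 557100) (nat_lit 13) (.e (nat_lit 172113) (nat_lit 10) (.e (nat_lit 434208) (nat_lit 18) .nil)))) .nil)))) (.nd (nat_lit 4) (.nd (nat_lit 5) 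
(.lf (nat_lit 82827) (.g (nat_lit 1928) (.e (nat_lit 1856) (nat_lit 124) (.e (nat_lit 557100) (nat_lit 13) (.e (nat_lit 172106) (nat_lit 10) (.e (nat_lit 434231) (nat_lit 23) (.e (nat_lit 532562) (nat_lit 15) (.e (nat_lit 385105) (nat_lit 50) (.e (nat_lit 786451) (nat_lit 15) .nil))))))) (.g (nat_lit 4) .nil .nil))) 
(.lf (nat_lit 82859) (.g (nat_lit 2843) (.e (nat_lit 1856) (nat_lit 124) (.e (nat_lit 557100) (nat_lit 13) (.e (nat_lit 172106) (nat_lit 10) (.e (nat_lit 434244) (nat_lit 28) (.e (nat_lit 573471) (nat_lit 11) (.e (nat_lit 16440) (nat_lit 9) (.e (nat_lit 426410) (nat_lit 15) .nil))))))) (.g (nat_lit 4) .nil .nil)))) (.nd (nat_lit 5) 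
(.lf (nat_lit 82843) (.g (nat_lit 2295) (.e (nat_lit 1856) (nat_lit 124) (.e (nat_lit 557100) (nat_lit 13) (.e (nat_lit 172106) (nat_lit 10) (.e (nat_lit 434238) (nat_lit 25) (.e (nat_lit 556800) (nat_lit 20) .nil))))) .nil)) 
(.lf (nat_lit 82875) (.g (nat_lit 1454) (.e (nat_lit 1856) (nat_lit 124) (.e (nat_lit 557100) (nat_lit 13) (.e (nat_lit 172113) (nat_lit 10) (.e (nat_lit 434227) (nat_lit 20) (.e (nat_lit 507930) (nat_lit 10) .nil))))) .nil))))) (.nd (nat_lit 3) (.nd (nat_lit 4) (.nd (nat_lit 5) 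
(.lf (nat_lit 82823) (.g (nat_lit 3182) (.e (nat_lit 1856) (nat_lit 124) (.e (nat_lit 557100) (nat_lit 13) (.e (nat_lit 172106) (nat_lit 10) (.e (nat_lit 434231) (nat_lit 23) (.e (nat_lit 532490) (nat_lit 0) (.e (nat_lit 7936) (nat_lit 361) (.e (nat_lit 172137) (nat_lit 15) .nil))))))) (.g (nat_lit 5) .nil .nil))) 
(.lf (nat_lit 82855) (.g (nat_lit 3515) (.e (nat_lit 1856) (nat_lit 124) (.e (nat_lit 557100) (nat_lit 13) (.e (nat_lit 172106) (nat_lit 10) (.e (nat_lit 434244) (nat_lit 28) (.e (nat_lit 573458) (nat_lit 9) (.e (nat_lit 7936) (nat_lit 34) (.e (nat_lit 442377) (nat_lit 0) .nil))))))) (.g (nat_lit 5) .nil .nil)))) (.nd (nat_lit 5) 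
(.lf (nat_lit 82839) (.g (nat_lit 1877) (.e (nat_lit 1856) (nat_lit 124) (.e (nat_lit 557100) (nat_lit 13) (.e (nat_lit 172106) (nat_lit 10) (.e (nat_lit 434238) (nat_lit 25) (.e (nat_lit 548897) (nat_lit 14) .nil))))) .nil)) 
(.lf (nat_lit 82871) (.g (nat_lit 2191) (.e (nat_lit 1856) (nat_lit 124) (.e (nat_lit 557100) (nat_lit 13) (.e (nat_lit 172113) (nat_lit 10) (.e (nat_lit 434227) (nat_lit 20) (.e (nat_lit 507929) (nat_lit 10) (.e (nat_lit 5766) (nat_lit 316) (.e (nat_lit 172133) (nat_lit 15) .nil))))))) (.g (nat_lit 4) .nil .nil))))) (.nd (nat_lit 4) (.nd (nat_lit 5) 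
(.lf (nat_lit 82831) (.g (nat_lit 3232) (.e (nat_lit 1856) (nat_lit 124) (.e (nat_lit 557100) (nat_lit 13) (.e (nat_lit 172106) (nat_lit 10) (.e (nat_lit 434231) (nat_lit 23) (.e (nat_lit 532563) (nat_lit 15) (.e (nat_lit 385105) (nat_lit 50) (.e (nat_lit 786451) (nat_lit 15) .nil))))))) (.g (nat_lit 5) .nil .nil))) 
(.lf (nat_lit 82863) (.g (nat_lit 2591) (.e (nat_lit 1856) (nat_lit 124) (.e (nat_lit 557100) (nat_lit 13) (.e (nat_lit 172106) (nat_lit 10) (.e (nat_lit 434244) (nat_lit 28) (.e (nat_lit 573474) (nat_lit 12) .nil))))) .nil))) (.nd (nat_lit 5) 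
(.lf (nat_lit 82847) (.g (nat_lit 2906) (.e (nat_lit 1856) (nat_lit 124) (.e (nat_lit 557100) (nat_lit 13) (.e (nat_lit 172106) (nat_lit 10) (.e (nat_lit 434244) (nat_lit 28) (.e (nat_lit 573449) (nat_lit 9) (.e (nat_lit 460) (nat_lit 34) (.e (nat_lit 442378) (nat_lit 0) .nil))))))) (.g (nat_lit 4) .nil .nil))) 
(.lf (nat_lit 82879) (.g (nat_lit 2407) (.e (nat_lit 1856) (nat_lit 124) (.e (nat_lit 557100) (nat_lit 13) (.e (nat_lit 172113) (nat_lit 10) (.e (nat_lit 434227) (nat_lit 20) (.e (nat_lit 507930) (nat_lit 10) (.e (nat_lit 5773) (nat_lit 316) (.e (nat_lit 172138) (nat_lit 15) .nil))))))) (.g (nat_lit 4) .nil .nil)))))))))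

noncomputable def tv1121 : DT := (.nd (nat_lit 0) (.nd (nat_lit 1) (.nd (nat_lit 2) (.nd (nat_lit 3) (.nd (nat_lit 4) (.nd (nat_lit 5) 
(.lf (nat_lit 82880) (.g (nat_lit 2931) (.e (nat_lit 1856) (nat_lit 124) (.e (nat_lit 557100) (nat_lit 13) (.e (nat_lit 172113) (nat_lit 10) (.e (nat_lit 434227) (nat_lit 20) (.e (nat_lit 507944) (nat_lit 18) (.e (nat_lit 303133) (nat_lit 9) (.e (nat_lit 426412) (nat_lit 15) .nil))))))) (.g (nat_lit 6) .nil .nil))) 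
(.lf (nat_lit 82912) (.g (nat_lit 2448) (.e (nat_lit 1856) (nat_lit 124) (.e (nat_lit 557100) (nat_lit 13) (.e (nat_lit 172113) (nat_lit 10) (.e (nat_lit 434245) (nat_lit 28) (.e (nat_lit 573471) (nat_lit 11) (.e (nat_lit 16431) (nat_lit 9) (.e (nat_lit 426382) (nat_lit 15) .nil))))))) (.g (nat_lit 4) .nil .nil)))) (.nd (nat_lit 5) 
(.lf (nat_lit 82896) (.g (nat_lit 813) (.e (nat_lit 1856) (nat_lit 124) (.e (nat_lit 557100) (nat_lit 13) (.e (nat_lit 172113) (nat_lit 10) (.e (nat_lit 434245) (nat_lit 28) .nil)))) .nil)) 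
(.lf (nat_lit 82928) (.g (nat_lit 2044) (.e (nat_lit 1856) (nat_lit 124) (.e (nat_lit 557100) (nat_lit 13) (.e (nat_lit 172113) (nat_lit 10) (.e (nat_lit 434245) (nat_lit 28) (.e (nat_lit 573471) (nat_lit 11) (.e (nat_lit 16441) (nat_lit 9) (.e (nat_lit 426410) (nat_lit 15) .nil))))))) (.g (nat_lit 4) .nil .nil))))) (.nd (nat_lit 4) (.nd (nat_lit 5) 
(.lf (nat_lit 82888) (.g (nat_lit 3591) (.e (nat_lit 1856) (nat_lit 124) (.e (nat_lit 557100) (nat_lit 13) (.e (nat_lit 172113) (nat_lit 10) (.e (nat_lit 434238) (nat_lit 25) (.e (nat_lit 548915) (nat_lit 20) (.e (nat_lit 188419) (nat_lit 0) .nil)))))) (.g (nat_lit 5) .nil .nil))) 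
(.lf (nat_lit 82920) (.g (nat_lit 3686) (.e (nat_lit 1856) (nat_lit 124) (.e (nat_lit 557100) (nat_lit 13) (.e (nat_lit 172113) (nat_lit 10) (.e (nat_lit 434245) (nat_lit 28) (.e (nat_lit 573471) (nat_lit 11) (.e (nat_lit 16434) (nat_lit 9) (.e (nat_lit 426382) (nat_lit 15) .nil))))))) (.g (nat_lit 6) .nil .nil)))) (.nd (nat_lit 5) 
(.lf (nat_lit 82904) (.g (nat_lit 1575) (.e (nat_lit 1856) (nat_lit 124) (.e (nat_lit 557100) (nat_lit 13) (.e (nat_lit 172113) (nat_lit 10) (.e (nat_lit 434245) (nat_lit 28) (.e (nat_lit 573454) (nat_lit 9) .nil))))) .nil)) 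
(.lf (nat_lit 82936) (.g (nat_lit 2796) (.e (nat_lit 1856) (nat_lit 124) (.e (nat_lit 557100) (nat_lit 13) (.e (nat_lit 172113) (nat_lit 10) (.e (nat_lit 434245) (nat_lit 28) (.e (nat_lit 573471) (nat_lit 11) (.e (nat_lit 16445) (nat_lit 9) (.e (nat_lit 426413) (nat_lit 15) .nil))))))) (.g (nat_lit 5) .nil .nil)))))) (.nd (nat_lit 3) (.nd (nat_lit 4) (.nd (nat_lit 5) 
(.lf (nat_lit 82884) (.g (nat_lit 2047) (.e (nat_lit 1856) (nat_lit 124) (.e (nat_lit 557100) (nat_lit 13) (.e (nat_lit 172113) (nat_lit 10) (.e (nat_lit 434231) (nat_lit 23) (.e (nat_lit 532569) (nat_lit 16) .nil))))) .nil)) 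
(.lf (nat_lit 82916) (.g (nat_lit 2215) (.e (nat_lit 1856) (nat_lit 124) (.e (nat_lit 557100) (nat_lit 13) (.e (nat_lit 172113) (nat_lit 10) (.e (nat_lit 434245) (nat_lit 28) (.e (nat_lit 573471) (nat_lit 11) (.e (nat_lit 16432) (nat_lit 9) (.e (nat_lit 426374) (nat_lit 15) .nil))))))) (.g (nat_lit 4) .nil .nil)))) (.nd (nat_lit 5) 
(.lf (nat_lit 82900) (.g (nat_lit 1515) (.e (nat_lit 1856) (nat_lit 124) (.e (nat_lit 557100) (nat_lit 13) (.e (nat_lit 172113) (nat_lit 10) (.e (nat_lit 434245) (nat_lit 28) (.e (nat_lit 573450) (nat_lit 9) .nil))))) .nil)) 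
(.lf (nat_lit 82932) (.g (nat_lit 3929) (.e (nat_lit 1856) (nat_lit 124) (.e (nat_lit 557100) (nat_lit 13) (.e (nat_lit 172113) (nat_lit 10) (.e (nat_lit 434245) (nat_lit 28) (.e (nat_lit 573471) (nat_lit 11) (.e (nat_lit 16444) (nat_lit 9) (.e (nat_lit 426391) (nat_lit 15) .nil))))))) (.g (nat_lit 6) .nil .nil))))) (.nd (nat_lit 4) (.nd (nat_lit 5) 
(.lf (nat_lit 82892) (.g (nat_lit 3833) (.e (nat_lit 1856) (nat_lit 124) (.e (nat_lit 557100) (nat_lit 13) (.e (nat_lit 172113) (nat_lit 10) (.e (nat_lit 434242) (nat_lit 28) (.e (nat_lit 573474) (nat_lit 12) (.e (nat_lit 57347) (nat_lit 0) (.e (nat_lit 6853) (nat_lit 371) (.e (nat_lit 2630) (nat_lit 164) (.e (nat_lit 172138) (nat_lit 15) .nil))))))))) (.g (nat_lit 5) .nil .nil))) 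
(.lf (nat_lit 82924) (.g (nat_lit 2991) (.e (nat_lit 1856) (nat_lit 124) (.e (nat_lit 557100) (nat_lit 13) (.e (nat_lit 172113) (nat_lit 10) (.e (nat_lit 434245) (nat_lit 28) (.e (nat_lit 573471) (nat_lit 11) (.e (nat_lit 16440) (nat_lit 9) (.e (nat_lit 426380) (nat_lit 15) .nil))))))) (.g (nat_lit 5) .nil .nil)))) (.nd (nat_lit 5) 
(.lf (nat_lit 82908) (.g (nat_lit 2621) (.e (nat_lit 1856) (nat_lit 124) (.e (nat_lit 557100) (nat_lit 13) (.e (nat_lit 172113) (nat_lit 10) (.e (nat_lit 434245) (nat_lit 28) (.e (nat_lit 573458) (nat_lit 9) (.e (nat_lit 426) (nat_lit 32) (.e (nat_lit 426186) (nat_lit 9) (.e (nat_lit 426382) (nat_lit 15) .nil)))))))) (.g (nat_lit 4) .nil .nil))) 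
(.lf (nat_lit 82940) (.g (nat_lit 2406) (.e (nat_lit 1856) (nat_lit 124) (.e (nat_lit 557100) (nat_lit 13) (.e (nat_lit 172113) (nat_lit 10) (.e (nat_lit 434245) (nat_lit 28) (.e (nat_lit 573471) (nat_lit 11) (.e (nat_lit 24320) (nat_lit 9) (.e (nat_lit 426391) (nat_lit 15) .nil))))))) (.g (nat_lit 4) .nil .nil))))))) (.nd (nat_lit 2) (.nd (nat_lit 3) (.nd (nat_lit 4) (.nd (nat_lit 5) 
(.lf (nat_lit 82882) (.g (nat_lit 1636) (.e (nat_lit 1856) (nat_lit 124) (.e (nat_lit 557100) (nat_lit 13) (.e (nat_lit 172113) (nat_lit 10) (.e (nat_lit 434227) (nat_lit 20) (.e (nat_lit 515840) (nat_lit 18) (.e (nat_lit 303133) (nat_lit 9) (.e (nat_lit 426412) (nat_lit 15) .nil))))))) (.g (nat_lit 4) .nil .nil))) 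
(.lf (nat_lit 82914) (.g (nat_lit 2302) (.e (nat_lit 1856) (nat_lit 124) (.e (nat_lit 557100) (nat_lit 13) (.e (nat_lit 172113) (nat_lit 10) (.e (nat_lit 434245) (nat_lit 28) (.e (nat_lit 573471) (nat_lit 11) (.e (nat_lit 16431) (nat_lit 9) (.e (nat_lit 426410) (nat_lit 15) .nil))))))) (.g (nat_lit 4) .nil .nil)))) (.nd (nat_lit 5) 
(.lf (nat_lit 82898) (.g (nat_lit 2724) (.e (nat_lit 1856) (nat_lit 124) (.e (nat_lit 557100) (nat_lit 13) (.e (nat_lit 172113) (nat_lit 10) (.e (nat_lit 434245) (nat_lit 28) (.e (nat_lit 573449) (nat_lit 9) (.e (nat_lit 460) (nat_lit 34) (.e (nat_lit 442377) (nat_lit 0) .nil))))))) (.g (nat_lit 5) .nil .nil))) 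
(.lf (nat_lit 82930) (.g (nat_lit 2862) (.e (nat_lit 1856) (nat_lit 124) (.e (nat_lit 557100) (nat_lit 13) (.e (nat_lit 172113) (nat_lit 10) (.e (nat_lit 434245) (nat_lit 28) (.e (nat_lit 573471) (nat_lit 11) (.e (nat_lit 16444) (nat_lit 9) (.e (nat_lit 426387) (nat_lit 15) .nil))))))) (.g (nat_lit 5) .nil .nil))))) (.nd (nat_lit 4) (.nd (nat_lit 5) 
(.lf (nat_lit 82890) (.g (nat_lit 1740) (.e (nat_lit 1856) (nat_lit 124) (.e (nat_lit 557100) (nat_lit 13) (.e (nat_lit 172113) (nat_lit 10) (.e (nat_lit 434238) (nat_lit 25) (.e (nat_lit 556800) (nat_lit 20) .nil))))) .nil)) 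
(.lf (nat_lit 82922) (.g (nat_lit 3461) (.e (nat_lit 1856) (nat_lit 124) (.e (nat_lit 557100) (nat_lit 13) (.e (nat_lit 172113) (nat_lit 10) (.e (nat_lit 434245) (nat_lit 28) (.e (nat_lit 573471) (nat_lit 11) (.e (nat_lit 16439) (nat_lit 9) (.e (nat_lit 426396) (nat_lit 15) .nil))))))) (.g (nat_lit 5) .nil .nil)))) (.nd (nat_lit 5) 
(.lf (nat_lit 82906) (.g (nat_lit 2786) (.e (nat_lit 1856) (nat_lit 124) (.e (nat_lit 557100) (nat_lit 13) (.e (nat_lit 172113) (nat_lit 10) (.e (nat_lit 434245) (nat_lit 28) (.e (nat_lit 573458) (nat_lit 9) (.e (nat_lit 420) (nat_lit 32) (.e (nat_lit 426260) (nat_lit 9) (.e (nat_lit 426391) (nat_lit 15) .nil)))))))) (.g (nat_lit 4) .nil .nil))) 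
(.lf (nat_lit 82938) (.g (nat_lit 4419) (.e (nat_lit 1856) (nat_lit 124) (.e (nat_lit 557100) (nat_lit 13) (.e (nat_lit 172113) (nat_lit 10) (.e (nat_lit 434245) (nat_lit 28) (.e (nat_lit 573471) (nat_lit 11) (.e (nat_lit 16446) (nat_lit 9) (.e (nat_lit 426413) (nat_lit 15) .nil))))))) (.g (nat_lit 0) .nil .nil)))))) (.nd (nat_lit 3) (.nd (nat_lit 4) (.nd (nat_lit 5) 
(.lf (nat_lit 82886) (.g (nat_lit 1810) (.e (nat_lit 1856) (nat_lit 124) (.e (nat_lit 557100) (nat_lit 13) (.e (nat_lit 172113) (nat_lit 10) (.e (nat_lit 434238) (nat_lit 25) (.e (nat_lit 548894) (nat_lit 14) .nil))))) .nil)) 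
(.lf (nat_lit 82918) (.g (nat_lit 3115) (.e (nat_lit 1856) (nat_lit 124) (.e (nat_lit 557100) (nat_lit 13) (.e (nat_lit 172113) (nat_lit 10) (.e (nat_lit 434245) (nat_lit 28) (.e (nat_lit 573471) (nat_lit 11) (.e (nat_lit 16434) (nat_lit 9) (.e (nat_lit 426375) (nat_lit 15) .nil))))))) (.g (nat_lit 5) .nil .nil)))) (.nd (nat_lit 5) 
(.lf (nat_lit 82902) (.g (nat_lit 2930) (.e (nat_lit 1856) (nat_lit 124) (.e (nat_lit 557100) (nat_lit 13) (.e (nat_lit 172113) (nat_lit 10) (.e (nat_lit 434245) (nat_lit 28) (.e (nat_lit 573451) (nat_lit 9) (.e (nat_lit 430) (nat_lit 32) (.e (nat_lit 426189) (nat_lit 9) (.e (nat_lit 426382) (nat_lit 15) .nil)))))))) (.g (nat_lit 5) .nil .nil))) 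
(.lf (nat_lit 82934) (.g (nat_lit 2544) (.e (nat_lit 1856) (nat_lit 124) (.e (nat_lit 557100) (nat_lit 13) (.e (nat_lit 172113) (nat_lit 10) (.e (nat_lit 434245) (nat_lit 28) (.e (nat_lit 573471) (nat_lit 11) (.e (nat_lit 16445) (nat_lit 9) (.e (nat_lit 426387) (nat_lit 15) .nil))))))) (.g (nat_lit 4) .nil .nil))))) (.nd (nat_lit 4) (.nd (nat_lit 5) 
(.lf (nat_lit 82894) (.g (nat_lit 4282) (.e (nat_lit 1856) (nat_lit 124) (.e (nat_lit 557100) (nat_lit 13) (.e (nat_lit 172113) (nat_lit 10) (.e (nat_lit 434242) (nat_lit 28) (.e (nat_lit 573474) (nat_lit 12) (.e (nat_lit 57348) (nat_lit 0) (.e (nat_lit 6853) (nat_lit 371) (.e (nat_lit 2630) (nat_lit 164) (.e (nat_lit 172138) (nat_lit 15) .nil))))))))) (.g (nat_lit 5) .nil .nil))) 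
(.lf (nat_lit 82926) (.g (nat_lit 4181) (.e (nat_lit 1856) (nat_lit 124) (.e (nat_lit 557100) (nat_lit 13) (.e (nat_lit 172113) (nat_lit 10) (.e (nat_lit 434245) (nat_lit 28) (.e (nat_lit 573471) (nat_lit 11) (.e (nat_lit 16440) (nat_lit 9) (.e (nat_lit 426411) (nat_lit 15) .nil))))))) (.g (nat_lit 7) .nil .nil)))) (.nd (nat_lit 5) 
(.lf (nat_lit 82910) (.g (nat_lit 3001) (.e (nat_lit 1856) (nat_lit 124) (.e (nat_lit 557100) (nat_lit 13) (.e (nat_lit 172113) (nat_lit 10) (.e (nat_lit 434245) (nat_lit 28) (.e (nat_lit 573469) (nat_lit 11) (.e (nat_lit 16435) (nat_lit 9) (.e (nat_lit 426382) (nat_lit 15) .nil))))))) (.g (nat_lit 5) .nil .nil))) 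
(.lf (nat_lit 82942) (.g (nat_lit 2732) (.e (nat_lit 1856) (nat_lit 124) (.e (nat_lit 557100) (nat_lit 13) (.e (nat_lit 172113) (nat_lit 10) (.e (nat_lit 434245) (nat_lit 28) (.e (nat_lit 573473) (nat_lit 12) (.e (nat_lit 57567) (nat_lit 52) (.e (nat_lit 753688) (nat_lit 9) (.e (nat_lit 172138) (nat_lit 15) .nil)))))))) (.g (nat_lit 5) .nil .nil)))))))) 
(.nd (nat_lit 1) (.nd (nat_lit 2) (.nd (nat_lit 3) (.nd (nat_lit 4) (.nd (nat_lit 5) 
(.lf (nat_lit 82881) (.g (nat_lit 2911) (.e (nat_lit 1856) (nat_lit 124) (.e (nat_lit 557100) (nat_lit 13) (.e (nat_lit 172113) (nat_lit 10) (.e (nat_lit 434227) (nat_lit 20) (.e (nat_lit 507946) (nat_lit 18) (.e (nat_lit 303133) (nat_lit 9) (.e (nat_lit 426412) (nat_lit 15) .nil))))))) (.g (nat_lit 6) .nil .nil))) 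
(.lf (nat_lit 82913) (.g (nat_lit 2726) (.e (nat_lit 1856) (nat_lit 124) (.e (nat_lit 557100) (nat_lit 13) (.e (nat_lit 172113) (nat_lit 10) (.e (nat_lit 434245) (nat_lit 28) (.e (nat_lit 573471) (nat_lit 11) (.e (nat_lit 16431) (nat_lit 9) (.e (nat_lit 426396) (nat_lit 15) .nil))))))) (.g (nat_lit 4) .nil .nil)))) (.nd (nat_lit 5) 
(.lf (nat_lit 82897) (.g (nat_lit 2357) (.e (nat_lit 1856) (nat_lit 124) (.e (nat_lit 557100) (nat_lit 13) (.e (nat_lit 172113) (nat_lit 10) (.e (nat_lit 434245) (nat_lit 28) (.e (nat_lit 573448) (nat_lit 9) (.e (nat_lit 460) (nat_lit 34) (.e (nat_lit 442377) (nat_lit 0) .nil))))))) (.g (nat_lit 4) .nil .nil))) 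
(.lf (nat_lit 82929) (.g (nat_lit 2670) (.e (nat_lit 1856) (nat_lit 124) (.e (nat_lit 557100) (nat_lit 13) (.e (nat_lit 172113) (nat_lit 10) (.e (nat_lit 434245) (nat_lit 28) (.e (nat_lit 573471) (nat_lit 11) (.e (nat_lit 16441) (nat_lit 9) (.e (nat_lit 426411) (nat_lit 15) .nil))))))) (.g (nat_lit 4) .nil .nil))))) (.nd (nat_lit 4) (.nd (nat_lit 5) 
(.lf (nat_lit 82889) (.g (nat_lit 3867) (.e (nat_lit 1856) (nat_lit 124) (.e (nat_lit 557100) (nat_lit 13) (.e (nat_lit 172113) (nat_lit 10) (.e (nat_lit 434238) (nat_lit 25) (.e (nat_lit 548915) (nat_lit 20) (.e (nat_lit 188420) (nat_lit 0) .nil)))))) (.g (nat_lit 0) .nil .nil))) 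
(.lf (nat_lit 82921) (.g (nat_lit 2640) (.e (nat_lit 1856) (nat_lit 124) (.e (nat_lit 557100) (nat_lit 13) (.e (nat_lit 172113) (nat_lit 10) (.e (nat_lit 434245) (nat_lit 28) (.e (nat_lit 573471) (nat_lit 11) (.e (nat_lit 16434) (nat_lit 9) (.e (nat_lit 426405) (nat_lit 15) .nil))))))) (.g (nat_lit 4) .nil .nil)))) (.nd (nat_lit 5) 
(.lf (nat_lit 82905) (.g (nat_lit 2518) (.e (nat_lit 1856) (nat_lit 124) (.e (nat_lit 557100) (nat_lit 13) (.e (nat_lit 172113) (nat_lit 10) (.e (nat_lit 434245) (nat_lit 28) (.e (nat_lit 573454) (nat_lit 9) (.e (nat_lit 458) (nat_lit 34) (.e (nat_lit 442378) (nat_lit 0) .nil))))))) (.g (nat_lit 4) .nil .nil))) 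
(.lf (nat_lit 82937) (.g (nat_lit 2489) (.e (nat_lit 1856) (nat_lit 124) (.e (nat_lit 557100) (nat_lit 13) (.e (nat_lit 172113) (nat_lit 10) (.e (nat_lit 434245) (nat_lit 28) (.e (nat_lit 573471) (nat_lit 11) (.e (nat_lit 16446) (nat_lit 9) (.e (nat_lit 426387) (nat_lit 15) .nil))))))) (.g (nat_lit 4) .nil .nil)))))) (.nd (nat_lit 3) (.nd (nat_lit 4) (.nd (nat_lit 5) 
(.lf (nat_lit 82885) (.g (nat_lit 1084) (.e (nat_lit 1856) (nat_lit 124) (.e (nat_lit 557100) (nat_lit 13) (.e (nat_lit 172113) (nat_lit 10) (.e (nat_lit 434238) (nat_lit 25) .nil)))) .nil)) 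
(.lf (nat_lit 82917) (.g (nat_lit 2490) (.e (nat_lit 1856) (nat_lit 124) (.e (nat_lit 557100) (nat_lit 13) (.e (nat_lit 172113) (nat_lit 10) (.e (nat_lit 434245) (nat_lit 28) (.e (nat_lit 573471) (nat_lit 11) (.e (nat_lit 16432) (nat_lit 9) (.e (nat_lit 426382) (nat_lit 15) .nil))))))) (.g (nat_lit 4) .nil .nil)))) (.nd (nat_lit 5) 
(.lf (nat_lit 82901) (.g (nat_lit 1480) (.e (nat_lit 1856) (nat_lit 124) (.e (nat_lit 557100) (nat_lit 13) (.e (nat_lit 172113) (nat_lit 10) (.e (nat_lit 434245) (nat_lit 28) (.e (nat_lit 573451) (nat_lit 9) .nil))))) .nil)) 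
(.lf (nat_lit 82933) (.g (nat_lit 3240) (.e (nat_lit 1856) (nat_lit 124) (.e (nat_lit 557100) (nat_lit 13) (.e (nat_lit 172113) (nat_lit 10) (.e (nat_lit 434245) (nat_lit 28) (.e (nat_lit 573471) (nat_lit 11) (.e (nat_lit 16444) (nat_lit 9) (.e (nat_lit 426419) (nat_lit 15) .nil))))))) (.g (nat_lit 6) .nil .nil))))) (.nd (nat_lit 4) (.nd (nat_lit 5) 
(.lf (nat_lit 82893) (.g (nat_lit 3863) (.e (nat_lit 1856) (nat_lit 124) (.e (nat_lit 557100) (nat_lit 13) (.e (nat_lit 172113) (nat_lit 10) (.e (nat_lit 434242) (nat_lit 28) (.e (nat_lit 573474) (nat_lit 12) (.e (nat_lit 57347) (nat_lit 0) (.e (nat_lit 6923) (nat_lit 371) (.e (nat_lit 2628) (nat_lit 164) (.e (nat_lit 172138) (nat_lit 15) .nil))))))))) (.g (nat_lit 5) .nil .nil))) 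
(.lf (nat_lit 82925) (.g (nat_lit 3228) (.e (nat_lit 1856) (nat_lit 124) (.e (nat_lit 557100) (nat_lit 13) (.e (nat_lit 172113) (nat_lit 10) (.e (nat_lit 434245) (nat_lit 28) (.e (nat_lit 573471) (nat_lit 11) (.e (nat_lit 16440) (nat_lit 9) (.e (nat_lit 426410) (nat_lit 15) .nil))))))) (.g (nat_lit 6) .nil .nil)))) (.nd (nat_lit 5) 
(.lf (nat_lit 82909) (.g (nat_lit 2845) (.e (nat_lit 1856) (nat_lit 124) (.e (nat_lit 557100) (nat_lit 13) (.e (nat_lit 172113) (nat_lit 10) (.e (nat_lit 434245) (nat_lit 28) (.e (nat_lit 573458) (nat_lit 9) (.e (nat_lit 7936) (nat_lit 37) (.e (nat_lit 466946) (nat_lit 0) .nil))))))) (.g (nat_lit 4) .nil .nil))) 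
(.lf (nat_lit 82941) (.g (nat_lit 2019) (.e (nat_lit 1856) (nat_lit 124) (.e (nat_lit 557100) (nat_lit 13) (.e (nat_lit 172113) (nat_lit 10) (.e (nat_lit 434245) (nat_lit 28) (.e (nat_lit 573473) (nat_lit 12) (.e (nat_lit 57566) (nat_lit 52) (.e (nat_lit 753689) (nat_lit 9) (.e (nat_lit 172138) (nat_lit 15) .nil)))))))) (.g (nat_lit 4) .nil .nil))))))) 
(.nd (nat_lit 2) (.nd (nat_lit 3) (.nd (nat_lit 4) (.nd (nat_lit 5) 
(.lf (nat_lit 82883) (.g (nat_lit 1170) (.e (nat_lit 1856) (nat_lit 124) (.e (nat_lit 557100) (nat_lit 13) (.e (nat_lit 172113) (nat_lit 10) (.e (nat_lit 434231) (nat_lit 23) .nil)))) .nil)) 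
(.lf (nat_lit 82915) (.g (nat_lit 3049) (.e (nat_lit 1856) (nat_lit 124) (.e (nat_lit 557100) (nat_lit 13) (.e (nat_lit 172113) (nat_lit 10) (.e (nat_lit 434245) (nat_lit 28) (.e (nat_lit 573471) (nat_lit 11) (.e (nat_lit 16431) (nat_lit 9) (.e (nat_lit 426411) (nat_lit 15) .nil))))))) (.g (nat_lit 5) .nil .nil)))) (.nd (nat_lit 5) 
(.lf (nat_lit 82899) (.g (nat_lit 2831) (.e (nat_lit 1856) (nat_lit 124) (.e (nat_lit 557100) (nat_lit 13) (.e (nat_lit 172113) (nat_lit 10) (.e (nat_lit 434245) (nat_lit 28) (.e (nat_lit 573449) (nat_lit 9) (.e (nat_lit 7936) (nat_lit 34) (.e (nat_lit 442379) (nat_lit 0) .nil))))))) (.g (nat_lit 5) .nil .nil))) 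
(.lf (nat_lit 82931) (.g (nat_lit 2880) (.e (nat_lit 1856) (nat_lit 124) (.e (nat_lit 557100) (nat_lit 13) (.e (nat_lit 172113) (nat_lit 10) (.e (nat_lit 434245) (nat_lit 28) (.e (nat_lit 573471) (nat_lit 11) (.e (nat_lit 16444) (nat_lit 9) (.e (nat_lit 426388) (nat_lit 15) .nil))))))) (.g (nat_lit 5) .nil .nil))))) (.nd (nat_lit 4) (.nd (nat_lit 5) 
(.lf (nat_lit 82891) (.g (nat_lit 1667) (.e (nat_lit 1856) (nat_lit 124) (.e (nat_lit 557100) (nat_lit 13) (.e (nat_lit 172113) (nat_lit 10) (.e (nat_lit 434242) (nat_lit 28) (.e (nat_lit 573454) (nat_lit 9) .nil))))) .nil)) 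
(.lf (nat_lit 82923) (.g (nat_lit 2587) (.e (nat_lit 1856) (nat_lit 124) (.e (nat_lit 557100) (nat_lit 13) (.e (nat_lit 172113) (nat_lit 10) (.e (nat_lit 434245) (nat_lit 28) (.e (nat_lit 573471) (nat_lit 11) (.e (nat_lit 16439) (nat_lit 9) (.e (nat_lit 426410) (nat_lit 15) .nil))))))) (.g (nat_lit 5) .nil .nil)))) (.nd (nat_lit 5) 
(.lf (nat_lit 82907) (.g (nat_lit 2817) (.e (nat_lit 1856) (nat_lit 124) (.e (nat_lit 557100) (nat_lit 13) (.e (nat_lit 172113) (nat_lit 10) (.e (nat_lit 434245) (nat_lit 28) (.e (nat_lit 573458) (nat_lit 9) (.e (nat_lit 420) (nat_lit 32) (.e (nat_lit 426261) (nat_lit 9) (.e (nat_lit 426419) (nat_lit 15) .nil)))))))) (.g (nat_lit 5) .nil .nil))) 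
(.lf (nat_lit 82939) (.g (nat_lit 3190) (.e (nat_lit 1856) (nat_lit 124) (.e (nat_lit 557100) (nat_lit 13) (.e (nat_lit 172113) (nat_lit 10) (.e (nat_lit 434245) (nat_lit 28) (.e (nat_lit 573471) (nat_lit 11) (.e (nat_lit 24320) (nat_lit 9) (.e (nat_lit 426389) (nat_lit 15) .nil))))))) (.g (nat_lit 5) .nil .nil)))))) (.nd (nat_lit 3) (.nd (nat_lit 4) (.nd (nat_lit 5) 
(.lf (nat_lit 82887) (.g (nat_lit 3297) (.e (nat_lit 1856) (nat_lit 124) (.e (nat_lit 557100) (nat_lit 13) (.e (nat_lit 172113) (nat_lit 10) (.e (nat_lit 434238) (nat_lit 25) (.e (nat_lit 548913) (nat_lit 18) (.e (nat_lit 172088) (nat_lit 9) (.e (nat_lit 426412) (nat_lit 15) .nil))))))) (.g (nat_lit 5) .nil .nil))) 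
(.lf (nat_lit 82919) (.g (nat_lit 2956) (.e (nat_lit 1856) (nat_lit 124) (.e (nat_lit 557100) (nat_lit 13) (.e (nat_lit 172113) (nat_lit 10) (.e (nat_lit 434245) (nat_lit 28) (.e (nat_lit 573471) (nat_lit 11) (.e (nat_lit 16434) (nat_lit 9) (.e (nat_lit 426378) (nat_lit 15) .nil))))))) (.g (nat_lit 5) .nil .nil)))) (.nd (nat_lit 5) 
(.lf (nat_lit 82903) (.g (nat_lit 2206) (.e (nat_lit 1856) (nat_lit 124) (.e (nat_lit 557100) (nat_lit 13) (.e (nat_lit 172113) (nat_lit 10) (.e (nat_lit 434245) (nat_lit 28) (.e (nat_lit 573451) (nat_lit 9) (.e (nat_lit 7936) (nat_lit 37) (.e (nat_lit 466947) (nat_lit 0) .nil))))))) (.g (nat_lit 4) .nil .nil))) 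
(.lf (nat_lit 82935) (.g (nat_lit 2326) (.e (nat_lit 1856) (nat_lit 124) (.e (nat_lit 557100) (nat_lit 13) (.e (nat_lit 172113) (nat_lit 10) (.e (nat_lit 434245) (nat_lit 28) (.e (nat_lit 573471) (nat_lit 11) (.e (nat_lit 16445) (nat_lit 9) (.e (nat_lit 426410) (nat_lit 15) .nil))))))) (.g (nat_lit 4) .nil .nil))))) (.nd (nat_lit 4) (.nd (nat_lit 5) 
(.lf (nat_lit 82895) (.g (nat_lit 4464) (.e (nat_lit 1856) (nat_lit 124) (.e (nat_lit 557100) (nat_lit 13) (.e (nat_lit 172113) (nat_lit 10) (.e (nat_lit 434242) (nat_lit 28) (.e (nat_lit 573474) (nat_lit 12) (.e (nat_lit 57348) (nat_lit 0) (.e (nat_lit 6923) (nat_lit 371) (.e (nat_lit 2628) (nat_lit 164) (.e (nat_lit 172138) (nat_lit 15) .nil))))))))) (.g (nat_lit 5) .nil .nil))) 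
(.lf (nat_lit 82927) (.g (nat_lit 3292) (.e (nat_lit 1856) (nat_lit 124) (.e (nat_lit 557100) (nat_lit 13) (.e (nat_lit 172113) (nat_lit 10) (.e (nat_lit 434245) (nat_lit 28) (.e (nat_lit 573471) (nat_lit 11) (.e (nat_lit 16440) (nat_lit 9) (.e (nat_lit 426414) (nat_lit 15) .nil))))))) (.g (nat_lit 5) .nil .nil)))) (.nd (nat_lit 5) 
(.lf (nat_lit 82911) (.g (nat_lit 3307) (.e (nat_lit 1856) (nat_lit 124) (.e (nat_lit 557100) (nat_lit 13) (.e (nat_lit 172113) (nat_lit 10) (.e (nat_lit 434245) (nat_lit 28) (.e (nat_lit 573470) (nat_lit 11) (.e (nat_lit 16435) (nat_lit 9) (.e (nat_lit 426382) (nat_lit 15) .nil))))))) (.g (nat_lit 6) .nil .nil))) 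
(.lf (nat_lit 82943) (.g (nat_lit 1940) (.e (nat_lit 1856) (nat_lit 124) (.e (nat_lit 557100) (nat_lit 13) (.e (nat_lit 172113) (nat_lit 10) (.e (nat_lit 434245) (nat_lit 28) (.e (nat_lit 573473) (nat_lit 12) (.e (nat_lit 57567) (nat_lit 52) (.e (nat_lit 753689) (nat_lit 9) (.e (nat_lit 172138) (nat_lit 15) .nil)))))))) (.g (nat_lit 4) .nil .nil)))))))))

noncomputable def tv1122 : DT := (.nd (nat_lit 0) (.nd (nat_lit 1) (.nd (nat_lit 2) (.nd (nat_lit 3) (.nd (nat_lit 4) (.nd (nat_lit 5) 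
(.lf (nat_lit 82944) (.g (nat_lit 3396) (.e (nat_lit 1856) (nat_lit 124) (.e (nat_lit 557100) (nat_lit 13) (.e (nat_lit 172113) (nat_lit 10) (.e (nat_lit 434245) (nat_lit 28) (.e (nat_lit 573474) (nat_lit 12) (.e (nat_lit 57344) (nat_lit 0) (.e (nat_lit 6850) (nat_lit 371) (.e (nat_lit 2630) (nat_lit 164) (.e (nat_lit 172138) (nat_lit 15) .nil))))))))) (.g (nat_lit 5) .nil .nil))) 
(.lf (nat_lit 82976) (.g (nat_lit 5238) (.e (nat_lit 1856) (nat_lit 124) (.e (nat_lit 557100) (nat_lit 13) (.e (nat_lit 172113) (nat_lit 10) (.e (nat_lit 434248) (nat_lit 28) (.e (nat_lit 573475) (nat_lit 12) (.e (nat_lit 57348) (nat_lit 0) (.e (nat_lit 6923) (nat_lit 371) (.e (nat_lit 2628) (nat_lit 164) (.e (nat_lit 172138) (nat_lit 15) .nil))))))))) (.g (nat_lit 9) .nil .nil)))) 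
(.nd (nat_lit 5) 
(.lf (nat_lit 82960) (.g (nat_lit 2369) (.e (nat_lit 1856) (nat_lit 124) (.e (nat_lit 557100) (nat_lit 13) (.e (nat_lit 172113) (nat_lit 10) (.e (nat_lit 434248) (nat_lit 28) (.e (nat_lit 573448) (nat_lit 9) (.e (nat_lit 458) (nat_lit 34) (.e (nat_lit 442379) (nat_lit 0) .nil))))))) (.g (nat_lit 4) .nil .nil))) 
(.lf (nat_lit 82992) (.g (nat_lit 3548) (.e (nat_lit 1856) (nat_lit 124) (.e (nat_lit 557100) (nat_lit 13) (.e (nat_lit 172124) (nat_lit 14) (.e (nat_lit 491540) (nat_lit 3) (.e (nat_lit 98370) (nat_lit 28) (.e (nat_lit 442377) (nat_lit 0) .nil)))))) (.g (nat_lit 6) .nil .nil))))) (.nd (nat_lit 4) (.nd (nat_lit 5) 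
(.lf (nat_lit 82952) (.g (nat_lit 2011) (.e (nat_lit 1856) (nat_lit 124) (.e (nat_lit 557100) (nat_lit 13) (.e (nat_lit 172113) (nat_lit 10) (.e (nat_lit 434247) (nat_lit 28) (.e (nat_lit 573454) (nat_lit 9) .nil))))) .nil)) 
(.lf (nat_lit 82984) (.g (nat_lit 3361) (.e (nat_lit 1856) (nat_lit 124) (.e (nat_lit 557100) (nat_lit 13) (.e (nat_lit 172119) (nat_lit 12) (.e (nat_lit 475185) (nat_lit 29) (.e (nat_lit 557107) (nat_lit 15) (.e (nat_lit 188418) (nat_lit 0) .nil)))))) (.g (nat_lit 4) .nil .nil)))) (.nd (nat_lit 5) 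
(.lf (nat_lit 82968) (.g (nat_lit 2570) (.e (nat_lit 1856) (nat_lit 124) (.e (nat_lit 557100) (nat_lit 13) (.e (nat_lit 172113) (nat_lit 10) (.e (nat_lit 434248) (nat_lit 28) (.e (nat_lit 581376) (nat_lit 9) (.e (nat_lit 463) (nat_lit 34) (.e (nat_lit 442379) (nat_lit 0) .nil))))))) (.g (nat_lit 4) .nil .nil))) 
(.lf (nat_lit 83000) (.g (nat_lit 2400) (.e (nat_lit 1856) (nat_lit 124) (.e (nat_lit 557100) (nat_lit 13) (.e (nat_lit 172126) (nat_lit 14) (.e (nat_lit 491539) (nat_lit 3) (.e (nat_lit 98369) (nat_lit 28) (.e (nat_lit 442374) (nat_lit 0) .nil)))))) (.g (nat_lit 4) .nil .nil)))))) (.nd (nat_lit 3) (.nd (nat_lit 4) (.nd (nat_lit 5) 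
(.lf (nat_lit 82948) (.g (nat_lit 3099) (.e (nat_lit 1856) (nat_lit 124) (.e (nat_lit 557100) (nat_lit 13) (.e (nat_lit 172113) (nat_lit 10) (.e (nat_lit 434245) (nat_lit 28) (.e (nat_lit 573474) (nat_lit 12) (.e (nat_lit 57567) (nat_lit 52) (.e (nat_lit 753680) (nat_lit 5) (.e (nat_lit 2887) (nat_lit 184) (.e (nat_lit 426412) (nat_lit 15) .nil))))))))) (.g (nat_lit 5) .nil .nil))) 
(.lf (nat_lit 82980) (.g (nat_lit 1352) (.e (nat_lit 1856) (nat_lit 124) (.e (nat_lit 557100) (nat_lit 13) (.e (nat_lit 172115) (nat_lit 10) (.e (nat_lit 434231) (nat_lit 23) .nil)))) .nil))) (.nd (nat_lit 5) 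
(.lf (nat_lit 82964) (.g (nat_lit 2742) (.e (nat_lit 1856) (nat_lit 124) (.e (nat_lit 557100) (nat_lit 13) (.e (nat_lit 172113) (nat_lit 10) (.e (nat_lit 434248) (nat_lit 28) (.e (nat_lit 573454) (nat_lit 9) (.e (nat_lit 458) (nat_lit 34) (.e (nat_lit 442378) (nat_lit 0) .nil))))))) (.g (nat_lit 4) .nil .nil))) 
(.lf (nat_lit 82996) (.g (nat_lit 2629) (.e (nat_lit 1856) (nat_lit 124) (.e (nat_lit 557100) (nat_lit 13) (.e (nat_lit 172126) (nat_lit 14) (.e (nat_lit 491536) (nat_lit 2) (.e (nat_lit 90178) (nat_lit 15) .nil))))) .nil)))) (.nd (nat_lit 4) (.nd (nat_lit 5) 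
(.lf (nat_lit 82956) (.g (nat_lit 2578) (.e (nat_lit 1856) (nat_lit 124) (.e (nat_lit 557100) (nat_lit 13) (.e (nat_lit 172113) (nat_lit 10) (.e (nat_lit 434247) (nat_lit 28) (.e (nat_lit 573457) (nat_lit 9) (.e (nat_lit 430) (nat_lit 32) (.e (nat_lit 426189) (nat_lit 9) (.e (nat_lit 426382) (nat_lit 15) .nil)))))))) (.g (nat_lit 4) .nil .nil))) 
(.lf (nat_lit 82988) (.g (nat_lit 3647) (.e (nat_lit 1856) (nat_lit 124) (.e (nat_lit 557100) (nat_lit 13) (.e (nat_lit 172120) (nat_lit 12) (.e (nat_lit 475184) (nat_lit 29) (.e (nat_lit 557109) (nat_lit 15) (.e (nat_lit 188419) (nat_lit 0) .nil)))))) (.g (nat_lit 5) .nil .nil)))) (.nd (nat_lit 5) 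
(.lf (nat_lit 82972) (.g (nat_lit 2760) (.e (nat_lit 1856) (nat_lit 124) (.e (nat_lit 557100) (nat_lit 13) (.e (nat_lit 172113) (nat_lit 10) (.e (nat_lit 434248) (nat_lit 28) (.e (nat_lit 573473) (nat_lit 12) (.e (nat_lit 57567) (nat_lit 52) (.e (nat_lit 753688) (nat_lit 9) (.e (nat_lit 172138) (nat_lit 15) .nil)))))))) (.g (nat_lit 5) .nil .nil))) 
(.lf (nat_lit 83004) (.g (nat_lit 3027) (.e (nat_lit 1856) (nat_lit 124) (.e (nat_lit 557100) (nat_lit 13) (.e (nat_lit 172126) (nat_lit 14) (.e (nat_lit 491539) (nat_lit 3) (.e (nat_lit 98381) (nat_lit 31) (.e (nat_lit 466947) (nat_lit 0) .nil)))))) (.g (nat_lit 4) .nil .nil))))))) (.nd (nat_lit 2) (.nd (nat_lit 3) (.nd (nat_lit 4) (.nd (nat_lit 5) 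
(.lf (nat_lit 82946) (.g (nat_lit 3246) (.e (nat_lit 1856) (nat_lit 124) (.e (nat_lit 557100) (nat_lit 13) (.e (nat_lit 172113) (nat_lit 10) (.e (nat_lit 434245) (nat_lit 28) (.e (nat_lit 573474) (nat_lit 12) (.e (nat_lit 57565) (nat_lit 52) (.e (nat_lit 753688) (nat_lit 9) (.e (nat_lit 172138) (nat_lit 15) .nil)))))))) (.g (nat_lit 5) .nil .nil))) 
(.lf (nat_lit 82978) (.g (nat_lit 2801) (.e (nat_lit 1856) (nat_lit 124) (.e (nat_lit 557100) (nat_lit 13) (.e (nat_lit 172113) (nat_lit 10) (.e (nat_lit 434248) (nat_lit 28) (.e (nat_lit 573475) (nat_lit 12) (.e (nat_lit 57567) (nat_lit 52) (.e (nat_lit 753688) (nat_lit 9) (.e (nat_lit 172138) (nat_lit 15) .nil)))))))) (.g (nat_lit 5) .nil .nil)))) (.nd (nat_lit 5) 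
(.lf (nat_lit 82962) (.g (nat_lit 2626) (.e (nat_lit 1856) (nat_lit 124) (.e (nat_lit 557100) (nat_lit 13) (.e (nat_lit 172113) (nat_lit 10) (.e (nat_lit 434248) (nat_lit 28) (.e (nat_lit 573452) (nat_lit 9) (.e (nat_lit 7936) (nat_lit 34) (.e (nat_lit 442374) (nat_lit 0) .nil))))))) (.g (nat_lit 4) .nil .nil))) 
(.lf (nat_lit 82994) (.g (nat_lit 2302) (.e (nat_lit 1856) (nat_lit 124) (.e (nat_lit 557100) (nat_lit 13) (.e (nat_lit 172126) (nat_lit 14) (.e (nat_lit 491524) (nat_lit 0) (.e (nat_lit 1691) (nat_lit 117) .nil))))) .nil)))) (.nd (nat_lit 4) (.nd (nat_lit 5) 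
(.lf (nat_lit 82954) (.g (nat_lit 2818) (.e (nat_lit 1856) (nat_lit 124) (.e (nat_lit 557100) (nat_lit 13) (.e (nat_lit 172113) (nat_lit 10) (.e (nat_lit 434247) (nat_lit 28) (.e (nat_lit 573456) (nat_lit 9) (.e (nat_lit 430) (nat_lit 32) (.e (nat_lit 426189) (nat_lit 9) (.e (nat_lit 426382) (nat_lit 15) .nil)))))))) (.g (nat_lit 4) .nil .nil))) 
(.lf (nat_lit 82986) (.g (nat_lit 1700) (.e (nat_lit 1856) (nat_lit 124) (.e (nat_lit 557100) (nat_lit 13) (.e (nat_lit 172120) (nat_lit 12) (.e (nat_lit 475183) (nat_lit 29) .nil)))) .nil))) (.nd (nat_lit 5) 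
(.lf (nat_lit 82970) (.g (nat_lit 1535) (.e (nat_lit 1856) (nat_lit 124) (.e (nat_lit 557100) (nat_lit 13) (.e (nat_lit 172113) (nat_lit 10) (.e (nat_lit 434248) (nat_lit 28) (.e (nat_lit 573471) (nat_lit 11) .nil))))) .nil)) 
(.lf (nat_lit 83002) (.g (nat_lit 2975) (.e (nat_lit 1856) (nat_lit 124) (.e (nat_lit 557100) (nat_lit 13) (.e (nat_lit 172126) (nat_lit 14) (.e (nat_lit 491539) (nat_lit 3) (.e (nat_lit 98370) (nat_lit 28) (.e (nat_lit 442377) (nat_lit 0) .nil)))))) (.g (nat_lit 4) .nil .nil)))))) (.nd (nat_lit 3) (.nd (nat_lit 4) (.nd (nat_lit 5) 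
(.lf (nat_lit 82950) (.g (nat_lit 3709) (.e (nat_lit 1856) (nat_lit 124) (.e (nat_lit 557100) (nat_lit 13) (.e (nat_lit 172113) (nat_lit 10) (.e (nat_lit 434245) (nat_lit 28) (.e (nat_lit 573474) (nat_lit 12) (.e (nat_lit 57567) (nat_lit 52) (.e (nat_lit 753689) (nat_lit 9) (.e (nat_lit 172138) (nat_lit 15) .nil)))))))) (.g (nat_lit 5) .nil .nil))) 
(.lf (nat_lit 82982) (.g (nat_lit 3814) (.e (nat_lit 1856) (nat_lit 124) (.e (nat_lit 557100) (nat_lit 13) (.e (nat_lit 172118) (nat_lit 12) (.e (nat_lit 475185) (nat_lit 29) (.e (nat_lit 557109) (nat_lit 15) (.e (nat_lit 188418) (nat_lit 0) .nil)))))) (.g (nat_lit 5) .nil .nil)))) (.nd (nat_lit 5) 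
(.lf (nat_lit 82966) (.g (nat_lit 1880) (.e (nat_lit 1856) (nat_lit 124) (.e (nat_lit 557100) (nat_lit 13) (.e (nat_lit 172113) (nat_lit 10) (.e (nat_lit 434248) (nat_lit 28) (.e (nat_lit 573457) (nat_lit 9) .nil))))) .nil)) 
(.lf (nat_lit 82998) (.g (nat_lit 4361) (.e (nat_lit 1856) (nat_lit 124) (.e (nat_lit 557100) (nat_lit 13) (.e (nat_lit 172126) (nat_lit 14) (.e (nat_lit 491537) (nat_lit 2) (.e (nat_lit 90178) (nat_lit 15) (.e (nat_lit 188418) (nat_lit 0) .nil)))))) (.g (nat_lit 0) .nil .nil))))) (.nd (nat_lit 4) (.nd (nat_lit 5) 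
(.lf (nat_lit 82958) (.g (nat_lit 3193) (.e (nat_lit 1856) (nat_lit 124) (.e (nat_lit 557100) (nat_lit 13) (.e (nat_lit 172113) (nat_lit 10) (.e (nat_lit 434247) (nat_lit 28) (.e (nat_lit 573469) (nat_lit 11) (.e (nat_lit 16435) (nat_lit 9) (.e (nat_lit 426382) (nat_lit 15) .nil))))))) (.g (nat_lit 5) .nil .nil))) 
(.lf (nat_lit 82990) (.g (nat_lit 3780) (.e (nat_lit 1856) (nat_lit 124) (.e (nat_lit 557100) (nat_lit 13) (.e (nat_lit 172120) (nat_lit 12) (.e (nat_lit 475185) (nat_lit 29) (.e (nat_lit 557109) (nat_lit 15) (.e (nat_lit 188419) (nat_lit 0) .nil)))))) (.g (nat_lit 5) .nil .nil)))) (.nd (nat_lit 5) 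
(.lf (nat_lit 82974) (.g (nat_lit 1518) (.e (nat_lit 1856) (nat_lit 124) (.e (nat_lit 557100) (nat_lit 13) (.e (nat_lit 172113) (nat_lit 10) (.e (nat_lit 434248) (nat_lit 28) (.e (nat_lit 573475) (nat_lit 12) .nil))))) .nil)) 
(.lf (nat_lit 83006) (.g (nat_lit 3914) (.e (nat_lit 1856) (nat_lit 124) (.e (nat_lit 557100) (nat_lit 13) (.e (nat_lit 172126) (nat_lit 14) (.e (nat_lit 491540) (nat_lit 3) (.e (nat_lit 98370) (nat_lit 28) (.e (nat_lit 442377) (nat_lit 0) .nil)))))) (.g (nat_lit 6) .nil .nil)))))))) (.nd (nat_lit 1) (.nd (nat_lit 2) (.nd (nat_lit 3) (.nd (nat_lit 4) (.nd (nat_lit 5) 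
(.lf (nat_lit 82945) (.g (nat_lit 4147) (.e (nat_lit 1856) (nat_lit 124) (.e (nat_lit 557100) (nat_lit 13) (.e (nat_lit 172113) (nat_lit 10) (.e (nat_lit 434245) (nat_lit 28) (.e (nat_lit 573474) (nat_lit 12) (.e (nat_lit 57347) (nat_lit 0) (.e (nat_lit 6852) (nat_lit 371) (.e (nat_lit 2630) (nat_lit 164) (.e (nat_lit 172138) (nat_lit 15) .nil))))))))) (.g (nat_lit 6) .nil .nil))) 
(.lf (nat_lit 82977) (.g (nat_lit 2850) (.e (nat_lit 1856) (nat_lit 124) (.e (nat_lit 557100) (nat_lit 13) (.e (nat_lit 172113) (nat_lit 10) (.e (nat_lit 434248) (nat_lit 28) (.e (nat_lit 573475) (nat_lit 12) (.e (nat_lit 57566) (nat_lit 52) (.e (nat_lit 753689) (nat_lit 9) (.e (nat_lit 172138) (nat_lit 15) .nil)))))))) (.g (nat_lit 5) .nil .nil)))) (.nd (nat_lit 5) 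
(.lf (nat_lit 82961) (.g (nat_lit 2479) (.e (nat_lit 1856) (nat_lit 124) (.e (nat_lit 557100) (nat_lit 13) (.e (nat_lit 172113) (nat_lit 10) (.e (nat_lit 434248) (nat_lit 28) (.e (nat_lit 573448) (nat_lit 9) (.e (nat_lit 460) (nat_lit 34) (.e (nat_lit 442378) (nat_lit 0) .nil))))))) (.g (nat_lit 4) .nil .nil))) 
(.lf (nat_lit 82993) (.g (nat_lit 3853) (.e (nat_lit 1856) (nat_lit 124) (.e (nat_lit 557100) (nat_lit 13) (.e (nat_lit 172124) (nat_lit 14) (.e (nat_lit 491540) (nat_lit 3) (.e (nat_lit 98370) (nat_lit 28) (.e (nat_lit 442378) (nat_lit 0) .nil)))))) (.g (nat_lit 6) .nil .nil))))) (.nd (nat_lit 4) (.nd (nat_lit 5) 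
(.lf (nat_lit 82953) (.g (nat_lit 3628) (.e (nat_lit 1856) (nat_lit 124) (.e (nat_lit 557100) (nat_lit 13) (.e (nat_lit 172113) (nat_lit 10) (.e (nat_lit 434247) (nat_lit 28) (.e (nat_lit 573454) (nat_lit 9) (.e (nat_lit 7936) (nat_lit 34) (.e (nat_lit 442379) (nat_lit 0) .nil))))))) (.g (nat_lit 5) .nil .nil))) 
(.lf (nat_lit 82985) (.g (nat_lit 3349) (.e (nat_lit 1856) (nat_lit 124) (.e (nat_lit 557100) (nat_lit 13) (.e (nat_lit 172119) (nat_lit 12) (.e (nat_lit 475185) (nat_lit 29) (.e (nat_lit 557107) (nat_lit 15) (.e (nat_lit 188420) (nat_lit 0) .nil)))))) (.g (nat_lit 4) .nil .nil)))) (.nd (nat_lit 5) 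
(.lf (nat_lit 82969) (.g (nat_lit 3456) (.e (nat_lit 1856) (nat_lit 124) (.e (nat_lit 557100) (nat_lit 13) (.e (nat_lit 172113) (nat_lit 10) (.e (nat_lit 434248) (nat_lit 28) (.e (nat_lit 573470) (nat_lit 11) (.e (nat_lit 16435) (nat_lit 9) (.e (nat_lit 426382) (nat_lit 15) .nil))))))) (.g (nat_lit 6) .nil .nil))) 
(.lf (nat_lit 83001) (.g (nat_lit 2900) (.e (nat_lit 1856) (nat_lit 124) (.e (nat_lit 557100) (nat_lit 13) (.e (nat_lit 172126) (nat_lit 14) (.e (nat_lit 491539) (nat_lit 3) (.e (nat_lit 98370) (nat_lit 28) (.e (nat_lit 442374) (nat_lit 0) .nil)))))) (.g (nat_lit 5) .nil .nil)))))) (.nd (nat_lit 3) (.nd (nat_lit 4) (.nd (nat_lit 5) 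
(.lf (nat_lit 82949) (.g (nat_lit 2596) (.e (nat_lit 1856) (nat_lit 124) (.e (nat_lit 557100) (nat_lit 13) (.e (nat_lit 172113) (nat_lit 10) (.e (nat_lit 434245) (nat_lit 28) (.e (nat_lit 573474) (nat_lit 12) (.e (nat_lit 57567) (nat_lit 52) (.e (nat_lit 753688) (nat_lit 9) (.e (nat_lit 172137) (nat_lit 15) .nil)))))))) (.g (nat_lit 4) .nil .nil))) 
(.lf (nat_lit 82981) (.g (nat_lit 4016) (.e (nat_lit 1856) (nat_lit 124) (.e (nat_lit 557100) (nat_lit 13) (.e (nat_lit 172118) (nat_lit 12) (.e (nat_lit 475184) (nat_lit 29) (.e (nat_lit 557109) (nat_lit 15) (.e (nat_lit 188419) (nat_lit 0) .nil)))))) (.g (nat_lit 6) .nil .nil)))) (.nd (nat_lit 5) 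
(.lf (nat_lit 82965) (.g (nat_lit 2772) (.e (nat_lit 1856) (nat_lit 124) (.e (nat_lit 557100) (nat_lit 13) (.e (nat_lit 172113) (nat_lit 10) (.e (nat_lit 434248) (nat_lit 28) (.e (nat_lit 573454) (nat_lit 9) (.e (nat_lit 7936) (nat_lit 34) (.e (nat_lit 442379) (nat_lit 0) .nil))))))) (.g (nat_lit 4) .nil .nil))) 
(.lf (nat_lit 82997) (.g (nat_lit 3410) (.e (nat_lit 1856) (nat_lit 124) (.e (nat_lit 557100) (nat_lit 13) (.e (nat_lit 172126) (nat_lit 14) (.e (nat_lit 491537) (nat_lit 2) (.e (nat_lit 90176) (nat_lit 15) (.e (nat_lit 188418) (nat_lit 0) .nil)))))) (.g (nat_lit 5) .nil .nil))))) (.nd (nat_lit 4) (.nd (nat_lit 5) 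
(.lf (nat_lit 82957) (.g (nat_lit 2192) (.e (nat_lit 1856) (nat_lit 124) (.e (nat_lit 557100) (nat_lit 13) (.e (nat_lit 172113) (nat_lit 10) (.e (nat_lit 434247) (nat_lit 28) (.e (nat_lit 573463) (nat_lit 9) .nil))))) .nil)) 
(.lf (nat_lit 82989) (.g (nat_lit 3873) (.e (nat_lit 1856) (nat_lit 124) (.e (nat_lit 557100) (nat_lit 13) (.e (nat_lit 172120) (nat_lit 12) (.e (nat_lit 475185) (nat_lit 29) (.e (nat_lit 557109) (nat_lit 15) (.e (nat_lit 188418) (nat_lit 0) .nil)))))) (.g (nat_lit 5) .nil .nil)))) (.nd (nat_lit 5) 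
(.lf (nat_lit 82973) (.g (nat_lit 1968) (.e (nat_lit 1856) (nat_lit 124) (.e (nat_lit 557100) (nat_lit 13) (.e (nat_lit 172113) (nat_lit 10) (.e (nat_lit 434248) (nat_lit 28) (.e (nat_lit 573473) (nat_lit 12) (.e (nat_lit 57567) (nat_lit 52) (.e (nat_lit 753689) (nat_lit 9) (.e (nat_lit 172138) (nat_lit 15) .nil)))))))) (.g (nat_lit 4) .nil .nil))) 
(.lf (nat_lit 83005) (.g (nat_lit 1024) (.e (nat_lit 1856) (nat_lit 124) (.e (nat_lit 557100) (nat_lit 13) (.e (nat_lit 172126) (nat_lit 14) (.e (nat_lit 491540) (nat_lit 3) .nil)))) .nil)))))) (.nd (nat_lit 2) (.nd (nat_lit 3) (.nd (nat_lit 4) (.nd (nat_lit 5) 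
(.lf (nat_lit 82947) (.g (nat_lit 3564) (.e (nat_lit 1856) (nat_lit 124) (.e (nat_lit 557100) (nat_lit 13) (.e (nat_lit 172113) (nat_lit 10) (.e (nat_lit 434245) (nat_lit 28) (.e (nat_lit 573474) (nat_lit 12) (.e (nat_lit 57566) (nat_lit 52) (.e (nat_lit 753688) (nat_lit 9) (.e (nat_lit 172138) (nat_lit 15) .nil)))))))) (.g (nat_lit 5) .nil .nil))) 
(.lf (nat_lit 82979) (.g (nat_lit 650) (.e (nat_lit 1856) (nat_lit 124) (.e (nat_lit 557100) (nat_lit 13) (.e (nat_lit 172115) (nat_lit 10) .nil))) .nil))) (.nd (nat_lit 5) 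
(.lf (nat_lit 82963) (.g (nat_lit 2225) (.e (nat_lit 1856) (nat_lit 124) (.e (nat_lit 557100) (nat_lit 13) (.e (nat_lit 172113) (nat_lit 10) (.e (nat_lit 434248) (nat_lit 28) (.e (nat_lit 573452) (nat_lit 9) (.e (nat_lit 7936) (nat_lit 37) (.e (nat_lit 466947) (nat_lit 0) .nil))))))) (.g (nat_lit 4) .nil .nil))) 
(.lf (nat_lit 82995) (.g (nat_lit 2528) (.e (nat_lit 1856) (nat_lit 124) (.e (nat_lit 557100) (nat_lit 13) (.e (nat_lit 172126) (nat_lit 14) (.e (nat_lit 491535) (nat_lit 2) (.e (nat_lit 90176) (nat_lit 15) .nil))))) .nil)))) (.nd (nat_lit 4) (.nd (nat_lit 5) 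
(.lf (nat_lit 82955) (.g (nat_lit 2947) (.e (nat_lit 1856) (nat_lit 124) (.e (nat_lit 557100) (nat_lit 13) (.e (nat_lit 172113) (nat_lit 10) (.e (nat_lit 434247) (nat_lit 28) (.e (nat_lit 573456) (nat_lit 9) (.e (nat_lit 7936) (nat_lit 34) (.e (nat_lit 442377) (nat_lit 0) .nil))))))) (.g (nat_lit 5) .nil .nil))) 
(.lf (nat_lit 82987) (.g (nat_lit 2434) (.e (nat_lit 1856) (nat_lit 124) (.e (nat_lit 557100) (nat_lit 13) (.e (nat_lit 172120) (nat_lit 12) (.e (nat_lit 475183) (nat_lit 29) (.e (nat_lit 557107) (nat_lit 15) .nil))))) .nil))) (.nd (nat_lit 5) 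
(.lf (nat_lit 82971) (.g (nat_lit 2047) (.e (nat_lit 1856) (nat_lit 124) (.e (nat_lit 557100) (nat_lit 13) (.e (nat_lit 172113) (nat_lit 10) (.e (nat_lit 434248) (nat_lit 28) (.e (nat_lit 573473) (nat_lit 12) (.e (nat_lit 57566) (nat_lit 52) (.e (nat_lit 753689) (nat_lit 9) (.e (nat_lit 172138) (nat_lit 15) .nil)))))))) (.g (nat_lit 4) .nil .nil))) 
(.lf (nat_lit 83003) (.g (nat_lit 3191) (.e (nat_lit 1856) (nat_lit 124) (.e (nat_lit 557100) (nat_lit 13) (.e (nat_lit 172126) (nat_lit 14) (.e (nat_lit 491539) (nat_lit 3) (.e (nat_lit 98370) (nat_lit 28) (.e (nat_lit 442378) (nat_lit 0) .nil)))))) (.g (nat_lit 4) .nil .nil)))))) (.nd (nat_lit 3) (.nd (nat_lit 4) (.nd (nat_lit 5) 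
(.lf (nat_lit 82951) (.g (nat_lit 2089) (.e (nat_lit 1856) (nat_lit 124) (.e (nat_lit 557100) (nat_lit 13) (.e (nat_lit 172113) (nat_lit 10) (.e (nat_lit 434247) (nat_lit 28) (.e (nat_lit 573448) (nat_lit 9) .nil))))) .nil)) 
(.lf (nat_lit 82983) (.g (nat_lit 3853) (.e (nat_lit 1856) (nat_lit 124) (.e (nat_lit 557100) (nat_lit 13) (.e (nat_lit 172118) (nat_lit 12) (.e (nat_lit 475185) (nat_lit 29) (.e (nat_lit 557109) (nat_lit 15) (.e (nat_lit 188419) (nat_lit 0) .nil)))))) (.g (nat_lit 5) .nil .nil)))) (.nd (nat_lit 5) 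
(.lf (nat_lit 82967) (.g (nat_lit 1766) (.e (nat_lit 1856) (nat_lit 124) (.e (nat_lit 557100) (nat_lit 13) (.e (nat_lit 172113) (nat_lit 10) (.e (nat_lit 434248) (nat_lit 28) (.e (nat_lit 581376) (nat_lit 9) .nil))))) .nil)) 
(.lf (nat_lit 82999) (.g (nat_lit 1646) (.e (nat_lit 1856) (nat_lit 124) (.e (nat_lit 557100) (nat_lit 13) (.e (nat_lit 172126) (nat_lit 14) (.e (nat_lit 491539) (nat_lit 3) .nil)))) .nil)))) (.nd (nat_lit 4) (.nd (nat_lit 5) 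
(.lf (nat_lit 82959) (.g (nat_lit 2368) (.e (nat_lit 1856) (nat_lit 124) (.e (nat_lit 557100) (nat_lit 13) (.e (nat_lit 172113) (nat_lit 10) (.e (nat_lit 434247) (nat_lit 28) (.e (nat_lit 573477) (nat_lit 12) (.e (nat_lit 57565) (nat_lit 52) (.e (nat_lit 753689) (nat_lit 9) (.e (nat_lit 172138) (nat_lit 15) .nil)))))))) (.g (nat_lit 4) .nil .nil))) 
(.lf (nat_lit 82991) (.g (nat_lit 1835) (.e (nat_lit 1856) (nat_lit 124) (.e (nat_lit 557100) (nat_lit 13) (.e (nat_lit 172124) (nat_lit 14) (.e (nat_lit 491536) (nat_lit 2) (.e (nat_lit 90176) (nat_lit 15) (.e (nat_lit 188420) (nat_lit 0) .nil)))))) (.g (nat_lit 4) .nil .nil)))) (.nd (nat_lit 5) 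
(.lf (nat_lit 82975) (.g (nat_lit 4203) (.e (nat_lit 1856) (nat_lit 124) (.e (nat_lit 557100) (nat_lit 13) (.e (nat_lit 172113) (nat_lit 10) (.e (nat_lit 434248) (nat_lit 28) (.e (nat_lit 573475) (nat_lit 12) (.e (nat_lit 57347) (nat_lit 0) (.e (nat_lit 6852) (nat_lit 371) (.e (nat_lit 2630) (nat_lit 164) (.e (nat_lit 172138) (nat_lit 15) .nil))))))))) (.g (nat_lit 6) .nil .nil))) 
(.lf (nat_lit 83007) (.g (nat_lit 4283) (.e (nat_lit 1856) (nat_lit 124) (.e (nat_lit 557100) (nat_lit 13) (.e (nat_lit 172126) (nat_lit 14) (.e (nat_lit 491540) (nat_lit 3) (.e (nat_lit 98370) (nat_lit 28) (.e (nat_lit 442378) (nat_lit 0) .nil)))))) (.g (nat_lit 0) .nil .nil)))))))))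

noncomputable def tv1123 : DT := (.nd (nat_lit 0) (.nd (nat_lit 1) (.nd (nat_lit 2) (.nd (nat_lit 3) (.nd (nat_lit 4) (.nd (nat_lit 5) 
(.lf (nat_lit 83008) (.g (nat_lit 1274) (.e (nat_lit 1856) (nat_lit 124) (.e (nat_lit 557101) (nat_lit 13) (.e (nat_lit 172080) (nat_lit 7) (.e (nat_lit 409631) (nat_lit 12) (.e (nat_lit 32809) (nat_lit 20) (.e (nat_lit 188418) (nat_lit 0) .nil)))))) (.g (nat_lit 5) .nil .nil))) 
(.lf (nat_lit 83040) (.g (nat_lit 3925) (.e (nat_lit 1856) (nat_lit 124) (.e (nat_lit 557101) (nat_lit 13) (.e (nat_lit 172115) (nat_lit 10) (.e (nat_lit 434244) (nat_lit 28) (.e (nat_lit 573471) (nat_lit 11) (.e (nat_lit 16446) (nat_lit 9) (.e (nat_lit 426413) (nat_lit 15) .nil))))))) (.g (nat_lit 6) .nil .nil)))) (.nd (nat_lit 5) 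
(.lf (nat_lit 83024) (.g (nat_lit 2774) (.e (nat_lit 1856) (nat_lit 124) (.e (nat_lit 557101) (nat_lit 13) (.e (nat_lit 172115) (nat_lit 10) (.e (nat_lit 434231) (nat_lit 23) (.e (nat_lit 532490) (nat_lit 0) (.e (nat_lit 6114) (nat_lit 332) (.e (nat_lit 1374) (nat_lit 104) (.e (nat_lit 303150) (nat_lit 15) .nil)))))))) (.g (nat_lit 4) .nil .nil))) 
(.lf (nat_lit 83056) (.g (nat_lit 265) (.e (nat_lit 1856) (nat_lit 124) (.e (nat_lit 557103) (nat_lit 14) (.e (nat_lit 188160) (nat_lit 32) .nil))) .nil)))) (.nd (nat_lit 4) (.nd (nat_lit 5) 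
(.lf (nat_lit 83016) (.g (nat_lit 2411) (.e (nat_lit 1856) (nat_lit 124) (.e (nat_lit 557101) (nat_lit 13) (.e (nat_lit 172097) (nat_lit 9) (.e (nat_lit 426140) (nat_lit 3) (.e (nat_lit 204821) (nat_lit 17) (.e (nat_lit 6114) (nat_lit 332) (.e (nat_lit 1379) (nat_lit 104) (.e (nat_lit 303150) (nat_lit 15) .nil)))))))) (.g (nat_lit 4) .nil .nil))) 
(.lf (nat_lit 83048) (.g (nat_lit 2707) (.e (nat_lit 1856) (nat_lit 124) (.e (nat_lit 557101) (nat_lit 13) (.e (nat_lit 172124) (nat_lit 14) (.e (nat_lit 491540) (nat_lit 3) (.e (nat_lit 98370) (nat_lit 28) (.e (nat_lit 442377) (nat_lit 0) .nil)))))) (.g (nat_lit 5) .nil .nil)))) (.nd (nat_lit 5) 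
(.lf (nat_lit 83032) (.g (nat_lit 1573) (.e (nat_lit 1856) (nat_lit 124) (.e (nat_lit 557101) (nat_lit 13) (.e (nat_lit 172115) (nat_lit 10) (.e (nat_lit 434244) (nat_lit 28) (.e (nat_lit 573471) (nat_lit 11) .nil))))) .nil)) 
(.lf (nat_lit 83064) (.g (nat_lit 1479) (.e (nat_lit 1856) (nat_lit 124) (.e (nat_lit 557105) (nat_lit 14) (.e (nat_lit 180227) (nat_lit 0) (.e (nat_lit 4598) (nat_lit 269) .nil)))) .nil))))) (.nd (nat_lit 3) (.nd (nat_lit 4) (.nd (nat_lit 5) 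
(.lf (nat_lit 83012) (.g (nat_lit 2552) (.e (nat_lit 1856) (nat_lit 124) (.e (nat_lit 557101) (nat_lit 13) (.e (nat_lit 172097) (nat_lit 9) (.e (nat_lit 426125) (nat_lit 2) (.e (nat_lit 196661) (nat_lit 12) (.e (nat_lit 65280) (nat_lit 205) (.e (nat_lit 172136) (nat_lit 15) .nil))))))) (.g (nat_lit 4) .nil .nil))) 
(.lf (nat_lit 83044) (.g (nat_lit 2699) (.e (nat_lit 1856) (nat_lit 124) (.e (nat_lit 557101) (nat_lit 13) (.e (nat_lit 172120) (nat_lit 12) (.e (nat_lit 475185) (nat_lit 29) (.e (nat_lit 557107) (nat_lit 15) (.e (nat_lit 188418) (nat_lit 0) .nil)))))) (.g (nat_lit 4) .nil .nil)))) (.nd (nat_lit 5) 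
(.lf (nat_lit 83028) (.g (nat_lit 2739) (.e (nat_lit 1856) (nat_lit 124) (.e (nat_lit 557101) (nat_lit 13) (.e (nat_lit 172115) (nat_lit 10) (.e (nat_lit 434231) (nat_lit 23) (.e (nat_lit 532490) (nat_lit 0) (.e (nat_lit 7936) (nat_lit 361) (.e (nat_lit 172138) (nat_lit 15) .nil))))))) (.g (nat_lit 5) .nil .nil))) 
(.lf (nat_lit 83060) (.g (nat_lit 1336) (.e (nat_lit 1856) (nat_lit 124) (.e (nat_lit 557103) (nat_lit 14) (.e (nat_lit 180282) (nat_lit 45) (.e (nat_lit 2570) (nat_lit 160) (.e (nat_lit 32809) (nat_lit 20) .nil))))) .nil)))) (.nd (nat_lit 4) (.nd (nat_lit 5) 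
(.lf (nat_lit 83020) (.g (nat_lit 1949) (.e (nat_lit 1856) (nat_lit 124) (.e (nat_lit 557101) (nat_lit 13) (.e (nat_lit 172115) (nat_lit 10) (.e (nat_lit 434227) (nat_lit 20) (.e (nat_lit 507930) (nat_lit 10) (.e (nat_lit 5770) (nat_lit 316) (.e (nat_lit 172133) (nat_lit 15) .nil))))))) (.g (nat_lit 4) .nil .nil))) 
(.lf (nat_lit 83052) (.g (nat_lit 1022) (.e (nat_lit 1856) (nat_lit 124) (.e (nat_lit 557101) (nat_lit 13) (.e (nat_lit 172126) (nat_lit 14) (.e (nat_lit 491539) (nat_lit 3) .nil)))) .nil))) (.nd (nat_lit 5) 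
(.lf (nat_lit 83036) (.g (nat_lit 3503) (.e (nat_lit 1856) (nat_lit 124) (.e (nat_lit 557101) (nat_lit 13) (.e (nat_lit 172115) (nat_lit 10) (.e (nat_lit 434244) (nat_lit 28) (.e (nat_lit 573471) (nat_lit 11) (.e (nat_lit 16440) (nat_lit 9) (.e (nat_lit 426411) (nat_lit 15) .nil))))))) (.g (nat_lit 6) .nil .nil))) 
(.lf (nat_lit 83068) (.g (nat_lit 3347) (.e (nat_lit 1856) (nat_lit 124) (.e (nat_lit 557105) (nat_lit 14) (.e (nat_lit 180252) (nat_lit 10) (.e (nat_lit 573482) (nat_lit 13) (.e (nat_lit 65637) (nat_lit 15) .nil))))) .nil)))))) (.nd (nat_lit 2) (.nd (nat_lit 3) (.nd (nat_lit 4) (.nd (nat_lit 5) 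
(.lf (nat_lit 83010) (.g (nat_lit 1651) (.e (nat_lit 1856) (nat_lit 124) (.e (nat_lit 557101) (nat_lit 13) (.e (nat_lit 172097) (nat_lit 9) (.e (nat_lit 426125) (nat_lit 2) (.e (nat_lit 196661) (nat_lit 12) .nil))))) .nil)) 
(.lf (nat_lit 83042) (.g (nat_lit 891) (.e (nat_lit 1856) (nat_lit 124) (.e (nat_lit 557101) (nat_lit 13) (.e (nat_lit 172119) (nat_lit 12) (.e (nat_lit 475184) (nat_lit 29) .nil)))) .nil))) (.nd (nat_lit 5) 
(.lf (nat_lit 83026) (.g (nat_lit 3432) (.e (nat_lit 1856) (nat_lit 124) (.e (nat_lit 557101) (nat_lit 13) (.e (nat_lit 172115) (nat_lit 10) (.e (nat_lit 434231) (nat_lit 23) (.e (nat_lit 532490) (nat_lit 0) (.e (nat_lit 6114) (nat_lit 332) (.e (nat_lit 1379) (nat_lit 104) (.e (nat_lit 303150) (nat_lit 15) .nil)))))))) (.g (nat_lit 5) .nil .nil))) 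
(.lf (nat_lit 83058) (.g (nat_lit 265) (.e (nat_lit 1856) (nat_lit 124) (.e (nat_lit 557103) (nat_lit 14) (.e (nat_lit 188160) (nat_lit 38) .nil))) .nil)))) (.nd (nat_lit 4) (.nd (nat_lit 5) 
(.lf (nat_lit 83018) (.g (nat_lit 1932) (.e (nat_lit 1856) (nat_lit 124) (.e (nat_lit 557101) (nat_lit 13) (.e (nat_lit 172115) (nat_lit 10) (.e (nat_lit 434226) (nat_lit 20) (.e (nat_lit 507944) (nat_lit 18) (.e (nat_lit 303133) (nat_lit 9) (.e (nat_lit 426412) (nat_lit 15) .nil))))))) (.g (nat_lit 4) .nil .nil))) 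
(.lf (nat_lit 83050) (.g (nat_lit 2977) (.e (nat_lit 1856) (nat_lit 124) (.e (nat_lit 557101) (nat_lit 13) (.e (nat_lit 172126) (nat_lit 14) (.e (nat_lit 491537) (nat_lit 2) (.e (nat_lit 90176) (nat_lit 15) (.e (nat_lit 188420) (nat_lit 0) .nil)))))) (.g (nat_lit 0) .nil .nil)))) (.nd (nat_lit 5) 
(.lf (nat_lit 83034) (.g (nat_lit 2313) (.e (nat_lit 1856) (nat_lit 124) (.e (nat_lit 557101) (nat_lit 13) (.e (nat_lit 172115) (nat_lit 10) (.e (nat_lit 434244) (nat_lit 28) (.e (nat_lit 573471) (nat_lit 11) (.e (nat_lit 16440) (nat_lit 9) (.e (nat_lit 426380) (nat_lit 15) .nil))))))) (.g (nat_lit 4) .nil .nil))) 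
(.lf (nat_lit 83066) (.g (nat_lit 2439) (.e (nat_lit 1856) (nat_lit 124) (.e (nat_lit 557105) (nat_lit 14) (.e (nat_lit 180252) (nat_lit 10) (.e (nat_lit 573481) (nat_lit 13) .nil)))) .nil))))) (.nd (nat_lit 3) (.nd (nat_lit 4) (.nd (nat_lit 5) 
(.lf (nat_lit 83014) (.g (nat_lit 1716) (.e (nat_lit 1856) (nat_lit 124) (.e (nat_lit 557101) (nat_lit 13) (.e (nat_lit 172097) (nat_lit 9) (.e (nat_lit 426140) (nat_lit 3) (.e (nat_lit 204821) (nat_lit 17) .nil))))) .nil)) 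
(.lf (nat_lit 83046) (.g (nat_lit 2837) (.e (nat_lit 1856) (nat_lit 124) (.e (nat_lit 557101) (nat_lit 13) (.e (nat_lit 172124) (nat_lit 14) (.e (nat_lit 491537) (nat_lit 2) (.e (nat_lit 90176) (nat_lit 15) (.e (nat_lit 188420) (nat_lit 0) .nil)))))) (.g (nat_lit 0) .nil .nil)))) (.nd (nat_lit 5) 
(.lf (nat_lit 83030) (.g (nat_lit 3726) (.e (nat_lit 1856) (nat_lit 124) (.e (nat_lit 557101) (nat_lit 13) (.e (nat_lit 172115) (nat_lit 10) (.e (nat_lit 434231) (nat_lit 23) (.e (nat_lit 532569) (nat_lit 16) (.e (nat_lit 401442) (nat_lit 9) (.e (nat_lit 426412) (nat_lit 15) .nil))))))) (.g (nat_lit 5) .nil .nil))) 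
(.lf (nat_lit 83062) (.g (nat_lit 2835) (.e (nat_lit 1856) (nat_lit 124) (.e (nat_lit 557104) (nat_lit 14) (.e (nat_lit 180278) (nat_lit 32) (.e (nat_lit 1234) (nat_lit 91) (.e (nat_lit 90176) (nat_lit 15) (.e (nat_lit 188420) (nat_lit 0) .nil)))))) (.g (nat_lit 5) .nil .nil))))) (.nd (nat_lit 4) (.nd (nat_lit 5) 
(.lf (nat_lit 83022) (.g (nat_lit 3002) (.e (nat_lit 1856) (nat_lit 124) (.e (nat_lit 557101) (nat_lit 13) (.e (nat_lit 172115) (nat_lit 10) (.e (nat_lit 434231) (nat_lit 23) (.e (nat_lit 532481) (nat_lit 0) (.e (nat_lit 6716) (nat_lit 361) (.e (nat_lit 172138) (nat_lit 15) .nil))))))) (.g (nat_lit 5) .nil .nil))) 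
(.lf (nat_lit 83054) (.g (nat_lit 2724) (.e (nat_lit 1856) (nat_lit 124) (.e (nat_lit 557101) (nat_lit 13) (.e (nat_lit 172126) (nat_lit 14) (.e (nat_lit 491540) (nat_lit 3) (.e (nat_lit 98369) (nat_lit 28) (.e (nat_lit 442374) (nat_lit 0) .nil)))))) (.g (nat_lit 0) .nil .nil)))) (.nd (nat_lit 5) 
(.lf (nat_lit 83038) (.g (nat_lit 2768) (.e (nat_lit 1856) (nat_lit 124) (.e (nat_lit 557101) (nat_lit 13) (.e (nat_lit 172115) (nat_lit 10) (.e (nat_lit 434244) (nat_lit 28) (.e (nat_lit 573471) (nat_lit 11) (.e (nat_lit 16444) (nat_lit 9) (.e (nat_lit 426391) (nat_lit 15) .nil))))))) (.g (nat_lit 5) .nil .nil))) 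
(.lf (nat_lit 83070) (.g (nat_lit 2441) (.e (nat_lit 1856) (nat_lit 124) (.e (nat_lit 557105) (nat_lit 14) (.e (nat_lit 180252) (nat_lit 10) (.e (nat_lit 573488) (nat_lit 14) .nil)))) .nil))))))) (.nd (nat_lit 1) (.nd (nat_lit 2) (.nd (nat_lit 3) (.nd (nat_lit 4) (.nd (nat_lit 5) 
(.lf (nat_lit 83009) (.g (nat_lit 1187) (.e (nat_lit 1856) (nat_lit 124) (.e (nat_lit 557101) (nat_lit 13) (.e (nat_lit 172080) (nat_lit 7) (.e (nat_lit 409631) (nat_lit 12) (.e (nat_lit 32809) (nat_lit 20) (.e (nat_lit 188420) (nat_lit 0) .nil)))))) (.g (nat_lit 5) .nil .nil))) 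
(.lf (nat_lit 83041) (.g (nat_lit 2067) (.e (nat_lit 1856) (nat_lit 124) (.e (nat_lit 557101) (nat_lit 13) (.e (nat_lit 172115) (nat_lit 10) (.e (nat_lit 434244) (nat_lit 28) (.e (nat_lit 573471) (nat_lit 11) (.e (nat_lit 24320) (nat_lit 9) (.e (nat_lit 426389) (nat_lit 15) .nil))))))) (.g (nat_lit 4) .nil .nil)))) (.nd (nat_lit 5) 
(.lf (nat_lit 83025) (.g (nat_lit 3412) (.e (nat_lit 1856) (nat_lit 124) (.e (nat_lit 557101) (nat_lit 13) (.e (nat_lit 172115) (nat_lit 10) (.e (nat_lit 434231) (nat_lit 23) (.e (nat_lit 532490) (nat_lit 0) (.e (nat_lit 6114) (nat_lit 332) (.e (nat_lit 1378) (nat_lit 104) (.e (nat_lit 303150) (nat_lit 15) .nil)))))))) (.g (nat_lit 5) .nil .nil))) 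
(.lf (nat_lit 83057) (.g (nat_lit 265) (.e (nat_lit 1856) (nat_lit 124) (.e (nat_lit 557103) (nat_lit 14) (.e (nat_lit 188160) (nat_lit 35) .nil))) .nil)))) (.nd (nat_lit 4) (.nd (nat_lit 5) 
(.lf (nat_lit 83017) (.g (nat_lit 2028) (.e (nat_lit 1856) (nat_lit 124) (.e (nat_lit 557101) (nat_lit 13) (.e (nat_lit 172097) (nat_lit 9) (.e (nat_lit 426140) (nat_lit 3) (.e (nat_lit 204821) (nat_lit 17) (.e (nat_lit 7936) (nat_lit 361) (.e (nat_lit 172137) (nat_lit 15) .nil))))))) (.g (nat_lit 4) .nil .nil))) 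
(.lf (nat_lit 83049) (.g (nat_lit 3052) (.e (nat_lit 1856) (nat_lit 124) (.e (nat_lit 557101) (nat_lit 13) (.e (nat_lit 172124) (nat_lit 14) (.e (nat_lit 491540) (nat_lit 3) (.e (nat_lit 98370) (nat_lit 28) (.e (nat_lit 442378) (nat_lit 0) .nil)))))) (.g (nat_lit 6) .nil .nil)))) (.nd (nat_lit 5) 
(.lf (nat_lit 83033) (.g (nat_lit 2277) (.e (nat_lit 1856) (nat_lit 124) (.e (nat_lit 557101) (nat_lit 13) (.e (nat_lit 172115) (nat_lit 10) (.e (nat_lit 434244) (nat_lit 28) (.e (nat_lit 573471) (nat_lit 11) (.e (nat_lit 16439) (nat_lit 9) (.e (nat_lit 426410) (nat_lit 15) .nil))))))) (.g (nat_lit 4) .nil .nil))) 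
(.lf (nat_lit 83065) (.g (nat_lit 2290) (.e (nat_lit 1856) (nat_lit 124) (.e (nat_lit 557105) (nat_lit 14) (.e (nat_lit 180252) (nat_lit 10) (.e (nat_lit 573480) (nat_lit 13) .nil)))) .nil))))) (.nd (nat_lit 3) (.nd (nat_lit 4) (.nd (nat_lit 5) 
(.lf (nat_lit 83013) (.g (nat_lit 2464) (.e (nat_lit 1856) (nat_lit 124) (.e (nat_lit 557101) (nat_lit 13) (.e (nat_lit 172097) (nat_lit 9) (.e (nat_lit 426125) (nat_lit 2) (.e (nat_lit 196661) (nat_lit 12) (.e (nat_lit 65280) (nat_lit 205) (.e (nat_lit 172138) (nat_lit 15) .nil))))))) (.g (nat_lit 4) .nil .nil))) 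
(.lf (nat_lit 83045) (.g (nat_lit 2681) (.e (nat_lit 1856) (nat_lit 124) (.e (nat_lit 557101) (nat_lit 13) (.e (nat_lit 172120) (nat_lit 12) (.e (nat_lit 475185) (nat_lit 29) (.e (nat_lit 557107) (nat_lit 15) (.e (nat_lit 188420) (nat_lit 0) .nil)))))) (.g (nat_lit 4) .nil .nil)))) (.nd (nat_lit 5) 
(.lf (nat_lit 83029) (.g (nat_lit 3028) (.e (nat_lit 1856) (nat_lit 124) (.e (nat_lit 557101) (nat_lit 13) (.e (nat_lit 172115) (nat_lit 10) (.e (nat_lit 434231) (nat_lit 23) (.e (nat_lit 532569) (nat_lit 16) (.e (nat_lit 401440) (nat_lit 9) (.e (nat_lit 426410) (nat_lit 15) .nil))))))) (.g (nat_lit 5) .nil .nil))) 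
(.lf (nat_lit 83061) (.g (nat_lit 696) (.e (nat_lit 1856) (nat_lit 124) (.e (nat_lit 557104) (nat_lit 14) (.e (nat_lit 180277) (nat_lit 32) .nil))) .nil)))) (.nd (nat_lit 4) (.nd (nat_lit 5) 
(.lf (nat_lit 83021) (.g (nat_lit 1805) (.e (nat_lit 1856) (nat_lit 124) (.e (nat_lit 557101) (nat_lit 13) (.e (nat_lit 172115) (nat_lit 10) (.e (nat_lit 434227) (nat_lit 20) (.e (nat_lit 507930) (nat_lit 10) (.e (nat_lit 5770) (nat_lit 316) (.e (nat_lit 172138) (nat_lit 15) .nil))))))) (.g (nat_lit 4) .nil .nil))) 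
(.lf (nat_lit 83053) (.g (nat_lit 1931) (.e (nat_lit 1856) (nat_lit 124) (.e (nat_lit 557101) (nat_lit 13) (.e (nat_lit 172126) (nat_lit 14) (.e (nat_lit 491539) (nat_lit 3) (.e (nat_lit 98380) (nat_lit 31) (.e (nat_lit 466947) (nat_lit 0) .nil)))))) (.g (nat_lit 4) .nil .nil)))) (.nd (nat_lit 5) 
(.lf (nat_lit 83037) (.g (nat_lit 3037) (.e (nat_lit 1856) (nat_lit 124) (.e (nat_lit 557101) (nat_lit 13) (.e (nat_lit 172115) (nat_lit 10) (.e (nat_lit 434244) (nat_lit 28) (.e (nat_lit 573471) (nat_lit 11) (.e (nat_lit 16440) (nat_lit 9) (.e (nat_lit 426414) (nat_lit 15) .nil))))))) (.g (nat_lit 5) .nil .nil))) 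
(.lf (nat_lit 83069) (.g (nat_lit 2383) (.e (nat_lit 1856) (nat_lit 124) (.e (nat_lit 557105) (nat_lit 14) (.e (nat_lit 180252) (nat_lit 10) (.e (nat_lit 573487) (nat_lit 14) .nil)))) .nil)))))) (.nd (nat_lit 2) (.nd (nat_lit 3) (.nd (nat_lit 4) (.nd (nat_lit 5) 
(.lf (nat_lit 83011) (.g (nat_lit 2252) (.e (nat_lit 1856) (nat_lit 124) (.e (nat_lit 557101) (nat_lit 13) (.e (nat_lit 172097) (nat_lit 9) (.e (nat_lit 426125) (nat_lit 2) (.e (nat_lit 196661) (nat_lit 12) (.e (nat_lit 57712) (nat_lit 176) (.e (nat_lit 1379) (nat_lit 104) (.e (nat_lit 303150) (nat_lit 15) .nil)))))))) (.g (nat_lit 4) .nil .nil))) 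
(.lf (nat_lit 83043) (.g (nat_lit 4130) (.e (nat_lit 1856) (nat_lit 124) (.e (nat_lit 557101) (nat_lit 13) (.e (nat_lit 172119) (nat_lit 12) (.e (nat_lit 475185) (nat_lit 29) (.e (nat_lit 557109) (nat_lit 15) (.e (nat_lit 188418) (nat_lit 0) .nil)))))) (.g (nat_lit 5) .nil .nil)))) (.nd (nat_lit 5) 
(.lf (nat_lit 83027) (.g (nat_lit 2384) (.e (nat_lit 1856) (nat_lit 124) (.e (nat_lit 557101) (nat_lit 13) (.e (nat_lit 172115) (nat_lit 10) (.e (nat_lit 434231) (nat_lit 23) (.e (nat_lit 532490) (nat_lit 0) (.e (nat_lit 7936) (nat_lit 361) (.e (nat_lit 172137) (nat_lit 15) .nil))))))) (.g (nat_lit 4) .nil .nil))) 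
(.lf (nat_lit 83059) (.g (nat_lit 877) (.e (nat_lit 1856) (nat_lit 124) (.e (nat_lit 557103) (nat_lit 14) (.e (nat_lit 180282) (nat_lit 45) .nil))) .nil)))) (.nd (nat_lit 4) (.nd (nat_lit 5) 
(.lf (nat_lit 83019) (.g (nat_lit 1944) (.e (nat_lit 1856) (nat_lit 124) (.e (nat_lit 557101) (nat_lit 13) (.e (nat_lit 172115) (nat_lit 10) (.e (nat_lit 434227) (nat_lit 20) (.e (nat_lit 507929) (nat_lit 10) (.e (nat_lit 5766) (nat_lit 316) (.e (nat_lit 172133) (nat_lit 15) .nil))))))) (.g (nat_lit 4) .nil .nil))) 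
(.lf (nat_lit 83051) (.g (nat_lit 3402) (.e (nat_lit 1856) (nat_lit 124) (.e (nat_lit 557101) (nat_lit 13) (.e (nat_lit 172126) (nat_lit 14) (.e (nat_lit 491537) (nat_lit 2) (.e (nat_lit 90178) (nat_lit 15) (.e (nat_lit 188418) (nat_lit 0) .nil)))))) (.g (nat_lit 0) .nil .nil)))) (.nd (nat_lit 5) 
(.lf (nat_lit 83035) (.g (nat_lit 3652) (.e (nat_lit 1856) (nat_lit 124) (.e (nat_lit 557101) (nat_lit 13) (.e (nat_lit 172115) (nat_lit 10) (.e (nat_lit 434244) (nat_lit 28) (.e (nat_lit 573471) (nat_lit 11) (.e (nat_lit 16440) (nat_lit 9) (.e (nat_lit 426410) (nat_lit 15) .nil))))))) (.g (nat_lit 6) .nil .nil))) 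
(.lf (nat_lit 83067) (.g (nat_lit 2736) (.e (nat_lit 1856) (nat_lit 124) (.e (nat_lit 557105) (nat_lit 14) (.e (nat_lit 180252) (nat_lit 10) (.e (nat_lit 573481) (nat_lit 13) (.e (nat_lit 73472) (nat_lit 18) .nil))))) .nil))))) (.nd (nat_lit 3) (.nd (nat_lit 4) (.nd (nat_lit 5) 
(.lf (nat_lit 83015) (.g (nat_lit 2346) (.e (nat_lit 1856) (nat_lit 124) (.e (nat_lit 557101) (nat_lit 13) (.e (nat_lit 172097) (nat_lit 9) (.e (nat_lit 426140) (nat_lit 3) (.e (nat_lit 204821) (nat_lit 17) (.e (nat_lit 6114) (nat_lit 332) (.e (nat_lit 1378) (nat_lit 104) (.e (nat_lit 303150) (nat_lit 15) .nil)))))))) (.g (nat_lit 4) .nil .nil))) 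
(.lf (nat_lit 83047) (.g (nat_lit 3246) (.e (nat_lit 1856) (nat_lit 124) (.e (nat_lit 557101) (nat_lit 13) (.e (nat_lit 172124) (nat_lit 14) (.e (nat_lit 491537) (nat_lit 2) (.e (nat_lit 90178) (nat_lit 15) (.e (nat_lit 188418) (nat_lit 0) .nil)))))) (.g (nat_lit 0) .nil .nil)))) (.nd (nat_lit 5) 
(.lf (nat_lit 83031) (.g (nat_lit 3683) (.e (nat_lit 1856) (nat_lit 124) (.e (nat_lit 557101) (nat_lit 13) (.e (nat_lit 172115) (nat_lit 10) (.e (nat_lit 434238) (nat_lit 25) (.e (nat_lit 548913) (nat_lit 18) (.e (nat_lit 172100) (nat_lit 9) (.e (nat_lit 426412) (nat_lit 15) .nil))))))) (.g (nat_lit 5) .nil .nil))) 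
(.lf (nat_lit 83063) (.g (nat_lit 2513) (.e (nat_lit 1856) (nat_lit 124) (.e (nat_lit 557104) (nat_lit 14) (.e (nat_lit 180278) (nat_lit 32) (.e (nat_lit 1235) (nat_lit 91) (.e (nat_lit 90176) (nat_lit 15) (.e (nat_lit 188420) (nat_lit 0) .nil)))))) (.g (nat_lit 5) .nil .nil))))) (.nd (nat_lit 4) (.nd (nat_lit 5) 
(.lf (nat_lit 83023) (.g (nat_lit 1787) (.e (nat_lit 1856) (nat_lit 124) (.e (nat_lit 557101) (nat_lit 13) (.e (nat_lit 172115) (nat_lit 10) (.e (nat_lit 434231) (nat_lit 23) (.e (nat_lit 532490) (nat_lit 0) .nil))))) .nil)) 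
(.lf (nat_lit 83055) (.g (nat_lit 2635) (.e (nat_lit 1856) (nat_lit 124) (.e (nat_lit 557101) (nat_lit 13) (.e (nat_lit 172126) (nat_lit 14) (.e (nat_lit 491540) (nat_lit 3) (.e (nat_lit 98370) (nat_lit 28) (.e (nat_lit 442378) (nat_lit 0) .nil)))))) (.g (nat_lit 5) .nil .nil)))) (.nd (nat_lit 5) 
(.lf (nat_lit 83039) (.g (nat_lit 2710) (.e (nat_lit 1856) (nat_lit 124) (.e (nat_lit 557101) (nat_lit 13) (.e (nat_lit 172115) (nat_lit 10) (.e (nat_lit 434244) (nat_lit 28) (.e (nat_lit 573471) (nat_lit 11) (.e (nat_lit 16446) (nat_lit 9) (.e (nat_lit 426410) (nat_lit 15) .nil))))))) (.g (nat_lit 4) .nil .nil))) 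
(.lf (nat_lit 83071) (.g (nat_lit 1885) (.e (nat_lit 1856) (nat_lit 124) (.e (nat_lit 557105) (nat_lit 14) (.e (nat_lit 180252) (nat_lit 10) (.e (nat_lit 573489) (nat_lit 14) (.e (nat_lit 73755) (nat_lit 8) .nil))))) .nil))))))))

noncomputable def tv1124 : DT := (.nd (nat_lit 0) (.nd (nat_lit 1) (.nd (nat_lit 2) (.nd (nat_lit 3) (.nd (nat_lit 4) (.nd (nat_lit 5) (.nd (nat_lit 6) 
(.lf (nat_lit 83072) (.g (nat_lit 3204) (.e (nat_lit 1856) (nat_lit 124) (.e (nat_lit 557105) (nat_lit 14) (.e (nat_lit 180252) (nat_lit 10) (.e (nat_lit 573489) (nat_lit 14) (.e (nat_lit 73755) (nat_lit 8) (.e (nat_lit 557089) (nat_lit 12) (.e (nat_lit 164006) (nat_lit 41) (.e (nat_lit 663580) (nat_lit 9) (.e (nat_lit 46) (nat_lit 0) .nil))))))))) (.g (nat_lit 5) .nil .nil))) 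
(.lf (nat_lit 83136) (.g (nat_lit 2312) (.e (nat_lit 1856) (nat_lit 124) (.e (nat_lit 557109) (nat_lit 15) (.e (nat_lit 188447) (nat_lit 22) (.e (nat_lit 196628) (nat_lit 9) .nil)))) .nil))) (.nd (nat_lit 6) 
(.lf (nat_lit 83104) (.g (nat_lit 3531) (.e (nat_lit 1856) (nat_lit 124) (.e (nat_lit 557107) (nat_lit 15) (.e (nat_lit 188452) (nat_lit 23) (.e (nat_lit 204885) (nat_lit 33) (.e (nat_lit 401444) (nat_lit 9) (.e (nat_lit 426419) (nat_lit 15) .nil)))))) (.g (nat_lit 4) .nil .nil))) 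
(.lf (nat_lit 83168) (.g (nat_lit 1939) (.e (nat_lit 1857) (nat_lit 124) (.e (nat_lit 557091) (nat_lit 12) (.e (nat_lit 164022) (nat_lit 46) (.e (nat_lit 704738) (nat_lit 11) (.e (nat_lit 16412) (nat_lit 2) (.e (nat_lit 196672) (nat_lit 15) (.e (nat_lit 81943) (nat_lit 20) .nil))))))) (.g (nat_lit 4) .nil .nil))))) (.nd (nat_lit 5) (.nd (nat_lit 6) 
(.lf (nat_lit 83088) (.g (nat_lit 2586) (.e (nat_lit 1856) (nat_lit 124) (.e (nat_lit 557107) (nat_lit 15) (.e (nat_lit 188420) (nat_lit 0) (.e (nat_lit 1855) (nat_lit 124) (.e (nat_lit 557107) (nat_lit 15) (.e (nat_lit 188420) (nat_lit 0) .nil)))))) (.g (nat_lit 5) .nil .nil))) 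
(.lf (nat_lit 83152) (.g (nat_lit 4165) (.e (nat_lit 1856) (nat_lit 124) (.e (nat_lit 557109) (nat_lit 15) (.e (nat_lit 188452) (nat_lit 23) (.e (nat_lit 204816) (nat_lit 17) (.e (nat_lit 6720) (nat_lit 361) (.e (nat_lit 172133) (nat_lit 15) .nil)))))) (.g (nat_lit 0) .nil .nil)))) (.nd (nat_lit 6) 
(.lf (nat_lit 83120) (.g (nat_lit 3120) (.e (nat_lit 1856) (nat_lit 124) (.e (nat_lit 557109) (nat_lit 15) (.e (nat_lit 188419) (nat_lit 0) (.e (nat_lit 1855) (nat_lit 124) (.e (nat_lit 557109) (nat_lit 15) (.e (nat_lit 188419) (nat_lit 0) .nil)))))) (.g (nat_lit 4) .nil .nil))) 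
(.lf (nat_lit 83184) (.g (nat_lit 1471) (.e (nat_lit 1857) (nat_lit 124) (.e (nat_lit 557100) (nat_lit 13) (.e (nat_lit 172113) (nat_lit 10) (.e (nat_lit 434245) (nat_lit 28) .nil)))) .nil))))) (.nd (nat_lit 4) (.nd (nat_lit 5) (.nd (nat_lit 6) 
(.lf (nat_lit 83080) (.g (nat_lit 4474) (.e (nat_lit 1856) (nat_lit 124) (.e (nat_lit 557105) (nat_lit 14) (.e (nat_lit 180252) (nat_lit 10) (.e (nat_lit 573489) (nat_lit 14) (.e (nat_lit 73755) (nat_lit 8) (.e (nat_lit 557090) (nat_lit 12) (.e (nat_lit 164007) (nat_lit 41) (.e (nat_lit 663580) (nat_lit 9) (.e (nat_lit 79) (nat_lit 0) .nil))))))))) (.g (nat_lit 8) .nil .nil))) 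
(.lf (nat_lit 83144) (.g (nat_lit 5431) (.e (nat_lit 1856) (nat_lit 124) (.e (nat_lit 557109) (nat_lit 15) (.e (nat_lit 188449) (nat_lit 22) (.e (nat_lit 196694) (nat_lit 18) .nil)))) .nil))) (.nd (nat_lit 6) 
(.lf (nat_lit 83112) (.g (nat_lit 3416) (.e (nat_lit 1856) (nat_lit 124) (.e (nat_lit 557108) (nat_lit 15) (.e (nat_lit 188452) (nat_lit 23) (.e (nat_lit 204846) (nat_lit 24) .nil)))) .nil)) 
(.lf (nat_lit 83176) (.g (nat_lit 2258) (.e (nat_lit 1857) (nat_lit 124) (.e (nat_lit 557100) (nat_lit 13) (.e (nat_lit 172106) (nat_lit 10) (.e (nat_lit 434231) (nat_lit 23) (.e (nat_lit 532528) (nat_lit 9) .nil))))) .nil)))) (.nd (nat_lit 5) (.nd (nat_lit 6) 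
(.lf (nat_lit 83096) (.g (nat_lit 1248) (.e (nat_lit 1856) (nat_lit 124) (.e (nat_lit 557107) (nat_lit 15) (.e (nat_lit 188450) (nat_lit 23) (.e (nat_lit 204821) (nat_lit 17) (.e (nat_lit 7936) (nat_lit 361) .nil))))) .nil)) 
(.lf (nat_lit 83160) (.g (nat_lit 1918) (.e (nat_lit 1856) (nat_lit 124) (.e (nat_lit 557109) (nat_lit 15) (.e (nat_lit 188452) (nat_lit 23) (.e (nat_lit 204846) (nat_lit 24) .nil)))) .nil))) (.nd (nat_lit 6) 
(.lf (nat_lit 83128) (.g (nat_lit 1143) (.e (nat_lit 1856) (nat_lit 124) (.e (nat_lit 557109) (nat_lit 15) (.e (nat_lit 188434) (nat_lit 20) (.e (nat_lit 3272) (nat_lit 199) .nil)))) .nil)) 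
(.lf (nat_lit 83192) (.g (nat_lit 2712) (.e (nat_lit 1857) (nat_lit 124) (.e (nat_lit 557105) (nat_lit 14) (.e (nat_lit 180252) (nat_lit 10) (.e (nat_lit 573451) (nat_lit 9) .nil)))) .nil)))))) (.nd (nat_lit 3) (.nd (nat_lit 4) (.nd (nat_lit 5) (.nd (nat_lit 6) 
(.lf (nat_lit 83076) (.g (nat_lit 5442) (.e (nat_lit 1856) (nat_lit 124) (.e (nat_lit 557105) (nat_lit 14) (.e (nat_lit 180252) (nat_lit 10) (.e (nat_lit 573489) (nat_lit 14) (.e (nat_lit 73755) (nat_lit 8) (.e (nat_lit 557090) (nat_lit 12) (.e (nat_lit 164006) (nat_lit 41) (.e (nat_lit 663574) (nat_lit 9) (.e (nat_lit 81) (nat_lit 0) .nil))))))))) (.g (nat_lit 8) .nil .nil))) 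
(.lf (nat_lit 83140) (.g (nat_lit 5278) (.e (nat_lit 1856) (nat_lit 124) (.e (nat_lit 557109) (nat_lit 15) (.e (nat_lit 188449) (nat_lit 22) (.e (nat_lit 196686) (nat_lit 18) .nil)))) .nil))) (.nd (nat_lit 6) 
(.lf (nat_lit 83108) (.g (nat_lit 2733) (.e (nat_lit 1856) (nat_lit 124) (.e (nat_lit 557108) (nat_lit 15) (.e (nat_lit 188452) (nat_lit 23) (.e (nat_lit 204816) (nat_lit 17) .nil)))) .nil)) 
(.lf (nat_lit 83172) (.g (nat_lit 2856) (.e (nat_lit 1857) (nat_lit 124) (.e (nat_lit 557093) (nat_lit 12) (.e (nat_lit 164023) (nat_lit 46) (.e (nat_lit 704737) (nat_lit 11) (.e (nat_lit 16412) (nat_lit 2) (.e (nat_lit 196672) (nat_lit 15) (.e (nat_lit 81943) (nat_lit 20) .nil))))))) (.g (nat_lit 5) .nil .nil))))) (.nd (nat_lit 5) (.nd (nat_lit 6) 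
(.lf (nat_lit 83092) (.g (nat_lit 937) (.e (nat_lit 1856) (nat_lit 124) (.e (nat_lit 557107) (nat_lit 15) (.e (nat_lit 188440) (nat_lit 20) (.e (nat_lit 3271) (nat_lit 199) .nil)))) .nil)) 
(.lf (nat_lit 83156) (.g (nat_lit 1638) (.e (nat_lit 1856) (nat_lit 124) (.e (nat_lit 557109) (nat_lit 15) (.e (nat_lit 188452) (nat_lit 23) (.e (nat_lit 204821) (nat_lit 17) .nil)))) .nil))) (.nd (nat_lit 6) 
(.lf (nat_lit 83124) (.g (nat_lit 1231) (.e (nat_lit 1856) (nat_lit 124) (.e (nat_lit 557109) (nat_lit 15) (.e (nat_lit 188420) (nat_lit 0) (.e (nat_lit 1856) (nat_lit 124) .nil)))) .nil)) 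
(.lf (nat_lit 83188) (.g (nat_lit 422) (.e (nat_lit 1857) (nat_lit 124) (.e (nat_lit 557101) (nat_lit 13) (.e (nat_lit 172097) (nat_lit 9) .nil))) .nil))))) (.nd (nat_lit 4) (.nd (nat_lit 5) (.nd (nat_lit 6) 
(.lf (nat_lit 83084) (.g (nat_lit 2708) (.e (nat_lit 1856) (nat_lit 124) (.e (nat_lit 557105) (nat_lit 14) (.e (nat_lit 180278) (nat_lit 32) (.e (nat_lit 1253) (nat_lit 92) (.e (nat_lit 98369) (nat_lit 28) (.e (nat_lit 442374) (nat_lit 0) .nil)))))) (.g (nat_lit 0) .nil .nil))) 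
(.lf (nat_lit 83148) (.g (nat_lit 2703) (.e (nat_lit 1856) (nat_lit 124) (.e (nat_lit 557109) (nat_lit 15) (.e (nat_lit 188450) (nat_lit 23) (.e (nat_lit 204821) (nat_lit 17) (.e (nat_lit 6674) (nat_lit 357) .nil))))) .nil))) (.nd (nat_lit 6) 
(.lf (nat_lit 83116) (.g (nat_lit 4569) (.e (nat_lit 1856) (nat_lit 124) (.e (nat_lit 557108) (nat_lit 15) (.e (nat_lit 188452) (nat_lit 23) (.e (nat_lit 204885) (nat_lit 33) (.e (nat_lit 401444) (nat_lit 9) (.e (nat_lit 426419) (nat_lit 15) .nil)))))) (.g (nat_lit 6) .nil .nil))) 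
(.lf (nat_lit 83180) (.g (nat_lit 2418) (.e (nat_lit 1857) (nat_lit 124) (.e (nat_lit 557100) (nat_lit 13) (.e (nat_lit 172106) (nat_lit 10) (.e (nat_lit 434231) (nat_lit 23) (.e (nat_lit 532563) (nat_lit 15) (.e (nat_lit 385103) (nat_lit 50) (.e (nat_lit 786447) (nat_lit 15) .nil))))))) (.g (nat_lit 4) .nil .nil))))) (.nd (nat_lit 5) (.nd (nat_lit 6) 
(.lf (nat_lit 83100) (.g (nat_lit 1431) (.e (nat_lit 1856) (nat_lit 124) (.e (nat_lit 557107) (nat_lit 15) (.e (nat_lit 188452) (nat_lit 23) (.e (nat_lit 204821) (nat_lit 17) .nil)))) .nil)) 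
(.lf (nat_lit 83164) (.g (nat_lit 1877) (.e (nat_lit 1856) (nat_lit 124) (.e (nat_lit 557109) (nat_lit 15) (.e (nat_lit 188452) (nat_lit 23) (.e (nat_lit 204885) (nat_lit 33) .nil)))) .nil))) (.nd (nat_lit 6) 
(.lf (nat_lit 83132) (.g (nat_lit 1517) (.e (nat_lit 1856) (nat_lit 124) (.e (nat_lit 557109) (nat_lit 15) (.e (nat_lit 188435) (nat_lit 20) (.e (nat_lit 3272) (nat_lit 199) (.e (nat_lit 548915) (nat_lit 20) .nil))))) .nil)) 
(.lf (nat_lit 83196) (.g (nat_lit 2671) (.e (nat_lit 1857) (nat_lit 124) (.e (nat_lit 557105) (nat_lit 14) (.e (nat_lit 180252) (nat_lit 10) (.e (nat_lit 573482) (nat_lit 13) .nil)))) .nil))))))) (.nd (nat_lit 2) (.nd (nat_lit 3) (.nd (nat_lit 4) (.nd (nat_lit 5) (.nd (nat_lit 6) 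
(.lf (nat_lit 83074) (.g (nat_lit 3071) (.e (nat_lit 1856) (nat_lit 124) (.e (nat_lit 557105) (nat_lit 14) (.e (nat_lit 180252) (nat_lit 10) (.e (nat_lit 573489) (nat_lit 14) (.e (nat_lit 73755) (nat_lit 8) (.e (nat_lit 557090) (nat_lit 12) (.e (nat_lit 164005) (nat_lit 41) (.e (nat_lit 663580) (nat_lit 9) (.e (nat_lit 46) (nat_lit 0) .nil))))))))) (.g (nat_lit 5) .nil .nil))) 
(.lf (nat_lit 83138) (.g (nat_lit 3211) (.e (nat_lit 1856) (nat_lit 124) (.e (nat_lit 557109) (nat_lit 15) (.e (nat_lit 188449) (nat_lit 22) (.e (nat_lit 196661) (nat_lit 12) (.e (nat_lit 57749) (nat_lit 201) (.e (nat_lit 2936) (nat_lit 184) (.e (nat_lit 426419) (nat_lit 15) .nil))))))) (.g (nat_lit 0) .nil .nil)))) (.nd (nat_lit 6) 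
(.lf (nat_lit 83106) (.g (nat_lit 4699) (.e (nat_lit 1856) (nat_lit 124) (.e (nat_lit 557108) (nat_lit 15) (.e (nat_lit 188449) (nat_lit 22) (.e (nat_lit 204544) (nat_lit 18) .nil)))) .nil)) 
(.lf (nat_lit 83170) (.g (nat_lit 2145) (.e (nat_lit 1857) (nat_lit 124) (.e (nat_lit 557093) (nat_lit 12) (.e (nat_lit 164022) (nat_lit 46) (.e (nat_lit 704738) (nat_lit 11) (.e (nat_lit 16411) (nat_lit 2) .nil))))) .nil)))) (.nd (nat_lit 5) (.nd (nat_lit 6) 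
(.lf (nat_lit 83090) (.g (nat_lit 2855) (.e (nat_lit 1856) (nat_lit 124) (.e (nat_lit 557107) (nat_lit 15) (.e (nat_lit 196352) (nat_lit 0) (.e (nat_lit 1859) (nat_lit 124) (.e (nat_lit 557109) (nat_lit 15) (.e (nat_lit 188418) (nat_lit 0) .nil)))))) (.g (nat_lit 5) .nil .nil))) 
(.lf (nat_lit 83154) (.g (nat_lit 3328) (.e (nat_lit 1856) (nat_lit 124) (.e (nat_lit 557109) (nat_lit 15) (.e (nat_lit 188452) (nat_lit 23) (.e (nat_lit 204818) (nat_lit 17) .nil)))) .nil))) (.nd (nat_lit 6) 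
(.lf (nat_lit 83122) (.g (nat_lit 2817) (.e (nat_lit 1856) (nat_lit 124) (.e (nat_lit 557109) (nat_lit 15) (.e (nat_lit 188419) (nat_lit 0) (.e (nat_lit 1856) (nat_lit 124) (.e (nat_lit 557107) (nat_lit 15) (.e (nat_lit 188420) (nat_lit 0) .nil)))))) (.g (nat_lit 4) .nil .nil))) 
(.lf (nat_lit 83186) (.g (nat_lit 3465) (.e (nat_lit 1857) (nat_lit 124) (.e (nat_lit 557100) (nat_lit 13) (.e (nat_lit 172113) (nat_lit 10) (.e (nat_lit 434245) (nat_lit 28) (.e (nat_lit 573471) (nat_lit 11) (.e (nat_lit 16433) (nat_lit 9) (.e (nat_lit 426363) (nat_lit 15) .nil))))))) (.g (nat_lit 5) .nil .nil)))))) (.nd (nat_lit 4) (.nd (nat_lit 5) (.nd (nat_lit 6) 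
(.lf (nat_lit 83082) (.g (nat_lit 3182) (.e (nat_lit 1856) (nat_lit 124) (.e (nat_lit 557105) (nat_lit 14) (.e (nat_lit 180252) (nat_lit 10) (.e (nat_lit 573489) (nat_lit 14) (.e (nat_lit 73755) (nat_lit 8) (.e (nat_lit 557090) (nat_lit 12) (.e (nat_lit 164010) (nat_lit 41) (.e (nat_lit 663574) (nat_lit 9) (.e (nat_lit 81) (nat_lit 0) .nil))))))))) (.g (nat_lit 5) .nil .nil))) 
(.lf (nat_lit 83146) (.g (nat_lit 604) (.e (nat_lit 1856) (nat_lit 124) (.e (nat_lit 557109) (nat_lit 15) (.e (nat_lit 188450) (nat_lit 23) .nil))) .nil))) (.nd (nat_lit 6) 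
(.lf (nat_lit 83114) (.g (nat_lit 2568) (.e (nat_lit 1856) (nat_lit 124) (.e (nat_lit 557108) (nat_lit 15) (.e (nat_lit 188452) (nat_lit 23) (.e (nat_lit 204885) (nat_lit 33) .nil)))) .nil)) 
(.lf (nat_lit 83178) (.g (nat_lit 2402) (.e (nat_lit 1857) (nat_lit 124) (.e (nat_lit 557100) (nat_lit 13) (.e (nat_lit 172106) (nat_lit 10) (.e (nat_lit 434231) (nat_lit 23) (.e (nat_lit 532562) (nat_lit 15) .nil))))) .nil)))) (.nd (nat_lit 5) (.nd (nat_lit 6) 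
(.lf (nat_lit 83098) (.g (nat_lit 3734) (.e (nat_lit 1856) (nat_lit 124) (.e (nat_lit 557107) (nat_lit 15) (.e (nat_lit 188452) (nat_lit 23) (.e (nat_lit 204816) (nat_lit 17) (.e (nat_lit 6718) (nat_lit 361) (.e (nat_lit 172133) (nat_lit 15) .nil)))))) (.g (nat_lit 4) .nil .nil))) 
(.lf (nat_lit 83162) (.g (nat_lit 3160) (.e (nat_lit 1856) (nat_lit 124) (.e (nat_lit 557109) (nat_lit 15) (.e (nat_lit 188452) (nat_lit 23) (.e (nat_lit 204849) (nat_lit 25) .nil)))) .nil))) (.nd (nat_lit 6) 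
(.lf (nat_lit 83130) (.g (nat_lit 2506) (.e (nat_lit 1856) (nat_lit 124) (.e (nat_lit 557109) (nat_lit 15) (.e (nat_lit 188434) (nat_lit 20) (.e (nat_lit 3272) (nat_lit 199) (.e (nat_lit 548915) (nat_lit 20) (.e (nat_lit 188419) (nat_lit 0) .nil)))))) (.g (nat_lit 4) .nil .nil))) 
(.lf (nat_lit 83194) (.g (nat_lit 2669) (.e (nat_lit 1857) (nat_lit 124) (.e (nat_lit 557105) (nat_lit 14) (.e (nat_lit 180252) (nat_lit 10) (.e (nat_lit 573481) (nat_lit 13) .nil)))) .nil)))))) (.nd (nat_lit 3) (.nd (nat_lit 4) (.nd (nat_lit 5) (.nd (nat_lit 6) 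
(.lf (nat_lit 83078) (.g (nat_lit 3673) (.e (nat_lit 1856) (nat_lit 124) (.e (nat_lit 557105) (nat_lit 14) (.e (nat_lit 180252) (nat_lit 10) (.e (nat_lit 573489) (nat_lit 14) (.e (nat_lit 73755) (nat_lit 8) (.e (nat_lit 557090) (nat_lit 12) (.e (nat_lit 164006) (nat_lit 41) (.e (nat_lit 663580) (nat_lit 9) (.e (nat_lit 79) (nat_lit 0) .nil))))))))) (.g (nat_lit 6) .nil .nil))) 
(.lf (nat_lit 83142) (.g (nat_lit 5440) (.e (nat_lit 1856) (nat_lit 124) (.e (nat_lit 557109) (nat_lit 15) (.e (nat_lit 188449) (nat_lit 22) (.e (nat_lit 196688) (nat_lit 18) .nil)))) .nil))) (.nd (nat_lit 6) 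
(.lf (nat_lit 83110) (.g (nat_lit 4650) (.e (nat_lit 1856) (nat_lit 124) (.e (nat_lit 557108) (nat_lit 15) (.e (nat_lit 188452) (nat_lit 23) (.e (nat_lit 204816) (nat_lit 17) (.e (nat_lit 6720) (nat_lit 361) (.e (nat_lit 172133) (nat_lit 15) .nil)))))) (.g (nat_lit 0) .nil .nil))) 
(.lf (nat_lit 83174) (.g (nat_lit 1957) (.e (nat_lit 1857) (nat_lit 124) (.e (nat_lit 557098) (nat_lit 13) (.e (nat_lit 172115) (nat_lit 10) (.e (nat_lit 434231) (nat_lit 23) .nil)))) .nil)))) (.nd (nat_lit 5) (.nd (nat_lit 6) 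
(.lf (nat_lit 83094) (.g (nat_lit 1112) (.e (nat_lit 1856) (nat_lit 124) (.e (nat_lit 557107) (nat_lit 15) (.e (nat_lit 188450) (nat_lit 23) (.e (nat_lit 204817) (nat_lit 17) .nil)))) .nil)) 
(.lf (nat_lit 83158) (.g (nat_lit 2937) (.e (nat_lit 1856) (nat_lit 124) (.e (nat_lit 557109) (nat_lit 15) (.e (nat_lit 188452) (nat_lit 23) (.e (nat_lit 204830) (nat_lit 18) .nil)))) .nil))) (.nd (nat_lit 6) 
(.lf (nat_lit 83126) (.g (nat_lit 1409) (.e (nat_lit 1856) (nat_lit 124) (.e (nat_lit 557109) (nat_lit 15) (.e (nat_lit 188434) (nat_lit 20) (.e (nat_lit 3270) (nat_lit 199) .nil)))) .nil)) 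
(.lf (nat_lit 83190) (.g (nat_lit 4181) (.e (nat_lit 1857) (nat_lit 124) (.e (nat_lit 557101) (nat_lit 13) (.e (nat_lit 172097) (nat_lit 9) (.e (nat_lit 426125) (nat_lit 2) (.e (nat_lit 196666) (nat_lit 13) (.e (nat_lit 65574) (nat_lit 4) (.e (nat_lit 123195) (nat_lit 266) (.e (nat_lit 57354) (nat_lit 0) .nil)))))))) (.g (nat_lit 8) .nil .nil)))))) 
(.nd (nat_lit 4) (.nd (nat_lit 5) (.nd (nat_lit 6) 
(.lf (nat_lit 83086) (.g (nat_lit 329) (.e (nat_lit 1856) (nat_lit 124) (.e (nat_lit 557105) (nat_lit 14) (.e (nat_lit 188160) (nat_lit 35) .nil))) .nil)) 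
(.lf (nat_lit 83150) (.g (nat_lit 2940) (.e (nat_lit 1856) (nat_lit 124) (.e (nat_lit 557109) (nat_lit 15) (.e (nat_lit 188450) (nat_lit 23) (.e (nat_lit 204885) (nat_lit 33) (.e (nat_lit 401440) (nat_lit 9) .nil))))) .nil))) (.nd (nat_lit 6) 
(.lf (nat_lit 83118) (.g (nat_lit 2706) (.e (nat_lit 1856) (nat_lit 124) (.e (nat_lit 557109) (nat_lit 15) (.e (nat_lit 188418) (nat_lit 0) (.e (nat_lit 1856) (nat_lit 124) (.e (nat_lit 557107) (nat_lit 15) (.e (nat_lit 188418) (nat_lit 0) .nil)))))) (.g (nat_lit 4) .nil .nil))) 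
(.lf (nat_lit 83182) (.g (nat_lit 2765) (.e (nat_lit 1857) (nat_lit 124) (.e (nat_lit 557100) (nat_lit 13) (.e (nat_lit 172106) (nat_lit 10) (.e (nat_lit 434231) (nat_lit 23) (.e (nat_lit 532564) (nat_lit 15) .nil))))) .nil)))) (.nd (nat_lit 5) (.nd (nat_lit 6) 
(.lf (nat_lit 83102) (.g (nat_lit 3324) (.e (nat_lit 1856) (nat_lit 124) (.e (nat_lit 557107) (nat_lit 15) (.e (nat_lit 188452) (nat_lit 23) (.e (nat_lit 204885) (nat_lit 33) (.e (nat_lit 401434) (nat_lit 9) (.e (nat_lit 426412) (nat_lit 15) .nil)))))) (.g (nat_lit 4) .nil .nil))) 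
(.lf (nat_lit 83166) (.g (nat_lit 4149) (.e (nat_lit 1856) (nat_lit 124) (.e (nat_lit 557109) (nat_lit 15) (.e (nat_lit 188452) (nat_lit 23) (.e (nat_lit 204885) (nat_lit 33) (.e (nat_lit 401444) (nat_lit 9) (.e (nat_lit 426419) (nat_lit 15) .nil)))))) (.g (nat_lit 0) .nil .nil)))) (.nd (nat_lit 6) 
(.lf (nat_lit 83134) (.g (nat_lit 3006) (.e (nat_lit 1856) (nat_lit 124) (.e (nat_lit 557109) (nat_lit 15) (.e (nat_lit 188441) (nat_lit 20) (.e (nat_lit 3272) (nat_lit 199) (.e (nat_lit 548915) (nat_lit 20) (.e (nat_lit 188418) (nat_lit 0) .nil)))))) (.g (nat_lit 5) .nil .nil))) 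
(.lf (nat_lit 83198) (.g (nat_lit 3777) (.e (nat_lit 1857) (nat_lit 124) (.e (nat_lit 557105) (nat_lit 14) (.e (nat_lit 180252) (nat_lit 10) (.e (nat_lit 573482) (nat_lit 13) (.e (nat_lit 73472) (nat_lit 18) .nil))))) .nil)))))))) (.nd (nat_lit 1) (.nd (nat_lit 2) (.nd (nat_lit 3) (.nd (nat_lit 4) (.nd (nat_lit 5) (.nd (nat_lit 6) 
(.lf (nat_lit 83073) (.g (nat_lit 3885) (.e (nat_lit 1856) (nat_lit 124) (.e (nat_lit 557105) (nat_lit 14) (.e (nat_lit 180252) (nat_lit 10) (.e (nat_lit 573489) (nat_lit 14) (.e (nat_lit 73755) (nat_lit 8) (.e (nat_lit 557089) (nat_lit 12) (.e (nat_lit 164007) (nat_lit 41) (.e (nat_lit 663580) (nat_lit 9) (.e (nat_lit 46) (nat_lit 0) .nil))))))))) (.g (nat_lit 6) .nil .nil))) 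
(.lf (nat_lit 83137) (.g (nat_lit 1331) (.e (nat_lit 1856) (nat_lit 124) (.e (nat_lit 557109) (nat_lit 15) (.e (nat_lit 188449) (nat_lit 22) (.e (nat_lit 196661) (nat_lit 12) .nil)))) .nil))) (.nd (nat_lit 6) 
(.lf (nat_lit 83105) (.g (nat_lit 1331) (.e (nat_lit 1856) (nat_lit 124) (.e (nat_lit 557107) (nat_lit 15) (.e (nat_lit 188453) (nat_lit 24) (.e (nat_lit 237312) (nat_lit 138) .nil)))) .nil)) 
(.lf (nat_lit 83169) (.g (nat_lit 2008) (.e (nat_lit 1857) (nat_lit 124) (.e (nat_lit 557093) (nat_lit 12) (.e (nat_lit 164022) (nat_lit 46) (.e (nat_lit 704737) (nat_lit 11) (.e (nat_lit 16411) (nat_lit 2) .nil))))) .nil)))) (.nd (nat_lit 5) (.nd (nat_lit 6) 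
(.lf (nat_lit 83089) (.g (nat_lit 3637) (.e (nat_lit 1856) (nat_lit 124) (.e (nat_lit 557107) (nat_lit 15) (.e (nat_lit 188420) (nat_lit 0) (.e (nat_lit 1855) (nat_lit 124) (.e (nat_lit 557109) (nat_lit 15) (.e (nat_lit 188419) (nat_lit 0) .nil)))))) (.g (nat_lit 6) .nil .nil))) 
(.lf (nat_lit 83153) (.g (nat_lit 2706) (.e (nat_lit 1856) (nat_lit 124) (.e (nat_lit 557109) (nat_lit 15) (.e (nat_lit 188452) (nat_lit 23) (.e (nat_lit 204817) (nat_lit 17) (.e (nat_lit 7936) (nat_lit 361) .nil))))) .nil))) (.nd (nat_lit 6) 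
(.lf (nat_lit 83121) (.g (nat_lit 3078) (.e (nat_lit 1856) (nat_lit 124) (.e (nat_lit 557109) (nat_lit 15) (.e (nat_lit 188419) (nat_lit 0) (.e (nat_lit 1856) (nat_lit 124) (.e (nat_lit 557107) (nat_lit 15) (.e (nat_lit 188418) (nat_lit 0) .nil)))))) (.g (nat_lit 4) .nil .nil))) 
(.lf (nat_lit 83185) (.g (nat_lit 2833) (.e (nat_lit 1857) (nat_lit 124) (.e (nat_lit 557100) (nat_lit 13) (.e (nat_lit 172113) (nat_lit 10) (.e (nat_lit 434245) (nat_lit 28) (.e (nat_lit 573471) (nat_lit 11) (.e (nat_lit 16433) (nat_lit 9) (.e (nat_lit 426360) (nat_lit 15) .nil))))))) (.g (nat_lit 4) .nil .nil)))))) (.nd (nat_lit 4) (.nd (nat_lit 5) (.nd (nat_lit 6) 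
(.lf (nat_lit 83081) (.g (nat_lit 2764) (.e (nat_lit 1856) (nat_lit 124) (.e (nat_lit 557105) (nat_lit 14) (.e (nat_lit 180252) (nat_lit 10) (.e (nat_lit 573489) (nat_lit 14) (.e (nat_lit 73755) (nat_lit 8) (.e (nat_lit 557090) (nat_lit 12) (.e (nat_lit 164008) (nat_lit 41) (.e (nat_lit 663580) (nat_lit 9) (.e (nat_lit 46) (nat_lit 0) .nil))))))))) (.g (nat_lit 4) .nil .nil))) 
(.lf (nat_lit 83145) (.g (nat_lit 5406) (.e (nat_lit 1856) (nat_lit 124) (.e (nat_lit 557109) (nat_lit 15) (.e (nat_lit 188449) (nat_lit 22) (.e (nat_lit 196700) (nat_lit 22) .nil)))) .nil))) (.nd (nat_lit 6) 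
(.lf (nat_lit 83113) (.g (nat_lit 3584) (.e (nat_lit 1856) (nat_lit 124) (.e (nat_lit 557108) (nat_lit 15) (.e (nat_lit 188452) (nat_lit 23) (.e (nat_lit 204884) (nat_lit 33) .nil)))) .nil)) 
(.lf (nat_lit 83177) (.g (nat_lit 2493) (.e (nat_lit 1857) (nat_lit 124) (.e (nat_lit 557100) (nat_lit 13) (.e (nat_lit 172106) (nat_lit 10) (.e (nat_lit 434231) (nat_lit 23) (.e (nat_lit 532535) (nat_lit 9) (.e (nat_lit 336030) (nat_lit 4) (.e (nat_lit 123198) (nat_lit 266) (.e (nat_lit 57354) (nat_lit 0) .nil)))))))) (.g (nat_lit 5) .nil .nil))))) (.nd (nat_lit 5) (.nd (nat_lit 6) 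
(.lf (nat_lit 83097) (.g (nat_lit 2876) (.e (nat_lit 1856) (nat_lit 124) (.e (nat_lit 557107) (nat_lit 15) (.e (nat_lit 188450) (nat_lit 23) (.e (nat_lit 204885) (nat_lit 33) (.e (nat_lit 401444) (nat_lit 9) (.e (nat_lit 426419) (nat_lit 15) .nil)))))) (.g (nat_lit 0) .nil .nil))) 
(.lf (nat_lit 83161) (.g (nat_lit 3224) (.e (nat_lit 1856) (nat_lit 124) (.e (nat_lit 557109) (nat_lit 15) (.e (nat_lit 188452) (nat_lit 23) (.e (nat_lit 204848) (nat_lit 25) .nil)))) .nil))) (.nd (nat_lit 6) 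
(.lf (nat_lit 83129) (.g (nat_lit 1619) (.e (nat_lit 1856) (nat_lit 124) (.e (nat_lit 557109) (nat_lit 15) (.e (nat_lit 188434) (nat_lit 20) (.e (nat_lit 3272) (nat_lit 199) (.e (nat_lit 548898) (nat_lit 14) .nil))))) .nil)) 
(.lf (nat_lit 83193) (.g (nat_lit 2644) (.e (nat_lit 1857) (nat_lit 124) (.e (nat_lit 557105) (nat_lit 14) (.e (nat_lit 180252) (nat_lit 10) (.e (nat_lit 573480) (nat_lit 13) .nil)))) .nil)))))) (.nd (nat_lit 3) (.nd (nat_lit 4) (.nd (nat_lit 5) (.nd (nat_lit 6) 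
(.lf (nat_lit 83077) (.g (nat_lit 4945) (.e (nat_lit 1856) (nat_lit 124) (.e (nat_lit 557105) (nat_lit 14) (.e (nat_lit 180252) (nat_lit 10) (.e (nat_lit 573489) (nat_lit 14) (.e (nat_lit 73755) (nat_lit 8) (.e (nat_lit 557090) (nat_lit 12) (.e (nat_lit 164006) (nat_lit 41) (.e (nat_lit 663580) (nat_lit 9) (.e (nat_lit 46) (nat_lit 0) .nil))))))))) (.g (nat_lit 8) .nil .nil))) 
(.lf (nat_lit 83141) (.g (nat_lit 4649) (.e (nat_lit 1856) (nat_lit 124) (.e (nat_lit 557109) (nat_lit 15) (.e (nat_lit 188449) (nat_lit 22) (.e (nat_lit 196687) (nat_lit 18) .nil)))) .nil))) (.nd (nat_lit 6) 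
(.lf (nat_lit 83109) (.g (nat_lit 4672) (.e (nat_lit 1856) (nat_lit 124) (.e (nat_lit 557108) (nat_lit 15) (.e (nat_lit 188452) (nat_lit 23) (.e (nat_lit 204816) (nat_lit 17) (.e (nat_lit 6718) (nat_lit 361) (.e (nat_lit 172133) (nat_lit 15) .nil)))))) (.g (nat_lit 0) .nil .nil))) 
(.lf (nat_lit 83173) (.g (nat_lit 2754) (.e (nat_lit 1857) (nat_lit 124) (.e (nat_lit 557098) (nat_lit 13) (.e (nat_lit 172097) (nat_lit 9) (.e (nat_lit 426140) (nat_lit 3) (.e (nat_lit 204855) (nat_lit 26) .nil))))) .nil)))) (.nd (nat_lit 5) (.nd (nat_lit 6) 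
(.lf (nat_lit 83093) (.g (nat_lit 2707) (.e (nat_lit 1856) (nat_lit 124) (.e (nat_lit 557107) (nat_lit 15) (.e (nat_lit 188447) (nat_lit 22) (.e (nat_lit 196661) (nat_lit 12) (.e (nat_lit 57749) (nat_lit 201) (.e (nat_lit 2936) (nat_lit 184) (.e (nat_lit 426419) (nat_lit 15) .nil))))))) (.g (nat_lit 0) .nil .nil))) 
(.lf (nat_lit 83157) (.g (nat_lit 2843) (.e (nat_lit 1856) (nat_lit 124) (.e (nat_lit 557109) (nat_lit 15) (.e (nat_lit 188452) (nat_lit 23) (.e (nat_lit 212736) (nat_lit 17) .nil)))) .nil))) (.nd (nat_lit 6) 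
(.lf (nat_lit 83125) (.g (nat_lit 2904) (.e (nat_lit 1856) (nat_lit 124) (.e (nat_lit 557109) (nat_lit 15) (.e (nat_lit 196352) (nat_lit 0) (.e (nat_lit 1859) (nat_lit 124) (.e (nat_lit 557109) (nat_lit 15) (.e (nat_lit 188418) (nat_lit 0) .nil)))))) (.g (nat_lit 5) .nil .nil))) 
(.lf (nat_lit 83189) (.g (nat_lit 4416) (.e (nat_lit 1857) (nat_lit 124) (.e (nat_lit 557101) (nat_lit 13) (.e (nat_lit 172097) (nat_lit 9) (.e (nat_lit 426125) (nat_lit 2) (.e (nat_lit 196666) (nat_lit 13) (.e (nat_lit 65572) (nat_lit 4) (.e (nat_lit 123195) (nat_lit 266) (.e (nat_lit 57354) (nat_lit 0) .nil)))))))) (.g (nat_lit 8) .nil .nil)))))) 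
(.nd (nat_lit 4) (.nd (nat_lit 5) (.nd (nat_lit 6) 
(.lf (nat_lit 83085) (.g (nat_lit 329) (.e (nat_lit 1856) (nat_lit 124) (.e (nat_lit 557105) (nat_lit 14) (.e (nat_lit 188160) (nat_lit 32) .nil))) .nil)) 
(.lf (nat_lit 83149) (.g (nat_lit 2329) (.e (nat_lit 1856) (nat_lit 124) (.e (nat_lit 557109) (nat_lit 15) (.e (nat_lit 188450) (nat_lit 23) (.e (nat_lit 204885) (nat_lit 33) .nil)))) .nil))) (.nd (nat_lit 6) 
(.lf (nat_lit 83117) (.g (nat_lit 1984) (.e (nat_lit 1856) (nat_lit 124) (.e (nat_lit 557109) (nat_lit 15) (.e (nat_lit 188418) (nat_lit 0) (.e (nat_lit 1855) (nat_lit 124) (.e (nat_lit 557107) (nat_lit 15) .nil))))) .nil)) 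
(.lf (nat_lit 83181) (.g (nat_lit 2387) (.e (nat_lit 1857) (nat_lit 124) (.e (nat_lit 557100) (nat_lit 13) (.e (nat_lit 172106) (nat_lit 10) (.e (nat_lit 434231) (nat_lit 23) (.e (nat_lit 532563) (nat_lit 15) (.e (nat_lit 385106) (nat_lit 50) (.e (nat_lit 786444) (nat_lit 15) .nil))))))) (.g (nat_lit 4) .nil .nil))))) (.nd (nat_lit 5) (.nd (nat_lit 6) 
(.lf (nat_lit 83101) (.g (nat_lit 2396) (.e (nat_lit 1856) (nat_lit 124) (.e (nat_lit 557107) (nat_lit 15) (.e (nat_lit 188452) (nat_lit 23) (.e (nat_lit 204884) (nat_lit 33) .nil)))) .nil)) 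
(.lf (nat_lit 83165) (.g (nat_lit 2824) (.e (nat_lit 1856) (nat_lit 124) (.e (nat_lit 557109) (nat_lit 15) (.e (nat_lit 188452) (nat_lit 23) (.e (nat_lit 204885) (nat_lit 33) (.e (nat_lit 401434) (nat_lit 9) (.e (nat_lit 426396) (nat_lit 15) .nil)))))) (.g (nat_lit 4) .nil .nil)))) (.nd (nat_lit 6) 
(.lf (nat_lit 83133) (.g (nat_lit 858) (.e (nat_lit 1856) (nat_lit 124) (.e (nat_lit 557109) (nat_lit 15) (.e (nat_lit 188441) (nat_lit 20) (.e (nat_lit 3272) (nat_lit 199) .nil)))) .nil)) 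
(.lf (nat_lit 83197) (.g (nat_lit 3890) (.e (nat_lit 1857) (nat_lit 124) (.e (nat_lit 557105) (nat_lit 14) (.e (nat_lit 180252) (nat_lit 10) (.e (nat_lit 573482) (nat_lit 13) (.e (nat_lit 65570) (nat_lit 3) .nil))))) .nil))))))) (.nd (nat_lit 2) (.nd (nat_lit 3) (.nd (nat_lit 4) (.nd (nat_lit 5) (.nd (nat_lit 6) 
(.lf (nat_lit 83075) (.g (nat_lit 3680) (.e (nat_lit 1856) (nat_lit 124) (.e (nat_lit 557105) (nat_lit 14) (.e (nat_lit 180252) (nat_lit 10) (.e (nat_lit 573489) (nat_lit 14) (.e (nat_lit 73755) (nat_lit 8) (.e (nat_lit 557090) (nat_lit 12) (.e (nat_lit 164006) (nat_lit 41) (.e (nat_lit 663574) (nat_lit 9) (.e (nat_lit 56) (nat_lit 0) .nil))))))))) (.g (nat_lit 6) .nil .nil))) 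
(.lf (nat_lit 83139) (.g (nat_lit 5103) (.e (nat_lit 1856) (nat_lit 124) (.e (nat_lit 557109) (nat_lit 15) (.e (nat_lit 188449) (nat_lit 22) (.e (nat_lit 196683) (nat_lit 18) .nil)))) .nil))) (.nd (nat_lit 6) 
(.lf (nat_lit 83107) (.g (nat_lit 2559) (.e (nat_lit 1856) (nat_lit 124) (.e (nat_lit 557108) (nat_lit 15) (.e (nat_lit 188452) (nat_lit 23) (.e (nat_lit 204815) (nat_lit 17) .nil)))) .nil)) 
(.lf (nat_lit 83171) (.g (nat_lit 2006) (.e (nat_lit 1857) (nat_lit 124) (.e (nat_lit 557093) (nat_lit 12) (.e (nat_lit 164023) (nat_lit 46) (.e (nat_lit 704737) (nat_lit 11) (.e (nat_lit 16411) (nat_lit 2) .nil))))) .nil)))) (.nd (nat_lit 5) (.nd (nat_lit 6) 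
(.lf (nat_lit 83091) (.g (nat_lit 401) (.e (nat_lit 1856) (nat_lit 124) (.e (nat_lit 557107) (nat_lit 15) (.e (nat_lit 188439) (nat_lit 20) .nil))) .nil)) 
(.lf (nat_lit 83155) (.g (nat_lit 1748) (.e (nat_lit 1856) (nat_lit 124) (.e (nat_lit 557109) (nat_lit 15) (.e (nat_lit 188452) (nat_lit 23) (.e (nat_lit 204819) (nat_lit 17) .nil)))) .nil))) (.nd (nat_lit 6) 
(.lf (nat_lit 83123) (.g (nat_lit 958) (.e (nat_lit 1856) (nat_lit 124) (.e (nat_lit 557109) (nat_lit 15) (.e (nat_lit 188420) (nat_lit 0) .nil))) .nil)) 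
(.lf (nat_lit 83187) (.g (nat_lit 3071) (.e (nat_lit 1857) (nat_lit 124) (.e (nat_lit 557100) (nat_lit 13) (.e (nat_lit 172113) (nat_lit 10) (.e (nat_lit 434248) (nat_lit 28) (.e (nat_lit 573471) (nat_lit 11) (.e (nat_lit 16433) (nat_lit 9) (.e (nat_lit 426363) (nat_lit 15) .nil))))))) (.g (nat_lit 4) .nil .nil)))))) (.nd (nat_lit 4) (.nd (nat_lit 5) (.nd (nat_lit 6) 
(.lf (nat_lit 83083) (.g (nat_lit 683) (.e (nat_lit 1856) (nat_lit 124) (.e (nat_lit 557105) (nat_lit 14) (.e (nat_lit 180254) (nat_lit 12) .nil))) .nil)) 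
(.lf (nat_lit 83147) (.g (nat_lit 2209) (.e (nat_lit 1856) (nat_lit 124) (.e (nat_lit 557109) (nat_lit 15) (.e (nat_lit 188450) (nat_lit 23) (.e (nat_lit 204821) (nat_lit 17) .nil)))) .nil))) (.nd (nat_lit 6) 
(.lf (nat_lit 83115) (.g (nat_lit 4812) (.e (nat_lit 1856) (nat_lit 124) (.e (nat_lit 557108) (nat_lit 15) (.e (nat_lit 188452) (nat_lit 23) (.e (nat_lit 204885) (nat_lit 33) (.e (nat_lit 401440) (nat_lit 9) (.e (nat_lit 426396) (nat_lit 15) .nil)))))) (.g (nat_lit 0) .nil .nil))) 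
(.lf (nat_lit 83179) (.g (nat_lit 2293) (.e (nat_lit 1857) (nat_lit 124) (.e (nat_lit 557100) (nat_lit 13) (.e (nat_lit 172106) (nat_lit 10) (.e (nat_lit 434231) (nat_lit 23) (.e (nat_lit 532563) (nat_lit 15) .nil))))) .nil)))) (.nd (nat_lit 5) (.nd (nat_lit 6) 
(.lf (nat_lit 83099) (.g (nat_lit 3688) (.e (nat_lit 1856) (nat_lit 124) (.e (nat_lit 557107) (nat_lit 15) (.e (nat_lit 188452) (nat_lit 23) (.e (nat_lit 204816) (nat_lit 17) (.e (nat_lit 6720) (nat_lit 361) (.e (nat_lit 172133) (nat_lit 15) .nil)))))) (.g (nat_lit 4) .nil .nil))) 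
(.lf (nat_lit 83163) (.g (nat_lit 2465) (.e (nat_lit 1856) (nat_lit 124) (.e (nat_lit 557109) (nat_lit 15) (.e (nat_lit 188452) (nat_lit 23) (.e (nat_lit 204884) (nat_lit 33) .nil)))) .nil))) (.nd (nat_lit 6) 
(.lf (nat_lit 83131) (.g (nat_lit 916) (.e (nat_lit 1856) (nat_lit 124) (.e (nat_lit 557109) (nat_lit 15) (.e (nat_lit 188435) (nat_lit 20) .nil))) .nil)) 
(.lf (nat_lit 83195) (.g (nat_lit 3428) (.e (nat_lit 1857) (nat_lit 124) (.e (nat_lit 557105) (nat_lit 14) (.e (nat_lit 180252) (nat_lit 10) (.e (nat_lit 573481) (nat_lit 13) (.e (nat_lit 65570) (nat_lit 3) .nil))))) .nil)))))) (.nd (nat_lit 3) (.nd (nat_lit 4) (.nd (nat_lit 5) (.nd (nat_lit 6) 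
(.lf (nat_lit 83079) (.g (nat_lit 4797) (.e (nat_lit 1856) (nat_lit 124) (.e (nat_lit 557105) (nat_lit 14) (.e (nat_lit 180252) (nat_lit 10) (.e (nat_lit 573489) (nat_lit 14) (.e (nat_lit 73755) (nat_lit 8) (.e (nat_lit 557090) (nat_lit 12) (.e (nat_lit 164007) (nat_lit 41) (.e (nat_lit 663574) (nat_lit 9) (.e (nat_lit 81) (nat_lit 0) .nil))))))))) (.g (nat_lit 8) .nil .nil))) 
(.lf (nat_lit 83143) (.g (nat_lit 5494) (.e (nat_lit 1856) (nat_lit 124) (.e (nat_lit 557109) (nat_lit 15) (.e (nat_lit 188449) (nat_lit 22) (.e (nat_lit 196691) (nat_lit 18) .nil)))) .nil))) (.nd (nat_lit 6) 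
(.lf (nat_lit 83111) (.g (nat_lit 2420) (.e (nat_lit 1856) (nat_lit 124) (.e (nat_lit 557108) (nat_lit 15) (.e (nat_lit 188452) (nat_lit 23) (.e (nat_lit 204817) (nat_lit 17) .nil)))) .nil)) 
(.lf (nat_lit 83175) (.g (nat_lit 1491) (.e (nat_lit 1857) (nat_lit 124) (.e (nat_lit 557100) (nat_lit 13) (.e (nat_lit 172106) (nat_lit 10) (.e (nat_lit 434231) (nat_lit 23) .nil)))) .nil)))) (.nd (nat_lit 5) (.nd (nat_lit 6) 
(.lf (nat_lit 83095) (.g (nat_lit 1448) (.e (nat_lit 1856) (nat_lit 124) (.e (nat_lit 557107) (nat_lit 15) (.e (nat_lit 188450) (nat_lit 23) (.e (nat_lit 204821) (nat_lit 17) (.e (nat_lit 6671) (nat_lit 357) .nil))))) .nil)) 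
(.lf (nat_lit 83159) (.g (nat_lit 3313) (.e (nat_lit 1856) (nat_lit 124) (.e (nat_lit 557109) (nat_lit 15) (.e (nat_lit 188452) (nat_lit 23) (.e (nat_lit 204840) (nat_lit 21) .nil)))) .nil))) (.nd (nat_lit 6) 
(.lf (nat_lit 83127) (.g (nat_lit 1128) (.e (nat_lit 1856) (nat_lit 124) (.e (nat_lit 557109) (nat_lit 15) (.e (nat_lit 188434) (nat_lit 20) (.e (nat_lit 3271) (nat_lit 199) .nil)))) .nil)) 
(.lf (nat_lit 83191) (.g (nat_lit 652) (.e (nat_lit 1857) (nat_lit 124) (.e (nat_lit 557103) (nat_lit 14) (.e (nat_lit 180243) (nat_lit 5) .nil))) .nil))))) (.nd (nat_lit 4) (.nd (nat_lit 5) (.nd (nat_lit 6) 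
(.lf (nat_lit 83087) (.g (nat_lit 2706) (.e (nat_lit 1856) (nat_lit 124) (.e (nat_lit 557107) (nat_lit 15) (.e (nat_lit 188420) (nat_lit 0) (.e (nat_lit 1855) (nat_lit 124) (.e (nat_lit 557107) (nat_lit 15) (.e (nat_lit 188418) (nat_lit 0) .nil)))))) (.g (nat_lit 5) .nil .nil))) 
(.lf (nat_lit 83151) (.g (nat_lit 176) (.e (nat_lit 1856) (nat_lit 124) (.e (nat_lit 557109) (nat_lit 15) (.e (nat_lit 188452) (nat_lit 23) .nil))) .nil))) (.nd (nat_lit 6) 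
(.lf (nat_lit 83119) (.g (nat_lit 2322) (.e (nat_lit 1856) (nat_lit 124) (.e (nat_lit 557109) (nat_lit 15) (.e (nat_lit 188418) (nat_lit 0) (.e (nat_lit 1856) (nat_lit 124) (.e (nat_lit 557109) (nat_lit 15) (.e (nat_lit 188418) (nat_lit 0) .nil)))))) (.g (nat_lit 4) .nil .nil))) 
(.lf (nat_lit 83183) (.g (nat_lit 3047) (.e (nat_lit 1857) (nat_lit 124) (.e (nat_lit 557100) (nat_lit 13) (.e (nat_lit 172106) (nat_lit 10) (.e (nat_lit 434231) (nat_lit 23) (.e (nat_lit 532565) (nat_lit 15) .nil))))) .nil)))) (.nd (nat_lit 5) (.nd (nat_lit 6) 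
(.lf (nat_lit 83103) (.g (nat_lit 3611) (.e (nat_lit 1856) (nat_lit 124) (.e (nat_lit 557107) (nat_lit 15) (.e (nat_lit 188452) (nat_lit 23) (.e (nat_lit 204885) (nat_lit 33) (.e (nat_lit 401440) (nat_lit 9) (.e (nat_lit 426396) (nat_lit 15) .nil)))))) (.g (nat_lit 5) .nil .nil))) 
(.lf (nat_lit 83167) (.g (nat_lit 1342) (.e (nat_lit 1856) (nat_lit 124) (.e (nat_lit 557109) (nat_lit 15) (.e (nat_lit 188458) (nat_lit 25) (.e (nat_lit 245784) (nat_lit 9) .nil)))) .nil))) (.nd (nat_lit 6) 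
(.lf (nat_lit 83135) (.g (nat_lit 3037) (.e (nat_lit 1856) (nat_lit 124) (.e (nat_lit 557109) (nat_lit 15) (.e (nat_lit 188441) (nat_lit 20) (.e (nat_lit 3272) (nat_lit 199) (.e (nat_lit 548915) (nat_lit 20) (.e (nat_lit 188420) (nat_lit 0) .nil)))))) (.g (nat_lit 5) .nil .nil))) 
(.lf (nat_lit 83199) (.g (nat_lit 2654) (.e (nat_lit 1857) (nat_lit 124) (.e (nat_lit 557105) (nat_lit 14) (.e (nat_lit 180252) (nat_lit 10) (.e (nat_lit 573487) (nat_lit 14) .nil)))) .nil)))))))))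

noncomputable def tv1125 : DT := (.nd (nat_lit 0) (.nd (nat_lit 1) (.nd (nat_lit 2) (.nd (nat_lit 3) (.nd (nat_lit 4) (.nd (nat_lit 5) (.nd (nat_lit 6) 
(.lf (nat_lit 83200) (.g (nat_lit 2670) (.e (nat_lit 1857) (nat_lit 124) (.e (nat_lit 557105) (nat_lit 14) (.e (nat_lit 180252) (nat_lit 10) (.e (nat_lit 573488) (nat_lit 14) .nil)))) .nil)) 
(.lf (nat_lit 83264) (.g (nat_lit 3937) (.e (nat_lit 1858) (nat_lit 124) (.e (nat_lit 557087) (nat_lit 11) (.e (nat_lit 24617) (nat_lit 7) (.e (nat_lit 319518) (nat_lit 12) .nil)))) .nil))) (.nd (nat_lit 6) 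
(.lf (nat_lit 83232) (.g (nat_lit 4309) (.e (nat_lit 1857) (nat_lit 124) (.e (nat_lit 557109) (nat_lit 15) (.e (nat_lit 188452) (nat_lit 23) (.e (nat_lit 204861) (nat_lit 26) .nil)))) .nil)) 
(.lf (nat_lit 83296) (.g (nat_lit 2552) (.e (nat_lit 1858) (nat_lit 124) (.e (nat_lit 557093) (nat_lit 12) (.e (nat_lit 164022) (nat_lit 46) (.e (nat_lit 704738) (nat_lit 11) (.e (nat_lit 16409) (nat_lit 2) (.e (nat_lit 196674) (nat_lit 15) (.e (nat_lit 81946) (nat_lit 20) .nil))))))) (.g (nat_lit 4) .nil .nil))))) (.nd (nat_lit 5) (.nd (nat_lit 6) 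
(.lf (nat_lit 83216) (.g (nat_lit 3915) (.e (nat_lit 1857) (nat_lit 124) (.e (nat_lit 557109) (nat_lit 15) (.e (nat_lit 188449) (nat_lit 22) (.e (nat_lit 196666) (nat_lit 13) (.e (nat_lit 65574) (nat_lit 4) (.e (nat_lit 123196) (nat_lit 266) (.e (nat_lit 57354) (nat_lit 0) .nil))))))) (.g (nat_lit 4) .nil .nil))) 
(.lf (nat_lit 83280) (.g (nat_lit 1949) (.e (nat_lit 1858) (nat_lit 124) (.e (nat_lit 557091) (nat_lit 12) (.e (nat_lit 164022) (nat_lit 46) (.e (nat_lit 704737) (nat_lit 11) (.e (nat_lit 16409) (nat_lit 2) .nil))))) .nil))) (.nd (nat_lit 6) 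
(.lf (nat_lit 83248) (.g (nat_lit 3495) (.e (nat_lit 1858) (nat_lit 124) (.e (nat_lit 557085) (nat_lit 11) (.e (nat_lit 24648) (nat_lit 12) (.e (nat_lit 385074) (nat_lit 31) (.e (nat_lit 573491) (nat_lit 15) (.e (nat_lit 81946) (nat_lit 20) .nil)))))) (.g (nat_lit 4) .nil .nil))) 
(.lf (nat_lit 83312) (.g (nat_lit 3882) (.e (nat_lit 1858) (nat_lit 124) (.e (nat_lit 557093) (nat_lit 12) (.e (nat_lit 164023) (nat_lit 46) (.e (nat_lit 704737) (nat_lit 11) (.e (nat_lit 16412) (nat_lit 2) (.e (nat_lit 196672) (nat_lit 15) (.e (nat_lit 81928) (nat_lit 20) .nil))))))) (.g (nat_lit 5) .nil .nil)))))) (.nd (nat_lit 4) (.nd (nat_lit 5) (.nd (nat_lit 6) 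
(.lf (nat_lit 83208) (.g (nat_lit 934) (.e (nat_lit 1857) (nat_lit 124) (.e (nat_lit 557109) (nat_lit 15) (.e (nat_lit 188447) (nat_lit 22) .nil))) .nil)) 
(.lf (nat_lit 83272) (.g (nat_lit 6060) (.e (nat_lit 1858) (nat_lit 124) (.e (nat_lit 557090) (nat_lit 12) (.e (nat_lit 164020) (nat_lit 45) (.e (nat_lit 696344) (nat_lit 8) (.e (nat_lit 172064) (nat_lit 2) (.e (nat_lit 196674) (nat_lit 15) (.e (nat_lit 81946) (nat_lit 20) .nil))))))) (.g (nat_lit 0) .nil .nil)))) (.nd (nat_lit 6) 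
(.lf (nat_lit 83240) (.g (nat_lit 817) (.e (nat_lit 1857) (nat_lit 124) (.e (nat_lit 557109) (nat_lit 15) (.e (nat_lit 188461) (nat_lit 26) .nil))) .nil)) 
(.lf (nat_lit 83304) (.g (nat_lit 4487) (.e (nat_lit 1858) (nat_lit 124) (.e (nat_lit 557093) (nat_lit 12) (.e (nat_lit 164022) (nat_lit 46) (.e (nat_lit 704738) (nat_lit 11) (.e (nat_lit 16412) (nat_lit 2) (.e (nat_lit 196674) (nat_lit 15) (.e (nat_lit 81940) (nat_lit 20) .nil))))))) (.g (nat_lit 6) .nil .nil))))) (.nd (nat_lit 5) (.nd (nat_lit 6) 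
(.lf (nat_lit 83224) (.g (nat_lit 3573) (.e (nat_lit 1857) (nat_lit 124) (.e (nat_lit 557109) (nat_lit 15) (.e (nat_lit 188452) (nat_lit 23) (.e (nat_lit 204846) (nat_lit 24) .nil)))) .nil)) 
(.lf (nat_lit 83288) (.g (nat_lit 2243) (.e (nat_lit 1858) (nat_lit 124) (.e (nat_lit 557093) (nat_lit 12) (.e (nat_lit 164022) (nat_lit 46) (.e (nat_lit 704736) (nat_lit 11) (.e (nat_lit 16411) (nat_lit 2) (.e (nat_lit 196672) (nat_lit 15) (.e (nat_lit 81942) (nat_lit 20) .nil))))))) (.g (nat_lit 5) .nil .nil)))) (.nd (nat_lit 6) 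
(.lf (nat_lit 83256) (.g (nat_lit 2010) (.e (nat_lit 1858) (nat_lit 124) (.e (nat_lit 557086) (nat_lit 11) (.e (nat_lit 24662) (nat_lit 14) (.e (nat_lit 401424) (nat_lit 2) .nil)))) .nil)) 
(.lf (nat_lit 83320) (.g (nat_lit 2214) (.e (nat_lit 1858) (nat_lit 124) (.e (nat_lit 557093) (nat_lit 12) (.e (nat_lit 164023) (nat_lit 46) (.e (nat_lit 704738) (nat_lit 11) (.e (nat_lit 16411) (nat_lit 2) (.e (nat_lit 196672) (nat_lit 15) (.e (nat_lit 81928) (nat_lit 20) .nil))))))) (.g (nat_lit 4) .nil .nil))))))) (.nd (nat_lit 3) (.nd (nat_lit 4) (.nd (nat_lit 5) (.nd (nat_lit 6) 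
(.lf (nat_lit 83204) (.g (nat_lit 1739) (.e (nat_lit 1857) (nat_lit 124) (.e (nat_lit 557105) (nat_lit 14) (.e (nat_lit 180265) (nat_lit 21) (.e (nat_lit 663555) (nat_lit 0) .nil)))) .nil)) 
(.lf (nat_lit 83268) (.g (nat_lit 3190) (.e (nat_lit 1858) (nat_lit 124) (.e (nat_lit 557087) (nat_lit 11) (.e (nat_lit 24665) (nat_lit 14) (.e (nat_lit 401423) (nat_lit 2) (.e (nat_lit 196674) (nat_lit 15) (.e (nat_lit 81946) (nat_lit 20) .nil)))))) (.g (nat_lit 4) .nil .nil)))) (.nd (nat_lit 6) 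
(.lf (nat_lit 83236) (.g (nat_lit 4098) (.e (nat_lit 1857) (nat_lit 124) (.e (nat_lit 557109) (nat_lit 15) (.e (nat_lit 188452) (nat_lit 23) (.e (nat_lit 204882) (nat_lit 32) .nil)))) .nil)) 
(.lf (nat_lit 83300) (.g (nat_lit 2079) (.e (nat_lit 1858) (nat_lit 124) (.e (nat_lit 557093) (nat_lit 12) (.e (nat_lit 164022) (nat_lit 46) (.e (nat_lit 704738) (nat_lit 11) (.e (nat_lit 16411) (nat_lit 2) (.e (nat_lit 196672) (nat_lit 15) (.e (nat_lit 81940) (nat_lit 20) .nil))))))) (.g (nat_lit 4) .nil .nil))))) (.nd (nat_lit 5) (.nd (nat_lit 6) 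
(.lf (nat_lit 83220) (.g (nat_lit 4403) (.e (nat_lit 1857) (nat_lit 124) (.e (nat_lit 557109) (nat_lit 15) (.e (nat_lit 188449) (nat_lit 22) (.e (nat_lit 196670) (nat_lit 14) .nil)))) .nil)) 
(.lf (nat_lit 83284) (.g (nat_lit 5661) (.e (nat_lit 1858) (nat_lit 124) (.e (nat_lit 557091) (nat_lit 12) (.e (nat_lit 164022) (nat_lit 46) (.e (nat_lit 704738) (nat_lit 11) (.e (nat_lit 16412) (nat_lit 2) (.e (nat_lit 196672) (nat_lit 15) (.e (nat_lit 81946) (nat_lit 20) .nil))))))) (.g (nat_lit 0) .nil .nil)))) (.nd (nat_lit 6) 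
(.lf (nat_lit 83252) (.g (nat_lit 2656) (.e (nat_lit 1858) (nat_lit 124) (.e (nat_lit 557085) (nat_lit 11) (.e (nat_lit 24664) (nat_lit 14) (.e (nat_lit 401423) (nat_lit 2) (.e (nat_lit 196674) (nat_lit 15) (.e (nat_lit 81946) (nat_lit 20) .nil)))))) (.g (nat_lit 4) .nil .nil))) 
(.lf (nat_lit 83316) (.g (nat_lit 3591) (.e (nat_lit 1858) (nat_lit 124) (.e (nat_lit 557093) (nat_lit 12) (.e (nat_lit 164023) (nat_lit 46) (.e (nat_lit 704737) (nat_lit 11) (.e (nat_lit 16412) (nat_lit 2) (.e (nat_lit 196674) (nat_lit 15) (.e (nat_lit 81940) (nat_lit 20) .nil))))))) (.g (nat_lit 5) .nil .nil)))))) (.nd (nat_lit 4) (.nd (nat_lit 5) (.nd (nat_lit 6) 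
(.lf (nat_lit 83212) (.g (nat_lit 927) (.e (nat_lit 1857) (nat_lit 124) (.e (nat_lit 557109) (nat_lit 15) (.e (nat_lit 188449) (nat_lit 22) .nil))) .nil)) 
(.lf (nat_lit 83276) (.g (nat_lit 1491) (.e (nat_lit 1858) (nat_lit 124) (.e (nat_lit 557091) (nat_lit 12) (.e (nat_lit 164020) (nat_lit 45) (.e (nat_lit 696343) (nat_lit 8) (.e (nat_lit 172073) (nat_lit 5) .nil))))) .nil))) (.nd (nat_lit 6) 
(.lf (nat_lit 83244) (.g (nat_lit 2609) (.e (nat_lit 1857) (nat_lit 124) (.e (nat_lit 557109) (nat_lit 15) (.e (nat_lit 188461) (nat_lit 26) (.e (nat_lit 253975) (nat_lit 9) .nil)))) .nil)) 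
(.lf (nat_lit 83308) (.g (nat_lit 1164) (.e (nat_lit 1858) (nat_lit 124) (.e (nat_lit 557093) (nat_lit 12) (.e (nat_lit 164023) (nat_lit 46) (.e (nat_lit 704736) (nat_lit 11) .nil)))) .nil)))) (.nd (nat_lit 5) (.nd (nat_lit 6) 
(.lf (nat_lit 83228) (.g (nat_lit 2860) (.e (nat_lit 1857) (nat_lit 124) (.e (nat_lit 557109) (nat_lit 15) (.e (nat_lit 188452) (nat_lit 23) (.e (nat_lit 204855) (nat_lit 26) .nil)))) .nil)) 
(.lf (nat_lit 83292) (.g (nat_lit 3242) (.e (nat_lit 1858) (nat_lit 124) (.e (nat_lit 557093) (nat_lit 12) (.e (nat_lit 164022) (nat_lit 46) (.e (nat_lit 704737) (nat_lit 11) (.e (nat_lit 16411) (nat_lit 2) (.e (nat_lit 196672) (nat_lit 15) (.e (nat_lit 81943) (nat_lit 20) .nil))))))) (.g (nat_lit 6) .nil .nil)))) (.nd (nat_lit 6) 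
(.lf (nat_lit 83260) (.g (nat_lit 3608) (.e (nat_lit 1858) (nat_lit 124) (.e (nat_lit 557086) (nat_lit 11) (.e (nat_lit 24665) (nat_lit 14) (.e (nat_lit 401424) (nat_lit 2) (.e (nat_lit 196674) (nat_lit 15) (.e (nat_lit 81946) (nat_lit 20) .nil)))))) (.g (nat_lit 6) .nil .nil))) 
(.lf (nat_lit 83324) (.g (nat_lit 2529) (.e (nat_lit 1858) (nat_lit 124) (.e (nat_lit 557093) (nat_lit 12) (.e (nat_lit 164023) (nat_lit 46) (.e (nat_lit 704738) (nat_lit 11) (.e (nat_lit 16412) (nat_lit 2) (.e (nat_lit 196672) (nat_lit 15) (.e (nat_lit 81940) (nat_lit 20) .nil))))))) (.g (nat_lit 4) .nil .nil)))))))) 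
(.nd (nat_lit 2) (.nd (nat_lit 3) (.nd (nat_lit 4) (.nd (nat_lit 5) (.nd (nat_lit 6) 
(.lf (nat_lit 83202) (.g (nat_lit 2184) (.e (nat_lit 1857) (nat_lit 124) (.e (nat_lit 557105) (nat_lit 14) (.e (nat_lit 180252) (nat_lit 10) (.e (nat_lit 573489) (nat_lit 14) .nil)))) .nil)) 
(.lf (nat_lit 83266) (.g (nat_lit 3974) (.e (nat_lit 1858) (nat_lit 124) (.e (nat_lit 557087) (nat_lit 11) (.e (nat_lit 24662) (nat_lit 14) (.e (nat_lit 401424) (nat_lit 2) .nil)))) .nil))) (.nd (nat_lit 6) 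
(.lf (nat_lit 83234) (.g (nat_lit 3974) (.e (nat_lit 1857) (nat_lit 124) (.e (nat_lit 557109) (nat_lit 15) (.e (nat_lit 188452) (nat_lit 23) (.e (nat_lit 204880) (nat_lit 32) .nil)))) .nil)) 
(.lf (nat_lit 83298) (.g (nat_lit 1957) (.e (nat_lit 1858) (nat_lit 124) (.e (nat_lit 557093) (nat_lit 12) (.e (nat_lit 164022) (nat_lit 46) (.e (nat_lit 704738) (nat_lit 11) (.e (nat_lit 16411) (nat_lit 2) (.e (nat_lit 196671) (nat_lit 15) (.e (nat_lit 81942) (nat_lit 20) .nil))))))) (.g (nat_lit 4) .nil .nil))))) (.nd (nat_lit 5) (.nd (nat_lit 6) 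
(.lf (nat_lit 83218) (.g (nat_lit 5587) (.e (nat_lit 1857) (nat_lit 124) (.e (nat_lit 557109) (nat_lit 15) (.e (nat_lit 188449) (nat_lit 22) (.e (nat_lit 196668) (nat_lit 14) .nil)))) .nil)) 
(.lf (nat_lit 83282) (.g (nat_lit 5067) (.e (nat_lit 1858) (nat_lit 124) (.e (nat_lit 557091) (nat_lit 12) (.e (nat_lit 164022) (nat_lit 46) (.e (nat_lit 704737) (nat_lit 11) (.e (nat_lit 16412) (nat_lit 2) (.e (nat_lit 196672) (nat_lit 15) (.e (nat_lit 81946) (nat_lit 20) .nil))))))) (.g (nat_lit 7) .nil .nil)))) (.nd (nat_lit 6) 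
(.lf (nat_lit 83250) (.g (nat_lit 2951) (.e (nat_lit 1858) (nat_lit 124) (.e (nat_lit 557085) (nat_lit 11) (.e (nat_lit 24652) (nat_lit 12) (.e (nat_lit 385074) (nat_lit 31) (.e (nat_lit 573491) (nat_lit 15) (.e (nat_lit 81946) (nat_lit 20) .nil)))))) (.g (nat_lit 4) .nil .nil))) 
(.lf (nat_lit 83314) (.g (nat_lit 4659) (.e (nat_lit 1858) (nat_lit 124) (.e (nat_lit 557093) (nat_lit 12) (.e (nat_lit 164023) (nat_lit 46) (.e (nat_lit 704737) (nat_lit 11) (.e (nat_lit 16412) (nat_lit 2) (.e (nat_lit 196672) (nat_lit 15) (.e (nat_lit 81942) (nat_lit 20) .nil))))))) (.g (nat_lit 6) .nil .nil)))))) (.nd (nat_lit 4) (.nd (nat_lit 5) (.nd (nat_lit 6) 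
(.lf (nat_lit 83210) (.g (nat_lit 4367) (.e (nat_lit 1857) (nat_lit 124) (.e (nat_lit 557109) (nat_lit 15) (.e (nat_lit 188447) (nat_lit 22) (.e (nat_lit 196666) (nat_lit 13) (.e (nat_lit 65572) (nat_lit 4) .nil))))) .nil)) 
(.lf (nat_lit 83274) (.g (nat_lit 2904) (.e (nat_lit 1858) (nat_lit 124) (.e (nat_lit 557090) (nat_lit 12) (.e (nat_lit 164022) (nat_lit 46) (.e (nat_lit 704738) (nat_lit 11) (.e (nat_lit 16412) (nat_lit 2) .nil))))) .nil))) (.nd (nat_lit 6) 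
(.lf (nat_lit 83242) (.g (nat_lit 2463) (.e (nat_lit 1857) (nat_lit 124) (.e (nat_lit 557109) (nat_lit 15) (.e (nat_lit 188461) (nat_lit 26) (.e (nat_lit 253960) (nat_lit 9) .nil)))) .nil)) 
(.lf (nat_lit 83306) (.g (nat_lit 4707) (.e (nat_lit 1858) (nat_lit 124) (.e (nat_lit 557093) (nat_lit 12) (.e (nat_lit 164022) (nat_lit 46) (.e (nat_lit 704738) (nat_lit 11) (.e (nat_lit 16412) (nat_lit 2) (.e (nat_lit 196674) (nat_lit 15) (.e (nat_lit 81947) (nat_lit 20) .nil))))))) (.g (nat_lit 6) .nil .nil))))) (.nd (nat_lit 5) (.nd (nat_lit 6) 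
(.lf (nat_lit 83226) (.g (nat_lit 4148) (.e (nat_lit 1857) (nat_lit 124) (.e (nat_lit 557109) (nat_lit 15) (.e (nat_lit 188452) (nat_lit 23) (.e (nat_lit 204851) (nat_lit 26) .nil)))) .nil)) 
(.lf (nat_lit 83290) (.g (nat_lit 1945) (.e (nat_lit 1858) (nat_lit 124) (.e (nat_lit 557093) (nat_lit 12) (.e (nat_lit 164022) (nat_lit 46) (.e (nat_lit 704737) (nat_lit 11) (.e (nat_lit 16411) (nat_lit 2) (.e (nat_lit 196672) (nat_lit 15) (.e (nat_lit 81940) (nat_lit 20) .nil))))))) (.g (nat_lit 4) .nil .nil)))) (.nd (nat_lit 6) 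
(.lf (nat_lit 83258) (.g (nat_lit 1916) (.e (nat_lit 1858) (nat_lit 124) (.e (nat_lit 557086) (nat_lit 11) (.e (nat_lit 24664) (nat_lit 14) (.e (nat_lit 401425) (nat_lit 2) (.e (nat_lit 196674) (nat_lit 15) (.e (nat_lit 81946) (nat_lit 20) .nil)))))) (.g (nat_lit 4) .nil .nil))) 
(.lf (nat_lit 83322) (.g (nat_lit 2531) (.e (nat_lit 1858) (nat_lit 124) (.e (nat_lit 557093) (nat_lit 12) (.e (nat_lit 164023) (nat_lit 46) (.e (nat_lit 704738) (nat_lit 11) (.e (nat_lit 16411) (nat_lit 2) (.e (nat_lit 196672) (nat_lit 15) (.e (nat_lit 81943) (nat_lit 20) .nil))))))) (.g (nat_lit 4) .nil .nil))))))) (.nd (nat_lit 3) (.nd (nat_lit 4) (.nd (nat_lit 5) (.nd (nat_lit 6) 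
(.lf (nat_lit 83206) (.g (nat_lit 1574) (.e (nat_lit 1857) (nat_lit 124) (.e (nat_lit 557107) (nat_lit 15) (.e (nat_lit 188447) (nat_lit 22) (.e (nat_lit 196666) (nat_lit 13) .nil)))) .nil)) 
(.lf (nat_lit 83270) (.g (nat_lit 4159) (.e (nat_lit 1858) (nat_lit 124) (.e (nat_lit 557090) (nat_lit 12) (.e (nat_lit 164020) (nat_lit 45) (.e (nat_lit 696343) (nat_lit 8) (.e (nat_lit 172064) (nat_lit 2) (.e (nat_lit 196674) (nat_lit 15) (.e (nat_lit 81946) (nat_lit 20) .nil))))))) (.g (nat_lit 5) .nil .nil)))) (.nd (nat_lit 6) 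
(.lf (nat_lit 83238) (.g (nat_lit 5026) (.e (nat_lit 1857) (nat_lit 124) (.e (nat_lit 557109) (nat_lit 15) (.e (nat_lit 188452) (nat_lit 23) (.e (nat_lit 204885) (nat_lit 33) .nil)))) .nil)) 
(.lf (nat_lit 83302) (.g (nat_lit 5108) (.e (nat_lit 1858) (nat_lit 124) (.e (nat_lit 557093) (nat_lit 12) (.e (nat_lit 164022) (nat_lit 46) (.e (nat_lit 704738) (nat_lit 11) (.e (nat_lit 16412) (nat_lit 2) (.e (nat_lit 196672) (nat_lit 15) (.e (nat_lit 81943) (nat_lit 20) .nil))))))) (.g (nat_lit 0) .nil .nil))))) (.nd (nat_lit 5) (.nd (nat_lit 6) 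
(.lf (nat_lit 83222) (.g (nat_lit 1009) (.e (nat_lit 1857) (nat_lit 124) (.e (nat_lit 557109) (nat_lit 15) (.e (nat_lit 188452) (nat_lit 23) .nil))) .nil)) 
(.lf (nat_lit 83286) (.g (nat_lit 1675) (.e (nat_lit 1858) (nat_lit 124) (.e (nat_lit 557091) (nat_lit 12) (.e (nat_lit 164238) (nat_lit 187) (.e (nat_lit 1428) (nat_lit 108) .nil)))) .nil))) (.nd (nat_lit 6) 
(.lf (nat_lit 83254) (.g (nat_lit 3353) (.e (nat_lit 1858) (nat_lit 124) (.e (nat_lit 557085) (nat_lit 11) (.e (nat_lit 24665) (nat_lit 14) (.e (nat_lit 401423) (nat_lit 2) (.e (nat_lit 196674) (nat_lit 15) (.e (nat_lit 81946) (nat_lit 20) .nil)))))) (.g (nat_lit 5) .nil .nil))) 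
(.lf (nat_lit 83318) (.g (nat_lit 3835) (.e (nat_lit 1858) (nat_lit 124) (.e (nat_lit 557093) (nat_lit 12) (.e (nat_lit 164023) (nat_lit 46) (.e (nat_lit 704737) (nat_lit 11) (.e (nat_lit 16412) (nat_lit 2) (.e (nat_lit 196674) (nat_lit 15) (.e (nat_lit 81947) (nat_lit 20) .nil))))))) (.g (nat_lit 5) .nil .nil)))))) (.nd (nat_lit 4) (.nd (nat_lit 5) (.nd (nat_lit 6) 
(.lf (nat_lit 83214) (.g (nat_lit 5927) (.e (nat_lit 1857) (nat_lit 124) (.e (nat_lit 557109) (nat_lit 15) (.e (nat_lit 188449) (nat_lit 22) (.e (nat_lit 196662) (nat_lit 13) .nil)))) .nil)) 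
(.lf (nat_lit 83278) (.g (nat_lit 1841) (.e (nat_lit 1858) (nat_lit 124) (.e (nat_lit 557091) (nat_lit 12) (.e (nat_lit 164020) (nat_lit 45) (.e (nat_lit 696344) (nat_lit 8) (.e (nat_lit 172073) (nat_lit 5) (.e (nat_lit 245792) (nat_lit 15) (.e (nat_lit 81946) (nat_lit 20) .nil))))))) (.g (nat_lit 4) .nil .nil)))) (.nd (nat_lit 6) 
(.lf (nat_lit 83246) (.g (nat_lit 1503) (.e (nat_lit 1858) (nat_lit 124) (.e (nat_lit 557066) (nat_lit 9) (.e (nat_lit 268) (nat_lit 21) (.e (nat_lit 336228) (nat_lit 14) .nil)))) .nil)) 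
(.lf (nat_lit 83310) (.g (nat_lit 2827) (.e (nat_lit 1858) (nat_lit 124) (.e (nat_lit 557093) (nat_lit 12) (.e (nat_lit 164023) (nat_lit 46) (.e (nat_lit 704737) (nat_lit 11) (.e (nat_lit 16411) (nat_lit 2) (.e (nat_lit 196672) (nat_lit 15) (.e (nat_lit 81928) (nat_lit 20) .nil))))))) (.g (nat_lit 4) .nil .nil))))) (.nd (nat_lit 5) (.nd (nat_lit 6) 
(.lf (nat_lit 83230) (.g (nat_lit 4467) (.e (nat_lit 1857) (nat_lit 124) (.e (nat_lit 557109) (nat_lit 15) (.e (nat_lit 188452) (nat_lit 23) (.e (nat_lit 204858) (nat_lit 26) .nil)))) .nil)) 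
(.lf (nat_lit 83294) (.g (nat_lit 4120) (.e (nat_lit 1858) (nat_lit 124) (.e (nat_lit 557093) (nat_lit 12) (.e (nat_lit 164022) (nat_lit 46) (.e (nat_lit 704737) (nat_lit 11) (.e (nat_lit 16412) (nat_lit 2) (.e (nat_lit 196672) (nat_lit 15) (.e (nat_lit 81942) (nat_lit 20) .nil))))))) (.g (nat_lit 7) .nil .nil)))) (.nd (nat_lit 6) 
(.lf (nat_lit 83262) (.g (nat_lit 3793) (.e (nat_lit 1858) (nat_lit 124) (.e (nat_lit 557087) (nat_lit 11) (.e (nat_lit 24617) (nat_lit 7) (.e (nat_lit 319504) (nat_lit 10) .nil)))) .nil)) 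
(.lf (nat_lit 83326) (.g (nat_lit 3736) (.e (nat_lit 1858) (nat_lit 124) (.e (nat_lit 557093) (nat_lit 12) (.e (nat_lit 164023) (nat_lit 46) (.e (nat_lit 704738) (nat_lit 11) (.e (nat_lit 16412) (nat_lit 2) (.e (nat_lit 196672) (nat_lit 15) (.e (nat_lit 81943) (nat_lit 20) .nil))))))) (.g (nat_lit 5) .nil .nil))))))))) 
(.nd (nat_lit 1) (.nd (nat_lit 2) (.nd (nat_lit 3) (.nd (nat_lit 4) (.nd (nat_lit 5) 
(.nd (nat_lit 6) 
(.lf (nat_lit 83201) (.g (nat_lit 3318) (.e (nat_lit 1857) (nat_lit 124) (.e (nat_lit 557105) (nat_lit 14) (.e (nat_lit 180252) (nat_lit 10) (.e (nat_lit 573488) (nat_lit 14) (.e (nat_lit 73747) (nat_lit 3) .nil))))) .nil)) 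
(.lf (nat_lit 83265) (.g (nat_lit 3979) (.e (nat_lit 1858) (nat_lit 124) (.e (nat_lit 557087) (nat_lit 11) (.e (nat_lit 24662) (nat_lit 14) (.e (nat_lit 401423) (nat_lit 2) .nil)))) .nil))) (.nd (nat_lit 6) 
(.lf (nat_lit 83233) (.g (nat_lit 4445) (.e (nat_lit 1857) (nat_lit 124) (.e (nat_lit 557109) (nat_lit 15) (.e (nat_lit 188452) (nat_lit 23) (.e (nat_lit 204874) (nat_lit 30) .nil)))) .nil)) 
(.lf (nat_lit 83297) (.g (nat_lit 1846) (.e (nat_lit 1858) (nat_lit 124) (.e (nat_lit 557093) (nat_lit 12) (.e (nat_lit 164022) (nat_lit 46) (.e (nat_lit 704738) (nat_lit 11) (.e (nat_lit 16411) (nat_lit 2) (.e (nat_lit 196671) (nat_lit 15) (.e (nat_lit 81940) (nat_lit 20) .nil))))))) (.g (nat_lit 4) .nil .nil))))) (.nd (nat_lit 5) (.nd (nat_lit 6) 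
(.lf (nat_lit 83217) (.g (nat_lit 5889) (.e (nat_lit 1857) (nat_lit 124) (.e (nat_lit 557109) (nat_lit 15) (.e (nat_lit 188449) (nat_lit 22) (.e (nat_lit 196667) (nat_lit 14) .nil)))) .nil)) 
(.lf (nat_lit 83281) (.g (nat_lit 4692) (.e (nat_lit 1858) (nat_lit 124) (.e (nat_lit 557091) (nat_lit 12) (.e (nat_lit 164022) (nat_lit 46) (.e (nat_lit 704737) (nat_lit 11) (.e (nat_lit 16411) (nat_lit 2) (.e (nat_lit 196674) (nat_lit 15) (.e (nat_lit 81946) (nat_lit 20) .nil))))))) (.g (nat_lit 7) .nil .nil)))) (.nd (nat_lit 6) 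
(.lf (nat_lit 83249) (.g (nat_lit 2552) (.e (nat_lit 1858) (nat_lit 124) (.e (nat_lit 557085) (nat_lit 11) (.e (nat_lit 24650) (nat_lit 12) (.e (nat_lit 385074) (nat_lit 31) (.e (nat_lit 573491) (nat_lit 15) .nil))))) .nil)) 
(.lf (nat_lit 83313) (.g (nat_lit 2870) (.e (nat_lit 1858) (nat_lit 124) (.e (nat_lit 557093) (nat_lit 12) (.e (nat_lit 164023) (nat_lit 46) (.e (nat_lit 704737) (nat_lit 11) (.e (nat_lit 16412) (nat_lit 2) (.e (nat_lit 196672) (nat_lit 15) (.e (nat_lit 81940) (nat_lit 20) .nil))))))) (.g (nat_lit 4) .nil .nil)))))) (.nd (nat_lit 4) (.nd (nat_lit 5) (.nd (nat_lit 6) 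
(.lf (nat_lit 83209) (.g (nat_lit 3068) (.e (nat_lit 1857) (nat_lit 124) (.e (nat_lit 557109) (nat_lit 15) (.e (nat_lit 188447) (nat_lit 22) (.e (nat_lit 196666) (nat_lit 13) .nil)))) .nil)) 
(.lf (nat_lit 83273) (.g (nat_lit 2940) (.e (nat_lit 1858) (nat_lit 124) (.e (nat_lit 557090) (nat_lit 12) (.e (nat_lit 164022) (nat_lit 46) (.e (nat_lit 704737) (nat_lit 11) (.e (nat_lit 16412) (nat_lit 2) .nil))))) .nil))) (.nd (nat_lit 6) 
(.lf (nat_lit 83241) (.g (nat_lit 2262) (.e (nat_lit 1857) (nat_lit 124) (.e (nat_lit 557109) (nat_lit 15) (.e (nat_lit 188461) (nat_lit 26) (.e (nat_lit 253959) (nat_lit 9) .nil)))) .nil)) 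
(.lf (nat_lit 83305) (.g (nat_lit 2607) (.e (nat_lit 1858) (nat_lit 124) (.e (nat_lit 557093) (nat_lit 12) (.e (nat_lit 164022) (nat_lit 46) (.e (nat_lit 704738) (nat_lit 11) (.e (nat_lit 16412) (nat_lit 2) (.e (nat_lit 196674) (nat_lit 15) (.e (nat_lit 81944) (nat_lit 20) .nil))))))) (.g (nat_lit 4) .nil .nil))))) (.nd (nat_lit 5) (.nd (nat_lit 6) 
(.lf (nat_lit 83225) (.g (nat_lit 4344) (.e (nat_lit 1857) (nat_lit 124) (.e (nat_lit 557109) (nat_lit 15) (.e (nat_lit 188452) (nat_lit 23) (.e (nat_lit 204849) (nat_lit 25) .nil)))) .nil)) 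
(.lf (nat_lit 83289) (.g (nat_lit 2996) (.e (nat_lit 1858) (nat_lit 124) (.e (nat_lit 557093) (nat_lit 12) (.e (nat_lit 164022) (nat_lit 46) (.e (nat_lit 704737) (nat_lit 11) (.e (nat_lit 16411) (nat_lit 2) (.e (nat_lit 196672) (nat_lit 15) (.e (nat_lit 81928) (nat_lit 20) .nil))))))) (.g (nat_lit 6) .nil .nil)))) (.nd (nat_lit 6) 
(.lf (nat_lit 83257) (.g (nat_lit 2691) (.e (nat_lit 1858) (nat_lit 124) (.e (nat_lit 557086) (nat_lit 11) (.e (nat_lit 24664) (nat_lit 14) (.e (nat_lit 401423) (nat_lit 2) (.e (nat_lit 196674) (nat_lit 15) (.e (nat_lit 81946) (nat_lit 20) .nil)))))) (.g (nat_lit 5) .nil .nil))) 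
(.lf (nat_lit 83321) (.g (nat_lit 3066) (.e (nat_lit 1858) (nat_lit 124) (.e (nat_lit 557093) (nat_lit 12) (.e (nat_lit 164023) (nat_lit 46) (.e (nat_lit 704738) (nat_lit 11) (.e (nat_lit 16411) (nat_lit 2) (.e (nat_lit 196672) (nat_lit 15) (.e (nat_lit 81942) (nat_lit 20) .nil))))))) (.g (nat_lit 5) .nil .nil))))))) (.nd (nat_lit 3) (.nd (nat_lit 4) (.nd (nat_lit 5) (.nd (nat_lit 6) 
(.lf (nat_lit 83205) (.g (nat_lit 651) (.e (nat_lit 1857) (nat_lit 124) (.e (nat_lit 557107) (nat_lit 15) (.e (nat_lit 188447) (nat_lit 22) .nil))) .nil)) 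
(.lf (nat_lit 83269) (.g (nat_lit 3875) (.e (nat_lit 1858) (nat_lit 124) (.e (nat_lit 557087) (nat_lit 11) (.e (nat_lit 24665) (nat_lit 14) (.e (nat_lit 401424) (nat_lit 2) (.e (nat_lit 196674) (nat_lit 15) (.e (nat_lit 81946) (nat_lit 20) .nil)))))) (.g (nat_lit 5) .nil .nil)))) (.nd (nat_lit 6) 
(.lf (nat_lit 83237) (.g (nat_lit 5533) (.e (nat_lit 1857) (nat_lit 124) (.e (nat_lit 557109) (nat_lit 15) (.e (nat_lit 188452) (nat_lit 23) (.e (nat_lit 204884) (nat_lit 33) .nil)))) .nil)) 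
(.lf (nat_lit 83301) (.g (nat_lit 3972) (.e (nat_lit 1858) (nat_lit 124) (.e (nat_lit 557093) (nat_lit 12) (.e (nat_lit 164022) (nat_lit 46) (.e (nat_lit 704738) (nat_lit 11) (.e (nat_lit 16412) (nat_lit 2) (.e (nat_lit 196672) (nat_lit 15) (.e (nat_lit 81940) (nat_lit 20) .nil))))))) (.g (nat_lit 6) .nil .nil))))) (.nd (nat_lit 5) (.nd (nat_lit 6) 
(.lf (nat_lit 83221) (.g (nat_lit 3007) (.e (nat_lit 1857) (nat_lit 124) (.e (nat_lit 557109) (nat_lit 15) (.e (nat_lit 188450) (nat_lit 23) (.e (nat_lit 204855) (nat_lit 26) .nil)))) .nil)) 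
(.lf (nat_lit 83285) (.g (nat_lit 6054) (.e (nat_lit 1858) (nat_lit 124) (.e (nat_lit 557091) (nat_lit 12) (.e (nat_lit 164022) (nat_lit 46) (.e (nat_lit 704738) (nat_lit 11) (.e (nat_lit 16412) (nat_lit 2) (.e (nat_lit 196674) (nat_lit 15) (.e (nat_lit 81946) (nat_lit 20) .nil))))))) (.g (nat_lit 0) .nil .nil)))) (.nd (nat_lit 6) 
(.lf (nat_lit 83253) (.g (nat_lit 3041) (.e (nat_lit 1858) (nat_lit 124) (.e (nat_lit 557085) (nat_lit 11) (.e (nat_lit 24664) (nat_lit 14) (.e (nat_lit 401424) (nat_lit 2) (.e (nat_lit 196674) (nat_lit 15) (.e (nat_lit 81946) (nat_lit 20) .nil)))))) (.g (nat_lit 5) .nil .nil))) 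
(.lf (nat_lit 83317) (.g (nat_lit 6916) (.e (nat_lit 1858) (nat_lit 124) (.e (nat_lit 557093) (nat_lit 12) (.e (nat_lit 164023) (nat_lit 46) (.e (nat_lit 704737) (nat_lit 11) (.e (nat_lit 16412) (nat_lit 2) (.e (nat_lit 196674) (nat_lit 15) (.e (nat_lit 81946) (nat_lit 20) .nil))))))) (.g (nat_lit 0) .nil .nil)))))) (.nd (nat_lit 4) (.nd (nat_lit 5) (.nd (nat_lit 6) 
(.lf (nat_lit 83213) (.g (nat_lit 3188) (.e (nat_lit 1857) (nat_lit 124) (.e (nat_lit 557109) (nat_lit 15) (.e (nat_lit 188449) (nat_lit 22) (.e (nat_lit 196661) (nat_lit 12) .nil)))) .nil)) 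
(.lf (nat_lit 83277) (.g (nat_lit 4095) (.e (nat_lit 1858) (nat_lit 124) (.e (nat_lit 557091) (nat_lit 12) (.e (nat_lit 164020) (nat_lit 45) (.e (nat_lit 696344) (nat_lit 8) (.e (nat_lit 172064) (nat_lit 2) (.e (nat_lit 196674) (nat_lit 15) (.e (nat_lit 81946) (nat_lit 20) .nil))))))) (.g (nat_lit 7) .nil .nil)))) (.nd (nat_lit 6) 
(.lf (nat_lit 83245) (.g (nat_lit 2942) (.e (nat_lit 1858) (nat_lit 124) (.e (nat_lit 557066) (nat_lit 9) (.e (nat_lit 232) (nat_lit 21) (.e (nat_lit 336060) (nat_lit 7) (.e (nat_lit 319518) (nat_lit 12) .nil))))) .nil)) 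
(.lf (nat_lit 83309) (.g (nat_lit 2037) (.e (nat_lit 1858) (nat_lit 124) (.e (nat_lit 557093) (nat_lit 12) (.e (nat_lit 164023) (nat_lit 46) (.e (nat_lit 704737) (nat_lit 11) (.e (nat_lit 16411) (nat_lit 2) .nil))))) .nil)))) (.nd (nat_lit 5) (.nd (nat_lit 6) 
(.lf (nat_lit 83229) (.g (nat_lit 3629) (.e (nat_lit 1857) (nat_lit 124) (.e (nat_lit 557109) (nat_lit 15) (.e (nat_lit 188452) (nat_lit 23) (.e (nat_lit 204855) (nat_lit 26) (.e (nat_lit 336030) (nat_lit 4) .nil))))) .nil)) 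
(.lf (nat_lit 83293) (.g (nat_lit 3653) (.e (nat_lit 1858) (nat_lit 124) (.e (nat_lit 557093) (nat_lit 12) (.e (nat_lit 164022) (nat_lit 46) (.e (nat_lit 704737) (nat_lit 11) (.e (nat_lit 16412) (nat_lit 2) (.e (nat_lit 196672) (nat_lit 15) (.e (nat_lit 81928) (nat_lit 20) .nil))))))) (.g (nat_lit 6) .nil .nil)))) (.nd (nat_lit 6) 
(.lf (nat_lit 83261) (.g (nat_lit 1270) (.e (nat_lit 1858) (nat_lit 124) (.e (nat_lit 557087) (nat_lit 11) (.e (nat_lit 24617) (nat_lit 7) .nil))) .nil)) 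
(.lf (nat_lit 83325) (.g (nat_lit 3420) (.e (nat_lit 1858) (nat_lit 124) (.e (nat_lit 557093) (nat_lit 12) (.e (nat_lit 164023) (nat_lit 46) (.e (nat_lit 704738) (nat_lit 11) (.e (nat_lit 16412) (nat_lit 2) (.e (nat_lit 196672) (nat_lit 15) (.e (nat_lit 81942) (nat_lit 20) .nil))))))) (.g (nat_lit 5) .nil .nil)))))))) 
(.nd (nat_lit 2) (.nd (nat_lit 3) (.nd (nat_lit 4) (.nd (nat_lit 5) (.nd (nat_lit 6) 
(.lf (nat_lit 83203) (.g (nat_lit 2485) (.e (nat_lit 1857) (nat_lit 124) (.e (nat_lit 557105) (nat_lit 14) (.e (nat_lit 180252) (nat_lit 10) (.e (nat_lit 573489) (nat_lit 14) (.e (nat_lit 73755) (nat_lit 8) .nil))))) .nil)) 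
(.lf (nat_lit 83267) (.g (nat_lit 7069) (.e (nat_lit 1858) (nat_lit 124) (.e (nat_lit 557087) (nat_lit 11) (.e (nat_lit 24662) (nat_lit 14) (.e (nat_lit 401425) (nat_lit 2) (.e (nat_lit 196674) (nat_lit 15) .nil))))) .nil))) (.nd (nat_lit 6) 
(.lf (nat_lit 83235) (.g (nat_lit 4137) (.e (nat_lit 1857) (nat_lit 124) (.e (nat_lit 557109) (nat_lit 15) (.e (nat_lit 188452) (nat_lit 23) (.e (nat_lit 204881) (nat_lit 32) .nil)))) .nil)) 
(.lf (nat_lit 83299) (.g (nat_lit 3130) (.e (nat_lit 1858) (nat_lit 124) (.e (nat_lit 557093) (nat_lit 12) (.e (nat_lit 164022) (nat_lit 46) (.e (nat_lit 704738) (nat_lit 11) (.e (nat_lit 16411) (nat_lit 2) (.e (nat_lit 196672) (nat_lit 15) (.e (nat_lit 81928) (nat_lit 20) .nil))))))) (.g (nat_lit 6) .nil .nil))))) (.nd (nat_lit 5) (.nd (nat_lit 6) 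
(.lf (nat_lit 83219) (.g (nat_lit 6517) (.e (nat_lit 1857) (nat_lit 124) (.e (nat_lit 557109) (nat_lit 15) (.e (nat_lit 188449) (nat_lit 22) (.e (nat_lit 196669) (nat_lit 14) .nil)))) .nil)) 
(.lf (nat_lit 83283) (.g (nat_lit 3491) (.e (nat_lit 1858) (nat_lit 124) (.e (nat_lit 557091) (nat_lit 12) (.e (nat_lit 164022) (nat_lit 46) (.e (nat_lit 704738) (nat_lit 11) (.e (nat_lit 16412) (nat_lit 2) (.e (nat_lit 196672) (nat_lit 15) (.e (nat_lit 81942) (nat_lit 20) .nil))))))) (.g (nat_lit 4) .nil .nil)))) (.nd (nat_lit 6) 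
(.lf (nat_lit 83251) (.g (nat_lit 3970) (.e (nat_lit 1858) (nat_lit 124) (.e (nat_lit 557085) (nat_lit 11) (.e (nat_lit 24653) (nat_lit 12) (.e (nat_lit 385073) (nat_lit 31) (.e (nat_lit 573491) (nat_lit 15) (.e (nat_lit 81946) (nat_lit 20) .nil)))))) (.g (nat_lit 0) .nil .nil))) 
(.lf (nat_lit 83315) (.g (nat_lit 4188) (.e (nat_lit 1858) (nat_lit 124) (.e (nat_lit 557093) (nat_lit 12) (.e (nat_lit 164023) (nat_lit 46) (.e (nat_lit 704737) (nat_lit 11) (.e (nat_lit 16412) (nat_lit 2) (.e (nat_lit 196672) (nat_lit 15) (.e (nat_lit 81943) (nat_lit 20) .nil))))))) (.g (nat_lit 5) .nil .nil)))))) (.nd (nat_lit 4) (.nd (nat_lit 5) (.nd (nat_lit 6) 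
(.lf (nat_lit 83211) (.g (nat_lit 4437) (.e (nat_lit 1857) (nat_lit 124) (.e (nat_lit 557109) (nat_lit 15) (.e (nat_lit 188447) (nat_lit 22) (.e (nat_lit 196666) (nat_lit 13) (.e (nat_lit 65574) (nat_lit 4) .nil))))) .nil)) 
(.lf (nat_lit 83275) (.g (nat_lit 865) (.e (nat_lit 1858) (nat_lit 124) (.e (nat_lit 557091) (nat_lit 12) (.e (nat_lit 163996) (nat_lit 37) .nil))) .nil))) (.nd (nat_lit 6) 
(.lf (nat_lit 83243) (.g (nat_lit 2605) (.e (nat_lit 1857) (nat_lit 124) (.e (nat_lit 557109) (nat_lit 15) (.e (nat_lit 188461) (nat_lit 26) (.e (nat_lit 253967) (nat_lit 9) .nil)))) .nil)) 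
(.lf (nat_lit 83307) (.g (nat_lit 5013) (.e (nat_lit 1858) (nat_lit 124) (.e (nat_lit 557093) (nat_lit 12) (.e (nat_lit 164022) (nat_lit 46) (.e (nat_lit 704738) (nat_lit 11) (.e (nat_lit 16416) (nat_lit 3) (.e (nat_lit 204866) (nat_lit 28) (.e (nat_lit 352302) (nat_lit 20) .nil))))))) (.g (nat_lit 5) .nil .nil))))) (.nd (nat_lit 5) (.nd (nat_lit 6) 
(.lf (nat_lit 83227) (.g (nat_lit 4034) (.e (nat_lit 1857) (nat_lit 124) (.e (nat_lit 557109) (nat_lit 15) (.e (nat_lit 188452) (nat_lit 23) (.e (nat_lit 204852) (nat_lit 26) .nil)))) .nil)) 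
(.lf (nat_lit 83291) (.g (nat_lit 3563) (.e (nat_lit 1858) (nat_lit 124) (.e (nat_lit 557093) (nat_lit 12) (.e (nat_lit 164022) (nat_lit 46) (.e (nat_lit 704737) (nat_lit 11) (.e (nat_lit 16411) (nat_lit 2) (.e (nat_lit 196672) (nat_lit 15) (.e (nat_lit 81942) (nat_lit 20) .nil))))))) (.g (nat_lit 7) .nil .nil)))) (.nd (nat_lit 6) 
(.lf (nat_lit 83259) (.g (nat_lit 2960) (.e (nat_lit 1858) (nat_lit 124) (.e (nat_lit 557086) (nat_lit 11) (.e (nat_lit 24665) (nat_lit 14) (.e (nat_lit 401423) (nat_lit 2) (.e (nat_lit 196674) (nat_lit 15) (.e (nat_lit 81946) (nat_lit 20) .nil)))))) (.g (nat_lit 5) .nil .nil))) 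
(.lf (nat_lit 83323) (.g (nat_lit 3540) (.e (nat_lit 1858) (nat_lit 124) (.e (nat_lit 557093) (nat_lit 12) (.e (nat_lit 164023) (nat_lit 46) (.e (nat_lit 704738) (nat_lit 11) (.e (nat_lit 16412) (nat_lit 2) (.e (nat_lit 196672) (nat_lit 15) (.e (nat_lit 81928) (nat_lit 20) .nil))))))) (.g (nat_lit 5) .nil .nil))))))) (.nd (nat_lit 3) (.nd (nat_lit 4) (.nd (nat_lit 5) (.nd (nat_lit 6) 
(.lf (nat_lit 83207) (.g (nat_lit 5175) (.e (nat_lit 1857) (nat_lit 124) (.e (nat_lit 557108) (nat_lit 15) (.e (nat_lit 188452) (nat_lit 23) (.e (nat_lit 204885) (nat_lit 33) .nil)))) .nil)) 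
(.lf (nat_lit 83271) (.g (nat_lit 3488) (.e (nat_lit 1858) (nat_lit 124) (.e (nat_lit 557090) (nat_lit 12) (.e (nat_lit 164020) (nat_lit 45) (.e (nat_lit 696343) (nat_lit 8) (.e (nat_lit 172073) (nat_lit 5) (.e (nat_lit 245792) (nat_lit 15) (.e (nat_lit 81946) (nat_lit 20) .nil))))))) (.g (nat_lit 4) .nil .nil)))) (.nd (nat_lit 6) 
(.lf (nat_lit 83239) (.g (nat_lit 1023) (.e (nat_lit 1857) (nat_lit 124) (.e (nat_lit 557109) (nat_lit 15) (.e (nat_lit 188458) (nat_lit 25) .nil))) .nil)) 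
(.lf (nat_lit 83303) (.g (nat_lit 2451) (.e (nat_lit 1858) (nat_lit 124) (.e (nat_lit 557093) (nat_lit 12) (.e (nat_lit 164022) (nat_lit 46) (.e (nat_lit 704738) (nat_lit 11) (.e (nat_lit 16412) (nat_lit 2) (.e (nat_lit 196672) (nat_lit 15) (.e (nat_lit 81945) (nat_lit 20) .nil))))))) (.g (nat_lit 4) .nil .nil))))) (.nd (nat_lit 5) (.nd (nat_lit 6) 
(.lf (nat_lit 83223) (.g (nat_lit 5427) (.e (nat_lit 1857) (nat_lit 124) (.e (nat_lit 557109) (nat_lit 15) (.e (nat_lit 188452) (nat_lit 23) (.e (nat_lit 204816) (nat_lit 17) .nil)))) .nil)) 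
(.lf (nat_lit 83287) (.g (nat_lit 583) (.e (nat_lit 1858) (nat_lit 124) (.e (nat_lit 557093) (nat_lit 12) (.e (nat_lit 163847) (nat_lit 0) (.e (nat_lit 5971) (nat_lit 324) .nil)))) .nil))) (.nd (nat_lit 6) 
(.lf (nat_lit 83255) (.g (nat_lit 3916) (.e (nat_lit 1858) (nat_lit 124) (.e (nat_lit 557085) (nat_lit 11) (.e (nat_lit 24665) (nat_lit 14) (.e (nat_lit 401424) (nat_lit 2) (.e (nat_lit 196674) (nat_lit 15) (.e (nat_lit 81946) (nat_lit 20) .nil)))))) (.g (nat_lit 6) .nil .nil))) 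
(.lf (nat_lit 83319) (.g (nat_lit 3151) (.e (nat_lit 1858) (nat_lit 124) (.e (nat_lit 557093) (nat_lit 12) (.e (nat_lit 164023) (nat_lit 46) (.e (nat_lit 704738) (nat_lit 11) (.e (nat_lit 16410) (nat_lit 2) (.e (nat_lit 196674) (nat_lit 15) (.e (nat_lit 81946) (nat_lit 20) .nil))))))) (.g (nat_lit 4) .nil .nil)))))) (.nd (nat_lit 4) (.nd (nat_lit 5) (.nd (nat_lit 6) 
(.lf (nat_lit 83215) (.g (nat_lit 6500) (.e (nat_lit 1857) (nat_lit 124) (.e (nat_lit 557109) (nat_lit 15) (.e (nat_lit 188449) (nat_lit 22) (.e (nat_lit 196663) (nat_lit 13) .nil)))) .nil)) 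
(.lf (nat_lit 83279) (.g (nat_lit 2741) (.e (nat_lit 1858) (nat_lit 124) (.e (nat_lit 557091) (nat_lit 12) (.e (nat_lit 164022) (nat_lit 46) (.e (nat_lit 704735) (nat_lit 11) (.e (nat_lit 16412) (nat_lit 2) (.e (nat_lit 196674) (nat_lit 15) (.e (nat_lit 81946) (nat_lit 20) .nil))))))) (.g (nat_lit 4) .nil .nil)))) (.nd (nat_lit 6) 
(.lf (nat_lit 83247) (.g (nat_lit 701) (.e (nat_lit 1858) (nat_lit 124) (.e (nat_lit 557066) (nat_lit 9) (.e (nat_lit 293) (nat_lit 21) .nil))) .nil)) 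
(.lf (nat_lit 83311) (.g (nat_lit 3144) (.e (nat_lit 1858) (nat_lit 124) (.e (nat_lit 557093) (nat_lit 12) (.e (nat_lit 164023) (nat_lit 46) (.e (nat_lit 704737) (nat_lit 11) (.e (nat_lit 16411) (nat_lit 2) (.e (nat_lit 196672) (nat_lit 15) (.e (nat_lit 81943) (nat_lit 20) .nil))))))) (.g (nat_lit 4) .nil .nil))))) (.nd (nat_lit 5) (.nd (nat_lit 6) 
(.lf (nat_lit 83231) (.g (nat_lit 4256) (.e (nat_lit 1857) (nat_lit 124) (.e (nat_lit 557109) (nat_lit 15) (.e (nat_lit 188452) (nat_lit 23) (.e (nat_lit 204859) (nat_lit 26) .nil)))) .nil)) 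
(.lf (nat_lit 83295) (.g (nat_lit 3888) (.e (nat_lit 1858) (nat_lit 124) (.e (nat_lit 557093) (nat_lit 12) (.e (nat_lit 164022) (nat_lit 46) (.e (nat_lit 704737) (nat_lit 11) (.e (nat_lit 16412) (nat_lit 2) (.e (nat_lit 196672) (nat_lit 15) (.e (nat_lit 81943) (nat_lit 20) .nil))))))) (.g (nat_lit 6) .nil .nil)))) (.nd (nat_lit 6) 
(.lf (nat_lit 83263) (.g (nat_lit 3739) (.e (nat_lit 1858) (nat_lit 124) (.e (nat_lit 557087) (nat_lit 11) (.e (nat_lit 24617) (nat_lit 7) (.e (nat_lit 319505) (nat_lit 10) .nil)))) .nil)) 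
(.lf (nat_lit 83327) (.g (nat_lit 1000) (.e (nat_lit 1858) (nat_lit 124) (.e (nat_lit 557093) (nat_lit 12) (.e (nat_lit 164238) (nat_lit 187) (.e (nat_lit 1425) (nat_lit 108) .nil)))) .nil)))))))))


end

end Pool.Agent.Lib.MP_5854e1_co.Cz
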