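import Pool.Agent.Lib.MP_5854e1_co.DtD

/-!
# Windows and cells of the rings
-/

set_option autoImplicit false
set_option maxRecDepth 100000
set_option deprecated.oldSectionVars true

namespace Pool.Agent.Lib.MP_5854e1_co.Cz

open Pool.Agent.Lib.MP_5854e1_co

noncomputable section

noncomputable def tv1126 : DT := (.nd (nat_lit 0) (.nd (nat_lit 1) (.nd (nat_lit 2) (.nd (nat_lit 3) (.nd (nat_lit 4) (.nd (nat_lit 5) 
(.lf (nat_lit 83328) (.g (nat_lit 2987) (.e (nat_lit 1858) (nat_lit 124) (.e (nat_lit 557093) (nat_lit 12) (.e (nat_lit 164238) (nat_lit 187) (.e (nat_lit 1427) (nat_lit 108) (.e (nat_lit 336425) (nat_lit 28) (.e (nat_lit 434286) (nat_lit 42) (.e (nat_lit 688178) (nat_lit 16) (.e (nat_lit 65558) (nat_lit 0) .nil)))))))) (.g (nat_lit 4) .nil .nil))) 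
(.lf (nat_lit 83360) (.g (nat_lit 2723) (.e (nat_lit 1858) (nat_lit 124) (.e (nat_lit 557100) (nat_lit 13) (.e (nat_lit 172106) (nat_lit 10) (.e (nat_lit 434231) (nat_lit 23) (.e (nat_lit 532482) (nat_lit 0) (.e (nat_lit 6712) (nat_lit 360) (.e (nat_lit 164247) (nat_lit 201) (.e (nat_lit 59) (nat_lit 0) .nil)))))))) (.g (nat_lit 4) .nil .nil)))) (.nd (nat_lit 5) 
(.lf (nat_lit 83344) (.g (nat_lit 1453) (.e (nat_lit 1858) (nat_lit 124) (.e (nat_lit 557100) (nat_lit 13) (.e (nat_lit 172065) (nat_lit 3) (.e (nat_lit 212736) (nat_lit 10) .nil)))) .nil)) 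
(.lf (nat_lit 83376) (.g (nat_lit 3601) (.e (nat_lit 1858) (nat_lit 124) (.e (nat_lit 557100) (nat_lit 13) (.e (nat_lit 172106) (nat_lit 10) (.e (nat_lit 434231) (nat_lit 23) (.e (nat_lit 532490) (nat_lit 0) (.e (nat_lit 6149) (nat_lit 332) (.e (nat_lit 1385) (nat_lit 105) (.e (nat_lit 311348) (nat_lit 15) .nil)))))))) (.g (nat_lit 5) .nil .nil))))) (.nd (nat_lit 4) (.nd (nat_lit 5) 
(.lf (nat_lit 83336) (.g (nat_lit 2619) (.e (nat_lit 1858) (nat_lit 124) (.e (nat_lit 557094) (nat_lit 12) (.e (nat_lit 164022) (nat_lit 46) (.e (nat_lit 704738) (nat_lit 11) (.e (nat_lit 16412) (nat_lit 2) (.e (nat_lit 196672) (nat_lit 15) (.e (nat_lit 81942) (nat_lit 20) .nil))))))) (.g (nat_lit 5) .nil .nil))) 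
(.lf (nat_lit 83368) (.g (nat_lit 2331) (.e (nat_lit 1858) (nat_lit 124) (.e (nat_lit 557100) (nat_lit 13) (.e (nat_lit 172106) (nat_lit 10) (.e (nat_lit 434231) (nat_lit 23) (.e (nat_lit 532486) (nat_lit 0) (.e (nat_lit 6218) (nat_lit 333) (.e (nat_lit 57865) (nat_lit 256) (.e (nat_lit 60) (nat_lit 0) .nil)))))))) (.g (nat_lit 4) .nil .nil)))) (.nd (nat_lit 5) 
(.lf (nat_lit 83352) (.g (nat_lit 2228) (.e (nat_lit 1858) (nat_lit 124) (.e (nat_lit 557100) (nat_lit 13) (.e (nat_lit 172106) (nat_lit 10) (.e (nat_lit 434227) (nat_lit 20) (.e (nat_lit 507929) (nat_lit 10) (.e (nat_lit 5773) (nat_lit 316) (.e (nat_lit 179968) (nat_lit 15) .nil))))))) (.g (nat_lit 5) .nil .nil))) 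
(.lf (nat_lit 83384) (.g (nat_lit 3233) (.e (nat_lit 1858) (nat_lit 124) (.e (nat_lit 557100) (nat_lit 13) (.e (nat_lit 172106) (nat_lit 10) (.e (nat_lit 434231) (nat_lit 23) (.e (nat_lit 532490) (nat_lit 0) (.e (nat_lit 6223) (nat_lit 334) (.e (nat_lit 123165) (nat_lit 256) (.e (nat_lit 59) (nat_lit 0) .nil)))))))) (.g (nat_lit 5) .nil .nil)))))) 
(.nd (nat_lit 3) (.nd (nat_lit 4) (.nd (nat_lit 5) 
(.lf (nat_lit 83332) (.g (nat_lit 2809) (.e (nat_lit 1858) (nat_lit 124) (.e (nat_lit 557093) (nat_lit 12) (.e (nat_lit 164238) (nat_lit 187) (.e (nat_lit 1428) (nat_lit 108) (.e (nat_lit 336425) (nat_lit 28) (.e (nat_lit 434286) (nat_lit 42) (.e (nat_lit 688178) (nat_lit 16) (.e (nat_lit 65552) (nat_lit 0) .nil)))))))) (.g (nat_lit 4) .nil .nil))) 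
(.lf (nat_lit 83364) (.g (nat_lit 2713) (.e (nat_lit 1858) (nat_lit 124) (.e (nat_lit 557100) (nat_lit 13) (.e (nat_lit 172106) (nat_lit 10) (.e (nat_lit 434231) (nat_lit 23) (.e (nat_lit 532483) (nat_lit 0) (.e (nat_lit 7936) (nat_lit 361) (.e (nat_lit 179968) (nat_lit 15) .nil))))))) (.g (nat_lit 5) .nil .nil)))) (.nd (nat_lit 5) 
(.lf (nat_lit 83348) (.g (nat_lit 2301) (.e (nat_lit 1858) (nat_lit 124) (.e (nat_lit 557100) (nat_lit 13) (.e (nat_lit 172106) (nat_lit 10) (.e (nat_lit 434227) (nat_lit 20) (.e (nat_lit 507928) (nat_lit 10) (.e (nat_lit 5772) (nat_lit 316) (.e (nat_lit 179968) (nat_lit 15) .nil))))))) (.g (nat_lit 6) .nil .nil))) 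
(.lf (nat_lit 83380) (.g (nat_lit 2633) (.e (nat_lit 1858) (nat_lit 124) (.e (nat_lit 557100) (nat_lit 13) (.e (nat_lit 172106) (nat_lit 10) (.e (nat_lit 434231) (nat_lit 23) (.e (nat_lit 532490) (nat_lit 0) (.e (nat_lit 6223) (nat_lit 334) (.e (nat_lit 123163) (nat_lit 256) (.e (nat_lit 59) (nat_lit 0) .nil)))))))) (.g (nat_lit 4) .nil .nil))))) (.nd (nat_lit 4) (.nd (nat_lit 5) 
(.lf (nat_lit 83340) (.g (nat_lit 1056) (.e (nat_lit 1858) (nat_lit 124) (.e (nat_lit 557098) (nat_lit 13) (.e (nat_lit 172115) (nat_lit 10) .nil))) .nil)) 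
(.lf (nat_lit 83372) (.g (nat_lit 3066) (.e (nat_lit 1858) (nat_lit 124) (.e (nat_lit 557100) (nat_lit 13) (.e (nat_lit 172106) (nat_lit 10) (.e (nat_lit 434231) (nat_lit 23) (.e (nat_lit 532490) (nat_lit 0) (.e (nat_lit 6114) (nat_lit 332) (.e (nat_lit 1376) (nat_lit 104) (.e (nat_lit 311040) (nat_lit 15) .nil)))))))) (.g (nat_lit 5) .nil .nil)))) (.nd (nat_lit 5) 
(.lf (nat_lit 83356) (.g (nat_lit 2302) (.e (nat_lit 1858) (nat_lit 124) (.e (nat_lit 557100) (nat_lit 13) (.e (nat_lit 172106) (nat_lit 10) (.e (nat_lit 434227) (nat_lit 20) (.e (nat_lit 507930) (nat_lit 10) (.e (nat_lit 5773) (nat_lit 316) (.e (nat_lit 179968) (nat_lit 15) .nil))))))) (.g (nat_lit 5) .nil .nil))) 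
(.lf (nat_lit 83388) (.g (nat_lit 2262) (.e (nat_lit 1858) (nat_lit 124) (.e (nat_lit 557100) (nat_lit 13) (.e (nat_lit 172106) (nat_lit 10) (.e (nat_lit 434231) (nat_lit 23) (.e (nat_lit 532490) (nat_lit 0) (.e (nat_lit 6223) (nat_lit 334) (.e (nat_lit 123167) (nat_lit 256) (.e (nat_lit 59) (nat_lit 0) .nil)))))))) (.g (nat_lit 4) .nil .nil))))))) 
(.nd (nat_lit 2) (.nd (nat_lit 3) (.nd (nat_lit 4) (.nd (nat_lit 5) 
(.lf (nat_lit 83330) (.g (nat_lit 2913) (.e (nat_lit 1858) (nat_lit 124) (.e (nat_lit 557093) (nat_lit 12) (.e (nat_lit 164238) (nat_lit 187) (.e (nat_lit 1428) (nat_lit 108) (.e (nat_lit 336425) (nat_lit 28) (.e (nat_lit 434286) (nat_lit 42) (.e (nat_lit 688177) (nat_lit 16) (.e (nat_lit 65552) (nat_lit 0) .nil)))))))) (.g (nat_lit 4) .nil .nil))) 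
(.lf (nat_lit 83362) (.g (nat_lit 3406) (.e (nat_lit 1858) (nat_lit 124) (.e (nat_lit 557100) (nat_lit 13) (.e (nat_lit 172106) (nat_lit 10) (.e (nat_lit 434231) (nat_lit 23) (.e (nat_lit 532482) (nat_lit 0) (.e (nat_lit 6720) (nat_lit 361) (.e (nat_lit 179968) (nat_lit 15) .nil))))))) (.g (nat_lit 6) .nil .nil)))) (.nd (nat_lit 5) 
(.lf (nat_lit 83346) (.g (nat_lit 1486) (.e (nat_lit 1858) (nat_lit 124) (.e (nat_lit 557100) (nat_lit 13) (.e (nat_lit 172106) (nat_lit 10) (.e (nat_lit 434202) (nat_lit 18) .nil)))) .nil)) 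
(.lf (nat_lit 83378) (.g (nat_lit 2315) (.e (nat_lit 1858) (nat_lit 124) (.e (nat_lit 557100) (nat_lit 13) (.e (nat_lit 172106) (nat_lit 10) (.e (nat_lit 434231) (nat_lit 23) (.e (nat_lit 532490) (nat_lit 0) (.e (nat_lit 6206) (nat_lit 333) (.e (nat_lit 57867) (nat_lit 256) (.e (nat_lit 59) (nat_lit 0) .nil)))))))) (.g (nat_lit 4) .nil .nil))))) (.nd (nat_lit 4) (.nd (nat_lit 5) 
(.lf (nat_lit 83338) (.g (nat_lit 1970) (.e (nat_lit 1858) (nat_lit 124) (.e (nat_lit 557098) (nat_lit 13) (.e (nat_lit 172097) (nat_lit 9) (.e (nat_lit 426125) (nat_lit 2) .nil)))) .nil)) 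
(.lf (nat_lit 83370) (.g (nat_lit 2068) (.e (nat_lit 1858) (nat_lit 124) (.e (nat_lit 557100) (nat_lit 13) (.e (nat_lit 172106) (nat_lit 10) (.e (nat_lit 434231) (nat_lit 23) (.e (nat_lit 532490) (nat_lit 0) .nil))))) .nil))) (.nd (nat_lit 5) 
(.lf (nat_lit 83354) (.g (nat_lit 2670) (.e (nat_lit 1858) (nat_lit 124) (.e (nat_lit 557100) (nat_lit 13) (.e (nat_lit 172106) (nat_lit 10) (.e (nat_lit 434227) (nat_lit 20) (.e (nat_lit 507930) (nat_lit 10) (.e (nat_lit 5770) (nat_lit 316) (.e (nat_lit 179968) (nat_lit 15) .nil))))))) (.g (nat_lit 6) .nil .nil))) 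
(.lf (nat_lit 83386) (.g (nat_lit 2843) (.e (nat_lit 1858) (nat_lit 124) (.e (nat_lit 557100) (nat_lit 13) (.e (nat_lit 172106) (nat_lit 10) (.e (nat_lit 434231) (nat_lit 23) (.e (nat_lit 532490) (nat_lit 0) (.e (nat_lit 6223) (nat_lit 334) (.e (nat_lit 123166) (nat_lit 256) (.e (nat_lit 18) (nat_lit 0) .nil)))))))) (.g (nat_lit 4) .nil .nil)))))) 
(.nd (nat_lit 3) (.nd (nat_lit 4) (.nd (nat_lit 5) 
(.lf (nat_lit 83334) (.g (nat_lit 2054) (.e (nat_lit 1858) (nat_lit 124) (.e (nat_lit 557094) (nat_lit 12) (.e (nat_lit 164022) (nat_lit 46) (.e (nat_lit 704737) (nat_lit 11) (.e (nat_lit 16412) (nat_lit 2) (.e (nat_lit 196672) (nat_lit 15) (.e (nat_lit 81942) (nat_lit 20) .nil))))))) (.g (nat_lit 4) .nil .nil))) 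
(.lf (nat_lit 83366) (.g (nat_lit 2678) (.e (nat_lit 1858) (nat_lit 124) (.e (nat_lit 557100) (nat_lit 13) (.e (nat_lit 172106) (nat_lit 10) (.e (nat_lit 434231) (nat_lit 23) (.e (nat_lit 532486) (nat_lit 0) (.e (nat_lit 6113) (nat_lit 332) (.e (nat_lit 1376) (nat_lit 104) (.e (nat_lit 311040) (nat_lit 15) .nil)))))))) (.g (nat_lit 5) .nil .nil)))) (.nd (nat_lit 5) 
(.lf (nat_lit 83350) (.g (nat_lit 2493) (.e (nat_lit 1858) (nat_lit 124) (.e (nat_lit 557100) (nat_lit 13) (.e (nat_lit 172106) (nat_lit 10) (.e (nat_lit 434227) (nat_lit 20) (.e (nat_lit 507929) (nat_lit 10) (.e (nat_lit 5770) (nat_lit 316) (.e (nat_lit 179968) (nat_lit 15) .nil))))))) (.g (nat_lit 6) .nil .nil))) 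
(.lf (nat_lit 83382) (.g (nat_lit 2526) (.e (nat_lit 1858) (nat_lit 124) (.e (nat_lit 557100) (nat_lit 13) (.e (nat_lit 172106) (nat_lit 10) (.e (nat_lit 434231) (nat_lit 23) (.e (nat_lit 532490) (nat_lit 0) (.e (nat_lit 6223) (nat_lit 334) (.e (nat_lit 123164) (nat_lit 256) (.e (nat_lit 18) (nat_lit 0) .nil)))))))) (.g (nat_lit 4) .nil .nil))))) (.nd (nat_lit 4) (.nd (nat_lit 5) 
(.lf (nat_lit 83342) (.g (nat_lit 2698) (.e (nat_lit 1858) (nat_lit 124) (.e (nat_lit 557098) (nat_lit 13) (.e (nat_lit 172115) (nat_lit 10) (.e (nat_lit 434231) (nat_lit 23) (.e (nat_lit 532490) (nat_lit 0) .nil))))) .nil)) 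
(.lf (nat_lit 83374) (.g (nat_lit 5483) (.e (nat_lit 1858) (nat_lit 124) (.e (nat_lit 557100) (nat_lit 13) (.e (nat_lit 172106) (nat_lit 10) (.e (nat_lit 434231) (nat_lit 23) (.e (nat_lit 532490) (nat_lit 0) (.e (nat_lit 6114) (nat_lit 332) (.e (nat_lit 1379) (nat_lit 104) (.e (nat_lit 303147) (nat_lit 15) .nil)))))))) (.g (nat_lit 0) .nil .nil)))) (.nd (nat_lit 5) 
(.lf (nat_lit 83358) (.g (nat_lit 2987) (.e (nat_lit 1858) (nat_lit 124) (.e (nat_lit 557100) (nat_lit 13) (.e (nat_lit 172106) (nat_lit 10) (.e (nat_lit 434231) (nat_lit 23) (.e (nat_lit 532481) (nat_lit 0) (.e (nat_lit 6712) (nat_lit 360) (.e (nat_lit 164247) (nat_lit 201) (.e (nat_lit 59) (nat_lit 0) .nil)))))))) (.g (nat_lit 4) .nil .nil))) 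
(.lf (nat_lit 83390) (.g (nat_lit 2588) (.e (nat_lit 1858) (nat_lit 124) (.e (nat_lit 557100) (nat_lit 13) (.e (nat_lit 172106) (nat_lit 10) (.e (nat_lit 434231) (nat_lit 23) (.e (nat_lit 532490) (nat_lit 0) (.e (nat_lit 6223) (nat_lit 334) (.e (nat_lit 123170) (nat_lit 256) (.e (nat_lit 59) (nat_lit 0) .nil)))))))) (.g (nat_lit 4) .nil .nil)))))))) 
(.nd (nat_lit 1) (.nd (nat_lit 2) (.nd (nat_lit 3) (.nd (nat_lit 4) (.nd (nat_lit 5) 
(.lf (nat_lit 83329) (.g (nat_lit 1989) (.e (nat_lit 1858) (nat_lit 124) (.e (nat_lit 557093) (nat_lit 12) (.e (nat_lit 164238) (nat_lit 187) (.e (nat_lit 1428) (nat_lit 108) (.e (nat_lit 336425) (nat_lit 28) .nil))))) .nil)) 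
(.lf (nat_lit 83361) (.g (nat_lit 3381) (.e (nat_lit 1858) (nat_lit 124) (.e (nat_lit 557100) (nat_lit 13) (.e (nat_lit 172106) (nat_lit 10) (.e (nat_lit 434231) (nat_lit 23) (.e (nat_lit 532482) (nat_lit 0) (.e (nat_lit 6718) (nat_lit 361) (.e (nat_lit 179968) (nat_lit 15) .nil))))))) (.g (nat_lit 6) .nil .nil)))) (.nd (nat_lit 5) 
(.lf (nat_lit 83345) (.g (nat_lit 1972) (.e (nat_lit 1858) (nat_lit 124) (.e (nat_lit 557100) (nat_lit 13) (.e (nat_lit 172067) (nat_lit 3) (.e (nat_lit 204809) (nat_lit 9) (.e (nat_lit 426123) (nat_lit 2) .nil))))) .nil)) 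
(.lf (nat_lit 83377) (.g (nat_lit 3775) (.e (nat_lit 1858) (nat_lit 124) (.e (nat_lit 557100) (nat_lit 13) (.e (nat_lit 172106) (nat_lit 10) (.e (nat_lit 434231) (nat_lit 23) (.e (nat_lit 532490) (nat_lit 0) (.e (nat_lit 6149) (nat_lit 332) (.e (nat_lit 1386) (nat_lit 105) (.e (nat_lit 311348) (nat_lit 15) .nil)))))))) (.g (nat_lit 5) .nil .nil))))) (.nd (nat_lit 4) (.nd (nat_lit 5) 
(.lf (nat_lit 83337) (.g (nat_lit 1841) (.e (nat_lit 1858) (nat_lit 124) (.e (nat_lit 557094) (nat_lit 12) (.e (nat_lit 164022) (nat_lit 46) (.e (nat_lit 704738) (nat_lit 11) (.e (nat_lit 16412) (nat_lit 2) (.e (nat_lit 196672) (nat_lit 15) (.e (nat_lit 81943) (nat_lit 20) .nil))))))) (.g (nat_lit 4) .nil .nil))) 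
(.lf (nat_lit 83369) (.g (nat_lit 2785) (.e (nat_lit 1858) (nat_lit 124) (.e (nat_lit 557100) (nat_lit 13) (.e (nat_lit 172106) (nat_lit 10) (.e (nat_lit 434231) (nat_lit 23) (.e (nat_lit 532486) (nat_lit 0) (.e (nat_lit 6218) (nat_lit 333) (.e (nat_lit 57866) (nat_lit 256) (.e (nat_lit 59) (nat_lit 0) .nil)))))))) (.g (nat_lit 4) .nil .nil)))) (.nd (nat_lit 5) 
(.lf (nat_lit 83353) (.g (nat_lit 2563) (.e (nat_lit 1858) (nat_lit 124) (.e (nat_lit 557100) (nat_lit 13) (.e (nat_lit 172106) (nat_lit 10) (.e (nat_lit 434227) (nat_lit 20) (.e (nat_lit 507930) (nat_lit 10) (.e (nat_lit 5768) (nat_lit 316) (.e (nat_lit 179968) (nat_lit 15) .nil))))))) (.g (nat_lit 6) .nil .nil))) 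
(.lf (nat_lit 83385) (.g (nat_lit 4702) (.e (nat_lit 1858) (nat_lit 124) (.e (nat_lit 557100) (nat_lit 13) (.e (nat_lit 172106) (nat_lit 10) (.e (nat_lit 434231) (nat_lit 23) (.e (nat_lit 532490) (nat_lit 0) (.e (nat_lit 6223) (nat_lit 334) (.e (nat_lit 123165) (nat_lit 256) (.e (nat_lit 61) (nat_lit 0) .nil)))))))) (.g (nat_lit 0) .nil .nil)))))) 
(.nd (nat_lit 3) (.nd (nat_lit 4) (.nd (nat_lit 5) 
(.lf (nat_lit 83333) (.g (nat_lit 1965) (.e (nat_lit 1858) (nat_lit 124) (.e (nat_lit 557094) (nat_lit 12) (.e (nat_lit 164022) (nat_lit 46) (.e (nat_lit 704737) (nat_lit 11) (.e (nat_lit 16411) (nat_lit 2) (.e (nat_lit 196671) (nat_lit 15) (.e (nat_lit 81946) (nat_lit 20) .nil))))))) (.g (nat_lit 4) .nil .nil))) 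
(.lf (nat_lit 83365) (.g (nat_lit 2180) (.e (nat_lit 1858) (nat_lit 124) (.e (nat_lit 557100) (nat_lit 13) (.e (nat_lit 172106) (nat_lit 10) (.e (nat_lit 434231) (nat_lit 23) (.e (nat_lit 532486) (nat_lit 0) .nil))))) .nil))) (.nd (nat_lit 5) 
(.lf (nat_lit 83349) (.g (nat_lit 2564) (.e (nat_lit 1858) (nat_lit 124) (.e (nat_lit 557100) (nat_lit 13) (.e (nat_lit 172106) (nat_lit 10) (.e (nat_lit 434227) (nat_lit 20) (.e (nat_lit 507929) (nat_lit 10) (.e (nat_lit 5768) (nat_lit 316) (.e (nat_lit 179968) (nat_lit 15) .nil))))))) (.g (nat_lit 6) .nil .nil))) 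
(.lf (nat_lit 83381) (.g (nat_lit 4631) (.e (nat_lit 1858) (nat_lit 124) (.e (nat_lit 557100) (nat_lit 13) (.e (nat_lit 172106) (nat_lit 10) (.e (nat_lit 434231) (nat_lit 23) (.e (nat_lit 532490) (nat_lit 0) (.e (nat_lit 6223) (nat_lit 334) (.e (nat_lit 123163) (nat_lit 256) (.e (nat_lit 61) (nat_lit 0) .nil)))))))) (.g (nat_lit 0) .nil .nil))))) (.nd (nat_lit 4) (.nd (nat_lit 5) 
(.lf (nat_lit 83341) (.g (nat_lit 1957) (.e (nat_lit 1858) (nat_lit 124) (.e (nat_lit 557098) (nat_lit 13) (.e (nat_lit 172115) (nat_lit 10) (.e (nat_lit 434231) (nat_lit 23) .nil)))) .nil)) 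
(.lf (nat_lit 83373) (.g (nat_lit 3702) (.e (nat_lit 1858) (nat_lit 124) (.e (nat_lit 557100) (nat_lit 13) (.e (nat_lit 172106) (nat_lit 10) (.e (nat_lit 434231) (nat_lit 23) (.e (nat_lit 532490) (nat_lit 0) (.e (nat_lit 6114) (nat_lit 332) (.e (nat_lit 1378) (nat_lit 104) (.e (nat_lit 311040) (nat_lit 15) .nil)))))))) (.g (nat_lit 6) .nil .nil)))) (.nd (nat_lit 5) 
(.lf (nat_lit 83357) (.g (nat_lit 763) (.e (nat_lit 1858) (nat_lit 124) (.e (nat_lit 557100) (nat_lit 13) (.e (nat_lit 172106) (nat_lit 10) (.e (nat_lit 434231) (nat_lit 23) .nil)))) .nil)) 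
(.lf (nat_lit 83389) (.g (nat_lit 2149) (.e (nat_lit 1858) (nat_lit 124) (.e (nat_lit 557100) (nat_lit 13) (.e (nat_lit 172106) (nat_lit 10) (.e (nat_lit 434231) (nat_lit 23) (.e (nat_lit 532490) (nat_lit 0) (.e (nat_lit 6223) (nat_lit 334) (.e (nat_lit 123169) (nat_lit 256) (.e (nat_lit 59) (nat_lit 0) .nil)))))))) (.g (nat_lit 4) .nil .nil))))))) 
(.nd (nat_lit 2) (.nd (nat_lit 3) (.nd (nat_lit 4) (.nd (nat_lit 5) 
(.lf (nat_lit 83331) (.g (nat_lit 3279) (.e (nat_lit 1858) (nat_lit 124) (.e (nat_lit 557093) (nat_lit 12) (.e (nat_lit 164238) (nat_lit 187) (.e (nat_lit 1428) (nat_lit 108) (.e (nat_lit 336425) (nat_lit 28) (.e (nat_lit 434286) (nat_lit 42) (.e (nat_lit 688177) (nat_lit 16) (.e (nat_lit 65558) (nat_lit 0) .nil)))))))) (.g (nat_lit 4) .nil .nil))) 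
(.lf (nat_lit 83363) (.g (nat_lit 2033) (.e (nat_lit 1858) (nat_lit 124) (.e (nat_lit 557100) (nat_lit 13) (.e (nat_lit 172106) (nat_lit 10) (.e (nat_lit 434231) (nat_lit 23) (.e (nat_lit 532483) (nat_lit 0) .nil))))) .nil))) (.nd (nat_lit 5) 
(.lf (nat_lit 83347) (.g (nat_lit 1465) (.e (nat_lit 1858) (nat_lit 124) (.e (nat_lit 557100) (nat_lit 13) (.e (nat_lit 172106) (nat_lit 10) (.e (nat_lit 434227) (nat_lit 20) .nil)))) .nil)) 
(.lf (nat_lit 83379) (.g (nat_lit 2276) (.e (nat_lit 1858) (nat_lit 124) (.e (nat_lit 557100) (nat_lit 13) (.e (nat_lit 172106) (nat_lit 10) (.e (nat_lit 434231) (nat_lit 23) (.e (nat_lit 532490) (nat_lit 0) (.e (nat_lit 6223) (nat_lit 334) (.e (nat_lit 123163) (nat_lit 256) (.e (nat_lit 18) (nat_lit 0) .nil)))))))) (.g (nat_lit 4) .nil .nil))))) (.nd (nat_lit 4) (.nd (nat_lit 5) 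
(.lf (nat_lit 83339) (.g (nat_lit 1978) (.e (nat_lit 1858) (nat_lit 124) (.e (nat_lit 557098) (nat_lit 13) (.e (nat_lit 172097) (nat_lit 9) (.e (nat_lit 426140) (nat_lit 3) .nil)))) .nil)) 
(.lf (nat_lit 83371) (.g (nat_lit 2742) (.e (nat_lit 1858) (nat_lit 124) (.e (nat_lit 557100) (nat_lit 13) (.e (nat_lit 172106) (nat_lit 10) (.e (nat_lit 434231) (nat_lit 23) (.e (nat_lit 532490) (nat_lit 0) (.e (nat_lit 6092) (nat_lit 332) (.e (nat_lit 1376) (nat_lit 104) (.e (nat_lit 303147) (nat_lit 15) .nil)))))))) (.g (nat_lit 4) .nil .nil)))) (.nd (nat_lit 5) 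
(.lf (nat_lit 83355) (.g (nat_lit 2414) (.e (nat_lit 1858) (nat_lit 124) (.e (nat_lit 557100) (nat_lit 13) (.e (nat_lit 172106) (nat_lit 10) (.e (nat_lit 434227) (nat_lit 20) (.e (nat_lit 507930) (nat_lit 10) (.e (nat_lit 5772) (nat_lit 316) (.e (nat_lit 179968) (nat_lit 15) .nil))))))) (.g (nat_lit 6) .nil .nil))) 
(.lf (nat_lit 83387) (.g (nat_lit 4035) (.e (nat_lit 1858) (nat_lit 124) (.e (nat_lit 557100) (nat_lit 13) (.e (nat_lit 172106) (nat_lit 10) (.e (nat_lit 434231) (nat_lit 23) (.e (nat_lit 532490) (nat_lit 0) (.e (nat_lit 6223) (nat_lit 334) (.e (nat_lit 123166) (nat_lit 256) (.e (nat_lit 59) (nat_lit 0) .nil)))))))) (.g (nat_lit 5) .nil .nil)))))) 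
(.nd (nat_lit 3) (.nd (nat_lit 4) (.nd (nat_lit 5) 
(.lf (nat_lit 83335) (.g (nat_lit 1674) (.e (nat_lit 1858) (nat_lit 124) (.e (nat_lit 557094) (nat_lit 12) (.e (nat_lit 164022) (nat_lit 46) (.e (nat_lit 704738) (nat_lit 11) (.e (nat_lit 16411) (nat_lit 2) (.e (nat_lit 196672) (nat_lit 15) (.e (nat_lit 81942) (nat_lit 20) .nil))))))) (.g (nat_lit 4) .nil .nil))) 
(.lf (nat_lit 83367) (.g (nat_lit 2279) (.e (nat_lit 1858) (nat_lit 124) (.e (nat_lit 557100) (nat_lit 13) (.e (nat_lit 172106) (nat_lit 10) (.e (nat_lit 434231) (nat_lit 23) (.e (nat_lit 532486) (nat_lit 0) (.e (nat_lit 6218) (nat_lit 333) (.e (nat_lit 57865) (nat_lit 256) (.e (nat_lit 59) (nat_lit 0) .nil)))))))) (.g (nat_lit 4) .nil .nil)))) (.nd (nat_lit 5) 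
(.lf (nat_lit 83351) (.g (nat_lit 2390) (.e (nat_lit 1858) (nat_lit 124) (.e (nat_lit 557100) (nat_lit 13) (.e (nat_lit 172106) (nat_lit 10) (.e (nat_lit 434227) (nat_lit 20) (.e (nat_lit 507929) (nat_lit 10) (.e (nat_lit 5772) (nat_lit 316) (.e (nat_lit 179968) (nat_lit 15) .nil))))))) (.g (nat_lit 6) .nil .nil))) 
(.lf (nat_lit 83383) (.g (nat_lit 2394) (.e (nat_lit 1858) (nat_lit 124) (.e (nat_lit 557100) (nat_lit 13) (.e (nat_lit 172106) (nat_lit 10) (.e (nat_lit 434231) (nat_lit 23) (.e (nat_lit 532490) (nat_lit 0) (.e (nat_lit 6223) (nat_lit 334) (.e (nat_lit 123165) (nat_lit 256) (.e (nat_lit 18) (nat_lit 0) .nil)))))))) (.g (nat_lit 4) .nil .nil))))) (.nd (nat_lit 4) (.nd (nat_lit 5) 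
(.lf (nat_lit 83343) (.g (nat_lit 654) (.e (nat_lit 1858) (nat_lit 124) (.e (nat_lit 557100) (nat_lit 13) (.e (nat_lit 172062) (nat_lit 2) .nil))) .nil)) 
(.lf (nat_lit 83375) (.g (nat_lit 2701) (.e (nat_lit 1858) (nat_lit 124) (.e (nat_lit 557100) (nat_lit 13) (.e (nat_lit 172106) (nat_lit 10) (.e (nat_lit 434231) (nat_lit 23) (.e (nat_lit 532490) (nat_lit 0) (.e (nat_lit 6114) (nat_lit 332) (.e (nat_lit 1390) (nat_lit 105) (.e (nat_lit 311348) (nat_lit 15) .nil)))))))) (.g (nat_lit 4) .nil .nil)))) (.nd (nat_lit 5) 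
(.lf (nat_lit 83359) (.g (nat_lit 2258) (.e (nat_lit 1858) (nat_lit 124) (.e (nat_lit 557100) (nat_lit 13) (.e (nat_lit 172106) (nat_lit 10) (.e (nat_lit 434231) (nat_lit 23) (.e (nat_lit 532482) (nat_lit 0) .nil))))) .nil)) 
(.lf (nat_lit 83391) (.g (nat_lit 3486) (.e (nat_lit 1858) (nat_lit 124) (.e (nat_lit 557100) (nat_lit 13) (.e (nat_lit 172106) (nat_lit 10) (.e (nat_lit 434231) (nat_lit 23) (.e (nat_lit 532490) (nat_lit 0) (.e (nat_lit 7936) (nat_lit 361) (.e (nat_lit 179968) (nat_lit 15) .nil))))))) (.g (nat_lit 5) .nil .nil)))))))))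

noncomputable def tv1127 : DT := (.nd (nat_lit 0) (.nd (nat_lit 1) (.nd (nat_lit 2) (.nd (nat_lit 3) (.nd (nat_lit 4) (.nd (nat_lit 5) 
(.lf (nat_lit 83392) (.g (nat_lit 3486) (.e (nat_lit 1858) (nat_lit 124) (.e (nat_lit 557100) (nat_lit 13) (.e (nat_lit 172106) (nat_lit 10) (.e (nat_lit 434231) (nat_lit 23) (.e (nat_lit 532490) (nat_lit 0) (.e (nat_lit 7936) (nat_lit 364) (.e (nat_lit 245504) (nat_lit 15) .nil))))))) (.g (nat_lit 5) .nil .nil))) 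
(.lf (nat_lit 83424) (.g (nat_lit 3081) (.e (nat_lit 1858) (nat_lit 124) (.e (nat_lit 557100) (nat_lit 13) (.e (nat_lit 172106) (nat_lit 10) (.e (nat_lit 434231) (nat_lit 23) (.e (nat_lit 532529) (nat_lit 9) (.e (nat_lit 336306) (nat_lit 15) (.e (nat_lit 3735) (nat_lit 228) (.e (nat_lit 786448) (nat_lit 15) .nil)))))))) (.g (nat_lit 5) .nil .nil)))) (.nd (nat_lit 5) 
(.lf (nat_lit 83408) (.g (nat_lit 2298) (.e (nat_lit 1858) (nat_lit 124) (.e (nat_lit 557100) (nat_lit 13) (.e (nat_lit 172106) (nat_lit 10) (.e (nat_lit 434231) (nat_lit 23) (.e (nat_lit 532528) (nat_lit 9) (.e (nat_lit 336306) (nat_lit 15) (.e (nat_lit 3735) (nat_lit 228) (.e (nat_lit 786444) (nat_lit 15) .nil)))))))) (.g (nat_lit 4) .nil .nil))) 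
(.lf (nat_lit 83440) (.g (nat_lit 2641) (.e (nat_lit 1858) (nat_lit 124) (.e (nat_lit 557100) (nat_lit 13) (.e (nat_lit 172106) (nat_lit 10) (.e (nat_lit 434231) (nat_lit 23) (.e (nat_lit 532529) (nat_lit 9) (.e (nat_lit 336355) (nat_lit 24) (.e (nat_lit 262148) (nat_lit 0) (.e (nat_lit 982) (nat_lit 81) .nil)))))))) (.g (nat_lit 4) .nil .nil))))) (.nd (nat_lit 4) (.nd (nat_lit 5) 
(.lf (nat_lit 83400) (.g (nat_lit 5356) (.e (nat_lit 1858) (nat_lit 124) (.e (nat_lit 557100) (nat_lit 13) (.e (nat_lit 172106) (nat_lit 10) (.e (nat_lit 434231) (nat_lit 23) (.e (nat_lit 532523) (nat_lit 7) (.e (nat_lit 319539) (nat_lit 19) (.e (nat_lit 311348) (nat_lit 15) .nil))))))) (.g (nat_lit 0) .nil .nil))) 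
(.lf (nat_lit 83432) (.g (nat_lit 2226) (.e (nat_lit 1858) (nat_lit 124) (.e (nat_lit 557100) (nat_lit 13) (.e (nat_lit 172106) (nat_lit 10) (.e (nat_lit 434231) (nat_lit 23) (.e (nat_lit 532529) (nat_lit 9) (.e (nat_lit 336355) (nat_lit 24) (.e (nat_lit 262145) (nat_lit 0) (.e (nat_lit 1031) (nat_lit 81) .nil)))))))) (.g (nat_lit 4) .nil .nil)))) (.nd (nat_lit 5) 
(.lf (nat_lit 83416) (.g (nat_lit 5041) (.e (nat_lit 1858) (nat_lit 124) (.e (nat_lit 557100) (nat_lit 13) (.e (nat_lit 172106) (nat_lit 10) (.e (nat_lit 434231) (nat_lit 23) (.e (nat_lit 532529) (nat_lit 9) (.e (nat_lit 336260) (nat_lit 15) (.e (nat_lit 3733) (nat_lit 228) (.e (nat_lit 786444) (nat_lit 15) .nil)))))))) (.g (nat_lit 0) .nil .nil))) 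
(.lf (nat_lit 83448) (.g (nat_lit 2791) (.e (nat_lit 1858) (nat_lit 124) (.e (nat_lit 557100) (nat_lit 13) (.e (nat_lit 172106) (nat_lit 10) (.e (nat_lit 434231) (nat_lit 23) (.e (nat_lit 532535) (nat_lit 9) (.e (nat_lit 335905) (nat_lit 0) (.e (nat_lit 1998) (nat_lit 137) (.e (nat_lit 663554) (nat_lit 0) (.e (nat_lit 1027) (nat_lit 81) .nil))))))))) (.g (nat_lit 5) .nil .nil)))))) 
(.nd (nat_lit 3) (.nd (nat_lit 4) (.nd (nat_lit 5) 
(.lf (nat_lit 83396) (.g (nat_lit 3040) (.e (nat_lit 1858) (nat_lit 124) (.e (nat_lit 557100) (nat_lit 13) (.e (nat_lit 172106) (nat_lit 10) (.e (nat_lit 434231) (nat_lit 23) (.e (nat_lit 532523) (nat_lit 7) (.e (nat_lit 319506) (nat_lit 10) (.e (nat_lit 5722) (nat_lit 312) (.e (nat_lit 59) (nat_lit 0) .nil)))))))) (.g (nat_lit 4) .nil .nil))) 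
(.lf (nat_lit 83428) (.g (nat_lit 2353) (.e (nat_lit 1858) (nat_lit 124) (.e (nat_lit 557100) (nat_lit 13) (.e (nat_lit 172106) (nat_lit 10) (.e (nat_lit 434231) (nat_lit 23) (.e (nat_lit 532529) (nat_lit 9) (.e (nat_lit 336354) (nat_lit 24) (.e (nat_lit 262146) (nat_lit 0) (.e (nat_lit 1031) (nat_lit 81) .nil)))))))) (.g (nat_lit 4) .nil .nil)))) (.nd (nat_lit 5) 
(.lf (nat_lit 83412) (.g (nat_lit 2380) (.e (nat_lit 1858) (nat_lit 124) (.e (nat_lit 557100) (nat_lit 13) (.e (nat_lit 172106) (nat_lit 10) (.e (nat_lit 434231) (nat_lit 23) (.e (nat_lit 532529) (nat_lit 9) (.e (nat_lit 336242) (nat_lit 15) (.e (nat_lit 3681) (nat_lit 227) (.e (nat_lit 778280) (nat_lit 0) (.e (nat_lit 1031) (nat_lit 81) .nil))))))))) (.g (nat_lit 4) .nil .nil))) 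
(.lf (nat_lit 83444) (.g (nat_lit 2899) (.e (nat_lit 1858) (nat_lit 124) (.e (nat_lit 557100) (nat_lit 13) (.e (nat_lit 172106) (nat_lit 10) (.e (nat_lit 434231) (nat_lit 23) (.e (nat_lit 532529) (nat_lit 9) (.e (nat_lit 336357) (nat_lit 24) (.e (nat_lit 262148) (nat_lit 0) (.e (nat_lit 1046) (nat_lit 81) .nil)))))))) (.g (nat_lit 5) .nil .nil))))) (.nd (nat_lit 4) (.nd (nat_lit 5) 
(.lf (nat_lit 83404) (.g (nat_lit 2762) (.e (nat_lit 1858) (nat_lit 124) (.e (nat_lit 557100) (nat_lit 13) (.e (nat_lit 172106) (nat_lit 10) (.e (nat_lit 434231) (nat_lit 23) (.e (nat_lit 532526) (nat_lit 8) (.e (nat_lit 327718) (nat_lit 19) (.e (nat_lit 311348) (nat_lit 15) .nil))))))) (.g (nat_lit 4) .nil .nil))) 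
(.lf (nat_lit 83436) (.g (nat_lit 3344) (.e (nat_lit 1858) (nat_lit 124) (.e (nat_lit 557100) (nat_lit 13) (.e (nat_lit 172106) (nat_lit 10) (.e (nat_lit 434231) (nat_lit 23) (.e (nat_lit 532529) (nat_lit 9) (.e (nat_lit 336355) (nat_lit 24) (.e (nat_lit 262147) (nat_lit 0) (.e (nat_lit 982) (nat_lit 81) .nil)))))))) (.g (nat_lit 5) .nil .nil)))) (.nd (nat_lit 5) 
(.lf (nat_lit 83420) (.g (nat_lit 3318) (.e (nat_lit 1858) (nat_lit 124) (.e (nat_lit 557100) (nat_lit 13) (.e (nat_lit 172106) (nat_lit 10) (.e (nat_lit 434231) (nat_lit 23) (.e (nat_lit 532529) (nat_lit 9) (.e (nat_lit 336284) (nat_lit 15) (.e (nat_lit 3743) (nat_lit 228) (.e (nat_lit 794368) (nat_lit 15) .nil)))))))) (.g (nat_lit 7) .nil .nil))) 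
(.lf (nat_lit 83452) (.g (nat_lit 3363) (.e (nat_lit 1858) (nat_lit 124) (.e (nat_lit 557100) (nat_lit 13) (.e (nat_lit 172106) (nat_lit 10) (.e (nat_lit 434231) (nat_lit 23) (.e (nat_lit 532535) (nat_lit 9) (.e (nat_lit 335937) (nat_lit 0) (.e (nat_lit 2006) (nat_lit 138) (.e (nat_lit 671748) (nat_lit 0) (.e (nat_lit 1047) (nat_lit 81) .nil))))))))) (.g (nat_lit 5) .nil .nil))))))) 
(.nd (nat_lit 2) (.nd (nat_lit 3) (.nd (nat_lit 4) (.nd (nat_lit 5) 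
(.lf (nat_lit 83394) (.g (nat_lit 3025) (.e (nat_lit 1858) (nat_lit 124) (.e (nat_lit 557100) (nat_lit 13) (.e (nat_lit 172106) (nat_lit 10) (.e (nat_lit 434231) (nat_lit 23) (.e (nat_lit 532523) (nat_lit 7) (.e (nat_lit 319506) (nat_lit 10) (.e (nat_lit 5721) (nat_lit 312) (.e (nat_lit 59) (nat_lit 0) .nil)))))))) (.g (nat_lit 4) .nil .nil))) 
(.lf (nat_lit 83426) (.g (nat_lit 3298) (.e (nat_lit 1858) (nat_lit 124) (.e (nat_lit 557100) (nat_lit 13) (.e (nat_lit 172106) (nat_lit 10) (.e (nat_lit 434231) (nat_lit 23) (.e (nat_lit 532529) (nat_lit 9) (.e (nat_lit 336332) (nat_lit 19) (.e (nat_lit 212996) (nat_lit 0) (.e (nat_lit 1031) (nat_lit 81) .nil)))))))) (.g (nat_lit 5) .nil .nil)))) (.nd (nat_lit 5) 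
(.lf (nat_lit 83410) (.g (nat_lit 2393) (.e (nat_lit 1858) (nat_lit 124) (.e (nat_lit 557100) (nat_lit 13) (.e (nat_lit 172106) (nat_lit 10) (.e (nat_lit 434231) (nat_lit 23) (.e (nat_lit 532528) (nat_lit 9) (.e (nat_lit 336354) (nat_lit 24) (.e (nat_lit 262148) (nat_lit 0) (.e (nat_lit 1031) (nat_lit 81) .nil)))))))) (.g (nat_lit 4) .nil .nil))) 
(.lf (nat_lit 83442) (.g (nat_lit 2293) (.e (nat_lit 1858) (nat_lit 124) (.e (nat_lit 557100) (nat_lit 13) (.e (nat_lit 172106) (nat_lit 10) (.e (nat_lit 434231) (nat_lit 23) (.e (nat_lit 532529) (nat_lit 9) (.e (nat_lit 336357) (nat_lit 24) (.e (nat_lit 262145) (nat_lit 0) (.e (nat_lit 1037) (nat_lit 81) .nil)))))))) (.g (nat_lit 4) .nil .nil))))) (.nd (nat_lit 4) (.nd (nat_lit 5) 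
(.lf (nat_lit 83402) (.g (nat_lit 2444) (.e (nat_lit 1858) (nat_lit 124) (.e (nat_lit 557100) (nat_lit 13) (.e (nat_lit 172106) (nat_lit 10) (.e (nat_lit 434231) (nat_lit 23) (.e (nat_lit 532526) (nat_lit 8) (.e (nat_lit 327705) (nat_lit 10) (.e (nat_lit 5723) (nat_lit 312) (.e (nat_lit 59) (nat_lit 0) .nil)))))))) (.g (nat_lit 4) .nil .nil))) 
(.lf (nat_lit 83434) (.g (nat_lit 3367) (.e (nat_lit 1858) (nat_lit 124) (.e (nat_lit 557100) (nat_lit 13) (.e (nat_lit 172106) (nat_lit 10) (.e (nat_lit 434231) (nat_lit 23) (.e (nat_lit 532529) (nat_lit 9) (.e (nat_lit 336355) (nat_lit 24) (.e (nat_lit 262146) (nat_lit 0) (.e (nat_lit 1037) (nat_lit 81) .nil)))))))) (.g (nat_lit 5) .nil .nil)))) (.nd (nat_lit 5) 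
(.lf (nat_lit 83418) (.g (nat_lit 2162) (.e (nat_lit 1858) (nat_lit 124) (.e (nat_lit 557100) (nat_lit 13) (.e (nat_lit 172106) (nat_lit 10) (.e (nat_lit 434231) (nat_lit 23) (.e (nat_lit 532529) (nat_lit 9) (.e (nat_lit 336262) (nat_lit 15) (.e (nat_lit 3746) (nat_lit 228) (.e (nat_lit 786444) (nat_lit 15) .nil)))))))) (.g (nat_lit 4) .nil .nil))) 
(.lf (nat_lit 83450) (.g (nat_lit 2211) (.e (nat_lit 1858) (nat_lit 124) (.e (nat_lit 557100) (nat_lit 13) (.e (nat_lit 172106) (nat_lit 10) (.e (nat_lit 434231) (nat_lit 23) (.e (nat_lit 532535) (nat_lit 9) (.e (nat_lit 335925) (nat_lit 0) (.e (nat_lit 2006) (nat_lit 138) (.e (nat_lit 671748) (nat_lit 0) (.e (nat_lit 1027) (nat_lit 81) .nil))))))))) (.g (nat_lit 5) .nil .nil)))))) 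
(.nd (nat_lit 3) (.nd (nat_lit 4) (.nd (nat_lit 5) 
(.lf (nat_lit 83398) (.g (nat_lit 2971) (.e (nat_lit 1858) (nat_lit 124) (.e (nat_lit 557100) (nat_lit 13) (.e (nat_lit 172106) (nat_lit 10) (.e (nat_lit 434231) (nat_lit 23) (.e (nat_lit 532523) (nat_lit 7) (.e (nat_lit 319506) (nat_lit 10) (.e (nat_lit 5723) (nat_lit 312) (.e (nat_lit 60) (nat_lit 0) .nil)))))))) (.g (nat_lit 4) .nil .nil))) 
(.lf (nat_lit 83430) (.g (nat_lit 3247) (.e (nat_lit 1858) (nat_lit 124) (.e (nat_lit 557100) (nat_lit 13) (.e (nat_lit 172106) (nat_lit 10) (.e (nat_lit 434231) (nat_lit 23) (.e (nat_lit 532529) (nat_lit 9) (.e (nat_lit 336354) (nat_lit 24) (.e (nat_lit 262148) (nat_lit 0) (.e (nat_lit 1031) (nat_lit 81) .nil)))))))) (.g (nat_lit 5) .nil .nil)))) (.nd (nat_lit 5) 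
(.lf (nat_lit 83414) (.g (nat_lit 2979) (.e (nat_lit 1858) (nat_lit 124) (.e (nat_lit 557100) (nat_lit 13) (.e (nat_lit 172106) (nat_lit 10) (.e (nat_lit 434231) (nat_lit 23) (.e (nat_lit 532529) (nat_lit 9) (.e (nat_lit 336242) (nat_lit 15) (.e (nat_lit 3684) (nat_lit 227) (.e (nat_lit 778282) (nat_lit 0) (.e (nat_lit 1031) (nat_lit 81) .nil))))))))) (.g (nat_lit 5) .nil .nil))) 
(.lf (nat_lit 83446) (.g (nat_lit 2626) (.e (nat_lit 1858) (nat_lit 124) (.e (nat_lit 557100) (nat_lit 13) (.e (nat_lit 172106) (nat_lit 10) (.e (nat_lit 434231) (nat_lit 23) (.e (nat_lit 532535) (nat_lit 9) (.e (nat_lit 335905) (nat_lit 0) (.e (nat_lit 1996) (nat_lit 137) (.e (nat_lit 663554) (nat_lit 0) (.e (nat_lit 982) (nat_lit 81) .nil))))))))) (.g (nat_lit 5) .nil .nil))))) 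
(.nd (nat_lit 4) (.nd (nat_lit 5) 
(.lf (nat_lit 83406) (.g (nat_lit 2668) (.e (nat_lit 1858) (nat_lit 124) (.e (nat_lit 557100) (nat_lit 13) (.e (nat_lit 172106) (nat_lit 10) (.e (nat_lit 434231) (nat_lit 23) (.e (nat_lit 532528) (nat_lit 9) (.e (nat_lit 336260) (nat_lit 15) (.e (nat_lit 3733) (nat_lit 228) (.e (nat_lit 786448) (nat_lit 15) .nil)))))))) (.g (nat_lit 4) .nil .nil))) 
(.lf (nat_lit 83438) (.g (nat_lit 3008) (.e (nat_lit 1858) (nat_lit 124) (.e (nat_lit 557100) (nat_lit 13) (.e (nat_lit 172106) (nat_lit 10) (.e (nat_lit 434231) (nat_lit 23) (.e (nat_lit 532529) (nat_lit 9) (.e (nat_lit 336355) (nat_lit 24) (.e (nat_lit 262147) (nat_lit 0) (.e (nat_lit 1037) (nat_lit 81) .nil)))))))) (.g (nat_lit 5) .nil .nil)))) (.nd (nat_lit 5) 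
(.lf (nat_lit 83422) (.g (nat_lit 2400) (.e (nat_lit 1858) (nat_lit 124) (.e (nat_lit 557100) (nat_lit 13) (.e (nat_lit 172106) (nat_lit 10) (.e (nat_lit 434231) (nat_lit 23) (.e (nat_lit 532529) (nat_lit 9) (.e (nat_lit 336297) (nat_lit 15) (.e (nat_lit 3746) (nat_lit 228) (.e (nat_lit 786444) (nat_lit 15) .nil)))))))) (.g (nat_lit 4) .nil .nil))) 
(.lf (nat_lit 83454) (.g (nat_lit 3738) (.e (nat_lit 1858) (nat_lit 124) (.e (nat_lit 557100) (nat_lit 13) (.e (nat_lit 172106) (nat_lit 10) (.e (nat_lit 434231) (nat_lit 23) (.e (nat_lit 532535) (nat_lit 9) (.e (nat_lit 336030) (nat_lit 4) (.e (nat_lit 123195) (nat_lit 266) (.e (nat_lit 57355) (nat_lit 0) .nil)))))))) (.g (nat_lit 7) .nil .nil)))))))) 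
(.nd (nat_lit 1) (.nd (nat_lit 2) (.nd (nat_lit 3) (.nd (nat_lit 4) (.nd (nat_lit 5) 
(.lf (nat_lit 83393) (.g (nat_lit 4446) (.e (nat_lit 1858) (nat_lit 124) (.e (nat_lit 557100) (nat_lit 13) (.e (nat_lit 172106) (nat_lit 10) (.e (nat_lit 434231) (nat_lit 23) (.e (nat_lit 532522) (nat_lit 7) (.e (nat_lit 319539) (nat_lit 19) (.e (nat_lit 311348) (nat_lit 15) .nil))))))) (.g (nat_lit 6) .nil .nil))) 
(.lf (nat_lit 83425) (.g (nat_lit 2548) (.e (nat_lit 1858) (nat_lit 124) (.e (nat_lit 557100) (nat_lit 13) (.e (nat_lit 172106) (nat_lit 10) (.e (nat_lit 434231) (nat_lit 23) (.e (nat_lit 532529) (nat_lit 9) (.e (nat_lit 336327) (nat_lit 19) (.e (nat_lit 212996) (nat_lit 0) (.e (nat_lit 1031) (nat_lit 81) .nil)))))))) (.g (nat_lit 4) .nil .nil)))) (.nd (nat_lit 5) 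
(.lf (nat_lit 83409) (.g (nat_lit 2165) (.e (nat_lit 1858) (nat_lit 124) (.e (nat_lit 557100) (nat_lit 13) (.e (nat_lit 172106) (nat_lit 10) (.e (nat_lit 434231) (nat_lit 23) (.e (nat_lit 532528) (nat_lit 9) (.e (nat_lit 336306) (nat_lit 15) (.e (nat_lit 3735) (nat_lit 228) (.e (nat_lit 786448) (nat_lit 15) .nil)))))))) (.g (nat_lit 4) .nil .nil))) 
(.lf (nat_lit 83441) (.g (nat_lit 3608) (.e (nat_lit 1858) (nat_lit 124) (.e (nat_lit 557100) (nat_lit 13) (.e (nat_lit 172106) (nat_lit 10) (.e (nat_lit 434231) (nat_lit 23) (.e (nat_lit 532529) (nat_lit 9) (.e (nat_lit 336355) (nat_lit 24) (.e (nat_lit 262148) (nat_lit 0) (.e (nat_lit 1031) (nat_lit 81) .nil)))))))) (.g (nat_lit 5) .nil .nil))))) (.nd (nat_lit 4) (.nd (nat_lit 5) 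
(.lf (nat_lit 83401) (.g (nat_lit 2282) (.e (nat_lit 1858) (nat_lit 124) (.e (nat_lit 557100) (nat_lit 13) (.e (nat_lit 172106) (nat_lit 10) (.e (nat_lit 434231) (nat_lit 23) (.e (nat_lit 532526) (nat_lit 8) (.e (nat_lit 327705) (nat_lit 10) (.e (nat_lit 5722) (nat_lit 312) (.e (nat_lit 60) (nat_lit 0) .nil)))))))) (.g (nat_lit 4) .nil .nil))) 
(.lf (nat_lit 83433) (.g (nat_lit 3076) (.e (nat_lit 1858) (nat_lit 124) (.e (nat_lit 557100) (nat_lit 13) (.e (nat_lit 172106) (nat_lit 10) (.e (nat_lit 434231) (nat_lit 23) (.e (nat_lit 532529) (nat_lit 9) (.e (nat_lit 336355) (nat_lit 24) (.e (nat_lit 262146) (nat_lit 0) (.e (nat_lit 982) (nat_lit 81) .nil)))))))) (.g (nat_lit 5) .nil .nil)))) (.nd (nat_lit 5) 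
(.lf (nat_lit 83417) (.g (nat_lit 3791) (.e (nat_lit 1858) (nat_lit 124) (.e (nat_lit 557100) (nat_lit 13) (.e (nat_lit 172106) (nat_lit 10) (.e (nat_lit 434231) (nat_lit 23) (.e (nat_lit 532529) (nat_lit 9) (.e (nat_lit 336260) (nat_lit 15) (.e (nat_lit 3733) (nat_lit 228) (.e (nat_lit 786448) (nat_lit 15) .nil)))))))) (.g (nat_lit 5) .nil .nil))) 
(.lf (nat_lit 83449) (.g (nat_lit 2712) (.e (nat_lit 1858) (nat_lit 124) (.e (nat_lit 557100) (nat_lit 13) (.e (nat_lit 172106) (nat_lit 10) (.e (nat_lit 434231) (nat_lit 23) (.e (nat_lit 532535) (nat_lit 9) (.e (nat_lit 335905) (nat_lit 0) (.e (nat_lit 1998) (nat_lit 137) (.e (nat_lit 663554) (nat_lit 0) (.e (nat_lit 1032) (nat_lit 81) .nil))))))))) (.g (nat_lit 5) .nil .nil)))))) 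
(.nd (nat_lit 3) (.nd (nat_lit 4) (.nd (nat_lit 5) 
(.lf (nat_lit 83397) (.g (nat_lit 3145) (.e (nat_lit 1858) (nat_lit 124) (.e (nat_lit 557100) (nat_lit 13) (.e (nat_lit 172106) (nat_lit 10) (.e (nat_lit 434231) (nat_lit 23) (.e (nat_lit 532523) (nat_lit 7) (.e (nat_lit 319506) (nat_lit 10) (.e (nat_lit 5722) (nat_lit 312) (.e (nat_lit 60) (nat_lit 0) .nil)))))))) (.g (nat_lit 4) .nil .nil))) 
(.lf (nat_lit 83429) (.g (nat_lit 2274) (.e (nat_lit 1858) (nat_lit 124) (.e (nat_lit 557100) (nat_lit 13) (.e (nat_lit 172106) (nat_lit 10) (.e (nat_lit 434231) (nat_lit 23) (.e (nat_lit 532529) (nat_lit 9) (.e (nat_lit 336354) (nat_lit 24) (.e (nat_lit 262148) (nat_lit 0) (.e (nat_lit 982) (nat_lit 81) .nil)))))))) (.g (nat_lit 4) .nil .nil)))) (.nd (nat_lit 5) 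
(.lf (nat_lit 83413) (.g (nat_lit 2461) (.e (nat_lit 1858) (nat_lit 124) (.e (nat_lit 557100) (nat_lit 13) (.e (nat_lit 172106) (nat_lit 10) (.e (nat_lit 434231) (nat_lit 23) (.e (nat_lit 532529) (nat_lit 9) (.e (nat_lit 336242) (nat_lit 15) (.e (nat_lit 3681) (nat_lit 227) (.e (nat_lit 778280) (nat_lit 0) (.e (nat_lit 1037) (nat_lit 81) .nil))))))))) (.g (nat_lit 4) .nil .nil))) 
(.lf (nat_lit 83445) (.g (nat_lit 3007) (.e (nat_lit 1858) (nat_lit 124) (.e (nat_lit 557100) (nat_lit 13) (.e (nat_lit 172106) (nat_lit 10) (.e (nat_lit 434231) (nat_lit 23) (.e (nat_lit 532535) (nat_lit 9) (.e (nat_lit 335905) (nat_lit 0) (.e (nat_lit 970) (nat_lit 81) (.e (nat_lit 5954) (nat_lit 322) (.e (nat_lit 57357) (nat_lit 0) .nil))))))))) (.g (nat_lit 5) .nil .nil))))) 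
(.nd (nat_lit 4) (.nd (nat_lit 5) 
(.lf (nat_lit 83405) (.g (nat_lit 3920) (.e (nat_lit 1858) (nat_lit 124) (.e (nat_lit 557100) (nat_lit 13) (.e (nat_lit 172106) (nat_lit 10) (.e (nat_lit 434231) (nat_lit 23) (.e (nat_lit 532528) (nat_lit 9) (.e (nat_lit 336260) (nat_lit 15) (.e (nat_lit 3733) (nat_lit 228) (.e (nat_lit 786444) (nat_lit 15) .nil)))))))) (.g (nat_lit 8) .nil .nil))) 
(.lf (nat_lit 83437) (.g (nat_lit 4153) (.e (nat_lit 1858) (nat_lit 124) (.e (nat_lit 557100) (nat_lit 13) (.e (nat_lit 172106) (nat_lit 10) (.e (nat_lit 434231) (nat_lit 23) (.e (nat_lit 532529) (nat_lit 9) (.e (nat_lit 336355) (nat_lit 24) (.e (nat_lit 262147) (nat_lit 0) (.e (nat_lit 1031) (nat_lit 81) .nil)))))))) (.g (nat_lit 8) .nil .nil)))) (.nd (nat_lit 5) 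
(.lf (nat_lit 83421) (.g (nat_lit 3229) (.e (nat_lit 1858) (nat_lit 124) (.e (nat_lit 557100) (nat_lit 13) (.e (nat_lit 172106) (nat_lit 10) (.e (nat_lit 434231) (nat_lit 23) (.e (nat_lit 532529) (nat_lit 9) (.e (nat_lit 336297) (nat_lit 15) (.e (nat_lit 3745) (nat_lit 228) (.e (nat_lit 786444) (nat_lit 15) .nil)))))))) (.g (nat_lit 5) .nil .nil))) 
(.lf (nat_lit 83453) (.g (nat_lit 3157) (.e (nat_lit 1858) (nat_lit 124) (.e (nat_lit 557100) (nat_lit 13) (.e (nat_lit 172106) (nat_lit 10) (.e (nat_lit 434231) (nat_lit 23) (.e (nat_lit 532535) (nat_lit 9) (.e (nat_lit 336030) (nat_lit 4) (.e (nat_lit 123195) (nat_lit 266) (.e (nat_lit 57344) (nat_lit 0) .nil)))))))) (.g (nat_lit 7) .nil .nil))))))) 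
(.nd (nat_lit 2) (.nd (nat_lit 3) (.nd (nat_lit 4) (.nd (nat_lit 5) 
(.lf (nat_lit 83395) (.g (nat_lit 2932) (.e (nat_lit 1858) (nat_lit 124) (.e (nat_lit 557100) (nat_lit 13) (.e (nat_lit 172106) (nat_lit 10) (.e (nat_lit 434231) (nat_lit 23) (.e (nat_lit 532523) (nat_lit 7) (.e (nat_lit 319506) (nat_lit 10) (.e (nat_lit 5721) (nat_lit 312) (.e (nat_lit 60) (nat_lit 0) .nil)))))))) (.g (nat_lit 4) .nil .nil))) 
(.lf (nat_lit 83427) (.g (nat_lit 2656) (.e (nat_lit 1858) (nat_lit 124) (.e (nat_lit 557100) (nat_lit 13) (.e (nat_lit 172106) (nat_lit 10) (.e (nat_lit 434231) (nat_lit 23) (.e (nat_lit 532529) (nat_lit 9) (.e (nat_lit 336354) (nat_lit 24) (.e (nat_lit 262145) (nat_lit 0) (.e (nat_lit 1037) (nat_lit 81) .nil)))))))) (.g (nat_lit 4) .nil .nil)))) (.nd (nat_lit 5) 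
(.lf (nat_lit 83411) (.g (nat_lit 2406) (.e (nat_lit 1858) (nat_lit 124) (.e (nat_lit 557100) (nat_lit 13) (.e (nat_lit 172106) (nat_lit 10) (.e (nat_lit 434231) (nat_lit 23) (.e (nat_lit 532528) (nat_lit 9) (.e (nat_lit 336354) (nat_lit 24) (.e (nat_lit 262148) (nat_lit 0) (.e (nat_lit 1046) (nat_lit 81) .nil)))))))) (.g (nat_lit 4) .nil .nil))) 
(.lf (nat_lit 83443) (.g (nat_lit 2886) (.e (nat_lit 1858) (nat_lit 124) (.e (nat_lit 557100) (nat_lit 13) (.e (nat_lit 172106) (nat_lit 10) (.e (nat_lit 434231) (nat_lit 23) (.e (nat_lit 532529) (nat_lit 9) (.e (nat_lit 336357) (nat_lit 24) (.e (nat_lit 262148) (nat_lit 0) (.e (nat_lit 1031) (nat_lit 81) .nil)))))))) (.g (nat_lit 5) .nil .nil))))) (.nd (nat_lit 4) (.nd (nat_lit 5) 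
(.lf (nat_lit 83403) (.g (nat_lit 2299) (.e (nat_lit 1858) (nat_lit 124) (.e (nat_lit 557100) (nat_lit 13) (.e (nat_lit 172106) (nat_lit 10) (.e (nat_lit 434231) (nat_lit 23) (.e (nat_lit 532526) (nat_lit 8) (.e (nat_lit 327705) (nat_lit 10) (.e (nat_lit 5723) (nat_lit 312) (.e (nat_lit 60) (nat_lit 0) .nil)))))))) (.g (nat_lit 4) .nil .nil))) 
(.lf (nat_lit 83435) (.g (nat_lit 2308) (.e (nat_lit 1858) (nat_lit 124) (.e (nat_lit 557100) (nat_lit 13) (.e (nat_lit 172106) (nat_lit 10) (.e (nat_lit 434231) (nat_lit 23) (.e (nat_lit 532529) (nat_lit 9) (.e (nat_lit 336355) (nat_lit 24) (.e (nat_lit 262146) (nat_lit 0) (.e (nat_lit 1046) (nat_lit 81) .nil)))))))) (.g (nat_lit 4) .nil .nil)))) (.nd (nat_lit 5) 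
(.lf (nat_lit 83419) (.g (nat_lit 2290) (.e (nat_lit 1858) (nat_lit 124) (.e (nat_lit 557100) (nat_lit 13) (.e (nat_lit 172106) (nat_lit 10) (.e (nat_lit 434231) (nat_lit 23) (.e (nat_lit 532529) (nat_lit 9) (.e (nat_lit 336284) (nat_lit 15) (.e (nat_lit 3743) (nat_lit 228) (.e (nat_lit 786444) (nat_lit 15) .nil)))))))) (.g (nat_lit 4) .nil .nil))) 
(.lf (nat_lit 83451) (.g (nat_lit 3200) (.e (nat_lit 1858) (nat_lit 124) (.e (nat_lit 557100) (nat_lit 13) (.e (nat_lit 172106) (nat_lit 10) (.e (nat_lit 434231) (nat_lit 23) (.e (nat_lit 532535) (nat_lit 9) (.e (nat_lit 335925) (nat_lit 0) (.e (nat_lit 2006) (nat_lit 138) (.e (nat_lit 671748) (nat_lit 0) (.e (nat_lit 1032) (nat_lit 81) .nil))))))))) (.g (nat_lit 6) .nil .nil)))))) 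
(.nd (nat_lit 3) (.nd (nat_lit 4) (.nd (nat_lit 5) 
(.lf (nat_lit 83399) (.g (nat_lit 4740) (.e (nat_lit 1858) (nat_lit 124) (.e (nat_lit 557100) (nat_lit 13) (.e (nat_lit 172106) (nat_lit 10) (.e (nat_lit 434231) (nat_lit 23) (.e (nat_lit 532523) (nat_lit 7) (.e (nat_lit 319538) (nat_lit 19) (.e (nat_lit 311348) (nat_lit 15) .nil))))))) (.g (nat_lit 7) .nil .nil))) 
(.lf (nat_lit 83431) (.g (nat_lit 3260) (.e (nat_lit 1858) (nat_lit 124) (.e (nat_lit 557100) (nat_lit 13) (.e (nat_lit 172106) (nat_lit 10) (.e (nat_lit 434231) (nat_lit 23) (.e (nat_lit 532529) (nat_lit 9) (.e (nat_lit 336354) (nat_lit 24) (.e (nat_lit 262148) (nat_lit 0) (.e (nat_lit 1046) (nat_lit 81) .nil)))))))) (.g (nat_lit 5) .nil .nil)))) (.nd (nat_lit 5) 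
(.lf (nat_lit 83415) (.g (nat_lit 2599) (.e (nat_lit 1858) (nat_lit 124) (.e (nat_lit 557100) (nat_lit 13) (.e (nat_lit 172106) (nat_lit 10) (.e (nat_lit 434231) (nat_lit 23) (.e (nat_lit 532529) (nat_lit 9) (.e (nat_lit 336242) (nat_lit 15) (.e (nat_lit 3684) (nat_lit 227) (.e (nat_lit 778282) (nat_lit 0) (.e (nat_lit 1046) (nat_lit 81) .nil))))))))) (.g (nat_lit 4) .nil .nil))) 
(.lf (nat_lit 83447) (.g (nat_lit 3440) (.e (nat_lit 1858) (nat_lit 124) (.e (nat_lit 557100) (nat_lit 13) (.e (nat_lit 172106) (nat_lit 10) (.e (nat_lit 434231) (nat_lit 23) (.e (nat_lit 532535) (nat_lit 9) (.e (nat_lit 335905) (nat_lit 0) (.e (nat_lit 1998) (nat_lit 137) (.e (nat_lit 663554) (nat_lit 0) (.e (nat_lit 982) (nat_lit 81) .nil))))))))) (.g (nat_lit 6) .nil .nil))))) 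
(.nd (nat_lit 4) (.nd (nat_lit 5) 
(.lf (nat_lit 83407) (.g (nat_lit 2214) (.e (nat_lit 1858) (nat_lit 124) (.e (nat_lit 557100) (nat_lit 13) (.e (nat_lit 172106) (nat_lit 10) (.e (nat_lit 434231) (nat_lit 23) (.e (nat_lit 532528) (nat_lit 9) (.e (nat_lit 336284) (nat_lit 15) (.e (nat_lit 3743) (nat_lit 228) (.e (nat_lit 794368) (nat_lit 15) .nil)))))))) (.g (nat_lit 7) .nil .nil))) 
(.lf (nat_lit 83439) (.g (nat_lit 3168) (.e (nat_lit 1858) (nat_lit 124) (.e (nat_lit 557100) (nat_lit 13) (.e (nat_lit 172106) (nat_lit 10) (.e (nat_lit 434231) (nat_lit 23) (.e (nat_lit 532529) (nat_lit 9) (.e (nat_lit 336355) (nat_lit 24) (.e (nat_lit 262147) (nat_lit 0) (.e (nat_lit 1046) (nat_lit 81) .nil)))))))) (.g (nat_lit 5) .nil .nil)))) (.nd (nat_lit 5) 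
(.lf (nat_lit 83423) (.g (nat_lit 3214) (.e (nat_lit 1858) (nat_lit 124) (.e (nat_lit 557100) (nat_lit 13) (.e (nat_lit 172106) (nat_lit 10) (.e (nat_lit 434231) (nat_lit 23) (.e (nat_lit 532529) (nat_lit 9) (.e (nat_lit 336306) (nat_lit 15) (.e (nat_lit 3735) (nat_lit 228) (.e (nat_lit 786444) (nat_lit 15) .nil)))))))) (.g (nat_lit 5) .nil .nil))) 
(.lf (nat_lit 83455) (.g (nat_lit 2317) (.e (nat_lit 1858) (nat_lit 124) (.e (nat_lit 557100) (nat_lit 13) (.e (nat_lit 172106) (nat_lit 10) (.e (nat_lit 434231) (nat_lit 23) (.e (nat_lit 532535) (nat_lit 9) (.e (nat_lit 336030) (nat_lit 4) (.e (nat_lit 123196) (nat_lit 266) (.e (nat_lit 57355) (nat_lit 0) .nil)))))))) (.g (nat_lit 5) .nil .nil)))))))))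

noncomputable def tv1128 : DT := (.nd (nat_lit 0) (.nd (nat_lit 1) (.nd (nat_lit 2) (.nd (nat_lit 3) (.nd (nat_lit 4) (.nd (nat_lit 5) 
(.lf (nat_lit 83456) (.g (nat_lit 3357) (.e (nat_lit 1858) (nat_lit 124) (.e (nat_lit 557100) (nat_lit 13) (.e (nat_lit 172106) (nat_lit 10) (.e (nat_lit 434231) (nat_lit 23) (.e (nat_lit 532535) (nat_lit 9) (.e (nat_lit 336030) (nat_lit 4) (.e (nat_lit 123197) (nat_lit 266) (.e (nat_lit 57344) (nat_lit 0) .nil)))))))) (.g (nat_lit 7) .nil .nil))) 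
(.lf (nat_lit 83488) (.g (nat_lit 2289) (.e (nat_lit 1858) (nat_lit 124) (.e (nat_lit 557100) (nat_lit 13) (.e (nat_lit 172106) (nat_lit 10) (.e (nat_lit 434231) (nat_lit 23) (.e (nat_lit 532544) (nat_lit 10) (.e (nat_lit 344103) (nat_lit 18) (.e (nat_lit 5949) (nat_lit 322) (.e (nat_lit 57357) (nat_lit 0) .nil)))))))) (.g (nat_lit 4) .nil .nil)))) (.nd (nat_lit 5) 
(.lf (nat_lit 83472) (.g (nat_lit 3219) (.e (nat_lit 1858) (nat_lit 124) (.e (nat_lit 557100) (nat_lit 13) (.e (nat_lit 172106) (nat_lit 10) (.e (nat_lit 434231) (nat_lit 23) (.e (nat_lit 532535) (nat_lit 9) (.e (nat_lit 336295) (nat_lit 15) (.e (nat_lit 3745) (nat_lit 228) (.e (nat_lit 786444) (nat_lit 15) .nil)))))))) (.g (nat_lit 6) .nil .nil))) 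
(.lf (nat_lit 83504) (.g (nat_lit 3500) (.e (nat_lit 1858) (nat_lit 124) (.e (nat_lit 557100) (nat_lit 13) (.e (nat_lit 172106) (nat_lit 10) (.e (nat_lit 434231) (nat_lit 23) (.e (nat_lit 532563) (nat_lit 15) (.e (nat_lit 385099) (nat_lit 49) (.e (nat_lit 778280) (nat_lit 0) (.e (nat_lit 1031) (nat_lit 81) .nil)))))))) (.g (nat_lit 5) .nil .nil))))) (.nd (nat_lit 4) (.nd (nat_lit 5) 
(.lf (nat_lit 83464) (.g (nat_lit 2694) (.e (nat_lit 1858) (nat_lit 124) (.e (nat_lit 557100) (nat_lit 13) (.e (nat_lit 172106) (nat_lit 10) (.e (nat_lit 434231) (nat_lit 23) (.e (nat_lit 532535) (nat_lit 9) (.e (nat_lit 336295) (nat_lit 15) (.e (nat_lit 3629) (nat_lit 227) (.e (nat_lit 778297) (nat_lit 0) (.e (nat_lit 1033) (nat_lit 81) .nil))))))))) (.g (nat_lit 5) .nil .nil))) 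
(.lf (nat_lit 83496) (.g (nat_lit 2117) (.e (nat_lit 1858) (nat_lit 124) (.e (nat_lit 557100) (nat_lit 13) (.e (nat_lit 172106) (nat_lit 10) (.e (nat_lit 434231) (nat_lit 23) (.e (nat_lit 532544) (nat_lit 10) (.e (nat_lit 344169) (nat_lit 40) (.e (nat_lit 671746) (nat_lit 0) (.e (nat_lit 1038) (nat_lit 81) .nil)))))))) (.g (nat_lit 4) .nil .nil)))) (.nd (nat_lit 5) 
(.lf (nat_lit 83480) (.g (nat_lit 2639) (.e (nat_lit 1858) (nat_lit 124) (.e (nat_lit 557100) (nat_lit 13) (.e (nat_lit 172106) (nat_lit 10) (.e (nat_lit 434231) (nat_lit 23) (.e (nat_lit 532535) (nat_lit 9) (.e (nat_lit 336353) (nat_lit 24) (.e (nat_lit 262148) (nat_lit 0) (.e (nat_lit 1031) (nat_lit 81) .nil)))))))) (.g (nat_lit 5) .nil .nil))) 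
(.lf (nat_lit 83512) (.g (nat_lit 4817) (.e (nat_lit 1858) (nat_lit 124) (.e (nat_lit 557100) (nat_lit 13) (.e (nat_lit 172106) (nat_lit 10) (.e (nat_lit 434231) (nat_lit 23) (.e (nat_lit 532563) (nat_lit 15) (.e (nat_lit 385105) (nat_lit 50) (.e (nat_lit 786444) (nat_lit 15) .nil))))))) (.g (nat_lit 7) .nil .nil)))))) (.nd (nat_lit 3) (.nd (nat_lit 4) (.nd (nat_lit 5) 
(.lf (nat_lit 83460) (.g (nat_lit 2543) (.e (nat_lit 1858) (nat_lit 124) (.e (nat_lit 557100) (nat_lit 13) (.e (nat_lit 172106) (nat_lit 10) (.e (nat_lit 434231) (nat_lit 23) (.e (nat_lit 532535) (nat_lit 9) (.e (nat_lit 336290) (nat_lit 15) (.e (nat_lit 3711) (nat_lit 227) (.e (nat_lit 778247) (nat_lit 0) (.e (nat_lit 1031) (nat_lit 81) .nil))))))))) (.g (nat_lit 5) .nil .nil))) 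
(.lf (nat_lit 83492) (.g (nat_lit 3128) (.e (nat_lit 1858) (nat_lit 124) (.e (nat_lit 557100) (nat_lit 13) (.e (nat_lit 172106) (nat_lit 10) (.e (nat_lit 434231) (nat_lit 23) (.e (nat_lit 532544) (nat_lit 10) (.e (nat_lit 344168) (nat_lit 40) (.e (nat_lit 671751) (nat_lit 0) (.e (nat_lit 1039) (nat_lit 81) .nil)))))))) (.g (nat_lit 6) .nil .nil)))) (.nd (nat_lit 5) 
(.lf (nat_lit 83476) (.g (nat_lit 3439) (.e (nat_lit 1858) (nat_lit 124) (.e (nat_lit 557100) (nat_lit 13) (.e (nat_lit 172106) (nat_lit 10) (.e (nat_lit 434231) (nat_lit 23) (.e (nat_lit 532535) (nat_lit 9) (.e (nat_lit 336295) (nat_lit 15) (.e (nat_lit 3747) (nat_lit 228) (.e (nat_lit 786448) (nat_lit 15) .nil)))))))) (.g (nat_lit 6) .nil .nil))) 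
(.lf (nat_lit 83508) (.g (nat_lit 3463) (.e (nat_lit 1858) (nat_lit 124) (.e (nat_lit 557100) (nat_lit 13) (.e (nat_lit 172106) (nat_lit 10) (.e (nat_lit 434231) (nat_lit 23) (.e (nat_lit 532563) (nat_lit 15) (.e (nat_lit 385103) (nat_lit 50) (.e (nat_lit 786444) (nat_lit 15) .nil))))))) (.g (nat_lit 5) .nil .nil))))) (.nd (nat_lit 4) (.nd (nat_lit 5) 
(.lf (nat_lit 83468) (.g (nat_lit 2348) (.e (nat_lit 1858) (nat_lit 124) (.e (nat_lit 557100) (nat_lit 13) (.e (nat_lit 172106) (nat_lit 10) (.e (nat_lit 434231) (nat_lit 23) (.e (nat_lit 532535) (nat_lit 9) (.e (nat_lit 336295) (nat_lit 15) (.e (nat_lit 3630) (nat_lit 227) (.e (nat_lit 778251) (nat_lit 0) (.e (nat_lit 1037) (nat_lit 81) .nil))))))))) (.g (nat_lit 5) .nil .nil))) 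
(.lf (nat_lit 83500) (.g (nat_lit 3334) (.e (nat_lit 1858) (nat_lit 124) (.e (nat_lit 557100) (nat_lit 13) (.e (nat_lit 172106) (nat_lit 10) (.e (nat_lit 434231) (nat_lit 23) (.e (nat_lit 532544) (nat_lit 10) (.e (nat_lit 344169) (nat_lit 40) (.e (nat_lit 671751) (nat_lit 0) (.e (nat_lit 1039) (nat_lit 81) .nil)))))))) (.g (nat_lit 6) .nil .nil)))) (.nd (nat_lit 5) 
(.lf (nat_lit 83484) (.g (nat_lit 2722) (.e (nat_lit 1858) (nat_lit 124) (.e (nat_lit 557100) (nat_lit 13) (.e (nat_lit 172106) (nat_lit 10) (.e (nat_lit 434231) (nat_lit 23) (.e (nat_lit 532535) (nat_lit 9) (.e (nat_lit 343808) (nat_lit 24) (.e (nat_lit 262148) (nat_lit 0) (.e (nat_lit 1046) (nat_lit 81) .nil)))))))) (.g (nat_lit 5) .nil .nil))) 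
(.lf (nat_lit 83516) (.g (nat_lit 4142) (.e (nat_lit 1858) (nat_lit 124) (.e (nat_lit 557100) (nat_lit 13) (.e (nat_lit 172106) (nat_lit 10) (.e (nat_lit 434231) (nat_lit 23) (.e (nat_lit 532563) (nat_lit 15) (.e (nat_lit 385106) (nat_lit 50) (.e (nat_lit 786448) (nat_lit 15) .nil))))))) (.g (nat_lit 6) .nil .nil))))))) (.nd (nat_lit 2) (.nd (nat_lit 3) (.nd (nat_lit 4) (.nd (nat_lit 5) 
(.lf (nat_lit 83458) (.g (nat_lit 3199) (.e (nat_lit 1858) (nat_lit 124) (.e (nat_lit 557100) (nat_lit 13) (.e (nat_lit 172106) (nat_lit 10) (.e (nat_lit 434231) (nat_lit 23) (.e (nat_lit 532535) (nat_lit 9) (.e (nat_lit 336030) (nat_lit 4) (.e (nat_lit 123198) (nat_lit 266) (.e (nat_lit 57355) (nat_lit 0) .nil)))))))) (.g (nat_lit 7) .nil .nil))) 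
(.lf (nat_lit 83490) (.g (nat_lit 2055) (.e (nat_lit 1858) (nat_lit 124) (.e (nat_lit 557100) (nat_lit 13) (.e (nat_lit 172106) (nat_lit 10) (.e (nat_lit 434231) (nat_lit 23) (.e (nat_lit 532544) (nat_lit 10) (.e (nat_lit 344168) (nat_lit 40) (.e (nat_lit 671747) (nat_lit 0) (.e (nat_lit 1027) (nat_lit 81) .nil)))))))) (.g (nat_lit 4) .nil .nil)))) (.nd (nat_lit 5) 
(.lf (nat_lit 83474) (.g (nat_lit 2754) (.e (nat_lit 1858) (nat_lit 124) (.e (nat_lit 557100) (nat_lit 13) (.e (nat_lit 172106) (nat_lit 10) (.e (nat_lit 434231) (nat_lit 23) (.e (nat_lit 532535) (nat_lit 9) (.e (nat_lit 336295) (nat_lit 15) (.e (nat_lit 3746) (nat_lit 228) (.e (nat_lit 794368) (nat_lit 15) .nil)))))))) (.g (nat_lit 6) .nil .nil))) 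
(.lf (nat_lit 83506) (.g (nat_lit 3218) (.e (nat_lit 1858) (nat_lit 124) (.e (nat_lit 557100) (nat_lit 13) (.e (nat_lit 172106) (nat_lit 10) (.e (nat_lit 434231) (nat_lit 23) (.e (nat_lit 532563) (nat_lit 15) (.e (nat_lit 385100) (nat_lit 49) (.e (nat_lit 778249) (nat_lit 0) (.e (nat_lit 1031) (nat_lit 81) .nil)))))))) (.g (nat_lit 5) .nil .nil))))) (.nd (nat_lit 4) (.nd (nat_lit 5) 
(.lf (nat_lit 83466) (.g (nat_lit 2348) (.e (nat_lit 1858) (nat_lit 124) (.e (nat_lit 557100) (nat_lit 13) (.e (nat_lit 172106) (nat_lit 10) (.e (nat_lit 434231) (nat_lit 23) (.e (nat_lit 532535) (nat_lit 9) (.e (nat_lit 336295) (nat_lit 15) (.e (nat_lit 3630) (nat_lit 227) (.e (nat_lit 778248) (nat_lit 0) (.e (nat_lit 1037) (nat_lit 81) .nil))))))))) (.g (nat_lit 5) .nil .nil))) 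
(.lf (nat_lit 83498) (.g (nat_lit 2828) (.e (nat_lit 1858) (nat_lit 124) (.e (nat_lit 557100) (nat_lit 13) (.e (nat_lit 172106) (nat_lit 10) (.e (nat_lit 434231) (nat_lit 23) (.e (nat_lit 532544) (nat_lit 10) (.e (nat_lit 344169) (nat_lit 40) (.e (nat_lit 671747) (nat_lit 0) (.e (nat_lit 1032) (nat_lit 81) .nil)))))))) (.g (nat_lit 6) .nil .nil)))) (.nd (nat_lit 5) 
(.lf (nat_lit 83482) (.g (nat_lit 2296) (.e (nat_lit 1858) (nat_lit 124) (.e (nat_lit 557100) (nat_lit 13) (.e (nat_lit 172106) (nat_lit 10) (.e (nat_lit 434231) (nat_lit 23) (.e (nat_lit 532535) (nat_lit 9) (.e (nat_lit 343808) (nat_lit 24) (.e (nat_lit 262146) (nat_lit 0) (.e (nat_lit 1031) (nat_lit 81) .nil)))))))) (.g (nat_lit 5) .nil .nil))) 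
(.lf (nat_lit 83514) (.g (nat_lit 3792) (.e (nat_lit 1858) (nat_lit 124) (.e (nat_lit 557100) (nat_lit 13) (.e (nat_lit 172106) (nat_lit 10) (.e (nat_lit 434231) (nat_lit 23) (.e (nat_lit 532563) (nat_lit 15) (.e (nat_lit 385105) (nat_lit 50) (.e (nat_lit 794368) (nat_lit 15) .nil))))))) (.g (nat_lit 6) .nil .nil)))))) (.nd (nat_lit 3) (.nd (nat_lit 4) (.nd (nat_lit 5) 
(.lf (nat_lit 83462) (.g (nat_lit 2520) (.e (nat_lit 1858) (nat_lit 124) (.e (nat_lit 557100) (nat_lit 13) (.e (nat_lit 172106) (nat_lit 10) (.e (nat_lit 434231) (nat_lit 23) (.e (nat_lit 532535) (nat_lit 9) (.e (nat_lit 336290) (nat_lit 15) (.e (nat_lit 3714) (nat_lit 227) (.e (nat_lit 778247) (nat_lit 0) (.e (nat_lit 1031) (nat_lit 81) .nil))))))))) (.g (nat_lit 5) .nil .nil))) 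
(.lf (nat_lit 83494) (.g (nat_lit 3716) (.e (nat_lit 1858) (nat_lit 124) (.e (nat_lit 557100) (nat_lit 13) (.e (nat_lit 172106) (nat_lit 10) (.e (nat_lit 434231) (nat_lit 23) (.e (nat_lit 532544) (nat_lit 10) (.e (nat_lit 344169) (nat_lit 40) (.e (nat_lit 671746) (nat_lit 0) (.e (nat_lit 1032) (nat_lit 81) .nil)))))))) (.g (nat_lit 6) .nil .nil)))) (.nd (nat_lit 5) 
(.lf (nat_lit 83478) (.g (nat_lit 2682) (.e (nat_lit 1858) (nat_lit 124) (.e (nat_lit 557100) (nat_lit 13) (.e (nat_lit 172106) (nat_lit 10) (.e (nat_lit 434231) (nat_lit 23) (.e (nat_lit 532535) (nat_lit 9) (.e (nat_lit 336295) (nat_lit 15) (.e (nat_lit 3748) (nat_lit 228) (.e (nat_lit 786448) (nat_lit 15) .nil)))))))) (.g (nat_lit 5) .nil .nil))) 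
(.lf (nat_lit 83510) (.g (nat_lit 2654) (.e (nat_lit 1858) (nat_lit 124) (.e (nat_lit 557100) (nat_lit 13) (.e (nat_lit 172106) (nat_lit 10) (.e (nat_lit 434231) (nat_lit 23) (.e (nat_lit 532563) (nat_lit 15) (.e (nat_lit 385104) (nat_lit 50) (.e (nat_lit 786448) (nat_lit 15) .nil))))))) (.g (nat_lit 4) .nil .nil))))) (.nd (nat_lit 4) (.nd (nat_lit 5) 
(.lf (nat_lit 83470) (.g (nat_lit 2603) (.e (nat_lit 1858) (nat_lit 124) (.e (nat_lit 557100) (nat_lit 13) (.e (nat_lit 172106) (nat_lit 10) (.e (nat_lit 434231) (nat_lit 23) (.e (nat_lit 532535) (nat_lit 9) (.e (nat_lit 336295) (nat_lit 15) (.e (nat_lit 3630) (nat_lit 227) (.e (nat_lit 778297) (nat_lit 0) (.e (nat_lit 1033) (nat_lit 81) .nil))))))))) (.g (nat_lit 5) .nil .nil))) 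
(.lf (nat_lit 83502) (.g (nat_lit 4149) (.e (nat_lit 1858) (nat_lit 124) (.e (nat_lit 557100) (nat_lit 13) (.e (nat_lit 172106) (nat_lit 10) (.e (nat_lit 434231) (nat_lit 23) (.e (nat_lit 532562) (nat_lit 15) (.e (nat_lit 385105) (nat_lit 50) (.e (nat_lit 786444) (nat_lit 15) .nil))))))) (.g (nat_lit 6) .nil .nil)))) (.nd (nat_lit 5) 
(.lf (nat_lit 83486) (.g (nat_lit 4359) (.e (nat_lit 1858) (nat_lit 124) (.e (nat_lit 557100) (nat_lit 13) (.e (nat_lit 172106) (nat_lit 10) (.e (nat_lit 434231) (nat_lit 23) (.e (nat_lit 532543) (nat_lit 10) (.e (nat_lit 344169) (nat_lit 40) (.e (nat_lit 671748) (nat_lit 0) (.e (nat_lit 1032) (nat_lit 81) .nil)))))))) (.g (nat_lit 8) .nil .nil))) 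
(.lf (nat_lit 83518) (.g (nat_lit 2234) (.e (nat_lit 1858) (nat_lit 124) (.e (nat_lit 557100) (nat_lit 13) (.e (nat_lit 172106) (nat_lit 10) (.e (nat_lit 434231) (nat_lit 23) (.e (nat_lit 532564) (nat_lit 15) (.e (nat_lit 385100) (nat_lit 49) (.e (nat_lit 778249) (nat_lit 0) (.e (nat_lit 1031) (nat_lit 81) .nil)))))))) (.g (nat_lit 4) .nil .nil)))))))) 
(.nd (nat_lit 1) (.nd (nat_lit 2) (.nd (nat_lit 3) (.nd (nat_lit 4) (.nd (nat_lit 5) 
(.lf (nat_lit 83457) (.g (nat_lit 3429) (.e (nat_lit 1858) (nat_lit 124) (.e (nat_lit 557100) (nat_lit 13) (.e (nat_lit 172106) (nat_lit 10) (.e (nat_lit 434231) (nat_lit 23) (.e (nat_lit 532535) (nat_lit 9) (.e (nat_lit 336030) (nat_lit 4) (.e (nat_lit 123197) (nat_lit 266) (.e (nat_lit 57355) (nat_lit 0) .nil)))))))) (.g (nat_lit 7) .nil .nil))) 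
(.lf (nat_lit 83489) (.g (nat_lit 2604) (.e (nat_lit 1858) (nat_lit 124) (.e (nat_lit 557100) (nat_lit 13) (.e (nat_lit 172106) (nat_lit 10) (.e (nat_lit 434231) (nat_lit 23) (.e (nat_lit 532544) (nat_lit 10) (.e (nat_lit 344168) (nat_lit 40) (.e (nat_lit 671746) (nat_lit 0) (.e (nat_lit 1032) (nat_lit 81) .nil)))))))) (.g (nat_lit 5) .nil .nil)))) (.nd (nat_lit 5) 
(.lf (nat_lit 83473) (.g (nat_lit 3512) (.e (nat_lit 1858) (nat_lit 124) (.e (nat_lit 557100) (nat_lit 13) (.e (nat_lit 172106) (nat_lit 10) (.e (nat_lit 434231) (nat_lit 23) (.e (nat_lit 532535) (nat_lit 9) (.e (nat_lit 336295) (nat_lit 15) (.e (nat_lit 3746) (nat_lit 228) (.e (nat_lit 786444) (nat_lit 15) .nil)))))))) (.g (nat_lit 6) .nil .nil))) 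
(.lf (nat_lit 83505) (.g (nat_lit 3581) (.e (nat_lit 1858) (nat_lit 124) (.e (nat_lit 557100) (nat_lit 13) (.e (nat_lit 172106) (nat_lit 10) (.e (nat_lit 434231) (nat_lit 23) (.e (nat_lit 532563) (nat_lit 15) (.e (nat_lit 385099) (nat_lit 49) (.e (nat_lit 778280) (nat_lit 0) (.e (nat_lit 1037) (nat_lit 81) .nil)))))))) (.g (nat_lit 5) .nil .nil))))) (.nd (nat_lit 4) (.nd (nat_lit 5) 
(.lf (nat_lit 83465) (.g (nat_lit 2257) (.e (nat_lit 1858) (nat_lit 124) (.e (nat_lit 557100) (nat_lit 13) (.e (nat_lit 172106) (nat_lit 10) (.e (nat_lit 434231) (nat_lit 23) (.e (nat_lit 532535) (nat_lit 9) (.e (nat_lit 336295) (nat_lit 15) (.e (nat_lit 3630) (nat_lit 227) (.e (nat_lit 778248) (nat_lit 0) (.e (nat_lit 1031) (nat_lit 81) .nil))))))))) (.g (nat_lit 5) .nil .nil))) 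
(.lf (nat_lit 83497) (.g (nat_lit 2790) (.e (nat_lit 1858) (nat_lit 124) (.e (nat_lit 557100) (nat_lit 13) (.e (nat_lit 172106) (nat_lit 10) (.e (nat_lit 434231) (nat_lit 23) (.e (nat_lit 532544) (nat_lit 10) (.e (nat_lit 344169) (nat_lit 40) (.e (nat_lit 671747) (nat_lit 0) (.e (nat_lit 1027) (nat_lit 81) .nil)))))))) (.g (nat_lit 6) .nil .nil)))) (.nd (nat_lit 5) 
(.lf (nat_lit 83481) (.g (nat_lit 2652) (.e (nat_lit 1858) (nat_lit 124) (.e (nat_lit 557100) (nat_lit 13) (.e (nat_lit 172106) (nat_lit 10) (.e (nat_lit 434231) (nat_lit 23) (.e (nat_lit 532535) (nat_lit 9) (.e (nat_lit 336353) (nat_lit 24) (.e (nat_lit 262148) (nat_lit 0) (.e (nat_lit 1046) (nat_lit 81) .nil)))))))) (.g (nat_lit 5) .nil .nil))) 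
(.lf (nat_lit 83513) (.g (nat_lit 3240) (.e (nat_lit 1858) (nat_lit 124) (.e (nat_lit 557100) (nat_lit 13) (.e (nat_lit 172106) (nat_lit 10) (.e (nat_lit 434231) (nat_lit 23) (.e (nat_lit 532563) (nat_lit 15) (.e (nat_lit 385105) (nat_lit 50) (.e (nat_lit 786448) (nat_lit 15) .nil))))))) (.g (nat_lit 5) .nil .nil)))))) (.nd (nat_lit 3) (.nd (nat_lit 4) (.nd (nat_lit 5) 
(.lf (nat_lit 83461) (.g (nat_lit 3152) (.e (nat_lit 1858) (nat_lit 124) (.e (nat_lit 557100) (nat_lit 13) (.e (nat_lit 172106) (nat_lit 10) (.e (nat_lit 434231) (nat_lit 23) (.e (nat_lit 532535) (nat_lit 9) (.e (nat_lit 336290) (nat_lit 15) (.e (nat_lit 3711) (nat_lit 227) (.e (nat_lit 778249) (nat_lit 0) (.e (nat_lit 1031) (nat_lit 81) .nil))))))))) (.g (nat_lit 7) .nil .nil))) 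
(.lf (nat_lit 83493) (.g (nat_lit 3474) (.e (nat_lit 1858) (nat_lit 124) (.e (nat_lit 557100) (nat_lit 13) (.e (nat_lit 172106) (nat_lit 10) (.e (nat_lit 434231) (nat_lit 23) (.e (nat_lit 532544) (nat_lit 10) (.e (nat_lit 344169) (nat_lit 40) (.e (nat_lit 671746) (nat_lit 0) (.e (nat_lit 1027) (nat_lit 81) .nil)))))))) (.g (nat_lit 6) .nil .nil)))) (.nd (nat_lit 5) 
(.lf (nat_lit 83477) (.g (nat_lit 3649) (.e (nat_lit 1858) (nat_lit 124) (.e (nat_lit 557100) (nat_lit 13) (.e (nat_lit 172106) (nat_lit 10) (.e (nat_lit 434231) (nat_lit 23) (.e (nat_lit 532535) (nat_lit 9) (.e (nat_lit 336295) (nat_lit 15) (.e (nat_lit 3748) (nat_lit 228) (.e (nat_lit 786444) (nat_lit 15) .nil)))))))) (.g (nat_lit 6) .nil .nil))) 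
(.lf (nat_lit 83509) (.g (nat_lit 4647) (.e (nat_lit 1858) (nat_lit 124) (.e (nat_lit 557100) (nat_lit 13) (.e (nat_lit 172106) (nat_lit 10) (.e (nat_lit 434231) (nat_lit 23) (.e (nat_lit 532563) (nat_lit 15) (.e (nat_lit 385104) (nat_lit 50) (.e (nat_lit 786444) (nat_lit 15) .nil))))))) (.g (nat_lit 0) .nil .nil))))) (.nd (nat_lit 4) (.nd (nat_lit 5) 
(.lf (nat_lit 83469) (.g (nat_lit 2332) (.e (nat_lit 1858) (nat_lit 124) (.e (nat_lit 557100) (nat_lit 13) (.e (nat_lit 172106) (nat_lit 10) (.e (nat_lit 434231) (nat_lit 23) (.e (nat_lit 532535) (nat_lit 9) (.e (nat_lit 336295) (nat_lit 15) (.e (nat_lit 3630) (nat_lit 227) (.e (nat_lit 778295) (nat_lit 0) (.e (nat_lit 1033) (nat_lit 81) .nil))))))))) (.g (nat_lit 5) .nil .nil))) 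
(.lf (nat_lit 83501) (.g (nat_lit 2292) (.e (nat_lit 1858) (nat_lit 124) (.e (nat_lit 557100) (nat_lit 13) (.e (nat_lit 172106) (nat_lit 10) (.e (nat_lit 434231) (nat_lit 23) (.e (nat_lit 532562) (nat_lit 15) (.e (nat_lit 385104) (nat_lit 50) (.e (nat_lit 786444) (nat_lit 15) .nil))))))) (.g (nat_lit 4) .nil .nil)))) (.nd (nat_lit 5) 
(.lf (nat_lit 83485) (.g (nat_lit 3629) (.e (nat_lit 1858) (nat_lit 124) (.e (nat_lit 557100) (nat_lit 13) (.e (nat_lit 172106) (nat_lit 10) (.e (nat_lit 434231) (nat_lit 23) (.e (nat_lit 532543) (nat_lit 10) (.e (nat_lit 344168) (nat_lit 40) (.e (nat_lit 671751) (nat_lit 0) (.e (nat_lit 1042) (nat_lit 81) .nil)))))))) (.g (nat_lit 8) .nil .nil))) 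
(.lf (nat_lit 83517) (.g (nat_lit 3630) (.e (nat_lit 1858) (nat_lit 124) (.e (nat_lit 557100) (nat_lit 13) (.e (nat_lit 172106) (nat_lit 10) (.e (nat_lit 434231) (nat_lit 23) (.e (nat_lit 532563) (nat_lit 15) (.e (nat_lit 385106) (nat_lit 50) (.e (nat_lit 794368) (nat_lit 15) .nil))))))) (.g (nat_lit 6) .nil .nil))))))) (.nd (nat_lit 2) (.nd (nat_lit 3) (.nd (nat_lit 4) (.nd (nat_lit 5) 
(.lf (nat_lit 83459) (.g (nat_lit 2172) (.e (nat_lit 1858) (nat_lit 124) (.e (nat_lit 557100) (nat_lit 13) (.e (nat_lit 172106) (nat_lit 10) (.e (nat_lit 434231) (nat_lit 23) (.e (nat_lit 532535) (nat_lit 9) (.e (nat_lit 336030) (nat_lit 4) (.e (nat_lit 123198) (nat_lit 266) (.e (nat_lit 65280) (nat_lit 0) .nil)))))))) (.g (nat_lit 7) .nil .nil))) 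
(.lf (nat_lit 83491) (.g (nat_lit 2681) (.e (nat_lit 1858) (nat_lit 124) (.e (nat_lit 557100) (nat_lit 13) (.e (nat_lit 172106) (nat_lit 10) (.e (nat_lit 434231) (nat_lit 23) (.e (nat_lit 532544) (nat_lit 10) (.e (nat_lit 344168) (nat_lit 40) (.e (nat_lit 671751) (nat_lit 0) (.e (nat_lit 982) (nat_lit 81) .nil)))))))) (.g (nat_lit 5) .nil .nil)))) (.nd (nat_lit 5) 
(.lf (nat_lit 83475) (.g (nat_lit 3798) (.e (nat_lit 1858) (nat_lit 124) (.e (nat_lit 557100) (nat_lit 13) (.e (nat_lit 172106) (nat_lit 10) (.e (nat_lit 434231) (nat_lit 23) (.e (nat_lit 532535) (nat_lit 9) (.e (nat_lit 336295) (nat_lit 15) (.e (nat_lit 3747) (nat_lit 228) (.e (nat_lit 786444) (nat_lit 15) .nil)))))))) (.g (nat_lit 6) .nil .nil))) 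
(.lf (nat_lit 83507) (.g (nat_lit 3979) (.e (nat_lit 1858) (nat_lit 124) (.e (nat_lit 557100) (nat_lit 13) (.e (nat_lit 172106) (nat_lit 10) (.e (nat_lit 434231) (nat_lit 23) (.e (nat_lit 532563) (nat_lit 15) (.e (nat_lit 385102) (nat_lit 50) (.e (nat_lit 786444) (nat_lit 15) .nil))))))) (.g (nat_lit 5) .nil .nil))))) (.nd (nat_lit 4) (.nd (nat_lit 5) 
(.lf (nat_lit 83467) (.g (nat_lit 2481) (.e (nat_lit 1858) (nat_lit 124) (.e (nat_lit 557100) (nat_lit 13) (.e (nat_lit 172106) (nat_lit 10) (.e (nat_lit 434231) (nat_lit 23) (.e (nat_lit 532535) (nat_lit 9) (.e (nat_lit 336295) (nat_lit 15) (.e (nat_lit 3630) (nat_lit 227) (.e (nat_lit 778251) (nat_lit 0) (.e (nat_lit 1031) (nat_lit 81) .nil))))))))) (.g (nat_lit 5) .nil .nil))) 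
(.lf (nat_lit 83499) (.g (nat_lit 3443) (.e (nat_lit 1858) (nat_lit 124) (.e (nat_lit 557100) (nat_lit 13) (.e (nat_lit 172106) (nat_lit 10) (.e (nat_lit 434231) (nat_lit 23) (.e (nat_lit 532544) (nat_lit 10) (.e (nat_lit 344169) (nat_lit 40) (.e (nat_lit 671748) (nat_lit 0) (.e (nat_lit 1044) (nat_lit 81) .nil)))))))) (.g (nat_lit 6) .nil .nil)))) (.nd (nat_lit 5) 
(.lf (nat_lit 83483) (.g (nat_lit 2709) (.e (nat_lit 1858) (nat_lit 124) (.e (nat_lit 557100) (nat_lit 13) (.e (nat_lit 172106) (nat_lit 10) (.e (nat_lit 434231) (nat_lit 23) (.e (nat_lit 532535) (nat_lit 9) (.e (nat_lit 343808) (nat_lit 24) (.e (nat_lit 262148) (nat_lit 0) (.e (nat_lit 1031) (nat_lit 81) .nil)))))))) (.g (nat_lit 5) .nil .nil))) 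
(.lf (nat_lit 83515) (.g (nat_lit 4211) (.e (nat_lit 1858) (nat_lit 124) (.e (nat_lit 557100) (nat_lit 13) (.e (nat_lit 172106) (nat_lit 10) (.e (nat_lit 434231) (nat_lit 23) (.e (nat_lit 532563) (nat_lit 15) (.e (nat_lit 385106) (nat_lit 50) (.e (nat_lit 786444) (nat_lit 15) .nil))))))) (.g (nat_lit 6) .nil .nil)))))) (.nd (nat_lit 3) (.nd (nat_lit 4) (.nd (nat_lit 5) 
(.lf (nat_lit 83463) (.g (nat_lit 2178) (.e (nat_lit 1858) (nat_lit 124) (.e (nat_lit 557100) (nat_lit 13) (.e (nat_lit 172106) (nat_lit 10) (.e (nat_lit 434231) (nat_lit 23) (.e (nat_lit 532535) (nat_lit 9) (.e (nat_lit 336290) (nat_lit 15) (.e (nat_lit 3715) (nat_lit 227) (.e (nat_lit 778249) (nat_lit 0) (.e (nat_lit 1031) (nat_lit 81) .nil))))))))) (.g (nat_lit 5) .nil .nil))) 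
(.lf (nat_lit 83495) (.g (nat_lit 2232) (.e (nat_lit 1858) (nat_lit 124) (.e (nat_lit 557100) (nat_lit 13) (.e (nat_lit 172106) (nat_lit 10) (.e (nat_lit 434231) (nat_lit 23) (.e (nat_lit 532544) (nat_lit 10) (.e (nat_lit 344169) (nat_lit 40) (.e (nat_lit 671746) (nat_lit 0) (.e (nat_lit 1035) (nat_lit 81) .nil)))))))) (.g (nat_lit 4) .nil .nil)))) (.nd (nat_lit 5) 
(.lf (nat_lit 83479) (.g (nat_lit 2895) (.e (nat_lit 1858) (nat_lit 124) (.e (nat_lit 557100) (nat_lit 13) (.e (nat_lit 172106) (nat_lit 10) (.e (nat_lit 434231) (nat_lit 23) (.e (nat_lit 532535) (nat_lit 9) (.e (nat_lit 336295) (nat_lit 15) (.e (nat_lit 3748) (nat_lit 228) (.e (nat_lit 794368) (nat_lit 15) .nil)))))))) (.g (nat_lit 6) .nil .nil))) 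
(.lf (nat_lit 83511) (.g (nat_lit 2583) (.e (nat_lit 1858) (nat_lit 124) (.e (nat_lit 557100) (nat_lit 13) (.e (nat_lit 172106) (nat_lit 10) (.e (nat_lit 434231) (nat_lit 23) (.e (nat_lit 532563) (nat_lit 15) (.e (nat_lit 385104) (nat_lit 50) (.e (nat_lit 794368) (nat_lit 15) .nil))))))) (.g (nat_lit 5) .nil .nil))))) (.nd (nat_lit 4) (.nd (nat_lit 5) 
(.lf (nat_lit 83471) (.g (nat_lit 3104) (.e (nat_lit 1858) (nat_lit 124) (.e (nat_lit 557100) (nat_lit 13) (.e (nat_lit 172106) (nat_lit 10) (.e (nat_lit 434231) (nat_lit 23) (.e (nat_lit 532535) (nat_lit 9) (.e (nat_lit 336295) (nat_lit 15) (.e (nat_lit 3733) (nat_lit 228) (.e (nat_lit 786444) (nat_lit 15) .nil)))))))) (.g (nat_lit 5) .nil .nil))) 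
(.lf (nat_lit 83503) (.g (nat_lit 2966) (.e (nat_lit 1858) (nat_lit 124) (.e (nat_lit 557100) (nat_lit 13) (.e (nat_lit 172106) (nat_lit 10) (.e (nat_lit 434231) (nat_lit 23) (.e (nat_lit 532562) (nat_lit 15) (.e (nat_lit 385105) (nat_lit 50) (.e (nat_lit 794368) (nat_lit 15) .nil))))))) (.g (nat_lit 6) .nil .nil)))) (.nd (nat_lit 5) 
(.lf (nat_lit 83487) (.g (nat_lit 2391) (.e (nat_lit 1858) (nat_lit 124) (.e (nat_lit 557100) (nat_lit 13) (.e (nat_lit 172106) (nat_lit 10) (.e (nat_lit 434231) (nat_lit 23) (.e (nat_lit 532544) (nat_lit 10) (.e (nat_lit 344103) (nat_lit 18) (.e (nat_lit 5949) (nat_lit 322) (.e (nat_lit 57355) (nat_lit 0) .nil)))))))) (.g (nat_lit 4) .nil .nil))) 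
(.lf (nat_lit 83519) (.g (nat_lit 3059) (.e (nat_lit 1858) (nat_lit 124) (.e (nat_lit 557100) (nat_lit 13) (.e (nat_lit 172106) (nat_lit 10) (.e (nat_lit 434231) (nat_lit 23) (.e (nat_lit 532564) (nat_lit 15) (.e (nat_lit 385102) (nat_lit 50) (.e (nat_lit 786444) (nat_lit 15) .nil))))))) (.g (nat_lit 4) .nil .nil)))))))))

noncomputable def tv1129 : DT := (.nd (nat_lit 0) (.nd (nat_lit 1) (.nd (nat_lit 2) (.nd (nat_lit 3) (.nd (nat_lit 4) (.nd (nat_lit 5) 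
(.lf (nat_lit 83520) (.g (nat_lit 2791) (.e (nat_lit 1858) (nat_lit 124) (.e (nat_lit 557100) (nat_lit 13) (.e (nat_lit 172106) (nat_lit 10) (.e (nat_lit 434231) (nat_lit 23) (.e (nat_lit 532564) (nat_lit 15) (.e (nat_lit 385103) (nat_lit 50) (.e (nat_lit 786444) (nat_lit 15) .nil))))))) (.g (nat_lit 4) .nil .nil))) 
(.lf (nat_lit 83552) (.g (nat_lit 2794) (.e (nat_lit 1858) (nat_lit 124) (.e (nat_lit 557100) (nat_lit 13) (.e (nat_lit 172106) (nat_lit 10) (.e (nat_lit 434238) (nat_lit 25) (.e (nat_lit 548897) (nat_lit 14) (.e (nat_lit 3004) (nat_lit 186) (.e (nat_lit 450304) (nat_lit 0) .nil))))))) (.g (nat_lit 6) .nil .nil)))) (.nd (nat_lit 5) 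
(.lf (nat_lit 83536) (.g (nat_lit 3096) (.e (nat_lit 1858) (nat_lit 124) (.e (nat_lit 557100) (nat_lit 13) (.e (nat_lit 172106) (nat_lit 10) (.e (nat_lit 434231) (nat_lit 23) (.e (nat_lit 532569) (nat_lit 16) (.e (nat_lit 401435) (nat_lit 9) (.e (nat_lit 426399) (nat_lit 15) .nil))))))) (.g (nat_lit 4) .nil .nil))) 
(.lf (nat_lit 83568) (.g (nat_lit 4355) (.e (nat_lit 1858) (nat_lit 124) (.e (nat_lit 557100) (nat_lit 13) (.e (nat_lit 172106) (nat_lit 10) (.e (nat_lit 434244) (nat_lit 28) (.e (nat_lit 573451) (nat_lit 9) (.e (nat_lit 430) (nat_lit 32) (.e (nat_lit 426190) (nat_lit 9) (.e (nat_lit 426402) (nat_lit 15) .nil)))))))) (.g (nat_lit 5) .nil .nil))))) (.nd (nat_lit 4) (.nd (nat_lit 5) 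
(.lf (nat_lit 83528) (.g (nat_lit 2307) (.e (nat_lit 1858) (nat_lit 124) (.e (nat_lit 557100) (nat_lit 13) (.e (nat_lit 172106) (nat_lit 10) (.e (nat_lit 434231) (nat_lit 23) (.e (nat_lit 532568) (nat_lit 16) (.e (nat_lit 401435) (nat_lit 9) (.e (nat_lit 426402) (nat_lit 15) .nil))))))) (.g (nat_lit 4) .nil .nil))) 
(.lf (nat_lit 83560) (.g (nat_lit 2055) (.e (nat_lit 1858) (nat_lit 124) (.e (nat_lit 557100) (nat_lit 13) (.e (nat_lit 172106) (nat_lit 10) (.e (nat_lit 434238) (nat_lit 25) (.e (nat_lit 548915) (nat_lit 20) .nil))))) .nil))) (.nd (nat_lit 5) 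
(.lf (nat_lit 83544) (.g (nat_lit 2348) (.e (nat_lit 1858) (nat_lit 124) (.e (nat_lit 557100) (nat_lit 13) (.e (nat_lit 172106) (nat_lit 10) (.e (nat_lit 434238) (nat_lit 25) (.e (nat_lit 548896) (nat_lit 14) (.e (nat_lit 2982) (nat_lit 186) (.e (nat_lit 450304) (nat_lit 0) .nil))))))) (.g (nat_lit 4) .nil .nil))) 
(.lf (nat_lit 83576) (.g (nat_lit 3327) (.e (nat_lit 1858) (nat_lit 124) (.e (nat_lit 557100) (nat_lit 13) (.e (nat_lit 172106) (nat_lit 10) (.e (nat_lit 434244) (nat_lit 28) (.e (nat_lit 573458) (nat_lit 9) (.e (nat_lit 420) (nat_lit 32) (.e (nat_lit 426261) (nat_lit 9) (.e (nat_lit 426401) (nat_lit 15) .nil)))))))) (.g (nat_lit 5) .nil .nil)))))) 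
(.nd (nat_lit 3) (.nd (nat_lit 4) (.nd (nat_lit 5) 
(.lf (nat_lit 83524) (.g (nat_lit 1863) (.e (nat_lit 1858) (nat_lit 124) (.e (nat_lit 557100) (nat_lit 13) (.e (nat_lit 172106) (nat_lit 10) (.e (nat_lit 434231) (nat_lit 23) (.e (nat_lit 532567) (nat_lit 16) .nil))))) .nil)) 
(.lf (nat_lit 83556) (.g (nat_lit 3740) (.e (nat_lit 1858) (nat_lit 124) (.e (nat_lit 557100) (nat_lit 13) (.e (nat_lit 172106) (nat_lit 10) (.e (nat_lit 434238) (nat_lit 25) (.e (nat_lit 548898) (nat_lit 14) (.e (nat_lit 2999) (nat_lit 186) (.e (nat_lit 450304) (nat_lit 0) .nil))))))) (.g (nat_lit 6) .nil .nil)))) (.nd (nat_lit 5) 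
(.lf (nat_lit 83540) (.g (nat_lit 3736) (.e (nat_lit 1858) (nat_lit 124) (.e (nat_lit 557100) (nat_lit 13) (.e (nat_lit 172106) (nat_lit 10) (.e (nat_lit 434231) (nat_lit 23) (.e (nat_lit 532569) (nat_lit 16) (.e (nat_lit 401440) (nat_lit 9) (.e (nat_lit 433920) (nat_lit 15) .nil))))))) (.g (nat_lit 6) .nil .nil))) 
(.lf (nat_lit 83572) (.g (nat_lit 3012) (.e (nat_lit 1858) (nat_lit 124) (.e (nat_lit 557100) (nat_lit 13) (.e (nat_lit 172106) (nat_lit 10) (.e (nat_lit 434244) (nat_lit 28) (.e (nat_lit 573451) (nat_lit 9) (.e (nat_lit 7936) (nat_lit 37) (.e (nat_lit 474880) (nat_lit 0) .nil))))))) (.g (nat_lit 5) .nil .nil))))) (.nd (nat_lit 4) (.nd (nat_lit 5) 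
(.lf (nat_lit 83532) (.g (nat_lit 3363) (.e (nat_lit 1858) (nat_lit 124) (.e (nat_lit 557100) (nat_lit 13) (.e (nat_lit 172106) (nat_lit 10) (.e (nat_lit 434231) (nat_lit 23) (.e (nat_lit 532568) (nat_lit 16) (.e (nat_lit 401438) (nat_lit 9) (.e (nat_lit 426364) (nat_lit 15) .nil))))))) (.g (nat_lit 5) .nil .nil))) 
(.lf (nat_lit 83564) (.g (nat_lit 3499) (.e (nat_lit 1858) (nat_lit 124) (.e (nat_lit 557100) (nat_lit 13) (.e (nat_lit 172106) (nat_lit 10) (.e (nat_lit 434244) (nat_lit 28) (.e (nat_lit 573450) (nat_lit 9) (.e (nat_lit 455) (nat_lit 34) (.e (nat_lit 450304) (nat_lit 0) .nil))))))) (.g (nat_lit 6) .nil .nil)))) (.nd (nat_lit 5) 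
(.lf (nat_lit 83548) (.g (nat_lit 2640) (.e (nat_lit 1858) (nat_lit 124) (.e (nat_lit 557100) (nat_lit 13) (.e (nat_lit 172106) (nat_lit 10) (.e (nat_lit 434238) (nat_lit 25) (.e (nat_lit 548897) (nat_lit 14) (.e (nat_lit 2988) (nat_lit 186) (.e (nat_lit 450304) (nat_lit 0) .nil))))))) (.g (nat_lit 6) .nil .nil))) 
(.lf (nat_lit 83580) (.g (nat_lit 3132) (.e (nat_lit 1858) (nat_lit 124) (.e (nat_lit 557100) (nat_lit 13) (.e (nat_lit 172106) (nat_lit 10) (.e (nat_lit 434244) (nat_lit 28) (.e (nat_lit 573458) (nat_lit 9) (.e (nat_lit 426) (nat_lit 32) (.e (nat_lit 426200) (nat_lit 9) (.e (nat_lit 426402) (nat_lit 15) .nil)))))))) (.g (nat_lit 4) .nil .nil))))))) 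
(.nd (nat_lit 2) (.nd (nat_lit 3) (.nd (nat_lit 4) (.nd (nat_lit 5) 
(.lf (nat_lit 83522) (.g (nat_lit 3847) (.e (nat_lit 1858) (nat_lit 124) (.e (nat_lit 557100) (nat_lit 13) (.e (nat_lit 172106) (nat_lit 10) (.e (nat_lit 434231) (nat_lit 23) (.e (nat_lit 532564) (nat_lit 15) (.e (nat_lit 385105) (nat_lit 50) (.e (nat_lit 786444) (nat_lit 15) .nil))))))) (.g (nat_lit 6) .nil .nil))) 
(.lf (nat_lit 83554) (.g (nat_lit 3396) (.e (nat_lit 1858) (nat_lit 124) (.e (nat_lit 557100) (nat_lit 13) (.e (nat_lit 172106) (nat_lit 10) (.e (nat_lit 434238) (nat_lit 25) (.e (nat_lit 548898) (nat_lit 14) (.e (nat_lit 2988) (nat_lit 186) (.e (nat_lit 450304) (nat_lit 0) .nil))))))) (.g (nat_lit 6) .nil .nil)))) (.nd (nat_lit 5) 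
(.lf (nat_lit 83538) (.g (nat_lit 4848) (.e (nat_lit 1858) (nat_lit 124) (.e (nat_lit 557100) (nat_lit 13) (.e (nat_lit 172106) (nat_lit 10) (.e (nat_lit 434231) (nat_lit 23) (.e (nat_lit 532569) (nat_lit 16) (.e (nat_lit 401437) (nat_lit 9) (.e (nat_lit 426364) (nat_lit 15) .nil))))))) (.g (nat_lit 6) .nil .nil))) 
(.lf (nat_lit 83570) (.g (nat_lit 2683) (.e (nat_lit 1858) (nat_lit 124) (.e (nat_lit 557100) (nat_lit 13) (.e (nat_lit 172106) (nat_lit 10) (.e (nat_lit 434244) (nat_lit 28) (.e (nat_lit 573451) (nat_lit 9) (.e (nat_lit 7936) (nat_lit 33) (.e (nat_lit 434185) (nat_lit 8) (.e (nat_lit 59) (nat_lit 0) .nil)))))))) (.g (nat_lit 4) .nil .nil))))) (.nd (nat_lit 4) (.nd (nat_lit 5) 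
(.lf (nat_lit 83530) (.g (nat_lit 4796) (.e (nat_lit 1858) (nat_lit 124) (.e (nat_lit 557100) (nat_lit 13) (.e (nat_lit 172106) (nat_lit 10) (.e (nat_lit 434231) (nat_lit 23) (.e (nat_lit 532568) (nat_lit 16) (.e (nat_lit 401437) (nat_lit 9) (.e (nat_lit 426364) (nat_lit 15) .nil))))))) (.g (nat_lit 7) .nil .nil))) 
(.lf (nat_lit 83562) (.g (nat_lit 2602) (.e (nat_lit 1858) (nat_lit 124) (.e (nat_lit 557100) (nat_lit 13) (.e (nat_lit 172106) (nat_lit 10) (.e (nat_lit 434244) (nat_lit 28) (.e (nat_lit 573449) (nat_lit 9) .nil))))) .nil))) (.nd (nat_lit 5) 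
(.lf (nat_lit 83546) (.g (nat_lit 2819) (.e (nat_lit 1858) (nat_lit 124) (.e (nat_lit 557100) (nat_lit 13) (.e (nat_lit 172106) (nat_lit 10) (.e (nat_lit 434238) (nat_lit 25) (.e (nat_lit 548896) (nat_lit 14) (.e (nat_lit 3004) (nat_lit 186) (.e (nat_lit 450304) (nat_lit 0) .nil))))))) (.g (nat_lit 6) .nil .nil))) 
(.lf (nat_lit 83578) (.g (nat_lit 3840) (.e (nat_lit 1858) (nat_lit 124) (.e (nat_lit 557100) (nat_lit 13) (.e (nat_lit 172106) (nat_lit 10) (.e (nat_lit 434244) (nat_lit 28) (.e (nat_lit 573458) (nat_lit 9) (.e (nat_lit 426) (nat_lit 32) (.e (nat_lit 426197) (nat_lit 9) (.e (nat_lit 426402) (nat_lit 15) .nil)))))))) (.g (nat_lit 5) .nil .nil)))))) 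
(.nd (nat_lit 3) (.nd (nat_lit 4) (.nd (nat_lit 5) 
(.lf (nat_lit 83526) (.g (nat_lit 4669) (.e (nat_lit 1858) (nat_lit 124) (.e (nat_lit 557100) (nat_lit 13) (.e (nat_lit 172106) (nat_lit 10) (.e (nat_lit 434231) (nat_lit 23) (.e (nat_lit 532567) (nat_lit 16) (.e (nat_lit 401437) (nat_lit 9) (.e (nat_lit 426364) (nat_lit 15) .nil))))))) (.g (nat_lit 7) .nil .nil))) 
(.lf (nat_lit 83558) (.g (nat_lit 3388) (.e (nat_lit 1858) (nat_lit 124) (.e (nat_lit 557100) (nat_lit 13) (.e (nat_lit 172106) (nat_lit 10) (.e (nat_lit 434238) (nat_lit 25) (.e (nat_lit 548898) (nat_lit 14) (.e (nat_lit 3005) (nat_lit 186) (.e (nat_lit 450304) (nat_lit 0) .nil))))))) (.g (nat_lit 6) .nil .nil)))) (.nd (nat_lit 5) 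
(.lf (nat_lit 83542) (.g (nat_lit 1511) (.e (nat_lit 1858) (nat_lit 124) (.e (nat_lit 557100) (nat_lit 13) (.e (nat_lit 172106) (nat_lit 10) (.e (nat_lit 434238) (nat_lit 25) .nil)))) .nil)) 
(.lf (nat_lit 83574) (.g (nat_lit 2150) (.e (nat_lit 1858) (nat_lit 124) (.e (nat_lit 557100) (nat_lit 13) (.e (nat_lit 172106) (nat_lit 10) (.e (nat_lit 434244) (nat_lit 28) (.e (nat_lit 573458) (nat_lit 9) .nil))))) .nil)))) (.nd (nat_lit 4) (.nd (nat_lit 5) 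
(.lf (nat_lit 83534) (.g (nat_lit 2231) (.e (nat_lit 1858) (nat_lit 124) (.e (nat_lit 557100) (nat_lit 13) (.e (nat_lit 172106) (nat_lit 10) (.e (nat_lit 434231) (nat_lit 23) (.e (nat_lit 532569) (nat_lit 16) (.e (nat_lit 401434) (nat_lit 9) (.e (nat_lit 426364) (nat_lit 15) .nil))))))) (.g (nat_lit 4) .nil .nil))) 
(.lf (nat_lit 83566) (.g (nat_lit 2280) (.e (nat_lit 1858) (nat_lit 124) (.e (nat_lit 557100) (nat_lit 13) (.e (nat_lit 172106) (nat_lit 10) (.e (nat_lit 434244) (nat_lit 28) (.e (nat_lit 573450) (nat_lit 9) (.e (nat_lit 479) (nat_lit 37) (.e (nat_lit 474880) (nat_lit 0) .nil))))))) (.g (nat_lit 4) .nil .nil)))) (.nd (nat_lit 5) 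
(.lf (nat_lit 83550) (.g (nat_lit 2579) (.e (nat_lit 1858) (nat_lit 124) (.e (nat_lit 557100) (nat_lit 13) (.e (nat_lit 172106) (nat_lit 10) (.e (nat_lit 434238) (nat_lit 25) (.e (nat_lit 548897) (nat_lit 14) (.e (nat_lit 2998) (nat_lit 186) (.e (nat_lit 450304) (nat_lit 0) .nil))))))) (.g (nat_lit 6) .nil .nil))) 
(.lf (nat_lit 83582) (.g (nat_lit 3170) (.e (nat_lit 1858) (nat_lit 124) (.e (nat_lit 557100) (nat_lit 13) (.e (nat_lit 172106) (nat_lit 10) (.e (nat_lit 434244) (nat_lit 28) (.e (nat_lit 573458) (nat_lit 9) (.e (nat_lit 7936) (nat_lit 37) (.e (nat_lit 474880) (nat_lit 0) .nil))))))) (.g (nat_lit 5) .nil .nil)))))))) 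
(.nd (nat_lit 1) (.nd (nat_lit 2) (.nd (nat_lit 3) (.nd (nat_lit 4) (.nd (nat_lit 5) 
(.lf (nat_lit 83521) (.g (nat_lit 4258) (.e (nat_lit 1858) (nat_lit 124) (.e (nat_lit 557100) (nat_lit 13) (.e (nat_lit 172106) (nat_lit 10) (.e (nat_lit 434231) (nat_lit 23) (.e (nat_lit 532564) (nat_lit 15) (.e (nat_lit 385104) (nat_lit 50) (.e (nat_lit 786444) (nat_lit 15) .nil))))))) (.g (nat_lit 7) .nil .nil))) 
(.lf (nat_lit 83553) (.g (nat_lit 2530) (.e (nat_lit 1858) (nat_lit 124) (.e (nat_lit 557100) (nat_lit 13) (.e (nat_lit 172106) (nat_lit 10) (.e (nat_lit 434238) (nat_lit 25) (.e (nat_lit 548897) (nat_lit 14) (.e (nat_lit 3005) (nat_lit 186) (.e (nat_lit 450304) (nat_lit 0) .nil))))))) (.g (nat_lit 5) .nil .nil)))) (.nd (nat_lit 5) 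
(.lf (nat_lit 83537) (.g (nat_lit 3403) (.e (nat_lit 1858) (nat_lit 124) (.e (nat_lit 557100) (nat_lit 13) (.e (nat_lit 172106) (nat_lit 10) (.e (nat_lit 434231) (nat_lit 23) (.e (nat_lit 532569) (nat_lit 16) (.e (nat_lit 401436) (nat_lit 9) (.e (nat_lit 426402) (nat_lit 15) .nil))))))) (.g (nat_lit 4) .nil .nil))) 
(.lf (nat_lit 83569) (.g (nat_lit 4355) (.e (nat_lit 1858) (nat_lit 124) (.e (nat_lit 557100) (nat_lit 13) (.e (nat_lit 172106) (nat_lit 10) (.e (nat_lit 434244) (nat_lit 28) (.e (nat_lit 573451) (nat_lit 9) (.e (nat_lit 430) (nat_lit 32) (.e (nat_lit 426198) (nat_lit 9) (.e (nat_lit 426402) (nat_lit 15) .nil)))))))) (.g (nat_lit 5) .nil .nil))))) (.nd (nat_lit 4) (.nd (nat_lit 5) 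
(.lf (nat_lit 83529) (.g (nat_lit 4023) (.e (nat_lit 1858) (nat_lit 124) (.e (nat_lit 557100) (nat_lit 13) (.e (nat_lit 172106) (nat_lit 10) (.e (nat_lit 434231) (nat_lit 23) (.e (nat_lit 532568) (nat_lit 16) (.e (nat_lit 401436) (nat_lit 9) (.e (nat_lit 426402) (nat_lit 15) .nil))))))) (.g (nat_lit 6) .nil .nil))) 
(.lf (nat_lit 83561) (.g (nat_lit 1415) (.e (nat_lit 1858) (nat_lit 124) (.e (nat_lit 557100) (nat_lit 13) (.e (nat_lit 172106) (nat_lit 10) (.e (nat_lit 434244) (nat_lit 28) .nil)))) .nil))) (.nd (nat_lit 5) 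
(.lf (nat_lit 83545) (.g (nat_lit 2525) (.e (nat_lit 1858) (nat_lit 124) (.e (nat_lit 557100) (nat_lit 13) (.e (nat_lit 172106) (nat_lit 10) (.e (nat_lit 434238) (nat_lit 25) (.e (nat_lit 548896) (nat_lit 14) (.e (nat_lit 2998) (nat_lit 186) (.e (nat_lit 450304) (nat_lit 0) .nil))))))) (.g (nat_lit 5) .nil .nil))) 
(.lf (nat_lit 83577) (.g (nat_lit 3250) (.e (nat_lit 1858) (nat_lit 124) (.e (nat_lit 557100) (nat_lit 13) (.e (nat_lit 172106) (nat_lit 10) (.e (nat_lit 434244) (nat_lit 28) (.e (nat_lit 573458) (nat_lit 9) (.e (nat_lit 426) (nat_lit 32) (.e (nat_lit 426188) (nat_lit 9) (.e (nat_lit 426360) (nat_lit 15) .nil)))))))) (.g (nat_lit 4) .nil .nil)))))) 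
(.nd (nat_lit 3) (.nd (nat_lit 4) (.nd (nat_lit 5) 
(.lf (nat_lit 83525) (.g (nat_lit 2440) (.e (nat_lit 1858) (nat_lit 124) (.e (nat_lit 557100) (nat_lit 13) (.e (nat_lit 172106) (nat_lit 10) (.e (nat_lit 434231) (nat_lit 23) (.e (nat_lit 532567) (nat_lit 16) (.e (nat_lit 401435) (nat_lit 9) (.e (nat_lit 426402) (nat_lit 15) .nil))))))) (.g (nat_lit 4) .nil .nil))) 
(.lf (nat_lit 83557) (.g (nat_lit 3391) (.e (nat_lit 1858) (nat_lit 124) (.e (nat_lit 557100) (nat_lit 13) (.e (nat_lit 172106) (nat_lit 10) (.e (nat_lit 434238) (nat_lit 25) (.e (nat_lit 548898) (nat_lit 14) (.e (nat_lit 3004) (nat_lit 186) (.e (nat_lit 450304) (nat_lit 0) .nil))))))) (.g (nat_lit 6) .nil .nil)))) (.nd (nat_lit 5) 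
(.lf (nat_lit 83541) (.g (nat_lit 4907) (.e (nat_lit 1858) (nat_lit 124) (.e (nat_lit 557100) (nat_lit 13) (.e (nat_lit 172106) (nat_lit 10) (.e (nat_lit 434231) (nat_lit 23) (.e (nat_lit 532569) (nat_lit 16) (.e (nat_lit 401444) (nat_lit 9) (.e (nat_lit 426401) (nat_lit 15) .nil))))))) (.g (nat_lit 0) .nil .nil))) 
(.lf (nat_lit 83573) (.g (nat_lit 2653) (.e (nat_lit 1858) (nat_lit 124) (.e (nat_lit 557100) (nat_lit 13) (.e (nat_lit 172106) (nat_lit 10) (.e (nat_lit 434244) (nat_lit 28) (.e (nat_lit 573454) (nat_lit 9) .nil))))) .nil)))) (.nd (nat_lit 4) (.nd (nat_lit 5) 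
(.lf (nat_lit 83533) (.g (nat_lit 2186) (.e (nat_lit 1858) (nat_lit 124) (.e (nat_lit 557100) (nat_lit 13) (.e (nat_lit 172106) (nat_lit 10) (.e (nat_lit 434231) (nat_lit 23) (.e (nat_lit 532569) (nat_lit 16) .nil))))) .nil)) 
(.lf (nat_lit 83565) (.g (nat_lit 3467) (.e (nat_lit 1858) (nat_lit 124) (.e (nat_lit 557100) (nat_lit 13) (.e (nat_lit 172106) (nat_lit 10) (.e (nat_lit 434244) (nat_lit 28) (.e (nat_lit 573450) (nat_lit 9) (.e (nat_lit 457) (nat_lit 34) (.e (nat_lit 450304) (nat_lit 0) .nil))))))) (.g (nat_lit 6) .nil .nil)))) (.nd (nat_lit 5) 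
(.lf (nat_lit 83549) (.g (nat_lit 2276) (.e (nat_lit 1858) (nat_lit 124) (.e (nat_lit 557100) (nat_lit 13) (.e (nat_lit 172106) (nat_lit 10) (.e (nat_lit 434238) (nat_lit 25) (.e (nat_lit 548897) (nat_lit 14) (.e (nat_lit 2989) (nat_lit 186) (.e (nat_lit 450304) (nat_lit 0) .nil))))))) (.g (nat_lit 4) .nil .nil))) 
(.lf (nat_lit 83581) (.g (nat_lit 3191) (.e (nat_lit 1858) (nat_lit 124) (.e (nat_lit 557100) (nat_lit 13) (.e (nat_lit 172106) (nat_lit 10) (.e (nat_lit 434244) (nat_lit 28) (.e (nat_lit 573458) (nat_lit 9) (.e (nat_lit 7936) (nat_lit 34) (.e (nat_lit 450304) (nat_lit 0) .nil))))))) (.g (nat_lit 5) .nil .nil))))))) (.nd (nat_lit 2) (.nd (nat_lit 3) (.nd (nat_lit 4) (.nd (nat_lit 5) 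
(.lf (nat_lit 83523) (.g (nat_lit 3876) (.e (nat_lit 1858) (nat_lit 124) (.e (nat_lit 557100) (nat_lit 13) (.e (nat_lit 172106) (nat_lit 10) (.e (nat_lit 434231) (nat_lit 23) (.e (nat_lit 532565) (nat_lit 15) (.e (nat_lit 385104) (nat_lit 50) (.e (nat_lit 786444) (nat_lit 15) .nil))))))) (.g (nat_lit 6) .nil .nil))) 
(.lf (nat_lit 83555) (.g (nat_lit 3162) (.e (nat_lit 1858) (nat_lit 124) (.e (nat_lit 557100) (nat_lit 13) (.e (nat_lit 172106) (nat_lit 10) (.e (nat_lit 434238) (nat_lit 25) (.e (nat_lit 548898) (nat_lit 14) (.e (nat_lit 2998) (nat_lit 186) (.e (nat_lit 450304) (nat_lit 0) .nil))))))) (.g (nat_lit 6) .nil .nil)))) (.nd (nat_lit 5) 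
(.lf (nat_lit 83539) (.g (nat_lit 3848) (.e (nat_lit 1858) (nat_lit 124) (.e (nat_lit 557100) (nat_lit 13) (.e (nat_lit 172106) (nat_lit 10) (.e (nat_lit 434231) (nat_lit 23) (.e (nat_lit 532569) (nat_lit 16) (.e (nat_lit 401437) (nat_lit 9) (.e (nat_lit 426402) (nat_lit 15) .nil))))))) (.g (nat_lit 5) .nil .nil))) 
(.lf (nat_lit 83571) (.g (nat_lit 3012) (.e (nat_lit 1858) (nat_lit 124) (.e (nat_lit 557100) (nat_lit 13) (.e (nat_lit 172106) (nat_lit 10) (.e (nat_lit 434244) (nat_lit 28) (.e (nat_lit 573451) (nat_lit 9) (.e (nat_lit 7936) (nat_lit 34) (.e (nat_lit 450304) (nat_lit 0) .nil))))))) (.g (nat_lit 5) .nil .nil))))) (.nd (nat_lit 4) (.nd (nat_lit 5) 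
(.lf (nat_lit 83531) (.g (nat_lit 4800) (.e (nat_lit 1858) (nat_lit 124) (.e (nat_lit 557100) (nat_lit 13) (.e (nat_lit 172106) (nat_lit 10) (.e (nat_lit 434231) (nat_lit 23) (.e (nat_lit 532568) (nat_lit 16) (.e (nat_lit 401437) (nat_lit 9) (.e (nat_lit 426402) (nat_lit 15) .nil))))))) (.g (nat_lit 0) .nil .nil))) 
(.lf (nat_lit 83563) (.g (nat_lit 3397) (.e (nat_lit 1858) (nat_lit 124) (.e (nat_lit 557100) (nat_lit 13) (.e (nat_lit 172106) (nat_lit 10) (.e (nat_lit 434244) (nat_lit 28) (.e (nat_lit 573450) (nat_lit 9) (.e (nat_lit 454) (nat_lit 34) (.e (nat_lit 450304) (nat_lit 0) .nil))))))) (.g (nat_lit 6) .nil .nil)))) (.nd (nat_lit 5) 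
(.lf (nat_lit 83547) (.g (nat_lit 2360) (.e (nat_lit 1858) (nat_lit 124) (.e (nat_lit 557100) (nat_lit 13) (.e (nat_lit 172106) (nat_lit 10) (.e (nat_lit 434238) (nat_lit 25) (.e (nat_lit 548896) (nat_lit 14) (.e (nat_lit 3005) (nat_lit 186) (.e (nat_lit 450304) (nat_lit 0) .nil))))))) (.g (nat_lit 4) .nil .nil))) 
(.lf (nat_lit 83579) (.g (nat_lit 4145) (.e (nat_lit 1858) (nat_lit 124) (.e (nat_lit 557100) (nat_lit 13) (.e (nat_lit 172106) (nat_lit 10) (.e (nat_lit 434244) (nat_lit 28) (.e (nat_lit 573458) (nat_lit 9) (.e (nat_lit 426) (nat_lit 32) (.e (nat_lit 426198) (nat_lit 9) (.e (nat_lit 426402) (nat_lit 15) .nil)))))))) (.g (nat_lit 5) .nil .nil)))))) 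
(.nd (nat_lit 3) (.nd (nat_lit 4) (.nd (nat_lit 5) 
(.lf (nat_lit 83527) (.g (nat_lit 3006) (.e (nat_lit 1858) (nat_lit 124) (.e (nat_lit 557100) (nat_lit 13) (.e (nat_lit 172106) (nat_lit 10) (.e (nat_lit 434231) (nat_lit 23) (.e (nat_lit 532567) (nat_lit 16) (.e (nat_lit 401438) (nat_lit 9) (.e (nat_lit 426364) (nat_lit 15) .nil))))))) (.g (nat_lit 4) .nil .nil))) 
(.lf (nat_lit 83559) (.g (nat_lit 2117) (.e (nat_lit 1858) (nat_lit 124) (.e (nat_lit 557100) (nat_lit 13) (.e (nat_lit 172106) (nat_lit 10) (.e (nat_lit 434238) (nat_lit 25) (.e (nat_lit 548898) (nat_lit 14) (.e (nat_lit 3045) (nat_lit 189) (.e (nat_lit 474880) (nat_lit 0) .nil))))))) (.g (nat_lit 4) .nil .nil)))) (.nd (nat_lit 5) 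
(.lf (nat_lit 83543) (.g (nat_lit 2286) (.e (nat_lit 1858) (nat_lit 124) (.e (nat_lit 557100) (nat_lit 13) (.e (nat_lit 172106) (nat_lit 10) (.e (nat_lit 434238) (nat_lit 25) (.e (nat_lit 548894) (nat_lit 14) .nil))))) .nil)) 
(.lf (nat_lit 83575) (.g (nat_lit 2298) (.e (nat_lit 1858) (nat_lit 124) (.e (nat_lit 557100) (nat_lit 13) (.e (nat_lit 172106) (nat_lit 10) (.e (nat_lit 434244) (nat_lit 28) (.e (nat_lit 573458) (nat_lit 9) (.e (nat_lit 420) (nat_lit 32) (.e (nat_lit 426260) (nat_lit 9) (.e (nat_lit 426401) (nat_lit 15) .nil)))))))) (.g (nat_lit 4) .nil .nil))))) (.nd (nat_lit 4) (.nd (nat_lit 5) 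
(.lf (nat_lit 83535) (.g (nat_lit 4305) (.e (nat_lit 1858) (nat_lit 124) (.e (nat_lit 557100) (nat_lit 13) (.e (nat_lit 172106) (nat_lit 10) (.e (nat_lit 434231) (nat_lit 23) (.e (nat_lit 532569) (nat_lit 16) (.e (nat_lit 401435) (nat_lit 9) (.e (nat_lit 426364) (nat_lit 15) .nil))))))) (.g (nat_lit 7) .nil .nil))) 
(.lf (nat_lit 83567) (.g (nat_lit 2683) (.e (nat_lit 1858) (nat_lit 124) (.e (nat_lit 557100) (nat_lit 13) (.e (nat_lit 172106) (nat_lit 10) (.e (nat_lit 434244) (nat_lit 28) (.e (nat_lit 573451) (nat_lit 9) (.e (nat_lit 11) (nat_lit 0) (.e (nat_lit 7387) (nat_lit 392) (.e (nat_lit 179968) (nat_lit 15) .nil)))))))) (.g (nat_lit 4) .nil .nil)))) (.nd (nat_lit 5) 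
(.lf (nat_lit 83551) (.g (nat_lit 2669) (.e (nat_lit 1858) (nat_lit 124) (.e (nat_lit 557100) (nat_lit 13) (.e (nat_lit 172106) (nat_lit 10) (.e (nat_lit 434238) (nat_lit 25) (.e (nat_lit 548897) (nat_lit 14) (.e (nat_lit 2999) (nat_lit 186) (.e (nat_lit 450304) (nat_lit 0) .nil))))))) (.g (nat_lit 6) .nil .nil))) 
(.lf (nat_lit 83583) (.g (nat_lit 3646) (.e (nat_lit 1858) (nat_lit 124) (.e (nat_lit 557100) (nat_lit 13) (.e (nat_lit 172106) (nat_lit 10) (.e (nat_lit 434244) (nat_lit 28) (.e (nat_lit 573469) (nat_lit 11) (.e (nat_lit 16435) (nat_lit 9) (.e (nat_lit 426402) (nat_lit 15) .nil))))))) (.g (nat_lit 5) .nil .nil)))))))))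

noncomputable def tv1130 : DT := (.nd (nat_lit 0) (.nd (nat_lit 1) (.nd (nat_lit 2) (.nd (nat_lit 3) (.nd (nat_lit 4) (.nd (nat_lit 5) 
(.lf (nat_lit 83584) (.g (nat_lit 4504) (.e (nat_lit 1858) (nat_lit 124) (.e (nat_lit 557100) (nat_lit 13) (.e (nat_lit 172106) (nat_lit 10) (.e (nat_lit 434244) (nat_lit 28) (.e (nat_lit 573469) (nat_lit 11) (.e (nat_lit 16438) (nat_lit 9) (.e (nat_lit 426364) (nat_lit 15) .nil))))))) (.g (nat_lit 6) .nil .nil))) 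
(.lf (nat_lit 83616) (.g (nat_lit 3822) (.e (nat_lit 1858) (nat_lit 124) (.e (nat_lit 557100) (nat_lit 13) (.e (nat_lit 172113) (nat_lit 10) (.e (nat_lit 434245) (nat_lit 28) (.e (nat_lit 573471) (nat_lit 11) (.e (nat_lit 16438) (nat_lit 9) (.e (nat_lit 426402) (nat_lit 15) .nil))))))) (.g (nat_lit 5) .nil .nil)))) (.nd (nat_lit 5) 
(.lf (nat_lit 83600) (.g (nat_lit 2814) (.e (nat_lit 1858) (nat_lit 124) (.e (nat_lit 557100) (nat_lit 13) (.e (nat_lit 172106) (nat_lit 10) (.e (nat_lit 434244) (nat_lit 28) (.e (nat_lit 573471) (nat_lit 11) (.e (nat_lit 16444) (nat_lit 9) (.e (nat_lit 426401) (nat_lit 15) .nil))))))) (.g (nat_lit 5) .nil .nil))) 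
(.lf (nat_lit 83632) (.g (nat_lit 3690) (.e (nat_lit 1858) (nat_lit 124) (.e (nat_lit 557100) (nat_lit 13) (.e (nat_lit 172113) (nat_lit 10) (.e (nat_lit 434248) (nat_lit 28) (.e (nat_lit 573471) (nat_lit 11) (.e (nat_lit 16433) (nat_lit 9) (.e (nat_lit 426363) (nat_lit 15) .nil))))))) (.g (nat_lit 4) .nil .nil))))) (.nd (nat_lit 4) (.nd (nat_lit 5) 
(.lf (nat_lit 83592) (.g (nat_lit 4135) (.e (nat_lit 1858) (nat_lit 124) (.e (nat_lit 557100) (nat_lit 13) (.e (nat_lit 172106) (nat_lit 10) (.e (nat_lit 434244) (nat_lit 28) (.e (nat_lit 573471) (nat_lit 11) (.e (nat_lit 16433) (nat_lit 9) (.e (nat_lit 426360) (nat_lit 15) .nil))))))) (.g (nat_lit 6) .nil .nil))) 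
(.lf (nat_lit 83624) (.g (nat_lit 3445) (.e (nat_lit 1858) (nat_lit 124) (.e (nat_lit 557100) (nat_lit 13) (.e (nat_lit 172113) (nat_lit 10) (.e (nat_lit 434248) (nat_lit 28) (.e (nat_lit 573452) (nat_lit 9) (.e (nat_lit 430) (nat_lit 32) (.e (nat_lit 426190) (nat_lit 9) (.e (nat_lit 426402) (nat_lit 15) .nil)))))))) (.g (nat_lit 4) .nil .nil)))) (.nd (nat_lit 5) 
(.lf (nat_lit 83608) (.g (nat_lit 4537) (.e (nat_lit 1858) (nat_lit 124) (.e (nat_lit 557100) (nat_lit 13) (.e (nat_lit 172113) (nat_lit 10) (.e (nat_lit 434245) (nat_lit 28) (.e (nat_lit 573469) (nat_lit 11) (.e (nat_lit 16438) (nat_lit 9) (.e (nat_lit 426364) (nat_lit 15) .nil))))))) (.g (nat_lit 6) .nil .nil))) 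
(.lf (nat_lit 83640) (.g (nat_lit 3404) (.e (nat_lit 1858) (nat_lit 124) (.e (nat_lit 557100) (nat_lit 13) (.e (nat_lit 172126) (nat_lit 14) (.e (nat_lit 491537) (nat_lit 2) (.e (nat_lit 90185) (nat_lit 17) (.e (nat_lit 237603) (nat_lit 9) (.e (nat_lit 426402) (nat_lit 15) .nil))))))) (.g (nat_lit 4) .nil .nil)))))) (.nd (nat_lit 3) (.nd (nat_lit 4) (.nd (nat_lit 5) 
(.lf (nat_lit 83588) (.g (nat_lit 4490) (.e (nat_lit 1858) (nat_lit 124) (.e (nat_lit 557100) (nat_lit 13) (.e (nat_lit 172106) (nat_lit 10) (.e (nat_lit 434244) (nat_lit 28) (.e (nat_lit 573470) (nat_lit 11) (.e (nat_lit 16438) (nat_lit 9) (.e (nat_lit 426402) (nat_lit 15) .nil))))))) (.g (nat_lit 6) .nil .nil))) 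
(.lf (nat_lit 83620) (.g (nat_lit 3111) (.e (nat_lit 1858) (nat_lit 124) (.e (nat_lit 557100) (nat_lit 13) (.e (nat_lit 172113) (nat_lit 10) (.e (nat_lit 434247) (nat_lit 28) (.e (nat_lit 573457) (nat_lit 9) (.e (nat_lit 430) (nat_lit 32) (.e (nat_lit 426198) (nat_lit 9) (.e (nat_lit 426402) (nat_lit 15) .nil)))))))) (.g (nat_lit 4) .nil .nil)))) (.nd (nat_lit 5) 
(.lf (nat_lit 83604) (.g (nat_lit 3383) (.e (nat_lit 1858) (nat_lit 124) (.e (nat_lit 557100) (nat_lit 13) (.e (nat_lit 172113) (nat_lit 10) (.e (nat_lit 434245) (nat_lit 28) (.e (nat_lit 573451) (nat_lit 9) (.e (nat_lit 430) (nat_lit 32) (.e (nat_lit 426190) (nat_lit 9) (.e (nat_lit 426402) (nat_lit 15) .nil)))))))) (.g (nat_lit 4) .nil .nil))) 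
(.lf (nat_lit 83636) (.g (nat_lit 461) (.e (nat_lit 1858) (nat_lit 124) (.e (nat_lit 557100) (nat_lit 13) (.e (nat_lit 172126) (nat_lit 14) .nil))) .nil)))) (.nd (nat_lit 4) (.nd (nat_lit 5) 
(.lf (nat_lit 83596) (.g (nat_lit 3160) (.e (nat_lit 1858) (nat_lit 124) (.e (nat_lit 557100) (nat_lit 13) (.e (nat_lit 172106) (nat_lit 10) (.e (nat_lit 434244) (nat_lit 28) (.e (nat_lit 573471) (nat_lit 11) (.e (nat_lit 16436) (nat_lit 9) (.e (nat_lit 426364) (nat_lit 15) .nil))))))) (.g (nat_lit 4) .nil .nil))) 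
(.lf (nat_lit 83628) (.g (nat_lit 3219) (.e (nat_lit 1858) (nat_lit 124) (.e (nat_lit 557100) (nat_lit 13) (.e (nat_lit 172113) (nat_lit 10) (.e (nat_lit 434248) (nat_lit 28) (.e (nat_lit 573470) (nat_lit 11) (.e (nat_lit 16435) (nat_lit 9) (.e (nat_lit 426402) (nat_lit 15) .nil))))))) (.g (nat_lit 4) .nil .nil)))) (.nd (nat_lit 5) 
(.lf (nat_lit 83612) (.g (nat_lit 4103) (.e (nat_lit 1858) (nat_lit 124) (.e (nat_lit 557100) (nat_lit 13) (.e (nat_lit 172113) (nat_lit 10) (.e (nat_lit 434245) (nat_lit 28) (.e (nat_lit 573470) (nat_lit 11) (.e (nat_lit 16438) (nat_lit 9) (.e (nat_lit 426402) (nat_lit 15) .nil))))))) (.g (nat_lit 6) .nil .nil))) 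
(.lf (nat_lit 83644) (.g (nat_lit 2520) (.e (nat_lit 1858) (nat_lit 124) (.e (nat_lit 557100) (nat_lit 13) (.e (nat_lit 172126) (nat_lit 14) (.e (nat_lit 491540) (nat_lit 3) (.e (nat_lit 98369) (nat_lit 28) (.e (nat_lit 450304) (nat_lit 0) .nil)))))) (.g (nat_lit 5) .nil .nil))))))) (.nd (nat_lit 2) (.nd (nat_lit 3) (.nd (nat_lit 4) (.nd (nat_lit 5) 
(.lf (nat_lit 83586) (.g (nat_lit 3670) (.e (nat_lit 1858) (nat_lit 124) (.e (nat_lit 557100) (nat_lit 13) (.e (nat_lit 172106) (nat_lit 10) (.e (nat_lit 434244) (nat_lit 28) (.e (nat_lit 573470) (nat_lit 11) (.e (nat_lit 16435) (nat_lit 9) (.e (nat_lit 426402) (nat_lit 15) .nil))))))) (.g (nat_lit 4) .nil .nil))) 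
(.lf (nat_lit 83618) (.g (nat_lit 3323) (.e (nat_lit 1858) (nat_lit 124) (.e (nat_lit 557100) (nat_lit 13) (.e (nat_lit 172113) (nat_lit 10) (.e (nat_lit 434247) (nat_lit 28) (.e (nat_lit 573456) (nat_lit 9) (.e (nat_lit 430) (nat_lit 32) (.e (nat_lit 426198) (nat_lit 9) (.e (nat_lit 426402) (nat_lit 15) .nil)))))))) (.g (nat_lit 4) .nil .nil)))) (.nd (nat_lit 5) 
(.lf (nat_lit 83602) (.g (nat_lit 396) (.e (nat_lit 1858) (nat_lit 124) (.e (nat_lit 557100) (nat_lit 13) (.e (nat_lit 172113) (nat_lit 10) .nil))) .nil)) 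
(.lf (nat_lit 83634) (.g (nat_lit 2394) (.e (nat_lit 1858) (nat_lit 124) (.e (nat_lit 557100) (nat_lit 13) (.e (nat_lit 172120) (nat_lit 12) (.e (nat_lit 475185) (nat_lit 29) (.e (nat_lit 557107) (nat_lit 15) (.e (nat_lit 196352) (nat_lit 0) .nil)))))) (.g (nat_lit 4) .nil .nil))))) (.nd (nat_lit 4) (.nd (nat_lit 5) 
(.lf (nat_lit 83594) (.g (nat_lit 2902) (.e (nat_lit 1858) (nat_lit 124) (.e (nat_lit 557100) (nat_lit 13) (.e (nat_lit 172106) (nat_lit 10) (.e (nat_lit 434244) (nat_lit 28) (.e (nat_lit 573471) (nat_lit 11) (.e (nat_lit 16434) (nat_lit 9) (.e (nat_lit 426364) (nat_lit 15) .nil))))))) (.g (nat_lit 4) .nil .nil))) 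
(.lf (nat_lit 83626) (.g (nat_lit 4786) (.e (nat_lit 1858) (nat_lit 124) (.e (nat_lit 557100) (nat_lit 13) (.e (nat_lit 172113) (nat_lit 10) (.e (nat_lit 434248) (nat_lit 28) (.e (nat_lit 573469) (nat_lit 11) (.e (nat_lit 16438) (nat_lit 9) (.e (nat_lit 426364) (nat_lit 15) .nil))))))) (.g (nat_lit 6) .nil .nil)))) (.nd (nat_lit 5) 
(.lf (nat_lit 83610) (.g (nat_lit 3013) (.e (nat_lit 1858) (nat_lit 124) (.e (nat_lit 557100) (nat_lit 13) (.e (nat_lit 172113) (nat_lit 10) (.e (nat_lit 434245) (nat_lit 28) (.e (nat_lit 573470) (nat_lit 11) (.e (nat_lit 16435) (nat_lit 9) (.e (nat_lit 426402) (nat_lit 15) .nil))))))) (.g (nat_lit 4) .nil .nil))) 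
(.lf (nat_lit 83642) (.g (nat_lit 2258) (.e (nat_lit 1858) (nat_lit 124) (.e (nat_lit 557100) (nat_lit 13) (.e (nat_lit 172126) (nat_lit 14) (.e (nat_lit 491539) (nat_lit 3) (.e (nat_lit 98370) (nat_lit 28) .nil))))) .nil))))) (.nd (nat_lit 3) (.nd (nat_lit 4) (.nd (nat_lit 5) 
(.lf (nat_lit 83590) (.g (nat_lit 3799) (.e (nat_lit 1858) (nat_lit 124) (.e (nat_lit 557100) (nat_lit 13) (.e (nat_lit 172106) (nat_lit 10) (.e (nat_lit 434244) (nat_lit 28) (.e (nat_lit 573471) (nat_lit 11) (.e (nat_lit 16392) (nat_lit 0) (.e (nat_lit 7342) (nat_lit 388) (.e (nat_lit 59) (nat_lit 0) .nil)))))))) (.g (nat_lit 6) .nil .nil))) 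
(.lf (nat_lit 83622) (.g (nat_lit 5422) (.e (nat_lit 1858) (nat_lit 124) (.e (nat_lit 557100) (nat_lit 13) (.e (nat_lit 172113) (nat_lit 10) (.e (nat_lit 434247) (nat_lit 28) (.e (nat_lit 573469) (nat_lit 11) (.e (nat_lit 16438) (nat_lit 9) (.e (nat_lit 426364) (nat_lit 15) .nil))))))) (.g (nat_lit 6) .nil .nil)))) (.nd (nat_lit 5) 
(.lf (nat_lit 83606) (.g (nat_lit 3372) (.e (nat_lit 1858) (nat_lit 124) (.e (nat_lit 557100) (nat_lit 13) (.e (nat_lit 172113) (nat_lit 10) (.e (nat_lit 434245) (nat_lit 28) (.e (nat_lit 573458) (nat_lit 9) (.e (nat_lit 420) (nat_lit 32) (.e (nat_lit 426262) (nat_lit 9) (.e (nat_lit 426401) (nat_lit 15) .nil)))))))) (.g (nat_lit 4) .nil .nil))) 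
(.lf (nat_lit 83638) (.g (nat_lit 2872) (.e (nat_lit 1858) (nat_lit 124) (.e (nat_lit 557100) (nat_lit 13) (.e (nat_lit 172126) (nat_lit 14) (.e (nat_lit 491537) (nat_lit 2) (.e (nat_lit 90134) (nat_lit 9) .nil))))) .nil)))) (.nd (nat_lit 4) (.nd (nat_lit 5) 
(.lf (nat_lit 83598) (.g (nat_lit 3536) (.e (nat_lit 1858) (nat_lit 124) (.e (nat_lit 557100) (nat_lit 13) (.e (nat_lit 172106) (nat_lit 10) (.e (nat_lit 434244) (nat_lit 28) (.e (nat_lit 573471) (nat_lit 11) (.e (nat_lit 16438) (nat_lit 9) (.e (nat_lit 426402) (nat_lit 15) .nil))))))) (.g (nat_lit 5) .nil .nil))) 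
(.lf (nat_lit 83630) (.g (nat_lit 4387) (.e (nat_lit 1858) (nat_lit 124) (.e (nat_lit 557100) (nat_lit 13) (.e (nat_lit 172113) (nat_lit 10) (.e (nat_lit 434248) (nat_lit 28) (.e (nat_lit 573470) (nat_lit 11) (.e (nat_lit 16438) (nat_lit 9) (.e (nat_lit 426402) (nat_lit 15) .nil))))))) (.g (nat_lit 6) .nil .nil)))) (.nd (nat_lit 5) 
(.lf (nat_lit 83614) (.g (nat_lit 4010) (.e (nat_lit 1858) (nat_lit 124) (.e (nat_lit 557100) (nat_lit 13) (.e (nat_lit 172113) (nat_lit 10) (.e (nat_lit 434245) (nat_lit 28) (.e (nat_lit 573471) (nat_lit 11) (.e (nat_lit 16433) (nat_lit 9) (.e (nat_lit 426363) (nat_lit 15) .nil))))))) (.g (nat_lit 5) .nil .nil))) 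
(.lf (nat_lit 83646) (.g (nat_lit 2422) (.e (nat_lit 1858) (nat_lit 124) (.e (nat_lit 557100) (nat_lit 13) (.e (nat_lit 172126) (nat_lit 14) (.e (nat_lit 491540) (nat_lit 3) (.e (nat_lit 98380) (nat_lit 31) (.e (nat_lit 474880) (nat_lit 0) .nil)))))) (.g (nat_lit 5) .nil .nil)))))))) (.nd (nat_lit 1) (.nd (nat_lit 2) (.nd (nat_lit 3) (.nd (nat_lit 4) (.nd (nat_lit 5) 
(.lf (nat_lit 83585) (.g (nat_lit 4836) (.e (nat_lit 1858) (nat_lit 124) (.e (nat_lit 557100) (nat_lit 13) (.e (nat_lit 172106) (nat_lit 10) (.e (nat_lit 434244) (nat_lit 28) (.e (nat_lit 573469) (nat_lit 11) (.e (nat_lit 16438) (nat_lit 9) (.e (nat_lit 426402) (nat_lit 15) .nil))))))) (.g (nat_lit 6) .nil .nil))) 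
(.lf (nat_lit 83617) (.g (nat_lit 3344) (.e (nat_lit 1858) (nat_lit 124) (.e (nat_lit 557100) (nat_lit 13) (.e (nat_lit 172113) (nat_lit 10) (.e (nat_lit 434247) (nat_lit 28) (.e (nat_lit 573456) (nat_lit 9) (.e (nat_lit 430) (nat_lit 32) (.e (nat_lit 426190) (nat_lit 9) (.e (nat_lit 426402) (nat_lit 15) .nil)))))))) (.g (nat_lit 4) .nil .nil)))) (.nd (nat_lit 5) 
(.lf (nat_lit 83601) (.g (nat_lit 2149) (.e (nat_lit 1858) (nat_lit 124) (.e (nat_lit 557100) (nat_lit 13) (.e (nat_lit 172106) (nat_lit 10) (.e (nat_lit 434244) (nat_lit 28) (.e (nat_lit 573471) (nat_lit 11) (.e (nat_lit 16444) (nat_lit 9) (.e (nat_lit 433920) (nat_lit 15) .nil))))))) (.g (nat_lit 4) .nil .nil))) 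
(.lf (nat_lit 83633) (.g (nat_lit 818) (.e (nat_lit 1858) (nat_lit 124) (.e (nat_lit 557100) (nat_lit 13) (.e (nat_lit 172115) (nat_lit 10) .nil))) .nil)))) (.nd (nat_lit 4) (.nd (nat_lit 5) 
(.lf (nat_lit 83593) (.g (nat_lit 4547) (.e (nat_lit 1858) (nat_lit 124) (.e (nat_lit 557100) (nat_lit 13) (.e (nat_lit 172106) (nat_lit 10) (.e (nat_lit 434244) (nat_lit 28) (.e (nat_lit 573471) (nat_lit 11) (.e (nat_lit 16433) (nat_lit 9) (.e (nat_lit 426364) (nat_lit 15) .nil))))))) (.g (nat_lit 6) .nil .nil))) 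
(.lf (nat_lit 83625) (.g (nat_lit 3455) (.e (nat_lit 1858) (nat_lit 124) (.e (nat_lit 557100) (nat_lit 13) (.e (nat_lit 172113) (nat_lit 10) (.e (nat_lit 434248) (nat_lit 28) (.e (nat_lit 573452) (nat_lit 9) (.e (nat_lit 430) (nat_lit 32) (.e (nat_lit 426198) (nat_lit 9) (.e (nat_lit 426402) (nat_lit 15) .nil)))))))) (.g (nat_lit 4) .nil .nil)))) (.nd (nat_lit 5) 
(.lf (nat_lit 83609) (.g (nat_lit 4218) (.e (nat_lit 1858) (nat_lit 124) (.e (nat_lit 557100) (nat_lit 13) (.e (nat_lit 172113) (nat_lit 10) (.e (nat_lit 434245) (nat_lit 28) (.e (nat_lit 573469) (nat_lit 11) (.e (nat_lit 16438) (nat_lit 9) (.e (nat_lit 426402) (nat_lit 15) .nil))))))) (.g (nat_lit 6) .nil .nil))) 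
(.lf (nat_lit 83641) (.g (nat_lit 1731) (.e (nat_lit 1858) (nat_lit 124) (.e (nat_lit 557100) (nat_lit 13) (.e (nat_lit 172126) (nat_lit 14) (.e (nat_lit 491539) (nat_lit 3) .nil)))) .nil))))) (.nd (nat_lit 3) (.nd (nat_lit 4) (.nd (nat_lit 5) 
(.lf (nat_lit 83589) (.g (nat_lit 2054) (.e (nat_lit 1858) (nat_lit 124) (.e (nat_lit 557100) (nat_lit 13) (.e (nat_lit 172106) (nat_lit 10) (.e (nat_lit 434244) (nat_lit 28) (.e (nat_lit 573471) (nat_lit 11) .nil))))) .nil)) 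
(.lf (nat_lit 83621) (.g (nat_lit 3078) (.e (nat_lit 1858) (nat_lit 124) (.e (nat_lit 557100) (nat_lit 13) (.e (nat_lit 172113) (nat_lit 10) (.e (nat_lit 434247) (nat_lit 28) (.e (nat_lit 573469) (nat_lit 11) (.e (nat_lit 16435) (nat_lit 9) (.e (nat_lit 426402) (nat_lit 15) .nil))))))) (.g (nat_lit 4) .nil .nil)))) (.nd (nat_lit 5) 
(.lf (nat_lit 83605) (.g (nat_lit 3404) (.e (nat_lit 1858) (nat_lit 124) (.e (nat_lit 557100) (nat_lit 13) (.e (nat_lit 172113) (nat_lit 10) (.e (nat_lit 434245) (nat_lit 28) (.e (nat_lit 573451) (nat_lit 9) (.e (nat_lit 430) (nat_lit 32) (.e (nat_lit 426198) (nat_lit 9) (.e (nat_lit 426402) (nat_lit 15) .nil)))))))) (.g (nat_lit 4) .nil .nil))) 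
(.lf (nat_lit 83637) (.g (nat_lit 1500) (.e (nat_lit 1858) (nat_lit 124) (.e (nat_lit 557100) (nat_lit 13) (.e (nat_lit 172126) (nat_lit 14) (.e (nat_lit 491537) (nat_lit 2) .nil)))) .nil)))) (.nd (nat_lit 4) (.nd (nat_lit 5) 
(.lf (nat_lit 83597) (.g (nat_lit 3574) (.e (nat_lit 1858) (nat_lit 124) (.e (nat_lit 557100) (nat_lit 13) (.e (nat_lit 172106) (nat_lit 10) (.e (nat_lit 434244) (nat_lit 28) (.e (nat_lit 573471) (nat_lit 11) (.e (nat_lit 16438) (nat_lit 9) (.e (nat_lit 426364) (nat_lit 15) .nil))))))) (.g (nat_lit 5) .nil .nil))) 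
(.lf (nat_lit 83629) (.g (nat_lit 4508) (.e (nat_lit 1858) (nat_lit 124) (.e (nat_lit 557100) (nat_lit 13) (.e (nat_lit 172113) (nat_lit 10) (.e (nat_lit 434248) (nat_lit 28) (.e (nat_lit 573470) (nat_lit 11) (.e (nat_lit 16438) (nat_lit 9) (.e (nat_lit 426364) (nat_lit 15) .nil))))))) (.g (nat_lit 6) .nil .nil)))) (.nd (nat_lit 5) 
(.lf (nat_lit 83613) (.g (nat_lit 5017) (.e (nat_lit 1858) (nat_lit 124) (.e (nat_lit 557100) (nat_lit 13) (.e (nat_lit 172113) (nat_lit 10) (.e (nat_lit 434245) (nat_lit 28) (.e (nat_lit 573471) (nat_lit 11) (.e (nat_lit 16433) (nat_lit 9) (.e (nat_lit 426360) (nat_lit 15) .nil))))))) (.g (nat_lit 6) .nil .nil))) 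
(.lf (nat_lit 83645) (.g (nat_lit 2965) (.e (nat_lit 1858) (nat_lit 124) (.e (nat_lit 557100) (nat_lit 13) (.e (nat_lit 172126) (nat_lit 14) (.e (nat_lit 491540) (nat_lit 3) (.e (nat_lit 98370) (nat_lit 28) (.e (nat_lit 450304) (nat_lit 0) .nil)))))) (.g (nat_lit 5) .nil .nil))))))) (.nd (nat_lit 2) (.nd (nat_lit 3) (.nd (nat_lit 4) (.nd (nat_lit 5) 
(.lf (nat_lit 83587) (.g (nat_lit 3951) (.e (nat_lit 1858) (nat_lit 124) (.e (nat_lit 557100) (nat_lit 13) (.e (nat_lit 172106) (nat_lit 10) (.e (nat_lit 434244) (nat_lit 28) (.e (nat_lit 573470) (nat_lit 11) (.e (nat_lit 16438) (nat_lit 9) (.e (nat_lit 426364) (nat_lit 15) .nil))))))) (.g (nat_lit 5) .nil .nil))) 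
(.lf (nat_lit 83619) (.g (nat_lit 3185) (.e (nat_lit 1858) (nat_lit 124) (.e (nat_lit 557100) (nat_lit 13) (.e (nat_lit 172113) (nat_lit 10) (.e (nat_lit 434247) (nat_lit 28) (.e (nat_lit 573457) (nat_lit 9) (.e (nat_lit 430) (nat_lit 32) (.e (nat_lit 426190) (nat_lit 9) (.e (nat_lit 426402) (nat_lit 15) .nil)))))))) (.g (nat_lit 4) .nil .nil)))) (.nd (nat_lit 5) 
(.lf (nat_lit 83603) (.g (nat_lit 1181) (.e (nat_lit 1858) (nat_lit 124) (.e (nat_lit 557100) (nat_lit 13) (.e (nat_lit 172113) (nat_lit 10) (.e (nat_lit 434245) (nat_lit 28) .nil)))) .nil)) 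
(.lf (nat_lit 83635) (.g (nat_lit 2431) (.e (nat_lit 1858) (nat_lit 124) (.e (nat_lit 557100) (nat_lit 13) (.e (nat_lit 172120) (nat_lit 12) (.e (nat_lit 475185) (nat_lit 29) (.e (nat_lit 557109) (nat_lit 15) (.e (nat_lit 196352) (nat_lit 0) .nil)))))) (.g (nat_lit 5) .nil .nil))))) (.nd (nat_lit 4) (.nd (nat_lit 5) 
(.lf (nat_lit 83595) (.g (nat_lit 3620) (.e (nat_lit 1858) (nat_lit 124) (.e (nat_lit 557100) (nat_lit 13) (.e (nat_lit 172106) (nat_lit 10) (.e (nat_lit 434244) (nat_lit 28) (.e (nat_lit 573471) (nat_lit 11) (.e (nat_lit 16435) (nat_lit 9) (.e (nat_lit 426402) (nat_lit 15) .nil))))))) (.g (nat_lit 5) .nil .nil))) 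
(.lf (nat_lit 83627) (.g (nat_lit 4467) (.e (nat_lit 1858) (nat_lit 124) (.e (nat_lit 557100) (nat_lit 13) (.e (nat_lit 172113) (nat_lit 10) (.e (nat_lit 434248) (nat_lit 28) (.e (nat_lit 573469) (nat_lit 11) (.e (nat_lit 16438) (nat_lit 9) (.e (nat_lit 426402) (nat_lit 15) .nil))))))) (.g (nat_lit 6) .nil .nil)))) (.nd (nat_lit 5) 
(.lf (nat_lit 83611) (.g (nat_lit 4224) (.e (nat_lit 1858) (nat_lit 124) (.e (nat_lit 557100) (nat_lit 13) (.e (nat_lit 172113) (nat_lit 10) (.e (nat_lit 434245) (nat_lit 28) (.e (nat_lit 573470) (nat_lit 11) (.e (nat_lit 16438) (nat_lit 9) (.e (nat_lit 426364) (nat_lit 15) .nil))))))) (.g (nat_lit 6) .nil .nil))) 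
(.lf (nat_lit 83643) (.g (nat_lit 4257) (.e (nat_lit 1858) (nat_lit 124) (.e (nat_lit 557100) (nat_lit 13) (.e (nat_lit 172126) (nat_lit 14) (.e (nat_lit 491540) (nat_lit 3) (.e (nat_lit 98367) (nat_lit 27) (.e (nat_lit 434183) (nat_lit 8) (.e (nat_lit 59) (nat_lit 0) .nil))))))) (.g (nat_lit 5) .nil .nil)))))) (.nd (nat_lit 3) (.nd (nat_lit 4) (.nd (nat_lit 5) 
(.lf (nat_lit 83591) (.g (nat_lit 2748) (.e (nat_lit 1858) (nat_lit 124) (.e (nat_lit 557100) (nat_lit 13) (.e (nat_lit 172106) (nat_lit 10) (.e (nat_lit 434244) (nat_lit 28) (.e (nat_lit 573471) (nat_lit 11) (.e (nat_lit 16431) (nat_lit 9) (.e (nat_lit 426364) (nat_lit 15) .nil))))))) (.g (nat_lit 4) .nil .nil))) 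
(.lf (nat_lit 83623) (.g (nat_lit 5101) (.e (nat_lit 1858) (nat_lit 124) (.e (nat_lit 557100) (nat_lit 13) (.e (nat_lit 172113) (nat_lit 10) (.e (nat_lit 434247) (nat_lit 28) (.e (nat_lit 573469) (nat_lit 11) (.e (nat_lit 16438) (nat_lit 9) (.e (nat_lit 426402) (nat_lit 15) .nil))))))) (.g (nat_lit 6) .nil .nil)))) (.nd (nat_lit 5) 
(.lf (nat_lit 83607) (.g (nat_lit 2859) (.e (nat_lit 1858) (nat_lit 124) (.e (nat_lit 557100) (nat_lit 13) (.e (nat_lit 172113) (nat_lit 10) (.e (nat_lit 434245) (nat_lit 28) (.e (nat_lit 573469) (nat_lit 11) (.e (nat_lit 16435) (nat_lit 9) (.e (nat_lit 426402) (nat_lit 15) .nil))))))) (.g (nat_lit 4) .nil .nil))) 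
(.lf (nat_lit 83639) (.g (nat_lit 2211) (.e (nat_lit 1858) (nat_lit 124) (.e (nat_lit 557100) (nat_lit 13) (.e (nat_lit 172126) (nat_lit 14) (.e (nat_lit 491537) (nat_lit 2) (.e (nat_lit 90170) (nat_lit 13) (.e (nat_lit 172095) (nat_lit 9) (.e (nat_lit 433920) (nat_lit 15) .nil))))))) (.g (nat_lit 4) .nil .nil))))) (.nd (nat_lit 4) (.nd (nat_lit 5) 
(.lf (nat_lit 83599) (.g (nat_lit 3424) (.e (nat_lit 1858) (nat_lit 124) (.e (nat_lit 557100) (nat_lit 13) (.e (nat_lit 172106) (nat_lit 10) (.e (nat_lit 434244) (nat_lit 28) (.e (nat_lit 573471) (nat_lit 11) (.e (nat_lit 16439) (nat_lit 9) (.e (nat_lit 433920) (nat_lit 15) .nil))))))) (.g (nat_lit 6) .nil .nil))) 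
(.lf (nat_lit 83631) (.g (nat_lit 4498) (.e (nat_lit 1858) (nat_lit 124) (.e (nat_lit 557100) (nat_lit 13) (.e (nat_lit 172113) (nat_lit 10) (.e (nat_lit 434248) (nat_lit 28) (.e (nat_lit 573471) (nat_lit 11) (.e (nat_lit 16433) (nat_lit 9) (.e (nat_lit 426360) (nat_lit 15) .nil))))))) (.g (nat_lit 5) .nil .nil)))) (.nd (nat_lit 5) 
(.lf (nat_lit 83615) (.g (nat_lit 4183) (.e (nat_lit 1858) (nat_lit 124) (.e (nat_lit 557100) (nat_lit 13) (.e (nat_lit 172113) (nat_lit 10) (.e (nat_lit 434245) (nat_lit 28) (.e (nat_lit 573471) (nat_lit 11) (.e (nat_lit 16438) (nat_lit 9) (.e (nat_lit 426364) (nat_lit 15) .nil))))))) (.g (nat_lit 5) .nil .nil))) 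
(.lf (nat_lit 83647) (.g (nat_lit 2557) (.e (nat_lit 1858) (nat_lit 124) (.e (nat_lit 557100) (nat_lit 13) (.e (nat_lit 172126) (nat_lit 14) (.e (nat_lit 491540) (nat_lit 3) (.e (nat_lit 98381) (nat_lit 31) (.e (nat_lit 474880) (nat_lit 0) .nil)))))) (.g (nat_lit 5) .nil .nil)))))))))

noncomputable def tv1131 : DT := (.nd (nat_lit 0) (.nd (nat_lit 1) (.nd (nat_lit 2) (.nd (nat_lit 3) (.nd (nat_lit 4) (.nd (nat_lit 5) 
(.lf (nat_lit 83648) (.g (nat_lit 818) (.e (nat_lit 1858) (nat_lit 124) (.e (nat_lit 557100) (nat_lit 13) (.e (nat_lit 172137) (nat_lit 15) .nil))) .nil)) 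
(.lf (nat_lit 83680) (.g (nat_lit 2672) (.e (nat_lit 1858) (nat_lit 124) (.e (nat_lit 557101) (nat_lit 13) (.e (nat_lit 172097) (nat_lit 9) (.e (nat_lit 426125) (nat_lit 2) (.e (nat_lit 196661) (nat_lit 12) (.e (nat_lit 57722) (nat_lit 178) (.e (nat_lit 123166) (nat_lit 256) (.e (nat_lit 11) (nat_lit 0) .nil)))))))) (.g (nat_lit 4) .nil .nil)))) (.nd (nat_lit 5) 
(.lf (nat_lit 83664) (.g (nat_lit 4363) (.e (nat_lit 1858) (nat_lit 124) (.e (nat_lit 557101) (nat_lit 13) (.e (nat_lit 172097) (nat_lit 9) (.e (nat_lit 426125) (nat_lit 2) (.e (nat_lit 196661) (nat_lit 12) (.e (nat_lit 57712) (nat_lit 176) (.e (nat_lit 1374) (nat_lit 104) (.e (nat_lit 303147) (nat_lit 15) .nil)))))))) (.g (nat_lit 0) .nil .nil))) 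
(.lf (nat_lit 83696) (.g (nat_lit 2159) (.e (nat_lit 1858) (nat_lit 124) (.e (nat_lit 557101) (nat_lit 13) (.e (nat_lit 172097) (nat_lit 9) (.e (nat_lit 426125) (nat_lit 2) (.e (nat_lit 196666) (nat_lit 13) (.e (nat_lit 65574) (nat_lit 4) (.e (nat_lit 123198) (nat_lit 266) (.e (nat_lit 57357) (nat_lit 0) .nil)))))))) (.g (nat_lit 4) .nil .nil))))) (.nd (nat_lit 4) (.nd (nat_lit 5) 
(.lf (nat_lit 83656) (.g (nat_lit 2985) (.e (nat_lit 1858) (nat_lit 124) (.e (nat_lit 557100) (nat_lit 13) (.e (nat_lit 179968) (nat_lit 20) (.e (nat_lit 114714) (nat_lit 22) (.e (nat_lit 90157) (nat_lit 11) (.e (nat_lit 24662) (nat_lit 14) (.e (nat_lit 401463) (nat_lit 15) .nil))))))) (.g (nat_lit 4) .nil .nil))) 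
(.lf (nat_lit 83688) (.g (nat_lit 3397) (.e (nat_lit 1858) (nat_lit 124) (.e (nat_lit 557101) (nat_lit 13) (.e (nat_lit 172097) (nat_lit 9) (.e (nat_lit 426125) (nat_lit 2) (.e (nat_lit 196666) (nat_lit 13) (.e (nat_lit 65553) (nat_lit 0) (.e (nat_lit 2006) (nat_lit 138) (.e (nat_lit 671748) (nat_lit 0) (.e (nat_lit 1047) (nat_lit 81) .nil))))))))) (.g (nat_lit 5) .nil .nil)))) (.nd (nat_lit 5) 
(.lf (nat_lit 83672) (.g (nat_lit 2960) (.e (nat_lit 1858) (nat_lit 124) (.e (nat_lit 557101) (nat_lit 13) (.e (nat_lit 172097) (nat_lit 9) (.e (nat_lit 426125) (nat_lit 2) (.e (nat_lit 196661) (nat_lit 12) (.e (nat_lit 57718) (nat_lit 176) (.e (nat_lit 1385) (nat_lit 105) (.e (nat_lit 311348) (nat_lit 15) .nil)))))))) (.g (nat_lit 5) .nil .nil))) 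
(.lf (nat_lit 83704) (.g (nat_lit 3399) (.e (nat_lit 1858) (nat_lit 124) (.e (nat_lit 557101) (nat_lit 13) (.e (nat_lit 172097) (nat_lit 9) (.e (nat_lit 426140) (nat_lit 3) (.e (nat_lit 204821) (nat_lit 17) (.e (nat_lit 6114) (nat_lit 332) (.e (nat_lit 1378) (nat_lit 104) (.e (nat_lit 311040) (nat_lit 15) .nil)))))))) (.g (nat_lit 7) .nil .nil)))))) 
(.nd (nat_lit 3) (.nd (nat_lit 4) (.nd (nat_lit 5) 
(.lf (nat_lit 83652) (.g (nat_lit 3454) (.e (nat_lit 1858) (nat_lit 124) (.e (nat_lit 557100) (nat_lit 13) (.e (nat_lit 172138) (nat_lit 15) (.e (nat_lit 2175) (nat_lit 143) (.e (nat_lit 712747) (nat_lit 28) (.e (nat_lit 434286) (nat_lit 42) (.e (nat_lit 688178) (nat_lit 16) (.e (nat_lit 65552) (nat_lit 0) .nil)))))))) (.g (nat_lit 4) .nil .nil))) 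
(.lf (nat_lit 83684) (.g (nat_lit 2872) (.e (nat_lit 1858) (nat_lit 124) (.e (nat_lit 557101) (nat_lit 13) (.e (nat_lit 172097) (nat_lit 9) (.e (nat_lit 426125) (nat_lit 2) (.e (nat_lit 196661) (nat_lit 12) (.e (nat_lit 65280) (nat_lit 208) (.e (nat_lit 245504) (nat_lit 15) .nil))))))) (.g (nat_lit 5) .nil .nil)))) (.nd (nat_lit 5) 
(.lf (nat_lit 83668) (.g (nat_lit 2463) (.e (nat_lit 1858) (nat_lit 124) (.e (nat_lit 557101) (nat_lit 13) (.e (nat_lit 172097) (nat_lit 9) (.e (nat_lit 426125) (nat_lit 2) (.e (nat_lit 196661) (nat_lit 12) (.e (nat_lit 57713) (nat_lit 176) (.e (nat_lit 1386) (nat_lit 105) (.e (nat_lit 311348) (nat_lit 15) .nil)))))))) (.g (nat_lit 4) .nil .nil))) 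
(.lf (nat_lit 83700) (.g (nat_lit 4619) (.e (nat_lit 1858) (nat_lit 124) (.e (nat_lit 557101) (nat_lit 13) (.e (nat_lit 172097) (nat_lit 9) (.e (nat_lit 426140) (nat_lit 3) (.e (nat_lit 204821) (nat_lit 17) (.e (nat_lit 6114) (nat_lit 332) (.e (nat_lit 1374) (nat_lit 104) (.e (nat_lit 303147) (nat_lit 15) .nil)))))))) (.g (nat_lit 0) .nil .nil))))) (.nd (nat_lit 4) (.nd (nat_lit 5) 
(.lf (nat_lit 83660) (.g (nat_lit 3409) (.e (nat_lit 1858) (nat_lit 124) (.e (nat_lit 557101) (nat_lit 13) (.e (nat_lit 172097) (nat_lit 9) (.e (nat_lit 426125) (nat_lit 2) (.e (nat_lit 196630) (nat_lit 9) (.e (nat_lit 1667) (nat_lit 116) (.e (nat_lit 401437) (nat_lit 9) (.e (nat_lit 426402) (nat_lit 15) .nil)))))))) (.g (nat_lit 5) .nil .nil))) 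
(.lf (nat_lit 83692) (.g (nat_lit 2912) (.e (nat_lit 1858) (nat_lit 124) (.e (nat_lit 557101) (nat_lit 13) (.e (nat_lit 172097) (nat_lit 9) (.e (nat_lit 426125) (nat_lit 2) (.e (nat_lit 196666) (nat_lit 13) (.e (nat_lit 65574) (nat_lit 4) (.e (nat_lit 123195) (nat_lit 266) (.e (nat_lit 57355) (nat_lit 0) .nil)))))))) (.g (nat_lit 5) .nil .nil)))) (.nd (nat_lit 5) 
(.lf (nat_lit 83676) (.g (nat_lit 3528) (.e (nat_lit 1858) (nat_lit 124) (.e (nat_lit 557101) (nat_lit 13) (.e (nat_lit 172097) (nat_lit 9) (.e (nat_lit 426125) (nat_lit 2) (.e (nat_lit 196661) (nat_lit 12) (.e (nat_lit 57721) (nat_lit 177) (.e (nat_lit 57864) (nat_lit 256) (.e (nat_lit 60) (nat_lit 0) .nil)))))))) (.g (nat_lit 0) .nil .nil))) 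
(.lf (nat_lit 83708) (.g (nat_lit 3846) (.e (nat_lit 1858) (nat_lit 124) (.e (nat_lit 557101) (nat_lit 13) (.e (nat_lit 172097) (nat_lit 9) (.e (nat_lit 426140) (nat_lit 3) (.e (nat_lit 204821) (nat_lit 17) (.e (nat_lit 6136) (nat_lit 332) (.e (nat_lit 1386) (nat_lit 105) (.e (nat_lit 311348) (nat_lit 15) .nil)))))))) (.g (nat_lit 0) .nil .nil))))))) 
(.nd (nat_lit 2) (.nd (nat_lit 3) (.nd (nat_lit 4) (.nd (nat_lit 5) 
(.lf (nat_lit 83650) (.g (nat_lit 1319) (.e (nat_lit 1858) (nat_lit 124) (.e (nat_lit 557100) (nat_lit 13) (.e (nat_lit 172138) (nat_lit 15) (.e (nat_lit 2175) (nat_lit 143) .nil)))) .nil)) 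
(.lf (nat_lit 83682) (.g (nat_lit 2218) (.e (nat_lit 1858) (nat_lit 124) (.e (nat_lit 557101) (nat_lit 13) (.e (nat_lit 172097) (nat_lit 9) (.e (nat_lit 426125) (nat_lit 2) (.e (nat_lit 196661) (nat_lit 12) (.e (nat_lit 57722) (nat_lit 178) (.e (nat_lit 123166) (nat_lit 256) (.e (nat_lit 7936) (nat_lit 0) .nil)))))))) (.g (nat_lit 4) .nil .nil)))) (.nd (nat_lit 5) 
(.lf (nat_lit 83666) (.g (nat_lit 4043) (.e (nat_lit 1858) (nat_lit 124) (.e (nat_lit 557101) (nat_lit 13) (.e (nat_lit 172097) (nat_lit 9) (.e (nat_lit 426125) (nat_lit 2) (.e (nat_lit 196661) (nat_lit 12) (.e (nat_lit 57712) (nat_lit 176) (.e (nat_lit 1378) (nat_lit 104) (.e (nat_lit 303147) (nat_lit 15) .nil)))))))) (.g (nat_lit 0) .nil .nil))) 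
(.lf (nat_lit 83698) (.g (nat_lit 1807) (.e (nat_lit 1858) (nat_lit 124) (.e (nat_lit 557101) (nat_lit 13) (.e (nat_lit 172097) (nat_lit 9) (.e (nat_lit 426140) (nat_lit 3) (.e (nat_lit 204821) (nat_lit 17) .nil))))) .nil)))) (.nd (nat_lit 4) (.nd (nat_lit 5) 
(.lf (nat_lit 83658) (.g (nat_lit 4268) (.e (nat_lit 1858) (nat_lit 124) (.e (nat_lit 557100) (nat_lit 13) (.e (nat_lit 179968) (nat_lit 20) (.e (nat_lit 114714) (nat_lit 22) (.e (nat_lit 90159) (nat_lit 11) (.e (nat_lit 24664) (nat_lit 14) (.e (nat_lit 401463) (nat_lit 15) .nil))))))) (.g (nat_lit 6) .nil .nil))) 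
(.lf (nat_lit 83690) (.g (nat_lit 3139) (.e (nat_lit 1858) (nat_lit 124) (.e (nat_lit 557101) (nat_lit 13) (.e (nat_lit 172097) (nat_lit 9) (.e (nat_lit 426125) (nat_lit 2) (.e (nat_lit 196666) (nat_lit 13) (.e (nat_lit 65572) (nat_lit 4) (.e (nat_lit 123195) (nat_lit 266) (.e (nat_lit 57355) (nat_lit 0) .nil)))))))) (.g (nat_lit 5) .nil .nil)))) (.nd (nat_lit 5) 
(.lf (nat_lit 83674) (.g (nat_lit 3511) (.e (nat_lit 1858) (nat_lit 124) (.e (nat_lit 557101) (nat_lit 13) (.e (nat_lit 172097) (nat_lit 9) (.e (nat_lit 426125) (nat_lit 2) (.e (nat_lit 196661) (nat_lit 12) (.e (nat_lit 57721) (nat_lit 177) (.e (nat_lit 57862) (nat_lit 256) (.e (nat_lit 60) (nat_lit 0) .nil)))))))) (.g (nat_lit 0) .nil .nil))) 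
(.lf (nat_lit 83706) (.g (nat_lit 3561) (.e (nat_lit 1858) (nat_lit 124) (.e (nat_lit 557101) (nat_lit 13) (.e (nat_lit 172097) (nat_lit 9) (.e (nat_lit 426140) (nat_lit 3) (.e (nat_lit 204821) (nat_lit 17) (.e (nat_lit 6136) (nat_lit 332) (.e (nat_lit 1384) (nat_lit 105) (.e (nat_lit 311348) (nat_lit 15) .nil)))))))) (.g (nat_lit 0) .nil .nil)))))) 
(.nd (nat_lit 3) (.nd (nat_lit 4) (.nd (nat_lit 5) 
(.lf (nat_lit 83654) (.g (nat_lit 3573) (.e (nat_lit 1858) (nat_lit 124) (.e (nat_lit 557100) (nat_lit 13) (.e (nat_lit 172138) (nat_lit 15) (.e (nat_lit 2175) (nat_lit 143) (.e (nat_lit 712749) (nat_lit 28) (.e (nat_lit 434286) (nat_lit 42) (.e (nat_lit 688177) (nat_lit 16) (.e (nat_lit 65558) (nat_lit 0) .nil)))))))) (.g (nat_lit 5) .nil .nil))) 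
(.lf (nat_lit 83686) (.g (nat_lit 2455) (.e (nat_lit 1858) (nat_lit 124) (.e (nat_lit 557101) (nat_lit 13) (.e (nat_lit 172097) (nat_lit 9) (.e (nat_lit 426125) (nat_lit 2) (.e (nat_lit 196666) (nat_lit 13) (.e (nat_lit 65553) (nat_lit 0) (.e (nat_lit 2004) (nat_lit 138) (.e (nat_lit 671748) (nat_lit 0) (.e (nat_lit 1047) (nat_lit 81) .nil))))))))) (.g (nat_lit 4) .nil .nil)))) (.nd (nat_lit 5) 
(.lf (nat_lit 83670) (.g (nat_lit 3723) (.e (nat_lit 1858) (nat_lit 124) (.e (nat_lit 557101) (nat_lit 13) (.e (nat_lit 172097) (nat_lit 9) (.e (nat_lit 426125) (nat_lit 2) (.e (nat_lit 196661) (nat_lit 12) (.e (nat_lit 57714) (nat_lit 176) (.e (nat_lit 1385) (nat_lit 105) (.e (nat_lit 311348) (nat_lit 15) .nil)))))))) (.g (nat_lit 0) .nil .nil))) 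
(.lf (nat_lit 83702) (.g (nat_lit 2726) (.e (nat_lit 1858) (nat_lit 124) (.e (nat_lit 557101) (nat_lit 13) (.e (nat_lit 172097) (nat_lit 9) (.e (nat_lit 426140) (nat_lit 3) (.e (nat_lit 204821) (nat_lit 17) (.e (nat_lit 6114) (nat_lit 332) (.e (nat_lit 1376) (nat_lit 104) (.e (nat_lit 311040) (nat_lit 15) .nil)))))))) (.g (nat_lit 5) .nil .nil))))) (.nd (nat_lit 4) (.nd (nat_lit 5) 
(.lf (nat_lit 83662) (.g (nat_lit 4785) (.e (nat_lit 1858) (nat_lit 124) (.e (nat_lit 557101) (nat_lit 13) (.e (nat_lit 172097) (nat_lit 9) (.e (nat_lit 426125) (nat_lit 2) (.e (nat_lit 196630) (nat_lit 9) (.e (nat_lit 1669) (nat_lit 116) (.e (nat_lit 401438) (nat_lit 9) (.e (nat_lit 426402) (nat_lit 15) .nil)))))))) (.g (nat_lit 0) .nil .nil))) 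
(.lf (nat_lit 83694) (.g (nat_lit 2293) (.e (nat_lit 1858) (nat_lit 124) (.e (nat_lit 557101) (nat_lit 13) (.e (nat_lit 172097) (nat_lit 9) (.e (nat_lit 426125) (nat_lit 2) (.e (nat_lit 196666) (nat_lit 13) (.e (nat_lit 65574) (nat_lit 4) (.e (nat_lit 123198) (nat_lit 266) (.e (nat_lit 57344) (nat_lit 0) .nil)))))))) (.g (nat_lit 4) .nil .nil)))) (.nd (nat_lit 5) 
(.lf (nat_lit 83678) (.g (nat_lit 2691) (.e (nat_lit 1858) (nat_lit 124) (.e (nat_lit 557101) (nat_lit 13) (.e (nat_lit 172097) (nat_lit 9) (.e (nat_lit 426125) (nat_lit 2) (.e (nat_lit 196661) (nat_lit 12) (.e (nat_lit 57722) (nat_lit 178) (.e (nat_lit 123163) (nat_lit 256) (.e (nat_lit 18) (nat_lit 0) .nil)))))))) (.g (nat_lit 4) .nil .nil))) 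
(.lf (nat_lit 83710) (.g (nat_lit 3397) (.e (nat_lit 1858) (nat_lit 124) (.e (nat_lit 557101) (nat_lit 13) (.e (nat_lit 172097) (nat_lit 9) (.e (nat_lit 426140) (nat_lit 3) (.e (nat_lit 204821) (nat_lit 17) (.e (nat_lit 6206) (nat_lit 333) (.e (nat_lit 57863) (nat_lit 256) (.e (nat_lit 60) (nat_lit 0) .nil)))))))) (.g (nat_lit 0) .nil .nil)))))))) 
(.nd (nat_lit 1) (.nd (nat_lit 2) (.nd (nat_lit 3) (.nd (nat_lit 4) (.nd (nat_lit 5) 
(.lf (nat_lit 83649) (.g (nat_lit 717) (.e (nat_lit 1858) (nat_lit 124) (.e (nat_lit 557100) (nat_lit 13) (.e (nat_lit 172138) (nat_lit 15) .nil))) .nil)) 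
(.lf (nat_lit 83681) (.g (nat_lit 3239) (.e (nat_lit 1858) (nat_lit 124) (.e (nat_lit 557101) (nat_lit 13) (.e (nat_lit 172097) (nat_lit 9) (.e (nat_lit 426125) (nat_lit 2) (.e (nat_lit 196661) (nat_lit 12) (.e (nat_lit 57722) (nat_lit 178) (.e (nat_lit 123166) (nat_lit 256) (.e (nat_lit 18) (nat_lit 0) .nil)))))))) (.g (nat_lit 5) .nil .nil)))) (.nd (nat_lit 5) 
(.lf (nat_lit 83665) (.g (nat_lit 2436) (.e (nat_lit 1858) (nat_lit 124) (.e (nat_lit 557101) (nat_lit 13) (.e (nat_lit 172097) (nat_lit 9) (.e (nat_lit 426125) (nat_lit 2) (.e (nat_lit 196661) (nat_lit 12) (.e (nat_lit 57712) (nat_lit 176) (.e (nat_lit 1376) (nat_lit 104) (.e (nat_lit 311040) (nat_lit 15) .nil)))))))) (.g (nat_lit 5) .nil .nil))) 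
(.lf (nat_lit 83697) (.g (nat_lit 1109) (.e (nat_lit 1858) (nat_lit 124) (.e (nat_lit 557101) (nat_lit 13) (.e (nat_lit 172097) (nat_lit 9) (.e (nat_lit 426140) (nat_lit 3) .nil)))) .nil)))) (.nd (nat_lit 4) (.nd (nat_lit 5) 
(.lf (nat_lit 83657) (.g (nat_lit 2536) (.e (nat_lit 1858) (nat_lit 124) (.e (nat_lit 557100) (nat_lit 13) (.e (nat_lit 179968) (nat_lit 20) (.e (nat_lit 114714) (nat_lit 22) (.e (nat_lit 90158) (nat_lit 11) (.e (nat_lit 24663) (nat_lit 14) (.e (nat_lit 401463) (nat_lit 15) .nil))))))) (.g (nat_lit 4) .nil .nil))) 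
(.lf (nat_lit 83689) (.g (nat_lit 2346) (.e (nat_lit 1858) (nat_lit 124) (.e (nat_lit 557101) (nat_lit 13) (.e (nat_lit 172097) (nat_lit 9) (.e (nat_lit 426125) (nat_lit 2) (.e (nat_lit 196666) (nat_lit 13) (.e (nat_lit 65572) (nat_lit 4) (.e (nat_lit 123195) (nat_lit 266) (.e (nat_lit 57344) (nat_lit 0) .nil)))))))) (.g (nat_lit 4) .nil .nil)))) (.nd (nat_lit 5) 
(.lf (nat_lit 83673) (.g (nat_lit 3256) (.e (nat_lit 1858) (nat_lit 124) (.e (nat_lit 557101) (nat_lit 13) (.e (nat_lit 172097) (nat_lit 9) (.e (nat_lit 426125) (nat_lit 2) (.e (nat_lit 196661) (nat_lit 12) (.e (nat_lit 57718) (nat_lit 176) (.e (nat_lit 1386) (nat_lit 105) (.e (nat_lit 311348) (nat_lit 15) .nil)))))))) (.g (nat_lit 5) .nil .nil))) 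
(.lf (nat_lit 83705) (.g (nat_lit 3507) (.e (nat_lit 1858) (nat_lit 124) (.e (nat_lit 557101) (nat_lit 13) (.e (nat_lit 172097) (nat_lit 9) (.e (nat_lit 426140) (nat_lit 3) (.e (nat_lit 204821) (nat_lit 17) (.e (nat_lit 6136) (nat_lit 332) (.e (nat_lit 1383) (nat_lit 105) (.e (nat_lit 311348) (nat_lit 15) .nil)))))))) (.g (nat_lit 0) .nil .nil)))))) 
(.nd (nat_lit 3) (.nd (nat_lit 4) (.nd (nat_lit 5) 
(.lf (nat_lit 83653) (.g (nat_lit 4433) (.e (nat_lit 1858) (nat_lit 124) (.e (nat_lit 557100) (nat_lit 13) (.e (nat_lit 172138) (nat_lit 15) (.e (nat_lit 2175) (nat_lit 143) (.e (nat_lit 712747) (nat_lit 28) (.e (nat_lit 434286) (nat_lit 42) (.e (nat_lit 688178) (nat_lit 16) (.e (nat_lit 65558) (nat_lit 0) .nil)))))))) (.g (nat_lit 6) .nil .nil))) 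
(.lf (nat_lit 83685) (.g (nat_lit 2930) (.e (nat_lit 1858) (nat_lit 124) (.e (nat_lit 557101) (nat_lit 13) (.e (nat_lit 172097) (nat_lit 9) (.e (nat_lit 426125) (nat_lit 2) (.e (nat_lit 196666) (nat_lit 13) (.e (nat_lit 65546) (nat_lit 0) (.e (nat_lit 2005) (nat_lit 138) (.e (nat_lit 671748) (nat_lit 0) (.e (nat_lit 1047) (nat_lit 81) .nil))))))))) (.g (nat_lit 5) .nil .nil)))) (.nd (nat_lit 5) 
(.lf (nat_lit 83669) (.g (nat_lit 3548) (.e (nat_lit 1858) (nat_lit 124) (.e (nat_lit 557101) (nat_lit 13) (.e (nat_lit 172097) (nat_lit 9) (.e (nat_lit 426125) (nat_lit 2) (.e (nat_lit 196661) (nat_lit 12) (.e (nat_lit 57714) (nat_lit 176) (.e (nat_lit 1383) (nat_lit 105) (.e (nat_lit 311348) (nat_lit 15) .nil)))))))) (.g (nat_lit 0) .nil .nil))) 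
(.lf (nat_lit 83701) (.g (nat_lit 4348) (.e (nat_lit 1858) (nat_lit 124) (.e (nat_lit 557101) (nat_lit 13) (.e (nat_lit 172097) (nat_lit 9) (.e (nat_lit 426140) (nat_lit 3) (.e (nat_lit 204821) (nat_lit 17) (.e (nat_lit 6114) (nat_lit 332) (.e (nat_lit 1376) (nat_lit 104) (.e (nat_lit 303147) (nat_lit 15) .nil)))))))) (.g (nat_lit 0) .nil .nil))))) (.nd (nat_lit 4) (.nd (nat_lit 5) 
(.lf (nat_lit 83661) (.g (nat_lit 2833) (.e (nat_lit 1858) (nat_lit 124) (.e (nat_lit 557101) (nat_lit 13) (.e (nat_lit 172097) (nat_lit 9) (.e (nat_lit 426125) (nat_lit 2) (.e (nat_lit 196630) (nat_lit 9) (.e (nat_lit 1667) (nat_lit 116) (.e (nat_lit 401438) (nat_lit 9) (.e (nat_lit 426402) (nat_lit 15) .nil)))))))) (.g (nat_lit 5) .nil .nil))) 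
(.lf (nat_lit 83693) (.g (nat_lit 2471) (.e (nat_lit 1858) (nat_lit 124) (.e (nat_lit 557101) (nat_lit 13) (.e (nat_lit 172097) (nat_lit 9) (.e (nat_lit 426125) (nat_lit 2) (.e (nat_lit 196666) (nat_lit 13) (.e (nat_lit 65574) (nat_lit 4) (.e (nat_lit 123196) (nat_lit 266) (.e (nat_lit 57355) (nat_lit 0) .nil)))))))) (.g (nat_lit 4) .nil .nil)))) (.nd (nat_lit 5) 
(.lf (nat_lit 83677) (.g (nat_lit 2769) (.e (nat_lit 1858) (nat_lit 124) (.e (nat_lit 557101) (nat_lit 13) (.e (nat_lit 172097) (nat_lit 9) (.e (nat_lit 426125) (nat_lit 2) (.e (nat_lit 196661) (nat_lit 12) (.e (nat_lit 57722) (nat_lit 178) (.e (nat_lit 123162) (nat_lit 256) (.e (nat_lit 19) (nat_lit 0) .nil)))))))) (.g (nat_lit 4) .nil .nil))) 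
(.lf (nat_lit 83709) (.g (nat_lit 3402) (.e (nat_lit 1858) (nat_lit 124) (.e (nat_lit 557101) (nat_lit 13) (.e (nat_lit 172097) (nat_lit 9) (.e (nat_lit 426140) (nat_lit 3) (.e (nat_lit 204821) (nat_lit 17) (.e (nat_lit 6206) (nat_lit 333) (.e (nat_lit 57862) (nat_lit 256) (.e (nat_lit 60) (nat_lit 0) .nil)))))))) (.g (nat_lit 0) .nil .nil))))))) 
(.nd (nat_lit 2) (.nd (nat_lit 3) (.nd (nat_lit 4) (.nd (nat_lit 5) 
(.lf (nat_lit 83651) (.g (nat_lit 3701) (.e (nat_lit 1858) (nat_lit 124) (.e (nat_lit 557100) (nat_lit 13) (.e (nat_lit 172138) (nat_lit 15) (.e (nat_lit 2175) (nat_lit 143) (.e (nat_lit 712747) (nat_lit 28) (.e (nat_lit 434286) (nat_lit 42) (.e (nat_lit 688177) (nat_lit 16) (.e (nat_lit 65552) (nat_lit 0) .nil)))))))) (.g (nat_lit 5) .nil .nil))) 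
(.lf (nat_lit 83683) (.g (nat_lit 2872) (.e (nat_lit 1858) (nat_lit 124) (.e (nat_lit 557101) (nat_lit 13) (.e (nat_lit 172097) (nat_lit 9) (.e (nat_lit 426125) (nat_lit 2) (.e (nat_lit 196661) (nat_lit 12) (.e (nat_lit 65280) (nat_lit 205) (.e (nat_lit 179968) (nat_lit 15) .nil))))))) (.g (nat_lit 5) .nil .nil)))) (.nd (nat_lit 5) 
(.lf (nat_lit 83667) (.g (nat_lit 3123) (.e (nat_lit 1858) (nat_lit 124) (.e (nat_lit 557101) (nat_lit 13) (.e (nat_lit 172097) (nat_lit 9) (.e (nat_lit 426125) (nat_lit 2) (.e (nat_lit 196661) (nat_lit 12) (.e (nat_lit 57712) (nat_lit 176) (.e (nat_lit 1378) (nat_lit 104) (.e (nat_lit 311040) (nat_lit 15) .nil)))))))) (.g (nat_lit 6) .nil .nil))) 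
(.lf (nat_lit 83699) (.g (nat_lit 2263) (.e (nat_lit 1858) (nat_lit 124) (.e (nat_lit 557101) (nat_lit 13) (.e (nat_lit 172097) (nat_lit 9) (.e (nat_lit 426140) (nat_lit 3) (.e (nat_lit 204821) (nat_lit 17) (.e (nat_lit 6092) (nat_lit 332) (.e (nat_lit 1386) (nat_lit 105) (.e (nat_lit 311348) (nat_lit 15) .nil)))))))) (.g (nat_lit 4) .nil .nil))))) (.nd (nat_lit 4) (.nd (nat_lit 5) 
(.lf (nat_lit 83659) (.g (nat_lit 4160) (.e (nat_lit 1858) (nat_lit 124) (.e (nat_lit 557100) (nat_lit 13) (.e (nat_lit 179968) (nat_lit 20) (.e (nat_lit 114719) (nat_lit 23) (.e (nat_lit 98317) (nat_lit 9) (.e (nat_lit 336229) (nat_lit 14) (.e (nat_lit 401463) (nat_lit 15) .nil))))))) (.g (nat_lit 6) .nil .nil))) 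
(.lf (nat_lit 83691) (.g (nat_lit 2391) (.e (nat_lit 1858) (nat_lit 124) (.e (nat_lit 557101) (nat_lit 13) (.e (nat_lit 172097) (nat_lit 9) (.e (nat_lit 426125) (nat_lit 2) (.e (nat_lit 196666) (nat_lit 13) (.e (nat_lit 65572) (nat_lit 4) (.e (nat_lit 123197) (nat_lit 266) (.e (nat_lit 57355) (nat_lit 0) .nil)))))))) (.g (nat_lit 4) .nil .nil)))) (.nd (nat_lit 5) 
(.lf (nat_lit 83675) (.g (nat_lit 3486) (.e (nat_lit 1858) (nat_lit 124) (.e (nat_lit 557101) (nat_lit 13) (.e (nat_lit 172097) (nat_lit 9) (.e (nat_lit 426125) (nat_lit 2) (.e (nat_lit 196661) (nat_lit 12) (.e (nat_lit 57721) (nat_lit 177) (.e (nat_lit 57863) (nat_lit 256) (.e (nat_lit 60) (nat_lit 0) .nil)))))))) (.g (nat_lit 0) .nil .nil))) 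
(.lf (nat_lit 83707) (.g (nat_lit 3682) (.e (nat_lit 1858) (nat_lit 124) (.e (nat_lit 557101) (nat_lit 13) (.e (nat_lit 172097) (nat_lit 9) (.e (nat_lit 426140) (nat_lit 3) (.e (nat_lit 204821) (nat_lit 17) (.e (nat_lit 6136) (nat_lit 332) (.e (nat_lit 1385) (nat_lit 105) (.e (nat_lit 311348) (nat_lit 15) .nil)))))))) (.g (nat_lit 0) .nil .nil)))))) 
(.nd (nat_lit 3) (.nd (nat_lit 4) (.nd (nat_lit 5) 
(.lf (nat_lit 83655) (.g (nat_lit 3939) (.e (nat_lit 1858) (nat_lit 124) (.e (nat_lit 557100) (nat_lit 13) (.e (nat_lit 172138) (nat_lit 15) (.e (nat_lit 2175) (nat_lit 143) (.e (nat_lit 712749) (nat_lit 28) (.e (nat_lit 434286) (nat_lit 42) (.e (nat_lit 688178) (nat_lit 16) (.e (nat_lit 65558) (nat_lit 0) .nil)))))))) (.g (nat_lit 5) .nil .nil))) 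
(.lf (nat_lit 83687) (.g (nat_lit 2919) (.e (nat_lit 1858) (nat_lit 124) (.e (nat_lit 557101) (nat_lit 13) (.e (nat_lit 172097) (nat_lit 9) (.e (nat_lit 426125) (nat_lit 2) (.e (nat_lit 196666) (nat_lit 13) (.e (nat_lit 65553) (nat_lit 0) (.e (nat_lit 2005) (nat_lit 138) (.e (nat_lit 671748) (nat_lit 0) (.e (nat_lit 1047) (nat_lit 81) .nil))))))))) (.g (nat_lit 5) .nil .nil)))) (.nd (nat_lit 5) 
(.lf (nat_lit 83671) (.g (nat_lit 3878) (.e (nat_lit 1858) (nat_lit 124) (.e (nat_lit 557101) (nat_lit 13) (.e (nat_lit 172097) (nat_lit 9) (.e (nat_lit 426125) (nat_lit 2) (.e (nat_lit 196661) (nat_lit 12) (.e (nat_lit 57714) (nat_lit 176) (.e (nat_lit 1386) (nat_lit 105) (.e (nat_lit 311348) (nat_lit 15) .nil)))))))) (.g (nat_lit 0) .nil .nil))) 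
(.lf (nat_lit 83703) (.g (nat_lit 4332) (.e (nat_lit 1858) (nat_lit 124) (.e (nat_lit 557101) (nat_lit 13) (.e (nat_lit 172097) (nat_lit 9) (.e (nat_lit 426140) (nat_lit 3) (.e (nat_lit 204821) (nat_lit 17) (.e (nat_lit 6114) (nat_lit 332) (.e (nat_lit 1378) (nat_lit 104) (.e (nat_lit 303147) (nat_lit 15) .nil)))))))) (.g (nat_lit 0) .nil .nil))))) (.nd (nat_lit 4) (.nd (nat_lit 5) 
(.lf (nat_lit 83663) (.g (nat_lit 1747) (.e (nat_lit 1858) (nat_lit 124) (.e (nat_lit 557101) (nat_lit 13) (.e (nat_lit 172097) (nat_lit 9) (.e (nat_lit 426125) (nat_lit 2) (.e (nat_lit 196661) (nat_lit 12) .nil))))) .nil)) 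
(.lf (nat_lit 83695) (.g (nat_lit 2161) (.e (nat_lit 1858) (nat_lit 124) (.e (nat_lit 557101) (nat_lit 13) (.e (nat_lit 172097) (nat_lit 9) (.e (nat_lit 426125) (nat_lit 2) (.e (nat_lit 196666) (nat_lit 13) (.e (nat_lit 65574) (nat_lit 4) (.e (nat_lit 123198) (nat_lit 266) (.e (nat_lit 57355) (nat_lit 0) .nil)))))))) (.g (nat_lit 4) .nil .nil)))) (.nd (nat_lit 5) 
(.lf (nat_lit 83679) (.g (nat_lit 2554) (.e (nat_lit 1858) (nat_lit 124) (.e (nat_lit 557101) (nat_lit 13) (.e (nat_lit 172097) (nat_lit 9) (.e (nat_lit 426125) (nat_lit 2) (.e (nat_lit 196661) (nat_lit 12) (.e (nat_lit 57722) (nat_lit 178) (.e (nat_lit 123165) (nat_lit 256) (.e (nat_lit 59) (nat_lit 0) .nil)))))))) (.g (nat_lit 4) .nil .nil))) 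
(.lf (nat_lit 83711) (.g (nat_lit 3415) (.e (nat_lit 1858) (nat_lit 124) (.e (nat_lit 557101) (nat_lit 13) (.e (nat_lit 172097) (nat_lit 9) (.e (nat_lit 426140) (nat_lit 3) (.e (nat_lit 204821) (nat_lit 17) (.e (nat_lit 6206) (nat_lit 333) (.e (nat_lit 57864) (nat_lit 256) (.e (nat_lit 60) (nat_lit 0) .nil)))))))) (.g (nat_lit 0) .nil .nil)))))))))

noncomputable def tv1132 : DT := (.nd (nat_lit 0) (.nd (nat_lit 1) (.nd (nat_lit 2) (.nd (nat_lit 3) (.nd (nat_lit 4) (.nd (nat_lit 5) 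
(.lf (nat_lit 83712) (.g (nat_lit 2565) (.e (nat_lit 1858) (nat_lit 124) (.e (nat_lit 557101) (nat_lit 13) (.e (nat_lit 172097) (nat_lit 9) (.e (nat_lit 426140) (nat_lit 3) (.e (nat_lit 204821) (nat_lit 17) (.e (nat_lit 6223) (nat_lit 334) (.e (nat_lit 123162) (nat_lit 256) (.e (nat_lit 19) (nat_lit 0) .nil)))))))) (.g (nat_lit 4) .nil .nil))) 
(.lf (nat_lit 83744) (.g (nat_lit 3275) (.e (nat_lit 1858) (nat_lit 124) (.e (nat_lit 557101) (nat_lit 13) (.e (nat_lit 172115) (nat_lit 10) (.e (nat_lit 434231) (nat_lit 23) (.e (nat_lit 532481) (nat_lit 0) (.e (nat_lit 6718) (nat_lit 361) (.e (nat_lit 179968) (nat_lit 15) .nil))))))) (.g (nat_lit 6) .nil .nil)))) (.nd (nat_lit 5) 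
(.lf (nat_lit 83728) (.g (nat_lit 5559) (.e (nat_lit 1858) (nat_lit 124) (.e (nat_lit 557101) (nat_lit 13) (.e (nat_lit 172097) (nat_lit 9) (.e (nat_lit 426140) (nat_lit 3) (.e (nat_lit 204863) (nat_lit 27) (.e (nat_lit 344169) (nat_lit 40) (.e (nat_lit 671748) (nat_lit 0) (.e (nat_lit 1047) (nat_lit 81) .nil)))))))) (.g (nat_lit 7) .nil .nil))) 
(.lf (nat_lit 83760) (.g (nat_lit 3927) (.e (nat_lit 1858) (nat_lit 124) (.e (nat_lit 557101) (nat_lit 13) (.e (nat_lit 172115) (nat_lit 10) (.e (nat_lit 434231) (nat_lit 23) (.e (nat_lit 532490) (nat_lit 0) (.e (nat_lit 6136) (nat_lit 332) (.e (nat_lit 1383) (nat_lit 105) (.e (nat_lit 311348) (nat_lit 15) .nil)))))))) (.g (nat_lit 0) .nil .nil))))) (.nd (nat_lit 4) (.nd (nat_lit 5) 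
(.lf (nat_lit 83720) (.g (nat_lit 2669) (.e (nat_lit 1858) (nat_lit 124) (.e (nat_lit 557101) (nat_lit 13) (.e (nat_lit 172097) (nat_lit 9) (.e (nat_lit 426140) (nat_lit 3) (.e (nat_lit 204821) (nat_lit 17) (.e (nat_lit 7936) (nat_lit 364) (.e (nat_lit 245504) (nat_lit 15) .nil))))))) (.g (nat_lit 5) .nil .nil))) 
(.lf (nat_lit 83752) (.g (nat_lit 2938) (.e (nat_lit 1858) (nat_lit 124) (.e (nat_lit 557101) (nat_lit 13) (.e (nat_lit 172115) (nat_lit 10) (.e (nat_lit 434231) (nat_lit 23) (.e (nat_lit 532486) (nat_lit 0) (.e (nat_lit 6218) (nat_lit 333) (.e (nat_lit 57864) (nat_lit 256) (.e (nat_lit 59) (nat_lit 0) .nil)))))))) (.g (nat_lit 4) .nil .nil)))) (.nd (nat_lit 5) 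
(.lf (nat_lit 83736) (.g (nat_lit 2137) (.e (nat_lit 1858) (nat_lit 124) (.e (nat_lit 557101) (nat_lit 13) (.e (nat_lit 172115) (nat_lit 10) (.e (nat_lit 434227) (nat_lit 20) (.e (nat_lit 507929) (nat_lit 10) (.e (nat_lit 5772) (nat_lit 316) (.e (nat_lit 179968) (nat_lit 15) .nil))))))) (.g (nat_lit 6) .nil .nil))) 
(.lf (nat_lit 83768) (.g (nat_lit 2959) (.e (nat_lit 1858) (nat_lit 124) (.e (nat_lit 557101) (nat_lit 13) (.e (nat_lit 172115) (nat_lit 10) (.e (nat_lit 434231) (nat_lit 23) (.e (nat_lit 532490) (nat_lit 0) (.e (nat_lit 6223) (nat_lit 334) (.e (nat_lit 123162) (nat_lit 256) (.e (nat_lit 19) (nat_lit 0) .nil)))))))) (.g (nat_lit 4) .nil .nil)))))) 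
(.nd (nat_lit 3) (.nd (nat_lit 4) (.nd (nat_lit 5) 
(.lf (nat_lit 83716) (.g (nat_lit 2577) (.e (nat_lit 1858) (nat_lit 124) (.e (nat_lit 557101) (nat_lit 13) (.e (nat_lit 172097) (nat_lit 9) (.e (nat_lit 426140) (nat_lit 3) (.e (nat_lit 204821) (nat_lit 17) (.e (nat_lit 6223) (nat_lit 334) (.e (nat_lit 123166) (nat_lit 256) (.e (nat_lit 11) (nat_lit 0) .nil)))))))) (.g (nat_lit 4) .nil .nil))) 
(.lf (nat_lit 83748) (.g (nat_lit 2773) (.e (nat_lit 1858) (nat_lit 124) (.e (nat_lit 557101) (nat_lit 13) (.e (nat_lit 172115) (nat_lit 10) (.e (nat_lit 434231) (nat_lit 23) (.e (nat_lit 532486) (nat_lit 0) (.e (nat_lit 6218) (nat_lit 333) (.e (nat_lit 57862) (nat_lit 256) (.e (nat_lit 59) (nat_lit 0) .nil)))))))) (.g (nat_lit 4) .nil .nil)))) (.nd (nat_lit 5) 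
(.lf (nat_lit 83732) (.g (nat_lit 1088) (.e (nat_lit 1858) (nat_lit 124) (.e (nat_lit 557101) (nat_lit 13) (.e (nat_lit 172115) (nat_lit 10) (.e (nat_lit 434227) (nat_lit 20) .nil)))) .nil)) 
(.lf (nat_lit 83764) (.g (nat_lit 3695) (.e (nat_lit 1858) (nat_lit 124) (.e (nat_lit 557101) (nat_lit 13) (.e (nat_lit 172115) (nat_lit 10) (.e (nat_lit 434231) (nat_lit 23) (.e (nat_lit 532490) (nat_lit 0) (.e (nat_lit 6149) (nat_lit 332) (.e (nat_lit 1386) (nat_lit 105) (.e (nat_lit 311348) (nat_lit 15) .nil)))))))) (.g (nat_lit 5) .nil .nil))))) (.nd (nat_lit 4) (.nd (nat_lit 5) 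
(.lf (nat_lit 83724) (.g (nat_lit 2596) (.e (nat_lit 1858) (nat_lit 124) (.e (nat_lit 557101) (nat_lit 13) (.e (nat_lit 172097) (nat_lit 9) (.e (nat_lit 426140) (nat_lit 3) (.e (nat_lit 204855) (nat_lit 26) (.e (nat_lit 335928) (nat_lit 0) (.e (nat_lit 2005) (nat_lit 138) (.e (nat_lit 671748) (nat_lit 0) (.e (nat_lit 1047) (nat_lit 81) .nil))))))))) (.g (nat_lit 4) .nil .nil))) 
(.lf (nat_lit 83756) (.g (nat_lit 5694) (.e (nat_lit 1858) (nat_lit 124) (.e (nat_lit 557101) (nat_lit 13) (.e (nat_lit 172115) (nat_lit 10) (.e (nat_lit 434231) (nat_lit 23) (.e (nat_lit 532490) (nat_lit 0) (.e (nat_lit 6114) (nat_lit 332) (.e (nat_lit 1374) (nat_lit 104) (.e (nat_lit 303147) (nat_lit 15) .nil)))))))) (.g (nat_lit 0) .nil .nil)))) (.nd (nat_lit 5) 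
(.lf (nat_lit 83740) (.g (nat_lit 2166) (.e (nat_lit 1858) (nat_lit 124) (.e (nat_lit 557101) (nat_lit 13) (.e (nat_lit 172115) (nat_lit 10) (.e (nat_lit 434227) (nat_lit 20) (.e (nat_lit 507930) (nat_lit 10) (.e (nat_lit 5772) (nat_lit 316) (.e (nat_lit 179968) (nat_lit 15) .nil))))))) (.g (nat_lit 6) .nil .nil))) 
(.lf (nat_lit 83772) (.g (nat_lit 2580) (.e (nat_lit 1858) (nat_lit 124) (.e (nat_lit 557101) (nat_lit 13) (.e (nat_lit 172115) (nat_lit 10) (.e (nat_lit 434231) (nat_lit 23) (.e (nat_lit 532490) (nat_lit 0) (.e (nat_lit 6223) (nat_lit 334) (.e (nat_lit 123166) (nat_lit 256) (.e (nat_lit 16) (nat_lit 0) .nil)))))))) (.g (nat_lit 4) .nil .nil))))))) 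
(.nd (nat_lit 2) (.nd (nat_lit 3) (.nd (nat_lit 4) (.nd (nat_lit 5) 
(.lf (nat_lit 83714) (.g (nat_lit 2703) (.e (nat_lit 1858) (nat_lit 124) (.e (nat_lit 557101) (nat_lit 13) (.e (nat_lit 172097) (nat_lit 9) (.e (nat_lit 426140) (nat_lit 3) (.e (nat_lit 204821) (nat_lit 17) (.e (nat_lit 6223) (nat_lit 334) (.e (nat_lit 123165) (nat_lit 256) (.e (nat_lit 18) (nat_lit 0) .nil)))))))) (.g (nat_lit 4) .nil .nil))) 
(.lf (nat_lit 83746) (.g (nat_lit 2981) (.e (nat_lit 1858) (nat_lit 124) (.e (nat_lit 557101) (nat_lit 13) (.e (nat_lit 172115) (nat_lit 10) (.e (nat_lit 434231) (nat_lit 23) (.e (nat_lit 532482) (nat_lit 0) (.e (nat_lit 6718) (nat_lit 361) (.e (nat_lit 179968) (nat_lit 15) .nil))))))) (.g (nat_lit 6) .nil .nil)))) (.nd (nat_lit 5) 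
(.lf (nat_lit 83730) (.g (nat_lit 3708) (.e (nat_lit 1858) (nat_lit 124) (.e (nat_lit 557101) (nat_lit 13) (.e (nat_lit 172097) (nat_lit 9) (.e (nat_lit 426140) (nat_lit 3) (.e (nat_lit 204883) (nat_lit 33) (.e (nat_lit 401437) (nat_lit 9) (.e (nat_lit 426402) (nat_lit 15) .nil))))))) (.g (nat_lit 0) .nil .nil))) 
(.lf (nat_lit 83762) (.g (nat_lit 4272) (.e (nat_lit 1858) (nat_lit 124) (.e (nat_lit 557101) (nat_lit 13) (.e (nat_lit 172115) (nat_lit 10) (.e (nat_lit 434231) (nat_lit 23) (.e (nat_lit 532490) (nat_lit 0) (.e (nat_lit 6136) (nat_lit 332) (.e (nat_lit 1386) (nat_lit 105) (.e (nat_lit 311348) (nat_lit 15) .nil)))))))) (.g (nat_lit 0) .nil .nil))))) (.nd (nat_lit 4) (.nd (nat_lit 5) 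
(.lf (nat_lit 83722) (.g (nat_lit 2789) (.e (nat_lit 1858) (nat_lit 124) (.e (nat_lit 557101) (nat_lit 13) (.e (nat_lit 172097) (nat_lit 9) (.e (nat_lit 426140) (nat_lit 3) (.e (nat_lit 204845) (nat_lit 24) (.e (nat_lit 319539) (nat_lit 19) (.e (nat_lit 311348) (nat_lit 15) .nil))))))) (.g (nat_lit 4) .nil .nil))) 
(.lf (nat_lit 83754) (.g (nat_lit 3153) (.e (nat_lit 1858) (nat_lit 124) (.e (nat_lit 557101) (nat_lit 13) (.e (nat_lit 172115) (nat_lit 10) (.e (nat_lit 434231) (nat_lit 23) (.e (nat_lit 532490) (nat_lit 0) (.e (nat_lit 6092) (nat_lit 332) (.e (nat_lit 1374) (nat_lit 104) (.e (nat_lit 303147) (nat_lit 15) .nil)))))))) (.g (nat_lit 5) .nil .nil)))) (.nd (nat_lit 5) 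
(.lf (nat_lit 83738) (.g (nat_lit 2304) (.e (nat_lit 1858) (nat_lit 124) (.e (nat_lit 557101) (nat_lit 13) (.e (nat_lit 172115) (nat_lit 10) (.e (nat_lit 434227) (nat_lit 20) (.e (nat_lit 507930) (nat_lit 10) (.e (nat_lit 5768) (nat_lit 316) (.e (nat_lit 179968) (nat_lit 15) .nil))))))) (.g (nat_lit 6) .nil .nil))) 
(.lf (nat_lit 83770) (.g (nat_lit 3287) (.e (nat_lit 1858) (nat_lit 124) (.e (nat_lit 557101) (nat_lit 13) (.e (nat_lit 172115) (nat_lit 10) (.e (nat_lit 434231) (nat_lit 23) (.e (nat_lit 532490) (nat_lit 0) (.e (nat_lit 6223) (nat_lit 334) (.e (nat_lit 123164) (nat_lit 256) (.e (nat_lit 18) (nat_lit 0) .nil)))))))) (.g (nat_lit 5) .nil .nil)))))) 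
(.nd (nat_lit 3) (.nd (nat_lit 4) (.nd (nat_lit 5) 
(.lf (nat_lit 83718) (.g (nat_lit 2123) (.e (nat_lit 1858) (nat_lit 124) (.e (nat_lit 557101) (nat_lit 13) (.e (nat_lit 172097) (nat_lit 9) (.e (nat_lit 426140) (nat_lit 3) (.e (nat_lit 204821) (nat_lit 17) (.e (nat_lit 6223) (nat_lit 334) (.e (nat_lit 123166) (nat_lit 256) (.e (nat_lit 7936) (nat_lit 0) .nil)))))))) (.g (nat_lit 4) .nil .nil))) 
(.lf (nat_lit 83750) (.g (nat_lit 2669) (.e (nat_lit 1858) (nat_lit 124) (.e (nat_lit 557101) (nat_lit 13) (.e (nat_lit 172115) (nat_lit 10) (.e (nat_lit 434231) (nat_lit 23) (.e (nat_lit 532486) (nat_lit 0) (.e (nat_lit 6218) (nat_lit 333) (.e (nat_lit 57863) (nat_lit 256) (.e (nat_lit 59) (nat_lit 0) .nil)))))))) (.g (nat_lit 4) .nil .nil)))) (.nd (nat_lit 5) 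
(.lf (nat_lit 83734) (.g (nat_lit 2296) (.e (nat_lit 1858) (nat_lit 124) (.e (nat_lit 557101) (nat_lit 13) (.e (nat_lit 172115) (nat_lit 10) (.e (nat_lit 434227) (nat_lit 20) (.e (nat_lit 507929) (nat_lit 10) (.e (nat_lit 5768) (nat_lit 316) (.e (nat_lit 179968) (nat_lit 15) .nil))))))) (.g (nat_lit 6) .nil .nil))) 
(.lf (nat_lit 83766) (.g (nat_lit 4039) (.e (nat_lit 1858) (nat_lit 124) (.e (nat_lit 557101) (nat_lit 13) (.e (nat_lit 172115) (nat_lit 10) (.e (nat_lit 434231) (nat_lit 23) (.e (nat_lit 532490) (nat_lit 0) (.e (nat_lit 6206) (nat_lit 333) (.e (nat_lit 57863) (nat_lit 256) (.e (nat_lit 60) (nat_lit 0) .nil)))))))) (.g (nat_lit 0) .nil .nil))))) (.nd (nat_lit 4) (.nd (nat_lit 5) 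
(.lf (nat_lit 83726) (.g (nat_lit 3958) (.e (nat_lit 1858) (nat_lit 124) (.e (nat_lit 557101) (nat_lit 13) (.e (nat_lit 172097) (nat_lit 9) (.e (nat_lit 426140) (nat_lit 3) (.e (nat_lit 204862) (nat_lit 27) (.e (nat_lit 344169) (nat_lit 40) (.e (nat_lit 671748) (nat_lit 0) (.e (nat_lit 1047) (nat_lit 81) .nil)))))))) (.g (nat_lit 6) .nil .nil))) 
(.lf (nat_lit 83758) (.g (nat_lit 4388) (.e (nat_lit 1858) (nat_lit 124) (.e (nat_lit 557101) (nat_lit 13) (.e (nat_lit 172115) (nat_lit 10) (.e (nat_lit 434231) (nat_lit 23) (.e (nat_lit 532490) (nat_lit 0) (.e (nat_lit 6114) (nat_lit 332) (.e (nat_lit 1378) (nat_lit 104) (.e (nat_lit 311040) (nat_lit 15) .nil)))))))) (.g (nat_lit 6) .nil .nil)))) (.nd (nat_lit 5) 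
(.lf (nat_lit 83742) (.g (nat_lit 1757) (.e (nat_lit 1858) (nat_lit 124) (.e (nat_lit 557101) (nat_lit 13) (.e (nat_lit 172115) (nat_lit 10) (.e (nat_lit 434227) (nat_lit 20) (.e (nat_lit 507947) (nat_lit 19) (.e (nat_lit 311325) (nat_lit 9) (.e (nat_lit 426402) (nat_lit 15) .nil))))))) (.g (nat_lit 4) .nil .nil))) 
(.lf (nat_lit 83774) (.g (nat_lit 2920) (.e (nat_lit 1858) (nat_lit 124) (.e (nat_lit 557101) (nat_lit 13) (.e (nat_lit 172115) (nat_lit 10) (.e (nat_lit 434231) (nat_lit 23) (.e (nat_lit 532490) (nat_lit 0) (.e (nat_lit 7936) (nat_lit 361) (.e (nat_lit 179968) (nat_lit 15) .nil))))))) (.g (nat_lit 5) .nil .nil)))))))) 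
(.nd (nat_lit 1) (.nd (nat_lit 2) (.nd (nat_lit 3) (.nd (nat_lit 4) (.nd (nat_lit 5) 
(.lf (nat_lit 83713) (.g (nat_lit 2586) (.e (nat_lit 1858) (nat_lit 124) (.e (nat_lit 557101) (nat_lit 13) (.e (nat_lit 172097) (nat_lit 9) (.e (nat_lit 426140) (nat_lit 3) (.e (nat_lit 204821) (nat_lit 17) (.e (nat_lit 6223) (nat_lit 334) (.e (nat_lit 123163) (nat_lit 256) (.e (nat_lit 18) (nat_lit 0) .nil)))))))) (.g (nat_lit 4) .nil .nil))) 
(.lf (nat_lit 83745) (.g (nat_lit 3340) (.e (nat_lit 1858) (nat_lit 124) (.e (nat_lit 557101) (nat_lit 13) (.e (nat_lit 172115) (nat_lit 10) (.e (nat_lit 434231) (nat_lit 23) (.e (nat_lit 532481) (nat_lit 0) (.e (nat_lit 6720) (nat_lit 361) (.e (nat_lit 179968) (nat_lit 15) .nil))))))) (.g (nat_lit 6) .nil .nil)))) (.nd (nat_lit 5) 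
(.lf (nat_lit 83729) (.g (nat_lit 3245) (.e (nat_lit 1858) (nat_lit 124) (.e (nat_lit 557101) (nat_lit 13) (.e (nat_lit 172097) (nat_lit 9) (.e (nat_lit 426140) (nat_lit 3) (.e (nat_lit 204883) (nat_lit 33) (.e (nat_lit 401436) (nat_lit 9) (.e (nat_lit 426402) (nat_lit 15) .nil))))))) (.g (nat_lit 0) .nil .nil))) 
(.lf (nat_lit 83761) (.g (nat_lit 4108) (.e (nat_lit 1858) (nat_lit 124) (.e (nat_lit 557101) (nat_lit 13) (.e (nat_lit 172115) (nat_lit 10) (.e (nat_lit 434231) (nat_lit 23) (.e (nat_lit 532490) (nat_lit 0) (.e (nat_lit 6136) (nat_lit 332) (.e (nat_lit 1385) (nat_lit 105) (.e (nat_lit 311348) (nat_lit 15) .nil)))))))) (.g (nat_lit 0) .nil .nil))))) (.nd (nat_lit 4) (.nd (nat_lit 5) 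
(.lf (nat_lit 83721) (.g (nat_lit 1779) (.e (nat_lit 1858) (nat_lit 124) (.e (nat_lit 557101) (nat_lit 13) (.e (nat_lit 172097) (nat_lit 9) (.e (nat_lit 426140) (nat_lit 3) (.e (nat_lit 212736) (nat_lit 17) (.e (nat_lit 6719) (nat_lit 361) (.e (nat_lit 179968) (nat_lit 15) .nil))))))) (.g (nat_lit 4) .nil .nil))) 
(.lf (nat_lit 83753) (.g (nat_lit 1908) (.e (nat_lit 1858) (nat_lit 124) (.e (nat_lit 557101) (nat_lit 13) (.e (nat_lit 172115) (nat_lit 10) (.e (nat_lit 434231) (nat_lit 23) (.e (nat_lit 532490) (nat_lit 0) .nil))))) .nil))) (.nd (nat_lit 5) 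
(.lf (nat_lit 83737) (.g (nat_lit 1975) (.e (nat_lit 1858) (nat_lit 124) (.e (nat_lit 557101) (nat_lit 13) (.e (nat_lit 172115) (nat_lit 10) (.e (nat_lit 434227) (nat_lit 20) (.e (nat_lit 507929) (nat_lit 10) (.e (nat_lit 5773) (nat_lit 316) (.e (nat_lit 179968) (nat_lit 15) .nil))))))) (.g (nat_lit 5) .nil .nil))) 
(.lf (nat_lit 83769) (.g (nat_lit 2761) (.e (nat_lit 1858) (nat_lit 124) (.e (nat_lit 557101) (nat_lit 13) (.e (nat_lit 172115) (nat_lit 10) (.e (nat_lit 434231) (nat_lit 23) (.e (nat_lit 532490) (nat_lit 0) (.e (nat_lit 6223) (nat_lit 334) (.e (nat_lit 123163) (nat_lit 256) (.e (nat_lit 62) (nat_lit 0) .nil)))))))) (.g (nat_lit 4) .nil .nil)))))) 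
(.nd (nat_lit 3) (.nd (nat_lit 4) (.nd (nat_lit 5) 
(.lf (nat_lit 83717) (.g (nat_lit 3144) (.e (nat_lit 1858) (nat_lit 124) (.e (nat_lit 557101) (nat_lit 13) (.e (nat_lit 172097) (nat_lit 9) (.e (nat_lit 426140) (nat_lit 3) (.e (nat_lit 204821) (nat_lit 17) (.e (nat_lit 6223) (nat_lit 334) (.e (nat_lit 123166) (nat_lit 256) (.e (nat_lit 18) (nat_lit 0) .nil)))))))) (.g (nat_lit 5) .nil .nil))) 
(.lf (nat_lit 83749) (.g (nat_lit 2785) (.e (nat_lit 1858) (nat_lit 124) (.e (nat_lit 557101) (nat_lit 13) (.e (nat_lit 172115) (nat_lit 10) (.e (nat_lit 434231) (nat_lit 23) (.e (nat_lit 532486) (nat_lit 0) (.e (nat_lit 6218) (nat_lit 333) (.e (nat_lit 57862) (nat_lit 256) (.e (nat_lit 60) (nat_lit 0) .nil)))))))) (.g (nat_lit 4) .nil .nil)))) (.nd (nat_lit 5) 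
(.lf (nat_lit 83733) (.g (nat_lit 2140) (.e (nat_lit 1858) (nat_lit 124) (.e (nat_lit 557101) (nat_lit 13) (.e (nat_lit 172115) (nat_lit 10) (.e (nat_lit 434227) (nat_lit 20) (.e (nat_lit 507928) (nat_lit 10) (.e (nat_lit 5772) (nat_lit 316) (.e (nat_lit 179968) (nat_lit 15) .nil))))))) (.g (nat_lit 6) .nil .nil))) 
(.lf (nat_lit 83765) (.g (nat_lit 4026) (.e (nat_lit 1858) (nat_lit 124) (.e (nat_lit 557101) (nat_lit 13) (.e (nat_lit 172115) (nat_lit 10) (.e (nat_lit 434231) (nat_lit 23) (.e (nat_lit 532490) (nat_lit 0) (.e (nat_lit 6206) (nat_lit 333) (.e (nat_lit 57862) (nat_lit 256) (.e (nat_lit 60) (nat_lit 0) .nil)))))))) (.g (nat_lit 0) .nil .nil))))) (.nd (nat_lit 4) (.nd (nat_lit 5) 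
(.lf (nat_lit 83725) (.g (nat_lit 3141) (.e (nat_lit 1858) (nat_lit 124) (.e (nat_lit 557101) (nat_lit 13) (.e (nat_lit 172097) (nat_lit 9) (.e (nat_lit 426140) (nat_lit 3) (.e (nat_lit 204855) (nat_lit 26) (.e (nat_lit 335928) (nat_lit 0) (.e (nat_lit 2006) (nat_lit 138) (.e (nat_lit 671748) (nat_lit 0) (.e (nat_lit 1047) (nat_lit 81) .nil))))))))) (.g (nat_lit 5) .nil .nil))) 
(.lf (nat_lit 83757) (.g (nat_lit 5369) (.e (nat_lit 1858) (nat_lit 124) (.e (nat_lit 557101) (nat_lit 13) (.e (nat_lit 172115) (nat_lit 10) (.e (nat_lit 434231) (nat_lit 23) (.e (nat_lit 532490) (nat_lit 0) (.e (nat_lit 6114) (nat_lit 332) (.e (nat_lit 1378) (nat_lit 104) (.e (nat_lit 303147) (nat_lit 15) .nil)))))))) (.g (nat_lit 0) .nil .nil)))) (.nd (nat_lit 5) 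
(.lf (nat_lit 83741) (.g (nat_lit 2046) (.e (nat_lit 1858) (nat_lit 124) (.e (nat_lit 557101) (nat_lit 13) (.e (nat_lit 172115) (nat_lit 10) (.e (nat_lit 434227) (nat_lit 20) (.e (nat_lit 507930) (nat_lit 10) (.e (nat_lit 5773) (nat_lit 316) (.e (nat_lit 179968) (nat_lit 15) .nil))))))) (.g (nat_lit 5) .nil .nil))) 
(.lf (nat_lit 83773) (.g (nat_lit 2434) (.e (nat_lit 1858) (nat_lit 124) (.e (nat_lit 557101) (nat_lit 13) (.e (nat_lit 172115) (nat_lit 10) (.e (nat_lit 434231) (nat_lit 23) (.e (nat_lit 532490) (nat_lit 0) (.e (nat_lit 6223) (nat_lit 334) (.e (nat_lit 123166) (nat_lit 256) (.e (nat_lit 7936) (nat_lit 0) .nil)))))))) (.g (nat_lit 4) .nil .nil))))))) 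
(.nd (nat_lit 2) (.nd (nat_lit 3) (.nd (nat_lit 4) (.nd (nat_lit 5) 
(.lf (nat_lit 83715) (.g (nat_lit 2414) (.e (nat_lit 1858) (nat_lit 124) (.e (nat_lit 557101) (nat_lit 13) (.e (nat_lit 172097) (nat_lit 9) (.e (nat_lit 426140) (nat_lit 3) (.e (nat_lit 204821) (nat_lit 17) (.e (nat_lit 6223) (nat_lit 334) (.e (nat_lit 123165) (nat_lit 256) (.e (nat_lit 59) (nat_lit 0) .nil)))))))) (.g (nat_lit 4) .nil .nil))) 
(.lf (nat_lit 83747) (.g (nat_lit 3033) (.e (nat_lit 1858) (nat_lit 124) (.e (nat_lit 557101) (nat_lit 13) (.e (nat_lit 172115) (nat_lit 10) (.e (nat_lit 434231) (nat_lit 23) (.e (nat_lit 532482) (nat_lit 0) (.e (nat_lit 6720) (nat_lit 361) (.e (nat_lit 179968) (nat_lit 15) .nil))))))) (.g (nat_lit 6) .nil .nil)))) (.nd (nat_lit 5) 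
(.lf (nat_lit 83731) (.g (nat_lit 3553) (.e (nat_lit 1858) (nat_lit 124) (.e (nat_lit 557101) (nat_lit 13) (.e (nat_lit 172097) (nat_lit 9) (.e (nat_lit 426140) (nat_lit 3) (.e (nat_lit 204883) (nat_lit 33) (.e (nat_lit 401438) (nat_lit 9) (.e (nat_lit 426402) (nat_lit 15) .nil))))))) (.g (nat_lit 0) .nil .nil))) 
(.lf (nat_lit 83763) (.g (nat_lit 3529) (.e (nat_lit 1858) (nat_lit 124) (.e (nat_lit 557101) (nat_lit 13) (.e (nat_lit 172115) (nat_lit 10) (.e (nat_lit 434231) (nat_lit 23) (.e (nat_lit 532490) (nat_lit 0) (.e (nat_lit 6149) (nat_lit 332) (.e (nat_lit 1385) (nat_lit 105) (.e (nat_lit 311348) (nat_lit 15) .nil)))))))) (.g (nat_lit 5) .nil .nil))))) (.nd (nat_lit 4) (.nd (nat_lit 5) 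
(.lf (nat_lit 83723) (.g (nat_lit 1882) (.e (nat_lit 1858) (nat_lit 124) (.e (nat_lit 557101) (nat_lit 13) (.e (nat_lit 172097) (nat_lit 9) (.e (nat_lit 426140) (nat_lit 3) (.e (nat_lit 204855) (nat_lit 26) .nil))))) .nil)) 
(.lf (nat_lit 83755) (.g (nat_lit 2651) (.e (nat_lit 1858) (nat_lit 124) (.e (nat_lit 557101) (nat_lit 13) (.e (nat_lit 172115) (nat_lit 10) (.e (nat_lit 434231) (nat_lit 23) (.e (nat_lit 532490) (nat_lit 0) (.e (nat_lit 6114) (nat_lit 332) (.e (nat_lit 1076) (nat_lit 81) (.e (nat_lit 5629) (nat_lit 312) (.e (nat_lit 11) (nat_lit 0) .nil))))))))) (.g (nat_lit 4) .nil .nil)))) (.nd (nat_lit 5) 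
(.lf (nat_lit 83739) (.g (nat_lit 2414) (.e (nat_lit 1858) (nat_lit 124) (.e (nat_lit 557101) (nat_lit 13) (.e (nat_lit 172115) (nat_lit 10) (.e (nat_lit 434227) (nat_lit 20) (.e (nat_lit 507930) (nat_lit 10) (.e (nat_lit 5770) (nat_lit 316) (.e (nat_lit 179968) (nat_lit 15) .nil))))))) (.g (nat_lit 6) .nil .nil))) 
(.lf (nat_lit 83771) (.g (nat_lit 2733) (.e (nat_lit 1858) (nat_lit 124) (.e (nat_lit 557101) (nat_lit 13) (.e (nat_lit 172115) (nat_lit 10) (.e (nat_lit 434231) (nat_lit 23) (.e (nat_lit 532490) (nat_lit 0) (.e (nat_lit 6223) (nat_lit 334) (.e (nat_lit 123164) (nat_lit 256) (.e (nat_lit 62) (nat_lit 0) .nil)))))))) (.g (nat_lit 4) .nil .nil)))))) 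
(.nd (nat_lit 3) (.nd (nat_lit 4) (.nd (nat_lit 5) 
(.lf (nat_lit 83719) (.g (nat_lit 2669) (.e (nat_lit 1858) (nat_lit 124) (.e (nat_lit 557101) (nat_lit 13) (.e (nat_lit 172097) (nat_lit 9) (.e (nat_lit 426140) (nat_lit 3) (.e (nat_lit 204821) (nat_lit 17) (.e (nat_lit 7936) (nat_lit 361) (.e (nat_lit 179968) (nat_lit 15) .nil))))))) (.g (nat_lit 5) .nil .nil))) 
(.lf (nat_lit 83751) (.g (nat_lit 2795) (.e (nat_lit 1858) (nat_lit 124) (.e (nat_lit 557101) (nat_lit 13) (.e (nat_lit 172115) (nat_lit 10) (.e (nat_lit 434231) (nat_lit 23) (.e (nat_lit 532486) (nat_lit 0) (.e (nat_lit 6218) (nat_lit 333) (.e (nat_lit 57863) (nat_lit 256) (.e (nat_lit 60) (nat_lit 0) .nil)))))))) (.g (nat_lit 4) .nil .nil)))) (.nd (nat_lit 5) 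
(.lf (nat_lit 83735) (.g (nat_lit 2247) (.e (nat_lit 1858) (nat_lit 124) (.e (nat_lit 557101) (nat_lit 13) (.e (nat_lit 172115) (nat_lit 10) (.e (nat_lit 434227) (nat_lit 20) (.e (nat_lit 507929) (nat_lit 10) (.e (nat_lit 5770) (nat_lit 316) (.e (nat_lit 179968) (nat_lit 15) .nil))))))) (.g (nat_lit 6) .nil .nil))) 
(.lf (nat_lit 83767) (.g (nat_lit 4052) (.e (nat_lit 1858) (nat_lit 124) (.e (nat_lit 557101) (nat_lit 13) (.e (nat_lit 172115) (nat_lit 10) (.e (nat_lit 434231) (nat_lit 23) (.e (nat_lit 532490) (nat_lit 0) (.e (nat_lit 6206) (nat_lit 333) (.e (nat_lit 57864) (nat_lit 256) (.e (nat_lit 60) (nat_lit 0) .nil)))))))) (.g (nat_lit 0) .nil .nil))))) (.nd (nat_lit 4) (.nd (nat_lit 5) 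
(.lf (nat_lit 83727) (.g (nat_lit 1892) (.e (nat_lit 1858) (nat_lit 124) (.e (nat_lit 557101) (nat_lit 13) (.e (nat_lit 172097) (nat_lit 9) (.e (nat_lit 426140) (nat_lit 3) (.e (nat_lit 204863) (nat_lit 27) .nil))))) .nil)) 
(.lf (nat_lit 83759) (.g (nat_lit 2508) (.e (nat_lit 1858) (nat_lit 124) (.e (nat_lit 557101) (nat_lit 13) (.e (nat_lit 172115) (nat_lit 10) (.e (nat_lit 434231) (nat_lit 23) (.e (nat_lit 532490) (nat_lit 0) (.e (nat_lit 6114) (nat_lit 332) (.e (nat_lit 1390) (nat_lit 105) (.e (nat_lit 311348) (nat_lit 15) .nil)))))))) (.g (nat_lit 4) .nil .nil)))) (.nd (nat_lit 5) 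
(.lf (nat_lit 83743) (.g (nat_lit 1149) (.e (nat_lit 1858) (nat_lit 124) (.e (nat_lit 557101) (nat_lit 13) (.e (nat_lit 172115) (nat_lit 10) (.e (nat_lit 434231) (nat_lit 23) .nil)))) .nil)) 
(.lf (nat_lit 83775) (.g (nat_lit 2920) (.e (nat_lit 1858) (nat_lit 124) (.e (nat_lit 557101) (nat_lit 13) (.e (nat_lit 172115) (nat_lit 10) (.e (nat_lit 434231) (nat_lit 23) (.e (nat_lit 532490) (nat_lit 0) (.e (nat_lit 7936) (nat_lit 364) (.e (nat_lit 245504) (nat_lit 15) .nil))))))) (.g (nat_lit 5) .nil .nil)))))))))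

noncomputable def tv1133 : DT := (.nd (nat_lit 0) (.nd (nat_lit 1) (.nd (nat_lit 2) (.nd (nat_lit 3) (.nd (nat_lit 4) (.nd (nat_lit 5) 
(.lf (nat_lit 83776) (.g (nat_lit 3558) (.e (nat_lit 1858) (nat_lit 124) (.e (nat_lit 557101) (nat_lit 13) (.e (nat_lit 172115) (nat_lit 10) (.e (nat_lit 434231) (nat_lit 23) (.e (nat_lit 532522) (nat_lit 7) (.e (nat_lit 319539) (nat_lit 19) (.e (nat_lit 311348) (nat_lit 15) .nil))))))) (.g (nat_lit 5) .nil .nil))) 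
(.lf (nat_lit 83808) (.g (nat_lit 4473) (.e (nat_lit 1858) (nat_lit 124) (.e (nat_lit 557101) (nat_lit 13) (.e (nat_lit 172115) (nat_lit 10) (.e (nat_lit 434244) (nat_lit 28) (.e (nat_lit 573469) (nat_lit 11) (.e (nat_lit 16438) (nat_lit 9) (.e (nat_lit 426402) (nat_lit 15) .nil))))))) (.g (nat_lit 7) .nil .nil)))) (.nd (nat_lit 5) 
(.lf (nat_lit 83792) (.g (nat_lit 3932) (.e (nat_lit 1858) (nat_lit 124) (.e (nat_lit 557101) (nat_lit 13) (.e (nat_lit 172115) (nat_lit 10) (.e (nat_lit 434231) (nat_lit 23) (.e (nat_lit 532568) (nat_lit 16) (.e (nat_lit 401438) (nat_lit 9) (.e (nat_lit 426402) (nat_lit 15) .nil))))))) (.g (nat_lit 0) .nil .nil))) 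
(.lf (nat_lit 83824) (.g (nat_lit 2170) (.e (nat_lit 1858) (nat_lit 124) (.e (nat_lit 557101) (nat_lit 13) (.e (nat_lit 172124) (nat_lit 14) (.e (nat_lit 491537) (nat_lit 2) (.e (nat_lit 90185) (nat_lit 17) .nil))))) .nil)))) (.nd (nat_lit 4) (.nd (nat_lit 5) 
(.lf (nat_lit 83784) (.g (nat_lit 2250) (.e (nat_lit 1858) (nat_lit 124) (.e (nat_lit 557101) (nat_lit 13) (.e (nat_lit 172115) (nat_lit 10) (.e (nat_lit 434231) (nat_lit 23) (.e (nat_lit 532564) (nat_lit 15) (.e (nat_lit 385104) (nat_lit 50) (.e (nat_lit 786444) (nat_lit 15) .nil))))))) (.g (nat_lit 4) .nil .nil))) 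
(.lf (nat_lit 83816) (.g (nat_lit 3829) (.e (nat_lit 1858) (nat_lit 124) (.e (nat_lit 557101) (nat_lit 13) (.e (nat_lit 172115) (nat_lit 10) (.e (nat_lit 434244) (nat_lit 28) (.e (nat_lit 573471) (nat_lit 11) (.e (nat_lit 16433) (nat_lit 9) (.e (nat_lit 426360) (nat_lit 15) .nil))))))) (.g (nat_lit 5) .nil .nil)))) (.nd (nat_lit 5) 
(.lf (nat_lit 83800) (.g (nat_lit 1967) (.e (nat_lit 1858) (nat_lit 124) (.e (nat_lit 557101) (nat_lit 13) (.e (nat_lit 172115) (nat_lit 10) (.e (nat_lit 434238) (nat_lit 25) (.e (nat_lit 548894) (nat_lit 14) .nil))))) .nil)) 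
(.lf (nat_lit 83832) (.g (nat_lit 2228) (.e (nat_lit 1858) (nat_lit 124) (.e (nat_lit 557101) (nat_lit 13) (.e (nat_lit 172126) (nat_lit 14) (.e (nat_lit 491537) (nat_lit 2) (.e (nat_lit 90185) (nat_lit 17) (.e (nat_lit 237605) (nat_lit 9) (.e (nat_lit 426402) (nat_lit 15) .nil))))))) (.g (nat_lit 4) .nil .nil)))))) (.nd (nat_lit 3) (.nd (nat_lit 4) (.nd (nat_lit 5) 
(.lf (nat_lit 83780) (.g (nat_lit 2663) (.e (nat_lit 1858) (nat_lit 124) (.e (nat_lit 557101) (nat_lit 13) (.e (nat_lit 172115) (nat_lit 10) (.e (nat_lit 434231) (nat_lit 23) (.e (nat_lit 532535) (nat_lit 9) (.e (nat_lit 335928) (nat_lit 0) (.e (nat_lit 2004) (nat_lit 138) (.e (nat_lit 671748) (nat_lit 0) (.e (nat_lit 1047) (nat_lit 81) .nil))))))))) (.g (nat_lit 4) .nil .nil))) 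
(.lf (nat_lit 83812) (.g (nat_lit 3782) (.e (nat_lit 1858) (nat_lit 124) (.e (nat_lit 557101) (nat_lit 13) (.e (nat_lit 172115) (nat_lit 10) (.e (nat_lit 434244) (nat_lit 28) (.e (nat_lit 573471) (nat_lit 11) (.e (nat_lit 16392) (nat_lit 0) (.e (nat_lit 7342) (nat_lit 388) (.e (nat_lit 59) (nat_lit 0) .nil)))))))) (.g (nat_lit 5) .nil .nil)))) (.nd (nat_lit 5) 
(.lf (nat_lit 83796) (.g (nat_lit 4618) (.e (nat_lit 1858) (nat_lit 124) (.e (nat_lit 557101) (nat_lit 13) (.e (nat_lit 172115) (nat_lit 10) (.e (nat_lit 434231) (nat_lit 23) (.e (nat_lit 532569) (nat_lit 16) (.e (nat_lit 401437) (nat_lit 9) (.e (nat_lit 426402) (nat_lit 15) .nil))))))) (.g (nat_lit 0) .nil .nil))) 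
(.lf (nat_lit 83828) (.g (nat_lit 2409) (.e (nat_lit 1858) (nat_lit 124) (.e (nat_lit 557101) (nat_lit 13) (.e (nat_lit 172124) (nat_lit 14) (.e (nat_lit 491540) (nat_lit 3) (.e (nat_lit 98370) (nat_lit 28) (.e (nat_lit 450304) (nat_lit 0) .nil)))))) (.g (nat_lit 5) .nil .nil))))) (.nd (nat_lit 4) (.nd (nat_lit 5) 
(.lf (nat_lit 83788) (.g (nat_lit 3753) (.e (nat_lit 1858) (nat_lit 124) (.e (nat_lit 557101) (nat_lit 13) (.e (nat_lit 172115) (nat_lit 10) (.e (nat_lit 434231) (nat_lit 23) (.e (nat_lit 532567) (nat_lit 16) (.e (nat_lit 401438) (nat_lit 9) (.e (nat_lit 426402) (nat_lit 15) .nil))))))) (.g (nat_lit 0) .nil .nil))) 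
(.lf (nat_lit 83820) (.g (nat_lit 4265) (.e (nat_lit 1858) (nat_lit 124) (.e (nat_lit 557101) (nat_lit 13) (.e (nat_lit 172115) (nat_lit 10) (.e (nat_lit 434244) (nat_lit 28) (.e (nat_lit 573471) (nat_lit 11) (.e (nat_lit 16438) (nat_lit 9) (.e (nat_lit 426402) (nat_lit 15) .nil))))))) (.g (nat_lit 7) .nil .nil)))) (.nd (nat_lit 5) 
(.lf (nat_lit 83804) (.g (nat_lit 2550) (.e (nat_lit 1858) (nat_lit 124) (.e (nat_lit 557101) (nat_lit 13) (.e (nat_lit 172115) (nat_lit 10) (.e (nat_lit 434244) (nat_lit 28) (.e (nat_lit 573458) (nat_lit 9) (.e (nat_lit 7936) (nat_lit 37) (.e (nat_lit 474880) (nat_lit 0) .nil))))))) (.g (nat_lit 5) .nil .nil))) 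
(.lf (nat_lit 83836) (.g (nat_lit 2465) (.e (nat_lit 1858) (nat_lit 124) (.e (nat_lit 557103) (nat_lit 14) (.e (nat_lit 180276) (nat_lit 32) (.e (nat_lit 1074) (nat_lit 81) (.e (nat_lit 1796) (nat_lit 119) (.e (nat_lit 516175) (nat_lit 14) (.e (nat_lit 474880) (nat_lit 0) .nil))))))) (.g (nat_lit 5) .nil .nil))))))) (.nd (nat_lit 2) (.nd (nat_lit 3) (.nd (nat_lit 4) (.nd (nat_lit 5) 
(.lf (nat_lit 83778) (.g (nat_lit 2626) (.e (nat_lit 1858) (nat_lit 124) (.e (nat_lit 557101) (nat_lit 13) (.e (nat_lit 172115) (nat_lit 10) (.e (nat_lit 434231) (nat_lit 23) (.e (nat_lit 532525) (nat_lit 8) (.e (nat_lit 327718) (nat_lit 19) (.e (nat_lit 311348) (nat_lit 15) .nil))))))) (.g (nat_lit 5) .nil .nil))) 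
(.lf (nat_lit 83810) (.g (nat_lit 2144) (.e (nat_lit 1858) (nat_lit 124) (.e (nat_lit 557101) (nat_lit 13) (.e (nat_lit 172115) (nat_lit 10) (.e (nat_lit 434244) (nat_lit 28) (.e (nat_lit 573470) (nat_lit 11) (.e (nat_lit 16438) (nat_lit 9) (.e (nat_lit 426364) (nat_lit 15) .nil))))))) (.g (nat_lit 4) .nil .nil)))) (.nd (nat_lit 5) 
(.lf (nat_lit 83794) (.g (nat_lit 4710) (.e (nat_lit 1858) (nat_lit 124) (.e (nat_lit 557101) (nat_lit 13) (.e (nat_lit 172115) (nat_lit 10) (.e (nat_lit 434231) (nat_lit 23) (.e (nat_lit 532569) (nat_lit 16) (.e (nat_lit 401435) (nat_lit 9) (.e (nat_lit 426402) (nat_lit 15) .nil))))))) (.g (nat_lit 0) .nil .nil))) 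
(.lf (nat_lit 83826) (.g (nat_lit 1914) (.e (nat_lit 1858) (nat_lit 124) (.e (nat_lit 557101) (nat_lit 13) (.e (nat_lit 172124) (nat_lit 14) (.e (nat_lit 491540) (nat_lit 3) (.e (nat_lit 98365) (nat_lit 26) (.e (nat_lit 426198) (nat_lit 9) (.e (nat_lit 426402) (nat_lit 15) .nil))))))) (.g (nat_lit 4) .nil .nil))))) (.nd (nat_lit 4) (.nd (nat_lit 5) 
(.lf (nat_lit 83786) (.g (nat_lit 2393) (.e (nat_lit 1858) (nat_lit 124) (.e (nat_lit 557101) (nat_lit 13) (.e (nat_lit 172115) (nat_lit 10) (.e (nat_lit 434231) (nat_lit 23) (.e (nat_lit 532567) (nat_lit 16) (.e (nat_lit 401437) (nat_lit 9) (.e (nat_lit 426364) (nat_lit 15) .nil))))))) (.g (nat_lit 4) .nil .nil))) 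
(.lf (nat_lit 83818) (.g (nat_lit 4532) (.e (nat_lit 1858) (nat_lit 124) (.e (nat_lit 557101) (nat_lit 13) (.e (nat_lit 172115) (nat_lit 10) (.e (nat_lit 434244) (nat_lit 28) (.e (nat_lit 573471) (nat_lit 11) (.e (nat_lit 16436) (nat_lit 9) (.e (nat_lit 426402) (nat_lit 15) .nil))))))) (.g (nat_lit 0) .nil .nil)))) (.nd (nat_lit 5) 
(.lf (nat_lit 83802) (.g (nat_lit 2158) (.e (nat_lit 1858) (nat_lit 124) (.e (nat_lit 557101) (nat_lit 13) (.e (nat_lit 172115) (nat_lit 10) (.e (nat_lit 434238) (nat_lit 25) (.e (nat_lit 548898) (nat_lit 14) (.e (nat_lit 3045) (nat_lit 189) (.e (nat_lit 474880) (nat_lit 0) .nil))))))) (.g (nat_lit 4) .nil .nil))) 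
(.lf (nat_lit 83834) (.g (nat_lit 1630) (.e (nat_lit 1858) (nat_lit 124) (.e (nat_lit 557101) (nat_lit 13) (.e (nat_lit 172126) (nat_lit 14) (.e (nat_lit 491540) (nat_lit 3) (.e (nat_lit 98370) (nat_lit 28) (.e (nat_lit 450304) (nat_lit 0) .nil)))))) (.g (nat_lit 4) .nil .nil)))))) (.nd (nat_lit 3) (.nd (nat_lit 4) (.nd (nat_lit 5) 
(.lf (nat_lit 83782) (.g (nat_lit 4079) (.e (nat_lit 1858) (nat_lit 124) (.e (nat_lit 557101) (nat_lit 13) (.e (nat_lit 172115) (nat_lit 10) (.e (nat_lit 434231) (nat_lit 23) (.e (nat_lit 532543) (nat_lit 10) (.e (nat_lit 344169) (nat_lit 40) (.e (nat_lit 671748) (nat_lit 0) (.e (nat_lit 1047) (nat_lit 81) .nil)))))))) (.g (nat_lit 6) .nil .nil))) 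
(.lf (nat_lit 83814) (.g (nat_lit 2799) (.e (nat_lit 1858) (nat_lit 124) (.e (nat_lit 557101) (nat_lit 13) (.e (nat_lit 172115) (nat_lit 10) (.e (nat_lit 434244) (nat_lit 28) (.e (nat_lit 573471) (nat_lit 11) (.e (nat_lit 16431) (nat_lit 9) (.e (nat_lit 426363) (nat_lit 15) .nil))))))) (.g (nat_lit 5) .nil .nil)))) (.nd (nat_lit 5) 
(.lf (nat_lit 83798) (.g (nat_lit 2911) (.e (nat_lit 1858) (nat_lit 124) (.e (nat_lit 557101) (nat_lit 13) (.e (nat_lit 172115) (nat_lit 10) (.e (nat_lit 434231) (nat_lit 23) (.e (nat_lit 532569) (nat_lit 16) (.e (nat_lit 401444) (nat_lit 9) (.e (nat_lit 433920) (nat_lit 15) .nil))))))) (.g (nat_lit 6) .nil .nil))) 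
(.lf (nat_lit 83830) (.g (nat_lit 2095) (.e (nat_lit 1858) (nat_lit 124) (.e (nat_lit 557101) (nat_lit 13) (.e (nat_lit 172124) (nat_lit 14) (.e (nat_lit 491540) (nat_lit 3) (.e (nat_lit 98381) (nat_lit 31) (.e (nat_lit 474880) (nat_lit 0) .nil)))))) (.g (nat_lit 5) .nil .nil))))) (.nd (nat_lit 4) (.nd (nat_lit 5) 
(.lf (nat_lit 83790) (.g (nat_lit 2570) (.e (nat_lit 1858) (nat_lit 124) (.e (nat_lit 557101) (nat_lit 13) (.e (nat_lit 172115) (nat_lit 10) (.e (nat_lit 434231) (nat_lit 23) (.e (nat_lit 532568) (nat_lit 16) (.e (nat_lit 401437) (nat_lit 9) (.e (nat_lit 426364) (nat_lit 15) .nil))))))) (.g (nat_lit 4) .nil .nil))) 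
(.lf (nat_lit 83822) (.g (nat_lit 1996) (.e (nat_lit 1858) (nat_lit 124) (.e (nat_lit 557101) (nat_lit 13) (.e (nat_lit 172115) (nat_lit 10) (.e (nat_lit 434244) (nat_lit 28) (.e (nat_lit 573471) (nat_lit 11) (.e (nat_lit 16440) (nat_lit 9) (.e (nat_lit 433920) (nat_lit 15) .nil))))))) (.g (nat_lit 4) .nil .nil)))) (.nd (nat_lit 5) 
(.lf (nat_lit 83806) (.g (nat_lit 3137) (.e (nat_lit 1858) (nat_lit 124) (.e (nat_lit 557101) (nat_lit 13) (.e (nat_lit 172115) (nat_lit 10) (.e (nat_lit 434244) (nat_lit 28) (.e (nat_lit 573469) (nat_lit 11) (.e (nat_lit 16435) (nat_lit 9) (.e (nat_lit 426402) (nat_lit 15) .nil))))))) (.g (nat_lit 5) .nil .nil))) 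
(.lf (nat_lit 83838) (.g (nat_lit 622) (.e (nat_lit 1858) (nat_lit 124) (.e (nat_lit 557103) (nat_lit 14) (.e (nat_lit 180277) (nat_lit 32) .nil))) .nil))))))) (.nd (nat_lit 1) (.nd (nat_lit 2) (.nd (nat_lit 3) (.nd (nat_lit 4) (.nd (nat_lit 5) 
(.lf (nat_lit 83777) (.g (nat_lit 4211) (.e (nat_lit 1858) (nat_lit 124) (.e (nat_lit 557101) (nat_lit 13) (.e (nat_lit 172115) (nat_lit 10) (.e (nat_lit 434231) (nat_lit 23) (.e (nat_lit 532523) (nat_lit 7) (.e (nat_lit 319538) (nat_lit 19) (.e (nat_lit 311348) (nat_lit 15) .nil))))))) (.g (nat_lit 5) .nil .nil))) 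
(.lf (nat_lit 83809) (.g (nat_lit 2975) (.e (nat_lit 1858) (nat_lit 124) (.e (nat_lit 557101) (nat_lit 13) (.e (nat_lit 172115) (nat_lit 10) (.e (nat_lit 434244) (nat_lit 28) (.e (nat_lit 573470) (nat_lit 11) (.e (nat_lit 16435) (nat_lit 9) (.e (nat_lit 426402) (nat_lit 15) .nil))))))) (.g (nat_lit 5) .nil .nil)))) (.nd (nat_lit 5) 
(.lf (nat_lit 83793) (.g (nat_lit 2226) (.e (nat_lit 1858) (nat_lit 124) (.e (nat_lit 557101) (nat_lit 13) (.e (nat_lit 172115) (nat_lit 10) (.e (nat_lit 434231) (nat_lit 23) (.e (nat_lit 532569) (nat_lit 16) (.e (nat_lit 401434) (nat_lit 9) (.e (nat_lit 426402) (nat_lit 15) .nil))))))) (.g (nat_lit 4) .nil .nil))) 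
(.lf (nat_lit 83825) (.g (nat_lit 758) (.e (nat_lit 1858) (nat_lit 124) (.e (nat_lit 557101) (nat_lit 13) (.e (nat_lit 172124) (nat_lit 14) (.e (nat_lit 491540) (nat_lit 3) .nil)))) .nil)))) (.nd (nat_lit 4) (.nd (nat_lit 5) 
(.lf (nat_lit 83785) (.g (nat_lit 3432) (.e (nat_lit 1858) (nat_lit 124) (.e (nat_lit 557101) (nat_lit 13) (.e (nat_lit 172115) (nat_lit 10) (.e (nat_lit 434231) (nat_lit 23) (.e (nat_lit 532567) (nat_lit 16) (.e (nat_lit 401436) (nat_lit 9) (.e (nat_lit 426402) (nat_lit 15) .nil))))))) (.g (nat_lit 0) .nil .nil))) 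
(.lf (nat_lit 83817) (.g (nat_lit 4411) (.e (nat_lit 1858) (nat_lit 124) (.e (nat_lit 557101) (nat_lit 13) (.e (nat_lit 172115) (nat_lit 10) (.e (nat_lit 434244) (nat_lit 28) (.e (nat_lit 573471) (nat_lit 11) (.e (nat_lit 16435) (nat_lit 9) (.e (nat_lit 426402) (nat_lit 15) .nil))))))) (.g (nat_lit 0) .nil .nil)))) (.nd (nat_lit 5) 
(.lf (nat_lit 83801) (.g (nat_lit 2429) (.e (nat_lit 1858) (nat_lit 124) (.e (nat_lit 557101) (nat_lit 13) (.e (nat_lit 172115) (nat_lit 10) (.e (nat_lit 434238) (nat_lit 25) (.e (nat_lit 548896) (nat_lit 14) (.e (nat_lit 2982) (nat_lit 186) (.e (nat_lit 450304) (nat_lit 0) .nil))))))) (.g (nat_lit 5) .nil .nil))) 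
(.lf (nat_lit 83833) (.g (nat_lit 1303) (.e (nat_lit 1858) (nat_lit 124) (.e (nat_lit 557101) (nat_lit 13) (.e (nat_lit 172126) (nat_lit 14) (.e (nat_lit 491539) (nat_lit 3) .nil)))) .nil))))) (.nd (nat_lit 3) (.nd (nat_lit 4) (.nd (nat_lit 5) 
(.lf (nat_lit 83781) (.g (nat_lit 3633) (.e (nat_lit 1858) (nat_lit 124) (.e (nat_lit 557101) (nat_lit 13) (.e (nat_lit 172115) (nat_lit 10) (.e (nat_lit 434231) (nat_lit 23) (.e (nat_lit 532535) (nat_lit 9) (.e (nat_lit 335928) (nat_lit 0) (.e (nat_lit 2006) (nat_lit 138) (.e (nat_lit 671748) (nat_lit 0) (.e (nat_lit 1047) (nat_lit 81) .nil))))))))) (.g (nat_lit 5) .nil .nil))) 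
(.lf (nat_lit 83813) (.g (nat_lit 3980) (.e (nat_lit 1858) (nat_lit 124) (.e (nat_lit 557101) (nat_lit 13) (.e (nat_lit 172115) (nat_lit 10) (.e (nat_lit 434244) (nat_lit 28) (.e (nat_lit 573471) (nat_lit 11) (.e (nat_lit 16392) (nat_lit 0) (.e (nat_lit 7349) (nat_lit 388) (.e (nat_lit 59) (nat_lit 0) .nil)))))))) (.g (nat_lit 5) .nil .nil)))) (.nd (nat_lit 5) 
(.lf (nat_lit 83797) (.g (nat_lit 3259) (.e (nat_lit 1858) (nat_lit 124) (.e (nat_lit 557101) (nat_lit 13) (.e (nat_lit 172115) (nat_lit 10) (.e (nat_lit 434231) (nat_lit 23) (.e (nat_lit 532569) (nat_lit 16) (.e (nat_lit 401440) (nat_lit 9) (.e (nat_lit 433920) (nat_lit 15) .nil))))))) (.g (nat_lit 6) .nil .nil))) 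
(.lf (nat_lit 83829) (.g (nat_lit 2010) (.e (nat_lit 1858) (nat_lit 124) (.e (nat_lit 557101) (nat_lit 13) (.e (nat_lit 172124) (nat_lit 14) (.e (nat_lit 491540) (nat_lit 3) (.e (nat_lit 98380) (nat_lit 31) (.e (nat_lit 474880) (nat_lit 0) .nil)))))) (.g (nat_lit 5) .nil .nil))))) (.nd (nat_lit 4) (.nd (nat_lit 5) 
(.lf (nat_lit 83789) (.g (nat_lit 3574) (.e (nat_lit 1858) (nat_lit 124) (.e (nat_lit 557101) (nat_lit 13) (.e (nat_lit 172115) (nat_lit 10) (.e (nat_lit 434231) (nat_lit 23) (.e (nat_lit 532568) (nat_lit 16) (.e (nat_lit 401436) (nat_lit 9) (.e (nat_lit 426402) (nat_lit 15) .nil))))))) (.g (nat_lit 6) .nil .nil))) 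
(.lf (nat_lit 83821) (.g (nat_lit 2978) (.e (nat_lit 1858) (nat_lit 124) (.e (nat_lit 557101) (nat_lit 13) (.e (nat_lit 172115) (nat_lit 10) (.e (nat_lit 434244) (nat_lit 28) (.e (nat_lit 573471) (nat_lit 11) (.e (nat_lit 16439) (nat_lit 9) (.e (nat_lit 433920) (nat_lit 15) .nil))))))) (.g (nat_lit 6) .nil .nil)))) (.nd (nat_lit 5) 
(.lf (nat_lit 83805) (.g (nat_lit 3661) (.e (nat_lit 1858) (nat_lit 124) (.e (nat_lit 557101) (nat_lit 13) (.e (nat_lit 172115) (nat_lit 10) (.e (nat_lit 434244) (nat_lit 28) (.e (nat_lit 573468) (nat_lit 10) (.e (nat_lit 8525) (nat_lit 205) (.e (nat_lit 2857) (nat_lit 184) (.e (nat_lit 426402) (nat_lit 15) .nil)))))))) (.g (nat_lit 5) .nil .nil))) 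
(.lf (nat_lit 83837) (.g (nat_lit 2360) (.e (nat_lit 1858) (nat_lit 124) (.e (nat_lit 557103) (nat_lit 14) (.e (nat_lit 180276) (nat_lit 32) (.e (nat_lit 1077) (nat_lit 81) (.e (nat_lit 1796) (nat_lit 119) (.e (nat_lit 516175) (nat_lit 14) (.e (nat_lit 474880) (nat_lit 0) .nil))))))) (.g (nat_lit 5) .nil .nil))))))) (.nd (nat_lit 2) (.nd (nat_lit 3) (.nd (nat_lit 4) (.nd (nat_lit 5) 
(.lf (nat_lit 83779) (.g (nat_lit 4369) (.e (nat_lit 1858) (nat_lit 124) (.e (nat_lit 557101) (nat_lit 13) (.e (nat_lit 172115) (nat_lit 10) (.e (nat_lit 434231) (nat_lit 23) (.e (nat_lit 532535) (nat_lit 9) (.e (nat_lit 335925) (nat_lit 0) (.e (nat_lit 2006) (nat_lit 138) (.e (nat_lit 671748) (nat_lit 0) (.e (nat_lit 1047) (nat_lit 81) .nil))))))))) (.g (nat_lit 5) .nil .nil))) 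
(.lf (nat_lit 83811) (.g (nat_lit 4397) (.e (nat_lit 1858) (nat_lit 124) (.e (nat_lit 557101) (nat_lit 13) (.e (nat_lit 172115) (nat_lit 10) (.e (nat_lit 434244) (nat_lit 28) (.e (nat_lit 573470) (nat_lit 11) (.e (nat_lit 16438) (nat_lit 9) (.e (nat_lit 426402) (nat_lit 15) .nil))))))) (.g (nat_lit 7) .nil .nil)))) (.nd (nat_lit 5) 
(.lf (nat_lit 83795) (.g (nat_lit 4074) (.e (nat_lit 1858) (nat_lit 124) (.e (nat_lit 557101) (nat_lit 13) (.e (nat_lit 172115) (nat_lit 10) (.e (nat_lit 434231) (nat_lit 23) (.e (nat_lit 532569) (nat_lit 16) (.e (nat_lit 401436) (nat_lit 9) (.e (nat_lit 426402) (nat_lit 15) .nil))))))) (.g (nat_lit 7) .nil .nil))) 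
(.lf (nat_lit 83827) (.g (nat_lit 2044) (.e (nat_lit 1858) (nat_lit 124) (.e (nat_lit 557101) (nat_lit 13) (.e (nat_lit 172124) (nat_lit 14) (.e (nat_lit 491540) (nat_lit 3) (.e (nat_lit 98369) (nat_lit 28) (.e (nat_lit 450304) (nat_lit 0) .nil)))))) (.g (nat_lit 5) .nil .nil))))) (.nd (nat_lit 4) (.nd (nat_lit 5) 
(.lf (nat_lit 83787) (.g (nat_lit 3996) (.e (nat_lit 1858) (nat_lit 124) (.e (nat_lit 557101) (nat_lit 13) (.e (nat_lit 172115) (nat_lit 10) (.e (nat_lit 434231) (nat_lit 23) (.e (nat_lit 532567) (nat_lit 16) (.e (nat_lit 401437) (nat_lit 9) (.e (nat_lit 426402) (nat_lit 15) .nil))))))) (.g (nat_lit 0) .nil .nil))) 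
(.lf (nat_lit 83819) (.g (nat_lit 3475) (.e (nat_lit 1858) (nat_lit 124) (.e (nat_lit 557101) (nat_lit 13) (.e (nat_lit 172115) (nat_lit 10) (.e (nat_lit 434244) (nat_lit 28) (.e (nat_lit 573471) (nat_lit 11) (.e (nat_lit 16437) (nat_lit 9) (.e (nat_lit 426402) (nat_lit 15) .nil))))))) (.g (nat_lit 5) .nil .nil)))) (.nd (nat_lit 5) 
(.lf (nat_lit 83803) (.g (nat_lit 1793) (.e (nat_lit 1858) (nat_lit 124) (.e (nat_lit 557101) (nat_lit 13) (.e (nat_lit 172115) (nat_lit 10) (.e (nat_lit 434238) (nat_lit 25) (.e (nat_lit 548915) (nat_lit 20) (.e (nat_lit 196352) (nat_lit 0) .nil)))))) (.g (nat_lit 4) .nil .nil))) 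
(.lf (nat_lit 83835) (.g (nat_lit 2336) (.e (nat_lit 1858) (nat_lit 124) (.e (nat_lit 557103) (nat_lit 14) (.e (nat_lit 180243) (nat_lit 5) (.e (nat_lit 532508) (nat_lit 2) (.e (nat_lit 114432) (nat_lit 3) .nil))))) .nil))))) (.nd (nat_lit 3) (.nd (nat_lit 4) (.nd (nat_lit 5) 
(.lf (nat_lit 83783) (.g (nat_lit 4530) (.e (nat_lit 1858) (nat_lit 124) (.e (nat_lit 557101) (nat_lit 13) (.e (nat_lit 172115) (nat_lit 10) (.e (nat_lit 434231) (nat_lit 23) (.e (nat_lit 532544) (nat_lit 10) (.e (nat_lit 344169) (nat_lit 40) (.e (nat_lit 671748) (nat_lit 0) (.e (nat_lit 1047) (nat_lit 81) .nil)))))))) (.g (nat_lit 6) .nil .nil))) 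
(.lf (nat_lit 83815) (.g (nat_lit 3134) (.e (nat_lit 1858) (nat_lit 124) (.e (nat_lit 557101) (nat_lit 13) (.e (nat_lit 172115) (nat_lit 10) (.e (nat_lit 434244) (nat_lit 28) (.e (nat_lit 573471) (nat_lit 11) (.e (nat_lit 16431) (nat_lit 9) (.e (nat_lit 426399) (nat_lit 15) .nil))))))) (.g (nat_lit 5) .nil .nil)))) (.nd (nat_lit 5) 
(.lf (nat_lit 83799) (.g (nat_lit 2182) (.e (nat_lit 1858) (nat_lit 124) (.e (nat_lit 557101) (nat_lit 13) (.e (nat_lit 172115) (nat_lit 10) (.e (nat_lit 434231) (nat_lit 23) (.e (nat_lit 532569) (nat_lit 16) (.e (nat_lit 409344) (nat_lit 9) (.e (nat_lit 426402) (nat_lit 15) .nil))))))) (.g (nat_lit 4) .nil .nil))) 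
(.lf (nat_lit 83831) (.g (nat_lit 2158) (.e (nat_lit 1858) (nat_lit 124) (.e (nat_lit 557101) (nat_lit 13) (.e (nat_lit 172126) (nat_lit 14) (.e (nat_lit 491537) (nat_lit 2) (.e (nat_lit 90185) (nat_lit 17) .nil))))) .nil)))) (.nd (nat_lit 4) (.nd (nat_lit 5) 
(.lf (nat_lit 83791) (.g (nat_lit 4239) (.e (nat_lit 1858) (nat_lit 124) (.e (nat_lit 557101) (nat_lit 13) (.e (nat_lit 172115) (nat_lit 10) (.e (nat_lit 434231) (nat_lit 23) (.e (nat_lit 532568) (nat_lit 16) (.e (nat_lit 401437) (nat_lit 9) (.e (nat_lit 426402) (nat_lit 15) .nil))))))) (.g (nat_lit 0) .nil .nil))) 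
(.lf (nat_lit 83823) (.g (nat_lit 2734) (.e (nat_lit 1858) (nat_lit 124) (.e (nat_lit 557101) (nat_lit 13) (.e (nat_lit 172115) (nat_lit 10) (.e (nat_lit 434244) (nat_lit 28) (.e (nat_lit 573471) (nat_lit 11) (.e (nat_lit 16444) (nat_lit 9) (.e (nat_lit 426401) (nat_lit 15) .nil))))))) (.g (nat_lit 5) .nil .nil)))) (.nd (nat_lit 5) 
(.lf (nat_lit 83807) (.g (nat_lit 2427) (.e (nat_lit 1858) (nat_lit 124) (.e (nat_lit 557101) (nat_lit 13) (.e (nat_lit 172115) (nat_lit 10) (.e (nat_lit 434244) (nat_lit 28) (.e (nat_lit 573469) (nat_lit 11) (.e (nat_lit 16438) (nat_lit 9) (.e (nat_lit 426364) (nat_lit 15) .nil))))))) (.g (nat_lit 4) .nil .nil))) 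
(.lf (nat_lit 83839) (.g (nat_lit 2478) (.e (nat_lit 1858) (nat_lit 124) (.e (nat_lit 557103) (nat_lit 14) (.e (nat_lit 180278) (nat_lit 32) (.e (nat_lit 1234) (nat_lit 91) (.e (nat_lit 90176) (nat_lit 15) (.e (nat_lit 196352) (nat_lit 0) .nil)))))) (.g (nat_lit 4) .nil .nil)))))))))

noncomputable def tv1134 : DT := (.nd (nat_lit 0) (.nd (nat_lit 1) (.nd (nat_lit 2) (.nd (nat_lit 3) (.nd (nat_lit 4) (.nd (nat_lit 5) 
(.lf (nat_lit 83840) (.g (nat_lit 2319) (.e (nat_lit 1858) (nat_lit 124) (.e (nat_lit 557103) (nat_lit 14) (.e (nat_lit 180278) (nat_lit 32) (.e (nat_lit 1234) (nat_lit 91) (.e (nat_lit 90178) (nat_lit 15) (.e (nat_lit 196352) (nat_lit 0) .nil)))))) (.g (nat_lit 4) .nil .nil))) 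
(.lf (nat_lit 83872) (.g (nat_lit 3098) (.e (nat_lit 1858) (nat_lit 124) (.e (nat_lit 557105) (nat_lit 14) (.e (nat_lit 180251) (nat_lit 10) (.e (nat_lit 573489) (nat_lit 14) (.e (nat_lit 73755) (nat_lit 8) (.e (nat_lit 557091) (nat_lit 12) (.e (nat_lit 163999) (nat_lit 38) (.e (nat_lit 639005) (nat_lit 13) (.e (nat_lit 1027) (nat_lit 81) .nil))))))))) (.g (nat_lit 4) .nil .nil)))) 
(.nd (nat_lit 5) 
(.lf (nat_lit 83856) (.g (nat_lit 1534) (.e (nat_lit 1858) (nat_lit 124) (.e (nat_lit 557103) (nat_lit 14) (.e (nat_lit 180285) (nat_lit 45) (.e (nat_lit 2571) (nat_lit 160) .nil)))) .nil)) 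
(.lf (nat_lit 83888) (.g (nat_lit 3808) (.e (nat_lit 1858) (nat_lit 124) (.e (nat_lit 557105) (nat_lit 14) (.e (nat_lit 180252) (nat_lit 10) (.e (nat_lit 573474) (nat_lit 12) (.e (nat_lit 57354) (nat_lit 0) (.e (nat_lit 5194) (nat_lit 294) (.e (nat_lit 57372) (nat_lit 2) (.e (nat_lit 90160) (nat_lit 11) (.e (nat_lit 24592) (nat_lit 0) .nil))))))))) (.g (nat_lit 4) .nil .nil))))) 
(.nd (nat_lit 4) (.nd (nat_lit 5) 
(.lf (nat_lit 83848) (.g (nat_lit 2471) (.e (nat_lit 1858) (nat_lit 124) (.e (nat_lit 557103) (nat_lit 14) (.e (nat_lit 188160) (nat_lit 35) (.e (nat_lit 57464) (nat_lit 23) (.e (nat_lit 516163) (nat_lit 11) (.e (nat_lit 450304) (nat_lit 0) .nil)))))) (.g (nat_lit 5) .nil .nil))) 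
(.lf (nat_lit 83880) (.g (nat_lit 2448) (.e (nat_lit 1858) (nat_lit 124) (.e (nat_lit 557105) (nat_lit 14) (.e (nat_lit 180252) (nat_lit 10) (.e (nat_lit 573473) (nat_lit 12) (.e (nat_lit 57354) (nat_lit 0) .nil))))) .nil))) (.nd (nat_lit 5) 
(.lf (nat_lit 83864) (.g (nat_lit 3377) (.e (nat_lit 1858) (nat_lit 124) (.e (nat_lit 557105) (nat_lit 14) (.e (nat_lit 180251) (nat_lit 10) (.e (nat_lit 573485) (nat_lit 13) (.e (nat_lit 65570) (nat_lit 3) (.e (nat_lit 98333) (nat_lit 18) (.e (nat_lit 164183) (nat_lit 154) (.e (nat_lit 57344) (nat_lit 0) .nil)))))))) (.g (nat_lit 5) .nil .nil))) 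
(.lf (nat_lit 83896) (.g (nat_lit 2952) (.e (nat_lit 1858) (nat_lit 124) (.e (nat_lit 557105) (nat_lit 14) (.e (nat_lit 180252) (nat_lit 10) (.e (nat_lit 573475) (nat_lit 12) (.e (nat_lit 57354) (nat_lit 0) .nil))))) .nil))))) (.nd (nat_lit 3) (.nd (nat_lit 4) (.nd (nat_lit 5) 
(.lf (nat_lit 83844) (.g (nat_lit 2731) (.e (nat_lit 1858) (nat_lit 124) (.e (nat_lit 557103) (nat_lit 14) (.e (nat_lit 180278) (nat_lit 32) (.e (nat_lit 1253) (nat_lit 92) (.e (nat_lit 98358) (nat_lit 26) (.e (nat_lit 426227) (nat_lit 9) (.e (nat_lit 433920) (nat_lit 15) .nil))))))) (.g (nat_lit 5) .nil .nil))) 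
(.lf (nat_lit 83876) (.g (nat_lit 2139) (.e (nat_lit 1858) (nat_lit 124) (.e (nat_lit 557105) (nat_lit 14) (.e (nat_lit 180252) (nat_lit 10) (.e (nat_lit 581376) (nat_lit 5) .nil)))) .nil))) (.nd (nat_lit 5) 
(.lf (nat_lit 83860) (.g (nat_lit 3338) (.e (nat_lit 1858) (nat_lit 124) (.e (nat_lit 557105) (nat_lit 14) (.e (nat_lit 180233) (nat_lit 0) (.e (nat_lit 5599) (nat_lit 310) (.e (nat_lit 163902) (nat_lit 12) (.e (nat_lit 426472) (nat_lit 25) (.e (nat_lit 319531) (nat_lit 16) (.e (nat_lit 286728) (nat_lit 0) .nil)))))))) (.g (nat_lit 4) .nil .nil))) 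
(.lf (nat_lit 83892) (.g (nat_lit 4086) (.e (nat_lit 1858) (nat_lit 124) (.e (nat_lit 557105) (nat_lit 14) (.e (nat_lit 180252) (nat_lit 10) (.e (nat_lit 573474) (nat_lit 12) (.e (nat_lit 57354) (nat_lit 0) (.e (nat_lit 5194) (nat_lit 294) (.e (nat_lit 57375) (nat_lit 2) (.e (nat_lit 90160) (nat_lit 11) (.e (nat_lit 24592) (nat_lit 0) .nil))))))))) (.g (nat_lit 4) .nil .nil))))) 
(.nd (nat_lit 4) (.nd (nat_lit 5) 
(.lf (nat_lit 83852) (.g (nat_lit 2265) (.e (nat_lit 1858) (nat_lit 124) (.e (nat_lit 557103) (nat_lit 14) (.e (nat_lit 188160) (nat_lit 38) (.e (nat_lit 122936) (nat_lit 23) (.e (nat_lit 516174) (nat_lit 14) (.e (nat_lit 474880) (nat_lit 0) .nil)))))) (.g (nat_lit 5) .nil .nil))) 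
(.lf (nat_lit 83884) (.g (nat_lit 2909) (.e (nat_lit 1858) (nat_lit 124) (.e (nat_lit 557105) (nat_lit 14) (.e (nat_lit 180252) (nat_lit 10) (.e (nat_lit 573474) (nat_lit 12) (.e (nat_lit 57354) (nat_lit 0) .nil))))) .nil))) (.nd (nat_lit 5) 
(.lf (nat_lit 83868) (.g (nat_lit 2577) (.e (nat_lit 1858) (nat_lit 124) (.e (nat_lit 557105) (nat_lit 14) (.e (nat_lit 180251) (nat_lit 10) (.e (nat_lit 573487) (nat_lit 14) (.e (nat_lit 73746) (nat_lit 3) .nil))))) .nil)) 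
(.lf (nat_lit 83900) (.g (nat_lit 1657) (.e (nat_lit 1858) (nat_lit 124) (.e (nat_lit 557105) (nat_lit 14) (.e (nat_lit 180252) (nat_lit 10) (.e (nat_lit 573480) (nat_lit 13) .nil)))) .nil)))))) (.nd (nat_lit 2) (.nd (nat_lit 3) (.nd (nat_lit 4) (.nd (nat_lit 5) 
(.lf (nat_lit 83842) (.g (nat_lit 2323) (.e (nat_lit 1858) (nat_lit 124) (.e (nat_lit 557103) (nat_lit 14) (.e (nat_lit 180278) (nat_lit 32) (.e (nat_lit 1235) (nat_lit 91) (.e (nat_lit 90176) (nat_lit 15) (.e (nat_lit 196352) (nat_lit 0) .nil)))))) (.g (nat_lit 4) .nil .nil))) 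
(.lf (nat_lit 83874) (.g (nat_lit 460) (.e (nat_lit 1858) (nat_lit 124) (.e (nat_lit 557105) (nat_lit 14) (.e (nat_lit 180252) (nat_lit 10) .nil))) .nil))) (.nd (nat_lit 5) 
(.lf (nat_lit 83858) (.g (nat_lit 808) (.e (nat_lit 1858) (nat_lit 124) (.e (nat_lit 557105) (nat_lit 14) (.e (nat_lit 180232) (nat_lit 0) .nil))) .nil)) 
(.lf (nat_lit 83890) (.g (nat_lit 3640) (.e (nat_lit 1858) (nat_lit 124) (.e (nat_lit 557105) (nat_lit 14) (.e (nat_lit 180252) (nat_lit 10) (.e (nat_lit 573474) (nat_lit 12) (.e (nat_lit 57354) (nat_lit 0) (.e (nat_lit 5194) (nat_lit 294) (.e (nat_lit 57375) (nat_lit 2) (.e (nat_lit 90160) (nat_lit 11) (.e (nat_lit 24590) (nat_lit 0) .nil))))))))) (.g (nat_lit 4) .nil .nil))))) 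
(.nd (nat_lit 4) (.nd (nat_lit 5) 
(.lf (nat_lit 83850) (.g (nat_lit 1986) (.e (nat_lit 1858) (nat_lit 124) (.e (nat_lit 557103) (nat_lit 14) (.e (nat_lit 188160) (nat_lit 35) (.e (nat_lit 57464) (nat_lit 23) (.e (nat_lit 516175) (nat_lit 14) (.e (nat_lit 474880) (nat_lit 0) .nil)))))) (.g (nat_lit 5) .nil .nil))) 
(.lf (nat_lit 83882) (.g (nat_lit 3259) (.e (nat_lit 1858) (nat_lit 124) (.e (nat_lit 557105) (nat_lit 14) (.e (nat_lit 180252) (nat_lit 10) (.e (nat_lit 573473) (nat_lit 12) (.e (nat_lit 57354) (nat_lit 0) (.e (nat_lit 5194) (nat_lit 294) (.e (nat_lit 57375) (nat_lit 2) (.e (nat_lit 90160) (nat_lit 11) (.e (nat_lit 24576) (nat_lit 0) .nil))))))))) (.g (nat_lit 4) .nil .nil)))) (.nd (nat_lit 5) 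
(.lf (nat_lit 83866) (.g (nat_lit 2798) (.e (nat_lit 1858) (nat_lit 124) (.e (nat_lit 557105) (nat_lit 14) (.e (nat_lit 180251) (nat_lit 10) (.e (nat_lit 573485) (nat_lit 13) (.e (nat_lit 65570) (nat_lit 3) (.e (nat_lit 98333) (nat_lit 18) (.e (nat_lit 164183) (nat_lit 154) (.e (nat_lit 57358) (nat_lit 0) .nil)))))))) (.g (nat_lit 4) .nil .nil))) 
(.lf (nat_lit 83898) (.g (nat_lit 3642) (.e (nat_lit 1858) (nat_lit 124) (.e (nat_lit 557105) (nat_lit 14) (.e (nat_lit 180252) (nat_lit 10) (.e (nat_lit 573475) (nat_lit 12) (.e (nat_lit 57354) (nat_lit 0) (.e (nat_lit 5194) (nat_lit 294) (.e (nat_lit 57375) (nat_lit 2) (.e (nat_lit 90160) (nat_lit 11) (.e (nat_lit 24576) (nat_lit 0) .nil))))))))) (.g (nat_lit 4) .nil .nil)))))) 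
(.nd (nat_lit 3) (.nd (nat_lit 4) (.nd (nat_lit 5) 
(.lf (nat_lit 83846) (.g (nat_lit 3047) (.e (nat_lit 1858) (nat_lit 124) (.e (nat_lit 557103) (nat_lit 14) (.e (nat_lit 188160) (nat_lit 35) (.e (nat_lit 57464) (nat_lit 23) (.e (nat_lit 516151) (nat_lit 9) (.e (nat_lit 426195) (nat_lit 9) (.e (nat_lit 426402) (nat_lit 15) .nil))))))) (.g (nat_lit 5) .nil .nil))) 
(.lf (nat_lit 83878) (.g (nat_lit 1850) (.e (nat_lit 1858) (nat_lit 124) (.e (nat_lit 557105) (nat_lit 14) (.e (nat_lit 180252) (nat_lit 10) (.e (nat_lit 573451) (nat_lit 9) .nil)))) .nil))) (.nd (nat_lit 5) 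
(.lf (nat_lit 83862) (.g (nat_lit 2704) (.e (nat_lit 1858) (nat_lit 124) (.e (nat_lit 557105) (nat_lit 14) (.e (nat_lit 180251) (nat_lit 10) (.e (nat_lit 573485) (nat_lit 13) (.e (nat_lit 65570) (nat_lit 3) (.e (nat_lit 98333) (nat_lit 18) (.e (nat_lit 164177) (nat_lit 154) (.e (nat_lit 57357) (nat_lit 0) .nil)))))))) (.g (nat_lit 4) .nil .nil))) 
(.lf (nat_lit 83894) (.g (nat_lit 4614) (.e (nat_lit 1858) (nat_lit 124) (.e (nat_lit 557105) (nat_lit 14) (.e (nat_lit 180252) (nat_lit 10) (.e (nat_lit 573474) (nat_lit 12) (.e (nat_lit 57354) (nat_lit 0) (.e (nat_lit 5195) (nat_lit 294) (.e (nat_lit 57375) (nat_lit 2) (.e (nat_lit 90160) (nat_lit 11) (.e (nat_lit 24576) (nat_lit 0) .nil))))))))) (.g (nat_lit 5) .nil .nil))))) 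
(.nd (nat_lit 4) (.nd (nat_lit 5) 
(.lf (nat_lit 83854) (.g (nat_lit 1544) (.e (nat_lit 1858) (nat_lit 124) (.e (nat_lit 557103) (nat_lit 14) (.e (nat_lit 180285) (nat_lit 45) (.e (nat_lit 2569) (nat_lit 160) .nil)))) .nil)) 
(.lf (nat_lit 83886) (.g (nat_lit 3362) (.e (nat_lit 1858) (nat_lit 124) (.e (nat_lit 557105) (nat_lit 14) (.e (nat_lit 180252) (nat_lit 10) (.e (nat_lit 573474) (nat_lit 12) (.e (nat_lit 57354) (nat_lit 0) (.e (nat_lit 5194) (nat_lit 294) (.e (nat_lit 57372) (nat_lit 2) (.e (nat_lit 90160) (nat_lit 11) (.e (nat_lit 24590) (nat_lit 0) .nil))))))))) (.g (nat_lit 4) .nil .nil)))) (.nd (nat_lit 5) 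
(.lf (nat_lit 83870) (.g (nat_lit 2420) (.e (nat_lit 1858) (nat_lit 124) (.e (nat_lit 557105) (nat_lit 14) (.e (nat_lit 180251) (nat_lit 10) (.e (nat_lit 573489) (nat_lit 14) (.e (nat_lit 73748) (nat_lit 3) .nil))))) .nil)) 
(.lf (nat_lit 83902) (.g (nat_lit 2969) (.e (nat_lit 1858) (nat_lit 124) (.e (nat_lit 557105) (nat_lit 14) (.e (nat_lit 180252) (nat_lit 10) (.e (nat_lit 573480) (nat_lit 13) (.e (nat_lit 73472) (nat_lit 18) (.e (nat_lit 204831) (nat_lit 18) (.e (nat_lit 57849) (nat_lit 252) (.e (nat_lit 57355) (nat_lit 0) .nil)))))))) (.g (nat_lit 4) .nil .nil)))))))) 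
(.nd (nat_lit 1) (.nd (nat_lit 2) (.nd (nat_lit 3) (.nd (nat_lit 4) (.nd (nat_lit 5) 
(.lf (nat_lit 83841) (.g (nat_lit 2335) (.e (nat_lit 1858) (nat_lit 124) (.e (nat_lit 557103) (nat_lit 14) (.e (nat_lit 180278) (nat_lit 32) (.e (nat_lit 1235) (nat_lit 91) (.e (nat_lit 90134) (nat_lit 9) (.e (nat_lit 3002) (nat_lit 186) (.e (nat_lit 450304) (nat_lit 0) .nil))))))) (.g (nat_lit 4) .nil .nil))) 
(.lf (nat_lit 83873) (.g (nat_lit 2704) (.e (nat_lit 1858) (nat_lit 124) (.e (nat_lit 557105) (nat_lit 14) (.e (nat_lit 180251) (nat_lit 10) (.e (nat_lit 573489) (nat_lit 14) (.e (nat_lit 73755) (nat_lit 8) (.e (nat_lit 557091) (nat_lit 12) (.e (nat_lit 164000) (nat_lit 38) (.e (nat_lit 639008) (nat_lit 13) (.e (nat_lit 1032) (nat_lit 81) .nil))))))))) (.g (nat_lit 4) .nil .nil)))) 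
(.nd (nat_lit 5) 
(.lf (nat_lit 83857) (.g (nat_lit 2701) (.e (nat_lit 1858) (nat_lit 124) (.e (nat_lit 557105) (nat_lit 14) (.e (nat_lit 180227) (nat_lit 0) (.e (nat_lit 5934) (nat_lit 322) (.e (nat_lit 57448) (nat_lit 19) (.e (nat_lit 393301) (nat_lit 27) (.e (nat_lit 491520) (nat_lit 0) .nil))))))) (.g (nat_lit 4) .nil .nil))) 
(.lf (nat_lit 83889) (.g (nat_lit 4805) (.e (nat_lit 1858) (nat_lit 124) (.e (nat_lit 557105) (nat_lit 14) (.e (nat_lit 180252) (nat_lit 10) (.e (nat_lit 573474) (nat_lit 12) (.e (nat_lit 57354) (nat_lit 0) (.e (nat_lit 5194) (nat_lit 294) (.e (nat_lit 57375) (nat_lit 2) (.e (nat_lit 90160) (nat_lit 11) (.e (nat_lit 24589) (nat_lit 0) .nil))))))))) (.g (nat_lit 5) .nil .nil))))) 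
(.nd (nat_lit 4) (.nd (nat_lit 5) 
(.lf (nat_lit 83849) (.g (nat_lit 2232) (.e (nat_lit 1858) (nat_lit 124) (.e (nat_lit 557103) (nat_lit 14) (.e (nat_lit 188160) (nat_lit 35) (.e (nat_lit 57464) (nat_lit 23) (.e (nat_lit 516174) (nat_lit 14) (.e (nat_lit 474880) (nat_lit 0) .nil)))))) (.g (nat_lit 5) .nil .nil))) 
(.lf (nat_lit 83881) (.g (nat_lit 2974) (.e (nat_lit 1858) (nat_lit 124) (.e (nat_lit 557105) (nat_lit 14) (.e (nat_lit 180252) (nat_lit 10) (.e (nat_lit 573473) (nat_lit 12) (.e (nat_lit 57354) (nat_lit 0) (.e (nat_lit 5194) (nat_lit 294) (.e (nat_lit 57372) (nat_lit 2) (.e (nat_lit 90160) (nat_lit 11) (.e (nat_lit 24576) (nat_lit 0) .nil))))))))) (.g (nat_lit 4) .nil .nil)))) (.nd (nat_lit 5) 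
(.lf (nat_lit 83865) (.g (nat_lit 2705) (.e (nat_lit 1858) (nat_lit 124) (.e (nat_lit 557105) (nat_lit 14) (.e (nat_lit 180251) (nat_lit 10) (.e (nat_lit 573485) (nat_lit 13) (.e (nat_lit 65570) (nat_lit 3) (.e (nat_lit 98333) (nat_lit 18) (.e (nat_lit 164183) (nat_lit 154) (.e (nat_lit 57356) (nat_lit 0) .nil)))))))) (.g (nat_lit 4) .nil .nil))) 
(.lf (nat_lit 83897) (.g (nat_lit 3357) (.e (nat_lit 1858) (nat_lit 124) (.e (nat_lit 557105) (nat_lit 14) (.e (nat_lit 180252) (nat_lit 10) (.e (nat_lit 573475) (nat_lit 12) (.e (nat_lit 57354) (nat_lit 0) (.e (nat_lit 5194) (nat_lit 294) (.e (nat_lit 57372) (nat_lit 2) (.e (nat_lit 90160) (nat_lit 11) (.e (nat_lit 24576) (nat_lit 0) .nil))))))))) (.g (nat_lit 4) .nil .nil)))))) 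
(.nd (nat_lit 3) (.nd (nat_lit 4) (.nd (nat_lit 5) 
(.lf (nat_lit 83845) (.g (nat_lit 2138) (.e (nat_lit 1858) (nat_lit 124) (.e (nat_lit 557103) (nat_lit 14) (.e (nat_lit 180278) (nat_lit 32) (.e (nat_lit 1253) (nat_lit 92) (.e (nat_lit 98370) (nat_lit 28) (.e (nat_lit 450304) (nat_lit 0) .nil)))))) (.g (nat_lit 4) .nil .nil))) 
(.lf (nat_lit 83877) (.g (nat_lit 1917) (.e (nat_lit 1858) (nat_lit 124) (.e (nat_lit 557105) (nat_lit 14) (.e (nat_lit 180252) (nat_lit 10) (.e (nat_lit 573449) (nat_lit 9) .nil)))) .nil))) (.nd (nat_lit 5) 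
(.lf (nat_lit 83861) (.g (nat_lit 2856) (.e (nat_lit 1858) (nat_lit 124) (.e (nat_lit 557105) (nat_lit 14) (.e (nat_lit 180251) (nat_lit 10) (.e (nat_lit 573485) (nat_lit 13) (.e (nat_lit 65570) (nat_lit 3) (.e (nat_lit 98333) (nat_lit 18) (.e (nat_lit 164177) (nat_lit 154) (.e (nat_lit 57355) (nat_lit 0) .nil)))))))) (.g (nat_lit 5) .nil .nil))) 
(.lf (nat_lit 83893) (.g (nat_lit 3741) (.e (nat_lit 1858) (nat_lit 124) (.e (nat_lit 557105) (nat_lit 14) (.e (nat_lit 180252) (nat_lit 10) (.e (nat_lit 573474) (nat_lit 12) (.e (nat_lit 57354) (nat_lit 0) (.e (nat_lit 5195) (nat_lit 294) (.e (nat_lit 57372) (nat_lit 2) (.e (nat_lit 90160) (nat_lit 11) (.e (nat_lit 24576) (nat_lit 0) .nil))))))))) (.g (nat_lit 4) .nil .nil))))) 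
(.nd (nat_lit 4) (.nd (nat_lit 5) 
(.lf (nat_lit 83853) (.g (nat_lit 2653) (.e (nat_lit 1858) (nat_lit 124) (.e (nat_lit 557103) (nat_lit 14) (.e (nat_lit 188160) (nat_lit 38) (.e (nat_lit 122936) (nat_lit 23) (.e (nat_lit 516176) (nat_lit 14) (.e (nat_lit 474880) (nat_lit 0) .nil)))))) (.g (nat_lit 5) .nil .nil))) 
(.lf (nat_lit 83885) (.g (nat_lit 4527) (.e (nat_lit 1858) (nat_lit 124) (.e (nat_lit 557105) (nat_lit 14) (.e (nat_lit 180252) (nat_lit 10) (.e (nat_lit 573474) (nat_lit 12) (.e (nat_lit 57354) (nat_lit 0) (.e (nat_lit 5194) (nat_lit 294) (.e (nat_lit 57372) (nat_lit 2) (.e (nat_lit 90160) (nat_lit 11) (.e (nat_lit 24589) (nat_lit 0) .nil))))))))) (.g (nat_lit 5) .nil .nil)))) (.nd (nat_lit 5) 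
(.lf (nat_lit 83869) (.g (nat_lit 2917) (.e (nat_lit 1858) (nat_lit 124) (.e (nat_lit 557105) (nat_lit 14) (.e (nat_lit 180251) (nat_lit 10) (.e (nat_lit 573487) (nat_lit 14) (.e (nat_lit 73747) (nat_lit 3) .nil))))) .nil)) 
(.lf (nat_lit 83901) (.g (nat_lit 3096) (.e (nat_lit 1858) (nat_lit 124) (.e (nat_lit 557105) (nat_lit 14) (.e (nat_lit 180252) (nat_lit 10) (.e (nat_lit 573480) (nat_lit 13) (.e (nat_lit 73472) (nat_lit 18) (.e (nat_lit 204829) (nat_lit 18) (.e (nat_lit 57849) (nat_lit 252) (.e (nat_lit 57355) (nat_lit 0) .nil)))))))) (.g (nat_lit 4) .nil .nil))))))) 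
(.nd (nat_lit 2) (.nd (nat_lit 3) (.nd (nat_lit 4) (.nd (nat_lit 5) 
(.lf (nat_lit 83843) (.g (nat_lit 2376) (.e (nat_lit 1858) (nat_lit 124) (.e (nat_lit 557103) (nat_lit 14) (.e (nat_lit 180278) (nat_lit 32) (.e (nat_lit 1235) (nat_lit 91) (.e (nat_lit 90178) (nat_lit 15) (.e (nat_lit 196352) (nat_lit 0) .nil)))))) (.g (nat_lit 4) .nil .nil))) 
(.lf (nat_lit 83875) (.g (nat_lit 2139) (.e (nat_lit 1858) (nat_lit 124) (.e (nat_lit 557105) (nat_lit 14) (.e (nat_lit 180252) (nat_lit 10) (.e (nat_lit 581376) (nat_lit 4) .nil)))) .nil))) (.nd (nat_lit 5) 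
(.lf (nat_lit 83859) (.g (nat_lit 808) (.e (nat_lit 1858) (nat_lit 124) (.e (nat_lit 557105) (nat_lit 14) (.e (nat_lit 180233) (nat_lit 0) .nil))) .nil)) 
(.lf (nat_lit 83891) (.g (nat_lit 4220) (.e (nat_lit 1858) (nat_lit 124) (.e (nat_lit 557105) (nat_lit 14) (.e (nat_lit 180252) (nat_lit 10) (.e (nat_lit 573474) (nat_lit 12) (.e (nat_lit 57354) (nat_lit 0) (.e (nat_lit 5194) (nat_lit 294) (.e (nat_lit 57375) (nat_lit 2) (.e (nat_lit 90160) (nat_lit 11) (.e (nat_lit 24591) (nat_lit 0) .nil))))))))) (.g (nat_lit 4) .nil .nil))))) 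
(.nd (nat_lit 4) (.nd (nat_lit 5) 
(.lf (nat_lit 83851) (.g (nat_lit 2228) (.e (nat_lit 1858) (nat_lit 124) (.e (nat_lit 557103) (nat_lit 14) (.e (nat_lit 188160) (nat_lit 35) (.e (nat_lit 57464) (nat_lit 23) (.e (nat_lit 516176) (nat_lit 14) (.e (nat_lit 474880) (nat_lit 0) .nil)))))) (.g (nat_lit 5) .nil .nil))) 
(.lf (nat_lit 83883) (.g (nat_lit 2251) (.e (nat_lit 1858) (nat_lit 124) (.e (nat_lit 557105) (nat_lit 14) (.e (nat_lit 180252) (nat_lit 10) (.e (nat_lit 573473) (nat_lit 12) (.e (nat_lit 57507) (nat_lit 39) .nil))))) .nil))) (.nd (nat_lit 5) 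
(.lf (nat_lit 83867) (.g (nat_lit 1712) (.e (nat_lit 1858) (nat_lit 124) (.e (nat_lit 557105) (nat_lit 14) (.e (nat_lit 180251) (nat_lit 10) (.e (nat_lit 573487) (nat_lit 14) .nil)))) .nil)) 
(.lf (nat_lit 83899) (.g (nat_lit 3255) (.e (nat_lit 1858) (nat_lit 124) (.e (nat_lit 557105) (nat_lit 14) (.e (nat_lit 180252) (nat_lit 10) (.e (nat_lit 573475) (nat_lit 12) (.e (nat_lit 57354) (nat_lit 0) (.e (nat_lit 5195) (nat_lit 294) (.e (nat_lit 57375) (nat_lit 2) (.e (nat_lit 90160) (nat_lit 11) (.e (nat_lit 24576) (nat_lit 0) .nil))))))))) (.g (nat_lit 4) .nil .nil)))))) 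
(.nd (nat_lit 3) (.nd (nat_lit 4) (.nd (nat_lit 5) 
(.lf (nat_lit 83847) (.g (nat_lit 1976) (.e (nat_lit 1858) (nat_lit 124) (.e (nat_lit 557103) (nat_lit 14) (.e (nat_lit 188160) (nat_lit 35) (.e (nat_lit 57464) (nat_lit 23) (.e (nat_lit 516162) (nat_lit 11) (.e (nat_lit 450304) (nat_lit 0) .nil)))))) (.g (nat_lit 5) .nil .nil))) 
(.lf (nat_lit 83879) (.g (nat_lit 3274) (.e (nat_lit 1858) (nat_lit 124) (.e (nat_lit 557105) (nat_lit 14) (.e (nat_lit 180252) (nat_lit 10) (.e (nat_lit 573451) (nat_lit 9) (.e (nat_lit 1626) (nat_lit 114) .nil))))) .nil))) (.nd (nat_lit 5) 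
(.lf (nat_lit 83863) (.g (nat_lit 4329) (.e (nat_lit 1858) (nat_lit 124) (.e (nat_lit 557105) (nat_lit 14) (.e (nat_lit 180251) (nat_lit 10) (.e (nat_lit 573485) (nat_lit 13) (.e (nat_lit 65570) (nat_lit 3) (.e (nat_lit 98333) (nat_lit 18) (.e (nat_lit 164179) (nat_lit 154) (.e (nat_lit 57355) (nat_lit 0) .nil)))))))) (.g (nat_lit 6) .nil .nil))) 
(.lf (nat_lit 83895) (.g (nat_lit 3548) (.e (nat_lit 1858) (nat_lit 124) (.e (nat_lit 557105) (nat_lit 14) (.e (nat_lit 180252) (nat_lit 10) (.e (nat_lit 573474) (nat_lit 12) (.e (nat_lit 57354) (nat_lit 0) (.e (nat_lit 5195) (nat_lit 294) (.e (nat_lit 57375) (nat_lit 2) (.e (nat_lit 90160) (nat_lit 11) (.e (nat_lit 24589) (nat_lit 0) .nil))))))))) (.g (nat_lit 4) .nil .nil))))) 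
(.nd (nat_lit 4) (.nd (nat_lit 5) 
(.lf (nat_lit 83855) (.g (nat_lit 1513) (.e (nat_lit 1858) (nat_lit 124) (.e (nat_lit 557103) (nat_lit 14) (.e (nat_lit 180285) (nat_lit 45) (.e (nat_lit 2570) (nat_lit 160) .nil)))) .nil)) 
(.lf (nat_lit 83887) (.g (nat_lit 3942) (.e (nat_lit 1858) (nat_lit 124) (.e (nat_lit 557105) (nat_lit 14) (.e (nat_lit 180252) (nat_lit 10) (.e (nat_lit 573474) (nat_lit 12) (.e (nat_lit 57354) (nat_lit 0) (.e (nat_lit 5194) (nat_lit 294) (.e (nat_lit 57372) (nat_lit 2) (.e (nat_lit 90160) (nat_lit 11) (.e (nat_lit 24591) (nat_lit 0) .nil))))))))) (.g (nat_lit 4) .nil .nil)))) (.nd (nat_lit 5) 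
(.lf (nat_lit 83871) (.g (nat_lit 2026) (.e (nat_lit 1858) (nat_lit 124) (.e (nat_lit 557105) (nat_lit 14) (.e (nat_lit 180251) (nat_lit 10) (.e (nat_lit 573489) (nat_lit 14) (.e (nat_lit 73755) (nat_lit 8) .nil))))) .nil)) 
(.lf (nat_lit 83903) (.g (nat_lit 1568) (.e (nat_lit 1858) (nat_lit 124) (.e (nat_lit 557105) (nat_lit 14) (.e (nat_lit 180252) (nat_lit 10) (.e (nat_lit 573481) (nat_lit 13) .nil)))) .nil))))))))

noncomputable def tv1135 : DT := (.nd (nat_lit 0) (.nd (nat_lit 1) (.nd (nat_lit 2) (.nd (nat_lit 3) (.nd (nat_lit 4) (.nd (nat_lit 5) 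
(.lf (nat_lit 83904) (.g (nat_lit 2327) (.e (nat_lit 1858) (nat_lit 124) (.e (nat_lit 557105) (nat_lit 14) (.e (nat_lit 180252) (nat_lit 10) (.e (nat_lit 573481) (nat_lit 13) (.e (nat_lit 65570) (nat_lit 3) .nil))))) .nil)) 
(.lf (nat_lit 83936) (.g (nat_lit 3536) (.e (nat_lit 1858) (nat_lit 124) (.e (nat_lit 557105) (nat_lit 14) (.e (nat_lit 180252) (nat_lit 10) (.e (nat_lit 573482) (nat_lit 13) (.e (nat_lit 65570) (nat_lit 3) (.e (nat_lit 98333) (nat_lit 18) (.e (nat_lit 164183) (nat_lit 154) (.e (nat_lit 57358) (nat_lit 0) .nil)))))))) (.g (nat_lit 4) .nil .nil)))) (.nd (nat_lit 5) 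
(.lf (nat_lit 83920) (.g (nat_lit 2985) (.e (nat_lit 1858) (nat_lit 124) (.e (nat_lit 557105) (nat_lit 14) (.e (nat_lit 180252) (nat_lit 10) (.e (nat_lit 573481) (nat_lit 13) (.e (nat_lit 65571) (nat_lit 3) (.e (nat_lit 98333) (nat_lit 18) (.e (nat_lit 164179) (nat_lit 154) (.e (nat_lit 57355) (nat_lit 0) .nil)))))))) (.g (nat_lit 4) .nil .nil))) 
(.lf (nat_lit 83952) (.g (nat_lit 4727) (.e (nat_lit 1858) (nat_lit 124) (.e (nat_lit 557105) (nat_lit 14) (.e (nat_lit 180252) (nat_lit 10) (.e (nat_lit 573487) (nat_lit 14) (.e (nat_lit 73747) (nat_lit 3) (.e (nat_lit 516115) (nat_lit 1) (.e (nat_lit 164182) (nat_lit 154) (.e (nat_lit 57357) (nat_lit 0) .nil)))))))) (.g (nat_lit 7) .nil .nil))))) (.nd (nat_lit 4) (.nd (nat_lit 5) 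
(.lf (nat_lit 83912) (.g (nat_lit 4976) (.e (nat_lit 1858) (nat_lit 124) (.e (nat_lit 557105) (nat_lit 14) (.e (nat_lit 180252) (nat_lit 10) (.e (nat_lit 573481) (nat_lit 13) (.e (nat_lit 65570) (nat_lit 3) (.e (nat_lit 98333) (nat_lit 18) (.e (nat_lit 164179) (nat_lit 154) (.e (nat_lit 57358) (nat_lit 0) .nil)))))))) (.g (nat_lit 6) .nil .nil))) 
(.lf (nat_lit 83944) (.g (nat_lit 2920) (.e (nat_lit 1858) (nat_lit 124) (.e (nat_lit 557105) (nat_lit 14) (.e (nat_lit 180252) (nat_lit 10) (.e (nat_lit 573487) (nat_lit 14) (.e (nat_lit 73747) (nat_lit 3) (.e (nat_lit 516115) (nat_lit 1) (.e (nat_lit 164177) (nat_lit 154) (.e (nat_lit 57357) (nat_lit 0) .nil)))))))) (.g (nat_lit 4) .nil .nil)))) (.nd (nat_lit 5) 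
(.lf (nat_lit 83928) (.g (nat_lit 5072) (.e (nat_lit 1858) (nat_lit 124) (.e (nat_lit 557105) (nat_lit 14) (.e (nat_lit 180252) (nat_lit 10) (.e (nat_lit 573482) (nat_lit 13) (.e (nat_lit 65570) (nat_lit 3) (.e (nat_lit 98333) (nat_lit 18) (.e (nat_lit 164179) (nat_lit 154) (.e (nat_lit 57355) (nat_lit 0) .nil)))))))) (.g (nat_lit 6) .nil .nil))) 
(.lf (nat_lit 83960) (.g (nat_lit 4921) (.e (nat_lit 1858) (nat_lit 124) (.e (nat_lit 557105) (nat_lit 14) (.e (nat_lit 180252) (nat_lit 10) (.e (nat_lit 573487) (nat_lit 14) (.e (nat_lit 73747) (nat_lit 3) (.e (nat_lit 516119) (nat_lit 1) (.e (nat_lit 164176) (nat_lit 154) (.e (nat_lit 57355) (nat_lit 0) .nil)))))))) (.g (nat_lit 7) .nil .nil)))))) 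
(.nd (nat_lit 3) (.nd (nat_lit 4) (.nd (nat_lit 5) 
(.lf (nat_lit 83908) (.g (nat_lit 3292) (.e (nat_lit 1858) (nat_lit 124) (.e (nat_lit 557105) (nat_lit 14) (.e (nat_lit 180252) (nat_lit 10) (.e (nat_lit 573481) (nat_lit 13) (.e (nat_lit 65570) (nat_lit 3) (.e (nat_lit 98333) (nat_lit 18) (.e (nat_lit 164177) (nat_lit 154) (.e (nat_lit 57358) (nat_lit 0) .nil)))))))) (.g (nat_lit 4) .nil .nil))) 
(.lf (nat_lit 83940) (.g (nat_lit 3039) (.e (nat_lit 1858) (nat_lit 124) (.e (nat_lit 557105) (nat_lit 14) (.e (nat_lit 180252) (nat_lit 10) (.e (nat_lit 573482) (nat_lit 13) (.e (nat_lit 73472) (nat_lit 18) (.e (nat_lit 204831) (nat_lit 18) (.e (nat_lit 57854) (nat_lit 252) (.e (nat_lit 57355) (nat_lit 0) .nil)))))))) (.g (nat_lit 4) .nil .nil)))) (.nd (nat_lit 5) 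
(.lf (nat_lit 83924) (.g (nat_lit 3599) (.e (nat_lit 1858) (nat_lit 124) (.e (nat_lit 557105) (nat_lit 14) (.e (nat_lit 180252) (nat_lit 10) (.e (nat_lit 573482) (nat_lit 13) (.e (nat_lit 65570) (nat_lit 3) (.e (nat_lit 98333) (nat_lit 18) (.e (nat_lit 164177) (nat_lit 154) (.e (nat_lit 57355) (nat_lit 0) .nil)))))))) (.g (nat_lit 4) .nil .nil))) 
(.lf (nat_lit 83956) (.g (nat_lit 3727) (.e (nat_lit 1858) (nat_lit 124) (.e (nat_lit 557105) (nat_lit 14) (.e (nat_lit 180252) (nat_lit 10) (.e (nat_lit 573487) (nat_lit 14) (.e (nat_lit 73747) (nat_lit 3) (.e (nat_lit 516115) (nat_lit 1) (.e (nat_lit 164183) (nat_lit 154) (.e (nat_lit 57358) (nat_lit 0) .nil)))))))) (.g (nat_lit 5) .nil .nil))))) (.nd (nat_lit 4) (.nd (nat_lit 5) 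
(.lf (nat_lit 83916) (.g (nat_lit 4223) (.e (nat_lit 1858) (nat_lit 124) (.e (nat_lit 557105) (nat_lit 14) (.e (nat_lit 180252) (nat_lit 10) (.e (nat_lit 573481) (nat_lit 13) (.e (nat_lit 65570) (nat_lit 3) (.e (nat_lit 98333) (nat_lit 18) (.e (nat_lit 164183) (nat_lit 154) (.e (nat_lit 57344) (nat_lit 0) .nil)))))))) (.g (nat_lit 6) .nil .nil))) 
(.lf (nat_lit 83948) (.g (nat_lit 4757) (.e (nat_lit 1858) (nat_lit 124) (.e (nat_lit 557105) (nat_lit 14) (.e (nat_lit 180252) (nat_lit 10) (.e (nat_lit 573487) (nat_lit 14) (.e (nat_lit 73747) (nat_lit 3) (.e (nat_lit 516115) (nat_lit 1) (.e (nat_lit 164179) (nat_lit 154) (.e (nat_lit 57355) (nat_lit 0) .nil)))))))) (.g (nat_lit 7) .nil .nil)))) (.nd (nat_lit 5) 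
(.lf (nat_lit 83932) (.g (nat_lit 4446) (.e (nat_lit 1858) (nat_lit 124) (.e (nat_lit 557105) (nat_lit 14) (.e (nat_lit 180252) (nat_lit 10) (.e (nat_lit 573482) (nat_lit 13) (.e (nat_lit 65570) (nat_lit 3) (.e (nat_lit 98333) (nat_lit 18) (.e (nat_lit 164182) (nat_lit 154) (.e (nat_lit 57357) (nat_lit 0) .nil)))))))) (.g (nat_lit 5) .nil .nil))) 
(.lf (nat_lit 83964) (.g (nat_lit 4075) (.e (nat_lit 1858) (nat_lit 124) (.e (nat_lit 557105) (nat_lit 14) (.e (nat_lit 180252) (nat_lit 10) (.e (nat_lit 573487) (nat_lit 14) (.e (nat_lit 73747) (nat_lit 3) (.e (nat_lit 516119) (nat_lit 1) (.e (nat_lit 164178) (nat_lit 154) (.e (nat_lit 57358) (nat_lit 0) .nil)))))))) (.g (nat_lit 5) .nil .nil))))))) 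
(.nd (nat_lit 2) (.nd (nat_lit 3) (.nd (nat_lit 4) (.nd (nat_lit 5) 
(.lf (nat_lit 83906) (.g (nat_lit 3698) (.e (nat_lit 1858) (nat_lit 124) (.e (nat_lit 557105) (nat_lit 14) (.e (nat_lit 180252) (nat_lit 10) (.e (nat_lit 573481) (nat_lit 13) (.e (nat_lit 65570) (nat_lit 3) (.e (nat_lit 98333) (nat_lit 18) (.e (nat_lit 164177) (nat_lit 154) (.e (nat_lit 57355) (nat_lit 0) .nil)))))))) (.g (nat_lit 5) .nil .nil))) 
(.lf (nat_lit 83938) (.g (nat_lit 4331) (.e (nat_lit 1858) (nat_lit 124) (.e (nat_lit 557105) (nat_lit 14) (.e (nat_lit 180252) (nat_lit 10) (.e (nat_lit 573482) (nat_lit 13) (.e (nat_lit 73472) (nat_lit 18) (.e (nat_lit 204830) (nat_lit 18) (.e (nat_lit 57852) (nat_lit 252) (.e (nat_lit 57357) (nat_lit 0) .nil)))))))) (.g (nat_lit 6) .nil .nil)))) (.nd (nat_lit 5) 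
(.lf (nat_lit 83922) (.g (nat_lit 2792) (.e (nat_lit 1858) (nat_lit 124) (.e (nat_lit 557105) (nat_lit 14) (.e (nat_lit 180252) (nat_lit 10) (.e (nat_lit 573482) (nat_lit 13) (.e (nat_lit 65570) (nat_lit 3) .nil))))) .nil)) 
(.lf (nat_lit 83954) (.g (nat_lit 4310) (.e (nat_lit 1858) (nat_lit 124) (.e (nat_lit 557105) (nat_lit 14) (.e (nat_lit 180252) (nat_lit 10) (.e (nat_lit 573487) (nat_lit 14) (.e (nat_lit 73747) (nat_lit 3) (.e (nat_lit 516115) (nat_lit 1) (.e (nat_lit 164183) (nat_lit 154) (.e (nat_lit 57344) (nat_lit 0) .nil)))))))) (.g (nat_lit 6) .nil .nil))))) (.nd (nat_lit 4) (.nd (nat_lit 5) 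
(.lf (nat_lit 83914) (.g (nat_lit 4552) (.e (nat_lit 1858) (nat_lit 124) (.e (nat_lit 557105) (nat_lit 14) (.e (nat_lit 180252) (nat_lit 10) (.e (nat_lit 573481) (nat_lit 13) (.e (nat_lit 65570) (nat_lit 3) (.e (nat_lit 98333) (nat_lit 18) (.e (nat_lit 164182) (nat_lit 154) (.e (nat_lit 57357) (nat_lit 0) .nil)))))))) (.g (nat_lit 6) .nil .nil))) 
(.lf (nat_lit 83946) (.g (nat_lit 3640) (.e (nat_lit 1858) (nat_lit 124) (.e (nat_lit 557105) (nat_lit 14) (.e (nat_lit 180252) (nat_lit 10) (.e (nat_lit 573487) (nat_lit 14) (.e (nat_lit 73747) (nat_lit 3) (.e (nat_lit 516115) (nat_lit 1) (.e (nat_lit 164178) (nat_lit 154) (.e (nat_lit 57358) (nat_lit 0) .nil)))))))) (.g (nat_lit 5) .nil .nil)))) (.nd (nat_lit 5) 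
(.lf (nat_lit 83930) (.g (nat_lit 4877) (.e (nat_lit 1858) (nat_lit 124) (.e (nat_lit 557105) (nat_lit 14) (.e (nat_lit 180252) (nat_lit 10) (.e (nat_lit 573482) (nat_lit 13) (.e (nat_lit 65570) (nat_lit 3) (.e (nat_lit 98333) (nat_lit 18) (.e (nat_lit 164179) (nat_lit 154) (.e (nat_lit 57358) (nat_lit 0) .nil)))))))) (.g (nat_lit 6) .nil .nil))) 
(.lf (nat_lit 83962) (.g (nat_lit 3947) (.e (nat_lit 1858) (nat_lit 124) (.e (nat_lit 557105) (nat_lit 14) (.e (nat_lit 180252) (nat_lit 10) (.e (nat_lit 573487) (nat_lit 14) (.e (nat_lit 73747) (nat_lit 3) (.e (nat_lit 516119) (nat_lit 1) (.e (nat_lit 164176) (nat_lit 154) (.e (nat_lit 57358) (nat_lit 0) .nil)))))))) (.g (nat_lit 5) .nil .nil)))))) 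
(.nd (nat_lit 3) (.nd (nat_lit 4) (.nd (nat_lit 5) 
(.lf (nat_lit 83910) (.g (nat_lit 5171) (.e (nat_lit 1858) (nat_lit 124) (.e (nat_lit 557105) (nat_lit 14) (.e (nat_lit 180252) (nat_lit 10) (.e (nat_lit 573481) (nat_lit 13) (.e (nat_lit 65570) (nat_lit 3) (.e (nat_lit 98333) (nat_lit 18) (.e (nat_lit 164179) (nat_lit 154) (.e (nat_lit 57355) (nat_lit 0) .nil)))))))) (.g (nat_lit 7) .nil .nil))) 
(.lf (nat_lit 83942) (.g (nat_lit 2966) (.e (nat_lit 1858) (nat_lit 124) (.e (nat_lit 557105) (nat_lit 14) (.e (nat_lit 180252) (nat_lit 10) (.e (nat_lit 573487) (nat_lit 14) (.e (nat_lit 73746) (nat_lit 3) (.e (nat_lit 516115) (nat_lit 1) (.e (nat_lit 164179) (nat_lit 154) (.e (nat_lit 57355) (nat_lit 0) .nil)))))))) (.g (nat_lit 4) .nil .nil)))) (.nd (nat_lit 5) 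
(.lf (nat_lit 83926) (.g (nat_lit 3193) (.e (nat_lit 1858) (nat_lit 124) (.e (nat_lit 557105) (nat_lit 14) (.e (nat_lit 180252) (nat_lit 10) (.e (nat_lit 573482) (nat_lit 13) (.e (nat_lit 65570) (nat_lit 3) (.e (nat_lit 98333) (nat_lit 18) (.e (nat_lit 164177) (nat_lit 154) (.e (nat_lit 57358) (nat_lit 0) .nil)))))))) (.g (nat_lit 4) .nil .nil))) 
(.lf (nat_lit 83958) (.g (nat_lit 3179) (.e (nat_lit 1858) (nat_lit 124) (.e (nat_lit 557105) (nat_lit 14) (.e (nat_lit 180252) (nat_lit 10) (.e (nat_lit 573487) (nat_lit 14) (.e (nat_lit 73747) (nat_lit 3) (.e (nat_lit 516115) (nat_lit 1) (.e (nat_lit 164185) (nat_lit 155) (.e (nat_lit 122880) (nat_lit 0) .nil)))))))) (.g (nat_lit 4) .nil .nil))))) (.nd (nat_lit 4) (.nd (nat_lit 5) 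
(.lf (nat_lit 83918) (.g (nat_lit 3640) (.e (nat_lit 1858) (nat_lit 124) (.e (nat_lit 557105) (nat_lit 14) (.e (nat_lit 180252) (nat_lit 10) (.e (nat_lit 573481) (nat_lit 13) (.e (nat_lit 65570) (nat_lit 3) (.e (nat_lit 98333) (nat_lit 18) (.e (nat_lit 164183) (nat_lit 154) (.e (nat_lit 57358) (nat_lit 0) .nil)))))))) (.g (nat_lit 4) .nil .nil))) 
(.lf (nat_lit 83950) (.g (nat_lit 4729) (.e (nat_lit 1858) (nat_lit 124) (.e (nat_lit 557105) (nat_lit 14) (.e (nat_lit 180252) (nat_lit 10) (.e (nat_lit 573487) (nat_lit 14) (.e (nat_lit 73747) (nat_lit 3) (.e (nat_lit 516115) (nat_lit 1) (.e (nat_lit 164179) (nat_lit 154) (.e (nat_lit 57358) (nat_lit 0) .nil)))))))) (.g (nat_lit 6) .nil .nil)))) (.nd (nat_lit 5) 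
(.lf (nat_lit 83934) (.g (nat_lit 4119) (.e (nat_lit 1858) (nat_lit 124) (.e (nat_lit 557105) (nat_lit 14) (.e (nat_lit 180252) (nat_lit 10) (.e (nat_lit 573482) (nat_lit 13) (.e (nat_lit 65570) (nat_lit 3) (.e (nat_lit 98333) (nat_lit 18) (.e (nat_lit 164183) (nat_lit 154) (.e (nat_lit 57344) (nat_lit 0) .nil)))))))) (.g (nat_lit 5) .nil .nil))) 
(.lf (nat_lit 83966) (.g (nat_lit 4652) (.e (nat_lit 1858) (nat_lit 124) (.e (nat_lit 557105) (nat_lit 14) (.e (nat_lit 180252) (nat_lit 10) (.e (nat_lit 573487) (nat_lit 14) (.e (nat_lit 73747) (nat_lit 3) (.e (nat_lit 516119) (nat_lit 1) (.e (nat_lit 164179) (nat_lit 154) (.e (nat_lit 57355) (nat_lit 0) .nil)))))))) (.g (nat_lit 6) .nil .nil)))))))) 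
(.nd (nat_lit 1) (.nd (nat_lit 2) (.nd (nat_lit 3) (.nd (nat_lit 4) (.nd (nat_lit 5) 
(.lf (nat_lit 83905) (.g (nat_lit 3280) (.e (nat_lit 1858) (nat_lit 124) (.e (nat_lit 557105) (nat_lit 14) (.e (nat_lit 180252) (nat_lit 10) (.e (nat_lit 573481) (nat_lit 13) (.e (nat_lit 65570) (nat_lit 3) (.e (nat_lit 98333) (nat_lit 18) (.e (nat_lit 164177) (nat_lit 154) (.e (nat_lit 57344) (nat_lit 0) .nil)))))))) (.g (nat_lit 4) .nil .nil))) 
(.lf (nat_lit 83937) (.g (nat_lit 3167) (.e (nat_lit 1858) (nat_lit 124) (.e (nat_lit 557105) (nat_lit 14) (.e (nat_lit 180252) (nat_lit 10) (.e (nat_lit 573482) (nat_lit 13) (.e (nat_lit 65571) (nat_lit 3) (.e (nat_lit 98333) (nat_lit 18) (.e (nat_lit 164179) (nat_lit 154) (.e (nat_lit 57355) (nat_lit 0) .nil)))))))) (.g (nat_lit 4) .nil .nil)))) (.nd (nat_lit 5) 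
(.lf (nat_lit 83921) (.g (nat_lit 2888) (.e (nat_lit 1858) (nat_lit 124) (.e (nat_lit 557105) (nat_lit 14) (.e (nat_lit 180252) (nat_lit 10) (.e (nat_lit 573481) (nat_lit 13) (.e (nat_lit 73472) (nat_lit 18) (.e (nat_lit 204831) (nat_lit 18) (.e (nat_lit 57854) (nat_lit 252) (.e (nat_lit 57355) (nat_lit 0) .nil)))))))) (.g (nat_lit 4) .nil .nil))) 
(.lf (nat_lit 83953) (.g (nat_lit 4658) (.e (nat_lit 1858) (nat_lit 124) (.e (nat_lit 557105) (nat_lit 14) (.e (nat_lit 180252) (nat_lit 10) (.e (nat_lit 573487) (nat_lit 14) (.e (nat_lit 73747) (nat_lit 3) (.e (nat_lit 516115) (nat_lit 1) (.e (nat_lit 164182) (nat_lit 154) (.e (nat_lit 57358) (nat_lit 0) .nil)))))))) (.g (nat_lit 6) .nil .nil))))) (.nd (nat_lit 4) (.nd (nat_lit 5) 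
(.lf (nat_lit 83913) (.g (nat_lit 4590) (.e (nat_lit 1858) (nat_lit 124) (.e (nat_lit 557105) (nat_lit 14) (.e (nat_lit 180252) (nat_lit 10) (.e (nat_lit 573481) (nat_lit 13) (.e (nat_lit 65570) (nat_lit 3) (.e (nat_lit 98333) (nat_lit 18) (.e (nat_lit 164182) (nat_lit 154) (.e (nat_lit 57344) (nat_lit 0) .nil)))))))) (.g (nat_lit 6) .nil .nil))) 
(.lf (nat_lit 83945) (.g (nat_lit 4339) (.e (nat_lit 1858) (nat_lit 124) (.e (nat_lit 557105) (nat_lit 14) (.e (nat_lit 180252) (nat_lit 10) (.e (nat_lit 573487) (nat_lit 14) (.e (nat_lit 73747) (nat_lit 3) (.e (nat_lit 516115) (nat_lit 1) (.e (nat_lit 164178) (nat_lit 154) (.e (nat_lit 57355) (nat_lit 0) .nil)))))))) (.g (nat_lit 6) .nil .nil)))) (.nd (nat_lit 5) 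
(.lf (nat_lit 83929) (.g (nat_lit 4013) (.e (nat_lit 1858) (nat_lit 124) (.e (nat_lit 557105) (nat_lit 14) (.e (nat_lit 180252) (nat_lit 10) (.e (nat_lit 573482) (nat_lit 13) (.e (nat_lit 65570) (nat_lit 3) (.e (nat_lit 98333) (nat_lit 18) (.e (nat_lit 164179) (nat_lit 154) (.e (nat_lit 57356) (nat_lit 0) .nil)))))))) (.g (nat_lit 4) .nil .nil))) 
(.lf (nat_lit 83961) (.g (nat_lit 4588) (.e (nat_lit 1858) (nat_lit 124) (.e (nat_lit 557105) (nat_lit 14) (.e (nat_lit 180252) (nat_lit 10) (.e (nat_lit 573487) (nat_lit 14) (.e (nat_lit 73747) (nat_lit 3) (.e (nat_lit 516119) (nat_lit 1) (.e (nat_lit 164176) (nat_lit 154) (.e (nat_lit 57357) (nat_lit 0) .nil)))))))) (.g (nat_lit 6) .nil .nil)))))) 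
(.nd (nat_lit 3) (.nd (nat_lit 4) (.nd (nat_lit 5) 
(.lf (nat_lit 83909) (.g (nat_lit 4700) (.e (nat_lit 1858) (nat_lit 124) (.e (nat_lit 557105) (nat_lit 14) (.e (nat_lit 180252) (nat_lit 10) (.e (nat_lit 573481) (nat_lit 13) (.e (nat_lit 65570) (nat_lit 3) (.e (nat_lit 98333) (nat_lit 18) (.e (nat_lit 164179) (nat_lit 154) (.e (nat_lit 57344) (nat_lit 0) .nil)))))))) (.g (nat_lit 6) .nil .nil))) 
(.lf (nat_lit 83941) (.g (nat_lit 1594) (.e (nat_lit 1858) (nat_lit 124) (.e (nat_lit 557105) (nat_lit 14) (.e (nat_lit 180252) (nat_lit 10) (.e (nat_lit 573487) (nat_lit 14) .nil)))) .nil))) (.nd (nat_lit 5) 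
(.lf (nat_lit 83925) (.g (nat_lit 3451) (.e (nat_lit 1858) (nat_lit 124) (.e (nat_lit 557105) (nat_lit 14) (.e (nat_lit 180252) (nat_lit 10) (.e (nat_lit 573482) (nat_lit 13) (.e (nat_lit 65570) (nat_lit 3) (.e (nat_lit 98333) (nat_lit 18) (.e (nat_lit 164177) (nat_lit 154) (.e (nat_lit 57357) (nat_lit 0) .nil)))))))) (.g (nat_lit 4) .nil .nil))) 
(.lf (nat_lit 83957) (.g (nat_lit 2845) (.e (nat_lit 1858) (nat_lit 124) (.e (nat_lit 557105) (nat_lit 14) (.e (nat_lit 180252) (nat_lit 10) (.e (nat_lit 573487) (nat_lit 14) (.e (nat_lit 73747) (nat_lit 3) (.e (nat_lit 516115) (nat_lit 1) (.e (nat_lit 164183) (nat_lit 154) (.e (nat_lit 65280) (nat_lit 0) .nil)))))))) (.g (nat_lit 4) .nil .nil))))) (.nd (nat_lit 4) (.nd (nat_lit 5) 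
(.lf (nat_lit 83917) (.g (nat_lit 3551) (.e (nat_lit 1858) (nat_lit 124) (.e (nat_lit 557105) (nat_lit 14) (.e (nat_lit 180252) (nat_lit 10) (.e (nat_lit 573481) (nat_lit 13) (.e (nat_lit 65570) (nat_lit 3) (.e (nat_lit 98333) (nat_lit 18) (.e (nat_lit 164183) (nat_lit 154) (.e (nat_lit 57356) (nat_lit 0) .nil)))))))) (.g (nat_lit 4) .nil .nil))) 
(.lf (nat_lit 83949) (.g (nat_lit 4053) (.e (nat_lit 1858) (nat_lit 124) (.e (nat_lit 557105) (nat_lit 14) (.e (nat_lit 180252) (nat_lit 10) (.e (nat_lit 573487) (nat_lit 14) (.e (nat_lit 73747) (nat_lit 3) (.e (nat_lit 516115) (nat_lit 1) (.e (nat_lit 164179) (nat_lit 154) (.e (nat_lit 57356) (nat_lit 0) .nil)))))))) (.g (nat_lit 5) .nil .nil)))) (.nd (nat_lit 5) 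
(.lf (nat_lit 83933) (.g (nat_lit 4503) (.e (nat_lit 1858) (nat_lit 124) (.e (nat_lit 557105) (nat_lit 14) (.e (nat_lit 180252) (nat_lit 10) (.e (nat_lit 573482) (nat_lit 13) (.e (nat_lit 65570) (nat_lit 3) (.e (nat_lit 98333) (nat_lit 18) (.e (nat_lit 164182) (nat_lit 154) (.e (nat_lit 57358) (nat_lit 0) .nil)))))))) (.g (nat_lit 5) .nil .nil))) 
(.lf (nat_lit 83965) (.g (nat_lit 4106) (.e (nat_lit 1858) (nat_lit 124) (.e (nat_lit 557105) (nat_lit 14) (.e (nat_lit 180252) (nat_lit 10) (.e (nat_lit 573487) (nat_lit 14) (.e (nat_lit 73747) (nat_lit 3) (.e (nat_lit 516119) (nat_lit 1) (.e (nat_lit 164179) (nat_lit 154) (.e (nat_lit 57344) (nat_lit 0) .nil)))))))) (.g (nat_lit 5) .nil .nil))))))) 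
(.nd (nat_lit 2) (.nd (nat_lit 3) (.nd (nat_lit 4) (.nd (nat_lit 5) 
(.lf (nat_lit 83907) (.g (nat_lit 3550) (.e (nat_lit 1858) (nat_lit 124) (.e (nat_lit 557105) (nat_lit 14) (.e (nat_lit 180252) (nat_lit 10) (.e (nat_lit 573481) (nat_lit 13) (.e (nat_lit 65570) (nat_lit 3) (.e (nat_lit 98333) (nat_lit 18) (.e (nat_lit 164177) (nat_lit 154) (.e (nat_lit 57357) (nat_lit 0) .nil)))))))) (.g (nat_lit 4) .nil .nil))) 
(.lf (nat_lit 83939) (.g (nat_lit 3585) (.e (nat_lit 1858) (nat_lit 124) (.e (nat_lit 557105) (nat_lit 14) (.e (nat_lit 180252) (nat_lit 10) (.e (nat_lit 573482) (nat_lit 13) (.e (nat_lit 73472) (nat_lit 18) (.e (nat_lit 204831) (nat_lit 18) (.e (nat_lit 57849) (nat_lit 252) (.e (nat_lit 57355) (nat_lit 0) .nil)))))))) (.g (nat_lit 4) .nil .nil)))) (.nd (nat_lit 5) 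
(.lf (nat_lit 83923) (.g (nat_lit 3181) (.e (nat_lit 1858) (nat_lit 124) (.e (nat_lit 557105) (nat_lit 14) (.e (nat_lit 180252) (nat_lit 10) (.e (nat_lit 573482) (nat_lit 13) (.e (nat_lit 65570) (nat_lit 3) (.e (nat_lit 98333) (nat_lit 18) (.e (nat_lit 164177) (nat_lit 154) (.e (nat_lit 57344) (nat_lit 0) .nil)))))))) (.g (nat_lit 4) .nil .nil))) 
(.lf (nat_lit 83955) (.g (nat_lit 3721) (.e (nat_lit 1858) (nat_lit 124) (.e (nat_lit 557105) (nat_lit 14) (.e (nat_lit 180252) (nat_lit 10) (.e (nat_lit 573487) (nat_lit 14) (.e (nat_lit 73747) (nat_lit 3) (.e (nat_lit 516115) (nat_lit 1) (.e (nat_lit 164183) (nat_lit 154) (.e (nat_lit 57356) (nat_lit 0) .nil)))))))) (.g (nat_lit 5) .nil .nil))))) (.nd (nat_lit 4) (.nd (nat_lit 5) 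
(.lf (nat_lit 83915) (.g (nat_lit 4609) (.e (nat_lit 1858) (nat_lit 124) (.e (nat_lit 557105) (nat_lit 14) (.e (nat_lit 180252) (nat_lit 10) (.e (nat_lit 573481) (nat_lit 13) (.e (nat_lit 65570) (nat_lit 3) (.e (nat_lit 98333) (nat_lit 18) (.e (nat_lit 164182) (nat_lit 154) (.e (nat_lit 57358) (nat_lit 0) .nil)))))))) (.g (nat_lit 6) .nil .nil))) 
(.lf (nat_lit 83947) (.g (nat_lit 4672) (.e (nat_lit 1858) (nat_lit 124) (.e (nat_lit 557105) (nat_lit 14) (.e (nat_lit 180252) (nat_lit 10) (.e (nat_lit 573487) (nat_lit 14) (.e (nat_lit 73747) (nat_lit 3) (.e (nat_lit 516115) (nat_lit 1) (.e (nat_lit 164179) (nat_lit 154) (.e (nat_lit 57344) (nat_lit 0) .nil)))))))) (.g (nat_lit 6) .nil .nil)))) (.nd (nat_lit 5) 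
(.lf (nat_lit 83931) (.g (nat_lit 4484) (.e (nat_lit 1858) (nat_lit 124) (.e (nat_lit 557105) (nat_lit 14) (.e (nat_lit 180252) (nat_lit 10) (.e (nat_lit 573482) (nat_lit 13) (.e (nat_lit 65570) (nat_lit 3) (.e (nat_lit 98333) (nat_lit 18) (.e (nat_lit 164182) (nat_lit 154) (.e (nat_lit 57344) (nat_lit 0) .nil)))))))) (.g (nat_lit 5) .nil .nil))) 
(.lf (nat_lit 83963) (.g (nat_lit 4774) (.e (nat_lit 1858) (nat_lit 124) (.e (nat_lit 557105) (nat_lit 14) (.e (nat_lit 180252) (nat_lit 10) (.e (nat_lit 573487) (nat_lit 14) (.e (nat_lit 73747) (nat_lit 3) (.e (nat_lit 516119) (nat_lit 1) (.e (nat_lit 164178) (nat_lit 154) (.e (nat_lit 57355) (nat_lit 0) .nil)))))))) (.g (nat_lit 7) .nil .nil)))))) 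
(.nd (nat_lit 3) (.nd (nat_lit 4) (.nd (nat_lit 5) 
(.lf (nat_lit 83911) (.g (nat_lit 4112) (.e (nat_lit 1858) (nat_lit 124) (.e (nat_lit 557105) (nat_lit 14) (.e (nat_lit 180252) (nat_lit 10) (.e (nat_lit 573481) (nat_lit 13) (.e (nat_lit 65570) (nat_lit 3) (.e (nat_lit 98333) (nat_lit 18) (.e (nat_lit 164179) (nat_lit 154) (.e (nat_lit 57356) (nat_lit 0) .nil)))))))) (.g (nat_lit 5) .nil .nil))) 
(.lf (nat_lit 83943) (.g (nat_lit 3068) (.e (nat_lit 1858) (nat_lit 124) (.e (nat_lit 557105) (nat_lit 14) (.e (nat_lit 180252) (nat_lit 10) (.e (nat_lit 573487) (nat_lit 14) (.e (nat_lit 73747) (nat_lit 3) (.e (nat_lit 516115) (nat_lit 1) (.e (nat_lit 164177) (nat_lit 154) (.e (nat_lit 57355) (nat_lit 0) .nil)))))))) (.g (nat_lit 4) .nil .nil)))) (.nd (nat_lit 5) 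
(.lf (nat_lit 83927) (.g (nat_lit 4601) (.e (nat_lit 1858) (nat_lit 124) (.e (nat_lit 557105) (nat_lit 14) (.e (nat_lit 180252) (nat_lit 10) (.e (nat_lit 573482) (nat_lit 13) (.e (nat_lit 65570) (nat_lit 3) (.e (nat_lit 98333) (nat_lit 18) (.e (nat_lit 164179) (nat_lit 154) (.e (nat_lit 57344) (nat_lit 0) .nil)))))))) (.g (nat_lit 6) .nil .nil))) 
(.lf (nat_lit 83959) (.g (nat_lit 4161) (.e (nat_lit 1858) (nat_lit 124) (.e (nat_lit 557105) (nat_lit 14) (.e (nat_lit 180252) (nat_lit 10) (.e (nat_lit 573487) (nat_lit 14) (.e (nat_lit 73747) (nat_lit 3) (.e (nat_lit 516119) (nat_lit 1) (.e (nat_lit 164176) (nat_lit 154) (.e (nat_lit 57344) (nat_lit 0) .nil)))))))) (.g (nat_lit 5) .nil .nil))))) (.nd (nat_lit 4) (.nd (nat_lit 5) 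
(.lf (nat_lit 83919) (.g (nat_lit 2757) (.e (nat_lit 1858) (nat_lit 124) (.e (nat_lit 557105) (nat_lit 14) (.e (nat_lit 180252) (nat_lit 10) (.e (nat_lit 573481) (nat_lit 13) (.e (nat_lit 65570) (nat_lit 3) (.e (nat_lit 98333) (nat_lit 18) (.e (nat_lit 164183) (nat_lit 154) (.e (nat_lit 65280) (nat_lit 0) .nil)))))))) (.g (nat_lit 4) .nil .nil))) 
(.lf (nat_lit 83951) (.g (nat_lit 4756) (.e (nat_lit 1858) (nat_lit 124) (.e (nat_lit 557105) (nat_lit 14) (.e (nat_lit 180252) (nat_lit 10) (.e (nat_lit 573487) (nat_lit 14) (.e (nat_lit 73747) (nat_lit 3) (.e (nat_lit 516115) (nat_lit 1) (.e (nat_lit 164182) (nat_lit 154) (.e (nat_lit 57344) (nat_lit 0) .nil)))))))) (.g (nat_lit 7) .nil .nil)))) (.nd (nat_lit 5) 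
(.lf (nat_lit 83935) (.g (nat_lit 3447) (.e (nat_lit 1858) (nat_lit 124) (.e (nat_lit 557105) (nat_lit 14) (.e (nat_lit 180252) (nat_lit 10) (.e (nat_lit 573482) (nat_lit 13) (.e (nat_lit 65570) (nat_lit 3) (.e (nat_lit 98333) (nat_lit 18) (.e (nat_lit 164183) (nat_lit 154) (.e (nat_lit 57356) (nat_lit 0) .nil)))))))) (.g (nat_lit 4) .nil .nil))) 
(.lf (nat_lit 83967) (.g (nat_lit 3462) (.e (nat_lit 1858) (nat_lit 124) (.e (nat_lit 557105) (nat_lit 14) (.e (nat_lit 180252) (nat_lit 10) (.e (nat_lit 573487) (nat_lit 14) (.e (nat_lit 73747) (nat_lit 3) (.e (nat_lit 516119) (nat_lit 1) (.e (nat_lit 164179) (nat_lit 154) (.e (nat_lit 57356) (nat_lit 0) .nil)))))))) (.g (nat_lit 4) .nil .nil)))))))))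

noncomputable def tv1136 : DT := (.nd (nat_lit 0) (.nd (nat_lit 1) (.nd (nat_lit 2) (.nd (nat_lit 3) (.nd (nat_lit 4) (.nd (nat_lit 5) 
(.lf (nat_lit 83968) (.g (nat_lit 4457) (.e (nat_lit 1858) (nat_lit 124) (.e (nat_lit 557105) (nat_lit 14) (.e (nat_lit 180252) (nat_lit 10) (.e (nat_lit 573487) (nat_lit 14) (.e (nat_lit 73747) (nat_lit 3) (.e (nat_lit 516119) (nat_lit 1) (.e (nat_lit 164179) (nat_lit 154) (.e (nat_lit 57358) (nat_lit 0) .nil)))))))) (.g (nat_lit 6) .nil .nil))) 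
(.lf (nat_lit 84000) (.g (nat_lit 4705) (.e (nat_lit 1858) (nat_lit 124) (.e (nat_lit 557105) (nat_lit 14) (.e (nat_lit 180252) (nat_lit 10) (.e (nat_lit 573488) (nat_lit 14) (.e (nat_lit 73747) (nat_lit 3) (.e (nat_lit 516119) (nat_lit 1) (.e (nat_lit 164176) (nat_lit 154) (.e (nat_lit 57357) (nat_lit 0) .nil)))))))) (.g (nat_lit 7) .nil .nil)))) (.nd (nat_lit 5) 
(.lf (nat_lit 83984) (.g (nat_lit 4367) (.e (nat_lit 1858) (nat_lit 124) (.e (nat_lit 557105) (nat_lit 14) (.e (nat_lit 180252) (nat_lit 10) (.e (nat_lit 573488) (nat_lit 14) (.e (nat_lit 73747) (nat_lit 3) (.e (nat_lit 516115) (nat_lit 1) (.e (nat_lit 164178) (nat_lit 154) (.e (nat_lit 57355) (nat_lit 0) .nil)))))))) (.g (nat_lit 5) .nil .nil))) 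
(.lf (nat_lit 84016) (.g (nat_lit 3232) (.e (nat_lit 1858) (nat_lit 124) (.e (nat_lit 557105) (nat_lit 14) (.e (nat_lit 180252) (nat_lit 10) (.e (nat_lit 573488) (nat_lit 14) (.e (nat_lit 73748) (nat_lit 3) (.e (nat_lit 516115) (nat_lit 1) (.e (nat_lit 164179) (nat_lit 154) (.e (nat_lit 57344) (nat_lit 0) .nil)))))))) (.g (nat_lit 4) .nil .nil))))) (.nd (nat_lit 4) (.nd (nat_lit 5) 
(.lf (nat_lit 83976) (.g (nat_lit 2267) (.e (nat_lit 1858) (nat_lit 124) (.e (nat_lit 557105) (nat_lit 14) (.e (nat_lit 180252) (nat_lit 10) (.e (nat_lit 573487) (nat_lit 14) (.e (nat_lit 81664) (nat_lit 5) .nil))))) .nil)) 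
(.lf (nat_lit 84008) (.g (nat_lit 4469) (.e (nat_lit 1858) (nat_lit 124) (.e (nat_lit 557105) (nat_lit 14) (.e (nat_lit 180252) (nat_lit 10) (.e (nat_lit 573488) (nat_lit 14) (.e (nat_lit 73747) (nat_lit 3) (.e (nat_lit 516119) (nat_lit 1) (.e (nat_lit 164180) (nat_lit 154) (.e (nat_lit 57357) (nat_lit 0) .nil)))))))) (.g (nat_lit 6) .nil .nil)))) (.nd (nat_lit 5) 
(.lf (nat_lit 83992) (.g (nat_lit 4686) (.e (nat_lit 1858) (nat_lit 124) (.e (nat_lit 557105) (nat_lit 14) (.e (nat_lit 180252) (nat_lit 10) (.e (nat_lit 573488) (nat_lit 14) (.e (nat_lit 73747) (nat_lit 3) (.e (nat_lit 516115) (nat_lit 1) (.e (nat_lit 164182) (nat_lit 154) (.e (nat_lit 57358) (nat_lit 0) .nil)))))))) (.g (nat_lit 5) .nil .nil))) 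
(.lf (nat_lit 84024) (.g (nat_lit 1254) (.e (nat_lit 1858) (nat_lit 124) (.e (nat_lit 557105) (nat_lit 14) (.e (nat_lit 180252) (nat_lit 10) (.e (nat_lit 573489) (nat_lit 14) .nil)))) .nil))))) (.nd (nat_lit 3) (.nd (nat_lit 4) (.nd (nat_lit 5) 
(.lf (nat_lit 83972) (.g (nat_lit 3439) (.e (nat_lit 1858) (nat_lit 124) (.e (nat_lit 557105) (nat_lit 14) (.e (nat_lit 180252) (nat_lit 10) (.e (nat_lit 573487) (nat_lit 14) (.e (nat_lit 73747) (nat_lit 3) (.e (nat_lit 516119) (nat_lit 1) (.e (nat_lit 164184) (nat_lit 155) (.e (nat_lit 122884) (nat_lit 0) .nil)))))))) (.g (nat_lit 4) .nil .nil))) 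
(.lf (nat_lit 84004) (.g (nat_lit 4223) (.e (nat_lit 1858) (nat_lit 124) (.e (nat_lit 557105) (nat_lit 14) (.e (nat_lit 180252) (nat_lit 10) (.e (nat_lit 573488) (nat_lit 14) (.e (nat_lit 73747) (nat_lit 3) (.e (nat_lit 516119) (nat_lit 1) (.e (nat_lit 164179) (nat_lit 154) (.e (nat_lit 57344) (nat_lit 0) .nil)))))))) (.g (nat_lit 6) .nil .nil)))) (.nd (nat_lit 5) 
(.lf (nat_lit 83988) (.g (nat_lit 4421) (.e (nat_lit 1858) (nat_lit 124) (.e (nat_lit 557105) (nat_lit 14) (.e (nat_lit 180252) (nat_lit 10) (.e (nat_lit 573488) (nat_lit 14) (.e (nat_lit 73747) (nat_lit 3) (.e (nat_lit 516115) (nat_lit 1) (.e (nat_lit 164179) (nat_lit 154) (.e (nat_lit 57356) (nat_lit 0) .nil)))))))) (.g (nat_lit 5) .nil .nil))) 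
(.lf (nat_lit 84020) (.g (nat_lit 2755) (.e (nat_lit 1858) (nat_lit 124) (.e (nat_lit 557105) (nat_lit 14) (.e (nat_lit 180252) (nat_lit 10) (.e (nat_lit 573488) (nat_lit 14) (.e (nat_lit 81664) (nat_lit 5) .nil))))) .nil)))) (.nd (nat_lit 4) (.nd (nat_lit 5) 
(.lf (nat_lit 83980) (.g (nat_lit 2923) (.e (nat_lit 1858) (nat_lit 124) (.e (nat_lit 557105) (nat_lit 14) (.e (nat_lit 180252) (nat_lit 10) (.e (nat_lit 573488) (nat_lit 14) (.e (nat_lit 73745) (nat_lit 3) .nil))))) .nil)) 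
(.lf (nat_lit 84012) (.g (nat_lit 3273) (.e (nat_lit 1858) (nat_lit 124) (.e (nat_lit 557105) (nat_lit 14) (.e (nat_lit 180252) (nat_lit 10) (.e (nat_lit 573488) (nat_lit 14) (.e (nat_lit 73747) (nat_lit 3) (.e (nat_lit 516120) (nat_lit 1) (.e (nat_lit 164182) (nat_lit 154) (.e (nat_lit 57344) (nat_lit 0) .nil)))))))) (.g (nat_lit 4) .nil .nil)))) (.nd (nat_lit 5) 
(.lf (nat_lit 83996) (.g (nat_lit 2912) (.e (nat_lit 1858) (nat_lit 124) (.e (nat_lit 557105) (nat_lit 14) (.e (nat_lit 180252) (nat_lit 10) (.e (nat_lit 573488) (nat_lit 14) (.e (nat_lit 73747) (nat_lit 3) (.e (nat_lit 516115) (nat_lit 1) (.e (nat_lit 164183) (nat_lit 154) (.e (nat_lit 65280) (nat_lit 0) .nil)))))))) (.g (nat_lit 4) .nil .nil))) 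
(.lf (nat_lit 84028) (.g (nat_lit 3296) (.e (nat_lit 1858) (nat_lit 124) (.e (nat_lit 557105) (nat_lit 14) (.e (nat_lit 180252) (nat_lit 10) (.e (nat_lit 573489) (nat_lit 14) (.e (nat_lit 73747) (nat_lit 3) (.e (nat_lit 516115) (nat_lit 1) (.e (nat_lit 164182) (nat_lit 154) (.e (nat_lit 57344) (nat_lit 0) .nil)))))))) (.g (nat_lit 4) .nil .nil))))))) 
(.nd (nat_lit 2) (.nd (nat_lit 3) (.nd (nat_lit 4) (.nd (nat_lit 5) 
(.lf (nat_lit 83970) (.g (nat_lit 4078) (.e (nat_lit 1858) (nat_lit 124) (.e (nat_lit 557105) (nat_lit 14) (.e (nat_lit 180252) (nat_lit 10) (.e (nat_lit 573487) (nat_lit 14) (.e (nat_lit 73747) (nat_lit 3) (.e (nat_lit 516119) (nat_lit 1) (.e (nat_lit 164180) (nat_lit 154) (.e (nat_lit 57358) (nat_lit 0) .nil)))))))) (.g (nat_lit 5) .nil .nil))) 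
(.lf (nat_lit 84002) (.g (nat_lit 4891) (.e (nat_lit 1858) (nat_lit 124) (.e (nat_lit 557105) (nat_lit 14) (.e (nat_lit 180252) (nat_lit 10) (.e (nat_lit 573488) (nat_lit 14) (.e (nat_lit 73747) (nat_lit 3) (.e (nat_lit 516119) (nat_lit 1) (.e (nat_lit 164178) (nat_lit 154) (.e (nat_lit 57355) (nat_lit 0) .nil)))))))) (.g (nat_lit 7) .nil .nil)))) (.nd (nat_lit 5) 
(.lf (nat_lit 83986) (.g (nat_lit 5040) (.e (nat_lit 1858) (nat_lit 124) (.e (nat_lit 557105) (nat_lit 14) (.e (nat_lit 180252) (nat_lit 10) (.e (nat_lit 573488) (nat_lit 14) (.e (nat_lit 73747) (nat_lit 3) (.e (nat_lit 516115) (nat_lit 1) (.e (nat_lit 164179) (nat_lit 154) (.e (nat_lit 57344) (nat_lit 0) .nil)))))))) (.g (nat_lit 6) .nil .nil))) 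
(.lf (nat_lit 84018) (.g (nat_lit 3541) (.e (nat_lit 1858) (nat_lit 124) (.e (nat_lit 557105) (nat_lit 14) (.e (nat_lit 180252) (nat_lit 10) (.e (nat_lit 573488) (nat_lit 14) (.e (nat_lit 73748) (nat_lit 3) (.e (nat_lit 516115) (nat_lit 1) (.e (nat_lit 164179) (nat_lit 154) (.e (nat_lit 57358) (nat_lit 0) .nil)))))))) (.g (nat_lit 4) .nil .nil))))) (.nd (nat_lit 4) (.nd (nat_lit 5) 
(.lf (nat_lit 83978) (.g (nat_lit 3192) (.e (nat_lit 1858) (nat_lit 124) (.e (nat_lit 557105) (nat_lit 14) (.e (nat_lit 180252) (nat_lit 10) (.e (nat_lit 573487) (nat_lit 14) (.e (nat_lit 81664) (nat_lit 5) (.e (nat_lit 532499) (nat_lit 1) (.e (nat_lit 57684) (nat_lit 155) (.e (nat_lit 122880) (nat_lit 0) .nil)))))))) (.g (nat_lit 4) .nil .nil))) 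
(.lf (nat_lit 84010) (.g (nat_lit 3659) (.e (nat_lit 1858) (nat_lit 124) (.e (nat_lit 557105) (nat_lit 14) (.e (nat_lit 180252) (nat_lit 10) (.e (nat_lit 573488) (nat_lit 14) (.e (nat_lit 73747) (nat_lit 3) (.e (nat_lit 516119) (nat_lit 1) (.e (nat_lit 164184) (nat_lit 155) (.e (nat_lit 122880) (nat_lit 0) .nil)))))))) (.g (nat_lit 4) .nil .nil)))) (.nd (nat_lit 5) 
(.lf (nat_lit 83994) (.g (nat_lit 3788) (.e (nat_lit 1858) (nat_lit 124) (.e (nat_lit 557105) (nat_lit 14) (.e (nat_lit 180252) (nat_lit 10) (.e (nat_lit 573488) (nat_lit 14) (.e (nat_lit 73747) (nat_lit 3) (.e (nat_lit 516115) (nat_lit 1) (.e (nat_lit 164183) (nat_lit 154) (.e (nat_lit 57356) (nat_lit 0) .nil)))))))) (.g (nat_lit 4) .nil .nil))) 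
(.lf (nat_lit 84026) (.g (nat_lit 3554) (.e (nat_lit 1858) (nat_lit 124) (.e (nat_lit 557105) (nat_lit 14) (.e (nat_lit 180252) (nat_lit 10) (.e (nat_lit 573489) (nat_lit 14) (.e (nat_lit 73747) (nat_lit 3) (.e (nat_lit 516115) (nat_lit 1) (.e (nat_lit 164179) (nat_lit 154) (.e (nat_lit 57344) (nat_lit 0) .nil)))))))) (.g (nat_lit 4) .nil .nil)))))) 
(.nd (nat_lit 3) (.nd (nat_lit 4) (.nd (nat_lit 5) 
(.lf (nat_lit 83974) (.g (nat_lit 2943) (.e (nat_lit 1858) (nat_lit 124) (.e (nat_lit 557105) (nat_lit 14) (.e (nat_lit 180252) (nat_lit 10) (.e (nat_lit 573487) (nat_lit 14) (.e (nat_lit 73747) (nat_lit 3) (.e (nat_lit 516120) (nat_lit 1) (.e (nat_lit 164182) (nat_lit 154) (.e (nat_lit 57357) (nat_lit 0) .nil)))))))) (.g (nat_lit 4) .nil .nil))) 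
(.lf (nat_lit 84006) (.g (nat_lit 3579) (.e (nat_lit 1858) (nat_lit 124) (.e (nat_lit 557105) (nat_lit 14) (.e (nat_lit 180252) (nat_lit 10) (.e (nat_lit 573488) (nat_lit 14) (.e (nat_lit 73747) (nat_lit 3) (.e (nat_lit 516119) (nat_lit 1) (.e (nat_lit 164179) (nat_lit 154) (.e (nat_lit 57356) (nat_lit 0) .nil)))))))) (.g (nat_lit 4) .nil .nil)))) (.nd (nat_lit 5) 
(.lf (nat_lit 83990) (.g (nat_lit 4784) (.e (nat_lit 1858) (nat_lit 124) (.e (nat_lit 557105) (nat_lit 14) (.e (nat_lit 180252) (nat_lit 10) (.e (nat_lit 573488) (nat_lit 14) (.e (nat_lit 73747) (nat_lit 3) (.e (nat_lit 516115) (nat_lit 1) (.e (nat_lit 164182) (nat_lit 154) (.e (nat_lit 57344) (nat_lit 0) .nil)))))))) (.g (nat_lit 6) .nil .nil))) 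
(.lf (nat_lit 84022) (.g (nat_lit 3765) (.e (nat_lit 1858) (nat_lit 124) (.e (nat_lit 557105) (nat_lit 14) (.e (nat_lit 180252) (nat_lit 10) (.e (nat_lit 573488) (nat_lit 14) (.e (nat_lit 81664) (nat_lit 5) (.e (nat_lit 532519) (nat_lit 5) (.e (nat_lit 147467) (nat_lit 9) (.e (nat_lit 71) (nat_lit 0) .nil)))))))) (.g (nat_lit 4) .nil .nil))))) (.nd (nat_lit 4) (.nd (nat_lit 5) 
(.lf (nat_lit 83982) (.g (nat_lit 2458) (.e (nat_lit 1858) (nat_lit 124) (.e (nat_lit 557105) (nat_lit 14) (.e (nat_lit 180252) (nat_lit 10) (.e (nat_lit 573488) (nat_lit 14) (.e (nat_lit 73747) (nat_lit 3) .nil))))) .nil)) 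
(.lf (nat_lit 84014) (.g (nat_lit 3291) (.e (nat_lit 1858) (nat_lit 124) (.e (nat_lit 557105) (nat_lit 14) (.e (nat_lit 180252) (nat_lit 10) (.e (nat_lit 573488) (nat_lit 14) (.e (nat_lit 73747) (nat_lit 3) (.e (nat_lit 516120) (nat_lit 1) (.e (nat_lit 164183) (nat_lit 154) (.e (nat_lit 57344) (nat_lit 0) .nil)))))))) (.g (nat_lit 4) .nil .nil)))) (.nd (nat_lit 5) 
(.lf (nat_lit 83998) (.g (nat_lit 4278) (.e (nat_lit 1858) (nat_lit 124) (.e (nat_lit 557105) (nat_lit 14) (.e (nat_lit 180252) (nat_lit 10) (.e (nat_lit 573488) (nat_lit 14) (.e (nat_lit 73747) (nat_lit 3) (.e (nat_lit 516119) (nat_lit 1) (.e (nat_lit 164176) (nat_lit 154) (.e (nat_lit 57344) (nat_lit 0) .nil)))))))) (.g (nat_lit 6) .nil .nil))) 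
(.lf (nat_lit 84030) (.g (nat_lit 3198) (.e (nat_lit 1858) (nat_lit 124) (.e (nat_lit 557105) (nat_lit 14) (.e (nat_lit 180252) (nat_lit 10) (.e (nat_lit 573489) (nat_lit 14) (.e (nat_lit 73747) (nat_lit 3) (.e (nat_lit 516115) (nat_lit 1) (.e (nat_lit 164182) (nat_lit 154) (.e (nat_lit 57358) (nat_lit 0) .nil)))))))) (.g (nat_lit 4) .nil .nil)))))))) 
(.nd (nat_lit 1) (.nd (nat_lit 2) (.nd (nat_lit 3) (.nd (nat_lit 4) (.nd (nat_lit 5) 
(.lf (nat_lit 83969) (.g (nat_lit 4352) (.e (nat_lit 1858) (nat_lit 124) (.e (nat_lit 557105) (nat_lit 14) (.e (nat_lit 180252) (nat_lit 10) (.e (nat_lit 573487) (nat_lit 14) (.e (nat_lit 73747) (nat_lit 3) (.e (nat_lit 516119) (nat_lit 1) (.e (nat_lit 164180) (nat_lit 154) (.e (nat_lit 57357) (nat_lit 0) .nil)))))))) (.g (nat_lit 6) .nil .nil))) 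
(.lf (nat_lit 84001) (.g (nat_lit 4064) (.e (nat_lit 1858) (nat_lit 124) (.e (nat_lit 557105) (nat_lit 14) (.e (nat_lit 180252) (nat_lit 10) (.e (nat_lit 573488) (nat_lit 14) (.e (nat_lit 73747) (nat_lit 3) (.e (nat_lit 516119) (nat_lit 1) (.e (nat_lit 164176) (nat_lit 154) (.e (nat_lit 57358) (nat_lit 0) .nil)))))))) (.g (nat_lit 5) .nil .nil)))) (.nd (nat_lit 5) 
(.lf (nat_lit 83985) (.g (nat_lit 3668) (.e (nat_lit 1858) (nat_lit 124) (.e (nat_lit 557105) (nat_lit 14) (.e (nat_lit 180252) (nat_lit 10) (.e (nat_lit 573488) (nat_lit 14) (.e (nat_lit 73747) (nat_lit 3) (.e (nat_lit 516115) (nat_lit 1) (.e (nat_lit 164178) (nat_lit 154) (.e (nat_lit 57358) (nat_lit 0) .nil)))))))) (.g (nat_lit 4) .nil .nil))) 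
(.lf (nat_lit 84017) (.g (nat_lit 3555) (.e (nat_lit 1858) (nat_lit 124) (.e (nat_lit 557105) (nat_lit 14) (.e (nat_lit 180252) (nat_lit 10) (.e (nat_lit 573488) (nat_lit 14) (.e (nat_lit 73748) (nat_lit 3) (.e (nat_lit 516115) (nat_lit 1) (.e (nat_lit 164179) (nat_lit 154) (.e (nat_lit 57355) (nat_lit 0) .nil)))))))) (.g (nat_lit 4) .nil .nil))))) (.nd (nat_lit 4) (.nd (nat_lit 5) 
(.lf (nat_lit 83977) (.g (nat_lit 3611) (.e (nat_lit 1858) (nat_lit 124) (.e (nat_lit 557105) (nat_lit 14) (.e (nat_lit 180252) (nat_lit 10) (.e (nat_lit 573487) (nat_lit 14) (.e (nat_lit 81664) (nat_lit 5) (.e (nat_lit 532490) (nat_lit 0) (.e (nat_lit 2346) (nat_lit 151) (.e (nat_lit 778362) (nat_lit 9) (.e (nat_lit 71) (nat_lit 0) .nil))))))))) (.g (nat_lit 4) .nil .nil))) 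
(.lf (nat_lit 84009) (.g (nat_lit 4195) (.e (nat_lit 1858) (nat_lit 124) (.e (nat_lit 557105) (nat_lit 14) (.e (nat_lit 180252) (nat_lit 10) (.e (nat_lit 573488) (nat_lit 14) (.e (nat_lit 73747) (nat_lit 3) (.e (nat_lit 516119) (nat_lit 1) (.e (nat_lit 164180) (nat_lit 154) (.e (nat_lit 57358) (nat_lit 0) .nil)))))))) (.g (nat_lit 5) .nil .nil)))) (.nd (nat_lit 5) 
(.lf (nat_lit 83993) (.g (nat_lit 4377) (.e (nat_lit 1858) (nat_lit 124) (.e (nat_lit 557105) (nat_lit 14) (.e (nat_lit 180252) (nat_lit 10) (.e (nat_lit 573488) (nat_lit 14) (.e (nat_lit 73747) (nat_lit 3) (.e (nat_lit 516115) (nat_lit 1) (.e (nat_lit 164183) (nat_lit 154) (.e (nat_lit 57344) (nat_lit 0) .nil)))))))) (.g (nat_lit 5) .nil .nil))) 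
(.lf (nat_lit 84025) (.g (nat_lit 2592) (.e (nat_lit 1858) (nat_lit 124) (.e (nat_lit 557105) (nat_lit 14) (.e (nat_lit 180252) (nat_lit 10) (.e (nat_lit 573489) (nat_lit 14) (.e (nat_lit 73745) (nat_lit 3) (.e (nat_lit 516119) (nat_lit 1) (.e (nat_lit 164179) (nat_lit 154) (.e (nat_lit 57355) (nat_lit 0) .nil)))))))) (.g (nat_lit 4) .nil .nil)))))) 
(.nd (nat_lit 3) (.nd (nat_lit 4) (.nd (nat_lit 5) 
(.lf (nat_lit 83973) (.g (nat_lit 2981) (.e (nat_lit 1858) (nat_lit 124) (.e (nat_lit 557105) (nat_lit 14) (.e (nat_lit 180252) (nat_lit 10) (.e (nat_lit 573487) (nat_lit 14) (.e (nat_lit 73747) (nat_lit 3) (.e (nat_lit 516120) (nat_lit 1) (.e (nat_lit 164182) (nat_lit 154) (.e (nat_lit 57344) (nat_lit 0) .nil)))))))) (.g (nat_lit 4) .nil .nil))) 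
(.lf (nat_lit 84005) (.g (nat_lit 4769) (.e (nat_lit 1858) (nat_lit 124) (.e (nat_lit 557105) (nat_lit 14) (.e (nat_lit 180252) (nat_lit 10) (.e (nat_lit 573488) (nat_lit 14) (.e (nat_lit 73747) (nat_lit 3) (.e (nat_lit 516119) (nat_lit 1) (.e (nat_lit 164179) (nat_lit 154) (.e (nat_lit 57355) (nat_lit 0) .nil)))))))) (.g (nat_lit 7) .nil .nil)))) (.nd (nat_lit 5) 
(.lf (nat_lit 83989) (.g (nat_lit 5097) (.e (nat_lit 1858) (nat_lit 124) (.e (nat_lit 557105) (nat_lit 14) (.e (nat_lit 180252) (nat_lit 10) (.e (nat_lit 573488) (nat_lit 14) (.e (nat_lit 73747) (nat_lit 3) (.e (nat_lit 516115) (nat_lit 1) (.e (nat_lit 164179) (nat_lit 154) (.e (nat_lit 57358) (nat_lit 0) .nil)))))))) (.g (nat_lit 6) .nil .nil))) 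
(.lf (nat_lit 84021) (.g (nat_lit 4035) (.e (nat_lit 1858) (nat_lit 124) (.e (nat_lit 557105) (nat_lit 14) (.e (nat_lit 180252) (nat_lit 10) (.e (nat_lit 573488) (nat_lit 14) (.e (nat_lit 81664) (nat_lit 5) (.e (nat_lit 532490) (nat_lit 0) (.e (nat_lit 2346) (nat_lit 151) (.e (nat_lit 778362) (nat_lit 9) (.e (nat_lit 71) (nat_lit 0) .nil))))))))) (.g (nat_lit 4) .nil .nil))))) 
(.nd (nat_lit 4) (.nd (nat_lit 5) 
(.lf (nat_lit 83981) (.g (nat_lit 3098) (.e (nat_lit 1858) (nat_lit 124) (.e (nat_lit 557105) (nat_lit 14) (.e (nat_lit 180252) (nat_lit 10) (.e (nat_lit 573488) (nat_lit 14) (.e (nat_lit 73745) (nat_lit 3) (.e (nat_lit 516119) (nat_lit 1) (.e (nat_lit 164179) (nat_lit 154) (.e (nat_lit 57355) (nat_lit 0) .nil)))))))) (.g (nat_lit 4) .nil .nil))) 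
(.lf (nat_lit 84013) (.g (nat_lit 3235) (.e (nat_lit 1858) (nat_lit 124) (.e (nat_lit 557105) (nat_lit 14) (.e (nat_lit 180252) (nat_lit 10) (.e (nat_lit 573488) (nat_lit 14) (.e (nat_lit 73747) (nat_lit 3) (.e (nat_lit 516120) (nat_lit 1) (.e (nat_lit 164182) (nat_lit 154) (.e (nat_lit 57357) (nat_lit 0) .nil)))))))) (.g (nat_lit 4) .nil .nil)))) (.nd (nat_lit 5) 
(.lf (nat_lit 83997) (.g (nat_lit 3207) (.e (nat_lit 1858) (nat_lit 124) (.e (nat_lit 557105) (nat_lit 14) (.e (nat_lit 180252) (nat_lit 10) (.e (nat_lit 573488) (nat_lit 14) (.e (nat_lit 73747) (nat_lit 3) (.e (nat_lit 516115) (nat_lit 1) (.e (nat_lit 164185) (nat_lit 155) (.e (nat_lit 122880) (nat_lit 0) .nil)))))))) (.g (nat_lit 4) .nil .nil))) 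
(.lf (nat_lit 84029) (.g (nat_lit 3267) (.e (nat_lit 1858) (nat_lit 124) (.e (nat_lit 557105) (nat_lit 14) (.e (nat_lit 180252) (nat_lit 10) (.e (nat_lit 573489) (nat_lit 14) (.e (nat_lit 73747) (nat_lit 3) (.e (nat_lit 516115) (nat_lit 1) (.e (nat_lit 164182) (nat_lit 154) (.e (nat_lit 57357) (nat_lit 0) .nil)))))))) (.g (nat_lit 4) .nil .nil))))))) 
(.nd (nat_lit 2) (.nd (nat_lit 3) (.nd (nat_lit 4) (.nd (nat_lit 5) 
(.lf (nat_lit 83971) (.g (nat_lit 3542) (.e (nat_lit 1858) (nat_lit 124) (.e (nat_lit 557105) (nat_lit 14) (.e (nat_lit 180252) (nat_lit 10) (.e (nat_lit 573487) (nat_lit 14) (.e (nat_lit 73747) (nat_lit 3) (.e (nat_lit 516119) (nat_lit 1) (.e (nat_lit 164184) (nat_lit 155) (.e (nat_lit 122880) (nat_lit 0) .nil)))))))) (.g (nat_lit 5) .nil .nil))) 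
(.lf (nat_lit 84003) (.g (nat_lit 4192) (.e (nat_lit 1858) (nat_lit 124) (.e (nat_lit 557105) (nat_lit 14) (.e (nat_lit 180252) (nat_lit 10) (.e (nat_lit 573488) (nat_lit 14) (.e (nat_lit 73747) (nat_lit 3) (.e (nat_lit 516119) (nat_lit 1) (.e (nat_lit 164178) (nat_lit 154) (.e (nat_lit 57358) (nat_lit 0) .nil)))))))) (.g (nat_lit 5) .nil .nil)))) (.nd (nat_lit 5) 
(.lf (nat_lit 83987) (.g (nat_lit 5125) (.e (nat_lit 1858) (nat_lit 124) (.e (nat_lit 557105) (nat_lit 14) (.e (nat_lit 180252) (nat_lit 10) (.e (nat_lit 573488) (nat_lit 14) (.e (nat_lit 73747) (nat_lit 3) (.e (nat_lit 516115) (nat_lit 1) (.e (nat_lit 164179) (nat_lit 154) (.e (nat_lit 57355) (nat_lit 0) .nil)))))))) (.g (nat_lit 6) .nil .nil))) 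
(.lf (nat_lit 84019) (.g (nat_lit 3002) (.e (nat_lit 1858) (nat_lit 124) (.e (nat_lit 557105) (nat_lit 14) (.e (nat_lit 180252) (nat_lit 10) (.e (nat_lit 573488) (nat_lit 14) (.e (nat_lit 73748) (nat_lit 3) (.e (nat_lit 516119) (nat_lit 1) (.e (nat_lit 164179) (nat_lit 154) (.e (nat_lit 57355) (nat_lit 0) .nil)))))))) (.g (nat_lit 4) .nil .nil))))) (.nd (nat_lit 4) (.nd (nat_lit 5) 
(.lf (nat_lit 83979) (.g (nat_lit 1811) (.e (nat_lit 1858) (nat_lit 124) (.e (nat_lit 557105) (nat_lit 14) (.e (nat_lit 180252) (nat_lit 10) (.e (nat_lit 573488) (nat_lit 14) .nil)))) .nil)) 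
(.lf (nat_lit 84011) (.g (nat_lit 3556) (.e (nat_lit 1858) (nat_lit 124) (.e (nat_lit 557105) (nat_lit 14) (.e (nat_lit 180252) (nat_lit 10) (.e (nat_lit 573488) (nat_lit 14) (.e (nat_lit 73747) (nat_lit 3) (.e (nat_lit 516119) (nat_lit 1) (.e (nat_lit 164184) (nat_lit 155) (.e (nat_lit 122884) (nat_lit 0) .nil)))))))) (.g (nat_lit 4) .nil .nil)))) (.nd (nat_lit 5) 
(.lf (nat_lit 83995) (.g (nat_lit 3794) (.e (nat_lit 1858) (nat_lit 124) (.e (nat_lit 557105) (nat_lit 14) (.e (nat_lit 180252) (nat_lit 10) (.e (nat_lit 573488) (nat_lit 14) (.e (nat_lit 73747) (nat_lit 3) (.e (nat_lit 516115) (nat_lit 1) (.e (nat_lit 164183) (nat_lit 154) (.e (nat_lit 57358) (nat_lit 0) .nil)))))))) (.g (nat_lit 4) .nil .nil))) 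
(.lf (nat_lit 84027) (.g (nat_lit 3611) (.e (nat_lit 1858) (nat_lit 124) (.e (nat_lit 557105) (nat_lit 14) (.e (nat_lit 180252) (nat_lit 10) (.e (nat_lit 573489) (nat_lit 14) (.e (nat_lit 73747) (nat_lit 3) (.e (nat_lit 516115) (nat_lit 1) (.e (nat_lit 164179) (nat_lit 154) (.e (nat_lit 57358) (nat_lit 0) .nil)))))))) (.g (nat_lit 4) .nil .nil)))))) 
(.nd (nat_lit 3) (.nd (nat_lit 4) (.nd (nat_lit 5) 
(.lf (nat_lit 83975) (.g (nat_lit 2999) (.e (nat_lit 1858) (nat_lit 124) (.e (nat_lit 557105) (nat_lit 14) (.e (nat_lit 180252) (nat_lit 10) (.e (nat_lit 573487) (nat_lit 14) (.e (nat_lit 73747) (nat_lit 3) (.e (nat_lit 516120) (nat_lit 1) (.e (nat_lit 164183) (nat_lit 154) (.e (nat_lit 57344) (nat_lit 0) .nil)))))))) (.g (nat_lit 4) .nil .nil))) 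
(.lf (nat_lit 84007) (.g (nat_lit 4574) (.e (nat_lit 1858) (nat_lit 124) (.e (nat_lit 557105) (nat_lit 14) (.e (nat_lit 180252) (nat_lit 10) (.e (nat_lit 573488) (nat_lit 14) (.e (nat_lit 73747) (nat_lit 3) (.e (nat_lit 516119) (nat_lit 1) (.e (nat_lit 164179) (nat_lit 154) (.e (nat_lit 57358) (nat_lit 0) .nil)))))))) (.g (nat_lit 6) .nil .nil)))) (.nd (nat_lit 5) 
(.lf (nat_lit 83991) (.g (nat_lit 4755) (.e (nat_lit 1858) (nat_lit 124) (.e (nat_lit 557105) (nat_lit 14) (.e (nat_lit 180252) (nat_lit 10) (.e (nat_lit 573488) (nat_lit 14) (.e (nat_lit 73747) (nat_lit 3) (.e (nat_lit 516115) (nat_lit 1) (.e (nat_lit 164182) (nat_lit 154) (.e (nat_lit 57357) (nat_lit 0) .nil)))))))) (.g (nat_lit 6) .nil .nil))) 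
(.lf (nat_lit 84023) (.g (nat_lit 2659) (.e (nat_lit 1858) (nat_lit 124) (.e (nat_lit 557105) (nat_lit 14) (.e (nat_lit 180252) (nat_lit 10) (.e (nat_lit 573488) (nat_lit 14) (.e (nat_lit 73755) (nat_lit 8) .nil))))) .nil)))) (.nd (nat_lit 4) (.nd (nat_lit 5) 
(.lf (nat_lit 83983) (.g (nat_lit 3096) (.e (nat_lit 1858) (nat_lit 124) (.e (nat_lit 557105) (nat_lit 14) (.e (nat_lit 180252) (nat_lit 10) (.e (nat_lit 573488) (nat_lit 14) (.e (nat_lit 73747) (nat_lit 3) (.e (nat_lit 516115) (nat_lit 1) (.e (nat_lit 164177) (nat_lit 154) (.e (nat_lit 57355) (nat_lit 0) .nil)))))))) (.g (nat_lit 4) .nil .nil))) 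
(.lf (nat_lit 84015) (.g (nat_lit 2668) (.e (nat_lit 1858) (nat_lit 124) (.e (nat_lit 557105) (nat_lit 14) (.e (nat_lit 180252) (nat_lit 10) (.e (nat_lit 573488) (nat_lit 14) (.e (nat_lit 73748) (nat_lit 3) .nil))))) .nil))) (.nd (nat_lit 5) 
(.lf (nat_lit 83999) (.g (nat_lit 5038) (.e (nat_lit 1858) (nat_lit 124) (.e (nat_lit 557105) (nat_lit 14) (.e (nat_lit 180252) (nat_lit 10) (.e (nat_lit 573488) (nat_lit 14) (.e (nat_lit 73747) (nat_lit 3) (.e (nat_lit 516119) (nat_lit 1) (.e (nat_lit 164176) (nat_lit 154) (.e (nat_lit 57355) (nat_lit 0) .nil)))))))) (.g (nat_lit 0) .nil .nil))) 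
(.lf (nat_lit 84031) (.g (nat_lit 2889) (.e (nat_lit 1858) (nat_lit 124) (.e (nat_lit 557105) (nat_lit 14) (.e (nat_lit 180252) (nat_lit 10) (.e (nat_lit 573489) (nat_lit 14) (.e (nat_lit 73747) (nat_lit 3) (.e (nat_lit 516115) (nat_lit 1) (.e (nat_lit 164183) (nat_lit 154) (.e (nat_lit 57344) (nat_lit 0) .nil)))))))) (.g (nat_lit 4) .nil .nil)))))))))

noncomputable def tv1137 : DT := (.nd (nat_lit 0) (.nd (nat_lit 1) (.nd (nat_lit 2) (.nd (nat_lit 3) (.nd (nat_lit 4) (.nd (nat_lit 5) 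
(.lf (nat_lit 84032) (.g (nat_lit 2864) (.e (nat_lit 1858) (nat_lit 124) (.e (nat_lit 557105) (nat_lit 14) (.e (nat_lit 180252) (nat_lit 10) (.e (nat_lit 573489) (nat_lit 14) (.e (nat_lit 73747) (nat_lit 3) (.e (nat_lit 516119) (nat_lit 1) (.e (nat_lit 164176) (nat_lit 154) (.e (nat_lit 57344) (nat_lit 0) .nil)))))))) (.g (nat_lit 4) .nil .nil))) 
(.lf (nat_lit 84064) (.g (nat_lit 3263) (.e (nat_lit 1858) (nat_lit 124) (.e (nat_lit 557105) (nat_lit 14) (.e (nat_lit 180252) (nat_lit 10) (.e (nat_lit 573489) (nat_lit 14) (.e (nat_lit 73748) (nat_lit 3) (.e (nat_lit 516120) (nat_lit 1) (.e (nat_lit 164183) (nat_lit 154) (.e (nat_lit 57344) (nat_lit 0) .nil)))))))) (.g (nat_lit 4) .nil .nil)))) (.nd (nat_lit 5) 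
(.lf (nat_lit 84048) (.g (nat_lit 3355) (.e (nat_lit 1858) (nat_lit 124) (.e (nat_lit 557105) (nat_lit 14) (.e (nat_lit 180252) (nat_lit 10) (.e (nat_lit 573489) (nat_lit 14) (.e (nat_lit 73748) (nat_lit 3) (.e (nat_lit 516115) (nat_lit 1) (.e (nat_lit 164182) (nat_lit 154) (.e (nat_lit 57357) (nat_lit 0) .nil)))))))) (.g (nat_lit 4) .nil .nil))) 
(.lf (nat_lit 84080) (.g (nat_lit 2693) (.e (nat_lit 1858) (nat_lit 124) (.e (nat_lit 557105) (nat_lit 14) (.e (nat_lit 180252) (nat_lit 10) (.e (nat_lit 573489) (nat_lit 14) (.e (nat_lit 73755) (nat_lit 8) (.e (nat_lit 557089) (nat_lit 12) (.e (nat_lit 163846) (nat_lit 0) (.e (nat_lit 5206) (nat_lit 294) (.e (nat_lit 57355) (nat_lit 0) .nil))))))))) (.g (nat_lit 5) .nil .nil))))) 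
(.nd (nat_lit 4) (.nd (nat_lit 5) 
(.lf (nat_lit 84040) (.g (nat_lit 3055) (.e (nat_lit 1858) (nat_lit 124) (.e (nat_lit 557105) (nat_lit 14) (.e (nat_lit 180252) (nat_lit 10) (.e (nat_lit 573489) (nat_lit 14) (.e (nat_lit 73747) (nat_lit 3) (.e (nat_lit 516119) (nat_lit 1) (.e (nat_lit 164180) (nat_lit 154) (.e (nat_lit 57357) (nat_lit 0) .nil)))))))) (.g (nat_lit 4) .nil .nil))) 
(.lf (nat_lit 84072) (.g (nat_lit 4062) (.e (nat_lit 1858) (nat_lit 124) (.e (nat_lit 557105) (nat_lit 14) (.e (nat_lit 180252) (nat_lit 10) (.e (nat_lit 573489) (nat_lit 14) (.e (nat_lit 73754) (nat_lit 8) (.e (nat_lit 557091) (nat_lit 12) (.e (nat_lit 163999) (nat_lit 38) (.e (nat_lit 639005) (nat_lit 13) (.e (nat_lit 1027) (nat_lit 81) .nil))))))))) (.g (nat_lit 5) .nil .nil)))) 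
(.nd (nat_lit 5) 
(.lf (nat_lit 84056) (.g (nat_lit 3373) (.e (nat_lit 1858) (nat_lit 124) (.e (nat_lit 557105) (nat_lit 14) (.e (nat_lit 180252) (nat_lit 10) (.e (nat_lit 573489) (nat_lit 14) (.e (nat_lit 73748) (nat_lit 3) (.e (nat_lit 516119) (nat_lit 1) (.e (nat_lit 164178) (nat_lit 154) (.e (nat_lit 57355) (nat_lit 0) .nil)))))))) (.g (nat_lit 4) .nil .nil))) 
(.lf (nat_lit 84088) (.g (nat_lit 2857) (.e (nat_lit 1858) (nat_lit 124) (.e (nat_lit 557105) (nat_lit 14) (.e (nat_lit 180252) (nat_lit 10) (.e (nat_lit 573489) (nat_lit 14) (.e (nat_lit 73755) (nat_lit 8) (.e (nat_lit 557090) (nat_lit 12) (.e (nat_lit 163840) (nat_lit 0) (.e (nat_lit 5199) (nat_lit 294) (.e (nat_lit 57355) (nat_lit 0) .nil))))))))) (.g (nat_lit 5) .nil .nil)))))) 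
(.nd (nat_lit 3) (.nd (nat_lit 4) (.nd (nat_lit 5) 
(.lf (nat_lit 84036) (.g (nat_lit 2778) (.e (nat_lit 1858) (nat_lit 124) (.e (nat_lit 557105) (nat_lit 14) (.e (nat_lit 180252) (nat_lit 10) (.e (nat_lit 573489) (nat_lit 14) (.e (nat_lit 73747) (nat_lit 3) (.e (nat_lit 516119) (nat_lit 1) (.e (nat_lit 164178) (nat_lit 154) (.e (nat_lit 57358) (nat_lit 0) .nil)))))))) (.g (nat_lit 4) .nil .nil))) 
(.lf (nat_lit 84068) (.g (nat_lit 3444) (.e (nat_lit 1858) (nat_lit 124) (.e (nat_lit 557105) (nat_lit 14) (.e (nat_lit 180252) (nat_lit 10) (.e (nat_lit 573489) (nat_lit 14) (.e (nat_lit 81664) (nat_lit 5) (.e (nat_lit 532490) (nat_lit 0) (.e (nat_lit 7936) (nat_lit 154) (.e (nat_lit 802818) (nat_lit 0) .nil)))))))) (.g (nat_lit 4) .nil .nil)))) (.nd (nat_lit 5) 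
(.lf (nat_lit 84052) (.g (nat_lit 2874) (.e (nat_lit 1858) (nat_lit 124) (.e (nat_lit 557105) (nat_lit 14) (.e (nat_lit 180252) (nat_lit 10) (.e (nat_lit 573489) (nat_lit 14) (.e (nat_lit 73748) (nat_lit 3) (.e (nat_lit 516115) (nat_lit 1) (.e (nat_lit 164183) (nat_lit 154) (.e (nat_lit 57358) (nat_lit 0) .nil)))))))) (.g (nat_lit 4) .nil .nil))) 
(.lf (nat_lit 84084) (.g (nat_lit 3262) (.e (nat_lit 1858) (nat_lit 124) (.e (nat_lit 557105) (nat_lit 14) (.e (nat_lit 180252) (nat_lit 10) (.e (nat_lit 573489) (nat_lit 14) (.e (nat_lit 73755) (nat_lit 8) (.e (nat_lit 557089) (nat_lit 12) (.e (nat_lit 164000) (nat_lit 38) (.e (nat_lit 639008) (nat_lit 13) (.e (nat_lit 982) (nat_lit 81) .nil))))))))) (.g (nat_lit 5) .nil .nil))))) 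
(.nd (nat_lit 4) (.nd (nat_lit 5) 
(.lf (nat_lit 84044) (.g (nat_lit 4291) (.e (nat_lit 1858) (nat_lit 124) (.e (nat_lit 557105) (nat_lit 14) (.e (nat_lit 180252) (nat_lit 10) (.e (nat_lit 573489) (nat_lit 14) (.e (nat_lit 73748) (nat_lit 3) (.e (nat_lit 516115) (nat_lit 1) (.e (nat_lit 164179) (nat_lit 154) (.e (nat_lit 57344) (nat_lit 0) .nil)))))))) (.g (nat_lit 6) .nil .nil))) 
(.lf (nat_lit 84076) (.g (nat_lit 3243) (.e (nat_lit 1858) (nat_lit 124) (.e (nat_lit 557105) (nat_lit 14) (.e (nat_lit 180252) (nat_lit 10) (.e (nat_lit 573489) (nat_lit 14) (.e (nat_lit 73754) (nat_lit 8) (.e (nat_lit 557091) (nat_lit 12) (.e (nat_lit 163999) (nat_lit 38) (.e (nat_lit 639007) (nat_lit 13) (.e (nat_lit 1035) (nat_lit 81) .nil))))))))) (.g (nat_lit 4) .nil .nil)))) 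
(.nd (nat_lit 5) 
(.lf (nat_lit 84060) (.g (nat_lit 2928) (.e (nat_lit 1858) (nat_lit 124) (.e (nat_lit 557105) (nat_lit 14) (.e (nat_lit 180252) (nat_lit 10) (.e (nat_lit 573489) (nat_lit 14) (.e (nat_lit 73748) (nat_lit 3) (.e (nat_lit 516119) (nat_lit 1) (.e (nat_lit 164179) (nat_lit 154) (.e (nat_lit 57356) (nat_lit 0) .nil)))))))) (.g (nat_lit 4) .nil .nil))) 
(.lf (nat_lit 84092) (.g (nat_lit 2889) (.e (nat_lit 1858) (nat_lit 124) (.e (nat_lit 557105) (nat_lit 14) (.e (nat_lit 180252) (nat_lit 10) (.e (nat_lit 573489) (nat_lit 14) (.e (nat_lit 73755) (nat_lit 8) (.e (nat_lit 557090) (nat_lit 12) (.e (nat_lit 163840) (nat_lit 0) (.e (nat_lit 5977) (nat_lit 325) (.e (nat_lit 229481) (nat_lit 61) .nil))))))))) (.g (nat_lit 4) .nil .nil))))))) 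
(.nd (nat_lit 2) (.nd (nat_lit 3) (.nd (nat_lit 4) (.nd (nat_lit 5) 
(.lf (nat_lit 84034) (.g (nat_lit 3291) (.e (nat_lit 1858) (nat_lit 124) (.e (nat_lit 557105) (nat_lit 14) (.e (nat_lit 180252) (nat_lit 10) (.e (nat_lit 573489) (nat_lit 14) (.e (nat_lit 73747) (nat_lit 3) (.e (nat_lit 516119) (nat_lit 1) (.e (nat_lit 164176) (nat_lit 154) (.e (nat_lit 57357) (nat_lit 0) .nil)))))))) (.g (nat_lit 4) .nil .nil))) 
(.lf (nat_lit 84066) (.g (nat_lit 2680) (.e (nat_lit 1858) (nat_lit 124) (.e (nat_lit 557105) (nat_lit 14) (.e (nat_lit 180252) (nat_lit 10) (.e (nat_lit 573489) (nat_lit 14) (.e (nat_lit 73748) (nat_lit 3) (.e (nat_lit 516120) (nat_lit 1) (.e (nat_lit 164183) (nat_lit 154) (.e (nat_lit 57358) (nat_lit 0) .nil)))))))) (.g (nat_lit 4) .nil .nil)))) (.nd (nat_lit 5) 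
(.lf (nat_lit 84050) (.g (nat_lit 3457) (.e (nat_lit 1858) (nat_lit 124) (.e (nat_lit 557105) (nat_lit 14) (.e (nat_lit 180252) (nat_lit 10) (.e (nat_lit 573489) (nat_lit 14) (.e (nat_lit 73748) (nat_lit 3) (.e (nat_lit 516115) (nat_lit 1) (.e (nat_lit 164183) (nat_lit 154) (.e (nat_lit 57344) (nat_lit 0) .nil)))))))) (.g (nat_lit 4) .nil .nil))) 
(.lf (nat_lit 84082) (.g (nat_lit 4033) (.e (nat_lit 1858) (nat_lit 124) (.e (nat_lit 557105) (nat_lit 14) (.e (nat_lit 180252) (nat_lit 10) (.e (nat_lit 573489) (nat_lit 14) (.e (nat_lit 73755) (nat_lit 8) (.e (nat_lit 557089) (nat_lit 12) (.e (nat_lit 163999) (nat_lit 38) (.e (nat_lit 639007) (nat_lit 13) (.e (nat_lit 1047) (nat_lit 81) .nil))))))))) (.g (nat_lit 7) .nil .nil))))) 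
(.nd (nat_lit 4) (.nd (nat_lit 5) 
(.lf (nat_lit 84042) (.g (nat_lit 2354) (.e (nat_lit 1858) (nat_lit 124) (.e (nat_lit 557105) (nat_lit 14) (.e (nat_lit 180252) (nat_lit 10) (.e (nat_lit 573489) (nat_lit 14) (.e (nat_lit 73748) (nat_lit 3) .nil))))) .nil)) 
(.lf (nat_lit 84074) (.g (nat_lit 2980) (.e (nat_lit 1858) (nat_lit 124) (.e (nat_lit 557105) (nat_lit 14) (.e (nat_lit 180252) (nat_lit 10) (.e (nat_lit 573489) (nat_lit 14) (.e (nat_lit 73754) (nat_lit 8) (.e (nat_lit 557091) (nat_lit 12) (.e (nat_lit 163999) (nat_lit 38) (.e (nat_lit 639007) (nat_lit 13) (.e (nat_lit 1027) (nat_lit 81) .nil))))))))) (.g (nat_lit 4) .nil .nil)))) 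
(.nd (nat_lit 5) 
(.lf (nat_lit 84058) (.g (nat_lit 3572) (.e (nat_lit 1858) (nat_lit 124) (.e (nat_lit 557105) (nat_lit 14) (.e (nat_lit 180252) (nat_lit 10) (.e (nat_lit 573489) (nat_lit 14) (.e (nat_lit 73748) (nat_lit 3) (.e (nat_lit 516119) (nat_lit 1) (.e (nat_lit 164179) (nat_lit 154) (.e (nat_lit 57344) (nat_lit 0) .nil)))))))) (.g (nat_lit 4) .nil .nil))) 
(.lf (nat_lit 84090) (.g (nat_lit 3699) (.e (nat_lit 1858) (nat_lit 124) (.e (nat_lit 557105) (nat_lit 14) (.e (nat_lit 180252) (nat_lit 10) (.e (nat_lit 573489) (nat_lit 14) (.e (nat_lit 73755) (nat_lit 8) (.e (nat_lit 557090) (nat_lit 12) (.e (nat_lit 163840) (nat_lit 0) (.e (nat_lit 5206) (nat_lit 294) (.e (nat_lit 57355) (nat_lit 0) .nil))))))))) (.g (nat_lit 6) .nil .nil)))))) 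
(.nd (nat_lit 3) (.nd (nat_lit 4) (.nd (nat_lit 5) 
(.lf (nat_lit 84038) (.g (nat_lit 3355) (.e (nat_lit 1858) (nat_lit 124) (.e (nat_lit 557105) (nat_lit 14) (.e (nat_lit 180252) (nat_lit 10) (.e (nat_lit 573489) (nat_lit 14) (.e (nat_lit 73747) (nat_lit 3) (.e (nat_lit 516119) (nat_lit 1) (.e (nat_lit 164179) (nat_lit 154) (.e (nat_lit 57355) (nat_lit 0) .nil)))))))) (.g (nat_lit 4) .nil .nil))) 
(.lf (nat_lit 84070) (.g (nat_lit 3597) (.e (nat_lit 1858) (nat_lit 124) (.e (nat_lit 557105) (nat_lit 14) (.e (nat_lit 180252) (nat_lit 10) (.e (nat_lit 573489) (nat_lit 14) (.e (nat_lit 81664) (nat_lit 5) (.e (nat_lit 532519) (nat_lit 5) (.e (nat_lit 147467) (nat_lit 9) (.e (nat_lit 71) (nat_lit 0) .nil)))))))) (.g (nat_lit 4) .nil .nil)))) (.nd (nat_lit 5) 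
(.lf (nat_lit 84054) (.g (nat_lit 3567) (.e (nat_lit 1858) (nat_lit 124) (.e (nat_lit 557105) (nat_lit 14) (.e (nat_lit 180252) (nat_lit 10) (.e (nat_lit 573489) (nat_lit 14) (.e (nat_lit 73748) (nat_lit 3) (.e (nat_lit 516119) (nat_lit 1) (.e (nat_lit 164176) (nat_lit 154) (.e (nat_lit 57355) (nat_lit 0) .nil)))))))) (.g (nat_lit 5) .nil .nil))) 
(.lf (nat_lit 84086) (.g (nat_lit 3914) (.e (nat_lit 1858) (nat_lit 124) (.e (nat_lit 557105) (nat_lit 14) (.e (nat_lit 180252) (nat_lit 10) (.e (nat_lit 573489) (nat_lit 14) (.e (nat_lit 73755) (nat_lit 8) (.e (nat_lit 557090) (nat_lit 12) (.e (nat_lit 163840) (nat_lit 0) (.e (nat_lit 5197) (nat_lit 294) (.e (nat_lit 57355) (nat_lit 0) .nil))))))))) (.g (nat_lit 6) .nil .nil))))) 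
(.nd (nat_lit 4) (.nd (nat_lit 5) 
(.lf (nat_lit 84046) (.g (nat_lit 4600) (.e (nat_lit 1858) (nat_lit 124) (.e (nat_lit 557105) (nat_lit 14) (.e (nat_lit 180252) (nat_lit 10) (.e (nat_lit 573489) (nat_lit 14) (.e (nat_lit 73748) (nat_lit 3) (.e (nat_lit 516115) (nat_lit 1) (.e (nat_lit 164179) (nat_lit 154) (.e (nat_lit 57358) (nat_lit 0) .nil)))))))) (.g (nat_lit 6) .nil .nil))) 
(.lf (nat_lit 84078) (.g (nat_lit 3120) (.e (nat_lit 1858) (nat_lit 124) (.e (nat_lit 557105) (nat_lit 14) (.e (nat_lit 180252) (nat_lit 10) (.e (nat_lit 573489) (nat_lit 14) (.e (nat_lit 73755) (nat_lit 8) (.e (nat_lit 557065) (nat_lit 9) (.e (nat_lit 2612) (nat_lit 163) (.e (nat_lit 164319) (nat_lit 228) (.e (nat_lit 57355) (nat_lit 0) .nil))))))))) (.g (nat_lit 5) .nil .nil)))) 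
(.nd (nat_lit 5) 
(.lf (nat_lit 84062) (.g (nat_lit 2951) (.e (nat_lit 1858) (nat_lit 124) (.e (nat_lit 557105) (nat_lit 14) (.e (nat_lit 180252) (nat_lit 10) (.e (nat_lit 573489) (nat_lit 14) (.e (nat_lit 73748) (nat_lit 3) (.e (nat_lit 516119) (nat_lit 1) (.e (nat_lit 164180) (nat_lit 154) (.e (nat_lit 57357) (nat_lit 0) .nil)))))))) (.g (nat_lit 4) .nil .nil))) 
(.lf (nat_lit 84094) (.g (nat_lit 3655) (.e (nat_lit 1858) (nat_lit 124) (.e (nat_lit 557105) (nat_lit 14) (.e (nat_lit 180252) (nat_lit 10) (.e (nat_lit 573489) (nat_lit 14) (.e (nat_lit 73755) (nat_lit 8) (.e (nat_lit 557090) (nat_lit 12) (.e (nat_lit 163841) (nat_lit 0) (.e (nat_lit 5207) (nat_lit 295) (.e (nat_lit 122880) (nat_lit 0) .nil))))))))) (.g (nat_lit 6) .nil .nil)))))))) 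
(.nd (nat_lit 1) (.nd (nat_lit 2) (.nd (nat_lit 3) (.nd (nat_lit 4) (.nd (nat_lit 5) 
(.lf (nat_lit 84033) (.g (nat_lit 3624) (.e (nat_lit 1858) (nat_lit 124) (.e (nat_lit 557105) (nat_lit 14) (.e (nat_lit 180252) (nat_lit 10) (.e (nat_lit 573489) (nat_lit 14) (.e (nat_lit 73747) (nat_lit 3) (.e (nat_lit 516119) (nat_lit 1) (.e (nat_lit 164176) (nat_lit 154) (.e (nat_lit 57355) (nat_lit 0) .nil)))))))) (.g (nat_lit 5) .nil .nil))) 
(.lf (nat_lit 84065) (.g (nat_lit 2674) (.e (nat_lit 1858) (nat_lit 124) (.e (nat_lit 557105) (nat_lit 14) (.e (nat_lit 180252) (nat_lit 10) (.e (nat_lit 573489) (nat_lit 14) (.e (nat_lit 73748) (nat_lit 3) (.e (nat_lit 516120) (nat_lit 1) (.e (nat_lit 164183) (nat_lit 154) (.e (nat_lit 57356) (nat_lit 0) .nil)))))))) (.g (nat_lit 4) .nil .nil)))) (.nd (nat_lit 5) 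
(.lf (nat_lit 84049) (.g (nat_lit 3286) (.e (nat_lit 1858) (nat_lit 124) (.e (nat_lit 557105) (nat_lit 14) (.e (nat_lit 180252) (nat_lit 10) (.e (nat_lit 573489) (nat_lit 14) (.e (nat_lit 73748) (nat_lit 3) (.e (nat_lit 516115) (nat_lit 1) (.e (nat_lit 164182) (nat_lit 154) (.e (nat_lit 57358) (nat_lit 0) .nil)))))))) (.g (nat_lit 4) .nil .nil))) 
(.lf (nat_lit 84081) (.g (nat_lit 2912) (.e (nat_lit 1858) (nat_lit 124) (.e (nat_lit 557105) (nat_lit 14) (.e (nat_lit 180252) (nat_lit 10) (.e (nat_lit 573489) (nat_lit 14) (.e (nat_lit 73755) (nat_lit 8) (.e (nat_lit 557089) (nat_lit 12) (.e (nat_lit 163999) (nat_lit 38) (.e (nat_lit 639007) (nat_lit 13) (.e (nat_lit 1027) (nat_lit 81) .nil))))))))) (.g (nat_lit 4) .nil .nil))))) 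
(.nd (nat_lit 4) (.nd (nat_lit 5) 
(.lf (nat_lit 84041) (.g (nat_lit 2781) (.e (nat_lit 1858) (nat_lit 124) (.e (nat_lit 557105) (nat_lit 14) (.e (nat_lit 180252) (nat_lit 10) (.e (nat_lit 573489) (nat_lit 14) (.e (nat_lit 73747) (nat_lit 3) (.e (nat_lit 516119) (nat_lit 1) (.e (nat_lit 164180) (nat_lit 154) (.e (nat_lit 57358) (nat_lit 0) .nil)))))))) (.g (nat_lit 4) .nil .nil))) 
(.lf (nat_lit 84073) (.g (nat_lit 2893) (.e (nat_lit 1858) (nat_lit 124) (.e (nat_lit 557105) (nat_lit 14) (.e (nat_lit 180252) (nat_lit 10) (.e (nat_lit 573489) (nat_lit 14) (.e (nat_lit 73754) (nat_lit 8) (.e (nat_lit 557091) (nat_lit 12) (.e (nat_lit 163999) (nat_lit 38) (.e (nat_lit 639005) (nat_lit 13) (.e (nat_lit 1047) (nat_lit 81) .nil))))))))) (.g (nat_lit 5) .nil .nil)))) 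
(.nd (nat_lit 5) 
(.lf (nat_lit 84057) (.g (nat_lit 2674) (.e (nat_lit 1858) (nat_lit 124) (.e (nat_lit 557105) (nat_lit 14) (.e (nat_lit 180252) (nat_lit 10) (.e (nat_lit 573489) (nat_lit 14) (.e (nat_lit 73748) (nat_lit 3) (.e (nat_lit 516119) (nat_lit 1) (.e (nat_lit 164178) (nat_lit 154) (.e (nat_lit 57358) (nat_lit 0) .nil)))))))) (.g (nat_lit 4) .nil .nil))) 
(.lf (nat_lit 84089) (.g (nat_lit 3178) (.e (nat_lit 1858) (nat_lit 124) (.e (nat_lit 557105) (nat_lit 14) (.e (nat_lit 180252) (nat_lit 10) (.e (nat_lit 573489) (nat_lit 14) (.e (nat_lit 73755) (nat_lit 8) (.e (nat_lit 557090) (nat_lit 12) (.e (nat_lit 163840) (nat_lit 0) (.e (nat_lit 5200) (nat_lit 294) (.e (nat_lit 57355) (nat_lit 0) .nil))))))))) (.g (nat_lit 6) .nil .nil)))))) 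
(.nd (nat_lit 3) (.nd (nat_lit 4) (.nd (nat_lit 5) 
(.lf (nat_lit 84037) (.g (nat_lit 2809) (.e (nat_lit 1858) (nat_lit 124) (.e (nat_lit 557105) (nat_lit 14) (.e (nat_lit 180252) (nat_lit 10) (.e (nat_lit 573489) (nat_lit 14) (.e (nat_lit 73747) (nat_lit 3) (.e (nat_lit 516119) (nat_lit 1) (.e (nat_lit 164179) (nat_lit 154) (.e (nat_lit 57344) (nat_lit 0) .nil)))))))) (.g (nat_lit 4) .nil .nil))) 
(.lf (nat_lit 84069) (.g (nat_lit 3109) (.e (nat_lit 1858) (nat_lit 124) (.e (nat_lit 557105) (nat_lit 14) (.e (nat_lit 180252) (nat_lit 10) (.e (nat_lit 573489) (nat_lit 14) (.e (nat_lit 81664) (nat_lit 5) (.e (nat_lit 532499) (nat_lit 1) (.e (nat_lit 57684) (nat_lit 155) (.e (nat_lit 122880) (nat_lit 0) .nil)))))))) (.g (nat_lit 4) .nil .nil)))) (.nd (nat_lit 5) 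
(.lf (nat_lit 84053) (.g (nat_lit 2807) (.e (nat_lit 1858) (nat_lit 124) (.e (nat_lit 557105) (nat_lit 14) (.e (nat_lit 180252) (nat_lit 10) (.e (nat_lit 573489) (nat_lit 14) (.e (nat_lit 73748) (nat_lit 3) (.e (nat_lit 516119) (nat_lit 1) (.e (nat_lit 164176) (nat_lit 154) (.e (nat_lit 57344) (nat_lit 0) .nil)))))))) (.g (nat_lit 4) .nil .nil))) 
(.lf (nat_lit 84085) (.g (nat_lit 4814) (.e (nat_lit 1858) (nat_lit 124) (.e (nat_lit 557105) (nat_lit 14) (.e (nat_lit 180252) (nat_lit 10) (.e (nat_lit 573489) (nat_lit 14) (.e (nat_lit 73755) (nat_lit 8) (.e (nat_lit 557089) (nat_lit 12) (.e (nat_lit 164000) (nat_lit 38) (.e (nat_lit 639008) (nat_lit 13) (.e (nat_lit 1032) (nat_lit 81) .nil))))))))) (.g (nat_lit 7) .nil .nil))))) 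
(.nd (nat_lit 4) (.nd (nat_lit 5) 
(.lf (nat_lit 84045) (.g (nat_lit 3715) (.e (nat_lit 1858) (nat_lit 124) (.e (nat_lit 557105) (nat_lit 14) (.e (nat_lit 180252) (nat_lit 10) (.e (nat_lit 573489) (nat_lit 14) (.e (nat_lit 73748) (nat_lit 3) (.e (nat_lit 516115) (nat_lit 1) (.e (nat_lit 164179) (nat_lit 154) (.e (nat_lit 57356) (nat_lit 0) .nil)))))))) (.g (nat_lit 4) .nil .nil))) 
(.lf (nat_lit 84077) (.g (nat_lit 1555) (.e (nat_lit 1858) (nat_lit 124) (.e (nat_lit 557105) (nat_lit 14) (.e (nat_lit 180252) (nat_lit 10) (.e (nat_lit 573489) (nat_lit 14) (.e (nat_lit 73755) (nat_lit 8) .nil))))) .nil))) (.nd (nat_lit 5) 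
(.lf (nat_lit 84061) (.g (nat_lit 3923) (.e (nat_lit 1858) (nat_lit 124) (.e (nat_lit 557105) (nat_lit 14) (.e (nat_lit 180252) (nat_lit 10) (.e (nat_lit 573489) (nat_lit 14) (.e (nat_lit 73748) (nat_lit 3) (.e (nat_lit 516119) (nat_lit 1) (.e (nat_lit 164179) (nat_lit 154) (.e (nat_lit 57358) (nat_lit 0) .nil)))))))) (.g (nat_lit 5) .nil .nil))) 
(.lf (nat_lit 84093) (.g (nat_lit 2748) (.e (nat_lit 1858) (nat_lit 124) (.e (nat_lit 557105) (nat_lit 14) (.e (nat_lit 180252) (nat_lit 10) (.e (nat_lit 573489) (nat_lit 14) (.e (nat_lit 73755) (nat_lit 8) (.e (nat_lit 557090) (nat_lit 12) (.e (nat_lit 163840) (nat_lit 0) (.e (nat_lit 5978) (nat_lit 325) (.e (nat_lit 229481) (nat_lit 61) .nil))))))))) (.g (nat_lit 4) .nil .nil))))))) 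
(.nd (nat_lit 2) (.nd (nat_lit 3) (.nd (nat_lit 4) (.nd (nat_lit 5) 
(.lf (nat_lit 84035) (.g (nat_lit 3477) (.e (nat_lit 1858) (nat_lit 124) (.e (nat_lit 557105) (nat_lit 14) (.e (nat_lit 180252) (nat_lit 10) (.e (nat_lit 573489) (nat_lit 14) (.e (nat_lit 73747) (nat_lit 3) (.e (nat_lit 516119) (nat_lit 1) (.e (nat_lit 164178) (nat_lit 154) (.e (nat_lit 57355) (nat_lit 0) .nil)))))))) (.g (nat_lit 4) .nil .nil))) 
(.lf (nat_lit 84067) (.g (nat_lit 3216) (.e (nat_lit 1858) (nat_lit 124) (.e (nat_lit 557105) (nat_lit 14) (.e (nat_lit 180252) (nat_lit 10) (.e (nat_lit 573489) (nat_lit 14) (.e (nat_lit 81664) (nat_lit 5) (.e (nat_lit 532490) (nat_lit 0) (.e (nat_lit 2346) (nat_lit 151) (.e (nat_lit 778362) (nat_lit 9) (.e (nat_lit 71) (nat_lit 0) .nil))))))))) (.g (nat_lit 4) .nil .nil)))) (.nd (nat_lit 5) 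
(.lf (nat_lit 84051) (.g (nat_lit 2868) (.e (nat_lit 1858) (nat_lit 124) (.e (nat_lit 557105) (nat_lit 14) (.e (nat_lit 180252) (nat_lit 10) (.e (nat_lit 573489) (nat_lit 14) (.e (nat_lit 73748) (nat_lit 3) (.e (nat_lit 516115) (nat_lit 1) (.e (nat_lit 164183) (nat_lit 154) (.e (nat_lit 57356) (nat_lit 0) .nil)))))))) (.g (nat_lit 4) .nil .nil))) 
(.lf (nat_lit 84083) (.g (nat_lit 4778) (.e (nat_lit 1858) (nat_lit 124) (.e (nat_lit 557105) (nat_lit 14) (.e (nat_lit 180252) (nat_lit 10) (.e (nat_lit 573489) (nat_lit 14) (.e (nat_lit 73755) (nat_lit 8) (.e (nat_lit 557089) (nat_lit 12) (.e (nat_lit 164000) (nat_lit 38) (.e (nat_lit 639005) (nat_lit 13) (.e (nat_lit 1027) (nat_lit 81) .nil))))))))) (.g (nat_lit 7) .nil .nil))))) 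
(.nd (nat_lit 4) (.nd (nat_lit 5) 
(.lf (nat_lit 84043) (.g (nat_lit 3092) (.e (nat_lit 1858) (nat_lit 124) (.e (nat_lit 557105) (nat_lit 14) (.e (nat_lit 180252) (nat_lit 10) (.e (nat_lit 573489) (nat_lit 14) (.e (nat_lit 73748) (nat_lit 3) (.e (nat_lit 516115) (nat_lit 1) (.e (nat_lit 164178) (nat_lit 154) (.e (nat_lit 57355) (nat_lit 0) .nil)))))))) (.g (nat_lit 4) .nil .nil))) 
(.lf (nat_lit 84075) (.g (nat_lit 2989) (.e (nat_lit 1858) (nat_lit 124) (.e (nat_lit 557105) (nat_lit 14) (.e (nat_lit 180252) (nat_lit 10) (.e (nat_lit 573489) (nat_lit 14) (.e (nat_lit 73754) (nat_lit 8) (.e (nat_lit 557091) (nat_lit 12) (.e (nat_lit 163999) (nat_lit 38) (.e (nat_lit 639007) (nat_lit 13) (.e (nat_lit 1032) (nat_lit 81) .nil))))))))) (.g (nat_lit 4) .nil .nil)))) 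
(.nd (nat_lit 5) 
(.lf (nat_lit 84059) (.g (nat_lit 4118) (.e (nat_lit 1858) (nat_lit 124) (.e (nat_lit 557105) (nat_lit 14) (.e (nat_lit 180252) (nat_lit 10) (.e (nat_lit 573489) (nat_lit 14) (.e (nat_lit 73748) (nat_lit 3) (.e (nat_lit 516119) (nat_lit 1) (.e (nat_lit 164179) (nat_lit 154) (.e (nat_lit 57355) (nat_lit 0) .nil)))))))) (.g (nat_lit 6) .nil .nil))) 
(.lf (nat_lit 84091) (.g (nat_lit 2873) (.e (nat_lit 1858) (nat_lit 124) (.e (nat_lit 557105) (nat_lit 14) (.e (nat_lit 180252) (nat_lit 10) (.e (nat_lit 573489) (nat_lit 14) (.e (nat_lit 73755) (nat_lit 8) (.e (nat_lit 557090) (nat_lit 12) (.e (nat_lit 163840) (nat_lit 0) (.e (nat_lit 5976) (nat_lit 325) (.e (nat_lit 229481) (nat_lit 61) .nil))))))))) (.g (nat_lit 4) .nil .nil)))))) 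
(.nd (nat_lit 3) (.nd (nat_lit 4) (.nd (nat_lit 5) 
(.lf (nat_lit 84039) (.g (nat_lit 3160) (.e (nat_lit 1858) (nat_lit 124) (.e (nat_lit 557105) (nat_lit 14) (.e (nat_lit 180252) (nat_lit 10) (.e (nat_lit 573489) (nat_lit 14) (.e (nat_lit 73747) (nat_lit 3) (.e (nat_lit 516119) (nat_lit 1) (.e (nat_lit 164179) (nat_lit 154) (.e (nat_lit 57358) (nat_lit 0) .nil)))))))) (.g (nat_lit 4) .nil .nil))) 
(.lf (nat_lit 84071) (.g (nat_lit 2950) (.e (nat_lit 1858) (nat_lit 124) (.e (nat_lit 557105) (nat_lit 14) (.e (nat_lit 180252) (nat_lit 10) (.e (nat_lit 573489) (nat_lit 14) (.e (nat_lit 73753) (nat_lit 8) (.e (nat_lit 557091) (nat_lit 12) (.e (nat_lit 163999) (nat_lit 38) (.e (nat_lit 639007) (nat_lit 13) (.e (nat_lit 1047) (nat_lit 81) .nil))))))))) (.g (nat_lit 4) .nil .nil)))) 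
(.nd (nat_lit 5) 
(.lf (nat_lit 84055) (.g (nat_lit 3234) (.e (nat_lit 1858) (nat_lit 124) (.e (nat_lit 557105) (nat_lit 14) (.e (nat_lit 180252) (nat_lit 10) (.e (nat_lit 573489) (nat_lit 14) (.e (nat_lit 73748) (nat_lit 3) (.e (nat_lit 516119) (nat_lit 1) (.e (nat_lit 164176) (nat_lit 154) (.e (nat_lit 57357) (nat_lit 0) .nil)))))))) (.g (nat_lit 4) .nil .nil))) 
(.lf (nat_lit 84087) (.g (nat_lit 3303) (.e (nat_lit 1858) (nat_lit 124) (.e (nat_lit 557105) (nat_lit 14) (.e (nat_lit 180252) (nat_lit 10) (.e (nat_lit 573489) (nat_lit 14) (.e (nat_lit 73755) (nat_lit 8) (.e (nat_lit 557090) (nat_lit 12) (.e (nat_lit 163840) (nat_lit 0) (.e (nat_lit 5198) (nat_lit 294) (.e (nat_lit 57357) (nat_lit 0) .nil))))))))) (.g (nat_lit 5) .nil .nil))))) 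
(.nd (nat_lit 4) (.nd (nat_lit 5) 
(.lf (nat_lit 84047) (.g (nat_lit 3393) (.e (nat_lit 1858) (nat_lit 124) (.e (nat_lit 557105) (nat_lit 14) (.e (nat_lit 180252) (nat_lit 10) (.e (nat_lit 573489) (nat_lit 14) (.e (nat_lit 73748) (nat_lit 3) (.e (nat_lit 516115) (nat_lit 1) (.e (nat_lit 164182) (nat_lit 154) (.e (nat_lit 57344) (nat_lit 0) .nil)))))))) (.g (nat_lit 4) .nil .nil))) 
(.lf (nat_lit 84079) (.g (nat_lit 2985) (.e (nat_lit 1858) (nat_lit 124) (.e (nat_lit 557105) (nat_lit 14) (.e (nat_lit 180252) (nat_lit 10) (.e (nat_lit 573489) (nat_lit 14) (.e (nat_lit 73755) (nat_lit 8) (.e (nat_lit 557089) (nat_lit 12) (.e (nat_lit 163846) (nat_lit 0) (.e (nat_lit 5197) (nat_lit 294) (.e (nat_lit 57355) (nat_lit 0) .nil))))))))) (.g (nat_lit 5) .nil .nil)))) (.nd (nat_lit 5) 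
(.lf (nat_lit 84063) (.g (nat_lit 2677) (.e (nat_lit 1858) (nat_lit 124) (.e (nat_lit 557105) (nat_lit 14) (.e (nat_lit 180252) (nat_lit 10) (.e (nat_lit 573489) (nat_lit 14) (.e (nat_lit 73748) (nat_lit 3) (.e (nat_lit 516119) (nat_lit 1) (.e (nat_lit 164180) (nat_lit 154) (.e (nat_lit 57358) (nat_lit 0) .nil)))))))) (.g (nat_lit 4) .nil .nil))) 
(.lf (nat_lit 84095) (.g (nat_lit 3199) (.e (nat_lit 1858) (nat_lit 124) (.e (nat_lit 557105) (nat_lit 14) (.e (nat_lit 180252) (nat_lit 10) (.e (nat_lit 573489) (nat_lit 14) (.e (nat_lit 73755) (nat_lit 8) (.e (nat_lit 557090) (nat_lit 12) (.e (nat_lit 163841) (nat_lit 0) (.e (nat_lit 5207) (nat_lit 295) (.e (nat_lit 122884) (nat_lit 0) .nil))))))))) (.g (nat_lit 5) .nil .nil)))))))))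

noncomputable def tv1138 : DT := (.nd (nat_lit 0) (.nd (nat_lit 1) (.nd (nat_lit 2) (.nd (nat_lit 3) (.nd (nat_lit 4) (.nd (nat_lit 5) 
(.lf (nat_lit 84096) (.g (nat_lit 3041) (.e (nat_lit 1858) (nat_lit 124) (.e (nat_lit 557105) (nat_lit 14) (.e (nat_lit 180252) (nat_lit 10) (.e (nat_lit 573489) (nat_lit 14) (.e (nat_lit 73755) (nat_lit 8) (.e (nat_lit 557090) (nat_lit 12) (.e (nat_lit 163841) (nat_lit 0) (.e (nat_lit 5975) (nat_lit 325) (.e (nat_lit 229481) (nat_lit 61) .nil))))))))) (.g (nat_lit 5) .nil .nil))) 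
(.lf (nat_lit 84128) (.g (nat_lit 4595) (.e (nat_lit 1858) (nat_lit 124) (.e (nat_lit 557105) (nat_lit 14) (.e (nat_lit 180252) (nat_lit 10) (.e (nat_lit 573489) (nat_lit 14) (.e (nat_lit 73755) (nat_lit 8) (.e (nat_lit 557090) (nat_lit 12) (.e (nat_lit 163996) (nat_lit 37) (.e (nat_lit 630814) (nat_lit 13) (.e (nat_lit 1040) (nat_lit 81) .nil))))))))) (.g (nat_lit 6) .nil .nil)))) 
(.nd (nat_lit 5) 
(.lf (nat_lit 84112) (.g (nat_lit 2762) (.e (nat_lit 1858) (nat_lit 124) (.e (nat_lit 557105) (nat_lit 14) (.e (nat_lit 180252) (nat_lit 10) (.e (nat_lit 573489) (nat_lit 14) (.e (nat_lit 73755) (nat_lit 8) (.e (nat_lit 557090) (nat_lit 12) (.e (nat_lit 163846) (nat_lit 0) (.e (nat_lit 5199) (nat_lit 294) (.e (nat_lit 57355) (nat_lit 0) .nil))))))))) (.g (nat_lit 5) .nil .nil))) 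
(.lf (nat_lit 84144) (.g (nat_lit 4425) (.e (nat_lit 1858) (nat_lit 124) (.e (nat_lit 557105) (nat_lit 14) (.e (nat_lit 180252) (nat_lit 10) (.e (nat_lit 573489) (nat_lit 14) (.e (nat_lit 73755) (nat_lit 8) (.e (nat_lit 557090) (nat_lit 12) (.e (nat_lit 164008) (nat_lit 41) (.e (nat_lit 663572) (nat_lit 9) (.e (nat_lit 70) (nat_lit 0) .nil))))))))) (.g (nat_lit 6) .nil .nil))))) 
(.nd (nat_lit 4) (.nd (nat_lit 5) 
(.lf (nat_lit 84104) (.g (nat_lit 5083) (.e (nat_lit 1858) (nat_lit 124) (.e (nat_lit 557105) (nat_lit 14) (.e (nat_lit 180252) (nat_lit 10) (.e (nat_lit 573489) (nat_lit 14) (.e (nat_lit 73755) (nat_lit 8) (.e (nat_lit 557090) (nat_lit 12) (.e (nat_lit 163843) (nat_lit 0) (.e (nat_lit 5978) (nat_lit 325) (.e (nat_lit 229481) (nat_lit 61) .nil))))))))) (.g (nat_lit 7) .nil .nil))) 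
(.lf (nat_lit 84136) (.g (nat_lit 3620) (.e (nat_lit 1858) (nat_lit 124) (.e (nat_lit 557105) (nat_lit 14) (.e (nat_lit 180252) (nat_lit 10) (.e (nat_lit 573489) (nat_lit 14) (.e (nat_lit 73755) (nat_lit 8) (.e (nat_lit 557090) (nat_lit 12) (.e (nat_lit 164000) (nat_lit 38) (.e (nat_lit 639007) (nat_lit 13) (.e (nat_lit 1032) (nat_lit 81) .nil))))))))) (.g (nat_lit 6) .nil .nil)))) 
(.nd (nat_lit 5) 
(.lf (nat_lit 84120) (.g (nat_lit 3486) (.e (nat_lit 1858) (nat_lit 124) (.e (nat_lit 557105) (nat_lit 14) (.e (nat_lit 180252) (nat_lit 10) (.e (nat_lit 573489) (nat_lit 14) (.e (nat_lit 73755) (nat_lit 8) (.e (nat_lit 557090) (nat_lit 12) (.e (nat_lit 163851) (nat_lit 0) (.e (nat_lit 5977) (nat_lit 325) (.e (nat_lit 229481) (nat_lit 61) .nil))))))))) (.g (nat_lit 6) .nil .nil))) 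
(.lf (nat_lit 84152) (.g (nat_lit 3725) (.e (nat_lit 1858) (nat_lit 124) (.e (nat_lit 557105) (nat_lit 14) (.e (nat_lit 180252) (nat_lit 10) (.e (nat_lit 573489) (nat_lit 14) (.e (nat_lit 73755) (nat_lit 8) (.e (nat_lit 557091) (nat_lit 12) (.e (nat_lit 163999) (nat_lit 38) (.e (nat_lit 639007) (nat_lit 13) (.e (nat_lit 1032) (nat_lit 81) .nil))))))))) (.g (nat_lit 5) .nil .nil)))))) 
(.nd (nat_lit 3) (.nd (nat_lit 4) (.nd (nat_lit 5) 
(.lf (nat_lit 84100) (.g (nat_lit 5103) (.e (nat_lit 1858) (nat_lit 124) (.e (nat_lit 557105) (nat_lit 14) (.e (nat_lit 180252) (nat_lit 10) (.e (nat_lit 573489) (nat_lit 14) (.e (nat_lit 73755) (nat_lit 8) (.e (nat_lit 557090) (nat_lit 12) (.e (nat_lit 163843) (nat_lit 0) (.e (nat_lit 5207) (nat_lit 295) (.e (nat_lit 122880) (nat_lit 0) .nil))))))))) (.g (nat_lit 7) .nil .nil))) 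
(.lf (nat_lit 84132) (.g (nat_lit 4171) (.e (nat_lit 1858) (nat_lit 124) (.e (nat_lit 557105) (nat_lit 14) (.e (nat_lit 180252) (nat_lit 10) (.e (nat_lit 573489) (nat_lit 14) (.e (nat_lit 73755) (nat_lit 8) (.e (nat_lit 557090) (nat_lit 12) (.e (nat_lit 163999) (nat_lit 38) (.e (nat_lit 639007) (nat_lit 13) (.e (nat_lit 1048) (nat_lit 81) .nil))))))))) (.g (nat_lit 6) .nil .nil)))) 
(.nd (nat_lit 5) 
(.lf (nat_lit 84116) (.g (nat_lit 2784) (.e (nat_lit 1858) (nat_lit 124) (.e (nat_lit 557105) (nat_lit 14) (.e (nat_lit 180252) (nat_lit 10) (.e (nat_lit 573489) (nat_lit 14) (.e (nat_lit 73755) (nat_lit 8) (.e (nat_lit 557090) (nat_lit 12) (.e (nat_lit 163849) (nat_lit 0) (.e (nat_lit 7936) (nat_lit 325) (.e (nat_lit 229481) (nat_lit 61) .nil))))))))) (.g (nat_lit 4) .nil .nil))) 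
(.lf (nat_lit 84148) (.g (nat_lit 4611) (.e (nat_lit 1858) (nat_lit 124) (.e (nat_lit 557105) (nat_lit 14) (.e (nat_lit 180252) (nat_lit 10) (.e (nat_lit 573489) (nat_lit 14) (.e (nat_lit 73755) (nat_lit 8) (.e (nat_lit 557090) (nat_lit 12) (.e (nat_lit 164010) (nat_lit 41) (.e (nat_lit 663573) (nat_lit 9) (.e (nat_lit 70) (nat_lit 0) .nil))))))))) (.g (nat_lit 6) .nil .nil))))) 
(.nd (nat_lit 4) (.nd (nat_lit 5) 
(.lf (nat_lit 84108) (.g (nat_lit 3221) (.e (nat_lit 1858) (nat_lit 124) (.e (nat_lit 557105) (nat_lit 14) (.e (nat_lit 180252) (nat_lit 10) (.e (nat_lit 573489) (nat_lit 14) (.e (nat_lit 73755) (nat_lit 8) (.e (nat_lit 557090) (nat_lit 12) (.e (nat_lit 163845) (nat_lit 0) (.e (nat_lit 5976) (nat_lit 325) (.e (nat_lit 229481) (nat_lit 61) .nil))))))))) (.g (nat_lit 5) .nil .nil))) 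
(.lf (nat_lit 84140) (.g (nat_lit 4568) (.e (nat_lit 1858) (nat_lit 124) (.e (nat_lit 557105) (nat_lit 14) (.e (nat_lit 180252) (nat_lit 10) (.e (nat_lit 573489) (nat_lit 14) (.e (nat_lit 73755) (nat_lit 8) (.e (nat_lit 557090) (nat_lit 12) (.e (nat_lit 164000) (nat_lit 38) (.e (nat_lit 639008) (nat_lit 13) (.e (nat_lit 1027) (nat_lit 81) .nil))))))))) (.g (nat_lit 6) .nil .nil)))) 
(.nd (nat_lit 5) 
(.lf (nat_lit 84124) (.g (nat_lit 2934) (.e (nat_lit 1858) (nat_lit 124) (.e (nat_lit 557105) (nat_lit 14) (.e (nat_lit 180252) (nat_lit 10) (.e (nat_lit 573489) (nat_lit 14) (.e (nat_lit 73755) (nat_lit 8) (.e (nat_lit 557090) (nat_lit 12) (.e (nat_lit 171776) (nat_lit 0) (.e (nat_lit 5194) (nat_lit 294) (.e (nat_lit 57355) (nat_lit 0) .nil))))))))) (.g (nat_lit 5) .nil .nil))) 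
(.lf (nat_lit 84156) (.g (nat_lit 3841) (.e (nat_lit 1858) (nat_lit 124) (.e (nat_lit 557105) (nat_lit 14) (.e (nat_lit 180252) (nat_lit 10) (.e (nat_lit 573489) (nat_lit 14) (.e (nat_lit 73755) (nat_lit 8) (.e (nat_lit 557091) (nat_lit 12) (.e (nat_lit 164000) (nat_lit 38) (.e (nat_lit 639008) (nat_lit 13) (.e (nat_lit 1027) (nat_lit 81) .nil))))))))) (.g (nat_lit 5) .nil .nil))))))) 
(.nd (nat_lit 2) (.nd (nat_lit 3) (.nd (nat_lit 4) (.nd (nat_lit 5) 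
(.lf (nat_lit 84098) (.g (nat_lit 3556) (.e (nat_lit 1858) (nat_lit 124) (.e (nat_lit 557105) (nat_lit 14) (.e (nat_lit 180252) (nat_lit 10) (.e (nat_lit 573489) (nat_lit 14) (.e (nat_lit 73755) (nat_lit 8) (.e (nat_lit 557090) (nat_lit 12) (.e (nat_lit 163841) (nat_lit 0) (.e (nat_lit 5978) (nat_lit 325) (.e (nat_lit 229481) (nat_lit 61) .nil))))))))) (.g (nat_lit 6) .nil .nil))) 
(.lf (nat_lit 84130) (.g (nat_lit 4127) (.e (nat_lit 1858) (nat_lit 124) (.e (nat_lit 557105) (nat_lit 14) (.e (nat_lit 180252) (nat_lit 10) (.e (nat_lit 573489) (nat_lit 14) (.e (nat_lit 73755) (nat_lit 8) (.e (nat_lit 557090) (nat_lit 12) (.e (nat_lit 163999) (nat_lit 38) (.e (nat_lit 639007) (nat_lit 13) (.e (nat_lit 982) (nat_lit 81) .nil))))))))) (.g (nat_lit 6) .nil .nil)))) 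
(.nd (nat_lit 5) 
(.lf (nat_lit 84114) (.g (nat_lit 3961) (.e (nat_lit 1858) (nat_lit 124) (.e (nat_lit 557105) (nat_lit 14) (.e (nat_lit 180252) (nat_lit 10) (.e (nat_lit 573489) (nat_lit 14) (.e (nat_lit 73755) (nat_lit 8) (.e (nat_lit 557090) (nat_lit 12) (.e (nat_lit 163846) (nat_lit 0) (.e (nat_lit 5206) (nat_lit 294) (.e (nat_lit 57355) (nat_lit 0) .nil))))))))) (.g (nat_lit 6) .nil .nil))) 
(.lf (nat_lit 84146) (.g (nat_lit 4059) (.e (nat_lit 1858) (nat_lit 124) (.e (nat_lit 557105) (nat_lit 14) (.e (nat_lit 180252) (nat_lit 10) (.e (nat_lit 573489) (nat_lit 14) (.e (nat_lit 73755) (nat_lit 8) (.e (nat_lit 557090) (nat_lit 12) (.e (nat_lit 164009) (nat_lit 41) (.e (nat_lit 663572) (nat_lit 9) (.e (nat_lit 70) (nat_lit 0) .nil))))))))) (.g (nat_lit 6) .nil .nil))))) 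
(.nd (nat_lit 4) (.nd (nat_lit 5) 
(.lf (nat_lit 84106) (.g (nat_lit 4412) (.e (nat_lit 1858) (nat_lit 124) (.e (nat_lit 557105) (nat_lit 14) (.e (nat_lit 180252) (nat_lit 10) (.e (nat_lit 573489) (nat_lit 14) (.e (nat_lit 73755) (nat_lit 8) (.e (nat_lit 557090) (nat_lit 12) (.e (nat_lit 163844) (nat_lit 0) (.e (nat_lit 5207) (nat_lit 295) (.e (nat_lit 122884) (nat_lit 0) .nil))))))))) (.g (nat_lit 8) .nil .nil))) 
(.lf (nat_lit 84138) (.g (nat_lit 3441) (.e (nat_lit 1858) (nat_lit 124) (.e (nat_lit 557105) (nat_lit 14) (.e (nat_lit 180252) (nat_lit 10) (.e (nat_lit 573489) (nat_lit 14) (.e (nat_lit 73755) (nat_lit 8) (.e (nat_lit 557090) (nat_lit 12) (.e (nat_lit 164000) (nat_lit 38) (.e (nat_lit 639007) (nat_lit 13) (.e (nat_lit 1048) (nat_lit 81) .nil))))))))) (.g (nat_lit 5) .nil .nil)))) 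
(.nd (nat_lit 5) 
(.lf (nat_lit 84122) (.g (nat_lit 2909) (.e (nat_lit 1858) (nat_lit 124) (.e (nat_lit 557105) (nat_lit 14) (.e (nat_lit 180252) (nat_lit 10) (.e (nat_lit 573489) (nat_lit 14) (.e (nat_lit 73755) (nat_lit 8) (.e (nat_lit 557090) (nat_lit 12) (.e (nat_lit 171776) (nat_lit 0) (.e (nat_lit 5191) (nat_lit 294) (.e (nat_lit 57355) (nat_lit 0) .nil))))))))) (.g (nat_lit 5) .nil .nil))) 
(.lf (nat_lit 84154) (.g (nat_lit 3546) (.e (nat_lit 1858) (nat_lit 124) (.e (nat_lit 557105) (nat_lit 14) (.e (nat_lit 180252) (nat_lit 10) (.e (nat_lit 573489) (nat_lit 14) (.e (nat_lit 73755) (nat_lit 8) (.e (nat_lit 557091) (nat_lit 12) (.e (nat_lit 163999) (nat_lit 38) (.e (nat_lit 639007) (nat_lit 13) (.e (nat_lit 1048) (nat_lit 81) .nil))))))))) (.g (nat_lit 5) .nil .nil)))))) 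
(.nd (nat_lit 3) (.nd (nat_lit 4) (.nd (nat_lit 5) 
(.lf (nat_lit 84102) (.g (nat_lit 4794) (.e (nat_lit 1858) (nat_lit 124) (.e (nat_lit 557105) (nat_lit 14) (.e (nat_lit 180252) (nat_lit 10) (.e (nat_lit 573489) (nat_lit 14) (.e (nat_lit 73755) (nat_lit 8) (.e (nat_lit 557090) (nat_lit 12) (.e (nat_lit 163843) (nat_lit 0) (.e (nat_lit 5975) (nat_lit 325) (.e (nat_lit 229481) (nat_lit 61) .nil))))))))) (.g (nat_lit 7) .nil .nil))) 
(.lf (nat_lit 84134) (.g (nat_lit 3442) (.e (nat_lit 1858) (nat_lit 124) (.e (nat_lit 557105) (nat_lit 14) (.e (nat_lit 180252) (nat_lit 10) (.e (nat_lit 573489) (nat_lit 14) (.e (nat_lit 73755) (nat_lit 8) (.e (nat_lit 557090) (nat_lit 12) (.e (nat_lit 164000) (nat_lit 38) (.e (nat_lit 639006) (nat_lit 13) (.e (nat_lit 1047) (nat_lit 81) .nil))))))))) (.g (nat_lit 6) .nil .nil)))) 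
(.nd (nat_lit 5) 
(.lf (nat_lit 84118) (.g (nat_lit 3273) (.e (nat_lit 1858) (nat_lit 124) (.e (nat_lit 557105) (nat_lit 14) (.e (nat_lit 180252) (nat_lit 10) (.e (nat_lit 573489) (nat_lit 14) (.e (nat_lit 73755) (nat_lit 8) (.e (nat_lit 557090) (nat_lit 12) (.e (nat_lit 163850) (nat_lit 0) (.e (nat_lit 5212) (nat_lit 295) (.e (nat_lit 122880) (nat_lit 0) .nil))))))))) (.g (nat_lit 5) .nil .nil))) 
(.lf (nat_lit 84150) (.g (nat_lit 3502) (.e (nat_lit 1858) (nat_lit 124) (.e (nat_lit 557105) (nat_lit 14) (.e (nat_lit 180252) (nat_lit 10) (.e (nat_lit 573489) (nat_lit 14) (.e (nat_lit 73755) (nat_lit 8) (.e (nat_lit 557091) (nat_lit 12) (.e (nat_lit 163999) (nat_lit 38) (.e (nat_lit 639007) (nat_lit 13) (.e (nat_lit 982) (nat_lit 81) .nil))))))))) (.g (nat_lit 5) .nil .nil))))) 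
(.nd (nat_lit 4) (.nd (nat_lit 5) 
(.lf (nat_lit 84110) (.g (nat_lit 4258) (.e (nat_lit 1858) (nat_lit 124) (.e (nat_lit 557105) (nat_lit 14) (.e (nat_lit 180252) (nat_lit 10) (.e (nat_lit 573489) (nat_lit 14) (.e (nat_lit 73755) (nat_lit 8) (.e (nat_lit 557090) (nat_lit 12) (.e (nat_lit 163846) (nat_lit 0) (.e (nat_lit 5197) (nat_lit 294) (.e (nat_lit 57355) (nat_lit 0) .nil))))))))) (.g (nat_lit 6) .nil .nil))) 
(.lf (nat_lit 84142) (.g (nat_lit 3183) (.e (nat_lit 1858) (nat_lit 124) (.e (nat_lit 557105) (nat_lit 14) (.e (nat_lit 180252) (nat_lit 10) (.e (nat_lit 573489) (nat_lit 14) (.e (nat_lit 73755) (nat_lit 8) (.e (nat_lit 557090) (nat_lit 12) (.e (nat_lit 164006) (nat_lit 41) (.e (nat_lit 663574) (nat_lit 9) (.e (nat_lit 7936) (nat_lit 0) .nil))))))))) (.g (nat_lit 6) .nil .nil)))) (.nd (nat_lit 5) 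
(.lf (nat_lit 84126) (.g (nat_lit 2828) (.e (nat_lit 1858) (nat_lit 124) (.e (nat_lit 557105) (nat_lit 14) (.e (nat_lit 180252) (nat_lit 10) (.e (nat_lit 573489) (nat_lit 14) (.e (nat_lit 73755) (nat_lit 8) (.e (nat_lit 557090) (nat_lit 12) (.e (nat_lit 171776) (nat_lit 0) (.e (nat_lit 5199) (nat_lit 294) (.e (nat_lit 57357) (nat_lit 0) .nil))))))))) (.g (nat_lit 4) .nil .nil))) 
(.lf (nat_lit 84158) (.g (nat_lit 3886) (.e (nat_lit 1858) (nat_lit 124) (.e (nat_lit 557105) (nat_lit 14) (.e (nat_lit 180252) (nat_lit 10) (.e (nat_lit 573489) (nat_lit 14) (.e (nat_lit 73755) (nat_lit 8) (.e (nat_lit 557091) (nat_lit 12) (.e (nat_lit 164000) (nat_lit 38) (.e (nat_lit 639008) (nat_lit 13) (.e (nat_lit 1035) (nat_lit 81) .nil))))))))) (.g (nat_lit 5) .nil .nil)))))))) 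
(.nd (nat_lit 1) (.nd (nat_lit 2) (.nd (nat_lit 3) (.nd (nat_lit 4) (.nd (nat_lit 5) 
(.lf (nat_lit 84097) (.g (nat_lit 3387) (.e (nat_lit 1858) (nat_lit 124) (.e (nat_lit 557105) (nat_lit 14) (.e (nat_lit 180252) (nat_lit 10) (.e (nat_lit 573489) (nat_lit 14) (.e (nat_lit 73755) (nat_lit 8) (.e (nat_lit 557090) (nat_lit 12) (.e (nat_lit 163841) (nat_lit 0) (.e (nat_lit 5976) (nat_lit 325) (.e (nat_lit 229481) (nat_lit 61) .nil))))))))) (.g (nat_lit 6) .nil .nil))) 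
(.lf (nat_lit 84129) (.g (nat_lit 5373) (.e (nat_lit 1858) (nat_lit 124) (.e (nat_lit 557105) (nat_lit 14) (.e (nat_lit 180252) (nat_lit 10) (.e (nat_lit 573489) (nat_lit 14) (.e (nat_lit 73755) (nat_lit 8) (.e (nat_lit 557090) (nat_lit 12) (.e (nat_lit 163999) (nat_lit 38) (.e (nat_lit 639005) (nat_lit 13) (.e (nat_lit 1027) (nat_lit 81) .nil))))))))) (.g (nat_lit 7) .nil .nil)))) 
(.nd (nat_lit 5) 
(.lf (nat_lit 84113) (.g (nat_lit 3497) (.e (nat_lit 1858) (nat_lit 124) (.e (nat_lit 557105) (nat_lit 14) (.e (nat_lit 180252) (nat_lit 10) (.e (nat_lit 573489) (nat_lit 14) (.e (nat_lit 73755) (nat_lit 8) (.e (nat_lit 557090) (nat_lit 12) (.e (nat_lit 163846) (nat_lit 0) (.e (nat_lit 5200) (nat_lit 294) (.e (nat_lit 57355) (nat_lit 0) .nil))))))))) (.g (nat_lit 6) .nil .nil))) 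
(.lf (nat_lit 84145) (.g (nat_lit 4150) (.e (nat_lit 1858) (nat_lit 124) (.e (nat_lit 557105) (nat_lit 14) (.e (nat_lit 180252) (nat_lit 10) (.e (nat_lit 573489) (nat_lit 14) (.e (nat_lit 73755) (nat_lit 8) (.e (nat_lit 557090) (nat_lit 12) (.e (nat_lit 164008) (nat_lit 41) (.e (nat_lit 663572) (nat_lit 9) (.e (nat_lit 71) (nat_lit 0) .nil))))))))) (.g (nat_lit 6) .nil .nil))))) 
(.nd (nat_lit 4) (.nd (nat_lit 5) 
(.lf (nat_lit 84105) (.g (nat_lit 4291) (.e (nat_lit 1858) (nat_lit 124) (.e (nat_lit 557105) (nat_lit 14) (.e (nat_lit 180252) (nat_lit 10) (.e (nat_lit 573489) (nat_lit 14) (.e (nat_lit 73755) (nat_lit 8) (.e (nat_lit 557090) (nat_lit 12) (.e (nat_lit 163843) (nat_lit 0) (.e (nat_lit 7936) (nat_lit 325) (.e (nat_lit 229481) (nat_lit 61) .nil))))))))) (.g (nat_lit 7) .nil .nil))) 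
(.lf (nat_lit 84137) (.g (nat_lit 3874) (.e (nat_lit 1858) (nat_lit 124) (.e (nat_lit 557105) (nat_lit 14) (.e (nat_lit 180252) (nat_lit 10) (.e (nat_lit 573489) (nat_lit 14) (.e (nat_lit 73755) (nat_lit 8) (.e (nat_lit 557090) (nat_lit 12) (.e (nat_lit 164000) (nat_lit 38) (.e (nat_lit 639007) (nat_lit 13) (.e (nat_lit 1035) (nat_lit 81) .nil))))))))) (.g (nat_lit 6) .nil .nil)))) 
(.nd (nat_lit 5) 
(.lf (nat_lit 84121) (.g (nat_lit 2978) (.e (nat_lit 1858) (nat_lit 124) (.e (nat_lit 557105) (nat_lit 14) (.e (nat_lit 180252) (nat_lit 10) (.e (nat_lit 573489) (nat_lit 14) (.e (nat_lit 73755) (nat_lit 8) (.e (nat_lit 557090) (nat_lit 12) (.e (nat_lit 163852) (nat_lit 0) (.e (nat_lit 5975) (nat_lit 325) (.e (nat_lit 229481) (nat_lit 61) .nil))))))))) (.g (nat_lit 5) .nil .nil))) 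
(.lf (nat_lit 84153) (.g (nat_lit 3979) (.e (nat_lit 1858) (nat_lit 124) (.e (nat_lit 557105) (nat_lit 14) (.e (nat_lit 180252) (nat_lit 10) (.e (nat_lit 573489) (nat_lit 14) (.e (nat_lit 73755) (nat_lit 8) (.e (nat_lit 557091) (nat_lit 12) (.e (nat_lit 163999) (nat_lit 38) (.e (nat_lit 639007) (nat_lit 13) (.e (nat_lit 1035) (nat_lit 81) .nil))))))))) (.g (nat_lit 5) .nil .nil)))))) 
(.nd (nat_lit 3) (.nd (nat_lit 4) (.nd (nat_lit 5) 
(.lf (nat_lit 84101) (.g (nat_lit 4647) (.e (nat_lit 1858) (nat_lit 124) (.e (nat_lit 557105) (nat_lit 14) (.e (nat_lit 180252) (nat_lit 10) (.e (nat_lit 573489) (nat_lit 14) (.e (nat_lit 73755) (nat_lit 8) (.e (nat_lit 557090) (nat_lit 12) (.e (nat_lit 163843) (nat_lit 0) (.e (nat_lit 5207) (nat_lit 295) (.e (nat_lit 122884) (nat_lit 0) .nil))))))))) (.g (nat_lit 7) .nil .nil))) 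
(.lf (nat_lit 84133) (.g (nat_lit 3565) (.e (nat_lit 1858) (nat_lit 124) (.e (nat_lit 557105) (nat_lit 14) (.e (nat_lit 180252) (nat_lit 10) (.e (nat_lit 573489) (nat_lit 14) (.e (nat_lit 73755) (nat_lit 8) (.e (nat_lit 557090) (nat_lit 12) (.e (nat_lit 164000) (nat_lit 38) (.e (nat_lit 639006) (nat_lit 13) (.e (nat_lit 1032) (nat_lit 81) .nil))))))))) (.g (nat_lit 6) .nil .nil)))) 
(.nd (nat_lit 5) 
(.lf (nat_lit 84117) (.g (nat_lit 3172) (.e (nat_lit 1858) (nat_lit 124) (.e (nat_lit 557105) (nat_lit 14) (.e (nat_lit 180252) (nat_lit 10) (.e (nat_lit 573489) (nat_lit 14) (.e (nat_lit 73755) (nat_lit 8) (.e (nat_lit 557090) (nat_lit 12) (.e (nat_lit 163850) (nat_lit 0) (.e (nat_lit 5190) (nat_lit 294) (.e (nat_lit 57355) (nat_lit 0) .nil))))))))) (.g (nat_lit 6) .nil .nil))) 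
(.lf (nat_lit 84149) (.g (nat_lit 3719) (.e (nat_lit 1858) (nat_lit 124) (.e (nat_lit 557105) (nat_lit 14) (.e (nat_lit 180252) (nat_lit 10) (.e (nat_lit 573489) (nat_lit 14) (.e (nat_lit 73755) (nat_lit 8) (.e (nat_lit 557091) (nat_lit 12) (.e (nat_lit 163996) (nat_lit 37) (.e (nat_lit 630814) (nat_lit 13) (.e (nat_lit 1040) (nat_lit 81) .nil))))))))) (.g (nat_lit 5) .nil .nil))))) 
(.nd (nat_lit 4) (.nd (nat_lit 5) 
(.lf (nat_lit 84109) (.g (nat_lit 3230) (.e (nat_lit 1858) (nat_lit 124) (.e (nat_lit 557105) (nat_lit 14) (.e (nat_lit 180252) (nat_lit 10) (.e (nat_lit 573489) (nat_lit 14) (.e (nat_lit 73755) (nat_lit 8) (.e (nat_lit 557090) (nat_lit 12) (.e (nat_lit 163845) (nat_lit 0) (.e (nat_lit 5978) (nat_lit 325) (.e (nat_lit 229481) (nat_lit 61) .nil))))))))) (.g (nat_lit 5) .nil .nil))) 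
(.lf (nat_lit 84141) (.g (nat_lit 4412) (.e (nat_lit 1858) (nat_lit 124) (.e (nat_lit 557105) (nat_lit 14) (.e (nat_lit 180252) (nat_lit 10) (.e (nat_lit 573489) (nat_lit 14) (.e (nat_lit 73755) (nat_lit 8) (.e (nat_lit 557090) (nat_lit 12) (.e (nat_lit 164004) (nat_lit 41) (.e (nat_lit 663573) (nat_lit 9) (.e (nat_lit 70) (nat_lit 0) .nil))))))))) (.g (nat_lit 6) .nil .nil)))) (.nd (nat_lit 5) 
(.lf (nat_lit 84125) (.g (nat_lit 3478) (.e (nat_lit 1858) (nat_lit 124) (.e (nat_lit 557105) (nat_lit 14) (.e (nat_lit 180252) (nat_lit 10) (.e (nat_lit 573489) (nat_lit 14) (.e (nat_lit 73755) (nat_lit 8) (.e (nat_lit 557090) (nat_lit 12) (.e (nat_lit 171776) (nat_lit 0) (.e (nat_lit 5195) (nat_lit 294) (.e (nat_lit 57355) (nat_lit 0) .nil))))))))) (.g (nat_lit 6) .nil .nil))) 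
(.lf (nat_lit 84157) (.g (nat_lit 4756) (.e (nat_lit 1858) (nat_lit 124) (.e (nat_lit 557105) (nat_lit 14) (.e (nat_lit 180252) (nat_lit 10) (.e (nat_lit 573489) (nat_lit 14) (.e (nat_lit 73755) (nat_lit 8) (.e (nat_lit 557091) (nat_lit 12) (.e (nat_lit 164000) (nat_lit 38) (.e (nat_lit 639008) (nat_lit 13) (.e (nat_lit 1032) (nat_lit 81) .nil))))))))) (.g (nat_lit 6) .nil .nil))))))) 
(.nd (nat_lit 2) (.nd (nat_lit 3) (.nd (nat_lit 4) (.nd (nat_lit 5) 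
(.lf (nat_lit 84099) (.g (nat_lit 3528) (.e (nat_lit 1858) (nat_lit 124) (.e (nat_lit 557105) (nat_lit 14) (.e (nat_lit 180252) (nat_lit 10) (.e (nat_lit 573489) (nat_lit 14) (.e (nat_lit 73755) (nat_lit 8) (.e (nat_lit 557090) (nat_lit 12) (.e (nat_lit 163842) (nat_lit 0) (.e (nat_lit 5973) (nat_lit 325) (.e (nat_lit 229481) (nat_lit 61) .nil))))))))) (.g (nat_lit 6) .nil .nil))) 
(.lf (nat_lit 84131) (.g (nat_lit 4341) (.e (nat_lit 1858) (nat_lit 124) (.e (nat_lit 557105) (nat_lit 14) (.e (nat_lit 180252) (nat_lit 10) (.e (nat_lit 573489) (nat_lit 14) (.e (nat_lit 73755) (nat_lit 8) (.e (nat_lit 557090) (nat_lit 12) (.e (nat_lit 163999) (nat_lit 38) (.e (nat_lit 639007) (nat_lit 13) (.e (nat_lit 1027) (nat_lit 81) .nil))))))))) (.g (nat_lit 6) .nil .nil)))) 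
(.nd (nat_lit 5) 
(.lf (nat_lit 84115) (.g (nat_lit 2757) (.e (nat_lit 1858) (nat_lit 124) (.e (nat_lit 557105) (nat_lit 14) (.e (nat_lit 180252) (nat_lit 10) (.e (nat_lit 573489) (nat_lit 14) (.e (nat_lit 73755) (nat_lit 8) (.e (nat_lit 557090) (nat_lit 12) (.e (nat_lit 163846) (nat_lit 0) (.e (nat_lit 5206) (nat_lit 294) (.e (nat_lit 57357) (nat_lit 0) .nil))))))))) (.g (nat_lit 4) .nil .nil))) 
(.lf (nat_lit 84147) (.g (nat_lit 4218) (.e (nat_lit 1858) (nat_lit 124) (.e (nat_lit 557105) (nat_lit 14) (.e (nat_lit 180252) (nat_lit 10) (.e (nat_lit 573489) (nat_lit 14) (.e (nat_lit 73755) (nat_lit 8) (.e (nat_lit 557090) (nat_lit 12) (.e (nat_lit 164010) (nat_lit 41) (.e (nat_lit 663572) (nat_lit 9) (.e (nat_lit 70) (nat_lit 0) .nil))))))))) (.g (nat_lit 6) .nil .nil))))) 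
(.nd (nat_lit 4) (.nd (nat_lit 5) 
(.lf (nat_lit 84107) (.g (nat_lit 2723) (.e (nat_lit 1858) (nat_lit 124) (.e (nat_lit 557105) (nat_lit 14) (.e (nat_lit 180252) (nat_lit 10) (.e (nat_lit 573489) (nat_lit 14) (.e (nat_lit 73755) (nat_lit 8) (.e (nat_lit 557090) (nat_lit 12) (.e (nat_lit 163845) (nat_lit 0) (.e (nat_lit 5975) (nat_lit 325) (.e (nat_lit 229481) (nat_lit 61) .nil))))))))) (.g (nat_lit 4) .nil .nil))) 
(.lf (nat_lit 84139) (.g (nat_lit 3931) (.e (nat_lit 1858) (nat_lit 124) (.e (nat_lit 557105) (nat_lit 14) (.e (nat_lit 180252) (nat_lit 10) (.e (nat_lit 573489) (nat_lit 14) (.e (nat_lit 73755) (nat_lit 8) (.e (nat_lit 557090) (nat_lit 12) (.e (nat_lit 164000) (nat_lit 38) (.e (nat_lit 639008) (nat_lit 13) (.e (nat_lit 982) (nat_lit 81) .nil))))))))) (.g (nat_lit 6) .nil .nil)))) 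
(.nd (nat_lit 5) 
(.lf (nat_lit 84123) (.g (nat_lit 2952) (.e (nat_lit 1858) (nat_lit 124) (.e (nat_lit 557105) (nat_lit 14) (.e (nat_lit 180252) (nat_lit 10) (.e (nat_lit 573489) (nat_lit 14) (.e (nat_lit 73755) (nat_lit 8) (.e (nat_lit 557090) (nat_lit 12) (.e (nat_lit 171776) (nat_lit 0) (.e (nat_lit 5193) (nat_lit 294) (.e (nat_lit 57355) (nat_lit 0) .nil))))))))) (.g (nat_lit 5) .nil .nil))) 
(.lf (nat_lit 84155) (.g (nat_lit 4720) (.e (nat_lit 1858) (nat_lit 124) (.e (nat_lit 557105) (nat_lit 14) (.e (nat_lit 180252) (nat_lit 10) (.e (nat_lit 573489) (nat_lit 14) (.e (nat_lit 73755) (nat_lit 8) (.e (nat_lit 557091) (nat_lit 12) (.e (nat_lit 164000) (nat_lit 38) (.e (nat_lit 639005) (nat_lit 13) (.e (nat_lit 1027) (nat_lit 81) .nil))))))))) (.g (nat_lit 6) .nil .nil)))))) 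
(.nd (nat_lit 3) (.nd (nat_lit 4) (.nd (nat_lit 5) 
(.lf (nat_lit 84103) (.g (nat_lit 5056) (.e (nat_lit 1858) (nat_lit 124) (.e (nat_lit 557105) (nat_lit 14) (.e (nat_lit 180252) (nat_lit 10) (.e (nat_lit 573489) (nat_lit 14) (.e (nat_lit 73755) (nat_lit 8) (.e (nat_lit 557090) (nat_lit 12) (.e (nat_lit 163843) (nat_lit 0) (.e (nat_lit 5976) (nat_lit 325) (.e (nat_lit 229481) (nat_lit 61) .nil))))))))) (.g (nat_lit 7) .nil .nil))) 
(.lf (nat_lit 84135) (.g (nat_lit 3397) (.e (nat_lit 1858) (nat_lit 124) (.e (nat_lit 557105) (nat_lit 14) (.e (nat_lit 180252) (nat_lit 10) (.e (nat_lit 573489) (nat_lit 14) (.e (nat_lit 73755) (nat_lit 8) (.e (nat_lit 557090) (nat_lit 12) (.e (nat_lit 164000) (nat_lit 38) (.e (nat_lit 639007) (nat_lit 13) (.e (nat_lit 982) (nat_lit 81) .nil))))))))) (.g (nat_lit 5) .nil .nil)))) 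
(.nd (nat_lit 5) 
(.lf (nat_lit 84119) (.g (nat_lit 3077) (.e (nat_lit 1858) (nat_lit 124) (.e (nat_lit 557105) (nat_lit 14) (.e (nat_lit 180252) (nat_lit 10) (.e (nat_lit 573489) (nat_lit 14) (.e (nat_lit 73755) (nat_lit 8) (.e (nat_lit 557090) (nat_lit 12) (.e (nat_lit 163850) (nat_lit 0) (.e (nat_lit 5977) (nat_lit 325) (.e (nat_lit 229481) (nat_lit 61) .nil))))))))) (.g (nat_lit 5) .nil .nil))) 
(.lf (nat_lit 84151) (.g (nat_lit 3716) (.e (nat_lit 1858) (nat_lit 124) (.e (nat_lit 557105) (nat_lit 14) (.e (nat_lit 180252) (nat_lit 10) (.e (nat_lit 573489) (nat_lit 14) (.e (nat_lit 73755) (nat_lit 8) (.e (nat_lit 557091) (nat_lit 12) (.e (nat_lit 163999) (nat_lit 38) (.e (nat_lit 639007) (nat_lit 13) (.e (nat_lit 1027) (nat_lit 81) .nil))))))))) (.g (nat_lit 5) .nil .nil))))) 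
(.nd (nat_lit 4) (.nd (nat_lit 5) 
(.lf (nat_lit 84111) (.g (nat_lit 3053) (.e (nat_lit 1858) (nat_lit 124) (.e (nat_lit 557105) (nat_lit 14) (.e (nat_lit 180252) (nat_lit 10) (.e (nat_lit 573489) (nat_lit 14) (.e (nat_lit 73755) (nat_lit 8) (.e (nat_lit 557090) (nat_lit 12) (.e (nat_lit 163846) (nat_lit 0) (.e (nat_lit 5198) (nat_lit 294) (.e (nat_lit 57357) (nat_lit 0) .nil))))))))) (.g (nat_lit 5) .nil .nil))) 
(.lf (nat_lit 84143) (.g (nat_lit 2527) (.e (nat_lit 1858) (nat_lit 124) (.e (nat_lit 557105) (nat_lit 14) (.e (nat_lit 180252) (nat_lit 10) (.e (nat_lit 573489) (nat_lit 14) (.e (nat_lit 73755) (nat_lit 8) (.e (nat_lit 557090) (nat_lit 12) (.e (nat_lit 164007) (nat_lit 41) (.e (nat_lit 663574) (nat_lit 9) (.e (nat_lit 7936) (nat_lit 0) .nil))))))))) (.g (nat_lit 5) .nil .nil)))) (.nd (nat_lit 5) 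
(.lf (nat_lit 84127) (.g (nat_lit 2543) (.e (nat_lit 1858) (nat_lit 124) (.e (nat_lit 557105) (nat_lit 14) (.e (nat_lit 180252) (nat_lit 10) (.e (nat_lit 573489) (nat_lit 14) (.e (nat_lit 73755) (nat_lit 8) (.e (nat_lit 557090) (nat_lit 12) (.e (nat_lit 171776) (nat_lit 0) (.e (nat_lit 5200) (nat_lit 294) (.e (nat_lit 57355) (nat_lit 0) .nil))))))))) (.g (nat_lit 4) .nil .nil))) 
(.lf (nat_lit 84159) (.g (nat_lit 2978) (.e (nat_lit 1858) (nat_lit 124) (.e (nat_lit 557105) (nat_lit 14) (.e (nat_lit 180252) (nat_lit 10) (.e (nat_lit 573489) (nat_lit 14) (.e (nat_lit 73755) (nat_lit 8) (.e (nat_lit 557091) (nat_lit 12) (.e (nat_lit 164000) (nat_lit 38) (.e (nat_lit 639008) (nat_lit 13) (.e (nat_lit 1048) (nat_lit 81) .nil))))))))) (.g (nat_lit 4) .nil .nil)))))))))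

noncomputable def tv1139 : DT := (.nd (nat_lit 0) (.nd (nat_lit 1) (.nd (nat_lit 2) (.nd (nat_lit 3) (.nd (nat_lit 4) (.nd (nat_lit 5) 
(.lf (nat_lit 84160) (.g (nat_lit 2008) (.e (nat_lit 1858) (nat_lit 124) (.e (nat_lit 557105) (nat_lit 14) (.e (nat_lit 180261) (nat_lit 20) (.e (nat_lit 655364) (nat_lit 0) (.e (nat_lit 2964) (nat_lit 185) .nil))))) .nil)) 
(.lf (nat_lit 84192) (.g (nat_lit 1370) (.e (nat_lit 1858) (nat_lit 124) (.e (nat_lit 557109) (nat_lit 15) (.e (nat_lit 188435) (nat_lit 20) .nil))) .nil))) (.nd (nat_lit 5) 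
(.lf (nat_lit 84176) (.g (nat_lit 529) (.e (nat_lit 1858) (nat_lit 124) (.e (nat_lit 557107) (nat_lit 15) (.e (nat_lit 188450) (nat_lit 23) .nil))) .nil)) 
(.lf (nat_lit 84208) (.g (nat_lit 6407) (.e (nat_lit 1858) (nat_lit 124) (.e (nat_lit 557109) (nat_lit 15) (.e (nat_lit 188449) (nat_lit 22) (.e (nat_lit 196645) (nat_lit 9) .nil)))) .nil)))) (.nd (nat_lit 4) (.nd (nat_lit 5) 
(.lf (nat_lit 84168) (.g (nat_lit 2678) (.e (nat_lit 1858) (nat_lit 124) (.e (nat_lit 557106) (nat_lit 15) (.e (nat_lit 188452) (nat_lit 23) (.e (nat_lit 204884) (nat_lit 33) .nil)))) .nil)) 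
(.lf (nat_lit 84200) (.g (nat_lit 2814) (.e (nat_lit 1858) (nat_lit 124) (.e (nat_lit 557109) (nat_lit 15) (.e (nat_lit 188447) (nat_lit 22) (.e (nat_lit 196661) (nat_lit 12) .nil)))) .nil))) (.nd (nat_lit 5) 
(.lf (nat_lit 84184) (.g (nat_lit 5054) (.e (nat_lit 1858) (nat_lit 124) (.e (nat_lit 557108) (nat_lit 15) (.e (nat_lit 188452) (nat_lit 23) (.e (nat_lit 204816) (nat_lit 17) .nil)))) .nil)) 
(.lf (nat_lit 84216) (.g (nat_lit 6068) (.e (nat_lit 1858) (nat_lit 124) (.e (nat_lit 557109) (nat_lit 15) (.e (nat_lit 188449) (nat_lit 22) (.e (nat_lit 196677) (nat_lit 16) .nil)))) .nil))))) (.nd (nat_lit 3) (.nd (nat_lit 4) (.nd (nat_lit 5) 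
(.lf (nat_lit 84164) (.g (nat_lit 1251) (.e (nat_lit 1858) (nat_lit 124) (.e (nat_lit 557105) (nat_lit 14) (.e (nat_lit 188160) (nat_lit 35) (.e (nat_lit 57464) (nat_lit 23) (.e (nat_lit 516175) (nat_lit 14) (.e (nat_lit 474880) (nat_lit 0) .nil)))))) (.g (nat_lit 4) .nil .nil))) 
(.lf (nat_lit 84196) (.g (nat_lit 2311) (.e (nat_lit 1858) (nat_lit 124) (.e (nat_lit 557109) (nat_lit 15) (.e (nat_lit 188441) (nat_lit 20) (.e (nat_lit 3272) (nat_lit 199) .nil)))) .nil))) (.nd (nat_lit 5) 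
(.lf (nat_lit 84180) (.g (nat_lit 1577) (.e (nat_lit 1858) (nat_lit 124) (.e (nat_lit 557107) (nat_lit 15) (.e (nat_lit 188452) (nat_lit 23) (.e (nat_lit 204821) (nat_lit 17) .nil)))) .nil)) 
(.lf (nat_lit 84212) (.g (nat_lit 3956) (.e (nat_lit 1858) (nat_lit 124) (.e (nat_lit 557109) (nat_lit 15) (.e (nat_lit 188449) (nat_lit 22) (.e (nat_lit 196666) (nat_lit 13) (.e (nat_lit 65546) (nat_lit 0) (.e (nat_lit 2006) (nat_lit 138) (.e (nat_lit 671748) (nat_lit 0) (.e (nat_lit 1047) (nat_lit 81) .nil)))))))) (.g (nat_lit 4) .nil .nil))))) (.nd (nat_lit 4) (.nd (nat_lit 5) 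
(.lf (nat_lit 84172) (.g (nat_lit 605) (.e (nat_lit 1858) (nat_lit 124) (.e (nat_lit 557107) (nat_lit 15) (.e (nat_lit 188439) (nat_lit 20) .nil))) .nil)) 
(.lf (nat_lit 84204) (.g (nat_lit 3048) (.e (nat_lit 1858) (nat_lit 124) (.e (nat_lit 557109) (nat_lit 15) (.e (nat_lit 188449) (nat_lit 22) (.e (nat_lit 196628) (nat_lit 9) .nil)))) .nil))) (.nd (nat_lit 5) 
(.lf (nat_lit 84188) (.g (nat_lit 853) (.e (nat_lit 1858) (nat_lit 124) (.e (nat_lit 557109) (nat_lit 15) (.e (nat_lit 188434) (nat_lit 20) .nil))) .nil)) 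
(.lf (nat_lit 84220) (.g (nat_lit 2938) (.e (nat_lit 1858) (nat_lit 124) (.e (nat_lit 557109) (nat_lit 15) (.e (nat_lit 188450) (nat_lit 23) (.e (nat_lit 204821) (nat_lit 17) .nil)))) .nil)))))) (.nd (nat_lit 2) (.nd (nat_lit 3) (.nd (nat_lit 4) (.nd (nat_lit 5) 
(.lf (nat_lit 84162) (.g (nat_lit 1241) (.e (nat_lit 1858) (nat_lit 124) (.e (nat_lit 557105) (nat_lit 14) (.e (nat_lit 188160) (nat_lit 35) (.e (nat_lit 57464) (nat_lit 23) (.e (nat_lit 516162) (nat_lit 11) (.e (nat_lit 450304) (nat_lit 0) .nil)))))) (.g (nat_lit 4) .nil .nil))) 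
(.lf (nat_lit 84194) (.g (nat_lit 2013) (.e (nat_lit 1858) (nat_lit 124) (.e (nat_lit 557109) (nat_lit 15) (.e (nat_lit 188441) (nat_lit 20) (.e (nat_lit 3205) (nat_lit 194) .nil)))) .nil))) (.nd (nat_lit 5) 
(.lf (nat_lit 84178) (.g (nat_lit 3131) (.e (nat_lit 1858) (nat_lit 124) (.e (nat_lit 557107) (nat_lit 15) (.e (nat_lit 188450) (nat_lit 23) (.e (nat_lit 204845) (nat_lit 24) (.e (nat_lit 319539) (nat_lit 19) (.e (nat_lit 311348) (nat_lit 15) .nil)))))) (.g (nat_lit 4) .nil .nil))) 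
(.lf (nat_lit 84210) (.g (nat_lit 3119) (.e (nat_lit 1858) (nat_lit 124) (.e (nat_lit 557109) (nat_lit 15) (.e (nat_lit 188449) (nat_lit 22) (.e (nat_lit 196666) (nat_lit 13) .nil)))) .nil)))) (.nd (nat_lit 4) (.nd (nat_lit 5) 
(.lf (nat_lit 84170) (.g (nat_lit 2418) (.e (nat_lit 1858) (nat_lit 124) (.e (nat_lit 557106) (nat_lit 15) (.e (nat_lit 188452) (nat_lit 23) (.e (nat_lit 204885) (nat_lit 33) .nil)))) .nil)) 
(.lf (nat_lit 84202) (.g (nat_lit 2961) (.e (nat_lit 1858) (nat_lit 124) (.e (nat_lit 557109) (nat_lit 15) (.e (nat_lit 188447) (nat_lit 22) (.e (nat_lit 196666) (nat_lit 13) .nil)))) .nil))) (.nd (nat_lit 5) 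
(.lf (nat_lit 84186) (.g (nat_lit 2348) (.e (nat_lit 1858) (nat_lit 124) (.e (nat_lit 557109) (nat_lit 15) (.e (nat_lit 188419) (nat_lit 0) (.e (nat_lit 1856) (nat_lit 124) (.e (nat_lit 557107) (nat_lit 15) (.e (nat_lit 196352) (nat_lit 0) .nil)))))) (.g (nat_lit 4) .nil .nil))) 
(.lf (nat_lit 84218) (.g (nat_lit 1099) (.e (nat_lit 1858) (nat_lit 124) (.e (nat_lit 557109) (nat_lit 15) (.e (nat_lit 188450) (nat_lit 23) .nil))) .nil))))) (.nd (nat_lit 3) (.nd (nat_lit 4) (.nd (nat_lit 5) 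
(.lf (nat_lit 84166) (.g (nat_lit 2691) (.e (nat_lit 1858) (nat_lit 124) (.e (nat_lit 557106) (nat_lit 15) (.e (nat_lit 188452) (nat_lit 23) (.e (nat_lit 204816) (nat_lit 17) .nil)))) .nil)) 
(.lf (nat_lit 84198) (.g (nat_lit 3080) (.e (nat_lit 1858) (nat_lit 124) (.e (nat_lit 557109) (nat_lit 15) (.e (nat_lit 188447) (nat_lit 22) (.e (nat_lit 196628) (nat_lit 9) .nil)))) .nil))) (.nd (nat_lit 5) 
(.lf (nat_lit 84182) (.g (nat_lit 3450) (.e (nat_lit 1858) (nat_lit 124) (.e (nat_lit 557107) (nat_lit 15) (.e (nat_lit 188452) (nat_lit 23) (.e (nat_lit 204885) (nat_lit 33) (.e (nat_lit 401437) (nat_lit 9) .nil))))) .nil)) 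
(.lf (nat_lit 84214) (.g (nat_lit 5215) (.e (nat_lit 1858) (nat_lit 124) (.e (nat_lit 557109) (nat_lit 15) (.e (nat_lit 188449) (nat_lit 22) (.e (nat_lit 196668) (nat_lit 14) .nil)))) .nil)))) (.nd (nat_lit 4) (.nd (nat_lit 5) 
(.lf (nat_lit 84174) (.g (nat_lit 1370) (.e (nat_lit 1858) (nat_lit 124) (.e (nat_lit 557107) (nat_lit 15) (.e (nat_lit 188447) (nat_lit 22) (.e (nat_lit 196661) (nat_lit 12) .nil)))) .nil)) 
(.lf (nat_lit 84206) (.g (nat_lit 3997) (.e (nat_lit 1858) (nat_lit 124) (.e (nat_lit 557109) (nat_lit 15) (.e (nat_lit 188449) (nat_lit 22) (.e (nat_lit 196630) (nat_lit 9) (.e (nat_lit 1667) (nat_lit 116) .nil))))) .nil))) (.nd (nat_lit 5) 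
(.lf (nat_lit 84190) (.g (nat_lit 2411) (.e (nat_lit 1858) (nat_lit 124) (.e (nat_lit 557109) (nat_lit 15) (.e (nat_lit 188434) (nat_lit 20) (.e (nat_lit 3272) (nat_lit 199) .nil)))) .nil)) 
(.lf (nat_lit 84222) (.g (nat_lit 3074) (.e (nat_lit 1858) (nat_lit 124) (.e (nat_lit 557109) (nat_lit 15) (.e (nat_lit 188450) (nat_lit 23) (.e (nat_lit 204846) (nat_lit 24) .nil)))) .nil))))))) (.nd (nat_lit 1) (.nd (nat_lit 2) (.nd (nat_lit 3) (.nd (nat_lit 4) (.nd (nat_lit 5) 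
(.lf (nat_lit 84161) (.g (nat_lit 2930) (.e (nat_lit 1858) (nat_lit 124) (.e (nat_lit 557105) (nat_lit 14) (.e (nat_lit 188160) (nat_lit 35) (.e (nat_lit 57464) (nat_lit 23) (.e (nat_lit 516151) (nat_lit 9) (.e (nat_lit 426195) (nat_lit 9) (.e (nat_lit 426402) (nat_lit 15) .nil))))))) (.g (nat_lit 5) .nil .nil))) 
(.lf (nat_lit 84193) (.g (nat_lit 1075) (.e (nat_lit 1858) (nat_lit 124) (.e (nat_lit 557109) (nat_lit 15) (.e (nat_lit 188441) (nat_lit 20) .nil))) .nil))) (.nd (nat_lit 5) 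
(.lf (nat_lit 84177) (.g (nat_lit 1350) (.e (nat_lit 1858) (nat_lit 124) (.e (nat_lit 557107) (nat_lit 15) (.e (nat_lit 188450) (nat_lit 23) (.e (nat_lit 204821) (nat_lit 17) .nil)))) .nil)) 
(.lf (nat_lit 84209) (.g (nat_lit 2406) (.e (nat_lit 1858) (nat_lit 124) (.e (nat_lit 557109) (nat_lit 15) (.e (nat_lit 188449) (nat_lit 22) (.e (nat_lit 196661) (nat_lit 12) .nil)))) .nil)))) (.nd (nat_lit 4) (.nd (nat_lit 5) 
(.lf (nat_lit 84169) (.g (nat_lit 3338) (.e (nat_lit 1858) (nat_lit 124) (.e (nat_lit 557106) (nat_lit 15) (.e (nat_lit 188452) (nat_lit 23) (.e (nat_lit 204884) (nat_lit 33) (.e (nat_lit 401437) (nat_lit 9) .nil))))) .nil)) 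
(.lf (nat_lit 84201) (.g (nat_lit 3211) (.e (nat_lit 1858) (nat_lit 124) (.e (nat_lit 557109) (nat_lit 15) (.e (nat_lit 188447) (nat_lit 22) (.e (nat_lit 196661) (nat_lit 12) (.e (nat_lit 57714) (nat_lit 176) .nil))))) .nil))) (.nd (nat_lit 5) 
(.lf (nat_lit 84185) (.g (nat_lit 2202) (.e (nat_lit 1858) (nat_lit 124) (.e (nat_lit 557109) (nat_lit 15) (.e (nat_lit 188418) (nat_lit 0) (.e (nat_lit 1856) (nat_lit 124) .nil)))) .nil)) 
(.lf (nat_lit 84217) (.g (nat_lit 3905) (.e (nat_lit 1858) (nat_lit 124) (.e (nat_lit 557109) (nat_lit 15) (.e (nat_lit 188449) (nat_lit 22) (.e (nat_lit 204544) (nat_lit 18) .nil)))) .nil))))) (.nd (nat_lit 3) (.nd (nat_lit 4) (.nd (nat_lit 5) 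
(.lf (nat_lit 84165) (.g (nat_lit 1918) (.e (nat_lit 1858) (nat_lit 124) (.e (nat_lit 557105) (nat_lit 14) (.e (nat_lit 188160) (nat_lit 38) (.e (nat_lit 122936) (nat_lit 23) (.e (nat_lit 516176) (nat_lit 14) (.e (nat_lit 474880) (nat_lit 0) .nil)))))) (.g (nat_lit 5) .nil .nil))) 
(.lf (nat_lit 84197) (.g (nat_lit 972) (.e (nat_lit 1858) (nat_lit 124) (.e (nat_lit 557109) (nat_lit 15) (.e (nat_lit 188447) (nat_lit 22) .nil))) .nil))) (.nd (nat_lit 5) 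
(.lf (nat_lit 84181) (.g (nat_lit 3448) (.e (nat_lit 1858) (nat_lit 124) (.e (nat_lit 557107) (nat_lit 15) (.e (nat_lit 188452) (nat_lit 23) (.e (nat_lit 204884) (nat_lit 33) (.e (nat_lit 401437) (nat_lit 9) .nil))))) .nil)) 
(.lf (nat_lit 84213) (.g (nat_lit 3996) (.e (nat_lit 1858) (nat_lit 124) (.e (nat_lit 557109) (nat_lit 15) (.e (nat_lit 188449) (nat_lit 22) (.e (nat_lit 196666) (nat_lit 13) (.e (nat_lit 65553) (nat_lit 0) .nil))))) .nil)))) (.nd (nat_lit 4) (.nd (nat_lit 5) 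
(.lf (nat_lit 84173) (.g (nat_lit 1178) (.e (nat_lit 1858) (nat_lit 124) (.e (nat_lit 557107) (nat_lit 15) (.e (nat_lit 188441) (nat_lit 20) (.e (nat_lit 3272) (nat_lit 199) .nil)))) .nil)) 
(.lf (nat_lit 84205) (.g (nat_lit 3109) (.e (nat_lit 1858) (nat_lit 124) (.e (nat_lit 557109) (nat_lit 15) (.e (nat_lit 188449) (nat_lit 22) (.e (nat_lit 196630) (nat_lit 9) .nil)))) .nil))) (.nd (nat_lit 5) 
(.lf (nat_lit 84189) (.g (nat_lit 2430) (.e (nat_lit 1858) (nat_lit 124) (.e (nat_lit 557109) (nat_lit 15) (.e (nat_lit 188434) (nat_lit 20) (.e (nat_lit 3271) (nat_lit 199) .nil)))) .nil)) 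
(.lf (nat_lit 84221) (.g (nat_lit 3436) (.e (nat_lit 1858) (nat_lit 124) (.e (nat_lit 557109) (nat_lit 15) (.e (nat_lit 188450) (nat_lit 23) (.e (nat_lit 204821) (nat_lit 17) (.e (nat_lit 6136) (nat_lit 332) .nil))))) .nil)))))) (.nd (nat_lit 2) (.nd (nat_lit 3) (.nd (nat_lit 4) (.nd (nat_lit 5) 
(.lf (nat_lit 84163) (.g (nat_lit 1736) (.e (nat_lit 1858) (nat_lit 124) (.e (nat_lit 557105) (nat_lit 14) (.e (nat_lit 188160) (nat_lit 35) (.e (nat_lit 57464) (nat_lit 23) (.e (nat_lit 516163) (nat_lit 11) (.e (nat_lit 450304) (nat_lit 0) .nil)))))) (.g (nat_lit 5) .nil .nil))) 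
(.lf (nat_lit 84195) (.g (nat_lit 2305) (.e (nat_lit 1858) (nat_lit 124) (.e (nat_lit 557109) (nat_lit 15) (.e (nat_lit 188441) (nat_lit 20) (.e (nat_lit 3271) (nat_lit 199) .nil)))) .nil))) (.nd (nat_lit 5) 
(.lf (nat_lit 84179) (.g (nat_lit 2527) (.e (nat_lit 1858) (nat_lit 124) (.e (nat_lit 557107) (nat_lit 15) (.e (nat_lit 188452) (nat_lit 23) (.e (nat_lit 204816) (nat_lit 17) .nil)))) .nil)) 
(.lf (nat_lit 84211) (.g (nat_lit 3843) (.e (nat_lit 1858) (nat_lit 124) (.e (nat_lit 557109) (nat_lit 15) (.e (nat_lit 188449) (nat_lit 22) (.e (nat_lit 196666) (nat_lit 13) (.e (nat_lit 65546) (nat_lit 0) .nil))))) .nil)))) (.nd (nat_lit 4) (.nd (nat_lit 5) 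
(.lf (nat_lit 84171) (.g (nat_lit 3361) (.e (nat_lit 1858) (nat_lit 124) (.e (nat_lit 557106) (nat_lit 15) (.e (nat_lit 188452) (nat_lit 23) (.e (nat_lit 204885) (nat_lit 33) (.e (nat_lit 401444) (nat_lit 9) (.e (nat_lit 426401) (nat_lit 15) .nil)))))) (.g (nat_lit 4) .nil .nil))) 
(.lf (nat_lit 84203) (.g (nat_lit 465) (.e (nat_lit 1858) (nat_lit 124) (.e (nat_lit 557109) (nat_lit 15) (.e (nat_lit 188449) (nat_lit 22) .nil))) .nil))) (.nd (nat_lit 5) 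
(.lf (nat_lit 84187) (.g (nat_lit 1292) (.e (nat_lit 1858) (nat_lit 124) (.e (nat_lit 557109) (nat_lit 15) (.e (nat_lit 188433) (nat_lit 20) .nil))) .nil)) 
(.lf (nat_lit 84219) (.g (nat_lit 2780) (.e (nat_lit 1858) (nat_lit 124) (.e (nat_lit 557109) (nat_lit 15) (.e (nat_lit 188450) (nat_lit 23) (.e (nat_lit 204819) (nat_lit 17) .nil)))) .nil))))) (.nd (nat_lit 3) (.nd (nat_lit 4) (.nd (nat_lit 5) 
(.lf (nat_lit 84167) (.g (nat_lit 1536) (.e (nat_lit 1858) (nat_lit 124) (.e (nat_lit 557106) (nat_lit 15) (.e (nat_lit 188452) (nat_lit 23) (.e (nat_lit 204846) (nat_lit 24) .nil)))) .nil)) 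
(.lf (nat_lit 84199) (.g (nat_lit 2870) (.e (nat_lit 1858) (nat_lit 124) (.e (nat_lit 557109) (nat_lit 15) (.e (nat_lit 188447) (nat_lit 22) (.e (nat_lit 196630) (nat_lit 9) .nil)))) .nil))) (.nd (nat_lit 5) 
(.lf (nat_lit 84183) (.g (nat_lit 1192) (.e (nat_lit 1858) (nat_lit 124) (.e (nat_lit 557108) (nat_lit 15) (.e (nat_lit 188452) (nat_lit 23) .nil))) .nil)) 
(.lf (nat_lit 84215) (.g (nat_lit 4304) (.e (nat_lit 1858) (nat_lit 124) (.e (nat_lit 557109) (nat_lit 15) (.e (nat_lit 188449) (nat_lit 22) (.e (nat_lit 196670) (nat_lit 14) .nil)))) .nil)))) (.nd (nat_lit 4) (.nd (nat_lit 5) 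
(.lf (nat_lit 84175) (.g (nat_lit 1411) (.e (nat_lit 1858) (nat_lit 124) (.e (nat_lit 557107) (nat_lit 15) (.e (nat_lit 188447) (nat_lit 22) (.e (nat_lit 196666) (nat_lit 13) .nil)))) .nil)) 
(.lf (nat_lit 84207) (.g (nat_lit 3666) (.e (nat_lit 1858) (nat_lit 124) (.e (nat_lit 557109) (nat_lit 15) (.e (nat_lit 188449) (nat_lit 22) (.e (nat_lit 196630) (nat_lit 9) (.e (nat_lit 1669) (nat_lit 116) .nil))))) .nil))) (.nd (nat_lit 5) 
(.lf (nat_lit 84191) (.g (nat_lit 2869) (.e (nat_lit 1858) (nat_lit 124) (.e (nat_lit 557109) (nat_lit 15) (.e (nat_lit 188434) (nat_lit 20) (.e (nat_lit 3272) (nat_lit 199) (.e (nat_lit 548915) (nat_lit 20) .nil))))) .nil)) 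
(.lf (nat_lit 84223) (.g (nat_lit 3774) (.e (nat_lit 1858) (nat_lit 124) (.e (nat_lit 557109) (nat_lit 15) (.e (nat_lit 188450) (nat_lit 23) (.e (nat_lit 204846) (nat_lit 24) (.e (nat_lit 319539) (nat_lit 19) .nil))))) .nil))))))))

noncomputable def tv1140 : DT := (.nd (nat_lit 0) (.nd (nat_lit 1) (.nd (nat_lit 2) (.nd (nat_lit 3) (.nd (nat_lit 4) (.nd (nat_lit 5) 
(.lf (nat_lit 84224) (.g (nat_lit 3032) (.e (nat_lit 1858) (nat_lit 124) (.e (nat_lit 557109) (nat_lit 15) (.e (nat_lit 188450) (nat_lit 23) (.e (nat_lit 204852) (nat_lit 26) .nil)))) .nil)) 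
(.lf (nat_lit 84256) (.g (nat_lit 3787) (.e (nat_lit 1858) (nat_lit 124) (.e (nat_lit 557109) (nat_lit 15) (.e (nat_lit 188452) (nat_lit 23) (.e (nat_lit 204853) (nat_lit 26) .nil)))) .nil))) (.nd (nat_lit 5) 
(.lf (nat_lit 84240) (.g (nat_lit 2872) (.e (nat_lit 1858) (nat_lit 124) (.e (nat_lit 557109) (nat_lit 15) (.e (nat_lit 188452) (nat_lit 23) (.e (nat_lit 204845) (nat_lit 24) .nil)))) .nil)) 
(.lf (nat_lit 84272) (.g (nat_lit 3582) (.e (nat_lit 1858) (nat_lit 124) (.e (nat_lit 557109) (nat_lit 15) (.e (nat_lit 188452) (nat_lit 23) (.e (nat_lit 204885) (nat_lit 33) (.e (nat_lit 401434) (nat_lit 9) (.e (nat_lit 426399) (nat_lit 15) .nil)))))) (.g (nat_lit 5) .nil .nil))))) (.nd (nat_lit 4) (.nd (nat_lit 5) 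
(.lf (nat_lit 84232) (.g (nat_lit 1953) (.e (nat_lit 1858) (nat_lit 124) (.e (nat_lit 557109) (nat_lit 15) (.e (nat_lit 188452) (nat_lit 23) (.e (nat_lit 204816) (nat_lit 17) .nil)))) .nil)) 
(.lf (nat_lit 84264) (.g (nat_lit 2958) (.e (nat_lit 1858) (nat_lit 124) (.e (nat_lit 557109) (nat_lit 15) (.e (nat_lit 188452) (nat_lit 23) (.e (nat_lit 204883) (nat_lit 33) .nil)))) .nil))) (.nd (nat_lit 5) 
(.lf (nat_lit 84248) (.g (nat_lit 3053) (.e (nat_lit 1858) (nat_lit 124) (.e (nat_lit 557109) (nat_lit 15) (.e (nat_lit 188452) (nat_lit 23) (.e (nat_lit 204849) (nat_lit 25) (.e (nat_lit 327705) (nat_lit 10) .nil))))) .nil)) 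
(.lf (nat_lit 84280) (.g (nat_lit 3021) (.e (nat_lit 1858) (nat_lit 124) (.e (nat_lit 557109) (nat_lit 15) (.e (nat_lit 188452) (nat_lit 23) (.e (nat_lit 204885) (nat_lit 33) (.e (nat_lit 401444) (nat_lit 9) (.e (nat_lit 433920) (nat_lit 15) .nil)))))) (.g (nat_lit 4) .nil .nil)))))) (.nd (nat_lit 3) (.nd (nat_lit 4) (.nd (nat_lit 5) 
(.lf (nat_lit 84228) (.g (nat_lit 3045) (.e (nat_lit 1858) (nat_lit 124) (.e (nat_lit 557109) (nat_lit 15) (.e (nat_lit 188450) (nat_lit 23) (.e (nat_lit 204882) (nat_lit 32) .nil)))) .nil)) 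
(.lf (nat_lit 84260) (.g (nat_lit 3662) (.e (nat_lit 1858) (nat_lit 124) (.e (nat_lit 557109) (nat_lit 15) (.e (nat_lit 188452) (nat_lit 23) (.e (nat_lit 204880) (nat_lit 32) .nil)))) .nil))) (.nd (nat_lit 5) 
(.lf (nat_lit 84244) (.g (nat_lit 4545) (.e (nat_lit 1858) (nat_lit 124) (.e (nat_lit 557109) (nat_lit 15) (.e (nat_lit 188452) (nat_lit 23) (.e (nat_lit 204846) (nat_lit 24) (.e (nat_lit 319506) (nat_lit 10) (.e (nat_lit 5722) (nat_lit 312) (.e (nat_lit 60) (nat_lit 0) .nil))))))) (.g (nat_lit 4) .nil .nil))) 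
(.lf (nat_lit 84276) (.g (nat_lit 3664) (.e (nat_lit 1858) (nat_lit 124) (.e (nat_lit 557109) (nat_lit 15) (.e (nat_lit 188452) (nat_lit 23) (.e (nat_lit 204885) (nat_lit 33) (.e (nat_lit 401436) (nat_lit 9) (.e (nat_lit 426402) (nat_lit 15) .nil)))))) (.g (nat_lit 5) .nil .nil))))) (.nd (nat_lit 4) (.nd (nat_lit 5) 
(.lf (nat_lit 84236) (.g (nat_lit 3892) (.e (nat_lit 1858) (nat_lit 124) (.e (nat_lit 557109) (nat_lit 15) (.e (nat_lit 188452) (nat_lit 23) (.e (nat_lit 204817) (nat_lit 17) .nil)))) .nil)) 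
(.lf (nat_lit 84268) (.g (nat_lit 4716) (.e (nat_lit 1858) (nat_lit 124) (.e (nat_lit 557109) (nat_lit 15) (.e (nat_lit 188452) (nat_lit 23) (.e (nat_lit 204884) (nat_lit 33) (.e (nat_lit 401437) (nat_lit 9) (.e (nat_lit 426402) (nat_lit 15) .nil)))))) (.g (nat_lit 6) .nil .nil)))) (.nd (nat_lit 5) 
(.lf (nat_lit 84252) (.g (nat_lit 3820) (.e (nat_lit 1858) (nat_lit 124) (.e (nat_lit 557109) (nat_lit 15) (.e (nat_lit 188452) (nat_lit 23) (.e (nat_lit 204851) (nat_lit 26) .nil)))) .nil)) 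
(.lf (nat_lit 84284) (.g (nat_lit 1313) (.e (nat_lit 1858) (nat_lit 124) (.e (nat_lit 557109) (nat_lit 15) (.e (nat_lit 188458) (nat_lit 25) (.e (nat_lit 245789) (nat_lit 12) .nil)))) .nil)))))) (.nd (nat_lit 2) (.nd (nat_lit 3) (.nd (nat_lit 4) (.nd (nat_lit 5) 
(.lf (nat_lit 84226) (.g (nat_lit 2926) (.e (nat_lit 1858) (nat_lit 124) (.e (nat_lit 557109) (nat_lit 15) (.e (nat_lit 188450) (nat_lit 23) (.e (nat_lit 204862) (nat_lit 27) .nil)))) .nil)) 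
(.lf (nat_lit 84258) (.g (nat_lit 3274) (.e (nat_lit 1858) (nat_lit 124) (.e (nat_lit 557109) (nat_lit 15) (.e (nat_lit 188452) (nat_lit 23) (.e (nat_lit 204862) (nat_lit 27) (.e (nat_lit 344169) (nat_lit 40) .nil))))) .nil))) (.nd (nat_lit 5) 
(.lf (nat_lit 84242) (.g (nat_lit 3138) (.e (nat_lit 1858) (nat_lit 124) (.e (nat_lit 557109) (nat_lit 15) (.e (nat_lit 188452) (nat_lit 23) (.e (nat_lit 204846) (nat_lit 24) .nil)))) .nil)) 
(.lf (nat_lit 84274) (.g (nat_lit 3920) (.e (nat_lit 1858) (nat_lit 124) (.e (nat_lit 557109) (nat_lit 15) (.e (nat_lit 188452) (nat_lit 23) (.e (nat_lit 204885) (nat_lit 33) (.e (nat_lit 401435) (nat_lit 9) (.e (nat_lit 426364) (nat_lit 15) .nil)))))) (.g (nat_lit 0) .nil .nil))))) (.nd (nat_lit 4) (.nd (nat_lit 5) 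
(.lf (nat_lit 84234) (.g (nat_lit 3756) (.e (nat_lit 1858) (nat_lit 124) (.e (nat_lit 557109) (nat_lit 15) (.e (nat_lit 188452) (nat_lit 23) (.e (nat_lit 204816) (nat_lit 17) (.e (nat_lit 6718) (nat_lit 361) (.e (nat_lit 179968) (nat_lit 15) .nil)))))) (.g (nat_lit 5) .nil .nil))) 
(.lf (nat_lit 84266) (.g (nat_lit 3781) (.e (nat_lit 1858) (nat_lit 124) (.e (nat_lit 557109) (nat_lit 15) (.e (nat_lit 188452) (nat_lit 23) (.e (nat_lit 204884) (nat_lit 33) (.e (nat_lit 401436) (nat_lit 9) (.e (nat_lit 426402) (nat_lit 15) .nil)))))) (.g (nat_lit 4) .nil .nil)))) (.nd (nat_lit 5) 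
(.lf (nat_lit 84250) (.g (nat_lit 3809) (.e (nat_lit 1858) (nat_lit 124) (.e (nat_lit 557109) (nat_lit 15) (.e (nat_lit 188452) (nat_lit 23) (.e (nat_lit 204849) (nat_lit 25) (.e (nat_lit 327705) (nat_lit 10) (.e (nat_lit 5721) (nat_lit 312) (.e (nat_lit 60) (nat_lit 0) .nil))))))) (.g (nat_lit 4) .nil .nil))) 
(.lf (nat_lit 84282) (.g (nat_lit 568) (.e (nat_lit 1858) (nat_lit 124) (.e (nat_lit 557109) (nat_lit 15) (.e (nat_lit 188458) (nat_lit 25) .nil))) .nil))))) (.nd (nat_lit 3) (.nd (nat_lit 4) (.nd (nat_lit 5) 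
(.lf (nat_lit 84230) (.g (nat_lit 3310) (.e (nat_lit 1858) (nat_lit 124) (.e (nat_lit 557109) (nat_lit 15) (.e (nat_lit 188452) (nat_lit 23) (.e (nat_lit 204814) (nat_lit 17) .nil)))) .nil)) 
(.lf (nat_lit 84262) (.g (nat_lit 3702) (.e (nat_lit 1858) (nat_lit 124) (.e (nat_lit 557109) (nat_lit 15) (.e (nat_lit 188452) (nat_lit 23) (.e (nat_lit 204881) (nat_lit 32) .nil)))) .nil))) (.nd (nat_lit 5) 
(.lf (nat_lit 84246) (.g (nat_lit 4086) (.e (nat_lit 1858) (nat_lit 124) (.e (nat_lit 557109) (nat_lit 15) (.e (nat_lit 188452) (nat_lit 23) (.e (nat_lit 204848) (nat_lit 25) .nil)))) .nil)) 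
(.lf (nat_lit 84278) (.g (nat_lit 4323) (.e (nat_lit 1858) (nat_lit 124) (.e (nat_lit 557109) (nat_lit 15) (.e (nat_lit 188452) (nat_lit 23) (.e (nat_lit 204885) (nat_lit 33) (.e (nat_lit 401437) (nat_lit 9) (.e (nat_lit 426402) (nat_lit 15) .nil)))))) (.g (nat_lit 6) .nil .nil))))) (.nd (nat_lit 4) (.nd (nat_lit 5) 
(.lf (nat_lit 84238) (.g (nat_lit 2773) (.e (nat_lit 1858) (nat_lit 124) (.e (nat_lit 557109) (nat_lit 15) (.e (nat_lit 188452) (nat_lit 23) (.e (nat_lit 204821) (nat_lit 17) .nil)))) .nil)) 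
(.lf (nat_lit 84270) (.g (nat_lit 3675) (.e (nat_lit 1858) (nat_lit 124) (.e (nat_lit 557109) (nat_lit 15) (.e (nat_lit 188452) (nat_lit 23) (.e (nat_lit 204885) (nat_lit 33) (.e (nat_lit 401434) (nat_lit 9) (.e (nat_lit 426363) (nat_lit 15) .nil)))))) (.g (nat_lit 5) .nil .nil)))) (.nd (nat_lit 5) 
(.lf (nat_lit 84254) (.g (nat_lit 4948) (.e (nat_lit 1858) (nat_lit 124) (.e (nat_lit 557109) (nat_lit 15) (.e (nat_lit 188452) (nat_lit 23) (.e (nat_lit 204852) (nat_lit 26) (.e (nat_lit 336260) (nat_lit 15) .nil))))) .nil)) 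
(.lf (nat_lit 84286) (.g (nat_lit 2565) (.e (nat_lit 1859) (nat_lit 124) (.e (nat_lit 557066) (nat_lit 9) (.e (nat_lit 232) (nat_lit 21) (.e (nat_lit 336060) (nat_lit 7) (.e (nat_lit 319505) (nat_lit 10) (.e (nat_lit 7936) (nat_lit 45) (.e (nat_lit 532547) (nat_lit 11) (.e (nat_lit 352299) (nat_lit 20) .nil)))))))) (.g (nat_lit 4) .nil .nil)))))))) 
(.nd (nat_lit 1) (.nd (nat_lit 2) (.nd (nat_lit 3) (.nd (nat_lit 4) (.nd (nat_lit 5) 
(.lf (nat_lit 84225) (.g (nat_lit 2991) (.e (nat_lit 1858) (nat_lit 124) (.e (nat_lit 557109) (nat_lit 15) (.e (nat_lit 188450) (nat_lit 23) (.e (nat_lit 204855) (nat_lit 26) .nil)))) .nil)) 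
(.lf (nat_lit 84257) (.g (nat_lit 2646) (.e (nat_lit 1858) (nat_lit 124) (.e (nat_lit 557109) (nat_lit 15) (.e (nat_lit 188452) (nat_lit 23) (.e (nat_lit 204855) (nat_lit 26) .nil)))) .nil))) (.nd (nat_lit 5) 
(.lf (nat_lit 84241) (.g (nat_lit 4780) (.e (nat_lit 1858) (nat_lit 124) (.e (nat_lit 557109) (nat_lit 15) (.e (nat_lit 188452) (nat_lit 23) (.e (nat_lit 204845) (nat_lit 24) (.e (nat_lit 319539) (nat_lit 19) (.e (nat_lit 311348) (nat_lit 15) .nil)))))) (.g (nat_lit 4) .nil .nil))) 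
(.lf (nat_lit 84273) (.g (nat_lit 3663) (.e (nat_lit 1858) (nat_lit 124) (.e (nat_lit 557109) (nat_lit 15) (.e (nat_lit 188452) (nat_lit 23) (.e (nat_lit 204885) (nat_lit 33) (.e (nat_lit 401434) (nat_lit 9) (.e (nat_lit 426402) (nat_lit 15) .nil)))))) (.g (nat_lit 5) .nil .nil))))) (.nd (nat_lit 4) (.nd (nat_lit 5) 
(.lf (nat_lit 84233) (.g (nat_lit 2668) (.e (nat_lit 1858) (nat_lit 124) (.e (nat_lit 557109) (nat_lit 15) (.e (nat_lit 188452) (nat_lit 23) (.e (nat_lit 204816) (nat_lit 17) (.e (nat_lit 6152) (nat_lit 332) .nil))))) .nil)) 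
(.lf (nat_lit 84265) (.g (nat_lit 2697) (.e (nat_lit 1858) (nat_lit 124) (.e (nat_lit 557109) (nat_lit 15) (.e (nat_lit 188452) (nat_lit 23) (.e (nat_lit 204884) (nat_lit 33) (.e (nat_lit 401435) (nat_lit 9) .nil))))) .nil))) (.nd (nat_lit 5) 
(.lf (nat_lit 84249) (.g (nat_lit 3808) (.e (nat_lit 1858) (nat_lit 124) (.e (nat_lit 557109) (nat_lit 15) (.e (nat_lit 188452) (nat_lit 23) (.e (nat_lit 204849) (nat_lit 25) (.e (nat_lit 327705) (nat_lit 10) (.e (nat_lit 5721) (nat_lit 312) (.e (nat_lit 59) (nat_lit 0) .nil))))))) (.g (nat_lit 4) .nil .nil))) 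
(.lf (nat_lit 84281) (.g (nat_lit 3927) (.e (nat_lit 1858) (nat_lit 124) (.e (nat_lit 557109) (nat_lit 15) (.e (nat_lit 188452) (nat_lit 23) (.e (nat_lit 212736) (nat_lit 33) .nil)))) .nil))))) (.nd (nat_lit 3) (.nd (nat_lit 4) (.nd (nat_lit 5) 
(.lf (nat_lit 84229) (.g (nat_lit 395) (.e (nat_lit 1858) (nat_lit 124) (.e (nat_lit 557109) (nat_lit 15) (.e (nat_lit 188452) (nat_lit 23) .nil))) .nil)) 
(.lf (nat_lit 84261) (.g (nat_lit 4768) (.e (nat_lit 1858) (nat_lit 124) (.e (nat_lit 557109) (nat_lit 15) (.e (nat_lit 188452) (nat_lit 23) (.e (nat_lit 204880) (nat_lit 32) (.e (nat_lit 385105) (nat_lit 50) .nil))))) .nil))) (.nd (nat_lit 5) 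
(.lf (nat_lit 84245) (.g (nat_lit 5911) (.e (nat_lit 1858) (nat_lit 124) (.e (nat_lit 557109) (nat_lit 15) (.e (nat_lit 188452) (nat_lit 23) (.e (nat_lit 204846) (nat_lit 24) (.e (nat_lit 319538) (nat_lit 19) (.e (nat_lit 311348) (nat_lit 15) .nil)))))) (.g (nat_lit 6) .nil .nil))) 
(.lf (nat_lit 84277) (.g (nat_lit 4685) (.e (nat_lit 1858) (nat_lit 124) (.e (nat_lit 557109) (nat_lit 15) (.e (nat_lit 188452) (nat_lit 23) (.e (nat_lit 204885) (nat_lit 33) (.e (nat_lit 401437) (nat_lit 9) (.e (nat_lit 426364) (nat_lit 15) .nil)))))) (.g (nat_lit 6) .nil .nil))))) (.nd (nat_lit 4) (.nd (nat_lit 5) 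
(.lf (nat_lit 84237) (.g (nat_lit 2829) (.e (nat_lit 1858) (nat_lit 124) (.e (nat_lit 557109) (nat_lit 15) (.e (nat_lit 188452) (nat_lit 23) (.e (nat_lit 204819) (nat_lit 17) .nil)))) .nil)) 
(.lf (nat_lit 84269) (.g (nat_lit 2949) (.e (nat_lit 1858) (nat_lit 124) (.e (nat_lit 557109) (nat_lit 15) (.e (nat_lit 188452) (nat_lit 23) (.e (nat_lit 204885) (nat_lit 33) (.e (nat_lit 401434) (nat_lit 9) (.e (nat_lit 426360) (nat_lit 15) .nil)))))) (.g (nat_lit 4) .nil .nil)))) (.nd (nat_lit 5) 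
(.lf (nat_lit 84253) (.g (nat_lit 3837) (.e (nat_lit 1858) (nat_lit 124) (.e (nat_lit 557109) (nat_lit 15) (.e (nat_lit 188452) (nat_lit 23) (.e (nat_lit 204852) (nat_lit 26) .nil)))) .nil)) 
(.lf (nat_lit 84285) (.g (nat_lit 1807) (.e (nat_lit 1859) (nat_lit 124) (.e (nat_lit 557066) (nat_lit 9) (.e (nat_lit 232) (nat_lit 21) (.e (nat_lit 336060) (nat_lit 7) .nil)))) .nil)))))) (.nd (nat_lit 2) (.nd (nat_lit 3) (.nd (nat_lit 4) (.nd (nat_lit 5) 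
(.lf (nat_lit 84227) (.g (nat_lit 3092) (.e (nat_lit 1858) (nat_lit 124) (.e (nat_lit 557109) (nat_lit 15) (.e (nat_lit 188450) (nat_lit 23) (.e (nat_lit 204880) (nat_lit 32) .nil)))) .nil)) 
(.lf (nat_lit 84259) (.g (nat_lit 2647) (.e (nat_lit 1858) (nat_lit 124) (.e (nat_lit 557109) (nat_lit 15) (.e (nat_lit 188452) (nat_lit 23) (.e (nat_lit 204863) (nat_lit 27) .nil)))) .nil))) (.nd (nat_lit 5) 
(.lf (nat_lit 84243) (.g (nat_lit 4527) (.e (nat_lit 1858) (nat_lit 124) (.e (nat_lit 557109) (nat_lit 15) (.e (nat_lit 188452) (nat_lit 23) (.e (nat_lit 204846) (nat_lit 24) (.e (nat_lit 319506) (nat_lit 10) .nil))))) .nil)) 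
(.lf (nat_lit 84275) (.g (nat_lit 3652) (.e (nat_lit 1858) (nat_lit 124) (.e (nat_lit 557109) (nat_lit 15) (.e (nat_lit 188452) (nat_lit 23) (.e (nat_lit 204885) (nat_lit 33) (.e (nat_lit 401435) (nat_lit 9) (.e (nat_lit 426402) (nat_lit 15) .nil)))))) (.g (nat_lit 0) .nil .nil))))) (.nd (nat_lit 4) (.nd (nat_lit 5) 
(.lf (nat_lit 84235) (.g (nat_lit 3770) (.e (nat_lit 1858) (nat_lit 124) (.e (nat_lit 557109) (nat_lit 15) (.e (nat_lit 188452) (nat_lit 23) (.e (nat_lit 204816) (nat_lit 17) (.e (nat_lit 6720) (nat_lit 361) (.e (nat_lit 179968) (nat_lit 15) .nil)))))) (.g (nat_lit 5) .nil .nil))) 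
(.lf (nat_lit 84267) (.g (nat_lit 4921) (.e (nat_lit 1858) (nat_lit 124) (.e (nat_lit 557109) (nat_lit 15) (.e (nat_lit 188452) (nat_lit 23) (.e (nat_lit 204884) (nat_lit 33) (.e (nat_lit 401437) (nat_lit 9) (.e (nat_lit 426364) (nat_lit 15) .nil)))))) (.g (nat_lit 6) .nil .nil)))) (.nd (nat_lit 5) 
(.lf (nat_lit 84251) (.g (nat_lit 4430) (.e (nat_lit 1858) (nat_lit 124) (.e (nat_lit 557109) (nat_lit 15) (.e (nat_lit 188452) (nat_lit 23) (.e (nat_lit 204849) (nat_lit 25) (.e (nat_lit 327705) (nat_lit 10) (.e (nat_lit 5722) (nat_lit 312) (.e (nat_lit 59) (nat_lit 0) .nil))))))) (.g (nat_lit 5) .nil .nil))) 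
(.lf (nat_lit 84283) (.g (nat_lit 1353) (.e (nat_lit 1858) (nat_lit 124) (.e (nat_lit 557109) (nat_lit 15) (.e (nat_lit 188458) (nat_lit 25) (.e (nat_lit 245784) (nat_lit 9) .nil)))) .nil))))) (.nd (nat_lit 3) (.nd (nat_lit 4) (.nd (nat_lit 5) 
(.lf (nat_lit 84231) (.g (nat_lit 3722) (.e (nat_lit 1858) (nat_lit 124) (.e (nat_lit 557109) (nat_lit 15) (.e (nat_lit 188452) (nat_lit 23) (.e (nat_lit 204815) (nat_lit 17) .nil)))) .nil)) 
(.lf (nat_lit 84263) (.g (nat_lit 3666) (.e (nat_lit 1858) (nat_lit 124) (.e (nat_lit 557109) (nat_lit 15) (.e (nat_lit 188452) (nat_lit 23) (.e (nat_lit 204882) (nat_lit 32) .nil)))) .nil))) (.nd (nat_lit 5) 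
(.lf (nat_lit 84247) (.g (nat_lit 2412) (.e (nat_lit 1858) (nat_lit 124) (.e (nat_lit 557109) (nat_lit 15) (.e (nat_lit 188452) (nat_lit 23) (.e (nat_lit 204849) (nat_lit 25) .nil)))) .nil)) 
(.lf (nat_lit 84279) (.g (nat_lit 3018) (.e (nat_lit 1858) (nat_lit 124) (.e (nat_lit 557109) (nat_lit 15) (.e (nat_lit 188452) (nat_lit 23) (.e (nat_lit 204885) (nat_lit 33) (.e (nat_lit 401440) (nat_lit 9) (.e (nat_lit 433920) (nat_lit 15) .nil)))))) (.g (nat_lit 5) .nil .nil))))) (.nd (nat_lit 4) (.nd (nat_lit 5) 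
(.lf (nat_lit 84239) (.g (nat_lit 3927) (.e (nat_lit 1858) (nat_lit 124) (.e (nat_lit 557109) (nat_lit 15) (.e (nat_lit 188452) (nat_lit 23) (.e (nat_lit 212736) (nat_lit 17) .nil)))) .nil)) 
(.lf (nat_lit 84271) (.g (nat_lit 4481) (.e (nat_lit 1858) (nat_lit 124) (.e (nat_lit 557109) (nat_lit 15) (.e (nat_lit 188452) (nat_lit 23) (.e (nat_lit 204885) (nat_lit 33) (.e (nat_lit 401434) (nat_lit 9) (.e (nat_lit 426364) (nat_lit 15) .nil)))))) (.g (nat_lit 0) .nil .nil)))) (.nd (nat_lit 5) 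
(.lf (nat_lit 84255) (.g (nat_lit 4933) (.e (nat_lit 1858) (nat_lit 124) (.e (nat_lit 557109) (nat_lit 15) (.e (nat_lit 188452) (nat_lit 23) (.e (nat_lit 204852) (nat_lit 26) (.e (nat_lit 336355) (nat_lit 24) .nil))))) .nil)) 
(.lf (nat_lit 84287) (.g (nat_lit 2584) (.e (nat_lit 1859) (nat_lit 124) (.e (nat_lit 557087) (nat_lit 11) (.e (nat_lit 24617) (nat_lit 7) (.e (nat_lit 319504) (nat_lit 10) .nil)))) .nil))))))))

noncomputable def tv1141 : DT := (.nd (nat_lit 0) (.nd (nat_lit 1) (.nd (nat_lit 2) (.nd (nat_lit 3) (.nd (nat_lit 4) (.nd (nat_lit 5) 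
(.lf (nat_lit 84288) (.g (nat_lit 3189) (.e (nat_lit 1859) (nat_lit 124) (.e (nat_lit 557087) (nat_lit 11) (.e (nat_lit 24625) (nat_lit 9) (.e (nat_lit 336258) (nat_lit 15) .nil)))) .nil)) 
(.lf (nat_lit 84320) (.g (nat_lit 3244) (.e (nat_lit 1859) (nat_lit 124) (.e (nat_lit 557091) (nat_lit 12) (.e (nat_lit 164022) (nat_lit 46) (.e (nat_lit 704738) (nat_lit 11) (.e (nat_lit 16412) (nat_lit 2) (.e (nat_lit 196672) (nat_lit 15) (.e (nat_lit 81944) (nat_lit 20) .nil))))))) (.g (nat_lit 5) .nil .nil)))) (.nd (nat_lit 5) 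
(.lf (nat_lit 84304) (.g (nat_lit 2180) (.e (nat_lit 1859) (nat_lit 124) (.e (nat_lit 557091) (nat_lit 12) (.e (nat_lit 163999) (nat_lit 38) (.e (nat_lit 639018) (nat_lit 15) .nil)))) .nil)) 
(.lf (nat_lit 84336) (.g (nat_lit 1429) (.e (nat_lit 1859) (nat_lit 124) (.e (nat_lit 557096) (nat_lit 13) (.e (nat_lit 172126) (nat_lit 14) (.e (nat_lit 491540) (nat_lit 3) (.e (nat_lit 98380) (nat_lit 31) (.e (nat_lit 474880) (nat_lit 0) .nil)))))) (.g (nat_lit 4) .nil .nil))))) (.nd (nat_lit 4) (.nd (nat_lit 5) 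
(.lf (nat_lit 84296) (.g (nat_lit 2374) (.e (nat_lit 1859) (nat_lit 124) (.e (nat_lit 557091) (nat_lit 12) (.e (nat_lit 163999) (nat_lit 38) (.e (nat_lit 639016) (nat_lit 15) .nil)))) .nil)) 
(.lf (nat_lit 84328) (.g (nat_lit 2223) (.e (nat_lit 1859) (nat_lit 124) (.e (nat_lit 557091) (nat_lit 12) (.e (nat_lit 164238) (nat_lit 187) (.e (nat_lit 1428) (nat_lit 108) (.e (nat_lit 336425) (nat_lit 28) .nil))))) .nil))) (.nd (nat_lit 5) 
(.lf (nat_lit 84312) (.g (nat_lit 2493) (.e (nat_lit 1859) (nat_lit 124) (.e (nat_lit 557091) (nat_lit 12) (.e (nat_lit 164022) (nat_lit 46) (.e (nat_lit 704737) (nat_lit 11) (.e (nat_lit 16412) (nat_lit 2) (.e (nat_lit 196674) (nat_lit 15) (.e (nat_lit 81940) (nat_lit 20) .nil))))))) (.g (nat_lit 4) .nil .nil))) 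
(.lf (nat_lit 84344) (.g (nat_lit 4257) (.e (nat_lit 1859) (nat_lit 124) (.e (nat_lit 557098) (nat_lit 13) (.e (nat_lit 172097) (nat_lit 9) (.e (nat_lit 426125) (nat_lit 2) (.e (nat_lit 196661) (nat_lit 12) (.e (nat_lit 57712) (nat_lit 176) (.e (nat_lit 1374) (nat_lit 104) (.e (nat_lit 303147) (nat_lit 15) .nil)))))))) (.g (nat_lit 0) .nil .nil)))))) 
(.nd (nat_lit 3) (.nd (nat_lit 4) (.nd (nat_lit 5) 
(.lf (nat_lit 84292) (.g (nat_lit 1947) (.e (nat_lit 1859) (nat_lit 124) (.e (nat_lit 557087) (nat_lit 11) (.e (nat_lit 24665) (nat_lit 14) (.e (nat_lit 401426) (nat_lit 3) .nil)))) .nil)) 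
(.lf (nat_lit 84324) (.g (nat_lit 5093) (.e (nat_lit 1859) (nat_lit 124) (.e (nat_lit 557091) (nat_lit 12) (.e (nat_lit 164022) (nat_lit 46) (.e (nat_lit 704738) (nat_lit 11) (.e (nat_lit 16412) (nat_lit 2) (.e (nat_lit 196674) (nat_lit 15) (.e (nat_lit 81947) (nat_lit 20) .nil))))))) (.g (nat_lit 6) .nil .nil)))) (.nd (nat_lit 5) 
(.lf (nat_lit 84308) (.g (nat_lit 2656) (.e (nat_lit 1859) (nat_lit 124) (.e (nat_lit 557091) (nat_lit 12) (.e (nat_lit 164022) (nat_lit 46) (.e (nat_lit 704737) (nat_lit 11) (.e (nat_lit 16411) (nat_lit 2) (.e (nat_lit 196672) (nat_lit 15) (.e (nat_lit 81943) (nat_lit 20) .nil))))))) (.g (nat_lit 4) .nil .nil))) 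
(.lf (nat_lit 84340) (.g (nat_lit 3846) (.e (nat_lit 1859) (nat_lit 124) (.e (nat_lit 557098) (nat_lit 13) (.e (nat_lit 172097) (nat_lit 9) (.e (nat_lit 426125) (nat_lit 2) (.e (nat_lit 196630) (nat_lit 9) (.e (nat_lit 1669) (nat_lit 116) (.e (nat_lit 401436) (nat_lit 9) (.e (nat_lit 426402) (nat_lit 15) .nil)))))))) (.g (nat_lit 6) .nil .nil))))) (.nd (nat_lit 4) (.nd (nat_lit 5) 
(.lf (nat_lit 84300) (.g (nat_lit 2568) (.e (nat_lit 1859) (nat_lit 124) (.e (nat_lit 557091) (nat_lit 12) (.e (nat_lit 163999) (nat_lit 38) (.e (nat_lit 639017) (nat_lit 15) (.e (nat_lit 57480) (nat_lit 28) .nil))))) .nil)) 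
(.lf (nat_lit 84332) (.g (nat_lit 1615) (.e (nat_lit 1859) (nat_lit 124) (.e (nat_lit 557094) (nat_lit 12) (.e (nat_lit 164030) (nat_lit 53) (.e (nat_lit 761905) (nat_lit 16) (.e (nat_lit 179968) (nat_lit 34) (.e (nat_lit 393273) (nat_lit 23) (.e (nat_lit 426402) (nat_lit 15) .nil))))))) (.g (nat_lit 4) .nil .nil)))) (.nd (nat_lit 5) 
(.lf (nat_lit 84316) (.g (nat_lit 1889) (.e (nat_lit 1859) (nat_lit 124) (.e (nat_lit 557091) (nat_lit 12) (.e (nat_lit 164022) (nat_lit 46) (.e (nat_lit 704738) (nat_lit 11) (.e (nat_lit 16412) (nat_lit 2) .nil))))) .nil)) 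
(.lf (nat_lit 84348) (.g (nat_lit 3840) (.e (nat_lit 1859) (nat_lit 124) (.e (nat_lit 557098) (nat_lit 13) (.e (nat_lit 172097) (nat_lit 9) (.e (nat_lit 426125) (nat_lit 2) (.e (nat_lit 196661) (nat_lit 12) (.e (nat_lit 57714) (nat_lit 176) (.e (nat_lit 1386) (nat_lit 105) (.e (nat_lit 311348) (nat_lit 15) .nil)))))))) (.g (nat_lit 0) .nil .nil))))))) 
(.nd (nat_lit 2) (.nd (nat_lit 3) (.nd (nat_lit 4) (.nd (nat_lit 5) 
(.lf (nat_lit 84290) (.g (nat_lit 2629) (.e (nat_lit 1859) (nat_lit 124) (.e (nat_lit 557087) (nat_lit 11) (.e (nat_lit 24665) (nat_lit 14) (.e (nat_lit 401424) (nat_lit 2) (.e (nat_lit 196674) (nat_lit 15) .nil))))) .nil)) 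
(.lf (nat_lit 84322) (.g (nat_lit 3384) (.e (nat_lit 1859) (nat_lit 124) (.e (nat_lit 557091) (nat_lit 12) (.e (nat_lit 164022) (nat_lit 46) (.e (nat_lit 704738) (nat_lit 11) (.e (nat_lit 16412) (nat_lit 2) (.e (nat_lit 196672) (nat_lit 15) (.e (nat_lit 81947) (nat_lit 20) .nil))))))) (.g (nat_lit 5) .nil .nil)))) (.nd (nat_lit 5) 
(.lf (nat_lit 84306) (.g (nat_lit 3375) (.e (nat_lit 1859) (nat_lit 124) (.e (nat_lit 557091) (nat_lit 12) (.e (nat_lit 163999) (nat_lit 38) (.e (nat_lit 639018) (nat_lit 15) (.e (nat_lit 57480) (nat_lit 28) (.e (nat_lit 557105) (nat_lit 14) (.e (nat_lit 180252) (nat_lit 10) (.e (nat_lit 573481) (nat_lit 13) (.e (nat_lit 65549) (nat_lit 0) .nil))))))))) (.g (nat_lit 5) .nil .nil))) 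
(.lf (nat_lit 84338) (.g (nat_lit 725) (.e (nat_lit 1859) (nat_lit 124) (.e (nat_lit 557098) (nat_lit 13) (.e (nat_lit 172067) (nat_lit 3) .nil))) .nil)))) (.nd (nat_lit 4) (.nd (nat_lit 5) 
(.lf (nat_lit 84298) (.g (nat_lit 3193) (.e (nat_lit 1859) (nat_lit 124) (.e (nat_lit 557091) (nat_lit 12) (.e (nat_lit 163999) (nat_lit 38) (.e (nat_lit 639017) (nat_lit 15) (.e (nat_lit 57478) (nat_lit 28) (.e (nat_lit 557105) (nat_lit 14) (.e (nat_lit 180252) (nat_lit 10) (.e (nat_lit 573481) (nat_lit 13) (.e (nat_lit 65549) (nat_lit 0) .nil))))))))) (.g (nat_lit 4) .nil .nil))) 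
(.lf (nat_lit 84330) (.g (nat_lit 2007) (.e (nat_lit 1859) (nat_lit 124) (.e (nat_lit 557094) (nat_lit 12) (.e (nat_lit 164022) (nat_lit 46) (.e (nat_lit 704738) (nat_lit 11) (.e (nat_lit 16412) (nat_lit 2) (.e (nat_lit 196672) (nat_lit 15) (.e (nat_lit 81943) (nat_lit 20) .nil))))))) (.g (nat_lit 4) .nil .nil)))) (.nd (nat_lit 5) 
(.lf (nat_lit 84314) (.g (nat_lit 2026) (.e (nat_lit 1859) (nat_lit 124) (.e (nat_lit 557091) (nat_lit 12) (.e (nat_lit 164022) (nat_lit 46) (.e (nat_lit 704738) (nat_lit 11) (.e (nat_lit 16411) (nat_lit 2) .nil))))) .nil)) 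
(.lf (nat_lit 84346) (.g (nat_lit 3502) (.e (nat_lit 1859) (nat_lit 124) (.e (nat_lit 557098) (nat_lit 13) (.e (nat_lit 172097) (nat_lit 9) (.e (nat_lit 426125) (nat_lit 2) (.e (nat_lit 196661) (nat_lit 12) (.e (nat_lit 57714) (nat_lit 176) (.e (nat_lit 1383) (nat_lit 105) (.e (nat_lit 311348) (nat_lit 15) .nil)))))))) (.g (nat_lit 0) .nil .nil)))))) 
(.nd (nat_lit 3) (.nd (nat_lit 4) (.nd (nat_lit 5) 
(.lf (nat_lit 84294) (.g (nat_lit 1502) (.e (nat_lit 1859) (nat_lit 124) (.e (nat_lit 557089) (nat_lit 12) (.e (nat_lit 164031) (nat_lit 53) (.e (nat_lit 761906) (nat_lit 16) (.e (nat_lit 179968) (nat_lit 34) (.e (nat_lit 393273) (nat_lit 23) (.e (nat_lit 426402) (nat_lit 15) .nil))))))) (.g (nat_lit 4) .nil .nil))) 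
(.lf (nat_lit 84326) (.g (nat_lit 1928) (.e (nat_lit 1859) (nat_lit 124) (.e (nat_lit 557091) (nat_lit 12) (.e (nat_lit 164030) (nat_lit 53) (.e (nat_lit 761906) (nat_lit 16) (.e (nat_lit 179968) (nat_lit 34) (.e (nat_lit 393273) (nat_lit 23) (.e (nat_lit 426402) (nat_lit 15) .nil))))))) (.g (nat_lit 4) .nil .nil)))) (.nd (nat_lit 5) 
(.lf (nat_lit 84310) (.g (nat_lit 2432) (.e (nat_lit 1859) (nat_lit 124) (.e (nat_lit 557091) (nat_lit 12) (.e (nat_lit 164022) (nat_lit 46) (.e (nat_lit 704737) (nat_lit 11) (.e (nat_lit 16412) (nat_lit 2) (.e (nat_lit 196672) (nat_lit 15) (.e (nat_lit 81928) (nat_lit 20) .nil))))))) (.g (nat_lit 4) .nil .nil))) 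
(.lf (nat_lit 84342) (.g (nat_lit 1861) (.e (nat_lit 1859) (nat_lit 124) (.e (nat_lit 557098) (nat_lit 13) (.e (nat_lit 172097) (nat_lit 9) (.e (nat_lit 426125) (nat_lit 2) (.e (nat_lit 196661) (nat_lit 12) .nil))))) .nil)))) (.nd (nat_lit 4) (.nd (nat_lit 5) 
(.lf (nat_lit 84302) (.g (nat_lit 5085) (.e (nat_lit 1859) (nat_lit 124) (.e (nat_lit 557091) (nat_lit 12) (.e (nat_lit 163999) (nat_lit 38) (.e (nat_lit 639017) (nat_lit 15) (.e (nat_lit 57480) (nat_lit 28) (.e (nat_lit 557104) (nat_lit 14) (.e (nat_lit 180252) (nat_lit 10) (.e (nat_lit 573482) (nat_lit 13) (.e (nat_lit 65549) (nat_lit 0) .nil))))))))) (.g (nat_lit 7) .nil .nil))) 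
(.lf (nat_lit 84334) (.g (nat_lit 1791) (.e (nat_lit 1859) (nat_lit 124) (.e (nat_lit 557096) (nat_lit 13) (.e (nat_lit 172126) (nat_lit 14) (.e (nat_lit 491540) (nat_lit 3) (.e (nat_lit 98369) (nat_lit 28) (.e (nat_lit 450304) (nat_lit 0) .nil)))))) (.g (nat_lit 5) .nil .nil)))) (.nd (nat_lit 5) 
(.lf (nat_lit 84318) (.g (nat_lit 3299) (.e (nat_lit 1859) (nat_lit 124) (.e (nat_lit 557091) (nat_lit 12) (.e (nat_lit 164022) (nat_lit 46) (.e (nat_lit 704738) (nat_lit 11) (.e (nat_lit 16412) (nat_lit 2) (.e (nat_lit 196672) (nat_lit 15) (.e (nat_lit 81940) (nat_lit 20) .nil))))))) (.g (nat_lit 5) .nil .nil))) 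
(.lf (nat_lit 84350) (.g (nat_lit 3211) (.e (nat_lit 1859) (nat_lit 124) (.e (nat_lit 557098) (nat_lit 13) (.e (nat_lit 172097) (nat_lit 9) (.e (nat_lit 426125) (nat_lit 2) (.e (nat_lit 196661) (nat_lit 12) (.e (nat_lit 57718) (nat_lit 176) (.e (nat_lit 1386) (nat_lit 105) (.e (nat_lit 311348) (nat_lit 15) .nil)))))))) (.g (nat_lit 5) .nil .nil)))))))) 
(.nd (nat_lit 1) (.nd (nat_lit 2) (.nd (nat_lit 3) (.nd (nat_lit 4) (.nd (nat_lit 5) 
(.lf (nat_lit 84289) (.g (nat_lit 2837) (.e (nat_lit 1859) (nat_lit 124) (.e (nat_lit 557087) (nat_lit 11) (.e (nat_lit 24647) (nat_lit 12) (.e (nat_lit 385074) (nat_lit 31) (.e (nat_lit 573491) (nat_lit 15) (.e (nat_lit 81946) (nat_lit 20) .nil)))))) (.g (nat_lit 4) .nil .nil))) 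
(.lf (nat_lit 84321) (.g (nat_lit 2478) (.e (nat_lit 1859) (nat_lit 124) (.e (nat_lit 557091) (nat_lit 12) (.e (nat_lit 164022) (nat_lit 46) (.e (nat_lit 704738) (nat_lit 11) (.e (nat_lit 16412) (nat_lit 2) (.e (nat_lit 196672) (nat_lit 15) (.e (nat_lit 81946) (nat_lit 20) .nil))))))) (.g (nat_lit 4) .nil .nil)))) (.nd (nat_lit 5) 
(.lf (nat_lit 84305) (.g (nat_lit 2893) (.e (nat_lit 1859) (nat_lit 124) (.e (nat_lit 557091) (nat_lit 12) (.e (nat_lit 163999) (nat_lit 38) (.e (nat_lit 639018) (nat_lit 15) (.e (nat_lit 57478) (nat_lit 28) (.e (nat_lit 557105) (nat_lit 14) (.e (nat_lit 180252) (nat_lit 10) (.e (nat_lit 573481) (nat_lit 13) (.e (nat_lit 65549) (nat_lit 0) .nil))))))))) (.g (nat_lit 4) .nil .nil))) 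
(.lf (nat_lit 84337) (.g (nat_lit 1580) (.e (nat_lit 1859) (nat_lit 124) (.e (nat_lit 557096) (nat_lit 13) (.e (nat_lit 172126) (nat_lit 14) (.e (nat_lit 491540) (nat_lit 3) (.e (nat_lit 98381) (nat_lit 31) (.e (nat_lit 474880) (nat_lit 0) .nil)))))) (.g (nat_lit 4) .nil .nil))))) (.nd (nat_lit 4) (.nd (nat_lit 5) 
(.lf (nat_lit 84297) (.g (nat_lit 2607) (.e (nat_lit 1859) (nat_lit 124) (.e (nat_lit 557091) (nat_lit 12) (.e (nat_lit 163999) (nat_lit 38) (.e (nat_lit 639016) (nat_lit 15) (.e (nat_lit 57476) (nat_lit 28) .nil))))) .nil)) 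
(.lf (nat_lit 84329) (.g (nat_lit 2467) (.e (nat_lit 1859) (nat_lit 124) (.e (nat_lit 557093) (nat_lit 12) (.e (nat_lit 164022) (nat_lit 46) (.e (nat_lit 704738) (nat_lit 11) (.e (nat_lit 16412) (nat_lit 2) (.e (nat_lit 196674) (nat_lit 15) (.e (nat_lit 81944) (nat_lit 20) .nil))))))) (.g (nat_lit 4) .nil .nil)))) (.nd (nat_lit 5) 
(.lf (nat_lit 84313) (.g (nat_lit 3093) (.e (nat_lit 1859) (nat_lit 124) (.e (nat_lit 557091) (nat_lit 12) (.e (nat_lit 164022) (nat_lit 46) (.e (nat_lit 704737) (nat_lit 11) (.e (nat_lit 16412) (nat_lit 2) (.e (nat_lit 196674) (nat_lit 15) (.e (nat_lit 81944) (nat_lit 20) .nil))))))) (.g (nat_lit 5) .nil .nil))) 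
(.lf (nat_lit 84345) (.g (nat_lit 3106) (.e (nat_lit 1859) (nat_lit 124) (.e (nat_lit 557098) (nat_lit 13) (.e (nat_lit 172097) (nat_lit 9) (.e (nat_lit 426125) (nat_lit 2) (.e (nat_lit 196661) (nat_lit 12) (.e (nat_lit 57712) (nat_lit 176) (.e (nat_lit 1378) (nat_lit 104) (.e (nat_lit 311040) (nat_lit 15) .nil)))))))) (.g (nat_lit 6) .nil .nil)))))) 
(.nd (nat_lit 3) (.nd (nat_lit 4) (.nd (nat_lit 5) 
(.lf (nat_lit 84293) (.g (nat_lit 1701) (.e (nat_lit 1859) (nat_lit 124) (.e (nat_lit 557089) (nat_lit 12) (.e (nat_lit 164031) (nat_lit 53) (.e (nat_lit 761905) (nat_lit 16) (.e (nat_lit 179968) (nat_lit 34) (.e (nat_lit 393273) (nat_lit 23) (.e (nat_lit 426402) (nat_lit 15) .nil))))))) (.g (nat_lit 4) .nil .nil))) 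
(.lf (nat_lit 84325) (.g (nat_lit 1925) (.e (nat_lit 1859) (nat_lit 124) (.e (nat_lit 557091) (nat_lit 12) (.e (nat_lit 164030) (nat_lit 53) (.e (nat_lit 761905) (nat_lit 16) (.e (nat_lit 179968) (nat_lit 34) (.e (nat_lit 393273) (nat_lit 23) (.e (nat_lit 426364) (nat_lit 15) .nil))))))) (.g (nat_lit 4) .nil .nil)))) (.nd (nat_lit 5) 
(.lf (nat_lit 84309) (.g (nat_lit 1989) (.e (nat_lit 1859) (nat_lit 124) (.e (nat_lit 557091) (nat_lit 12) (.e (nat_lit 164022) (nat_lit 46) (.e (nat_lit 704737) (nat_lit 11) (.e (nat_lit 16412) (nat_lit 2) .nil))))) .nil)) 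
(.lf (nat_lit 84341) (.g (nat_lit 5004) (.e (nat_lit 1859) (nat_lit 124) (.e (nat_lit 557098) (nat_lit 13) (.e (nat_lit 172097) (nat_lit 9) (.e (nat_lit 426125) (nat_lit 2) (.e (nat_lit 196630) (nat_lit 9) (.e (nat_lit 1669) (nat_lit 116) (.e (nat_lit 401437) (nat_lit 9) (.e (nat_lit 426402) (nat_lit 15) .nil)))))))) (.g (nat_lit 8) .nil .nil))))) (.nd (nat_lit 4) (.nd (nat_lit 5) 
(.lf (nat_lit 84301) (.g (nat_lit 3946) (.e (nat_lit 1859) (nat_lit 124) (.e (nat_lit 557091) (nat_lit 12) (.e (nat_lit 163999) (nat_lit 38) (.e (nat_lit 639017) (nat_lit 15) (.e (nat_lit 57480) (nat_lit 28) (.e (nat_lit 557104) (nat_lit 14) (.e (nat_lit 180252) (nat_lit 10) (.e (nat_lit 573481) (nat_lit 13) (.e (nat_lit 65549) (nat_lit 0) .nil))))))))) (.g (nat_lit 6) .nil .nil))) 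
(.lf (nat_lit 84333) (.g (nat_lit 2229) (.e (nat_lit 1859) (nat_lit 124) (.e (nat_lit 557096) (nat_lit 13) (.e (nat_lit 172126) (nat_lit 14) (.e (nat_lit 491537) (nat_lit 2) (.e (nat_lit 90170) (nat_lit 13) (.e (nat_lit 172095) (nat_lit 9) (.e (nat_lit 433920) (nat_lit 15) .nil))))))) (.g (nat_lit 6) .nil .nil)))) (.nd (nat_lit 5) 
(.lf (nat_lit 84317) (.g (nat_lit 3860) (.e (nat_lit 1859) (nat_lit 124) (.e (nat_lit 557091) (nat_lit 12) (.e (nat_lit 164022) (nat_lit 46) (.e (nat_lit 704738) (nat_lit 11) (.e (nat_lit 16412) (nat_lit 2) (.e (nat_lit 196672) (nat_lit 15) (.e (nat_lit 81928) (nat_lit 20) .nil))))))) (.g (nat_lit 6) .nil .nil))) 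
(.lf (nat_lit 84349) (.g (nat_lit 2911) (.e (nat_lit 1859) (nat_lit 124) (.e (nat_lit 557098) (nat_lit 13) (.e (nat_lit 172097) (nat_lit 9) (.e (nat_lit 426125) (nat_lit 2) (.e (nat_lit 196661) (nat_lit 12) (.e (nat_lit 57718) (nat_lit 176) (.e (nat_lit 1385) (nat_lit 105) (.e (nat_lit 311348) (nat_lit 15) .nil)))))))) (.g (nat_lit 5) .nil .nil))))))) 
(.nd (nat_lit 2) (.nd (nat_lit 3) (.nd (nat_lit 4) (.nd (nat_lit 5) 
(.lf (nat_lit 84291) (.g (nat_lit 2789) (.e (nat_lit 1859) (nat_lit 124) (.e (nat_lit 557087) (nat_lit 11) (.e (nat_lit 24665) (nat_lit 14) (.e (nat_lit 401424) (nat_lit 2) (.e (nat_lit 196674) (nat_lit 15) (.e (nat_lit 81947) (nat_lit 20) .nil)))))) (.g (nat_lit 4) .nil .nil))) 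
(.lf (nat_lit 84323) (.g (nat_lit 4418) (.e (nat_lit 1859) (nat_lit 124) (.e (nat_lit 557091) (nat_lit 12) (.e (nat_lit 164022) (nat_lit 46) (.e (nat_lit 704738) (nat_lit 11) (.e (nat_lit 16412) (nat_lit 2) (.e (nat_lit 196674) (nat_lit 15) (.e (nat_lit 81944) (nat_lit 20) .nil))))))) (.g (nat_lit 6) .nil .nil)))) (.nd (nat_lit 5) 
(.lf (nat_lit 84307) (.g (nat_lit 1037) (.e (nat_lit 1859) (nat_lit 124) (.e (nat_lit 557091) (nat_lit 12) (.e (nat_lit 164006) (nat_lit 41) (.e (nat_lit 671488) (nat_lit 0) .nil)))) .nil)) 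
(.lf (nat_lit 84339) (.g (nat_lit 2941) (.e (nat_lit 1859) (nat_lit 124) (.e (nat_lit 557098) (nat_lit 13) (.e (nat_lit 172097) (nat_lit 9) (.e (nat_lit 426125) (nat_lit 2) (.e (nat_lit 196630) (nat_lit 9) (.e (nat_lit 1667) (nat_lit 116) (.e (nat_lit 401437) (nat_lit 9) (.e (nat_lit 426402) (nat_lit 15) .nil)))))))) (.g (nat_lit 5) .nil .nil))))) (.nd (nat_lit 4) (.nd (nat_lit 5) 
(.lf (nat_lit 84299) (.g (nat_lit 3028) (.e (nat_lit 1859) (nat_lit 124) (.e (nat_lit 557091) (nat_lit 12) (.e (nat_lit 163999) (nat_lit 38) (.e (nat_lit 639017) (nat_lit 15) (.e (nat_lit 57479) (nat_lit 28) (.e (nat_lit 557103) (nat_lit 14) (.e (nat_lit 180250) (nat_lit 10) (.e (nat_lit 573482) (nat_lit 13) (.e (nat_lit 65549) (nat_lit 0) .nil))))))))) (.g (nat_lit 4) .nil .nil))) 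
(.lf (nat_lit 84331) (.g (nat_lit 942) (.e (nat_lit 1859) (nat_lit 124) (.e (nat_lit 557094) (nat_lit 12) (.e (nat_lit 164030) (nat_lit 53) (.e (nat_lit 761903) (nat_lit 16) .nil)))) .nil))) (.nd (nat_lit 5) 
(.lf (nat_lit 84315) (.g (nat_lit 3008) (.e (nat_lit 1859) (nat_lit 124) (.e (nat_lit 557091) (nat_lit 12) (.e (nat_lit 164022) (nat_lit 46) (.e (nat_lit 704738) (nat_lit 11) (.e (nat_lit 16411) (nat_lit 2) (.e (nat_lit 196672) (nat_lit 15) (.e (nat_lit 81943) (nat_lit 20) .nil))))))) (.g (nat_lit 5) .nil .nil))) 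
(.lf (nat_lit 84347) (.g (nat_lit 3679) (.e (nat_lit 1859) (nat_lit 124) (.e (nat_lit 557098) (nat_lit 13) (.e (nat_lit 172097) (nat_lit 9) (.e (nat_lit 426125) (nat_lit 2) (.e (nat_lit 196661) (nat_lit 12) (.e (nat_lit 57714) (nat_lit 176) (.e (nat_lit 1385) (nat_lit 105) (.e (nat_lit 311348) (nat_lit 15) .nil)))))))) (.g (nat_lit 0) .nil .nil)))))) 
(.nd (nat_lit 3) (.nd (nat_lit 4) (.nd (nat_lit 5) 
(.lf (nat_lit 84295) (.g (nat_lit 2952) (.e (nat_lit 1859) (nat_lit 124) (.e (nat_lit 557090) (nat_lit 12) (.e (nat_lit 164020) (nat_lit 45) (.e (nat_lit 696344) (nat_lit 8) (.e (nat_lit 172067) (nat_lit 3) (.e (nat_lit 204866) (nat_lit 28) (.e (nat_lit 352299) (nat_lit 20) .nil))))))) (.g (nat_lit 4) .nil .nil))) 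
(.lf (nat_lit 84327) (.g (nat_lit 652) (.e (nat_lit 1859) (nat_lit 124) (.e (nat_lit 557091) (nat_lit 12) (.e (nat_lit 164053) (nat_lit 56) .nil))) .nil))) (.nd (nat_lit 5) 
(.lf (nat_lit 84311) (.g (nat_lit 3455) (.e (nat_lit 1859) (nat_lit 124) (.e (nat_lit 557091) (nat_lit 12) (.e (nat_lit 164022) (nat_lit 46) (.e (nat_lit 704737) (nat_lit 11) (.e (nat_lit 16412) (nat_lit 2) (.e (nat_lit 196672) (nat_lit 15) (.e (nat_lit 81943) (nat_lit 20) .nil))))))) (.g (nat_lit 5) .nil .nil))) 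
(.lf (nat_lit 84343) (.g (nat_lit 2348) (.e (nat_lit 1859) (nat_lit 124) (.e (nat_lit 557098) (nat_lit 13) (.e (nat_lit 172097) (nat_lit 9) (.e (nat_lit 426125) (nat_lit 2) (.e (nat_lit 196661) (nat_lit 12) (.e (nat_lit 57711) (nat_lit 176) (.e (nat_lit 1376) (nat_lit 104) (.e (nat_lit 303147) (nat_lit 15) .nil)))))))) (.g (nat_lit 4) .nil .nil))))) (.nd (nat_lit 4) (.nd (nat_lit 5) 
(.lf (nat_lit 84303) (.g (nat_lit 4256) (.e (nat_lit 1859) (nat_lit 124) (.e (nat_lit 557091) (nat_lit 12) (.e (nat_lit 163999) (nat_lit 38) (.e (nat_lit 639017) (nat_lit 15) (.e (nat_lit 57480) (nat_lit 28) (.e (nat_lit 557105) (nat_lit 14) (.e (nat_lit 180252) (nat_lit 10) (.e (nat_lit 573481) (nat_lit 13) (.e (nat_lit 65549) (nat_lit 0) .nil))))))))) (.g (nat_lit 6) .nil .nil))) 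
(.lf (nat_lit 84335) (.g (nat_lit 2174) (.e (nat_lit 1859) (nat_lit 124) (.e (nat_lit 557096) (nat_lit 13) (.e (nat_lit 172126) (nat_lit 14) (.e (nat_lit 491540) (nat_lit 3) (.e (nat_lit 98370) (nat_lit 28) (.e (nat_lit 450304) (nat_lit 0) .nil)))))) (.g (nat_lit 5) .nil .nil)))) (.nd (nat_lit 5) 
(.lf (nat_lit 84319) (.g (nat_lit 4773) (.e (nat_lit 1859) (nat_lit 124) (.e (nat_lit 557091) (nat_lit 12) (.e (nat_lit 164022) (nat_lit 46) (.e (nat_lit 704738) (nat_lit 11) (.e (nat_lit 16412) (nat_lit 2) (.e (nat_lit 196672) (nat_lit 15) (.e (nat_lit 81943) (nat_lit 20) .nil))))))) (.g (nat_lit 7) .nil .nil))) 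
(.lf (nat_lit 84351) (.g (nat_lit 2884) (.e (nat_lit 1859) (nat_lit 124) (.e (nat_lit 557098) (nat_lit 13) (.e (nat_lit 172097) (nat_lit 9) (.e (nat_lit 426125) (nat_lit 2) (.e (nat_lit 196661) (nat_lit 12) (.e (nat_lit 57721) (nat_lit 177) (.e (nat_lit 57863) (nat_lit 256) (.e (nat_lit 59) (nat_lit 0) .nil)))))))) (.g (nat_lit 5) .nil .nil)))))))))

noncomputable def tv1142 : DT := (.nd (nat_lit 0) (.nd (nat_lit 1) (.nd (nat_lit 2) (.nd (nat_lit 3) (.nd (nat_lit 4) (.nd (nat_lit 5) 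
(.lf (nat_lit 84352) (.g (nat_lit 3538) (.e (nat_lit 1859) (nat_lit 124) (.e (nat_lit 557098) (nat_lit 13) (.e (nat_lit 172097) (nat_lit 9) (.e (nat_lit 426125) (nat_lit 2) (.e (nat_lit 196661) (nat_lit 12) (.e (nat_lit 57722) (nat_lit 178) (.e (nat_lit 123163) (nat_lit 256) (.e (nat_lit 61) (nat_lit 0) .nil)))))))) (.g (nat_lit 0) .nil .nil))) 
(.lf (nat_lit 84384) (.g (nat_lit 2232) (.e (nat_lit 1859) (nat_lit 124) (.e (nat_lit 557098) (nat_lit 13) (.e (nat_lit 172115) (nat_lit 10) (.e (nat_lit 434227) (nat_lit 20) (.e (nat_lit 507929) (nat_lit 10) (.e (nat_lit 5772) (nat_lit 316) (.e (nat_lit 179968) (nat_lit 15) .nil))))))) (.g (nat_lit 6) .nil .nil)))) (.nd (nat_lit 5) 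
(.lf (nat_lit 84368) (.g (nat_lit 2151) (.e (nat_lit 1859) (nat_lit 124) (.e (nat_lit 557098) (nat_lit 13) (.e (nat_lit 172097) (nat_lit 9) (.e (nat_lit 426140) (nat_lit 3) (.e (nat_lit 204821) (nat_lit 17) (.e (nat_lit 6223) (nat_lit 334) (.e (nat_lit 123165) (nat_lit 256) (.e (nat_lit 16) (nat_lit 0) .nil)))))))) (.g (nat_lit 4) .nil .nil))) 
(.lf (nat_lit 84400) (.g (nat_lit 2693) (.e (nat_lit 1859) (nat_lit 124) (.e (nat_lit 557098) (nat_lit 13) (.e (nat_lit 172115) (nat_lit 10) (.e (nat_lit 434231) (nat_lit 23) (.e (nat_lit 532486) (nat_lit 0) (.e (nat_lit 6218) (nat_lit 333) (.e (nat_lit 57862) (nat_lit 256) (.e (nat_lit 60) (nat_lit 0) .nil)))))))) (.g (nat_lit 4) .nil .nil))))) (.nd (nat_lit 4) (.nd (nat_lit 5) 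
(.lf (nat_lit 84360) (.g (nat_lit 1913) (.e (nat_lit 1859) (nat_lit 124) (.e (nat_lit 557098) (nat_lit 13) (.e (nat_lit 172097) (nat_lit 9) (.e (nat_lit 426140) (nat_lit 3) (.e (nat_lit 204821) (nat_lit 17) .nil))))) .nil)) 
(.lf (nat_lit 84392) (.g (nat_lit 1917) (.e (nat_lit 1859) (nat_lit 124) (.e (nat_lit 557098) (nat_lit 13) (.e (nat_lit 172115) (nat_lit 10) (.e (nat_lit 434231) (nat_lit 23) (.e (nat_lit 532481) (nat_lit 0) .nil))))) .nil))) (.nd (nat_lit 5) 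
(.lf (nat_lit 84376) (.g (nat_lit 2695) (.e (nat_lit 1859) (nat_lit 124) (.e (nat_lit 557098) (nat_lit 13) (.e (nat_lit 172105) (nat_lit 10) (.e (nat_lit 434247) (nat_lit 28) (.e (nat_lit 573469) (nat_lit 11) (.e (nat_lit 16438) (nat_lit 9) (.e (nat_lit 426402) (nat_lit 15) .nil))))))) (.g (nat_lit 5) .nil .nil))) 
(.lf (nat_lit 84408) (.g (nat_lit 2268) (.e (nat_lit 1859) (nat_lit 124) (.e (nat_lit 557098) (nat_lit 13) (.e (nat_lit 172115) (nat_lit 10) (.e (nat_lit 434231) (nat_lit 23) (.e (nat_lit 532490) (nat_lit 0) (.e (nat_lit 6223) (nat_lit 334) (.e (nat_lit 123165) (nat_lit 256) (.e (nat_lit 59) (nat_lit 0) .nil)))))))) (.g (nat_lit 4) .nil .nil)))))) 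
(.nd (nat_lit 3) (.nd (nat_lit 4) (.nd (nat_lit 5) 
(.lf (nat_lit 84356) (.g (nat_lit 2201) (.e (nat_lit 1859) (nat_lit 124) (.e (nat_lit 557098) (nat_lit 13) (.e (nat_lit 172097) (nat_lit 9) (.e (nat_lit 426125) (nat_lit 2) (.e (nat_lit 196661) (nat_lit 12) (.e (nat_lit 57722) (nat_lit 178) (.e (nat_lit 123166) (nat_lit 256) (.e (nat_lit 7936) (nat_lit 0) .nil)))))))) (.g (nat_lit 4) .nil .nil))) 
(.lf (nat_lit 84388) (.g (nat_lit 2267) (.e (nat_lit 1859) (nat_lit 124) (.e (nat_lit 557098) (nat_lit 13) (.e (nat_lit 172115) (nat_lit 10) (.e (nat_lit 434227) (nat_lit 20) (.e (nat_lit 507930) (nat_lit 10) (.e (nat_lit 5772) (nat_lit 316) (.e (nat_lit 179968) (nat_lit 15) .nil))))))) (.g (nat_lit 6) .nil .nil)))) (.nd (nat_lit 5) 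
(.lf (nat_lit 84372) (.g (nat_lit 2644) (.e (nat_lit 1859) (nat_lit 124) (.e (nat_lit 557098) (nat_lit 13) (.e (nat_lit 172097) (nat_lit 9) (.e (nat_lit 426140) (nat_lit 3) (.e (nat_lit 204821) (nat_lit 17) (.e (nat_lit 7936) (nat_lit 364) (.e (nat_lit 245504) (nat_lit 15) .nil))))))) (.g (nat_lit 5) .nil .nil))) 
(.lf (nat_lit 84404) (.g (nat_lit 2027) (.e (nat_lit 1859) (nat_lit 124) (.e (nat_lit 557098) (nat_lit 13) (.e (nat_lit 172115) (nat_lit 10) (.e (nat_lit 434231) (nat_lit 23) (.e (nat_lit 532490) (nat_lit 0) .nil))))) .nil)))) (.nd (nat_lit 4) (.nd (nat_lit 5) 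
(.lf (nat_lit 84364) (.g (nat_lit 3512) (.e (nat_lit 1859) (nat_lit 124) (.e (nat_lit 557098) (nat_lit 13) (.e (nat_lit 172097) (nat_lit 9) (.e (nat_lit 426140) (nat_lit 3) (.e (nat_lit 204821) (nat_lit 17) (.e (nat_lit 6136) (nat_lit 332) (.e (nat_lit 1384) (nat_lit 105) (.e (nat_lit 311348) (nat_lit 15) .nil)))))))) (.g (nat_lit 0) .nil .nil))) 
(.lf (nat_lit 84396) (.g (nat_lit 1854) (.e (nat_lit 1859) (nat_lit 124) (.e (nat_lit 557098) (nat_lit 13) (.e (nat_lit 172115) (nat_lit 10) (.e (nat_lit 434231) (nat_lit 23) (.e (nat_lit 532482) (nat_lit 0) .nil))))) .nil))) (.nd (nat_lit 5) 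
(.lf (nat_lit 84380) (.g (nat_lit 1286) (.e (nat_lit 1859) (nat_lit 124) (.e (nat_lit 557098) (nat_lit 13) (.e (nat_lit 172115) (nat_lit 10) (.e (nat_lit 434227) (nat_lit 20) .nil)))) .nil)) 
(.lf (nat_lit 84412) (.g (nat_lit 2940) (.e (nat_lit 1859) (nat_lit 124) (.e (nat_lit 557098) (nat_lit 13) (.e (nat_lit 172115) (nat_lit 10) (.e (nat_lit 434231) (nat_lit 23) (.e (nat_lit 532490) (nat_lit 0) (.e (nat_lit 7936) (nat_lit 364) (.e (nat_lit 245504) (nat_lit 15) .nil))))))) (.g (nat_lit 5) .nil .nil))))))) (.nd (nat_lit 2) (.nd (nat_lit 3) (.nd (nat_lit 4) (.nd (nat_lit 5) 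
(.lf (nat_lit 84354) (.g (nat_lit 3595) (.e (nat_lit 1859) (nat_lit 124) (.e (nat_lit 557098) (nat_lit 13) (.e (nat_lit 172097) (nat_lit 9) (.e (nat_lit 426125) (nat_lit 2) (.e (nat_lit 196661) (nat_lit 12) (.e (nat_lit 57722) (nat_lit 178) (.e (nat_lit 123165) (nat_lit 256) (.e (nat_lit 61) (nat_lit 0) .nil)))))))) (.g (nat_lit 0) .nil .nil))) 
(.lf (nat_lit 84386) (.g (nat_lit 2410) (.e (nat_lit 1859) (nat_lit 124) (.e (nat_lit 557098) (nat_lit 13) (.e (nat_lit 172115) (nat_lit 10) (.e (nat_lit 434227) (nat_lit 20) (.e (nat_lit 507930) (nat_lit 10) (.e (nat_lit 5768) (nat_lit 316) (.e (nat_lit 179968) (nat_lit 15) .nil))))))) (.g (nat_lit 6) .nil .nil)))) (.nd (nat_lit 5) 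
(.lf (nat_lit 84370) (.g (nat_lit 2098) (.e (nat_lit 1859) (nat_lit 124) (.e (nat_lit 557098) (nat_lit 13) (.e (nat_lit 172097) (nat_lit 9) (.e (nat_lit 426140) (nat_lit 3) (.e (nat_lit 204821) (nat_lit 17) (.e (nat_lit 6223) (nat_lit 334) (.e (nat_lit 123166) (nat_lit 256) (.e (nat_lit 7936) (nat_lit 0) .nil)))))))) (.g (nat_lit 4) .nil .nil))) 
(.lf (nat_lit 84402) (.g (nat_lit 2572) (.e (nat_lit 1859) (nat_lit 124) (.e (nat_lit 557098) (nat_lit 13) (.e (nat_lit 172115) (nat_lit 10) (.e (nat_lit 434231) (nat_lit 23) (.e (nat_lit 532486) (nat_lit 0) (.e (nat_lit 6218) (nat_lit 333) (.e (nat_lit 57864) (nat_lit 256) (.e (nat_lit 59) (nat_lit 0) .nil)))))))) (.g (nat_lit 4) .nil .nil))))) (.nd (nat_lit 4) (.nd (nat_lit 5) 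
(.lf (nat_lit 84362) (.g (nat_lit 2701) (.e (nat_lit 1859) (nat_lit 124) (.e (nat_lit 557098) (nat_lit 13) (.e (nat_lit 172097) (nat_lit 9) (.e (nat_lit 426140) (nat_lit 3) (.e (nat_lit 204821) (nat_lit 17) (.e (nat_lit 6114) (nat_lit 332) (.e (nat_lit 1376) (nat_lit 104) (.e (nat_lit 311040) (nat_lit 15) .nil)))))))) (.g (nat_lit 5) .nil .nil))) 
(.lf (nat_lit 84394) (.g (nat_lit 3354) (.e (nat_lit 1859) (nat_lit 124) (.e (nat_lit 557098) (nat_lit 13) (.e (nat_lit 172115) (nat_lit 10) (.e (nat_lit 434231) (nat_lit 23) (.e (nat_lit 532481) (nat_lit 0) (.e (nat_lit 6718) (nat_lit 361) (.e (nat_lit 179968) (nat_lit 15) .nil))))))) (.g (nat_lit 6) .nil .nil)))) (.nd (nat_lit 5) 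
(.lf (nat_lit 84378) (.g (nat_lit 606) (.e (nat_lit 1859) (nat_lit 124) (.e (nat_lit 557098) (nat_lit 13) (.e (nat_lit 172112) (nat_lit 10) .nil))) .nil)) 
(.lf (nat_lit 84410) (.g (nat_lit 2454) (.e (nat_lit 1859) (nat_lit 124) (.e (nat_lit 557098) (nat_lit 13) (.e (nat_lit 172115) (nat_lit 10) (.e (nat_lit 434231) (nat_lit 23) (.e (nat_lit 532490) (nat_lit 0) (.e (nat_lit 6223) (nat_lit 334) (.e (nat_lit 123166) (nat_lit 256) (.e (nat_lit 7936) (nat_lit 0) .nil)))))))) (.g (nat_lit 4) .nil .nil)))))) 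
(.nd (nat_lit 3) (.nd (nat_lit 4) (.nd (nat_lit 5) 
(.lf (nat_lit 84358) (.g (nat_lit 2855) (.e (nat_lit 1859) (nat_lit 124) (.e (nat_lit 557098) (nat_lit 13) (.e (nat_lit 172097) (nat_lit 9) (.e (nat_lit 426125) (nat_lit 2) (.e (nat_lit 196661) (nat_lit 12) (.e (nat_lit 65280) (nat_lit 208) (.e (nat_lit 245504) (nat_lit 15) .nil))))))) (.g (nat_lit 5) .nil .nil))) 
(.lf (nat_lit 84390) (.g (nat_lit 1947) (.e (nat_lit 1859) (nat_lit 124) (.e (nat_lit 557098) (nat_lit 13) (.e (nat_lit 172115) (nat_lit 10) (.e (nat_lit 434227) (nat_lit 20) (.e (nat_lit 507947) (nat_lit 19) (.e (nat_lit 311325) (nat_lit 9) (.e (nat_lit 426402) (nat_lit 15) .nil))))))) (.g (nat_lit 4) .nil .nil)))) (.nd (nat_lit 5) 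
(.lf (nat_lit 84374) (.g (nat_lit 2145) (.e (nat_lit 1859) (nat_lit 124) (.e (nat_lit 557098) (nat_lit 13) (.e (nat_lit 172097) (nat_lit 9) (.e (nat_lit 426140) (nat_lit 3) (.e (nat_lit 204882) (nat_lit 32) .nil))))) .nil)) 
(.lf (nat_lit 84406) (.g (nat_lit 4408) (.e (nat_lit 1859) (nat_lit 124) (.e (nat_lit 557098) (nat_lit 13) (.e (nat_lit 172115) (nat_lit 10) (.e (nat_lit 434231) (nat_lit 23) (.e (nat_lit 532490) (nat_lit 0) (.e (nat_lit 6114) (nat_lit 332) (.e (nat_lit 1378) (nat_lit 104) (.e (nat_lit 311040) (nat_lit 15) .nil)))))))) (.g (nat_lit 6) .nil .nil))))) (.nd (nat_lit 4) (.nd (nat_lit 5) 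
(.lf (nat_lit 84366) (.g (nat_lit 3801) (.e (nat_lit 1859) (nat_lit 124) (.e (nat_lit 557098) (nat_lit 13) (.e (nat_lit 172097) (nat_lit 9) (.e (nat_lit 426140) (nat_lit 3) (.e (nat_lit 204821) (nat_lit 17) (.e (nat_lit 6136) (nat_lit 332) (.e (nat_lit 1386) (nat_lit 105) (.e (nat_lit 311348) (nat_lit 15) .nil)))))))) (.g (nat_lit 0) .nil .nil))) 
(.lf (nat_lit 84398) (.g (nat_lit 3152) (.e (nat_lit 1859) (nat_lit 124) (.e (nat_lit 557098) (nat_lit 13) (.e (nat_lit 172115) (nat_lit 10) (.e (nat_lit 434231) (nat_lit 23) (.e (nat_lit 532482) (nat_lit 0) (.e (nat_lit 6720) (nat_lit 361) (.e (nat_lit 179968) (nat_lit 15) .nil))))))) (.g (nat_lit 6) .nil .nil)))) (.nd (nat_lit 5) 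
(.lf (nat_lit 84382) (.g (nat_lit 2396) (.e (nat_lit 1859) (nat_lit 124) (.e (nat_lit 557098) (nat_lit 13) (.e (nat_lit 172115) (nat_lit 10) (.e (nat_lit 434227) (nat_lit 20) (.e (nat_lit 507929) (nat_lit 10) (.e (nat_lit 5768) (nat_lit 316) (.e (nat_lit 179968) (nat_lit 15) .nil))))))) (.g (nat_lit 6) .nil .nil))) 
(.lf (nat_lit 84414) (.g (nat_lit 4499) (.e (nat_lit 1859) (nat_lit 124) (.e (nat_lit 557098) (nat_lit 13) (.e (nat_lit 172115) (nat_lit 10) (.e (nat_lit 434231) (nat_lit 23) (.e (nat_lit 532523) (nat_lit 7) (.e (nat_lit 319538) (nat_lit 19) (.e (nat_lit 311348) (nat_lit 15) .nil))))))) (.g (nat_lit 5) .nil .nil)))))))) 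
(.nd (nat_lit 1) (.nd (nat_lit 2) (.nd (nat_lit 3) (.nd (nat_lit 4) (.nd (nat_lit 5) 
(.lf (nat_lit 84353) (.g (nat_lit 2033) (.e (nat_lit 1859) (nat_lit 124) (.e (nat_lit 557098) (nat_lit 13) (.e (nat_lit 172097) (nat_lit 9) (.e (nat_lit 426125) (nat_lit 2) (.e (nat_lit 196661) (nat_lit 12) (.e (nat_lit 57722) (nat_lit 178) (.e (nat_lit 123165) (nat_lit 256) (.e (nat_lit 59) (nat_lit 0) .nil)))))))) (.g (nat_lit 4) .nil .nil))) 
(.lf (nat_lit 84385) (.g (nat_lit 2096) (.e (nat_lit 1859) (nat_lit 124) (.e (nat_lit 557098) (nat_lit 13) (.e (nat_lit 172115) (nat_lit 10) (.e (nat_lit 434227) (nat_lit 20) (.e (nat_lit 507929) (nat_lit 10) (.e (nat_lit 5773) (nat_lit 316) (.e (nat_lit 179968) (nat_lit 15) .nil))))))) (.g (nat_lit 5) .nil .nil)))) (.nd (nat_lit 5) 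
(.lf (nat_lit 84369) (.g (nat_lit 3478) (.e (nat_lit 1859) (nat_lit 124) (.e (nat_lit 557098) (nat_lit 13) (.e (nat_lit 172097) (nat_lit 9) (.e (nat_lit 426140) (nat_lit 3) (.e (nat_lit 204821) (nat_lit 17) (.e (nat_lit 6223) (nat_lit 334) (.e (nat_lit 123165) (nat_lit 256) (.e (nat_lit 61) (nat_lit 0) .nil)))))))) (.g (nat_lit 0) .nil .nil))) 
(.lf (nat_lit 84401) (.g (nat_lit 2698) (.e (nat_lit 1859) (nat_lit 124) (.e (nat_lit 557098) (nat_lit 13) (.e (nat_lit 172115) (nat_lit 10) (.e (nat_lit 434231) (nat_lit 23) (.e (nat_lit 532486) (nat_lit 0) (.e (nat_lit 6218) (nat_lit 333) (.e (nat_lit 57863) (nat_lit 256) (.e (nat_lit 60) (nat_lit 0) .nil)))))))) (.g (nat_lit 4) .nil .nil))))) (.nd (nat_lit 4) (.nd (nat_lit 5) 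
(.lf (nat_lit 84361) (.g (nat_lit 2210) (.e (nat_lit 1859) (nat_lit 124) (.e (nat_lit 557098) (nat_lit 13) (.e (nat_lit 172097) (nat_lit 9) (.e (nat_lit 426140) (nat_lit 3) (.e (nat_lit 204821) (nat_lit 17) (.e (nat_lit 6092) (nat_lit 332) (.e (nat_lit 1386) (nat_lit 105) (.e (nat_lit 311348) (nat_lit 15) .nil)))))))) (.g (nat_lit 4) .nil .nil))) 
(.lf (nat_lit 84393) (.g (nat_lit 2283) (.e (nat_lit 1859) (nat_lit 124) (.e (nat_lit 557098) (nat_lit 13) (.e (nat_lit 172115) (nat_lit 10) (.e (nat_lit 434231) (nat_lit 23) (.e (nat_lit 532481) (nat_lit 0) (.e (nat_lit 6712) (nat_lit 360) (.e (nat_lit 164247) (nat_lit 201) (.e (nat_lit 59) (nat_lit 0) .nil)))))))) (.g (nat_lit 4) .nil .nil)))) (.nd (nat_lit 5) 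
(.lf (nat_lit 84377) (.g (nat_lit 2472) (.e (nat_lit 1859) (nat_lit 124) (.e (nat_lit 557098) (nat_lit 13) (.e (nat_lit 172105) (nat_lit 10) (.e (nat_lit 434248) (nat_lit 28) (.e (nat_lit 573470) (nat_lit 11) (.e (nat_lit 16438) (nat_lit 9) (.e (nat_lit 426402) (nat_lit 15) .nil))))))) (.g (nat_lit 4) .nil .nil))) 
(.lf (nat_lit 84409) (.g (nat_lit 3073) (.e (nat_lit 1859) (nat_lit 124) (.e (nat_lit 557098) (nat_lit 13) (.e (nat_lit 172115) (nat_lit 10) (.e (nat_lit 434231) (nat_lit 23) (.e (nat_lit 532490) (nat_lit 0) (.e (nat_lit 6223) (nat_lit 334) (.e (nat_lit 123166) (nat_lit 256) (.e (nat_lit 59) (nat_lit 0) .nil)))))))) (.g (nat_lit 5) .nil .nil)))))) 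
(.nd (nat_lit 3) (.nd (nat_lit 4) (.nd (nat_lit 5) 
(.lf (nat_lit 84357) (.g (nat_lit 2855) (.e (nat_lit 1859) (nat_lit 124) (.e (nat_lit 557098) (nat_lit 13) (.e (nat_lit 172097) (nat_lit 9) (.e (nat_lit 426125) (nat_lit 2) (.e (nat_lit 196661) (nat_lit 12) (.e (nat_lit 65280) (nat_lit 205) (.e (nat_lit 179968) (nat_lit 15) .nil))))))) (.g (nat_lit 5) .nil .nil))) 
(.lf (nat_lit 84389) (.g (nat_lit 2173) (.e (nat_lit 1859) (nat_lit 124) (.e (nat_lit 557098) (nat_lit 13) (.e (nat_lit 172115) (nat_lit 10) (.e (nat_lit 434227) (nat_lit 20) (.e (nat_lit 507930) (nat_lit 10) (.e (nat_lit 5773) (nat_lit 316) (.e (nat_lit 179968) (nat_lit 15) .nil))))))) (.g (nat_lit 5) .nil .nil)))) (.nd (nat_lit 5) 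
(.lf (nat_lit 84373) (.g (nat_lit 2592) (.e (nat_lit 1859) (nat_lit 124) (.e (nat_lit 557098) (nat_lit 13) (.e (nat_lit 172097) (nat_lit 9) (.e (nat_lit 426140) (nat_lit 3) (.e (nat_lit 204845) (nat_lit 24) (.e (nat_lit 319539) (nat_lit 19) (.e (nat_lit 311348) (nat_lit 15) .nil))))))) (.g (nat_lit 4) .nil .nil))) 
(.lf (nat_lit 84405) (.g (nat_lit 2456) (.e (nat_lit 1859) (nat_lit 124) (.e (nat_lit 557098) (nat_lit 13) (.e (nat_lit 172115) (nat_lit 10) (.e (nat_lit 434231) (nat_lit 23) (.e (nat_lit 532490) (nat_lit 0) (.e (nat_lit 6092) (nat_lit 332) (.e (nat_lit 1376) (nat_lit 104) (.e (nat_lit 303147) (nat_lit 15) .nil)))))))) (.g (nat_lit 4) .nil .nil))))) (.nd (nat_lit 4) (.nd (nat_lit 5) 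
(.lf (nat_lit 84365) (.g (nat_lit 3633) (.e (nat_lit 1859) (nat_lit 124) (.e (nat_lit 557098) (nat_lit 13) (.e (nat_lit 172097) (nat_lit 9) (.e (nat_lit 426140) (nat_lit 3) (.e (nat_lit 204821) (nat_lit 17) (.e (nat_lit 6136) (nat_lit 332) (.e (nat_lit 1385) (nat_lit 105) (.e (nat_lit 311348) (nat_lit 15) .nil)))))))) (.g (nat_lit 0) .nil .nil))) 
(.lf (nat_lit 84397) (.g (nat_lit 3100) (.e (nat_lit 1859) (nat_lit 124) (.e (nat_lit 557098) (nat_lit 13) (.e (nat_lit 172115) (nat_lit 10) (.e (nat_lit 434231) (nat_lit 23) (.e (nat_lit 532482) (nat_lit 0) (.e (nat_lit 6718) (nat_lit 361) (.e (nat_lit 179968) (nat_lit 15) .nil))))))) (.g (nat_lit 6) .nil .nil)))) (.nd (nat_lit 5) 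
(.lf (nat_lit 84381) (.g (nat_lit 2206) (.e (nat_lit 1859) (nat_lit 124) (.e (nat_lit 557098) (nat_lit 13) (.e (nat_lit 172115) (nat_lit 10) (.e (nat_lit 434227) (nat_lit 20) (.e (nat_lit 507928) (nat_lit 10) (.e (nat_lit 5772) (nat_lit 316) (.e (nat_lit 179968) (nat_lit 15) .nil))))))) (.g (nat_lit 6) .nil .nil))) 
(.lf (nat_lit 84413) (.g (nat_lit 3404) (.e (nat_lit 1859) (nat_lit 124) (.e (nat_lit 557098) (nat_lit 13) (.e (nat_lit 172115) (nat_lit 10) (.e (nat_lit 434231) (nat_lit 23) (.e (nat_lit 532522) (nat_lit 7) (.e (nat_lit 319539) (nat_lit 19) (.e (nat_lit 311348) (nat_lit 15) .nil))))))) (.g (nat_lit 5) .nil .nil))))))) (.nd (nat_lit 2) (.nd (nat_lit 3) (.nd (nat_lit 4) (.nd (nat_lit 5) 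
(.lf (nat_lit 84355) (.g (nat_lit 2780) (.e (nat_lit 1859) (nat_lit 124) (.e (nat_lit 557098) (nat_lit 13) (.e (nat_lit 172097) (nat_lit 9) (.e (nat_lit 426125) (nat_lit 2) (.e (nat_lit 196661) (nat_lit 12) (.e (nat_lit 57722) (nat_lit 178) (.e (nat_lit 123166) (nat_lit 256) (.e (nat_lit 59) (nat_lit 0) .nil)))))))) (.g (nat_lit 5) .nil .nil))) 
(.lf (nat_lit 84387) (.g (nat_lit 2515) (.e (nat_lit 1859) (nat_lit 124) (.e (nat_lit 557098) (nat_lit 13) (.e (nat_lit 172115) (nat_lit 10) (.e (nat_lit 434227) (nat_lit 20) (.e (nat_lit 507930) (nat_lit 10) (.e (nat_lit 5770) (nat_lit 316) (.e (nat_lit 179968) (nat_lit 15) .nil))))))) (.g (nat_lit 6) .nil .nil)))) (.nd (nat_lit 5) 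
(.lf (nat_lit 84371) (.g (nat_lit 2644) (.e (nat_lit 1859) (nat_lit 124) (.e (nat_lit 557098) (nat_lit 13) (.e (nat_lit 172097) (nat_lit 9) (.e (nat_lit 426140) (nat_lit 3) (.e (nat_lit 204821) (nat_lit 17) (.e (nat_lit 7936) (nat_lit 361) (.e (nat_lit 179968) (nat_lit 15) .nil))))))) (.g (nat_lit 5) .nil .nil))) 
(.lf (nat_lit 84403) (.g (nat_lit 2837) (.e (nat_lit 1859) (nat_lit 124) (.e (nat_lit 557098) (nat_lit 13) (.e (nat_lit 172115) (nat_lit 10) (.e (nat_lit 434231) (nat_lit 23) (.e (nat_lit 532486) (nat_lit 0) (.e (nat_lit 6218) (nat_lit 333) (.e (nat_lit 57864) (nat_lit 256) (.e (nat_lit 60) (nat_lit 0) .nil)))))))) (.g (nat_lit 4) .nil .nil))))) (.nd (nat_lit 4) (.nd (nat_lit 5) 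
(.lf (nat_lit 84363) (.g (nat_lit 3374) (.e (nat_lit 1859) (nat_lit 124) (.e (nat_lit 557098) (nat_lit 13) (.e (nat_lit 172097) (nat_lit 9) (.e (nat_lit 426140) (nat_lit 3) (.e (nat_lit 204821) (nat_lit 17) (.e (nat_lit 6114) (nat_lit 332) (.e (nat_lit 1378) (nat_lit 104) (.e (nat_lit 311040) (nat_lit 15) .nil)))))))) (.g (nat_lit 7) .nil .nil))) 
(.lf (nat_lit 84395) (.g (nat_lit 3419) (.e (nat_lit 1859) (nat_lit 124) (.e (nat_lit 557098) (nat_lit 13) (.e (nat_lit 172115) (nat_lit 10) (.e (nat_lit 434231) (nat_lit 23) (.e (nat_lit 532481) (nat_lit 0) (.e (nat_lit 6720) (nat_lit 361) (.e (nat_lit 179968) (nat_lit 15) .nil))))))) (.g (nat_lit 6) .nil .nil)))) (.nd (nat_lit 5) 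
(.lf (nat_lit 84379) (.g (nat_lit 2341) (.e (nat_lit 1859) (nat_lit 124) (.e (nat_lit 557098) (nat_lit 13) (.e (nat_lit 172112) (nat_lit 10) (.e (nat_lit 434248) (nat_lit 28) (.e (nat_lit 573470) (nat_lit 11) (.e (nat_lit 16438) (nat_lit 9) (.e (nat_lit 426402) (nat_lit 15) .nil))))))) (.g (nat_lit 4) .nil .nil))) 
(.lf (nat_lit 84411) (.g (nat_lit 2940) (.e (nat_lit 1859) (nat_lit 124) (.e (nat_lit 557098) (nat_lit 13) (.e (nat_lit 172115) (nat_lit 10) (.e (nat_lit 434231) (nat_lit 23) (.e (nat_lit 532490) (nat_lit 0) (.e (nat_lit 7936) (nat_lit 361) (.e (nat_lit 179968) (nat_lit 15) .nil))))))) (.g (nat_lit 5) .nil .nil)))))) (.nd (nat_lit 3) (.nd (nat_lit 4) (.nd (nat_lit 5) 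
(.lf (nat_lit 84359) (.g (nat_lit 1210) (.e (nat_lit 1859) (nat_lit 124) (.e (nat_lit 557098) (nat_lit 13) (.e (nat_lit 172097) (nat_lit 9) (.e (nat_lit 426140) (nat_lit 3) .nil)))) .nil)) 
(.lf (nat_lit 84391) (.g (nat_lit 1281) (.e (nat_lit 1859) (nat_lit 124) (.e (nat_lit 557098) (nat_lit 13) (.e (nat_lit 172115) (nat_lit 10) (.e (nat_lit 434231) (nat_lit 23) .nil)))) .nil))) (.nd (nat_lit 5) 
(.lf (nat_lit 84375) (.g (nat_lit 3473) (.e (nat_lit 1859) (nat_lit 124) (.e (nat_lit 557098) (nat_lit 13) (.e (nat_lit 172097) (nat_lit 9) (.e (nat_lit 426140) (nat_lit 3) (.e (nat_lit 204883) (nat_lit 33) (.e (nat_lit 401438) (nat_lit 9) (.e (nat_lit 426402) (nat_lit 15) .nil))))))) (.g (nat_lit 0) .nil .nil))) 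
(.lf (nat_lit 84407) (.g (nat_lit 3675) (.e (nat_lit 1859) (nat_lit 124) (.e (nat_lit 557098) (nat_lit 13) (.e (nat_lit 172115) (nat_lit 10) (.e (nat_lit 434231) (nat_lit 23) (.e (nat_lit 532490) (nat_lit 0) (.e (nat_lit 6149) (nat_lit 332) (.e (nat_lit 1386) (nat_lit 105) (.e (nat_lit 311348) (nat_lit 15) .nil)))))))) (.g (nat_lit 5) .nil .nil))))) (.nd (nat_lit 4) (.nd (nat_lit 5) 
(.lf (nat_lit 84367) (.g (nat_lit 3427) (.e (nat_lit 1859) (nat_lit 124) (.e (nat_lit 557098) (nat_lit 13) (.e (nat_lit 172097) (nat_lit 9) (.e (nat_lit 426140) (nat_lit 3) (.e (nat_lit 204821) (nat_lit 17) (.e (nat_lit 6223) (nat_lit 334) (.e (nat_lit 123163) (nat_lit 256) (.e (nat_lit 61) (nat_lit 0) .nil)))))))) (.g (nat_lit 0) .nil .nil))) 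
(.lf (nat_lit 84399) (.g (nat_lit 2327) (.e (nat_lit 1859) (nat_lit 124) (.e (nat_lit 557098) (nat_lit 13) (.e (nat_lit 172115) (nat_lit 10) (.e (nat_lit 434231) (nat_lit 23) (.e (nat_lit 532486) (nat_lit 0) (.e (nat_lit 6218) (nat_lit 333) (.e (nat_lit 57862) (nat_lit 256) (.e (nat_lit 59) (nat_lit 0) .nil)))))))) (.g (nat_lit 4) .nil .nil)))) (.nd (nat_lit 5) 
(.lf (nat_lit 84383) (.g (nat_lit 2342) (.e (nat_lit 1859) (nat_lit 124) (.e (nat_lit 557098) (nat_lit 13) (.e (nat_lit 172115) (nat_lit 10) (.e (nat_lit 434227) (nat_lit 20) (.e (nat_lit 507929) (nat_lit 10) (.e (nat_lit 5770) (nat_lit 316) (.e (nat_lit 179968) (nat_lit 15) .nil))))))) (.g (nat_lit 6) .nil .nil))) 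
(.lf (nat_lit 84415) (.g (nat_lit 4083) (.e (nat_lit 1859) (nat_lit 124) (.e (nat_lit 557098) (nat_lit 13) (.e (nat_lit 172115) (nat_lit 10) (.e (nat_lit 434231) (nat_lit 23) (.e (nat_lit 532523) (nat_lit 7) (.e (nat_lit 319539) (nat_lit 19) (.e (nat_lit 311348) (nat_lit 15) .nil))))))) (.g (nat_lit 5) .nil .nil)))))))))

noncomputable def tv1143 : DT := (.nd (nat_lit 0) (.nd (nat_lit 1) (.nd (nat_lit 2) (.nd (nat_lit 3) (.nd (nat_lit 4) (.nd (nat_lit 5) 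
(.lf (nat_lit 84416) (.g (nat_lit 2722) (.e (nat_lit 1859) (nat_lit 124) (.e (nat_lit 557098) (nat_lit 13) (.e (nat_lit 172115) (nat_lit 10) (.e (nat_lit 434231) (nat_lit 23) (.e (nat_lit 532528) (nat_lit 9) (.e (nat_lit 336260) (nat_lit 15) (.e (nat_lit 3733) (nat_lit 228) (.e (nat_lit 786444) (nat_lit 15) .nil)))))))) (.g (nat_lit 4) .nil .nil))) 
(.lf (nat_lit 84448) (.g (nat_lit 2235) (.e (nat_lit 1859) (nat_lit 124) (.e (nat_lit 557098) (nat_lit 13) (.e (nat_lit 172120) (nat_lit 12) (.e (nat_lit 475185) (nat_lit 29) (.e (nat_lit 557107) (nat_lit 15) (.e (nat_lit 196352) (nat_lit 0) .nil)))))) (.g (nat_lit 4) .nil .nil)))) (.nd (nat_lit 5) 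
(.lf (nat_lit 84432) (.g (nat_lit 1308) (.e (nat_lit 1859) (nat_lit 124) (.e (nat_lit 557098) (nat_lit 13) (.e (nat_lit 172115) (nat_lit 10) (.e (nat_lit 434238) (nat_lit 25) .nil)))) .nil)) 
(.lf (nat_lit 84464) (.g (nat_lit 1515) (.e (nat_lit 1859) (nat_lit 124) (.e (nat_lit 557098) (nat_lit 13) (.e (nat_lit 172126) (nat_lit 14) (.e (nat_lit 491539) (nat_lit 3) .nil)))) .nil)))) (.nd (nat_lit 4) (.nd (nat_lit 5) 
(.lf (nat_lit 84424) (.g (nat_lit 4220) (.e (nat_lit 1859) (nat_lit 124) (.e (nat_lit 557098) (nat_lit 13) (.e (nat_lit 172115) (nat_lit 10) (.e (nat_lit 434231) (nat_lit 23) (.e (nat_lit 532568) (nat_lit 16) (.e (nat_lit 401437) (nat_lit 9) (.e (nat_lit 426402) (nat_lit 15) .nil))))))) (.g (nat_lit 7) .nil .nil))) 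
(.lf (nat_lit 84456) (.g (nat_lit 2463) (.e (nat_lit 1859) (nat_lit 124) (.e (nat_lit 557098) (nat_lit 13) (.e (nat_lit 172124) (nat_lit 14) (.e (nat_lit 491540) (nat_lit 3) (.e (nat_lit 98369) (nat_lit 28) (.e (nat_lit 450304) (nat_lit 0) .nil)))))) (.g (nat_lit 5) .nil .nil)))) (.nd (nat_lit 5) 
(.lf (nat_lit 84440) (.g (nat_lit 3797) (.e (nat_lit 1859) (nat_lit 124) (.e (nat_lit 557098) (nat_lit 13) (.e (nat_lit 172115) (nat_lit 10) (.e (nat_lit 434244) (nat_lit 28) (.e (nat_lit 573471) (nat_lit 11) (.e (nat_lit 16431) (nat_lit 9) (.e (nat_lit 426363) (nat_lit 15) .nil))))))) (.g (nat_lit 7) .nil .nil))) 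
(.lf (nat_lit 84472) (.g (nat_lit 2410) (.e (nat_lit 1859) (nat_lit 124) (.e (nat_lit 557098) (nat_lit 13) (.e (nat_lit 172133) (nat_lit 15) (.e (nat_lit 2059) (nat_lit 142) (.e (nat_lit 704593) (nat_lit 4) .nil))))) .nil))))) (.nd (nat_lit 3) (.nd (nat_lit 4) (.nd (nat_lit 5) 
(.lf (nat_lit 84420) (.g (nat_lit 2071) (.e (nat_lit 1859) (nat_lit 124) (.e (nat_lit 557098) (nat_lit 13) (.e (nat_lit 172115) (nat_lit 10) (.e (nat_lit 434231) (nat_lit 23) (.e (nat_lit 532567) (nat_lit 16) .nil))))) .nil)) 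
(.lf (nat_lit 84452) (.g (nat_lit 2932) (.e (nat_lit 1859) (nat_lit 124) (.e (nat_lit 557098) (nat_lit 13) (.e (nat_lit 172124) (nat_lit 14) (.e (nat_lit 491537) (nat_lit 2) (.e (nat_lit 90185) (nat_lit 17) (.e (nat_lit 237605) (nat_lit 9) (.e (nat_lit 426402) (nat_lit 15) .nil))))))) (.g (nat_lit 4) .nil .nil)))) (.nd (nat_lit 5) 
(.lf (nat_lit 84436) (.g (nat_lit 4490) (.e (nat_lit 1859) (nat_lit 124) (.e (nat_lit 557098) (nat_lit 13) (.e (nat_lit 172115) (nat_lit 10) (.e (nat_lit 434244) (nat_lit 28) (.e (nat_lit 573469) (nat_lit 11) (.e (nat_lit 16438) (nat_lit 9) (.e (nat_lit 426402) (nat_lit 15) .nil))))))) (.g (nat_lit 7) .nil .nil))) 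
(.lf (nat_lit 84468) (.g (nat_lit 2292) (.e (nat_lit 1859) (nat_lit 124) (.e (nat_lit 557098) (nat_lit 13) (.e (nat_lit 172126) (nat_lit 14) (.e (nat_lit 491540) (nat_lit 3) (.e (nat_lit 98369) (nat_lit 28) (.e (nat_lit 450304) (nat_lit 0) .nil)))))) (.g (nat_lit 4) .nil .nil))))) (.nd (nat_lit 4) (.nd (nat_lit 5) 
(.lf (nat_lit 84428) (.g (nat_lit 4637) (.e (nat_lit 1859) (nat_lit 124) (.e (nat_lit 557098) (nat_lit 13) (.e (nat_lit 172115) (nat_lit 10) (.e (nat_lit 434231) (nat_lit 23) (.e (nat_lit 532569) (nat_lit 16) (.e (nat_lit 401437) (nat_lit 9) (.e (nat_lit 426402) (nat_lit 15) .nil))))))) (.g (nat_lit 7) .nil .nil))) 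
(.lf (nat_lit 84460) (.g (nat_lit 3012) (.e (nat_lit 1859) (nat_lit 124) (.e (nat_lit 557098) (nat_lit 13) (.e (nat_lit 172126) (nat_lit 14) (.e (nat_lit 491537) (nat_lit 2) (.e (nat_lit 90134) (nat_lit 9) .nil))))) .nil))) (.nd (nat_lit 5) 
(.lf (nat_lit 84444) (.g (nat_lit 4227) (.e (nat_lit 1859) (nat_lit 124) (.e (nat_lit 557098) (nat_lit 13) (.e (nat_lit 172115) (nat_lit 10) (.e (nat_lit 434244) (nat_lit 28) (.e (nat_lit 573471) (nat_lit 11) (.e (nat_lit 16438) (nat_lit 9) (.e (nat_lit 426402) (nat_lit 15) .nil))))))) (.g (nat_lit 7) .nil .nil))) 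
(.lf (nat_lit 84476) (.g (nat_lit 3140) (.e (nat_lit 1859) (nat_lit 124) (.e (nat_lit 557098) (nat_lit 13) (.e (nat_lit 179968) (nat_lit 20) (.e (nat_lit 114719) (nat_lit 23) (.e (nat_lit 98317) (nat_lit 9) (.e (nat_lit 336231) (nat_lit 14) (.e (nat_lit 401463) (nat_lit 15) .nil))))))) (.g (nat_lit 6) .nil .nil))))))) (.nd (nat_lit 2) (.nd (nat_lit 3) (.nd (nat_lit 4) (.nd (nat_lit 5) 
(.lf (nat_lit 84418) (.g (nat_lit 2976) (.e (nat_lit 1859) (nat_lit 124) (.e (nat_lit 557098) (nat_lit 13) (.e (nat_lit 172115) (nat_lit 10) (.e (nat_lit 434231) (nat_lit 23) (.e (nat_lit 532564) (nat_lit 15) (.e (nat_lit 385104) (nat_lit 50) (.e (nat_lit 786444) (nat_lit 15) .nil))))))) (.g (nat_lit 5) .nil .nil))) 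
(.lf (nat_lit 84450) (.g (nat_lit 2690) (.e (nat_lit 1859) (nat_lit 124) (.e (nat_lit 557098) (nat_lit 13) (.e (nat_lit 172124) (nat_lit 14) (.e (nat_lit 491537) (nat_lit 2) (.e (nat_lit 90185) (nat_lit 17) (.e (nat_lit 237601) (nat_lit 9) (.e (nat_lit 426402) (nat_lit 15) .nil))))))) (.g (nat_lit 4) .nil .nil)))) (.nd (nat_lit 5) 
(.lf (nat_lit 84434) (.g (nat_lit 1061) (.e (nat_lit 1859) (nat_lit 124) (.e (nat_lit 557098) (nat_lit 13) (.e (nat_lit 172115) (nat_lit 10) (.e (nat_lit 434244) (nat_lit 28) .nil)))) .nil)) 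
(.lf (nat_lit 84466) (.g (nat_lit 2038) (.e (nat_lit 1859) (nat_lit 124) (.e (nat_lit 557098) (nat_lit 13) (.e (nat_lit 172126) (nat_lit 14) (.e (nat_lit 491540) (nat_lit 3) (.e (nat_lit 98358) (nat_lit 26) (.e (nat_lit 426227) (nat_lit 9) (.e (nat_lit 433920) (nat_lit 15) .nil))))))) (.g (nat_lit 4) .nil .nil))))) (.nd (nat_lit 4) (.nd (nat_lit 5) 
(.lf (nat_lit 84426) (.g (nat_lit 2260) (.e (nat_lit 1859) (nat_lit 124) (.e (nat_lit 557098) (nat_lit 13) (.e (nat_lit 172115) (nat_lit 10) (.e (nat_lit 434231) (nat_lit 23) (.e (nat_lit 532569) (nat_lit 16) (.e (nat_lit 401434) (nat_lit 9) (.e (nat_lit 426402) (nat_lit 15) .nil))))))) (.g (nat_lit 4) .nil .nil))) 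
(.lf (nat_lit 84458) (.g (nat_lit 2436) (.e (nat_lit 1859) (nat_lit 124) (.e (nat_lit 557098) (nat_lit 13) (.e (nat_lit 172124) (nat_lit 14) (.e (nat_lit 491540) (nat_lit 3) (.e (nat_lit 98380) (nat_lit 31) (.e (nat_lit 474880) (nat_lit 0) .nil)))))) (.g (nat_lit 5) .nil .nil)))) (.nd (nat_lit 5) 
(.lf (nat_lit 84442) (.g (nat_lit 4533) (.e (nat_lit 1859) (nat_lit 124) (.e (nat_lit 557098) (nat_lit 13) (.e (nat_lit 172115) (nat_lit 10) (.e (nat_lit 434244) (nat_lit 28) (.e (nat_lit 573471) (nat_lit 11) (.e (nat_lit 16436) (nat_lit 9) (.e (nat_lit 426402) (nat_lit 15) .nil))))))) (.g (nat_lit 0) .nil .nil))) 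
(.lf (nat_lit 84474) (.g (nat_lit 3057) (.e (nat_lit 1859) (nat_lit 124) (.e (nat_lit 557098) (nat_lit 13) (.e (nat_lit 179968) (nat_lit 20) (.e (nat_lit 114714) (nat_lit 22) (.e (nat_lit 90159) (nat_lit 11) (.e (nat_lit 24664) (nat_lit 14) (.e (nat_lit 401463) (nat_lit 15) .nil))))))) (.g (nat_lit 6) .nil .nil)))))) (.nd (nat_lit 3) (.nd (nat_lit 4) (.nd (nat_lit 5) 
(.lf (nat_lit 84422) (.g (nat_lit 3527) (.e (nat_lit 1859) (nat_lit 124) (.e (nat_lit 557098) (nat_lit 13) (.e (nat_lit 172115) (nat_lit 10) (.e (nat_lit 434231) (nat_lit 23) (.e (nat_lit 532568) (nat_lit 16) (.e (nat_lit 401436) (nat_lit 9) (.e (nat_lit 426402) (nat_lit 15) .nil))))))) (.g (nat_lit 6) .nil .nil))) 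
(.lf (nat_lit 84454) (.g (nat_lit 2234) (.e (nat_lit 1859) (nat_lit 124) (.e (nat_lit 557098) (nat_lit 13) (.e (nat_lit 172124) (nat_lit 14) (.e (nat_lit 491540) (nat_lit 3) (.e (nat_lit 98358) (nat_lit 26) (.e (nat_lit 426227) (nat_lit 9) (.e (nat_lit 433920) (nat_lit 15) .nil))))))) (.g (nat_lit 4) .nil .nil)))) (.nd (nat_lit 5) 
(.lf (nat_lit 84438) (.g (nat_lit 4375) (.e (nat_lit 1859) (nat_lit 124) (.e (nat_lit 557098) (nat_lit 13) (.e (nat_lit 172115) (nat_lit 10) (.e (nat_lit 434244) (nat_lit 28) (.e (nat_lit 573470) (nat_lit 11) (.e (nat_lit 16438) (nat_lit 9) (.e (nat_lit 426402) (nat_lit 15) .nil))))))) (.g (nat_lit 7) .nil .nil))) 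
(.lf (nat_lit 84470) (.g (nat_lit 2064) (.e (nat_lit 1859) (nat_lit 124) (.e (nat_lit 557098) (nat_lit 13) (.e (nat_lit 172126) (nat_lit 14) (.e (nat_lit 491540) (nat_lit 3) (.e (nat_lit 98380) (nat_lit 31) (.e (nat_lit 474880) (nat_lit 0) .nil)))))) (.g (nat_lit 4) .nil .nil))))) (.nd (nat_lit 4) (.nd (nat_lit 5) 
(.lf (nat_lit 84430) (.g (nat_lit 2881) (.e (nat_lit 1859) (nat_lit 124) (.e (nat_lit 557098) (nat_lit 13) (.e (nat_lit 172115) (nat_lit 10) (.e (nat_lit 434231) (nat_lit 23) (.e (nat_lit 532569) (nat_lit 16) (.e (nat_lit 401444) (nat_lit 9) (.e (nat_lit 433920) (nat_lit 15) .nil))))))) (.g (nat_lit 6) .nil .nil))) 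
(.lf (nat_lit 84462) (.g (nat_lit 2919) (.e (nat_lit 1859) (nat_lit 124) (.e (nat_lit 557098) (nat_lit 13) (.e (nat_lit 172126) (nat_lit 14) (.e (nat_lit 491537) (nat_lit 2) (.e (nat_lit 90185) (nat_lit 17) (.e (nat_lit 237601) (nat_lit 9) (.e (nat_lit 426402) (nat_lit 15) .nil))))))) (.g (nat_lit 4) .nil .nil)))) (.nd (nat_lit 5) 
(.lf (nat_lit 84446) (.g (nat_lit 2009) (.e (nat_lit 1859) (nat_lit 124) (.e (nat_lit 557098) (nat_lit 13) (.e (nat_lit 172115) (nat_lit 10) (.e (nat_lit 434244) (nat_lit 28) (.e (nat_lit 573471) (nat_lit 11) (.e (nat_lit 16440) (nat_lit 9) (.e (nat_lit 433920) (nat_lit 15) .nil))))))) (.g (nat_lit 4) .nil .nil))) 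
(.lf (nat_lit 84478) (.g (nat_lit 2686) (.e (nat_lit 1859) (nat_lit 124) (.e (nat_lit 557100) (nat_lit 13) (.e (nat_lit 172113) (nat_lit 10) (.e (nat_lit 434245) (nat_lit 28) (.e (nat_lit 573469) (nat_lit 11) (.e (nat_lit 16438) (nat_lit 9) (.e (nat_lit 426402) (nat_lit 15) .nil))))))) (.g (nat_lit 4) .nil .nil)))))))) 
(.nd (nat_lit 1) (.nd (nat_lit 2) (.nd (nat_lit 3) (.nd (nat_lit 4) (.nd (nat_lit 5) 
(.lf (nat_lit 84417) (.g (nat_lit 2511) (.e (nat_lit 1859) (nat_lit 124) (.e (nat_lit 557098) (nat_lit 13) (.e (nat_lit 172115) (nat_lit 10) (.e (nat_lit 434231) (nat_lit 23) (.e (nat_lit 532528) (nat_lit 9) (.e (nat_lit 336260) (nat_lit 15) (.e (nat_lit 3733) (nat_lit 228) (.e (nat_lit 786448) (nat_lit 15) .nil)))))))) (.g (nat_lit 4) .nil .nil))) 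
(.lf (nat_lit 84449) (.g (nat_lit 2908) (.e (nat_lit 1859) (nat_lit 124) (.e (nat_lit 557098) (nat_lit 13) (.e (nat_lit 172120) (nat_lit 12) (.e (nat_lit 475185) (nat_lit 29) (.e (nat_lit 557109) (nat_lit 15) (.e (nat_lit 196352) (nat_lit 0) .nil)))))) (.g (nat_lit 5) .nil .nil)))) (.nd (nat_lit 5) 
(.lf (nat_lit 84433) (.g (nat_lit 2171) (.e (nat_lit 1859) (nat_lit 124) (.e (nat_lit 557098) (nat_lit 13) (.e (nat_lit 172115) (nat_lit 10) (.e (nat_lit 434238) (nat_lit 25) (.e (nat_lit 548898) (nat_lit 14) (.e (nat_lit 3045) (nat_lit 189) (.e (nat_lit 474880) (nat_lit 0) .nil))))))) (.g (nat_lit 4) .nil .nil))) 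
(.lf (nat_lit 84465) (.g (nat_lit 1309) (.e (nat_lit 1859) (nat_lit 124) (.e (nat_lit 557098) (nat_lit 13) (.e (nat_lit 172126) (nat_lit 14) (.e (nat_lit 491540) (nat_lit 3) .nil)))) .nil)))) (.nd (nat_lit 4) (.nd (nat_lit 5) 
(.lf (nat_lit 84425) (.g (nat_lit 3917) (.e (nat_lit 1859) (nat_lit 124) (.e (nat_lit 557098) (nat_lit 13) (.e (nat_lit 172115) (nat_lit 10) (.e (nat_lit 434231) (nat_lit 23) (.e (nat_lit 532568) (nat_lit 16) (.e (nat_lit 401438) (nat_lit 9) (.e (nat_lit 426402) (nat_lit 15) .nil))))))) (.g (nat_lit 0) .nil .nil))) 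
(.lf (nat_lit 84457) (.g (nat_lit 2832) (.e (nat_lit 1859) (nat_lit 124) (.e (nat_lit 557098) (nat_lit 13) (.e (nat_lit 172124) (nat_lit 14) (.e (nat_lit 491540) (nat_lit 3) (.e (nat_lit 98370) (nat_lit 28) (.e (nat_lit 450304) (nat_lit 0) .nil)))))) (.g (nat_lit 5) .nil .nil)))) (.nd (nat_lit 5) 
(.lf (nat_lit 84441) (.g (nat_lit 4443) (.e (nat_lit 1859) (nat_lit 124) (.e (nat_lit 557098) (nat_lit 13) (.e (nat_lit 172115) (nat_lit 10) (.e (nat_lit 434244) (nat_lit 28) (.e (nat_lit 573471) (nat_lit 11) (.e (nat_lit 16435) (nat_lit 9) (.e (nat_lit 426402) (nat_lit 15) .nil))))))) (.g (nat_lit 0) .nil .nil))) 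
(.lf (nat_lit 84473) (.g (nat_lit 1184) (.e (nat_lit 1859) (nat_lit 124) (.e (nat_lit 557098) (nat_lit 13) (.e (nat_lit 172133) (nat_lit 15) (.e (nat_lit 2175) (nat_lit 143) .nil)))) .nil))))) (.nd (nat_lit 3) (.nd (nat_lit 4) (.nd (nat_lit 5) 
(.lf (nat_lit 84421) (.g (nat_lit 3757) (.e (nat_lit 1859) (nat_lit 124) (.e (nat_lit 557098) (nat_lit 13) (.e (nat_lit 172115) (nat_lit 10) (.e (nat_lit 434231) (nat_lit 23) (.e (nat_lit 532567) (nat_lit 16) (.e (nat_lit 401438) (nat_lit 9) (.e (nat_lit 426402) (nat_lit 15) .nil))))))) (.g (nat_lit 0) .nil .nil))) 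
(.lf (nat_lit 84453) (.g (nat_lit 1248) (.e (nat_lit 1859) (nat_lit 124) (.e (nat_lit 557098) (nat_lit 13) (.e (nat_lit 172124) (nat_lit 14) (.e (nat_lit 491540) (nat_lit 3) .nil)))) .nil))) (.nd (nat_lit 5) 
(.lf (nat_lit 84437) (.g (nat_lit 3066) (.e (nat_lit 1859) (nat_lit 124) (.e (nat_lit 557098) (nat_lit 13) (.e (nat_lit 172115) (nat_lit 10) (.e (nat_lit 434244) (nat_lit 28) (.e (nat_lit 573470) (nat_lit 11) (.e (nat_lit 16435) (nat_lit 9) (.e (nat_lit 426402) (nat_lit 15) .nil))))))) (.g (nat_lit 5) .nil .nil))) 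
(.lf (nat_lit 84469) (.g (nat_lit 2696) (.e (nat_lit 1859) (nat_lit 124) (.e (nat_lit 557098) (nat_lit 13) (.e (nat_lit 172126) (nat_lit 14) (.e (nat_lit 491540) (nat_lit 3) (.e (nat_lit 98370) (nat_lit 28) (.e (nat_lit 450304) (nat_lit 0) .nil)))))) (.g (nat_lit 4) .nil .nil))))) (.nd (nat_lit 4) (.nd (nat_lit 5) 
(.lf (nat_lit 84429) (.g (nat_lit 3311) (.e (nat_lit 1859) (nat_lit 124) (.e (nat_lit 557098) (nat_lit 13) (.e (nat_lit 172115) (nat_lit 10) (.e (nat_lit 434231) (nat_lit 23) (.e (nat_lit 532569) (nat_lit 16) (.e (nat_lit 401440) (nat_lit 9) (.e (nat_lit 433920) (nat_lit 15) .nil))))))) (.g (nat_lit 6) .nil .nil))) 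
(.lf (nat_lit 84461) (.g (nat_lit 2510) (.e (nat_lit 1859) (nat_lit 124) (.e (nat_lit 557098) (nat_lit 13) (.e (nat_lit 172126) (nat_lit 14) (.e (nat_lit 491537) (nat_lit 2) (.e (nat_lit 90185) (nat_lit 17) .nil))))) .nil))) (.nd (nat_lit 5) 
(.lf (nat_lit 84445) (.g (nat_lit 3179) (.e (nat_lit 1859) (nat_lit 124) (.e (nat_lit 557098) (nat_lit 13) (.e (nat_lit 172115) (nat_lit 10) (.e (nat_lit 434244) (nat_lit 28) (.e (nat_lit 573471) (nat_lit 11) (.e (nat_lit 16439) (nat_lit 9) (.e (nat_lit 433920) (nat_lit 15) .nil))))))) (.g (nat_lit 6) .nil .nil))) 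
(.lf (nat_lit 84477) (.g (nat_lit 2398) (.e (nat_lit 1859) (nat_lit 124) (.e (nat_lit 557100) (nat_lit 13) (.e (nat_lit 172106) (nat_lit 10) (.e (nat_lit 434231) (nat_lit 23) .nil)))) .nil)))))) (.nd (nat_lit 2) (.nd (nat_lit 3) (.nd (nat_lit 4) (.nd (nat_lit 5) 
(.lf (nat_lit 84419) (.g (nat_lit 2395) (.e (nat_lit 1859) (nat_lit 124) (.e (nat_lit 557098) (nat_lit 13) (.e (nat_lit 172115) (nat_lit 10) (.e (nat_lit 434231) (nat_lit 23) (.e (nat_lit 532564) (nat_lit 15) (.e (nat_lit 385105) (nat_lit 50) (.e (nat_lit 786444) (nat_lit 15) .nil))))))) (.g (nat_lit 4) .nil .nil))) 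
(.lf (nat_lit 84451) (.g (nat_lit 3139) (.e (nat_lit 1859) (nat_lit 124) (.e (nat_lit 557098) (nat_lit 13) (.e (nat_lit 172124) (nat_lit 14) (.e (nat_lit 491537) (nat_lit 2) (.e (nat_lit 90185) (nat_lit 17) (.e (nat_lit 237603) (nat_lit 9) (.e (nat_lit 426402) (nat_lit 15) .nil))))))) (.g (nat_lit 4) .nil .nil)))) (.nd (nat_lit 5) 
(.lf (nat_lit 84435) (.g (nat_lit 3128) (.e (nat_lit 1859) (nat_lit 124) (.e (nat_lit 557098) (nat_lit 13) (.e (nat_lit 172115) (nat_lit 10) (.e (nat_lit 434244) (nat_lit 28) (.e (nat_lit 573469) (nat_lit 11) (.e (nat_lit 16435) (nat_lit 9) (.e (nat_lit 426402) (nat_lit 15) .nil))))))) (.g (nat_lit 5) .nil .nil))) 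
(.lf (nat_lit 84467) (.g (nat_lit 2142) (.e (nat_lit 1859) (nat_lit 124) (.e (nat_lit 557098) (nat_lit 13) (.e (nat_lit 172126) (nat_lit 14) (.e (nat_lit 491540) (nat_lit 3) (.e (nat_lit 98365) (nat_lit 26) (.e (nat_lit 426198) (nat_lit 9) (.e (nat_lit 426402) (nat_lit 15) .nil))))))) (.g (nat_lit 4) .nil .nil))))) (.nd (nat_lit 4) (.nd (nat_lit 5) 
(.lf (nat_lit 84427) (.g (nat_lit 4083) (.e (nat_lit 1859) (nat_lit 124) (.e (nat_lit 557098) (nat_lit 13) (.e (nat_lit 172115) (nat_lit 10) (.e (nat_lit 434231) (nat_lit 23) (.e (nat_lit 532569) (nat_lit 16) (.e (nat_lit 401436) (nat_lit 9) (.e (nat_lit 426402) (nat_lit 15) .nil))))))) (.g (nat_lit 7) .nil .nil))) 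
(.lf (nat_lit 84459) (.g (nat_lit 2531) (.e (nat_lit 1859) (nat_lit 124) (.e (nat_lit 557098) (nat_lit 13) (.e (nat_lit 172124) (nat_lit 14) (.e (nat_lit 491540) (nat_lit 3) (.e (nat_lit 98381) (nat_lit 31) (.e (nat_lit 474880) (nat_lit 0) .nil)))))) (.g (nat_lit 5) .nil .nil)))) (.nd (nat_lit 5) 
(.lf (nat_lit 84443) (.g (nat_lit 3480) (.e (nat_lit 1859) (nat_lit 124) (.e (nat_lit 557098) (nat_lit 13) (.e (nat_lit 172115) (nat_lit 10) (.e (nat_lit 434244) (nat_lit 28) (.e (nat_lit 573471) (nat_lit 11) (.e (nat_lit 16437) (nat_lit 9) (.e (nat_lit 426402) (nat_lit 15) .nil))))))) (.g (nat_lit 5) .nil .nil))) 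
(.lf (nat_lit 84475) (.g (nat_lit 3112) (.e (nat_lit 1859) (nat_lit 124) (.e (nat_lit 557098) (nat_lit 13) (.e (nat_lit 179968) (nat_lit 20) (.e (nat_lit 114719) (nat_lit 23) (.e (nat_lit 98317) (nat_lit 9) (.e (nat_lit 336229) (nat_lit 14) (.e (nat_lit 401463) (nat_lit 15) .nil))))))) (.g (nat_lit 6) .nil .nil)))))) (.nd (nat_lit 3) (.nd (nat_lit 4) (.nd (nat_lit 5) 
(.lf (nat_lit 84423) (.g (nat_lit 2208) (.e (nat_lit 1859) (nat_lit 124) (.e (nat_lit 557098) (nat_lit 13) (.e (nat_lit 172115) (nat_lit 10) (.e (nat_lit 434231) (nat_lit 23) (.e (nat_lit 532568) (nat_lit 16) (.e (nat_lit 401437) (nat_lit 9) (.e (nat_lit 426364) (nat_lit 15) .nil))))))) (.g (nat_lit 4) .nil .nil))) 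
(.lf (nat_lit 84455) (.g (nat_lit 2463) (.e (nat_lit 1859) (nat_lit 124) (.e (nat_lit 557098) (nat_lit 13) (.e (nat_lit 172124) (nat_lit 14) (.e (nat_lit 491540) (nat_lit 3) (.e (nat_lit 98365) (nat_lit 26) (.e (nat_lit 426198) (nat_lit 9) (.e (nat_lit 426402) (nat_lit 15) .nil))))))) (.g (nat_lit 4) .nil .nil)))) (.nd (nat_lit 5) 
(.lf (nat_lit 84439) (.g (nat_lit 3496) (.e (nat_lit 1859) (nat_lit 124) (.e (nat_lit 557098) (nat_lit 13) (.e (nat_lit 172115) (nat_lit 10) (.e (nat_lit 434244) (nat_lit 28) (.e (nat_lit 573471) (nat_lit 11) (.e (nat_lit 16392) (nat_lit 0) (.e (nat_lit 7349) (nat_lit 388) (.e (nat_lit 59) (nat_lit 0) .nil)))))))) (.g (nat_lit 5) .nil .nil))) 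
(.lf (nat_lit 84471) (.g (nat_lit 2239) (.e (nat_lit 1859) (nat_lit 124) (.e (nat_lit 557098) (nat_lit 13) (.e (nat_lit 172126) (nat_lit 14) (.e (nat_lit 491540) (nat_lit 3) (.e (nat_lit 98381) (nat_lit 31) (.e (nat_lit 474880) (nat_lit 0) .nil)))))) (.g (nat_lit 4) .nil .nil))))) (.nd (nat_lit 4) (.nd (nat_lit 5) 
(.lf (nat_lit 84431) (.g (nat_lit 2229) (.e (nat_lit 1859) (nat_lit 124) (.e (nat_lit 557098) (nat_lit 13) (.e (nat_lit 172115) (nat_lit 10) (.e (nat_lit 434231) (nat_lit 23) (.e (nat_lit 532569) (nat_lit 16) (.e (nat_lit 409344) (nat_lit 9) (.e (nat_lit 426402) (nat_lit 15) .nil))))))) (.g (nat_lit 4) .nil .nil))) 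
(.lf (nat_lit 84463) (.g (nat_lit 3146) (.e (nat_lit 1859) (nat_lit 124) (.e (nat_lit 557098) (nat_lit 13) (.e (nat_lit 172126) (nat_lit 14) (.e (nat_lit 491537) (nat_lit 2) (.e (nat_lit 90185) (nat_lit 17) (.e (nat_lit 237605) (nat_lit 9) (.e (nat_lit 426402) (nat_lit 15) .nil))))))) (.g (nat_lit 4) .nil .nil)))) (.nd (nat_lit 5) 
(.lf (nat_lit 84447) (.g (nat_lit 588) (.e (nat_lit 1859) (nat_lit 124) (.e (nat_lit 557098) (nat_lit 13) (.e (nat_lit 172118) (nat_lit 12) .nil))) .nil)) 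
(.lf (nat_lit 84479) (.g (nat_lit 3399) (.e (nat_lit 1859) (nat_lit 124) (.e (nat_lit 557100) (nat_lit 13) (.e (nat_lit 172113) (nat_lit 10) (.e (nat_lit 434247) (nat_lit 28) (.e (nat_lit 573469) (nat_lit 11) (.e (nat_lit 16438) (nat_lit 9) (.e (nat_lit 426402) (nat_lit 15) .nil))))))) (.g (nat_lit 5) .nil .nil)))))))))

noncomputable def tv1144 : DT := (.nd (nat_lit 0) (.nd (nat_lit 1) (.nd (nat_lit 2) (.nd (nat_lit 3) (.nd (nat_lit 4) (.nd (nat_lit 5) 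
(.lf (nat_lit 84480) (.g (nat_lit 2163) (.e (nat_lit 1859) (nat_lit 124) (.e (nat_lit 557100) (nat_lit 13) (.e (nat_lit 172113) (nat_lit 10) (.e (nat_lit 434248) (nat_lit 28) (.e (nat_lit 573452) (nat_lit 9) .nil))))) .nil)) 
(.lf (nat_lit 84512) (.g (nat_lit 1195) (.e (nat_lit 1859) (nat_lit 124) (.e (nat_lit 557103) (nat_lit 14) (.e (nat_lit 188160) (nat_lit 35) (.e (nat_lit 57464) (nat_lit 23) (.e (nat_lit 516175) (nat_lit 14) (.e (nat_lit 474880) (nat_lit 0) .nil)))))) (.g (nat_lit 5) .nil .nil)))) (.nd (nat_lit 5) 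
(.lf (nat_lit 84496) (.g (nat_lit 2012) (.e (nat_lit 1859) (nat_lit 124) (.e (nat_lit 557103) (nat_lit 14) (.e (nat_lit 180278) (nat_lit 32) (.e (nat_lit 1252) (nat_lit 92) (.e (nat_lit 98370) (nat_lit 28) (.e (nat_lit 450304) (nat_lit 0) .nil)))))) (.g (nat_lit 5) .nil .nil))) 
(.lf (nat_lit 84528) (.g (nat_lit 1538) (.e (nat_lit 1859) (nat_lit 124) (.e (nat_lit 557103) (nat_lit 14) (.e (nat_lit 180285) (nat_lit 45) (.e (nat_lit 2571) (nat_lit 160) (.e (nat_lit 32809) (nat_lit 20) (.e (nat_lit 196352) (nat_lit 0) .nil)))))) (.g (nat_lit 5) .nil .nil))))) (.nd (nat_lit 4) (.nd (nat_lit 5) 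
(.lf (nat_lit 84488) (.g (nat_lit 1623) (.e (nat_lit 1859) (nat_lit 124) (.e (nat_lit 557103) (nat_lit 14) (.e (nat_lit 180276) (nat_lit 32) (.e (nat_lit 1077) (nat_lit 81) (.e (nat_lit 1796) (nat_lit 119) (.e (nat_lit 516175) (nat_lit 14) (.e (nat_lit 474880) (nat_lit 0) .nil))))))) (.g (nat_lit 6) .nil .nil))) 
(.lf (nat_lit 84520) (.g (nat_lit 1338) (.e (nat_lit 1859) (nat_lit 124) (.e (nat_lit 557103) (nat_lit 14) (.e (nat_lit 180285) (nat_lit 45) (.e (nat_lit 2570) (nat_lit 160) (.e (nat_lit 32807) (nat_lit 18) (.e (nat_lit 172091) (nat_lit 9) (.e (nat_lit 433920) (nat_lit 15) .nil))))))) (.g (nat_lit 5) .nil .nil)))) (.nd (nat_lit 5) 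
(.lf (nat_lit 84504) (.g (nat_lit 1913) (.e (nat_lit 1859) (nat_lit 124) (.e (nat_lit 557103) (nat_lit 14) (.e (nat_lit 180278) (nat_lit 32) (.e (nat_lit 1253) (nat_lit 92) (.e (nat_lit 98381) (nat_lit 31) (.e (nat_lit 474880) (nat_lit 0) .nil)))))) (.g (nat_lit 5) .nil .nil))) 
(.lf (nat_lit 84536) (.g (nat_lit 590) (.e (nat_lit 1859) (nat_lit 124) (.e (nat_lit 557105) (nat_lit 14) (.e (nat_lit 180227) (nat_lit 0) .nil))) .nil))))) (.nd (nat_lit 3) (.nd (nat_lit 4) (.nd (nat_lit 5) 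
(.lf (nat_lit 84484) (.g (nat_lit 2589) (.e (nat_lit 1859) (nat_lit 124) (.e (nat_lit 557103) (nat_lit 14) (.e (nat_lit 180250) (nat_lit 10) (.e (nat_lit 573487) (nat_lit 14) (.e (nat_lit 73747) (nat_lit 3) (.e (nat_lit 516119) (nat_lit 1) (.e (nat_lit 164184) (nat_lit 155) (.e (nat_lit 122884) (nat_lit 0) .nil)))))))) (.g (nat_lit 4) .nil .nil))) 
(.lf (nat_lit 84516) (.g (nat_lit 1916) (.e (nat_lit 1859) (nat_lit 124) (.e (nat_lit 557103) (nat_lit 14) (.e (nat_lit 188160) (nat_lit 38) (.e (nat_lit 122936) (nat_lit 23) (.e (nat_lit 516176) (nat_lit 14) (.e (nat_lit 474880) (nat_lit 0) .nil)))))) (.g (nat_lit 5) .nil .nil)))) (.nd (nat_lit 5) 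
(.lf (nat_lit 84500) (.g (nat_lit 1803) (.e (nat_lit 1859) (nat_lit 124) (.e (nat_lit 557103) (nat_lit 14) (.e (nat_lit 180278) (nat_lit 32) (.e (nat_lit 1253) (nat_lit 92) (.e (nat_lit 98369) (nat_lit 28) (.e (nat_lit 450304) (nat_lit 0) .nil)))))) (.g (nat_lit 5) .nil .nil))) 
(.lf (nat_lit 84532) (.g (nat_lit 1306) (.e (nat_lit 1859) (nat_lit 124) (.e (nat_lit 557104) (nat_lit 14) (.e (nat_lit 180278) (nat_lit 32) (.e (nat_lit 1235) (nat_lit 91) (.e (nat_lit 90170) (nat_lit 13) .nil))))) .nil)))) (.nd (nat_lit 4) (.nd (nat_lit 5) 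
(.lf (nat_lit 84492) (.g (nat_lit 2322) (.e (nat_lit 1859) (nat_lit 124) (.e (nat_lit 557103) (nat_lit 14) (.e (nat_lit 180278) (nat_lit 32) (.e (nat_lit 1234) (nat_lit 91) (.e (nat_lit 90185) (nat_lit 17) (.e (nat_lit 237605) (nat_lit 9) (.e (nat_lit 426402) (nat_lit 15) .nil))))))) (.g (nat_lit 5) .nil .nil))) 
(.lf (nat_lit 84524) (.g (nat_lit 1069) (.e (nat_lit 1859) (nat_lit 124) (.e (nat_lit 557103) (nat_lit 14) (.e (nat_lit 180285) (nat_lit 45) (.e (nat_lit 2571) (nat_lit 160) (.e (nat_lit 32798) (nat_lit 14) (.e (nat_lit 3000) (nat_lit 186) (.e (nat_lit 450304) (nat_lit 0) .nil))))))) (.g (nat_lit 4) .nil .nil)))) (.nd (nat_lit 5) 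
(.lf (nat_lit 84508) (.g (nat_lit 1210) (.e (nat_lit 1859) (nat_lit 124) (.e (nat_lit 557103) (nat_lit 14) (.e (nat_lit 188160) (nat_lit 35) (.e (nat_lit 57464) (nat_lit 23) (.e (nat_lit 516162) (nat_lit 11) (.e (nat_lit 450304) (nat_lit 0) .nil)))))) (.g (nat_lit 5) .nil .nil))) 
(.lf (nat_lit 84540) (.g (nat_lit 2207) (.e (nat_lit 1859) (nat_lit 124) (.e (nat_lit 557105) (nat_lit 14) (.e (nat_lit 180251) (nat_lit 10) (.e (nat_lit 573487) (nat_lit 14) .nil)))) .nil)))))) (.nd (nat_lit 2) (.nd (nat_lit 3) (.nd (nat_lit 4) (.nd (nat_lit 5) 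
(.lf (nat_lit 84482) (.g (nat_lit 2626) (.e (nat_lit 1859) (nat_lit 124) (.e (nat_lit 557100) (nat_lit 13) (.e (nat_lit 172113) (nat_lit 10) (.e (nat_lit 434248) (nat_lit 28) (.e (nat_lit 573470) (nat_lit 11) (.e (nat_lit 16438) (nat_lit 9) (.e (nat_lit 426402) (nat_lit 15) .nil))))))) (.g (nat_lit 4) .nil .nil))) 
(.lf (nat_lit 84514) (.g (nat_lit 1016) (.e (nat_lit 1859) (nat_lit 124) (.e (nat_lit 557103) (nat_lit 14) (.e (nat_lit 188160) (nat_lit 35) (.e (nat_lit 57464) (nat_lit 23) (.e (nat_lit 516177) (nat_lit 14) (.e (nat_lit 474880) (nat_lit 0) .nil)))))) (.g (nat_lit 4) .nil .nil)))) (.nd (nat_lit 5) 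
(.lf (nat_lit 84498) (.g (nat_lit 1795) (.e (nat_lit 1859) (nat_lit 124) (.e (nat_lit 557103) (nat_lit 14) (.e (nat_lit 180278) (nat_lit 32) (.e (nat_lit 1252) (nat_lit 92) (.e (nat_lit 98381) (nat_lit 31) (.e (nat_lit 474880) (nat_lit 0) .nil)))))) (.g (nat_lit 5) .nil .nil))) 
(.lf (nat_lit 84530) (.g (nat_lit 1429) (.e (nat_lit 1859) (nat_lit 124) (.e (nat_lit 557104) (nat_lit 14) (.e (nat_lit 180278) (nat_lit 32) (.e (nat_lit 1234) (nat_lit 91) (.e (nat_lit 90185) (nat_lit 17) .nil))))) .nil)))) (.nd (nat_lit 4) (.nd (nat_lit 5) 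
(.lf (nat_lit 84490) (.g (nat_lit 1385) (.e (nat_lit 1859) (nat_lit 124) (.e (nat_lit 557103) (nat_lit 14) (.e (nat_lit 180277) (nat_lit 32) (.e (nat_lit 1235) (nat_lit 91) (.e (nat_lit 90185) (nat_lit 17) .nil))))) .nil)) 
(.lf (nat_lit 84522) (.g (nat_lit 1468) (.e (nat_lit 1859) (nat_lit 124) (.e (nat_lit 557103) (nat_lit 14) (.e (nat_lit 180285) (nat_lit 45) (.e (nat_lit 2570) (nat_lit 160) (.e (nat_lit 32809) (nat_lit 20) (.e (nat_lit 196352) (nat_lit 0) .nil)))))) (.g (nat_lit 5) .nil .nil)))) (.nd (nat_lit 5) 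
(.lf (nat_lit 84506) (.g (nat_lit 419) (.e (nat_lit 1859) (nat_lit 124) (.e (nat_lit 557103) (nat_lit 14) (.e (nat_lit 188160) (nat_lit 35) .nil))) .nil)) 
(.lf (nat_lit 84538) (.g (nat_lit 1999) (.e (nat_lit 1859) (nat_lit 124) (.e (nat_lit 557105) (nat_lit 14) (.e (nat_lit 180251) (nat_lit 10) (.e (nat_lit 573485) (nat_lit 13) (.e (nat_lit 65570) (nat_lit 3) .nil))))) .nil))))) (.nd (nat_lit 3) (.nd (nat_lit 4) (.nd (nat_lit 5) 
(.lf (nat_lit 84486) (.g (nat_lit 449) (.e (nat_lit 1859) (nat_lit 124) (.e (nat_lit 557103) (nat_lit 14) (.e (nat_lit 180276) (nat_lit 32) .nil))) .nil)) 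
(.lf (nat_lit 84518) (.g (nat_lit 1801) (.e (nat_lit 1859) (nat_lit 124) (.e (nat_lit 557103) (nat_lit 14) (.e (nat_lit 180285) (nat_lit 45) (.e (nat_lit 2569) (nat_lit 160) (.e (nat_lit 32807) (nat_lit 18) (.e (nat_lit 172095) (nat_lit 9) (.e (nat_lit 433920) (nat_lit 15) .nil))))))) (.g (nat_lit 6) .nil .nil)))) (.nd (nat_lit 5) 
(.lf (nat_lit 84502) (.g (nat_lit 1470) (.e (nat_lit 1859) (nat_lit 124) (.e (nat_lit 557103) (nat_lit 14) (.e (nat_lit 180278) (nat_lit 32) (.e (nat_lit 1253) (nat_lit 92) (.e (nat_lit 98371) (nat_lit 28) (.e (nat_lit 450304) (nat_lit 0) .nil)))))) (.g (nat_lit 4) .nil .nil))) 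
(.lf (nat_lit 84534) (.g (nat_lit 1267) (.e (nat_lit 1859) (nat_lit 124) (.e (nat_lit 557104) (nat_lit 14) (.e (nat_lit 180278) (nat_lit 32) (.e (nat_lit 1253) (nat_lit 92) .nil)))) .nil)))) (.nd (nat_lit 4) (.nd (nat_lit 5) 
(.lf (nat_lit 84494) (.g (nat_lit 1885) (.e (nat_lit 1859) (nat_lit 124) (.e (nat_lit 557103) (nat_lit 14) (.e (nat_lit 180278) (nat_lit 32) (.e (nat_lit 1235) (nat_lit 91) (.e (nat_lit 90170) (nat_lit 13) (.e (nat_lit 172095) (nat_lit 9) (.e (nat_lit 433920) (nat_lit 15) .nil))))))) (.g (nat_lit 5) .nil .nil))) 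
(.lf (nat_lit 84526) (.g (nat_lit 1351) (.e (nat_lit 1859) (nat_lit 124) (.e (nat_lit 557103) (nat_lit 14) (.e (nat_lit 180285) (nat_lit 45) (.e (nat_lit 2571) (nat_lit 160) (.e (nat_lit 32807) (nat_lit 18) (.e (nat_lit 172091) (nat_lit 9) (.e (nat_lit 433920) (nat_lit 15) .nil))))))) (.g (nat_lit 5) .nil .nil)))) (.nd (nat_lit 5) 
(.lf (nat_lit 84510) (.g (nat_lit 1451) (.e (nat_lit 1859) (nat_lit 124) (.e (nat_lit 557103) (nat_lit 14) (.e (nat_lit 188160) (nat_lit 35) (.e (nat_lit 57464) (nat_lit 23) (.e (nat_lit 516164) (nat_lit 11) (.e (nat_lit 450304) (nat_lit 0) .nil)))))) (.g (nat_lit 5) .nil .nil))) 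
(.lf (nat_lit 84542) (.g (nat_lit 3351) (.e (nat_lit 1859) (nat_lit 124) (.e (nat_lit 557105) (nat_lit 14) (.e (nat_lit 180252) (nat_lit 10) (.e (nat_lit 573474) (nat_lit 12) (.e (nat_lit 57354) (nat_lit 0) (.e (nat_lit 5194) (nat_lit 294) (.e (nat_lit 57372) (nat_lit 2) (.e (nat_lit 90160) (nat_lit 11) (.e (nat_lit 24576) (nat_lit 0) .nil))))))))) (.g (nat_lit 4) .nil .nil)))))))) 
(.nd (nat_lit 1) (.nd (nat_lit 2) (.nd (nat_lit 3) (.nd (nat_lit 4) (.nd (nat_lit 5) 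
(.lf (nat_lit 84481) (.g (nat_lit 2772) (.e (nat_lit 1859) (nat_lit 124) (.e (nat_lit 557100) (nat_lit 13) (.e (nat_lit 172113) (nat_lit 10) (.e (nat_lit 434248) (nat_lit 28) (.e (nat_lit 573469) (nat_lit 11) (.e (nat_lit 16438) (nat_lit 9) (.e (nat_lit 426402) (nat_lit 15) .nil))))))) (.g (nat_lit 4) .nil .nil))) 
(.lf (nat_lit 84513) (.g (nat_lit 1491) (.e (nat_lit 1859) (nat_lit 124) (.e (nat_lit 557103) (nat_lit 14) (.e (nat_lit 188160) (nat_lit 35) (.e (nat_lit 57464) (nat_lit 23) (.e (nat_lit 516176) (nat_lit 14) (.e (nat_lit 474880) (nat_lit 0) .nil)))))) (.g (nat_lit 5) .nil .nil)))) (.nd (nat_lit 5) 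
(.lf (nat_lit 84497) (.g (nat_lit 1714) (.e (nat_lit 1859) (nat_lit 124) (.e (nat_lit 557103) (nat_lit 14) (.e (nat_lit 180278) (nat_lit 32) (.e (nat_lit 1252) (nat_lit 92) (.e (nat_lit 98380) (nat_lit 31) (.e (nat_lit 474880) (nat_lit 0) .nil)))))) (.g (nat_lit 5) .nil .nil))) 
(.lf (nat_lit 84529) (.g (nat_lit 163) (.e (nat_lit 1859) (nat_lit 124) (.e (nat_lit 557103) (nat_lit 14) (.e (nat_lit 180288) (nat_lit 45) .nil))) .nil)))) (.nd (nat_lit 4) (.nd (nat_lit 5) 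
(.lf (nat_lit 84489) (.g (nat_lit 1569) (.e (nat_lit 1859) (nat_lit 124) (.e (nat_lit 557103) (nat_lit 14) (.e (nat_lit 180277) (nat_lit 32) (.e (nat_lit 1235) (nat_lit 91) (.e (nat_lit 90134) (nat_lit 9) (.e (nat_lit 3002) (nat_lit 186) (.e (nat_lit 450304) (nat_lit 0) .nil))))))) (.g (nat_lit 4) .nil .nil))) 
(.lf (nat_lit 84521) (.g (nat_lit 1705) (.e (nat_lit 1859) (nat_lit 124) (.e (nat_lit 557103) (nat_lit 14) (.e (nat_lit 180285) (nat_lit 45) (.e (nat_lit 2570) (nat_lit 160) (.e (nat_lit 32807) (nat_lit 18) (.e (nat_lit 172095) (nat_lit 9) (.e (nat_lit 433920) (nat_lit 15) .nil))))))) (.g (nat_lit 6) .nil .nil)))) (.nd (nat_lit 5) 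
(.lf (nat_lit 84505) (.g (nat_lit 419) (.e (nat_lit 1859) (nat_lit 124) (.e (nat_lit 557103) (nat_lit 14) (.e (nat_lit 188160) (nat_lit 32) .nil))) .nil)) 
(.lf (nat_lit 84537) (.g (nat_lit 698) (.e (nat_lit 1859) (nat_lit 124) (.e (nat_lit 557105) (nat_lit 14) (.e (nat_lit 180233) (nat_lit 0) .nil))) .nil))))) (.nd (nat_lit 3) (.nd (nat_lit 4) (.nd (nat_lit 5) 
(.lf (nat_lit 84485) (.g (nat_lit 688) (.e (nat_lit 1859) (nat_lit 124) (.e (nat_lit 557103) (nat_lit 14) (.e (nat_lit 180275) (nat_lit 32) .nil))) .nil)) 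
(.lf (nat_lit 84517) (.g (nat_lit 1426) (.e (nat_lit 1859) (nat_lit 124) (.e (nat_lit 557103) (nat_lit 14) (.e (nat_lit 180285) (nat_lit 45) (.e (nat_lit 2569) (nat_lit 160) (.e (nat_lit 32807) (nat_lit 18) (.e (nat_lit 172091) (nat_lit 9) (.e (nat_lit 433920) (nat_lit 15) .nil))))))) (.g (nat_lit 6) .nil .nil)))) (.nd (nat_lit 5) 
(.lf (nat_lit 84501) (.g (nat_lit 2135) (.e (nat_lit 1859) (nat_lit 124) (.e (nat_lit 557103) (nat_lit 14) (.e (nat_lit 180278) (nat_lit 32) (.e (nat_lit 1253) (nat_lit 92) (.e (nat_lit 98370) (nat_lit 28) (.e (nat_lit 450304) (nat_lit 0) .nil)))))) (.g (nat_lit 5) .nil .nil))) 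
(.lf (nat_lit 84533) (.g (nat_lit 1247) (.e (nat_lit 1859) (nat_lit 124) (.e (nat_lit 557104) (nat_lit 14) (.e (nat_lit 180278) (nat_lit 32) (.e (nat_lit 1252) (nat_lit 92) .nil)))) .nil)))) (.nd (nat_lit 4) (.nd (nat_lit 5) 
(.lf (nat_lit 84493) (.g (nat_lit 2347) (.e (nat_lit 1859) (nat_lit 124) (.e (nat_lit 557103) (nat_lit 14) (.e (nat_lit 180278) (nat_lit 32) (.e (nat_lit 1235) (nat_lit 91) (.e (nat_lit 90134) (nat_lit 9) (.e (nat_lit 3002) (nat_lit 186) (.e (nat_lit 450304) (nat_lit 0) .nil))))))) (.g (nat_lit 5) .nil .nil))) 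
(.lf (nat_lit 84525) (.g (nat_lit 1307) (.e (nat_lit 1859) (nat_lit 124) (.e (nat_lit 557103) (nat_lit 14) (.e (nat_lit 180285) (nat_lit 45) (.e (nat_lit 2571) (nat_lit 160) (.e (nat_lit 32798) (nat_lit 14) (.e (nat_lit 3048) (nat_lit 189) (.e (nat_lit 474880) (nat_lit 0) .nil))))))) (.g (nat_lit 6) .nil .nil)))) (.nd (nat_lit 5) 
(.lf (nat_lit 84509) (.g (nat_lit 1677) (.e (nat_lit 1859) (nat_lit 124) (.e (nat_lit 557103) (nat_lit 14) (.e (nat_lit 188160) (nat_lit 35) (.e (nat_lit 57464) (nat_lit 23) (.e (nat_lit 516163) (nat_lit 11) (.e (nat_lit 450304) (nat_lit 0) .nil)))))) (.g (nat_lit 5) .nil .nil))) 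
(.lf (nat_lit 84541) (.g (nat_lit 461) (.e (nat_lit 1859) (nat_lit 124) (.e (nat_lit 557105) (nat_lit 14) (.e (nat_lit 180252) (nat_lit 10) .nil))) .nil)))))) (.nd (nat_lit 2) (.nd (nat_lit 3) (.nd (nat_lit 4) (.nd (nat_lit 5) 
(.lf (nat_lit 84483) (.g (nat_lit 1814) (.e (nat_lit 1859) (nat_lit 124) (.e (nat_lit 557103) (nat_lit 14) (.e (nat_lit 180243) (nat_lit 5) (.e (nat_lit 532508) (nat_lit 2) .nil)))) .nil)) 
(.lf (nat_lit 84515) (.g (nat_lit 1579) (.e (nat_lit 1859) (nat_lit 124) (.e (nat_lit 557103) (nat_lit 14) (.e (nat_lit 188160) (nat_lit 38) (.e (nat_lit 122936) (nat_lit 23) (.e (nat_lit 516174) (nat_lit 14) (.e (nat_lit 474880) (nat_lit 0) .nil)))))) (.g (nat_lit 5) .nil .nil)))) (.nd (nat_lit 5) 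
(.lf (nat_lit 84499) (.g (nat_lit 2728) (.e (nat_lit 1859) (nat_lit 124) (.e (nat_lit 557103) (nat_lit 14) (.e (nat_lit 180278) (nat_lit 32) (.e (nat_lit 1253) (nat_lit 92) (.e (nat_lit 98358) (nat_lit 26) (.e (nat_lit 426227) (nat_lit 9) (.e (nat_lit 433920) (nat_lit 15) .nil))))))) (.g (nat_lit 6) .nil .nil))) 
(.lf (nat_lit 84531) (.g (nat_lit 1552) (.e (nat_lit 1859) (nat_lit 124) (.e (nat_lit 557104) (nat_lit 14) (.e (nat_lit 180278) (nat_lit 32) (.e (nat_lit 1235) (nat_lit 91) (.e (nat_lit 90134) (nat_lit 9) (.e (nat_lit 3002) (nat_lit 186) (.e (nat_lit 450304) (nat_lit 0) .nil))))))) (.g (nat_lit 4) .nil .nil))))) (.nd (nat_lit 4) (.nd (nat_lit 5) 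
(.lf (nat_lit 84491) (.g (nat_lit 1375) (.e (nat_lit 1859) (nat_lit 124) (.e (nat_lit 557103) (nat_lit 14) (.e (nat_lit 180277) (nat_lit 32) (.e (nat_lit 1253) (nat_lit 92) (.e (nat_lit 98370) (nat_lit 28) .nil))))) .nil)) 
(.lf (nat_lit 84523) (.g (nat_lit 640) (.e (nat_lit 1859) (nat_lit 124) (.e (nat_lit 557103) (nat_lit 14) (.e (nat_lit 180285) (nat_lit 45) (.e (nat_lit 2571) (nat_lit 160) .nil)))) .nil))) (.nd (nat_lit 5) 
(.lf (nat_lit 84507) (.g (nat_lit 3123) (.e (nat_lit 1859) (nat_lit 124) (.e (nat_lit 557103) (nat_lit 14) (.e (nat_lit 188160) (nat_lit 35) (.e (nat_lit 57464) (nat_lit 23) (.e (nat_lit 516151) (nat_lit 9) (.e (nat_lit 426195) (nat_lit 9) (.e (nat_lit 426402) (nat_lit 15) .nil))))))) (.g (nat_lit 6) .nil .nil))) 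
(.lf (nat_lit 84539) (.g (nat_lit 2339) (.e (nat_lit 1859) (nat_lit 124) (.e (nat_lit 557105) (nat_lit 14) (.e (nat_lit 180251) (nat_lit 10) (.e (nat_lit 573485) (nat_lit 13) (.e (nat_lit 65570) (nat_lit 3) (.e (nat_lit 98333) (nat_lit 18) (.e (nat_lit 164182) (nat_lit 154) (.e (nat_lit 57357) (nat_lit 0) .nil)))))))) (.g (nat_lit 4) .nil .nil)))))) 
(.nd (nat_lit 3) (.nd (nat_lit 4) (.nd (nat_lit 5) 
(.lf (nat_lit 84487) (.g (nat_lit 1728) (.e (nat_lit 1859) (nat_lit 124) (.e (nat_lit 557103) (nat_lit 14) (.e (nat_lit 180276) (nat_lit 32) (.e (nat_lit 1074) (nat_lit 81) (.e (nat_lit 1796) (nat_lit 119) (.e (nat_lit 516175) (nat_lit 14) (.e (nat_lit 474880) (nat_lit 0) .nil))))))) (.g (nat_lit 6) .nil .nil))) 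
(.lf (nat_lit 84519) (.g (nat_lit 1548) (.e (nat_lit 1859) (nat_lit 124) (.e (nat_lit 557103) (nat_lit 14) (.e (nat_lit 180285) (nat_lit 45) (.e (nat_lit 2569) (nat_lit 160) (.e (nat_lit 32809) (nat_lit 20) (.e (nat_lit 196352) (nat_lit 0) .nil)))))) (.g (nat_lit 5) .nil .nil)))) (.nd (nat_lit 5) 
(.lf (nat_lit 84503) (.g (nat_lit 1825) (.e (nat_lit 1859) (nat_lit 124) (.e (nat_lit 557103) (nat_lit 14) (.e (nat_lit 180278) (nat_lit 32) (.e (nat_lit 1253) (nat_lit 92) (.e (nat_lit 98380) (nat_lit 31) (.e (nat_lit 474880) (nat_lit 0) .nil)))))) (.g (nat_lit 5) .nil .nil))) 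
(.lf (nat_lit 84535) (.g (nat_lit 1625) (.e (nat_lit 1859) (nat_lit 124) (.e (nat_lit 557104) (nat_lit 14) (.e (nat_lit 180278) (nat_lit 32) (.e (nat_lit 1253) (nat_lit 92) (.e (nat_lit 98370) (nat_lit 28) .nil))))) .nil)))) (.nd (nat_lit 4) (.nd (nat_lit 5) 
(.lf (nat_lit 84495) (.g (nat_lit 1698) (.e (nat_lit 1859) (nat_lit 124) (.e (nat_lit 557103) (nat_lit 14) (.e (nat_lit 180278) (nat_lit 32) (.e (nat_lit 1252) (nat_lit 92) (.e (nat_lit 98369) (nat_lit 28) (.e (nat_lit 450304) (nat_lit 0) .nil)))))) (.g (nat_lit 5) .nil .nil))) 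
(.lf (nat_lit 84527) (.g (nat_lit 1717) (.e (nat_lit 1859) (nat_lit 124) (.e (nat_lit 557103) (nat_lit 14) (.e (nat_lit 180285) (nat_lit 45) (.e (nat_lit 2571) (nat_lit 160) (.e (nat_lit 32807) (nat_lit 18) (.e (nat_lit 172095) (nat_lit 9) (.e (nat_lit 433920) (nat_lit 15) .nil))))))) (.g (nat_lit 6) .nil .nil)))) (.nd (nat_lit 5) 
(.lf (nat_lit 84511) (.g (nat_lit 1546) (.e (nat_lit 1859) (nat_lit 124) (.e (nat_lit 557103) (nat_lit 14) (.e (nat_lit 188160) (nat_lit 35) (.e (nat_lit 57464) (nat_lit 23) (.e (nat_lit 516174) (nat_lit 14) (.e (nat_lit 474880) (nat_lit 0) .nil)))))) (.g (nat_lit 5) .nil .nil))) 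
(.lf (nat_lit 84543) (.g (nat_lit 2239) (.e (nat_lit 1859) (nat_lit 124) (.e (nat_lit 557105) (nat_lit 14) (.e (nat_lit 180252) (nat_lit 10) (.e (nat_lit 573480) (nat_lit 13) (.e (nat_lit 73472) (nat_lit 18) .nil))))) .nil))))))))

noncomputable def tv1145 : DT := (.nd (nat_lit 0) (.nd (nat_lit 1) (.nd (nat_lit 2) (.nd (nat_lit 3) (.nd (nat_lit 4) (.nd (nat_lit 5) 
(.lf (nat_lit 84544) (.g (nat_lit 1884) (.e (nat_lit 1859) (nat_lit 124) (.e (nat_lit 557105) (nat_lit 14) (.e (nat_lit 180252) (nat_lit 10) (.e (nat_lit 573481) (nat_lit 13) .nil)))) .nil)) 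
(.lf (nat_lit 84576) (.g (nat_lit 1633) (.e (nat_lit 1859) (nat_lit 124) (.e (nat_lit 557105) (nat_lit 14) (.e (nat_lit 180277) (nat_lit 32) (.e (nat_lit 1235) (nat_lit 91) (.e (nat_lit 90170) (nat_lit 13) (.e (nat_lit 172095) (nat_lit 9) (.e (nat_lit 433920) (nat_lit 15) .nil))))))) (.g (nat_lit 5) .nil .nil)))) (.nd (nat_lit 5) 
(.lf (nat_lit 84560) (.g (nat_lit 2990) (.e (nat_lit 1859) (nat_lit 124) (.e (nat_lit 557105) (nat_lit 14) (.e (nat_lit 180252) (nat_lit 10) (.e (nat_lit 573489) (nat_lit 14) (.e (nat_lit 73755) (nat_lit 8) (.e (nat_lit 557090) (nat_lit 12) (.e (nat_lit 163841) (nat_lit 0) (.e (nat_lit 5207) (nat_lit 295) (.e (nat_lit 122884) (nat_lit 0) .nil))))))))) (.g (nat_lit 5) .nil .nil))) 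
(.lf (nat_lit 84592) (.g (nat_lit 2150) (.e (nat_lit 1859) (nat_lit 124) (.e (nat_lit 557105) (nat_lit 14) (.e (nat_lit 180278) (nat_lit 32) (.e (nat_lit 1253) (nat_lit 92) (.e (nat_lit 98358) (nat_lit 26) (.e (nat_lit 426227) (nat_lit 9) (.e (nat_lit 433920) (nat_lit 15) .nil))))))) (.g (nat_lit 5) .nil .nil))))) (.nd (nat_lit 4) (.nd (nat_lit 5) 
(.lf (nat_lit 84552) (.g (nat_lit 2473) (.e (nat_lit 1859) (nat_lit 124) (.e (nat_lit 557105) (nat_lit 14) (.e (nat_lit 180252) (nat_lit 10) (.e (nat_lit 573487) (nat_lit 14) (.e (nat_lit 81664) (nat_lit 5) (.e (nat_lit 532490) (nat_lit 0) (.e (nat_lit 7936) (nat_lit 154) (.e (nat_lit 802818) (nat_lit 0) .nil)))))))) (.g (nat_lit 4) .nil .nil))) 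
(.lf (nat_lit 84584) (.g (nat_lit 1509) (.e (nat_lit 1859) (nat_lit 124) (.e (nat_lit 557105) (nat_lit 14) (.e (nat_lit 180277) (nat_lit 32) (.e (nat_lit 1253) (nat_lit 92) (.e (nat_lit 98369) (nat_lit 28) (.e (nat_lit 450304) (nat_lit 0) .nil)))))) (.g (nat_lit 5) .nil .nil)))) (.nd (nat_lit 5) 
(.lf (nat_lit 84568) (.g (nat_lit 3533) (.e (nat_lit 1859) (nat_lit 124) (.e (nat_lit 557105) (nat_lit 14) (.e (nat_lit 180252) (nat_lit 10) (.e (nat_lit 573489) (nat_lit 14) (.e (nat_lit 73755) (nat_lit 8) (.e (nat_lit 557090) (nat_lit 12) (.e (nat_lit 163844) (nat_lit 0) (.e (nat_lit 5976) (nat_lit 325) (.e (nat_lit 229481) (nat_lit 61) .nil))))))))) (.g (nat_lit 7) .nil .nil))) 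
(.lf (nat_lit 84600) (.g (nat_lit 1039) (.e (nat_lit 1859) (nat_lit 124) (.e (nat_lit 557105) (nat_lit 14) (.e (nat_lit 188160) (nat_lit 35) (.e (nat_lit 57464) (nat_lit 23) (.e (nat_lit 516175) (nat_lit 14) (.e (nat_lit 474880) (nat_lit 0) .nil)))))) (.g (nat_lit 5) .nil .nil)))))) (.nd (nat_lit 3) (.nd (nat_lit 4) (.nd (nat_lit 5) 
(.lf (nat_lit 84548) (.g (nat_lit 2161) (.e (nat_lit 1859) (nat_lit 124) (.e (nat_lit 557105) (nat_lit 14) (.e (nat_lit 180252) (nat_lit 10) (.e (nat_lit 573482) (nat_lit 13) .nil)))) .nil)) 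
(.lf (nat_lit 84580) (.g (nat_lit 1377) (.e (nat_lit 1859) (nat_lit 124) (.e (nat_lit 557105) (nat_lit 14) (.e (nat_lit 180277) (nat_lit 32) (.e (nat_lit 1252) (nat_lit 92) (.e (nat_lit 98380) (nat_lit 31) (.e (nat_lit 474880) (nat_lit 0) .nil)))))) (.g (nat_lit 5) .nil .nil)))) (.nd (nat_lit 5) 
(.lf (nat_lit 84564) (.g (nat_lit 4438) (.e (nat_lit 1859) (nat_lit 124) (.e (nat_lit 557105) (nat_lit 14) (.e (nat_lit 180252) (nat_lit 10) (.e (nat_lit 573489) (nat_lit 14) (.e (nat_lit 73755) (nat_lit 8) (.e (nat_lit 557090) (nat_lit 12) (.e (nat_lit 163843) (nat_lit 0) (.e (nat_lit 5207) (nat_lit 295) (.e (nat_lit 122884) (nat_lit 0) .nil))))))))) (.g (nat_lit 7) .nil .nil))) 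
(.lf (nat_lit 84596) (.g (nat_lit 1054) (.e (nat_lit 1859) (nat_lit 124) (.e (nat_lit 557105) (nat_lit 14) (.e (nat_lit 188160) (nat_lit 35) (.e (nat_lit 57464) (nat_lit 23) (.e (nat_lit 516162) (nat_lit 11) (.e (nat_lit 450304) (nat_lit 0) .nil)))))) (.g (nat_lit 5) .nil .nil))))) (.nd (nat_lit 4) (.nd (nat_lit 5) 
(.lf (nat_lit 84556) (.g (nat_lit 2578) (.e (nat_lit 1859) (nat_lit 124) (.e (nat_lit 557105) (nat_lit 14) (.e (nat_lit 180252) (nat_lit 10) (.e (nat_lit 573488) (nat_lit 14) (.e (nat_lit 73747) (nat_lit 3) (.e (nat_lit 516119) (nat_lit 1) (.e (nat_lit 164176) (nat_lit 154) (.e (nat_lit 57357) (nat_lit 0) .nil)))))))) (.g (nat_lit 4) .nil .nil))) 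
(.lf (nat_lit 84588) (.g (nat_lit 1621) (.e (nat_lit 1859) (nat_lit 124) (.e (nat_lit 557105) (nat_lit 14) (.e (nat_lit 180277) (nat_lit 32) (.e (nat_lit 1253) (nat_lit 92) (.e (nat_lit 98381) (nat_lit 31) (.e (nat_lit 474880) (nat_lit 0) .nil)))))) (.g (nat_lit 5) .nil .nil)))) (.nd (nat_lit 5) 
(.lf (nat_lit 84572) (.g (nat_lit 1191) (.e (nat_lit 1859) (nat_lit 124) (.e (nat_lit 557105) (nat_lit 14) (.e (nat_lit 180265) (nat_lit 21) (.e (nat_lit 663552) (nat_lit 0) .nil)))) .nil)) 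
(.lf (nat_lit 84604) (.g (nat_lit 1423) (.e (nat_lit 1859) (nat_lit 124) (.e (nat_lit 557105) (nat_lit 14) (.e (nat_lit 188160) (nat_lit 38) (.e (nat_lit 122936) (nat_lit 23) (.e (nat_lit 516174) (nat_lit 14) (.e (nat_lit 474880) (nat_lit 0) .nil)))))) (.g (nat_lit 5) .nil .nil))))))) (.nd (nat_lit 2) (.nd (nat_lit 3) (.nd (nat_lit 4) (.nd (nat_lit 5) 
(.lf (nat_lit 84546) (.g (nat_lit 2883) (.e (nat_lit 1859) (nat_lit 124) (.e (nat_lit 557105) (nat_lit 14) (.e (nat_lit 180252) (nat_lit 10) (.e (nat_lit 573481) (nat_lit 13) (.e (nat_lit 65570) (nat_lit 3) (.e (nat_lit 98333) (nat_lit 18) (.e (nat_lit 164182) (nat_lit 154) (.e (nat_lit 57357) (nat_lit 0) .nil)))))))) (.g (nat_lit 4) .nil .nil))) 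
(.lf (nat_lit 84578) (.g (nat_lit 1352) (.e (nat_lit 1859) (nat_lit 124) (.e (nat_lit 557105) (nat_lit 14) (.e (nat_lit 180277) (nat_lit 32) (.e (nat_lit 1252) (nat_lit 92) (.e (nat_lit 98369) (nat_lit 28) (.e (nat_lit 450304) (nat_lit 0) .nil)))))) (.g (nat_lit 5) .nil .nil)))) (.nd (nat_lit 5) 
(.lf (nat_lit 84562) (.g (nat_lit 2431) (.e (nat_lit 1859) (nat_lit 124) (.e (nat_lit 557105) (nat_lit 14) (.e (nat_lit 180252) (nat_lit 10) (.e (nat_lit 573489) (nat_lit 14) (.e (nat_lit 73755) (nat_lit 8) (.e (nat_lit 557090) (nat_lit 12) (.e (nat_lit 163841) (nat_lit 0) (.e (nat_lit 5978) (nat_lit 325) (.e (nat_lit 229481) (nat_lit 61) .nil))))))))) (.g (nat_lit 4) .nil .nil))) 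
(.lf (nat_lit 84594) (.g (nat_lit 1561) (.e (nat_lit 1859) (nat_lit 124) (.e (nat_lit 557105) (nat_lit 14) (.e (nat_lit 180278) (nat_lit 32) (.e (nat_lit 1253) (nat_lit 92) (.e (nat_lit 98370) (nat_lit 28) (.e (nat_lit 450304) (nat_lit 0) .nil)))))) (.g (nat_lit 4) .nil .nil))))) (.nd (nat_lit 4) (.nd (nat_lit 5) 
(.lf (nat_lit 84554) (.g (nat_lit 2296) (.e (nat_lit 1859) (nat_lit 124) (.e (nat_lit 557105) (nat_lit 14) (.e (nat_lit 180252) (nat_lit 10) (.e (nat_lit 573488) (nat_lit 14) (.e (nat_lit 73747) (nat_lit 3) .nil))))) .nil)) 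
(.lf (nat_lit 84586) (.g (nat_lit 1216) (.e (nat_lit 1859) (nat_lit 124) (.e (nat_lit 557105) (nat_lit 14) (.e (nat_lit 180277) (nat_lit 32) (.e (nat_lit 1253) (nat_lit 92) (.e (nat_lit 98371) (nat_lit 28) .nil))))) .nil))) (.nd (nat_lit 5) 
(.lf (nat_lit 84570) (.g (nat_lit 3432) (.e (nat_lit 1859) (nat_lit 124) (.e (nat_lit 557105) (nat_lit 14) (.e (nat_lit 180252) (nat_lit 10) (.e (nat_lit 573489) (nat_lit 14) (.e (nat_lit 73755) (nat_lit 8) (.e (nat_lit 557090) (nat_lit 12) (.e (nat_lit 163844) (nat_lit 0) (.e (nat_lit 7936) (nat_lit 325) (.e (nat_lit 229481) (nat_lit 61) .nil))))))))) (.g (nat_lit 7) .nil .nil))) 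
(.lf (nat_lit 84602) (.g (nat_lit 860) (.e (nat_lit 1859) (nat_lit 124) (.e (nat_lit 557105) (nat_lit 14) (.e (nat_lit 188160) (nat_lit 35) (.e (nat_lit 57464) (nat_lit 23) (.e (nat_lit 516177) (nat_lit 14) (.e (nat_lit 474880) (nat_lit 0) .nil)))))) (.g (nat_lit 4) .nil .nil)))))) (.nd (nat_lit 3) (.nd (nat_lit 4) (.nd (nat_lit 5) 
(.lf (nat_lit 84550) (.g (nat_lit 3267) (.e (nat_lit 1859) (nat_lit 124) (.e (nat_lit 557105) (nat_lit 14) (.e (nat_lit 180252) (nat_lit 10) (.e (nat_lit 573482) (nat_lit 13) (.e (nat_lit 73472) (nat_lit 18) .nil))))) .nil)) 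
(.lf (nat_lit 84582) (.g (nat_lit 733) (.e (nat_lit 1859) (nat_lit 124) (.e (nat_lit 557105) (nat_lit 14) (.e (nat_lit 180277) (nat_lit 32) (.e (nat_lit 1253) (nat_lit 92) .nil)))) .nil))) (.nd (nat_lit 5) 
(.lf (nat_lit 84566) (.g (nat_lit 2339) (.e (nat_lit 1859) (nat_lit 124) (.e (nat_lit 557105) (nat_lit 14) (.e (nat_lit 180252) (nat_lit 10) (.e (nat_lit 573489) (nat_lit 14) (.e (nat_lit 73755) (nat_lit 8) (.e (nat_lit 557090) (nat_lit 12) (.e (nat_lit 163844) (nat_lit 0) (.e (nat_lit 5207) (nat_lit 295) (.e (nat_lit 122880) (nat_lit 0) .nil))))))))) (.g (nat_lit 4) .nil .nil))) 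
(.lf (nat_lit 84598) (.g (nat_lit 1295) (.e (nat_lit 1859) (nat_lit 124) (.e (nat_lit 557105) (nat_lit 14) (.e (nat_lit 188160) (nat_lit 35) (.e (nat_lit 57464) (nat_lit 23) (.e (nat_lit 516164) (nat_lit 11) (.e (nat_lit 450304) (nat_lit 0) .nil)))))) (.g (nat_lit 5) .nil .nil))))) (.nd (nat_lit 4) (.nd (nat_lit 5) 
(.lf (nat_lit 84558) (.g (nat_lit 3966) (.e (nat_lit 1859) (nat_lit 124) (.e (nat_lit 557105) (nat_lit 14) (.e (nat_lit 180252) (nat_lit 10) (.e (nat_lit 573488) (nat_lit 14) (.e (nat_lit 73747) (nat_lit 3) (.e (nat_lit 516119) (nat_lit 1) (.e (nat_lit 164184) (nat_lit 155) (.e (nat_lit 122884) (nat_lit 0) .nil)))))))) (.g (nat_lit 6) .nil .nil))) 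
(.lf (nat_lit 84590) (.g (nat_lit 1208) (.e (nat_lit 1859) (nat_lit 124) (.e (nat_lit 557105) (nat_lit 14) (.e (nat_lit 180278) (nat_lit 32) (.e (nat_lit 1252) (nat_lit 92) (.e (nat_lit 98369) (nat_lit 28) .nil))))) .nil))) (.nd (nat_lit 5) 
(.lf (nat_lit 84574) (.g (nat_lit 1336) (.e (nat_lit 1859) (nat_lit 124) (.e (nat_lit 557105) (nat_lit 14) (.e (nat_lit 180275) (nat_lit 32) (.e (nat_lit 1077) (nat_lit 81) (.e (nat_lit 1796) (nat_lit 119) (.e (nat_lit 516175) (nat_lit 14) (.e (nat_lit 474880) (nat_lit 0) .nil))))))) (.g (nat_lit 5) .nil .nil))) 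
(.lf (nat_lit 84606) (.g (nat_lit 2455) (.e (nat_lit 1859) (nat_lit 124) (.e (nat_lit 557107) (nat_lit 15) (.e (nat_lit 188418) (nat_lit 0) (.e (nat_lit 1856) (nat_lit 124) (.e (nat_lit 557107) (nat_lit 15) (.e (nat_lit 196352) (nat_lit 0) .nil)))))) (.g (nat_lit 5) .nil .nil)))))))) (.nd (nat_lit 1) (.nd (nat_lit 2) (.nd (nat_lit 3) (.nd (nat_lit 4) (.nd (nat_lit 5) 
(.lf (nat_lit 84545) (.g (nat_lit 2643) (.e (nat_lit 1859) (nat_lit 124) (.e (nat_lit 557105) (nat_lit 14) (.e (nat_lit 180252) (nat_lit 10) (.e (nat_lit 573481) (nat_lit 13) (.e (nat_lit 65570) (nat_lit 3) .nil))))) .nil)) 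
(.lf (nat_lit 84577) (.g (nat_lit 1778) (.e (nat_lit 1859) (nat_lit 124) (.e (nat_lit 557105) (nat_lit 14) (.e (nat_lit 180277) (nat_lit 32) (.e (nat_lit 1235) (nat_lit 91) (.e (nat_lit 90176) (nat_lit 15) (.e (nat_lit 196352) (nat_lit 0) .nil)))))) (.g (nat_lit 5) .nil .nil)))) (.nd (nat_lit 5) 
(.lf (nat_lit 84561) (.g (nat_lit 2262) (.e (nat_lit 1859) (nat_lit 124) (.e (nat_lit 557105) (nat_lit 14) (.e (nat_lit 180252) (nat_lit 10) (.e (nat_lit 573489) (nat_lit 14) (.e (nat_lit 73755) (nat_lit 8) (.e (nat_lit 557090) (nat_lit 12) (.e (nat_lit 163841) (nat_lit 0) (.e (nat_lit 5976) (nat_lit 325) (.e (nat_lit 229481) (nat_lit 61) .nil))))))))) (.g (nat_lit 4) .nil .nil))) 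
(.lf (nat_lit 84593) (.g (nat_lit 1282) (.e (nat_lit 1859) (nat_lit 124) (.e (nat_lit 557105) (nat_lit 14) (.e (nat_lit 180278) (nat_lit 32) (.e (nat_lit 1253) (nat_lit 92) (.e (nat_lit 98369) (nat_lit 28) .nil))))) .nil)))) (.nd (nat_lit 4) (.nd (nat_lit 5) 
(.lf (nat_lit 84553) (.g (nat_lit 1649) (.e (nat_lit 1859) (nat_lit 124) (.e (nat_lit 557105) (nat_lit 14) (.e (nat_lit 180252) (nat_lit 10) (.e (nat_lit 573488) (nat_lit 14) .nil)))) .nil)) 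
(.lf (nat_lit 84585) (.g (nat_lit 1839) (.e (nat_lit 1859) (nat_lit 124) (.e (nat_lit 557105) (nat_lit 14) (.e (nat_lit 180277) (nat_lit 32) (.e (nat_lit 1253) (nat_lit 92) (.e (nat_lit 98370) (nat_lit 28) (.e (nat_lit 450304) (nat_lit 0) .nil)))))) (.g (nat_lit 5) .nil .nil)))) (.nd (nat_lit 5) 
(.lf (nat_lit 84569) (.g (nat_lit 3588) (.e (nat_lit 1859) (nat_lit 124) (.e (nat_lit 557105) (nat_lit 14) (.e (nat_lit 180252) (nat_lit 10) (.e (nat_lit 573489) (nat_lit 14) (.e (nat_lit 73755) (nat_lit 8) (.e (nat_lit 557090) (nat_lit 12) (.e (nat_lit 163844) (nat_lit 0) (.e (nat_lit 5978) (nat_lit 325) (.e (nat_lit 229481) (nat_lit 61) .nil))))))))) (.g (nat_lit 7) .nil .nil))) 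
(.lf (nat_lit 84601) (.g (nat_lit 1335) (.e (nat_lit 1859) (nat_lit 124) (.e (nat_lit 557105) (nat_lit 14) (.e (nat_lit 188160) (nat_lit 35) (.e (nat_lit 57464) (nat_lit 23) (.e (nat_lit 516176) (nat_lit 14) (.e (nat_lit 474880) (nat_lit 0) .nil)))))) (.g (nat_lit 5) .nil .nil)))))) (.nd (nat_lit 3) (.nd (nat_lit 4) (.nd (nat_lit 5) 
(.lf (nat_lit 84549) (.g (nat_lit 3380) (.e (nat_lit 1859) (nat_lit 124) (.e (nat_lit 557105) (nat_lit 14) (.e (nat_lit 180252) (nat_lit 10) (.e (nat_lit 573482) (nat_lit 13) (.e (nat_lit 65570) (nat_lit 3) .nil))))) .nil)) 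
(.lf (nat_lit 84581) (.g (nat_lit 1457) (.e (nat_lit 1859) (nat_lit 124) (.e (nat_lit 557105) (nat_lit 14) (.e (nat_lit 180277) (nat_lit 32) (.e (nat_lit 1252) (nat_lit 92) (.e (nat_lit 98381) (nat_lit 31) (.e (nat_lit 474880) (nat_lit 0) .nil)))))) (.g (nat_lit 5) .nil .nil)))) (.nd (nat_lit 5) 
(.lf (nat_lit 84565) (.g (nat_lit 3669) (.e (nat_lit 1859) (nat_lit 124) (.e (nat_lit 557105) (nat_lit 14) (.e (nat_lit 180252) (nat_lit 10) (.e (nat_lit 573489) (nat_lit 14) (.e (nat_lit 73755) (nat_lit 8) (.e (nat_lit 557090) (nat_lit 12) (.e (nat_lit 163843) (nat_lit 0) (.e (nat_lit 5975) (nat_lit 325) (.e (nat_lit 229481) (nat_lit 61) .nil))))))))) (.g (nat_lit 6) .nil .nil))) 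
(.lf (nat_lit 84597) (.g (nat_lit 1521) (.e (nat_lit 1859) (nat_lit 124) (.e (nat_lit 557105) (nat_lit 14) (.e (nat_lit 188160) (nat_lit 35) (.e (nat_lit 57464) (nat_lit 23) (.e (nat_lit 516163) (nat_lit 11) (.e (nat_lit 450304) (nat_lit 0) .nil)))))) (.g (nat_lit 5) .nil .nil))))) (.nd (nat_lit 4) (.nd (nat_lit 5) 
(.lf (nat_lit 84557) (.g (nat_lit 2342) (.e (nat_lit 1859) (nat_lit 124) (.e (nat_lit 557105) (nat_lit 14) (.e (nat_lit 180252) (nat_lit 10) (.e (nat_lit 573488) (nat_lit 14) (.e (nat_lit 73747) (nat_lit 3) (.e (nat_lit 516119) (nat_lit 1) (.e (nat_lit 164180) (nat_lit 154) (.e (nat_lit 57357) (nat_lit 0) .nil)))))))) (.g (nat_lit 4) .nil .nil))) 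
(.lf (nat_lit 84589) (.g (nat_lit 1334) (.e (nat_lit 1859) (nat_lit 124) (.e (nat_lit 557105) (nat_lit 14) (.e (nat_lit 180278) (nat_lit 32) (.e (nat_lit 1235) (nat_lit 91) (.e (nat_lit 90178) (nat_lit 15) .nil))))) .nil))) (.nd (nat_lit 5) 
(.lf (nat_lit 84573) (.g (nat_lit 1318) (.e (nat_lit 1859) (nat_lit 124) (.e (nat_lit 557105) (nat_lit 14) (.e (nat_lit 180275) (nat_lit 32) (.e (nat_lit 1074) (nat_lit 81) (.e (nat_lit 1796) (nat_lit 119) (.e (nat_lit 516175) (nat_lit 14) (.e (nat_lit 474880) (nat_lit 0) .nil))))))) (.g (nat_lit 5) .nil .nil))) 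
(.lf (nat_lit 84605) (.g (nat_lit 1760) (.e (nat_lit 1859) (nat_lit 124) (.e (nat_lit 557105) (nat_lit 14) (.e (nat_lit 188160) (nat_lit 38) (.e (nat_lit 122936) (nat_lit 23) (.e (nat_lit 516176) (nat_lit 14) (.e (nat_lit 474880) (nat_lit 0) .nil)))))) (.g (nat_lit 5) .nil .nil))))))) (.nd (nat_lit 2) (.nd (nat_lit 3) (.nd (nat_lit 4) (.nd (nat_lit 5) 
(.lf (nat_lit 84547) (.g (nat_lit 2568) (.e (nat_lit 1859) (nat_lit 124) (.e (nat_lit 557105) (nat_lit 14) (.e (nat_lit 180252) (nat_lit 10) (.e (nat_lit 573481) (nat_lit 13) (.e (nat_lit 73472) (nat_lit 18) (.e (nat_lit 204830) (nat_lit 18) (.e (nat_lit 57852) (nat_lit 252) (.e (nat_lit 57357) (nat_lit 0) .nil)))))))) (.g (nat_lit 4) .nil .nil))) 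
(.lf (nat_lit 84579) (.g (nat_lit 1664) (.e (nat_lit 1859) (nat_lit 124) (.e (nat_lit 557105) (nat_lit 14) (.e (nat_lit 180277) (nat_lit 32) (.e (nat_lit 1252) (nat_lit 92) (.e (nat_lit 98370) (nat_lit 28) (.e (nat_lit 450304) (nat_lit 0) .nil)))))) (.g (nat_lit 5) .nil .nil)))) (.nd (nat_lit 5) 
(.lf (nat_lit 84563) (.g (nat_lit 2403) (.e (nat_lit 1859) (nat_lit 124) (.e (nat_lit 557105) (nat_lit 14) (.e (nat_lit 180252) (nat_lit 10) (.e (nat_lit 573489) (nat_lit 14) (.e (nat_lit 73755) (nat_lit 8) (.e (nat_lit 557090) (nat_lit 12) (.e (nat_lit 163842) (nat_lit 0) (.e (nat_lit 5973) (nat_lit 325) (.e (nat_lit 229481) (nat_lit 61) .nil))))))))) (.g (nat_lit 4) .nil .nil))) 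
(.lf (nat_lit 84595) (.g (nat_lit 2876) (.e (nat_lit 1859) (nat_lit 124) (.e (nat_lit 557105) (nat_lit 14) (.e (nat_lit 188160) (nat_lit 35) (.e (nat_lit 57464) (nat_lit 23) (.e (nat_lit 516151) (nat_lit 9) (.e (nat_lit 426195) (nat_lit 9) (.e (nat_lit 426402) (nat_lit 15) .nil))))))) (.g (nat_lit 5) .nil .nil))))) (.nd (nat_lit 4) (.nd (nat_lit 5) 
(.lf (nat_lit 84555) (.g (nat_lit 2628) (.e (nat_lit 1859) (nat_lit 124) (.e (nat_lit 557105) (nat_lit 14) (.e (nat_lit 180252) (nat_lit 10) (.e (nat_lit 573488) (nat_lit 14) (.e (nat_lit 73747) (nat_lit 3) (.e (nat_lit 516115) (nat_lit 1) (.e (nat_lit 164182) (nat_lit 154) (.e (nat_lit 57357) (nat_lit 0) .nil)))))))) (.g (nat_lit 4) .nil .nil))) 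
(.lf (nat_lit 84587) (.g (nat_lit 1539) (.e (nat_lit 1859) (nat_lit 124) (.e (nat_lit 557105) (nat_lit 14) (.e (nat_lit 180277) (nat_lit 32) (.e (nat_lit 1253) (nat_lit 92) (.e (nat_lit 98380) (nat_lit 31) (.e (nat_lit 474880) (nat_lit 0) .nil)))))) (.g (nat_lit 5) .nil .nil)))) (.nd (nat_lit 5) 
(.lf (nat_lit 84571) (.g (nat_lit 2361) (.e (nat_lit 1859) (nat_lit 124) (.e (nat_lit 557105) (nat_lit 14) (.e (nat_lit 180252) (nat_lit 10) (.e (nat_lit 573489) (nat_lit 14) (.e (nat_lit 73755) (nat_lit 8) (.e (nat_lit 557090) (nat_lit 12) (.e (nat_lit 163851) (nat_lit 0) (.e (nat_lit 5977) (nat_lit 325) (.e (nat_lit 229481) (nat_lit 61) .nil))))))))) (.g (nat_lit 4) .nil .nil))) 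
(.lf (nat_lit 84603) (.g (nat_lit 409) (.e (nat_lit 1859) (nat_lit 124) (.e (nat_lit 557105) (nat_lit 14) (.e (nat_lit 188160) (nat_lit 38) .nil))) .nil))))) (.nd (nat_lit 3) (.nd (nat_lit 4) (.nd (nat_lit 5) 
(.lf (nat_lit 84551) (.g (nat_lit 2698) (.e (nat_lit 1859) (nat_lit 124) (.e (nat_lit 557105) (nat_lit 14) (.e (nat_lit 180252) (nat_lit 10) (.e (nat_lit 573487) (nat_lit 14) (.e (nat_lit 73747) (nat_lit 3) .nil))))) .nil)) 
(.lf (nat_lit 84583) (.g (nat_lit 2446) (.e (nat_lit 1859) (nat_lit 124) (.e (nat_lit 557105) (nat_lit 14) (.e (nat_lit 180277) (nat_lit 32) (.e (nat_lit 1253) (nat_lit 92) (.e (nat_lit 98358) (nat_lit 26) (.e (nat_lit 426227) (nat_lit 9) (.e (nat_lit 433920) (nat_lit 15) .nil))))))) (.g (nat_lit 6) .nil .nil)))) (.nd (nat_lit 5) 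
(.lf (nat_lit 84567) (.g (nat_lit 3610) (.e (nat_lit 1859) (nat_lit 124) (.e (nat_lit 557105) (nat_lit 14) (.e (nat_lit 180252) (nat_lit 10) (.e (nat_lit 573489) (nat_lit 14) (.e (nat_lit 73755) (nat_lit 8) (.e (nat_lit 557090) (nat_lit 12) (.e (nat_lit 163844) (nat_lit 0) (.e (nat_lit 5975) (nat_lit 325) (.e (nat_lit 229481) (nat_lit 61) .nil))))))))) (.g (nat_lit 7) .nil .nil))) 
(.lf (nat_lit 84599) (.g (nat_lit 1390) (.e (nat_lit 1859) (nat_lit 124) (.e (nat_lit 557105) (nat_lit 14) (.e (nat_lit 188160) (nat_lit 35) (.e (nat_lit 57464) (nat_lit 23) (.e (nat_lit 516174) (nat_lit 14) (.e (nat_lit 474880) (nat_lit 0) .nil)))))) (.g (nat_lit 5) .nil .nil))))) (.nd (nat_lit 4) (.nd (nat_lit 5) 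
(.lf (nat_lit 84559) (.g (nat_lit 1759) (.e (nat_lit 1859) (nat_lit 124) (.e (nat_lit 557105) (nat_lit 14) (.e (nat_lit 180252) (nat_lit 10) (.e (nat_lit 573489) (nat_lit 14) .nil)))) .nil)) 
(.lf (nat_lit 84591) (.g (nat_lit 1448) (.e (nat_lit 1859) (nat_lit 124) (.e (nat_lit 557105) (nat_lit 14) (.e (nat_lit 180278) (nat_lit 32) (.e (nat_lit 1252) (nat_lit 92) (.e (nat_lit 98370) (nat_lit 28) (.e (nat_lit 450304) (nat_lit 0) .nil)))))) (.g (nat_lit 4) .nil .nil)))) (.nd (nat_lit 5) 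
(.lf (nat_lit 84575) (.g (nat_lit 2166) (.e (nat_lit 1859) (nat_lit 124) (.e (nat_lit 557105) (nat_lit 14) (.e (nat_lit 180277) (nat_lit 32) (.e (nat_lit 1235) (nat_lit 91) (.e (nat_lit 90134) (nat_lit 9) (.e (nat_lit 3002) (nat_lit 186) (.e (nat_lit 450304) (nat_lit 0) .nil))))))) (.g (nat_lit 6) .nil .nil))) 
(.lf (nat_lit 84607) (.g (nat_lit 2601) (.e (nat_lit 1859) (nat_lit 124) (.e (nat_lit 557107) (nat_lit 15) (.e (nat_lit 188418) (nat_lit 0) (.e (nat_lit 1856) (nat_lit 124) (.e (nat_lit 557109) (nat_lit 15) (.e (nat_lit 196352) (nat_lit 0) .nil)))))) (.g (nat_lit 5) .nil .nil)))))))))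

noncomputable def tv1146 : DT := (.nd (nat_lit 0) (.nd (nat_lit 1) (.nd (nat_lit 2) (.nd (nat_lit 3) (.nd (nat_lit 4) (.nd (nat_lit 5) 
(.lf (nat_lit 84608) (.g (nat_lit 2215) (.e (nat_lit 1859) (nat_lit 124) (.e (nat_lit 557107) (nat_lit 15) (.e (nat_lit 188420) (nat_lit 0) (.e (nat_lit 1855) (nat_lit 124) (.e (nat_lit 557107) (nat_lit 15) (.e (nat_lit 196352) (nat_lit 0) .nil)))))) (.g (nat_lit 5) .nil .nil))) 
(.lf (nat_lit 84640) (.g (nat_lit 1630) (.e (nat_lit 1859) (nat_lit 124) (.e (nat_lit 557107) (nat_lit 15) (.e (nat_lit 188440) (nat_lit 20) (.e (nat_lit 3271) (nat_lit 199) (.e (nat_lit 548898) (nat_lit 14) (.e (nat_lit 3005) (nat_lit 186) (.e (nat_lit 450304) (nat_lit 0) .nil))))))) (.g (nat_lit 4) .nil .nil)))) (.nd (nat_lit 5) 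
(.lf (nat_lit 84624) (.g (nat_lit 1748) (.e (nat_lit 1859) (nat_lit 124) (.e (nat_lit 557107) (nat_lit 15) (.e (nat_lit 188439) (nat_lit 20) (.e (nat_lit 3271) (nat_lit 199) (.e (nat_lit 548915) (nat_lit 20) (.e (nat_lit 196352) (nat_lit 0) .nil)))))) (.g (nat_lit 5) .nil .nil))) 
(.lf (nat_lit 84656) (.g (nat_lit 1488) (.e (nat_lit 1859) (nat_lit 124) (.e (nat_lit 557107) (nat_lit 15) (.e (nat_lit 188447) (nat_lit 22) (.e (nat_lit 196628) (nat_lit 9) .nil)))) .nil)))) (.nd (nat_lit 4) (.nd (nat_lit 5) 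
(.lf (nat_lit 84616) (.g (nat_lit 370) (.e (nat_lit 1859) (nat_lit 124) (.e (nat_lit 557107) (nat_lit 15) (.e (nat_lit 188439) (nat_lit 20) .nil))) .nil)) 
(.lf (nat_lit 84648) (.g (nat_lit 1121) (.e (nat_lit 1859) (nat_lit 124) (.e (nat_lit 557107) (nat_lit 15) (.e (nat_lit 188441) (nat_lit 20) (.e (nat_lit 3271) (nat_lit 199) (.e (nat_lit 548898) (nat_lit 14) .nil))))) .nil))) (.nd (nat_lit 5) 
(.lf (nat_lit 84632) (.g (nat_lit 2080) (.e (nat_lit 1859) (nat_lit 124) (.e (nat_lit 557107) (nat_lit 15) (.e (nat_lit 188439) (nat_lit 20) (.e (nat_lit 3272) (nat_lit 199) (.e (nat_lit 548898) (nat_lit 14) (.e (nat_lit 3005) (nat_lit 186) (.e (nat_lit 450304) (nat_lit 0) .nil))))))) (.g (nat_lit 6) .nil .nil))) 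
(.lf (nat_lit 84664) (.g (nat_lit 1725) (.e (nat_lit 1859) (nat_lit 124) (.e (nat_lit 557107) (nat_lit 15) (.e (nat_lit 188447) (nat_lit 22) (.e (nat_lit 196661) (nat_lit 12) (.e (nat_lit 65280) (nat_lit 208) (.e (nat_lit 245504) (nat_lit 15) .nil)))))) (.g (nat_lit 4) .nil .nil)))))) (.nd (nat_lit 3) (.nd (nat_lit 4) (.nd (nat_lit 5) 
(.lf (nat_lit 84612) (.g (nat_lit 1562) (.e (nat_lit 1859) (nat_lit 124) (.e (nat_lit 557107) (nat_lit 15) (.e (nat_lit 196352) (nat_lit 0) (.e (nat_lit 1858) (nat_lit 124) (.e (nat_lit 557107) (nat_lit 15) (.e (nat_lit 196352) (nat_lit 0) .nil)))))) (.g (nat_lit 4) .nil .nil))) 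
(.lf (nat_lit 84644) (.g (nat_lit 2260) (.e (nat_lit 1859) (nat_lit 124) (.e (nat_lit 557107) (nat_lit 15) (.e (nat_lit 188440) (nat_lit 20) (.e (nat_lit 3307) (nat_lit 202) (.e (nat_lit 573456) (nat_lit 9) .nil))))) .nil))) (.nd (nat_lit 5) 
(.lf (nat_lit 84628) (.g (nat_lit 1300) (.e (nat_lit 1859) (nat_lit 124) (.e (nat_lit 557107) (nat_lit 15) (.e (nat_lit 188439) (nat_lit 20) (.e (nat_lit 3272) (nat_lit 199) (.e (nat_lit 548896) (nat_lit 14) (.e (nat_lit 3005) (nat_lit 186) (.e (nat_lit 450304) (nat_lit 0) .nil))))))) (.g (nat_lit 5) .nil .nil))) 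
(.lf (nat_lit 84660) (.g (nat_lit 3762) (.e (nat_lit 1859) (nat_lit 124) (.e (nat_lit 557107) (nat_lit 15) (.e (nat_lit 188447) (nat_lit 22) (.e (nat_lit 196630) (nat_lit 9) (.e (nat_lit 1669) (nat_lit 116) (.e (nat_lit 401437) (nat_lit 9) (.e (nat_lit 426402) (nat_lit 15) .nil))))))) (.g (nat_lit 7) .nil .nil))))) (.nd (nat_lit 4) (.nd (nat_lit 5) 
(.lf (nat_lit 84620) (.g (nat_lit 1580) (.e (nat_lit 1859) (nat_lit 124) (.e (nat_lit 557107) (nat_lit 15) (.e (nat_lit 188439) (nat_lit 20) (.e (nat_lit 3270) (nat_lit 199) (.e (nat_lit 548915) (nat_lit 20) (.e (nat_lit 196352) (nat_lit 0) .nil)))))) (.g (nat_lit 5) .nil .nil))) 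
(.lf (nat_lit 84652) (.g (nat_lit 1737) (.e (nat_lit 1859) (nat_lit 124) (.e (nat_lit 557107) (nat_lit 15) (.e (nat_lit 188441) (nat_lit 20) (.e (nat_lit 3272) (nat_lit 199) (.e (nat_lit 548897) (nat_lit 14) (.e (nat_lit 3005) (nat_lit 186) (.e (nat_lit 450304) (nat_lit 0) .nil))))))) (.g (nat_lit 5) .nil .nil)))) (.nd (nat_lit 5) 
(.lf (nat_lit 84636) (.g (nat_lit 2744) (.e (nat_lit 1859) (nat_lit 124) (.e (nat_lit 557107) (nat_lit 15) (.e (nat_lit 188439) (nat_lit 20) (.e (nat_lit 3272) (nat_lit 199) (.e (nat_lit 548913) (nat_lit 18) (.e (nat_lit 172095) (nat_lit 9) (.e (nat_lit 433920) (nat_lit 15) .nil))))))) (.g (nat_lit 6) .nil .nil))) 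
(.lf (nat_lit 84668) (.g (nat_lit 1975) (.e (nat_lit 1859) (nat_lit 124) (.e (nat_lit 557107) (nat_lit 15) (.e (nat_lit 188450) (nat_lit 23) (.e (nat_lit 204816) (nat_lit 17) (.e (nat_lit 6718) (nat_lit 361) (.e (nat_lit 179968) (nat_lit 15) .nil)))))) (.g (nat_lit 5) .nil .nil))))))) (.nd (nat_lit 2) (.nd (nat_lit 3) (.nd (nat_lit 4) (.nd (nat_lit 5) 
(.lf (nat_lit 84610) (.g (nat_lit 2341) (.e (nat_lit 1859) (nat_lit 124) (.e (nat_lit 557107) (nat_lit 15) (.e (nat_lit 188420) (nat_lit 0) (.e (nat_lit 1856) (nat_lit 124) (.e (nat_lit 557107) (nat_lit 15) (.e (nat_lit 196352) (nat_lit 0) .nil)))))) (.g (nat_lit 5) .nil .nil))) 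
(.lf (nat_lit 84642) (.g (nat_lit 1052) (.e (nat_lit 1859) (nat_lit 124) (.e (nat_lit 557107) (nat_lit 15) (.e (nat_lit 188440) (nat_lit 20) (.e (nat_lit 3272) (nat_lit 199) .nil)))) .nil))) (.nd (nat_lit 5) 
(.lf (nat_lit 84626) (.g (nat_lit 1399) (.e (nat_lit 1859) (nat_lit 124) (.e (nat_lit 557107) (nat_lit 15) (.e (nat_lit 188439) (nat_lit 20) (.e (nat_lit 3272) (nat_lit 199) (.e (nat_lit 548896) (nat_lit 14) (.e (nat_lit 2982) (nat_lit 186) (.e (nat_lit 450304) (nat_lit 0) .nil))))))) (.g (nat_lit 5) .nil .nil))) 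
(.lf (nat_lit 84658) (.g (nat_lit 1958) (.e (nat_lit 1859) (nat_lit 124) (.e (nat_lit 557107) (nat_lit 15) (.e (nat_lit 188447) (nat_lit 22) (.e (nat_lit 196630) (nat_lit 9) (.e (nat_lit 1667) (nat_lit 116) .nil))))) .nil)))) (.nd (nat_lit 4) (.nd (nat_lit 5) 
(.lf (nat_lit 84618) (.g (nat_lit 1632) (.e (nat_lit 1859) (nat_lit 124) (.e (nat_lit 557107) (nat_lit 15) (.e (nat_lit 188439) (nat_lit 20) (.e (nat_lit 3270) (nat_lit 199) (.e (nat_lit 548898) (nat_lit 14) (.e (nat_lit 3005) (nat_lit 186) (.e (nat_lit 450304) (nat_lit 0) .nil))))))) (.g (nat_lit 5) .nil .nil))) 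
(.lf (nat_lit 84650) (.g (nat_lit 1576) (.e (nat_lit 1859) (nat_lit 124) (.e (nat_lit 557107) (nat_lit 15) (.e (nat_lit 188441) (nat_lit 20) (.e (nat_lit 3272) (nat_lit 199) (.e (nat_lit 548896) (nat_lit 14) .nil))))) .nil))) (.nd (nat_lit 5) 
(.lf (nat_lit 84634) (.g (nat_lit 2632) (.e (nat_lit 1859) (nat_lit 124) (.e (nat_lit 557107) (nat_lit 15) (.e (nat_lit 188439) (nat_lit 20) (.e (nat_lit 3272) (nat_lit 199) (.e (nat_lit 548913) (nat_lit 18) (.e (nat_lit 172087) (nat_lit 9) (.e (nat_lit 426399) (nat_lit 15) .nil))))))) (.g (nat_lit 6) .nil .nil))) 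
(.lf (nat_lit 84666) (.g (nat_lit 1839) (.e (nat_lit 1859) (nat_lit 124) (.e (nat_lit 557107) (nat_lit 15) (.e (nat_lit 188450) (nat_lit 23) (.e (nat_lit 204815) (nat_lit 17) (.e (nat_lit 6718) (nat_lit 361) (.e (nat_lit 179968) (nat_lit 15) .nil)))))) (.g (nat_lit 5) .nil .nil)))))) (.nd (nat_lit 3) (.nd (nat_lit 4) (.nd (nat_lit 5) 
(.lf (nat_lit 84614) (.g (nat_lit 2008) (.e (nat_lit 1859) (nat_lit 124) (.e (nat_lit 557107) (nat_lit 15) (.e (nat_lit 196352) (nat_lit 0) (.e (nat_lit 1859) (nat_lit 124) (.e (nat_lit 557109) (nat_lit 15) (.e (nat_lit 196352) (nat_lit 0) .nil)))))) (.g (nat_lit 5) .nil .nil))) 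
(.lf (nat_lit 84646) (.g (nat_lit 3227) (.e (nat_lit 1859) (nat_lit 124) (.e (nat_lit 557107) (nat_lit 15) (.e (nat_lit 188440) (nat_lit 20) (.e (nat_lit 3307) (nat_lit 202) (.e (nat_lit 573469) (nat_lit 11) (.e (nat_lit 16438) (nat_lit 9) (.e (nat_lit 426402) (nat_lit 15) .nil))))))) (.g (nat_lit 5) .nil .nil)))) (.nd (nat_lit 5) 
(.lf (nat_lit 84630) (.g (nat_lit 1568) (.e (nat_lit 1859) (nat_lit 124) (.e (nat_lit 557107) (nat_lit 15) (.e (nat_lit 188439) (nat_lit 20) (.e (nat_lit 3272) (nat_lit 199) (.e (nat_lit 548897) (nat_lit 14) (.e (nat_lit 3005) (nat_lit 186) (.e (nat_lit 450304) (nat_lit 0) .nil))))))) (.g (nat_lit 5) .nil .nil))) 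
(.lf (nat_lit 84662) (.g (nat_lit 1915) (.e (nat_lit 1859) (nat_lit 124) (.e (nat_lit 557107) (nat_lit 15) (.e (nat_lit 188447) (nat_lit 22) (.e (nat_lit 196661) (nat_lit 12) (.e (nat_lit 57712) (nat_lit 176) (.e (nat_lit 1378) (nat_lit 104) (.e (nat_lit 311040) (nat_lit 15) .nil))))))) (.g (nat_lit 5) .nil .nil))))) (.nd (nat_lit 4) (.nd (nat_lit 5) 
(.lf (nat_lit 84622) (.g (nat_lit 1676) (.e (nat_lit 1859) (nat_lit 124) (.e (nat_lit 557107) (nat_lit 15) (.e (nat_lit 188439) (nat_lit 20) (.e (nat_lit 3271) (nat_lit 199) (.e (nat_lit 548898) (nat_lit 14) (.e (nat_lit 3005) (nat_lit 186) (.e (nat_lit 450304) (nat_lit 0) .nil))))))) (.g (nat_lit 6) .nil .nil))) 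
(.lf (nat_lit 84654) (.g (nat_lit 2373) (.e (nat_lit 1859) (nat_lit 124) (.e (nat_lit 557107) (nat_lit 15) (.e (nat_lit 188441) (nat_lit 20) (.e (nat_lit 3272) (nat_lit 199) (.e (nat_lit 548898) (nat_lit 14) (.e (nat_lit 2998) (nat_lit 186) (.e (nat_lit 450304) (nat_lit 0) .nil))))))) (.g (nat_lit 6) .nil .nil)))) (.nd (nat_lit 5) 
(.lf (nat_lit 84638) (.g (nat_lit 502) (.e (nat_lit 1859) (nat_lit 124) (.e (nat_lit 557107) (nat_lit 15) (.e (nat_lit 188440) (nat_lit 20) .nil))) .nil)) 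
(.lf (nat_lit 84670) (.g (nat_lit 1051) (.e (nat_lit 1859) (nat_lit 124) (.e (nat_lit 557107) (nat_lit 15) (.e (nat_lit 188450) (nat_lit 23) (.e (nat_lit 204817) (nat_lit 17) .nil)))) .nil))))))) (.nd (nat_lit 1) (.nd (nat_lit 2) (.nd (nat_lit 3) (.nd (nat_lit 4) (.nd (nat_lit 5) 
(.lf (nat_lit 84609) (.g (nat_lit 2511) (.e (nat_lit 1859) (nat_lit 124) (.e (nat_lit 557107) (nat_lit 15) (.e (nat_lit 188420) (nat_lit 0) (.e (nat_lit 1855) (nat_lit 124) (.e (nat_lit 557109) (nat_lit 15) (.e (nat_lit 196352) (nat_lit 0) .nil)))))) (.g (nat_lit 5) .nil .nil))) 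
(.lf (nat_lit 84641) (.g (nat_lit 1978) (.e (nat_lit 1859) (nat_lit 124) (.e (nat_lit 557107) (nat_lit 15) (.e (nat_lit 188440) (nat_lit 20) (.e (nat_lit 3271) (nat_lit 199) (.e (nat_lit 548913) (nat_lit 18) (.e (nat_lit 172087) (nat_lit 9) (.e (nat_lit 426363) (nat_lit 15) .nil))))))) (.g (nat_lit 5) .nil .nil)))) (.nd (nat_lit 5) 
(.lf (nat_lit 84625) (.g (nat_lit 559) (.e (nat_lit 1859) (nat_lit 124) (.e (nat_lit 557107) (nat_lit 15) (.e (nat_lit 188439) (nat_lit 20) (.e (nat_lit 3272) (nat_lit 199) .nil)))) .nil)) 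
(.lf (nat_lit 84657) (.g (nat_lit 2189) (.e (nat_lit 1859) (nat_lit 124) (.e (nat_lit 557107) (nat_lit 15) (.e (nat_lit 188447) (nat_lit 22) (.e (nat_lit 196628) (nat_lit 9) (.e (nat_lit 968) (nat_lit 81) (.e (nat_lit 6719) (nat_lit 361) (.e (nat_lit 179968) (nat_lit 15) .nil))))))) (.g (nat_lit 5) .nil .nil))))) (.nd (nat_lit 4) (.nd (nat_lit 5) 
(.lf (nat_lit 84617) (.g (nat_lit 1729) (.e (nat_lit 1859) (nat_lit 124) (.e (nat_lit 557107) (nat_lit 15) (.e (nat_lit 188439) (nat_lit 20) (.e (nat_lit 3270) (nat_lit 199) (.e (nat_lit 548898) (nat_lit 14) (.e (nat_lit 2998) (nat_lit 186) (.e (nat_lit 450304) (nat_lit 0) .nil))))))) (.g (nat_lit 6) .nil .nil))) 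
(.lf (nat_lit 84649) (.g (nat_lit 1127) (.e (nat_lit 1859) (nat_lit 124) (.e (nat_lit 557107) (nat_lit 15) (.e (nat_lit 188441) (nat_lit 20) (.e (nat_lit 3271) (nat_lit 199) (.e (nat_lit 548913) (nat_lit 18) .nil))))) .nil))) (.nd (nat_lit 5) 
(.lf (nat_lit 84633) (.g (nat_lit 2288) (.e (nat_lit 1859) (nat_lit 124) (.e (nat_lit 557107) (nat_lit 15) (.e (nat_lit 188439) (nat_lit 20) (.e (nat_lit 3272) (nat_lit 199) (.e (nat_lit 548913) (nat_lit 18) (.e (nat_lit 172087) (nat_lit 9) (.e (nat_lit 426360) (nat_lit 15) .nil))))))) (.g (nat_lit 5) .nil .nil))) 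
(.lf (nat_lit 84665) (.g (nat_lit 401) (.e (nat_lit 1859) (nat_lit 124) (.e (nat_lit 557107) (nat_lit 15) (.e (nat_lit 188450) (nat_lit 23) .nil))) .nil))))) (.nd (nat_lit 3) (.nd (nat_lit 4) (.nd (nat_lit 5) 
(.lf (nat_lit 84613) (.g (nat_lit 1840) (.e (nat_lit 1859) (nat_lit 124) (.e (nat_lit 557107) (nat_lit 15) (.e (nat_lit 196352) (nat_lit 0) (.e (nat_lit 1859) (nat_lit 124) (.e (nat_lit 557107) (nat_lit 15) (.e (nat_lit 196352) (nat_lit 0) .nil)))))) (.g (nat_lit 5) .nil .nil))) 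
(.lf (nat_lit 84645) (.g (nat_lit 2220) (.e (nat_lit 1859) (nat_lit 124) (.e (nat_lit 557107) (nat_lit 15) (.e (nat_lit 188440) (nat_lit 20) (.e (nat_lit 3307) (nat_lit 202) (.e (nat_lit 573469) (nat_lit 11) .nil))))) .nil))) (.nd (nat_lit 5) 
(.lf (nat_lit 84629) (.g (nat_lit 1539) (.e (nat_lit 1859) (nat_lit 124) (.e (nat_lit 557107) (nat_lit 15) (.e (nat_lit 188439) (nat_lit 20) (.e (nat_lit 3272) (nat_lit 199) (.e (nat_lit 548897) (nat_lit 14) (.e (nat_lit 2998) (nat_lit 186) (.e (nat_lit 450304) (nat_lit 0) .nil))))))) (.g (nat_lit 6) .nil .nil))) 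
(.lf (nat_lit 84661) (.g (nat_lit 1197) (.e (nat_lit 1859) (nat_lit 124) (.e (nat_lit 557107) (nat_lit 15) (.e (nat_lit 188447) (nat_lit 22) (.e (nat_lit 196661) (nat_lit 12) .nil)))) .nil)))) (.nd (nat_lit 4) (.nd (nat_lit 5) 
(.lf (nat_lit 84621) (.g (nat_lit 1709) (.e (nat_lit 1859) (nat_lit 124) (.e (nat_lit 557107) (nat_lit 15) (.e (nat_lit 188439) (nat_lit 20) (.e (nat_lit 3271) (nat_lit 199) (.e (nat_lit 548898) (nat_lit 14) (.e (nat_lit 2998) (nat_lit 186) (.e (nat_lit 450304) (nat_lit 0) .nil))))))) (.g (nat_lit 6) .nil .nil))) 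
(.lf (nat_lit 84653) (.g (nat_lit 1384) (.e (nat_lit 1859) (nat_lit 124) (.e (nat_lit 557107) (nat_lit 15) (.e (nat_lit 188441) (nat_lit 20) (.e (nat_lit 3272) (nat_lit 199) (.e (nat_lit 548898) (nat_lit 14) .nil))))) .nil))) (.nd (nat_lit 5) 
(.lf (nat_lit 84637) (.g (nat_lit 1955) (.e (nat_lit 1859) (nat_lit 124) (.e (nat_lit 557107) (nat_lit 15) (.e (nat_lit 188439) (nat_lit 20) (.e (nat_lit 3272) (nat_lit 199) (.e (nat_lit 548915) (nat_lit 20) (.e (nat_lit 196352) (nat_lit 0) .nil)))))) (.g (nat_lit 5) .nil .nil))) 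
(.lf (nat_lit 84669) (.g (nat_lit 2018) (.e (nat_lit 1859) (nat_lit 124) (.e (nat_lit 557107) (nat_lit 15) (.e (nat_lit 188450) (nat_lit 23) (.e (nat_lit 204816) (nat_lit 17) (.e (nat_lit 6720) (nat_lit 361) (.e (nat_lit 179968) (nat_lit 15) .nil)))))) (.g (nat_lit 5) .nil .nil))))))) (.nd (nat_lit 2) (.nd (nat_lit 3) (.nd (nat_lit 4) (.nd (nat_lit 5) 
(.lf (nat_lit 84611) (.g (nat_lit 2345) (.e (nat_lit 1859) (nat_lit 124) (.e (nat_lit 557107) (nat_lit 15) (.e (nat_lit 188420) (nat_lit 0) (.e (nat_lit 1856) (nat_lit 124) (.e (nat_lit 557109) (nat_lit 15) (.e (nat_lit 196352) (nat_lit 0) .nil)))))) (.g (nat_lit 5) .nil .nil))) 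
(.lf (nat_lit 84643) (.g (nat_lit 1647) (.e (nat_lit 1859) (nat_lit 124) (.e (nat_lit 557107) (nat_lit 15) (.e (nat_lit 188440) (nat_lit 20) (.e (nat_lit 3272) (nat_lit 199) (.e (nat_lit 548897) (nat_lit 14) .nil))))) .nil))) (.nd (nat_lit 5) 
(.lf (nat_lit 84627) (.g (nat_lit 1595) (.e (nat_lit 1859) (nat_lit 124) (.e (nat_lit 557107) (nat_lit 15) (.e (nat_lit 188439) (nat_lit 20) (.e (nat_lit 3272) (nat_lit 199) (.e (nat_lit 548896) (nat_lit 14) (.e (nat_lit 2998) (nat_lit 186) (.e (nat_lit 450304) (nat_lit 0) .nil))))))) (.g (nat_lit 6) .nil .nil))) 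
(.lf (nat_lit 84659) (.g (nat_lit 2606) (.e (nat_lit 1859) (nat_lit 124) (.e (nat_lit 557107) (nat_lit 15) (.e (nat_lit 188447) (nat_lit 22) (.e (nat_lit 196630) (nat_lit 9) (.e (nat_lit 1669) (nat_lit 116) (.e (nat_lit 401436) (nat_lit 9) (.e (nat_lit 426402) (nat_lit 15) .nil))))))) (.g (nat_lit 5) .nil .nil))))) (.nd (nat_lit 4) (.nd (nat_lit 5) 
(.lf (nat_lit 84619) (.g (nat_lit 1934) (.e (nat_lit 1859) (nat_lit 124) (.e (nat_lit 557107) (nat_lit 15) (.e (nat_lit 188439) (nat_lit 20) (.e (nat_lit 3270) (nat_lit 199) (.e (nat_lit 548913) (nat_lit 18) (.e (nat_lit 172087) (nat_lit 9) (.e (nat_lit 426399) (nat_lit 15) .nil))))))) (.g (nat_lit 5) .nil .nil))) 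
(.lf (nat_lit 84651) (.g (nat_lit 1847) (.e (nat_lit 1859) (nat_lit 124) (.e (nat_lit 557107) (nat_lit 15) (.e (nat_lit 188441) (nat_lit 20) (.e (nat_lit 3272) (nat_lit 199) (.e (nat_lit 548897) (nat_lit 14) (.e (nat_lit 2998) (nat_lit 186) (.e (nat_lit 450304) (nat_lit 0) .nil))))))) (.g (nat_lit 6) .nil .nil)))) (.nd (nat_lit 5) 
(.lf (nat_lit 84635) (.g (nat_lit 2366) (.e (nat_lit 1859) (nat_lit 124) (.e (nat_lit 557107) (nat_lit 15) (.e (nat_lit 188439) (nat_lit 20) (.e (nat_lit 3272) (nat_lit 199) (.e (nat_lit 548913) (nat_lit 18) (.e (nat_lit 172088) (nat_lit 9) (.e (nat_lit 433920) (nat_lit 15) .nil))))))) (.g (nat_lit 6) .nil .nil))) 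
(.lf (nat_lit 84667) (.g (nat_lit 1872) (.e (nat_lit 1859) (nat_lit 124) (.e (nat_lit 557107) (nat_lit 15) (.e (nat_lit 188450) (nat_lit 23) (.e (nat_lit 204815) (nat_lit 17) (.e (nat_lit 6720) (nat_lit 361) (.e (nat_lit 179968) (nat_lit 15) .nil)))))) (.g (nat_lit 5) .nil .nil)))))) (.nd (nat_lit 3) (.nd (nat_lit 4) (.nd (nat_lit 5) 
(.lf (nat_lit 84615) (.g (nat_lit 1239) (.e (nat_lit 1859) (nat_lit 124) (.e (nat_lit 557107) (nat_lit 15) (.e (nat_lit 196352) (nat_lit 0) (.e (nat_lit 1860) (nat_lit 124) (.e (nat_lit 557109) (nat_lit 15) (.e (nat_lit 196352) (nat_lit 0) .nil)))))) (.g (nat_lit 4) .nil .nil))) 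
(.lf (nat_lit 84647) (.g (nat_lit 2145) (.e (nat_lit 1859) (nat_lit 124) (.e (nat_lit 557107) (nat_lit 15) (.e (nat_lit 188440) (nat_lit 20) (.e (nat_lit 3307) (nat_lit 202) (.e (nat_lit 573470) (nat_lit 11) .nil))))) .nil))) (.nd (nat_lit 5) 
(.lf (nat_lit 84631) (.g (nat_lit 2118) (.e (nat_lit 1859) (nat_lit 124) (.e (nat_lit 557107) (nat_lit 15) (.e (nat_lit 188439) (nat_lit 20) (.e (nat_lit 3272) (nat_lit 199) (.e (nat_lit 548898) (nat_lit 14) (.e (nat_lit 2998) (nat_lit 186) (.e (nat_lit 450304) (nat_lit 0) .nil))))))) (.g (nat_lit 6) .nil .nil))) 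
(.lf (nat_lit 84663) (.g (nat_lit 1725) (.e (nat_lit 1859) (nat_lit 124) (.e (nat_lit 557107) (nat_lit 15) (.e (nat_lit 188447) (nat_lit 22) (.e (nat_lit 196661) (nat_lit 12) (.e (nat_lit 65280) (nat_lit 205) (.e (nat_lit 179968) (nat_lit 15) .nil)))))) (.g (nat_lit 4) .nil .nil))))) (.nd (nat_lit 4) (.nd (nat_lit 5) 
(.lf (nat_lit 84623) (.g (nat_lit 1573) (.e (nat_lit 1859) (nat_lit 124) (.e (nat_lit 557107) (nat_lit 15) (.e (nat_lit 188439) (nat_lit 20) (.e (nat_lit 3271) (nat_lit 199) (.e (nat_lit 548913) (nat_lit 18) (.e (nat_lit 172087) (nat_lit 9) (.e (nat_lit 426360) (nat_lit 15) .nil))))))) (.g (nat_lit 5) .nil .nil))) 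
(.lf (nat_lit 84655) (.g (nat_lit 2266) (.e (nat_lit 1859) (nat_lit 124) (.e (nat_lit 557107) (nat_lit 15) (.e (nat_lit 188441) (nat_lit 20) (.e (nat_lit 3272) (nat_lit 199) (.e (nat_lit 548898) (nat_lit 14) (.e (nat_lit 3005) (nat_lit 186) (.e (nat_lit 450304) (nat_lit 0) .nil))))))) (.g (nat_lit 5) .nil .nil)))) (.nd (nat_lit 5) 
(.lf (nat_lit 84639) (.g (nat_lit 1690) (.e (nat_lit 1859) (nat_lit 124) (.e (nat_lit 557107) (nat_lit 15) (.e (nat_lit 188440) (nat_lit 20) (.e (nat_lit 3271) (nat_lit 199) (.e (nat_lit 548898) (nat_lit 14) (.e (nat_lit 2998) (nat_lit 186) (.e (nat_lit 450304) (nat_lit 0) .nil))))))) (.g (nat_lit 4) .nil .nil))) 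
(.lf (nat_lit 84671) (.g (nat_lit 1656) (.e (nat_lit 1859) (nat_lit 124) (.e (nat_lit 557107) (nat_lit 15) (.e (nat_lit 188450) (nat_lit 23) (.e (nat_lit 204817) (nat_lit 17) (.e (nat_lit 7936) (nat_lit 361) (.e (nat_lit 179968) (nat_lit 15) .nil)))))) (.g (nat_lit 4) .nil .nil)))))))))

noncomputable def tv1147 : DT := (.nd (nat_lit 0) (.nd (nat_lit 1) (.nd (nat_lit 2) (.nd (nat_lit 3) (.nd (nat_lit 4) (.nd (nat_lit 5) 
(.lf (nat_lit 84672) (.g (nat_lit 1091) (.e (nat_lit 1859) (nat_lit 124) (.e (nat_lit 557107) (nat_lit 15) (.e (nat_lit 188450) (nat_lit 23) (.e (nat_lit 204819) (nat_lit 17) .nil)))) .nil)) 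
(.lf (nat_lit 84704) (.g (nat_lit 2171) (.e (nat_lit 1859) (nat_lit 124) (.e (nat_lit 557107) (nat_lit 15) (.e (nat_lit 188452) (nat_lit 23) (.e (nat_lit 204816) (nat_lit 17) .nil)))) .nil))) (.nd (nat_lit 5) 
(.lf (nat_lit 84688) (.g (nat_lit 1159) (.e (nat_lit 1859) (nat_lit 124) (.e (nat_lit 557107) (nat_lit 15) (.e (nat_lit 188450) (nat_lit 23) (.e (nat_lit 204851) (nat_lit 26) .nil)))) .nil)) 
(.lf (nat_lit 84720) (.g (nat_lit 2199) (.e (nat_lit 1859) (nat_lit 124) (.e (nat_lit 557108) (nat_lit 15) (.e (nat_lit 188452) (nat_lit 23) (.e (nat_lit 204815) (nat_lit 17) .nil)))) .nil)))) (.nd (nat_lit 4) (.nd (nat_lit 5) 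
(.lf (nat_lit 84680) (.g (nat_lit 1673) (.e (nat_lit 1859) (nat_lit 124) (.e (nat_lit 557107) (nat_lit 15) (.e (nat_lit 188450) (nat_lit 23) (.e (nat_lit 204821) (nat_lit 17) (.e (nat_lit 6206) (nat_lit 333) (.e (nat_lit 57863) (nat_lit 256) (.e (nat_lit 59) (nat_lit 0) .nil))))))) (.g (nat_lit 5) .nil .nil))) 
(.lf (nat_lit 84712) (.g (nat_lit 3553) (.e (nat_lit 1859) (nat_lit 124) (.e (nat_lit 557107) (nat_lit 15) (.e (nat_lit 188452) (nat_lit 23) (.e (nat_lit 204884) (nat_lit 33) (.e (nat_lit 401438) (nat_lit 9) (.e (nat_lit 426402) (nat_lit 15) .nil)))))) (.g (nat_lit 5) .nil .nil)))) (.nd (nat_lit 5) 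
(.lf (nat_lit 84696) (.g (nat_lit 2319) (.e (nat_lit 1859) (nat_lit 124) (.e (nat_lit 557107) (nat_lit 15) (.e (nat_lit 188450) (nat_lit 23) (.e (nat_lit 204884) (nat_lit 33) (.e (nat_lit 401438) (nat_lit 9) (.e (nat_lit 426402) (nat_lit 15) .nil)))))) (.g (nat_lit 0) .nil .nil))) 
(.lf (nat_lit 84728) (.g (nat_lit 2324) (.e (nat_lit 1859) (nat_lit 124) (.e (nat_lit 557108) (nat_lit 15) (.e (nat_lit 188452) (nat_lit 23) (.e (nat_lit 204849) (nat_lit 25) .nil)))) .nil))))) (.nd (nat_lit 3) (.nd (nat_lit 4) (.nd (nat_lit 5) 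
(.lf (nat_lit 84676) (.g (nat_lit 1781) (.e (nat_lit 1859) (nat_lit 124) (.e (nat_lit 557107) (nat_lit 15) (.e (nat_lit 188450) (nat_lit 23) (.e (nat_lit 204821) (nat_lit 17) (.e (nat_lit 6092) (nat_lit 332) (.e (nat_lit 1374) (nat_lit 104) (.e (nat_lit 303147) (nat_lit 15) .nil))))))) (.g (nat_lit 4) .nil .nil))) 
(.lf (nat_lit 84708) (.g (nat_lit 1161) (.e (nat_lit 1859) (nat_lit 124) (.e (nat_lit 557107) (nat_lit 15) (.e (nat_lit 188452) (nat_lit 23) (.e (nat_lit 204852) (nat_lit 26) .nil)))) .nil))) (.nd (nat_lit 5) 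
(.lf (nat_lit 84692) (.g (nat_lit 2932) (.e (nat_lit 1859) (nat_lit 124) (.e (nat_lit 557107) (nat_lit 15) (.e (nat_lit 188450) (nat_lit 23) (.e (nat_lit 204880) (nat_lit 32) (.e (nat_lit 385104) (nat_lit 50) (.e (nat_lit 786444) (nat_lit 15) .nil)))))) (.g (nat_lit 4) .nil .nil))) 
(.lf (nat_lit 84724) (.g (nat_lit 2060) (.e (nat_lit 1859) (nat_lit 124) (.e (nat_lit 557108) (nat_lit 15) (.e (nat_lit 188452) (nat_lit 23) (.e (nat_lit 204817) (nat_lit 17) .nil)))) .nil)))) (.nd (nat_lit 4) (.nd (nat_lit 5) 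
(.lf (nat_lit 84684) (.g (nat_lit 1544) (.e (nat_lit 1859) (nat_lit 124) (.e (nat_lit 557107) (nat_lit 15) (.e (nat_lit 188450) (nat_lit 23) (.e (nat_lit 204821) (nat_lit 17) (.e (nat_lit 6676) (nat_lit 357) (.e (nat_lit 2854) (nat_lit 184) (.e (nat_lit 426402) (nat_lit 15) .nil))))))) (.g (nat_lit 4) .nil .nil))) 
(.lf (nat_lit 84716) (.g (nat_lit 2670) (.e (nat_lit 1859) (nat_lit 124) (.e (nat_lit 557107) (nat_lit 15) (.e (nat_lit 188452) (nat_lit 23) (.e (nat_lit 204885) (nat_lit 33) (.e (nat_lit 401440) (nat_lit 9) .nil))))) .nil))) (.nd (nat_lit 5) 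
(.lf (nat_lit 84700) (.g (nat_lit 2435) (.e (nat_lit 1859) (nat_lit 124) (.e (nat_lit 557107) (nat_lit 15) (.e (nat_lit 188450) (nat_lit 23) (.e (nat_lit 204885) (nat_lit 33) (.e (nat_lit 401436) (nat_lit 9) (.e (nat_lit 426402) (nat_lit 15) .nil)))))) (.g (nat_lit 6) .nil .nil))) 
(.lf (nat_lit 84732) (.g (nat_lit 2165) (.e (nat_lit 1859) (nat_lit 124) (.e (nat_lit 557108) (nat_lit 15) (.e (nat_lit 188452) (nat_lit 23) (.e (nat_lit 204885) (nat_lit 33) .nil)))) .nil)))))) (.nd (nat_lit 2) (.nd (nat_lit 3) (.nd (nat_lit 4) (.nd (nat_lit 5) 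
(.lf (nat_lit 84674) (.g (nat_lit 995) (.e (nat_lit 1859) (nat_lit 124) (.e (nat_lit 557107) (nat_lit 15) (.e (nat_lit 188450) (nat_lit 23) (.e (nat_lit 204821) (nat_lit 17) .nil)))) .nil)) 
(.lf (nat_lit 84706) (.g (nat_lit 2968) (.e (nat_lit 1859) (nat_lit 124) (.e (nat_lit 557107) (nat_lit 15) (.e (nat_lit 188452) (nat_lit 23) (.e (nat_lit 204816) (nat_lit 17) (.e (nat_lit 6720) (nat_lit 361) (.e (nat_lit 179968) (nat_lit 15) .nil)))))) (.g (nat_lit 4) .nil .nil)))) (.nd (nat_lit 5) 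
(.lf (nat_lit 84690) (.g (nat_lit 2290) (.e (nat_lit 1859) (nat_lit 124) (.e (nat_lit 557107) (nat_lit 15) (.e (nat_lit 188450) (nat_lit 23) (.e (nat_lit 204852) (nat_lit 26) (.e (nat_lit 336260) (nat_lit 15) (.e (nat_lit 3733) (nat_lit 228) (.e (nat_lit 786448) (nat_lit 15) .nil))))))) (.g (nat_lit 4) .nil .nil))) 
(.lf (nat_lit 84722) (.g (nat_lit 2747) (.e (nat_lit 1859) (nat_lit 124) (.e (nat_lit 557108) (nat_lit 15) (.e (nat_lit 188452) (nat_lit 23) (.e (nat_lit 204816) (nat_lit 17) (.e (nat_lit 6718) (nat_lit 361) (.e (nat_lit 179968) (nat_lit 15) .nil)))))) (.g (nat_lit 5) .nil .nil))))) (.nd (nat_lit 4) (.nd (nat_lit 5) 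
(.lf (nat_lit 84682) (.g (nat_lit 1484) (.e (nat_lit 1859) (nat_lit 124) (.e (nat_lit 557107) (nat_lit 15) (.e (nat_lit 188450) (nat_lit 23) (.e (nat_lit 204821) (nat_lit 17) (.e (nat_lit 6671) (nat_lit 357) .nil))))) .nil)) 
(.lf (nat_lit 84714) (.g (nat_lit 2793) (.e (nat_lit 1859) (nat_lit 124) (.e (nat_lit 557107) (nat_lit 15) (.e (nat_lit 188452) (nat_lit 23) (.e (nat_lit 204885) (nat_lit 33) (.e (nat_lit 401435) (nat_lit 9) (.e (nat_lit 426402) (nat_lit 15) .nil)))))) (.g (nat_lit 4) .nil .nil)))) (.nd (nat_lit 5) 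
(.lf (nat_lit 84698) (.g (nat_lit 2139) (.e (nat_lit 1859) (nat_lit 124) (.e (nat_lit 557107) (nat_lit 15) (.e (nat_lit 188450) (nat_lit 23) (.e (nat_lit 204885) (nat_lit 33) (.e (nat_lit 401434) (nat_lit 9) (.e (nat_lit 426363) (nat_lit 15) .nil)))))) (.g (nat_lit 5) .nil .nil))) 
(.lf (nat_lit 84730) (.g (nat_lit 2576) (.e (nat_lit 1859) (nat_lit 124) (.e (nat_lit 557108) (nat_lit 15) (.e (nat_lit 188452) (nat_lit 23) (.e (nat_lit 204884) (nat_lit 33) (.e (nat_lit 401436) (nat_lit 9) (.e (nat_lit 426402) (nat_lit 15) .nil)))))) (.g (nat_lit 4) .nil .nil)))))) (.nd (nat_lit 3) (.nd (nat_lit 4) (.nd (nat_lit 5) 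
(.lf (nat_lit 84678) (.g (nat_lit 2329) (.e (nat_lit 1859) (nat_lit 124) (.e (nat_lit 557107) (nat_lit 15) (.e (nat_lit 188450) (nat_lit 23) (.e (nat_lit 204821) (nat_lit 17) (.e (nat_lit 6114) (nat_lit 332) (.e (nat_lit 1378) (nat_lit 104) (.e (nat_lit 311040) (nat_lit 15) .nil))))))) (.g (nat_lit 6) .nil .nil))) 
(.lf (nat_lit 84710) (.g (nat_lit 1738) (.e (nat_lit 1859) (nat_lit 124) (.e (nat_lit 557107) (nat_lit 15) (.e (nat_lit 188452) (nat_lit 23) (.e (nat_lit 204883) (nat_lit 33) (.e (nat_lit 401437) (nat_lit 9) .nil))))) .nil))) (.nd (nat_lit 5) 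
(.lf (nat_lit 84694) (.g (nat_lit 2046) (.e (nat_lit 1859) (nat_lit 124) (.e (nat_lit 557107) (nat_lit 15) (.e (nat_lit 188450) (nat_lit 23) (.e (nat_lit 204884) (nat_lit 33) (.e (nat_lit 401436) (nat_lit 9) (.e (nat_lit 426402) (nat_lit 15) .nil)))))) (.g (nat_lit 5) .nil .nil))) 
(.lf (nat_lit 84726) (.g (nat_lit 4066) (.e (nat_lit 1859) (nat_lit 124) (.e (nat_lit 557108) (nat_lit 15) (.e (nat_lit 188452) (nat_lit 23) (.e (nat_lit 204821) (nat_lit 17) .nil)))) .nil)))) (.nd (nat_lit 4) (.nd (nat_lit 5) 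
(.lf (nat_lit 84686) (.g (nat_lit 1633) (.e (nat_lit 1859) (nat_lit 124) (.e (nat_lit 557107) (nat_lit 15) (.e (nat_lit 188450) (nat_lit 23) (.e (nat_lit 204821) (nat_lit 17) (.e (nat_lit 7936) (nat_lit 361) (.e (nat_lit 179968) (nat_lit 15) .nil)))))) (.g (nat_lit 4) .nil .nil))) 
(.lf (nat_lit 84718) (.g (nat_lit 1229) (.e (nat_lit 1859) (nat_lit 124) (.e (nat_lit 557107) (nat_lit 15) (.e (nat_lit 188453) (nat_lit 24) (.e (nat_lit 237312) (nat_lit 138) .nil)))) .nil))) (.nd (nat_lit 5) 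
(.lf (nat_lit 84702) (.g (nat_lit 1838) (.e (nat_lit 1859) (nat_lit 124) (.e (nat_lit 557107) (nat_lit 15) (.e (nat_lit 188450) (nat_lit 23) (.e (nat_lit 204885) (nat_lit 33) (.e (nat_lit 401440) (nat_lit 9) (.e (nat_lit 433920) (nat_lit 15) .nil)))))) (.g (nat_lit 5) .nil .nil))) 
(.lf (nat_lit 84734) (.g (nat_lit 3509) (.e (nat_lit 1859) (nat_lit 124) (.e (nat_lit 557108) (nat_lit 15) (.e (nat_lit 188452) (nat_lit 23) (.e (nat_lit 204885) (nat_lit 33) (.e (nat_lit 401435) (nat_lit 9) (.e (nat_lit 426402) (nat_lit 15) .nil)))))) (.g (nat_lit 0) .nil .nil)))))))) (.nd (nat_lit 1) (.nd (nat_lit 2) (.nd (nat_lit 3) (.nd (nat_lit 4) (.nd (nat_lit 5) 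
(.lf (nat_lit 84673) (.g (nat_lit 1785) (.e (nat_lit 1859) (nat_lit 124) (.e (nat_lit 557107) (nat_lit 15) (.e (nat_lit 188450) (nat_lit 23) (.e (nat_lit 204819) (nat_lit 17) (.e (nat_lit 6113) (nat_lit 332) (.e (nat_lit 1376) (nat_lit 104) (.e (nat_lit 311040) (nat_lit 15) .nil))))))) (.g (nat_lit 4) .nil .nil))) 
(.lf (nat_lit 84705) (.g (nat_lit 2984) (.e (nat_lit 1859) (nat_lit 124) (.e (nat_lit 557107) (nat_lit 15) (.e (nat_lit 188452) (nat_lit 23) (.e (nat_lit 204816) (nat_lit 17) (.e (nat_lit 6718) (nat_lit 361) .nil))))) .nil))) (.nd (nat_lit 5) 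
(.lf (nat_lit 84689) (.g (nat_lit 2435) (.e (nat_lit 1859) (nat_lit 124) (.e (nat_lit 557107) (nat_lit 15) (.e (nat_lit 188450) (nat_lit 23) (.e (nat_lit 204852) (nat_lit 26) (.e (nat_lit 336260) (nat_lit 15) (.e (nat_lit 3733) (nat_lit 228) (.e (nat_lit 786444) (nat_lit 15) .nil))))))) (.g (nat_lit 4) .nil .nil))) 
(.lf (nat_lit 84721) (.g (nat_lit 1861) (.e (nat_lit 1859) (nat_lit 124) (.e (nat_lit 557108) (nat_lit 15) (.e (nat_lit 188452) (nat_lit 23) (.e (nat_lit 204816) (nat_lit 17) .nil)))) .nil)))) (.nd (nat_lit 4) (.nd (nat_lit 5) 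
(.lf (nat_lit 84681) (.g (nat_lit 1347) (.e (nat_lit 1859) (nat_lit 124) (.e (nat_lit 557107) (nat_lit 15) (.e (nat_lit 188450) (nat_lit 23) (.e (nat_lit 204821) (nat_lit 17) (.e (nat_lit 6223) (nat_lit 334) .nil))))) .nil)) 
(.lf (nat_lit 84713) (.g (nat_lit 2688) (.e (nat_lit 1859) (nat_lit 124) (.e (nat_lit 557107) (nat_lit 15) (.e (nat_lit 188452) (nat_lit 23) (.e (nat_lit 204885) (nat_lit 33) (.e (nat_lit 401434) (nat_lit 9) (.e (nat_lit 426402) (nat_lit 15) .nil)))))) (.g (nat_lit 4) .nil .nil)))) (.nd (nat_lit 5) 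
(.lf (nat_lit 84697) (.g (nat_lit 1001) (.e (nat_lit 1859) (nat_lit 124) (.e (nat_lit 557107) (nat_lit 15) (.e (nat_lit 188450) (nat_lit 23) (.e (nat_lit 204885) (nat_lit 33) .nil)))) .nil)) 
(.lf (nat_lit 84729) (.g (nat_lit 2467) (.e (nat_lit 1859) (nat_lit 124) (.e (nat_lit 557108) (nat_lit 15) (.e (nat_lit 188452) (nat_lit 23) (.e (nat_lit 204852) (nat_lit 26) .nil)))) .nil))))) (.nd (nat_lit 3) (.nd (nat_lit 4) (.nd (nat_lit 5) 
(.lf (nat_lit 84677) (.g (nat_lit 1656) (.e (nat_lit 1859) (nat_lit 124) (.e (nat_lit 557107) (nat_lit 15) (.e (nat_lit 188450) (nat_lit 23) (.e (nat_lit 204821) (nat_lit 17) (.e (nat_lit 6114) (nat_lit 332) (.e (nat_lit 1376) (nat_lit 104) (.e (nat_lit 311040) (nat_lit 15) .nil))))))) (.g (nat_lit 4) .nil .nil))) 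
(.lf (nat_lit 84709) (.g (nat_lit 1297) (.e (nat_lit 1859) (nat_lit 124) (.e (nat_lit 557107) (nat_lit 15) (.e (nat_lit 188452) (nat_lit 23) (.e (nat_lit 204883) (nat_lit 33) .nil)))) .nil))) (.nd (nat_lit 5) 
(.lf (nat_lit 84693) (.g (nat_lit 2299) (.e (nat_lit 1859) (nat_lit 124) (.e (nat_lit 557107) (nat_lit 15) (.e (nat_lit 188450) (nat_lit 23) (.e (nat_lit 204883) (nat_lit 33) (.e (nat_lit 401438) (nat_lit 9) (.e (nat_lit 426402) (nat_lit 15) .nil)))))) (.g (nat_lit 0) .nil .nil))) 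
(.lf (nat_lit 84725) (.g (nat_lit 3589) (.e (nat_lit 1859) (nat_lit 124) (.e (nat_lit 557108) (nat_lit 15) (.e (nat_lit 188452) (nat_lit 23) (.e (nat_lit 204819) (nat_lit 17) .nil)))) .nil)))) (.nd (nat_lit 4) (.nd (nat_lit 5) 
(.lf (nat_lit 84685) (.g (nat_lit 2858) (.e (nat_lit 1859) (nat_lit 124) (.e (nat_lit 557107) (nat_lit 15) (.e (nat_lit 188450) (nat_lit 23) (.e (nat_lit 204821) (nat_lit 17) (.e (nat_lit 6676) (nat_lit 357) (.e (nat_lit 2856) (nat_lit 184) (.e (nat_lit 426402) (nat_lit 15) .nil))))))) (.g (nat_lit 7) .nil .nil))) 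
(.lf (nat_lit 84717) (.g (nat_lit 2795) (.e (nat_lit 1859) (nat_lit 124) (.e (nat_lit 557107) (nat_lit 15) (.e (nat_lit 188452) (nat_lit 23) (.e (nat_lit 204885) (nat_lit 33) (.e (nat_lit 401444) (nat_lit 9) .nil))))) .nil))) (.nd (nat_lit 5) 
(.lf (nat_lit 84701) (.g (nat_lit 2891) (.e (nat_lit 1859) (nat_lit 124) (.e (nat_lit 557107) (nat_lit 15) (.e (nat_lit 188450) (nat_lit 23) (.e (nat_lit 204885) (nat_lit 33) (.e (nat_lit 401437) (nat_lit 9) (.e (nat_lit 426402) (nat_lit 15) .nil)))))) (.g (nat_lit 6) .nil .nil))) 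
(.lf (nat_lit 84733) (.g (nat_lit 3582) (.e (nat_lit 1859) (nat_lit 124) (.e (nat_lit 557108) (nat_lit 15) (.e (nat_lit 188452) (nat_lit 23) (.e (nat_lit 204885) (nat_lit 33) (.e (nat_lit 401434) (nat_lit 9) (.e (nat_lit 426402) (nat_lit 15) .nil)))))) (.g (nat_lit 6) .nil .nil))))))) (.nd (nat_lit 2) (.nd (nat_lit 3) (.nd (nat_lit 4) (.nd (nat_lit 5) 
(.lf (nat_lit 84675) (.g (nat_lit 1571) (.e (nat_lit 1859) (nat_lit 124) (.e (nat_lit 557107) (nat_lit 15) (.e (nat_lit 188450) (nat_lit 23) (.e (nat_lit 204821) (nat_lit 17) (.e (nat_lit 6092) (nat_lit 332) .nil))))) .nil)) 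
(.lf (nat_lit 84707) (.g (nat_lit 1225) (.e (nat_lit 1859) (nat_lit 124) (.e (nat_lit 557107) (nat_lit 15) (.e (nat_lit 188452) (nat_lit 23) (.e (nat_lit 204821) (nat_lit 17) .nil)))) .nil))) (.nd (nat_lit 5) 
(.lf (nat_lit 84691) (.g (nat_lit 2096) (.e (nat_lit 1859) (nat_lit 124) (.e (nat_lit 557107) (nat_lit 15) (.e (nat_lit 188450) (nat_lit 23) (.e (nat_lit 204852) (nat_lit 26) (.e (nat_lit 336355) (nat_lit 24) .nil))))) .nil)) 
(.lf (nat_lit 84723) (.g (nat_lit 2776) (.e (nat_lit 1859) (nat_lit 124) (.e (nat_lit 557108) (nat_lit 15) (.e (nat_lit 188452) (nat_lit 23) (.e (nat_lit 204816) (nat_lit 17) (.e (nat_lit 6720) (nat_lit 361) (.e (nat_lit 179968) (nat_lit 15) .nil)))))) (.g (nat_lit 5) .nil .nil))))) (.nd (nat_lit 4) (.nd (nat_lit 5) 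
(.lf (nat_lit 84683) (.g (nat_lit 1907) (.e (nat_lit 1859) (nat_lit 124) (.e (nat_lit 557107) (nat_lit 15) (.e (nat_lit 188450) (nat_lit 23) (.e (nat_lit 204821) (nat_lit 17) (.e (nat_lit 6674) (nat_lit 357) (.e (nat_lit 2940) (nat_lit 184) (.e (nat_lit 433920) (nat_lit 15) .nil))))))) (.g (nat_lit 6) .nil .nil))) 
(.lf (nat_lit 84715) (.g (nat_lit 3139) (.e (nat_lit 1859) (nat_lit 124) (.e (nat_lit 557107) (nat_lit 15) (.e (nat_lit 188452) (nat_lit 23) (.e (nat_lit 204885) (nat_lit 33) (.e (nat_lit 401436) (nat_lit 9) .nil))))) .nil))) (.nd (nat_lit 5) 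
(.lf (nat_lit 84699) (.g (nat_lit 2524) (.e (nat_lit 1859) (nat_lit 124) (.e (nat_lit 557107) (nat_lit 15) (.e (nat_lit 188450) (nat_lit 23) (.e (nat_lit 204885) (nat_lit 33) (.e (nat_lit 401434) (nat_lit 9) (.e (nat_lit 426402) (nat_lit 15) .nil)))))) (.g (nat_lit 6) .nil .nil))) 
(.lf (nat_lit 84731) (.g (nat_lit 3415) (.e (nat_lit 1859) (nat_lit 124) (.e (nat_lit 557108) (nat_lit 15) (.e (nat_lit 188452) (nat_lit 23) (.e (nat_lit 204884) (nat_lit 33) (.e (nat_lit 401437) (nat_lit 9) (.e (nat_lit 426402) (nat_lit 15) .nil)))))) (.g (nat_lit 6) .nil .nil)))))) (.nd (nat_lit 3) (.nd (nat_lit 4) (.nd (nat_lit 5) 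
(.lf (nat_lit 84679) (.g (nat_lit 1522) (.e (nat_lit 1859) (nat_lit 124) (.e (nat_lit 557107) (nat_lit 15) (.e (nat_lit 188450) (nat_lit 23) (.e (nat_lit 204821) (nat_lit 17) (.e (nat_lit 6149) (nat_lit 332) .nil))))) .nil)) 
(.lf (nat_lit 84711) (.g (nat_lit 3156) (.e (nat_lit 1859) (nat_lit 124) (.e (nat_lit 557107) (nat_lit 15) (.e (nat_lit 188452) (nat_lit 23) (.e (nat_lit 204884) (nat_lit 33) (.e (nat_lit 401436) (nat_lit 9) .nil))))) .nil))) (.nd (nat_lit 5) 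
(.lf (nat_lit 84695) (.g (nat_lit 2743) (.e (nat_lit 1859) (nat_lit 124) (.e (nat_lit 557107) (nat_lit 15) (.e (nat_lit 188450) (nat_lit 23) (.e (nat_lit 204884) (nat_lit 33) (.e (nat_lit 401437) (nat_lit 9) (.e (nat_lit 426402) (nat_lit 15) .nil)))))) (.g (nat_lit 6) .nil .nil))) 
(.lf (nat_lit 84727) (.g (nat_lit 3501) (.e (nat_lit 1859) (nat_lit 124) (.e (nat_lit 557108) (nat_lit 15) (.e (nat_lit 188452) (nat_lit 23) (.e (nat_lit 204846) (nat_lit 24) .nil)))) .nil)))) (.nd (nat_lit 4) (.nd (nat_lit 5) 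
(.lf (nat_lit 84687) (.g (nat_lit 1633) (.e (nat_lit 1859) (nat_lit 124) (.e (nat_lit 557107) (nat_lit 15) (.e (nat_lit 188450) (nat_lit 23) (.e (nat_lit 204821) (nat_lit 17) (.e (nat_lit 7936) (nat_lit 364) (.e (nat_lit 245504) (nat_lit 15) .nil)))))) (.g (nat_lit 4) .nil .nil))) 
(.lf (nat_lit 84719) (.g (nat_lit 176) (.e (nat_lit 1859) (nat_lit 124) (.e (nat_lit 557108) (nat_lit 15) (.e (nat_lit 188452) (nat_lit 23) .nil))) .nil))) (.nd (nat_lit 5) 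
(.lf (nat_lit 84703) (.g (nat_lit 1212) (.e (nat_lit 1859) (nat_lit 124) (.e (nat_lit 557107) (nat_lit 15) (.e (nat_lit 188452) (nat_lit 23) (.e (nat_lit 204815) (nat_lit 17) .nil)))) .nil)) 
(.lf (nat_lit 84735) (.g (nat_lit 3627) (.e (nat_lit 1859) (nat_lit 124) (.e (nat_lit 557108) (nat_lit 15) (.e (nat_lit 188452) (nat_lit 23) (.e (nat_lit 204885) (nat_lit 33) (.e (nat_lit 401436) (nat_lit 9) (.e (nat_lit 426402) (nat_lit 15) .nil)))))) (.g (nat_lit 6) .nil .nil)))))))))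

noncomputable def tv1148 : DT := (.nd (nat_lit 0) (.nd (nat_lit 1) (.nd (nat_lit 2) (.nd (nat_lit 3) (.nd (nat_lit 4) (.nd (nat_lit 5) 
(.lf (nat_lit 84736) (.g (nat_lit 4057) (.e (nat_lit 1859) (nat_lit 124) (.e (nat_lit 557108) (nat_lit 15) (.e (nat_lit 188452) (nat_lit 23) (.e (nat_lit 204885) (nat_lit 33) (.e (nat_lit 401437) (nat_lit 9) (.e (nat_lit 426402) (nat_lit 15) .nil)))))) (.g (nat_lit 6) .nil .nil))) 
(.lf (nat_lit 84768) (.g (nat_lit 2391) (.e (nat_lit 1859) (nat_lit 124) (.e (nat_lit 557109) (nat_lit 15) (.e (nat_lit 188434) (nat_lit 20) (.e (nat_lit 3271) (nat_lit 199) (.e (nat_lit 548898) (nat_lit 14) (.e (nat_lit 2988) (nat_lit 186) (.e (nat_lit 450304) (nat_lit 0) .nil))))))) (.g (nat_lit 6) .nil .nil)))) (.nd (nat_lit 5) 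
(.lf (nat_lit 84752) (.g (nat_lit 2116) (.e (nat_lit 1859) (nat_lit 124) (.e (nat_lit 557109) (nat_lit 15) (.e (nat_lit 188433) (nat_lit 20) (.e (nat_lit 3126) (nat_lit 193) .nil)))) .nil)) 
(.lf (nat_lit 84784) (.g (nat_lit 2417) (.e (nat_lit 1859) (nat_lit 124) (.e (nat_lit 557109) (nat_lit 15) (.e (nat_lit 188434) (nat_lit 20) (.e (nat_lit 3272) (nat_lit 199) (.e (nat_lit 548897) (nat_lit 14) (.e (nat_lit 2988) (nat_lit 186) (.e (nat_lit 450304) (nat_lit 0) .nil))))))) (.g (nat_lit 6) .nil .nil))))) (.nd (nat_lit 4) (.nd (nat_lit 5) 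
(.lf (nat_lit 84744) (.g (nat_lit 2781) (.e (nat_lit 1859) (nat_lit 124) (.e (nat_lit 557109) (nat_lit 15) (.e (nat_lit 188419) (nat_lit 0) (.e (nat_lit 1855) (nat_lit 124) (.e (nat_lit 557109) (nat_lit 15) (.e (nat_lit 196352) (nat_lit 0) .nil)))))) (.g (nat_lit 5) .nil .nil))) 
(.lf (nat_lit 84776) (.g (nat_lit 2622) (.e (nat_lit 1859) (nat_lit 124) (.e (nat_lit 557109) (nat_lit 15) (.e (nat_lit 188434) (nat_lit 20) (.e (nat_lit 3271) (nat_lit 199) (.e (nat_lit 548913) (nat_lit 18) (.e (nat_lit 172095) (nat_lit 9) (.e (nat_lit 433920) (nat_lit 15) .nil))))))) (.g (nat_lit 6) .nil .nil)))) (.nd (nat_lit 5) 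
(.lf (nat_lit 84760) (.g (nat_lit 2116) (.e (nat_lit 1859) (nat_lit 124) (.e (nat_lit 557109) (nat_lit 15) (.e (nat_lit 188433) (nat_lit 20) (.e (nat_lit 3139) (nat_lit 193) .nil)))) .nil)) 
(.lf (nat_lit 84792) (.g (nat_lit 2963) (.e (nat_lit 1859) (nat_lit 124) (.e (nat_lit 557109) (nat_lit 15) (.e (nat_lit 188434) (nat_lit 20) (.e (nat_lit 3272) (nat_lit 199) (.e (nat_lit 548898) (nat_lit 14) (.e (nat_lit 2998) (nat_lit 186) (.e (nat_lit 450304) (nat_lit 0) .nil))))))) (.g (nat_lit 6) .nil .nil)))))) (.nd (nat_lit 3) (.nd (nat_lit 4) (.nd (nat_lit 5) 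
(.lf (nat_lit 84740) (.g (nat_lit 828) (.e (nat_lit 1859) (nat_lit 124) (.e (nat_lit 557109) (nat_lit 15) (.e (nat_lit 188418) (nat_lit 0) .nil))) .nil)) 
(.lf (nat_lit 84772) (.g (nat_lit 2478) (.e (nat_lit 1859) (nat_lit 124) (.e (nat_lit 557109) (nat_lit 15) (.e (nat_lit 188434) (nat_lit 20) (.e (nat_lit 3271) (nat_lit 199) (.e (nat_lit 548898) (nat_lit 14) (.e (nat_lit 3004) (nat_lit 186) (.e (nat_lit 450304) (nat_lit 0) .nil))))))) (.g (nat_lit 6) .nil .nil)))) (.nd (nat_lit 5) 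
(.lf (nat_lit 84756) (.g (nat_lit 2116) (.e (nat_lit 1859) (nat_lit 124) (.e (nat_lit 557109) (nat_lit 15) (.e (nat_lit 188433) (nat_lit 20) (.e (nat_lit 3132) (nat_lit 193) .nil)))) .nil)) 
(.lf (nat_lit 84788) (.g (nat_lit 2170) (.e (nat_lit 1859) (nat_lit 124) (.e (nat_lit 557109) (nat_lit 15) (.e (nat_lit 188434) (nat_lit 20) (.e (nat_lit 3272) (nat_lit 199) (.e (nat_lit 548897) (nat_lit 14) (.e (nat_lit 3005) (nat_lit 186) (.e (nat_lit 450304) (nat_lit 0) .nil))))))) (.g (nat_lit 5) .nil .nil))))) (.nd (nat_lit 4) (.nd (nat_lit 5) 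
(.lf (nat_lit 84748) (.g (nat_lit 2176) (.e (nat_lit 1859) (nat_lit 124) (.e (nat_lit 557109) (nat_lit 15) (.e (nat_lit 196352) (nat_lit 0) (.e (nat_lit 1859) (nat_lit 124) (.e (nat_lit 557109) (nat_lit 15) (.e (nat_lit 196352) (nat_lit 0) .nil)))))) (.g (nat_lit 5) .nil .nil))) 
(.lf (nat_lit 84780) (.g (nat_lit 2204) (.e (nat_lit 1859) (nat_lit 124) (.e (nat_lit 557109) (nat_lit 15) (.e (nat_lit 188434) (nat_lit 20) (.e (nat_lit 3272) (nat_lit 199) (.e (nat_lit 548896) (nat_lit 14) (.e (nat_lit 2998) (nat_lit 186) (.e (nat_lit 450304) (nat_lit 0) .nil))))))) (.g (nat_lit 6) .nil .nil)))) (.nd (nat_lit 5) 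
(.lf (nat_lit 84764) (.g (nat_lit 2116) (.e (nat_lit 1859) (nat_lit 124) (.e (nat_lit 557109) (nat_lit 15) (.e (nat_lit 188433) (nat_lit 20) (.e (nat_lit 3201) (nat_lit 194) .nil)))) .nil)) 
(.lf (nat_lit 84796) (.g (nat_lit 1696) (.e (nat_lit 1859) (nat_lit 124) (.e (nat_lit 557109) (nat_lit 15) (.e (nat_lit 188434) (nat_lit 20) (.e (nat_lit 3272) (nat_lit 199) (.e (nat_lit 548898) (nat_lit 14) (.e (nat_lit 3045) (nat_lit 189) (.e (nat_lit 474880) (nat_lit 0) .nil))))))) (.g (nat_lit 4) .nil .nil))))))) (.nd (nat_lit 2) (.nd (nat_lit 3) (.nd (nat_lit 4) (.nd (nat_lit 5) 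
(.lf (nat_lit 84738) (.g (nat_lit 3516) (.e (nat_lit 1859) (nat_lit 124) (.e (nat_lit 557108) (nat_lit 15) (.e (nat_lit 188452) (nat_lit 23) (.e (nat_lit 204885) (nat_lit 33) (.e (nat_lit 401444) (nat_lit 9) (.e (nat_lit 426401) (nat_lit 15) .nil)))))) (.g (nat_lit 0) .nil .nil))) 
(.lf (nat_lit 84770) (.g (nat_lit 2508) (.e (nat_lit 1859) (nat_lit 124) (.e (nat_lit 557109) (nat_lit 15) (.e (nat_lit 188434) (nat_lit 20) (.e (nat_lit 3271) (nat_lit 199) (.e (nat_lit 548898) (nat_lit 14) (.e (nat_lit 2998) (nat_lit 186) (.e (nat_lit 450304) (nat_lit 0) .nil))))))) (.g (nat_lit 6) .nil .nil)))) (.nd (nat_lit 5) 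
(.lf (nat_lit 84754) (.g (nat_lit 2116) (.e (nat_lit 1859) (nat_lit 124) (.e (nat_lit 557109) (nat_lit 15) (.e (nat_lit 188433) (nat_lit 20) (.e (nat_lit 3128) (nat_lit 193) .nil)))) .nil)) 
(.lf (nat_lit 84786) (.g (nat_lit 2440) (.e (nat_lit 1859) (nat_lit 124) (.e (nat_lit 557109) (nat_lit 15) (.e (nat_lit 188434) (nat_lit 20) (.e (nat_lit 3272) (nat_lit 199) (.e (nat_lit 548897) (nat_lit 14) (.e (nat_lit 2999) (nat_lit 186) (.e (nat_lit 450304) (nat_lit 0) .nil))))))) (.g (nat_lit 6) .nil .nil))))) (.nd (nat_lit 4) (.nd (nat_lit 5) 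
(.lf (nat_lit 84746) (.g (nat_lit 2809) (.e (nat_lit 1859) (nat_lit 124) (.e (nat_lit 557109) (nat_lit 15) (.e (nat_lit 188419) (nat_lit 0) (.e (nat_lit 1856) (nat_lit 124) (.e (nat_lit 557109) (nat_lit 15) (.e (nat_lit 196352) (nat_lit 0) .nil)))))) (.g (nat_lit 5) .nil .nil))) 
(.lf (nat_lit 84778) (.g (nat_lit 1037) (.e (nat_lit 1859) (nat_lit 124) (.e (nat_lit 557109) (nat_lit 15) (.e (nat_lit 188434) (nat_lit 20) (.e (nat_lit 3272) (nat_lit 199) .nil)))) .nil))) (.nd (nat_lit 5) 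
(.lf (nat_lit 84762) (.g (nat_lit 2116) (.e (nat_lit 1859) (nat_lit 124) (.e (nat_lit 557109) (nat_lit 15) (.e (nat_lit 188433) (nat_lit 20) (.e (nat_lit 3142) (nat_lit 193) .nil)))) .nil)) 
(.lf (nat_lit 84794) (.g (nat_lit 2822) (.e (nat_lit 1859) (nat_lit 124) (.e (nat_lit 557109) (nat_lit 15) (.e (nat_lit 188434) (nat_lit 20) (.e (nat_lit 3272) (nat_lit 199) (.e (nat_lit 548898) (nat_lit 14) (.e (nat_lit 3004) (nat_lit 186) (.e (nat_lit 450304) (nat_lit 0) .nil))))))) (.g (nat_lit 6) .nil .nil)))))) (.nd (nat_lit 3) (.nd (nat_lit 4) (.nd (nat_lit 5) 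
(.lf (nat_lit 84742) (.g (nat_lit 1106) (.e (nat_lit 1859) (nat_lit 124) (.e (nat_lit 557109) (nat_lit 15) (.e (nat_lit 188419) (nat_lit 0) (.e (nat_lit 1846) (nat_lit 124) .nil)))) .nil)) 
(.lf (nat_lit 84774) (.g (nat_lit 2389) (.e (nat_lit 1859) (nat_lit 124) (.e (nat_lit 557109) (nat_lit 15) (.e (nat_lit 188434) (nat_lit 20) (.e (nat_lit 3271) (nat_lit 199) (.e (nat_lit 548913) (nat_lit 18) (.e (nat_lit 172087) (nat_lit 9) (.e (nat_lit 426360) (nat_lit 15) .nil))))))) (.g (nat_lit 5) .nil .nil)))) (.nd (nat_lit 5) 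
(.lf (nat_lit 84758) (.g (nat_lit 2116) (.e (nat_lit 1859) (nat_lit 124) (.e (nat_lit 557109) (nat_lit 15) (.e (nat_lit 188433) (nat_lit 20) (.e (nat_lit 3136) (nat_lit 193) .nil)))) .nil)) 
(.lf (nat_lit 84790) (.g (nat_lit 2789) (.e (nat_lit 1859) (nat_lit 124) (.e (nat_lit 557109) (nat_lit 15) (.e (nat_lit 188434) (nat_lit 20) (.e (nat_lit 3272) (nat_lit 199) (.e (nat_lit 548898) (nat_lit 14) (.e (nat_lit 2988) (nat_lit 186) (.e (nat_lit 450304) (nat_lit 0) .nil))))))) (.g (nat_lit 6) .nil .nil))))) (.nd (nat_lit 4) (.nd (nat_lit 5) 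
(.lf (nat_lit 84750) (.g (nat_lit 1024) (.e (nat_lit 1859) (nat_lit 124) (.e (nat_lit 557109) (nat_lit 15) (.e (nat_lit 188424) (nat_lit 20) .nil))) .nil)) 
(.lf (nat_lit 84782) (.g (nat_lit 1909) (.e (nat_lit 1859) (nat_lit 124) (.e (nat_lit 557109) (nat_lit 15) (.e (nat_lit 188434) (nat_lit 20) (.e (nat_lit 3272) (nat_lit 199) (.e (nat_lit 548896) (nat_lit 14) (.e (nat_lit 3005) (nat_lit 186) (.e (nat_lit 450304) (nat_lit 0) .nil))))))) (.g (nat_lit 4) .nil .nil)))) (.nd (nat_lit 5) 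
(.lf (nat_lit 84766) (.g (nat_lit 1514) (.e (nat_lit 1859) (nat_lit 124) (.e (nat_lit 557109) (nat_lit 15) (.e (nat_lit 188434) (nat_lit 20) (.e (nat_lit 3205) (nat_lit 194) .nil)))) .nil)) 
(.lf (nat_lit 84798) (.g (nat_lit 2546) (.e (nat_lit 1859) (nat_lit 124) (.e (nat_lit 557109) (nat_lit 15) (.e (nat_lit 188434) (nat_lit 20) (.e (nat_lit 3272) (nat_lit 199) (.e (nat_lit 548913) (nat_lit 18) (.e (nat_lit 172087) (nat_lit 9) (.e (nat_lit 426364) (nat_lit 15) .nil))))))) (.g (nat_lit 5) .nil .nil)))))))) 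
(.nd (nat_lit 1) (.nd (nat_lit 2) (.nd (nat_lit 3) (.nd (nat_lit 4) (.nd (nat_lit 5) 
(.lf (nat_lit 84737) (.g (nat_lit 2984) (.e (nat_lit 1859) (nat_lit 124) (.e (nat_lit 557108) (nat_lit 15) (.e (nat_lit 188452) (nat_lit 23) (.e (nat_lit 204885) (nat_lit 33) (.e (nat_lit 401440) (nat_lit 9) (.e (nat_lit 433920) (nat_lit 15) .nil)))))) (.g (nat_lit 5) .nil .nil))) 
(.lf (nat_lit 84769) (.g (nat_lit 1955) (.e (nat_lit 1859) (nat_lit 124) (.e (nat_lit 557109) (nat_lit 15) (.e (nat_lit 188434) (nat_lit 20) (.e (nat_lit 3271) (nat_lit 199) (.e (nat_lit 548898) (nat_lit 14) (.e (nat_lit 2989) (nat_lit 186) (.e (nat_lit 450304) (nat_lit 0) .nil))))))) (.g (nat_lit 5) .nil .nil)))) (.nd (nat_lit 5) 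
(.lf (nat_lit 84753) (.g (nat_lit 2116) (.e (nat_lit 1859) (nat_lit 124) (.e (nat_lit 557109) (nat_lit 15) (.e (nat_lit 188433) (nat_lit 20) (.e (nat_lit 3127) (nat_lit 193) .nil)))) .nil)) 
(.lf (nat_lit 84785) (.g (nat_lit 2276) (.e (nat_lit 1859) (nat_lit 124) (.e (nat_lit 557109) (nat_lit 15) (.e (nat_lit 188434) (nat_lit 20) (.e (nat_lit 3272) (nat_lit 199) (.e (nat_lit 548897) (nat_lit 14) (.e (nat_lit 2998) (nat_lit 186) (.e (nat_lit 450304) (nat_lit 0) .nil))))))) (.g (nat_lit 6) .nil .nil))))) (.nd (nat_lit 4) (.nd (nat_lit 5) 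
(.lf (nat_lit 84745) (.g (nat_lit 2876) (.e (nat_lit 1859) (nat_lit 124) (.e (nat_lit 557109) (nat_lit 15) (.e (nat_lit 188419) (nat_lit 0) (.e (nat_lit 1856) (nat_lit 124) (.e (nat_lit 557107) (nat_lit 15) (.e (nat_lit 196352) (nat_lit 0) .nil)))))) (.g (nat_lit 5) .nil .nil))) 
(.lf (nat_lit 84777) (.g (nat_lit 2594) (.e (nat_lit 1859) (nat_lit 124) (.e (nat_lit 557109) (nat_lit 15) (.e (nat_lit 188434) (nat_lit 20) (.e (nat_lit 3271) (nat_lit 199) (.e (nat_lit 548915) (nat_lit 20) (.e (nat_lit 196352) (nat_lit 0) .nil)))))) (.g (nat_lit 5) .nil .nil)))) (.nd (nat_lit 5) 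
(.lf (nat_lit 84761) (.g (nat_lit 2116) (.e (nat_lit 1859) (nat_lit 124) (.e (nat_lit 557109) (nat_lit 15) (.e (nat_lit 188433) (nat_lit 20) (.e (nat_lit 3140) (nat_lit 193) .nil)))) .nil)) 
(.lf (nat_lit 84793) (.g (nat_lit 3298) (.e (nat_lit 1859) (nat_lit 124) (.e (nat_lit 557109) (nat_lit 15) (.e (nat_lit 188434) (nat_lit 20) (.e (nat_lit 3272) (nat_lit 199) (.e (nat_lit 548898) (nat_lit 14) (.e (nat_lit 2999) (nat_lit 186) (.e (nat_lit 450304) (nat_lit 0) .nil))))))) (.g (nat_lit 6) .nil .nil)))))) (.nd (nat_lit 3) (.nd (nat_lit 4) (.nd (nat_lit 5) 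
(.lf (nat_lit 84741) (.g (nat_lit 556) (.e (nat_lit 1859) (nat_lit 124) (.e (nat_lit 557109) (nat_lit 15) (.e (nat_lit 188419) (nat_lit 0) .nil))) .nil)) 
(.lf (nat_lit 84773) (.g (nat_lit 2461) (.e (nat_lit 1859) (nat_lit 124) (.e (nat_lit 557109) (nat_lit 15) (.e (nat_lit 188434) (nat_lit 20) (.e (nat_lit 3271) (nat_lit 199) (.e (nat_lit 548898) (nat_lit 14) (.e (nat_lit 3005) (nat_lit 186) (.e (nat_lit 450304) (nat_lit 0) .nil))))))) (.g (nat_lit 6) .nil .nil)))) (.nd (nat_lit 5) 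
(.lf (nat_lit 84757) (.g (nat_lit 2116) (.e (nat_lit 1859) (nat_lit 124) (.e (nat_lit 557109) (nat_lit 15) (.e (nat_lit 188433) (nat_lit 20) (.e (nat_lit 3133) (nat_lit 193) .nil)))) .nil)) 
(.lf (nat_lit 84789) (.g (nat_lit 1957) (.e (nat_lit 1859) (nat_lit 124) (.e (nat_lit 557109) (nat_lit 15) (.e (nat_lit 188434) (nat_lit 20) (.e (nat_lit 3272) (nat_lit 199) (.e (nat_lit 548898) (nat_lit 14) (.e (nat_lit 2982) (nat_lit 186) (.e (nat_lit 450304) (nat_lit 0) .nil))))))) (.g (nat_lit 4) .nil .nil))))) (.nd (nat_lit 4) (.nd (nat_lit 5) 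
(.lf (nat_lit 84749) (.g (nat_lit 1537) (.e (nat_lit 1859) (nat_lit 124) (.e (nat_lit 557109) (nat_lit 15) (.e (nat_lit 196352) (nat_lit 0) (.e (nat_lit 1860) (nat_lit 124) (.e (nat_lit 557109) (nat_lit 15) (.e (nat_lit 196352) (nat_lit 0) .nil)))))) (.g (nat_lit 4) .nil .nil))) 
(.lf (nat_lit 84781) (.g (nat_lit 2463) (.e (nat_lit 1859) (nat_lit 124) (.e (nat_lit 557109) (nat_lit 15) (.e (nat_lit 188434) (nat_lit 20) (.e (nat_lit 3272) (nat_lit 199) (.e (nat_lit 548896) (nat_lit 14) (.e (nat_lit 3004) (nat_lit 186) (.e (nat_lit 450304) (nat_lit 0) .nil))))))) (.g (nat_lit 6) .nil .nil)))) (.nd (nat_lit 5) 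
(.lf (nat_lit 84765) (.g (nat_lit 462) (.e (nat_lit 1859) (nat_lit 124) (.e (nat_lit 557109) (nat_lit 15) (.e (nat_lit 188434) (nat_lit 20) .nil))) .nil)) 
(.lf (nat_lit 84797) (.g (nat_lit 2951) (.e (nat_lit 1859) (nat_lit 124) (.e (nat_lit 557109) (nat_lit 15) (.e (nat_lit 188434) (nat_lit 20) (.e (nat_lit 3272) (nat_lit 199) (.e (nat_lit 548913) (nat_lit 18) (.e (nat_lit 172087) (nat_lit 9) (.e (nat_lit 426360) (nat_lit 15) .nil))))))) (.g (nat_lit 5) .nil .nil))))))) (.nd (nat_lit 2) (.nd (nat_lit 3) (.nd (nat_lit 4) (.nd (nat_lit 5) 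
(.lf (nat_lit 84739) (.g (nat_lit 2613) (.e (nat_lit 1859) (nat_lit 124) (.e (nat_lit 557108) (nat_lit 15) (.e (nat_lit 188452) (nat_lit 23) (.e (nat_lit 204885) (nat_lit 33) (.e (nat_lit 409344) (nat_lit 9) .nil))))) .nil)) 
(.lf (nat_lit 84771) (.g (nat_lit 2821) (.e (nat_lit 1859) (nat_lit 124) (.e (nat_lit 557109) (nat_lit 15) (.e (nat_lit 188434) (nat_lit 20) (.e (nat_lit 3271) (nat_lit 199) (.e (nat_lit 548898) (nat_lit 14) (.e (nat_lit 2999) (nat_lit 186) (.e (nat_lit 450304) (nat_lit 0) .nil))))))) (.g (nat_lit 6) .nil .nil)))) (.nd (nat_lit 5) 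
(.lf (nat_lit 84755) (.g (nat_lit 2116) (.e (nat_lit 1859) (nat_lit 124) (.e (nat_lit 557109) (nat_lit 15) (.e (nat_lit 188433) (nat_lit 20) (.e (nat_lit 3130) (nat_lit 193) .nil)))) .nil)) 
(.lf (nat_lit 84787) (.g (nat_lit 2424) (.e (nat_lit 1859) (nat_lit 124) (.e (nat_lit 557109) (nat_lit 15) (.e (nat_lit 188434) (nat_lit 20) (.e (nat_lit 3272) (nat_lit 199) (.e (nat_lit 548897) (nat_lit 14) (.e (nat_lit 3004) (nat_lit 186) (.e (nat_lit 450304) (nat_lit 0) .nil))))))) (.g (nat_lit 6) .nil .nil))))) (.nd (nat_lit 4) (.nd (nat_lit 5) 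
(.lf (nat_lit 84747) (.g (nat_lit 1501) (.e (nat_lit 1859) (nat_lit 124) (.e (nat_lit 557109) (nat_lit 15) (.e (nat_lit 196352) (nat_lit 0) (.e (nat_lit 1858) (nat_lit 124) (.e (nat_lit 557107) (nat_lit 15) (.e (nat_lit 196352) (nat_lit 0) .nil)))))) (.g (nat_lit 4) .nil .nil))) 
(.lf (nat_lit 84779) (.g (nat_lit 2027) (.e (nat_lit 1859) (nat_lit 124) (.e (nat_lit 557109) (nat_lit 15) (.e (nat_lit 188434) (nat_lit 20) (.e (nat_lit 3272) (nat_lit 199) (.e (nat_lit 548896) (nat_lit 14) (.e (nat_lit 2982) (nat_lit 186) (.e (nat_lit 450304) (nat_lit 0) .nil))))))) (.g (nat_lit 4) .nil .nil)))) (.nd (nat_lit 5) 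
(.lf (nat_lit 84763) (.g (nat_lit 2116) (.e (nat_lit 1859) (nat_lit 124) (.e (nat_lit 557109) (nat_lit 15) (.e (nat_lit 188433) (nat_lit 20) (.e (nat_lit 3148) (nat_lit 193) .nil)))) .nil)) 
(.lf (nat_lit 84795) (.g (nat_lit 2918) (.e (nat_lit 1859) (nat_lit 124) (.e (nat_lit 557109) (nat_lit 15) (.e (nat_lit 188434) (nat_lit 20) (.e (nat_lit 3272) (nat_lit 199) (.e (nat_lit 548898) (nat_lit 14) (.e (nat_lit 3005) (nat_lit 186) (.e (nat_lit 450304) (nat_lit 0) .nil))))))) (.g (nat_lit 6) .nil .nil)))))) (.nd (nat_lit 3) (.nd (nat_lit 4) (.nd (nat_lit 5) 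
(.lf (nat_lit 84743) (.g (nat_lit 2321) (.e (nat_lit 1859) (nat_lit 124) (.e (nat_lit 557109) (nat_lit 15) (.e (nat_lit 188419) (nat_lit 0) (.e (nat_lit 1855) (nat_lit 124) (.e (nat_lit 557107) (nat_lit 15) (.e (nat_lit 196352) (nat_lit 0) .nil)))))) (.g (nat_lit 4) .nil .nil))) 
(.lf (nat_lit 84775) (.g (nat_lit 2080) (.e (nat_lit 1859) (nat_lit 124) (.e (nat_lit 557109) (nat_lit 15) (.e (nat_lit 188434) (nat_lit 20) (.e (nat_lit 3271) (nat_lit 199) (.e (nat_lit 548913) (nat_lit 18) (.e (nat_lit 172088) (nat_lit 9) (.e (nat_lit 433920) (nat_lit 15) .nil))))))) (.g (nat_lit 5) .nil .nil)))) (.nd (nat_lit 5) 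
(.lf (nat_lit 84759) (.g (nat_lit 2116) (.e (nat_lit 1859) (nat_lit 124) (.e (nat_lit 557109) (nat_lit 15) (.e (nat_lit 188433) (nat_lit 20) (.e (nat_lit 3138) (nat_lit 193) .nil)))) .nil)) 
(.lf (nat_lit 84791) (.g (nat_lit 2514) (.e (nat_lit 1859) (nat_lit 124) (.e (nat_lit 557109) (nat_lit 15) (.e (nat_lit 188434) (nat_lit 20) (.e (nat_lit 3272) (nat_lit 199) (.e (nat_lit 548898) (nat_lit 14) (.e (nat_lit 2989) (nat_lit 186) (.e (nat_lit 450304) (nat_lit 0) .nil))))))) (.g (nat_lit 6) .nil .nil))))) (.nd (nat_lit 4) (.nd (nat_lit 5) 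
(.lf (nat_lit 84751) (.g (nat_lit 704) (.e (nat_lit 1859) (nat_lit 124) (.e (nat_lit 557109) (nat_lit 15) (.e (nat_lit 188433) (nat_lit 20) .nil))) .nil)) 
(.lf (nat_lit 84783) (.g (nat_lit 1460) (.e (nat_lit 1859) (nat_lit 124) (.e (nat_lit 557109) (nat_lit 15) (.e (nat_lit 188434) (nat_lit 20) (.e (nat_lit 3272) (nat_lit 199) (.e (nat_lit 548897) (nat_lit 14) .nil))))) .nil))) (.nd (nat_lit 5) 
(.lf (nat_lit 84767) (.g (nat_lit 1660) (.e (nat_lit 1859) (nat_lit 124) (.e (nat_lit 557109) (nat_lit 15) (.e (nat_lit 188434) (nat_lit 20) (.e (nat_lit 3270) (nat_lit 199) .nil)))) .nil)) 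
(.lf (nat_lit 84799) (.g (nat_lit 2971) (.e (nat_lit 1859) (nat_lit 124) (.e (nat_lit 557109) (nat_lit 15) (.e (nat_lit 188434) (nat_lit 20) (.e (nat_lit 3272) (nat_lit 199) (.e (nat_lit 548913) (nat_lit 18) (.e (nat_lit 172088) (nat_lit 9) (.e (nat_lit 433920) (nat_lit 15) .nil))))))) (.g (nat_lit 6) .nil .nil)))))))))

noncomputable def tv1149 : DT := (.nd (nat_lit 0) (.nd (nat_lit 1) (.nd (nat_lit 2) (.nd (nat_lit 3) (.nd (nat_lit 4) (.nd (nat_lit 5) 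
(.lf (nat_lit 84800) (.g (nat_lit 1781) (.e (nat_lit 1859) (nat_lit 124) (.e (nat_lit 557109) (nat_lit 15) (.e (nat_lit 188434) (nat_lit 20) (.e (nat_lit 3272) (nat_lit 199) (.e (nat_lit 548913) (nat_lit 18) (.e (nat_lit 172089) (nat_lit 9) (.e (nat_lit 433920) (nat_lit 15) .nil))))))) (.g (nat_lit 4) .nil .nil))) 
(.lf (nat_lit 84832) (.g (nat_lit 2286) (.e (nat_lit 1859) (nat_lit 124) (.e (nat_lit 557109) (nat_lit 15) (.e (nat_lit 188447) (nat_lit 22) (.e (nat_lit 196661) (nat_lit 12) (.e (nat_lit 57722) (nat_lit 178) .nil))))) .nil))) (.nd (nat_lit 5) 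
(.lf (nat_lit 84816) (.g (nat_lit 2220) (.e (nat_lit 1859) (nat_lit 124) (.e (nat_lit 557109) (nat_lit 15) (.e (nat_lit 188441) (nat_lit 20) (.e (nat_lit 3272) (nat_lit 199) (.e (nat_lit 548913) (nat_lit 18) .nil))))) .nil)) 
(.lf (nat_lit 84848) (.g (nat_lit 4824) (.e (nat_lit 1859) (nat_lit 124) (.e (nat_lit 557109) (nat_lit 15) (.e (nat_lit 188449) (nat_lit 22) (.e (nat_lit 196632) (nat_lit 9) .nil)))) .nil)))) (.nd (nat_lit 4) (.nd (nat_lit 5) 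
(.lf (nat_lit 84808) (.g (nat_lit 2612) (.e (nat_lit 1859) (nat_lit 124) (.e (nat_lit 557109) (nat_lit 15) (.e (nat_lit 188441) (nat_lit 20) (.e (nat_lit 3272) (nat_lit 199) (.e (nat_lit 548897) (nat_lit 14) (.e (nat_lit 2988) (nat_lit 186) (.e (nat_lit 450304) (nat_lit 0) .nil))))))) (.g (nat_lit 4) .nil .nil))) 
(.lf (nat_lit 84840) (.g (nat_lit 4975) (.e (nat_lit 1859) (nat_lit 124) (.e (nat_lit 557109) (nat_lit 15) (.e (nat_lit 188449) (nat_lit 22) (.e (nat_lit 196627) (nat_lit 9) .nil)))) .nil))) (.nd (nat_lit 5) 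
(.lf (nat_lit 84824) (.g (nat_lit 595) (.e (nat_lit 1859) (nat_lit 124) (.e (nat_lit 557109) (nat_lit 15) (.e (nat_lit 188447) (nat_lit 22) .nil))) .nil)) 
(.lf (nat_lit 84856) (.g (nat_lit 3736) (.e (nat_lit 1859) (nat_lit 124) (.e (nat_lit 557109) (nat_lit 15) (.e (nat_lit 188449) (nat_lit 22) (.e (nat_lit 196646) (nat_lit 9) .nil)))) .nil))))) (.nd (nat_lit 3) (.nd (nat_lit 4) (.nd (nat_lit 5) 
(.lf (nat_lit 84804) (.g (nat_lit 959) (.e (nat_lit 1859) (nat_lit 124) (.e (nat_lit 557109) (nat_lit 15) (.e (nat_lit 188435) (nat_lit 20) .nil))) .nil)) 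
(.lf (nat_lit 84836) (.g (nat_lit 4803) (.e (nat_lit 1859) (nat_lit 124) (.e (nat_lit 557109) (nat_lit 15) (.e (nat_lit 188449) (nat_lit 22) (.e (nat_lit 196622) (nat_lit 9) .nil)))) .nil))) (.nd (nat_lit 5) 
(.lf (nat_lit 84820) (.g (nat_lit 1932) (.e (nat_lit 1859) (nat_lit 124) (.e (nat_lit 557109) (nat_lit 15) (.e (nat_lit 188446) (nat_lit 21) (.e (nat_lit 171776) (nat_lit 139) .nil)))) .nil)) 
(.lf (nat_lit 84852) (.g (nat_lit 4893) (.e (nat_lit 1859) (nat_lit 124) (.e (nat_lit 557109) (nat_lit 15) (.e (nat_lit 188449) (nat_lit 22) (.e (nat_lit 196641) (nat_lit 9) .nil)))) .nil)))) (.nd (nat_lit 4) (.nd (nat_lit 5) 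
(.lf (nat_lit 84812) (.g (nat_lit 2985) (.e (nat_lit 1859) (nat_lit 124) (.e (nat_lit 557109) (nat_lit 15) (.e (nat_lit 188441) (nat_lit 20) (.e (nat_lit 3272) (nat_lit 199) (.e (nat_lit 548898) (nat_lit 14) (.e (nat_lit 2998) (nat_lit 186) (.e (nat_lit 450304) (nat_lit 0) .nil))))))) (.g (nat_lit 4) .nil .nil))) 
(.lf (nat_lit 84844) (.g (nat_lit 2494) (.e (nat_lit 1859) (nat_lit 124) (.e (nat_lit 557109) (nat_lit 15) (.e (nat_lit 188449) (nat_lit 22) (.e (nat_lit 196630) (nat_lit 9) (.e (nat_lit 1667) (nat_lit 116) .nil))))) .nil))) (.nd (nat_lit 5) 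
(.lf (nat_lit 84828) (.g (nat_lit 3289) (.e (nat_lit 1859) (nat_lit 124) (.e (nat_lit 557109) (nat_lit 15) (.e (nat_lit 188447) (nat_lit 22) (.e (nat_lit 196630) (nat_lit 9) (.e (nat_lit 1669) (nat_lit 116) (.e (nat_lit 401436) (nat_lit 9) (.e (nat_lit 426402) (nat_lit 15) .nil))))))) (.g (nat_lit 4) .nil .nil))) 
(.lf (nat_lit 84860) (.g (nat_lit 4857) (.e (nat_lit 1859) (nat_lit 124) (.e (nat_lit 557109) (nat_lit 15) (.e (nat_lit 188449) (nat_lit 22) (.e (nat_lit 196660) (nat_lit 12) .nil)))) .nil)))))) (.nd (nat_lit 2) (.nd (nat_lit 3) (.nd (nat_lit 4) (.nd (nat_lit 5) 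
(.lf (nat_lit 84802) (.g (nat_lit 2948) (.e (nat_lit 1859) (nat_lit 124) (.e (nat_lit 557109) (nat_lit 15) (.e (nat_lit 188434) (nat_lit 20) (.e (nat_lit 3272) (nat_lit 199) (.e (nat_lit 548915) (nat_lit 20) (.e (nat_lit 196352) (nat_lit 0) .nil)))))) (.g (nat_lit 5) .nil .nil))) 
(.lf (nat_lit 84834) (.g (nat_lit 4982) (.e (nat_lit 1859) (nat_lit 124) (.e (nat_lit 557109) (nat_lit 15) (.e (nat_lit 188449) (nat_lit 22) (.e (nat_lit 196619) (nat_lit 9) .nil)))) .nil))) (.nd (nat_lit 5) 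
(.lf (nat_lit 84818) (.g (nat_lit 949) (.e (nat_lit 1859) (nat_lit 124) (.e (nat_lit 557109) (nat_lit 15) (.e (nat_lit 188446) (nat_lit 21) .nil))) .nil)) 
(.lf (nat_lit 84850) (.g (nat_lit 4874) (.e (nat_lit 1859) (nat_lit 124) (.e (nat_lit 557109) (nat_lit 15) (.e (nat_lit 188449) (nat_lit 22) (.e (nat_lit 196638) (nat_lit 9) .nil)))) .nil)))) (.nd (nat_lit 4) (.nd (nat_lit 5) 
(.lf (nat_lit 84810) (.g (nat_lit 2640) (.e (nat_lit 1859) (nat_lit 124) (.e (nat_lit 557109) (nat_lit 15) (.e (nat_lit 188441) (nat_lit 20) (.e (nat_lit 3272) (nat_lit 199) (.e (nat_lit 548897) (nat_lit 14) (.e (nat_lit 3004) (nat_lit 186) (.e (nat_lit 450304) (nat_lit 0) .nil))))))) (.g (nat_lit 4) .nil .nil))) 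
(.lf (nat_lit 84842) (.g (nat_lit 3202) (.e (nat_lit 1859) (nat_lit 124) (.e (nat_lit 557109) (nat_lit 15) (.e (nat_lit 188449) (nat_lit 22) (.e (nat_lit 196628) (nat_lit 9) (.e (nat_lit 970) (nat_lit 81) (.e (nat_lit 6719) (nat_lit 361) (.e (nat_lit 179968) (nat_lit 15) .nil))))))) (.g (nat_lit 6) .nil .nil)))) (.nd (nat_lit 5) 
(.lf (nat_lit 84826) (.g (nat_lit 3491) (.e (nat_lit 1859) (nat_lit 124) (.e (nat_lit 557109) (nat_lit 15) (.e (nat_lit 188447) (nat_lit 22) (.e (nat_lit 196628) (nat_lit 9) (.e (nat_lit 1676) (nat_lit 116) (.e (nat_lit 401438) (nat_lit 9) (.e (nat_lit 426402) (nat_lit 15) .nil))))))) (.g (nat_lit 4) .nil .nil))) 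
(.lf (nat_lit 84858) (.g (nat_lit 5134) (.e (nat_lit 1859) (nat_lit 124) (.e (nat_lit 557109) (nat_lit 15) (.e (nat_lit 188449) (nat_lit 22) (.e (nat_lit 196658) (nat_lit 12) .nil)))) .nil))))) (.nd (nat_lit 3) (.nd (nat_lit 4) (.nd (nat_lit 5) 
(.lf (nat_lit 84806) (.g (nat_lit 750) (.e (nat_lit 1859) (nat_lit 124) (.e (nat_lit 557109) (nat_lit 15) (.e (nat_lit 188441) (nat_lit 20) .nil))) .nil)) 
(.lf (nat_lit 84838) (.g (nat_lit 4601) (.e (nat_lit 1859) (nat_lit 124) (.e (nat_lit 557109) (nat_lit 15) (.e (nat_lit 188449) (nat_lit 22) (.e (nat_lit 196624) (nat_lit 9) .nil)))) .nil))) (.nd (nat_lit 5) 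
(.lf (nat_lit 84822) (.g (nat_lit 2471) (.e (nat_lit 1859) (nat_lit 124) (.e (nat_lit 557109) (nat_lit 15) (.e (nat_lit 188446) (nat_lit 21) (.e (nat_lit 164178) (nat_lit 154) (.e (nat_lit 57390) (nat_lit 5) .nil))))) .nil)) 
(.lf (nat_lit 84854) (.g (nat_lit 4950) (.e (nat_lit 1859) (nat_lit 124) (.e (nat_lit 557109) (nat_lit 15) (.e (nat_lit 188449) (nat_lit 22) (.e (nat_lit 196643) (nat_lit 9) .nil)))) .nil)))) (.nd (nat_lit 4) (.nd (nat_lit 5) 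
(.lf (nat_lit 84814) (.g (nat_lit 3067) (.e (nat_lit 1859) (nat_lit 124) (.e (nat_lit 557109) (nat_lit 15) (.e (nat_lit 188441) (nat_lit 20) (.e (nat_lit 3272) (nat_lit 199) (.e (nat_lit 548898) (nat_lit 14) (.e (nat_lit 3004) (nat_lit 186) (.e (nat_lit 450304) (nat_lit 0) .nil))))))) (.g (nat_lit 5) .nil .nil))) 
(.lf (nat_lit 84846) (.g (nat_lit 3438) (.e (nat_lit 1859) (nat_lit 124) (.e (nat_lit 557109) (nat_lit 15) (.e (nat_lit 188449) (nat_lit 22) (.e (nat_lit 196630) (nat_lit 9) (.e (nat_lit 1669) (nat_lit 116) (.e (nat_lit 401436) (nat_lit 9) (.e (nat_lit 426402) (nat_lit 15) .nil))))))) (.g (nat_lit 5) .nil .nil)))) (.nd (nat_lit 5) 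
(.lf (nat_lit 84830) (.g (nat_lit 2916) (.e (nat_lit 1859) (nat_lit 124) (.e (nat_lit 557109) (nat_lit 15) (.e (nat_lit 188447) (nat_lit 22) (.e (nat_lit 196661) (nat_lit 12) (.e (nat_lit 57714) (nat_lit 176) (.e (nat_lit 1386) (nat_lit 105) (.e (nat_lit 311348) (nat_lit 15) .nil))))))) (.g (nat_lit 4) .nil .nil))) 
(.lf (nat_lit 84862) (.g (nat_lit 1917) (.e (nat_lit 1859) (nat_lit 124) (.e (nat_lit 557109) (nat_lit 15) (.e (nat_lit 188449) (nat_lit 22) (.e (nat_lit 196661) (nat_lit 12) (.e (nat_lit 57711) (nat_lit 176) .nil))))) .nil))))))) (.nd (nat_lit 1) (.nd (nat_lit 2) (.nd (nat_lit 3) (.nd (nat_lit 4) (.nd (nat_lit 5) 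
(.lf (nat_lit 84801) (.g (nat_lit 3349) (.e (nat_lit 1859) (nat_lit 124) (.e (nat_lit 557109) (nat_lit 15) (.e (nat_lit 188434) (nat_lit 20) (.e (nat_lit 3272) (nat_lit 199) (.e (nat_lit 548913) (nat_lit 18) (.e (nat_lit 172095) (nat_lit 9) (.e (nat_lit 433920) (nat_lit 15) .nil))))))) (.g (nat_lit 6) .nil .nil))) 
(.lf (nat_lit 84833) (.g (nat_lit 2188) (.e (nat_lit 1859) (nat_lit 124) (.e (nat_lit 557109) (nat_lit 15) (.e (nat_lit 188447) (nat_lit 22) (.e (nat_lit 196666) (nat_lit 13) .nil)))) .nil))) (.nd (nat_lit 5) 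
(.lf (nat_lit 84817) (.g (nat_lit 2608) (.e (nat_lit 1859) (nat_lit 124) (.e (nat_lit 557109) (nat_lit 15) (.e (nat_lit 188441) (nat_lit 20) (.e (nat_lit 3272) (nat_lit 199) (.e (nat_lit 548915) (nat_lit 20) (.e (nat_lit 196352) (nat_lit 0) .nil)))))) (.g (nat_lit 4) .nil .nil))) 
(.lf (nat_lit 84849) (.g (nat_lit 3595) (.e (nat_lit 1859) (nat_lit 124) (.e (nat_lit 557109) (nat_lit 15) (.e (nat_lit 188449) (nat_lit 22) (.e (nat_lit 196637) (nat_lit 9) .nil)))) .nil)))) (.nd (nat_lit 4) (.nd (nat_lit 5) 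
(.lf (nat_lit 84809) (.g (nat_lit 2626) (.e (nat_lit 1859) (nat_lit 124) (.e (nat_lit 557109) (nat_lit 15) (.e (nat_lit 188441) (nat_lit 20) (.e (nat_lit 3272) (nat_lit 199) (.e (nat_lit 548897) (nat_lit 14) (.e (nat_lit 2999) (nat_lit 186) (.e (nat_lit 450304) (nat_lit 0) .nil))))))) (.g (nat_lit 4) .nil .nil))) 
(.lf (nat_lit 84841) (.g (nat_lit 3297) (.e (nat_lit 1859) (nat_lit 124) (.e (nat_lit 557109) (nat_lit 15) (.e (nat_lit 188449) (nat_lit 22) (.e (nat_lit 196628) (nat_lit 9) (.e (nat_lit 968) (nat_lit 81) (.e (nat_lit 6719) (nat_lit 361) (.e (nat_lit 179968) (nat_lit 15) .nil))))))) (.g (nat_lit 6) .nil .nil)))) (.nd (nat_lit 5) 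
(.lf (nat_lit 84825) (.g (nat_lit 2313) (.e (nat_lit 1859) (nat_lit 124) (.e (nat_lit 557109) (nat_lit 15) (.e (nat_lit 188447) (nat_lit 22) (.e (nat_lit 196628) (nat_lit 9) .nil)))) .nil)) 
(.lf (nat_lit 84857) (.g (nat_lit 3927) (.e (nat_lit 1859) (nat_lit 124) (.e (nat_lit 557109) (nat_lit 15) (.e (nat_lit 188449) (nat_lit 22) (.e (nat_lit 196657) (nat_lit 12) .nil)))) .nil))))) (.nd (nat_lit 3) (.nd (nat_lit 4) (.nd (nat_lit 5) 
(.lf (nat_lit 84805) (.g (nat_lit 940) (.e (nat_lit 1859) (nat_lit 124) (.e (nat_lit 557109) (nat_lit 15) (.e (nat_lit 188437) (nat_lit 20) .nil))) .nil)) 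
(.lf (nat_lit 84837) (.g (nat_lit 4925) (.e (nat_lit 1859) (nat_lit 124) (.e (nat_lit 557109) (nat_lit 15) (.e (nat_lit 188449) (nat_lit 22) (.e (nat_lit 196623) (nat_lit 9) .nil)))) .nil))) (.nd (nat_lit 5) 
(.lf (nat_lit 84821) (.g (nat_lit 1915) (.e (nat_lit 1859) (nat_lit 124) (.e (nat_lit 557109) (nat_lit 15) (.e (nat_lit 188446) (nat_lit 21) (.e (nat_lit 164177) (nat_lit 154) .nil)))) .nil)) 
(.lf (nat_lit 84853) (.g (nat_lit 4261) (.e (nat_lit 1859) (nat_lit 124) (.e (nat_lit 557109) (nat_lit 15) (.e (nat_lit 188449) (nat_lit 22) (.e (nat_lit 196642) (nat_lit 9) .nil)))) .nil)))) (.nd (nat_lit 4) (.nd (nat_lit 5) 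
(.lf (nat_lit 84813) (.g (nat_lit 3273) (.e (nat_lit 1859) (nat_lit 124) (.e (nat_lit 557109) (nat_lit 15) (.e (nat_lit 188441) (nat_lit 20) (.e (nat_lit 3272) (nat_lit 199) (.e (nat_lit 548898) (nat_lit 14) (.e (nat_lit 2999) (nat_lit 186) (.e (nat_lit 450304) (nat_lit 0) .nil))))))) (.g (nat_lit 5) .nil .nil))) 
(.lf (nat_lit 84845) (.g (nat_lit 2588) (.e (nat_lit 1859) (nat_lit 124) (.e (nat_lit 557109) (nat_lit 15) (.e (nat_lit 188449) (nat_lit 22) (.e (nat_lit 196630) (nat_lit 9) (.e (nat_lit 1667) (nat_lit 116) (.e (nat_lit 401437) (nat_lit 9) (.e (nat_lit 426402) (nat_lit 15) .nil))))))) (.g (nat_lit 4) .nil .nil)))) (.nd (nat_lit 5) 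
(.lf (nat_lit 84829) (.g (nat_lit 1884) (.e (nat_lit 1859) (nat_lit 124) (.e (nat_lit 557109) (nat_lit 15) (.e (nat_lit 188447) (nat_lit 22) (.e (nat_lit 196661) (nat_lit 12) .nil)))) .nil)) 
(.lf (nat_lit 84861) (.g (nat_lit 1588) (.e (nat_lit 1859) (nat_lit 124) (.e (nat_lit 557109) (nat_lit 15) (.e (nat_lit 188449) (nat_lit 22) (.e (nat_lit 196661) (nat_lit 12) .nil)))) .nil)))))) (.nd (nat_lit 2) (.nd (nat_lit 3) (.nd (nat_lit 4) (.nd (nat_lit 5) 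
(.lf (nat_lit 84803) (.g (nat_lit 1679) (.e (nat_lit 1859) (nat_lit 124) (.e (nat_lit 557109) (nat_lit 15) (.e (nat_lit 188434) (nat_lit 20) (.e (nat_lit 3304) (nat_lit 202) .nil)))) .nil)) 
(.lf (nat_lit 84835) (.g (nat_lit 4845) (.e (nat_lit 1859) (nat_lit 124) (.e (nat_lit 557109) (nat_lit 15) (.e (nat_lit 188449) (nat_lit 22) (.e (nat_lit 196620) (nat_lit 9) .nil)))) .nil))) (.nd (nat_lit 5) 
(.lf (nat_lit 84819) (.g (nat_lit 2097) (.e (nat_lit 1859) (nat_lit 124) (.e (nat_lit 557109) (nat_lit 15) (.e (nat_lit 188446) (nat_lit 21) (.e (nat_lit 164131) (nat_lit 134) .nil)))) .nil)) 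
(.lf (nat_lit 84851) (.g (nat_lit 5035) (.e (nat_lit 1859) (nat_lit 124) (.e (nat_lit 557109) (nat_lit 15) (.e (nat_lit 188449) (nat_lit 22) (.e (nat_lit 196640) (nat_lit 9) .nil)))) .nil)))) (.nd (nat_lit 4) (.nd (nat_lit 5) 
(.lf (nat_lit 84811) (.g (nat_lit 2944) (.e (nat_lit 1859) (nat_lit 124) (.e (nat_lit 557109) (nat_lit 15) (.e (nat_lit 188441) (nat_lit 20) (.e (nat_lit 3272) (nat_lit 199) (.e (nat_lit 548898) (nat_lit 14) (.e (nat_lit 2988) (nat_lit 186) (.e (nat_lit 450304) (nat_lit 0) .nil))))))) (.g (nat_lit 4) .nil .nil))) 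
(.lf (nat_lit 84843) (.g (nat_lit 3756) (.e (nat_lit 1859) (nat_lit 124) (.e (nat_lit 557109) (nat_lit 15) (.e (nat_lit 188449) (nat_lit 22) (.e (nat_lit 196628) (nat_lit 9) (.e (nat_lit 1676) (nat_lit 116) (.e (nat_lit 401438) (nat_lit 9) (.e (nat_lit 426402) (nat_lit 15) .nil))))))) (.g (nat_lit 7) .nil .nil)))) (.nd (nat_lit 5) 
(.lf (nat_lit 84827) (.g (nat_lit 2925) (.e (nat_lit 1859) (nat_lit 124) (.e (nat_lit 557109) (nat_lit 15) (.e (nat_lit 188447) (nat_lit 22) (.e (nat_lit 196630) (nat_lit 9) (.e (nat_lit 1667) (nat_lit 116) .nil))))) .nil)) 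
(.lf (nat_lit 84859) (.g (nat_lit 5134) (.e (nat_lit 1859) (nat_lit 124) (.e (nat_lit 557109) (nat_lit 15) (.e (nat_lit 188449) (nat_lit 22) (.e (nat_lit 196659) (nat_lit 12) .nil)))) .nil))))) (.nd (nat_lit 3) (.nd (nat_lit 4) (.nd (nat_lit 5) 
(.lf (nat_lit 84807) (.g (nat_lit 1912) (.e (nat_lit 1859) (nat_lit 124) (.e (nat_lit 557109) (nat_lit 15) (.e (nat_lit 188441) (nat_lit 20) (.e (nat_lit 3271) (nat_lit 199) (.e (nat_lit 548913) (nat_lit 18) .nil))))) .nil)) 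
(.lf (nat_lit 84839) (.g (nat_lit 4743) (.e (nat_lit 1859) (nat_lit 124) (.e (nat_lit 557109) (nat_lit 15) (.e (nat_lit 188449) (nat_lit 22) (.e (nat_lit 196626) (nat_lit 9) .nil)))) .nil))) (.nd (nat_lit 5) 
(.lf (nat_lit 84823) (.g (nat_lit 3562) (.e (nat_lit 1859) (nat_lit 124) (.e (nat_lit 557109) (nat_lit 15) (.e (nat_lit 188446) (nat_lit 21) (.e (nat_lit 164178) (nat_lit 154) (.e (nat_lit 57390) (nat_lit 5) (.e (nat_lit 114711) (nat_lit 21) (.e (nat_lit 57681) (nat_lit 155) (.e (nat_lit 122880) (nat_lit 0) .nil)))))))) (.g (nat_lit 5) .nil .nil))) 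
(.lf (nat_lit 84855) (.g (nat_lit 5034) (.e (nat_lit 1859) (nat_lit 124) (.e (nat_lit 557109) (nat_lit 15) (.e (nat_lit 188449) (nat_lit 22) (.e (nat_lit 196645) (nat_lit 9) .nil)))) .nil)))) (.nd (nat_lit 4) (.nd (nat_lit 5) 
(.lf (nat_lit 84815) (.g (nat_lit 2878) (.e (nat_lit 1859) (nat_lit 124) (.e (nat_lit 557109) (nat_lit 15) (.e (nat_lit 188441) (nat_lit 20) (.e (nat_lit 3272) (nat_lit 199) (.e (nat_lit 548898) (nat_lit 14) (.e (nat_lit 3005) (nat_lit 186) (.e (nat_lit 450304) (nat_lit 0) .nil))))))) (.g (nat_lit 4) .nil .nil))) 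
(.lf (nat_lit 84847) (.g (nat_lit 4589) (.e (nat_lit 1859) (nat_lit 124) (.e (nat_lit 557109) (nat_lit 15) (.e (nat_lit 188449) (nat_lit 22) (.e (nat_lit 196630) (nat_lit 9) (.e (nat_lit 1669) (nat_lit 116) (.e (nat_lit 401437) (nat_lit 9) (.e (nat_lit 426402) (nat_lit 15) .nil))))))) (.g (nat_lit 7) .nil .nil)))) (.nd (nat_lit 5) 
(.lf (nat_lit 84831) (.g (nat_lit 2267) (.e (nat_lit 1859) (nat_lit 124) (.e (nat_lit 557109) (nat_lit 15) (.e (nat_lit 188447) (nat_lit 22) (.e (nat_lit 196661) (nat_lit 12) (.e (nat_lit 57721) (nat_lit 177) .nil))))) .nil)) 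
(.lf (nat_lit 84863) (.g (nat_lit 3306) (.e (nat_lit 1859) (nat_lit 124) (.e (nat_lit 557109) (nat_lit 15) (.e (nat_lit 188449) (nat_lit 22) (.e (nat_lit 196661) (nat_lit 12) (.e (nat_lit 57712) (nat_lit 176) (.e (nat_lit 1378) (nat_lit 104) (.e (nat_lit 303147) (nat_lit 15) .nil))))))) (.g (nat_lit 0) .nil .nil)))))))))

noncomputable def tv1150 : DT := (.nd (nat_lit 0) (.nd (nat_lit 1) (.nd (nat_lit 2) (.nd (nat_lit 3) (.nd (nat_lit 4) (.nd (nat_lit 5) 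
(.lf (nat_lit 84864) (.g (nat_lit 2653) (.e (nat_lit 1859) (nat_lit 124) (.e (nat_lit 557109) (nat_lit 15) (.e (nat_lit 188449) (nat_lit 22) (.e (nat_lit 196661) (nat_lit 12) (.e (nat_lit 57712) (nat_lit 176) (.e (nat_lit 1378) (nat_lit 104) (.e (nat_lit 311040) (nat_lit 15) .nil))))))) (.g (nat_lit 5) .nil .nil))) 
(.lf (nat_lit 84896) (.g (nat_lit 2371) (.e (nat_lit 1859) (nat_lit 124) (.e (nat_lit 557109) (nat_lit 15) (.e (nat_lit 188450) (nat_lit 23) (.e (nat_lit 204817) (nat_lit 17) .nil)))) .nil))) (.nd (nat_lit 5) 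
(.lf (nat_lit 84880) (.g (nat_lit 5134) (.e (nat_lit 1859) (nat_lit 124) (.e (nat_lit 557109) (nat_lit 15) (.e (nat_lit 188449) (nat_lit 22) (.e (nat_lit 196676) (nat_lit 16) .nil)))) .nil)) 
(.lf (nat_lit 84912) (.g (nat_lit 2702) (.e (nat_lit 1859) (nat_lit 124) (.e (nat_lit 557109) (nat_lit 15) (.e (nat_lit 188450) (nat_lit 23) (.e (nat_lit 204845) (nat_lit 24) (.e (nat_lit 319539) (nat_lit 19) .nil))))) .nil)))) (.nd (nat_lit 4) (.nd (nat_lit 5) 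
(.lf (nat_lit 84872) (.g (nat_lit 4727) (.e (nat_lit 1859) (nat_lit 124) (.e (nat_lit 557109) (nat_lit 15) (.e (nat_lit 188449) (nat_lit 22) (.e (nat_lit 196665) (nat_lit 13) .nil)))) .nil)) 
(.lf (nat_lit 84904) (.g (nat_lit 3234) (.e (nat_lit 1859) (nat_lit 124) (.e (nat_lit 557109) (nat_lit 15) (.e (nat_lit 188450) (nat_lit 23) (.e (nat_lit 204821) (nat_lit 17) (.e (nat_lit 6136) (nat_lit 332) (.e (nat_lit 1385) (nat_lit 105) (.e (nat_lit 311348) (nat_lit 15) .nil))))))) (.g (nat_lit 4) .nil .nil)))) (.nd (nat_lit 5) 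
(.lf (nat_lit 84888) (.g (nat_lit 5018) (.e (nat_lit 1859) (nat_lit 124) (.e (nat_lit 557109) (nat_lit 15) (.e (nat_lit 188449) (nat_lit 22) (.e (nat_lit 196694) (nat_lit 18) .nil)))) .nil)) 
(.lf (nat_lit 84920) (.g (nat_lit 3530) (.e (nat_lit 1859) (nat_lit 124) (.e (nat_lit 557109) (nat_lit 15) (.e (nat_lit 188450) (nat_lit 23) (.e (nat_lit 204854) (nat_lit 26) (.e (nat_lit 336306) (nat_lit 15) .nil))))) .nil))))) (.nd (nat_lit 3) (.nd (nat_lit 4) (.nd (nat_lit 5) 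
(.lf (nat_lit 84868) (.g (nat_lit 2484) (.e (nat_lit 1859) (nat_lit 124) (.e (nat_lit 557109) (nat_lit 15) (.e (nat_lit 188449) (nat_lit 22) (.e (nat_lit 196661) (nat_lit 12) (.e (nat_lit 65280) (nat_lit 205) (.e (nat_lit 179968) (nat_lit 15) .nil)))))) (.g (nat_lit 4) .nil .nil))) 
(.lf (nat_lit 84900) (.g (nat_lit 2193) (.e (nat_lit 1859) (nat_lit 124) (.e (nat_lit 557109) (nat_lit 15) (.e (nat_lit 188450) (nat_lit 23) (.e (nat_lit 204821) (nat_lit 17) .nil)))) .nil))) (.nd (nat_lit 5) 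
(.lf (nat_lit 84884) (.g (nat_lit 4942) (.e (nat_lit 1859) (nat_lit 124) (.e (nat_lit 557109) (nat_lit 15) (.e (nat_lit 188449) (nat_lit 22) (.e (nat_lit 196680) (nat_lit 17) .nil)))) .nil)) 
(.lf (nat_lit 84916) (.g (nat_lit 2312) (.e (nat_lit 1859) (nat_lit 124) (.e (nat_lit 557109) (nat_lit 15) (.e (nat_lit 188450) (nat_lit 23) (.e (nat_lit 204852) (nat_lit 26) .nil)))) .nil)))) (.nd (nat_lit 4) (.nd (nat_lit 5) 
(.lf (nat_lit 84876) (.g (nat_lit 4489) (.e (nat_lit 1859) (nat_lit 124) (.e (nat_lit 557109) (nat_lit 15) (.e (nat_lit 188449) (nat_lit 22) (.e (nat_lit 196668) (nat_lit 14) .nil)))) .nil)) 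
(.lf (nat_lit 84908) (.g (nat_lit 2720) (.e (nat_lit 1859) (nat_lit 124) (.e (nat_lit 557109) (nat_lit 15) (.e (nat_lit 188450) (nat_lit 23) (.e (nat_lit 204821) (nat_lit 17) (.e (nat_lit 6676) (nat_lit 357) .nil))))) .nil))) (.nd (nat_lit 5) 
(.lf (nat_lit 84892) (.g (nat_lit 4124) (.e (nat_lit 1859) (nat_lit 124) (.e (nat_lit 557109) (nat_lit 15) (.e (nat_lit 188449) (nat_lit 22) (.e (nat_lit 196700) (nat_lit 22) .nil)))) .nil)) 
(.lf (nat_lit 84924) (.g (nat_lit 3366) (.e (nat_lit 1859) (nat_lit 124) (.e (nat_lit 557109) (nat_lit 15) (.e (nat_lit 188450) (nat_lit 23) (.e (nat_lit 204882) (nat_lit 32) (.e (nat_lit 385104) (nat_lit 50) (.e (nat_lit 786444) (nat_lit 15) .nil)))))) (.g (nat_lit 4) .nil .nil))))))) (.nd (nat_lit 2) (.nd (nat_lit 3) (.nd (nat_lit 4) (.nd (nat_lit 5) 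
(.lf (nat_lit 84866) (.g (nat_lit 2243) (.e (nat_lit 1859) (nat_lit 124) (.e (nat_lit 557109) (nat_lit 15) (.e (nat_lit 188449) (nat_lit 22) (.e (nat_lit 196661) (nat_lit 12) (.e (nat_lit 57721) (nat_lit 177) (.e (nat_lit 57863) (nat_lit 256) (.e (nat_lit 59) (nat_lit 0) .nil))))))) (.g (nat_lit 5) .nil .nil))) 
(.lf (nat_lit 84898) (.g (nat_lit 2061) (.e (nat_lit 1859) (nat_lit 124) (.e (nat_lit 557109) (nat_lit 15) (.e (nat_lit 188450) (nat_lit 23) (.e (nat_lit 204819) (nat_lit 17) .nil)))) .nil))) (.nd (nat_lit 5) 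
(.lf (nat_lit 84882) (.g (nat_lit 4765) (.e (nat_lit 1859) (nat_lit 124) (.e (nat_lit 557109) (nat_lit 15) (.e (nat_lit 188449) (nat_lit 22) (.e (nat_lit 196677) (nat_lit 16) (.e (nat_lit 123080) (nat_lit 177) (.e (nat_lit 57864) (nat_lit 256) (.e (nat_lit 60) (nat_lit 0) .nil))))))) (.g (nat_lit 4) .nil .nil))) 
(.lf (nat_lit 84914) (.g (nat_lit 3372) (.e (nat_lit 1859) (nat_lit 124) (.e (nat_lit 557109) (nat_lit 15) (.e (nat_lit 188450) (nat_lit 23) (.e (nat_lit 204846) (nat_lit 24) (.e (nat_lit 319539) (nat_lit 19) (.e (nat_lit 311348) (nat_lit 15) .nil)))))) (.g (nat_lit 4) .nil .nil))))) (.nd (nat_lit 4) (.nd (nat_lit 5) 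
(.lf (nat_lit 84874) (.g (nat_lit 2660) (.e (nat_lit 1859) (nat_lit 124) (.e (nat_lit 557109) (nat_lit 15) (.e (nat_lit 188449) (nat_lit 22) (.e (nat_lit 196666) (nat_lit 13) (.e (nat_lit 65574) (nat_lit 4) .nil))))) .nil)) 
(.lf (nat_lit 84906) (.g (nat_lit 2723) (.e (nat_lit 1859) (nat_lit 124) (.e (nat_lit 557109) (nat_lit 15) (.e (nat_lit 188450) (nat_lit 23) (.e (nat_lit 204821) (nat_lit 17) (.e (nat_lit 6206) (nat_lit 333) .nil))))) .nil))) (.nd (nat_lit 5) 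
(.lf (nat_lit 84890) (.g (nat_lit 463) (.e (nat_lit 1859) (nat_lit 124) (.e (nat_lit 557109) (nat_lit 15) (.e (nat_lit 188449) (nat_lit 22) (.e (nat_lit 204544) (nat_lit 21) .nil)))) .nil)) 
(.lf (nat_lit 84922) (.g (nat_lit 4447) (.e (nat_lit 1859) (nat_lit 124) (.e (nat_lit 557109) (nat_lit 15) (.e (nat_lit 188450) (nat_lit 23) (.e (nat_lit 204880) (nat_lit 32) (.e (nat_lit 385102) (nat_lit 50) .nil))))) .nil))))) (.nd (nat_lit 3) (.nd (nat_lit 4) (.nd (nat_lit 5) 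
(.lf (nat_lit 84870) (.g (nat_lit 4051) (.e (nat_lit 1859) (nat_lit 124) (.e (nat_lit 557109) (nat_lit 15) (.e (nat_lit 188449) (nat_lit 22) (.e (nat_lit 196662) (nat_lit 13) .nil)))) .nil)) 
(.lf (nat_lit 84902) (.g (nat_lit 2715) (.e (nat_lit 1859) (nat_lit 124) (.e (nat_lit 557109) (nat_lit 15) (.e (nat_lit 188450) (nat_lit 23) (.e (nat_lit 204821) (nat_lit 17) (.e (nat_lit 6114) (nat_lit 332) .nil))))) .nil))) (.nd (nat_lit 5) 
(.lf (nat_lit 84886) (.g (nat_lit 4672) (.e (nat_lit 1859) (nat_lit 124) (.e (nat_lit 557109) (nat_lit 15) (.e (nat_lit 188449) (nat_lit 22) (.e (nat_lit 196687) (nat_lit 18) .nil)))) .nil)) 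
(.lf (nat_lit 84918) (.g (nat_lit 3531) (.e (nat_lit 1859) (nat_lit 124) (.e (nat_lit 557109) (nat_lit 15) (.e (nat_lit 188450) (nat_lit 23) (.e (nat_lit 204852) (nat_lit 26) (.e (nat_lit 336355) (nat_lit 24) .nil))))) .nil)))) (.nd (nat_lit 4) (.nd (nat_lit 5) 
(.lf (nat_lit 84878) (.g (nat_lit 4470) (.e (nat_lit 1859) (nat_lit 124) (.e (nat_lit 557109) (nat_lit 15) (.e (nat_lit 188449) (nat_lit 22) (.e (nat_lit 196670) (nat_lit 14) .nil)))) .nil)) 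
(.lf (nat_lit 84910) (.g (nat_lit 3266) (.e (nat_lit 1859) (nat_lit 124) (.e (nat_lit 557109) (nat_lit 15) (.e (nat_lit 188450) (nat_lit 23) (.e (nat_lit 204821) (nat_lit 17) (.e (nat_lit 6676) (nat_lit 357) (.e (nat_lit 2857) (nat_lit 184) (.e (nat_lit 426402) (nat_lit 15) .nil))))))) (.g (nat_lit 4) .nil .nil)))) (.nd (nat_lit 5) 
(.lf (nat_lit 84894) (.g (nat_lit 2366) (.e (nat_lit 1859) (nat_lit 124) (.e (nat_lit 557109) (nat_lit 15) (.e (nat_lit 188450) (nat_lit 23) (.e (nat_lit 204814) (nat_lit 17) .nil)))) .nil)) 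
(.lf (nat_lit 84926) (.g (nat_lit 3336) (.e (nat_lit 1859) (nat_lit 124) (.e (nat_lit 557109) (nat_lit 15) (.e (nat_lit 188450) (nat_lit 23) (.e (nat_lit 204883) (nat_lit 33) (.e (nat_lit 401438) (nat_lit 9) (.e (nat_lit 426402) (nat_lit 15) .nil)))))) (.g (nat_lit 4) .nil .nil)))))))) (.nd (nat_lit 1) (.nd (nat_lit 2) (.nd (nat_lit 3) (.nd (nat_lit 4) (.nd (nat_lit 5) 
(.lf (nat_lit 84865) (.g (nat_lit 2070) (.e (nat_lit 1859) (nat_lit 124) (.e (nat_lit 557109) (nat_lit 15) (.e (nat_lit 188449) (nat_lit 22) (.e (nat_lit 196661) (nat_lit 12) (.e (nat_lit 57718) (nat_lit 176) .nil))))) .nil)) 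
(.lf (nat_lit 84897) (.g (nat_lit 2853) (.e (nat_lit 1859) (nat_lit 124) (.e (nat_lit 557109) (nat_lit 15) (.e (nat_lit 188450) (nat_lit 23) (.e (nat_lit 204817) (nat_lit 17) (.e (nat_lit 7936) (nat_lit 357) .nil))))) .nil))) (.nd (nat_lit 5) 
(.lf (nat_lit 84881) (.g (nat_lit 4344) (.e (nat_lit 1859) (nat_lit 124) (.e (nat_lit 557109) (nat_lit 15) (.e (nat_lit 188449) (nat_lit 22) (.e (nat_lit 196677) (nat_lit 16) .nil)))) .nil)) 
(.lf (nat_lit 84913) (.g (nat_lit 2201) (.e (nat_lit 1859) (nat_lit 124) (.e (nat_lit 557109) (nat_lit 15) (.e (nat_lit 188450) (nat_lit 23) (.e (nat_lit 204846) (nat_lit 24) .nil)))) .nil)))) (.nd (nat_lit 4) (.nd (nat_lit 5) 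
(.lf (nat_lit 84873) (.g (nat_lit 1862) (.e (nat_lit 1859) (nat_lit 124) (.e (nat_lit 557109) (nat_lit 15) (.e (nat_lit 188449) (nat_lit 22) (.e (nat_lit 196666) (nat_lit 13) .nil)))) .nil)) 
(.lf (nat_lit 84905) (.g (nat_lit 3400) (.e (nat_lit 1859) (nat_lit 124) (.e (nat_lit 557109) (nat_lit 15) (.e (nat_lit 188450) (nat_lit 23) (.e (nat_lit 204821) (nat_lit 17) (.e (nat_lit 6136) (nat_lit 332) (.e (nat_lit 1386) (nat_lit 105) (.e (nat_lit 311348) (nat_lit 15) .nil))))))) (.g (nat_lit 4) .nil .nil)))) (.nd (nat_lit 5) 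
(.lf (nat_lit 84889) (.g (nat_lit 5134) (.e (nat_lit 1859) (nat_lit 124) (.e (nat_lit 557109) (nat_lit 15) (.e (nat_lit 188449) (nat_lit 22) (.e (nat_lit 196695) (nat_lit 18) .nil)))) .nil)) 
(.lf (nat_lit 84921) (.g (nat_lit 2373) (.e (nat_lit 1859) (nat_lit 124) (.e (nat_lit 557109) (nat_lit 15) (.e (nat_lit 188450) (nat_lit 23) (.e (nat_lit 204880) (nat_lit 32) .nil)))) .nil))))) (.nd (nat_lit 3) (.nd (nat_lit 4) (.nd (nat_lit 5) 
(.lf (nat_lit 84869) (.g (nat_lit 2484) (.e (nat_lit 1859) (nat_lit 124) (.e (nat_lit 557109) (nat_lit 15) (.e (nat_lit 188449) (nat_lit 22) (.e (nat_lit 196661) (nat_lit 12) (.e (nat_lit 65280) (nat_lit 208) (.e (nat_lit 245504) (nat_lit 15) .nil)))))) (.g (nat_lit 4) .nil .nil))) 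
(.lf (nat_lit 84901) (.g (nat_lit 2790) (.e (nat_lit 1859) (nat_lit 124) (.e (nat_lit 557109) (nat_lit 15) (.e (nat_lit 188450) (nat_lit 23) (.e (nat_lit 204821) (nat_lit 17) (.e (nat_lit 6092) (nat_lit 332) .nil))))) .nil))) (.nd (nat_lit 5) 
(.lf (nat_lit 84885) (.g (nat_lit 2888) (.e (nat_lit 1859) (nat_lit 124) (.e (nat_lit 557109) (nat_lit 15) (.e (nat_lit 188449) (nat_lit 22) (.e (nat_lit 196683) (nat_lit 18) .nil)))) .nil)) 
(.lf (nat_lit 84917) (.g (nat_lit 3642) (.e (nat_lit 1859) (nat_lit 124) (.e (nat_lit 557109) (nat_lit 15) (.e (nat_lit 188450) (nat_lit 23) (.e (nat_lit 204852) (nat_lit 26) (.e (nat_lit 336260) (nat_lit 15) .nil))))) .nil)))) (.nd (nat_lit 4) (.nd (nat_lit 5) 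
(.lf (nat_lit 84877) (.g (nat_lit 4722) (.e (nat_lit 1859) (nat_lit 124) (.e (nat_lit 557109) (nat_lit 15) (.e (nat_lit 188449) (nat_lit 22) (.e (nat_lit 196669) (nat_lit 14) .nil)))) .nil)) 
(.lf (nat_lit 84909) (.g (nat_lit 3464) (.e (nat_lit 1859) (nat_lit 124) (.e (nat_lit 557109) (nat_lit 15) (.e (nat_lit 188450) (nat_lit 23) (.e (nat_lit 204821) (nat_lit 17) (.e (nat_lit 6676) (nat_lit 357) (.e (nat_lit 2856) (nat_lit 184) (.e (nat_lit 426402) (nat_lit 15) .nil))))))) (.g (nat_lit 4) .nil .nil)))) (.nd (nat_lit 5) 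
(.lf (nat_lit 84893) (.g (nat_lit 663) (.e (nat_lit 1859) (nat_lit 124) (.e (nat_lit 557109) (nat_lit 15) (.e (nat_lit 188450) (nat_lit 23) .nil))) .nil)) 
(.lf (nat_lit 84925) (.g (nat_lit 3488) (.e (nat_lit 1859) (nat_lit 124) (.e (nat_lit 557109) (nat_lit 15) (.e (nat_lit 188450) (nat_lit 23) (.e (nat_lit 204883) (nat_lit 33) (.e (nat_lit 401437) (nat_lit 9) (.e (nat_lit 426402) (nat_lit 15) .nil)))))) (.g (nat_lit 5) .nil .nil))))))) (.nd (nat_lit 2) (.nd (nat_lit 3) (.nd (nat_lit 4) (.nd (nat_lit 5) 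
(.lf (nat_lit 84867) (.g (nat_lit 3113) (.e (nat_lit 1859) (nat_lit 124) (.e (nat_lit 557109) (nat_lit 15) (.e (nat_lit 188449) (nat_lit 22) (.e (nat_lit 196661) (nat_lit 12) (.e (nat_lit 57722) (nat_lit 178) (.e (nat_lit 123165) (nat_lit 256) (.e (nat_lit 61) (nat_lit 0) .nil))))))) (.g (nat_lit 0) .nil .nil))) 
(.lf (nat_lit 84899) (.g (nat_lit 2454) (.e (nat_lit 1859) (nat_lit 124) (.e (nat_lit 557109) (nat_lit 15) (.e (nat_lit 188450) (nat_lit 23) (.e (nat_lit 204819) (nat_lit 17) (.e (nat_lit 6218) (nat_lit 333) .nil))))) .nil))) (.nd (nat_lit 5) 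
(.lf (nat_lit 84883) (.g (nat_lit 5134) (.e (nat_lit 1859) (nat_lit 124) (.e (nat_lit 557109) (nat_lit 15) (.e (nat_lit 188449) (nat_lit 22) (.e (nat_lit 196678) (nat_lit 16) .nil)))) .nil)) 
(.lf (nat_lit 84915) (.g (nat_lit 2405) (.e (nat_lit 1859) (nat_lit 124) (.e (nat_lit 557109) (nat_lit 15) (.e (nat_lit 188450) (nat_lit 23) (.e (nat_lit 204851) (nat_lit 26) .nil)))) .nil)))) (.nd (nat_lit 4) (.nd (nat_lit 5) 
(.lf (nat_lit 84875) (.g (nat_lit 4450) (.e (nat_lit 1859) (nat_lit 124) (.e (nat_lit 557109) (nat_lit 15) (.e (nat_lit 188449) (nat_lit 22) (.e (nat_lit 196667) (nat_lit 14) .nil)))) .nil)) 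
(.lf (nat_lit 84907) (.g (nat_lit 2706) (.e (nat_lit 1859) (nat_lit 124) (.e (nat_lit 557109) (nat_lit 15) (.e (nat_lit 188450) (nat_lit 23) (.e (nat_lit 204821) (nat_lit 17) (.e (nat_lit 6223) (nat_lit 334) .nil))))) .nil))) (.nd (nat_lit 5) 
(.lf (nat_lit 84891) (.g (nat_lit 758) (.e (nat_lit 1859) (nat_lit 124) (.e (nat_lit 557109) (nat_lit 15) (.e (nat_lit 188449) (nat_lit 22) (.e (nat_lit 204544) (nat_lit 21) (.e (nat_lit 164372) (nat_lit 250) (.e (nat_lit 179968) (nat_lit 15) .nil)))))) (.g (nat_lit 5) .nil .nil))) 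
(.lf (nat_lit 84923) (.g (nat_lit 4026) (.e (nat_lit 1859) (nat_lit 124) (.e (nat_lit 557109) (nat_lit 15) (.e (nat_lit 188450) (nat_lit 23) (.e (nat_lit 204880) (nat_lit 32) (.e (nat_lit 385105) (nat_lit 50) .nil))))) .nil))))) (.nd (nat_lit 3) (.nd (nat_lit 4) (.nd (nat_lit 5) 
(.lf (nat_lit 84871) (.g (nat_lit 4628) (.e (nat_lit 1859) (nat_lit 124) (.e (nat_lit 557109) (nat_lit 15) (.e (nat_lit 188449) (nat_lit 22) (.e (nat_lit 196663) (nat_lit 13) .nil)))) .nil)) 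
(.lf (nat_lit 84903) (.g (nat_lit 3162) (.e (nat_lit 1859) (nat_lit 124) (.e (nat_lit 557109) (nat_lit 15) (.e (nat_lit 188450) (nat_lit 23) (.e (nat_lit 204821) (nat_lit 17) (.e (nat_lit 6114) (nat_lit 332) (.e (nat_lit 1378) (nat_lit 104) (.e (nat_lit 311040) (nat_lit 15) .nil))))))) (.g (nat_lit 4) .nil .nil)))) (.nd (nat_lit 5) 
(.lf (nat_lit 84887) (.g (nat_lit 5028) (.e (nat_lit 1859) (nat_lit 124) (.e (nat_lit 557109) (nat_lit 15) (.e (nat_lit 188449) (nat_lit 22) (.e (nat_lit 196688) (nat_lit 18) .nil)))) .nil)) 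
(.lf (nat_lit 84919) (.g (nat_lit 2157) (.e (nat_lit 1859) (nat_lit 124) (.e (nat_lit 557109) (nat_lit 15) (.e (nat_lit 188450) (nat_lit 23) (.e (nat_lit 204854) (nat_lit 26) .nil)))) .nil)))) (.nd (nat_lit 4) (.nd (nat_lit 5) 
(.lf (nat_lit 84879) (.g (nat_lit 4953) (.e (nat_lit 1859) (nat_lit 124) (.e (nat_lit 557109) (nat_lit 15) (.e (nat_lit 188449) (nat_lit 22) (.e (nat_lit 196675) (nat_lit 16) .nil)))) .nil)) 
(.lf (nat_lit 84911) (.g (nat_lit 3370) (.e (nat_lit 1859) (nat_lit 124) (.e (nat_lit 557109) (nat_lit 15) (.e (nat_lit 188450) (nat_lit 23) (.e (nat_lit 204821) (nat_lit 17) (.e (nat_lit 6680) (nat_lit 357) (.e (nat_lit 2857) (nat_lit 184) (.e (nat_lit 426402) (nat_lit 15) .nil))))))) (.g (nat_lit 4) .nil .nil)))) (.nd (nat_lit 5) 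
(.lf (nat_lit 84895) (.g (nat_lit 2384) (.e (nat_lit 1859) (nat_lit 124) (.e (nat_lit 557109) (nat_lit 15) (.e (nat_lit 188450) (nat_lit 23) (.e (nat_lit 204815) (nat_lit 17) .nil)))) .nil)) 
(.lf (nat_lit 84927) (.g (nat_lit 3130) (.e (nat_lit 1859) (nat_lit 124) (.e (nat_lit 557109) (nat_lit 15) (.e (nat_lit 188450) (nat_lit 23) (.e (nat_lit 204884) (nat_lit 33) (.e (nat_lit 401436) (nat_lit 9) .nil))))) .nil))))))))

noncomputable def tv1151 : DT := (.nd (nat_lit 0) (.nd (nat_lit 1) (.nd (nat_lit 2) (.nd (nat_lit 3) (.nd (nat_lit 4) (.nd (nat_lit 5) 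
(.lf (nat_lit 84928) (.g (nat_lit 3609) (.e (nat_lit 1859) (nat_lit 124) (.e (nat_lit 557109) (nat_lit 15) (.e (nat_lit 188450) (nat_lit 23) (.e (nat_lit 204884) (nat_lit 33) (.e (nat_lit 401437) (nat_lit 9) (.e (nat_lit 426402) (nat_lit 15) .nil)))))) (.g (nat_lit 4) .nil .nil))) 
(.lf (nat_lit 84960) (.g (nat_lit 3047) (.e (nat_lit 1859) (nat_lit 124) (.e (nat_lit 557109) (nat_lit 15) (.e (nat_lit 188452) (nat_lit 23) (.e (nat_lit 204821) (nat_lit 17) (.e (nat_lit 6674) (nat_lit 357) (.e (nat_lit 2940) (nat_lit 184) (.e (nat_lit 433920) (nat_lit 15) .nil))))))) (.g (nat_lit 6) .nil .nil)))) (.nd (nat_lit 5) 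
(.lf (nat_lit 84944) (.g (nat_lit 2971) (.e (nat_lit 1859) (nat_lit 124) (.e (nat_lit 557109) (nat_lit 15) (.e (nat_lit 188452) (nat_lit 23) (.e (nat_lit 204819) (nat_lit 17) (.e (nat_lit 6225) (nat_lit 334) .nil))))) .nil)) 
(.lf (nat_lit 84976) (.g (nat_lit 4669) (.e (nat_lit 1859) (nat_lit 124) (.e (nat_lit 557109) (nat_lit 15) (.e (nat_lit 188452) (nat_lit 23) (.e (nat_lit 204829) (nat_lit 18) .nil)))) .nil)))) (.nd (nat_lit 4) (.nd (nat_lit 5) 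
(.lf (nat_lit 84936) (.g (nat_lit 2135) (.e (nat_lit 1859) (nat_lit 124) (.e (nat_lit 557109) (nat_lit 15) (.e (nat_lit 188452) (nat_lit 23) (.e (nat_lit 204816) (nat_lit 17) .nil)))) .nil)) 
(.lf (nat_lit 84968) (.g (nat_lit 2769) (.e (nat_lit 1859) (nat_lit 124) (.e (nat_lit 557109) (nat_lit 15) (.e (nat_lit 188452) (nat_lit 23) (.e (nat_lit 204821) (nat_lit 17) (.e (nat_lit 7936) (nat_lit 364) (.e (nat_lit 245504) (nat_lit 15) .nil)))))) (.g (nat_lit 4) .nil .nil)))) (.nd (nat_lit 5) 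
(.lf (nat_lit 84952) (.g (nat_lit 2540) (.e (nat_lit 1859) (nat_lit 124) (.e (nat_lit 557109) (nat_lit 15) (.e (nat_lit 188452) (nat_lit 23) (.e (nat_lit 204821) (nat_lit 17) (.e (nat_lit 6206) (nat_lit 333) (.e (nat_lit 57863) (nat_lit 256) (.e (nat_lit 59) (nat_lit 0) .nil))))))) (.g (nat_lit 5) .nil .nil))) 
(.lf (nat_lit 84984) (.g (nat_lit 3988) (.e (nat_lit 1859) (nat_lit 124) (.e (nat_lit 557109) (nat_lit 15) (.e (nat_lit 188452) (nat_lit 23) (.e (nat_lit 204846) (nat_lit 24) (.e (nat_lit 319497) (nat_lit 10) .nil))))) .nil))))) (.nd (nat_lit 3) (.nd (nat_lit 4) (.nd (nat_lit 5) 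
(.lf (nat_lit 84932) (.g (nat_lit 2877) (.e (nat_lit 1859) (nat_lit 124) (.e (nat_lit 557109) (nat_lit 15) (.e (nat_lit 188452) (nat_lit 23) (.e (nat_lit 204814) (nat_lit 17) .nil)))) .nil)) 
(.lf (nat_lit 84964) (.g (nat_lit 3493) (.e (nat_lit 1859) (nat_lit 124) (.e (nat_lit 557109) (nat_lit 15) (.e (nat_lit 188452) (nat_lit 23) (.e (nat_lit 204821) (nat_lit 17) (.e (nat_lit 6680) (nat_lit 357) (.e (nat_lit 2855) (nat_lit 184) (.e (nat_lit 426402) (nat_lit 15) .nil))))))) (.g (nat_lit 0) .nil .nil)))) (.nd (nat_lit 5) 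
(.lf (nat_lit 84948) (.g (nat_lit 2165) (.e (nat_lit 1859) (nat_lit 124) (.e (nat_lit 557109) (nat_lit 15) (.e (nat_lit 188452) (nat_lit 23) (.e (nat_lit 204821) (nat_lit 17) (.e (nat_lit 6114) (nat_lit 332) .nil))))) .nil)) 
(.lf (nat_lit 84980) (.g (nat_lit 4598) (.e (nat_lit 1859) (nat_lit 124) (.e (nat_lit 557109) (nat_lit 15) (.e (nat_lit 188452) (nat_lit 23) (.e (nat_lit 204845) (nat_lit 24) (.e (nat_lit 319539) (nat_lit 19) (.e (nat_lit 311348) (nat_lit 15) .nil)))))) (.g (nat_lit 0) .nil .nil))))) (.nd (nat_lit 4) (.nd (nat_lit 5) 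
(.lf (nat_lit 84940) (.g (nat_lit 3373) (.e (nat_lit 1859) (nat_lit 124) (.e (nat_lit 557109) (nat_lit 15) (.e (nat_lit 188452) (nat_lit 23) (.e (nat_lit 204817) (nat_lit 17) (.e (nat_lit 7936) (nat_lit 361) (.e (nat_lit 179968) (nat_lit 15) .nil)))))) (.g (nat_lit 4) .nil .nil))) 
(.lf (nat_lit 84972) (.g (nat_lit 4299) (.e (nat_lit 1859) (nat_lit 124) (.e (nat_lit 557109) (nat_lit 15) (.e (nat_lit 188452) (nat_lit 23) (.e (nat_lit 204825) (nat_lit 17) .nil)))) .nil))) (.nd (nat_lit 5) 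
(.lf (nat_lit 84956) (.g (nat_lit 2635) (.e (nat_lit 1859) (nat_lit 124) (.e (nat_lit 557109) (nat_lit 15) (.e (nat_lit 188452) (nat_lit 23) (.e (nat_lit 204821) (nat_lit 17) (.e (nat_lit 6671) (nat_lit 357) (.e (nat_lit 2940) (nat_lit 184) (.e (nat_lit 426401) (nat_lit 15) .nil))))))) (.g (nat_lit 4) .nil .nil))) 
(.lf (nat_lit 84988) (.g (nat_lit 3479) (.e (nat_lit 1859) (nat_lit 124) (.e (nat_lit 557109) (nat_lit 15) (.e (nat_lit 188452) (nat_lit 23) (.e (nat_lit 204846) (nat_lit 24) (.e (nat_lit 319502) (nat_lit 10) .nil))))) .nil)))))) (.nd (nat_lit 2) (.nd (nat_lit 3) (.nd (nat_lit 4) (.nd (nat_lit 5) 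
(.lf (nat_lit 84930) (.g (nat_lit 3489) (.e (nat_lit 1859) (nat_lit 124) (.e (nat_lit 557109) (nat_lit 15) (.e (nat_lit 188450) (nat_lit 23) (.e (nat_lit 204885) (nat_lit 33) (.e (nat_lit 401437) (nat_lit 9) (.e (nat_lit 426402) (nat_lit 15) .nil)))))) (.g (nat_lit 4) .nil .nil))) 
(.lf (nat_lit 84962) (.g (nat_lit 3864) (.e (nat_lit 1859) (nat_lit 124) (.e (nat_lit 557109) (nat_lit 15) (.e (nat_lit 188452) (nat_lit 23) (.e (nat_lit 204821) (nat_lit 17) (.e (nat_lit 6676) (nat_lit 357) (.e (nat_lit 2856) (nat_lit 184) (.e (nat_lit 426402) (nat_lit 15) .nil))))))) (.g (nat_lit 7) .nil .nil)))) (.nd (nat_lit 5) 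
(.lf (nat_lit 84946) (.g (nat_lit 4496) (.e (nat_lit 1859) (nat_lit 124) (.e (nat_lit 557109) (nat_lit 15) (.e (nat_lit 188452) (nat_lit 23) (.e (nat_lit 204820) (nat_lit 17) .nil)))) .nil)) 
(.lf (nat_lit 84978) (.g (nat_lit 4540) (.e (nat_lit 1859) (nat_lit 124) (.e (nat_lit 557109) (nat_lit 15) (.e (nat_lit 188452) (nat_lit 23) (.e (nat_lit 204840) (nat_lit 21) .nil)))) .nil)))) (.nd (nat_lit 4) (.nd (nat_lit 5) 
(.lf (nat_lit 84938) (.g (nat_lit 3675) (.e (nat_lit 1859) (nat_lit 124) (.e (nat_lit 557109) (nat_lit 15) (.e (nat_lit 188452) (nat_lit 23) (.e (nat_lit 204816) (nat_lit 17) (.e (nat_lit 6720) (nat_lit 361) (.e (nat_lit 179968) (nat_lit 15) .nil)))))) (.g (nat_lit 5) .nil .nil))) 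
(.lf (nat_lit 84970) (.g (nat_lit 4300) (.e (nat_lit 1859) (nat_lit 124) (.e (nat_lit 557109) (nat_lit 15) (.e (nat_lit 188452) (nat_lit 23) (.e (nat_lit 204823) (nat_lit 17) .nil)))) .nil))) (.nd (nat_lit 5) 
(.lf (nat_lit 84954) (.g (nat_lit 3498) (.e (nat_lit 1859) (nat_lit 124) (.e (nat_lit 557109) (nat_lit 15) (.e (nat_lit 188452) (nat_lit 23) (.e (nat_lit 204821) (nat_lit 17) (.e (nat_lit 6223) (nat_lit 334) (.e (nat_lit 123165) (nat_lit 256) (.e (nat_lit 61) (nat_lit 0) .nil))))))) (.g (nat_lit 0) .nil .nil))) 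
(.lf (nat_lit 84986) (.g (nat_lit 4015) (.e (nat_lit 1859) (nat_lit 124) (.e (nat_lit 557109) (nat_lit 15) (.e (nat_lit 188452) (nat_lit 23) (.e (nat_lit 204846) (nat_lit 24) (.e (nat_lit 319499) (nat_lit 10) .nil))))) .nil))))) (.nd (nat_lit 3) (.nd (nat_lit 4) (.nd (nat_lit 5) 
(.lf (nat_lit 84934) (.g (nat_lit 3149) (.e (nat_lit 1859) (nat_lit 124) (.e (nat_lit 557109) (nat_lit 15) (.e (nat_lit 188452) (nat_lit 23) (.e (nat_lit 204815) (nat_lit 17) (.e (nat_lit 6718) (nat_lit 361) (.e (nat_lit 179968) (nat_lit 15) .nil)))))) (.g (nat_lit 5) .nil .nil))) 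
(.lf (nat_lit 84966) (.g (nat_lit 3727) (.e (nat_lit 1859) (nat_lit 124) (.e (nat_lit 557109) (nat_lit 15) (.e (nat_lit 188452) (nat_lit 23) (.e (nat_lit 204821) (nat_lit 17) (.e (nat_lit 6680) (nat_lit 357) (.e (nat_lit 2857) (nat_lit 184) (.e (nat_lit 426402) (nat_lit 15) .nil))))))) (.g (nat_lit 0) .nil .nil)))) (.nd (nat_lit 5) 
(.lf (nat_lit 84950) (.g (nat_lit 3456) (.e (nat_lit 1859) (nat_lit 124) (.e (nat_lit 557109) (nat_lit 15) (.e (nat_lit 188452) (nat_lit 23) (.e (nat_lit 204821) (nat_lit 17) (.e (nat_lit 6114) (nat_lit 332) (.e (nat_lit 1378) (nat_lit 104) (.e (nat_lit 311040) (nat_lit 15) .nil))))))) (.g (nat_lit 6) .nil .nil))) 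
(.lf (nat_lit 84982) (.g (nat_lit 3686) (.e (nat_lit 1859) (nat_lit 124) (.e (nat_lit 557109) (nat_lit 15) (.e (nat_lit 188452) (nat_lit 23) (.e (nat_lit 204846) (nat_lit 24) (.e (nat_lit 319496) (nat_lit 10) .nil))))) .nil)))) (.nd (nat_lit 4) (.nd (nat_lit 5) 
(.lf (nat_lit 84942) (.g (nat_lit 1900) (.e (nat_lit 1859) (nat_lit 124) (.e (nat_lit 557109) (nat_lit 15) (.e (nat_lit 188452) (nat_lit 23) (.e (nat_lit 204819) (nat_lit 17) .nil)))) .nil)) 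
(.lf (nat_lit 84974) (.g (nat_lit 4507) (.e (nat_lit 1859) (nat_lit 124) (.e (nat_lit 557109) (nat_lit 15) (.e (nat_lit 188452) (nat_lit 23) (.e (nat_lit 204827) (nat_lit 17) .nil)))) .nil))) (.nd (nat_lit 5) 
(.lf (nat_lit 84958) (.g (nat_lit 2140) (.e (nat_lit 1859) (nat_lit 124) (.e (nat_lit 557109) (nat_lit 15) (.e (nat_lit 188452) (nat_lit 23) (.e (nat_lit 204821) (nat_lit 17) (.e (nat_lit 6674) (nat_lit 357) .nil))))) .nil)) 
(.lf (nat_lit 84990) (.g (nat_lit 4081) (.e (nat_lit 1859) (nat_lit 124) (.e (nat_lit 557109) (nat_lit 15) (.e (nat_lit 188452) (nat_lit 23) (.e (nat_lit 204846) (nat_lit 24) (.e (nat_lit 319502) (nat_lit 10) (.e (nat_lit 5677) (nat_lit 312) (.e (nat_lit 59) (nat_lit 0) .nil))))))) (.g (nat_lit 4) .nil .nil)))))))) 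
(.nd (nat_lit 1) (.nd (nat_lit 2) (.nd (nat_lit 3) (.nd (nat_lit 4) (.nd (nat_lit 5) 
(.lf (nat_lit 84929) (.g (nat_lit 3218) (.e (nat_lit 1859) (nat_lit 124) (.e (nat_lit 557109) (nat_lit 15) (.e (nat_lit 188450) (nat_lit 23) (.e (nat_lit 204884) (nat_lit 33) (.e (nat_lit 401438) (nat_lit 9) (.e (nat_lit 426402) (nat_lit 15) .nil)))))) (.g (nat_lit 4) .nil .nil))) 
(.lf (nat_lit 84961) (.g (nat_lit 2550) (.e (nat_lit 1859) (nat_lit 124) (.e (nat_lit 557109) (nat_lit 15) (.e (nat_lit 188452) (nat_lit 23) (.e (nat_lit 204821) (nat_lit 17) (.e (nat_lit 6676) (nat_lit 357) (.e (nat_lit 2854) (nat_lit 184) (.e (nat_lit 426402) (nat_lit 15) .nil))))))) (.g (nat_lit 4) .nil .nil)))) (.nd (nat_lit 5) 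
(.lf (nat_lit 84945) (.g (nat_lit 2780) (.e (nat_lit 1859) (nat_lit 124) (.e (nat_lit 557109) (nat_lit 15) (.e (nat_lit 188452) (nat_lit 23) (.e (nat_lit 204819) (nat_lit 17) (.e (nat_lit 7936) (nat_lit 361) (.e (nat_lit 179968) (nat_lit 15) .nil)))))) (.g (nat_lit 4) .nil .nil))) 
(.lf (nat_lit 84977) (.g (nat_lit 3544) (.e (nat_lit 1859) (nat_lit 124) (.e (nat_lit 557109) (nat_lit 15) (.e (nat_lit 188452) (nat_lit 23) (.e (nat_lit 204830) (nat_lit 18) .nil)))) .nil)))) (.nd (nat_lit 4) (.nd (nat_lit 5) 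
(.lf (nat_lit 84937) (.g (nat_lit 3661) (.e (nat_lit 1859) (nat_lit 124) (.e (nat_lit 557109) (nat_lit 15) (.e (nat_lit 188452) (nat_lit 23) (.e (nat_lit 204816) (nat_lit 17) (.e (nat_lit 6718) (nat_lit 361) (.e (nat_lit 179968) (nat_lit 15) .nil)))))) (.g (nat_lit 5) .nil .nil))) 
(.lf (nat_lit 84969) (.g (nat_lit 4299) (.e (nat_lit 1859) (nat_lit 124) (.e (nat_lit 557109) (nat_lit 15) (.e (nat_lit 188452) (nat_lit 23) (.e (nat_lit 204822) (nat_lit 17) .nil)))) .nil))) (.nd (nat_lit 5) 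
(.lf (nat_lit 84953) (.g (nat_lit 2130) (.e (nat_lit 1859) (nat_lit 124) (.e (nat_lit 557109) (nat_lit 15) (.e (nat_lit 188452) (nat_lit 23) (.e (nat_lit 204821) (nat_lit 17) (.e (nat_lit 6223) (nat_lit 334) .nil))))) .nil)) 
(.lf (nat_lit 84985) (.g (nat_lit 4015) (.e (nat_lit 1859) (nat_lit 124) (.e (nat_lit 557109) (nat_lit 15) (.e (nat_lit 188452) (nat_lit 23) (.e (nat_lit 204846) (nat_lit 24) (.e (nat_lit 319498) (nat_lit 10) .nil))))) .nil))))) (.nd (nat_lit 3) (.nd (nat_lit 4) (.nd (nat_lit 5) 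
(.lf (nat_lit 84933) (.g (nat_lit 3400) (.e (nat_lit 1859) (nat_lit 124) (.e (nat_lit 557109) (nat_lit 15) (.e (nat_lit 188452) (nat_lit 23) (.e (nat_lit 204814) (nat_lit 17) (.e (nat_lit 6681) (nat_lit 357) .nil))))) .nil)) 
(.lf (nat_lit 84965) (.g (nat_lit 3969) (.e (nat_lit 1859) (nat_lit 124) (.e (nat_lit 557109) (nat_lit 15) (.e (nat_lit 188452) (nat_lit 23) (.e (nat_lit 204821) (nat_lit 17) (.e (nat_lit 6680) (nat_lit 357) (.e (nat_lit 2856) (nat_lit 184) (.e (nat_lit 426402) (nat_lit 15) .nil))))))) (.g (nat_lit 0) .nil .nil)))) (.nd (nat_lit 5) 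
(.lf (nat_lit 84949) (.g (nat_lit 2787) (.e (nat_lit 1859) (nat_lit 124) (.e (nat_lit 557109) (nat_lit 15) (.e (nat_lit 188452) (nat_lit 23) (.e (nat_lit 204821) (nat_lit 17) (.e (nat_lit 6114) (nat_lit 332) (.e (nat_lit 1376) (nat_lit 104) (.e (nat_lit 311040) (nat_lit 15) .nil))))))) (.g (nat_lit 4) .nil .nil))) 
(.lf (nat_lit 84981) (.g (nat_lit 992) (.e (nat_lit 1859) (nat_lit 124) (.e (nat_lit 557109) (nat_lit 15) (.e (nat_lit 188452) (nat_lit 23) (.e (nat_lit 204846) (nat_lit 24) .nil)))) .nil)))) (.nd (nat_lit 4) (.nd (nat_lit 5) 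
(.lf (nat_lit 84941) (.g (nat_lit 4202) (.e (nat_lit 1859) (nat_lit 124) (.e (nat_lit 557109) (nat_lit 15) (.e (nat_lit 188452) (nat_lit 23) (.e (nat_lit 204818) (nat_lit 17) .nil)))) .nil)) 
(.lf (nat_lit 84973) (.g (nat_lit 4507) (.e (nat_lit 1859) (nat_lit 124) (.e (nat_lit 557109) (nat_lit 15) (.e (nat_lit 188452) (nat_lit 23) (.e (nat_lit 204826) (nat_lit 17) .nil)))) .nil))) (.nd (nat_lit 5) 
(.lf (nat_lit 84957) (.g (nat_lit 2474) (.e (nat_lit 1859) (nat_lit 124) (.e (nat_lit 557109) (nat_lit 15) (.e (nat_lit 188452) (nat_lit 23) (.e (nat_lit 204821) (nat_lit 17) (.e (nat_lit 6671) (nat_lit 357) (.e (nat_lit 2940) (nat_lit 184) (.e (nat_lit 433920) (nat_lit 15) .nil))))))) (.g (nat_lit 4) .nil .nil))) 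
(.lf (nat_lit 84989) (.g (nat_lit 3669) (.e (nat_lit 1859) (nat_lit 124) (.e (nat_lit 557109) (nat_lit 15) (.e (nat_lit 188452) (nat_lit 23) (.e (nat_lit 204846) (nat_lit 24) (.e (nat_lit 319502) (nat_lit 10) (.e (nat_lit 5675) (nat_lit 312) (.e (nat_lit 59) (nat_lit 0) .nil))))))) (.g (nat_lit 4) .nil .nil))))))) (.nd (nat_lit 2) (.nd (nat_lit 3) (.nd (nat_lit 4) (.nd (nat_lit 5) 
(.lf (nat_lit 84931) (.g (nat_lit 352) (.e (nat_lit 1859) (nat_lit 124) (.e (nat_lit 557109) (nat_lit 15) (.e (nat_lit 188452) (nat_lit 23) .nil))) .nil)) 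
(.lf (nat_lit 84963) (.g (nat_lit 3381) (.e (nat_lit 1859) (nat_lit 124) (.e (nat_lit 557109) (nat_lit 15) (.e (nat_lit 188452) (nat_lit 23) (.e (nat_lit 204821) (nat_lit 17) (.e (nat_lit 6680) (nat_lit 357) (.e (nat_lit 2854) (nat_lit 184) (.e (nat_lit 426402) (nat_lit 15) .nil))))))) (.g (nat_lit 0) .nil .nil)))) (.nd (nat_lit 5) 
(.lf (nat_lit 84947) (.g (nat_lit 1616) (.e (nat_lit 1859) (nat_lit 124) (.e (nat_lit 557109) (nat_lit 15) (.e (nat_lit 188452) (nat_lit 23) (.e (nat_lit 204821) (nat_lit 17) .nil)))) .nil)) 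
(.lf (nat_lit 84979) (.g (nat_lit 2143) (.e (nat_lit 1859) (nat_lit 124) (.e (nat_lit 557109) (nat_lit 15) (.e (nat_lit 188452) (nat_lit 23) (.e (nat_lit 204845) (nat_lit 24) .nil)))) .nil)))) (.nd (nat_lit 4) (.nd (nat_lit 5) 
(.lf (nat_lit 84939) (.g (nat_lit 2338) (.e (nat_lit 1859) (nat_lit 124) (.e (nat_lit 557109) (nat_lit 15) (.e (nat_lit 188452) (nat_lit 23) (.e (nat_lit 204817) (nat_lit 17) .nil)))) .nil)) 
(.lf (nat_lit 84971) (.g (nat_lit 4154) (.e (nat_lit 1859) (nat_lit 124) (.e (nat_lit 557109) (nat_lit 15) (.e (nat_lit 188452) (nat_lit 23) (.e (nat_lit 204824) (nat_lit 17) .nil)))) .nil))) (.nd (nat_lit 5) 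
(.lf (nat_lit 84955) (.g (nat_lit 2128) (.e (nat_lit 1859) (nat_lit 124) (.e (nat_lit 557109) (nat_lit 15) (.e (nat_lit 188452) (nat_lit 23) (.e (nat_lit 204821) (nat_lit 17) (.e (nat_lit 6671) (nat_lit 357) .nil))))) .nil)) 
(.lf (nat_lit 84987) (.g (nat_lit 3910) (.e (nat_lit 1859) (nat_lit 124) (.e (nat_lit 557109) (nat_lit 15) (.e (nat_lit 188452) (nat_lit 23) (.e (nat_lit 204846) (nat_lit 24) (.e (nat_lit 319500) (nat_lit 10) (.e (nat_lit 5691) (nat_lit 312) (.e (nat_lit 59) (nat_lit 0) .nil))))))) (.g (nat_lit 4) .nil .nil)))))) (.nd (nat_lit 3) (.nd (nat_lit 4) (.nd (nat_lit 5) 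
(.lf (nat_lit 84935) (.g (nat_lit 3184) (.e (nat_lit 1859) (nat_lit 124) (.e (nat_lit 557109) (nat_lit 15) (.e (nat_lit 188452) (nat_lit 23) (.e (nat_lit 204815) (nat_lit 17) (.e (nat_lit 6720) (nat_lit 361) (.e (nat_lit 179968) (nat_lit 15) .nil)))))) (.g (nat_lit 5) .nil .nil))) 
(.lf (nat_lit 84967) (.g (nat_lit 2769) (.e (nat_lit 1859) (nat_lit 124) (.e (nat_lit 557109) (nat_lit 15) (.e (nat_lit 188452) (nat_lit 23) (.e (nat_lit 204821) (nat_lit 17) (.e (nat_lit 7936) (nat_lit 361) (.e (nat_lit 179968) (nat_lit 15) .nil)))))) (.g (nat_lit 4) .nil .nil)))) (.nd (nat_lit 5) 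
(.lf (nat_lit 84951) (.g (nat_lit 2569) (.e (nat_lit 1859) (nat_lit 124) (.e (nat_lit 557109) (nat_lit 15) (.e (nat_lit 188452) (nat_lit 23) (.e (nat_lit 204821) (nat_lit 17) (.e (nat_lit 6149) (nat_lit 332) (.e (nat_lit 1385) (nat_lit 105) (.e (nat_lit 311348) (nat_lit 15) .nil))))))) (.g (nat_lit 4) .nil .nil))) 
(.lf (nat_lit 84983) (.g (nat_lit 3782) (.e (nat_lit 1859) (nat_lit 124) (.e (nat_lit 557109) (nat_lit 15) (.e (nat_lit 188452) (nat_lit 23) (.e (nat_lit 204846) (nat_lit 24) (.e (nat_lit 319496) (nat_lit 10) (.e (nat_lit 5692) (nat_lit 312) (.e (nat_lit 59) (nat_lit 0) .nil))))))) (.g (nat_lit 4) .nil .nil))))) (.nd (nat_lit 4) (.nd (nat_lit 5) 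
(.lf (nat_lit 84943) (.g (nat_lit 3457) (.e (nat_lit 1859) (nat_lit 124) (.e (nat_lit 557109) (nat_lit 15) (.e (nat_lit 188452) (nat_lit 23) (.e (nat_lit 204819) (nat_lit 17) (.e (nat_lit 6113) (nat_lit 332) (.e (nat_lit 1376) (nat_lit 104) (.e (nat_lit 311040) (nat_lit 15) .nil))))))) (.g (nat_lit 5) .nil .nil))) 
(.lf (nat_lit 84975) (.g (nat_lit 2793) (.e (nat_lit 1859) (nat_lit 124) (.e (nat_lit 557109) (nat_lit 15) (.e (nat_lit 188452) (nat_lit 23) (.e (nat_lit 212736) (nat_lit 17) .nil)))) .nil))) (.nd (nat_lit 5) 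
(.lf (nat_lit 84959) (.g (nat_lit 3086) (.e (nat_lit 1859) (nat_lit 124) (.e (nat_lit 557109) (nat_lit 15) (.e (nat_lit 188452) (nat_lit 23) (.e (nat_lit 204821) (nat_lit 17) (.e (nat_lit 6674) (nat_lit 357) (.e (nat_lit 2940) (nat_lit 184) (.e (nat_lit 426401) (nat_lit 15) .nil))))))) (.g (nat_lit 0) .nil .nil))) 
(.lf (nat_lit 84991) (.g (nat_lit 3914) (.e (nat_lit 1859) (nat_lit 124) (.e (nat_lit 557109) (nat_lit 15) (.e (nat_lit 188452) (nat_lit 23) (.e (nat_lit 204846) (nat_lit 24) (.e (nat_lit 319502) (nat_lit 10) (.e (nat_lit 5718) (nat_lit 312) (.e (nat_lit 59) (nat_lit 0) .nil))))))) (.g (nat_lit 4) .nil .nil)))))))))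

noncomputable def tv1152 : DT := (.nd (nat_lit 0) (.nd (nat_lit 1) (.nd (nat_lit 2) (.nd (nat_lit 3) (.nd (nat_lit 4) (.nd (nat_lit 5) 
(.lf (nat_lit 84992) (.g (nat_lit 3926) (.e (nat_lit 1859) (nat_lit 124) (.e (nat_lit 557109) (nat_lit 15) (.e (nat_lit 188452) (nat_lit 23) (.e (nat_lit 204846) (nat_lit 24) (.e (nat_lit 319502) (nat_lit 10) (.e (nat_lit 5719) (nat_lit 312) (.e (nat_lit 59) (nat_lit 0) .nil))))))) (.g (nat_lit 4) .nil .nil))) 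
(.lf (nat_lit 85024) (.g (nat_lit 3800) (.e (nat_lit 1859) (nat_lit 124) (.e (nat_lit 557109) (nat_lit 15) (.e (nat_lit 188452) (nat_lit 23) (.e (nat_lit 204848) (nat_lit 25) .nil)))) .nil))) (.nd (nat_lit 5) 
(.lf (nat_lit 85008) (.g (nat_lit 3345) (.e (nat_lit 1859) (nat_lit 124) (.e (nat_lit 557109) (nat_lit 15) (.e (nat_lit 188452) (nat_lit 23) (.e (nat_lit 204846) (nat_lit 24) (.e (nat_lit 319511) (nat_lit 10) .nil))))) .nil)) 
(.lf (nat_lit 85040) (.g (nat_lit 4788) (.e (nat_lit 1859) (nat_lit 124) (.e (nat_lit 557109) (nat_lit 15) (.e (nat_lit 188452) (nat_lit 23) (.e (nat_lit 204852) (nat_lit 26) (.e (nat_lit 336260) (nat_lit 15) (.e (nat_lit 3733) (nat_lit 228) (.e (nat_lit 786444) (nat_lit 15) .nil))))))) (.g (nat_lit 6) .nil .nil))))) (.nd (nat_lit 4) (.nd (nat_lit 5) 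
(.lf (nat_lit 85000) (.g (nat_lit 3367) (.e (nat_lit 1859) (nat_lit 124) (.e (nat_lit 557109) (nat_lit 15) (.e (nat_lit 188452) (nat_lit 23) (.e (nat_lit 204846) (nat_lit 24) (.e (nat_lit 319504) (nat_lit 10) (.e (nat_lit 5714) (nat_lit 312) (.e (nat_lit 59) (nat_lit 0) .nil))))))) (.g (nat_lit 6) .nil .nil))) 
(.lf (nat_lit 85032) (.g (nat_lit 4022) (.e (nat_lit 1859) (nat_lit 124) (.e (nat_lit 557109) (nat_lit 15) (.e (nat_lit 188452) (nat_lit 23) (.e (nat_lit 204849) (nat_lit 25) (.e (nat_lit 327718) (nat_lit 19) (.e (nat_lit 311348) (nat_lit 15) .nil)))))) (.g (nat_lit 6) .nil .nil)))) (.nd (nat_lit 5) 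
(.lf (nat_lit 85016) (.g (nat_lit 3888) (.e (nat_lit 1859) (nat_lit 124) (.e (nat_lit 557109) (nat_lit 15) (.e (nat_lit 188452) (nat_lit 23) (.e (nat_lit 204846) (nat_lit 24) (.e (nat_lit 327424) (nat_lit 10) (.e (nat_lit 5629) (nat_lit 312) (.e (nat_lit 16) (nat_lit 0) .nil))))))) (.g (nat_lit 4) .nil .nil))) 
(.lf (nat_lit 85048) (.g (nat_lit 4224) (.e (nat_lit 1859) (nat_lit 124) (.e (nat_lit 557109) (nat_lit 15) (.e (nat_lit 188452) (nat_lit 23) (.e (nat_lit 204854) (nat_lit 26) .nil)))) .nil))))) (.nd (nat_lit 3) (.nd (nat_lit 4) (.nd (nat_lit 5) 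
(.lf (nat_lit 84996) (.g (nat_lit 3504) (.e (nat_lit 1859) (nat_lit 124) (.e (nat_lit 557109) (nat_lit 15) (.e (nat_lit 188452) (nat_lit 23) (.e (nat_lit 204846) (nat_lit 24) (.e (nat_lit 319502) (nat_lit 10) (.e (nat_lit 5729) (nat_lit 312) (.e (nat_lit 59) (nat_lit 0) .nil))))))) (.g (nat_lit 4) .nil .nil))) 
(.lf (nat_lit 85028) (.g (nat_lit 3442) (.e (nat_lit 1859) (nat_lit 124) (.e (nat_lit 557109) (nat_lit 15) (.e (nat_lit 188452) (nat_lit 23) (.e (nat_lit 204849) (nat_lit 25) (.e (nat_lit 327705) (nat_lit 10) .nil))))) .nil))) (.nd (nat_lit 5) 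
(.lf (nat_lit 85012) (.g (nat_lit 3770) (.e (nat_lit 1859) (nat_lit 124) (.e (nat_lit 557109) (nat_lit 15) (.e (nat_lit 188452) (nat_lit 23) (.e (nat_lit 204846) (nat_lit 24) (.e (nat_lit 319513) (nat_lit 10) (.e (nat_lit 5632) (nat_lit 312) (.e (nat_lit 16) (nat_lit 0) .nil))))))) (.g (nat_lit 4) .nil .nil))) 
(.lf (nat_lit 85044) (.g (nat_lit 4872) (.e (nat_lit 1859) (nat_lit 124) (.e (nat_lit 557109) (nat_lit 15) (.e (nat_lit 188452) (nat_lit 23) (.e (nat_lit 204852) (nat_lit 26) (.e (nat_lit 336355) (nat_lit 24) (.e (nat_lit 262145) (nat_lit 0) (.e (nat_lit 1037) (nat_lit 81) .nil))))))) (.g (nat_lit 5) .nil .nil))))) (.nd (nat_lit 4) (.nd (nat_lit 5) 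
(.lf (nat_lit 85004) (.g (nat_lit 6285) (.e (nat_lit 1859) (nat_lit 124) (.e (nat_lit 557109) (nat_lit 15) (.e (nat_lit 188452) (nat_lit 23) (.e (nat_lit 204846) (nat_lit 24) (.e (nat_lit 319506) (nat_lit 10) (.e (nat_lit 5723) (nat_lit 312) (.e (nat_lit 59) (nat_lit 0) .nil))))))) (.g (nat_lit 5) .nil .nil))) 
(.lf (nat_lit 85036) (.g (nat_lit 4229) (.e (nat_lit 1859) (nat_lit 124) (.e (nat_lit 557109) (nat_lit 15) (.e (nat_lit 188452) (nat_lit 23) (.e (nat_lit 204851) (nat_lit 26) (.e (nat_lit 336306) (nat_lit 15) .nil))))) .nil))) (.nd (nat_lit 5) 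
(.lf (nat_lit 85020) (.g (nat_lit 7744) (.e (nat_lit 1859) (nat_lit 124) (.e (nat_lit 557109) (nat_lit 15) (.e (nat_lit 188452) (nat_lit 23) (.e (nat_lit 204846) (nat_lit 24) (.e (nat_lit 319538) (nat_lit 19) (.e (nat_lit 311348) (nat_lit 15) .nil)))))) (.g (nat_lit 0) .nil .nil))) 
(.lf (nat_lit 85052) (.g (nat_lit 4520) (.e (nat_lit 1859) (nat_lit 124) (.e (nat_lit 557109) (nat_lit 15) (.e (nat_lit 188452) (nat_lit 23) (.e (nat_lit 204858) (nat_lit 26) .nil)))) .nil)))))) (.nd (nat_lit 2) (.nd (nat_lit 3) (.nd (nat_lit 4) (.nd (nat_lit 5) 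
(.lf (nat_lit 84994) (.g (nat_lit 4298) (.e (nat_lit 1859) (nat_lit 124) (.e (nat_lit 557109) (nat_lit 15) (.e (nat_lit 188452) (nat_lit 23) (.e (nat_lit 204846) (nat_lit 24) (.e (nat_lit 319502) (nat_lit 10) (.e (nat_lit 5720) (nat_lit 312) (.e (nat_lit 59) (nat_lit 0) .nil))))))) (.g (nat_lit 4) .nil .nil))) 
(.lf (nat_lit 85026) (.g (nat_lit 4787) (.e (nat_lit 1859) (nat_lit 124) (.e (nat_lit 557109) (nat_lit 15) (.e (nat_lit 188452) (nat_lit 23) (.e (nat_lit 204848) (nat_lit 25) (.e (nat_lit 327718) (nat_lit 19) (.e (nat_lit 311348) (nat_lit 15) .nil)))))) (.g (nat_lit 0) .nil .nil)))) (.nd (nat_lit 5) 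
(.lf (nat_lit 85010) (.g (nat_lit 3711) (.e (nat_lit 1859) (nat_lit 124) (.e (nat_lit 557109) (nat_lit 15) (.e (nat_lit 188452) (nat_lit 23) (.e (nat_lit 204846) (nat_lit 24) (.e (nat_lit 319512) (nat_lit 10) .nil))))) .nil)) 
(.lf (nat_lit 85042) (.g (nat_lit 4186) (.e (nat_lit 1859) (nat_lit 124) (.e (nat_lit 557109) (nat_lit 15) (.e (nat_lit 188452) (nat_lit 23) (.e (nat_lit 204852) (nat_lit 26) (.e (nat_lit 336306) (nat_lit 15) .nil))))) .nil)))) (.nd (nat_lit 4) (.nd (nat_lit 5) 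
(.lf (nat_lit 85002) (.g (nat_lit 6138) (.e (nat_lit 1859) (nat_lit 124) (.e (nat_lit 557109) (nat_lit 15) (.e (nat_lit 188452) (nat_lit 23) (.e (nat_lit 204846) (nat_lit 24) (.e (nat_lit 319506) (nat_lit 10) (.e (nat_lit 5721) (nat_lit 312) (.e (nat_lit 59) (nat_lit 0) .nil))))))) (.g (nat_lit 5) .nil .nil))) 
(.lf (nat_lit 85034) (.g (nat_lit 3781) (.e (nat_lit 1859) (nat_lit 124) (.e (nat_lit 557109) (nat_lit 15) (.e (nat_lit 188452) (nat_lit 23) (.e (nat_lit 204851) (nat_lit 26) .nil)))) .nil))) (.nd (nat_lit 5) 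
(.lf (nat_lit 85018) (.g (nat_lit 4306) (.e (nat_lit 1859) (nat_lit 124) (.e (nat_lit 557109) (nat_lit 15) (.e (nat_lit 188452) (nat_lit 23) (.e (nat_lit 204846) (nat_lit 24) (.e (nat_lit 319537) (nat_lit 19) (.e (nat_lit 311348) (nat_lit 15) .nil)))))) (.g (nat_lit 0) .nil .nil))) 
(.lf (nat_lit 85050) (.g (nat_lit 2913) (.e (nat_lit 1859) (nat_lit 124) (.e (nat_lit 557109) (nat_lit 15) (.e (nat_lit 188452) (nat_lit 23) (.e (nat_lit 204855) (nat_lit 26) .nil)))) .nil))))) (.nd (nat_lit 3) (.nd (nat_lit 4) (.nd (nat_lit 5) 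
(.lf (nat_lit 84998) (.g (nat_lit 3121) (.e (nat_lit 1859) (nat_lit 124) (.e (nat_lit 557109) (nat_lit 15) (.e (nat_lit 188452) (nat_lit 23) (.e (nat_lit 204846) (nat_lit 24) (.e (nat_lit 319504) (nat_lit 10) (.e (nat_lit 5692) (nat_lit 312) (.e (nat_lit 59) (nat_lit 0) .nil))))))) (.g (nat_lit 5) .nil .nil))) 
(.lf (nat_lit 85030) (.g (nat_lit 4035) (.e (nat_lit 1859) (nat_lit 124) (.e (nat_lit 557109) (nat_lit 15) (.e (nat_lit 188452) (nat_lit 23) (.e (nat_lit 204849) (nat_lit 25) (.e (nat_lit 327705) (nat_lit 10) (.e (nat_lit 5723) (nat_lit 312) (.e (nat_lit 59) (nat_lit 0) .nil))))))) (.g (nat_lit 5) .nil .nil)))) (.nd (nat_lit 5) 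
(.lf (nat_lit 85014) (.g (nat_lit 3514) (.e (nat_lit 1859) (nat_lit 124) (.e (nat_lit 557109) (nat_lit 15) (.e (nat_lit 188452) (nat_lit 23) (.e (nat_lit 204846) (nat_lit 24) (.e (nat_lit 327424) (nat_lit 10) (.e (nat_lit 5619) (nat_lit 312) (.e (nat_lit 16) (nat_lit 0) .nil))))))) (.g (nat_lit 4) .nil .nil))) 
(.lf (nat_lit 85046) (.g (nat_lit 4022) (.e (nat_lit 1859) (nat_lit 124) (.e (nat_lit 557109) (nat_lit 15) (.e (nat_lit 188452) (nat_lit 23) (.e (nat_lit 204853) (nat_lit 26) .nil)))) .nil)))) (.nd (nat_lit 4) (.nd (nat_lit 5) 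
(.lf (nat_lit 85006) (.g (nat_lit 4031) (.e (nat_lit 1859) (nat_lit 124) (.e (nat_lit 557109) (nat_lit 15) (.e (nat_lit 188452) (nat_lit 23) (.e (nat_lit 204846) (nat_lit 24) (.e (nat_lit 319509) (nat_lit 10) (.e (nat_lit 5723) (nat_lit 312) (.e (nat_lit 60) (nat_lit 0) .nil))))))) (.g (nat_lit 4) .nil .nil))) 
(.lf (nat_lit 85038) (.g (nat_lit 2910) (.e (nat_lit 1859) (nat_lit 124) (.e (nat_lit 557109) (nat_lit 15) (.e (nat_lit 188452) (nat_lit 23) (.e (nat_lit 204852) (nat_lit 26) .nil)))) .nil))) (.nd (nat_lit 5) 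
(.lf (nat_lit 85022) (.g (nat_lit 7799) (.e (nat_lit 1859) (nat_lit 124) (.e (nat_lit 557109) (nat_lit 15) (.e (nat_lit 188452) (nat_lit 23) (.e (nat_lit 204846) (nat_lit 24) (.e (nat_lit 319539) (nat_lit 19) (.e (nat_lit 311348) (nat_lit 15) .nil)))))) (.g (nat_lit 0) .nil .nil))) 
(.lf (nat_lit 85054) (.g (nat_lit 4363) (.e (nat_lit 1859) (nat_lit 124) (.e (nat_lit 557109) (nat_lit 15) (.e (nat_lit 188452) (nat_lit 23) (.e (nat_lit 204861) (nat_lit 26) .nil)))) .nil))))))) (.nd (nat_lit 1) (.nd (nat_lit 2) (.nd (nat_lit 3) (.nd (nat_lit 4) (.nd (nat_lit 5) 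
(.lf (nat_lit 84993) (.g (nat_lit 3626) (.e (nat_lit 1859) (nat_lit 124) (.e (nat_lit 557109) (nat_lit 15) (.e (nat_lit 188452) (nat_lit 23) (.e (nat_lit 204846) (nat_lit 24) (.e (nat_lit 319502) (nat_lit 10) (.e (nat_lit 5719) (nat_lit 312) (.e (nat_lit 60) (nat_lit 0) .nil))))))) (.g (nat_lit 4) .nil .nil))) 
(.lf (nat_lit 85025) (.g (nat_lit 4108) (.e (nat_lit 1859) (nat_lit 124) (.e (nat_lit 557109) (nat_lit 15) (.e (nat_lit 188452) (nat_lit 23) (.e (nat_lit 204848) (nat_lit 25) (.e (nat_lit 327705) (nat_lit 10) .nil))))) .nil))) (.nd (nat_lit 5) 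
(.lf (nat_lit 85009) (.g (nat_lit 3604) (.e (nat_lit 1859) (nat_lit 124) (.e (nat_lit 557109) (nat_lit 15) (.e (nat_lit 188452) (nat_lit 23) (.e (nat_lit 204846) (nat_lit 24) (.e (nat_lit 319511) (nat_lit 10) (.e (nat_lit 5629) (nat_lit 312) (.e (nat_lit 11) (nat_lit 0) .nil))))))) (.g (nat_lit 4) .nil .nil))) 
(.lf (nat_lit 85041) (.g (nat_lit 4629) (.e (nat_lit 1859) (nat_lit 124) (.e (nat_lit 557109) (nat_lit 15) (.e (nat_lit 188452) (nat_lit 23) (.e (nat_lit 204852) (nat_lit 26) (.e (nat_lit 336260) (nat_lit 15) (.e (nat_lit 3733) (nat_lit 228) (.e (nat_lit 786448) (nat_lit 15) .nil))))))) (.g (nat_lit 5) .nil .nil))))) (.nd (nat_lit 4) (.nd (nat_lit 5) 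
(.lf (nat_lit 85001) (.g (nat_lit 4932) (.e (nat_lit 1859) (nat_lit 124) (.e (nat_lit 557109) (nat_lit 15) (.e (nat_lit 188452) (nat_lit 23) (.e (nat_lit 204846) (nat_lit 24) (.e (nat_lit 319506) (nat_lit 10) .nil))))) .nil)) 
(.lf (nat_lit 85033) (.g (nat_lit 3021) (.e (nat_lit 1859) (nat_lit 124) (.e (nat_lit 557109) (nat_lit 15) (.e (nat_lit 188452) (nat_lit 23) (.e (nat_lit 204850) (nat_lit 26) .nil)))) .nil))) (.nd (nat_lit 5) 
(.lf (nat_lit 85017) (.g (nat_lit 3401) (.e (nat_lit 1859) (nat_lit 124) (.e (nat_lit 557109) (nat_lit 15) (.e (nat_lit 188452) (nat_lit 23) (.e (nat_lit 204846) (nat_lit 24) (.e (nat_lit 327424) (nat_lit 18) (.e (nat_lit 311040) (nat_lit 15) .nil)))))) (.g (nat_lit 4) .nil .nil))) 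
(.lf (nat_lit 85049) (.g (nat_lit 5567) (.e (nat_lit 1859) (nat_lit 124) (.e (nat_lit 557109) (nat_lit 15) (.e (nat_lit 188452) (nat_lit 23) (.e (nat_lit 204854) (nat_lit 26) (.e (nat_lit 336306) (nat_lit 15) .nil))))) .nil))))) (.nd (nat_lit 3) (.nd (nat_lit 4) (.nd (nat_lit 5) 
(.lf (nat_lit 84997) (.g (nat_lit 2762) (.e (nat_lit 1859) (nat_lit 124) (.e (nat_lit 557109) (nat_lit 15) (.e (nat_lit 188452) (nat_lit 23) (.e (nat_lit 204846) (nat_lit 24) (.e (nat_lit 319504) (nat_lit 10) (.e (nat_lit 5689) (nat_lit 312) (.e (nat_lit 59) (nat_lit 0) .nil))))))) (.g (nat_lit 5) .nil .nil))) 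
(.lf (nat_lit 85029) (.g (nat_lit 3704) (.e (nat_lit 1859) (nat_lit 124) (.e (nat_lit 557109) (nat_lit 15) (.e (nat_lit 188452) (nat_lit 23) (.e (nat_lit 204849) (nat_lit 25) (.e (nat_lit 327705) (nat_lit 10) (.e (nat_lit 5722) (nat_lit 312) (.e (nat_lit 59) (nat_lit 0) .nil))))))) (.g (nat_lit 4) .nil .nil)))) (.nd (nat_lit 5) 
(.lf (nat_lit 85013) (.g (nat_lit 3162) (.e (nat_lit 1859) (nat_lit 124) (.e (nat_lit 557109) (nat_lit 15) (.e (nat_lit 188452) (nat_lit 23) (.e (nat_lit 204846) (nat_lit 24) (.e (nat_lit 327424) (nat_lit 10) .nil))))) .nil)) 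
(.lf (nat_lit 85045) (.g (nat_lit 4117) (.e (nat_lit 1859) (nat_lit 124) (.e (nat_lit 557109) (nat_lit 15) (.e (nat_lit 188452) (nat_lit 23) (.e (nat_lit 204852) (nat_lit 26) (.e (nat_lit 336355) (nat_lit 24) (.e (nat_lit 262146) (nat_lit 0) (.e (nat_lit 1037) (nat_lit 81) .nil))))))) (.g (nat_lit 4) .nil .nil))))) (.nd (nat_lit 4) (.nd (nat_lit 5) 
(.lf (nat_lit 85005) (.g (nat_lit 3946) (.e (nat_lit 1859) (nat_lit 124) (.e (nat_lit 557109) (nat_lit 15) (.e (nat_lit 188452) (nat_lit 23) (.e (nat_lit 204846) (nat_lit 24) (.e (nat_lit 319509) (nat_lit 10) .nil))))) .nil)) 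
(.lf (nat_lit 85037) (.g (nat_lit 4840) (.e (nat_lit 1859) (nat_lit 124) (.e (nat_lit 557109) (nat_lit 15) (.e (nat_lit 188452) (nat_lit 23) (.e (nat_lit 204851) (nat_lit 26) (.e (nat_lit 336306) (nat_lit 15) (.e (nat_lit 3735) (nat_lit 228) (.e (nat_lit 786448) (nat_lit 15) .nil))))))) (.g (nat_lit 4) .nil .nil)))) (.nd (nat_lit 5) 
(.lf (nat_lit 85021) (.g (nat_lit 6035) (.e (nat_lit 1859) (nat_lit 124) (.e (nat_lit 557109) (nat_lit 15) (.e (nat_lit 188452) (nat_lit 23) (.e (nat_lit 204846) (nat_lit 24) (.e (nat_lit 319539) (nat_lit 19) .nil))))) .nil)) 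
(.lf (nat_lit 85053) (.g (nat_lit 3944) (.e (nat_lit 1859) (nat_lit 124) (.e (nat_lit 557109) (nat_lit 15) (.e (nat_lit 188452) (nat_lit 23) (.e (nat_lit 204859) (nat_lit 26) .nil)))) .nil)))))) (.nd (nat_lit 2) (.nd (nat_lit 3) (.nd (nat_lit 4) (.nd (nat_lit 5) 
(.lf (nat_lit 84995) (.g (nat_lit 4261) (.e (nat_lit 1859) (nat_lit 124) (.e (nat_lit 557109) (nat_lit 15) (.e (nat_lit 188452) (nat_lit 23) (.e (nat_lit 204846) (nat_lit 24) (.e (nat_lit 319502) (nat_lit 10) (.e (nat_lit 5727) (nat_lit 312) (.e (nat_lit 59) (nat_lit 0) .nil))))))) (.g (nat_lit 4) .nil .nil))) 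
(.lf (nat_lit 85027) (.g (nat_lit 2801) (.e (nat_lit 1859) (nat_lit 124) (.e (nat_lit 557109) (nat_lit 15) (.e (nat_lit 188452) (nat_lit 23) (.e (nat_lit 204849) (nat_lit 25) .nil)))) .nil))) (.nd (nat_lit 5) 
(.lf (nat_lit 85011) (.g (nat_lit 3721) (.e (nat_lit 1859) (nat_lit 124) (.e (nat_lit 557109) (nat_lit 15) (.e (nat_lit 188452) (nat_lit 23) (.e (nat_lit 204846) (nat_lit 24) (.e (nat_lit 319513) (nat_lit 10) .nil))))) .nil)) 
(.lf (nat_lit 85043) (.g (nat_lit 3965) (.e (nat_lit 1859) (nat_lit 124) (.e (nat_lit 557109) (nat_lit 15) (.e (nat_lit 188452) (nat_lit 23) (.e (nat_lit 204852) (nat_lit 26) (.e (nat_lit 336355) (nat_lit 24) .nil))))) .nil)))) (.nd (nat_lit 4) (.nd (nat_lit 5) 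
(.lf (nat_lit 85003) (.g (nat_lit 6277) (.e (nat_lit 1859) (nat_lit 124) (.e (nat_lit 557109) (nat_lit 15) (.e (nat_lit 188452) (nat_lit 23) (.e (nat_lit 204846) (nat_lit 24) (.e (nat_lit 319506) (nat_lit 10) (.e (nat_lit 5722) (nat_lit 312) (.e (nat_lit 59) (nat_lit 0) .nil))))))) (.g (nat_lit 5) .nil .nil))) 
(.lf (nat_lit 85035) (.g (nat_lit 4560) (.e (nat_lit 1859) (nat_lit 124) (.e (nat_lit 557109) (nat_lit 15) (.e (nat_lit 188452) (nat_lit 23) (.e (nat_lit 204851) (nat_lit 26) (.e (nat_lit 336260) (nat_lit 15) (.e (nat_lit 3733) (nat_lit 228) (.e (nat_lit 786444) (nat_lit 15) .nil))))))) (.g (nat_lit 4) .nil .nil)))) (.nd (nat_lit 5) 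
(.lf (nat_lit 85019) (.g (nat_lit 6172) (.e (nat_lit 1859) (nat_lit 124) (.e (nat_lit 557109) (nat_lit 15) (.e (nat_lit 188452) (nat_lit 23) (.e (nat_lit 204846) (nat_lit 24) (.e (nat_lit 319538) (nat_lit 19) .nil))))) .nil)) 
(.lf (nat_lit 85051) (.g (nat_lit 3046) (.e (nat_lit 1859) (nat_lit 124) (.e (nat_lit 557109) (nat_lit 15) (.e (nat_lit 188452) (nat_lit 23) (.e (nat_lit 204856) (nat_lit 26) .nil)))) .nil))))) (.nd (nat_lit 3) (.nd (nat_lit 4) (.nd (nat_lit 5) 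
(.lf (nat_lit 84999) (.g (nat_lit 3496) (.e (nat_lit 1859) (nat_lit 124) (.e (nat_lit 557109) (nat_lit 15) (.e (nat_lit 188452) (nat_lit 23) (.e (nat_lit 204846) (nat_lit 24) (.e (nat_lit 319504) (nat_lit 10) (.e (nat_lit 5698) (nat_lit 312) (.e (nat_lit 59) (nat_lit 0) .nil))))))) (.g (nat_lit 5) .nil .nil))) 
(.lf (nat_lit 85031) (.g (nat_lit 4205) (.e (nat_lit 1859) (nat_lit 124) (.e (nat_lit 557109) (nat_lit 15) (.e (nat_lit 188452) (nat_lit 23) (.e (nat_lit 204849) (nat_lit 25) (.e (nat_lit 327705) (nat_lit 10) (.e (nat_lit 5723) (nat_lit 312) (.e (nat_lit 60) (nat_lit 0) .nil))))))) (.g (nat_lit 7) .nil .nil)))) (.nd (nat_lit 5) 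
(.lf (nat_lit 85015) (.g (nat_lit 3178) (.e (nat_lit 1859) (nat_lit 124) (.e (nat_lit 557109) (nat_lit 15) (.e (nat_lit 188452) (nat_lit 23) (.e (nat_lit 204846) (nat_lit 24) (.e (nat_lit 327424) (nat_lit 10) (.e (nat_lit 5619) (nat_lit 312) (.e (nat_lit 61) (nat_lit 0) .nil))))))) (.g (nat_lit 4) .nil .nil))) 
(.lf (nat_lit 85047) (.g (nat_lit 4694) (.e (nat_lit 1859) (nat_lit 124) (.e (nat_lit 557109) (nat_lit 15) (.e (nat_lit 188452) (nat_lit 23) (.e (nat_lit 204853) (nat_lit 26) (.e (nat_lit 336260) (nat_lit 15) .nil))))) .nil)))) (.nd (nat_lit 4) (.nd (nat_lit 5) 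
(.lf (nat_lit 85007) (.g (nat_lit 4015) (.e (nat_lit 1859) (nat_lit 124) (.e (nat_lit 557109) (nat_lit 15) (.e (nat_lit 188452) (nat_lit 23) (.e (nat_lit 204846) (nat_lit 24) (.e (nat_lit 319510) (nat_lit 10) .nil))))) .nil)) 
(.lf (nat_lit 85039) (.g (nat_lit 4070) (.e (nat_lit 1859) (nat_lit 124) (.e (nat_lit 557109) (nat_lit 15) (.e (nat_lit 188452) (nat_lit 23) (.e (nat_lit 204852) (nat_lit 26) (.e (nat_lit 336257) (nat_lit 15) .nil))))) .nil))) (.nd (nat_lit 5) 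
(.lf (nat_lit 85023) (.g (nat_lit 3162) (.e (nat_lit 1859) (nat_lit 124) (.e (nat_lit 557109) (nat_lit 15) (.e (nat_lit 188452) (nat_lit 23) (.e (nat_lit 204846) (nat_lit 24) (.e (nat_lit 327424) (nat_lit 19) .nil))))) .nil)) 
(.lf (nat_lit 85055) (.g (nat_lit 2817) (.e (nat_lit 1859) (nat_lit 124) (.e (nat_lit 557109) (nat_lit 15) (.e (nat_lit 188452) (nat_lit 23) (.e (nat_lit 204862) (nat_lit 27) .nil)))) .nil))))))))

noncomputable def tv1153 : DT := (.nd (nat_lit 0) (.nd (nat_lit 1) (.nd (nat_lit 2) (.nd (nat_lit 3) (.nd (nat_lit 4) (.nd (nat_lit 5) 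
(.lf (nat_lit 85056) (.g (nat_lit 2789) (.e (nat_lit 1859) (nat_lit 124) (.e (nat_lit 557109) (nat_lit 15) (.e (nat_lit 188452) (nat_lit 23) (.e (nat_lit 204863) (nat_lit 27) .nil)))) .nil)) 
(.lf (nat_lit 85088) (.g (nat_lit 1783) (.e (nat_lit 1859) (nat_lit 124) (.e (nat_lit 557109) (nat_lit 15) (.e (nat_lit 188455) (nat_lit 24) (.e (nat_lit 229533) (nat_lit 134) .nil)))) .nil))) (.nd (nat_lit 5) 
(.lf (nat_lit 85072) (.g (nat_lit 3598) (.e (nat_lit 1859) (nat_lit 124) (.e (nat_lit 557109) (nat_lit 15) (.e (nat_lit 188452) (nat_lit 23) (.e (nat_lit 204883) (nat_lit 33) (.e (nat_lit 401437) (nat_lit 9) (.e (nat_lit 426402) (nat_lit 15) .nil)))))) (.g (nat_lit 0) .nil .nil))) 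
(.lf (nat_lit 85104) (.g (nat_lit 1493) (.e (nat_lit 1859) (nat_lit 124) (.e (nat_lit 557109) (nat_lit 15) (.e (nat_lit 188461) (nat_lit 26) (.e (nat_lit 253959) (nat_lit 9) .nil)))) .nil)))) (.nd (nat_lit 4) (.nd (nat_lit 5) 
(.lf (nat_lit 85064) (.g (nat_lit 4872) (.e (nat_lit 1859) (nat_lit 124) (.e (nat_lit 557109) (nat_lit 15) (.e (nat_lit 188452) (nat_lit 23) (.e (nat_lit 204880) (nat_lit 32) (.e (nat_lit 385103) (nat_lit 50) .nil))))) .nil)) 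
(.lf (nat_lit 85096) (.g (nat_lit 2622) (.e (nat_lit 1859) (nat_lit 124) (.e (nat_lit 557109) (nat_lit 15) (.e (nat_lit 188458) (nat_lit 25) (.e (nat_lit 245784) (nat_lit 9) (.e (nat_lit 991) (nat_lit 81) (.e (nat_lit 6718) (nat_lit 361) (.e (nat_lit 179968) (nat_lit 15) .nil))))))) (.g (nat_lit 4) .nil .nil)))) (.nd (nat_lit 5) 
(.lf (nat_lit 85080) (.g (nat_lit 3774) (.e (nat_lit 1859) (nat_lit 124) (.e (nat_lit 557109) (nat_lit 15) (.e (nat_lit 188452) (nat_lit 23) (.e (nat_lit 204885) (nat_lit 33) (.e (nat_lit 401434) (nat_lit 9) (.e (nat_lit 426402) (nat_lit 15) .nil)))))) (.g (nat_lit 6) .nil .nil))) 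
(.lf (nat_lit 85112) (.g (nat_lit 1264) (.e (nat_lit 1860) (nat_lit 124) (.e (nat_lit 557093) (nat_lit 12) (.e (nat_lit 164239) (nat_lit 187) (.e (nat_lit 1661) (nat_lit 115) (.e (nat_lit 393252) (nat_lit 18) .nil))))) .nil))))) (.nd (nat_lit 3) (.nd (nat_lit 4) (.nd (nat_lit 5) 
(.lf (nat_lit 85060) (.g (nat_lit 4436) (.e (nat_lit 1859) (nat_lit 124) (.e (nat_lit 557109) (nat_lit 15) (.e (nat_lit 188452) (nat_lit 23) (.e (nat_lit 204874) (nat_lit 30) .nil)))) .nil)) 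
(.lf (nat_lit 85092) (.g (nat_lit 1385) (.e (nat_lit 1859) (nat_lit 124) (.e (nat_lit 557109) (nat_lit 15) (.e (nat_lit 188455) (nat_lit 24) (.e (nat_lit 237312) (nat_lit 139) .nil)))) .nil))) (.nd (nat_lit 5) 
(.lf (nat_lit 85076) (.g (nat_lit 4213) (.e (nat_lit 1859) (nat_lit 124) (.e (nat_lit 557109) (nat_lit 15) (.e (nat_lit 188452) (nat_lit 23) (.e (nat_lit 204884) (nat_lit 33) (.e (nat_lit 401437) (nat_lit 9) (.e (nat_lit 426402) (nat_lit 15) .nil)))))) (.g (nat_lit 0) .nil .nil))) 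
(.lf (nat_lit 85108) (.g (nat_lit 2976) (.e (nat_lit 1860) (nat_lit 124) (.e (nat_lit 557092) (nat_lit 12) (.e (nat_lit 164022) (nat_lit 46) (.e (nat_lit 704738) (nat_lit 11) (.e (nat_lit 16412) (nat_lit 2) (.e (nat_lit 196681) (nat_lit 17) (.e (nat_lit 131109) (nat_lit 9) (.e (nat_lit 335878) (nat_lit 0) .nil)))))))) (.g (nat_lit 4) .nil .nil))))) (.nd (nat_lit 4) (.nd (nat_lit 5) 
(.lf (nat_lit 85068) (.g (nat_lit 5019) (.e (nat_lit 1859) (nat_lit 124) (.e (nat_lit 557109) (nat_lit 15) (.e (nat_lit 188452) (nat_lit 23) (.e (nat_lit 204881) (nat_lit 32) (.e (nat_lit 385104) (nat_lit 50) (.e (nat_lit 786444) (nat_lit 15) .nil)))))) (.g (nat_lit 5) .nil .nil))) 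
(.lf (nat_lit 85100) (.g (nat_lit 2076) (.e (nat_lit 1859) (nat_lit 124) (.e (nat_lit 557109) (nat_lit 15) (.e (nat_lit 188458) (nat_lit 25) (.e (nat_lit 245789) (nat_lit 12) .nil)))) .nil))) (.nd (nat_lit 5) 
(.lf (nat_lit 85084) (.g (nat_lit 3192) (.e (nat_lit 1859) (nat_lit 124) (.e (nat_lit 557109) (nat_lit 15) (.e (nat_lit 188452) (nat_lit 23) (.e (nat_lit 204885) (nat_lit 33) (.e (nat_lit 401444) (nat_lit 9) (.e (nat_lit 433920) (nat_lit 15) .nil)))))) (.g (nat_lit 5) .nil .nil))) 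
(.lf (nat_lit 85116) (.g (nat_lit 621) (.e (nat_lit 1860) (nat_lit 124) (.e (nat_lit 557100) (nat_lit 13) (.e (nat_lit 172082) (nat_lit 7) .nil))) .nil)))))) (.nd (nat_lit 2) (.nd (nat_lit 3) (.nd (nat_lit 4) (.nd (nat_lit 5) 
(.lf (nat_lit 85058) (.g (nat_lit 2339) (.e (nat_lit 1859) (nat_lit 124) (.e (nat_lit 557109) (nat_lit 15) (.e (nat_lit 188452) (nat_lit 23) (.e (nat_lit 204864) (nat_lit 27) .nil)))) .nil)) 
(.lf (nat_lit 85090) (.g (nat_lit 2590) (.e (nat_lit 1859) (nat_lit 124) (.e (nat_lit 557109) (nat_lit 15) (.e (nat_lit 188455) (nat_lit 24) (.e (nat_lit 237312) (nat_lit 138) (.e (nat_lit 163920) (nat_lit 14) (.e (nat_lit 450304) (nat_lit 0) .nil)))))) (.g (nat_lit 5) .nil .nil)))) (.nd (nat_lit 5) 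
(.lf (nat_lit 85074) (.g (nat_lit 1975) (.e (nat_lit 1859) (nat_lit 124) (.e (nat_lit 557109) (nat_lit 15) (.e (nat_lit 188452) (nat_lit 23) (.e (nat_lit 204884) (nat_lit 33) .nil)))) .nil)) 
(.lf (nat_lit 85106) (.g (nat_lit 2210) (.e (nat_lit 1860) (nat_lit 124) (.e (nat_lit 564992) (nat_lit 6) (.e (nat_lit 81954) (nat_lit 23) (.e (nat_lit 98356) (nat_lit 26) (.e (nat_lit 426448) (nat_lit 20) (.e (nat_lit 122624) (nat_lit 20) .nil)))))) (.g (nat_lit 5) .nil .nil))))) (.nd (nat_lit 4) (.nd (nat_lit 5) 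
(.lf (nat_lit 85066) (.g (nat_lit 4822) (.e (nat_lit 1859) (nat_lit 124) (.e (nat_lit 557109) (nat_lit 15) (.e (nat_lit 188452) (nat_lit 23) (.e (nat_lit 204880) (nat_lit 32) (.e (nat_lit 385105) (nat_lit 50) (.e (nat_lit 786444) (nat_lit 15) .nil)))))) (.g (nat_lit 4) .nil .nil))) 
(.lf (nat_lit 85098) (.g (nat_lit 3963) (.e (nat_lit 1859) (nat_lit 124) (.e (nat_lit 557109) (nat_lit 15) (.e (nat_lit 188458) (nat_lit 25) (.e (nat_lit 245784) (nat_lit 9) (.e (nat_lit 1671) (nat_lit 116) (.e (nat_lit 401437) (nat_lit 9) (.e (nat_lit 426402) (nat_lit 15) .nil))))))) (.g (nat_lit 7) .nil .nil)))) (.nd (nat_lit 5) 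
(.lf (nat_lit 85082) (.g (nat_lit 4290) (.e (nat_lit 1859) (nat_lit 124) (.e (nat_lit 557109) (nat_lit 15) (.e (nat_lit 188452) (nat_lit 23) (.e (nat_lit 204885) (nat_lit 33) (.e (nat_lit 401437) (nat_lit 9) (.e (nat_lit 426402) (nat_lit 15) .nil)))))) (.g (nat_lit 6) .nil .nil))) 
(.lf (nat_lit 85114) (.g (nat_lit 940) (.e (nat_lit 1860) (nat_lit 124) (.e (nat_lit 557098) (nat_lit 13) (.e (nat_lit 172120) (nat_lit 12) .nil))) .nil))))) (.nd (nat_lit 3) (.nd (nat_lit 4) (.nd (nat_lit 5) 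
(.lf (nat_lit 85062) (.g (nat_lit 5619) (.e (nat_lit 1859) (nat_lit 124) (.e (nat_lit 557109) (nat_lit 15) (.e (nat_lit 188452) (nat_lit 23) (.e (nat_lit 204880) (nat_lit 32) (.e (nat_lit 385099) (nat_lit 49) .nil))))) .nil)) 
(.lf (nat_lit 85094) (.g (nat_lit 2400) (.e (nat_lit 1859) (nat_lit 124) (.e (nat_lit 557109) (nat_lit 15) (.e (nat_lit 188458) (nat_lit 25) (.e (nat_lit 245783) (nat_lit 9) .nil)))) .nil))) (.nd (nat_lit 5) 
(.lf (nat_lit 85078) (.g (nat_lit 1854) (.e (nat_lit 1859) (nat_lit 124) (.e (nat_lit 557109) (nat_lit 15) (.e (nat_lit 188452) (nat_lit 23) (.e (nat_lit 204885) (nat_lit 33) .nil)))) .nil)) 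
(.lf (nat_lit 85110) (.g (nat_lit 2259) (.e (nat_lit 1860) (nat_lit 124) (.e (nat_lit 557093) (nat_lit 12) (.e (nat_lit 164023) (nat_lit 46) (.e (nat_lit 704737) (nat_lit 11) (.e (nat_lit 16412) (nat_lit 2) (.e (nat_lit 196674) (nat_lit 15) (.e (nat_lit 81936) (nat_lit 20) .nil))))))) (.g (nat_lit 4) .nil .nil))))) (.nd (nat_lit 4) (.nd (nat_lit 5) 
(.lf (nat_lit 85070) (.g (nat_lit 4632) (.e (nat_lit 1859) (nat_lit 124) (.e (nat_lit 557109) (nat_lit 15) (.e (nat_lit 188452) (nat_lit 23) (.e (nat_lit 204882) (nat_lit 32) (.e (nat_lit 385104) (nat_lit 50) (.e (nat_lit 786444) (nat_lit 15) .nil)))))) (.g (nat_lit 4) .nil .nil))) 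
(.lf (nat_lit 85102) (.g (nat_lit 2278) (.e (nat_lit 1859) (nat_lit 124) (.e (nat_lit 557109) (nat_lit 15) (.e (nat_lit 188458) (nat_lit 25) (.e (nat_lit 245797) (nat_lit 18) .nil)))) .nil))) (.nd (nat_lit 5) 
(.lf (nat_lit 85086) (.g (nat_lit 2793) (.e (nat_lit 1859) (nat_lit 124) (.e (nat_lit 557109) (nat_lit 15) (.e (nat_lit 188452) (nat_lit 23) (.e (nat_lit 212736) (nat_lit 33) .nil)))) .nil)) 
(.lf (nat_lit 85118) (.g (nat_lit 2645) (.e (nat_lit 1860) (nat_lit 124) (.e (nat_lit 557100) (nat_lit 13) (.e (nat_lit 172105) (nat_lit 10) (.e (nat_lit 434248) (nat_lit 28) (.e (nat_lit 573471) (nat_lit 11) (.e (nat_lit 16433) (nat_lit 9) (.e (nat_lit 426361) (nat_lit 15) .nil))))))) (.g (nat_lit 4) .nil .nil)))))))) 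
(.nd (nat_lit 1) (.nd (nat_lit 2) (.nd (nat_lit 3) (.nd (nat_lit 4) (.nd (nat_lit 5) 
(.lf (nat_lit 85057) (.g (nat_lit 3379) (.e (nat_lit 1859) (nat_lit 124) (.e (nat_lit 557109) (nat_lit 15) (.e (nat_lit 188452) (nat_lit 23) (.e (nat_lit 204863) (nat_lit 27) (.e (nat_lit 344169) (nat_lit 40) .nil))))) .nil)) 
(.lf (nat_lit 85089) (.g (nat_lit 1385) (.e (nat_lit 1859) (nat_lit 124) (.e (nat_lit 557109) (nat_lit 15) (.e (nat_lit 188455) (nat_lit 24) (.e (nat_lit 237312) (nat_lit 134) .nil)))) .nil))) (.nd (nat_lit 5) 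
(.lf (nat_lit 85073) (.g (nat_lit 3452) (.e (nat_lit 1859) (nat_lit 124) (.e (nat_lit 557109) (nat_lit 15) (.e (nat_lit 188452) (nat_lit 23) (.e (nat_lit 204883) (nat_lit 33) (.e (nat_lit 401438) (nat_lit 9) (.e (nat_lit 426402) (nat_lit 15) .nil)))))) (.g (nat_lit 0) .nil .nil))) 
(.lf (nat_lit 85105) (.g (nat_lit 1565) (.e (nat_lit 1859) (nat_lit 124) (.e (nat_lit 557109) (nat_lit 15) (.e (nat_lit 188461) (nat_lit 26) (.e (nat_lit 253987) (nat_lit 10) .nil)))) .nil)))) (.nd (nat_lit 4) (.nd (nat_lit 5) 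
(.lf (nat_lit 85065) (.g (nat_lit 4327) (.e (nat_lit 1859) (nat_lit 124) (.e (nat_lit 557109) (nat_lit 15) (.e (nat_lit 188452) (nat_lit 23) (.e (nat_lit 204880) (nat_lit 32) (.e (nat_lit 385105) (nat_lit 50) .nil))))) .nil)) 
(.lf (nat_lit 85097) (.g (nat_lit 2558) (.e (nat_lit 1859) (nat_lit 124) (.e (nat_lit 557109) (nat_lit 15) (.e (nat_lit 188458) (nat_lit 25) (.e (nat_lit 245784) (nat_lit 9) (.e (nat_lit 991) (nat_lit 81) (.e (nat_lit 6720) (nat_lit 361) (.e (nat_lit 179968) (nat_lit 15) .nil))))))) (.g (nat_lit 4) .nil .nil)))) (.nd (nat_lit 5) 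
(.lf (nat_lit 85081) (.g (nat_lit 3808) (.e (nat_lit 1859) (nat_lit 124) (.e (nat_lit 557109) (nat_lit 15) (.e (nat_lit 188452) (nat_lit 23) (.e (nat_lit 204885) (nat_lit 33) (.e (nat_lit 401436) (nat_lit 9) (.e (nat_lit 426402) (nat_lit 15) .nil)))))) (.g (nat_lit 6) .nil .nil))) 
(.lf (nat_lit 85113) (.g (nat_lit 3650) (.e (nat_lit 1860) (nat_lit 124) (.e (nat_lit 557094) (nat_lit 12) (.e (nat_lit 164022) (nat_lit 46) (.e (nat_lit 704738) (nat_lit 11) (.e (nat_lit 16412) (nat_lit 2) (.e (nat_lit 196681) (nat_lit 17) (.e (nat_lit 131109) (nat_lit 9) (.e (nat_lit 335878) (nat_lit 0) .nil)))))))) (.g (nat_lit 0) .nil .nil)))))) 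
(.nd (nat_lit 3) (.nd (nat_lit 4) (.nd (nat_lit 5) 
(.lf (nat_lit 85061) (.g (nat_lit 3079) (.e (nat_lit 1859) (nat_lit 124) (.e (nat_lit 557109) (nat_lit 15) (.e (nat_lit 188452) (nat_lit 23) (.e (nat_lit 204880) (nat_lit 32) .nil)))) .nil)) 
(.lf (nat_lit 85093) (.g (nat_lit 406) (.e (nat_lit 1859) (nat_lit 124) (.e (nat_lit 557109) (nat_lit 15) (.e (nat_lit 188458) (nat_lit 25) .nil))) .nil))) (.nd (nat_lit 5) 
(.lf (nat_lit 85077) (.g (nat_lit 3774) (.e (nat_lit 1859) (nat_lit 124) (.e (nat_lit 557109) (nat_lit 15) (.e (nat_lit 188452) (nat_lit 23) (.e (nat_lit 204884) (nat_lit 33) (.e (nat_lit 401438) (nat_lit 9) (.e (nat_lit 426402) (nat_lit 15) .nil)))))) (.g (nat_lit 0) .nil .nil))) 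
(.lf (nat_lit 85109) (.g (nat_lit 1993) (.e (nat_lit 1860) (nat_lit 124) (.e (nat_lit 557093) (nat_lit 12) (.e (nat_lit 164023) (nat_lit 46) (.e (nat_lit 704737) (nat_lit 11) (.e (nat_lit 16411) (nat_lit 2) (.e (nat_lit 196681) (nat_lit 17) (.e (nat_lit 131109) (nat_lit 9) (.e (nat_lit 335878) (nat_lit 0) .nil)))))))) (.g (nat_lit 4) .nil .nil))))) (.nd (nat_lit 4) (.nd (nat_lit 5) 
(.lf (nat_lit 85069) (.g (nat_lit 3643) (.e (nat_lit 1859) (nat_lit 124) (.e (nat_lit 557109) (nat_lit 15) (.e (nat_lit 188452) (nat_lit 23) (.e (nat_lit 204882) (nat_lit 32) .nil)))) .nil)) 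
(.lf (nat_lit 85101) (.g (nat_lit 2260) (.e (nat_lit 1859) (nat_lit 124) (.e (nat_lit 557109) (nat_lit 15) (.e (nat_lit 188458) (nat_lit 25) (.e (nat_lit 245793) (nat_lit 16) .nil)))) .nil))) (.nd (nat_lit 5) 
(.lf (nat_lit 85085) (.g (nat_lit 2595) (.e (nat_lit 1859) (nat_lit 124) (.e (nat_lit 557109) (nat_lit 15) (.e (nat_lit 188452) (nat_lit 23) (.e (nat_lit 204885) (nat_lit 33) (.e (nat_lit 409344) (nat_lit 9) .nil))))) .nil)) 
(.lf (nat_lit 85117) (.g (nat_lit 1441) (.e (nat_lit 1860) (nat_lit 124) (.e (nat_lit 557100) (nat_lit 13) (.e (nat_lit 172082) (nat_lit 7) (.e (nat_lit 409631) (nat_lit 12) (.e (nat_lit 32794) (nat_lit 14) .nil))))) .nil)))))) (.nd (nat_lit 2) (.nd (nat_lit 3) (.nd (nat_lit 4) (.nd (nat_lit 5) 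
(.lf (nat_lit 85059) (.g (nat_lit 4146) (.e (nat_lit 1859) (nat_lit 124) (.e (nat_lit 557109) (nat_lit 15) (.e (nat_lit 188452) (nat_lit 23) (.e (nat_lit 204873) (nat_lit 30) .nil)))) .nil)) 
(.lf (nat_lit 85091) (.g (nat_lit 2484) (.e (nat_lit 1859) (nat_lit 124) (.e (nat_lit 557109) (nat_lit 15) (.e (nat_lit 188455) (nat_lit 24) (.e (nat_lit 237312) (nat_lit 138) (.e (nat_lit 163933) (nat_lit 17) (.e (nat_lit 474880) (nat_lit 0) .nil)))))) (.g (nat_lit 5) .nil .nil)))) (.nd (nat_lit 5) 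
(.lf (nat_lit 85075) (.g (nat_lit 3355) (.e (nat_lit 1859) (nat_lit 124) (.e (nat_lit 557109) (nat_lit 15) (.e (nat_lit 188452) (nat_lit 23) (.e (nat_lit 204884) (nat_lit 33) (.e (nat_lit 401436) (nat_lit 9) (.e (nat_lit 426402) (nat_lit 15) .nil)))))) (.g (nat_lit 5) .nil .nil))) 
(.lf (nat_lit 85107) (.g (nat_lit 2084) (.e (nat_lit 1860) (nat_lit 124) (.e (nat_lit 564992) (nat_lit 6) (.e (nat_lit 81956) (nat_lit 23) (.e (nat_lit 98356) (nat_lit 26) (.e (nat_lit 426448) (nat_lit 20) (.e (nat_lit 122624) (nat_lit 20) .nil)))))) (.g (nat_lit 5) .nil .nil))))) (.nd (nat_lit 4) (.nd (nat_lit 5) 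
(.lf (nat_lit 85067) (.g (nat_lit 3810) (.e (nat_lit 1859) (nat_lit 124) (.e (nat_lit 557109) (nat_lit 15) (.e (nat_lit 188452) (nat_lit 23) (.e (nat_lit 204881) (nat_lit 32) .nil)))) .nil)) 
(.lf (nat_lit 85099) (.g (nat_lit 2485) (.e (nat_lit 1859) (nat_lit 124) (.e (nat_lit 557109) (nat_lit 15) (.e (nat_lit 188458) (nat_lit 25) (.e (nat_lit 245786) (nat_lit 9) .nil)))) .nil))) (.nd (nat_lit 5) 
(.lf (nat_lit 85083) (.g (nat_lit 3271) (.e (nat_lit 1859) (nat_lit 124) (.e (nat_lit 557109) (nat_lit 15) (.e (nat_lit 188452) (nat_lit 23) (.e (nat_lit 204885) (nat_lit 33) (.e (nat_lit 401440) (nat_lit 9) (.e (nat_lit 433920) (nat_lit 15) .nil)))))) (.g (nat_lit 5) .nil .nil))) 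
(.lf (nat_lit 85115) (.g (nat_lit 1062) (.e (nat_lit 1860) (nat_lit 124) (.e (nat_lit 557098) (nat_lit 13) (.e (nat_lit 172124) (nat_lit 14) .nil))) .nil))))) (.nd (nat_lit 3) (.nd (nat_lit 4) (.nd (nat_lit 5) 
(.lf (nat_lit 85063) (.g (nat_lit 4553) (.e (nat_lit 1859) (nat_lit 124) (.e (nat_lit 557109) (nat_lit 15) (.e (nat_lit 188452) (nat_lit 23) (.e (nat_lit 204880) (nat_lit 32) (.e (nat_lit 385102) (nat_lit 50) .nil))))) .nil)) 
(.lf (nat_lit 85095) (.g (nat_lit 1305) (.e (nat_lit 1859) (nat_lit 124) (.e (nat_lit 557109) (nat_lit 15) (.e (nat_lit 188458) (nat_lit 25) (.e (nat_lit 245784) (nat_lit 9) .nil)))) .nil))) (.nd (nat_lit 5) 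
(.lf (nat_lit 85079) (.g (nat_lit 3120) (.e (nat_lit 1859) (nat_lit 124) (.e (nat_lit 557109) (nat_lit 15) (.e (nat_lit 188452) (nat_lit 23) (.e (nat_lit 204885) (nat_lit 33) (.e (nat_lit 401434) (nat_lit 9) (.e (nat_lit 426363) (nat_lit 15) .nil)))))) (.g (nat_lit 5) .nil .nil))) 
(.lf (nat_lit 85111) (.g (nat_lit 3784) (.e (nat_lit 1860) (nat_lit 124) (.e (nat_lit 557093) (nat_lit 12) (.e (nat_lit 164023) (nat_lit 46) (.e (nat_lit 704737) (nat_lit 11) (.e (nat_lit 16412) (nat_lit 2) (.e (nat_lit 196681) (nat_lit 17) (.e (nat_lit 131109) (nat_lit 9) (.e (nat_lit 335878) (nat_lit 0) .nil)))))))) (.g (nat_lit 6) .nil .nil))))) (.nd (nat_lit 4) (.nd (nat_lit 5) 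
(.lf (nat_lit 85071) (.g (nat_lit 1570) (.e (nat_lit 1859) (nat_lit 124) (.e (nat_lit 557109) (nat_lit 15) (.e (nat_lit 188452) (nat_lit 23) (.e (nat_lit 204883) (nat_lit 33) .nil)))) .nil)) 
(.lf (nat_lit 85103) (.g (nat_lit 543) (.e (nat_lit 1859) (nat_lit 124) (.e (nat_lit 557109) (nat_lit 15) (.e (nat_lit 188461) (nat_lit 26) .nil))) .nil))) (.nd (nat_lit 5) 
(.lf (nat_lit 85087) (.g (nat_lit 1789) (.e (nat_lit 1859) (nat_lit 124) (.e (nat_lit 557109) (nat_lit 15) (.e (nat_lit 188453) (nat_lit 24) (.e (nat_lit 237312) (nat_lit 138) .nil)))) .nil)) 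
(.lf (nat_lit 85119) (.g (nat_lit 317) (.e (nat_lit 1860) (nat_lit 124) (.e (nat_lit 557100) (nat_lit 13) (.e (nat_lit 172106) (nat_lit 10) .nil))) .nil))))))))

noncomputable def tv1154 : DT := (.nd (nat_lit 0) (.nd (nat_lit 1) (.nd (nat_lit 2) (.nd (nat_lit 3) (.nd (nat_lit 4) (.nd (nat_lit 5) 
(.lf (nat_lit 85120) (.g (nat_lit 1470) (.e (nat_lit 1860) (nat_lit 124) (.e (nat_lit 557100) (nat_lit 13) (.e (nat_lit 172106) (nat_lit 10) (.e (nat_lit 434227) (nat_lit 20) .nil)))) .nil)) 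
(.lf (nat_lit 85152) (.g (nat_lit 3812) (.e (nat_lit 1860) (nat_lit 124) (.e (nat_lit 557100) (nat_lit 13) (.e (nat_lit 172106) (nat_lit 10) (.e (nat_lit 434231) (nat_lit 23) (.e (nat_lit 532529) (nat_lit 9) (.e (nat_lit 336260) (nat_lit 15) (.e (nat_lit 3733) (nat_lit 228) (.e (nat_lit 786445) (nat_lit 15) .nil)))))))) (.g (nat_lit 6) .nil .nil)))) (.nd (nat_lit 5) 
(.lf (nat_lit 85136) (.g (nat_lit 3004) (.e (nat_lit 1860) (nat_lit 124) (.e (nat_lit 557100) (nat_lit 13) (.e (nat_lit 172106) (nat_lit 10) (.e (nat_lit 434231) (nat_lit 23) (.e (nat_lit 532490) (nat_lit 0) (.e (nat_lit 6114) (nat_lit 332) (.e (nat_lit 1378) (nat_lit 104) (.e (nat_lit 311040) (nat_lit 15) .nil)))))))) (.g (nat_lit 5) .nil .nil))) 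
(.lf (nat_lit 85168) (.g (nat_lit 2531) (.e (nat_lit 1860) (nat_lit 124) (.e (nat_lit 557100) (nat_lit 13) (.e (nat_lit 172106) (nat_lit 10) (.e (nat_lit 434231) (nat_lit 23) (.e (nat_lit 532535) (nat_lit 9) (.e (nat_lit 336295) (nat_lit 15) (.e (nat_lit 3745) (nat_lit 228) (.e (nat_lit 786444) (nat_lit 15) .nil)))))))) (.g (nat_lit 6) .nil .nil))))) (.nd (nat_lit 4) (.nd (nat_lit 5) 
(.lf (nat_lit 85128) (.g (nat_lit 2845) (.e (nat_lit 1860) (nat_lit 124) (.e (nat_lit 557100) (nat_lit 13) (.e (nat_lit 172106) (nat_lit 10) (.e (nat_lit 434231) (nat_lit 23) (.e (nat_lit 532482) (nat_lit 0) (.e (nat_lit 6718) (nat_lit 361) (.e (nat_lit 179968) (nat_lit 15) .nil))))))) (.g (nat_lit 4) .nil .nil))) 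
(.lf (nat_lit 85160) (.g (nat_lit 3349) (.e (nat_lit 1860) (nat_lit 124) (.e (nat_lit 557100) (nat_lit 13) (.e (nat_lit 172106) (nat_lit 10) (.e (nat_lit 434231) (nat_lit 23) (.e (nat_lit 532535) (nat_lit 9) (.e (nat_lit 336030) (nat_lit 4) (.e (nat_lit 123195) (nat_lit 266) (.e (nat_lit 57345) (nat_lit 0) .nil)))))))) (.g (nat_lit 7) .nil .nil)))) (.nd (nat_lit 5) 
(.lf (nat_lit 85144) (.g (nat_lit 2689) (.e (nat_lit 1860) (nat_lit 124) (.e (nat_lit 557100) (nat_lit 13) (.e (nat_lit 172106) (nat_lit 10) (.e (nat_lit 434231) (nat_lit 23) (.e (nat_lit 532528) (nat_lit 9) (.e (nat_lit 336260) (nat_lit 15) (.e (nat_lit 3733) (nat_lit 228) (.e (nat_lit 786445) (nat_lit 15) .nil)))))))) (.g (nat_lit 6) .nil .nil))) 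
(.lf (nat_lit 85176) (.g (nat_lit 3524) (.e (nat_lit 1860) (nat_lit 124) (.e (nat_lit 557100) (nat_lit 13) (.e (nat_lit 172106) (nat_lit 10) (.e (nat_lit 434231) (nat_lit 23) (.e (nat_lit 532562) (nat_lit 15) (.e (nat_lit 385105) (nat_lit 50) (.e (nat_lit 786444) (nat_lit 15) .nil))))))) (.g (nat_lit 6) .nil .nil)))))) (.nd (nat_lit 3) (.nd (nat_lit 4) (.nd (nat_lit 5) 
(.lf (nat_lit 85124) (.g (nat_lit 2532) (.e (nat_lit 1860) (nat_lit 124) (.e (nat_lit 557100) (nat_lit 13) (.e (nat_lit 172106) (nat_lit 10) (.e (nat_lit 434227) (nat_lit 20) (.e (nat_lit 507930) (nat_lit 10) (.e (nat_lit 5770) (nat_lit 316) (.e (nat_lit 179968) (nat_lit 15) .nil))))))) (.g (nat_lit 4) .nil .nil))) 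
(.lf (nat_lit 85156) (.g (nat_lit 3883) (.e (nat_lit 1860) (nat_lit 124) (.e (nat_lit 557100) (nat_lit 13) (.e (nat_lit 172106) (nat_lit 10) (.e (nat_lit 434231) (nat_lit 23) (.e (nat_lit 532529) (nat_lit 9) (.e (nat_lit 336306) (nat_lit 15) (.e (nat_lit 3735) (nat_lit 228) (.e (nat_lit 786445) (nat_lit 15) .nil)))))))) (.g (nat_lit 7) .nil .nil)))) (.nd (nat_lit 5) 
(.lf (nat_lit 85140) (.g (nat_lit 2728) (.e (nat_lit 1860) (nat_lit 124) (.e (nat_lit 557100) (nat_lit 13) (.e (nat_lit 172106) (nat_lit 10) (.e (nat_lit 434231) (nat_lit 23) (.e (nat_lit 532490) (nat_lit 0) (.e (nat_lit 6674) (nat_lit 357) (.e (nat_lit 2941) (nat_lit 184) (.e (nat_lit 426353) (nat_lit 15) .nil)))))))) (.g (nat_lit 4) .nil .nil))) 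
(.lf (nat_lit 85172) (.g (nat_lit 2961) (.e (nat_lit 1860) (nat_lit 124) (.e (nat_lit 557100) (nat_lit 13) (.e (nat_lit 172106) (nat_lit 10) (.e (nat_lit 434231) (nat_lit 23) (.e (nat_lit 532535) (nat_lit 9) (.e (nat_lit 336295) (nat_lit 15) (.e (nat_lit 3748) (nat_lit 228) (.e (nat_lit 786444) (nat_lit 15) .nil)))))))) (.g (nat_lit 6) .nil .nil))))) (.nd (nat_lit 4) (.nd (nat_lit 5) 
(.lf (nat_lit 85132) (.g (nat_lit 2249) (.e (nat_lit 1860) (nat_lit 124) (.e (nat_lit 557100) (nat_lit 13) (.e (nat_lit 172106) (nat_lit 10) (.e (nat_lit 434231) (nat_lit 23) (.e (nat_lit 532483) (nat_lit 0) (.e (nat_lit 7936) (nat_lit 364) (.e (nat_lit 245504) (nat_lit 15) .nil))))))) (.g (nat_lit 4) .nil .nil))) 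
(.lf (nat_lit 85164) (.g (nat_lit 2523) (.e (nat_lit 1860) (nat_lit 124) (.e (nat_lit 557100) (nat_lit 13) (.e (nat_lit 172106) (nat_lit 10) (.e (nat_lit 434231) (nat_lit 23) (.e (nat_lit 532535) (nat_lit 9) (.e (nat_lit 336030) (nat_lit 4) (.e (nat_lit 123198) (nat_lit 266) (.e (nat_lit 57349) (nat_lit 0) .nil)))))))) (.g (nat_lit 6) .nil .nil)))) (.nd (nat_lit 5) 
(.lf (nat_lit 85148) (.g (nat_lit 2192) (.e (nat_lit 1860) (nat_lit 124) (.e (nat_lit 557100) (nat_lit 13) (.e (nat_lit 172106) (nat_lit 10) (.e (nat_lit 434231) (nat_lit 23) (.e (nat_lit 532529) (nat_lit 9) (.e (nat_lit 336257) (nat_lit 15) (.e (nat_lit 3736) (nat_lit 228) (.e (nat_lit 786445) (nat_lit 15) .nil)))))))) (.g (nat_lit 4) .nil .nil))) 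
(.lf (nat_lit 85180) (.g (nat_lit 3523) (.e (nat_lit 1860) (nat_lit 124) (.e (nat_lit 557100) (nat_lit 13) (.e (nat_lit 172106) (nat_lit 10) (.e (nat_lit 434231) (nat_lit 23) (.e (nat_lit 532563) (nat_lit 15) (.e (nat_lit 385106) (nat_lit 50) (.e (nat_lit 786444) (nat_lit 15) .nil))))))) (.g (nat_lit 6) .nil .nil))))))) (.nd (nat_lit 2) (.nd (nat_lit 3) (.nd (nat_lit 4) (.nd (nat_lit 5) 
(.lf (nat_lit 85122) (.g (nat_lit 2355) (.e (nat_lit 1860) (nat_lit 124) (.e (nat_lit 557100) (nat_lit 13) (.e (nat_lit 172106) (nat_lit 10) (.e (nat_lit 434227) (nat_lit 20) (.e (nat_lit 507929) (nat_lit 10) (.e (nat_lit 5770) (nat_lit 316) (.e (nat_lit 179968) (nat_lit 15) .nil))))))) (.g (nat_lit 4) .nil .nil))) 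
(.lf (nat_lit 85154) (.g (nat_lit 2541) (.e (nat_lit 1860) (nat_lit 124) (.e (nat_lit 557100) (nat_lit 13) (.e (nat_lit 172106) (nat_lit 10) (.e (nat_lit 434231) (nat_lit 23) (.e (nat_lit 532529) (nat_lit 9) (.e (nat_lit 336297) (nat_lit 15) (.e (nat_lit 3745) (nat_lit 228) (.e (nat_lit 786444) (nat_lit 15) .nil)))))))) (.g (nat_lit 5) .nil .nil)))) (.nd (nat_lit 5) 
(.lf (nat_lit 85138) (.g (nat_lit 3742) (.e (nat_lit 1860) (nat_lit 124) (.e (nat_lit 557100) (nat_lit 13) (.e (nat_lit 172106) (nat_lit 10) (.e (nat_lit 434231) (nat_lit 23) (.e (nat_lit 532490) (nat_lit 0) (.e (nat_lit 6674) (nat_lit 357) (.e (nat_lit 2936) (nat_lit 184) (.e (nat_lit 426353) (nat_lit 15) .nil)))))))) (.g (nat_lit 5) .nil .nil))) 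
(.lf (nat_lit 85170) (.g (nat_lit 3110) (.e (nat_lit 1860) (nat_lit 124) (.e (nat_lit 557100) (nat_lit 13) (.e (nat_lit 172106) (nat_lit 10) (.e (nat_lit 434231) (nat_lit 23) (.e (nat_lit 532535) (nat_lit 9) (.e (nat_lit 336295) (nat_lit 15) (.e (nat_lit 3747) (nat_lit 228) (.e (nat_lit 786444) (nat_lit 15) .nil)))))))) (.g (nat_lit 6) .nil .nil))))) (.nd (nat_lit 4) (.nd (nat_lit 5) 
(.lf (nat_lit 85130) (.g (nat_lit 2519) (.e (nat_lit 1860) (nat_lit 124) (.e (nat_lit 557100) (nat_lit 13) (.e (nat_lit 172106) (nat_lit 10) (.e (nat_lit 434231) (nat_lit 23) (.e (nat_lit 532483) (nat_lit 0) (.e (nat_lit 7936) (nat_lit 357) (.e (nat_lit 2852) (nat_lit 184) (.e (nat_lit 426354) (nat_lit 15) .nil)))))))) (.g (nat_lit 4) .nil .nil))) 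
(.lf (nat_lit 85162) (.g (nat_lit 3314) (.e (nat_lit 1860) (nat_lit 124) (.e (nat_lit 557100) (nat_lit 13) (.e (nat_lit 172106) (nat_lit 10) (.e (nat_lit 434231) (nat_lit 23) (.e (nat_lit 532535) (nat_lit 9) (.e (nat_lit 336030) (nat_lit 4) (.e (nat_lit 123197) (nat_lit 266) (.e (nat_lit 57349) (nat_lit 0) .nil)))))))) (.g (nat_lit 8) .nil .nil)))) (.nd (nat_lit 5) 
(.lf (nat_lit 85146) (.g (nat_lit 2966) (.e (nat_lit 1860) (nat_lit 124) (.e (nat_lit 557100) (nat_lit 13) (.e (nat_lit 172106) (nat_lit 10) (.e (nat_lit 434231) (nat_lit 23) (.e (nat_lit 532528) (nat_lit 9) (.e (nat_lit 336306) (nat_lit 15) (.e (nat_lit 3735) (nat_lit 228) (.e (nat_lit 786445) (nat_lit 15) .nil)))))))) (.g (nat_lit 7) .nil .nil))) 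
(.lf (nat_lit 85178) (.g (nat_lit 2775) (.e (nat_lit 1860) (nat_lit 124) (.e (nat_lit 557100) (nat_lit 13) (.e (nat_lit 172106) (nat_lit 10) (.e (nat_lit 434231) (nat_lit 23) (.e (nat_lit 532563) (nat_lit 15) (.e (nat_lit 385103) (nat_lit 50) (.e (nat_lit 786444) (nat_lit 15) .nil))))))) (.g (nat_lit 5) .nil .nil)))))) (.nd (nat_lit 3) (.nd (nat_lit 4) (.nd (nat_lit 5) 
(.lf (nat_lit 85126) (.g (nat_lit 2292) (.e (nat_lit 1860) (nat_lit 124) (.e (nat_lit 557100) (nat_lit 13) (.e (nat_lit 172106) (nat_lit 10) (.e (nat_lit 434231) (nat_lit 23) (.e (nat_lit 532481) (nat_lit 0) .nil))))) .nil)) 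
(.lf (nat_lit 85158) (.g (nat_lit 1930) (.e (nat_lit 1860) (nat_lit 124) (.e (nat_lit 557100) (nat_lit 13) (.e (nat_lit 172106) (nat_lit 10) (.e (nat_lit 434231) (nat_lit 23) (.e (nat_lit 532531) (nat_lit 9) (.e (nat_lit 336306) (nat_lit 15) (.e (nat_lit 3735) (nat_lit 228) (.e (nat_lit 786445) (nat_lit 15) .nil)))))))) (.g (nat_lit 6) .nil .nil)))) (.nd (nat_lit 5) 
(.lf (nat_lit 85142) (.g (nat_lit 3739) (.e (nat_lit 1860) (nat_lit 124) (.e (nat_lit 557100) (nat_lit 13) (.e (nat_lit 172106) (nat_lit 10) (.e (nat_lit 434231) (nat_lit 23) (.e (nat_lit 532490) (nat_lit 0) (.e (nat_lit 7936) (nat_lit 364) (.e (nat_lit 245504) (nat_lit 15) .nil))))))) (.g (nat_lit 5) .nil .nil))) 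
(.lf (nat_lit 85174) (.g (nat_lit 1032) (.e (nat_lit 1860) (nat_lit 124) (.e (nat_lit 557100) (nat_lit 13) (.e (nat_lit 172106) (nat_lit 10) (.e (nat_lit 434231) (nat_lit 23) (.e (nat_lit 532544) (nat_lit 10) .nil))))) .nil)))) (.nd (nat_lit 4) (.nd (nat_lit 5) 
(.lf (nat_lit 85134) (.g (nat_lit 1940) (.e (nat_lit 1860) (nat_lit 124) (.e (nat_lit 557100) (nat_lit 13) (.e (nat_lit 172106) (nat_lit 10) (.e (nat_lit 434231) (nat_lit 23) (.e (nat_lit 532490) (nat_lit 0) .nil))))) .nil)) 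
(.lf (nat_lit 85166) (.g (nat_lit 1950) (.e (nat_lit 1860) (nat_lit 124) (.e (nat_lit 557100) (nat_lit 13) (.e (nat_lit 172106) (nat_lit 10) (.e (nat_lit 434231) (nat_lit 23) (.e (nat_lit 532535) (nat_lit 9) (.e (nat_lit 336290) (nat_lit 15) (.e (nat_lit 3716) (nat_lit 227) (.e (nat_lit 778240) (nat_lit 0) (.e (nat_lit 974) (nat_lit 81) .nil))))))))) (.g (nat_lit 5) .nil .nil)))) (.nd (nat_lit 5) 
(.lf (nat_lit 85150) (.g (nat_lit 1990) (.e (nat_lit 1860) (nat_lit 124) (.e (nat_lit 557100) (nat_lit 13) (.e (nat_lit 172106) (nat_lit 10) (.e (nat_lit 434231) (nat_lit 23) (.e (nat_lit 532529) (nat_lit 9) (.e (nat_lit 336257) (nat_lit 15) (.e (nat_lit 3742) (nat_lit 228) (.e (nat_lit 786445) (nat_lit 15) .nil)))))))) (.g (nat_lit 4) .nil .nil))) 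
(.lf (nat_lit 85182) (.g (nat_lit 2371) (.e (nat_lit 1860) (nat_lit 124) (.e (nat_lit 557100) (nat_lit 13) (.e (nat_lit 172106) (nat_lit 10) (.e (nat_lit 434231) (nat_lit 23) (.e (nat_lit 532564) (nat_lit 15) (.e (nat_lit 385102) (nat_lit 50) (.e (nat_lit 786444) (nat_lit 15) .nil))))))) (.g (nat_lit 4) .nil .nil)))))))) 
(.nd (nat_lit 1) (.nd (nat_lit 2) (.nd (nat_lit 3) (.nd (nat_lit 4) (.nd (nat_lit 5) 
(.lf (nat_lit 85121) (.g (nat_lit 2424) (.e (nat_lit 1860) (nat_lit 124) (.e (nat_lit 557100) (nat_lit 13) (.e (nat_lit 172106) (nat_lit 10) (.e (nat_lit 434227) (nat_lit 20) (.e (nat_lit 507929) (nat_lit 10) (.e (nat_lit 5768) (nat_lit 316) (.e (nat_lit 179968) (nat_lit 15) .nil))))))) (.g (nat_lit 4) .nil .nil))) 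
(.lf (nat_lit 85153) (.g (nat_lit 2138) (.e (nat_lit 1860) (nat_lit 124) (.e (nat_lit 557100) (nat_lit 13) (.e (nat_lit 172106) (nat_lit 10) (.e (nat_lit 434231) (nat_lit 23) (.e (nat_lit 532529) (nat_lit 9) (.e (nat_lit 336296) (nat_lit 15) (.e (nat_lit 3714) (nat_lit 227) (.e (nat_lit 778240) (nat_lit 0) (.e (nat_lit 974) (nat_lit 81) .nil))))))))) (.g (nat_lit 4) .nil .nil)))) (.nd (nat_lit 5) 
(.lf (nat_lit 85137) (.g (nat_lit 2534) (.e (nat_lit 1860) (nat_lit 124) (.e (nat_lit 557100) (nat_lit 13) (.e (nat_lit 172106) (nat_lit 10) (.e (nat_lit 434231) (nat_lit 23) (.e (nat_lit 532490) (nat_lit 0) (.e (nat_lit 6223) (nat_lit 334) (.e (nat_lit 123162) (nat_lit 256) (.e (nat_lit 5) (nat_lit 0) .nil)))))))) (.g (nat_lit 4) .nil .nil))) 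
(.lf (nat_lit 85169) (.g (nat_lit 2824) (.e (nat_lit 1860) (nat_lit 124) (.e (nat_lit 557100) (nat_lit 13) (.e (nat_lit 172106) (nat_lit 10) (.e (nat_lit 434231) (nat_lit 23) (.e (nat_lit 532535) (nat_lit 9) (.e (nat_lit 336295) (nat_lit 15) (.e (nat_lit 3746) (nat_lit 228) (.e (nat_lit 786444) (nat_lit 15) .nil)))))))) (.g (nat_lit 6) .nil .nil))))) (.nd (nat_lit 4) (.nd (nat_lit 5) 
(.lf (nat_lit 85129) (.g (nat_lit 1905) (.e (nat_lit 1860) (nat_lit 124) (.e (nat_lit 557100) (nat_lit 13) (.e (nat_lit 172106) (nat_lit 10) (.e (nat_lit 434231) (nat_lit 23) (.e (nat_lit 532483) (nat_lit 0) .nil))))) .nil)) 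
(.lf (nat_lit 85161) (.g (nat_lit 3294) (.e (nat_lit 1860) (nat_lit 124) (.e (nat_lit 557100) (nat_lit 13) (.e (nat_lit 172106) (nat_lit 10) (.e (nat_lit 434231) (nat_lit 23) (.e (nat_lit 532535) (nat_lit 9) (.e (nat_lit 336030) (nat_lit 4) (.e (nat_lit 123195) (nat_lit 266) (.e (nat_lit 57349) (nat_lit 0) .nil)))))))) (.g (nat_lit 7) .nil .nil)))) (.nd (nat_lit 5) 
(.lf (nat_lit 85145) (.g (nat_lit 1610) (.e (nat_lit 1860) (nat_lit 124) (.e (nat_lit 557100) (nat_lit 13) (.e (nat_lit 172106) (nat_lit 10) (.e (nat_lit 434231) (nat_lit 23) (.e (nat_lit 532528) (nat_lit 9) (.e (nat_lit 336306) (nat_lit 15) (.e (nat_lit 3735) (nat_lit 228) (.e (nat_lit 786444) (nat_lit 15) .nil)))))))) (.g (nat_lit 4) .nil .nil))) 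
(.lf (nat_lit 85177) (.g (nat_lit 3291) (.e (nat_lit 1860) (nat_lit 124) (.e (nat_lit 557100) (nat_lit 13) (.e (nat_lit 172106) (nat_lit 10) (.e (nat_lit 434231) (nat_lit 23) (.e (nat_lit 532563) (nat_lit 15) (.e (nat_lit 385102) (nat_lit 50) (.e (nat_lit 786444) (nat_lit 15) .nil))))))) (.g (nat_lit 5) .nil .nil)))))) (.nd (nat_lit 3) (.nd (nat_lit 4) (.nd (nat_lit 5) 
(.lf (nat_lit 85125) (.g (nat_lit 635) (.e (nat_lit 1860) (nat_lit 124) (.e (nat_lit 557100) (nat_lit 13) (.e (nat_lit 172106) (nat_lit 10) (.e (nat_lit 434231) (nat_lit 23) .nil)))) .nil)) 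
(.lf (nat_lit 85157) (.g (nat_lit 2519) (.e (nat_lit 1860) (nat_lit 124) (.e (nat_lit 557100) (nat_lit 13) (.e (nat_lit 172106) (nat_lit 10) (.e (nat_lit 434231) (nat_lit 23) (.e (nat_lit 532529) (nat_lit 9) (.e (nat_lit 336355) (nat_lit 24) (.e (nat_lit 262146) (nat_lit 0) (.e (nat_lit 1006) (nat_lit 81) .nil)))))))) (.g (nat_lit 5) .nil .nil)))) (.nd (nat_lit 5) 
(.lf (nat_lit 85141) (.g (nat_lit 3229) (.e (nat_lit 1860) (nat_lit 124) (.e (nat_lit 557100) (nat_lit 13) (.e (nat_lit 172106) (nat_lit 10) (.e (nat_lit 434231) (nat_lit 23) (.e (nat_lit 532490) (nat_lit 0) (.e (nat_lit 7936) (nat_lit 361) (.e (nat_lit 179968) (nat_lit 15) .nil))))))) (.g (nat_lit 5) .nil .nil))) 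
(.lf (nat_lit 85173) (.g (nat_lit 3144) (.e (nat_lit 1860) (nat_lit 124) (.e (nat_lit 557100) (nat_lit 13) (.e (nat_lit 172106) (nat_lit 10) (.e (nat_lit 434231) (nat_lit 23) (.e (nat_lit 532535) (nat_lit 9) (.e (nat_lit 336295) (nat_lit 15) (.e (nat_lit 3748) (nat_lit 228) (.e (nat_lit 786445) (nat_lit 15) .nil)))))))) (.g (nat_lit 6) .nil .nil))))) (.nd (nat_lit 4) (.nd (nat_lit 5) 
(.lf (nat_lit 85133) (.g (nat_lit 2331) (.e (nat_lit 1860) (nat_lit 124) (.e (nat_lit 557100) (nat_lit 13) (.e (nat_lit 172106) (nat_lit 10) (.e (nat_lit 434231) (nat_lit 23) (.e (nat_lit 532486) (nat_lit 0) (.e (nat_lit 6113) (nat_lit 332) (.e (nat_lit 1376) (nat_lit 104) (.e (nat_lit 311040) (nat_lit 15) .nil)))))))) (.g (nat_lit 4) .nil .nil))) 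
(.lf (nat_lit 85165) (.g (nat_lit 2482) (.e (nat_lit 1860) (nat_lit 124) (.e (nat_lit 557100) (nat_lit 13) (.e (nat_lit 172106) (nat_lit 10) (.e (nat_lit 434231) (nat_lit 23) (.e (nat_lit 532535) (nat_lit 9) (.e (nat_lit 336290) (nat_lit 15) (.e (nat_lit 3715) (nat_lit 227) (.e (nat_lit 778240) (nat_lit 0) (.e (nat_lit 974) (nat_lit 81) .nil))))))))) (.g (nat_lit 5) .nil .nil)))) (.nd (nat_lit 5) 
(.lf (nat_lit 85149) (.g (nat_lit 2110) (.e (nat_lit 1860) (nat_lit 124) (.e (nat_lit 557100) (nat_lit 13) (.e (nat_lit 172106) (nat_lit 10) (.e (nat_lit 434231) (nat_lit 23) (.e (nat_lit 532529) (nat_lit 9) (.e (nat_lit 336257) (nat_lit 15) (.e (nat_lit 3741) (nat_lit 228) (.e (nat_lit 786445) (nat_lit 15) .nil)))))))) (.g (nat_lit 4) .nil .nil))) 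
(.lf (nat_lit 85181) (.g (nat_lit 3324) (.e (nat_lit 1860) (nat_lit 124) (.e (nat_lit 557100) (nat_lit 13) (.e (nat_lit 172106) (nat_lit 10) (.e (nat_lit 434231) (nat_lit 23) (.e (nat_lit 532563) (nat_lit 15) (.e (nat_lit 385106) (nat_lit 50) (.e (nat_lit 786445) (nat_lit 15) .nil))))))) (.g (nat_lit 5) .nil .nil))))))) (.nd (nat_lit 2) (.nd (nat_lit 3) (.nd (nat_lit 4) (.nd (nat_lit 5) 
(.lf (nat_lit 85123) (.g (nat_lit 2423) (.e (nat_lit 1860) (nat_lit 124) (.e (nat_lit 557100) (nat_lit 13) (.e (nat_lit 172106) (nat_lit 10) (.e (nat_lit 434227) (nat_lit 20) (.e (nat_lit 507930) (nat_lit 10) (.e (nat_lit 5768) (nat_lit 316) (.e (nat_lit 179968) (nat_lit 15) .nil))))))) (.g (nat_lit 4) .nil .nil))) 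
(.lf (nat_lit 85155) (.g (nat_lit 2526) (.e (nat_lit 1860) (nat_lit 124) (.e (nat_lit 557100) (nat_lit 13) (.e (nat_lit 172106) (nat_lit 10) (.e (nat_lit 434231) (nat_lit 23) (.e (nat_lit 532529) (nat_lit 9) (.e (nat_lit 336306) (nat_lit 15) (.e (nat_lit 3735) (nat_lit 228) (.e (nat_lit 786444) (nat_lit 15) .nil)))))))) (.g (nat_lit 5) .nil .nil)))) (.nd (nat_lit 5) 
(.lf (nat_lit 85139) (.g (nat_lit 3776) (.e (nat_lit 1860) (nat_lit 124) (.e (nat_lit 557100) (nat_lit 13) (.e (nat_lit 172106) (nat_lit 10) (.e (nat_lit 434231) (nat_lit 23) (.e (nat_lit 532490) (nat_lit 0) (.e (nat_lit 6674) (nat_lit 357) (.e (nat_lit 2939) (nat_lit 184) (.e (nat_lit 426353) (nat_lit 15) .nil)))))))) (.g (nat_lit 5) .nil .nil))) 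
(.lf (nat_lit 85171) (.g (nat_lit 3346) (.e (nat_lit 1860) (nat_lit 124) (.e (nat_lit 557100) (nat_lit 13) (.e (nat_lit 172106) (nat_lit 10) (.e (nat_lit 434231) (nat_lit 23) (.e (nat_lit 532535) (nat_lit 9) (.e (nat_lit 336295) (nat_lit 15) (.e (nat_lit 3747) (nat_lit 228) (.e (nat_lit 786445) (nat_lit 15) .nil)))))))) (.g (nat_lit 6) .nil .nil))))) (.nd (nat_lit 4) (.nd (nat_lit 5) 
(.lf (nat_lit 85131) (.g (nat_lit 2456) (.e (nat_lit 1860) (nat_lit 124) (.e (nat_lit 557100) (nat_lit 13) (.e (nat_lit 172106) (nat_lit 10) (.e (nat_lit 434231) (nat_lit 23) (.e (nat_lit 532483) (nat_lit 0) (.e (nat_lit 7936) (nat_lit 361) (.e (nat_lit 179968) (nat_lit 15) .nil))))))) (.g (nat_lit 4) .nil .nil))) 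
(.lf (nat_lit 85163) (.g (nat_lit 2280) (.e (nat_lit 1860) (nat_lit 124) (.e (nat_lit 557100) (nat_lit 13) (.e (nat_lit 172106) (nat_lit 10) (.e (nat_lit 434231) (nat_lit 23) (.e (nat_lit 532535) (nat_lit 9) (.e (nat_lit 336030) (nat_lit 4) (.e (nat_lit 123198) (nat_lit 266) (.e (nat_lit 57345) (nat_lit 0) .nil)))))))) (.g (nat_lit 5) .nil .nil)))) (.nd (nat_lit 5) 
(.lf (nat_lit 85147) (.g (nat_lit 1631) (.e (nat_lit 1860) (nat_lit 124) (.e (nat_lit 557100) (nat_lit 13) (.e (nat_lit 172106) (nat_lit 10) (.e (nat_lit 434231) (nat_lit 23) (.e (nat_lit 532528) (nat_lit 9) (.e (nat_lit 336306) (nat_lit 15) (.e (nat_lit 3736) (nat_lit 228) (.e (nat_lit 786445) (nat_lit 15) .nil)))))))) (.g (nat_lit 4) .nil .nil))) 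
(.lf (nat_lit 85179) (.g (nat_lit 4177) (.e (nat_lit 1860) (nat_lit 124) (.e (nat_lit 557100) (nat_lit 13) (.e (nat_lit 172106) (nat_lit 10) (.e (nat_lit 434231) (nat_lit 23) (.e (nat_lit 532563) (nat_lit 15) (.e (nat_lit 385105) (nat_lit 50) (.e (nat_lit 786444) (nat_lit 15) .nil))))))) (.g (nat_lit 7) .nil .nil)))))) (.nd (nat_lit 3) (.nd (nat_lit 4) (.nd (nat_lit 5) 
(.lf (nat_lit 85127) (.g (nat_lit 2120) (.e (nat_lit 1860) (nat_lit 124) (.e (nat_lit 557100) (nat_lit 13) (.e (nat_lit 172106) (nat_lit 10) (.e (nat_lit 434231) (nat_lit 23) (.e (nat_lit 532482) (nat_lit 0) .nil))))) .nil)) 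
(.lf (nat_lit 85159) (.g (nat_lit 2856) (.e (nat_lit 1860) (nat_lit 124) (.e (nat_lit 557100) (nat_lit 13) (.e (nat_lit 172106) (nat_lit 10) (.e (nat_lit 434231) (nat_lit 23) (.e (nat_lit 532535) (nat_lit 9) (.e (nat_lit 335905) (nat_lit 0) (.e (nat_lit 970) (nat_lit 81) (.e (nat_lit 5954) (nat_lit 322) (.e (nat_lit 57349) (nat_lit 0) .nil))))))))) (.g (nat_lit 6) .nil .nil)))) (.nd (nat_lit 5) 
(.lf (nat_lit 85143) (.g (nat_lit 3310) (.e (nat_lit 1860) (nat_lit 124) (.e (nat_lit 557100) (nat_lit 13) (.e (nat_lit 172106) (nat_lit 10) (.e (nat_lit 434231) (nat_lit 23) (.e (nat_lit 532528) (nat_lit 9) (.e (nat_lit 336260) (nat_lit 15) (.e (nat_lit 3733) (nat_lit 228) (.e (nat_lit 786444) (nat_lit 15) .nil)))))))) (.g (nat_lit 8) .nil .nil))) 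
(.lf (nat_lit 85175) (.g (nat_lit 1742) (.e (nat_lit 1860) (nat_lit 124) (.e (nat_lit 557100) (nat_lit 13) (.e (nat_lit 172106) (nat_lit 10) (.e (nat_lit 434231) (nat_lit 23) (.e (nat_lit 532562) (nat_lit 15) (.e (nat_lit 385104) (nat_lit 50) (.e (nat_lit 786444) (nat_lit 15) .nil))))))) (.g (nat_lit 4) .nil .nil))))) (.nd (nat_lit 4) (.nd (nat_lit 5) 
(.lf (nat_lit 85135) (.g (nat_lit 2719) (.e (nat_lit 1860) (nat_lit 124) (.e (nat_lit 557100) (nat_lit 13) (.e (nat_lit 172106) (nat_lit 10) (.e (nat_lit 434231) (nat_lit 23) (.e (nat_lit 532490) (nat_lit 0) (.e (nat_lit 6114) (nat_lit 332) (.e (nat_lit 1376) (nat_lit 104) (.e (nat_lit 311040) (nat_lit 15) .nil)))))))) (.g (nat_lit 5) .nil .nil))) 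
(.lf (nat_lit 85167) (.g (nat_lit 2494) (.e (nat_lit 1860) (nat_lit 124) (.e (nat_lit 557100) (nat_lit 13) (.e (nat_lit 172106) (nat_lit 10) (.e (nat_lit 434231) (nat_lit 23) (.e (nat_lit 532535) (nat_lit 9) (.e (nat_lit 336295) (nat_lit 15) (.e (nat_lit 3733) (nat_lit 228) (.e (nat_lit 786444) (nat_lit 15) .nil)))))))) (.g (nat_lit 5) .nil .nil)))) (.nd (nat_lit 5) 
(.lf (nat_lit 85151) (.g (nat_lit 4431) (.e (nat_lit 1860) (nat_lit 124) (.e (nat_lit 557100) (nat_lit 13) (.e (nat_lit 172106) (nat_lit 10) (.e (nat_lit 434231) (nat_lit 23) (.e (nat_lit 532529) (nat_lit 9) (.e (nat_lit 336260) (nat_lit 15) (.e (nat_lit 3733) (nat_lit 228) (.e (nat_lit 786444) (nat_lit 15) .nil)))))))) (.g (nat_lit 8) .nil .nil))) 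
(.lf (nat_lit 85183) (.g (nat_lit 2103) (.e (nat_lit 1860) (nat_lit 124) (.e (nat_lit 557100) (nat_lit 13) (.e (nat_lit 172106) (nat_lit 10) (.e (nat_lit 434231) (nat_lit 23) (.e (nat_lit 532564) (nat_lit 15) (.e (nat_lit 385103) (nat_lit 50) (.e (nat_lit 786444) (nat_lit 15) .nil))))))) (.g (nat_lit 4) .nil .nil)))))))))

noncomputable def tv1155 : DT := (.nd (nat_lit 0) (.nd (nat_lit 1) (.nd (nat_lit 2) (.nd (nat_lit 3) (.nd (nat_lit 4) (.nd (nat_lit 5) 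
(.lf (nat_lit 85184) (.g (nat_lit 3708) (.e (nat_lit 1860) (nat_lit 124) (.e (nat_lit 557100) (nat_lit 13) (.e (nat_lit 172106) (nat_lit 10) (.e (nat_lit 434231) (nat_lit 23) (.e (nat_lit 532564) (nat_lit 15) (.e (nat_lit 385104) (nat_lit 50) (.e (nat_lit 786444) (nat_lit 15) .nil))))))) (.g (nat_lit 7) .nil .nil))) 
(.lf (nat_lit 85216) (.g (nat_lit 2473) (.e (nat_lit 1860) (nat_lit 124) (.e (nat_lit 557100) (nat_lit 13) (.e (nat_lit 172106) (nat_lit 10) (.e (nat_lit 434238) (nat_lit 25) (.e (nat_lit 548915) (nat_lit 20) (.e (nat_lit 196352) (nat_lit 0) .nil)))))) (.g (nat_lit 4) .nil .nil)))) (.nd (nat_lit 5) 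
(.lf (nat_lit 85200) (.g (nat_lit 2455) (.e (nat_lit 1860) (nat_lit 124) (.e (nat_lit 557100) (nat_lit 13) (.e (nat_lit 172106) (nat_lit 10) (.e (nat_lit 434238) (nat_lit 25) (.e (nat_lit 548896) (nat_lit 14) (.e (nat_lit 2982) (nat_lit 186) (.e (nat_lit 450304) (nat_lit 0) .nil))))))) (.g (nat_lit 4) .nil .nil))) 
(.lf (nat_lit 85232) (.g (nat_lit 2150) (.e (nat_lit 1860) (nat_lit 124) (.e (nat_lit 557100) (nat_lit 13) (.e (nat_lit 172106) (nat_lit 10) (.e (nat_lit 434244) (nat_lit 28) (.e (nat_lit 573451) (nat_lit 9) .nil))))) .nil)))) (.nd (nat_lit 4) (.nd (nat_lit 5) 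
(.lf (nat_lit 85192) (.g (nat_lit 2146) (.e (nat_lit 1860) (nat_lit 124) (.e (nat_lit 557100) (nat_lit 13) (.e (nat_lit 172106) (nat_lit 10) (.e (nat_lit 434231) (nat_lit 23) (.e (nat_lit 532569) (nat_lit 16) (.e (nat_lit 401434) (nat_lit 9) (.e (nat_lit 426361) (nat_lit 15) .nil))))))) (.g (nat_lit 4) .nil .nil))) 
(.lf (nat_lit 85224) (.g (nat_lit 2600) (.e (nat_lit 1860) (nat_lit 124) (.e (nat_lit 557100) (nat_lit 13) (.e (nat_lit 172106) (nat_lit 10) (.e (nat_lit 434244) (nat_lit 28) (.e (nat_lit 573449) (nat_lit 9) (.e (nat_lit 481) (nat_lit 37) (.e (nat_lit 474880) (nat_lit 0) .nil))))))) (.g (nat_lit 4) .nil .nil)))) (.nd (nat_lit 5) 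
(.lf (nat_lit 85208) (.g (nat_lit 3541) (.e (nat_lit 1860) (nat_lit 124) (.e (nat_lit 557100) (nat_lit 13) (.e (nat_lit 172106) (nat_lit 10) (.e (nat_lit 434238) (nat_lit 25) (.e (nat_lit 548898) (nat_lit 14) (.e (nat_lit 2988) (nat_lit 186) (.e (nat_lit 450304) (nat_lit 0) .nil))))))) (.g (nat_lit 6) .nil .nil))) 
(.lf (nat_lit 85240) (.g (nat_lit 1904) (.e (nat_lit 1860) (nat_lit 124) (.e (nat_lit 557100) (nat_lit 13) (.e (nat_lit 172106) (nat_lit 10) (.e (nat_lit 434244) (nat_lit 28) (.e (nat_lit 573458) (nat_lit 9) .nil))))) .nil))))) (.nd (nat_lit 3) (.nd (nat_lit 4) (.nd (nat_lit 5) 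
(.lf (nat_lit 85188) (.g (nat_lit 2270) (.e (nat_lit 1860) (nat_lit 124) (.e (nat_lit 557100) (nat_lit 13) (.e (nat_lit 172106) (nat_lit 10) (.e (nat_lit 434231) (nat_lit 23) (.e (nat_lit 532568) (nat_lit 16) (.e (nat_lit 401435) (nat_lit 9) (.e (nat_lit 426354) (nat_lit 15) .nil))))))) (.g (nat_lit 4) .nil .nil))) 
(.lf (nat_lit 85220) (.g (nat_lit 2356) (.e (nat_lit 1860) (nat_lit 124) (.e (nat_lit 557100) (nat_lit 13) (.e (nat_lit 172106) (nat_lit 10) (.e (nat_lit 434244) (nat_lit 28) (.e (nat_lit 573449) (nat_lit 9) .nil))))) .nil))) (.nd (nat_lit 5) 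
(.lf (nat_lit 85204) (.g (nat_lit 2915) (.e (nat_lit 1860) (nat_lit 124) (.e (nat_lit 557100) (nat_lit 13) (.e (nat_lit 172106) (nat_lit 10) (.e (nat_lit 434238) (nat_lit 25) (.e (nat_lit 548897) (nat_lit 14) (.e (nat_lit 2989) (nat_lit 186) (.e (nat_lit 450304) (nat_lit 0) .nil))))))) (.g (nat_lit 6) .nil .nil))) 
(.lf (nat_lit 85236) (.g (nat_lit 3191) (.e (nat_lit 1860) (nat_lit 124) (.e (nat_lit 557100) (nat_lit 13) (.e (nat_lit 172106) (nat_lit 10) (.e (nat_lit 434244) (nat_lit 28) (.e (nat_lit 573451) (nat_lit 9) (.e (nat_lit 7936) (nat_lit 34) (.e (nat_lit 450304) (nat_lit 0) .nil))))))) (.g (nat_lit 5) .nil .nil))))) (.nd (nat_lit 4) (.nd (nat_lit 5) 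
(.lf (nat_lit 85196) (.g (nat_lit 3601) (.e (nat_lit 1860) (nat_lit 124) (.e (nat_lit 557100) (nat_lit 13) (.e (nat_lit 172106) (nat_lit 10) (.e (nat_lit 434231) (nat_lit 23) (.e (nat_lit 532569) (nat_lit 16) (.e (nat_lit 401444) (nat_lit 9) (.e (nat_lit 433920) (nat_lit 15) .nil))))))) (.g (nat_lit 5) .nil .nil))) 
(.lf (nat_lit 85228) (.g (nat_lit 3646) (.e (nat_lit 1860) (nat_lit 124) (.e (nat_lit 557100) (nat_lit 13) (.e (nat_lit 172106) (nat_lit 10) (.e (nat_lit 434244) (nat_lit 28) (.e (nat_lit 573450) (nat_lit 9) (.e (nat_lit 457) (nat_lit 34) (.e (nat_lit 450304) (nat_lit 0) .nil))))))) (.g (nat_lit 6) .nil .nil)))) (.nd (nat_lit 5) 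
(.lf (nat_lit 85212) (.g (nat_lit 3510) (.e (nat_lit 1860) (nat_lit 124) (.e (nat_lit 557100) (nat_lit 13) (.e (nat_lit 172106) (nat_lit 10) (.e (nat_lit 434238) (nat_lit 25) (.e (nat_lit 548898) (nat_lit 14) (.e (nat_lit 3004) (nat_lit 186) (.e (nat_lit 450304) (nat_lit 0) .nil))))))) (.g (nat_lit 6) .nil .nil))) 
(.lf (nat_lit 85244) (.g (nat_lit 3594) (.e (nat_lit 1860) (nat_lit 124) (.e (nat_lit 557100) (nat_lit 13) (.e (nat_lit 172106) (nat_lit 10) (.e (nat_lit 434244) (nat_lit 28) (.e (nat_lit 573458) (nat_lit 9) (.e (nat_lit 420) (nat_lit 32) (.e (nat_lit 426259) (nat_lit 9) (.e (nat_lit 426353) (nat_lit 15) .nil)))))))) (.g (nat_lit 5) .nil .nil))))))) 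
(.nd (nat_lit 2) (.nd (nat_lit 3) (.nd (nat_lit 4) (.nd (nat_lit 5) 
(.lf (nat_lit 85186) (.g (nat_lit 2316) (.e (nat_lit 1860) (nat_lit 124) (.e (nat_lit 557100) (nat_lit 13) (.e (nat_lit 172106) (nat_lit 10) (.e (nat_lit 434231) (nat_lit 23) (.e (nat_lit 532567) (nat_lit 16) (.e (nat_lit 401435) (nat_lit 9) (.e (nat_lit 426354) (nat_lit 15) .nil))))))) (.g (nat_lit 4) .nil .nil))) 
(.lf (nat_lit 85218) (.g (nat_lit 1169) (.e (nat_lit 1860) (nat_lit 124) (.e (nat_lit 557100) (nat_lit 13) (.e (nat_lit 172106) (nat_lit 10) (.e (nat_lit 434244) (nat_lit 28) .nil)))) .nil))) (.nd (nat_lit 5) 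
(.lf (nat_lit 85202) (.g (nat_lit 2938) (.e (nat_lit 1860) (nat_lit 124) (.e (nat_lit 557100) (nat_lit 13) (.e (nat_lit 172106) (nat_lit 10) (.e (nat_lit 434238) (nat_lit 25) (.e (nat_lit 548896) (nat_lit 14) (.e (nat_lit 3004) (nat_lit 186) (.e (nat_lit 450304) (nat_lit 0) .nil))))))) (.g (nat_lit 6) .nil .nil))) 
(.lf (nat_lit 85234) (.g (nat_lit 2867) (.e (nat_lit 1860) (nat_lit 124) (.e (nat_lit 557100) (nat_lit 13) (.e (nat_lit 172106) (nat_lit 10) (.e (nat_lit 434244) (nat_lit 28) (.e (nat_lit 573451) (nat_lit 9) (.e (nat_lit 430) (nat_lit 32) (.e (nat_lit 426190) (nat_lit 9) (.e (nat_lit 426350) (nat_lit 15) .nil)))))))) (.g (nat_lit 4) .nil .nil))))) (.nd (nat_lit 4) (.nd (nat_lit 5) 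
(.lf (nat_lit 85194) (.g (nat_lit 3105) (.e (nat_lit 1860) (nat_lit 124) (.e (nat_lit 557100) (nat_lit 13) (.e (nat_lit 172106) (nat_lit 10) (.e (nat_lit 434231) (nat_lit 23) (.e (nat_lit 532569) (nat_lit 16) (.e (nat_lit 401440) (nat_lit 9) (.e (nat_lit 433920) (nat_lit 15) .nil))))))) (.g (nat_lit 5) .nil .nil))) 
(.lf (nat_lit 85226) (.g (nat_lit 3515) (.e (nat_lit 1860) (nat_lit 124) (.e (nat_lit 557100) (nat_lit 13) (.e (nat_lit 172106) (nat_lit 10) (.e (nat_lit 434244) (nat_lit 28) (.e (nat_lit 573450) (nat_lit 9) (.e (nat_lit 454) (nat_lit 34) (.e (nat_lit 450304) (nat_lit 0) .nil))))))) (.g (nat_lit 5) .nil .nil)))) (.nd (nat_lit 5) 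
(.lf (nat_lit 85210) (.g (nat_lit 3209) (.e (nat_lit 1860) (nat_lit 124) (.e (nat_lit 557100) (nat_lit 13) (.e (nat_lit 172106) (nat_lit 10) (.e (nat_lit 434238) (nat_lit 25) (.e (nat_lit 548898) (nat_lit 14) (.e (nat_lit 2998) (nat_lit 186) (.e (nat_lit 450304) (nat_lit 0) .nil))))))) (.g (nat_lit 5) .nil .nil))) 
(.lf (nat_lit 85242) (.g (nat_lit 3594) (.e (nat_lit 1860) (nat_lit 124) (.e (nat_lit 557100) (nat_lit 13) (.e (nat_lit 172106) (nat_lit 10) (.e (nat_lit 434244) (nat_lit 28) (.e (nat_lit 573458) (nat_lit 9) (.e (nat_lit 420) (nat_lit 32) (.e (nat_lit 426228) (nat_lit 9) (.e (nat_lit 426353) (nat_lit 15) .nil)))))))) (.g (nat_lit 5) .nil .nil)))))) 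
(.nd (nat_lit 3) (.nd (nat_lit 4) (.nd (nat_lit 5) 
(.lf (nat_lit 85190) (.g (nat_lit 4226) (.e (nat_lit 1860) (nat_lit 124) (.e (nat_lit 557100) (nat_lit 13) (.e (nat_lit 172106) (nat_lit 10) (.e (nat_lit 434231) (nat_lit 23) (.e (nat_lit 532568) (nat_lit 16) (.e (nat_lit 401437) (nat_lit 9) (.e (nat_lit 426354) (nat_lit 15) .nil))))))) (.g (nat_lit 7) .nil .nil))) 
(.lf (nat_lit 85222) (.g (nat_lit 2380) (.e (nat_lit 1860) (nat_lit 124) (.e (nat_lit 557100) (nat_lit 13) (.e (nat_lit 172106) (nat_lit 10) (.e (nat_lit 434244) (nat_lit 28) (.e (nat_lit 573449) (nat_lit 9) (.e (nat_lit 460) (nat_lit 34) (.e (nat_lit 450304) (nat_lit 0) .nil))))))) (.g (nat_lit 4) .nil .nil)))) (.nd (nat_lit 5) 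
(.lf (nat_lit 85206) (.g (nat_lit 2183) (.e (nat_lit 1860) (nat_lit 124) (.e (nat_lit 557100) (nat_lit 13) (.e (nat_lit 172106) (nat_lit 10) (.e (nat_lit 434238) (nat_lit 25) (.e (nat_lit 548897) (nat_lit 14) (.e (nat_lit 2999) (nat_lit 186) (.e (nat_lit 450304) (nat_lit 0) .nil))))))) (.g (nat_lit 4) .nil .nil))) 
(.lf (nat_lit 85238) (.g (nat_lit 3217) (.e (nat_lit 1860) (nat_lit 124) (.e (nat_lit 557100) (nat_lit 13) (.e (nat_lit 172106) (nat_lit 10) (.e (nat_lit 434244) (nat_lit 28) (.e (nat_lit 573454) (nat_lit 9) (.e (nat_lit 458) (nat_lit 34) (.e (nat_lit 450304) (nat_lit 0) .nil))))))) (.g (nat_lit 5) .nil .nil))))) (.nd (nat_lit 4) (.nd (nat_lit 5) 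
(.lf (nat_lit 85198) (.g (nat_lit 2006) (.e (nat_lit 1860) (nat_lit 124) (.e (nat_lit 557100) (nat_lit 13) (.e (nat_lit 172106) (nat_lit 10) (.e (nat_lit 434238) (nat_lit 25) (.e (nat_lit 548894) (nat_lit 14) .nil))))) .nil)) 
(.lf (nat_lit 85230) (.g (nat_lit 3613) (.e (nat_lit 1860) (nat_lit 124) (.e (nat_lit 557100) (nat_lit 13) (.e (nat_lit 172106) (nat_lit 10) (.e (nat_lit 434244) (nat_lit 28) (.e (nat_lit 573450) (nat_lit 9) (.e (nat_lit 479) (nat_lit 37) (.e (nat_lit 474880) (nat_lit 0) .nil))))))) (.g (nat_lit 5) .nil .nil)))) (.nd (nat_lit 5) 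
(.lf (nat_lit 85214) (.g (nat_lit 2456) (.e (nat_lit 1860) (nat_lit 124) (.e (nat_lit 557100) (nat_lit 13) (.e (nat_lit 172106) (nat_lit 10) (.e (nat_lit 434238) (nat_lit 25) (.e (nat_lit 548902) (nat_lit 14) (.e (nat_lit 2946) (nat_lit 184) (.e (nat_lit 426188) (nat_lit 9) (.e (nat_lit 426354) (nat_lit 15) .nil)))))))) (.g (nat_lit 4) .nil .nil))) 
(.lf (nat_lit 85246) (.g (nat_lit 2544) (.e (nat_lit 1860) (nat_lit 124) (.e (nat_lit 557100) (nat_lit 13) (.e (nat_lit 172106) (nat_lit 10) (.e (nat_lit 434244) (nat_lit 28) (.e (nat_lit 573458) (nat_lit 9) (.e (nat_lit 420) (nat_lit 32) (.e (nat_lit 426260) (nat_lit 9) (.e (nat_lit 433920) (nat_lit 15) .nil)))))))) (.g (nat_lit 4) .nil .nil)))))))) 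
(.nd (nat_lit 1) (.nd (nat_lit 2) (.nd (nat_lit 3) (.nd (nat_lit 4) (.nd (nat_lit 5) 
(.lf (nat_lit 85185) (.g (nat_lit 3326) (.e (nat_lit 1860) (nat_lit 124) (.e (nat_lit 557100) (nat_lit 13) (.e (nat_lit 172106) (nat_lit 10) (.e (nat_lit 434231) (nat_lit 23) (.e (nat_lit 532565) (nat_lit 15) (.e (nat_lit 385104) (nat_lit 50) (.e (nat_lit 786444) (nat_lit 15) .nil))))))) (.g (nat_lit 6) .nil .nil))) 
(.lf (nat_lit 85217) (.g (nat_lit 2149) (.e (nat_lit 1860) (nat_lit 124) (.e (nat_lit 557100) (nat_lit 13) (.e (nat_lit 172106) (nat_lit 10) (.e (nat_lit 434238) (nat_lit 25) (.e (nat_lit 556800) (nat_lit 20) .nil))))) .nil))) (.nd (nat_lit 5) 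
(.lf (nat_lit 85201) (.g (nat_lit 2572) (.e (nat_lit 1860) (nat_lit 124) (.e (nat_lit 557100) (nat_lit 13) (.e (nat_lit 172106) (nat_lit 10) (.e (nat_lit 434238) (nat_lit 25) (.e (nat_lit 548896) (nat_lit 14) (.e (nat_lit 2998) (nat_lit 186) (.e (nat_lit 450304) (nat_lit 0) .nil))))))) (.g (nat_lit 5) .nil .nil))) 
(.lf (nat_lit 85233) (.g (nat_lit 3840) (.e (nat_lit 1860) (nat_lit 124) (.e (nat_lit 557100) (nat_lit 13) (.e (nat_lit 172106) (nat_lit 10) (.e (nat_lit 434244) (nat_lit 28) (.e (nat_lit 573451) (nat_lit 9) (.e (nat_lit 430) (nat_lit 32) (.e (nat_lit 426189) (nat_lit 9) (.e (nat_lit 426354) (nat_lit 15) .nil)))))))) (.g (nat_lit 5) .nil .nil))))) (.nd (nat_lit 4) (.nd (nat_lit 5) 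
(.lf (nat_lit 85193) (.g (nat_lit 2327) (.e (nat_lit 1860) (nat_lit 124) (.e (nat_lit 557100) (nat_lit 13) (.e (nat_lit 172106) (nat_lit 10) (.e (nat_lit 434231) (nat_lit 23) (.e (nat_lit 532569) (nat_lit 16) (.e (nat_lit 401436) (nat_lit 9) (.e (nat_lit 426354) (nat_lit 15) .nil))))))) (.g (nat_lit 4) .nil .nil))) 
(.lf (nat_lit 85225) (.g (nat_lit 1974) (.e (nat_lit 1860) (nat_lit 124) (.e (nat_lit 557100) (nat_lit 13) (.e (nat_lit 172106) (nat_lit 10) (.e (nat_lit 434244) (nat_lit 28) (.e (nat_lit 573450) (nat_lit 9) .nil))))) .nil))) (.nd (nat_lit 5) 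
(.lf (nat_lit 85209) (.g (nat_lit 3455) (.e (nat_lit 1860) (nat_lit 124) (.e (nat_lit 557100) (nat_lit 13) (.e (nat_lit 172106) (nat_lit 10) (.e (nat_lit 434238) (nat_lit 25) (.e (nat_lit 548898) (nat_lit 14) (.e (nat_lit 2989) (nat_lit 186) (.e (nat_lit 450304) (nat_lit 0) .nil))))))) (.g (nat_lit 6) .nil .nil))) 
(.lf (nat_lit 85241) (.g (nat_lit 2746) (.e (nat_lit 1860) (nat_lit 124) (.e (nat_lit 557100) (nat_lit 13) (.e (nat_lit 172106) (nat_lit 10) (.e (nat_lit 434244) (nat_lit 28) (.e (nat_lit 573458) (nat_lit 9) (.e (nat_lit 420) (nat_lit 32) (.e (nat_lit 426225) (nat_lit 9) (.e (nat_lit 426353) (nat_lit 15) .nil)))))))) (.g (nat_lit 4) .nil .nil)))))) 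
(.nd (nat_lit 3) (.nd (nat_lit 4) (.nd (nat_lit 5) 
(.lf (nat_lit 85189) (.g (nat_lit 2328) (.e (nat_lit 1860) (nat_lit 124) (.e (nat_lit 557100) (nat_lit 13) (.e (nat_lit 172106) (nat_lit 10) (.e (nat_lit 434231) (nat_lit 23) (.e (nat_lit 532568) (nat_lit 16) (.e (nat_lit 401436) (nat_lit 9) (.e (nat_lit 426354) (nat_lit 15) .nil))))))) (.g (nat_lit 4) .nil .nil))) 
(.lf (nat_lit 85221) (.g (nat_lit 2515) (.e (nat_lit 1860) (nat_lit 124) (.e (nat_lit 557100) (nat_lit 13) (.e (nat_lit 172106) (nat_lit 10) (.e (nat_lit 434244) (nat_lit 28) (.e (nat_lit 573449) (nat_lit 9) (.e (nat_lit 454) (nat_lit 34) (.e (nat_lit 450304) (nat_lit 0) .nil))))))) (.g (nat_lit 4) .nil .nil)))) (.nd (nat_lit 5) 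
(.lf (nat_lit 85205) (.g (nat_lit 2626) (.e (nat_lit 1860) (nat_lit 124) (.e (nat_lit 557100) (nat_lit 13) (.e (nat_lit 172106) (nat_lit 10) (.e (nat_lit 434238) (nat_lit 25) (.e (nat_lit 548897) (nat_lit 14) (.e (nat_lit 2998) (nat_lit 186) (.e (nat_lit 450304) (nat_lit 0) .nil))))))) (.g (nat_lit 5) .nil .nil))) 
(.lf (nat_lit 85237) (.g (nat_lit 3170) (.e (nat_lit 1860) (nat_lit 124) (.e (nat_lit 557100) (nat_lit 13) (.e (nat_lit 172106) (nat_lit 10) (.e (nat_lit 434244) (nat_lit 28) (.e (nat_lit 573451) (nat_lit 9) (.e (nat_lit 7936) (nat_lit 37) (.e (nat_lit 474880) (nat_lit 0) .nil))))))) (.g (nat_lit 5) .nil .nil))))) (.nd (nat_lit 4) (.nd (nat_lit 5) 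
(.lf (nat_lit 85197) (.g (nat_lit 1231) (.e (nat_lit 1860) (nat_lit 124) (.e (nat_lit 557100) (nat_lit 13) (.e (nat_lit 172106) (nat_lit 10) (.e (nat_lit 434238) (nat_lit 25) .nil)))) .nil)) 
(.lf (nat_lit 85229) (.g (nat_lit 3075) (.e (nat_lit 1860) (nat_lit 124) (.e (nat_lit 557100) (nat_lit 13) (.e (nat_lit 172106) (nat_lit 10) (.e (nat_lit 434244) (nat_lit 28) (.e (nat_lit 573450) (nat_lit 9) (.e (nat_lit 459) (nat_lit 34) (.e (nat_lit 450304) (nat_lit 0) .nil))))))) (.g (nat_lit 5) .nil .nil)))) (.nd (nat_lit 5) 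
(.lf (nat_lit 85213) (.g (nat_lit 3379) (.e (nat_lit 1860) (nat_lit 124) (.e (nat_lit 557100) (nat_lit 13) (.e (nat_lit 172106) (nat_lit 10) (.e (nat_lit 434238) (nat_lit 25) (.e (nat_lit 548898) (nat_lit 14) (.e (nat_lit 3045) (nat_lit 189) (.e (nat_lit 474880) (nat_lit 0) .nil))))))) (.g (nat_lit 5) .nil .nil))) 
(.lf (nat_lit 85245) (.g (nat_lit 4378) (.e (nat_lit 1860) (nat_lit 124) (.e (nat_lit 557100) (nat_lit 13) (.e (nat_lit 172106) (nat_lit 10) (.e (nat_lit 434244) (nat_lit 28) (.e (nat_lit 573458) (nat_lit 9) (.e (nat_lit 420) (nat_lit 32) (.e (nat_lit 426260) (nat_lit 9) (.e (nat_lit 426353) (nat_lit 15) .nil)))))))) (.g (nat_lit 7) .nil .nil))))))) 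
(.nd (nat_lit 2) (.nd (nat_lit 3) (.nd (nat_lit 4) (.nd (nat_lit 5) 
(.lf (nat_lit 85187) (.g (nat_lit 2160) (.e (nat_lit 1860) (nat_lit 124) (.e (nat_lit 557100) (nat_lit 13) (.e (nat_lit 172106) (nat_lit 10) (.e (nat_lit 434231) (nat_lit 23) (.e (nat_lit 532567) (nat_lit 16) (.e (nat_lit 401436) (nat_lit 9) (.e (nat_lit 426354) (nat_lit 15) .nil))))))) (.g (nat_lit 4) .nil .nil))) 
(.lf (nat_lit 85219) (.g (nat_lit 3024) (.e (nat_lit 1860) (nat_lit 124) (.e (nat_lit 557100) (nat_lit 13) (.e (nat_lit 172106) (nat_lit 10) (.e (nat_lit 434244) (nat_lit 28) (.e (nat_lit 573448) (nat_lit 9) .nil))))) .nil))) (.nd (nat_lit 5) 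
(.lf (nat_lit 85203) (.g (nat_lit 2785) (.e (nat_lit 1860) (nat_lit 124) (.e (nat_lit 557100) (nat_lit 13) (.e (nat_lit 172106) (nat_lit 10) (.e (nat_lit 434238) (nat_lit 25) (.e (nat_lit 548897) (nat_lit 14) (.e (nat_lit 2988) (nat_lit 186) (.e (nat_lit 450304) (nat_lit 0) .nil))))))) (.g (nat_lit 6) .nil .nil))) 
(.lf (nat_lit 85235) (.g (nat_lit 4145) (.e (nat_lit 1860) (nat_lit 124) (.e (nat_lit 557100) (nat_lit 13) (.e (nat_lit 172106) (nat_lit 10) (.e (nat_lit 434244) (nat_lit 28) (.e (nat_lit 573451) (nat_lit 9) (.e (nat_lit 430) (nat_lit 32) (.e (nat_lit 426190) (nat_lit 9) (.e (nat_lit 426354) (nat_lit 15) .nil)))))))) (.g (nat_lit 5) .nil .nil))))) (.nd (nat_lit 4) (.nd (nat_lit 5) 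
(.lf (nat_lit 85195) (.g (nat_lit 5013) (.e (nat_lit 1860) (nat_lit 124) (.e (nat_lit 557100) (nat_lit 13) (.e (nat_lit 172106) (nat_lit 10) (.e (nat_lit 434231) (nat_lit 23) (.e (nat_lit 532569) (nat_lit 16) (.e (nat_lit 401444) (nat_lit 9) (.e (nat_lit 426353) (nat_lit 15) .nil))))))) (.g (nat_lit 6) .nil .nil))) 
(.lf (nat_lit 85227) (.g (nat_lit 3746) (.e (nat_lit 1860) (nat_lit 124) (.e (nat_lit 557100) (nat_lit 13) (.e (nat_lit 172106) (nat_lit 10) (.e (nat_lit 434244) (nat_lit 28) (.e (nat_lit 573450) (nat_lit 9) (.e (nat_lit 455) (nat_lit 34) (.e (nat_lit 450304) (nat_lit 0) .nil))))))) (.g (nat_lit 6) .nil .nil)))) (.nd (nat_lit 5) 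
(.lf (nat_lit 85211) (.g (nat_lit 3254) (.e (nat_lit 1860) (nat_lit 124) (.e (nat_lit 557100) (nat_lit 13) (.e (nat_lit 172106) (nat_lit 10) (.e (nat_lit 434238) (nat_lit 25) (.e (nat_lit 548898) (nat_lit 14) (.e (nat_lit 2999) (nat_lit 186) (.e (nat_lit 450304) (nat_lit 0) .nil))))))) (.g (nat_lit 5) .nil .nil))) 
(.lf (nat_lit 85243) (.g (nat_lit 2746) (.e (nat_lit 1860) (nat_lit 124) (.e (nat_lit 557100) (nat_lit 13) (.e (nat_lit 172106) (nat_lit 10) (.e (nat_lit 434244) (nat_lit 28) (.e (nat_lit 573458) (nat_lit 9) (.e (nat_lit 420) (nat_lit 32) (.e (nat_lit 426258) (nat_lit 9) (.e (nat_lit 426353) (nat_lit 15) .nil)))))))) (.g (nat_lit 4) .nil .nil)))))) 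
(.nd (nat_lit 3) (.nd (nat_lit 4) (.nd (nat_lit 5) 
(.lf (nat_lit 85191) (.g (nat_lit 3732) (.e (nat_lit 1860) (nat_lit 124) (.e (nat_lit 557100) (nat_lit 13) (.e (nat_lit 172106) (nat_lit 10) (.e (nat_lit 434231) (nat_lit 23) (.e (nat_lit 532569) (nat_lit 16) (.e (nat_lit 401434) (nat_lit 9) (.e (nat_lit 426354) (nat_lit 15) .nil))))))) (.g (nat_lit 6) .nil .nil))) 
(.lf (nat_lit 85223) (.g (nat_lit 2833) (.e (nat_lit 1860) (nat_lit 124) (.e (nat_lit 557100) (nat_lit 13) (.e (nat_lit 172106) (nat_lit 10) (.e (nat_lit 434244) (nat_lit 28) (.e (nat_lit 573449) (nat_lit 9) (.e (nat_lit 479) (nat_lit 37) (.e (nat_lit 474880) (nat_lit 0) .nil))))))) (.g (nat_lit 4) .nil .nil)))) (.nd (nat_lit 5) 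
(.lf (nat_lit 85207) (.g (nat_lit 2913) (.e (nat_lit 1860) (nat_lit 124) (.e (nat_lit 557100) (nat_lit 13) (.e (nat_lit 172106) (nat_lit 10) (.e (nat_lit 434238) (nat_lit 25) (.e (nat_lit 548897) (nat_lit 14) (.e (nat_lit 3004) (nat_lit 186) (.e (nat_lit 450304) (nat_lit 0) .nil))))))) (.g (nat_lit 6) .nil .nil))) 
(.lf (nat_lit 85239) (.g (nat_lit 3729) (.e (nat_lit 1860) (nat_lit 124) (.e (nat_lit 557100) (nat_lit 13) (.e (nat_lit 172106) (nat_lit 10) (.e (nat_lit 434244) (nat_lit 28) (.e (nat_lit 573454) (nat_lit 9) (.e (nat_lit 478) (nat_lit 37) (.e (nat_lit 474880) (nat_lit 0) .nil))))))) (.g (nat_lit 5) .nil .nil))))) (.nd (nat_lit 4) (.nd (nat_lit 5) 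
(.lf (nat_lit 85199) (.g (nat_lit 2874) (.e (nat_lit 1860) (nat_lit 124) (.e (nat_lit 557100) (nat_lit 13) (.e (nat_lit 172106) (nat_lit 10) (.e (nat_lit 434238) (nat_lit 25) (.e (nat_lit 548894) (nat_lit 14) (.e (nat_lit 3048) (nat_lit 189) (.e (nat_lit 474880) (nat_lit 0) .nil))))))) (.g (nat_lit 5) .nil .nil))) 
(.lf (nat_lit 85231) (.g (nat_lit 2547) (.e (nat_lit 1860) (nat_lit 124) (.e (nat_lit 557100) (nat_lit 13) (.e (nat_lit 172106) (nat_lit 10) (.e (nat_lit 434244) (nat_lit 28) (.e (nat_lit 573450) (nat_lit 9) (.e (nat_lit 481) (nat_lit 37) (.e (nat_lit 474880) (nat_lit 0) .nil))))))) (.g (nat_lit 4) .nil .nil)))) (.nd (nat_lit 5) 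
(.lf (nat_lit 85215) (.g (nat_lit 3905) (.e (nat_lit 1860) (nat_lit 124) (.e (nat_lit 557100) (nat_lit 13) (.e (nat_lit 172106) (nat_lit 10) (.e (nat_lit 434238) (nat_lit 25) (.e (nat_lit 548913) (nat_lit 18) (.e (nat_lit 172087) (nat_lit 9) (.e (nat_lit 426354) (nat_lit 15) .nil))))))) (.g (nat_lit 5) .nil .nil))) 
(.lf (nat_lit 85247) (.g (nat_lit 2126) (.e (nat_lit 1860) (nat_lit 124) (.e (nat_lit 557100) (nat_lit 13) (.e (nat_lit 172106) (nat_lit 10) (.e (nat_lit 434244) (nat_lit 28) (.e (nat_lit 573458) (nat_lit 9) (.e (nat_lit 426) (nat_lit 32) (.e (nat_lit 426186) (nat_lit 9) (.e (nat_lit 426361) (nat_lit 15) .nil)))))))) (.g (nat_lit 4) .nil .nil)))))))))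

noncomputable def tv1156 : DT := (.nd (nat_lit 0) (.nd (nat_lit 1) (.nd (nat_lit 2) (.nd (nat_lit 3) (.nd (nat_lit 4) (.nd (nat_lit 5) 
(.lf (nat_lit 85248) (.g (nat_lit 3029) (.e (nat_lit 1860) (nat_lit 124) (.e (nat_lit 557100) (nat_lit 13) (.e (nat_lit 172106) (nat_lit 10) (.e (nat_lit 434244) (nat_lit 28) (.e (nat_lit 573458) (nat_lit 9) (.e (nat_lit 426) (nat_lit 32) (.e (nat_lit 426188) (nat_lit 9) (.e (nat_lit 426350) (nat_lit 15) .nil)))))))) (.g (nat_lit 5) .nil .nil))) 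
(.lf (nat_lit 85280) (.g (nat_lit 1976) (.e (nat_lit 1860) (nat_lit 124) (.e (nat_lit 557100) (nat_lit 13) (.e (nat_lit 172113) (nat_lit 10) (.e (nat_lit 434203) (nat_lit 18) (.e (nat_lit 4278) (nat_lit 253) .nil))))) .nil))) (.nd (nat_lit 5) 
(.lf (nat_lit 85264) (.g (nat_lit 2318) (.e (nat_lit 1860) (nat_lit 124) (.e (nat_lit 557100) (nat_lit 13) (.e (nat_lit 172106) (nat_lit 10) (.e (nat_lit 434244) (nat_lit 28) (.e (nat_lit 573471) (nat_lit 11) (.e (nat_lit 16433) (nat_lit 9) (.e (nat_lit 426360) (nat_lit 15) .nil))))))) (.g (nat_lit 4) .nil .nil))) 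
(.lf (nat_lit 85296) (.g (nat_lit 1993) (.e (nat_lit 1860) (nat_lit 124) (.e (nat_lit 557100) (nat_lit 13) (.e (nat_lit 172113) (nat_lit 10) (.e (nat_lit 434238) (nat_lit 25) (.e (nat_lit 548913) (nat_lit 18) .nil))))) .nil)))) (.nd (nat_lit 4) (.nd (nat_lit 5) 
(.lf (nat_lit 85256) (.g (nat_lit 4369) (.e (nat_lit 1860) (nat_lit 124) (.e (nat_lit 557100) (nat_lit 13) (.e (nat_lit 172106) (nat_lit 10) (.e (nat_lit 434244) (nat_lit 28) (.e (nat_lit 573469) (nat_lit 11) (.e (nat_lit 16433) (nat_lit 9) (.e (nat_lit 426354) (nat_lit 15) .nil))))))) (.g (nat_lit 7) .nil .nil))) 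
(.lf (nat_lit 85288) (.g (nat_lit 2605) (.e (nat_lit 1860) (nat_lit 124) (.e (nat_lit 557100) (nat_lit 13) (.e (nat_lit 172113) (nat_lit 10) (.e (nat_lit 434238) (nat_lit 25) (.e (nat_lit 548897) (nat_lit 14) (.e (nat_lit 2988) (nat_lit 186) (.e (nat_lit 450304) (nat_lit 0) .nil))))))) (.g (nat_lit 5) .nil .nil)))) (.nd (nat_lit 5) 
(.lf (nat_lit 85272) (.g (nat_lit 2160) (.e (nat_lit 1860) (nat_lit 124) (.e (nat_lit 557100) (nat_lit 13) (.e (nat_lit 172106) (nat_lit 10) (.e (nat_lit 434244) (nat_lit 28) (.e (nat_lit 573471) (nat_lit 11) (.e (nat_lit 16442) (nat_lit 9) (.e (nat_lit 433920) (nat_lit 15) .nil))))))) (.g (nat_lit 4) .nil .nil))) 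
(.lf (nat_lit 85304) (.g (nat_lit 2371) (.e (nat_lit 1860) (nat_lit 124) (.e (nat_lit 557100) (nat_lit 13) (.e (nat_lit 172113) (nat_lit 10) (.e (nat_lit 434245) (nat_lit 28) (.e (nat_lit 573448) (nat_lit 9) (.e (nat_lit 478) (nat_lit 37) (.e (nat_lit 474880) (nat_lit 0) .nil))))))) (.g (nat_lit 5) .nil .nil)))))) (.nd (nat_lit 3) (.nd (nat_lit 4) (.nd (nat_lit 5) 
(.lf (nat_lit 85252) (.g (nat_lit 2544) (.e (nat_lit 1860) (nat_lit 124) (.e (nat_lit 557100) (nat_lit 13) (.e (nat_lit 172106) (nat_lit 10) (.e (nat_lit 434244) (nat_lit 28) (.e (nat_lit 573458) (nat_lit 9) (.e (nat_lit 7936) (nat_lit 32) (.e (nat_lit 426230) (nat_lit 9) (.e (nat_lit 426353) (nat_lit 15) .nil)))))))) (.g (nat_lit 4) .nil .nil))) 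
(.lf (nat_lit 85284) (.g (nat_lit 2292) (.e (nat_lit 1860) (nat_lit 124) (.e (nat_lit 557100) (nat_lit 13) (.e (nat_lit 172113) (nat_lit 10) (.e (nat_lit 434238) (nat_lit 25) (.e (nat_lit 548896) (nat_lit 14) (.e (nat_lit 2982) (nat_lit 186) (.e (nat_lit 450304) (nat_lit 0) .nil))))))) (.g (nat_lit 4) .nil .nil)))) (.nd (nat_lit 5) 
(.lf (nat_lit 85268) (.g (nat_lit 3561) (.e (nat_lit 1860) (nat_lit 124) (.e (nat_lit 557100) (nat_lit 13) (.e (nat_lit 172106) (nat_lit 10) (.e (nat_lit 434244) (nat_lit 28) (.e (nat_lit 573471) (nat_lit 11) (.e (nat_lit 16436) (nat_lit 9) (.e (nat_lit 426361) (nat_lit 15) .nil))))))) (.g (nat_lit 7) .nil .nil))) 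
(.lf (nat_lit 85300) (.g (nat_lit 1088) (.e (nat_lit 1860) (nat_lit 124) (.e (nat_lit 557100) (nat_lit 13) (.e (nat_lit 172113) (nat_lit 10) (.e (nat_lit 434245) (nat_lit 28) .nil)))) .nil)))) (.nd (nat_lit 4) (.nd (nat_lit 5) 
(.lf (nat_lit 85260) (.g (nat_lit 3223) (.e (nat_lit 1860) (nat_lit 124) (.e (nat_lit 557100) (nat_lit 13) (.e (nat_lit 172106) (nat_lit 10) (.e (nat_lit 434244) (nat_lit 28) (.e (nat_lit 573470) (nat_lit 11) (.e (nat_lit 16438) (nat_lit 9) (.e (nat_lit 426354) (nat_lit 15) .nil))))))) (.g (nat_lit 5) .nil .nil))) 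
(.lf (nat_lit 85292) (.g (nat_lit 3345) (.e (nat_lit 1860) (nat_lit 124) (.e (nat_lit 557100) (nat_lit 13) (.e (nat_lit 172113) (nat_lit 10) (.e (nat_lit 434238) (nat_lit 25) (.e (nat_lit 548898) (nat_lit 14) (.e (nat_lit 2988) (nat_lit 186) (.e (nat_lit 450304) (nat_lit 0) .nil))))))) (.g (nat_lit 6) .nil .nil)))) (.nd (nat_lit 5) 
(.lf (nat_lit 85276) (.g (nat_lit 2545) (.e (nat_lit 1860) (nat_lit 124) (.e (nat_lit 557100) (nat_lit 13) (.e (nat_lit 172106) (nat_lit 10) (.e (nat_lit 434244) (nat_lit 28) (.e (nat_lit 573471) (nat_lit 11) (.e (nat_lit 16446) (nat_lit 9) (.e (nat_lit 433920) (nat_lit 15) .nil))))))) (.g (nat_lit 5) .nil .nil))) 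
(.lf (nat_lit 85308) (.g (nat_lit 2805) (.e (nat_lit 1860) (nat_lit 124) (.e (nat_lit 557100) (nat_lit 13) (.e (nat_lit 172113) (nat_lit 10) (.e (nat_lit 434245) (nat_lit 28) (.e (nat_lit 573449) (nat_lit 9) (.e (nat_lit 481) (nat_lit 37) (.e (nat_lit 474880) (nat_lit 0) .nil))))))) (.g (nat_lit 6) .nil .nil))))))) (.nd (nat_lit 2) (.nd (nat_lit 3) (.nd (nat_lit 4) (.nd (nat_lit 5) 
(.lf (nat_lit 85250) (.g (nat_lit 2252) (.e (nat_lit 1860) (nat_lit 124) (.e (nat_lit 557100) (nat_lit 13) (.e (nat_lit 172106) (nat_lit 10) (.e (nat_lit 434244) (nat_lit 28) (.e (nat_lit 573458) (nat_lit 9) (.e (nat_lit 426) (nat_lit 32) (.e (nat_lit 426190) (nat_lit 9) (.e (nat_lit 426350) (nat_lit 15) .nil)))))))) (.g (nat_lit 4) .nil .nil))) 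
(.lf (nat_lit 85282) (.g (nat_lit 1467) (.e (nat_lit 1860) (nat_lit 124) (.e (nat_lit 557100) (nat_lit 13) (.e (nat_lit 172113) (nat_lit 10) (.e (nat_lit 434238) (nat_lit 25) .nil)))) .nil))) (.nd (nat_lit 5) 
(.lf (nat_lit 85266) (.g (nat_lit 2104) (.e (nat_lit 1860) (nat_lit 124) (.e (nat_lit 557100) (nat_lit 13) (.e (nat_lit 172106) (nat_lit 10) (.e (nat_lit 434244) (nat_lit 28) (.e (nat_lit 573471) (nat_lit 11) (.e (nat_lit 16434) (nat_lit 9) (.e (nat_lit 433920) (nat_lit 15) .nil))))))) (.g (nat_lit 4) .nil .nil))) 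
(.lf (nat_lit 85298) (.g (nat_lit 1348) (.e (nat_lit 1860) (nat_lit 124) (.e (nat_lit 557100) (nat_lit 13) (.e (nat_lit 172113) (nat_lit 10) (.e (nat_lit 434242) (nat_lit 28) .nil)))) .nil)))) (.nd (nat_lit 4) (.nd (nat_lit 5) 
(.lf (nat_lit 85258) (.g (nat_lit 3492) (.e (nat_lit 1860) (nat_lit 124) (.e (nat_lit 557100) (nat_lit 13) (.e (nat_lit 172106) (nat_lit 10) (.e (nat_lit 434244) (nat_lit 28) (.e (nat_lit 573469) (nat_lit 11) (.e (nat_lit 16438) (nat_lit 9) (.e (nat_lit 426354) (nat_lit 15) .nil))))))) (.g (nat_lit 6) .nil .nil))) 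
(.lf (nat_lit 85290) (.g (nat_lit 2590) (.e (nat_lit 1860) (nat_lit 124) (.e (nat_lit 557100) (nat_lit 13) (.e (nat_lit 172113) (nat_lit 10) (.e (nat_lit 434238) (nat_lit 25) (.e (nat_lit 548897) (nat_lit 14) (.e (nat_lit 3004) (nat_lit 186) (.e (nat_lit 450304) (nat_lit 0) .nil))))))) (.g (nat_lit 5) .nil .nil)))) (.nd (nat_lit 5) 
(.lf (nat_lit 85274) (.g (nat_lit 3621) (.e (nat_lit 1860) (nat_lit 124) (.e (nat_lit 557100) (nat_lit 13) (.e (nat_lit 172106) (nat_lit 10) (.e (nat_lit 434244) (nat_lit 28) (.e (nat_lit 573471) (nat_lit 11) (.e (nat_lit 16444) (nat_lit 9) (.e (nat_lit 426353) (nat_lit 15) .nil))))))) (.g (nat_lit 6) .nil .nil))) 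
(.lf (nat_lit 85306) (.g (nat_lit 1851) (.e (nat_lit 1860) (nat_lit 124) (.e (nat_lit 557100) (nat_lit 13) (.e (nat_lit 172113) (nat_lit 10) (.e (nat_lit 434245) (nat_lit 28) (.e (nat_lit 573449) (nat_lit 9) (.e (nat_lit 457) (nat_lit 34) (.e (nat_lit 450304) (nat_lit 0) .nil))))))) (.g (nat_lit 4) .nil .nil)))))) (.nd (nat_lit 3) (.nd (nat_lit 4) (.nd (nat_lit 5) 
(.lf (nat_lit 85254) (.g (nat_lit 2010) (.e (nat_lit 1860) (nat_lit 124) (.e (nat_lit 557100) (nat_lit 13) (.e (nat_lit 172106) (nat_lit 10) (.e (nat_lit 434244) (nat_lit 28) (.e (nat_lit 573458) (nat_lit 9) (.e (nat_lit 7936) (nat_lit 34) (.e (nat_lit 450304) (nat_lit 0) .nil))))))) (.g (nat_lit 4) .nil .nil))) 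
(.lf (nat_lit 85286) (.g (nat_lit 2800) (.e (nat_lit 1860) (nat_lit 124) (.e (nat_lit 557100) (nat_lit 13) (.e (nat_lit 172113) (nat_lit 10) (.e (nat_lit 434238) (nat_lit 25) (.e (nat_lit 548896) (nat_lit 14) (.e (nat_lit 3004) (nat_lit 186) (.e (nat_lit 450304) (nat_lit 0) .nil))))))) (.g (nat_lit 5) .nil .nil)))) (.nd (nat_lit 5) 
(.lf (nat_lit 85270) (.g (nat_lit 3027) (.e (nat_lit 1860) (nat_lit 124) (.e (nat_lit 557100) (nat_lit 13) (.e (nat_lit 172106) (nat_lit 10) (.e (nat_lit 434244) (nat_lit 28) (.e (nat_lit 573471) (nat_lit 11) (.e (nat_lit 16439) (nat_lit 9) (.e (nat_lit 433920) (nat_lit 15) .nil))))))) (.g (nat_lit 5) .nil .nil))) 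
(.lf (nat_lit 85302) (.g (nat_lit 1976) (.e (nat_lit 1860) (nat_lit 124) (.e (nat_lit 557100) (nat_lit 13) (.e (nat_lit 172113) (nat_lit 10) (.e (nat_lit 434245) (nat_lit 28) (.e (nat_lit 573448) (nat_lit 9) (.e (nat_lit 458) (nat_lit 34) (.e (nat_lit 450304) (nat_lit 0) .nil))))))) (.g (nat_lit 4) .nil .nil))))) (.nd (nat_lit 4) (.nd (nat_lit 5) 
(.lf (nat_lit 85262) (.g (nat_lit 3890) (.e (nat_lit 1860) (nat_lit 124) (.e (nat_lit 557100) (nat_lit 13) (.e (nat_lit 172106) (nat_lit 10) (.e (nat_lit 434244) (nat_lit 28) (.e (nat_lit 573471) (nat_lit 11) (.e (nat_lit 16432) (nat_lit 9) (.e (nat_lit 426354) (nat_lit 15) .nil))))))) (.g (nat_lit 5) .nil .nil))) 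
(.lf (nat_lit 85294) (.g (nat_lit 3084) (.e (nat_lit 1860) (nat_lit 124) (.e (nat_lit 557100) (nat_lit 13) (.e (nat_lit 172113) (nat_lit 10) (.e (nat_lit 434238) (nat_lit 25) (.e (nat_lit 548898) (nat_lit 14) (.e (nat_lit 2998) (nat_lit 186) (.e (nat_lit 450304) (nat_lit 0) .nil))))))) (.g (nat_lit 6) .nil .nil)))) (.nd (nat_lit 5) 
(.lf (nat_lit 85278) (.g (nat_lit 1269) (.e (nat_lit 1860) (nat_lit 124) (.e (nat_lit 557100) (nat_lit 13) (.e (nat_lit 172113) (nat_lit 10) (.e (nat_lit 434203) (nat_lit 18) .nil)))) .nil)) 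
(.lf (nat_lit 85310) (.g (nat_lit 3149) (.e (nat_lit 1860) (nat_lit 124) (.e (nat_lit 557100) (nat_lit 13) (.e (nat_lit 172113) (nat_lit 10) (.e (nat_lit 434245) (nat_lit 28) (.e (nat_lit 573450) (nat_lit 9) (.e (nat_lit 455) (nat_lit 34) (.e (nat_lit 450304) (nat_lit 0) .nil))))))) (.g (nat_lit 6) .nil .nil)))))))) 
(.nd (nat_lit 1) (.nd (nat_lit 2) (.nd (nat_lit 3) (.nd (nat_lit 4) (.nd (nat_lit 5) 
(.lf (nat_lit 85249) (.g (nat_lit 5573) (.e (nat_lit 1860) (nat_lit 124) (.e (nat_lit 557100) (nat_lit 13) (.e (nat_lit 172106) (nat_lit 10) (.e (nat_lit 434244) (nat_lit 28) (.e (nat_lit 573458) (nat_lit 9) (.e (nat_lit 426) (nat_lit 32) (.e (nat_lit 426188) (nat_lit 9) (.e (nat_lit 426354) (nat_lit 15) .nil)))))))) (.g (nat_lit 0) .nil .nil))) 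
(.lf (nat_lit 85281) (.g (nat_lit 1740) (.e (nat_lit 1860) (nat_lit 124) (.e (nat_lit 557100) (nat_lit 13) (.e (nat_lit 172113) (nat_lit 10) (.e (nat_lit 434208) (nat_lit 18) (.e (nat_lit 4015) (nat_lit 244) .nil))))) .nil))) (.nd (nat_lit 5) 
(.lf (nat_lit 85265) (.g (nat_lit 2311) (.e (nat_lit 1860) (nat_lit 124) (.e (nat_lit 557100) (nat_lit 13) (.e (nat_lit 172106) (nat_lit 10) (.e (nat_lit 434244) (nat_lit 28) (.e (nat_lit 573471) (nat_lit 11) (.e (nat_lit 16434) (nat_lit 9) (.e (nat_lit 426350) (nat_lit 15) .nil))))))) (.g (nat_lit 4) .nil .nil))) 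
(.lf (nat_lit 85297) (.g (nat_lit 2748) (.e (nat_lit 1860) (nat_lit 124) (.e (nat_lit 557100) (nat_lit 13) (.e (nat_lit 172113) (nat_lit 10) (.e (nat_lit 434238) (nat_lit 25) (.e (nat_lit 548913) (nat_lit 18) (.e (nat_lit 172087) (nat_lit 9) (.e (nat_lit 426354) (nat_lit 15) .nil))))))) (.g (nat_lit 4) .nil .nil))))) (.nd (nat_lit 4) (.nd (nat_lit 5) 
(.lf (nat_lit 85257) (.g (nat_lit 3454) (.e (nat_lit 1860) (nat_lit 124) (.e (nat_lit 557100) (nat_lit 13) (.e (nat_lit 172106) (nat_lit 10) (.e (nat_lit 434244) (nat_lit 28) (.e (nat_lit 573469) (nat_lit 11) (.e (nat_lit 16435) (nat_lit 9) (.e (nat_lit 426354) (nat_lit 15) .nil))))))) (.g (nat_lit 5) .nil .nil))) 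
(.lf (nat_lit 85289) (.g (nat_lit 2728) (.e (nat_lit 1860) (nat_lit 124) (.e (nat_lit 557100) (nat_lit 13) (.e (nat_lit 172113) (nat_lit 10) (.e (nat_lit 434238) (nat_lit 25) (.e (nat_lit 548897) (nat_lit 14) (.e (nat_lit 2989) (nat_lit 186) (.e (nat_lit 450304) (nat_lit 0) .nil))))))) (.g (nat_lit 5) .nil .nil)))) (.nd (nat_lit 5) 
(.lf (nat_lit 85273) (.g (nat_lit 2852) (.e (nat_lit 1860) (nat_lit 124) (.e (nat_lit 557100) (nat_lit 13) (.e (nat_lit 172106) (nat_lit 10) (.e (nat_lit 434244) (nat_lit 28) (.e (nat_lit 573471) (nat_lit 11) (.e (nat_lit 16444) (nat_lit 9) (.e (nat_lit 426349) (nat_lit 15) .nil))))))) (.g (nat_lit 5) .nil .nil))) 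
(.lf (nat_lit 85305) (.g (nat_lit 2990) (.e (nat_lit 1860) (nat_lit 124) (.e (nat_lit 557100) (nat_lit 13) (.e (nat_lit 172113) (nat_lit 10) (.e (nat_lit 434245) (nat_lit 28) (.e (nat_lit 573449) (nat_lit 9) (.e (nat_lit 454) (nat_lit 34) (.e (nat_lit 450304) (nat_lit 0) .nil))))))) (.g (nat_lit 6) .nil .nil)))))) (.nd (nat_lit 3) (.nd (nat_lit 4) (.nd (nat_lit 5) 
(.lf (nat_lit 85253) (.g (nat_lit 2759) (.e (nat_lit 1860) (nat_lit 124) (.e (nat_lit 557100) (nat_lit 13) (.e (nat_lit 172106) (nat_lit 10) (.e (nat_lit 434244) (nat_lit 28) (.e (nat_lit 573458) (nat_lit 9) (.e (nat_lit 7936) (nat_lit 32) (.e (nat_lit 426234) (nat_lit 9) (.e (nat_lit 426353) (nat_lit 15) .nil)))))))) (.g (nat_lit 4) .nil .nil))) 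
(.lf (nat_lit 85285) (.g (nat_lit 2409) (.e (nat_lit 1860) (nat_lit 124) (.e (nat_lit 557100) (nat_lit 13) (.e (nat_lit 172113) (nat_lit 10) (.e (nat_lit 434238) (nat_lit 25) (.e (nat_lit 548896) (nat_lit 14) (.e (nat_lit 2998) (nat_lit 186) (.e (nat_lit 450304) (nat_lit 0) .nil))))))) (.g (nat_lit 4) .nil .nil)))) (.nd (nat_lit 5) 
(.lf (nat_lit 85269) (.g (nat_lit 2243) (.e (nat_lit 1860) (nat_lit 124) (.e (nat_lit 557100) (nat_lit 13) (.e (nat_lit 172106) (nat_lit 10) (.e (nat_lit 434244) (nat_lit 28) (.e (nat_lit 573471) (nat_lit 11) (.e (nat_lit 16436) (nat_lit 9) (.e (nat_lit 433920) (nat_lit 15) .nil))))))) (.g (nat_lit 4) .nil .nil))) 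
(.lf (nat_lit 85301) (.g (nat_lit 1886) (.e (nat_lit 1860) (nat_lit 124) (.e (nat_lit 557100) (nat_lit 13) (.e (nat_lit 172113) (nat_lit 10) (.e (nat_lit 434245) (nat_lit 28) (.e (nat_lit 573448) (nat_lit 9) .nil))))) .nil)))) (.nd (nat_lit 4) (.nd (nat_lit 5) 
(.lf (nat_lit 85261) (.g (nat_lit 3627) (.e (nat_lit 1860) (nat_lit 124) (.e (nat_lit 557100) (nat_lit 13) (.e (nat_lit 172106) (nat_lit 10) (.e (nat_lit 434244) (nat_lit 28) (.e (nat_lit 573471) (nat_lit 11) (.e (nat_lit 16431) (nat_lit 9) (.e (nat_lit 426354) (nat_lit 15) .nil))))))) (.g (nat_lit 6) .nil .nil))) 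
(.lf (nat_lit 85293) (.g (nat_lit 3210) (.e (nat_lit 1860) (nat_lit 124) (.e (nat_lit 557100) (nat_lit 13) (.e (nat_lit 172113) (nat_lit 10) (.e (nat_lit 434238) (nat_lit 25) (.e (nat_lit 548898) (nat_lit 14) (.e (nat_lit 2989) (nat_lit 186) (.e (nat_lit 450304) (nat_lit 0) .nil))))))) (.g (nat_lit 6) .nil .nil)))) (.nd (nat_lit 5) 
(.lf (nat_lit 85277) (.g (nat_lit 491) (.e (nat_lit 1860) (nat_lit 124) (.e (nat_lit 557100) (nat_lit 13) (.e (nat_lit 172113) (nat_lit 10) .nil))) .nil)) 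
(.lf (nat_lit 85309) (.g (nat_lit 2989) (.e (nat_lit 1860) (nat_lit 124) (.e (nat_lit 557100) (nat_lit 13) (.e (nat_lit 172113) (nat_lit 10) (.e (nat_lit 434245) (nat_lit 28) (.e (nat_lit 573450) (nat_lit 9) (.e (nat_lit 454) (nat_lit 34) (.e (nat_lit 450304) (nat_lit 0) .nil))))))) (.g (nat_lit 5) .nil .nil))))))) (.nd (nat_lit 2) (.nd (nat_lit 3) (.nd (nat_lit 4) (.nd (nat_lit 5) 
(.lf (nat_lit 85251) (.g (nat_lit 3203) (.e (nat_lit 1860) (nat_lit 124) (.e (nat_lit 557100) (nat_lit 13) (.e (nat_lit 172106) (nat_lit 10) (.e (nat_lit 434244) (nat_lit 28) (.e (nat_lit 573458) (nat_lit 9) (.e (nat_lit 426) (nat_lit 32) (.e (nat_lit 426258) (nat_lit 9) (.e (nat_lit 426353) (nat_lit 15) .nil)))))))) (.g (nat_lit 5) .nil .nil))) 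
(.lf (nat_lit 85283) (.g (nat_lit 2529) (.e (nat_lit 1860) (nat_lit 124) (.e (nat_lit 557100) (nat_lit 13) (.e (nat_lit 172113) (nat_lit 10) (.e (nat_lit 434238) (nat_lit 25) (.e (nat_lit 548894) (nat_lit 14) (.e (nat_lit 3048) (nat_lit 189) (.e (nat_lit 474880) (nat_lit 0) .nil))))))) (.g (nat_lit 5) .nil .nil)))) (.nd (nat_lit 5) 
(.lf (nat_lit 85267) (.g (nat_lit 3879) (.e (nat_lit 1860) (nat_lit 124) (.e (nat_lit 557100) (nat_lit 13) (.e (nat_lit 172106) (nat_lit 10) (.e (nat_lit 434244) (nat_lit 28) (.e (nat_lit 573471) (nat_lit 11) (.e (nat_lit 16435) (nat_lit 9) (.e (nat_lit 426354) (nat_lit 15) .nil))))))) (.g (nat_lit 5) .nil .nil))) 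
(.lf (nat_lit 85299) (.g (nat_lit 1884) (.e (nat_lit 1860) (nat_lit 124) (.e (nat_lit 557100) (nat_lit 13) (.e (nat_lit 172113) (nat_lit 10) (.e (nat_lit 434242) (nat_lit 28) (.e (nat_lit 573465) (nat_lit 9) .nil))))) .nil)))) (.nd (nat_lit 4) (.nd (nat_lit 5) 
(.lf (nat_lit 85259) (.g (nat_lit 2858) (.e (nat_lit 1860) (nat_lit 124) (.e (nat_lit 557100) (nat_lit 13) (.e (nat_lit 172106) (nat_lit 10) (.e (nat_lit 434244) (nat_lit 28) (.e (nat_lit 573470) (nat_lit 11) (.e (nat_lit 16433) (nat_lit 9) (.e (nat_lit 426354) (nat_lit 15) .nil))))))) (.g (nat_lit 4) .nil .nil))) 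
(.lf (nat_lit 85291) (.g (nat_lit 2128) (.e (nat_lit 1860) (nat_lit 124) (.e (nat_lit 557100) (nat_lit 13) (.e (nat_lit 172113) (nat_lit 10) (.e (nat_lit 434238) (nat_lit 25) (.e (nat_lit 548898) (nat_lit 14) (.e (nat_lit 2982) (nat_lit 186) (.e (nat_lit 450304) (nat_lit 0) .nil))))))) (.g (nat_lit 4) .nil .nil)))) (.nd (nat_lit 5) 
(.lf (nat_lit 85275) (.g (nat_lit 3495) (.e (nat_lit 1860) (nat_lit 124) (.e (nat_lit 557100) (nat_lit 13) (.e (nat_lit 172106) (nat_lit 10) (.e (nat_lit 434244) (nat_lit 28) (.e (nat_lit 573471) (nat_lit 11) (.e (nat_lit 16444) (nat_lit 9) (.e (nat_lit 433920) (nat_lit 15) .nil))))))) (.g (nat_lit 6) .nil .nil))) 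
(.lf (nat_lit 85307) (.g (nat_lit 2811) (.e (nat_lit 1860) (nat_lit 124) (.e (nat_lit 557100) (nat_lit 13) (.e (nat_lit 172113) (nat_lit 10) (.e (nat_lit 434245) (nat_lit 28) (.e (nat_lit 573449) (nat_lit 9) (.e (nat_lit 460) (nat_lit 34) (.e (nat_lit 450304) (nat_lit 0) .nil))))))) (.g (nat_lit 6) .nil .nil)))))) (.nd (nat_lit 3) (.nd (nat_lit 4) (.nd (nat_lit 5) 
(.lf (nat_lit 85255) (.g (nat_lit 3328) (.e (nat_lit 1860) (nat_lit 124) (.e (nat_lit 557100) (nat_lit 13) (.e (nat_lit 172106) (nat_lit 10) (.e (nat_lit 434244) (nat_lit 28) (.e (nat_lit 573458) (nat_lit 9) (.e (nat_lit 7936) (nat_lit 37) (.e (nat_lit 474880) (nat_lit 0) .nil))))))) (.g (nat_lit 5) .nil .nil))) 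
(.lf (nat_lit 85287) (.g (nat_lit 2024) (.e (nat_lit 1860) (nat_lit 124) (.e (nat_lit 557100) (nat_lit 13) (.e (nat_lit 172113) (nat_lit 10) (.e (nat_lit 434238) (nat_lit 25) (.e (nat_lit 548897) (nat_lit 14) .nil))))) .nil))) (.nd (nat_lit 5) 
(.lf (nat_lit 85271) (.g (nat_lit 2357) (.e (nat_lit 1860) (nat_lit 124) (.e (nat_lit 557100) (nat_lit 13) (.e (nat_lit 172106) (nat_lit 10) (.e (nat_lit 434244) (nat_lit 28) (.e (nat_lit 573471) (nat_lit 11) (.e (nat_lit 16440) (nat_lit 9) (.e (nat_lit 433920) (nat_lit 15) .nil))))))) (.g (nat_lit 4) .nil .nil))) 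
(.lf (nat_lit 85303) (.g (nat_lit 2442) (.e (nat_lit 1860) (nat_lit 124) (.e (nat_lit 557100) (nat_lit 13) (.e (nat_lit 172113) (nat_lit 10) (.e (nat_lit 434245) (nat_lit 28) (.e (nat_lit 573448) (nat_lit 9) (.e (nat_lit 460) (nat_lit 34) (.e (nat_lit 450304) (nat_lit 0) .nil))))))) (.g (nat_lit 6) .nil .nil))))) (.nd (nat_lit 4) (.nd (nat_lit 5) 
(.lf (nat_lit 85263) (.g (nat_lit 4602) (.e (nat_lit 1860) (nat_lit 124) (.e (nat_lit 557100) (nat_lit 13) (.e (nat_lit 172106) (nat_lit 10) (.e (nat_lit 434244) (nat_lit 28) (.e (nat_lit 573471) (nat_lit 11) (.e (nat_lit 16433) (nat_lit 9) (.e (nat_lit 426354) (nat_lit 15) .nil))))))) (.g (nat_lit 0) .nil .nil))) 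
(.lf (nat_lit 85295) (.g (nat_lit 3223) (.e (nat_lit 1860) (nat_lit 124) (.e (nat_lit 557100) (nat_lit 13) (.e (nat_lit 172113) (nat_lit 10) (.e (nat_lit 434238) (nat_lit 25) (.e (nat_lit 548898) (nat_lit 14) (.e (nat_lit 3004) (nat_lit 186) (.e (nat_lit 450304) (nat_lit 0) .nil))))))) (.g (nat_lit 6) .nil .nil)))) (.nd (nat_lit 5) 
(.lf (nat_lit 85279) (.g (nat_lit 1976) (.e (nat_lit 1860) (nat_lit 124) (.e (nat_lit 557100) (nat_lit 13) (.e (nat_lit 172113) (nat_lit 10) (.e (nat_lit 434203) (nat_lit 18) (.e (nat_lit 4181) (nat_lit 251) .nil))))) .nil)) 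
(.lf (nat_lit 85311) (.g (nat_lit 3055) (.e (nat_lit 1860) (nat_lit 124) (.e (nat_lit 557100) (nat_lit 13) (.e (nat_lit 172113) (nat_lit 10) (.e (nat_lit 434245) (nat_lit 28) (.e (nat_lit 573450) (nat_lit 9) (.e (nat_lit 457) (nat_lit 34) (.e (nat_lit 450304) (nat_lit 0) .nil))))))) (.g (nat_lit 6) .nil .nil)))))))))

noncomputable def tv1157 : DT := (.nd (nat_lit 0) (.nd (nat_lit 1) (.nd (nat_lit 2) (.nd (nat_lit 3) (.nd (nat_lit 4) (.nd (nat_lit 5) 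
(.lf (nat_lit 85312) (.g (nat_lit 2670) (.e (nat_lit 1860) (nat_lit 124) (.e (nat_lit 557100) (nat_lit 13) (.e (nat_lit 172113) (nat_lit 10) (.e (nat_lit 434245) (nat_lit 28) (.e (nat_lit 573450) (nat_lit 9) (.e (nat_lit 459) (nat_lit 34) (.e (nat_lit 450304) (nat_lit 0) .nil))))))) (.g (nat_lit 5) .nil .nil))) 
(.lf (nat_lit 85344) (.g (nat_lit 2399) (.e (nat_lit 1860) (nat_lit 124) (.e (nat_lit 557100) (nat_lit 13) (.e (nat_lit 172113) (nat_lit 10) (.e (nat_lit 434247) (nat_lit 28) (.e (nat_lit 573465) (nat_lit 9) .nil))))) .nil))) (.nd (nat_lit 5) 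
(.lf (nat_lit 85328) (.g (nat_lit 2251) (.e (nat_lit 1860) (nat_lit 124) (.e (nat_lit 557100) (nat_lit 13) (.e (nat_lit 172113) (nat_lit 10) (.e (nat_lit 434245) (nat_lit 28) (.e (nat_lit 573458) (nat_lit 9) (.e (nat_lit 426) (nat_lit 32) (.e (nat_lit 426190) (nat_lit 9) (.e (nat_lit 426350) (nat_lit 15) .nil)))))))) (.g (nat_lit 4) .nil .nil))) 
(.lf (nat_lit 85360) (.g (nat_lit 3049) (.e (nat_lit 1860) (nat_lit 124) (.e (nat_lit 557100) (nat_lit 13) (.e (nat_lit 172118) (nat_lit 12) (.e (nat_lit 475185) (nat_lit 29) (.e (nat_lit 557109) (nat_lit 15) (.e (nat_lit 196352) (nat_lit 0) .nil)))))) (.g (nat_lit 5) .nil .nil))))) (.nd (nat_lit 4) (.nd (nat_lit 5) 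
(.lf (nat_lit 85320) (.g (nat_lit 3092) (.e (nat_lit 1860) (nat_lit 124) (.e (nat_lit 557100) (nat_lit 13) (.e (nat_lit 172113) (nat_lit 10) (.e (nat_lit 434245) (nat_lit 28) (.e (nat_lit 573454) (nat_lit 9) (.e (nat_lit 478) (nat_lit 37) (.e (nat_lit 474880) (nat_lit 0) .nil))))))) (.g (nat_lit 6) .nil .nil))) 
(.lf (nat_lit 85352) (.g (nat_lit 2922) (.e (nat_lit 1860) (nat_lit 124) (.e (nat_lit 557100) (nat_lit 13) (.e (nat_lit 172113) (nat_lit 10) (.e (nat_lit 434248) (nat_lit 28) (.e (nat_lit 573452) (nat_lit 9) (.e (nat_lit 430) (nat_lit 32) (.e (nat_lit 426189) (nat_lit 9) (.e (nat_lit 426361) (nat_lit 15) .nil)))))))) (.g (nat_lit 4) .nil .nil)))) (.nd (nat_lit 5) 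
(.lf (nat_lit 85336) (.g (nat_lit 2777) (.e (nat_lit 1860) (nat_lit 124) (.e (nat_lit 557100) (nat_lit 13) (.e (nat_lit 172113) (nat_lit 10) (.e (nat_lit 434247) (nat_lit 28) (.e (nat_lit 573456) (nat_lit 9) (.e (nat_lit 430) (nat_lit 32) (.e (nat_lit 426189) (nat_lit 9) (.e (nat_lit 426361) (nat_lit 15) .nil)))))))) (.g (nat_lit 4) .nil .nil))) 
(.lf (nat_lit 85368) (.g (nat_lit 2830) (.e (nat_lit 1860) (nat_lit 124) (.e (nat_lit 557100) (nat_lit 13) (.e (nat_lit 172124) (nat_lit 14) (.e (nat_lit 491537) (nat_lit 2) (.e (nat_lit 90185) (nat_lit 17) (.e (nat_lit 237601) (nat_lit 9) (.e (nat_lit 426354) (nat_lit 15) .nil))))))) (.g (nat_lit 4) .nil .nil)))))) (.nd (nat_lit 3) (.nd (nat_lit 4) (.nd (nat_lit 5) 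
(.lf (nat_lit 85316) (.g (nat_lit 2926) (.e (nat_lit 1860) (nat_lit 124) (.e (nat_lit 557100) (nat_lit 13) (.e (nat_lit 172113) (nat_lit 10) (.e (nat_lit 434245) (nat_lit 28) (.e (nat_lit 573451) (nat_lit 9) (.e (nat_lit 430) (nat_lit 32) (.e (nat_lit 426189) (nat_lit 9) (.e (nat_lit 426361) (nat_lit 15) .nil)))))))) (.g (nat_lit 4) .nil .nil))) 
(.lf (nat_lit 85348) (.g (nat_lit 1952) (.e (nat_lit 1860) (nat_lit 124) (.e (nat_lit 557100) (nat_lit 13) (.e (nat_lit 172113) (nat_lit 10) (.e (nat_lit 434248) (nat_lit 28) (.e (nat_lit 573449) (nat_lit 9) (.e (nat_lit 457) (nat_lit 34) (.e (nat_lit 450304) (nat_lit 0) .nil))))))) (.g (nat_lit 4) .nil .nil)))) (.nd (nat_lit 5) 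
(.lf (nat_lit 85332) (.g (nat_lit 3479) (.e (nat_lit 1860) (nat_lit 124) (.e (nat_lit 557100) (nat_lit 13) (.e (nat_lit 172113) (nat_lit 10) (.e (nat_lit 434245) (nat_lit 28) (.e (nat_lit 573471) (nat_lit 11) (.e (nat_lit 16444) (nat_lit 9) (.e (nat_lit 426349) (nat_lit 15) .nil))))))) (.g (nat_lit 5) .nil .nil))) 
(.lf (nat_lit 85364) (.g (nat_lit 2975) (.e (nat_lit 1860) (nat_lit 124) (.e (nat_lit 557100) (nat_lit 13) (.e (nat_lit 172120) (nat_lit 12) (.e (nat_lit 475185) (nat_lit 29) (.e (nat_lit 557107) (nat_lit 15) (.e (nat_lit 196352) (nat_lit 0) .nil)))))) (.g (nat_lit 5) .nil .nil))))) (.nd (nat_lit 4) (.nd (nat_lit 5) 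
(.lf (nat_lit 85324) (.g (nat_lit 2295) (.e (nat_lit 1860) (nat_lit 124) (.e (nat_lit 557100) (nat_lit 13) (.e (nat_lit 172113) (nat_lit 10) (.e (nat_lit 434245) (nat_lit 28) (.e (nat_lit 573458) (nat_lit 9) (.e (nat_lit 420) (nat_lit 32) (.e (nat_lit 426258) (nat_lit 9) (.e (nat_lit 426353) (nat_lit 15) .nil)))))))) (.g (nat_lit 4) .nil .nil))) 
(.lf (nat_lit 85356) (.g (nat_lit 2659) (.e (nat_lit 1860) (nat_lit 124) (.e (nat_lit 557100) (nat_lit 13) (.e (nat_lit 172113) (nat_lit 10) (.e (nat_lit 434248) (nat_lit 28) (.e (nat_lit 573456) (nat_lit 9) .nil))))) .nil))) (.nd (nat_lit 5) 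
(.lf (nat_lit 85340) (.g (nat_lit 2736) (.e (nat_lit 1860) (nat_lit 124) (.e (nat_lit 557100) (nat_lit 13) (.e (nat_lit 172113) (nat_lit 10) (.e (nat_lit 434247) (nat_lit 28) (.e (nat_lit 573457) (nat_lit 9) (.e (nat_lit 430) (nat_lit 32) (.e (nat_lit 426189) (nat_lit 9) (.e (nat_lit 433920) (nat_lit 15) .nil)))))))) (.g (nat_lit 7) .nil .nil))) 
(.lf (nat_lit 85372) (.g (nat_lit 2291) (.e (nat_lit 1860) (nat_lit 124) (.e (nat_lit 557100) (nat_lit 13) (.e (nat_lit 172124) (nat_lit 14) (.e (nat_lit 491540) (nat_lit 3) (.e (nat_lit 98363) (nat_lit 26) (.e (nat_lit 426230) (nat_lit 9) (.e (nat_lit 426353) (nat_lit 15) .nil))))))) (.g (nat_lit 4) .nil .nil))))))) (.nd (nat_lit 2) (.nd (nat_lit 3) (.nd (nat_lit 4) (.nd (nat_lit 5) 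
(.lf (nat_lit 85314) (.g (nat_lit 2401) (.e (nat_lit 1860) (nat_lit 124) (.e (nat_lit 557100) (nat_lit 13) (.e (nat_lit 172113) (nat_lit 10) (.e (nat_lit 434245) (nat_lit 28) (.e (nat_lit 573451) (nat_lit 9) (.e (nat_lit 428) (nat_lit 32) (.e (nat_lit 426232) (nat_lit 9) (.e (nat_lit 426353) (nat_lit 15) .nil)))))))) (.g (nat_lit 4) .nil .nil))) 
(.lf (nat_lit 85346) (.g (nat_lit 1956) (.e (nat_lit 1860) (nat_lit 124) (.e (nat_lit 557100) (nat_lit 13) (.e (nat_lit 172113) (nat_lit 10) (.e (nat_lit 434248) (nat_lit 28) (.e (nat_lit 573448) (nat_lit 9) .nil))))) .nil))) (.nd (nat_lit 5) 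
(.lf (nat_lit 85330) (.g (nat_lit 2672) (.e (nat_lit 1860) (nat_lit 124) (.e (nat_lit 557100) (nat_lit 13) (.e (nat_lit 172113) (nat_lit 10) (.e (nat_lit 434245) (nat_lit 28) (.e (nat_lit 573458) (nat_lit 9) (.e (nat_lit 7936) (nat_lit 37) (.e (nat_lit 474880) (nat_lit 0) .nil))))))) (.g (nat_lit 5) .nil .nil))) 
(.lf (nat_lit 85362) (.g (nat_lit 1581) (.e (nat_lit 1860) (nat_lit 124) (.e (nat_lit 557100) (nat_lit 13) (.e (nat_lit 172120) (nat_lit 12) (.e (nat_lit 475183) (nat_lit 29) .nil)))) .nil)))) (.nd (nat_lit 4) (.nd (nat_lit 5) 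
(.lf (nat_lit 85322) (.g (nat_lit 2295) (.e (nat_lit 1860) (nat_lit 124) (.e (nat_lit 557100) (nat_lit 13) (.e (nat_lit 172113) (nat_lit 10) (.e (nat_lit 434245) (nat_lit 28) (.e (nat_lit 573458) (nat_lit 9) (.e (nat_lit 420) (nat_lit 32) (.e (nat_lit 426225) (nat_lit 9) (.e (nat_lit 426353) (nat_lit 15) .nil)))))))) (.g (nat_lit 4) .nil .nil))) 
(.lf (nat_lit 85354) (.g (nat_lit 2580) (.e (nat_lit 1860) (nat_lit 124) (.e (nat_lit 557100) (nat_lit 13) (.e (nat_lit 172113) (nat_lit 10) (.e (nat_lit 434248) (nat_lit 28) (.e (nat_lit 573452) (nat_lit 9) (.e (nat_lit 7936) (nat_lit 34) (.e (nat_lit 450304) (nat_lit 0) .nil))))))) (.g (nat_lit 5) .nil .nil)))) (.nd (nat_lit 5) 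
(.lf (nat_lit 85338) (.g (nat_lit 3158) (.e (nat_lit 1860) (nat_lit 124) (.e (nat_lit 557100) (nat_lit 13) (.e (nat_lit 172113) (nat_lit 10) (.e (nat_lit 434247) (nat_lit 28) (.e (nat_lit 573456) (nat_lit 9) (.e (nat_lit 430) (nat_lit 32) (.e (nat_lit 426190) (nat_lit 9) (.e (nat_lit 426361) (nat_lit 15) .nil)))))))) (.g (nat_lit 4) .nil .nil))) 
(.lf (nat_lit 85370) (.g (nat_lit 3278) (.e (nat_lit 1860) (nat_lit 124) (.e (nat_lit 557100) (nat_lit 13) (.e (nat_lit 172124) (nat_lit 14) (.e (nat_lit 491540) (nat_lit 3) (.e (nat_lit 98358) (nat_lit 26) (.e (nat_lit 426227) (nat_lit 9) (.e (nat_lit 433920) (nat_lit 15) .nil))))))) (.g (nat_lit 6) .nil .nil)))))) (.nd (nat_lit 3) (.nd (nat_lit 4) (.nd (nat_lit 5) 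
(.lf (nat_lit 85318) (.g (nat_lit 2571) (.e (nat_lit 1860) (nat_lit 124) (.e (nat_lit 557100) (nat_lit 13) (.e (nat_lit 172113) (nat_lit 10) (.e (nat_lit 434245) (nat_lit 28) (.e (nat_lit 573451) (nat_lit 9) (.e (nat_lit 7936) (nat_lit 34) (.e (nat_lit 450304) (nat_lit 0) .nil))))))) (.g (nat_lit 5) .nil .nil))) 
(.lf (nat_lit 85350) (.g (nat_lit 1946) (.e (nat_lit 1860) (nat_lit 124) (.e (nat_lit 557100) (nat_lit 13) (.e (nat_lit 172113) (nat_lit 10) (.e (nat_lit 434248) (nat_lit 28) (.e (nat_lit 573450) (nat_lit 9) (.e (nat_lit 459) (nat_lit 34) (.e (nat_lit 450304) (nat_lit 0) .nil))))))) (.g (nat_lit 4) .nil .nil)))) (.nd (nat_lit 5) 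
(.lf (nat_lit 85334) (.g (nat_lit 3584) (.e (nat_lit 1860) (nat_lit 124) (.e (nat_lit 557100) (nat_lit 13) (.e (nat_lit 172113) (nat_lit 10) (.e (nat_lit 434247) (nat_lit 28) (.e (nat_lit 573454) (nat_lit 9) (.e (nat_lit 478) (nat_lit 37) (.e (nat_lit 474880) (nat_lit 0) .nil))))))) (.g (nat_lit 6) .nil .nil))) 
(.lf (nat_lit 85366) (.g (nat_lit 2181) (.e (nat_lit 1860) (nat_lit 124) (.e (nat_lit 557100) (nat_lit 13) (.e (nat_lit 172124) (nat_lit 14) (.e (nat_lit 491537) (nat_lit 2) (.e (nat_lit 90176) (nat_lit 15) (.e (nat_lit 196352) (nat_lit 0) .nil)))))) (.g (nat_lit 4) .nil .nil))))) (.nd (nat_lit 4) (.nd (nat_lit 5) 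
(.lf (nat_lit 85326) (.g (nat_lit 3929) (.e (nat_lit 1860) (nat_lit 124) (.e (nat_lit 557100) (nat_lit 13) (.e (nat_lit 172113) (nat_lit 10) (.e (nat_lit 434245) (nat_lit 28) (.e (nat_lit 573458) (nat_lit 9) (.e (nat_lit 420) (nat_lit 32) (.e (nat_lit 426260) (nat_lit 9) (.e (nat_lit 426353) (nat_lit 15) .nil)))))))) (.g (nat_lit 7) .nil .nil))) 
(.lf (nat_lit 85358) (.g (nat_lit 3004) (.e (nat_lit 1860) (nat_lit 124) (.e (nat_lit 557100) (nat_lit 13) (.e (nat_lit 172113) (nat_lit 10) (.e (nat_lit 434248) (nat_lit 28) (.e (nat_lit 573457) (nat_lit 9) (.e (nat_lit 430) (nat_lit 32) (.e (nat_lit 426190) (nat_lit 9) (.e (nat_lit 426354) (nat_lit 15) .nil)))))))) (.g (nat_lit 4) .nil .nil)))) (.nd (nat_lit 5) 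
(.lf (nat_lit 85342) (.g (nat_lit 2300) (.e (nat_lit 1860) (nat_lit 124) (.e (nat_lit 557100) (nat_lit 13) (.e (nat_lit 172113) (nat_lit 10) (.e (nat_lit 434247) (nat_lit 28) (.e (nat_lit 573457) (nat_lit 9) (.e (nat_lit 7936) (nat_lit 34) (.e (nat_lit 450304) (nat_lit 0) .nil))))))) (.g (nat_lit 5) .nil .nil))) 
(.lf (nat_lit 85374) (.g (nat_lit 2588) (.e (nat_lit 1860) (nat_lit 124) (.e (nat_lit 557100) (nat_lit 13) (.e (nat_lit 172124) (nat_lit 14) (.e (nat_lit 491540) (nat_lit 3) (.e (nat_lit 98369) (nat_lit 28) (.e (nat_lit 450304) (nat_lit 0) .nil)))))) (.g (nat_lit 5) .nil .nil)))))))) (.nd (nat_lit 1) (.nd (nat_lit 2) (.nd (nat_lit 3) (.nd (nat_lit 4) (.nd (nat_lit 5) 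
(.lf (nat_lit 85313) (.g (nat_lit 3140) (.e (nat_lit 1860) (nat_lit 124) (.e (nat_lit 557100) (nat_lit 13) (.e (nat_lit 172113) (nat_lit 10) (.e (nat_lit 434245) (nat_lit 28) (.e (nat_lit 573450) (nat_lit 9) (.e (nat_lit 479) (nat_lit 37) (.e (nat_lit 474880) (nat_lit 0) .nil))))))) (.g (nat_lit 6) .nil .nil))) 
(.lf (nat_lit 85345) (.g (nat_lit 1053) (.e (nat_lit 1860) (nat_lit 124) (.e (nat_lit 557100) (nat_lit 13) (.e (nat_lit 172113) (nat_lit 10) (.e (nat_lit 434248) (nat_lit 28) .nil)))) .nil))) (.nd (nat_lit 5) 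
(.lf (nat_lit 85329) (.g (nat_lit 3474) (.e (nat_lit 1860) (nat_lit 124) (.e (nat_lit 557100) (nat_lit 13) (.e (nat_lit 172113) (nat_lit 10) (.e (nat_lit 434245) (nat_lit 28) (.e (nat_lit 573458) (nat_lit 9) (.e (nat_lit 426) (nat_lit 32) (.e (nat_lit 426258) (nat_lit 9) (.e (nat_lit 426353) (nat_lit 15) .nil)))))))) (.g (nat_lit 6) .nil .nil))) 
(.lf (nat_lit 85361) (.g (nat_lit 2925) (.e (nat_lit 1860) (nat_lit 124) (.e (nat_lit 557100) (nat_lit 13) (.e (nat_lit 172119) (nat_lit 12) (.e (nat_lit 475185) (nat_lit 29) (.e (nat_lit 557109) (nat_lit 15) .nil))))) .nil)))) (.nd (nat_lit 4) (.nd (nat_lit 5) 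
(.lf (nat_lit 85321) (.g (nat_lit 1749) (.e (nat_lit 1860) (nat_lit 124) (.e (nat_lit 557100) (nat_lit 13) (.e (nat_lit 172113) (nat_lit 10) (.e (nat_lit 434245) (nat_lit 28) (.e (nat_lit 573458) (nat_lit 9) .nil))))) .nil)) 
(.lf (nat_lit 85353) (.g (nat_lit 3121) (.e (nat_lit 1860) (nat_lit 124) (.e (nat_lit 557100) (nat_lit 13) (.e (nat_lit 172113) (nat_lit 10) (.e (nat_lit 434248) (nat_lit 28) (.e (nat_lit 573452) (nat_lit 9) (.e (nat_lit 430) (nat_lit 32) (.e (nat_lit 426189) (nat_lit 9) (.e (nat_lit 433920) (nat_lit 15) .nil)))))))) (.g (nat_lit 7) .nil .nil)))) (.nd (nat_lit 5) 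
(.lf (nat_lit 85337) (.g (nat_lit 2976) (.e (nat_lit 1860) (nat_lit 124) (.e (nat_lit 557100) (nat_lit 13) (.e (nat_lit 172113) (nat_lit 10) (.e (nat_lit 434247) (nat_lit 28) (.e (nat_lit 573456) (nat_lit 9) (.e (nat_lit 430) (nat_lit 32) (.e (nat_lit 426189) (nat_lit 9) (.e (nat_lit 433920) (nat_lit 15) .nil)))))))) (.g (nat_lit 7) .nil .nil))) 
(.lf (nat_lit 85369) (.g (nat_lit 3374) (.e (nat_lit 1860) (nat_lit 124) (.e (nat_lit 557100) (nat_lit 13) (.e (nat_lit 172124) (nat_lit 14) (.e (nat_lit 491537) (nat_lit 2) (.e (nat_lit 90185) (nat_lit 17) (.e (nat_lit 237605) (nat_lit 9) (.e (nat_lit 426354) (nat_lit 15) .nil))))))) (.g (nat_lit 5) .nil .nil)))))) (.nd (nat_lit 3) (.nd (nat_lit 4) (.nd (nat_lit 5) 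
(.lf (nat_lit 85317) (.g (nat_lit 3125) (.e (nat_lit 1860) (nat_lit 124) (.e (nat_lit 557100) (nat_lit 13) (.e (nat_lit 172113) (nat_lit 10) (.e (nat_lit 434245) (nat_lit 28) (.e (nat_lit 573451) (nat_lit 9) (.e (nat_lit 430) (nat_lit 32) (.e (nat_lit 426189) (nat_lit 9) (.e (nat_lit 433920) (nat_lit 15) .nil)))))))) (.g (nat_lit 7) .nil .nil))) 
(.lf (nat_lit 85349) (.g (nat_lit 2932) (.e (nat_lit 1860) (nat_lit 124) (.e (nat_lit 557100) (nat_lit 13) (.e (nat_lit 172113) (nat_lit 10) (.e (nat_lit 434248) (nat_lit 28) (.e (nat_lit 573449) (nat_lit 9) (.e (nat_lit 481) (nat_lit 37) (.e (nat_lit 474880) (nat_lit 0) .nil))))))) (.g (nat_lit 6) .nil .nil)))) (.nd (nat_lit 5) 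
(.lf (nat_lit 85333) (.g (nat_lit 3532) (.e (nat_lit 1860) (nat_lit 124) (.e (nat_lit 557100) (nat_lit 13) (.e (nat_lit 172113) (nat_lit 10) (.e (nat_lit 434245) (nat_lit 28) (.e (nat_lit 573471) (nat_lit 11) (.e (nat_lit 16444) (nat_lit 9) (.e (nat_lit 426353) (nat_lit 15) .nil))))))) (.g (nat_lit 6) .nil .nil))) 
(.lf (nat_lit 85365) (.g (nat_lit 3371) (.e (nat_lit 1860) (nat_lit 124) (.e (nat_lit 557100) (nat_lit 13) (.e (nat_lit 172120) (nat_lit 12) (.e (nat_lit 475185) (nat_lit 29) (.e (nat_lit 557109) (nat_lit 15) (.e (nat_lit 196352) (nat_lit 0) .nil)))))) (.g (nat_lit 5) .nil .nil))))) (.nd (nat_lit 4) (.nd (nat_lit 5) 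
(.lf (nat_lit 85325) (.g (nat_lit 3143) (.e (nat_lit 1860) (nat_lit 124) (.e (nat_lit 557100) (nat_lit 13) (.e (nat_lit 172113) (nat_lit 10) (.e (nat_lit 434245) (nat_lit 28) (.e (nat_lit 573458) (nat_lit 9) (.e (nat_lit 420) (nat_lit 32) (.e (nat_lit 426259) (nat_lit 9) (.e (nat_lit 426353) (nat_lit 15) .nil)))))))) (.g (nat_lit 5) .nil .nil))) 
(.lf (nat_lit 85357) (.g (nat_lit 2145) (.e (nat_lit 1860) (nat_lit 124) (.e (nat_lit 557100) (nat_lit 13) (.e (nat_lit 172113) (nat_lit 10) (.e (nat_lit 434248) (nat_lit 28) (.e (nat_lit 573457) (nat_lit 9) .nil))))) .nil))) (.nd (nat_lit 5) 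
(.lf (nat_lit 85341) (.g (nat_lit 2999) (.e (nat_lit 1860) (nat_lit 124) (.e (nat_lit 557100) (nat_lit 13) (.e (nat_lit 172113) (nat_lit 10) (.e (nat_lit 434247) (nat_lit 28) (.e (nat_lit 573457) (nat_lit 9) (.e (nat_lit 430) (nat_lit 32) (.e (nat_lit 426190) (nat_lit 9) (.e (nat_lit 426361) (nat_lit 15) .nil)))))))) (.g (nat_lit 4) .nil .nil))) 
(.lf (nat_lit 85373) (.g (nat_lit 3845) (.e (nat_lit 1860) (nat_lit 124) (.e (nat_lit 557100) (nat_lit 13) (.e (nat_lit 172124) (nat_lit 14) (.e (nat_lit 491540) (nat_lit 3) (.e (nat_lit 98365) (nat_lit 26) (.e (nat_lit 426188) (nat_lit 9) (.e (nat_lit 426354) (nat_lit 15) .nil))))))) (.g (nat_lit 6) .nil .nil))))))) (.nd (nat_lit 2) (.nd (nat_lit 3) (.nd (nat_lit 4) (.nd (nat_lit 5) 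
(.lf (nat_lit 85315) (.g (nat_lit 3338) (.e (nat_lit 1860) (nat_lit 124) (.e (nat_lit 557100) (nat_lit 13) (.e (nat_lit 172113) (nat_lit 10) (.e (nat_lit 434245) (nat_lit 28) (.e (nat_lit 573451) (nat_lit 9) (.e (nat_lit 428) (nat_lit 32) (.e (nat_lit 426234) (nat_lit 9) (.e (nat_lit 426353) (nat_lit 15) .nil)))))))) (.g (nat_lit 5) .nil .nil))) 
(.lf (nat_lit 85347) (.g (nat_lit 2827) (.e (nat_lit 1860) (nat_lit 124) (.e (nat_lit 557100) (nat_lit 13) (.e (nat_lit 172113) (nat_lit 10) (.e (nat_lit 434248) (nat_lit 28) (.e (nat_lit 573449) (nat_lit 9) (.e (nat_lit 454) (nat_lit 34) (.e (nat_lit 450304) (nat_lit 0) .nil))))))) (.g (nat_lit 5) .nil .nil)))) (.nd (nat_lit 5) 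
(.lf (nat_lit 85331) (.g (nat_lit 2081) (.e (nat_lit 1860) (nat_lit 124) (.e (nat_lit 557100) (nat_lit 13) (.e (nat_lit 172113) (nat_lit 10) (.e (nat_lit 434245) (nat_lit 28) (.e (nat_lit 573464) (nat_lit 9) .nil))))) .nil)) 
(.lf (nat_lit 85363) (.g (nat_lit 2585) (.e (nat_lit 1860) (nat_lit 124) (.e (nat_lit 557100) (nat_lit 13) (.e (nat_lit 172120) (nat_lit 12) (.e (nat_lit 475184) (nat_lit 29) (.e (nat_lit 557109) (nat_lit 15) (.e (nat_lit 196352) (nat_lit 0) .nil)))))) (.g (nat_lit 4) .nil .nil))))) (.nd (nat_lit 4) (.nd (nat_lit 5) 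
(.lf (nat_lit 85323) (.g (nat_lit 3143) (.e (nat_lit 1860) (nat_lit 124) (.e (nat_lit 557100) (nat_lit 13) (.e (nat_lit 172113) (nat_lit 10) (.e (nat_lit 434245) (nat_lit 28) (.e (nat_lit 573458) (nat_lit 9) (.e (nat_lit 420) (nat_lit 32) (.e (nat_lit 426228) (nat_lit 9) (.e (nat_lit 426353) (nat_lit 15) .nil)))))))) (.g (nat_lit 5) .nil .nil))) 
(.lf (nat_lit 85355) (.g (nat_lit 2559) (.e (nat_lit 1860) (nat_lit 124) (.e (nat_lit 557100) (nat_lit 13) (.e (nat_lit 172113) (nat_lit 10) (.e (nat_lit 434248) (nat_lit 28) (.e (nat_lit 573452) (nat_lit 9) (.e (nat_lit 7936) (nat_lit 37) (.e (nat_lit 474880) (nat_lit 0) .nil))))))) (.g (nat_lit 5) .nil .nil)))) (.nd (nat_lit 5) 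
(.lf (nat_lit 85339) (.g (nat_lit 2599) (.e (nat_lit 1860) (nat_lit 124) (.e (nat_lit 557100) (nat_lit 13) (.e (nat_lit 172113) (nat_lit 10) (.e (nat_lit 434247) (nat_lit 28) (.e (nat_lit 573456) (nat_lit 9) (.e (nat_lit 7936) (nat_lit 34) (.e (nat_lit 450304) (nat_lit 0) .nil))))))) (.g (nat_lit 5) .nil .nil))) 
(.lf (nat_lit 85371) (.g (nat_lit 1907) (.e (nat_lit 1860) (nat_lit 124) (.e (nat_lit 557100) (nat_lit 13) (.e (nat_lit 172124) (nat_lit 14) (.e (nat_lit 491540) (nat_lit 3) (.e (nat_lit 98363) (nat_lit 26) .nil))))) .nil))))) (.nd (nat_lit 3) (.nd (nat_lit 4) (.nd (nat_lit 5) 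
(.lf (nat_lit 85319) (.g (nat_lit 2550) (.e (nat_lit 1860) (nat_lit 124) (.e (nat_lit 557100) (nat_lit 13) (.e (nat_lit 172113) (nat_lit 10) (.e (nat_lit 434245) (nat_lit 28) (.e (nat_lit 573451) (nat_lit 9) (.e (nat_lit 7936) (nat_lit 37) (.e (nat_lit 474880) (nat_lit 0) .nil))))))) (.g (nat_lit 5) .nil .nil))) 
(.lf (nat_lit 85351) (.g (nat_lit 3219) (.e (nat_lit 1860) (nat_lit 124) (.e (nat_lit 557100) (nat_lit 13) (.e (nat_lit 172113) (nat_lit 10) (.e (nat_lit 434248) (nat_lit 28) (.e (nat_lit 573452) (nat_lit 9) (.e (nat_lit 428) (nat_lit 32) (.e (nat_lit 426234) (nat_lit 9) (.e (nat_lit 426353) (nat_lit 15) .nil)))))))) (.g (nat_lit 5) .nil .nil)))) (.nd (nat_lit 5) 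
(.lf (nat_lit 85335) (.g (nat_lit 2711) (.e (nat_lit 1860) (nat_lit 124) (.e (nat_lit 557100) (nat_lit 13) (.e (nat_lit 172113) (nat_lit 10) (.e (nat_lit 434247) (nat_lit 28) (.e (nat_lit 573456) (nat_lit 9) (.e (nat_lit 430) (nat_lit 32) (.e (nat_lit 426187) (nat_lit 9) (.e (nat_lit 426354) (nat_lit 15) .nil)))))))) (.g (nat_lit 4) .nil .nil))) 
(.lf (nat_lit 85367) (.g (nat_lit 2659) (.e (nat_lit 1860) (nat_lit 124) (.e (nat_lit 557100) (nat_lit 13) (.e (nat_lit 172124) (nat_lit 14) (.e (nat_lit 491537) (nat_lit 2) (.e (nat_lit 90178) (nat_lit 15) (.e (nat_lit 196352) (nat_lit 0) .nil)))))) (.g (nat_lit 4) .nil .nil))))) (.nd (nat_lit 4) (.nd (nat_lit 5) 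
(.lf (nat_lit 85327) (.g (nat_lit 1955) (.e (nat_lit 1860) (nat_lit 124) (.e (nat_lit 557100) (nat_lit 13) (.e (nat_lit 172113) (nat_lit 10) (.e (nat_lit 434245) (nat_lit 28) (.e (nat_lit 573458) (nat_lit 9) (.e (nat_lit 426) (nat_lit 32) (.e (nat_lit 426188) (nat_lit 9) (.e (nat_lit 433920) (nat_lit 15) .nil)))))))) (.g (nat_lit 4) .nil .nil))) 
(.lf (nat_lit 85359) (.g (nat_lit 2697) (.e (nat_lit 1860) (nat_lit 124) (.e (nat_lit 557100) (nat_lit 13) (.e (nat_lit 172118) (nat_lit 12) (.e (nat_lit 475184) (nat_lit 29) (.e (nat_lit 557109) (nat_lit 15) (.e (nat_lit 196352) (nat_lit 0) .nil)))))) (.g (nat_lit 5) .nil .nil)))) (.nd (nat_lit 5) 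
(.lf (nat_lit 85343) (.g (nat_lit 2283) (.e (nat_lit 1860) (nat_lit 124) (.e (nat_lit 557100) (nat_lit 13) (.e (nat_lit 172113) (nat_lit 10) (.e (nat_lit 434247) (nat_lit 28) (.e (nat_lit 573457) (nat_lit 9) (.e (nat_lit 7936) (nat_lit 37) (.e (nat_lit 474880) (nat_lit 0) .nil))))))) (.g (nat_lit 5) .nil .nil))) 
(.lf (nat_lit 85375) (.g (nat_lit 2857) (.e (nat_lit 1860) (nat_lit 124) (.e (nat_lit 557100) (nat_lit 13) (.e (nat_lit 172124) (nat_lit 14) (.e (nat_lit 491540) (nat_lit 3) (.e (nat_lit 98370) (nat_lit 28) (.e (nat_lit 450304) (nat_lit 0) .nil)))))) (.g (nat_lit 5) .nil .nil)))))))))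

noncomputable def tv1158 : DT := (.nd (nat_lit 0) (.nd (nat_lit 1) (.nd (nat_lit 2) (.nd (nat_lit 3) (.nd (nat_lit 4) (.nd (nat_lit 5) 
(.lf (nat_lit 85376) (.g (nat_lit 2994) (.e (nat_lit 1860) (nat_lit 124) (.e (nat_lit 557100) (nat_lit 13) (.e (nat_lit 172124) (nat_lit 14) (.e (nat_lit 491540) (nat_lit 3) (.e (nat_lit 98371) (nat_lit 28) (.e (nat_lit 450304) (nat_lit 0) .nil)))))) (.g (nat_lit 5) .nil .nil))) 
(.lf (nat_lit 85408) (.g (nat_lit 2570) (.e (nat_lit 1860) (nat_lit 124) (.e (nat_lit 557100) (nat_lit 13) (.e (nat_lit 172126) (nat_lit 14) (.e (nat_lit 491540) (nat_lit 3) (.e (nat_lit 98382) (nat_lit 31) (.e (nat_lit 474880) (nat_lit 0) .nil)))))) (.g (nat_lit 4) .nil .nil)))) (.nd (nat_lit 5) 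
(.lf (nat_lit 85392) (.g (nat_lit 4890) (.e (nat_lit 1860) (nat_lit 124) (.e (nat_lit 557100) (nat_lit 13) (.e (nat_lit 172126) (nat_lit 14) (.e (nat_lit 491539) (nat_lit 3) (.e (nat_lit 98365) (nat_lit 26) (.e (nat_lit 426188) (nat_lit 9) (.e (nat_lit 426354) (nat_lit 15) .nil))))))) (.g (nat_lit 7) .nil .nil))) 
(.lf (nat_lit 85424) (.g (nat_lit 2877) (.e (nat_lit 1860) (nat_lit 124) (.e (nat_lit 557101) (nat_lit 13) (.e (nat_lit 172097) (nat_lit 9) (.e (nat_lit 426140) (nat_lit 3) (.e (nat_lit 204821) (nat_lit 17) (.e (nat_lit 6223) (nat_lit 334) (.e (nat_lit 123162) (nat_lit 256) (.e (nat_lit 5) (nat_lit 0) .nil)))))))) (.g (nat_lit 6) .nil .nil))))) (.nd (nat_lit 4) (.nd (nat_lit 5) 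
(.lf (nat_lit 85384) (.g (nat_lit 2903) (.e (nat_lit 1860) (nat_lit 124) (.e (nat_lit 557100) (nat_lit 13) (.e (nat_lit 172126) (nat_lit 14) (.e (nat_lit 491537) (nat_lit 2) (.e (nat_lit 90176) (nat_lit 15) (.e (nat_lit 196352) (nat_lit 0) .nil)))))) (.g (nat_lit 5) .nil .nil))) 
(.lf (nat_lit 85416) (.g (nat_lit 2934) (.e (nat_lit 1860) (nat_lit 124) (.e (nat_lit 557101) (nat_lit 13) (.e (nat_lit 172097) (nat_lit 9) (.e (nat_lit 426125) (nat_lit 2) (.e (nat_lit 196661) (nat_lit 12) (.e (nat_lit 65280) (nat_lit 208) (.e (nat_lit 245504) (nat_lit 15) .nil))))))) (.g (nat_lit 5) .nil .nil)))) (.nd (nat_lit 5) 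
(.lf (nat_lit 85400) (.g (nat_lit 2963) (.e (nat_lit 1860) (nat_lit 124) (.e (nat_lit 557100) (nat_lit 13) (.e (nat_lit 172126) (nat_lit 14) (.e (nat_lit 491540) (nat_lit 3) (.e (nat_lit 98363) (nat_lit 26) (.e (nat_lit 426230) (nat_lit 9) (.e (nat_lit 426353) (nat_lit 15) .nil))))))) (.g (nat_lit 4) .nil .nil))) 
(.lf (nat_lit 85432) (.g (nat_lit 2256) (.e (nat_lit 1860) (nat_lit 124) (.e (nat_lit 557101) (nat_lit 13) (.e (nat_lit 172097) (nat_lit 9) (.e (nat_lit 426140) (nat_lit 3) (.e (nat_lit 204883) (nat_lit 33) (.e (nat_lit 401437) (nat_lit 9) (.e (nat_lit 426354) (nat_lit 15) .nil))))))) (.g (nat_lit 5) .nil .nil)))))) (.nd (nat_lit 3) (.nd (nat_lit 4) (.nd (nat_lit 5) 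
(.lf (nat_lit 85380) (.g (nat_lit 2331) (.e (nat_lit 1860) (nat_lit 124) (.e (nat_lit 557100) (nat_lit 13) (.e (nat_lit 172124) (nat_lit 14) (.e (nat_lit 491540) (nat_lit 3) (.e (nat_lit 98382) (nat_lit 31) (.e (nat_lit 474880) (nat_lit 0) .nil)))))) (.g (nat_lit 4) .nil .nil))) 
(.lf (nat_lit 85412) (.g (nat_lit 3088) (.e (nat_lit 1860) (nat_lit 124) (.e (nat_lit 557101) (nat_lit 13) (.e (nat_lit 172097) (nat_lit 9) (.e (nat_lit 426125) (nat_lit 2) (.e (nat_lit 196661) (nat_lit 12) (.e (nat_lit 57722) (nat_lit 178) (.e (nat_lit 123162) (nat_lit 256) (.e (nat_lit 5) (nat_lit 0) .nil)))))))) (.g (nat_lit 6) .nil .nil)))) (.nd (nat_lit 5) 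
(.lf (nat_lit 85396) (.g (nat_lit 2622) (.e (nat_lit 1860) (nat_lit 124) (.e (nat_lit 557100) (nat_lit 13) (.e (nat_lit 172126) (nat_lit 14) (.e (nat_lit 491539) (nat_lit 3) (.e (nat_lit 98382) (nat_lit 31) (.e (nat_lit 474880) (nat_lit 0) .nil)))))) (.g (nat_lit 4) .nil .nil))) 
(.lf (nat_lit 85428) (.g (nat_lit 2066) (.e (nat_lit 1860) (nat_lit 124) (.e (nat_lit 557101) (nat_lit 13) (.e (nat_lit 172097) (nat_lit 9) (.e (nat_lit 426140) (nat_lit 3) (.e (nat_lit 204821) (nat_lit 17) (.e (nat_lit 6674) (nat_lit 357) (.e (nat_lit 2940) (nat_lit 184) (.e (nat_lit 433920) (nat_lit 15) .nil)))))))) (.g (nat_lit 4) .nil .nil))))) (.nd (nat_lit 4) (.nd (nat_lit 5) 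
(.lf (nat_lit 85388) (.g (nat_lit 3557) (.e (nat_lit 1860) (nat_lit 124) (.e (nat_lit 557100) (nat_lit 13) (.e (nat_lit 172126) (nat_lit 14) (.e (nat_lit 491537) (nat_lit 2) (.e (nat_lit 90185) (nat_lit 17) (.e (nat_lit 237604) (nat_lit 9) (.e (nat_lit 426354) (nat_lit 15) .nil))))))) (.g (nat_lit 5) .nil .nil))) 
(.lf (nat_lit 85420) (.g (nat_lit 1821) (.e (nat_lit 1860) (nat_lit 124) (.e (nat_lit 557101) (nat_lit 13) (.e (nat_lit 172097) (nat_lit 9) (.e (nat_lit 426125) (nat_lit 2) (.e (nat_lit 196666) (nat_lit 13) (.e (nat_lit 65574) (nat_lit 4) (.e (nat_lit 123197) (nat_lit 266) (.e (nat_lit 57349) (nat_lit 0) .nil)))))))) (.g (nat_lit 4) .nil .nil)))) (.nd (nat_lit 5) 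
(.lf (nat_lit 85404) (.g (nat_lit 2965) (.e (nat_lit 1860) (nat_lit 124) (.e (nat_lit 557100) (nat_lit 13) (.e (nat_lit 172126) (nat_lit 14) (.e (nat_lit 491540) (nat_lit 3) (.e (nat_lit 98371) (nat_lit 28) (.e (nat_lit 450304) (nat_lit 0) .nil)))))) (.g (nat_lit 5) .nil .nil))) 
(.lf (nat_lit 85436) (.g (nat_lit 2004) (.e (nat_lit 1860) (nat_lit 124) (.e (nat_lit 557101) (nat_lit 13) (.e (nat_lit 172115) (nat_lit 10) (.e (nat_lit 434227) (nat_lit 20) (.e (nat_lit 507930) (nat_lit 10) (.e (nat_lit 5770) (nat_lit 316) (.e (nat_lit 179968) (nat_lit 15) .nil))))))) (.g (nat_lit 5) .nil .nil))))))) (.nd (nat_lit 2) (.nd (nat_lit 3) (.nd (nat_lit 4) (.nd (nat_lit 5) 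
(.lf (nat_lit 85378) (.g (nat_lit 2561) (.e (nat_lit 1860) (nat_lit 124) (.e (nat_lit 557100) (nat_lit 13) (.e (nat_lit 172124) (nat_lit 14) (.e (nat_lit 491540) (nat_lit 3) (.e (nat_lit 98380) (nat_lit 31) (.e (nat_lit 474880) (nat_lit 0) .nil)))))) (.g (nat_lit 5) .nil .nil))) 
(.lf (nat_lit 85410) (.g (nat_lit 1898) (.e (nat_lit 1860) (nat_lit 124) (.e (nat_lit 557101) (nat_lit 13) (.e (nat_lit 172097) (nat_lit 9) (.e (nat_lit 426125) (nat_lit 2) (.e (nat_lit 196661) (nat_lit 12) (.e (nat_lit 57712) (nat_lit 176) (.e (nat_lit 1376) (nat_lit 104) (.e (nat_lit 311040) (nat_lit 15) .nil)))))))) (.g (nat_lit 4) .nil .nil)))) (.nd (nat_lit 5) 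
(.lf (nat_lit 85394) (.g (nat_lit 2412) (.e (nat_lit 1860) (nat_lit 124) (.e (nat_lit 557100) (nat_lit 13) (.e (nat_lit 172126) (nat_lit 14) (.e (nat_lit 491539) (nat_lit 3) (.e (nat_lit 98380) (nat_lit 31) (.e (nat_lit 474880) (nat_lit 0) .nil)))))) (.g (nat_lit 4) .nil .nil))) 
(.lf (nat_lit 85426) (.g (nat_lit 2179) (.e (nat_lit 1860) (nat_lit 124) (.e (nat_lit 557101) (nat_lit 13) (.e (nat_lit 172097) (nat_lit 9) (.e (nat_lit 426140) (nat_lit 3) (.e (nat_lit 204821) (nat_lit 17) (.e (nat_lit 6674) (nat_lit 357) (.e (nat_lit 2936) (nat_lit 184) (.e (nat_lit 433920) (nat_lit 15) .nil)))))))) (.g (nat_lit 4) .nil .nil))))) (.nd (nat_lit 4) (.nd (nat_lit 5) 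
(.lf (nat_lit 85386) (.g (nat_lit 1708) (.e (nat_lit 1860) (nat_lit 124) (.e (nat_lit 557100) (nat_lit 13) (.e (nat_lit 172126) (nat_lit 14) (.e (nat_lit 491537) (nat_lit 2) (.e (nat_lit 90185) (nat_lit 17) .nil))))) .nil)) 
(.lf (nat_lit 85418) (.g (nat_lit 2406) (.e (nat_lit 1860) (nat_lit 124) (.e (nat_lit 557101) (nat_lit 13) (.e (nat_lit 172097) (nat_lit 9) (.e (nat_lit 426125) (nat_lit 2) (.e (nat_lit 196666) (nat_lit 13) (.e (nat_lit 65574) (nat_lit 4) (.e (nat_lit 123195) (nat_lit 266) (.e (nat_lit 57345) (nat_lit 0) .nil)))))))) (.g (nat_lit 5) .nil .nil)))) (.nd (nat_lit 5) 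
(.lf (nat_lit 85402) (.g (nat_lit 2641) (.e (nat_lit 1860) (nat_lit 124) (.e (nat_lit 557100) (nat_lit 13) (.e (nat_lit 172126) (nat_lit 14) (.e (nat_lit 491540) (nat_lit 3) (.e (nat_lit 98369) (nat_lit 28) (.e (nat_lit 450304) (nat_lit 0) .nil)))))) (.g (nat_lit 5) .nil .nil))) 
(.lf (nat_lit 85434) (.g (nat_lit 1884) (.e (nat_lit 1860) (nat_lit 124) (.e (nat_lit 557101) (nat_lit 13) (.e (nat_lit 172115) (nat_lit 10) (.e (nat_lit 434227) (nat_lit 20) (.e (nat_lit 507929) (nat_lit 10) (.e (nat_lit 5768) (nat_lit 316) (.e (nat_lit 179968) (nat_lit 15) .nil))))))) (.g (nat_lit 4) .nil .nil)))))) (.nd (nat_lit 3) (.nd (nat_lit 4) (.nd (nat_lit 5) 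
(.lf (nat_lit 85382) (.g (nat_lit 1958) (.e (nat_lit 1860) (nat_lit 124) (.e (nat_lit 557100) (nat_lit 13) (.e (nat_lit 172126) (nat_lit 14) (.e (nat_lit 491536) (nat_lit 2) .nil)))) .nil)) 
(.lf (nat_lit 85414) (.g (nat_lit 2248) (.e (nat_lit 1860) (nat_lit 124) (.e (nat_lit 557101) (nat_lit 13) (.e (nat_lit 172097) (nat_lit 9) (.e (nat_lit 426125) (nat_lit 2) (.e (nat_lit 196661) (nat_lit 12) (.e (nat_lit 57722) (nat_lit 178) (.e (nat_lit 123166) (nat_lit 256) (.e (nat_lit 13) (nat_lit 0) .nil)))))))) (.g (nat_lit 4) .nil .nil)))) (.nd (nat_lit 5) 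
(.lf (nat_lit 85398) (.g (nat_lit 3463) (.e (nat_lit 1860) (nat_lit 124) (.e (nat_lit 557100) (nat_lit 13) (.e (nat_lit 172126) (nat_lit 14) (.e (nat_lit 491540) (nat_lit 3) (.e (nat_lit 98358) (nat_lit 26) (.e (nat_lit 426227) (nat_lit 9) (.e (nat_lit 433920) (nat_lit 15) .nil))))))) (.g (nat_lit 6) .nil .nil))) 
(.lf (nat_lit 85430) (.g (nat_lit 2212) (.e (nat_lit 1860) (nat_lit 124) (.e (nat_lit 557101) (nat_lit 13) (.e (nat_lit 172097) (nat_lit 9) (.e (nat_lit 426140) (nat_lit 3) (.e (nat_lit 204821) (nat_lit 17) (.e (nat_lit 7936) (nat_lit 361) (.e (nat_lit 179968) (nat_lit 15) .nil))))))) (.g (nat_lit 4) .nil .nil))))) (.nd (nat_lit 4) (.nd (nat_lit 5) 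
(.lf (nat_lit 85390) (.g (nat_lit 1687) (.e (nat_lit 1860) (nat_lit 124) (.e (nat_lit 557100) (nat_lit 13) (.e (nat_lit 172126) (nat_lit 14) (.e (nat_lit 491539) (nat_lit 3) .nil)))) .nil)) 
(.lf (nat_lit 85422) (.g (nat_lit 2179) (.e (nat_lit 1860) (nat_lit 124) (.e (nat_lit 557101) (nat_lit 13) (.e (nat_lit 172097) (nat_lit 9) (.e (nat_lit 426140) (nat_lit 3) (.e (nat_lit 204821) (nat_lit 17) (.e (nat_lit 6114) (nat_lit 332) (.e (nat_lit 1376) (nat_lit 104) (.e (nat_lit 311040) (nat_lit 15) .nil)))))))) (.g (nat_lit 4) .nil .nil)))) (.nd (nat_lit 5) 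
(.lf (nat_lit 85406) (.g (nat_lit 2636) (.e (nat_lit 1860) (nat_lit 124) (.e (nat_lit 557100) (nat_lit 13) (.e (nat_lit 172126) (nat_lit 14) (.e (nat_lit 491540) (nat_lit 3) (.e (nat_lit 98380) (nat_lit 31) (.e (nat_lit 474880) (nat_lit 0) .nil)))))) (.g (nat_lit 5) .nil .nil))) 
(.lf (nat_lit 85438) (.g (nat_lit 2603) (.e (nat_lit 1860) (nat_lit 124) (.e (nat_lit 557101) (nat_lit 13) (.e (nat_lit 172115) (nat_lit 10) (.e (nat_lit 434231) (nat_lit 23) (.e (nat_lit 532481) (nat_lit 0) (.e (nat_lit 6718) (nat_lit 361) (.e (nat_lit 179968) (nat_lit 15) .nil))))))) (.g (nat_lit 5) .nil .nil)))))))) 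
(.nd (nat_lit 1) (.nd (nat_lit 2) (.nd (nat_lit 3) (.nd (nat_lit 4) (.nd (nat_lit 5) 
(.lf (nat_lit 85377) (.g (nat_lit 2879) (.e (nat_lit 1860) (nat_lit 124) (.e (nat_lit 557100) (nat_lit 13) (.e (nat_lit 172124) (nat_lit 14) (.e (nat_lit 491540) (nat_lit 3) (.e (nat_lit 98379) (nat_lit 31) (.e (nat_lit 474880) (nat_lit 0) .nil)))))) (.g (nat_lit 5) .nil .nil))) 
(.lf (nat_lit 85409) (.g (nat_lit 1710) (.e (nat_lit 1860) (nat_lit 124) (.e (nat_lit 557101) (nat_lit 13) (.e (nat_lit 172097) (nat_lit 9) (.e (nat_lit 426125) (nat_lit 2) (.e (nat_lit 196661) (nat_lit 12) .nil))))) .nil))) (.nd (nat_lit 5) 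
(.lf (nat_lit 85393) (.g (nat_lit 2495) (.e (nat_lit 1860) (nat_lit 124) (.e (nat_lit 557100) (nat_lit 13) (.e (nat_lit 172126) (nat_lit 14) (.e (nat_lit 491539) (nat_lit 3) (.e (nat_lit 98371) (nat_lit 28) (.e (nat_lit 450304) (nat_lit 0) .nil)))))) (.g (nat_lit 4) .nil .nil))) 
(.lf (nat_lit 85425) (.g (nat_lit 2144) (.e (nat_lit 1860) (nat_lit 124) (.e (nat_lit 557101) (nat_lit 13) (.e (nat_lit 172097) (nat_lit 9) (.e (nat_lit 426140) (nat_lit 3) (.e (nat_lit 204821) (nat_lit 17) (.e (nat_lit 6223) (nat_lit 334) (.e (nat_lit 123166) (nat_lit 256) (.e (nat_lit 13) (nat_lit 0) .nil)))))))) (.g (nat_lit 4) .nil .nil))))) (.nd (nat_lit 4) (.nd (nat_lit 5) 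
(.lf (nat_lit 85385) (.g (nat_lit 3414) (.e (nat_lit 1860) (nat_lit 124) (.e (nat_lit 557100) (nat_lit 13) (.e (nat_lit 172126) (nat_lit 14) (.e (nat_lit 491537) (nat_lit 2) (.e (nat_lit 90178) (nat_lit 15) (.e (nat_lit 196352) (nat_lit 0) .nil)))))) (.g (nat_lit 5) .nil .nil))) 
(.lf (nat_lit 85417) (.g (nat_lit 2132) (.e (nat_lit 1860) (nat_lit 124) (.e (nat_lit 557101) (nat_lit 13) (.e (nat_lit 172097) (nat_lit 9) (.e (nat_lit 426125) (nat_lit 2) (.e (nat_lit 196666) (nat_lit 13) (.e (nat_lit 65572) (nat_lit 4) (.e (nat_lit 123197) (nat_lit 266) (.e (nat_lit 57349) (nat_lit 0) .nil)))))))) (.g (nat_lit 4) .nil .nil)))) (.nd (nat_lit 5) 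
(.lf (nat_lit 85401) (.g (nat_lit 4153) (.e (nat_lit 1860) (nat_lit 124) (.e (nat_lit 557100) (nat_lit 13) (.e (nat_lit 172126) (nat_lit 14) (.e (nat_lit 491540) (nat_lit 3) (.e (nat_lit 98365) (nat_lit 26) (.e (nat_lit 426188) (nat_lit 9) (.e (nat_lit 426354) (nat_lit 15) .nil))))))) (.g (nat_lit 7) .nil .nil))) 
(.lf (nat_lit 85433) (.g (nat_lit 1101) (.e (nat_lit 1860) (nat_lit 124) (.e (nat_lit 557101) (nat_lit 13) (.e (nat_lit 172115) (nat_lit 10) (.e (nat_lit 434227) (nat_lit 20) .nil)))) .nil))))) (.nd (nat_lit 3) (.nd (nat_lit 4) (.nd (nat_lit 5) 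
(.lf (nat_lit 85381) (.g (nat_lit 1721) (.e (nat_lit 1860) (nat_lit 124) (.e (nat_lit 557100) (nat_lit 13) (.e (nat_lit 172126) (nat_lit 14) (.e (nat_lit 491524) (nat_lit 0) .nil)))) .nil)) 
(.lf (nat_lit 85413) (.g (nat_lit 1951) (.e (nat_lit 1860) (nat_lit 124) (.e (nat_lit 557101) (nat_lit 13) (.e (nat_lit 172097) (nat_lit 9) (.e (nat_lit 426125) (nat_lit 2) (.e (nat_lit 196661) (nat_lit 12) (.e (nat_lit 57722) (nat_lit 178) (.e (nat_lit 123165) (nat_lit 256) (.e (nat_lit 7936) (nat_lit 0) .nil)))))))) (.g (nat_lit 4) .nil .nil)))) (.nd (nat_lit 5) 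
(.lf (nat_lit 85397) (.g (nat_lit 1220) (.e (nat_lit 1860) (nat_lit 124) (.e (nat_lit 557100) (nat_lit 13) (.e (nat_lit 172126) (nat_lit 14) (.e (nat_lit 491540) (nat_lit 3) .nil)))) .nil)) 
(.lf (nat_lit 85429) (.g (nat_lit 2056) (.e (nat_lit 1860) (nat_lit 124) (.e (nat_lit 557101) (nat_lit 13) (.e (nat_lit 172097) (nat_lit 9) (.e (nat_lit 426140) (nat_lit 3) (.e (nat_lit 204821) (nat_lit 17) (.e (nat_lit 6674) (nat_lit 357) (.e (nat_lit 2941) (nat_lit 184) (.e (nat_lit 433920) (nat_lit 15) .nil)))))))) (.g (nat_lit 4) .nil .nil))))) (.nd (nat_lit 4) (.nd (nat_lit 5) 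
(.lf (nat_lit 85389) (.g (nat_lit 1878) (.e (nat_lit 1860) (nat_lit 124) (.e (nat_lit 557100) (nat_lit 13) (.e (nat_lit 172126) (nat_lit 14) (.e (nat_lit 491538) (nat_lit 3) .nil)))) .nil)) 
(.lf (nat_lit 85421) (.g (nat_lit 1760) (.e (nat_lit 1860) (nat_lit 124) (.e (nat_lit 557101) (nat_lit 13) (.e (nat_lit 172097) (nat_lit 9) (.e (nat_lit 426140) (nat_lit 3) (.e (nat_lit 204821) (nat_lit 17) .nil))))) .nil))) (.nd (nat_lit 5) 
(.lf (nat_lit 85405) (.g (nat_lit 3114) (.e (nat_lit 1860) (nat_lit 124) (.e (nat_lit 557100) (nat_lit 13) (.e (nat_lit 172126) (nat_lit 14) (.e (nat_lit 491540) (nat_lit 3) (.e (nat_lit 98379) (nat_lit 31) (.e (nat_lit 474880) (nat_lit 0) .nil)))))) (.g (nat_lit 5) .nil .nil))) 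
(.lf (nat_lit 85437) (.g (nat_lit 1138) (.e (nat_lit 1860) (nat_lit 124) (.e (nat_lit 557101) (nat_lit 13) (.e (nat_lit 172115) (nat_lit 10) (.e (nat_lit 434231) (nat_lit 23) .nil)))) .nil)))))) (.nd (nat_lit 2) (.nd (nat_lit 3) (.nd (nat_lit 4) (.nd (nat_lit 5) 
(.lf (nat_lit 85379) (.g (nat_lit 2657) (.e (nat_lit 1860) (nat_lit 124) (.e (nat_lit 557100) (nat_lit 13) (.e (nat_lit 172124) (nat_lit 14) (.e (nat_lit 491540) (nat_lit 3) (.e (nat_lit 98381) (nat_lit 31) (.e (nat_lit 474880) (nat_lit 0) .nil)))))) (.g (nat_lit 5) .nil .nil))) 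
(.lf (nat_lit 85411) (.g (nat_lit 2234) (.e (nat_lit 1860) (nat_lit 124) (.e (nat_lit 557101) (nat_lit 13) (.e (nat_lit 172097) (nat_lit 9) (.e (nat_lit 426125) (nat_lit 2) (.e (nat_lit 196661) (nat_lit 12) (.e (nat_lit 57712) (nat_lit 176) (.e (nat_lit 1378) (nat_lit 104) (.e (nat_lit 311040) (nat_lit 15) .nil)))))))) (.g (nat_lit 4) .nil .nil)))) (.nd (nat_lit 5) 
(.lf (nat_lit 85395) (.g (nat_lit 2377) (.e (nat_lit 1860) (nat_lit 124) (.e (nat_lit 557100) (nat_lit 13) (.e (nat_lit 172126) (nat_lit 14) (.e (nat_lit 491539) (nat_lit 3) (.e (nat_lit 98381) (nat_lit 31) .nil))))) .nil)) 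
(.lf (nat_lit 85427) (.g (nat_lit 2337) (.e (nat_lit 1860) (nat_lit 124) (.e (nat_lit 557101) (nat_lit 13) (.e (nat_lit 172097) (nat_lit 9) (.e (nat_lit 426140) (nat_lit 3) (.e (nat_lit 204821) (nat_lit 17) (.e (nat_lit 6674) (nat_lit 357) (.e (nat_lit 2940) (nat_lit 184) (.e (nat_lit 426353) (nat_lit 15) .nil)))))))) (.g (nat_lit 4) .nil .nil))))) (.nd (nat_lit 4) (.nd (nat_lit 5) 
(.lf (nat_lit 85387) (.g (nat_lit 2319) (.e (nat_lit 1860) (nat_lit 124) (.e (nat_lit 557100) (nat_lit 13) (.e (nat_lit 172126) (nat_lit 14) (.e (nat_lit 491537) (nat_lit 2) (.e (nat_lit 90185) (nat_lit 17) (.e (nat_lit 237603) (nat_lit 9) (.e (nat_lit 426354) (nat_lit 15) .nil))))))) (.g (nat_lit 4) .nil .nil))) 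
(.lf (nat_lit 85419) (.g (nat_lit 2238) (.e (nat_lit 1860) (nat_lit 124) (.e (nat_lit 557101) (nat_lit 13) (.e (nat_lit 172097) (nat_lit 9) (.e (nat_lit 426125) (nat_lit 2) (.e (nat_lit 196666) (nat_lit 13) (.e (nat_lit 65574) (nat_lit 4) (.e (nat_lit 123197) (nat_lit 266) (.e (nat_lit 57345) (nat_lit 0) .nil)))))))) (.g (nat_lit 4) .nil .nil)))) (.nd (nat_lit 5) 
(.lf (nat_lit 85403) (.g (nat_lit 2977) (.e (nat_lit 1860) (nat_lit 124) (.e (nat_lit 557100) (nat_lit 13) (.e (nat_lit 172126) (nat_lit 14) (.e (nat_lit 491540) (nat_lit 3) (.e (nat_lit 98370) (nat_lit 28) (.e (nat_lit 450304) (nat_lit 0) .nil)))))) (.g (nat_lit 5) .nil .nil))) 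
(.lf (nat_lit 85435) (.g (nat_lit 1892) (.e (nat_lit 1860) (nat_lit 124) (.e (nat_lit 557101) (nat_lit 13) (.e (nat_lit 172115) (nat_lit 10) (.e (nat_lit 434227) (nat_lit 20) (.e (nat_lit 507930) (nat_lit 10) (.e (nat_lit 5768) (nat_lit 316) (.e (nat_lit 179968) (nat_lit 15) .nil))))))) (.g (nat_lit 4) .nil .nil)))))) (.nd (nat_lit 3) (.nd (nat_lit 4) (.nd (nat_lit 5) 
(.lf (nat_lit 85383) (.g (nat_lit 2465) (.e (nat_lit 1860) (nat_lit 124) (.e (nat_lit 557100) (nat_lit 13) (.e (nat_lit 172126) (nat_lit 14) (.e (nat_lit 491537) (nat_lit 2) (.e (nat_lit 90133) (nat_lit 9) .nil))))) .nil)) 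
(.lf (nat_lit 85415) (.g (nat_lit 2424) (.e (nat_lit 1860) (nat_lit 124) (.e (nat_lit 557101) (nat_lit 13) (.e (nat_lit 172097) (nat_lit 9) (.e (nat_lit 426125) (nat_lit 2) (.e (nat_lit 196661) (nat_lit 12) (.e (nat_lit 65280) (nat_lit 205) (.e (nat_lit 179968) (nat_lit 15) .nil))))))) (.g (nat_lit 4) .nil .nil)))) (.nd (nat_lit 5) 
(.lf (nat_lit 85399) (.g (nat_lit 2487) (.e (nat_lit 1860) (nat_lit 124) (.e (nat_lit 557100) (nat_lit 13) (.e (nat_lit 172126) (nat_lit 14) (.e (nat_lit 491540) (nat_lit 3) (.e (nat_lit 98363) (nat_lit 26) (.e (nat_lit 426228) (nat_lit 9) (.e (nat_lit 426353) (nat_lit 15) .nil))))))) (.g (nat_lit 4) .nil .nil))) 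
(.lf (nat_lit 85431) (.g (nat_lit 2722) (.e (nat_lit 1860) (nat_lit 124) (.e (nat_lit 557101) (nat_lit 13) (.e (nat_lit 172097) (nat_lit 9) (.e (nat_lit 426140) (nat_lit 3) (.e (nat_lit 204821) (nat_lit 17) (.e (nat_lit 7936) (nat_lit 364) (.e (nat_lit 245504) (nat_lit 15) .nil))))))) (.g (nat_lit 5) .nil .nil))))) (.nd (nat_lit 4) (.nd (nat_lit 5) 
(.lf (nat_lit 85391) (.g (nat_lit 4172) (.e (nat_lit 1860) (nat_lit 124) (.e (nat_lit 557100) (nat_lit 13) (.e (nat_lit 172126) (nat_lit 14) (.e (nat_lit 491539) (nat_lit 3) (.e (nat_lit 98365) (nat_lit 26) (.e (nat_lit 426187) (nat_lit 9) (.e (nat_lit 426354) (nat_lit 15) .nil))))))) (.g (nat_lit 6) .nil .nil))) 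
(.lf (nat_lit 85423) (.g (nat_lit 2501) (.e (nat_lit 1860) (nat_lit 124) (.e (nat_lit 557101) (nat_lit 13) (.e (nat_lit 172097) (nat_lit 9) (.e (nat_lit 426140) (nat_lit 3) (.e (nat_lit 204821) (nat_lit 17) (.e (nat_lit 6114) (nat_lit 332) (.e (nat_lit 1378) (nat_lit 104) (.e (nat_lit 311040) (nat_lit 15) .nil)))))))) (.g (nat_lit 4) .nil .nil)))) (.nd (nat_lit 5) 
(.lf (nat_lit 85407) (.g (nat_lit 2776) (.e (nat_lit 1860) (nat_lit 124) (.e (nat_lit 557100) (nat_lit 13) (.e (nat_lit 172126) (nat_lit 14) (.e (nat_lit 491540) (nat_lit 3) (.e (nat_lit 98381) (nat_lit 31) (.e (nat_lit 474880) (nat_lit 0) .nil)))))) (.g (nat_lit 5) .nil .nil))) 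
(.lf (nat_lit 85439) (.g (nat_lit 2301) (.e (nat_lit 1860) (nat_lit 124) (.e (nat_lit 557101) (nat_lit 13) (.e (nat_lit 172115) (nat_lit 10) (.e (nat_lit 434231) (nat_lit 23) (.e (nat_lit 532481) (nat_lit 0) (.e (nat_lit 6735) (nat_lit 364) (.e (nat_lit 245504) (nat_lit 15) .nil))))))) (.g (nat_lit 4) .nil .nil)))))))))

noncomputable def tv1159 : DT := (.nd (nat_lit 0) (.nd (nat_lit 1) (.nd (nat_lit 2) (.nd (nat_lit 3) (.nd (nat_lit 4) (.nd (nat_lit 5) 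
(.lf (nat_lit 85440) (.g (nat_lit 2309) (.e (nat_lit 1860) (nat_lit 124) (.e (nat_lit 557101) (nat_lit 13) (.e (nat_lit 172115) (nat_lit 10) (.e (nat_lit 434231) (nat_lit 23) (.e (nat_lit 532482) (nat_lit 0) (.e (nat_lit 6718) (nat_lit 361) (.e (nat_lit 179968) (nat_lit 15) .nil))))))) (.g (nat_lit 4) .nil .nil))) 
(.lf (nat_lit 85472) (.g (nat_lit 2545) (.e (nat_lit 1860) (nat_lit 124) (.e (nat_lit 557101) (nat_lit 13) (.e (nat_lit 172115) (nat_lit 10) (.e (nat_lit 434244) (nat_lit 28) (.e (nat_lit 573471) (nat_lit 11) (.e (nat_lit 16439) (nat_lit 9) (.e (nat_lit 433920) (nat_lit 15) .nil))))))) (.g (nat_lit 5) .nil .nil)))) (.nd (nat_lit 5) 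
(.lf (nat_lit 85456) (.g (nat_lit 1932) (.e (nat_lit 1860) (nat_lit 124) (.e (nat_lit 557101) (nat_lit 13) (.e (nat_lit 172115) (nat_lit 10) (.e (nat_lit 434238) (nat_lit 25) (.e (nat_lit 548894) (nat_lit 14) .nil))))) .nil)) 
(.lf (nat_lit 85488) (.g (nat_lit 2245) (.e (nat_lit 1860) (nat_lit 124) (.e (nat_lit 557101) (nat_lit 13) (.e (nat_lit 172124) (nat_lit 14) (.e (nat_lit 491540) (nat_lit 3) (.e (nat_lit 98381) (nat_lit 31) (.e (nat_lit 474880) (nat_lit 0) .nil)))))) (.g (nat_lit 5) .nil .nil))))) (.nd (nat_lit 4) (.nd (nat_lit 5) 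
(.lf (nat_lit 85448) (.g (nat_lit 2527) (.e (nat_lit 1860) (nat_lit 124) (.e (nat_lit 557101) (nat_lit 13) (.e (nat_lit 172115) (nat_lit 10) (.e (nat_lit 434231) (nat_lit 23) (.e (nat_lit 532490) (nat_lit 0) (.e (nat_lit 7936) (nat_lit 361) (.e (nat_lit 179968) (nat_lit 15) .nil))))))) (.g (nat_lit 4) .nil .nil))) 
(.lf (nat_lit 85480) (.g (nat_lit 3086) (.e (nat_lit 1860) (nat_lit 124) (.e (nat_lit 557101) (nat_lit 13) (.e (nat_lit 172124) (nat_lit 14) (.e (nat_lit 491537) (nat_lit 2) (.e (nat_lit 90185) (nat_lit 17) (.e (nat_lit 237601) (nat_lit 9) (.e (nat_lit 426354) (nat_lit 15) .nil))))))) (.g (nat_lit 6) .nil .nil)))) (.nd (nat_lit 5) 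
(.lf (nat_lit 85464) (.g (nat_lit 2035) (.e (nat_lit 1860) (nat_lit 124) (.e (nat_lit 557101) (nat_lit 13) (.e (nat_lit 172115) (nat_lit 10) (.e (nat_lit 434238) (nat_lit 25) (.e (nat_lit 548917) (nat_lit 22) .nil))))) .nil)) 
(.lf (nat_lit 85496) (.g (nat_lit 1803) (.e (nat_lit 1860) (nat_lit 124) (.e (nat_lit 557101) (nat_lit 13) (.e (nat_lit 172126) (nat_lit 14) (.e (nat_lit 491540) (nat_lit 3) (.e (nat_lit 98370) (nat_lit 28) (.e (nat_lit 450304) (nat_lit 0) .nil)))))) (.g (nat_lit 5) .nil .nil)))))) (.nd (nat_lit 3) (.nd (nat_lit 4) (.nd (nat_lit 5) 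
(.lf (nat_lit 85444) (.g (nat_lit 2141) (.e (nat_lit 1860) (nat_lit 124) (.e (nat_lit 557101) (nat_lit 13) (.e (nat_lit 172115) (nat_lit 10) (.e (nat_lit 434231) (nat_lit 23) (.e (nat_lit 532490) (nat_lit 0) (.e (nat_lit 6206) (nat_lit 333) (.e (nat_lit 57865) (nat_lit 256) (.e (nat_lit 7936) (nat_lit 0) .nil)))))))) (.g (nat_lit 4) .nil .nil))) 
(.lf (nat_lit 85476) (.g (nat_lit 1988) (.e (nat_lit 1860) (nat_lit 124) (.e (nat_lit 557101) (nat_lit 13) (.e (nat_lit 172115) (nat_lit 10) (.e (nat_lit 434246) (nat_lit 28) (.e (nat_lit 573471) (nat_lit 11) .nil))))) .nil))) (.nd (nat_lit 5) 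
(.lf (nat_lit 85460) (.g (nat_lit 1877) (.e (nat_lit 1860) (nat_lit 124) (.e (nat_lit 557101) (nat_lit 13) (.e (nat_lit 172115) (nat_lit 10) (.e (nat_lit 434238) (nat_lit 25) (.e (nat_lit 548913) (nat_lit 18) .nil))))) .nil)) 
(.lf (nat_lit 85492) (.g (nat_lit 961) (.e (nat_lit 1860) (nat_lit 124) (.e (nat_lit 557101) (nat_lit 13) (.e (nat_lit 172126) (nat_lit 14) (.e (nat_lit 491539) (nat_lit 3) .nil)))) .nil)))) (.nd (nat_lit 4) (.nd (nat_lit 5) 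
(.lf (nat_lit 85452) (.g (nat_lit 4219) (.e (nat_lit 1860) (nat_lit 124) (.e (nat_lit 557101) (nat_lit 13) (.e (nat_lit 172115) (nat_lit 10) (.e (nat_lit 434231) (nat_lit 23) (.e (nat_lit 532569) (nat_lit 16) (.e (nat_lit 401435) (nat_lit 9) (.e (nat_lit 426354) (nat_lit 15) .nil))))))) (.g (nat_lit 6) .nil .nil))) 
(.lf (nat_lit 85484) (.g (nat_lit 2352) (.e (nat_lit 1860) (nat_lit 124) (.e (nat_lit 557101) (nat_lit 13) (.e (nat_lit 172124) (nat_lit 14) (.e (nat_lit 491540) (nat_lit 3) (.e (nat_lit 98370) (nat_lit 28) (.e (nat_lit 450304) (nat_lit 0) .nil)))))) (.g (nat_lit 5) .nil .nil)))) (.nd (nat_lit 5) 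
(.lf (nat_lit 85468) (.g (nat_lit 3008) (.e (nat_lit 1860) (nat_lit 124) (.e (nat_lit 557101) (nat_lit 13) (.e (nat_lit 172115) (nat_lit 10) (.e (nat_lit 434244) (nat_lit 28) (.e (nat_lit 573471) (nat_lit 11) (.e (nat_lit 16432) (nat_lit 9) (.e (nat_lit 426361) (nat_lit 15) .nil))))))) (.g (nat_lit 5) .nil .nil))) 
(.lf (nat_lit 85500) (.g (nat_lit 1655) (.e (nat_lit 1860) (nat_lit 124) (.e (nat_lit 557101) (nat_lit 13) (.e (nat_lit 172126) (nat_lit 14) (.e (nat_lit 491540) (nat_lit 3) (.e (nat_lit 98381) (nat_lit 31) (.e (nat_lit 474880) (nat_lit 0) .nil)))))) (.g (nat_lit 4) .nil .nil))))))) (.nd (nat_lit 2) (.nd (nat_lit 3) (.nd (nat_lit 4) (.nd (nat_lit 5) 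
(.lf (nat_lit 85442) (.g (nat_lit 3269) (.e (nat_lit 1860) (nat_lit 124) (.e (nat_lit 557101) (nat_lit 13) (.e (nat_lit 172115) (nat_lit 10) (.e (nat_lit 434231) (nat_lit 23) (.e (nat_lit 532490) (nat_lit 0) (.e (nat_lit 6114) (nat_lit 332) (.e (nat_lit 1376) (nat_lit 104) (.e (nat_lit 311040) (nat_lit 15) .nil)))))))) (.g (nat_lit 5) .nil .nil))) 
(.lf (nat_lit 85474) (.g (nat_lit 3645) (.e (nat_lit 1860) (nat_lit 124) (.e (nat_lit 557101) (nat_lit 13) (.e (nat_lit 172115) (nat_lit 10) (.e (nat_lit 434244) (nat_lit 28) (.e (nat_lit 573471) (nat_lit 11) (.e (nat_lit 16444) (nat_lit 9) (.e (nat_lit 426349) (nat_lit 15) .nil))))))) (.g (nat_lit 6) .nil .nil)))) (.nd (nat_lit 5) 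
(.lf (nat_lit 85458) (.g (nat_lit 2501) (.e (nat_lit 1860) (nat_lit 124) (.e (nat_lit 557101) (nat_lit 13) (.e (nat_lit 172115) (nat_lit 10) (.e (nat_lit 434238) (nat_lit 25) (.e (nat_lit 548896) (nat_lit 14) (.e (nat_lit 2982) (nat_lit 186) (.e (nat_lit 450304) (nat_lit 0) .nil))))))) (.g (nat_lit 4) .nil .nil))) 
(.lf (nat_lit 85490) (.g (nat_lit 1865) (.e (nat_lit 1860) (nat_lit 124) (.e (nat_lit 557101) (nat_lit 13) (.e (nat_lit 172126) (nat_lit 14) (.e (nat_lit 491537) (nat_lit 2) (.e (nat_lit 90176) (nat_lit 15) (.e (nat_lit 196352) (nat_lit 0) .nil)))))) (.g (nat_lit 4) .nil .nil))))) (.nd (nat_lit 4) (.nd (nat_lit 5) 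
(.lf (nat_lit 85450) (.g (nat_lit 2805) (.e (nat_lit 1860) (nat_lit 124) (.e (nat_lit 557101) (nat_lit 13) (.e (nat_lit 172115) (nat_lit 10) (.e (nat_lit 434231) (nat_lit 23) (.e (nat_lit 532568) (nat_lit 16) (.e (nat_lit 401437) (nat_lit 9) (.e (nat_lit 426354) (nat_lit 15) .nil))))))) (.g (nat_lit 5) .nil .nil))) 
(.lf (nat_lit 85482) (.g (nat_lit 1959) (.e (nat_lit 1860) (nat_lit 124) (.e (nat_lit 557101) (nat_lit 13) (.e (nat_lit 172124) (nat_lit 14) (.e (nat_lit 491540) (nat_lit 3) (.e (nat_lit 98363) (nat_lit 26) (.e (nat_lit 426230) (nat_lit 9) (.e (nat_lit 426353) (nat_lit 15) .nil))))))) (.g (nat_lit 4) .nil .nil)))) (.nd (nat_lit 5) 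
(.lf (nat_lit 85466) (.g (nat_lit 3933) (.e (nat_lit 1860) (nat_lit 124) (.e (nat_lit 557101) (nat_lit 13) (.e (nat_lit 172115) (nat_lit 10) (.e (nat_lit 434244) (nat_lit 28) (.e (nat_lit 573469) (nat_lit 11) (.e (nat_lit 16436) (nat_lit 9) (.e (nat_lit 426354) (nat_lit 15) .nil))))))) (.g (nat_lit 7) .nil .nil))) 
(.lf (nat_lit 85498) (.g (nat_lit 2013) (.e (nat_lit 1860) (nat_lit 124) (.e (nat_lit 557101) (nat_lit 13) (.e (nat_lit 172126) (nat_lit 14) (.e (nat_lit 491540) (nat_lit 3) (.e (nat_lit 98379) (nat_lit 31) (.e (nat_lit 474880) (nat_lit 0) .nil)))))) (.g (nat_lit 4) .nil .nil)))))) (.nd (nat_lit 3) (.nd (nat_lit 4) (.nd (nat_lit 5) 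
(.lf (nat_lit 85446) (.g (nat_lit 2169) (.e (nat_lit 1860) (nat_lit 124) (.e (nat_lit 557101) (nat_lit 13) (.e (nat_lit 172115) (nat_lit 10) (.e (nat_lit 434231) (nat_lit 23) (.e (nat_lit 532490) (nat_lit 0) (.e (nat_lit 6223) (nat_lit 334) (.e (nat_lit 123165) (nat_lit 256) (.e (nat_lit 7936) (nat_lit 0) .nil)))))))) (.g (nat_lit 4) .nil .nil))) 
(.lf (nat_lit 85478) (.g (nat_lit 1700) (.e (nat_lit 1860) (nat_lit 124) (.e (nat_lit 557101) (nat_lit 13) (.e (nat_lit 172124) (nat_lit 14) (.e (nat_lit 491537) (nat_lit 2) (.e (nat_lit 90176) (nat_lit 15) (.e (nat_lit 196352) (nat_lit 0) .nil)))))) (.g (nat_lit 4) .nil .nil)))) (.nd (nat_lit 5) 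
(.lf (nat_lit 85462) (.g (nat_lit 2393) (.e (nat_lit 1860) (nat_lit 124) (.e (nat_lit 557101) (nat_lit 13) (.e (nat_lit 172115) (nat_lit 10) (.e (nat_lit 434238) (nat_lit 25) (.e (nat_lit 548915) (nat_lit 20) (.e (nat_lit 196352) (nat_lit 0) .nil)))))) (.g (nat_lit 4) .nil .nil))) 
(.lf (nat_lit 85494) (.g (nat_lit 1476) (.e (nat_lit 1860) (nat_lit 124) (.e (nat_lit 557101) (nat_lit 13) (.e (nat_lit 172126) (nat_lit 14) (.e (nat_lit 491540) (nat_lit 3) (.e (nat_lit 98363) (nat_lit 26) (.e (nat_lit 426230) (nat_lit 9) (.e (nat_lit 426353) (nat_lit 15) .nil))))))) (.g (nat_lit 4) .nil .nil))))) (.nd (nat_lit 4) (.nd (nat_lit 5) 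
(.lf (nat_lit 85454) (.g (nat_lit 4162) (.e (nat_lit 1860) (nat_lit 124) (.e (nat_lit 557101) (nat_lit 13) (.e (nat_lit 172115) (nat_lit 10) (.e (nat_lit 434231) (nat_lit 23) (.e (nat_lit 532569) (nat_lit 16) (.e (nat_lit 401444) (nat_lit 9) (.e (nat_lit 426353) (nat_lit 15) .nil))))))) (.g (nat_lit 0) .nil .nil))) 
(.lf (nat_lit 85486) (.g (nat_lit 2419) (.e (nat_lit 1860) (nat_lit 124) (.e (nat_lit 557101) (nat_lit 13) (.e (nat_lit 172124) (nat_lit 14) (.e (nat_lit 491540) (nat_lit 3) (.e (nat_lit 98379) (nat_lit 31) (.e (nat_lit 474880) (nat_lit 0) .nil)))))) (.g (nat_lit 4) .nil .nil)))) (.nd (nat_lit 5) 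
(.lf (nat_lit 85470) (.g (nat_lit 4590) (.e (nat_lit 1860) (nat_lit 124) (.e (nat_lit 557101) (nat_lit 13) (.e (nat_lit 172115) (nat_lit 10) (.e (nat_lit 434244) (nat_lit 28) (.e (nat_lit 573471) (nat_lit 11) (.e (nat_lit 16434) (nat_lit 9) (.e (nat_lit 426354) (nat_lit 15) .nil))))))) (.g (nat_lit 0) .nil .nil))) 
(.lf (nat_lit 85502) (.g (nat_lit 2373) (.e (nat_lit 1860) (nat_lit 124) (.e (nat_lit 557103) (nat_lit 14) (.e (nat_lit 180276) (nat_lit 32) (.e (nat_lit 1074) (nat_lit 81) (.e (nat_lit 1796) (nat_lit 119) (.e (nat_lit 516175) (nat_lit 14) (.e (nat_lit 474880) (nat_lit 0) .nil))))))) (.g (nat_lit 6) .nil .nil)))))))) 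
(.nd (nat_lit 1) (.nd (nat_lit 2) (.nd (nat_lit 3) (.nd (nat_lit 4) (.nd (nat_lit 5) 
(.lf (nat_lit 85441) (.g (nat_lit 1873) (.e (nat_lit 1860) (nat_lit 124) (.e (nat_lit 557101) (nat_lit 13) (.e (nat_lit 172115) (nat_lit 10) (.e (nat_lit 434231) (nat_lit 23) (.e (nat_lit 532490) (nat_lit 0) .nil))))) .nil)) 
(.lf (nat_lit 85473) (.g (nat_lit 2721) (.e (nat_lit 1860) (nat_lit 124) (.e (nat_lit 557101) (nat_lit 13) (.e (nat_lit 172115) (nat_lit 10) (.e (nat_lit 434244) (nat_lit 28) (.e (nat_lit 573471) (nat_lit 11) (.e (nat_lit 16440) (nat_lit 9) (.e (nat_lit 433920) (nat_lit 15) .nil))))))) (.g (nat_lit 5) .nil .nil)))) (.nd (nat_lit 5) 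
(.lf (nat_lit 85457) (.g (nat_lit 2411) (.e (nat_lit 1860) (nat_lit 124) (.e (nat_lit 557101) (nat_lit 13) (.e (nat_lit 172115) (nat_lit 10) (.e (nat_lit 434238) (nat_lit 25) (.e (nat_lit 548894) (nat_lit 14) (.e (nat_lit 3048) (nat_lit 189) (.e (nat_lit 474880) (nat_lit 0) .nil))))))) (.g (nat_lit 4) .nil .nil))) 
(.lf (nat_lit 85489) (.g (nat_lit 1776) (.e (nat_lit 1860) (nat_lit 124) (.e (nat_lit 557101) (nat_lit 13) (.e (nat_lit 172124) (nat_lit 14) (.e (nat_lit 491540) (nat_lit 3) (.e (nat_lit 98382) (nat_lit 31) (.e (nat_lit 474880) (nat_lit 0) .nil)))))) (.g (nat_lit 4) .nil .nil))))) (.nd (nat_lit 4) (.nd (nat_lit 5) 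
(.lf (nat_lit 85449) (.g (nat_lit 3037) (.e (nat_lit 1860) (nat_lit 124) (.e (nat_lit 557101) (nat_lit 13) (.e (nat_lit 172115) (nat_lit 10) (.e (nat_lit 434231) (nat_lit 23) (.e (nat_lit 532490) (nat_lit 0) (.e (nat_lit 7936) (nat_lit 364) (.e (nat_lit 245504) (nat_lit 15) .nil))))))) (.g (nat_lit 5) .nil .nil))) 
(.lf (nat_lit 85481) (.g (nat_lit 2598) (.e (nat_lit 1860) (nat_lit 124) (.e (nat_lit 557101) (nat_lit 13) (.e (nat_lit 172124) (nat_lit 14) (.e (nat_lit 491540) (nat_lit 3) (.e (nat_lit 98358) (nat_lit 26) (.e (nat_lit 426227) (nat_lit 9) (.e (nat_lit 433920) (nat_lit 15) .nil))))))) (.g (nat_lit 5) .nil .nil)))) (.nd (nat_lit 5) 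
(.lf (nat_lit 85465) (.g (nat_lit 4242) (.e (nat_lit 1860) (nat_lit 124) (.e (nat_lit 557101) (nat_lit 13) (.e (nat_lit 172115) (nat_lit 10) (.e (nat_lit 434244) (nat_lit 28) (.e (nat_lit 573469) (nat_lit 11) (.e (nat_lit 16433) (nat_lit 9) (.e (nat_lit 426354) (nat_lit 15) .nil))))))) (.g (nat_lit 6) .nil .nil))) 
(.lf (nat_lit 85497) (.g (nat_lit 2255) (.e (nat_lit 1860) (nat_lit 124) (.e (nat_lit 557101) (nat_lit 13) (.e (nat_lit 172126) (nat_lit 14) (.e (nat_lit 491540) (nat_lit 3) (.e (nat_lit 98371) (nat_lit 28) (.e (nat_lit 450304) (nat_lit 0) .nil)))))) (.g (nat_lit 5) .nil .nil)))))) (.nd (nat_lit 3) (.nd (nat_lit 4) (.nd (nat_lit 5) 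
(.lf (nat_lit 85445) (.g (nat_lit 3240) (.e (nat_lit 1860) (nat_lit 124) (.e (nat_lit 557101) (nat_lit 13) (.e (nat_lit 172115) (nat_lit 10) (.e (nat_lit 434231) (nat_lit 23) (.e (nat_lit 532490) (nat_lit 0) (.e (nat_lit 6223) (nat_lit 334) (.e (nat_lit 123162) (nat_lit 256) (.e (nat_lit 5) (nat_lit 0) .nil)))))))) (.g (nat_lit 6) .nil .nil))) 
(.lf (nat_lit 85477) (.g (nat_lit 1784) (.e (nat_lit 1860) (nat_lit 124) (.e (nat_lit 557101) (nat_lit 13) (.e (nat_lit 172119) (nat_lit 12) (.e (nat_lit 475184) (nat_lit 29) (.e (nat_lit 557109) (nat_lit 15) (.e (nat_lit 196352) (nat_lit 0) .nil)))))) (.g (nat_lit 4) .nil .nil)))) (.nd (nat_lit 5) 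
(.lf (nat_lit 85461) (.g (nat_lit 3786) (.e (nat_lit 1860) (nat_lit 124) (.e (nat_lit 557101) (nat_lit 13) (.e (nat_lit 172115) (nat_lit 10) (.e (nat_lit 434238) (nat_lit 25) (.e (nat_lit 548913) (nat_lit 18) (.e (nat_lit 172086) (nat_lit 9) (.e (nat_lit 426354) (nat_lit 15) .nil))))))) (.g (nat_lit 5) .nil .nil))) 
(.lf (nat_lit 85493) (.g (nat_lit 2143) (.e (nat_lit 1860) (nat_lit 124) (.e (nat_lit 557101) (nat_lit 13) (.e (nat_lit 172126) (nat_lit 14) (.e (nat_lit 491540) (nat_lit 3) (.e (nat_lit 98358) (nat_lit 26) (.e (nat_lit 426227) (nat_lit 9) (.e (nat_lit 433920) (nat_lit 15) .nil))))))) (.g (nat_lit 5) .nil .nil))))) (.nd (nat_lit 4) (.nd (nat_lit 5) 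
(.lf (nat_lit 85453) (.g (nat_lit 2492) (.e (nat_lit 1860) (nat_lit 124) (.e (nat_lit 557101) (nat_lit 13) (.e (nat_lit 172115) (nat_lit 10) (.e (nat_lit 434231) (nat_lit 23) (.e (nat_lit 532569) (nat_lit 16) (.e (nat_lit 401440) (nat_lit 9) (.e (nat_lit 433920) (nat_lit 15) .nil))))))) (.g (nat_lit 5) .nil .nil))) 
(.lf (nat_lit 85485) (.g (nat_lit 2527) (.e (nat_lit 1860) (nat_lit 124) (.e (nat_lit 557101) (nat_lit 13) (.e (nat_lit 172124) (nat_lit 14) (.e (nat_lit 491540) (nat_lit 3) (.e (nat_lit 98371) (nat_lit 28) (.e (nat_lit 450304) (nat_lit 0) .nil)))))) (.g (nat_lit 5) .nil .nil)))) (.nd (nat_lit 5) 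
(.lf (nat_lit 85469) (.g (nat_lit 5036) (.e (nat_lit 1860) (nat_lit 124) (.e (nat_lit 557101) (nat_lit 13) (.e (nat_lit 172115) (nat_lit 10) (.e (nat_lit 434244) (nat_lit 28) (.e (nat_lit 573471) (nat_lit 11) (.e (nat_lit 16433) (nat_lit 9) (.e (nat_lit 426354) (nat_lit 15) .nil))))))) (.g (nat_lit 0) .nil .nil))) 
(.lf (nat_lit 85501) (.g (nat_lit 914) (.e (nat_lit 1860) (nat_lit 124) (.e (nat_lit 557103) (nat_lit 14) (.e (nat_lit 180275) (nat_lit 32) .nil))) .nil)))))) (.nd (nat_lit 2) (.nd (nat_lit 3) (.nd (nat_lit 4) (.nd (nat_lit 5) 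
(.lf (nat_lit 85443) (.g (nat_lit 3554) (.e (nat_lit 1860) (nat_lit 124) (.e (nat_lit 557101) (nat_lit 13) (.e (nat_lit 172115) (nat_lit 10) (.e (nat_lit 434231) (nat_lit 23) (.e (nat_lit 532490) (nat_lit 0) (.e (nat_lit 6114) (nat_lit 332) (.e (nat_lit 1378) (nat_lit 104) (.e (nat_lit 311040) (nat_lit 15) .nil)))))))) (.g (nat_lit 5) .nil .nil))) 
(.lf (nat_lit 85475) (.g (nat_lit 3700) (.e (nat_lit 1860) (nat_lit 124) (.e (nat_lit 557101) (nat_lit 13) (.e (nat_lit 172115) (nat_lit 10) (.e (nat_lit 434244) (nat_lit 28) (.e (nat_lit 573471) (nat_lit 11) (.e (nat_lit 16444) (nat_lit 9) (.e (nat_lit 433920) (nat_lit 15) .nil))))))) (.g (nat_lit 6) .nil .nil)))) (.nd (nat_lit 5) 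
(.lf (nat_lit 85459) (.g (nat_lit 3385) (.e (nat_lit 1860) (nat_lit 124) (.e (nat_lit 557101) (nat_lit 13) (.e (nat_lit 172115) (nat_lit 10) (.e (nat_lit 434238) (nat_lit 25) (.e (nat_lit 548898) (nat_lit 14) (.e (nat_lit 3045) (nat_lit 189) (.e (nat_lit 474880) (nat_lit 0) .nil))))))) (.g (nat_lit 5) .nil .nil))) 
(.lf (nat_lit 85491) (.g (nat_lit 2387) (.e (nat_lit 1860) (nat_lit 124) (.e (nat_lit 557101) (nat_lit 13) (.e (nat_lit 172126) (nat_lit 14) (.e (nat_lit 491537) (nat_lit 2) (.e (nat_lit 90178) (nat_lit 15) (.e (nat_lit 196352) (nat_lit 0) .nil)))))) (.g (nat_lit 4) .nil .nil))))) (.nd (nat_lit 4) (.nd (nat_lit 5) 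
(.lf (nat_lit 85451) (.g (nat_lit 3781) (.e (nat_lit 1860) (nat_lit 124) (.e (nat_lit 557101) (nat_lit 13) (.e (nat_lit 172115) (nat_lit 10) (.e (nat_lit 434231) (nat_lit 23) (.e (nat_lit 532569) (nat_lit 16) (.e (nat_lit 401434) (nat_lit 9) (.e (nat_lit 426354) (nat_lit 15) .nil))))))) (.g (nat_lit 6) .nil .nil))) 
(.lf (nat_lit 85483) (.g (nat_lit 2096) (.e (nat_lit 1860) (nat_lit 124) (.e (nat_lit 557101) (nat_lit 13) (.e (nat_lit 172124) (nat_lit 14) (.e (nat_lit 491540) (nat_lit 3) (.e (nat_lit 98369) (nat_lit 28) (.e (nat_lit 450304) (nat_lit 0) .nil)))))) (.g (nat_lit 5) .nil .nil)))) (.nd (nat_lit 5) 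
(.lf (nat_lit 85467) (.g (nat_lit 2097) (.e (nat_lit 1860) (nat_lit 124) (.e (nat_lit 557101) (nat_lit 13) (.e (nat_lit 172115) (nat_lit 10) (.e (nat_lit 434244) (nat_lit 28) (.e (nat_lit 573470) (nat_lit 11) (.e (nat_lit 16435) (nat_lit 9) (.e (nat_lit 426354) (nat_lit 15) .nil))))))) (.g (nat_lit 4) .nil .nil))) 
(.lf (nat_lit 85499) (.g (nat_lit 1496) (.e (nat_lit 1860) (nat_lit 124) (.e (nat_lit 557101) (nat_lit 13) (.e (nat_lit 172126) (nat_lit 14) (.e (nat_lit 491540) (nat_lit 3) (.e (nat_lit 98380) (nat_lit 31) (.e (nat_lit 474880) (nat_lit 0) .nil)))))) (.g (nat_lit 4) .nil .nil)))))) (.nd (nat_lit 3) (.nd (nat_lit 4) (.nd (nat_lit 5) 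
(.lf (nat_lit 85447) (.g (nat_lit 1953) (.e (nat_lit 1860) (nat_lit 124) (.e (nat_lit 557101) (nat_lit 13) (.e (nat_lit 172115) (nat_lit 10) (.e (nat_lit 434231) (nat_lit 23) (.e (nat_lit 532490) (nat_lit 0) (.e (nat_lit 6223) (nat_lit 334) (.e (nat_lit 123166) (nat_lit 256) (.e (nat_lit 7936) (nat_lit 0) .nil)))))))) (.g (nat_lit 4) .nil .nil))) 
(.lf (nat_lit 85479) (.g (nat_lit 2204) (.e (nat_lit 1860) (nat_lit 124) (.e (nat_lit 557101) (nat_lit 13) (.e (nat_lit 172124) (nat_lit 14) (.e (nat_lit 491537) (nat_lit 2) (.e (nat_lit 90178) (nat_lit 15) (.e (nat_lit 196352) (nat_lit 0) .nil)))))) (.g (nat_lit 4) .nil .nil)))) (.nd (nat_lit 5) 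
(.lf (nat_lit 85463) (.g (nat_lit 2016) (.e (nat_lit 1860) (nat_lit 124) (.e (nat_lit 557101) (nat_lit 13) (.e (nat_lit 172115) (nat_lit 10) (.e (nat_lit 434238) (nat_lit 25) (.e (nat_lit 556800) (nat_lit 20) .nil))))) .nil)) 
(.lf (nat_lit 85495) (.g (nat_lit 1518) (.e (nat_lit 1860) (nat_lit 124) (.e (nat_lit 557101) (nat_lit 13) (.e (nat_lit 172126) (nat_lit 14) (.e (nat_lit 491540) (nat_lit 3) (.e (nat_lit 98369) (nat_lit 28) (.e (nat_lit 450304) (nat_lit 0) .nil)))))) (.g (nat_lit 4) .nil .nil))))) (.nd (nat_lit 4) (.nd (nat_lit 5) 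
(.lf (nat_lit 85455) (.g (nat_lit 2585) (.e (nat_lit 1860) (nat_lit 124) (.e (nat_lit 557101) (nat_lit 13) (.e (nat_lit 172115) (nat_lit 10) (.e (nat_lit 434231) (nat_lit 23) (.e (nat_lit 532569) (nat_lit 16) (.e (nat_lit 401444) (nat_lit 9) (.e (nat_lit 433920) (nat_lit 15) .nil))))))) (.g (nat_lit 5) .nil .nil))) 
(.lf (nat_lit 85487) (.g (nat_lit 2155) (.e (nat_lit 1860) (nat_lit 124) (.e (nat_lit 557101) (nat_lit 13) (.e (nat_lit 172124) (nat_lit 14) (.e (nat_lit 491540) (nat_lit 3) (.e (nat_lit 98380) (nat_lit 31) (.e (nat_lit 474880) (nat_lit 0) .nil)))))) (.g (nat_lit 5) .nil .nil)))) (.nd (nat_lit 5) 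
(.lf (nat_lit 85471) (.g (nat_lit 3997) (.e (nat_lit 1860) (nat_lit 124) (.e (nat_lit 557101) (nat_lit 13) (.e (nat_lit 172115) (nat_lit 10) (.e (nat_lit 434244) (nat_lit 28) (.e (nat_lit 573471) (nat_lit 11) (.e (nat_lit 16435) (nat_lit 9) (.e (nat_lit 426354) (nat_lit 15) .nil))))))) (.g (nat_lit 7) .nil .nil))) 
(.lf (nat_lit 85503) (.g (nat_lit 2268) (.e (nat_lit 1860) (nat_lit 124) (.e (nat_lit 557103) (nat_lit 14) (.e (nat_lit 180276) (nat_lit 32) (.e (nat_lit 1077) (nat_lit 81) (.e (nat_lit 1796) (nat_lit 119) (.e (nat_lit 516175) (nat_lit 14) (.e (nat_lit 474880) (nat_lit 0) .nil))))))) (.g (nat_lit 6) .nil .nil)))))))))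

noncomputable def tv1160 : DT := (.nd (nat_lit 0) (.nd (nat_lit 1) (.nd (nat_lit 2) (.nd (nat_lit 3) (.nd (nat_lit 4) (.nd (nat_lit 5) (.nd (nat_lit 6) 
(.lf (nat_lit 85504) (.g (nat_lit 878) (.e (nat_lit 1860) (nat_lit 124) (.e (nat_lit 557103) (nat_lit 14) (.e (nat_lit 180277) (nat_lit 32) .nil))) .nil)) 
(.lf (nat_lit 85568) (.g (nat_lit 1697) (.e (nat_lit 1860) (nat_lit 124) (.e (nat_lit 557105) (nat_lit 14) (.e (nat_lit 188160) (nat_lit 35) (.e (nat_lit 57464) (nat_lit 23) (.e (nat_lit 516164) (nat_lit 11) (.e (nat_lit 450304) (nat_lit 0) .nil)))))) (.g (nat_lit 5) .nil .nil)))) (.nd (nat_lit 6) 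
(.lf (nat_lit 85536) (.g (nat_lit 3019) (.e (nat_lit 1860) (nat_lit 124) (.e (nat_lit 557105) (nat_lit 14) (.e (nat_lit 180252) (nat_lit 10) (.e (nat_lit 573482) (nat_lit 13) (.e (nat_lit 73472) (nat_lit 18) (.e (nat_lit 204830) (nat_lit 18) (.e (nat_lit 57852) (nat_lit 252) (.e (nat_lit 57345) (nat_lit 0) .nil)))))))) (.g (nat_lit 4) .nil .nil))) 
(.lf (nat_lit 85600) (.g (nat_lit 3924) (.e (nat_lit 1860) (nat_lit 124) (.e (nat_lit 557109) (nat_lit 15) (.e (nat_lit 188452) (nat_lit 23) (.e (nat_lit 204817) (nat_lit 17) .nil)))) .nil)))) (.nd (nat_lit 5) (.nd (nat_lit 6) 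
(.lf (nat_lit 85520) (.g (nat_lit 2550) (.e (nat_lit 1860) (nat_lit 124) (.e (nat_lit 557104) (nat_lit 14) (.e (nat_lit 180278) (nat_lit 32) (.e (nat_lit 1235) (nat_lit 91) (.e (nat_lit 90176) (nat_lit 15) (.e (nat_lit 196352) (nat_lit 0) .nil)))))) (.g (nat_lit 5) .nil .nil))) 
(.lf (nat_lit 85584) (.g (nat_lit 1458) (.e (nat_lit 1860) (nat_lit 124) (.e (nat_lit 557109) (nat_lit 15) (.e (nat_lit 188419) (nat_lit 0) (.e (nat_lit 1855) (nat_lit 124) (.e (nat_lit 557107) (nat_lit 15) .nil))))) .nil))) (.nd (nat_lit 6) 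
(.lf (nat_lit 85552) (.g (nat_lit 3052) (.e (nat_lit 1860) (nat_lit 124) (.e (nat_lit 557105) (nat_lit 14) (.e (nat_lit 180252) (nat_lit 10) (.e (nat_lit 573489) (nat_lit 14) (.e (nat_lit 73748) (nat_lit 3) (.e (nat_lit 516115) (nat_lit 1) (.e (nat_lit 164179) (nat_lit 154) (.e (nat_lit 57345) (nat_lit 0) .nil)))))))) (.g (nat_lit 5) .nil .nil))) 
(.lf (nat_lit 85616) (.g (nat_lit 1247) (.e (nat_lit 1861) (nat_lit 124) (.e (nat_lit 557104) (nat_lit 14) (.e (nat_lit 180278) (nat_lit 32) (.e (nat_lit 1252) (nat_lit 92) .nil)))) .nil))))) (.nd (nat_lit 4) (.nd (nat_lit 5) (.nd (nat_lit 6) 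
(.lf (nat_lit 85512) (.g (nat_lit 1649) (.e (nat_lit 1860) (nat_lit 124) (.e (nat_lit 557103) (nat_lit 14) (.e (nat_lit 188160) (nat_lit 35) (.e (nat_lit 57464) (nat_lit 23) (.e (nat_lit 516162) (nat_lit 11) (.e (nat_lit 450304) (nat_lit 0) .nil)))))) (.g (nat_lit 5) .nil .nil))) 
(.lf (nat_lit 85576) (.g (nat_lit 1228) (.e (nat_lit 1860) (nat_lit 124) (.e (nat_lit 557108) (nat_lit 15) (.e (nat_lit 188434) (nat_lit 20) .nil))) .nil))) (.nd (nat_lit 6) 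
(.lf (nat_lit 85544) (.g (nat_lit 2539) (.e (nat_lit 1860) (nat_lit 124) (.e (nat_lit 557105) (nat_lit 14) (.e (nat_lit 180252) (nat_lit 10) (.e (nat_lit 573488) (nat_lit 14) (.e (nat_lit 73747) (nat_lit 3) .nil))))) .nil)) 
(.lf (nat_lit 85608) (.g (nat_lit 5129) (.e (nat_lit 1860) (nat_lit 124) (.e (nat_lit 557109) (nat_lit 15) (.e (nat_lit 188452) (nat_lit 23) (.e (nat_lit 204885) (nat_lit 33) (.e (nat_lit 401444) (nat_lit 9) (.e (nat_lit 426353) (nat_lit 15) .nil)))))) (.g (nat_lit 5) .nil .nil))))) (.nd (nat_lit 5) (.nd (nat_lit 6) 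
(.lf (nat_lit 85528) (.g (nat_lit 2458) (.e (nat_lit 1860) (nat_lit 124) (.e (nat_lit 557105) (nat_lit 14) (.e (nat_lit 180252) (nat_lit 10) (.e (nat_lit 573480) (nat_lit 13) (.e (nat_lit 73472) (nat_lit 18) (.e (nat_lit 204831) (nat_lit 18) (.e (nat_lit 57852) (nat_lit 252) (.e (nat_lit 57345) (nat_lit 0) .nil)))))))) (.g (nat_lit 4) .nil .nil))) 
(.lf (nat_lit 85592) (.g (nat_lit 3322) (.e (nat_lit 1860) (nat_lit 124) (.e (nat_lit 557109) (nat_lit 15) (.e (nat_lit 188449) (nat_lit 22) (.e (nat_lit 196630) (nat_lit 9) .nil)))) .nil))) (.nd (nat_lit 6) 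
(.lf (nat_lit 85560) (.g (nat_lit 1990) (.e (nat_lit 1860) (nat_lit 124) (.e (nat_lit 557105) (nat_lit 14) (.e (nat_lit 180252) (nat_lit 10) (.e (nat_lit 573489) (nat_lit 14) (.e (nat_lit 73755) (nat_lit 8) (.e (nat_lit 557090) (nat_lit 12) (.e (nat_lit 164010) (nat_lit 41) (.e (nat_lit 663573) (nat_lit 9) (.e (nat_lit 4) (nat_lit 0) .nil))))))))) (.g (nat_lit 4) .nil .nil))) 
(.lf (nat_lit 85624) (.g (nat_lit 3778) (.e (nat_lit 1861) (nat_lit 124) (.e (nat_lit 557105) (nat_lit 14) (.e (nat_lit 180252) (nat_lit 10) (.e (nat_lit 573482) (nat_lit 13) (.e (nat_lit 73472) (nat_lit 18) .nil))))) .nil)))))) (.nd (nat_lit 3) (.nd (nat_lit 4) (.nd (nat_lit 5) (.nd (nat_lit 6) 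
(.lf (nat_lit 85508) (.g (nat_lit 2569) (.e (nat_lit 1860) (nat_lit 124) (.e (nat_lit 557103) (nat_lit 14) (.e (nat_lit 180278) (nat_lit 32) (.e (nat_lit 1235) (nat_lit 91) (.e (nat_lit 90178) (nat_lit 15) (.e (nat_lit 196352) (nat_lit 0) .nil)))))) (.g (nat_lit 5) .nil .nil))) 
(.lf (nat_lit 85572) (.g (nat_lit 1637) (.e (nat_lit 1860) (nat_lit 124) (.e (nat_lit 557107) (nat_lit 15) (.e (nat_lit 188420) (nat_lit 0) (.e (nat_lit 1855) (nat_lit 124) (.e (nat_lit 557109) (nat_lit 15) .nil))))) .nil))) (.nd (nat_lit 6) 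
(.lf (nat_lit 85540) (.g (nat_lit 2758) (.e (nat_lit 1860) (nat_lit 124) (.e (nat_lit 557105) (nat_lit 14) (.e (nat_lit 180252) (nat_lit 10) (.e (nat_lit 573487) (nat_lit 14) (.e (nat_lit 73747) (nat_lit 3) (.e (nat_lit 516115) (nat_lit 1) (.e (nat_lit 164178) (nat_lit 154) (.e (nat_lit 57345) (nat_lit 0) .nil)))))))) (.g (nat_lit 4) .nil .nil))) 
(.lf (nat_lit 85604) (.g (nat_lit 4417) (.e (nat_lit 1860) (nat_lit 124) (.e (nat_lit 557109) (nat_lit 15) (.e (nat_lit 188452) (nat_lit 23) (.e (nat_lit 204884) (nat_lit 33) (.e (nat_lit 401437) (nat_lit 9) .nil))))) .nil)))) (.nd (nat_lit 5) (.nd (nat_lit 6) 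
(.lf (nat_lit 85524) (.g (nat_lit 1712) (.e (nat_lit 1860) (nat_lit 124) (.e (nat_lit 557104) (nat_lit 14) (.e (nat_lit 180278) (nat_lit 32) (.e (nat_lit 1253) (nat_lit 92) (.e (nat_lit 98371) (nat_lit 28) .nil))))) .nil)) 
(.lf (nat_lit 85588) (.g (nat_lit 2515) (.e (nat_lit 1860) (nat_lit 124) (.e (nat_lit 557109) (nat_lit 15) (.e (nat_lit 188434) (nat_lit 20) (.e (nat_lit 3272) (nat_lit 199) .nil)))) .nil))) (.nd (nat_lit 6) 
(.lf (nat_lit 85556) (.g (nat_lit 2944) (.e (nat_lit 1860) (nat_lit 124) (.e (nat_lit 557105) (nat_lit 14) (.e (nat_lit 180252) (nat_lit 10) (.e (nat_lit 573489) (nat_lit 14) (.e (nat_lit 73755) (nat_lit 8) (.e (nat_lit 557090) (nat_lit 12) (.e (nat_lit 164007) (nat_lit 41) (.e (nat_lit 663572) (nat_lit 9) (.e (nat_lit 4) (nat_lit 0) .nil))))))))) (.g (nat_lit 6) .nil .nil))) 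
(.lf (nat_lit 85620) (.g (nat_lit 2652) (.e (nat_lit 1861) (nat_lit 124) (.e (nat_lit 557105) (nat_lit 14) (.e (nat_lit 180252) (nat_lit 10) (.e (nat_lit 573481) (nat_lit 13) .nil)))) .nil))))) (.nd (nat_lit 4) (.nd (nat_lit 5) (.nd (nat_lit 6) 
(.lf (nat_lit 85516) (.g (nat_lit 2164) (.e (nat_lit 1860) (nat_lit 124) (.e (nat_lit 557103) (nat_lit 14) (.e (nat_lit 188160) (nat_lit 38) (.e (nat_lit 122936) (nat_lit 23) (.e (nat_lit 516176) (nat_lit 14) (.e (nat_lit 474880) (nat_lit 0) .nil)))))) (.g (nat_lit 5) .nil .nil))) 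
(.lf (nat_lit 85580) (.g (nat_lit 4743) (.e (nat_lit 1860) (nat_lit 124) (.e (nat_lit 557108) (nat_lit 15) (.e (nat_lit 188452) (nat_lit 23) (.e (nat_lit 204816) (nat_lit 17) .nil)))) .nil))) (.nd (nat_lit 6) 
(.lf (nat_lit 85548) (.g (nat_lit 2906) (.e (nat_lit 1860) (nat_lit 124) (.e (nat_lit 557105) (nat_lit 14) (.e (nat_lit 180252) (nat_lit 10) (.e (nat_lit 573488) (nat_lit 14) (.e (nat_lit 73747) (nat_lit 3) (.e (nat_lit 516119) (nat_lit 1) (.e (nat_lit 164178) (nat_lit 154) (.e (nat_lit 57349) (nat_lit 0) .nil)))))))) (.g (nat_lit 4) .nil .nil))) 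
(.lf (nat_lit 85612) (.g (nat_lit 2192) (.e (nat_lit 1861) (nat_lit 124) (.e (nat_lit 557097) (nat_lit 13) (.e (nat_lit 172115) (nat_lit 10) (.e (nat_lit 434244) (nat_lit 28) (.e (nat_lit 573450) (nat_lit 9) .nil))))) .nil)))) (.nd (nat_lit 5) (.nd (nat_lit 6) 
(.lf (nat_lit 85532) (.g (nat_lit 3081) (.e (nat_lit 1860) (nat_lit 124) (.e (nat_lit 557105) (nat_lit 14) (.e (nat_lit 180252) (nat_lit 10) (.e (nat_lit 573482) (nat_lit 13) (.e (nat_lit 65570) (nat_lit 3) .nil))))) .nil)) 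
(.lf (nat_lit 85596) (.g (nat_lit 3887) (.e (nat_lit 1860) (nat_lit 124) (.e (nat_lit 557109) (nat_lit 15) (.e (nat_lit 188452) (nat_lit 23) (.e (nat_lit 204815) (nat_lit 17) .nil)))) .nil))) (.nd (nat_lit 6) 
(.lf (nat_lit 85564) (.g (nat_lit 1819) (.e (nat_lit 1860) (nat_lit 124) (.e (nat_lit 557105) (nat_lit 14) (.e (nat_lit 180278) (nat_lit 32) (.e (nat_lit 1235) (nat_lit 91) (.e (nat_lit 90178) (nat_lit 15) (.e (nat_lit 196352) (nat_lit 0) .nil)))))) (.g (nat_lit 4) .nil .nil))) 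
(.lf (nat_lit 85628) (.g (nat_lit 3564) (.e (nat_lit 1861) (nat_lit 124) (.e (nat_lit 557108) (nat_lit 15) (.e (nat_lit 188452) (nat_lit 23) (.e (nat_lit 204817) (nat_lit 17) .nil)))) .nil))))))) (.nd (nat_lit 2) (.nd (nat_lit 3) (.nd (nat_lit 4) (.nd (nat_lit 5) (.nd (nat_lit 6) 
(.lf (nat_lit 85506) (.g (nat_lit 2512) (.e (nat_lit 1860) (nat_lit 124) (.e (nat_lit 557103) (nat_lit 14) (.e (nat_lit 180278) (nat_lit 32) (.e (nat_lit 1234) (nat_lit 91) (.e (nat_lit 90178) (nat_lit 15) (.e (nat_lit 196352) (nat_lit 0) .nil)))))) (.g (nat_lit 4) .nil .nil))) 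
(.lf (nat_lit 85570) (.g (nat_lit 1955) (.e (nat_lit 1860) (nat_lit 124) (.e (nat_lit 557105) (nat_lit 14) (.e (nat_lit 188160) (nat_lit 38) (.e (nat_lit 122936) (nat_lit 23) (.e (nat_lit 516176) (nat_lit 14) (.e (nat_lit 474880) (nat_lit 0) .nil)))))) (.g (nat_lit 5) .nil .nil)))) (.nd (nat_lit 6) 
(.lf (nat_lit 85538) (.g (nat_lit 3068) (.e (nat_lit 1860) (nat_lit 124) (.e (nat_lit 557105) (nat_lit 14) (.e (nat_lit 180252) (nat_lit 10) (.e (nat_lit 573482) (nat_lit 13) (.e (nat_lit 73472) (nat_lit 18) (.e (nat_lit 204831) (nat_lit 18) (.e (nat_lit 57852) (nat_lit 252) (.e (nat_lit 57349) (nat_lit 0) .nil)))))))) (.g (nat_lit 4) .nil .nil))) 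
(.lf (nat_lit 85602) (.g (nat_lit 3180) (.e (nat_lit 1860) (nat_lit 124) (.e (nat_lit 557109) (nat_lit 15) (.e (nat_lit 188452) (nat_lit 23) (.e (nat_lit 204846) (nat_lit 24) .nil)))) .nil)))) (.nd (nat_lit 5) (.nd (nat_lit 6) 
(.lf (nat_lit 85522) (.g (nat_lit 1355) (.e (nat_lit 1860) (nat_lit 124) (.e (nat_lit 557104) (nat_lit 14) (.e (nat_lit 180278) (nat_lit 32) (.e (nat_lit 1235) (nat_lit 91) (.e (nat_lit 90185) (nat_lit 17) .nil))))) .nil)) 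
(.lf (nat_lit 85586) (.g (nat_lit 2053) (.e (nat_lit 1860) (nat_lit 124) (.e (nat_lit 557109) (nat_lit 15) (.e (nat_lit 188419) (nat_lit 0) (.e (nat_lit 1856) (nat_lit 124) (.e (nat_lit 557109) (nat_lit 15) (.e (nat_lit 196352) (nat_lit 0) .nil)))))) (.g (nat_lit 4) .nil .nil)))) (.nd (nat_lit 6) 
(.lf (nat_lit 85554) (.g (nat_lit 2449) (.e (nat_lit 1860) (nat_lit 124) (.e (nat_lit 557105) (nat_lit 14) (.e (nat_lit 180252) (nat_lit 10) (.e (nat_lit 573489) (nat_lit 14) (.e (nat_lit 73748) (nat_lit 3) (.e (nat_lit 516119) (nat_lit 1) (.e (nat_lit 164179) (nat_lit 154) (.e (nat_lit 57345) (nat_lit 0) .nil)))))))) (.g (nat_lit 4) .nil .nil))) 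
(.lf (nat_lit 85618) (.g (nat_lit 2798) (.e (nat_lit 1861) (nat_lit 124) (.e (nat_lit 557105) (nat_lit 14) (.e (nat_lit 180252) (nat_lit 10) (.e (nat_lit 573474) (nat_lit 12) .nil)))) .nil))))) (.nd (nat_lit 4) (.nd (nat_lit 5) (.nd (nat_lit 6) 
(.lf (nat_lit 85514) (.g (nat_lit 1906) (.e (nat_lit 1860) (nat_lit 124) (.e (nat_lit 557103) (nat_lit 14) (.e (nat_lit 188160) (nat_lit 35) (.e (nat_lit 57464) (nat_lit 23) (.e (nat_lit 516164) (nat_lit 11) (.e (nat_lit 450304) (nat_lit 0) .nil)))))) (.g (nat_lit 5) .nil .nil))) 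
(.lf (nat_lit 85578) (.g (nat_lit 724) (.e (nat_lit 1860) (nat_lit 124) (.e (nat_lit 557108) (nat_lit 15) (.e (nat_lit 188452) (nat_lit 23) .nil))) .nil))) (.nd (nat_lit 6) 
(.lf (nat_lit 85546) (.g (nat_lit 3406) (.e (nat_lit 1860) (nat_lit 124) (.e (nat_lit 557105) (nat_lit 14) (.e (nat_lit 180252) (nat_lit 10) (.e (nat_lit 573488) (nat_lit 14) (.e (nat_lit 73747) (nat_lit 3) (.e (nat_lit 516119) (nat_lit 1) (.e (nat_lit 164176) (nat_lit 154) (.e (nat_lit 57345) (nat_lit 0) .nil)))))))) (.g (nat_lit 5) .nil .nil))) 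
(.lf (nat_lit 85610) (.g (nat_lit 1257) (.e (nat_lit 1860) (nat_lit 124) (.e (nat_lit 557109) (nat_lit 15) (.e (nat_lit 188455) (nat_lit 24) (.e (nat_lit 237312) (nat_lit 138) .nil)))) .nil)))) (.nd (nat_lit 5) (.nd (nat_lit 6) 
(.lf (nat_lit 85530) (.g (nat_lit 2767) (.e (nat_lit 1860) (nat_lit 124) (.e (nat_lit 557105) (nat_lit 14) (.e (nat_lit 180252) (nat_lit 10) (.e (nat_lit 573481) (nat_lit 13) (.e (nat_lit 65570) (nat_lit 3) (.e (nat_lit 98333) (nat_lit 18) (.e (nat_lit 164177) (nat_lit 154) (.e (nat_lit 57345) (nat_lit 0) .nil)))))))) (.g (nat_lit 4) .nil .nil))) 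
(.lf (nat_lit 85594) (.g (nat_lit 3407) (.e (nat_lit 1860) (nat_lit 124) (.e (nat_lit 557109) (nat_lit 15) (.e (nat_lit 188449) (nat_lit 22) (.e (nat_lit 196666) (nat_lit 13) .nil)))) .nil))) (.nd (nat_lit 6) 
(.lf (nat_lit 85562) (.g (nat_lit 1709) (.e (nat_lit 1860) (nat_lit 124) (.e (nat_lit 557105) (nat_lit 14) (.e (nat_lit 180277) (nat_lit 32) (.e (nat_lit 1234) (nat_lit 91) (.e (nat_lit 90178) (nat_lit 15) (.e (nat_lit 196352) (nat_lit 0) .nil)))))) (.g (nat_lit 4) .nil .nil))) 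
(.lf (nat_lit 85626) (.g (nat_lit 1291) (.e (nat_lit 1861) (nat_lit 124) (.e (nat_lit 557108) (nat_lit 15) (.e (nat_lit 188434) (nat_lit 20) .nil))) .nil)))))) (.nd (nat_lit 3) (.nd (nat_lit 4) (.nd (nat_lit 5) (.nd (nat_lit 6) 
(.lf (nat_lit 85510) (.g (nat_lit 530) (.e (nat_lit 1860) (nat_lit 124) (.e (nat_lit 557103) (nat_lit 14) (.e (nat_lit 188160) (nat_lit 32) .nil))) .nil)) 
(.lf (nat_lit 85574) (.g (nat_lit 657) (.e (nat_lit 1860) (nat_lit 124) (.e (nat_lit 557107) (nat_lit 15) (.e (nat_lit 188440) (nat_lit 20) .nil))) .nil))) (.nd (nat_lit 6) 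
(.lf (nat_lit 85542) (.g (nat_lit 2536) (.e (nat_lit 1860) (nat_lit 124) (.e (nat_lit 557105) (nat_lit 14) (.e (nat_lit 180252) (nat_lit 10) (.e (nat_lit 573487) (nat_lit 14) (.e (nat_lit 73747) (nat_lit 3) (.e (nat_lit 516115) (nat_lit 1) (.e (nat_lit 164179) (nat_lit 154) (.e (nat_lit 57349) (nat_lit 0) .nil)))))))) (.g (nat_lit 4) .nil .nil))) 
(.lf (nat_lit 85606) (.g (nat_lit 4266) (.e (nat_lit 1860) (nat_lit 124) (.e (nat_lit 557109) (nat_lit 15) (.e (nat_lit 188452) (nat_lit 23) (.e (nat_lit 204885) (nat_lit 33) (.e (nat_lit 401434) (nat_lit 9) (.e (nat_lit 426361) (nat_lit 15) .nil)))))) (.g (nat_lit 4) .nil .nil))))) (.nd (nat_lit 5) (.nd (nat_lit 6) 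
(.lf (nat_lit 85526) (.g (nat_lit 1740) (.e (nat_lit 1860) (nat_lit 124) (.e (nat_lit 557105) (nat_lit 14) (.e (nat_lit 180252) (nat_lit 10) (.e (nat_lit 573480) (nat_lit 13) .nil)))) .nil)) 
(.lf (nat_lit 85590) (.g (nat_lit 1032) (.e (nat_lit 1860) (nat_lit 124) (.e (nat_lit 557109) (nat_lit 15) (.e (nat_lit 188441) (nat_lit 20) .nil))) .nil))) (.nd (nat_lit 6) 
(.lf (nat_lit 85558) (.g (nat_lit 2214) (.e (nat_lit 1860) (nat_lit 124) (.e (nat_lit 557105) (nat_lit 14) (.e (nat_lit 180252) (nat_lit 10) (.e (nat_lit 573489) (nat_lit 14) (.e (nat_lit 73755) (nat_lit 8) (.e (nat_lit 557090) (nat_lit 12) (.e (nat_lit 164007) (nat_lit 41) (.e (nat_lit 663573) (nat_lit 9) (.e (nat_lit 4) (nat_lit 0) .nil))))))))) (.g (nat_lit 4) .nil .nil))) 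
(.lf (nat_lit 85622) (.g (nat_lit 2672) (.e (nat_lit 1861) (nat_lit 124) (.e (nat_lit 557105) (nat_lit 14) (.e (nat_lit 180252) (nat_lit 10) (.e (nat_lit 573482) (nat_lit 13) .nil)))) .nil))))) (.nd (nat_lit 4) (.nd (nat_lit 5) (.nd (nat_lit 6) 
(.lf (nat_lit 85518) (.g (nat_lit 2757) (.e (nat_lit 1860) (nat_lit 124) (.e (nat_lit 557104) (nat_lit 14) (.e (nat_lit 180278) (nat_lit 32) (.e (nat_lit 1234) (nat_lit 91) (.e (nat_lit 90176) (nat_lit 15) (.e (nat_lit 196352) (nat_lit 0) .nil)))))) (.g (nat_lit 5) .nil .nil))) 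
(.lf (nat_lit 85582) (.g (nat_lit 4861) (.e (nat_lit 1860) (nat_lit 124) (.e (nat_lit 557108) (nat_lit 15) (.e (nat_lit 188452) (nat_lit 23) (.e (nat_lit 204885) (nat_lit 33) (.e (nat_lit 401444) (nat_lit 9) (.e (nat_lit 426353) (nat_lit 15) .nil)))))) (.g (nat_lit 5) .nil .nil)))) (.nd (nat_lit 6) 
(.lf (nat_lit 85550) (.g (nat_lit 2748) (.e (nat_lit 1860) (nat_lit 124) (.e (nat_lit 557105) (nat_lit 14) (.e (nat_lit 180252) (nat_lit 10) (.e (nat_lit 573488) (nat_lit 14) (.e (nat_lit 73748) (nat_lit 3) .nil))))) .nil)) 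
(.lf (nat_lit 85614) (.g (nat_lit 1714) (.e (nat_lit 1861) (nat_lit 124) (.e (nat_lit 557098) (nat_lit 13) (.e (nat_lit 172115) (nat_lit 10) (.e (nat_lit 434227) (nat_lit 20) (.e (nat_lit 507929) (nat_lit 10) (.e (nat_lit 5772) (nat_lit 316) (.e (nat_lit 172127) (nat_lit 15) .nil))))))) (.g (nat_lit 5) .nil .nil))))) (.nd (nat_lit 5) (.nd (nat_lit 6) 
(.lf (nat_lit 85534) (.g (nat_lit 3447) (.e (nat_lit 1860) (nat_lit 124) (.e (nat_lit 557105) (nat_lit 14) (.e (nat_lit 180252) (nat_lit 10) (.e (nat_lit 573482) (nat_lit 13) (.e (nat_lit 65570) (nat_lit 3) (.e (nat_lit 98333) (nat_lit 18) (.e (nat_lit 164179) (nat_lit 154) (.e (nat_lit 57349) (nat_lit 0) .nil)))))))) (.g (nat_lit 4) .nil .nil))) 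
(.lf (nat_lit 85598) (.g (nat_lit 4882) (.e (nat_lit 1860) (nat_lit 124) (.e (nat_lit 557109) (nat_lit 15) (.e (nat_lit 188452) (nat_lit 23) (.e (nat_lit 204816) (nat_lit 17) (.e (nat_lit 6718) (nat_lit 361) (.e (nat_lit 179968) (nat_lit 15) .nil)))))) (.g (nat_lit 5) .nil .nil)))) (.nd (nat_lit 6) 
(.lf (nat_lit 85566) (.g (nat_lit 1440) (.e (nat_lit 1860) (nat_lit 124) (.e (nat_lit 557105) (nat_lit 14) (.e (nat_lit 188160) (nat_lit 35) (.e (nat_lit 57464) (nat_lit 23) (.e (nat_lit 516162) (nat_lit 11) (.e (nat_lit 450304) (nat_lit 0) .nil)))))) (.g (nat_lit 5) .nil .nil))) 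
(.lf (nat_lit 85630) (.g (nat_lit 4742) (.e (nat_lit 1861) (nat_lit 124) (.e (nat_lit 557108) (nat_lit 15) (.e (nat_lit 188452) (nat_lit 23) (.e (nat_lit 204884) (nat_lit 33) .nil)))) .nil)))))))) (.nd (nat_lit 1) (.nd (nat_lit 2) (.nd (nat_lit 3) (.nd (nat_lit 4) (.nd (nat_lit 5) (.nd (nat_lit 6) 
(.lf (nat_lit 85505) (.g (nat_lit 2567) (.e (nat_lit 1860) (nat_lit 124) (.e (nat_lit 557103) (nat_lit 14) (.e (nat_lit 180278) (nat_lit 32) (.e (nat_lit 1234) (nat_lit 91) (.e (nat_lit 90176) (nat_lit 15) (.e (nat_lit 196352) (nat_lit 0) .nil)))))) (.g (nat_lit 4) .nil .nil))) 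
(.lf (nat_lit 85569) (.g (nat_lit 1514) (.e (nat_lit 1860) (nat_lit 124) (.e (nat_lit 557105) (nat_lit 14) (.e (nat_lit 188160) (nat_lit 35) (.e (nat_lit 57464) (nat_lit 23) (.e (nat_lit 516175) (nat_lit 14) (.e (nat_lit 474880) (nat_lit 0) .nil)))))) (.g (nat_lit 5) .nil .nil)))) (.nd (nat_lit 6) 
(.lf (nat_lit 85537) (.g (nat_lit 3477) (.e (nat_lit 1860) (nat_lit 124) (.e (nat_lit 557105) (nat_lit 14) (.e (nat_lit 180252) (nat_lit 10) (.e (nat_lit 573482) (nat_lit 13) (.e (nat_lit 73472) (nat_lit 18) (.e (nat_lit 204831) (nat_lit 18) (.e (nat_lit 57852) (nat_lit 252) (.e (nat_lit 57345) (nat_lit 0) .nil)))))))) (.g (nat_lit 4) .nil .nil))) 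
(.lf (nat_lit 85601) (.g (nat_lit 2845) (.e (nat_lit 1860) (nat_lit 124) (.e (nat_lit 557109) (nat_lit 15) (.e (nat_lit 188452) (nat_lit 23) (.e (nat_lit 204821) (nat_lit 17) .nil)))) .nil)))) (.nd (nat_lit 5) (.nd (nat_lit 6) 
(.lf (nat_lit 85521) (.g (nat_lit 2698) (.e (nat_lit 1860) (nat_lit 124) (.e (nat_lit 557104) (nat_lit 14) (.e (nat_lit 180278) (nat_lit 32) (.e (nat_lit 1235) (nat_lit 91) (.e (nat_lit 90178) (nat_lit 15) (.e (nat_lit 196352) (nat_lit 0) .nil)))))) (.g (nat_lit 5) .nil .nil))) 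
(.lf (nat_lit 85585) (.g (nat_lit 1990) (.e (nat_lit 1860) (nat_lit 124) (.e (nat_lit 557109) (nat_lit 15) (.e (nat_lit 188419) (nat_lit 0) (.e (nat_lit 1856) (nat_lit 124) (.e (nat_lit 557107) (nat_lit 15) (.e (nat_lit 196352) (nat_lit 0) .nil)))))) (.g (nat_lit 4) .nil .nil)))) (.nd (nat_lit 6) 
(.lf (nat_lit 85553) (.g (nat_lit 2505) (.e (nat_lit 1860) (nat_lit 124) (.e (nat_lit 557105) (nat_lit 14) (.e (nat_lit 180252) (nat_lit 10) (.e (nat_lit 573489) (nat_lit 14) (.e (nat_lit 73748) (nat_lit 3) (.e (nat_lit 516115) (nat_lit 1) (.e (nat_lit 164179) (nat_lit 154) (.e (nat_lit 57349) (nat_lit 0) .nil)))))))) (.g (nat_lit 4) .nil .nil))) 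
(.lf (nat_lit 85617) (.g (nat_lit 1267) (.e (nat_lit 1861) (nat_lit 124) (.e (nat_lit 557104) (nat_lit 14) (.e (nat_lit 180278) (nat_lit 32) (.e (nat_lit 1253) (nat_lit 92) .nil)))) .nil))))) (.nd (nat_lit 4) (.nd (nat_lit 5) (.nd (nat_lit 6) 
(.lf (nat_lit 85513) (.g (nat_lit 1954) (.e (nat_lit 1860) (nat_lit 124) (.e (nat_lit 557103) (nat_lit 14) (.e (nat_lit 188160) (nat_lit 35) (.e (nat_lit 57464) (nat_lit 23) (.e (nat_lit 516163) (nat_lit 11) (.e (nat_lit 450304) (nat_lit 0) .nil)))))) (.g (nat_lit 5) .nil .nil))) 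
(.lf (nat_lit 85577) (.g (nat_lit 1189) (.e (nat_lit 1860) (nat_lit 124) (.e (nat_lit 557108) (nat_lit 15) (.e (nat_lit 188446) (nat_lit 21) .nil))) .nil))) (.nd (nat_lit 6) 
(.lf (nat_lit 85545) (.g (nat_lit 3965) (.e (nat_lit 1860) (nat_lit 124) (.e (nat_lit 557105) (nat_lit 14) (.e (nat_lit 180252) (nat_lit 10) (.e (nat_lit 573488) (nat_lit 14) (.e (nat_lit 73747) (nat_lit 3) (.e (nat_lit 516115) (nat_lit 1) (.e (nat_lit 164179) (nat_lit 154) (.e (nat_lit 57345) (nat_lit 0) .nil)))))))) (.g (nat_lit 5) .nil .nil))) 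
(.lf (nat_lit 85609) (.g (nat_lit 4113) (.e (nat_lit 1860) (nat_lit 124) (.e (nat_lit 557109) (nat_lit 15) (.e (nat_lit 188452) (nat_lit 23) (.e (nat_lit 204885) (nat_lit 33) (.e (nat_lit 401444) (nat_lit 9) (.e (nat_lit 433920) (nat_lit 15) .nil)))))) (.g (nat_lit 4) .nil .nil))))) (.nd (nat_lit 5) (.nd (nat_lit 6) 
(.lf (nat_lit 85529) (.g (nat_lit 1858) (.e (nat_lit 1860) (nat_lit 124) (.e (nat_lit 557105) (nat_lit 14) (.e (nat_lit 180252) (nat_lit 10) (.e (nat_lit 573481) (nat_lit 13) .nil)))) .nil)) 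
(.lf (nat_lit 85593) (.g (nat_lit 3045) (.e (nat_lit 1860) (nat_lit 124) (.e (nat_lit 557109) (nat_lit 15) (.e (nat_lit 188449) (nat_lit 22) (.e (nat_lit 196661) (nat_lit 12) .nil)))) .nil))) (.nd (nat_lit 6) 
(.lf (nat_lit 85561) (.g (nat_lit 1698) (.e (nat_lit 1860) (nat_lit 124) (.e (nat_lit 557105) (nat_lit 14) (.e (nat_lit 180275) (nat_lit 32) (.e (nat_lit 1077) (nat_lit 81) (.e (nat_lit 1796) (nat_lit 119) (.e (nat_lit 516175) (nat_lit 14) (.e (nat_lit 474880) (nat_lit 0) .nil))))))) (.g (nat_lit 5) .nil .nil))) 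
(.lf (nat_lit 85625) (.g (nat_lit 2671) (.e (nat_lit 1861) (nat_lit 124) (.e (nat_lit 557105) (nat_lit 14) (.e (nat_lit 180252) (nat_lit 10) (.e (nat_lit 573488) (nat_lit 14) .nil)))) .nil)))))) (.nd (nat_lit 3) (.nd (nat_lit 4) (.nd (nat_lit 5) (.nd (nat_lit 6) 
(.lf (nat_lit 85509) (.g (nat_lit 1825) (.e (nat_lit 1860) (nat_lit 124) (.e (nat_lit 557103) (nat_lit 14) (.e (nat_lit 180278) (nat_lit 32) (.e (nat_lit 1253) (nat_lit 92) (.e (nat_lit 98358) (nat_lit 26) (.e (nat_lit 426227) (nat_lit 9) (.e (nat_lit 433920) (nat_lit 15) .nil))))))) (.g (nat_lit 4) .nil .nil))) 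
(.lf (nat_lit 85573) (.g (nat_lit 686) (.e (nat_lit 1860) (nat_lit 124) (.e (nat_lit 557107) (nat_lit 15) (.e (nat_lit 188439) (nat_lit 20) .nil))) .nil))) (.nd (nat_lit 6) 
(.lf (nat_lit 85541) (.g (nat_lit 3083) (.e (nat_lit 1860) (nat_lit 124) (.e (nat_lit 557105) (nat_lit 14) (.e (nat_lit 180252) (nat_lit 10) (.e (nat_lit 573487) (nat_lit 14) (.e (nat_lit 73747) (nat_lit 3) (.e (nat_lit 516115) (nat_lit 1) (.e (nat_lit 164179) (nat_lit 154) (.e (nat_lit 57345) (nat_lit 0) .nil)))))))) (.g (nat_lit 5) .nil .nil))) 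
(.lf (nat_lit 85605) (.g (nat_lit 5248) (.e (nat_lit 1860) (nat_lit 124) (.e (nat_lit 557109) (nat_lit 15) (.e (nat_lit 188452) (nat_lit 23) (.e (nat_lit 204885) (nat_lit 33) (.e (nat_lit 401434) (nat_lit 9) (.e (nat_lit 426354) (nat_lit 15) .nil)))))) (.g (nat_lit 5) .nil .nil))))) (.nd (nat_lit 5) (.nd (nat_lit 6) 
(.lf (nat_lit 85525) (.g (nat_lit 586) (.e (nat_lit 1860) (nat_lit 124) (.e (nat_lit 557104) (nat_lit 14) (.e (nat_lit 188160) (nat_lit 35) .nil))) .nil)) 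
(.lf (nat_lit 85589) (.g (nat_lit 2982) (.e (nat_lit 1860) (nat_lit 124) (.e (nat_lit 557109) (nat_lit 15) (.e (nat_lit 188434) (nat_lit 20) (.e (nat_lit 3272) (nat_lit 199) (.e (nat_lit 548915) (nat_lit 20) .nil))))) .nil))) (.nd (nat_lit 6) 
(.lf (nat_lit 85557) (.g (nat_lit 2376) (.e (nat_lit 1860) (nat_lit 124) (.e (nat_lit 557105) (nat_lit 14) (.e (nat_lit 180252) (nat_lit 10) (.e (nat_lit 573489) (nat_lit 14) (.e (nat_lit 73755) (nat_lit 8) (.e (nat_lit 557090) (nat_lit 12) (.e (nat_lit 164007) (nat_lit 41) (.e (nat_lit 663572) (nat_lit 9) (.e (nat_lit 5) (nat_lit 0) .nil))))))))) (.g (nat_lit 5) .nil .nil))) 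
(.lf (nat_lit 85621) (.g (nat_lit 2950) (.e (nat_lit 1861) (nat_lit 124) (.e (nat_lit 557105) (nat_lit 14) (.e (nat_lit 180252) (nat_lit 10) (.e (nat_lit 573481) (nat_lit 13) (.e (nat_lit 73472) (nat_lit 18) .nil))))) .nil))))) (.nd (nat_lit 4) (.nd (nat_lit 5) (.nd (nat_lit 6) 
(.lf (nat_lit 85517) (.g (nat_lit 784) (.e (nat_lit 1860) (nat_lit 124) (.e (nat_lit 557104) (nat_lit 14) (.e (nat_lit 180275) (nat_lit 32) .nil))) .nil)) 
(.lf (nat_lit 85581) (.g (nat_lit 3564) (.e (nat_lit 1860) (nat_lit 124) (.e (nat_lit 557108) (nat_lit 15) (.e (nat_lit 188452) (nat_lit 23) (.e (nat_lit 204817) (nat_lit 17) .nil)))) .nil))) (.nd (nat_lit 6) 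
(.lf (nat_lit 85549) (.g (nat_lit 3111) (.e (nat_lit 1860) (nat_lit 124) (.e (nat_lit 557105) (nat_lit 14) (.e (nat_lit 180252) (nat_lit 10) (.e (nat_lit 573488) (nat_lit 14) (.e (nat_lit 73747) (nat_lit 3) (.e (nat_lit 516119) (nat_lit 1) (.e (nat_lit 164179) (nat_lit 154) (.e (nat_lit 57349) (nat_lit 0) .nil)))))))) (.g (nat_lit 4) .nil .nil))) 
(.lf (nat_lit 85613) (.g (nat_lit 1683) (.e (nat_lit 1861) (nat_lit 124) (.e (nat_lit 557098) (nat_lit 13) (.e (nat_lit 172115) (nat_lit 10) (.e (nat_lit 434227) (nat_lit 20) (.e (nat_lit 507928) (nat_lit 10) (.e (nat_lit 5772) (nat_lit 316) (.e (nat_lit 172127) (nat_lit 15) .nil))))))) (.g (nat_lit 5) .nil .nil))))) (.nd (nat_lit 5) (.nd (nat_lit 6) 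
(.lf (nat_lit 85533) (.g (nat_lit 3807) (.e (nat_lit 1860) (nat_lit 124) (.e (nat_lit 557105) (nat_lit 14) (.e (nat_lit 180252) (nat_lit 10) (.e (nat_lit 573482) (nat_lit 13) (.e (nat_lit 65570) (nat_lit 3) (.e (nat_lit 98333) (nat_lit 18) (.e (nat_lit 164179) (nat_lit 154) (.e (nat_lit 57345) (nat_lit 0) .nil)))))))) (.g (nat_lit 5) .nil .nil))) 
(.lf (nat_lit 85597) (.g (nat_lit 3574) (.e (nat_lit 1860) (nat_lit 124) (.e (nat_lit 557109) (nat_lit 15) (.e (nat_lit 188452) (nat_lit 23) (.e (nat_lit 204816) (nat_lit 17) .nil)))) .nil))) (.nd (nat_lit 6) 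
(.lf (nat_lit 85565) (.g (nat_lit 1332) (.e (nat_lit 1860) (nat_lit 124) (.e (nat_lit 557105) (nat_lit 14) (.e (nat_lit 188160) (nat_lit 35) (.e (nat_lit 57454) (nat_lit 21) (.e (nat_lit 507648) (nat_lit 11) (.e (nat_lit 196352) (nat_lit 0) .nil)))))) (.g (nat_lit 4) .nil .nil))) 
(.lf (nat_lit 85629) (.g (nat_lit 4507) (.e (nat_lit 1861) (nat_lit 124) (.e (nat_lit 557108) (nat_lit 15) (.e (nat_lit 188452) (nat_lit 23) (.e (nat_lit 204821) (nat_lit 17) .nil)))) .nil))))))) (.nd (nat_lit 2) (.nd (nat_lit 3) (.nd (nat_lit 4) (.nd (nat_lit 5) (.nd (nat_lit 6) 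
(.lf (nat_lit 85507) (.g (nat_lit 2412) (.e (nat_lit 1860) (nat_lit 124) (.e (nat_lit 557103) (nat_lit 14) (.e (nat_lit 180278) (nat_lit 32) (.e (nat_lit 1235) (nat_lit 91) (.e (nat_lit 90176) (nat_lit 15) (.e (nat_lit 196352) (nat_lit 0) .nil)))))) (.g (nat_lit 5) .nil .nil))) 
(.lf (nat_lit 85571) (.g (nat_lit 2410) (.e (nat_lit 1860) (nat_lit 124) (.e (nat_lit 557106) (nat_lit 15) (.e (nat_lit 188452) (nat_lit 23) (.e (nat_lit 204885) (nat_lit 33) .nil)))) .nil))) (.nd (nat_lit 6) 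
(.lf (nat_lit 85539) (.g (nat_lit 2288) (.e (nat_lit 1860) (nat_lit 124) (.e (nat_lit 557105) (nat_lit 14) (.e (nat_lit 180252) (nat_lit 10) (.e (nat_lit 573487) (nat_lit 14) (.e (nat_lit 73747) (nat_lit 3) .nil))))) .nil)) 
(.lf (nat_lit 85603) (.g (nat_lit 2462) (.e (nat_lit 1860) (nat_lit 124) (.e (nat_lit 557109) (nat_lit 15) (.e (nat_lit 188452) (nat_lit 23) (.e (nat_lit 204849) (nat_lit 25) .nil)))) .nil)))) (.nd (nat_lit 5) (.nd (nat_lit 6) 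
(.lf (nat_lit 85523) (.g (nat_lit 1844) (.e (nat_lit 1860) (nat_lit 124) (.e (nat_lit 557104) (nat_lit 14) (.e (nat_lit 180278) (nat_lit 32) (.e (nat_lit 1253) (nat_lit 92) (.e (nat_lit 98358) (nat_lit 26) (.e (nat_lit 426227) (nat_lit 9) (.e (nat_lit 433920) (nat_lit 15) .nil))))))) (.g (nat_lit 4) .nil .nil))) 
(.lf (nat_lit 85587) (.g (nat_lit 2544) (.e (nat_lit 1860) (nat_lit 124) (.e (nat_lit 557109) (nat_lit 15) (.e (nat_lit 188434) (nat_lit 20) (.e (nat_lit 3271) (nat_lit 199) .nil)))) .nil))) (.nd (nat_lit 6) 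
(.lf (nat_lit 85555) (.g (nat_lit 2150) (.e (nat_lit 1860) (nat_lit 124) (.e (nat_lit 557105) (nat_lit 14) (.e (nat_lit 180252) (nat_lit 10) (.e (nat_lit 573489) (nat_lit 14) (.e (nat_lit 73755) (nat_lit 8) (.e (nat_lit 557090) (nat_lit 12) (.e (nat_lit 164006) (nat_lit 41) (.e (nat_lit 663572) (nat_lit 9) (.e (nat_lit 5) (nat_lit 0) .nil))))))))) (.g (nat_lit 4) .nil .nil))) 
(.lf (nat_lit 85619) (.g (nat_lit 2645) (.e (nat_lit 1861) (nat_lit 124) (.e (nat_lit 557105) (nat_lit 14) (.e (nat_lit 180252) (nat_lit 10) (.e (nat_lit 573480) (nat_lit 13) .nil)))) .nil))))) (.nd (nat_lit 4) (.nd (nat_lit 5) (.nd (nat_lit 6) 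
(.lf (nat_lit 85515) (.g (nat_lit 1723) (.e (nat_lit 1860) (nat_lit 124) (.e (nat_lit 557103) (nat_lit 14) (.e (nat_lit 188160) (nat_lit 35) (.e (nat_lit 57464) (nat_lit 23) (.e (nat_lit 516175) (nat_lit 14) (.e (nat_lit 474880) (nat_lit 0) .nil)))))) (.g (nat_lit 5) .nil .nil))) 
(.lf (nat_lit 85579) (.g (nat_lit 3703) (.e (nat_lit 1860) (nat_lit 124) (.e (nat_lit 557108) (nat_lit 15) (.e (nat_lit 188452) (nat_lit 23) (.e (nat_lit 204815) (nat_lit 17) .nil)))) .nil))) (.nd (nat_lit 6) 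
(.lf (nat_lit 85547) (.g (nat_lit 3824) (.e (nat_lit 1860) (nat_lit 124) (.e (nat_lit 557105) (nat_lit 14) (.e (nat_lit 180252) (nat_lit 10) (.e (nat_lit 573488) (nat_lit 14) (.e (nat_lit 73747) (nat_lit 3) (.e (nat_lit 516119) (nat_lit 1) (.e (nat_lit 164178) (nat_lit 154) (.e (nat_lit 57345) (nat_lit 0) .nil)))))))) (.g (nat_lit 6) .nil .nil))) 
(.lf (nat_lit 85611) (.g (nat_lit 1607) (.e (nat_lit 1860) (nat_lit 124) (.e (nat_lit 557109) (nat_lit 15) (.e (nat_lit 188458) (nat_lit 25) (.e (nat_lit 245784) (nat_lit 9) .nil)))) .nil)))) (.nd (nat_lit 5) (.nd (nat_lit 6) 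
(.lf (nat_lit 85531) (.g (nat_lit 3557) (.e (nat_lit 1860) (nat_lit 124) (.e (nat_lit 557105) (nat_lit 14) (.e (nat_lit 180252) (nat_lit 10) (.e (nat_lit 573481) (nat_lit 13) (.e (nat_lit 65570) (nat_lit 3) (.e (nat_lit 98333) (nat_lit 18) (.e (nat_lit 164179) (nat_lit 154) (.e (nat_lit 57349) (nat_lit 0) .nil)))))))) (.g (nat_lit 5) .nil .nil))) 
(.lf (nat_lit 85595) (.g (nat_lit 494) (.e (nat_lit 1860) (nat_lit 124) (.e (nat_lit 557109) (nat_lit 15) (.e (nat_lit 188452) (nat_lit 23) .nil))) .nil))) (.nd (nat_lit 6) 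
(.lf (nat_lit 85563) (.g (nat_lit 1794) (.e (nat_lit 1860) (nat_lit 124) (.e (nat_lit 557105) (nat_lit 14) (.e (nat_lit 180277) (nat_lit 32) (.e (nat_lit 1235) (nat_lit 91) (.e (nat_lit 90176) (nat_lit 15) (.e (nat_lit 196352) (nat_lit 0) .nil)))))) (.g (nat_lit 4) .nil .nil))) 
(.lf (nat_lit 85627) (.g (nat_lit 4747) (.e (nat_lit 1861) (nat_lit 124) (.e (nat_lit 557108) (nat_lit 15) (.e (nat_lit 188452) (nat_lit 23) (.e (nat_lit 204816) (nat_lit 17) .nil)))) .nil)))))) (.nd (nat_lit 3) (.nd (nat_lit 4) (.nd (nat_lit 5) (.nd (nat_lit 6) 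
(.lf (nat_lit 85511) (.g (nat_lit 1443) (.e (nat_lit 1860) (nat_lit 124) (.e (nat_lit 557103) (nat_lit 14) (.e (nat_lit 188160) (nat_lit 35) (.e (nat_lit 57454) (nat_lit 21) (.e (nat_lit 507648) (nat_lit 11) (.e (nat_lit 196352) (nat_lit 0) .nil)))))) (.g (nat_lit 4) .nil .nil))) 
(.lf (nat_lit 85575) (.g (nat_lit 652) (.e (nat_lit 1860) (nat_lit 124) (.e (nat_lit 557107) (nat_lit 15) (.e (nat_lit 188450) (nat_lit 23) .nil))) .nil))) (.nd (nat_lit 6) 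
(.lf (nat_lit 85543) (.g (nat_lit 2775) (.e (nat_lit 1860) (nat_lit 124) (.e (nat_lit 557105) (nat_lit 14) (.e (nat_lit 180252) (nat_lit 10) (.e (nat_lit 573487) (nat_lit 14) (.e (nat_lit 73747) (nat_lit 3) (.e (nat_lit 516119) (nat_lit 1) (.e (nat_lit 164176) (nat_lit 154) (.e (nat_lit 57345) (nat_lit 0) .nil)))))))) (.g (nat_lit 4) .nil .nil))) 
(.lf (nat_lit 85607) (.g (nat_lit 4033) (.e (nat_lit 1860) (nat_lit 124) (.e (nat_lit 557109) (nat_lit 15) (.e (nat_lit 188452) (nat_lit 23) (.e (nat_lit 204885) (nat_lit 33) (.e (nat_lit 401435) (nat_lit 9) (.e (nat_lit 426354) (nat_lit 15) .nil)))))) (.g (nat_lit 4) .nil .nil))))) (.nd (nat_lit 5) (.nd (nat_lit 6) 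
(.lf (nat_lit 85527) (.g (nat_lit 2452) (.e (nat_lit 1860) (nat_lit 124) (.e (nat_lit 557105) (nat_lit 14) (.e (nat_lit 180252) (nat_lit 10) (.e (nat_lit 573480) (nat_lit 13) (.e (nat_lit 73472) (nat_lit 18) (.e (nat_lit 204829) (nat_lit 18) (.e (nat_lit 57847) (nat_lit 252) (.e (nat_lit 57345) (nat_lit 0) .nil)))))))) (.g (nat_lit 4) .nil .nil))) 
(.lf (nat_lit 85591) (.g (nat_lit 2263) (.e (nat_lit 1860) (nat_lit 124) (.e (nat_lit 557109) (nat_lit 15) (.e (nat_lit 188441) (nat_lit 20) (.e (nat_lit 3272) (nat_lit 199) .nil)))) .nil))) (.nd (nat_lit 6) 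
(.lf (nat_lit 85559) (.g (nat_lit 2134) (.e (nat_lit 1860) (nat_lit 124) (.e (nat_lit 557105) (nat_lit 14) (.e (nat_lit 180252) (nat_lit 10) (.e (nat_lit 573489) (nat_lit 14) (.e (nat_lit 73755) (nat_lit 8) (.e (nat_lit 557090) (nat_lit 12) (.e (nat_lit 164010) (nat_lit 41) (.e (nat_lit 663572) (nat_lit 9) (.e (nat_lit 4) (nat_lit 0) .nil))))))))) (.g (nat_lit 4) .nil .nil))) 
(.lf (nat_lit 85623) (.g (nat_lit 3693) (.e (nat_lit 1861) (nat_lit 124) (.e (nat_lit 557105) (nat_lit 14) (.e (nat_lit 180252) (nat_lit 10) (.e (nat_lit 573482) (nat_lit 13) (.e (nat_lit 65637) (nat_lit 15) .nil))))) .nil))))) (.nd (nat_lit 4) (.nd (nat_lit 5) (.nd (nat_lit 6) 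
(.lf (nat_lit 85519) (.g (nat_lit 2738) (.e (nat_lit 1860) (nat_lit 124) (.e (nat_lit 557104) (nat_lit 14) (.e (nat_lit 180278) (nat_lit 32) (.e (nat_lit 1234) (nat_lit 91) (.e (nat_lit 90178) (nat_lit 15) (.e (nat_lit 196352) (nat_lit 0) .nil)))))) (.g (nat_lit 5) .nil .nil))) 
(.lf (nat_lit 85583) (.g (nat_lit 2155) (.e (nat_lit 1860) (nat_lit 124) (.e (nat_lit 557109) (nat_lit 15) (.e (nat_lit 188418) (nat_lit 0) (.e (nat_lit 1856) (nat_lit 124) .nil)))) .nil))) (.nd (nat_lit 6) 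
(.lf (nat_lit 85551) (.g (nat_lit 2370) (.e (nat_lit 1860) (nat_lit 124) (.e (nat_lit 557105) (nat_lit 14) (.e (nat_lit 180252) (nat_lit 10) (.e (nat_lit 573489) (nat_lit 14) (.e (nat_lit 73748) (nat_lit 3) .nil))))) .nil)) 
(.lf (nat_lit 85615) (.g (nat_lit 1744) (.e (nat_lit 1861) (nat_lit 124) (.e (nat_lit 557098) (nat_lit 13) (.e (nat_lit 172115) (nat_lit 10) (.e (nat_lit 434227) (nat_lit 20) (.e (nat_lit 507930) (nat_lit 10) (.e (nat_lit 5772) (nat_lit 316) (.e (nat_lit 172127) (nat_lit 15) .nil))))))) (.g (nat_lit 5) .nil .nil))))) (.nd (nat_lit 5) (.nd (nat_lit 6) 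
(.lf (nat_lit 85535) (.g (nat_lit 3831) (.e (nat_lit 1860) (nat_lit 124) (.e (nat_lit 557105) (nat_lit 14) (.e (nat_lit 180252) (nat_lit 10) (.e (nat_lit 573482) (nat_lit 13) (.e (nat_lit 73472) (nat_lit 18) (.e (nat_lit 204829) (nat_lit 18) (.e (nat_lit 57847) (nat_lit 252) (.e (nat_lit 57345) (nat_lit 0) .nil)))))))) (.g (nat_lit 6) .nil .nil))) 
(.lf (nat_lit 85599) (.g (nat_lit 3835) (.e (nat_lit 1860) (nat_lit 124) (.e (nat_lit 557109) (nat_lit 15) (.e (nat_lit 188452) (nat_lit 23) (.e (nat_lit 204816) (nat_lit 17) (.e (nat_lit 6720) (nat_lit 361) .nil))))) .nil))) (.nd (nat_lit 6) 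
(.lf (nat_lit 85567) (.g (nat_lit 1745) (.e (nat_lit 1860) (nat_lit 124) (.e (nat_lit 557105) (nat_lit 14) (.e (nat_lit 188160) (nat_lit 35) (.e (nat_lit 57464) (nat_lit 23) (.e (nat_lit 516163) (nat_lit 11) (.e (nat_lit 450304) (nat_lit 0) .nil)))))) (.g (nat_lit 5) .nil .nil))) 
(.lf (nat_lit 85631) (.g (nat_lit 4202) (.e (nat_lit 1861) (nat_lit 124) (.e (nat_lit 557108) (nat_lit 15) (.e (nat_lit 188452) (nat_lit 23) (.e (nat_lit 204885) (nat_lit 33) .nil)))) .nil)))))))))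

noncomputable def tv1161 : DT := (.nd (nat_lit 0) (.nd (nat_lit 1) (.nd (nat_lit 2) (.nd (nat_lit 3) (.nd (nat_lit 4) (.nd (nat_lit 5) (.nd (nat_lit 6) 
(.lf (nat_lit 85632) (.g (nat_lit 5156) (.e (nat_lit 1861) (nat_lit 124) (.e (nat_lit 557108) (nat_lit 15) (.e (nat_lit 188452) (nat_lit 23) (.e (nat_lit 204885) (nat_lit 33) (.e (nat_lit 401440) (nat_lit 9) (.e (nat_lit 426365) (nat_lit 15) .nil)))))) (.g (nat_lit 6) .nil .nil))) 
(.lf (nat_lit 85696) (.g (nat_lit 2966) (.e (nat_lit 1863) (nat_lit 124) (.e (nat_lit 557108) (nat_lit 15) (.e (nat_lit 188452) (nat_lit 23) (.e (nat_lit 204885) (nat_lit 33) (.e (nat_lit 401444) (nat_lit 9) (.e (nat_lit 433920) (nat_lit 15) .nil)))))) (.g (nat_lit 4) .nil .nil)))) (.nd (nat_lit 6) 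
(.lf (nat_lit 85664) (.g (nat_lit 2399) (.e (nat_lit 1863) (nat_lit 124) (.e (nat_lit 557097) (nat_lit 13) (.e (nat_lit 172115) (nat_lit 10) (.e (nat_lit 434244) (nat_lit 28) (.e (nat_lit 573458) (nat_lit 9) .nil))))) .nil)) 
(.lf (nat_lit 85728) (.g (nat_lit 1881) (.e (nat_lit 7936) (nat_lit 124) (.e (nat_lit 557109) (nat_lit 15) (.e (nat_lit 188441) (nat_lit 20) (.e (nat_lit 3272) (nat_lit 199) .nil)))) .nil)))) (.nd (nat_lit 5) (.nd (nat_lit 6) 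
(.lf (nat_lit 85648) (.g (nat_lit 2998) (.e (nat_lit 1862) (nat_lit 124) (.e (nat_lit 557106) (nat_lit 15) (.e (nat_lit 188452) (nat_lit 23) (.e (nat_lit 204885) (nat_lit 33) (.e (nat_lit 401440) (nat_lit 9) .nil))))) .nil)) 
(.lf (nat_lit 85712) (.g (nat_lit 1162) (.e (nat_lit 7936) (nat_lit 124) (.e (nat_lit 557103) (nat_lit 14) (.e (nat_lit 180285) (nat_lit 45) (.e (nat_lit 2570) (nat_lit 160) .nil)))) .nil))) (.nd (nat_lit 6) 
(.lf (nat_lit 85680) (.g (nat_lit 1185) (.e (nat_lit 1863) (nat_lit 124) (.e (nat_lit 557108) (nat_lit 15) (.e (nat_lit 188441) (nat_lit 20) .nil))) .nil)) 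
(.lf (nat_lit 85744) (.g (nat_lit 2503) (.e (nat_lit 1867) (nat_lit 125) (.e (nat_lit 565269) (nat_lit 6) (.e (nat_lit 81953) (nat_lit 22) (.e (nat_lit 90170) (nat_lit 13) (.e (nat_lit 179968) (nat_lit 20) (.e (nat_lit 114700) (nat_lit 20) .nil)))))) (.g (nat_lit 4) .nil .nil)))))) (.nd (nat_lit 4) (.nd (nat_lit 5) (.nd (nat_lit 6) 
(.lf (nat_lit 85640) (.g (nat_lit 5622) (.e (nat_lit 1861) (nat_lit 124) (.e (nat_lit 557109) (nat_lit 15) (.e (nat_lit 188452) (nat_lit 23) (.e (nat_lit 204885) (nat_lit 33) .nil)))) .nil)) 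
(.lf (nat_lit 85704) (.g (nat_lit 1288) (.e (nat_lit 7936) (nat_lit 124) (.e (nat_lit 557100) (nat_lit 13) (.e (nat_lit 172113) (nat_lit 10) (.e (nat_lit 434245) (nat_lit 28) .nil)))) .nil))) (.nd (nat_lit 6) 
(.lf (nat_lit 85672) (.g (nat_lit 1789) (.e (nat_lit 1863) (nat_lit 124) (.e (nat_lit 557107) (nat_lit 15) (.e (nat_lit 188441) (nat_lit 20) (.e (nat_lit 3272) (nat_lit 199) (.e (nat_lit 548896) (nat_lit 14) .nil))))) .nil)) 
(.lf (nat_lit 85736) (.g (nat_lit 3938) (.e (nat_lit 7936) (nat_lit 124) (.e (nat_lit 557109) (nat_lit 15) (.e (nat_lit 188452) (nat_lit 23) (.e (nat_lit 204852) (nat_lit 26) .nil)))) .nil)))) (.nd (nat_lit 5) (.nd (nat_lit 6) 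
(.lf (nat_lit 85656) (.g (nat_lit 2215) (.e (nat_lit 1862) (nat_lit 124) (.e (nat_lit 557109) (nat_lit 15) (.e (nat_lit 188441) (nat_lit 20) (.e (nat_lit 3272) (nat_lit 199) .nil)))) .nil)) 
(.lf (nat_lit 85720) (.g (nat_lit 656) (.e (nat_lit 7936) (nat_lit 124) (.e (nat_lit 557107) (nat_lit 15) (.e (nat_lit 188440) (nat_lit 20) .nil))) .nil))) (.nd (nat_lit 6) 
(.lf (nat_lit 85688) (.g (nat_lit 3436) (.e (nat_lit 1863) (nat_lit 124) (.e (nat_lit 557108) (nat_lit 15) (.e (nat_lit 188452) (nat_lit 23) (.e (nat_lit 204817) (nat_lit 17) (.e (nat_lit 7936) (nat_lit 361) (.e (nat_lit 172127) (nat_lit 15) .nil)))))) (.g (nat_lit 4) .nil .nil))) 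
(.lf (nat_lit 85752) (.g (nat_lit 3399) (.e (nat_lit 1867) (nat_lit 125) (.e (nat_lit 565269) (nat_lit 6) (.e (nat_lit 81956) (nat_lit 23) (.e (nat_lit 98356) (nat_lit 26) (.e (nat_lit 426448) (nat_lit 20) (.e (nat_lit 122624) (nat_lit 20) .nil)))))) (.g (nat_lit 5) .nil .nil))))))) (.nd (nat_lit 3) (.nd (nat_lit 4) (.nd (nat_lit 5) (.nd (nat_lit 6) 
(.lf (nat_lit 85636) (.g (nat_lit 5816) (.e (nat_lit 1861) (nat_lit 124) (.e (nat_lit 557109) (nat_lit 15) (.e (nat_lit 188452) (nat_lit 23) (.e (nat_lit 204816) (nat_lit 17) .nil)))) .nil)) 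
(.lf (nat_lit 85700) (.g (nat_lit 2094) (.e (nat_lit 7936) (nat_lit 124) (.e (nat_lit 557098) (nat_lit 13) (.e (nat_lit 172124) (nat_lit 14) (.e (nat_lit 491540) (nat_lit 3) (.e (nat_lit 98380) (nat_lit 31) .nil))))) .nil))) (.nd (nat_lit 6) 
(.lf (nat_lit 85668) (.g (nat_lit 686) (.e (nat_lit 1863) (nat_lit 124) (.e (nat_lit 557107) (nat_lit 15) (.e (nat_lit 188420) (nat_lit 0) .nil))) .nil)) 
(.lf (nat_lit 85732) (.g (nat_lit 3905) (.e (nat_lit 7936) (nat_lit 124) (.e (nat_lit 557109) (nat_lit 15) (.e (nat_lit 188452) (nat_lit 23) (.e (nat_lit 204815) (nat_lit 17) .nil)))) .nil)))) (.nd (nat_lit 5) (.nd (nat_lit 6) 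
(.lf (nat_lit 85652) (.g (nat_lit 3758) (.e (nat_lit 1862) (nat_lit 124) (.e (nat_lit 557108) (nat_lit 15) (.e (nat_lit 188452) (nat_lit 23) (.e (nat_lit 204817) (nat_lit 17) .nil)))) .nil)) 
(.lf (nat_lit 85716) (.g (nat_lit 1379) (.e (nat_lit 7936) (nat_lit 124) (.e (nat_lit 557104) (nat_lit 14) (.e (nat_lit 180278) (nat_lit 32) (.e (nat_lit 1252) (nat_lit 92) .nil)))) .nil))) (.nd (nat_lit 6) 
(.lf (nat_lit 85684) (.g (nat_lit 3574) (.e (nat_lit 1863) (nat_lit 124) (.e (nat_lit 557108) (nat_lit 15) (.e (nat_lit 188452) (nat_lit 23) (.e (nat_lit 204816) (nat_lit 17) .nil)))) .nil)) 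
(.lf (nat_lit 85748) (.g (nat_lit 2526) (.e (nat_lit 1867) (nat_lit 125) (.e (nat_lit 565269) (nat_lit 6) (.e (nat_lit 81954) (nat_lit 23) (.e (nat_lit 98384) (nat_lit 32) (.e (nat_lit 475214) (nat_lit 42) (.e (nat_lit 720911) (nat_lit 20) .nil)))))) (.g (nat_lit 4) .nil .nil)))))) (.nd (nat_lit 4) (.nd (nat_lit 5) (.nd (nat_lit 6) 
(.lf (nat_lit 85644) (.g (nat_lit 3307) (.e (nat_lit 1862) (nat_lit 124) (.e (nat_lit 557100) (nat_lit 13) (.e (nat_lit 172106) (nat_lit 10) (.e (nat_lit 434244) (nat_lit 28) (.e (nat_lit 573450) (nat_lit 9) (.e (nat_lit 457) (nat_lit 34) (.e (nat_lit 442368) (nat_lit 0) .nil))))))) (.g (nat_lit 4) .nil .nil))) 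
(.lf (nat_lit 85708) (.g (nat_lit 1100) (.e (nat_lit 7936) (nat_lit 124) (.e (nat_lit 557101) (nat_lit 13) (.e (nat_lit 172126) (nat_lit 14) (.e (nat_lit 491540) (nat_lit 3) .nil)))) .nil))) (.nd (nat_lit 6) 
(.lf (nat_lit 85676) (.g (nat_lit 3267) (.e (nat_lit 1863) (nat_lit 124) (.e (nat_lit 557108) (nat_lit 15) (.e (nat_lit 188434) (nat_lit 20) (.e (nat_lit 3272) (nat_lit 199) .nil)))) .nil)) 
(.lf (nat_lit 85740) (.g (nat_lit 3616) (.e (nat_lit 1867) (nat_lit 125) (.e (nat_lit 565268) (nat_lit 5) (.e (nat_lit 73747) (nat_lit 3) (.e (nat_lit 516195) (nat_lit 26) (.e (nat_lit 336021) (nat_lit 3) (.e (nat_lit 98317) (nat_lit 9) (.e (nat_lit 335892) (nat_lit 0) .nil))))))) (.g (nat_lit 7) .nil .nil))))) (.nd (nat_lit 5) (.nd (nat_lit 6) 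
(.lf (nat_lit 85660) (.g (nat_lit 4356) (.e (nat_lit 1862) (nat_lit 124) (.e (nat_lit 557109) (nat_lit 15) (.e (nat_lit 188452) (nat_lit 23) (.e (nat_lit 204817) (nat_lit 17) .nil)))) .nil)) 
(.lf (nat_lit 85724) (.g (nat_lit 2988) (.e (nat_lit 7936) (nat_lit 124) (.e (nat_lit 557108) (nat_lit 15) (.e (nat_lit 188452) (nat_lit 23) (.e (nat_lit 204816) (nat_lit 17) .nil)))) .nil))) (.nd (nat_lit 6) 
(.lf (nat_lit 85692) (.g (nat_lit 2431) (.e (nat_lit 1863) (nat_lit 124) (.e (nat_lit 557108) (nat_lit 15) (.e (nat_lit 188452) (nat_lit 23) (.e (nat_lit 204885) (nat_lit 33) .nil)))) .nil)) 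
(.lf (nat_lit 85756) (.g (nat_lit 810) (.e (nat_lit 1872) (nat_lit 126) (.e (nat_lit 573451) (nat_lit 9) (.e (nat_lit 1543) (nat_lit 109) .nil))) .nil))))))) (.nd (nat_lit 2) (.nd (nat_lit 3) (.nd (nat_lit 4) (.nd (nat_lit 5) (.nd (nat_lit 6) 
(.lf (nat_lit 85634) (.g (nat_lit 3613) (.e (nat_lit 1861) (nat_lit 124) (.e (nat_lit 557109) (nat_lit 15) (.e (nat_lit 188449) (nat_lit 22) (.e (nat_lit 196661) (nat_lit 12) .nil)))) .nil)) 
(.lf (nat_lit 85698) (.g (nat_lit 1707) (.e (nat_lit 7936) (nat_lit 124) (.e (nat_lit 557097) (nat_lit 13) (.e (nat_lit 172115) (nat_lit 10) (.e (nat_lit 434244) (nat_lit 28) (.e (nat_lit 573450) (nat_lit 9) .nil))))) .nil))) (.nd (nat_lit 6) 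
(.lf (nat_lit 85666) (.g (nat_lit 647) (.e (nat_lit 1863) (nat_lit 124) (.e (nat_lit 557103) (nat_lit 14) (.e (nat_lit 180276) (nat_lit 32) .nil))) .nil)) 
(.lf (nat_lit 85730) (.g (nat_lit 2428) (.e (nat_lit 7936) (nat_lit 124) (.e (nat_lit 557109) (nat_lit 15) (.e (nat_lit 188449) (nat_lit 22) (.e (nat_lit 196661) (nat_lit 12) .nil)))) .nil)))) (.nd (nat_lit 5) (.nd (nat_lit 6) 
(.lf (nat_lit 85650) (.g (nat_lit 1110) (.e (nat_lit 1862) (nat_lit 124) (.e (nat_lit 557108) (nat_lit 15) (.e (nat_lit 188452) (nat_lit 23) .nil))) .nil)) 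
(.lf (nat_lit 85714) (.g (nat_lit 696) (.e (nat_lit 7936) (nat_lit 124) (.e (nat_lit 557104) (nat_lit 14) (.e (nat_lit 180277) (nat_lit 32) .nil))) .nil))) (.nd (nat_lit 6) 
(.lf (nat_lit 85682) (.g (nat_lit 498) (.e (nat_lit 1863) (nat_lit 124) (.e (nat_lit 557108) (nat_lit 15) (.e (nat_lit 188452) (nat_lit 23) .nil))) .nil)) 
(.lf (nat_lit 85746) (.g (nat_lit 2497) (.e (nat_lit 1867) (nat_lit 125) (.e (nat_lit 565269) (nat_lit 6) (.e (nat_lit 81953) (nat_lit 22) (.e (nat_lit 90170) (nat_lit 13) (.e (nat_lit 179968) (nat_lit 20) (.e (nat_lit 122624) (nat_lit 20) .nil)))))) (.g (nat_lit 4) .nil .nil)))))) (.nd (nat_lit 4) (.nd (nat_lit 5) (.nd (nat_lit 6) 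
(.lf (nat_lit 85642) (.g (nat_lit 2515) (.e (nat_lit 1862) (nat_lit 124) (.e (nat_lit 557100) (nat_lit 13) (.e (nat_lit 172106) (nat_lit 10) (.e (nat_lit 434238) (nat_lit 25) .nil)))) .nil)) 
(.lf (nat_lit 85706) (.g (nat_lit 1454) (.e (nat_lit 7936) (nat_lit 124) (.e (nat_lit 557101) (nat_lit 13) (.e (nat_lit 172124) (nat_lit 14) (.e (nat_lit 491540) (nat_lit 3) (.e (nat_lit 98380) (nat_lit 31) .nil))))) .nil))) (.nd (nat_lit 6) 
(.lf (nat_lit 85674) (.g (nat_lit 987) (.e (nat_lit 1863) (nat_lit 124) (.e (nat_lit 557108) (nat_lit 15) (.e (nat_lit 188420) (nat_lit 0) .nil))) .nil)) 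
(.lf (nat_lit 85738) (.g (nat_lit 1873) (.e (nat_lit 7936) (nat_lit 124) (.e (nat_lit 557109) (nat_lit 15) (.e (nat_lit 188455) (nat_lit 24) (.e (nat_lit 237312) (nat_lit 138) .nil)))) .nil)))) (.nd (nat_lit 5) (.nd (nat_lit 6) 
(.lf (nat_lit 85658) (.g (nat_lit 1037) (.e (nat_lit 1862) (nat_lit 124) (.e (nat_lit 557109) (nat_lit 15) (.e (nat_lit 188452) (nat_lit 23) .nil))) .nil)) 
(.lf (nat_lit 85722) (.g (nat_lit 241) (.e (nat_lit 7936) (nat_lit 124) (.e (nat_lit 557108) (nat_lit 15) (.e (nat_lit 188452) (nat_lit 23) .nil))) .nil))) (.nd (nat_lit 6) 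
(.lf (nat_lit 85690) (.g (nat_lit 3603) (.e (nat_lit 1863) (nat_lit 124) (.e (nat_lit 557108) (nat_lit 15) (.e (nat_lit 188452) (nat_lit 23) (.e (nat_lit 204846) (nat_lit 24) .nil)))) .nil)) 
(.lf (nat_lit 85754) (.g (nat_lit 3110) (.e (nat_lit 1867) (nat_lit 125) (.e (nat_lit 565269) (nat_lit 6) (.e (nat_lit 81956) (nat_lit 23) (.e (nat_lit 98384) (nat_lit 32) (.e (nat_lit 475214) (nat_lit 42) (.e (nat_lit 728832) (nat_lit 20) .nil)))))) (.g (nat_lit 5) .nil .nil))))))) (.nd (nat_lit 3) (.nd (nat_lit 4) (.nd (nat_lit 5) (.nd (nat_lit 6) 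
(.lf (nat_lit 85638) (.g (nat_lit 3288) (.e (nat_lit 1861) (nat_lit 124) (.e (nat_lit 557109) (nat_lit 15) (.e (nat_lit 188452) (nat_lit 23) (.e (nat_lit 204821) (nat_lit 17) .nil)))) .nil)) 
(.lf (nat_lit 85702) (.g (nat_lit 1756) (.e (nat_lit 7936) (nat_lit 124) (.e (nat_lit 557098) (nat_lit 13) (.e (nat_lit 172126) (nat_lit 14) (.e (nat_lit 491540) (nat_lit 3) .nil)))) .nil))) (.nd (nat_lit 6) 
(.lf (nat_lit 85670) (.g (nat_lit 709) (.e (nat_lit 1863) (nat_lit 124) (.e (nat_lit 557107) (nat_lit 15) (.e (nat_lit 188439) (nat_lit 20) .nil))) .nil)) 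
(.lf (nat_lit 85734) (.g (nat_lit 3807) (.e (nat_lit 7936) (nat_lit 124) (.e (nat_lit 557109) (nat_lit 15) (.e (nat_lit 188452) (nat_lit 23) (.e (nat_lit 204817) (nat_lit 17) .nil)))) .nil)))) (.nd (nat_lit 5) (.nd (nat_lit 6) 
(.lf (nat_lit 85654) (.g (nat_lit 2551) (.e (nat_lit 1862) (nat_lit 124) (.e (nat_lit 557109) (nat_lit 15) (.e (nat_lit 188434) (nat_lit 20) (.e (nat_lit 3271) (nat_lit 199) .nil)))) .nil)) 
(.lf (nat_lit 85718) (.g (nat_lit 939) (.e (nat_lit 7936) (nat_lit 124) (.e (nat_lit 557105) (nat_lit 14) (.e (nat_lit 180277) (nat_lit 32) (.e (nat_lit 1253) (nat_lit 92) .nil)))) .nil))) (.nd (nat_lit 6) 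
(.lf (nat_lit 85686) (.g (nat_lit 4869) (.e (nat_lit 1863) (nat_lit 124) (.e (nat_lit 557108) (nat_lit 15) (.e (nat_lit 188452) (nat_lit 23) (.e (nat_lit 204816) (nat_lit 17) (.e (nat_lit 6720) (nat_lit 361) (.e (nat_lit 172127) (nat_lit 15) .nil)))))) (.g (nat_lit 0) .nil .nil))) 
(.lf (nat_lit 85750) (.g (nat_lit 451) (.e (nat_lit 1867) (nat_lit 125) (.e (nat_lit 565269) (nat_lit 6) (.e (nat_lit 81956) (nat_lit 23) .nil))) .nil))))) (.nd (nat_lit 4) (.nd (nat_lit 5) (.nd (nat_lit 6) 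
(.lf (nat_lit 85646) (.g (nat_lit 2726) (.e (nat_lit 1862) (nat_lit 124) (.e (nat_lit 557100) (nat_lit 13) (.e (nat_lit 172113) (nat_lit 10) (.e (nat_lit 434245) (nat_lit 28) (.e (nat_lit 573450) (nat_lit 9) (.e (nat_lit 457) (nat_lit 34) (.e (nat_lit 442368) (nat_lit 0) .nil))))))) (.g (nat_lit 4) .nil .nil))) 
(.lf (nat_lit 85710) (.g (nat_lit 568) (.e (nat_lit 7936) (nat_lit 124) (.e (nat_lit 557103) (nat_lit 14) (.e (nat_lit 188160) (nat_lit 35) .nil))) .nil))) (.nd (nat_lit 6) 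
(.lf (nat_lit 85678) (.g (nat_lit 2604) (.e (nat_lit 1863) (nat_lit 124) (.e (nat_lit 557108) (nat_lit 15) (.e (nat_lit 188435) (nat_lit 20) (.e (nat_lit 3272) (nat_lit 199) .nil)))) .nil)) 
(.lf (nat_lit 85742) (.g (nat_lit 2460) (.e (nat_lit 1867) (nat_lit 125) (.e (nat_lit 565269) (nat_lit 6) (.e (nat_lit 81927) (nat_lit 11) (.e (nat_lit 426500) (nat_lit 27) (.e (nat_lit 335995) (nat_lit 1) (.e (nat_lit 57847) (nat_lit 252) (.e (nat_lit 57345) (nat_lit 0) .nil))))))) (.g (nat_lit 6) .nil .nil))))) (.nd (nat_lit 5) (.nd (nat_lit 6) 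
(.lf (nat_lit 85662) (.g (nat_lit 5899) (.e (nat_lit 1862) (nat_lit 124) (.e (nat_lit 557109) (nat_lit 15) (.e (nat_lit 188452) (nat_lit 23) (.e (nat_lit 204884) (nat_lit 33) .nil)))) .nil)) 
(.lf (nat_lit 85726) (.g (nat_lit 500) (.e (nat_lit 7936) (nat_lit 124) (.e (nat_lit 557109) (nat_lit 15) (.e (nat_lit 188434) (nat_lit 20) .nil))) .nil))) (.nd (nat_lit 6) 
(.lf (nat_lit 85694) (.g (nat_lit 3857) (.e (nat_lit 1863) (nat_lit 124) (.e (nat_lit 557108) (nat_lit 15) (.e (nat_lit 188452) (nat_lit 23) (.e (nat_lit 204885) (nat_lit 33) (.e (nat_lit 401440) (nat_lit 9) (.e (nat_lit 426365) (nat_lit 15) .nil)))))) (.g (nat_lit 0) .nil .nil))) 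
(.lf (nat_lit 85758) (.g (nat_lit 2566) (.e (nat_lit 1872) (nat_lit 126) (.e (nat_lit 573487) (nat_lit 14) (.e (nat_lit 73753) (nat_lit 8) (.e (nat_lit 557100) (nat_lit 13) (.e (nat_lit 172064) (nat_lit 2) .nil))))) .nil)))))))) (.nd (nat_lit 1) (.nd (nat_lit 2) (.nd (nat_lit 3) (.nd (nat_lit 4) (.nd (nat_lit 5) (.nd (nat_lit 6) 
(.lf (nat_lit 85633) (.g (nat_lit 956) (.e (nat_lit 1861) (nat_lit 124) (.e (nat_lit 557109) (nat_lit 15) (.e (nat_lit 188434) (nat_lit 20) .nil))) .nil)) 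
(.lf (nat_lit 85697) (.g (nat_lit 1078) (.e (nat_lit 1863) (nat_lit 124) (.e (nat_lit 557108) (nat_lit 15) (.e (nat_lit 188455) (nat_lit 24) .nil))) .nil))) (.nd (nat_lit 6) 
(.lf (nat_lit 85665) (.g (nat_lit 1360) (.e (nat_lit 1863) (nat_lit 124) (.e (nat_lit 557097) (nat_lit 13) (.e (nat_lit 172126) (nat_lit 14) (.e (nat_lit 491540) (nat_lit 3) .nil)))) .nil)) 
(.lf (nat_lit 85729) (.g (nat_lit 3643) (.e (nat_lit 7936) (nat_lit 124) (.e (nat_lit 557109) (nat_lit 15) (.e (nat_lit 188449) (nat_lit 22) (.e (nat_lit 196628) (nat_lit 9) .nil)))) .nil)))) (.nd (nat_lit 5) (.nd (nat_lit 6) 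
(.lf (nat_lit 85649) (.g (nat_lit 1308) (.e (nat_lit 1862) (nat_lit 124) (.e (nat_lit 557108) (nat_lit 15) (.e (nat_lit 188434) (nat_lit 20) .nil))) .nil)) 
(.lf (nat_lit 85713) (.g (nat_lit 1184) (.e (nat_lit 7936) (nat_lit 124) (.e (nat_lit 557103) (nat_lit 14) (.e (nat_lit 180285) (nat_lit 45) (.e (nat_lit 2571) (nat_lit 160) .nil)))) .nil))) (.nd (nat_lit 6) 
(.lf (nat_lit 85681) (.g (nat_lit 1046) (.e (nat_lit 1863) (nat_lit 124) (.e (nat_lit 557108) (nat_lit 15) (.e (nat_lit 188449) (nat_lit 22) .nil))) .nil)) 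
(.lf (nat_lit 85745) (.g (nat_lit 2262) (.e (nat_lit 1867) (nat_lit 125) (.e (nat_lit 565269) (nat_lit 6) (.e (nat_lit 81953) (nat_lit 22) (.e (nat_lit 90170) (nat_lit 13) (.e (nat_lit 179968) (nat_lit 20) (.e (nat_lit 114701) (nat_lit 20) .nil)))))) (.g (nat_lit 4) .nil .nil)))))) (.nd (nat_lit 4) (.nd (nat_lit 5) (.nd (nat_lit 6) 
(.lf (nat_lit 85641) (.g (nat_lit 964) (.e (nat_lit 1862) (nat_lit 124) (.e (nat_lit 557098) (nat_lit 13) (.e (nat_lit 172124) (nat_lit 14) .nil))) .nil)) 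
(.lf (nat_lit 85705) (.g (nat_lit 1750) (.e (nat_lit 7936) (nat_lit 124) (.e (nat_lit 557100) (nat_lit 13) (.e (nat_lit 172126) (nat_lit 14) (.e (nat_lit 491540) (nat_lit 3) .nil)))) .nil))) (.nd (nat_lit 6) 
(.lf (nat_lit 85673) (.g (nat_lit 1162) (.e (nat_lit 1863) (nat_lit 124) (.e (nat_lit 557108) (nat_lit 15) (.e (nat_lit 188419) (nat_lit 0) .nil))) .nil)) 
(.lf (nat_lit 85737) (.g (nat_lit 4009) (.e (nat_lit 7936) (nat_lit 124) (.e (nat_lit 557109) (nat_lit 15) (.e (nat_lit 188452) (nat_lit 23) (.e (nat_lit 204881) (nat_lit 32) .nil)))) .nil)))) (.nd (nat_lit 5) (.nd (nat_lit 6) 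
(.lf (nat_lit 85657) (.g (nat_lit 3607) (.e (nat_lit 1862) (nat_lit 124) (.e (nat_lit 557109) (nat_lit 15) (.e (nat_lit 188449) (nat_lit 22) (.e (nat_lit 196661) (nat_lit 12) .nil)))) .nil)) 
(.lf (nat_lit 85721) (.g (nat_lit 2261) (.e (nat_lit 7936) (nat_lit 124) (.e (nat_lit 557107) (nat_lit 15) (.e (nat_lit 188452) (nat_lit 23) (.e (nat_lit 204885) (nat_lit 33) .nil)))) .nil))) (.nd (nat_lit 6) 
(.lf (nat_lit 85689) (.g (nat_lit 4456) (.e (nat_lit 1863) (nat_lit 124) (.e (nat_lit 557108) (nat_lit 15) (.e (nat_lit 188452) (nat_lit 23) (.e (nat_lit 204821) (nat_lit 17) .nil)))) .nil)) 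
(.lf (nat_lit 85753) (.g (nat_lit 3449) (.e (nat_lit 1867) (nat_lit 125) (.e (nat_lit 565269) (nat_lit 6) (.e (nat_lit 81956) (nat_lit 23) (.e (nat_lit 98384) (nat_lit 32) (.e (nat_lit 475214) (nat_lit 42) (.e (nat_lit 720911) (nat_lit 20) .nil)))))) (.g (nat_lit 5) .nil .nil))))))) (.nd (nat_lit 3) (.nd (nat_lit 4) (.nd (nat_lit 5) (.nd (nat_lit 6) 
(.lf (nat_lit 85637) (.g (nat_lit 4367) (.e (nat_lit 1861) (nat_lit 124) (.e (nat_lit 557109) (nat_lit 15) (.e (nat_lit 188452) (nat_lit 23) (.e (nat_lit 204817) (nat_lit 17) .nil)))) .nil)) 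
(.lf (nat_lit 85701) (.g (nat_lit 2087) (.e (nat_lit 7936) (nat_lit 124) (.e (nat_lit 557098) (nat_lit 13) (.e (nat_lit 172124) (nat_lit 14) (.e (nat_lit 491540) (nat_lit 3) (.e (nat_lit 98381) (nat_lit 31) .nil))))) .nil))) (.nd (nat_lit 6) 
(.lf (nat_lit 85669) (.g (nat_lit 669) (.e (nat_lit 1863) (nat_lit 124) (.e (nat_lit 557107) (nat_lit 15) (.e (nat_lit 196352) (nat_lit 0) .nil))) .nil)) 
(.lf (nat_lit 85733) (.g (nat_lit 4098) (.e (nat_lit 7936) (nat_lit 124) (.e (nat_lit 557109) (nat_lit 15) (.e (nat_lit 188452) (nat_lit 23) (.e (nat_lit 204816) (nat_lit 17) .nil)))) .nil)))) (.nd (nat_lit 5) (.nd (nat_lit 6) 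
(.lf (nat_lit 85653) (.g (nat_lit 4935) (.e (nat_lit 1862) (nat_lit 124) (.e (nat_lit 557108) (nat_lit 15) (.e (nat_lit 188452) (nat_lit 23) (.e (nat_lit 204884) (nat_lit 33) .nil)))) .nil)) 
(.lf (nat_lit 85717) (.g (nat_lit 1408) (.e (nat_lit 7936) (nat_lit 124) (.e (nat_lit 557104) (nat_lit 14) (.e (nat_lit 180278) (nat_lit 32) (.e (nat_lit 1253) (nat_lit 92) .nil)))) .nil))) (.nd (nat_lit 6) 
(.lf (nat_lit 85685) (.g (nat_lit 4966) (.e (nat_lit 1863) (nat_lit 124) (.e (nat_lit 557108) (nat_lit 15) (.e (nat_lit 188452) (nat_lit 23) (.e (nat_lit 204816) (nat_lit 17) (.e (nat_lit 6718) (nat_lit 361) (.e (nat_lit 172127) (nat_lit 15) .nil)))))) (.g (nat_lit 5) .nil .nil))) 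
(.lf (nat_lit 85749) (.g (nat_lit 2596) (.e (nat_lit 1867) (nat_lit 125) (.e (nat_lit 565269) (nat_lit 6) (.e (nat_lit 81954) (nat_lit 23) (.e (nat_lit 98384) (nat_lit 32) (.e (nat_lit 475214) (nat_lit 42) (.e (nat_lit 728832) (nat_lit 20) .nil)))))) (.g (nat_lit 5) .nil .nil)))))) (.nd (nat_lit 4) (.nd (nat_lit 5) (.nd (nat_lit 6) 
(.lf (nat_lit 85645) (.g (nat_lit 2091) (.e (nat_lit 1862) (nat_lit 124) (.e (nat_lit 557100) (nat_lit 13) (.e (nat_lit 172113) (nat_lit 10) (.e (nat_lit 434245) (nat_lit 28) (.e (nat_lit 573449) (nat_lit 9) .nil))))) .nil)) 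
(.lf (nat_lit 85709) (.g (nat_lit 630) (.e (nat_lit 7936) (nat_lit 124) (.e (nat_lit 557103) (nat_lit 14) (.e (nat_lit 180276) (nat_lit 32) .nil))) .nil))) (.nd (nat_lit 6) 
(.lf (nat_lit 85677) (.g (nat_lit 1035) (.e (nat_lit 1863) (nat_lit 124) (.e (nat_lit 557108) (nat_lit 15) (.e (nat_lit 188435) (nat_lit 20) .nil))) .nil)) 
(.lf (nat_lit 85741) (.g (nat_lit 3037) (.e (nat_lit 1867) (nat_lit 125) (.e (nat_lit 565268) (nat_lit 5) (.e (nat_lit 73747) (nat_lit 3) (.e (nat_lit 516195) (nat_lit 26) (.e (nat_lit 336027) (nat_lit 3) (.e (nat_lit 98317) (nat_lit 9) (.e (nat_lit 335892) (nat_lit 0) .nil))))))) (.g (nat_lit 7) .nil .nil))))) (.nd (nat_lit 5) (.nd (nat_lit 6) 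
(.lf (nat_lit 85661) (.g (nat_lit 3277) (.e (nat_lit 1862) (nat_lit 124) (.e (nat_lit 557109) (nat_lit 15) (.e (nat_lit 188452) (nat_lit 23) (.e (nat_lit 204821) (nat_lit 17) .nil)))) .nil)) 
(.lf (nat_lit 85725) (.g (nat_lit 2365) (.e (nat_lit 7936) (nat_lit 124) (.e (nat_lit 557108) (nat_lit 15) (.e (nat_lit 188452) (nat_lit 23) (.e (nat_lit 204885) (nat_lit 33) .nil)))) .nil))) (.nd (nat_lit 6) 
(.lf (nat_lit 85693) (.g (nat_lit 2675) (.e (nat_lit 1863) (nat_lit 124) (.e (nat_lit 557108) (nat_lit 15) (.e (nat_lit 188452) (nat_lit 23) (.e (nat_lit 204885) (nat_lit 33) (.e (nat_lit 401440) (nat_lit 9) .nil))))) .nil)) 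
(.lf (nat_lit 85757) (.g (nat_lit 1417) (.e (nat_lit 1872) (nat_lit 126) (.e (nat_lit 573487) (nat_lit 14) (.e (nat_lit 73753) (nat_lit 8) (.e (nat_lit 557097) (nat_lit 13) .nil)))) .nil))))))) (.nd (nat_lit 2) (.nd (nat_lit 3) (.nd (nat_lit 4) (.nd (nat_lit 5) (.nd (nat_lit 6) 
(.lf (nat_lit 85635) (.g (nat_lit 987) (.e (nat_lit 1861) (nat_lit 124) (.e (nat_lit 557109) (nat_lit 15) (.e (nat_lit 188452) (nat_lit 23) .nil))) .nil)) 
(.lf (nat_lit 85699) (.g (nat_lit 589) (.e (nat_lit 7936) (nat_lit 124) (.e (nat_lit 557097) (nat_lit 13) (.e (nat_lit 172124) (nat_lit 14) .nil))) .nil))) (.nd (nat_lit 6) 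
(.lf (nat_lit 85667) (.g (nat_lit 877) (.e (nat_lit 1863) (nat_lit 124) (.e (nat_lit 557103) (nat_lit 14) (.e (nat_lit 180277) (nat_lit 32) .nil))) .nil)) 
(.lf (nat_lit 85731) (.g (nat_lit 558) (.e (nat_lit 7936) (nat_lit 124) (.e (nat_lit 557109) (nat_lit 15) (.e (nat_lit 188452) (nat_lit 23) .nil))) .nil)))) (.nd (nat_lit 5) (.nd (nat_lit 6) 
(.lf (nat_lit 85651) (.g (nat_lit 4870) (.e (nat_lit 1862) (nat_lit 124) (.e (nat_lit 557108) (nat_lit 15) (.e (nat_lit 188452) (nat_lit 23) (.e (nat_lit 204816) (nat_lit 17) .nil)))) .nil)) 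
(.lf (nat_lit 85715) (.g (nat_lit 1282) (.e (nat_lit 7936) (nat_lit 124) (.e (nat_lit 557104) (nat_lit 14) (.e (nat_lit 180277) (nat_lit 32) (.e (nat_lit 1253) (nat_lit 92) .nil)))) .nil))) (.nd (nat_lit 6) 
(.lf (nat_lit 85683) (.g (nat_lit 2806) (.e (nat_lit 1863) (nat_lit 124) (.e (nat_lit 557108) (nat_lit 15) (.e (nat_lit 188452) (nat_lit 23) (.e (nat_lit 204815) (nat_lit 17) .nil)))) .nil)) 
(.lf (nat_lit 85747) (.g (nat_lit 3109) (.e (nat_lit 1867) (nat_lit 125) (.e (nat_lit 565269) (nat_lit 6) (.e (nat_lit 81954) (nat_lit 23) (.e (nat_lit 98356) (nat_lit 26) (.e (nat_lit 426448) (nat_lit 20) (.e (nat_lit 122624) (nat_lit 20) .nil)))))) (.g (nat_lit 5) .nil .nil)))))) (.nd (nat_lit 4) (.nd (nat_lit 5) (.nd (nat_lit 6) 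
(.lf (nat_lit 85643) (.g (nat_lit 2485) (.e (nat_lit 1862) (nat_lit 124) (.e (nat_lit 557100) (nat_lit 13) (.e (nat_lit 172106) (nat_lit 10) (.e (nat_lit 434244) (nat_lit 28) .nil)))) .nil)) 
(.lf (nat_lit 85707) (.g (nat_lit 1436) (.e (nat_lit 7936) (nat_lit 124) (.e (nat_lit 557101) (nat_lit 13) (.e (nat_lit 172124) (nat_lit 14) (.e (nat_lit 491540) (nat_lit 3) (.e (nat_lit 98381) (nat_lit 31) .nil))))) .nil))) (.nd (nat_lit 6) 
(.lf (nat_lit 85675) (.g (nat_lit 3299) (.e (nat_lit 1863) (nat_lit 124) (.e (nat_lit 557108) (nat_lit 15) (.e (nat_lit 188434) (nat_lit 20) (.e (nat_lit 3271) (nat_lit 199) .nil)))) .nil)) 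
(.lf (nat_lit 85739) (.g (nat_lit 2554) (.e (nat_lit 7936) (nat_lit 124) (.e (nat_lit 557109) (nat_lit 15) (.e (nat_lit 188458) (nat_lit 25) (.e (nat_lit 245784) (nat_lit 9) .nil)))) .nil)))) (.nd (nat_lit 5) (.nd (nat_lit 6) 
(.lf (nat_lit 85659) (.g (nat_lit 5804) (.e (nat_lit 1862) (nat_lit 124) (.e (nat_lit 557109) (nat_lit 15) (.e (nat_lit 188452) (nat_lit 23) (.e (nat_lit 204816) (nat_lit 17) .nil)))) .nil)) 
(.lf (nat_lit 85723) (.g (nat_lit 3137) (.e (nat_lit 7936) (nat_lit 124) (.e (nat_lit 557108) (nat_lit 15) (.e (nat_lit 188452) (nat_lit 23) (.e (nat_lit 204815) (nat_lit 17) .nil)))) .nil))) (.nd (nat_lit 6) 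
(.lf (nat_lit 85691) (.g (nat_lit 3738) (.e (nat_lit 1863) (nat_lit 124) (.e (nat_lit 557108) (nat_lit 15) (.e (nat_lit 188452) (nat_lit 23) (.e (nat_lit 204884) (nat_lit 33) .nil)))) .nil)) 
(.lf (nat_lit 85755) (.g (nat_lit 2006) (.e (nat_lit 7936) (nat_lit 125) (.e (nat_lit 565269) (nat_lit 6) (.e (nat_lit 81956) (nat_lit 23) (.e (nat_lit 98384) (nat_lit 32) (.e (nat_lit 475214) (nat_lit 42) .nil))))) .nil)))))) (.nd (nat_lit 3) (.nd (nat_lit 4) (.nd (nat_lit 5) (.nd (nat_lit 6) 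
(.lf (nat_lit 85639) (.g (nat_lit 5910) (.e (nat_lit 1861) (nat_lit 124) (.e (nat_lit 557109) (nat_lit 15) (.e (nat_lit 188452) (nat_lit 23) (.e (nat_lit 204884) (nat_lit 33) .nil)))) .nil)) 
(.lf (nat_lit 85703) (.g (nat_lit 1933) (.e (nat_lit 7936) (nat_lit 124) (.e (nat_lit 557100) (nat_lit 13) (.e (nat_lit 172106) (nat_lit 10) (.e (nat_lit 434244) (nat_lit 28) .nil)))) .nil))) (.nd (nat_lit 6) 
(.lf (nat_lit 85671) (.g (nat_lit 1138) (.e (nat_lit 1863) (nat_lit 124) (.e (nat_lit 557107) (nat_lit 15) (.e (nat_lit 188441) (nat_lit 20) (.e (nat_lit 3271) (nat_lit 199) .nil)))) .nil)) 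
(.lf (nat_lit 85735) (.g (nat_lit 2700) (.e (nat_lit 7936) (nat_lit 124) (.e (nat_lit 557109) (nat_lit 15) (.e (nat_lit 188452) (nat_lit 23) (.e (nat_lit 204821) (nat_lit 17) .nil)))) .nil)))) (.nd (nat_lit 5) (.nd (nat_lit 6) 
(.lf (nat_lit 85655) (.g (nat_lit 2548) (.e (nat_lit 1862) (nat_lit 124) (.e (nat_lit 557109) (nat_lit 15) (.e (nat_lit 188434) (nat_lit 20) (.e (nat_lit 3272) (nat_lit 199) .nil)))) .nil)) 
(.lf (nat_lit 85719) (.g (nat_lit 615) (.e (nat_lit 7936) (nat_lit 124) (.e (nat_lit 557107) (nat_lit 15) (.e (nat_lit 188439) (nat_lit 20) .nil))) .nil))) (.nd (nat_lit 6) 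
(.lf (nat_lit 85687) (.g (nat_lit 4196) (.e (nat_lit 1863) (nat_lit 124) (.e (nat_lit 557108) (nat_lit 15) (.e (nat_lit 188452) (nat_lit 23) (.e (nat_lit 204816) (nat_lit 17) (.e (nat_lit 7936) (nat_lit 361) .nil))))) .nil)) 
(.lf (nat_lit 85751) (.g (nat_lit 1926) (.e (nat_lit 1867) (nat_lit 125) (.e (nat_lit 565269) (nat_lit 6) (.e (nat_lit 81956) (nat_lit 23) (.e (nat_lit 98356) (nat_lit 26) (.e (nat_lit 426448) (nat_lit 20) .nil))))) .nil))))) (.nd (nat_lit 4) (.nd (nat_lit 5) (.nd (nat_lit 6) 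
(.lf (nat_lit 85647) (.g (nat_lit 2081) (.e (nat_lit 1862) (nat_lit 124) (.e (nat_lit 557101) (nat_lit 13) (.e (nat_lit 172115) (nat_lit 10) (.e (nat_lit 434244) (nat_lit 28) (.e (nat_lit 573458) (nat_lit 9) .nil))))) .nil)) 
(.lf (nat_lit 85711) (.g (nat_lit 1194) (.e (nat_lit 7936) (nat_lit 124) (.e (nat_lit 557103) (nat_lit 14) (.e (nat_lit 180285) (nat_lit 45) (.e (nat_lit 2569) (nat_lit 160) .nil)))) .nil))) (.nd (nat_lit 6) 
(.lf (nat_lit 85679) (.g (nat_lit 3049) (.e (nat_lit 1863) (nat_lit 124) (.e (nat_lit 557108) (nat_lit 15) (.e (nat_lit 188435) (nat_lit 20) (.e (nat_lit 3272) (nat_lit 199) (.e (nat_lit 548898) (nat_lit 14) .nil))))) .nil)) 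
(.lf (nat_lit 85743) (.g (nat_lit 2014) (.e (nat_lit 1867) (nat_lit 125) (.e (nat_lit 565269) (nat_lit 6) (.e (nat_lit 81951) (nat_lit 22) (.e (nat_lit 90170) (nat_lit 13) (.e (nat_lit 179968) (nat_lit 20) .nil))))) .nil)))) (.nd (nat_lit 5) (.nd (nat_lit 6) 
(.lf (nat_lit 85663) (.g (nat_lit 5515) (.e (nat_lit 1862) (nat_lit 124) (.e (nat_lit 557109) (nat_lit 15) (.e (nat_lit 188452) (nat_lit 23) (.e (nat_lit 204885) (nat_lit 33) .nil)))) .nil)) 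
(.lf (nat_lit 85727) (.g (nat_lit 1801) (.e (nat_lit 7936) (nat_lit 124) (.e (nat_lit 557109) (nat_lit 15) (.e (nat_lit 188434) (nat_lit 20) (.e (nat_lit 3271) (nat_lit 199) .nil)))) .nil))) (.nd (nat_lit 6) 
(.lf (nat_lit 85695) (.g (nat_lit 3889) (.e (nat_lit 1863) (nat_lit 124) (.e (nat_lit 557108) (nat_lit 15) (.e (nat_lit 188452) (nat_lit 23) (.e (nat_lit 204885) (nat_lit 33) (.e (nat_lit 401444) (nat_lit 9) (.e (nat_lit 426349) (nat_lit 15) .nil)))))) (.g (nat_lit 5) .nil .nil))) 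
(.lf (nat_lit 85759) (.g (nat_lit 2319) (.e (nat_lit 1872) (nat_lit 126) (.e (nat_lit 573488) (nat_lit 14) (.e (nat_lit 73755) (nat_lit 8) (.e (nat_lit 557096) (nat_lit 13) (.e (nat_lit 172064) (nat_lit 2) (.e (nat_lit 204544) (nat_lit 2) (.e (nat_lit 24580) (nat_lit 0) .nil))))))) (.g (nat_lit 4) .nil .nil))))))))))

noncomputable def tv1162 : DT := (.nd (nat_lit 0) (.nd (nat_lit 1) (.nd (nat_lit 2) (.nd (nat_lit 3) (.nd (nat_lit 4) (.nd (nat_lit 5) (.nd (nat_lit 6) 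
(.lf (nat_lit 85760) (.g (nat_lit 3384) (.e (nat_lit 1872) (nat_lit 126) (.e (nat_lit 573488) (nat_lit 14) (.e (nat_lit 73755) (nat_lit 8) (.e (nat_lit 557098) (nat_lit 13) (.e (nat_lit 172062) (nat_lit 2) .nil))))) .nil)) 
(.lf (nat_lit 85824) (.g (nat_lit 4179) (.e (nat_lit 1877) (nat_lit 126) (.e (nat_lit 573488) (nat_lit 14) (.e (nat_lit 73755) (nat_lit 8) (.e (nat_lit 557098) (nat_lit 13) (.e (nat_lit 172064) (nat_lit 2) (.e (nat_lit 204544) (nat_lit 2) (.e (nat_lit 24580) (nat_lit 0) .nil))))))) (.g (nat_lit 5) .nil .nil)))) (.nd (nat_lit 6) 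
(.lf (nat_lit 85792) (.g (nat_lit 1855) (.e (nat_lit 1874) (nat_lit 126) (.e (nat_lit 573489) (nat_lit 14) (.e (nat_lit 73755) (nat_lit 8) (.e (nat_lit 557098) (nat_lit 13) .nil)))) .nil)) 
(.lf (nat_lit 85856) (.g (nat_lit 568) (.e (nat_lit 7936) (nat_lit 126) (.e (nat_lit 573487) (nat_lit 14) (.e (nat_lit 81664) (nat_lit 32) .nil))) .nil)))) (.nd (nat_lit 5) (.nd (nat_lit 6) 
(.lf (nat_lit 85776) (.g (nat_lit 2255) (.e (nat_lit 1873) (nat_lit 126) (.e (nat_lit 573489) (nat_lit 14) (.e (nat_lit 73755) (nat_lit 8) (.e (nat_lit 557096) (nat_lit 13) (.e (nat_lit 172140) (nat_lit 22) (.e (nat_lit 139280) (nat_lit 4) (.e (nat_lit 65538) (nat_lit 0) .nil))))))) (.g (nat_lit 5) .nil .nil))) 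
(.lf (nat_lit 85840) (.g (nat_lit 437) (.e (nat_lit 7936) (nat_lit 126) (.e (nat_lit 573449) (nat_lit 9) (.e (nat_lit 1183) (nat_lit 87) .nil))) .nil))) (.nd (nat_lit 6) 
(.lf (nat_lit 85808) (.g (nat_lit 2153) (.e (nat_lit 1876) (nat_lit 126) (.e (nat_lit 573488) (nat_lit 14) (.e (nat_lit 73755) (nat_lit 8) (.e (nat_lit 557096) (nat_lit 13) (.e (nat_lit 172064) (nat_lit 2) (.e (nat_lit 204544) (nat_lit 2) (.e (nat_lit 24584) (nat_lit 0) .nil))))))) (.g (nat_lit 4) .nil .nil))) 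
(.lf (nat_lit 85872) (.g (nat_lit 1184) (.e (nat_lit 1885) (nat_lit 127) (.e (nat_lit 581653) (nat_lit 6) (.e (nat_lit 188434) (nat_lit 20) (.e (nat_lit 3577) (nat_lit 223) .nil)))) .nil))))) (.nd (nat_lit 4) (.nd (nat_lit 5) (.nd (nat_lit 6) 
(.lf (nat_lit 85768) (.g (nat_lit 2299) (.e (nat_lit 1873) (nat_lit 126) (.e (nat_lit 573489) (nat_lit 14) (.e (nat_lit 73754) (nat_lit 8) (.e (nat_lit 557100) (nat_lit 13) (.e (nat_lit 172064) (nat_lit 2) (.e (nat_lit 204544) (nat_lit 2) (.e (nat_lit 24579) (nat_lit 0) .nil))))))) (.g (nat_lit 4) .nil .nil))) 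
(.lf (nat_lit 85832) (.g (nat_lit 3168) (.e (nat_lit 1878) (nat_lit 126) (.e (nat_lit 573487) (nat_lit 14) (.e (nat_lit 73753) (nat_lit 8) (.e (nat_lit 557098) (nat_lit 13) (.e (nat_lit 172140) (nat_lit 22) (.e (nat_lit 139280) (nat_lit 4) (.e (nat_lit 65541) (nat_lit 0) .nil))))))) (.g (nat_lit 6) .nil .nil)))) (.nd (nat_lit 6) 
(.lf (nat_lit 85800) (.g (nat_lit 3110) (.e (nat_lit 1875) (nat_lit 126) (.e (nat_lit 573488) (nat_lit 14) (.e (nat_lit 73755) (nat_lit 8) (.e (nat_lit 557098) (nat_lit 13) (.e (nat_lit 172064) (nat_lit 2) .nil))))) .nil)) 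
(.lf (nat_lit 85864) (.g (nat_lit 798) (.e (nat_lit 1885) (nat_lit 127) (.e (nat_lit 581651) (nat_lit 4) (.e (nat_lit 172079) (nat_lit 7) (.e (nat_lit 409634) (nat_lit 13) (.e (nat_lit 48896) (nat_lit 6) .nil))))) .nil)))) (.nd (nat_lit 5) (.nd (nat_lit 6) 
(.lf (nat_lit 85784) (.g (nat_lit 2061) (.e (nat_lit 1874) (nat_lit 126) (.e (nat_lit 573488) (nat_lit 14) (.e (nat_lit 73755) (nat_lit 8) (.e (nat_lit 557096) (nat_lit 13) (.e (nat_lit 172064) (nat_lit 2) .nil))))) .nil)) 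
(.lf (nat_lit 85848) (.g (nat_lit 779) (.e (nat_lit 7936) (nat_lit 126) (.e (nat_lit 573449) (nat_lit 9) (.e (nat_lit 1615) (nat_lit 113) (.e (nat_lit 376867) (nat_lit 23) .nil)))) .nil))) (.nd (nat_lit 6) 
(.lf (nat_lit 85816) (.g (nat_lit 2260) (.e (nat_lit 1877) (nat_lit 126) (.e (nat_lit 573487) (nat_lit 14) (.e (nat_lit 73753) (nat_lit 8) (.e (nat_lit 557096) (nat_lit 13) (.e (nat_lit 172064) (nat_lit 2) .nil))))) .nil)) 
(.lf (nat_lit 85880) (.g (nat_lit 1588) (.e (nat_lit 1885) (nat_lit 127) (.e (nat_lit 581653) (nat_lit 6) (.e (nat_lit 188439) (nat_lit 20) (.e (nat_lit 3579) (nat_lit 223) (.e (nat_lit 745493) (nat_lit 6) .nil))))) .nil)))))) (.nd (nat_lit 3) (.nd (nat_lit 4) (.nd (nat_lit 5) (.nd (nat_lit 6) 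
(.lf (nat_lit 85764) (.g (nat_lit 3971) (.e (nat_lit 1872) (nat_lit 126) (.e (nat_lit 573489) (nat_lit 14) (.e (nat_lit 73755) (nat_lit 8) (.e (nat_lit 557098) (nat_lit 13) (.e (nat_lit 172062) (nat_lit 2) .nil))))) .nil)) 
(.lf (nat_lit 85828) (.g (nat_lit 1081) (.e (nat_lit 1878) (nat_lit 126) (.e (nat_lit 573445) (nat_lit 0) (.e (nat_lit 3011) (nat_lit 187) (.e (nat_lit 450563) (nat_lit 0) (.e (nat_lit 6808) (nat_lit 365) (.e (nat_lit 7936) (nat_lit 90) (.e (nat_lit 81933) (nat_lit 20) .nil))))))) (.g (nat_lit 5) .nil .nil)))) (.nd (nat_lit 6) 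
(.lf (nat_lit 85796) (.g (nat_lit 2471) (.e (nat_lit 1875) (nat_lit 126) (.e (nat_lit 573487) (nat_lit 14) (.e (nat_lit 73753) (nat_lit 8) (.e (nat_lit 557098) (nat_lit 13) (.e (nat_lit 172064) (nat_lit 2) .nil))))) .nil)) 
(.lf (nat_lit 85860) (.g (nat_lit 1859) (.e (nat_lit 7936) (nat_lit 126) (.e (nat_lit 573489) (nat_lit 14) (.e (nat_lit 73755) (nat_lit 8) (.e (nat_lit 557096) (nat_lit 13) (.e (nat_lit 172064) (nat_lit 2) .nil))))) .nil)))) (.nd (nat_lit 5) (.nd (nat_lit 6) 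
(.lf (nat_lit 85780) (.g (nat_lit 3586) (.e (nat_lit 1873) (nat_lit 126) (.e (nat_lit 573489) (nat_lit 14) (.e (nat_lit 73755) (nat_lit 8) (.e (nat_lit 557098) (nat_lit 13) (.e (nat_lit 172064) (nat_lit 2) (.e (nat_lit 204544) (nat_lit 2) (.e (nat_lit 24578) (nat_lit 0) .nil))))))) (.g (nat_lit 5) .nil .nil))) 
(.lf (nat_lit 85844) (.g (nat_lit 1347) (.e (nat_lit 7936) (nat_lit 126) (.e (nat_lit 573449) (nat_lit 9) (.e (nat_lit 1183) (nat_lit 87) (.e (nat_lit 57852) (nat_lit 252) .nil)))) .nil))) (.nd (nat_lit 6) 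
(.lf (nat_lit 85812) (.g (nat_lit 2486) (.e (nat_lit 1877) (nat_lit 126) (.e (nat_lit 573451) (nat_lit 9) (.e (nat_lit 1548) (nat_lit 109) (.e (nat_lit 344130) (nat_lit 26) (.e (nat_lit 557097) (nat_lit 13) (.e (nat_lit 172064) (nat_lit 2) (.e (nat_lit 204544) (nat_lit 2) (.e (nat_lit 24580) (nat_lit 0) .nil)))))))) (.g (nat_lit 5) .nil .nil))) 
(.lf (nat_lit 85876) (.g (nat_lit 1132) (.e (nat_lit 1885) (nat_lit 127) (.e (nat_lit 581653) (nat_lit 6) (.e (nat_lit 188435) (nat_lit 20) (.e (nat_lit 3579) (nat_lit 223) (.e (nat_lit 745493) (nat_lit 6) .nil))))) .nil))))) (.nd (nat_lit 4) (.nd (nat_lit 5) (.nd (nat_lit 6) 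
(.lf (nat_lit 85772) (.g (nat_lit 1563) (.e (nat_lit 1873) (nat_lit 126) (.e (nat_lit 573489) (nat_lit 14) (.e (nat_lit 73755) (nat_lit 8) (.e (nat_lit 557096) (nat_lit 13) .nil)))) .nil)) 
(.lf (nat_lit 85836) (.g (nat_lit 1321) (.e (nat_lit 1879) (nat_lit 126) (.e (nat_lit 573444) (nat_lit 0) (.e (nat_lit 3011) (nat_lit 187) (.e (nat_lit 450562) (nat_lit 0) (.e (nat_lit 6808) (nat_lit 365) (.e (nat_lit 7936) (nat_lit 90) (.e (nat_lit 81933) (nat_lit 20) .nil))))))) (.g (nat_lit 5) .nil .nil)))) (.nd (nat_lit 6) 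
(.lf (nat_lit 85804) (.g (nat_lit 2616) (.e (nat_lit 1875) (nat_lit 126) (.e (nat_lit 573489) (nat_lit 14) (.e (nat_lit 73755) (nat_lit 8) (.e (nat_lit 557103) (nat_lit 14) .nil)))) .nil)) 
(.lf (nat_lit 85868) (.g (nat_lit 991) (.e (nat_lit 1885) (nat_lit 127) (.e (nat_lit 581651) (nat_lit 4) (.e (nat_lit 172113) (nat_lit 10) (.e (nat_lit 434295) (nat_lit 49) (.e (nat_lit 745493) (nat_lit 6) .nil))))) .nil)))) (.nd (nat_lit 5) (.nd (nat_lit 6) 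
(.lf (nat_lit 85788) (.g (nat_lit 2546) (.e (nat_lit 1874) (nat_lit 126) (.e (nat_lit 573489) (nat_lit 14) (.e (nat_lit 73754) (nat_lit 8) (.e (nat_lit 557100) (nat_lit 13) (.e (nat_lit 172064) (nat_lit 2) .nil))))) .nil)) 
(.lf (nat_lit 85852) (.g (nat_lit 677) (.e (nat_lit 7936) (nat_lit 126) (.e (nat_lit 573471) (nat_lit 11) (.e (nat_lit 16405) (nat_lit 1) .nil))) .nil))) (.nd (nat_lit 6) 
(.lf (nat_lit 85820) (.g (nat_lit 2438) (.e (nat_lit 1877) (nat_lit 126) (.e (nat_lit 573487) (nat_lit 14) (.e (nat_lit 73753) (nat_lit 8) (.e (nat_lit 557101) (nat_lit 13) (.e (nat_lit 172064) (nat_lit 2) .nil))))) .nil)) 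
(.lf (nat_lit 85884) (.g (nat_lit 968) (.e (nat_lit 1885) (nat_lit 127) (.e (nat_lit 581653) (nat_lit 6) (.e (nat_lit 188441) (nat_lit 20) (.e (nat_lit 3578) (nat_lit 223) .nil)))) .nil))))))) (.nd (nat_lit 2) (.nd (nat_lit 3) (.nd (nat_lit 4) (.nd (nat_lit 5) (.nd (nat_lit 6) 
(.lf (nat_lit 85762) (.g (nat_lit 3119) (.e (nat_lit 1872) (nat_lit 126) (.e (nat_lit 573489) (nat_lit 14) (.e (nat_lit 73755) (nat_lit 8) (.e (nat_lit 557096) (nat_lit 13) (.e (nat_lit 172064) (nat_lit 2) (.e (nat_lit 204544) (nat_lit 2) (.e (nat_lit 24580) (nat_lit 0) .nil))))))) (.g (nat_lit 4) .nil .nil))) 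
(.lf (nat_lit 85826) (.g (nat_lit 3369) (.e (nat_lit 1877) (nat_lit 126) (.e (nat_lit 573492) (nat_lit 15) (.e (nat_lit 81956) (nat_lit 23) (.e (nat_lit 98350) (nat_lit 24) (.e (nat_lit 409648) (nat_lit 18) (.e (nat_lit 311040) (nat_lit 15) .nil)))))) (.g (nat_lit 5) .nil .nil)))) (.nd (nat_lit 6) 
(.lf (nat_lit 85794) (.g (nat_lit 793) (.e (nat_lit 1875) (nat_lit 126) (.e (nat_lit 573451) (nat_lit 9) (.e (nat_lit 1543) (nat_lit 109) .nil))) .nil)) 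
(.lf (nat_lit 85858) (.g (nat_lit 2353) (.e (nat_lit 7936) (nat_lit 126) (.e (nat_lit 573489) (nat_lit 14) (.e (nat_lit 73754) (nat_lit 8) (.e (nat_lit 557100) (nat_lit 13) (.e (nat_lit 172064) (nat_lit 2) .nil))))) .nil)))) (.nd (nat_lit 5) (.nd (nat_lit 6) 
(.lf (nat_lit 85778) (.g (nat_lit 2586) (.e (nat_lit 1873) (nat_lit 126) (.e (nat_lit 573489) (nat_lit 14) (.e (nat_lit 73755) (nat_lit 8) (.e (nat_lit 557097) (nat_lit 13) (.e (nat_lit 172064) (nat_lit 2) (.e (nat_lit 204544) (nat_lit 2) (.e (nat_lit 24578) (nat_lit 0) .nil))))))) (.g (nat_lit 5) .nil .nil))) 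
(.lf (nat_lit 85842) (.g (nat_lit 2142) (.e (nat_lit 7936) (nat_lit 126) (.e (nat_lit 573449) (nat_lit 9) (.e (nat_lit 1183) (nat_lit 87) (.e (nat_lit 57848) (nat_lit 252) (.e (nat_lit 57445) (nat_lit 19) .nil))))) .nil))) (.nd (nat_lit 6) 
(.lf (nat_lit 85810) (.g (nat_lit 2947) (.e (nat_lit 1877) (nat_lit 126) (.e (nat_lit 573451) (nat_lit 9) (.e (nat_lit 1543) (nat_lit 109) (.e (nat_lit 344132) (nat_lit 26) (.e (nat_lit 557100) (nat_lit 13) (.e (nat_lit 172064) (nat_lit 2) (.e (nat_lit 204544) (nat_lit 2) (.e (nat_lit 24580) (nat_lit 0) .nil)))))))) (.g (nat_lit 5) .nil .nil))) 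
(.lf (nat_lit 85874) (.g (nat_lit 1830) (.e (nat_lit 1885) (nat_lit 127) (.e (nat_lit 581653) (nat_lit 6) (.e (nat_lit 188434) (nat_lit 20) (.e (nat_lit 3579) (nat_lit 223) (.e (nat_lit 745493) (nat_lit 6) .nil))))) .nil))))) (.nd (nat_lit 4) (.nd (nat_lit 5) (.nd (nat_lit 6) 
(.lf (nat_lit 85770) (.g (nat_lit 1799) (.e (nat_lit 1873) (nat_lit 126) (.e (nat_lit 573489) (nat_lit 14) (.e (nat_lit 73754) (nat_lit 8) (.e (nat_lit 557101) (nat_lit 13) (.e (nat_lit 172064) (nat_lit 2) (.e (nat_lit 204544) (nat_lit 2) (.e (nat_lit 24577) (nat_lit 0) .nil))))))) (.g (nat_lit 4) .nil .nil))) 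
(.lf (nat_lit 85834) (.g (nat_lit 1838) (.e (nat_lit 1878) (nat_lit 126) (.e (nat_lit 573488) (nat_lit 14) (.e (nat_lit 73755) (nat_lit 8) (.e (nat_lit 557096) (nat_lit 13) .nil)))) .nil))) (.nd (nat_lit 6) 
(.lf (nat_lit 85802) (.g (nat_lit 3000) (.e (nat_lit 1875) (nat_lit 126) (.e (nat_lit 573489) (nat_lit 14) (.e (nat_lit 73755) (nat_lit 8) (.e (nat_lit 557096) (nat_lit 13) (.e (nat_lit 172064) (nat_lit 2) .nil))))) .nil)) 
(.lf (nat_lit 85866) (.g (nat_lit 1804) (.e (nat_lit 1885) (nat_lit 127) (.e (nat_lit 581651) (nat_lit 4) (.e (nat_lit 172106) (nat_lit 10) (.e (nat_lit 434295) (nat_lit 49) (.e (nat_lit 745493) (nat_lit 6) (.e (nat_lit 81938) (nat_lit 20) .nil)))))) (.g (nat_lit 0) .nil .nil))))) (.nd (nat_lit 5) (.nd (nat_lit 6) 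
(.lf (nat_lit 85786) (.g (nat_lit 2982) (.e (nat_lit 1874) (nat_lit 126) (.e (nat_lit 573488) (nat_lit 14) (.e (nat_lit 73755) (nat_lit 8) (.e (nat_lit 557098) (nat_lit 13) (.e (nat_lit 172064) (nat_lit 2) (.e (nat_lit 204544) (nat_lit 0) (.e (nat_lit 232) (nat_lit 21) (.e (nat_lit 335907) (nat_lit 0) .nil)))))))) (.g (nat_lit 4) .nil .nil))) 
(.lf (nat_lit 85850) (.g (nat_lit 960) (.e (nat_lit 7936) (nat_lit 126) (.e (nat_lit 573450) (nat_lit 9) (.e (nat_lit 187) (nat_lit 14) (.e (nat_lit 229120) (nat_lit 18) .nil)))) .nil))) (.nd (nat_lit 6) 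
(.lf (nat_lit 85818) (.g (nat_lit 2583) (.e (nat_lit 1877) (nat_lit 126) (.e (nat_lit 573487) (nat_lit 14) (.e (nat_lit 73753) (nat_lit 8) (.e (nat_lit 557098) (nat_lit 13) (.e (nat_lit 172064) (nat_lit 2) (.e (nat_lit 204544) (nat_lit 2) (.e (nat_lit 24577) (nat_lit 0) .nil))))))) (.g (nat_lit 4) .nil .nil))) 
(.lf (nat_lit 85882) (.g (nat_lit 1531) (.e (nat_lit 1885) (nat_lit 127) (.e (nat_lit 581653) (nat_lit 6) (.e (nat_lit 188440) (nat_lit 20) (.e (nat_lit 3579) (nat_lit 223) (.e (nat_lit 745493) (nat_lit 6) .nil))))) .nil)))))) (.nd (nat_lit 3) (.nd (nat_lit 4) (.nd (nat_lit 5) (.nd (nat_lit 6) 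
(.lf (nat_lit 85766) (.g (nat_lit 487) (.e (nat_lit 1873) (nat_lit 126) (.e (nat_lit 573489) (nat_lit 14) (.e (nat_lit 73754) (nat_lit 8) .nil))) .nil)) 
(.lf (nat_lit 85830) (.g (nat_lit 2219) (.e (nat_lit 1878) (nat_lit 126) (.e (nat_lit 573487) (nat_lit 14) (.e (nat_lit 73753) (nat_lit 8) (.e (nat_lit 557096) (nat_lit 13) (.e (nat_lit 172140) (nat_lit 22) (.e (nat_lit 139280) (nat_lit 4) (.e (nat_lit 65541) (nat_lit 0) .nil))))))) (.g (nat_lit 4) .nil .nil)))) (.nd (nat_lit 6) 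
(.lf (nat_lit 85798) (.g (nat_lit 1842) (.e (nat_lit 1875) (nat_lit 126) (.e (nat_lit 573488) (nat_lit 14) (.e (nat_lit 73755) (nat_lit 8) (.e (nat_lit 557096) (nat_lit 13) .nil)))) .nil)) 
(.lf (nat_lit 85862) (.g (nat_lit 526) (.e (nat_lit 1885) (nat_lit 127) (.e (nat_lit 581636) (nat_lit 0) (.e (nat_lit 3016) (nat_lit 187) (.e (nat_lit 450605) (nat_lit 27) .nil)))) .nil)))) (.nd (nat_lit 5) (.nd (nat_lit 6) 
(.lf (nat_lit 85782) (.g (nat_lit 3182) (.e (nat_lit 1873) (nat_lit 126) (.e (nat_lit 573489) (nat_lit 14) (.e (nat_lit 73755) (nat_lit 8) (.e (nat_lit 557098) (nat_lit 13) (.e (nat_lit 172140) (nat_lit 22) (.e (nat_lit 139280) (nat_lit 4) (.e (nat_lit 65538) (nat_lit 0) .nil))))))) (.g (nat_lit 5) .nil .nil))) 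
(.lf (nat_lit 85846) (.g (nat_lit 1094) (.e (nat_lit 7936) (nat_lit 126) (.e (nat_lit 573449) (nat_lit 9) (.e (nat_lit 1271) (nat_lit 93) (.e (nat_lit 106534) (nat_lit 11) (.e (nat_lit 16413) (nat_lit 2) .nil))))) .nil))) (.nd (nat_lit 6) 
(.lf (nat_lit 85814) (.g (nat_lit 2053) (.e (nat_lit 1877) (nat_lit 126) (.e (nat_lit 573451) (nat_lit 9) (.e (nat_lit 1595) (nat_lit 111) (.e (nat_lit 360467) (nat_lit 3) (.e (nat_lit 516172) (nat_lit 13) .nil))))) .nil)) 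
(.lf (nat_lit 85878) (.g (nat_lit 1096) (.e (nat_lit 1885) (nat_lit 127) (.e (nat_lit 581653) (nat_lit 6) (.e (nat_lit 188438) (nat_lit 20) (.e (nat_lit 3579) (nat_lit 223) (.e (nat_lit 745493) (nat_lit 6) .nil))))) .nil))))) (.nd (nat_lit 4) (.nd (nat_lit 5) (.nd (nat_lit 6) 
(.lf (nat_lit 85774) (.g (nat_lit 2064) (.e (nat_lit 1873) (nat_lit 126) (.e (nat_lit 573489) (nat_lit 14) (.e (nat_lit 73755) (nat_lit 8) (.e (nat_lit 557096) (nat_lit 13) (.e (nat_lit 172064) (nat_lit 2) (.e (nat_lit 204544) (nat_lit 2) (.e (nat_lit 24577) (nat_lit 0) .nil))))))) (.g (nat_lit 4) .nil .nil))) 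
(.lf (nat_lit 85838) (.g (nat_lit 1587) (.e (nat_lit 1879) (nat_lit 126) (.e (nat_lit 573465) (nat_lit 9) (.e (nat_lit 1267) (nat_lit 93) (.e (nat_lit 106536) (nat_lit 11) (.e (nat_lit 16413) (nat_lit 2) .nil))))) .nil))) (.nd (nat_lit 6) 
(.lf (nat_lit 85806) (.g (nat_lit 2566) (.e (nat_lit 1875) (nat_lit 126) (.e (nat_lit 573490) (nat_lit 15) (.e (nat_lit 81956) (nat_lit 23) (.e (nat_lit 98350) (nat_lit 24) (.e (nat_lit 409648) (nat_lit 18) .nil))))) .nil)) 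
(.lf (nat_lit 85870) (.g (nat_lit 1039) (.e (nat_lit 1885) (nat_lit 127) (.e (nat_lit 581651) (nat_lit 4) (.e (nat_lit 172115) (nat_lit 10) (.e (nat_lit 434295) (nat_lit 49) (.e (nat_lit 745493) (nat_lit 6) .nil))))) .nil)))) (.nd (nat_lit 5) (.nd (nat_lit 6) 
(.lf (nat_lit 85790) (.g (nat_lit 2311) (.e (nat_lit 1874) (nat_lit 126) (.e (nat_lit 573489) (nat_lit 14) (.e (nat_lit 73755) (nat_lit 8) (.e (nat_lit 557096) (nat_lit 13) (.e (nat_lit 172064) (nat_lit 2) .nil))))) .nil)) 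
(.lf (nat_lit 85854) (.g (nat_lit 676) (.e (nat_lit 7936) (nat_lit 126) (.e (nat_lit 573474) (nat_lit 12) (.e (nat_lit 57535) (nat_lit 46) .nil))) .nil))) (.nd (nat_lit 6) 
(.lf (nat_lit 85822) (.g (nat_lit 1706) (.e (nat_lit 1877) (nat_lit 126) (.e (nat_lit 573488) (nat_lit 14) (.e (nat_lit 73755) (nat_lit 8) (.e (nat_lit 557097) (nat_lit 13) .nil)))) .nil)) 
(.lf (nat_lit 85886) (.g (nat_lit 659) (.e (nat_lit 1885) (nat_lit 127) (.e (nat_lit 581653) (nat_lit 6) (.e (nat_lit 188455) (nat_lit 24) .nil))) .nil)))))))) (.nd (nat_lit 1) (.nd (nat_lit 2) (.nd (nat_lit 3) (.nd (nat_lit 4) (.nd (nat_lit 5) (.nd (nat_lit 6) 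
(.lf (nat_lit 85761) (.g (nat_lit 2695) (.e (nat_lit 1872) (nat_lit 126) (.e (nat_lit 573489) (nat_lit 14) (.e (nat_lit 73754) (nat_lit 8) (.e (nat_lit 557100) (nat_lit 13) (.e (nat_lit 172064) (nat_lit 2) (.e (nat_lit 204544) (nat_lit 2) (.e (nat_lit 24580) (nat_lit 0) .nil))))))) (.g (nat_lit 4) .nil .nil))) 
(.lf (nat_lit 85825) (.g (nat_lit 2489) (.e (nat_lit 1877) (nat_lit 126) (.e (nat_lit 573490) (nat_lit 15) (.e (nat_lit 81956) (nat_lit 23) (.e (nat_lit 98350) (nat_lit 24) (.e (nat_lit 409648) (nat_lit 18) .nil))))) .nil))) (.nd (nat_lit 6) 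
(.lf (nat_lit 85793) (.g (nat_lit 2998) (.e (nat_lit 1874) (nat_lit 126) (.e (nat_lit 573489) (nat_lit 14) (.e (nat_lit 73755) (nat_lit 8) (.e (nat_lit 557098) (nat_lit 13) (.e (nat_lit 172140) (nat_lit 22) .nil))))) .nil)) 
(.lf (nat_lit 85857) (.g (nat_lit 1417) (.e (nat_lit 7936) (nat_lit 126) (.e (nat_lit 573488) (nat_lit 14) (.e (nat_lit 73755) (nat_lit 8) (.e (nat_lit 557096) (nat_lit 13) .nil)))) .nil)))) (.nd (nat_lit 5) (.nd (nat_lit 6) 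
(.lf (nat_lit 85777) (.g (nat_lit 2119) (.e (nat_lit 1873) (nat_lit 126) (.e (nat_lit 573489) (nat_lit 14) (.e (nat_lit 73755) (nat_lit 8) (.e (nat_lit 557097) (nat_lit 13) (.e (nat_lit 172064) (nat_lit 2) (.e (nat_lit 204544) (nat_lit 2) (.e (nat_lit 24576) (nat_lit 0) .nil))))))) (.g (nat_lit 4) .nil .nil))) 
(.lf (nat_lit 85841) (.g (nat_lit 1827) (.e (nat_lit 7936) (nat_lit 126) (.e (nat_lit 573449) (nat_lit 9) (.e (nat_lit 1183) (nat_lit 87) (.e (nat_lit 57848) (nat_lit 252) (.e (nat_lit 57407) (nat_lit 12) .nil))))) .nil))) (.nd (nat_lit 6) 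
(.lf (nat_lit 85809) (.g (nat_lit 2896) (.e (nat_lit 1876) (nat_lit 126) (.e (nat_lit 573488) (nat_lit 14) (.e (nat_lit 73755) (nat_lit 8) (.e (nat_lit 557098) (nat_lit 13) (.e (nat_lit 172140) (nat_lit 22) .nil))))) .nil)) 
(.lf (nat_lit 85873) (.g (nat_lit 1564) (.e (nat_lit 1885) (nat_lit 127) (.e (nat_lit 581653) (nat_lit 6) (.e (nat_lit 188434) (nat_lit 20) (.e (nat_lit 3578) (nat_lit 223) (.e (nat_lit 745493) (nat_lit 6) .nil))))) .nil))))) (.nd (nat_lit 4) (.nd (nat_lit 5) (.nd (nat_lit 6) 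
(.lf (nat_lit 85769) (.g (nat_lit 1731) (.e (nat_lit 1873) (nat_lit 126) (.e (nat_lit 573489) (nat_lit 14) (.e (nat_lit 73754) (nat_lit 8) (.e (nat_lit 557101) (nat_lit 13) (.e (nat_lit 172064) (nat_lit 2) .nil))))) .nil)) 
(.lf (nat_lit 85833) (.g (nat_lit 2394) (.e (nat_lit 1878) (nat_lit 126) (.e (nat_lit 573487) (nat_lit 14) (.e (nat_lit 73753) (nat_lit 8) (.e (nat_lit 557101) (nat_lit 13) (.e (nat_lit 172064) (nat_lit 2) .nil))))) .nil))) (.nd (nat_lit 6) 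
(.lf (nat_lit 85801) (.g (nat_lit 2623) (.e (nat_lit 1875) (nat_lit 126) (.e (nat_lit 573489) (nat_lit 14) (.e (nat_lit 73754) (nat_lit 8) (.e (nat_lit 557100) (nat_lit 13) (.e (nat_lit 172064) (nat_lit 2) .nil))))) .nil)) 
(.lf (nat_lit 85865) (.g (nat_lit 831) (.e (nat_lit 1885) (nat_lit 127) (.e (nat_lit 581651) (nat_lit 4) (.e (nat_lit 172106) (nat_lit 10) (.e (nat_lit 434295) (nat_lit 49) .nil)))) .nil)))) (.nd (nat_lit 5) (.nd (nat_lit 6) 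
(.lf (nat_lit 85785) (.g (nat_lit 2468) (.e (nat_lit 1874) (nat_lit 126) (.e (nat_lit 573488) (nat_lit 14) (.e (nat_lit 73755) (nat_lit 8) (.e (nat_lit 557097) (nat_lit 13) (.e (nat_lit 172064) (nat_lit 2) (.e (nat_lit 204544) (nat_lit 2) (.e (nat_lit 24584) (nat_lit 0) .nil))))))) (.g (nat_lit 5) .nil .nil))) 
(.lf (nat_lit 85849) (.g (nat_lit 451) (.e (nat_lit 7936) (nat_lit 126) (.e (nat_lit 573449) (nat_lit 9) (.e (nat_lit 1623) (nat_lit 113) .nil))) .nil))) (.nd (nat_lit 6) 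
(.lf (nat_lit 85817) (.g (nat_lit 2201) (.e (nat_lit 1877) (nat_lit 126) (.e (nat_lit 573487) (nat_lit 14) (.e (nat_lit 73753) (nat_lit 8) (.e (nat_lit 557098) (nat_lit 13) (.e (nat_lit 172062) (nat_lit 2) .nil))))) .nil)) 
(.lf (nat_lit 85881) (.g (nat_lit 1212) (.e (nat_lit 1885) (nat_lit 127) (.e (nat_lit 581653) (nat_lit 6) (.e (nat_lit 188440) (nat_lit 20) (.e (nat_lit 3578) (nat_lit 223) (.e (nat_lit 745493) (nat_lit 6) .nil))))) .nil)))))) (.nd (nat_lit 3) (.nd (nat_lit 4) (.nd (nat_lit 5) (.nd (nat_lit 6) 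
(.lf (nat_lit 85765) (.g (nat_lit 3602) (.e (nat_lit 1873) (nat_lit 126) (.e (nat_lit 573451) (nat_lit 9) (.e (nat_lit 1401) (nat_lit 106) (.e (nat_lit 319531) (nat_lit 16) (.e (nat_lit 286735) (nat_lit 3) (.e (nat_lit 98369) (nat_lit 28) (.e (nat_lit 442368) (nat_lit 0) .nil))))))) (.g (nat_lit 5) .nil .nil))) 
(.lf (nat_lit 85829) (.g (nat_lit 2215) (.e (nat_lit 1878) (nat_lit 126) (.e (nat_lit 573487) (nat_lit 14) (.e (nat_lit 73753) (nat_lit 8) (.e (nat_lit 557096) (nat_lit 13) (.e (nat_lit 172064) (nat_lit 2) .nil))))) .nil))) (.nd (nat_lit 6) 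
(.lf (nat_lit 85797) (.g (nat_lit 2394) (.e (nat_lit 1875) (nat_lit 126) (.e (nat_lit 573487) (nat_lit 14) (.e (nat_lit 73753) (nat_lit 8) (.e (nat_lit 557101) (nat_lit 13) (.e (nat_lit 172064) (nat_lit 2) .nil))))) .nil)) 
(.lf (nat_lit 85861) (.g (nat_lit 2029) (.e (nat_lit 7936) (nat_lit 126) (.e (nat_lit 573489) (nat_lit 14) (.e (nat_lit 73755) (nat_lit 8) (.e (nat_lit 557097) (nat_lit 13) (.e (nat_lit 172064) (nat_lit 2) .nil))))) .nil)))) (.nd (nat_lit 5) (.nd (nat_lit 6) 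
(.lf (nat_lit 85781) (.g (nat_lit 3787) (.e (nat_lit 1873) (nat_lit 126) (.e (nat_lit 573489) (nat_lit 14) (.e (nat_lit 73755) (nat_lit 8) (.e (nat_lit 557098) (nat_lit 13) (.e (nat_lit 172064) (nat_lit 2) (.e (nat_lit 204544) (nat_lit 2) (.e (nat_lit 24579) (nat_lit 0) .nil))))))) (.g (nat_lit 5) .nil .nil))) 
(.lf (nat_lit 85845) (.g (nat_lit 1347) (.e (nat_lit 7936) (nat_lit 126) (.e (nat_lit 573449) (nat_lit 9) (.e (nat_lit 1183) (nat_lit 87) (.e (nat_lit 57854) (nat_lit 252) .nil)))) .nil))) (.nd (nat_lit 6) 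
(.lf (nat_lit 85813) (.g (nat_lit 2062) (.e (nat_lit 1877) (nat_lit 126) (.e (nat_lit 573451) (nat_lit 9) (.e (nat_lit 1595) (nat_lit 111) (.e (nat_lit 360467) (nat_lit 3) (.e (nat_lit 516171) (nat_lit 13) .nil))))) .nil)) 
(.lf (nat_lit 85877) (.g (nat_lit 509) (.e (nat_lit 1885) (nat_lit 127) (.e (nat_lit 581653) (nat_lit 6) (.e (nat_lit 188438) (nat_lit 20) .nil))) .nil))))) (.nd (nat_lit 4) (.nd (nat_lit 5) (.nd (nat_lit 6) 
(.lf (nat_lit 85773) (.g (nat_lit 2027) (.e (nat_lit 1873) (nat_lit 126) (.e (nat_lit 573489) (nat_lit 14) (.e (nat_lit 73755) (nat_lit 8) (.e (nat_lit 557096) (nat_lit 13) (.e (nat_lit 172064) (nat_lit 2) .nil))))) .nil)) 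
(.lf (nat_lit 85837) (.g (nat_lit 1120) (.e (nat_lit 1879) (nat_lit 126) (.e (nat_lit 573444) (nat_lit 0) (.e (nat_lit 3011) (nat_lit 187) (.e (nat_lit 450563) (nat_lit 0) (.e (nat_lit 6808) (nat_lit 365) (.e (nat_lit 7936) (nat_lit 90) (.e (nat_lit 81933) (nat_lit 20) .nil))))))) (.g (nat_lit 5) .nil .nil)))) (.nd (nat_lit 6) 
(.lf (nat_lit 85805) (.g (nat_lit 2146) (.e (nat_lit 1875) (nat_lit 126) (.e (nat_lit 573489) (nat_lit 14) (.e (nat_lit 73755) (nat_lit 8) (.e (nat_lit 557105) (nat_lit 14) .nil)))) .nil)) 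
(.lf (nat_lit 85869) (.g (nat_lit 1012) (.e (nat_lit 1885) (nat_lit 127) (.e (nat_lit 581651) (nat_lit 4) (.e (nat_lit 172113) (nat_lit 10) (.e (nat_lit 434295) (nat_lit 49) (.e (nat_lit 745493) (nat_lit 6) (.e (nat_lit 81947) (nat_lit 20) .nil)))))) (.g (nat_lit 4) .nil .nil))))) (.nd (nat_lit 5) (.nd (nat_lit 6) 
(.lf (nat_lit 85789) (.g (nat_lit 1987) (.e (nat_lit 1874) (nat_lit 126) (.e (nat_lit 573489) (nat_lit 14) (.e (nat_lit 73754) (nat_lit 8) (.e (nat_lit 557101) (nat_lit 13) (.e (nat_lit 172064) (nat_lit 2) .nil))))) .nil)) 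
(.lf (nat_lit 85853) (.g (nat_lit 993) (.e (nat_lit 7936) (nat_lit 126) (.e (nat_lit 573474) (nat_lit 12) (.e (nat_lit 57525) (nat_lit 46) .nil))) .nil))) (.nd (nat_lit 6) 
(.lf (nat_lit 85821) (.g (nat_lit 2269) (.e (nat_lit 1877) (nat_lit 126) (.e (nat_lit 573488) (nat_lit 14) (.e (nat_lit 73755) (nat_lit 8) (.e (nat_lit 557096) (nat_lit 13) (.e (nat_lit 172064) (nat_lit 2) .nil))))) .nil)) 
(.lf (nat_lit 85885) (.g (nat_lit 1493) (.e (nat_lit 1885) (nat_lit 127) (.e (nat_lit 581653) (nat_lit 6) (.e (nat_lit 188441) (nat_lit 20) (.e (nat_lit 3579) (nat_lit 223) (.e (nat_lit 745493) (nat_lit 6) .nil))))) .nil))))))) (.nd (nat_lit 2) (.nd (nat_lit 3) (.nd (nat_lit 4) (.nd (nat_lit 5) (.nd (nat_lit 6) 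
(.lf (nat_lit 85763) (.g (nat_lit 2628) (.e (nat_lit 1872) (nat_lit 126) (.e (nat_lit 573489) (nat_lit 14) (.e (nat_lit 73755) (nat_lit 8) (.e (nat_lit 557098) (nat_lit 13) .nil)))) .nil)) 
(.lf (nat_lit 85827) (.g (nat_lit 1247) (.e (nat_lit 1878) (nat_lit 126) (.e (nat_lit 573445) (nat_lit 0) (.e (nat_lit 3011) (nat_lit 187) (.e (nat_lit 450562) (nat_lit 0) (.e (nat_lit 6808) (nat_lit 365) (.e (nat_lit 7936) (nat_lit 90) (.e (nat_lit 81933) (nat_lit 20) .nil))))))) (.g (nat_lit 5) .nil .nil)))) (.nd (nat_lit 6) 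
(.lf (nat_lit 85795) (.g (nat_lit 2215) (.e (nat_lit 1875) (nat_lit 126) (.e (nat_lit 573487) (nat_lit 14) (.e (nat_lit 73753) (nat_lit 8) (.e (nat_lit 557096) (nat_lit 13) (.e (nat_lit 172064) (nat_lit 2) .nil))))) .nil)) 
(.lf (nat_lit 85859) (.g (nat_lit 1782) (.e (nat_lit 7936) (nat_lit 126) (.e (nat_lit 573489) (nat_lit 14) (.e (nat_lit 73754) (nat_lit 8) (.e (nat_lit 557101) (nat_lit 13) (.e (nat_lit 172064) (nat_lit 2) .nil))))) .nil)))) (.nd (nat_lit 5) (.nd (nat_lit 6) 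
(.lf (nat_lit 85779) (.g (nat_lit 2817) (.e (nat_lit 1873) (nat_lit 126) (.e (nat_lit 573489) (nat_lit 14) (.e (nat_lit 73755) (nat_lit 8) (.e (nat_lit 557098) (nat_lit 13) (.e (nat_lit 172062) (nat_lit 2) .nil))))) .nil)) 
(.lf (nat_lit 85843) (.g (nat_lit 2164) (.e (nat_lit 7936) (nat_lit 126) (.e (nat_lit 573449) (nat_lit 9) (.e (nat_lit 1183) (nat_lit 87) (.e (nat_lit 57848) (nat_lit 252) (.e (nat_lit 57446) (nat_lit 19) .nil))))) .nil))) (.nd (nat_lit 6) 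
(.lf (nat_lit 85811) (.g (nat_lit 3281) (.e (nat_lit 1877) (nat_lit 126) (.e (nat_lit 573451) (nat_lit 9) (.e (nat_lit 1543) (nat_lit 109) (.e (nat_lit 344133) (nat_lit 26) (.e (nat_lit 557098) (nat_lit 13) (.e (nat_lit 172064) (nat_lit 2) (.e (nat_lit 204544) (nat_lit 2) (.e (nat_lit 24580) (nat_lit 0) .nil)))))))) (.g (nat_lit 5) .nil .nil))) 
(.lf (nat_lit 85875) (.g (nat_lit 566) (.e (nat_lit 1885) (nat_lit 127) (.e (nat_lit 581653) (nat_lit 6) (.e (nat_lit 188435) (nat_lit 20) .nil))) .nil))))) (.nd (nat_lit 4) (.nd (nat_lit 5) (.nd (nat_lit 6) 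
(.lf (nat_lit 85771) (.g (nat_lit 2042) (.e (nat_lit 1873) (nat_lit 126) (.e (nat_lit 573489) (nat_lit 14) (.e (nat_lit 73754) (nat_lit 8) (.e (nat_lit 557101) (nat_lit 13) (.e (nat_lit 172064) (nat_lit 2) (.e (nat_lit 204544) (nat_lit 2) (.e (nat_lit 24578) (nat_lit 0) .nil))))))) (.g (nat_lit 4) .nil .nil))) 
(.lf (nat_lit 85835) (.g (nat_lit 986) (.e (nat_lit 1879) (nat_lit 126) (.e (nat_lit 573443) (nat_lit 0) (.e (nat_lit 3011) (nat_lit 187) (.e (nat_lit 450563) (nat_lit 0) (.e (nat_lit 6808) (nat_lit 365) (.e (nat_lit 7936) (nat_lit 90) (.e (nat_lit 81935) (nat_lit 20) .nil))))))) (.g (nat_lit 4) .nil .nil)))) (.nd (nat_lit 6) 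
(.lf (nat_lit 85803) (.g (nat_lit 2633) (.e (nat_lit 1875) (nat_lit 126) (.e (nat_lit 573489) (nat_lit 14) (.e (nat_lit 73755) (nat_lit 8) (.e (nat_lit 557098) (nat_lit 13) .nil)))) .nil)) 
(.lf (nat_lit 85867) (.g (nat_lit 1048) (.e (nat_lit 1885) (nat_lit 127) (.e (nat_lit 581651) (nat_lit 4) (.e (nat_lit 172106) (nat_lit 10) (.e (nat_lit 434295) (nat_lit 49) (.e (nat_lit 745493) (nat_lit 6) (.e (nat_lit 81939) (nat_lit 20) .nil)))))) (.g (nat_lit 4) .nil .nil))))) (.nd (nat_lit 5) (.nd (nat_lit 6) 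
(.lf (nat_lit 85787) (.g (nat_lit 2938) (.e (nat_lit 1874) (nat_lit 126) (.e (nat_lit 573488) (nat_lit 14) (.e (nat_lit 73755) (nat_lit 8) (.e (nat_lit 557098) (nat_lit 13) (.e (nat_lit 172140) (nat_lit 22) .nil))))) .nil)) 
(.lf (nat_lit 85851) (.g (nat_lit 610) (.e (nat_lit 7936) (nat_lit 126) (.e (nat_lit 573450) (nat_lit 9) (.e (nat_lit 1615) (nat_lit 113) .nil))) .nil))) (.nd (nat_lit 6) 
(.lf (nat_lit 85819) (.g (nat_lit 3344) (.e (nat_lit 1877) (nat_lit 126) (.e (nat_lit 573487) (nat_lit 14) (.e (nat_lit 73753) (nat_lit 8) (.e (nat_lit 557100) (nat_lit 13) (.e (nat_lit 172064) (nat_lit 2) (.e (nat_lit 204544) (nat_lit 2) (.e (nat_lit 24580) (nat_lit 0) .nil))))))) (.g (nat_lit 5) .nil .nil))) 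
(.lf (nat_lit 85883) (.g (nat_lit 1583) (.e (nat_lit 1885) (nat_lit 127) (.e (nat_lit 581653) (nat_lit 6) (.e (nat_lit 188440) (nat_lit 20) (.e (nat_lit 3579) (nat_lit 223) (.e (nat_lit 745493) (nat_lit 6) (.e (nat_lit 81938) (nat_lit 20) .nil)))))) (.g (nat_lit 4) .nil .nil))))))) (.nd (nat_lit 3) (.nd (nat_lit 4) (.nd (nat_lit 5) (.nd (nat_lit 6) 
(.lf (nat_lit 85767) (.g (nat_lit 2290) (.e (nat_lit 1873) (nat_lit 126) (.e (nat_lit 573489) (nat_lit 14) (.e (nat_lit 73754) (nat_lit 8) (.e (nat_lit 557100) (nat_lit 13) (.e (nat_lit 172064) (nat_lit 2) .nil))))) .nil)) 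
(.lf (nat_lit 85831) (.g (nat_lit 2392) (.e (nat_lit 1878) (nat_lit 126) (.e (nat_lit 573487) (nat_lit 14) (.e (nat_lit 73753) (nat_lit 8) (.e (nat_lit 557098) (nat_lit 13) (.e (nat_lit 172140) (nat_lit 22) .nil))))) .nil))) (.nd (nat_lit 6) 
(.lf (nat_lit 85799) (.g (nat_lit 2219) (.e (nat_lit 1875) (nat_lit 126) (.e (nat_lit 573488) (nat_lit 14) (.e (nat_lit 73755) (nat_lit 8) (.e (nat_lit 557097) (nat_lit 13) (.e (nat_lit 172064) (nat_lit 2) .nil))))) .nil)) 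
(.lf (nat_lit 85863) (.g (nat_lit 304) (.e (nat_lit 1885) (nat_lit 127) (.e (nat_lit 581636) (nat_lit 0) (.e (nat_lit 3027) (nat_lit 187) (.e (nat_lit 450605) (nat_lit 27) .nil)))) .nil)))) (.nd (nat_lit 5) (.nd (nat_lit 6) 
(.lf (nat_lit 85783) (.g (nat_lit 1613) (.e (nat_lit 1874) (nat_lit 126) (.e (nat_lit 573488) (nat_lit 14) (.e (nat_lit 73755) (nat_lit 8) (.e (nat_lit 557096) (nat_lit 13) .nil)))) .nil)) 
(.lf (nat_lit 85847) (.g (nat_lit 1317) (.e (nat_lit 7936) (nat_lit 126) (.e (nat_lit 573449) (nat_lit 9) (.e (nat_lit 1271) (nat_lit 93) (.e (nat_lit 106536) (nat_lit 11) (.e (nat_lit 16413) (nat_lit 2) .nil))))) .nil))) (.nd (nat_lit 6) 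
(.lf (nat_lit 85815) (.g (nat_lit 2886) (.e (nat_lit 1877) (nat_lit 126) (.e (nat_lit 573486) (nat_lit 14) (.e (nat_lit 73755) (nat_lit 8) (.e (nat_lit 557098) (nat_lit 13) (.e (nat_lit 172064) (nat_lit 2) (.e (nat_lit 204544) (nat_lit 2) (.e (nat_lit 24580) (nat_lit 0) .nil))))))) (.g (nat_lit 5) .nil .nil))) 
(.lf (nat_lit 85879) (.g (nat_lit 498) (.e (nat_lit 1885) (nat_lit 127) (.e (nat_lit 581653) (nat_lit 6) (.e (nat_lit 188439) (nat_lit 20) .nil))) .nil))))) (.nd (nat_lit 4) (.nd (nat_lit 5) (.nd (nat_lit 6) 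
(.lf (nat_lit 85775) (.g (nat_lit 2307) (.e (nat_lit 1873) (nat_lit 126) (.e (nat_lit 573489) (nat_lit 14) (.e (nat_lit 73755) (nat_lit 8) (.e (nat_lit 557096) (nat_lit 13) (.e (nat_lit 172064) (nat_lit 2) (.e (nat_lit 204544) (nat_lit 2) (.e (nat_lit 24578) (nat_lit 0) .nil))))))) (.g (nat_lit 4) .nil .nil))) 
(.lf (nat_lit 85839) (.g (nat_lit 492) (.e (nat_lit 7936) (nat_lit 126) (.e (nat_lit 573449) (nat_lit 9) (.e (nat_lit 187) (nat_lit 14) .nil))) .nil))) (.nd (nat_lit 6) 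
(.lf (nat_lit 85807) (.g (nat_lit 1923) (.e (nat_lit 1876) (nat_lit 126) (.e (nat_lit 573487) (nat_lit 14) (.e (nat_lit 73753) (nat_lit 8) (.e (nat_lit 557097) (nat_lit 13) (.e (nat_lit 172064) (nat_lit 2) .nil))))) .nil)) 
(.lf (nat_lit 85871) (.g (nat_lit 482) (.e (nat_lit 1885) (nat_lit 127) (.e (nat_lit 581651) (nat_lit 4) (.e (nat_lit 172116) (nat_lit 10) (.e (nat_lit 434295) (nat_lit 49) .nil)))) .nil)))) (.nd (nat_lit 5) (.nd (nat_lit 6) 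
(.lf (nat_lit 85791) (.g (nat_lit 2253) (.e (nat_lit 1874) (nat_lit 126) (.e (nat_lit 573489) (nat_lit 14) (.e (nat_lit 73755) (nat_lit 8) (.e (nat_lit 557096) (nat_lit 13) (.e (nat_lit 172140) (nat_lit 22) .nil))))) .nil)) 
(.lf (nat_lit 85855) (.g (nat_lit 931) (.e (nat_lit 7936) (nat_lit 126) (.e (nat_lit 573475) (nat_lit 12) (.e (nat_lit 57535) (nat_lit 46) .nil))) .nil))) (.nd (nat_lit 6) 
(.lf (nat_lit 85823) (.g (nat_lit 3087) (.e (nat_lit 1877) (nat_lit 126) (.e (nat_lit 573488) (nat_lit 14) (.e (nat_lit 73755) (nat_lit 8) (.e (nat_lit 557098) (nat_lit 13) (.e (nat_lit 172064) (nat_lit 2) .nil))))) .nil)) 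
(.lf (nat_lit 85887) (.g (nat_lit 1769) (.e (nat_lit 1886) (nat_lit 127) (.e (nat_lit 581635) (nat_lit 0) (.e (nat_lit 3015) (nat_lit 187) (.e (nat_lit 450562) (nat_lit 0) (.e (nat_lit 6808) (nat_lit 365) (.e (nat_lit 7936) (nat_lit 90) (.e (nat_lit 81939) (nat_lit 20) .nil))))))) (.g (nat_lit 5) .nil .nil))))))))))

noncomputable def tv1163 : DT := (.nd (nat_lit 0) (.nd (nat_lit 1) (.nd (nat_lit 2) (.nd (nat_lit 3) (.nd (nat_lit 4) (.nd (nat_lit 5) 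
(.lf (nat_lit 85888) (.g (nat_lit 1736) (.e (nat_lit 1886) (nat_lit 127) (.e (nat_lit 581635) (nat_lit 0) (.e (nat_lit 3016) (nat_lit 187) (.e (nat_lit 450563) (nat_lit 0) (.e (nat_lit 6740) (nat_lit 365) (.e (nat_lit 1222) (nat_lit 90) (.e (nat_lit 81943) (nat_lit 20) .nil))))))) (.g (nat_lit 4) .nil .nil))) 
(.lf (nat_lit 85920) (.g (nat_lit 1693) (.e (nat_lit 1886) (nat_lit 127) (.e (nat_lit 581653) (nat_lit 6) (.e (nat_lit 188438) (nat_lit 20) (.e (nat_lit 3579) (nat_lit 223) (.e (nat_lit 745493) (nat_lit 6) (.e (nat_lit 81946) (nat_lit 20) .nil)))))) (.g (nat_lit 0) .nil .nil)))) (.nd (nat_lit 5) 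
(.lf (nat_lit 85904) (.g (nat_lit 1337) (.e (nat_lit 1886) (nat_lit 127) (.e (nat_lit 581651) (nat_lit 4) (.e (nat_lit 172116) (nat_lit 10) (.e (nat_lit 434295) (nat_lit 49) (.e (nat_lit 745493) (nat_lit 6) (.e (nat_lit 81946) (nat_lit 20) .nil)))))) (.g (nat_lit 0) .nil .nil))) 
(.lf (nat_lit 85936) (.g (nat_lit 2616) (.e (nat_lit 1908) (nat_lit 129) (.e (nat_lit 598039) (nat_lit 8) (.e (nat_lit 65583) (nat_lit 7) (.e (nat_lit 319530) (nat_lit 16) (.e (nat_lit 286739) (nat_lit 7) (.e (nat_lit 319530) (nat_lit 16) (.e (nat_lit 286728) (nat_lit 0) .nil))))))) (.g (nat_lit 0) .nil .nil))))) (.nd (nat_lit 4) (.nd (nat_lit 5) 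
(.lf (nat_lit 85896) (.g (nat_lit 1415) (.e (nat_lit 1886) (nat_lit 127) (.e (nat_lit 581651) (nat_lit 4) (.e (nat_lit 172106) (nat_lit 10) (.e (nat_lit 434295) (nat_lit 49) (.e (nat_lit 745493) (nat_lit 6) (.e (nat_lit 81942) (nat_lit 20) .nil)))))) (.g (nat_lit 0) .nil .nil))) 
(.lf (nat_lit 85928) (.g (nat_lit 2115) (.e (nat_lit 1886) (nat_lit 127) (.e (nat_lit 581653) (nat_lit 6) (.e (nat_lit 188441) (nat_lit 20) (.e (nat_lit 3579) (nat_lit 223) (.e (nat_lit 745493) (nat_lit 6) (.e (nat_lit 81938) (nat_lit 20) .nil)))))) (.g (nat_lit 0) .nil .nil)))) (.nd (nat_lit 5) 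
(.lf (nat_lit 85912) (.g (nat_lit 2343) (.e (nat_lit 1886) (nat_lit 127) (.e (nat_lit 581653) (nat_lit 6) (.e (nat_lit 188434) (nat_lit 20) (.e (nat_lit 3579) (nat_lit 223) (.e (nat_lit 745493) (nat_lit 6) (.e (nat_lit 81946) (nat_lit 20) .nil)))))) (.g (nat_lit 0) .nil .nil))) 
(.lf (nat_lit 85944) (.g (nat_lit 2726) (.e (nat_lit 1909) (nat_lit 129) (.e (nat_lit 598039) (nat_lit 8) (.e (nat_lit 65583) (nat_lit 7) (.e (nat_lit 319530) (nat_lit 16) (.e (nat_lit 286739) (nat_lit 7) (.e (nat_lit 319530) (nat_lit 16) (.e (nat_lit 286728) (nat_lit 0) .nil))))))) (.g (nat_lit 0) .nil .nil)))))) (.nd (nat_lit 3) (.nd (nat_lit 4) (.nd (nat_lit 5) 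
(.lf (nat_lit 85892) (.g (nat_lit 1229) (.e (nat_lit 1886) (nat_lit 127) (.e (nat_lit 581651) (nat_lit 4) (.e (nat_lit 172038) (nat_lit 0) (.e (nat_lit 7107) (nat_lit 380) (.e (nat_lit 164108) (nat_lit 116) .nil))))) .nil)) 
(.lf (nat_lit 85924) (.g (nat_lit 1484) (.e (nat_lit 1886) (nat_lit 127) (.e (nat_lit 581653) (nat_lit 6) (.e (nat_lit 188440) (nat_lit 20) (.e (nat_lit 3578) (nat_lit 223) (.e (nat_lit 745493) (nat_lit 6) (.e (nat_lit 81942) (nat_lit 20) .nil)))))) (.g (nat_lit 0) .nil .nil)))) (.nd (nat_lit 5) 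
(.lf (nat_lit 85908) (.g (nat_lit 2095) (.e (nat_lit 1886) (nat_lit 127) (.e (nat_lit 581653) (nat_lit 6) (.e (nat_lit 188434) (nat_lit 20) (.e (nat_lit 3578) (nat_lit 223) (.e (nat_lit 745493) (nat_lit 6) (.e (nat_lit 81947) (nat_lit 20) .nil)))))) (.g (nat_lit 0) .nil .nil))) 
(.lf (nat_lit 85940) (.g (nat_lit 2125) (.e (nat_lit 1908) (nat_lit 129) (.e (nat_lit 598043) (nat_lit 12) (.e (nat_lit 131094) (nat_lit 2) (.e (nat_lit 90176) (nat_lit 15) (.e (nat_lit 188450) (nat_lit 23) (.e (nat_lit 204821) (nat_lit 17) .nil)))))) (.g (nat_lit 6) .nil .nil))))) (.nd (nat_lit 4) (.nd (nat_lit 5) 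
(.lf (nat_lit 85900) (.g (nat_lit 1685) (.e (nat_lit 1886) (nat_lit 127) (.e (nat_lit 581651) (nat_lit 4) (.e (nat_lit 172113) (nat_lit 10) (.e (nat_lit 434295) (nat_lit 49) (.e (nat_lit 745493) (nat_lit 6) (.e (nat_lit 81938) (nat_lit 20) .nil)))))) (.g (nat_lit 0) .nil .nil))) 
(.lf (nat_lit 85932) (.g (nat_lit 1210) (.e (nat_lit 1886) (nat_lit 127) (.e (nat_lit 581653) (nat_lit 6) (.e (nat_lit 188455) (nat_lit 24) (.e (nat_lit 229559) (nat_lit 158) .nil)))) .nil))) (.nd (nat_lit 5) 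
(.lf (nat_lit 85916) (.g (nat_lit 1172) (.e (nat_lit 1886) (nat_lit 127) (.e (nat_lit 581653) (nat_lit 6) (.e (nat_lit 188438) (nat_lit 20) (.e (nat_lit 3578) (nat_lit 223) (.e (nat_lit 745493) (nat_lit 6) (.e (nat_lit 81943) (nat_lit 20) .nil)))))) (.g (nat_lit 0) .nil .nil))) 
(.lf (nat_lit 85948) (.g (nat_lit 1443) (.e (nat_lit 1911) (nat_lit 129) (.e (nat_lit 598043) (nat_lit 12) (.e (nat_lit 131091) (nat_lit 2) (.e (nat_lit 90185) (nat_lit 17) (.e (nat_lit 237605) (nat_lit 9) (.e (nat_lit 426131) (nat_lit 3) (.e (nat_lit 204817) (nat_lit 17) .nil))))))) (.g (nat_lit 4) .nil .nil))))))) (.nd (nat_lit 2) (.nd (nat_lit 3) (.nd (nat_lit 4) (.nd (nat_lit 5) 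
(.lf (nat_lit 85890) (.g (nat_lit 3050) (.e (nat_lit 1886) (nat_lit 127) (.e (nat_lit 581636) (nat_lit 0) (.e (nat_lit 3015) (nat_lit 187) (.e (nat_lit 450563) (nat_lit 0) (.e (nat_lit 6740) (nat_lit 365) (.e (nat_lit 1222) (nat_lit 90) (.e (nat_lit 81943) (nat_lit 20) .nil))))))) (.g (nat_lit 0) .nil .nil))) 
(.lf (nat_lit 85922) (.g (nat_lit 1409) (.e (nat_lit 1886) (nat_lit 127) (.e (nat_lit 581653) (nat_lit 6) (.e (nat_lit 188439) (nat_lit 20) (.e (nat_lit 3578) (nat_lit 223) (.e (nat_lit 745493) (nat_lit 6) (.e (nat_lit 81942) (nat_lit 20) .nil)))))) (.g (nat_lit 0) .nil .nil)))) (.nd (nat_lit 5) 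
(.lf (nat_lit 85906) (.g (nat_lit 1778) (.e (nat_lit 1886) (nat_lit 127) (.e (nat_lit 581653) (nat_lit 6) (.e (nat_lit 188434) (nat_lit 20) (.e (nat_lit 3578) (nat_lit 223) (.e (nat_lit 745493) (nat_lit 6) (.e (nat_lit 81942) (nat_lit 20) .nil)))))) (.g (nat_lit 6) .nil .nil))) 
(.lf (nat_lit 85938) (.g (nat_lit 1467) (.e (nat_lit 1908) (nat_lit 129) (.e (nat_lit 598039) (nat_lit 8) (.e (nat_lit 65586) (nat_lit 7) (.e (nat_lit 319531) (nat_lit 16) (.e (nat_lit 286739) (nat_lit 7) (.e (nat_lit 319533) (nat_lit 16) (.e (nat_lit 286724) (nat_lit 0) .nil))))))) (.g (nat_lit 4) .nil .nil))))) (.nd (nat_lit 4) (.nd (nat_lit 5) 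
(.lf (nat_lit 85898) (.g (nat_lit 1387) (.e (nat_lit 1886) (nat_lit 127) (.e (nat_lit 581651) (nat_lit 4) (.e (nat_lit 172112) (nat_lit 10) (.e (nat_lit 434295) (nat_lit 49) (.e (nat_lit 745493) (nat_lit 6) (.e (nat_lit 81938) (nat_lit 20) .nil)))))) (.g (nat_lit 0) .nil .nil))) 
(.lf (nat_lit 85930) (.g (nat_lit 1613) (.e (nat_lit 1886) (nat_lit 127) (.e (nat_lit 581653) (nat_lit 6) (.e (nat_lit 188444) (nat_lit 21) (.e (nat_lit 164196) (nat_lit 158) (.e (nat_lit 1219) (nat_lit 90) .nil))))) .nil))) (.nd (nat_lit 5) 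
(.lf (nat_lit 85914) (.g (nat_lit 1337) (.e (nat_lit 1886) (nat_lit 127) (.e (nat_lit 581653) (nat_lit 6) (.e (nat_lit 188435) (nat_lit 20) (.e (nat_lit 3579) (nat_lit 223) (.e (nat_lit 745493) (nat_lit 6) (.e (nat_lit 81942) (nat_lit 20) .nil)))))) (.g (nat_lit 0) .nil .nil))) 
(.lf (nat_lit 85946) (.g (nat_lit 1976) (.e (nat_lit 1909) (nat_lit 129) (.e (nat_lit 598043) (nat_lit 12) (.e (nat_lit 131094) (nat_lit 2) (.e (nat_lit 90176) (nat_lit 15) (.e (nat_lit 188450) (nat_lit 23) (.e (nat_lit 204821) (nat_lit 17) .nil)))))) (.g (nat_lit 6) .nil .nil)))))) (.nd (nat_lit 3) (.nd (nat_lit 4) (.nd (nat_lit 5) 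
(.lf (nat_lit 85894) (.g (nat_lit 1702) (.e (nat_lit 1886) (nat_lit 127) (.e (nat_lit 581651) (nat_lit 4) (.e (nat_lit 172106) (nat_lit 10) (.e (nat_lit 434209) (nat_lit 18) (.e (nat_lit 6792) (nat_lit 365) .nil))))) .nil)) 
(.lf (nat_lit 85926) (.g (nat_lit 1851) (.e (nat_lit 1886) (nat_lit 127) (.e (nat_lit 581653) (nat_lit 6) (.e (nat_lit 188440) (nat_lit 20) (.e (nat_lit 3579) (nat_lit 223) (.e (nat_lit 745493) (nat_lit 6) (.e (nat_lit 81942) (nat_lit 20) .nil)))))) (.g (nat_lit 0) .nil .nil)))) (.nd (nat_lit 5) 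
(.lf (nat_lit 85910) (.g (nat_lit 2034) (.e (nat_lit 1886) (nat_lit 127) (.e (nat_lit 581653) (nat_lit 6) (.e (nat_lit 188434) (nat_lit 20) (.e (nat_lit 3579) (nat_lit 223) (.e (nat_lit 745493) (nat_lit 6) (.e (nat_lit 81942) (nat_lit 20) .nil)))))) (.g (nat_lit 0) .nil .nil))) 
(.lf (nat_lit 85942) (.g (nat_lit 1316) (.e (nat_lit 1909) (nat_lit 129) (.e (nat_lit 598038) (nat_lit 8) (.e (nat_lit 65586) (nat_lit 7) (.e (nat_lit 319531) (nat_lit 16) (.e (nat_lit 286739) (nat_lit 7) (.e (nat_lit 319533) (nat_lit 16) (.e (nat_lit 286725) (nat_lit 0) .nil))))))) (.g (nat_lit 4) .nil .nil))))) (.nd (nat_lit 4) (.nd (nat_lit 5) 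
(.lf (nat_lit 85902) (.g (nat_lit 1648) (.e (nat_lit 1886) (nat_lit 127) (.e (nat_lit 581651) (nat_lit 4) (.e (nat_lit 172115) (nat_lit 10) (.e (nat_lit 434295) (nat_lit 49) (.e (nat_lit 745493) (nat_lit 6) (.e (nat_lit 81938) (nat_lit 20) .nil)))))) (.g (nat_lit 0) .nil .nil))) 
(.lf (nat_lit 85934) (.g (nat_lit 1986) (.e (nat_lit 1905) (nat_lit 129) (.e (nat_lit 598043) (nat_lit 12) (.e (nat_lit 131094) (nat_lit 2) (.e (nat_lit 90176) (nat_lit 15) (.e (nat_lit 188450) (nat_lit 23) (.e (nat_lit 204817) (nat_lit 17) .nil)))))) (.g (nat_lit 6) .nil .nil)))) (.nd (nat_lit 5) 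
(.lf (nat_lit 85918) (.g (nat_lit 1756) (.e (nat_lit 1886) (nat_lit 127) (.e (nat_lit 581653) (nat_lit 6) (.e (nat_lit 188438) (nat_lit 20) (.e (nat_lit 3579) (nat_lit 223) (.e (nat_lit 745493) (nat_lit 6) (.e (nat_lit 81938) (nat_lit 20) .nil)))))) (.g (nat_lit 0) .nil .nil))) 
(.lf (nat_lit 85950) (.g (nat_lit 4903) (.e (nat_lit 1912) (nat_lit 129) (.e (nat_lit 598043) (nat_lit 12) (.e (nat_lit 131093) (nat_lit 2) (.e (nat_lit 90170) (nat_lit 13) (.e (nat_lit 172106) (nat_lit 10) (.e (nat_lit 434231) (nat_lit 23) (.e (nat_lit 532481) (nat_lit 0) .nil))))))) (.g (nat_lit 0) .nil .nil)))))))) 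
(.nd (nat_lit 1) (.nd (nat_lit 2) (.nd (nat_lit 3) (.nd (nat_lit 4) (.nd (nat_lit 5) 
(.lf (nat_lit 85889) (.g (nat_lit 2947) (.e (nat_lit 1886) (nat_lit 127) (.e (nat_lit 581635) (nat_lit 0) (.e (nat_lit 3027) (nat_lit 187) (.e (nat_lit 450564) (nat_lit 0) (.e (nat_lit 6792) (nat_lit 365) (.e (nat_lit 1221) (nat_lit 90) (.e (nat_lit 81938) (nat_lit 20) .nil))))))) (.g (nat_lit 7) .nil .nil))) 
(.lf (nat_lit 85921) (.g (nat_lit 1057) (.e (nat_lit 1886) (nat_lit 127) (.e (nat_lit 581653) (nat_lit 6) (.e (nat_lit 188439) (nat_lit 20) (.e (nat_lit 3577) (nat_lit 223) .nil)))) .nil))) (.nd (nat_lit 5) 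
(.lf (nat_lit 85905) (.g (nat_lit 2144) (.e (nat_lit 1886) (nat_lit 127) (.e (nat_lit 581653) (nat_lit 6) (.e (nat_lit 188434) (nat_lit 20) (.e (nat_lit 3578) (nat_lit 223) (.e (nat_lit 745493) (nat_lit 6) (.e (nat_lit 81938) (nat_lit 20) .nil)))))) (.g (nat_lit 0) .nil .nil))) 
(.lf (nat_lit 85937) (.g (nat_lit 2824) (.e (nat_lit 1908) (nat_lit 129) (.e (nat_lit 598039) (nat_lit 8) (.e (nat_lit 65583) (nat_lit 7) (.e (nat_lit 319530) (nat_lit 16) (.e (nat_lit 286739) (nat_lit 7) (.e (nat_lit 319531) (nat_lit 16) (.e (nat_lit 286728) (nat_lit 0) .nil))))))) (.g (nat_lit 0) .nil .nil))))) (.nd (nat_lit 4) (.nd (nat_lit 5) 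
(.lf (nat_lit 85897) (.g (nat_lit 1423) (.e (nat_lit 1886) (nat_lit 127) (.e (nat_lit 581651) (nat_lit 4) (.e (nat_lit 172107) (nat_lit 10) (.e (nat_lit 434295) (nat_lit 49) (.e (nat_lit 745493) (nat_lit 6) (.e (nat_lit 81938) (nat_lit 20) .nil)))))) (.g (nat_lit 0) .nil .nil))) 
(.lf (nat_lit 85929) (.g (nat_lit 1742) (.e (nat_lit 1886) (nat_lit 127) (.e (nat_lit 581653) (nat_lit 6) (.e (nat_lit 188441) (nat_lit 20) (.e (nat_lit 3579) (nat_lit 223) (.e (nat_lit 745493) (nat_lit 6) (.e (nat_lit 81942) (nat_lit 20) .nil)))))) (.g (nat_lit 0) .nil .nil)))) (.nd (nat_lit 5) 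
(.lf (nat_lit 85913) (.g (nat_lit 1710) (.e (nat_lit 1886) (nat_lit 127) (.e (nat_lit 581653) (nat_lit 6) (.e (nat_lit 188435) (nat_lit 20) (.e (nat_lit 3579) (nat_lit 223) (.e (nat_lit 745493) (nat_lit 6) (.e (nat_lit 81938) (nat_lit 20) .nil)))))) (.g (nat_lit 0) .nil .nil))) 
(.lf (nat_lit 85945) (.g (nat_lit 2940) (.e (nat_lit 1909) (nat_lit 129) (.e (nat_lit 598039) (nat_lit 8) (.e (nat_lit 65583) (nat_lit 7) (.e (nat_lit 319530) (nat_lit 16) (.e (nat_lit 286739) (nat_lit 7) (.e (nat_lit 319531) (nat_lit 16) (.e (nat_lit 286728) (nat_lit 0) .nil))))))) (.g (nat_lit 0) .nil .nil)))))) (.nd (nat_lit 3) (.nd (nat_lit 4) (.nd (nat_lit 5) 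
(.lf (nat_lit 85893) (.g (nat_lit 560) (.e (nat_lit 1886) (nat_lit 127) (.e (nat_lit 581651) (nat_lit 4) (.e (nat_lit 172079) (nat_lit 7) (.e (nat_lit 409634) (nat_lit 13) .nil)))) .nil)) 
(.lf (nat_lit 85925) (.g (nat_lit 2224) (.e (nat_lit 1886) (nat_lit 127) (.e (nat_lit 581653) (nat_lit 6) (.e (nat_lit 188440) (nat_lit 20) (.e (nat_lit 3579) (nat_lit 223) (.e (nat_lit 745493) (nat_lit 6) (.e (nat_lit 81938) (nat_lit 20) .nil)))))) (.g (nat_lit 0) .nil .nil)))) (.nd (nat_lit 5) 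
(.lf (nat_lit 85909) (.g (nat_lit 2408) (.e (nat_lit 1886) (nat_lit 127) (.e (nat_lit 581653) (nat_lit 6) (.e (nat_lit 188434) (nat_lit 20) (.e (nat_lit 3579) (nat_lit 223) (.e (nat_lit 745493) (nat_lit 6) (.e (nat_lit 81938) (nat_lit 20) .nil)))))) (.g (nat_lit 0) .nil .nil))) 
(.lf (nat_lit 85941) (.g (nat_lit 3453) (.e (nat_lit 1909) (nat_lit 129) (.e (nat_lit 598038) (nat_lit 8) (.e (nat_lit 65586) (nat_lit 7) (.e (nat_lit 319531) (nat_lit 16) (.e (nat_lit 286739) (nat_lit 7) (.e (nat_lit 319531) (nat_lit 16) (.e (nat_lit 286728) (nat_lit 0) .nil))))))) (.g (nat_lit 0) .nil .nil))))) (.nd (nat_lit 4) (.nd (nat_lit 5) 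
(.lf (nat_lit 85901) (.g (nat_lit 1352) (.e (nat_lit 1886) (nat_lit 127) (.e (nat_lit 581651) (nat_lit 4) (.e (nat_lit 172115) (nat_lit 10) (.e (nat_lit 434209) (nat_lit 18) (.e (nat_lit 6792) (nat_lit 365) .nil))))) .nil)) 
(.lf (nat_lit 85933) (.g (nat_lit 1153) (.e (nat_lit 1886) (nat_lit 127) (.e (nat_lit 581653) (nat_lit 6) (.e (nat_lit 188455) (nat_lit 24) (.e (nat_lit 237312) (nat_lit 158) .nil)))) .nil))) (.nd (nat_lit 5) 
(.lf (nat_lit 85917) (.g (nat_lit 1386) (.e (nat_lit 1886) (nat_lit 127) (.e (nat_lit 581653) (nat_lit 6) (.e (nat_lit 188438) (nat_lit 20) (.e (nat_lit 3578) (nat_lit 223) (.e (nat_lit 745493) (nat_lit 6) (.e (nat_lit 81947) (nat_lit 20) .nil)))))) (.g (nat_lit 0) .nil .nil))) 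
(.lf (nat_lit 85949) (.g (nat_lit 2169) (.e (nat_lit 1912) (nat_lit 129) (.e (nat_lit 598043) (nat_lit 12) (.e (nat_lit 131091) (nat_lit 2) (.e (nat_lit 90176) (nat_lit 15) (.e (nat_lit 188450) (nat_lit 23) (.e (nat_lit 204817) (nat_lit 17) .nil)))))) (.g (nat_lit 6) .nil .nil))))))) (.nd (nat_lit 2) (.nd (nat_lit 3) (.nd (nat_lit 4) (.nd (nat_lit 5) 
(.lf (nat_lit 85891) (.g (nat_lit 1909) (.e (nat_lit 1886) (nat_lit 127) (.e (nat_lit 581636) (nat_lit 0) (.e (nat_lit 3015) (nat_lit 187) (.e (nat_lit 450563) (nat_lit 0) (.e (nat_lit 6808) (nat_lit 365) (.e (nat_lit 7936) (nat_lit 90) (.e (nat_lit 81943) (nat_lit 20) .nil))))))) (.g (nat_lit 5) .nil .nil))) 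
(.lf (nat_lit 85923) (.g (nat_lit 1023) (.e (nat_lit 1886) (nat_lit 127) (.e (nat_lit 581653) (nat_lit 6) (.e (nat_lit 188440) (nat_lit 20) (.e (nat_lit 3577) (nat_lit 223) .nil)))) .nil))) (.nd (nat_lit 5) 
(.lf (nat_lit 85907) (.g (nat_lit 2081) (.e (nat_lit 1886) (nat_lit 127) (.e (nat_lit 581653) (nat_lit 6) (.e (nat_lit 188434) (nat_lit 20) (.e (nat_lit 3578) (nat_lit 223) (.e (nat_lit 745493) (nat_lit 6) (.e (nat_lit 81946) (nat_lit 20) .nil)))))) (.g (nat_lit 0) .nil .nil))) 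
(.lf (nat_lit 85939) (.g (nat_lit 3583) (.e (nat_lit 1908) (nat_lit 129) (.e (nat_lit 598043) (nat_lit 12) (.e (nat_lit 131093) (nat_lit 2) (.e (nat_lit 90170) (nat_lit 13) (.e (nat_lit 172106) (nat_lit 10) (.e (nat_lit 434231) (nat_lit 23) (.e (nat_lit 532490) (nat_lit 0) .nil))))))) (.g (nat_lit 7) .nil .nil))))) (.nd (nat_lit 4) (.nd (nat_lit 5) 
(.lf (nat_lit 85899) (.g (nat_lit 1014) (.e (nat_lit 1886) (nat_lit 127) (.e (nat_lit 581651) (nat_lit 4) (.e (nat_lit 172112) (nat_lit 10) (.e (nat_lit 434295) (nat_lit 49) (.e (nat_lit 745493) (nat_lit 6) (.e (nat_lit 81942) (nat_lit 20) .nil)))))) (.g (nat_lit 0) .nil .nil))) 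
(.lf (nat_lit 85931) (.g (nat_lit 1472) (.e (nat_lit 1886) (nat_lit 127) (.e (nat_lit 581653) (nat_lit 6) (.e (nat_lit 188446) (nat_lit 21) (.e (nat_lit 164196) (nat_lit 158) (.e (nat_lit 1219) (nat_lit 90) .nil))))) .nil))) (.nd (nat_lit 5) 
(.lf (nat_lit 85915) (.g (nat_lit 411) (.e (nat_lit 1886) (nat_lit 127) (.e (nat_lit 581653) (nat_lit 6) (.e (nat_lit 188438) (nat_lit 20) .nil))) .nil)) 
(.lf (nat_lit 85947) (.g (nat_lit 1025) (.e (nat_lit 1910) (nat_lit 129) (.e (nat_lit 598040) (nat_lit 9) (.e (nat_lit 73746) (nat_lit 3) (.e (nat_lit 516163) (nat_lit 11) .nil)))) .nil))))) (.nd (nat_lit 3) (.nd (nat_lit 4) (.nd (nat_lit 5) 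
(.lf (nat_lit 85895) (.g (nat_lit 1790) (.e (nat_lit 1886) (nat_lit 127) (.e (nat_lit 581651) (nat_lit 4) (.e (nat_lit 172106) (nat_lit 10) (.e (nat_lit 434295) (nat_lit 49) (.e (nat_lit 745493) (nat_lit 6) (.e (nat_lit 81938) (nat_lit 20) .nil)))))) (.g (nat_lit 0) .nil .nil))) 
(.lf (nat_lit 85927) (.g (nat_lit 1386) (.e (nat_lit 1886) (nat_lit 127) (.e (nat_lit 581653) (nat_lit 6) (.e (nat_lit 188441) (nat_lit 20) (.e (nat_lit 3578) (nat_lit 223) (.e (nat_lit 745493) (nat_lit 6) (.e (nat_lit 81942) (nat_lit 20) .nil)))))) (.g (nat_lit 0) .nil .nil)))) (.nd (nat_lit 5) 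
(.lf (nat_lit 85911) (.g (nat_lit 2139) (.e (nat_lit 1886) (nat_lit 127) (.e (nat_lit 581653) (nat_lit 6) (.e (nat_lit 188434) (nat_lit 20) (.e (nat_lit 3579) (nat_lit 223) (.e (nat_lit 745493) (nat_lit 6) (.e (nat_lit 81943) (nat_lit 20) .nil)))))) (.g (nat_lit 0) .nil .nil))) 
(.lf (nat_lit 85943) (.g (nat_lit 2869) (.e (nat_lit 1909) (nat_lit 129) (.e (nat_lit 598038) (nat_lit 8) (.e (nat_lit 65586) (nat_lit 7) (.e (nat_lit 319531) (nat_lit 16) (.e (nat_lit 286739) (nat_lit 7) (.e (nat_lit 319534) (nat_lit 16) (.e (nat_lit 286728) (nat_lit 0) .nil))))))) (.g (nat_lit 7) .nil .nil))))) (.nd (nat_lit 4) (.nd (nat_lit 5) 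
(.lf (nat_lit 85903) (.g (nat_lit 1416) (.e (nat_lit 1886) (nat_lit 127) (.e (nat_lit 581651) (nat_lit 4) (.e (nat_lit 172116) (nat_lit 10) (.e (nat_lit 434295) (nat_lit 49) (.e (nat_lit 745493) (nat_lit 6) (.e (nat_lit 81938) (nat_lit 20) .nil)))))) (.g (nat_lit 0) .nil .nil))) 
(.lf (nat_lit 85935) (.g (nat_lit 3212) (.e (nat_lit 1908) (nat_lit 129) (.e (nat_lit 598039) (nat_lit 8) (.e (nat_lit 65568) (nat_lit 2) (.e (nat_lit 90170) (nat_lit 13) (.e (nat_lit 172106) (nat_lit 10) (.e (nat_lit 434231) (nat_lit 23) (.e (nat_lit 532490) (nat_lit 0) .nil))))))) (.g (nat_lit 7) .nil .nil)))) (.nd (nat_lit 5) 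
(.lf (nat_lit 85919) (.g (nat_lit 1490) (.e (nat_lit 1886) (nat_lit 127) (.e (nat_lit 581653) (nat_lit 6) (.e (nat_lit 188438) (nat_lit 20) (.e (nat_lit 3579) (nat_lit 223) (.e (nat_lit 745493) (nat_lit 6) (.e (nat_lit 81943) (nat_lit 20) .nil)))))) (.g (nat_lit 0) .nil .nil))) 
(.lf (nat_lit 85951) (.g (nat_lit 4004) (.e (nat_lit 1912) (nat_lit 129) (.e (nat_lit 598043) (nat_lit 12) (.e (nat_lit 131093) (nat_lit 2) (.e (nat_lit 90170) (nat_lit 13) (.e (nat_lit 172106) (nat_lit 10) (.e (nat_lit 434231) (nat_lit 23) (.e (nat_lit 532483) (nat_lit 0) .nil))))))) (.g (nat_lit 7) .nil .nil)))))))))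

noncomputable def tv1164 : DT := (.nd (nat_lit 0) (.nd (nat_lit 1) (.nd (nat_lit 2) (.nd (nat_lit 3) (.nd (nat_lit 4) (.nd (nat_lit 5) 
(.lf (nat_lit 85952) (.g (nat_lit 3213) (.e (nat_lit 1912) (nat_lit 129) (.e (nat_lit 598043) (nat_lit 12) (.e (nat_lit 131093) (nat_lit 2) (.e (nat_lit 90170) (nat_lit 13) (.e (nat_lit 172106) (nat_lit 10) (.e (nat_lit 434231) (nat_lit 23) (.e (nat_lit 532485) (nat_lit 0) .nil))))))) (.g (nat_lit 6) .nil .nil))) 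
(.lf (nat_lit 85984) (.g (nat_lit 2952) (.e (nat_lit 1960) (nat_lit 134) (.e (nat_lit 638998) (nat_lit 8) (.e (nat_lit 172067) (nat_lit 3) (.e (nat_lit 204855) (nat_lit 26) (.e (nat_lit 336173) (nat_lit 10) .nil))))) .nil))) (.nd (nat_lit 5) 
(.lf (nat_lit 85968) (.g (nat_lit 2789) (.e (nat_lit 1936) (nat_lit 132) (.e (nat_lit 622605) (nat_lit 5) (.e (nat_lit 1255) (nat_lit 92) (.e (nat_lit 98372) (nat_lit 29) (.e (nat_lit 450579) (nat_lit 5) (.e (nat_lit 532530) (nat_lit 9) (.e (nat_lit 335950) (nat_lit 0) .nil))))))) (.g (nat_lit 6) .nil .nil))) 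
(.lf (nat_lit 86000) (.g (nat_lit 2045) (.e (nat_lit 1960) (nat_lit 134) (.e (nat_lit 638998) (nat_lit 8) (.e (nat_lit 172120) (nat_lit 12) (.e (nat_lit 475155) (nat_lit 21) (.e (nat_lit 6297) (nat_lit 337) .nil))))) .nil)))) (.nd (nat_lit 4) (.nd (nat_lit 5) 
(.lf (nat_lit 85960) (.g (nat_lit 2591) (.e (nat_lit 1917) (nat_lit 130) (.e (nat_lit 606243) (nat_lit 11) (.e (nat_lit 24604) (nat_lit 2) (.e (nat_lit 90176) (nat_lit 15) (.e (nat_lit 188450) (nat_lit 23) (.e (nat_lit 204815) (nat_lit 17) .nil)))))) (.g (nat_lit 6) .nil .nil))) 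
(.lf (nat_lit 85992) (.g (nat_lit 1675) (.e (nat_lit 1960) (nat_lit 134) (.e (nat_lit 638998) (nat_lit 8) (.e (nat_lit 172094) (nat_lit 9) (.e (nat_lit 426109) (nat_lit 1) (.e (nat_lit 164319) (nat_lit 228) .nil))))) .nil))) (.nd (nat_lit 5) 
(.lf (nat_lit 85976) (.g (nat_lit 2860) (.e (nat_lit 1957) (nat_lit 134) (.e (nat_lit 639020) (nat_lit 16) (.e (nat_lit 65627) (nat_lit 13) (.e (nat_lit 393293) (nat_lit 26) (.e (nat_lit 475214) (nat_lit 42) (.e (nat_lit 720912) (nat_lit 20) .nil)))))) (.g (nat_lit 0) .nil .nil))) 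
(.lf (nat_lit 86008) (.g (nat_lit 1737) (.e (nat_lit 1960) (nat_lit 134) (.e (nat_lit 638998) (nat_lit 8) (.e (nat_lit 172120) (nat_lit 12) (.e (nat_lit 475161) (nat_lit 21) .nil)))) .nil))))) (.nd (nat_lit 3) (.nd (nat_lit 4) (.nd (nat_lit 5) 
(.lf (nat_lit 85956) (.g (nat_lit 2019) (.e (nat_lit 1915) (nat_lit 130) (.e (nat_lit 606243) (nat_lit 11) (.e (nat_lit 24608) (nat_lit 3) (.e (nat_lit 98365) (nat_lit 26) (.e (nat_lit 426298) (nat_lit 11) (.e (nat_lit 458789) (nat_lit 23) (.e (nat_lit 532481) (nat_lit 0) .nil))))))) (.g (nat_lit 4) .nil .nil))) 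
(.lf (nat_lit 85988) (.g (nat_lit 3001) (.e (nat_lit 1960) (nat_lit 134) (.e (nat_lit 638998) (nat_lit 8) (.e (nat_lit 172067) (nat_lit 3) (.e (nat_lit 204869) (nat_lit 29) (.e (nat_lit 360462) (nat_lit 1) .nil))))) .nil))) (.nd (nat_lit 5) 
(.lf (nat_lit 85972) (.g (nat_lit 5371) (.e (nat_lit 1941) (nat_lit 132) (.e (nat_lit 622603) (nat_lit 5) (.e (nat_lit 1234) (nat_lit 91) (.e (nat_lit 90170) (nat_lit 13) (.e (nat_lit 172106) (nat_lit 10) (.e (nat_lit 434231) (nat_lit 23) (.e (nat_lit 532535) (nat_lit 9) (.e (nat_lit 335925) (nat_lit 0) .nil)))))))) (.g (nat_lit 8) .nil .nil))) 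
(.lf (nat_lit 86004) (.g (nat_lit 2045) (.e (nat_lit 1960) (nat_lit 134) (.e (nat_lit 638998) (nat_lit 8) (.e (nat_lit 172120) (nat_lit 12) (.e (nat_lit 475155) (nat_lit 21) (.e (nat_lit 6322) (nat_lit 337) .nil))))) .nil)))) (.nd (nat_lit 4) (.nd (nat_lit 5) 
(.lf (nat_lit 85964) (.g (nat_lit 6453) (.e (nat_lit 1936) (nat_lit 132) (.e (nat_lit 622605) (nat_lit 5) (.e (nat_lit 1234) (nat_lit 91) (.e (nat_lit 90170) (nat_lit 13) (.e (nat_lit 172106) (nat_lit 10) (.e (nat_lit 434231) (nat_lit 23) (.e (nat_lit 532535) (nat_lit 9) (.e (nat_lit 335937) (nat_lit 0) .nil)))))))) (.g (nat_lit 7) .nil .nil))) 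
(.lf (nat_lit 85996) (.g (nat_lit 1765) (.e (nat_lit 1960) (nat_lit 134) (.e (nat_lit 638998) (nat_lit 8) (.e (nat_lit 172120) (nat_lit 12) (.e (nat_lit 475155) (nat_lit 21) .nil)))) .nil))) (.nd (nat_lit 5) 
(.lf (nat_lit 85980) (.g (nat_lit 1881) (.e (nat_lit 1958) (nat_lit 134) (.e (nat_lit 639018) (nat_lit 15) (.e (nat_lit 57478) (nat_lit 28) (.e (nat_lit 557105) (nat_lit 14) (.e (nat_lit 180252) (nat_lit 10) .nil))))) .nil)) 
(.lf (nat_lit 86012) (.g (nat_lit 1755) (.e (nat_lit 1960) (nat_lit 134) (.e (nat_lit 638998) (nat_lit 8) (.e (nat_lit 172120) (nat_lit 12) (.e (nat_lit 475163) (nat_lit 21) .nil)))) .nil)))))) (.nd (nat_lit 2) (.nd (nat_lit 3) (.nd (nat_lit 4) (.nd (nat_lit 5) 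
(.lf (nat_lit 85954) (.g (nat_lit 1897) (.e (nat_lit 1915) (nat_lit 130) (.e (nat_lit 606243) (nat_lit 11) (.e (nat_lit 24603) (nat_lit 2) (.e (nat_lit 90176) (nat_lit 15) (.e (nat_lit 188450) (nat_lit 23) (.e (nat_lit 204817) (nat_lit 17) .nil)))))) (.g (nat_lit 0) .nil .nil))) 
(.lf (nat_lit 85986) (.g (nat_lit 3080) (.e (nat_lit 1960) (nat_lit 134) (.e (nat_lit 638998) (nat_lit 8) (.e (nat_lit 172067) (nat_lit 3) (.e (nat_lit 204866) (nat_lit 28) (.e (nat_lit 352285) (nat_lit 20) (.e (nat_lit 1814) (nat_lit 121) (.e (nat_lit 532491) (nat_lit 0) .nil))))))) (.g (nat_lit 5) .nil .nil)))) (.nd (nat_lit 5) 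
(.lf (nat_lit 85970) (.g (nat_lit 4198) (.e (nat_lit 1940) (nat_lit 132) (.e (nat_lit 622599) (nat_lit 5) (.e (nat_lit 1239) (nat_lit 91) (.e (nat_lit 90170) (nat_lit 13) (.e (nat_lit 172106) (nat_lit 10) (.e (nat_lit 434231) (nat_lit 23) (.e (nat_lit 532535) (nat_lit 9) (.e (nat_lit 335925) (nat_lit 0) .nil)))))))) (.g (nat_lit 8) .nil .nil))) 
(.lf (nat_lit 86002) (.g (nat_lit 2045) (.e (nat_lit 1960) (nat_lit 134) (.e (nat_lit 638998) (nat_lit 8) (.e (nat_lit 172120) (nat_lit 12) (.e (nat_lit 475155) (nat_lit 21) (.e (nat_lit 6307) (nat_lit 337) .nil))))) .nil)))) (.nd (nat_lit 4) (.nd (nat_lit 5) 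
(.lf (nat_lit 85962) (.g (nat_lit 6350) (.e (nat_lit 1936) (nat_lit 132) (.e (nat_lit 622605) (nat_lit 5) (.e (nat_lit 1234) (nat_lit 91) (.e (nat_lit 90170) (nat_lit 13) (.e (nat_lit 172106) (nat_lit 10) (.e (nat_lit 434231) (nat_lit 23) (.e (nat_lit 532535) (nat_lit 9) (.e (nat_lit 335921) (nat_lit 0) .nil)))))))) (.g (nat_lit 7) .nil .nil))) 
(.lf (nat_lit 85994) (.g (nat_lit 1644) (.e (nat_lit 1960) (nat_lit 134) (.e (nat_lit 638998) (nat_lit 8) (.e (nat_lit 172097) (nat_lit 9) (.e (nat_lit 426109) (nat_lit 1) (.e (nat_lit 164319) (nat_lit 228) .nil))))) .nil))) (.nd (nat_lit 5) 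
(.lf (nat_lit 85978) (.g (nat_lit 2523) (.e (nat_lit 1958) (nat_lit 134) (.e (nat_lit 638998) (nat_lit 8) (.e (nat_lit 172067) (nat_lit 3) (.e (nat_lit 204869) (nat_lit 29) (.e (nat_lit 368384) (nat_lit 5) (.e (nat_lit 532481) (nat_lit 0) .nil)))))) (.g (nat_lit 4) .nil .nil))) 
(.lf (nat_lit 86010) (.g (nat_lit 1703) (.e (nat_lit 1960) (nat_lit 134) (.e (nat_lit 638998) (nat_lit 8) (.e (nat_lit 172120) (nat_lit 12) (.e (nat_lit 475162) (nat_lit 21) .nil)))) .nil))))) (.nd (nat_lit 3) (.nd (nat_lit 4) (.nd (nat_lit 5) 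
(.lf (nat_lit 85958) (.g (nat_lit 2620) (.e (nat_lit 1916) (nat_lit 130) (.e (nat_lit 606243) (nat_lit 11) (.e (nat_lit 24604) (nat_lit 2) (.e (nat_lit 90176) (nat_lit 15) (.e (nat_lit 188450) (nat_lit 23) (.e (nat_lit 204815) (nat_lit 17) .nil)))))) (.g (nat_lit 6) .nil .nil))) 
(.lf (nat_lit 85990) (.g (nat_lit 2038) (.e (nat_lit 1960) (nat_lit 134) (.e (nat_lit 638998) (nat_lit 8) (.e (nat_lit 172082) (nat_lit 7) (.e (nat_lit 409646) (nat_lit 18) (.e (nat_lit 303133) (nat_lit 9) (.e (nat_lit 426412) (nat_lit 15) (.e (nat_lit 2175) (nat_lit 143) (.e (nat_lit 712706) (nat_lit 0) .nil)))))))) (.g (nat_lit 4) .nil .nil)))) (.nd (nat_lit 5) 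
(.lf (nat_lit 85974) (.g (nat_lit 1531) (.e (nat_lit 1952) (nat_lit 133) (.e (nat_lit 630823) (nat_lit 18) (.e (nat_lit 81925) (nat_lit 11) (.e (nat_lit 426315) (nat_lit 12) (.e (nat_lit 475215) (nat_lit 43) (.e (nat_lit 729104) (nat_lit 20) .nil)))))) (.g (nat_lit 6) .nil .nil))) 
(.lf (nat_lit 86006) (.g (nat_lit 1796) (.e (nat_lit 1960) (nat_lit 134) (.e (nat_lit 638998) (nat_lit 8) (.e (nat_lit 172120) (nat_lit 12) (.e (nat_lit 475159) (nat_lit 21) .nil)))) .nil)))) (.nd (nat_lit 4) (.nd (nat_lit 5) 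
(.lf (nat_lit 85966) (.g (nat_lit 4103) (.e (nat_lit 1936) (nat_lit 132) (.e (nat_lit 622605) (nat_lit 5) (.e (nat_lit 1237) (nat_lit 91) (.e (nat_lit 90170) (nat_lit 13) (.e (nat_lit 172106) (nat_lit 10) (.e (nat_lit 434231) (nat_lit 23) (.e (nat_lit 532535) (nat_lit 9) (.e (nat_lit 335925) (nat_lit 0) .nil)))))))) (.g (nat_lit 8) .nil .nil))) 
(.lf (nat_lit 85998) (.g (nat_lit 2045) (.e (nat_lit 1960) (nat_lit 134) (.e (nat_lit 638998) (nat_lit 8) (.e (nat_lit 172120) (nat_lit 12) (.e (nat_lit 475155) (nat_lit 21) (.e (nat_lit 6281) (nat_lit 337) .nil))))) .nil))) (.nd (nat_lit 5) 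
(.lf (nat_lit 85982) (.g (nat_lit 1062) (.e (nat_lit 1958) (nat_lit 134) (.e (nat_lit 639020) (nat_lit 16) (.e (nat_lit 65627) (nat_lit 13) (.e (nat_lit 393267) (nat_lit 23) .nil)))) .nil)) 
(.lf (nat_lit 86014) (.g (nat_lit 1503) (.e (nat_lit 1960) (nat_lit 134) (.e (nat_lit 638998) (nat_lit 8) (.e (nat_lit 172120) (nat_lit 12) (.e (nat_lit 475193) (nat_lit 38) .nil)))) .nil))))))) (.nd (nat_lit 1) (.nd (nat_lit 2) (.nd (nat_lit 3) (.nd (nat_lit 4) (.nd (nat_lit 5) 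
(.lf (nat_lit 85953) (.g (nat_lit 2380) (.e (nat_lit 1912) (nat_lit 129) (.e (nat_lit 598043) (nat_lit 12) (.e (nat_lit 131094) (nat_lit 2) (.e (nat_lit 90185) (nat_lit 17) (.e (nat_lit 237605) (nat_lit 9) (.e (nat_lit 426131) (nat_lit 3) (.e (nat_lit 204817) (nat_lit 17) .nil))))))) (.g (nat_lit 7) .nil .nil))) 
(.lf (nat_lit 85985) (.g (nat_lit 2878) (.e (nat_lit 1960) (nat_lit 134) (.e (nat_lit 638998) (nat_lit 8) (.e (nat_lit 172067) (nat_lit 3) (.e (nat_lit 204866) (nat_lit 28) (.e (nat_lit 352282) (nat_lit 20) .nil))))) .nil))) (.nd (nat_lit 5) 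
(.lf (nat_lit 85969) (.g (nat_lit 2514) (.e (nat_lit 1939) (nat_lit 132) (.e (nat_lit 622601) (nat_lit 5) (.e (nat_lit 1669) (nat_lit 116) (.e (nat_lit 401454) (nat_lit 12) (.e (nat_lit 475193) (nat_lit 38) .nil))))) .nil)) 
(.lf (nat_lit 86001) (.g (nat_lit 2045) (.e (nat_lit 1960) (nat_lit 134) (.e (nat_lit 638998) (nat_lit 8) (.e (nat_lit 172120) (nat_lit 12) (.e (nat_lit 475155) (nat_lit 21) (.e (nat_lit 6301) (nat_lit 337) .nil))))) .nil)))) (.nd (nat_lit 4) (.nd (nat_lit 5) 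
(.lf (nat_lit 85961) (.g (nat_lit 3810) (.e (nat_lit 1917) (nat_lit 130) (.e (nat_lit 606243) (nat_lit 11) (.e (nat_lit 24608) (nat_lit 3) (.e (nat_lit 98365) (nat_lit 26) (.e (nat_lit 426298) (nat_lit 11) (.e (nat_lit 458789) (nat_lit 23) (.e (nat_lit 532481) (nat_lit 0) .nil))))))) (.g (nat_lit 0) .nil .nil))) 
(.lf (nat_lit 85993) (.g (nat_lit 1820) (.e (nat_lit 1960) (nat_lit 134) (.e (nat_lit 638998) (nat_lit 8) (.e (nat_lit 172094) (nat_lit 9) (.e (nat_lit 426109) (nat_lit 1) (.e (nat_lit 164319) (nat_lit 228) (.e (nat_lit 57424) (nat_lit 14) (.e (nat_lit 352302) (nat_lit 20) .nil))))))) (.g (nat_lit 4) .nil .nil)))) (.nd (nat_lit 5) 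
(.lf (nat_lit 85977) (.g (nat_lit 3115) (.e (nat_lit 1958) (nat_lit 134) (.e (nat_lit 638998) (nat_lit 8) (.e (nat_lit 172067) (nat_lit 3) (.e (nat_lit 204868) (nat_lit 29) (.e (nat_lit 368384) (nat_lit 5) (.e (nat_lit 532481) (nat_lit 0) .nil)))))) (.g (nat_lit 4) .nil .nil))) 
(.lf (nat_lit 86009) (.g (nat_lit 2027) (.e (nat_lit 1960) (nat_lit 134) (.e (nat_lit 638998) (nat_lit 8) (.e (nat_lit 172120) (nat_lit 12) (.e (nat_lit 475161) (nat_lit 21) (.e (nat_lit 6308) (nat_lit 337) .nil))))) .nil))))) (.nd (nat_lit 3) (.nd (nat_lit 4) (.nd (nat_lit 5) 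
(.lf (nat_lit 85957) (.g (nat_lit 1732) (.e (nat_lit 1916) (nat_lit 130) (.e (nat_lit 606243) (nat_lit 11) (.e (nat_lit 24603) (nat_lit 2) (.e (nat_lit 90176) (nat_lit 15) (.e (nat_lit 188450) (nat_lit 23) (.e (nat_lit 204815) (nat_lit 17) .nil)))))) (.g (nat_lit 6) .nil .nil))) 
(.lf (nat_lit 85989) (.g (nat_lit 2659) (.e (nat_lit 1960) (nat_lit 134) (.e (nat_lit 638998) (nat_lit 8) (.e (nat_lit 172067) (nat_lit 3) (.e (nat_lit 204870) (nat_lit 29) (.e (nat_lit 360463) (nat_lit 1) .nil))))) .nil))) (.nd (nat_lit 5) 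
(.lf (nat_lit 85973) (.g (nat_lit 1949) (.e (nat_lit 1948) (nat_lit 133) (.e (nat_lit 630804) (nat_lit 10) (.e (nat_lit 188446) (nat_lit 21) (.e (nat_lit 164319) (nat_lit 228) (.e (nat_lit 57424) (nat_lit 14) (.e (nat_lit 352288) (nat_lit 20) .nil)))))) (.g (nat_lit 5) .nil .nil))) 
(.lf (nat_lit 86005) (.g (nat_lit 1834) (.e (nat_lit 1960) (nat_lit 134) (.e (nat_lit 638998) (nat_lit 8) (.e (nat_lit 172120) (nat_lit 12) (.e (nat_lit 475157) (nat_lit 21) .nil)))) .nil)))) (.nd (nat_lit 4) (.nd (nat_lit 5) 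
(.lf (nat_lit 85965) (.g (nat_lit 5342) (.e (nat_lit 1936) (nat_lit 132) (.e (nat_lit 622605) (nat_lit 5) (.e (nat_lit 1237) (nat_lit 91) (.e (nat_lit 90170) (nat_lit 13) (.e (nat_lit 172106) (nat_lit 10) (.e (nat_lit 434231) (nat_lit 23) (.e (nat_lit 532535) (nat_lit 9) (.e (nat_lit 335921) (nat_lit 0) .nil)))))))) (.g (nat_lit 7) .nil .nil))) 
(.lf (nat_lit 85997) (.g (nat_lit 2003) (.e (nat_lit 1960) (nat_lit 134) (.e (nat_lit 638998) (nat_lit 8) (.e (nat_lit 172120) (nat_lit 12) (.e (nat_lit 475155) (nat_lit 21) (.e (nat_lit 6279) (nat_lit 337) .nil))))) .nil))) (.nd (nat_lit 5) 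
(.lf (nat_lit 85981) (.g (nat_lit 2185) (.e (nat_lit 1958) (nat_lit 134) (.e (nat_lit 639018) (nat_lit 15) (.e (nat_lit 57480) (nat_lit 28) (.e (nat_lit 557105) (nat_lit 14) (.e (nat_lit 180252) (nat_lit 10) .nil))))) .nil)) 
(.lf (nat_lit 86013) (.g (nat_lit 1845) (.e (nat_lit 1960) (nat_lit 134) (.e (nat_lit 638998) (nat_lit 8) (.e (nat_lit 172120) (nat_lit 12) (.e (nat_lit 475163) (nat_lit 21) (.e (nat_lit 6322) (nat_lit 337) .nil))))) .nil)))))) (.nd (nat_lit 2) (.nd (nat_lit 3) (.nd (nat_lit 4) (.nd (nat_lit 5) 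
(.lf (nat_lit 85955) (.g (nat_lit 2598) (.e (nat_lit 1915) (nat_lit 130) (.e (nat_lit 606243) (nat_lit 11) (.e (nat_lit 24604) (nat_lit 2) (.e (nat_lit 90176) (nat_lit 15) (.e (nat_lit 188450) (nat_lit 23) (.e (nat_lit 204817) (nat_lit 17) .nil)))))) (.g (nat_lit 0) .nil .nil))) 
(.lf (nat_lit 85987) (.g (nat_lit 2970) (.e (nat_lit 1960) (nat_lit 134) (.e (nat_lit 638998) (nat_lit 8) (.e (nat_lit 172067) (nat_lit 3) (.e (nat_lit 204868) (nat_lit 29) (.e (nat_lit 360470) (nat_lit 6) .nil))))) .nil))) (.nd (nat_lit 5) 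
(.lf (nat_lit 85971) (.g (nat_lit 5189) (.e (nat_lit 1941) (nat_lit 132) (.e (nat_lit 622598) (nat_lit 5) (.e (nat_lit 1234) (nat_lit 91) (.e (nat_lit 90170) (nat_lit 13) (.e (nat_lit 172106) (nat_lit 10) (.e (nat_lit 434231) (nat_lit 23) (.e (nat_lit 532535) (nat_lit 9) (.e (nat_lit 335925) (nat_lit 0) .nil)))))))) (.g (nat_lit 8) .nil .nil))) 
(.lf (nat_lit 86003) (.g (nat_lit 2045) (.e (nat_lit 1960) (nat_lit 134) (.e (nat_lit 638998) (nat_lit 8) (.e (nat_lit 172120) (nat_lit 12) (.e (nat_lit 475155) (nat_lit 21) (.e (nat_lit 6321) (nat_lit 337) .nil))))) .nil)))) (.nd (nat_lit 4) (.nd (nat_lit 5) 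
(.lf (nat_lit 85963) (.g (nat_lit 3887) (.e (nat_lit 1936) (nat_lit 132) (.e (nat_lit 622605) (nat_lit 5) (.e (nat_lit 1234) (nat_lit 91) (.e (nat_lit 90170) (nat_lit 13) (.e (nat_lit 172106) (nat_lit 10) (.e (nat_lit 434231) (nat_lit 23) (.e (nat_lit 532535) (nat_lit 9) (.e (nat_lit 335928) (nat_lit 0) .nil)))))))) (.g (nat_lit 6) .nil .nil))) 
(.lf (nat_lit 85995) (.g (nat_lit 461) (.e (nat_lit 1960) (nat_lit 134) (.e (nat_lit 638998) (nat_lit 8) (.e (nat_lit 172106) (nat_lit 10) .nil))) .nil))) (.nd (nat_lit 5) 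
(.lf (nat_lit 85979) (.g (nat_lit 2068) (.e (nat_lit 1958) (nat_lit 134) (.e (nat_lit 638998) (nat_lit 8) (.e (nat_lit 172067) (nat_lit 3) (.e (nat_lit 204870) (nat_lit 29) .nil)))) .nil)) 
(.lf (nat_lit 86011) (.g (nat_lit 1934) (.e (nat_lit 1960) (nat_lit 134) (.e (nat_lit 638998) (nat_lit 8) (.e (nat_lit 172120) (nat_lit 12) (.e (nat_lit 475162) (nat_lit 21) (.e (nat_lit 6308) (nat_lit 337) .nil))))) .nil))))) (.nd (nat_lit 3) (.nd (nat_lit 4) (.nd (nat_lit 5) 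
(.lf (nat_lit 85959) (.g (nat_lit 1764) (.e (nat_lit 1917) (nat_lit 130) (.e (nat_lit 606243) (nat_lit 11) (.e (nat_lit 24603) (nat_lit 2) (.e (nat_lit 90176) (nat_lit 15) (.e (nat_lit 188450) (nat_lit 23) (.e (nat_lit 204815) (nat_lit 17) .nil)))))) (.g (nat_lit 6) .nil .nil))) 
(.lf (nat_lit 85991) (.g (nat_lit 469) (.e (nat_lit 1960) (nat_lit 134) (.e (nat_lit 638998) (nat_lit 8) (.e (nat_lit 172087) (nat_lit 9) .nil))) .nil))) (.nd (nat_lit 5) 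
(.lf (nat_lit 85975) (.g (nat_lit 2974) (.e (nat_lit 1957) (nat_lit 134) (.e (nat_lit 639020) (nat_lit 16) (.e (nat_lit 65627) (nat_lit 13) (.e (nat_lit 393292) (nat_lit 26) (.e (nat_lit 475214) (nat_lit 42) (.e (nat_lit 720912) (nat_lit 20) .nil)))))) (.g (nat_lit 0) .nil .nil))) 
(.lf (nat_lit 86007) (.g (nat_lit 1696) (.e (nat_lit 1960) (nat_lit 134) (.e (nat_lit 638998) (nat_lit 8) (.e (nat_lit 172120) (nat_lit 12) (.e (nat_lit 475160) (nat_lit 21) .nil)))) .nil)))) (.nd (nat_lit 4) (.nd (nat_lit 5) 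
(.lf (nat_lit 85967) (.g (nat_lit 3337) (.e (nat_lit 1936) (nat_lit 132) (.e (nat_lit 622605) (nat_lit 5) (.e (nat_lit 1238) (nat_lit 91) (.e (nat_lit 90176) (nat_lit 15) (.e (nat_lit 188447) (nat_lit 22) (.e (nat_lit 196666) (nat_lit 13) (.e (nat_lit 65550) (nat_lit 0) .nil))))))) (.g (nat_lit 7) .nil .nil))) 
(.lf (nat_lit 85999) (.g (nat_lit 2045) (.e (nat_lit 1960) (nat_lit 134) (.e (nat_lit 638998) (nat_lit 8) (.e (nat_lit 172120) (nat_lit 12) (.e (nat_lit 475155) (nat_lit 21) (.e (nat_lit 6282) (nat_lit 337) .nil))))) .nil))) (.nd (nat_lit 5) 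
(.lf (nat_lit 85983) (.g (nat_lit 2618) (.e (nat_lit 1959) (nat_lit 134) (.e (nat_lit 638998) (nat_lit 8) (.e (nat_lit 172067) (nat_lit 3) (.e (nat_lit 204870) (nat_lit 29) (.e (nat_lit 368384) (nat_lit 5) .nil))))) .nil)) 
(.lf (nat_lit 86015) (.g (nat_lit 2315) (.e (nat_lit 1960) (nat_lit 134) (.e (nat_lit 638998) (nat_lit 8) (.e (nat_lit 172120) (nat_lit 12) (.e (nat_lit 475193) (nat_lit 38) (.e (nat_lit 688184) (nat_lit 18) .nil))))) .nil))))))))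

noncomputable def tv1165 : DT := (.nd (nat_lit 0) (.nd (nat_lit 1) (.nd (nat_lit 2) (.nd (nat_lit 3) (.nd (nat_lit 4) (.nd (nat_lit 5) 
(.lf (nat_lit 86016) (.g (nat_lit 3490) (.e (nat_lit 1960) (nat_lit 134) (.e (nat_lit 638998) (nat_lit 8) (.e (nat_lit 172120) (nat_lit 12) (.e (nat_lit 475193) (nat_lit 38) (.e (nat_lit 688184) (nat_lit 18) (.e (nat_lit 81946) (nat_lit 20) .nil)))))) (.g (nat_lit 6) .nil .nil))) 
(.lf (nat_lit 86048) (.g (nat_lit 2145) (.e (nat_lit 1962) (nat_lit 134) (.e (nat_lit 638998) (nat_lit 8) (.e (nat_lit 172106) (nat_lit 10) (.e (nat_lit 434209) (nat_lit 18) (.e (nat_lit 5046) (nat_lit 292) .nil))))) .nil))) (.nd (nat_lit 5) 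
(.lf (nat_lit 86032) (.g (nat_lit 2808) (.e (nat_lit 1962) (nat_lit 134) (.e (nat_lit 638998) (nat_lit 8) (.e (nat_lit 172067) (nat_lit 3) (.e (nat_lit 204866) (nat_lit 28) (.e (nat_lit 352282) (nat_lit 20) .nil))))) .nil)) 
(.lf (nat_lit 86064) (.g (nat_lit 2029) (.e (nat_lit 1962) (nat_lit 134) (.e (nat_lit 638998) (nat_lit 8) (.e (nat_lit 172120) (nat_lit 12) (.e (nat_lit 475159) (nat_lit 21) .nil)))) .nil)))) (.nd (nat_lit 4) (.nd (nat_lit 5) 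
(.lf (nat_lit 86024) (.g (nat_lit 618) (.e (nat_lit 1962) (nat_lit 134) (.e (nat_lit 638985) (nat_lit 5) (.e (nat_lit 3015) (nat_lit 187) (.e (nat_lit 450560) (nat_lit 0) .nil)))) .nil)) 
(.lf (nat_lit 86056) (.g (nat_lit 439) (.e (nat_lit 1962) (nat_lit 134) (.e (nat_lit 638998) (nat_lit 8) (.e (nat_lit 172115) (nat_lit 10) .nil))) .nil))) (.nd (nat_lit 5) 
(.lf (nat_lit 86040) (.g (nat_lit 2468) (.e (nat_lit 1962) (nat_lit 134) (.e (nat_lit 638998) (nat_lit 8) (.e (nat_lit 172082) (nat_lit 7) (.e (nat_lit 409646) (nat_lit 18) (.e (nat_lit 303105) (nat_lit 0) .nil))))) .nil)) 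
(.lf (nat_lit 86072) (.g (nat_lit 3011) (.e (nat_lit 1962) (nat_lit 134) (.e (nat_lit 638998) (nat_lit 8) (.e (nat_lit 172120) (nat_lit 12) (.e (nat_lit 475193) (nat_lit 38) (.e (nat_lit 688184) (nat_lit 18) (.e (nat_lit 81942) (nat_lit 20) .nil)))))) (.g (nat_lit 5) .nil .nil)))))) (.nd (nat_lit 3) (.nd (nat_lit 4) (.nd (nat_lit 5) 
(.lf (nat_lit 86020) (.g (nat_lit 1784) (.e (nat_lit 1960) (nat_lit 134) (.e (nat_lit 638998) (nat_lit 8) (.e (nat_lit 172120) (nat_lit 12) (.e (nat_lit 475194) (nat_lit 39) .nil)))) .nil)) 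
(.lf (nat_lit 86052) (.g (nat_lit 1467) (.e (nat_lit 1962) (nat_lit 134) (.e (nat_lit 638998) (nat_lit 8) (.e (nat_lit 172106) (nat_lit 10) (.e (nat_lit 434275) (nat_lit 39) (.e (nat_lit 663574) (nat_lit 9) .nil))))) .nil))) (.nd (nat_lit 5) 
(.lf (nat_lit 86036) (.g (nat_lit 3201) (.e (nat_lit 1962) (nat_lit 134) (.e (nat_lit 638998) (nat_lit 8) (.e (nat_lit 172067) (nat_lit 3) (.e (nat_lit 204869) (nat_lit 29) (.e (nat_lit 360470) (nat_lit 6) .nil))))) .nil)) 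
(.lf (nat_lit 86068) (.g (nat_lit 2171) (.e (nat_lit 1962) (nat_lit 134) (.e (nat_lit 638998) (nat_lit 8) (.e (nat_lit 172120) (nat_lit 12) (.e (nat_lit 475161) (nat_lit 21) (.e (nat_lit 6320) (nat_lit 337) .nil))))) .nil)))) (.nd (nat_lit 4) (.nd (nat_lit 5) 
(.lf (nat_lit 86028) (.g (nat_lit 524) (.e (nat_lit 1962) (nat_lit 134) (.e (nat_lit 638985) (nat_lit 5) (.e (nat_lit 3022) (nat_lit 187) (.e (nat_lit 450565) (nat_lit 0) .nil)))) .nil)) 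
(.lf (nat_lit 86060) (.g (nat_lit 1869) (.e (nat_lit 1962) (nat_lit 134) (.e (nat_lit 638998) (nat_lit 8) (.e (nat_lit 172120) (nat_lit 12) (.e (nat_lit 475155) (nat_lit 21) .nil)))) .nil))) (.nd (nat_lit 5) 
(.lf (nat_lit 86044) (.g (nat_lit 818) (.e (nat_lit 1962) (nat_lit 134) (.e (nat_lit 638998) (nat_lit 8) (.e (nat_lit 172097) (nat_lit 9) (.e (nat_lit 426109) (nat_lit 1) .nil)))) .nil)) 
(.lf (nat_lit 86076) (.g (nat_lit 2805) (.e (nat_lit 1962) (nat_lit 134) (.e (nat_lit 638998) (nat_lit 8) (.e (nat_lit 172120) (nat_lit 12) (.e (nat_lit 475193) (nat_lit 38) (.e (nat_lit 688185) (nat_lit 18) (.e (nat_lit 81947) (nat_lit 20) .nil)))))) (.g (nat_lit 5) .nil .nil))))))) (.nd (nat_lit 2) (.nd (nat_lit 3) (.nd (nat_lit 4) (.nd (nat_lit 5) 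
(.lf (nat_lit 86018) (.g (nat_lit 2469) (.e (nat_lit 1960) (nat_lit 134) (.e (nat_lit 638998) (nat_lit 8) (.e (nat_lit 172120) (nat_lit 12) (.e (nat_lit 475193) (nat_lit 38) (.e (nat_lit 688185) (nat_lit 18) (.e (nat_lit 81947) (nat_lit 20) .nil)))))) (.g (nat_lit 4) .nil .nil))) 
(.lf (nat_lit 86050) (.g (nat_lit 2305) (.e (nat_lit 1962) (nat_lit 134) (.e (nat_lit 638998) (nat_lit 8) (.e (nat_lit 172106) (nat_lit 10) (.e (nat_lit 434209) (nat_lit 18) (.e (nat_lit 5089) (nat_lit 292) .nil))))) .nil))) (.nd (nat_lit 5) 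
(.lf (nat_lit 86034) (.g (nat_lit 2888) (.e (nat_lit 1962) (nat_lit 134) (.e (nat_lit 638998) (nat_lit 8) (.e (nat_lit 172067) (nat_lit 3) (.e (nat_lit 204868) (nat_lit 29) (.e (nat_lit 368384) (nat_lit 5) .nil))))) .nil)) 
(.lf (nat_lit 86066) (.g (nat_lit 1881) (.e (nat_lit 1962) (nat_lit 134) (.e (nat_lit 638998) (nat_lit 8) (.e (nat_lit 172120) (nat_lit 12) (.e (nat_lit 475161) (nat_lit 21) .nil)))) .nil)))) (.nd (nat_lit 4) (.nd (nat_lit 5) 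
(.lf (nat_lit 86026) (.g (nat_lit 1504) (.e (nat_lit 1962) (nat_lit 134) (.e (nat_lit 638985) (nat_lit 5) (.e (nat_lit 3015) (nat_lit 187) (.e (nat_lit 450563) (nat_lit 0) (.e (nat_lit 5117) (nat_lit 292) .nil))))) .nil)) 
(.lf (nat_lit 86058) (.g (nat_lit 612) (.e (nat_lit 1962) (nat_lit 134) (.e (nat_lit 638998) (nat_lit 8) (.e (nat_lit 172116) (nat_lit 10) (.e (nat_lit 434269) (nat_lit 36) .nil)))) .nil))) (.nd (nat_lit 5) 
(.lf (nat_lit 86042) (.g (nat_lit 1677) (.e (nat_lit 1962) (nat_lit 134) (.e (nat_lit 638998) (nat_lit 8) (.e (nat_lit 172094) (nat_lit 9) (.e (nat_lit 426109) (nat_lit 1) (.e (nat_lit 164319) (nat_lit 228) (.e (nat_lit 57424) (nat_lit 14) (.e (nat_lit 352303) (nat_lit 20) .nil))))))) (.g (nat_lit 4) .nil .nil))) 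
(.lf (nat_lit 86074) (.g (nat_lit 2270) (.e (nat_lit 1962) (nat_lit 134) (.e (nat_lit 638998) (nat_lit 8) (.e (nat_lit 172120) (nat_lit 12) (.e (nat_lit 475193) (nat_lit 38) (.e (nat_lit 688185) (nat_lit 18) .nil))))) .nil))))) (.nd (nat_lit 3) (.nd (nat_lit 4) (.nd (nat_lit 5) 
(.lf (nat_lit 86022) (.g (nat_lit 1610) (.e (nat_lit 1961) (nat_lit 134) (.e (nat_lit 638998) (nat_lit 8) (.e (nat_lit 172120) (nat_lit 12) (.e (nat_lit 475193) (nat_lit 38) .nil)))) .nil)) 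
(.lf (nat_lit 86054) (.g (nat_lit 403) (.e (nat_lit 1962) (nat_lit 134) (.e (nat_lit 638998) (nat_lit 8) (.e (nat_lit 172112) (nat_lit 10) .nil))) .nil))) (.nd (nat_lit 5) 
(.lf (nat_lit 86038) (.g (nat_lit 1557) (.e (nat_lit 1962) (nat_lit 134) (.e (nat_lit 638998) (nat_lit 8) (.e (nat_lit 172067) (nat_lit 3) (.e (nat_lit 204877) (nat_lit 31) .nil)))) .nil)) 
(.lf (nat_lit 86070) (.g (nat_lit 1957) (.e (nat_lit 1962) (nat_lit 134) (.e (nat_lit 638998) (nat_lit 8) (.e (nat_lit 172120) (nat_lit 12) (.e (nat_lit 475163) (nat_lit 21) .nil)))) .nil)))) (.nd (nat_lit 4) (.nd (nat_lit 5) 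
(.lf (nat_lit 86030) (.g (nat_lit 1206) (.e (nat_lit 1962) (nat_lit 134) (.e (nat_lit 638985) (nat_lit 5) (.e (nat_lit 3027) (nat_lit 187) (.e (nat_lit 450564) (nat_lit 0) (.e (nat_lit 5069) (nat_lit 292) (.e (nat_lit 7936) (nat_lit 90) (.e (nat_lit 81939) (nat_lit 20) .nil))))))) (.g (nat_lit 4) .nil .nil))) 
(.lf (nat_lit 86062) (.g (nat_lit 2207) (.e (nat_lit 1962) (nat_lit 134) (.e (nat_lit 638998) (nat_lit 8) (.e (nat_lit 172120) (nat_lit 12) (.e (nat_lit 475157) (nat_lit 21) (.e (nat_lit 6329) (nat_lit 337) .nil))))) .nil))) (.nd (nat_lit 5) 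
(.lf (nat_lit 86046) (.g (nat_lit 1470) (.e (nat_lit 1962) (nat_lit 134) (.e (nat_lit 638998) (nat_lit 8) (.e (nat_lit 172097) (nat_lit 9) (.e (nat_lit 426109) (nat_lit 1) (.e (nat_lit 164319) (nat_lit 228) .nil))))) .nil)) 
(.lf (nat_lit 86078) (.g (nat_lit 3139) (.e (nat_lit 1962) (nat_lit 134) (.e (nat_lit 638998) (nat_lit 8) (.e (nat_lit 172120) (nat_lit 12) (.e (nat_lit 475193) (nat_lit 38) (.e (nat_lit 688186) (nat_lit 18) (.e (nat_lit 81938) (nat_lit 20) .nil)))))) (.g (nat_lit 6) .nil .nil)))))))) (.nd (nat_lit 1) (.nd (nat_lit 2) (.nd (nat_lit 3) (.nd (nat_lit 4) (.nd (nat_lit 5) 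
(.lf (nat_lit 86017) (.g (nat_lit 3438) (.e (nat_lit 1960) (nat_lit 134) (.e (nat_lit 638998) (nat_lit 8) (.e (nat_lit 172120) (nat_lit 12) (.e (nat_lit 475193) (nat_lit 38) (.e (nat_lit 688185) (nat_lit 18) (.e (nat_lit 81938) (nat_lit 20) .nil)))))) (.g (nat_lit 0) .nil .nil))) 
(.lf (nat_lit 86049) (.g (nat_lit 2314) (.e (nat_lit 1962) (nat_lit 134) (.e (nat_lit 638998) (nat_lit 8) (.e (nat_lit 172106) (nat_lit 10) (.e (nat_lit 434209) (nat_lit 18) (.e (nat_lit 5079) (nat_lit 292) .nil))))) .nil))) (.nd (nat_lit 5) 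
(.lf (nat_lit 86033) (.g (nat_lit 2600) (.e (nat_lit 1962) (nat_lit 134) (.e (nat_lit 638998) (nat_lit 8) (.e (nat_lit 172067) (nat_lit 3) (.e (nat_lit 204866) (nat_lit 28) (.e (nat_lit 352285) (nat_lit 20) .nil))))) .nil)) 
(.lf (nat_lit 86065) (.g (nat_lit 1913) (.e (nat_lit 1962) (nat_lit 134) (.e (nat_lit 638998) (nat_lit 8) (.e (nat_lit 172120) (nat_lit 12) (.e (nat_lit 475160) (nat_lit 21) .nil)))) .nil)))) (.nd (nat_lit 4) (.nd (nat_lit 5) 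
(.lf (nat_lit 86025) (.g (nat_lit 835) (.e (nat_lit 1962) (nat_lit 134) (.e (nat_lit 638985) (nat_lit 5) (.e (nat_lit 3015) (nat_lit 187) (.e (nat_lit 450560) (nat_lit 0) (.e (nat_lit 5069) (nat_lit 292) .nil))))) .nil)) 
(.lf (nat_lit 86057) (.g (nat_lit 1017) (.e (nat_lit 1962) (nat_lit 134) (.e (nat_lit 638998) (nat_lit 8) (.e (nat_lit 172115) (nat_lit 10) (.e (nat_lit 434269) (nat_lit 36) .nil)))) .nil))) (.nd (nat_lit 5) 
(.lf (nat_lit 86041) (.g (nat_lit 1476) (.e (nat_lit 1962) (nat_lit 134) (.e (nat_lit 638998) (nat_lit 8) (.e (nat_lit 172094) (nat_lit 9) (.e (nat_lit 426109) (nat_lit 1) (.e (nat_lit 164319) (nat_lit 228) .nil))))) .nil)) 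
(.lf (nat_lit 86073) (.g (nat_lit 3536) (.e (nat_lit 1962) (nat_lit 134) (.e (nat_lit 638998) (nat_lit 8) (.e (nat_lit 172120) (nat_lit 12) (.e (nat_lit 475193) (nat_lit 38) (.e (nat_lit 688184) (nat_lit 18) (.e (nat_lit 81946) (nat_lit 20) .nil)))))) (.g (nat_lit 6) .nil .nil)))))) (.nd (nat_lit 3) (.nd (nat_lit 4) (.nd (nat_lit 5) 
(.lf (nat_lit 86021) (.g (nat_lit 1811) (.e (nat_lit 1960) (nat_lit 134) (.e (nat_lit 638998) (nat_lit 8) (.e (nat_lit 172123) (nat_lit 13) (.e (nat_lit 483396) (nat_lit 24) (.e (nat_lit 344163) (nat_lit 37) .nil))))) .nil)) 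
(.lf (nat_lit 86053) (.g (nat_lit 453) (.e (nat_lit 1962) (nat_lit 134) (.e (nat_lit 638998) (nat_lit 8) (.e (nat_lit 172107) (nat_lit 10) .nil))) .nil))) (.nd (nat_lit 5) 
(.lf (nat_lit 86037) (.g (nat_lit 2000) (.e (nat_lit 1962) (nat_lit 134) (.e (nat_lit 638998) (nat_lit 8) (.e (nat_lit 172067) (nat_lit 3) (.e (nat_lit 204870) (nat_lit 29) .nil)))) .nil)) 
(.lf (nat_lit 86069) (.g (nat_lit 1938) (.e (nat_lit 1962) (nat_lit 134) (.e (nat_lit 638998) (nat_lit 8) (.e (nat_lit 172120) (nat_lit 12) (.e (nat_lit 475162) (nat_lit 21) .nil)))) .nil)))) (.nd (nat_lit 4) (.nd (nat_lit 5) 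
(.lf (nat_lit 86029) (.g (nat_lit 1221) (.e (nat_lit 1962) (nat_lit 134) (.e (nat_lit 638985) (nat_lit 5) (.e (nat_lit 3022) (nat_lit 187) (.e (nat_lit 450565) (nat_lit 0) (.e (nat_lit 5069) (nat_lit 292) (.e (nat_lit 7936) (nat_lit 90) (.e (nat_lit 81939) (nat_lit 20) .nil))))))) (.g (nat_lit 4) .nil .nil))) 
(.lf (nat_lit 86061) (.g (nat_lit 2009) (.e (nat_lit 1962) (nat_lit 134) (.e (nat_lit 638998) (nat_lit 8) (.e (nat_lit 172120) (nat_lit 12) (.e (nat_lit 475157) (nat_lit 21) .nil)))) .nil))) (.nd (nat_lit 5) 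
(.lf (nat_lit 86045) (.g (nat_lit 1594) (.e (nat_lit 1962) (nat_lit 134) (.e (nat_lit 638998) (nat_lit 8) (.e (nat_lit 172097) (nat_lit 9) (.e (nat_lit 426109) (nat_lit 1) (.e (nat_lit 164297) (nat_lit 226) .nil))))) .nil)) 
(.lf (nat_lit 86077) (.g (nat_lit 2164) (.e (nat_lit 1962) (nat_lit 134) (.e (nat_lit 638998) (nat_lit 8) (.e (nat_lit 172120) (nat_lit 12) (.e (nat_lit 475193) (nat_lit 38) (.e (nat_lit 688186) (nat_lit 18) .nil))))) .nil)))))) (.nd (nat_lit 2) (.nd (nat_lit 3) (.nd (nat_lit 4) (.nd (nat_lit 5) 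
(.lf (nat_lit 86019) (.g (nat_lit 3422) (.e (nat_lit 1960) (nat_lit 134) (.e (nat_lit 638998) (nat_lit 8) (.e (nat_lit 172120) (nat_lit 12) (.e (nat_lit 475193) (nat_lit 38) (.e (nat_lit 688186) (nat_lit 18) (.e (nat_lit 81938) (nat_lit 20) .nil)))))) (.g (nat_lit 6) .nil .nil))) 
(.lf (nat_lit 86051) (.g (nat_lit 1655) (.e (nat_lit 1962) (nat_lit 134) (.e (nat_lit 638998) (nat_lit 8) (.e (nat_lit 172106) (nat_lit 10) (.e (nat_lit 434268) (nat_lit 36) (.e (nat_lit 639023) (nat_lit 18) .nil))))) .nil))) (.nd (nat_lit 5) 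
(.lf (nat_lit 86035) (.g (nat_lit 2936) (.e (nat_lit 1962) (nat_lit 134) (.e (nat_lit 638998) (nat_lit 8) (.e (nat_lit 172067) (nat_lit 3) (.e (nat_lit 204869) (nat_lit 29) (.e (nat_lit 360462) (nat_lit 1) .nil))))) .nil)) 
(.lf (nat_lit 86067) (.g (nat_lit 2171) (.e (nat_lit 1962) (nat_lit 134) (.e (nat_lit 638998) (nat_lit 8) (.e (nat_lit 172120) (nat_lit 12) (.e (nat_lit 475161) (nat_lit 21) (.e (nat_lit 6308) (nat_lit 337) .nil))))) .nil)))) (.nd (nat_lit 4) (.nd (nat_lit 5) 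
(.lf (nat_lit 86027) (.g (nat_lit 1487) (.e (nat_lit 1962) (nat_lit 134) (.e (nat_lit 638985) (nat_lit 5) (.e (nat_lit 3015) (nat_lit 187) (.e (nat_lit 450563) (nat_lit 0) (.e (nat_lit 5125) (nat_lit 292) .nil))))) .nil)) 
(.lf (nat_lit 86059) (.g (nat_lit 1059) (.e (nat_lit 1962) (nat_lit 134) (.e (nat_lit 638998) (nat_lit 8) (.e (nat_lit 172119) (nat_lit 12) (.e (nat_lit 475193) (nat_lit 38) .nil)))) .nil))) (.nd (nat_lit 5) 
(.lf (nat_lit 86043) (.g (nat_lit 441) (.e (nat_lit 1962) (nat_lit 134) (.e (nat_lit 638998) (nat_lit 8) (.e (nat_lit 172095) (nat_lit 9) .nil))) .nil)) 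
(.lf (nat_lit 86075) (.g (nat_lit 2922) (.e (nat_lit 1962) (nat_lit 134) (.e (nat_lit 638998) (nat_lit 8) (.e (nat_lit 172120) (nat_lit 12) (.e (nat_lit 475193) (nat_lit 38) (.e (nat_lit 688185) (nat_lit 18) (.e (nat_lit 81939) (nat_lit 20) .nil)))))) (.g (nat_lit 6) .nil .nil)))))) (.nd (nat_lit 3) (.nd (nat_lit 4) (.nd (nat_lit 5) 
(.lf (nat_lit 86023) (.g (nat_lit 1067) (.e (nat_lit 1961) (nat_lit 134) (.e (nat_lit 639020) (nat_lit 16) (.e (nat_lit 65627) (nat_lit 13) (.e (nat_lit 393296) (nat_lit 26) .nil)))) .nil)) 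
(.lf (nat_lit 86055) (.g (nat_lit 568) (.e (nat_lit 1962) (nat_lit 134) (.e (nat_lit 638998) (nat_lit 8) (.e (nat_lit 172112) (nat_lit 10) (.e (nat_lit 434269) (nat_lit 36) .nil)))) .nil))) (.nd (nat_lit 5) 
(.lf (nat_lit 86039) (.g (nat_lit 1414) (.e (nat_lit 1962) (nat_lit 134) (.e (nat_lit 638998) (nat_lit 8) (.e (nat_lit 172079) (nat_lit 7) (.e (nat_lit 409645) (nat_lit 18) (.e (nat_lit 303112) (nat_lit 0) .nil))))) .nil)) 
(.lf (nat_lit 86071) (.g (nat_lit 2193) (.e (nat_lit 1962) (nat_lit 134) (.e (nat_lit 638998) (nat_lit 8) (.e (nat_lit 172120) (nat_lit 12) (.e (nat_lit 475193) (nat_lit 38) (.e (nat_lit 688184) (nat_lit 18) .nil))))) .nil)))) (.nd (nat_lit 4) (.nd (nat_lit 5) 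
(.lf (nat_lit 86031) (.g (nat_lit 4035) (.e (nat_lit 1962) (nat_lit 134) (.e (nat_lit 638998) (nat_lit 8) (.e (nat_lit 172067) (nat_lit 3) (.e (nat_lit 204855) (nat_lit 26) (.e (nat_lit 336173) (nat_lit 10) (.e (nat_lit 344123) (nat_lit 24) (.e (nat_lit 540675) (nat_lit 0) .nil))))))) (.g (nat_lit 6) .nil .nil))) 
(.lf (nat_lit 86063) (.g (nat_lit 1811) (.e (nat_lit 1962) (nat_lit 134) (.e (nat_lit 638998) (nat_lit 8) (.e (nat_lit 172120) (nat_lit 12) (.e (nat_lit 475158) (nat_lit 21) .nil)))) .nil))) (.nd (nat_lit 5) 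
(.lf (nat_lit 86047) (.g (nat_lit 916) (.e (nat_lit 1962) (nat_lit 134) (.e (nat_lit 638998) (nat_lit 8) (.e (nat_lit 172106) (nat_lit 10) (.e (nat_lit 434209) (nat_lit 18) .nil)))) .nil)) 
(.lf (nat_lit 86079) (.g (nat_lit 1941) (.e (nat_lit 1962) (nat_lit 134) (.e (nat_lit 638998) (nat_lit 8) (.e (nat_lit 172120) (nat_lit 12) (.e (nat_lit 475194) (nat_lit 39) (.e (nat_lit 696363) (nat_lit 18) .nil))))) .nil))))))))

noncomputable def tv1166 : DT := (.nd (nat_lit 0) (.nd (nat_lit 1) (.nd (nat_lit 2) (.nd (nat_lit 3) (.nd (nat_lit 4) (.nd (nat_lit 5) 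
(.lf (nat_lit 86080) (.g (nat_lit 1411) (.e (nat_lit 1962) (nat_lit 134) (.e (nat_lit 638998) (nat_lit 8) (.e (nat_lit 172123) (nat_lit 13) (.e (nat_lit 483394) (nat_lit 24) (.e (nat_lit 344160) (nat_lit 37) .nil))))) .nil)) 
(.lf (nat_lit 86112) (.g (nat_lit 1029) (.e (nat_lit 1962) (nat_lit 134) (.e (nat_lit 638999) (nat_lit 8) (.e (nat_lit 172112) (nat_lit 10) (.e (nat_lit 434266) (nat_lit 35) (.e (nat_lit 630823) (nat_lit 18) (.e (nat_lit 81946) (nat_lit 20) .nil)))))) (.g (nat_lit 0) .nil .nil)))) (.nd (nat_lit 5) 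
(.lf (nat_lit 86096) (.g (nat_lit 1184) (.e (nat_lit 1962) (nat_lit 134) (.e (nat_lit 638999) (nat_lit 8) (.e (nat_lit 172106) (nat_lit 10) (.e (nat_lit 434269) (nat_lit 36) (.e (nat_lit 639023) (nat_lit 18) (.e (nat_lit 81939) (nat_lit 20) .nil)))))) (.g (nat_lit 0) .nil .nil))) 
(.lf (nat_lit 86128) (.g (nat_lit 1558) (.e (nat_lit 1962) (nat_lit 134) (.e (nat_lit 638999) (nat_lit 8) (.e (nat_lit 172113) (nat_lit 10) (.e (nat_lit 434269) (nat_lit 36) (.e (nat_lit 639023) (nat_lit 18) (.e (nat_lit 81938) (nat_lit 20) .nil)))))) (.g (nat_lit 6) .nil .nil))))) (.nd (nat_lit 4) (.nd (nat_lit 5) 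
(.lf (nat_lit 86088) (.g (nat_lit 1837) (.e (nat_lit 1962) (nat_lit 134) (.e (nat_lit 638999) (nat_lit 8) (.e (nat_lit 172106) (nat_lit 10) (.e (nat_lit 434209) (nat_lit 18) (.e (nat_lit 5089) (nat_lit 292) (.e (nat_lit 7936) (nat_lit 90) (.e (nat_lit 81946) (nat_lit 20) .nil))))))) (.g (nat_lit 4) .nil .nil))) 
(.lf (nat_lit 86120) (.g (nat_lit 877) (.e (nat_lit 1962) (nat_lit 134) (.e (nat_lit 638999) (nat_lit 8) (.e (nat_lit 172113) (nat_lit 10) (.e (nat_lit 434199) (nat_lit 18) .nil)))) .nil))) (.nd (nat_lit 5) 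
(.lf (nat_lit 86104) (.g (nat_lit 1242) (.e (nat_lit 1962) (nat_lit 134) (.e (nat_lit 638999) (nat_lit 8) (.e (nat_lit 172107) (nat_lit 10) (.e (nat_lit 434268) (nat_lit 36) (.e (nat_lit 639023) (nat_lit 18) (.e (nat_lit 81943) (nat_lit 20) .nil)))))) (.g (nat_lit 5) .nil .nil))) 
(.lf (nat_lit 86136) (.g (nat_lit 1011) (.e (nat_lit 1962) (nat_lit 134) (.e (nat_lit 638999) (nat_lit 8) (.e (nat_lit 172115) (nat_lit 10) (.e (nat_lit 434266) (nat_lit 35) (.e (nat_lit 630823) (nat_lit 18) (.e (nat_lit 81939) (nat_lit 20) .nil)))))) (.g (nat_lit 0) .nil .nil)))))) (.nd (nat_lit 3) (.nd (nat_lit 4) (.nd (nat_lit 5) 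
(.lf (nat_lit 86084) (.g (nat_lit 1424) (.e (nat_lit 1962) (nat_lit 134) (.e (nat_lit 638999) (nat_lit 8) (.e (nat_lit 172097) (nat_lit 9) (.e (nat_lit 426109) (nat_lit 1) (.e (nat_lit 164301) (nat_lit 226) (.e (nat_lit 7936) (nat_lit 90) (.e (nat_lit 81946) (nat_lit 20) .nil))))))) (.g (nat_lit 4) .nil .nil))) 
(.lf (nat_lit 86116) (.g (nat_lit 838) (.e (nat_lit 1962) (nat_lit 134) (.e (nat_lit 638999) (nat_lit 8) (.e (nat_lit 172112) (nat_lit 10) (.e (nat_lit 434269) (nat_lit 36) (.e (nat_lit 639023) (nat_lit 18) (.e (nat_lit 81939) (nat_lit 20) .nil)))))) (.g (nat_lit 0) .nil .nil)))) (.nd (nat_lit 5) 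
(.lf (nat_lit 86100) (.g (nat_lit 1561) (.e (nat_lit 1962) (nat_lit 134) (.e (nat_lit 638999) (nat_lit 8) (.e (nat_lit 172106) (nat_lit 10) (.e (nat_lit 434269) (nat_lit 36) (.e (nat_lit 639023) (nat_lit 18) (.e (nat_lit 81947) (nat_lit 20) .nil)))))) (.g (nat_lit 0) .nil .nil))) 
(.lf (nat_lit 86132) (.g (nat_lit 1148) (.e (nat_lit 1962) (nat_lit 134) (.e (nat_lit 638999) (nat_lit 8) (.e (nat_lit 172115) (nat_lit 10) (.e (nat_lit 434265) (nat_lit 35) (.e (nat_lit 630823) (nat_lit 18) (.e (nat_lit 81939) (nat_lit 20) .nil)))))) (.g (nat_lit 6) .nil .nil))))) (.nd (nat_lit 4) (.nd (nat_lit 5) 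
(.lf (nat_lit 86092) (.g (nat_lit 1542) (.e (nat_lit 1962) (nat_lit 134) (.e (nat_lit 638999) (nat_lit 8) (.e (nat_lit 172106) (nat_lit 10) (.e (nat_lit 434268) (nat_lit 36) (.e (nat_lit 639023) (nat_lit 18) (.e (nat_lit 81939) (nat_lit 20) .nil)))))) (.g (nat_lit 5) .nil .nil))) 
(.lf (nat_lit 86124) (.g (nat_lit 1195) (.e (nat_lit 1962) (nat_lit 134) (.e (nat_lit 638999) (nat_lit 8) (.e (nat_lit 172113) (nat_lit 10) (.e (nat_lit 434267) (nat_lit 36) (.e (nat_lit 639023) (nat_lit 18) (.e (nat_lit 81943) (nat_lit 20) .nil)))))) (.g (nat_lit 5) .nil .nil)))) (.nd (nat_lit 5) 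
(.lf (nat_lit 86108) (.g (nat_lit 766) (.e (nat_lit 1962) (nat_lit 134) (.e (nat_lit 638999) (nat_lit 8) (.e (nat_lit 172112) (nat_lit 10) (.e (nat_lit 434265) (nat_lit 35) (.e (nat_lit 630823) (nat_lit 18) (.e (nat_lit 81939) (nat_lit 20) .nil)))))) (.g (nat_lit 0) .nil .nil))) 
(.lf (nat_lit 86140) (.g (nat_lit 1182) (.e (nat_lit 1962) (nat_lit 134) (.e (nat_lit 638999) (nat_lit 8) (.e (nat_lit 172115) (nat_lit 10) (.e (nat_lit 434269) (nat_lit 36) (.e (nat_lit 639023) (nat_lit 18) (.e (nat_lit 81942) (nat_lit 20) .nil)))))) (.g (nat_lit 0) .nil .nil))))))) (.nd (nat_lit 2) (.nd (nat_lit 3) (.nd (nat_lit 4) (.nd (nat_lit 5) 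
(.lf (nat_lit 86082) (.g (nat_lit 1457) (.e (nat_lit 1962) (nat_lit 134) (.e (nat_lit 638999) (nat_lit 8) (.e (nat_lit 172094) (nat_lit 9) (.e (nat_lit 426109) (nat_lit 1) (.e (nat_lit 164309) (nat_lit 226) .nil))))) .nil)) 
(.lf (nat_lit 86114) (.g (nat_lit 1140) (.e (nat_lit 1962) (nat_lit 134) (.e (nat_lit 638999) (nat_lit 8) (.e (nat_lit 172112) (nat_lit 10) (.e (nat_lit 434268) (nat_lit 36) (.e (nat_lit 639023) (nat_lit 18) (.e (nat_lit 81943) (nat_lit 20) .nil)))))) (.g (nat_lit 5) .nil .nil)))) (.nd (nat_lit 5) 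
(.lf (nat_lit 86098) (.g (nat_lit 1263) (.e (nat_lit 1962) (nat_lit 134) (.e (nat_lit 638999) (nat_lit 8) (.e (nat_lit 172106) (nat_lit 10) (.e (nat_lit 434269) (nat_lit 36) (.e (nat_lit 639023) (nat_lit 18) (.e (nat_lit 81943) (nat_lit 20) .nil)))))) (.g (nat_lit 0) .nil .nil))) 
(.lf (nat_lit 86130) (.g (nat_lit 1510) (.e (nat_lit 1962) (nat_lit 134) (.e (nat_lit 638999) (nat_lit 8) (.e (nat_lit 172113) (nat_lit 10) (.e (nat_lit 434269) (nat_lit 36) (.e (nat_lit 639023) (nat_lit 18) (.e (nat_lit 81947) (nat_lit 20) .nil)))))) (.g (nat_lit 6) .nil .nil))))) (.nd (nat_lit 4) (.nd (nat_lit 5) 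
(.lf (nat_lit 86090) (.g (nat_lit 1287) (.e (nat_lit 1962) (nat_lit 134) (.e (nat_lit 638999) (nat_lit 8) (.e (nat_lit 172106) (nat_lit 10) (.e (nat_lit 434266) (nat_lit 35) (.e (nat_lit 630823) (nat_lit 18) (.e (nat_lit 81946) (nat_lit 20) .nil)))))) (.g (nat_lit 0) .nil .nil))) 
(.lf (nat_lit 86122) (.g (nat_lit 1079) (.e (nat_lit 1962) (nat_lit 134) (.e (nat_lit 638999) (nat_lit 8) (.e (nat_lit 172113) (nat_lit 10) (.e (nat_lit 434205) (nat_lit 18) .nil)))) .nil))) (.nd (nat_lit 5) 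
(.lf (nat_lit 86106) (.g (nat_lit 923) (.e (nat_lit 1962) (nat_lit 134) (.e (nat_lit 638999) (nat_lit 8) (.e (nat_lit 172107) (nat_lit 10) (.e (nat_lit 434269) (nat_lit 36) (.e (nat_lit 639023) (nat_lit 18) (.e (nat_lit 81939) (nat_lit 20) .nil)))))) (.g (nat_lit 0) .nil .nil))) 
(.lf (nat_lit 86138) (.g (nat_lit 1446) (.e (nat_lit 1962) (nat_lit 134) (.e (nat_lit 638999) (nat_lit 8) (.e (nat_lit 172115) (nat_lit 10) (.e (nat_lit 434268) (nat_lit 36) (.e (nat_lit 639023) (nat_lit 18) .nil))))) .nil))))) (.nd (nat_lit 3) (.nd (nat_lit 4) (.nd (nat_lit 5) 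
(.lf (nat_lit 86086) (.g (nat_lit 1858) (.e (nat_lit 1962) (nat_lit 134) (.e (nat_lit 638999) (nat_lit 8) (.e (nat_lit 172106) (nat_lit 10) (.e (nat_lit 434209) (nat_lit 18) (.e (nat_lit 5050) (nat_lit 292) (.e (nat_lit 7936) (nat_lit 90) (.e (nat_lit 81946) (nat_lit 20) .nil))))))) (.g (nat_lit 4) .nil .nil))) 
(.lf (nat_lit 86118) (.g (nat_lit 1146) (.e (nat_lit 1962) (nat_lit 134) (.e (nat_lit 638999) (nat_lit 8) (.e (nat_lit 172112) (nat_lit 10) (.e (nat_lit 434269) (nat_lit 36) (.e (nat_lit 639023) (nat_lit 18) (.e (nat_lit 81946) (nat_lit 20) .nil)))))) (.g (nat_lit 0) .nil .nil)))) (.nd (nat_lit 5) 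
(.lf (nat_lit 86102) (.g (nat_lit 761) (.e (nat_lit 1962) (nat_lit 134) (.e (nat_lit 638999) (nat_lit 8) (.e (nat_lit 172107) (nat_lit 10) (.e (nat_lit 434266) (nat_lit 35) (.e (nat_lit 630823) (nat_lit 18) (.e (nat_lit 81939) (nat_lit 20) .nil)))))) (.g (nat_lit 0) .nil .nil))) 
(.lf (nat_lit 86134) (.g (nat_lit 1478) (.e (nat_lit 1962) (nat_lit 134) (.e (nat_lit 638999) (nat_lit 8) (.e (nat_lit 172115) (nat_lit 10) (.e (nat_lit 434265) (nat_lit 35) (.e (nat_lit 630823) (nat_lit 18) (.e (nat_lit 81946) (nat_lit 20) .nil)))))) (.g (nat_lit 6) .nil .nil))))) (.nd (nat_lit 4) (.nd (nat_lit 5) 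
(.lf (nat_lit 86094) (.g (nat_lit 1895) (.e (nat_lit 1962) (nat_lit 134) (.e (nat_lit 638999) (nat_lit 8) (.e (nat_lit 172106) (nat_lit 10) (.e (nat_lit 434268) (nat_lit 36) (.e (nat_lit 639023) (nat_lit 18) (.e (nat_lit 81946) (nat_lit 20) .nil)))))) (.g (nat_lit 6) .nil .nil))) 
(.lf (nat_lit 86126) (.g (nat_lit 1925) (.e (nat_lit 1962) (nat_lit 134) (.e (nat_lit 638999) (nat_lit 8) (.e (nat_lit 172113) (nat_lit 10) (.e (nat_lit 434268) (nat_lit 36) (.e (nat_lit 639023) (nat_lit 18) (.e (nat_lit 81946) (nat_lit 20) .nil)))))) (.g (nat_lit 5) .nil .nil)))) (.nd (nat_lit 5) 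
(.lf (nat_lit 86110) (.g (nat_lit 1142) (.e (nat_lit 1962) (nat_lit 134) (.e (nat_lit 638999) (nat_lit 8) (.e (nat_lit 172112) (nat_lit 10) (.e (nat_lit 434265) (nat_lit 35) (.e (nat_lit 630823) (nat_lit 18) (.e (nat_lit 81947) (nat_lit 20) .nil)))))) (.g (nat_lit 0) .nil .nil))) 
(.lf (nat_lit 86142) (.g (nat_lit 1872) (.e (nat_lit 1962) (nat_lit 134) (.e (nat_lit 638999) (nat_lit 8) (.e (nat_lit 172115) (nat_lit 10) (.e (nat_lit 434275) (nat_lit 39) (.e (nat_lit 663574) (nat_lit 9) (.e (nat_lit 7936) (nat_lit 23) (.e (nat_lit 352291) (nat_lit 20) .nil))))))) (.g (nat_lit 5) .nil .nil)))))))) 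
(.nd (nat_lit 1) (.nd (nat_lit 2) (.nd (nat_lit 3) (.nd (nat_lit 4) (.nd (nat_lit 5) 
(.lf (nat_lit 86081) (.g (nat_lit 996) (.e (nat_lit 1962) (nat_lit 134) (.e (nat_lit 638998) (nat_lit 8) (.e (nat_lit 172123) (nat_lit 13) (.e (nat_lit 483395) (nat_lit 24) .nil)))) .nil)) 
(.lf (nat_lit 86113) (.g (nat_lit 1580) (.e (nat_lit 1962) (nat_lit 134) (.e (nat_lit 638999) (nat_lit 8) (.e (nat_lit 172112) (nat_lit 10) (.e (nat_lit 434268) (nat_lit 36) (.e (nat_lit 639023) (nat_lit 18) (.e (nat_lit 81938) (nat_lit 20) .nil)))))) (.g (nat_lit 6) .nil .nil)))) (.nd (nat_lit 5) 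
(.lf (nat_lit 86097) (.g (nat_lit 1178) (.e (nat_lit 1962) (nat_lit 134) (.e (nat_lit 638999) (nat_lit 8) (.e (nat_lit 172106) (nat_lit 10) (.e (nat_lit 434269) (nat_lit 36) (.e (nat_lit 639023) (nat_lit 18) (.e (nat_lit 81942) (nat_lit 20) .nil)))))) (.g (nat_lit 0) .nil .nil))) 
(.lf (nat_lit 86129) (.g (nat_lit 1132) (.e (nat_lit 1962) (nat_lit 134) (.e (nat_lit 638999) (nat_lit 8) (.e (nat_lit 172113) (nat_lit 10) (.e (nat_lit 434269) (nat_lit 36) (.e (nat_lit 639023) (nat_lit 18) (.e (nat_lit 81939) (nat_lit 20) .nil)))))) (.g (nat_lit 6) .nil .nil))))) (.nd (nat_lit 4) (.nd (nat_lit 5) 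
(.lf (nat_lit 86089) (.g (nat_lit 949) (.e (nat_lit 1962) (nat_lit 134) (.e (nat_lit 638999) (nat_lit 8) (.e (nat_lit 172106) (nat_lit 10) (.e (nat_lit 434266) (nat_lit 35) (.e (nat_lit 630823) (nat_lit 18) (.e (nat_lit 81939) (nat_lit 20) .nil)))))) (.g (nat_lit 0) .nil .nil))) 
(.lf (nat_lit 86121) (.g (nat_lit 879) (.e (nat_lit 1962) (nat_lit 134) (.e (nat_lit 638999) (nat_lit 8) (.e (nat_lit 172113) (nat_lit 10) (.e (nat_lit 434203) (nat_lit 18) .nil)))) .nil))) (.nd (nat_lit 5) 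
(.lf (nat_lit 86105) (.g (nat_lit 1348) (.e (nat_lit 1962) (nat_lit 134) (.e (nat_lit 638999) (nat_lit 8) (.e (nat_lit 172107) (nat_lit 10) (.e (nat_lit 434269) (nat_lit 36) (.e (nat_lit 639023) (nat_lit 18) (.e (nat_lit 81938) (nat_lit 20) .nil)))))) (.g (nat_lit 0) .nil .nil))) 
(.lf (nat_lit 86137) (.g (nat_lit 1343) (.e (nat_lit 1962) (nat_lit 134) (.e (nat_lit 638999) (nat_lit 8) (.e (nat_lit 172115) (nat_lit 10) (.e (nat_lit 434266) (nat_lit 35) (.e (nat_lit 630823) (nat_lit 18) (.e (nat_lit 81946) (nat_lit 20) .nil)))))) (.g (nat_lit 0) .nil .nil)))))) (.nd (nat_lit 3) (.nd (nat_lit 4) (.nd (nat_lit 5) 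
(.lf (nat_lit 86085) (.g (nat_lit 1261) (.e (nat_lit 1962) (nat_lit 134) (.e (nat_lit 638999) (nat_lit 8) (.e (nat_lit 172097) (nat_lit 9) (.e (nat_lit 426109) (nat_lit 1) (.e (nat_lit 164309) (nat_lit 226) .nil))))) .nil)) 
(.lf (nat_lit 86117) (.g (nat_lit 826) (.e (nat_lit 1962) (nat_lit 134) (.e (nat_lit 638999) (nat_lit 8) (.e (nat_lit 172112) (nat_lit 10) (.e (nat_lit 434269) (nat_lit 36) (.e (nat_lit 639023) (nat_lit 18) (.e (nat_lit 81942) (nat_lit 20) .nil)))))) (.g (nat_lit 0) .nil .nil)))) (.nd (nat_lit 5) 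
(.lf (nat_lit 86101) (.g (nat_lit 2105) (.e (nat_lit 1962) (nat_lit 134) (.e (nat_lit 638999) (nat_lit 8) (.e (nat_lit 172106) (nat_lit 10) (.e (nat_lit 434275) (nat_lit 39) (.e (nat_lit 663574) (nat_lit 9) (.e (nat_lit 7936) (nat_lit 23) (.e (nat_lit 352291) (nat_lit 20) .nil))))))) (.g (nat_lit 5) .nil .nil))) 
(.lf (nat_lit 86133) (.g (nat_lit 1224) (.e (nat_lit 1962) (nat_lit 134) (.e (nat_lit 638999) (nat_lit 8) (.e (nat_lit 172115) (nat_lit 10) (.e (nat_lit 434265) (nat_lit 35) (.e (nat_lit 630823) (nat_lit 18) (.e (nat_lit 81943) (nat_lit 20) .nil)))))) (.g (nat_lit 6) .nil .nil))))) (.nd (nat_lit 4) (.nd (nat_lit 5) 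
(.lf (nat_lit 86093) (.g (nat_lit 1534) (.e (nat_lit 1962) (nat_lit 134) (.e (nat_lit 638999) (nat_lit 8) (.e (nat_lit 172106) (nat_lit 10) (.e (nat_lit 434268) (nat_lit 36) (.e (nat_lit 639023) (nat_lit 18) (.e (nat_lit 81942) (nat_lit 20) .nil)))))) (.g (nat_lit 6) .nil .nil))) 
(.lf (nat_lit 86125) (.g (nat_lit 1664) (.e (nat_lit 1962) (nat_lit 134) (.e (nat_lit 638999) (nat_lit 8) (.e (nat_lit 172113) (nat_lit 10) (.e (nat_lit 434268) (nat_lit 36) (.e (nat_lit 639023) (nat_lit 18) .nil))))) .nil))) (.nd (nat_lit 5) 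
(.lf (nat_lit 86109) (.g (nat_lit 1096) (.e (nat_lit 1962) (nat_lit 134) (.e (nat_lit 638999) (nat_lit 8) (.e (nat_lit 172112) (nat_lit 10) (.e (nat_lit 434265) (nat_lit 35) (.e (nat_lit 630823) (nat_lit 18) (.e (nat_lit 81946) (nat_lit 20) .nil)))))) (.g (nat_lit 0) .nil .nil))) 
(.lf (nat_lit 86141) (.g (nat_lit 1505) (.e (nat_lit 1962) (nat_lit 134) (.e (nat_lit 638999) (nat_lit 8) (.e (nat_lit 172115) (nat_lit 10) (.e (nat_lit 434269) (nat_lit 36) (.e (nat_lit 639023) (nat_lit 18) (.e (nat_lit 81946) (nat_lit 20) .nil)))))) (.g (nat_lit 0) .nil .nil))))))) (.nd (nat_lit 2) (.nd (nat_lit 3) (.nd (nat_lit 4) (.nd (nat_lit 5) 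
(.lf (nat_lit 86083) (.g (nat_lit 2550) (.e (nat_lit 1962) (nat_lit 134) (.e (nat_lit 638999) (nat_lit 8) (.e (nat_lit 172094) (nat_lit 9) (.e (nat_lit 426109) (nat_lit 1) (.e (nat_lit 164319) (nat_lit 228) (.e (nat_lit 57424) (nat_lit 14) (.e (nat_lit 352303) (nat_lit 20) .nil))))))) (.g (nat_lit 7) .nil .nil))) 
(.lf (nat_lit 86115) (.g (nat_lit 1261) (.e (nat_lit 1962) (nat_lit 134) (.e (nat_lit 638999) (nat_lit 8) (.e (nat_lit 172112) (nat_lit 10) (.e (nat_lit 434269) (nat_lit 36) (.e (nat_lit 639023) (nat_lit 18) (.e (nat_lit 81938) (nat_lit 20) .nil)))))) (.g (nat_lit 0) .nil .nil)))) (.nd (nat_lit 5) 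
(.lf (nat_lit 86099) (.g (nat_lit 1498) (.e (nat_lit 1962) (nat_lit 134) (.e (nat_lit 638999) (nat_lit 8) (.e (nat_lit 172106) (nat_lit 10) (.e (nat_lit 434269) (nat_lit 36) (.e (nat_lit 639023) (nat_lit 18) (.e (nat_lit 81946) (nat_lit 20) .nil)))))) (.g (nat_lit 0) .nil .nil))) 
(.lf (nat_lit 86131) (.g (nat_lit 2132) (.e (nat_lit 1962) (nat_lit 134) (.e (nat_lit 638999) (nat_lit 8) (.e (nat_lit 172113) (nat_lit 10) (.e (nat_lit 434276) (nat_lit 39) (.e (nat_lit 663574) (nat_lit 9) (.e (nat_lit 7936) (nat_lit 23) (.e (nat_lit 352296) (nat_lit 20) .nil))))))) (.g (nat_lit 5) .nil .nil))))) (.nd (nat_lit 4) (.nd (nat_lit 5) 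
(.lf (nat_lit 86091) (.g (nat_lit 2018) (.e (nat_lit 1962) (nat_lit 134) (.e (nat_lit 638999) (nat_lit 8) (.e (nat_lit 172106) (nat_lit 10) (.e (nat_lit 434268) (nat_lit 36) (.e (nat_lit 639023) (nat_lit 18) (.e (nat_lit 81938) (nat_lit 20) .nil)))))) (.g (nat_lit 0) .nil .nil))) 
(.lf (nat_lit 86123) (.g (nat_lit 1074) (.e (nat_lit 1962) (nat_lit 134) (.e (nat_lit 638999) (nat_lit 8) (.e (nat_lit 172113) (nat_lit 10) (.e (nat_lit 434266) (nat_lit 35) (.e (nat_lit 630823) (nat_lit 18) .nil))))) .nil))) (.nd (nat_lit 5) 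
(.lf (nat_lit 86107) (.g (nat_lit 1231) (.e (nat_lit 1962) (nat_lit 134) (.e (nat_lit 638999) (nat_lit 8) (.e (nat_lit 172107) (nat_lit 10) (.e (nat_lit 434269) (nat_lit 36) (.e (nat_lit 639023) (nat_lit 18) (.e (nat_lit 81946) (nat_lit 20) .nil)))))) (.g (nat_lit 0) .nil .nil))) 
(.lf (nat_lit 86139) (.g (nat_lit 1191) (.e (nat_lit 1962) (nat_lit 134) (.e (nat_lit 638999) (nat_lit 8) (.e (nat_lit 172115) (nat_lit 10) (.e (nat_lit 434269) (nat_lit 36) (.e (nat_lit 639023) (nat_lit 18) (.e (nat_lit 81939) (nat_lit 20) .nil)))))) (.g (nat_lit 0) .nil .nil)))))) (.nd (nat_lit 3) (.nd (nat_lit 4) (.nd (nat_lit 5) 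
(.lf (nat_lit 86087) (.g (nat_lit 1821) (.e (nat_lit 1962) (nat_lit 134) (.e (nat_lit 638999) (nat_lit 8) (.e (nat_lit 172106) (nat_lit 10) (.e (nat_lit 434209) (nat_lit 18) (.e (nat_lit 5079) (nat_lit 292) (.e (nat_lit 1218) (nat_lit 90) (.e (nat_lit 81946) (nat_lit 20) .nil))))))) (.g (nat_lit 4) .nil .nil))) 
(.lf (nat_lit 86119) (.g (nat_lit 1216) (.e (nat_lit 1962) (nat_lit 134) (.e (nat_lit 638999) (nat_lit 8) (.e (nat_lit 172112) (nat_lit 10) (.e (nat_lit 434269) (nat_lit 36) (.e (nat_lit 639023) (nat_lit 18) (.e (nat_lit 81947) (nat_lit 20) .nil)))))) (.g (nat_lit 0) .nil .nil)))) (.nd (nat_lit 5) 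
(.lf (nat_lit 86103) (.g (nat_lit 1093) (.e (nat_lit 1962) (nat_lit 134) (.e (nat_lit 638999) (nat_lit 8) (.e (nat_lit 172107) (nat_lit 10) (.e (nat_lit 434266) (nat_lit 35) (.e (nat_lit 630823) (nat_lit 18) (.e (nat_lit 81946) (nat_lit 20) .nil)))))) (.g (nat_lit 0) .nil .nil))) 
(.lf (nat_lit 86135) (.g (nat_lit 1518) (.e (nat_lit 1962) (nat_lit 134) (.e (nat_lit 638999) (nat_lit 8) (.e (nat_lit 172115) (nat_lit 10) (.e (nat_lit 434265) (nat_lit 35) (.e (nat_lit 630823) (nat_lit 18) (.e (nat_lit 81947) (nat_lit 20) .nil)))))) (.g (nat_lit 6) .nil .nil))))) (.nd (nat_lit 4) (.nd (nat_lit 5) 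
(.lf (nat_lit 86095) (.g (nat_lit 1927) (.e (nat_lit 1962) (nat_lit 134) (.e (nat_lit 638999) (nat_lit 8) (.e (nat_lit 172106) (nat_lit 10) (.e (nat_lit 434268) (nat_lit 36) (.e (nat_lit 639023) (nat_lit 18) (.e (nat_lit 81947) (nat_lit 20) .nil)))))) (.g (nat_lit 6) .nil .nil))) 
(.lf (nat_lit 86127) (.g (nat_lit 1959) (.e (nat_lit 1962) (nat_lit 134) (.e (nat_lit 638999) (nat_lit 8) (.e (nat_lit 172113) (nat_lit 10) (.e (nat_lit 434268) (nat_lit 36) (.e (nat_lit 639023) (nat_lit 18) (.e (nat_lit 81947) (nat_lit 20) .nil)))))) (.g (nat_lit 5) .nil .nil)))) (.nd (nat_lit 5) 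
(.lf (nat_lit 86111) (.g (nat_lit 699) (.e (nat_lit 1962) (nat_lit 134) (.e (nat_lit 638999) (nat_lit 8) (.e (nat_lit 172112) (nat_lit 10) (.e (nat_lit 434266) (nat_lit 35) (.e (nat_lit 630823) (nat_lit 18) (.e (nat_lit 81939) (nat_lit 20) .nil)))))) (.g (nat_lit 0) .nil .nil))) 
(.lf (nat_lit 86143) (.g (nat_lit 1801) (.e (nat_lit 1962) (nat_lit 134) (.e (nat_lit 638999) (nat_lit 8) (.e (nat_lit 172115) (nat_lit 10) (.e (nat_lit 434275) (nat_lit 39) (.e (nat_lit 663580) (nat_lit 9) (.e (nat_lit 7936) (nat_lit 23) (.e (nat_lit 352291) (nat_lit 20) .nil))))))) (.g (nat_lit 5) .nil .nil)))))))))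

noncomputable def tv1167 : DT := (.nd (nat_lit 0) (.nd (nat_lit 1) (.nd (nat_lit 2) (.nd (nat_lit 3) (.nd (nat_lit 4) (.nd (nat_lit 5) 
(.lf (nat_lit 86144) (.g (nat_lit 1230) (.e (nat_lit 1962) (nat_lit 134) (.e (nat_lit 638999) (nat_lit 8) (.e (nat_lit 172116) (nat_lit 10) (.e (nat_lit 434268) (nat_lit 36) (.e (nat_lit 639023) (nat_lit 18) (.e (nat_lit 81946) (nat_lit 20) .nil)))))) (.g (nat_lit 4) .nil .nil))) 
(.lf (nat_lit 86176) (.g (nat_lit 1469) (.e (nat_lit 1963) (nat_lit 134) (.e (nat_lit 638999) (nat_lit 8) (.e (nat_lit 172094) (nat_lit 9) (.e (nat_lit 426109) (nat_lit 1) (.e (nat_lit 164309) (nat_lit 226) .nil))))) .nil))) (.nd (nat_lit 5) 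
(.lf (nat_lit 86160) (.g (nat_lit 1554) (.e (nat_lit 1963) (nat_lit 134) (.e (nat_lit 638986) (nat_lit 5) (.e (nat_lit 3015) (nat_lit 187) (.e (nat_lit 450563) (nat_lit 0) (.e (nat_lit 5125) (nat_lit 292) .nil))))) .nil)) 
(.lf (nat_lit 86192) (.g (nat_lit 1632) (.e (nat_lit 1963) (nat_lit 134) (.e (nat_lit 638999) (nat_lit 8) (.e (nat_lit 172106) (nat_lit 10) (.e (nat_lit 434268) (nat_lit 36) (.e (nat_lit 639023) (nat_lit 18) (.e (nat_lit 81943) (nat_lit 20) .nil)))))) (.g (nat_lit 6) .nil .nil))))) (.nd (nat_lit 4) (.nd (nat_lit 5) 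
(.lf (nat_lit 86152) (.g (nat_lit 606) (.e (nat_lit 1962) (nat_lit 134) (.e (nat_lit 639001) (nat_lit 10) (.e (nat_lit 188441) (nat_lit 20) (.e (nat_lit 3391) (nat_lit 210) .nil)))) .nil)) 
(.lf (nat_lit 86184) (.g (nat_lit 1815) (.e (nat_lit 1963) (nat_lit 134) (.e (nat_lit 638999) (nat_lit 8) (.e (nat_lit 172106) (nat_lit 10) (.e (nat_lit 434209) (nat_lit 18) (.e (nat_lit 5089) (nat_lit 292) .nil))))) .nil))) (.nd (nat_lit 5) 
(.lf (nat_lit 86168) (.g (nat_lit 2069) (.e (nat_lit 1963) (nat_lit 134) (.e (nat_lit 638998) (nat_lit 8) (.e (nat_lit 172067) (nat_lit 3) (.e (nat_lit 204870) (nat_lit 29) .nil)))) .nil)) 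
(.lf (nat_lit 86200) (.g (nat_lit 1176) (.e (nat_lit 1963) (nat_lit 134) (.e (nat_lit 638999) (nat_lit 8) (.e (nat_lit 172107) (nat_lit 10) (.e (nat_lit 434266) (nat_lit 35) (.e (nat_lit 630823) (nat_lit 18) (.e (nat_lit 81947) (nat_lit 20) .nil)))))) (.g (nat_lit 0) .nil .nil)))))) (.nd (nat_lit 3) (.nd (nat_lit 4) (.nd (nat_lit 5) 
(.lf (nat_lit 86148) (.g (nat_lit 1224) (.e (nat_lit 1962) (nat_lit 134) (.e (nat_lit 638999) (nat_lit 8) (.e (nat_lit 172116) (nat_lit 10) (.e (nat_lit 434269) (nat_lit 36) (.e (nat_lit 639023) (nat_lit 18) (.e (nat_lit 81946) (nat_lit 20) .nil)))))) (.g (nat_lit 6) .nil .nil))) 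
(.lf (nat_lit 86180) (.g (nat_lit 1259) (.e (nat_lit 1963) (nat_lit 134) (.e (nat_lit 638999) (nat_lit 8) (.e (nat_lit 172097) (nat_lit 9) (.e (nat_lit 426109) (nat_lit 1) (.e (nat_lit 164309) (nat_lit 226) (.e (nat_lit 7936) (nat_lit 90) (.e (nat_lit 81947) (nat_lit 20) .nil))))))) (.g (nat_lit 4) .nil .nil)))) (.nd (nat_lit 5) 
(.lf (nat_lit 86164) (.g (nat_lit 892) (.e (nat_lit 1963) (nat_lit 134) (.e (nat_lit 638986) (nat_lit 5) (.e (nat_lit 3022) (nat_lit 187) (.e (nat_lit 450569) (nat_lit 0) (.e (nat_lit 5102) (nat_lit 292) .nil))))) .nil)) 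
(.lf (nat_lit 86196) (.g (nat_lit 1219) (.e (nat_lit 1963) (nat_lit 134) (.e (nat_lit 638999) (nat_lit 8) (.e (nat_lit 172106) (nat_lit 10) (.e (nat_lit 434269) (nat_lit 36) (.e (nat_lit 639023) (nat_lit 18) (.e (nat_lit 81942) (nat_lit 20) .nil)))))) (.g (nat_lit 0) .nil .nil))))) (.nd (nat_lit 4) (.nd (nat_lit 5) 
(.lf (nat_lit 86156) (.g (nat_lit 862) (.e (nat_lit 1963) (nat_lit 134) (.e (nat_lit 638986) (nat_lit 5) (.e (nat_lit 3015) (nat_lit 187) (.e (nat_lit 450560) (nat_lit 0) (.e (nat_lit 5061) (nat_lit 292) .nil))))) .nil)) 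
(.lf (nat_lit 86188) (.g (nat_lit 1372) (.e (nat_lit 1963) (nat_lit 134) (.e (nat_lit 638999) (nat_lit 8) (.e (nat_lit 172106) (nat_lit 10) (.e (nat_lit 434266) (nat_lit 35) (.e (nat_lit 630823) (nat_lit 18) (.e (nat_lit 81947) (nat_lit 20) .nil)))))) (.g (nat_lit 0) .nil .nil)))) (.nd (nat_lit 5) 
(.lf (nat_lit 86172) (.g (nat_lit 1875) (.e (nat_lit 1963) (nat_lit 134) (.e (nat_lit 638998) (nat_lit 8) (.e (nat_lit 172120) (nat_lit 12) (.e (nat_lit 475163) (nat_lit 21) .nil)))) .nil)) 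
(.lf (nat_lit 86204) (.g (nat_lit 788) (.e (nat_lit 1963) (nat_lit 134) (.e (nat_lit 638999) (nat_lit 8) (.e (nat_lit 172112) (nat_lit 10) (.e (nat_lit 434265) (nat_lit 35) (.e (nat_lit 630823) (nat_lit 18) (.e (nat_lit 81939) (nat_lit 20) .nil)))))) (.g (nat_lit 0) .nil .nil))))))) (.nd (nat_lit 2) (.nd (nat_lit 3) (.nd (nat_lit 4) (.nd (nat_lit 5) 
(.lf (nat_lit 86146) (.g (nat_lit 914) (.e (nat_lit 1962) (nat_lit 134) (.e (nat_lit 638999) (nat_lit 8) (.e (nat_lit 172116) (nat_lit 10) (.e (nat_lit 434269) (nat_lit 36) (.e (nat_lit 639023) (nat_lit 18) (.e (nat_lit 81942) (nat_lit 20) .nil)))))) (.g (nat_lit 6) .nil .nil))) 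
(.lf (nat_lit 86178) (.g (nat_lit 1255) (.e (nat_lit 1963) (nat_lit 134) (.e (nat_lit 638999) (nat_lit 8) (.e (nat_lit 172097) (nat_lit 9) (.e (nat_lit 426109) (nat_lit 1) (.e (nat_lit 164297) (nat_lit 226) .nil))))) .nil))) (.nd (nat_lit 5) 
(.lf (nat_lit 86162) (.g (nat_lit 532) (.e (nat_lit 1963) (nat_lit 134) (.e (nat_lit 638986) (nat_lit 5) (.e (nat_lit 3022) (nat_lit 187) (.e (nat_lit 450565) (nat_lit 0) .nil)))) .nil)) 
(.lf (nat_lit 86194) (.g (nat_lit 1957) (.e (nat_lit 1963) (nat_lit 134) (.e (nat_lit 638999) (nat_lit 8) (.e (nat_lit 172106) (nat_lit 10) (.e (nat_lit 434268) (nat_lit 36) (.e (nat_lit 639023) (nat_lit 18) (.e (nat_lit 81947) (nat_lit 20) .nil)))))) (.g (nat_lit 6) .nil .nil))))) (.nd (nat_lit 4) (.nd (nat_lit 5) 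
(.lf (nat_lit 86154) (.g (nat_lit 1779) (.e (nat_lit 1962) (nat_lit 134) (.e (nat_lit 639020) (nat_lit 16) (.e (nat_lit 65627) (nat_lit 13) (.e (nat_lit 393296) (nat_lit 26) (.e (nat_lit 475215) (nat_lit 43) .nil))))) .nil)) 
(.lf (nat_lit 86186) (.g (nat_lit 1083) (.e (nat_lit 1963) (nat_lit 134) (.e (nat_lit 638999) (nat_lit 8) (.e (nat_lit 172106) (nat_lit 10) (.e (nat_lit 434266) (nat_lit 35) (.e (nat_lit 630823) (nat_lit 18) (.e (nat_lit 81943) (nat_lit 20) .nil)))))) (.g (nat_lit 0) .nil .nil)))) (.nd (nat_lit 5) 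
(.lf (nat_lit 86170) (.g (nat_lit 1857) (.e (nat_lit 1963) (nat_lit 134) (.e (nat_lit 638998) (nat_lit 8) (.e (nat_lit 172120) (nat_lit 12) (.e (nat_lit 475161) (nat_lit 21) .nil)))) .nil)) 
(.lf (nat_lit 86202) (.g (nat_lit 941) (.e (nat_lit 1963) (nat_lit 134) (.e (nat_lit 638999) (nat_lit 8) (.e (nat_lit 172107) (nat_lit 10) (.e (nat_lit 434269) (nat_lit 36) (.e (nat_lit 639023) (nat_lit 18) (.e (nat_lit 81939) (nat_lit 20) .nil)))))) (.g (nat_lit 0) .nil .nil)))))) (.nd (nat_lit 3) (.nd (nat_lit 4) (.nd (nat_lit 5) 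
(.lf (nat_lit 86150) (.g (nat_lit 1968) (.e (nat_lit 1962) (nat_lit 134) (.e (nat_lit 638999) (nat_lit 8) (.e (nat_lit 172119) (nat_lit 12) (.e (nat_lit 475193) (nat_lit 38) (.e (nat_lit 688185) (nat_lit 18) (.e (nat_lit 81938) (nat_lit 20) .nil)))))) (.g (nat_lit 6) .nil .nil))) 
(.lf (nat_lit 86182) (.g (nat_lit 1843) (.e (nat_lit 1963) (nat_lit 134) (.e (nat_lit 638999) (nat_lit 8) (.e (nat_lit 172106) (nat_lit 10) (.e (nat_lit 434209) (nat_lit 18) (.e (nat_lit 5065) (nat_lit 292) .nil))))) .nil))) (.nd (nat_lit 5) 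
(.lf (nat_lit 86166) (.g (nat_lit 3017) (.e (nat_lit 1963) (nat_lit 134) (.e (nat_lit 638998) (nat_lit 8) (.e (nat_lit 172067) (nat_lit 3) (.e (nat_lit 204868) (nat_lit 29) (.e (nat_lit 368384) (nat_lit 5) .nil))))) .nil)) 
(.lf (nat_lit 86198) (.g (nat_lit 2157) (.e (nat_lit 1963) (nat_lit 134) (.e (nat_lit 638999) (nat_lit 8) (.e (nat_lit 172106) (nat_lit 10) (.e (nat_lit 434275) (nat_lit 39) (.e (nat_lit 663580) (nat_lit 9) (.e (nat_lit 7936) (nat_lit 23) (.e (nat_lit 352302) (nat_lit 20) .nil))))))) (.g (nat_lit 5) .nil .nil))))) (.nd (nat_lit 4) (.nd (nat_lit 5) 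
(.lf (nat_lit 86158) (.g (nat_lit 1580) (.e (nat_lit 1963) (nat_lit 134) (.e (nat_lit 638986) (nat_lit 5) (.e (nat_lit 3015) (nat_lit 187) (.e (nat_lit 450562) (nat_lit 0) (.e (nat_lit 5170) (nat_lit 292) (.e (nat_lit 7936) (nat_lit 90) (.e (nat_lit 81947) (nat_lit 20) .nil))))))) (.g (nat_lit 4) .nil .nil))) 
(.lf (nat_lit 86190) (.g (nat_lit 1570) (.e (nat_lit 1963) (nat_lit 134) (.e (nat_lit 638999) (nat_lit 8) (.e (nat_lit 172106) (nat_lit 10) (.e (nat_lit 434268) (nat_lit 36) (.e (nat_lit 639023) (nat_lit 18) (.e (nat_lit 81939) (nat_lit 20) .nil)))))) (.g (nat_lit 6) .nil .nil)))) (.nd (nat_lit 5) 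
(.lf (nat_lit 86174) (.g (nat_lit 2340) (.e (nat_lit 1963) (nat_lit 134) (.e (nat_lit 638998) (nat_lit 8) (.e (nat_lit 172120) (nat_lit 12) (.e (nat_lit 475193) (nat_lit 38) (.e (nat_lit 688184) (nat_lit 18) .nil))))) .nil)) 
(.lf (nat_lit 86206) (.g (nat_lit 1165) (.e (nat_lit 1963) (nat_lit 134) (.e (nat_lit 638999) (nat_lit 8) (.e (nat_lit 172112) (nat_lit 10) (.e (nat_lit 434265) (nat_lit 35) (.e (nat_lit 630823) (nat_lit 18) (.e (nat_lit 81947) (nat_lit 20) .nil)))))) (.g (nat_lit 0) .nil .nil)))))))) (.nd (nat_lit 1) (.nd (nat_lit 2) (.nd (nat_lit 3) (.nd (nat_lit 4) (.nd (nat_lit 5) 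
(.lf (nat_lit 86145) (.g (nat_lit 920) (.e (nat_lit 1962) (nat_lit 134) (.e (nat_lit 638999) (nat_lit 8) (.e (nat_lit 172116) (nat_lit 10) (.e (nat_lit 434269) (nat_lit 36) (.e (nat_lit 639023) (nat_lit 18) (.e (nat_lit 81939) (nat_lit 20) .nil)))))) (.g (nat_lit 6) .nil .nil))) 
(.lf (nat_lit 86177) (.g (nat_lit 2555) (.e (nat_lit 1963) (nat_lit 134) (.e (nat_lit 638999) (nat_lit 8) (.e (nat_lit 172094) (nat_lit 9) (.e (nat_lit 426109) (nat_lit 1) (.e (nat_lit 164319) (nat_lit 228) (.e (nat_lit 57424) (nat_lit 14) (.e (nat_lit 352303) (nat_lit 20) .nil))))))) (.g (nat_lit 7) .nil .nil)))) (.nd (nat_lit 5) 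
(.lf (nat_lit 86161) (.g (nat_lit 1573) (.e (nat_lit 1963) (nat_lit 134) (.e (nat_lit 638986) (nat_lit 5) (.e (nat_lit 3015) (nat_lit 187) (.e (nat_lit 450563) (nat_lit 0) (.e (nat_lit 5125) (nat_lit 292) (.e (nat_lit 7936) (nat_lit 90) (.e (nat_lit 81943) (nat_lit 20) .nil))))))) (.g (nat_lit 4) .nil .nil))) 
(.lf (nat_lit 86193) (.g (nat_lit 1921) (.e (nat_lit 1963) (nat_lit 134) (.e (nat_lit 638999) (nat_lit 8) (.e (nat_lit 172106) (nat_lit 10) (.e (nat_lit 434268) (nat_lit 36) (.e (nat_lit 639023) (nat_lit 18) (.e (nat_lit 81946) (nat_lit 20) .nil)))))) (.g (nat_lit 6) .nil .nil))))) (.nd (nat_lit 4) (.nd (nat_lit 5) 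
(.lf (nat_lit 86153) (.g (nat_lit 1828) (.e (nat_lit 1962) (nat_lit 134) (.e (nat_lit 639003) (nat_lit 12) (.e (nat_lit 237612) (nat_lit 9) (.e (nat_lit 426100) (nat_lit 1) (.e (nat_lit 164305) (nat_lit 226) (.e (nat_lit 7936) (nat_lit 90) (.e (nat_lit 81947) (nat_lit 20) .nil))))))) (.g (nat_lit 5) .nil .nil))) 
(.lf (nat_lit 86185) (.g (nat_lit 1863) (.e (nat_lit 1963) (nat_lit 134) (.e (nat_lit 638999) (nat_lit 8) (.e (nat_lit 172106) (nat_lit 10) (.e (nat_lit 434209) (nat_lit 18) (.e (nat_lit 5089) (nat_lit 292) (.e (nat_lit 7936) (nat_lit 90) (.e (nat_lit 81946) (nat_lit 20) .nil))))))) (.g (nat_lit 4) .nil .nil)))) (.nd (nat_lit 5) 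
(.lf (nat_lit 86169) (.g (nat_lit 1885) (.e (nat_lit 1963) (nat_lit 134) (.e (nat_lit 638998) (nat_lit 8) (.e (nat_lit 172120) (nat_lit 12) (.e (nat_lit 475155) (nat_lit 21) .nil)))) .nil)) 
(.lf (nat_lit 86201) (.g (nat_lit 1267) (.e (nat_lit 1963) (nat_lit 134) (.e (nat_lit 638999) (nat_lit 8) (.e (nat_lit 172107) (nat_lit 10) (.e (nat_lit 434268) (nat_lit 36) (.e (nat_lit 639023) (nat_lit 18) (.e (nat_lit 81943) (nat_lit 20) .nil)))))) (.g (nat_lit 5) .nil .nil)))))) (.nd (nat_lit 3) (.nd (nat_lit 4) (.nd (nat_lit 5) 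
(.lf (nat_lit 86149) (.g (nat_lit 2026) (.e (nat_lit 1962) (nat_lit 134) (.e (nat_lit 638999) (nat_lit 8) (.e (nat_lit 172119) (nat_lit 12) (.e (nat_lit 475193) (nat_lit 38) (.e (nat_lit 688184) (nat_lit 18) (.e (nat_lit 81943) (nat_lit 20) .nil)))))) (.g (nat_lit 6) .nil .nil))) 
(.lf (nat_lit 86181) (.g (nat_lit 1884) (.e (nat_lit 1963) (nat_lit 134) (.e (nat_lit 638999) (nat_lit 8) (.e (nat_lit 172106) (nat_lit 10) (.e (nat_lit 434209) (nat_lit 18) (.e (nat_lit 5050) (nat_lit 292) (.e (nat_lit 7936) (nat_lit 90) (.e (nat_lit 81946) (nat_lit 20) .nil))))))) (.g (nat_lit 4) .nil .nil)))) (.nd (nat_lit 5) 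
(.lf (nat_lit 86165) (.g (nat_lit 1185) (.e (nat_lit 1963) (nat_lit 134) (.e (nat_lit 638986) (nat_lit 5) (.e (nat_lit 3027) (nat_lit 187) (.e (nat_lit 450564) (nat_lit 0) (.e (nat_lit 5069) (nat_lit 292) (.e (nat_lit 7936) (nat_lit 90) (.e (nat_lit 81939) (nat_lit 20) .nil))))))) (.g (nat_lit 4) .nil .nil))) 
(.lf (nat_lit 86197) (.g (nat_lit 1307) (.e (nat_lit 1963) (nat_lit 134) (.e (nat_lit 638999) (nat_lit 8) (.e (nat_lit 172106) (nat_lit 10) (.e (nat_lit 434269) (nat_lit 36) (.e (nat_lit 639023) (nat_lit 18) (.e (nat_lit 81943) (nat_lit 20) .nil)))))) (.g (nat_lit 0) .nil .nil))))) (.nd (nat_lit 4) (.nd (nat_lit 5) 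
(.lf (nat_lit 86157) (.g (nat_lit 862) (.e (nat_lit 1963) (nat_lit 134) (.e (nat_lit 638986) (nat_lit 5) (.e (nat_lit 3015) (nat_lit 187) (.e (nat_lit 450560) (nat_lit 0) (.e (nat_lit 5069) (nat_lit 292) .nil))))) .nil)) 
(.lf (nat_lit 86189) (.g (nat_lit 2013) (.e (nat_lit 1963) (nat_lit 134) (.e (nat_lit 638999) (nat_lit 8) (.e (nat_lit 172106) (nat_lit 10) (.e (nat_lit 434268) (nat_lit 36) (.e (nat_lit 639023) (nat_lit 18) (.e (nat_lit 81938) (nat_lit 20) .nil)))))) (.g (nat_lit 0) .nil .nil)))) (.nd (nat_lit 5) 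
(.lf (nat_lit 86173) (.g (nat_lit 1598) (.e (nat_lit 1963) (nat_lit 134) (.e (nat_lit 638998) (nat_lit 8) (.e (nat_lit 172120) (nat_lit 12) (.e (nat_lit 475193) (nat_lit 38) .nil)))) .nil)) 
(.lf (nat_lit 86205) (.g (nat_lit 1108) (.e (nat_lit 1963) (nat_lit 134) (.e (nat_lit 638999) (nat_lit 8) (.e (nat_lit 172112) (nat_lit 10) (.e (nat_lit 434265) (nat_lit 35) (.e (nat_lit 630823) (nat_lit 18) (.e (nat_lit 81946) (nat_lit 20) .nil)))))) (.g (nat_lit 0) .nil .nil))))))) (.nd (nat_lit 2) (.nd (nat_lit 3) (.nd (nat_lit 4) (.nd (nat_lit 5) 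
(.lf (nat_lit 86147) (.g (nat_lit 1001) (.e (nat_lit 1962) (nat_lit 134) (.e (nat_lit 638999) (nat_lit 8) (.e (nat_lit 172116) (nat_lit 10) (.e (nat_lit 434269) (nat_lit 36) (.e (nat_lit 639023) (nat_lit 18) (.e (nat_lit 81943) (nat_lit 20) .nil)))))) (.g (nat_lit 6) .nil .nil))) 
(.lf (nat_lit 86179) (.g (nat_lit 1243) (.e (nat_lit 1963) (nat_lit 134) (.e (nat_lit 638999) (nat_lit 8) (.e (nat_lit 172097) (nat_lit 9) (.e (nat_lit 426109) (nat_lit 1) (.e (nat_lit 164309) (nat_lit 226) .nil))))) .nil))) (.nd (nat_lit 5) 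
(.lf (nat_lit 86163) (.g (nat_lit 1271) (.e (nat_lit 1963) (nat_lit 134) (.e (nat_lit 638986) (nat_lit 5) (.e (nat_lit 3022) (nat_lit 187) (.e (nat_lit 450565) (nat_lit 0) (.e (nat_lit 5069) (nat_lit 292) (.e (nat_lit 7936) (nat_lit 90) (.e (nat_lit 81939) (nat_lit 20) .nil))))))) (.g (nat_lit 4) .nil .nil))) 
(.lf (nat_lit 86195) (.g (nat_lit 1214) (.e (nat_lit 1963) (nat_lit 134) (.e (nat_lit 638999) (nat_lit 8) (.e (nat_lit 172106) (nat_lit 10) (.e (nat_lit 434269) (nat_lit 36) (.e (nat_lit 639023) (nat_lit 18) (.e (nat_lit 81939) (nat_lit 20) .nil)))))) (.g (nat_lit 0) .nil .nil))))) (.nd (nat_lit 4) (.nd (nat_lit 5) 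
(.lf (nat_lit 86155) (.g (nat_lit 630) (.e (nat_lit 1963) (nat_lit 134) (.e (nat_lit 638986) (nat_lit 5) (.e (nat_lit 3015) (nat_lit 187) (.e (nat_lit 450560) (nat_lit 0) .nil)))) .nil)) 
(.lf (nat_lit 86187) (.g (nat_lit 1312) (.e (nat_lit 1963) (nat_lit 134) (.e (nat_lit 638999) (nat_lit 8) (.e (nat_lit 172106) (nat_lit 10) (.e (nat_lit 434266) (nat_lit 35) (.e (nat_lit 630823) (nat_lit 18) (.e (nat_lit 81946) (nat_lit 20) .nil)))))) (.g (nat_lit 0) .nil .nil)))) (.nd (nat_lit 5) 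
(.lf (nat_lit 86171) (.g (nat_lit 1824) (.e (nat_lit 1963) (nat_lit 134) (.e (nat_lit 638998) (nat_lit 8) (.e (nat_lit 172120) (nat_lit 12) (.e (nat_lit 475162) (nat_lit 21) .nil)))) .nil)) 
(.lf (nat_lit 86203) (.g (nat_lit 948) (.e (nat_lit 1963) (nat_lit 134) (.e (nat_lit 638999) (nat_lit 8) (.e (nat_lit 172107) (nat_lit 10) (.e (nat_lit 434269) (nat_lit 36) (.e (nat_lit 639023) (nat_lit 18) (.e (nat_lit 81942) (nat_lit 20) .nil)))))) (.g (nat_lit 0) .nil .nil)))))) (.nd (nat_lit 3) (.nd (nat_lit 4) (.nd (nat_lit 5) 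
(.lf (nat_lit 86151) (.g (nat_lit 564) (.e (nat_lit 1962) (nat_lit 134) (.e (nat_lit 639001) (nat_lit 10) (.e (nat_lit 188440) (nat_lit 20) (.e (nat_lit 3391) (nat_lit 210) .nil)))) .nil)) 
(.lf (nat_lit 86183) (.g (nat_lit 1880) (.e (nat_lit 1963) (nat_lit 134) (.e (nat_lit 638999) (nat_lit 8) (.e (nat_lit 172106) (nat_lit 10) (.e (nat_lit 434209) (nat_lit 18) (.e (nat_lit 5079) (nat_lit 292) (.e (nat_lit 1218) (nat_lit 90) (.e (nat_lit 81946) (nat_lit 20) .nil))))))) (.g (nat_lit 4) .nil .nil)))) (.nd (nat_lit 5) 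
(.lf (nat_lit 86167) (.g (nat_lit 2497) (.e (nat_lit 1963) (nat_lit 134) (.e (nat_lit 638998) (nat_lit 8) (.e (nat_lit 172067) (nat_lit 3) (.e (nat_lit 204869) (nat_lit 29) (.e (nat_lit 368384) (nat_lit 5) .nil))))) .nil)) 
(.lf (nat_lit 86199) (.g (nat_lit 1112) (.e (nat_lit 1963) (nat_lit 134) (.e (nat_lit 638999) (nat_lit 8) (.e (nat_lit 172107) (nat_lit 10) (.e (nat_lit 434266) (nat_lit 35) (.e (nat_lit 630823) (nat_lit 18) (.e (nat_lit 81946) (nat_lit 20) .nil)))))) (.g (nat_lit 0) .nil .nil))))) (.nd (nat_lit 4) (.nd (nat_lit 5) 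
(.lf (nat_lit 86159) (.g (nat_lit 1701) (.e (nat_lit 1963) (nat_lit 134) (.e (nat_lit 638986) (nat_lit 5) (.e (nat_lit 3015) (nat_lit 187) (.e (nat_lit 450563) (nat_lit 0) (.e (nat_lit 5117) (nat_lit 292) (.e (nat_lit 1215) (nat_lit 90) (.e (nat_lit 81943) (nat_lit 20) .nil))))))) (.g (nat_lit 4) .nil .nil))) 
(.lf (nat_lit 86191) (.g (nat_lit 1568) (.e (nat_lit 1963) (nat_lit 134) (.e (nat_lit 638999) (nat_lit 8) (.e (nat_lit 172106) (nat_lit 10) (.e (nat_lit 434268) (nat_lit 36) (.e (nat_lit 639023) (nat_lit 18) (.e (nat_lit 81942) (nat_lit 20) .nil)))))) (.g (nat_lit 6) .nil .nil)))) (.nd (nat_lit 5) 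
(.lf (nat_lit 86175) (.g (nat_lit 1905) (.e (nat_lit 1963) (nat_lit 134) (.e (nat_lit 638998) (nat_lit 8) (.e (nat_lit 172120) (nat_lit 12) (.e (nat_lit 475194) (nat_lit 39) .nil)))) .nil)) 
(.lf (nat_lit 86207) (.g (nat_lit 816) (.e (nat_lit 1963) (nat_lit 134) (.e (nat_lit 638999) (nat_lit 8) (.e (nat_lit 172112) (nat_lit 10) (.e (nat_lit 434266) (nat_lit 35) (.e (nat_lit 630823) (nat_lit 18) (.e (nat_lit 81943) (nat_lit 20) .nil)))))) (.g (nat_lit 0) .nil .nil)))))))))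

noncomputable def tv1168 : DT := (.nd (nat_lit 0) (.nd (nat_lit 1) (.nd (nat_lit 2) (.nd (nat_lit 3) (.nd (nat_lit 4) (.nd (nat_lit 5) 
(.lf (nat_lit 86208) (.g (nat_lit 1039) (.e (nat_lit 1963) (nat_lit 134) (.e (nat_lit 638999) (nat_lit 8) (.e (nat_lit 172112) (nat_lit 10) (.e (nat_lit 434266) (nat_lit 35) (.e (nat_lit 630823) (nat_lit 18) (.e (nat_lit 81946) (nat_lit 20) .nil)))))) (.g (nat_lit 0) .nil .nil))) 
(.lf (nat_lit 86240) (.g (nat_lit 1222) (.e (nat_lit 1963) (nat_lit 134) (.e (nat_lit 638999) (nat_lit 8) (.e (nat_lit 172115) (nat_lit 10) (.e (nat_lit 434269) (nat_lit 36) (.e (nat_lit 639023) (nat_lit 18) (.e (nat_lit 81939) (nat_lit 20) .nil)))))) (.g (nat_lit 0) .nil .nil)))) (.nd (nat_lit 5) 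
(.lf (nat_lit 86224) (.g (nat_lit 1563) (.e (nat_lit 1963) (nat_lit 134) (.e (nat_lit 638999) (nat_lit 8) (.e (nat_lit 172113) (nat_lit 10) (.e (nat_lit 434267) (nat_lit 36) (.e (nat_lit 639023) (nat_lit 18) (.e (nat_lit 81947) (nat_lit 20) .nil)))))) (.g (nat_lit 6) .nil .nil))) 
(.lf (nat_lit 86256) (.g (nat_lit 802) (.e (nat_lit 1963) (nat_lit 134) (.e (nat_lit 639001) (nat_lit 10) (.e (nat_lit 188444) (nat_lit 21) (.e (nat_lit 164301) (nat_lit 226) (.e (nat_lit 7936) (nat_lit 90) .nil))))) .nil)))) (.nd (nat_lit 4) (.nd (nat_lit 5) 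
(.lf (nat_lit 86216) (.g (nat_lit 790) (.e (nat_lit 1963) (nat_lit 134) (.e (nat_lit 638999) (nat_lit 8) (.e (nat_lit 172113) (nat_lit 10) (.e (nat_lit 434199) (nat_lit 18) .nil)))) .nil)) 
(.lf (nat_lit 86248) (.g (nat_lit 1990) (.e (nat_lit 1963) (nat_lit 134) (.e (nat_lit 638999) (nat_lit 8) (.e (nat_lit 172119) (nat_lit 12) (.e (nat_lit 475193) (nat_lit 38) (.e (nat_lit 688185) (nat_lit 18) (.e (nat_lit 81938) (nat_lit 20) .nil)))))) (.g (nat_lit 6) .nil .nil)))) (.nd (nat_lit 5) 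
(.lf (nat_lit 86232) (.g (nat_lit 1166) (.e (nat_lit 1963) (nat_lit 134) (.e (nat_lit 638999) (nat_lit 8) (.e (nat_lit 172115) (nat_lit 10) (.e (nat_lit 434265) (nat_lit 35) (.e (nat_lit 630823) (nat_lit 18) (.e (nat_lit 81939) (nat_lit 20) .nil)))))) (.g (nat_lit 6) .nil .nil))) 
(.lf (nat_lit 86264) (.g (nat_lit 1348) (.e (nat_lit 1963) (nat_lit 134) (.e (nat_lit 639001) (nat_lit 10) (.e (nat_lit 188455) (nat_lit 24) (.e (nat_lit 229632) (nat_lit 226) (.e (nat_lit 1218) (nat_lit 90) .nil))))) .nil))))) (.nd (nat_lit 3) (.nd (nat_lit 4) (.nd (nat_lit 5) 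
(.lf (nat_lit 86212) (.g (nat_lit 853) (.e (nat_lit 1963) (nat_lit 134) (.e (nat_lit 638999) (nat_lit 8) (.e (nat_lit 172112) (nat_lit 10) (.e (nat_lit 434269) (nat_lit 36) (.e (nat_lit 639023) (nat_lit 18) (.e (nat_lit 81939) (nat_lit 20) .nil)))))) (.g (nat_lit 0) .nil .nil))) 
(.lf (nat_lit 86244) (.g (nat_lit 961) (.e (nat_lit 1963) (nat_lit 134) (.e (nat_lit 638999) (nat_lit 8) (.e (nat_lit 172116) (nat_lit 10) (.e (nat_lit 434269) (nat_lit 36) (.e (nat_lit 639023) (nat_lit 18) (.e (nat_lit 81942) (nat_lit 20) .nil)))))) (.g (nat_lit 0) .nil .nil)))) (.nd (nat_lit 5) 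
(.lf (nat_lit 86228) (.g (nat_lit 1212) (.e (nat_lit 1963) (nat_lit 134) (.e (nat_lit 638999) (nat_lit 8) (.e (nat_lit 172113) (nat_lit 10) (.e (nat_lit 434269) (nat_lit 36) (.e (nat_lit 639023) (nat_lit 18) (.e (nat_lit 81939) (nat_lit 20) .nil)))))) (.g (nat_lit 0) .nil .nil))) 
(.lf (nat_lit 86260) (.g (nat_lit 1196) (.e (nat_lit 1963) (nat_lit 134) (.e (nat_lit 639001) (nat_lit 10) (.e (nat_lit 188445) (nat_lit 21) (.e (nat_lit 164305) (nat_lit 226) (.e (nat_lit 7936) (nat_lit 90) (.e (nat_lit 81947) (nat_lit 20) .nil)))))) (.g (nat_lit 4) .nil .nil))))) (.nd (nat_lit 4) (.nd (nat_lit 5) 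
(.lf (nat_lit 86220) (.g (nat_lit 1014) (.e (nat_lit 1963) (nat_lit 134) (.e (nat_lit 638999) (nat_lit 8) (.e (nat_lit 172113) (nat_lit 10) (.e (nat_lit 434266) (nat_lit 35) (.e (nat_lit 630823) (nat_lit 18) (.e (nat_lit 81946) (nat_lit 20) .nil)))))) (.g (nat_lit 4) .nil .nil))) 
(.lf (nat_lit 86252) (.g (nat_lit 629) (.e (nat_lit 1963) (nat_lit 134) (.e (nat_lit 639001) (nat_lit 10) (.e (nat_lit 188435) (nat_lit 20) (.e (nat_lit 3391) (nat_lit 210) (.e (nat_lit 639023) (nat_lit 18) (.e (nat_lit 81942) (nat_lit 20) .nil)))))) (.g (nat_lit 0) .nil .nil)))) (.nd (nat_lit 5) 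
(.lf (nat_lit 86236) (.g (nat_lit 1144) (.e (nat_lit 1963) (nat_lit 134) (.e (nat_lit 638999) (nat_lit 8) (.e (nat_lit 172115) (nat_lit 10) (.e (nat_lit 434266) (nat_lit 35) (.e (nat_lit 630823) (nat_lit 18) (.e (nat_lit 81943) (nat_lit 20) .nil)))))) (.g (nat_lit 0) .nil .nil))) 
(.lf (nat_lit 86268) (.g (nat_lit 2292) (.e (nat_lit 1963) (nat_lit 134) (.e (nat_lit 639020) (nat_lit 16) (.e (nat_lit 65627) (nat_lit 13) (.e (nat_lit 393296) (nat_lit 26) (.e (nat_lit 475215) (nat_lit 43) (.e (nat_lit 729104) (nat_lit 20) .nil)))))) (.g (nat_lit 0) .nil .nil))))))) (.nd (nat_lit 2) (.nd (nat_lit 3) (.nd (nat_lit 4) (.nd (nat_lit 5) 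
(.lf (nat_lit 86210) (.g (nat_lit 1110) (.e (nat_lit 1963) (nat_lit 134) (.e (nat_lit 638999) (nat_lit 8) (.e (nat_lit 172112) (nat_lit 10) (.e (nat_lit 434268) (nat_lit 36) (.e (nat_lit 639023) (nat_lit 18) (.e (nat_lit 81942) (nat_lit 20) .nil)))))) (.g (nat_lit 5) .nil .nil))) 
(.lf (nat_lit 86242) (.g (nat_lit 1312) (.e (nat_lit 1963) (nat_lit 134) (.e (nat_lit 638999) (nat_lit 8) (.e (nat_lit 172115) (nat_lit 10) (.e (nat_lit 434269) (nat_lit 36) (.e (nat_lit 639023) (nat_lit 18) (.e (nat_lit 81943) (nat_lit 20) .nil)))))) (.g (nat_lit 0) .nil .nil)))) (.nd (nat_lit 5) 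
(.lf (nat_lit 86226) (.g (nat_lit 1629) (.e (nat_lit 1963) (nat_lit 134) (.e (nat_lit 638999) (nat_lit 8) (.e (nat_lit 172113) (nat_lit 10) (.e (nat_lit 434268) (nat_lit 36) (.e (nat_lit 639023) (nat_lit 18) (.e (nat_lit 81942) (nat_lit 20) .nil)))))) (.g (nat_lit 4) .nil .nil))) 
(.lf (nat_lit 86258) (.g (nat_lit 808) (.e (nat_lit 1963) (nat_lit 134) (.e (nat_lit 639001) (nat_lit 10) (.e (nat_lit 188444) (nat_lit 21) (.e (nat_lit 164309) (nat_lit 226) (.e (nat_lit 7936) (nat_lit 90) .nil))))) .nil)))) (.nd (nat_lit 4) (.nd (nat_lit 5) 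
(.lf (nat_lit 86218) (.g (nat_lit 992) (.e (nat_lit 1963) (nat_lit 134) (.e (nat_lit 638999) (nat_lit 8) (.e (nat_lit 172113) (nat_lit 10) (.e (nat_lit 434205) (nat_lit 18) .nil)))) .nil)) 
(.lf (nat_lit 86250) (.g (nat_lit 1048) (.e (nat_lit 1963) (nat_lit 134) (.e (nat_lit 639001) (nat_lit 10) (.e (nat_lit 188434) (nat_lit 20) (.e (nat_lit 3391) (nat_lit 210) (.e (nat_lit 639023) (nat_lit 18) (.e (nat_lit 81942) (nat_lit 20) .nil)))))) (.g (nat_lit 0) .nil .nil)))) (.nd (nat_lit 5) 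
(.lf (nat_lit 86234) (.g (nat_lit 1490) (.e (nat_lit 1963) (nat_lit 134) (.e (nat_lit 638999) (nat_lit 8) (.e (nat_lit 172115) (nat_lit 10) (.e (nat_lit 434265) (nat_lit 35) (.e (nat_lit 630823) (nat_lit 18) (.e (nat_lit 81946) (nat_lit 20) .nil)))))) (.g (nat_lit 6) .nil .nil))) 
(.lf (nat_lit 86266) (.g (nat_lit 1869) (.e (nat_lit 1963) (nat_lit 134) (.e (nat_lit 639003) (nat_lit 12) (.e (nat_lit 237612) (nat_lit 9) (.e (nat_lit 426100) (nat_lit 1) (.e (nat_lit 164305) (nat_lit 226) (.e (nat_lit 7936) (nat_lit 90) (.e (nat_lit 81947) (nat_lit 20) .nil))))))) (.g (nat_lit 5) .nil .nil)))))) (.nd (nat_lit 3) (.nd (nat_lit 4) (.nd (nat_lit 5) 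
(.lf (nat_lit 86214) (.g (nat_lit 941) (.e (nat_lit 1963) (nat_lit 134) (.e (nat_lit 638999) (nat_lit 8) (.e (nat_lit 172112) (nat_lit 10) (.e (nat_lit 434269) (nat_lit 36) (.e (nat_lit 639023) (nat_lit 18) (.e (nat_lit 81943) (nat_lit 20) .nil)))))) (.g (nat_lit 0) .nil .nil))) 
(.lf (nat_lit 86246) (.g (nat_lit 2126) (.e (nat_lit 1963) (nat_lit 134) (.e (nat_lit 638999) (nat_lit 8) (.e (nat_lit 172119) (nat_lit 12) (.e (nat_lit 475193) (nat_lit 38) (.e (nat_lit 688184) (nat_lit 18) (.e (nat_lit 81943) (nat_lit 20) .nil)))))) (.g (nat_lit 6) .nil .nil)))) (.nd (nat_lit 5) 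
(.lf (nat_lit 86230) (.g (nat_lit 1591) (.e (nat_lit 1963) (nat_lit 134) (.e (nat_lit 638999) (nat_lit 8) (.e (nat_lit 172113) (nat_lit 10) (.e (nat_lit 434269) (nat_lit 36) (.e (nat_lit 639023) (nat_lit 18) (.e (nat_lit 81947) (nat_lit 20) .nil)))))) (.g (nat_lit 0) .nil .nil))) 
(.lf (nat_lit 86262) (.g (nat_lit 1343) (.e (nat_lit 1963) (nat_lit 134) (.e (nat_lit 639001) (nat_lit 10) (.e (nat_lit 188446) (nat_lit 21) (.e (nat_lit 164305) (nat_lit 226) (.e (nat_lit 7936) (nat_lit 90) .nil))))) .nil)))) (.nd (nat_lit 4) (.nd (nat_lit 5) 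
(.lf (nat_lit 86222) (.g (nat_lit 1181) (.e (nat_lit 1963) (nat_lit 134) (.e (nat_lit 638999) (nat_lit 8) (.e (nat_lit 172113) (nat_lit 10) (.e (nat_lit 434267) (nat_lit 36) (.e (nat_lit 639023) (nat_lit 18) (.e (nat_lit 81939) (nat_lit 20) .nil)))))) (.g (nat_lit 6) .nil .nil))) 
(.lf (nat_lit 86254) (.g (nat_lit 814) (.e (nat_lit 1963) (nat_lit 134) (.e (nat_lit 639001) (nat_lit 10) (.e (nat_lit 188439) (nat_lit 20) (.e (nat_lit 3391) (nat_lit 210) (.e (nat_lit 639023) (nat_lit 18) (.e (nat_lit 81943) (nat_lit 20) .nil)))))) (.g (nat_lit 0) .nil .nil)))) (.nd (nat_lit 5) 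
(.lf (nat_lit 86238) (.g (nat_lit 1434) (.e (nat_lit 1963) (nat_lit 134) (.e (nat_lit 638999) (nat_lit 8) (.e (nat_lit 172115) (nat_lit 10) (.e (nat_lit 434266) (nat_lit 35) (.e (nat_lit 630823) (nat_lit 18) (.e (nat_lit 81947) (nat_lit 20) .nil)))))) (.g (nat_lit 0) .nil .nil))) 
(.lf (nat_lit 86270) (.g (nat_lit 2680) (.e (nat_lit 1965) (nat_lit 134) (.e (nat_lit 638998) (nat_lit 8) (.e (nat_lit 172067) (nat_lit 3) (.e (nat_lit 204870) (nat_lit 29) (.e (nat_lit 368384) (nat_lit 5) .nil))))) .nil))))))) (.nd (nat_lit 1) (.nd (nat_lit 2) (.nd (nat_lit 3) (.nd (nat_lit 4) (.nd (nat_lit 5) 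
(.lf (nat_lit 86209) (.g (nat_lit 1108) (.e (nat_lit 1963) (nat_lit 134) (.e (nat_lit 638999) (nat_lit 8) (.e (nat_lit 172112) (nat_lit 10) (.e (nat_lit 434266) (nat_lit 35) (.e (nat_lit 630823) (nat_lit 18) (.e (nat_lit 81947) (nat_lit 20) .nil)))))) (.g (nat_lit 0) .nil .nil))) 
(.lf (nat_lit 86241) (.g (nat_lit 1229) (.e (nat_lit 1963) (nat_lit 134) (.e (nat_lit 638999) (nat_lit 8) (.e (nat_lit 172115) (nat_lit 10) (.e (nat_lit 434269) (nat_lit 36) (.e (nat_lit 639023) (nat_lit 18) (.e (nat_lit 81942) (nat_lit 20) .nil)))))) (.g (nat_lit 0) .nil .nil)))) (.nd (nat_lit 5) 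
(.lf (nat_lit 86225) (.g (nat_lit 1632) (.e (nat_lit 1963) (nat_lit 134) (.e (nat_lit 638999) (nat_lit 8) (.e (nat_lit 172113) (nat_lit 10) (.e (nat_lit 434268) (nat_lit 36) (.e (nat_lit 639023) (nat_lit 18) (.e (nat_lit 81939) (nat_lit 20) .nil)))))) (.g (nat_lit 4) .nil .nil))) 
(.lf (nat_lit 86257) (.g (nat_lit 1272) (.e (nat_lit 1963) (nat_lit 134) (.e (nat_lit 639001) (nat_lit 10) (.e (nat_lit 188444) (nat_lit 21) (.e (nat_lit 164305) (nat_lit 226) (.e (nat_lit 7936) (nat_lit 90) (.e (nat_lit 81943) (nat_lit 20) .nil)))))) (.g (nat_lit 4) .nil .nil))))) (.nd (nat_lit 4) (.nd (nat_lit 5) 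
(.lf (nat_lit 86217) (.g (nat_lit 800) (.e (nat_lit 1963) (nat_lit 134) (.e (nat_lit 638999) (nat_lit 8) (.e (nat_lit 172113) (nat_lit 10) (.e (nat_lit 434203) (nat_lit 18) .nil)))) .nil)) 
(.lf (nat_lit 86249) (.g (nat_lit 1035) (.e (nat_lit 1963) (nat_lit 134) (.e (nat_lit 639001) (nat_lit 10) (.e (nat_lit 188434) (nat_lit 20) (.e (nat_lit 3391) (nat_lit 210) (.e (nat_lit 639023) (nat_lit 18) (.e (nat_lit 81939) (nat_lit 20) .nil)))))) (.g (nat_lit 0) .nil .nil)))) (.nd (nat_lit 5) 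
(.lf (nat_lit 86233) (.g (nat_lit 1271) (.e (nat_lit 1963) (nat_lit 134) (.e (nat_lit 638999) (nat_lit 8) (.e (nat_lit 172115) (nat_lit 10) (.e (nat_lit 434265) (nat_lit 35) (.e (nat_lit 630823) (nat_lit 18) (.e (nat_lit 81943) (nat_lit 20) .nil)))))) (.g (nat_lit 6) .nil .nil))) 
(.lf (nat_lit 86265) (.g (nat_lit 968) (.e (nat_lit 1963) (nat_lit 134) (.e (nat_lit 639001) (nat_lit 10) (.e (nat_lit 188455) (nat_lit 24) (.e (nat_lit 237312) (nat_lit 226) .nil)))) .nil))))) (.nd (nat_lit 3) (.nd (nat_lit 4) (.nd (nat_lit 5) 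
(.lf (nat_lit 86213) (.g (nat_lit 864) (.e (nat_lit 1963) (nat_lit 134) (.e (nat_lit 638999) (nat_lit 8) (.e (nat_lit 172112) (nat_lit 10) (.e (nat_lit 434269) (nat_lit 36) (.e (nat_lit 639023) (nat_lit 18) (.e (nat_lit 81942) (nat_lit 20) .nil)))))) (.g (nat_lit 0) .nil .nil))) 
(.lf (nat_lit 86245) (.g (nat_lit 1046) (.e (nat_lit 1963) (nat_lit 134) (.e (nat_lit 638999) (nat_lit 8) (.e (nat_lit 172116) (nat_lit 10) (.e (nat_lit 434269) (nat_lit 36) (.e (nat_lit 639023) (nat_lit 18) (.e (nat_lit 81943) (nat_lit 20) .nil)))))) (.g (nat_lit 0) .nil .nil)))) (.nd (nat_lit 5) 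
(.lf (nat_lit 86229) (.g (nat_lit 1225) (.e (nat_lit 1963) (nat_lit 134) (.e (nat_lit 638999) (nat_lit 8) (.e (nat_lit 172113) (nat_lit 10) (.e (nat_lit 434269) (nat_lit 36) (.e (nat_lit 639023) (nat_lit 18) (.e (nat_lit 81942) (nat_lit 20) .nil)))))) (.g (nat_lit 0) .nil .nil))) 
(.lf (nat_lit 86261) (.g (nat_lit 839) (.e (nat_lit 1963) (nat_lit 134) (.e (nat_lit 639001) (nat_lit 10) (.e (nat_lit 188446) (nat_lit 21) (.e (nat_lit 164301) (nat_lit 226) .nil)))) .nil)))) (.nd (nat_lit 4) (.nd (nat_lit 5) 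
(.lf (nat_lit 86221) (.g (nat_lit 1071) (.e (nat_lit 1963) (nat_lit 134) (.e (nat_lit 638999) (nat_lit 8) (.e (nat_lit 172113) (nat_lit 10) (.e (nat_lit 434266) (nat_lit 35) (.e (nat_lit 630823) (nat_lit 18) (.e (nat_lit 81947) (nat_lit 20) .nil)))))) (.g (nat_lit 4) .nil .nil))) 
(.lf (nat_lit 86253) (.g (nat_lit 642) (.e (nat_lit 1963) (nat_lit 134) (.e (nat_lit 639001) (nat_lit 10) (.e (nat_lit 188438) (nat_lit 20) (.e (nat_lit 3391) (nat_lit 210) (.e (nat_lit 639023) (nat_lit 18) (.e (nat_lit 81942) (nat_lit 20) .nil)))))) (.g (nat_lit 0) .nil .nil)))) (.nd (nat_lit 5) 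
(.lf (nat_lit 86237) (.g (nat_lit 1372) (.e (nat_lit 1963) (nat_lit 134) (.e (nat_lit 638999) (nat_lit 8) (.e (nat_lit 172115) (nat_lit 10) (.e (nat_lit 434266) (nat_lit 35) (.e (nat_lit 630823) (nat_lit 18) (.e (nat_lit 81946) (nat_lit 20) .nil)))))) (.g (nat_lit 0) .nil .nil))) 
(.lf (nat_lit 86269) (.g (nat_lit 2659) (.e (nat_lit 1964) (nat_lit 134) (.e (nat_lit 638998) (nat_lit 8) (.e (nat_lit 172067) (nat_lit 3) (.e (nat_lit 204870) (nat_lit 29) (.e (nat_lit 368384) (nat_lit 5) .nil))))) .nil)))))) (.nd (nat_lit 2) (.nd (nat_lit 3) (.nd (nat_lit 4) (.nd (nat_lit 5) 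
(.lf (nat_lit 86211) (.g (nat_lit 1159) (.e (nat_lit 1963) (nat_lit 134) (.e (nat_lit 638999) (nat_lit 8) (.e (nat_lit 172112) (nat_lit 10) (.e (nat_lit 434268) (nat_lit 36) (.e (nat_lit 639023) (nat_lit 18) (.e (nat_lit 81943) (nat_lit 20) .nil)))))) (.g (nat_lit 5) .nil .nil))) 
(.lf (nat_lit 86243) (.g (nat_lit 954) (.e (nat_lit 1963) (nat_lit 134) (.e (nat_lit 638999) (nat_lit 8) (.e (nat_lit 172116) (nat_lit 10) (.e (nat_lit 434269) (nat_lit 36) (.e (nat_lit 639023) (nat_lit 18) (.e (nat_lit 81939) (nat_lit 20) .nil)))))) (.g (nat_lit 0) .nil .nil)))) (.nd (nat_lit 5) 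
(.lf (nat_lit 86227) (.g (nat_lit 1688) (.e (nat_lit 1963) (nat_lit 134) (.e (nat_lit 638999) (nat_lit 8) (.e (nat_lit 172113) (nat_lit 10) (.e (nat_lit 434268) (nat_lit 36) (.e (nat_lit 639023) (nat_lit 18) (.e (nat_lit 81943) (nat_lit 20) .nil)))))) (.g (nat_lit 4) .nil .nil))) 
(.lf (nat_lit 86259) (.g (nat_lit 1141) (.e (nat_lit 1963) (nat_lit 134) (.e (nat_lit 639001) (nat_lit 10) (.e (nat_lit 188445) (nat_lit 21) (.e (nat_lit 164305) (nat_lit 226) (.e (nat_lit 7936) (nat_lit 90) .nil))))) .nil)))) (.nd (nat_lit 4) (.nd (nat_lit 5) 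
(.lf (nat_lit 86219) (.g (nat_lit 822) (.e (nat_lit 1963) (nat_lit 134) (.e (nat_lit 638999) (nat_lit 8) (.e (nat_lit 172113) (nat_lit 10) (.e (nat_lit 434266) (nat_lit 35) .nil)))) .nil)) 
(.lf (nat_lit 86251) (.g (nat_lit 616) (.e (nat_lit 1963) (nat_lit 134) (.e (nat_lit 639001) (nat_lit 10) (.e (nat_lit 188435) (nat_lit 20) (.e (nat_lit 3391) (nat_lit 210) (.e (nat_lit 639023) (nat_lit 18) (.e (nat_lit 81939) (nat_lit 20) .nil)))))) (.g (nat_lit 0) .nil .nil)))) (.nd (nat_lit 5) 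
(.lf (nat_lit 86235) (.g (nat_lit 1539) (.e (nat_lit 1963) (nat_lit 134) (.e (nat_lit 638999) (nat_lit 8) (.e (nat_lit 172115) (nat_lit 10) (.e (nat_lit 434265) (nat_lit 35) (.e (nat_lit 630823) (nat_lit 18) (.e (nat_lit 81947) (nat_lit 20) .nil)))))) (.g (nat_lit 6) .nil .nil))) 
(.lf (nat_lit 86267) (.g (nat_lit 1492) (.e (nat_lit 1963) (nat_lit 134) (.e (nat_lit 639020) (nat_lit 16) (.e (nat_lit 65627) (nat_lit 13) (.e (nat_lit 393293) (nat_lit 26) (.e (nat_lit 475215) (nat_lit 43) .nil))))) .nil))))) (.nd (nat_lit 3) (.nd (nat_lit 4) (.nd (nat_lit 5) 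
(.lf (nat_lit 86215) (.g (nat_lit 1233) (.e (nat_lit 1963) (nat_lit 134) (.e (nat_lit 638999) (nat_lit 8) (.e (nat_lit 172112) (nat_lit 10) (.e (nat_lit 434269) (nat_lit 36) (.e (nat_lit 639023) (nat_lit 18) (.e (nat_lit 81947) (nat_lit 20) .nil)))))) (.g (nat_lit 0) .nil .nil))) 
(.lf (nat_lit 86247) (.g (nat_lit 2353) (.e (nat_lit 1963) (nat_lit 134) (.e (nat_lit 638999) (nat_lit 8) (.e (nat_lit 172119) (nat_lit 12) (.e (nat_lit 475193) (nat_lit 38) (.e (nat_lit 688184) (nat_lit 18) (.e (nat_lit 81946) (nat_lit 20) .nil)))))) (.g (nat_lit 6) .nil .nil)))) (.nd (nat_lit 5) 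
(.lf (nat_lit 86231) (.g (nat_lit 1247) (.e (nat_lit 1963) (nat_lit 134) (.e (nat_lit 638999) (nat_lit 8) (.e (nat_lit 172113) (nat_lit 10) (.e (nat_lit 434276) (nat_lit 39) (.e (nat_lit 671488) (nat_lit 9) .nil))))) .nil)) 
(.lf (nat_lit 86263) (.g (nat_lit 678) (.e (nat_lit 1963) (nat_lit 134) (.e (nat_lit 639001) (nat_lit 10) (.e (nat_lit 188446) (nat_lit 21) (.e (nat_lit 164309) (nat_lit 226) .nil)))) .nil)))) (.nd (nat_lit 4) (.nd (nat_lit 5) 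
(.lf (nat_lit 86223) (.g (nat_lit 1156) (.e (nat_lit 1963) (nat_lit 134) (.e (nat_lit 638999) (nat_lit 8) (.e (nat_lit 172113) (nat_lit 10) (.e (nat_lit 434267) (nat_lit 36) (.e (nat_lit 639023) (nat_lit 18) (.e (nat_lit 81942) (nat_lit 20) .nil)))))) (.g (nat_lit 5) .nil .nil))) 
(.lf (nat_lit 86255) (.g (nat_lit 718) (.e (nat_lit 1963) (nat_lit 134) (.e (nat_lit 639001) (nat_lit 10) (.e (nat_lit 188441) (nat_lit 20) (.e (nat_lit 3381) (nat_lit 209) .nil)))) .nil))) (.nd (nat_lit 5) 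
(.lf (nat_lit 86239) (.g (nat_lit 1460) (.e (nat_lit 1963) (nat_lit 134) (.e (nat_lit 638999) (nat_lit 8) (.e (nat_lit 172115) (nat_lit 10) (.e (nat_lit 434268) (nat_lit 36) (.e (nat_lit 639023) (nat_lit 18) .nil))))) .nil)) 
(.lf (nat_lit 86271) (.g (nat_lit 1500) (.e (nat_lit 1965) (nat_lit 134) (.e (nat_lit 639020) (nat_lit 16) (.e (nat_lit 65627) (nat_lit 13) (.e (nat_lit 393292) (nat_lit 26) (.e (nat_lit 475212) (nat_lit 42) (.e (nat_lit 720914) (nat_lit 20) .nil)))))) (.g (nat_lit 4) .nil .nil)))))))))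

noncomputable def tv1169 : DT := (.nd (nat_lit 0) (.nd (nat_lit 1) (.nd (nat_lit 2) (.nd (nat_lit 3) (.nd (nat_lit 4) (.nd (nat_lit 5) 
(.lf (nat_lit 86272) (.g (nat_lit 2493) (.e (nat_lit 1965) (nat_lit 134) (.e (nat_lit 639020) (nat_lit 16) (.e (nat_lit 65627) (nat_lit 13) (.e (nat_lit 393292) (nat_lit 26) (.e (nat_lit 475214) (nat_lit 42) (.e (nat_lit 720914) (nat_lit 20) .nil)))))) (.g (nat_lit 5) .nil .nil))) 
(.lf (nat_lit 86304) (.g (nat_lit 3054) (.e (nat_lit 1988) (nat_lit 136) (.e (nat_lit 655402) (nat_lit 14) (.e (nat_lit 1349) (nat_lit 102) (.e (nat_lit 286759) (nat_lit 12) (.e (nat_lit 385094) (nat_lit 49) (.e (nat_lit 778326) (nat_lit 6) (.e (nat_lit 81938) (nat_lit 20) .nil))))))) (.g (nat_lit 7) .nil .nil)))) (.nd (nat_lit 5) 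
(.lf (nat_lit 86288) (.g (nat_lit 1615) (.e (nat_lit 1972) (nat_lit 135) (.e (nat_lit 647199) (nat_lit 11) (.e (nat_lit 16417) (nat_lit 3) (.e (nat_lit 204868) (nat_lit 29) (.e (nat_lit 368384) (nat_lit 5) .nil))))) .nil)) 
(.lf (nat_lit 86320) (.g (nat_lit 2341) (.e (nat_lit 1994) (nat_lit 137) (.e (nat_lit 663564) (nat_lit 3) (.e (nat_lit 57479) (nat_lit 28) (.e (nat_lit 557095) (nat_lit 13) (.e (nat_lit 172115) (nat_lit 10) .nil))))) .nil)))) (.nd (nat_lit 4) (.nd (nat_lit 5) 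
(.lf (nat_lit 86280) (.g (nat_lit 3142) (.e (nat_lit 1968) (nat_lit 135) (.e (nat_lit 647203) (nat_lit 14) (.e (nat_lit 1349) (nat_lit 102) (.e (nat_lit 286759) (nat_lit 12) (.e (nat_lit 385094) (nat_lit 49) (.e (nat_lit 778327) (nat_lit 6) (.e (nat_lit 81940) (nat_lit 20) .nil))))))) (.g (nat_lit 6) .nil .nil))) 
(.lf (nat_lit 86312) (.g (nat_lit 456) (.e (nat_lit 1994) (nat_lit 137) (.e (nat_lit 663554) (nat_lit 0) (.e (nat_lit 1590) (nat_lit 111) .nil))) .nil))) (.nd (nat_lit 5) 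
(.lf (nat_lit 86296) (.g (nat_lit 1000) (.e (nat_lit 1983) (nat_lit 135) (.e (nat_lit 647183) (nat_lit 4) (.e (nat_lit 179968) (nat_lit 32) (.e (nat_lit 376862) (nat_lit 22) (.e (nat_lit 90157) (nat_lit 11) .nil))))) .nil)) 
(.lf (nat_lit 86328) (.g (nat_lit 2261) (.e (nat_lit 1994) (nat_lit 137) (.e (nat_lit 663565) (nat_lit 3) (.e (nat_lit 57478) (nat_lit 28) (.e (nat_lit 557097) (nat_lit 13) (.e (nat_lit 172097) (nat_lit 9) .nil))))) .nil))))) (.nd (nat_lit 3) (.nd (nat_lit 4) (.nd (nat_lit 5) 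
(.lf (nat_lit 86276) (.g (nat_lit 2037) (.e (nat_lit 7936) (nat_lit 134) (.e (nat_lit 638998) (nat_lit 8) (.e (nat_lit 172067) (nat_lit 3) (.e (nat_lit 204870) (nat_lit 29) .nil)))) .nil)) 
(.lf (nat_lit 86308) (.g (nat_lit 1766) (.e (nat_lit 1994) (nat_lit 137) (.e (nat_lit 663554) (nat_lit 0) (.e (nat_lit 1589) (nat_lit 111) (.e (nat_lit 360453) (nat_lit 0) (.e (nat_lit 5907) (nat_lit 320) .nil))))) .nil))) (.nd (nat_lit 5) 
(.lf (nat_lit 86292) (.g (nat_lit 2105) (.e (nat_lit 1978) (nat_lit 135) (.e (nat_lit 647203) (nat_lit 14) (.e (nat_lit 1349) (nat_lit 102) (.e (nat_lit 286759) (nat_lit 12) (.e (nat_lit 385094) (nat_lit 49) .nil))))) .nil)) 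
(.lf (nat_lit 86324) (.g (nat_lit 4029) (.e (nat_lit 1994) (nat_lit 137) (.e (nat_lit 663564) (nat_lit 3) (.e (nat_lit 57480) (nat_lit 28) (.e (nat_lit 557098) (nat_lit 13) (.e (nat_lit 172115) (nat_lit 10) (.e (nat_lit 434231) (nat_lit 23) (.e (nat_lit 532535) (nat_lit 9) (.e (nat_lit 335886) (nat_lit 0) .nil)))))))) (.g (nat_lit 7) .nil .nil))))) (.nd (nat_lit 4) (.nd (nat_lit 5) 
(.lf (nat_lit 86284) (.g (nat_lit 2095) (.e (nat_lit 1971) (nat_lit 135) (.e (nat_lit 647199) (nat_lit 11) (.e (nat_lit 16416) (nat_lit 3) (.e (nat_lit 204868) (nat_lit 29) (.e (nat_lit 368384) (nat_lit 5) .nil))))) .nil)) 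
(.lf (nat_lit 86316) (.g (nat_lit 3125) (.e (nat_lit 1994) (nat_lit 137) (.e (nat_lit 663564) (nat_lit 3) (.e (nat_lit 57477) (nat_lit 28) (.e (nat_lit 557097) (nat_lit 13) (.e (nat_lit 172097) (nat_lit 9) (.e (nat_lit 426125) (nat_lit 2) (.e (nat_lit 196666) (nat_lit 13) (.e (nat_lit 65539) (nat_lit 0) .nil)))))))) (.g (nat_lit 0) .nil .nil)))) (.nd (nat_lit 5) 
(.lf (nat_lit 86300) (.g (nat_lit 2100) (.e (nat_lit 7936) (nat_lit 135) (.e (nat_lit 647199) (nat_lit 11) (.e (nat_lit 16416) (nat_lit 3) (.e (nat_lit 204868) (nat_lit 29) (.e (nat_lit 368384) (nat_lit 5) .nil))))) .nil)) 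
(.lf (nat_lit 86332) (.g (nat_lit 4482) (.e (nat_lit 1994) (nat_lit 137) (.e (nat_lit 663565) (nat_lit 3) (.e (nat_lit 57478) (nat_lit 28) (.e (nat_lit 557098) (nat_lit 13) (.e (nat_lit 172097) (nat_lit 9) (.e (nat_lit 426125) (nat_lit 2) (.e (nat_lit 196666) (nat_lit 13) (.e (nat_lit 65539) (nat_lit 0) .nil)))))))) (.g (nat_lit 8) .nil .nil))))))) 
(.nd (nat_lit 2) (.nd (nat_lit 3) (.nd (nat_lit 4) (.nd (nat_lit 5) 
(.lf (nat_lit 86274) (.g (nat_lit 2985) (.e (nat_lit 7936) (nat_lit 134) (.e (nat_lit 638998) (nat_lit 8) (.e (nat_lit 172067) (nat_lit 3) (.e (nat_lit 204868) (nat_lit 29) (.e (nat_lit 368384) (nat_lit 5) .nil))))) .nil)) 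
(.lf (nat_lit 86306) (.g (nat_lit 1191) (.e (nat_lit 1994) (nat_lit 137) (.e (nat_lit 663554) (nat_lit 0) (.e (nat_lit 1239) (nat_lit 91) (.e (nat_lit 98048) (nat_lit 4) .nil)))) .nil))) (.nd (nat_lit 5) 
(.lf (nat_lit 86290) (.g (nat_lit 1847) (.e (nat_lit 1975) (nat_lit 135) (.e (nat_lit 647199) (nat_lit 11) (.e (nat_lit 16417) (nat_lit 3) (.e (nat_lit 204869) (nat_lit 29) (.e (nat_lit 368384) (nat_lit 5) .nil))))) .nil)) 
(.lf (nat_lit 86322) (.g (nat_lit 3930) (.e (nat_lit 1994) (nat_lit 137) (.e (nat_lit 663564) (nat_lit 3) (.e (nat_lit 57479) (nat_lit 28) (.e (nat_lit 557101) (nat_lit 13) (.e (nat_lit 172097) (nat_lit 9) (.e (nat_lit 426125) (nat_lit 2) (.e (nat_lit 196666) (nat_lit 13) (.e (nat_lit 65539) (nat_lit 0) .nil)))))))) (.g (nat_lit 0) .nil .nil))))) (.nd (nat_lit 4) (.nd (nat_lit 5) 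
(.lf (nat_lit 86282) (.g (nat_lit 1947) (.e (nat_lit 1969) (nat_lit 135) (.e (nat_lit 647203) (nat_lit 14) (.e (nat_lit 1348) (nat_lit 102) (.e (nat_lit 286759) (nat_lit 12) (.e (nat_lit 385094) (nat_lit 49) .nil))))) .nil)) 
(.lf (nat_lit 86314) (.g (nat_lit 1077) (.e (nat_lit 1994) (nat_lit 137) (.e (nat_lit 663554) (nat_lit 0) (.e (nat_lit 1595) (nat_lit 111) (.e (nat_lit 360486) (nat_lit 18) .nil)))) .nil))) (.nd (nat_lit 5) 
(.lf (nat_lit 86298) (.g (nat_lit 3128) (.e (nat_lit 1983) (nat_lit 135) (.e (nat_lit 647185) (nat_lit 6) (.e (nat_lit 188449) (nat_lit 22) (.e (nat_lit 196656) (nat_lit 11) .nil)))) .nil)) 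
(.lf (nat_lit 86330) (.g (nat_lit 2569) (.e (nat_lit 1994) (nat_lit 137) (.e (nat_lit 663565) (nat_lit 3) (.e (nat_lit 57478) (nat_lit 28) (.e (nat_lit 557097) (nat_lit 13) (.e (nat_lit 172115) (nat_lit 10) (.e (nat_lit 434231) (nat_lit 23) (.e (nat_lit 532535) (nat_lit 9) (.e (nat_lit 335886) (nat_lit 0) .nil)))))))) (.g (nat_lit 4) .nil .nil)))))) 
(.nd (nat_lit 3) (.nd (nat_lit 4) (.nd (nat_lit 5) 
(.lf (nat_lit 86278) (.g (nat_lit 2095) (.e (nat_lit 1968) (nat_lit 135) (.e (nat_lit 647199) (nat_lit 11) (.e (nat_lit 16416) (nat_lit 3) (.e (nat_lit 204868) (nat_lit 29) (.e (nat_lit 368384) (nat_lit 5) .nil))))) .nil)) 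
(.lf (nat_lit 86310) (.g (nat_lit 1298) (.e (nat_lit 1994) (nat_lit 137) (.e (nat_lit 663554) (nat_lit 0) (.e (nat_lit 1589) (nat_lit 111) (.e (nat_lit 368384) (nat_lit 17) .nil)))) .nil))) (.nd (nat_lit 5) 
(.lf (nat_lit 86294) (.g (nat_lit 2136) (.e (nat_lit 1980) (nat_lit 135) (.e (nat_lit 647203) (nat_lit 14) (.e (nat_lit 1349) (nat_lit 102) (.e (nat_lit 286759) (nat_lit 12) (.e (nat_lit 385094) (nat_lit 49) .nil))))) .nil)) 
(.lf (nat_lit 86326) (.g (nat_lit 4064) (.e (nat_lit 1994) (nat_lit 137) (.e (nat_lit 663564) (nat_lit 3) (.e (nat_lit 57480) (nat_lit 28) (.e (nat_lit 557108) (nat_lit 15) (.e (nat_lit 188452) (nat_lit 23) (.e (nat_lit 212736) (nat_lit 26) (.e (nat_lit 335907) (nat_lit 0) .nil))))))) (.g (nat_lit 5) .nil .nil))))) (.nd (nat_lit 4) (.nd (nat_lit 5) 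
(.lf (nat_lit 86286) (.g (nat_lit 2107) (.e (nat_lit 1972) (nat_lit 135) (.e (nat_lit 647199) (nat_lit 11) (.e (nat_lit 16416) (nat_lit 3) (.e (nat_lit 204868) (nat_lit 29) (.e (nat_lit 368384) (nat_lit 5) (.e (nat_lit 532481) (nat_lit 0) .nil)))))) (.g (nat_lit 4) .nil .nil))) 
(.lf (nat_lit 86318) (.g (nat_lit 2744) (.e (nat_lit 1994) (nat_lit 137) (.e (nat_lit 663564) (nat_lit 3) (.e (nat_lit 57477) (nat_lit 28) (.e (nat_lit 557108) (nat_lit 15) (.e (nat_lit 188449) (nat_lit 22) (.e (nat_lit 196666) (nat_lit 13) (.e (nat_lit 65536) (nat_lit 0) .nil))))))) (.g (nat_lit 6) .nil .nil)))) (.nd (nat_lit 5) 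
(.lf (nat_lit 86302) (.g (nat_lit 1531) (.e (nat_lit 7936) (nat_lit 135) (.e (nat_lit 647199) (nat_lit 11) (.e (nat_lit 16417) (nat_lit 3) (.e (nat_lit 204854) (nat_lit 26) (.e (nat_lit 336182) (nat_lit 11) .nil))))) .nil)) 
(.lf (nat_lit 86334) (.g (nat_lit 3492) (.e (nat_lit 1994) (nat_lit 137) (.e (nat_lit 663565) (nat_lit 3) (.e (nat_lit 57478) (nat_lit 28) (.e (nat_lit 557098) (nat_lit 13) (.e (nat_lit 172097) (nat_lit 9) (.e (nat_lit 426140) (nat_lit 3) (.e (nat_lit 204850) (nat_lit 26) (.e (nat_lit 335907) (nat_lit 0) .nil)))))))) (.g (nat_lit 6) .nil .nil)))))))) 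
(.nd (nat_lit 1) (.nd (nat_lit 2) (.nd (nat_lit 3) (.nd (nat_lit 4) (.nd (nat_lit 5) 
(.lf (nat_lit 86273) (.g (nat_lit 2566) (.e (nat_lit 1965) (nat_lit 134) (.e (nat_lit 639020) (nat_lit 16) (.e (nat_lit 65627) (nat_lit 13) (.e (nat_lit 393293) (nat_lit 26) (.e (nat_lit 475214) (nat_lit 42) (.e (nat_lit 720914) (nat_lit 20) .nil)))))) (.g (nat_lit 0) .nil .nil))) 
(.lf (nat_lit 86305) (.g (nat_lit 2036) (.e (nat_lit 1993) (nat_lit 137) (.e (nat_lit 663566) (nat_lit 4) (.e (nat_lit 65630) (nat_lit 14) (.e (nat_lit 401459) (nat_lit 13) (.e (nat_lit 483393) (nat_lit 23) .nil))))) .nil))) (.nd (nat_lit 5) 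
(.lf (nat_lit 86289) (.g (nat_lit 1640) (.e (nat_lit 1975) (nat_lit 135) (.e (nat_lit 647199) (nat_lit 11) (.e (nat_lit 16417) (nat_lit 3) (.e (nat_lit 204868) (nat_lit 29) (.e (nat_lit 368384) (nat_lit 5) (.e (nat_lit 532490) (nat_lit 0) .nil)))))) (.g (nat_lit 4) .nil .nil))) 
(.lf (nat_lit 86321) (.g (nat_lit 2535) (.e (nat_lit 1994) (nat_lit 137) (.e (nat_lit 663564) (nat_lit 3) (.e (nat_lit 57479) (nat_lit 28) (.e (nat_lit 557095) (nat_lit 13) (.e (nat_lit 172115) (nat_lit 10) (.e (nat_lit 434231) (nat_lit 23) (.e (nat_lit 532535) (nat_lit 9) (.e (nat_lit 335886) (nat_lit 0) .nil)))))))) (.g (nat_lit 4) .nil .nil))))) (.nd (nat_lit 4) (.nd (nat_lit 5) 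
(.lf (nat_lit 86281) (.g (nat_lit 3020) (.e (nat_lit 1968) (nat_lit 135) (.e (nat_lit 647203) (nat_lit 14) (.e (nat_lit 1349) (nat_lit 102) (.e (nat_lit 286759) (nat_lit 12) (.e (nat_lit 385094) (nat_lit 49) (.e (nat_lit 778327) (nat_lit 6) (.e (nat_lit 81942) (nat_lit 20) .nil))))))) (.g (nat_lit 5) .nil .nil))) 
(.lf (nat_lit 86313) (.g (nat_lit 429) (.e (nat_lit 1994) (nat_lit 137) (.e (nat_lit 663554) (nat_lit 0) (.e (nat_lit 1595) (nat_lit 111) .nil))) .nil))) (.nd (nat_lit 5) 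
(.lf (nat_lit 86297) (.g (nat_lit 946) (.e (nat_lit 1983) (nat_lit 135) (.e (nat_lit 647183) (nat_lit 4) (.e (nat_lit 179968) (nat_lit 32) (.e (nat_lit 376865) (nat_lit 22) (.e (nat_lit 90157) (nat_lit 11) .nil))))) .nil)) 
(.lf (nat_lit 86329) (.g (nat_lit 2282) (.e (nat_lit 1994) (nat_lit 137) (.e (nat_lit 663565) (nat_lit 3) (.e (nat_lit 57478) (nat_lit 28) (.e (nat_lit 557097) (nat_lit 13) (.e (nat_lit 172097) (nat_lit 9) (.e (nat_lit 426140) (nat_lit 3) (.e (nat_lit 204855) (nat_lit 26) (.e (nat_lit 335907) (nat_lit 0) .nil)))))))) (.g (nat_lit 4) .nil .nil)))))) 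
(.nd (nat_lit 3) (.nd (nat_lit 4) (.nd (nat_lit 5) 
(.lf (nat_lit 86277) (.g (nat_lit 2136) (.e (nat_lit 1966) (nat_lit 135) (.e (nat_lit 647203) (nat_lit 14) (.e (nat_lit 1349) (nat_lit 102) (.e (nat_lit 286759) (nat_lit 12) (.e (nat_lit 385094) (nat_lit 49) .nil))))) .nil)) 
(.lf (nat_lit 86309) (.g (nat_lit 1943) (.e (nat_lit 1994) (nat_lit 137) (.e (nat_lit 663554) (nat_lit 0) (.e (nat_lit 1589) (nat_lit 111) (.e (nat_lit 360453) (nat_lit 0) (.e (nat_lit 5907) (nat_lit 320) (.e (nat_lit 1221) (nat_lit 90) (.e (nat_lit 81931) (nat_lit 20) .nil))))))) (.g (nat_lit 4) .nil .nil)))) (.nd (nat_lit 5) 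
(.lf (nat_lit 86293) (.g (nat_lit 2893) (.e (nat_lit 1980) (nat_lit 135) (.e (nat_lit 647201) (nat_lit 12) (.e (nat_lit 57509) (nat_lit 39) (.e (nat_lit 647199) (nat_lit 11) (.e (nat_lit 16465) (nat_lit 13) (.e (nat_lit 483383) (nat_lit 23) (.e (nat_lit 335878) (nat_lit 0) .nil))))))) (.g (nat_lit 7) .nil .nil))) 
(.lf (nat_lit 86325) (.g (nat_lit 3294) (.e (nat_lit 1994) (nat_lit 137) (.e (nat_lit 663564) (nat_lit 3) (.e (nat_lit 57480) (nat_lit 28) (.e (nat_lit 557107) (nat_lit 15) (.e (nat_lit 188447) (nat_lit 22) (.e (nat_lit 196666) (nat_lit 13) (.e (nat_lit 65536) (nat_lit 0) .nil))))))) (.g (nat_lit 6) .nil .nil))))) (.nd (nat_lit 4) (.nd (nat_lit 5) 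
(.lf (nat_lit 86285) (.g (nat_lit 2315) (.e (nat_lit 1971) (nat_lit 135) (.e (nat_lit 647199) (nat_lit 11) (.e (nat_lit 16416) (nat_lit 3) (.e (nat_lit 204869) (nat_lit 29) (.e (nat_lit 368384) (nat_lit 5) .nil))))) .nil)) 
(.lf (nat_lit 86317) (.g (nat_lit 3424) (.e (nat_lit 1994) (nat_lit 137) (.e (nat_lit 663564) (nat_lit 3) (.e (nat_lit 57477) (nat_lit 28) (.e (nat_lit 557097) (nat_lit 13) (.e (nat_lit 172115) (nat_lit 10) (.e (nat_lit 434231) (nat_lit 23) (.e (nat_lit 532535) (nat_lit 9) (.e (nat_lit 335886) (nat_lit 0) .nil)))))))) (.g (nat_lit 7) .nil .nil)))) (.nd (nat_lit 5) 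
(.lf (nat_lit 86301) (.g (nat_lit 2320) (.e (nat_lit 7936) (nat_lit 135) (.e (nat_lit 647199) (nat_lit 11) (.e (nat_lit 16416) (nat_lit 3) (.e (nat_lit 204869) (nat_lit 29) (.e (nat_lit 368384) (nat_lit 5) .nil))))) .nil)) 
(.lf (nat_lit 86333) (.g (nat_lit 4526) (.e (nat_lit 1994) (nat_lit 137) (.e (nat_lit 663565) (nat_lit 3) (.e (nat_lit 57478) (nat_lit 28) (.e (nat_lit 557098) (nat_lit 13) (.e (nat_lit 172097) (nat_lit 9) (.e (nat_lit 426125) (nat_lit 2) (.e (nat_lit 196666) (nat_lit 13) (.e (nat_lit 65543) (nat_lit 0) .nil)))))))) (.g (nat_lit 8) .nil .nil))))))) 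
(.nd (nat_lit 2) (.nd (nat_lit 3) (.nd (nat_lit 4) (.nd (nat_lit 5) 
(.lf (nat_lit 86275) (.g (nat_lit 2464) (.e (nat_lit 7936) (nat_lit 134) (.e (nat_lit 638998) (nat_lit 8) (.e (nat_lit 172067) (nat_lit 3) (.e (nat_lit 204869) (nat_lit 29) (.e (nat_lit 368384) (nat_lit 5) .nil))))) .nil)) 
(.lf (nat_lit 86307) (.g (nat_lit 458) (.e (nat_lit 1994) (nat_lit 137) (.e (nat_lit 663554) (nat_lit 0) (.e (nat_lit 1304) (nat_lit 97) .nil))) .nil))) (.nd (nat_lit 5) 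
(.lf (nat_lit 86291) (.g (nat_lit 2136) (.e (nat_lit 1977) (nat_lit 135) (.e (nat_lit 647203) (nat_lit 14) (.e (nat_lit 1349) (nat_lit 102) (.e (nat_lit 286759) (nat_lit 12) (.e (nat_lit 385094) (nat_lit 49) .nil))))) .nil)) 
(.lf (nat_lit 86323) (.g (nat_lit 3974) (.e (nat_lit 1994) (nat_lit 137) (.e (nat_lit 663564) (nat_lit 3) (.e (nat_lit 57479) (nat_lit 28) (.e (nat_lit 557101) (nat_lit 13) (.e (nat_lit 172115) (nat_lit 10) (.e (nat_lit 434231) (nat_lit 23) (.e (nat_lit 532535) (nat_lit 9) (.e (nat_lit 335886) (nat_lit 0) .nil)))))))) (.g (nat_lit 7) .nil .nil))))) (.nd (nat_lit 4) (.nd (nat_lit 5) 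
(.lf (nat_lit 86283) (.g (nat_lit 2058) (.e (nat_lit 1969) (nat_lit 135) (.e (nat_lit 647203) (nat_lit 14) (.e (nat_lit 1349) (nat_lit 102) (.e (nat_lit 286759) (nat_lit 12) (.e (nat_lit 385094) (nat_lit 49) .nil))))) .nil)) 
(.lf (nat_lit 86315) (.g (nat_lit 910) (.e (nat_lit 1994) (nat_lit 137) (.e (nat_lit 663554) (nat_lit 0) (.e (nat_lit 1668) (nat_lit 116) (.e (nat_lit 401473) (nat_lit 29) (.e (nat_lit 352313) (nat_lit 23) .nil))))) .nil))) (.nd (nat_lit 5) 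
(.lf (nat_lit 86299) (.g (nat_lit 2109) (.e (nat_lit 1983) (nat_lit 135) (.e (nat_lit 647185) (nat_lit 6) (.e (nat_lit 188452) (nat_lit 23) (.e (nat_lit 204809) (nat_lit 9) .nil)))) .nil)) 
(.lf (nat_lit 86331) (.g (nat_lit 4738) (.e (nat_lit 1994) (nat_lit 137) (.e (nat_lit 663565) (nat_lit 3) (.e (nat_lit 57478) (nat_lit 28) (.e (nat_lit 557098) (nat_lit 13) (.e (nat_lit 172097) (nat_lit 9) (.e (nat_lit 426125) (nat_lit 2) (.e (nat_lit 196666) (nat_lit 13) (.e (nat_lit 65536) (nat_lit 0) .nil)))))))) (.g (nat_lit 7) .nil .nil)))))) 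
(.nd (nat_lit 3) (.nd (nat_lit 4) (.nd (nat_lit 5) 
(.lf (nat_lit 86279) (.g (nat_lit 1966) (.e (nat_lit 1968) (nat_lit 135) (.e (nat_lit 647203) (nat_lit 14) (.e (nat_lit 1348) (nat_lit 102) (.e (nat_lit 286759) (nat_lit 12) (.e (nat_lit 385094) (nat_lit 49) .nil))))) .nil)) 
(.lf (nat_lit 86311) (.g (nat_lit 1298) (.e (nat_lit 1994) (nat_lit 137) (.e (nat_lit 663554) (nat_lit 0) (.e (nat_lit 1589) (nat_lit 111) (.e (nat_lit 360486) (nat_lit 18) .nil)))) .nil))) (.nd (nat_lit 5) 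
(.lf (nat_lit 86295) (.g (nat_lit 469) (.e (nat_lit 1983) (nat_lit 135) (.e (nat_lit 647183) (nat_lit 4) (.e (nat_lit 179968) (nat_lit 32) .nil))) .nil)) 
(.lf (nat_lit 86327) (.g (nat_lit 3512) (.e (nat_lit 1994) (nat_lit 137) (.e (nat_lit 663564) (nat_lit 3) (.e (nat_lit 57480) (nat_lit 28) (.e (nat_lit 557109) (nat_lit 15) (.e (nat_lit 188449) (nat_lit 22) (.e (nat_lit 196666) (nat_lit 13) (.e (nat_lit 65536) (nat_lit 0) .nil))))))) (.g (nat_lit 6) .nil .nil))))) (.nd (nat_lit 4) (.nd (nat_lit 5) 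
(.lf (nat_lit 86287) (.g (nat_lit 2315) (.e (nat_lit 1972) (nat_lit 135) (.e (nat_lit 647199) (nat_lit 11) (.e (nat_lit 16416) (nat_lit 3) (.e (nat_lit 204869) (nat_lit 29) (.e (nat_lit 368384) (nat_lit 5) .nil))))) .nil)) 
(.lf (nat_lit 86319) (.g (nat_lit 2647) (.e (nat_lit 1994) (nat_lit 137) (.e (nat_lit 663564) (nat_lit 3) (.e (nat_lit 57477) (nat_lit 28) (.e (nat_lit 557108) (nat_lit 15) (.e (nat_lit 188449) (nat_lit 22) (.e (nat_lit 196666) (nat_lit 13) (.e (nat_lit 65539) (nat_lit 0) .nil))))))) (.g (nat_lit 0) .nil .nil)))) (.nd (nat_lit 5) 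
(.lf (nat_lit 86303) (.g (nat_lit 1615) (.e (nat_lit 7936) (nat_lit 135) (.e (nat_lit 647199) (nat_lit 11) (.e (nat_lit 16417) (nat_lit 3) (.e (nat_lit 204868) (nat_lit 29) (.e (nat_lit 368384) (nat_lit 5) .nil))))) .nil)) 
(.lf (nat_lit 86335) (.g (nat_lit 4217) (.e (nat_lit 1994) (nat_lit 137) (.e (nat_lit 663565) (nat_lit 3) (.e (nat_lit 57478) (nat_lit 28) (.e (nat_lit 557098) (nat_lit 13) (.e (nat_lit 172097) (nat_lit 9) (.e (nat_lit 426140) (nat_lit 3) (.e (nat_lit 204855) (nat_lit 26) (.e (nat_lit 335905) (nat_lit 0) .nil)))))))) (.g (nat_lit 8) .nil .nil)))))))))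

noncomputable def tv1170 : DT := (.nd (nat_lit 0) (.nd (nat_lit 1) (.nd (nat_lit 2) (.nd (nat_lit 3) (.nd (nat_lit 4) 
(.lf (nat_lit 86336) (.g (nat_lit 4777) (.e (nat_lit 1994) (nat_lit 137) (.e (nat_lit 663565) (nat_lit 3) (.e (nat_lit 57478) (nat_lit 28) (.e (nat_lit 557098) (nat_lit 13) (.e (nat_lit 172097) (nat_lit 9) (.e (nat_lit 426140) (nat_lit 3) (.e (nat_lit 204855) (nat_lit 26) (.e (nat_lit 335907) (nat_lit 0) .nil)))))))) (.g (nat_lit 0) .nil .nil))) 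
(.lf (nat_lit 86352) (.g (nat_lit 4732) (.e (nat_lit 1994) (nat_lit 137) (.e (nat_lit 663565) (nat_lit 3) (.e (nat_lit 57478) (nat_lit 28) (.e (nat_lit 557101) (nat_lit 13) (.e (nat_lit 172097) (nat_lit 9) (.e (nat_lit 426140) (nat_lit 3) (.e (nat_lit 204855) (nat_lit 26) (.e (nat_lit 335907) (nat_lit 0) .nil)))))))) (.g (nat_lit 0) .nil .nil)))) (.nd (nat_lit 4) 
(.lf (nat_lit 86344) (.g (nat_lit 4179) (.e (nat_lit 1994) (nat_lit 137) (.e (nat_lit 663565) (nat_lit 3) (.e (nat_lit 57478) (nat_lit 28) (.e (nat_lit 557100) (nat_lit 13) (.e (nat_lit 172106) (nat_lit 10) (.e (nat_lit 434231) (nat_lit 23) (.e (nat_lit 532527) (nat_lit 9) (.e (nat_lit 335907) (nat_lit 0) .nil)))))))) (.g (nat_lit 7) .nil .nil))) 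
(.lf (nat_lit 86360) (.g (nat_lit 4247) (.e (nat_lit 1994) (nat_lit 137) (.e (nat_lit 663565) (nat_lit 3) (.e (nat_lit 57478) (nat_lit 28) (.e (nat_lit 557107) (nat_lit 15) (.e (nat_lit 188447) (nat_lit 22) (.e (nat_lit 196666) (nat_lit 13) (.e (nat_lit 65536) (nat_lit 0) .nil))))))) (.g (nat_lit 0) .nil .nil))))) (.nd (nat_lit 3) (.nd (nat_lit 4) 
(.lf (nat_lit 86340) (.g (nat_lit 4720) (.e (nat_lit 1994) (nat_lit 137) (.e (nat_lit 663565) (nat_lit 3) (.e (nat_lit 57478) (nat_lit 28) (.e (nat_lit 557098) (nat_lit 13) (.e (nat_lit 172115) (nat_lit 10) (.e (nat_lit 434231) (nat_lit 23) (.e (nat_lit 532535) (nat_lit 9) (.e (nat_lit 335886) (nat_lit 0) .nil)))))))) (.g (nat_lit 8) .nil .nil))) 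
(.lf (nat_lit 86356) (.g (nat_lit 4630) (.e (nat_lit 1994) (nat_lit 137) (.e (nat_lit 663565) (nat_lit 3) (.e (nat_lit 57478) (nat_lit 28) (.e (nat_lit 557101) (nat_lit 13) (.e (nat_lit 172115) (nat_lit 10) (.e (nat_lit 434231) (nat_lit 23) (.e (nat_lit 532535) (nat_lit 9) (.e (nat_lit 335886) (nat_lit 0) .nil)))))))) (.g (nat_lit 8) .nil .nil)))) (.nd (nat_lit 4) 
(.lf (nat_lit 86348) (.g (nat_lit 4686) (.e (nat_lit 1994) (nat_lit 137) (.e (nat_lit 663565) (nat_lit 3) (.e (nat_lit 57478) (nat_lit 28) (.e (nat_lit 557101) (nat_lit 13) (.e (nat_lit 172097) (nat_lit 9) (.e (nat_lit 426125) (nat_lit 2) (.e (nat_lit 196666) (nat_lit 13) (.e (nat_lit 65536) (nat_lit 0) .nil)))))))) (.g (nat_lit 7) .nil .nil))) 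
(.lf (nat_lit 86364) (.g (nat_lit 3633) (.e (nat_lit 1994) (nat_lit 137) (.e (nat_lit 663565) (nat_lit 3) (.e (nat_lit 57478) (nat_lit 28) (.e (nat_lit 557107) (nat_lit 15) (.e (nat_lit 188450) (nat_lit 23) (.e (nat_lit 204855) (nat_lit 26) (.e (nat_lit 335905) (nat_lit 0) .nil))))))) (.g (nat_lit 7) .nil .nil)))))) (.nd (nat_lit 2) (.nd (nat_lit 3) (.nd (nat_lit 4) 
(.lf (nat_lit 86338) (.g (nat_lit 3702) (.e (nat_lit 1994) (nat_lit 137) (.e (nat_lit 663565) (nat_lit 3) (.e (nat_lit 57478) (nat_lit 28) (.e (nat_lit 557098) (nat_lit 13) (.e (nat_lit 172097) (nat_lit 9) (.e (nat_lit 426140) (nat_lit 3) (.e (nat_lit 204857) (nat_lit 26) (.e (nat_lit 335907) (nat_lit 0) .nil)))))))) (.g (nat_lit 6) .nil .nil))) 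
(.lf (nat_lit 86354) (.g (nat_lit 3624) (.e (nat_lit 1994) (nat_lit 137) (.e (nat_lit 663565) (nat_lit 3) (.e (nat_lit 57478) (nat_lit 28) (.e (nat_lit 557101) (nat_lit 13) (.e (nat_lit 172097) (nat_lit 9) (.e (nat_lit 426140) (nat_lit 3) (.e (nat_lit 204857) (nat_lit 26) (.e (nat_lit 335907) (nat_lit 0) .nil)))))))) (.g (nat_lit 6) .nil .nil)))) (.nd (nat_lit 4) 
(.lf (nat_lit 86346) (.g (nat_lit 5224) (.e (nat_lit 1994) (nat_lit 137) (.e (nat_lit 663565) (nat_lit 3) (.e (nat_lit 57478) (nat_lit 28) (.e (nat_lit 557100) (nat_lit 13) (.e (nat_lit 172106) (nat_lit 10) (.e (nat_lit 434231) (nat_lit 23) (.e (nat_lit 532535) (nat_lit 9) (.e (nat_lit 335907) (nat_lit 0) .nil)))))))) (.g (nat_lit 8) .nil .nil))) 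
(.lf (nat_lit 86362) (.g (nat_lit 2924) (.e (nat_lit 1994) (nat_lit 137) (.e (nat_lit 663565) (nat_lit 3) (.e (nat_lit 57478) (nat_lit 28) (.e (nat_lit 557107) (nat_lit 15) (.e (nat_lit 188450) (nat_lit 23) (.e (nat_lit 204850) (nat_lit 26) (.e (nat_lit 335907) (nat_lit 0) .nil))))))) (.g (nat_lit 6) .nil .nil))))) (.nd (nat_lit 3) (.nd (nat_lit 4) 
(.lf (nat_lit 86342) (.g (nat_lit 4936) (.e (nat_lit 1994) (nat_lit 137) (.e (nat_lit 663565) (nat_lit 3) (.e (nat_lit 57478) (nat_lit 28) (.e (nat_lit 557098) (nat_lit 13) (.e (nat_lit 172115) (nat_lit 10) (.e (nat_lit 434231) (nat_lit 23) (.e (nat_lit 532535) (nat_lit 9) (.e (nat_lit 335907) (nat_lit 0) .nil)))))))) (.g (nat_lit 8) .nil .nil))) 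
(.lf (nat_lit 86358) (.g (nat_lit 4846) (.e (nat_lit 1994) (nat_lit 137) (.e (nat_lit 663565) (nat_lit 3) (.e (nat_lit 57478) (nat_lit 28) (.e (nat_lit 557101) (nat_lit 13) (.e (nat_lit 172115) (nat_lit 10) (.e (nat_lit 434231) (nat_lit 23) (.e (nat_lit 532535) (nat_lit 9) (.e (nat_lit 335907) (nat_lit 0) .nil)))))))) (.g (nat_lit 8) .nil .nil)))) (.nd (nat_lit 4) 
(.lf (nat_lit 86350) (.g (nat_lit 3453) (.e (nat_lit 1994) (nat_lit 137) (.e (nat_lit 663565) (nat_lit 3) (.e (nat_lit 57478) (nat_lit 28) (.e (nat_lit 557101) (nat_lit 13) (.e (nat_lit 172097) (nat_lit 9) (.e (nat_lit 426140) (nat_lit 3) (.e (nat_lit 204850) (nat_lit 26) (.e (nat_lit 335907) (nat_lit 0) .nil)))))))) (.g (nat_lit 6) .nil .nil))) 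
(.lf (nat_lit 86366) (.g (nat_lit 3408) (.e (nat_lit 1994) (nat_lit 137) (.e (nat_lit 663565) (nat_lit 3) (.e (nat_lit 57478) (nat_lit 28) (.e (nat_lit 557107) (nat_lit 15) (.e (nat_lit 188450) (nat_lit 23) (.e (nat_lit 204857) (nat_lit 26) (.e (nat_lit 335907) (nat_lit 0) .nil))))))) (.g (nat_lit 6) .nil .nil))))))) (.nd (nat_lit 1) (.nd (nat_lit 2) (.nd (nat_lit 3) (.nd (nat_lit 4) 
(.lf (nat_lit 86337) (.g (nat_lit 4185) (.e (nat_lit 1994) (nat_lit 137) (.e (nat_lit 663565) (nat_lit 3) (.e (nat_lit 57478) (nat_lit 28) (.e (nat_lit 557098) (nat_lit 13) (.e (nat_lit 172097) (nat_lit 9) (.e (nat_lit 426140) (nat_lit 3) (.e (nat_lit 204855) (nat_lit 26) (.e (nat_lit 335908) (nat_lit 0) .nil)))))))) (.g (nat_lit 8) .nil .nil))) 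
(.lf (nat_lit 86353) (.g (nat_lit 4140) (.e (nat_lit 1994) (nat_lit 137) (.e (nat_lit 663565) (nat_lit 3) (.e (nat_lit 57478) (nat_lit 28) (.e (nat_lit 557101) (nat_lit 13) (.e (nat_lit 172097) (nat_lit 9) (.e (nat_lit 426140) (nat_lit 3) (.e (nat_lit 204855) (nat_lit 26) (.e (nat_lit 335908) (nat_lit 0) .nil)))))))) (.g (nat_lit 8) .nil .nil)))) (.nd (nat_lit 4) 
(.lf (nat_lit 86345) (.g (nat_lit 5584) (.e (nat_lit 1994) (nat_lit 137) (.e (nat_lit 663565) (nat_lit 3) (.e (nat_lit 57478) (nat_lit 28) (.e (nat_lit 557100) (nat_lit 13) (.e (nat_lit 172106) (nat_lit 10) (.e (nat_lit 434231) (nat_lit 23) (.e (nat_lit 532535) (nat_lit 9) (.e (nat_lit 335905) (nat_lit 0) .nil)))))))) (.g (nat_lit 8) .nil .nil))) 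
(.lf (nat_lit 86361) (.g (nat_lit 1728) (.e (nat_lit 1994) (nat_lit 137) (.e (nat_lit 663565) (nat_lit 3) (.e (nat_lit 57478) (nat_lit 28) (.e (nat_lit 557107) (nat_lit 15) (.e (nat_lit 188450) (nat_lit 23) .nil))))) .nil)))) (.nd (nat_lit 3) (.nd (nat_lit 4) 
(.lf (nat_lit 86341) (.g (nat_lit 5360) (.e (nat_lit 1994) (nat_lit 137) (.e (nat_lit 663565) (nat_lit 3) (.e (nat_lit 57478) (nat_lit 28) (.e (nat_lit 557098) (nat_lit 13) (.e (nat_lit 172115) (nat_lit 10) (.e (nat_lit 434231) (nat_lit 23) (.e (nat_lit 532535) (nat_lit 9) (.e (nat_lit 335905) (nat_lit 0) .nil)))))))) (.g (nat_lit 8) .nil .nil))) 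
(.lf (nat_lit 86357) (.g (nat_lit 5270) (.e (nat_lit 1994) (nat_lit 137) (.e (nat_lit 663565) (nat_lit 3) (.e (nat_lit 57478) (nat_lit 28) (.e (nat_lit 557101) (nat_lit 13) (.e (nat_lit 172115) (nat_lit 10) (.e (nat_lit 434231) (nat_lit 23) (.e (nat_lit 532535) (nat_lit 9) (.e (nat_lit 335905) (nat_lit 0) .nil)))))))) (.g (nat_lit 8) .nil .nil)))) (.nd (nat_lit 4) 
(.lf (nat_lit 86349) (.g (nat_lit 4430) (.e (nat_lit 1994) (nat_lit 137) (.e (nat_lit 663565) (nat_lit 3) (.e (nat_lit 57478) (nat_lit 28) (.e (nat_lit 557101) (nat_lit 13) (.e (nat_lit 172097) (nat_lit 9) (.e (nat_lit 426125) (nat_lit 2) (.e (nat_lit 196666) (nat_lit 13) (.e (nat_lit 65539) (nat_lit 0) .nil)))))))) (.g (nat_lit 8) .nil .nil))) 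
(.lf (nat_lit 86365) (.g (nat_lit 3000) (.e (nat_lit 1994) (nat_lit 137) (.e (nat_lit 663565) (nat_lit 3) (.e (nat_lit 57478) (nat_lit 28) (.e (nat_lit 557107) (nat_lit 15) (.e (nat_lit 188450) (nat_lit 23) (.e (nat_lit 204856) (nat_lit 26) (.e (nat_lit 335907) (nat_lit 0) .nil))))))) (.g (nat_lit 5) .nil .nil)))))) (.nd (nat_lit 2) (.nd (nat_lit 3) (.nd (nat_lit 4) 
(.lf (nat_lit 86339) (.g (nat_lit 4236) (.e (nat_lit 1994) (nat_lit 137) (.e (nat_lit 663565) (nat_lit 3) (.e (nat_lit 57478) (nat_lit 28) (.e (nat_lit 557098) (nat_lit 13) (.e (nat_lit 172115) (nat_lit 10) (.e (nat_lit 434231) (nat_lit 23) (.e (nat_lit 532527) (nat_lit 9) (.e (nat_lit 335907) (nat_lit 0) .nil)))))))) (.g (nat_lit 7) .nil .nil))) 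
(.lf (nat_lit 86355) (.g (nat_lit 4178) (.e (nat_lit 1994) (nat_lit 137) (.e (nat_lit 663565) (nat_lit 3) (.e (nat_lit 57478) (nat_lit 28) (.e (nat_lit 557101) (nat_lit 13) (.e (nat_lit 172115) (nat_lit 10) (.e (nat_lit 434231) (nat_lit 23) (.e (nat_lit 532527) (nat_lit 9) (.e (nat_lit 335907) (nat_lit 0) .nil)))))))) (.g (nat_lit 7) .nil .nil)))) (.nd (nat_lit 4) 
(.lf (nat_lit 86347) (.g (nat_lit 4777) (.e (nat_lit 1994) (nat_lit 137) (.e (nat_lit 663565) (nat_lit 3) (.e (nat_lit 57478) (nat_lit 28) (.e (nat_lit 557100) (nat_lit 13) (.e (nat_lit 172106) (nat_lit 10) (.e (nat_lit 434231) (nat_lit 23) (.e (nat_lit 532535) (nat_lit 9) (.e (nat_lit 335908) (nat_lit 0) .nil)))))))) (.g (nat_lit 7) .nil .nil))) 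
(.lf (nat_lit 86363) (.g (nat_lit 3144) (.e (nat_lit 1994) (nat_lit 137) (.e (nat_lit 663565) (nat_lit 3) (.e (nat_lit 57478) (nat_lit 28) (.e (nat_lit 557107) (nat_lit 15) (.e (nat_lit 188450) (nat_lit 23) (.e (nat_lit 204855) (nat_lit 26) (.e (nat_lit 335886) (nat_lit 0) .nil))))))) (.g (nat_lit 6) .nil .nil))))) (.nd (nat_lit 3) (.nd (nat_lit 4) 
(.lf (nat_lit 86343) (.g (nat_lit 3706) (.e (nat_lit 1994) (nat_lit 137) (.e (nat_lit 663565) (nat_lit 3) (.e (nat_lit 57478) (nat_lit 28) (.e (nat_lit 557098) (nat_lit 13) (.e (nat_lit 172115) (nat_lit 10) (.e (nat_lit 434231) (nat_lit 23) (.e (nat_lit 532536) (nat_lit 9) (.e (nat_lit 335907) (nat_lit 0) .nil)))))))) (.g (nat_lit 6) .nil .nil))) 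
(.lf (nat_lit 86359) (.g (nat_lit 3591) (.e (nat_lit 1994) (nat_lit 137) (.e (nat_lit 663565) (nat_lit 3) (.e (nat_lit 57478) (nat_lit 28) (.e (nat_lit 557101) (nat_lit 13) (.e (nat_lit 172115) (nat_lit 10) (.e (nat_lit 434231) (nat_lit 23) (.e (nat_lit 532536) (nat_lit 9) (.e (nat_lit 335907) (nat_lit 0) .nil)))))))) (.g (nat_lit 6) .nil .nil)))) (.nd (nat_lit 4) 
(.lf (nat_lit 86351) (.g (nat_lit 4172) (.e (nat_lit 1994) (nat_lit 137) (.e (nat_lit 663565) (nat_lit 3) (.e (nat_lit 57478) (nat_lit 28) (.e (nat_lit 557101) (nat_lit 13) (.e (nat_lit 172097) (nat_lit 9) (.e (nat_lit 426140) (nat_lit 3) (.e (nat_lit 204855) (nat_lit 26) (.e (nat_lit 335905) (nat_lit 0) .nil)))))))) (.g (nat_lit 8) .nil .nil))) 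
(.lf (nat_lit 86367) (.g (nat_lit 4454) (.e (nat_lit 1994) (nat_lit 137) (.e (nat_lit 663565) (nat_lit 3) (.e (nat_lit 57478) (nat_lit 28) (.e (nat_lit 557108) (nat_lit 15) (.e (nat_lit 188452) (nat_lit 23) (.e (nat_lit 204856) (nat_lit 26) (.e (nat_lit 335907) (nat_lit 0) .nil))))))) (.g (nat_lit 5) .nil .nil))))))))

noncomputable def tv1171 : DT := (.nd (nat_lit 0) (.nd (nat_lit 1) (.nd (nat_lit 2) (.nd (nat_lit 3) (.nd (nat_lit 4) 
(.lf (nat_lit 86368) (.g (nat_lit 4526) (.e (nat_lit 1994) (nat_lit 137) (.e (nat_lit 663565) (nat_lit 3) (.e (nat_lit 57478) (nat_lit 28) (.e (nat_lit 557109) (nat_lit 15) (.e (nat_lit 188449) (nat_lit 22) (.e (nat_lit 196666) (nat_lit 13) (.e (nat_lit 65536) (nat_lit 0) .nil))))))) (.g (nat_lit 0) .nil .nil))) 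
(.lf (nat_lit 86384) (.g (nat_lit 2859) (.e (nat_lit 1994) (nat_lit 137) (.e (nat_lit 663565) (nat_lit 3) (.e (nat_lit 57479) (nat_lit 28) (.e (nat_lit 557095) (nat_lit 13) (.e (nat_lit 172115) (nat_lit 10) (.e (nat_lit 434231) (nat_lit 23) (.e (nat_lit 532537) (nat_lit 9) (.e (nat_lit 335907) (nat_lit 0) .nil)))))))) (.g (nat_lit 4) .nil .nil)))) (.nd (nat_lit 4) 
(.lf (nat_lit 86376) (.g (nat_lit 2768) (.e (nat_lit 1994) (nat_lit 137) (.e (nat_lit 663565) (nat_lit 3) (.e (nat_lit 57479) (nat_lit 28) (.e (nat_lit 557095) (nat_lit 13) (.e (nat_lit 172097) (nat_lit 9) .nil))))) .nil)) 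
(.lf (nat_lit 86392) (.g (nat_lit 4749) (.e (nat_lit 1994) (nat_lit 137) (.e (nat_lit 663565) (nat_lit 3) (.e (nat_lit 57479) (nat_lit 28) (.e (nat_lit 557101) (nat_lit 13) (.e (nat_lit 172097) (nat_lit 9) (.e (nat_lit 426140) (nat_lit 3) (.e (nat_lit 204855) (nat_lit 26) (.e (nat_lit 335907) (nat_lit 0) .nil)))))))) (.g (nat_lit 7) .nil .nil))))) (.nd (nat_lit 3) (.nd (nat_lit 4) 
(.lf (nat_lit 86372) (.g (nat_lit 5503) (.e (nat_lit 1994) (nat_lit 137) (.e (nat_lit 663565) (nat_lit 3) (.e (nat_lit 57478) (nat_lit 28) (.e (nat_lit 557109) (nat_lit 15) (.e (nat_lit 188452) (nat_lit 23) (.e (nat_lit 204856) (nat_lit 26) (.e (nat_lit 335907) (nat_lit 0) .nil))))))) (.g (nat_lit 0) .nil .nil))) 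
(.lf (nat_lit 86388) (.g (nat_lit 4642) (.e (nat_lit 1994) (nat_lit 137) (.e (nat_lit 663565) (nat_lit 3) (.e (nat_lit 57479) (nat_lit 28) (.e (nat_lit 557100) (nat_lit 13) (.e (nat_lit 172106) (nat_lit 10) (.e (nat_lit 434231) (nat_lit 23) (.e (nat_lit 532535) (nat_lit 9) (.e (nat_lit 335908) (nat_lit 0) .nil)))))))) (.g (nat_lit 7) .nil .nil)))) (.nd (nat_lit 4) 
(.lf (nat_lit 86380) (.g (nat_lit 3243) (.e (nat_lit 1994) (nat_lit 137) (.e (nat_lit 663565) (nat_lit 3) (.e (nat_lit 57479) (nat_lit 28) (.e (nat_lit 557095) (nat_lit 13) (.e (nat_lit 172097) (nat_lit 9) (.e (nat_lit 426140) (nat_lit 3) (.e (nat_lit 204855) (nat_lit 26) (.e (nat_lit 335907) (nat_lit 0) .nil)))))))) (.g (nat_lit 4) .nil .nil))) 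
(.lf (nat_lit 86396) (.g (nat_lit 4612) (.e (nat_lit 1994) (nat_lit 137) (.e (nat_lit 663565) (nat_lit 3) (.e (nat_lit 57479) (nat_lit 28) (.e (nat_lit 557101) (nat_lit 13) (.e (nat_lit 172115) (nat_lit 10) (.e (nat_lit 434231) (nat_lit 23) (.e (nat_lit 532535) (nat_lit 9) (.e (nat_lit 335886) (nat_lit 0) .nil)))))))) (.g (nat_lit 7) .nil .nil)))))) 
(.nd (nat_lit 2) (.nd (nat_lit 3) (.nd (nat_lit 4) 
(.lf (nat_lit 86370) (.g (nat_lit 4250) (.e (nat_lit 1994) (nat_lit 137) (.e (nat_lit 663565) (nat_lit 3) (.e (nat_lit 57478) (nat_lit 28) (.e (nat_lit 557109) (nat_lit 15) (.e (nat_lit 188452) (nat_lit 23) (.e (nat_lit 204855) (nat_lit 26) (.e (nat_lit 335886) (nat_lit 0) .nil))))))) (.g (nat_lit 6) .nil .nil))) 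
(.lf (nat_lit 86386) (.g (nat_lit 5395) (.e (nat_lit 1994) (nat_lit 137) (.e (nat_lit 663565) (nat_lit 3) (.e (nat_lit 57479) (nat_lit 28) (.e (nat_lit 557100) (nat_lit 13) (.e (nat_lit 172106) (nat_lit 10) (.e (nat_lit 434231) (nat_lit 23) (.e (nat_lit 532535) (nat_lit 9) (.e (nat_lit 335905) (nat_lit 0) .nil)))))))) (.g (nat_lit 7) .nil .nil)))) (.nd (nat_lit 4) 
(.lf (nat_lit 86378) (.g (nat_lit 3218) (.e (nat_lit 1994) (nat_lit 137) (.e (nat_lit 663565) (nat_lit 3) (.e (nat_lit 57479) (nat_lit 28) (.e (nat_lit 557095) (nat_lit 13) (.e (nat_lit 172097) (nat_lit 9) (.e (nat_lit 426125) (nat_lit 2) (.e (nat_lit 196666) (nat_lit 13) (.e (nat_lit 65539) (nat_lit 0) .nil)))))))) (.g (nat_lit 4) .nil .nil))) 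
(.lf (nat_lit 86394) (.g (nat_lit 2414) (.e (nat_lit 1994) (nat_lit 137) (.e (nat_lit 663565) (nat_lit 3) (.e (nat_lit 57479) (nat_lit 28) (.e (nat_lit 557101) (nat_lit 13) (.e (nat_lit 172097) (nat_lit 9) (.e (nat_lit 426140) (nat_lit 3) (.e (nat_lit 204856) (nat_lit 26) (.e (nat_lit 335907) (nat_lit 0) .nil)))))))) (.g (nat_lit 4) .nil .nil))))) (.nd (nat_lit 3) (.nd (nat_lit 4) 
(.lf (nat_lit 86374) (.g (nat_lit 6382) (.e (nat_lit 1994) (nat_lit 137) (.e (nat_lit 663565) (nat_lit 3) (.e (nat_lit 57478) (nat_lit 28) (.e (nat_lit 557109) (nat_lit 15) (.e (nat_lit 188452) (nat_lit 23) (.e (nat_lit 204858) (nat_lit 26) (.e (nat_lit 335907) (nat_lit 0) .nil))))))) (.g (nat_lit 7) .nil .nil))) 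
(.lf (nat_lit 86390) (.g (nat_lit 4553) (.e (nat_lit 1994) (nat_lit 137) (.e (nat_lit 663565) (nat_lit 3) (.e (nat_lit 57479) (nat_lit 28) (.e (nat_lit 557101) (nat_lit 13) (.e (nat_lit 172097) (nat_lit 9) (.e (nat_lit 426125) (nat_lit 2) (.e (nat_lit 196666) (nat_lit 13) (.e (nat_lit 65543) (nat_lit 0) .nil)))))))) (.g (nat_lit 7) .nil .nil)))) (.nd (nat_lit 4) 
(.lf (nat_lit 86382) (.g (nat_lit 3999) (.e (nat_lit 1994) (nat_lit 137) (.e (nat_lit 663565) (nat_lit 3) (.e (nat_lit 57479) (nat_lit 28) (.e (nat_lit 557095) (nat_lit 13) (.e (nat_lit 172115) (nat_lit 10) (.e (nat_lit 434231) (nat_lit 23) (.e (nat_lit 532527) (nat_lit 9) (.e (nat_lit 335907) (nat_lit 0) .nil)))))))) (.g (nat_lit 6) .nil .nil))) 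
(.lf (nat_lit 86398) (.g (nat_lit 4848) (.e (nat_lit 1994) (nat_lit 137) (.e (nat_lit 663565) (nat_lit 3) (.e (nat_lit 57479) (nat_lit 28) (.e (nat_lit 557101) (nat_lit 13) (.e (nat_lit 172115) (nat_lit 10) (.e (nat_lit 434231) (nat_lit 23) (.e (nat_lit 532535) (nat_lit 9) (.e (nat_lit 335907) (nat_lit 0) .nil)))))))) (.g (nat_lit 7) .nil .nil))))))) 
(.nd (nat_lit 1) (.nd (nat_lit 2) (.nd (nat_lit 3) (.nd (nat_lit 4) 
(.lf (nat_lit 86369) (.g (nat_lit 3727) (.e (nat_lit 1994) (nat_lit 137) (.e (nat_lit 663565) (nat_lit 3) (.e (nat_lit 57478) (nat_lit 28) (.e (nat_lit 557109) (nat_lit 15) (.e (nat_lit 188452) (nat_lit 23) (.e (nat_lit 204850) (nat_lit 26) (.e (nat_lit 335907) (nat_lit 0) .nil))))))) (.g (nat_lit 6) .nil .nil))) 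
(.lf (nat_lit 86385) (.g (nat_lit 3995) (.e (nat_lit 1994) (nat_lit 137) (.e (nat_lit 663565) (nat_lit 3) (.e (nat_lit 57479) (nat_lit 28) (.e (nat_lit 557100) (nat_lit 13) (.e (nat_lit 172106) (nat_lit 10) (.e (nat_lit 434231) (nat_lit 23) (.e (nat_lit 532527) (nat_lit 9) (.e (nat_lit 335907) (nat_lit 0) .nil)))))))) (.g (nat_lit 6) .nil .nil)))) (.nd (nat_lit 4) 
(.lf (nat_lit 86377) (.g (nat_lit 3443) (.e (nat_lit 1994) (nat_lit 137) (.e (nat_lit 663565) (nat_lit 3) (.e (nat_lit 57479) (nat_lit 28) (.e (nat_lit 557095) (nat_lit 13) (.e (nat_lit 172097) (nat_lit 9) (.e (nat_lit 426125) (nat_lit 2) (.e (nat_lit 196666) (nat_lit 13) (.e (nat_lit 65536) (nat_lit 0) .nil)))))))) (.g (nat_lit 5) .nil .nil))) 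
(.lf (nat_lit 86393) (.g (nat_lit 4206) (.e (nat_lit 1994) (nat_lit 137) (.e (nat_lit 663565) (nat_lit 3) (.e (nat_lit 57479) (nat_lit 28) (.e (nat_lit 557101) (nat_lit 13) (.e (nat_lit 172097) (nat_lit 9) (.e (nat_lit 426140) (nat_lit 3) (.e (nat_lit 204855) (nat_lit 26) (.e (nat_lit 335908) (nat_lit 0) .nil)))))))) (.g (nat_lit 7) .nil .nil))))) (.nd (nat_lit 3) (.nd (nat_lit 4) 
(.lf (nat_lit 86373) (.g (nat_lit 5879) (.e (nat_lit 1994) (nat_lit 137) (.e (nat_lit 663565) (nat_lit 3) (.e (nat_lit 57478) (nat_lit 28) (.e (nat_lit 557109) (nat_lit 15) (.e (nat_lit 188452) (nat_lit 23) (.e (nat_lit 204857) (nat_lit 26) (.e (nat_lit 335907) (nat_lit 0) .nil))))))) (.g (nat_lit 7) .nil .nil))) 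
(.lf (nat_lit 86389) (.g (nat_lit 4453) (.e (nat_lit 1994) (nat_lit 137) (.e (nat_lit 663565) (nat_lit 3) (.e (nat_lit 57479) (nat_lit 28) (.e (nat_lit 557101) (nat_lit 13) (.e (nat_lit 172097) (nat_lit 9) (.e (nat_lit 426125) (nat_lit 2) (.e (nat_lit 196666) (nat_lit 13) (.e (nat_lit 65539) (nat_lit 0) .nil)))))))) (.g (nat_lit 7) .nil .nil)))) (.nd (nat_lit 4) 
(.lf (nat_lit 86381) (.g (nat_lit 2606) (.e (nat_lit 1994) (nat_lit 137) (.e (nat_lit 663565) (nat_lit 3) (.e (nat_lit 57479) (nat_lit 28) (.e (nat_lit 557095) (nat_lit 13) (.e (nat_lit 172115) (nat_lit 10) .nil))))) .nil)) 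
(.lf (nat_lit 86397) (.g (nat_lit 5267) (.e (nat_lit 1994) (nat_lit 137) (.e (nat_lit 663565) (nat_lit 3) (.e (nat_lit 57479) (nat_lit 28) (.e (nat_lit 557101) (nat_lit 13) (.e (nat_lit 172115) (nat_lit 10) (.e (nat_lit 434231) (nat_lit 23) (.e (nat_lit 532535) (nat_lit 9) (.e (nat_lit 335905) (nat_lit 0) .nil)))))))) (.g (nat_lit 7) .nil .nil)))))) 
(.nd (nat_lit 2) (.nd (nat_lit 3) (.nd (nat_lit 4) 
(.lf (nat_lit 86371) (.g (nat_lit 4531) (.e (nat_lit 1994) (nat_lit 137) (.e (nat_lit 663565) (nat_lit 3) (.e (nat_lit 57478) (nat_lit 28) (.e (nat_lit 557109) (nat_lit 15) (.e (nat_lit 188452) (nat_lit 23) (.e (nat_lit 204855) (nat_lit 26) (.e (nat_lit 335905) (nat_lit 0) .nil))))))) (.g (nat_lit 0) .nil .nil))) 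
(.lf (nat_lit 86387) (.g (nat_lit 5040) (.e (nat_lit 1994) (nat_lit 137) (.e (nat_lit 663565) (nat_lit 3) (.e (nat_lit 57479) (nat_lit 28) (.e (nat_lit 557100) (nat_lit 13) (.e (nat_lit 172106) (nat_lit 10) (.e (nat_lit 434231) (nat_lit 23) (.e (nat_lit 532535) (nat_lit 9) (.e (nat_lit 335907) (nat_lit 0) .nil)))))))) (.g (nat_lit 7) .nil .nil)))) (.nd (nat_lit 4) 
(.lf (nat_lit 86379) (.g (nat_lit 3318) (.e (nat_lit 1994) (nat_lit 137) (.e (nat_lit 663565) (nat_lit 3) (.e (nat_lit 57479) (nat_lit 28) (.e (nat_lit 557095) (nat_lit 13) (.e (nat_lit 172097) (nat_lit 9) (.e (nat_lit 426125) (nat_lit 2) (.e (nat_lit 196666) (nat_lit 13) (.e (nat_lit 65543) (nat_lit 0) .nil)))))))) (.g (nat_lit 4) .nil .nil))) 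
(.lf (nat_lit 86395) (.g (nat_lit 4180) (.e (nat_lit 1994) (nat_lit 137) (.e (nat_lit 663565) (nat_lit 3) (.e (nat_lit 57479) (nat_lit 28) (.e (nat_lit 557101) (nat_lit 13) (.e (nat_lit 172115) (nat_lit 10) (.e (nat_lit 434231) (nat_lit 23) (.e (nat_lit 532527) (nat_lit 9) (.e (nat_lit 335907) (nat_lit 0) .nil)))))))) (.g (nat_lit 6) .nil .nil))))) (.nd (nat_lit 3) (.nd (nat_lit 4) 
(.lf (nat_lit 86375) (.g (nat_lit 4473) (.e (nat_lit 1994) (nat_lit 137) (.e (nat_lit 663565) (nat_lit 3) (.e (nat_lit 57478) (nat_lit 28) (.e (nat_lit 557109) (nat_lit 15) (.e (nat_lit 188452) (nat_lit 23) (.e (nat_lit 212736) (nat_lit 26) (.e (nat_lit 335907) (nat_lit 0) .nil))))))) (.g (nat_lit 5) .nil .nil))) 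
(.lf (nat_lit 86391) (.g (nat_lit 4184) (.e (nat_lit 1994) (nat_lit 137) (.e (nat_lit 663565) (nat_lit 3) (.e (nat_lit 57479) (nat_lit 28) (.e (nat_lit 557101) (nat_lit 13) (.e (nat_lit 172097) (nat_lit 9) (.e (nat_lit 426140) (nat_lit 3) (.e (nat_lit 204855) (nat_lit 26) (.e (nat_lit 335905) (nat_lit 0) .nil)))))))) (.g (nat_lit 7) .nil .nil)))) (.nd (nat_lit 4) 
(.lf (nat_lit 86383) (.g (nat_lit 4985) (.e (nat_lit 1994) (nat_lit 137) (.e (nat_lit 663565) (nat_lit 3) (.e (nat_lit 57479) (nat_lit 28) (.e (nat_lit 557095) (nat_lit 13) (.e (nat_lit 172115) (nat_lit 10) (.e (nat_lit 434231) (nat_lit 23) (.e (nat_lit 532535) (nat_lit 9) (.e (nat_lit 335905) (nat_lit 0) .nil)))))))) (.g (nat_lit 7) .nil .nil))) 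
(.lf (nat_lit 86399) (.g (nat_lit 4539) (.e (nat_lit 1994) (nat_lit 137) (.e (nat_lit 663565) (nat_lit 3) (.e (nat_lit 57479) (nat_lit 28) (.e (nat_lit 557101) (nat_lit 13) (.e (nat_lit 172115) (nat_lit 10) (.e (nat_lit 434231) (nat_lit 23) (.e (nat_lit 532535) (nat_lit 9) (.e (nat_lit 335908) (nat_lit 0) .nil)))))))) (.g (nat_lit 7) .nil .nil))))))))

noncomputable def tv1172 : DT := (.nd (nat_lit 0) (.nd (nat_lit 1) (.nd (nat_lit 2) (.nd (nat_lit 3) (.nd (nat_lit 4) (.nd (nat_lit 5) 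
(.lf (nat_lit 86400) (.g (nat_lit 3574) (.e (nat_lit 1994) (nat_lit 137) (.e (nat_lit 663565) (nat_lit 3) (.e (nat_lit 57479) (nat_lit 28) (.e (nat_lit 557109) (nat_lit 15) (.e (nat_lit 188458) (nat_lit 25) (.e (nat_lit 245784) (nat_lit 9) (.e (nat_lit 1440) (nat_lit 108) (.e (nat_lit 335907) (nat_lit 0) .nil)))))))) (.g (nat_lit 4) .nil .nil))) 
(.lf (nat_lit 86432) (.g (nat_lit 5903) (.e (nat_lit 1994) (nat_lit 137) (.e (nat_lit 663565) (nat_lit 3) (.e (nat_lit 57480) (nat_lit 28) (.e (nat_lit 557109) (nat_lit 15) (.e (nat_lit 188452) (nat_lit 23) (.e (nat_lit 204858) (nat_lit 26) (.e (nat_lit 335907) (nat_lit 0) .nil))))))) (.g (nat_lit 6) .nil .nil)))) (.nd (nat_lit 5) 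
(.lf (nat_lit 86416) (.g (nat_lit 3878) (.e (nat_lit 1994) (nat_lit 137) (.e (nat_lit 663565) (nat_lit 3) (.e (nat_lit 57480) (nat_lit 28) (.e (nat_lit 557107) (nat_lit 15) (.e (nat_lit 188450) (nat_lit 23) (.e (nat_lit 204855) (nat_lit 26) (.e (nat_lit 335907) (nat_lit 0) .nil))))))) (.g (nat_lit 6) .nil .nil))) 
(.lf (nat_lit 86448) (.g (nat_lit 1793) (.e (nat_lit 1994) (nat_lit 137) (.e (nat_lit 663566) (nat_lit 4) (.e (nat_lit 65630) (nat_lit 14) (.e (nat_lit 401459) (nat_lit 13) (.e (nat_lit 491264) (nat_lit 23) (.e (nat_lit 335907) (nat_lit 0) .nil)))))) (.g (nat_lit 4) .nil .nil))))) (.nd (nat_lit 4) (.nd (nat_lit 5) 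
(.lf (nat_lit 86408) (.g (nat_lit 4607) (.e (nat_lit 1994) (nat_lit 137) (.e (nat_lit 663565) (nat_lit 3) (.e (nat_lit 57480) (nat_lit 28) (.e (nat_lit 557098) (nat_lit 13) (.e (nat_lit 172115) (nat_lit 10) (.e (nat_lit 434231) (nat_lit 23) (.e (nat_lit 532535) (nat_lit 9) (.e (nat_lit 335886) (nat_lit 0) .nil)))))))) (.g (nat_lit 7) .nil .nil))) 
(.lf (nat_lit 86440) (.g (nat_lit 1152) (.e (nat_lit 1994) (nat_lit 137) (.e (nat_lit 663566) (nat_lit 4) (.e (nat_lit 65583) (nat_lit 7) (.e (nat_lit 319539) (nat_lit 19) (.e (nat_lit 311358) (nat_lit 29) (.e (nat_lit 352287) (nat_lit 20) .nil)))))) (.g (nat_lit 5) .nil .nil)))) (.nd (nat_lit 5) 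
(.lf (nat_lit 86424) (.g (nat_lit 4038) (.e (nat_lit 1994) (nat_lit 137) (.e (nat_lit 663565) (nat_lit 3) (.e (nat_lit 57480) (nat_lit 28) (.e (nat_lit 557109) (nat_lit 15) (.e (nat_lit 188449) (nat_lit 22) (.e (nat_lit 196666) (nat_lit 13) (.e (nat_lit 65539) (nat_lit 0) .nil))))))) (.g (nat_lit 6) .nil .nil))) 
(.lf (nat_lit 86456) (.g (nat_lit 1601) (.e (nat_lit 1994) (nat_lit 137) (.e (nat_lit 663567) (nat_lit 4) (.e (nat_lit 65584) (nat_lit 7) (.e (nat_lit 319506) (nat_lit 10) (.e (nat_lit 5722) (nat_lit 312) (.e (nat_lit 317) (nat_lit 23) (.e (nat_lit 352287) (nat_lit 20) .nil))))))) (.g (nat_lit 4) .nil .nil)))))) (.nd (nat_lit 3) (.nd (nat_lit 4) (.nd (nat_lit 5) 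
(.lf (nat_lit 86404) (.g (nat_lit 4080) (.e (nat_lit 1994) (nat_lit 137) (.e (nat_lit 663565) (nat_lit 3) (.e (nat_lit 57480) (nat_lit 28) (.e (nat_lit 557098) (nat_lit 13) (.e (nat_lit 172097) (nat_lit 9) (.e (nat_lit 426140) (nat_lit 3) (.e (nat_lit 204855) (nat_lit 26) (.e (nat_lit 335905) (nat_lit 0) .nil)))))))) (.g (nat_lit 7) .nil .nil))) 
(.lf (nat_lit 86436) (.g (nat_lit 2091) (.e (nat_lit 1994) (nat_lit 137) (.e (nat_lit 663565) (nat_lit 3) (.e (nat_lit 57520) (nat_lit 44) (.e (nat_lit 688177) (nat_lit 16) (.e (nat_lit 65583) (nat_lit 7) (.e (nat_lit 319530) (nat_lit 16) (.e (nat_lit 286748) (nat_lit 9) (.e (nat_lit 335891) (nat_lit 0) .nil)))))))) (.g (nat_lit 4) .nil .nil)))) (.nd (nat_lit 5) 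
(.lf (nat_lit 86420) (.g (nat_lit 3312) (.e (nat_lit 1994) (nat_lit 137) (.e (nat_lit 663565) (nat_lit 3) (.e (nat_lit 57480) (nat_lit 28) (.e (nat_lit 557108) (nat_lit 15) (.e (nat_lit 188452) (nat_lit 23) (.e (nat_lit 204851) (nat_lit 26) (.e (nat_lit 335939) (nat_lit 0) .nil))))))) (.g (nat_lit 5) .nil .nil))) 
(.lf (nat_lit 86452) (.g (nat_lit 2093) (.e (nat_lit 1994) (nat_lit 137) (.e (nat_lit 663567) (nat_lit 4) (.e (nat_lit 65583) (nat_lit 7) (.e (nat_lit 319539) (nat_lit 19) (.e (nat_lit 311358) (nat_lit 29) (.e (nat_lit 352283) (nat_lit 20) .nil)))))) (.g (nat_lit 0) .nil .nil))))) (.nd (nat_lit 4) (.nd (nat_lit 5) 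
(.lf (nat_lit 86412) (.g (nat_lit 3905) (.e (nat_lit 1994) (nat_lit 137) (.e (nat_lit 663565) (nat_lit 3) (.e (nat_lit 57480) (nat_lit 28) (.e (nat_lit 557107) (nat_lit 15) (.e (nat_lit 188447) (nat_lit 22) (.e (nat_lit 196666) (nat_lit 13) (.e (nat_lit 65536) (nat_lit 0) .nil))))))) (.g (nat_lit 6) .nil .nil))) 
(.lf (nat_lit 86444) (.g (nat_lit 2430) (.e (nat_lit 1994) (nat_lit 137) (.e (nat_lit 663566) (nat_lit 4) (.e (nat_lit 65630) (nat_lit 14) (.e (nat_lit 401438) (nat_lit 9) (.e (nat_lit 426542) (nat_lit 29) (.e (nat_lit 352287) (nat_lit 20) .nil)))))) (.g (nat_lit 0) .nil .nil)))) (.nd (nat_lit 5) 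
(.lf (nat_lit 86428) (.g (nat_lit 4612) (.e (nat_lit 1994) (nat_lit 137) (.e (nat_lit 663565) (nat_lit 3) (.e (nat_lit 57480) (nat_lit 28) (.e (nat_lit 557109) (nat_lit 15) (.e (nat_lit 188452) (nat_lit 23) (.e (nat_lit 204855) (nat_lit 26) (.e (nat_lit 335907) (nat_lit 0) .nil))))))) (.g (nat_lit 7) .nil .nil))) 
(.lf (nat_lit 86460) (.g (nat_lit 1868) (.e (nat_lit 1994) (nat_lit 137) (.e (nat_lit 663567) (nat_lit 4) (.e (nat_lit 65585) (nat_lit 7) (.e (nat_lit 319539) (nat_lit 19) (.e (nat_lit 311358) (nat_lit 29) (.e (nat_lit 352283) (nat_lit 20) .nil)))))) (.g (nat_lit 0) .nil .nil))))))) (.nd (nat_lit 2) (.nd (nat_lit 3) (.nd (nat_lit 4) (.nd (nat_lit 5) 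
(.lf (nat_lit 86402) (.g (nat_lit 4364) (.e (nat_lit 1994) (nat_lit 137) (.e (nat_lit 663565) (nat_lit 3) (.e (nat_lit 57480) (nat_lit 28) (.e (nat_lit 557098) (nat_lit 13) (.e (nat_lit 172097) (nat_lit 9) (.e (nat_lit 426125) (nat_lit 2) (.e (nat_lit 196666) (nat_lit 13) (.e (nat_lit 65539) (nat_lit 0) .nil)))))))) (.g (nat_lit 7) .nil .nil))) 
(.lf (nat_lit 86434) (.g (nat_lit 4241) (.e (nat_lit 1994) (nat_lit 137) (.e (nat_lit 663565) (nat_lit 3) (.e (nat_lit 57480) (nat_lit 28) (.e (nat_lit 557109) (nat_lit 15) (.e (nat_lit 188458) (nat_lit 25) (.e (nat_lit 245784) (nat_lit 9) (.e (nat_lit 1440) (nat_lit 108) (.e (nat_lit 335907) (nat_lit 0) .nil)))))))) (.g (nat_lit 5) .nil .nil)))) (.nd (nat_lit 5) 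
(.lf (nat_lit 86418) (.g (nat_lit 3308) (.e (nat_lit 1994) (nat_lit 137) (.e (nat_lit 663565) (nat_lit 3) (.e (nat_lit 57480) (nat_lit 28) (.e (nat_lit 557107) (nat_lit 15) (.e (nat_lit 188450) (nat_lit 23) (.e (nat_lit 204858) (nat_lit 26) (.e (nat_lit 335907) (nat_lit 0) .nil))))))) (.g (nat_lit 5) .nil .nil))) 
(.lf (nat_lit 86450) (.g (nat_lit 1091) (.e (nat_lit 1994) (nat_lit 137) (.e (nat_lit 663567) (nat_lit 4) (.e (nat_lit 65542) (nat_lit 0) (.e (nat_lit 6218) (nat_lit 333) (.e (nat_lit 57864) (nat_lit 256) .nil))))) .nil)))) (.nd (nat_lit 4) (.nd (nat_lit 5) 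
(.lf (nat_lit 86410) (.g (nat_lit 4843) (.e (nat_lit 1994) (nat_lit 137) (.e (nat_lit 663565) (nat_lit 3) (.e (nat_lit 57480) (nat_lit 28) (.e (nat_lit 557098) (nat_lit 13) (.e (nat_lit 172115) (nat_lit 10) (.e (nat_lit 434231) (nat_lit 23) (.e (nat_lit 532535) (nat_lit 9) (.e (nat_lit 335907) (nat_lit 0) .nil)))))))) (.g (nat_lit 7) .nil .nil))) 
(.lf (nat_lit 86442) (.g (nat_lit 1773) (.e (nat_lit 1994) (nat_lit 137) (.e (nat_lit 663566) (nat_lit 4) (.e (nat_lit 65624) (nat_lit 12) (.e (nat_lit 385094) (nat_lit 49) (.e (nat_lit 778326) (nat_lit 6) (.e (nat_lit 81935) (nat_lit 20) .nil)))))) (.g (nat_lit 4) .nil .nil)))) (.nd (nat_lit 5) 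
(.lf (nat_lit 86426) (.g (nat_lit 3351) (.e (nat_lit 1994) (nat_lit 137) (.e (nat_lit 663565) (nat_lit 3) (.e (nat_lit 57480) (nat_lit 28) (.e (nat_lit 557109) (nat_lit 15) (.e (nat_lit 188452) (nat_lit 23) (.e (nat_lit 204850) (nat_lit 26) (.e (nat_lit 335907) (nat_lit 0) .nil))))))) (.g (nat_lit 5) .nil .nil))) 
(.lf (nat_lit 86458) (.g (nat_lit 1803) (.e (nat_lit 1994) (nat_lit 137) (.e (nat_lit 663567) (nat_lit 4) (.e (nat_lit 65584) (nat_lit 7) (.e (nat_lit 319539) (nat_lit 19) (.e (nat_lit 311358) (nat_lit 29) (.e (nat_lit 352286) (nat_lit 20) .nil)))))) (.g (nat_lit 6) .nil .nil)))))) (.nd (nat_lit 3) (.nd (nat_lit 4) (.nd (nat_lit 5) 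
(.lf (nat_lit 86406) (.g (nat_lit 4102) (.e (nat_lit 1994) (nat_lit 137) (.e (nat_lit 663565) (nat_lit 3) (.e (nat_lit 57480) (nat_lit 28) (.e (nat_lit 557098) (nat_lit 13) (.e (nat_lit 172097) (nat_lit 9) (.e (nat_lit 426140) (nat_lit 3) (.e (nat_lit 204855) (nat_lit 26) (.e (nat_lit 335908) (nat_lit 0) .nil)))))))) (.g (nat_lit 7) .nil .nil))) 
(.lf (nat_lit 86438) (.g (nat_lit 4284) (.e (nat_lit 1994) (nat_lit 137) (.e (nat_lit 663565) (nat_lit 3) (.e (nat_lit 57520) (nat_lit 44) (.e (nat_lit 688177) (nat_lit 16) (.e (nat_lit 65586) (nat_lit 7) (.e (nat_lit 319531) (nat_lit 16) (.e (nat_lit 286745) (nat_lit 9) (.e (nat_lit 335907) (nat_lit 0) .nil)))))))) (.g (nat_lit 7) .nil .nil)))) (.nd (nat_lit 5) 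
(.lf (nat_lit 86422) (.g (nat_lit 5868) (.e (nat_lit 1994) (nat_lit 137) (.e (nat_lit 663565) (nat_lit 3) (.e (nat_lit 57480) (nat_lit 28) (.e (nat_lit 557108) (nat_lit 15) (.e (nat_lit 188452) (nat_lit 23) (.e (nat_lit 204858) (nat_lit 26) (.e (nat_lit 335907) (nat_lit 0) .nil))))))) (.g (nat_lit 5) .nil .nil))) 
(.lf (nat_lit 86454) (.g (nat_lit 2068) (.e (nat_lit 1994) (nat_lit 137) (.e (nat_lit 663567) (nat_lit 4) (.e (nat_lit 65583) (nat_lit 7) (.e (nat_lit 319539) (nat_lit 19) (.e (nat_lit 311358) (nat_lit 29) (.e (nat_lit 352287) (nat_lit 20) .nil)))))) (.g (nat_lit 0) .nil .nil))))) (.nd (nat_lit 4) (.nd (nat_lit 5) 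
(.lf (nat_lit 86414) (.g (nat_lit 3692) (.e (nat_lit 1994) (nat_lit 137) (.e (nat_lit 663565) (nat_lit 3) (.e (nat_lit 57480) (nat_lit 28) (.e (nat_lit 557107) (nat_lit 15) (.e (nat_lit 188447) (nat_lit 22) (.e (nat_lit 196666) (nat_lit 13) (.e (nat_lit 65543) (nat_lit 0) .nil))))))) (.g (nat_lit 6) .nil .nil))) 
(.lf (nat_lit 86446) (.g (nat_lit 2044) (.e (nat_lit 1994) (nat_lit 137) (.e (nat_lit 663566) (nat_lit 4) (.e (nat_lit 65630) (nat_lit 14) (.e (nat_lit 401459) (nat_lit 13) (.e (nat_lit 483386) (nat_lit 23) (.e (nat_lit 335905) (nat_lit 0) .nil)))))) (.g (nat_lit 5) .nil .nil)))) (.nd (nat_lit 5) 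
(.lf (nat_lit 86430) (.g (nat_lit 5143) (.e (nat_lit 1994) (nat_lit 137) (.e (nat_lit 663565) (nat_lit 3) (.e (nat_lit 57480) (nat_lit 28) (.e (nat_lit 557109) (nat_lit 15) (.e (nat_lit 188452) (nat_lit 23) (.e (nat_lit 204856) (nat_lit 26) (.e (nat_lit 335907) (nat_lit 0) .nil))))))) (.g (nat_lit 7) .nil .nil))) 
(.lf (nat_lit 86462) (.g (nat_lit 1838) (.e (nat_lit 1994) (nat_lit 137) (.e (nat_lit 663567) (nat_lit 4) (.e (nat_lit 65585) (nat_lit 7) (.e (nat_lit 319539) (nat_lit 19) (.e (nat_lit 311358) (nat_lit 29) (.e (nat_lit 352287) (nat_lit 20) .nil)))))) (.g (nat_lit 0) .nil .nil)))))))) (.nd (nat_lit 1) (.nd (nat_lit 2) (.nd (nat_lit 3) (.nd (nat_lit 4) (.nd (nat_lit 5) 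
(.lf (nat_lit 86401) (.g (nat_lit 4589) (.e (nat_lit 1994) (nat_lit 137) (.e (nat_lit 663565) (nat_lit 3) (.e (nat_lit 57480) (nat_lit 28) (.e (nat_lit 557098) (nat_lit 13) (.e (nat_lit 172097) (nat_lit 9) (.e (nat_lit 426125) (nat_lit 2) (.e (nat_lit 196666) (nat_lit 13) (.e (nat_lit 65536) (nat_lit 0) .nil)))))))) (.g (nat_lit 7) .nil .nil))) 
(.lf (nat_lit 86433) (.g (nat_lit 2661) (.e (nat_lit 1994) (nat_lit 137) (.e (nat_lit 663565) (nat_lit 3) (.e (nat_lit 57480) (nat_lit 28) (.e (nat_lit 557109) (nat_lit 15) (.e (nat_lit 188458) (nat_lit 25) .nil))))) .nil))) (.nd (nat_lit 5) 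
(.lf (nat_lit 86417) (.g (nat_lit 3299) (.e (nat_lit 1994) (nat_lit 137) (.e (nat_lit 663565) (nat_lit 3) (.e (nat_lit 57480) (nat_lit 28) (.e (nat_lit 557107) (nat_lit 15) (.e (nat_lit 188450) (nat_lit 23) (.e (nat_lit 204855) (nat_lit 26) (.e (nat_lit 335908) (nat_lit 0) .nil))))))) (.g (nat_lit 6) .nil .nil))) 
(.lf (nat_lit 86449) (.g (nat_lit 1231) (.e (nat_lit 1994) (nat_lit 137) (.e (nat_lit 663567) (nat_lit 4) (.e (nat_lit 65542) (nat_lit 0) (.e (nat_lit 6113) (nat_lit 332) (.e (nat_lit 1376) (nat_lit 104) (.e (nat_lit 303155) (nat_lit 29) (.e (nat_lit 352287) (nat_lit 20) .nil))))))) (.g (nat_lit 4) .nil .nil))))) (.nd (nat_lit 4) (.nd (nat_lit 5) 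
(.lf (nat_lit 86409) (.g (nat_lit 5262) (.e (nat_lit 1994) (nat_lit 137) (.e (nat_lit 663565) (nat_lit 3) (.e (nat_lit 57480) (nat_lit 28) (.e (nat_lit 557098) (nat_lit 13) (.e (nat_lit 172115) (nat_lit 10) (.e (nat_lit 434231) (nat_lit 23) (.e (nat_lit 532535) (nat_lit 9) (.e (nat_lit 335905) (nat_lit 0) .nil)))))))) (.g (nat_lit 7) .nil .nil))) 
(.lf (nat_lit 86441) (.g (nat_lit 1874) (.e (nat_lit 1994) (nat_lit 137) (.e (nat_lit 663566) (nat_lit 4) (.e (nat_lit 65610) (nat_lit 10) (.e (nat_lit 344169) (nat_lit 40) (.e (nat_lit 671764) (nat_lit 6) (.e (nat_lit 81931) (nat_lit 20) .nil)))))) (.g (nat_lit 6) .nil .nil)))) (.nd (nat_lit 5) 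
(.lf (nat_lit 86425) (.g (nat_lit 4027) (.e (nat_lit 1994) (nat_lit 137) (.e (nat_lit 663565) (nat_lit 3) (.e (nat_lit 57480) (nat_lit 28) (.e (nat_lit 557109) (nat_lit 15) (.e (nat_lit 188449) (nat_lit 22) (.e (nat_lit 196666) (nat_lit 13) (.e (nat_lit 65543) (nat_lit 0) .nil))))))) (.g (nat_lit 6) .nil .nil))) 
(.lf (nat_lit 86457) (.g (nat_lit 1407) (.e (nat_lit 1994) (nat_lit 137) (.e (nat_lit 663567) (nat_lit 4) (.e (nat_lit 65584) (nat_lit 7) (.e (nat_lit 319506) (nat_lit 10) (.e (nat_lit 5723) (nat_lit 312) .nil))))) .nil))))) (.nd (nat_lit 3) (.nd (nat_lit 4) (.nd (nat_lit 5) 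
(.lf (nat_lit 86405) (.g (nat_lit 4645) (.e (nat_lit 1994) (nat_lit 137) (.e (nat_lit 663565) (nat_lit 3) (.e (nat_lit 57480) (nat_lit 28) (.e (nat_lit 557098) (nat_lit 13) (.e (nat_lit 172097) (nat_lit 9) (.e (nat_lit 426140) (nat_lit 3) (.e (nat_lit 204855) (nat_lit 26) (.e (nat_lit 335907) (nat_lit 0) .nil)))))))) (.g (nat_lit 8) .nil .nil))) 
(.lf (nat_lit 86437) (.g (nat_lit 1754) (.e (nat_lit 1994) (nat_lit 137) (.e (nat_lit 663565) (nat_lit 3) (.e (nat_lit 57520) (nat_lit 44) (.e (nat_lit 688177) (nat_lit 16) (.e (nat_lit 65583) (nat_lit 7) (.e (nat_lit 319530) (nat_lit 16) (.e (nat_lit 286748) (nat_lit 9) (.e (nat_lit 335905) (nat_lit 0) .nil)))))))) (.g (nat_lit 4) .nil .nil)))) (.nd (nat_lit 5) 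
(.lf (nat_lit 86421) (.g (nat_lit 4056) (.e (nat_lit 1994) (nat_lit 137) (.e (nat_lit 663565) (nat_lit 3) (.e (nat_lit 57480) (nat_lit 28) (.e (nat_lit 557108) (nat_lit 15) (.e (nat_lit 188452) (nat_lit 23) (.e (nat_lit 204852) (nat_lit 26) (.e (nat_lit 343808) (nat_lit 0) .nil))))))) (.g (nat_lit 6) .nil .nil))) 
(.lf (nat_lit 86453) (.g (nat_lit 1880) (.e (nat_lit 1994) (nat_lit 137) (.e (nat_lit 663567) (nat_lit 4) (.e (nat_lit 65583) (nat_lit 7) (.e (nat_lit 319539) (nat_lit 19) (.e (nat_lit 311358) (nat_lit 29) (.e (nat_lit 352286) (nat_lit 20) .nil)))))) (.g (nat_lit 6) .nil .nil))))) (.nd (nat_lit 4) (.nd (nat_lit 5) 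
(.lf (nat_lit 86413) (.g (nat_lit 3693) (.e (nat_lit 1994) (nat_lit 137) (.e (nat_lit 663565) (nat_lit 3) (.e (nat_lit 57480) (nat_lit 28) (.e (nat_lit 557107) (nat_lit 15) (.e (nat_lit 188447) (nat_lit 22) (.e (nat_lit 196666) (nat_lit 13) (.e (nat_lit 65539) (nat_lit 0) .nil))))))) (.g (nat_lit 6) .nil .nil))) 
(.lf (nat_lit 86445) (.g (nat_lit 869) (.e (nat_lit 1994) (nat_lit 137) (.e (nat_lit 663566) (nat_lit 4) (.e (nat_lit 65630) (nat_lit 14) (.e (nat_lit 401456) (nat_lit 13) .nil)))) .nil))) (.nd (nat_lit 5) 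
(.lf (nat_lit 86429) (.g (nat_lit 4053) (.e (nat_lit 1994) (nat_lit 137) (.e (nat_lit 663565) (nat_lit 3) (.e (nat_lit 57480) (nat_lit 28) (.e (nat_lit 557109) (nat_lit 15) (.e (nat_lit 188452) (nat_lit 23) (.e (nat_lit 204855) (nat_lit 26) (.e (nat_lit 335908) (nat_lit 0) .nil))))))) (.g (nat_lit 6) .nil .nil))) 
(.lf (nat_lit 86461) (.g (nat_lit 1636) (.e (nat_lit 1994) (nat_lit 137) (.e (nat_lit 663567) (nat_lit 4) (.e (nat_lit 65585) (nat_lit 7) (.e (nat_lit 319539) (nat_lit 19) (.e (nat_lit 311358) (nat_lit 29) (.e (nat_lit 352286) (nat_lit 20) .nil)))))) (.g (nat_lit 6) .nil .nil))))))) (.nd (nat_lit 2) (.nd (nat_lit 3) (.nd (nat_lit 4) (.nd (nat_lit 5) 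
(.lf (nat_lit 86403) (.g (nat_lit 4464) (.e (nat_lit 1994) (nat_lit 137) (.e (nat_lit 663565) (nat_lit 3) (.e (nat_lit 57480) (nat_lit 28) (.e (nat_lit 557098) (nat_lit 13) (.e (nat_lit 172097) (nat_lit 9) (.e (nat_lit 426125) (nat_lit 2) (.e (nat_lit 196666) (nat_lit 13) (.e (nat_lit 65543) (nat_lit 0) .nil)))))))) (.g (nat_lit 7) .nil .nil))) 
(.lf (nat_lit 86435) (.g (nat_lit 4214) (.e (nat_lit 1994) (nat_lit 137) (.e (nat_lit 663565) (nat_lit 3) (.e (nat_lit 57520) (nat_lit 44) (.e (nat_lit 688177) (nat_lit 16) (.e (nat_lit 65583) (nat_lit 7) (.e (nat_lit 319530) (nat_lit 16) (.e (nat_lit 286745) (nat_lit 9) (.e (nat_lit 335907) (nat_lit 0) .nil)))))))) (.g (nat_lit 7) .nil .nil)))) (.nd (nat_lit 5) 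
(.lf (nat_lit 86419) (.g (nat_lit 2295) (.e (nat_lit 1994) (nat_lit 137) (.e (nat_lit 663565) (nat_lit 3) (.e (nat_lit 57480) (nat_lit 28) (.e (nat_lit 557108) (nat_lit 15) (.e (nat_lit 188452) (nat_lit 23) (.e (nat_lit 204816) (nat_lit 17) (.e (nat_lit 6434) (nat_lit 343) (.e (nat_lit 1004) (nat_lit 81) .nil)))))))) (.g (nat_lit 4) .nil .nil))) 
(.lf (nat_lit 86451) (.g (nat_lit 435) (.e (nat_lit 1994) (nat_lit 137) (.e (nat_lit 663567) (nat_lit 4) (.e (nat_lit 65581) (nat_lit 7) .nil))) .nil)))) (.nd (nat_lit 4) (.nd (nat_lit 5) 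
(.lf (nat_lit 86411) (.g (nat_lit 4534) (.e (nat_lit 1994) (nat_lit 137) (.e (nat_lit 663565) (nat_lit 3) (.e (nat_lit 57480) (nat_lit 28) (.e (nat_lit 557098) (nat_lit 13) (.e (nat_lit 172115) (nat_lit 10) (.e (nat_lit 434231) (nat_lit 23) (.e (nat_lit 532535) (nat_lit 9) (.e (nat_lit 335908) (nat_lit 0) .nil)))))))) (.g (nat_lit 7) .nil .nil))) 
(.lf (nat_lit 86443) (.g (nat_lit 2427) (.e (nat_lit 1994) (nat_lit 137) (.e (nat_lit 663566) (nat_lit 4) (.e (nat_lit 65630) (nat_lit 14) (.e (nat_lit 401438) (nat_lit 9) (.e (nat_lit 426542) (nat_lit 29) (.e (nat_lit 352283) (nat_lit 20) .nil)))))) (.g (nat_lit 0) .nil .nil)))) (.nd (nat_lit 5) 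
(.lf (nat_lit 86427) (.g (nat_lit 4151) (.e (nat_lit 1994) (nat_lit 137) (.e (nat_lit 663565) (nat_lit 3) (.e (nat_lit 57480) (nat_lit 28) (.e (nat_lit 557109) (nat_lit 15) (.e (nat_lit 188452) (nat_lit 23) (.e (nat_lit 204855) (nat_lit 26) (.e (nat_lit 335905) (nat_lit 0) .nil))))))) (.g (nat_lit 6) .nil .nil))) 
(.lf (nat_lit 86459) (.g (nat_lit 2008) (.e (nat_lit 1994) (nat_lit 137) (.e (nat_lit 663567) (nat_lit 4) (.e (nat_lit 65584) (nat_lit 7) (.e (nat_lit 319539) (nat_lit 19) (.e (nat_lit 311358) (nat_lit 29) (.e (nat_lit 352287) (nat_lit 20) .nil)))))) (.g (nat_lit 0) .nil .nil)))))) (.nd (nat_lit 3) (.nd (nat_lit 4) (.nd (nat_lit 5) 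
(.lf (nat_lit 86407) (.g (nat_lit 4143) (.e (nat_lit 1994) (nat_lit 137) (.e (nat_lit 663565) (nat_lit 3) (.e (nat_lit 57480) (nat_lit 28) (.e (nat_lit 557098) (nat_lit 13) (.e (nat_lit 172115) (nat_lit 10) (.e (nat_lit 434231) (nat_lit 23) (.e (nat_lit 532527) (nat_lit 9) (.e (nat_lit 335907) (nat_lit 0) .nil)))))))) (.g (nat_lit 6) .nil .nil))) 
(.lf (nat_lit 86439) (.g (nat_lit 1180) (.e (nat_lit 1994) (nat_lit 137) (.e (nat_lit 663566) (nat_lit 4) (.e (nat_lit 65583) (nat_lit 7) (.e (nat_lit 319539) (nat_lit 19) (.e (nat_lit 311358) (nat_lit 29) (.e (nat_lit 352283) (nat_lit 20) .nil)))))) (.g (nat_lit 5) .nil .nil)))) (.nd (nat_lit 5) 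
(.lf (nat_lit 86423) (.g (nat_lit 4178) (.e (nat_lit 1994) (nat_lit 137) (.e (nat_lit 663565) (nat_lit 3) (.e (nat_lit 57480) (nat_lit 28) (.e (nat_lit 557109) (nat_lit 15) (.e (nat_lit 188449) (nat_lit 22) (.e (nat_lit 196666) (nat_lit 13) (.e (nat_lit 65536) (nat_lit 0) .nil))))))) (.g (nat_lit 6) .nil .nil))) 
(.lf (nat_lit 86455) (.g (nat_lit 1612) (.e (nat_lit 1994) (nat_lit 137) (.e (nat_lit 663567) (nat_lit 4) (.e (nat_lit 65584) (nat_lit 7) (.e (nat_lit 319506) (nat_lit 10) (.e (nat_lit 5721) (nat_lit 312) (.e (nat_lit 317) (nat_lit 23) (.e (nat_lit 352287) (nat_lit 20) .nil))))))) (.g (nat_lit 4) .nil .nil))))) (.nd (nat_lit 4) (.nd (nat_lit 5) 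
(.lf (nat_lit 86415) (.g (nat_lit 2632) (.e (nat_lit 1994) (nat_lit 137) (.e (nat_lit 663565) (nat_lit 3) (.e (nat_lit 57480) (nat_lit 28) (.e (nat_lit 557107) (nat_lit 15) (.e (nat_lit 188450) (nat_lit 23) (.e (nat_lit 204850) (nat_lit 26) (.e (nat_lit 335907) (nat_lit 0) .nil))))))) (.g (nat_lit 4) .nil .nil))) 
(.lf (nat_lit 86447) (.g (nat_lit 1768) (.e (nat_lit 1994) (nat_lit 137) (.e (nat_lit 663566) (nat_lit 4) (.e (nat_lit 65630) (nat_lit 14) (.e (nat_lit 401459) (nat_lit 13) (.e (nat_lit 491264) (nat_lit 23) .nil))))) .nil))) (.nd (nat_lit 5) 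
(.lf (nat_lit 86431) (.g (nat_lit 5247) (.e (nat_lit 1994) (nat_lit 137) (.e (nat_lit 663565) (nat_lit 3) (.e (nat_lit 57480) (nat_lit 28) (.e (nat_lit 557109) (nat_lit 15) (.e (nat_lit 188452) (nat_lit 23) (.e (nat_lit 204857) (nat_lit 26) (.e (nat_lit 335907) (nat_lit 0) .nil))))))) (.g (nat_lit 5) .nil .nil))) 
(.lf (nat_lit 86463) (.g (nat_lit 2053) (.e (nat_lit 1994) (nat_lit 137) (.e (nat_lit 663567) (nat_lit 4) (.e (nat_lit 65586) (nat_lit 7) (.e (nat_lit 319539) (nat_lit 19) (.e (nat_lit 311358) (nat_lit 29) (.e (nat_lit 352286) (nat_lit 20) .nil)))))) (.g (nat_lit 6) .nil .nil)))))))))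

noncomputable def tv1173 : DT := (.nd (nat_lit 0) (.nd (nat_lit 1) (.nd (nat_lit 2) (.nd (nat_lit 3) (.nd (nat_lit 4) (.nd (nat_lit 5) 
(.lf (nat_lit 86464) (.g (nat_lit 1607) (.e (nat_lit 1994) (nat_lit 137) (.e (nat_lit 663567) (nat_lit 4) (.e (nat_lit 65593) (nat_lit 9) (.e (nat_lit 335907) (nat_lit 0) (.e (nat_lit 1994) (nat_lit 137) (.e (nat_lit 663569) (nat_lit 6) (.e (nat_lit 81935) (nat_lit 20) .nil))))))) (.g (nat_lit 4) .nil .nil))) 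
(.lf (nat_lit 86496) (.g (nat_lit 1926) (.e (nat_lit 1994) (nat_lit 137) (.e (nat_lit 663567) (nat_lit 4) (.e (nat_lit 65617) (nat_lit 10) (.e (nat_lit 344168) (nat_lit 40) (.e (nat_lit 671762) (nat_lit 4) (.e (nat_lit 65593) (nat_lit 9) (.e (nat_lit 335907) (nat_lit 0) .nil))))))) (.g (nat_lit 4) .nil .nil)))) (.nd (nat_lit 5) 
(.lf (nat_lit 86480) (.g (nat_lit 1939) (.e (nat_lit 1994) (nat_lit 137) (.e (nat_lit 663567) (nat_lit 4) (.e (nat_lit 65610) (nat_lit 10) (.e (nat_lit 344097) (nat_lit 18) (.e (nat_lit 5907) (nat_lit 320) (.e (nat_lit 1219) (nat_lit 90) (.e (nat_lit 81934) (nat_lit 20) .nil))))))) (.g (nat_lit 4) .nil .nil))) 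
(.lf (nat_lit 86512) (.g (nat_lit 1525) (.e (nat_lit 1994) (nat_lit 137) (.e (nat_lit 663567) (nat_lit 4) (.e (nat_lit 65622) (nat_lit 12) (.e (nat_lit 385092) (nat_lit 49) (.e (nat_lit 778326) (nat_lit 6) (.e (nat_lit 81935) (nat_lit 20) .nil)))))) (.g (nat_lit 4) .nil .nil))))) (.nd (nat_lit 4) (.nd (nat_lit 5) 
(.lf (nat_lit 86472) (.g (nat_lit 2010) (.e (nat_lit 1994) (nat_lit 137) (.e (nat_lit 663567) (nat_lit 4) (.e (nat_lit 65604) (nat_lit 9) (.e (nat_lit 335907) (nat_lit 0) (.e (nat_lit 1994) (nat_lit 137) (.e (nat_lit 663569) (nat_lit 6) (.e (nat_lit 81935) (nat_lit 20) .nil))))))) (.g (nat_lit 5) .nil .nil))) 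
(.lf (nat_lit 86504) (.g (nat_lit 1944) (.e (nat_lit 1994) (nat_lit 137) (.e (nat_lit 663567) (nat_lit 4) (.e (nat_lit 65619) (nat_lit 10) (.e (nat_lit 344097) (nat_lit 18) (.e (nat_lit 5907) (nat_lit 320) (.e (nat_lit 1219) (nat_lit 90) (.e (nat_lit 81931) (nat_lit 20) .nil))))))) (.g (nat_lit 4) .nil .nil)))) (.nd (nat_lit 5) 
(.lf (nat_lit 86488) (.g (nat_lit 2169) (.e (nat_lit 1994) (nat_lit 137) (.e (nat_lit 663567) (nat_lit 4) (.e (nat_lit 65611) (nat_lit 10) (.e (nat_lit 344168) (nat_lit 40) (.e (nat_lit 671764) (nat_lit 6) (.e (nat_lit 81931) (nat_lit 20) .nil)))))) (.g (nat_lit 0) .nil .nil))) 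
(.lf (nat_lit 86520) (.g (nat_lit 1814) (.e (nat_lit 1994) (nat_lit 137) (.e (nat_lit 663567) (nat_lit 4) (.e (nat_lit 65623) (nat_lit 12) (.e (nat_lit 385093) (nat_lit 49) (.e (nat_lit 778326) (nat_lit 6) (.e (nat_lit 81935) (nat_lit 20) .nil)))))) (.g (nat_lit 4) .nil .nil)))))) (.nd (nat_lit 3) (.nd (nat_lit 4) (.nd (nat_lit 5) 
(.lf (nat_lit 86468) (.g (nat_lit 1824) (.e (nat_lit 1994) (nat_lit 137) (.e (nat_lit 663567) (nat_lit 4) (.e (nat_lit 65598) (nat_lit 9) (.e (nat_lit 335907) (nat_lit 0) (.e (nat_lit 1996) (nat_lit 137) (.e (nat_lit 663567) (nat_lit 4) (.e (nat_lit 65593) (nat_lit 9) (.e (nat_lit 335907) (nat_lit 0) .nil)))))))) (.g (nat_lit 4) .nil .nil))) 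
(.lf (nat_lit 86500) (.g (nat_lit 2614) (.e (nat_lit 1994) (nat_lit 137) (.e (nat_lit 663567) (nat_lit 4) (.e (nat_lit 65617) (nat_lit 10) (.e (nat_lit 344169) (nat_lit 40) (.e (nat_lit 671762) (nat_lit 4) (.e (nat_lit 65593) (nat_lit 9) (.e (nat_lit 335907) (nat_lit 0) .nil))))))) (.g (nat_lit 5) .nil .nil)))) (.nd (nat_lit 5) 
(.lf (nat_lit 86484) (.g (nat_lit 2504) (.e (nat_lit 1994) (nat_lit 137) (.e (nat_lit 663567) (nat_lit 4) (.e (nat_lit 65610) (nat_lit 10) (.e (nat_lit 344168) (nat_lit 40) (.e (nat_lit 671764) (nat_lit 6) (.e (nat_lit 81935) (nat_lit 20) .nil)))))) (.g (nat_lit 0) .nil .nil))) 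
(.lf (nat_lit 86516) (.g (nat_lit 1793) (.e (nat_lit 1994) (nat_lit 137) (.e (nat_lit 663567) (nat_lit 4) (.e (nat_lit 65622) (nat_lit 12) (.e (nat_lit 385093) (nat_lit 49) (.e (nat_lit 786176) (nat_lit 6) .nil))))) .nil)))) (.nd (nat_lit 4) (.nd (nat_lit 5) 
(.lf (nat_lit 86476) (.g (nat_lit 3004) (.e (nat_lit 1994) (nat_lit 137) (.e (nat_lit 663567) (nat_lit 4) (.e (nat_lit 65610) (nat_lit 10) (.e (nat_lit 344097) (nat_lit 18) (.e (nat_lit 5905) (nat_lit 320) (.e (nat_lit 1190) (nat_lit 88) (.e (nat_lit 65604) (nat_lit 9) (.e (nat_lit 335907) (nat_lit 0) .nil)))))))) (.g (nat_lit 5) .nil .nil))) 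
(.lf (nat_lit 86508) (.g (nat_lit 2043) (.e (nat_lit 1994) (nat_lit 137) (.e (nat_lit 663567) (nat_lit 4) (.e (nat_lit 65620) (nat_lit 10) (.e (nat_lit 344168) (nat_lit 40) (.e (nat_lit 671764) (nat_lit 6) (.e (nat_lit 81931) (nat_lit 20) .nil)))))) (.g (nat_lit 6) .nil .nil)))) (.nd (nat_lit 5) 
(.lf (nat_lit 86492) (.g (nat_lit 1980) (.e (nat_lit 1994) (nat_lit 137) (.e (nat_lit 663567) (nat_lit 4) (.e (nat_lit 65616) (nat_lit 10) (.e (nat_lit 344168) (nat_lit 40) (.e (nat_lit 671764) (nat_lit 6) (.e (nat_lit 81931) (nat_lit 20) .nil)))))) (.g (nat_lit 6) .nil .nil))) 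
(.lf (nat_lit 86524) (.g (nat_lit 2171) (.e (nat_lit 1994) (nat_lit 137) (.e (nat_lit 663567) (nat_lit 4) (.e (nat_lit 65624) (nat_lit 12) (.e (nat_lit 385092) (nat_lit 49) (.e (nat_lit 778326) (nat_lit 6) (.e (nat_lit 81935) (nat_lit 20) .nil)))))) (.g (nat_lit 6) .nil .nil))))))) (.nd (nat_lit 2) (.nd (nat_lit 3) (.nd (nat_lit 4) (.nd (nat_lit 5) 
(.lf (nat_lit 86466) (.g (nat_lit 2860) (.e (nat_lit 1994) (nat_lit 137) (.e (nat_lit 663567) (nat_lit 4) (.e (nat_lit 65598) (nat_lit 9) (.e (nat_lit 335907) (nat_lit 0) (.e (nat_lit 1994) (nat_lit 137) (.e (nat_lit 663567) (nat_lit 4) (.e (nat_lit 65598) (nat_lit 9) (.e (nat_lit 335907) (nat_lit 0) .nil)))))))) (.g (nat_lit 6) .nil .nil))) 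
(.lf (nat_lit 86498) (.g (nat_lit 2109) (.e (nat_lit 1994) (nat_lit 137) (.e (nat_lit 663567) (nat_lit 4) (.e (nat_lit 65617) (nat_lit 10) (.e (nat_lit 344168) (nat_lit 40) (.e (nat_lit 671764) (nat_lit 6) (.e (nat_lit 81934) (nat_lit 20) .nil)))))) (.g (nat_lit 5) .nil .nil)))) (.nd (nat_lit 5) 
(.lf (nat_lit 86482) (.g (nat_lit 2348) (.e (nat_lit 1994) (nat_lit 137) (.e (nat_lit 663567) (nat_lit 4) (.e (nat_lit 65610) (nat_lit 10) (.e (nat_lit 344168) (nat_lit 40) (.e (nat_lit 671764) (nat_lit 6) (.e (nat_lit 81931) (nat_lit 20) .nil)))))) (.g (nat_lit 0) .nil .nil))) 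
(.lf (nat_lit 86514) (.g (nat_lit 2382) (.e (nat_lit 1994) (nat_lit 137) (.e (nat_lit 663567) (nat_lit 4) (.e (nat_lit 65622) (nat_lit 12) (.e (nat_lit 385093) (nat_lit 49) (.e (nat_lit 778326) (nat_lit 6) (.e (nat_lit 81931) (nat_lit 20) .nil)))))) (.g (nat_lit 0) .nil .nil))))) (.nd (nat_lit 4) (.nd (nat_lit 5) 
(.lf (nat_lit 86474) (.g (nat_lit 1896) (.e (nat_lit 1994) (nat_lit 137) (.e (nat_lit 663567) (nat_lit 4) (.e (nat_lit 65604) (nat_lit 9) (.e (nat_lit 335907) (nat_lit 0) (.e (nat_lit 1996) (nat_lit 137) (.e (nat_lit 663569) (nat_lit 6) (.e (nat_lit 81935) (nat_lit 20) .nil))))))) (.g (nat_lit 5) .nil .nil))) 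
(.lf (nat_lit 86506) (.g (nat_lit 3002) (.e (nat_lit 1994) (nat_lit 137) (.e (nat_lit 663567) (nat_lit 4) (.e (nat_lit 65619) (nat_lit 10) (.e (nat_lit 344168) (nat_lit 40) (.e (nat_lit 671762) (nat_lit 4) (.e (nat_lit 65598) (nat_lit 9) (.e (nat_lit 335907) (nat_lit 0) .nil))))))) (.g (nat_lit 6) .nil .nil)))) (.nd (nat_lit 5) 
(.lf (nat_lit 86490) (.g (nat_lit 2337) (.e (nat_lit 1994) (nat_lit 137) (.e (nat_lit 663567) (nat_lit 4) (.e (nat_lit 65611) (nat_lit 10) (.e (nat_lit 344168) (nat_lit 40) (.e (nat_lit 671764) (nat_lit 6) (.e (nat_lit 81935) (nat_lit 20) .nil)))))) (.g (nat_lit 0) .nil .nil))) 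
(.lf (nat_lit 86522) (.g (nat_lit 2385) (.e (nat_lit 1994) (nat_lit 137) (.e (nat_lit 663567) (nat_lit 4) (.e (nat_lit 65623) (nat_lit 12) (.e (nat_lit 385094) (nat_lit 49) (.e (nat_lit 778326) (nat_lit 6) (.e (nat_lit 81935) (nat_lit 20) .nil)))))) (.g (nat_lit 0) .nil .nil)))))) (.nd (nat_lit 3) (.nd (nat_lit 4) (.nd (nat_lit 5) 
(.lf (nat_lit 86470) (.g (nat_lit 3216) (.e (nat_lit 1994) (nat_lit 137) (.e (nat_lit 663567) (nat_lit 4) (.e (nat_lit 65598) (nat_lit 9) (.e (nat_lit 335997) (nat_lit 1) (.e (nat_lit 57872) (nat_lit 264) (.e (nat_lit 1221) (nat_lit 90) (.e (nat_lit 81931) (nat_lit 20) .nil))))))) (.g (nat_lit 6) .nil .nil))) 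
(.lf (nat_lit 86502) (.g (nat_lit 2891) (.e (nat_lit 1994) (nat_lit 137) (.e (nat_lit 663567) (nat_lit 4) (.e (nat_lit 65619) (nat_lit 10) (.e (nat_lit 344097) (nat_lit 18) (.e (nat_lit 5906) (nat_lit 320) (.e (nat_lit 1221) (nat_lit 90) (.e (nat_lit 81931) (nat_lit 20) .nil))))))) (.g (nat_lit 6) .nil .nil)))) (.nd (nat_lit 5) 
(.lf (nat_lit 86486) (.g (nat_lit 2526) (.e (nat_lit 1994) (nat_lit 137) (.e (nat_lit 663567) (nat_lit 4) (.e (nat_lit 65610) (nat_lit 10) (.e (nat_lit 344169) (nat_lit 40) (.e (nat_lit 671762) (nat_lit 4) (.e (nat_lit 65604) (nat_lit 9) (.e (nat_lit 335907) (nat_lit 0) .nil))))))) (.g (nat_lit 5) .nil .nil))) 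
(.lf (nat_lit 86518) (.g (nat_lit 2813) (.e (nat_lit 1994) (nat_lit 137) (.e (nat_lit 663567) (nat_lit 4) (.e (nat_lit 65622) (nat_lit 12) (.e (nat_lit 385105) (nat_lit 50) (.e (nat_lit 786478) (nat_lit 29) (.e (nat_lit 352287) (nat_lit 20) .nil)))))) (.g (nat_lit 6) .nil .nil))))) (.nd (nat_lit 4) (.nd (nat_lit 5) 
(.lf (nat_lit 86478) (.g (nat_lit 1773) (.e (nat_lit 1994) (nat_lit 137) (.e (nat_lit 663567) (nat_lit 4) (.e (nat_lit 65610) (nat_lit 10) (.e (nat_lit 344097) (nat_lit 18) (.e (nat_lit 5907) (nat_lit 320) .nil))))) .nil)) 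
(.lf (nat_lit 86510) (.g (nat_lit 399) (.e (nat_lit 1994) (nat_lit 137) (.e (nat_lit 663567) (nat_lit 4) (.e (nat_lit 65622) (nat_lit 12) .nil))) .nil))) (.nd (nat_lit 5) 
(.lf (nat_lit 86494) (.g (nat_lit 2147) (.e (nat_lit 1994) (nat_lit 137) (.e (nat_lit 663567) (nat_lit 4) (.e (nat_lit 65616) (nat_lit 10) (.e (nat_lit 344168) (nat_lit 40) (.e (nat_lit 671764) (nat_lit 6) (.e (nat_lit 81935) (nat_lit 20) .nil)))))) (.g (nat_lit 6) .nil .nil))) 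
(.lf (nat_lit 86526) (.g (nat_lit 1879) (.e (nat_lit 1994) (nat_lit 137) (.e (nat_lit 663567) (nat_lit 4) (.e (nat_lit 65624) (nat_lit 12) (.e (nat_lit 385092) (nat_lit 49) (.e (nat_lit 786176) (nat_lit 6) (.e (nat_lit 81935) (nat_lit 20) .nil)))))) (.g (nat_lit 4) .nil .nil)))))))) (.nd (nat_lit 1) (.nd (nat_lit 2) (.nd (nat_lit 3) (.nd (nat_lit 4) (.nd (nat_lit 5) 
(.lf (nat_lit 86465) (.g (nat_lit 1500) (.e (nat_lit 1994) (nat_lit 137) (.e (nat_lit 663567) (nat_lit 4) (.e (nat_lit 65593) (nat_lit 9) (.e (nat_lit 335907) (nat_lit 0) (.e (nat_lit 1996) (nat_lit 137) (.e (nat_lit 663569) (nat_lit 6) (.e (nat_lit 81935) (nat_lit 20) .nil))))))) (.g (nat_lit 4) .nil .nil))) 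
(.lf (nat_lit 86497) (.g (nat_lit 2470) (.e (nat_lit 1994) (nat_lit 137) (.e (nat_lit 663567) (nat_lit 4) (.e (nat_lit 65617) (nat_lit 10) (.e (nat_lit 344168) (nat_lit 40) (.e (nat_lit 671764) (nat_lit 6) (.e (nat_lit 81931) (nat_lit 20) .nil)))))) (.g (nat_lit 6) .nil .nil)))) (.nd (nat_lit 5) 
(.lf (nat_lit 86481) (.g (nat_lit 2905) (.e (nat_lit 1994) (nat_lit 137) (.e (nat_lit 663567) (nat_lit 4) (.e (nat_lit 65610) (nat_lit 10) (.e (nat_lit 344168) (nat_lit 40) (.e (nat_lit 671762) (nat_lit 4) (.e (nat_lit 65598) (nat_lit 9) (.e (nat_lit 335907) (nat_lit 0) .nil))))))) (.g (nat_lit 6) .nil .nil))) 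
(.lf (nat_lit 86513) (.g (nat_lit 2127) (.e (nat_lit 1994) (nat_lit 137) (.e (nat_lit 663567) (nat_lit 4) (.e (nat_lit 65622) (nat_lit 12) (.e (nat_lit 385093) (nat_lit 49) (.e (nat_lit 778321) (nat_lit 4) (.e (nat_lit 65598) (nat_lit 9) (.e (nat_lit 335907) (nat_lit 0) .nil))))))) (.g (nat_lit 4) .nil .nil))))) (.nd (nat_lit 4) (.nd (nat_lit 5) 
(.lf (nat_lit 86473) (.g (nat_lit 1644) (.e (nat_lit 1994) (nat_lit 137) (.e (nat_lit 663567) (nat_lit 4) (.e (nat_lit 65604) (nat_lit 9) (.e (nat_lit 335907) (nat_lit 0) (.e (nat_lit 1996) (nat_lit 137) (.e (nat_lit 663567) (nat_lit 4) (.e (nat_lit 65604) (nat_lit 9) (.e (nat_lit 335907) (nat_lit 0) .nil)))))))) (.g (nat_lit 4) .nil .nil))) 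
(.lf (nat_lit 86505) (.g (nat_lit 1980) (.e (nat_lit 1994) (nat_lit 137) (.e (nat_lit 663567) (nat_lit 4) (.e (nat_lit 65619) (nat_lit 10) (.e (nat_lit 344097) (nat_lit 18) (.e (nat_lit 5907) (nat_lit 320) (.e (nat_lit 1219) (nat_lit 90) (.e (nat_lit 81934) (nat_lit 20) .nil))))))) (.g (nat_lit 4) .nil .nil)))) (.nd (nat_lit 5) 
(.lf (nat_lit 86489) (.g (nat_lit 1826) (.e (nat_lit 1994) (nat_lit 137) (.e (nat_lit 663567) (nat_lit 4) (.e (nat_lit 65611) (nat_lit 10) (.e (nat_lit 344168) (nat_lit 40) (.e (nat_lit 671764) (nat_lit 6) (.e (nat_lit 81934) (nat_lit 20) .nil)))))) (.g (nat_lit 5) .nil .nil))) 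
(.lf (nat_lit 86521) (.g (nat_lit 1517) (.e (nat_lit 1994) (nat_lit 137) (.e (nat_lit 663567) (nat_lit 4) (.e (nat_lit 65623) (nat_lit 12) (.e (nat_lit 385093) (nat_lit 49) (.e (nat_lit 786176) (nat_lit 6) .nil))))) .nil))))) (.nd (nat_lit 3) (.nd (nat_lit 4) (.nd (nat_lit 5) 
(.lf (nat_lit 86469) (.g (nat_lit 2238) (.e (nat_lit 1994) (nat_lit 137) (.e (nat_lit 663567) (nat_lit 4) (.e (nat_lit 65598) (nat_lit 9) (.e (nat_lit 335907) (nat_lit 0) (.e (nat_lit 1996) (nat_lit 137) (.e (nat_lit 663567) (nat_lit 4) (.e (nat_lit 65604) (nat_lit 9) (.e (nat_lit 335907) (nat_lit 0) .nil)))))))) (.g (nat_lit 5) .nil .nil))) 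
(.lf (nat_lit 86501) (.g (nat_lit 1838) (.e (nat_lit 1994) (nat_lit 137) (.e (nat_lit 663567) (nat_lit 4) (.e (nat_lit 65619) (nat_lit 10) (.e (nat_lit 344090) (nat_lit 18) (.e (nat_lit 5896) (nat_lit 320) (.e (nat_lit 7936) (nat_lit 90) (.e (nat_lit 81935) (nat_lit 20) .nil))))))) (.g (nat_lit 4) .nil .nil)))) (.nd (nat_lit 5) 
(.lf (nat_lit 86485) (.g (nat_lit 3252) (.e (nat_lit 1994) (nat_lit 137) (.e (nat_lit 663567) (nat_lit 4) (.e (nat_lit 65610) (nat_lit 10) (.e (nat_lit 344169) (nat_lit 40) (.e (nat_lit 671762) (nat_lit 4) (.e (nat_lit 65598) (nat_lit 9) (.e (nat_lit 335907) (nat_lit 0) .nil))))))) (.g (nat_lit 6) .nil .nil))) 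
(.lf (nat_lit 86517) (.g (nat_lit 2272) (.e (nat_lit 1994) (nat_lit 137) (.e (nat_lit 663567) (nat_lit 4) (.e (nat_lit 65622) (nat_lit 12) (.e (nat_lit 385094) (nat_lit 49) (.e (nat_lit 778326) (nat_lit 6) (.e (nat_lit 81931) (nat_lit 20) .nil)))))) (.g (nat_lit 0) .nil .nil))))) (.nd (nat_lit 4) (.nd (nat_lit 5) 
(.lf (nat_lit 86477) (.g (nat_lit 2026) (.e (nat_lit 1994) (nat_lit 137) (.e (nat_lit 663567) (nat_lit 4) (.e (nat_lit 65610) (nat_lit 10) (.e (nat_lit 344097) (nat_lit 18) (.e (nat_lit 5906) (nat_lit 320) (.e (nat_lit 7936) (nat_lit 90) (.e (nat_lit 81935) (nat_lit 20) .nil))))))) (.g (nat_lit 4) .nil .nil))) 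
(.lf (nat_lit 86509) (.g (nat_lit 2212) (.e (nat_lit 1994) (nat_lit 137) (.e (nat_lit 663567) (nat_lit 4) (.e (nat_lit 65620) (nat_lit 10) (.e (nat_lit 344168) (nat_lit 40) (.e (nat_lit 671764) (nat_lit 6) (.e (nat_lit 81935) (nat_lit 20) .nil)))))) (.g (nat_lit 6) .nil .nil)))) (.nd (nat_lit 5) 
(.lf (nat_lit 86493) (.g (nat_lit 1628) (.e (nat_lit 1994) (nat_lit 137) (.e (nat_lit 663567) (nat_lit 4) (.e (nat_lit 65616) (nat_lit 10) (.e (nat_lit 344168) (nat_lit 40) (.e (nat_lit 671764) (nat_lit 6) (.e (nat_lit 81934) (nat_lit 20) .nil)))))) (.g (nat_lit 5) .nil .nil))) 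
(.lf (nat_lit 86525) (.g (nat_lit 1463) (.e (nat_lit 1994) (nat_lit 137) (.e (nat_lit 663567) (nat_lit 4) (.e (nat_lit 65624) (nat_lit 12) (.e (nat_lit 385092) (nat_lit 49) (.e (nat_lit 786176) (nat_lit 6) .nil))))) .nil)))))) (.nd (nat_lit 2) (.nd (nat_lit 3) (.nd (nat_lit 4) (.nd (nat_lit 5) 
(.lf (nat_lit 86467) (.g (nat_lit 2358) (.e (nat_lit 1994) (nat_lit 137) (.e (nat_lit 663567) (nat_lit 4) (.e (nat_lit 65598) (nat_lit 9) (.e (nat_lit 335907) (nat_lit 0) (.e (nat_lit 1994) (nat_lit 137) (.e (nat_lit 663567) (nat_lit 4) (.e (nat_lit 65604) (nat_lit 9) (.e (nat_lit 335907) (nat_lit 0) .nil)))))))) (.g (nat_lit 5) .nil .nil))) 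
(.lf (nat_lit 86499) (.g (nat_lit 2638) (.e (nat_lit 1994) (nat_lit 137) (.e (nat_lit 663567) (nat_lit 4) (.e (nat_lit 65617) (nat_lit 10) (.e (nat_lit 344168) (nat_lit 40) (.e (nat_lit 671764) (nat_lit 6) (.e (nat_lit 81935) (nat_lit 20) .nil)))))) (.g (nat_lit 6) .nil .nil)))) (.nd (nat_lit 5) 
(.lf (nat_lit 86483) (.g (nat_lit 1991) (.e (nat_lit 1994) (nat_lit 137) (.e (nat_lit 663567) (nat_lit 4) (.e (nat_lit 65610) (nat_lit 10) (.e (nat_lit 344168) (nat_lit 40) (.e (nat_lit 671764) (nat_lit 6) (.e (nat_lit 81934) (nat_lit 20) .nil)))))) (.g (nat_lit 5) .nil .nil))) 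
(.lf (nat_lit 86515) (.g (nat_lit 2510) (.e (nat_lit 1994) (nat_lit 137) (.e (nat_lit 663567) (nat_lit 4) (.e (nat_lit 65622) (nat_lit 12) (.e (nat_lit 385093) (nat_lit 49) (.e (nat_lit 778326) (nat_lit 6) (.e (nat_lit 81935) (nat_lit 20) .nil)))))) (.g (nat_lit 0) .nil .nil))))) (.nd (nat_lit 4) (.nd (nat_lit 5) 
(.lf (nat_lit 86475) (.g (nat_lit 3217) (.e (nat_lit 1994) (nat_lit 137) (.e (nat_lit 663567) (nat_lit 4) (.e (nat_lit 65604) (nat_lit 9) (.e (nat_lit 335997) (nat_lit 1) (.e (nat_lit 57872) (nat_lit 264) (.e (nat_lit 1221) (nat_lit 90) (.e (nat_lit 81931) (nat_lit 20) .nil))))))) (.g (nat_lit 7) .nil .nil))) 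
(.lf (nat_lit 86507) (.g (nat_lit 2100) (.e (nat_lit 1994) (nat_lit 137) (.e (nat_lit 663567) (nat_lit 4) (.e (nat_lit 65619) (nat_lit 10) (.e (nat_lit 344168) (nat_lit 40) (.e (nat_lit 671764) (nat_lit 6) (.e (nat_lit 81934) (nat_lit 20) .nil)))))) (.g (nat_lit 5) .nil .nil)))) (.nd (nat_lit 5) 
(.lf (nat_lit 86491) (.g (nat_lit 3012) (.e (nat_lit 1994) (nat_lit 137) (.e (nat_lit 663567) (nat_lit 4) (.e (nat_lit 65611) (nat_lit 10) (.e (nat_lit 344169) (nat_lit 40) (.e (nat_lit 671762) (nat_lit 4) (.e (nat_lit 65598) (nat_lit 9) (.e (nat_lit 335907) (nat_lit 0) .nil))))))) (.g (nat_lit 6) .nil .nil))) 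
(.lf (nat_lit 86523) (.g (nat_lit 2085) (.e (nat_lit 1994) (nat_lit 137) (.e (nat_lit 663567) (nat_lit 4) (.e (nat_lit 65624) (nat_lit 12) (.e (nat_lit 385092) (nat_lit 49) (.e (nat_lit 778326) (nat_lit 6) (.e (nat_lit 81931) (nat_lit 20) .nil)))))) (.g (nat_lit 6) .nil .nil)))))) (.nd (nat_lit 3) (.nd (nat_lit 4) (.nd (nat_lit 5) 
(.lf (nat_lit 86471) (.g (nat_lit 1856) (.e (nat_lit 1994) (nat_lit 137) (.e (nat_lit 663567) (nat_lit 4) (.e (nat_lit 65604) (nat_lit 9) (.e (nat_lit 335907) (nat_lit 0) (.e (nat_lit 1994) (nat_lit 137) (.e (nat_lit 663567) (nat_lit 4) (.e (nat_lit 65604) (nat_lit 9) (.e (nat_lit 335907) (nat_lit 0) .nil)))))))) (.g (nat_lit 4) .nil .nil))) 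
(.lf (nat_lit 86503) (.g (nat_lit 1809) (.e (nat_lit 1994) (nat_lit 137) (.e (nat_lit 663567) (nat_lit 4) (.e (nat_lit 65619) (nat_lit 10) (.e (nat_lit 344097) (nat_lit 18) (.e (nat_lit 5906) (nat_lit 320) (.e (nat_lit 7936) (nat_lit 90) (.e (nat_lit 81935) (nat_lit 20) .nil))))))) (.g (nat_lit 4) .nil .nil)))) (.nd (nat_lit 5) 
(.lf (nat_lit 86487) (.g (nat_lit 2734) (.e (nat_lit 1994) (nat_lit 137) (.e (nat_lit 663567) (nat_lit 4) (.e (nat_lit 65611) (nat_lit 10) (.e (nat_lit 344168) (nat_lit 40) (.e (nat_lit 671762) (nat_lit 4) (.e (nat_lit 65598) (nat_lit 9) (.e (nat_lit 335907) (nat_lit 0) .nil))))))) (.g (nat_lit 6) .nil .nil))) 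
(.lf (nat_lit 86519) (.g (nat_lit 1672) (.e (nat_lit 1994) (nat_lit 137) (.e (nat_lit 663567) (nat_lit 4) (.e (nat_lit 65623) (nat_lit 12) (.e (nat_lit 385093) (nat_lit 49) (.e (nat_lit 778326) (nat_lit 6) (.e (nat_lit 81931) (nat_lit 20) .nil)))))) (.g (nat_lit 4) .nil .nil))))) (.nd (nat_lit 4) (.nd (nat_lit 5) 
(.lf (nat_lit 86479) (.g (nat_lit 1914) (.e (nat_lit 1994) (nat_lit 137) (.e (nat_lit 663567) (nat_lit 4) (.e (nat_lit 65610) (nat_lit 10) (.e (nat_lit 344097) (nat_lit 18) (.e (nat_lit 5907) (nat_lit 320) (.e (nat_lit 1219) (nat_lit 90) (.e (nat_lit 81931) (nat_lit 20) .nil))))))) (.g (nat_lit 4) .nil .nil))) 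
(.lf (nat_lit 86511) (.g (nat_lit 1423) (.e (nat_lit 1994) (nat_lit 137) (.e (nat_lit 663567) (nat_lit 4) (.e (nat_lit 65622) (nat_lit 12) (.e (nat_lit 385092) (nat_lit 49) (.e (nat_lit 778326) (nat_lit 6) (.e (nat_lit 81931) (nat_lit 20) .nil)))))) (.g (nat_lit 4) .nil .nil)))) (.nd (nat_lit 5) 
(.lf (nat_lit 86495) (.g (nat_lit 2053) (.e (nat_lit 1994) (nat_lit 137) (.e (nat_lit 663567) (nat_lit 4) (.e (nat_lit 65617) (nat_lit 10) (.e (nat_lit 344091) (nat_lit 18) (.e (nat_lit 5896) (nat_lit 320) (.e (nat_lit 7936) (nat_lit 90) (.e (nat_lit 81935) (nat_lit 20) .nil))))))) (.g (nat_lit 4) .nil .nil))) 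
(.lf (nat_lit 86527) (.g (nat_lit 2859) (.e (nat_lit 1994) (nat_lit 137) (.e (nat_lit 663567) (nat_lit 4) (.e (nat_lit 65624) (nat_lit 12) (.e (nat_lit 385093) (nat_lit 49) (.e (nat_lit 778321) (nat_lit 4) (.e (nat_lit 65598) (nat_lit 9) (.e (nat_lit 335907) (nat_lit 0) .nil))))))) (.g (nat_lit 5) .nil .nil)))))))))

noncomputable def tv1174 : DT := (.nd (nat_lit 0) (.nd (nat_lit 1) (.nd (nat_lit 2) (.nd (nat_lit 3) (.nd (nat_lit 4) (.nd (nat_lit 5) 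
(.lf (nat_lit 86528) (.g (nat_lit 1760) (.e (nat_lit 1994) (nat_lit 137) (.e (nat_lit 663567) (nat_lit 4) (.e (nat_lit 65624) (nat_lit 12) (.e (nat_lit 385093) (nat_lit 49) (.e (nat_lit 786176) (nat_lit 6) .nil))))) .nil)) 
(.lf (nat_lit 86560) (.g (nat_lit 2158) (.e (nat_lit 1994) (nat_lit 137) (.e (nat_lit 663567) (nat_lit 4) (.e (nat_lit 65630) (nat_lit 14) (.e (nat_lit 401437) (nat_lit 9) (.e (nat_lit 426482) (nat_lit 27) .nil))))) .nil))) (.nd (nat_lit 5) 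
(.lf (nat_lit 86544) (.g (nat_lit 2107) (.e (nat_lit 1994) (nat_lit 137) (.e (nat_lit 663567) (nat_lit 4) (.e (nat_lit 65628) (nat_lit 14) (.e (nat_lit 401458) (nat_lit 13) (.e (nat_lit 483386) (nat_lit 23) (.e (nat_lit 335907) (nat_lit 0) .nil)))))) (.g (nat_lit 4) .nil .nil))) 
(.lf (nat_lit 86576) (.g (nat_lit 3206) (.e (nat_lit 1994) (nat_lit 137) (.e (nat_lit 663567) (nat_lit 4) (.e (nat_lit 65630) (nat_lit 14) (.e (nat_lit 401459) (nat_lit 13) (.e (nat_lit 483386) (nat_lit 23) (.e (nat_lit 335907) (nat_lit 0) .nil)))))) (.g (nat_lit 5) .nil .nil))))) (.nd (nat_lit 4) (.nd (nat_lit 5) 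
(.lf (nat_lit 86536) (.g (nat_lit 2403) (.e (nat_lit 1994) (nat_lit 137) (.e (nat_lit 663567) (nat_lit 4) (.e (nat_lit 65628) (nat_lit 14) (.e (nat_lit 401437) (nat_lit 9) (.e (nat_lit 426509) (nat_lit 27) (.e (nat_lit 336093) (nat_lit 9) (.e (nat_lit 335907) (nat_lit 0) .nil))))))) (.g (nat_lit 6) .nil .nil))) 
(.lf (nat_lit 86568) (.g (nat_lit 2547) (.e (nat_lit 1994) (nat_lit 137) (.e (nat_lit 663567) (nat_lit 4) (.e (nat_lit 65630) (nat_lit 14) (.e (nat_lit 401457) (nat_lit 13) (.e (nat_lit 483389) (nat_lit 23) (.e (nat_lit 335907) (nat_lit 0) .nil)))))) (.g (nat_lit 4) .nil .nil)))) (.nd (nat_lit 5) 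
(.lf (nat_lit 86552) (.g (nat_lit 3408) (.e (nat_lit 1994) (nat_lit 137) (.e (nat_lit 663567) (nat_lit 4) (.e (nat_lit 65628) (nat_lit 14) (.e (nat_lit 401459) (nat_lit 13) (.e (nat_lit 483389) (nat_lit 23) (.e (nat_lit 335907) (nat_lit 0) .nil)))))) (.g (nat_lit 6) .nil .nil))) 
(.lf (nat_lit 86584) (.g (nat_lit 1764) (.e (nat_lit 1994) (nat_lit 137) (.e (nat_lit 663568) (nat_lit 5) (.e (nat_lit 73782) (nat_lit 32) (.e (nat_lit 3090) (nat_lit 191) (.e (nat_lit 483386) (nat_lit 23) (.e (nat_lit 335905) (nat_lit 0) .nil)))))) (.g (nat_lit 5) .nil .nil)))))) (.nd (nat_lit 3) (.nd (nat_lit 4) (.nd (nat_lit 5) 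
(.lf (nat_lit 86532) (.g (nat_lit 1023) (.e (nat_lit 1994) (nat_lit 137) (.e (nat_lit 663567) (nat_lit 4) (.e (nat_lit 65628) (nat_lit 14) (.e (nat_lit 401436) (nat_lit 9) .nil)))) .nil)) 
(.lf (nat_lit 86564) (.g (nat_lit 1781) (.e (nat_lit 1994) (nat_lit 137) (.e (nat_lit 663567) (nat_lit 4) (.e (nat_lit 65630) (nat_lit 14) (.e (nat_lit 401437) (nat_lit 9) (.e (nat_lit 426509) (nat_lit 27) (.e (nat_lit 336104) (nat_lit 9) (.e (nat_lit 335907) (nat_lit 0) .nil))))))) (.g (nat_lit 4) .nil .nil)))) (.nd (nat_lit 5) 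
(.lf (nat_lit 86548) (.g (nat_lit 2744) (.e (nat_lit 1994) (nat_lit 137) (.e (nat_lit 663567) (nat_lit 4) (.e (nat_lit 65628) (nat_lit 14) (.e (nat_lit 401459) (nat_lit 13) (.e (nat_lit 483386) (nat_lit 23) (.e (nat_lit 335905) (nat_lit 0) .nil)))))) (.g (nat_lit 6) .nil .nil))) 
(.lf (nat_lit 86580) (.g (nat_lit 2838) (.e (nat_lit 1994) (nat_lit 137) (.e (nat_lit 663567) (nat_lit 4) (.e (nat_lit 65630) (nat_lit 14) (.e (nat_lit 401459) (nat_lit 13) (.e (nat_lit 491264) (nat_lit 23) (.e (nat_lit 335907) (nat_lit 0) .nil)))))) (.g (nat_lit 4) .nil .nil))))) (.nd (nat_lit 4) (.nd (nat_lit 5) 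
(.lf (nat_lit 86540) (.g (nat_lit 2577) (.e (nat_lit 1994) (nat_lit 137) (.e (nat_lit 663567) (nat_lit 4) (.e (nat_lit 65628) (nat_lit 14) (.e (nat_lit 401457) (nat_lit 13) (.e (nat_lit 483378) (nat_lit 23) (.e (nat_lit 335907) (nat_lit 0) .nil)))))) (.g (nat_lit 5) .nil .nil))) 
(.lf (nat_lit 86572) (.g (nat_lit 2715) (.e (nat_lit 1994) (nat_lit 137) (.e (nat_lit 663567) (nat_lit 4) (.e (nat_lit 65630) (nat_lit 14) (.e (nat_lit 401458) (nat_lit 13) (.e (nat_lit 483387) (nat_lit 23) (.e (nat_lit 335907) (nat_lit 0) .nil)))))) (.g (nat_lit 6) .nil .nil)))) (.nd (nat_lit 5) 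
(.lf (nat_lit 86556) (.g (nat_lit 2572) (.e (nat_lit 1994) (nat_lit 137) (.e (nat_lit 663567) (nat_lit 4) (.e (nat_lit 65630) (nat_lit 14) (.e (nat_lit 401436) (nat_lit 9) (.e (nat_lit 426542) (nat_lit 29) (.e (nat_lit 352283) (nat_lit 20) .nil)))))) (.g (nat_lit 6) .nil .nil))) 
(.lf (nat_lit 86588) (.g (nat_lit 1399) (.e (nat_lit 1994) (nat_lit 137) (.e (nat_lit 663569) (nat_lit 6) (.e (nat_lit 81922) (nat_lit 0) (.e (nat_lit 3631) (nat_lit 227) (.e (nat_lit 786176) (nat_lit 6) (.e (nat_lit 81935) (nat_lit 20) .nil)))))) (.g (nat_lit 4) .nil .nil))))))) (.nd (nat_lit 2) (.nd (nat_lit 3) (.nd (nat_lit 4) (.nd (nat_lit 5) 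
(.lf (nat_lit 86530) (.g (nat_lit 2452) (.e (nat_lit 1994) (nat_lit 137) (.e (nat_lit 663567) (nat_lit 4) (.e (nat_lit 65624) (nat_lit 12) (.e (nat_lit 385094) (nat_lit 49) (.e (nat_lit 778326) (nat_lit 6) (.e (nat_lit 81931) (nat_lit 20) .nil)))))) (.g (nat_lit 0) .nil .nil))) 
(.lf (nat_lit 86562) (.g (nat_lit 2726) (.e (nat_lit 1994) (nat_lit 137) (.e (nat_lit 663567) (nat_lit 4) (.e (nat_lit 65630) (nat_lit 14) (.e (nat_lit 401437) (nat_lit 9) (.e (nat_lit 426504) (nat_lit 27) .nil))))) .nil))) (.nd (nat_lit 5) 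
(.lf (nat_lit 86546) (.g (nat_lit 2383) (.e (nat_lit 1994) (nat_lit 137) (.e (nat_lit 663567) (nat_lit 4) (.e (nat_lit 65628) (nat_lit 14) (.e (nat_lit 401458) (nat_lit 13) (.e (nat_lit 483388) (nat_lit 23) (.e (nat_lit 335907) (nat_lit 0) .nil)))))) (.g (nat_lit 5) .nil .nil))) 
(.lf (nat_lit 86578) (.g (nat_lit 3657) (.e (nat_lit 1994) (nat_lit 137) (.e (nat_lit 663567) (nat_lit 4) (.e (nat_lit 65630) (nat_lit 14) (.e (nat_lit 401459) (nat_lit 13) (.e (nat_lit 483387) (nat_lit 23) (.e (nat_lit 335907) (nat_lit 0) .nil)))))) (.g (nat_lit 6) .nil .nil))))) (.nd (nat_lit 4) (.nd (nat_lit 5) 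
(.lf (nat_lit 86538) (.g (nat_lit 1866) (.e (nat_lit 1994) (nat_lit 137) (.e (nat_lit 663567) (nat_lit 4) (.e (nat_lit 65628) (nat_lit 14) (.e (nat_lit 401438) (nat_lit 9) (.e (nat_lit 426509) (nat_lit 27) .nil))))) .nil)) 
(.lf (nat_lit 86570) (.g (nat_lit 2231) (.e (nat_lit 1994) (nat_lit 137) (.e (nat_lit 663567) (nat_lit 4) (.e (nat_lit 65630) (nat_lit 14) (.e (nat_lit 401458) (nat_lit 13) (.e (nat_lit 483378) (nat_lit 23) (.e (nat_lit 335907) (nat_lit 0) .nil)))))) (.g (nat_lit 5) .nil .nil)))) (.nd (nat_lit 5) 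
(.lf (nat_lit 86554) (.g (nat_lit 981) (.e (nat_lit 1994) (nat_lit 137) (.e (nat_lit 663567) (nat_lit 4) (.e (nat_lit 65629) (nat_lit 14) (.e (nat_lit 401459) (nat_lit 13) .nil)))) .nil)) 
(.lf (nat_lit 86586) (.g (nat_lit 324) (.e (nat_lit 1994) (nat_lit 137) (.e (nat_lit 663569) (nat_lit 6) (.e (nat_lit 81921) (nat_lit 0) .nil))) .nil))))) (.nd (nat_lit 3) (.nd (nat_lit 4) (.nd (nat_lit 5) 
(.lf (nat_lit 86534) (.g (nat_lit 2488) (.e (nat_lit 1994) (nat_lit 137) (.e (nat_lit 663567) (nat_lit 4) (.e (nat_lit 65628) (nat_lit 14) (.e (nat_lit 401437) (nat_lit 9) (.e (nat_lit 426480) (nat_lit 27) .nil))))) .nil)) 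
(.lf (nat_lit 86566) (.g (nat_lit 2700) (.e (nat_lit 1994) (nat_lit 137) (.e (nat_lit 663567) (nat_lit 4) (.e (nat_lit 65630) (nat_lit 14) (.e (nat_lit 401437) (nat_lit 9) (.e (nat_lit 426516) (nat_lit 27) .nil))))) .nil))) (.nd (nat_lit 5) 
(.lf (nat_lit 86550) (.g (nat_lit 2734) (.e (nat_lit 1994) (nat_lit 137) (.e (nat_lit 663567) (nat_lit 4) (.e (nat_lit 65628) (nat_lit 14) (.e (nat_lit 401459) (nat_lit 13) (.e (nat_lit 483386) (nat_lit 23) (.e (nat_lit 335908) (nat_lit 0) .nil)))))) (.g (nat_lit 0) .nil .nil))) 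
(.lf (nat_lit 86582) (.g (nat_lit 1678) (.e (nat_lit 1994) (nat_lit 137) (.e (nat_lit 663568) (nat_lit 5) (.e (nat_lit 73781) (nat_lit 32) (.e (nat_lit 3090) (nat_lit 191) (.e (nat_lit 483386) (nat_lit 23) (.e (nat_lit 335908) (nat_lit 0) .nil)))))) (.g (nat_lit 4) .nil .nil))))) (.nd (nat_lit 4) (.nd (nat_lit 5) 
(.lf (nat_lit 86542) (.g (nat_lit 1812) (.e (nat_lit 1994) (nat_lit 137) (.e (nat_lit 663567) (nat_lit 4) (.e (nat_lit 65628) (nat_lit 14) (.e (nat_lit 401457) (nat_lit 13) (.e (nat_lit 491264) (nat_lit 23) .nil))))) .nil)) 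
(.lf (nat_lit 86574) (.g (nat_lit 3814) (.e (nat_lit 1994) (nat_lit 137) (.e (nat_lit 663567) (nat_lit 4) (.e (nat_lit 65630) (nat_lit 14) (.e (nat_lit 401459) (nat_lit 13) (.e (nat_lit 483344) (nat_lit 17) (.e (nat_lit 6434) (nat_lit 343) (.e (nat_lit 1004) (nat_lit 81) .nil))))))) (.g (nat_lit 5) .nil .nil)))) (.nd (nat_lit 5) 
(.lf (nat_lit 86558) (.g (nat_lit 2671) (.e (nat_lit 1994) (nat_lit 137) (.e (nat_lit 663567) (nat_lit 4) (.e (nat_lit 65630) (nat_lit 14) (.e (nat_lit 401436) (nat_lit 9) (.e (nat_lit 426542) (nat_lit 29) (.e (nat_lit 352287) (nat_lit 20) .nil)))))) (.g (nat_lit 0) .nil .nil))) 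
(.lf (nat_lit 86590) (.g (nat_lit 1153) (.e (nat_lit 1994) (nat_lit 137) (.e (nat_lit 663569) (nat_lit 6) (.e (nat_lit 81924) (nat_lit 0) (.e (nat_lit 3630) (nat_lit 227) (.e (nat_lit 778326) (nat_lit 6) (.e (nat_lit 81931) (nat_lit 20) .nil)))))) (.g (nat_lit 6) .nil .nil)))))))) (.nd (nat_lit 1) (.nd (nat_lit 2) (.nd (nat_lit 3) (.nd (nat_lit 4) (.nd (nat_lit 5) 
(.lf (nat_lit 86529) (.g (nat_lit 2169) (.e (nat_lit 1994) (nat_lit 137) (.e (nat_lit 663567) (nat_lit 4) (.e (nat_lit 65624) (nat_lit 12) (.e (nat_lit 385093) (nat_lit 49) (.e (nat_lit 786176) (nat_lit 6) (.e (nat_lit 81935) (nat_lit 20) .nil)))))) (.g (nat_lit 4) .nil .nil))) 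
(.lf (nat_lit 86561) (.g (nat_lit 2699) (.e (nat_lit 1994) (nat_lit 137) (.e (nat_lit 663567) (nat_lit 4) (.e (nat_lit 65630) (nat_lit 14) (.e (nat_lit 401437) (nat_lit 9) (.e (nat_lit 426496) (nat_lit 27) .nil))))) .nil))) (.nd (nat_lit 5) 
(.lf (nat_lit 86545) (.g (nat_lit 2701) (.e (nat_lit 1994) (nat_lit 137) (.e (nat_lit 663567) (nat_lit 4) (.e (nat_lit 65628) (nat_lit 14) (.e (nat_lit 401458) (nat_lit 13) (.e (nat_lit 483387) (nat_lit 23) (.e (nat_lit 335907) (nat_lit 0) .nil)))))) (.g (nat_lit 6) .nil .nil))) 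
(.lf (nat_lit 86577) (.g (nat_lit 2784) (.e (nat_lit 1994) (nat_lit 137) (.e (nat_lit 663567) (nat_lit 4) (.e (nat_lit 65630) (nat_lit 14) (.e (nat_lit 401459) (nat_lit 13) (.e (nat_lit 483386) (nat_lit 23) (.e (nat_lit 335908) (nat_lit 0) .nil)))))) (.g (nat_lit 5) .nil .nil))))) (.nd (nat_lit 4) (.nd (nat_lit 5) 
(.lf (nat_lit 86537) (.g (nat_lit 2200) (.e (nat_lit 1994) (nat_lit 137) (.e (nat_lit 663567) (nat_lit 4) (.e (nat_lit 65628) (nat_lit 14) (.e (nat_lit 401437) (nat_lit 9) (.e (nat_lit 426509) (nat_lit 27) (.e (nat_lit 336111) (nat_lit 9) (.e (nat_lit 335907) (nat_lit 0) .nil))))))) (.g (nat_lit 5) .nil .nil))) 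
(.lf (nat_lit 86569) (.g (nat_lit 2086) (.e (nat_lit 1994) (nat_lit 137) (.e (nat_lit 663567) (nat_lit 4) (.e (nat_lit 65630) (nat_lit 14) (.e (nat_lit 401457) (nat_lit 13) (.e (nat_lit 491264) (nat_lit 23) .nil))))) .nil))) (.nd (nat_lit 5) 
(.lf (nat_lit 86553) (.g (nat_lit 2262) (.e (nat_lit 1994) (nat_lit 137) (.e (nat_lit 663567) (nat_lit 4) (.e (nat_lit 65628) (nat_lit 14) (.e (nat_lit 401459) (nat_lit 13) (.e (nat_lit 491264) (nat_lit 23) .nil))))) .nil)) 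
(.lf (nat_lit 86585) (.g (nat_lit 1082) (.e (nat_lit 1994) (nat_lit 137) (.e (nat_lit 663568) (nat_lit 5) (.e (nat_lit 73786) (nat_lit 45) (.e (nat_lit 1374) (nat_lit 104) (.e (nat_lit 303155) (nat_lit 29) (.e (nat_lit 352287) (nat_lit 20) .nil)))))) (.g (nat_lit 4) .nil .nil)))))) (.nd (nat_lit 3) (.nd (nat_lit 4) (.nd (nat_lit 5) 
(.lf (nat_lit 86533) (.g (nat_lit 2370) (.e (nat_lit 1994) (nat_lit 137) (.e (nat_lit 663567) (nat_lit 4) (.e (nat_lit 65628) (nat_lit 14) (.e (nat_lit 401436) (nat_lit 9) (.e (nat_lit 426542) (nat_lit 29) (.e (nat_lit 352287) (nat_lit 20) .nil)))))) (.g (nat_lit 0) .nil .nil))) 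
(.lf (nat_lit 86565) (.g (nat_lit 2411) (.e (nat_lit 1994) (nat_lit 137) (.e (nat_lit 663567) (nat_lit 4) (.e (nat_lit 65630) (nat_lit 14) (.e (nat_lit 401437) (nat_lit 9) (.e (nat_lit 426509) (nat_lit 27) (.e (nat_lit 336111) (nat_lit 9) (.e (nat_lit 335907) (nat_lit 0) .nil))))))) (.g (nat_lit 5) .nil .nil)))) (.nd (nat_lit 5) 
(.lf (nat_lit 86549) (.g (nat_lit 3203) (.e (nat_lit 1994) (nat_lit 137) (.e (nat_lit 663567) (nat_lit 4) (.e (nat_lit 65628) (nat_lit 14) (.e (nat_lit 401459) (nat_lit 13) (.e (nat_lit 483386) (nat_lit 23) (.e (nat_lit 335907) (nat_lit 0) .nil)))))) (.g (nat_lit 0) .nil .nil))) 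
(.lf (nat_lit 86581) (.g (nat_lit 897) (.e (nat_lit 1994) (nat_lit 137) (.e (nat_lit 663568) (nat_lit 5) (.e (nat_lit 73781) (nat_lit 32) (.e (nat_lit 3087) (nat_lit 191) (.e (nat_lit 483389) (nat_lit 23) .nil))))) .nil)))) (.nd (nat_lit 4) (.nd (nat_lit 5) 
(.lf (nat_lit 86541) (.g (nat_lit 2876) (.e (nat_lit 1994) (nat_lit 137) (.e (nat_lit 663567) (nat_lit 4) (.e (nat_lit 65628) (nat_lit 14) (.e (nat_lit 401457) (nat_lit 13) (.e (nat_lit 483389) (nat_lit 23) (.e (nat_lit 335907) (nat_lit 0) .nil)))))) (.g (nat_lit 6) .nil .nil))) 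
(.lf (nat_lit 86573) (.g (nat_lit 2346) (.e (nat_lit 1994) (nat_lit 137) (.e (nat_lit 663567) (nat_lit 4) (.e (nat_lit 65630) (nat_lit 14) (.e (nat_lit 401458) (nat_lit 13) (.e (nat_lit 483388) (nat_lit 23) (.e (nat_lit 335907) (nat_lit 0) .nil)))))) (.g (nat_lit 4) .nil .nil)))) (.nd (nat_lit 5) 
(.lf (nat_lit 86557) (.g (nat_lit 1575) (.e (nat_lit 1994) (nat_lit 137) (.e (nat_lit 663567) (nat_lit 4) (.e (nat_lit 65630) (nat_lit 14) (.e (nat_lit 401436) (nat_lit 9) (.e (nat_lit 426542) (nat_lit 29) (.e (nat_lit 352286) (nat_lit 20) .nil)))))) (.g (nat_lit 4) .nil .nil))) 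
(.lf (nat_lit 86589) (.g (nat_lit 347) (.e (nat_lit 1994) (nat_lit 137) (.e (nat_lit 663569) (nat_lit 6) (.e (nat_lit 81924) (nat_lit 0) .nil))) .nil)))))) (.nd (nat_lit 2) (.nd (nat_lit 3) (.nd (nat_lit 4) (.nd (nat_lit 5) 
(.lf (nat_lit 86531) (.g (nat_lit 2408) (.e (nat_lit 1994) (nat_lit 137) (.e (nat_lit 663567) (nat_lit 4) (.e (nat_lit 65624) (nat_lit 12) (.e (nat_lit 385105) (nat_lit 50) (.e (nat_lit 786478) (nat_lit 29) (.e (nat_lit 352287) (nat_lit 20) .nil)))))) (.g (nat_lit 5) .nil .nil))) 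
(.lf (nat_lit 86563) (.g (nat_lit 2614) (.e (nat_lit 1994) (nat_lit 137) (.e (nat_lit 663567) (nat_lit 4) (.e (nat_lit 65630) (nat_lit 14) (.e (nat_lit 401437) (nat_lit 9) (.e (nat_lit 426509) (nat_lit 27) (.e (nat_lit 336093) (nat_lit 9) (.e (nat_lit 335907) (nat_lit 0) .nil))))))) (.g (nat_lit 6) .nil .nil)))) (.nd (nat_lit 5) 
(.lf (nat_lit 86547) (.g (nat_lit 2701) (.e (nat_lit 1994) (nat_lit 137) (.e (nat_lit 663567) (nat_lit 4) (.e (nat_lit 65628) (nat_lit 14) (.e (nat_lit 401459) (nat_lit 13) (.e (nat_lit 483378) (nat_lit 23) (.e (nat_lit 335907) (nat_lit 0) .nil)))))) (.g (nat_lit 5) .nil .nil))) 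
(.lf (nat_lit 86579) (.g (nat_lit 2854) (.e (nat_lit 1994) (nat_lit 137) (.e (nat_lit 663567) (nat_lit 4) (.e (nat_lit 65630) (nat_lit 14) (.e (nat_lit 401459) (nat_lit 13) (.e (nat_lit 491264) (nat_lit 23) (.e (nat_lit 335906) (nat_lit 0) .nil)))))) (.g (nat_lit 4) .nil .nil))))) (.nd (nat_lit 4) (.nd (nat_lit 5) 
(.lf (nat_lit 86539) (.g (nat_lit 1948) (.e (nat_lit 1994) (nat_lit 137) (.e (nat_lit 663567) (nat_lit 4) (.e (nat_lit 65628) (nat_lit 14) (.e (nat_lit 401444) (nat_lit 9) (.e (nat_lit 426541) (nat_lit 29) (.e (nat_lit 352287) (nat_lit 20) .nil)))))) (.g (nat_lit 4) .nil .nil))) 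
(.lf (nat_lit 86571) (.g (nat_lit 2016) (.e (nat_lit 1994) (nat_lit 137) (.e (nat_lit 663567) (nat_lit 4) (.e (nat_lit 65630) (nat_lit 14) (.e (nat_lit 401458) (nat_lit 13) (.e (nat_lit 483386) (nat_lit 23) (.e (nat_lit 335907) (nat_lit 0) .nil)))))) (.g (nat_lit 4) .nil .nil)))) (.nd (nat_lit 5) 
(.lf (nat_lit 86555) (.g (nat_lit 2098) (.e (nat_lit 1994) (nat_lit 137) (.e (nat_lit 663567) (nat_lit 4) (.e (nat_lit 65630) (nat_lit 14) (.e (nat_lit 401436) (nat_lit 9) (.e (nat_lit 426506) (nat_lit 27) (.e (nat_lit 336111) (nat_lit 9) (.e (nat_lit 335907) (nat_lit 0) .nil))))))) (.g (nat_lit 4) .nil .nil))) 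
(.lf (nat_lit 86587) (.g (nat_lit 1389) (.e (nat_lit 1994) (nat_lit 137) (.e (nat_lit 663569) (nat_lit 6) (.e (nat_lit 81922) (nat_lit 0) (.e (nat_lit 3630) (nat_lit 227) (.e (nat_lit 778326) (nat_lit 6) (.e (nat_lit 81935) (nat_lit 20) .nil)))))) (.g (nat_lit 6) .nil .nil)))))) (.nd (nat_lit 3) (.nd (nat_lit 4) (.nd (nat_lit 5) 
(.lf (nat_lit 86535) (.g (nat_lit 2030) (.e (nat_lit 1994) (nat_lit 137) (.e (nat_lit 663567) (nat_lit 4) (.e (nat_lit 65628) (nat_lit 14) (.e (nat_lit 401437) (nat_lit 9) (.e (nat_lit 426482) (nat_lit 27) .nil))))) .nil)) 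
(.lf (nat_lit 86567) (.g (nat_lit 2415) (.e (nat_lit 1994) (nat_lit 137) (.e (nat_lit 663567) (nat_lit 4) (.e (nat_lit 65630) (nat_lit 14) (.e (nat_lit 401457) (nat_lit 13) (.e (nat_lit 483378) (nat_lit 23) (.e (nat_lit 335907) (nat_lit 0) .nil)))))) (.g (nat_lit 4) .nil .nil)))) (.nd (nat_lit 5) 
(.lf (nat_lit 86551) (.g (nat_lit 3468) (.e (nat_lit 1994) (nat_lit 137) (.e (nat_lit 663567) (nat_lit 4) (.e (nat_lit 65628) (nat_lit 14) (.e (nat_lit 401459) (nat_lit 13) (.e (nat_lit 483387) (nat_lit 23) (.e (nat_lit 335907) (nat_lit 0) .nil)))))) (.g (nat_lit 6) .nil .nil))) 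
(.lf (nat_lit 86583) (.g (nat_lit 1037) (.e (nat_lit 1994) (nat_lit 137) (.e (nat_lit 663568) (nat_lit 5) (.e (nat_lit 73782) (nat_lit 32) (.e (nat_lit 2936) (nat_lit 184) (.e (nat_lit 433920) (nat_lit 29) .nil))))) .nil)))) (.nd (nat_lit 4) (.nd (nat_lit 5) 
(.lf (nat_lit 86543) (.g (nat_lit 2255) (.e (nat_lit 1994) (nat_lit 137) (.e (nat_lit 663567) (nat_lit 4) (.e (nat_lit 65628) (nat_lit 14) (.e (nat_lit 401458) (nat_lit 13) (.e (nat_lit 483378) (nat_lit 23) (.e (nat_lit 335907) (nat_lit 0) .nil)))))) (.g (nat_lit 5) .nil .nil))) 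
(.lf (nat_lit 86575) (.g (nat_lit 2715) (.e (nat_lit 1994) (nat_lit 137) (.e (nat_lit 663567) (nat_lit 4) (.e (nat_lit 65630) (nat_lit 14) (.e (nat_lit 401459) (nat_lit 13) (.e (nat_lit 483386) (nat_lit 23) (.e (nat_lit 335905) (nat_lit 0) .nil)))))) (.g (nat_lit 4) .nil .nil)))) (.nd (nat_lit 5) 
(.lf (nat_lit 86559) (.g (nat_lit 2639) (.e (nat_lit 1994) (nat_lit 137) (.e (nat_lit 663567) (nat_lit 4) (.e (nat_lit 65630) (nat_lit 14) (.e (nat_lit 401437) (nat_lit 9) (.e (nat_lit 426480) (nat_lit 27) (.e (nat_lit 336099) (nat_lit 9) (.e (nat_lit 335907) (nat_lit 0) .nil))))))) (.g (nat_lit 4) .nil .nil))) 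
(.lf (nat_lit 86591) (.g (nat_lit 1147) (.e (nat_lit 1994) (nat_lit 137) (.e (nat_lit 663569) (nat_lit 6) (.e (nat_lit 81924) (nat_lit 0) (.e (nat_lit 3631) (nat_lit 227) (.e (nat_lit 786176) (nat_lit 6) (.e (nat_lit 81935) (nat_lit 20) .nil)))))) (.g (nat_lit 4) .nil .nil)))))))))

noncomputable def tv1175 : DT := (.nd (nat_lit 0) (.nd (nat_lit 1) (.nd (nat_lit 2) (.nd (nat_lit 3) (.nd (nat_lit 4) (.nd (nat_lit 5) 
(.lf (nat_lit 86592) (.g (nat_lit 569) (.e (nat_lit 1994) (nat_lit 137) (.e (nat_lit 663569) (nat_lit 6) (.e (nat_lit 81928) (nat_lit 20) .nil))) .nil)) 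
(.lf (nat_lit 86624) (.g (nat_lit 1295) (.e (nat_lit 1996) (nat_lit 137) (.e (nat_lit 663554) (nat_lit 0) (.e (nat_lit 1239) (nat_lit 91) (.e (nat_lit 98048) (nat_lit 5) .nil)))) .nil))) (.nd (nat_lit 5) 
(.lf (nat_lit 86608) (.g (nat_lit 2158) (.e (nat_lit 1994) (nat_lit 137) (.e (nat_lit 663569) (nat_lit 6) (.e (nat_lit 81947) (nat_lit 20) (.e (nat_lit 2005) (nat_lit 138) (.e (nat_lit 671764) (nat_lit 6) (.e (nat_lit 81935) (nat_lit 20) .nil)))))) (.g (nat_lit 0) .nil .nil))) 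
(.lf (nat_lit 86640) (.g (nat_lit 1990) (.e (nat_lit 1996) (nat_lit 137) (.e (nat_lit 663554) (nat_lit 0) (.e (nat_lit 1589) (nat_lit 111) (.e (nat_lit 360486) (nat_lit 18) (.e (nat_lit 671762) (nat_lit 4) .nil))))) .nil)))) (.nd (nat_lit 4) (.nd (nat_lit 5) 
(.lf (nat_lit 86600) (.g (nat_lit 1233) (.e (nat_lit 1994) (nat_lit 137) (.e (nat_lit 663569) (nat_lit 6) (.e (nat_lit 81943) (nat_lit 20) (.e (nat_lit 2005) (nat_lit 138) (.e (nat_lit 671764) (nat_lit 6) (.e (nat_lit 81934) (nat_lit 20) .nil)))))) (.g (nat_lit 5) .nil .nil))) 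
(.lf (nat_lit 86632) (.g (nat_lit 1121) (.e (nat_lit 1996) (nat_lit 137) (.e (nat_lit 663554) (nat_lit 0) (.e (nat_lit 1586) (nat_lit 111) (.e (nat_lit 360456) (nat_lit 0) .nil)))) .nil))) (.nd (nat_lit 5) 
(.lf (nat_lit 86616) (.g (nat_lit 2412) (.e (nat_lit 1994) (nat_lit 137) (.e (nat_lit 663569) (nat_lit 6) (.e (nat_lit 81950) (nat_lit 21) (.e (nat_lit 57873) (nat_lit 264) (.e (nat_lit 1221) (nat_lit 90) (.e (nat_lit 81931) (nat_lit 20) .nil)))))) (.g (nat_lit 5) .nil .nil))) 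
(.lf (nat_lit 86648) (.g (nat_lit 1658) (.e (nat_lit 1996) (nat_lit 137) (.e (nat_lit 663554) (nat_lit 0) (.e (nat_lit 1595) (nat_lit 111) (.e (nat_lit 360486) (nat_lit 18) (.e (nat_lit 671762) (nat_lit 4) .nil))))) .nil))))) (.nd (nat_lit 3) (.nd (nat_lit 4) (.nd (nat_lit 5) 
(.lf (nat_lit 86596) (.g (nat_lit 1221) (.e (nat_lit 1994) (nat_lit 137) (.e (nat_lit 663569) (nat_lit 6) (.e (nat_lit 81943) (nat_lit 20) (.e (nat_lit 2003) (nat_lit 138) (.e (nat_lit 671764) (nat_lit 6) (.e (nat_lit 81934) (nat_lit 20) .nil)))))) (.g (nat_lit 5) .nil .nil))) 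
(.lf (nat_lit 86628) (.g (nat_lit 2749) (.e (nat_lit 1996) (nat_lit 137) (.e (nat_lit 663554) (nat_lit 0) (.e (nat_lit 1304) (nat_lit 97) (.e (nat_lit 139281) (nat_lit 5) (.e (nat_lit 73746) (nat_lit 3) (.e (nat_lit 516131) (nat_lit 3) (.e (nat_lit 221212) (nat_lit 22) (.e (nat_lit 196625) (nat_lit 9) (.e (nat_lit 1004) (nat_lit 81) .nil))))))))) (.g (nat_lit 8) .nil .nil)))) (.nd (nat_lit 5) 
(.lf (nat_lit 86612) (.g (nat_lit 2593) (.e (nat_lit 1994) (nat_lit 137) (.e (nat_lit 663569) (nat_lit 6) (.e (nat_lit 81950) (nat_lit 21) (.e (nat_lit 57872) (nat_lit 264) (.e (nat_lit 1221) (nat_lit 90) (.e (nat_lit 81931) (nat_lit 20) .nil)))))) (.g (nat_lit 5) .nil .nil))) 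
(.lf (nat_lit 86644) (.g (nat_lit 1267) (.e (nat_lit 1996) (nat_lit 137) (.e (nat_lit 663554) (nat_lit 0) (.e (nat_lit 1595) (nat_lit 111) (.e (nat_lit 360455) (nat_lit 0) .nil)))) .nil)))) (.nd (nat_lit 4) (.nd (nat_lit 5) 
(.lf (nat_lit 86604) (.g (nat_lit 1810) (.e (nat_lit 1994) (nat_lit 137) (.e (nat_lit 663569) (nat_lit 6) (.e (nat_lit 81947) (nat_lit 20) (.e (nat_lit 2003) (nat_lit 138) (.e (nat_lit 671764) (nat_lit 6) (.e (nat_lit 81935) (nat_lit 20) .nil)))))) (.g (nat_lit 5) .nil .nil))) 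
(.lf (nat_lit 86636) (.g (nat_lit 1869) (.e (nat_lit 1996) (nat_lit 137) (.e (nat_lit 663554) (nat_lit 0) (.e (nat_lit 1589) (nat_lit 111) (.e (nat_lit 360453) (nat_lit 0) (.e (nat_lit 5907) (nat_lit 320) .nil))))) .nil))) (.nd (nat_lit 5) 
(.lf (nat_lit 86620) (.g (nat_lit 1098) (.e (nat_lit 1994) (nat_lit 137) (.e (nat_lit 663569) (nat_lit 6) (.e (nat_lit 81959) (nat_lit 24) (.e (nat_lit 123185) (nat_lit 264) (.e (nat_lit 7936) (nat_lit 90) .nil))))) .nil)) 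
(.lf (nat_lit 86652) (.g (nat_lit 760) (.e (nat_lit 1996) (nat_lit 137) (.e (nat_lit 663554) (nat_lit 0) (.e (nat_lit 1668) (nat_lit 116) (.e (nat_lit 409344) (nat_lit 30) .nil)))) .nil)))))) (.nd (nat_lit 2) (.nd (nat_lit 3) (.nd (nat_lit 4) (.nd (nat_lit 5) 
(.lf (nat_lit 86594) (.g (nat_lit 1076) (.e (nat_lit 1994) (nat_lit 137) (.e (nat_lit 663569) (nat_lit 6) (.e (nat_lit 81939) (nat_lit 20) (.e (nat_lit 2005) (nat_lit 138) (.e (nat_lit 671764) (nat_lit 6) (.e (nat_lit 81934) (nat_lit 20) .nil)))))) (.g (nat_lit 5) .nil .nil))) 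
(.lf (nat_lit 86626) (.g (nat_lit 1649) (.e (nat_lit 1996) (nat_lit 137) (.e (nat_lit 663554) (nat_lit 0) (.e (nat_lit 1239) (nat_lit 91) (.e (nat_lit 90189) (nat_lit 18) .nil)))) .nil))) (.nd (nat_lit 5) 
(.lf (nat_lit 86610) (.g (nat_lit 569) (.e (nat_lit 1994) (nat_lit 137) (.e (nat_lit 663569) (nat_lit 6) (.e (nat_lit 81949) (nat_lit 21) .nil))) .nil)) 
(.lf (nat_lit 86642) (.g (nat_lit 1150) (.e (nat_lit 1996) (nat_lit 137) (.e (nat_lit 663554) (nat_lit 0) (.e (nat_lit 1592) (nat_lit 111) (.e (nat_lit 360486) (nat_lit 18) (.e (nat_lit 671764) (nat_lit 6) .nil))))) .nil)))) (.nd (nat_lit 4) (.nd (nat_lit 5) 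
(.lf (nat_lit 86602) (.g (nat_lit 1411) (.e (nat_lit 1994) (nat_lit 137) (.e (nat_lit 663569) (nat_lit 6) (.e (nat_lit 81946) (nat_lit 20) (.e (nat_lit 2005) (nat_lit 138) (.e (nat_lit 671764) (nat_lit 6) (.e (nat_lit 81934) (nat_lit 20) .nil)))))) (.g (nat_lit 5) .nil .nil))) 
(.lf (nat_lit 86634) (.g (nat_lit 1633) (.e (nat_lit 1996) (nat_lit 137) (.e (nat_lit 663554) (nat_lit 0) (.e (nat_lit 1586) (nat_lit 111) (.e (nat_lit 360486) (nat_lit 18) (.e (nat_lit 671764) (nat_lit 6) .nil))))) .nil))) (.nd (nat_lit 5) 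
(.lf (nat_lit 86618) (.g (nat_lit 569) (.e (nat_lit 1994) (nat_lit 137) (.e (nat_lit 663569) (nat_lit 6) (.e (nat_lit 81958) (nat_lit 24) .nil))) .nil)) 
(.lf (nat_lit 86650) (.g (nat_lit 474) (.e (nat_lit 1996) (nat_lit 137) (.e (nat_lit 663554) (nat_lit 0) (.e (nat_lit 1598) (nat_lit 111) .nil))) .nil))))) (.nd (nat_lit 3) (.nd (nat_lit 4) (.nd (nat_lit 5) 
(.lf (nat_lit 86598) (.g (nat_lit 1154) (.e (nat_lit 1994) (nat_lit 137) (.e (nat_lit 663569) (nat_lit 6) (.e (nat_lit 81943) (nat_lit 20) (.e (nat_lit 2004) (nat_lit 138) (.e (nat_lit 671764) (nat_lit 6) (.e (nat_lit 81934) (nat_lit 20) .nil)))))) (.g (nat_lit 5) .nil .nil))) 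
(.lf (nat_lit 86630) (.g (nat_lit 723) (.e (nat_lit 1996) (nat_lit 137) (.e (nat_lit 663554) (nat_lit 0) (.e (nat_lit 1304) (nat_lit 97) (.e (nat_lit 139282) (nat_lit 6) .nil)))) .nil))) (.nd (nat_lit 5) 
(.lf (nat_lit 86614) (.g (nat_lit 1831) (.e (nat_lit 1994) (nat_lit 137) (.e (nat_lit 663569) (nat_lit 6) (.e (nat_lit 81950) (nat_lit 21) (.e (nat_lit 57873) (nat_lit 264) (.e (nat_lit 1200) (nat_lit 88) (.e (nat_lit 65604) (nat_lit 9) (.e (nat_lit 335907) (nat_lit 0) .nil))))))) (.g (nat_lit 4) .nil .nil))) 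
(.lf (nat_lit 86646) (.g (nat_lit 1140) (.e (nat_lit 1996) (nat_lit 137) (.e (nat_lit 663554) (nat_lit 0) (.e (nat_lit 1595) (nat_lit 111) (.e (nat_lit 368384) (nat_lit 0) .nil)))) .nil)))) (.nd (nat_lit 4) (.nd (nat_lit 5) 
(.lf (nat_lit 86606) (.g (nat_lit 1977) (.e (nat_lit 1994) (nat_lit 137) (.e (nat_lit 663569) (nat_lit 6) (.e (nat_lit 81947) (nat_lit 20) (.e (nat_lit 2005) (nat_lit 138) (.e (nat_lit 671764) (nat_lit 6) (.e (nat_lit 81931) (nat_lit 20) .nil)))))) (.g (nat_lit 0) .nil .nil))) 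
(.lf (nat_lit 86638) (.g (nat_lit 1401) (.e (nat_lit 1996) (nat_lit 137) (.e (nat_lit 663554) (nat_lit 0) (.e (nat_lit 1589) (nat_lit 111) (.e (nat_lit 368384) (nat_lit 0) .nil)))) .nil))) (.nd (nat_lit 5) 
(.lf (nat_lit 86622) (.g (nat_lit 2696) (.e (nat_lit 1995) (nat_lit 137) (.e (nat_lit 663567) (nat_lit 4) (.e (nat_lit 65630) (nat_lit 14) (.e (nat_lit 401459) (nat_lit 13) (.e (nat_lit 483393) (nat_lit 23) .nil))))) .nil)) 
(.lf (nat_lit 86654) (.g (nat_lit 3038) (.e (nat_lit 1996) (nat_lit 137) (.e (nat_lit 663564) (nat_lit 3) (.e (nat_lit 57477) (nat_lit 28) (.e (nat_lit 557097) (nat_lit 13) (.e (nat_lit 172097) (nat_lit 9) (.e (nat_lit 426125) (nat_lit 2) (.e (nat_lit 196666) (nat_lit 13) (.e (nat_lit 65543) (nat_lit 0) .nil)))))))) (.g (nat_lit 0) .nil .nil)))))))) 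
(.nd (nat_lit 1) (.nd (nat_lit 2) (.nd (nat_lit 3) (.nd (nat_lit 4) (.nd (nat_lit 5) 
(.lf (nat_lit 86593) (.g (nat_lit 569) (.e (nat_lit 1994) (nat_lit 137) (.e (nat_lit 663569) (nat_lit 6) (.e (nat_lit 81931) (nat_lit 20) .nil))) .nil)) 
(.lf (nat_lit 86625) (.g (nat_lit 1295) (.e (nat_lit 1996) (nat_lit 137) (.e (nat_lit 663554) (nat_lit 0) (.e (nat_lit 1239) (nat_lit 91) (.e (nat_lit 98048) (nat_lit 6) .nil)))) .nil))) (.nd (nat_lit 5) 
(.lf (nat_lit 86609) (.g (nat_lit 2035) (.e (nat_lit 1994) (nat_lit 137) (.e (nat_lit 663569) (nat_lit 6) (.e (nat_lit 81948) (nat_lit 21) (.e (nat_lit 57870) (nat_lit 264) (.e (nat_lit 1221) (nat_lit 90) (.e (nat_lit 81931) (nat_lit 20) .nil)))))) (.g (nat_lit 6) .nil .nil))) 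
(.lf (nat_lit 86641) (.g (nat_lit 2027) (.e (nat_lit 1996) (nat_lit 137) (.e (nat_lit 663554) (nat_lit 0) (.e (nat_lit 1589) (nat_lit 111) (.e (nat_lit 360486) (nat_lit 18) (.e (nat_lit 671764) (nat_lit 6) .nil))))) .nil)))) (.nd (nat_lit 4) (.nd (nat_lit 5) 
(.lf (nat_lit 86601) (.g (nat_lit 1773) (.e (nat_lit 1994) (nat_lit 137) (.e (nat_lit 663569) (nat_lit 6) (.e (nat_lit 81946) (nat_lit 20) (.e (nat_lit 2005) (nat_lit 138) (.e (nat_lit 671764) (nat_lit 6) (.e (nat_lit 81931) (nat_lit 20) .nil)))))) (.g (nat_lit 0) .nil .nil))) 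
(.lf (nat_lit 86633) (.g (nat_lit 1681) (.e (nat_lit 1996) (nat_lit 137) (.e (nat_lit 663554) (nat_lit 0) (.e (nat_lit 1586) (nat_lit 111) (.e (nat_lit 360486) (nat_lit 18) (.e (nat_lit 671762) (nat_lit 4) .nil))))) .nil))) (.nd (nat_lit 5) 
(.lf (nat_lit 86617) (.g (nat_lit 1437) (.e (nat_lit 1994) (nat_lit 137) (.e (nat_lit 663569) (nat_lit 6) (.e (nat_lit 81957) (nat_lit 24) (.e (nat_lit 123184) (nat_lit 264) (.e (nat_lit 7936) (nat_lit 90) .nil))))) .nil)) 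
(.lf (nat_lit 86649) (.g (nat_lit 1671) (.e (nat_lit 1996) (nat_lit 137) (.e (nat_lit 663554) (nat_lit 0) (.e (nat_lit 1595) (nat_lit 111) (.e (nat_lit 360486) (nat_lit 18) (.e (nat_lit 671764) (nat_lit 6) .nil))))) .nil))))) (.nd (nat_lit 3) (.nd (nat_lit 4) (.nd (nat_lit 5) 
(.lf (nat_lit 86597) (.g (nat_lit 1548) (.e (nat_lit 1994) (nat_lit 137) (.e (nat_lit 663569) (nat_lit 6) (.e (nat_lit 81943) (nat_lit 20) (.e (nat_lit 2004) (nat_lit 138) (.e (nat_lit 671764) (nat_lit 6) (.e (nat_lit 81931) (nat_lit 20) .nil)))))) (.g (nat_lit 0) .nil .nil))) 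
(.lf (nat_lit 86629) (.g (nat_lit 3586) (.e (nat_lit 1996) (nat_lit 137) (.e (nat_lit 663554) (nat_lit 0) (.e (nat_lit 1304) (nat_lit 97) (.e (nat_lit 139281) (nat_lit 5) (.e (nat_lit 73746) (nat_lit 3) (.e (nat_lit 516131) (nat_lit 3) (.e (nat_lit 221215) (nat_lit 23) (.e (nat_lit 204819) (nat_lit 17) .nil)))))))) (.g (nat_lit 8) .nil .nil)))) (.nd (nat_lit 5) 
(.lf (nat_lit 86613) (.g (nat_lit 1966) (.e (nat_lit 1994) (nat_lit 137) (.e (nat_lit 663569) (nat_lit 6) (.e (nat_lit 81950) (nat_lit 21) (.e (nat_lit 57873) (nat_lit 264) (.e (nat_lit 1190) (nat_lit 88) (.e (nat_lit 65604) (nat_lit 9) (.e (nat_lit 335907) (nat_lit 0) .nil))))))) (.g (nat_lit 4) .nil .nil))) 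
(.lf (nat_lit 86645) (.g (nat_lit 1407) (.e (nat_lit 1996) (nat_lit 137) (.e (nat_lit 663554) (nat_lit 0) (.e (nat_lit 1595) (nat_lit 111) (.e (nat_lit 360457) (nat_lit 0) (.e (nat_lit 5818) (nat_lit 320) .nil))))) .nil)))) (.nd (nat_lit 4) (.nd (nat_lit 5) 
(.lf (nat_lit 86605) (.g (nat_lit 2281) (.e (nat_lit 1994) (nat_lit 137) (.e (nat_lit 663569) (nat_lit 6) (.e (nat_lit 81947) (nat_lit 20) (.e (nat_lit 2005) (nat_lit 138) (.e (nat_lit 671762) (nat_lit 4) (.e (nat_lit 65598) (nat_lit 9) (.e (nat_lit 335907) (nat_lit 0) .nil))))))) (.g (nat_lit 5) .nil .nil))) 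
(.lf (nat_lit 86637) (.g (nat_lit 1575) (.e (nat_lit 1996) (nat_lit 137) (.e (nat_lit 663554) (nat_lit 0) (.e (nat_lit 1589) (nat_lit 111) (.e (nat_lit 360457) (nat_lit 0) .nil)))) .nil))) (.nd (nat_lit 5) 
(.lf (nat_lit 86621) (.g (nat_lit 2578) (.e (nat_lit 1995) (nat_lit 137) (.e (nat_lit 663567) (nat_lit 4) (.e (nat_lit 65628) (nat_lit 14) (.e (nat_lit 401459) (nat_lit 13) (.e (nat_lit 483393) (nat_lit 23) .nil))))) .nil)) 
(.lf (nat_lit 86653) (.g (nat_lit 1032) (.e (nat_lit 1996) (nat_lit 137) (.e (nat_lit 663554) (nat_lit 0) (.e (nat_lit 1669) (nat_lit 116) (.e (nat_lit 401473) (nat_lit 29) .nil)))) .nil)))))) (.nd (nat_lit 2) (.nd (nat_lit 3) (.nd (nat_lit 4) (.nd (nat_lit 5) 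
(.lf (nat_lit 86595) (.g (nat_lit 1604) (.e (nat_lit 1994) (nat_lit 137) (.e (nat_lit 663569) (nat_lit 6) (.e (nat_lit 81943) (nat_lit 20) (.e (nat_lit 2003) (nat_lit 138) (.e (nat_lit 671764) (nat_lit 6) (.e (nat_lit 81931) (nat_lit 20) .nil)))))) (.g (nat_lit 0) .nil .nil))) 
(.lf (nat_lit 86627) (.g (nat_lit 453) (.e (nat_lit 1996) (nat_lit 137) (.e (nat_lit 663554) (nat_lit 0) (.e (nat_lit 1304) (nat_lit 97) .nil))) .nil))) (.nd (nat_lit 5) 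
(.lf (nat_lit 86611) (.g (nat_lit 1151) (.e (nat_lit 1994) (nat_lit 137) (.e (nat_lit 663569) (nat_lit 6) (.e (nat_lit 81950) (nat_lit 21) (.e (nat_lit 57871) (nat_lit 264) (.e (nat_lit 1189) (nat_lit 88) .nil))))) .nil)) 
(.lf (nat_lit 86643) (.g (nat_lit 425) (.e (nat_lit 1996) (nat_lit 137) (.e (nat_lit 663554) (nat_lit 0) (.e (nat_lit 1595) (nat_lit 111) .nil))) .nil)))) (.nd (nat_lit 4) (.nd (nat_lit 5) 
(.lf (nat_lit 86603) (.g (nat_lit 1973) (.e (nat_lit 1994) (nat_lit 137) (.e (nat_lit 663569) (nat_lit 6) (.e (nat_lit 81946) (nat_lit 20) (.e (nat_lit 2005) (nat_lit 138) (.e (nat_lit 671764) (nat_lit 6) (.e (nat_lit 81935) (nat_lit 20) .nil)))))) (.g (nat_lit 0) .nil .nil))) 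
(.lf (nat_lit 86635) (.g (nat_lit 1443) (.e (nat_lit 1996) (nat_lit 137) (.e (nat_lit 663554) (nat_lit 0) (.e (nat_lit 1589) (nat_lit 111) (.e (nat_lit 360453) (nat_lit 0) .nil)))) .nil))) (.nd (nat_lit 5) 
(.lf (nat_lit 86619) (.g (nat_lit 2535) (.e (nat_lit 1994) (nat_lit 137) (.e (nat_lit 663569) (nat_lit 6) (.e (nat_lit 81959) (nat_lit 24) (.e (nat_lit 123182) (nat_lit 264) (.e (nat_lit 7936) (nat_lit 90) .nil))))) .nil)) 
(.lf (nat_lit 86651) (.g (nat_lit 412) (.e (nat_lit 1996) (nat_lit 137) (.e (nat_lit 663554) (nat_lit 0) (.e (nat_lit 1668) (nat_lit 116) .nil))) .nil))))) (.nd (nat_lit 3) (.nd (nat_lit 4) (.nd (nat_lit 5) 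
(.lf (nat_lit 86599) (.g (nat_lit 1592) (.e (nat_lit 1994) (nat_lit 137) (.e (nat_lit 663569) (nat_lit 6) (.e (nat_lit 81943) (nat_lit 20) (.e (nat_lit 2005) (nat_lit 138) (.e (nat_lit 671764) (nat_lit 6) (.e (nat_lit 81931) (nat_lit 20) .nil)))))) (.g (nat_lit 0) .nil .nil))) 
(.lf (nat_lit 86631) (.g (nat_lit 1554) (.e (nat_lit 1996) (nat_lit 137) (.e (nat_lit 663554) (nat_lit 0) (.e (nat_lit 1572) (nat_lit 110) (.e (nat_lit 352318) (nat_lit 24) (.e (nat_lit 123185) (nat_lit 264) .nil))))) .nil))) (.nd (nat_lit 5) 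
(.lf (nat_lit 86615) (.g (nat_lit 2482) (.e (nat_lit 1994) (nat_lit 137) (.e (nat_lit 663569) (nat_lit 6) (.e (nat_lit 81950) (nat_lit 21) (.e (nat_lit 57873) (nat_lit 264) (.e (nat_lit 1219) (nat_lit 90) (.e (nat_lit 81935) (nat_lit 20) .nil)))))) (.g (nat_lit 5) .nil .nil))) 
(.lf (nat_lit 86647) (.g (nat_lit 1140) (.e (nat_lit 1996) (nat_lit 137) (.e (nat_lit 663554) (nat_lit 0) (.e (nat_lit 1595) (nat_lit 111) (.e (nat_lit 368384) (nat_lit 17) .nil)))) .nil)))) (.nd (nat_lit 4) (.nd (nat_lit 5) 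
(.lf (nat_lit 86607) (.g (nat_lit 1598) (.e (nat_lit 1994) (nat_lit 137) (.e (nat_lit 663569) (nat_lit 6) (.e (nat_lit 81947) (nat_lit 20) (.e (nat_lit 2005) (nat_lit 138) (.e (nat_lit 671764) (nat_lit 6) (.e (nat_lit 81934) (nat_lit 20) .nil)))))) (.g (nat_lit 5) .nil .nil))) 
(.lf (nat_lit 86639) (.g (nat_lit 1401) (.e (nat_lit 1996) (nat_lit 137) (.e (nat_lit 663554) (nat_lit 0) (.e (nat_lit 1589) (nat_lit 111) (.e (nat_lit 368384) (nat_lit 17) .nil)))) .nil))) (.nd (nat_lit 5) 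
(.lf (nat_lit 86623) (.g (nat_lit 469) (.e (nat_lit 1996) (nat_lit 137) (.e (nat_lit 663554) (nat_lit 0) (.e (nat_lit 1239) (nat_lit 91) .nil))) .nil)) 
(.lf (nat_lit 86655) (.g (nat_lit 2689) (.e (nat_lit 1996) (nat_lit 137) (.e (nat_lit 663564) (nat_lit 3) (.e (nat_lit 57477) (nat_lit 28) (.e (nat_lit 557097) (nat_lit 13) (.e (nat_lit 172097) (nat_lit 9) (.e (nat_lit 426140) (nat_lit 3) (.e (nat_lit 204855) (nat_lit 26) (.e (nat_lit 335908) (nat_lit 0) .nil)))))))) (.g (nat_lit 0) .nil .nil)))))))))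

noncomputable def tv1176 : DT := (.nd (nat_lit 0) (.nd (nat_lit 1) (.nd (nat_lit 2) (.nd (nat_lit 3) (.nd (nat_lit 4) 
(.lf (nat_lit 86656) (.g (nat_lit 3277) (.e (nat_lit 1996) (nat_lit 137) (.e (nat_lit 663564) (nat_lit 3) (.e (nat_lit 57477) (nat_lit 28) (.e (nat_lit 557097) (nat_lit 13) (.e (nat_lit 172115) (nat_lit 10) (.e (nat_lit 434231) (nat_lit 23) (.e (nat_lit 532535) (nat_lit 9) (.e (nat_lit 335908) (nat_lit 0) .nil)))))))) (.g (nat_lit 0) .nil .nil))) 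
(.lf (nat_lit 86672) (.g (nat_lit 3886) (.e (nat_lit 1996) (nat_lit 137) (.e (nat_lit 663564) (nat_lit 3) (.e (nat_lit 57480) (nat_lit 28) (.e (nat_lit 557098) (nat_lit 13) (.e (nat_lit 172115) (nat_lit 10) (.e (nat_lit 434231) (nat_lit 23) (.e (nat_lit 532535) (nat_lit 9) (.e (nat_lit 335908) (nat_lit 0) .nil)))))))) (.g (nat_lit 0) .nil .nil)))) (.nd (nat_lit 4) 
(.lf (nat_lit 86664) (.g (nat_lit 2397) (.e (nat_lit 1996) (nat_lit 137) (.e (nat_lit 663564) (nat_lit 3) (.e (nat_lit 57479) (nat_lit 28) (.e (nat_lit 557095) (nat_lit 13) (.e (nat_lit 172115) (nat_lit 10) (.e (nat_lit 434231) (nat_lit 23) (.e (nat_lit 532535) (nat_lit 9) (.e (nat_lit 335908) (nat_lit 0) .nil)))))))) (.g (nat_lit 4) .nil .nil))) 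
(.lf (nat_lit 86680) (.g (nat_lit 4209) (.e (nat_lit 1996) (nat_lit 137) (.e (nat_lit 663565) (nat_lit 3) (.e (nat_lit 57478) (nat_lit 28) (.e (nat_lit 557098) (nat_lit 13) (.e (nat_lit 172097) (nat_lit 9) (.e (nat_lit 426125) (nat_lit 2) (.e (nat_lit 196666) (nat_lit 13) (.e (nat_lit 65543) (nat_lit 0) .nil)))))))) (.g (nat_lit 8) .nil .nil))))) (.nd (nat_lit 3) (.nd (nat_lit 4) 
(.lf (nat_lit 86660) (.g (nat_lit 2526) (.e (nat_lit 1996) (nat_lit 137) (.e (nat_lit 663564) (nat_lit 3) (.e (nat_lit 57477) (nat_lit 28) (.e (nat_lit 557108) (nat_lit 15) (.e (nat_lit 188452) (nat_lit 23) (.e (nat_lit 204855) (nat_lit 26) (.e (nat_lit 335886) (nat_lit 0) .nil))))))) (.g (nat_lit 6) .nil .nil))) 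
(.lf (nat_lit 86676) (.g (nat_lit 3302) (.e (nat_lit 1996) (nat_lit 137) (.e (nat_lit 663564) (nat_lit 3) (.e (nat_lit 57480) (nat_lit 28) (.e (nat_lit 557109) (nat_lit 15) (.e (nat_lit 188452) (nat_lit 23) (.e (nat_lit 204855) (nat_lit 26) (.e (nat_lit 335886) (nat_lit 0) .nil))))))) (.g (nat_lit 6) .nil .nil)))) (.nd (nat_lit 4) 
(.lf (nat_lit 86668) (.g (nat_lit 4002) (.e (nat_lit 1996) (nat_lit 137) (.e (nat_lit 663564) (nat_lit 3) (.e (nat_lit 57479) (nat_lit 28) (.e (nat_lit 557101) (nat_lit 13) (.e (nat_lit 172115) (nat_lit 10) (.e (nat_lit 434231) (nat_lit 23) (.e (nat_lit 532535) (nat_lit 9) (.e (nat_lit 335886) (nat_lit 0) .nil)))))))) (.g (nat_lit 8) .nil .nil))) 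
(.lf (nat_lit 86684) (.g (nat_lit 3850) (.e (nat_lit 1996) (nat_lit 137) (.e (nat_lit 663565) (nat_lit 3) (.e (nat_lit 57478) (nat_lit 28) (.e (nat_lit 557098) (nat_lit 13) (.e (nat_lit 172097) (nat_lit 9) (.e (nat_lit 426140) (nat_lit 3) (.e (nat_lit 204855) (nat_lit 26) (.e (nat_lit 335908) (nat_lit 0) .nil)))))))) (.g (nat_lit 8) .nil .nil)))))) 
(.nd (nat_lit 2) (.nd (nat_lit 3) (.nd (nat_lit 4) 
(.lf (nat_lit 86658) (.g (nat_lit 2065) (.e (nat_lit 1996) (nat_lit 137) (.e (nat_lit 663564) (nat_lit 3) (.e (nat_lit 57477) (nat_lit 28) (.e (nat_lit 557107) (nat_lit 15) (.e (nat_lit 188450) (nat_lit 23) (.e (nat_lit 204855) (nat_lit 26) (.e (nat_lit 335908) (nat_lit 0) .nil))))))) (.g (nat_lit 0) .nil .nil))) 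
(.lf (nat_lit 86674) (.g (nat_lit 2625) (.e (nat_lit 1996) (nat_lit 137) (.e (nat_lit 663564) (nat_lit 3) (.e (nat_lit 57480) (nat_lit 28) (.e (nat_lit 557107) (nat_lit 15) (.e (nat_lit 188450) (nat_lit 23) (.e (nat_lit 204855) (nat_lit 26) (.e (nat_lit 335908) (nat_lit 0) .nil))))))) (.g (nat_lit 0) .nil .nil)))) (.nd (nat_lit 4) 
(.lf (nat_lit 86666) (.g (nat_lit 3853) (.e (nat_lit 1996) (nat_lit 137) (.e (nat_lit 663564) (nat_lit 3) (.e (nat_lit 57479) (nat_lit 28) (.e (nat_lit 557101) (nat_lit 13) (.e (nat_lit 172097) (nat_lit 9) (.e (nat_lit 426125) (nat_lit 2) (.e (nat_lit 196666) (nat_lit 13) (.e (nat_lit 65543) (nat_lit 0) .nil)))))))) (.g (nat_lit 0) .nil .nil))) 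
(.lf (nat_lit 86682) (.g (nat_lit 3968) (.e (nat_lit 1996) (nat_lit 137) (.e (nat_lit 663565) (nat_lit 3) (.e (nat_lit 57478) (nat_lit 28) (.e (nat_lit 557098) (nat_lit 13) (.e (nat_lit 172097) (nat_lit 9) (.e (nat_lit 426140) (nat_lit 3) (.e (nat_lit 204855) (nat_lit 26) (.e (nat_lit 335905) (nat_lit 0) .nil)))))))) (.g (nat_lit 8) .nil .nil))))) (.nd (nat_lit 3) (.nd (nat_lit 4) 
(.lf (nat_lit 86662) (.g (nat_lit 2623) (.e (nat_lit 1996) (nat_lit 137) (.e (nat_lit 663564) (nat_lit 3) (.e (nat_lit 57477) (nat_lit 28) (.e (nat_lit 557108) (nat_lit 15) (.e (nat_lit 188452) (nat_lit 23) (.e (nat_lit 204855) (nat_lit 26) (.e (nat_lit 335908) (nat_lit 0) .nil))))))) (.g (nat_lit 0) .nil .nil))) 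
(.lf (nat_lit 86678) (.g (nat_lit 4551) (.e (nat_lit 1996) (nat_lit 137) (.e (nat_lit 663565) (nat_lit 3) (.e (nat_lit 57478) (nat_lit 28) (.e (nat_lit 557098) (nat_lit 13) (.e (nat_lit 172097) (nat_lit 9) (.e (nat_lit 426125) (nat_lit 2) (.e (nat_lit 196666) (nat_lit 13) (.e (nat_lit 65536) (nat_lit 0) .nil)))))))) (.g (nat_lit 8) .nil .nil)))) (.nd (nat_lit 4) 
(.lf (nat_lit 86670) (.g (nat_lit 3826) (.e (nat_lit 1996) (nat_lit 137) (.e (nat_lit 663564) (nat_lit 3) (.e (nat_lit 57480) (nat_lit 28) (.e (nat_lit 557098) (nat_lit 13) (.e (nat_lit 172097) (nat_lit 9) (.e (nat_lit 426125) (nat_lit 2) (.e (nat_lit 196666) (nat_lit 13) (.e (nat_lit 65543) (nat_lit 0) .nil)))))))) (.g (nat_lit 0) .nil .nil))) 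
(.lf (nat_lit 86686) (.g (nat_lit 5123) (.e (nat_lit 1996) (nat_lit 137) (.e (nat_lit 663565) (nat_lit 3) (.e (nat_lit 57478) (nat_lit 28) (.e (nat_lit 557098) (nat_lit 13) (.e (nat_lit 172115) (nat_lit 10) (.e (nat_lit 434231) (nat_lit 23) (.e (nat_lit 532535) (nat_lit 9) (.e (nat_lit 335905) (nat_lit 0) .nil)))))))) (.g (nat_lit 8) .nil .nil))))))) 
(.nd (nat_lit 1) (.nd (nat_lit 2) (.nd (nat_lit 3) (.nd (nat_lit 4) 
(.lf (nat_lit 86657) (.g (nat_lit 2449) (.e (nat_lit 1996) (nat_lit 137) (.e (nat_lit 663564) (nat_lit 3) (.e (nat_lit 57477) (nat_lit 28) (.e (nat_lit 557107) (nat_lit 15) (.e (nat_lit 188447) (nat_lit 22) (.e (nat_lit 196666) (nat_lit 13) (.e (nat_lit 65543) (nat_lit 0) .nil))))))) (.g (nat_lit 0) .nil .nil))) 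
(.lf (nat_lit 86673) (.g (nat_lit 3008) (.e (nat_lit 1996) (nat_lit 137) (.e (nat_lit 663564) (nat_lit 3) (.e (nat_lit 57480) (nat_lit 28) (.e (nat_lit 557107) (nat_lit 15) (.e (nat_lit 188447) (nat_lit 22) (.e (nat_lit 196666) (nat_lit 13) (.e (nat_lit 65543) (nat_lit 0) .nil))))))) (.g (nat_lit 0) .nil .nil)))) (.nd (nat_lit 4) 
(.lf (nat_lit 86665) (.g (nat_lit 4899) (.e (nat_lit 1996) (nat_lit 137) (.e (nat_lit 663564) (nat_lit 3) (.e (nat_lit 57479) (nat_lit 28) (.e (nat_lit 557100) (nat_lit 13) (.e (nat_lit 172106) (nat_lit 10) (.e (nat_lit 434231) (nat_lit 23) (.e (nat_lit 532535) (nat_lit 9) (.e (nat_lit 335905) (nat_lit 0) .nil)))))))) (.g (nat_lit 0) .nil .nil))) 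
(.lf (nat_lit 86681) (.g (nat_lit 3093) (.e (nat_lit 1996) (nat_lit 137) (.e (nat_lit 663565) (nat_lit 3) (.e (nat_lit 57478) (nat_lit 28) (.e (nat_lit 557098) (nat_lit 13) (.e (nat_lit 172097) (nat_lit 9) (.e (nat_lit 426140) (nat_lit 3) (.e (nat_lit 204850) (nat_lit 26) (.e (nat_lit 335907) (nat_lit 0) .nil)))))))) (.g (nat_lit 6) .nil .nil))))) (.nd (nat_lit 3) (.nd (nat_lit 4) 
(.lf (nat_lit 86661) (.g (nat_lit 3165) (.e (nat_lit 1996) (nat_lit 137) (.e (nat_lit 663564) (nat_lit 3) (.e (nat_lit 57477) (nat_lit 28) (.e (nat_lit 557108) (nat_lit 15) (.e (nat_lit 188452) (nat_lit 23) (.e (nat_lit 204855) (nat_lit 26) (.e (nat_lit 335907) (nat_lit 0) .nil))))))) (.g (nat_lit 0) .nil .nil))) 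
(.lf (nat_lit 86677) (.g (nat_lit 3361) (.e (nat_lit 1996) (nat_lit 137) (.e (nat_lit 663564) (nat_lit 3) (.e (nat_lit 57480) (nat_lit 28) (.e (nat_lit 557109) (nat_lit 15) (.e (nat_lit 188452) (nat_lit 23) (.e (nat_lit 204855) (nat_lit 26) (.e (nat_lit 335908) (nat_lit 0) .nil))))))) (.g (nat_lit 0) .nil .nil)))) (.nd (nat_lit 4) 
(.lf (nat_lit 86669) (.g (nat_lit 3833) (.e (nat_lit 1996) (nat_lit 137) (.e (nat_lit 663564) (nat_lit 3) (.e (nat_lit 57479) (nat_lit 28) (.e (nat_lit 557101) (nat_lit 13) (.e (nat_lit 172115) (nat_lit 10) (.e (nat_lit 434231) (nat_lit 23) (.e (nat_lit 532535) (nat_lit 9) (.e (nat_lit 335908) (nat_lit 0) .nil)))))))) (.g (nat_lit 0) .nil .nil))) 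
(.lf (nat_lit 86685) (.g (nat_lit 4463) (.e (nat_lit 1996) (nat_lit 137) (.e (nat_lit 663565) (nat_lit 3) (.e (nat_lit 57478) (nat_lit 28) (.e (nat_lit 557098) (nat_lit 13) (.e (nat_lit 172115) (nat_lit 10) (.e (nat_lit 434231) (nat_lit 23) (.e (nat_lit 532535) (nat_lit 9) (.e (nat_lit 335886) (nat_lit 0) .nil)))))))) (.g (nat_lit 8) .nil .nil)))))) 
(.nd (nat_lit 2) (.nd (nat_lit 3) (.nd (nat_lit 4) 
(.lf (nat_lit 86659) (.g (nat_lit 2447) (.e (nat_lit 1996) (nat_lit 137) (.e (nat_lit 663564) (nat_lit 3) (.e (nat_lit 57477) (nat_lit 28) (.e (nat_lit 557108) (nat_lit 15) (.e (nat_lit 188449) (nat_lit 22) (.e (nat_lit 196666) (nat_lit 13) (.e (nat_lit 65543) (nat_lit 0) .nil))))))) (.g (nat_lit 0) .nil .nil))) 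
(.lf (nat_lit 86675) (.g (nat_lit 3285) (.e (nat_lit 1996) (nat_lit 137) (.e (nat_lit 663564) (nat_lit 3) (.e (nat_lit 57480) (nat_lit 28) (.e (nat_lit 557109) (nat_lit 15) (.e (nat_lit 188449) (nat_lit 22) (.e (nat_lit 196666) (nat_lit 13) (.e (nat_lit 65543) (nat_lit 0) .nil))))))) (.g (nat_lit 0) .nil .nil)))) (.nd (nat_lit 4) 
(.lf (nat_lit 86667) (.g (nat_lit 3507) (.e (nat_lit 1996) (nat_lit 137) (.e (nat_lit 663564) (nat_lit 3) (.e (nat_lit 57479) (nat_lit 28) (.e (nat_lit 557101) (nat_lit 13) (.e (nat_lit 172097) (nat_lit 9) (.e (nat_lit 426140) (nat_lit 3) (.e (nat_lit 204855) (nat_lit 26) (.e (nat_lit 335908) (nat_lit 0) .nil)))))))) (.g (nat_lit 0) .nil .nil))) 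
(.lf (nat_lit 86683) (.g (nat_lit 4396) (.e (nat_lit 1996) (nat_lit 137) (.e (nat_lit 663565) (nat_lit 3) (.e (nat_lit 57478) (nat_lit 28) (.e (nat_lit 557098) (nat_lit 13) (.e (nat_lit 172097) (nat_lit 9) (.e (nat_lit 426140) (nat_lit 3) (.e (nat_lit 204855) (nat_lit 26) (.e (nat_lit 335907) (nat_lit 0) .nil)))))))) (.g (nat_lit 0) .nil .nil))))) (.nd (nat_lit 3) (.nd (nat_lit 4) 
(.lf (nat_lit 86663) (.g (nat_lit 2341) (.e (nat_lit 1996) (nat_lit 137) (.e (nat_lit 663564) (nat_lit 3) (.e (nat_lit 57479) (nat_lit 28) (.e (nat_lit 557095) (nat_lit 13) (.e (nat_lit 172115) (nat_lit 10) .nil))))) .nil)) 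
(.lf (nat_lit 86679) (.g (nat_lit 3939) (.e (nat_lit 1996) (nat_lit 137) (.e (nat_lit 663565) (nat_lit 3) (.e (nat_lit 57478) (nat_lit 28) (.e (nat_lit 557098) (nat_lit 13) (.e (nat_lit 172097) (nat_lit 9) (.e (nat_lit 426125) (nat_lit 2) (.e (nat_lit 196666) (nat_lit 13) (.e (nat_lit 65539) (nat_lit 0) .nil)))))))) (.g (nat_lit 8) .nil .nil)))) (.nd (nat_lit 4) 
(.lf (nat_lit 86671) (.g (nat_lit 3471) (.e (nat_lit 1996) (nat_lit 137) (.e (nat_lit 663564) (nat_lit 3) (.e (nat_lit 57480) (nat_lit 28) (.e (nat_lit 557098) (nat_lit 13) (.e (nat_lit 172097) (nat_lit 9) (.e (nat_lit 426140) (nat_lit 3) (.e (nat_lit 204855) (nat_lit 26) (.e (nat_lit 335908) (nat_lit 0) .nil)))))))) (.g (nat_lit 0) .nil .nil))) 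
(.lf (nat_lit 86687) (.g (nat_lit 4239) (.e (nat_lit 1996) (nat_lit 137) (.e (nat_lit 663565) (nat_lit 3) (.e (nat_lit 57478) (nat_lit 28) (.e (nat_lit 557098) (nat_lit 13) (.e (nat_lit 172115) (nat_lit 10) (.e (nat_lit 434231) (nat_lit 23) (.e (nat_lit 532535) (nat_lit 9) (.e (nat_lit 335908) (nat_lit 0) .nil)))))))) (.g (nat_lit 0) .nil .nil))))))))

noncomputable def tv1177 : DT := (.nd (nat_lit 0) (.nd (nat_lit 1) (.nd (nat_lit 2) (.nd (nat_lit 3) (.nd (nat_lit 4) 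
(.lf (nat_lit 86688) (.g (nat_lit 5354) (.e (nat_lit 1996) (nat_lit 137) (.e (nat_lit 663565) (nat_lit 3) (.e (nat_lit 57478) (nat_lit 28) (.e (nat_lit 557100) (nat_lit 13) (.e (nat_lit 172106) (nat_lit 10) (.e (nat_lit 434231) (nat_lit 23) (.e (nat_lit 532535) (nat_lit 9) (.e (nat_lit 335905) (nat_lit 0) .nil)))))))) (.g (nat_lit 8) .nil .nil))) 
(.lf (nat_lit 86704) (.g (nat_lit 3386) (.e (nat_lit 1996) (nat_lit 137) (.e (nat_lit 663565) (nat_lit 3) (.e (nat_lit 57478) (nat_lit 28) (.e (nat_lit 557107) (nat_lit 15) (.e (nat_lit 188450) (nat_lit 23) (.e (nat_lit 204855) (nat_lit 26) (.e (nat_lit 335905) (nat_lit 0) .nil))))))) (.g (nat_lit 7) .nil .nil)))) (.nd (nat_lit 4) 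
(.lf (nat_lit 86696) (.g (nat_lit 3807) (.e (nat_lit 1996) (nat_lit 137) (.e (nat_lit 663565) (nat_lit 3) (.e (nat_lit 57478) (nat_lit 28) (.e (nat_lit 557101) (nat_lit 13) (.e (nat_lit 172097) (nat_lit 9) (.e (nat_lit 426140) (nat_lit 3) (.e (nat_lit 204855) (nat_lit 26) (.e (nat_lit 335908) (nat_lit 0) .nil)))))))) (.g (nat_lit 8) .nil .nil))) 
(.lf (nat_lit 86712) (.g (nat_lit 4042) (.e (nat_lit 1996) (nat_lit 137) (.e (nat_lit 663565) (nat_lit 3) (.e (nat_lit 57478) (nat_lit 28) (.e (nat_lit 557109) (nat_lit 15) (.e (nat_lit 188452) (nat_lit 23) (.e (nat_lit 204855) (nat_lit 26) (.e (nat_lit 335886) (nat_lit 0) .nil))))))) (.g (nat_lit 6) .nil .nil))))) (.nd (nat_lit 3) (.nd (nat_lit 4) 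
(.lf (nat_lit 86692) (.g (nat_lit 4159) (.e (nat_lit 1996) (nat_lit 137) (.e (nat_lit 663565) (nat_lit 3) (.e (nat_lit 57478) (nat_lit 28) (.e (nat_lit 557101) (nat_lit 13) (.e (nat_lit 172097) (nat_lit 9) (.e (nat_lit 426125) (nat_lit 2) (.e (nat_lit 196666) (nat_lit 13) (.e (nat_lit 65543) (nat_lit 0) .nil)))))))) (.g (nat_lit 8) .nil .nil))) 
(.lf (nat_lit 86708) (.g (nat_lit 2992) (.e (nat_lit 1996) (nat_lit 137) (.e (nat_lit 663565) (nat_lit 3) (.e (nat_lit 57478) (nat_lit 28) (.e (nat_lit 557107) (nat_lit 15) (.e (nat_lit 188450) (nat_lit 23) (.e (nat_lit 204857) (nat_lit 26) (.e (nat_lit 335907) (nat_lit 0) .nil))))))) (.g (nat_lit 6) .nil .nil)))) (.nd (nat_lit 4) 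
(.lf (nat_lit 86700) (.g (nat_lit 1655) (.e (nat_lit 1996) (nat_lit 137) (.e (nat_lit 663565) (nat_lit 3) (.e (nat_lit 57478) (nat_lit 28) (.e (nat_lit 557107) (nat_lit 15) (.e (nat_lit 188447) (nat_lit 22) .nil))))) .nil)) 
(.lf (nat_lit 86716) (.g (nat_lit 5094) (.e (nat_lit 1996) (nat_lit 137) (.e (nat_lit 663565) (nat_lit 3) (.e (nat_lit 57478) (nat_lit 28) (.e (nat_lit 557109) (nat_lit 15) (.e (nat_lit 188452) (nat_lit 23) (.e (nat_lit 204856) (nat_lit 26) (.e (nat_lit 335907) (nat_lit 0) .nil))))))) (.g (nat_lit 0) .nil .nil)))))) (.nd (nat_lit 2) (.nd (nat_lit 3) (.nd (nat_lit 4) 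
(.lf (nat_lit 86690) (.g (nat_lit 4501) (.e (nat_lit 1996) (nat_lit 137) (.e (nat_lit 663565) (nat_lit 3) (.e (nat_lit 57478) (nat_lit 28) (.e (nat_lit 557101) (nat_lit 13) (.e (nat_lit 172097) (nat_lit 9) (.e (nat_lit 426125) (nat_lit 2) (.e (nat_lit 196666) (nat_lit 13) (.e (nat_lit 65536) (nat_lit 0) .nil)))))))) (.g (nat_lit 8) .nil .nil))) 
(.lf (nat_lit 86706) (.g (nat_lit 3214) (.e (nat_lit 1996) (nat_lit 137) (.e (nat_lit 663565) (nat_lit 3) (.e (nat_lit 57478) (nat_lit 28) (.e (nat_lit 557107) (nat_lit 15) (.e (nat_lit 188450) (nat_lit 23) (.e (nat_lit 204855) (nat_lit 26) (.e (nat_lit 335908) (nat_lit 0) .nil))))))) (.g (nat_lit 0) .nil .nil)))) (.nd (nat_lit 4) 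
(.lf (nat_lit 86698) (.g (nat_lit 5035) (.e (nat_lit 1996) (nat_lit 137) (.e (nat_lit 663565) (nat_lit 3) (.e (nat_lit 57478) (nat_lit 28) (.e (nat_lit 557101) (nat_lit 13) (.e (nat_lit 172115) (nat_lit 10) (.e (nat_lit 434231) (nat_lit 23) (.e (nat_lit 532535) (nat_lit 9) (.e (nat_lit 335905) (nat_lit 0) .nil)))))))) (.g (nat_lit 8) .nil .nil))) 
(.lf (nat_lit 86714) (.g (nat_lit 4614) (.e (nat_lit 1996) (nat_lit 137) (.e (nat_lit 663565) (nat_lit 3) (.e (nat_lit 57478) (nat_lit 28) (.e (nat_lit 557109) (nat_lit 15) (.e (nat_lit 188452) (nat_lit 23) (.e (nat_lit 204855) (nat_lit 26) (.e (nat_lit 335907) (nat_lit 0) .nil))))))) (.g (nat_lit 0) .nil .nil))))) (.nd (nat_lit 3) (.nd (nat_lit 4) 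
(.lf (nat_lit 86694) (.g (nat_lit 3925) (.e (nat_lit 1996) (nat_lit 137) (.e (nat_lit 663565) (nat_lit 3) (.e (nat_lit 57478) (nat_lit 28) (.e (nat_lit 557101) (nat_lit 13) (.e (nat_lit 172097) (nat_lit 9) (.e (nat_lit 426140) (nat_lit 3) (.e (nat_lit 204855) (nat_lit 26) (.e (nat_lit 335905) (nat_lit 0) .nil)))))))) (.g (nat_lit 8) .nil .nil))) 
(.lf (nat_lit 86710) (.g (nat_lit 3816) (.e (nat_lit 1996) (nat_lit 137) (.e (nat_lit 663565) (nat_lit 3) (.e (nat_lit 57478) (nat_lit 28) (.e (nat_lit 557109) (nat_lit 15) (.e (nat_lit 188449) (nat_lit 22) (.e (nat_lit 196666) (nat_lit 13) (.e (nat_lit 65539) (nat_lit 0) .nil))))))) (.g (nat_lit 7) .nil .nil)))) (.nd (nat_lit 4) 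
(.lf (nat_lit 86702) (.g (nat_lit 3458) (.e (nat_lit 1996) (nat_lit 137) (.e (nat_lit 663565) (nat_lit 3) (.e (nat_lit 57478) (nat_lit 28) (.e (nat_lit 557107) (nat_lit 15) (.e (nat_lit 188447) (nat_lit 22) (.e (nat_lit 196666) (nat_lit 13) (.e (nat_lit 65539) (nat_lit 0) .nil))))))) (.g (nat_lit 7) .nil .nil))) 
(.lf (nat_lit 86718) (.g (nat_lit 5971) (.e (nat_lit 1996) (nat_lit 137) (.e (nat_lit 663565) (nat_lit 3) (.e (nat_lit 57478) (nat_lit 28) (.e (nat_lit 557109) (nat_lit 15) (.e (nat_lit 188452) (nat_lit 23) (.e (nat_lit 204858) (nat_lit 26) (.e (nat_lit 335907) (nat_lit 0) .nil))))))) (.g (nat_lit 7) .nil .nil))))))) (.nd (nat_lit 1) (.nd (nat_lit 2) (.nd (nat_lit 3) (.nd (nat_lit 4) 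
(.lf (nat_lit 86689) (.g (nat_lit 4445) (.e (nat_lit 1996) (nat_lit 137) (.e (nat_lit 663565) (nat_lit 3) (.e (nat_lit 57478) (nat_lit 28) (.e (nat_lit 557100) (nat_lit 13) (.e (nat_lit 172106) (nat_lit 10) (.e (nat_lit 434231) (nat_lit 23) (.e (nat_lit 532535) (nat_lit 9) (.e (nat_lit 335908) (nat_lit 0) .nil)))))))) (.g (nat_lit 7) .nil .nil))) 
(.lf (nat_lit 86705) (.g (nat_lit 3807) (.e (nat_lit 1996) (nat_lit 137) (.e (nat_lit 663565) (nat_lit 3) (.e (nat_lit 57478) (nat_lit 28) (.e (nat_lit 557107) (nat_lit 15) (.e (nat_lit 188450) (nat_lit 23) (.e (nat_lit 204855) (nat_lit 26) (.e (nat_lit 335907) (nat_lit 0) .nil))))))) (.g (nat_lit 0) .nil .nil)))) (.nd (nat_lit 4) 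
(.lf (nat_lit 86697) (.g (nat_lit 4375) (.e (nat_lit 1996) (nat_lit 137) (.e (nat_lit 663565) (nat_lit 3) (.e (nat_lit 57478) (nat_lit 28) (.e (nat_lit 557101) (nat_lit 13) (.e (nat_lit 172115) (nat_lit 10) (.e (nat_lit 434231) (nat_lit 23) (.e (nat_lit 532535) (nat_lit 9) (.e (nat_lit 335886) (nat_lit 0) .nil)))))))) (.g (nat_lit 8) .nil .nil))) 
(.lf (nat_lit 86713) (.g (nat_lit 4284) (.e (nat_lit 1996) (nat_lit 137) (.e (nat_lit 663565) (nat_lit 3) (.e (nat_lit 57478) (nat_lit 28) (.e (nat_lit 557109) (nat_lit 15) (.e (nat_lit 188452) (nat_lit 23) (.e (nat_lit 204855) (nat_lit 26) (.e (nat_lit 335905) (nat_lit 0) .nil))))))) (.g (nat_lit 0) .nil .nil))))) (.nd (nat_lit 3) (.nd (nat_lit 4) 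
(.lf (nat_lit 86693) (.g (nat_lit 3056) (.e (nat_lit 1996) (nat_lit 137) (.e (nat_lit 663565) (nat_lit 3) (.e (nat_lit 57478) (nat_lit 28) (.e (nat_lit 557101) (nat_lit 13) (.e (nat_lit 172097) (nat_lit 9) (.e (nat_lit 426140) (nat_lit 3) (.e (nat_lit 204850) (nat_lit 26) (.e (nat_lit 335907) (nat_lit 0) .nil)))))))) (.g (nat_lit 6) .nil .nil))) 
(.lf (nat_lit 86709) (.g (nat_lit 4341) (.e (nat_lit 1996) (nat_lit 137) (.e (nat_lit 663565) (nat_lit 3) (.e (nat_lit 57478) (nat_lit 28) (.e (nat_lit 557109) (nat_lit 15) (.e (nat_lit 188449) (nat_lit 22) (.e (nat_lit 196666) (nat_lit 13) (.e (nat_lit 65536) (nat_lit 0) .nil))))))) (.g (nat_lit 7) .nil .nil)))) (.nd (nat_lit 4) 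
(.lf (nat_lit 86701) (.g (nat_lit 4059) (.e (nat_lit 1996) (nat_lit 137) (.e (nat_lit 663565) (nat_lit 3) (.e (nat_lit 57478) (nat_lit 28) (.e (nat_lit 557107) (nat_lit 15) (.e (nat_lit 188447) (nat_lit 22) (.e (nat_lit 196666) (nat_lit 13) (.e (nat_lit 65536) (nat_lit 0) .nil))))))) (.g (nat_lit 0) .nil .nil))) 
(.lf (nat_lit 86717) (.g (nat_lit 5461) (.e (nat_lit 1996) (nat_lit 137) (.e (nat_lit 663565) (nat_lit 3) (.e (nat_lit 57478) (nat_lit 28) (.e (nat_lit 557109) (nat_lit 15) (.e (nat_lit 188452) (nat_lit 23) (.e (nat_lit 204857) (nat_lit 26) (.e (nat_lit 335907) (nat_lit 0) .nil))))))) (.g (nat_lit 7) .nil .nil)))))) (.nd (nat_lit 2) (.nd (nat_lit 3) (.nd (nat_lit 4) 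
(.lf (nat_lit 86691) (.g (nat_lit 3889) (.e (nat_lit 1996) (nat_lit 137) (.e (nat_lit 663565) (nat_lit 3) (.e (nat_lit 57478) (nat_lit 28) (.e (nat_lit 557101) (nat_lit 13) (.e (nat_lit 172097) (nat_lit 9) (.e (nat_lit 426125) (nat_lit 2) (.e (nat_lit 196666) (nat_lit 13) (.e (nat_lit 65539) (nat_lit 0) .nil)))))))) (.g (nat_lit 8) .nil .nil))) 
(.lf (nat_lit 86707) (.g (nat_lit 2589) (.e (nat_lit 1996) (nat_lit 137) (.e (nat_lit 663565) (nat_lit 3) (.e (nat_lit 57478) (nat_lit 28) (.e (nat_lit 557107) (nat_lit 15) (.e (nat_lit 188450) (nat_lit 23) (.e (nat_lit 204856) (nat_lit 26) (.e (nat_lit 335907) (nat_lit 0) .nil))))))) (.g (nat_lit 5) .nil .nil)))) (.nd (nat_lit 4) 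
(.lf (nat_lit 86699) (.g (nat_lit 4151) (.e (nat_lit 1996) (nat_lit 137) (.e (nat_lit 663565) (nat_lit 3) (.e (nat_lit 57478) (nat_lit 28) (.e (nat_lit 557101) (nat_lit 13) (.e (nat_lit 172115) (nat_lit 10) (.e (nat_lit 434231) (nat_lit 23) (.e (nat_lit 532535) (nat_lit 9) (.e (nat_lit 335908) (nat_lit 0) .nil)))))))) (.g (nat_lit 0) .nil .nil))) 
(.lf (nat_lit 86715) (.g (nat_lit 4055) (.e (nat_lit 1996) (nat_lit 137) (.e (nat_lit 663565) (nat_lit 3) (.e (nat_lit 57478) (nat_lit 28) (.e (nat_lit 557109) (nat_lit 15) (.e (nat_lit 188452) (nat_lit 23) (.e (nat_lit 204855) (nat_lit 26) (.e (nat_lit 335908) (nat_lit 0) .nil))))))) (.g (nat_lit 0) .nil .nil))))) (.nd (nat_lit 3) (.nd (nat_lit 4) 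
(.lf (nat_lit 86695) (.g (nat_lit 4353) (.e (nat_lit 1996) (nat_lit 137) (.e (nat_lit 663565) (nat_lit 3) (.e (nat_lit 57478) (nat_lit 28) (.e (nat_lit 557101) (nat_lit 13) (.e (nat_lit 172097) (nat_lit 9) (.e (nat_lit 426140) (nat_lit 3) (.e (nat_lit 204855) (nat_lit 26) (.e (nat_lit 335907) (nat_lit 0) .nil)))))))) (.g (nat_lit 0) .nil .nil))) 
(.lf (nat_lit 86711) (.g (nat_lit 3963) (.e (nat_lit 1996) (nat_lit 137) (.e (nat_lit 663565) (nat_lit 3) (.e (nat_lit 57478) (nat_lit 28) (.e (nat_lit 557109) (nat_lit 15) (.e (nat_lit 188449) (nat_lit 22) (.e (nat_lit 196666) (nat_lit 13) (.e (nat_lit 65543) (nat_lit 0) .nil))))))) (.g (nat_lit 0) .nil .nil)))) (.nd (nat_lit 4) 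
(.lf (nat_lit 86703) (.g (nat_lit 3626) (.e (nat_lit 1996) (nat_lit 137) (.e (nat_lit 663565) (nat_lit 3) (.e (nat_lit 57478) (nat_lit 28) (.e (nat_lit 557107) (nat_lit 15) (.e (nat_lit 188447) (nat_lit 22) (.e (nat_lit 196666) (nat_lit 13) (.e (nat_lit 65543) (nat_lit 0) .nil))))))) (.g (nat_lit 0) .nil .nil))) 
(.lf (nat_lit 86719) (.g (nat_lit 2793) (.e (nat_lit 1996) (nat_lit 137) (.e (nat_lit 663565) (nat_lit 3) (.e (nat_lit 57479) (nat_lit 28) (.e (nat_lit 557095) (nat_lit 13) (.e (nat_lit 172097) (nat_lit 9) .nil))))) .nil)))))))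

noncomputable def tv1178 : DT := (.nd (nat_lit 0) (.nd (nat_lit 1) (.nd (nat_lit 2) (.nd (nat_lit 3) (.nd (nat_lit 4) (.nd (nat_lit 5) 
(.lf (nat_lit 86720) (.g (nat_lit 2835) (.e (nat_lit 1996) (nat_lit 137) (.e (nat_lit 663565) (nat_lit 3) (.e (nat_lit 57479) (nat_lit 28) (.e (nat_lit 557095) (nat_lit 13) (.e (nat_lit 172097) (nat_lit 9) (.e (nat_lit 426125) (nat_lit 2) (.e (nat_lit 196666) (nat_lit 13) (.e (nat_lit 65543) (nat_lit 0) .nil)))))))) (.g (nat_lit 4) .nil .nil))) 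
(.lf (nat_lit 86752) (.g (nat_lit 1752) (.e (nat_lit 1996) (nat_lit 137) (.e (nat_lit 663567) (nat_lit 4) (.e (nat_lit 65584) (nat_lit 7) (.e (nat_lit 319539) (nat_lit 19) (.e (nat_lit 311358) (nat_lit 29) (.e (nat_lit 352286) (nat_lit 20) .nil)))))) (.g (nat_lit 0) .nil .nil)))) (.nd (nat_lit 5) 
(.lf (nat_lit 86736) (.g (nat_lit 4169) (.e (nat_lit 1996) (nat_lit 137) (.e (nat_lit 663565) (nat_lit 3) (.e (nat_lit 57480) (nat_lit 28) (.e (nat_lit 557109) (nat_lit 15) (.e (nat_lit 188452) (nat_lit 23) (.e (nat_lit 204855) (nat_lit 26) (.e (nat_lit 335907) (nat_lit 0) .nil))))))) (.g (nat_lit 6) .nil .nil))) 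
(.lf (nat_lit 86768) (.g (nat_lit 1741) (.e (nat_lit 1996) (nat_lit 137) (.e (nat_lit 663567) (nat_lit 4) (.e (nat_lit 65611) (nat_lit 10) (.e (nat_lit 344168) (nat_lit 40) (.e (nat_lit 671764) (nat_lit 6) (.e (nat_lit 81934) (nat_lit 20) .nil)))))) (.g (nat_lit 6) .nil .nil))))) (.nd (nat_lit 4) (.nd (nat_lit 5) 
(.lf (nat_lit 86728) (.g (nat_lit 3663) (.e (nat_lit 1996) (nat_lit 137) (.e (nat_lit 663565) (nat_lit 3) (.e (nat_lit 57480) (nat_lit 28) (.e (nat_lit 557098) (nat_lit 13) (.e (nat_lit 172097) (nat_lit 9) (.e (nat_lit 426140) (nat_lit 3) (.e (nat_lit 204855) (nat_lit 26) (.e (nat_lit 335908) (nat_lit 0) .nil)))))))) (.g (nat_lit 6) .nil .nil))) 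
(.lf (nat_lit 86760) (.g (nat_lit 1654) (.e (nat_lit 1996) (nat_lit 137) (.e (nat_lit 663567) (nat_lit 4) (.e (nat_lit 65604) (nat_lit 9) (.e (nat_lit 335907) (nat_lit 0) (.e (nat_lit 1996) (nat_lit 137) (.e (nat_lit 663569) (nat_lit 6) (.e (nat_lit 81935) (nat_lit 20) .nil))))))) (.g (nat_lit 4) .nil .nil)))) (.nd (nat_lit 5) 
(.lf (nat_lit 86744) (.g (nat_lit 2016) (.e (nat_lit 1996) (nat_lit 137) (.e (nat_lit 663566) (nat_lit 4) (.e (nat_lit 65630) (nat_lit 14) (.e (nat_lit 401459) (nat_lit 13) (.e (nat_lit 483386) (nat_lit 23) (.e (nat_lit 335908) (nat_lit 0) .nil)))))) (.g (nat_lit 0) .nil .nil))) 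
(.lf (nat_lit 86776) (.g (nat_lit 2390) (.e (nat_lit 1996) (nat_lit 137) (.e (nat_lit 663567) (nat_lit 4) (.e (nat_lit 65619) (nat_lit 10) (.e (nat_lit 344168) (nat_lit 40) (.e (nat_lit 671764) (nat_lit 6) (.e (nat_lit 81935) (nat_lit 20) .nil)))))) (.g (nat_lit 0) .nil .nil)))))) (.nd (nat_lit 3) (.nd (nat_lit 4) (.nd (nat_lit 5) 
(.lf (nat_lit 86724) (.g (nat_lit 3728) (.e (nat_lit 1996) (nat_lit 137) (.e (nat_lit 663565) (nat_lit 3) (.e (nat_lit 57479) (nat_lit 28) (.e (nat_lit 557101) (nat_lit 13) (.e (nat_lit 172097) (nat_lit 9) (.e (nat_lit 426140) (nat_lit 3) (.e (nat_lit 204855) (nat_lit 26) (.e (nat_lit 335908) (nat_lit 0) .nil)))))))) (.g (nat_lit 6) .nil .nil))) 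
(.lf (nat_lit 86756) (.g (nat_lit 2002) (.e (nat_lit 1996) (nat_lit 137) (.e (nat_lit 663567) (nat_lit 4) (.e (nat_lit 65586) (nat_lit 7) (.e (nat_lit 319539) (nat_lit 19) (.e (nat_lit 311358) (nat_lit 29) (.e (nat_lit 352286) (nat_lit 20) .nil)))))) (.g (nat_lit 6) .nil .nil)))) (.nd (nat_lit 5) 
(.lf (nat_lit 86740) (.g (nat_lit 3659) (.e (nat_lit 1996) (nat_lit 137) (.e (nat_lit 663565) (nat_lit 3) (.e (nat_lit 57520) (nat_lit 44) (.e (nat_lit 688177) (nat_lit 16) (.e (nat_lit 65583) (nat_lit 7) (.e (nat_lit 319530) (nat_lit 16) (.e (nat_lit 286745) (nat_lit 9) (.e (nat_lit 335907) (nat_lit 0) .nil)))))))) (.g (nat_lit 7) .nil .nil))) 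
(.lf (nat_lit 86772) (.g (nat_lit 2089) (.e (nat_lit 1996) (nat_lit 137) (.e (nat_lit 663567) (nat_lit 4) (.e (nat_lit 65617) (nat_lit 10) (.e (nat_lit 344168) (nat_lit 40) (.e (nat_lit 671764) (nat_lit 6) (.e (nat_lit 81934) (nat_lit 20) .nil)))))) (.g (nat_lit 5) .nil .nil))))) (.nd (nat_lit 4) (.nd (nat_lit 5) 
(.lf (nat_lit 86732) (.g (nat_lit 3920) (.e (nat_lit 1996) (nat_lit 137) (.e (nat_lit 663565) (nat_lit 3) (.e (nat_lit 57480) (nat_lit 28) (.e (nat_lit 557108) (nat_lit 15) (.e (nat_lit 188452) (nat_lit 23) (.e (nat_lit 204850) (nat_lit 26) (.e (nat_lit 335907) (nat_lit 0) .nil))))))) (.g (nat_lit 6) .nil .nil))) 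
(.lf (nat_lit 86764) (.g (nat_lit 1885) (.e (nat_lit 1996) (nat_lit 137) (.e (nat_lit 663567) (nat_lit 4) (.e (nat_lit 65610) (nat_lit 10) (.e (nat_lit 344097) (nat_lit 18) (.e (nat_lit 5907) (nat_lit 320) (.e (nat_lit 1219) (nat_lit 90) (.e (nat_lit 81934) (nat_lit 20) .nil))))))) (.g (nat_lit 4) .nil .nil)))) (.nd (nat_lit 5) 
(.lf (nat_lit 86748) (.g (nat_lit 1889) (.e (nat_lit 1996) (nat_lit 137) (.e (nat_lit 663567) (nat_lit 4) (.e (nat_lit 65583) (nat_lit 7) (.e (nat_lit 319539) (nat_lit 19) (.e (nat_lit 311358) (nat_lit 29) (.e (nat_lit 352287) (nat_lit 20) .nil)))))) (.g (nat_lit 0) .nil .nil))) 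
(.lf (nat_lit 86780) (.g (nat_lit 2279) (.e (nat_lit 1996) (nat_lit 137) (.e (nat_lit 663567) (nat_lit 4) (.e (nat_lit 65622) (nat_lit 12) (.e (nat_lit 385093) (nat_lit 49) (.e (nat_lit 778326) (nat_lit 6) (.e (nat_lit 81935) (nat_lit 20) .nil)))))) (.g (nat_lit 0) .nil .nil))))))) (.nd (nat_lit 2) (.nd (nat_lit 3) (.nd (nat_lit 4) (.nd (nat_lit 5) 
(.lf (nat_lit 86722) (.g (nat_lit 3820) (.e (nat_lit 1996) (nat_lit 137) (.e (nat_lit 663565) (nat_lit 3) (.e (nat_lit 57479) (nat_lit 28) (.e (nat_lit 557101) (nat_lit 13) (.e (nat_lit 172097) (nat_lit 9) (.e (nat_lit 426140) (nat_lit 3) (.e (nat_lit 204855) (nat_lit 26) (.e (nat_lit 335905) (nat_lit 0) .nil)))))))) (.g (nat_lit 6) .nil .nil))) 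
(.lf (nat_lit 86754) (.g (nat_lit 1616) (.e (nat_lit 1996) (nat_lit 137) (.e (nat_lit 663567) (nat_lit 4) (.e (nat_lit 65585) (nat_lit 7) (.e (nat_lit 319539) (nat_lit 19) (.e (nat_lit 311358) (nat_lit 29) (.e (nat_lit 352286) (nat_lit 20) .nil)))))) (.g (nat_lit 0) .nil .nil)))) (.nd (nat_lit 5) 
(.lf (nat_lit 86738) (.g (nat_lit 4759) (.e (nat_lit 1996) (nat_lit 137) (.e (nat_lit 663565) (nat_lit 3) (.e (nat_lit 57480) (nat_lit 28) (.e (nat_lit 557109) (nat_lit 15) (.e (nat_lit 188452) (nat_lit 23) (.e (nat_lit 204857) (nat_lit 26) (.e (nat_lit 335907) (nat_lit 0) .nil))))))) (.g (nat_lit 5) .nil .nil))) 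
(.lf (nat_lit 86770) (.g (nat_lit 1946) (.e (nat_lit 1996) (nat_lit 137) (.e (nat_lit 663567) (nat_lit 4) (.e (nat_lit 65616) (nat_lit 10) (.e (nat_lit 344168) (nat_lit 40) (.e (nat_lit 671764) (nat_lit 6) (.e (nat_lit 81935) (nat_lit 20) .nil)))))) (.g (nat_lit 6) .nil .nil))))) (.nd (nat_lit 4) (.nd (nat_lit 5) 
(.lf (nat_lit 86730) (.g (nat_lit 3448) (.e (nat_lit 1996) (nat_lit 137) (.e (nat_lit 663565) (nat_lit 3) (.e (nat_lit 57480) (nat_lit 28) (.e (nat_lit 557107) (nat_lit 15) (.e (nat_lit 188450) (nat_lit 23) (.e (nat_lit 204855) (nat_lit 26) (.e (nat_lit 335907) (nat_lit 0) .nil))))))) (.g (nat_lit 6) .nil .nil))) 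
(.lf (nat_lit 86762) (.g (nat_lit 2935) (.e (nat_lit 1996) (nat_lit 137) (.e (nat_lit 663567) (nat_lit 4) (.e (nat_lit 65610) (nat_lit 10) (.e (nat_lit 344097) (nat_lit 18) (.e (nat_lit 5905) (nat_lit 320) (.e (nat_lit 1219) (nat_lit 90) (.e (nat_lit 81935) (nat_lit 20) .nil))))))) (.g (nat_lit 6) .nil .nil)))) (.nd (nat_lit 5) 
(.lf (nat_lit 86746) (.g (nat_lit 444) (.e (nat_lit 1996) (nat_lit 137) (.e (nat_lit 663567) (nat_lit 4) (.e (nat_lit 65581) (nat_lit 7) .nil))) .nil)) 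
(.lf (nat_lit 86778) (.g (nat_lit 1359) (.e (nat_lit 1996) (nat_lit 137) (.e (nat_lit 663567) (nat_lit 4) (.e (nat_lit 65622) (nat_lit 12) (.e (nat_lit 385092) (nat_lit 49) (.e (nat_lit 778326) (nat_lit 6) .nil))))) .nil))))) (.nd (nat_lit 3) (.nd (nat_lit 4) (.nd (nat_lit 5) 
(.lf (nat_lit 86726) (.g (nat_lit 3164) (.e (nat_lit 1996) (nat_lit 137) (.e (nat_lit 663565) (nat_lit 3) (.e (nat_lit 57479) (nat_lit 28) (.e (nat_lit 557109) (nat_lit 15) (.e (nat_lit 188458) (nat_lit 25) .nil))))) .nil)) 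
(.lf (nat_lit 86758) (.g (nat_lit 2604) (.e (nat_lit 1996) (nat_lit 137) (.e (nat_lit 663567) (nat_lit 4) (.e (nat_lit 65598) (nat_lit 9) (.e (nat_lit 335907) (nat_lit 0) (.e (nat_lit 1996) (nat_lit 137) (.e (nat_lit 663567) (nat_lit 4) (.e (nat_lit 65598) (nat_lit 9) (.e (nat_lit 335907) (nat_lit 0) .nil)))))))) (.g (nat_lit 6) .nil .nil)))) (.nd (nat_lit 5) 
(.lf (nat_lit 86742) (.g (nat_lit 2300) (.e (nat_lit 1996) (nat_lit 137) (.e (nat_lit 663566) (nat_lit 4) (.e (nat_lit 65630) (nat_lit 14) (.e (nat_lit 401438) (nat_lit 9) (.e (nat_lit 426542) (nat_lit 29) (.e (nat_lit 352287) (nat_lit 20) .nil)))))) (.g (nat_lit 0) .nil .nil))) 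
(.lf (nat_lit 86774) (.g (nat_lit 1617) (.e (nat_lit 1996) (nat_lit 137) (.e (nat_lit 663567) (nat_lit 4) (.e (nat_lit 65619) (nat_lit 10) (.e (nat_lit 344097) (nat_lit 18) (.e (nat_lit 5906) (nat_lit 320) (.e (nat_lit 7936) (nat_lit 90) (.e (nat_lit 81935) (nat_lit 20) .nil))))))) (.g (nat_lit 4) .nil .nil))))) (.nd (nat_lit 4) (.nd (nat_lit 5) 
(.lf (nat_lit 86734) (.g (nat_lit 3484) (.e (nat_lit 1996) (nat_lit 137) (.e (nat_lit 663565) (nat_lit 3) (.e (nat_lit 57480) (nat_lit 28) (.e (nat_lit 557108) (nat_lit 15) (.e (nat_lit 188452) (nat_lit 23) (.e (nat_lit 204852) (nat_lit 26) (.e (nat_lit 343808) (nat_lit 0) .nil))))))) (.g (nat_lit 5) .nil .nil))) 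
(.lf (nat_lit 86766) (.g (nat_lit 1940) (.e (nat_lit 1996) (nat_lit 137) (.e (nat_lit 663567) (nat_lit 4) (.e (nat_lit 65610) (nat_lit 10) (.e (nat_lit 344168) (nat_lit 40) (.e (nat_lit 671764) (nat_lit 6) (.e (nat_lit 81934) (nat_lit 20) .nil)))))) (.g (nat_lit 6) .nil .nil)))) (.nd (nat_lit 5) 
(.lf (nat_lit 86750) (.g (nat_lit 1495) (.e (nat_lit 1996) (nat_lit 137) (.e (nat_lit 663567) (nat_lit 4) (.e (nat_lit 65584) (nat_lit 7) (.e (nat_lit 319506) (nat_lit 10) (.e (nat_lit 5722) (nat_lit 312) .nil))))) .nil)) 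
(.lf (nat_lit 86782) (.g (nat_lit 1597) (.e (nat_lit 1996) (nat_lit 137) (.e (nat_lit 663567) (nat_lit 4) (.e (nat_lit 65623) (nat_lit 12) (.e (nat_lit 385093) (nat_lit 49) (.e (nat_lit 778326) (nat_lit 6) (.e (nat_lit 81935) (nat_lit 20) .nil)))))) (.g (nat_lit 4) .nil .nil)))))))) (.nd (nat_lit 1) (.nd (nat_lit 2) (.nd (nat_lit 3) (.nd (nat_lit 4) (.nd (nat_lit 5) 
(.lf (nat_lit 86721) (.g (nat_lit 2632) (.e (nat_lit 1996) (nat_lit 137) (.e (nat_lit 663565) (nat_lit 3) (.e (nat_lit 57479) (nat_lit 28) (.e (nat_lit 557095) (nat_lit 13) (.e (nat_lit 172115) (nat_lit 10) .nil))))) .nil)) 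
(.lf (nat_lit 86753) (.g (nat_lit 1831) (.e (nat_lit 1996) (nat_lit 137) (.e (nat_lit 663567) (nat_lit 4) (.e (nat_lit 65584) (nat_lit 7) (.e (nat_lit 319539) (nat_lit 19) (.e (nat_lit 311358) (nat_lit 29) (.e (nat_lit 352287) (nat_lit 20) .nil)))))) (.g (nat_lit 0) .nil .nil)))) (.nd (nat_lit 5) 
(.lf (nat_lit 86737) (.g (nat_lit 4664) (.e (nat_lit 1996) (nat_lit 137) (.e (nat_lit 663565) (nat_lit 3) (.e (nat_lit 57480) (nat_lit 28) (.e (nat_lit 557109) (nat_lit 15) (.e (nat_lit 188452) (nat_lit 23) (.e (nat_lit 204856) (nat_lit 26) (.e (nat_lit 335907) (nat_lit 0) .nil))))))) (.g (nat_lit 6) .nil .nil))) 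
(.lf (nat_lit 86769) (.g (nat_lit 2068) (.e (nat_lit 1996) (nat_lit 137) (.e (nat_lit 663567) (nat_lit 4) (.e (nat_lit 65611) (nat_lit 10) (.e (nat_lit 344168) (nat_lit 40) (.e (nat_lit 671764) (nat_lit 6) (.e (nat_lit 81935) (nat_lit 20) .nil)))))) (.g (nat_lit 0) .nil .nil))))) (.nd (nat_lit 4) (.nd (nat_lit 5) 
(.lf (nat_lit 86729) (.g (nat_lit 4949) (.e (nat_lit 1996) (nat_lit 137) (.e (nat_lit 663565) (nat_lit 3) (.e (nat_lit 57480) (nat_lit 28) (.e (nat_lit 557098) (nat_lit 13) (.e (nat_lit 172115) (nat_lit 10) (.e (nat_lit 434231) (nat_lit 23) (.e (nat_lit 532535) (nat_lit 9) (.e (nat_lit 335905) (nat_lit 0) .nil)))))))) (.g (nat_lit 7) .nil .nil))) 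
(.lf (nat_lit 86761) (.g (nat_lit 2767) (.e (nat_lit 1996) (nat_lit 137) (.e (nat_lit 663567) (nat_lit 4) (.e (nat_lit 65610) (nat_lit 10) (.e (nat_lit 344097) (nat_lit 18) (.e (nat_lit 5905) (nat_lit 320) (.e (nat_lit 1190) (nat_lit 88) (.e (nat_lit 65604) (nat_lit 9) (.e (nat_lit 335907) (nat_lit 0) .nil)))))))) (.g (nat_lit 5) .nil .nil)))) (.nd (nat_lit 5) 
(.lf (nat_lit 86745) (.g (nat_lit 1013) (.e (nat_lit 1996) (nat_lit 137) (.e (nat_lit 663567) (nat_lit 4) (.e (nat_lit 65542) (nat_lit 0) (.e (nat_lit 6113) (nat_lit 332) (.e (nat_lit 1376) (nat_lit 104) .nil))))) .nil)) 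
(.lf (nat_lit 86777) (.g (nat_lit 932) (.e (nat_lit 1996) (nat_lit 137) (.e (nat_lit 663567) (nat_lit 4) (.e (nat_lit 65622) (nat_lit 12) (.e (nat_lit 385092) (nat_lit 49) .nil)))) .nil))))) (.nd (nat_lit 3) (.nd (nat_lit 4) (.nd (nat_lit 5) 
(.lf (nat_lit 86725) (.g (nat_lit 4915) (.e (nat_lit 1996) (nat_lit 137) (.e (nat_lit 663565) (nat_lit 3) (.e (nat_lit 57479) (nat_lit 28) (.e (nat_lit 557101) (nat_lit 13) (.e (nat_lit 172115) (nat_lit 10) (.e (nat_lit 434231) (nat_lit 23) (.e (nat_lit 532535) (nat_lit 9) (.e (nat_lit 335905) (nat_lit 0) .nil)))))))) (.g (nat_lit 7) .nil .nil))) 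
(.lf (nat_lit 86757) (.g (nat_lit 1824) (.e (nat_lit 1996) (nat_lit 137) (.e (nat_lit 663567) (nat_lit 4) (.e (nat_lit 65598) (nat_lit 9) (.e (nat_lit 335907) (nat_lit 0) (.e (nat_lit 1996) (nat_lit 137) .nil))))) .nil))) (.nd (nat_lit 5) 
(.lf (nat_lit 86741) (.g (nat_lit 3729) (.e (nat_lit 1996) (nat_lit 137) (.e (nat_lit 663565) (nat_lit 3) (.e (nat_lit 57520) (nat_lit 44) (.e (nat_lit 688177) (nat_lit 16) (.e (nat_lit 65586) (nat_lit 7) (.e (nat_lit 319531) (nat_lit 16) (.e (nat_lit 286745) (nat_lit 9) (.e (nat_lit 335907) (nat_lit 0) .nil)))))))) (.g (nat_lit 6) .nil .nil))) 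
(.lf (nat_lit 86773) (.g (nat_lit 2427) (.e (nat_lit 1996) (nat_lit 137) (.e (nat_lit 663567) (nat_lit 4) (.e (nat_lit 65617) (nat_lit 10) (.e (nat_lit 344168) (nat_lit 40) (.e (nat_lit 671764) (nat_lit 6) (.e (nat_lit 81935) (nat_lit 20) .nil)))))) (.g (nat_lit 6) .nil .nil))))) (.nd (nat_lit 4) (.nd (nat_lit 5) 
(.lf (nat_lit 86733) (.g (nat_lit 3102) (.e (nat_lit 1996) (nat_lit 137) (.e (nat_lit 663565) (nat_lit 3) (.e (nat_lit 57480) (nat_lit 28) (.e (nat_lit 557108) (nat_lit 15) (.e (nat_lit 188452) (nat_lit 23) (.e (nat_lit 204851) (nat_lit 26) (.e (nat_lit 335939) (nat_lit 0) .nil))))))) (.g (nat_lit 5) .nil .nil))) 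
(.lf (nat_lit 86765) (.g (nat_lit 1824) (.e (nat_lit 1996) (nat_lit 137) (.e (nat_lit 663567) (nat_lit 4) (.e (nat_lit 65610) (nat_lit 10) (.e (nat_lit 344097) (nat_lit 18) (.e (nat_lit 5907) (nat_lit 320) (.e (nat_lit 1221) (nat_lit 90) (.e (nat_lit 81931) (nat_lit 20) .nil))))))) (.g (nat_lit 4) .nil .nil)))) (.nd (nat_lit 5) 
(.lf (nat_lit 86749) (.g (nat_lit 1471) (.e (nat_lit 1996) (nat_lit 137) (.e (nat_lit 663567) (nat_lit 4) (.e (nat_lit 65584) (nat_lit 7) (.e (nat_lit 319506) (nat_lit 10) (.e (nat_lit 5721) (nat_lit 312) .nil))))) .nil)) 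
(.lf (nat_lit 86781) (.g (nat_lit 2613) (.e (nat_lit 1996) (nat_lit 137) (.e (nat_lit 663567) (nat_lit 4) (.e (nat_lit 65622) (nat_lit 12) (.e (nat_lit 385105) (nat_lit 50) (.e (nat_lit 786478) (nat_lit 29) (.e (nat_lit 352287) (nat_lit 20) .nil)))))) (.g (nat_lit 6) .nil .nil))))))) (.nd (nat_lit 2) (.nd (nat_lit 3) (.nd (nat_lit 4) (.nd (nat_lit 5) 
(.lf (nat_lit 86723) (.g (nat_lit 4261) (.e (nat_lit 1996) (nat_lit 137) (.e (nat_lit 663565) (nat_lit 3) (.e (nat_lit 57479) (nat_lit 28) (.e (nat_lit 557101) (nat_lit 13) (.e (nat_lit 172097) (nat_lit 9) (.e (nat_lit 426140) (nat_lit 3) (.e (nat_lit 204855) (nat_lit 26) (.e (nat_lit 335907) (nat_lit 0) .nil)))))))) (.g (nat_lit 7) .nil .nil))) 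
(.lf (nat_lit 86755) (.g (nat_lit 1690) (.e (nat_lit 1996) (nat_lit 137) (.e (nat_lit 663567) (nat_lit 4) (.e (nat_lit 65585) (nat_lit 7) (.e (nat_lit 319539) (nat_lit 19) (.e (nat_lit 311358) (nat_lit 29) (.e (nat_lit 352287) (nat_lit 20) .nil)))))) (.g (nat_lit 0) .nil .nil)))) (.nd (nat_lit 5) 
(.lf (nat_lit 86739) (.g (nat_lit 3770) (.e (nat_lit 1996) (nat_lit 137) (.e (nat_lit 663565) (nat_lit 3) (.e (nat_lit 57480) (nat_lit 28) (.e (nat_lit 557109) (nat_lit 15) (.e (nat_lit 188458) (nat_lit 25) (.e (nat_lit 245784) (nat_lit 9) (.e (nat_lit 1440) (nat_lit 108) (.e (nat_lit 335907) (nat_lit 0) .nil)))))))) (.g (nat_lit 5) .nil .nil))) 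
(.lf (nat_lit 86771) (.g (nat_lit 1938) (.e (nat_lit 1996) (nat_lit 137) (.e (nat_lit 663567) (nat_lit 4) (.e (nat_lit 65617) (nat_lit 10) (.e (nat_lit 344091) (nat_lit 18) (.e (nat_lit 5896) (nat_lit 320) .nil))))) .nil)))) (.nd (nat_lit 4) (.nd (nat_lit 5) 
(.lf (nat_lit 86731) (.g (nat_lit 2868) (.e (nat_lit 1996) (nat_lit 137) (.e (nat_lit 663565) (nat_lit 3) (.e (nat_lit 57480) (nat_lit 28) (.e (nat_lit 557107) (nat_lit 15) (.e (nat_lit 188450) (nat_lit 23) (.e (nat_lit 204855) (nat_lit 26) (.e (nat_lit 335908) (nat_lit 0) .nil))))))) (.g (nat_lit 5) .nil .nil))) 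
(.lf (nat_lit 86763) (.g (nat_lit 1756) (.e (nat_lit 1996) (nat_lit 137) (.e (nat_lit 663567) (nat_lit 4) (.e (nat_lit 65610) (nat_lit 10) (.e (nat_lit 344097) (nat_lit 18) (.e (nat_lit 5907) (nat_lit 320) .nil))))) .nil))) (.nd (nat_lit 5) 
(.lf (nat_lit 86747) (.g (nat_lit 1826) (.e (nat_lit 1996) (nat_lit 137) (.e (nat_lit 663567) (nat_lit 4) (.e (nat_lit 65583) (nat_lit 7) (.e (nat_lit 319539) (nat_lit 19) (.e (nat_lit 311358) (nat_lit 29) (.e (nat_lit 352286) (nat_lit 20) .nil)))))) (.g (nat_lit 0) .nil .nil))) 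
(.lf (nat_lit 86779) (.g (nat_lit 2072) (.e (nat_lit 1996) (nat_lit 137) (.e (nat_lit 663567) (nat_lit 4) (.e (nat_lit 65622) (nat_lit 12) (.e (nat_lit 385093) (nat_lit 49) (.e (nat_lit 778321) (nat_lit 4) .nil))))) .nil))))) (.nd (nat_lit 3) (.nd (nat_lit 4) (.nd (nat_lit 5) 
(.lf (nat_lit 86727) (.g (nat_lit 4196) (.e (nat_lit 1996) (nat_lit 137) (.e (nat_lit 663565) (nat_lit 3) (.e (nat_lit 57480) (nat_lit 28) (.e (nat_lit 557098) (nat_lit 13) (.e (nat_lit 172097) (nat_lit 9) (.e (nat_lit 426140) (nat_lit 3) (.e (nat_lit 204855) (nat_lit 26) (.e (nat_lit 335907) (nat_lit 0) .nil)))))))) (.g (nat_lit 7) .nil .nil))) 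
(.lf (nat_lit 86759) (.g (nat_lit 1519) (.e (nat_lit 1996) (nat_lit 137) (.e (nat_lit 663567) (nat_lit 4) (.e (nat_lit 65604) (nat_lit 9) (.e (nat_lit 335907) (nat_lit 0) (.e (nat_lit 1996) (nat_lit 137) .nil))))) .nil))) (.nd (nat_lit 5) 
(.lf (nat_lit 86743) (.g (nat_lit 2101) (.e (nat_lit 1996) (nat_lit 137) (.e (nat_lit 663566) (nat_lit 4) (.e (nat_lit 65630) (nat_lit 14) (.e (nat_lit 401459) (nat_lit 13) (.e (nat_lit 483386) (nat_lit 23) (.e (nat_lit 335905) (nat_lit 0) .nil)))))) (.g (nat_lit 6) .nil .nil))) 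
(.lf (nat_lit 86775) (.g (nat_lit 2057) (.e (nat_lit 1996) (nat_lit 137) (.e (nat_lit 663567) (nat_lit 4) (.e (nat_lit 65619) (nat_lit 10) (.e (nat_lit 344168) (nat_lit 40) (.e (nat_lit 671764) (nat_lit 6) (.e (nat_lit 81934) (nat_lit 20) .nil)))))) (.g (nat_lit 6) .nil .nil))))) (.nd (nat_lit 4) (.nd (nat_lit 5) 
(.lf (nat_lit 86735) (.g (nat_lit 4882) (.e (nat_lit 1996) (nat_lit 137) (.e (nat_lit 663565) (nat_lit 3) (.e (nat_lit 57480) (nat_lit 28) (.e (nat_lit 557108) (nat_lit 15) (.e (nat_lit 188452) (nat_lit 23) (.e (nat_lit 204856) (nat_lit 26) (.e (nat_lit 335907) (nat_lit 0) .nil))))))) (.g (nat_lit 6) .nil .nil))) 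
(.lf (nat_lit 86767) (.g (nat_lit 2266) (.e (nat_lit 1996) (nat_lit 137) (.e (nat_lit 663567) (nat_lit 4) (.e (nat_lit 65610) (nat_lit 10) (.e (nat_lit 344168) (nat_lit 40) (.e (nat_lit 671764) (nat_lit 6) (.e (nat_lit 81935) (nat_lit 20) .nil)))))) (.g (nat_lit 0) .nil .nil)))) (.nd (nat_lit 5) 
(.lf (nat_lit 86751) (.g (nat_lit 1423) (.e (nat_lit 1996) (nat_lit 137) (.e (nat_lit 663567) (nat_lit 4) (.e (nat_lit 65584) (nat_lit 7) (.e (nat_lit 319506) (nat_lit 10) (.e (nat_lit 5723) (nat_lit 312) .nil))))) .nil)) 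
(.lf (nat_lit 86783) (.g (nat_lit 1494) (.e (nat_lit 1996) (nat_lit 137) (.e (nat_lit 663567) (nat_lit 4) (.e (nat_lit 65623) (nat_lit 12) (.e (nat_lit 385093) (nat_lit 49) (.e (nat_lit 786176) (nat_lit 6) .nil))))) .nil))))))))

noncomputable def tv1179 : DT := (.nd (nat_lit 0) (.nd (nat_lit 1) (.nd (nat_lit 2) (.nd (nat_lit 3) (.nd (nat_lit 4) (.nd (nat_lit 5) 
(.lf (nat_lit 86784) (.g (nat_lit 2174) (.e (nat_lit 1996) (nat_lit 137) (.e (nat_lit 663567) (nat_lit 4) (.e (nat_lit 65623) (nat_lit 12) (.e (nat_lit 385094) (nat_lit 49) (.e (nat_lit 778326) (nat_lit 6) (.e (nat_lit 81935) (nat_lit 20) .nil)))))) (.g (nat_lit 0) .nil .nil))) 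
(.lf (nat_lit 86816) (.g (nat_lit 1585) (.e (nat_lit 1996) (nat_lit 137) (.e (nat_lit 663567) (nat_lit 4) (.e (nat_lit 65630) (nat_lit 14) (.e (nat_lit 401437) (nat_lit 9) (.e (nat_lit 426509) (nat_lit 27) .nil))))) .nil))) (.nd (nat_lit 5) 
(.lf (nat_lit 86800) (.g (nat_lit 2597) (.e (nat_lit 1996) (nat_lit 137) (.e (nat_lit 663567) (nat_lit 4) (.e (nat_lit 65628) (nat_lit 14) (.e (nat_lit 401457) (nat_lit 13) (.e (nat_lit 483389) (nat_lit 23) (.e (nat_lit 335907) (nat_lit 0) .nil)))))) (.g (nat_lit 6) .nil .nil))) 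
(.lf (nat_lit 86832) (.g (nat_lit 2659) (.e (nat_lit 1996) (nat_lit 137) (.e (nat_lit 663567) (nat_lit 4) (.e (nat_lit 65630) (nat_lit 14) (.e (nat_lit 401459) (nat_lit 13) (.e (nat_lit 491264) (nat_lit 23) .nil))))) .nil)))) (.nd (nat_lit 4) (.nd (nat_lit 5) 
(.lf (nat_lit 86792) (.g (nat_lit 1988) (.e (nat_lit 1996) (nat_lit 137) (.e (nat_lit 663567) (nat_lit 4) (.e (nat_lit 65628) (nat_lit 14) (.e (nat_lit 401437) (nat_lit 9) (.e (nat_lit 426482) (nat_lit 27) .nil))))) .nil)) 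
(.lf (nat_lit 86824) (.g (nat_lit 2412) (.e (nat_lit 1996) (nat_lit 137) (.e (nat_lit 663567) (nat_lit 4) (.e (nat_lit 65630) (nat_lit 14) (.e (nat_lit 401457) (nat_lit 13) (.e (nat_lit 483378) (nat_lit 23) .nil))))) .nil))) (.nd (nat_lit 5) 
(.lf (nat_lit 86808) (.g (nat_lit 2252) (.e (nat_lit 1996) (nat_lit 137) (.e (nat_lit 663567) (nat_lit 4) (.e (nat_lit 65628) (nat_lit 14) (.e (nat_lit 401459) (nat_lit 13) (.e (nat_lit 491264) (nat_lit 23) (.e (nat_lit 335906) (nat_lit 0) .nil)))))) (.g (nat_lit 4) .nil .nil))) 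
(.lf (nat_lit 86840) (.g (nat_lit 614) (.e (nat_lit 1996) (nat_lit 137) (.e (nat_lit 663568) (nat_lit 5) (.e (nat_lit 73786) (nat_lit 45) (.e (nat_lit 1376) (nat_lit 104) (.e (nat_lit 303155) (nat_lit 29) .nil))))) .nil))))) (.nd (nat_lit 3) (.nd (nat_lit 4) (.nd (nat_lit 5) 
(.lf (nat_lit 86788) (.g (nat_lit 1325) (.e (nat_lit 1996) (nat_lit 137) (.e (nat_lit 663567) (nat_lit 4) (.e (nat_lit 65628) (nat_lit 14) (.e (nat_lit 401436) (nat_lit 9) (.e (nat_lit 426542) (nat_lit 29) (.e (nat_lit 352286) (nat_lit 20) .nil)))))) (.g (nat_lit 4) .nil .nil))) 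
(.lf (nat_lit 86820) (.g (nat_lit 2103) (.e (nat_lit 1996) (nat_lit 137) (.e (nat_lit 663567) (nat_lit 4) (.e (nat_lit 65630) (nat_lit 14) (.e (nat_lit 401437) (nat_lit 9) (.e (nat_lit 426540) (nat_lit 29) (.e (nat_lit 352287) (nat_lit 20) .nil)))))) (.g (nat_lit 4) .nil .nil)))) (.nd (nat_lit 5) 
(.lf (nat_lit 86804) (.g (nat_lit 2636) (.e (nat_lit 1996) (nat_lit 137) (.e (nat_lit 663567) (nat_lit 4) (.e (nat_lit 65628) (nat_lit 14) (.e (nat_lit 401459) (nat_lit 13) (.e (nat_lit 483386) (nat_lit 23) (.e (nat_lit 335905) (nat_lit 0) .nil)))))) (.g (nat_lit 6) .nil .nil))) 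
(.lf (nat_lit 86836) (.g (nat_lit 2644) (.e (nat_lit 1996) (nat_lit 137) (.e (nat_lit 663568) (nat_lit 5) (.e (nat_lit 73782) (nat_lit 32) (.e (nat_lit 2856) (nat_lit 184) (.e (nat_lit 426542) (nat_lit 29) (.e (nat_lit 352287) (nat_lit 20) .nil)))))) (.g (nat_lit 0) .nil .nil))))) (.nd (nat_lit 4) (.nd (nat_lit 5) 
(.lf (nat_lit 86796) (.g (nat_lit 2749) (.e (nat_lit 1996) (nat_lit 137) (.e (nat_lit 663567) (nat_lit 4) (.e (nat_lit 65628) (nat_lit 14) (.e (nat_lit 401437) (nat_lit 9) (.e (nat_lit 426542) (nat_lit 29) (.e (nat_lit 352287) (nat_lit 20) .nil)))))) (.g (nat_lit 0) .nil .nil))) 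
(.lf (nat_lit 86828) (.g (nat_lit 1950) (.e (nat_lit 1996) (nat_lit 137) (.e (nat_lit 663567) (nat_lit 4) (.e (nat_lit 65630) (nat_lit 14) (.e (nat_lit 401458) (nat_lit 13) (.e (nat_lit 483378) (nat_lit 23) (.e (nat_lit 335907) (nat_lit 0) .nil)))))) (.g (nat_lit 4) .nil .nil)))) (.nd (nat_lit 5) 
(.lf (nat_lit 86812) (.g (nat_lit 1589) (.e (nat_lit 1996) (nat_lit 137) (.e (nat_lit 663567) (nat_lit 4) (.e (nat_lit 65630) (nat_lit 14) (.e (nat_lit 401436) (nat_lit 9) (.e (nat_lit 426542) (nat_lit 29) (.e (nat_lit 352286) (nat_lit 20) .nil)))))) (.g (nat_lit 4) .nil .nil))) 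
(.lf (nat_lit 86844) (.g (nat_lit 1444) (.e (nat_lit 1996) (nat_lit 137) (.e (nat_lit 663568) (nat_lit 5) (.e (nat_lit 73789) (nat_lit 45) (.e (nat_lit 1385) (nat_lit 105) (.e (nat_lit 311358) (nat_lit 29) (.e (nat_lit 352287) (nat_lit 20) .nil)))))) (.g (nat_lit 0) .nil .nil))))))) (.nd (nat_lit 2) (.nd (nat_lit 3) (.nd (nat_lit 4) (.nd (nat_lit 5) 
(.lf (nat_lit 86786) (.g (nat_lit 1964) (.e (nat_lit 1996) (nat_lit 137) (.e (nat_lit 663567) (nat_lit 4) (.e (nat_lit 65624) (nat_lit 12) (.e (nat_lit 385093) (nat_lit 49) (.e (nat_lit 786176) (nat_lit 6) (.e (nat_lit 81935) (nat_lit 20) .nil)))))) (.g (nat_lit 4) .nil .nil))) 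
(.lf (nat_lit 86818) (.g (nat_lit 2225) (.e (nat_lit 1996) (nat_lit 137) (.e (nat_lit 663567) (nat_lit 4) (.e (nat_lit 65630) (nat_lit 14) (.e (nat_lit 401437) (nat_lit 9) (.e (nat_lit 426509) (nat_lit 27) (.e (nat_lit 336111) (nat_lit 9) (.e (nat_lit 335907) (nat_lit 0) .nil))))))) (.g (nat_lit 5) .nil .nil)))) (.nd (nat_lit 5) 
(.lf (nat_lit 86802) (.g (nat_lit 1842) (.e (nat_lit 1996) (nat_lit 137) (.e (nat_lit 663567) (nat_lit 4) (.e (nat_lit 65628) (nat_lit 14) (.e (nat_lit 401458) (nat_lit 13) (.e (nat_lit 483386) (nat_lit 23) (.e (nat_lit 335907) (nat_lit 0) .nil)))))) (.g (nat_lit 4) .nil .nil))) 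
(.lf (nat_lit 86834) (.g (nat_lit 660) (.e (nat_lit 1996) (nat_lit 137) (.e (nat_lit 663568) (nat_lit 5) (.e (nat_lit 73780) (nat_lit 32) (.e (nat_lit 2940) (nat_lit 184) (.e (nat_lit 426541) (nat_lit 29) (.e (nat_lit 352287) (nat_lit 20) .nil)))))) (.g (nat_lit 0) .nil .nil))))) (.nd (nat_lit 4) (.nd (nat_lit 5) 
(.lf (nat_lit 86794) (.g (nat_lit 3583) (.e (nat_lit 1996) (nat_lit 137) (.e (nat_lit 663567) (nat_lit 4) (.e (nat_lit 65628) (nat_lit 14) (.e (nat_lit 401437) (nat_lit 9) (.e (nat_lit 426509) (nat_lit 27) (.e (nat_lit 336099) (nat_lit 9) (.e (nat_lit 335907) (nat_lit 0) .nil))))))) (.g (nat_lit 0) .nil .nil))) 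
(.lf (nat_lit 86826) (.g (nat_lit 2103) (.e (nat_lit 1996) (nat_lit 137) (.e (nat_lit 663567) (nat_lit 4) (.e (nat_lit 65630) (nat_lit 14) (.e (nat_lit 401457) (nat_lit 13) (.e (nat_lit 491264) (nat_lit 23) .nil))))) .nil))) (.nd (nat_lit 5) 
(.lf (nat_lit 86810) (.g (nat_lit 1903) (.e (nat_lit 1996) (nat_lit 137) (.e (nat_lit 663567) (nat_lit 4) (.e (nat_lit 65630) (nat_lit 14) (.e (nat_lit 401436) (nat_lit 9) (.e (nat_lit 426506) (nat_lit 27) (.e (nat_lit 336111) (nat_lit 9) (.e (nat_lit 335907) (nat_lit 0) .nil))))))) (.g (nat_lit 4) .nil .nil))) 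
(.lf (nat_lit 86842) (.g (nat_lit 716) (.e (nat_lit 1996) (nat_lit 137) (.e (nat_lit 663568) (nat_lit 5) (.e (nat_lit 73787) (nat_lit 45) (.e (nat_lit 1378) (nat_lit 104) (.e (nat_lit 303155) (nat_lit 29) (.e (nat_lit 352287) (nat_lit 20) .nil)))))) (.g (nat_lit 0) .nil .nil)))))) (.nd (nat_lit 3) (.nd (nat_lit 4) (.nd (nat_lit 5) 
(.lf (nat_lit 86790) (.g (nat_lit 913) (.e (nat_lit 1996) (nat_lit 137) (.e (nat_lit 663567) (nat_lit 4) (.e (nat_lit 65628) (nat_lit 14) (.e (nat_lit 401437) (nat_lit 9) .nil)))) .nil)) 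
(.lf (nat_lit 86822) (.g (nat_lit 1768) (.e (nat_lit 1996) (nat_lit 137) (.e (nat_lit 663567) (nat_lit 4) (.e (nat_lit 65630) (nat_lit 14) (.e (nat_lit 401438) (nat_lit 9) (.e (nat_lit 426542) (nat_lit 29) (.e (nat_lit 352280) (nat_lit 20) .nil)))))) (.g (nat_lit 4) .nil .nil)))) (.nd (nat_lit 5) 
(.lf (nat_lit 86806) (.g (nat_lit 2484) (.e (nat_lit 1996) (nat_lit 137) (.e (nat_lit 663567) (nat_lit 4) (.e (nat_lit 65628) (nat_lit 14) (.e (nat_lit 401459) (nat_lit 13) (.e (nat_lit 483386) (nat_lit 23) (.e (nat_lit 335908) (nat_lit 0) .nil)))))) (.g (nat_lit 0) .nil .nil))) 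
(.lf (nat_lit 86838) (.g (nat_lit 1830) (.e (nat_lit 1996) (nat_lit 137) (.e (nat_lit 663568) (nat_lit 5) (.e (nat_lit 73782) (nat_lit 32) (.e (nat_lit 3090) (nat_lit 191) (.e (nat_lit 483386) (nat_lit 23) (.e (nat_lit 335905) (nat_lit 0) .nil)))))) (.g (nat_lit 6) .nil .nil))))) (.nd (nat_lit 4) (.nd (nat_lit 5) 
(.lf (nat_lit 86798) (.g (nat_lit 2520) (.e (nat_lit 1996) (nat_lit 137) (.e (nat_lit 663567) (nat_lit 4) (.e (nat_lit 65628) (nat_lit 14) (.e (nat_lit 401438) (nat_lit 9) (.e (nat_lit 426542) (nat_lit 29) (.e (nat_lit 352287) (nat_lit 20) .nil)))))) (.g (nat_lit 0) .nil .nil))) 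
(.lf (nat_lit 86830) (.g (nat_lit 4337) (.e (nat_lit 1996) (nat_lit 137) (.e (nat_lit 663567) (nat_lit 4) (.e (nat_lit 65630) (nat_lit 14) (.e (nat_lit 401459) (nat_lit 13) (.e (nat_lit 483344) (nat_lit 17) (.e (nat_lit 6434) (nat_lit 343) (.e (nat_lit 1004) (nat_lit 81) .nil))))))) (.g (nat_lit 7) .nil .nil)))) (.nd (nat_lit 5) 
(.lf (nat_lit 86814) (.g (nat_lit 2163) (.e (nat_lit 1996) (nat_lit 137) (.e (nat_lit 663567) (nat_lit 4) (.e (nat_lit 65630) (nat_lit 14) (.e (nat_lit 401437) (nat_lit 9) (.e (nat_lit 426482) (nat_lit 27) .nil))))) .nil)) 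
(.lf (nat_lit 86846) (.g (nat_lit 606) (.e (nat_lit 1996) (nat_lit 137) (.e (nat_lit 663568) (nat_lit 5) (.e (nat_lit 73795) (nat_lit 47) (.e (nat_lit 123163) (nat_lit 256) (.e (nat_lit 318) (nat_lit 23) (.e (nat_lit 352287) (nat_lit 20) .nil)))))) (.g (nat_lit 0) .nil .nil)))))))) (.nd (nat_lit 1) (.nd (nat_lit 2) (.nd (nat_lit 3) (.nd (nat_lit 4) (.nd (nat_lit 5) 
(.lf (nat_lit 86785) (.g (nat_lit 2012) (.e (nat_lit 1996) (nat_lit 137) (.e (nat_lit 663567) (nat_lit 4) (.e (nat_lit 65624) (nat_lit 12) (.e (nat_lit 385092) (nat_lit 49) (.e (nat_lit 778326) (nat_lit 6) (.e (nat_lit 81935) (nat_lit 20) .nil)))))) (.g (nat_lit 6) .nil .nil))) 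
(.lf (nat_lit 86817) (.g (nat_lit 3924) (.e (nat_lit 1996) (nat_lit 137) (.e (nat_lit 663567) (nat_lit 4) (.e (nat_lit 65630) (nat_lit 14) (.e (nat_lit 401437) (nat_lit 9) (.e (nat_lit 426509) (nat_lit 27) (.e (nat_lit 336099) (nat_lit 9) (.e (nat_lit 335907) (nat_lit 0) .nil))))))) (.g (nat_lit 0) .nil .nil)))) (.nd (nat_lit 5) 
(.lf (nat_lit 86801) (.g (nat_lit 1752) (.e (nat_lit 1996) (nat_lit 137) (.e (nat_lit 663567) (nat_lit 4) (.e (nat_lit 65628) (nat_lit 14) (.e (nat_lit 401457) (nat_lit 13) (.e (nat_lit 491264) (nat_lit 23) .nil))))) .nil)) 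
(.lf (nat_lit 86833) (.g (nat_lit 699) (.e (nat_lit 1996) (nat_lit 137) (.e (nat_lit 663568) (nat_lit 5) (.e (nat_lit 73780) (nat_lit 32) (.e (nat_lit 2936) (nat_lit 184) (.e (nat_lit 426541) (nat_lit 29) (.e (nat_lit 352287) (nat_lit 20) .nil)))))) (.g (nat_lit 0) .nil .nil))))) (.nd (nat_lit 4) (.nd (nat_lit 5) 
(.lf (nat_lit 86793) (.g (nat_lit 1345) (.e (nat_lit 1996) (nat_lit 137) (.e (nat_lit 663567) (nat_lit 4) (.e (nat_lit 65628) (nat_lit 14) (.e (nat_lit 401437) (nat_lit 9) (.e (nat_lit 426509) (nat_lit 27) .nil))))) .nil)) 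
(.lf (nat_lit 86825) (.g (nat_lit 2283) (.e (nat_lit 1996) (nat_lit 137) (.e (nat_lit 663567) (nat_lit 4) (.e (nat_lit 65630) (nat_lit 14) (.e (nat_lit 401457) (nat_lit 13) (.e (nat_lit 483389) (nat_lit 23) (.e (nat_lit 335907) (nat_lit 0) .nil)))))) (.g (nat_lit 4) .nil .nil)))) (.nd (nat_lit 5) 
(.lf (nat_lit 86809) (.g (nat_lit 1036) (.e (nat_lit 1996) (nat_lit 137) (.e (nat_lit 663567) (nat_lit 4) (.e (nat_lit 65629) (nat_lit 14) (.e (nat_lit 401459) (nat_lit 13) .nil)))) .nil)) 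
(.lf (nat_lit 86841) (.g (nat_lit 1093) (.e (nat_lit 1996) (nat_lit 137) (.e (nat_lit 663568) (nat_lit 5) (.e (nat_lit 73787) (nat_lit 45) (.e (nat_lit 1374) (nat_lit 104) (.e (nat_lit 303155) (nat_lit 29) (.e (nat_lit 352287) (nat_lit 20) .nil)))))) (.g (nat_lit 0) .nil .nil)))))) (.nd (nat_lit 3) (.nd (nat_lit 4) (.nd (nat_lit 5) 
(.lf (nat_lit 86789) (.g (nat_lit 2127) (.e (nat_lit 1996) (nat_lit 137) (.e (nat_lit 663567) (nat_lit 4) (.e (nat_lit 65628) (nat_lit 14) (.e (nat_lit 401436) (nat_lit 9) (.e (nat_lit 426542) (nat_lit 29) (.e (nat_lit 352287) (nat_lit 20) .nil)))))) (.g (nat_lit 0) .nil .nil))) 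
(.lf (nat_lit 86821) (.g (nat_lit 2849) (.e (nat_lit 1996) (nat_lit 137) (.e (nat_lit 663567) (nat_lit 4) (.e (nat_lit 65630) (nat_lit 14) (.e (nat_lit 401437) (nat_lit 9) (.e (nat_lit 426542) (nat_lit 29) (.e (nat_lit 352287) (nat_lit 20) .nil)))))) (.g (nat_lit 6) .nil .nil)))) (.nd (nat_lit 5) 
(.lf (nat_lit 86805) (.g (nat_lit 2939) (.e (nat_lit 1996) (nat_lit 137) (.e (nat_lit 663567) (nat_lit 4) (.e (nat_lit 65628) (nat_lit 14) (.e (nat_lit 401459) (nat_lit 13) (.e (nat_lit 483386) (nat_lit 23) (.e (nat_lit 335907) (nat_lit 0) .nil)))))) (.g (nat_lit 0) .nil .nil))) 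
(.lf (nat_lit 86837) (.g (nat_lit 2198) (.e (nat_lit 1996) (nat_lit 137) (.e (nat_lit 663568) (nat_lit 5) (.e (nat_lit 73782) (nat_lit 32) (.e (nat_lit 2857) (nat_lit 184) (.e (nat_lit 426542) (nat_lit 29) (.e (nat_lit 352287) (nat_lit 20) .nil)))))) (.g (nat_lit 0) .nil .nil))))) (.nd (nat_lit 4) (.nd (nat_lit 5) 
(.lf (nat_lit 86797) (.g (nat_lit 1809) (.e (nat_lit 1996) (nat_lit 137) (.e (nat_lit 663567) (nat_lit 4) (.e (nat_lit 65628) (nat_lit 14) (.e (nat_lit 401438) (nat_lit 9) (.e (nat_lit 426509) (nat_lit 27) .nil))))) .nil)) 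
(.lf (nat_lit 86829) (.g (nat_lit 2004) (.e (nat_lit 1996) (nat_lit 137) (.e (nat_lit 663567) (nat_lit 4) (.e (nat_lit 65630) (nat_lit 14) (.e (nat_lit 401458) (nat_lit 13) (.e (nat_lit 483388) (nat_lit 23) (.e (nat_lit 335907) (nat_lit 0) .nil)))))) (.g (nat_lit 4) .nil .nil)))) (.nd (nat_lit 5) 
(.lf (nat_lit 86813) (.g (nat_lit 2412) (.e (nat_lit 1996) (nat_lit 137) (.e (nat_lit 663567) (nat_lit 4) (.e (nat_lit 65630) (nat_lit 14) (.e (nat_lit 401436) (nat_lit 9) (.e (nat_lit 426542) (nat_lit 29) (.e (nat_lit 352287) (nat_lit 20) .nil)))))) (.g (nat_lit 6) .nil .nil))) 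
(.lf (nat_lit 86845) (.g (nat_lit 1385) (.e (nat_lit 1996) (nat_lit 137) (.e (nat_lit 663568) (nat_lit 5) (.e (nat_lit 73789) (nat_lit 45) (.e (nat_lit 1386) (nat_lit 105) (.e (nat_lit 311358) (nat_lit 29) (.e (nat_lit 352287) (nat_lit 20) .nil)))))) (.g (nat_lit 0) .nil .nil))))))) (.nd (nat_lit 2) (.nd (nat_lit 3) (.nd (nat_lit 4) (.nd (nat_lit 5) 
(.lf (nat_lit 86787) (.g (nat_lit 1249) (.e (nat_lit 1996) (nat_lit 137) (.e (nat_lit 663567) (nat_lit 4) (.e (nat_lit 65628) (nat_lit 14) (.e (nat_lit 401436) (nat_lit 9) (.e (nat_lit 426542) (nat_lit 29) (.e (nat_lit 352280) (nat_lit 20) .nil)))))) (.g (nat_lit 4) .nil .nil))) 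
(.lf (nat_lit 86819) (.g (nat_lit 2705) (.e (nat_lit 1996) (nat_lit 137) (.e (nat_lit 663567) (nat_lit 4) (.e (nat_lit 65630) (nat_lit 14) (.e (nat_lit 401437) (nat_lit 9) (.e (nat_lit 426516) (nat_lit 27) .nil))))) .nil))) (.nd (nat_lit 5) 
(.lf (nat_lit 86803) (.g (nat_lit 2430) (.e (nat_lit 1996) (nat_lit 137) (.e (nat_lit 663567) (nat_lit 4) (.e (nat_lit 65628) (nat_lit 14) (.e (nat_lit 401458) (nat_lit 13) (.e (nat_lit 483387) (nat_lit 23) (.e (nat_lit 335907) (nat_lit 0) .nil)))))) (.g (nat_lit 6) .nil .nil))) 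
(.lf (nat_lit 86835) (.g (nat_lit 1561) (.e (nat_lit 1996) (nat_lit 137) (.e (nat_lit 663568) (nat_lit 5) (.e (nat_lit 73781) (nat_lit 32) (.e (nat_lit 3090) (nat_lit 191) (.e (nat_lit 483386) (nat_lit 23) (.e (nat_lit 335908) (nat_lit 0) .nil)))))) (.g (nat_lit 4) .nil .nil))))) (.nd (nat_lit 4) (.nd (nat_lit 5) 
(.lf (nat_lit 86795) (.g (nat_lit 1987) (.e (nat_lit 1996) (nat_lit 137) (.e (nat_lit 663567) (nat_lit 4) (.e (nat_lit 65628) (nat_lit 14) (.e (nat_lit 401437) (nat_lit 9) (.e (nat_lit 426509) (nat_lit 27) (.e (nat_lit 336111) (nat_lit 9) (.e (nat_lit 335907) (nat_lit 0) .nil))))))) (.g (nat_lit 5) .nil .nil))) 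
(.lf (nat_lit 86827) (.g (nat_lit 2112) (.e (nat_lit 1996) (nat_lit 137) (.e (nat_lit 663567) (nat_lit 4) (.e (nat_lit 65630) (nat_lit 14) (.e (nat_lit 401457) (nat_lit 13) (.e (nat_lit 491264) (nat_lit 23) (.e (nat_lit 335906) (nat_lit 0) .nil)))))) (.g (nat_lit 4) .nil .nil)))) (.nd (nat_lit 5) 
(.lf (nat_lit 86811) (.g (nat_lit 1574) (.e (nat_lit 1996) (nat_lit 137) (.e (nat_lit 663567) (nat_lit 4) (.e (nat_lit 65630) (nat_lit 14) (.e (nat_lit 401436) (nat_lit 9) (.e (nat_lit 426542) (nat_lit 29) (.e (nat_lit 352280) (nat_lit 20) .nil)))))) (.g (nat_lit 4) .nil .nil))) 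
(.lf (nat_lit 86843) (.g (nat_lit 1071) (.e (nat_lit 1996) (nat_lit 137) (.e (nat_lit 663568) (nat_lit 5) (.e (nat_lit 73789) (nat_lit 45) (.e (nat_lit 1383) (nat_lit 105) (.e (nat_lit 311358) (nat_lit 29) (.e (nat_lit 352287) (nat_lit 20) .nil)))))) (.g (nat_lit 0) .nil .nil)))))) (.nd (nat_lit 3) (.nd (nat_lit 4) (.nd (nat_lit 5) 
(.lf (nat_lit 86791) (.g (nat_lit 2446) (.e (nat_lit 1996) (nat_lit 137) (.e (nat_lit 663567) (nat_lit 4) (.e (nat_lit 65628) (nat_lit 14) (.e (nat_lit 401437) (nat_lit 9) (.e (nat_lit 426480) (nat_lit 27) .nil))))) .nil)) 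
(.lf (nat_lit 86823) (.g (nat_lit 2514) (.e (nat_lit 1996) (nat_lit 137) (.e (nat_lit 663567) (nat_lit 4) (.e (nat_lit 65630) (nat_lit 14) (.e (nat_lit 401438) (nat_lit 9) (.e (nat_lit 426542) (nat_lit 29) (.e (nat_lit 352287) (nat_lit 20) .nil)))))) (.g (nat_lit 6) .nil .nil)))) (.nd (nat_lit 5) 
(.lf (nat_lit 86807) (.g (nat_lit 2185) (.e (nat_lit 1996) (nat_lit 137) (.e (nat_lit 663567) (nat_lit 4) (.e (nat_lit 65628) (nat_lit 14) (.e (nat_lit 401459) (nat_lit 13) (.e (nat_lit 491264) (nat_lit 23) .nil))))) .nil)) 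
(.lf (nat_lit 86839) (.g (nat_lit 1053) (.e (nat_lit 1996) (nat_lit 137) (.e (nat_lit 663568) (nat_lit 5) (.e (nat_lit 73786) (nat_lit 45) (.e (nat_lit 1374) (nat_lit 104) (.e (nat_lit 303155) (nat_lit 29) .nil))))) .nil)))) (.nd (nat_lit 4) (.nd (nat_lit 5) 
(.lf (nat_lit 86799) (.g (nat_lit 1746) (.e (nat_lit 1996) (nat_lit 137) (.e (nat_lit 663567) (nat_lit 4) (.e (nat_lit 65628) (nat_lit 14) (.e (nat_lit 401444) (nat_lit 9) (.e (nat_lit 426541) (nat_lit 29) .nil))))) .nil)) 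
(.lf (nat_lit 86831) (.g (nat_lit 2955) (.e (nat_lit 1996) (nat_lit 137) (.e (nat_lit 663567) (nat_lit 4) (.e (nat_lit 65630) (nat_lit 14) (.e (nat_lit 401459) (nat_lit 13) (.e (nat_lit 483386) (nat_lit 23) (.e (nat_lit 335907) (nat_lit 0) .nil)))))) (.g (nat_lit 5) .nil .nil)))) (.nd (nat_lit 5) 
(.lf (nat_lit 86815) (.g (nat_lit 2705) (.e (nat_lit 1996) (nat_lit 137) (.e (nat_lit 663567) (nat_lit 4) (.e (nat_lit 65630) (nat_lit 14) (.e (nat_lit 401437) (nat_lit 9) (.e (nat_lit 426496) (nat_lit 27) .nil))))) .nil)) 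
(.lf (nat_lit 86847) (.g (nat_lit 657) (.e (nat_lit 1996) (nat_lit 137) (.e (nat_lit 663568) (nat_lit 5) (.e (nat_lit 73795) (nat_lit 47) (.e (nat_lit 123165) (nat_lit 256) (.e (nat_lit 318) (nat_lit 23) (.e (nat_lit 352287) (nat_lit 20) .nil)))))) (.g (nat_lit 0) .nil .nil)))))))))

noncomputable def tv1180 : DT := (.nd (nat_lit 0) (.nd (nat_lit 1) (.nd (nat_lit 2) (.nd (nat_lit 3) (.nd (nat_lit 4) (.nd (nat_lit 5) 
(.lf (nat_lit 86848) (.g (nat_lit 1270) (.e (nat_lit 1996) (nat_lit 137) (.e (nat_lit 663569) (nat_lit 6) (.e (nat_lit 81921) (nat_lit 0) (.e (nat_lit 3711) (nat_lit 227) (.e (nat_lit 778325) (nat_lit 6) (.e (nat_lit 81935) (nat_lit 20) .nil)))))) (.g (nat_lit 0) .nil .nil))) 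
(.lf (nat_lit 86880) (.g (nat_lit 1877) (.e (nat_lit 1996) (nat_lit 137) (.e (nat_lit 663569) (nat_lit 6) (.e (nat_lit 81959) (nat_lit 24) (.e (nat_lit 123185) (nat_lit 264) (.e (nat_lit 1222) (nat_lit 90) (.e (nat_lit 81935) (nat_lit 20) .nil)))))) (.g (nat_lit 5) .nil .nil)))) (.nd (nat_lit 5) 
(.lf (nat_lit 86864) (.g (nat_lit 1230) (.e (nat_lit 1996) (nat_lit 137) (.e (nat_lit 663569) (nat_lit 6) (.e (nat_lit 81943) (nat_lit 20) (.e (nat_lit 2004) (nat_lit 138) (.e (nat_lit 671764) (nat_lit 6) (.e (nat_lit 81934) (nat_lit 20) .nil)))))) (.g (nat_lit 6) .nil .nil))) 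
(.lf (nat_lit 86896) (.g (nat_lit 702) (.e (nat_lit 1998) (nat_lit 137) (.e (nat_lit 663554) (nat_lit 0) (.e (nat_lit 1562) (nat_lit 110) (.e (nat_lit 352270) (nat_lit 8) .nil)))) .nil)))) (.nd (nat_lit 4) (.nd (nat_lit 5) 
(.lf (nat_lit 86856) (.g (nat_lit 570) (.e (nat_lit 1996) (nat_lit 137) (.e (nat_lit 663569) (nat_lit 6) (.e (nat_lit 81931) (nat_lit 20) .nil))) .nil)) 
(.lf (nat_lit 86888) (.g (nat_lit 3292) (.e (nat_lit 1998) (nat_lit 137) (.e (nat_lit 663554) (nat_lit 0) (.e (nat_lit 982) (nat_lit 81) (.e (nat_lit 2031) (nat_lit 140) (.e (nat_lit 688177) (nat_lit 16) (.e (nat_lit 65583) (nat_lit 7) (.e (nat_lit 319530) (nat_lit 16) (.e (nat_lit 286748) (nat_lit 9) (.e (nat_lit 335891) (nat_lit 0) .nil))))))))) (.g (nat_lit 7) .nil .nil)))) (.nd (nat_lit 5) 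
(.lf (nat_lit 86872) (.g (nat_lit 1164) (.e (nat_lit 1996) (nat_lit 137) (.e (nat_lit 663569) (nat_lit 6) (.e (nat_lit 81950) (nat_lit 21) (.e (nat_lit 57871) (nat_lit 264) (.e (nat_lit 1189) (nat_lit 88) .nil))))) .nil)) 
(.lf (nat_lit 86904) (.g (nat_lit 670) (.e (nat_lit 1998) (nat_lit 137) (.e (nat_lit 663554) (nat_lit 0) (.e (nat_lit 1569) (nat_lit 110) (.e (nat_lit 352270) (nat_lit 8) .nil)))) .nil))))) (.nd (nat_lit 3) (.nd (nat_lit 4) (.nd (nat_lit 5) 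
(.lf (nat_lit 86852) (.g (nat_lit 1256) (.e (nat_lit 1996) (nat_lit 137) (.e (nat_lit 663569) (nat_lit 6) (.e (nat_lit 81922) (nat_lit 0) (.e (nat_lit 3630) (nat_lit 227) (.e (nat_lit 778326) (nat_lit 6) (.e (nat_lit 81935) (nat_lit 20) .nil)))))) (.g (nat_lit 6) .nil .nil))) 
(.lf (nat_lit 86884) (.g (nat_lit 2548) (.e (nat_lit 1997) (nat_lit 137) (.e (nat_lit 663567) (nat_lit 4) (.e (nat_lit 65628) (nat_lit 14) (.e (nat_lit 401459) (nat_lit 13) (.e (nat_lit 483393) (nat_lit 23) .nil))))) .nil))) (.nd (nat_lit 5) 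
(.lf (nat_lit 86868) (.g (nat_lit 1406) (.e (nat_lit 1996) (nat_lit 137) (.e (nat_lit 663569) (nat_lit 6) (.e (nat_lit 81947) (nat_lit 20) (.e (nat_lit 2003) (nat_lit 138) (.e (nat_lit 671764) (nat_lit 6) .nil))))) .nil)) 
(.lf (nat_lit 86900) (.g (nat_lit 1096) (.e (nat_lit 1998) (nat_lit 137) (.e (nat_lit 663554) (nat_lit 0) (.e (nat_lit 1566) (nat_lit 110) (.e (nat_lit 352318) (nat_lit 24) (.e (nat_lit 123185) (nat_lit 264) .nil))))) .nil)))) (.nd (nat_lit 4) (.nd (nat_lit 5) 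
(.lf (nat_lit 86860) (.g (nat_lit 1922) (.e (nat_lit 1996) (nat_lit 137) (.e (nat_lit 663569) (nat_lit 6) (.e (nat_lit 81935) (nat_lit 20) (.e (nat_lit 1999) (nat_lit 137) (.e (nat_lit 663569) (nat_lit 6) (.e (nat_lit 81935) (nat_lit 20) .nil)))))) (.g (nat_lit 0) .nil .nil))) 
(.lf (nat_lit 86892) (.g (nat_lit 585) (.e (nat_lit 1998) (nat_lit 137) (.e (nat_lit 663554) (nat_lit 0) (.e (nat_lit 1529) (nat_lit 109) (.e (nat_lit 352000) (nat_lit 7) .nil)))) .nil))) (.nd (nat_lit 5) 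
(.lf (nat_lit 86876) (.g (nat_lit 3076) (.e (nat_lit 1996) (nat_lit 137) (.e (nat_lit 663569) (nat_lit 6) (.e (nat_lit 81957) (nat_lit 24) (.e (nat_lit 123182) (nat_lit 264) (.e (nat_lit 1222) (nat_lit 90) (.e (nat_lit 81935) (nat_lit 20) .nil)))))) (.g (nat_lit 0) .nil .nil))) 
(.lf (nat_lit 86908) (.g (nat_lit 1685) (.e (nat_lit 1998) (nat_lit 137) (.e (nat_lit 663554) (nat_lit 0) (.e (nat_lit 1572) (nat_lit 110) (.e (nat_lit 352318) (nat_lit 24) (.e (nat_lit 123185) (nat_lit 264) (.e (nat_lit 7936) (nat_lit 90) (.e (nat_lit 81935) (nat_lit 20) .nil))))))) (.g (nat_lit 4) .nil .nil))))))) (.nd (nat_lit 2) (.nd (nat_lit 3) (.nd (nat_lit 4) (.nd (nat_lit 5) 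
(.lf (nat_lit 86850) (.g (nat_lit 1251) (.e (nat_lit 1996) (nat_lit 137) (.e (nat_lit 663569) (nat_lit 6) (.e (nat_lit 81921) (nat_lit 0) (.e (nat_lit 3715) (nat_lit 227) (.e (nat_lit 778325) (nat_lit 6) (.e (nat_lit 81935) (nat_lit 20) .nil)))))) (.g (nat_lit 0) .nil .nil))) 
(.lf (nat_lit 86882) (.g (nat_lit 2055) (.e (nat_lit 1997) (nat_lit 137) (.e (nat_lit 663567) (nat_lit 4) (.e (nat_lit 65628) (nat_lit 14) (.e (nat_lit 401457) (nat_lit 13) (.e (nat_lit 483393) (nat_lit 23) .nil))))) .nil))) (.nd (nat_lit 5) 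
(.lf (nat_lit 86866) (.g (nat_lit 1629) (.e (nat_lit 1996) (nat_lit 137) (.e (nat_lit 663569) (nat_lit 6) (.e (nat_lit 81943) (nat_lit 20) (.e (nat_lit 2005) (nat_lit 138) (.e (nat_lit 671764) (nat_lit 6) (.e (nat_lit 81935) (nat_lit 20) .nil)))))) (.g (nat_lit 0) .nil .nil))) 
(.lf (nat_lit 86898) (.g (nat_lit 383) (.e (nat_lit 1998) (nat_lit 137) (.e (nat_lit 663554) (nat_lit 0) (.e (nat_lit 1566) (nat_lit 110) .nil))) .nil)))) (.nd (nat_lit 4) (.nd (nat_lit 5) 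
(.lf (nat_lit 86858) (.g (nat_lit 1784) (.e (nat_lit 1996) (nat_lit 137) (.e (nat_lit 663569) (nat_lit 6) (.e (nat_lit 81935) (nat_lit 20) (.e (nat_lit 1996) (nat_lit 137) (.e (nat_lit 663569) (nat_lit 6) (.e (nat_lit 81935) (nat_lit 20) .nil)))))) (.g (nat_lit 0) .nil .nil))) 
(.lf (nat_lit 86890) (.g (nat_lit 1092) (.e (nat_lit 1998) (nat_lit 137) (.e (nat_lit 663554) (nat_lit 0) (.e (nat_lit 1442) (nat_lit 108) (.e (nat_lit 336060) (nat_lit 7) (.e (nat_lit 327424) (nat_lit 18) (.e (nat_lit 303155) (nat_lit 29) (.e (nat_lit 352287) (nat_lit 20) .nil))))))) (.g (nat_lit 4) .nil .nil)))) (.nd (nat_lit 5) 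
(.lf (nat_lit 86874) (.g (nat_lit 1758) (.e (nat_lit 1996) (nat_lit 137) (.e (nat_lit 663569) (nat_lit 6) (.e (nat_lit 81950) (nat_lit 21) (.e (nat_lit 57873) (nat_lit 264) (.e (nat_lit 1200) (nat_lit 88) .nil))))) .nil)) 
(.lf (nat_lit 86906) (.g (nat_lit 848) (.e (nat_lit 1998) (nat_lit 137) (.e (nat_lit 663554) (nat_lit 0) (.e (nat_lit 1572) (nat_lit 110) (.e (nat_lit 352318) (nat_lit 24) .nil)))) .nil))))) (.nd (nat_lit 3) (.nd (nat_lit 4) (.nd (nat_lit 5) 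
(.lf (nat_lit 86854) (.g (nat_lit 1149) (.e (nat_lit 1996) (nat_lit 137) (.e (nat_lit 663569) (nat_lit 6) (.e (nat_lit 81924) (nat_lit 0) (.e (nat_lit 3630) (nat_lit 227) (.e (nat_lit 778326) (nat_lit 6) (.e (nat_lit 81935) (nat_lit 20) .nil)))))) (.g (nat_lit 0) .nil .nil))) 
(.lf (nat_lit 86886) (.g (nat_lit 1730) (.e (nat_lit 1997) (nat_lit 137) (.e (nat_lit 663567) (nat_lit 4) (.e (nat_lit 65630) (nat_lit 14) (.e (nat_lit 401458) (nat_lit 13) (.e (nat_lit 483393) (nat_lit 23) .nil))))) .nil))) (.nd (nat_lit 5) 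
(.lf (nat_lit 86870) (.g (nat_lit 1879) (.e (nat_lit 1996) (nat_lit 137) (.e (nat_lit 663569) (nat_lit 6) (.e (nat_lit 81948) (nat_lit 21) (.e (nat_lit 57870) (nat_lit 264) (.e (nat_lit 1219) (nat_lit 90) (.e (nat_lit 81935) (nat_lit 20) .nil)))))) (.g (nat_lit 0) .nil .nil))) 
(.lf (nat_lit 86902) (.g (nat_lit 1235) (.e (nat_lit 1998) (nat_lit 137) (.e (nat_lit 663554) (nat_lit 0) (.e (nat_lit 1567) (nat_lit 110) (.e (nat_lit 352318) (nat_lit 24) (.e (nat_lit 123184) (nat_lit 264) (.e (nat_lit 7936) (nat_lit 90) (.e (nat_lit 81933) (nat_lit 20) .nil))))))) (.g (nat_lit 4) .nil .nil))))) (.nd (nat_lit 4) (.nd (nat_lit 5) 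
(.lf (nat_lit 86862) (.g (nat_lit 1297) (.e (nat_lit 1996) (nat_lit 137) (.e (nat_lit 663569) (nat_lit 6) (.e (nat_lit 81943) (nat_lit 20) (.e (nat_lit 2003) (nat_lit 138) (.e (nat_lit 671764) (nat_lit 6) (.e (nat_lit 81934) (nat_lit 20) .nil)))))) (.g (nat_lit 6) .nil .nil))) 
(.lf (nat_lit 86894) (.g (nat_lit 424) (.e (nat_lit 1998) (nat_lit 137) (.e (nat_lit 663554) (nat_lit 0) (.e (nat_lit 1548) (nat_lit 109) .nil))) .nil))) (.nd (nat_lit 5) 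
(.lf (nat_lit 86878) (.g (nat_lit 1437) (.e (nat_lit 1996) (nat_lit 137) (.e (nat_lit 663569) (nat_lit 6) (.e (nat_lit 81957) (nat_lit 24) (.e (nat_lit 123184) (nat_lit 264) (.e (nat_lit 7936) (nat_lit 90) .nil))))) .nil)) 
(.lf (nat_lit 86910) (.g (nat_lit 405) (.e (nat_lit 1998) (nat_lit 137) (.e (nat_lit 663554) (nat_lit 0) (.e (nat_lit 1575) (nat_lit 110) .nil))) .nil))))))) (.nd (nat_lit 1) (.nd (nat_lit 2) (.nd (nat_lit 3) (.nd (nat_lit 4) (.nd (nat_lit 5) 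
(.lf (nat_lit 86849) (.g (nat_lit 1170) (.e (nat_lit 1996) (nat_lit 137) (.e (nat_lit 663569) (nat_lit 6) (.e (nat_lit 81921) (nat_lit 0) (.e (nat_lit 3714) (nat_lit 227) (.e (nat_lit 778325) (nat_lit 6) (.e (nat_lit 81935) (nat_lit 20) .nil)))))) (.g (nat_lit 0) .nil .nil))) 
(.lf (nat_lit 86881) (.g (nat_lit 1099) (.e (nat_lit 1996) (nat_lit 137) (.e (nat_lit 663569) (nat_lit 6) (.e (nat_lit 81959) (nat_lit 24) (.e (nat_lit 123185) (nat_lit 264) (.e (nat_lit 7936) (nat_lit 90) .nil))))) .nil))) (.nd (nat_lit 5) 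
(.lf (nat_lit 86865) (.g (nat_lit 1587) (.e (nat_lit 1996) (nat_lit 137) (.e (nat_lit 663569) (nat_lit 6) (.e (nat_lit 81943) (nat_lit 20) (.e (nat_lit 2004) (nat_lit 138) (.e (nat_lit 671764) (nat_lit 6) (.e (nat_lit 81935) (nat_lit 20) .nil)))))) (.g (nat_lit 0) .nil .nil))) 
(.lf (nat_lit 86897) (.g (nat_lit 1824) (.e (nat_lit 1998) (nat_lit 137) (.e (nat_lit 663554) (nat_lit 0) (.e (nat_lit 1563) (nat_lit 110) (.e (nat_lit 352309) (nat_lit 21) (.e (nat_lit 57872) (nat_lit 264) .nil))))) .nil)))) (.nd (nat_lit 4) (.nd (nat_lit 5) 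
(.lf (nat_lit 86857) (.g (nat_lit 1889) (.e (nat_lit 1996) (nat_lit 137) (.e (nat_lit 663569) (nat_lit 6) (.e (nat_lit 81935) (nat_lit 20) (.e (nat_lit 1994) (nat_lit 137) (.e (nat_lit 663569) (nat_lit 6) (.e (nat_lit 81935) (nat_lit 20) .nil)))))) (.g (nat_lit 0) .nil .nil))) 
(.lf (nat_lit 86889) (.g (nat_lit 323) (.e (nat_lit 1998) (nat_lit 137) (.e (nat_lit 663554) (nat_lit 0) (.e (nat_lit 1304) (nat_lit 97) (.e (nat_lit 139282) (nat_lit 6) .nil)))) .nil))) (.nd (nat_lit 5) 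
(.lf (nat_lit 86873) (.g (nat_lit 1278) (.e (nat_lit 1996) (nat_lit 137) (.e (nat_lit 663569) (nat_lit 6) (.e (nat_lit 81950) (nat_lit 21) (.e (nat_lit 57871) (nat_lit 264) (.e (nat_lit 1200) (nat_lit 88) .nil))))) .nil)) 
(.lf (nat_lit 86905) (.g (nat_lit 887) (.e (nat_lit 1998) (nat_lit 137) (.e (nat_lit 663554) (nat_lit 0) (.e (nat_lit 1572) (nat_lit 110) (.e (nat_lit 352270) (nat_lit 8) .nil)))) .nil))))) (.nd (nat_lit 3) (.nd (nat_lit 4) (.nd (nat_lit 5) 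
(.lf (nat_lit 86853) (.g (nat_lit 1286) (.e (nat_lit 1996) (nat_lit 137) (.e (nat_lit 663569) (nat_lit 6) (.e (nat_lit 81922) (nat_lit 0) (.e (nat_lit 3631) (nat_lit 227) (.e (nat_lit 786176) (nat_lit 6) (.e (nat_lit 81935) (nat_lit 20) .nil)))))) (.g (nat_lit 4) .nil .nil))) 
(.lf (nat_lit 86885) (.g (nat_lit 2281) (.e (nat_lit 1997) (nat_lit 137) (.e (nat_lit 663567) (nat_lit 4) (.e (nat_lit 65630) (nat_lit 14) (.e (nat_lit 401457) (nat_lit 13) (.e (nat_lit 483393) (nat_lit 23) .nil))))) .nil))) (.nd (nat_lit 5) 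
(.lf (nat_lit 86869) (.g (nat_lit 2038) (.e (nat_lit 1996) (nat_lit 137) (.e (nat_lit 663569) (nat_lit 6) (.e (nat_lit 81947) (nat_lit 20) (.e (nat_lit 2005) (nat_lit 138) (.e (nat_lit 671764) (nat_lit 6) (.e (nat_lit 81935) (nat_lit 20) .nil)))))) (.g (nat_lit 0) .nil .nil))) 
(.lf (nat_lit 86901) (.g (nat_lit 417) (.e (nat_lit 1998) (nat_lit 137) (.e (nat_lit 663554) (nat_lit 0) (.e (nat_lit 1567) (nat_lit 110) .nil))) .nil)))) (.nd (nat_lit 4) (.nd (nat_lit 5) 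
(.lf (nat_lit 86861) (.g (nat_lit 1469) (.e (nat_lit 1996) (nat_lit 137) (.e (nat_lit 663569) (nat_lit 6) (.e (nat_lit 81939) (nat_lit 20) (.e (nat_lit 2005) (nat_lit 138) (.e (nat_lit 671764) (nat_lit 6) (.e (nat_lit 81935) (nat_lit 20) .nil)))))) (.g (nat_lit 6) .nil .nil))) 
(.lf (nat_lit 86893) (.g (nat_lit 1467) (.e (nat_lit 1998) (nat_lit 137) (.e (nat_lit 663554) (nat_lit 0) (.e (nat_lit 1529) (nat_lit 109) (.e (nat_lit 344075) (nat_lit 13) (.e (nat_lit 1374) (nat_lit 104) (.e (nat_lit 303155) (nat_lit 29) (.e (nat_lit 352287) (nat_lit 20) .nil))))))) (.g (nat_lit 5) .nil .nil)))) (.nd (nat_lit 5) 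
(.lf (nat_lit 86877) (.g (nat_lit 2853) (.e (nat_lit 1996) (nat_lit 137) (.e (nat_lit 663569) (nat_lit 6) (.e (nat_lit 81957) (nat_lit 24) (.e (nat_lit 123184) (nat_lit 264) (.e (nat_lit 1222) (nat_lit 90) (.e (nat_lit 81935) (nat_lit 20) .nil)))))) (.g (nat_lit 0) .nil .nil))) 
(.lf (nat_lit 86909) (.g (nat_lit 507) (.e (nat_lit 1998) (nat_lit 137) (.e (nat_lit 663554) (nat_lit 0) (.e (nat_lit 1573) (nat_lit 110) (.e (nat_lit 352270) (nat_lit 8) .nil)))) .nil)))))) (.nd (nat_lit 2) (.nd (nat_lit 3) (.nd (nat_lit 4) (.nd (nat_lit 5) 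
(.lf (nat_lit 86851) (.g (nat_lit 705) (.e (nat_lit 1996) (nat_lit 137) (.e (nat_lit 663569) (nat_lit 6) (.e (nat_lit 81922) (nat_lit 0) (.e (nat_lit 3629) (nat_lit 227) .nil)))) .nil)) 
(.lf (nat_lit 86883) (.g (nat_lit 1666) (.e (nat_lit 1997) (nat_lit 137) (.e (nat_lit 663567) (nat_lit 4) (.e (nat_lit 65628) (nat_lit 14) (.e (nat_lit 401458) (nat_lit 13) (.e (nat_lit 483393) (nat_lit 23) .nil))))) .nil))) (.nd (nat_lit 5) 
(.lf (nat_lit 86867) (.g (nat_lit 1839) (.e (nat_lit 1996) (nat_lit 137) (.e (nat_lit 663569) (nat_lit 6) (.e (nat_lit 81946) (nat_lit 20) (.e (nat_lit 2005) (nat_lit 138) (.e (nat_lit 671764) (nat_lit 6) (.e (nat_lit 81935) (nat_lit 20) .nil)))))) (.g (nat_lit 6) .nil .nil))) 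
(.lf (nat_lit 86899) (.g (nat_lit 2596) (.e (nat_lit 1998) (nat_lit 137) (.e (nat_lit 663554) (nat_lit 0) (.e (nat_lit 1566) (nat_lit 110) (.e (nat_lit 352318) (nat_lit 24) (.e (nat_lit 123182) (nat_lit 264) (.e (nat_lit 1222) (nat_lit 90) (.e (nat_lit 81935) (nat_lit 20) .nil))))))) (.g (nat_lit 6) .nil .nil))))) (.nd (nat_lit 4) (.nd (nat_lit 5) 
(.lf (nat_lit 86859) (.g (nat_lit 1916) (.e (nat_lit 1996) (nat_lit 137) (.e (nat_lit 663569) (nat_lit 6) (.e (nat_lit 81935) (nat_lit 20) (.e (nat_lit 1998) (nat_lit 137) (.e (nat_lit 663569) (nat_lit 6) (.e (nat_lit 81935) (nat_lit 20) .nil)))))) (.g (nat_lit 0) .nil .nil))) 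
(.lf (nat_lit 86891) (.g (nat_lit 472) (.e (nat_lit 1998) (nat_lit 137) (.e (nat_lit 663554) (nat_lit 0) (.e (nat_lit 1449) (nat_lit 108) .nil))) .nil))) (.nd (nat_lit 5) 
(.lf (nat_lit 86875) (.g (nat_lit 2410) (.e (nat_lit 1996) (nat_lit 137) (.e (nat_lit 663569) (nat_lit 6) (.e (nat_lit 81950) (nat_lit 21) (.e (nat_lit 57873) (nat_lit 264) (.e (nat_lit 1219) (nat_lit 90) (.e (nat_lit 81935) (nat_lit 20) .nil)))))) (.g (nat_lit 5) .nil .nil))) 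
(.lf (nat_lit 86907) (.g (nat_lit 1451) (.e (nat_lit 1998) (nat_lit 137) (.e (nat_lit 663554) (nat_lit 0) (.e (nat_lit 1572) (nat_lit 110) (.e (nat_lit 352318) (nat_lit 24) (.e (nat_lit 123185) (nat_lit 264) .nil))))) .nil))))) (.nd (nat_lit 3) (.nd (nat_lit 4) (.nd (nat_lit 5) 
(.lf (nat_lit 86855) (.g (nat_lit 1056) (.e (nat_lit 1996) (nat_lit 137) (.e (nat_lit 663569) (nat_lit 6) (.e (nat_lit 81924) (nat_lit 0) (.e (nat_lit 3631) (nat_lit 227) (.e (nat_lit 786176) (nat_lit 6) (.e (nat_lit 81935) (nat_lit 20) .nil)))))) (.g (nat_lit 4) .nil .nil))) 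
(.lf (nat_lit 86887) (.g (nat_lit 1156) (.e (nat_lit 1997) (nat_lit 137) (.e (nat_lit 663568) (nat_lit 5) (.e (nat_lit 73782) (nat_lit 32) (.e (nat_lit 3089) (nat_lit 191) (.e (nat_lit 483393) (nat_lit 23) .nil))))) .nil))) (.nd (nat_lit 5) 
(.lf (nat_lit 86871) (.g (nat_lit 2666) (.e (nat_lit 1996) (nat_lit 137) (.e (nat_lit 663569) (nat_lit 6) (.e (nat_lit 81948) (nat_lit 21) (.e (nat_lit 57872) (nat_lit 264) (.e (nat_lit 1219) (nat_lit 90) (.e (nat_lit 81935) (nat_lit 20) .nil)))))) (.g (nat_lit 0) .nil .nil))) 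
(.lf (nat_lit 86903) (.g (nat_lit 1493) (.e (nat_lit 1998) (nat_lit 137) (.e (nat_lit 663554) (nat_lit 0) (.e (nat_lit 1567) (nat_lit 110) (.e (nat_lit 352318) (nat_lit 24) (.e (nat_lit 123185) (nat_lit 264) (.e (nat_lit 7936) (nat_lit 90) (.e (nat_lit 81933) (nat_lit 20) .nil))))))) (.g (nat_lit 4) .nil .nil))))) (.nd (nat_lit 4) (.nd (nat_lit 5) 
(.lf (nat_lit 86863) (.g (nat_lit 1632) (.e (nat_lit 1996) (nat_lit 137) (.e (nat_lit 663569) (nat_lit 6) (.e (nat_lit 81943) (nat_lit 20) (.e (nat_lit 2003) (nat_lit 138) (.e (nat_lit 671764) (nat_lit 6) (.e (nat_lit 81935) (nat_lit 20) .nil)))))) (.g (nat_lit 0) .nil .nil))) 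
(.lf (nat_lit 86895) (.g (nat_lit 634) (.e (nat_lit 1998) (nat_lit 137) (.e (nat_lit 663554) (nat_lit 0) (.e (nat_lit 1553) (nat_lit 110) (.e (nat_lit 352270) (nat_lit 8) .nil)))) .nil))) (.nd (nat_lit 5) 
(.lf (nat_lit 86879) (.g (nat_lit 2098) (.e (nat_lit 1996) (nat_lit 137) (.e (nat_lit 663569) (nat_lit 6) (.e (nat_lit 81957) (nat_lit 24) (.e (nat_lit 123185) (nat_lit 264) (.e (nat_lit 1222) (nat_lit 90) (.e (nat_lit 81935) (nat_lit 20) .nil)))))) (.g (nat_lit 0) .nil .nil))) 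
(.lf (nat_lit 86911) (.g (nat_lit 441) (.e (nat_lit 1998) (nat_lit 137) (.e (nat_lit 663554) (nat_lit 0) (.e (nat_lit 1576) (nat_lit 110) .nil))) .nil))))))))

noncomputable def tv1181 : DT := (.nd (nat_lit 0) (.nd (nat_lit 1) (.nd (nat_lit 2) (.nd (nat_lit 3) (.nd (nat_lit 4) (.nd (nat_lit 5) 
(.lf (nat_lit 86912) (.g (nat_lit 418) (.e (nat_lit 1998) (nat_lit 137) (.e (nat_lit 663554) (nat_lit 0) (.e (nat_lit 7936) (nat_lit 110) .nil))) .nil)) 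
(.lf (nat_lit 86944) (.g (nat_lit 1320) (.e (nat_lit 1998) (nat_lit 137) (.e (nat_lit 663554) (nat_lit 0) (.e (nat_lit 1595) (nat_lit 111) (.e (nat_lit 360455) (nat_lit 0) (.e (nat_lit 5813) (nat_lit 320) .nil))))) .nil))) (.nd (nat_lit 5) 
(.lf (nat_lit 86928) (.g (nat_lit 1904) (.e (nat_lit 1998) (nat_lit 137) (.e (nat_lit 663554) (nat_lit 0) (.e (nat_lit 1589) (nat_lit 111) (.e (nat_lit 360453) (nat_lit 0) (.e (nat_lit 5905) (nat_lit 320) (.e (nat_lit 1221) (nat_lit 90) (.e (nat_lit 81931) (nat_lit 20) .nil))))))) (.g (nat_lit 4) .nil .nil))) 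
(.lf (nat_lit 86960) (.g (nat_lit 3005) (.e (nat_lit 1998) (nat_lit 137) (.e (nat_lit 663564) (nat_lit 3) (.e (nat_lit 57477) (nat_lit 28) (.e (nat_lit 557097) (nat_lit 13) (.e (nat_lit 172097) (nat_lit 9) (.e (nat_lit 426125) (nat_lit 2) (.e (nat_lit 196666) (nat_lit 13) (.e (nat_lit 65539) (nat_lit 0) .nil)))))))) (.g (nat_lit 0) .nil .nil))))) (.nd (nat_lit 4) (.nd (nat_lit 5) 
(.lf (nat_lit 86920) (.g (nat_lit 1107) (.e (nat_lit 1998) (nat_lit 137) (.e (nat_lit 663554) (nat_lit 0) (.e (nat_lit 1586) (nat_lit 111) (.e (nat_lit 368384) (nat_lit 0) .nil)))) .nil)) 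
(.lf (nat_lit 86952) (.g (nat_lit 1581) (.e (nat_lit 1998) (nat_lit 137) (.e (nat_lit 663554) (nat_lit 0) (.e (nat_lit 1598) (nat_lit 111) (.e (nat_lit 360452) (nat_lit 0) (.e (nat_lit 5907) (nat_lit 320) .nil))))) .nil))) (.nd (nat_lit 5) 
(.lf (nat_lit 86936) (.g (nat_lit 2915) (.e (nat_lit 1998) (nat_lit 137) (.e (nat_lit 663554) (nat_lit 0) (.e (nat_lit 1589) (nat_lit 111) (.e (nat_lit 360486) (nat_lit 18) (.e (nat_lit 671764) (nat_lit 6) (.e (nat_lit 81935) (nat_lit 20) .nil)))))) (.g (nat_lit 0) .nil .nil))) 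
(.lf (nat_lit 86968) (.g (nat_lit 3129) (.e (nat_lit 1998) (nat_lit 137) (.e (nat_lit 663565) (nat_lit 3) (.e (nat_lit 57478) (nat_lit 28) (.e (nat_lit 557098) (nat_lit 13) (.e (nat_lit 172097) (nat_lit 9) (.e (nat_lit 426140) (nat_lit 3) (.e (nat_lit 204855) (nat_lit 26) (.e (nat_lit 335905) (nat_lit 0) .nil)))))))) (.g (nat_lit 6) .nil .nil)))))) 
(.nd (nat_lit 3) (.nd (nat_lit 4) (.nd (nat_lit 5) 
(.lf (nat_lit 86916) (.g (nat_lit 427) (.e (nat_lit 1998) (nat_lit 137) (.e (nat_lit 663554) (nat_lit 0) (.e (nat_lit 1586) (nat_lit 111) .nil))) .nil)) 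
(.lf (nat_lit 86948) (.g (nat_lit 1126) (.e (nat_lit 1998) (nat_lit 137) (.e (nat_lit 663554) (nat_lit 0) (.e (nat_lit 1595) (nat_lit 111) (.e (nat_lit 360486) (nat_lit 18) .nil)))) .nil))) (.nd (nat_lit 5) 
(.lf (nat_lit 86932) (.g (nat_lit 1316) (.e (nat_lit 1998) (nat_lit 137) (.e (nat_lit 663554) (nat_lit 0) (.e (nat_lit 1589) (nat_lit 111) (.e (nat_lit 368384) (nat_lit 0) .nil)))) .nil)) 
(.lf (nat_lit 86964) (.g (nat_lit 3788) (.e (nat_lit 1998) (nat_lit 137) (.e (nat_lit 663564) (nat_lit 3) (.e (nat_lit 57480) (nat_lit 28) (.e (nat_lit 557098) (nat_lit 13) (.e (nat_lit 172097) (nat_lit 9) (.e (nat_lit 426125) (nat_lit 2) (.e (nat_lit 196666) (nat_lit 13) (.e (nat_lit 65539) (nat_lit 0) .nil)))))))) (.g (nat_lit 0) .nil .nil))))) (.nd (nat_lit 4) (.nd (nat_lit 5) 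
(.lf (nat_lit 86924) (.g (nat_lit 1349) (.e (nat_lit 1998) (nat_lit 137) (.e (nat_lit 663554) (nat_lit 0) (.e (nat_lit 1589) (nat_lit 111) (.e (nat_lit 360449) (nat_lit 0) .nil)))) .nil)) 
(.lf (nat_lit 86956) (.g (nat_lit 442) (.e (nat_lit 1998) (nat_lit 137) (.e (nat_lit 663554) (nat_lit 0) (.e (nat_lit 1599) (nat_lit 111) .nil))) .nil))) (.nd (nat_lit 5) 
(.lf (nat_lit 86940) (.g (nat_lit 420) (.e (nat_lit 1998) (nat_lit 137) (.e (nat_lit 663554) (nat_lit 0) (.e (nat_lit 1592) (nat_lit 111) .nil))) .nil)) 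
(.lf (nat_lit 86972) (.g (nat_lit 4256) (.e (nat_lit 1998) (nat_lit 137) (.e (nat_lit 663565) (nat_lit 3) (.e (nat_lit 57478) (nat_lit 28) (.e (nat_lit 557101) (nat_lit 13) (.e (nat_lit 172097) (nat_lit 9) (.e (nat_lit 426125) (nat_lit 2) (.e (nat_lit 196666) (nat_lit 13) (.e (nat_lit 65543) (nat_lit 0) .nil)))))))) (.g (nat_lit 8) .nil .nil))))))) 
(.nd (nat_lit 2) (.nd (nat_lit 3) (.nd (nat_lit 4) (.nd (nat_lit 5) 
(.lf (nat_lit 86914) (.g (nat_lit 541) (.e (nat_lit 1998) (nat_lit 137) (.e (nat_lit 663554) (nat_lit 0) (.e (nat_lit 1580) (nat_lit 111) (.e (nat_lit 360455) (nat_lit 0) .nil)))) .nil)) 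
(.lf (nat_lit 86946) (.g (nat_lit 2588) (.e (nat_lit 1998) (nat_lit 137) (.e (nat_lit 663554) (nat_lit 0) (.e (nat_lit 1595) (nat_lit 111) (.e (nat_lit 360457) (nat_lit 0) (.e (nat_lit 5818) (nat_lit 320) (.e (nat_lit 1222) (nat_lit 90) (.e (nat_lit 81935) (nat_lit 20) .nil))))))) (.g (nat_lit 6) .nil .nil)))) (.nd (nat_lit 5) 
(.lf (nat_lit 86930) (.g (nat_lit 1486) (.e (nat_lit 1998) (nat_lit 137) (.e (nat_lit 663554) (nat_lit 0) (.e (nat_lit 1589) (nat_lit 111) (.e (nat_lit 360455) (nat_lit 0) .nil)))) .nil)) 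
(.lf (nat_lit 86962) (.g (nat_lit 2341) (.e (nat_lit 1998) (nat_lit 137) (.e (nat_lit 663564) (nat_lit 3) (.e (nat_lit 57479) (nat_lit 28) (.e (nat_lit 557095) (nat_lit 13) (.e (nat_lit 172115) (nat_lit 10) (.e (nat_lit 434231) (nat_lit 23) (.e (nat_lit 532535) (nat_lit 9) (.e (nat_lit 335905) (nat_lit 0) .nil)))))))) (.g (nat_lit 4) .nil .nil))))) (.nd (nat_lit 4) (.nd (nat_lit 5) 
(.lf (nat_lit 86922) (.g (nat_lit 2161) (.e (nat_lit 1998) (nat_lit 137) (.e (nat_lit 663554) (nat_lit 0) (.e (nat_lit 1586) (nat_lit 111) (.e (nat_lit 360486) (nat_lit 18) (.e (nat_lit 671764) (nat_lit 6) (.e (nat_lit 81933) (nat_lit 20) .nil)))))) (.g (nat_lit 5) .nil .nil))) 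
(.lf (nat_lit 86954) (.g (nat_lit 1828) (.e (nat_lit 1998) (nat_lit 137) (.e (nat_lit 663554) (nat_lit 0) (.e (nat_lit 1598) (nat_lit 111) (.e (nat_lit 360486) (nat_lit 18) (.e (nat_lit 671764) (nat_lit 6) (.e (nat_lit 81931) (nat_lit 20) .nil)))))) (.g (nat_lit 5) .nil .nil)))) (.nd (nat_lit 5) 
(.lf (nat_lit 86938) (.g (nat_lit 453) (.e (nat_lit 1998) (nat_lit 137) (.e (nat_lit 663554) (nat_lit 0) (.e (nat_lit 1590) (nat_lit 111) .nil))) .nil)) 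
(.lf (nat_lit 86970) (.g (nat_lit 4606) (.e (nat_lit 1998) (nat_lit 137) (.e (nat_lit 663565) (nat_lit 3) (.e (nat_lit 57478) (nat_lit 28) (.e (nat_lit 557100) (nat_lit 13) (.e (nat_lit 172106) (nat_lit 10) (.e (nat_lit 434231) (nat_lit 23) (.e (nat_lit 532535) (nat_lit 9) (.e (nat_lit 335908) (nat_lit 0) .nil)))))))) (.g (nat_lit 7) .nil .nil)))))) 
(.nd (nat_lit 3) (.nd (nat_lit 4) (.nd (nat_lit 5) 
(.lf (nat_lit 86918) (.g (nat_lit 1143) (.e (nat_lit 1998) (nat_lit 137) (.e (nat_lit 663554) (nat_lit 0) (.e (nat_lit 1586) (nat_lit 111) (.e (nat_lit 360451) (nat_lit 0) .nil)))) .nil)) 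
(.lf (nat_lit 86950) (.g (nat_lit 1510) (.e (nat_lit 1998) (nat_lit 137) (.e (nat_lit 663554) (nat_lit 0) (.e (nat_lit 1595) (nat_lit 111) (.e (nat_lit 360486) (nat_lit 18) (.e (nat_lit 679680) (nat_lit 6) .nil))))) .nil))) (.nd (nat_lit 5) 
(.lf (nat_lit 86934) (.g (nat_lit 1325) (.e (nat_lit 1998) (nat_lit 137) (.e (nat_lit 663554) (nat_lit 0) (.e (nat_lit 1589) (nat_lit 111) (.e (nat_lit 360486) (nat_lit 18) .nil)))) .nil)) 
(.lf (nat_lit 86966) (.g (nat_lit 4307) (.e (nat_lit 1998) (nat_lit 137) (.e (nat_lit 663565) (nat_lit 3) (.e (nat_lit 57478) (nat_lit 28) (.e (nat_lit 557098) (nat_lit 13) (.e (nat_lit 172097) (nat_lit 9) (.e (nat_lit 426125) (nat_lit 2) (.e (nat_lit 196666) (nat_lit 13) (.e (nat_lit 65539) (nat_lit 0) .nil)))))))) (.g (nat_lit 8) .nil .nil))))) (.nd (nat_lit 4) (.nd (nat_lit 5) 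
(.lf (nat_lit 86926) (.g (nat_lit 2177) (.e (nat_lit 1998) (nat_lit 137) (.e (nat_lit 663554) (nat_lit 0) (.e (nat_lit 1589) (nat_lit 111) (.e (nat_lit 360452) (nat_lit 0) (.e (nat_lit 5905) (nat_lit 320) .nil))))) .nil)) 
(.lf (nat_lit 86958) (.g (nat_lit 451) (.e (nat_lit 1998) (nat_lit 137) (.e (nat_lit 663554) (nat_lit 0) (.e (nat_lit 1603) (nat_lit 112) .nil))) .nil))) (.nd (nat_lit 5) 
(.lf (nat_lit 86942) (.g (nat_lit 1532) (.e (nat_lit 1998) (nat_lit 137) (.e (nat_lit 663554) (nat_lit 0) (.e (nat_lit 1595) (nat_lit 111) (.e (nat_lit 360453) (nat_lit 0) (.e (nat_lit 5905) (nat_lit 320) .nil))))) .nil)) 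
(.lf (nat_lit 86974) (.g (nat_lit 3926) (.e (nat_lit 1998) (nat_lit 137) (.e (nat_lit 663565) (nat_lit 3) (.e (nat_lit 57478) (nat_lit 28) (.e (nat_lit 557101) (nat_lit 13) (.e (nat_lit 172097) (nat_lit 9) (.e (nat_lit 426140) (nat_lit 3) (.e (nat_lit 204855) (nat_lit 26) (.e (nat_lit 335908) (nat_lit 0) .nil)))))))) (.g (nat_lit 8) .nil .nil)))))))) 
(.nd (nat_lit 1) (.nd (nat_lit 2) (.nd (nat_lit 3) (.nd (nat_lit 4) (.nd (nat_lit 5) 
(.lf (nat_lit 86913) (.g (nat_lit 341) (.e (nat_lit 1998) (nat_lit 137) (.e (nat_lit 663554) (nat_lit 0) (.e (nat_lit 1580) (nat_lit 111) .nil))) .nil)) 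
(.lf (nat_lit 86945) (.g (nat_lit 1330) (.e (nat_lit 1998) (nat_lit 137) (.e (nat_lit 663554) (nat_lit 0) (.e (nat_lit 1595) (nat_lit 111) (.e (nat_lit 360457) (nat_lit 0) (.e (nat_lit 5818) (nat_lit 320) .nil))))) .nil))) (.nd (nat_lit 5) 
(.lf (nat_lit 86929) (.g (nat_lit 1736) (.e (nat_lit 1998) (nat_lit 137) (.e (nat_lit 663554) (nat_lit 0) (.e (nat_lit 1589) (nat_lit 111) (.e (nat_lit 360453) (nat_lit 0) (.e (nat_lit 5907) (nat_lit 320) .nil))))) .nil)) 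
(.lf (nat_lit 86961) (.g (nat_lit 2544) (.e (nat_lit 1998) (nat_lit 137) (.e (nat_lit 663564) (nat_lit 3) (.e (nat_lit 57477) (nat_lit 28) (.e (nat_lit 557108) (nat_lit 15) (.e (nat_lit 188449) (nat_lit 22) (.e (nat_lit 196666) (nat_lit 13) (.e (nat_lit 65539) (nat_lit 0) .nil))))))) (.g (nat_lit 0) .nil .nil))))) (.nd (nat_lit 4) (.nd (nat_lit 5) 
(.lf (nat_lit 86921) (.g (nat_lit 1107) (.e (nat_lit 1998) (nat_lit 137) (.e (nat_lit 663554) (nat_lit 0) (.e (nat_lit 1586) (nat_lit 111) (.e (nat_lit 368384) (nat_lit 17) .nil)))) .nil)) 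
(.lf (nat_lit 86953) (.g (nat_lit 852) (.e (nat_lit 1998) (nat_lit 137) (.e (nat_lit 663554) (nat_lit 0) (.e (nat_lit 1598) (nat_lit 111) (.e (nat_lit 360455) (nat_lit 0) .nil)))) .nil))) (.nd (nat_lit 5) 
(.lf (nat_lit 86937) (.g (nat_lit 1974) (.e (nat_lit 1998) (nat_lit 137) (.e (nat_lit 663554) (nat_lit 0) (.e (nat_lit 1589) (nat_lit 111) (.e (nat_lit 360486) (nat_lit 18) (.e (nat_lit 679680) (nat_lit 6) .nil))))) .nil)) 
(.lf (nat_lit 86969) (.g (nat_lit 3521) (.e (nat_lit 1998) (nat_lit 137) (.e (nat_lit 663565) (nat_lit 3) (.e (nat_lit 57478) (nat_lit 28) (.e (nat_lit 557098) (nat_lit 13) (.e (nat_lit 172115) (nat_lit 10) (.e (nat_lit 434231) (nat_lit 23) (.e (nat_lit 532535) (nat_lit 9) (.e (nat_lit 335886) (nat_lit 0) .nil)))))))) (.g (nat_lit 6) .nil .nil)))))) 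
(.nd (nat_lit 3) (.nd (nat_lit 4) (.nd (nat_lit 5) 
(.lf (nat_lit 86917) (.g (nat_lit 1816) (.e (nat_lit 1998) (nat_lit 137) (.e (nat_lit 663554) (nat_lit 0) (.e (nat_lit 1586) (nat_lit 111) (.e (nat_lit 360450) (nat_lit 0) (.e (nat_lit 5898) (nat_lit 320) (.e (nat_lit 7936) (nat_lit 90) (.e (nat_lit 81933) (nat_lit 20) .nil))))))) (.g (nat_lit 4) .nil .nil))) 
(.lf (nat_lit 86949) (.g (nat_lit 2778) (.e (nat_lit 1998) (nat_lit 137) (.e (nat_lit 663554) (nat_lit 0) (.e (nat_lit 1595) (nat_lit 111) (.e (nat_lit 360486) (nat_lit 18) (.e (nat_lit 671764) (nat_lit 6) (.e (nat_lit 81935) (nat_lit 20) .nil)))))) (.g (nat_lit 0) .nil .nil)))) (.nd (nat_lit 5) 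
(.lf (nat_lit 86933) (.g (nat_lit 1316) (.e (nat_lit 1998) (nat_lit 137) (.e (nat_lit 663554) (nat_lit 0) (.e (nat_lit 1589) (nat_lit 111) (.e (nat_lit 368384) (nat_lit 17) .nil)))) .nil)) 
(.lf (nat_lit 86965) (.g (nat_lit 3380) (.e (nat_lit 1998) (nat_lit 137) (.e (nat_lit 663564) (nat_lit 3) (.e (nat_lit 57480) (nat_lit 28) (.e (nat_lit 557109) (nat_lit 15) (.e (nat_lit 188449) (nat_lit 22) (.e (nat_lit 196666) (nat_lit 13) (.e (nat_lit 65539) (nat_lit 0) .nil))))))) (.g (nat_lit 0) .nil .nil))))) (.nd (nat_lit 4) (.nd (nat_lit 5) 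
(.lf (nat_lit 86925) (.g (nat_lit 1486) (.e (nat_lit 1998) (nat_lit 137) (.e (nat_lit 663554) (nat_lit 0) (.e (nat_lit 1589) (nat_lit 111) (.e (nat_lit 360452) (nat_lit 0) .nil)))) .nil)) 
(.lf (nat_lit 86957) (.g (nat_lit 1558) (.e (nat_lit 1998) (nat_lit 137) (.e (nat_lit 663554) (nat_lit 0) (.e (nat_lit 1599) (nat_lit 111) (.e (nat_lit 360486) (nat_lit 18) (.e (nat_lit 671764) (nat_lit 6) (.e (nat_lit 81933) (nat_lit 20) .nil)))))) (.g (nat_lit 5) .nil .nil)))) (.nd (nat_lit 5) 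
(.lf (nat_lit 86941) (.g (nat_lit 395) (.e (nat_lit 1998) (nat_lit 137) (.e (nat_lit 663554) (nat_lit 0) (.e (nat_lit 1595) (nat_lit 111) .nil))) .nil)) 
(.lf (nat_lit 86973) (.g (nat_lit 3071) (.e (nat_lit 1998) (nat_lit 137) (.e (nat_lit 663565) (nat_lit 3) (.e (nat_lit 57478) (nat_lit 28) (.e (nat_lit 557101) (nat_lit 13) (.e (nat_lit 172097) (nat_lit 9) (.e (nat_lit 426140) (nat_lit 3) (.e (nat_lit 204855) (nat_lit 26) (.e (nat_lit 335905) (nat_lit 0) .nil)))))))) (.g (nat_lit 6) .nil .nil))))))) 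
(.nd (nat_lit 2) (.nd (nat_lit 3) (.nd (nat_lit 4) (.nd (nat_lit 5) 
(.lf (nat_lit 86915) (.g (nat_lit 1225) (.e (nat_lit 1998) (nat_lit 137) (.e (nat_lit 663554) (nat_lit 0) (.e (nat_lit 1580) (nat_lit 111) (.e (nat_lit 360486) (nat_lit 18) (.e (nat_lit 671764) (nat_lit 6) (.e (nat_lit 81933) (nat_lit 20) .nil)))))) (.g (nat_lit 4) .nil .nil))) 
(.lf (nat_lit 86947) (.g (nat_lit 1092) (.e (nat_lit 1998) (nat_lit 137) (.e (nat_lit 663554) (nat_lit 0) (.e (nat_lit 1595) (nat_lit 111) (.e (nat_lit 368384) (nat_lit 17) .nil)))) .nil))) (.nd (nat_lit 5) 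
(.lf (nat_lit 86931) (.g (nat_lit 1355) (.e (nat_lit 1998) (nat_lit 137) (.e (nat_lit 663554) (nat_lit 0) (.e (nat_lit 1589) (nat_lit 111) (.e (nat_lit 360457) (nat_lit 0) .nil)))) .nil)) 
(.lf (nat_lit 86963) (.g (nat_lit 3811) (.e (nat_lit 1998) (nat_lit 137) (.e (nat_lit 663564) (nat_lit 3) (.e (nat_lit 57479) (nat_lit 28) (.e (nat_lit 557101) (nat_lit 13) (.e (nat_lit 172097) (nat_lit 9) (.e (nat_lit 426125) (nat_lit 2) (.e (nat_lit 196666) (nat_lit 13) (.e (nat_lit 65539) (nat_lit 0) .nil)))))))) (.g (nat_lit 0) .nil .nil))))) (.nd (nat_lit 4) (.nd (nat_lit 5) 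
(.lf (nat_lit 86923) (.g (nat_lit 1617) (.e (nat_lit 1998) (nat_lit 137) (.e (nat_lit 663554) (nat_lit 0) (.e (nat_lit 1586) (nat_lit 111) (.e (nat_lit 360486) (nat_lit 18) (.e (nat_lit 679680) (nat_lit 6) .nil))))) .nil)) 
(.lf (nat_lit 86955) (.g (nat_lit 1403) (.e (nat_lit 1998) (nat_lit 137) (.e (nat_lit 663554) (nat_lit 0) (.e (nat_lit 1598) (nat_lit 111) (.e (nat_lit 360486) (nat_lit 18) (.e (nat_lit 671764) (nat_lit 6) (.e (nat_lit 81933) (nat_lit 20) .nil)))))) (.g (nat_lit 4) .nil .nil)))) (.nd (nat_lit 5) 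
(.lf (nat_lit 86939) (.g (nat_lit 1155) (.e (nat_lit 1998) (nat_lit 137) (.e (nat_lit 663554) (nat_lit 0) (.e (nat_lit 1590) (nat_lit 111) (.e (nat_lit 360486) (nat_lit 18) (.e (nat_lit 671764) (nat_lit 6) .nil))))) .nil)) 
(.lf (nat_lit 86971) (.g (nat_lit 4242) (.e (nat_lit 1998) (nat_lit 137) (.e (nat_lit 663565) (nat_lit 3) (.e (nat_lit 57478) (nat_lit 28) (.e (nat_lit 557101) (nat_lit 13) (.e (nat_lit 172097) (nat_lit 9) (.e (nat_lit 426125) (nat_lit 2) (.e (nat_lit 196666) (nat_lit 13) (.e (nat_lit 65539) (nat_lit 0) .nil)))))))) (.g (nat_lit 8) .nil .nil)))))) 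
(.nd (nat_lit 3) (.nd (nat_lit 4) (.nd (nat_lit 5) 
(.lf (nat_lit 86919) (.g (nat_lit 1056) (.e (nat_lit 1998) (nat_lit 137) (.e (nat_lit 663554) (nat_lit 0) (.e (nat_lit 1586) (nat_lit 111) (.e (nat_lit 360456) (nat_lit 0) .nil)))) .nil)) 
(.lf (nat_lit 86951) (.g (nat_lit 415) (.e (nat_lit 1998) (nat_lit 137) (.e (nat_lit 663554) (nat_lit 0) (.e (nat_lit 1598) (nat_lit 111) .nil))) .nil))) (.nd (nat_lit 5) 
(.lf (nat_lit 86935) (.g (nat_lit 2453) (.e (nat_lit 1998) (nat_lit 137) (.e (nat_lit 663554) (nat_lit 0) (.e (nat_lit 1589) (nat_lit 111) (.e (nat_lit 360486) (nat_lit 18) (.e (nat_lit 671764) (nat_lit 6) (.e (nat_lit 81933) (nat_lit 20) .nil)))))) (.g (nat_lit 5) .nil .nil))) 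
(.lf (nat_lit 86967) (.g (nat_lit 4321) (.e (nat_lit 1998) (nat_lit 137) (.e (nat_lit 663565) (nat_lit 3) (.e (nat_lit 57478) (nat_lit 28) (.e (nat_lit 557098) (nat_lit 13) (.e (nat_lit 172097) (nat_lit 9) (.e (nat_lit 426125) (nat_lit 2) (.e (nat_lit 196666) (nat_lit 13) (.e (nat_lit 65543) (nat_lit 0) .nil)))))))) (.g (nat_lit 8) .nil .nil))))) (.nd (nat_lit 4) (.nd (nat_lit 5) 
(.lf (nat_lit 86927) (.g (nat_lit 1314) (.e (nat_lit 1998) (nat_lit 137) (.e (nat_lit 663554) (nat_lit 0) (.e (nat_lit 1589) (nat_lit 111) (.e (nat_lit 360453) (nat_lit 0) .nil)))) .nil)) 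
(.lf (nat_lit 86959) (.g (nat_lit 418) (.e (nat_lit 1998) (nat_lit 137) (.e (nat_lit 663554) (nat_lit 0) (.e (nat_lit 7936) (nat_lit 112) .nil))) .nil))) (.nd (nat_lit 5) 
(.lf (nat_lit 86943) (.g (nat_lit 1212) (.e (nat_lit 1998) (nat_lit 137) (.e (nat_lit 663554) (nat_lit 0) (.e (nat_lit 1595) (nat_lit 111) (.e (nat_lit 360455) (nat_lit 0) .nil)))) .nil)) 
(.lf (nat_lit 86975) (.g (nat_lit 3418) (.e (nat_lit 1998) (nat_lit 137) (.e (nat_lit 663565) (nat_lit 3) (.e (nat_lit 57478) (nat_lit 28) (.e (nat_lit 557101) (nat_lit 13) (.e (nat_lit 172115) (nat_lit 10) (.e (nat_lit 434231) (nat_lit 23) (.e (nat_lit 532535) (nat_lit 9) (.e (nat_lit 335886) (nat_lit 0) .nil)))))))) (.g (nat_lit 6) .nil .nil)))))))))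

noncomputable def tv1182 : DT := (.nd (nat_lit 0) (.nd (nat_lit 1) (.nd (nat_lit 2) (.nd (nat_lit 3) (.nd (nat_lit 4) (.nd (nat_lit 5) 
(.lf (nat_lit 86976) (.g (nat_lit 4260) (.e (nat_lit 1998) (nat_lit 137) (.e (nat_lit 663565) (nat_lit 3) (.e (nat_lit 57478) (nat_lit 28) (.e (nat_lit 557101) (nat_lit 13) (.e (nat_lit 172115) (nat_lit 10) (.e (nat_lit 434231) (nat_lit 23) (.e (nat_lit 532535) (nat_lit 9) (.e (nat_lit 335908) (nat_lit 0) .nil)))))))) (.g (nat_lit 0) .nil .nil))) 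
(.lf (nat_lit 87008) (.g (nat_lit 1820) (.e (nat_lit 1998) (nat_lit 137) (.e (nat_lit 663567) (nat_lit 4) (.e (nat_lit 65583) (nat_lit 7) (.e (nat_lit 319539) (nat_lit 19) (.e (nat_lit 311358) (nat_lit 29) (.e (nat_lit 352287) (nat_lit 20) .nil)))))) (.g (nat_lit 0) .nil .nil)))) (.nd (nat_lit 5) 
(.lf (nat_lit 86992) (.g (nat_lit 4722) (.e (nat_lit 1998) (nat_lit 137) (.e (nat_lit 663565) (nat_lit 3) (.e (nat_lit 57480) (nat_lit 28) (.e (nat_lit 557098) (nat_lit 13) (.e (nat_lit 172097) (nat_lit 9) (.e (nat_lit 426125) (nat_lit 2) (.e (nat_lit 196666) (nat_lit 13) (.e (nat_lit 65543) (nat_lit 0) .nil)))))))) (.g (nat_lit 0) .nil .nil))) 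
(.lf (nat_lit 87024) (.g (nat_lit 2646) (.e (nat_lit 1998) (nat_lit 137) (.e (nat_lit 663567) (nat_lit 4) (.e (nat_lit 65598) (nat_lit 9) (.e (nat_lit 335997) (nat_lit 1) (.e (nat_lit 57870) (nat_lit 264) (.e (nat_lit 1221) (nat_lit 90) (.e (nat_lit 81931) (nat_lit 20) .nil))))))) (.g (nat_lit 6) .nil .nil))))) (.nd (nat_lit 4) (.nd (nat_lit 5) 
(.lf (nat_lit 86984) (.g (nat_lit 2982) (.e (nat_lit 1998) (nat_lit 137) (.e (nat_lit 663565) (nat_lit 3) (.e (nat_lit 57479) (nat_lit 28) (.e (nat_lit 557095) (nat_lit 13) (.e (nat_lit 172097) (nat_lit 9) (.e (nat_lit 426140) (nat_lit 3) (.e (nat_lit 204855) (nat_lit 26) (.e (nat_lit 335908) (nat_lit 0) .nil)))))))) (.g (nat_lit 4) .nil .nil))) 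
(.lf (nat_lit 87016) (.g (nat_lit 1150) (.e (nat_lit 1998) (nat_lit 137) (.e (nat_lit 663567) (nat_lit 4) (.e (nat_lit 65584) (nat_lit 7) (.e (nat_lit 319539) (nat_lit 19) (.e (nat_lit 319232) (nat_lit 29) .nil))))) .nil))) (.nd (nat_lit 5) 
(.lf (nat_lit 87000) (.g (nat_lit 2957) (.e (nat_lit 1998) (nat_lit 137) (.e (nat_lit 663565) (nat_lit 3) (.e (nat_lit 57520) (nat_lit 44) (.e (nat_lit 688177) (nat_lit 16) (.e (nat_lit 65583) (nat_lit 7) (.e (nat_lit 319530) (nat_lit 16) (.e (nat_lit 286748) (nat_lit 9) (.e (nat_lit 335891) (nat_lit 0) .nil)))))))) (.g (nat_lit 6) .nil .nil))) 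
(.lf (nat_lit 87032) (.g (nat_lit 2009) (.e (nat_lit 1998) (nat_lit 137) (.e (nat_lit 663567) (nat_lit 4) (.e (nat_lit 65610) (nat_lit 10) (.e (nat_lit 344097) (nat_lit 18) (.e (nat_lit 5906) (nat_lit 320) .nil))))) .nil))))) (.nd (nat_lit 3) (.nd (nat_lit 4) (.nd (nat_lit 5) 
(.lf (nat_lit 86980) (.g (nat_lit 4203) (.e (nat_lit 1998) (nat_lit 137) (.e (nat_lit 663565) (nat_lit 3) (.e (nat_lit 57478) (nat_lit 28) (.e (nat_lit 557109) (nat_lit 15) (.e (nat_lit 188449) (nat_lit 22) (.e (nat_lit 196666) (nat_lit 13) (.e (nat_lit 65539) (nat_lit 0) .nil))))))) (.g (nat_lit 0) .nil .nil))) 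
(.lf (nat_lit 87012) (.g (nat_lit 1440) (.e (nat_lit 1998) (nat_lit 137) (.e (nat_lit 663567) (nat_lit 4) (.e (nat_lit 65584) (nat_lit 7) (.e (nat_lit 319506) (nat_lit 10) (.e (nat_lit 5723) (nat_lit 312) .nil))))) .nil))) (.nd (nat_lit 5) 
(.lf (nat_lit 86996) (.g (nat_lit 3565) (.e (nat_lit 1998) (nat_lit 137) (.e (nat_lit 663565) (nat_lit 3) (.e (nat_lit 57480) (nat_lit 28) (.e (nat_lit 557107) (nat_lit 15) (.e (nat_lit 188450) (nat_lit 23) (.e (nat_lit 204855) (nat_lit 26) (.e (nat_lit 335908) (nat_lit 0) .nil))))))) (.g (nat_lit 6) .nil .nil))) 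
(.lf (nat_lit 87028) (.g (nat_lit 2993) (.e (nat_lit 1998) (nat_lit 137) (.e (nat_lit 663567) (nat_lit 4) (.e (nat_lit 65604) (nat_lit 9) (.e (nat_lit 335997) (nat_lit 1) (.e (nat_lit 57872) (nat_lit 264) (.e (nat_lit 1221) (nat_lit 90) (.e (nat_lit 81931) (nat_lit 20) .nil))))))) (.g (nat_lit 7) .nil .nil))))) (.nd (nat_lit 4) (.nd (nat_lit 5) 
(.lf (nat_lit 86988) (.g (nat_lit 4783) (.e (nat_lit 1998) (nat_lit 137) (.e (nat_lit 663565) (nat_lit 3) (.e (nat_lit 57479) (nat_lit 28) (.e (nat_lit 557101) (nat_lit 13) (.e (nat_lit 172097) (nat_lit 9) (.e (nat_lit 426125) (nat_lit 2) (.e (nat_lit 196666) (nat_lit 13) (.e (nat_lit 65539) (nat_lit 0) .nil)))))))) (.g (nat_lit 0) .nil .nil))) 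
(.lf (nat_lit 87020) (.g (nat_lit 945) (.e (nat_lit 1998) (nat_lit 137) (.e (nat_lit 663567) (nat_lit 4) (.e (nat_lit 65585) (nat_lit 7) (.e (nat_lit 319539) (nat_lit 19) (.e (nat_lit 319232) (nat_lit 29) .nil))))) .nil))) (.nd (nat_lit 5) 
(.lf (nat_lit 87004) (.g (nat_lit 1841) (.e (nat_lit 1998) (nat_lit 137) (.e (nat_lit 663567) (nat_lit 4) (.e (nat_lit 65583) (nat_lit 7) (.e (nat_lit 319506) (nat_lit 10) (.e (nat_lit 5722) (nat_lit 312) (.e (nat_lit 317) (nat_lit 23) (.e (nat_lit 352285) (nat_lit 20) .nil))))))) (.g (nat_lit 4) .nil .nil))) 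
(.lf (nat_lit 87036) (.g (nat_lit 2301) (.e (nat_lit 1998) (nat_lit 137) (.e (nat_lit 663567) (nat_lit 4) (.e (nat_lit 65610) (nat_lit 10) (.e (nat_lit 344168) (nat_lit 40) (.e (nat_lit 671764) (nat_lit 6) (.e (nat_lit 81935) (nat_lit 20) .nil)))))) (.g (nat_lit 0) .nil .nil))))))) (.nd (nat_lit 2) (.nd (nat_lit 3) (.nd (nat_lit 4) (.nd (nat_lit 5) 
(.lf (nat_lit 86978) (.g (nat_lit 1959) (.e (nat_lit 1998) (nat_lit 137) (.e (nat_lit 663565) (nat_lit 3) (.e (nat_lit 57478) (nat_lit 28) (.e (nat_lit 557107) (nat_lit 15) (.e (nat_lit 188450) (nat_lit 23) (.e (nat_lit 204855) (nat_lit 26) (.e (nat_lit 335886) (nat_lit 0) .nil))))))) (.g (nat_lit 4) .nil .nil))) 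
(.lf (nat_lit 87010) (.g (nat_lit 1488) (.e (nat_lit 1998) (nat_lit 137) (.e (nat_lit 663567) (nat_lit 4) (.e (nat_lit 65584) (nat_lit 7) (.e (nat_lit 319506) (nat_lit 10) (.e (nat_lit 5721) (nat_lit 312) .nil))))) .nil))) (.nd (nat_lit 5) 
(.lf (nat_lit 86994) (.g (nat_lit 4015) (.e (nat_lit 1998) (nat_lit 137) (.e (nat_lit 663565) (nat_lit 3) (.e (nat_lit 57480) (nat_lit 28) (.e (nat_lit 557107) (nat_lit 15) (.e (nat_lit 188447) (nat_lit 22) (.e (nat_lit 196666) (nat_lit 13) (.e (nat_lit 65539) (nat_lit 0) .nil))))))) (.g (nat_lit 7) .nil .nil))) 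
(.lf (nat_lit 87026) (.g (nat_lit 1439) (.e (nat_lit 1998) (nat_lit 137) (.e (nat_lit 663567) (nat_lit 4) (.e (nat_lit 65604) (nat_lit 9) (.e (nat_lit 335907) (nat_lit 0) (.e (nat_lit 1994) (nat_lit 137) .nil))))) .nil)))) (.nd (nat_lit 4) (.nd (nat_lit 5) 
(.lf (nat_lit 86986) (.g (nat_lit 2020) (.e (nat_lit 1998) (nat_lit 137) (.e (nat_lit 663565) (nat_lit 3) (.e (nat_lit 57479) (nat_lit 28) (.e (nat_lit 557100) (nat_lit 13) (.e (nat_lit 172106) (nat_lit 10) (.e (nat_lit 434231) (nat_lit 23) (.e (nat_lit 532535) (nat_lit 9) (.e (nat_lit 335907) (nat_lit 0) .nil)))))))) (.g (nat_lit 4) .nil .nil))) 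
(.lf (nat_lit 87018) (.g (nat_lit 1429) (.e (nat_lit 1998) (nat_lit 137) (.e (nat_lit 663567) (nat_lit 4) (.e (nat_lit 65585) (nat_lit 7) (.e (nat_lit 319539) (nat_lit 19) (.e (nat_lit 311358) (nat_lit 29) (.e (nat_lit 352285) (nat_lit 20) .nil)))))) (.g (nat_lit 6) .nil .nil)))) (.nd (nat_lit 5) 
(.lf (nat_lit 87002) (.g (nat_lit 2312) (.e (nat_lit 1998) (nat_lit 137) (.e (nat_lit 663566) (nat_lit 4) (.e (nat_lit 65630) (nat_lit 14) (.e (nat_lit 401438) (nat_lit 9) (.e (nat_lit 426542) (nat_lit 29) (.e (nat_lit 352283) (nat_lit 20) .nil)))))) (.g (nat_lit 0) .nil .nil))) 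
(.lf (nat_lit 87034) (.g (nat_lit 2079) (.e (nat_lit 1998) (nat_lit 137) (.e (nat_lit 663567) (nat_lit 4) (.e (nat_lit 65610) (nat_lit 10) (.e (nat_lit 344168) (nat_lit 40) (.e (nat_lit 671764) (nat_lit 6) (.e (nat_lit 81931) (nat_lit 20) .nil)))))) (.g (nat_lit 0) .nil .nil)))))) (.nd (nat_lit 3) (.nd (nat_lit 4) (.nd (nat_lit 5) 
(.lf (nat_lit 86982) (.g (nat_lit 3568) (.e (nat_lit 1998) (nat_lit 137) (.e (nat_lit 663565) (nat_lit 3) (.e (nat_lit 57479) (nat_lit 28) (.e (nat_lit 557095) (nat_lit 13) (.e (nat_lit 172097) (nat_lit 9) (.e (nat_lit 426125) (nat_lit 2) (.e (nat_lit 196666) (nat_lit 13) (.e (nat_lit 65539) (nat_lit 0) .nil)))))))) (.g (nat_lit 5) .nil .nil))) 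
(.lf (nat_lit 87014) (.g (nat_lit 1643) (.e (nat_lit 1998) (nat_lit 137) (.e (nat_lit 663567) (nat_lit 4) (.e (nat_lit 65584) (nat_lit 7) (.e (nat_lit 319539) (nat_lit 19) (.e (nat_lit 311358) (nat_lit 29) (.e (nat_lit 352285) (nat_lit 20) .nil)))))) (.g (nat_lit 6) .nil .nil)))) (.nd (nat_lit 5) 
(.lf (nat_lit 86998) (.g (nat_lit 4356) (.e (nat_lit 1998) (nat_lit 137) (.e (nat_lit 663565) (nat_lit 3) (.e (nat_lit 57480) (nat_lit 28) (.e (nat_lit 557109) (nat_lit 15) (.e (nat_lit 188449) (nat_lit 22) (.e (nat_lit 196666) (nat_lit 13) (.e (nat_lit 65539) (nat_lit 0) .nil))))))) (.g (nat_lit 0) .nil .nil))) 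
(.lf (nat_lit 87030) (.g (nat_lit 417) (.e (nat_lit 1998) (nat_lit 137) (.e (nat_lit 663567) (nat_lit 4) (.e (nat_lit 65610) (nat_lit 10) .nil))) .nil)))) (.nd (nat_lit 4) (.nd (nat_lit 5) 
(.lf (nat_lit 86990) (.g (nat_lit 4787) (.e (nat_lit 1998) (nat_lit 137) (.e (nat_lit 663565) (nat_lit 3) (.e (nat_lit 57479) (nat_lit 28) (.e (nat_lit 557101) (nat_lit 13) (.e (nat_lit 172115) (nat_lit 10) (.e (nat_lit 434231) (nat_lit 23) (.e (nat_lit 532535) (nat_lit 9) (.e (nat_lit 335908) (nat_lit 0) .nil)))))))) (.g (nat_lit 0) .nil .nil))) 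
(.lf (nat_lit 87022) (.g (nat_lit 1856) (.e (nat_lit 1998) (nat_lit 137) (.e (nat_lit 663567) (nat_lit 4) (.e (nat_lit 65586) (nat_lit 7) (.e (nat_lit 319539) (nat_lit 19) (.e (nat_lit 311358) (nat_lit 29) (.e (nat_lit 352285) (nat_lit 20) .nil)))))) (.g (nat_lit 6) .nil .nil)))) (.nd (nat_lit 5) 
(.lf (nat_lit 87006) (.g (nat_lit 1797) (.e (nat_lit 1998) (nat_lit 137) (.e (nat_lit 663567) (nat_lit 4) (.e (nat_lit 65583) (nat_lit 7) (.e (nat_lit 319539) (nat_lit 19) (.e (nat_lit 311358) (nat_lit 29) (.e (nat_lit 352283) (nat_lit 20) .nil)))))) (.g (nat_lit 0) .nil .nil))) 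
(.lf (nat_lit 87038) (.g (nat_lit 1817) (.e (nat_lit 1998) (nat_lit 137) (.e (nat_lit 663567) (nat_lit 4) (.e (nat_lit 65610) (nat_lit 10) (.e (nat_lit 344169) (nat_lit 40) (.e (nat_lit 671764) (nat_lit 6) (.e (nat_lit 81933) (nat_lit 20) .nil)))))) (.g (nat_lit 6) .nil .nil)))))))) (.nd (nat_lit 1) (.nd (nat_lit 2) (.nd (nat_lit 3) (.nd (nat_lit 4) (.nd (nat_lit 5) 
(.lf (nat_lit 86977) (.g (nat_lit 3848) (.e (nat_lit 1998) (nat_lit 137) (.e (nat_lit 663565) (nat_lit 3) (.e (nat_lit 57478) (nat_lit 28) (.e (nat_lit 557107) (nat_lit 15) (.e (nat_lit 188447) (nat_lit 22) (.e (nat_lit 196666) (nat_lit 13) (.e (nat_lit 65539) (nat_lit 0) .nil))))))) (.g (nat_lit 0) .nil .nil))) 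
(.lf (nat_lit 87009) (.g (nat_lit 1214) (.e (nat_lit 1998) (nat_lit 137) (.e (nat_lit 663567) (nat_lit 4) (.e (nat_lit 65583) (nat_lit 7) (.e (nat_lit 319539) (nat_lit 19) (.e (nat_lit 319232) (nat_lit 29) .nil))))) .nil))) (.nd (nat_lit 5) 
(.lf (nat_lit 86993) (.g (nat_lit 4770) (.e (nat_lit 1998) (nat_lit 137) (.e (nat_lit 663565) (nat_lit 3) (.e (nat_lit 57480) (nat_lit 28) (.e (nat_lit 557098) (nat_lit 13) (.e (nat_lit 172115) (nat_lit 10) (.e (nat_lit 434231) (nat_lit 23) (.e (nat_lit 532535) (nat_lit 9) (.e (nat_lit 335908) (nat_lit 0) .nil)))))))) (.g (nat_lit 0) .nil .nil))) 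
(.lf (nat_lit 87025) (.g (nat_lit 1562) (.e (nat_lit 1998) (nat_lit 137) (.e (nat_lit 663567) (nat_lit 4) (.e (nat_lit 65598) (nat_lit 9) (.e (nat_lit 335997) (nat_lit 1) (.e (nat_lit 57871) (nat_lit 264) (.e (nat_lit 1221) (nat_lit 90) (.e (nat_lit 81931) (nat_lit 20) .nil))))))) (.g (nat_lit 4) .nil .nil))))) (.nd (nat_lit 4) (.nd (nat_lit 5) 
(.lf (nat_lit 86985) (.g (nat_lit 4525) (.e (nat_lit 1998) (nat_lit 137) (.e (nat_lit 663565) (nat_lit 3) (.e (nat_lit 57479) (nat_lit 28) (.e (nat_lit 557095) (nat_lit 13) (.e (nat_lit 172115) (nat_lit 10) (.e (nat_lit 434231) (nat_lit 23) (.e (nat_lit 532535) (nat_lit 9) (.e (nat_lit 335908) (nat_lit 0) .nil)))))))) (.g (nat_lit 7) .nil .nil))) 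
(.lf (nat_lit 87017) (.g (nat_lit 1593) (.e (nat_lit 1998) (nat_lit 137) (.e (nat_lit 663567) (nat_lit 4) (.e (nat_lit 65585) (nat_lit 7) (.e (nat_lit 319539) (nat_lit 19) (.e (nat_lit 311358) (nat_lit 29) (.e (nat_lit 352283) (nat_lit 20) .nil)))))) (.g (nat_lit 0) .nil .nil)))) (.nd (nat_lit 5) 
(.lf (nat_lit 87001) (.g (nat_lit 1794) (.e (nat_lit 1998) (nat_lit 137) (.e (nat_lit 663566) (nat_lit 4) (.e (nat_lit 65610) (nat_lit 10) (.e (nat_lit 344169) (nat_lit 40) (.e (nat_lit 671764) (nat_lit 6) (.e (nat_lit 81931) (nat_lit 20) .nil)))))) (.g (nat_lit 6) .nil .nil))) 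
(.lf (nat_lit 87033) (.g (nat_lit 1788) (.e (nat_lit 1998) (nat_lit 137) (.e (nat_lit 663567) (nat_lit 4) (.e (nat_lit 65610) (nat_lit 10) (.e (nat_lit 344097) (nat_lit 18) (.e (nat_lit 5907) (nat_lit 320) .nil))))) .nil))))) (.nd (nat_lit 3) (.nd (nat_lit 4) (.nd (nat_lit 5) 
(.lf (nat_lit 86981) (.g (nat_lit 4096) (.e (nat_lit 1998) (nat_lit 137) (.e (nat_lit 663565) (nat_lit 3) (.e (nat_lit 57478) (nat_lit 28) (.e (nat_lit 557109) (nat_lit 15) (.e (nat_lit 188449) (nat_lit 22) (.e (nat_lit 196666) (nat_lit 13) (.e (nat_lit 65543) (nat_lit 0) .nil))))))) (.g (nat_lit 0) .nil .nil))) 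
(.lf (nat_lit 87013) (.g (nat_lit 1803) (.e (nat_lit 1998) (nat_lit 137) (.e (nat_lit 663567) (nat_lit 4) (.e (nat_lit 65584) (nat_lit 7) (.e (nat_lit 319539) (nat_lit 19) (.e (nat_lit 311358) (nat_lit 29) (.e (nat_lit 352283) (nat_lit 20) .nil)))))) (.g (nat_lit 0) .nil .nil)))) (.nd (nat_lit 5) 
(.lf (nat_lit 86997) (.g (nat_lit 2911) (.e (nat_lit 1998) (nat_lit 137) (.e (nat_lit 663565) (nat_lit 3) (.e (nat_lit 57480) (nat_lit 28) (.e (nat_lit 557108) (nat_lit 15) (.e (nat_lit 188452) (nat_lit 23) (.e (nat_lit 204851) (nat_lit 26) (.e (nat_lit 335939) (nat_lit 0) .nil))))))) (.g (nat_lit 5) .nil .nil))) 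
(.lf (nat_lit 87029) (.g (nat_lit 1324) (.e (nat_lit 1998) (nat_lit 137) (.e (nat_lit 663567) (nat_lit 4) (.e (nat_lit 65609) (nat_lit 10) (.e (nat_lit 344169) (nat_lit 40) (.e (nat_lit 671764) (nat_lit 6) (.e (nat_lit 81935) (nat_lit 20) .nil)))))) (.g (nat_lit 4) .nil .nil))))) (.nd (nat_lit 4) (.nd (nat_lit 5) 
(.lf (nat_lit 86989) (.g (nat_lit 4815) (.e (nat_lit 1998) (nat_lit 137) (.e (nat_lit 663565) (nat_lit 3) (.e (nat_lit 57479) (nat_lit 28) (.e (nat_lit 557101) (nat_lit 13) (.e (nat_lit 172097) (nat_lit 9) (.e (nat_lit 426125) (nat_lit 2) (.e (nat_lit 196666) (nat_lit 13) (.e (nat_lit 65543) (nat_lit 0) .nil)))))))) (.g (nat_lit 0) .nil .nil))) 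
(.lf (nat_lit 87021) (.g (nat_lit 956) (.e (nat_lit 1998) (nat_lit 137) (.e (nat_lit 663567) (nat_lit 4) (.e (nat_lit 65586) (nat_lit 7) (.e (nat_lit 319539) (nat_lit 19) .nil)))) .nil))) (.nd (nat_lit 5) 
(.lf (nat_lit 87005) (.g (nat_lit 676) (.e (nat_lit 1998) (nat_lit 137) (.e (nat_lit 663567) (nat_lit 4) (.e (nat_lit 65583) (nat_lit 7) (.e (nat_lit 319539) (nat_lit 19) .nil)))) .nil)) 
(.lf (nat_lit 87037) (.g (nat_lit 2087) (.e (nat_lit 1998) (nat_lit 137) (.e (nat_lit 663567) (nat_lit 4) (.e (nat_lit 65610) (nat_lit 10) (.e (nat_lit 344169) (nat_lit 40) (.e (nat_lit 671764) (nat_lit 6) (.e (nat_lit 81931) (nat_lit 20) .nil)))))) (.g (nat_lit 0) .nil .nil))))))) (.nd (nat_lit 2) (.nd (nat_lit 3) (.nd (nat_lit 4) (.nd (nat_lit 5) 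
(.lf (nat_lit 86979) (.g (nat_lit 2558) (.e (nat_lit 1998) (nat_lit 137) (.e (nat_lit 663565) (nat_lit 3) (.e (nat_lit 57478) (nat_lit 28) (.e (nat_lit 557107) (nat_lit 15) (.e (nat_lit 188450) (nat_lit 23) (.e (nat_lit 204855) (nat_lit 26) (.e (nat_lit 335905) (nat_lit 0) .nil))))))) (.g (nat_lit 5) .nil .nil))) 
(.lf (nat_lit 87011) (.g (nat_lit 1511) (.e (nat_lit 1998) (nat_lit 137) (.e (nat_lit 663567) (nat_lit 4) (.e (nat_lit 65584) (nat_lit 7) (.e (nat_lit 319506) (nat_lit 10) (.e (nat_lit 5722) (nat_lit 312) .nil))))) .nil))) (.nd (nat_lit 5) 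
(.lf (nat_lit 86995) (.g (nat_lit 3952) (.e (nat_lit 1998) (nat_lit 137) (.e (nat_lit 663565) (nat_lit 3) (.e (nat_lit 57480) (nat_lit 28) (.e (nat_lit 557107) (nat_lit 15) (.e (nat_lit 188447) (nat_lit 22) (.e (nat_lit 196666) (nat_lit 13) (.e (nat_lit 65543) (nat_lit 0) .nil))))))) (.g (nat_lit 6) .nil .nil))) 
(.lf (nat_lit 87027) (.g (nat_lit 1458) (.e (nat_lit 1998) (nat_lit 137) (.e (nat_lit 663567) (nat_lit 4) (.e (nat_lit 65604) (nat_lit 9) (.e (nat_lit 335907) (nat_lit 0) (.e (nat_lit 1996) (nat_lit 137) .nil))))) .nil)))) (.nd (nat_lit 4) (.nd (nat_lit 5) 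
(.lf (nat_lit 86987) (.g (nat_lit 4905) (.e (nat_lit 1998) (nat_lit 137) (.e (nat_lit 663565) (nat_lit 3) (.e (nat_lit 57479) (nat_lit 28) (.e (nat_lit 557100) (nat_lit 13) (.e (nat_lit 172106) (nat_lit 10) (.e (nat_lit 434231) (nat_lit 23) (.e (nat_lit 532535) (nat_lit 9) (.e (nat_lit 335908) (nat_lit 0) .nil)))))))) (.g (nat_lit 7) .nil .nil))) 
(.lf (nat_lit 87019) (.g (nat_lit 1619) (.e (nat_lit 1998) (nat_lit 137) (.e (nat_lit 663567) (nat_lit 4) (.e (nat_lit 65585) (nat_lit 7) (.e (nat_lit 319539) (nat_lit 19) (.e (nat_lit 311358) (nat_lit 29) (.e (nat_lit 352287) (nat_lit 20) .nil)))))) (.g (nat_lit 0) .nil .nil)))) (.nd (nat_lit 5) 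
(.lf (nat_lit 87003) (.g (nat_lit 1033) (.e (nat_lit 1998) (nat_lit 137) (.e (nat_lit 663567) (nat_lit 4) (.e (nat_lit 65542) (nat_lit 0) (.e (nat_lit 6113) (nat_lit 332) (.e (nat_lit 1376) (nat_lit 104) (.e (nat_lit 303155) (nat_lit 29) (.e (nat_lit 352287) (nat_lit 20) .nil))))))) (.g (nat_lit 4) .nil .nil))) 
(.lf (nat_lit 87035) (.g (nat_lit 1771) (.e (nat_lit 1998) (nat_lit 137) (.e (nat_lit 663567) (nat_lit 4) (.e (nat_lit 65610) (nat_lit 10) (.e (nat_lit 344168) (nat_lit 40) (.e (nat_lit 671764) (nat_lit 6) (.e (nat_lit 81933) (nat_lit 20) .nil)))))) (.g (nat_lit 5) .nil .nil)))))) (.nd (nat_lit 3) (.nd (nat_lit 4) (.nd (nat_lit 5) 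
(.lf (nat_lit 86983) (.g (nat_lit 3600) (.e (nat_lit 1998) (nat_lit 137) (.e (nat_lit 663565) (nat_lit 3) (.e (nat_lit 57479) (nat_lit 28) (.e (nat_lit 557095) (nat_lit 13) (.e (nat_lit 172097) (nat_lit 9) (.e (nat_lit 426125) (nat_lit 2) (.e (nat_lit 196666) (nat_lit 13) (.e (nat_lit 65543) (nat_lit 0) .nil)))))))) (.g (nat_lit 5) .nil .nil))) 
(.lf (nat_lit 87015) (.g (nat_lit 1835) (.e (nat_lit 1998) (nat_lit 137) (.e (nat_lit 663567) (nat_lit 4) (.e (nat_lit 65584) (nat_lit 7) (.e (nat_lit 319539) (nat_lit 19) (.e (nat_lit 311358) (nat_lit 29) (.e (nat_lit 352287) (nat_lit 20) .nil)))))) (.g (nat_lit 0) .nil .nil)))) (.nd (nat_lit 5) 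
(.lf (nat_lit 86999) (.g (nat_lit 4286) (.e (nat_lit 1998) (nat_lit 137) (.e (nat_lit 663565) (nat_lit 3) (.e (nat_lit 57480) (nat_lit 28) (.e (nat_lit 557109) (nat_lit 15) (.e (nat_lit 188449) (nat_lit 22) (.e (nat_lit 196666) (nat_lit 13) (.e (nat_lit 65543) (nat_lit 0) .nil))))))) (.g (nat_lit 0) .nil .nil))) 
(.lf (nat_lit 87031) (.g (nat_lit 2456) (.e (nat_lit 1998) (nat_lit 137) (.e (nat_lit 663567) (nat_lit 4) (.e (nat_lit 65610) (nat_lit 10) (.e (nat_lit 344097) (nat_lit 18) (.e (nat_lit 5905) (nat_lit 320) (.e (nat_lit 1219) (nat_lit 90) (.e (nat_lit 81933) (nat_lit 20) .nil))))))) (.g (nat_lit 5) .nil .nil))))) (.nd (nat_lit 4) (.nd (nat_lit 5) 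
(.lf (nat_lit 86991) (.g (nat_lit 4671) (.e (nat_lit 1998) (nat_lit 137) (.e (nat_lit 663565) (nat_lit 3) (.e (nat_lit 57480) (nat_lit 28) (.e (nat_lit 557098) (nat_lit 13) (.e (nat_lit 172097) (nat_lit 9) (.e (nat_lit 426125) (nat_lit 2) (.e (nat_lit 196666) (nat_lit 13) (.e (nat_lit 65539) (nat_lit 0) .nil)))))))) (.g (nat_lit 0) .nil .nil))) 
(.lf (nat_lit 87023) (.g (nat_lit 1362) (.e (nat_lit 1998) (nat_lit 137) (.e (nat_lit 663567) (nat_lit 4) (.e (nat_lit 65586) (nat_lit 7) (.e (nat_lit 319539) (nat_lit 19) (.e (nat_lit 319232) (nat_lit 29) (.e (nat_lit 352285) (nat_lit 20) .nil)))))) (.g (nat_lit 4) .nil .nil)))) (.nd (nat_lit 5) 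
(.lf (nat_lit 87007) (.g (nat_lit 1637) (.e (nat_lit 1998) (nat_lit 137) (.e (nat_lit 663567) (nat_lit 4) (.e (nat_lit 65583) (nat_lit 7) (.e (nat_lit 319539) (nat_lit 19) (.e (nat_lit 311358) (nat_lit 29) (.e (nat_lit 352285) (nat_lit 20) .nil)))))) (.g (nat_lit 6) .nil .nil))) 
(.lf (nat_lit 87039) (.g (nat_lit 372) (.e (nat_lit 1998) (nat_lit 137) (.e (nat_lit 663567) (nat_lit 4) (.e (nat_lit 65611) (nat_lit 10) .nil))) .nil))))))))

noncomputable def tv1183 : DT := (.nd (nat_lit 0) (.nd (nat_lit 1) (.nd (nat_lit 2) (.nd (nat_lit 3) (.nd (nat_lit 4) (.nd (nat_lit 5) 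
(.lf (nat_lit 87040) (.g (nat_lit 1899) (.e (nat_lit 1998) (nat_lit 137) (.e (nat_lit 663567) (nat_lit 4) (.e (nat_lit 65611) (nat_lit 10) (.e (nat_lit 344168) (nat_lit 40) (.e (nat_lit 671764) (nat_lit 6) (.e (nat_lit 81931) (nat_lit 20) .nil)))))) (.g (nat_lit 0) .nil .nil))) 
(.lf (nat_lit 87072) (.g (nat_lit 1852) (.e (nat_lit 1998) (nat_lit 137) (.e (nat_lit 663567) (nat_lit 4) (.e (nat_lit 65622) (nat_lit 12) (.e (nat_lit 385093) (nat_lit 49) (.e (nat_lit 786176) (nat_lit 6) (.e (nat_lit 81933) (nat_lit 20) .nil)))))) (.g (nat_lit 4) .nil .nil)))) (.nd (nat_lit 5) 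
(.lf (nat_lit 87056) (.g (nat_lit 1747) (.e (nat_lit 1998) (nat_lit 137) (.e (nat_lit 663567) (nat_lit 4) (.e (nat_lit 65619) (nat_lit 10) (.e (nat_lit 344090) (nat_lit 18) (.e (nat_lit 5896) (nat_lit 320) (.e (nat_lit 7936) (nat_lit 90) (.e (nat_lit 81935) (nat_lit 20) .nil))))))) (.g (nat_lit 4) .nil .nil))) 
(.lf (nat_lit 87088) (.g (nat_lit 2465) (.e (nat_lit 1998) (nat_lit 137) (.e (nat_lit 663567) (nat_lit 4) (.e (nat_lit 65628) (nat_lit 14) (.e (nat_lit 401438) (nat_lit 9) (.e (nat_lit 426542) (nat_lit 29) (.e (nat_lit 352287) (nat_lit 20) .nil)))))) (.g (nat_lit 0) .nil .nil))))) (.nd (nat_lit 4) (.nd (nat_lit 5) 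
(.lf (nat_lit 87048) (.g (nat_lit 2043) (.e (nat_lit 1998) (nat_lit 137) (.e (nat_lit 663567) (nat_lit 4) (.e (nat_lit 65616) (nat_lit 10) (.e (nat_lit 344169) (nat_lit 40) (.e (nat_lit 671764) (nat_lit 6) (.e (nat_lit 81935) (nat_lit 20) .nil)))))) (.g (nat_lit 0) .nil .nil))) 
(.lf (nat_lit 87080) (.g (nat_lit 1534) (.e (nat_lit 1998) (nat_lit 137) (.e (nat_lit 663567) (nat_lit 4) (.e (nat_lit 65624) (nat_lit 12) (.e (nat_lit 385092) (nat_lit 49) (.e (nat_lit 786176) (nat_lit 6) (.e (nat_lit 81933) (nat_lit 20) .nil)))))) (.g (nat_lit 4) .nil .nil)))) (.nd (nat_lit 5) 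
(.lf (nat_lit 87064) (.g (nat_lit 1587) (.e (nat_lit 1998) (nat_lit 137) (.e (nat_lit 663567) (nat_lit 4) (.e (nat_lit 65620) (nat_lit 10) (.e (nat_lit 344169) (nat_lit 40) (.e (nat_lit 671764) (nat_lit 6) (.e (nat_lit 81933) (nat_lit 20) .nil)))))) (.g (nat_lit 5) .nil .nil))) 
(.lf (nat_lit 87096) (.g (nat_lit 199) (.e (nat_lit 1998) (nat_lit 137) (.e (nat_lit 663568) (nat_lit 5) (.e (nat_lit 73779) (nat_lit 32) .nil))) .nil))))) (.nd (nat_lit 3) (.nd (nat_lit 4) (.nd (nat_lit 5) 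
(.lf (nat_lit 87044) (.g (nat_lit 2170) (.e (nat_lit 1998) (nat_lit 137) (.e (nat_lit 663567) (nat_lit 4) (.e (nat_lit 65611) (nat_lit 10) (.e (nat_lit 344169) (nat_lit 40) (.e (nat_lit 671764) (nat_lit 6) (.e (nat_lit 81935) (nat_lit 20) .nil)))))) (.g (nat_lit 0) .nil .nil))) 
(.lf (nat_lit 87076) (.g (nat_lit 1648) (.e (nat_lit 1998) (nat_lit 137) (.e (nat_lit 663567) (nat_lit 4) (.e (nat_lit 65623) (nat_lit 12) (.e (nat_lit 385093) (nat_lit 49) (.e (nat_lit 778326) (nat_lit 6) (.e (nat_lit 81935) (nat_lit 20) .nil)))))) (.g (nat_lit 5) .nil .nil)))) (.nd (nat_lit 5) 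
(.lf (nat_lit 87060) (.g (nat_lit 2182) (.e (nat_lit 1998) (nat_lit 137) (.e (nat_lit 663567) (nat_lit 4) (.e (nat_lit 65619) (nat_lit 10) (.e (nat_lit 344169) (nat_lit 40) (.e (nat_lit 671764) (nat_lit 6) (.e (nat_lit 81931) (nat_lit 20) .nil)))))) (.g (nat_lit 0) .nil .nil))) 
(.lf (nat_lit 87092) (.g (nat_lit 2794) (.e (nat_lit 1998) (nat_lit 137) (.e (nat_lit 663567) (nat_lit 4) (.e (nat_lit 65630) (nat_lit 14) (.e (nat_lit 401437) (nat_lit 9) (.e (nat_lit 426542) (nat_lit 29) (.e (nat_lit 352283) (nat_lit 20) .nil)))))) (.g (nat_lit 0) .nil .nil))))) (.nd (nat_lit 4) (.nd (nat_lit 5) 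
(.lf (nat_lit 87052) (.g (nat_lit 2033) (.e (nat_lit 1998) (nat_lit 137) (.e (nat_lit 663567) (nat_lit 4) (.e (nat_lit 65617) (nat_lit 10) (.e (nat_lit 344168) (nat_lit 40) (.e (nat_lit 671764) (nat_lit 6) (.e (nat_lit 81933) (nat_lit 20) .nil)))))) (.g (nat_lit 5) .nil .nil))) 
(.lf (nat_lit 87084) (.g (nat_lit 1831) (.e (nat_lit 1998) (nat_lit 137) (.e (nat_lit 663567) (nat_lit 4) (.e (nat_lit 65628) (nat_lit 14) (.e (nat_lit 401437) (nat_lit 9) (.e (nat_lit 426538) (nat_lit 29) .nil))))) .nil))) (.nd (nat_lit 5) 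
(.lf (nat_lit 87068) (.g (nat_lit 1319) (.e (nat_lit 1998) (nat_lit 137) (.e (nat_lit 663567) (nat_lit 4) (.e (nat_lit 65622) (nat_lit 12) (.e (nat_lit 385092) (nat_lit 49) (.e (nat_lit 786176) (nat_lit 6) .nil))))) .nil)) 
(.lf (nat_lit 87100) (.g (nat_lit 1003) (.e (nat_lit 1998) (nat_lit 137) (.e (nat_lit 663568) (nat_lit 5) (.e (nat_lit 73782) (nat_lit 32) (.e (nat_lit 2936) (nat_lit 184) (.e (nat_lit 426541) (nat_lit 29) .nil))))) .nil)))))) (.nd (nat_lit 2) (.nd (nat_lit 3) (.nd (nat_lit 4) (.nd (nat_lit 5) 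
(.lf (nat_lit 87042) (.g (nat_lit 2127) (.e (nat_lit 1998) (nat_lit 137) (.e (nat_lit 663567) (nat_lit 4) (.e (nat_lit 65611) (nat_lit 10) (.e (nat_lit 344168) (nat_lit 40) (.e (nat_lit 671764) (nat_lit 6) (.e (nat_lit 81935) (nat_lit 20) .nil)))))) (.g (nat_lit 0) .nil .nil))) 
(.lf (nat_lit 87074) (.g (nat_lit 1995) (.e (nat_lit 1998) (nat_lit 137) (.e (nat_lit 663567) (nat_lit 4) (.e (nat_lit 65622) (nat_lit 12) (.e (nat_lit 385094) (nat_lit 49) (.e (nat_lit 778326) (nat_lit 6) (.e (nat_lit 81931) (nat_lit 20) .nil)))))) (.g (nat_lit 0) .nil .nil)))) (.nd (nat_lit 5) 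
(.lf (nat_lit 87058) (.g (nat_lit 2230) (.e (nat_lit 1998) (nat_lit 137) (.e (nat_lit 663567) (nat_lit 4) (.e (nat_lit 65619) (nat_lit 10) (.e (nat_lit 344168) (nat_lit 40) (.e (nat_lit 671764) (nat_lit 6) (.e (nat_lit 81931) (nat_lit 20) .nil)))))) (.g (nat_lit 0) .nil .nil))) 
(.lf (nat_lit 87090) (.g (nat_lit 2312) (.e (nat_lit 1998) (nat_lit 137) (.e (nat_lit 663567) (nat_lit 4) (.e (nat_lit 65630) (nat_lit 14) (.e (nat_lit 401436) (nat_lit 9) (.e (nat_lit 426542) (nat_lit 29) (.e (nat_lit 352283) (nat_lit 20) .nil)))))) (.g (nat_lit 0) .nil .nil))))) (.nd (nat_lit 4) (.nd (nat_lit 5) 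
(.lf (nat_lit 87050) (.g (nat_lit 2004) (.e (nat_lit 1998) (nat_lit 137) (.e (nat_lit 663567) (nat_lit 4) (.e (nat_lit 65617) (nat_lit 10) (.e (nat_lit 344091) (nat_lit 18) (.e (nat_lit 5896) (nat_lit 320) (.e (nat_lit 7936) (nat_lit 90) (.e (nat_lit 81935) (nat_lit 20) .nil))))))) (.g (nat_lit 4) .nil .nil))) 
(.lf (nat_lit 87082) (.g (nat_lit 1816) (.e (nat_lit 1998) (nat_lit 137) (.e (nat_lit 663567) (nat_lit 4) (.e (nat_lit 65624) (nat_lit 12) (.e (nat_lit 385093) (nat_lit 49) (.e (nat_lit 786176) (nat_lit 6) .nil))))) .nil))) (.nd (nat_lit 5) 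
(.lf (nat_lit 87066) (.g (nat_lit 1310) (.e (nat_lit 1998) (nat_lit 137) (.e (nat_lit 663567) (nat_lit 4) (.e (nat_lit 65622) (nat_lit 12) (.e (nat_lit 385092) (nat_lit 49) (.e (nat_lit 778326) (nat_lit 6) .nil))))) .nil)) 
(.lf (nat_lit 87098) (.g (nat_lit 1989) (.e (nat_lit 1998) (nat_lit 137) (.e (nat_lit 663568) (nat_lit 5) (.e (nat_lit 73781) (nat_lit 32) (.e (nat_lit 2857) (nat_lit 184) (.e (nat_lit 426542) (nat_lit 29) (.e (nat_lit 352287) (nat_lit 20) .nil)))))) (.g (nat_lit 6) .nil .nil)))))) (.nd (nat_lit 3) (.nd (nat_lit 4) (.nd (nat_lit 5) 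
(.lf (nat_lit 87046) (.g (nat_lit 1993) (.e (nat_lit 1998) (nat_lit 137) (.e (nat_lit 663567) (nat_lit 4) (.e (nat_lit 65616) (nat_lit 10) (.e (nat_lit 344168) (nat_lit 40) (.e (nat_lit 671764) (nat_lit 6) (.e (nat_lit 81935) (nat_lit 20) .nil)))))) (.g (nat_lit 6) .nil .nil))) 
(.lf (nat_lit 87078) (.g (nat_lit 2223) (.e (nat_lit 1998) (nat_lit 137) (.e (nat_lit 663567) (nat_lit 4) (.e (nat_lit 65623) (nat_lit 12) (.e (nat_lit 385094) (nat_lit 49) (.e (nat_lit 778326) (nat_lit 6) (.e (nat_lit 81935) (nat_lit 20) .nil)))))) (.g (nat_lit 0) .nil .nil)))) (.nd (nat_lit 5) 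
(.lf (nat_lit 87062) (.g (nat_lit 2037) (.e (nat_lit 1998) (nat_lit 137) (.e (nat_lit 663567) (nat_lit 4) (.e (nat_lit 65620) (nat_lit 10) (.e (nat_lit 344168) (nat_lit 40) (.e (nat_lit 671764) (nat_lit 6) (.e (nat_lit 81935) (nat_lit 20) .nil)))))) (.g (nat_lit 6) .nil .nil))) 
(.lf (nat_lit 87094) (.g (nat_lit 2498) (.e (nat_lit 1998) (nat_lit 137) (.e (nat_lit 663567) (nat_lit 4) (.e (nat_lit 65630) (nat_lit 14) (.e (nat_lit 401438) (nat_lit 9) (.e (nat_lit 426542) (nat_lit 29) (.e (nat_lit 352283) (nat_lit 20) .nil)))))) (.g (nat_lit 6) .nil .nil))))) (.nd (nat_lit 4) (.nd (nat_lit 5) 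
(.lf (nat_lit 87054) (.g (nat_lit 1986) (.e (nat_lit 1998) (nat_lit 137) (.e (nat_lit 663567) (nat_lit 4) (.e (nat_lit 65617) (nat_lit 10) (.e (nat_lit 344169) (nat_lit 40) (.e (nat_lit 671764) (nat_lit 6) (.e (nat_lit 81933) (nat_lit 20) .nil)))))) (.g (nat_lit 5) .nil .nil))) 
(.lf (nat_lit 87086) (.g (nat_lit 2711) (.e (nat_lit 1998) (nat_lit 137) (.e (nat_lit 663567) (nat_lit 4) (.e (nat_lit 65628) (nat_lit 14) (.e (nat_lit 401437) (nat_lit 9) (.e (nat_lit 426542) (nat_lit 29) (.e (nat_lit 352287) (nat_lit 20) .nil)))))) (.g (nat_lit 0) .nil .nil)))) (.nd (nat_lit 5) 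
(.lf (nat_lit 87070) (.g (nat_lit 2312) (.e (nat_lit 1998) (nat_lit 137) (.e (nat_lit 663567) (nat_lit 4) (.e (nat_lit 65622) (nat_lit 12) (.e (nat_lit 385093) (nat_lit 49) (.e (nat_lit 778326) (nat_lit 6) (.e (nat_lit 81935) (nat_lit 20) .nil)))))) (.g (nat_lit 0) .nil .nil))) 
(.lf (nat_lit 87102) (.g (nat_lit 602) (.e (nat_lit 1998) (nat_lit 137) (.e (nat_lit 663568) (nat_lit 5) (.e (nat_lit 73786) (nat_lit 45) (.e (nat_lit 1376) (nat_lit 104) (.e (nat_lit 303155) (nat_lit 29) .nil))))) .nil))))))) (.nd (nat_lit 1) (.nd (nat_lit 2) (.nd (nat_lit 3) (.nd (nat_lit 4) (.nd (nat_lit 5) 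
(.lf (nat_lit 87041) (.g (nat_lit 1641) (.e (nat_lit 1998) (nat_lit 137) (.e (nat_lit 663567) (nat_lit 4) (.e (nat_lit 65611) (nat_lit 10) (.e (nat_lit 344168) (nat_lit 40) (.e (nat_lit 671764) (nat_lit 6) (.e (nat_lit 81933) (nat_lit 20) .nil)))))) (.g (nat_lit 5) .nil .nil))) 
(.lf (nat_lit 87073) (.g (nat_lit 833) (.e (nat_lit 1998) (nat_lit 137) (.e (nat_lit 663567) (nat_lit 4) (.e (nat_lit 65622) (nat_lit 12) (.e (nat_lit 385094) (nat_lit 49) .nil)))) .nil))) (.nd (nat_lit 5) 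
(.lf (nat_lit 87057) (.g (nat_lit 1707) (.e (nat_lit 1998) (nat_lit 137) (.e (nat_lit 663567) (nat_lit 4) (.e (nat_lit 65619) (nat_lit 10) (.e (nat_lit 344097) (nat_lit 18) (.e (nat_lit 5906) (nat_lit 320) (.e (nat_lit 7936) (nat_lit 90) (.e (nat_lit 81935) (nat_lit 20) .nil))))))) (.g (nat_lit 4) .nil .nil))) 
(.lf (nat_lit 87089) (.g (nat_lit 1750) (.e (nat_lit 1998) (nat_lit 137) (.e (nat_lit 663567) (nat_lit 4) (.e (nat_lit 65628) (nat_lit 14) (.e (nat_lit 401444) (nat_lit 9) (.e (nat_lit 426541) (nat_lit 29) .nil))))) .nil)))) (.nd (nat_lit 4) (.nd (nat_lit 5) 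
(.lf (nat_lit 87049) (.g (nat_lit 1884) (.e (nat_lit 1998) (nat_lit 137) (.e (nat_lit 663567) (nat_lit 4) (.e (nat_lit 65617) (nat_lit 10) (.e (nat_lit 344091) (nat_lit 18) (.e (nat_lit 5896) (nat_lit 320) .nil))))) .nil)) 
(.lf (nat_lit 87081) (.g (nat_lit 2282) (.e (nat_lit 1998) (nat_lit 137) (.e (nat_lit 663567) (nat_lit 4) (.e (nat_lit 65624) (nat_lit 12) (.e (nat_lit 385093) (nat_lit 49) (.e (nat_lit 778326) (nat_lit 6) (.e (nat_lit 81935) (nat_lit 20) .nil)))))) (.g (nat_lit 0) .nil .nil)))) (.nd (nat_lit 5) 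
(.lf (nat_lit 87065) (.g (nat_lit 2066) (.e (nat_lit 1998) (nat_lit 137) (.e (nat_lit 663567) (nat_lit 4) (.e (nat_lit 65620) (nat_lit 10) (.e (nat_lit 344169) (nat_lit 40) (.e (nat_lit 671764) (nat_lit 6) (.e (nat_lit 81935) (nat_lit 20) .nil)))))) (.g (nat_lit 0) .nil .nil))) 
(.lf (nat_lit 87097) (.g (nat_lit 2534) (.e (nat_lit 1998) (nat_lit 137) (.e (nat_lit 663568) (nat_lit 5) (.e (nat_lit 73781) (nat_lit 32) (.e (nat_lit 2856) (nat_lit 184) (.e (nat_lit 426542) (nat_lit 29) (.e (nat_lit 352287) (nat_lit 20) .nil)))))) (.g (nat_lit 6) .nil .nil)))))) (.nd (nat_lit 3) (.nd (nat_lit 4) (.nd (nat_lit 5) 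
(.lf (nat_lit 87045) (.g (nat_lit 1774) (.e (nat_lit 1998) (nat_lit 137) (.e (nat_lit 663567) (nat_lit 4) (.e (nat_lit 65616) (nat_lit 10) (.e (nat_lit 344168) (nat_lit 40) (.e (nat_lit 671764) (nat_lit 6) (.e (nat_lit 81931) (nat_lit 20) .nil)))))) (.g (nat_lit 6) .nil .nil))) 
(.lf (nat_lit 87077) (.g (nat_lit 1417) (.e (nat_lit 1998) (nat_lit 137) (.e (nat_lit 663567) (nat_lit 4) (.e (nat_lit 65623) (nat_lit 12) (.e (nat_lit 385093) (nat_lit 49) (.e (nat_lit 786176) (nat_lit 6) .nil))))) .nil))) (.nd (nat_lit 5) 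
(.lf (nat_lit 87061) (.g (nat_lit 2375) (.e (nat_lit 1998) (nat_lit 137) (.e (nat_lit 663567) (nat_lit 4) (.e (nat_lit 65619) (nat_lit 10) (.e (nat_lit 344169) (nat_lit 40) (.e (nat_lit 671764) (nat_lit 6) (.e (nat_lit 81935) (nat_lit 20) .nil)))))) (.g (nat_lit 0) .nil .nil))) 
(.lf (nat_lit 87093) (.g (nat_lit 2879) (.e (nat_lit 1998) (nat_lit 137) (.e (nat_lit 663567) (nat_lit 4) (.e (nat_lit 65630) (nat_lit 14) (.e (nat_lit 401437) (nat_lit 9) (.e (nat_lit 426542) (nat_lit 29) (.e (nat_lit 352287) (nat_lit 20) .nil)))))) (.g (nat_lit 0) .nil .nil))))) (.nd (nat_lit 4) (.nd (nat_lit 5) 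
(.lf (nat_lit 87053) (.g (nat_lit 2245) (.e (nat_lit 1998) (nat_lit 137) (.e (nat_lit 663567) (nat_lit 4) (.e (nat_lit 65617) (nat_lit 10) (.e (nat_lit 344169) (nat_lit 40) (.e (nat_lit 671764) (nat_lit 6) (.e (nat_lit 81931) (nat_lit 20) .nil)))))) (.g (nat_lit 0) .nil .nil))) 
(.lf (nat_lit 87085) (.g (nat_lit 2632) (.e (nat_lit 1998) (nat_lit 137) (.e (nat_lit 663567) (nat_lit 4) (.e (nat_lit 65628) (nat_lit 14) (.e (nat_lit 401437) (nat_lit 9) (.e (nat_lit 426542) (nat_lit 29) (.e (nat_lit 352283) (nat_lit 20) .nil)))))) (.g (nat_lit 0) .nil .nil)))) (.nd (nat_lit 5) 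
(.lf (nat_lit 87069) (.g (nat_lit 2117) (.e (nat_lit 1998) (nat_lit 137) (.e (nat_lit 663567) (nat_lit 4) (.e (nat_lit 65622) (nat_lit 12) (.e (nat_lit 385093) (nat_lit 49) (.e (nat_lit 778326) (nat_lit 6) (.e (nat_lit 81931) (nat_lit 20) .nil)))))) (.g (nat_lit 0) .nil .nil))) 
(.lf (nat_lit 87101) (.g (nat_lit 1041) (.e (nat_lit 1998) (nat_lit 137) (.e (nat_lit 663568) (nat_lit 5) (.e (nat_lit 73786) (nat_lit 45) (.e (nat_lit 1374) (nat_lit 104) (.e (nat_lit 303155) (nat_lit 29) .nil))))) .nil)))))) (.nd (nat_lit 2) (.nd (nat_lit 3) (.nd (nat_lit 4) (.nd (nat_lit 5) 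
(.lf (nat_lit 87043) (.g (nat_lit 1924) (.e (nat_lit 1998) (nat_lit 137) (.e (nat_lit 663567) (nat_lit 4) (.e (nat_lit 65611) (nat_lit 10) (.e (nat_lit 344169) (nat_lit 40) (.e (nat_lit 671764) (nat_lit 6) (.e (nat_lit 81931) (nat_lit 20) .nil)))))) (.g (nat_lit 0) .nil .nil))) 
(.lf (nat_lit 87075) (.g (nat_lit 1439) (.e (nat_lit 1998) (nat_lit 137) (.e (nat_lit 663567) (nat_lit 4) (.e (nat_lit 65623) (nat_lit 12) (.e (nat_lit 385093) (nat_lit 49) (.e (nat_lit 778326) (nat_lit 6) (.e (nat_lit 81931) (nat_lit 20) .nil)))))) (.g (nat_lit 4) .nil .nil)))) (.nd (nat_lit 5) 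
(.lf (nat_lit 87059) (.g (nat_lit 1960) (.e (nat_lit 1998) (nat_lit 137) (.e (nat_lit 663567) (nat_lit 4) (.e (nat_lit 65619) (nat_lit 10) (.e (nat_lit 344168) (nat_lit 40) (.e (nat_lit 671764) (nat_lit 6) (.e (nat_lit 81933) (nat_lit 20) .nil)))))) (.g (nat_lit 5) .nil .nil))) 
(.lf (nat_lit 87091) (.g (nat_lit 2431) (.e (nat_lit 1998) (nat_lit 137) (.e (nat_lit 663567) (nat_lit 4) (.e (nat_lit 65630) (nat_lit 14) (.e (nat_lit 401436) (nat_lit 9) (.e (nat_lit 426542) (nat_lit 29) (.e (nat_lit 352287) (nat_lit 20) .nil)))))) (.g (nat_lit 0) .nil .nil))))) (.nd (nat_lit 4) (.nd (nat_lit 5) 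
(.lf (nat_lit 87051) (.g (nat_lit 2288) (.e (nat_lit 1998) (nat_lit 137) (.e (nat_lit 663567) (nat_lit 4) (.e (nat_lit 65617) (nat_lit 10) (.e (nat_lit 344168) (nat_lit 40) (.e (nat_lit 671764) (nat_lit 6) (.e (nat_lit 81931) (nat_lit 20) .nil)))))) (.g (nat_lit 6) .nil .nil))) 
(.lf (nat_lit 87083) (.g (nat_lit 2058) (.e (nat_lit 1998) (nat_lit 137) (.e (nat_lit 663567) (nat_lit 4) (.e (nat_lit 65628) (nat_lit 14) (.e (nat_lit 401436) (nat_lit 9) (.e (nat_lit 426542) (nat_lit 29) (.e (nat_lit 352287) (nat_lit 20) .nil)))))) (.g (nat_lit 0) .nil .nil)))) (.nd (nat_lit 5) 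
(.lf (nat_lit 87067) (.g (nat_lit 1360) (.e (nat_lit 1998) (nat_lit 137) (.e (nat_lit 663567) (nat_lit 4) (.e (nat_lit 65622) (nat_lit 12) (.e (nat_lit 385092) (nat_lit 49) (.e (nat_lit 778326) (nat_lit 6) (.e (nat_lit 81935) (nat_lit 20) .nil)))))) (.g (nat_lit 4) .nil .nil))) 
(.lf (nat_lit 87099) (.g (nat_lit 677) (.e (nat_lit 1998) (nat_lit 137) (.e (nat_lit 663568) (nat_lit 5) (.e (nat_lit 73782) (nat_lit 32) (.e (nat_lit 2854) (nat_lit 184) .nil)))) .nil))))) (.nd (nat_lit 3) (.nd (nat_lit 4) (.nd (nat_lit 5) 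
(.lf (nat_lit 87047) (.g (nat_lit 1808) (.e (nat_lit 1998) (nat_lit 137) (.e (nat_lit 663567) (nat_lit 4) (.e (nat_lit 65616) (nat_lit 10) (.e (nat_lit 344169) (nat_lit 40) (.e (nat_lit 671764) (nat_lit 6) (.e (nat_lit 81931) (nat_lit 20) .nil)))))) (.g (nat_lit 0) .nil .nil))) 
(.lf (nat_lit 87079) (.g (nat_lit 1847) (.e (nat_lit 1998) (nat_lit 137) (.e (nat_lit 663567) (nat_lit 4) (.e (nat_lit 65624) (nat_lit 12) (.e (nat_lit 385092) (nat_lit 49) (.e (nat_lit 778326) (nat_lit 6) (.e (nat_lit 81931) (nat_lit 20) .nil)))))) (.g (nat_lit 6) .nil .nil)))) (.nd (nat_lit 5) 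
(.lf (nat_lit 87063) (.g (nat_lit 1845) (.e (nat_lit 1998) (nat_lit 137) (.e (nat_lit 663567) (nat_lit 4) (.e (nat_lit 65620) (nat_lit 10) (.e (nat_lit 344169) (nat_lit 40) (.e (nat_lit 671764) (nat_lit 6) (.e (nat_lit 81931) (nat_lit 20) .nil)))))) (.g (nat_lit 0) .nil .nil))) 
(.lf (nat_lit 87095) (.g (nat_lit 2535) (.e (nat_lit 1998) (nat_lit 137) (.e (nat_lit 663567) (nat_lit 4) (.e (nat_lit 65630) (nat_lit 14) (.e (nat_lit 401438) (nat_lit 9) (.e (nat_lit 426542) (nat_lit 29) (.e (nat_lit 352287) (nat_lit 20) .nil)))))) (.g (nat_lit 6) .nil .nil))))) (.nd (nat_lit 4) (.nd (nat_lit 5) 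
(.lf (nat_lit 87055) (.g (nat_lit 2481) (.e (nat_lit 1998) (nat_lit 137) (.e (nat_lit 663567) (nat_lit 4) (.e (nat_lit 65617) (nat_lit 10) (.e (nat_lit 344169) (nat_lit 40) (.e (nat_lit 671764) (nat_lit 6) (.e (nat_lit 81935) (nat_lit 20) .nil)))))) (.g (nat_lit 0) .nil .nil))) 
(.lf (nat_lit 87087) (.g (nat_lit 2458) (.e (nat_lit 1998) (nat_lit 137) (.e (nat_lit 663567) (nat_lit 4) (.e (nat_lit 65628) (nat_lit 14) (.e (nat_lit 401438) (nat_lit 9) (.e (nat_lit 426542) (nat_lit 29) (.e (nat_lit 352283) (nat_lit 20) .nil)))))) (.g (nat_lit 6) .nil .nil)))) (.nd (nat_lit 5) 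
(.lf (nat_lit 87071) (.g (nat_lit 1756) (.e (nat_lit 1998) (nat_lit 137) (.e (nat_lit 663567) (nat_lit 4) (.e (nat_lit 65622) (nat_lit 12) (.e (nat_lit 385093) (nat_lit 49) (.e (nat_lit 786176) (nat_lit 6) .nil))))) .nil)) 
(.lf (nat_lit 87103) (.g (nat_lit 173) (.e (nat_lit 1998) (nat_lit 137) (.e (nat_lit 663568) (nat_lit 5) (.e (nat_lit 73788) (nat_lit 45) .nil))) .nil))))))))

noncomputable def tv1184 : DT := (.nd (nat_lit 0) (.nd (nat_lit 1) (.nd (nat_lit 2) (.nd (nat_lit 3) (.nd (nat_lit 4) (.nd (nat_lit 5) 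
(.lf (nat_lit 87104) (.g (nat_lit 175) (.e (nat_lit 1998) (nat_lit 137) (.e (nat_lit 663568) (nat_lit 5) (.e (nat_lit 73791) (nat_lit 45) .nil))) .nil)) 
(.lf (nat_lit 87136) (.g (nat_lit 1972) (.e (nat_lit 1998) (nat_lit 137) (.e (nat_lit 663569) (nat_lit 6) (.e (nat_lit 81948) (nat_lit 21) (.e (nat_lit 57870) (nat_lit 264) (.e (nat_lit 1221) (nat_lit 90) (.e (nat_lit 81931) (nat_lit 20) .nil)))))) (.g (nat_lit 6) .nil .nil)))) (.nd (nat_lit 5) 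
(.lf (nat_lit 87120) (.g (nat_lit 566) (.e (nat_lit 1998) (nat_lit 137) (.e (nat_lit 663569) (nat_lit 6) (.e (nat_lit 81928) (nat_lit 20) .nil))) .nil)) 
(.lf (nat_lit 87152) (.g (nat_lit 4356) (.e (nat_lit 1999) (nat_lit 137) (.e (nat_lit 663565) (nat_lit 3) (.e (nat_lit 57478) (nat_lit 28) (.e (nat_lit 557098) (nat_lit 13) (.e (nat_lit 172097) (nat_lit 9) (.e (nat_lit 426125) (nat_lit 2) (.e (nat_lit 196666) (nat_lit 13) (.e (nat_lit 65539) (nat_lit 0) .nil)))))))) (.g (nat_lit 8) .nil .nil))))) (.nd (nat_lit 4) (.nd (nat_lit 5) 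
(.lf (nat_lit 87112) (.g (nat_lit 1705) (.e (nat_lit 1998) (nat_lit 137) (.e (nat_lit 663569) (nat_lit 6) (.e (nat_lit 81922) (nat_lit 0) (.e (nat_lit 3632) (nat_lit 227) (.e (nat_lit 778326) (nat_lit 6) (.e (nat_lit 81931) (nat_lit 20) .nil)))))) (.g (nat_lit 0) .nil .nil))) 
(.lf (nat_lit 87144) (.g (nat_lit 2529) (.e (nat_lit 1998) (nat_lit 137) (.e (nat_lit 663569) (nat_lit 6) (.e (nat_lit 81959) (nat_lit 24) (.e (nat_lit 123182) (nat_lit 264) (.e (nat_lit 7936) (nat_lit 90) .nil))))) .nil))) (.nd (nat_lit 5) 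
(.lf (nat_lit 87128) (.g (nat_lit 1701) (.e (nat_lit 1998) (nat_lit 137) (.e (nat_lit 663569) (nat_lit 6) (.e (nat_lit 81946) (nat_lit 20) (.e (nat_lit 2005) (nat_lit 138) (.e (nat_lit 671764) (nat_lit 6) (.e (nat_lit 81931) (nat_lit 20) .nil)))))) (.g (nat_lit 0) .nil .nil))) 
(.lf (nat_lit 87160) (.g (nat_lit 2614) (.e (nat_lit 1999) (nat_lit 137) (.e (nat_lit 663565) (nat_lit 3) (.e (nat_lit 57478) (nat_lit 28) (.e (nat_lit 557101) (nat_lit 13) (.e (nat_lit 172097) (nat_lit 9) (.e (nat_lit 426140) (nat_lit 3) (.e (nat_lit 204855) (nat_lit 26) (.e (nat_lit 335886) (nat_lit 0) .nil)))))))) (.g (nat_lit 5) .nil .nil)))))) 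
(.nd (nat_lit 3) (.nd (nat_lit 4) (.nd (nat_lit 5) 
(.lf (nat_lit 87108) (.g (nat_lit 357) (.e (nat_lit 1998) (nat_lit 137) (.e (nat_lit 663569) (nat_lit 6) (.e (nat_lit 81922) (nat_lit 0) .nil))) .nil)) 
(.lf (nat_lit 87140) (.g (nat_lit 2589) (.e (nat_lit 1998) (nat_lit 137) (.e (nat_lit 663569) (nat_lit 6) (.e (nat_lit 81950) (nat_lit 21) (.e (nat_lit 57872) (nat_lit 264) (.e (nat_lit 1221) (nat_lit 90) (.e (nat_lit 81931) (nat_lit 20) .nil)))))) (.g (nat_lit 5) .nil .nil)))) (.nd (nat_lit 5) 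
(.lf (nat_lit 87124) (.g (nat_lit 1087) (.e (nat_lit 1998) (nat_lit 137) (.e (nat_lit 663569) (nat_lit 6) (.e (nat_lit 81939) (nat_lit 20) (.e (nat_lit 2005) (nat_lit 138) (.e (nat_lit 671764) (nat_lit 6) (.e (nat_lit 81933) (nat_lit 20) .nil)))))) (.g (nat_lit 0) .nil .nil))) 
(.lf (nat_lit 87156) (.g (nat_lit 3898) (.e (nat_lit 1999) (nat_lit 137) (.e (nat_lit 663565) (nat_lit 3) (.e (nat_lit 57478) (nat_lit 28) (.e (nat_lit 557098) (nat_lit 13) (.e (nat_lit 172097) (nat_lit 9) (.e (nat_lit 426140) (nat_lit 3) (.e (nat_lit 204855) (nat_lit 26) (.e (nat_lit 335908) (nat_lit 0) .nil)))))))) (.g (nat_lit 7) .nil .nil))))) (.nd (nat_lit 4) (.nd (nat_lit 5) 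
(.lf (nat_lit 87116) (.g (nat_lit 1085) (.e (nat_lit 1998) (nat_lit 137) (.e (nat_lit 663569) (nat_lit 6) (.e (nat_lit 81924) (nat_lit 0) (.e (nat_lit 3630) (nat_lit 227) (.e (nat_lit 778326) (nat_lit 6) (.e (nat_lit 81931) (nat_lit 20) .nil)))))) (.g (nat_lit 6) .nil .nil))) 
(.lf (nat_lit 87148) (.g (nat_lit 2576) (.e (nat_lit 1999) (nat_lit 137) (.e (nat_lit 663564) (nat_lit 3) (.e (nat_lit 57479) (nat_lit 28) (.e (nat_lit 557095) (nat_lit 13) (.e (nat_lit 172115) (nat_lit 10) (.e (nat_lit 434231) (nat_lit 23) (.e (nat_lit 532535) (nat_lit 9) (.e (nat_lit 335908) (nat_lit 0) .nil)))))))) (.g (nat_lit 4) .nil .nil)))) (.nd (nat_lit 5) 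
(.lf (nat_lit 87132) (.g (nat_lit 1404) (.e (nat_lit 1998) (nat_lit 137) (.e (nat_lit 663569) (nat_lit 6) (.e (nat_lit 81946) (nat_lit 20) (.e (nat_lit 2006) (nat_lit 138) (.e (nat_lit 671764) (nat_lit 6) (.e (nat_lit 81933) (nat_lit 20) .nil)))))) (.g (nat_lit 5) .nil .nil))) 
(.lf (nat_lit 87164) (.g (nat_lit 4192) (.e (nat_lit 1999) (nat_lit 137) (.e (nat_lit 663565) (nat_lit 3) (.e (nat_lit 57478) (nat_lit 28) (.e (nat_lit 557101) (nat_lit 13) (.e (nat_lit 172115) (nat_lit 10) (.e (nat_lit 434231) (nat_lit 23) (.e (nat_lit 532535) (nat_lit 9) (.e (nat_lit 335908) (nat_lit 0) .nil)))))))) (.g (nat_lit 7) .nil .nil))))))) 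
(.nd (nat_lit 2) (.nd (nat_lit 3) (.nd (nat_lit 4) (.nd (nat_lit 5) 
(.lf (nat_lit 87106) (.g (nat_lit 1131) (.e (nat_lit 1998) (nat_lit 137) (.e (nat_lit 663568) (nat_lit 5) (.e (nat_lit 73792) (nat_lit 45) (.e (nat_lit 1386) (nat_lit 105) (.e (nat_lit 319232) (nat_lit 29) .nil))))) .nil)) 
(.lf (nat_lit 87138) (.g (nat_lit 2394) (.e (nat_lit 1998) (nat_lit 137) (.e (nat_lit 663569) (nat_lit 6) (.e (nat_lit 81948) (nat_lit 21) (.e (nat_lit 57872) (nat_lit 264) (.e (nat_lit 1221) (nat_lit 90) (.e (nat_lit 81933) (nat_lit 20) .nil)))))) (.g (nat_lit 5) .nil .nil)))) (.nd (nat_lit 5) 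
(.lf (nat_lit 87122) (.g (nat_lit 1532) (.e (nat_lit 1998) (nat_lit 137) (.e (nat_lit 663569) (nat_lit 6) (.e (nat_lit 81935) (nat_lit 20) (.e (nat_lit 1994) (nat_lit 137) (.e (nat_lit 663569) (nat_lit 6) (.e (nat_lit 81933) (nat_lit 20) .nil)))))) (.g (nat_lit 5) .nil .nil))) 
(.lf (nat_lit 87154) (.g (nat_lit 2656) (.e (nat_lit 1999) (nat_lit 137) (.e (nat_lit 663565) (nat_lit 3) (.e (nat_lit 57478) (nat_lit 28) (.e (nat_lit 557098) (nat_lit 13) (.e (nat_lit 172097) (nat_lit 9) (.e (nat_lit 426140) (nat_lit 3) (.e (nat_lit 204855) (nat_lit 26) (.e (nat_lit 335886) (nat_lit 0) .nil)))))))) (.g (nat_lit 5) .nil .nil))))) (.nd (nat_lit 4) (.nd (nat_lit 5) 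
(.lf (nat_lit 87114) (.g (nat_lit 1056) (.e (nat_lit 1998) (nat_lit 137) (.e (nat_lit 663569) (nat_lit 6) (.e (nat_lit 81924) (nat_lit 0) (.e (nat_lit 3629) (nat_lit 227) (.e (nat_lit 778326) (nat_lit 6) (.e (nat_lit 81931) (nat_lit 20) .nil)))))) (.g (nat_lit 6) .nil .nil))) 
(.lf (nat_lit 87146) (.g (nat_lit 1090) (.e (nat_lit 1998) (nat_lit 137) (.e (nat_lit 663569) (nat_lit 6) (.e (nat_lit 81959) (nat_lit 24) (.e (nat_lit 123185) (nat_lit 264) (.e (nat_lit 7936) (nat_lit 90) .nil))))) .nil))) (.nd (nat_lit 5) 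
(.lf (nat_lit 87130) (.g (nat_lit 1988) (.e (nat_lit 1998) (nat_lit 137) (.e (nat_lit 663569) (nat_lit 6) (.e (nat_lit 81946) (nat_lit 20) (.e (nat_lit 2005) (nat_lit 138) (.e (nat_lit 671764) (nat_lit 6) (.e (nat_lit 81935) (nat_lit 20) .nil)))))) (.g (nat_lit 0) .nil .nil))) 
(.lf (nat_lit 87162) (.g (nat_lit 3856) (.e (nat_lit 1999) (nat_lit 137) (.e (nat_lit 663565) (nat_lit 3) (.e (nat_lit 57478) (nat_lit 28) (.e (nat_lit 557101) (nat_lit 13) (.e (nat_lit 172097) (nat_lit 9) (.e (nat_lit 426140) (nat_lit 3) (.e (nat_lit 204855) (nat_lit 26) (.e (nat_lit 335908) (nat_lit 0) .nil)))))))) (.g (nat_lit 7) .nil .nil)))))) 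
(.nd (nat_lit 3) (.nd (nat_lit 4) (.nd (nat_lit 5) 
(.lf (nat_lit 87110) (.g (nat_lit 1706) (.e (nat_lit 1998) (nat_lit 137) (.e (nat_lit 663569) (nat_lit 6) (.e (nat_lit 81922) (nat_lit 0) (.e (nat_lit 3631) (nat_lit 227) (.e (nat_lit 778326) (nat_lit 6) (.e (nat_lit 81931) (nat_lit 20) .nil)))))) (.g (nat_lit 0) .nil .nil))) 
(.lf (nat_lit 87142) (.g (nat_lit 1421) (.e (nat_lit 1998) (nat_lit 137) (.e (nat_lit 663569) (nat_lit 6) (.e (nat_lit 81957) (nat_lit 24) (.e (nat_lit 123184) (nat_lit 264) (.e (nat_lit 7936) (nat_lit 90) .nil))))) .nil))) (.nd (nat_lit 5) 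
(.lf (nat_lit 87126) (.g (nat_lit 1282) (.e (nat_lit 1998) (nat_lit 137) (.e (nat_lit 663569) (nat_lit 6) (.e (nat_lit 81943) (nat_lit 20) (.e (nat_lit 2003) (nat_lit 138) (.e (nat_lit 671764) (nat_lit 6) (.e (nat_lit 81933) (nat_lit 20) .nil)))))) (.g (nat_lit 6) .nil .nil))) 
(.lf (nat_lit 87158) (.g (nat_lit 4279) (.e (nat_lit 1999) (nat_lit 137) (.e (nat_lit 663565) (nat_lit 3) (.e (nat_lit 57478) (nat_lit 28) (.e (nat_lit 557098) (nat_lit 13) (.e (nat_lit 172115) (nat_lit 10) (.e (nat_lit 434231) (nat_lit 23) (.e (nat_lit 532535) (nat_lit 9) (.e (nat_lit 335908) (nat_lit 0) .nil)))))))) (.g (nat_lit 7) .nil .nil))))) (.nd (nat_lit 4) (.nd (nat_lit 5) 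
(.lf (nat_lit 87118) (.g (nat_lit 1568) (.e (nat_lit 1998) (nat_lit 137) (.e (nat_lit 663569) (nat_lit 6) (.e (nat_lit 81924) (nat_lit 0) (.e (nat_lit 3631) (nat_lit 227) (.e (nat_lit 778326) (nat_lit 6) (.e (nat_lit 81931) (nat_lit 20) .nil)))))) (.g (nat_lit 0) .nil .nil))) 
(.lf (nat_lit 87150) (.g (nat_lit 4891) (.e (nat_lit 1999) (nat_lit 137) (.e (nat_lit 663564) (nat_lit 3) (.e (nat_lit 57479) (nat_lit 28) (.e (nat_lit 557101) (nat_lit 13) (.e (nat_lit 172115) (nat_lit 10) (.e (nat_lit 434231) (nat_lit 23) (.e (nat_lit 532535) (nat_lit 9) (.e (nat_lit 335905) (nat_lit 0) .nil)))))))) (.g (nat_lit 0) .nil .nil)))) (.nd (nat_lit 5) 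
(.lf (nat_lit 87134) (.g (nat_lit 1415) (.e (nat_lit 1998) (nat_lit 137) (.e (nat_lit 663569) (nat_lit 6) (.e (nat_lit 81947) (nat_lit 20) (.e (nat_lit 2003) (nat_lit 138) (.e (nat_lit 671764) (nat_lit 6) (.e (nat_lit 81933) (nat_lit 20) .nil)))))) (.g (nat_lit 4) .nil .nil))) 
(.lf (nat_lit 87166) (.g (nat_lit 3475) (.e (nat_lit 1999) (nat_lit 137) (.e (nat_lit 663565) (nat_lit 3) (.e (nat_lit 57478) (nat_lit 28) (.e (nat_lit 557107) (nat_lit 15) (.e (nat_lit 188450) (nat_lit 23) (.e (nat_lit 204855) (nat_lit 26) (.e (nat_lit 335905) (nat_lit 0) .nil))))))) (.g (nat_lit 7) .nil .nil)))))))) 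
(.nd (nat_lit 1) (.nd (nat_lit 2) (.nd (nat_lit 3) (.nd (nat_lit 4) (.nd (nat_lit 5) 
(.lf (nat_lit 87105) (.g (nat_lit 757) (.e (nat_lit 1998) (nat_lit 137) (.e (nat_lit 663568) (nat_lit 5) (.e (nat_lit 73792) (nat_lit 45) (.e (nat_lit 1385) (nat_lit 105) (.e (nat_lit 319232) (nat_lit 29) .nil))))) .nil)) 
(.lf (nat_lit 87137) (.g (nat_lit 2298) (.e (nat_lit 1998) (nat_lit 137) (.e (nat_lit 663569) (nat_lit 6) (.e (nat_lit 81948) (nat_lit 21) (.e (nat_lit 57872) (nat_lit 264) (.e (nat_lit 1219) (nat_lit 90) (.e (nat_lit 81933) (nat_lit 20) .nil)))))) (.g (nat_lit 5) .nil .nil)))) (.nd (nat_lit 5) 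
(.lf (nat_lit 87121) (.g (nat_lit 566) (.e (nat_lit 1998) (nat_lit 137) (.e (nat_lit 663569) (nat_lit 6) (.e (nat_lit 81931) (nat_lit 20) .nil))) .nil)) 
(.lf (nat_lit 87153) (.g (nat_lit 4311) (.e (nat_lit 1999) (nat_lit 137) (.e (nat_lit 663565) (nat_lit 3) (.e (nat_lit 57478) (nat_lit 28) (.e (nat_lit 557098) (nat_lit 13) (.e (nat_lit 172097) (nat_lit 9) (.e (nat_lit 426125) (nat_lit 2) (.e (nat_lit 196666) (nat_lit 13) (.e (nat_lit 65543) (nat_lit 0) .nil)))))))) (.g (nat_lit 8) .nil .nil))))) (.nd (nat_lit 4) (.nd (nat_lit 5) 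
(.lf (nat_lit 87113) (.g (nat_lit 343) (.e (nat_lit 1998) (nat_lit 137) (.e (nat_lit 663569) (nat_lit 6) (.e (nat_lit 81924) (nat_lit 0) .nil))) .nil)) 
(.lf (nat_lit 87145) (.g (nat_lit 2562) (.e (nat_lit 1998) (nat_lit 137) (.e (nat_lit 663569) (nat_lit 6) (.e (nat_lit 81959) (nat_lit 24) (.e (nat_lit 123182) (nat_lit 264) (.e (nat_lit 7936) (nat_lit 90) (.e (nat_lit 81935) (nat_lit 20) .nil)))))) (.g (nat_lit 4) .nil .nil)))) (.nd (nat_lit 5) 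
(.lf (nat_lit 87129) (.g (nat_lit 1417) (.e (nat_lit 1998) (nat_lit 137) (.e (nat_lit 663569) (nat_lit 6) (.e (nat_lit 81946) (nat_lit 20) (.e (nat_lit 2005) (nat_lit 138) (.e (nat_lit 671764) (nat_lit 6) (.e (nat_lit 81933) (nat_lit 20) .nil)))))) (.g (nat_lit 5) .nil .nil))) 
(.lf (nat_lit 87161) (.g (nat_lit 4000) (.e (nat_lit 1999) (nat_lit 137) (.e (nat_lit 663565) (nat_lit 3) (.e (nat_lit 57478) (nat_lit 28) (.e (nat_lit 557101) (nat_lit 13) (.e (nat_lit 172097) (nat_lit 9) (.e (nat_lit 426140) (nat_lit 3) (.e (nat_lit 204855) (nat_lit 26) (.e (nat_lit 335905) (nat_lit 0) .nil)))))))) (.g (nat_lit 7) .nil .nil)))))) 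
(.nd (nat_lit 3) (.nd (nat_lit 4) (.nd (nat_lit 5) 
(.lf (nat_lit 87109) (.g (nat_lit 705) (.e (nat_lit 1998) (nat_lit 137) (.e (nat_lit 663569) (nat_lit 6) (.e (nat_lit 81922) (nat_lit 0) (.e (nat_lit 3629) (nat_lit 227) .nil)))) .nil)) 
(.lf (nat_lit 87141) (.g (nat_lit 2404) (.e (nat_lit 1998) (nat_lit 137) (.e (nat_lit 663569) (nat_lit 6) (.e (nat_lit 81950) (nat_lit 21) (.e (nat_lit 57873) (nat_lit 264) (.e (nat_lit 1221) (nat_lit 90) (.e (nat_lit 81931) (nat_lit 20) .nil)))))) (.g (nat_lit 5) .nil .nil)))) (.nd (nat_lit 5) 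
(.lf (nat_lit 87125) (.g (nat_lit 1125) (.e (nat_lit 1998) (nat_lit 137) (.e (nat_lit 663569) (nat_lit 6) (.e (nat_lit 81939) (nat_lit 20) (.e (nat_lit 2006) (nat_lit 138) (.e (nat_lit 671764) (nat_lit 6) (.e (nat_lit 81933) (nat_lit 20) .nil)))))) (.g (nat_lit 0) .nil .nil))) 
(.lf (nat_lit 87157) (.g (nat_lit 5181) (.e (nat_lit 1999) (nat_lit 137) (.e (nat_lit 663565) (nat_lit 3) (.e (nat_lit 57478) (nat_lit 28) (.e (nat_lit 557098) (nat_lit 13) (.e (nat_lit 172115) (nat_lit 10) (.e (nat_lit 434231) (nat_lit 23) (.e (nat_lit 532535) (nat_lit 9) (.e (nat_lit 335905) (nat_lit 0) .nil)))))))) (.g (nat_lit 8) .nil .nil))))) (.nd (nat_lit 4) (.nd (nat_lit 5) 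
(.lf (nat_lit 87117) (.g (nat_lit 632) (.e (nat_lit 1998) (nat_lit 137) (.e (nat_lit 663569) (nat_lit 6) (.e (nat_lit 81924) (nat_lit 0) (.e (nat_lit 3630) (nat_lit 227) (.e (nat_lit 786176) (nat_lit 6) (.e (nat_lit 81933) (nat_lit 20) .nil)))))) (.g (nat_lit 4) .nil .nil))) 
(.lf (nat_lit 87149) (.g (nat_lit 5138) (.e (nat_lit 1999) (nat_lit 137) (.e (nat_lit 663564) (nat_lit 3) (.e (nat_lit 57479) (nat_lit 28) (.e (nat_lit 557100) (nat_lit 13) (.e (nat_lit 172106) (nat_lit 10) (.e (nat_lit 434231) (nat_lit 23) (.e (nat_lit 532535) (nat_lit 9) (.e (nat_lit 335905) (nat_lit 0) .nil)))))))) (.g (nat_lit 0) .nil .nil)))) (.nd (nat_lit 5) 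
(.lf (nat_lit 87133) (.g (nat_lit 1937) (.e (nat_lit 1998) (nat_lit 137) (.e (nat_lit 663569) (nat_lit 6) (.e (nat_lit 81946) (nat_lit 20) (.e (nat_lit 2006) (nat_lit 138) (.e (nat_lit 671764) (nat_lit 6) (.e (nat_lit 81935) (nat_lit 20) .nil)))))) (.g (nat_lit 0) .nil .nil))) 
(.lf (nat_lit 87165) (.g (nat_lit 3896) (.e (nat_lit 1999) (nat_lit 137) (.e (nat_lit 663565) (nat_lit 3) (.e (nat_lit 57478) (nat_lit 28) (.e (nat_lit 557107) (nat_lit 15) (.e (nat_lit 188447) (nat_lit 22) (.e (nat_lit 196666) (nat_lit 13) (.e (nat_lit 65539) (nat_lit 0) .nil))))))) (.g (nat_lit 0) .nil .nil))))))) (.nd (nat_lit 2) (.nd (nat_lit 3) (.nd (nat_lit 4) (.nd (nat_lit 5) 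
(.lf (nat_lit 87107) (.g (nat_lit 328) (.e (nat_lit 1998) (nat_lit 137) (.e (nat_lit 663569) (nat_lit 6) (.e (nat_lit 81921) (nat_lit 0) .nil))) .nil)) 
(.lf (nat_lit 87139) (.g (nat_lit 566) (.e (nat_lit 1998) (nat_lit 137) (.e (nat_lit 663569) (nat_lit 6) (.e (nat_lit 81949) (nat_lit 21) .nil))) .nil))) (.nd (nat_lit 5) 
(.lf (nat_lit 87123) (.g (nat_lit 1420) (.e (nat_lit 1998) (nat_lit 137) (.e (nat_lit 663569) (nat_lit 6) (.e (nat_lit 81935) (nat_lit 20) (.e (nat_lit 1996) (nat_lit 137) (.e (nat_lit 663569) (nat_lit 6) (.e (nat_lit 81933) (nat_lit 20) .nil)))))) (.g (nat_lit 5) .nil .nil))) 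
(.lf (nat_lit 87155) (.g (nat_lit 4042) (.e (nat_lit 1999) (nat_lit 137) (.e (nat_lit 663565) (nat_lit 3) (.e (nat_lit 57478) (nat_lit 28) (.e (nat_lit 557098) (nat_lit 13) (.e (nat_lit 172097) (nat_lit 9) (.e (nat_lit 426140) (nat_lit 3) (.e (nat_lit 204855) (nat_lit 26) (.e (nat_lit 335905) (nat_lit 0) .nil)))))))) (.g (nat_lit 7) .nil .nil))))) (.nd (nat_lit 4) (.nd (nat_lit 5) 
(.lf (nat_lit 87115) (.g (nat_lit 647) (.e (nat_lit 1998) (nat_lit 137) (.e (nat_lit 663569) (nat_lit 6) (.e (nat_lit 81924) (nat_lit 0) (.e (nat_lit 3629) (nat_lit 227) (.e (nat_lit 786176) (nat_lit 6) (.e (nat_lit 81933) (nat_lit 20) .nil)))))) (.g (nat_lit 4) .nil .nil))) 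
(.lf (nat_lit 87147) (.g (nat_lit 4353) (.e (nat_lit 1999) (nat_lit 137) (.e (nat_lit 663564) (nat_lit 3) (.e (nat_lit 57477) (nat_lit 28) (.e (nat_lit 557097) (nat_lit 13) (.e (nat_lit 172115) (nat_lit 10) (.e (nat_lit 434231) (nat_lit 23) (.e (nat_lit 532535) (nat_lit 9) (.e (nat_lit 335905) (nat_lit 0) .nil)))))))) (.g (nat_lit 8) .nil .nil)))) (.nd (nat_lit 5) 
(.lf (nat_lit 87131) (.g (nat_lit 1666) (.e (nat_lit 1998) (nat_lit 137) (.e (nat_lit 663569) (nat_lit 6) (.e (nat_lit 81946) (nat_lit 20) (.e (nat_lit 2006) (nat_lit 138) (.e (nat_lit 671764) (nat_lit 6) (.e (nat_lit 81931) (nat_lit 20) .nil)))))) (.g (nat_lit 6) .nil .nil))) 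
(.lf (nat_lit 87163) (.g (nat_lit 5094) (.e (nat_lit 1999) (nat_lit 137) (.e (nat_lit 663565) (nat_lit 3) (.e (nat_lit 57478) (nat_lit 28) (.e (nat_lit 557101) (nat_lit 13) (.e (nat_lit 172115) (nat_lit 10) (.e (nat_lit 434231) (nat_lit 23) (.e (nat_lit 532535) (nat_lit 9) (.e (nat_lit 335905) (nat_lit 0) .nil)))))))) (.g (nat_lit 8) .nil .nil)))))) 
(.nd (nat_lit 3) (.nd (nat_lit 4) (.nd (nat_lit 5) 
(.lf (nat_lit 87111) (.g (nat_lit 1202) (.e (nat_lit 1998) (nat_lit 137) (.e (nat_lit 663569) (nat_lit 6) (.e (nat_lit 81922) (nat_lit 0) (.e (nat_lit 3631) (nat_lit 227) (.e (nat_lit 786176) (nat_lit 6) .nil))))) .nil)) 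
(.lf (nat_lit 87143) (.g (nat_lit 566) (.e (nat_lit 1998) (nat_lit 137) (.e (nat_lit 663569) (nat_lit 6) (.e (nat_lit 81958) (nat_lit 24) .nil))) .nil))) (.nd (nat_lit 5) 
(.lf (nat_lit 87127) (.g (nat_lit 1204) (.e (nat_lit 1998) (nat_lit 137) (.e (nat_lit 663569) (nat_lit 6) (.e (nat_lit 81943) (nat_lit 20) (.e (nat_lit 2004) (nat_lit 138) (.e (nat_lit 671764) (nat_lit 6) (.e (nat_lit 81933) (nat_lit 20) .nil)))))) (.g (nat_lit 5) .nil .nil))) 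
(.lf (nat_lit 87159) (.g (nat_lit 4262) (.e (nat_lit 1999) (nat_lit 137) (.e (nat_lit 663565) (nat_lit 3) (.e (nat_lit 57478) (nat_lit 28) (.e (nat_lit 557101) (nat_lit 13) (.e (nat_lit 172097) (nat_lit 9) (.e (nat_lit 426125) (nat_lit 2) (.e (nat_lit 196666) (nat_lit 13) (.e (nat_lit 65543) (nat_lit 0) .nil)))))))) (.g (nat_lit 8) .nil .nil))))) (.nd (nat_lit 4) (.nd (nat_lit 5) 
(.lf (nat_lit 87119) (.g (nat_lit 957) (.e (nat_lit 1998) (nat_lit 137) (.e (nat_lit 663569) (nat_lit 6) (.e (nat_lit 81924) (nat_lit 0) (.e (nat_lit 3631) (nat_lit 227) (.e (nat_lit 786176) (nat_lit 6) (.e (nat_lit 81933) (nat_lit 20) .nil)))))) (.g (nat_lit 4) .nil .nil))) 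
(.lf (nat_lit 87151) (.g (nat_lit 4949) (.e (nat_lit 1999) (nat_lit 137) (.e (nat_lit 663564) (nat_lit 3) (.e (nat_lit 57480) (nat_lit 28) (.e (nat_lit 557098) (nat_lit 13) (.e (nat_lit 172115) (nat_lit 10) (.e (nat_lit 434231) (nat_lit 23) (.e (nat_lit 532535) (nat_lit 9) (.e (nat_lit 335905) (nat_lit 0) .nil)))))))) (.g (nat_lit 8) .nil .nil)))) (.nd (nat_lit 5) 
(.lf (nat_lit 87135) (.g (nat_lit 931) (.e (nat_lit 1998) (nat_lit 137) (.e (nat_lit 663569) (nat_lit 6) (.e (nat_lit 81947) (nat_lit 20) (.e (nat_lit 2006) (nat_lit 138) .nil)))) .nil)) 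
(.lf (nat_lit 87167) (.g (nat_lit 3276) (.e (nat_lit 1999) (nat_lit 137) (.e (nat_lit 663565) (nat_lit 3) (.e (nat_lit 57478) (nat_lit 28) (.e (nat_lit 557107) (nat_lit 15) (.e (nat_lit 188450) (nat_lit 23) (.e (nat_lit 204855) (nat_lit 26) (.e (nat_lit 335908) (nat_lit 0) .nil))))))) (.g (nat_lit 7) .nil .nil)))))))))

noncomputable def tv1185 : DT := (.nd (nat_lit 0) (.nd (nat_lit 1) (.nd (nat_lit 2) (.nd (nat_lit 3) (.nd (nat_lit 4) (.nd (nat_lit 5) 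
(.lf (nat_lit 87168) (.g (nat_lit 4244) (.e (nat_lit 1999) (nat_lit 137) (.e (nat_lit 663565) (nat_lit 3) (.e (nat_lit 57478) (nat_lit 28) (.e (nat_lit 557109) (nat_lit 15) (.e (nat_lit 188449) (nat_lit 22) (.e (nat_lit 196666) (nat_lit 13) (.e (nat_lit 65539) (nat_lit 0) .nil))))))) (.g (nat_lit 0) .nil .nil))) 
(.lf (nat_lit 87200) (.g (nat_lit 1821) (.e (nat_lit 1999) (nat_lit 137) (.e (nat_lit 663567) (nat_lit 4) (.e (nat_lit 65583) (nat_lit 7) (.e (nat_lit 319539) (nat_lit 19) (.e (nat_lit 311358) (nat_lit 29) (.e (nat_lit 352285) (nat_lit 20) .nil)))))) (.g (nat_lit 0) .nil .nil)))) (.nd (nat_lit 5) 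
(.lf (nat_lit 87184) (.g (nat_lit 1231) (.e (nat_lit 1999) (nat_lit 137) (.e (nat_lit 663566) (nat_lit 4) (.e (nat_lit 65583) (nat_lit 7) (.e (nat_lit 319506) (nat_lit 10) (.e (nat_lit 5722) (nat_lit 312) .nil))))) .nil)) 
(.lf (nat_lit 87216) (.g (nat_lit 1962) (.e (nat_lit 1999) (nat_lit 137) (.e (nat_lit 663567) (nat_lit 4) (.e (nat_lit 65586) (nat_lit 7) (.e (nat_lit 319539) (nat_lit 19) (.e (nat_lit 311358) (nat_lit 29) (.e (nat_lit 352286) (nat_lit 20) .nil)))))) (.g (nat_lit 0) .nil .nil))))) (.nd (nat_lit 4) (.nd (nat_lit 5) 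
(.lf (nat_lit 87176) (.g (nat_lit 3228) (.e (nat_lit 1999) (nat_lit 137) (.e (nat_lit 663565) (nat_lit 3) (.e (nat_lit 57479) (nat_lit 28) (.e (nat_lit 557101) (nat_lit 13) (.e (nat_lit 172115) (nat_lit 10) (.e (nat_lit 434231) (nat_lit 23) (.e (nat_lit 532535) (nat_lit 9) (.e (nat_lit 335886) (nat_lit 0) .nil)))))))) (.g (nat_lit 5) .nil .nil))) 
(.lf (nat_lit 87208) (.g (nat_lit 1723) (.e (nat_lit 1999) (nat_lit 137) (.e (nat_lit 663567) (nat_lit 4) (.e (nat_lit 65584) (nat_lit 7) (.e (nat_lit 319539) (nat_lit 19) (.e (nat_lit 311358) (nat_lit 29) (.e (nat_lit 352285) (nat_lit 20) .nil)))))) (.g (nat_lit 0) .nil .nil)))) (.nd (nat_lit 5) 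
(.lf (nat_lit 87192) (.g (nat_lit 1589) (.e (nat_lit 1999) (nat_lit 137) (.e (nat_lit 663566) (nat_lit 4) (.e (nat_lit 65610) (nat_lit 10) (.e (nat_lit 344169) (nat_lit 40) (.e (nat_lit 671764) (nat_lit 6) (.e (nat_lit 81934) (nat_lit 20) .nil)))))) (.g (nat_lit 5) .nil .nil))) 
(.lf (nat_lit 87224) (.g (nat_lit 2893) (.e (nat_lit 1999) (nat_lit 137) (.e (nat_lit 663567) (nat_lit 4) (.e (nat_lit 65598) (nat_lit 9) (.e (nat_lit 335997) (nat_lit 1) (.e (nat_lit 57870) (nat_lit 264) (.e (nat_lit 1221) (nat_lit 90) (.e (nat_lit 81931) (nat_lit 20) .nil))))))) (.g (nat_lit 6) .nil .nil)))))) (.nd (nat_lit 3) (.nd (nat_lit 4) (.nd (nat_lit 5) 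
(.lf (nat_lit 87172) (.g (nat_lit 2946) (.e (nat_lit 1999) (nat_lit 137) (.e (nat_lit 663565) (nat_lit 3) (.e (nat_lit 57479) (nat_lit 28) (.e (nat_lit 557095) (nat_lit 13) (.e (nat_lit 172115) (nat_lit 10) (.e (nat_lit 434231) (nat_lit 23) (.e (nat_lit 532535) (nat_lit 9) (.e (nat_lit 335886) (nat_lit 0) .nil)))))))) (.g (nat_lit 4) .nil .nil))) 
(.lf (nat_lit 87204) (.g (nat_lit 1664) (.e (nat_lit 1999) (nat_lit 137) (.e (nat_lit 663567) (nat_lit 4) (.e (nat_lit 65584) (nat_lit 7) (.e (nat_lit 319506) (nat_lit 10) (.e (nat_lit 5721) (nat_lit 312) (.e (nat_lit 317) (nat_lit 23) (.e (nat_lit 352287) (nat_lit 20) .nil))))))) (.g (nat_lit 4) .nil .nil)))) (.nd (nat_lit 5) 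
(.lf (nat_lit 87188) (.g (nat_lit 1029) (.e (nat_lit 1999) (nat_lit 137) (.e (nat_lit 663566) (nat_lit 4) (.e (nat_lit 65583) (nat_lit 7) (.e (nat_lit 319539) (nat_lit 19) (.e (nat_lit 311358) (nat_lit 29) (.e (nat_lit 352286) (nat_lit 20) .nil)))))) (.g (nat_lit 4) .nil .nil))) 
(.lf (nat_lit 87220) (.g (nat_lit 1960) (.e (nat_lit 1999) (nat_lit 137) (.e (nat_lit 663567) (nat_lit 4) (.e (nat_lit 65598) (nat_lit 9) (.e (nat_lit 335907) (nat_lit 0) (.e (nat_lit 1994) (nat_lit 137) (.e (nat_lit 663569) (nat_lit 6) (.e (nat_lit 81933) (nat_lit 20) .nil))))))) (.g (nat_lit 4) .nil .nil))))) (.nd (nat_lit 4) (.nd (nat_lit 5) 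
(.lf (nat_lit 87180) (.g (nat_lit 3350) (.e (nat_lit 1999) (nat_lit 137) (.e (nat_lit 663565) (nat_lit 3) (.e (nat_lit 57480) (nat_lit 28) (.e (nat_lit 557109) (nat_lit 15) (.e (nat_lit 188449) (nat_lit 22) (.e (nat_lit 196666) (nat_lit 13) (.e (nat_lit 65543) (nat_lit 0) .nil))))))) (.g (nat_lit 5) .nil .nil))) 
(.lf (nat_lit 87212) (.g (nat_lit 1560) (.e (nat_lit 1999) (nat_lit 137) (.e (nat_lit 663567) (nat_lit 4) (.e (nat_lit 65585) (nat_lit 7) (.e (nat_lit 319539) (nat_lit 19) (.e (nat_lit 311358) (nat_lit 29) (.e (nat_lit 352286) (nat_lit 20) .nil)))))) (.g (nat_lit 0) .nil .nil)))) (.nd (nat_lit 5) 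
(.lf (nat_lit 87196) (.g (nat_lit 1343) (.e (nat_lit 1999) (nat_lit 137) (.e (nat_lit 663566) (nat_lit 4) (.e (nat_lit 65619) (nat_lit 10) (.e (nat_lit 344169) (nat_lit 40) (.e (nat_lit 671764) (nat_lit 6) .nil))))) .nil)) 
(.lf (nat_lit 87228) (.g (nat_lit 1525) (.e (nat_lit 1999) (nat_lit 137) (.e (nat_lit 663567) (nat_lit 4) (.e (nat_lit 65604) (nat_lit 9) (.e (nat_lit 335907) (nat_lit 0) (.e (nat_lit 1994) (nat_lit 137) .nil))))) .nil)))))) (.nd (nat_lit 2) (.nd (nat_lit 3) (.nd (nat_lit 4) (.nd (nat_lit 5) 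
(.lf (nat_lit 87170) (.g (nat_lit 4368) (.e (nat_lit 1999) (nat_lit 137) (.e (nat_lit 663565) (nat_lit 3) (.e (nat_lit 57478) (nat_lit 28) (.e (nat_lit 557109) (nat_lit 15) (.e (nat_lit 188452) (nat_lit 23) (.e (nat_lit 204855) (nat_lit 26) (.e (nat_lit 335905) (nat_lit 0) .nil))))))) (.g (nat_lit 7) .nil .nil))) 
(.lf (nat_lit 87202) (.g (nat_lit 1243) (.e (nat_lit 1999) (nat_lit 137) (.e (nat_lit 663567) (nat_lit 4) (.e (nat_lit 65583) (nat_lit 7) (.e (nat_lit 319539) (nat_lit 19) (.e (nat_lit 319232) (nat_lit 29) .nil))))) .nil))) (.nd (nat_lit 5) 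
(.lf (nat_lit 87186) (.g (nat_lit 1241) (.e (nat_lit 1999) (nat_lit 137) (.e (nat_lit 663566) (nat_lit 4) (.e (nat_lit 65583) (nat_lit 7) (.e (nat_lit 319539) (nat_lit 19) (.e (nat_lit 311358) (nat_lit 29) (.e (nat_lit 352283) (nat_lit 20) .nil)))))) (.g (nat_lit 5) .nil .nil))) 
(.lf (nat_lit 87218) (.g (nat_lit 436) (.e (nat_lit 1999) (nat_lit 137) (.e (nat_lit 663567) (nat_lit 4) (.e (nat_lit 65589) (nat_lit 9) .nil))) .nil)))) (.nd (nat_lit 4) (.nd (nat_lit 5) 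
(.lf (nat_lit 87178) (.g (nat_lit 2419) (.e (nat_lit 1999) (nat_lit 137) (.e (nat_lit 663565) (nat_lit 3) (.e (nat_lit 57480) (nat_lit 28) (.e (nat_lit 557107) (nat_lit 15) (.e (nat_lit 188447) (nat_lit 22) (.e (nat_lit 196666) (nat_lit 13) (.e (nat_lit 65536) (nat_lit 0) .nil))))))) (.g (nat_lit 4) .nil .nil))) 
(.lf (nat_lit 87210) (.g (nat_lit 1242) (.e (nat_lit 1999) (nat_lit 137) (.e (nat_lit 663567) (nat_lit 4) (.e (nat_lit 65584) (nat_lit 7) (.e (nat_lit 319539) (nat_lit 19) (.e (nat_lit 319232) (nat_lit 29) (.e (nat_lit 352285) (nat_lit 20) .nil)))))) (.g (nat_lit 4) .nil .nil)))) (.nd (nat_lit 5) 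
(.lf (nat_lit 87194) (.g (nat_lit 1340) (.e (nat_lit 1999) (nat_lit 137) (.e (nat_lit 663566) (nat_lit 4) (.e (nat_lit 65617) (nat_lit 10) (.e (nat_lit 344169) (nat_lit 40) (.e (nat_lit 671764) (nat_lit 6) .nil))))) .nil)) 
(.lf (nat_lit 87226) (.g (nat_lit 1825) (.e (nat_lit 1999) (nat_lit 137) (.e (nat_lit 663567) (nat_lit 4) (.e (nat_lit 65598) (nat_lit 9) (.e (nat_lit 335997) (nat_lit 1) (.e (nat_lit 57871) (nat_lit 264) (.e (nat_lit 1221) (nat_lit 90) (.e (nat_lit 81931) (nat_lit 20) .nil))))))) (.g (nat_lit 4) .nil .nil)))))) (.nd (nat_lit 3) (.nd (nat_lit 4) (.nd (nat_lit 5) 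
(.lf (nat_lit 87174) (.g (nat_lit 3153) (.e (nat_lit 1999) (nat_lit 137) (.e (nat_lit 663565) (nat_lit 3) (.e (nat_lit 57479) (nat_lit 28) (.e (nat_lit 557101) (nat_lit 13) (.e (nat_lit 172097) (nat_lit 9) (.e (nat_lit 426125) (nat_lit 2) (.e (nat_lit 196666) (nat_lit 13) (.e (nat_lit 65536) (nat_lit 0) .nil)))))))) (.g (nat_lit 5) .nil .nil))) 
(.lf (nat_lit 87206) (.g (nat_lit 1653) (.e (nat_lit 1999) (nat_lit 137) (.e (nat_lit 663567) (nat_lit 4) (.e (nat_lit 65584) (nat_lit 7) (.e (nat_lit 319506) (nat_lit 10) (.e (nat_lit 5722) (nat_lit 312) (.e (nat_lit 317) (nat_lit 23) (.e (nat_lit 352287) (nat_lit 20) .nil))))))) (.g (nat_lit 4) .nil .nil)))) (.nd (nat_lit 5) 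
(.lf (nat_lit 87190) (.g (nat_lit 1693) (.e (nat_lit 1999) (nat_lit 137) (.e (nat_lit 663566) (nat_lit 4) (.e (nat_lit 65610) (nat_lit 10) (.e (nat_lit 344168) (nat_lit 40) (.e (nat_lit 671764) (nat_lit 6) (.e (nat_lit 81931) (nat_lit 20) .nil)))))) (.g (nat_lit 5) .nil .nil))) 
(.lf (nat_lit 87222) (.g (nat_lit 2218) (.e (nat_lit 1999) (nat_lit 137) (.e (nat_lit 663567) (nat_lit 4) (.e (nat_lit 65598) (nat_lit 9) (.e (nat_lit 335997) (nat_lit 1) (.e (nat_lit 57870) (nat_lit 264) (.e (nat_lit 1219) (nat_lit 90) (.e (nat_lit 81933) (nat_lit 20) .nil))))))) (.g (nat_lit 5) .nil .nil))))) (.nd (nat_lit 4) (.nd (nat_lit 5) 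
(.lf (nat_lit 87182) (.g (nat_lit 2101) (.e (nat_lit 1999) (nat_lit 137) (.e (nat_lit 663565) (nat_lit 3) (.e (nat_lit 57520) (nat_lit 44) (.e (nat_lit 688177) (nat_lit 16) (.e (nat_lit 65583) (nat_lit 7) (.e (nat_lit 319530) (nat_lit 16) (.e (nat_lit 286748) (nat_lit 9) (.e (nat_lit 335891) (nat_lit 0) .nil)))))))) (.g (nat_lit 4) .nil .nil))) 
(.lf (nat_lit 87214) (.g (nat_lit 1009) (.e (nat_lit 1999) (nat_lit 137) (.e (nat_lit 663567) (nat_lit 4) (.e (nat_lit 65586) (nat_lit 7) (.e (nat_lit 319506) (nat_lit 10) .nil)))) .nil))) (.nd (nat_lit 5) 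
(.lf (nat_lit 87198) (.g (nat_lit 432) (.e (nat_lit 1999) (nat_lit 137) (.e (nat_lit 663567) (nat_lit 4) (.e (nat_lit 65581) (nat_lit 7) .nil))) .nil)) 
(.lf (nat_lit 87230) (.g (nat_lit 2855) (.e (nat_lit 1999) (nat_lit 137) (.e (nat_lit 663567) (nat_lit 4) (.e (nat_lit 65604) (nat_lit 9) (.e (nat_lit 335997) (nat_lit 1) (.e (nat_lit 57870) (nat_lit 264) (.e (nat_lit 1221) (nat_lit 90) (.e (nat_lit 81931) (nat_lit 20) .nil))))))) (.g (nat_lit 7) .nil .nil)))))))) 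
(.nd (nat_lit 1) (.nd (nat_lit 2) (.nd (nat_lit 3) (.nd (nat_lit 4) (.nd (nat_lit 5) 
(.lf (nat_lit 87169) (.g (nat_lit 3293) (.e (nat_lit 1999) (nat_lit 137) (.e (nat_lit 663565) (nat_lit 3) (.e (nat_lit 57478) (nat_lit 28) (.e (nat_lit 557109) (nat_lit 15) (.e (nat_lit 188452) (nat_lit 23) (.e (nat_lit 204855) (nat_lit 26) (.e (nat_lit 335886) (nat_lit 0) .nil))))))) (.g (nat_lit 5) .nil .nil))) 
(.lf (nat_lit 87201) (.g (nat_lit 1816) (.e (nat_lit 1999) (nat_lit 137) (.e (nat_lit 663567) (nat_lit 4) (.e (nat_lit 65583) (nat_lit 7) (.e (nat_lit 319539) (nat_lit 19) (.e (nat_lit 311358) (nat_lit 29) (.e (nat_lit 352286) (nat_lit 20) .nil)))))) (.g (nat_lit 0) .nil .nil)))) (.nd (nat_lit 5) 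
(.lf (nat_lit 87185) (.g (nat_lit 1211) (.e (nat_lit 1999) (nat_lit 137) (.e (nat_lit 663566) (nat_lit 4) (.e (nat_lit 65583) (nat_lit 7) (.e (nat_lit 319506) (nat_lit 10) (.e (nat_lit 5723) (nat_lit 312) (.e (nat_lit 317) (nat_lit 23) (.e (nat_lit 352287) (nat_lit 20) .nil))))))) (.g (nat_lit 4) .nil .nil))) 
(.lf (nat_lit 87217) (.g (nat_lit 1502) (.e (nat_lit 1999) (nat_lit 137) (.e (nat_lit 663567) (nat_lit 4) (.e (nat_lit 65586) (nat_lit 7) (.e (nat_lit 319539) (nat_lit 19) (.e (nat_lit 319232) (nat_lit 29) (.e (nat_lit 352285) (nat_lit 20) .nil)))))) (.g (nat_lit 4) .nil .nil))))) (.nd (nat_lit 4) (.nd (nat_lit 5) 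
(.lf (nat_lit 87177) (.g (nat_lit 3262) (.e (nat_lit 1999) (nat_lit 137) (.e (nat_lit 663565) (nat_lit 3) (.e (nat_lit 57480) (nat_lit 28) (.e (nat_lit 557098) (nat_lit 13) (.e (nat_lit 172115) (nat_lit 10) (.e (nat_lit 434231) (nat_lit 23) (.e (nat_lit 532535) (nat_lit 9) (.e (nat_lit 335886) (nat_lit 0) .nil)))))))) (.g (nat_lit 5) .nil .nil))) 
(.lf (nat_lit 87209) (.g (nat_lit 1723) (.e (nat_lit 1999) (nat_lit 137) (.e (nat_lit 663567) (nat_lit 4) (.e (nat_lit 65584) (nat_lit 7) (.e (nat_lit 319539) (nat_lit 19) (.e (nat_lit 311358) (nat_lit 29) (.e (nat_lit 352286) (nat_lit 20) .nil)))))) (.g (nat_lit 0) .nil .nil)))) (.nd (nat_lit 5) 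
(.lf (nat_lit 87193) (.g (nat_lit 2145) (.e (nat_lit 1999) (nat_lit 137) (.e (nat_lit 663566) (nat_lit 4) (.e (nat_lit 65610) (nat_lit 10) (.e (nat_lit 344169) (nat_lit 40) (.e (nat_lit 671764) (nat_lit 6) (.e (nat_lit 81935) (nat_lit 20) .nil)))))) (.g (nat_lit 0) .nil .nil))) 
(.lf (nat_lit 87225) (.g (nat_lit 1919) (.e (nat_lit 1999) (nat_lit 137) (.e (nat_lit 663567) (nat_lit 4) (.e (nat_lit 65598) (nat_lit 9) (.e (nat_lit 335997) (nat_lit 1) (.e (nat_lit 57870) (nat_lit 264) (.e (nat_lit 1221) (nat_lit 90) (.e (nat_lit 81933) (nat_lit 20) .nil))))))) (.g (nat_lit 4) .nil .nil)))))) (.nd (nat_lit 3) (.nd (nat_lit 4) (.nd (nat_lit 5) 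
(.lf (nat_lit 87173) (.g (nat_lit 2103) (.e (nat_lit 1999) (nat_lit 137) (.e (nat_lit 663565) (nat_lit 3) (.e (nat_lit 57479) (nat_lit 28) (.e (nat_lit 557100) (nat_lit 13) (.e (nat_lit 172106) (nat_lit 10) (.e (nat_lit 434231) (nat_lit 23) (.e (nat_lit 532535) (nat_lit 9) (.e (nat_lit 335886) (nat_lit 0) .nil)))))))) (.g (nat_lit 4) .nil .nil))) 
(.lf (nat_lit 87205) (.g (nat_lit 1443) (.e (nat_lit 1999) (nat_lit 137) (.e (nat_lit 663567) (nat_lit 4) (.e (nat_lit 65584) (nat_lit 7) (.e (nat_lit 319506) (nat_lit 10) (.e (nat_lit 5722) (nat_lit 312) .nil))))) .nil))) (.nd (nat_lit 5) 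
(.lf (nat_lit 87189) (.g (nat_lit 3131) (.e (nat_lit 1999) (nat_lit 137) (.e (nat_lit 663566) (nat_lit 4) (.e (nat_lit 65610) (nat_lit 10) (.e (nat_lit 344097) (nat_lit 18) (.e (nat_lit 5907) (nat_lit 320) (.e (nat_lit 1221) (nat_lit 90) (.e (nat_lit 81931) (nat_lit 20) .nil))))))) (.g (nat_lit 6) .nil .nil))) 
(.lf (nat_lit 87221) (.g (nat_lit 1941) (.e (nat_lit 1999) (nat_lit 137) (.e (nat_lit 663567) (nat_lit 4) (.e (nat_lit 65598) (nat_lit 9) (.e (nat_lit 335907) (nat_lit 0) (.e (nat_lit 1996) (nat_lit 137) (.e (nat_lit 663569) (nat_lit 6) (.e (nat_lit 81933) (nat_lit 20) .nil))))))) (.g (nat_lit 4) .nil .nil))))) (.nd (nat_lit 4) (.nd (nat_lit 5) 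
(.lf (nat_lit 87181) (.g (nat_lit 3584) (.e (nat_lit 1999) (nat_lit 137) (.e (nat_lit 663565) (nat_lit 3) (.e (nat_lit 57480) (nat_lit 28) (.e (nat_lit 557109) (nat_lit 15) (.e (nat_lit 188452) (nat_lit 23) (.e (nat_lit 204855) (nat_lit 26) (.e (nat_lit 335905) (nat_lit 0) .nil))))))) (.g (nat_lit 5) .nil .nil))) 
(.lf (nat_lit 87213) (.g (nat_lit 993) (.e (nat_lit 1999) (nat_lit 137) (.e (nat_lit 663567) (nat_lit 4) (.e (nat_lit 65585) (nat_lit 7) (.e (nat_lit 319539) (nat_lit 19) (.e (nat_lit 319232) (nat_lit 29) (.e (nat_lit 352285) (nat_lit 20) .nil)))))) (.g (nat_lit 4) .nil .nil)))) (.nd (nat_lit 5) 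
(.lf (nat_lit 87197) (.g (nat_lit 1122) (.e (nat_lit 1999) (nat_lit 137) (.e (nat_lit 663567) (nat_lit 4) (.e (nat_lit 65542) (nat_lit 0) (.e (nat_lit 6218) (nat_lit 333) (.e (nat_lit 57864) (nat_lit 256) .nil))))) .nil)) 
(.lf (nat_lit 87229) (.g (nat_lit 1723) (.e (nat_lit 1999) (nat_lit 137) (.e (nat_lit 663567) (nat_lit 4) (.e (nat_lit 65604) (nat_lit 9) (.e (nat_lit 335907) (nat_lit 0) (.e (nat_lit 1996) (nat_lit 137) (.e (nat_lit 663569) (nat_lit 6) (.e (nat_lit 81935) (nat_lit 20) .nil))))))) (.g (nat_lit 4) .nil .nil))))))) (.nd (nat_lit 2) (.nd (nat_lit 3) (.nd (nat_lit 4) (.nd (nat_lit 5) 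
(.lf (nat_lit 87171) (.g (nat_lit 4112) (.e (nat_lit 1999) (nat_lit 137) (.e (nat_lit 663565) (nat_lit 3) (.e (nat_lit 57478) (nat_lit 28) (.e (nat_lit 557109) (nat_lit 15) (.e (nat_lit 188452) (nat_lit 23) (.e (nat_lit 204855) (nat_lit 26) (.e (nat_lit 335908) (nat_lit 0) .nil))))))) (.g (nat_lit 7) .nil .nil))) 
(.lf (nat_lit 87203) (.g (nat_lit 1420) (.e (nat_lit 1999) (nat_lit 137) (.e (nat_lit 663567) (nat_lit 4) (.e (nat_lit 65584) (nat_lit 7) (.e (nat_lit 319506) (nat_lit 10) (.e (nat_lit 5721) (nat_lit 312) .nil))))) .nil))) (.nd (nat_lit 5) 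
(.lf (nat_lit 87187) (.g (nat_lit 1074) (.e (nat_lit 1999) (nat_lit 137) (.e (nat_lit 663566) (nat_lit 4) (.e (nat_lit 65583) (nat_lit 7) (.e (nat_lit 319539) (nat_lit 19) (.e (nat_lit 311358) (nat_lit 29) (.e (nat_lit 352285) (nat_lit 20) .nil)))))) (.g (nat_lit 4) .nil .nil))) 
(.lf (nat_lit 87219) (.g (nat_lit 1426) (.e (nat_lit 1999) (nat_lit 137) (.e (nat_lit 663567) (nat_lit 4) (.e (nat_lit 65593) (nat_lit 9) (.e (nat_lit 335907) (nat_lit 0) (.e (nat_lit 1996) (nat_lit 137) (.e (nat_lit 663569) (nat_lit 6) (.e (nat_lit 81935) (nat_lit 20) .nil))))))) (.g (nat_lit 4) .nil .nil))))) (.nd (nat_lit 4) (.nd (nat_lit 5) 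
(.lf (nat_lit 87179) (.g (nat_lit 3167) (.e (nat_lit 1999) (nat_lit 137) (.e (nat_lit 663565) (nat_lit 3) (.e (nat_lit 57480) (nat_lit 28) (.e (nat_lit 557107) (nat_lit 15) (.e (nat_lit 188447) (nat_lit 22) (.e (nat_lit 196666) (nat_lit 13) (.e (nat_lit 65539) (nat_lit 0) .nil))))))) (.g (nat_lit 5) .nil .nil))) 
(.lf (nat_lit 87211) (.g (nat_lit 1568) (.e (nat_lit 1999) (nat_lit 137) (.e (nat_lit 663567) (nat_lit 4) (.e (nat_lit 65585) (nat_lit 7) (.e (nat_lit 319539) (nat_lit 19) (.e (nat_lit 311358) (nat_lit 29) (.e (nat_lit 352285) (nat_lit 20) .nil)))))) (.g (nat_lit 0) .nil .nil)))) (.nd (nat_lit 5) 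
(.lf (nat_lit 87195) (.g (nat_lit 1813) (.e (nat_lit 1999) (nat_lit 137) (.e (nat_lit 663566) (nat_lit 4) (.e (nat_lit 65619) (nat_lit 10) (.e (nat_lit 344097) (nat_lit 18) (.e (nat_lit 5906) (nat_lit 320) (.e (nat_lit 1221) (nat_lit 90) (.e (nat_lit 81931) (nat_lit 20) .nil))))))) (.g (nat_lit 4) .nil .nil))) 
(.lf (nat_lit 87227) (.g (nat_lit 399) (.e (nat_lit 1999) (nat_lit 137) (.e (nat_lit 663567) (nat_lit 4) (.e (nat_lit 65601) (nat_lit 9) .nil))) .nil))))) (.nd (nat_lit 3) (.nd (nat_lit 4) (.nd (nat_lit 5) 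
(.lf (nat_lit 87175) (.g (nat_lit 3887) (.e (nat_lit 1999) (nat_lit 137) (.e (nat_lit 663565) (nat_lit 3) (.e (nat_lit 57479) (nat_lit 28) (.e (nat_lit 557101) (nat_lit 13) (.e (nat_lit 172097) (nat_lit 9) (.e (nat_lit 426125) (nat_lit 2) (.e (nat_lit 196666) (nat_lit 13) (.e (nat_lit 65539) (nat_lit 0) .nil)))))))) (.g (nat_lit 6) .nil .nil))) 
(.lf (nat_lit 87207) (.g (nat_lit 1435) (.e (nat_lit 1999) (nat_lit 137) (.e (nat_lit 663567) (nat_lit 4) (.e (nat_lit 65584) (nat_lit 7) (.e (nat_lit 319506) (nat_lit 10) (.e (nat_lit 5723) (nat_lit 312) (.e (nat_lit 317) (nat_lit 23) (.e (nat_lit 352287) (nat_lit 20) .nil))))))) (.g (nat_lit 4) .nil .nil)))) (.nd (nat_lit 5) 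
(.lf (nat_lit 87191) (.g (nat_lit 1674) (.e (nat_lit 1999) (nat_lit 137) (.e (nat_lit 663566) (nat_lit 4) (.e (nat_lit 65610) (nat_lit 10) (.e (nat_lit 344169) (nat_lit 40) (.e (nat_lit 671764) (nat_lit 6) (.e (nat_lit 81933) (nat_lit 20) .nil)))))) (.g (nat_lit 5) .nil .nil))) 
(.lf (nat_lit 87223) (.g (nat_lit 2661) (.e (nat_lit 1999) (nat_lit 137) (.e (nat_lit 663567) (nat_lit 4) (.e (nat_lit 65598) (nat_lit 9) (.e (nat_lit 335997) (nat_lit 1) (.e (nat_lit 57870) (nat_lit 264) (.e (nat_lit 1219) (nat_lit 90) (.e (nat_lit 81935) (nat_lit 20) .nil))))))) (.g (nat_lit 6) .nil .nil))))) (.nd (nat_lit 4) (.nd (nat_lit 5) 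
(.lf (nat_lit 87183) (.g (nat_lit 1811) (.e (nat_lit 1999) (nat_lit 137) (.e (nat_lit 663565) (nat_lit 3) (.e (nat_lit 57520) (nat_lit 44) (.e (nat_lit 688177) (nat_lit 16) (.e (nat_lit 65586) (nat_lit 7) (.e (nat_lit 319531) (nat_lit 16) (.e (nat_lit 286748) (nat_lit 9) (.e (nat_lit 335891) (nat_lit 0) .nil)))))))) (.g (nat_lit 4) .nil .nil))) 
(.lf (nat_lit 87215) (.g (nat_lit 1979) (.e (nat_lit 1999) (nat_lit 137) (.e (nat_lit 663567) (nat_lit 4) (.e (nat_lit 65586) (nat_lit 7) (.e (nat_lit 319539) (nat_lit 19) (.e (nat_lit 311358) (nat_lit 29) (.e (nat_lit 352285) (nat_lit 20) .nil)))))) (.g (nat_lit 0) .nil .nil)))) (.nd (nat_lit 5) 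
(.lf (nat_lit 87199) (.g (nat_lit 2111) (.e (nat_lit 1999) (nat_lit 137) (.e (nat_lit 663567) (nat_lit 4) (.e (nat_lit 65583) (nat_lit 7) (.e (nat_lit 319506) (nat_lit 10) (.e (nat_lit 5721) (nat_lit 312) (.e (nat_lit 317) (nat_lit 23) (.e (nat_lit 352285) (nat_lit 20) .nil))))))) (.g (nat_lit 5) .nil .nil))) 
(.lf (nat_lit 87231) (.g (nat_lit 2676) (.e (nat_lit 1999) (nat_lit 137) (.e (nat_lit 663567) (nat_lit 4) (.e (nat_lit 65604) (nat_lit 9) (.e (nat_lit 335997) (nat_lit 1) (.e (nat_lit 57872) (nat_lit 264) (.e (nat_lit 1219) (nat_lit 90) (.e (nat_lit 81933) (nat_lit 20) .nil))))))) (.g (nat_lit 6) .nil .nil)))))))))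

noncomputable def tv1186 : DT := (.nd (nat_lit 0) (.nd (nat_lit 1) (.nd (nat_lit 2) (.nd (nat_lit 3) (.nd (nat_lit 4) (.nd (nat_lit 5) 
(.lf (nat_lit 87232) (.g (nat_lit 3123) (.e (nat_lit 1999) (nat_lit 137) (.e (nat_lit 663567) (nat_lit 4) (.e (nat_lit 65604) (nat_lit 9) (.e (nat_lit 335997) (nat_lit 1) (.e (nat_lit 57872) (nat_lit 264) (.e (nat_lit 1221) (nat_lit 90) (.e (nat_lit 81931) (nat_lit 20) .nil))))))) (.g (nat_lit 7) .nil .nil))) 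
(.lf (nat_lit 87264) (.g (nat_lit 2259) (.e (nat_lit 1999) (nat_lit 137) (.e (nat_lit 663567) (nat_lit 4) (.e (nat_lit 65619) (nat_lit 10) (.e (nat_lit 344168) (nat_lit 40) (.e (nat_lit 671764) (nat_lit 6) (.e (nat_lit 81931) (nat_lit 20) .nil)))))) (.g (nat_lit 6) .nil .nil)))) (.nd (nat_lit 5) 
(.lf (nat_lit 87248) (.g (nat_lit 1652) (.e (nat_lit 1999) (nat_lit 137) (.e (nat_lit 663567) (nat_lit 4) (.e (nat_lit 65616) (nat_lit 10) (.e (nat_lit 344168) (nat_lit 40) (.e (nat_lit 671764) (nat_lit 6) (.e (nat_lit 81933) (nat_lit 20) .nil)))))) (.g (nat_lit 5) .nil .nil))) 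
(.lf (nat_lit 87280) (.g (nat_lit 2190) (.e (nat_lit 1999) (nat_lit 137) (.e (nat_lit 663567) (nat_lit 4) (.e (nat_lit 65623) (nat_lit 12) (.e (nat_lit 385094) (nat_lit 49) (.e (nat_lit 778326) (nat_lit 6) (.e (nat_lit 81935) (nat_lit 20) .nil)))))) (.g (nat_lit 6) .nil .nil))))) (.nd (nat_lit 4) (.nd (nat_lit 5) 
(.lf (nat_lit 87240) (.g (nat_lit 1960) (.e (nat_lit 1999) (nat_lit 137) (.e (nat_lit 663567) (nat_lit 4) (.e (nat_lit 65610) (nat_lit 10) (.e (nat_lit 344168) (nat_lit 40) (.e (nat_lit 671764) (nat_lit 6) (.e (nat_lit 81933) (nat_lit 20) .nil)))))) (.g (nat_lit 5) .nil .nil))) 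
(.lf (nat_lit 87272) (.g (nat_lit 1299) (.e (nat_lit 1999) (nat_lit 137) (.e (nat_lit 663567) (nat_lit 4) (.e (nat_lit 65622) (nat_lit 12) (.e (nat_lit 385092) (nat_lit 49) (.e (nat_lit 778326) (nat_lit 6) (.e (nat_lit 81931) (nat_lit 20) .nil)))))) (.g (nat_lit 4) .nil .nil)))) (.nd (nat_lit 5) 
(.lf (nat_lit 87256) (.g (nat_lit 2095) (.e (nat_lit 1999) (nat_lit 137) (.e (nat_lit 663567) (nat_lit 4) (.e (nat_lit 65617) (nat_lit 10) (.e (nat_lit 344168) (nat_lit 40) (.e (nat_lit 671764) (nat_lit 6) (.e (nat_lit 81934) (nat_lit 20) .nil)))))) (.g (nat_lit 5) .nil .nil))) 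
(.lf (nat_lit 87288) (.g (nat_lit 1327) (.e (nat_lit 1999) (nat_lit 137) (.e (nat_lit 663567) (nat_lit 4) (.e (nat_lit 65628) (nat_lit 14) (.e (nat_lit 401436) (nat_lit 9) (.e (nat_lit 426542) (nat_lit 29) (.e (nat_lit 352286) (nat_lit 20) .nil)))))) (.g (nat_lit 4) .nil .nil)))))) (.nd (nat_lit 3) (.nd (nat_lit 4) (.nd (nat_lit 5) 
(.lf (nat_lit 87236) (.g (nat_lit 3145) (.e (nat_lit 1999) (nat_lit 137) (.e (nat_lit 663567) (nat_lit 4) (.e (nat_lit 65610) (nat_lit 10) (.e (nat_lit 344097) (nat_lit 18) (.e (nat_lit 5906) (nat_lit 320) (.e (nat_lit 1221) (nat_lit 90) (.e (nat_lit 81931) (nat_lit 20) .nil))))))) (.g (nat_lit 6) .nil .nil))) 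
(.lf (nat_lit 87268) (.g (nat_lit 1993) (.e (nat_lit 1999) (nat_lit 137) (.e (nat_lit 663567) (nat_lit 4) (.e (nat_lit 65620) (nat_lit 10) (.e (nat_lit 344168) (nat_lit 40) (.e (nat_lit 671764) (nat_lit 6) (.e (nat_lit 81931) (nat_lit 20) .nil)))))) (.g (nat_lit 6) .nil .nil)))) (.nd (nat_lit 5) 
(.lf (nat_lit 87252) (.g (nat_lit 1911) (.e (nat_lit 1999) (nat_lit 137) (.e (nat_lit 663567) (nat_lit 4) (.e (nat_lit 65617) (nat_lit 10) (.e (nat_lit 344091) (nat_lit 18) (.e (nat_lit 5896) (nat_lit 320) (.e (nat_lit 7936) (nat_lit 90) (.e (nat_lit 81933) (nat_lit 20) .nil))))))) (.g (nat_lit 4) .nil .nil))) 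
(.lf (nat_lit 87284) (.g (nat_lit 2541) (.e (nat_lit 1999) (nat_lit 137) (.e (nat_lit 663567) (nat_lit 4) (.e (nat_lit 65624) (nat_lit 12) (.e (nat_lit 385105) (nat_lit 50) (.e (nat_lit 786478) (nat_lit 29) (.e (nat_lit 352287) (nat_lit 20) .nil)))))) (.g (nat_lit 5) .nil .nil))))) (.nd (nat_lit 4) (.nd (nat_lit 5) 
(.lf (nat_lit 87244) (.g (nat_lit 1695) (.e (nat_lit 1999) (nat_lit 137) (.e (nat_lit 663567) (nat_lit 4) (.e (nat_lit 65611) (nat_lit 10) (.e (nat_lit 344168) (nat_lit 40) (.e (nat_lit 671764) (nat_lit 6) (.e (nat_lit 81933) (nat_lit 20) .nil)))))) (.g (nat_lit 5) .nil .nil))) 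
(.lf (nat_lit 87276) (.g (nat_lit 2092) (.e (nat_lit 1999) (nat_lit 137) (.e (nat_lit 663567) (nat_lit 4) (.e (nat_lit 65622) (nat_lit 12) (.e (nat_lit 385106) (nat_lit 50) (.e (nat_lit 786478) (nat_lit 29) (.e (nat_lit 352287) (nat_lit 20) .nil)))))) (.g (nat_lit 5) .nil .nil)))) (.nd (nat_lit 5) 
(.lf (nat_lit 87260) (.g (nat_lit 2211) (.e (nat_lit 1999) (nat_lit 137) (.e (nat_lit 663567) (nat_lit 4) (.e (nat_lit 65619) (nat_lit 10) (.e (nat_lit 344097) (nat_lit 18) (.e (nat_lit 5906) (nat_lit 320) (.e (nat_lit 1219) (nat_lit 90) (.e (nat_lit 81933) (nat_lit 20) .nil))))))) (.g (nat_lit 5) .nil .nil))) 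
(.lf (nat_lit 87292) (.g (nat_lit 1762) (.e (nat_lit 1999) (nat_lit 137) (.e (nat_lit 663567) (nat_lit 4) (.e (nat_lit 65628) (nat_lit 14) (.e (nat_lit 401459) (nat_lit 13) (.e (nat_lit 483386) (nat_lit 23) .nil))))) .nil)))))) (.nd (nat_lit 2) (.nd (nat_lit 3) (.nd (nat_lit 4) (.nd (nat_lit 5) 
(.lf (nat_lit 87234) (.g (nat_lit 1943) (.e (nat_lit 1999) (nat_lit 137) (.e (nat_lit 663567) (nat_lit 4) (.e (nat_lit 65610) (nat_lit 10) (.e (nat_lit 344097) (nat_lit 18) (.e (nat_lit 5906) (nat_lit 320) .nil))))) .nil)) 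
(.lf (nat_lit 87266) (.g (nat_lit 1944) (.e (nat_lit 1999) (nat_lit 137) (.e (nat_lit 663567) (nat_lit 4) (.e (nat_lit 65619) (nat_lit 10) (.e (nat_lit 344168) (nat_lit 40) (.e (nat_lit 671764) (nat_lit 6) (.e (nat_lit 81934) (nat_lit 20) .nil)))))) (.g (nat_lit 5) .nil .nil)))) (.nd (nat_lit 5) 
(.lf (nat_lit 87250) (.g (nat_lit 2082) (.e (nat_lit 1999) (nat_lit 137) (.e (nat_lit 663567) (nat_lit 4) (.e (nat_lit 65616) (nat_lit 10) (.e (nat_lit 344168) (nat_lit 40) (.e (nat_lit 671764) (nat_lit 6) (.e (nat_lit 81935) (nat_lit 20) .nil)))))) (.g (nat_lit 6) .nil .nil))) 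
(.lf (nat_lit 87282) (.g (nat_lit 1764) (.e (nat_lit 1999) (nat_lit 137) (.e (nat_lit 663567) (nat_lit 4) (.e (nat_lit 65624) (nat_lit 12) (.e (nat_lit 385094) (nat_lit 49) (.e (nat_lit 778327) (nat_lit 6) .nil))))) .nil)))) (.nd (nat_lit 4) (.nd (nat_lit 5) 
(.lf (nat_lit 87242) (.g (nat_lit 2417) (.e (nat_lit 1999) (nat_lit 137) (.e (nat_lit 663567) (nat_lit 4) (.e (nat_lit 65610) (nat_lit 10) (.e (nat_lit 344168) (nat_lit 40) (.e (nat_lit 671764) (nat_lit 6) (.e (nat_lit 81935) (nat_lit 20) .nil)))))) (.g (nat_lit 0) .nil .nil))) 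
(.lf (nat_lit 87274) (.g (nat_lit 1252) (.e (nat_lit 1999) (nat_lit 137) (.e (nat_lit 663567) (nat_lit 4) (.e (nat_lit 65622) (nat_lit 12) (.e (nat_lit 385092) (nat_lit 49) (.e (nat_lit 786176) (nat_lit 6) .nil))))) .nil))) (.nd (nat_lit 5) 
(.lf (nat_lit 87258) (.g (nat_lit 1715) (.e (nat_lit 1999) (nat_lit 137) (.e (nat_lit 663567) (nat_lit 4) (.e (nat_lit 65619) (nat_lit 10) (.e (nat_lit 344090) (nat_lit 18) (.e (nat_lit 5896) (nat_lit 320) .nil))))) .nil)) 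
(.lf (nat_lit 87290) (.g (nat_lit 1730) (.e (nat_lit 1999) (nat_lit 137) (.e (nat_lit 663567) (nat_lit 4) (.e (nat_lit 65628) (nat_lit 14) (.e (nat_lit 401444) (nat_lit 9) (.e (nat_lit 426541) (nat_lit 29) .nil))))) .nil))))) (.nd (nat_lit 3) (.nd (nat_lit 4) (.nd (nat_lit 5) 
(.lf (nat_lit 87238) (.g (nat_lit 1918) (.e (nat_lit 1999) (nat_lit 137) (.e (nat_lit 663567) (nat_lit 4) (.e (nat_lit 65610) (nat_lit 10) (.e (nat_lit 344097) (nat_lit 18) (.e (nat_lit 5907) (nat_lit 320) (.e (nat_lit 1219) (nat_lit 90) (.e (nat_lit 81934) (nat_lit 20) .nil))))))) (.g (nat_lit 4) .nil .nil))) 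
(.lf (nat_lit 87270) (.g (nat_lit 1700) (.e (nat_lit 1999) (nat_lit 137) (.e (nat_lit 663567) (nat_lit 4) (.e (nat_lit 65620) (nat_lit 10) (.e (nat_lit 344168) (nat_lit 40) (.e (nat_lit 671764) (nat_lit 6) (.e (nat_lit 81934) (nat_lit 20) .nil)))))) (.g (nat_lit 5) .nil .nil)))) (.nd (nat_lit 5) 
(.lf (nat_lit 87254) (.g (nat_lit 2395) (.e (nat_lit 1999) (nat_lit 137) (.e (nat_lit 663567) (nat_lit 4) (.e (nat_lit 65617) (nat_lit 10) (.e (nat_lit 344168) (nat_lit 40) (.e (nat_lit 671764) (nat_lit 6) (.e (nat_lit 81931) (nat_lit 20) .nil)))))) (.g (nat_lit 6) .nil .nil))) 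
(.lf (nat_lit 87286) (.g (nat_lit 950) (.e (nat_lit 1999) (nat_lit 137) (.e (nat_lit 663567) (nat_lit 4) (.e (nat_lit 65628) (nat_lit 14) (.e (nat_lit 401436) (nat_lit 9) .nil)))) .nil)))) (.nd (nat_lit 4) (.nd (nat_lit 5) 
(.lf (nat_lit 87246) (.g (nat_lit 2110) (.e (nat_lit 1999) (nat_lit 137) (.e (nat_lit 663567) (nat_lit 4) (.e (nat_lit 65611) (nat_lit 10) (.e (nat_lit 344168) (nat_lit 40) (.e (nat_lit 671764) (nat_lit 6) (.e (nat_lit 81935) (nat_lit 20) .nil)))))) (.g (nat_lit 6) .nil .nil))) 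
(.lf (nat_lit 87278) (.g (nat_lit 1585) (.e (nat_lit 1999) (nat_lit 137) (.e (nat_lit 663567) (nat_lit 4) (.e (nat_lit 65623) (nat_lit 12) (.e (nat_lit 385093) (nat_lit 49) (.e (nat_lit 786176) (nat_lit 6) .nil))))) .nil))) (.nd (nat_lit 5) 
(.lf (nat_lit 87262) (.g (nat_lit 2803) (.e (nat_lit 1999) (nat_lit 137) (.e (nat_lit 663567) (nat_lit 4) (.e (nat_lit 65619) (nat_lit 10) (.e (nat_lit 344097) (nat_lit 18) (.e (nat_lit 5906) (nat_lit 320) (.e (nat_lit 1221) (nat_lit 90) (.e (nat_lit 81931) (nat_lit 20) .nil))))))) (.g (nat_lit 6) .nil .nil))) 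
(.lf (nat_lit 87294) (.g (nat_lit 2582) (.e (nat_lit 1999) (nat_lit 137) (.e (nat_lit 663567) (nat_lit 4) (.e (nat_lit 65628) (nat_lit 14) (.e (nat_lit 401459) (nat_lit 13) (.e (nat_lit 483386) (nat_lit 23) (.e (nat_lit 335908) (nat_lit 0) .nil)))))) (.g (nat_lit 0) .nil .nil)))))))) (.nd (nat_lit 1) (.nd (nat_lit 2) (.nd (nat_lit 3) (.nd (nat_lit 4) (.nd (nat_lit 5) 
(.lf (nat_lit 87233) (.g (nat_lit 1780) (.e (nat_lit 1999) (nat_lit 137) (.e (nat_lit 663567) (nat_lit 4) (.e (nat_lit 65610) (nat_lit 10) (.e (nat_lit 344097) (nat_lit 18) (.e (nat_lit 5905) (nat_lit 320) .nil))))) .nil)) 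
(.lf (nat_lit 87265) (.g (nat_lit 1983) (.e (nat_lit 1999) (nat_lit 137) (.e (nat_lit 663567) (nat_lit 4) (.e (nat_lit 65619) (nat_lit 10) (.e (nat_lit 344168) (nat_lit 40) (.e (nat_lit 671764) (nat_lit 6) (.e (nat_lit 81933) (nat_lit 20) .nil)))))) (.g (nat_lit 5) .nil .nil)))) (.nd (nat_lit 5) 
(.lf (nat_lit 87249) (.g (nat_lit 1646) (.e (nat_lit 1999) (nat_lit 137) (.e (nat_lit 663567) (nat_lit 4) (.e (nat_lit 65616) (nat_lit 10) (.e (nat_lit 344168) (nat_lit 40) (.e (nat_lit 671764) (nat_lit 6) (.e (nat_lit 81934) (nat_lit 20) .nil)))))) (.g (nat_lit 5) .nil .nil))) 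
(.lf (nat_lit 87281) (.g (nat_lit 1550) (.e (nat_lit 1999) (nat_lit 137) (.e (nat_lit 663567) (nat_lit 4) (.e (nat_lit 65624) (nat_lit 12) (.e (nat_lit 385092) (nat_lit 49) (.e (nat_lit 786176) (nat_lit 6) (.e (nat_lit 81931) (nat_lit 20) .nil)))))) (.g (nat_lit 4) .nil .nil))))) (.nd (nat_lit 4) (.nd (nat_lit 5) 
(.lf (nat_lit 87241) (.g (nat_lit 1983) (.e (nat_lit 1999) (nat_lit 137) (.e (nat_lit 663567) (nat_lit 4) (.e (nat_lit 65610) (nat_lit 10) (.e (nat_lit 344168) (nat_lit 40) (.e (nat_lit 671764) (nat_lit 6) (.e (nat_lit 81934) (nat_lit 20) .nil)))))) (.g (nat_lit 5) .nil .nil))) 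
(.lf (nat_lit 87273) (.g (nat_lit 1418) (.e (nat_lit 1999) (nat_lit 137) (.e (nat_lit 663567) (nat_lit 4) (.e (nat_lit 65622) (nat_lit 12) (.e (nat_lit 385092) (nat_lit 49) (.e (nat_lit 778326) (nat_lit 6) (.e (nat_lit 81935) (nat_lit 20) .nil)))))) (.g (nat_lit 4) .nil .nil)))) (.nd (nat_lit 5) 
(.lf (nat_lit 87257) (.g (nat_lit 2545) (.e (nat_lit 1999) (nat_lit 137) (.e (nat_lit 663567) (nat_lit 4) (.e (nat_lit 65617) (nat_lit 10) (.e (nat_lit 344168) (nat_lit 40) (.e (nat_lit 671764) (nat_lit 6) (.e (nat_lit 81935) (nat_lit 20) .nil)))))) (.g (nat_lit 6) .nil .nil))) 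
(.lf (nat_lit 87289) (.g (nat_lit 2378) (.e (nat_lit 1999) (nat_lit 137) (.e (nat_lit 663567) (nat_lit 4) (.e (nat_lit 65628) (nat_lit 14) (.e (nat_lit 401436) (nat_lit 9) (.e (nat_lit 426542) (nat_lit 29) (.e (nat_lit 352287) (nat_lit 20) .nil)))))) (.g (nat_lit 0) .nil .nil)))))) (.nd (nat_lit 3) (.nd (nat_lit 4) (.nd (nat_lit 5) 
(.lf (nat_lit 87237) (.g (nat_lit 1722) (.e (nat_lit 1999) (nat_lit 137) (.e (nat_lit 663567) (nat_lit 4) (.e (nat_lit 65610) (nat_lit 10) (.e (nat_lit 344097) (nat_lit 18) (.e (nat_lit 5907) (nat_lit 320) .nil))))) .nil)) 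
(.lf (nat_lit 87269) (.g (nat_lit 1716) (.e (nat_lit 1999) (nat_lit 137) (.e (nat_lit 663567) (nat_lit 4) (.e (nat_lit 65620) (nat_lit 10) (.e (nat_lit 344168) (nat_lit 40) (.e (nat_lit 671764) (nat_lit 6) (.e (nat_lit 81933) (nat_lit 20) .nil)))))) (.g (nat_lit 5) .nil .nil)))) (.nd (nat_lit 5) 
(.lf (nat_lit 87253) (.g (nat_lit 2068) (.e (nat_lit 1999) (nat_lit 137) (.e (nat_lit 663567) (nat_lit 4) (.e (nat_lit 65617) (nat_lit 10) (.e (nat_lit 344091) (nat_lit 18) (.e (nat_lit 5896) (nat_lit 320) (.e (nat_lit 7936) (nat_lit 90) (.e (nat_lit 81935) (nat_lit 20) .nil))))))) (.g (nat_lit 4) .nil .nil))) 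
(.lf (nat_lit 87285) (.g (nat_lit 367) (.e (nat_lit 1999) (nat_lit 137) (.e (nat_lit 663567) (nat_lit 4) (.e (nat_lit 65628) (nat_lit 14) .nil))) .nil)))) (.nd (nat_lit 4) (.nd (nat_lit 5) 
(.lf (nat_lit 87245) (.g (nat_lit 1682) (.e (nat_lit 1999) (nat_lit 137) (.e (nat_lit 663567) (nat_lit 4) (.e (nat_lit 65611) (nat_lit 10) (.e (nat_lit 344168) (nat_lit 40) (.e (nat_lit 671764) (nat_lit 6) (.e (nat_lit 81934) (nat_lit 20) .nil)))))) (.g (nat_lit 5) .nil .nil))) 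
(.lf (nat_lit 87277) (.g (nat_lit 1555) (.e (nat_lit 1999) (nat_lit 137) (.e (nat_lit 663567) (nat_lit 4) (.e (nat_lit 65623) (nat_lit 12) (.e (nat_lit 385093) (nat_lit 49) (.e (nat_lit 778326) (nat_lit 6) .nil))))) .nil))) (.nd (nat_lit 5) 
(.lf (nat_lit 87261) (.g (nat_lit 2703) (.e (nat_lit 1999) (nat_lit 137) (.e (nat_lit 663567) (nat_lit 4) (.e (nat_lit 65619) (nat_lit 10) (.e (nat_lit 344097) (nat_lit 18) (.e (nat_lit 5906) (nat_lit 320) (.e (nat_lit 1219) (nat_lit 90) (.e (nat_lit 81935) (nat_lit 20) .nil))))))) (.g (nat_lit 6) .nil .nil))) 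
(.lf (nat_lit 87293) (.g (nat_lit 2765) (.e (nat_lit 1999) (nat_lit 137) (.e (nat_lit 663567) (nat_lit 4) (.e (nat_lit 65628) (nat_lit 14) (.e (nat_lit 401459) (nat_lit 13) (.e (nat_lit 483386) (nat_lit 23) (.e (nat_lit 335905) (nat_lit 0) .nil)))))) (.g (nat_lit 6) .nil .nil))))))) (.nd (nat_lit 2) (.nd (nat_lit 3) (.nd (nat_lit 4) (.nd (nat_lit 5) 
(.lf (nat_lit 87235) (.g (nat_lit 2573) (.e (nat_lit 1999) (nat_lit 137) (.e (nat_lit 663567) (nat_lit 4) (.e (nat_lit 65610) (nat_lit 10) (.e (nat_lit 344097) (nat_lit 18) (.e (nat_lit 5906) (nat_lit 320) (.e (nat_lit 1219) (nat_lit 90) (.e (nat_lit 81933) (nat_lit 20) .nil))))))) (.g (nat_lit 5) .nil .nil))) 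
(.lf (nat_lit 87267) (.g (nat_lit 2396) (.e (nat_lit 1999) (nat_lit 137) (.e (nat_lit 663567) (nat_lit 4) (.e (nat_lit 65619) (nat_lit 10) (.e (nat_lit 344168) (nat_lit 40) (.e (nat_lit 671764) (nat_lit 6) (.e (nat_lit 81935) (nat_lit 20) .nil)))))) (.g (nat_lit 6) .nil .nil)))) (.nd (nat_lit 5) 
(.lf (nat_lit 87251) (.g (nat_lit 1883) (.e (nat_lit 1999) (nat_lit 137) (.e (nat_lit 663567) (nat_lit 4) (.e (nat_lit 65617) (nat_lit 10) (.e (nat_lit 344091) (nat_lit 18) (.e (nat_lit 5896) (nat_lit 320) .nil))))) .nil)) 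
(.lf (nat_lit 87283) (.g (nat_lit 1820) (.e (nat_lit 1999) (nat_lit 137) (.e (nat_lit 663567) (nat_lit 4) (.e (nat_lit 65624) (nat_lit 12) (.e (nat_lit 385094) (nat_lit 49) (.e (nat_lit 778327) (nat_lit 6) (.e (nat_lit 81933) (nat_lit 20) .nil)))))) (.g (nat_lit 4) .nil .nil))))) (.nd (nat_lit 4) (.nd (nat_lit 5) 
(.lf (nat_lit 87243) (.g (nat_lit 1952) (.e (nat_lit 1999) (nat_lit 137) (.e (nat_lit 663567) (nat_lit 4) (.e (nat_lit 65611) (nat_lit 10) (.e (nat_lit 344168) (nat_lit 40) (.e (nat_lit 671764) (nat_lit 6) (.e (nat_lit 81931) (nat_lit 20) .nil)))))) (.g (nat_lit 6) .nil .nil))) 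
(.lf (nat_lit 87275) (.g (nat_lit 1269) (.e (nat_lit 1999) (nat_lit 137) (.e (nat_lit 663567) (nat_lit 4) (.e (nat_lit 65622) (nat_lit 12) (.e (nat_lit 385094) (nat_lit 49) (.e (nat_lit 778327) (nat_lit 6) .nil))))) .nil))) (.nd (nat_lit 5) 
(.lf (nat_lit 87259) (.g (nat_lit 2424) (.e (nat_lit 1999) (nat_lit 137) (.e (nat_lit 663567) (nat_lit 4) (.e (nat_lit 65619) (nat_lit 10) (.e (nat_lit 344097) (nat_lit 18) (.e (nat_lit 5905) (nat_lit 320) (.e (nat_lit 1219) (nat_lit 90) (.e (nat_lit 81933) (nat_lit 20) .nil))))))) (.g (nat_lit 5) .nil .nil))) 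
(.lf (nat_lit 87291) (.g (nat_lit 1979) (.e (nat_lit 1999) (nat_lit 137) (.e (nat_lit 663567) (nat_lit 4) (.e (nat_lit 65628) (nat_lit 14) (.e (nat_lit 401444) (nat_lit 9) (.e (nat_lit 426541) (nat_lit 29) (.e (nat_lit 352287) (nat_lit 20) .nil)))))) (.g (nat_lit 4) .nil .nil)))))) (.nd (nat_lit 3) (.nd (nat_lit 4) (.nd (nat_lit 5) 
(.lf (nat_lit 87239) (.g (nat_lit 2263) (.e (nat_lit 1999) (nat_lit 137) (.e (nat_lit 663567) (nat_lit 4) (.e (nat_lit 65610) (nat_lit 10) (.e (nat_lit 344168) (nat_lit 40) (.e (nat_lit 671764) (nat_lit 6) (.e (nat_lit 81931) (nat_lit 20) .nil)))))) (.g (nat_lit 0) .nil .nil))) 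
(.lf (nat_lit 87271) (.g (nat_lit 2149) (.e (nat_lit 1999) (nat_lit 137) (.e (nat_lit 663567) (nat_lit 4) (.e (nat_lit 65620) (nat_lit 10) (.e (nat_lit 344168) (nat_lit 40) (.e (nat_lit 671764) (nat_lit 6) (.e (nat_lit 81935) (nat_lit 20) .nil)))))) (.g (nat_lit 6) .nil .nil)))) (.nd (nat_lit 5) 
(.lf (nat_lit 87255) (.g (nat_lit 2121) (.e (nat_lit 1999) (nat_lit 137) (.e (nat_lit 663567) (nat_lit 4) (.e (nat_lit 65617) (nat_lit 10) (.e (nat_lit 344168) (nat_lit 40) (.e (nat_lit 671764) (nat_lit 6) (.e (nat_lit 81933) (nat_lit 20) .nil)))))) (.g (nat_lit 5) .nil .nil))) 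
(.lf (nat_lit 87287) (.g (nat_lit 2141) (.e (nat_lit 1999) (nat_lit 137) (.e (nat_lit 663567) (nat_lit 4) (.e (nat_lit 65628) (nat_lit 14) (.e (nat_lit 401436) (nat_lit 9) (.e (nat_lit 426542) (nat_lit 29) (.e (nat_lit 352283) (nat_lit 20) .nil)))))) (.g (nat_lit 6) .nil .nil))))) (.nd (nat_lit 4) (.nd (nat_lit 5) 
(.lf (nat_lit 87247) (.g (nat_lit 1937) (.e (nat_lit 1999) (nat_lit 137) (.e (nat_lit 663567) (nat_lit 4) (.e (nat_lit 65616) (nat_lit 10) (.e (nat_lit 344168) (nat_lit 40) (.e (nat_lit 671764) (nat_lit 6) (.e (nat_lit 81931) (nat_lit 20) .nil)))))) (.g (nat_lit 6) .nil .nil))) 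
(.lf (nat_lit 87279) (.g (nat_lit 2054) (.e (nat_lit 1999) (nat_lit 137) (.e (nat_lit 663567) (nat_lit 4) (.e (nat_lit 65623) (nat_lit 12) (.e (nat_lit 385094) (nat_lit 49) (.e (nat_lit 778326) (nat_lit 6) (.e (nat_lit 81931) (nat_lit 20) .nil)))))) (.g (nat_lit 5) .nil .nil)))) (.nd (nat_lit 5) 
(.lf (nat_lit 87263) (.g (nat_lit 1627) (.e (nat_lit 1999) (nat_lit 137) (.e (nat_lit 663567) (nat_lit 4) (.e (nat_lit 65619) (nat_lit 10) (.e (nat_lit 344097) (nat_lit 18) (.e (nat_lit 5906) (nat_lit 320) (.e (nat_lit 7936) (nat_lit 90) (.e (nat_lit 81935) (nat_lit 20) .nil))))))) (.g (nat_lit 4) .nil .nil))) 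
(.lf (nat_lit 87295) (.g (nat_lit 1660) (.e (nat_lit 1999) (nat_lit 137) (.e (nat_lit 663567) (nat_lit 4) (.e (nat_lit 65630) (nat_lit 14) (.e (nat_lit 401436) (nat_lit 9) (.e (nat_lit 426542) (nat_lit 29) (.e (nat_lit 352286) (nat_lit 20) .nil)))))) (.g (nat_lit 4) .nil .nil)))))))))

noncomputable def tv1187 : DT := (.nd (nat_lit 0) (.nd (nat_lit 1) (.nd (nat_lit 2) (.nd (nat_lit 3) (.nd (nat_lit 4) (.nd (nat_lit 5) 
(.lf (nat_lit 87296) (.g (nat_lit 1568) (.e (nat_lit 1999) (nat_lit 137) (.e (nat_lit 663567) (nat_lit 4) (.e (nat_lit 65630) (nat_lit 14) (.e (nat_lit 401454) (nat_lit 12) .nil)))) .nil)) 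
(.lf (nat_lit 87328) (.g (nat_lit 2358) (.e (nat_lit 1999) (nat_lit 137) (.e (nat_lit 663569) (nat_lit 6) (.e (nat_lit 81948) (nat_lit 21) (.e (nat_lit 57872) (nat_lit 264) (.e (nat_lit 1219) (nat_lit 90) (.e (nat_lit 81933) (nat_lit 20) .nil)))))) (.g (nat_lit 5) .nil .nil)))) (.nd (nat_lit 5) 
(.lf (nat_lit 87312) (.g (nat_lit 901) (.e (nat_lit 1999) (nat_lit 137) (.e (nat_lit 663569) (nat_lit 6) (.e (nat_lit 81922) (nat_lit 0) (.e (nat_lit 3630) (nat_lit 227) (.e (nat_lit 786176) (nat_lit 6) (.e (nat_lit 81931) (nat_lit 20) .nil)))))) (.g (nat_lit 4) .nil .nil))) 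
(.lf (nat_lit 87344) (.g (nat_lit 1110) (.e (nat_lit 1999) (nat_lit 137) (.e (nat_lit 663569) (nat_lit 6) (.e (nat_lit 81959) (nat_lit 24) (.e (nat_lit 123185) (nat_lit 264) (.e (nat_lit 7936) (nat_lit 90) .nil))))) .nil)))) (.nd (nat_lit 4) (.nd (nat_lit 5) 
(.lf (nat_lit 87304) (.g (nat_lit 585) (.e (nat_lit 1999) (nat_lit 137) (.e (nat_lit 663568) (nat_lit 5) (.e (nat_lit 73782) (nat_lit 32) (.e (nat_lit 3089) (nat_lit 191) .nil)))) .nil)) 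
(.lf (nat_lit 87336) (.g (nat_lit 1023) (.e (nat_lit 1999) (nat_lit 137) (.e (nat_lit 663569) (nat_lit 6) (.e (nat_lit 81957) (nat_lit 24) (.e (nat_lit 123185) (nat_lit 264) (.e (nat_lit 7936) (nat_lit 90) .nil))))) .nil))) (.nd (nat_lit 5) 
(.lf (nat_lit 87320) (.g (nat_lit 1373) (.e (nat_lit 1999) (nat_lit 137) (.e (nat_lit 663569) (nat_lit 6) (.e (nat_lit 81943) (nat_lit 20) (.e (nat_lit 2003) (nat_lit 138) (.e (nat_lit 671764) (nat_lit 6) (.e (nat_lit 81934) (nat_lit 20) .nil)))))) (.g (nat_lit 5) .nil .nil))) 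
(.lf (nat_lit 87352) (.g (nat_lit 4506) (.e (nat_lit 2000) (nat_lit 138) (.e (nat_lit 671759) (nat_lit 3) (.e (nat_lit 57480) (nat_lit 28) (.e (nat_lit 557108) (nat_lit 15) (.e (nat_lit 188452) (nat_lit 23) (.e (nat_lit 204852) (nat_lit 26) (.e (nat_lit 335880) (nat_lit 0) .nil))))))) (.g (nat_lit 6) .nil .nil)))))) (.nd (nat_lit 3) (.nd (nat_lit 4) (.nd (nat_lit 5) 
(.lf (nat_lit 87300) (.g (nat_lit 2068) (.e (nat_lit 1999) (nat_lit 137) (.e (nat_lit 663568) (nat_lit 5) (.e (nat_lit 73781) (nat_lit 32) (.e (nat_lit 3090) (nat_lit 191) (.e (nat_lit 483386) (nat_lit 23) (.e (nat_lit 335905) (nat_lit 0) .nil)))))) (.g (nat_lit 5) .nil .nil))) 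
(.lf (nat_lit 87332) (.g (nat_lit 2687) (.e (nat_lit 1999) (nat_lit 137) (.e (nat_lit 663569) (nat_lit 6) (.e (nat_lit 81950) (nat_lit 21) (.e (nat_lit 57872) (nat_lit 264) (.e (nat_lit 1221) (nat_lit 90) (.e (nat_lit 81931) (nat_lit 20) .nil)))))) (.g (nat_lit 5) .nil .nil)))) (.nd (nat_lit 5) 
(.lf (nat_lit 87316) (.g (nat_lit 569) (.e (nat_lit 1999) (nat_lit 137) (.e (nat_lit 663569) (nat_lit 6) (.e (nat_lit 81931) (nat_lit 20) .nil))) .nil)) 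
(.lf (nat_lit 87348) (.g (nat_lit 1261) (.e (nat_lit 2000) (nat_lit 138) (.e (nat_lit 671748) (nat_lit 0) (.e (nat_lit 1589) (nat_lit 111) (.e (nat_lit 360457) (nat_lit 0) .nil)))) .nil)))) (.nd (nat_lit 4) (.nd (nat_lit 5) 
(.lf (nat_lit 87308) (.g (nat_lit 749) (.e (nat_lit 1999) (nat_lit 137) (.e (nat_lit 663568) (nat_lit 5) (.e (nat_lit 73792) (nat_lit 45) (.e (nat_lit 1385) (nat_lit 105) (.e (nat_lit 319232) (nat_lit 29) .nil))))) .nil)) 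
(.lf (nat_lit 87340) (.g (nat_lit 1785) (.e (nat_lit 1999) (nat_lit 137) (.e (nat_lit 663569) (nat_lit 6) (.e (nat_lit 81958) (nat_lit 24) (.e (nat_lit 123183) (nat_lit 264) (.e (nat_lit 1222) (nat_lit 90) (.e (nat_lit 81935) (nat_lit 20) .nil)))))) (.g (nat_lit 5) .nil .nil)))) (.nd (nat_lit 5) 
(.lf (nat_lit 87324) (.g (nat_lit 1548) (.e (nat_lit 1999) (nat_lit 137) (.e (nat_lit 663569) (nat_lit 6) (.e (nat_lit 81947) (nat_lit 20) (.e (nat_lit 2003) (nat_lit 138) (.e (nat_lit 671764) (nat_lit 6) (.e (nat_lit 81933) (nat_lit 20) .nil)))))) (.g (nat_lit 4) .nil .nil))) 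
(.lf (nat_lit 87356) (.g (nat_lit 4417) (.e (nat_lit 2000) (nat_lit 138) (.e (nat_lit 671759) (nat_lit 3) (.e (nat_lit 57480) (nat_lit 28) (.e (nat_lit 557108) (nat_lit 15) (.e (nat_lit 188452) (nat_lit 23) (.e (nat_lit 204852) (nat_lit 26) (.e (nat_lit 335980) (nat_lit 0) .nil))))))) (.g (nat_lit 7) .nil .nil))))))) (.nd (nat_lit 2) (.nd (nat_lit 3) (.nd (nat_lit 4) (.nd (nat_lit 5) 
(.lf (nat_lit 87298) (.g (nat_lit 2717) (.e (nat_lit 1999) (nat_lit 137) (.e (nat_lit 663567) (nat_lit 4) (.e (nat_lit 65630) (nat_lit 14) (.e (nat_lit 401459) (nat_lit 13) (.e (nat_lit 483386) (nat_lit 23) (.e (nat_lit 335908) (nat_lit 0) .nil)))))) (.g (nat_lit 5) .nil .nil))) 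
(.lf (nat_lit 87330) (.g (nat_lit 569) (.e (nat_lit 1999) (nat_lit 137) (.e (nat_lit 663569) (nat_lit 6) (.e (nat_lit 81949) (nat_lit 21) .nil))) .nil))) (.nd (nat_lit 5) 
(.lf (nat_lit 87314) (.g (nat_lit 1164) (.e (nat_lit 1999) (nat_lit 137) (.e (nat_lit 663569) (nat_lit 6) (.e (nat_lit 81924) (nat_lit 0) (.e (nat_lit 3630) (nat_lit 227) (.e (nat_lit 778326) (nat_lit 6) (.e (nat_lit 81931) (nat_lit 20) .nil)))))) (.g (nat_lit 0) .nil .nil))) 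
(.lf (nat_lit 87346) (.g (nat_lit 774) (.e (nat_lit 2000) (nat_lit 138) (.e (nat_lit 671747) (nat_lit 0) (.e (nat_lit 1586) (nat_lit 111) (.e (nat_lit 360456) (nat_lit 0) .nil)))) .nil)))) (.nd (nat_lit 4) (.nd (nat_lit 5) 
(.lf (nat_lit 87306) (.g (nat_lit 747) (.e (nat_lit 1999) (nat_lit 137) (.e (nat_lit 663568) (nat_lit 5) (.e (nat_lit 73789) (nat_lit 45) (.e (nat_lit 1385) (nat_lit 105) (.e (nat_lit 319232) (nat_lit 29) .nil))))) .nil)) 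
(.lf (nat_lit 87338) (.g (nat_lit 569) (.e (nat_lit 1999) (nat_lit 137) (.e (nat_lit 663569) (nat_lit 6) (.e (nat_lit 81958) (nat_lit 24) .nil))) .nil))) (.nd (nat_lit 5) 
(.lf (nat_lit 87322) (.g (nat_lit 1299) (.e (nat_lit 1999) (nat_lit 137) (.e (nat_lit 663569) (nat_lit 6) (.e (nat_lit 81943) (nat_lit 20) (.e (nat_lit 2004) (nat_lit 138) (.e (nat_lit 671764) (nat_lit 6) (.e (nat_lit 81934) (nat_lit 20) .nil)))))) (.g (nat_lit 5) .nil .nil))) 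
(.lf (nat_lit 87354) (.g (nat_lit 4468) (.e (nat_lit 2000) (nat_lit 138) (.e (nat_lit 671759) (nat_lit 3) (.e (nat_lit 57480) (nat_lit 28) (.e (nat_lit 557108) (nat_lit 15) (.e (nat_lit 188452) (nat_lit 23) (.e (nat_lit 204852) (nat_lit 26) (.e (nat_lit 335885) (nat_lit 0) .nil))))))) (.g (nat_lit 6) .nil .nil)))))) (.nd (nat_lit 3) (.nd (nat_lit 4) (.nd (nat_lit 5) 
(.lf (nat_lit 87302) (.g (nat_lit 1464) (.e (nat_lit 1999) (nat_lit 137) (.e (nat_lit 663568) (nat_lit 5) (.e (nat_lit 73782) (nat_lit 32) (.e (nat_lit 2856) (nat_lit 184) (.e (nat_lit 426538) (nat_lit 29) .nil))))) .nil)) 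
(.lf (nat_lit 87334) (.g (nat_lit 2486) (.e (nat_lit 1999) (nat_lit 137) (.e (nat_lit 663569) (nat_lit 6) (.e (nat_lit 81950) (nat_lit 21) (.e (nat_lit 57873) (nat_lit 264) (.e (nat_lit 1221) (nat_lit 90) (.e (nat_lit 81931) (nat_lit 20) .nil)))))) (.g (nat_lit 5) .nil .nil)))) (.nd (nat_lit 5) 
(.lf (nat_lit 87318) (.g (nat_lit 1510) (.e (nat_lit 1999) (nat_lit 137) (.e (nat_lit 663569) (nat_lit 6) (.e (nat_lit 81935) (nat_lit 20) (.e (nat_lit 1996) (nat_lit 137) (.e (nat_lit 663569) (nat_lit 6) (.e (nat_lit 81933) (nat_lit 20) .nil)))))) (.g (nat_lit 5) .nil .nil))) 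
(.lf (nat_lit 87350) (.g (nat_lit 3408) (.e (nat_lit 2000) (nat_lit 138) (.e (nat_lit 671759) (nat_lit 3) (.e (nat_lit 57479) (nat_lit 28) (.e (nat_lit 557095) (nat_lit 13) (.e (nat_lit 172115) (nat_lit 10) .nil))))) .nil)))) (.nd (nat_lit 4) (.nd (nat_lit 5) 
(.lf (nat_lit 87310) (.g (nat_lit 433) (.e (nat_lit 1999) (nat_lit 137) (.e (nat_lit 663569) (nat_lit 6) (.e (nat_lit 81920) (nat_lit 0) .nil))) .nil)) 
(.lf (nat_lit 87342) (.g (nat_lit 810) (.e (nat_lit 1999) (nat_lit 137) (.e (nat_lit 663569) (nat_lit 6) (.e (nat_lit 81959) (nat_lit 24) (.e (nat_lit 123185) (nat_lit 264) .nil)))) .nil))) (.nd (nat_lit 5) 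
(.lf (nat_lit 87326) (.g (nat_lit 1966) (.e (nat_lit 1999) (nat_lit 137) (.e (nat_lit 663569) (nat_lit 6) (.e (nat_lit 81947) (nat_lit 20) (.e (nat_lit 2003) (nat_lit 138) (.e (nat_lit 671764) (nat_lit 6) (.e (nat_lit 81935) (nat_lit 20) .nil)))))) (.g (nat_lit 5) .nil .nil))) 
(.lf (nat_lit 87358) (.g (nat_lit 1330) (.e (nat_lit 2000) (nat_lit 138) (.e (nat_lit 671761) (nat_lit 4) (.e (nat_lit 65624) (nat_lit 12) (.e (nat_lit 385092) (nat_lit 49) .nil)))) .nil))))))) (.nd (nat_lit 1) (.nd (nat_lit 2) (.nd (nat_lit 3) (.nd (nat_lit 4) (.nd (nat_lit 5) 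
(.lf (nat_lit 87297) (.g (nat_lit 2842) (.e (nat_lit 1999) (nat_lit 137) (.e (nat_lit 663567) (nat_lit 4) (.e (nat_lit 65630) (nat_lit 14) (.e (nat_lit 401459) (nat_lit 13) (.e (nat_lit 483386) (nat_lit 23) (.e (nat_lit 335905) (nat_lit 0) .nil)))))) (.g (nat_lit 5) .nil .nil))) 
(.lf (nat_lit 87329) (.g (nat_lit 2426) (.e (nat_lit 1999) (nat_lit 137) (.e (nat_lit 663569) (nat_lit 6) (.e (nat_lit 81948) (nat_lit 21) (.e (nat_lit 57872) (nat_lit 264) (.e (nat_lit 1221) (nat_lit 90) (.e (nat_lit 81933) (nat_lit 20) .nil)))))) (.g (nat_lit 5) .nil .nil)))) (.nd (nat_lit 5) 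
(.lf (nat_lit 87313) (.g (nat_lit 1081) (.e (nat_lit 1999) (nat_lit 137) (.e (nat_lit 663569) (nat_lit 6) (.e (nat_lit 81922) (nat_lit 0) (.e (nat_lit 3631) (nat_lit 227) (.e (nat_lit 786176) (nat_lit 6) .nil))))) .nil)) 
(.lf (nat_lit 87345) (.g (nat_lit 2403) (.e (nat_lit 7936) (nat_lit 137) (.e (nat_lit 663567) (nat_lit 4) (.e (nat_lit 65630) (nat_lit 14) (.e (nat_lit 401459) (nat_lit 13) (.e (nat_lit 483380) (nat_lit 23) .nil))))) .nil)))) (.nd (nat_lit 4) (.nd (nat_lit 5) 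
(.lf (nat_lit 87305) (.g (nat_lit 1232) (.e (nat_lit 1999) (nat_lit 137) (.e (nat_lit 663568) (nat_lit 5) (.e (nat_lit 73786) (nat_lit 45) (.e (nat_lit 1374) (nat_lit 104) (.e (nat_lit 303155) (nat_lit 29) (.e (nat_lit 352287) (nat_lit 20) .nil)))))) (.g (nat_lit 4) .nil .nil))) 
(.lf (nat_lit 87337) (.g (nat_lit 1246) (.e (nat_lit 1999) (nat_lit 137) (.e (nat_lit 663569) (nat_lit 6) (.e (nat_lit 81957) (nat_lit 24) (.e (nat_lit 123185) (nat_lit 264) (.e (nat_lit 7936) (nat_lit 90) (.e (nat_lit 81933) (nat_lit 20) .nil)))))) (.g (nat_lit 4) .nil .nil)))) (.nd (nat_lit 5) 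
(.lf (nat_lit 87321) (.g (nat_lit 1318) (.e (nat_lit 1999) (nat_lit 137) (.e (nat_lit 663569) (nat_lit 6) (.e (nat_lit 81943) (nat_lit 20) (.e (nat_lit 2004) (nat_lit 138) (.e (nat_lit 671764) (nat_lit 6) (.e (nat_lit 81933) (nat_lit 20) .nil)))))) (.g (nat_lit 5) .nil .nil))) 
(.lf (nat_lit 87353) (.g (nat_lit 4526) (.e (nat_lit 2000) (nat_lit 138) (.e (nat_lit 671759) (nat_lit 3) (.e (nat_lit 57480) (nat_lit 28) (.e (nat_lit 557108) (nat_lit 15) (.e (nat_lit 188452) (nat_lit 23) (.e (nat_lit 204852) (nat_lit 26) (.e (nat_lit 335883) (nat_lit 0) .nil))))))) (.g (nat_lit 6) .nil .nil)))))) (.nd (nat_lit 3) (.nd (nat_lit 4) (.nd (nat_lit 5) 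
(.lf (nat_lit 87301) (.g (nat_lit 1864) (.e (nat_lit 1999) (nat_lit 137) (.e (nat_lit 663568) (nat_lit 5) (.e (nat_lit 73781) (nat_lit 32) (.e (nat_lit 3090) (nat_lit 191) (.e (nat_lit 483386) (nat_lit 23) (.e (nat_lit 335908) (nat_lit 0) .nil)))))) (.g (nat_lit 5) .nil .nil))) 
(.lf (nat_lit 87333) (.g (nat_lit 2562) (.e (nat_lit 1999) (nat_lit 137) (.e (nat_lit 663569) (nat_lit 6) (.e (nat_lit 81950) (nat_lit 21) (.e (nat_lit 57873) (nat_lit 264) (.e (nat_lit 1219) (nat_lit 90) (.e (nat_lit 81935) (nat_lit 20) .nil)))))) (.g (nat_lit 5) .nil .nil)))) (.nd (nat_lit 5) 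
(.lf (nat_lit 87317) (.g (nat_lit 1614) (.e (nat_lit 1999) (nat_lit 137) (.e (nat_lit 663569) (nat_lit 6) (.e (nat_lit 81935) (nat_lit 20) (.e (nat_lit 1994) (nat_lit 137) (.e (nat_lit 663569) (nat_lit 6) (.e (nat_lit 81933) (nat_lit 20) .nil)))))) (.g (nat_lit 5) .nil .nil))) 
(.lf (nat_lit 87349) (.g (nat_lit 3931) (.e (nat_lit 2000) (nat_lit 138) (.e (nat_lit 671759) (nat_lit 3) (.e (nat_lit 57479) (nat_lit 28) (.e (nat_lit 557095) (nat_lit 13) (.e (nat_lit 172097) (nat_lit 9) .nil))))) .nil)))) (.nd (nat_lit 4) (.nd (nat_lit 5) 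
(.lf (nat_lit 87309) (.g (nat_lit 1142) (.e (nat_lit 1999) (nat_lit 137) (.e (nat_lit 663568) (nat_lit 5) (.e (nat_lit 73792) (nat_lit 45) (.e (nat_lit 1386) (nat_lit 105) (.e (nat_lit 319232) (nat_lit 29) (.e (nat_lit 352285) (nat_lit 20) .nil)))))) (.g (nat_lit 4) .nil .nil))) 
(.lf (nat_lit 87341) (.g (nat_lit 2552) (.e (nat_lit 1999) (nat_lit 137) (.e (nat_lit 663569) (nat_lit 6) (.e (nat_lit 81959) (nat_lit 24) (.e (nat_lit 123182) (nat_lit 264) (.e (nat_lit 7936) (nat_lit 90) .nil))))) .nil))) (.nd (nat_lit 5) 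
(.lf (nat_lit 87325) (.g (nat_lit 1518) (.e (nat_lit 1999) (nat_lit 137) (.e (nat_lit 663569) (nat_lit 6) (.e (nat_lit 81947) (nat_lit 20) (.e (nat_lit 2003) (nat_lit 138) (.e (nat_lit 671764) (nat_lit 6) (.e (nat_lit 81934) (nat_lit 20) .nil)))))) (.g (nat_lit 4) .nil .nil))) 
(.lf (nat_lit 87357) (.g (nat_lit 1844) (.e (nat_lit 2000) (nat_lit 138) (.e (nat_lit 671761) (nat_lit 4) (.e (nat_lit 65610) (nat_lit 10) (.e (nat_lit 344169) (nat_lit 40) (.e (nat_lit 671764) (nat_lit 6) (.e (nat_lit 81942) (nat_lit 20) .nil)))))) (.g (nat_lit 4) .nil .nil))))))) (.nd (nat_lit 2) (.nd (nat_lit 3) (.nd (nat_lit 4) (.nd (nat_lit 5) 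
(.lf (nat_lit 87299) (.g (nat_lit 466) (.e (nat_lit 1999) (nat_lit 137) (.e (nat_lit 663568) (nat_lit 5) (.e (nat_lit 73781) (nat_lit 32) (.e (nat_lit 3089) (nat_lit 191) .nil)))) .nil)) 
(.lf (nat_lit 87331) (.g (nat_lit 942) (.e (nat_lit 1999) (nat_lit 137) (.e (nat_lit 663569) (nat_lit 6) (.e (nat_lit 81949) (nat_lit 21) (.e (nat_lit 57870) (nat_lit 264) .nil)))) .nil))) (.nd (nat_lit 5) 
(.lf (nat_lit 87315) (.g (nat_lit 1097) (.e (nat_lit 1999) (nat_lit 137) (.e (nat_lit 663569) (nat_lit 6) (.e (nat_lit 81924) (nat_lit 0) (.e (nat_lit 3631) (nat_lit 227) (.e (nat_lit 786176) (nat_lit 6) (.e (nat_lit 81933) (nat_lit 20) .nil)))))) (.g (nat_lit 4) .nil .nil))) 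
(.lf (nat_lit 87347) (.g (nat_lit 1023) (.e (nat_lit 2000) (nat_lit 138) (.e (nat_lit 671748) (nat_lit 0) (.e (nat_lit 1586) (nat_lit 111) (.e (nat_lit 368384) (nat_lit 0) .nil)))) .nil)))) (.nd (nat_lit 4) (.nd (nat_lit 5) 
(.lf (nat_lit 87307) (.g (nat_lit 589) (.e (nat_lit 1999) (nat_lit 137) (.e (nat_lit 663568) (nat_lit 5) (.e (nat_lit 73791) (nat_lit 45) (.e (nat_lit 1386) (nat_lit 105) (.e (nat_lit 319232) (nat_lit 29) .nil))))) .nil)) 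
(.lf (nat_lit 87339) (.g (nat_lit 721) (.e (nat_lit 1999) (nat_lit 137) (.e (nat_lit 663569) (nat_lit 6) (.e (nat_lit 81958) (nat_lit 24) (.e (nat_lit 123183) (nat_lit 264) .nil)))) .nil))) (.nd (nat_lit 5) 
(.lf (nat_lit 87323) (.g (nat_lit 1761) (.e (nat_lit 1999) (nat_lit 137) (.e (nat_lit 663569) (nat_lit 6) (.e (nat_lit 81947) (nat_lit 20) (.e (nat_lit 2003) (nat_lit 138) (.e (nat_lit 671764) (nat_lit 6) (.e (nat_lit 81931) (nat_lit 20) .nil)))))) (.g (nat_lit 5) .nil .nil))) 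
(.lf (nat_lit 87355) (.g (nat_lit 4408) (.e (nat_lit 2000) (nat_lit 138) (.e (nat_lit 671759) (nat_lit 3) (.e (nat_lit 57480) (nat_lit 28) (.e (nat_lit 557108) (nat_lit 15) (.e (nat_lit 188452) (nat_lit 23) (.e (nat_lit 204852) (nat_lit 26) (.e (nat_lit 335978) (nat_lit 0) .nil))))))) (.g (nat_lit 6) .nil .nil)))))) (.nd (nat_lit 3) (.nd (nat_lit 4) (.nd (nat_lit 5) 
(.lf (nat_lit 87303) (.g (nat_lit 623) (.e (nat_lit 1999) (nat_lit 137) (.e (nat_lit 663568) (nat_lit 5) (.e (nat_lit 73782) (nat_lit 32) (.e (nat_lit 2857) (nat_lit 184) .nil)))) .nil)) 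
(.lf (nat_lit 87335) (.g (nat_lit 1543) (.e (nat_lit 1999) (nat_lit 137) (.e (nat_lit 663569) (nat_lit 6) (.e (nat_lit 81957) (nat_lit 24) (.e (nat_lit 123184) (nat_lit 264) (.e (nat_lit 7936) (nat_lit 90) .nil))))) .nil))) (.nd (nat_lit 5) 
(.lf (nat_lit 87319) (.g (nat_lit 1410) (.e (nat_lit 1999) (nat_lit 137) (.e (nat_lit 663569) (nat_lit 6) (.e (nat_lit 81943) (nat_lit 20) (.e (nat_lit 2003) (nat_lit 138) (.e (nat_lit 671764) (nat_lit 6) (.e (nat_lit 81933) (nat_lit 20) .nil)))))) (.g (nat_lit 6) .nil .nil))) 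
(.lf (nat_lit 87351) (.g (nat_lit 2417) (.e (nat_lit 2000) (nat_lit 138) (.e (nat_lit 671759) (nat_lit 3) (.e (nat_lit 57479) (nat_lit 28) (.e (nat_lit 557101) (nat_lit 13) (.e (nat_lit 172097) (nat_lit 9) .nil))))) .nil)))) (.nd (nat_lit 4) (.nd (nat_lit 5) 
(.lf (nat_lit 87311) (.g (nat_lit 581) (.e (nat_lit 1999) (nat_lit 137) (.e (nat_lit 663569) (nat_lit 6) (.e (nat_lit 81922) (nat_lit 0) (.e (nat_lit 3629) (nat_lit 227) .nil)))) .nil)) 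
(.lf (nat_lit 87343) (.g (nat_lit 2017) (.e (nat_lit 1999) (nat_lit 137) (.e (nat_lit 663569) (nat_lit 6) (.e (nat_lit 81959) (nat_lit 24) (.e (nat_lit 123185) (nat_lit 264) (.e (nat_lit 1222) (nat_lit 90) (.e (nat_lit 81935) (nat_lit 20) .nil)))))) (.g (nat_lit 5) .nil .nil)))) (.nd (nat_lit 5) 
(.lf (nat_lit 87327) (.g (nat_lit 1561) (.e (nat_lit 1999) (nat_lit 137) (.e (nat_lit 663569) (nat_lit 6) (.e (nat_lit 81948) (nat_lit 21) (.e (nat_lit 57870) (nat_lit 264) (.e (nat_lit 1219) (nat_lit 90) (.e (nat_lit 81933) (nat_lit 20) .nil)))))) (.g (nat_lit 5) .nil .nil))) 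
(.lf (nat_lit 87359) (.g (nat_lit 1961) (.e (nat_lit 2000) (nat_lit 138) (.e (nat_lit 671761) (nat_lit 4) (.e (nat_lit 65624) (nat_lit 12) (.e (nat_lit 385093) (nat_lit 49) (.e (nat_lit 778326) (nat_lit 6) .nil))))) .nil))))))))

noncomputable def tv1188 : DT := (.nd (nat_lit 0) (.nd (nat_lit 1) (.nd (nat_lit 2) (.nd (nat_lit 3) (.nd (nat_lit 4) (.nd (nat_lit 5) 
(.lf (nat_lit 87360) (.g (nat_lit 2244) (.e (nat_lit 2000) (nat_lit 138) (.e (nat_lit 671761) (nat_lit 4) (.e (nat_lit 65624) (nat_lit 12) (.e (nat_lit 385093) (nat_lit 49) (.e (nat_lit 778327) (nat_lit 6) .nil))))) .nil)) 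
(.lf (nat_lit 87392) (.g (nat_lit 3672) (.e (nat_lit 2000) (nat_lit 138) (.e (nat_lit 671762) (nat_lit 4) (.e (nat_lit 65629) (nat_lit 14) (.e (nat_lit 401459) (nat_lit 13) (.e (nat_lit 483393) (nat_lit 23) (.e (nat_lit 335897) (nat_lit 0) .nil)))))) (.g (nat_lit 5) .nil .nil)))) (.nd (nat_lit 5) 
(.lf (nat_lit 87376) (.g (nat_lit 1283) (.e (nat_lit 2000) (nat_lit 138) (.e (nat_lit 671762) (nat_lit 4) (.e (nat_lit 65585) (nat_lit 7) (.e (nat_lit 319539) (nat_lit 19) (.e (nat_lit 311358) (nat_lit 29) .nil))))) .nil)) 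
(.lf (nat_lit 87408) (.g (nat_lit 3330) (.e (nat_lit 2001) (nat_lit 138) (.e (nat_lit 671762) (nat_lit 4) (.e (nat_lit 65629) (nat_lit 14) (.e (nat_lit 401459) (nat_lit 13) (.e (nat_lit 483383) (nat_lit 23) .nil))))) .nil)))) (.nd (nat_lit 4) (.nd (nat_lit 5) 
(.lf (nat_lit 87368) (.g (nat_lit 1820) (.e (nat_lit 2000) (nat_lit 138) (.e (nat_lit 671761) (nat_lit 4) (.e (nat_lit 65624) (nat_lit 12) (.e (nat_lit 385094) (nat_lit 49) (.e (nat_lit 778327) (nat_lit 6) .nil))))) .nil)) 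
(.lf (nat_lit 87400) (.g (nat_lit 2599) (.e (nat_lit 2000) (nat_lit 138) (.e (nat_lit 671762) (nat_lit 4) (.e (nat_lit 65630) (nat_lit 14) (.e (nat_lit 401457) (nat_lit 13) (.e (nat_lit 483393) (nat_lit 23) (.e (nat_lit 335914) (nat_lit 0) .nil)))))) (.g (nat_lit 4) .nil .nil)))) (.nd (nat_lit 5) 
(.lf (nat_lit 87384) (.g (nat_lit 1451) (.e (nat_lit 2000) (nat_lit 138) (.e (nat_lit 671762) (nat_lit 4) (.e (nat_lit 65629) (nat_lit 14) (.e (nat_lit 401459) (nat_lit 13) .nil)))) .nil)) 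
(.lf (nat_lit 87416) (.g (nat_lit 2983) (.e (nat_lit 2003) (nat_lit 138) (.e (nat_lit 671747) (nat_lit 0) (.e (nat_lit 1595) (nat_lit 111) (.e (nat_lit 360453) (nat_lit 0) (.e (nat_lit 5907) (nat_lit 320) (.e (nat_lit 1219) (nat_lit 90) (.e (nat_lit 81943) (nat_lit 20) .nil))))))) (.g (nat_lit 6) .nil .nil)))))) (.nd (nat_lit 3) (.nd (nat_lit 4) (.nd (nat_lit 5) 
(.lf (nat_lit 87364) (.g (nat_lit 2950) (.e (nat_lit 2000) (nat_lit 138) (.e (nat_lit 671761) (nat_lit 4) (.e (nat_lit 65624) (nat_lit 12) (.e (nat_lit 385094) (nat_lit 49) (.e (nat_lit 778326) (nat_lit 6) (.e (nat_lit 81938) (nat_lit 20) .nil)))))) (.g (nat_lit 0) .nil .nil))) 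
(.lf (nat_lit 87396) (.g (nat_lit 1480) (.e (nat_lit 2000) (nat_lit 138) (.e (nat_lit 671762) (nat_lit 4) (.e (nat_lit 65630) (nat_lit 14) (.e (nat_lit 401435) (nat_lit 9) .nil)))) .nil))) (.nd (nat_lit 5) 
(.lf (nat_lit 87380) (.g (nat_lit 1232) (.e (nat_lit 2000) (nat_lit 138) (.e (nat_lit 671762) (nat_lit 4) (.e (nat_lit 65617) (nat_lit 10) (.e (nat_lit 344169) (nat_lit 40) .nil)))) .nil)) 
(.lf (nat_lit 87412) (.g (nat_lit 298) (.e (nat_lit 2003) (nat_lit 138) (.e (nat_lit 671747) (nat_lit 0) (.e (nat_lit 1575) (nat_lit 110) .nil))) .nil)))) (.nd (nat_lit 4) (.nd (nat_lit 5) 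
(.lf (nat_lit 87372) (.g (nat_lit 2394) (.e (nat_lit 2000) (nat_lit 138) (.e (nat_lit 671761) (nat_lit 4) (.e (nat_lit 65624) (nat_lit 12) (.e (nat_lit 385105) (nat_lit 50) (.e (nat_lit 786480) (nat_lit 29) .nil))))) .nil)) 
(.lf (nat_lit 87404) (.g (nat_lit 124) (.e (nat_lit 2000) (nat_lit 138) (.e (nat_lit 671763) (nat_lit 5) (.e (nat_lit 81664) (nat_lit 36) .nil))) .nil))) (.nd (nat_lit 5) 
(.lf (nat_lit 87388) (.g (nat_lit 3527) (.e (nat_lit 2000) (nat_lit 138) (.e (nat_lit 671762) (nat_lit 4) (.e (nat_lit 65629) (nat_lit 14) (.e (nat_lit 401459) (nat_lit 13) (.e (nat_lit 483391) (nat_lit 23) .nil))))) .nil)) 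
(.lf (nat_lit 87420) (.g (nat_lit 2165) (.e (nat_lit 2003) (nat_lit 138) (.e (nat_lit 671751) (nat_lit 0) (.e (nat_lit 1524) (nat_lit 108) (.e (nat_lit 336194) (nat_lit 12) (.e (nat_lit 385094) (nat_lit 49) (.e (nat_lit 778326) (nat_lit 6) (.e (nat_lit 81943) (nat_lit 20) .nil))))))) (.g (nat_lit 6) .nil .nil))))))) (.nd (nat_lit 2) (.nd (nat_lit 3) (.nd (nat_lit 4) (.nd (nat_lit 5) 
(.lf (nat_lit 87362) (.g (nat_lit 2292) (.e (nat_lit 2000) (nat_lit 138) (.e (nat_lit 671761) (nat_lit 4) (.e (nat_lit 65624) (nat_lit 12) (.e (nat_lit 385094) (nat_lit 49) (.e (nat_lit 778253) (nat_lit 0) (.e (nat_lit 1557) (nat_lit 110) (.e (nat_lit 352302) (nat_lit 20) .nil))))))) (.g (nat_lit 4) .nil .nil))) 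
(.lf (nat_lit 87394) (.g (nat_lit 4006) (.e (nat_lit 2000) (nat_lit 138) (.e (nat_lit 671762) (nat_lit 4) (.e (nat_lit 65629) (nat_lit 14) (.e (nat_lit 401459) (nat_lit 13) (.e (nat_lit 483393) (nat_lit 23) (.e (nat_lit 335914) (nat_lit 0) .nil)))))) (.g (nat_lit 6) .nil .nil)))) (.nd (nat_lit 5) 
(.lf (nat_lit 87378) (.g (nat_lit 1564) (.e (nat_lit 2000) (nat_lit 138) (.e (nat_lit 671762) (nat_lit 4) (.e (nat_lit 65610) (nat_lit 10) (.e (nat_lit 344168) (nat_lit 40) (.e (nat_lit 671764) (nat_lit 6) .nil))))) .nil)) 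
(.lf (nat_lit 87410) (.g (nat_lit 494) (.e (nat_lit 2003) (nat_lit 138) (.e (nat_lit 671747) (nat_lit 0) (.e (nat_lit 1569) (nat_lit 110) (.e (nat_lit 360192) (nat_lit 4) .nil)))) .nil)))) (.nd (nat_lit 4) (.nd (nat_lit 5) 
(.lf (nat_lit 87370) (.g (nat_lit 2518) (.e (nat_lit 2000) (nat_lit 138) (.e (nat_lit 671761) (nat_lit 4) (.e (nat_lit 65624) (nat_lit 12) (.e (nat_lit 385094) (nat_lit 49) (.e (nat_lit 778327) (nat_lit 6) (.e (nat_lit 81944) (nat_lit 20) .nil)))))) (.g (nat_lit 6) .nil .nil))) 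
(.lf (nat_lit 87402) (.g (nat_lit 2073) (.e (nat_lit 2000) (nat_lit 138) (.e (nat_lit 671762) (nat_lit 4) (.e (nat_lit 65630) (nat_lit 14) (.e (nat_lit 401459) (nat_lit 13) (.e (nat_lit 483380) (nat_lit 23) .nil))))) .nil))) (.nd (nat_lit 5) 
(.lf (nat_lit 87386) (.g (nat_lit 4398) (.e (nat_lit 2000) (nat_lit 138) (.e (nat_lit 671762) (nat_lit 4) (.e (nat_lit 65629) (nat_lit 14) (.e (nat_lit 401459) (nat_lit 13) (.e (nat_lit 483383) (nat_lit 23) (.e (nat_lit 335878) (nat_lit 0) .nil)))))) (.g (nat_lit 6) .nil .nil))) 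
(.lf (nat_lit 87418) (.g (nat_lit 2131) (.e (nat_lit 2003) (nat_lit 138) (.e (nat_lit 671747) (nat_lit 0) (.e (nat_lit 1598) (nat_lit 111) (.e (nat_lit 360452) (nat_lit 0) (.e (nat_lit 5905) (nat_lit 320) (.e (nat_lit 1219) (nat_lit 90) (.e (nat_lit 81943) (nat_lit 20) .nil))))))) (.g (nat_lit 4) .nil .nil)))))) (.nd (nat_lit 3) (.nd (nat_lit 4) (.nd (nat_lit 5) 
(.lf (nat_lit 87366) (.g (nat_lit 2738) (.e (nat_lit 2000) (nat_lit 138) (.e (nat_lit 671761) (nat_lit 4) (.e (nat_lit 65624) (nat_lit 12) (.e (nat_lit 385094) (nat_lit 49) (.e (nat_lit 778326) (nat_lit 6) (.e (nat_lit 81943) (nat_lit 20) .nil)))))) (.g (nat_lit 0) .nil .nil))) 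
(.lf (nat_lit 87398) (.g (nat_lit 2548) (.e (nat_lit 2000) (nat_lit 138) (.e (nat_lit 671762) (nat_lit 4) (.e (nat_lit 65630) (nat_lit 14) (.e (nat_lit 401457) (nat_lit 13) (.e (nat_lit 483383) (nat_lit 23) (.e (nat_lit 335878) (nat_lit 0) .nil)))))) (.g (nat_lit 4) .nil .nil)))) (.nd (nat_lit 5) 
(.lf (nat_lit 87382) (.g (nat_lit 2146) (.e (nat_lit 2000) (nat_lit 138) (.e (nat_lit 671762) (nat_lit 4) (.e (nat_lit 65628) (nat_lit 14) (.e (nat_lit 401437) (nat_lit 9) (.e (nat_lit 426555) (nat_lit 32) (.e (nat_lit 376848) (nat_lit 20) .nil)))))) (.g (nat_lit 4) .nil .nil))) 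
(.lf (nat_lit 87414) (.g (nat_lit 1974) (.e (nat_lit 2003) (nat_lit 138) (.e (nat_lit 671747) (nat_lit 0) (.e (nat_lit 1586) (nat_lit 111) (.e (nat_lit 368384) (nat_lit 0) (.e (nat_lit 5905) (nat_lit 320) (.e (nat_lit 1219) (nat_lit 90) (.e (nat_lit 81943) (nat_lit 20) .nil))))))) (.g (nat_lit 6) .nil .nil))))) (.nd (nat_lit 4) (.nd (nat_lit 5) 
(.lf (nat_lit 87374) (.g (nat_lit 1453) (.e (nat_lit 2000) (nat_lit 138) (.e (nat_lit 671761) (nat_lit 4) (.e (nat_lit 65630) (nat_lit 14) (.e (nat_lit 401457) (nat_lit 13) .nil)))) .nil)) 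
(.lf (nat_lit 87406) (.g (nat_lit 2220) (.e (nat_lit 2001) (nat_lit 138) (.e (nat_lit 671759) (nat_lit 3) (.e (nat_lit 57479) (nat_lit 28) (.e (nat_lit 557109) (nat_lit 15) (.e (nat_lit 188458) (nat_lit 25) .nil))))) .nil))) (.nd (nat_lit 5) 
(.lf (nat_lit 87390) (.g (nat_lit 3855) (.e (nat_lit 2000) (nat_lit 138) (.e (nat_lit 671762) (nat_lit 4) (.e (nat_lit 65629) (nat_lit 14) (.e (nat_lit 401459) (nat_lit 13) (.e (nat_lit 483393) (nat_lit 23) (.e (nat_lit 335892) (nat_lit 0) .nil)))))) (.g (nat_lit 5) .nil .nil))) 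
(.lf (nat_lit 87422) (.g (nat_lit 2522) (.e (nat_lit 2003) (nat_lit 138) (.e (nat_lit 671757) (nat_lit 3) (.e (nat_lit 57474) (nat_lit 28) (.e (nat_lit 557100) (nat_lit 13) (.e (nat_lit 172106) (nat_lit 10) (.e (nat_lit 434231) (nat_lit 23) (.e (nat_lit 532535) (nat_lit 9) (.e (nat_lit 335928) (nat_lit 0) .nil)))))))) (.g (nat_lit 5) .nil .nil)))))))) 
(.nd (nat_lit 1) (.nd (nat_lit 2) (.nd (nat_lit 3) (.nd (nat_lit 4) (.nd (nat_lit 5) 
(.lf (nat_lit 87361) (.g (nat_lit 2288) (.e (nat_lit 2000) (nat_lit 138) (.e (nat_lit 671761) (nat_lit 4) (.e (nat_lit 65624) (nat_lit 12) (.e (nat_lit 385093) (nat_lit 49) (.e (nat_lit 778327) (nat_lit 6) (.e (nat_lit 81946) (nat_lit 20) .nil)))))) (.g (nat_lit 4) .nil .nil))) 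
(.lf (nat_lit 87393) (.g (nat_lit 2958) (.e (nat_lit 2000) (nat_lit 138) (.e (nat_lit 671762) (nat_lit 4) (.e (nat_lit 65629) (nat_lit 14) (.e (nat_lit 401459) (nat_lit 13) (.e (nat_lit 483393) (nat_lit 23) (.e (nat_lit 335898) (nat_lit 0) .nil)))))) (.g (nat_lit 4) .nil .nil)))) (.nd (nat_lit 5) 
(.lf (nat_lit 87377) (.g (nat_lit 1135) (.e (nat_lit 2000) (nat_lit 138) (.e (nat_lit 671762) (nat_lit 4) (.e (nat_lit 65586) (nat_lit 7) (.e (nat_lit 319539) (nat_lit 19) .nil)))) .nil)) 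
(.lf (nat_lit 87409) (.g (nat_lit 295) (.e (nat_lit 2003) (nat_lit 138) (.e (nat_lit 671747) (nat_lit 0) (.e (nat_lit 1559) (nat_lit 110) .nil))) .nil)))) (.nd (nat_lit 4) (.nd (nat_lit 5) 
(.lf (nat_lit 87369) (.g (nat_lit 2433) (.e (nat_lit 2000) (nat_lit 138) (.e (nat_lit 671761) (nat_lit 4) (.e (nat_lit 65624) (nat_lit 12) (.e (nat_lit 385094) (nat_lit 49) (.e (nat_lit 778327) (nat_lit 6) (.e (nat_lit 81942) (nat_lit 20) .nil)))))) (.g (nat_lit 5) .nil .nil))) 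
(.lf (nat_lit 87401) (.g (nat_lit 2922) (.e (nat_lit 2000) (nat_lit 138) (.e (nat_lit 671762) (nat_lit 4) (.e (nat_lit 65630) (nat_lit 14) (.e (nat_lit 401458) (nat_lit 13) (.e (nat_lit 483383) (nat_lit 23) .nil))))) .nil))) (.nd (nat_lit 5) 
(.lf (nat_lit 87385) (.g (nat_lit 2579) (.e (nat_lit 2000) (nat_lit 138) (.e (nat_lit 671762) (nat_lit 4) (.e (nat_lit 65629) (nat_lit 14) (.e (nat_lit 401459) (nat_lit 13) (.e (nat_lit 483380) (nat_lit 23) .nil))))) .nil)) 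
(.lf (nat_lit 87417) (.g (nat_lit 1839) (.e (nat_lit 2003) (nat_lit 138) (.e (nat_lit 671747) (nat_lit 0) (.e (nat_lit 1595) (nat_lit 111) (.e (nat_lit 360486) (nat_lit 18) (.e (nat_lit 671764) (nat_lit 6) (.e (nat_lit 81943) (nat_lit 20) .nil)))))) (.g (nat_lit 4) .nil .nil)))))) (.nd (nat_lit 3) (.nd (nat_lit 4) (.nd (nat_lit 5) 
(.lf (nat_lit 87365) (.g (nat_lit 2333) (.e (nat_lit 2000) (nat_lit 138) (.e (nat_lit 671761) (nat_lit 4) (.e (nat_lit 65624) (nat_lit 12) (.e (nat_lit 385094) (nat_lit 49) (.e (nat_lit 778326) (nat_lit 6) (.e (nat_lit 81939) (nat_lit 20) .nil)))))) (.g (nat_lit 5) .nil .nil))) 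
(.lf (nat_lit 87397) (.g (nat_lit 1406) (.e (nat_lit 2000) (nat_lit 138) (.e (nat_lit 671762) (nat_lit 4) (.e (nat_lit 65630) (nat_lit 14) (.e (nat_lit 401436) (nat_lit 9) .nil)))) .nil))) (.nd (nat_lit 5) 
(.lf (nat_lit 87381) (.g (nat_lit 546) (.e (nat_lit 2000) (nat_lit 138) (.e (nat_lit 671762) (nat_lit 4) (.e (nat_lit 65620) (nat_lit 10) .nil))) .nil)) 
(.lf (nat_lit 87413) (.g (nat_lit 2406) (.e (nat_lit 2003) (nat_lit 138) (.e (nat_lit 671747) (nat_lit 0) (.e (nat_lit 1575) (nat_lit 110) (.e (nat_lit 352262) (nat_lit 0) (.e (nat_lit 3632) (nat_lit 227) (.e (nat_lit 778326) (nat_lit 6) (.e (nat_lit 81943) (nat_lit 20) .nil))))))) (.g (nat_lit 5) .nil .nil))))) (.nd (nat_lit 4) (.nd (nat_lit 5) 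
(.lf (nat_lit 87373) (.g (nat_lit 1053) (.e (nat_lit 2000) (nat_lit 138) (.e (nat_lit 671761) (nat_lit 4) (.e (nat_lit 65630) (nat_lit 14) (.e (nat_lit 401437) (nat_lit 9) .nil)))) .nil)) 
(.lf (nat_lit 87405) (.g (nat_lit 217) (.e (nat_lit 2000) (nat_lit 138) (.e (nat_lit 671764) (nat_lit 6) (.e (nat_lit 81931) (nat_lit 20) .nil))) .nil))) (.nd (nat_lit 5) 
(.lf (nat_lit 87389) (.g (nat_lit 4050) (.e (nat_lit 2000) (nat_lit 138) (.e (nat_lit 671762) (nat_lit 4) (.e (nat_lit 65629) (nat_lit 14) (.e (nat_lit 401459) (nat_lit 13) (.e (nat_lit 483392) (nat_lit 23) .nil))))) .nil)) 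
(.lf (nat_lit 87421) (.g (nat_lit 3012) (.e (nat_lit 2003) (nat_lit 138) (.e (nat_lit 671757) (nat_lit 3) (.e (nat_lit 57474) (nat_lit 28) (.e (nat_lit 557095) (nat_lit 13) (.e (nat_lit 172115) (nat_lit 10) (.e (nat_lit 434231) (nat_lit 23) (.e (nat_lit 532535) (nat_lit 9) (.e (nat_lit 335928) (nat_lit 0) .nil)))))))) (.g (nat_lit 7) .nil .nil))))))) 
(.nd (nat_lit 2) (.nd (nat_lit 3) (.nd (nat_lit 4) (.nd (nat_lit 5) 
(.lf (nat_lit 87363) (.g (nat_lit 1844) (.e (nat_lit 2000) (nat_lit 138) (.e (nat_lit 671761) (nat_lit 4) (.e (nat_lit 65624) (nat_lit 12) (.e (nat_lit 385094) (nat_lit 49) (.e (nat_lit 778326) (nat_lit 6) .nil))))) .nil)) 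
(.lf (nat_lit 87395) (.g (nat_lit 412) (.e (nat_lit 2000) (nat_lit 138) (.e (nat_lit 671762) (nat_lit 4) (.e (nat_lit 65630) (nat_lit 14) .nil))) .nil))) (.nd (nat_lit 5) 
(.lf (nat_lit 87379) (.g (nat_lit 1778) (.e (nat_lit 2000) (nat_lit 138) (.e (nat_lit 671762) (nat_lit 4) (.e (nat_lit 65610) (nat_lit 10) (.e (nat_lit 344169) (nat_lit 40) (.e (nat_lit 671764) (nat_lit 6) (.e (nat_lit 81942) (nat_lit 20) .nil)))))) (.g (nat_lit 4) .nil .nil))) 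
(.lf (nat_lit 87411) (.g (nat_lit 2919) (.e (nat_lit 2003) (nat_lit 138) (.e (nat_lit 671747) (nat_lit 0) (.e (nat_lit 1572) (nat_lit 110) (.e (nat_lit 352318) (nat_lit 24) (.e (nat_lit 123184) (nat_lit 264) (.e (nat_lit 1222) (nat_lit 90) (.e (nat_lit 81943) (nat_lit 20) .nil))))))) (.g (nat_lit 6) .nil .nil))))) (.nd (nat_lit 4) (.nd (nat_lit 5) 
(.lf (nat_lit 87371) (.g (nat_lit 1373) (.e (nat_lit 2000) (nat_lit 138) (.e (nat_lit 671761) (nat_lit 4) (.e (nat_lit 65624) (nat_lit 12) (.e (nat_lit 385105) (nat_lit 50) .nil)))) .nil)) 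
(.lf (nat_lit 87403) (.g (nat_lit 3813) (.e (nat_lit 2000) (nat_lit 138) (.e (nat_lit 671762) (nat_lit 4) (.e (nat_lit 65630) (nat_lit 14) (.e (nat_lit 401459) (nat_lit 13) (.e (nat_lit 483393) (nat_lit 23) .nil))))) .nil))) (.nd (nat_lit 5) 
(.lf (nat_lit 87387) (.g (nat_lit 3015) (.e (nat_lit 2000) (nat_lit 138) (.e (nat_lit 671762) (nat_lit 4) (.e (nat_lit 65629) (nat_lit 14) (.e (nat_lit 401459) (nat_lit 13) (.e (nat_lit 483389) (nat_lit 23) .nil))))) .nil)) 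
(.lf (nat_lit 87419) (.g (nat_lit 2472) (.e (nat_lit 2003) (nat_lit 138) (.e (nat_lit 671747) (nat_lit 0) (.e (nat_lit 1598) (nat_lit 111) (.e (nat_lit 360452) (nat_lit 0) (.e (nat_lit 5907) (nat_lit 320) (.e (nat_lit 1219) (nat_lit 90) (.e (nat_lit 81943) (nat_lit 20) .nil))))))) (.g (nat_lit 5) .nil .nil)))))) (.nd (nat_lit 3) (.nd (nat_lit 4) (.nd (nat_lit 5) 
(.lf (nat_lit 87367) (.g (nat_lit 1915) (.e (nat_lit 2000) (nat_lit 138) (.e (nat_lit 671761) (nat_lit 4) (.e (nat_lit 65624) (nat_lit 12) (.e (nat_lit 385094) (nat_lit 49) (.e (nat_lit 778326) (nat_lit 6) (.e (nat_lit 81945) (nat_lit 20) .nil)))))) (.g (nat_lit 4) .nil .nil))) 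
(.lf (nat_lit 87399) (.g (nat_lit 2580) (.e (nat_lit 2000) (nat_lit 138) (.e (nat_lit 671762) (nat_lit 4) (.e (nat_lit 65630) (nat_lit 14) (.e (nat_lit 401457) (nat_lit 13) (.e (nat_lit 483393) (nat_lit 23) .nil))))) .nil))) (.nd (nat_lit 5) 
(.lf (nat_lit 87383) (.g (nat_lit 3134) (.e (nat_lit 2000) (nat_lit 138) (.e (nat_lit 671762) (nat_lit 4) (.e (nat_lit 65629) (nat_lit 14) (.e (nat_lit 401454) (nat_lit 12) (.e (nat_lit 483072) (nat_lit 15) .nil))))) .nil)) 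
(.lf (nat_lit 87415) (.g (nat_lit 802) (.e (nat_lit 2003) (nat_lit 138) (.e (nat_lit 671747) (nat_lit 0) (.e (nat_lit 1592) (nat_lit 111) (.e (nat_lit 360486) (nat_lit 18) (.e (nat_lit 671764) (nat_lit 6) .nil))))) .nil)))) (.nd (nat_lit 4) (.nd (nat_lit 5) 
(.lf (nat_lit 87375) (.g (nat_lit 1512) (.e (nat_lit 2000) (nat_lit 138) (.e (nat_lit 671762) (nat_lit 4) (.e (nat_lit 65583) (nat_lit 7) (.e (nat_lit 319539) (nat_lit 19) (.e (nat_lit 311358) (nat_lit 29) (.e (nat_lit 352296) (nat_lit 20) .nil)))))) (.g (nat_lit 4) .nil .nil))) 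
(.lf (nat_lit 87407) (.g (nat_lit 2424) (.e (nat_lit 2001) (nat_lit 138) (.e (nat_lit 671759) (nat_lit 3) (.e (nat_lit 57480) (nat_lit 28) (.e (nat_lit 557108) (nat_lit 15) (.e (nat_lit 188452) (nat_lit 23) (.e (nat_lit 204851) (nat_lit 26) (.e (nat_lit 335878) (nat_lit 0) .nil))))))) (.g (nat_lit 5) .nil .nil)))) (.nd (nat_lit 5) 
(.lf (nat_lit 87391) (.g (nat_lit 3590) (.e (nat_lit 2000) (nat_lit 138) (.e (nat_lit 671762) (nat_lit 4) (.e (nat_lit 65629) (nat_lit 14) (.e (nat_lit 401459) (nat_lit 13) (.e (nat_lit 483393) (nat_lit 23) (.e (nat_lit 335896) (nat_lit 0) .nil)))))) (.g (nat_lit 5) .nil .nil))) 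
(.lf (nat_lit 87423) (.g (nat_lit 3837) (.e (nat_lit 2003) (nat_lit 138) (.e (nat_lit 671757) (nat_lit 3) (.e (nat_lit 57474) (nat_lit 28) (.e (nat_lit 557108) (nat_lit 15) (.e (nat_lit 188449) (nat_lit 22) (.e (nat_lit 196666) (nat_lit 13) (.e (nat_lit 65546) (nat_lit 0) .nil))))))) (.g (nat_lit 7) .nil .nil)))))))))

noncomputable def tv1189 : DT := (.nd (nat_lit 0) (.nd (nat_lit 1) (.nd (nat_lit 2) (.nd (nat_lit 3) (.nd (nat_lit 4) (.nd (nat_lit 5) 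
(.lf (nat_lit 87424) (.g (nat_lit 4227) (.e (nat_lit 2003) (nat_lit 138) (.e (nat_lit 671757) (nat_lit 3) (.e (nat_lit 57474) (nat_lit 28) (.e (nat_lit 557108) (nat_lit 15) (.e (nat_lit 188452) (nat_lit 23) (.e (nat_lit 204855) (nat_lit 26) (.e (nat_lit 335928) (nat_lit 0) .nil))))))) (.g (nat_lit 7) .nil .nil))) 
(.lf (nat_lit 87456) (.g (nat_lit 2031) (.e (nat_lit 2003) (nat_lit 138) (.e (nat_lit 671759) (nat_lit 3) (.e (nat_lit 57479) (nat_lit 28) (.e (nat_lit 557109) (nat_lit 15) (.e (nat_lit 188458) (nat_lit 25) .nil))))) .nil))) (.nd (nat_lit 5) 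
(.lf (nat_lit 87440) (.g (nat_lit 1838) (.e (nat_lit 2003) (nat_lit 138) (.e (nat_lit 671759) (nat_lit 3) (.e (nat_lit 57479) (nat_lit 28) (.e (nat_lit 557098) (nat_lit 13) .nil)))) .nil)) 
(.lf (nat_lit 87472) (.g (nat_lit 3896) (.e (nat_lit 2003) (nat_lit 138) (.e (nat_lit 671759) (nat_lit 3) (.e (nat_lit 57480) (nat_lit 28) (.e (nat_lit 557108) (nat_lit 15) (.e (nat_lit 188452) (nat_lit 23) (.e (nat_lit 204856) (nat_lit 26) (.e (nat_lit 335927) (nat_lit 0) .nil))))))) (.g (nat_lit 5) .nil .nil))))) (.nd (nat_lit 4) (.nd (nat_lit 5) 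
(.lf (nat_lit 87432) (.g (nat_lit 4047) (.e (nat_lit 2003) (nat_lit 138) (.e (nat_lit 671759) (nat_lit 3) (.e (nat_lit 57479) (nat_lit 28) (.e (nat_lit 557095) (nat_lit 13) (.e (nat_lit 172106) (nat_lit 10) .nil))))) .nil)) 
(.lf (nat_lit 87464) (.g (nat_lit 2822) (.e (nat_lit 2003) (nat_lit 138) (.e (nat_lit 671759) (nat_lit 3) (.e (nat_lit 57480) (nat_lit 28) (.e (nat_lit 557108) (nat_lit 15) (.e (nat_lit 188452) (nat_lit 23) (.e (nat_lit 204851) (nat_lit 26) (.e (nat_lit 335969) (nat_lit 0) .nil))))))) (.g (nat_lit 6) .nil .nil)))) (.nd (nat_lit 5) 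
(.lf (nat_lit 87448) (.g (nat_lit 2039) (.e (nat_lit 2003) (nat_lit 138) (.e (nat_lit 671759) (nat_lit 3) (.e (nat_lit 57479) (nat_lit 28) (.e (nat_lit 557101) (nat_lit 13) (.e (nat_lit 172097) (nat_lit 9) (.e (nat_lit 426140) (nat_lit 3) (.e (nat_lit 204855) (nat_lit 26) (.e (nat_lit 335925) (nat_lit 0) .nil)))))))) (.g (nat_lit 4) .nil .nil))) 
(.lf (nat_lit 87480) (.g (nat_lit 2454) (.e (nat_lit 2003) (nat_lit 138) (.e (nat_lit 671760) (nat_lit 4) (.e (nat_lit 65630) (nat_lit 14) (.e (nat_lit 401437) (nat_lit 9) (.e (nat_lit 426542) (nat_lit 29) (.e (nat_lit 352290) (nat_lit 20) .nil)))))) (.g (nat_lit 5) .nil .nil)))))) (.nd (nat_lit 3) (.nd (nat_lit 4) (.nd (nat_lit 5) 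
(.lf (nat_lit 87428) (.g (nat_lit 359) (.e (nat_lit 2003) (nat_lit 138) (.e (nat_lit 671759) (nat_lit 3) (.e (nat_lit 57479) (nat_lit 28) .nil))) .nil)) 
(.lf (nat_lit 87460) (.g (nat_lit 3111) (.e (nat_lit 2003) (nat_lit 138) (.e (nat_lit 671759) (nat_lit 3) (.e (nat_lit 57479) (nat_lit 28) (.e (nat_lit 557109) (nat_lit 15) (.e (nat_lit 188458) (nat_lit 25) (.e (nat_lit 245790) (nat_lit 13) (.e (nat_lit 65551) (nat_lit 0) .nil))))))) (.g (nat_lit 0) .nil .nil)))) (.nd (nat_lit 5) 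
(.lf (nat_lit 87444) (.g (nat_lit 2593) (.e (nat_lit 2003) (nat_lit 138) (.e (nat_lit 671759) (nat_lit 3) (.e (nat_lit 57479) (nat_lit 28) (.e (nat_lit 557099) (nat_lit 13) (.e (nat_lit 172097) (nat_lit 9) (.e (nat_lit 426125) (nat_lit 2) (.e (nat_lit 196666) (nat_lit 13) (.e (nat_lit 65553) (nat_lit 0) .nil)))))))) (.g (nat_lit 4) .nil .nil))) 
(.lf (nat_lit 87476) (.g (nat_lit 2008) (.e (nat_lit 2003) (nat_lit 138) (.e (nat_lit 671760) (nat_lit 4) (.e (nat_lit 65624) (nat_lit 12) (.e (nat_lit 385094) (nat_lit 49) (.e (nat_lit 778326) (nat_lit 6) (.e (nat_lit 81943) (nat_lit 20) .nil)))))) (.g (nat_lit 6) .nil .nil))))) (.nd (nat_lit 4) (.nd (nat_lit 5) 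
(.lf (nat_lit 87436) (.g (nat_lit 2898) (.e (nat_lit 2003) (nat_lit 138) (.e (nat_lit 671759) (nat_lit 3) (.e (nat_lit 57479) (nat_lit 28) (.e (nat_lit 557096) (nat_lit 13) (.e (nat_lit 172097) (nat_lit 9) (.e (nat_lit 426125) (nat_lit 2) (.e (nat_lit 196666) (nat_lit 13) (.e (nat_lit 65550) (nat_lit 0) .nil)))))))) (.g (nat_lit 4) .nil .nil))) 
(.lf (nat_lit 87468) (.g (nat_lit 4504) (.e (nat_lit 2003) (nat_lit 138) (.e (nat_lit 671759) (nat_lit 3) (.e (nat_lit 57480) (nat_lit 28) (.e (nat_lit 557108) (nat_lit 15) (.e (nat_lit 188452) (nat_lit 23) (.e (nat_lit 204852) (nat_lit 26) (.e (nat_lit 335971) (nat_lit 0) .nil))))))) (.g (nat_lit 6) .nil .nil)))) (.nd (nat_lit 5) 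
(.lf (nat_lit 87452) (.g (nat_lit 3399) (.e (nat_lit 2003) (nat_lit 138) (.e (nat_lit 671759) (nat_lit 3) (.e (nat_lit 57479) (nat_lit 28) (.e (nat_lit 557106) (nat_lit 15) (.e (nat_lit 188449) (nat_lit 22) (.e (nat_lit 196666) (nat_lit 13) (.e (nat_lit 65553) (nat_lit 0) .nil))))))) (.g (nat_lit 5) .nil .nil))) 
(.lf (nat_lit 87484) (.g (nat_lit 2163) (.e (nat_lit 2003) (nat_lit 138) (.e (nat_lit 671761) (nat_lit 4) (.e (nat_lit 65624) (nat_lit 12) (.e (nat_lit 385094) (nat_lit 49) (.e (nat_lit 778327) (nat_lit 6) (.e (nat_lit 81946) (nat_lit 20) .nil)))))) (.g (nat_lit 4) .nil .nil))))))) (.nd (nat_lit 2) (.nd (nat_lit 3) (.nd (nat_lit 4) (.nd (nat_lit 5) 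
(.lf (nat_lit 87426) (.g (nat_lit 3636) (.e (nat_lit 2003) (nat_lit 138) (.e (nat_lit 671759) (nat_lit 3) (.e (nat_lit 57474) (nat_lit 28) (.e (nat_lit 557108) (nat_lit 15) (.e (nat_lit 188452) (nat_lit 23) (.e (nat_lit 204855) (nat_lit 26) (.e (nat_lit 335928) (nat_lit 0) .nil))))))) (.g (nat_lit 5) .nil .nil))) 
(.lf (nat_lit 87458) (.g (nat_lit 2110) (.e (nat_lit 2003) (nat_lit 138) (.e (nat_lit 671759) (nat_lit 3) (.e (nat_lit 57479) (nat_lit 28) (.e (nat_lit 557109) (nat_lit 15) (.e (nat_lit 188458) (nat_lit 25) (.e (nat_lit 245784) (nat_lit 9) (.e (nat_lit 1440) (nat_lit 108) (.e (nat_lit 335927) (nat_lit 0) .nil)))))))) (.g (nat_lit 4) .nil .nil)))) (.nd (nat_lit 5) 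
(.lf (nat_lit 87442) (.g (nat_lit 4170) (.e (nat_lit 2003) (nat_lit 138) (.e (nat_lit 671759) (nat_lit 3) (.e (nat_lit 57479) (nat_lit 28) (.e (nat_lit 557098) (nat_lit 13) (.e (nat_lit 172097) (nat_lit 9) (.e (nat_lit 426125) (nat_lit 2) (.e (nat_lit 196666) (nat_lit 13) (.e (nat_lit 65553) (nat_lit 0) .nil)))))))) (.g (nat_lit 6) .nil .nil))) 
(.lf (nat_lit 87474) (.g (nat_lit 1548) (.e (nat_lit 2003) (nat_lit 138) (.e (nat_lit 671760) (nat_lit 4) (.e (nat_lit 65624) (nat_lit 12) (.e (nat_lit 385092) (nat_lit 49) (.e (nat_lit 778326) (nat_lit 6) (.e (nat_lit 81943) (nat_lit 20) .nil)))))) (.g (nat_lit 4) .nil .nil))))) (.nd (nat_lit 4) (.nd (nat_lit 5) 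
(.lf (nat_lit 87434) (.g (nat_lit 5121) (.e (nat_lit 2003) (nat_lit 138) (.e (nat_lit 671759) (nat_lit 3) (.e (nat_lit 57479) (nat_lit 28) (.e (nat_lit 557095) (nat_lit 13) (.e (nat_lit 172115) (nat_lit 10) (.e (nat_lit 434231) (nat_lit 23) (.e (nat_lit 532535) (nat_lit 9) (.e (nat_lit 335928) (nat_lit 0) .nil)))))))) (.g (nat_lit 7) .nil .nil))) 
(.lf (nat_lit 87466) (.g (nat_lit 2443) (.e (nat_lit 2003) (nat_lit 138) (.e (nat_lit 671759) (nat_lit 3) (.e (nat_lit 57480) (nat_lit 28) (.e (nat_lit 557108) (nat_lit 15) (.e (nat_lit 188452) (nat_lit 23) (.e (nat_lit 204851) (nat_lit 26) (.e (nat_lit 335973) (nat_lit 0) .nil))))))) (.g (nat_lit 5) .nil .nil)))) (.nd (nat_lit 5) 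
(.lf (nat_lit 87450) (.g (nat_lit 4206) (.e (nat_lit 2003) (nat_lit 138) (.e (nat_lit 671759) (nat_lit 3) (.e (nat_lit 57479) (nat_lit 28) (.e (nat_lit 557106) (nat_lit 15) (.e (nat_lit 188447) (nat_lit 22) (.e (nat_lit 196666) (nat_lit 13) (.e (nat_lit 65553) (nat_lit 0) .nil))))))) (.g (nat_lit 5) .nil .nil))) 
(.lf (nat_lit 87482) (.g (nat_lit 1416) (.e (nat_lit 2003) (nat_lit 138) (.e (nat_lit 671761) (nat_lit 4) (.e (nat_lit 65624) (nat_lit 12) (.e (nat_lit 385092) (nat_lit 49) .nil)))) .nil))))) (.nd (nat_lit 3) (.nd (nat_lit 4) (.nd (nat_lit 5) 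
(.lf (nat_lit 87430) (.g (nat_lit 4928) (.e (nat_lit 2003) (nat_lit 138) (.e (nat_lit 671759) (nat_lit 3) (.e (nat_lit 57479) (nat_lit 28) (.e (nat_lit 557095) (nat_lit 13) (.e (nat_lit 172097) (nat_lit 9) (.e (nat_lit 426125) (nat_lit 2) (.e (nat_lit 196666) (nat_lit 13) (.e (nat_lit 65546) (nat_lit 0) .nil)))))))) (.g (nat_lit 6) .nil .nil))) 
(.lf (nat_lit 87462) (.g (nat_lit 2137) (.e (nat_lit 2003) (nat_lit 138) (.e (nat_lit 671759) (nat_lit 3) (.e (nat_lit 57479) (nat_lit 28) (.e (nat_lit 557109) (nat_lit 15) (.e (nat_lit 188458) (nat_lit 25) (.e (nat_lit 245790) (nat_lit 13) (.e (nat_lit 65557) (nat_lit 0) .nil))))))) (.g (nat_lit 4) .nil .nil)))) (.nd (nat_lit 5) 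
(.lf (nat_lit 87446) (.g (nat_lit 2634) (.e (nat_lit 2003) (nat_lit 138) (.e (nat_lit 671759) (nat_lit 3) (.e (nat_lit 57479) (nat_lit 28) (.e (nat_lit 557099) (nat_lit 13) (.e (nat_lit 172115) (nat_lit 10) (.e (nat_lit 434231) (nat_lit 23) (.e (nat_lit 532535) (nat_lit 9) (.e (nat_lit 335928) (nat_lit 0) .nil)))))))) (.g (nat_lit 4) .nil .nil))) 
(.lf (nat_lit 87478) (.g (nat_lit 2004) (.e (nat_lit 2003) (nat_lit 138) (.e (nat_lit 671760) (nat_lit 4) (.e (nat_lit 65630) (nat_lit 14) (.e (nat_lit 401436) (nat_lit 9) (.e (nat_lit 426542) (nat_lit 29) (.e (nat_lit 352290) (nat_lit 20) .nil)))))) (.g (nat_lit 5) .nil .nil))))) (.nd (nat_lit 4) (.nd (nat_lit 5) 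
(.lf (nat_lit 87438) (.g (nat_lit 3571) (.e (nat_lit 2003) (nat_lit 138) (.e (nat_lit 671759) (nat_lit 3) (.e (nat_lit 57479) (nat_lit 28) (.e (nat_lit 557097) (nat_lit 13) (.e (nat_lit 172097) (nat_lit 9) (.e (nat_lit 426125) (nat_lit 2) (.e (nat_lit 196666) (nat_lit 13) (.e (nat_lit 65553) (nat_lit 0) .nil)))))))) (.g (nat_lit 5) .nil .nil))) 
(.lf (nat_lit 87470) (.g (nat_lit 3588) (.e (nat_lit 2003) (nat_lit 138) (.e (nat_lit 671759) (nat_lit 3) (.e (nat_lit 57480) (nat_lit 28) (.e (nat_lit 557108) (nat_lit 15) (.e (nat_lit 188452) (nat_lit 23) (.e (nat_lit 204852) (nat_lit 26) (.e (nat_lit 343808) (nat_lit 0) .nil))))))) (.g (nat_lit 6) .nil .nil)))) (.nd (nat_lit 5) 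
(.lf (nat_lit 87454) (.g (nat_lit 4243) (.e (nat_lit 2003) (nat_lit 138) (.e (nat_lit 671759) (nat_lit 3) (.e (nat_lit 57479) (nat_lit 28) (.e (nat_lit 557106) (nat_lit 15) (.e (nat_lit 188452) (nat_lit 23) (.e (nat_lit 204855) (nat_lit 26) (.e (nat_lit 335928) (nat_lit 0) .nil))))))) (.g (nat_lit 5) .nil .nil))) 
(.lf (nat_lit 87486) (.g (nat_lit 2345) (.e (nat_lit 2003) (nat_lit 138) (.e (nat_lit 671762) (nat_lit 4) (.e (nat_lit 65542) (nat_lit 0) (.e (nat_lit 6113) (nat_lit 332) (.e (nat_lit 1374) (nat_lit 104) (.e (nat_lit 303155) (nat_lit 29) (.e (nat_lit 352297) (nat_lit 20) .nil))))))) (.g (nat_lit 5) .nil .nil)))))))) 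
(.nd (nat_lit 1) (.nd (nat_lit 2) (.nd (nat_lit 3) (.nd (nat_lit 4) (.nd (nat_lit 5) 
(.lf (nat_lit 87425) (.g (nat_lit 2819) (.e (nat_lit 2003) (nat_lit 138) (.e (nat_lit 671757) (nat_lit 3) (.e (nat_lit 57479) (nat_lit 28) (.e (nat_lit 557095) (nat_lit 13) (.e (nat_lit 172115) (nat_lit 10) (.e (nat_lit 434231) (nat_lit 23) (.e (nat_lit 532535) (nat_lit 9) (.e (nat_lit 335925) (nat_lit 0) .nil)))))))) (.g (nat_lit 4) .nil .nil))) 
(.lf (nat_lit 87457) (.g (nat_lit 2516) (.e (nat_lit 2003) (nat_lit 138) (.e (nat_lit 671759) (nat_lit 3) (.e (nat_lit 57479) (nat_lit 28) (.e (nat_lit 557109) (nat_lit 15) (.e (nat_lit 188458) (nat_lit 25) (.e (nat_lit 245784) (nat_lit 9) (.e (nat_lit 1440) (nat_lit 108) (.e (nat_lit 335886) (nat_lit 0) .nil)))))))) (.g (nat_lit 5) .nil .nil)))) (.nd (nat_lit 5) 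
(.lf (nat_lit 87441) (.g (nat_lit 4129) (.e (nat_lit 2003) (nat_lit 138) (.e (nat_lit 671759) (nat_lit 3) (.e (nat_lit 57479) (nat_lit 28) (.e (nat_lit 557098) (nat_lit 13) (.e (nat_lit 172097) (nat_lit 9) (.e (nat_lit 426125) (nat_lit 2) (.e (nat_lit 196666) (nat_lit 13) (.e (nat_lit 65546) (nat_lit 0) .nil)))))))) (.g (nat_lit 6) .nil .nil))) 
(.lf (nat_lit 87473) (.g (nat_lit 1502) (.e (nat_lit 2003) (nat_lit 138) (.e (nat_lit 671760) (nat_lit 4) (.e (nat_lit 65623) (nat_lit 12) (.e (nat_lit 385094) (nat_lit 49) (.e (nat_lit 778326) (nat_lit 6) (.e (nat_lit 81938) (nat_lit 20) .nil)))))) (.g (nat_lit 4) .nil .nil))))) (.nd (nat_lit 4) (.nd (nat_lit 5) 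
(.lf (nat_lit 87433) (.g (nat_lit 3092) (.e (nat_lit 2003) (nat_lit 138) (.e (nat_lit 671759) (nat_lit 3) (.e (nat_lit 57479) (nat_lit 28) (.e (nat_lit 557095) (nat_lit 13) (.e (nat_lit 172115) (nat_lit 10) .nil))))) .nil)) 
(.lf (nat_lit 87465) (.g (nat_lit 3035) (.e (nat_lit 2003) (nat_lit 138) (.e (nat_lit 671759) (nat_lit 3) (.e (nat_lit 57480) (nat_lit 28) (.e (nat_lit 557108) (nat_lit 15) (.e (nat_lit 188452) (nat_lit 23) (.e (nat_lit 204851) (nat_lit 26) (.e (nat_lit 335971) (nat_lit 0) .nil))))))) (.g (nat_lit 7) .nil .nil)))) (.nd (nat_lit 5) 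
(.lf (nat_lit 87449) (.g (nat_lit 2214) (.e (nat_lit 2003) (nat_lit 138) (.e (nat_lit 671759) (nat_lit 3) (.e (nat_lit 57479) (nat_lit 28) (.e (nat_lit 557106) (nat_lit 15) .nil)))) .nil)) 
(.lf (nat_lit 87481) (.g (nat_lit 2455) (.e (nat_lit 2003) (nat_lit 138) (.e (nat_lit 671760) (nat_lit 4) (.e (nat_lit 65630) (nat_lit 14) (.e (nat_lit 401437) (nat_lit 9) (.e (nat_lit 426542) (nat_lit 29) (.e (nat_lit 352297) (nat_lit 20) .nil)))))) (.g (nat_lit 6) .nil .nil)))))) (.nd (nat_lit 3) (.nd (nat_lit 4) (.nd (nat_lit 5) 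
(.lf (nat_lit 87429) (.g (nat_lit 3615) (.e (nat_lit 2003) (nat_lit 138) (.e (nat_lit 671759) (nat_lit 3) (.e (nat_lit 57479) (nat_lit 28) (.e (nat_lit 557095) (nat_lit 13) (.e (nat_lit 172097) (nat_lit 9) .nil))))) .nil)) 
(.lf (nat_lit 87461) (.g (nat_lit 2042) (.e (nat_lit 2003) (nat_lit 138) (.e (nat_lit 671759) (nat_lit 3) (.e (nat_lit 57479) (nat_lit 28) (.e (nat_lit 557109) (nat_lit 15) (.e (nat_lit 188458) (nat_lit 25) (.e (nat_lit 245790) (nat_lit 13) (.e (nat_lit 65552) (nat_lit 0) .nil))))))) (.g (nat_lit 4) .nil .nil)))) (.nd (nat_lit 5) 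
(.lf (nat_lit 87445) (.g (nat_lit 3327) (.e (nat_lit 2003) (nat_lit 138) (.e (nat_lit 671759) (nat_lit 3) (.e (nat_lit 57479) (nat_lit 28) (.e (nat_lit 557099) (nat_lit 13) (.e (nat_lit 172106) (nat_lit 10) (.e (nat_lit 434231) (nat_lit 23) (.e (nat_lit 532535) (nat_lit 9) (.e (nat_lit 335928) (nat_lit 0) .nil)))))))) (.g (nat_lit 5) .nil .nil))) 
(.lf (nat_lit 87477) (.g (nat_lit 2255) (.e (nat_lit 2003) (nat_lit 138) (.e (nat_lit 671760) (nat_lit 4) (.e (nat_lit 65628) (nat_lit 14) (.e (nat_lit 401459) (nat_lit 13) (.e (nat_lit 483386) (nat_lit 23) (.e (nat_lit 335928) (nat_lit 0) .nil)))))) (.g (nat_lit 4) .nil .nil))))) (.nd (nat_lit 4) (.nd (nat_lit 5) 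
(.lf (nat_lit 87437) (.g (nat_lit 3530) (.e (nat_lit 2003) (nat_lit 138) (.e (nat_lit 671759) (nat_lit 3) (.e (nat_lit 57479) (nat_lit 28) (.e (nat_lit 557097) (nat_lit 13) (.e (nat_lit 172097) (nat_lit 9) (.e (nat_lit 426125) (nat_lit 2) (.e (nat_lit 196666) (nat_lit 13) (.e (nat_lit 65546) (nat_lit 0) .nil)))))))) (.g (nat_lit 5) .nil .nil))) 
(.lf (nat_lit 87469) (.g (nat_lit 4552) (.e (nat_lit 2003) (nat_lit 138) (.e (nat_lit 671759) (nat_lit 3) (.e (nat_lit 57480) (nat_lit 28) (.e (nat_lit 557108) (nat_lit 15) (.e (nat_lit 188452) (nat_lit 23) (.e (nat_lit 204852) (nat_lit 26) (.e (nat_lit 335973) (nat_lit 0) .nil))))))) (.g (nat_lit 6) .nil .nil)))) (.nd (nat_lit 5) 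
(.lf (nat_lit 87453) (.g (nat_lit 2662) (.e (nat_lit 2003) (nat_lit 138) (.e (nat_lit 671759) (nat_lit 3) (.e (nat_lit 57479) (nat_lit 28) (.e (nat_lit 557106) (nat_lit 15) (.e (nat_lit 188452) (nat_lit 23) .nil))))) .nil)) 
(.lf (nat_lit 87485) (.g (nat_lit 545) (.e (nat_lit 2003) (nat_lit 138) (.e (nat_lit 671762) (nat_lit 4) (.e (nat_lit 65537) (nat_lit 0) .nil))) .nil)))))) (.nd (nat_lit 2) (.nd (nat_lit 3) (.nd (nat_lit 4) (.nd (nat_lit 5) 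
(.lf (nat_lit 87427) (.g (nat_lit 2071) (.e (nat_lit 2003) (nat_lit 138) (.e (nat_lit 671759) (nat_lit 3) (.e (nat_lit 57478) (nat_lit 28) (.e (nat_lit 557097) (nat_lit 13) (.e (nat_lit 172097) (nat_lit 9) (.e (nat_lit 426125) (nat_lit 2) (.e (nat_lit 196666) (nat_lit 13) (.e (nat_lit 65553) (nat_lit 0) .nil)))))))) (.g (nat_lit 4) .nil .nil))) 
(.lf (nat_lit 87459) (.g (nat_lit 2060) (.e (nat_lit 2003) (nat_lit 138) (.e (nat_lit 671759) (nat_lit 3) (.e (nat_lit 57479) (nat_lit 28) (.e (nat_lit 557109) (nat_lit 15) (.e (nat_lit 188458) (nat_lit 25) (.e (nat_lit 245790) (nat_lit 13) (.e (nat_lit 65536) (nat_lit 0) .nil))))))) (.g (nat_lit 4) .nil .nil)))) (.nd (nat_lit 5) 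
(.lf (nat_lit 87443) (.g (nat_lit 2552) (.e (nat_lit 2003) (nat_lit 138) (.e (nat_lit 671759) (nat_lit 3) (.e (nat_lit 57479) (nat_lit 28) (.e (nat_lit 557099) (nat_lit 13) (.e (nat_lit 172097) (nat_lit 9) (.e (nat_lit 426125) (nat_lit 2) (.e (nat_lit 196666) (nat_lit 13) (.e (nat_lit 65546) (nat_lit 0) .nil)))))))) (.g (nat_lit 4) .nil .nil))) 
(.lf (nat_lit 87475) (.g (nat_lit 1525) (.e (nat_lit 2003) (nat_lit 138) (.e (nat_lit 671760) (nat_lit 4) (.e (nat_lit 65624) (nat_lit 12) (.e (nat_lit 385093) (nat_lit 49) (.e (nat_lit 778326) (nat_lit 6) (.e (nat_lit 81943) (nat_lit 20) .nil)))))) (.g (nat_lit 4) .nil .nil))))) (.nd (nat_lit 4) (.nd (nat_lit 5) 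
(.lf (nat_lit 87435) (.g (nat_lit 2068) (.e (nat_lit 2003) (nat_lit 138) (.e (nat_lit 671759) (nat_lit 3) (.e (nat_lit 57479) (nat_lit 28) (.e (nat_lit 557096) (nat_lit 13) .nil)))) .nil)) 
(.lf (nat_lit 87467) (.g (nat_lit 4515) (.e (nat_lit 2003) (nat_lit 138) (.e (nat_lit 671759) (nat_lit 3) (.e (nat_lit 57480) (nat_lit 28) (.e (nat_lit 557108) (nat_lit 15) (.e (nat_lit 188452) (nat_lit 23) (.e (nat_lit 204852) (nat_lit 26) (.e (nat_lit 335969) (nat_lit 0) .nil))))))) (.g (nat_lit 7) .nil .nil)))) (.nd (nat_lit 5) 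
(.lf (nat_lit 87451) (.g (nat_lit 3341) (.e (nat_lit 2003) (nat_lit 138) (.e (nat_lit 671759) (nat_lit 3) (.e (nat_lit 57479) (nat_lit 28) (.e (nat_lit 557106) (nat_lit 15) (.e (nat_lit 188449) (nat_lit 22) (.e (nat_lit 196666) (nat_lit 13) (.e (nat_lit 65550) (nat_lit 0) .nil))))))) (.g (nat_lit 5) .nil .nil))) 
(.lf (nat_lit 87483) (.g (nat_lit 2046) (.e (nat_lit 2003) (nat_lit 138) (.e (nat_lit 671761) (nat_lit 4) (.e (nat_lit 65624) (nat_lit 12) (.e (nat_lit 385093) (nat_lit 49) (.e (nat_lit 778326) (nat_lit 6) .nil))))) .nil))))) (.nd (nat_lit 3) (.nd (nat_lit 4) (.nd (nat_lit 5) 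
(.lf (nat_lit 87431) (.g (nat_lit 4969) (.e (nat_lit 2003) (nat_lit 138) (.e (nat_lit 671759) (nat_lit 3) (.e (nat_lit 57479) (nat_lit 28) (.e (nat_lit 557095) (nat_lit 13) (.e (nat_lit 172097) (nat_lit 9) (.e (nat_lit 426125) (nat_lit 2) (.e (nat_lit 196666) (nat_lit 13) (.e (nat_lit 65553) (nat_lit 0) .nil)))))))) (.g (nat_lit 6) .nil .nil))) 
(.lf (nat_lit 87463) (.g (nat_lit 2028) (.e (nat_lit 2003) (nat_lit 138) (.e (nat_lit 671759) (nat_lit 3) (.e (nat_lit 57480) (nat_lit 28) (.e (nat_lit 557098) (nat_lit 13) (.e (nat_lit 172097) (nat_lit 9) (.e (nat_lit 426140) (nat_lit 3) (.e (nat_lit 204855) (nat_lit 26) (.e (nat_lit 335924) (nat_lit 0) .nil)))))))) (.g (nat_lit 4) .nil .nil)))) (.nd (nat_lit 5) 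
(.lf (nat_lit 87447) (.g (nat_lit 2042) (.e (nat_lit 2003) (nat_lit 138) (.e (nat_lit 671759) (nat_lit 3) (.e (nat_lit 57479) (nat_lit 28) (.e (nat_lit 557101) (nat_lit 13) (.e (nat_lit 172097) (nat_lit 9) (.e (nat_lit 426140) (nat_lit 3) (.e (nat_lit 204855) (nat_lit 26) (.e (nat_lit 335924) (nat_lit 0) .nil)))))))) (.g (nat_lit 4) .nil .nil))) 
(.lf (nat_lit 87479) (.g (nat_lit 1971) (.e (nat_lit 2003) (nat_lit 138) (.e (nat_lit 671760) (nat_lit 4) (.e (nat_lit 65630) (nat_lit 14) (.e (nat_lit 401436) (nat_lit 9) (.e (nat_lit 426542) (nat_lit 29) (.e (nat_lit 352297) (nat_lit 20) .nil)))))) (.g (nat_lit 5) .nil .nil))))) (.nd (nat_lit 4) (.nd (nat_lit 5) 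
(.lf (nat_lit 87439) (.g (nat_lit 3704) (.e (nat_lit 2003) (nat_lit 138) (.e (nat_lit 671759) (nat_lit 3) (.e (nat_lit 57479) (nat_lit 28) (.e (nat_lit 557097) (nat_lit 13) (.e (nat_lit 172115) (nat_lit 10) (.e (nat_lit 434231) (nat_lit 23) (.e (nat_lit 532535) (nat_lit 9) (.e (nat_lit 335928) (nat_lit 0) .nil)))))))) (.g (nat_lit 5) .nil .nil))) 
(.lf (nat_lit 87471) (.g (nat_lit 4121) (.e (nat_lit 2003) (nat_lit 138) (.e (nat_lit 671759) (nat_lit 3) (.e (nat_lit 57480) (nat_lit 28) (.e (nat_lit 557108) (nat_lit 15) (.e (nat_lit 188452) (nat_lit 23) (.e (nat_lit 204856) (nat_lit 26) (.e (nat_lit 335886) (nat_lit 0) .nil))))))) (.g (nat_lit 5) .nil .nil)))) (.nd (nat_lit 5) 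
(.lf (nat_lit 87455) (.g (nat_lit 1184) (.e (nat_lit 2003) (nat_lit 138) (.e (nat_lit 671759) (nat_lit 3) (.e (nat_lit 57479) (nat_lit 28) (.e (nat_lit 557109) (nat_lit 15) .nil)))) .nil)) 
(.lf (nat_lit 87487) (.g (nat_lit 1842) (.e (nat_lit 2003) (nat_lit 138) (.e (nat_lit 671762) (nat_lit 4) (.e (nat_lit 65542) (nat_lit 0) (.e (nat_lit 6113) (nat_lit 332) (.e (nat_lit 1376) (nat_lit 104) (.e (nat_lit 303155) (nat_lit 29) (.e (nat_lit 352297) (nat_lit 20) .nil))))))) (.g (nat_lit 5) .nil .nil)))))))))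

noncomputable def tv1190 : DT := (.nd (nat_lit 0) (.nd (nat_lit 1) (.nd (nat_lit 2) (.nd (nat_lit 3) (.nd (nat_lit 4) (.nd (nat_lit 5) 
(.lf (nat_lit 87488) (.g (nat_lit 1582) (.e (nat_lit 2003) (nat_lit 138) (.e (nat_lit 671762) (nat_lit 4) (.e (nat_lit 65543) (nat_lit 0) (.e (nat_lit 6113) (nat_lit 332) (.e (nat_lit 1376) (nat_lit 104) (.e (nat_lit 303155) (nat_lit 29) (.e (nat_lit 352297) (nat_lit 20) .nil))))))) (.g (nat_lit 4) .nil .nil))) 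
(.lf (nat_lit 87520) (.g (nat_lit 550) (.e (nat_lit 2003) (nat_lit 138) (.e (nat_lit 671762) (nat_lit 4) (.e (nat_lit 65599) (nat_lit 9) .nil))) .nil))) (.nd (nat_lit 5) 
(.lf (nat_lit 87504) (.g (nat_lit 1113) (.e (nat_lit 2003) (nat_lit 138) (.e (nat_lit 671762) (nat_lit 4) (.e (nat_lit 65585) (nat_lit 7) (.e (nat_lit 319539) (nat_lit 19) (.e (nat_lit 311358) (nat_lit 29) (.e (nat_lit 352296) (nat_lit 20) .nil)))))) (.g (nat_lit 4) .nil .nil))) 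
(.lf (nat_lit 87536) (.g (nat_lit 1788) (.e (nat_lit 2003) (nat_lit 138) (.e (nat_lit 671762) (nat_lit 4) (.e (nat_lit 65616) (nat_lit 10) (.e (nat_lit 344168) (nat_lit 40) (.e (nat_lit 671764) (nat_lit 6) (.e (nat_lit 81943) (nat_lit 20) .nil)))))) (.g (nat_lit 5) .nil .nil))))) (.nd (nat_lit 4) (.nd (nat_lit 5) 
(.lf (nat_lit 87496) (.g (nat_lit 1804) (.e (nat_lit 2003) (nat_lit 138) (.e (nat_lit 671762) (nat_lit 4) (.e (nat_lit 65583) (nat_lit 7) (.e (nat_lit 319539) (nat_lit 19) (.e (nat_lit 311358) (nat_lit 29) (.e (nat_lit 352303) (nat_lit 20) .nil)))))) (.g (nat_lit 6) .nil .nil))) 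
(.lf (nat_lit 87528) (.g (nat_lit 1363) (.e (nat_lit 2003) (nat_lit 138) (.e (nat_lit 671762) (nat_lit 4) (.e (nat_lit 65610) (nat_lit 10) (.e (nat_lit 344168) (nat_lit 40) (.e (nat_lit 671764) (nat_lit 6) (.e (nat_lit 81928) (nat_lit 20) .nil)))))) (.g (nat_lit 4) .nil .nil)))) (.nd (nat_lit 5) 
(.lf (nat_lit 87512) (.g (nat_lit 1151) (.e (nat_lit 2003) (nat_lit 138) (.e (nat_lit 671762) (nat_lit 4) (.e (nat_lit 65598) (nat_lit 9) (.e (nat_lit 335907) (nat_lit 0) .nil)))) .nil)) 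
(.lf (nat_lit 87544) (.g (nat_lit 1655) (.e (nat_lit 2003) (nat_lit 138) (.e (nat_lit 671762) (nat_lit 4) (.e (nat_lit 65617) (nat_lit 10) (.e (nat_lit 344169) (nat_lit 40) (.e (nat_lit 671764) (nat_lit 6) .nil))))) .nil))))) (.nd (nat_lit 3) (.nd (nat_lit 4) (.nd (nat_lit 5) 
(.lf (nat_lit 87492) (.g (nat_lit 2092) (.e (nat_lit 2003) (nat_lit 138) (.e (nat_lit 671762) (nat_lit 4) (.e (nat_lit 65583) (nat_lit 7) (.e (nat_lit 319506) (nat_lit 10) (.e (nat_lit 5721) (nat_lit 312) (.e (nat_lit 317) (nat_lit 23) (.e (nat_lit 352297) (nat_lit 20) .nil))))))) (.g (nat_lit 4) .nil .nil))) 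
(.lf (nat_lit 87524) (.g (nat_lit 1441) (.e (nat_lit 2003) (nat_lit 138) (.e (nat_lit 671762) (nat_lit 4) (.e (nat_lit 65604) (nat_lit 9) (.e (nat_lit 335997) (nat_lit 1) (.e (nat_lit 57872) (nat_lit 264) .nil))))) .nil))) (.nd (nat_lit 5) 
(.lf (nat_lit 87508) (.g (nat_lit 1505) (.e (nat_lit 2003) (nat_lit 138) (.e (nat_lit 671762) (nat_lit 4) (.e (nat_lit 65586) (nat_lit 7) (.e (nat_lit 319539) (nat_lit 19) (.e (nat_lit 311358) (nat_lit 29) .nil))))) .nil)) 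
(.lf (nat_lit 87540) (.g (nat_lit 1321) (.e (nat_lit 2003) (nat_lit 138) (.e (nat_lit 671762) (nat_lit 4) (.e (nat_lit 65617) (nat_lit 10) (.e (nat_lit 344168) (nat_lit 40) .nil)))) .nil)))) (.nd (nat_lit 4) (.nd (nat_lit 5) 
(.lf (nat_lit 87500) (.g (nat_lit 1850) (.e (nat_lit 2003) (nat_lit 138) (.e (nat_lit 671762) (nat_lit 4) (.e (nat_lit 65584) (nat_lit 7) (.e (nat_lit 319539) (nat_lit 19) (.e (nat_lit 311358) (nat_lit 29) (.e (nat_lit 352297) (nat_lit 20) .nil)))))) (.g (nat_lit 5) .nil .nil))) 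
(.lf (nat_lit 87532) (.g (nat_lit 1513) (.e (nat_lit 2003) (nat_lit 138) (.e (nat_lit 671762) (nat_lit 4) (.e (nat_lit 65610) (nat_lit 10) (.e (nat_lit 344169) (nat_lit 40) (.e (nat_lit 671764) (nat_lit 6) (.e (nat_lit 81946) (nat_lit 20) .nil)))))) (.g (nat_lit 4) .nil .nil)))) (.nd (nat_lit 5) 
(.lf (nat_lit 87516) (.g (nat_lit 1962) (.e (nat_lit 2003) (nat_lit 138) (.e (nat_lit 671762) (nat_lit 4) (.e (nat_lit 65598) (nat_lit 9) (.e (nat_lit 335997) (nat_lit 1) (.e (nat_lit 57870) (nat_lit 264) (.e (nat_lit 1219) (nat_lit 90) (.e (nat_lit 81947) (nat_lit 20) .nil))))))) (.g (nat_lit 4) .nil .nil))) 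
(.lf (nat_lit 87548) (.g (nat_lit 1687) (.e (nat_lit 2003) (nat_lit 138) (.e (nat_lit 671762) (nat_lit 4) (.e (nat_lit 65619) (nat_lit 10) (.e (nat_lit 344168) (nat_lit 40) (.e (nat_lit 671764) (nat_lit 6) (.e (nat_lit 81928) (nat_lit 20) .nil)))))) (.g (nat_lit 4) .nil .nil))))))) (.nd (nat_lit 2) (.nd (nat_lit 3) (.nd (nat_lit 4) (.nd (nat_lit 5) 
(.lf (nat_lit 87490) (.g (nat_lit 513) (.e (nat_lit 2003) (nat_lit 138) (.e (nat_lit 671762) (nat_lit 4) (.e (nat_lit 65582) (nat_lit 7) .nil))) .nil)) 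
(.lf (nat_lit 87522) (.g (nat_lit 1647) (.e (nat_lit 2003) (nat_lit 138) (.e (nat_lit 671762) (nat_lit 4) (.e (nat_lit 65604) (nat_lit 9) (.e (nat_lit 335907) (nat_lit 0) (.e (nat_lit 1994) (nat_lit 137) .nil))))) .nil))) (.nd (nat_lit 5) 
(.lf (nat_lit 87506) (.g (nat_lit 1642) (.e (nat_lit 2003) (nat_lit 138) (.e (nat_lit 671762) (nat_lit 4) (.e (nat_lit 65585) (nat_lit 7) (.e (nat_lit 319539) (nat_lit 19) (.e (nat_lit 311358) (nat_lit 29) (.e (nat_lit 352303) (nat_lit 20) .nil)))))) (.g (nat_lit 5) .nil .nil))) 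
(.lf (nat_lit 87538) (.g (nat_lit 2232) (.e (nat_lit 2003) (nat_lit 138) (.e (nat_lit 671762) (nat_lit 4) (.e (nat_lit 65616) (nat_lit 10) (.e (nat_lit 344169) (nat_lit 40) (.e (nat_lit 671764) (nat_lit 6) (.e (nat_lit 81938) (nat_lit 20) .nil)))))) (.g (nat_lit 6) .nil .nil))))) (.nd (nat_lit 4) (.nd (nat_lit 5) 
(.lf (nat_lit 87498) (.g (nat_lit 1346) (.e (nat_lit 2003) (nat_lit 138) (.e (nat_lit 671762) (nat_lit 4) (.e (nat_lit 65584) (nat_lit 7) (.e (nat_lit 319539) (nat_lit 19) (.e (nat_lit 311358) (nat_lit 29) (.e (nat_lit 352280) (nat_lit 20) .nil)))))) (.g (nat_lit 4) .nil .nil))) 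
(.lf (nat_lit 87530) (.g (nat_lit 1655) (.e (nat_lit 2003) (nat_lit 138) (.e (nat_lit 671762) (nat_lit 4) (.e (nat_lit 65610) (nat_lit 10) (.e (nat_lit 344169) (nat_lit 40) (.e (nat_lit 671764) (nat_lit 6) (.e (nat_lit 81928) (nat_lit 20) .nil)))))) (.g (nat_lit 4) .nil .nil)))) (.nd (nat_lit 5) 
(.lf (nat_lit 87514) (.g (nat_lit 1826) (.e (nat_lit 2003) (nat_lit 138) (.e (nat_lit 671762) (nat_lit 4) (.e (nat_lit 65598) (nat_lit 9) (.e (nat_lit 335907) (nat_lit 0) (.e (nat_lit 1996) (nat_lit 137) .nil))))) .nil)) 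
(.lf (nat_lit 87546) (.g (nat_lit 2126) (.e (nat_lit 2003) (nat_lit 138) (.e (nat_lit 671762) (nat_lit 4) (.e (nat_lit 65617) (nat_lit 10) (.e (nat_lit 344169) (nat_lit 40) (.e (nat_lit 671764) (nat_lit 6) (.e (nat_lit 81947) (nat_lit 20) .nil)))))) (.g (nat_lit 5) .nil .nil)))))) (.nd (nat_lit 3) (.nd (nat_lit 4) (.nd (nat_lit 5) 
(.lf (nat_lit 87494) (.g (nat_lit 1447) (.e (nat_lit 2003) (nat_lit 138) (.e (nat_lit 671762) (nat_lit 4) (.e (nat_lit 65583) (nat_lit 7) (.e (nat_lit 319539) (nat_lit 19) (.e (nat_lit 311358) (nat_lit 29) (.e (nat_lit 352280) (nat_lit 20) .nil)))))) (.g (nat_lit 4) .nil .nil))) 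
(.lf (nat_lit 87526) (.g (nat_lit 1663) (.e (nat_lit 2003) (nat_lit 138) (.e (nat_lit 671762) (nat_lit 4) (.e (nat_lit 65610) (nat_lit 10) (.e (nat_lit 344097) (nat_lit 18) (.e (nat_lit 5907) (nat_lit 320) .nil))))) .nil))) (.nd (nat_lit 5) 
(.lf (nat_lit 87510) (.g (nat_lit 1874) (.e (nat_lit 2003) (nat_lit 138) (.e (nat_lit 671762) (nat_lit 4) (.e (nat_lit 65586) (nat_lit 7) (.e (nat_lit 319539) (nat_lit 19) (.e (nat_lit 311358) (nat_lit 29) (.e (nat_lit 352297) (nat_lit 20) .nil)))))) (.g (nat_lit 4) .nil .nil))) 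
(.lf (nat_lit 87542) (.g (nat_lit 2028) (.e (nat_lit 2003) (nat_lit 138) (.e (nat_lit 671762) (nat_lit 4) (.e (nat_lit 65617) (nat_lit 10) (.e (nat_lit 344168) (nat_lit 40) (.e (nat_lit 671764) (nat_lit 6) (.e (nat_lit 81943) (nat_lit 20) .nil)))))) (.g (nat_lit 4) .nil .nil))))) (.nd (nat_lit 4) (.nd (nat_lit 5) 
(.lf (nat_lit 87502) (.g (nat_lit 1273) (.e (nat_lit 2003) (nat_lit 138) (.e (nat_lit 671762) (nat_lit 4) (.e (nat_lit 65585) (nat_lit 7) (.e (nat_lit 319539) (nat_lit 19) (.e (nat_lit 311358) (nat_lit 29) (.e (nat_lit 352280) (nat_lit 20) .nil)))))) (.g (nat_lit 4) .nil .nil))) 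
(.lf (nat_lit 87534) (.g (nat_lit 1076) (.e (nat_lit 2003) (nat_lit 138) (.e (nat_lit 671762) (nat_lit 4) (.e (nat_lit 65611) (nat_lit 10) (.e (nat_lit 344169) (nat_lit 40) (.e (nat_lit 671764) (nat_lit 6) .nil))))) .nil))) (.nd (nat_lit 5) 
(.lf (nat_lit 87518) (.g (nat_lit 3012) (.e (nat_lit 2003) (nat_lit 138) (.e (nat_lit 671762) (nat_lit 4) (.e (nat_lit 65598) (nat_lit 9) (.e (nat_lit 335997) (nat_lit 1) (.e (nat_lit 57872) (nat_lit 264) (.e (nat_lit 1219) (nat_lit 90) (.e (nat_lit 81943) (nat_lit 20) .nil))))))) (.g (nat_lit 6) .nil .nil))) 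
(.lf (nat_lit 87550) (.g (nat_lit 1690) (.e (nat_lit 2003) (nat_lit 138) (.e (nat_lit 671762) (nat_lit 4) (.e (nat_lit 65619) (nat_lit 10) (.e (nat_lit 344168) (nat_lit 40) (.e (nat_lit 671764) (nat_lit 6) (.e (nat_lit 81946) (nat_lit 20) .nil)))))) (.g (nat_lit 4) .nil .nil)))))))) (.nd (nat_lit 1) (.nd (nat_lit 2) (.nd (nat_lit 3) (.nd (nat_lit 4) (.nd (nat_lit 5) 
(.lf (nat_lit 87489) (.g (nat_lit 538) (.e (nat_lit 2003) (nat_lit 138) (.e (nat_lit 671762) (nat_lit 4) (.e (nat_lit 65581) (nat_lit 7) .nil))) .nil)) 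
(.lf (nat_lit 87521) (.g (nat_lit 1191) (.e (nat_lit 2003) (nat_lit 138) (.e (nat_lit 671762) (nat_lit 4) (.e (nat_lit 65599) (nat_lit 9) (.e (nat_lit 336032) (nat_lit 4) .nil)))) .nil))) (.nd (nat_lit 5) 
(.lf (nat_lit 87505) (.g (nat_lit 1777) (.e (nat_lit 2003) (nat_lit 138) (.e (nat_lit 671762) (nat_lit 4) (.e (nat_lit 65585) (nat_lit 7) (.e (nat_lit 319539) (nat_lit 19) (.e (nat_lit 311358) (nat_lit 29) (.e (nat_lit 352297) (nat_lit 20) .nil)))))) (.g (nat_lit 6) .nil .nil))) 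
(.lf (nat_lit 87537) (.g (nat_lit 1138) (.e (nat_lit 2003) (nat_lit 138) (.e (nat_lit 671762) (nat_lit 4) (.e (nat_lit 65616) (nat_lit 10) (.e (nat_lit 344169) (nat_lit 40) (.e (nat_lit 671764) (nat_lit 6) .nil))))) .nil)))) (.nd (nat_lit 4) (.nd (nat_lit 5) 
(.lf (nat_lit 87497) (.g (nat_lit 436) (.e (nat_lit 2003) (nat_lit 138) (.e (nat_lit 671762) (nat_lit 4) (.e (nat_lit 65584) (nat_lit 7) .nil))) .nil)) 
(.lf (nat_lit 87529) (.g (nat_lit 1328) (.e (nat_lit 2003) (nat_lit 138) (.e (nat_lit 671762) (nat_lit 4) (.e (nat_lit 65610) (nat_lit 10) (.e (nat_lit 344168) (nat_lit 40) (.e (nat_lit 671764) (nat_lit 6) (.e (nat_lit 81946) (nat_lit 20) .nil)))))) (.g (nat_lit 4) .nil .nil)))) (.nd (nat_lit 5) 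
(.lf (nat_lit 87513) (.g (nat_lit 1830) (.e (nat_lit 2003) (nat_lit 138) (.e (nat_lit 671762) (nat_lit 4) (.e (nat_lit 65598) (nat_lit 9) (.e (nat_lit 335907) (nat_lit 0) (.e (nat_lit 1994) (nat_lit 137) (.e (nat_lit 663569) (nat_lit 6) (.e (nat_lit 81943) (nat_lit 20) .nil))))))) (.g (nat_lit 4) .nil .nil))) 
(.lf (nat_lit 87545) (.g (nat_lit 2163) (.e (nat_lit 2003) (nat_lit 138) (.e (nat_lit 671762) (nat_lit 4) (.e (nat_lit 65617) (nat_lit 10) (.e (nat_lit 344169) (nat_lit 40) (.e (nat_lit 671764) (nat_lit 6) (.e (nat_lit 81943) (nat_lit 20) .nil)))))) (.g (nat_lit 5) .nil .nil)))))) (.nd (nat_lit 3) (.nd (nat_lit 4) (.nd (nat_lit 5) 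
(.lf (nat_lit 87493) (.g (nat_lit 2004) (.e (nat_lit 2003) (nat_lit 138) (.e (nat_lit 671762) (nat_lit 4) (.e (nat_lit 65583) (nat_lit 7) (.e (nat_lit 319506) (nat_lit 10) (.e (nat_lit 5722) (nat_lit 312) (.e (nat_lit 317) (nat_lit 23) (.e (nat_lit 352297) (nat_lit 20) .nil))))))) (.g (nat_lit 4) .nil .nil))) 
(.lf (nat_lit 87525) (.g (nat_lit 3052) (.e (nat_lit 2003) (nat_lit 138) (.e (nat_lit 671762) (nat_lit 4) (.e (nat_lit 65604) (nat_lit 9) (.e (nat_lit 335997) (nat_lit 1) (.e (nat_lit 57872) (nat_lit 264) (.e (nat_lit 1219) (nat_lit 90) (.e (nat_lit 81943) (nat_lit 20) .nil))))))) (.g (nat_lit 0) .nil .nil)))) (.nd (nat_lit 5) 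
(.lf (nat_lit 87509) (.g (nat_lit 1861) (.e (nat_lit 2003) (nat_lit 138) (.e (nat_lit 671762) (nat_lit 4) (.e (nat_lit 65586) (nat_lit 7) (.e (nat_lit 319539) (nat_lit 19) (.e (nat_lit 311358) (nat_lit 29) (.e (nat_lit 352290) (nat_lit 20) .nil)))))) (.g (nat_lit 4) .nil .nil))) 
(.lf (nat_lit 87541) (.g (nat_lit 2435) (.e (nat_lit 2003) (nat_lit 138) (.e (nat_lit 671762) (nat_lit 4) (.e (nat_lit 65617) (nat_lit 10) (.e (nat_lit 344168) (nat_lit 40) (.e (nat_lit 671764) (nat_lit 6) (.e (nat_lit 81938) (nat_lit 20) .nil)))))) (.g (nat_lit 5) .nil .nil))))) (.nd (nat_lit 4) (.nd (nat_lit 5) 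
(.lf (nat_lit 87501) (.g (nat_lit 1717) (.e (nat_lit 2003) (nat_lit 138) (.e (nat_lit 671762) (nat_lit 4) (.e (nat_lit 65584) (nat_lit 7) (.e (nat_lit 319539) (nat_lit 19) (.e (nat_lit 311358) (nat_lit 29) (.e (nat_lit 352303) (nat_lit 20) .nil)))))) (.g (nat_lit 5) .nil .nil))) 
(.lf (nat_lit 87533) (.g (nat_lit 1076) (.e (nat_lit 2003) (nat_lit 138) (.e (nat_lit 671762) (nat_lit 4) (.e (nat_lit 65611) (nat_lit 10) (.e (nat_lit 344168) (nat_lit 40) (.e (nat_lit 671764) (nat_lit 6) (.e (nat_lit 81928) (nat_lit 20) .nil)))))) (.g (nat_lit 4) .nil .nil)))) (.nd (nat_lit 5) 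
(.lf (nat_lit 87517) (.g (nat_lit 1747) (.e (nat_lit 2003) (nat_lit 138) (.e (nat_lit 671762) (nat_lit 4) (.e (nat_lit 65598) (nat_lit 9) (.e (nat_lit 335997) (nat_lit 1) (.e (nat_lit 57871) (nat_lit 264) .nil))))) .nil)) 
(.lf (nat_lit 87549) (.g (nat_lit 1405) (.e (nat_lit 2003) (nat_lit 138) (.e (nat_lit 671762) (nat_lit 4) (.e (nat_lit 65619) (nat_lit 10) (.e (nat_lit 344168) (nat_lit 40) (.e (nat_lit 671764) (nat_lit 6) (.e (nat_lit 81942) (nat_lit 20) .nil)))))) (.g (nat_lit 4) .nil .nil))))))) (.nd (nat_lit 2) (.nd (nat_lit 3) (.nd (nat_lit 4) (.nd (nat_lit 5) 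
(.lf (nat_lit 87491) (.g (nat_lit 1744) (.e (nat_lit 2003) (nat_lit 138) (.e (nat_lit 671762) (nat_lit 4) (.e (nat_lit 65583) (nat_lit 7) (.e (nat_lit 319506) (nat_lit 10) (.e (nat_lit 5721) (nat_lit 312) .nil))))) .nil)) 
(.lf (nat_lit 87523) (.g (nat_lit 1665) (.e (nat_lit 2003) (nat_lit 138) (.e (nat_lit 671762) (nat_lit 4) (.e (nat_lit 65604) (nat_lit 9) (.e (nat_lit 335907) (nat_lit 0) (.e (nat_lit 1996) (nat_lit 137) .nil))))) .nil))) (.nd (nat_lit 5) 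
(.lf (nat_lit 87507) (.g (nat_lit 453) (.e (nat_lit 2003) (nat_lit 138) (.e (nat_lit 671762) (nat_lit 4) (.e (nat_lit 65586) (nat_lit 7) .nil))) .nil)) 
(.lf (nat_lit 87539) (.g (nat_lit 1873) (.e (nat_lit 2003) (nat_lit 138) (.e (nat_lit 671762) (nat_lit 4) (.e (nat_lit 65616) (nat_lit 10) (.e (nat_lit 344169) (nat_lit 40) (.e (nat_lit 671764) (nat_lit 6) (.e (nat_lit 81943) (nat_lit 20) .nil)))))) (.g (nat_lit 6) .nil .nil))))) (.nd (nat_lit 4) (.nd (nat_lit 5) 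
(.lf (nat_lit 87499) (.g (nat_lit 1807) (.e (nat_lit 2003) (nat_lit 138) (.e (nat_lit 671762) (nat_lit 4) (.e (nat_lit 65584) (nat_lit 7) (.e (nat_lit 319539) (nat_lit 19) (.e (nat_lit 311358) (nat_lit 29) (.e (nat_lit 352290) (nat_lit 20) .nil)))))) (.g (nat_lit 5) .nil .nil))) 
(.lf (nat_lit 87531) (.g (nat_lit 1446) (.e (nat_lit 2003) (nat_lit 138) (.e (nat_lit 671762) (nat_lit 4) (.e (nat_lit 65610) (nat_lit 10) (.e (nat_lit 344169) (nat_lit 40) (.e (nat_lit 671764) (nat_lit 6) (.e (nat_lit 81942) (nat_lit 20) .nil)))))) (.g (nat_lit 4) .nil .nil)))) (.nd (nat_lit 5) 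
(.lf (nat_lit 87515) (.g (nat_lit 1734) (.e (nat_lit 2003) (nat_lit 138) (.e (nat_lit 671762) (nat_lit 4) (.e (nat_lit 65598) (nat_lit 9) (.e (nat_lit 335997) (nat_lit 1) (.e (nat_lit 57870) (nat_lit 264) .nil))))) .nil)) 
(.lf (nat_lit 87547) (.g (nat_lit 4322) (.e (nat_lit 2003) (nat_lit 138) (.e (nat_lit 671762) (nat_lit 4) (.e (nat_lit 65619) (nat_lit 10) (.e (nat_lit 344097) (nat_lit 18) (.e (nat_lit 5907) (nat_lit 320) (.e (nat_lit 1221) (nat_lit 90) (.e (nat_lit 81947) (nat_lit 20) .nil))))))) (.g (nat_lit 0) .nil .nil)))))) (.nd (nat_lit 3) (.nd (nat_lit 4) (.nd (nat_lit 5) 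
(.lf (nat_lit 87495) (.g (nat_lit 1285) (.e (nat_lit 2003) (nat_lit 138) (.e (nat_lit 671762) (nat_lit 4) (.e (nat_lit 65583) (nat_lit 7) (.e (nat_lit 319539) (nat_lit 19) (.e (nat_lit 311358) (nat_lit 29) (.e (nat_lit 352296) (nat_lit 20) .nil)))))) (.g (nat_lit 4) .nil .nil))) 
(.lf (nat_lit 87527) (.g (nat_lit 1286) (.e (nat_lit 2003) (nat_lit 138) (.e (nat_lit 671762) (nat_lit 4) (.e (nat_lit 65610) (nat_lit 10) (.e (nat_lit 344168) (nat_lit 40) (.e (nat_lit 671764) (nat_lit 6) .nil))))) .nil))) (.nd (nat_lit 5) 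
(.lf (nat_lit 87511) (.g (nat_lit 1726) (.e (nat_lit 2003) (nat_lit 138) (.e (nat_lit 671762) (nat_lit 4) (.e (nat_lit 65586) (nat_lit 7) (.e (nat_lit 319539) (nat_lit 19) (.e (nat_lit 311358) (nat_lit 29) (.e (nat_lit 352303) (nat_lit 20) .nil)))))) (.g (nat_lit 4) .nil .nil))) 
(.lf (nat_lit 87543) (.g (nat_lit 1981) (.e (nat_lit 2003) (nat_lit 138) (.e (nat_lit 671762) (nat_lit 4) (.e (nat_lit 65617) (nat_lit 10) (.e (nat_lit 344168) (nat_lit 40) (.e (nat_lit 671764) (nat_lit 6) (.e (nat_lit 81947) (nat_lit 20) .nil)))))) (.g (nat_lit 4) .nil .nil))))) (.nd (nat_lit 4) (.nd (nat_lit 5) 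
(.lf (nat_lit 87503) (.g (nat_lit 1731) (.e (nat_lit 2003) (nat_lit 138) (.e (nat_lit 671762) (nat_lit 4) (.e (nat_lit 65585) (nat_lit 7) (.e (nat_lit 319539) (nat_lit 19) (.e (nat_lit 311358) (nat_lit 29) (.e (nat_lit 352290) (nat_lit 20) .nil)))))) (.g (nat_lit 6) .nil .nil))) 
(.lf (nat_lit 87535) (.g (nat_lit 1277) (.e (nat_lit 2003) (nat_lit 138) (.e (nat_lit 671762) (nat_lit 4) (.e (nat_lit 65616) (nat_lit 10) (.e (nat_lit 344168) (nat_lit 40) (.e (nat_lit 671764) (nat_lit 6) .nil))))) .nil))) (.nd (nat_lit 5) 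
(.lf (nat_lit 87519) (.g (nat_lit 2758) (.e (nat_lit 2003) (nat_lit 138) (.e (nat_lit 671762) (nat_lit 4) (.e (nat_lit 65598) (nat_lit 9) (.e (nat_lit 336032) (nat_lit 4) (.e (nat_lit 123184) (nat_lit 264) (.e (nat_lit 1222) (nat_lit 90) (.e (nat_lit 81943) (nat_lit 20) .nil))))))) (.g (nat_lit 6) .nil .nil))) 
(.lf (nat_lit 87551) (.g (nat_lit 1401) (.e (nat_lit 2003) (nat_lit 138) (.e (nat_lit 671762) (nat_lit 4) (.e (nat_lit 65619) (nat_lit 10) (.e (nat_lit 344169) (nat_lit 40) (.e (nat_lit 671764) (nat_lit 6) .nil))))) .nil))))))))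

noncomputable def tv1191 : DT := (.nd (nat_lit 0) (.nd (nat_lit 1) (.nd (nat_lit 2) (.nd (nat_lit 3) (.nd (nat_lit 4) (.nd (nat_lit 5) 
(.lf (nat_lit 87552) (.g (nat_lit 1756) (.e (nat_lit 2003) (nat_lit 138) (.e (nat_lit 671762) (nat_lit 4) (.e (nat_lit 65619) (nat_lit 10) (.e (nat_lit 344169) (nat_lit 40) (.e (nat_lit 671764) (nat_lit 6) (.e (nat_lit 81928) (nat_lit 20) .nil)))))) (.g (nat_lit 4) .nil .nil))) 
(.lf (nat_lit 87584) (.g (nat_lit 2256) (.e (nat_lit 2003) (nat_lit 138) (.e (nat_lit 671762) (nat_lit 4) (.e (nat_lit 65629) (nat_lit 14) (.e (nat_lit 401438) (nat_lit 9) (.e (nat_lit 426542) (nat_lit 29) (.e (nat_lit 352297) (nat_lit 20) .nil)))))) (.g (nat_lit 4) .nil .nil)))) (.nd (nat_lit 5) 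
(.lf (nat_lit 87568) (.g (nat_lit 2572) (.e (nat_lit 2003) (nat_lit 138) (.e (nat_lit 671762) (nat_lit 4) (.e (nat_lit 65622) (nat_lit 12) (.e (nat_lit 385094) (nat_lit 49) (.e (nat_lit 778326) (nat_lit 6) (.e (nat_lit 81938) (nat_lit 20) .nil)))))) (.g (nat_lit 6) .nil .nil))) 
(.lf (nat_lit 87600) (.g (nat_lit 1473) (.e (nat_lit 2003) (nat_lit 138) (.e (nat_lit 671763) (nat_lit 5) (.e (nat_lit 73789) (nat_lit 45) (.e (nat_lit 1385) (nat_lit 105) (.e (nat_lit 311358) (nat_lit 29) (.e (nat_lit 352297) (nat_lit 20) .nil)))))) (.g (nat_lit 0) .nil .nil))))) (.nd (nat_lit 4) (.nd (nat_lit 5) 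
(.lf (nat_lit 87560) (.g (nat_lit 1769) (.e (nat_lit 2003) (nat_lit 138) (.e (nat_lit 671762) (nat_lit 4) (.e (nat_lit 65620) (nat_lit 10) (.e (nat_lit 344169) (nat_lit 40) (.e (nat_lit 671764) (nat_lit 6) (.e (nat_lit 81943) (nat_lit 20) .nil)))))) (.g (nat_lit 5) .nil .nil))) 
(.lf (nat_lit 87592) (.g (nat_lit 2868) (.e (nat_lit 2003) (nat_lit 138) (.e (nat_lit 671762) (nat_lit 4) (.e (nat_lit 65629) (nat_lit 14) (.e (nat_lit 401459) (nat_lit 13) (.e (nat_lit 483389) (nat_lit 23) .nil))))) .nil))) (.nd (nat_lit 5) 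
(.lf (nat_lit 87576) (.g (nat_lit 2448) (.e (nat_lit 2003) (nat_lit 138) (.e (nat_lit 671762) (nat_lit 4) (.e (nat_lit 65624) (nat_lit 12) (.e (nat_lit 385093) (nat_lit 49) (.e (nat_lit 778326) (nat_lit 6) (.e (nat_lit 81943) (nat_lit 20) .nil)))))) (.g (nat_lit 0) .nil .nil))) 
(.lf (nat_lit 87608) (.g (nat_lit 705) (.e (nat_lit 2003) (nat_lit 138) (.e (nat_lit 671763) (nat_lit 5) (.e (nat_lit 73794) (nat_lit 46) (.e (nat_lit 57864) (nat_lit 256) (.e (nat_lit 317) (nat_lit 23) (.e (nat_lit 352297) (nat_lit 20) .nil)))))) (.g (nat_lit 0) .nil .nil)))))) (.nd (nat_lit 3) (.nd (nat_lit 4) (.nd (nat_lit 5) 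
(.lf (nat_lit 87556) (.g (nat_lit 2082) (.e (nat_lit 2003) (nat_lit 138) (.e (nat_lit 671762) (nat_lit 4) (.e (nat_lit 65620) (nat_lit 10) (.e (nat_lit 344168) (nat_lit 40) (.e (nat_lit 671764) (nat_lit 6) (.e (nat_lit 81938) (nat_lit 20) .nil)))))) (.g (nat_lit 5) .nil .nil))) 
(.lf (nat_lit 87588) (.g (nat_lit 4575) (.e (nat_lit 2003) (nat_lit 138) (.e (nat_lit 671762) (nat_lit 4) (.e (nat_lit 65629) (nat_lit 14) (.e (nat_lit 401459) (nat_lit 13) (.e (nat_lit 483380) (nat_lit 23) (.e (nat_lit 335973) (nat_lit 0) .nil)))))) (.g (nat_lit 0) .nil .nil)))) (.nd (nat_lit 5) 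
(.lf (nat_lit 87572) (.g (nat_lit 1569) (.e (nat_lit 2003) (nat_lit 138) (.e (nat_lit 671762) (nat_lit 4) (.e (nat_lit 65623) (nat_lit 12) (.e (nat_lit 385094) (nat_lit 49) (.e (nat_lit 778327) (nat_lit 6) (.e (nat_lit 81946) (nat_lit 20) .nil)))))) (.g (nat_lit 4) .nil .nil))) 
(.lf (nat_lit 87604) (.g (nat_lit 1346) (.e (nat_lit 2003) (nat_lit 138) (.e (nat_lit 671763) (nat_lit 5) (.e (nat_lit 73792) (nat_lit 45) (.e (nat_lit 1385) (nat_lit 105) (.e (nat_lit 311358) (nat_lit 29) (.e (nat_lit 352303) (nat_lit 20) .nil)))))) (.g (nat_lit 5) .nil .nil))))) (.nd (nat_lit 4) (.nd (nat_lit 5) 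
(.lf (nat_lit 87564) (.g (nat_lit 1561) (.e (nat_lit 2003) (nat_lit 138) (.e (nat_lit 671762) (nat_lit 4) (.e (nat_lit 65622) (nat_lit 12) (.e (nat_lit 385092) (nat_lit 49) (.e (nat_lit 778326) (nat_lit 6) (.e (nat_lit 81938) (nat_lit 20) .nil)))))) (.g (nat_lit 4) .nil .nil))) 
(.lf (nat_lit 87596) (.g (nat_lit 2500) (.e (nat_lit 2003) (nat_lit 138) (.e (nat_lit 671762) (nat_lit 4) (.e (nat_lit 65630) (nat_lit 14) (.e (nat_lit 401444) (nat_lit 9) (.e (nat_lit 426541) (nat_lit 29) .nil))))) .nil))) (.nd (nat_lit 5) 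
(.lf (nat_lit 87580) (.g (nat_lit 1949) (.e (nat_lit 2003) (nat_lit 138) (.e (nat_lit 671762) (nat_lit 4) (.e (nat_lit 65624) (nat_lit 12) (.e (nat_lit 385094) (nat_lit 49) (.e (nat_lit 778327) (nat_lit 6) (.e (nat_lit 81946) (nat_lit 20) .nil)))))) (.g (nat_lit 4) .nil .nil))) 
(.lf (nat_lit 87612) (.g (nat_lit 1005) (.e (nat_lit 2003) (nat_lit 138) (.e (nat_lit 671764) (nat_lit 6) (.e (nat_lit 81922) (nat_lit 0) (.e (nat_lit 3630) (nat_lit 227) (.e (nat_lit 778326) (nat_lit 6) (.e (nat_lit 81943) (nat_lit 20) .nil)))))) (.g (nat_lit 5) .nil .nil))))))) (.nd (nat_lit 2) (.nd (nat_lit 3) (.nd (nat_lit 4) (.nd (nat_lit 5) 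
(.lf (nat_lit 87554) (.g (nat_lit 1763) (.e (nat_lit 2003) (nat_lit 138) (.e (nat_lit 671762) (nat_lit 4) (.e (nat_lit 65619) (nat_lit 10) (.e (nat_lit 344169) (nat_lit 40) (.e (nat_lit 671764) (nat_lit 6) (.e (nat_lit 81946) (nat_lit 20) .nil)))))) (.g (nat_lit 4) .nil .nil))) 
(.lf (nat_lit 87586) (.g (nat_lit 3431) (.e (nat_lit 2003) (nat_lit 138) (.e (nat_lit 671762) (nat_lit 4) (.e (nat_lit 65629) (nat_lit 14) (.e (nat_lit 401459) (nat_lit 13) (.e (nat_lit 483378) (nat_lit 23) (.e (nat_lit 335924) (nat_lit 0) .nil)))))) (.g (nat_lit 5) .nil .nil)))) (.nd (nat_lit 5) 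
(.lf (nat_lit 87570) (.g (nat_lit 1548) (.e (nat_lit 2003) (nat_lit 138) (.e (nat_lit 671762) (nat_lit 4) (.e (nat_lit 65622) (nat_lit 12) (.e (nat_lit 385094) (nat_lit 49) (.e (nat_lit 778327) (nat_lit 6) (.e (nat_lit 81946) (nat_lit 20) .nil)))))) (.g (nat_lit 4) .nil .nil))) 
(.lf (nat_lit 87602) (.g (nat_lit 1343) (.e (nat_lit 2003) (nat_lit 138) (.e (nat_lit 671763) (nat_lit 5) (.e (nat_lit 73789) (nat_lit 45) (.e (nat_lit 1386) (nat_lit 105) (.e (nat_lit 311358) (nat_lit 29) (.e (nat_lit 352303) (nat_lit 20) .nil)))))) (.g (nat_lit 5) .nil .nil))))) (.nd (nat_lit 4) (.nd (nat_lit 5) 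
(.lf (nat_lit 87562) (.g (nat_lit 439) (.e (nat_lit 2003) (nat_lit 138) (.e (nat_lit 671762) (nat_lit 4) (.e (nat_lit 65622) (nat_lit 12) .nil))) .nil)) 
(.lf (nat_lit 87594) (.g (nat_lit 322) (.e (nat_lit 2003) (nat_lit 138) (.e (nat_lit 671762) (nat_lit 4) (.e (nat_lit 65630) (nat_lit 14) .nil))) .nil))) (.nd (nat_lit 5) 
(.lf (nat_lit 87578) (.g (nat_lit 2947) (.e (nat_lit 2003) (nat_lit 138) (.e (nat_lit 671762) (nat_lit 4) (.e (nat_lit 65624) (nat_lit 12) (.e (nat_lit 385094) (nat_lit 49) (.e (nat_lit 778326) (nat_lit 6) (.e (nat_lit 81938) (nat_lit 20) .nil)))))) (.g (nat_lit 0) .nil .nil))) 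
(.lf (nat_lit 87610) (.g (nat_lit 1165) (.e (nat_lit 2003) (nat_lit 138) (.e (nat_lit 671764) (nat_lit 6) (.e (nat_lit 81920) (nat_lit 0) (.e (nat_lit 3715) (nat_lit 227) (.e (nat_lit 778325) (nat_lit 6) (.e (nat_lit 81943) (nat_lit 20) .nil)))))) (.g (nat_lit 6) .nil .nil)))))) (.nd (nat_lit 3) (.nd (nat_lit 4) (.nd (nat_lit 5) 
(.lf (nat_lit 87558) (.g (nat_lit 1645) (.e (nat_lit 2003) (nat_lit 138) (.e (nat_lit 671762) (nat_lit 4) (.e (nat_lit 65620) (nat_lit 10) (.e (nat_lit 344168) (nat_lit 40) (.e (nat_lit 671764) (nat_lit 6) (.e (nat_lit 81947) (nat_lit 20) .nil)))))) (.g (nat_lit 4) .nil .nil))) 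
(.lf (nat_lit 87590) (.g (nat_lit 2551) (.e (nat_lit 2003) (nat_lit 138) (.e (nat_lit 671762) (nat_lit 4) (.e (nat_lit 65629) (nat_lit 14) (.e (nat_lit 401459) (nat_lit 13) (.e (nat_lit 483387) (nat_lit 23) .nil))))) .nil))) (.nd (nat_lit 5) 
(.lf (nat_lit 87574) (.g (nat_lit 2170) (.e (nat_lit 2003) (nat_lit 138) (.e (nat_lit 671762) (nat_lit 4) (.e (nat_lit 65624) (nat_lit 12) (.e (nat_lit 385092) (nat_lit 49) (.e (nat_lit 778327) (nat_lit 6) .nil))))) .nil)) 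
(.lf (nat_lit 87606) (.g (nat_lit 1277) (.e (nat_lit 2003) (nat_lit 138) (.e (nat_lit 671763) (nat_lit 5) (.e (nat_lit 73792) (nat_lit 45) (.e (nat_lit 1386) (nat_lit 105) (.e (nat_lit 311358) (nat_lit 29) (.e (nat_lit 352280) (nat_lit 20) .nil)))))) (.g (nat_lit 4) .nil .nil))))) (.nd (nat_lit 4) (.nd (nat_lit 5) 
(.lf (nat_lit 87566) (.g (nat_lit 2303) (.e (nat_lit 2003) (nat_lit 138) (.e (nat_lit 671762) (nat_lit 4) (.e (nat_lit 65622) (nat_lit 12) (.e (nat_lit 385093) (nat_lit 49) (.e (nat_lit 778326) (nat_lit 6) (.e (nat_lit 81943) (nat_lit 20) .nil)))))) (.g (nat_lit 6) .nil .nil))) 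
(.lf (nat_lit 87598) (.g (nat_lit 3043) (.e (nat_lit 2003) (nat_lit 138) (.e (nat_lit 671762) (nat_lit 4) (.e (nat_lit 65630) (nat_lit 14) (.e (nat_lit 401458) (nat_lit 13) (.e (nat_lit 483386) (nat_lit 23) .nil))))) .nil))) (.nd (nat_lit 5) 
(.lf (nat_lit 87582) (.g (nat_lit 2313) (.e (nat_lit 2003) (nat_lit 138) (.e (nat_lit 671762) (nat_lit 4) (.e (nat_lit 65629) (nat_lit 14) (.e (nat_lit 401437) (nat_lit 9) (.e (nat_lit 426542) (nat_lit 29) (.e (nat_lit 352297) (nat_lit 20) .nil)))))) (.g (nat_lit 4) .nil .nil))) 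
(.lf (nat_lit 87614) (.g (nat_lit 1506) (.e (nat_lit 2003) (nat_lit 138) (.e (nat_lit 671764) (nat_lit 6) (.e (nat_lit 81922) (nat_lit 0) (.e (nat_lit 3631) (nat_lit 227) (.e (nat_lit 778326) (nat_lit 6) (.e (nat_lit 81943) (nat_lit 20) .nil)))))) (.g (nat_lit 6) .nil .nil)))))))) (.nd (nat_lit 1) (.nd (nat_lit 2) (.nd (nat_lit 3) (.nd (nat_lit 4) (.nd (nat_lit 5) 
(.lf (nat_lit 87553) (.g (nat_lit 2226) (.e (nat_lit 2003) (nat_lit 138) (.e (nat_lit 671762) (nat_lit 4) (.e (nat_lit 65619) (nat_lit 10) (.e (nat_lit 344169) (nat_lit 40) (.e (nat_lit 671764) (nat_lit 6) (.e (nat_lit 81943) (nat_lit 20) .nil)))))) (.g (nat_lit 0) .nil .nil))) 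
(.lf (nat_lit 87585) (.g (nat_lit 2603) (.e (nat_lit 2003) (nat_lit 138) (.e (nat_lit 671762) (nat_lit 4) (.e (nat_lit 65629) (nat_lit 14) (.e (nat_lit 401459) (nat_lit 13) (.e (nat_lit 483378) (nat_lit 23) .nil))))) .nil))) (.nd (nat_lit 5) 
(.lf (nat_lit 87569) (.g (nat_lit 2161) (.e (nat_lit 2003) (nat_lit 138) (.e (nat_lit 671762) (nat_lit 4) (.e (nat_lit 65622) (nat_lit 12) (.e (nat_lit 385094) (nat_lit 49) (.e (nat_lit 778326) (nat_lit 6) (.e (nat_lit 81943) (nat_lit 20) .nil)))))) (.g (nat_lit 6) .nil .nil))) 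
(.lf (nat_lit 87601) (.g (nat_lit 1403) (.e (nat_lit 2003) (nat_lit 138) (.e (nat_lit 671763) (nat_lit 5) (.e (nat_lit 73789) (nat_lit 45) (.e (nat_lit 1385) (nat_lit 105) (.e (nat_lit 311358) (nat_lit 29) (.e (nat_lit 352303) (nat_lit 20) .nil)))))) (.g (nat_lit 5) .nil .nil))))) (.nd (nat_lit 4) (.nd (nat_lit 5) 
(.lf (nat_lit 87561) (.g (nat_lit 1750) (.e (nat_lit 2003) (nat_lit 138) (.e (nat_lit 671762) (nat_lit 4) (.e (nat_lit 65620) (nat_lit 10) (.e (nat_lit 344169) (nat_lit 40) (.e (nat_lit 671764) (nat_lit 6) (.e (nat_lit 81947) (nat_lit 20) .nil)))))) (.g (nat_lit 5) .nil .nil))) 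
(.lf (nat_lit 87593) (.g (nat_lit 3903) (.e (nat_lit 2003) (nat_lit 138) (.e (nat_lit 671762) (nat_lit 4) (.e (nat_lit 65629) (nat_lit 14) (.e (nat_lit 401459) (nat_lit 13) (.e (nat_lit 483392) (nat_lit 23) .nil))))) .nil))) (.nd (nat_lit 5) 
(.lf (nat_lit 87577) (.g (nat_lit 1976) (.e (nat_lit 2003) (nat_lit 138) (.e (nat_lit 671762) (nat_lit 4) (.e (nat_lit 65624) (nat_lit 12) (.e (nat_lit 385093) (nat_lit 49) (.e (nat_lit 778327) (nat_lit 6) (.e (nat_lit 81946) (nat_lit 20) .nil)))))) (.g (nat_lit 4) .nil .nil))) 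
(.lf (nat_lit 87609) (.g (nat_lit 704) (.e (nat_lit 2003) (nat_lit 138) (.e (nat_lit 671763) (nat_lit 5) (.e (nat_lit 73795) (nat_lit 47) (.e (nat_lit 123165) (nat_lit 256) (.e (nat_lit 318) (nat_lit 23) (.e (nat_lit 352297) (nat_lit 20) .nil)))))) (.g (nat_lit 0) .nil .nil)))))) (.nd (nat_lit 3) (.nd (nat_lit 4) (.nd (nat_lit 5) 
(.lf (nat_lit 87557) (.g (nat_lit 1705) (.e (nat_lit 2003) (nat_lit 138) (.e (nat_lit 671762) (nat_lit 4) (.e (nat_lit 65620) (nat_lit 10) (.e (nat_lit 344168) (nat_lit 40) (.e (nat_lit 671764) (nat_lit 6) (.e (nat_lit 81943) (nat_lit 20) .nil)))))) (.g (nat_lit 4) .nil .nil))) 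
(.lf (nat_lit 87589) (.g (nat_lit 2906) (.e (nat_lit 2003) (nat_lit 138) (.e (nat_lit 671762) (nat_lit 4) (.e (nat_lit 65629) (nat_lit 14) (.e (nat_lit 401459) (nat_lit 13) (.e (nat_lit 483386) (nat_lit 23) (.e (nat_lit 335928) (nat_lit 0) .nil)))))) (.g (nat_lit 4) .nil .nil)))) (.nd (nat_lit 5) 
(.lf (nat_lit 87573) (.g (nat_lit 2276) (.e (nat_lit 2003) (nat_lit 138) (.e (nat_lit 671762) (nat_lit 4) (.e (nat_lit 65624) (nat_lit 12) (.e (nat_lit 385092) (nat_lit 49) (.e (nat_lit 778326) (nat_lit 6) (.e (nat_lit 81943) (nat_lit 20) .nil)))))) (.g (nat_lit 0) .nil .nil))) 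
(.lf (nat_lit 87605) (.g (nat_lit 1133) (.e (nat_lit 2003) (nat_lit 138) (.e (nat_lit 671763) (nat_lit 5) (.e (nat_lit 73792) (nat_lit 45) (.e (nat_lit 1386) (nat_lit 105) (.e (nat_lit 311358) (nat_lit 29) .nil))))) .nil)))) (.nd (nat_lit 4) (.nd (nat_lit 5) 
(.lf (nat_lit 87565) (.g (nat_lit 2661) (.e (nat_lit 2003) (nat_lit 138) (.e (nat_lit 671762) (nat_lit 4) (.e (nat_lit 65622) (nat_lit 12) (.e (nat_lit 385093) (nat_lit 49) (.e (nat_lit 778326) (nat_lit 6) (.e (nat_lit 81938) (nat_lit 20) .nil)))))) (.g (nat_lit 6) .nil .nil))) 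
(.lf (nat_lit 87597) (.g (nat_lit 2632) (.e (nat_lit 2003) (nat_lit 138) (.e (nat_lit 671762) (nat_lit 4) (.e (nat_lit 65630) (nat_lit 14) (.e (nat_lit 401457) (nat_lit 13) (.e (nat_lit 483386) (nat_lit 23) (.e (nat_lit 335928) (nat_lit 0) .nil)))))) (.g (nat_lit 4) .nil .nil)))) (.nd (nat_lit 5) 
(.lf (nat_lit 87581) (.g (nat_lit 2300) (.e (nat_lit 2003) (nat_lit 138) (.e (nat_lit 671762) (nat_lit 4) (.e (nat_lit 65629) (nat_lit 14) (.e (nat_lit 401437) (nat_lit 9) (.e (nat_lit 426542) (nat_lit 29) (.e (nat_lit 352290) (nat_lit 20) .nil)))))) (.g (nat_lit 4) .nil .nil))) 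
(.lf (nat_lit 87613) (.g (nat_lit 1879) (.e (nat_lit 2003) (nat_lit 138) (.e (nat_lit 671764) (nat_lit 6) (.e (nat_lit 81922) (nat_lit 0) (.e (nat_lit 3631) (nat_lit 227) (.e (nat_lit 778326) (nat_lit 6) (.e (nat_lit 81938) (nat_lit 20) .nil)))))) (.g (nat_lit 6) .nil .nil))))))) (.nd (nat_lit 2) (.nd (nat_lit 3) (.nd (nat_lit 4) (.nd (nat_lit 5) 
(.lf (nat_lit 87555) (.g (nat_lit 918) (.e (nat_lit 2003) (nat_lit 138) (.e (nat_lit 671762) (nat_lit 4) (.e (nat_lit 65620) (nat_lit 10) (.e (nat_lit 344168) (nat_lit 40) .nil)))) .nil)) 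
(.lf (nat_lit 87587) (.g (nat_lit 4565) (.e (nat_lit 2003) (nat_lit 138) (.e (nat_lit 671762) (nat_lit 4) (.e (nat_lit 65629) (nat_lit 14) (.e (nat_lit 401459) (nat_lit 13) (.e (nat_lit 483380) (nat_lit 23) (.e (nat_lit 335971) (nat_lit 0) .nil)))))) (.g (nat_lit 0) .nil .nil)))) (.nd (nat_lit 5) 
(.lf (nat_lit 87571) (.g (nat_lit 2602) (.e (nat_lit 2003) (nat_lit 138) (.e (nat_lit 671762) (nat_lit 4) (.e (nat_lit 65623) (nat_lit 12) (.e (nat_lit 385094) (nat_lit 49) (.e (nat_lit 778326) (nat_lit 6) (.e (nat_lit 81938) (nat_lit 20) .nil)))))) (.g (nat_lit 6) .nil .nil))) 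
(.lf (nat_lit 87603) (.g (nat_lit 152) (.e (nat_lit 2003) (nat_lit 138) (.e (nat_lit 671763) (nat_lit 5) (.e (nat_lit 73791) (nat_lit 45) .nil))) .nil)))) (.nd (nat_lit 4) (.nd (nat_lit 5) 
(.lf (nat_lit 87563) (.g (nat_lit 1462) (.e (nat_lit 2003) (nat_lit 138) (.e (nat_lit 671762) (nat_lit 4) (.e (nat_lit 65622) (nat_lit 12) (.e (nat_lit 385092) (nat_lit 49) (.e (nat_lit 778326) (nat_lit 6) .nil))))) .nil)) 
(.lf (nat_lit 87595) (.g (nat_lit 1429) (.e (nat_lit 2003) (nat_lit 138) (.e (nat_lit 671762) (nat_lit 4) (.e (nat_lit 65630) (nat_lit 14) (.e (nat_lit 401434) (nat_lit 9) .nil)))) .nil))) (.nd (nat_lit 5) 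
(.lf (nat_lit 87579) (.g (nat_lit 2550) (.e (nat_lit 2003) (nat_lit 138) (.e (nat_lit 671762) (nat_lit 4) (.e (nat_lit 65624) (nat_lit 12) (.e (nat_lit 385094) (nat_lit 49) (.e (nat_lit 778326) (nat_lit 6) (.e (nat_lit 81943) (nat_lit 20) .nil)))))) (.g (nat_lit 0) .nil .nil))) 
(.lf (nat_lit 87611) (.g (nat_lit 1124) (.e (nat_lit 2003) (nat_lit 138) (.e (nat_lit 671764) (nat_lit 6) (.e (nat_lit 81921) (nat_lit 0) (.e (nat_lit 3715) (nat_lit 227) (.e (nat_lit 778325) (nat_lit 6) (.e (nat_lit 81943) (nat_lit 20) .nil)))))) (.g (nat_lit 0) .nil .nil)))))) (.nd (nat_lit 3) (.nd (nat_lit 4) (.nd (nat_lit 5) 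
(.lf (nat_lit 87559) (.g (nat_lit 1264) (.e (nat_lit 2003) (nat_lit 138) (.e (nat_lit 671762) (nat_lit 4) (.e (nat_lit 65620) (nat_lit 10) (.e (nat_lit 344169) (nat_lit 40) (.e (nat_lit 671764) (nat_lit 6) .nil))))) .nil)) 
(.lf (nat_lit 87591) (.g (nat_lit 3590) (.e (nat_lit 2003) (nat_lit 138) (.e (nat_lit 671762) (nat_lit 4) (.e (nat_lit 65629) (nat_lit 14) (.e (nat_lit 401459) (nat_lit 13) (.e (nat_lit 483387) (nat_lit 23) (.e (nat_lit 335924) (nat_lit 0) .nil)))))) (.g (nat_lit 0) .nil .nil)))) (.nd (nat_lit 5) 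
(.lf (nat_lit 87575) (.g (nat_lit 2796) (.e (nat_lit 2003) (nat_lit 138) (.e (nat_lit 671762) (nat_lit 4) (.e (nat_lit 65624) (nat_lit 12) (.e (nat_lit 385093) (nat_lit 49) (.e (nat_lit 778326) (nat_lit 6) (.e (nat_lit 81938) (nat_lit 20) .nil)))))) (.g (nat_lit 6) .nil .nil))) 
(.lf (nat_lit 87607) (.g (nat_lit 83) (.e (nat_lit 2003) (nat_lit 138) (.e (nat_lit 671763) (nat_lit 5) (.e (nat_lit 81664) (nat_lit 45) .nil))) .nil)))) (.nd (nat_lit 4) (.nd (nat_lit 5) 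
(.lf (nat_lit 87567) (.g (nat_lit 1853) (.e (nat_lit 2003) (nat_lit 138) (.e (nat_lit 671762) (nat_lit 4) (.e (nat_lit 65622) (nat_lit 12) (.e (nat_lit 385093) (nat_lit 49) (.e (nat_lit 778327) (nat_lit 6) (.e (nat_lit 81946) (nat_lit 20) .nil)))))) (.g (nat_lit 4) .nil .nil))) 
(.lf (nat_lit 87599) (.g (nat_lit 1083) (.e (nat_lit 2003) (nat_lit 138) (.e (nat_lit 671763) (nat_lit 5) (.e (nat_lit 73789) (nat_lit 45) (.e (nat_lit 1383) (nat_lit 105) (.e (nat_lit 311358) (nat_lit 29) (.e (nat_lit 352290) (nat_lit 20) .nil)))))) (.g (nat_lit 6) .nil .nil)))) (.nd (nat_lit 5) 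
(.lf (nat_lit 87583) (.g (nat_lit 2211) (.e (nat_lit 2003) (nat_lit 138) (.e (nat_lit 671762) (nat_lit 4) (.e (nat_lit 65629) (nat_lit 14) (.e (nat_lit 401438) (nat_lit 9) (.e (nat_lit 426542) (nat_lit 29) (.e (nat_lit 352290) (nat_lit 20) .nil)))))) (.g (nat_lit 4) .nil .nil))) 
(.lf (nat_lit 87615) (.g (nat_lit 1873) (.e (nat_lit 2003) (nat_lit 138) (.e (nat_lit 671764) (nat_lit 6) (.e (nat_lit 81922) (nat_lit 0) (.e (nat_lit 3632) (nat_lit 227) (.e (nat_lit 778326) (nat_lit 6) (.e (nat_lit 81938) (nat_lit 20) .nil)))))) (.g (nat_lit 6) .nil .nil)))))))))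

noncomputable def tv1192 : DT := (.nd (nat_lit 0) (.nd (nat_lit 1) (.nd (nat_lit 2) (.nd (nat_lit 3) (.nd (nat_lit 4) (.nd (nat_lit 5) 
(.lf (nat_lit 87616) (.g (nat_lit 1504) (.e (nat_lit 2003) (nat_lit 138) (.e (nat_lit 671764) (nat_lit 6) (.e (nat_lit 81922) (nat_lit 0) (.e (nat_lit 3632) (nat_lit 227) (.e (nat_lit 778326) (nat_lit 6) (.e (nat_lit 81943) (nat_lit 20) .nil)))))) (.g (nat_lit 6) .nil .nil))) 
(.lf (nat_lit 87648) (.g (nat_lit 2702) (.e (nat_lit 2003) (nat_lit 138) (.e (nat_lit 671764) (nat_lit 6) (.e (nat_lit 81949) (nat_lit 21) (.e (nat_lit 57870) (nat_lit 264) (.e (nat_lit 1221) (nat_lit 90) (.e (nat_lit 81938) (nat_lit 20) .nil)))))) (.g (nat_lit 6) .nil .nil)))) (.nd (nat_lit 5) 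
(.lf (nat_lit 87632) (.g (nat_lit 1230) (.e (nat_lit 2003) (nat_lit 138) (.e (nat_lit 671764) (nat_lit 6) (.e (nat_lit 81942) (nat_lit 20) (.e (nat_lit 2005) (nat_lit 138) (.e (nat_lit 671764) (nat_lit 6) (.e (nat_lit 81943) (nat_lit 20) .nil)))))) (.g (nat_lit 6) .nil .nil))) 
(.lf (nat_lit 87664) (.g (nat_lit 2481) (.e (nat_lit 2004) (nat_lit 138) (.e (nat_lit 671748) (nat_lit 0) (.e (nat_lit 1032) (nat_lit 81) (.e (nat_lit 1858) (nat_lit 124) (.e (nat_lit 557100) (nat_lit 13) (.e (nat_lit 172106) (nat_lit 10) (.e (nat_lit 434231) (nat_lit 23) (.e (nat_lit 532535) (nat_lit 9) (.e (nat_lit 335928) (nat_lit 0) .nil))))))))) (.g (nat_lit 5) .nil .nil))))) 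
(.nd (nat_lit 4) (.nd (nat_lit 5) 
(.lf (nat_lit 87624) (.g (nat_lit 1841) (.e (nat_lit 2003) (nat_lit 138) (.e (nat_lit 671764) (nat_lit 6) (.e (nat_lit 81935) (nat_lit 20) (.e (nat_lit 1999) (nat_lit 137) (.e (nat_lit 663569) (nat_lit 6) (.e (nat_lit 81943) (nat_lit 20) .nil)))))) (.g (nat_lit 0) .nil .nil))) 
(.lf (nat_lit 87656) (.g (nat_lit 637) (.e (nat_lit 2004) (nat_lit 138) (.e (nat_lit 671747) (nat_lit 0) (.e (nat_lit 1575) (nat_lit 110) (.e (nat_lit 352270) (nat_lit 8) .nil)))) .nil))) (.nd (nat_lit 5) 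
(.lf (nat_lit 87640) (.g (nat_lit 1806) (.e (nat_lit 2003) (nat_lit 138) (.e (nat_lit 671764) (nat_lit 6) (.e (nat_lit 81946) (nat_lit 20) (.e (nat_lit 2006) (nat_lit 138) (.e (nat_lit 671764) (nat_lit 6) (.e (nat_lit 81938) (nat_lit 20) .nil)))))) (.g (nat_lit 6) .nil .nil))) 
(.lf (nat_lit 87672) (.g (nat_lit 539) (.e (nat_lit 2004) (nat_lit 138) (.e (nat_lit 671748) (nat_lit 0) (.e (nat_lit 1576) (nat_lit 110) .nil))) .nil))))) (.nd (nat_lit 3) (.nd (nat_lit 4) (.nd (nat_lit 5) 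
(.lf (nat_lit 87620) (.g (nat_lit 1465) (.e (nat_lit 2003) (nat_lit 138) (.e (nat_lit 671764) (nat_lit 6) (.e (nat_lit 81924) (nat_lit 0) (.e (nat_lit 3631) (nat_lit 227) (.e (nat_lit 778326) (nat_lit 6) (.e (nat_lit 81943) (nat_lit 20) .nil)))))) (.g (nat_lit 0) .nil .nil))) 
(.lf (nat_lit 87652) (.g (nat_lit 2914) (.e (nat_lit 2003) (nat_lit 138) (.e (nat_lit 671764) (nat_lit 6) (.e (nat_lit 81959) (nat_lit 24) (.e (nat_lit 123184) (nat_lit 264) (.e (nat_lit 1222) (nat_lit 90) (.e (nat_lit 81943) (nat_lit 20) .nil)))))) (.g (nat_lit 0) .nil .nil)))) (.nd (nat_lit 5) 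
(.lf (nat_lit 87636) (.g (nat_lit 1290) (.e (nat_lit 2003) (nat_lit 138) (.e (nat_lit 671764) (nat_lit 6) (.e (nat_lit 81943) (nat_lit 20) (.e (nat_lit 2005) (nat_lit 138) (.e (nat_lit 671764) (nat_lit 6) (.e (nat_lit 81943) (nat_lit 20) .nil)))))) (.g (nat_lit 0) .nil .nil))) 
(.lf (nat_lit 87668) (.g (nat_lit 447) (.e (nat_lit 2004) (nat_lit 138) (.e (nat_lit 671748) (nat_lit 0) (.e (nat_lit 1569) (nat_lit 110) .nil))) .nil)))) (.nd (nat_lit 4) (.nd (nat_lit 5) 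
(.lf (nat_lit 87628) (.g (nat_lit 1538) (.e (nat_lit 2003) (nat_lit 138) (.e (nat_lit 671764) (nat_lit 6) (.e (nat_lit 81939) (nat_lit 20) (.e (nat_lit 2006) (nat_lit 138) (.e (nat_lit 671764) (nat_lit 6) (.e (nat_lit 81938) (nat_lit 20) .nil)))))) (.g (nat_lit 6) .nil .nil))) 
(.lf (nat_lit 87660) (.g (nat_lit 989) (.e (nat_lit 2004) (nat_lit 138) (.e (nat_lit 671747) (nat_lit 0) (.e (nat_lit 1592) (nat_lit 111) (.e (nat_lit 360486) (nat_lit 18) (.e (nat_lit 671764) (nat_lit 6) (.e (nat_lit 81942) (nat_lit 20) .nil)))))) (.g (nat_lit 4) .nil .nil)))) (.nd (nat_lit 5) 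
(.lf (nat_lit 87644) (.g (nat_lit 1212) (.e (nat_lit 2003) (nat_lit 138) (.e (nat_lit 671764) (nat_lit 6) (.e (nat_lit 81947) (nat_lit 20) (.e (nat_lit 2006) (nat_lit 138) (.e (nat_lit 671764) (nat_lit 6) .nil))))) .nil)) 
(.lf (nat_lit 87676) (.g (nat_lit 443) (.e (nat_lit 2004) (nat_lit 138) (.e (nat_lit 671748) (nat_lit 0) (.e (nat_lit 1592) (nat_lit 111) .nil))) .nil)))))) (.nd (nat_lit 2) (.nd (nat_lit 3) (.nd (nat_lit 4) (.nd (nat_lit 5) 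
(.lf (nat_lit 87618) (.g (nat_lit 998) (.e (nat_lit 2003) (nat_lit 138) (.e (nat_lit 671764) (nat_lit 6) (.e (nat_lit 81924) (nat_lit 0) (.e (nat_lit 3629) (nat_lit 227) (.e (nat_lit 778326) (nat_lit 6) (.e (nat_lit 81943) (nat_lit 20) .nil)))))) (.g (nat_lit 0) .nil .nil))) 
(.lf (nat_lit 87650) (.g (nat_lit 2381) (.e (nat_lit 2003) (nat_lit 138) (.e (nat_lit 671764) (nat_lit 6) (.e (nat_lit 81957) (nat_lit 24) (.e (nat_lit 123182) (nat_lit 264) (.e (nat_lit 1224) (nat_lit 90) (.e (nat_lit 81946) (nat_lit 20) .nil)))))) (.g (nat_lit 4) .nil .nil)))) (.nd (nat_lit 5) 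
(.lf (nat_lit 87634) (.g (nat_lit 1198) (.e (nat_lit 2003) (nat_lit 138) (.e (nat_lit 671764) (nat_lit 6) (.e (nat_lit 81942) (nat_lit 20) (.e (nat_lit 2006) (nat_lit 138) (.e (nat_lit 671764) (nat_lit 6) (.e (nat_lit 81943) (nat_lit 20) .nil)))))) (.g (nat_lit 6) .nil .nil))) 
(.lf (nat_lit 87666) (.g (nat_lit 430) (.e (nat_lit 2004) (nat_lit 138) (.e (nat_lit 671748) (nat_lit 0) (.e (nat_lit 1559) (nat_lit 110) .nil))) .nil)))) (.nd (nat_lit 4) (.nd (nat_lit 5) 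
(.lf (nat_lit 87626) (.g (nat_lit 752) (.e (nat_lit 2003) (nat_lit 138) (.e (nat_lit 671764) (nat_lit 6) (.e (nat_lit 81938) (nat_lit 20) (.e (nat_lit 2005) (nat_lit 138) (.e (nat_lit 671764) (nat_lit 6) .nil))))) .nil)) 
(.lf (nat_lit 87658) (.g (nat_lit 1295) (.e (nat_lit 2004) (nat_lit 138) (.e (nat_lit 671747) (nat_lit 0) (.e (nat_lit 1586) (nat_lit 111) (.e (nat_lit 360486) (nat_lit 18) (.e (nat_lit 671764) (nat_lit 6) (.e (nat_lit 81942) (nat_lit 20) .nil)))))) (.g (nat_lit 4) .nil .nil)))) (.nd (nat_lit 5) 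
(.lf (nat_lit 87642) (.g (nat_lit 1008) (.e (nat_lit 2003) (nat_lit 138) (.e (nat_lit 671764) (nat_lit 6) (.e (nat_lit 81947) (nat_lit 20) (.e (nat_lit 2005) (nat_lit 138) (.e (nat_lit 671764) (nat_lit 6) .nil))))) .nil)) 
(.lf (nat_lit 87674) (.g (nat_lit 1032) (.e (nat_lit 2004) (nat_lit 138) (.e (nat_lit 671748) (nat_lit 0) (.e (nat_lit 1589) (nat_lit 111) (.e (nat_lit 360486) (nat_lit 18) .nil)))) .nil))))) (.nd (nat_lit 3) (.nd (nat_lit 4) (.nd (nat_lit 5) 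
(.lf (nat_lit 87622) (.g (nat_lit 1596) (.e (nat_lit 2003) (nat_lit 138) (.e (nat_lit 671764) (nat_lit 6) (.e (nat_lit 81924) (nat_lit 0) (.e (nat_lit 3632) (nat_lit 227) (.e (nat_lit 778326) (nat_lit 6) (.e (nat_lit 81943) (nat_lit 20) .nil)))))) (.g (nat_lit 0) .nil .nil))) 
(.lf (nat_lit 87654) (.g (nat_lit 1935) (.e (nat_lit 2004) (nat_lit 138) (.e (nat_lit 671747) (nat_lit 0) (.e (nat_lit 1575) (nat_lit 110) (.e (nat_lit 352262) (nat_lit 0) (.e (nat_lit 3632) (nat_lit 227) (.e (nat_lit 778326) (nat_lit 6) (.e (nat_lit 81943) (nat_lit 20) .nil))))))) (.g (nat_lit 5) .nil .nil)))) (.nd (nat_lit 5) 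
(.lf (nat_lit 87638) (.g (nat_lit 1505) (.e (nat_lit 2003) (nat_lit 138) (.e (nat_lit 671764) (nat_lit 6) (.e (nat_lit 81946) (nat_lit 20) (.e (nat_lit 2005) (nat_lit 138) (.e (nat_lit 671764) (nat_lit 6) (.e (nat_lit 81943) (nat_lit 20) .nil)))))) (.g (nat_lit 5) .nil .nil))) 
(.lf (nat_lit 87670) (.g (nat_lit 3441) (.e (nat_lit 2004) (nat_lit 138) (.e (nat_lit 671748) (nat_lit 0) (.e (nat_lit 1572) (nat_lit 110) (.e (nat_lit 352318) (nat_lit 24) (.e (nat_lit 123184) (nat_lit 264) (.e (nat_lit 1222) (nat_lit 90) (.e (nat_lit 81943) (nat_lit 20) .nil))))))) (.g (nat_lit 7) .nil .nil))))) (.nd (nat_lit 4) (.nd (nat_lit 5) 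
(.lf (nat_lit 87630) (.g (nat_lit 1129) (.e (nat_lit 2003) (nat_lit 138) (.e (nat_lit 671764) (nat_lit 6) (.e (nat_lit 81942) (nat_lit 20) (.e (nat_lit 2004) (nat_lit 138) (.e (nat_lit 671764) (nat_lit 6) (.e (nat_lit 81943) (nat_lit 20) .nil)))))) (.g (nat_lit 6) .nil .nil))) 
(.lf (nat_lit 87662) (.g (nat_lit 843) (.e (nat_lit 2004) (nat_lit 138) (.e (nat_lit 671747) (nat_lit 0) (.e (nat_lit 1595) (nat_lit 111) (.e (nat_lit 368384) (nat_lit 17) .nil)))) .nil))) (.nd (nat_lit 5) 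
(.lf (nat_lit 87646) (.g (nat_lit 2457) (.e (nat_lit 2003) (nat_lit 138) (.e (nat_lit 671764) (nat_lit 6) (.e (nat_lit 81948) (nat_lit 21) (.e (nat_lit 57872) (nat_lit 264) (.e (nat_lit 1219) (nat_lit 90) (.e (nat_lit 81943) (nat_lit 20) .nil)))))) (.g (nat_lit 0) .nil .nil))) 
(.lf (nat_lit 87678) (.g (nat_lit 1097) (.e (nat_lit 2004) (nat_lit 138) (.e (nat_lit 671748) (nat_lit 0) (.e (nat_lit 1595) (nat_lit 111) (.e (nat_lit 360455) (nat_lit 0) .nil)))) .nil))))))) (.nd (nat_lit 1) (.nd (nat_lit 2) (.nd (nat_lit 3) (.nd (nat_lit 4) (.nd (nat_lit 5) 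
(.lf (nat_lit 87617) (.g (nat_lit 1305) (.e (nat_lit 2003) (nat_lit 138) (.e (nat_lit 671764) (nat_lit 6) (.e (nat_lit 81924) (nat_lit 0) (.e (nat_lit 3629) (nat_lit 227) (.e (nat_lit 778326) (nat_lit 6) (.e (nat_lit 81938) (nat_lit 20) .nil)))))) (.g (nat_lit 6) .nil .nil))) 
(.lf (nat_lit 87649) (.g (nat_lit 1875) (.e (nat_lit 2003) (nat_lit 138) (.e (nat_lit 671764) (nat_lit 6) (.e (nat_lit 81949) (nat_lit 21) (.e (nat_lit 57872) (nat_lit 264) (.e (nat_lit 1219) (nat_lit 90) (.e (nat_lit 81943) (nat_lit 20) .nil)))))) (.g (nat_lit 5) .nil .nil)))) (.nd (nat_lit 5) 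
(.lf (nat_lit 87633) (.g (nat_lit 1531) (.e (nat_lit 2003) (nat_lit 138) (.e (nat_lit 671764) (nat_lit 6) (.e (nat_lit 81942) (nat_lit 20) (.e (nat_lit 2006) (nat_lit 138) (.e (nat_lit 671764) (nat_lit 6) (.e (nat_lit 81938) (nat_lit 20) .nil)))))) (.g (nat_lit 6) .nil .nil))) 
(.lf (nat_lit 87665) (.g (nat_lit 3604) (.e (nat_lit 2004) (nat_lit 138) (.e (nat_lit 671748) (nat_lit 0) (.e (nat_lit 1047) (nat_lit 81) (.e (nat_lit 1858) (nat_lit 124) (.e (nat_lit 557100) (nat_lit 13) (.e (nat_lit 172106) (nat_lit 10) (.e (nat_lit 434231) (nat_lit 23) (.e (nat_lit 532535) (nat_lit 9) (.e (nat_lit 335928) (nat_lit 0) .nil))))))))) (.g (nat_lit 6) .nil .nil))))) 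
(.nd (nat_lit 4) (.nd (nat_lit 5) 
(.lf (nat_lit 87625) (.g (nat_lit 922) (.e (nat_lit 2003) (nat_lit 138) (.e (nat_lit 671764) (nat_lit 6) (.e (nat_lit 81938) (nat_lit 20) (.e (nat_lit 2003) (nat_lit 138) (.e (nat_lit 671764) (nat_lit 6) .nil))))) .nil)) 
(.lf (nat_lit 87657) (.g (nat_lit 848) (.e (nat_lit 2004) (nat_lit 138) (.e (nat_lit 671747) (nat_lit 0) (.e (nat_lit 1586) (nat_lit 111) (.e (nat_lit 368384) (nat_lit 17) .nil)))) .nil))) (.nd (nat_lit 5) 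
(.lf (nat_lit 87641) (.g (nat_lit 1485) (.e (nat_lit 2003) (nat_lit 138) (.e (nat_lit 671764) (nat_lit 6) (.e (nat_lit 81946) (nat_lit 20) (.e (nat_lit 2006) (nat_lit 138) (.e (nat_lit 671764) (nat_lit 6) (.e (nat_lit 81943) (nat_lit 20) .nil)))))) (.g (nat_lit 5) .nil .nil))) 
(.lf (nat_lit 87673) (.g (nat_lit 499) (.e (nat_lit 2004) (nat_lit 138) (.e (nat_lit 671748) (nat_lit 0) (.e (nat_lit 1589) (nat_lit 111) .nil))) .nil))))) (.nd (nat_lit 3) (.nd (nat_lit 4) (.nd (nat_lit 5) 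
(.lf (nat_lit 87621) (.g (nat_lit 1971) (.e (nat_lit 2003) (nat_lit 138) (.e (nat_lit 671764) (nat_lit 6) (.e (nat_lit 81924) (nat_lit 0) (.e (nat_lit 3632) (nat_lit 227) (.e (nat_lit 778326) (nat_lit 6) (.e (nat_lit 81938) (nat_lit 20) .nil)))))) (.g (nat_lit 0) .nil .nil))) 
(.lf (nat_lit 87653) (.g (nat_lit 612) (.e (nat_lit 2004) (nat_lit 138) (.e (nat_lit 671747) (nat_lit 0) (.e (nat_lit 1575) (nat_lit 110) (.e (nat_lit 352258) (nat_lit 0) .nil)))) .nil))) (.nd (nat_lit 5) 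
(.lf (nat_lit 87637) (.g (nat_lit 1882) (.e (nat_lit 2003) (nat_lit 138) (.e (nat_lit 671764) (nat_lit 6) (.e (nat_lit 81946) (nat_lit 20) (.e (nat_lit 2005) (nat_lit 138) (.e (nat_lit 671764) (nat_lit 6) (.e (nat_lit 81938) (nat_lit 20) .nil)))))) (.g (nat_lit 6) .nil .nil))) 
(.lf (nat_lit 87669) (.g (nat_lit 3372) (.e (nat_lit 2004) (nat_lit 138) (.e (nat_lit 671748) (nat_lit 0) (.e (nat_lit 1572) (nat_lit 110) (.e (nat_lit 352318) (nat_lit 24) (.e (nat_lit 123182) (nat_lit 264) (.e (nat_lit 1222) (nat_lit 90) (.e (nat_lit 81943) (nat_lit 20) .nil))))))) (.g (nat_lit 7) .nil .nil))))) (.nd (nat_lit 4) (.nd (nat_lit 5) 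
(.lf (nat_lit 87629) (.g (nat_lit 1546) (.e (nat_lit 2003) (nat_lit 138) (.e (nat_lit 671764) (nat_lit 6) (.e (nat_lit 81942) (nat_lit 20) (.e (nat_lit 2004) (nat_lit 138) (.e (nat_lit 671764) (nat_lit 6) (.e (nat_lit 81938) (nat_lit 20) .nil)))))) (.g (nat_lit 6) .nil .nil))) 
(.lf (nat_lit 87661) (.g (nat_lit 843) (.e (nat_lit 2004) (nat_lit 138) (.e (nat_lit 671747) (nat_lit 0) (.e (nat_lit 1595) (nat_lit 111) (.e (nat_lit 368384) (nat_lit 0) .nil)))) .nil))) (.nd (nat_lit 5) 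
(.lf (nat_lit 87645) (.g (nat_lit 1951) (.e (nat_lit 2003) (nat_lit 138) (.e (nat_lit 671764) (nat_lit 6) (.e (nat_lit 81947) (nat_lit 20) (.e (nat_lit 2006) (nat_lit 138) (.e (nat_lit 671764) (nat_lit 6) (.e (nat_lit 81943) (nat_lit 20) .nil)))))) (.g (nat_lit 6) .nil .nil))) 
(.lf (nat_lit 87677) (.g (nat_lit 391) (.e (nat_lit 2004) (nat_lit 138) (.e (nat_lit 671748) (nat_lit 0) (.e (nat_lit 1595) (nat_lit 111) .nil))) .nil)))))) (.nd (nat_lit 2) (.nd (nat_lit 3) (.nd (nat_lit 4) (.nd (nat_lit 5) 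
(.lf (nat_lit 87619) (.g (nat_lit 1822) (.e (nat_lit 2003) (nat_lit 138) (.e (nat_lit 671764) (nat_lit 6) (.e (nat_lit 81924) (nat_lit 0) (.e (nat_lit 3631) (nat_lit 227) (.e (nat_lit 778326) (nat_lit 6) (.e (nat_lit 81938) (nat_lit 20) .nil)))))) (.g (nat_lit 0) .nil .nil))) 
(.lf (nat_lit 87651) (.g (nat_lit 3256) (.e (nat_lit 2003) (nat_lit 138) (.e (nat_lit 671764) (nat_lit 6) (.e (nat_lit 81959) (nat_lit 24) (.e (nat_lit 123182) (nat_lit 264) (.e (nat_lit 1222) (nat_lit 90) (.e (nat_lit 81943) (nat_lit 20) .nil)))))) (.g (nat_lit 0) .nil .nil)))) (.nd (nat_lit 5) 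
(.lf (nat_lit 87635) (.g (nat_lit 1308) (.e (nat_lit 2003) (nat_lit 138) (.e (nat_lit 671764) (nat_lit 6) (.e (nat_lit 81943) (nat_lit 20) (.e (nat_lit 2003) (nat_lit 138) (.e (nat_lit 671764) (nat_lit 6) (.e (nat_lit 81943) (nat_lit 20) .nil)))))) (.g (nat_lit 0) .nil .nil))) 
(.lf (nat_lit 87667) (.g (nat_lit 503) (.e (nat_lit 2004) (nat_lit 138) (.e (nat_lit 671748) (nat_lit 0) (.e (nat_lit 1562) (nat_lit 110) .nil))) .nil)))) (.nd (nat_lit 4) (.nd (nat_lit 5) 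
(.lf (nat_lit 87627) (.g (nat_lit 1547) (.e (nat_lit 2003) (nat_lit 138) (.e (nat_lit 671764) (nat_lit 6) (.e (nat_lit 81939) (nat_lit 20) (.e (nat_lit 2005) (nat_lit 138) (.e (nat_lit 671764) (nat_lit 6) (.e (nat_lit 81938) (nat_lit 20) .nil)))))) (.g (nat_lit 6) .nil .nil))) 
(.lf (nat_lit 87659) (.g (nat_lit 1622) (.e (nat_lit 2004) (nat_lit 138) (.e (nat_lit 671747) (nat_lit 0) (.e (nat_lit 1586) (nat_lit 111) (.e (nat_lit 360486) (nat_lit 18) (.e (nat_lit 671764) (nat_lit 6) (.e (nat_lit 81943) (nat_lit 20) .nil)))))) (.g (nat_lit 5) .nil .nil)))) (.nd (nat_lit 5) 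
(.lf (nat_lit 87643) (.g (nat_lit 2219) (.e (nat_lit 2003) (nat_lit 138) (.e (nat_lit 671764) (nat_lit 6) (.e (nat_lit 81947) (nat_lit 20) (.e (nat_lit 2005) (nat_lit 138) (.e (nat_lit 671764) (nat_lit 6) (.e (nat_lit 81938) (nat_lit 20) .nil)))))) (.g (nat_lit 0) .nil .nil))) 
(.lf (nat_lit 87675) (.g (nat_lit 1988) (.e (nat_lit 2004) (nat_lit 138) (.e (nat_lit 671748) (nat_lit 0) (.e (nat_lit 1589) (nat_lit 111) (.e (nat_lit 360486) (nat_lit 18) (.e (nat_lit 671764) (nat_lit 6) (.e (nat_lit 81942) (nat_lit 20) .nil)))))) (.g (nat_lit 5) .nil .nil)))))) (.nd (nat_lit 3) (.nd (nat_lit 4) (.nd (nat_lit 5) 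
(.lf (nat_lit 87623) (.g (nat_lit 140) (.e (nat_lit 2003) (nat_lit 138) (.e (nat_lit 671764) (nat_lit 6) (.e (nat_lit 89856) (nat_lit 4) .nil))) .nil)) 
(.lf (nat_lit 87655) (.g (nat_lit 643) (.e (nat_lit 2004) (nat_lit 138) (.e (nat_lit 671747) (nat_lit 0) (.e (nat_lit 1575) (nat_lit 110) (.e (nat_lit 360192) (nat_lit 4) .nil)))) .nil))) (.nd (nat_lit 5) 
(.lf (nat_lit 87639) (.g (nat_lit 816) (.e (nat_lit 2003) (nat_lit 138) (.e (nat_lit 671764) (nat_lit 6) (.e (nat_lit 81946) (nat_lit 20) (.e (nat_lit 2006) (nat_lit 138) (.e (nat_lit 671764) (nat_lit 6) .nil))))) .nil)) 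
(.lf (nat_lit 87671) (.g (nat_lit 434) (.e (nat_lit 2004) (nat_lit 138) (.e (nat_lit 671748) (nat_lit 0) (.e (nat_lit 1575) (nat_lit 110) .nil))) .nil)))) (.nd (nat_lit 4) (.nd (nat_lit 5) 
(.lf (nat_lit 87631) (.g (nat_lit 1607) (.e (nat_lit 2003) (nat_lit 138) (.e (nat_lit 671764) (nat_lit 6) (.e (nat_lit 81942) (nat_lit 20) (.e (nat_lit 2005) (nat_lit 138) (.e (nat_lit 671764) (nat_lit 6) (.e (nat_lit 81938) (nat_lit 20) .nil)))))) (.g (nat_lit 6) .nil .nil))) 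
(.lf (nat_lit 87663) (.g (nat_lit 1286) (.e (nat_lit 2004) (nat_lit 138) (.e (nat_lit 671747) (nat_lit 0) (.e (nat_lit 1595) (nat_lit 111) (.e (nat_lit 360486) (nat_lit 18) (.e (nat_lit 671764) (nat_lit 6) .nil))))) .nil))) (.nd (nat_lit 5) 
(.lf (nat_lit 87647) (.g (nat_lit 2870) (.e (nat_lit 2003) (nat_lit 138) (.e (nat_lit 671764) (nat_lit 6) (.e (nat_lit 81948) (nat_lit 21) (.e (nat_lit 57873) (nat_lit 264) (.e (nat_lit 1221) (nat_lit 90) (.e (nat_lit 81947) (nat_lit 20) .nil)))))) (.g (nat_lit 0) .nil .nil))) 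
(.lf (nat_lit 87679) (.g (nat_lit 884) (.e (nat_lit 2004) (nat_lit 138) (.e (nat_lit 671748) (nat_lit 0) (.e (nat_lit 1595) (nat_lit 111) (.e (nat_lit 360486) (nat_lit 18) .nil)))) .nil))))))))

noncomputable def tv1193 : DT := (.nd (nat_lit 0) (.nd (nat_lit 1) (.nd (nat_lit 2) (.nd (nat_lit 3) (.nd (nat_lit 4) (.nd (nat_lit 5) 
(.lf (nat_lit 87680) (.g (nat_lit 1897) (.e (nat_lit 2004) (nat_lit 138) (.e (nat_lit 671748) (nat_lit 0) (.e (nat_lit 1595) (nat_lit 111) (.e (nat_lit 360486) (nat_lit 18) (.e (nat_lit 671764) (nat_lit 6) (.e (nat_lit 81942) (nat_lit 20) .nil)))))) (.g (nat_lit 5) .nil .nil))) 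
(.lf (nat_lit 87712) (.g (nat_lit 4659) (.e (nat_lit 2004) (nat_lit 138) (.e (nat_lit 671759) (nat_lit 3) (.e (nat_lit 57479) (nat_lit 28) (.e (nat_lit 557106) (nat_lit 15) (.e (nat_lit 188452) (nat_lit 23) (.e (nat_lit 204855) (nat_lit 26) (.e (nat_lit 335928) (nat_lit 0) .nil))))))) (.g (nat_lit 6) .nil .nil)))) (.nd (nat_lit 5) 
(.lf (nat_lit 87696) (.g (nat_lit 3895) (.e (nat_lit 2004) (nat_lit 138) (.e (nat_lit 671759) (nat_lit 3) (.e (nat_lit 57478) (nat_lit 28) (.e (nat_lit 557109) (nat_lit 15) (.e (nat_lit 188449) (nat_lit 22) (.e (nat_lit 196666) (nat_lit 13) (.e (nat_lit 65553) (nat_lit 0) .nil))))))) (.g (nat_lit 0) .nil .nil))) 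
(.lf (nat_lit 87728) (.g (nat_lit 4685) (.e (nat_lit 2004) (nat_lit 138) (.e (nat_lit 671759) (nat_lit 3) (.e (nat_lit 57480) (nat_lit 28) (.e (nat_lit 557098) (nat_lit 13) (.e (nat_lit 172097) (nat_lit 9) (.e (nat_lit 426125) (nat_lit 2) (.e (nat_lit 196666) (nat_lit 13) (.e (nat_lit 65553) (nat_lit 0) .nil)))))))) (.g (nat_lit 0) .nil .nil))))) (.nd (nat_lit 4) (.nd (nat_lit 5) 
(.lf (nat_lit 87688) (.g (nat_lit 3843) (.e (nat_lit 2004) (nat_lit 138) (.e (nat_lit 671759) (nat_lit 3) (.e (nat_lit 57478) (nat_lit 28) (.e (nat_lit 557098) (nat_lit 13) (.e (nat_lit 172097) (nat_lit 9) (.e (nat_lit 426140) (nat_lit 3) (.e (nat_lit 204855) (nat_lit 26) (.e (nat_lit 335928) (nat_lit 0) .nil)))))))) (.g (nat_lit 0) .nil .nil))) 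
(.lf (nat_lit 87720) (.g (nat_lit 2240) (.e (nat_lit 2004) (nat_lit 138) (.e (nat_lit 671759) (nat_lit 3) (.e (nat_lit 57479) (nat_lit 28) (.e (nat_lit 557109) (nat_lit 15) (.e (nat_lit 188458) (nat_lit 25) (.e (nat_lit 245784) (nat_lit 9) (.e (nat_lit 1440) (nat_lit 108) (.e (nat_lit 335927) (nat_lit 0) .nil)))))))) (.g (nat_lit 5) .nil .nil)))) (.nd (nat_lit 5) 
(.lf (nat_lit 87704) (.g (nat_lit 4616) (.e (nat_lit 2004) (nat_lit 138) (.e (nat_lit 671759) (nat_lit 3) (.e (nat_lit 57479) (nat_lit 28) (.e (nat_lit 557098) (nat_lit 13) (.e (nat_lit 172097) (nat_lit 9) (.e (nat_lit 426125) (nat_lit 2) (.e (nat_lit 196666) (nat_lit 13) (.e (nat_lit 65553) (nat_lit 0) .nil)))))))) (.g (nat_lit 7) .nil .nil))) 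
(.lf (nat_lit 87736) (.g (nat_lit 3224) (.e (nat_lit 2004) (nat_lit 138) (.e (nat_lit 671759) (nat_lit 3) (.e (nat_lit 57480) (nat_lit 28) (.e (nat_lit 557108) (nat_lit 15) (.e (nat_lit 188452) (nat_lit 23) (.e (nat_lit 204852) (nat_lit 26) (.e (nat_lit 343808) (nat_lit 0) .nil))))))) (.g (nat_lit 6) .nil .nil)))))) (.nd (nat_lit 3) (.nd (nat_lit 4) (.nd (nat_lit 5) 
(.lf (nat_lit 87684) (.g (nat_lit 2825) (.e (nat_lit 2004) (nat_lit 138) (.e (nat_lit 671757) (nat_lit 3) (.e (nat_lit 57474) (nat_lit 28) (.e (nat_lit 557095) (nat_lit 13) (.e (nat_lit 172115) (nat_lit 10) (.e (nat_lit 434231) (nat_lit 23) (.e (nat_lit 532535) (nat_lit 9) (.e (nat_lit 335928) (nat_lit 0) .nil)))))))) (.g (nat_lit 7) .nil .nil))) 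
(.lf (nat_lit 87716) (.g (nat_lit 1690) (.e (nat_lit 2004) (nat_lit 138) (.e (nat_lit 671759) (nat_lit 3) (.e (nat_lit 57479) (nat_lit 28) (.e (nat_lit 557109) (nat_lit 15) (.e (nat_lit 188458) (nat_lit 25) .nil))))) .nil))) (.nd (nat_lit 5) 
(.lf (nat_lit 87700) (.g (nat_lit 3531) (.e (nat_lit 2004) (nat_lit 138) (.e (nat_lit 671759) (nat_lit 3) (.e (nat_lit 57479) (nat_lit 28) (.e (nat_lit 557095) (nat_lit 13) (.e (nat_lit 172106) (nat_lit 10) .nil))))) .nil)) 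
(.lf (nat_lit 87732) (.g (nat_lit 3844) (.e (nat_lit 2004) (nat_lit 138) (.e (nat_lit 671759) (nat_lit 3) (.e (nat_lit 57480) (nat_lit 28) (.e (nat_lit 557107) (nat_lit 15) (.e (nat_lit 188447) (nat_lit 22) (.e (nat_lit 196666) (nat_lit 13) (.e (nat_lit 65553) (nat_lit 0) .nil))))))) (.g (nat_lit 0) .nil .nil))))) (.nd (nat_lit 4) (.nd (nat_lit 5) 
(.lf (nat_lit 87692) (.g (nat_lit 3747) (.e (nat_lit 2004) (nat_lit 138) (.e (nat_lit 671759) (nat_lit 3) (.e (nat_lit 57478) (nat_lit 28) (.e (nat_lit 557101) (nat_lit 13) (.e (nat_lit 172097) (nat_lit 9) (.e (nat_lit 426140) (nat_lit 3) (.e (nat_lit 204855) (nat_lit 26) (.e (nat_lit 335928) (nat_lit 0) .nil)))))))) (.g (nat_lit 0) .nil .nil))) 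
(.lf (nat_lit 87724) (.g (nat_lit 1811) (.e (nat_lit 2004) (nat_lit 138) (.e (nat_lit 671759) (nat_lit 3) (.e (nat_lit 57479) (nat_lit 28) (.e (nat_lit 557109) (nat_lit 15) (.e (nat_lit 188458) (nat_lit 25) (.e (nat_lit 245790) (nat_lit 13) (.e (nat_lit 65552) (nat_lit 0) .nil))))))) (.g (nat_lit 4) .nil .nil)))) (.nd (nat_lit 5) 
(.lf (nat_lit 87708) (.g (nat_lit 4444) (.e (nat_lit 2004) (nat_lit 138) (.e (nat_lit 671759) (nat_lit 3) (.e (nat_lit 57479) (nat_lit 28) (.e (nat_lit 557101) (nat_lit 13) (.e (nat_lit 172097) (nat_lit 9) (.e (nat_lit 426140) (nat_lit 3) (.e (nat_lit 204855) (nat_lit 26) (.e (nat_lit 335928) (nat_lit 0) .nil)))))))) (.g (nat_lit 0) .nil .nil))) 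
(.lf (nat_lit 87740) (.g (nat_lit 1445) (.e (nat_lit 2004) (nat_lit 138) (.e (nat_lit 671760) (nat_lit 4) (.e (nat_lit 65624) (nat_lit 12) (.e (nat_lit 385093) (nat_lit 49) (.e (nat_lit 778326) (nat_lit 6) (.e (nat_lit 81943) (nat_lit 20) .nil)))))) (.g (nat_lit 4) .nil .nil))))))) (.nd (nat_lit 2) (.nd (nat_lit 3) (.nd (nat_lit 4) (.nd (nat_lit 5) 
(.lf (nat_lit 87682) (.g (nat_lit 701) (.e (nat_lit 2004) (nat_lit 138) (.e (nat_lit 671748) (nat_lit 0) (.e (nat_lit 1598) (nat_lit 111) (.e (nat_lit 360486) (nat_lit 18) .nil)))) .nil)) 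
(.lf (nat_lit 87714) (.g (nat_lit 4182) (.e (nat_lit 2004) (nat_lit 138) (.e (nat_lit 671759) (nat_lit 3) (.e (nat_lit 57479) (nat_lit 28) (.e (nat_lit 557109) (nat_lit 15) (.e (nat_lit 188447) (nat_lit 22) (.e (nat_lit 196666) (nat_lit 13) (.e (nat_lit 65553) (nat_lit 0) .nil))))))) (.g (nat_lit 6) .nil .nil)))) (.nd (nat_lit 5) 
(.lf (nat_lit 87698) (.g (nat_lit 360) (.e (nat_lit 2004) (nat_lit 138) (.e (nat_lit 671759) (nat_lit 3) (.e (nat_lit 57479) (nat_lit 28) .nil))) .nil)) 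
(.lf (nat_lit 87730) (.g (nat_lit 4859) (.e (nat_lit 2004) (nat_lit 138) (.e (nat_lit 671759) (nat_lit 3) (.e (nat_lit 57480) (nat_lit 28) (.e (nat_lit 557098) (nat_lit 13) (.e (nat_lit 172115) (nat_lit 10) (.e (nat_lit 434231) (nat_lit 23) (.e (nat_lit 532535) (nat_lit 9) (.e (nat_lit 335928) (nat_lit 0) .nil)))))))) (.g (nat_lit 0) .nil .nil))))) (.nd (nat_lit 4) (.nd (nat_lit 5) 
(.lf (nat_lit 87690) (.g (nat_lit 4484) (.e (nat_lit 2004) (nat_lit 138) (.e (nat_lit 671759) (nat_lit 3) (.e (nat_lit 57478) (nat_lit 28) (.e (nat_lit 557100) (nat_lit 13) (.e (nat_lit 172106) (nat_lit 10) (.e (nat_lit 434231) (nat_lit 23) (.e (nat_lit 532535) (nat_lit 9) (.e (nat_lit 335928) (nat_lit 0) .nil)))))))) (.g (nat_lit 0) .nil .nil))) 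
(.lf (nat_lit 87722) (.g (nat_lit 2155) (.e (nat_lit 2004) (nat_lit 138) (.e (nat_lit 671759) (nat_lit 3) (.e (nat_lit 57479) (nat_lit 28) (.e (nat_lit 557109) (nat_lit 15) (.e (nat_lit 188458) (nat_lit 25) (.e (nat_lit 245784) (nat_lit 9) (.e (nat_lit 1459) (nat_lit 108) (.e (nat_lit 335928) (nat_lit 0) .nil)))))))) (.g (nat_lit 5) .nil .nil)))) (.nd (nat_lit 5) 
(.lf (nat_lit 87706) (.g (nat_lit 4798) (.e (nat_lit 2004) (nat_lit 138) (.e (nat_lit 671759) (nat_lit 3) (.e (nat_lit 57479) (nat_lit 28) (.e (nat_lit 557098) (nat_lit 13) (.e (nat_lit 172115) (nat_lit 10) (.e (nat_lit 434231) (nat_lit 23) (.e (nat_lit 532535) (nat_lit 9) (.e (nat_lit 335928) (nat_lit 0) .nil)))))))) (.g (nat_lit 7) .nil .nil))) 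
(.lf (nat_lit 87738) (.g (nat_lit 4257) (.e (nat_lit 2004) (nat_lit 138) (.e (nat_lit 671759) (nat_lit 3) (.e (nat_lit 57480) (nat_lit 28) (.e (nat_lit 557109) (nat_lit 15) (.e (nat_lit 188452) (nat_lit 23) (.e (nat_lit 204855) (nat_lit 26) (.e (nat_lit 335928) (nat_lit 0) .nil))))))) (.g (nat_lit 0) .nil .nil)))))) (.nd (nat_lit 3) (.nd (nat_lit 4) (.nd (nat_lit 5) 
(.lf (nat_lit 87686) (.g (nat_lit 4052) (.e (nat_lit 2004) (nat_lit 138) (.e (nat_lit 671757) (nat_lit 3) (.e (nat_lit 57474) (nat_lit 28) (.e (nat_lit 557108) (nat_lit 15) (.e (nat_lit 188452) (nat_lit 23) (.e (nat_lit 204855) (nat_lit 26) (.e (nat_lit 335928) (nat_lit 0) .nil))))))) (.g (nat_lit 7) .nil .nil))) 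
(.lf (nat_lit 87718) (.g (nat_lit 1801) (.e (nat_lit 2004) (nat_lit 138) (.e (nat_lit 671759) (nat_lit 3) (.e (nat_lit 57479) (nat_lit 28) (.e (nat_lit 557109) (nat_lit 15) (.e (nat_lit 188458) (nat_lit 25) (.e (nat_lit 245784) (nat_lit 9) (.e (nat_lit 1440) (nat_lit 108) (.e (nat_lit 335922) (nat_lit 0) .nil)))))))) (.g (nat_lit 4) .nil .nil)))) (.nd (nat_lit 5) 
(.lf (nat_lit 87702) (.g (nat_lit 2224) (.e (nat_lit 2004) (nat_lit 138) (.e (nat_lit 671759) (nat_lit 3) (.e (nat_lit 57479) (nat_lit 28) (.e (nat_lit 557096) (nat_lit 13) (.e (nat_lit 172097) (nat_lit 9) .nil))))) .nil)) 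
(.lf (nat_lit 87734) (.g (nat_lit 2115) (.e (nat_lit 2004) (nat_lit 138) (.e (nat_lit 671759) (nat_lit 3) (.e (nat_lit 57480) (nat_lit 28) (.e (nat_lit 557108) (nat_lit 15) (.e (nat_lit 188452) (nat_lit 23) (.e (nat_lit 204851) (nat_lit 26) (.e (nat_lit 335973) (nat_lit 0) .nil))))))) (.g (nat_lit 5) .nil .nil))))) (.nd (nat_lit 4) (.nd (nat_lit 5) 
(.lf (nat_lit 87694) (.g (nat_lit 3545) (.e (nat_lit 2004) (nat_lit 138) (.e (nat_lit 671759) (nat_lit 3) (.e (nat_lit 57478) (nat_lit 28) (.e (nat_lit 557107) (nat_lit 15) (.e (nat_lit 188447) (nat_lit 22) (.e (nat_lit 196666) (nat_lit 13) (.e (nat_lit 65553) (nat_lit 0) .nil))))))) (.g (nat_lit 0) .nil .nil))) 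
(.lf (nat_lit 87726) (.g (nat_lit 4077) (.e (nat_lit 2004) (nat_lit 138) (.e (nat_lit 671759) (nat_lit 3) (.e (nat_lit 57480) (nat_lit 28) (.e (nat_lit 557097) (nat_lit 13) (.e (nat_lit 172097) (nat_lit 9) (.e (nat_lit 426140) (nat_lit 3) (.e (nat_lit 204855) (nat_lit 26) (.e (nat_lit 335928) (nat_lit 0) .nil)))))))) (.g (nat_lit 7) .nil .nil)))) (.nd (nat_lit 5) 
(.lf (nat_lit 87710) (.g (nat_lit 1636) (.e (nat_lit 2004) (nat_lit 138) (.e (nat_lit 671759) (nat_lit 3) (.e (nat_lit 57479) (nat_lit 28) (.e (nat_lit 557106) (nat_lit 15) .nil)))) .nil)) 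
(.lf (nat_lit 87742) (.g (nat_lit 1439) (.e (nat_lit 2004) (nat_lit 138) (.e (nat_lit 671761) (nat_lit 4) (.e (nat_lit 65624) (nat_lit 12) (.e (nat_lit 385092) (nat_lit 49) .nil)))) .nil))))))) (.nd (nat_lit 1) (.nd (nat_lit 2) (.nd (nat_lit 3) (.nd (nat_lit 4) (.nd (nat_lit 5) 
(.lf (nat_lit 87681) (.g (nat_lit 1923) (.e (nat_lit 2004) (nat_lit 138) (.e (nat_lit 671748) (nat_lit 0) (.e (nat_lit 1598) (nat_lit 111) (.e (nat_lit 360452) (nat_lit 0) (.e (nat_lit 5906) (nat_lit 320) (.e (nat_lit 1219) (nat_lit 90) (.e (nat_lit 81943) (nat_lit 20) .nil))))))) (.g (nat_lit 5) .nil .nil))) 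
(.lf (nat_lit 87713) (.g (nat_lit 4030) (.e (nat_lit 2004) (nat_lit 138) (.e (nat_lit 671759) (nat_lit 3) (.e (nat_lit 57479) (nat_lit 28) (.e (nat_lit 557107) (nat_lit 15) (.e (nat_lit 188447) (nat_lit 22) (.e (nat_lit 196666) (nat_lit 13) (.e (nat_lit 65553) (nat_lit 0) .nil))))))) (.g (nat_lit 6) .nil .nil)))) (.nd (nat_lit 5) 
(.lf (nat_lit 87697) (.g (nat_lit 3993) (.e (nat_lit 2004) (nat_lit 138) (.e (nat_lit 671759) (nat_lit 3) (.e (nat_lit 57478) (nat_lit 28) (.e (nat_lit 557109) (nat_lit 15) (.e (nat_lit 188452) (nat_lit 23) (.e (nat_lit 204855) (nat_lit 26) (.e (nat_lit 335928) (nat_lit 0) .nil))))))) (.g (nat_lit 0) .nil .nil))) 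
(.lf (nat_lit 87729) (.g (nat_lit 4420) (.e (nat_lit 2004) (nat_lit 138) (.e (nat_lit 671759) (nat_lit 3) (.e (nat_lit 57480) (nat_lit 28) (.e (nat_lit 557098) (nat_lit 13) (.e (nat_lit 172097) (nat_lit 9) (.e (nat_lit 426140) (nat_lit 3) (.e (nat_lit 204855) (nat_lit 26) (.e (nat_lit 335928) (nat_lit 0) .nil)))))))) (.g (nat_lit 0) .nil .nil))))) (.nd (nat_lit 4) (.nd (nat_lit 5) 
(.lf (nat_lit 87689) (.g (nat_lit 4250) (.e (nat_lit 2004) (nat_lit 138) (.e (nat_lit 671759) (nat_lit 3) (.e (nat_lit 57478) (nat_lit 28) (.e (nat_lit 557098) (nat_lit 13) (.e (nat_lit 172115) (nat_lit 10) (.e (nat_lit 434231) (nat_lit 23) (.e (nat_lit 532535) (nat_lit 9) (.e (nat_lit 335928) (nat_lit 0) .nil)))))))) (.g (nat_lit 0) .nil .nil))) 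
(.lf (nat_lit 87721) (.g (nat_lit 2093) (.e (nat_lit 2004) (nat_lit 138) (.e (nat_lit 671759) (nat_lit 3) (.e (nat_lit 57479) (nat_lit 28) (.e (nat_lit 557109) (nat_lit 15) (.e (nat_lit 188458) (nat_lit 25) (.e (nat_lit 245784) (nat_lit 9) (.e (nat_lit 1440) (nat_lit 108) (.e (nat_lit 335936) (nat_lit 0) .nil)))))))) (.g (nat_lit 5) .nil .nil)))) (.nd (nat_lit 5) 
(.lf (nat_lit 87705) (.g (nat_lit 4338) (.e (nat_lit 2004) (nat_lit 138) (.e (nat_lit 671759) (nat_lit 3) (.e (nat_lit 57479) (nat_lit 28) (.e (nat_lit 557098) (nat_lit 13) (.e (nat_lit 172097) (nat_lit 9) (.e (nat_lit 426140) (nat_lit 3) (.e (nat_lit 204855) (nat_lit 26) (.e (nat_lit 335928) (nat_lit 0) .nil)))))))) (.g (nat_lit 7) .nil .nil))) 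
(.lf (nat_lit 87737) (.g (nat_lit 4175) (.e (nat_lit 2004) (nat_lit 138) (.e (nat_lit 671759) (nat_lit 3) (.e (nat_lit 57480) (nat_lit 28) (.e (nat_lit 557109) (nat_lit 15) (.e (nat_lit 188449) (nat_lit 22) (.e (nat_lit 196666) (nat_lit 13) (.e (nat_lit 65553) (nat_lit 0) .nil))))))) (.g (nat_lit 0) .nil .nil)))))) (.nd (nat_lit 3) (.nd (nat_lit 4) (.nd (nat_lit 5) 
(.lf (nat_lit 87685) (.g (nat_lit 3574) (.e (nat_lit 2004) (nat_lit 138) (.e (nat_lit 671757) (nat_lit 3) (.e (nat_lit 57474) (nat_lit 28) (.e (nat_lit 557108) (nat_lit 15) (.e (nat_lit 188449) (nat_lit 22) (.e (nat_lit 196666) (nat_lit 13) (.e (nat_lit 65553) (nat_lit 0) .nil))))))) (.g (nat_lit 7) .nil .nil))) 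
(.lf (nat_lit 87717) (.g (nat_lit 1802) (.e (nat_lit 2004) (nat_lit 138) (.e (nat_lit 671759) (nat_lit 3) (.e (nat_lit 57479) (nat_lit 28) (.e (nat_lit 557109) (nat_lit 15) (.e (nat_lit 188458) (nat_lit 25) (.e (nat_lit 245784) (nat_lit 9) (.e (nat_lit 1440) (nat_lit 108) (.e (nat_lit 335920) (nat_lit 0) .nil)))))))) (.g (nat_lit 4) .nil .nil)))) (.nd (nat_lit 5) 
(.lf (nat_lit 87701) (.g (nat_lit 5376) (.e (nat_lit 2004) (nat_lit 138) (.e (nat_lit 671759) (nat_lit 3) (.e (nat_lit 57479) (nat_lit 28) (.e (nat_lit 557095) (nat_lit 13) (.e (nat_lit 172115) (nat_lit 10) (.e (nat_lit 434231) (nat_lit 23) (.e (nat_lit 532535) (nat_lit 9) (.e (nat_lit 335928) (nat_lit 0) .nil)))))))) (.g (nat_lit 8) .nil .nil))) 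
(.lf (nat_lit 87733) (.g (nat_lit 3509) (.e (nat_lit 2004) (nat_lit 138) (.e (nat_lit 671759) (nat_lit 3) (.e (nat_lit 57480) (nat_lit 28) (.e (nat_lit 557107) (nat_lit 15) (.e (nat_lit 188450) (nat_lit 23) (.e (nat_lit 204855) (nat_lit 26) (.e (nat_lit 335928) (nat_lit 0) .nil))))))) (.g (nat_lit 0) .nil .nil))))) (.nd (nat_lit 4) (.nd (nat_lit 5) 
(.lf (nat_lit 87693) (.g (nat_lit 4110) (.e (nat_lit 2004) (nat_lit 138) (.e (nat_lit 671759) (nat_lit 3) (.e (nat_lit 57478) (nat_lit 28) (.e (nat_lit 557101) (nat_lit 13) (.e (nat_lit 172115) (nat_lit 10) (.e (nat_lit 434231) (nat_lit 23) (.e (nat_lit 532535) (nat_lit 9) (.e (nat_lit 335928) (nat_lit 0) .nil)))))))) (.g (nat_lit 0) .nil .nil))) 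
(.lf (nat_lit 87725) (.g (nat_lit 2554) (.e (nat_lit 2004) (nat_lit 138) (.e (nat_lit 671759) (nat_lit 3) (.e (nat_lit 57479) (nat_lit 28) (.e (nat_lit 557109) (nat_lit 15) (.e (nat_lit 188458) (nat_lit 25) (.e (nat_lit 245790) (nat_lit 13) (.e (nat_lit 65553) (nat_lit 0) .nil))))))) (.g (nat_lit 7) .nil .nil)))) (.nd (nat_lit 5) 
(.lf (nat_lit 87709) (.g (nat_lit 4823) (.e (nat_lit 2004) (nat_lit 138) (.e (nat_lit 671759) (nat_lit 3) (.e (nat_lit 57479) (nat_lit 28) (.e (nat_lit 557101) (nat_lit 13) (.e (nat_lit 172115) (nat_lit 10) (.e (nat_lit 434231) (nat_lit 23) (.e (nat_lit 532535) (nat_lit 9) (.e (nat_lit 335928) (nat_lit 0) .nil)))))))) (.g (nat_lit 0) .nil .nil))) 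
(.lf (nat_lit 87741) (.g (nat_lit 1858) (.e (nat_lit 2004) (nat_lit 138) (.e (nat_lit 671760) (nat_lit 4) (.e (nat_lit 65630) (nat_lit 14) (.e (nat_lit 401436) (nat_lit 9) (.e (nat_lit 426542) (nat_lit 29) (.e (nat_lit 352297) (nat_lit 20) .nil)))))) (.g (nat_lit 5) .nil .nil))))))) (.nd (nat_lit 2) (.nd (nat_lit 3) (.nd (nat_lit 4) (.nd (nat_lit 5) 
(.lf (nat_lit 87683) (.g (nat_lit 2206) (.e (nat_lit 2004) (nat_lit 138) (.e (nat_lit 671751) (nat_lit 0) (.e (nat_lit 1524) (nat_lit 108) (.e (nat_lit 336194) (nat_lit 12) (.e (nat_lit 385094) (nat_lit 49) (.e (nat_lit 778326) (nat_lit 6) (.e (nat_lit 81943) (nat_lit 20) .nil))))))) (.g (nat_lit 6) .nil .nil))) 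
(.lf (nat_lit 87715) (.g (nat_lit 3897) (.e (nat_lit 2004) (nat_lit 138) (.e (nat_lit 671759) (nat_lit 3) (.e (nat_lit 57479) (nat_lit 28) (.e (nat_lit 557109) (nat_lit 15) (.e (nat_lit 188449) (nat_lit 22) (.e (nat_lit 196666) (nat_lit 13) (.e (nat_lit 65553) (nat_lit 0) .nil))))))) (.g (nat_lit 6) .nil .nil)))) (.nd (nat_lit 5) 
(.lf (nat_lit 87699) (.g (nat_lit 4016) (.e (nat_lit 2004) (nat_lit 138) (.e (nat_lit 671759) (nat_lit 3) (.e (nat_lit 57479) (nat_lit 28) (.e (nat_lit 557095) (nat_lit 13) (.e (nat_lit 172097) (nat_lit 9) (.e (nat_lit 426125) (nat_lit 2) (.e (nat_lit 196666) (nat_lit 13) (.e (nat_lit 65550) (nat_lit 0) .nil)))))))) (.g (nat_lit 5) .nil .nil))) 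
(.lf (nat_lit 87731) (.g (nat_lit 3869) (.e (nat_lit 2004) (nat_lit 138) (.e (nat_lit 671759) (nat_lit 3) (.e (nat_lit 57480) (nat_lit 28) (.e (nat_lit 557101) (nat_lit 13) (.e (nat_lit 172115) (nat_lit 10) (.e (nat_lit 434231) (nat_lit 23) (.e (nat_lit 532535) (nat_lit 9) (.e (nat_lit 335928) (nat_lit 0) .nil)))))))) (.g (nat_lit 5) .nil .nil))))) (.nd (nat_lit 4) (.nd (nat_lit 5) 
(.lf (nat_lit 87691) (.g (nat_lit 4009) (.e (nat_lit 2004) (nat_lit 138) (.e (nat_lit 671759) (nat_lit 3) (.e (nat_lit 57478) (nat_lit 28) (.e (nat_lit 557101) (nat_lit 13) (.e (nat_lit 172097) (nat_lit 9) (.e (nat_lit 426125) (nat_lit 2) (.e (nat_lit 196666) (nat_lit 13) (.e (nat_lit 65553) (nat_lit 0) .nil)))))))) (.g (nat_lit 0) .nil .nil))) 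
(.lf (nat_lit 87723) (.g (nat_lit 1705) (.e (nat_lit 2004) (nat_lit 138) (.e (nat_lit 671759) (nat_lit 3) (.e (nat_lit 57479) (nat_lit 28) (.e (nat_lit 557109) (nat_lit 15) (.e (nat_lit 188458) (nat_lit 25) (.e (nat_lit 245790) (nat_lit 13) (.e (nat_lit 65549) (nat_lit 0) .nil))))))) (.g (nat_lit 4) .nil .nil)))) (.nd (nat_lit 5) 
(.lf (nat_lit 87707) (.g (nat_lit 4700) (.e (nat_lit 2004) (nat_lit 138) (.e (nat_lit 671759) (nat_lit 3) (.e (nat_lit 57479) (nat_lit 28) (.e (nat_lit 557101) (nat_lit 13) (.e (nat_lit 172097) (nat_lit 9) (.e (nat_lit 426125) (nat_lit 2) (.e (nat_lit 196666) (nat_lit 13) (.e (nat_lit 65553) (nat_lit 0) .nil)))))))) (.g (nat_lit 0) .nil .nil))) 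
(.lf (nat_lit 87739) (.g (nat_lit 1354) (.e (nat_lit 2004) (nat_lit 138) (.e (nat_lit 671760) (nat_lit 4) (.e (nat_lit 65624) (nat_lit 12) (.e (nat_lit 385092) (nat_lit 49) (.e (nat_lit 778326) (nat_lit 6) .nil))))) .nil))))) (.nd (nat_lit 3) (.nd (nat_lit 4) (.nd (nat_lit 5) 
(.lf (nat_lit 87687) (.g (nat_lit 4112) (.e (nat_lit 2004) (nat_lit 138) (.e (nat_lit 671759) (nat_lit 3) (.e (nat_lit 57478) (nat_lit 28) (.e (nat_lit 557098) (nat_lit 13) (.e (nat_lit 172097) (nat_lit 9) (.e (nat_lit 426125) (nat_lit 2) (.e (nat_lit 196666) (nat_lit 13) (.e (nat_lit 65553) (nat_lit 0) .nil)))))))) (.g (nat_lit 0) .nil .nil))) 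
(.lf (nat_lit 87719) (.g (nat_lit 2503) (.e (nat_lit 2004) (nat_lit 138) (.e (nat_lit 671759) (nat_lit 3) (.e (nat_lit 57479) (nat_lit 28) (.e (nat_lit 557109) (nat_lit 15) (.e (nat_lit 188458) (nat_lit 25) (.e (nat_lit 245784) (nat_lit 9) (.e (nat_lit 1440) (nat_lit 108) (.e (nat_lit 335924) (nat_lit 0) .nil)))))))) (.g (nat_lit 6) .nil .nil)))) (.nd (nat_lit 5) 
(.lf (nat_lit 87703) (.g (nat_lit 2458) (.e (nat_lit 2004) (nat_lit 138) (.e (nat_lit 671759) (nat_lit 3) (.e (nat_lit 57479) (nat_lit 28) (.e (nat_lit 557097) (nat_lit 13) (.e (nat_lit 172097) (nat_lit 9) (.e (nat_lit 426125) (nat_lit 2) (.e (nat_lit 196666) (nat_lit 13) (.e (nat_lit 65546) (nat_lit 0) .nil)))))))) (.g (nat_lit 4) .nil .nil))) 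
(.lf (nat_lit 87735) (.g (nat_lit 4275) (.e (nat_lit 2004) (nat_lit 138) (.e (nat_lit 671759) (nat_lit 3) (.e (nat_lit 57480) (nat_lit 28) (.e (nat_lit 557108) (nat_lit 15) (.e (nat_lit 188452) (nat_lit 23) (.e (nat_lit 204852) (nat_lit 26) (.e (nat_lit 335973) (nat_lit 0) .nil))))))) (.g (nat_lit 7) .nil .nil))))) (.nd (nat_lit 4) (.nd (nat_lit 5) 
(.lf (nat_lit 87695) (.g (nat_lit 3177) (.e (nat_lit 2004) (nat_lit 138) (.e (nat_lit 671759) (nat_lit 3) (.e (nat_lit 57478) (nat_lit 28) (.e (nat_lit 557107) (nat_lit 15) (.e (nat_lit 188450) (nat_lit 23) (.e (nat_lit 204855) (nat_lit 26) (.e (nat_lit 335928) (nat_lit 0) .nil))))))) (.g (nat_lit 0) .nil .nil))) 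
(.lf (nat_lit 87727) (.g (nat_lit 4621) (.e (nat_lit 2004) (nat_lit 138) (.e (nat_lit 671759) (nat_lit 3) (.e (nat_lit 57480) (nat_lit 28) (.e (nat_lit 557097) (nat_lit 13) (.e (nat_lit 172115) (nat_lit 10) (.e (nat_lit 434231) (nat_lit 23) (.e (nat_lit 532535) (nat_lit 9) (.e (nat_lit 335928) (nat_lit 0) .nil)))))))) (.g (nat_lit 7) .nil .nil)))) (.nd (nat_lit 5) 
(.lf (nat_lit 87711) (.g (nat_lit 2674) (.e (nat_lit 2004) (nat_lit 138) (.e (nat_lit 671759) (nat_lit 3) (.e (nat_lit 57479) (nat_lit 28) (.e (nat_lit 557106) (nat_lit 15) (.e (nat_lit 188448) (nat_lit 22) .nil))))) .nil)) 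
(.lf (nat_lit 87743) (.g (nat_lit 446) (.e (nat_lit 2004) (nat_lit 138) (.e (nat_lit 671762) (nat_lit 4) (.e (nat_lit 65537) (nat_lit 0) .nil))) .nil))))))))

noncomputable def tv1194 : DT := (.nd (nat_lit 0) (.nd (nat_lit 1) (.nd (nat_lit 2) (.nd (nat_lit 3) (.nd (nat_lit 4) (.nd (nat_lit 5) 
(.lf (nat_lit 87744) (.g (nat_lit 2602) (.e (nat_lit 2004) (nat_lit 138) (.e (nat_lit 671762) (nat_lit 4) (.e (nat_lit 65539) (nat_lit 0) (.e (nat_lit 6113) (nat_lit 332) (.e (nat_lit 1374) (nat_lit 104) (.e (nat_lit 303155) (nat_lit 29) (.e (nat_lit 352297) (nat_lit 20) .nil))))))) (.g (nat_lit 5) .nil .nil))) 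
(.lf (nat_lit 87776) (.g (nat_lit 2177) (.e (nat_lit 2004) (nat_lit 138) (.e (nat_lit 671762) (nat_lit 4) (.e (nat_lit 65610) (nat_lit 10) (.e (nat_lit 344168) (nat_lit 40) (.e (nat_lit 671764) (nat_lit 6) (.e (nat_lit 81942) (nat_lit 20) .nil)))))) (.g (nat_lit 6) .nil .nil)))) (.nd (nat_lit 5) 
(.lf (nat_lit 87760) (.g (nat_lit 1801) (.e (nat_lit 2004) (nat_lit 138) (.e (nat_lit 671762) (nat_lit 4) (.e (nat_lit 65585) (nat_lit 7) (.e (nat_lit 319539) (nat_lit 19) (.e (nat_lit 311358) (nat_lit 29) (.e (nat_lit 352297) (nat_lit 20) .nil)))))) (.g (nat_lit 6) .nil .nil))) 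
(.lf (nat_lit 87792) (.g (nat_lit 2866) (.e (nat_lit 2004) (nat_lit 138) (.e (nat_lit 671762) (nat_lit 4) (.e (nat_lit 65619) (nat_lit 10) (.e (nat_lit 344097) (nat_lit 18) (.e (nat_lit 5906) (nat_lit 320) (.e (nat_lit 1219) (nat_lit 90) (.e (nat_lit 81943) (nat_lit 20) .nil))))))) (.g (nat_lit 0) .nil .nil))))) (.nd (nat_lit 4) (.nd (nat_lit 5) 
(.lf (nat_lit 87752) (.g (nat_lit 1586) (.e (nat_lit 2004) (nat_lit 138) (.e (nat_lit 671762) (nat_lit 4) (.e (nat_lit 65582) (nat_lit 7) (.e (nat_lit 319506) (nat_lit 10) (.e (nat_lit 5722) (nat_lit 312) .nil))))) .nil)) 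
(.lf (nat_lit 87784) (.g (nat_lit 1881) (.e (nat_lit 2004) (nat_lit 138) (.e (nat_lit 671762) (nat_lit 4) (.e (nat_lit 65616) (nat_lit 10) (.e (nat_lit 344168) (nat_lit 40) (.e (nat_lit 671764) (nat_lit 6) (.e (nat_lit 81943) (nat_lit 20) .nil)))))) (.g (nat_lit 5) .nil .nil)))) (.nd (nat_lit 5) 
(.lf (nat_lit 87768) (.g (nat_lit 2826) (.e (nat_lit 2004) (nat_lit 138) (.e (nat_lit 671762) (nat_lit 4) (.e (nat_lit 65598) (nat_lit 9) (.e (nat_lit 336032) (nat_lit 4) (.e (nat_lit 123184) (nat_lit 264) (.e (nat_lit 1222) (nat_lit 90) (.e (nat_lit 81943) (nat_lit 20) .nil))))))) (.g (nat_lit 6) .nil .nil))) 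
(.lf (nat_lit 87800) (.g (nat_lit 1819) (.e (nat_lit 2004) (nat_lit 138) (.e (nat_lit 671762) (nat_lit 4) (.e (nat_lit 65620) (nat_lit 10) (.e (nat_lit 344169) (nat_lit 40) (.e (nat_lit 671764) (nat_lit 6) (.e (nat_lit 81943) (nat_lit 20) .nil)))))) (.g (nat_lit 5) .nil .nil)))))) (.nd (nat_lit 3) (.nd (nat_lit 4) (.nd (nat_lit 5) 
(.lf (nat_lit 87748) (.g (nat_lit 1612) (.e (nat_lit 2004) (nat_lit 138) (.e (nat_lit 671762) (nat_lit 4) (.e (nat_lit 65543) (nat_lit 0) (.e (nat_lit 6113) (nat_lit 332) (.e (nat_lit 1376) (nat_lit 104) (.e (nat_lit 303155) (nat_lit 29) (.e (nat_lit 352297) (nat_lit 20) .nil))))))) (.g (nat_lit 4) .nil .nil))) 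
(.lf (nat_lit 87780) (.g (nat_lit 1803) (.e (nat_lit 2004) (nat_lit 138) (.e (nat_lit 671762) (nat_lit 4) (.e (nat_lit 65611) (nat_lit 10) (.e (nat_lit 344168) (nat_lit 40) (.e (nat_lit 671764) (nat_lit 6) (.e (nat_lit 81942) (nat_lit 20) .nil)))))) (.g (nat_lit 6) .nil .nil)))) (.nd (nat_lit 5) 
(.lf (nat_lit 87764) (.g (nat_lit 1883) (.e (nat_lit 2004) (nat_lit 138) (.e (nat_lit 671762) (nat_lit 4) (.e (nat_lit 65598) (nat_lit 9) (.e (nat_lit 335907) (nat_lit 0) (.e (nat_lit 1994) (nat_lit 137) (.e (nat_lit 663569) (nat_lit 6) (.e (nat_lit 81943) (nat_lit 20) .nil))))))) (.g (nat_lit 4) .nil .nil))) 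
(.lf (nat_lit 87796) (.g (nat_lit 2234) (.e (nat_lit 2004) (nat_lit 138) (.e (nat_lit 671762) (nat_lit 4) (.e (nat_lit 65619) (nat_lit 10) (.e (nat_lit 344169) (nat_lit 40) (.e (nat_lit 671764) (nat_lit 6) (.e (nat_lit 81943) (nat_lit 20) .nil)))))) (.g (nat_lit 0) .nil .nil))))) (.nd (nat_lit 4) (.nd (nat_lit 5) 
(.lf (nat_lit 87756) (.g (nat_lit 1578) (.e (nat_lit 2004) (nat_lit 138) (.e (nat_lit 671762) (nat_lit 4) (.e (nat_lit 65584) (nat_lit 7) (.e (nat_lit 319506) (nat_lit 10) (.e (nat_lit 5721) (nat_lit 312) .nil))))) .nil)) 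
(.lf (nat_lit 87788) (.g (nat_lit 2000) (.e (nat_lit 2004) (nat_lit 138) (.e (nat_lit 671762) (nat_lit 4) (.e (nat_lit 65617) (nat_lit 10) (.e (nat_lit 344168) (nat_lit 40) (.e (nat_lit 671764) (nat_lit 6) (.e (nat_lit 81943) (nat_lit 20) .nil)))))) (.g (nat_lit 4) .nil .nil)))) (.nd (nat_lit 5) 
(.lf (nat_lit 87772) (.g (nat_lit 3059) (.e (nat_lit 2004) (nat_lit 138) (.e (nat_lit 671762) (nat_lit 4) (.e (nat_lit 65604) (nat_lit 9) (.e (nat_lit 335997) (nat_lit 1) (.e (nat_lit 57872) (nat_lit 264) (.e (nat_lit 1219) (nat_lit 90) (.e (nat_lit 81943) (nat_lit 20) .nil))))))) (.g (nat_lit 0) .nil .nil))) 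
(.lf (nat_lit 87804) (.g (nat_lit 1036) (.e (nat_lit 2004) (nat_lit 138) (.e (nat_lit 671762) (nat_lit 4) (.e (nat_lit 65623) (nat_lit 12) (.e (nat_lit 385094) (nat_lit 49) .nil)))) .nil)))))) (.nd (nat_lit 2) (.nd (nat_lit 3) (.nd (nat_lit 4) (.nd (nat_lit 5) 
(.lf (nat_lit 87746) (.g (nat_lit 2377) (.e (nat_lit 2004) (nat_lit 138) (.e (nat_lit 671762) (nat_lit 4) (.e (nat_lit 65542) (nat_lit 0) (.e (nat_lit 6113) (nat_lit 332) (.e (nat_lit 1374) (nat_lit 104) (.e (nat_lit 303155) (nat_lit 29) (.e (nat_lit 352297) (nat_lit 20) .nil))))))) (.g (nat_lit 5) .nil .nil))) 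
(.lf (nat_lit 87778) (.g (nat_lit 2387) (.e (nat_lit 2004) (nat_lit 138) (.e (nat_lit 671762) (nat_lit 4) (.e (nat_lit 65610) (nat_lit 10) (.e (nat_lit 344169) (nat_lit 40) (.e (nat_lit 671764) (nat_lit 6) (.e (nat_lit 81942) (nat_lit 20) .nil)))))) (.g (nat_lit 0) .nil .nil)))) (.nd (nat_lit 5) 
(.lf (nat_lit 87762) (.g (nat_lit 1793) (.e (nat_lit 2004) (nat_lit 138) (.e (nat_lit 671762) (nat_lit 4) (.e (nat_lit 65586) (nat_lit 7) (.e (nat_lit 319539) (nat_lit 19) (.e (nat_lit 311358) (nat_lit 29) (.e (nat_lit 352296) (nat_lit 20) .nil)))))) (.g (nat_lit 4) .nil .nil))) 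
(.lf (nat_lit 87794) (.g (nat_lit 2263) (.e (nat_lit 2004) (nat_lit 138) (.e (nat_lit 671762) (nat_lit 4) (.e (nat_lit 65619) (nat_lit 10) (.e (nat_lit 344168) (nat_lit 40) (.e (nat_lit 671764) (nat_lit 6) (.e (nat_lit 81943) (nat_lit 20) .nil)))))) (.g (nat_lit 0) .nil .nil))))) (.nd (nat_lit 4) (.nd (nat_lit 5) 
(.lf (nat_lit 87754) (.g (nat_lit 1962) (.e (nat_lit 2004) (nat_lit 138) (.e (nat_lit 671762) (nat_lit 4) (.e (nat_lit 65583) (nat_lit 7) (.e (nat_lit 319539) (nat_lit 19) (.e (nat_lit 311358) (nat_lit 29) (.e (nat_lit 352297) (nat_lit 20) .nil)))))) (.g (nat_lit 0) .nil .nil))) 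
(.lf (nat_lit 87786) (.g (nat_lit 1965) (.e (nat_lit 2004) (nat_lit 138) (.e (nat_lit 671762) (nat_lit 4) (.e (nat_lit 65616) (nat_lit 10) (.e (nat_lit 344169) (nat_lit 40) (.e (nat_lit 671764) (nat_lit 6) (.e (nat_lit 81943) (nat_lit 20) .nil)))))) (.g (nat_lit 6) .nil .nil)))) (.nd (nat_lit 5) 
(.lf (nat_lit 87770) (.g (nat_lit 1673) (.e (nat_lit 2004) (nat_lit 138) (.e (nat_lit 671762) (nat_lit 4) (.e (nat_lit 65604) (nat_lit 9) (.e (nat_lit 335907) (nat_lit 0) (.e (nat_lit 1996) (nat_lit 137) .nil))))) .nil)) 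
(.lf (nat_lit 87802) (.g (nat_lit 1513) (.e (nat_lit 2004) (nat_lit 138) (.e (nat_lit 671762) (nat_lit 4) (.e (nat_lit 65622) (nat_lit 12) (.e (nat_lit 385092) (nat_lit 49) (.e (nat_lit 778326) (nat_lit 6) .nil))))) .nil))))) (.nd (nat_lit 3) (.nd (nat_lit 4) (.nd (nat_lit 5) 
(.lf (nat_lit 87750) (.g (nat_lit 453) (.e (nat_lit 2004) (nat_lit 138) (.e (nat_lit 671762) (nat_lit 4) (.e (nat_lit 65582) (nat_lit 7) .nil))) .nil)) 
(.lf (nat_lit 87782) (.g (nat_lit 1972) (.e (nat_lit 2004) (nat_lit 138) (.e (nat_lit 671762) (nat_lit 4) (.e (nat_lit 65611) (nat_lit 10) (.e (nat_lit 344169) (nat_lit 40) (.e (nat_lit 671764) (nat_lit 6) (.e (nat_lit 81943) (nat_lit 20) .nil)))))) (.g (nat_lit 0) .nil .nil)))) (.nd (nat_lit 5) 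
(.lf (nat_lit 87766) (.g (nat_lit 3073) (.e (nat_lit 2004) (nat_lit 138) (.e (nat_lit 671762) (nat_lit 4) (.e (nat_lit 65598) (nat_lit 9) (.e (nat_lit 335997) (nat_lit 1) (.e (nat_lit 57872) (nat_lit 264) (.e (nat_lit 1219) (nat_lit 90) (.e (nat_lit 81943) (nat_lit 20) .nil))))))) (.g (nat_lit 6) .nil .nil))) 
(.lf (nat_lit 87798) (.g (nat_lit 1689) (.e (nat_lit 2004) (nat_lit 138) (.e (nat_lit 671762) (nat_lit 4) (.e (nat_lit 65620) (nat_lit 10) (.e (nat_lit 344168) (nat_lit 40) (.e (nat_lit 671764) (nat_lit 6) (.e (nat_lit 81943) (nat_lit 20) .nil)))))) (.g (nat_lit 4) .nil .nil))))) (.nd (nat_lit 4) (.nd (nat_lit 5) 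
(.lf (nat_lit 87758) (.g (nat_lit 1943) (.e (nat_lit 2004) (nat_lit 138) (.e (nat_lit 671762) (nat_lit 4) (.e (nat_lit 65584) (nat_lit 7) (.e (nat_lit 319539) (nat_lit 19) (.e (nat_lit 311358) (nat_lit 29) (.e (nat_lit 352297) (nat_lit 20) .nil)))))) (.g (nat_lit 0) .nil .nil))) 
(.lf (nat_lit 87790) (.g (nat_lit 1987) (.e (nat_lit 2004) (nat_lit 138) (.e (nat_lit 671762) (nat_lit 4) (.e (nat_lit 65617) (nat_lit 10) (.e (nat_lit 344169) (nat_lit 40) (.e (nat_lit 671764) (nat_lit 6) (.e (nat_lit 81942) (nat_lit 20) .nil)))))) (.g (nat_lit 4) .nil .nil)))) (.nd (nat_lit 5) 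
(.lf (nat_lit 87774) (.g (nat_lit 1683) (.e (nat_lit 2004) (nat_lit 138) (.e (nat_lit 671762) (nat_lit 4) (.e (nat_lit 65610) (nat_lit 10) (.e (nat_lit 344097) (nat_lit 18) (.e (nat_lit 5907) (nat_lit 320) .nil))))) .nil)) 
(.lf (nat_lit 87806) (.g (nat_lit 1190) (.e (nat_lit 2004) (nat_lit 138) (.e (nat_lit 671762) (nat_lit 4) (.e (nat_lit 65624) (nat_lit 12) (.e (nat_lit 385092) (nat_lit 49) .nil)))) .nil))))))) (.nd (nat_lit 1) (.nd (nat_lit 2) (.nd (nat_lit 3) (.nd (nat_lit 4) (.nd (nat_lit 5) 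
(.lf (nat_lit 87745) (.g (nat_lit 2162) (.e (nat_lit 2004) (nat_lit 138) (.e (nat_lit 671762) (nat_lit 4) (.e (nat_lit 65539) (nat_lit 0) (.e (nat_lit 6113) (nat_lit 332) (.e (nat_lit 1376) (nat_lit 104) (.e (nat_lit 303155) (nat_lit 29) (.e (nat_lit 352297) (nat_lit 20) .nil))))))) (.g (nat_lit 5) .nil .nil))) 
(.lf (nat_lit 87777) (.g (nat_lit 2264) (.e (nat_lit 2004) (nat_lit 138) (.e (nat_lit 671762) (nat_lit 4) (.e (nat_lit 65610) (nat_lit 10) (.e (nat_lit 344168) (nat_lit 40) (.e (nat_lit 671764) (nat_lit 6) (.e (nat_lit 81943) (nat_lit 20) .nil)))))) (.g (nat_lit 0) .nil .nil)))) (.nd (nat_lit 5) 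
(.lf (nat_lit 87761) (.g (nat_lit 470) (.e (nat_lit 2004) (nat_lit 138) (.e (nat_lit 671762) (nat_lit 4) (.e (nat_lit 65586) (nat_lit 7) .nil))) .nil)) 
(.lf (nat_lit 87793) (.g (nat_lit 2141) (.e (nat_lit 2004) (nat_lit 138) (.e (nat_lit 671762) (nat_lit 4) (.e (nat_lit 65619) (nat_lit 10) (.e (nat_lit 344168) (nat_lit 40) (.e (nat_lit 671764) (nat_lit 6) (.e (nat_lit 81942) (nat_lit 20) .nil)))))) (.g (nat_lit 5) .nil .nil))))) (.nd (nat_lit 4) (.nd (nat_lit 5) 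
(.lf (nat_lit 87753) (.g (nat_lit 1502) (.e (nat_lit 2004) (nat_lit 138) (.e (nat_lit 671762) (nat_lit 4) (.e (nat_lit 65582) (nat_lit 7) (.e (nat_lit 319506) (nat_lit 10) (.e (nat_lit 5723) (nat_lit 312) .nil))))) .nil)) 
(.lf (nat_lit 87785) (.g (nat_lit 1831) (.e (nat_lit 2004) (nat_lit 138) (.e (nat_lit 671762) (nat_lit 4) (.e (nat_lit 65616) (nat_lit 10) (.e (nat_lit 344169) (nat_lit 40) (.e (nat_lit 671764) (nat_lit 6) (.e (nat_lit 81942) (nat_lit 20) .nil)))))) (.g (nat_lit 5) .nil .nil)))) (.nd (nat_lit 5) 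
(.lf (nat_lit 87769) (.g (nat_lit 1654) (.e (nat_lit 2004) (nat_lit 138) (.e (nat_lit 671762) (nat_lit 4) (.e (nat_lit 65604) (nat_lit 9) (.e (nat_lit 335907) (nat_lit 0) (.e (nat_lit 1994) (nat_lit 137) .nil))))) .nil)) 
(.lf (nat_lit 87801) (.g (nat_lit 437) (.e (nat_lit 2004) (nat_lit 138) (.e (nat_lit 671762) (nat_lit 4) (.e (nat_lit 65622) (nat_lit 12) .nil))) .nil))))) (.nd (nat_lit 3) (.nd (nat_lit 4) (.nd (nat_lit 5) 
(.lf (nat_lit 87749) (.g (nat_lit 563) (.e (nat_lit 2004) (nat_lit 138) (.e (nat_lit 671762) (nat_lit 4) (.e (nat_lit 65581) (nat_lit 7) .nil))) .nil)) 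
(.lf (nat_lit 87781) (.g (nat_lit 1942) (.e (nat_lit 2004) (nat_lit 138) (.e (nat_lit 671762) (nat_lit 4) (.e (nat_lit 65611) (nat_lit 10) (.e (nat_lit 344168) (nat_lit 40) (.e (nat_lit 671764) (nat_lit 6) (.e (nat_lit 81943) (nat_lit 20) .nil)))))) (.g (nat_lit 0) .nil .nil)))) (.nd (nat_lit 5) 
(.lf (nat_lit 87765) (.g (nat_lit 1883) (.e (nat_lit 2004) (nat_lit 138) (.e (nat_lit 671762) (nat_lit 4) (.e (nat_lit 65598) (nat_lit 9) (.e (nat_lit 335907) (nat_lit 0) (.e (nat_lit 1996) (nat_lit 137) .nil))))) .nil)) 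
(.lf (nat_lit 87797) (.g (nat_lit 1528) (.e (nat_lit 2004) (nat_lit 138) (.e (nat_lit 671762) (nat_lit 4) (.e (nat_lit 65620) (nat_lit 10) (.e (nat_lit 344168) (nat_lit 40) (.e (nat_lit 671764) (nat_lit 6) (.e (nat_lit 81942) (nat_lit 20) .nil)))))) (.g (nat_lit 4) .nil .nil))))) (.nd (nat_lit 4) (.nd (nat_lit 5) 
(.lf (nat_lit 87757) (.g (nat_lit 1895) (.e (nat_lit 2004) (nat_lit 138) (.e (nat_lit 671762) (nat_lit 4) (.e (nat_lit 65584) (nat_lit 7) (.e (nat_lit 319539) (nat_lit 19) (.e (nat_lit 311358) (nat_lit 29) (.e (nat_lit 352296) (nat_lit 20) .nil)))))) (.g (nat_lit 6) .nil .nil))) 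
(.lf (nat_lit 87789) (.g (nat_lit 1248) (.e (nat_lit 2004) (nat_lit 138) (.e (nat_lit 671762) (nat_lit 4) (.e (nat_lit 65617) (nat_lit 10) (.e (nat_lit 344169) (nat_lit 40) .nil)))) .nil))) (.nd (nat_lit 5) 
(.lf (nat_lit 87773) (.g (nat_lit 3017) (.e (nat_lit 2004) (nat_lit 138) (.e (nat_lit 671762) (nat_lit 4) (.e (nat_lit 65610) (nat_lit 10) (.e (nat_lit 344097) (nat_lit 18) (.e (nat_lit 5906) (nat_lit 320) (.e (nat_lit 1219) (nat_lit 90) (.e (nat_lit 81943) (nat_lit 20) .nil))))))) (.g (nat_lit 0) .nil .nil))) 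
(.lf (nat_lit 87805) (.g (nat_lit 2248) (.e (nat_lit 2004) (nat_lit 138) (.e (nat_lit 671762) (nat_lit 4) (.e (nat_lit 65623) (nat_lit 12) (.e (nat_lit 385094) (nat_lit 49) (.e (nat_lit 778326) (nat_lit 6) (.e (nat_lit 81943) (nat_lit 20) .nil)))))) (.g (nat_lit 0) .nil .nil))))))) (.nd (nat_lit 2) (.nd (nat_lit 3) (.nd (nat_lit 4) (.nd (nat_lit 5) 
(.lf (nat_lit 87747) (.g (nat_lit 1873) (.e (nat_lit 2004) (nat_lit 138) (.e (nat_lit 671762) (nat_lit 4) (.e (nat_lit 65542) (nat_lit 0) (.e (nat_lit 6113) (nat_lit 332) (.e (nat_lit 1376) (nat_lit 104) (.e (nat_lit 303155) (nat_lit 29) (.e (nat_lit 352297) (nat_lit 20) .nil))))))) (.g (nat_lit 5) .nil .nil))) 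
(.lf (nat_lit 87779) (.g (nat_lit 2437) (.e (nat_lit 2004) (nat_lit 138) (.e (nat_lit 671762) (nat_lit 4) (.e (nat_lit 65610) (nat_lit 10) (.e (nat_lit 344169) (nat_lit 40) (.e (nat_lit 671764) (nat_lit 6) (.e (nat_lit 81943) (nat_lit 20) .nil)))))) (.g (nat_lit 0) .nil .nil)))) (.nd (nat_lit 5) 
(.lf (nat_lit 87763) (.g (nat_lit 1842) (.e (nat_lit 2004) (nat_lit 138) (.e (nat_lit 671762) (nat_lit 4) (.e (nat_lit 65586) (nat_lit 7) (.e (nat_lit 319539) (nat_lit 19) (.e (nat_lit 311358) (nat_lit 29) (.e (nat_lit 352297) (nat_lit 20) .nil)))))) (.g (nat_lit 4) .nil .nil))) 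
(.lf (nat_lit 87795) (.g (nat_lit 2130) (.e (nat_lit 2004) (nat_lit 138) (.e (nat_lit 671762) (nat_lit 4) (.e (nat_lit 65619) (nat_lit 10) (.e (nat_lit 344169) (nat_lit 40) (.e (nat_lit 671764) (nat_lit 6) (.e (nat_lit 81942) (nat_lit 20) .nil)))))) (.g (nat_lit 6) .nil .nil))))) (.nd (nat_lit 4) (.nd (nat_lit 5) 
(.lf (nat_lit 87755) (.g (nat_lit 422) (.e (nat_lit 2004) (nat_lit 138) (.e (nat_lit 671762) (nat_lit 4) (.e (nat_lit 65584) (nat_lit 7) .nil))) .nil)) 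
(.lf (nat_lit 87787) (.g (nat_lit 1854) (.e (nat_lit 2004) (nat_lit 138) (.e (nat_lit 671762) (nat_lit 4) (.e (nat_lit 65617) (nat_lit 10) (.e (nat_lit 344168) (nat_lit 40) (.e (nat_lit 671764) (nat_lit 6) .nil))))) .nil))) (.nd (nat_lit 5) 
(.lf (nat_lit 87771) (.g (nat_lit 2562) (.e (nat_lit 2004) (nat_lit 138) (.e (nat_lit 671762) (nat_lit 4) (.e (nat_lit 65604) (nat_lit 9) (.e (nat_lit 335997) (nat_lit 1) (.e (nat_lit 57870) (nat_lit 264) (.e (nat_lit 1219) (nat_lit 90) (.e (nat_lit 81943) (nat_lit 20) .nil))))))) (.g (nat_lit 0) .nil .nil))) 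
(.lf (nat_lit 87803) (.g (nat_lit 2266) (.e (nat_lit 2004) (nat_lit 138) (.e (nat_lit 671762) (nat_lit 4) (.e (nat_lit 65622) (nat_lit 12) (.e (nat_lit 385094) (nat_lit 49) (.e (nat_lit 778326) (nat_lit 6) (.e (nat_lit 81943) (nat_lit 20) .nil)))))) (.g (nat_lit 6) .nil .nil)))))) (.nd (nat_lit 3) (.nd (nat_lit 4) (.nd (nat_lit 5) 
(.lf (nat_lit 87751) (.g (nat_lit 1564) (.e (nat_lit 2004) (nat_lit 138) (.e (nat_lit 671762) (nat_lit 4) (.e (nat_lit 65582) (nat_lit 7) (.e (nat_lit 319506) (nat_lit 10) (.e (nat_lit 5721) (nat_lit 312) .nil))))) .nil)) 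
(.lf (nat_lit 87783) (.g (nat_lit 461) (.e (nat_lit 2004) (nat_lit 138) (.e (nat_lit 671762) (nat_lit 4) (.e (nat_lit 65616) (nat_lit 10) .nil))) .nil))) (.nd (nat_lit 5) 
(.lf (nat_lit 87767) (.g (nat_lit 1227) (.e (nat_lit 2004) (nat_lit 138) (.e (nat_lit 671762) (nat_lit 4) (.e (nat_lit 65598) (nat_lit 9) (.e (nat_lit 336032) (nat_lit 4) .nil)))) .nil)) 
(.lf (nat_lit 87799) (.g (nat_lit 1674) (.e (nat_lit 2004) (nat_lit 138) (.e (nat_lit 671762) (nat_lit 4) (.e (nat_lit 65620) (nat_lit 10) (.e (nat_lit 344169) (nat_lit 40) (.e (nat_lit 671764) (nat_lit 6) (.e (nat_lit 81942) (nat_lit 20) .nil)))))) (.g (nat_lit 4) .nil .nil))))) (.nd (nat_lit 4) (.nd (nat_lit 5) 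
(.lf (nat_lit 87759) (.g (nat_lit 1756) (.e (nat_lit 2004) (nat_lit 138) (.e (nat_lit 671762) (nat_lit 4) (.e (nat_lit 65585) (nat_lit 7) (.e (nat_lit 319539) (nat_lit 19) (.e (nat_lit 311358) (nat_lit 29) (.e (nat_lit 352296) (nat_lit 20) .nil)))))) (.g (nat_lit 5) .nil .nil))) 
(.lf (nat_lit 87791) (.g (nat_lit 2142) (.e (nat_lit 2004) (nat_lit 138) (.e (nat_lit 671762) (nat_lit 4) (.e (nat_lit 65617) (nat_lit 10) (.e (nat_lit 344169) (nat_lit 40) (.e (nat_lit 671764) (nat_lit 6) (.e (nat_lit 81943) (nat_lit 20) .nil)))))) (.g (nat_lit 5) .nil .nil)))) (.nd (nat_lit 5) 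
(.lf (nat_lit 87775) (.g (nat_lit 899) (.e (nat_lit 2004) (nat_lit 138) (.e (nat_lit 671762) (nat_lit 4) (.e (nat_lit 65610) (nat_lit 10) (.e (nat_lit 344168) (nat_lit 40) .nil)))) .nil)) 
(.lf (nat_lit 87807) (.g (nat_lit 2260) (.e (nat_lit 2004) (nat_lit 138) (.e (nat_lit 671762) (nat_lit 4) (.e (nat_lit 65624) (nat_lit 12) (.e (nat_lit 385092) (nat_lit 49) (.e (nat_lit 778326) (nat_lit 6) (.e (nat_lit 81943) (nat_lit 20) .nil)))))) (.g (nat_lit 0) .nil .nil)))))))))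

noncomputable def tv1195 : DT := (.nd (nat_lit 0) (.nd (nat_lit 1) (.nd (nat_lit 2) (.nd (nat_lit 3) (.nd (nat_lit 4) (.nd (nat_lit 5) 
(.lf (nat_lit 87808) (.g (nat_lit 2426) (.e (nat_lit 2004) (nat_lit 138) (.e (nat_lit 671762) (nat_lit 4) (.e (nat_lit 65624) (nat_lit 12) (.e (nat_lit 385093) (nat_lit 49) (.e (nat_lit 778326) (nat_lit 6) (.e (nat_lit 81943) (nat_lit 20) .nil)))))) (.g (nat_lit 0) .nil .nil))) 
(.lf (nat_lit 87840) (.g (nat_lit 1712) (.e (nat_lit 2004) (nat_lit 138) (.e (nat_lit 671764) (nat_lit 6) (.e (nat_lit 81935) (nat_lit 20) (.e (nat_lit 1994) (nat_lit 137) (.e (nat_lit 663569) (nat_lit 6) (.e (nat_lit 81943) (nat_lit 20) .nil)))))) (.g (nat_lit 0) .nil .nil)))) (.nd (nat_lit 5) 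
(.lf (nat_lit 87824) (.g (nat_lit 554) (.e (nat_lit 2004) (nat_lit 138) (.e (nat_lit 671763) (nat_lit 5) (.e (nat_lit 73795) (nat_lit 47) (.e (nat_lit 123163) (nat_lit 256) (.e (nat_lit 318) (nat_lit 23) (.e (nat_lit 352297) (nat_lit 20) .nil)))))) (.g (nat_lit 0) .nil .nil))) 
(.lf (nat_lit 87856) (.g (nat_lit 1172) (.e (nat_lit 2004) (nat_lit 138) (.e (nat_lit 671764) (nat_lit 6) (.e (nat_lit 81943) (nat_lit 20) (.e (nat_lit 2004) (nat_lit 138) (.e (nat_lit 671764) (nat_lit 6) (.e (nat_lit 81943) (nat_lit 20) .nil)))))) (.g (nat_lit 0) .nil .nil))))) (.nd (nat_lit 4) (.nd (nat_lit 5) 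
(.lf (nat_lit 87816) (.g (nat_lit 2629) (.e (nat_lit 2004) (nat_lit 138) (.e (nat_lit 671762) (nat_lit 4) (.e (nat_lit 65630) (nat_lit 14) (.e (nat_lit 401444) (nat_lit 9) (.e (nat_lit 426541) (nat_lit 29) .nil))))) .nil)) 
(.lf (nat_lit 87848) (.g (nat_lit 1041) (.e (nat_lit 2004) (nat_lit 138) (.e (nat_lit 671764) (nat_lit 6) (.e (nat_lit 81939) (nat_lit 20) (.e (nat_lit 2006) (nat_lit 138) (.e (nat_lit 671764) (nat_lit 6) (.e (nat_lit 81942) (nat_lit 20) .nil)))))) (.g (nat_lit 6) .nil .nil)))) (.nd (nat_lit 5) 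
(.lf (nat_lit 87832) (.g (nat_lit 1464) (.e (nat_lit 2004) (nat_lit 138) (.e (nat_lit 671764) (nat_lit 6) (.e (nat_lit 81922) (nat_lit 0) (.e (nat_lit 3631) (nat_lit 227) (.e (nat_lit 778326) (nat_lit 6) (.e (nat_lit 81943) (nat_lit 20) .nil)))))) (.g (nat_lit 6) .nil .nil))) 
(.lf (nat_lit 87864) (.g (nat_lit 1158) (.e (nat_lit 2004) (nat_lit 138) (.e (nat_lit 671764) (nat_lit 6) (.e (nat_lit 81947) (nat_lit 20) (.e (nat_lit 2003) (nat_lit 138) (.e (nat_lit 671764) (nat_lit 6) .nil))))) .nil))))) (.nd (nat_lit 3) (.nd (nat_lit 4) (.nd (nat_lit 5) 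
(.lf (nat_lit 87812) (.g (nat_lit 4008) (.e (nat_lit 2004) (nat_lit 138) (.e (nat_lit 671762) (nat_lit 4) (.e (nat_lit 65629) (nat_lit 14) (.e (nat_lit 401459) (nat_lit 13) (.e (nat_lit 483380) (nat_lit 23) (.e (nat_lit 335973) (nat_lit 0) .nil)))))) (.g (nat_lit 6) .nil .nil))) 
(.lf (nat_lit 87844) (.g (nat_lit 1624) (.e (nat_lit 2004) (nat_lit 138) (.e (nat_lit 671764) (nat_lit 6) (.e (nat_lit 81938) (nat_lit 20) (.e (nat_lit 2003) (nat_lit 138) (.e (nat_lit 671764) (nat_lit 6) (.e (nat_lit 81943) (nat_lit 20) .nil)))))) (.g (nat_lit 0) .nil .nil)))) (.nd (nat_lit 5) 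
(.lf (nat_lit 87828) (.g (nat_lit 961) (.e (nat_lit 2004) (nat_lit 138) (.e (nat_lit 671764) (nat_lit 6) (.e (nat_lit 81921) (nat_lit 0) (.e (nat_lit 3714) (nat_lit 227) (.e (nat_lit 778325) (nat_lit 6) (.e (nat_lit 81943) (nat_lit 20) .nil)))))) (.g (nat_lit 0) .nil .nil))) 
(.lf (nat_lit 87860) (.g (nat_lit 1340) (.e (nat_lit 2004) (nat_lit 138) (.e (nat_lit 671764) (nat_lit 6) (.e (nat_lit 81946) (nat_lit 20) (.e (nat_lit 2005) (nat_lit 138) (.e (nat_lit 671764) (nat_lit 6) (.e (nat_lit 81942) (nat_lit 20) .nil)))))) (.g (nat_lit 5) .nil .nil))))) (.nd (nat_lit 4) (.nd (nat_lit 5) 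
(.lf (nat_lit 87820) (.g (nat_lit 614) (.e (nat_lit 2004) (nat_lit 138) (.e (nat_lit 671763) (nat_lit 5) (.e (nat_lit 73780) (nat_lit 32) (.e (nat_lit 2940) (nat_lit 184) (.e (nat_lit 426541) (nat_lit 29) (.e (nat_lit 352297) (nat_lit 20) .nil)))))) (.g (nat_lit 0) .nil .nil))) 
(.lf (nat_lit 87852) (.g (nat_lit 1153) (.e (nat_lit 2004) (nat_lit 138) (.e (nat_lit 671764) (nat_lit 6) (.e (nat_lit 81942) (nat_lit 20) (.e (nat_lit 2005) (nat_lit 138) (.e (nat_lit 671764) (nat_lit 6) (.e (nat_lit 81943) (nat_lit 20) .nil)))))) (.g (nat_lit 6) .nil .nil)))) (.nd (nat_lit 5) 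
(.lf (nat_lit 87836) (.g (nat_lit 1419) (.e (nat_lit 2004) (nat_lit 138) (.e (nat_lit 671764) (nat_lit 6) (.e (nat_lit 81924) (nat_lit 0) (.e (nat_lit 3631) (nat_lit 227) (.e (nat_lit 778326) (nat_lit 6) (.e (nat_lit 81943) (nat_lit 20) .nil)))))) (.g (nat_lit 0) .nil .nil))) 
(.lf (nat_lit 87868) (.g (nat_lit 1596) (.e (nat_lit 2004) (nat_lit 138) (.e (nat_lit 671764) (nat_lit 6) (.e (nat_lit 81948) (nat_lit 21) (.e (nat_lit 57870) (nat_lit 264) (.e (nat_lit 1219) (nat_lit 90) (.e (nat_lit 81943) (nat_lit 20) .nil)))))) (.g (nat_lit 0) .nil .nil))))))) (.nd (nat_lit 2) (.nd (nat_lit 3) (.nd (nat_lit 4) (.nd (nat_lit 5) 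
(.lf (nat_lit 87810) (.g (nat_lit 1777) (.e (nat_lit 2004) (nat_lit 138) (.e (nat_lit 671762) (nat_lit 4) (.e (nat_lit 65629) (nat_lit 14) (.e (nat_lit 401459) (nat_lit 13) (.e (nat_lit 483344) (nat_lit 17) .nil))))) .nil)) 
(.lf (nat_lit 87842) (.g (nat_lit 1786) (.e (nat_lit 2004) (nat_lit 138) (.e (nat_lit 671764) (nat_lit 6) (.e (nat_lit 81935) (nat_lit 20) (.e (nat_lit 1999) (nat_lit 137) (.e (nat_lit 663569) (nat_lit 6) (.e (nat_lit 81943) (nat_lit 20) .nil)))))) (.g (nat_lit 0) .nil .nil)))) (.nd (nat_lit 5) 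
(.lf (nat_lit 87826) (.g (nat_lit 618) (.e (nat_lit 2004) (nat_lit 138) (.e (nat_lit 671763) (nat_lit 5) (.e (nat_lit 73795) (nat_lit 47) (.e (nat_lit 123166) (nat_lit 256) (.e (nat_lit 318) (nat_lit 23) (.e (nat_lit 352297) (nat_lit 20) .nil)))))) (.g (nat_lit 0) .nil .nil))) 
(.lf (nat_lit 87858) (.g (nat_lit 1217) (.e (nat_lit 2004) (nat_lit 138) (.e (nat_lit 671764) (nat_lit 6) (.e (nat_lit 81943) (nat_lit 20) (.e (nat_lit 2005) (nat_lit 138) (.e (nat_lit 671764) (nat_lit 6) (.e (nat_lit 81943) (nat_lit 20) .nil)))))) (.g (nat_lit 0) .nil .nil))))) (.nd (nat_lit 4) (.nd (nat_lit 5) 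
(.lf (nat_lit 87818) (.g (nat_lit 3111) (.e (nat_lit 2004) (nat_lit 138) (.e (nat_lit 671762) (nat_lit 4) (.e (nat_lit 65630) (nat_lit 14) (.e (nat_lit 401458) (nat_lit 13) (.e (nat_lit 483386) (nat_lit 23) .nil))))) .nil)) 
(.lf (nat_lit 87850) (.g (nat_lit 1056) (.e (nat_lit 2004) (nat_lit 138) (.e (nat_lit 671764) (nat_lit 6) (.e (nat_lit 81942) (nat_lit 20) (.e (nat_lit 2004) (nat_lit 138) (.e (nat_lit 671764) (nat_lit 6) (.e (nat_lit 81943) (nat_lit 20) .nil)))))) (.g (nat_lit 6) .nil .nil)))) (.nd (nat_lit 5) 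
(.lf (nat_lit 87834) (.g (nat_lit 925) (.e (nat_lit 2004) (nat_lit 138) (.e (nat_lit 671764) (nat_lit 6) (.e (nat_lit 81924) (nat_lit 0) (.e (nat_lit 3629) (nat_lit 227) (.e (nat_lit 778326) (nat_lit 6) (.e (nat_lit 81943) (nat_lit 20) .nil)))))) (.g (nat_lit 0) .nil .nil))) 
(.lf (nat_lit 87866) (.g (nat_lit 1785) (.e (nat_lit 2004) (nat_lit 138) (.e (nat_lit 671764) (nat_lit 6) (.e (nat_lit 81947) (nat_lit 20) (.e (nat_lit 2006) (nat_lit 138) (.e (nat_lit 671764) (nat_lit 6) (.e (nat_lit 81942) (nat_lit 20) .nil)))))) (.g (nat_lit 6) .nil .nil)))))) (.nd (nat_lit 3) (.nd (nat_lit 4) (.nd (nat_lit 5) 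
(.lf (nat_lit 87814) (.g (nat_lit 2906) (.e (nat_lit 2004) (nat_lit 138) (.e (nat_lit 671762) (nat_lit 4) (.e (nat_lit 65629) (nat_lit 14) (.e (nat_lit 401459) (nat_lit 13) (.e (nat_lit 483388) (nat_lit 23) (.e (nat_lit 335928) (nat_lit 0) .nil)))))) (.g (nat_lit 4) .nil .nil))) 
(.lf (nat_lit 87846) (.g (nat_lit 1691) (.e (nat_lit 2004) (nat_lit 138) (.e (nat_lit 671764) (nat_lit 6) (.e (nat_lit 81938) (nat_lit 20) (.e (nat_lit 2006) (nat_lit 138) (.e (nat_lit 671764) (nat_lit 6) (.e (nat_lit 81943) (nat_lit 20) .nil)))))) (.g (nat_lit 0) .nil .nil)))) (.nd (nat_lit 5) 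
(.lf (nat_lit 87830) (.g (nat_lit 799) (.e (nat_lit 2004) (nat_lit 138) (.e (nat_lit 671764) (nat_lit 6) (.e (nat_lit 81921) (nat_lit 0) (.e (nat_lit 3716) (nat_lit 227) (.e (nat_lit 778325) (nat_lit 6) (.e (nat_lit 81943) (nat_lit 20) .nil)))))) (.g (nat_lit 0) .nil .nil))) 
(.lf (nat_lit 87862) (.g (nat_lit 1286) (.e (nat_lit 2004) (nat_lit 138) (.e (nat_lit 671764) (nat_lit 6) (.e (nat_lit 81946) (nat_lit 20) (.e (nat_lit 2006) (nat_lit 138) (.e (nat_lit 671764) (nat_lit 6) (.e (nat_lit 81942) (nat_lit 20) .nil)))))) (.g (nat_lit 5) .nil .nil))))) (.nd (nat_lit 4) (.nd (nat_lit 5) 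
(.lf (nat_lit 87822) (.g (nat_lit 597) (.e (nat_lit 2004) (nat_lit 138) (.e (nat_lit 671763) (nat_lit 5) (.e (nat_lit 73794) (nat_lit 46) (.e (nat_lit 57862) (nat_lit 256) (.e (nat_lit 317) (nat_lit 23) (.e (nat_lit 352297) (nat_lit 20) .nil)))))) (.g (nat_lit 0) .nil .nil))) 
(.lf (nat_lit 87854) (.g (nat_lit 1112) (.e (nat_lit 2004) (nat_lit 138) (.e (nat_lit 671764) (nat_lit 6) (.e (nat_lit 81942) (nat_lit 20) (.e (nat_lit 2006) (nat_lit 138) (.e (nat_lit 671764) (nat_lit 6) (.e (nat_lit 81943) (nat_lit 20) .nil)))))) (.g (nat_lit 6) .nil .nil)))) (.nd (nat_lit 5) 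
(.lf (nat_lit 87838) (.g (nat_lit 1488) (.e (nat_lit 2004) (nat_lit 138) (.e (nat_lit 671764) (nat_lit 6) (.e (nat_lit 81931) (nat_lit 20) (.e (nat_lit 1998) (nat_lit 137) (.e (nat_lit 663569) (nat_lit 6) (.e (nat_lit 81943) (nat_lit 20) .nil)))))) (.g (nat_lit 0) .nil .nil))) 
(.lf (nat_lit 87870) (.g (nat_lit 2124) (.e (nat_lit 2004) (nat_lit 138) (.e (nat_lit 671764) (nat_lit 6) (.e (nat_lit 81948) (nat_lit 21) (.e (nat_lit 57873) (nat_lit 264) (.e (nat_lit 1219) (nat_lit 90) (.e (nat_lit 81943) (nat_lit 20) .nil)))))) (.g (nat_lit 0) .nil .nil)))))))) (.nd (nat_lit 1) (.nd (nat_lit 2) (.nd (nat_lit 3) (.nd (nat_lit 4) (.nd (nat_lit 5) 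
(.lf (nat_lit 87809) (.g (nat_lit 2760) (.e (nat_lit 2004) (nat_lit 138) (.e (nat_lit 671762) (nat_lit 4) (.e (nat_lit 65629) (nat_lit 14) (.e (nat_lit 401437) (nat_lit 9) (.e (nat_lit 426542) (nat_lit 29) (.e (nat_lit 352297) (nat_lit 20) .nil)))))) (.g (nat_lit 5) .nil .nil))) 
(.lf (nat_lit 87841) (.g (nat_lit 1744) (.e (nat_lit 2004) (nat_lit 138) (.e (nat_lit 671764) (nat_lit 6) (.e (nat_lit 81935) (nat_lit 20) (.e (nat_lit 1998) (nat_lit 137) (.e (nat_lit 663569) (nat_lit 6) (.e (nat_lit 81943) (nat_lit 20) .nil)))))) (.g (nat_lit 0) .nil .nil)))) (.nd (nat_lit 5) 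
(.lf (nat_lit 87825) (.g (nat_lit 598) (.e (nat_lit 2004) (nat_lit 138) (.e (nat_lit 671763) (nat_lit 5) (.e (nat_lit 73795) (nat_lit 47) (.e (nat_lit 123165) (nat_lit 256) (.e (nat_lit 318) (nat_lit 23) (.e (nat_lit 352297) (nat_lit 20) .nil)))))) (.g (nat_lit 0) .nil .nil))) 
(.lf (nat_lit 87857) (.g (nat_lit 1100) (.e (nat_lit 2004) (nat_lit 138) (.e (nat_lit 671764) (nat_lit 6) (.e (nat_lit 81943) (nat_lit 20) (.e (nat_lit 2005) (nat_lit 138) (.e (nat_lit 671764) (nat_lit 6) (.e (nat_lit 81942) (nat_lit 20) .nil)))))) (.g (nat_lit 0) .nil .nil))))) (.nd (nat_lit 4) (.nd (nat_lit 5) 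
(.lf (nat_lit 87817) (.g (nat_lit 2660) (.e (nat_lit 2004) (nat_lit 138) (.e (nat_lit 671762) (nat_lit 4) (.e (nat_lit 65630) (nat_lit 14) (.e (nat_lit 401456) (nat_lit 13) (.e (nat_lit 483386) (nat_lit 23) .nil))))) .nil)) 
(.lf (nat_lit 87849) (.g (nat_lit 996) (.e (nat_lit 2004) (nat_lit 138) (.e (nat_lit 671764) (nat_lit 6) (.e (nat_lit 81942) (nat_lit 20) (.e (nat_lit 2004) (nat_lit 138) (.e (nat_lit 671764) (nat_lit 6) (.e (nat_lit 81942) (nat_lit 20) .nil)))))) (.g (nat_lit 5) .nil .nil)))) (.nd (nat_lit 5) 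
(.lf (nat_lit 87833) (.g (nat_lit 1462) (.e (nat_lit 2004) (nat_lit 138) (.e (nat_lit 671764) (nat_lit 6) (.e (nat_lit 81922) (nat_lit 0) (.e (nat_lit 3632) (nat_lit 227) (.e (nat_lit 778326) (nat_lit 6) (.e (nat_lit 81943) (nat_lit 20) .nil)))))) (.g (nat_lit 6) .nil .nil))) 
(.lf (nat_lit 87865) (.g (nat_lit 889) (.e (nat_lit 2004) (nat_lit 138) (.e (nat_lit 671764) (nat_lit 6) (.e (nat_lit 81947) (nat_lit 20) (.e (nat_lit 2006) (nat_lit 138) .nil)))) .nil))))) (.nd (nat_lit 3) (.nd (nat_lit 4) (.nd (nat_lit 5) 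
(.lf (nat_lit 87813) (.g (nat_lit 3335) (.e (nat_lit 2004) (nat_lit 138) (.e (nat_lit 671762) (nat_lit 4) (.e (nat_lit 65629) (nat_lit 14) (.e (nat_lit 401459) (nat_lit 13) (.e (nat_lit 483386) (nat_lit 23) (.e (nat_lit 335928) (nat_lit 0) .nil)))))) (.g (nat_lit 6) .nil .nil))) 
(.lf (nat_lit 87845) (.g (nat_lit 1524) (.e (nat_lit 2004) (nat_lit 138) (.e (nat_lit 671764) (nat_lit 6) (.e (nat_lit 81938) (nat_lit 20) (.e (nat_lit 2005) (nat_lit 138) (.e (nat_lit 671764) (nat_lit 6) (.e (nat_lit 81943) (nat_lit 20) .nil)))))) (.g (nat_lit 0) .nil .nil)))) (.nd (nat_lit 5) 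
(.lf (nat_lit 87829) (.g (nat_lit 1058) (.e (nat_lit 2004) (nat_lit 138) (.e (nat_lit 671764) (nat_lit 6) (.e (nat_lit 81921) (nat_lit 0) (.e (nat_lit 3715) (nat_lit 227) (.e (nat_lit 778325) (nat_lit 6) (.e (nat_lit 81943) (nat_lit 20) .nil)))))) (.g (nat_lit 0) .nil .nil))) 
(.lf (nat_lit 87861) (.g (nat_lit 1451) (.e (nat_lit 2004) (nat_lit 138) (.e (nat_lit 671764) (nat_lit 6) (.e (nat_lit 81946) (nat_lit 20) (.e (nat_lit 2005) (nat_lit 138) (.e (nat_lit 671764) (nat_lit 6) (.e (nat_lit 81943) (nat_lit 20) .nil)))))) (.g (nat_lit 5) .nil .nil))))) (.nd (nat_lit 4) (.nd (nat_lit 5) 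
(.lf (nat_lit 87821) (.g (nat_lit 619) (.e (nat_lit 2004) (nat_lit 138) (.e (nat_lit 671763) (nat_lit 5) (.e (nat_lit 73787) (nat_lit 45) (.e (nat_lit 1378) (nat_lit 104) (.e (nat_lit 303155) (nat_lit 29) (.e (nat_lit 352297) (nat_lit 20) .nil)))))) (.g (nat_lit 0) .nil .nil))) 
(.lf (nat_lit 87853) (.g (nat_lit 1029) (.e (nat_lit 2004) (nat_lit 138) (.e (nat_lit 671764) (nat_lit 6) (.e (nat_lit 81942) (nat_lit 20) (.e (nat_lit 2006) (nat_lit 138) (.e (nat_lit 671764) (nat_lit 6) (.e (nat_lit 81942) (nat_lit 20) .nil)))))) (.g (nat_lit 6) .nil .nil)))) (.nd (nat_lit 5) 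
(.lf (nat_lit 87837) (.g (nat_lit 1522) (.e (nat_lit 2004) (nat_lit 138) (.e (nat_lit 671764) (nat_lit 6) (.e (nat_lit 81924) (nat_lit 0) (.e (nat_lit 3632) (nat_lit 227) (.e (nat_lit 778326) (nat_lit 6) (.e (nat_lit 81943) (nat_lit 20) .nil)))))) (.g (nat_lit 0) .nil .nil))) 
(.lf (nat_lit 87869) (.g (nat_lit 2399) (.e (nat_lit 2004) (nat_lit 138) (.e (nat_lit 671764) (nat_lit 6) (.e (nat_lit 81948) (nat_lit 21) (.e (nat_lit 57872) (nat_lit 264) (.e (nat_lit 1219) (nat_lit 90) (.e (nat_lit 81943) (nat_lit 20) .nil)))))) (.g (nat_lit 0) .nil .nil))))))) (.nd (nat_lit 2) (.nd (nat_lit 3) (.nd (nat_lit 4) (.nd (nat_lit 5) 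
(.lf (nat_lit 87811) (.g (nat_lit 3537) (.e (nat_lit 2004) (nat_lit 138) (.e (nat_lit 671762) (nat_lit 4) (.e (nat_lit 65629) (nat_lit 14) (.e (nat_lit 401459) (nat_lit 13) (.e (nat_lit 483380) (nat_lit 23) (.e (nat_lit 335971) (nat_lit 0) .nil)))))) (.g (nat_lit 5) .nil .nil))) 
(.lf (nat_lit 87843) (.g (nat_lit 132) (.e (nat_lit 2004) (nat_lit 138) (.e (nat_lit 671764) (nat_lit 6) (.e (nat_lit 81938) (nat_lit 20) .nil))) .nil))) (.nd (nat_lit 5) 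
(.lf (nat_lit 87827) (.g (nat_lit 1057) (.e (nat_lit 2004) (nat_lit 138) (.e (nat_lit 671764) (nat_lit 6) (.e (nat_lit 81921) (nat_lit 0) (.e (nat_lit 3711) (nat_lit 227) (.e (nat_lit 778325) (nat_lit 6) (.e (nat_lit 81943) (nat_lit 20) .nil)))))) (.g (nat_lit 0) .nil .nil))) 
(.lf (nat_lit 87859) (.g (nat_lit 1416) (.e (nat_lit 2004) (nat_lit 138) (.e (nat_lit 671764) (nat_lit 6) (.e (nat_lit 81943) (nat_lit 20) (.e (nat_lit 2006) (nat_lit 138) (.e (nat_lit 671764) (nat_lit 6) (.e (nat_lit 81943) (nat_lit 20) .nil)))))) (.g (nat_lit 0) .nil .nil))))) (.nd (nat_lit 4) (.nd (nat_lit 5) 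
(.lf (nat_lit 87819) (.g (nat_lit 660) (.e (nat_lit 2004) (nat_lit 138) (.e (nat_lit 671763) (nat_lit 5) (.e (nat_lit 73780) (nat_lit 32) (.e (nat_lit 2936) (nat_lit 184) (.e (nat_lit 426541) (nat_lit 29) (.e (nat_lit 352297) (nat_lit 20) .nil)))))) (.g (nat_lit 0) .nil .nil))) 
(.lf (nat_lit 87851) (.g (nat_lit 1040) (.e (nat_lit 2004) (nat_lit 138) (.e (nat_lit 671764) (nat_lit 6) (.e (nat_lit 81942) (nat_lit 20) (.e (nat_lit 2005) (nat_lit 138) (.e (nat_lit 671764) (nat_lit 6) (.e (nat_lit 81942) (nat_lit 20) .nil)))))) (.g (nat_lit 6) .nil .nil)))) (.nd (nat_lit 5) 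
(.lf (nat_lit 87835) (.g (nat_lit 963) (.e (nat_lit 2004) (nat_lit 138) (.e (nat_lit 671764) (nat_lit 6) (.e (nat_lit 81924) (nat_lit 0) (.e (nat_lit 3630) (nat_lit 227) (.e (nat_lit 778326) (nat_lit 6) (.e (nat_lit 81943) (nat_lit 20) .nil)))))) (.g (nat_lit 0) .nil .nil))) 
(.lf (nat_lit 87867) (.g (nat_lit 1896) (.e (nat_lit 2004) (nat_lit 138) (.e (nat_lit 671764) (nat_lit 6) (.e (nat_lit 81947) (nat_lit 20) (.e (nat_lit 2006) (nat_lit 138) (.e (nat_lit 671764) (nat_lit 6) (.e (nat_lit 81943) (nat_lit 20) .nil)))))) (.g (nat_lit 6) .nil .nil)))))) (.nd (nat_lit 3) (.nd (nat_lit 4) (.nd (nat_lit 5) 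
(.lf (nat_lit 87815) (.g (nat_lit 354) (.e (nat_lit 2004) (nat_lit 138) (.e (nat_lit 671762) (nat_lit 4) (.e (nat_lit 65630) (nat_lit 14) .nil))) .nil)) 
(.lf (nat_lit 87847) (.g (nat_lit 1006) (.e (nat_lit 2004) (nat_lit 138) (.e (nat_lit 671764) (nat_lit 6) (.e (nat_lit 81939) (nat_lit 20) (.e (nat_lit 2005) (nat_lit 138) (.e (nat_lit 671764) (nat_lit 6) (.e (nat_lit 81942) (nat_lit 20) .nil)))))) (.g (nat_lit 6) .nil .nil)))) (.nd (nat_lit 5) 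
(.lf (nat_lit 87831) (.g (nat_lit 957) (.e (nat_lit 2004) (nat_lit 138) (.e (nat_lit 671764) (nat_lit 6) (.e (nat_lit 81922) (nat_lit 0) (.e (nat_lit 3630) (nat_lit 227) (.e (nat_lit 778326) (nat_lit 6) (.e (nat_lit 81943) (nat_lit 20) .nil)))))) (.g (nat_lit 5) .nil .nil))) 
(.lf (nat_lit 87863) (.g (nat_lit 1432) (.e (nat_lit 2004) (nat_lit 138) (.e (nat_lit 671764) (nat_lit 6) (.e (nat_lit 81946) (nat_lit 20) (.e (nat_lit 2006) (nat_lit 138) (.e (nat_lit 671764) (nat_lit 6) (.e (nat_lit 81943) (nat_lit 20) .nil)))))) (.g (nat_lit 6) .nil .nil))))) (.nd (nat_lit 4) (.nd (nat_lit 5) 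
(.lf (nat_lit 87823) (.g (nat_lit 601) (.e (nat_lit 2004) (nat_lit 138) (.e (nat_lit 671763) (nat_lit 5) (.e (nat_lit 73794) (nat_lit 46) (.e (nat_lit 57864) (nat_lit 256) (.e (nat_lit 317) (nat_lit 23) (.e (nat_lit 352297) (nat_lit 20) .nil)))))) (.g (nat_lit 0) .nil .nil))) 
(.lf (nat_lit 87855) (.g (nat_lit 1240) (.e (nat_lit 2004) (nat_lit 138) (.e (nat_lit 671764) (nat_lit 6) (.e (nat_lit 81943) (nat_lit 20) (.e (nat_lit 2003) (nat_lit 138) (.e (nat_lit 671764) (nat_lit 6) (.e (nat_lit 81943) (nat_lit 20) .nil)))))) (.g (nat_lit 0) .nil .nil)))) (.nd (nat_lit 5) 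
(.lf (nat_lit 87839) (.g (nat_lit 1583) (.e (nat_lit 2004) (nat_lit 138) (.e (nat_lit 671764) (nat_lit 6) (.e (nat_lit 81931) (nat_lit 20) (.e (nat_lit 1999) (nat_lit 137) (.e (nat_lit 663569) (nat_lit 6) (.e (nat_lit 81943) (nat_lit 20) .nil)))))) (.g (nat_lit 0) .nil .nil))) 
(.lf (nat_lit 87871) (.g (nat_lit 1832) (.e (nat_lit 2004) (nat_lit 138) (.e (nat_lit 671764) (nat_lit 6) (.e (nat_lit 81949) (nat_lit 21) (.e (nat_lit 57872) (nat_lit 264) (.e (nat_lit 1219) (nat_lit 90) (.e (nat_lit 81943) (nat_lit 20) .nil)))))) (.g (nat_lit 5) .nil .nil)))))))))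

noncomputable def tv1196 : DT := (.nd (nat_lit 0) (.nd (nat_lit 1) (.nd (nat_lit 2) (.nd (nat_lit 3) (.nd (nat_lit 4) (.nd (nat_lit 5) 
(.lf (nat_lit 87872) (.g (nat_lit 1734) (.e (nat_lit 2004) (nat_lit 138) (.e (nat_lit 671764) (nat_lit 6) (.e (nat_lit 81950) (nat_lit 21) (.e (nat_lit 57870) (nat_lit 264) (.e (nat_lit 1219) (nat_lit 90) (.e (nat_lit 81943) (nat_lit 20) .nil)))))) (.g (nat_lit 0) .nil .nil))) 
(.lf (nat_lit 87904) (.g (nat_lit 1018) (.e (nat_lit 2005) (nat_lit 138) (.e (nat_lit 671748) (nat_lit 0) (.e (nat_lit 1586) (nat_lit 111) (.e (nat_lit 360455) (nat_lit 0) .nil)))) .nil))) (.nd (nat_lit 5) 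
(.lf (nat_lit 87888) (.g (nat_lit 1563) (.e (nat_lit 2005) (nat_lit 138) (.e (nat_lit 671747) (nat_lit 0) (.e (nat_lit 1586) (nat_lit 111) (.e (nat_lit 360486) (nat_lit 18) (.e (nat_lit 671764) (nat_lit 6) (.e (nat_lit 81942) (nat_lit 20) .nil)))))) (.g (nat_lit 5) .nil .nil))) 
(.lf (nat_lit 87920) (.g (nat_lit 2871) (.e (nat_lit 2005) (nat_lit 138) (.e (nat_lit 671757) (nat_lit 3) (.e (nat_lit 57474) (nat_lit 28) (.e (nat_lit 557095) (nat_lit 13) (.e (nat_lit 172115) (nat_lit 10) (.e (nat_lit 434231) (nat_lit 23) (.e (nat_lit 532535) (nat_lit 9) (.e (nat_lit 335928) (nat_lit 0) .nil)))))))) (.g (nat_lit 7) .nil .nil))))) (.nd (nat_lit 4) (.nd (nat_lit 5) 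
(.lf (nat_lit 87880) (.g (nat_lit 2380) (.e (nat_lit 2004) (nat_lit 138) (.e (nat_lit 671764) (nat_lit 6) (.e (nat_lit 81959) (nat_lit 24) (.e (nat_lit 123185) (nat_lit 264) (.e (nat_lit 1222) (nat_lit 90) (.e (nat_lit 81943) (nat_lit 20) .nil)))))) (.g (nat_lit 0) .nil .nil))) 
(.lf (nat_lit 87912) (.g (nat_lit 889) (.e (nat_lit 2005) (nat_lit 138) (.e (nat_lit 671748) (nat_lit 0) (.e (nat_lit 1595) (nat_lit 111) (.e (nat_lit 368384) (nat_lit 0) .nil)))) .nil))) (.nd (nat_lit 5) 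
(.lf (nat_lit 87896) (.g (nat_lit 377) (.e (nat_lit 2005) (nat_lit 138) (.e (nat_lit 671748) (nat_lit 0) (.e (nat_lit 1562) (nat_lit 110) .nil))) .nil)) 
(.lf (nat_lit 87928) (.g (nat_lit 4101) (.e (nat_lit 2005) (nat_lit 138) (.e (nat_lit 671759) (nat_lit 3) (.e (nat_lit 57478) (nat_lit 28) (.e (nat_lit 557101) (nat_lit 13) (.e (nat_lit 172097) (nat_lit 9) (.e (nat_lit 426125) (nat_lit 2) (.e (nat_lit 196666) (nat_lit 13) (.e (nat_lit 65553) (nat_lit 0) .nil)))))))) (.g (nat_lit 0) .nil .nil)))))) 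
(.nd (nat_lit 3) (.nd (nat_lit 4) (.nd (nat_lit 5) 
(.lf (nat_lit 87876) (.g (nat_lit 3197) (.e (nat_lit 2004) (nat_lit 138) (.e (nat_lit 671764) (nat_lit 6) (.e (nat_lit 81957) (nat_lit 24) (.e (nat_lit 123184) (nat_lit 264) (.e (nat_lit 1222) (nat_lit 90) (.e (nat_lit 81943) (nat_lit 20) .nil)))))) (.g (nat_lit 0) .nil .nil))) 
(.lf (nat_lit 87908) (.g (nat_lit 935) (.e (nat_lit 2005) (nat_lit 138) (.e (nat_lit 671748) (nat_lit 0) (.e (nat_lit 1589) (nat_lit 111) (.e (nat_lit 368384) (nat_lit 0) .nil)))) .nil))) (.nd (nat_lit 5) 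
(.lf (nat_lit 87892) (.g (nat_lit 283) (.e (nat_lit 2005) (nat_lit 138) (.e (nat_lit 671747) (nat_lit 0) (.e (nat_lit 1598) (nat_lit 111) .nil))) .nil)) 
(.lf (nat_lit 87924) (.g (nat_lit 4198) (.e (nat_lit 2005) (nat_lit 138) (.e (nat_lit 671759) (nat_lit 3) (.e (nat_lit 57478) (nat_lit 28) (.e (nat_lit 557098) (nat_lit 13) (.e (nat_lit 172097) (nat_lit 9) (.e (nat_lit 426125) (nat_lit 2) (.e (nat_lit 196666) (nat_lit 13) (.e (nat_lit 65546) (nat_lit 0) .nil)))))))) (.g (nat_lit 0) .nil .nil))))) (.nd (nat_lit 4) (.nd (nat_lit 5) 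
(.lf (nat_lit 87884) (.g (nat_lit 2702) (.e (nat_lit 2005) (nat_lit 138) (.e (nat_lit 671747) (nat_lit 0) (.e (nat_lit 1572) (nat_lit 110) (.e (nat_lit 352318) (nat_lit 24) (.e (nat_lit 123182) (nat_lit 264) (.e (nat_lit 1222) (nat_lit 90) (.e (nat_lit 81943) (nat_lit 20) .nil))))))) (.g (nat_lit 6) .nil .nil))) 
(.lf (nat_lit 87916) (.g (nat_lit 1305) (.e (nat_lit 2005) (nat_lit 138) (.e (nat_lit 671751) (nat_lit 0) (.e (nat_lit 1425) (nat_lit 108) (.e (nat_lit 336208) (nat_lit 12) (.e (nat_lit 385094) (nat_lit 49) .nil))))) .nil))) (.nd (nat_lit 5) 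
(.lf (nat_lit 87900) (.g (nat_lit 3496) (.e (nat_lit 2005) (nat_lit 138) (.e (nat_lit 671748) (nat_lit 0) (.e (nat_lit 1572) (nat_lit 110) (.e (nat_lit 352318) (nat_lit 24) (.e (nat_lit 123182) (nat_lit 264) (.e (nat_lit 1222) (nat_lit 90) (.e (nat_lit 81943) (nat_lit 20) .nil))))))) (.g (nat_lit 7) .nil .nil))) 
(.lf (nat_lit 87932) (.g (nat_lit 4068) (.e (nat_lit 2005) (nat_lit 138) (.e (nat_lit 671759) (nat_lit 3) (.e (nat_lit 57478) (nat_lit 28) (.e (nat_lit 557109) (nat_lit 15) (.e (nat_lit 188449) (nat_lit 22) (.e (nat_lit 196666) (nat_lit 13) (.e (nat_lit 65546) (nat_lit 0) .nil))))))) (.g (nat_lit 0) .nil .nil))))))) (.nd (nat_lit 2) (.nd (nat_lit 3) (.nd (nat_lit 4) (.nd (nat_lit 5) 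
(.lf (nat_lit 87874) (.g (nat_lit 2270) (.e (nat_lit 2004) (nat_lit 138) (.e (nat_lit 671764) (nat_lit 6) (.e (nat_lit 81950) (nat_lit 21) (.e (nat_lit 57873) (nat_lit 264) (.e (nat_lit 1219) (nat_lit 90) (.e (nat_lit 81943) (nat_lit 20) .nil)))))) (.g (nat_lit 0) .nil .nil))) 
(.lf (nat_lit 87906) (.g (nat_lit 1725) (.e (nat_lit 2005) (nat_lit 138) (.e (nat_lit 671748) (nat_lit 0) (.e (nat_lit 1586) (nat_lit 111) (.e (nat_lit 368384) (nat_lit 0) (.e (nat_lit 5906) (nat_lit 320) (.e (nat_lit 1219) (nat_lit 90) (.e (nat_lit 81943) (nat_lit 20) .nil))))))) (.g (nat_lit 6) .nil .nil)))) (.nd (nat_lit 5) 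
(.lf (nat_lit 87890) (.g (nat_lit 1451) (.e (nat_lit 2005) (nat_lit 138) (.e (nat_lit 671747) (nat_lit 0) (.e (nat_lit 1595) (nat_lit 111) (.e (nat_lit 360486) (nat_lit 18) (.e (nat_lit 671764) (nat_lit 6) (.e (nat_lit 81939) (nat_lit 20) .nil)))))) (.g (nat_lit 4) .nil .nil))) 
(.lf (nat_lit 87922) (.g (nat_lit 3966) (.e (nat_lit 2005) (nat_lit 138) (.e (nat_lit 671759) (nat_lit 3) (.e (nat_lit 57474) (nat_lit 28) (.e (nat_lit 557108) (nat_lit 15) (.e (nat_lit 188449) (nat_lit 22) (.e (nat_lit 196666) (nat_lit 13) (.e (nat_lit 65546) (nat_lit 0) .nil))))))) (.g (nat_lit 6) .nil .nil))))) (.nd (nat_lit 4) (.nd (nat_lit 5) 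
(.lf (nat_lit 87882) (.g (nat_lit 94) (.e (nat_lit 2005) (nat_lit 138) (.e (nat_lit 671744) (nat_lit 0) (.e (nat_lit 1619) (nat_lit 113) .nil))) .nil)) 
(.lf (nat_lit 87914) (.g (nat_lit 4060) (.e (nat_lit 2005) (nat_lit 138) (.e (nat_lit 671748) (nat_lit 0) (.e (nat_lit 1598) (nat_lit 111) (.e (nat_lit 360452) (nat_lit 0) (.e (nat_lit 5907) (nat_lit 320) (.e (nat_lit 1221) (nat_lit 90) (.e (nat_lit 81947) (nat_lit 20) .nil))))))) (.g (nat_lit 0) .nil .nil)))) (.nd (nat_lit 5) 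
(.lf (nat_lit 87898) (.g (nat_lit 384) (.e (nat_lit 2005) (nat_lit 138) (.e (nat_lit 671748) (nat_lit 0) (.e (nat_lit 1569) (nat_lit 110) .nil))) .nil)) 
(.lf (nat_lit 87930) (.g (nat_lit 3729) (.e (nat_lit 2005) (nat_lit 138) (.e (nat_lit 671759) (nat_lit 3) (.e (nat_lit 57478) (nat_lit 28) (.e (nat_lit 557107) (nat_lit 15) (.e (nat_lit 188447) (nat_lit 22) (.e (nat_lit 196666) (nat_lit 13) (.e (nat_lit 65546) (nat_lit 0) .nil))))))) (.g (nat_lit 0) .nil .nil)))))) (.nd (nat_lit 3) (.nd (nat_lit 4) (.nd (nat_lit 5) 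
(.lf (nat_lit 87878) (.g (nat_lit 3157) (.e (nat_lit 2004) (nat_lit 138) (.e (nat_lit 671764) (nat_lit 6) (.e (nat_lit 81959) (nat_lit 24) (.e (nat_lit 123182) (nat_lit 264) (.e (nat_lit 1222) (nat_lit 90) (.e (nat_lit 81943) (nat_lit 20) .nil)))))) (.g (nat_lit 0) .nil .nil))) 
(.lf (nat_lit 87910) (.g (nat_lit 376) (.e (nat_lit 2005) (nat_lit 138) (.e (nat_lit 671748) (nat_lit 0) (.e (nat_lit 1595) (nat_lit 111) .nil))) .nil))) (.nd (nat_lit 5) 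
(.lf (nat_lit 87894) (.g (nat_lit 601) (.e (nat_lit 2005) (nat_lit 138) (.e (nat_lit 671748) (nat_lit 0) (.e (nat_lit 1535) (nat_lit 109) (.e (nat_lit 344085) (nat_lit 15) .nil)))) .nil)) 
(.lf (nat_lit 87926) (.g (nat_lit 3928) (.e (nat_lit 2005) (nat_lit 138) (.e (nat_lit 671759) (nat_lit 3) (.e (nat_lit 57478) (nat_lit 28) (.e (nat_lit 557098) (nat_lit 13) (.e (nat_lit 172097) (nat_lit 9) (.e (nat_lit 426140) (nat_lit 3) (.e (nat_lit 204855) (nat_lit 26) (.e (nat_lit 335928) (nat_lit 0) .nil)))))))) (.g (nat_lit 0) .nil .nil))))) (.nd (nat_lit 4) (.nd (nat_lit 5) 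
(.lf (nat_lit 87886) (.g (nat_lit 621) (.e (nat_lit 2005) (nat_lit 138) (.e (nat_lit 671747) (nat_lit 0) (.e (nat_lit 1575) (nat_lit 110) (.e (nat_lit 360192) (nat_lit 4) .nil)))) .nil)) 
(.lf (nat_lit 87918) (.g (nat_lit 2562) (.e (nat_lit 2005) (nat_lit 138) (.e (nat_lit 671751) (nat_lit 0) (.e (nat_lit 1524) (nat_lit 108) (.e (nat_lit 336194) (nat_lit 12) (.e (nat_lit 385094) (nat_lit 49) (.e (nat_lit 778326) (nat_lit 6) (.e (nat_lit 81939) (nat_lit 20) .nil))))))) (.g (nat_lit 6) .nil .nil)))) (.nd (nat_lit 5) 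
(.lf (nat_lit 87902) (.g (nat_lit 421) (.e (nat_lit 2005) (nat_lit 138) (.e (nat_lit 671748) (nat_lit 0) (.e (nat_lit 1576) (nat_lit 110) .nil))) .nil)) 
(.lf (nat_lit 87934) (.g (nat_lit 4071) (.e (nat_lit 2005) (nat_lit 138) (.e (nat_lit 671759) (nat_lit 3) (.e (nat_lit 57478) (nat_lit 28) (.e (nat_lit 557109) (nat_lit 15) (.e (nat_lit 188452) (nat_lit 23) (.e (nat_lit 204855) (nat_lit 26) (.e (nat_lit 335928) (nat_lit 0) .nil))))))) (.g (nat_lit 0) .nil .nil)))))))) 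
(.nd (nat_lit 1) (.nd (nat_lit 2) (.nd (nat_lit 3) (.nd (nat_lit 4) (.nd (nat_lit 5) 
(.lf (nat_lit 87873) (.g (nat_lit 2519) (.e (nat_lit 2004) (nat_lit 138) (.e (nat_lit 671764) (nat_lit 6) (.e (nat_lit 81950) (nat_lit 21) (.e (nat_lit 57872) (nat_lit 264) (.e (nat_lit 1219) (nat_lit 90) (.e (nat_lit 81943) (nat_lit 20) .nil)))))) (.g (nat_lit 0) .nil .nil))) 
(.lf (nat_lit 87905) (.g (nat_lit 956) (.e (nat_lit 2005) (nat_lit 138) (.e (nat_lit 671748) (nat_lit 0) (.e (nat_lit 1586) (nat_lit 111) (.e (nat_lit 368384) (nat_lit 0) .nil)))) .nil))) (.nd (nat_lit 5) 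
(.lf (nat_lit 87889) (.g (nat_lit 3567) (.e (nat_lit 2005) (nat_lit 138) (.e (nat_lit 671747) (nat_lit 0) (.e (nat_lit 1595) (nat_lit 111) (.e (nat_lit 360453) (nat_lit 0) (.e (nat_lit 5907) (nat_lit 320) (.e (nat_lit 1221) (nat_lit 90) (.e (nat_lit 81938) (nat_lit 20) .nil))))))) (.g (nat_lit 7) .nil .nil))) 
(.lf (nat_lit 87921) (.g (nat_lit 4113) (.e (nat_lit 2005) (nat_lit 138) (.e (nat_lit 671757) (nat_lit 3) (.e (nat_lit 57474) (nat_lit 28) (.e (nat_lit 557108) (nat_lit 15) (.e (nat_lit 188452) (nat_lit 23) (.e (nat_lit 204855) (nat_lit 26) (.e (nat_lit 335928) (nat_lit 0) .nil))))))) (.g (nat_lit 7) .nil .nil))))) (.nd (nat_lit 4) (.nd (nat_lit 5) 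
(.lf (nat_lit 87881) (.g (nat_lit 1510) (.e (nat_lit 2005) (nat_lit 138) (.e (nat_lit 671744) (nat_lit 0) (.e (nat_lit 1615) (nat_lit 113) (.e (nat_lit 376859) (nat_lit 21) (.e (nat_lit 57870) (nat_lit 264) (.e (nat_lit 1219) (nat_lit 90) (.e (nat_lit 81943) (nat_lit 20) .nil))))))) (.g (nat_lit 5) .nil .nil))) 
(.lf (nat_lit 87913) (.g (nat_lit 361) (.e (nat_lit 2005) (nat_lit 138) (.e (nat_lit 671748) (nat_lit 0) (.e (nat_lit 1598) (nat_lit 111) .nil))) .nil))) (.nd (nat_lit 5) 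
(.lf (nat_lit 87897) (.g (nat_lit 2258) (.e (nat_lit 2005) (nat_lit 138) (.e (nat_lit 671748) (nat_lit 0) (.e (nat_lit 1562) (nat_lit 110) (.e (nat_lit 352309) (nat_lit 21) (.e (nat_lit 57872) (nat_lit 264) (.e (nat_lit 1219) (nat_lit 90) (.e (nat_lit 81943) (nat_lit 20) .nil))))))) (.g (nat_lit 6) .nil .nil))) 
(.lf (nat_lit 87929) (.g (nat_lit 3830) (.e (nat_lit 2005) (nat_lit 138) (.e (nat_lit 671759) (nat_lit 3) (.e (nat_lit 57478) (nat_lit 28) (.e (nat_lit 557101) (nat_lit 13) (.e (nat_lit 172097) (nat_lit 9) (.e (nat_lit 426140) (nat_lit 3) (.e (nat_lit 204855) (nat_lit 26) (.e (nat_lit 335928) (nat_lit 0) .nil)))))))) (.g (nat_lit 0) .nil .nil)))))) 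
(.nd (nat_lit 3) (.nd (nat_lit 4) (.nd (nat_lit 5) 
(.lf (nat_lit 87877) (.g (nat_lit 2450) (.e (nat_lit 2004) (nat_lit 138) (.e (nat_lit 671764) (nat_lit 6) (.e (nat_lit 81957) (nat_lit 24) (.e (nat_lit 123185) (nat_lit 264) (.e (nat_lit 1222) (nat_lit 90) (.e (nat_lit 81943) (nat_lit 20) .nil)))))) (.g (nat_lit 0) .nil .nil))) 
(.lf (nat_lit 87909) (.g (nat_lit 383) (.e (nat_lit 2005) (nat_lit 138) (.e (nat_lit 671748) (nat_lit 0) (.e (nat_lit 1592) (nat_lit 111) .nil))) .nil))) (.nd (nat_lit 5) 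
(.lf (nat_lit 87893) (.g (nat_lit 2922) (.e (nat_lit 2005) (nat_lit 138) (.e (nat_lit 671748) (nat_lit 0) (.e (nat_lit 1032) (nat_lit 81) (.e (nat_lit 1858) (nat_lit 124) (.e (nat_lit 557100) (nat_lit 13) (.e (nat_lit 172106) (nat_lit 10) (.e (nat_lit 434231) (nat_lit 23) (.e (nat_lit 532535) (nat_lit 9) (.e (nat_lit 335928) (nat_lit 0) .nil))))))))) (.g (nat_lit 6) .nil .nil))) 
(.lf (nat_lit 87925) (.g (nat_lit 4206) (.e (nat_lit 2005) (nat_lit 138) (.e (nat_lit 671759) (nat_lit 3) (.e (nat_lit 57478) (nat_lit 28) (.e (nat_lit 557098) (nat_lit 13) (.e (nat_lit 172097) (nat_lit 9) (.e (nat_lit 426125) (nat_lit 2) (.e (nat_lit 196666) (nat_lit 13) (.e (nat_lit 65553) (nat_lit 0) .nil)))))))) (.g (nat_lit 0) .nil .nil))))) (.nd (nat_lit 4) (.nd (nat_lit 5) 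
(.lf (nat_lit 87885) (.g (nat_lit 2312) (.e (nat_lit 2005) (nat_lit 138) (.e (nat_lit 671747) (nat_lit 0) (.e (nat_lit 1575) (nat_lit 110) (.e (nat_lit 352262) (nat_lit 0) (.e (nat_lit 3632) (nat_lit 227) (.e (nat_lit 778326) (nat_lit 6) (.e (nat_lit 81939) (nat_lit 20) .nil))))))) (.g (nat_lit 6) .nil .nil))) 
(.lf (nat_lit 87917) (.g (nat_lit 1101) (.e (nat_lit 2005) (nat_lit 138) (.e (nat_lit 671751) (nat_lit 0) (.e (nat_lit 1432) (nat_lit 108) (.e (nat_lit 336208) (nat_lit 12) (.e (nat_lit 385094) (nat_lit 49) .nil))))) .nil))) (.nd (nat_lit 5) 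
(.lf (nat_lit 87901) (.g (nat_lit 457) (.e (nat_lit 2005) (nat_lit 138) (.e (nat_lit 671748) (nat_lit 0) (.e (nat_lit 1575) (nat_lit 110) .nil))) .nil)) 
(.lf (nat_lit 87933) (.g (nat_lit 3981) (.e (nat_lit 2005) (nat_lit 138) (.e (nat_lit 671759) (nat_lit 3) (.e (nat_lit 57478) (nat_lit 28) (.e (nat_lit 557109) (nat_lit 15) (.e (nat_lit 188449) (nat_lit 22) (.e (nat_lit 196666) (nat_lit 13) (.e (nat_lit 65553) (nat_lit 0) .nil))))))) (.g (nat_lit 0) .nil .nil))))))) (.nd (nat_lit 2) (.nd (nat_lit 3) (.nd (nat_lit 4) (.nd (nat_lit 5) 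
(.lf (nat_lit 87875) (.g (nat_lit 3453) (.e (nat_lit 2004) (nat_lit 138) (.e (nat_lit 671764) (nat_lit 6) (.e (nat_lit 81957) (nat_lit 24) (.e (nat_lit 123182) (nat_lit 264) (.e (nat_lit 1222) (nat_lit 90) (.e (nat_lit 81943) (nat_lit 20) .nil)))))) (.g (nat_lit 0) .nil .nil))) 
(.lf (nat_lit 87907) (.g (nat_lit 1348) (.e (nat_lit 2005) (nat_lit 138) (.e (nat_lit 671748) (nat_lit 0) (.e (nat_lit 1589) (nat_lit 111) (.e (nat_lit 360453) (nat_lit 0) (.e (nat_lit 5906) (nat_lit 320) .nil))))) .nil))) (.nd (nat_lit 5) 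
(.lf (nat_lit 87891) (.g (nat_lit 1284) (.e (nat_lit 2005) (nat_lit 138) (.e (nat_lit 671747) (nat_lit 0) (.e (nat_lit 1595) (nat_lit 111) (.e (nat_lit 360486) (nat_lit 18) (.e (nat_lit 671764) (nat_lit 6) (.e (nat_lit 81942) (nat_lit 20) .nil)))))) (.g (nat_lit 4) .nil .nil))) 
(.lf (nat_lit 87923) (.g (nat_lit 2337) (.e (nat_lit 2005) (nat_lit 138) (.e (nat_lit 671759) (nat_lit 3) (.e (nat_lit 57478) (nat_lit 28) (.e (nat_lit 557097) (nat_lit 13) (.e (nat_lit 172097) (nat_lit 9) (.e (nat_lit 426140) (nat_lit 3) (.e (nat_lit 204855) (nat_lit 26) (.e (nat_lit 335928) (nat_lit 0) .nil)))))))) (.g (nat_lit 4) .nil .nil))))) (.nd (nat_lit 4) (.nd (nat_lit 5) 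
(.lf (nat_lit 87883) (.g (nat_lit 1284) (.e (nat_lit 2005) (nat_lit 138) (.e (nat_lit 671746) (nat_lit 0) (.e (nat_lit 1598) (nat_lit 111) (.e (nat_lit 360452) (nat_lit 0) (.e (nat_lit 5905) (nat_lit 320) .nil))))) .nil)) 
(.lf (nat_lit 87915) (.g (nat_lit 372) (.e (nat_lit 2005) (nat_lit 138) (.e (nat_lit 671748) (nat_lit 0) (.e (nat_lit 1599) (nat_lit 111) .nil))) .nil))) (.nd (nat_lit 5) 
(.lf (nat_lit 87899) (.g (nat_lit 406) (.e (nat_lit 2005) (nat_lit 138) (.e (nat_lit 671748) (nat_lit 0) (.e (nat_lit 1572) (nat_lit 110) .nil))) .nil)) 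
(.lf (nat_lit 87931) (.g (nat_lit 3655) (.e (nat_lit 2005) (nat_lit 138) (.e (nat_lit 671759) (nat_lit 3) (.e (nat_lit 57478) (nat_lit 28) (.e (nat_lit 557107) (nat_lit 15) (.e (nat_lit 188447) (nat_lit 22) (.e (nat_lit 196666) (nat_lit 13) (.e (nat_lit 65553) (nat_lit 0) .nil))))))) (.g (nat_lit 0) .nil .nil)))))) (.nd (nat_lit 3) (.nd (nat_lit 4) (.nd (nat_lit 5) 
(.lf (nat_lit 87879) (.g (nat_lit 2873) (.e (nat_lit 2004) (nat_lit 138) (.e (nat_lit 671764) (nat_lit 6) (.e (nat_lit 81959) (nat_lit 24) (.e (nat_lit 123184) (nat_lit 264) (.e (nat_lit 1222) (nat_lit 90) (.e (nat_lit 81943) (nat_lit 20) .nil)))))) (.g (nat_lit 0) .nil .nil))) 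
(.lf (nat_lit 87911) (.g (nat_lit 1055) (.e (nat_lit 2005) (nat_lit 138) (.e (nat_lit 671748) (nat_lit 0) (.e (nat_lit 1595) (nat_lit 111) (.e (nat_lit 360455) (nat_lit 0) .nil)))) .nil))) (.nd (nat_lit 5) 
(.lf (nat_lit 87895) (.g (nat_lit 384) (.e (nat_lit 2005) (nat_lit 138) (.e (nat_lit 671748) (nat_lit 0) (.e (nat_lit 1559) (nat_lit 110) .nil))) .nil)) 
(.lf (nat_lit 87927) (.g (nat_lit 4093) (.e (nat_lit 2005) (nat_lit 138) (.e (nat_lit 671759) (nat_lit 3) (.e (nat_lit 57478) (nat_lit 28) (.e (nat_lit 557101) (nat_lit 13) (.e (nat_lit 172097) (nat_lit 9) (.e (nat_lit 426125) (nat_lit 2) (.e (nat_lit 196666) (nat_lit 13) (.e (nat_lit 65546) (nat_lit 0) .nil)))))))) (.g (nat_lit 0) .nil .nil))))) (.nd (nat_lit 4) (.nd (nat_lit 5) 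
(.lf (nat_lit 87887) (.g (nat_lit 282) (.e (nat_lit 2005) (nat_lit 138) (.e (nat_lit 671747) (nat_lit 0) (.e (nat_lit 1586) (nat_lit 111) .nil))) .nil)) 
(.lf (nat_lit 87919) (.g (nat_lit 1422) (.e (nat_lit 2005) (nat_lit 138) (.e (nat_lit 671751) (nat_lit 0) (.e (nat_lit 1524) (nat_lit 108) (.e (nat_lit 336194) (nat_lit 12) (.e (nat_lit 385096) (nat_lit 49) .nil))))) .nil))) (.nd (nat_lit 5) 
(.lf (nat_lit 87903) (.g (nat_lit 1642) (.e (nat_lit 2005) (nat_lit 138) (.e (nat_lit 671748) (nat_lit 0) (.e (nat_lit 1586) (nat_lit 111) (.e (nat_lit 360451) (nat_lit 0) (.e (nat_lit 5898) (nat_lit 320) (.e (nat_lit 7936) (nat_lit 90) (.e (nat_lit 81947) (nat_lit 20) .nil))))))) (.g (nat_lit 4) .nil .nil))) 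
(.lf (nat_lit 87935) (.g (nat_lit 362) (.e (nat_lit 2005) (nat_lit 138) (.e (nat_lit 671759) (nat_lit 3) (.e (nat_lit 57479) (nat_lit 28) .nil))) .nil))))))))

noncomputable def tv1197 : DT := (.nd (nat_lit 0) (.nd (nat_lit 1) (.nd (nat_lit 2) (.nd (nat_lit 3) (.nd (nat_lit 4) 
(.lf (nat_lit 87936) (.g (nat_lit 3342) (.e (nat_lit 2005) (nat_lit 138) (.e (nat_lit 671759) (nat_lit 3) (.e (nat_lit 57479) (nat_lit 28) (.e (nat_lit 557095) (nat_lit 13) (.e (nat_lit 172097) (nat_lit 9) .nil))))) .nil)) 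
(.lf (nat_lit 87952) (.g (nat_lit 4812) (.e (nat_lit 2005) (nat_lit 138) (.e (nat_lit 671759) (nat_lit 3) (.e (nat_lit 57479) (nat_lit 28) (.e (nat_lit 557106) (nat_lit 15) (.e (nat_lit 188447) (nat_lit 22) (.e (nat_lit 196666) (nat_lit 13) (.e (nat_lit 65553) (nat_lit 0) .nil))))))) (.g (nat_lit 6) .nil .nil)))) (.nd (nat_lit 4) 
(.lf (nat_lit 87944) (.g (nat_lit 3299) (.e (nat_lit 2005) (nat_lit 138) (.e (nat_lit 671759) (nat_lit 3) (.e (nat_lit 57479) (nat_lit 28) (.e (nat_lit 557099) (nat_lit 13) (.e (nat_lit 172097) (nat_lit 9) (.e (nat_lit 426125) (nat_lit 2) (.e (nat_lit 196666) (nat_lit 13) (.e (nat_lit 65546) (nat_lit 0) .nil)))))))) (.g (nat_lit 6) .nil .nil))) 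
(.lf (nat_lit 87960) (.g (nat_lit 2857) (.e (nat_lit 2005) (nat_lit 138) (.e (nat_lit 671759) (nat_lit 3) (.e (nat_lit 57479) (nat_lit 28) (.e (nat_lit 557109) (nat_lit 15) (.e (nat_lit 188426) (nat_lit 20) (.e (nat_lit 7936) (nat_lit 197) (.e (nat_lit 532535) (nat_lit 9) (.e (nat_lit 335925) (nat_lit 0) .nil)))))))) (.g (nat_lit 5) .nil .nil))))) (.nd (nat_lit 3) (.nd (nat_lit 4) 
(.lf (nat_lit 87940) (.g (nat_lit 4787) (.e (nat_lit 2005) (nat_lit 138) (.e (nat_lit 671759) (nat_lit 3) (.e (nat_lit 57479) (nat_lit 28) (.e (nat_lit 557098) (nat_lit 13) (.e (nat_lit 172097) (nat_lit 9) (.e (nat_lit 426125) (nat_lit 2) (.e (nat_lit 196666) (nat_lit 13) (.e (nat_lit 65546) (nat_lit 0) .nil)))))))) (.g (nat_lit 0) .nil .nil))) 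
(.lf (nat_lit 87956) (.g (nat_lit 4318) (.e (nat_lit 2005) (nat_lit 138) (.e (nat_lit 671759) (nat_lit 3) (.e (nat_lit 57479) (nat_lit 28) (.e (nat_lit 557107) (nat_lit 15) (.e (nat_lit 188447) (nat_lit 22) (.e (nat_lit 196666) (nat_lit 13) (.e (nat_lit 65546) (nat_lit 0) .nil))))))) (.g (nat_lit 0) .nil .nil)))) (.nd (nat_lit 4) 
(.lf (nat_lit 87948) (.g (nat_lit 4860) (.e (nat_lit 2005) (nat_lit 138) (.e (nat_lit 671759) (nat_lit 3) (.e (nat_lit 57479) (nat_lit 28) (.e (nat_lit 557101) (nat_lit 13) (.e (nat_lit 172097) (nat_lit 9) (.e (nat_lit 426125) (nat_lit 2) (.e (nat_lit 196666) (nat_lit 13) (.e (nat_lit 65553) (nat_lit 0) .nil)))))))) (.g (nat_lit 0) .nil .nil))) 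
(.lf (nat_lit 87964) (.g (nat_lit 4082) (.e (nat_lit 2005) (nat_lit 138) (.e (nat_lit 671759) (nat_lit 3) (.e (nat_lit 57479) (nat_lit 28) (.e (nat_lit 557109) (nat_lit 15) (.e (nat_lit 188449) (nat_lit 22) (.e (nat_lit 196666) (nat_lit 13) (.e (nat_lit 65553) (nat_lit 0) .nil))))))) (.g (nat_lit 0) .nil .nil)))))) (.nd (nat_lit 2) (.nd (nat_lit 3) (.nd (nat_lit 4) 
(.lf (nat_lit 87938) (.g (nat_lit 3110) (.e (nat_lit 2005) (nat_lit 138) (.e (nat_lit 671759) (nat_lit 3) (.e (nat_lit 57479) (nat_lit 28) (.e (nat_lit 557095) (nat_lit 13) (.e (nat_lit 172115) (nat_lit 10) .nil))))) .nil)) 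
(.lf (nat_lit 87954) (.g (nat_lit 4150) (.e (nat_lit 2005) (nat_lit 138) (.e (nat_lit 671759) (nat_lit 3) (.e (nat_lit 57479) (nat_lit 28) (.e (nat_lit 557106) (nat_lit 15) (.e (nat_lit 188449) (nat_lit 22) (.e (nat_lit 196666) (nat_lit 13) (.e (nat_lit 65546) (nat_lit 0) .nil))))))) (.g (nat_lit 7) .nil .nil)))) (.nd (nat_lit 4) 
(.lf (nat_lit 87946) (.g (nat_lit 4013) (.e (nat_lit 2005) (nat_lit 138) (.e (nat_lit 671759) (nat_lit 3) (.e (nat_lit 57479) (nat_lit 28) (.e (nat_lit 557099) (nat_lit 13) (.e (nat_lit 172106) (nat_lit 10) (.e (nat_lit 434231) (nat_lit 23) (.e (nat_lit 532535) (nat_lit 9) (.e (nat_lit 335928) (nat_lit 0) .nil)))))))) (.g (nat_lit 6) .nil .nil))) 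
(.lf (nat_lit 87962) (.g (nat_lit 4379) (.e (nat_lit 2005) (nat_lit 138) (.e (nat_lit 671759) (nat_lit 3) (.e (nat_lit 57479) (nat_lit 28) (.e (nat_lit 557109) (nat_lit 15) (.e (nat_lit 188447) (nat_lit 22) (.e (nat_lit 196666) (nat_lit 13) (.e (nat_lit 65553) (nat_lit 0) .nil))))))) (.g (nat_lit 0) .nil .nil))))) (.nd (nat_lit 3) (.nd (nat_lit 4) 
(.lf (nat_lit 87942) (.g (nat_lit 4507) (.e (nat_lit 2005) (nat_lit 138) (.e (nat_lit 671759) (nat_lit 3) (.e (nat_lit 57479) (nat_lit 28) (.e (nat_lit 557098) (nat_lit 13) (.e (nat_lit 172097) (nat_lit 9) (.e (nat_lit 426140) (nat_lit 3) (.e (nat_lit 204855) (nat_lit 26) (.e (nat_lit 335928) (nat_lit 0) .nil)))))))) (.g (nat_lit 8) .nil .nil))) 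
(.lf (nat_lit 87958) (.g (nat_lit 6059) (.e (nat_lit 2005) (nat_lit 138) (.e (nat_lit 671759) (nat_lit 3) (.e (nat_lit 57479) (nat_lit 28) (.e (nat_lit 557107) (nat_lit 15) (.e (nat_lit 188448) (nat_lit 22) (.e (nat_lit 196666) (nat_lit 13) (.e (nat_lit 65553) (nat_lit 0) .nil))))))) (.g (nat_lit 0) .nil .nil)))) (.nd (nat_lit 4) 
(.lf (nat_lit 87950) (.g (nat_lit 1671) (.e (nat_lit 2005) (nat_lit 138) (.e (nat_lit 671759) (nat_lit 3) (.e (nat_lit 57479) (nat_lit 28) (.e (nat_lit 557106) (nat_lit 15) .nil)))) .nil)) 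
(.lf (nat_lit 87966) (.g (nat_lit 1671) (.e (nat_lit 2005) (nat_lit 138) (.e (nat_lit 671759) (nat_lit 3) (.e (nat_lit 57479) (nat_lit 28) (.e (nat_lit 557109) (nat_lit 15) (.e (nat_lit 188458) (nat_lit 25) .nil))))) .nil)))))) (.nd (nat_lit 1) (.nd (nat_lit 2) (.nd (nat_lit 3) (.nd (nat_lit 4) 
(.lf (nat_lit 87937) (.g (nat_lit 3629) (.e (nat_lit 2005) (nat_lit 138) (.e (nat_lit 671759) (nat_lit 3) (.e (nat_lit 57479) (nat_lit 28) (.e (nat_lit 557095) (nat_lit 13) (.e (nat_lit 172106) (nat_lit 10) .nil))))) .nil)) 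
(.lf (nat_lit 87953) (.g (nat_lit 2709) (.e (nat_lit 2005) (nat_lit 138) (.e (nat_lit 671759) (nat_lit 3) (.e (nat_lit 57479) (nat_lit 28) (.e (nat_lit 557106) (nat_lit 15) (.e (nat_lit 188448) (nat_lit 22) .nil))))) .nil))) (.nd (nat_lit 4) 
(.lf (nat_lit 87945) (.g (nat_lit 3306) (.e (nat_lit 2005) (nat_lit 138) (.e (nat_lit 671759) (nat_lit 3) (.e (nat_lit 57479) (nat_lit 28) (.e (nat_lit 557099) (nat_lit 13) (.e (nat_lit 172097) (nat_lit 9) (.e (nat_lit 426125) (nat_lit 2) (.e (nat_lit 196666) (nat_lit 13) (.e (nat_lit 65553) (nat_lit 0) .nil)))))))) (.g (nat_lit 6) .nil .nil))) 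
(.lf (nat_lit 87961) (.g (nat_lit 4432) (.e (nat_lit 2005) (nat_lit 138) (.e (nat_lit 671759) (nat_lit 3) (.e (nat_lit 57479) (nat_lit 28) (.e (nat_lit 557109) (nat_lit 15) (.e (nat_lit 188447) (nat_lit 22) (.e (nat_lit 196666) (nat_lit 13) (.e (nat_lit 65546) (nat_lit 0) .nil))))))) (.g (nat_lit 0) .nil .nil))))) (.nd (nat_lit 3) (.nd (nat_lit 4) 
(.lf (nat_lit 87941) (.g (nat_lit 4794) (.e (nat_lit 2005) (nat_lit 138) (.e (nat_lit 671759) (nat_lit 3) (.e (nat_lit 57479) (nat_lit 28) (.e (nat_lit 557098) (nat_lit 13) (.e (nat_lit 172097) (nat_lit 9) (.e (nat_lit 426125) (nat_lit 2) (.e (nat_lit 196666) (nat_lit 13) (.e (nat_lit 65553) (nat_lit 0) .nil)))))))) (.g (nat_lit 0) .nil .nil))) 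
(.lf (nat_lit 87957) (.g (nat_lit 4243) (.e (nat_lit 2005) (nat_lit 138) (.e (nat_lit 671759) (nat_lit 3) (.e (nat_lit 57479) (nat_lit 28) (.e (nat_lit 557107) (nat_lit 15) (.e (nat_lit 188447) (nat_lit 22) (.e (nat_lit 196666) (nat_lit 13) (.e (nat_lit 65553) (nat_lit 0) .nil))))))) (.g (nat_lit 0) .nil .nil)))) (.nd (nat_lit 4) 
(.lf (nat_lit 87949) (.g (nat_lit 4595) (.e (nat_lit 2005) (nat_lit 138) (.e (nat_lit 671759) (nat_lit 3) (.e (nat_lit 57479) (nat_lit 28) (.e (nat_lit 557101) (nat_lit 13) (.e (nat_lit 172097) (nat_lit 9) (.e (nat_lit 426140) (nat_lit 3) (.e (nat_lit 204855) (nat_lit 26) (.e (nat_lit 335928) (nat_lit 0) .nil)))))))) (.g (nat_lit 0) .nil .nil))) 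
(.lf (nat_lit 87965) (.g (nat_lit 4291) (.e (nat_lit 2005) (nat_lit 138) (.e (nat_lit 671759) (nat_lit 3) (.e (nat_lit 57479) (nat_lit 28) (.e (nat_lit 557109) (nat_lit 15) (.e (nat_lit 188450) (nat_lit 23) (.e (nat_lit 204855) (nat_lit 26) (.e (nat_lit 335928) (nat_lit 0) .nil))))))) (.g (nat_lit 0) .nil .nil)))))) (.nd (nat_lit 2) (.nd (nat_lit 3) (.nd (nat_lit 4) 
(.lf (nat_lit 87939) (.g (nat_lit 5474) (.e (nat_lit 2005) (nat_lit 138) (.e (nat_lit 671759) (nat_lit 3) (.e (nat_lit 57479) (nat_lit 28) (.e (nat_lit 557095) (nat_lit 13) (.e (nat_lit 172115) (nat_lit 10) (.e (nat_lit 434231) (nat_lit 23) (.e (nat_lit 532535) (nat_lit 9) (.e (nat_lit 335928) (nat_lit 0) .nil)))))))) (.g (nat_lit 0) .nil .nil))) 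
(.lf (nat_lit 87955) (.g (nat_lit 3997) (.e (nat_lit 2005) (nat_lit 138) (.e (nat_lit 671759) (nat_lit 3) (.e (nat_lit 57479) (nat_lit 28) (.e (nat_lit 557106) (nat_lit 15) (.e (nat_lit 188449) (nat_lit 22) (.e (nat_lit 196666) (nat_lit 13) (.e (nat_lit 65553) (nat_lit 0) .nil))))))) (.g (nat_lit 0) .nil .nil)))) (.nd (nat_lit 4) 
(.lf (nat_lit 87947) (.g (nat_lit 4853) (.e (nat_lit 2005) (nat_lit 138) (.e (nat_lit 671759) (nat_lit 3) (.e (nat_lit 57479) (nat_lit 28) (.e (nat_lit 557101) (nat_lit 13) (.e (nat_lit 172097) (nat_lit 9) (.e (nat_lit 426125) (nat_lit 2) (.e (nat_lit 196666) (nat_lit 13) (.e (nat_lit 65546) (nat_lit 0) .nil)))))))) (.g (nat_lit 0) .nil .nil))) 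
(.lf (nat_lit 87963) (.g (nat_lit 4170) (.e (nat_lit 2005) (nat_lit 138) (.e (nat_lit 671759) (nat_lit 3) (.e (nat_lit 57479) (nat_lit 28) (.e (nat_lit 557109) (nat_lit 15) (.e (nat_lit 188449) (nat_lit 22) (.e (nat_lit 196666) (nat_lit 13) (.e (nat_lit 65546) (nat_lit 0) .nil))))))) (.g (nat_lit 0) .nil .nil))))) (.nd (nat_lit 3) (.nd (nat_lit 4) 
(.lf (nat_lit 87943) (.g (nat_lit 4946) (.e (nat_lit 2005) (nat_lit 138) (.e (nat_lit 671759) (nat_lit 3) (.e (nat_lit 57479) (nat_lit 28) (.e (nat_lit 557098) (nat_lit 13) (.e (nat_lit 172115) (nat_lit 10) (.e (nat_lit 434231) (nat_lit 23) (.e (nat_lit 532535) (nat_lit 9) (.e (nat_lit 335928) (nat_lit 0) .nil)))))))) (.g (nat_lit 8) .nil .nil))) 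
(.lf (nat_lit 87959) (.g (nat_lit 3775) (.e (nat_lit 2005) (nat_lit 138) (.e (nat_lit 671759) (nat_lit 3) (.e (nat_lit 57479) (nat_lit 28) (.e (nat_lit 557107) (nat_lit 15) (.e (nat_lit 188450) (nat_lit 23) (.e (nat_lit 204855) (nat_lit 26) (.e (nat_lit 335928) (nat_lit 0) .nil))))))) (.g (nat_lit 0) .nil .nil)))) (.nd (nat_lit 4) 
(.lf (nat_lit 87951) (.g (nat_lit 2645) (.e (nat_lit 2005) (nat_lit 138) (.e (nat_lit 671759) (nat_lit 3) (.e (nat_lit 57479) (nat_lit 28) (.e (nat_lit 557106) (nat_lit 15) (.e (nat_lit 188447) (nat_lit 22) .nil))))) .nil)) 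
(.lf (nat_lit 87967) (.g (nat_lit 2166) (.e (nat_lit 2005) (nat_lit 138) (.e (nat_lit 671759) (nat_lit 3) (.e (nat_lit 57479) (nat_lit 28) (.e (nat_lit 557109) (nat_lit 15) (.e (nat_lit 188458) (nat_lit 25) (.e (nat_lit 245784) (nat_lit 9) (.e (nat_lit 1440) (nat_lit 108) (.e (nat_lit 335918) (nat_lit 0) .nil)))))))) (.g (nat_lit 5) .nil .nil))))))))

noncomputable def tv1198 : DT := (.nd (nat_lit 0) (.nd (nat_lit 1) (.nd (nat_lit 2) (.nd (nat_lit 3) (.nd (nat_lit 4) 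
(.lf (nat_lit 87968) (.g (nat_lit 2271) (.e (nat_lit 2005) (nat_lit 138) (.e (nat_lit 671759) (nat_lit 3) (.e (nat_lit 57479) (nat_lit 28) (.e (nat_lit 557109) (nat_lit 15) (.e (nat_lit 188458) (nat_lit 25) (.e (nat_lit 245784) (nat_lit 9) (.e (nat_lit 1440) (nat_lit 108) (.e (nat_lit 335919) (nat_lit 0) .nil)))))))) (.g (nat_lit 5) .nil .nil))) 
(.lf (nat_lit 87984) (.g (nat_lit 4042) (.e (nat_lit 2005) (nat_lit 138) (.e (nat_lit 671759) (nat_lit 3) (.e (nat_lit 57480) (nat_lit 28) (.e (nat_lit 557107) (nat_lit 15) (.e (nat_lit 188447) (nat_lit 22) (.e (nat_lit 196666) (nat_lit 13) (.e (nat_lit 65546) (nat_lit 0) .nil))))))) (.g (nat_lit 0) .nil .nil)))) (.nd (nat_lit 4) 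
(.lf (nat_lit 87976) (.g (nat_lit 2257) (.e (nat_lit 2005) (nat_lit 138) (.e (nat_lit 671759) (nat_lit 3) (.e (nat_lit 57479) (nat_lit 28) (.e (nat_lit 557109) (nat_lit 15) (.e (nat_lit 188458) (nat_lit 25) (.e (nat_lit 245790) (nat_lit 13) (.e (nat_lit 65557) (nat_lit 0) .nil))))))) (.g (nat_lit 5) .nil .nil))) 
(.lf (nat_lit 87992) (.g (nat_lit 3641) (.e (nat_lit 2005) (nat_lit 138) (.e (nat_lit 671759) (nat_lit 3) (.e (nat_lit 57480) (nat_lit 28) (.e (nat_lit 557108) (nat_lit 15) (.e (nat_lit 188452) (nat_lit 23) (.e (nat_lit 204856) (nat_lit 26) (.e (nat_lit 335918) (nat_lit 0) .nil))))))) (.g (nat_lit 6) .nil .nil))))) (.nd (nat_lit 3) (.nd (nat_lit 4) 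
(.lf (nat_lit 87972) (.g (nat_lit 2923) (.e (nat_lit 2005) (nat_lit 138) (.e (nat_lit 671759) (nat_lit 3) (.e (nat_lit 57479) (nat_lit 28) (.e (nat_lit 557109) (nat_lit 15) (.e (nat_lit 188458) (nat_lit 25) (.e (nat_lit 245790) (nat_lit 13) (.e (nat_lit 65546) (nat_lit 0) .nil))))))) (.g (nat_lit 7) .nil .nil))) 
(.lf (nat_lit 87988) (.g (nat_lit 4764) (.e (nat_lit 2005) (nat_lit 138) (.e (nat_lit 671759) (nat_lit 3) (.e (nat_lit 57480) (nat_lit 28) (.e (nat_lit 557108) (nat_lit 15) (.e (nat_lit 188449) (nat_lit 22) (.e (nat_lit 196666) (nat_lit 13) (.e (nat_lit 65546) (nat_lit 0) .nil))))))) (.g (nat_lit 0) .nil .nil)))) (.nd (nat_lit 4) 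
(.lf (nat_lit 87980) (.g (nat_lit 4804) (.e (nat_lit 2005) (nat_lit 138) (.e (nat_lit 671759) (nat_lit 3) (.e (nat_lit 57480) (nat_lit 28) (.e (nat_lit 557098) (nat_lit 13) (.e (nat_lit 172097) (nat_lit 9) (.e (nat_lit 426125) (nat_lit 2) (.e (nat_lit 196666) (nat_lit 13) (.e (nat_lit 65553) (nat_lit 0) .nil)))))))) (.g (nat_lit 0) .nil .nil))) 
(.lf (nat_lit 87996) (.g (nat_lit 3655) (.e (nat_lit 2005) (nat_lit 138) (.e (nat_lit 671759) (nat_lit 3) (.e (nat_lit 57480) (nat_lit 28) (.e (nat_lit 557108) (nat_lit 15) (.e (nat_lit 188452) (nat_lit 23) (.e (nat_lit 204856) (nat_lit 26) (.e (nat_lit 335936) (nat_lit 0) .nil))))))) (.g (nat_lit 6) .nil .nil)))))) (.nd (nat_lit 2) (.nd (nat_lit 3) (.nd (nat_lit 4) 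
(.lf (nat_lit 87970) (.g (nat_lit 2443) (.e (nat_lit 2005) (nat_lit 138) (.e (nat_lit 671759) (nat_lit 3) (.e (nat_lit 57479) (nat_lit 28) (.e (nat_lit 557109) (nat_lit 15) (.e (nat_lit 188458) (nat_lit 25) (.e (nat_lit 245784) (nat_lit 9) (.e (nat_lit 1440) (nat_lit 108) (.e (nat_lit 335937) (nat_lit 0) .nil)))))))) (.g (nat_lit 6) .nil .nil))) 
(.lf (nat_lit 87986) (.g (nat_lit 3611) (.e (nat_lit 2005) (nat_lit 138) (.e (nat_lit 671759) (nat_lit 3) (.e (nat_lit 57480) (nat_lit 28) (.e (nat_lit 557107) (nat_lit 15) (.e (nat_lit 188450) (nat_lit 23) (.e (nat_lit 204855) (nat_lit 26) (.e (nat_lit 335928) (nat_lit 0) .nil))))))) (.g (nat_lit 0) .nil .nil)))) (.nd (nat_lit 4) 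
(.lf (nat_lit 87978) (.g (nat_lit 2828) (.e (nat_lit 2005) (nat_lit 138) (.e (nat_lit 671759) (nat_lit 3) (.e (nat_lit 57480) (nat_lit 28) (.e (nat_lit 557095) (nat_lit 13) (.e (nat_lit 172115) (nat_lit 10) .nil))))) .nil)) 
(.lf (nat_lit 87994) (.g (nat_lit 3411) (.e (nat_lit 2005) (nat_lit 138) (.e (nat_lit 671759) (nat_lit 3) (.e (nat_lit 57480) (nat_lit 28) (.e (nat_lit 557108) (nat_lit 15) (.e (nat_lit 188452) (nat_lit 23) (.e (nat_lit 204856) (nat_lit 26) (.e (nat_lit 335925) (nat_lit 0) .nil))))))) (.g (nat_lit 5) .nil .nil))))) (.nd (nat_lit 3) (.nd (nat_lit 4) 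
(.lf (nat_lit 87974) (.g (nat_lit 2428) (.e (nat_lit 2005) (nat_lit 138) (.e (nat_lit 671759) (nat_lit 3) (.e (nat_lit 57479) (nat_lit 28) (.e (nat_lit 557109) (nat_lit 15) (.e (nat_lit 188458) (nat_lit 25) (.e (nat_lit 245790) (nat_lit 13) (.e (nat_lit 65552) (nat_lit 0) .nil))))))) (.g (nat_lit 6) .nil .nil))) 
(.lf (nat_lit 87990) (.g (nat_lit 3172) (.e (nat_lit 2005) (nat_lit 138) (.e (nat_lit 671759) (nat_lit 3) (.e (nat_lit 57480) (nat_lit 28) (.e (nat_lit 557108) (nat_lit 15) (.e (nat_lit 188452) (nat_lit 23) (.e (nat_lit 204852) (nat_lit 26) (.e (nat_lit 343808) (nat_lit 0) .nil))))))) (.g (nat_lit 6) .nil .nil)))) (.nd (nat_lit 4) 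
(.lf (nat_lit 87982) (.g (nat_lit 3821) (.e (nat_lit 2005) (nat_lit 138) (.e (nat_lit 671759) (nat_lit 3) (.e (nat_lit 57480) (nat_lit 28) (.e (nat_lit 557101) (nat_lit 13) (.e (nat_lit 172097) (nat_lit 9) (.e (nat_lit 426125) (nat_lit 2) (.e (nat_lit 196666) (nat_lit 13) (.e (nat_lit 65546) (nat_lit 0) .nil)))))))) (.g (nat_lit 5) .nil .nil))) 
(.lf (nat_lit 87998) (.g (nat_lit 4286) (.e (nat_lit 2005) (nat_lit 138) (.e (nat_lit 671759) (nat_lit 3) (.e (nat_lit 57480) (nat_lit 28) (.e (nat_lit 557109) (nat_lit 15) (.e (nat_lit 188449) (nat_lit 22) (.e (nat_lit 196666) (nat_lit 13) (.e (nat_lit 65553) (nat_lit 0) .nil))))))) (.g (nat_lit 0) .nil .nil))))))) (.nd (nat_lit 1) (.nd (nat_lit 2) (.nd (nat_lit 3) (.nd (nat_lit 4) 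
(.lf (nat_lit 87969) (.g (nat_lit 2573) (.e (nat_lit 2005) (nat_lit 138) (.e (nat_lit 671759) (nat_lit 3) (.e (nat_lit 57479) (nat_lit 28) (.e (nat_lit 557109) (nat_lit 15) (.e (nat_lit 188458) (nat_lit 25) (.e (nat_lit 245784) (nat_lit 9) (.e (nat_lit 1440) (nat_lit 108) (.e (nat_lit 335924) (nat_lit 0) .nil)))))))) (.g (nat_lit 6) .nil .nil))) 
(.lf (nat_lit 87985) (.g (nat_lit 3960) (.e (nat_lit 2005) (nat_lit 138) (.e (nat_lit 671759) (nat_lit 3) (.e (nat_lit 57480) (nat_lit 28) (.e (nat_lit 557107) (nat_lit 15) (.e (nat_lit 188447) (nat_lit 22) (.e (nat_lit 196666) (nat_lit 13) (.e (nat_lit 65553) (nat_lit 0) .nil))))))) (.g (nat_lit 0) .nil .nil)))) (.nd (nat_lit 4) 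
(.lf (nat_lit 87977) (.g (nat_lit 2751) (.e (nat_lit 2005) (nat_lit 138) (.e (nat_lit 671759) (nat_lit 3) (.e (nat_lit 57479) (nat_lit 28) (.e (nat_lit 557109) (nat_lit 15) (.e (nat_lit 188458) (nat_lit 25) (.e (nat_lit 245790) (nat_lit 13) (.e (nat_lit 65559) (nat_lit 0) .nil))))))) (.g (nat_lit 0) .nil .nil))) 
(.lf (nat_lit 87993) (.g (nat_lit 3441) (.e (nat_lit 2005) (nat_lit 138) (.e (nat_lit 671759) (nat_lit 3) (.e (nat_lit 57480) (nat_lit 28) (.e (nat_lit 557108) (nat_lit 15) (.e (nat_lit 188452) (nat_lit 23) (.e (nat_lit 204856) (nat_lit 26) (.e (nat_lit 335924) (nat_lit 0) .nil))))))) (.g (nat_lit 5) .nil .nil))))) (.nd (nat_lit 3) (.nd (nat_lit 4) 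
(.lf (nat_lit 87973) (.g (nat_lit 2791) (.e (nat_lit 2005) (nat_lit 138) (.e (nat_lit 671759) (nat_lit 3) (.e (nat_lit 57479) (nat_lit 28) (.e (nat_lit 557109) (nat_lit 15) (.e (nat_lit 188458) (nat_lit 25) (.e (nat_lit 245790) (nat_lit 13) (.e (nat_lit 65547) (nat_lit 0) .nil))))))) (.g (nat_lit 0) .nil .nil))) 
(.lf (nat_lit 87989) (.g (nat_lit 4664) (.e (nat_lit 2005) (nat_lit 138) (.e (nat_lit 671759) (nat_lit 3) (.e (nat_lit 57480) (nat_lit 28) (.e (nat_lit 557108) (nat_lit 15) (.e (nat_lit 188449) (nat_lit 22) (.e (nat_lit 196666) (nat_lit 13) (.e (nat_lit 65553) (nat_lit 0) .nil))))))) (.g (nat_lit 0) .nil .nil)))) (.nd (nat_lit 4) 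
(.lf (nat_lit 87981) (.g (nat_lit 4531) (.e (nat_lit 2005) (nat_lit 138) (.e (nat_lit 671759) (nat_lit 3) (.e (nat_lit 57480) (nat_lit 28) (.e (nat_lit 557098) (nat_lit 13) (.e (nat_lit 172097) (nat_lit 9) (.e (nat_lit 426140) (nat_lit 3) (.e (nat_lit 204855) (nat_lit 26) (.e (nat_lit 335928) (nat_lit 0) .nil)))))))) (.g (nat_lit 0) .nil .nil))) 
(.lf (nat_lit 87997) (.g (nat_lit 4381) (.e (nat_lit 2005) (nat_lit 138) (.e (nat_lit 671759) (nat_lit 3) (.e (nat_lit 57480) (nat_lit 28) (.e (nat_lit 557109) (nat_lit 15) (.e (nat_lit 188449) (nat_lit 22) (.e (nat_lit 196666) (nat_lit 13) (.e (nat_lit 65546) (nat_lit 0) .nil))))))) (.g (nat_lit 0) .nil .nil)))))) (.nd (nat_lit 2) (.nd (nat_lit 3) (.nd (nat_lit 4) 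
(.lf (nat_lit 87971) (.g (nat_lit 1879) (.e (nat_lit 2005) (nat_lit 138) (.e (nat_lit 671759) (nat_lit 3) (.e (nat_lit 57479) (nat_lit 28) (.e (nat_lit 557109) (nat_lit 15) (.e (nat_lit 188458) (nat_lit 25) (.e (nat_lit 245784) (nat_lit 9) (.e (nat_lit 1457) (nat_lit 108) (.e (nat_lit 335925) (nat_lit 0) .nil)))))))) (.g (nat_lit 4) .nil .nil))) 
(.lf (nat_lit 87987) (.g (nat_lit 4307) (.e (nat_lit 2005) (nat_lit 138) (.e (nat_lit 671759) (nat_lit 3) (.e (nat_lit 57480) (nat_lit 28) (.e (nat_lit 557108) (nat_lit 15) (.e (nat_lit 188447) (nat_lit 22) (.e (nat_lit 196666) (nat_lit 13) (.e (nat_lit 65553) (nat_lit 0) .nil))))))) (.g (nat_lit 7) .nil .nil)))) (.nd (nat_lit 4) 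
(.lf (nat_lit 87979) (.g (nat_lit 4804) (.e (nat_lit 2005) (nat_lit 138) (.e (nat_lit 671759) (nat_lit 3) (.e (nat_lit 57480) (nat_lit 28) (.e (nat_lit 557098) (nat_lit 13) (.e (nat_lit 172097) (nat_lit 9) (.e (nat_lit 426125) (nat_lit 2) (.e (nat_lit 196666) (nat_lit 13) (.e (nat_lit 65546) (nat_lit 0) .nil)))))))) (.g (nat_lit 0) .nil .nil))) 
(.lf (nat_lit 87995) (.g (nat_lit 3716) (.e (nat_lit 2005) (nat_lit 138) (.e (nat_lit 671759) (nat_lit 3) (.e (nat_lit 57480) (nat_lit 28) (.e (nat_lit 557108) (nat_lit 15) (.e (nat_lit 188452) (nat_lit 23) (.e (nat_lit 204856) (nat_lit 26) (.e (nat_lit 335927) (nat_lit 0) .nil))))))) (.g (nat_lit 6) .nil .nil))))) (.nd (nat_lit 3) (.nd (nat_lit 4) 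
(.lf (nat_lit 87975) (.g (nat_lit 2714) (.e (nat_lit 2005) (nat_lit 138) (.e (nat_lit 671759) (nat_lit 3) (.e (nat_lit 57479) (nat_lit 28) (.e (nat_lit 557109) (nat_lit 15) (.e (nat_lit 188458) (nat_lit 25) (.e (nat_lit 245790) (nat_lit 13) (.e (nat_lit 65553) (nat_lit 0) .nil))))))) (.g (nat_lit 0) .nil .nil))) 
(.lf (nat_lit 87991) (.g (nat_lit 3548) (.e (nat_lit 2005) (nat_lit 138) (.e (nat_lit 671759) (nat_lit 3) (.e (nat_lit 57480) (nat_lit 28) (.e (nat_lit 557108) (nat_lit 15) (.e (nat_lit 188452) (nat_lit 23) (.e (nat_lit 204856) (nat_lit 26) (.e (nat_lit 335916) (nat_lit 0) .nil))))))) (.g (nat_lit 5) .nil .nil)))) (.nd (nat_lit 4) 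
(.lf (nat_lit 87983) (.g (nat_lit 3821) (.e (nat_lit 2005) (nat_lit 138) (.e (nat_lit 671759) (nat_lit 3) (.e (nat_lit 57480) (nat_lit 28) (.e (nat_lit 557101) (nat_lit 13) (.e (nat_lit 172097) (nat_lit 9) (.e (nat_lit 426125) (nat_lit 2) (.e (nat_lit 196666) (nat_lit 13) (.e (nat_lit 65553) (nat_lit 0) .nil)))))))) (.g (nat_lit 5) .nil .nil))) 
(.lf (nat_lit 87999) (.g (nat_lit 4361) (.e (nat_lit 2005) (nat_lit 138) (.e (nat_lit 671759) (nat_lit 3) (.e (nat_lit 57480) (nat_lit 28) (.e (nat_lit 557109) (nat_lit 15) (.e (nat_lit 188452) (nat_lit 23) (.e (nat_lit 204855) (nat_lit 26) (.e (nat_lit 335928) (nat_lit 0) .nil))))))) (.g (nat_lit 0) .nil .nil))))))))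

noncomputable def tv1199 : DT := (.nd (nat_lit 0) (.nd (nat_lit 1) (.nd (nat_lit 2) (.nd (nat_lit 3) (.nd (nat_lit 4) (.nd (nat_lit 5) 
(.lf (nat_lit 88000) (.g (nat_lit 1483) (.e (nat_lit 2005) (nat_lit 138) (.e (nat_lit 671760) (nat_lit 4) (.e (nat_lit 65624) (nat_lit 12) (.e (nat_lit 385092) (nat_lit 49) (.e (nat_lit 778326) (nat_lit 6) (.e (nat_lit 81939) (nat_lit 20) .nil)))))) (.g (nat_lit 4) .nil .nil))) 
(.lf (nat_lit 88032) (.g (nat_lit 407) (.e (nat_lit 2005) (nat_lit 138) (.e (nat_lit 671762) (nat_lit 4) (.e (nat_lit 65584) (nat_lit 7) .nil))) .nil))) (.nd (nat_lit 5) 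
(.lf (nat_lit 88016) (.g (nat_lit 413) (.e (nat_lit 2005) (nat_lit 138) (.e (nat_lit 671762) (nat_lit 4) (.e (nat_lit 65537) (nat_lit 0) .nil))) .nil)) 
(.lf (nat_lit 88048) (.g (nat_lit 1994) (.e (nat_lit 2005) (nat_lit 138) (.e (nat_lit 671762) (nat_lit 4) (.e (nat_lit 65598) (nat_lit 9) (.e (nat_lit 335907) (nat_lit 0) (.e (nat_lit 1994) (nat_lit 137) (.e (nat_lit 663569) (nat_lit 6) (.e (nat_lit 81943) (nat_lit 20) .nil))))))) (.g (nat_lit 4) .nil .nil))))) (.nd (nat_lit 4) (.nd (nat_lit 5) 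
(.lf (nat_lit 88008) (.g (nat_lit 1868) (.e (nat_lit 2005) (nat_lit 138) (.e (nat_lit 671760) (nat_lit 4) (.e (nat_lit 65630) (nat_lit 14) (.e (nat_lit 401436) (nat_lit 9) (.e (nat_lit 426542) (nat_lit 29) (.e (nat_lit 352297) (nat_lit 20) .nil)))))) (.g (nat_lit 5) .nil .nil))) 
(.lf (nat_lit 88040) (.g (nat_lit 1843) (.e (nat_lit 2005) (nat_lit 138) (.e (nat_lit 671762) (nat_lit 4) (.e (nat_lit 65586) (nat_lit 7) (.e (nat_lit 319539) (nat_lit 19) (.e (nat_lit 311358) (nat_lit 29) (.e (nat_lit 352290) (nat_lit 20) .nil)))))) (.g (nat_lit 4) .nil .nil)))) (.nd (nat_lit 5) 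
(.lf (nat_lit 88024) (.g (nat_lit 843) (.e (nat_lit 2005) (nat_lit 138) (.e (nat_lit 671762) (nat_lit 4) (.e (nat_lit 65582) (nat_lit 7) (.e (nat_lit 319513) (nat_lit 10) .nil)))) .nil)) 
(.lf (nat_lit 88056) (.g (nat_lit 1209) (.e (nat_lit 2005) (nat_lit 138) (.e (nat_lit 671762) (nat_lit 4) (.e (nat_lit 65598) (nat_lit 9) (.e (nat_lit 336032) (nat_lit 4) .nil)))) .nil))))) (.nd (nat_lit 3) (.nd (nat_lit 4) (.nd (nat_lit 5) 
(.lf (nat_lit 88004) (.g (nat_lit 1590) (.e (nat_lit 2005) (nat_lit 138) (.e (nat_lit 671760) (nat_lit 4) (.e (nat_lit 65624) (nat_lit 12) (.e (nat_lit 385093) (nat_lit 49) (.e (nat_lit 778326) (nat_lit 6) (.e (nat_lit 81943) (nat_lit 20) .nil)))))) (.g (nat_lit 5) .nil .nil))) 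
(.lf (nat_lit 88036) (.g (nat_lit 1661) (.e (nat_lit 2005) (nat_lit 138) (.e (nat_lit 671762) (nat_lit 4) (.e (nat_lit 65585) (nat_lit 7) (.e (nat_lit 319539) (nat_lit 19) (.e (nat_lit 311358) (nat_lit 29) (.e (nat_lit 352296) (nat_lit 20) .nil)))))) (.g (nat_lit 5) .nil .nil)))) (.nd (nat_lit 5) 
(.lf (nat_lit 88020) (.g (nat_lit 542) (.e (nat_lit 2005) (nat_lit 138) (.e (nat_lit 671762) (nat_lit 4) (.e (nat_lit 65581) (nat_lit 7) .nil))) .nil)) 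
(.lf (nat_lit 88052) (.g (nat_lit 2190) (.e (nat_lit 2005) (nat_lit 138) (.e (nat_lit 671762) (nat_lit 4) (.e (nat_lit 65598) (nat_lit 9) (.e (nat_lit 335907) (nat_lit 0) (.e (nat_lit 1996) (nat_lit 137) (.e (nat_lit 663569) (nat_lit 6) (.e (nat_lit 81946) (nat_lit 20) .nil))))))) (.g (nat_lit 4) .nil .nil))))) (.nd (nat_lit 4) (.nd (nat_lit 5) 
(.lf (nat_lit 88012) (.g (nat_lit 2383) (.e (nat_lit 2005) (nat_lit 138) (.e (nat_lit 671761) (nat_lit 4) (.e (nat_lit 65624) (nat_lit 12) (.e (nat_lit 385093) (nat_lit 49) (.e (nat_lit 778327) (nat_lit 6) .nil))))) .nil)) 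
(.lf (nat_lit 88044) (.g (nat_lit 1491) (.e (nat_lit 2005) (nat_lit 138) (.e (nat_lit 671762) (nat_lit 4) (.e (nat_lit 65593) (nat_lit 9) (.e (nat_lit 335907) (nat_lit 0) (.e (nat_lit 1994) (nat_lit 137) .nil))))) .nil))) (.nd (nat_lit 5) 
(.lf (nat_lit 88028) (.g (nat_lit 1269) (.e (nat_lit 2005) (nat_lit 138) (.e (nat_lit 671762) (nat_lit 4) (.e (nat_lit 65583) (nat_lit 7) (.e (nat_lit 319539) (nat_lit 19) (.e (nat_lit 311358) (nat_lit 29) .nil))))) .nil)) 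
(.lf (nat_lit 88060) (.g (nat_lit 1812) (.e (nat_lit 2005) (nat_lit 138) (.e (nat_lit 671762) (nat_lit 4) (.e (nat_lit 65610) (nat_lit 10) (.e (nat_lit 344097) (nat_lit 18) (.e (nat_lit 5907) (nat_lit 320) .nil))))) .nil)))))) (.nd (nat_lit 2) (.nd (nat_lit 3) (.nd (nat_lit 4) (.nd (nat_lit 5) 
(.lf (nat_lit 88002) (.g (nat_lit 1514) (.e (nat_lit 2005) (nat_lit 138) (.e (nat_lit 671760) (nat_lit 4) (.e (nat_lit 65624) (nat_lit 12) (.e (nat_lit 385092) (nat_lit 49) (.e (nat_lit 778327) (nat_lit 6) (.e (nat_lit 81946) (nat_lit 20) .nil)))))) (.g (nat_lit 4) .nil .nil))) 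
(.lf (nat_lit 88034) (.g (nat_lit 1879) (.e (nat_lit 2005) (nat_lit 138) (.e (nat_lit 671762) (nat_lit 4) (.e (nat_lit 65584) (nat_lit 7) (.e (nat_lit 319539) (nat_lit 19) (.e (nat_lit 311358) (nat_lit 29) (.e (nat_lit 352303) (nat_lit 20) .nil)))))) (.g (nat_lit 6) .nil .nil)))) (.nd (nat_lit 5) 
(.lf (nat_lit 88018) (.g (nat_lit 2169) (.e (nat_lit 2005) (nat_lit 138) (.e (nat_lit 671762) (nat_lit 4) (.e (nat_lit 65539) (nat_lit 0) (.e (nat_lit 6113) (nat_lit 332) (.e (nat_lit 1376) (nat_lit 104) (.e (nat_lit 303155) (nat_lit 29) (.e (nat_lit 352297) (nat_lit 20) .nil))))))) (.g (nat_lit 5) .nil .nil))) 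
(.lf (nat_lit 88050) (.g (nat_lit 1866) (.e (nat_lit 2005) (nat_lit 138) (.e (nat_lit 671762) (nat_lit 4) (.e (nat_lit 65598) (nat_lit 9) (.e (nat_lit 335907) (nat_lit 0) (.e (nat_lit 1996) (nat_lit 137) .nil))))) .nil)))) (.nd (nat_lit 4) (.nd (nat_lit 5) 
(.lf (nat_lit 88010) (.g (nat_lit 1470) (.e (nat_lit 2005) (nat_lit 138) (.e (nat_lit 671761) (nat_lit 4) (.e (nat_lit 65624) (nat_lit 12) (.e (nat_lit 385092) (nat_lit 49) .nil)))) .nil)) 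
(.lf (nat_lit 88042) (.g (nat_lit 1865) (.e (nat_lit 2005) (nat_lit 138) (.e (nat_lit 671762) (nat_lit 4) (.e (nat_lit 65586) (nat_lit 7) (.e (nat_lit 319539) (nat_lit 19) (.e (nat_lit 311358) (nat_lit 29) (.e (nat_lit 352297) (nat_lit 20) .nil)))))) (.g (nat_lit 4) .nil .nil)))) (.nd (nat_lit 5) 
(.lf (nat_lit 88026) (.g (nat_lit 1625) (.e (nat_lit 2005) (nat_lit 138) (.e (nat_lit 671762) (nat_lit 4) (.e (nat_lit 65583) (nat_lit 7) (.e (nat_lit 319506) (nat_lit 10) (.e (nat_lit 5722) (nat_lit 312) .nil))))) .nil)) 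
(.lf (nat_lit 88058) (.g (nat_lit 1689) (.e (nat_lit 2005) (nat_lit 138) (.e (nat_lit 671762) (nat_lit 4) (.e (nat_lit 65604) (nat_lit 9) (.e (nat_lit 335907) (nat_lit 0) (.e (nat_lit 1996) (nat_lit 137) .nil))))) .nil))))) (.nd (nat_lit 3) (.nd (nat_lit 4) (.nd (nat_lit 5) 
(.lf (nat_lit 88006) (.g (nat_lit 2029) (.e (nat_lit 2005) (nat_lit 138) (.e (nat_lit 671760) (nat_lit 4) (.e (nat_lit 65624) (nat_lit 12) (.e (nat_lit 385094) (nat_lit 49) (.e (nat_lit 778326) (nat_lit 6) (.e (nat_lit 81939) (nat_lit 20) .nil)))))) (.g (nat_lit 5) .nil .nil))) 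
(.lf (nat_lit 88038) (.g (nat_lit 1806) (.e (nat_lit 2005) (nat_lit 138) (.e (nat_lit 671762) (nat_lit 4) (.e (nat_lit 65585) (nat_lit 7) (.e (nat_lit 319539) (nat_lit 19) (.e (nat_lit 311358) (nat_lit 29) (.e (nat_lit 352303) (nat_lit 20) .nil)))))) (.g (nat_lit 6) .nil .nil)))) (.nd (nat_lit 5) 
(.lf (nat_lit 88022) (.g (nat_lit 1611) (.e (nat_lit 2005) (nat_lit 138) (.e (nat_lit 671762) (nat_lit 4) (.e (nat_lit 65582) (nat_lit 7) (.e (nat_lit 319506) (nat_lit 10) (.e (nat_lit 5722) (nat_lit 312) .nil))))) .nil)) 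
(.lf (nat_lit 88054) (.g (nat_lit 3147) (.e (nat_lit 2005) (nat_lit 138) (.e (nat_lit 671762) (nat_lit 4) (.e (nat_lit 65598) (nat_lit 9) (.e (nat_lit 335997) (nat_lit 1) (.e (nat_lit 57872) (nat_lit 264) (.e (nat_lit 1219) (nat_lit 90) (.e (nat_lit 81943) (nat_lit 20) .nil))))))) (.g (nat_lit 6) .nil .nil))))) (.nd (nat_lit 4) (.nd (nat_lit 5) 
(.lf (nat_lit 88014) (.g (nat_lit 2767) (.e (nat_lit 2005) (nat_lit 138) (.e (nat_lit 671761) (nat_lit 4) (.e (nat_lit 65624) (nat_lit 12) (.e (nat_lit 385094) (nat_lit 49) (.e (nat_lit 778326) (nat_lit 6) (.e (nat_lit 81939) (nat_lit 20) .nil)))))) (.g (nat_lit 6) .nil .nil))) 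
(.lf (nat_lit 88046) (.g (nat_lit 542) (.e (nat_lit 2005) (nat_lit 138) (.e (nat_lit 671762) (nat_lit 4) (.e (nat_lit 65595) (nat_lit 9) .nil))) .nil))) (.nd (nat_lit 5) 
(.lf (nat_lit 88030) (.g (nat_lit 1923) (.e (nat_lit 2005) (nat_lit 138) (.e (nat_lit 671762) (nat_lit 4) (.e (nat_lit 65583) (nat_lit 7) (.e (nat_lit 319539) (nat_lit 19) (.e (nat_lit 311358) (nat_lit 29) (.e (nat_lit 352296) (nat_lit 20) .nil)))))) (.g (nat_lit 5) .nil .nil))) 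
(.lf (nat_lit 88062) (.g (nat_lit 2884) (.e (nat_lit 2005) (nat_lit 138) (.e (nat_lit 671762) (nat_lit 4) (.e (nat_lit 65610) (nat_lit 10) (.e (nat_lit 344097) (nat_lit 18) (.e (nat_lit 5907) (nat_lit 320) (.e (nat_lit 1221) (nat_lit 90) (.e (nat_lit 81939) (nat_lit 20) .nil))))))) (.g (nat_lit 5) .nil .nil)))))))) 
(.nd (nat_lit 1) (.nd (nat_lit 2) (.nd (nat_lit 3) (.nd (nat_lit 4) (.nd (nat_lit 5) 
(.lf (nat_lit 88001) (.g (nat_lit 1615) (.e (nat_lit 2005) (nat_lit 138) (.e (nat_lit 671760) (nat_lit 4) (.e (nat_lit 65624) (nat_lit 12) (.e (nat_lit 385092) (nat_lit 49) (.e (nat_lit 778326) (nat_lit 6) (.e (nat_lit 81943) (nat_lit 20) .nil)))))) (.g (nat_lit 5) .nil .nil))) 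
(.lf (nat_lit 88033) (.g (nat_lit 1761) (.e (nat_lit 2005) (nat_lit 138) (.e (nat_lit 671762) (nat_lit 4) (.e (nat_lit 65584) (nat_lit 7) (.e (nat_lit 319539) (nat_lit 19) (.e (nat_lit 311358) (nat_lit 29) (.e (nat_lit 352296) (nat_lit 20) .nil)))))) (.g (nat_lit 5) .nil .nil)))) (.nd (nat_lit 5) 
(.lf (nat_lit 88017) (.g (nat_lit 2609) (.e (nat_lit 2005) (nat_lit 138) (.e (nat_lit 671762) (nat_lit 4) (.e (nat_lit 65539) (nat_lit 0) (.e (nat_lit 6113) (nat_lit 332) (.e (nat_lit 1374) (nat_lit 104) (.e (nat_lit 303155) (nat_lit 29) (.e (nat_lit 352297) (nat_lit 20) .nil))))))) (.g (nat_lit 5) .nil .nil))) 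
(.lf (nat_lit 88049) (.g (nat_lit 2222) (.e (nat_lit 2005) (nat_lit 138) (.e (nat_lit 671762) (nat_lit 4) (.e (nat_lit 65598) (nat_lit 9) (.e (nat_lit 335907) (nat_lit 0) (.e (nat_lit 1994) (nat_lit 137) (.e (nat_lit 663569) (nat_lit 6) (.e (nat_lit 81946) (nat_lit 20) .nil))))))) (.g (nat_lit 4) .nil .nil))))) (.nd (nat_lit 4) (.nd (nat_lit 5) 
(.lf (nat_lit 88009) (.g (nat_lit 2352) (.e (nat_lit 2005) (nat_lit 138) (.e (nat_lit 671760) (nat_lit 4) (.e (nat_lit 65630) (nat_lit 14) (.e (nat_lit 401437) (nat_lit 9) (.e (nat_lit 426542) (nat_lit 29) (.e (nat_lit 352297) (nat_lit 20) .nil)))))) (.g (nat_lit 6) .nil .nil))) 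
(.lf (nat_lit 88041) (.g (nat_lit 1695) (.e (nat_lit 2005) (nat_lit 138) (.e (nat_lit 671762) (nat_lit 4) (.e (nat_lit 65586) (nat_lit 7) (.e (nat_lit 319539) (nat_lit 19) (.e (nat_lit 311358) (nat_lit 29) (.e (nat_lit 352296) (nat_lit 20) .nil)))))) (.g (nat_lit 4) .nil .nil)))) (.nd (nat_lit 5) 
(.lf (nat_lit 88025) (.g (nat_lit 1662) (.e (nat_lit 2005) (nat_lit 138) (.e (nat_lit 671762) (nat_lit 4) (.e (nat_lit 65583) (nat_lit 7) (.e (nat_lit 319506) (nat_lit 10) (.e (nat_lit 5721) (nat_lit 312) (.e (nat_lit 317) (nat_lit 23) (.e (nat_lit 352303) (nat_lit 20) .nil))))))) (.g (nat_lit 4) .nil .nil))) 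
(.lf (nat_lit 88057) (.g (nat_lit 1670) (.e (nat_lit 2005) (nat_lit 138) (.e (nat_lit 671762) (nat_lit 4) (.e (nat_lit 65604) (nat_lit 9) (.e (nat_lit 335907) (nat_lit 0) (.e (nat_lit 1994) (nat_lit 137) .nil))))) .nil))))) (.nd (nat_lit 3) (.nd (nat_lit 4) (.nd (nat_lit 5) 
(.lf (nat_lit 88005) (.g (nat_lit 2401) (.e (nat_lit 2005) (nat_lit 138) (.e (nat_lit 671760) (nat_lit 4) (.e (nat_lit 65624) (nat_lit 12) (.e (nat_lit 385094) (nat_lit 49) (.e (nat_lit 778326) (nat_lit 6) (.e (nat_lit 81938) (nat_lit 20) .nil)))))) (.g (nat_lit 0) .nil .nil))) 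
(.lf (nat_lit 88037) (.g (nat_lit 1842) (.e (nat_lit 2005) (nat_lit 138) (.e (nat_lit 671762) (nat_lit 4) (.e (nat_lit 65585) (nat_lit 7) (.e (nat_lit 319539) (nat_lit 19) (.e (nat_lit 311358) (nat_lit 29) (.e (nat_lit 352297) (nat_lit 20) .nil)))))) (.g (nat_lit 6) .nil .nil)))) (.nd (nat_lit 5) 
(.lf (nat_lit 88021) (.g (nat_lit 1588) (.e (nat_lit 2005) (nat_lit 138) (.e (nat_lit 671762) (nat_lit 4) (.e (nat_lit 65582) (nat_lit 7) (.e (nat_lit 319506) (nat_lit 10) (.e (nat_lit 5721) (nat_lit 312) .nil))))) .nil)) 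
(.lf (nat_lit 88053) (.g (nat_lit 2263) (.e (nat_lit 2005) (nat_lit 138) (.e (nat_lit 671762) (nat_lit 4) (.e (nat_lit 65598) (nat_lit 9) (.e (nat_lit 335907) (nat_lit 0) (.e (nat_lit 1996) (nat_lit 137) (.e (nat_lit 663569) (nat_lit 6) (.e (nat_lit 81947) (nat_lit 20) .nil))))))) (.g (nat_lit 4) .nil .nil))))) (.nd (nat_lit 4) (.nd (nat_lit 5) 
(.lf (nat_lit 88013) (.g (nat_lit 2993) (.e (nat_lit 2005) (nat_lit 138) (.e (nat_lit 671761) (nat_lit 4) (.e (nat_lit 65624) (nat_lit 12) (.e (nat_lit 385094) (nat_lit 49) (.e (nat_lit 778326) (nat_lit 6) (.e (nat_lit 81938) (nat_lit 20) .nil)))))) (.g (nat_lit 0) .nil .nil))) 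
(.lf (nat_lit 88045) (.g (nat_lit 1498) (.e (nat_lit 2005) (nat_lit 138) (.e (nat_lit 671762) (nat_lit 4) (.e (nat_lit 65593) (nat_lit 9) (.e (nat_lit 335907) (nat_lit 0) (.e (nat_lit 1996) (nat_lit 137) .nil))))) .nil))) (.nd (nat_lit 5) 
(.lf (nat_lit 88029) (.g (nat_lit 2052) (.e (nat_lit 2005) (nat_lit 138) (.e (nat_lit 671762) (nat_lit 4) (.e (nat_lit 65583) (nat_lit 7) (.e (nat_lit 319539) (nat_lit 19) (.e (nat_lit 311358) (nat_lit 29) (.e (nat_lit 352290) (nat_lit 20) .nil)))))) (.g (nat_lit 0) .nil .nil))) 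
(.lf (nat_lit 88061) (.g (nat_lit 2149) (.e (nat_lit 2005) (nat_lit 138) (.e (nat_lit 671762) (nat_lit 4) (.e (nat_lit 65610) (nat_lit 10) (.e (nat_lit 344097) (nat_lit 18) (.e (nat_lit 5907) (nat_lit 320) (.e (nat_lit 1219) (nat_lit 90) (.e (nat_lit 81939) (nat_lit 20) .nil))))))) (.g (nat_lit 4) .nil .nil))))))) (.nd (nat_lit 2) (.nd (nat_lit 3) (.nd (nat_lit 4) (.nd (nat_lit 5) 
(.lf (nat_lit 88003) (.g (nat_lit 1513) (.e (nat_lit 2005) (nat_lit 138) (.e (nat_lit 671760) (nat_lit 4) (.e (nat_lit 65624) (nat_lit 12) (.e (nat_lit 385093) (nat_lit 49) (.e (nat_lit 778326) (nat_lit 6) (.e (nat_lit 81939) (nat_lit 20) .nil)))))) (.g (nat_lit 4) .nil .nil))) 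
(.lf (nat_lit 88035) (.g (nat_lit 1810) (.e (nat_lit 2005) (nat_lit 138) (.e (nat_lit 671762) (nat_lit 4) (.e (nat_lit 65585) (nat_lit 7) (.e (nat_lit 319539) (nat_lit 19) (.e (nat_lit 311358) (nat_lit 29) (.e (nat_lit 352290) (nat_lit 20) .nil)))))) (.g (nat_lit 6) .nil .nil)))) (.nd (nat_lit 5) 
(.lf (nat_lit 88019) (.g (nat_lit 1872) (.e (nat_lit 2005) (nat_lit 138) (.e (nat_lit 671762) (nat_lit 4) (.e (nat_lit 65542) (nat_lit 0) (.e (nat_lit 6113) (nat_lit 332) (.e (nat_lit 1376) (nat_lit 104) (.e (nat_lit 303155) (nat_lit 29) (.e (nat_lit 352297) (nat_lit 20) .nil))))))) (.g (nat_lit 5) .nil .nil))) 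
(.lf (nat_lit 88051) (.g (nat_lit 1974) (.e (nat_lit 2005) (nat_lit 138) (.e (nat_lit 671762) (nat_lit 4) (.e (nat_lit 65598) (nat_lit 9) (.e (nat_lit 335907) (nat_lit 0) (.e (nat_lit 1996) (nat_lit 137) (.e (nat_lit 663569) (nat_lit 6) (.e (nat_lit 81943) (nat_lit 20) .nil))))))) (.g (nat_lit 4) .nil .nil))))) (.nd (nat_lit 4) (.nd (nat_lit 5) 
(.lf (nat_lit 88011) (.g (nat_lit 2101) (.e (nat_lit 2005) (nat_lit 138) (.e (nat_lit 671761) (nat_lit 4) (.e (nat_lit 65624) (nat_lit 12) (.e (nat_lit 385093) (nat_lit 49) (.e (nat_lit 778326) (nat_lit 6) .nil))))) .nil)) 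
(.lf (nat_lit 88043) (.g (nat_lit 1890) (.e (nat_lit 2005) (nat_lit 138) (.e (nat_lit 671762) (nat_lit 4) (.e (nat_lit 65586) (nat_lit 7) (.e (nat_lit 319539) (nat_lit 19) (.e (nat_lit 311358) (nat_lit 29) (.e (nat_lit 352303) (nat_lit 20) .nil)))))) (.g (nat_lit 4) .nil .nil)))) (.nd (nat_lit 5) 
(.lf (nat_lit 88027) (.g (nat_lit 1582) (.e (nat_lit 2005) (nat_lit 138) (.e (nat_lit 671762) (nat_lit 4) (.e (nat_lit 65583) (nat_lit 7) (.e (nat_lit 319506) (nat_lit 10) (.e (nat_lit 5723) (nat_lit 312) (.e (nat_lit 317) (nat_lit 23) (.e (nat_lit 352303) (nat_lit 20) .nil))))))) (.g (nat_lit 4) .nil .nil))) 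
(.lf (nat_lit 88059) (.g (nat_lit 947) (.e (nat_lit 2005) (nat_lit 138) (.e (nat_lit 671762) (nat_lit 4) (.e (nat_lit 65604) (nat_lit 9) (.e (nat_lit 335997) (nat_lit 1) .nil)))) .nil))))) (.nd (nat_lit 3) (.nd (nat_lit 4) (.nd (nat_lit 5) 
(.lf (nat_lit 88007) (.g (nat_lit 1928) (.e (nat_lit 2005) (nat_lit 138) (.e (nat_lit 671760) (nat_lit 4) (.e (nat_lit 65630) (nat_lit 14) (.e (nat_lit 401436) (nat_lit 9) (.e (nat_lit 426542) (nat_lit 29) (.e (nat_lit 352290) (nat_lit 20) .nil)))))) (.g (nat_lit 5) .nil .nil))) 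
(.lf (nat_lit 88039) (.g (nat_lit 448) (.e (nat_lit 2005) (nat_lit 138) (.e (nat_lit 671762) (nat_lit 4) (.e (nat_lit 65586) (nat_lit 7) .nil))) .nil))) (.nd (nat_lit 5) 
(.lf (nat_lit 88023) (.g (nat_lit 1526) (.e (nat_lit 2005) (nat_lit 138) (.e (nat_lit 671762) (nat_lit 4) (.e (nat_lit 65582) (nat_lit 7) (.e (nat_lit 319506) (nat_lit 10) (.e (nat_lit 5723) (nat_lit 312) .nil))))) .nil)) 
(.lf (nat_lit 88055) (.g (nat_lit 2136) (.e (nat_lit 2005) (nat_lit 138) (.e (nat_lit 671762) (nat_lit 4) (.e (nat_lit 65598) (nat_lit 9) (.e (nat_lit 335997) (nat_lit 1) (.e (nat_lit 57872) (nat_lit 264) (.e (nat_lit 1221) (nat_lit 90) (.e (nat_lit 81939) (nat_lit 20) .nil))))))) (.g (nat_lit 4) .nil .nil))))) (.nd (nat_lit 4) (.nd (nat_lit 5) 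
(.lf (nat_lit 88015) (.g (nat_lit 1985) (.e (nat_lit 2005) (nat_lit 138) (.e (nat_lit 671761) (nat_lit 4) (.e (nat_lit 65624) (nat_lit 12) (.e (nat_lit 385094) (nat_lit 49) (.e (nat_lit 778327) (nat_lit 6) .nil))))) .nil)) 
(.lf (nat_lit 88047) (.g (nat_lit 1844) (.e (nat_lit 2005) (nat_lit 138) (.e (nat_lit 671762) (nat_lit 4) (.e (nat_lit 65598) (nat_lit 9) (.e (nat_lit 335907) (nat_lit 0) (.e (nat_lit 1994) (nat_lit 137) .nil))))) .nil))) (.nd (nat_lit 5) 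
(.lf (nat_lit 88031) (.g (nat_lit 2019) (.e (nat_lit 2005) (nat_lit 138) (.e (nat_lit 671762) (nat_lit 4) (.e (nat_lit 65583) (nat_lit 7) (.e (nat_lit 319539) (nat_lit 19) (.e (nat_lit 311358) (nat_lit 29) (.e (nat_lit 352303) (nat_lit 20) .nil)))))) (.g (nat_lit 6) .nil .nil))) 
(.lf (nat_lit 88063) (.g (nat_lit 2556) (.e (nat_lit 2005) (nat_lit 138) (.e (nat_lit 671762) (nat_lit 4) (.e (nat_lit 65610) (nat_lit 10) (.e (nat_lit 344168) (nat_lit 40) (.e (nat_lit 671764) (nat_lit 6) (.e (nat_lit 81938) (nat_lit 20) .nil)))))) (.g (nat_lit 0) .nil .nil)))))))))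

noncomputable def tv1200 : DT := (.nd (nat_lit 0) (.nd (nat_lit 1) (.nd (nat_lit 2) (.nd (nat_lit 3) (.nd (nat_lit 4) (.nd (nat_lit 5) 
(.lf (nat_lit 88064) (.g (nat_lit 2165) (.e (nat_lit 2005) (nat_lit 138) (.e (nat_lit 671762) (nat_lit 4) (.e (nat_lit 65610) (nat_lit 10) (.e (nat_lit 344168) (nat_lit 40) (.e (nat_lit 671764) (nat_lit 6) (.e (nat_lit 81939) (nat_lit 20) .nil)))))) (.g (nat_lit 5) .nil .nil))) 
(.lf (nat_lit 88096) (.g (nat_lit 1975) (.e (nat_lit 2005) (nat_lit 138) (.e (nat_lit 671762) (nat_lit 4) (.e (nat_lit 65617) (nat_lit 10) (.e (nat_lit 344169) (nat_lit 40) (.e (nat_lit 671764) (nat_lit 6) (.e (nat_lit 81942) (nat_lit 20) .nil)))))) (.g (nat_lit 4) .nil .nil)))) (.nd (nat_lit 5) 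
(.lf (nat_lit 88080) (.g (nat_lit 1713) (.e (nat_lit 2005) (nat_lit 138) (.e (nat_lit 671762) (nat_lit 4) (.e (nat_lit 65616) (nat_lit 10) (.e (nat_lit 344168) (nat_lit 40) (.e (nat_lit 671764) (nat_lit 6) (.e (nat_lit 81939) (nat_lit 20) .nil)))))) (.g (nat_lit 4) .nil .nil))) 
(.lf (nat_lit 88112) (.g (nat_lit 1996) (.e (nat_lit 2005) (nat_lit 138) (.e (nat_lit 671762) (nat_lit 4) (.e (nat_lit 65620) (nat_lit 10) (.e (nat_lit 344168) (nat_lit 40) (.e (nat_lit 671764) (nat_lit 6) (.e (nat_lit 81946) (nat_lit 20) .nil)))))) (.g (nat_lit 5) .nil .nil))))) (.nd (nat_lit 4) (.nd (nat_lit 5) 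
(.lf (nat_lit 88072) (.g (nat_lit 1759) (.e (nat_lit 2005) (nat_lit 138) (.e (nat_lit 671762) (nat_lit 4) (.e (nat_lit 65611) (nat_lit 10) (.e (nat_lit 344168) (nat_lit 40) (.e (nat_lit 671764) (nat_lit 6) (.e (nat_lit 81939) (nat_lit 20) .nil)))))) (.g (nat_lit 5) .nil .nil))) 
(.lf (nat_lit 88104) (.g (nat_lit 2907) (.e (nat_lit 2005) (nat_lit 138) (.e (nat_lit 671762) (nat_lit 4) (.e (nat_lit 65619) (nat_lit 10) (.e (nat_lit 344168) (nat_lit 40) (.e (nat_lit 671764) (nat_lit 6) (.e (nat_lit 81947) (nat_lit 20) .nil)))))) (.g (nat_lit 6) .nil .nil)))) (.nd (nat_lit 5) 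
(.lf (nat_lit 88088) (.g (nat_lit 1322) (.e (nat_lit 2005) (nat_lit 138) (.e (nat_lit 671762) (nat_lit 4) (.e (nat_lit 65617) (nat_lit 10) (.e (nat_lit 344167) (nat_lit 40) .nil)))) .nil)) 
(.lf (nat_lit 88120) (.g (nat_lit 2704) (.e (nat_lit 2005) (nat_lit 138) (.e (nat_lit 671762) (nat_lit 4) (.e (nat_lit 65622) (nat_lit 12) (.e (nat_lit 385093) (nat_lit 49) (.e (nat_lit 778326) (nat_lit 6) (.e (nat_lit 81938) (nat_lit 20) .nil)))))) (.g (nat_lit 6) .nil .nil)))))) (.nd (nat_lit 3) (.nd (nat_lit 4) (.nd (nat_lit 5) 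
(.lf (nat_lit 88068) (.g (nat_lit 2759) (.e (nat_lit 2005) (nat_lit 138) (.e (nat_lit 671762) (nat_lit 4) (.e (nat_lit 65610) (nat_lit 10) (.e (nat_lit 344169) (nat_lit 40) (.e (nat_lit 671764) (nat_lit 6) (.e (nat_lit 81938) (nat_lit 20) .nil)))))) (.g (nat_lit 0) .nil .nil))) 
(.lf (nat_lit 88100) (.g (nat_lit 2588) (.e (nat_lit 2005) (nat_lit 138) (.e (nat_lit 671762) (nat_lit 4) (.e (nat_lit 65619) (nat_lit 10) (.e (nat_lit 344168) (nat_lit 40) (.e (nat_lit 671764) (nat_lit 6) (.e (nat_lit 81938) (nat_lit 20) .nil)))))) (.g (nat_lit 0) .nil .nil)))) (.nd (nat_lit 5) 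
(.lf (nat_lit 88084) (.g (nat_lit 1920) (.e (nat_lit 2005) (nat_lit 138) (.e (nat_lit 671762) (nat_lit 4) (.e (nat_lit 65616) (nat_lit 10) (.e (nat_lit 344169) (nat_lit 40) (.e (nat_lit 671764) (nat_lit 6) (.e (nat_lit 81939) (nat_lit 20) .nil)))))) (.g (nat_lit 6) .nil .nil))) 
(.lf (nat_lit 88116) (.g (nat_lit 1902) (.e (nat_lit 2005) (nat_lit 138) (.e (nat_lit 671762) (nat_lit 4) (.e (nat_lit 65620) (nat_lit 10) (.e (nat_lit 344169) (nat_lit 40) (.e (nat_lit 671764) (nat_lit 6) (.e (nat_lit 81943) (nat_lit 20) .nil)))))) (.g (nat_lit 5) .nil .nil))))) (.nd (nat_lit 4) (.nd (nat_lit 5) 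
(.lf (nat_lit 88076) (.g (nat_lit 2318) (.e (nat_lit 2005) (nat_lit 138) (.e (nat_lit 671762) (nat_lit 4) (.e (nat_lit 65611) (nat_lit 10) (.e (nat_lit 344169) (nat_lit 40) (.e (nat_lit 671764) (nat_lit 6) (.e (nat_lit 81938) (nat_lit 20) .nil)))))) (.g (nat_lit 0) .nil .nil))) 
(.lf (nat_lit 88108) (.g (nat_lit 2087) (.e (nat_lit 2005) (nat_lit 138) (.e (nat_lit 671762) (nat_lit 4) (.e (nat_lit 65620) (nat_lit 10) (.e (nat_lit 344168) (nat_lit 40) (.e (nat_lit 671764) (nat_lit 6) (.e (nat_lit 81938) (nat_lit 20) .nil)))))) (.g (nat_lit 5) .nil .nil)))) (.nd (nat_lit 5) 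
(.lf (nat_lit 88092) (.g (nat_lit 2121) (.e (nat_lit 2005) (nat_lit 138) (.e (nat_lit 671762) (nat_lit 4) (.e (nat_lit 65617) (nat_lit 10) (.e (nat_lit 344168) (nat_lit 40) (.e (nat_lit 671764) (nat_lit 6) (.e (nat_lit 81943) (nat_lit 20) .nil)))))) (.g (nat_lit 4) .nil .nil))) 
(.lf (nat_lit 88124) (.g (nat_lit 2025) (.e (nat_lit 2005) (nat_lit 138) (.e (nat_lit 671762) (nat_lit 4) (.e (nat_lit 65622) (nat_lit 12) (.e (nat_lit 385093) (nat_lit 49) (.e (nat_lit 778327) (nat_lit 6) (.e (nat_lit 81947) (nat_lit 20) .nil)))))) (.g (nat_lit 4) .nil .nil))))))) (.nd (nat_lit 2) (.nd (nat_lit 3) (.nd (nat_lit 4) (.nd (nat_lit 5) 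
(.lf (nat_lit 88066) (.g (nat_lit 2528) (.e (nat_lit 2005) (nat_lit 138) (.e (nat_lit 671762) (nat_lit 4) (.e (nat_lit 65610) (nat_lit 10) (.e (nat_lit 344168) (nat_lit 40) (.e (nat_lit 671764) (nat_lit 6) (.e (nat_lit 81946) (nat_lit 20) .nil)))))) (.g (nat_lit 6) .nil .nil))) 
(.lf (nat_lit 88098) (.g (nat_lit 2724) (.e (nat_lit 2005) (nat_lit 138) (.e (nat_lit 671762) (nat_lit 4) (.e (nat_lit 65617) (nat_lit 10) (.e (nat_lit 344169) (nat_lit 40) (.e (nat_lit 671764) (nat_lit 6) (.e (nat_lit 81947) (nat_lit 20) .nil)))))) (.g (nat_lit 6) .nil .nil)))) (.nd (nat_lit 5) 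
(.lf (nat_lit 88082) (.g (nat_lit 1925) (.e (nat_lit 2005) (nat_lit 138) (.e (nat_lit 671762) (nat_lit 4) (.e (nat_lit 65616) (nat_lit 10) (.e (nat_lit 344168) (nat_lit 40) (.e (nat_lit 671764) (nat_lit 6) (.e (nat_lit 81943) (nat_lit 20) .nil)))))) (.g (nat_lit 5) .nil .nil))) 
(.lf (nat_lit 88114) (.g (nat_lit 1777) (.e (nat_lit 2005) (nat_lit 138) (.e (nat_lit 671762) (nat_lit 4) (.e (nat_lit 65620) (nat_lit 10) (.e (nat_lit 344169) (nat_lit 40) (.e (nat_lit 671764) (nat_lit 6) (.e (nat_lit 81939) (nat_lit 20) .nil)))))) (.g (nat_lit 5) .nil .nil))))) (.nd (nat_lit 4) (.nd (nat_lit 5) 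
(.lf (nat_lit 88074) (.g (nat_lit 2297) (.e (nat_lit 2005) (nat_lit 138) (.e (nat_lit 671762) (nat_lit 4) (.e (nat_lit 65611) (nat_lit 10) (.e (nat_lit 344168) (nat_lit 40) (.e (nat_lit 671764) (nat_lit 6) (.e (nat_lit 81946) (nat_lit 20) .nil)))))) (.g (nat_lit 6) .nil .nil))) 
(.lf (nat_lit 88106) (.g (nat_lit 2138) (.e (nat_lit 2005) (nat_lit 138) (.e (nat_lit 671762) (nat_lit 4) (.e (nat_lit 65619) (nat_lit 10) (.e (nat_lit 344169) (nat_lit 40) (.e (nat_lit 671764) (nat_lit 6) (.e (nat_lit 81942) (nat_lit 20) .nil)))))) (.g (nat_lit 6) .nil .nil)))) (.nd (nat_lit 5) 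
(.lf (nat_lit 88090) (.g (nat_lit 1894) (.e (nat_lit 2005) (nat_lit 138) (.e (nat_lit 671762) (nat_lit 4) (.e (nat_lit 65617) (nat_lit 10) (.e (nat_lit 344168) (nat_lit 40) (.e (nat_lit 671764) (nat_lit 6) (.e (nat_lit 81939) (nat_lit 20) .nil)))))) (.g (nat_lit 4) .nil .nil))) 
(.lf (nat_lit 88122) (.g (nat_lit 2453) (.e (nat_lit 2005) (nat_lit 138) (.e (nat_lit 671762) (nat_lit 4) (.e (nat_lit 65622) (nat_lit 12) (.e (nat_lit 385093) (nat_lit 49) (.e (nat_lit 778326) (nat_lit 6) (.e (nat_lit 81943) (nat_lit 20) .nil)))))) (.g (nat_lit 6) .nil .nil)))))) (.nd (nat_lit 3) (.nd (nat_lit 4) (.nd (nat_lit 5) 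
(.lf (nat_lit 88070) (.g (nat_lit 3001) (.e (nat_lit 2005) (nat_lit 138) (.e (nat_lit 671762) (nat_lit 4) (.e (nat_lit 65610) (nat_lit 10) (.e (nat_lit 344169) (nat_lit 40) (.e (nat_lit 671764) (nat_lit 6) (.e (nat_lit 81947) (nat_lit 20) .nil)))))) (.g (nat_lit 0) .nil .nil))) 
(.lf (nat_lit 88102) (.g (nat_lit 2179) (.e (nat_lit 2005) (nat_lit 138) (.e (nat_lit 671762) (nat_lit 4) (.e (nat_lit 65619) (nat_lit 10) (.e (nat_lit 344168) (nat_lit 40) (.e (nat_lit 671764) (nat_lit 6) (.e (nat_lit 81942) (nat_lit 20) .nil)))))) (.g (nat_lit 5) .nil .nil)))) (.nd (nat_lit 5) 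
(.lf (nat_lit 88086) (.g (nat_lit 2014) (.e (nat_lit 2005) (nat_lit 138) (.e (nat_lit 671762) (nat_lit 4) (.e (nat_lit 65616) (nat_lit 10) (.e (nat_lit 344169) (nat_lit 40) (.e (nat_lit 671764) (nat_lit 6) (.e (nat_lit 81943) (nat_lit 20) .nil)))))) (.g (nat_lit 6) .nil .nil))) 
(.lf (nat_lit 88118) (.g (nat_lit 1582) (.e (nat_lit 2005) (nat_lit 138) (.e (nat_lit 671762) (nat_lit 4) (.e (nat_lit 65622) (nat_lit 12) (.e (nat_lit 385092) (nat_lit 49) (.e (nat_lit 778326) (nat_lit 6) (.e (nat_lit 81938) (nat_lit 20) .nil)))))) (.g (nat_lit 4) .nil .nil))))) (.nd (nat_lit 4) (.nd (nat_lit 5) 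
(.lf (nat_lit 88078) (.g (nat_lit 1789) (.e (nat_lit 2005) (nat_lit 138) (.e (nat_lit 671762) (nat_lit 4) (.e (nat_lit 65611) (nat_lit 10) (.e (nat_lit 344169) (nat_lit 40) (.e (nat_lit 671764) (nat_lit 6) (.e (nat_lit 81942) (nat_lit 20) .nil)))))) (.g (nat_lit 5) .nil .nil))) 
(.lf (nat_lit 88110) (.g (nat_lit 1514) (.e (nat_lit 2005) (nat_lit 138) (.e (nat_lit 671762) (nat_lit 4) (.e (nat_lit 65620) (nat_lit 10) (.e (nat_lit 344168) (nat_lit 40) (.e (nat_lit 671764) (nat_lit 6) (.e (nat_lit 81942) (nat_lit 20) .nil)))))) (.g (nat_lit 4) .nil .nil)))) (.nd (nat_lit 5) 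
(.lf (nat_lit 88094) (.g (nat_lit 2602) (.e (nat_lit 2005) (nat_lit 138) (.e (nat_lit 671762) (nat_lit 4) (.e (nat_lit 65617) (nat_lit 10) (.e (nat_lit 344168) (nat_lit 40) (.e (nat_lit 671764) (nat_lit 6) (.e (nat_lit 81947) (nat_lit 20) .nil)))))) (.g (nat_lit 5) .nil .nil))) 
(.lf (nat_lit 88126) (.g (nat_lit 2444) (.e (nat_lit 2005) (nat_lit 138) (.e (nat_lit 671762) (nat_lit 4) (.e (nat_lit 65622) (nat_lit 12) (.e (nat_lit 385094) (nat_lit 49) (.e (nat_lit 778326) (nat_lit 6) (.e (nat_lit 81939) (nat_lit 20) .nil)))))) (.g (nat_lit 5) .nil .nil)))))))) (.nd (nat_lit 1) (.nd (nat_lit 2) (.nd (nat_lit 3) (.nd (nat_lit 4) (.nd (nat_lit 5) 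
(.lf (nat_lit 88065) (.g (nat_lit 2198) (.e (nat_lit 2005) (nat_lit 138) (.e (nat_lit 671762) (nat_lit 4) (.e (nat_lit 65610) (nat_lit 10) (.e (nat_lit 344168) (nat_lit 40) (.e (nat_lit 671764) (nat_lit 6) (.e (nat_lit 81942) (nat_lit 20) .nil)))))) (.g (nat_lit 5) .nil .nil))) 
(.lf (nat_lit 88097) (.g (nat_lit 2251) (.e (nat_lit 2005) (nat_lit 138) (.e (nat_lit 671762) (nat_lit 4) (.e (nat_lit 65617) (nat_lit 10) (.e (nat_lit 344169) (nat_lit 40) (.e (nat_lit 671764) (nat_lit 6) (.e (nat_lit 81943) (nat_lit 20) .nil)))))) (.g (nat_lit 5) .nil .nil)))) (.nd (nat_lit 5) 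
(.lf (nat_lit 88081) (.g (nat_lit 1691) (.e (nat_lit 2005) (nat_lit 138) (.e (nat_lit 671762) (nat_lit 4) (.e (nat_lit 65616) (nat_lit 10) (.e (nat_lit 344168) (nat_lit 40) (.e (nat_lit 671764) (nat_lit 6) (.e (nat_lit 81942) (nat_lit 20) .nil)))))) (.g (nat_lit 4) .nil .nil))) 
(.lf (nat_lit 88113) (.g (nat_lit 2262) (.e (nat_lit 2005) (nat_lit 138) (.e (nat_lit 671762) (nat_lit 4) (.e (nat_lit 65620) (nat_lit 10) (.e (nat_lit 344168) (nat_lit 40) (.e (nat_lit 671764) (nat_lit 6) (.e (nat_lit 81947) (nat_lit 20) .nil)))))) (.g (nat_lit 5) .nil .nil))))) (.nd (nat_lit 4) (.nd (nat_lit 5) 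
(.lf (nat_lit 88073) (.g (nat_lit 1760) (.e (nat_lit 2005) (nat_lit 138) (.e (nat_lit 671762) (nat_lit 4) (.e (nat_lit 65611) (nat_lit 10) (.e (nat_lit 344168) (nat_lit 40) (.e (nat_lit 671764) (nat_lit 6) (.e (nat_lit 81942) (nat_lit 20) .nil)))))) (.g (nat_lit 5) .nil .nil))) 
(.lf (nat_lit 88105) (.g (nat_lit 2561) (.e (nat_lit 2005) (nat_lit 138) (.e (nat_lit 671762) (nat_lit 4) (.e (nat_lit 65619) (nat_lit 10) (.e (nat_lit 344169) (nat_lit 40) (.e (nat_lit 671764) (nat_lit 6) (.e (nat_lit 81938) (nat_lit 20) .nil)))))) (.g (nat_lit 0) .nil .nil)))) (.nd (nat_lit 5) 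
(.lf (nat_lit 88089) (.g (nat_lit 2428) (.e (nat_lit 2005) (nat_lit 138) (.e (nat_lit 671762) (nat_lit 4) (.e (nat_lit 65617) (nat_lit 10) (.e (nat_lit 344168) (nat_lit 40) (.e (nat_lit 671764) (nat_lit 6) (.e (nat_lit 81938) (nat_lit 20) .nil)))))) (.g (nat_lit 5) .nil .nil))) 
(.lf (nat_lit 88121) (.g (nat_lit 2444) (.e (nat_lit 2005) (nat_lit 138) (.e (nat_lit 671762) (nat_lit 4) (.e (nat_lit 65622) (nat_lit 12) (.e (nat_lit 385093) (nat_lit 49) (.e (nat_lit 778326) (nat_lit 6) (.e (nat_lit 81939) (nat_lit 20) .nil)))))) (.g (nat_lit 6) .nil .nil)))))) (.nd (nat_lit 3) (.nd (nat_lit 4) (.nd (nat_lit 5) 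
(.lf (nat_lit 88069) (.g (nat_lit 2440) (.e (nat_lit 2005) (nat_lit 138) (.e (nat_lit 671762) (nat_lit 4) (.e (nat_lit 65610) (nat_lit 10) (.e (nat_lit 344169) (nat_lit 40) (.e (nat_lit 671764) (nat_lit 6) (.e (nat_lit 81939) (nat_lit 20) .nil)))))) (.g (nat_lit 0) .nil .nil))) 
(.lf (nat_lit 88101) (.g (nat_lit 2114) (.e (nat_lit 2005) (nat_lit 138) (.e (nat_lit 671762) (nat_lit 4) (.e (nat_lit 65619) (nat_lit 10) (.e (nat_lit 344168) (nat_lit 40) (.e (nat_lit 671764) (nat_lit 6) (.e (nat_lit 81939) (nat_lit 20) .nil)))))) (.g (nat_lit 5) .nil .nil)))) (.nd (nat_lit 5) 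
(.lf (nat_lit 88085) (.g (nat_lit 1795) (.e (nat_lit 2005) (nat_lit 138) (.e (nat_lit 671762) (nat_lit 4) (.e (nat_lit 65616) (nat_lit 10) (.e (nat_lit 344169) (nat_lit 40) (.e (nat_lit 671764) (nat_lit 6) (.e (nat_lit 81942) (nat_lit 20) .nil)))))) (.g (nat_lit 5) .nil .nil))) 
(.lf (nat_lit 88117) (.g (nat_lit 2407) (.e (nat_lit 2005) (nat_lit 138) (.e (nat_lit 671762) (nat_lit 4) (.e (nat_lit 65620) (nat_lit 10) (.e (nat_lit 344169) (nat_lit 40) (.e (nat_lit 671764) (nat_lit 6) (.e (nat_lit 81947) (nat_lit 20) .nil)))))) (.g (nat_lit 6) .nil .nil))))) (.nd (nat_lit 4) (.nd (nat_lit 5) 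
(.lf (nat_lit 88077) (.g (nat_lit 1894) (.e (nat_lit 2005) (nat_lit 138) (.e (nat_lit 671762) (nat_lit 4) (.e (nat_lit 65611) (nat_lit 10) (.e (nat_lit 344169) (nat_lit 40) (.e (nat_lit 671764) (nat_lit 6) (.e (nat_lit 81939) (nat_lit 20) .nil)))))) (.g (nat_lit 6) .nil .nil))) 
(.lf (nat_lit 88109) (.g (nat_lit 1554) (.e (nat_lit 2005) (nat_lit 138) (.e (nat_lit 671762) (nat_lit 4) (.e (nat_lit 65620) (nat_lit 10) (.e (nat_lit 344168) (nat_lit 40) (.e (nat_lit 671764) (nat_lit 6) (.e (nat_lit 81939) (nat_lit 20) .nil)))))) (.g (nat_lit 4) .nil .nil)))) (.nd (nat_lit 5) 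
(.lf (nat_lit 88093) (.g (nat_lit 2359) (.e (nat_lit 2005) (nat_lit 138) (.e (nat_lit 671762) (nat_lit 4) (.e (nat_lit 65617) (nat_lit 10) (.e (nat_lit 344168) (nat_lit 40) (.e (nat_lit 671764) (nat_lit 6) (.e (nat_lit 81946) (nat_lit 20) .nil)))))) (.g (nat_lit 5) .nil .nil))) 
(.lf (nat_lit 88125) (.g (nat_lit 2590) (.e (nat_lit 2005) (nat_lit 138) (.e (nat_lit 671762) (nat_lit 4) (.e (nat_lit 65622) (nat_lit 12) (.e (nat_lit 385094) (nat_lit 49) (.e (nat_lit 778326) (nat_lit 6) (.e (nat_lit 81938) (nat_lit 20) .nil)))))) (.g (nat_lit 6) .nil .nil))))))) (.nd (nat_lit 2) (.nd (nat_lit 3) (.nd (nat_lit 4) (.nd (nat_lit 5) 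
(.lf (nat_lit 88067) (.g (nat_lit 2820) (.e (nat_lit 2005) (nat_lit 138) (.e (nat_lit 671762) (nat_lit 4) (.e (nat_lit 65610) (nat_lit 10) (.e (nat_lit 344168) (nat_lit 40) (.e (nat_lit 671764) (nat_lit 6) (.e (nat_lit 81947) (nat_lit 20) .nil)))))) (.g (nat_lit 6) .nil .nil))) 
(.lf (nat_lit 88099) (.g (nat_lit 1979) (.e (nat_lit 2005) (nat_lit 138) (.e (nat_lit 671762) (nat_lit 4) (.e (nat_lit 65619) (nat_lit 10) (.e (nat_lit 344097) (nat_lit 18) (.e (nat_lit 5906) (nat_lit 320) (.e (nat_lit 1221) (nat_lit 90) (.e (nat_lit 81939) (nat_lit 20) .nil))))))) (.g (nat_lit 4) .nil .nil)))) (.nd (nat_lit 5) 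
(.lf (nat_lit 88083) (.g (nat_lit 2292) (.e (nat_lit 2005) (nat_lit 138) (.e (nat_lit 671762) (nat_lit 4) (.e (nat_lit 65616) (nat_lit 10) (.e (nat_lit 344169) (nat_lit 40) (.e (nat_lit 671764) (nat_lit 6) (.e (nat_lit 81938) (nat_lit 20) .nil)))))) (.g (nat_lit 6) .nil .nil))) 
(.lf (nat_lit 88115) (.g (nat_lit 1645) (.e (nat_lit 2005) (nat_lit 138) (.e (nat_lit 671762) (nat_lit 4) (.e (nat_lit 65620) (nat_lit 10) (.e (nat_lit 344169) (nat_lit 40) (.e (nat_lit 671764) (nat_lit 6) (.e (nat_lit 81942) (nat_lit 20) .nil)))))) (.g (nat_lit 4) .nil .nil))))) (.nd (nat_lit 4) (.nd (nat_lit 5) 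
(.lf (nat_lit 88075) (.g (nat_lit 2508) (.e (nat_lit 2005) (nat_lit 138) (.e (nat_lit 671762) (nat_lit 4) (.e (nat_lit 65611) (nat_lit 10) (.e (nat_lit 344168) (nat_lit 40) (.e (nat_lit 671764) (nat_lit 6) (.e (nat_lit 81947) (nat_lit 20) .nil)))))) (.g (nat_lit 6) .nil .nil))) 
(.lf (nat_lit 88107) (.g (nat_lit 2834) (.e (nat_lit 2005) (nat_lit 138) (.e (nat_lit 671762) (nat_lit 4) (.e (nat_lit 65619) (nat_lit 10) (.e (nat_lit 344169) (nat_lit 40) (.e (nat_lit 671764) (nat_lit 6) (.e (nat_lit 81947) (nat_lit 20) .nil)))))) (.g (nat_lit 0) .nil .nil)))) (.nd (nat_lit 5) 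
(.lf (nat_lit 88091) (.g (nat_lit 1854) (.e (nat_lit 2005) (nat_lit 138) (.e (nat_lit 671762) (nat_lit 4) (.e (nat_lit 65617) (nat_lit 10) (.e (nat_lit 344168) (nat_lit 40) (.e (nat_lit 671764) (nat_lit 6) (.e (nat_lit 81942) (nat_lit 20) .nil)))))) (.g (nat_lit 4) .nil .nil))) 
(.lf (nat_lit 88123) (.g (nat_lit 3007) (.e (nat_lit 2005) (nat_lit 138) (.e (nat_lit 671762) (nat_lit 4) (.e (nat_lit 65622) (nat_lit 12) (.e (nat_lit 385093) (nat_lit 49) (.e (nat_lit 778327) (nat_lit 6) (.e (nat_lit 81946) (nat_lit 20) .nil)))))) (.g (nat_lit 6) .nil .nil)))))) (.nd (nat_lit 3) (.nd (nat_lit 4) (.nd (nat_lit 5) 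
(.lf (nat_lit 88071) (.g (nat_lit 2315) (.e (nat_lit 2005) (nat_lit 138) (.e (nat_lit 671762) (nat_lit 4) (.e (nat_lit 65611) (nat_lit 10) (.e (nat_lit 344168) (nat_lit 40) (.e (nat_lit 671764) (nat_lit 6) (.e (nat_lit 81938) (nat_lit 20) .nil)))))) (.g (nat_lit 0) .nil .nil))) 
(.lf (nat_lit 88103) (.g (nat_lit 2556) (.e (nat_lit 2005) (nat_lit 138) (.e (nat_lit 671762) (nat_lit 4) (.e (nat_lit 65619) (nat_lit 10) (.e (nat_lit 344168) (nat_lit 40) (.e (nat_lit 671764) (nat_lit 6) (.e (nat_lit 81946) (nat_lit 20) .nil)))))) (.g (nat_lit 6) .nil .nil)))) (.nd (nat_lit 5) 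
(.lf (nat_lit 88087) (.g (nat_lit 1305) (.e (nat_lit 2005) (nat_lit 138) (.e (nat_lit 671762) (nat_lit 4) (.e (nat_lit 65617) (nat_lit 10) (.e (nat_lit 344091) (nat_lit 18) .nil)))) .nil)) 
(.lf (nat_lit 88119) (.g (nat_lit 1599) (.e (nat_lit 2005) (nat_lit 138) (.e (nat_lit 671762) (nat_lit 4) (.e (nat_lit 65622) (nat_lit 12) (.e (nat_lit 385092) (nat_lit 49) (.e (nat_lit 778326) (nat_lit 6) (.e (nat_lit 81943) (nat_lit 20) .nil)))))) (.g (nat_lit 4) .nil .nil))))) (.nd (nat_lit 4) (.nd (nat_lit 5) 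
(.lf (nat_lit 88079) (.g (nat_lit 2224) (.e (nat_lit 2005) (nat_lit 138) (.e (nat_lit 671762) (nat_lit 4) (.e (nat_lit 65616) (nat_lit 10) (.e (nat_lit 344168) (nat_lit 40) (.e (nat_lit 671764) (nat_lit 6) (.e (nat_lit 81938) (nat_lit 20) .nil)))))) (.g (nat_lit 6) .nil .nil))) 
(.lf (nat_lit 88111) (.g (nat_lit 1780) (.e (nat_lit 2005) (nat_lit 138) (.e (nat_lit 671762) (nat_lit 4) (.e (nat_lit 65620) (nat_lit 10) (.e (nat_lit 344168) (nat_lit 40) (.e (nat_lit 671764) (nat_lit 6) (.e (nat_lit 81943) (nat_lit 20) .nil)))))) (.g (nat_lit 4) .nil .nil)))) (.nd (nat_lit 5) 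
(.lf (nat_lit 88095) (.g (nat_lit 2116) (.e (nat_lit 2005) (nat_lit 138) (.e (nat_lit 671762) (nat_lit 4) (.e (nat_lit 65617) (nat_lit 10) (.e (nat_lit 344169) (nat_lit 40) (.e (nat_lit 671764) (nat_lit 6) (.e (nat_lit 81939) (nat_lit 20) .nil)))))) (.g (nat_lit 5) .nil .nil))) 
(.lf (nat_lit 88127) (.g (nat_lit 2317) (.e (nat_lit 2005) (nat_lit 138) (.e (nat_lit 671762) (nat_lit 4) (.e (nat_lit 65622) (nat_lit 12) (.e (nat_lit 385094) (nat_lit 49) (.e (nat_lit 778326) (nat_lit 6) (.e (nat_lit 81943) (nat_lit 20) .nil)))))) (.g (nat_lit 6) .nil .nil)))))))))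

noncomputable def tv1201 : DT := (.nd (nat_lit 0) (.nd (nat_lit 1) (.nd (nat_lit 2) (.nd (nat_lit 3) (.nd (nat_lit 4) (.nd (nat_lit 5) 
(.lf (nat_lit 88128) (.g (nat_lit 1809) (.e (nat_lit 2005) (nat_lit 138) (.e (nat_lit 671762) (nat_lit 4) (.e (nat_lit 65622) (nat_lit 12) (.e (nat_lit 385094) (nat_lit 49) (.e (nat_lit 778327) (nat_lit 6) (.e (nat_lit 81947) (nat_lit 20) .nil)))))) (.g (nat_lit 4) .nil .nil))) 
(.lf (nat_lit 88160) (.g (nat_lit 2757) (.e (nat_lit 2005) (nat_lit 138) (.e (nat_lit 671762) (nat_lit 4) (.e (nat_lit 65629) (nat_lit 14) (.e (nat_lit 401438) (nat_lit 9) (.e (nat_lit 426542) (nat_lit 29) (.e (nat_lit 352290) (nat_lit 20) .nil)))))) (.g (nat_lit 0) .nil .nil)))) (.nd (nat_lit 5) 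
(.lf (nat_lit 88144) (.g (nat_lit 2178) (.e (nat_lit 2005) (nat_lit 138) (.e (nat_lit 671762) (nat_lit 4) (.e (nat_lit 65624) (nat_lit 12) (.e (nat_lit 385093) (nat_lit 49) (.e (nat_lit 778327) (nat_lit 6) (.e (nat_lit 81947) (nat_lit 20) .nil)))))) (.g (nat_lit 4) .nil .nil))) 
(.lf (nat_lit 88176) (.g (nat_lit 1678) (.e (nat_lit 2005) (nat_lit 138) (.e (nat_lit 671763) (nat_lit 5) (.e (nat_lit 73792) (nat_lit 45) (.e (nat_lit 1386) (nat_lit 105) (.e (nat_lit 311358) (nat_lit 29) (.e (nat_lit 352296) (nat_lit 20) .nil)))))) (.g (nat_lit 0) .nil .nil))))) (.nd (nat_lit 4) (.nd (nat_lit 5) 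
(.lf (nat_lit 88136) (.g (nat_lit 442) (.e (nat_lit 2005) (nat_lit 138) (.e (nat_lit 671762) (nat_lit 4) (.e (nat_lit 65624) (nat_lit 12) .nil))) .nil)) 
(.lf (nat_lit 88168) (.g (nat_lit 3117) (.e (nat_lit 2005) (nat_lit 138) (.e (nat_lit 671762) (nat_lit 4) (.e (nat_lit 65630) (nat_lit 14) (.e (nat_lit 401438) (nat_lit 9) (.e (nat_lit 426542) (nat_lit 29) (.e (nat_lit 352290) (nat_lit 20) .nil)))))) (.g (nat_lit 0) .nil .nil)))) (.nd (nat_lit 5) 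
(.lf (nat_lit 88152) (.g (nat_lit 2487) (.e (nat_lit 2005) (nat_lit 138) (.e (nat_lit 671762) (nat_lit 4) (.e (nat_lit 65624) (nat_lit 12) (.e (nat_lit 385106) (nat_lit 50) (.e (nat_lit 786480) (nat_lit 29) (.e (nat_lit 352302) (nat_lit 20) .nil)))))) (.g (nat_lit 4) .nil .nil))) 
(.lf (nat_lit 88184) (.g (nat_lit 1663) (.e (nat_lit 2005) (nat_lit 138) (.e (nat_lit 671764) (nat_lit 6) (.e (nat_lit 81922) (nat_lit 0) (.e (nat_lit 3632) (nat_lit 227) (.e (nat_lit 778326) (nat_lit 6) (.e (nat_lit 81939) (nat_lit 20) .nil)))))) (.g (nat_lit 6) .nil .nil)))))) (.nd (nat_lit 3) (.nd (nat_lit 4) (.nd (nat_lit 5) 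
(.lf (nat_lit 88132) (.g (nat_lit 2328) (.e (nat_lit 2005) (nat_lit 138) (.e (nat_lit 671762) (nat_lit 4) (.e (nat_lit 65623) (nat_lit 12) (.e (nat_lit 385094) (nat_lit 49) (.e (nat_lit 778326) (nat_lit 6) (.e (nat_lit 81939) (nat_lit 20) .nil)))))) (.g (nat_lit 6) .nil .nil))) 
(.lf (nat_lit 88164) (.g (nat_lit 2964) (.e (nat_lit 2005) (nat_lit 138) (.e (nat_lit 671762) (nat_lit 4) (.e (nat_lit 65629) (nat_lit 14) (.e (nat_lit 401459) (nat_lit 13) (.e (nat_lit 483389) (nat_lit 23) (.e (nat_lit 335928) (nat_lit 0) .nil)))))) (.g (nat_lit 0) .nil .nil)))) (.nd (nat_lit 5) 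
(.lf (nat_lit 88148) (.g (nat_lit 2711) (.e (nat_lit 2005) (nat_lit 138) (.e (nat_lit 671762) (nat_lit 4) (.e (nat_lit 65624) (nat_lit 12) (.e (nat_lit 385094) (nat_lit 49) (.e (nat_lit 778326) (nat_lit 6) (.e (nat_lit 81943) (nat_lit 20) .nil)))))) (.g (nat_lit 0) .nil .nil))) 
(.lf (nat_lit 88180) (.g (nat_lit 1868) (.e (nat_lit 2005) (nat_lit 138) (.e (nat_lit 671764) (nat_lit 6) (.e (nat_lit 81922) (nat_lit 0) (.e (nat_lit 3631) (nat_lit 227) (.e (nat_lit 778326) (nat_lit 6) (.e (nat_lit 81938) (nat_lit 20) .nil)))))) (.g (nat_lit 6) .nil .nil))))) (.nd (nat_lit 4) (.nd (nat_lit 5) 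
(.lf (nat_lit 88140) (.g (nat_lit 2922) (.e (nat_lit 2005) (nat_lit 138) (.e (nat_lit 671762) (nat_lit 4) (.e (nat_lit 65624) (nat_lit 12) (.e (nat_lit 385093) (nat_lit 49) (.e (nat_lit 778326) (nat_lit 6) (.e (nat_lit 81938) (nat_lit 20) .nil)))))) (.g (nat_lit 0) .nil .nil))) 
(.lf (nat_lit 88172) (.g (nat_lit 3133) (.e (nat_lit 2005) (nat_lit 138) (.e (nat_lit 671762) (nat_lit 4) (.e (nat_lit 65630) (nat_lit 14) (.e (nat_lit 401459) (nat_lit 13) (.e (nat_lit 483386) (nat_lit 23) (.e (nat_lit 335928) (nat_lit 0) .nil)))))) (.g (nat_lit 0) .nil .nil)))) (.nd (nat_lit 5) 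
(.lf (nat_lit 88156) (.g (nat_lit 2811) (.e (nat_lit 2005) (nat_lit 138) (.e (nat_lit 671762) (nat_lit 4) (.e (nat_lit 65628) (nat_lit 14) (.e (nat_lit 401459) (nat_lit 13) (.e (nat_lit 483386) (nat_lit 23) (.e (nat_lit 335928) (nat_lit 0) .nil)))))) (.g (nat_lit 0) .nil .nil))) 
(.lf (nat_lit 88188) (.g (nat_lit 1740) (.e (nat_lit 2005) (nat_lit 138) (.e (nat_lit 671764) (nat_lit 6) (.e (nat_lit 81924) (nat_lit 0) (.e (nat_lit 3632) (nat_lit 227) (.e (nat_lit 778326) (nat_lit 6) (.e (nat_lit 81939) (nat_lit 20) .nil)))))) (.g (nat_lit 0) .nil .nil))))))) (.nd (nat_lit 2) (.nd (nat_lit 3) (.nd (nat_lit 4) (.nd (nat_lit 5) 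
(.lf (nat_lit 88130) (.g (nat_lit 1926) (.e (nat_lit 2005) (nat_lit 138) (.e (nat_lit 671762) (nat_lit 4) (.e (nat_lit 65623) (nat_lit 12) (.e (nat_lit 385093) (nat_lit 49) (.e (nat_lit 778327) (nat_lit 6) (.e (nat_lit 81946) (nat_lit 20) .nil)))))) (.g (nat_lit 4) .nil .nil))) 
(.lf (nat_lit 88162) (.g (nat_lit 2325) (.e (nat_lit 2005) (nat_lit 138) (.e (nat_lit 671762) (nat_lit 4) (.e (nat_lit 65629) (nat_lit 14) (.e (nat_lit 401459) (nat_lit 13) (.e (nat_lit 483387) (nat_lit 23) (.e (nat_lit 335937) (nat_lit 0) .nil)))))) (.g (nat_lit 4) .nil .nil)))) (.nd (nat_lit 5) 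
(.lf (nat_lit 88146) (.g (nat_lit 3045) (.e (nat_lit 2005) (nat_lit 138) (.e (nat_lit 671762) (nat_lit 4) (.e (nat_lit 65624) (nat_lit 12) (.e (nat_lit 385094) (nat_lit 49) (.e (nat_lit 778326) (nat_lit 6) (.e (nat_lit 81938) (nat_lit 20) .nil)))))) (.g (nat_lit 0) .nil .nil))) 
(.lf (nat_lit 88178) (.g (nat_lit 1233) (.e (nat_lit 2005) (nat_lit 138) (.e (nat_lit 671764) (nat_lit 6) (.e (nat_lit 81920) (nat_lit 0) (.e (nat_lit 3715) (nat_lit 227) (.e (nat_lit 778325) (nat_lit 6) (.e (nat_lit 81943) (nat_lit 20) .nil)))))) (.g (nat_lit 6) .nil .nil))))) (.nd (nat_lit 4) (.nd (nat_lit 5) 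
(.lf (nat_lit 88138) (.g (nat_lit 2438) (.e (nat_lit 2005) (nat_lit 138) (.e (nat_lit 671762) (nat_lit 4) (.e (nat_lit 65624) (nat_lit 12) (.e (nat_lit 385092) (nat_lit 49) (.e (nat_lit 778326) (nat_lit 6) (.e (nat_lit 81943) (nat_lit 20) .nil)))))) (.g (nat_lit 0) .nil .nil))) 
(.lf (nat_lit 88170) (.g (nat_lit 2645) (.e (nat_lit 2005) (nat_lit 138) (.e (nat_lit 671762) (nat_lit 4) (.e (nat_lit 65630) (nat_lit 14) (.e (nat_lit 401444) (nat_lit 9) (.e (nat_lit 426541) (nat_lit 29) .nil))))) .nil))) (.nd (nat_lit 5) 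
(.lf (nat_lit 88154) (.g (nat_lit 2876) (.e (nat_lit 2005) (nat_lit 138) (.e (nat_lit 671762) (nat_lit 4) (.e (nat_lit 65628) (nat_lit 14) (.e (nat_lit 401437) (nat_lit 9) (.e (nat_lit 426542) (nat_lit 29) (.e (nat_lit 352290) (nat_lit 20) .nil)))))) (.g (nat_lit 0) .nil .nil))) 
(.lf (nat_lit 88186) (.g (nat_lit 1038) (.e (nat_lit 2005) (nat_lit 138) (.e (nat_lit 671764) (nat_lit 6) (.e (nat_lit 81924) (nat_lit 0) (.e (nat_lit 3629) (nat_lit 227) (.e (nat_lit 778326) (nat_lit 6) (.e (nat_lit 81939) (nat_lit 20) .nil)))))) (.g (nat_lit 6) .nil .nil)))))) (.nd (nat_lit 3) (.nd (nat_lit 4) (.nd (nat_lit 5) 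
(.lf (nat_lit 88134) (.g (nat_lit 2681) (.e (nat_lit 2005) (nat_lit 138) (.e (nat_lit 671762) (nat_lit 4) (.e (nat_lit 65623) (nat_lit 12) (.e (nat_lit 385094) (nat_lit 49) (.e (nat_lit 778327) (nat_lit 6) (.e (nat_lit 81946) (nat_lit 20) .nil)))))) (.g (nat_lit 0) .nil .nil))) 
(.lf (nat_lit 88166) (.g (nat_lit 2825) (.e (nat_lit 2005) (nat_lit 138) (.e (nat_lit 671762) (nat_lit 4) (.e (nat_lit 65630) (nat_lit 14) (.e (nat_lit 401436) (nat_lit 9) (.e (nat_lit 426542) (nat_lit 29) (.e (nat_lit 352290) (nat_lit 20) .nil)))))) (.g (nat_lit 0) .nil .nil)))) (.nd (nat_lit 5) 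
(.lf (nat_lit 88150) (.g (nat_lit 2051) (.e (nat_lit 2005) (nat_lit 138) (.e (nat_lit 671762) (nat_lit 4) (.e (nat_lit 65624) (nat_lit 12) (.e (nat_lit 385094) (nat_lit 49) (.e (nat_lit 778327) (nat_lit 6) (.e (nat_lit 81947) (nat_lit 20) .nil)))))) (.g (nat_lit 4) .nil .nil))) 
(.lf (nat_lit 88182) (.g (nat_lit 1567) (.e (nat_lit 2005) (nat_lit 138) (.e (nat_lit 671764) (nat_lit 6) (.e (nat_lit 81922) (nat_lit 0) (.e (nat_lit 3631) (nat_lit 227) (.e (nat_lit 778326) (nat_lit 6) (.e (nat_lit 81943) (nat_lit 20) .nil)))))) (.g (nat_lit 6) .nil .nil))))) (.nd (nat_lit 4) (.nd (nat_lit 5) 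
(.lf (nat_lit 88142) (.g (nat_lit 2606) (.e (nat_lit 2005) (nat_lit 138) (.e (nat_lit 671762) (nat_lit 4) (.e (nat_lit 65624) (nat_lit 12) (.e (nat_lit 385093) (nat_lit 49) (.e (nat_lit 778326) (nat_lit 6) (.e (nat_lit 81943) (nat_lit 20) .nil)))))) (.g (nat_lit 0) .nil .nil))) 
(.lf (nat_lit 88174) (.g (nat_lit 1350) (.e (nat_lit 2005) (nat_lit 138) (.e (nat_lit 671763) (nat_lit 5) (.e (nat_lit 73789) (nat_lit 45) (.e (nat_lit 1385) (nat_lit 105) (.e (nat_lit 311358) (nat_lit 29) (.e (nat_lit 352296) (nat_lit 20) .nil)))))) (.g (nat_lit 0) .nil .nil)))) (.nd (nat_lit 5) 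
(.lf (nat_lit 88158) (.g (nat_lit 2831) (.e (nat_lit 2005) (nat_lit 138) (.e (nat_lit 671762) (nat_lit 4) (.e (nat_lit 65629) (nat_lit 14) (.e (nat_lit 401437) (nat_lit 9) (.e (nat_lit 426542) (nat_lit 29) (.e (nat_lit 352290) (nat_lit 20) .nil)))))) (.g (nat_lit 6) .nil .nil))) 
(.lf (nat_lit 88190) (.g (nat_lit 1890) (.e (nat_lit 2005) (nat_lit 138) (.e (nat_lit 671764) (nat_lit 6) (.e (nat_lit 81938) (nat_lit 20) (.e (nat_lit 2005) (nat_lit 138) (.e (nat_lit 671764) (nat_lit 6) (.e (nat_lit 81938) (nat_lit 20) .nil)))))) (.g (nat_lit 0) .nil .nil)))))))) (.nd (nat_lit 1) (.nd (nat_lit 2) (.nd (nat_lit 3) (.nd (nat_lit 4) (.nd (nat_lit 5) 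
(.lf (nat_lit 88129) (.g (nat_lit 1722) (.e (nat_lit 2005) (nat_lit 138) (.e (nat_lit 671762) (nat_lit 4) (.e (nat_lit 65622) (nat_lit 12) (.e (nat_lit 385106) (nat_lit 50) (.e (nat_lit 786480) (nat_lit 29) .nil))))) .nil)) 
(.lf (nat_lit 88161) (.g (nat_lit 3363) (.e (nat_lit 2005) (nat_lit 138) (.e (nat_lit 671762) (nat_lit 4) (.e (nat_lit 65629) (nat_lit 14) (.e (nat_lit 401459) (nat_lit 13) (.e (nat_lit 483386) (nat_lit 23) (.e (nat_lit 335928) (nat_lit 0) .nil)))))) (.g (nat_lit 0) .nil .nil)))) (.nd (nat_lit 5) 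
(.lf (nat_lit 88145) (.g (nat_lit 1315) (.e (nat_lit 2005) (nat_lit 138) (.e (nat_lit 671762) (nat_lit 4) (.e (nat_lit 65624) (nat_lit 12) (.e (nat_lit 385094) (nat_lit 49) .nil)))) .nil)) 
(.lf (nat_lit 88177) (.g (nat_lit 98) (.e (nat_lit 2005) (nat_lit 138) (.e (nat_lit 671763) (nat_lit 5) (.e (nat_lit 81664) (nat_lit 45) .nil))) .nil)))) (.nd (nat_lit 4) (.nd (nat_lit 5) 
(.lf (nat_lit 88137) (.g (nat_lit 2378) (.e (nat_lit 2005) (nat_lit 138) (.e (nat_lit 671762) (nat_lit 4) (.e (nat_lit 65624) (nat_lit 12) (.e (nat_lit 385092) (nat_lit 49) (.e (nat_lit 778326) (nat_lit 6) (.e (nat_lit 81939) (nat_lit 20) .nil)))))) (.g (nat_lit 5) .nil .nil))) 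
(.lf (nat_lit 88169) (.g (nat_lit 1743) (.e (nat_lit 2005) (nat_lit 138) (.e (nat_lit 671762) (nat_lit 4) (.e (nat_lit 65630) (nat_lit 14) (.e (nat_lit 401440) (nat_lit 9) .nil)))) .nil))) (.nd (nat_lit 5) 
(.lf (nat_lit 88153) (.g (nat_lit 2216) (.e (nat_lit 2005) (nat_lit 138) (.e (nat_lit 671762) (nat_lit 4) (.e (nat_lit 65628) (nat_lit 14) (.e (nat_lit 401436) (nat_lit 9) (.e (nat_lit 426542) (nat_lit 29) (.e (nat_lit 352290) (nat_lit 20) .nil)))))) (.g (nat_lit 0) .nil .nil))) 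
(.lf (nat_lit 88185) (.g (nat_lit 1561) (.e (nat_lit 2005) (nat_lit 138) (.e (nat_lit 671764) (nat_lit 6) (.e (nat_lit 81922) (nat_lit 0) (.e (nat_lit 3632) (nat_lit 227) (.e (nat_lit 778326) (nat_lit 6) (.e (nat_lit 81943) (nat_lit 20) .nil)))))) (.g (nat_lit 6) .nil .nil)))))) (.nd (nat_lit 3) (.nd (nat_lit 4) (.nd (nat_lit 5) 
(.lf (nat_lit 88133) (.g (nat_lit 2318) (.e (nat_lit 2005) (nat_lit 138) (.e (nat_lit 671762) (nat_lit 4) (.e (nat_lit 65623) (nat_lit 12) (.e (nat_lit 385094) (nat_lit 49) (.e (nat_lit 778326) (nat_lit 6) (.e (nat_lit 81943) (nat_lit 20) .nil)))))) (.g (nat_lit 0) .nil .nil))) 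
(.lf (nat_lit 88165) (.g (nat_lit 3484) (.e (nat_lit 2005) (nat_lit 138) (.e (nat_lit 671762) (nat_lit 4) (.e (nat_lit 65629) (nat_lit 14) (.e (nat_lit 401459) (nat_lit 13) (.e (nat_lit 483392) (nat_lit 23) .nil))))) .nil))) (.nd (nat_lit 5) 
(.lf (nat_lit 88149) (.g (nat_lit 3069) (.e (nat_lit 2005) (nat_lit 138) (.e (nat_lit 671762) (nat_lit 4) (.e (nat_lit 65624) (nat_lit 12) (.e (nat_lit 385094) (nat_lit 49) (.e (nat_lit 778327) (nat_lit 6) (.e (nat_lit 81946) (nat_lit 20) .nil)))))) (.g (nat_lit 0) .nil .nil))) 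
(.lf (nat_lit 88181) (.g (nat_lit 1509) (.e (nat_lit 2005) (nat_lit 138) (.e (nat_lit 671764) (nat_lit 6) (.e (nat_lit 81922) (nat_lit 0) (.e (nat_lit 3631) (nat_lit 227) (.e (nat_lit 778326) (nat_lit 6) (.e (nat_lit 81939) (nat_lit 20) .nil)))))) (.g (nat_lit 6) .nil .nil))))) (.nd (nat_lit 4) (.nd (nat_lit 5) 
(.lf (nat_lit 88141) (.g (nat_lit 2601) (.e (nat_lit 2005) (nat_lit 138) (.e (nat_lit 671762) (nat_lit 4) (.e (nat_lit 65624) (nat_lit 12) (.e (nat_lit 385093) (nat_lit 49) (.e (nat_lit 778326) (nat_lit 6) (.e (nat_lit 81939) (nat_lit 20) .nil)))))) (.g (nat_lit 6) .nil .nil))) 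
(.lf (nat_lit 88173) (.g (nat_lit 110) (.e (nat_lit 2005) (nat_lit 138) (.e (nat_lit 671763) (nat_lit 5) (.e (nat_lit 73789) (nat_lit 45) .nil))) .nil))) (.nd (nat_lit 5) 
(.lf (nat_lit 88157) (.g (nat_lit 954) (.e (nat_lit 2005) (nat_lit 138) (.e (nat_lit 671762) (nat_lit 4) (.e (nat_lit 65629) (nat_lit 14) (.e (nat_lit 401435) (nat_lit 9) .nil)))) .nil)) 
(.lf (nat_lit 88189) (.g (nat_lit 2099) (.e (nat_lit 2005) (nat_lit 138) (.e (nat_lit 671764) (nat_lit 6) (.e (nat_lit 81924) (nat_lit 0) (.e (nat_lit 3632) (nat_lit 227) (.e (nat_lit 778327) (nat_lit 6) (.e (nat_lit 81946) (nat_lit 20) .nil)))))) (.g (nat_lit 0) .nil .nil))))))) (.nd (nat_lit 2) (.nd (nat_lit 3) (.nd (nat_lit 4) (.nd (nat_lit 5) 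
(.lf (nat_lit 88131) (.g (nat_lit 2630) (.e (nat_lit 2005) (nat_lit 138) (.e (nat_lit 671762) (nat_lit 4) (.e (nat_lit 65623) (nat_lit 12) (.e (nat_lit 385094) (nat_lit 49) (.e (nat_lit 778326) (nat_lit 6) (.e (nat_lit 81938) (nat_lit 20) .nil)))))) (.g (nat_lit 0) .nil .nil))) 
(.lf (nat_lit 88163) (.g (nat_lit 2959) (.e (nat_lit 2005) (nat_lit 138) (.e (nat_lit 671762) (nat_lit 4) (.e (nat_lit 65629) (nat_lit 14) (.e (nat_lit 401459) (nat_lit 13) (.e (nat_lit 483388) (nat_lit 23) (.e (nat_lit 335928) (nat_lit 0) .nil)))))) (.g (nat_lit 4) .nil .nil)))) (.nd (nat_lit 5) 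
(.lf (nat_lit 88147) (.g (nat_lit 2729) (.e (nat_lit 2005) (nat_lit 138) (.e (nat_lit 671762) (nat_lit 4) (.e (nat_lit 65624) (nat_lit 12) (.e (nat_lit 385094) (nat_lit 49) (.e (nat_lit 778326) (nat_lit 6) (.e (nat_lit 81939) (nat_lit 20) .nil)))))) (.g (nat_lit 6) .nil .nil))) 
(.lf (nat_lit 88179) (.g (nat_lit 1045) (.e (nat_lit 2005) (nat_lit 138) (.e (nat_lit 671764) (nat_lit 6) (.e (nat_lit 81922) (nat_lit 0) (.e (nat_lit 3630) (nat_lit 227) (.e (nat_lit 778326) (nat_lit 6) (.e (nat_lit 81939) (nat_lit 20) .nil)))))) (.g (nat_lit 5) .nil .nil))))) (.nd (nat_lit 4) (.nd (nat_lit 5) 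
(.lf (nat_lit 88139) (.g (nat_lit 2214) (.e (nat_lit 2005) (nat_lit 138) (.e (nat_lit 671762) (nat_lit 4) (.e (nat_lit 65624) (nat_lit 12) (.e (nat_lit 385092) (nat_lit 49) (.e (nat_lit 778327) (nat_lit 6) .nil))))) .nil)) 
(.lf (nat_lit 88171) (.g (nat_lit 3129) (.e (nat_lit 2005) (nat_lit 138) (.e (nat_lit 671762) (nat_lit 4) (.e (nat_lit 65630) (nat_lit 14) (.e (nat_lit 401458) (nat_lit 13) (.e (nat_lit 483386) (nat_lit 23) .nil))))) .nil))) (.nd (nat_lit 5) 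
(.lf (nat_lit 88155) (.g (nat_lit 2714) (.e (nat_lit 2005) (nat_lit 138) (.e (nat_lit 671762) (nat_lit 4) (.e (nat_lit 65628) (nat_lit 14) (.e (nat_lit 401438) (nat_lit 9) (.e (nat_lit 426542) (nat_lit 29) (.e (nat_lit 352290) (nat_lit 20) .nil)))))) (.g (nat_lit 0) .nil .nil))) 
(.lf (nat_lit 88187) (.g (nat_lit 1046) (.e (nat_lit 2005) (nat_lit 138) (.e (nat_lit 671764) (nat_lit 6) (.e (nat_lit 81924) (nat_lit 0) (.e (nat_lit 3630) (nat_lit 227) (.e (nat_lit 778326) (nat_lit 6) (.e (nat_lit 81939) (nat_lit 20) .nil)))))) (.g (nat_lit 6) .nil .nil)))))) (.nd (nat_lit 3) (.nd (nat_lit 4) (.nd (nat_lit 5) 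
(.lf (nat_lit 88135) (.g (nat_lit 1659) (.e (nat_lit 2005) (nat_lit 138) (.e (nat_lit 671762) (nat_lit 4) (.e (nat_lit 65623) (nat_lit 12) (.e (nat_lit 385094) (nat_lit 49) (.e (nat_lit 778327) (nat_lit 6) (.e (nat_lit 81947) (nat_lit 20) .nil)))))) (.g (nat_lit 4) .nil .nil))) 
(.lf (nat_lit 88167) (.g (nat_lit 3273) (.e (nat_lit 2005) (nat_lit 138) (.e (nat_lit 671762) (nat_lit 4) (.e (nat_lit 65630) (nat_lit 14) (.e (nat_lit 401437) (nat_lit 9) (.e (nat_lit 426542) (nat_lit 29) (.e (nat_lit 352290) (nat_lit 20) .nil)))))) (.g (nat_lit 0) .nil .nil)))) (.nd (nat_lit 5) 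
(.lf (nat_lit 88151) (.g (nat_lit 1580) (.e (nat_lit 2005) (nat_lit 138) (.e (nat_lit 671762) (nat_lit 4) (.e (nat_lit 65624) (nat_lit 12) (.e (nat_lit 385104) (nat_lit 50) .nil)))) .nil)) 
(.lf (nat_lit 88183) (.g (nat_lit 1860) (.e (nat_lit 2005) (nat_lit 138) (.e (nat_lit 671764) (nat_lit 6) (.e (nat_lit 81922) (nat_lit 0) (.e (nat_lit 3632) (nat_lit 227) (.e (nat_lit 778326) (nat_lit 6) (.e (nat_lit 81938) (nat_lit 20) .nil)))))) (.g (nat_lit 6) .nil .nil))))) (.nd (nat_lit 4) (.nd (nat_lit 5) 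
(.lf (nat_lit 88143) (.g (nat_lit 3106) (.e (nat_lit 2005) (nat_lit 138) (.e (nat_lit 671762) (nat_lit 4) (.e (nat_lit 65624) (nat_lit 12) (.e (nat_lit 385093) (nat_lit 49) (.e (nat_lit 778327) (nat_lit 6) (.e (nat_lit 81946) (nat_lit 20) .nil)))))) (.g (nat_lit 0) .nil .nil))) 
(.lf (nat_lit 88175) (.g (nat_lit 1362) (.e (nat_lit 2005) (nat_lit 138) (.e (nat_lit 671763) (nat_lit 5) (.e (nat_lit 73792) (nat_lit 45) (.e (nat_lit 1385) (nat_lit 105) (.e (nat_lit 311358) (nat_lit 29) (.e (nat_lit 352296) (nat_lit 20) .nil)))))) (.g (nat_lit 0) .nil .nil)))) (.nd (nat_lit 5) 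
(.lf (nat_lit 88159) (.g (nat_lit 2799) (.e (nat_lit 2005) (nat_lit 138) (.e (nat_lit 671762) (nat_lit 4) (.e (nat_lit 65629) (nat_lit 14) (.e (nat_lit 401437) (nat_lit 9) (.e (nat_lit 426542) (nat_lit 29) (.e (nat_lit 352297) (nat_lit 20) .nil)))))) (.g (nat_lit 6) .nil .nil))) 
(.lf (nat_lit 88191) (.g (nat_lit 1455) (.e (nat_lit 2005) (nat_lit 138) (.e (nat_lit 671764) (nat_lit 6) (.e (nat_lit 81938) (nat_lit 20) (.e (nat_lit 2005) (nat_lit 138) (.e (nat_lit 671764) (nat_lit 6) (.e (nat_lit 81939) (nat_lit 20) .nil)))))) (.g (nat_lit 6) .nil .nil)))))))))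

noncomputable def tv1202 : DT := (.nd (nat_lit 0) (.nd (nat_lit 1) (.nd (nat_lit 2) (.nd (nat_lit 3) (.nd (nat_lit 4) (.nd (nat_lit 5) 
(.lf (nat_lit 88192) (.g (nat_lit 1498) (.e (nat_lit 2005) (nat_lit 138) (.e (nat_lit 671764) (nat_lit 6) (.e (nat_lit 81938) (nat_lit 20) (.e (nat_lit 2005) (nat_lit 138) (.e (nat_lit 671764) (nat_lit 6) (.e (nat_lit 81942) (nat_lit 20) .nil)))))) (.g (nat_lit 0) .nil .nil))) 
(.lf (nat_lit 88224) (.g (nat_lit 2546) (.e (nat_lit 2005) (nat_lit 138) (.e (nat_lit 671764) (nat_lit 6) (.e (nat_lit 81950) (nat_lit 21) (.e (nat_lit 57872) (nat_lit 264) (.e (nat_lit 1219) (nat_lit 90) (.e (nat_lit 81943) (nat_lit 20) .nil)))))) (.g (nat_lit 0) .nil .nil)))) (.nd (nat_lit 5) 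
(.lf (nat_lit 88208) (.g (nat_lit 1463) (.e (nat_lit 2005) (nat_lit 138) (.e (nat_lit 671764) (nat_lit 6) (.e (nat_lit 81946) (nat_lit 20) (.e (nat_lit 2005) (nat_lit 138) (.e (nat_lit 671764) (nat_lit 6) (.e (nat_lit 81943) (nat_lit 20) .nil)))))) (.g (nat_lit 5) .nil .nil))) 
(.lf (nat_lit 88240) (.g (nat_lit 2778) (.e (nat_lit 2006) (nat_lit 138) (.e (nat_lit 671748) (nat_lit 0) (.e (nat_lit 1559) (nat_lit 110) (.e (nat_lit 352262) (nat_lit 0) (.e (nat_lit 3632) (nat_lit 227) (.e (nat_lit 778326) (nat_lit 6) (.e (nat_lit 81943) (nat_lit 20) .nil))))))) (.g (nat_lit 0) .nil .nil))))) (.nd (nat_lit 4) (.nd (nat_lit 5) 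
(.lf (nat_lit 88200) (.g (nat_lit 1071) (.e (nat_lit 2005) (nat_lit 138) (.e (nat_lit 671764) (nat_lit 6) (.e (nat_lit 81942) (nat_lit 20) (.e (nat_lit 2006) (nat_lit 138) (.e (nat_lit 671764) (nat_lit 6) (.e (nat_lit 81942) (nat_lit 20) .nil)))))) (.g (nat_lit 0) .nil .nil))) 
(.lf (nat_lit 88232) (.g (nat_lit 857) (.e (nat_lit 2006) (nat_lit 138) (.e (nat_lit 671747) (nat_lit 0) (.e (nat_lit 1595) (nat_lit 111) (.e (nat_lit 360457) (nat_lit 0) .nil)))) .nil))) (.nd (nat_lit 5) 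
(.lf (nat_lit 88216) (.g (nat_lit 1768) (.e (nat_lit 2005) (nat_lit 138) (.e (nat_lit 671764) (nat_lit 6) (.e (nat_lit 81947) (nat_lit 20) (.e (nat_lit 2005) (nat_lit 138) (.e (nat_lit 671764) (nat_lit 6) (.e (nat_lit 81942) (nat_lit 20) .nil)))))) (.g (nat_lit 0) .nil .nil))) 
(.lf (nat_lit 88248) (.g (nat_lit 636) (.e (nat_lit 2006) (nat_lit 138) (.e (nat_lit 671748) (nat_lit 0) (.e (nat_lit 1576) (nat_lit 110) (.e (nat_lit 352270) (nat_lit 8) (.e (nat_lit 270080) (nat_lit 6) .nil))))) .nil))))) (.nd (nat_lit 3) (.nd (nat_lit 4) (.nd (nat_lit 5) 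
(.lf (nat_lit 88196) (.g (nat_lit 1188) (.e (nat_lit 2005) (nat_lit 138) (.e (nat_lit 671764) (nat_lit 6) (.e (nat_lit 81939) (nat_lit 20) (.e (nat_lit 2005) (nat_lit 138) (.e (nat_lit 671764) (nat_lit 6) (.e (nat_lit 81943) (nat_lit 20) .nil)))))) (.g (nat_lit 6) .nil .nil))) 
(.lf (nat_lit 88228) (.g (nat_lit 2895) (.e (nat_lit 2005) (nat_lit 138) (.e (nat_lit 671764) (nat_lit 6) (.e (nat_lit 81959) (nat_lit 24) (.e (nat_lit 123182) (nat_lit 264) (.e (nat_lit 1224) (nat_lit 90) (.e (nat_lit 81946) (nat_lit 20) .nil)))))) (.g (nat_lit 5) .nil .nil)))) (.nd (nat_lit 5) 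
(.lf (nat_lit 88212) (.g (nat_lit 1333) (.e (nat_lit 2005) (nat_lit 138) (.e (nat_lit 671764) (nat_lit 6) (.e (nat_lit 81946) (nat_lit 20) (.e (nat_lit 2006) (nat_lit 138) (.e (nat_lit 671764) (nat_lit 6) (.e (nat_lit 81942) (nat_lit 20) .nil)))))) (.g (nat_lit 5) .nil .nil))) 
(.lf (nat_lit 88244) (.g (nat_lit 387) (.e (nat_lit 2006) (nat_lit 138) (.e (nat_lit 671748) (nat_lit 0) (.e (nat_lit 1569) (nat_lit 110) .nil))) .nil)))) (.nd (nat_lit 4) (.nd (nat_lit 5) 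
(.lf (nat_lit 88204) (.g (nat_lit 1194) (.e (nat_lit 2005) (nat_lit 138) (.e (nat_lit 671764) (nat_lit 6) (.e (nat_lit 81943) (nat_lit 20) (.e (nat_lit 2005) (nat_lit 138) (.e (nat_lit 671764) (nat_lit 6) (.e (nat_lit 81942) (nat_lit 20) .nil)))))) (.g (nat_lit 0) .nil .nil))) 
(.lf (nat_lit 88236) (.g (nat_lit 2765) (.e (nat_lit 2006) (nat_lit 138) (.e (nat_lit 671748) (nat_lit 0) (.e (nat_lit 1256) (nat_lit 92) (.e (nat_lit 98367) (nat_lit 27) (.e (nat_lit 434248) (nat_lit 28) (.e (nat_lit 573482) (nat_lit 13) (.e (nat_lit 73472) (nat_lit 18) (.e (nat_lit 204821) (nat_lit 17) .nil)))))))) (.g (nat_lit 5) .nil .nil)))) (.nd (nat_lit 5) 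
(.lf (nat_lit 88220) (.g (nat_lit 2607) (.e (nat_lit 2005) (nat_lit 138) (.e (nat_lit 671764) (nat_lit 6) (.e (nat_lit 81949) (nat_lit 21) (.e (nat_lit 57870) (nat_lit 264) (.e (nat_lit 1220) (nat_lit 90) (.e (nat_lit 81938) (nat_lit 20) .nil)))))) (.g (nat_lit 6) .nil .nil))) 
(.lf (nat_lit 88252) (.g (nat_lit 1858) (.e (nat_lit 2006) (nat_lit 138) (.e (nat_lit 671748) (nat_lit 0) (.e (nat_lit 1586) (nat_lit 111) (.e (nat_lit 360452) (nat_lit 0) (.e (nat_lit 5905) (nat_lit 320) .nil))))) .nil)))))) (.nd (nat_lit 2) (.nd (nat_lit 3) (.nd (nat_lit 4) (.nd (nat_lit 5) 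
(.lf (nat_lit 88194) (.g (nat_lit 1535) (.e (nat_lit 2005) (nat_lit 138) (.e (nat_lit 671764) (nat_lit 6) (.e (nat_lit 81938) (nat_lit 20) (.e (nat_lit 2006) (nat_lit 138) (.e (nat_lit 671764) (nat_lit 6) (.e (nat_lit 81942) (nat_lit 20) .nil)))))) (.g (nat_lit 0) .nil .nil))) 
(.lf (nat_lit 88226) (.g (nat_lit 801) (.e (nat_lit 2005) (nat_lit 138) (.e (nat_lit 671764) (nat_lit 6) (.e (nat_lit 81957) (nat_lit 24) (.e (nat_lit 123185) (nat_lit 264) .nil)))) .nil))) (.nd (nat_lit 5) 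
(.lf (nat_lit 88210) (.g (nat_lit 1720) (.e (nat_lit 2005) (nat_lit 138) (.e (nat_lit 671764) (nat_lit 6) (.e (nat_lit 81946) (nat_lit 20) (.e (nat_lit 2006) (nat_lit 138) (.e (nat_lit 671764) (nat_lit 6) (.e (nat_lit 81938) (nat_lit 20) .nil)))))) (.g (nat_lit 6) .nil .nil))) 
(.lf (nat_lit 88242) (.g (nat_lit 564) (.e (nat_lit 2006) (nat_lit 138) (.e (nat_lit 671748) (nat_lit 0) (.e (nat_lit 1562) (nat_lit 110) (.e (nat_lit 360192) (nat_lit 4) .nil)))) .nil)))) (.nd (nat_lit 4) (.nd (nat_lit 5) 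
(.lf (nat_lit 88202) (.g (nat_lit 1193) (.e (nat_lit 2005) (nat_lit 138) (.e (nat_lit 671764) (nat_lit 6) (.e (nat_lit 81943) (nat_lit 20) (.e (nat_lit 2003) (nat_lit 138) (.e (nat_lit 671764) (nat_lit 6) (.e (nat_lit 81939) (nat_lit 20) .nil)))))) (.g (nat_lit 5) .nil .nil))) 
(.lf (nat_lit 88234) (.g (nat_lit 2319) (.e (nat_lit 2006) (nat_lit 138) (.e (nat_lit 671748) (nat_lit 0) (.e (nat_lit 1035) (nat_lit 81) (.e (nat_lit 1858) (nat_lit 124) (.e (nat_lit 557100) (nat_lit 13) (.e (nat_lit 172106) (nat_lit 10) (.e (nat_lit 434231) (nat_lit 23) (.e (nat_lit 532535) (nat_lit 9) (.e (nat_lit 335928) (nat_lit 0) .nil))))))))) (.g (nat_lit 5) .nil .nil)))) (.nd (nat_lit 5) 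
(.lf (nat_lit 88218) (.g (nat_lit 1858) (.e (nat_lit 2005) (nat_lit 138) (.e (nat_lit 671764) (nat_lit 6) (.e (nat_lit 81947) (nat_lit 20) (.e (nat_lit 2006) (nat_lit 138) (.e (nat_lit 671764) (nat_lit 6) (.e (nat_lit 81942) (nat_lit 20) .nil)))))) (.g (nat_lit 0) .nil .nil))) 
(.lf (nat_lit 88250) (.g (nat_lit 1539) (.e (nat_lit 2006) (nat_lit 138) (.e (nat_lit 671748) (nat_lit 0) (.e (nat_lit 1586) (nat_lit 111) (.e (nat_lit 360451) (nat_lit 0) (.e (nat_lit 5896) (nat_lit 320) (.e (nat_lit 7936) (nat_lit 90) (.e (nat_lit 81938) (nat_lit 20) .nil))))))) (.g (nat_lit 4) .nil .nil)))))) (.nd (nat_lit 3) (.nd (nat_lit 4) (.nd (nat_lit 5) 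
(.lf (nat_lit 88198) (.g (nat_lit 1153) (.e (nat_lit 2005) (nat_lit 138) (.e (nat_lit 671764) (nat_lit 6) (.e (nat_lit 81939) (nat_lit 20) (.e (nat_lit 2006) (nat_lit 138) (.e (nat_lit 671764) (nat_lit 6) (.e (nat_lit 81942) (nat_lit 20) .nil)))))) (.g (nat_lit 0) .nil .nil))) 
(.lf (nat_lit 88230) (.g (nat_lit 91) (.e (nat_lit 2006) (nat_lit 138) (.e (nat_lit 671744) (nat_lit 0) (.e (nat_lit 1615) (nat_lit 113) .nil))) .nil))) (.nd (nat_lit 5) 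
(.lf (nat_lit 88214) (.g (nat_lit 1725) (.e (nat_lit 2005) (nat_lit 138) (.e (nat_lit 671764) (nat_lit 6) (.e (nat_lit 81946) (nat_lit 20) (.e (nat_lit 2006) (nat_lit 138) (.e (nat_lit 671764) (nat_lit 6) (.e (nat_lit 81946) (nat_lit 20) .nil)))))) (.g (nat_lit 6) .nil .nil))) 
(.lf (nat_lit 88246) (.g (nat_lit 596) (.e (nat_lit 2006) (nat_lit 138) (.e (nat_lit 671748) (nat_lit 0) (.e (nat_lit 1575) (nat_lit 110) (.e (nat_lit 352258) (nat_lit 0) .nil)))) .nil)))) (.nd (nat_lit 4) (.nd (nat_lit 5) 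
(.lf (nat_lit 88206) (.g (nat_lit 1374) (.e (nat_lit 2005) (nat_lit 138) (.e (nat_lit 671764) (nat_lit 6) (.e (nat_lit 81946) (nat_lit 20) (.e (nat_lit 2005) (nat_lit 138) (.e (nat_lit 671764) (nat_lit 6) (.e (nat_lit 81939) (nat_lit 20) .nil)))))) (.g (nat_lit 5) .nil .nil))) 
(.lf (nat_lit 88238) (.g (nat_lit 463) (.e (nat_lit 2006) (nat_lit 138) (.e (nat_lit 671748) (nat_lit 0) (.e (nat_lit 1449) (nat_lit 108) .nil))) .nil))) (.nd (nat_lit 5) 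
(.lf (nat_lit 88222) (.g (nat_lit 1828) (.e (nat_lit 2005) (nat_lit 138) (.e (nat_lit 671764) (nat_lit 6) (.e (nat_lit 81949) (nat_lit 21) (.e (nat_lit 57872) (nat_lit 264) (.e (nat_lit 1219) (nat_lit 90) (.e (nat_lit 81943) (nat_lit 20) .nil)))))) (.g (nat_lit 5) .nil .nil))) 
(.lf (nat_lit 88254) (.g (nat_lit 947) (.e (nat_lit 2006) (nat_lit 138) (.e (nat_lit 671748) (nat_lit 0) (.e (nat_lit 1586) (nat_lit 111) (.e (nat_lit 360456) (nat_lit 0) .nil)))) .nil))))))) (.nd (nat_lit 1) (.nd (nat_lit 2) (.nd (nat_lit 3) (.nd (nat_lit 4) (.nd (nat_lit 5) 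
(.lf (nat_lit 88193) (.g (nat_lit 1817) (.e (nat_lit 2005) (nat_lit 138) (.e (nat_lit 671764) (nat_lit 6) (.e (nat_lit 81938) (nat_lit 20) (.e (nat_lit 2005) (nat_lit 138) (.e (nat_lit 671764) (nat_lit 6) (.e (nat_lit 81946) (nat_lit 20) .nil)))))) (.g (nat_lit 6) .nil .nil))) 
(.lf (nat_lit 88225) (.g (nat_lit 2897) (.e (nat_lit 2005) (nat_lit 138) (.e (nat_lit 671764) (nat_lit 6) (.e (nat_lit 81950) (nat_lit 21) (.e (nat_lit 57873) (nat_lit 264) (.e (nat_lit 1221) (nat_lit 90) (.e (nat_lit 81947) (nat_lit 20) .nil)))))) (.g (nat_lit 0) .nil .nil)))) (.nd (nat_lit 5) 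
(.lf (nat_lit 88209) (.g (nat_lit 2061) (.e (nat_lit 2005) (nat_lit 138) (.e (nat_lit 671764) (nat_lit 6) (.e (nat_lit 81946) (nat_lit 20) (.e (nat_lit 2005) (nat_lit 138) (.e (nat_lit 671764) (nat_lit 6) (.e (nat_lit 81947) (nat_lit 20) .nil)))))) (.g (nat_lit 6) .nil .nil))) 
(.lf (nat_lit 88241) (.g (nat_lit 2991) (.e (nat_lit 2006) (nat_lit 138) (.e (nat_lit 671748) (nat_lit 0) (.e (nat_lit 1559) (nat_lit 110) (.e (nat_lit 352262) (nat_lit 0) (.e (nat_lit 3632) (nat_lit 227) (.e (nat_lit 778327) (nat_lit 6) (.e (nat_lit 81946) (nat_lit 20) .nil))))))) (.g (nat_lit 0) .nil .nil))))) (.nd (nat_lit 4) (.nd (nat_lit 5) 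
(.lf (nat_lit 88201) (.g (nat_lit 1173) (.e (nat_lit 2005) (nat_lit 138) (.e (nat_lit 671764) (nat_lit 6) (.e (nat_lit 81942) (nat_lit 20) (.e (nat_lit 2006) (nat_lit 138) (.e (nat_lit 671764) (nat_lit 6) (.e (nat_lit 81943) (nat_lit 20) .nil)))))) (.g (nat_lit 0) .nil .nil))) 
(.lf (nat_lit 88233) (.g (nat_lit 2462) (.e (nat_lit 2006) (nat_lit 138) (.e (nat_lit 671748) (nat_lit 0) (.e (nat_lit 1027) (nat_lit 81) (.e (nat_lit 1858) (nat_lit 124) (.e (nat_lit 557100) (nat_lit 13) (.e (nat_lit 172106) (nat_lit 10) (.e (nat_lit 434231) (nat_lit 23) (.e (nat_lit 532535) (nat_lit 9) (.e (nat_lit 335928) (nat_lit 0) .nil))))))))) (.g (nat_lit 5) .nil .nil)))) (.nd (nat_lit 5) 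
(.lf (nat_lit 88217) (.g (nat_lit 1857) (.e (nat_lit 2005) (nat_lit 138) (.e (nat_lit 671764) (nat_lit 6) (.e (nat_lit 81947) (nat_lit 20) (.e (nat_lit 2005) (nat_lit 138) (.e (nat_lit 671764) (nat_lit 6) (.e (nat_lit 81943) (nat_lit 20) .nil)))))) (.g (nat_lit 0) .nil .nil))) 
(.lf (nat_lit 88249) (.g (nat_lit 2147) (.e (nat_lit 2006) (nat_lit 138) (.e (nat_lit 671748) (nat_lit 0) (.e (nat_lit 1586) (nat_lit 111) (.e (nat_lit 360450) (nat_lit 0) (.e (nat_lit 5898) (nat_lit 320) (.e (nat_lit 7936) (nat_lit 90) (.e (nat_lit 81939) (nat_lit 20) .nil))))))) (.g (nat_lit 5) .nil .nil)))))) (.nd (nat_lit 3) (.nd (nat_lit 4) (.nd (nat_lit 5) 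
(.lf (nat_lit 88197) (.g (nat_lit 1445) (.e (nat_lit 2005) (nat_lit 138) (.e (nat_lit 671764) (nat_lit 6) (.e (nat_lit 81939) (nat_lit 20) (.e (nat_lit 2006) (nat_lit 138) (.e (nat_lit 671764) (nat_lit 6) (.e (nat_lit 81938) (nat_lit 20) .nil)))))) (.g (nat_lit 6) .nil .nil))) 
(.lf (nat_lit 88229) (.g (nat_lit 2184) (.e (nat_lit 2005) (nat_lit 138) (.e (nat_lit 671764) (nat_lit 6) (.e (nat_lit 81959) (nat_lit 24) (.e (nat_lit 123185) (nat_lit 264) (.e (nat_lit 1224) (nat_lit 90) (.e (nat_lit 81947) (nat_lit 20) .nil)))))) (.g (nat_lit 0) .nil .nil)))) (.nd (nat_lit 5) 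
(.lf (nat_lit 88213) (.g (nat_lit 1443) (.e (nat_lit 2005) (nat_lit 138) (.e (nat_lit 671764) (nat_lit 6) (.e (nat_lit 81946) (nat_lit 20) (.e (nat_lit 2006) (nat_lit 138) (.e (nat_lit 671764) (nat_lit 6) (.e (nat_lit 81943) (nat_lit 20) .nil)))))) (.g (nat_lit 5) .nil .nil))) 
(.lf (nat_lit 88245) (.g (nat_lit 3592) (.e (nat_lit 2006) (nat_lit 138) (.e (nat_lit 671748) (nat_lit 0) (.e (nat_lit 1572) (nat_lit 110) (.e (nat_lit 352318) (nat_lit 24) (.e (nat_lit 123182) (nat_lit 264) (.e (nat_lit 1222) (nat_lit 90) (.e (nat_lit 81943) (nat_lit 20) .nil))))))) (.g (nat_lit 7) .nil .nil))))) (.nd (nat_lit 4) (.nd (nat_lit 5) 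
(.lf (nat_lit 88205) (.g (nat_lit 1271) (.e (nat_lit 2005) (nat_lit 138) (.e (nat_lit 671764) (nat_lit 6) (.e (nat_lit 81943) (nat_lit 20) (.e (nat_lit 2006) (nat_lit 138) (.e (nat_lit 671764) (nat_lit 6) (.e (nat_lit 81942) (nat_lit 20) .nil)))))) (.g (nat_lit 0) .nil .nil))) 
(.lf (nat_lit 88237) (.g (nat_lit 464) (.e (nat_lit 2006) (nat_lit 138) (.e (nat_lit 671748) (nat_lit 0) (.e (nat_lit 1424) (nat_lit 108) .nil))) .nil))) (.nd (nat_lit 5) 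
(.lf (nat_lit 88221) (.g (nat_lit 2658) (.e (nat_lit 2005) (nat_lit 138) (.e (nat_lit 671764) (nat_lit 6) (.e (nat_lit 81949) (nat_lit 21) (.e (nat_lit 57870) (nat_lit 264) (.e (nat_lit 1221) (nat_lit 90) (.e (nat_lit 81938) (nat_lit 20) .nil)))))) (.g (nat_lit 6) .nil .nil))) 
(.lf (nat_lit 88253) (.g (nat_lit 1114) (.e (nat_lit 2006) (nat_lit 138) (.e (nat_lit 671748) (nat_lit 0) (.e (nat_lit 1586) (nat_lit 111) (.e (nat_lit 360455) (nat_lit 0) .nil)))) .nil)))))) (.nd (nat_lit 2) (.nd (nat_lit 3) (.nd (nat_lit 4) (.nd (nat_lit 5) 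
(.lf (nat_lit 88195) (.g (nat_lit 1104) (.e (nat_lit 2005) (nat_lit 138) (.e (nat_lit 671764) (nat_lit 6) (.e (nat_lit 81939) (nat_lit 20) (.e (nat_lit 2005) (nat_lit 138) (.e (nat_lit 671764) (nat_lit 6) (.e (nat_lit 81939) (nat_lit 20) .nil)))))) (.g (nat_lit 6) .nil .nil))) 
(.lf (nat_lit 88227) (.g (nat_lit 2391) (.e (nat_lit 2005) (nat_lit 138) (.e (nat_lit 671764) (nat_lit 6) (.e (nat_lit 81957) (nat_lit 24) (.e (nat_lit 123185) (nat_lit 264) (.e (nat_lit 1224) (nat_lit 90) (.e (nat_lit 81947) (nat_lit 20) .nil)))))) (.g (nat_lit 0) .nil .nil)))) (.nd (nat_lit 5) 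
(.lf (nat_lit 88211) (.g (nat_lit 1347) (.e (nat_lit 2005) (nat_lit 138) (.e (nat_lit 671764) (nat_lit 6) (.e (nat_lit 81946) (nat_lit 20) (.e (nat_lit 2006) (nat_lit 138) (.e (nat_lit 671764) (nat_lit 6) (.e (nat_lit 81939) (nat_lit 20) .nil)))))) (.g (nat_lit 5) .nil .nil))) 
(.lf (nat_lit 88243) (.g (nat_lit 2500) (.e (nat_lit 2006) (nat_lit 138) (.e (nat_lit 671748) (nat_lit 0) (.e (nat_lit 1562) (nat_lit 110) (.e (nat_lit 352309) (nat_lit 21) (.e (nat_lit 57872) (nat_lit 264) (.e (nat_lit 1219) (nat_lit 90) (.e (nat_lit 81943) (nat_lit 20) .nil))))))) (.g (nat_lit 6) .nil .nil))))) (.nd (nat_lit 4) (.nd (nat_lit 5) 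
(.lf (nat_lit 88203) (.g (nat_lit 1112) (.e (nat_lit 2005) (nat_lit 138) (.e (nat_lit 671764) (nat_lit 6) (.e (nat_lit 81943) (nat_lit 20) (.e (nat_lit 2004) (nat_lit 138) (.e (nat_lit 671764) (nat_lit 6) (.e (nat_lit 81939) (nat_lit 20) .nil)))))) (.g (nat_lit 5) .nil .nil))) 
(.lf (nat_lit 88235) (.g (nat_lit 4323) (.e (nat_lit 2006) (nat_lit 138) (.e (nat_lit 671748) (nat_lit 0) (.e (nat_lit 1047) (nat_lit 81) (.e (nat_lit 1858) (nat_lit 124) (.e (nat_lit 557100) (nat_lit 13) (.e (nat_lit 172106) (nat_lit 10) (.e (nat_lit 434231) (nat_lit 23) (.e (nat_lit 532535) (nat_lit 9) (.e (nat_lit 335925) (nat_lit 0) .nil))))))))) (.g (nat_lit 6) .nil .nil)))) (.nd (nat_lit 5) 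
(.lf (nat_lit 88219) (.g (nat_lit 1989) (.e (nat_lit 2005) (nat_lit 138) (.e (nat_lit 671764) (nat_lit 6) (.e (nat_lit 81947) (nat_lit 20) (.e (nat_lit 2006) (nat_lit 138) (.e (nat_lit 671764) (nat_lit 6) (.e (nat_lit 81943) (nat_lit 20) .nil)))))) (.g (nat_lit 0) .nil .nil))) 
(.lf (nat_lit 88251) (.g (nat_lit 1703) (.e (nat_lit 2006) (nat_lit 138) (.e (nat_lit 671748) (nat_lit 0) (.e (nat_lit 1586) (nat_lit 111) (.e (nat_lit 360451) (nat_lit 0) (.e (nat_lit 5898) (nat_lit 320) (.e (nat_lit 7936) (nat_lit 90) (.e (nat_lit 81946) (nat_lit 20) .nil))))))) (.g (nat_lit 4) .nil .nil)))))) (.nd (nat_lit 3) (.nd (nat_lit 4) (.nd (nat_lit 5) 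
(.lf (nat_lit 88199) (.g (nat_lit 1084) (.e (nat_lit 2005) (nat_lit 138) (.e (nat_lit 671764) (nat_lit 6) (.e (nat_lit 81942) (nat_lit 20) (.e (nat_lit 2005) (nat_lit 138) (.e (nat_lit 671764) (nat_lit 6) (.e (nat_lit 81942) (nat_lit 20) .nil)))))) (.g (nat_lit 0) .nil .nil))) 
(.lf (nat_lit 88231) (.g (nat_lit 752) (.e (nat_lit 2006) (nat_lit 138) (.e (nat_lit 671747) (nat_lit 0) (.e (nat_lit 1586) (nat_lit 111) (.e (nat_lit 360486) (nat_lit 18) .nil)))) .nil))) (.nd (nat_lit 5) 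
(.lf (nat_lit 88215) (.g (nat_lit 2026) (.e (nat_lit 2005) (nat_lit 138) (.e (nat_lit 671764) (nat_lit 6) (.e (nat_lit 81946) (nat_lit 20) (.e (nat_lit 2006) (nat_lit 138) (.e (nat_lit 671764) (nat_lit 6) (.e (nat_lit 81947) (nat_lit 20) .nil)))))) (.g (nat_lit 6) .nil .nil))) 
(.lf (nat_lit 88247) (.g (nat_lit 552) (.e (nat_lit 2006) (nat_lit 138) (.e (nat_lit 671748) (nat_lit 0) (.e (nat_lit 1576) (nat_lit 110) (.e (nat_lit 360192) (nat_lit 4) .nil)))) .nil)))) (.nd (nat_lit 4) (.nd (nat_lit 5) 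
(.lf (nat_lit 88207) (.g (nat_lit 1410) (.e (nat_lit 2005) (nat_lit 138) (.e (nat_lit 671764) (nat_lit 6) (.e (nat_lit 81946) (nat_lit 20) (.e (nat_lit 2005) (nat_lit 138) (.e (nat_lit 671764) (nat_lit 6) (.e (nat_lit 81942) (nat_lit 20) .nil)))))) (.g (nat_lit 5) .nil .nil))) 
(.lf (nat_lit 88239) (.g (nat_lit 400) (.e (nat_lit 2006) (nat_lit 138) (.e (nat_lit 671748) (nat_lit 0) (.e (nat_lit 1559) (nat_lit 110) .nil))) .nil))) (.nd (nat_lit 5) 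
(.lf (nat_lit 88223) (.g (nat_lit 2281) (.e (nat_lit 2005) (nat_lit 138) (.e (nat_lit 671764) (nat_lit 6) (.e (nat_lit 81949) (nat_lit 21) (.e (nat_lit 57873) (nat_lit 264) (.e (nat_lit 1219) (nat_lit 90) (.e (nat_lit 81946) (nat_lit 20) .nil)))))) (.g (nat_lit 5) .nil .nil))) 
(.lf (nat_lit 88255) (.g (nat_lit 1012) (.e (nat_lit 2006) (nat_lit 138) (.e (nat_lit 671748) (nat_lit 0) (.e (nat_lit 1586) (nat_lit 111) (.e (nat_lit 368384) (nat_lit 0) .nil)))) .nil))))))))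

noncomputable def tv1203 : DT := (.nd (nat_lit 0) (.nd (nat_lit 1) (.nd (nat_lit 2) (.nd (nat_lit 3) (.nd (nat_lit 4) (.nd (nat_lit 5) 
(.lf (nat_lit 88256) (.g (nat_lit 1371) (.e (nat_lit 2006) (nat_lit 138) (.e (nat_lit 671748) (nat_lit 0) (.e (nat_lit 1586) (nat_lit 111) (.e (nat_lit 360486) (nat_lit 18) (.e (nat_lit 679680) (nat_lit 6) .nil))))) .nil)) 
(.lf (nat_lit 88288) (.g (nat_lit 3625) (.e (nat_lit 2006) (nat_lit 138) (.e (nat_lit 671759) (nat_lit 3) (.e (nat_lit 57479) (nat_lit 28) (.e (nat_lit 557095) (nat_lit 13) (.e (nat_lit 172097) (nat_lit 9) .nil))))) .nil))) (.nd (nat_lit 5) 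
(.lf (nat_lit 88272) (.g (nat_lit 2577) (.e (nat_lit 2006) (nat_lit 138) (.e (nat_lit 671757) (nat_lit 3) (.e (nat_lit 57474) (nat_lit 28) (.e (nat_lit 557100) (nat_lit 13) (.e (nat_lit 172106) (nat_lit 10) (.e (nat_lit 434231) (nat_lit 23) (.e (nat_lit 532535) (nat_lit 9) (.e (nat_lit 335928) (nat_lit 0) .nil)))))))) (.g (nat_lit 5) .nil .nil))) 
(.lf (nat_lit 88304) (.g (nat_lit 3084) (.e (nat_lit 2006) (nat_lit 138) (.e (nat_lit 671759) (nat_lit 3) (.e (nat_lit 57479) (nat_lit 28) (.e (nat_lit 557098) (nat_lit 13) (.e (nat_lit 172094) (nat_lit 9) .nil))))) .nil)))) (.nd (nat_lit 4) (.nd (nat_lit 5) 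
(.lf (nat_lit 88264) (.g (nat_lit 864) (.e (nat_lit 2006) (nat_lit 138) (.e (nat_lit 671748) (nat_lit 0) (.e (nat_lit 1595) (nat_lit 111) (.e (nat_lit 360457) (nat_lit 0) .nil)))) .nil)) 
(.lf (nat_lit 88296) (.g (nat_lit 3412) (.e (nat_lit 2006) (nat_lit 138) (.e (nat_lit 671759) (nat_lit 3) (.e (nat_lit 57479) (nat_lit 28) (.e (nat_lit 557095) (nat_lit 13) (.e (nat_lit 172115) (nat_lit 10) (.e (nat_lit 434231) (nat_lit 23) (.e (nat_lit 532535) (nat_lit 9) (.e (nat_lit 335886) (nat_lit 0) .nil)))))))) (.g (nat_lit 4) .nil .nil)))) (.nd (nat_lit 5) 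
(.lf (nat_lit 88280) (.g (nat_lit 3807) (.e (nat_lit 2006) (nat_lit 138) (.e (nat_lit 671759) (nat_lit 3) (.e (nat_lit 57474) (nat_lit 28) (.e (nat_lit 557108) (nat_lit 15) (.e (nat_lit 188452) (nat_lit 23) (.e (nat_lit 204855) (nat_lit 26) (.e (nat_lit 335928) (nat_lit 0) .nil))))))) (.g (nat_lit 5) .nil .nil))) 
(.lf (nat_lit 88312) (.g (nat_lit 2727) (.e (nat_lit 2006) (nat_lit 138) (.e (nat_lit 671759) (nat_lit 3) (.e (nat_lit 57479) (nat_lit 28) (.e (nat_lit 557099) (nat_lit 13) (.e (nat_lit 172115) (nat_lit 10) (.e (nat_lit 434231) (nat_lit 23) (.e (nat_lit 532535) (nat_lit 9) (.e (nat_lit 335928) (nat_lit 0) .nil)))))))) (.g (nat_lit 4) .nil .nil)))))) 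
(.nd (nat_lit 3) (.nd (nat_lit 4) (.nd (nat_lit 5) 
(.lf (nat_lit 88260) (.g (nat_lit 400) (.e (nat_lit 2006) (nat_lit 138) (.e (nat_lit 671748) (nat_lit 0) (.e (nat_lit 1592) (nat_lit 111) .nil))) .nil)) 
(.lf (nat_lit 88292) (.g (nat_lit 3742) (.e (nat_lit 2006) (nat_lit 138) (.e (nat_lit 671759) (nat_lit 3) (.e (nat_lit 57479) (nat_lit 28) (.e (nat_lit 557095) (nat_lit 13) (.e (nat_lit 172097) (nat_lit 9) (.e (nat_lit 426125) (nat_lit 2) (.e (nat_lit 196666) (nat_lit 13) (.e (nat_lit 65558) (nat_lit 0) .nil)))))))) (.g (nat_lit 4) .nil .nil)))) (.nd (nat_lit 5) 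
(.lf (nat_lit 88276) (.g (nat_lit 5236) (.e (nat_lit 2006) (nat_lit 138) (.e (nat_lit 671757) (nat_lit 3) (.e (nat_lit 57476) (nat_lit 28) (.e (nat_lit 557097) (nat_lit 13) (.e (nat_lit 172115) (nat_lit 10) (.e (nat_lit 434231) (nat_lit 23) (.e (nat_lit 532535) (nat_lit 9) (.e (nat_lit 335925) (nat_lit 0) .nil)))))))) (.g (nat_lit 8) .nil .nil))) 
(.lf (nat_lit 88308) (.g (nat_lit 4442) (.e (nat_lit 2006) (nat_lit 138) (.e (nat_lit 671759) (nat_lit 3) (.e (nat_lit 57479) (nat_lit 28) (.e (nat_lit 557098) (nat_lit 13) (.e (nat_lit 172115) (nat_lit 10) (.e (nat_lit 434231) (nat_lit 23) (.e (nat_lit 532535) (nat_lit 9) (.e (nat_lit 335928) (nat_lit 0) .nil)))))))) (.g (nat_lit 6) .nil .nil))))) (.nd (nat_lit 4) (.nd (nat_lit 5) 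
(.lf (nat_lit 88268) (.g (nat_lit 1553) (.e (nat_lit 2006) (nat_lit 138) (.e (nat_lit 671748) (nat_lit 0) (.e (nat_lit 1598) (nat_lit 111) (.e (nat_lit 360452) (nat_lit 0) (.e (nat_lit 5905) (nat_lit 320) (.e (nat_lit 1221) (nat_lit 90) (.e (nat_lit 81939) (nat_lit 20) .nil))))))) (.g (nat_lit 4) .nil .nil))) 
(.lf (nat_lit 88300) (.g (nat_lit 3635) (.e (nat_lit 2006) (nat_lit 138) (.e (nat_lit 671759) (nat_lit 3) (.e (nat_lit 57479) (nat_lit 28) (.e (nat_lit 557097) (nat_lit 13) (.e (nat_lit 172097) (nat_lit 9) (.e (nat_lit 426125) (nat_lit 2) (.e (nat_lit 196666) (nat_lit 13) (.e (nat_lit 65546) (nat_lit 0) .nil)))))))) (.g (nat_lit 5) .nil .nil)))) (.nd (nat_lit 5) 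
(.lf (nat_lit 88284) (.g (nat_lit 5513) (.e (nat_lit 2006) (nat_lit 138) (.e (nat_lit 671759) (nat_lit 3) (.e (nat_lit 57478) (nat_lit 28) (.e (nat_lit 557098) (nat_lit 13) (.e (nat_lit 172115) (nat_lit 10) (.e (nat_lit 434231) (nat_lit 23) (.e (nat_lit 532535) (nat_lit 9) (.e (nat_lit 335925) (nat_lit 0) .nil)))))))) (.g (nat_lit 8) .nil .nil))) 
(.lf (nat_lit 88316) (.g (nat_lit 3809) (.e (nat_lit 2006) (nat_lit 138) (.e (nat_lit 671759) (nat_lit 3) (.e (nat_lit 57479) (nat_lit 28) (.e (nat_lit 557101) (nat_lit 13) (.e (nat_lit 172097) (nat_lit 9) (.e (nat_lit 426140) (nat_lit 3) (.e (nat_lit 204855) (nat_lit 26) (.e (nat_lit 335925) (nat_lit 0) .nil)))))))) (.g (nat_lit 6) .nil .nil))))))) 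
(.nd (nat_lit 2) (.nd (nat_lit 3) (.nd (nat_lit 4) (.nd (nat_lit 5) 
(.lf (nat_lit 88258) (.g (nat_lit 937) (.e (nat_lit 2006) (nat_lit 138) (.e (nat_lit 671748) (nat_lit 0) (.e (nat_lit 1589) (nat_lit 111) (.e (nat_lit 368384) (nat_lit 0) .nil)))) .nil)) 
(.lf (nat_lit 88290) (.g (nat_lit 4248) (.e (nat_lit 2006) (nat_lit 138) (.e (nat_lit 671759) (nat_lit 3) (.e (nat_lit 57479) (nat_lit 28) (.e (nat_lit 557095) (nat_lit 13) (.e (nat_lit 172097) (nat_lit 9) (.e (nat_lit 426125) (nat_lit 2) (.e (nat_lit 196666) (nat_lit 13) (.e (nat_lit 65547) (nat_lit 0) .nil)))))))) (.g (nat_lit 5) .nil .nil)))) (.nd (nat_lit 5) 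
(.lf (nat_lit 88274) (.g (nat_lit 3701) (.e (nat_lit 2006) (nat_lit 138) (.e (nat_lit 671757) (nat_lit 3) (.e (nat_lit 57474) (nat_lit 28) (.e (nat_lit 557108) (nat_lit 15) (.e (nat_lit 188449) (nat_lit 22) (.e (nat_lit 196666) (nat_lit 13) (.e (nat_lit 65553) (nat_lit 0) .nil))))))) (.g (nat_lit 7) .nil .nil))) 
(.lf (nat_lit 88306) (.g (nat_lit 4278) (.e (nat_lit 2006) (nat_lit 138) (.e (nat_lit 671759) (nat_lit 3) (.e (nat_lit 57479) (nat_lit 28) (.e (nat_lit 557098) (nat_lit 13) (.e (nat_lit 172097) (nat_lit 9) (.e (nat_lit 426125) (nat_lit 2) (.e (nat_lit 196666) (nat_lit 13) (.e (nat_lit 65553) (nat_lit 0) .nil)))))))) (.g (nat_lit 6) .nil .nil))))) (.nd (nat_lit 4) (.nd (nat_lit 5) 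
(.lf (nat_lit 88266) (.g (nat_lit 800) (.e (nat_lit 2006) (nat_lit 138) (.e (nat_lit 671748) (nat_lit 0) (.e (nat_lit 1595) (nat_lit 111) (.e (nat_lit 360486) (nat_lit 18) .nil)))) .nil)) 
(.lf (nat_lit 88298) (.g (nat_lit 5210) (.e (nat_lit 2006) (nat_lit 138) (.e (nat_lit 671759) (nat_lit 3) (.e (nat_lit 57479) (nat_lit 28) (.e (nat_lit 557095) (nat_lit 13) (.e (nat_lit 172115) (nat_lit 10) (.e (nat_lit 434231) (nat_lit 23) (.e (nat_lit 532535) (nat_lit 9) (.e (nat_lit 335928) (nat_lit 0) .nil)))))))) (.g (nat_lit 7) .nil .nil)))) (.nd (nat_lit 5) 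
(.lf (nat_lit 88282) (.g (nat_lit 2164) (.e (nat_lit 2006) (nat_lit 138) (.e (nat_lit 671759) (nat_lit 3) (.e (nat_lit 57478) (nat_lit 28) (.e (nat_lit 557097) (nat_lit 13) (.e (nat_lit 172097) (nat_lit 9) (.e (nat_lit 426125) (nat_lit 2) (.e (nat_lit 196666) (nat_lit 13) (.e (nat_lit 65553) (nat_lit 0) .nil)))))))) (.g (nat_lit 4) .nil .nil))) 
(.lf (nat_lit 88314) (.g (nat_lit 2463) (.e (nat_lit 2006) (nat_lit 138) (.e (nat_lit 671759) (nat_lit 3) (.e (nat_lit 57479) (nat_lit 28) (.e (nat_lit 557101) (nat_lit 13) (.e (nat_lit 172097) (nat_lit 9) (.e (nat_lit 426125) (nat_lit 2) (.e (nat_lit 196666) (nat_lit 13) (.e (nat_lit 65536) (nat_lit 0) .nil)))))))) (.g (nat_lit 4) .nil .nil)))))) 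
(.nd (nat_lit 3) (.nd (nat_lit 4) (.nd (nat_lit 5) 
(.lf (nat_lit 88262) (.g (nat_lit 383) (.e (nat_lit 2006) (nat_lit 138) (.e (nat_lit 671748) (nat_lit 0) (.e (nat_lit 1595) (nat_lit 111) .nil))) .nil)) 
(.lf (nat_lit 88294) (.g (nat_lit 3664) (.e (nat_lit 2006) (nat_lit 138) (.e (nat_lit 671759) (nat_lit 3) (.e (nat_lit 57479) (nat_lit 28) (.e (nat_lit 557095) (nat_lit 13) (.e (nat_lit 172097) (nat_lit 9) (.e (nat_lit 426140) (nat_lit 3) (.e (nat_lit 204855) (nat_lit 26) (.e (nat_lit 335925) (nat_lit 0) .nil)))))))) (.g (nat_lit 4) .nil .nil)))) (.nd (nat_lit 5) 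
(.lf (nat_lit 88278) (.g (nat_lit 5503) (.e (nat_lit 2006) (nat_lit 138) (.e (nat_lit 671757) (nat_lit 3) (.e (nat_lit 57480) (nat_lit 28) (.e (nat_lit 557098) (nat_lit 13) (.e (nat_lit 172115) (nat_lit 10) (.e (nat_lit 434231) (nat_lit 23) (.e (nat_lit 532535) (nat_lit 9) (.e (nat_lit 335925) (nat_lit 0) .nil)))))))) (.g (nat_lit 0) .nil .nil))) 
(.lf (nat_lit 88310) (.g (nat_lit 2701) (.e (nat_lit 2006) (nat_lit 138) (.e (nat_lit 671759) (nat_lit 3) (.e (nat_lit 57479) (nat_lit 28) (.e (nat_lit 557099) (nat_lit 13) (.e (nat_lit 172097) (nat_lit 9) (.e (nat_lit 426125) (nat_lit 2) (.e (nat_lit 196666) (nat_lit 13) (.e (nat_lit 65553) (nat_lit 0) .nil)))))))) (.g (nat_lit 4) .nil .nil))))) (.nd (nat_lit 4) (.nd (nat_lit 5) 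
(.lf (nat_lit 88270) (.g (nat_lit 3940) (.e (nat_lit 2006) (nat_lit 138) (.e (nat_lit 671757) (nat_lit 3) (.e (nat_lit 57474) (nat_lit 28) (.e (nat_lit 557095) (nat_lit 13) (.e (nat_lit 172115) (nat_lit 10) (.e (nat_lit 434231) (nat_lit 23) (.e (nat_lit 532535) (nat_lit 9) (.e (nat_lit 335925) (nat_lit 0) .nil)))))))) (.g (nat_lit 7) .nil .nil))) 
(.lf (nat_lit 88302) (.g (nat_lit 3797) (.e (nat_lit 2006) (nat_lit 138) (.e (nat_lit 671759) (nat_lit 3) (.e (nat_lit 57479) (nat_lit 28) (.e (nat_lit 557097) (nat_lit 13) (.e (nat_lit 172115) (nat_lit 10) (.e (nat_lit 434231) (nat_lit 23) (.e (nat_lit 532535) (nat_lit 9) (.e (nat_lit 335928) (nat_lit 0) .nil)))))))) (.g (nat_lit 5) .nil .nil)))) (.nd (nat_lit 5) 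
(.lf (nat_lit 88286) (.g (nat_lit 5366) (.e (nat_lit 2006) (nat_lit 138) (.e (nat_lit 671759) (nat_lit 3) (.e (nat_lit 57478) (nat_lit 28) (.e (nat_lit 557101) (nat_lit 13) (.e (nat_lit 172115) (nat_lit 10) (.e (nat_lit 434231) (nat_lit 23) (.e (nat_lit 532535) (nat_lit 9) (.e (nat_lit 335925) (nat_lit 0) .nil)))))))) (.g (nat_lit 8) .nil .nil))) 
(.lf (nat_lit 88318) (.g (nat_lit 5962) (.e (nat_lit 2006) (nat_lit 138) (.e (nat_lit 671759) (nat_lit 3) (.e (nat_lit 57479) (nat_lit 28) (.e (nat_lit 557101) (nat_lit 13) (.e (nat_lit 172115) (nat_lit 10) (.e (nat_lit 434231) (nat_lit 23) (.e (nat_lit 532535) (nat_lit 9) (.e (nat_lit 335925) (nat_lit 0) .nil)))))))) (.g (nat_lit 0) .nil .nil)))))))) 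
(.nd (nat_lit 1) (.nd (nat_lit 2) (.nd (nat_lit 3) (.nd (nat_lit 4) (.nd (nat_lit 5) 
(.lf (nat_lit 88257) (.g (nat_lit 878) (.e (nat_lit 2006) (nat_lit 138) (.e (nat_lit 671748) (nat_lit 0) (.e (nat_lit 1589) (nat_lit 111) (.e (nat_lit 360453) (nat_lit 0) .nil)))) .nil)) 
(.lf (nat_lit 88289) (.g (nat_lit 5029) (.e (nat_lit 2006) (nat_lit 138) (.e (nat_lit 671759) (nat_lit 3) (.e (nat_lit 57479) (nat_lit 28) (.e (nat_lit 557095) (nat_lit 13) (.e (nat_lit 172097) (nat_lit 9) (.e (nat_lit 426125) (nat_lit 2) (.e (nat_lit 196666) (nat_lit 13) (.e (nat_lit 65546) (nat_lit 0) .nil)))))))) (.g (nat_lit 6) .nil .nil)))) (.nd (nat_lit 5) 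
(.lf (nat_lit 88273) (.g (nat_lit 3801) (.e (nat_lit 2006) (nat_lit 138) (.e (nat_lit 671757) (nat_lit 3) (.e (nat_lit 57474) (nat_lit 28) (.e (nat_lit 557108) (nat_lit 15) (.e (nat_lit 188449) (nat_lit 22) (.e (nat_lit 196666) (nat_lit 13) (.e (nat_lit 65546) (nat_lit 0) .nil))))))) (.g (nat_lit 7) .nil .nil))) 
(.lf (nat_lit 88305) (.g (nat_lit 4234) (.e (nat_lit 2006) (nat_lit 138) (.e (nat_lit 671759) (nat_lit 3) (.e (nat_lit 57479) (nat_lit 28) (.e (nat_lit 557098) (nat_lit 13) (.e (nat_lit 172097) (nat_lit 9) (.e (nat_lit 426125) (nat_lit 2) (.e (nat_lit 196666) (nat_lit 13) (.e (nat_lit 65546) (nat_lit 0) .nil)))))))) (.g (nat_lit 6) .nil .nil))))) (.nd (nat_lit 4) (.nd (nat_lit 5) 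
(.lf (nat_lit 88265) (.g (nat_lit 873) (.e (nat_lit 2006) (nat_lit 138) (.e (nat_lit 671748) (nat_lit 0) (.e (nat_lit 1595) (nat_lit 111) (.e (nat_lit 368384) (nat_lit 0) .nil)))) .nil)) 
(.lf (nat_lit 88297) (.g (nat_lit 6120) (.e (nat_lit 2006) (nat_lit 138) (.e (nat_lit 671759) (nat_lit 3) (.e (nat_lit 57479) (nat_lit 28) (.e (nat_lit 557095) (nat_lit 13) (.e (nat_lit 172115) (nat_lit 10) (.e (nat_lit 434231) (nat_lit 23) (.e (nat_lit 532535) (nat_lit 9) (.e (nat_lit 335925) (nat_lit 0) .nil)))))))) (.g (nat_lit 7) .nil .nil)))) (.nd (nat_lit 5) 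
(.lf (nat_lit 88281) (.g (nat_lit 2113) (.e (nat_lit 2006) (nat_lit 138) (.e (nat_lit 671759) (nat_lit 3) (.e (nat_lit 57478) (nat_lit 28) (.e (nat_lit 557097) (nat_lit 13) (.e (nat_lit 172097) (nat_lit 9) (.e (nat_lit 426125) (nat_lit 2) (.e (nat_lit 196666) (nat_lit 13) (.e (nat_lit 65546) (nat_lit 0) .nil)))))))) (.g (nat_lit 4) .nil .nil))) 
(.lf (nat_lit 88313) (.g (nat_lit 2020) (.e (nat_lit 2006) (nat_lit 138) (.e (nat_lit 671759) (nat_lit 3) (.e (nat_lit 57479) (nat_lit 28) (.e (nat_lit 557100) (nat_lit 13) (.e (nat_lit 172106) (nat_lit 10) (.e (nat_lit 434231) (nat_lit 23) (.e (nat_lit 532535) (nat_lit 9) (.e (nat_lit 335886) (nat_lit 0) .nil)))))))) (.g (nat_lit 4) .nil .nil)))))) 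
(.nd (nat_lit 3) (.nd (nat_lit 4) (.nd (nat_lit 5) 
(.lf (nat_lit 88261) (.g (nat_lit 549) (.e (nat_lit 2006) (nat_lit 138) (.e (nat_lit 671748) (nat_lit 0) (.e (nat_lit 1592) (nat_lit 111) (.e (nat_lit 368384) (nat_lit 17) .nil)))) .nil)) 
(.lf (nat_lit 88293) (.g (nat_lit 4237) (.e (nat_lit 2006) (nat_lit 138) (.e (nat_lit 671759) (nat_lit 3) (.e (nat_lit 57479) (nat_lit 28) (.e (nat_lit 557095) (nat_lit 13) (.e (nat_lit 172097) (nat_lit 9) (.e (nat_lit 426125) (nat_lit 2) (.e (nat_lit 196666) (nat_lit 13) (.e (nat_lit 65559) (nat_lit 0) .nil)))))))) (.g (nat_lit 5) .nil .nil)))) (.nd (nat_lit 5) 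
(.lf (nat_lit 88277) (.g (nat_lit 5369) (.e (nat_lit 2006) (nat_lit 138) (.e (nat_lit 671757) (nat_lit 3) (.e (nat_lit 57479) (nat_lit 28) (.e (nat_lit 557101) (nat_lit 13) (.e (nat_lit 172115) (nat_lit 10) (.e (nat_lit 434231) (nat_lit 23) (.e (nat_lit 532535) (nat_lit 9) (.e (nat_lit 335925) (nat_lit 0) .nil)))))))) (.g (nat_lit 0) .nil .nil))) 
(.lf (nat_lit 88309) (.g (nat_lit 2657) (.e (nat_lit 2006) (nat_lit 138) (.e (nat_lit 671759) (nat_lit 3) (.e (nat_lit 57479) (nat_lit 28) (.e (nat_lit 557099) (nat_lit 13) (.e (nat_lit 172097) (nat_lit 9) (.e (nat_lit 426125) (nat_lit 2) (.e (nat_lit 196666) (nat_lit 13) (.e (nat_lit 65546) (nat_lit 0) .nil)))))))) (.g (nat_lit 4) .nil .nil))))) (.nd (nat_lit 4) (.nd (nat_lit 5) 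
(.lf (nat_lit 88269) (.g (nat_lit 371) (.e (nat_lit 2006) (nat_lit 138) (.e (nat_lit 671748) (nat_lit 0) (.e (nat_lit 1599) (nat_lit 111) .nil))) .nil)) 
(.lf (nat_lit 88301) (.g (nat_lit 3679) (.e (nat_lit 2006) (nat_lit 138) (.e (nat_lit 671759) (nat_lit 3) (.e (nat_lit 57479) (nat_lit 28) (.e (nat_lit 557097) (nat_lit 13) (.e (nat_lit 172097) (nat_lit 9) (.e (nat_lit 426125) (nat_lit 2) (.e (nat_lit 196666) (nat_lit 13) (.e (nat_lit 65553) (nat_lit 0) .nil)))))))) (.g (nat_lit 5) .nil .nil)))) (.nd (nat_lit 5) 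
(.lf (nat_lit 88285) (.g (nat_lit 3229) (.e (nat_lit 2006) (nat_lit 138) (.e (nat_lit 671759) (nat_lit 3) (.e (nat_lit 57478) (nat_lit 28) (.e (nat_lit 557101) (nat_lit 13) (.e (nat_lit 172097) (nat_lit 9) (.e (nat_lit 426140) (nat_lit 3) (.e (nat_lit 204855) (nat_lit 26) (.e (nat_lit 335925) (nat_lit 0) .nil)))))))) (.g (nat_lit 6) .nil .nil))) 
(.lf (nat_lit 88317) (.g (nat_lit 3254) (.e (nat_lit 2006) (nat_lit 138) (.e (nat_lit 671759) (nat_lit 3) (.e (nat_lit 57479) (nat_lit 28) (.e (nat_lit 557101) (nat_lit 13) (.e (nat_lit 172115) (nat_lit 10) (.e (nat_lit 434231) (nat_lit 23) (.e (nat_lit 532535) (nat_lit 9) (.e (nat_lit 335886) (nat_lit 0) .nil)))))))) (.g (nat_lit 5) .nil .nil))))))) 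
(.nd (nat_lit 2) (.nd (nat_lit 3) (.nd (nat_lit 4) (.nd (nat_lit 5) 
(.lf (nat_lit 88259) (.g (nat_lit 937) (.e (nat_lit 2006) (nat_lit 138) (.e (nat_lit 671748) (nat_lit 0) (.e (nat_lit 1589) (nat_lit 111) (.e (nat_lit 368384) (nat_lit 17) .nil)))) .nil)) 
(.lf (nat_lit 88291) (.g (nat_lit 4029) (.e (nat_lit 2006) (nat_lit 138) (.e (nat_lit 671759) (nat_lit 3) (.e (nat_lit 57479) (nat_lit 28) (.e (nat_lit 557095) (nat_lit 13) (.e (nat_lit 172097) (nat_lit 9) (.e (nat_lit 426125) (nat_lit 2) (.e (nat_lit 196666) (nat_lit 13) (.e (nat_lit 65552) (nat_lit 0) .nil)))))))) (.g (nat_lit 4) .nil .nil)))) (.nd (nat_lit 5) 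
(.lf (nat_lit 88275) (.g (nat_lit 4278) (.e (nat_lit 2006) (nat_lit 138) (.e (nat_lit 671757) (nat_lit 3) (.e (nat_lit 57474) (nat_lit 28) (.e (nat_lit 557108) (nat_lit 15) (.e (nat_lit 188452) (nat_lit 23) (.e (nat_lit 204855) (nat_lit 26) (.e (nat_lit 335928) (nat_lit 0) .nil))))))) (.g (nat_lit 7) .nil .nil))) 
(.lf (nat_lit 88307) (.g (nat_lit 2644) (.e (nat_lit 2006) (nat_lit 138) (.e (nat_lit 671759) (nat_lit 3) (.e (nat_lit 57479) (nat_lit 28) (.e (nat_lit 557098) (nat_lit 13) (.e (nat_lit 172115) (nat_lit 10) (.e (nat_lit 434231) (nat_lit 23) (.e (nat_lit 532535) (nat_lit 9) (.e (nat_lit 335886) (nat_lit 0) .nil)))))))) (.g (nat_lit 4) .nil .nil))))) (.nd (nat_lit 4) (.nd (nat_lit 5) 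
(.lf (nat_lit 88267) (.g (nat_lit 359) (.e (nat_lit 2006) (nat_lit 138) (.e (nat_lit 671748) (nat_lit 0) (.e (nat_lit 1598) (nat_lit 111) .nil))) .nil)) 
(.lf (nat_lit 88299) (.g (nat_lit 2049) (.e (nat_lit 2006) (nat_lit 138) (.e (nat_lit 671759) (nat_lit 3) (.e (nat_lit 57479) (nat_lit 28) (.e (nat_lit 557096) (nat_lit 13) .nil)))) .nil))) (.nd (nat_lit 5) 
(.lf (nat_lit 88283) (.g (nat_lit 3332) (.e (nat_lit 2006) (nat_lit 138) (.e (nat_lit 671759) (nat_lit 3) (.e (nat_lit 57478) (nat_lit 28) (.e (nat_lit 557098) (nat_lit 13) (.e (nat_lit 172097) (nat_lit 9) (.e (nat_lit 426140) (nat_lit 3) (.e (nat_lit 204855) (nat_lit 26) (.e (nat_lit 335925) (nat_lit 0) .nil)))))))) (.g (nat_lit 6) .nil .nil))) 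
(.lf (nat_lit 88315) (.g (nat_lit 2188) (.e (nat_lit 2006) (nat_lit 138) (.e (nat_lit 671759) (nat_lit 3) (.e (nat_lit 57479) (nat_lit 28) (.e (nat_lit 557101) (nat_lit 13) (.e (nat_lit 172097) (nat_lit 9) (.e (nat_lit 426140) (nat_lit 3) (.e (nat_lit 204855) (nat_lit 26) (.e (nat_lit 335886) (nat_lit 0) .nil)))))))) (.g (nat_lit 4) .nil .nil)))))) 
(.nd (nat_lit 3) (.nd (nat_lit 4) (.nd (nat_lit 5) 
(.lf (nat_lit 88263) (.g (nat_lit 1053) (.e (nat_lit 2006) (nat_lit 138) (.e (nat_lit 671748) (nat_lit 0) (.e (nat_lit 1595) (nat_lit 111) (.e (nat_lit 360455) (nat_lit 0) .nil)))) .nil)) 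
(.lf (nat_lit 88295) (.g (nat_lit 4056) (.e (nat_lit 2006) (nat_lit 138) (.e (nat_lit 671759) (nat_lit 3) (.e (nat_lit 57479) (nat_lit 28) (.e (nat_lit 557095) (nat_lit 13) (.e (nat_lit 172106) (nat_lit 10) .nil))))) .nil))) (.nd (nat_lit 5) 
(.lf (nat_lit 88279) (.g (nat_lit 2596) (.e (nat_lit 2006) (nat_lit 138) (.e (nat_lit 671759) (nat_lit 3) (.e (nat_lit 57474) (nat_lit 28) (.e (nat_lit 557095) (nat_lit 13) (.e (nat_lit 172115) (nat_lit 10) (.e (nat_lit 434231) (nat_lit 23) (.e (nat_lit 532535) (nat_lit 9) (.e (nat_lit 335928) (nat_lit 0) .nil)))))))) (.g (nat_lit 6) .nil .nil))) 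
(.lf (nat_lit 88311) (.g (nat_lit 3343) (.e (nat_lit 2006) (nat_lit 138) (.e (nat_lit 671759) (nat_lit 3) (.e (nat_lit 57479) (nat_lit 28) (.e (nat_lit 557099) (nat_lit 13) (.e (nat_lit 172106) (nat_lit 10) (.e (nat_lit 434231) (nat_lit 23) (.e (nat_lit 532535) (nat_lit 9) (.e (nat_lit 335925) (nat_lit 0) .nil)))))))) (.g (nat_lit 5) .nil .nil))))) (.nd (nat_lit 4) (.nd (nat_lit 5) 
(.lf (nat_lit 88271) (.g (nat_lit 3067) (.e (nat_lit 2006) (nat_lit 138) (.e (nat_lit 671757) (nat_lit 3) (.e (nat_lit 57474) (nat_lit 28) (.e (nat_lit 557095) (nat_lit 13) (.e (nat_lit 172115) (nat_lit 10) (.e (nat_lit 434231) (nat_lit 23) (.e (nat_lit 532535) (nat_lit 9) (.e (nat_lit 335928) (nat_lit 0) .nil)))))))) (.g (nat_lit 7) .nil .nil))) 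
(.lf (nat_lit 88303) (.g (nat_lit 1818) (.e (nat_lit 2006) (nat_lit 138) (.e (nat_lit 671759) (nat_lit 3) (.e (nat_lit 57479) (nat_lit 28) (.e (nat_lit 557098) (nat_lit 13) .nil)))) .nil))) (.nd (nat_lit 5) 
(.lf (nat_lit 88287) (.g (nat_lit 338) (.e (nat_lit 2006) (nat_lit 138) (.e (nat_lit 671759) (nat_lit 3) (.e (nat_lit 57479) (nat_lit 28) .nil))) .nil)) 
(.lf (nat_lit 88319) (.g (nat_lit 1309) (.e (nat_lit 2006) (nat_lit 138) (.e (nat_lit 671759) (nat_lit 3) (.e (nat_lit 57479) (nat_lit 28) (.e (nat_lit 557103) (nat_lit 14) .nil)))) .nil))))))))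

noncomputable def tv1204 : DT := (.nd (nat_lit 0) (.nd (nat_lit 1) (.nd (nat_lit 2) (.nd (nat_lit 3) (.nd (nat_lit 4) (.nd (nat_lit 5) 
(.lf (nat_lit 88320) (.g (nat_lit 2503) (.e (nat_lit 2006) (nat_lit 138) (.e (nat_lit 671759) (nat_lit 3) (.e (nat_lit 57479) (nat_lit 28) (.e (nat_lit 557105) (nat_lit 14) (.e (nat_lit 180276) (nat_lit 32) .nil))))) .nil)) 
(.lf (nat_lit 88352) (.g (nat_lit 3410) (.e (nat_lit 2006) (nat_lit 138) (.e (nat_lit 671759) (nat_lit 3) (.e (nat_lit 57479) (nat_lit 28) (.e (nat_lit 557109) (nat_lit 15) (.e (nat_lit 188458) (nat_lit 25) (.e (nat_lit 245790) (nat_lit 13) (.e (nat_lit 65552) (nat_lit 0) .nil))))))) (.g (nat_lit 0) .nil .nil)))) (.nd (nat_lit 5) 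
(.lf (nat_lit 88336) (.g (nat_lit 3465) (.e (nat_lit 2006) (nat_lit 138) (.e (nat_lit 671759) (nat_lit 3) (.e (nat_lit 57479) (nat_lit 28) (.e (nat_lit 557109) (nat_lit 15) (.e (nat_lit 188425) (nat_lit 20) (.e (nat_lit 7936) (nat_lit 197) (.e (nat_lit 532535) (nat_lit 9) (.e (nat_lit 335925) (nat_lit 0) .nil)))))))) (.g (nat_lit 5) .nil .nil))) 
(.lf (nat_lit 88368) (.g (nat_lit 1816) (.e (nat_lit 2006) (nat_lit 138) (.e (nat_lit 671759) (nat_lit 3) (.e (nat_lit 57480) (nat_lit 28) (.e (nat_lit 557108) (nat_lit 15) (.e (nat_lit 188452) (nat_lit 23) (.e (nat_lit 204816) (nat_lit 17) (.e (nat_lit 6439) (nat_lit 343) (.e (nat_lit 1018) (nat_lit 81) .nil)))))))) (.g (nat_lit 4) .nil .nil))))) (.nd (nat_lit 4) (.nd (nat_lit 5) 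
(.lf (nat_lit 88328) (.g (nat_lit 5000) (.e (nat_lit 2006) (nat_lit 138) (.e (nat_lit 671759) (nat_lit 3) (.e (nat_lit 57479) (nat_lit 28) (.e (nat_lit 557107) (nat_lit 15) (.e (nat_lit 188437) (nat_lit 20) (.e (nat_lit 3238) (nat_lit 197) (.e (nat_lit 532535) (nat_lit 9) (.e (nat_lit 335925) (nat_lit 0) .nil)))))))) (.g (nat_lit 5) .nil .nil))) 
(.lf (nat_lit 88360) (.g (nat_lit 2157) (.e (nat_lit 2006) (nat_lit 138) (.e (nat_lit 671759) (nat_lit 3) (.e (nat_lit 57480) (nat_lit 28) (.e (nat_lit 557098) (nat_lit 13) (.e (nat_lit 172097) (nat_lit 9) (.e (nat_lit 426140) (nat_lit 3) (.e (nat_lit 204855) (nat_lit 26) (.e (nat_lit 335886) (nat_lit 0) .nil)))))))) (.g (nat_lit 4) .nil .nil)))) (.nd (nat_lit 5) 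
(.lf (nat_lit 88344) (.g (nat_lit 2804) (.e (nat_lit 2006) (nat_lit 138) (.e (nat_lit 671759) (nat_lit 3) (.e (nat_lit 57479) (nat_lit 28) (.e (nat_lit 557109) (nat_lit 15) (.e (nat_lit 188458) (nat_lit 25) (.e (nat_lit 245784) (nat_lit 9) (.e (nat_lit 1440) (nat_lit 108) (.e (nat_lit 335918) (nat_lit 0) .nil)))))))) (.g (nat_lit 5) .nil .nil))) 
(.lf (nat_lit 88376) (.g (nat_lit 4742) (.e (nat_lit 2006) (nat_lit 138) (.e (nat_lit 671759) (nat_lit 3) (.e (nat_lit 57480) (nat_lit 28) (.e (nat_lit 557108) (nat_lit 15) (.e (nat_lit 188452) (nat_lit 23) (.e (nat_lit 204856) (nat_lit 26) (.e (nat_lit 335938) (nat_lit 0) .nil))))))) (.g (nat_lit 7) .nil .nil)))))) (.nd (nat_lit 3) (.nd (nat_lit 4) (.nd (nat_lit 5) 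
(.lf (nat_lit 88324) (.g (nat_lit 2704) (.e (nat_lit 2006) (nat_lit 138) (.e (nat_lit 671759) (nat_lit 3) (.e (nat_lit 57479) (nat_lit 28) (.e (nat_lit 557106) (nat_lit 15) (.e (nat_lit 188449) (nat_lit 22) .nil))))) .nil)) 
(.lf (nat_lit 88356) (.g (nat_lit 2952) (.e (nat_lit 2006) (nat_lit 138) (.e (nat_lit 671759) (nat_lit 3) (.e (nat_lit 57480) (nat_lit 28) (.e (nat_lit 557097) (nat_lit 13) (.e (nat_lit 172097) (nat_lit 9) (.e (nat_lit 426140) (nat_lit 3) (.e (nat_lit 204855) (nat_lit 26) (.e (nat_lit 335925) (nat_lit 0) .nil)))))))) (.g (nat_lit 5) .nil .nil)))) (.nd (nat_lit 5) 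
(.lf (nat_lit 88340) (.g (nat_lit 2733) (.e (nat_lit 2006) (nat_lit 138) (.e (nat_lit 671759) (nat_lit 3) (.e (nat_lit 57479) (nat_lit 28) (.e (nat_lit 557109) (nat_lit 15) (.e (nat_lit 188452) (nat_lit 23) (.e (nat_lit 204816) (nat_lit 17) (.e (nat_lit 6439) (nat_lit 343) (.e (nat_lit 1018) (nat_lit 81) .nil)))))))) (.g (nat_lit 4) .nil .nil))) 
(.lf (nat_lit 88372) (.g (nat_lit 4517) (.e (nat_lit 2006) (nat_lit 138) (.e (nat_lit 671759) (nat_lit 3) (.e (nat_lit 57480) (nat_lit 28) (.e (nat_lit 557108) (nat_lit 15) (.e (nat_lit 188452) (nat_lit 23) (.e (nat_lit 204856) (nat_lit 26) (.e (nat_lit 335925) (nat_lit 0) .nil))))))) (.g (nat_lit 6) .nil .nil))))) (.nd (nat_lit 4) (.nd (nat_lit 5) 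
(.lf (nat_lit 88332) (.g (nat_lit 2293) (.e (nat_lit 2006) (nat_lit 138) (.e (nat_lit 671759) (nat_lit 3) (.e (nat_lit 57479) (nat_lit 28) (.e (nat_lit 557107) (nat_lit 15) (.e (nat_lit 188450) (nat_lit 23) (.e (nat_lit 204855) (nat_lit 26) (.e (nat_lit 335925) (nat_lit 0) .nil))))))) (.g (nat_lit 4) .nil .nil))) 
(.lf (nat_lit 88364) (.g (nat_lit 4107) (.e (nat_lit 2006) (nat_lit 138) (.e (nat_lit 671759) (nat_lit 3) (.e (nat_lit 57480) (nat_lit 28) (.e (nat_lit 557107) (nat_lit 15) (.e (nat_lit 188447) (nat_lit 22) (.e (nat_lit 196666) (nat_lit 13) (.e (nat_lit 65546) (nat_lit 0) .nil))))))) (.g (nat_lit 7) .nil .nil)))) (.nd (nat_lit 5) 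
(.lf (nat_lit 88348) (.g (nat_lit 2342) (.e (nat_lit 2006) (nat_lit 138) (.e (nat_lit 671759) (nat_lit 3) (.e (nat_lit 57479) (nat_lit 28) (.e (nat_lit 557109) (nat_lit 15) (.e (nat_lit 188458) (nat_lit 25) (.e (nat_lit 245784) (nat_lit 9) (.e (nat_lit 1440) (nat_lit 108) (.e (nat_lit 335936) (nat_lit 0) .nil)))))))) (.g (nat_lit 4) .nil .nil))) 
(.lf (nat_lit 88380) (.g (nat_lit 1539) (.e (nat_lit 2006) (nat_lit 138) (.e (nat_lit 671760) (nat_lit 4) (.e (nat_lit 65619) (nat_lit 10) (.e (nat_lit 344169) (nat_lit 40) (.e (nat_lit 671764) (nat_lit 6) (.e (nat_lit 81947) (nat_lit 20) .nil)))))) (.g (nat_lit 4) .nil .nil))))))) (.nd (nat_lit 2) (.nd (nat_lit 3) (.nd (nat_lit 4) (.nd (nat_lit 5) 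
(.lf (nat_lit 88322) (.g (nat_lit 3169) (.e (nat_lit 2006) (nat_lit 138) (.e (nat_lit 671759) (nat_lit 3) (.e (nat_lit 57479) (nat_lit 28) (.e (nat_lit 557106) (nat_lit 15) (.e (nat_lit 188447) (nat_lit 22) .nil))))) .nil)) 
(.lf (nat_lit 88354) (.g (nat_lit 2831) (.e (nat_lit 2006) (nat_lit 138) (.e (nat_lit 671759) (nat_lit 3) (.e (nat_lit 57479) (nat_lit 28) (.e (nat_lit 557109) (nat_lit 15) (.e (nat_lit 188458) (nat_lit 25) (.e (nat_lit 245790) (nat_lit 13) (.e (nat_lit 65558) (nat_lit 0) .nil))))))) (.g (nat_lit 5) .nil .nil)))) (.nd (nat_lit 5) 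
(.lf (nat_lit 88338) (.g (nat_lit 1541) (.e (nat_lit 2006) (nat_lit 138) (.e (nat_lit 671759) (nat_lit 3) (.e (nat_lit 57479) (nat_lit 28) (.e (nat_lit 557109) (nat_lit 15) (.e (nat_lit 196352) (nat_lit 22) .nil))))) .nil)) 
(.lf (nat_lit 88370) (.g (nat_lit 4726) (.e (nat_lit 2006) (nat_lit 138) (.e (nat_lit 671759) (nat_lit 3) (.e (nat_lit 57480) (nat_lit 28) (.e (nat_lit 557108) (nat_lit 15) (.e (nat_lit 188452) (nat_lit 23) (.e (nat_lit 204856) (nat_lit 26) (.e (nat_lit 335886) (nat_lit 0) .nil))))))) (.g (nat_lit 7) .nil .nil))))) (.nd (nat_lit 4) (.nd (nat_lit 5) 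
(.lf (nat_lit 88330) (.g (nat_lit 4096) (.e (nat_lit 2006) (nat_lit 138) (.e (nat_lit 671759) (nat_lit 3) (.e (nat_lit 57479) (nat_lit 28) (.e (nat_lit 557107) (nat_lit 15) (.e (nat_lit 188439) (nat_lit 20) (.e (nat_lit 3238) (nat_lit 197) (.e (nat_lit 532535) (nat_lit 9) (.e (nat_lit 335925) (nat_lit 0) .nil)))))))) (.g (nat_lit 4) .nil .nil))) 
(.lf (nat_lit 88362) (.g (nat_lit 3283) (.e (nat_lit 2006) (nat_lit 138) (.e (nat_lit 671759) (nat_lit 3) (.e (nat_lit 57480) (nat_lit 28) (.e (nat_lit 557098) (nat_lit 13) (.e (nat_lit 172115) (nat_lit 10) (.e (nat_lit 434231) (nat_lit 23) (.e (nat_lit 532535) (nat_lit 9) (.e (nat_lit 335886) (nat_lit 0) .nil)))))))) (.g (nat_lit 5) .nil .nil)))) (.nd (nat_lit 5) 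
(.lf (nat_lit 88346) (.g (nat_lit 2497) (.e (nat_lit 2006) (nat_lit 138) (.e (nat_lit 671759) (nat_lit 3) (.e (nat_lit 57479) (nat_lit 28) (.e (nat_lit 557109) (nat_lit 15) (.e (nat_lit 188458) (nat_lit 25) (.e (nat_lit 245784) (nat_lit 9) (.e (nat_lit 1440) (nat_lit 108) (.e (nat_lit 335927) (nat_lit 0) .nil)))))))) (.g (nat_lit 4) .nil .nil))) 
(.lf (nat_lit 88378) (.g (nat_lit 5203) (.e (nat_lit 2006) (nat_lit 138) (.e (nat_lit 671759) (nat_lit 3) (.e (nat_lit 57480) (nat_lit 28) (.e (nat_lit 557108) (nat_lit 15) (.e (nat_lit 188452) (nat_lit 23) (.e (nat_lit 204858) (nat_lit 26) (.e (nat_lit 335938) (nat_lit 0) .nil))))))) (.g (nat_lit 5) .nil .nil)))))) (.nd (nat_lit 3) (.nd (nat_lit 4) (.nd (nat_lit 5) 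
(.lf (nat_lit 88326) (.g (nat_lit 3138) (.e (nat_lit 2006) (nat_lit 138) (.e (nat_lit 671759) (nat_lit 3) (.e (nat_lit 57479) (nat_lit 28) (.e (nat_lit 557106) (nat_lit 15) (.e (nat_lit 188450) (nat_lit 23) .nil))))) .nil)) 
(.lf (nat_lit 88358) (.g (nat_lit 4276) (.e (nat_lit 2006) (nat_lit 138) (.e (nat_lit 671759) (nat_lit 3) (.e (nat_lit 57480) (nat_lit 28) (.e (nat_lit 557097) (nat_lit 13) (.e (nat_lit 172115) (nat_lit 10) (.e (nat_lit 434231) (nat_lit 23) (.e (nat_lit 532535) (nat_lit 9) (.e (nat_lit 335928) (nat_lit 0) .nil)))))))) (.g (nat_lit 6) .nil .nil)))) (.nd (nat_lit 5) 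
(.lf (nat_lit 88342) (.g (nat_lit 2567) (.e (nat_lit 2006) (nat_lit 138) (.e (nat_lit 671759) (nat_lit 3) (.e (nat_lit 57479) (nat_lit 28) (.e (nat_lit 557109) (nat_lit 15) (.e (nat_lit 188452) (nat_lit 23) (.e (nat_lit 204855) (nat_lit 26) (.e (nat_lit 335925) (nat_lit 0) .nil))))))) (.g (nat_lit 4) .nil .nil))) 
(.lf (nat_lit 88374) (.g (nat_lit 4037) (.e (nat_lit 2006) (nat_lit 138) (.e (nat_lit 671759) (nat_lit 3) (.e (nat_lit 57480) (nat_lit 28) (.e (nat_lit 557108) (nat_lit 15) (.e (nat_lit 188452) (nat_lit 23) (.e (nat_lit 204856) (nat_lit 26) (.e (nat_lit 335936) (nat_lit 0) .nil))))))) (.g (nat_lit 5) .nil .nil))))) (.nd (nat_lit 4) (.nd (nat_lit 5) 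
(.lf (nat_lit 88334) (.g (nat_lit 2657) (.e (nat_lit 2006) (nat_lit 138) (.e (nat_lit 671759) (nat_lit 3) (.e (nat_lit 57479) (nat_lit 28) (.e (nat_lit 557107) (nat_lit 15) (.e (nat_lit 188456) (nat_lit 25) (.e (nat_lit 245790) (nat_lit 13) (.e (nat_lit 65552) (nat_lit 0) .nil))))))) (.g (nat_lit 4) .nil .nil))) 
(.lf (nat_lit 88366) (.g (nat_lit 3700) (.e (nat_lit 2006) (nat_lit 138) (.e (nat_lit 671759) (nat_lit 3) (.e (nat_lit 57480) (nat_lit 28) (.e (nat_lit 557107) (nat_lit 15) (.e (nat_lit 188450) (nat_lit 23) (.e (nat_lit 204855) (nat_lit 26) (.e (nat_lit 335928) (nat_lit 0) .nil))))))) (.g (nat_lit 7) .nil .nil)))) (.nd (nat_lit 5) 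
(.lf (nat_lit 88350) (.g (nat_lit 2166) (.e (nat_lit 2006) (nat_lit 138) (.e (nat_lit 671759) (nat_lit 3) (.e (nat_lit 57479) (nat_lit 28) (.e (nat_lit 557109) (nat_lit 15) (.e (nat_lit 188458) (nat_lit 25) (.e (nat_lit 245790) (nat_lit 13) (.e (nat_lit 65536) (nat_lit 0) .nil))))))) (.g (nat_lit 4) .nil .nil))) 
(.lf (nat_lit 88382) (.g (nat_lit 1989) (.e (nat_lit 2006) (nat_lit 138) (.e (nat_lit 671760) (nat_lit 4) (.e (nat_lit 65624) (nat_lit 12) (.e (nat_lit 385092) (nat_lit 49) (.e (nat_lit 778326) (nat_lit 6) (.e (nat_lit 81938) (nat_lit 20) .nil)))))) (.g (nat_lit 5) .nil .nil)))))))) (.nd (nat_lit 1) (.nd (nat_lit 2) (.nd (nat_lit 3) (.nd (nat_lit 4) (.nd (nat_lit 5) 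
(.lf (nat_lit 88321) (.g (nat_lit 2195) (.e (nat_lit 2006) (nat_lit 138) (.e (nat_lit 671759) (nat_lit 3) (.e (nat_lit 57479) (nat_lit 28) (.e (nat_lit 557106) (nat_lit 15) .nil)))) .nil)) 
(.lf (nat_lit 88353) (.g (nat_lit 2399) (.e (nat_lit 2006) (nat_lit 138) (.e (nat_lit 671759) (nat_lit 3) (.e (nat_lit 57479) (nat_lit 28) (.e (nat_lit 557109) (nat_lit 15) (.e (nat_lit 188458) (nat_lit 25) (.e (nat_lit 245790) (nat_lit 13) (.e (nat_lit 65557) (nat_lit 0) .nil))))))) (.g (nat_lit 4) .nil .nil)))) (.nd (nat_lit 5) 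
(.lf (nat_lit 88337) (.g (nat_lit 3454) (.e (nat_lit 2006) (nat_lit 138) (.e (nat_lit 671759) (nat_lit 3) (.e (nat_lit 57479) (nat_lit 28) (.e (nat_lit 557109) (nat_lit 15) (.e (nat_lit 188426) (nat_lit 20) (.e (nat_lit 7936) (nat_lit 197) (.e (nat_lit 532535) (nat_lit 9) (.e (nat_lit 335925) (nat_lit 0) .nil)))))))) (.g (nat_lit 5) .nil .nil))) 
(.lf (nat_lit 88369) (.g (nat_lit 3939) (.e (nat_lit 2006) (nat_lit 138) (.e (nat_lit 671759) (nat_lit 3) (.e (nat_lit 57480) (nat_lit 28) (.e (nat_lit 557108) (nat_lit 15) (.e (nat_lit 188452) (nat_lit 23) (.e (nat_lit 204852) (nat_lit 26) (.e (nat_lit 343808) (nat_lit 0) .nil))))))) (.g (nat_lit 6) .nil .nil))))) (.nd (nat_lit 4) (.nd (nat_lit 5) 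
(.lf (nat_lit 88329) (.g (nat_lit 3977) (.e (nat_lit 2006) (nat_lit 138) (.e (nat_lit 671759) (nat_lit 3) (.e (nat_lit 57479) (nat_lit 28) (.e (nat_lit 557107) (nat_lit 15) (.e (nat_lit 188438) (nat_lit 20) (.e (nat_lit 3238) (nat_lit 197) (.e (nat_lit 532535) (nat_lit 9) (.e (nat_lit 335925) (nat_lit 0) .nil)))))))) (.g (nat_lit 4) .nil .nil))) 
(.lf (nat_lit 88361) (.g (nat_lit 3861) (.e (nat_lit 2006) (nat_lit 138) (.e (nat_lit 671759) (nat_lit 3) (.e (nat_lit 57480) (nat_lit 28) (.e (nat_lit 557098) (nat_lit 13) (.e (nat_lit 172097) (nat_lit 9) (.e (nat_lit 426140) (nat_lit 3) (.e (nat_lit 204855) (nat_lit 26) (.e (nat_lit 335925) (nat_lit 0) .nil)))))))) (.g (nat_lit 6) .nil .nil)))) (.nd (nat_lit 5) 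
(.lf (nat_lit 88345) (.g (nat_lit 2477) (.e (nat_lit 2006) (nat_lit 138) (.e (nat_lit 671759) (nat_lit 3) (.e (nat_lit 57479) (nat_lit 28) (.e (nat_lit 557109) (nat_lit 15) (.e (nat_lit 188458) (nat_lit 25) (.e (nat_lit 245784) (nat_lit 9) (.e (nat_lit 1440) (nat_lit 108) (.e (nat_lit 335919) (nat_lit 0) .nil)))))))) (.g (nat_lit 4) .nil .nil))) 
(.lf (nat_lit 88377) (.g (nat_lit 5355) (.e (nat_lit 2006) (nat_lit 138) (.e (nat_lit 671759) (nat_lit 3) (.e (nat_lit 57480) (nat_lit 28) (.e (nat_lit 557108) (nat_lit 15) (.e (nat_lit 188452) (nat_lit 23) (.e (nat_lit 204858) (nat_lit 26) (.e (nat_lit 335916) (nat_lit 0) .nil))))))) (.g (nat_lit 5) .nil .nil)))))) (.nd (nat_lit 3) (.nd (nat_lit 4) (.nd (nat_lit 5) 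
(.lf (nat_lit 88325) (.g (nat_lit 3512) (.e (nat_lit 2006) (nat_lit 138) (.e (nat_lit 671759) (nat_lit 3) (.e (nat_lit 57479) (nat_lit 28) (.e (nat_lit 557106) (nat_lit 15) (.e (nat_lit 188449) (nat_lit 22) (.e (nat_lit 196666) (nat_lit 13) (.e (nat_lit 65553) (nat_lit 0) .nil))))))) (.g (nat_lit 5) .nil .nil))) 
(.lf (nat_lit 88357) (.g (nat_lit 2479) (.e (nat_lit 2006) (nat_lit 138) (.e (nat_lit 671759) (nat_lit 3) (.e (nat_lit 57480) (nat_lit 28) (.e (nat_lit 557097) (nat_lit 13) (.e (nat_lit 172115) (nat_lit 10) (.e (nat_lit 434231) (nat_lit 23) (.e (nat_lit 532535) (nat_lit 9) (.e (nat_lit 335886) (nat_lit 0) .nil)))))))) (.g (nat_lit 4) .nil .nil)))) (.nd (nat_lit 5) 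
(.lf (nat_lit 88341) (.g (nat_lit 2623) (.e (nat_lit 2006) (nat_lit 138) (.e (nat_lit 671759) (nat_lit 3) (.e (nat_lit 57479) (nat_lit 28) (.e (nat_lit 557109) (nat_lit 15) (.e (nat_lit 188452) (nat_lit 23) (.e (nat_lit 204816) (nat_lit 17) (.e (nat_lit 6486) (nat_lit 343) (.e (nat_lit 1023) (nat_lit 81) .nil)))))))) (.g (nat_lit 4) .nil .nil))) 
(.lf (nat_lit 88373) (.g (nat_lit 4376) (.e (nat_lit 2006) (nat_lit 138) (.e (nat_lit 671759) (nat_lit 3) (.e (nat_lit 57480) (nat_lit 28) (.e (nat_lit 557108) (nat_lit 15) (.e (nat_lit 188452) (nat_lit 23) (.e (nat_lit 204856) (nat_lit 26) (.e (nat_lit 335927) (nat_lit 0) .nil))))))) (.g (nat_lit 5) .nil .nil))))) (.nd (nat_lit 4) (.nd (nat_lit 5) 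
(.lf (nat_lit 88333) (.g (nat_lit 2850) (.e (nat_lit 2006) (nat_lit 138) (.e (nat_lit 671759) (nat_lit 3) (.e (nat_lit 57479) (nat_lit 28) (.e (nat_lit 557107) (nat_lit 15) (.e (nat_lit 188450) (nat_lit 23) (.e (nat_lit 204855) (nat_lit 26) (.e (nat_lit 335928) (nat_lit 0) .nil))))))) (.g (nat_lit 5) .nil .nil))) 
(.lf (nat_lit 88365) (.g (nat_lit 4064) (.e (nat_lit 2006) (nat_lit 138) (.e (nat_lit 671759) (nat_lit 3) (.e (nat_lit 57480) (nat_lit 28) (.e (nat_lit 557107) (nat_lit 15) (.e (nat_lit 188447) (nat_lit 22) (.e (nat_lit 196666) (nat_lit 13) (.e (nat_lit 65553) (nat_lit 0) .nil))))))) (.g (nat_lit 7) .nil .nil)))) (.nd (nat_lit 5) 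
(.lf (nat_lit 88349) (.g (nat_lit 2413) (.e (nat_lit 2006) (nat_lit 138) (.e (nat_lit 671759) (nat_lit 3) (.e (nat_lit 57479) (nat_lit 28) (.e (nat_lit 557109) (nat_lit 15) (.e (nat_lit 188458) (nat_lit 25) (.e (nat_lit 245784) (nat_lit 9) (.e (nat_lit 1440) (nat_lit 108) (.e (nat_lit 335937) (nat_lit 0) .nil)))))))) (.g (nat_lit 4) .nil .nil))) 
(.lf (nat_lit 88381) (.g (nat_lit 1679) (.e (nat_lit 2006) (nat_lit 138) (.e (nat_lit 671760) (nat_lit 4) (.e (nat_lit 65623) (nat_lit 12) (.e (nat_lit 385094) (nat_lit 49) (.e (nat_lit 778326) (nat_lit 6) (.e (nat_lit 81943) (nat_lit 20) .nil)))))) (.g (nat_lit 4) .nil .nil))))))) (.nd (nat_lit 2) (.nd (nat_lit 3) (.nd (nat_lit 4) (.nd (nat_lit 5) 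
(.lf (nat_lit 88323) (.g (nat_lit 4319) (.e (nat_lit 2006) (nat_lit 138) (.e (nat_lit 671759) (nat_lit 3) (.e (nat_lit 57479) (nat_lit 28) (.e (nat_lit 557106) (nat_lit 15) (.e (nat_lit 188447) (nat_lit 22) (.e (nat_lit 196666) (nat_lit 13) (.e (nat_lit 65553) (nat_lit 0) .nil))))))) (.g (nat_lit 5) .nil .nil))) 
(.lf (nat_lit 88355) (.g (nat_lit 2979) (.e (nat_lit 2006) (nat_lit 138) (.e (nat_lit 671759) (nat_lit 3) (.e (nat_lit 57479) (nat_lit 28) (.e (nat_lit 557109) (nat_lit 15) (.e (nat_lit 188458) (nat_lit 25) (.e (nat_lit 245790) (nat_lit 13) (.e (nat_lit 65559) (nat_lit 0) .nil))))))) (.g (nat_lit 5) .nil .nil)))) (.nd (nat_lit 5) 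
(.lf (nat_lit 88339) (.g (nat_lit 2470) (.e (nat_lit 2006) (nat_lit 138) (.e (nat_lit 671759) (nat_lit 3) (.e (nat_lit 57479) (nat_lit 28) (.e (nat_lit 557109) (nat_lit 15) (.e (nat_lit 188452) (nat_lit 23) (.e (nat_lit 204816) (nat_lit 17) (.e (nat_lit 6434) (nat_lit 343) (.e (nat_lit 1022) (nat_lit 81) .nil)))))))) (.g (nat_lit 4) .nil .nil))) 
(.lf (nat_lit 88371) (.g (nat_lit 4587) (.e (nat_lit 2006) (nat_lit 138) (.e (nat_lit 671759) (nat_lit 3) (.e (nat_lit 57480) (nat_lit 28) (.e (nat_lit 557108) (nat_lit 15) (.e (nat_lit 188452) (nat_lit 23) (.e (nat_lit 204856) (nat_lit 26) (.e (nat_lit 335916) (nat_lit 0) .nil))))))) (.g (nat_lit 6) .nil .nil))))) (.nd (nat_lit 4) (.nd (nat_lit 5) 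
(.lf (nat_lit 88331) (.g (nat_lit 5167) (.e (nat_lit 2006) (nat_lit 138) (.e (nat_lit 671759) (nat_lit 3) (.e (nat_lit 57479) (nat_lit 28) (.e (nat_lit 557107) (nat_lit 15) (.e (nat_lit 188448) (nat_lit 22) (.e (nat_lit 196666) (nat_lit 13) (.e (nat_lit 65546) (nat_lit 0) .nil))))))) (.g (nat_lit 5) .nil .nil))) 
(.lf (nat_lit 88363) (.g (nat_lit 6074) (.e (nat_lit 2006) (nat_lit 138) (.e (nat_lit 671759) (nat_lit 3) (.e (nat_lit 57480) (nat_lit 28) (.e (nat_lit 557098) (nat_lit 13) (.e (nat_lit 172115) (nat_lit 10) (.e (nat_lit 434231) (nat_lit 23) (.e (nat_lit 532535) (nat_lit 9) (.e (nat_lit 335925) (nat_lit 0) .nil)))))))) (.g (nat_lit 0) .nil .nil)))) (.nd (nat_lit 5) 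
(.lf (nat_lit 88347) (.g (nat_lit 2165) (.e (nat_lit 2006) (nat_lit 138) (.e (nat_lit 671759) (nat_lit 3) (.e (nat_lit 57479) (nat_lit 28) (.e (nat_lit 557109) (nat_lit 15) (.e (nat_lit 188458) (nat_lit 25) (.e (nat_lit 245784) (nat_lit 9) (.e (nat_lit 1440) (nat_lit 108) (.e (nat_lit 335928) (nat_lit 0) .nil)))))))) (.g (nat_lit 4) .nil .nil))) 
(.lf (nat_lit 88379) (.g (nat_lit 4274) (.e (nat_lit 2006) (nat_lit 138) (.e (nat_lit 671759) (nat_lit 3) (.e (nat_lit 57480) (nat_lit 28) (.e (nat_lit 557109) (nat_lit 15) (.e (nat_lit 188450) (nat_lit 23) (.e (nat_lit 204855) (nat_lit 26) (.e (nat_lit 335928) (nat_lit 0) .nil))))))) (.g (nat_lit 5) .nil .nil)))))) (.nd (nat_lit 3) (.nd (nat_lit 4) (.nd (nat_lit 5) 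
(.lf (nat_lit 88327) (.g (nat_lit 4330) (.e (nat_lit 2006) (nat_lit 138) (.e (nat_lit 671759) (nat_lit 3) (.e (nat_lit 57479) (nat_lit 28) (.e (nat_lit 557106) (nat_lit 15) (.e (nat_lit 188452) (nat_lit 23) (.e (nat_lit 204855) (nat_lit 26) (.e (nat_lit 335928) (nat_lit 0) .nil))))))) (.g (nat_lit 5) .nil .nil))) 
(.lf (nat_lit 88359) (.g (nat_lit 2448) (.e (nat_lit 2006) (nat_lit 138) (.e (nat_lit 671759) (nat_lit 3) (.e (nat_lit 57480) (nat_lit 28) (.e (nat_lit 557098) (nat_lit 13) (.e (nat_lit 172097) (nat_lit 9) (.e (nat_lit 426125) (nat_lit 2) (.e (nat_lit 196666) (nat_lit 13) (.e (nat_lit 65536) (nat_lit 0) .nil)))))))) (.g (nat_lit 4) .nil .nil)))) (.nd (nat_lit 5) 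
(.lf (nat_lit 88343) (.g (nat_lit 2033) (.e (nat_lit 2006) (nat_lit 138) (.e (nat_lit 671759) (nat_lit 3) (.e (nat_lit 57479) (nat_lit 28) (.e (nat_lit 557109) (nat_lit 15) (.e (nat_lit 188458) (nat_lit 25) .nil))))) .nil)) 
(.lf (nat_lit 88375) (.g (nat_lit 4417) (.e (nat_lit 2006) (nat_lit 138) (.e (nat_lit 671759) (nat_lit 3) (.e (nat_lit 57480) (nat_lit 28) (.e (nat_lit 557108) (nat_lit 15) (.e (nat_lit 188452) (nat_lit 23) (.e (nat_lit 204856) (nat_lit 26) (.e (nat_lit 335937) (nat_lit 0) .nil))))))) (.g (nat_lit 5) .nil .nil))))) (.nd (nat_lit 4) (.nd (nat_lit 5) 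
(.lf (nat_lit 88335) (.g (nat_lit 1186) (.e (nat_lit 2006) (nat_lit 138) (.e (nat_lit 671759) (nat_lit 3) (.e (nat_lit 57479) (nat_lit 28) (.e (nat_lit 557109) (nat_lit 15) .nil)))) .nil)) 
(.lf (nat_lit 88367) (.g (nat_lit 3029) (.e (nat_lit 2006) (nat_lit 138) (.e (nat_lit 671759) (nat_lit 3) (.e (nat_lit 57480) (nat_lit 28) (.e (nat_lit 557108) (nat_lit 15) (.e (nat_lit 188452) (nat_lit 23) (.e (nat_lit 204816) (nat_lit 17) (.e (nat_lit 6434) (nat_lit 343) (.e (nat_lit 1018) (nat_lit 81) .nil)))))))) (.g (nat_lit 6) .nil .nil)))) (.nd (nat_lit 5) 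
(.lf (nat_lit 88351) (.g (nat_lit 3188) (.e (nat_lit 2006) (nat_lit 138) (.e (nat_lit 671759) (nat_lit 3) (.e (nat_lit 57479) (nat_lit 28) (.e (nat_lit 557109) (nat_lit 15) (.e (nat_lit 188458) (nat_lit 25) (.e (nat_lit 245790) (nat_lit 13) (.e (nat_lit 65547) (nat_lit 0) .nil))))))) (.g (nat_lit 6) .nil .nil))) 
(.lf (nat_lit 88383) (.g (nat_lit 1624) (.e (nat_lit 2006) (nat_lit 138) (.e (nat_lit 671760) (nat_lit 4) (.e (nat_lit 65624) (nat_lit 12) (.e (nat_lit 385092) (nat_lit 49) (.e (nat_lit 778326) (nat_lit 6) (.e (nat_lit 81939) (nat_lit 20) .nil)))))) (.g (nat_lit 4) .nil .nil)))))))))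

noncomputable def tv1205 : DT := (.nd (nat_lit 0) (.nd (nat_lit 1) (.nd (nat_lit 2) (.nd (nat_lit 3) (.nd (nat_lit 4) (.nd (nat_lit 5) 
(.lf (nat_lit 88384) (.g (nat_lit 1655) (.e (nat_lit 2006) (nat_lit 138) (.e (nat_lit 671760) (nat_lit 4) (.e (nat_lit 65624) (nat_lit 12) (.e (nat_lit 385092) (nat_lit 49) (.e (nat_lit 778327) (nat_lit 6) (.e (nat_lit 81946) (nat_lit 20) .nil)))))) (.g (nat_lit 4) .nil .nil))) 
(.lf (nat_lit 88416) (.g (nat_lit 2032) (.e (nat_lit 2006) (nat_lit 138) (.e (nat_lit 671762) (nat_lit 4) (.e (nat_lit 65598) (nat_lit 9) (.e (nat_lit 335907) (nat_lit 0) (.e (nat_lit 1994) (nat_lit 137) (.e (nat_lit 663569) (nat_lit 6) (.e (nat_lit 81943) (nat_lit 20) .nil))))))) (.g (nat_lit 4) .nil .nil)))) (.nd (nat_lit 5) 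
(.lf (nat_lit 88400) (.g (nat_lit 2257) (.e (nat_lit 2006) (nat_lit 138) (.e (nat_lit 671762) (nat_lit 4) (.e (nat_lit 65542) (nat_lit 0) (.e (nat_lit 6113) (nat_lit 332) (.e (nat_lit 1374) (nat_lit 104) (.e (nat_lit 303155) (nat_lit 29) (.e (nat_lit 352297) (nat_lit 20) .nil))))))) (.g (nat_lit 5) .nil .nil))) 
(.lf (nat_lit 88432) (.g (nat_lit 2974) (.e (nat_lit 2006) (nat_lit 138) (.e (nat_lit 671762) (nat_lit 4) (.e (nat_lit 65610) (nat_lit 10) (.e (nat_lit 344168) (nat_lit 40) (.e (nat_lit 671764) (nat_lit 6) (.e (nat_lit 81947) (nat_lit 20) .nil)))))) (.g (nat_lit 0) .nil .nil))))) (.nd (nat_lit 4) (.nd (nat_lit 5) 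
(.lf (nat_lit 88392) (.g (nat_lit 2438) (.e (nat_lit 2006) (nat_lit 138) (.e (nat_lit 671760) (nat_lit 4) (.e (nat_lit 65630) (nat_lit 14) (.e (nat_lit 401437) (nat_lit 9) (.e (nat_lit 426542) (nat_lit 29) (.e (nat_lit 352297) (nat_lit 20) .nil)))))) (.g (nat_lit 6) .nil .nil))) 
(.lf (nat_lit 88424) (.g (nat_lit 1761) (.e (nat_lit 2006) (nat_lit 138) (.e (nat_lit 671762) (nat_lit 4) (.e (nat_lit 65604) (nat_lit 9) (.e (nat_lit 335907) (nat_lit 0) (.e (nat_lit 1996) (nat_lit 137) .nil))))) .nil))) (.nd (nat_lit 5) 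
(.lf (nat_lit 88408) (.g (nat_lit 1466) (.e (nat_lit 2006) (nat_lit 138) (.e (nat_lit 671762) (nat_lit 4) (.e (nat_lit 65584) (nat_lit 7) (.e (nat_lit 319506) (nat_lit 10) (.e (nat_lit 5721) (nat_lit 312) .nil))))) .nil)) 
(.lf (nat_lit 88440) (.g (nat_lit 1939) (.e (nat_lit 2006) (nat_lit 138) (.e (nat_lit 671762) (nat_lit 4) (.e (nat_lit 65616) (nat_lit 10) (.e (nat_lit 344168) (nat_lit 40) (.e (nat_lit 671764) (nat_lit 6) (.e (nat_lit 81943) (nat_lit 20) .nil)))))) (.g (nat_lit 6) .nil .nil)))))) (.nd (nat_lit 3) (.nd (nat_lit 4) (.nd (nat_lit 5) 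
(.lf (nat_lit 88388) (.g (nat_lit 1804) (.e (nat_lit 2006) (nat_lit 138) (.e (nat_lit 671760) (nat_lit 4) (.e (nat_lit 65624) (nat_lit 12) (.e (nat_lit 385094) (nat_lit 49) (.e (nat_lit 778327) (nat_lit 6) (.e (nat_lit 81947) (nat_lit 20) .nil)))))) (.g (nat_lit 4) .nil .nil))) 
(.lf (nat_lit 88420) (.g (nat_lit 1216) (.e (nat_lit 2006) (nat_lit 138) (.e (nat_lit 671762) (nat_lit 4) (.e (nat_lit 65598) (nat_lit 9) (.e (nat_lit 336032) (nat_lit 4) .nil)))) .nil))) (.nd (nat_lit 5) 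
(.lf (nat_lit 88404) (.g (nat_lit 1718) (.e (nat_lit 2006) (nat_lit 138) (.e (nat_lit 671762) (nat_lit 4) (.e (nat_lit 65583) (nat_lit 7) (.e (nat_lit 319506) (nat_lit 10) (.e (nat_lit 5721) (nat_lit 312) .nil))))) .nil)) 
(.lf (nat_lit 88436) (.g (nat_lit 2358) (.e (nat_lit 2006) (nat_lit 138) (.e (nat_lit 671762) (nat_lit 4) (.e (nat_lit 65611) (nat_lit 10) (.e (nat_lit 344169) (nat_lit 40) (.e (nat_lit 671764) (nat_lit 6) (.e (nat_lit 81938) (nat_lit 20) .nil)))))) (.g (nat_lit 0) .nil .nil))))) (.nd (nat_lit 4) (.nd (nat_lit 5) 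
(.lf (nat_lit 88396) (.g (nat_lit 2312) (.e (nat_lit 2006) (nat_lit 138) (.e (nat_lit 671761) (nat_lit 4) (.e (nat_lit 65624) (nat_lit 12) (.e (nat_lit 385093) (nat_lit 49) (.e (nat_lit 778327) (nat_lit 6) .nil))))) .nil)) 
(.lf (nat_lit 88428) (.g (nat_lit 2047) (.e (nat_lit 2006) (nat_lit 138) (.e (nat_lit 671762) (nat_lit 4) (.e (nat_lit 65610) (nat_lit 10) (.e (nat_lit 344097) (nat_lit 18) (.e (nat_lit 5907) (nat_lit 320) (.e (nat_lit 1219) (nat_lit 90) (.e (nat_lit 81939) (nat_lit 20) .nil))))))) (.g (nat_lit 4) .nil .nil)))) (.nd (nat_lit 5) 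
(.lf (nat_lit 88412) (.g (nat_lit 1008) (.e (nat_lit 2006) (nat_lit 138) (.e (nat_lit 671762) (nat_lit 4) (.e (nat_lit 65586) (nat_lit 7) (.e (nat_lit 319500) (nat_lit 10) .nil)))) .nil)) 
(.lf (nat_lit 88444) (.g (nat_lit 2075) (.e (nat_lit 2006) (nat_lit 138) (.e (nat_lit 671762) (nat_lit 4) (.e (nat_lit 65617) (nat_lit 10) (.e (nat_lit 344097) (nat_lit 18) (.e (nat_lit 5907) (nat_lit 320) .nil))))) .nil)))))) (.nd (nat_lit 2) (.nd (nat_lit 3) (.nd (nat_lit 4) (.nd (nat_lit 5) 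
(.lf (nat_lit 88386) (.g (nat_lit 2782) (.e (nat_lit 2006) (nat_lit 138) (.e (nat_lit 671760) (nat_lit 4) (.e (nat_lit 65624) (nat_lit 12) (.e (nat_lit 385094) (nat_lit 49) (.e (nat_lit 778326) (nat_lit 6) (.e (nat_lit 81938) (nat_lit 20) .nil)))))) (.g (nat_lit 0) .nil .nil))) 
(.lf (nat_lit 88418) (.g (nat_lit 2019) (.e (nat_lit 2006) (nat_lit 138) (.e (nat_lit 671762) (nat_lit 4) (.e (nat_lit 65598) (nat_lit 9) (.e (nat_lit 335907) (nat_lit 0) (.e (nat_lit 1996) (nat_lit 137) (.e (nat_lit 663569) (nat_lit 6) (.e (nat_lit 81943) (nat_lit 20) .nil))))))) (.g (nat_lit 4) .nil .nil)))) (.nd (nat_lit 5) 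
(.lf (nat_lit 88402) (.g (nat_lit 1488) (.e (nat_lit 2006) (nat_lit 138) (.e (nat_lit 671762) (nat_lit 4) (.e (nat_lit 65543) (nat_lit 0) (.e (nat_lit 6113) (nat_lit 332) (.e (nat_lit 1376) (nat_lit 104) (.e (nat_lit 303155) (nat_lit 29) (.e (nat_lit 352297) (nat_lit 20) .nil))))))) (.g (nat_lit 4) .nil .nil))) 
(.lf (nat_lit 88434) (.g (nat_lit 1902) (.e (nat_lit 2006) (nat_lit 138) (.e (nat_lit 671762) (nat_lit 4) (.e (nat_lit 65611) (nat_lit 10) (.e (nat_lit 344168) (nat_lit 40) (.e (nat_lit 671764) (nat_lit 6) (.e (nat_lit 81942) (nat_lit 20) .nil)))))) (.g (nat_lit 6) .nil .nil))))) (.nd (nat_lit 4) (.nd (nat_lit 5) 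
(.lf (nat_lit 88394) (.g (nat_lit 1868) (.e (nat_lit 2006) (nat_lit 138) (.e (nat_lit 671761) (nat_lit 4) (.e (nat_lit 65624) (nat_lit 12) (.e (nat_lit 385092) (nat_lit 49) (.e (nat_lit 778326) (nat_lit 6) .nil))))) .nil)) 
(.lf (nat_lit 88426) (.g (nat_lit 1762) (.e (nat_lit 2006) (nat_lit 138) (.e (nat_lit 671762) (nat_lit 4) (.e (nat_lit 65610) (nat_lit 10) (.e (nat_lit 344097) (nat_lit 18) (.e (nat_lit 5907) (nat_lit 320) .nil))))) .nil))) (.nd (nat_lit 5) 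
(.lf (nat_lit 88410) (.g (nat_lit 1794) (.e (nat_lit 2006) (nat_lit 138) (.e (nat_lit 671762) (nat_lit 4) (.e (nat_lit 65584) (nat_lit 7) (.e (nat_lit 319539) (nat_lit 19) (.e (nat_lit 311358) (nat_lit 29) (.e (nat_lit 352296) (nat_lit 20) .nil)))))) (.g (nat_lit 0) .nil .nil))) 
(.lf (nat_lit 88442) (.g (nat_lit 2299) (.e (nat_lit 2006) (nat_lit 138) (.e (nat_lit 671762) (nat_lit 4) (.e (nat_lit 65616) (nat_lit 10) (.e (nat_lit 344169) (nat_lit 40) (.e (nat_lit 671764) (nat_lit 6) (.e (nat_lit 81938) (nat_lit 20) .nil)))))) (.g (nat_lit 0) .nil .nil)))))) (.nd (nat_lit 3) (.nd (nat_lit 4) (.nd (nat_lit 5) 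
(.lf (nat_lit 88390) (.g (nat_lit 2006) (.e (nat_lit 2006) (nat_lit 138) (.e (nat_lit 671760) (nat_lit 4) (.e (nat_lit 65630) (nat_lit 14) (.e (nat_lit 401436) (nat_lit 9) (.e (nat_lit 426542) (nat_lit 29) (.e (nat_lit 352290) (nat_lit 20) .nil)))))) (.g (nat_lit 5) .nil .nil))) 
(.lf (nat_lit 88422) (.g (nat_lit 632) (.e (nat_lit 2006) (nat_lit 138) (.e (nat_lit 671762) (nat_lit 4) (.e (nat_lit 65599) (nat_lit 9) .nil))) .nil))) (.nd (nat_lit 5) 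
(.lf (nat_lit 88406) (.g (nat_lit 1553) (.e (nat_lit 2006) (nat_lit 138) (.e (nat_lit 671762) (nat_lit 4) (.e (nat_lit 65583) (nat_lit 7) (.e (nat_lit 319506) (nat_lit 10) (.e (nat_lit 5723) (nat_lit 312) .nil))))) .nil)) 
(.lf (nat_lit 88438) (.g (nat_lit 1729) (.e (nat_lit 2006) (nat_lit 138) (.e (nat_lit 671762) (nat_lit 4) (.e (nat_lit 65616) (nat_lit 10) (.e (nat_lit 344168) (nat_lit 40) (.e (nat_lit 671764) (nat_lit 6) (.e (nat_lit 81939) (nat_lit 20) .nil)))))) (.g (nat_lit 5) .nil .nil))))) (.nd (nat_lit 4) (.nd (nat_lit 5) 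
(.lf (nat_lit 88398) (.g (nat_lit 2048) (.e (nat_lit 2006) (nat_lit 138) (.e (nat_lit 671761) (nat_lit 4) (.e (nat_lit 65624) (nat_lit 12) (.e (nat_lit 385094) (nat_lit 49) (.e (nat_lit 778327) (nat_lit 6) (.e (nat_lit 81947) (nat_lit 20) .nil)))))) (.g (nat_lit 4) .nil .nil))) 
(.lf (nat_lit 88430) (.g (nat_lit 2197) (.e (nat_lit 2006) (nat_lit 138) (.e (nat_lit 671762) (nat_lit 4) (.e (nat_lit 65610) (nat_lit 10) (.e (nat_lit 344168) (nat_lit 40) (.e (nat_lit 671764) (nat_lit 6) (.e (nat_lit 81942) (nat_lit 20) .nil)))))) (.g (nat_lit 6) .nil .nil)))) (.nd (nat_lit 5) 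
(.lf (nat_lit 88414) (.g (nat_lit 2056) (.e (nat_lit 2006) (nat_lit 138) (.e (nat_lit 671762) (nat_lit 4) (.e (nat_lit 65586) (nat_lit 7) (.e (nat_lit 319539) (nat_lit 19) (.e (nat_lit 311358) (nat_lit 29) (.e (nat_lit 352296) (nat_lit 20) .nil)))))) (.g (nat_lit 0) .nil .nil))) 
(.lf (nat_lit 88446) (.g (nat_lit 2135) (.e (nat_lit 2006) (nat_lit 138) (.e (nat_lit 671762) (nat_lit 4) (.e (nat_lit 65617) (nat_lit 10) (.e (nat_lit 344168) (nat_lit 40) (.e (nat_lit 671764) (nat_lit 6) (.e (nat_lit 81942) (nat_lit 20) .nil)))))) (.g (nat_lit 5) .nil .nil)))))))) (.nd (nat_lit 1) (.nd (nat_lit 2) (.nd (nat_lit 3) (.nd (nat_lit 4) (.nd (nat_lit 5) 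
(.lf (nat_lit 88385) (.g (nat_lit 1735) (.e (nat_lit 2006) (nat_lit 138) (.e (nat_lit 671760) (nat_lit 4) (.e (nat_lit 65624) (nat_lit 12) (.e (nat_lit 385093) (nat_lit 49) (.e (nat_lit 778326) (nat_lit 6) (.e (nat_lit 81939) (nat_lit 20) .nil)))))) (.g (nat_lit 4) .nil .nil))) 
(.lf (nat_lit 88417) (.g (nat_lit 2248) (.e (nat_lit 2006) (nat_lit 138) (.e (nat_lit 671762) (nat_lit 4) (.e (nat_lit 65598) (nat_lit 9) (.e (nat_lit 335907) (nat_lit 0) (.e (nat_lit 1994) (nat_lit 137) (.e (nat_lit 663569) (nat_lit 6) (.e (nat_lit 81946) (nat_lit 20) .nil))))))) (.g (nat_lit 4) .nil .nil)))) (.nd (nat_lit 5) 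
(.lf (nat_lit 88401) (.g (nat_lit 1751) (.e (nat_lit 2006) (nat_lit 138) (.e (nat_lit 671762) (nat_lit 4) (.e (nat_lit 65542) (nat_lit 0) (.e (nat_lit 6113) (nat_lit 332) (.e (nat_lit 1376) (nat_lit 104) (.e (nat_lit 303155) (nat_lit 29) (.e (nat_lit 352297) (nat_lit 20) .nil))))))) (.g (nat_lit 5) .nil .nil))) 
(.lf (nat_lit 88433) (.g (nat_lit 1843) (.e (nat_lit 2006) (nat_lit 138) (.e (nat_lit 671762) (nat_lit 4) (.e (nat_lit 65611) (nat_lit 10) (.e (nat_lit 344168) (nat_lit 40) (.e (nat_lit 671764) (nat_lit 6) (.e (nat_lit 81939) (nat_lit 20) .nil)))))) (.g (nat_lit 5) .nil .nil))))) (.nd (nat_lit 4) (.nd (nat_lit 5) 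
(.lf (nat_lit 88393) (.g (nat_lit 1399) (.e (nat_lit 2006) (nat_lit 138) (.e (nat_lit 671761) (nat_lit 4) (.e (nat_lit 65624) (nat_lit 12) (.e (nat_lit 385092) (nat_lit 49) .nil)))) .nil)) 
(.lf (nat_lit 88425) (.g (nat_lit 1075) (.e (nat_lit 2006) (nat_lit 138) (.e (nat_lit 671762) (nat_lit 4) (.e (nat_lit 65604) (nat_lit 9) (.e (nat_lit 335997) (nat_lit 1) .nil)))) .nil))) (.nd (nat_lit 5) 
(.lf (nat_lit 88409) (.g (nat_lit 1488) (.e (nat_lit 2006) (nat_lit 138) (.e (nat_lit 671762) (nat_lit 4) (.e (nat_lit 65584) (nat_lit 7) (.e (nat_lit 319506) (nat_lit 10) (.e (nat_lit 5722) (nat_lit 312) .nil))))) .nil)) 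
(.lf (nat_lit 88441) (.g (nat_lit 2574) (.e (nat_lit 2006) (nat_lit 138) (.e (nat_lit 671762) (nat_lit 4) (.e (nat_lit 65616) (nat_lit 10) (.e (nat_lit 344168) (nat_lit 40) (.e (nat_lit 671764) (nat_lit 6) (.e (nat_lit 81947) (nat_lit 20) .nil)))))) (.g (nat_lit 6) .nil .nil)))))) (.nd (nat_lit 3) (.nd (nat_lit 4) (.nd (nat_lit 5) 
(.lf (nat_lit 88389) (.g (nat_lit 2324) (.e (nat_lit 2006) (nat_lit 138) (.e (nat_lit 671760) (nat_lit 4) (.e (nat_lit 65628) (nat_lit 14) (.e (nat_lit 401459) (nat_lit 13) (.e (nat_lit 483386) (nat_lit 23) (.e (nat_lit 335928) (nat_lit 0) .nil)))))) (.g (nat_lit 4) .nil .nil))) 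
(.lf (nat_lit 88421) (.g (nat_lit 2984) (.e (nat_lit 2006) (nat_lit 138) (.e (nat_lit 671762) (nat_lit 4) (.e (nat_lit 65598) (nat_lit 9) (.e (nat_lit 336032) (nat_lit 4) (.e (nat_lit 123184) (nat_lit 264) (.e (nat_lit 1222) (nat_lit 90) (.e (nat_lit 81943) (nat_lit 20) .nil))))))) (.g (nat_lit 6) .nil .nil)))) (.nd (nat_lit 5) 
(.lf (nat_lit 88405) (.g (nat_lit 1676) (.e (nat_lit 2006) (nat_lit 138) (.e (nat_lit 671762) (nat_lit 4) (.e (nat_lit 65583) (nat_lit 7) (.e (nat_lit 319506) (nat_lit 10) (.e (nat_lit 5722) (nat_lit 312) .nil))))) .nil)) 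
(.lf (nat_lit 88437) (.g (nat_lit 2264) (.e (nat_lit 2006) (nat_lit 138) (.e (nat_lit 671762) (nat_lit 4) (.e (nat_lit 65616) (nat_lit 10) (.e (nat_lit 344168) (nat_lit 40) (.e (nat_lit 671764) (nat_lit 6) (.e (nat_lit 81938) (nat_lit 20) .nil)))))) (.g (nat_lit 6) .nil .nil))))) (.nd (nat_lit 4) (.nd (nat_lit 5) 
(.lf (nat_lit 88397) (.g (nat_lit 2707) (.e (nat_lit 2006) (nat_lit 138) (.e (nat_lit 671761) (nat_lit 4) (.e (nat_lit 65624) (nat_lit 12) (.e (nat_lit 385094) (nat_lit 49) (.e (nat_lit 778326) (nat_lit 6) (.e (nat_lit 81939) (nat_lit 20) .nil)))))) (.g (nat_lit 6) .nil .nil))) 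
(.lf (nat_lit 88429) (.g (nat_lit 2128) (.e (nat_lit 2006) (nat_lit 138) (.e (nat_lit 671762) (nat_lit 4) (.e (nat_lit 65610) (nat_lit 10) (.e (nat_lit 344168) (nat_lit 40) (.e (nat_lit 671764) (nat_lit 6) (.e (nat_lit 81939) (nat_lit 20) .nil)))))) (.g (nat_lit 5) .nil .nil)))) (.nd (nat_lit 5) 
(.lf (nat_lit 88413) (.g (nat_lit 1033) (.e (nat_lit 2006) (nat_lit 138) (.e (nat_lit 671762) (nat_lit 4) (.e (nat_lit 65586) (nat_lit 7) (.e (nat_lit 327424) (nat_lit 18) .nil)))) .nil)) 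
(.lf (nat_lit 88445) (.g (nat_lit 2732) (.e (nat_lit 2006) (nat_lit 138) (.e (nat_lit 671762) (nat_lit 4) (.e (nat_lit 65617) (nat_lit 10) (.e (nat_lit 344168) (nat_lit 40) (.e (nat_lit 671764) (nat_lit 6) (.e (nat_lit 81938) (nat_lit 20) .nil)))))) (.g (nat_lit 6) .nil .nil))))))) (.nd (nat_lit 2) (.nd (nat_lit 3) (.nd (nat_lit 4) (.nd (nat_lit 5) 
(.lf (nat_lit 88387) (.g (nat_lit 2241) (.e (nat_lit 2006) (nat_lit 138) (.e (nat_lit 671760) (nat_lit 4) (.e (nat_lit 65624) (nat_lit 12) (.e (nat_lit 385094) (nat_lit 49) (.e (nat_lit 778326) (nat_lit 6) (.e (nat_lit 81939) (nat_lit 20) .nil)))))) (.g (nat_lit 5) .nil .nil))) 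
(.lf (nat_lit 88419) (.g (nat_lit 2224) (.e (nat_lit 2006) (nat_lit 138) (.e (nat_lit 671762) (nat_lit 4) (.e (nat_lit 65598) (nat_lit 9) (.e (nat_lit 335907) (nat_lit 0) (.e (nat_lit 1996) (nat_lit 137) (.e (nat_lit 663569) (nat_lit 6) (.e (nat_lit 81946) (nat_lit 20) .nil))))))) (.g (nat_lit 4) .nil .nil)))) (.nd (nat_lit 5) 
(.lf (nat_lit 88403) (.g (nat_lit 600) (.e (nat_lit 2006) (nat_lit 138) (.e (nat_lit 671762) (nat_lit 4) (.e (nat_lit 65581) (nat_lit 7) .nil))) .nil)) 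
(.lf (nat_lit 88435) (.g (nat_lit 2227) (.e (nat_lit 2006) (nat_lit 138) (.e (nat_lit 671762) (nat_lit 4) (.e (nat_lit 65611) (nat_lit 10) (.e (nat_lit 344168) (nat_lit 40) (.e (nat_lit 671764) (nat_lit 6) (.e (nat_lit 81946) (nat_lit 20) .nil)))))) (.g (nat_lit 6) .nil .nil))))) (.nd (nat_lit 4) (.nd (nat_lit 5) 
(.lf (nat_lit 88395) (.g (nat_lit 2030) (.e (nat_lit 2006) (nat_lit 138) (.e (nat_lit 671761) (nat_lit 4) (.e (nat_lit 65624) (nat_lit 12) (.e (nat_lit 385093) (nat_lit 49) (.e (nat_lit 778326) (nat_lit 6) .nil))))) .nil)) 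
(.lf (nat_lit 88427) (.g (nat_lit 1894) (.e (nat_lit 2006) (nat_lit 138) (.e (nat_lit 671762) (nat_lit 4) (.e (nat_lit 65610) (nat_lit 10) (.e (nat_lit 344097) (nat_lit 18) (.e (nat_lit 5907) (nat_lit 320) (.e (nat_lit 1219) (nat_lit 90) (.e (nat_lit 81938) (nat_lit 20) .nil))))))) (.g (nat_lit 4) .nil .nil)))) (.nd (nat_lit 5) 
(.lf (nat_lit 88411) (.g (nat_lit 1627) (.e (nat_lit 2006) (nat_lit 138) (.e (nat_lit 671762) (nat_lit 4) (.e (nat_lit 65585) (nat_lit 7) (.e (nat_lit 319539) (nat_lit 19) (.e (nat_lit 311358) (nat_lit 29) (.e (nat_lit 352296) (nat_lit 20) .nil)))))) (.g (nat_lit 0) .nil .nil))) 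
(.lf (nat_lit 88443) (.g (nat_lit 1920) (.e (nat_lit 2006) (nat_lit 138) (.e (nat_lit 671762) (nat_lit 4) (.e (nat_lit 65617) (nat_lit 10) (.e (nat_lit 344091) (nat_lit 18) (.e (nat_lit 5896) (nat_lit 320) .nil))))) .nil))))) (.nd (nat_lit 3) (.nd (nat_lit 4) (.nd (nat_lit 5) 
(.lf (nat_lit 88391) (.g (nat_lit 1938) (.e (nat_lit 2006) (nat_lit 138) (.e (nat_lit 671760) (nat_lit 4) (.e (nat_lit 65630) (nat_lit 14) (.e (nat_lit 401436) (nat_lit 9) (.e (nat_lit 426542) (nat_lit 29) (.e (nat_lit 352297) (nat_lit 20) .nil)))))) (.g (nat_lit 5) .nil .nil))) 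
(.lf (nat_lit 88423) (.g (nat_lit 1742) (.e (nat_lit 2006) (nat_lit 138) (.e (nat_lit 671762) (nat_lit 4) (.e (nat_lit 65604) (nat_lit 9) (.e (nat_lit 335907) (nat_lit 0) (.e (nat_lit 1994) (nat_lit 137) .nil))))) .nil))) (.nd (nat_lit 5) 
(.lf (nat_lit 88407) (.g (nat_lit 399) (.e (nat_lit 2006) (nat_lit 138) (.e (nat_lit 671762) (nat_lit 4) (.e (nat_lit 65584) (nat_lit 7) .nil))) .nil)) 
(.lf (nat_lit 88439) (.g (nat_lit 1785) (.e (nat_lit 2006) (nat_lit 138) (.e (nat_lit 671762) (nat_lit 4) (.e (nat_lit 65616) (nat_lit 10) (.e (nat_lit 344168) (nat_lit 40) (.e (nat_lit 671764) (nat_lit 6) (.e (nat_lit 81942) (nat_lit 20) .nil)))))) (.g (nat_lit 5) .nil .nil))))) (.nd (nat_lit 4) (.nd (nat_lit 5) 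
(.lf (nat_lit 88399) (.g (nat_lit 554) (.e (nat_lit 2006) (nat_lit 138) (.e (nat_lit 671762) (nat_lit 4) (.e (nat_lit 65537) (nat_lit 0) .nil))) .nil)) 
(.lf (nat_lit 88431) (.g (nat_lit 2512) (.e (nat_lit 2006) (nat_lit 138) (.e (nat_lit 671762) (nat_lit 4) (.e (nat_lit 65610) (nat_lit 10) (.e (nat_lit 344168) (nat_lit 40) (.e (nat_lit 671764) (nat_lit 6) (.e (nat_lit 81946) (nat_lit 20) .nil)))))) (.g (nat_lit 6) .nil .nil)))) (.nd (nat_lit 5) 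
(.lf (nat_lit 88415) (.g (nat_lit 620) (.e (nat_lit 2006) (nat_lit 138) (.e (nat_lit 671762) (nat_lit 4) (.e (nat_lit 65595) (nat_lit 9) .nil))) .nil)) 
(.lf (nat_lit 88447) (.g (nat_lit 2399) (.e (nat_lit 2006) (nat_lit 138) (.e (nat_lit 671762) (nat_lit 4) (.e (nat_lit 65617) (nat_lit 10) (.e (nat_lit 344168) (nat_lit 40) (.e (nat_lit 671764) (nat_lit 6) (.e (nat_lit 81943) (nat_lit 20) .nil)))))) (.g (nat_lit 5) .nil .nil)))))))))

noncomputable def tv1206 : DT := (.nd (nat_lit 0) (.nd (nat_lit 1) (.nd (nat_lit 2) (.nd (nat_lit 3) (.nd (nat_lit 4) (.nd (nat_lit 5) 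
(.lf (nat_lit 88448) (.g (nat_lit 2562) (.e (nat_lit 2006) (nat_lit 138) (.e (nat_lit 671762) (nat_lit 4) (.e (nat_lit 65617) (nat_lit 10) (.e (nat_lit 344168) (nat_lit 40) (.e (nat_lit 671764) (nat_lit 6) (.e (nat_lit 81946) (nat_lit 20) .nil)))))) (.g (nat_lit 6) .nil .nil))) 
(.lf (nat_lit 88480) (.g (nat_lit 2521) (.e (nat_lit 2006) (nat_lit 138) (.e (nat_lit 671762) (nat_lit 4) (.e (nat_lit 65629) (nat_lit 14) (.e (nat_lit 401459) (nat_lit 13) (.e (nat_lit 483344) (nat_lit 17) (.e (nat_lit 6438) (nat_lit 343) (.e (nat_lit 1018) (nat_lit 81) .nil))))))) (.g (nat_lit 4) .nil .nil)))) (.nd (nat_lit 5) 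
(.lf (nat_lit 88464) (.g (nat_lit 1781) (.e (nat_lit 2006) (nat_lit 138) (.e (nat_lit 671762) (nat_lit 4) (.e (nat_lit 65623) (nat_lit 12) (.e (nat_lit 385093) (nat_lit 49) (.e (nat_lit 778326) (nat_lit 6) .nil))))) .nil)) 
(.lf (nat_lit 88496) (.g (nat_lit 1043) (.e (nat_lit 2006) (nat_lit 138) (.e (nat_lit 671762) (nat_lit 4) (.e (nat_lit 65630) (nat_lit 14) (.e (nat_lit 401459) (nat_lit 13) .nil)))) .nil)))) (.nd (nat_lit 4) (.nd (nat_lit 5) 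
(.lf (nat_lit 88456) (.g (nat_lit 1831) (.e (nat_lit 2006) (nat_lit 138) (.e (nat_lit 671762) (nat_lit 4) (.e (nat_lit 65620) (nat_lit 10) (.e (nat_lit 344097) (nat_lit 18) (.e (nat_lit 5906) (nat_lit 320) (.e (nat_lit 1221) (nat_lit 90) (.e (nat_lit 81938) (nat_lit 20) .nil))))))) (.g (nat_lit 4) .nil .nil))) 
(.lf (nat_lit 88488) (.g (nat_lit 4135) (.e (nat_lit 2006) (nat_lit 138) (.e (nat_lit 671762) (nat_lit 4) (.e (nat_lit 65629) (nat_lit 14) (.e (nat_lit 401459) (nat_lit 13) (.e (nat_lit 483392) (nat_lit 23) (.e (nat_lit 335917) (nat_lit 0) .nil)))))) (.g (nat_lit 4) .nil .nil)))) (.nd (nat_lit 5) 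
(.lf (nat_lit 88472) (.g (nat_lit 2549) (.e (nat_lit 2006) (nat_lit 138) (.e (nat_lit 671762) (nat_lit 4) (.e (nat_lit 65624) (nat_lit 12) (.e (nat_lit 385094) (nat_lit 49) (.e (nat_lit 778326) (nat_lit 6) (.e (nat_lit 81939) (nat_lit 20) .nil)))))) (.g (nat_lit 6) .nil .nil))) 
(.lf (nat_lit 88504) (.g (nat_lit 2040) (.e (nat_lit 2006) (nat_lit 138) (.e (nat_lit 671764) (nat_lit 6) (.e (nat_lit 81922) (nat_lit 0) (.e (nat_lit 3632) (nat_lit 227) (.e (nat_lit 778327) (nat_lit 6) (.e (nat_lit 81946) (nat_lit 20) .nil)))))) (.g (nat_lit 0) .nil .nil)))))) (.nd (nat_lit 3) (.nd (nat_lit 4) (.nd (nat_lit 5) 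
(.lf (nat_lit 88452) (.g (nat_lit 2149) (.e (nat_lit 2006) (nat_lit 138) (.e (nat_lit 671762) (nat_lit 4) (.e (nat_lit 65619) (nat_lit 10) (.e (nat_lit 344168) (nat_lit 40) (.e (nat_lit 671764) (nat_lit 6) (.e (nat_lit 81939) (nat_lit 20) .nil)))))) (.g (nat_lit 5) .nil .nil))) 
(.lf (nat_lit 88484) (.g (nat_lit 2508) (.e (nat_lit 2006) (nat_lit 138) (.e (nat_lit 671762) (nat_lit 4) (.e (nat_lit 65629) (nat_lit 14) (.e (nat_lit 401459) (nat_lit 13) (.e (nat_lit 483387) (nat_lit 23) (.e (nat_lit 335937) (nat_lit 0) .nil)))))) (.g (nat_lit 4) .nil .nil)))) (.nd (nat_lit 5) 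
(.lf (nat_lit 88468) (.g (nat_lit 2483) (.e (nat_lit 2006) (nat_lit 138) (.e (nat_lit 671762) (nat_lit 4) (.e (nat_lit 65624) (nat_lit 12) (.e (nat_lit 385092) (nat_lit 49) (.e (nat_lit 778326) (nat_lit 6) (.e (nat_lit 81938) (nat_lit 20) .nil)))))) (.g (nat_lit 6) .nil .nil))) 
(.lf (nat_lit 88500) (.g (nat_lit 1932) (.e (nat_lit 2006) (nat_lit 138) (.e (nat_lit 671763) (nat_lit 5) (.e (nat_lit 73792) (nat_lit 45) (.e (nat_lit 1386) (nat_lit 105) (.e (nat_lit 311358) (nat_lit 29) (.e (nat_lit 352297) (nat_lit 20) .nil)))))) (.g (nat_lit 0) .nil .nil))))) (.nd (nat_lit 4) (.nd (nat_lit 5) 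
(.lf (nat_lit 88460) (.g (nat_lit 1356) (.e (nat_lit 2006) (nat_lit 138) (.e (nat_lit 671762) (nat_lit 4) (.e (nat_lit 65622) (nat_lit 12) (.e (nat_lit 385092) (nat_lit 49) (.e (nat_lit 778326) (nat_lit 6) (.e (nat_lit 81939) (nat_lit 20) .nil)))))) (.g (nat_lit 4) .nil .nil))) 
(.lf (nat_lit 88492) (.g (nat_lit 2835) (.e (nat_lit 2006) (nat_lit 138) (.e (nat_lit 671762) (nat_lit 4) (.e (nat_lit 65630) (nat_lit 14) (.e (nat_lit 401435) (nat_lit 9) (.e (nat_lit 426542) (nat_lit 29) .nil))))) .nil))) (.nd (nat_lit 5) 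
(.lf (nat_lit 88476) (.g (nat_lit 2856) (.e (nat_lit 2006) (nat_lit 138) (.e (nat_lit 671762) (nat_lit 4) (.e (nat_lit 65628) (nat_lit 14) (.e (nat_lit 401438) (nat_lit 9) (.e (nat_lit 426542) (nat_lit 29) (.e (nat_lit 352297) (nat_lit 20) .nil)))))) (.g (nat_lit 0) .nil .nil))) 
(.lf (nat_lit 88508) (.g (nat_lit 1070) (.e (nat_lit 2006) (nat_lit 138) (.e (nat_lit 671764) (nat_lit 6) (.e (nat_lit 81942) (nat_lit 20) (.e (nat_lit 2006) (nat_lit 138) (.e (nat_lit 671764) (nat_lit 6) (.e (nat_lit 81942) (nat_lit 20) .nil)))))) (.g (nat_lit 0) .nil .nil))))))) (.nd (nat_lit 2) (.nd (nat_lit 3) (.nd (nat_lit 4) (.nd (nat_lit 5) 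
(.lf (nat_lit 88450) (.g (nat_lit 1825) (.e (nat_lit 2006) (nat_lit 138) (.e (nat_lit 671762) (nat_lit 4) (.e (nat_lit 65619) (nat_lit 10) (.e (nat_lit 344090) (nat_lit 18) (.e (nat_lit 5896) (nat_lit 320) .nil))))) .nil)) 
(.lf (nat_lit 88482) (.g (nat_lit 2538) (.e (nat_lit 2006) (nat_lit 138) (.e (nat_lit 671762) (nat_lit 4) (.e (nat_lit 65629) (nat_lit 14) (.e (nat_lit 401459) (nat_lit 13) (.e (nat_lit 483387) (nat_lit 23) (.e (nat_lit 335916) (nat_lit 0) .nil)))))) (.g (nat_lit 4) .nil .nil)))) (.nd (nat_lit 5) 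
(.lf (nat_lit 88466) (.g (nat_lit 2211) (.e (nat_lit 2006) (nat_lit 138) (.e (nat_lit 671762) (nat_lit 4) (.e (nat_lit 65623) (nat_lit 12) (.e (nat_lit 385094) (nat_lit 49) (.e (nat_lit 778326) (nat_lit 6) (.e (nat_lit 81939) (nat_lit 20) .nil)))))) (.g (nat_lit 6) .nil .nil))) 
(.lf (nat_lit 88498) (.g (nat_lit 2604) (.e (nat_lit 2006) (nat_lit 138) (.e (nat_lit 671762) (nat_lit 4) (.e (nat_lit 65630) (nat_lit 14) (.e (nat_lit 401459) (nat_lit 13) (.e (nat_lit 483344) (nat_lit 17) (.e (nat_lit 6439) (nat_lit 343) (.e (nat_lit 1018) (nat_lit 81) .nil))))))) (.g (nat_lit 5) .nil .nil))))) (.nd (nat_lit 4) (.nd (nat_lit 5) 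
(.lf (nat_lit 88458) (.g (nat_lit 1896) (.e (nat_lit 2006) (nat_lit 138) (.e (nat_lit 671762) (nat_lit 4) (.e (nat_lit 65620) (nat_lit 10) (.e (nat_lit 344168) (nat_lit 40) (.e (nat_lit 671764) (nat_lit 6) (.e (nat_lit 81943) (nat_lit 20) .nil)))))) (.g (nat_lit 5) .nil .nil))) 
(.lf (nat_lit 88490) (.g (nat_lit 2605) (.e (nat_lit 2006) (nat_lit 138) (.e (nat_lit 671762) (nat_lit 4) (.e (nat_lit 65629) (nat_lit 14) (.e (nat_lit 401459) (nat_lit 13) (.e (nat_lit 483393) (nat_lit 23) .nil))))) .nil))) (.nd (nat_lit 5) 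
(.lf (nat_lit 88474) (.g (nat_lit 1136) (.e (nat_lit 2006) (nat_lit 138) (.e (nat_lit 671762) (nat_lit 4) (.e (nat_lit 65628) (nat_lit 14) (.e (nat_lit 401436) (nat_lit 9) .nil)))) .nil)) 
(.lf (nat_lit 88506) (.g (nat_lit 1543) (.e (nat_lit 2006) (nat_lit 138) (.e (nat_lit 671764) (nat_lit 6) (.e (nat_lit 81924) (nat_lit 0) (.e (nat_lit 3632) (nat_lit 227) (.e (nat_lit 778326) (nat_lit 6) (.e (nat_lit 81939) (nat_lit 20) .nil)))))) (.g (nat_lit 0) .nil .nil)))))) (.nd (nat_lit 3) (.nd (nat_lit 4) (.nd (nat_lit 5) 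
(.lf (nat_lit 88454) (.g (nat_lit 2515) (.e (nat_lit 2006) (nat_lit 138) (.e (nat_lit 671762) (nat_lit 4) (.e (nat_lit 65619) (nat_lit 10) (.e (nat_lit 344168) (nat_lit 40) (.e (nat_lit 671764) (nat_lit 6) (.e (nat_lit 81946) (nat_lit 20) .nil)))))) (.g (nat_lit 6) .nil .nil))) 
(.lf (nat_lit 88486) (.g (nat_lit 2758) (.e (nat_lit 2006) (nat_lit 138) (.e (nat_lit 671762) (nat_lit 4) (.e (nat_lit 65629) (nat_lit 14) (.e (nat_lit 401459) (nat_lit 13) (.e (nat_lit 483389) (nat_lit 23) .nil))))) .nil))) (.nd (nat_lit 5) 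
(.lf (nat_lit 88470) (.g (nat_lit 2075) (.e (nat_lit 2006) (nat_lit 138) (.e (nat_lit 671762) (nat_lit 4) (.e (nat_lit 65624) (nat_lit 12) (.e (nat_lit 385092) (nat_lit 49) (.e (nat_lit 778327) (nat_lit 6) .nil))))) .nil)) 
(.lf (nat_lit 88502) (.g (nat_lit 712) (.e (nat_lit 2006) (nat_lit 138) (.e (nat_lit 671764) (nat_lit 6) (.e (nat_lit 81922) (nat_lit 0) (.e (nat_lit 3629) (nat_lit 227) (.e (nat_lit 778326) (nat_lit 6) (.e (nat_lit 81939) (nat_lit 20) .nil)))))) (.g (nat_lit 4) .nil .nil))))) (.nd (nat_lit 4) (.nd (nat_lit 5) 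
(.lf (nat_lit 88462) (.g (nat_lit 1329) (.e (nat_lit 2006) (nat_lit 138) (.e (nat_lit 671762) (nat_lit 4) (.e (nat_lit 65622) (nat_lit 12) (.e (nat_lit 385092) (nat_lit 49) (.e (nat_lit 778327) (nat_lit 6) .nil))))) .nil)) 
(.lf (nat_lit 88494) (.g (nat_lit 2059) (.e (nat_lit 2006) (nat_lit 138) (.e (nat_lit 671762) (nat_lit 4) (.e (nat_lit 65630) (nat_lit 14) (.e (nat_lit 401438) (nat_lit 9) (.e (nat_lit 426542) (nat_lit 29) .nil))))) .nil))) (.nd (nat_lit 5) 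
(.lf (nat_lit 88478) (.g (nat_lit 1982) (.e (nat_lit 2006) (nat_lit 138) (.e (nat_lit 671762) (nat_lit 4) (.e (nat_lit 65629) (nat_lit 14) (.e (nat_lit 401438) (nat_lit 9) (.e (nat_lit 426542) (nat_lit 29) (.e (nat_lit 352290) (nat_lit 20) .nil)))))) (.g (nat_lit 4) .nil .nil))) 
(.lf (nat_lit 88510) (.g (nat_lit 1196) (.e (nat_lit 2006) (nat_lit 138) (.e (nat_lit 671764) (nat_lit 6) (.e (nat_lit 81943) (nat_lit 20) (.e (nat_lit 2003) (nat_lit 138) (.e (nat_lit 671764) (nat_lit 6) (.e (nat_lit 81939) (nat_lit 20) .nil)))))) (.g (nat_lit 5) .nil .nil)))))))) (.nd (nat_lit 1) (.nd (nat_lit 2) (.nd (nat_lit 3) (.nd (nat_lit 4) (.nd (nat_lit 5) 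
(.lf (nat_lit 88449) (.g (nat_lit 2918) (.e (nat_lit 2006) (nat_lit 138) (.e (nat_lit 671762) (nat_lit 4) (.e (nat_lit 65617) (nat_lit 10) (.e (nat_lit 344168) (nat_lit 40) (.e (nat_lit 671764) (nat_lit 6) (.e (nat_lit 81947) (nat_lit 20) .nil)))))) (.g (nat_lit 6) .nil .nil))) 
(.lf (nat_lit 88481) (.g (nat_lit 3128) (.e (nat_lit 2006) (nat_lit 138) (.e (nat_lit 671762) (nat_lit 4) (.e (nat_lit 65629) (nat_lit 14) (.e (nat_lit 401459) (nat_lit 13) (.e (nat_lit 483344) (nat_lit 17) (.e (nat_lit 6439) (nat_lit 343) (.e (nat_lit 1018) (nat_lit 81) .nil))))))) (.g (nat_lit 5) .nil .nil)))) (.nd (nat_lit 5) 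
(.lf (nat_lit 88465) (.g (nat_lit 1749) (.e (nat_lit 2006) (nat_lit 138) (.e (nat_lit 671762) (nat_lit 4) (.e (nat_lit 65623) (nat_lit 12) (.e (nat_lit 385093) (nat_lit 49) (.e (nat_lit 778327) (nat_lit 6) (.e (nat_lit 81946) (nat_lit 20) .nil)))))) (.g (nat_lit 4) .nil .nil))) 
(.lf (nat_lit 88497) (.g (nat_lit 1997) (.e (nat_lit 2006) (nat_lit 138) (.e (nat_lit 671762) (nat_lit 4) (.e (nat_lit 65630) (nat_lit 14) (.e (nat_lit 401459) (nat_lit 13) (.e (nat_lit 483344) (nat_lit 17) (.e (nat_lit 6438) (nat_lit 343) (.e (nat_lit 1018) (nat_lit 81) .nil))))))) (.g (nat_lit 4) .nil .nil))))) (.nd (nat_lit 4) (.nd (nat_lit 5) 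
(.lf (nat_lit 88457) (.g (nat_lit 2196) (.e (nat_lit 2006) (nat_lit 138) (.e (nat_lit 671762) (nat_lit 4) (.e (nat_lit 65620) (nat_lit 10) (.e (nat_lit 344168) (nat_lit 40) (.e (nat_lit 671764) (nat_lit 6) (.e (nat_lit 81938) (nat_lit 20) .nil)))))) (.g (nat_lit 6) .nil .nil))) 
(.lf (nat_lit 88489) (.g (nat_lit 4168) (.e (nat_lit 2006) (nat_lit 138) (.e (nat_lit 671762) (nat_lit 4) (.e (nat_lit 65629) (nat_lit 14) (.e (nat_lit 401459) (nat_lit 13) (.e (nat_lit 483392) (nat_lit 23) (.e (nat_lit 335926) (nat_lit 0) .nil)))))) (.g (nat_lit 4) .nil .nil)))) (.nd (nat_lit 5) 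
(.lf (nat_lit 88473) (.g (nat_lit 1955) (.e (nat_lit 2006) (nat_lit 138) (.e (nat_lit 671762) (nat_lit 4) (.e (nat_lit 65624) (nat_lit 12) (.e (nat_lit 385094) (nat_lit 49) (.e (nat_lit 778327) (nat_lit 6) (.e (nat_lit 81947) (nat_lit 20) .nil)))))) (.g (nat_lit 4) .nil .nil))) 
(.lf (nat_lit 88505) (.g (nat_lit 860) (.e (nat_lit 2006) (nat_lit 138) (.e (nat_lit 671764) (nat_lit 6) (.e (nat_lit 81924) (nat_lit 0) (.e (nat_lit 3629) (nat_lit 227) (.e (nat_lit 778326) (nat_lit 6) (.e (nat_lit 81939) (nat_lit 20) .nil)))))) (.g (nat_lit 0) .nil .nil)))))) (.nd (nat_lit 3) (.nd (nat_lit 4) (.nd (nat_lit 5) 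
(.lf (nat_lit 88453) (.g (nat_lit 2210) (.e (nat_lit 2006) (nat_lit 138) (.e (nat_lit 671762) (nat_lit 4) (.e (nat_lit 65619) (nat_lit 10) (.e (nat_lit 344168) (nat_lit 40) (.e (nat_lit 671764) (nat_lit 6) (.e (nat_lit 81942) (nat_lit 20) .nil)))))) (.g (nat_lit 6) .nil .nil))) 
(.lf (nat_lit 88485) (.g (nat_lit 2509) (.e (nat_lit 2006) (nat_lit 138) (.e (nat_lit 671762) (nat_lit 4) (.e (nat_lit 65629) (nat_lit 14) (.e (nat_lit 401459) (nat_lit 13) (.e (nat_lit 483387) (nat_lit 23) (.e (nat_lit 335938) (nat_lit 0) .nil)))))) (.g (nat_lit 4) .nil .nil)))) (.nd (nat_lit 5) 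
(.lf (nat_lit 88469) (.g (nat_lit 2229) (.e (nat_lit 2006) (nat_lit 138) (.e (nat_lit 671762) (nat_lit 4) (.e (nat_lit 65624) (nat_lit 12) (.e (nat_lit 385092) (nat_lit 49) (.e (nat_lit 778326) (nat_lit 6) (.e (nat_lit 81939) (nat_lit 20) .nil)))))) (.g (nat_lit 6) .nil .nil))) 
(.lf (nat_lit 88501) (.g (nat_lit 228) (.e (nat_lit 2006) (nat_lit 138) (.e (nat_lit 671764) (nat_lit 6) (.e (nat_lit 81920) (nat_lit 0) .nil))) .nil)))) (.nd (nat_lit 4) (.nd (nat_lit 5) 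
(.lf (nat_lit 88461) (.g (nat_lit 1617) (.e (nat_lit 2006) (nat_lit 138) (.e (nat_lit 671762) (nat_lit 4) (.e (nat_lit 65622) (nat_lit 12) (.e (nat_lit 385092) (nat_lit 49) (.e (nat_lit 778326) (nat_lit 6) (.e (nat_lit 81943) (nat_lit 20) .nil)))))) (.g (nat_lit 5) .nil .nil))) 
(.lf (nat_lit 88493) (.g (nat_lit 1341) (.e (nat_lit 2006) (nat_lit 138) (.e (nat_lit 671762) (nat_lit 4) (.e (nat_lit 65630) (nat_lit 14) (.e (nat_lit 401436) (nat_lit 9) .nil)))) .nil))) (.nd (nat_lit 5) 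
(.lf (nat_lit 88477) (.g (nat_lit 412) (.e (nat_lit 2006) (nat_lit 138) (.e (nat_lit 671762) (nat_lit 4) (.e (nat_lit 65629) (nat_lit 14) .nil))) .nil)) 
(.lf (nat_lit 88509) (.g (nat_lit 1432) (.e (nat_lit 2006) (nat_lit 138) (.e (nat_lit 671764) (nat_lit 6) (.e (nat_lit 81942) (nat_lit 20) (.e (nat_lit 2006) (nat_lit 138) (.e (nat_lit 671764) (nat_lit 6) (.e (nat_lit 81946) (nat_lit 20) .nil)))))) (.g (nat_lit 0) .nil .nil))))))) (.nd (nat_lit 2) (.nd (nat_lit 3) (.nd (nat_lit 4) (.nd (nat_lit 5) 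
(.lf (nat_lit 88451) (.g (nat_lit 1948) (.e (nat_lit 2006) (nat_lit 138) (.e (nat_lit 671762) (nat_lit 4) (.e (nat_lit 65619) (nat_lit 10) (.e (nat_lit 344097) (nat_lit 18) (.e (nat_lit 5907) (nat_lit 320) (.e (nat_lit 1219) (nat_lit 90) (.e (nat_lit 81939) (nat_lit 20) .nil))))))) (.g (nat_lit 4) .nil .nil))) 
(.lf (nat_lit 88483) (.g (nat_lit 2658) (.e (nat_lit 2006) (nat_lit 138) (.e (nat_lit 671762) (nat_lit 4) (.e (nat_lit 65629) (nat_lit 14) (.e (nat_lit 401459) (nat_lit 13) (.e (nat_lit 483387) (nat_lit 23) (.e (nat_lit 335925) (nat_lit 0) .nil)))))) (.g (nat_lit 4) .nil .nil)))) (.nd (nat_lit 5) 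
(.lf (nat_lit 88467) (.g (nat_lit 1779) (.e (nat_lit 2006) (nat_lit 138) (.e (nat_lit 671762) (nat_lit 4) (.e (nat_lit 65623) (nat_lit 12) (.e (nat_lit 385094) (nat_lit 49) (.e (nat_lit 778327) (nat_lit 6) (.e (nat_lit 81947) (nat_lit 20) .nil)))))) (.g (nat_lit 4) .nil .nil))) 
(.lf (nat_lit 88499) (.g (nat_lit 2308) (.e (nat_lit 2006) (nat_lit 138) (.e (nat_lit 671762) (nat_lit 4) (.e (nat_lit 65630) (nat_lit 14) (.e (nat_lit 401459) (nat_lit 13) (.e (nat_lit 483386) (nat_lit 23) .nil))))) .nil)))) (.nd (nat_lit 4) (.nd (nat_lit 5) 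
(.lf (nat_lit 88459) (.g (nat_lit 2509) (.e (nat_lit 2006) (nat_lit 138) (.e (nat_lit 671762) (nat_lit 4) (.e (nat_lit 65620) (nat_lit 10) (.e (nat_lit 344168) (nat_lit 40) (.e (nat_lit 671764) (nat_lit 6) (.e (nat_lit 81947) (nat_lit 20) .nil)))))) (.g (nat_lit 6) .nil .nil))) 
(.lf (nat_lit 88491) (.g (nat_lit 414) (.e (nat_lit 2006) (nat_lit 138) (.e (nat_lit 671762) (nat_lit 4) (.e (nat_lit 65630) (nat_lit 14) .nil))) .nil))) (.nd (nat_lit 5) 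
(.lf (nat_lit 88475) (.g (nat_lit 1685) (.e (nat_lit 2006) (nat_lit 138) (.e (nat_lit 671762) (nat_lit 4) (.e (nat_lit 65628) (nat_lit 14) (.e (nat_lit 401438) (nat_lit 9) (.e (nat_lit 426542) (nat_lit 29) .nil))))) .nil)) 
(.lf (nat_lit 88507) (.g (nat_lit 1979) (.e (nat_lit 2006) (nat_lit 138) (.e (nat_lit 671764) (nat_lit 6) (.e (nat_lit 81924) (nat_lit 0) (.e (nat_lit 3632) (nat_lit 227) (.e (nat_lit 778327) (nat_lit 6) (.e (nat_lit 81946) (nat_lit 20) .nil)))))) (.g (nat_lit 0) .nil .nil)))))) (.nd (nat_lit 3) (.nd (nat_lit 4) (.nd (nat_lit 5) 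
(.lf (nat_lit 88455) (.g (nat_lit 3025) (.e (nat_lit 2006) (nat_lit 138) (.e (nat_lit 671762) (nat_lit 4) (.e (nat_lit 65619) (nat_lit 10) (.e (nat_lit 344168) (nat_lit 40) (.e (nat_lit 671764) (nat_lit 6) (.e (nat_lit 81947) (nat_lit 20) .nil)))))) (.g (nat_lit 0) .nil .nil))) 
(.lf (nat_lit 88487) (.g (nat_lit 3793) (.e (nat_lit 2006) (nat_lit 138) (.e (nat_lit 671762) (nat_lit 4) (.e (nat_lit 65629) (nat_lit 14) (.e (nat_lit 401459) (nat_lit 13) (.e (nat_lit 483392) (nat_lit 23) .nil))))) .nil))) (.nd (nat_lit 5) 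
(.lf (nat_lit 88471) (.g (nat_lit 3199) (.e (nat_lit 2006) (nat_lit 138) (.e (nat_lit 671762) (nat_lit 4) (.e (nat_lit 65624) (nat_lit 12) (.e (nat_lit 385093) (nat_lit 49) (.e (nat_lit 778253) (nat_lit 0) (.e (nat_lit 1557) (nat_lit 110) (.e (nat_lit 352302) (nat_lit 20) .nil))))))) (.g (nat_lit 4) .nil .nil))) 
(.lf (nat_lit 88503) (.g (nat_lit 1717) (.e (nat_lit 2006) (nat_lit 138) (.e (nat_lit 671764) (nat_lit 6) (.e (nat_lit 81922) (nat_lit 0) (.e (nat_lit 3632) (nat_lit 227) (.e (nat_lit 778326) (nat_lit 6) (.e (nat_lit 81939) (nat_lit 20) .nil)))))) (.g (nat_lit 0) .nil .nil))))) (.nd (nat_lit 4) (.nd (nat_lit 5) 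
(.lf (nat_lit 88463) (.g (nat_lit 2327) (.e (nat_lit 2006) (nat_lit 138) (.e (nat_lit 671762) (nat_lit 4) (.e (nat_lit 65622) (nat_lit 12) (.e (nat_lit 385093) (nat_lit 49) (.e (nat_lit 778326) (nat_lit 6) (.e (nat_lit 81939) (nat_lit 20) .nil)))))) (.g (nat_lit 0) .nil .nil))) 
(.lf (nat_lit 88495) (.g (nat_lit 3102) (.e (nat_lit 2006) (nat_lit 138) (.e (nat_lit 671762) (nat_lit 4) (.e (nat_lit 65630) (nat_lit 14) (.e (nat_lit 401458) (nat_lit 13) (.e (nat_lit 483386) (nat_lit 23) .nil))))) .nil))) (.nd (nat_lit 5) 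
(.lf (nat_lit 88479) (.g (nat_lit 1954) (.e (nat_lit 2006) (nat_lit 138) (.e (nat_lit 671762) (nat_lit 4) (.e (nat_lit 65629) (nat_lit 14) (.e (nat_lit 401438) (nat_lit 9) (.e (nat_lit 426542) (nat_lit 29) (.e (nat_lit 352297) (nat_lit 20) .nil)))))) (.g (nat_lit 4) .nil .nil))) 
(.lf (nat_lit 88511) (.g (nat_lit 1118) (.e (nat_lit 2006) (nat_lit 138) (.e (nat_lit 671764) (nat_lit 6) (.e (nat_lit 81943) (nat_lit 20) (.e (nat_lit 2004) (nat_lit 138) (.e (nat_lit 671764) (nat_lit 6) (.e (nat_lit 81939) (nat_lit 20) .nil)))))) (.g (nat_lit 5) .nil .nil)))))))))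

noncomputable def tv1207 : DT := (.nd (nat_lit 0) (.nd (nat_lit 1) (.nd (nat_lit 2) (.nd (nat_lit 3) (.nd (nat_lit 4) (.nd (nat_lit 5) 
(.lf (nat_lit 88512) (.g (nat_lit 1280) (.e (nat_lit 2006) (nat_lit 138) (.e (nat_lit 671764) (nat_lit 6) (.e (nat_lit 81949) (nat_lit 21) (.e (nat_lit 57871) (nat_lit 264) (.e (nat_lit 1219) (nat_lit 90) (.e (nat_lit 81943) (nat_lit 20) .nil)))))) (.g (nat_lit 4) .nil .nil))) 
(.lf (nat_lit 88544) (.g (nat_lit 3065) (.e (nat_lit 2009) (nat_lit 138) (.e (nat_lit 671762) (nat_lit 4) (.e (nat_lit 65629) (nat_lit 14) (.e (nat_lit 401459) (nat_lit 13) (.e (nat_lit 483393) (nat_lit 23) .nil))))) .nil))) (.nd (nat_lit 5) 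
(.lf (nat_lit 88528) (.g (nat_lit 2812) (.e (nat_lit 2007) (nat_lit 138) (.e (nat_lit 671762) (nat_lit 4) (.e (nat_lit 65630) (nat_lit 14) (.e (nat_lit 401457) (nat_lit 13) (.e (nat_lit 483393) (nat_lit 23) .nil))))) .nil)) 
(.lf (nat_lit 88560) (.g (nat_lit 2867) (.e (nat_lit 2010) (nat_lit 138) (.e (nat_lit 671762) (nat_lit 4) (.e (nat_lit 65629) (nat_lit 14) (.e (nat_lit 401459) (nat_lit 13) (.e (nat_lit 483379) (nat_lit 23) .nil))))) .nil)))) (.nd (nat_lit 4) (.nd (nat_lit 5) 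
(.lf (nat_lit 88520) (.g (nat_lit 2512) (.e (nat_lit 2006) (nat_lit 138) (.e (nat_lit 671764) (nat_lit 6) (.e (nat_lit 81957) (nat_lit 24) (.e (nat_lit 123185) (nat_lit 264) (.e (nat_lit 1224) (nat_lit 90) (.e (nat_lit 81946) (nat_lit 20) .nil)))))) (.g (nat_lit 0) .nil .nil))) 
(.lf (nat_lit 88552) (.g (nat_lit 1266) (.e (nat_lit 2010) (nat_lit 138) (.e (nat_lit 671762) (nat_lit 4) (.e (nat_lit 65585) (nat_lit 7) (.e (nat_lit 319539) (nat_lit 19) (.e (nat_lit 311358) (nat_lit 29) .nil))))) .nil))) (.nd (nat_lit 5) 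
(.lf (nat_lit 88536) (.g (nat_lit 1377) (.e (nat_lit 2008) (nat_lit 138) (.e (nat_lit 671761) (nat_lit 4) (.e (nat_lit 65630) (nat_lit 14) (.e (nat_lit 401457) (nat_lit 13) .nil)))) .nil)) 
(.lf (nat_lit 88568) (.g (nat_lit 1177) (.e (nat_lit 2023) (nat_lit 140) (.e (nat_lit 688178) (nat_lit 16) (.e (nat_lit 65619) (nat_lit 10) (.e (nat_lit 344157) (nat_lit 36) .nil)))) .nil))))) (.nd (nat_lit 3) (.nd (nat_lit 4) (.nd (nat_lit 5) 
(.lf (nat_lit 88516) (.g (nat_lit 2734) (.e (nat_lit 2006) (nat_lit 138) (.e (nat_lit 671764) (nat_lit 6) (.e (nat_lit 81950) (nat_lit 21) (.e (nat_lit 57873) (nat_lit 264) (.e (nat_lit 1219) (nat_lit 90) (.e (nat_lit 81947) (nat_lit 20) .nil)))))) (.g (nat_lit 0) .nil .nil))) 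
(.lf (nat_lit 88548) (.g (nat_lit 1732) (.e (nat_lit 2010) (nat_lit 138) (.e (nat_lit 671762) (nat_lit 4) (.e (nat_lit 65583) (nat_lit 7) (.e (nat_lit 319506) (nat_lit 10) (.e (nat_lit 5723) (nat_lit 312) .nil))))) .nil))) (.nd (nat_lit 5) 
(.lf (nat_lit 88532) (.g (nat_lit 1224) (.e (nat_lit 2008) (nat_lit 138) (.e (nat_lit 671759) (nat_lit 3) (.e (nat_lit 57479) (nat_lit 28) (.e (nat_lit 557109) (nat_lit 15) .nil)))) .nil)) 
(.lf (nat_lit 88564) (.g (nat_lit 2362) (.e (nat_lit 2011) (nat_lit 138) (.e (nat_lit 671759) (nat_lit 3) (.e (nat_lit 57479) (nat_lit 28) (.e (nat_lit 557109) (nat_lit 15) (.e (nat_lit 188458) (nat_lit 25) .nil))))) .nil)))) (.nd (nat_lit 4) (.nd (nat_lit 5) 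
(.lf (nat_lit 88524) (.g (nat_lit 2925) (.e (nat_lit 2007) (nat_lit 138) (.e (nat_lit 671759) (nat_lit 3) (.e (nat_lit 57480) (nat_lit 28) (.e (nat_lit 557108) (nat_lit 15) (.e (nat_lit 188452) (nat_lit 23) (.e (nat_lit 204851) (nat_lit 26) (.e (nat_lit 335878) (nat_lit 0) .nil))))))) (.g (nat_lit 7) .nil .nil))) 
(.lf (nat_lit 88556) (.g (nat_lit 1182) (.e (nat_lit 2010) (nat_lit 138) (.e (nat_lit 671762) (nat_lit 4) (.e (nat_lit 65610) (nat_lit 10) (.e (nat_lit 344168) (nat_lit 40) .nil)))) .nil))) (.nd (nat_lit 5) 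
(.lf (nat_lit 88540) (.g (nat_lit 2595) (.e (nat_lit 2008) (nat_lit 138) (.e (nat_lit 671762) (nat_lit 4) (.e (nat_lit 65630) (nat_lit 14) (.e (nat_lit 401457) (nat_lit 13) (.e (nat_lit 483393) (nat_lit 23) .nil))))) .nil)) 
(.lf (nat_lit 88572) (.g (nat_lit 1724) (.e (nat_lit 2024) (nat_lit 140) (.e (nat_lit 688171) (nat_lit 15) (.e (nat_lit 57478) (nat_lit 28) (.e (nat_lit 557107) (nat_lit 15) (.e (nat_lit 196352) (nat_lit 18) (.e (nat_lit 393217) (nat_lit 0) .nil)))))) (.g (nat_lit 4) .nil .nil))))))) (.nd (nat_lit 2) (.nd (nat_lit 3) (.nd (nat_lit 4) (.nd (nat_lit 5) 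
(.lf (nat_lit 88514) (.g (nat_lit 2161) (.e (nat_lit 2006) (nat_lit 138) (.e (nat_lit 671764) (nat_lit 6) (.e (nat_lit 81949) (nat_lit 21) (.e (nat_lit 57873) (nat_lit 264) (.e (nat_lit 1219) (nat_lit 90) (.e (nat_lit 81943) (nat_lit 20) .nil)))))) (.g (nat_lit 5) .nil .nil))) 
(.lf (nat_lit 88546) (.g (nat_lit 1913) (.e (nat_lit 2010) (nat_lit 138) (.e (nat_lit 671762) (nat_lit 4) (.e (nat_lit 65583) (nat_lit 7) (.e (nat_lit 319506) (nat_lit 10) (.e (nat_lit 5721) (nat_lit 312) .nil))))) .nil))) (.nd (nat_lit 5) 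
(.lf (nat_lit 88530) (.g (nat_lit 3985) (.e (nat_lit 2007) (nat_lit 138) (.e (nat_lit 671762) (nat_lit 4) (.e (nat_lit 65630) (nat_lit 14) (.e (nat_lit 401459) (nat_lit 13) (.e (nat_lit 483393) (nat_lit 23) .nil))))) .nil)) 
(.lf (nat_lit 88562) (.g (nat_lit 2799) (.e (nat_lit 2010) (nat_lit 138) (.e (nat_lit 671762) (nat_lit 4) (.e (nat_lit 65629) (nat_lit 14) (.e (nat_lit 401459) (nat_lit 13) (.e (nat_lit 483387) (nat_lit 23) .nil))))) .nil)))) (.nd (nat_lit 4) (.nd (nat_lit 5) 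
(.lf (nat_lit 88522) (.g (nat_lit 1589) (.e (nat_lit 2006) (nat_lit 138) (.e (nat_lit 671764) (nat_lit 6) (.e (nat_lit 81959) (nat_lit 24) (.e (nat_lit 123182) (nat_lit 264) (.e (nat_lit 1222) (nat_lit 90) .nil))))) .nil)) 
(.lf (nat_lit 88554) (.g (nat_lit 1294) (.e (nat_lit 2010) (nat_lit 138) (.e (nat_lit 671762) (nat_lit 4) (.e (nat_lit 65610) (nat_lit 10) (.e (nat_lit 344097) (nat_lit 18) .nil)))) .nil))) (.nd (nat_lit 5) 
(.lf (nat_lit 88538) (.g (nat_lit 2963) (.e (nat_lit 2008) (nat_lit 138) (.e (nat_lit 671762) (nat_lit 4) (.e (nat_lit 65629) (nat_lit 14) (.e (nat_lit 401459) (nat_lit 13) (.e (nat_lit 483393) (nat_lit 23) (.e (nat_lit 335892) (nat_lit 0) .nil)))))) (.g (nat_lit 4) .nil .nil))) 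
(.lf (nat_lit 88570) (.g (nat_lit 2150) (.e (nat_lit 2024) (nat_lit 140) (.e (nat_lit 688170) (nat_lit 15) (.e (nat_lit 57479) (nat_lit 28) (.e (nat_lit 557105) (nat_lit 14) (.e (nat_lit 180252) (nat_lit 10) (.e (nat_lit 573489) (nat_lit 14) (.e (nat_lit 73755) (nat_lit 8) (.e (nat_lit 557074) (nat_lit 9) (.e (nat_lit 46) (nat_lit 0) .nil))))))))) (.g (nat_lit 4) .nil .nil)))))) 
(.nd (nat_lit 3) (.nd (nat_lit 4) (.nd (nat_lit 5) 
(.lf (nat_lit 88518) (.g (nat_lit 963) (.e (nat_lit 2006) (nat_lit 138) (.e (nat_lit 671764) (nat_lit 6) (.e (nat_lit 81957) (nat_lit 24) (.e (nat_lit 123183) (nat_lit 264) .nil)))) .nil)) 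
(.lf (nat_lit 88550) (.g (nat_lit 1573) (.e (nat_lit 2010) (nat_lit 138) (.e (nat_lit 671762) (nat_lit 4) (.e (nat_lit 65583) (nat_lit 7) (.e (nat_lit 319539) (nat_lit 19) (.e (nat_lit 311358) (nat_lit 29) (.e (nat_lit 352283) (nat_lit 20) .nil)))))) (.g (nat_lit 4) .nil .nil)))) (.nd (nat_lit 5) 
(.lf (nat_lit 88534) (.g (nat_lit 1987) (.e (nat_lit 2008) (nat_lit 138) (.e (nat_lit 671760) (nat_lit 4) (.e (nat_lit 65630) (nat_lit 14) (.e (nat_lit 401457) (nat_lit 13) (.e (nat_lit 483383) (nat_lit 23) .nil))))) .nil)) 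
(.lf (nat_lit 88566) (.g (nat_lit 2912) (.e (nat_lit 2011) (nat_lit 138) (.e (nat_lit 671762) (nat_lit 4) (.e (nat_lit 65630) (nat_lit 14) (.e (nat_lit 401457) (nat_lit 13) (.e (nat_lit 483393) (nat_lit 23) .nil))))) .nil)))) (.nd (nat_lit 4) (.nd (nat_lit 5) 
(.lf (nat_lit 88526) (.g (nat_lit 3975) (.e (nat_lit 2007) (nat_lit 138) (.e (nat_lit 671762) (nat_lit 4) (.e (nat_lit 65629) (nat_lit 14) (.e (nat_lit 401459) (nat_lit 13) (.e (nat_lit 483393) (nat_lit 23) (.e (nat_lit 335892) (nat_lit 0) .nil)))))) (.g (nat_lit 0) .nil .nil))) 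
(.lf (nat_lit 88558) (.g (nat_lit 1907) (.e (nat_lit 2010) (nat_lit 138) (.e (nat_lit 671762) (nat_lit 4) (.e (nat_lit 65619) (nat_lit 10) (.e (nat_lit 344097) (nat_lit 18) (.e (nat_lit 5907) (nat_lit 320) .nil))))) .nil))) (.nd (nat_lit 5) 
(.lf (nat_lit 88542) (.g (nat_lit 3857) (.e (nat_lit 2008) (nat_lit 138) (.e (nat_lit 671762) (nat_lit 4) (.e (nat_lit 65630) (nat_lit 14) (.e (nat_lit 401459) (nat_lit 13) (.e (nat_lit 483393) (nat_lit 23) .nil))))) .nil)) 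
(.lf (nat_lit 88574) (.g (nat_lit 2007) (.e (nat_lit 2024) (nat_lit 140) (.e (nat_lit 688171) (nat_lit 15) (.e (nat_lit 57479) (nat_lit 28) (.e (nat_lit 557107) (nat_lit 15) (.e (nat_lit 196352) (nat_lit 18) .nil))))) .nil))))))) (.nd (nat_lit 1) (.nd (nat_lit 2) (.nd (nat_lit 3) (.nd (nat_lit 4) (.nd (nat_lit 5) 
(.lf (nat_lit 88513) (.g (nat_lit 1992) (.e (nat_lit 2006) (nat_lit 138) (.e (nat_lit 671764) (nat_lit 6) (.e (nat_lit 81949) (nat_lit 21) (.e (nat_lit 57872) (nat_lit 264) (.e (nat_lit 1219) (nat_lit 90) (.e (nat_lit 81943) (nat_lit 20) .nil)))))) (.g (nat_lit 5) .nil .nil))) 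
(.lf (nat_lit 88545) (.g (nat_lit 2158) (.e (nat_lit 2010) (nat_lit 138) (.e (nat_lit 671759) (nat_lit 3) (.e (nat_lit 57479) (nat_lit 28) (.e (nat_lit 557109) (nat_lit 15) (.e (nat_lit 188458) (nat_lit 25) .nil))))) .nil))) (.nd (nat_lit 5) 
(.lf (nat_lit 88529) (.g (nat_lit 3062) (.e (nat_lit 2007) (nat_lit 138) (.e (nat_lit 671762) (nat_lit 4) (.e (nat_lit 65630) (nat_lit 14) (.e (nat_lit 401458) (nat_lit 13) (.e (nat_lit 483383) (nat_lit 23) .nil))))) .nil)) 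
(.lf (nat_lit 88561) (.g (nat_lit 2854) (.e (nat_lit 2010) (nat_lit 138) (.e (nat_lit 671762) (nat_lit 4) (.e (nat_lit 65629) (nat_lit 14) (.e (nat_lit 401459) (nat_lit 13) (.e (nat_lit 483381) (nat_lit 23) (.e (nat_lit 335939) (nat_lit 0) .nil)))))) (.g (nat_lit 4) .nil .nil))))) (.nd (nat_lit 4) (.nd (nat_lit 5) 
(.lf (nat_lit 88521) (.g (nat_lit 170) (.e (nat_lit 2006) (nat_lit 138) (.e (nat_lit 671764) (nat_lit 6) (.e (nat_lit 81959) (nat_lit 24) .nil))) .nil)) 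
(.lf (nat_lit 88553) (.g (nat_lit 1211) (.e (nat_lit 2010) (nat_lit 138) (.e (nat_lit 671762) (nat_lit 4) (.e (nat_lit 65586) (nat_lit 7) (.e (nat_lit 319539) (nat_lit 19) .nil)))) .nil))) (.nd (nat_lit 5) 
(.lf (nat_lit 88537) (.g (nat_lit 4670) (.e (nat_lit 2008) (nat_lit 138) (.e (nat_lit 671762) (nat_lit 4) (.e (nat_lit 65629) (nat_lit 14) (.e (nat_lit 401459) (nat_lit 13) (.e (nat_lit 483383) (nat_lit 23) (.e (nat_lit 335878) (nat_lit 0) .nil)))))) (.g (nat_lit 0) .nil .nil))) 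
(.lf (nat_lit 88569) (.g (nat_lit 2351) (.e (nat_lit 2024) (nat_lit 140) (.e (nat_lit 688168) (nat_lit 15) (.e (nat_lit 57479) (nat_lit 28) (.e (nat_lit 557109) (nat_lit 15) (.e (nat_lit 196352) (nat_lit 18) .nil))))) .nil))))) (.nd (nat_lit 3) (.nd (nat_lit 4) (.nd (nat_lit 5) 
(.lf (nat_lit 88517) (.g (nat_lit 1896) (.e (nat_lit 2006) (nat_lit 138) (.e (nat_lit 671764) (nat_lit 6) (.e (nat_lit 81957) (nat_lit 24) (.e (nat_lit 123182) (nat_lit 264) (.e (nat_lit 1222) (nat_lit 90) .nil))))) .nil)) 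
(.lf (nat_lit 88549) (.g (nat_lit 1510) (.e (nat_lit 2010) (nat_lit 138) (.e (nat_lit 671762) (nat_lit 4) (.e (nat_lit 65583) (nat_lit 7) (.e (nat_lit 319539) (nat_lit 19) (.e (nat_lit 311358) (nat_lit 29) .nil))))) .nil))) (.nd (nat_lit 5) 
(.lf (nat_lit 88533) (.g (nat_lit 3773) (.e (nat_lit 2008) (nat_lit 138) (.e (nat_lit 671759) (nat_lit 3) (.e (nat_lit 57480) (nat_lit 28) (.e (nat_lit 557108) (nat_lit 15) (.e (nat_lit 188452) (nat_lit 23) (.e (nat_lit 204852) (nat_lit 26) (.e (nat_lit 335878) (nat_lit 0) .nil))))))) (.g (nat_lit 6) .nil .nil))) 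
(.lf (nat_lit 88565) (.g (nat_lit 3065) (.e (nat_lit 2011) (nat_lit 138) (.e (nat_lit 671762) (nat_lit 4) (.e (nat_lit 65629) (nat_lit 14) (.e (nat_lit 401459) (nat_lit 13) (.e (nat_lit 483393) (nat_lit 23) .nil))))) .nil)))) (.nd (nat_lit 4) (.nd (nat_lit 5) 
(.lf (nat_lit 88525) (.g (nat_lit 5282) (.e (nat_lit 2007) (nat_lit 138) (.e (nat_lit 671759) (nat_lit 3) (.e (nat_lit 57480) (nat_lit 28) (.e (nat_lit 557108) (nat_lit 15) (.e (nat_lit 188452) (nat_lit 23) (.e (nat_lit 204861) (nat_lit 26) (.e (nat_lit 335897) (nat_lit 0) .nil))))))) (.g (nat_lit 5) .nil .nil))) 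
(.lf (nat_lit 88557) (.g (nat_lit 1295) (.e (nat_lit 2010) (nat_lit 138) (.e (nat_lit 671762) (nat_lit 4) (.e (nat_lit 65610) (nat_lit 10) (.e (nat_lit 344169) (nat_lit 40) .nil)))) .nil))) (.nd (nat_lit 5) 
(.lf (nat_lit 88541) (.g (nat_lit 2893) (.e (nat_lit 2008) (nat_lit 138) (.e (nat_lit 671762) (nat_lit 4) (.e (nat_lit 65630) (nat_lit 14) (.e (nat_lit 401458) (nat_lit 13) (.e (nat_lit 483383) (nat_lit 23) .nil))))) .nil)) 
(.lf (nat_lit 88573) (.g (nat_lit 5028) (.e (nat_lit 2024) (nat_lit 140) (.e (nat_lit 688171) (nat_lit 15) (.e (nat_lit 57479) (nat_lit 28) (.e (nat_lit 557105) (nat_lit 14) (.e (nat_lit 180252) (nat_lit 10) (.e (nat_lit 573489) (nat_lit 14) (.e (nat_lit 73755) (nat_lit 8) (.e (nat_lit 557067) (nat_lit 9) (.e (nat_lit 54) (nat_lit 0) .nil))))))))) (.g (nat_lit 9) .nil .nil))))))) 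
(.nd (nat_lit 2) (.nd (nat_lit 3) (.nd (nat_lit 4) (.nd (nat_lit 5) 
(.lf (nat_lit 88515) (.g (nat_lit 2400) (.e (nat_lit 2006) (nat_lit 138) (.e (nat_lit 671764) (nat_lit 6) (.e (nat_lit 81949) (nat_lit 21) (.e (nat_lit 57873) (nat_lit 264) (.e (nat_lit 1219) (nat_lit 90) (.e (nat_lit 81947) (nat_lit 20) .nil)))))) (.g (nat_lit 5) .nil .nil))) 
(.lf (nat_lit 88547) (.g (nat_lit 1856) (.e (nat_lit 2010) (nat_lit 138) (.e (nat_lit 671762) (nat_lit 4) (.e (nat_lit 65583) (nat_lit 7) (.e (nat_lit 319506) (nat_lit 10) (.e (nat_lit 5722) (nat_lit 312) .nil))))) .nil))) (.nd (nat_lit 5) 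
(.lf (nat_lit 88531) (.g (nat_lit 553) (.e (nat_lit 2008) (nat_lit 138) (.e (nat_lit 671748) (nat_lit 0) (.e (nat_lit 1464) (nat_lit 108) .nil))) .nil)) 
(.lf (nat_lit 88563) (.g (nat_lit 3116) (.e (nat_lit 2010) (nat_lit 138) (.e (nat_lit 671762) (nat_lit 4) (.e (nat_lit 65629) (nat_lit 14) (.e (nat_lit 401459) (nat_lit 13) (.e (nat_lit 483389) (nat_lit 23) .nil))))) .nil)))) (.nd (nat_lit 4) (.nd (nat_lit 5) 
(.lf (nat_lit 88523) (.g (nat_lit 3008) (.e (nat_lit 2006) (nat_lit 138) (.e (nat_lit 671764) (nat_lit 6) (.e (nat_lit 81959) (nat_lit 24) (.e (nat_lit 123182) (nat_lit 264) (.e (nat_lit 1224) (nat_lit 90) (.e (nat_lit 81946) (nat_lit 20) .nil)))))) (.g (nat_lit 5) .nil .nil))) 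
(.lf (nat_lit 88555) (.g (nat_lit 2151) (.e (nat_lit 2010) (nat_lit 138) (.e (nat_lit 671762) (nat_lit 4) (.e (nat_lit 65610) (nat_lit 10) (.e (nat_lit 344097) (nat_lit 18) (.e (nat_lit 5907) (nat_lit 320) (.e (nat_lit 1221) (nat_lit 90) (.e (nat_lit 81931) (nat_lit 20) .nil))))))) (.g (nat_lit 4) .nil .nil)))) (.nd (nat_lit 5) 
(.lf (nat_lit 88539) (.g (nat_lit 3758) (.e (nat_lit 2008) (nat_lit 138) (.e (nat_lit 671762) (nat_lit 4) (.e (nat_lit 65629) (nat_lit 14) (.e (nat_lit 401459) (nat_lit 13) (.e (nat_lit 483393) (nat_lit 23) (.e (nat_lit 335897) (nat_lit 0) .nil)))))) (.g (nat_lit 0) .nil .nil))) 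
(.lf (nat_lit 88571) (.g (nat_lit 2704) (.e (nat_lit 2024) (nat_lit 140) (.e (nat_lit 688170) (nat_lit 15) (.e (nat_lit 57479) (nat_lit 28) (.e (nat_lit 557109) (nat_lit 15) (.e (nat_lit 196352) (nat_lit 18) .nil))))) .nil))))) (.nd (nat_lit 3) (.nd (nat_lit 4) (.nd (nat_lit 5) 
(.lf (nat_lit 88519) (.g (nat_lit 906) (.e (nat_lit 2006) (nat_lit 138) (.e (nat_lit 671764) (nat_lit 6) (.e (nat_lit 81957) (nat_lit 24) (.e (nat_lit 123185) (nat_lit 264) .nil)))) .nil)) 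
(.lf (nat_lit 88551) (.g (nat_lit 996) (.e (nat_lit 2010) (nat_lit 138) (.e (nat_lit 671762) (nat_lit 4) (.e (nat_lit 65584) (nat_lit 7) (.e (nat_lit 319539) (nat_lit 19) .nil)))) .nil))) (.nd (nat_lit 5) 
(.lf (nat_lit 88535) (.g (nat_lit 2221) (.e (nat_lit 2008) (nat_lit 138) (.e (nat_lit 671760) (nat_lit 4) (.e (nat_lit 65630) (nat_lit 14) (.e (nat_lit 401458) (nat_lit 13) (.e (nat_lit 483383) (nat_lit 23) (.e (nat_lit 335878) (nat_lit 0) .nil)))))) (.g (nat_lit 6) .nil .nil))) 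
(.lf (nat_lit 88567) (.g (nat_lit 2253) (.e (nat_lit 7936) (nat_lit 138) (.e (nat_lit 671759) (nat_lit 3) (.e (nat_lit 57479) (nat_lit 28) (.e (nat_lit 557109) (nat_lit 15) (.e (nat_lit 188458) (nat_lit 25) .nil))))) .nil)))) (.nd (nat_lit 4) (.nd (nat_lit 5) 
(.lf (nat_lit 88527) (.g (nat_lit 2650) (.e (nat_lit 2007) (nat_lit 138) (.e (nat_lit 671762) (nat_lit 4) (.e (nat_lit 65630) (nat_lit 14) (.e (nat_lit 401457) (nat_lit 13) (.e (nat_lit 483383) (nat_lit 23) .nil))))) .nil)) 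
(.lf (nat_lit 88559) (.g (nat_lit 2938) (.e (nat_lit 2010) (nat_lit 138) (.e (nat_lit 671762) (nat_lit 4) (.e (nat_lit 65629) (nat_lit 14) (.e (nat_lit 401459) (nat_lit 13) (.e (nat_lit 483378) (nat_lit 23) (.e (nat_lit 335887) (nat_lit 0) .nil)))))) (.g (nat_lit 4) .nil .nil)))) (.nd (nat_lit 5) 
(.lf (nat_lit 88543) (.g (nat_lit 2360) (.e (nat_lit 2009) (nat_lit 138) (.e (nat_lit 671759) (nat_lit 3) (.e (nat_lit 57479) (nat_lit 28) (.e (nat_lit 557109) (nat_lit 15) (.e (nat_lit 188458) (nat_lit 25) .nil))))) .nil)) 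
(.lf (nat_lit 88575) (.g (nat_lit 2211) (.e (nat_lit 2024) (nat_lit 140) (.e (nat_lit 688171) (nat_lit 15) (.e (nat_lit 57479) (nat_lit 28) (.e (nat_lit 557109) (nat_lit 15) (.e (nat_lit 196352) (nat_lit 18) .nil))))) .nil))))))))

noncomputable def tv1208 : DT := (.nd (nat_lit 0) (.nd (nat_lit 1) (.nd (nat_lit 2) (.nd (nat_lit 3) (.nd (nat_lit 4) (.nd (nat_lit 5) 
(.lf (nat_lit 88576) (.g (nat_lit 2254) (.e (nat_lit 2024) (nat_lit 140) (.e (nat_lit 688171) (nat_lit 15) (.e (nat_lit 57479) (nat_lit 28) (.e (nat_lit 557109) (nat_lit 15) (.e (nat_lit 196352) (nat_lit 18) (.e (nat_lit 393217) (nat_lit 0) .nil)))))) (.g (nat_lit 4) .nil .nil))) 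
(.lf (nat_lit 88608) (.g (nat_lit 1548) (.e (nat_lit 2024) (nat_lit 140) (.e (nat_lit 688178) (nat_lit 16) (.e (nat_lit 65619) (nat_lit 10) (.e (nat_lit 344154) (nat_lit 35) (.e (nat_lit 630802) (nat_lit 8) (.e (nat_lit 172095) (nat_lit 9) (.e (nat_lit 426380) (nat_lit 15) .nil))))))) (.g (nat_lit 4) .nil .nil)))) (.nd (nat_lit 5) 
(.lf (nat_lit 88592) (.g (nat_lit 4360) (.e (nat_lit 2024) (nat_lit 140) (.e (nat_lit 688177) (nat_lit 16) (.e (nat_lit 65586) (nat_lit 7) (.e (nat_lit 319531) (nat_lit 16) (.e (nat_lit 286748) (nat_lit 9) (.e (nat_lit 336295) (nat_lit 15) (.e (nat_lit 3747) (nat_lit 228) (.e (nat_lit 786450) (nat_lit 15) .nil)))))))) (.g (nat_lit 8) .nil .nil))) 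
(.lf (nat_lit 88624) (.g (nat_lit 2317) (.e (nat_lit 2026) (nat_lit 140) (.e (nat_lit 688181) (nat_lit 17) (.e (nat_lit 73755) (nat_lit 8) (.e (nat_lit 557098) (nat_lit 13) (.e (nat_lit 179968) (nat_lit 20) .nil))))) .nil)))) (.nd (nat_lit 4) (.nd (nat_lit 5) 
(.lf (nat_lit 88584) (.g (nat_lit 2200) (.e (nat_lit 2024) (nat_lit 140) (.e (nat_lit 688175) (nat_lit 16) (.e (nat_lit 65619) (nat_lit 10) (.e (nat_lit 344160) (nat_lit 37) (.e (nat_lit 647195) (nat_lit 9) (.e (nat_lit 7936) (nat_lit 37) (.e (nat_lit 466945) (nat_lit 0) .nil))))))) (.g (nat_lit 5) .nil .nil))) 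
(.lf (nat_lit 88616) (.g (nat_lit 2006) (.e (nat_lit 2024) (nat_lit 140) (.e (nat_lit 688182) (nat_lit 17) (.e (nat_lit 73755) (nat_lit 8) (.e (nat_lit 557104) (nat_lit 14) (.e (nat_lit 180229) (nat_lit 0) .nil))))) .nil))) (.nd (nat_lit 5) 
(.lf (nat_lit 88600) (.g (nat_lit 1950) (.e (nat_lit 2024) (nat_lit 140) (.e (nat_lit 688177) (nat_lit 16) (.e (nat_lit 65586) (nat_lit 7) (.e (nat_lit 319531) (nat_lit 16) (.e (nat_lit 286759) (nat_lit 12) (.e (nat_lit 385094) (nat_lit 49) (.e (nat_lit 778241) (nat_lit 0) (.e (nat_lit 1037) (nat_lit 81) .nil)))))))) (.g (nat_lit 4) .nil .nil))) 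
(.lf (nat_lit 88632) (.g (nat_lit 2354) (.e (nat_lit 2028) (nat_lit 140) (.e (nat_lit 688168) (nat_lit 15) (.e (nat_lit 57479) (nat_lit 28) (.e (nat_lit 557109) (nat_lit 15) (.e (nat_lit 196352) (nat_lit 18) .nil))))) .nil))))) (.nd (nat_lit 3) (.nd (nat_lit 4) (.nd (nat_lit 5) 
(.lf (nat_lit 88580) (.g (nat_lit 1142) (.e (nat_lit 2024) (nat_lit 140) (.e (nat_lit 688175) (nat_lit 16) (.e (nat_lit 65619) (nat_lit 10) (.e (nat_lit 344154) (nat_lit 35) (.e (nat_lit 630804) (nat_lit 10) .nil))))) .nil)) 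
(.lf (nat_lit 88612) (.g (nat_lit 1830) (.e (nat_lit 2024) (nat_lit 140) (.e (nat_lit 688178) (nat_lit 16) (.e (nat_lit 65619) (nat_lit 10) (.e (nat_lit 344160) (nat_lit 37) (.e (nat_lit 647195) (nat_lit 9) .nil))))) .nil))) (.nd (nat_lit 5) 
(.lf (nat_lit 88596) (.g (nat_lit 3049) (.e (nat_lit 2024) (nat_lit 140) (.e (nat_lit 688177) (nat_lit 16) (.e (nat_lit 65586) (nat_lit 7) (.e (nat_lit 319531) (nat_lit 16) (.e (nat_lit 286753) (nat_lit 10) (.e (nat_lit 344169) (nat_lit 40) (.e (nat_lit 671748) (nat_lit 0) (.e (nat_lit 1047) (nat_lit 81) .nil)))))))) (.g (nat_lit 4) .nil .nil))) 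
(.lf (nat_lit 88628) (.g (nat_lit 1260) (.e (nat_lit 2027) (nat_lit 140) (.e (nat_lit 688184) (nat_lit 18) (.e (nat_lit 89856) (nat_lit 0) (.e (nat_lit 3604) (nat_lit 225) (.e (nat_lit 761912) (nat_lit 18) (.e (nat_lit 196352) (nat_lit 0) .nil)))))) (.g (nat_lit 5) .nil .nil))))) (.nd (nat_lit 4) (.nd (nat_lit 5) 
(.lf (nat_lit 88588) (.g (nat_lit 4046) (.e (nat_lit 2024) (nat_lit 140) (.e (nat_lit 688177) (nat_lit 16) (.e (nat_lit 65583) (nat_lit 7) (.e (nat_lit 319530) (nat_lit 16) (.e (nat_lit 286759) (nat_lit 12) (.e (nat_lit 385106) (nat_lit 50) (.e (nat_lit 786450) (nat_lit 15) .nil))))))) (.g (nat_lit 0) .nil .nil))) 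
(.lf (nat_lit 88620) (.g (nat_lit 987) (.e (nat_lit 2024) (nat_lit 140) (.e (nat_lit 688186) (nat_lit 18) (.e (nat_lit 81947) (nat_lit 20) (.e (nat_lit 1963) (nat_lit 134) .nil)))) .nil))) (.nd (nat_lit 5) 
(.lf (nat_lit 88604) (.g (nat_lit 1484) (.e (nat_lit 2024) (nat_lit 140) (.e (nat_lit 688177) (nat_lit 16) (.e (nat_lit 65610) (nat_lit 10) (.e (nat_lit 344160) (nat_lit 37) (.e (nat_lit 647199) (nat_lit 11) .nil))))) .nil)) 
(.lf (nat_lit 88636) (.g (nat_lit 1324) (.e (nat_lit 2028) (nat_lit 140) (.e (nat_lit 688184) (nat_lit 18) (.e (nat_lit 89856) (nat_lit 0) (.e (nat_lit 3604) (nat_lit 225) (.e (nat_lit 761912) (nat_lit 18) (.e (nat_lit 196352) (nat_lit 0) .nil)))))) (.g (nat_lit 5) .nil .nil))))))) (.nd (nat_lit 2) (.nd (nat_lit 3) (.nd (nat_lit 4) (.nd (nat_lit 5) 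
(.lf (nat_lit 88578) (.g (nat_lit 2732) (.e (nat_lit 2024) (nat_lit 140) (.e (nat_lit 688171) (nat_lit 15) (.e (nat_lit 57480) (nat_lit 28) (.e (nat_lit 557108) (nat_lit 15) (.e (nat_lit 196352) (nat_lit 18) (.e (nat_lit 393217) (nat_lit 0) .nil)))))) (.g (nat_lit 4) .nil .nil))) 
(.lf (nat_lit 88610) (.g (nat_lit 1490) (.e (nat_lit 2024) (nat_lit 140) (.e (nat_lit 688178) (nat_lit 16) (.e (nat_lit 65619) (nat_lit 10) (.e (nat_lit 344157) (nat_lit 36) (.e (nat_lit 638999) (nat_lit 8) .nil))))) .nil))) (.nd (nat_lit 5) 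
(.lf (nat_lit 88594) (.g (nat_lit 4379) (.e (nat_lit 2024) (nat_lit 140) (.e (nat_lit 688177) (nat_lit 16) (.e (nat_lit 65586) (nat_lit 7) (.e (nat_lit 319531) (nat_lit 16) (.e (nat_lit 286748) (nat_lit 9) (.e (nat_lit 336295) (nat_lit 15) (.e (nat_lit 3748) (nat_lit 228) (.e (nat_lit 786450) (nat_lit 15) .nil)))))))) (.g (nat_lit 0) .nil .nil))) 
(.lf (nat_lit 88626) (.g (nat_lit 2317) (.e (nat_lit 2027) (nat_lit 140) (.e (nat_lit 688181) (nat_lit 17) (.e (nat_lit 73755) (nat_lit 8) (.e (nat_lit 557098) (nat_lit 13) (.e (nat_lit 179968) (nat_lit 20) .nil))))) .nil)))) (.nd (nat_lit 4) (.nd (nat_lit 5) 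
(.lf (nat_lit 88586) (.g (nat_lit 3510) (.e (nat_lit 2024) (nat_lit 140) (.e (nat_lit 688177) (nat_lit 16) (.e (nat_lit 65583) (nat_lit 7) (.e (nat_lit 319530) (nat_lit 16) (.e (nat_lit 286748) (nat_lit 9) (.e (nat_lit 336295) (nat_lit 15) (.e (nat_lit 3748) (nat_lit 228) (.e (nat_lit 786450) (nat_lit 15) .nil)))))))) (.g (nat_lit 7) .nil .nil))) 
(.lf (nat_lit 88618) (.g (nat_lit 985) (.e (nat_lit 2024) (nat_lit 140) (.e (nat_lit 688185) (nat_lit 18) (.e (nat_lit 81950) (nat_lit 21) (.e (nat_lit 57857) (nat_lit 254) (.e (nat_lit 163920) (nat_lit 14) .nil))))) .nil))) (.nd (nat_lit 5) 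
(.lf (nat_lit 88602) (.g (nat_lit 2432) (.e (nat_lit 2024) (nat_lit 140) (.e (nat_lit 688177) (nat_lit 16) (.e (nat_lit 65586) (nat_lit 7) (.e (nat_lit 319534) (nat_lit 16) (.e (nat_lit 286752) (nat_lit 10) .nil))))) .nil)) 
(.lf (nat_lit 88634) (.g (nat_lit 766) (.e (nat_lit 2028) (nat_lit 140) (.e (nat_lit 688184) (nat_lit 18) (.e (nat_lit 89856) (nat_lit 0) (.e (nat_lit 3601) (nat_lit 225) (.e (nat_lit 761912) (nat_lit 18) (.e (nat_lit 196352) (nat_lit 0) .nil)))))) (.g (nat_lit 5) .nil .nil)))))) (.nd (nat_lit 3) (.nd (nat_lit 4) (.nd (nat_lit 5) 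
(.lf (nat_lit 88582) (.g (nat_lit 1520) (.e (nat_lit 2024) (nat_lit 140) (.e (nat_lit 688175) (nat_lit 16) (.e (nat_lit 65619) (nat_lit 10) (.e (nat_lit 344160) (nat_lit 37) (.e (nat_lit 647195) (nat_lit 9) .nil))))) .nil)) 
(.lf (nat_lit 88614) (.g (nat_lit 1857) (.e (nat_lit 2024) (nat_lit 140) (.e (nat_lit 688178) (nat_lit 16) (.e (nat_lit 65619) (nat_lit 10) (.e (nat_lit 344160) (nat_lit 37) (.e (nat_lit 647199) (nat_lit 11) .nil))))) .nil))) (.nd (nat_lit 5) 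
(.lf (nat_lit 88598) (.g (nat_lit 2625) (.e (nat_lit 2024) (nat_lit 140) (.e (nat_lit 688177) (nat_lit 16) (.e (nat_lit 65586) (nat_lit 7) (.e (nat_lit 319531) (nat_lit 16) (.e (nat_lit 286755) (nat_lit 10) (.e (nat_lit 344169) (nat_lit 40) (.e (nat_lit 671748) (nat_lit 0) (.e (nat_lit 1047) (nat_lit 81) .nil)))))))) (.g (nat_lit 4) .nil .nil))) 
(.lf (nat_lit 88630) (.g (nat_lit 1449) (.e (nat_lit 2027) (nat_lit 140) (.e (nat_lit 688185) (nat_lit 18) (.e (nat_lit 81950) (nat_lit 21) (.e (nat_lit 57830) (nat_lit 250) (.e (nat_lit 7936) (nat_lit 166) (.e (nat_lit 196352) (nat_lit 0) .nil)))))) (.g (nat_lit 4) .nil .nil))))) (.nd (nat_lit 4) (.nd (nat_lit 5) 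
(.lf (nat_lit 88590) (.g (nat_lit 2593) (.e (nat_lit 2024) (nat_lit 140) (.e (nat_lit 688177) (nat_lit 16) (.e (nat_lit 65586) (nat_lit 7) (.e (nat_lit 319531) (nat_lit 16) (.e (nat_lit 286721) (nat_lit 0) .nil))))) .nil)) 
(.lf (nat_lit 88622) (.g (nat_lit 2014) (.e (nat_lit 2026) (nat_lit 140) (.e (nat_lit 688177) (nat_lit 16) (.e (nat_lit 65586) (nat_lit 7) (.e (nat_lit 319531) (nat_lit 16) (.e (nat_lit 286748) (nat_lit 9) .nil))))) .nil))) (.nd (nat_lit 5) 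
(.lf (nat_lit 88606) (.g (nat_lit 1310) (.e (nat_lit 2024) (nat_lit 140) (.e (nat_lit 688178) (nat_lit 16) (.e (nat_lit 65619) (nat_lit 10) (.e (nat_lit 344153) (nat_lit 35) .nil)))) .nil)) 
(.lf (nat_lit 88638) (.g (nat_lit 1486) (.e (nat_lit 2028) (nat_lit 140) (.e (nat_lit 688185) (nat_lit 18) (.e (nat_lit 81950) (nat_lit 21) (.e (nat_lit 57830) (nat_lit 250) (.e (nat_lit 7936) (nat_lit 166) .nil))))) .nil))))))) (.nd (nat_lit 1) (.nd (nat_lit 2) (.nd (nat_lit 3) (.nd (nat_lit 4) (.nd (nat_lit 5) 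
(.lf (nat_lit 88577) (.g (nat_lit 2080) (.e (nat_lit 2024) (nat_lit 140) (.e (nat_lit 688171) (nat_lit 15) (.e (nat_lit 57480) (nat_lit 28) (.e (nat_lit 557105) (nat_lit 14) (.e (nat_lit 180245) (nat_lit 5) .nil))))) .nil)) 
(.lf (nat_lit 88609) (.g (nat_lit 1220) (.e (nat_lit 2024) (nat_lit 140) (.e (nat_lit 688178) (nat_lit 16) (.e (nat_lit 65619) (nat_lit 10) (.e (nat_lit 344157) (nat_lit 36) .nil)))) .nil))) (.nd (nat_lit 5) 
(.lf (nat_lit 88593) (.g (nat_lit 2048) (.e (nat_lit 2024) (nat_lit 140) (.e (nat_lit 688177) (nat_lit 16) (.e (nat_lit 65586) (nat_lit 7) (.e (nat_lit 319531) (nat_lit 16) (.e (nat_lit 286748) (nat_lit 9) (.e (nat_lit 336295) (nat_lit 15) (.e (nat_lit 3748) (nat_lit 228) (.e (nat_lit 786447) (nat_lit 15) .nil)))))))) (.g (nat_lit 4) .nil .nil))) 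
(.lf (nat_lit 88625) (.g (nat_lit 1080) (.e (nat_lit 2026) (nat_lit 140) (.e (nat_lit 688185) (nat_lit 18) (.e (nat_lit 81950) (nat_lit 21) (.e (nat_lit 57830) (nat_lit 250) .nil)))) .nil)))) (.nd (nat_lit 4) (.nd (nat_lit 5) 
(.lf (nat_lit 88585) (.g (nat_lit 2243) (.e (nat_lit 2024) (nat_lit 140) (.e (nat_lit 688177) (nat_lit 16) (.e (nat_lit 65583) (nat_lit 7) (.e (nat_lit 319530) (nat_lit 16) (.e (nat_lit 286739) (nat_lit 7) (.e (nat_lit 319539) (nat_lit 19) (.e (nat_lit 311348) (nat_lit 15) .nil))))))) (.g (nat_lit 6) .nil .nil))) 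
(.lf (nat_lit 88617) (.g (nat_lit 169) (.e (nat_lit 2024) (nat_lit 140) (.e (nat_lit 688185) (nat_lit 18) (.e (nat_lit 81938) (nat_lit 20) .nil))) .nil))) (.nd (nat_lit 5) 
(.lf (nat_lit 88601) (.g (nat_lit 2069) (.e (nat_lit 2024) (nat_lit 140) (.e (nat_lit 688177) (nat_lit 16) (.e (nat_lit 65586) (nat_lit 7) (.e (nat_lit 319531) (nat_lit 16) (.e (nat_lit 286759) (nat_lit 12) (.e (nat_lit 385094) (nat_lit 49) (.e (nat_lit 778246) (nat_lit 0) (.e (nat_lit 1016) (nat_lit 81) .nil)))))))) (.g (nat_lit 4) .nil .nil))) 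
(.lf (nat_lit 88633) (.g (nat_lit 1537) (.e (nat_lit 2028) (nat_lit 140) (.e (nat_lit 688175) (nat_lit 16) (.e (nat_lit 65619) (nat_lit 10) (.e (nat_lit 344160) (nat_lit 37) (.e (nat_lit 647195) (nat_lit 9) (.e (nat_lit 7936) (nat_lit 34) (.e (nat_lit 442373) (nat_lit 0) .nil))))))) (.g (nat_lit 4) .nil .nil)))))) (.nd (nat_lit 3) (.nd (nat_lit 4) (.nd (nat_lit 5) 
(.lf (nat_lit 88581) (.g (nat_lit 912) (.e (nat_lit 2024) (nat_lit 140) (.e (nat_lit 688175) (nat_lit 16) (.e (nat_lit 65619) (nat_lit 10) (.e (nat_lit 344157) (nat_lit 36) .nil)))) .nil)) 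
(.lf (nat_lit 88613) (.g (nat_lit 2383) (.e (nat_lit 2024) (nat_lit 140) (.e (nat_lit 688178) (nat_lit 16) (.e (nat_lit 65619) (nat_lit 10) (.e (nat_lit 344160) (nat_lit 37) (.e (nat_lit 647195) (nat_lit 9) (.e (nat_lit 7936) (nat_lit 34) (.e (nat_lit 442373) (nat_lit 0) .nil))))))) (.g (nat_lit 5) .nil .nil)))) (.nd (nat_lit 5) 
(.lf (nat_lit 88597) (.g (nat_lit 2528) (.e (nat_lit 2024) (nat_lit 140) (.e (nat_lit 688177) (nat_lit 16) (.e (nat_lit 65586) (nat_lit 7) (.e (nat_lit 319531) (nat_lit 16) (.e (nat_lit 286755) (nat_lit 10) .nil))))) .nil)) 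
(.lf (nat_lit 88629) (.g (nat_lit 1255) (.e (nat_lit 2027) (nat_lit 140) (.e (nat_lit 688184) (nat_lit 18) (.e (nat_lit 89856) (nat_lit 0) (.e (nat_lit 3605) (nat_lit 225) (.e (nat_lit 761912) (nat_lit 18) (.e (nat_lit 196352) (nat_lit 0) .nil)))))) (.g (nat_lit 5) .nil .nil))))) (.nd (nat_lit 4) (.nd (nat_lit 5) 
(.lf (nat_lit 88589) (.g (nat_lit 2539) (.e (nat_lit 2024) (nat_lit 140) (.e (nat_lit 688177) (nat_lit 16) (.e (nat_lit 65583) (nat_lit 7) (.e (nat_lit 319533) (nat_lit 16) (.e (nat_lit 286753) (nat_lit 10) (.e (nat_lit 344169) (nat_lit 40) (.e (nat_lit 671748) (nat_lit 0) (.e (nat_lit 1047) (nat_lit 81) .nil)))))))) (.g (nat_lit 4) .nil .nil))) 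
(.lf (nat_lit 88621) (.g (nat_lit 1481) (.e (nat_lit 2025) (nat_lit 140) (.e (nat_lit 688185) (nat_lit 18) (.e (nat_lit 81950) (nat_lit 21) (.e (nat_lit 57830) (nat_lit 250) (.e (nat_lit 7936) (nat_lit 166) .nil))))) .nil))) (.nd (nat_lit 5) 
(.lf (nat_lit 88605) (.g (nat_lit 514) (.e (nat_lit 2024) (nat_lit 140) (.e (nat_lit 688177) (nat_lit 16) (.e (nat_lit 65617) (nat_lit 10) .nil))) .nil)) 
(.lf (nat_lit 88637) (.g (nat_lit 1319) (.e (nat_lit 2028) (nat_lit 140) (.e (nat_lit 688184) (nat_lit 18) (.e (nat_lit 89856) (nat_lit 0) (.e (nat_lit 3605) (nat_lit 225) (.e (nat_lit 761912) (nat_lit 18) (.e (nat_lit 196352) (nat_lit 0) .nil)))))) (.g (nat_lit 5) .nil .nil))))))) (.nd (nat_lit 2) (.nd (nat_lit 3) (.nd (nat_lit 4) (.nd (nat_lit 5) 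
(.lf (nat_lit 88579) (.g (nat_lit 993) (.e (nat_lit 2024) (nat_lit 140) (.e (nat_lit 688175) (nat_lit 16) (.e (nat_lit 65619) (nat_lit 10) (.e (nat_lit 344153) (nat_lit 35) .nil)))) .nil)) 
(.lf (nat_lit 88611) (.g (nat_lit 1884) (.e (nat_lit 2024) (nat_lit 140) (.e (nat_lit 688178) (nat_lit 16) (.e (nat_lit 65619) (nat_lit 10) (.e (nat_lit 344160) (nat_lit 37) (.e (nat_lit 647190) (nat_lit 9) .nil))))) .nil))) (.nd (nat_lit 5) 
(.lf (nat_lit 88595) (.g (nat_lit 2822) (.e (nat_lit 2024) (nat_lit 140) (.e (nat_lit 688177) (nat_lit 16) (.e (nat_lit 65586) (nat_lit 7) (.e (nat_lit 319531) (nat_lit 16) (.e (nat_lit 286752) (nat_lit 10) (.e (nat_lit 344169) (nat_lit 40) (.e (nat_lit 671748) (nat_lit 0) (.e (nat_lit 1047) (nat_lit 81) .nil)))))))) (.g (nat_lit 4) .nil .nil))) 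
(.lf (nat_lit 88627) (.g (nat_lit 638) (.e (nat_lit 2027) (nat_lit 140) (.e (nat_lit 688184) (nat_lit 18) (.e (nat_lit 89856) (nat_lit 0) (.e (nat_lit 3600) (nat_lit 225) (.e (nat_lit 761912) (nat_lit 18) (.e (nat_lit 196352) (nat_lit 0) .nil)))))) (.g (nat_lit 5) .nil .nil))))) (.nd (nat_lit 4) (.nd (nat_lit 5) 
(.lf (nat_lit 88587) (.g (nat_lit 2296) (.e (nat_lit 2024) (nat_lit 140) (.e (nat_lit 688177) (nat_lit 16) (.e (nat_lit 65583) (nat_lit 7) (.e (nat_lit 319530) (nat_lit 16) (.e (nat_lit 286753) (nat_lit 10) .nil))))) .nil)) 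
(.lf (nat_lit 88619) (.g (nat_lit 986) (.e (nat_lit 2024) (nat_lit 140) (.e (nat_lit 688186) (nat_lit 18) (.e (nat_lit 81938) (nat_lit 20) (.e (nat_lit 1962) (nat_lit 134) (.e (nat_lit 638999) (nat_lit 8) .nil))))) .nil))) (.nd (nat_lit 5) 
(.lf (nat_lit 88603) (.g (nat_lit 363) (.e (nat_lit 2024) (nat_lit 140) (.e (nat_lit 688177) (nat_lit 16) (.e (nat_lit 65610) (nat_lit 10) .nil))) .nil)) 
(.lf (nat_lit 88635) (.g (nat_lit 735) (.e (nat_lit 2028) (nat_lit 140) (.e (nat_lit 688184) (nat_lit 18) (.e (nat_lit 89856) (nat_lit 0) (.e (nat_lit 3603) (nat_lit 225) (.e (nat_lit 761912) (nat_lit 18) (.e (nat_lit 196352) (nat_lit 0) .nil)))))) (.g (nat_lit 5) .nil .nil)))))) (.nd (nat_lit 3) (.nd (nat_lit 4) (.nd (nat_lit 5) 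
(.lf (nat_lit 88583) (.g (nat_lit 2128) (.e (nat_lit 2024) (nat_lit 140) (.e (nat_lit 688175) (nat_lit 16) (.e (nat_lit 65619) (nat_lit 10) (.e (nat_lit 344160) (nat_lit 37) (.e (nat_lit 647195) (nat_lit 9) (.e (nat_lit 7936) (nat_lit 37) (.e (nat_lit 466944) (nat_lit 0) .nil))))))) (.g (nat_lit 5) .nil .nil))) 
(.lf (nat_lit 88615) (.g (nat_lit 2459) (.e (nat_lit 2024) (nat_lit 140) (.e (nat_lit 688182) (nat_lit 17) (.e (nat_lit 73755) (nat_lit 8) (.e (nat_lit 557098) (nat_lit 13) (.e (nat_lit 179968) (nat_lit 20) .nil))))) .nil))) (.nd (nat_lit 5) 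
(.lf (nat_lit 88599) (.g (nat_lit 1827) (.e (nat_lit 2024) (nat_lit 140) (.e (nat_lit 688177) (nat_lit 16) (.e (nat_lit 65586) (nat_lit 7) (.e (nat_lit 319531) (nat_lit 16) (.e (nat_lit 286759) (nat_lit 12) .nil))))) .nil)) 
(.lf (nat_lit 88631) (.g (nat_lit 1884) (.e (nat_lit 2027) (nat_lit 140) (.e (nat_lit 688185) (nat_lit 18) (.e (nat_lit 81950) (nat_lit 21) (.e (nat_lit 57857) (nat_lit 254) (.e (nat_lit 163920) (nat_lit 14) (.e (nat_lit 450304) (nat_lit 0) .nil)))))) (.g (nat_lit 5) .nil .nil))))) (.nd (nat_lit 4) (.nd (nat_lit 5) 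
(.lf (nat_lit 88591) (.g (nat_lit 1856) (.e (nat_lit 2024) (nat_lit 140) (.e (nat_lit 688177) (nat_lit 16) (.e (nat_lit 65586) (nat_lit 7) (.e (nat_lit 319531) (nat_lit 16) (.e (nat_lit 286748) (nat_lit 9) .nil))))) .nil)) 
(.lf (nat_lit 88623) (.g (nat_lit 2232) (.e (nat_lit 2026) (nat_lit 140) (.e (nat_lit 688181) (nat_lit 17) (.e (nat_lit 73754) (nat_lit 8) (.e (nat_lit 557100) (nat_lit 13) (.e (nat_lit 179968) (nat_lit 20) .nil))))) .nil))) (.nd (nat_lit 5) 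
(.lf (nat_lit 88607) (.g (nat_lit 1267) (.e (nat_lit 2024) (nat_lit 140) (.e (nat_lit 688178) (nat_lit 16) (.e (nat_lit 65619) (nat_lit 10) (.e (nat_lit 344154) (nat_lit 35) .nil)))) .nil)) 
(.lf (nat_lit 88639) (.g (nat_lit 1190) (.e (nat_lit 2028) (nat_lit 140) (.e (nat_lit 688186) (nat_lit 18) (.e (nat_lit 81950) (nat_lit 21) (.e (nat_lit 57857) (nat_lit 254) (.e (nat_lit 163920) (nat_lit 14) .nil))))) .nil))))))))

noncomputable def tv1209 : DT := (.nd (nat_lit 0) (.nd (nat_lit 1) (.nd (nat_lit 2) (.nd (nat_lit 3) (.nd (nat_lit 4) (.nd (nat_lit 5) 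
(.lf (nat_lit 88640) (.g (nat_lit 1992) (.e (nat_lit 2029) (nat_lit 140) (.e (nat_lit 688177) (nat_lit 16) (.e (nat_lit 65586) (nat_lit 7) (.e (nat_lit 319531) (nat_lit 16) (.e (nat_lit 286748) (nat_lit 9) .nil))))) .nil)) 
(.lf (nat_lit 88672) (.g (nat_lit 2429) (.e (nat_lit 2030) (nat_lit 140) (.e (nat_lit 688170) (nat_lit 15) (.e (nat_lit 57480) (nat_lit 28) (.e (nat_lit 557107) (nat_lit 15) (.e (nat_lit 196352) (nat_lit 18) (.e (nat_lit 401152) (nat_lit 0) .nil)))))) (.g (nat_lit 4) .nil .nil)))) (.nd (nat_lit 5) 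
(.lf (nat_lit 88656) (.g (nat_lit 3008) (.e (nat_lit 2030) (nat_lit 140) (.e (nat_lit 688159) (nat_lit 13) (.e (nat_lit 1250) (nat_lit 92) (.e (nat_lit 98313) (nat_lit 9) (.e (nat_lit 336223) (nat_lit 13) (.e (nat_lit 393234) (nat_lit 17) (.e (nat_lit 3564) (nat_lit 221) (.e (nat_lit 729103) (nat_lit 20) .nil)))))))) (.g (nat_lit 6) .nil .nil))) 
(.lf (nat_lit 88688) (.g (nat_lit 2455) (.e (nat_lit 2030) (nat_lit 140) (.e (nat_lit 688171) (nat_lit 15) (.e (nat_lit 57479) (nat_lit 28) (.e (nat_lit 557109) (nat_lit 15) (.e (nat_lit 196352) (nat_lit 18) (.e (nat_lit 401152) (nat_lit 0) .nil)))))) (.g (nat_lit 4) .nil .nil))))) (.nd (nat_lit 4) (.nd (nat_lit 5) 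
(.lf (nat_lit 88648) (.g (nat_lit 2391) (.e (nat_lit 2029) (nat_lit 140) (.e (nat_lit 688180) (nat_lit 17) (.e (nat_lit 73753) (nat_lit 8) (.e (nat_lit 557100) (nat_lit 13) (.e (nat_lit 179968) (nat_lit 20) .nil))))) .nil)) 
(.lf (nat_lit 88680) (.g (nat_lit 3279) (.e (nat_lit 2030) (nat_lit 140) (.e (nat_lit 688170) (nat_lit 15) (.e (nat_lit 57480) (nat_lit 28) (.e (nat_lit 557109) (nat_lit 15) (.e (nat_lit 188461) (nat_lit 26) (.e (nat_lit 261888) (nat_lit 4) (.e (nat_lit 179968) (nat_lit 15) .nil))))))) (.g (nat_lit 5) .nil .nil)))) (.nd (nat_lit 5) 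
(.lf (nat_lit 88664) (.g (nat_lit 2067) (.e (nat_lit 2030) (nat_lit 140) (.e (nat_lit 688170) (nat_lit 15) (.e (nat_lit 57479) (nat_lit 28) (.e (nat_lit 557105) (nat_lit 14) (.e (nat_lit 180252) (nat_lit 10) .nil))))) .nil)) 
(.lf (nat_lit 88696) (.g (nat_lit 1029) (.e (nat_lit 2030) (nat_lit 140) (.e (nat_lit 688175) (nat_lit 16) (.e (nat_lit 65619) (nat_lit 10) (.e (nat_lit 344156) (nat_lit 36) .nil)))) .nil))))) (.nd (nat_lit 3) (.nd (nat_lit 4) (.nd (nat_lit 5) 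
(.lf (nat_lit 88644) (.g (nat_lit 2236) (.e (nat_lit 2029) (nat_lit 140) (.e (nat_lit 688177) (nat_lit 16) (.e (nat_lit 65586) (nat_lit 7) (.e (nat_lit 319531) (nat_lit 16) (.e (nat_lit 286756) (nat_lit 10) .nil))))) .nil)) 
(.lf (nat_lit 88676) (.g (nat_lit 2676) (.e (nat_lit 2030) (nat_lit 140) (.e (nat_lit 688170) (nat_lit 15) (.e (nat_lit 57480) (nat_lit 28) (.e (nat_lit 557109) (nat_lit 15) (.e (nat_lit 188460) (nat_lit 26) .nil))))) .nil))) (.nd (nat_lit 5) 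
(.lf (nat_lit 88660) (.g (nat_lit 2920) (.e (nat_lit 2030) (nat_lit 140) (.e (nat_lit 688170) (nat_lit 15) (.e (nat_lit 57478) (nat_lit 28) (.e (nat_lit 557105) (nat_lit 14) (.e (nat_lit 180252) (nat_lit 10) (.e (nat_lit 573489) (nat_lit 14) (.e (nat_lit 73755) (nat_lit 8) (.e (nat_lit 557066) (nat_lit 9) (.e (nat_lit 19) (nat_lit 0) .nil))))))))) (.g (nat_lit 5) .nil .nil))) 
(.lf (nat_lit 88692) (.g (nat_lit 3376) (.e (nat_lit 2030) (nat_lit 140) (.e (nat_lit 688171) (nat_lit 15) (.e (nat_lit 57520) (nat_lit 44) (.e (nat_lit 688177) (nat_lit 16) (.e (nat_lit 65627) (nat_lit 13) (.e (nat_lit 393273) (nat_lit 23) (.e (nat_lit 426364) (nat_lit 15) .nil))))))) (.g (nat_lit 6) .nil .nil))))) (.nd (nat_lit 4) (.nd (nat_lit 5) 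
(.lf (nat_lit 88652) (.g (nat_lit 2378) (.e (nat_lit 2029) (nat_lit 140) (.e (nat_lit 688182) (nat_lit 17) (.e (nat_lit 73754) (nat_lit 8) (.e (nat_lit 557100) (nat_lit 13) (.e (nat_lit 179968) (nat_lit 20) .nil))))) .nil)) 
(.lf (nat_lit 88684) (.g (nat_lit 3180) (.e (nat_lit 2030) (nat_lit 140) (.e (nat_lit 688171) (nat_lit 15) (.e (nat_lit 57478) (nat_lit 28) (.e (nat_lit 557109) (nat_lit 15) (.e (nat_lit 188461) (nat_lit 26) (.e (nat_lit 261888) (nat_lit 4) (.e (nat_lit 179968) (nat_lit 15) .nil))))))) (.g (nat_lit 5) .nil .nil)))) (.nd (nat_lit 5) 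
(.lf (nat_lit 88668) (.g (nat_lit 3183) (.e (nat_lit 2030) (nat_lit 140) (.e (nat_lit 688170) (nat_lit 15) (.e (nat_lit 57479) (nat_lit 28) (.e (nat_lit 557105) (nat_lit 14) (.e (nat_lit 180252) (nat_lit 10) (.e (nat_lit 573489) (nat_lit 14) (.e (nat_lit 73755) (nat_lit 8) (.e (nat_lit 557067) (nat_lit 9) (.e (nat_lit 7936) (nat_lit 0) .nil))))))))) (.g (nat_lit 6) .nil .nil))) 
(.lf (nat_lit 88700) (.g (nat_lit 1807) (.e (nat_lit 2030) (nat_lit 140) (.e (nat_lit 688175) (nat_lit 16) (.e (nat_lit 65619) (nat_lit 10) (.e (nat_lit 344157) (nat_lit 36) (.e (nat_lit 638986) (nat_lit 5) (.e (nat_lit 2988) (nat_lit 186) (.e (nat_lit 450304) (nat_lit 0) .nil))))))) (.g (nat_lit 6) .nil .nil))))))) (.nd (nat_lit 2) (.nd (nat_lit 3) (.nd (nat_lit 4) (.nd (nat_lit 5) 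
(.lf (nat_lit 88642) (.g (nat_lit 2041) (.e (nat_lit 2029) (nat_lit 140) (.e (nat_lit 688177) (nat_lit 16) (.e (nat_lit 65586) (nat_lit 7) (.e (nat_lit 319531) (nat_lit 16) (.e (nat_lit 286748) (nat_lit 9) (.e (nat_lit 336295) (nat_lit 15) (.e (nat_lit 3747) (nat_lit 228) (.e (nat_lit 786445) (nat_lit 15) .nil)))))))) (.g (nat_lit 4) .nil .nil))) 
(.lf (nat_lit 88674) (.g (nat_lit 2774) (.e (nat_lit 2030) (nat_lit 140) (.e (nat_lit 688170) (nat_lit 15) (.e (nat_lit 57480) (nat_lit 28) (.e (nat_lit 557109) (nat_lit 15) (.e (nat_lit 196352) (nat_lit 18) (.e (nat_lit 401152) (nat_lit 0) .nil)))))) (.g (nat_lit 4) .nil .nil)))) (.nd (nat_lit 5) 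
(.lf (nat_lit 88658) (.g (nat_lit 2637) (.e (nat_lit 2030) (nat_lit 140) (.e (nat_lit 688169) (nat_lit 15) (.e (nat_lit 57479) (nat_lit 28) (.e (nat_lit 557109) (nat_lit 15) (.e (nat_lit 196352) (nat_lit 18) (.e (nat_lit 401152) (nat_lit 0) .nil)))))) (.g (nat_lit 4) .nil .nil))) 
(.lf (nat_lit 88690) (.g (nat_lit 3020) (.e (nat_lit 2030) (nat_lit 140) (.e (nat_lit 688171) (nat_lit 15) (.e (nat_lit 57480) (nat_lit 28) (.e (nat_lit 557108) (nat_lit 15) (.e (nat_lit 196352) (nat_lit 18) (.e (nat_lit 401152) (nat_lit 0) .nil)))))) (.g (nat_lit 4) .nil .nil))))) (.nd (nat_lit 4) (.nd (nat_lit 5) 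
(.lf (nat_lit 88650) (.g (nat_lit 2299) (.e (nat_lit 2029) (nat_lit 140) (.e (nat_lit 688181) (nat_lit 17) (.e (nat_lit 73755) (nat_lit 8) (.e (nat_lit 557098) (nat_lit 13) (.e (nat_lit 179968) (nat_lit 20) .nil))))) .nil)) 
(.lf (nat_lit 88682) (.g (nat_lit 1082) (.e (nat_lit 2030) (nat_lit 140) (.e (nat_lit 688171) (nat_lit 15) (.e (nat_lit 57478) (nat_lit 28) (.e (nat_lit 557107) (nat_lit 15) (.e (nat_lit 188459) (nat_lit 26) .nil))))) .nil))) (.nd (nat_lit 5) 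
(.lf (nat_lit 88666) (.g (nat_lit 3878) (.e (nat_lit 2030) (nat_lit 140) (.e (nat_lit 688170) (nat_lit 15) (.e (nat_lit 57479) (nat_lit 28) (.e (nat_lit 557105) (nat_lit 14) (.e (nat_lit 180252) (nat_lit 10) (.e (nat_lit 573489) (nat_lit 14) (.e (nat_lit 73755) (nat_lit 8) (.e (nat_lit 557065) (nat_lit 9) (.e (nat_lit 19) (nat_lit 0) .nil))))))))) (.g (nat_lit 7) .nil .nil))) 
(.lf (nat_lit 88698) (.g (nat_lit 1621) (.e (nat_lit 2030) (nat_lit 140) (.e (nat_lit 688175) (nat_lit 16) (.e (nat_lit 65619) (nat_lit 10) (.e (nat_lit 344157) (nat_lit 36) (.e (nat_lit 638985) (nat_lit 5) (.e (nat_lit 2998) (nat_lit 186) (.e (nat_lit 450304) (nat_lit 0) .nil))))))) (.g (nat_lit 4) .nil .nil)))))) (.nd (nat_lit 3) (.nd (nat_lit 4) (.nd (nat_lit 5) 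
(.lf (nat_lit 88646) (.g (nat_lit 1962) (.e (nat_lit 2029) (nat_lit 140) (.e (nat_lit 688177) (nat_lit 16) (.e (nat_lit 65586) (nat_lit 7) (.e (nat_lit 319531) (nat_lit 16) (.e (nat_lit 286759) (nat_lit 12) .nil))))) .nil)) 
(.lf (nat_lit 88678) (.g (nat_lit 2713) (.e (nat_lit 2030) (nat_lit 140) (.e (nat_lit 688170) (nat_lit 15) (.e (nat_lit 57480) (nat_lit 28) (.e (nat_lit 557109) (nat_lit 15) (.e (nat_lit 188460) (nat_lit 26) (.e (nat_lit 253958) (nat_lit 0) (.e (nat_lit 2856) (nat_lit 184) (.e (nat_lit 426402) (nat_lit 15) .nil)))))))) (.g (nat_lit 4) .nil .nil)))) (.nd (nat_lit 5) 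
(.lf (nat_lit 88662) (.g (nat_lit 1756) (.e (nat_lit 2030) (nat_lit 140) (.e (nat_lit 688170) (nat_lit 15) (.e (nat_lit 57478) (nat_lit 28) (.e (nat_lit 557108) (nat_lit 15) (.e (nat_lit 196352) (nat_lit 18) .nil))))) .nil)) 
(.lf (nat_lit 88694) (.g (nat_lit 3227) (.e (nat_lit 2030) (nat_lit 140) (.e (nat_lit 688174) (nat_lit 16) (.e (nat_lit 65571) (nat_lit 3) (.e (nat_lit 98359) (nat_lit 26) (.e (nat_lit 426211) (nat_lit 9) (.e (nat_lit 426125) (nat_lit 2) (.e (nat_lit 204544) (nat_lit 0) (.e (nat_lit 60) (nat_lit 0) .nil)))))))) (.g (nat_lit 5) .nil .nil))))) (.nd (nat_lit 4) (.nd (nat_lit 5) 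
(.lf (nat_lit 88654) (.g (nat_lit 2496) (.e (nat_lit 2029) (nat_lit 140) (.e (nat_lit 688182) (nat_lit 17) (.e (nat_lit 73755) (nat_lit 8) (.e (nat_lit 557098) (nat_lit 13) (.e (nat_lit 179968) (nat_lit 20) .nil))))) .nil)) 
(.lf (nat_lit 88686) (.g (nat_lit 4797) (.e (nat_lit 2030) (nat_lit 140) (.e (nat_lit 688171) (nat_lit 15) (.e (nat_lit 57479) (nat_lit 28) (.e (nat_lit 557105) (nat_lit 14) (.e (nat_lit 180252) (nat_lit 10) (.e (nat_lit 573489) (nat_lit 14) (.e (nat_lit 73755) (nat_lit 8) (.e (nat_lit 557066) (nat_lit 9) (.e (nat_lit 19) (nat_lit 0) .nil))))))))) (.g (nat_lit 8) .nil .nil)))) (.nd (nat_lit 5) 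
(.lf (nat_lit 88670) (.g (nat_lit 2683) (.e (nat_lit 2030) (nat_lit 140) (.e (nat_lit 688170) (nat_lit 15) (.e (nat_lit 57479) (nat_lit 28) (.e (nat_lit 557107) (nat_lit 15) (.e (nat_lit 196352) (nat_lit 18) (.e (nat_lit 401152) (nat_lit 0) .nil)))))) (.g (nat_lit 4) .nil .nil))) 
(.lf (nat_lit 88702) (.g (nat_lit 1727) (.e (nat_lit 2030) (nat_lit 140) (.e (nat_lit 688175) (nat_lit 16) (.e (nat_lit 65619) (nat_lit 10) (.e (nat_lit 344157) (nat_lit 36) (.e (nat_lit 638986) (nat_lit 5) (.e (nat_lit 2998) (nat_lit 186) (.e (nat_lit 450304) (nat_lit 0) .nil))))))) (.g (nat_lit 6) .nil .nil)))))))) 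
(.nd (nat_lit 1) (.nd (nat_lit 2) (.nd (nat_lit 3) (.nd (nat_lit 4) (.nd (nat_lit 5) 
(.lf (nat_lit 88641) (.g (nat_lit 2063) (.e (nat_lit 2029) (nat_lit 140) (.e (nat_lit 688177) (nat_lit 16) (.e (nat_lit 65586) (nat_lit 7) (.e (nat_lit 319531) (nat_lit 16) (.e (nat_lit 286748) (nat_lit 9) (.e (nat_lit 336295) (nat_lit 15) (.e (nat_lit 3632) (nat_lit 227) (.e (nat_lit 778246) (nat_lit 0) (.e (nat_lit 1016) (nat_lit 81) .nil))))))))) (.g (nat_lit 4) .nil .nil))) 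
(.lf (nat_lit 88673) (.g (nat_lit 2797) (.e (nat_lit 2030) (nat_lit 140) (.e (nat_lit 688170) (nat_lit 15) (.e (nat_lit 57480) (nat_lit 28) (.e (nat_lit 557108) (nat_lit 15) (.e (nat_lit 196352) (nat_lit 18) (.e (nat_lit 401152) (nat_lit 0) .nil)))))) (.g (nat_lit 4) .nil .nil)))) (.nd (nat_lit 5) 
(.lf (nat_lit 88657) (.g (nat_lit 2793) (.e (nat_lit 2030) (nat_lit 140) (.e (nat_lit 688165) (nat_lit 15) (.e (nat_lit 57479) (nat_lit 28) (.e (nat_lit 557105) (nat_lit 14) (.e (nat_lit 180252) (nat_lit 10) (.e (nat_lit 573489) (nat_lit 14) (.e (nat_lit 73755) (nat_lit 8) (.e (nat_lit 557066) (nat_lit 9) (.e (nat_lit 19) (nat_lit 0) .nil))))))))) (.g (nat_lit 5) .nil .nil))) 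
(.lf (nat_lit 88689) (.g (nat_lit 2126) (.e (nat_lit 2030) (nat_lit 140) (.e (nat_lit 688171) (nat_lit 15) (.e (nat_lit 57480) (nat_lit 28) (.e (nat_lit 557107) (nat_lit 15) (.e (nat_lit 196352) (nat_lit 18) .nil))))) .nil)))) (.nd (nat_lit 4) (.nd (nat_lit 5) 
(.lf (nat_lit 88649) (.g (nat_lit 1770) (.e (nat_lit 2029) (nat_lit 140) (.e (nat_lit 688181) (nat_lit 17) (.e (nat_lit 73755) (nat_lit 8) (.e (nat_lit 557089) (nat_lit 12) (.e (nat_lit 171776) (nat_lit 192) .nil))))) .nil)) 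
(.lf (nat_lit 88681) (.g (nat_lit 2038) (.e (nat_lit 2030) (nat_lit 140) (.e (nat_lit 688171) (nat_lit 15) (.e (nat_lit 57478) (nat_lit 28) (.e (nat_lit 557107) (nat_lit 15) (.e (nat_lit 196352) (nat_lit 18) (.e (nat_lit 401152) (nat_lit 0) .nil)))))) (.g (nat_lit 4) .nil .nil)))) (.nd (nat_lit 5) 
(.lf (nat_lit 88665) (.g (nat_lit 3044) (.e (nat_lit 2030) (nat_lit 140) (.e (nat_lit 688170) (nat_lit 15) (.e (nat_lit 57479) (nat_lit 28) (.e (nat_lit 557105) (nat_lit 14) (.e (nat_lit 180252) (nat_lit 10) (.e (nat_lit 573489) (nat_lit 14) (.e (nat_lit 73755) (nat_lit 8) (.e (nat_lit 557065) (nat_lit 9) (.e (nat_lit 12) (nat_lit 0) .nil))))))))) (.g (nat_lit 5) .nil .nil))) 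
(.lf (nat_lit 88697) (.g (nat_lit 1186) (.e (nat_lit 2030) (nat_lit 140) (.e (nat_lit 688175) (nat_lit 16) (.e (nat_lit 65619) (nat_lit 10) (.e (nat_lit 344157) (nat_lit 36) (.e (nat_lit 638982) (nat_lit 5) .nil))))) .nil))))) (.nd (nat_lit 3) (.nd (nat_lit 4) (.nd (nat_lit 5) 
(.lf (nat_lit 88645) (.g (nat_lit 2356) (.e (nat_lit 2029) (nat_lit 140) (.e (nat_lit 688177) (nat_lit 16) (.e (nat_lit 65586) (nat_lit 7) (.e (nat_lit 319531) (nat_lit 16) (.e (nat_lit 286756) (nat_lit 10) (.e (nat_lit 344168) (nat_lit 40) (.e (nat_lit 671751) (nat_lit 0) (.e (nat_lit 1015) (nat_lit 81) .nil)))))))) (.g (nat_lit 4) .nil .nil))) 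
(.lf (nat_lit 88677) (.g (nat_lit 2691) (.e (nat_lit 2030) (nat_lit 140) (.e (nat_lit 688170) (nat_lit 15) (.e (nat_lit 57480) (nat_lit 28) (.e (nat_lit 557109) (nat_lit 15) (.e (nat_lit 188460) (nat_lit 26) (.e (nat_lit 253957) (nat_lit 0) (.e (nat_lit 2856) (nat_lit 184) (.e (nat_lit 426402) (nat_lit 15) .nil)))))))) (.g (nat_lit 4) .nil .nil)))) (.nd (nat_lit 5) 
(.lf (nat_lit 88661) (.g (nat_lit 2376) (.e (nat_lit 2030) (nat_lit 140) (.e (nat_lit 688170) (nat_lit 15) (.e (nat_lit 57478) (nat_lit 28) (.e (nat_lit 557107) (nat_lit 15) (.e (nat_lit 196352) (nat_lit 18) .nil))))) .nil)) 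
(.lf (nat_lit 88693) (.g (nat_lit 5627) (.e (nat_lit 2030) (nat_lit 140) (.e (nat_lit 688174) (nat_lit 16) (.e (nat_lit 65571) (nat_lit 3) (.e (nat_lit 98359) (nat_lit 26) (.e (nat_lit 426211) (nat_lit 9) (.e (nat_lit 426125) (nat_lit 2) (.e (nat_lit 196615) (nat_lit 0) (.e (nat_lit 60) (nat_lit 0) .nil)))))))) (.g (nat_lit 6) .nil .nil))))) (.nd (nat_lit 4) (.nd (nat_lit 5) 
(.lf (nat_lit 88653) (.g (nat_lit 1692) (.e (nat_lit 2029) (nat_lit 140) (.e (nat_lit 688182) (nat_lit 17) (.e (nat_lit 73755) (nat_lit 8) (.e (nat_lit 557089) (nat_lit 12) (.e (nat_lit 171776) (nat_lit 192) .nil))))) .nil)) 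
(.lf (nat_lit 88685) (.g (nat_lit 2399) (.e (nat_lit 2030) (nat_lit 140) (.e (nat_lit 688171) (nat_lit 15) (.e (nat_lit 57479) (nat_lit 28) (.e (nat_lit 557105) (nat_lit 14) (.e (nat_lit 180252) (nat_lit 10) (.e (nat_lit 573489) (nat_lit 14) (.e (nat_lit 73755) (nat_lit 8) (.e (nat_lit 557065) (nat_lit 9) (.e (nat_lit 12) (nat_lit 0) .nil))))))))) (.g (nat_lit 5) .nil .nil)))) (.nd (nat_lit 5) 
(.lf (nat_lit 88669) (.g (nat_lit 5315) (.e (nat_lit 2030) (nat_lit 140) (.e (nat_lit 688170) (nat_lit 15) (.e (nat_lit 57479) (nat_lit 28) (.e (nat_lit 557105) (nat_lit 14) (.e (nat_lit 180252) (nat_lit 10) (.e (nat_lit 573489) (nat_lit 14) (.e (nat_lit 73755) (nat_lit 8) (.e (nat_lit 557070) (nat_lit 9) (.e (nat_lit 70) (nat_lit 0) .nil))))))))) (.g (nat_lit 7) .nil .nil))) 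
(.lf (nat_lit 88701) (.g (nat_lit 1810) (.e (nat_lit 2030) (nat_lit 140) (.e (nat_lit 688175) (nat_lit 16) (.e (nat_lit 65619) (nat_lit 10) (.e (nat_lit 344157) (nat_lit 36) (.e (nat_lit 638986) (nat_lit 5) (.e (nat_lit 2989) (nat_lit 186) (.e (nat_lit 450304) (nat_lit 0) .nil))))))) (.g (nat_lit 6) .nil .nil))))))) (.nd (nat_lit 2) (.nd (nat_lit 3) (.nd (nat_lit 4) (.nd (nat_lit 5) 
(.lf (nat_lit 88643) (.g (nat_lit 2101) (.e (nat_lit 2029) (nat_lit 140) (.e (nat_lit 688177) (nat_lit 16) (.e (nat_lit 65586) (nat_lit 7) (.e (nat_lit 319531) (nat_lit 16) (.e (nat_lit 286748) (nat_lit 9) (.e (nat_lit 336295) (nat_lit 15) (.e (nat_lit 3748) (nat_lit 228) (.e (nat_lit 786445) (nat_lit 15) .nil)))))))) (.g (nat_lit 4) .nil .nil))) 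
(.lf (nat_lit 88675) (.g (nat_lit 2687) (.e (nat_lit 2030) (nat_lit 140) (.e (nat_lit 688170) (nat_lit 15) (.e (nat_lit 57480) (nat_lit 28) (.e (nat_lit 557109) (nat_lit 15) (.e (nat_lit 188427) (nat_lit 20) (.e (nat_lit 3547) (nat_lit 219) (.e (nat_lit 712740) (nat_lit 27) (.e (nat_lit 426402) (nat_lit 15) .nil)))))))) (.g (nat_lit 4) .nil .nil)))) (.nd (nat_lit 5) 
(.lf (nat_lit 88659) (.g (nat_lit 2294) (.e (nat_lit 2030) (nat_lit 140) (.e (nat_lit 688169) (nat_lit 15) (.e (nat_lit 57480) (nat_lit 28) (.e (nat_lit 557108) (nat_lit 15) (.e (nat_lit 196352) (nat_lit 18) (.e (nat_lit 401152) (nat_lit 0) .nil)))))) (.g (nat_lit 4) .nil .nil))) 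
(.lf (nat_lit 88691) (.g (nat_lit 2386) (.e (nat_lit 2030) (nat_lit 140) (.e (nat_lit 688171) (nat_lit 15) (.e (nat_lit 57480) (nat_lit 28) (.e (nat_lit 557109) (nat_lit 15) (.e (nat_lit 196352) (nat_lit 18) .nil))))) .nil)))) (.nd (nat_lit 4) (.nd (nat_lit 5) 
(.lf (nat_lit 88651) (.g (nat_lit 2305) (.e (nat_lit 2029) (nat_lit 140) (.e (nat_lit 688181) (nat_lit 17) (.e (nat_lit 73755) (nat_lit 8) (.e (nat_lit 557098) (nat_lit 13) (.e (nat_lit 179968) (nat_lit 20) (.e (nat_lit 114712) (nat_lit 21) (.e (nat_lit 57852) (nat_lit 252) (.e (nat_lit 57347) (nat_lit 0) .nil)))))))) (.g (nat_lit 4) .nil .nil))) 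
(.lf (nat_lit 88683) (.g (nat_lit 2363) (.e (nat_lit 2030) (nat_lit 140) (.e (nat_lit 688171) (nat_lit 15) (.e (nat_lit 57478) (nat_lit 28) (.e (nat_lit 557109) (nat_lit 15) (.e (nat_lit 196352) (nat_lit 18) (.e (nat_lit 401152) (nat_lit 0) .nil)))))) (.g (nat_lit 4) .nil .nil)))) (.nd (nat_lit 5) 
(.lf (nat_lit 88667) (.g (nat_lit 5442) (.e (nat_lit 2030) (nat_lit 140) (.e (nat_lit 688170) (nat_lit 15) (.e (nat_lit 57479) (nat_lit 28) (.e (nat_lit 557105) (nat_lit 14) (.e (nat_lit 180252) (nat_lit 10) (.e (nat_lit 573489) (nat_lit 14) (.e (nat_lit 73755) (nat_lit 8) (.e (nat_lit 557066) (nat_lit 9) (.e (nat_lit 19) (nat_lit 0) .nil))))))))) (.g (nat_lit 8) .nil .nil))) 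
(.lf (nat_lit 88699) (.g (nat_lit 1539) (.e (nat_lit 2030) (nat_lit 140) (.e (nat_lit 688175) (nat_lit 16) (.e (nat_lit 65619) (nat_lit 10) (.e (nat_lit 344157) (nat_lit 36) (.e (nat_lit 638985) (nat_lit 5) (.e (nat_lit 3005) (nat_lit 186) (.e (nat_lit 450304) (nat_lit 0) .nil))))))) (.g (nat_lit 4) .nil .nil)))))) (.nd (nat_lit 3) (.nd (nat_lit 4) (.nd (nat_lit 5) 
(.lf (nat_lit 88647) (.g (nat_lit 2266) (.e (nat_lit 2029) (nat_lit 140) (.e (nat_lit 688177) (nat_lit 16) (.e (nat_lit 65586) (nat_lit 7) (.e (nat_lit 319534) (nat_lit 16) (.e (nat_lit 286756) (nat_lit 10) (.e (nat_lit 344168) (nat_lit 40) (.e (nat_lit 671751) (nat_lit 0) (.e (nat_lit 1015) (nat_lit 81) .nil)))))))) (.g (nat_lit 4) .nil .nil))) 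
(.lf (nat_lit 88679) (.g (nat_lit 2155) (.e (nat_lit 2030) (nat_lit 140) (.e (nat_lit 688170) (nat_lit 15) (.e (nat_lit 57480) (nat_lit 28) (.e (nat_lit 557109) (nat_lit 15) (.e (nat_lit 188461) (nat_lit 26) .nil))))) .nil))) (.nd (nat_lit 5) 
(.lf (nat_lit 88663) (.g (nat_lit 2187) (.e (nat_lit 2030) (nat_lit 140) (.e (nat_lit 688170) (nat_lit 15) (.e (nat_lit 57478) (nat_lit 28) (.e (nat_lit 557109) (nat_lit 15) (.e (nat_lit 196352) (nat_lit 18) .nil))))) .nil)) 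
(.lf (nat_lit 88695) (.g (nat_lit 1004) (.e (nat_lit 2030) (nat_lit 140) (.e (nat_lit 688175) (nat_lit 16) (.e (nat_lit 65619) (nat_lit 10) (.e (nat_lit 344153) (nat_lit 35) .nil)))) .nil)))) (.nd (nat_lit 4) (.nd (nat_lit 5) 
(.lf (nat_lit 88655) (.g (nat_lit 2780) (.e (nat_lit 2030) (nat_lit 140) (.e (nat_lit 688159) (nat_lit 13) (.e (nat_lit 1250) (nat_lit 92) (.e (nat_lit 98313) (nat_lit 9) (.e (nat_lit 336223) (nat_lit 13) (.e (nat_lit 393234) (nat_lit 17) (.e (nat_lit 3559) (nat_lit 221) (.e (nat_lit 729104) (nat_lit 20) .nil)))))))) (.g (nat_lit 6) .nil .nil))) 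
(.lf (nat_lit 88687) (.g (nat_lit 2332) (.e (nat_lit 2030) (nat_lit 140) (.e (nat_lit 688171) (nat_lit 15) (.e (nat_lit 57479) (nat_lit 28) (.e (nat_lit 557107) (nat_lit 15) (.e (nat_lit 196352) (nat_lit 18) (.e (nat_lit 401152) (nat_lit 0) .nil)))))) (.g (nat_lit 4) .nil .nil)))) (.nd (nat_lit 5) 
(.lf (nat_lit 88671) (.g (nat_lit 2780) (.e (nat_lit 2030) (nat_lit 140) (.e (nat_lit 688170) (nat_lit 15) (.e (nat_lit 57479) (nat_lit 28) (.e (nat_lit 557109) (nat_lit 15) (.e (nat_lit 196352) (nat_lit 18) (.e (nat_lit 401152) (nat_lit 0) .nil)))))) (.g (nat_lit 4) .nil .nil))) 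
(.lf (nat_lit 88703) (.g (nat_lit 1812) (.e (nat_lit 2030) (nat_lit 140) (.e (nat_lit 688175) (nat_lit 16) (.e (nat_lit 65619) (nat_lit 10) (.e (nat_lit 344157) (nat_lit 36) (.e (nat_lit 638986) (nat_lit 5) (.e (nat_lit 3004) (nat_lit 186) (.e (nat_lit 450304) (nat_lit 0) .nil))))))) (.g (nat_lit 6) .nil .nil)))))))))

noncomputable def tv1210 : DT := (.nd (nat_lit 0) (.nd (nat_lit 1) (.nd (nat_lit 2) (.nd (nat_lit 3) (.nd (nat_lit 4) (.nd (nat_lit 5) 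
(.lf (nat_lit 88704) (.g (nat_lit 1724) (.e (nat_lit 2030) (nat_lit 140) (.e (nat_lit 688175) (nat_lit 16) (.e (nat_lit 65619) (nat_lit 10) (.e (nat_lit 344157) (nat_lit 36) (.e (nat_lit 638986) (nat_lit 5) (.e (nat_lit 3005) (nat_lit 186) (.e (nat_lit 450304) (nat_lit 0) .nil))))))) (.g (nat_lit 6) .nil .nil))) 
(.lf (nat_lit 88736) (.g (nat_lit 2201) (.e (nat_lit 2030) (nat_lit 140) (.e (nat_lit 688177) (nat_lit 16) (.e (nat_lit 65581) (nat_lit 7) (.e (nat_lit 319533) (nat_lit 16) (.e (nat_lit 286753) (nat_lit 10) (.e (nat_lit 344169) (nat_lit 40) (.e (nat_lit 671748) (nat_lit 0) (.e (nat_lit 1025) (nat_lit 81) .nil)))))))) (.g (nat_lit 4) .nil .nil)))) (.nd (nat_lit 5) 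
(.lf (nat_lit 88720) (.g (nat_lit 2759) (.e (nat_lit 2030) (nat_lit 140) (.e (nat_lit 688177) (nat_lit 16) (.e (nat_lit 65569) (nat_lit 3) (.e (nat_lit 98370) (nat_lit 28) (.e (nat_lit 442424) (nat_lit 22) (.e (nat_lit 204544) (nat_lit 0) (.e (nat_lit 18) (nat_lit 0) .nil))))))) (.g (nat_lit 4) .nil .nil))) 
(.lf (nat_lit 88752) (.g (nat_lit 2504) (.e (nat_lit 2030) (nat_lit 140) (.e (nat_lit 688177) (nat_lit 16) (.e (nat_lit 65583) (nat_lit 7) (.e (nat_lit 319530) (nat_lit 16) (.e (nat_lit 286748) (nat_lit 9) (.e (nat_lit 336034) (nat_lit 4) (.e (nat_lit 123195) (nat_lit 266) (.e (nat_lit 57354) (nat_lit 0) .nil)))))))) (.g (nat_lit 4) .nil .nil))))) (.nd (nat_lit 4) (.nd (nat_lit 5) 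
(.lf (nat_lit 88712) (.g (nat_lit 384) (.e (nat_lit 2030) (nat_lit 140) (.e (nat_lit 688177) (nat_lit 16) (.e (nat_lit 65569) (nat_lit 3) .nil))) .nil)) 
(.lf (nat_lit 88744) (.g (nat_lit 2377) (.e (nat_lit 2030) (nat_lit 140) (.e (nat_lit 688177) (nat_lit 16) (.e (nat_lit 65583) (nat_lit 7) (.e (nat_lit 319530) (nat_lit 16) (.e (nat_lit 286727) (nat_lit 0) (.e (nat_lit 6223) (nat_lit 334) (.e (nat_lit 123163) (nat_lit 256) (.e (nat_lit 18) (nat_lit 0) .nil)))))))) (.g (nat_lit 4) .nil .nil)))) (.nd (nat_lit 5) 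
(.lf (nat_lit 88728) (.g (nat_lit 2683) (.e (nat_lit 2030) (nat_lit 140) (.e (nat_lit 688177) (nat_lit 16) (.e (nat_lit 65571) (nat_lit 3) (.e (nat_lit 98359) (nat_lit 26) (.e (nat_lit 426285) (nat_lit 10) (.e (nat_lit 434229) (nat_lit 22) (.e (nat_lit 532224) (nat_lit 17) .nil))))))) (.g (nat_lit 4) .nil .nil))) 
(.lf (nat_lit 88760) (.g (nat_lit 2321) (.e (nat_lit 2030) (nat_lit 140) (.e (nat_lit 688177) (nat_lit 16) (.e (nat_lit 65583) (nat_lit 7) (.e (nat_lit 319530) (nat_lit 16) (.e (nat_lit 286748) (nat_lit 9) (.e (nat_lit 336295) (nat_lit 15) (.e (nat_lit 3632) (nat_lit 227) (.e (nat_lit 778251) (nat_lit 0) (.e (nat_lit 1046) (nat_lit 81) .nil))))))))) (.g (nat_lit 4) .nil .nil)))))) 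
(.nd (nat_lit 3) (.nd (nat_lit 4) (.nd (nat_lit 5) 
(.lf (nat_lit 88708) (.g (nat_lit 478) (.e (nat_lit 2030) (nat_lit 140) (.e (nat_lit 688177) (nat_lit 16) (.e (nat_lit 65550) (nat_lit 0) .nil))) .nil)) 
(.lf (nat_lit 88740) (.g (nat_lit 3421) (.e (nat_lit 2030) (nat_lit 140) (.e (nat_lit 688177) (nat_lit 16) (.e (nat_lit 65581) (nat_lit 7) (.e (nat_lit 319534) (nat_lit 16) (.e (nat_lit 286756) (nat_lit 10) (.e (nat_lit 344169) (nat_lit 40) (.e (nat_lit 671748) (nat_lit 0) (.e (nat_lit 1047) (nat_lit 81) .nil)))))))) (.g (nat_lit 5) .nil .nil)))) (.nd (nat_lit 5) 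
(.lf (nat_lit 88724) (.g (nat_lit 3645) (.e (nat_lit 2030) (nat_lit 140) (.e (nat_lit 688177) (nat_lit 16) (.e (nat_lit 65571) (nat_lit 3) (.e (nat_lit 98359) (nat_lit 26) (.e (nat_lit 426211) (nat_lit 9) (.e (nat_lit 426125) (nat_lit 2) (.e (nat_lit 204544) (nat_lit 0) (.e (nat_lit 18) (nat_lit 0) .nil)))))))) (.g (nat_lit 4) .nil .nil))) 
(.lf (nat_lit 88756) (.g (nat_lit 2200) (.e (nat_lit 2030) (nat_lit 140) (.e (nat_lit 688177) (nat_lit 16) (.e (nat_lit 65583) (nat_lit 7) (.e (nat_lit 319530) (nat_lit 16) (.e (nat_lit 286748) (nat_lit 9) (.e (nat_lit 336295) (nat_lit 15) (.e (nat_lit 3632) (nat_lit 227) (.e (nat_lit 778241) (nat_lit 0) (.e (nat_lit 1035) (nat_lit 81) .nil))))))))) (.g (nat_lit 4) .nil .nil))))) 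
(.nd (nat_lit 4) (.nd (nat_lit 5) 
(.lf (nat_lit 88716) (.g (nat_lit 3098) (.e (nat_lit 2030) (nat_lit 140) (.e (nat_lit 688177) (nat_lit 16) (.e (nat_lit 65569) (nat_lit 3) (.e (nat_lit 98359) (nat_lit 26) (.e (nat_lit 426211) (nat_lit 9) (.e (nat_lit 426125) (nat_lit 2) (.e (nat_lit 204544) (nat_lit 0) (.e (nat_lit 61) (nat_lit 0) .nil)))))))) (.g (nat_lit 4) .nil .nil))) 
(.lf (nat_lit 88748) (.g (nat_lit 2577) (.e (nat_lit 2030) (nat_lit 140) (.e (nat_lit 688177) (nat_lit 16) (.e (nat_lit 65583) (nat_lit 7) (.e (nat_lit 319530) (nat_lit 16) (.e (nat_lit 286739) (nat_lit 7) (.e (nat_lit 319539) (nat_lit 19) (.e (nat_lit 319232) (nat_lit 15) .nil))))))) (.g (nat_lit 6) .nil .nil)))) (.nd (nat_lit 5) 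
(.lf (nat_lit 88732) (.g (nat_lit 2831) (.e (nat_lit 2030) (nat_lit 140) (.e (nat_lit 688177) (nat_lit 16) (.e (nat_lit 65571) (nat_lit 3) (.e (nat_lit 98370) (nat_lit 28) (.e (nat_lit 442424) (nat_lit 22) (.e (nat_lit 204544) (nat_lit 0) (.e (nat_lit 61) (nat_lit 0) .nil))))))) (.g (nat_lit 4) .nil .nil))) 
(.lf (nat_lit 88764) (.g (nat_lit 2110) (.e (nat_lit 2030) (nat_lit 140) (.e (nat_lit 688177) (nat_lit 16) (.e (nat_lit 65583) (nat_lit 7) (.e (nat_lit 319530) (nat_lit 16) (.e (nat_lit 286748) (nat_lit 9) (.e (nat_lit 336295) (nat_lit 15) (.e (nat_lit 3664) (nat_lit 227) (.e (nat_lit 778266) (nat_lit 0) (.e (nat_lit 1019) (nat_lit 81) .nil))))))))) (.g (nat_lit 4) .nil .nil))))))) 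
(.nd (nat_lit 2) (.nd (nat_lit 3) (.nd (nat_lit 4) (.nd (nat_lit 5) 
(.lf (nat_lit 88706) (.g (nat_lit 3129) (.e (nat_lit 2030) (nat_lit 140) (.e (nat_lit 688175) (nat_lit 16) (.e (nat_lit 65619) (nat_lit 10) (.e (nat_lit 344160) (nat_lit 37) (.e (nat_lit 647199) (nat_lit 11) (.e (nat_lit 16438) (nat_lit 9) (.e (nat_lit 426364) (nat_lit 15) .nil))))))) (.g (nat_lit 6) .nil .nil))) 
(.lf (nat_lit 88738) (.g (nat_lit 3611) (.e (nat_lit 2030) (nat_lit 140) (.e (nat_lit 688177) (nat_lit 16) (.e (nat_lit 65581) (nat_lit 7) (.e (nat_lit 319533) (nat_lit 16) (.e (nat_lit 286753) (nat_lit 10) (.e (nat_lit 344169) (nat_lit 40) (.e (nat_lit 671748) (nat_lit 0) (.e (nat_lit 1047) (nat_lit 81) .nil)))))))) (.g (nat_lit 6) .nil .nil)))) (.nd (nat_lit 5) 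
(.lf (nat_lit 88722) (.g (nat_lit 6481) (.e (nat_lit 2030) (nat_lit 140) (.e (nat_lit 688177) (nat_lit 16) (.e (nat_lit 65571) (nat_lit 3) (.e (nat_lit 98359) (nat_lit 26) (.e (nat_lit 426211) (nat_lit 9) (.e (nat_lit 426125) (nat_lit 2) (.e (nat_lit 196615) (nat_lit 0) (.e (nat_lit 59) (nat_lit 0) .nil)))))))) (.g (nat_lit 6) .nil .nil))) 
(.lf (nat_lit 88754) (.g (nat_lit 2266) (.e (nat_lit 2030) (nat_lit 140) (.e (nat_lit 688177) (nat_lit 16) (.e (nat_lit 65583) (nat_lit 7) (.e (nat_lit 319530) (nat_lit 16) (.e (nat_lit 286748) (nat_lit 9) (.e (nat_lit 336295) (nat_lit 15) (.e (nat_lit 3632) (nat_lit 227) (.e (nat_lit 778241) (nat_lit 0) (.e (nat_lit 1017) (nat_lit 81) .nil))))))))) (.g (nat_lit 4) .nil .nil))))) 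
(.nd (nat_lit 4) (.nd (nat_lit 5) 
(.lf (nat_lit 88714) (.g (nat_lit 5979) (.e (nat_lit 2030) (nat_lit 140) (.e (nat_lit 688177) (nat_lit 16) (.e (nat_lit 65569) (nat_lit 3) (.e (nat_lit 98359) (nat_lit 26) (.e (nat_lit 426211) (nat_lit 9) (.e (nat_lit 426125) (nat_lit 2) (.e (nat_lit 196616) (nat_lit 0) (.e (nat_lit 59) (nat_lit 0) .nil)))))))) (.g (nat_lit 6) .nil .nil))) 
(.lf (nat_lit 88746) (.g (nat_lit 2484) (.e (nat_lit 2030) (nat_lit 140) (.e (nat_lit 688177) (nat_lit 16) (.e (nat_lit 65583) (nat_lit 7) (.e (nat_lit 319530) (nat_lit 16) (.e (nat_lit 286727) (nat_lit 0) (.e (nat_lit 7936) (nat_lit 361) (.e (nat_lit 179968) (nat_lit 15) .nil))))))) (.g (nat_lit 5) .nil .nil)))) (.nd (nat_lit 5) 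
(.lf (nat_lit 88730) (.g (nat_lit 2643) (.e (nat_lit 2030) (nat_lit 140) (.e (nat_lit 688177) (nat_lit 16) (.e (nat_lit 65571) (nat_lit 3) (.e (nat_lit 98370) (nat_lit 28) (.e (nat_lit 442424) (nat_lit 22) (.e (nat_lit 196616) (nat_lit 0) (.e (nat_lit 59) (nat_lit 0) .nil))))))) (.g (nat_lit 4) .nil .nil))) 
(.lf (nat_lit 88762) (.g (nat_lit 2293) (.e (nat_lit 2030) (nat_lit 140) (.e (nat_lit 688177) (nat_lit 16) (.e (nat_lit 65583) (nat_lit 7) (.e (nat_lit 319530) (nat_lit 16) (.e (nat_lit 286748) (nat_lit 9) (.e (nat_lit 336295) (nat_lit 15) (.e (nat_lit 3632) (nat_lit 227) (.e (nat_lit 778253) (nat_lit 0) (.e (nat_lit 1021) (nat_lit 81) .nil))))))))) (.g (nat_lit 4) .nil .nil)))))) 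
(.nd (nat_lit 3) (.nd (nat_lit 4) (.nd (nat_lit 5) 
(.lf (nat_lit 88710) (.g (nat_lit 3033) (.e (nat_lit 2030) (nat_lit 140) (.e (nat_lit 688177) (nat_lit 16) (.e (nat_lit 65566) (nat_lit 2) (.e (nat_lit 90170) (nat_lit 13) (.e (nat_lit 172106) (nat_lit 10) (.e (nat_lit 434229) (nat_lit 22) (.e (nat_lit 532224) (nat_lit 17) .nil))))))) (.g (nat_lit 6) .nil .nil))) 
(.lf (nat_lit 88742) (.g (nat_lit 852) (.e (nat_lit 2030) (nat_lit 140) (.e (nat_lit 688177) (nat_lit 16) (.e (nat_lit 65583) (nat_lit 7) (.e (nat_lit 319530) (nat_lit 16) .nil)))) .nil))) (.nd (nat_lit 5) 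
(.lf (nat_lit 88726) (.g (nat_lit 3559) (.e (nat_lit 2030) (nat_lit 140) (.e (nat_lit 688177) (nat_lit 16) (.e (nat_lit 65571) (nat_lit 3) (.e (nat_lit 98359) (nat_lit 26) (.e (nat_lit 426211) (nat_lit 9) (.e (nat_lit 426125) (nat_lit 2) (.e (nat_lit 204544) (nat_lit 0) (.e (nat_lit 61) (nat_lit 0) .nil)))))))) (.g (nat_lit 4) .nil .nil))) 
(.lf (nat_lit 88758) (.g (nat_lit 2156) (.e (nat_lit 2030) (nat_lit 140) (.e (nat_lit 688177) (nat_lit 16) (.e (nat_lit 65583) (nat_lit 7) (.e (nat_lit 319530) (nat_lit 16) (.e (nat_lit 286748) (nat_lit 9) (.e (nat_lit 336295) (nat_lit 15) (.e (nat_lit 3632) (nat_lit 227) (.e (nat_lit 778246) (nat_lit 0) (.e (nat_lit 1048) (nat_lit 81) .nil))))))))) (.g (nat_lit 4) .nil .nil))))) 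
(.nd (nat_lit 4) (.nd (nat_lit 5) 
(.lf (nat_lit 88718) (.g (nat_lit 2304) (.e (nat_lit 2030) (nat_lit 140) (.e (nat_lit 688177) (nat_lit 16) (.e (nat_lit 65569) (nat_lit 3) (.e (nat_lit 98359) (nat_lit 26) (.e (nat_lit 426285) (nat_lit 10) (.e (nat_lit 434229) (nat_lit 22) (.e (nat_lit 532224) (nat_lit 17) .nil))))))) (.g (nat_lit 4) .nil .nil))) 
(.lf (nat_lit 88750) (.g (nat_lit 1630) (.e (nat_lit 2030) (nat_lit 140) (.e (nat_lit 688177) (nat_lit 16) (.e (nat_lit 65583) (nat_lit 7) (.e (nat_lit 319530) (nat_lit 16) (.e (nat_lit 286748) (nat_lit 9) .nil))))) .nil))) (.nd (nat_lit 5) 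
(.lf (nat_lit 88734) (.g (nat_lit 1980) (.e (nat_lit 2030) (nat_lit 140) (.e (nat_lit 688177) (nat_lit 16) (.e (nat_lit 65571) (nat_lit 3) (.e (nat_lit 98373) (nat_lit 29) (.e (nat_lit 458496) (nat_lit 3) .nil))))) .nil)) 
(.lf (nat_lit 88766) (.g (nat_lit 3113) (.e (nat_lit 2030) (nat_lit 140) (.e (nat_lit 688177) (nat_lit 16) (.e (nat_lit 65583) (nat_lit 7) (.e (nat_lit 319530) (nat_lit 16) (.e (nat_lit 286748) (nat_lit 9) (.e (nat_lit 336295) (nat_lit 15) (.e (nat_lit 3733) (nat_lit 228) (.e (nat_lit 786447) (nat_lit 15) .nil)))))))) (.g (nat_lit 6) .nil .nil)))))))) 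
(.nd (nat_lit 1) (.nd (nat_lit 2) (.nd (nat_lit 3) (.nd (nat_lit 4) (.nd (nat_lit 5) 
(.lf (nat_lit 88705) (.g (nat_lit 1487) (.e (nat_lit 2030) (nat_lit 140) (.e (nat_lit 688175) (nat_lit 16) (.e (nat_lit 65619) (nat_lit 10) (.e (nat_lit 344157) (nat_lit 36) (.e (nat_lit 639001) (nat_lit 10) (.e (nat_lit 196352) (nat_lit 0) .nil)))))) (.g (nat_lit 4) .nil .nil))) 
(.lf (nat_lit 88737) (.g (nat_lit 2381) (.e (nat_lit 2030) (nat_lit 140) (.e (nat_lit 688177) (nat_lit 16) (.e (nat_lit 65581) (nat_lit 7) (.e (nat_lit 319533) (nat_lit 16) (.e (nat_lit 286753) (nat_lit 10) (.e (nat_lit 344169) (nat_lit 40) (.e (nat_lit 671748) (nat_lit 0) (.e (nat_lit 1035) (nat_lit 81) .nil)))))))) (.g (nat_lit 4) .nil .nil)))) (.nd (nat_lit 5) 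
(.lf (nat_lit 88721) (.g (nat_lit 423) (.e (nat_lit 2030) (nat_lit 140) (.e (nat_lit 688177) (nat_lit 16) (.e (nat_lit 65571) (nat_lit 3) .nil))) .nil)) 
(.lf (nat_lit 88753) (.g (nat_lit 2374) (.e (nat_lit 2030) (nat_lit 140) (.e (nat_lit 688177) (nat_lit 16) (.e (nat_lit 65583) (nat_lit 7) (.e (nat_lit 319530) (nat_lit 16) (.e (nat_lit 286748) (nat_lit 9) (.e (nat_lit 336295) (nat_lit 15) (.e (nat_lit 3617) (nat_lit 227) (.e (nat_lit 778266) (nat_lit 0) (.e (nat_lit 1019) (nat_lit 81) .nil))))))))) (.g (nat_lit 4) .nil .nil))))) 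
(.nd (nat_lit 4) (.nd (nat_lit 5) 
(.lf (nat_lit 88713) (.g (nat_lit 6015) (.e (nat_lit 2030) (nat_lit 140) (.e (nat_lit 688177) (nat_lit 16) (.e (nat_lit 65569) (nat_lit 3) (.e (nat_lit 98359) (nat_lit 26) (.e (nat_lit 426211) (nat_lit 9) (.e (nat_lit 426125) (nat_lit 2) (.e (nat_lit 196615) (nat_lit 0) (.e (nat_lit 59) (nat_lit 0) .nil)))))))) (.g (nat_lit 6) .nil .nil))) 
(.lf (nat_lit 88745) (.g (nat_lit 2939) (.e (nat_lit 2030) (nat_lit 140) (.e (nat_lit 688177) (nat_lit 16) (.e (nat_lit 65583) (nat_lit 7) (.e (nat_lit 319530) (nat_lit 16) (.e (nat_lit 286727) (nat_lit 0) (.e (nat_lit 6223) (nat_lit 334) (.e (nat_lit 123166) (nat_lit 256) (.e (nat_lit 18) (nat_lit 0) .nil)))))))) (.g (nat_lit 5) .nil .nil)))) (.nd (nat_lit 5) 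
(.lf (nat_lit 88729) (.g (nat_lit 2386) (.e (nat_lit 2030) (nat_lit 140) (.e (nat_lit 688177) (nat_lit 16) (.e (nat_lit 65571) (nat_lit 3) (.e (nat_lit 98370) (nat_lit 28) (.e (nat_lit 442396) (nat_lit 20) (.e (nat_lit 3207) (nat_lit 195) (.e (nat_lit 524032) (nat_lit 17) .nil))))))) (.g (nat_lit 4) .nil .nil))) 
(.lf (nat_lit 88761) (.g (nat_lit 2413) (.e (nat_lit 2030) (nat_lit 140) (.e (nat_lit 688177) (nat_lit 16) (.e (nat_lit 65583) (nat_lit 7) (.e (nat_lit 319530) (nat_lit 16) (.e (nat_lit 286748) (nat_lit 9) (.e (nat_lit 336295) (nat_lit 15) (.e (nat_lit 3632) (nat_lit 227) (.e (nat_lit 778253) (nat_lit 0) (.e (nat_lit 1018) (nat_lit 81) .nil))))))))) (.g (nat_lit 4) .nil .nil)))))) 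
(.nd (nat_lit 3) (.nd (nat_lit 4) (.nd (nat_lit 5) 
(.lf (nat_lit 88709) (.g (nat_lit 392) (.e (nat_lit 2030) (nat_lit 140) (.e (nat_lit 688177) (nat_lit 16) (.e (nat_lit 65566) (nat_lit 2) .nil))) .nil)) 
(.lf (nat_lit 88741) (.g (nat_lit 414) (.e (nat_lit 2030) (nat_lit 140) (.e (nat_lit 688177) (nat_lit 16) (.e (nat_lit 65583) (nat_lit 7) .nil))) .nil))) (.nd (nat_lit 5) 
(.lf (nat_lit 88725) (.g (nat_lit 4051) (.e (nat_lit 2030) (nat_lit 140) (.e (nat_lit 688177) (nat_lit 16) (.e (nat_lit 65571) (nat_lit 3) (.e (nat_lit 98359) (nat_lit 26) (.e (nat_lit 426211) (nat_lit 9) (.e (nat_lit 426125) (nat_lit 2) (.e (nat_lit 204544) (nat_lit 0) (.e (nat_lit 59) (nat_lit 0) .nil)))))))) (.g (nat_lit 5) .nil .nil))) 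
(.lf (nat_lit 88757) (.g (nat_lit 2486) (.e (nat_lit 2030) (nat_lit 140) (.e (nat_lit 688177) (nat_lit 16) (.e (nat_lit 65583) (nat_lit 7) (.e (nat_lit 319530) (nat_lit 16) (.e (nat_lit 286748) (nat_lit 9) (.e (nat_lit 336295) (nat_lit 15) (.e (nat_lit 3632) (nat_lit 227) (.e (nat_lit 778246) (nat_lit 0) (.e (nat_lit 1035) (nat_lit 81) .nil))))))))) (.g (nat_lit 4) .nil .nil))))) 
(.nd (nat_lit 4) (.nd (nat_lit 5) 
(.lf (nat_lit 88717) (.g (nat_lit 2731) (.e (nat_lit 2030) (nat_lit 140) (.e (nat_lit 688177) (nat_lit 16) (.e (nat_lit 65569) (nat_lit 3) (.e (nat_lit 98359) (nat_lit 26) (.e (nat_lit 426285) (nat_lit 10) (.e (nat_lit 434229) (nat_lit 22) (.e (nat_lit 524330) (nat_lit 17) .nil))))))) (.g (nat_lit 4) .nil .nil))) 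
(.lf (nat_lit 88749) (.g (nat_lit 2197) (.e (nat_lit 2030) (nat_lit 140) (.e (nat_lit 688177) (nat_lit 16) (.e (nat_lit 65583) (nat_lit 7) (.e (nat_lit 319530) (nat_lit 16) (.e (nat_lit 286740) (nat_lit 7) (.e (nat_lit 319539) (nat_lit 19) (.e (nat_lit 311348) (nat_lit 15) .nil))))))) (.g (nat_lit 4) .nil .nil)))) (.nd (nat_lit 5) 
(.lf (nat_lit 88733) (.g (nat_lit 2356) (.e (nat_lit 2030) (nat_lit 140) (.e (nat_lit 688177) (nat_lit 16) (.e (nat_lit 65571) (nat_lit 3) (.e (nat_lit 98372) (nat_lit 29) (.e (nat_lit 458496) (nat_lit 3) .nil))))) .nil)) 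
(.lf (nat_lit 88765) (.g (nat_lit 2193) (.e (nat_lit 2030) (nat_lit 140) (.e (nat_lit 688177) (nat_lit 16) (.e (nat_lit 65583) (nat_lit 7) (.e (nat_lit 319530) (nat_lit 16) (.e (nat_lit 286748) (nat_lit 9) (.e (nat_lit 336295) (nat_lit 15) (.e (nat_lit 3666) (nat_lit 227) (.e (nat_lit 778266) (nat_lit 0) (.e (nat_lit 1019) (nat_lit 81) .nil))))))))) (.g (nat_lit 4) .nil .nil))))))) 
(.nd (nat_lit 2) (.nd (nat_lit 3) (.nd (nat_lit 4) (.nd (nat_lit 5) 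
(.lf (nat_lit 88707) (.g (nat_lit 2324) (.e (nat_lit 2030) (nat_lit 140) (.e (nat_lit 688175) (nat_lit 16) (.e (nat_lit 65619) (nat_lit 10) (.e (nat_lit 344160) (nat_lit 37) (.e (nat_lit 647199) (nat_lit 11) (.e (nat_lit 16438) (nat_lit 9) (.e (nat_lit 426402) (nat_lit 15) .nil))))))) (.g (nat_lit 5) .nil .nil))) 
(.lf (nat_lit 88739) (.g (nat_lit 2169) (.e (nat_lit 2030) (nat_lit 140) (.e (nat_lit 688177) (nat_lit 16) (.e (nat_lit 65581) (nat_lit 7) (.e (nat_lit 319534) (nat_lit 16) (.e (nat_lit 286756) (nat_lit 10) (.e (nat_lit 344169) (nat_lit 40) (.e (nat_lit 671748) (nat_lit 0) (.e (nat_lit 1035) (nat_lit 81) .nil)))))))) (.g (nat_lit 4) .nil .nil)))) (.nd (nat_lit 5) 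
(.lf (nat_lit 88723) (.g (nat_lit 6445) (.e (nat_lit 2030) (nat_lit 140) (.e (nat_lit 688177) (nat_lit 16) (.e (nat_lit 65571) (nat_lit 3) (.e (nat_lit 98359) (nat_lit 26) (.e (nat_lit 426211) (nat_lit 9) (.e (nat_lit 426125) (nat_lit 2) (.e (nat_lit 196616) (nat_lit 0) (.e (nat_lit 59) (nat_lit 0) .nil)))))))) (.g (nat_lit 6) .nil .nil))) 
(.lf (nat_lit 88755) (.g (nat_lit 2368) (.e (nat_lit 2030) (nat_lit 140) (.e (nat_lit 688177) (nat_lit 16) (.e (nat_lit 65583) (nat_lit 7) (.e (nat_lit 319530) (nat_lit 16) (.e (nat_lit 286748) (nat_lit 9) (.e (nat_lit 336295) (nat_lit 15) (.e (nat_lit 3632) (nat_lit 227) (.e (nat_lit 778241) (nat_lit 0) (.e (nat_lit 1027) (nat_lit 81) .nil))))))))) (.g (nat_lit 4) .nil .nil))))) 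
(.nd (nat_lit 4) (.nd (nat_lit 5) 
(.lf (nat_lit 88715) (.g (nat_lit 3585) (.e (nat_lit 2030) (nat_lit 140) (.e (nat_lit 688177) (nat_lit 16) (.e (nat_lit 65569) (nat_lit 3) (.e (nat_lit 98359) (nat_lit 26) (.e (nat_lit 426211) (nat_lit 9) (.e (nat_lit 426125) (nat_lit 2) (.e (nat_lit 204544) (nat_lit 0) (.e (nat_lit 59) (nat_lit 0) .nil)))))))) (.g (nat_lit 5) .nil .nil))) 
(.lf (nat_lit 88747) (.g (nat_lit 3414) (.e (nat_lit 2030) (nat_lit 140) (.e (nat_lit 688177) (nat_lit 16) (.e (nat_lit 65583) (nat_lit 7) (.e (nat_lit 319530) (nat_lit 16) (.e (nat_lit 286739) (nat_lit 7) (.e (nat_lit 319539) (nat_lit 19) (.e (nat_lit 311348) (nat_lit 15) .nil))))))) (.g (nat_lit 0) .nil .nil)))) (.nd (nat_lit 5) 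
(.lf (nat_lit 88731) (.g (nat_lit 2917) (.e (nat_lit 2030) (nat_lit 140) (.e (nat_lit 688177) (nat_lit 16) (.e (nat_lit 65571) (nat_lit 3) (.e (nat_lit 98370) (nat_lit 28) (.e (nat_lit 442424) (nat_lit 22) (.e (nat_lit 204544) (nat_lit 0) (.e (nat_lit 18) (nat_lit 0) .nil))))))) (.g (nat_lit 4) .nil .nil))) 
(.lf (nat_lit 88763) (.g (nat_lit 2387) (.e (nat_lit 2030) (nat_lit 140) (.e (nat_lit 688177) (nat_lit 16) (.e (nat_lit 65583) (nat_lit 7) (.e (nat_lit 319530) (nat_lit 16) (.e (nat_lit 286748) (nat_lit 9) (.e (nat_lit 336295) (nat_lit 15) (.e (nat_lit 3632) (nat_lit 227) (.e (nat_lit 778297) (nat_lit 0) (.e (nat_lit 1023) (nat_lit 81) .nil))))))))) (.g (nat_lit 4) .nil .nil)))))) 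
(.nd (nat_lit 3) (.nd (nat_lit 4) (.nd (nat_lit 5) 
(.lf (nat_lit 88711) (.g (nat_lit 3434) (.e (nat_lit 2030) (nat_lit 140) (.e (nat_lit 688177) (nat_lit 16) (.e (nat_lit 65568) (nat_lit 2) (.e (nat_lit 90170) (nat_lit 13) (.e (nat_lit 172106) (nat_lit 10) (.e (nat_lit 434229) (nat_lit 22) (.e (nat_lit 524330) (nat_lit 17) .nil))))))) (.g (nat_lit 5) .nil .nil))) 
(.lf (nat_lit 88743) (.g (nat_lit 2077) (.e (nat_lit 2030) (nat_lit 140) (.e (nat_lit 688177) (nat_lit 16) (.e (nat_lit 65583) (nat_lit 7) (.e (nat_lit 319530) (nat_lit 16) (.e (nat_lit 286727) (nat_lit 0) (.e (nat_lit 6150) (nat_lit 332) (.e (nat_lit 1386) (nat_lit 105) (.e (nat_lit 311348) (nat_lit 15) .nil)))))))) (.g (nat_lit 4) .nil .nil)))) (.nd (nat_lit 5) 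
(.lf (nat_lit 88727) (.g (nat_lit 3110) (.e (nat_lit 2030) (nat_lit 140) (.e (nat_lit 688177) (nat_lit 16) (.e (nat_lit 65571) (nat_lit 3) (.e (nat_lit 98359) (nat_lit 26) (.e (nat_lit 426285) (nat_lit 10) (.e (nat_lit 434229) (nat_lit 22) (.e (nat_lit 524330) (nat_lit 17) .nil))))))) (.g (nat_lit 4) .nil .nil))) 
(.lf (nat_lit 88759) (.g (nat_lit 2479) (.e (nat_lit 2030) (nat_lit 140) (.e (nat_lit 688177) (nat_lit 16) (.e (nat_lit 65583) (nat_lit 7) (.e (nat_lit 319530) (nat_lit 16) (.e (nat_lit 286748) (nat_lit 9) (.e (nat_lit 336295) (nat_lit 15) (.e (nat_lit 3632) (nat_lit 227) (.e (nat_lit 778248) (nat_lit 0) (.e (nat_lit 1046) (nat_lit 81) .nil))))))))) (.g (nat_lit 4) .nil .nil))))) 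
(.nd (nat_lit 4) (.nd (nat_lit 5) 
(.lf (nat_lit 88719) (.g (nat_lit 2612) (.e (nat_lit 2030) (nat_lit 140) (.e (nat_lit 688177) (nat_lit 16) (.e (nat_lit 65569) (nat_lit 3) (.e (nat_lit 98365) (nat_lit 26) (.e (nat_lit 426306) (nat_lit 12) (.e (nat_lit 475181) (nat_lit 27) (.e (nat_lit 540675) (nat_lit 0) .nil))))))) (.g (nat_lit 4) .nil .nil))) 
(.lf (nat_lit 88751) (.g (nat_lit 2452) (.e (nat_lit 2030) (nat_lit 140) (.e (nat_lit 688177) (nat_lit 16) (.e (nat_lit 65583) (nat_lit 7) (.e (nat_lit 319530) (nat_lit 16) (.e (nat_lit 286748) (nat_lit 9) (.e (nat_lit 336031) (nat_lit 4) (.e (nat_lit 123195) (nat_lit 266) (.e (nat_lit 57354) (nat_lit 0) .nil)))))))) (.g (nat_lit 4) .nil .nil)))) (.nd (nat_lit 5) 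
(.lf (nat_lit 88735) (.g (nat_lit 2222) (.e (nat_lit 2030) (nat_lit 140) (.e (nat_lit 688177) (nat_lit 16) (.e (nat_lit 65581) (nat_lit 7) (.e (nat_lit 319533) (nat_lit 16) (.e (nat_lit 286753) (nat_lit 10) (.e (nat_lit 344169) (nat_lit 40) (.e (nat_lit 671748) (nat_lit 0) (.e (nat_lit 1022) (nat_lit 81) .nil)))))))) (.g (nat_lit 4) .nil .nil))) 
(.lf (nat_lit 88767) (.g (nat_lit 3260) (.e (nat_lit 2030) (nat_lit 140) (.e (nat_lit 688177) (nat_lit 16) (.e (nat_lit 65583) (nat_lit 7) (.e (nat_lit 319530) (nat_lit 16) (.e (nat_lit 286748) (nat_lit 9) (.e (nat_lit 336295) (nat_lit 15) (.e (nat_lit 3746) (nat_lit 228) (.e (nat_lit 786447) (nat_lit 15) .nil)))))))) (.g (nat_lit 6) .nil .nil)))))))))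

noncomputable def tv1211 : DT := (.nd (nat_lit 0) (.nd (nat_lit 1) (.nd (nat_lit 2) (.nd (nat_lit 3) (.nd (nat_lit 4) (.nd (nat_lit 5) 
(.lf (nat_lit 88768) (.g (nat_lit 2133) (.e (nat_lit 2030) (nat_lit 140) (.e (nat_lit 688177) (nat_lit 16) (.e (nat_lit 65583) (nat_lit 7) (.e (nat_lit 319530) (nat_lit 16) (.e (nat_lit 286748) (nat_lit 9) (.e (nat_lit 336295) (nat_lit 15) (.e (nat_lit 3746) (nat_lit 228) (.e (nat_lit 794368) (nat_lit 15) .nil)))))))) (.g (nat_lit 4) .nil .nil))) 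
(.lf (nat_lit 88800) (.g (nat_lit 2224) (.e (nat_lit 2030) (nat_lit 140) (.e (nat_lit 688177) (nat_lit 16) (.e (nat_lit 65583) (nat_lit 7) (.e (nat_lit 319530) (nat_lit 16) (.e (nat_lit 286758) (nat_lit 12) (.e (nat_lit 385105) (nat_lit 50) (.e (nat_lit 786444) (nat_lit 15) .nil))))))) (.g (nat_lit 4) .nil .nil)))) (.nd (nat_lit 5) 
(.lf (nat_lit 88784) (.g (nat_lit 3388) (.e (nat_lit 2030) (nat_lit 140) (.e (nat_lit 688177) (nat_lit 16) (.e (nat_lit 65583) (nat_lit 7) (.e (nat_lit 319530) (nat_lit 16) (.e (nat_lit 286753) (nat_lit 10) (.e (nat_lit 344169) (nat_lit 40) (.e (nat_lit 671748) (nat_lit 0) (.e (nat_lit 1035) (nat_lit 81) .nil)))))))) (.g (nat_lit 4) .nil .nil))) 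
(.lf (nat_lit 88816) (.g (nat_lit 3173) (.e (nat_lit 2030) (nat_lit 140) (.e (nat_lit 688177) (nat_lit 16) (.e (nat_lit 65583) (nat_lit 7) (.e (nat_lit 319530) (nat_lit 16) (.e (nat_lit 286759) (nat_lit 12) (.e (nat_lit 385094) (nat_lit 49) (.e (nat_lit 778241) (nat_lit 0) (.e (nat_lit 1030) (nat_lit 81) .nil)))))))) (.g (nat_lit 5) .nil .nil))))) (.nd (nat_lit 4) (.nd (nat_lit 5) 
(.lf (nat_lit 88776) (.g (nat_lit 2238) (.e (nat_lit 2030) (nat_lit 140) (.e (nat_lit 688177) (nat_lit 16) (.e (nat_lit 65583) (nat_lit 7) (.e (nat_lit 319530) (nat_lit 16) (.e (nat_lit 286748) (nat_lit 9) (.e (nat_lit 336295) (nat_lit 15) (.e (nat_lit 7936) (nat_lit 228) (.e (nat_lit 786447) (nat_lit 15) .nil)))))))) (.g (nat_lit 4) .nil .nil))) 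
(.lf (nat_lit 88808) (.g (nat_lit 2323) (.e (nat_lit 2030) (nat_lit 140) (.e (nat_lit 688177) (nat_lit 16) (.e (nat_lit 65583) (nat_lit 7) (.e (nat_lit 319530) (nat_lit 16) (.e (nat_lit 286759) (nat_lit 12) (.e (nat_lit 385092) (nat_lit 49) (.e (nat_lit 778267) (nat_lit 0) (.e (nat_lit 1019) (nat_lit 81) .nil)))))))) (.g (nat_lit 4) .nil .nil)))) (.nd (nat_lit 5) 
(.lf (nat_lit 88792) (.g (nat_lit 4001) (.e (nat_lit 2030) (nat_lit 140) (.e (nat_lit 688177) (nat_lit 16) (.e (nat_lit 65583) (nat_lit 7) (.e (nat_lit 319530) (nat_lit 16) (.e (nat_lit 286755) (nat_lit 10) (.e (nat_lit 344169) (nat_lit 40) (.e (nat_lit 671748) (nat_lit 0) (.e (nat_lit 1047) (nat_lit 81) .nil)))))))) (.g (nat_lit 7) .nil .nil))) 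
(.lf (nat_lit 88824) (.g (nat_lit 3022) (.e (nat_lit 2030) (nat_lit 140) (.e (nat_lit 688177) (nat_lit 16) (.e (nat_lit 65583) (nat_lit 7) (.e (nat_lit 319530) (nat_lit 16) (.e (nat_lit 286759) (nat_lit 12) (.e (nat_lit 385098) (nat_lit 49) (.e (nat_lit 778266) (nat_lit 0) (.e (nat_lit 1019) (nat_lit 81) .nil)))))))) (.g (nat_lit 5) .nil .nil)))))) 
(.nd (nat_lit 3) (.nd (nat_lit 4) (.nd (nat_lit 5) 
(.lf (nat_lit 88772) (.g (nat_lit 3495) (.e (nat_lit 2030) (nat_lit 140) (.e (nat_lit 688177) (nat_lit 16) (.e (nat_lit 65583) (nat_lit 7) (.e (nat_lit 319530) (nat_lit 16) (.e (nat_lit 286748) (nat_lit 9) (.e (nat_lit 336295) (nat_lit 15) (.e (nat_lit 3748) (nat_lit 228) (.e (nat_lit 786444) (nat_lit 15) .nil)))))))) (.g (nat_lit 6) .nil .nil))) 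
(.lf (nat_lit 88804) (.g (nat_lit 2690) (.e (nat_lit 2030) (nat_lit 140) (.e (nat_lit 688177) (nat_lit 16) (.e (nat_lit 65583) (nat_lit 7) (.e (nat_lit 319530) (nat_lit 16) (.e (nat_lit 286758) (nat_lit 12) (.e (nat_lit 385106) (nat_lit 50) (.e (nat_lit 786446) (nat_lit 15) .nil))))))) (.g (nat_lit 4) .nil .nil)))) (.nd (nat_lit 5) 
(.lf (nat_lit 88788) (.g (nat_lit 2605) (.e (nat_lit 2030) (nat_lit 140) (.e (nat_lit 688177) (nat_lit 16) (.e (nat_lit 65583) (nat_lit 7) (.e (nat_lit 319530) (nat_lit 16) (.e (nat_lit 286755) (nat_lit 10) (.e (nat_lit 344169) (nat_lit 40) (.e (nat_lit 671748) (nat_lit 0) (.e (nat_lit 1022) (nat_lit 81) .nil)))))))) (.g (nat_lit 4) .nil .nil))) 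
(.lf (nat_lit 88820) (.g (nat_lit 2517) (.e (nat_lit 2030) (nat_lit 140) (.e (nat_lit 688177) (nat_lit 16) (.e (nat_lit 65583) (nat_lit 7) (.e (nat_lit 319530) (nat_lit 16) (.e (nat_lit 286759) (nat_lit 12) (.e (nat_lit 385094) (nat_lit 49) (.e (nat_lit 778246) (nat_lit 0) (.e (nat_lit 1048) (nat_lit 81) .nil)))))))) (.g (nat_lit 4) .nil .nil))))) (.nd (nat_lit 4) (.nd (nat_lit 5) 
(.lf (nat_lit 88780) (.g (nat_lit 3229) (.e (nat_lit 2030) (nat_lit 140) (.e (nat_lit 688177) (nat_lit 16) (.e (nat_lit 65583) (nat_lit 7) (.e (nat_lit 319530) (nat_lit 16) (.e (nat_lit 286753) (nat_lit 10) (.e (nat_lit 344169) (nat_lit 40) (.e (nat_lit 671748) (nat_lit 0) (.e (nat_lit 1022) (nat_lit 81) .nil)))))))) (.g (nat_lit 4) .nil .nil))) 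
(.lf (nat_lit 88812) (.g (nat_lit 2414) (.e (nat_lit 2030) (nat_lit 140) (.e (nat_lit 688177) (nat_lit 16) (.e (nat_lit 65583) (nat_lit 7) (.e (nat_lit 319530) (nat_lit 16) (.e (nat_lit 286759) (nat_lit 12) (.e (nat_lit 385092) (nat_lit 49) (.e (nat_lit 778305) (nat_lit 0) (.e (nat_lit 1019) (nat_lit 81) .nil)))))))) (.g (nat_lit 4) .nil .nil)))) (.nd (nat_lit 5) 
(.lf (nat_lit 88796) (.g (nat_lit 2321) (.e (nat_lit 2030) (nat_lit 140) (.e (nat_lit 688177) (nat_lit 16) (.e (nat_lit 65583) (nat_lit 7) (.e (nat_lit 319530) (nat_lit 16) (.e (nat_lit 286756) (nat_lit 10) (.e (nat_lit 344169) (nat_lit 40) (.e (nat_lit 671748) (nat_lit 0) (.e (nat_lit 1035) (nat_lit 81) .nil)))))))) (.g (nat_lit 4) .nil .nil))) 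
(.lf (nat_lit 88828) (.g (nat_lit 3474) (.e (nat_lit 2030) (nat_lit 140) (.e (nat_lit 688177) (nat_lit 16) (.e (nat_lit 65583) (nat_lit 7) (.e (nat_lit 319530) (nat_lit 16) (.e (nat_lit 286759) (nat_lit 12) (.e (nat_lit 385104) (nat_lit 50) (.e (nat_lit 786444) (nat_lit 15) .nil))))))) (.g (nat_lit 6) .nil .nil))))))) (.nd (nat_lit 2) (.nd (nat_lit 3) (.nd (nat_lit 4) (.nd (nat_lit 5) 
(.lf (nat_lit 88770) (.g (nat_lit 3552) (.e (nat_lit 2030) (nat_lit 140) (.e (nat_lit 688177) (nat_lit 16) (.e (nat_lit 65583) (nat_lit 7) (.e (nat_lit 319530) (nat_lit 16) (.e (nat_lit 286748) (nat_lit 9) (.e (nat_lit 336295) (nat_lit 15) (.e (nat_lit 3747) (nat_lit 228) (.e (nat_lit 786446) (nat_lit 15) .nil)))))))) (.g (nat_lit 6) .nil .nil))) 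
(.lf (nat_lit 88802) (.g (nat_lit 2312) (.e (nat_lit 2030) (nat_lit 140) (.e (nat_lit 688177) (nat_lit 16) (.e (nat_lit 65583) (nat_lit 7) (.e (nat_lit 319530) (nat_lit 16) (.e (nat_lit 286758) (nat_lit 12) (.e (nat_lit 385105) (nat_lit 50) (.e (nat_lit 794368) (nat_lit 15) .nil))))))) (.g (nat_lit 4) .nil .nil)))) (.nd (nat_lit 5) 
(.lf (nat_lit 88786) (.g (nat_lit 3058) (.e (nat_lit 2030) (nat_lit 140) (.e (nat_lit 688177) (nat_lit 16) (.e (nat_lit 65583) (nat_lit 7) (.e (nat_lit 319530) (nat_lit 16) (.e (nat_lit 286753) (nat_lit 10) (.e (nat_lit 344169) (nat_lit 40) (.e (nat_lit 671748) (nat_lit 0) (.e (nat_lit 1048) (nat_lit 81) .nil)))))))) (.g (nat_lit 4) .nil .nil))) 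
(.lf (nat_lit 88818) (.g (nat_lit 3262) (.e (nat_lit 2030) (nat_lit 140) (.e (nat_lit 688177) (nat_lit 16) (.e (nat_lit 65583) (nat_lit 7) (.e (nat_lit 319530) (nat_lit 16) (.e (nat_lit 286759) (nat_lit 12) (.e (nat_lit 385094) (nat_lit 49) (.e (nat_lit 778241) (nat_lit 0) (.e (nat_lit 1035) (nat_lit 81) .nil)))))))) (.g (nat_lit 5) .nil .nil))))) (.nd (nat_lit 4) (.nd (nat_lit 5) 
(.lf (nat_lit 88778) (.g (nat_lit 2277) (.e (nat_lit 2030) (nat_lit 140) (.e (nat_lit 688177) (nat_lit 16) (.e (nat_lit 65583) (nat_lit 7) (.e (nat_lit 319530) (nat_lit 16) (.e (nat_lit 286752) (nat_lit 10) (.e (nat_lit 344169) (nat_lit 40) (.e (nat_lit 671748) (nat_lit 0) (.e (nat_lit 1035) (nat_lit 81) .nil)))))))) (.g (nat_lit 4) .nil .nil))) 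
(.lf (nat_lit 88810) (.g (nat_lit 2837) (.e (nat_lit 2030) (nat_lit 140) (.e (nat_lit 688177) (nat_lit 16) (.e (nat_lit 65583) (nat_lit 7) (.e (nat_lit 319530) (nat_lit 16) (.e (nat_lit 286759) (nat_lit 12) (.e (nat_lit 385092) (nat_lit 49) (.e (nat_lit 778295) (nat_lit 0) (.e (nat_lit 1023) (nat_lit 81) .nil)))))))) (.g (nat_lit 5) .nil .nil)))) (.nd (nat_lit 5) 
(.lf (nat_lit 88794) (.g (nat_lit 2176) (.e (nat_lit 2030) (nat_lit 140) (.e (nat_lit 688177) (nat_lit 16) (.e (nat_lit 65583) (nat_lit 7) (.e (nat_lit 319530) (nat_lit 16) (.e (nat_lit 286756) (nat_lit 10) (.e (nat_lit 344169) (nat_lit 40) (.e (nat_lit 671748) (nat_lit 0) (.e (nat_lit 1022) (nat_lit 81) .nil)))))))) (.g (nat_lit 4) .nil .nil))) 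
(.lf (nat_lit 88826) (.g (nat_lit 2181) (.e (nat_lit 2030) (nat_lit 140) (.e (nat_lit 688177) (nat_lit 16) (.e (nat_lit 65583) (nat_lit 7) (.e (nat_lit 319530) (nat_lit 16) (.e (nat_lit 286759) (nat_lit 12) (.e (nat_lit 385102) (nat_lit 50) (.e (nat_lit 786446) (nat_lit 15) .nil))))))) (.g (nat_lit 4) .nil .nil)))))) (.nd (nat_lit 3) (.nd (nat_lit 4) (.nd (nat_lit 5) 
(.lf (nat_lit 88774) (.g (nat_lit 3558) (.e (nat_lit 2030) (nat_lit 140) (.e (nat_lit 688177) (nat_lit 16) (.e (nat_lit 65583) (nat_lit 7) (.e (nat_lit 319530) (nat_lit 16) (.e (nat_lit 286748) (nat_lit 9) (.e (nat_lit 336295) (nat_lit 15) (.e (nat_lit 3748) (nat_lit 228) (.e (nat_lit 786447) (nat_lit 15) .nil)))))))) (.g (nat_lit 6) .nil .nil))) 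
(.lf (nat_lit 88806) (.g (nat_lit 2275) (.e (nat_lit 2030) (nat_lit 140) (.e (nat_lit 688177) (nat_lit 16) (.e (nat_lit 65583) (nat_lit 7) (.e (nat_lit 319530) (nat_lit 16) (.e (nat_lit 286759) (nat_lit 12) (.e (nat_lit 385092) (nat_lit 49) (.e (nat_lit 778248) (nat_lit 0) (.e (nat_lit 1046) (nat_lit 81) .nil)))))))) (.g (nat_lit 4) .nil .nil)))) (.nd (nat_lit 5) 
(.lf (nat_lit 88790) (.g (nat_lit 2129) (.e (nat_lit 2030) (nat_lit 140) (.e (nat_lit 688177) (nat_lit 16) (.e (nat_lit 65583) (nat_lit 7) (.e (nat_lit 319530) (nat_lit 16) (.e (nat_lit 286755) (nat_lit 10) (.e (nat_lit 344169) (nat_lit 40) (.e (nat_lit 671748) (nat_lit 0) (.e (nat_lit 1032) (nat_lit 81) .nil)))))))) (.g (nat_lit 4) .nil .nil))) 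
(.lf (nat_lit 88822) (.g (nat_lit 3418) (.e (nat_lit 2030) (nat_lit 140) (.e (nat_lit 688177) (nat_lit 16) (.e (nat_lit 65583) (nat_lit 7) (.e (nat_lit 319530) (nat_lit 16) (.e (nat_lit 286759) (nat_lit 12) (.e (nat_lit 385094) (nat_lit 49) (.e (nat_lit 778253) (nat_lit 0) (.e (nat_lit 1020) (nat_lit 81) .nil)))))))) (.g (nat_lit 5) .nil .nil))))) (.nd (nat_lit 4) (.nd (nat_lit 5) 
(.lf (nat_lit 88782) (.g (nat_lit 2328) (.e (nat_lit 2030) (nat_lit 140) (.e (nat_lit 688177) (nat_lit 16) (.e (nat_lit 65583) (nat_lit 7) (.e (nat_lit 319530) (nat_lit 16) (.e (nat_lit 286753) (nat_lit 10) (.e (nat_lit 344169) (nat_lit 40) (.e (nat_lit 671748) (nat_lit 0) (.e (nat_lit 1027) (nat_lit 81) .nil)))))))) (.g (nat_lit 4) .nil .nil))) 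
(.lf (nat_lit 88814) (.g (nat_lit 2584) (.e (nat_lit 2030) (nat_lit 140) (.e (nat_lit 688177) (nat_lit 16) (.e (nat_lit 65583) (nat_lit 7) (.e (nat_lit 319530) (nat_lit 16) (.e (nat_lit 286759) (nat_lit 12) (.e (nat_lit 385094) (nat_lit 49) (.e (nat_lit 778241) (nat_lit 0) (.e (nat_lit 1018) (nat_lit 81) .nil)))))))) (.g (nat_lit 4) .nil .nil)))) (.nd (nat_lit 5) 
(.lf (nat_lit 88798) (.g (nat_lit 1891) (.e (nat_lit 2030) (nat_lit 140) (.e (nat_lit 688177) (nat_lit 16) (.e (nat_lit 65583) (nat_lit 7) (.e (nat_lit 319530) (nat_lit 16) (.e (nat_lit 286758) (nat_lit 12) .nil))))) .nil)) 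
(.lf (nat_lit 88830) (.g (nat_lit 4280) (.e (nat_lit 2030) (nat_lit 140) (.e (nat_lit 688177) (nat_lit 16) (.e (nat_lit 65583) (nat_lit 7) (.e (nat_lit 319530) (nat_lit 16) (.e (nat_lit 286759) (nat_lit 12) (.e (nat_lit 385105) (nat_lit 50) (.e (nat_lit 786444) (nat_lit 15) .nil))))))) (.g (nat_lit 7) .nil .nil)))))))) 
(.nd (nat_lit 1) (.nd (nat_lit 2) (.nd (nat_lit 3) (.nd (nat_lit 4) (.nd (nat_lit 5) 
(.lf (nat_lit 88769) (.g (nat_lit 3374) (.e (nat_lit 2030) (nat_lit 140) (.e (nat_lit 688177) (nat_lit 16) (.e (nat_lit 65583) (nat_lit 7) (.e (nat_lit 319530) (nat_lit 16) (.e (nat_lit 286748) (nat_lit 9) (.e (nat_lit 336295) (nat_lit 15) (.e (nat_lit 3747) (nat_lit 228) (.e (nat_lit 786444) (nat_lit 15) .nil)))))))) (.g (nat_lit 6) .nil .nil))) 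
(.lf (nat_lit 88801) (.g (nat_lit 2424) (.e (nat_lit 2030) (nat_lit 140) (.e (nat_lit 688177) (nat_lit 16) (.e (nat_lit 65583) (nat_lit 7) (.e (nat_lit 319530) (nat_lit 16) (.e (nat_lit 286758) (nat_lit 12) (.e (nat_lit 385105) (nat_lit 50) (.e (nat_lit 786447) (nat_lit 15) .nil))))))) (.g (nat_lit 4) .nil .nil)))) (.nd (nat_lit 5) 
(.lf (nat_lit 88785) (.g (nat_lit 4617) (.e (nat_lit 2030) (nat_lit 140) (.e (nat_lit 688177) (nat_lit 16) (.e (nat_lit 65583) (nat_lit 7) (.e (nat_lit 319530) (nat_lit 16) (.e (nat_lit 286753) (nat_lit 10) (.e (nat_lit 344169) (nat_lit 40) (.e (nat_lit 671748) (nat_lit 0) (.e (nat_lit 1047) (nat_lit 81) .nil)))))))) (.g (nat_lit 6) .nil .nil))) 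
(.lf (nat_lit 88817) (.g (nat_lit 2721) (.e (nat_lit 2030) (nat_lit 140) (.e (nat_lit 688177) (nat_lit 16) (.e (nat_lit 65583) (nat_lit 7) (.e (nat_lit 319530) (nat_lit 16) (.e (nat_lit 286759) (nat_lit 12) (.e (nat_lit 385094) (nat_lit 49) (.e (nat_lit 778241) (nat_lit 0) (.e (nat_lit 1034) (nat_lit 81) .nil)))))))) (.g (nat_lit 4) .nil .nil))))) (.nd (nat_lit 4) (.nd (nat_lit 5) 
(.lf (nat_lit 88777) (.g (nat_lit 2210) (.e (nat_lit 2030) (nat_lit 140) (.e (nat_lit 688177) (nat_lit 16) (.e (nat_lit 65583) (nat_lit 7) (.e (nat_lit 319530) (nat_lit 16) (.e (nat_lit 286752) (nat_lit 10) .nil))))) .nil)) 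
(.lf (nat_lit 88809) (.g (nat_lit 2236) (.e (nat_lit 2030) (nat_lit 140) (.e (nat_lit 688177) (nat_lit 16) (.e (nat_lit 65583) (nat_lit 7) (.e (nat_lit 319530) (nat_lit 16) (.e (nat_lit 286759) (nat_lit 12) (.e (nat_lit 385092) (nat_lit 49) (.e (nat_lit 778290) (nat_lit 0) (.e (nat_lit 1017) (nat_lit 81) .nil)))))))) (.g (nat_lit 4) .nil .nil)))) (.nd (nat_lit 5) 
(.lf (nat_lit 88793) (.g (nat_lit 2434) (.e (nat_lit 2030) (nat_lit 140) (.e (nat_lit 688177) (nat_lit 16) (.e (nat_lit 65583) (nat_lit 7) (.e (nat_lit 319530) (nat_lit 16) (.e (nat_lit 286755) (nat_lit 10) (.e (nat_lit 344169) (nat_lit 40) (.e (nat_lit 671748) (nat_lit 0) (.e (nat_lit 1048) (nat_lit 81) .nil)))))))) (.g (nat_lit 4) .nil .nil))) 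
(.lf (nat_lit 88825) (.g (nat_lit 2737) (.e (nat_lit 2030) (nat_lit 140) (.e (nat_lit 688177) (nat_lit 16) (.e (nat_lit 65583) (nat_lit 7) (.e (nat_lit 319530) (nat_lit 16) (.e (nat_lit 286759) (nat_lit 12) (.e (nat_lit 385102) (nat_lit 50) (.e (nat_lit 786444) (nat_lit 15) .nil))))))) (.g (nat_lit 5) .nil .nil)))))) (.nd (nat_lit 3) (.nd (nat_lit 4) (.nd (nat_lit 5) 
(.lf (nat_lit 88773) (.g (nat_lit 3490) (.e (nat_lit 2030) (nat_lit 140) (.e (nat_lit 688177) (nat_lit 16) (.e (nat_lit 65583) (nat_lit 7) (.e (nat_lit 319530) (nat_lit 16) (.e (nat_lit 286748) (nat_lit 9) (.e (nat_lit 336295) (nat_lit 15) (.e (nat_lit 3748) (nat_lit 228) (.e (nat_lit 786446) (nat_lit 15) .nil)))))))) (.g (nat_lit 6) .nil .nil))) 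
(.lf (nat_lit 88805) (.g (nat_lit 2912) (.e (nat_lit 2030) (nat_lit 140) (.e (nat_lit 688177) (nat_lit 16) (.e (nat_lit 65583) (nat_lit 7) (.e (nat_lit 319530) (nat_lit 16) (.e (nat_lit 286758) (nat_lit 12) (.e (nat_lit 385106) (nat_lit 50) (.e (nat_lit 786447) (nat_lit 15) .nil))))))) (.g (nat_lit 5) .nil .nil)))) (.nd (nat_lit 5) 
(.lf (nat_lit 88789) (.g (nat_lit 2584) (.e (nat_lit 2030) (nat_lit 140) (.e (nat_lit 688177) (nat_lit 16) (.e (nat_lit 65583) (nat_lit 7) (.e (nat_lit 319530) (nat_lit 16) (.e (nat_lit 286755) (nat_lit 10) (.e (nat_lit 344169) (nat_lit 40) (.e (nat_lit 671748) (nat_lit 0) (.e (nat_lit 1025) (nat_lit 81) .nil)))))))) (.g (nat_lit 4) .nil .nil))) 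
(.lf (nat_lit 88821) (.g (nat_lit 3010) (.e (nat_lit 2030) (nat_lit 140) (.e (nat_lit 688177) (nat_lit 16) (.e (nat_lit 65583) (nat_lit 7) (.e (nat_lit 319530) (nat_lit 16) (.e (nat_lit 286759) (nat_lit 12) (.e (nat_lit 385094) (nat_lit 49) (.e (nat_lit 778253) (nat_lit 0) (.e (nat_lit 1018) (nat_lit 81) .nil)))))))) (.g (nat_lit 5) .nil .nil))))) (.nd (nat_lit 4) (.nd (nat_lit 5) 
(.lf (nat_lit 88781) (.g (nat_lit 3208) (.e (nat_lit 2030) (nat_lit 140) (.e (nat_lit 688177) (nat_lit 16) (.e (nat_lit 65583) (nat_lit 7) (.e (nat_lit 319530) (nat_lit 16) (.e (nat_lit 286753) (nat_lit 10) (.e (nat_lit 344169) (nat_lit 40) (.e (nat_lit 671748) (nat_lit 0) (.e (nat_lit 1025) (nat_lit 81) .nil)))))))) (.g (nat_lit 4) .nil .nil))) 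
(.lf (nat_lit 88813) (.g (nat_lit 3328) (.e (nat_lit 2030) (nat_lit 140) (.e (nat_lit 688177) (nat_lit 16) (.e (nat_lit 65583) (nat_lit 7) (.e (nat_lit 319530) (nat_lit 16) (.e (nat_lit 286759) (nat_lit 12) (.e (nat_lit 385094) (nat_lit 49) (.e (nat_lit 778241) (nat_lit 0) (.e (nat_lit 1017) (nat_lit 81) .nil)))))))) (.g (nat_lit 5) .nil .nil)))) (.nd (nat_lit 5) 
(.lf (nat_lit 88797) (.g (nat_lit 3572) (.e (nat_lit 2030) (nat_lit 140) (.e (nat_lit 688177) (nat_lit 16) (.e (nat_lit 65583) (nat_lit 7) (.e (nat_lit 319530) (nat_lit 16) (.e (nat_lit 286756) (nat_lit 10) (.e (nat_lit 344169) (nat_lit 40) (.e (nat_lit 671748) (nat_lit 0) (.e (nat_lit 1047) (nat_lit 81) .nil)))))))) (.g (nat_lit 6) .nil .nil))) 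
(.lf (nat_lit 88829) (.g (nat_lit 2954) (.e (nat_lit 2030) (nat_lit 140) (.e (nat_lit 688177) (nat_lit 16) (.e (nat_lit 65583) (nat_lit 7) (.e (nat_lit 319530) (nat_lit 16) (.e (nat_lit 286759) (nat_lit 12) (.e (nat_lit 385104) (nat_lit 50) (.e (nat_lit 794368) (nat_lit 15) .nil))))))) (.g (nat_lit 5) .nil .nil))))))) (.nd (nat_lit 2) (.nd (nat_lit 3) (.nd (nat_lit 4) (.nd (nat_lit 5) 
(.lf (nat_lit 88771) (.g (nat_lit 3366) (.e (nat_lit 2030) (nat_lit 140) (.e (nat_lit 688177) (nat_lit 16) (.e (nat_lit 65583) (nat_lit 7) (.e (nat_lit 319530) (nat_lit 16) (.e (nat_lit 286748) (nat_lit 9) (.e (nat_lit 336295) (nat_lit 15) (.e (nat_lit 3747) (nat_lit 228) (.e (nat_lit 786447) (nat_lit 15) .nil)))))))) (.g (nat_lit 6) .nil .nil))) 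
(.lf (nat_lit 88803) (.g (nat_lit 2729) (.e (nat_lit 2030) (nat_lit 140) (.e (nat_lit 688177) (nat_lit 16) (.e (nat_lit 65583) (nat_lit 7) (.e (nat_lit 319530) (nat_lit 16) (.e (nat_lit 286758) (nat_lit 12) (.e (nat_lit 385106) (nat_lit 50) (.e (nat_lit 786444) (nat_lit 15) .nil))))))) (.g (nat_lit 5) .nil .nil)))) (.nd (nat_lit 5) 
(.lf (nat_lit 88787) (.g (nat_lit 1894) (.e (nat_lit 2030) (nat_lit 140) (.e (nat_lit 688177) (nat_lit 16) (.e (nat_lit 65583) (nat_lit 7) (.e (nat_lit 319530) (nat_lit 16) (.e (nat_lit 286755) (nat_lit 10) .nil))))) .nil)) 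
(.lf (nat_lit 88819) (.g (nat_lit 3158) (.e (nat_lit 2030) (nat_lit 140) (.e (nat_lit 688177) (nat_lit 16) (.e (nat_lit 65583) (nat_lit 7) (.e (nat_lit 319530) (nat_lit 16) (.e (nat_lit 286759) (nat_lit 12) (.e (nat_lit 385094) (nat_lit 49) (.e (nat_lit 778241) (nat_lit 0) (.e (nat_lit 1048) (nat_lit 81) .nil)))))))) (.g (nat_lit 5) .nil .nil))))) (.nd (nat_lit 4) (.nd (nat_lit 5) 
(.lf (nat_lit 88779) (.g (nat_lit 3511) (.e (nat_lit 2030) (nat_lit 140) (.e (nat_lit 688177) (nat_lit 16) (.e (nat_lit 65583) (nat_lit 7) (.e (nat_lit 319530) (nat_lit 16) (.e (nat_lit 286752) (nat_lit 10) (.e (nat_lit 344169) (nat_lit 40) (.e (nat_lit 671748) (nat_lit 0) (.e (nat_lit 1047) (nat_lit 81) .nil)))))))) (.g (nat_lit 5) .nil .nil))) 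
(.lf (nat_lit 88811) (.g (nat_lit 2401) (.e (nat_lit 2030) (nat_lit 140) (.e (nat_lit 688177) (nat_lit 16) (.e (nat_lit 65583) (nat_lit 7) (.e (nat_lit 319530) (nat_lit 16) (.e (nat_lit 286759) (nat_lit 12) (.e (nat_lit 385092) (nat_lit 49) (.e (nat_lit 778295) (nat_lit 0) (.e (nat_lit 1033) (nat_lit 81) .nil)))))))) (.g (nat_lit 4) .nil .nil)))) (.nd (nat_lit 5) 
(.lf (nat_lit 88795) (.g (nat_lit 2136) (.e (nat_lit 2030) (nat_lit 140) (.e (nat_lit 688177) (nat_lit 16) (.e (nat_lit 65583) (nat_lit 7) (.e (nat_lit 319530) (nat_lit 16) (.e (nat_lit 286756) (nat_lit 10) (.e (nat_lit 344169) (nat_lit 40) (.e (nat_lit 671748) (nat_lit 0) (.e (nat_lit 1025) (nat_lit 81) .nil)))))))) (.g (nat_lit 4) .nil .nil))) 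
(.lf (nat_lit 88827) (.g (nat_lit 3226) (.e (nat_lit 2030) (nat_lit 140) (.e (nat_lit 688177) (nat_lit 16) (.e (nat_lit 65583) (nat_lit 7) (.e (nat_lit 319530) (nat_lit 16) (.e (nat_lit 286759) (nat_lit 12) (.e (nat_lit 385102) (nat_lit 50) (.e (nat_lit 786447) (nat_lit 15) .nil))))))) (.g (nat_lit 5) .nil .nil)))))) (.nd (nat_lit 3) (.nd (nat_lit 4) (.nd (nat_lit 5) 
(.lf (nat_lit 88775) (.g (nat_lit 2375) (.e (nat_lit 2030) (nat_lit 140) (.e (nat_lit 688177) (nat_lit 16) (.e (nat_lit 65583) (nat_lit 7) (.e (nat_lit 319530) (nat_lit 16) (.e (nat_lit 286748) (nat_lit 9) (.e (nat_lit 336295) (nat_lit 15) (.e (nat_lit 3748) (nat_lit 228) (.e (nat_lit 794368) (nat_lit 15) .nil)))))))) (.g (nat_lit 4) .nil .nil))) 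
(.lf (nat_lit 88807) (.g (nat_lit 2195) (.e (nat_lit 2030) (nat_lit 140) (.e (nat_lit 688177) (nat_lit 16) (.e (nat_lit 65583) (nat_lit 7) (.e (nat_lit 319530) (nat_lit 16) (.e (nat_lit 286759) (nat_lit 12) (.e (nat_lit 385092) (nat_lit 49) (.e (nat_lit 778251) (nat_lit 0) (.e (nat_lit 1017) (nat_lit 81) .nil)))))))) (.g (nat_lit 4) .nil .nil)))) (.nd (nat_lit 5) 
(.lf (nat_lit 88791) (.g (nat_lit 2764) (.e (nat_lit 2030) (nat_lit 140) (.e (nat_lit 688177) (nat_lit 16) (.e (nat_lit 65583) (nat_lit 7) (.e (nat_lit 319530) (nat_lit 16) (.e (nat_lit 286755) (nat_lit 10) (.e (nat_lit 344169) (nat_lit 40) (.e (nat_lit 671748) (nat_lit 0) (.e (nat_lit 1035) (nat_lit 81) .nil)))))))) (.g (nat_lit 4) .nil .nil))) 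
(.lf (nat_lit 88823) (.g (nat_lit 3313) (.e (nat_lit 2030) (nat_lit 140) (.e (nat_lit 688177) (nat_lit 16) (.e (nat_lit 65583) (nat_lit 7) (.e (nat_lit 319530) (nat_lit 16) (.e (nat_lit 286759) (nat_lit 12) (.e (nat_lit 385094) (nat_lit 49) (.e (nat_lit 778297) (nat_lit 0) (.e (nat_lit 1023) (nat_lit 81) .nil)))))))) (.g (nat_lit 5) .nil .nil))))) (.nd (nat_lit 4) (.nd (nat_lit 5) 
(.lf (nat_lit 88783) (.g (nat_lit 2753) (.e (nat_lit 2030) (nat_lit 140) (.e (nat_lit 688177) (nat_lit 16) (.e (nat_lit 65583) (nat_lit 7) (.e (nat_lit 319530) (nat_lit 16) (.e (nat_lit 286753) (nat_lit 10) (.e (nat_lit 344169) (nat_lit 40) (.e (nat_lit 671748) (nat_lit 0) (.e (nat_lit 1032) (nat_lit 81) .nil)))))))) (.g (nat_lit 4) .nil .nil))) 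
(.lf (nat_lit 88815) (.g (nat_lit 3379) (.e (nat_lit 2030) (nat_lit 140) (.e (nat_lit 688177) (nat_lit 16) (.e (nat_lit 65583) (nat_lit 7) (.e (nat_lit 319530) (nat_lit 16) (.e (nat_lit 286759) (nat_lit 12) (.e (nat_lit 385094) (nat_lit 49) (.e (nat_lit 778241) (nat_lit 0) (.e (nat_lit 1027) (nat_lit 81) .nil)))))))) (.g (nat_lit 5) .nil .nil)))) (.nd (nat_lit 5) 
(.lf (nat_lit 88799) (.g (nat_lit 2089) (.e (nat_lit 2030) (nat_lit 140) (.e (nat_lit 688177) (nat_lit 16) (.e (nat_lit 65583) (nat_lit 7) (.e (nat_lit 319530) (nat_lit 16) (.e (nat_lit 286758) (nat_lit 12) (.e (nat_lit 385104) (nat_lit 50) (.e (nat_lit 786447) (nat_lit 15) .nil))))))) (.g (nat_lit 4) .nil .nil))) 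
(.lf (nat_lit 88831) (.g (nat_lit 3721) (.e (nat_lit 2030) (nat_lit 140) (.e (nat_lit 688177) (nat_lit 16) (.e (nat_lit 65583) (nat_lit 7) (.e (nat_lit 319530) (nat_lit 16) (.e (nat_lit 286759) (nat_lit 12) (.e (nat_lit 385105) (nat_lit 50) (.e (nat_lit 786446) (nat_lit 15) .nil))))))) (.g (nat_lit 6) .nil .nil)))))))))

noncomputable def tv1212 : DT := (.nd (nat_lit 0) (.nd (nat_lit 1) (.nd (nat_lit 2) (.nd (nat_lit 3) (.nd (nat_lit 4) (.nd (nat_lit 5) 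
(.lf (nat_lit 88832) (.g (nat_lit 4315) (.e (nat_lit 2030) (nat_lit 140) (.e (nat_lit 688177) (nat_lit 16) (.e (nat_lit 65583) (nat_lit 7) (.e (nat_lit 319530) (nat_lit 16) (.e (nat_lit 286759) (nat_lit 12) (.e (nat_lit 385105) (nat_lit 50) (.e (nat_lit 794368) (nat_lit 15) .nil))))))) (.g (nat_lit 6) .nil .nil))) 
(.lf (nat_lit 88864) (.g (nat_lit 2049) (.e (nat_lit 2030) (nat_lit 140) (.e (nat_lit 688177) (nat_lit 16) (.e (nat_lit 65586) (nat_lit 7) (.e (nat_lit 319531) (nat_lit 16) (.e (nat_lit 286740) (nat_lit 7) .nil))))) .nil))) (.nd (nat_lit 5) 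
(.lf (nat_lit 88848) (.g (nat_lit 3711) (.e (nat_lit 2030) (nat_lit 140) (.e (nat_lit 688177) (nat_lit 16) (.e (nat_lit 65583) (nat_lit 7) (.e (nat_lit 319533) (nat_lit 16) (.e (nat_lit 286753) (nat_lit 10) (.e (nat_lit 344169) (nat_lit 40) (.e (nat_lit 671748) (nat_lit 0) (.e (nat_lit 1035) (nat_lit 81) .nil)))))))) (.g (nat_lit 5) .nil .nil))) 
(.lf (nat_lit 88880) (.g (nat_lit 2117) (.e (nat_lit 2030) (nat_lit 140) (.e (nat_lit 688177) (nat_lit 16) (.e (nat_lit 65586) (nat_lit 7) (.e (nat_lit 319531) (nat_lit 16) (.e (nat_lit 286748) (nat_lit 9) (.e (nat_lit 336295) (nat_lit 15) (.e (nat_lit 3630) (nat_lit 227) (.e (nat_lit 778251) (nat_lit 0) (.e (nat_lit 1046) (nat_lit 81) .nil))))))))) (.g (nat_lit 4) .nil .nil))))) 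
(.nd (nat_lit 4) (.nd (nat_lit 5) 
(.lf (nat_lit 88840) (.g (nat_lit 4855) (.e (nat_lit 2030) (nat_lit 140) (.e (nat_lit 688177) (nat_lit 16) (.e (nat_lit 65583) (nat_lit 7) (.e (nat_lit 319530) (nat_lit 16) (.e (nat_lit 286762) (nat_lit 14) (.e (nat_lit 401437) (nat_lit 9) (.e (nat_lit 426402) (nat_lit 15) .nil))))))) (.g (nat_lit 7) .nil .nil))) 
(.lf (nat_lit 88872) (.g (nat_lit 2513) (.e (nat_lit 2030) (nat_lit 140) (.e (nat_lit 688177) (nat_lit 16) (.e (nat_lit 65586) (nat_lit 7) (.e (nat_lit 319531) (nat_lit 16) (.e (nat_lit 286748) (nat_lit 9) (.e (nat_lit 335908) (nat_lit 0) (.e (nat_lit 970) (nat_lit 81) (.e (nat_lit 5954) (nat_lit 322) (.e (nat_lit 57355) (nat_lit 0) .nil))))))))) (.g (nat_lit 4) .nil .nil)))) (.nd (nat_lit 5) 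
(.lf (nat_lit 88856) (.g (nat_lit 938) (.e (nat_lit 2030) (nat_lit 140) (.e (nat_lit 688177) (nat_lit 16) (.e (nat_lit 65586) (nat_lit 7) (.e (nat_lit 319531) (nat_lit 16) .nil)))) .nil)) 
(.lf (nat_lit 88888) (.g (nat_lit 4084) (.e (nat_lit 2030) (nat_lit 140) (.e (nat_lit 688177) (nat_lit 16) (.e (nat_lit 65586) (nat_lit 7) (.e (nat_lit 319531) (nat_lit 16) (.e (nat_lit 286748) (nat_lit 9) (.e (nat_lit 336295) (nat_lit 15) (.e (nat_lit 3632) (nat_lit 227) (.e (nat_lit 778241) (nat_lit 0) (.e (nat_lit 1027) (nat_lit 81) .nil))))))))) (.g (nat_lit 7) .nil .nil)))))) 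
(.nd (nat_lit 3) (.nd (nat_lit 4) (.nd (nat_lit 5) 
(.lf (nat_lit 88836) (.g (nat_lit 2396) (.e (nat_lit 2030) (nat_lit 140) (.e (nat_lit 688177) (nat_lit 16) (.e (nat_lit 65583) (nat_lit 7) (.e (nat_lit 319530) (nat_lit 16) (.e (nat_lit 286762) (nat_lit 14) (.e (nat_lit 401436) (nat_lit 9) (.e (nat_lit 426364) (nat_lit 15) .nil))))))) (.g (nat_lit 4) .nil .nil))) 
(.lf (nat_lit 88868) (.g (nat_lit 3128) (.e (nat_lit 2030) (nat_lit 140) (.e (nat_lit 688177) (nat_lit 16) (.e (nat_lit 65586) (nat_lit 7) (.e (nat_lit 319531) (nat_lit 16) (.e (nat_lit 286748) (nat_lit 9) (.e (nat_lit 335889) (nat_lit 0) (.e (nat_lit 970) (nat_lit 81) (.e (nat_lit 5954) (nat_lit 322) (.e (nat_lit 57355) (nat_lit 0) .nil))))))))) (.g (nat_lit 5) .nil .nil)))) (.nd (nat_lit 5) 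
(.lf (nat_lit 88852) (.g (nat_lit 2914) (.e (nat_lit 2030) (nat_lit 140) (.e (nat_lit 688177) (nat_lit 16) (.e (nat_lit 65583) (nat_lit 7) (.e (nat_lit 319534) (nat_lit 16) (.e (nat_lit 286756) (nat_lit 10) (.e (nat_lit 344169) (nat_lit 40) (.e (nat_lit 671748) (nat_lit 0) (.e (nat_lit 1035) (nat_lit 81) .nil)))))))) (.g (nat_lit 4) .nil .nil))) 
(.lf (nat_lit 88884) (.g (nat_lit 2166) (.e (nat_lit 2030) (nat_lit 140) (.e (nat_lit 688177) (nat_lit 16) (.e (nat_lit 65586) (nat_lit 7) (.e (nat_lit 319531) (nat_lit 16) (.e (nat_lit 286748) (nat_lit 9) (.e (nat_lit 336295) (nat_lit 15) (.e (nat_lit 3630) (nat_lit 227) (.e (nat_lit 778295) (nat_lit 0) (.e (nat_lit 1033) (nat_lit 81) .nil))))))))) (.g (nat_lit 4) .nil .nil))))) 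
(.nd (nat_lit 4) (.nd (nat_lit 5) 
(.lf (nat_lit 88844) (.g (nat_lit 3552) (.e (nat_lit 2030) (nat_lit 140) (.e (nat_lit 688177) (nat_lit 16) (.e (nat_lit 65583) (nat_lit 7) (.e (nat_lit 319533) (nat_lit 16) (.e (nat_lit 286753) (nat_lit 10) (.e (nat_lit 344169) (nat_lit 40) (.e (nat_lit 671748) (nat_lit 0) (.e (nat_lit 1022) (nat_lit 81) .nil)))))))) (.g (nat_lit 5) .nil .nil))) 
(.lf (nat_lit 88876) (.g (nat_lit 4001) (.e (nat_lit 2030) (nat_lit 140) (.e (nat_lit 688177) (nat_lit 16) (.e (nat_lit 65586) (nat_lit 7) (.e (nat_lit 319531) (nat_lit 16) (.e (nat_lit 286748) (nat_lit 9) (.e (nat_lit 336295) (nat_lit 15) (.e (nat_lit 3617) (nat_lit 227) (.e (nat_lit 778266) (nat_lit 0) (.e (nat_lit 1019) (nat_lit 81) .nil))))))))) (.g (nat_lit 6) .nil .nil)))) (.nd (nat_lit 5) 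
(.lf (nat_lit 88860) (.g (nat_lit 2736) (.e (nat_lit 2030) (nat_lit 140) (.e (nat_lit 688177) (nat_lit 16) (.e (nat_lit 65586) (nat_lit 7) (.e (nat_lit 319531) (nat_lit 16) (.e (nat_lit 286727) (nat_lit 0) (.e (nat_lit 6223) (nat_lit 334) (.e (nat_lit 123165) (nat_lit 256) (.e (nat_lit 18) (nat_lit 0) .nil)))))))) (.g (nat_lit 4) .nil .nil))) 
(.lf (nat_lit 88892) (.g (nat_lit 3784) (.e (nat_lit 2030) (nat_lit 140) (.e (nat_lit 688177) (nat_lit 16) (.e (nat_lit 65586) (nat_lit 7) (.e (nat_lit 319531) (nat_lit 16) (.e (nat_lit 286748) (nat_lit 9) (.e (nat_lit 336295) (nat_lit 15) (.e (nat_lit 3632) (nat_lit 227) (.e (nat_lit 778241) (nat_lit 0) (.e (nat_lit 1046) (nat_lit 81) .nil))))))))) (.g (nat_lit 7) .nil .nil))))))) 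
(.nd (nat_lit 2) (.nd (nat_lit 3) (.nd (nat_lit 4) (.nd (nat_lit 5) 
(.lf (nat_lit 88834) (.g (nat_lit 4332) (.e (nat_lit 2030) (nat_lit 140) (.e (nat_lit 688177) (nat_lit 16) (.e (nat_lit 65583) (nat_lit 7) (.e (nat_lit 319530) (nat_lit 16) (.e (nat_lit 286759) (nat_lit 12) (.e (nat_lit 385106) (nat_lit 50) (.e (nat_lit 786446) (nat_lit 15) .nil))))))) (.g (nat_lit 0) .nil .nil))) 
(.lf (nat_lit 88866) (.g (nat_lit 2607) (.e (nat_lit 2030) (nat_lit 140) (.e (nat_lit 688177) (nat_lit 16) (.e (nat_lit 65586) (nat_lit 7) (.e (nat_lit 319531) (nat_lit 16) (.e (nat_lit 286742) (nat_lit 9) (.e (nat_lit 336032) (nat_lit 4) (.e (nat_lit 123195) (nat_lit 266) (.e (nat_lit 57354) (nat_lit 0) .nil)))))))) (.g (nat_lit 4) .nil .nil)))) (.nd (nat_lit 5) 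
(.lf (nat_lit 88850) (.g (nat_lit 2769) (.e (nat_lit 2030) (nat_lit 140) (.e (nat_lit 688177) (nat_lit 16) (.e (nat_lit 65583) (nat_lit 7) (.e (nat_lit 319534) (nat_lit 16) (.e (nat_lit 286756) (nat_lit 10) (.e (nat_lit 344169) (nat_lit 40) (.e (nat_lit 671748) (nat_lit 0) (.e (nat_lit 1022) (nat_lit 81) .nil)))))))) (.g (nat_lit 4) .nil .nil))) 
(.lf (nat_lit 88882) (.g (nat_lit 2203) (.e (nat_lit 2030) (nat_lit 140) (.e (nat_lit 688177) (nat_lit 16) (.e (nat_lit 65586) (nat_lit 7) (.e (nat_lit 319531) (nat_lit 16) (.e (nat_lit 286748) (nat_lit 9) (.e (nat_lit 336295) (nat_lit 15) (.e (nat_lit 3630) (nat_lit 227) (.e (nat_lit 778267) (nat_lit 0) (.e (nat_lit 1019) (nat_lit 81) .nil))))))))) (.g (nat_lit 4) .nil .nil))))) 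
(.nd (nat_lit 4) (.nd (nat_lit 5) 
(.lf (nat_lit 88842) (.g (nat_lit 4590) (.e (nat_lit 2030) (nat_lit 140) (.e (nat_lit 688177) (nat_lit 16) (.e (nat_lit 65583) (nat_lit 7) (.e (nat_lit 319530) (nat_lit 16) (.e (nat_lit 286762) (nat_lit 14) (.e (nat_lit 401438) (nat_lit 9) (.e (nat_lit 426402) (nat_lit 15) .nil))))))) (.g (nat_lit 0) .nil .nil))) 
(.lf (nat_lit 88874) (.g (nat_lit 3592) (.e (nat_lit 2030) (nat_lit 140) (.e (nat_lit 688177) (nat_lit 16) (.e (nat_lit 65586) (nat_lit 7) (.e (nat_lit 319531) (nat_lit 16) (.e (nat_lit 286748) (nat_lit 9) (.e (nat_lit 336031) (nat_lit 4) (.e (nat_lit 123195) (nat_lit 266) (.e (nat_lit 57354) (nat_lit 0) .nil)))))))) (.g (nat_lit 5) .nil .nil)))) (.nd (nat_lit 5) 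
(.lf (nat_lit 88858) (.g (nat_lit 2620) (.e (nat_lit 2030) (nat_lit 140) (.e (nat_lit 688177) (nat_lit 16) (.e (nat_lit 65586) (nat_lit 7) (.e (nat_lit 319531) (nat_lit 16) (.e (nat_lit 286727) (nat_lit 0) (.e (nat_lit 6223) (nat_lit 334) (.e (nat_lit 123163) (nat_lit 256) (.e (nat_lit 18) (nat_lit 0) .nil)))))))) (.g (nat_lit 4) .nil .nil))) 
(.lf (nat_lit 88890) (.g (nat_lit 2568) (.e (nat_lit 2030) (nat_lit 140) (.e (nat_lit 688177) (nat_lit 16) (.e (nat_lit 65586) (nat_lit 7) (.e (nat_lit 319531) (nat_lit 16) (.e (nat_lit 286748) (nat_lit 9) (.e (nat_lit 336295) (nat_lit 15) (.e (nat_lit 3632) (nat_lit 227) (.e (nat_lit 778241) (nat_lit 0) (.e (nat_lit 1031) (nat_lit 81) .nil))))))))) (.g (nat_lit 5) .nil .nil)))))) 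
(.nd (nat_lit 3) (.nd (nat_lit 4) (.nd (nat_lit 5) 
(.lf (nat_lit 88838) (.g (nat_lit 4008) (.e (nat_lit 2030) (nat_lit 140) (.e (nat_lit 688177) (nat_lit 16) (.e (nat_lit 65583) (nat_lit 7) (.e (nat_lit 319530) (nat_lit 16) (.e (nat_lit 286762) (nat_lit 14) (.e (nat_lit 401436) (nat_lit 9) (.e (nat_lit 426402) (nat_lit 15) .nil))))))) (.g (nat_lit 7) .nil .nil))) 
(.lf (nat_lit 88870) (.g (nat_lit 3140) (.e (nat_lit 2030) (nat_lit 140) (.e (nat_lit 688177) (nat_lit 16) (.e (nat_lit 65586) (nat_lit 7) (.e (nat_lit 319531) (nat_lit 16) (.e (nat_lit 286748) (nat_lit 9) (.e (nat_lit 335905) (nat_lit 0) (.e (nat_lit 970) (nat_lit 81) (.e (nat_lit 5954) (nat_lit 322) (.e (nat_lit 57355) (nat_lit 0) .nil))))))))) (.g (nat_lit 5) .nil .nil)))) (.nd (nat_lit 5) 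
(.lf (nat_lit 88854) (.g (nat_lit 3168) (.e (nat_lit 2030) (nat_lit 140) (.e (nat_lit 688177) (nat_lit 16) (.e (nat_lit 65585) (nat_lit 7) (.e (nat_lit 319533) (nat_lit 16) (.e (nat_lit 286753) (nat_lit 10) (.e (nat_lit 344169) (nat_lit 40) (.e (nat_lit 671748) (nat_lit 0) (.e (nat_lit 1047) (nat_lit 81) .nil)))))))) (.g (nat_lit 5) .nil .nil))) 
(.lf (nat_lit 88886) (.g (nat_lit 2148) (.e (nat_lit 2030) (nat_lit 140) (.e (nat_lit 688177) (nat_lit 16) (.e (nat_lit 65586) (nat_lit 7) (.e (nat_lit 319531) (nat_lit 16) (.e (nat_lit 286748) (nat_lit 9) (.e (nat_lit 336295) (nat_lit 15) (.e (nat_lit 3630) (nat_lit 227) (.e (nat_lit 778299) (nat_lit 0) (.e (nat_lit 1019) (nat_lit 81) .nil))))))))) (.g (nat_lit 4) .nil .nil))))) 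
(.nd (nat_lit 4) (.nd (nat_lit 5) 
(.lf (nat_lit 88846) (.g (nat_lit 2651) (.e (nat_lit 2030) (nat_lit 140) (.e (nat_lit 688177) (nat_lit 16) (.e (nat_lit 65583) (nat_lit 7) (.e (nat_lit 319533) (nat_lit 16) (.e (nat_lit 286753) (nat_lit 10) (.e (nat_lit 344169) (nat_lit 40) (.e (nat_lit 671748) (nat_lit 0) (.e (nat_lit 1027) (nat_lit 81) .nil)))))))) (.g (nat_lit 4) .nil .nil))) 
(.lf (nat_lit 88878) (.g (nat_lit 2062) (.e (nat_lit 2030) (nat_lit 140) (.e (nat_lit 688177) (nat_lit 16) (.e (nat_lit 65586) (nat_lit 7) (.e (nat_lit 319531) (nat_lit 16) (.e (nat_lit 286748) (nat_lit 9) (.e (nat_lit 336295) (nat_lit 15) (.e (nat_lit 3629) (nat_lit 227) (.e (nat_lit 778297) (nat_lit 0) (.e (nat_lit 1033) (nat_lit 81) .nil))))))))) (.g (nat_lit 4) .nil .nil)))) (.nd (nat_lit 5) 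
(.lf (nat_lit 88862) (.g (nat_lit 1862) (.e (nat_lit 2030) (nat_lit 140) (.e (nat_lit 688177) (nat_lit 16) (.e (nat_lit 65586) (nat_lit 7) (.e (nat_lit 319531) (nat_lit 16) (.e (nat_lit 286739) (nat_lit 7) .nil))))) .nil)) 
(.lf (nat_lit 88894) (.g (nat_lit 3048) (.e (nat_lit 2030) (nat_lit 140) (.e (nat_lit 688177) (nat_lit 16) (.e (nat_lit 65586) (nat_lit 7) (.e (nat_lit 319531) (nat_lit 16) (.e (nat_lit 286748) (nat_lit 9) (.e (nat_lit 336295) (nat_lit 15) (.e (nat_lit 3632) (nat_lit 227) (.e (nat_lit 778246) (nat_lit 0) (.e (nat_lit 1025) (nat_lit 81) .nil))))))))) (.g (nat_lit 5) .nil .nil)))))))) 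
(.nd (nat_lit 1) (.nd (nat_lit 2) (.nd (nat_lit 3) (.nd (nat_lit 4) (.nd (nat_lit 5) 
(.lf (nat_lit 88833) (.g (nat_lit 4438) (.e (nat_lit 2030) (nat_lit 140) (.e (nat_lit 688177) (nat_lit 16) (.e (nat_lit 65583) (nat_lit 7) (.e (nat_lit 319530) (nat_lit 16) (.e (nat_lit 286759) (nat_lit 12) (.e (nat_lit 385106) (nat_lit 50) (.e (nat_lit 786444) (nat_lit 15) .nil))))))) (.g (nat_lit 0) .nil .nil))) 
(.lf (nat_lit 88865) (.g (nat_lit 2050) (.e (nat_lit 2030) (nat_lit 140) (.e (nat_lit 688177) (nat_lit 16) (.e (nat_lit 65586) (nat_lit 7) (.e (nat_lit 319531) (nat_lit 16) (.e (nat_lit 286740) (nat_lit 7) (.e (nat_lit 319539) (nat_lit 19) (.e (nat_lit 311348) (nat_lit 15) .nil))))))) (.g (nat_lit 4) .nil .nil)))) (.nd (nat_lit 5) 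
(.lf (nat_lit 88849) (.g (nat_lit 3381) (.e (nat_lit 2030) (nat_lit 140) (.e (nat_lit 688177) (nat_lit 16) (.e (nat_lit 65583) (nat_lit 7) (.e (nat_lit 319533) (nat_lit 16) (.e (nat_lit 286753) (nat_lit 10) (.e (nat_lit 344169) (nat_lit 40) (.e (nat_lit 671748) (nat_lit 0) (.e (nat_lit 1048) (nat_lit 81) .nil)))))))) (.g (nat_lit 4) .nil .nil))) 
(.lf (nat_lit 88881) (.g (nat_lit 2149) (.e (nat_lit 2030) (nat_lit 140) (.e (nat_lit 688177) (nat_lit 16) (.e (nat_lit 65586) (nat_lit 7) (.e (nat_lit 319531) (nat_lit 16) (.e (nat_lit 286748) (nat_lit 9) (.e (nat_lit 336295) (nat_lit 15) (.e (nat_lit 3630) (nat_lit 227) (.e (nat_lit 778259) (nat_lit 0) (.e (nat_lit 1019) (nat_lit 81) .nil))))))))) (.g (nat_lit 4) .nil .nil))))) 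
(.nd (nat_lit 4) (.nd (nat_lit 5) 
(.lf (nat_lit 88841) (.g (nat_lit 4174) (.e (nat_lit 2030) (nat_lit 140) (.e (nat_lit 688177) (nat_lit 16) (.e (nat_lit 65583) (nat_lit 7) (.e (nat_lit 319530) (nat_lit 16) (.e (nat_lit 286762) (nat_lit 14) (.e (nat_lit 401438) (nat_lit 9) (.e (nat_lit 426364) (nat_lit 15) .nil))))))) (.g (nat_lit 6) .nil .nil))) 
(.lf (nat_lit 88873) (.g (nat_lit 3051) (.e (nat_lit 2030) (nat_lit 140) (.e (nat_lit 688177) (nat_lit 16) (.e (nat_lit 65586) (nat_lit 7) (.e (nat_lit 319531) (nat_lit 16) (.e (nat_lit 286748) (nat_lit 9) (.e (nat_lit 336030) (nat_lit 4) (.e (nat_lit 123195) (nat_lit 266) (.e (nat_lit 57354) (nat_lit 0) .nil)))))))) (.g (nat_lit 5) .nil .nil)))) (.nd (nat_lit 5) 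
(.lf (nat_lit 88857) (.g (nat_lit 5027) (.e (nat_lit 2030) (nat_lit 140) (.e (nat_lit 688177) (nat_lit 16) (.e (nat_lit 65586) (nat_lit 7) (.e (nat_lit 319531) (nat_lit 16) (.e (nat_lit 286721) (nat_lit 0) (.e (nat_lit 6113) (nat_lit 332) (.e (nat_lit 1374) (nat_lit 104) (.e (nat_lit 303147) (nat_lit 15) .nil)))))))) (.g (nat_lit 7) .nil .nil))) 
(.lf (nat_lit 88889) (.g (nat_lit 3879) (.e (nat_lit 2030) (nat_lit 140) (.e (nat_lit 688177) (nat_lit 16) (.e (nat_lit 65586) (nat_lit 7) (.e (nat_lit 319531) (nat_lit 16) (.e (nat_lit 286748) (nat_lit 9) (.e (nat_lit 336295) (nat_lit 15) (.e (nat_lit 3632) (nat_lit 227) (.e (nat_lit 778241) (nat_lit 0) (.e (nat_lit 1030) (nat_lit 81) .nil))))))))) (.g (nat_lit 7) .nil .nil)))))) 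
(.nd (nat_lit 3) (.nd (nat_lit 4) (.nd (nat_lit 5) 
(.lf (nat_lit 88837) (.g (nat_lit 2092) (.e (nat_lit 2030) (nat_lit 140) (.e (nat_lit 688177) (nat_lit 16) (.e (nat_lit 65583) (nat_lit 7) (.e (nat_lit 319530) (nat_lit 16) (.e (nat_lit 286762) (nat_lit 14) (.e (nat_lit 401436) (nat_lit 9) (.e (nat_lit 426399) (nat_lit 15) .nil))))))) (.g (nat_lit 4) .nil .nil))) 
(.lf (nat_lit 88869) (.g (nat_lit 2683) (.e (nat_lit 2030) (nat_lit 140) (.e (nat_lit 688177) (nat_lit 16) (.e (nat_lit 65586) (nat_lit 7) (.e (nat_lit 319531) (nat_lit 16) (.e (nat_lit 286748) (nat_lit 9) (.e (nat_lit 335891) (nat_lit 0) (.e (nat_lit 970) (nat_lit 81) (.e (nat_lit 5954) (nat_lit 322) (.e (nat_lit 57355) (nat_lit 0) .nil))))))))) (.g (nat_lit 4) .nil .nil)))) (.nd (nat_lit 5) 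
(.lf (nat_lit 88853) (.g (nat_lit 4165) (.e (nat_lit 2030) (nat_lit 140) (.e (nat_lit 688177) (nat_lit 16) (.e (nat_lit 65583) (nat_lit 7) (.e (nat_lit 319534) (nat_lit 16) (.e (nat_lit 286756) (nat_lit 10) (.e (nat_lit 344169) (nat_lit 40) (.e (nat_lit 671748) (nat_lit 0) (.e (nat_lit 1047) (nat_lit 81) .nil)))))))) (.g (nat_lit 5) .nil .nil))) 
(.lf (nat_lit 88885) (.g (nat_lit 2437) (.e (nat_lit 2030) (nat_lit 140) (.e (nat_lit 688177) (nat_lit 16) (.e (nat_lit 65586) (nat_lit 7) (.e (nat_lit 319531) (nat_lit 16) (.e (nat_lit 286748) (nat_lit 9) (.e (nat_lit 336295) (nat_lit 15) (.e (nat_lit 3630) (nat_lit 227) (.e (nat_lit 778297) (nat_lit 0) (.e (nat_lit 1033) (nat_lit 81) .nil))))))))) (.g (nat_lit 4) .nil .nil))))) 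
(.nd (nat_lit 4) (.nd (nat_lit 5) 
(.lf (nat_lit 88845) (.g (nat_lit 3531) (.e (nat_lit 2030) (nat_lit 140) (.e (nat_lit 688177) (nat_lit 16) (.e (nat_lit 65583) (nat_lit 7) (.e (nat_lit 319533) (nat_lit 16) (.e (nat_lit 286753) (nat_lit 10) (.e (nat_lit 344169) (nat_lit 40) (.e (nat_lit 671748) (nat_lit 0) (.e (nat_lit 1025) (nat_lit 81) .nil)))))))) (.g (nat_lit 4) .nil .nil))) 
(.lf (nat_lit 88877) (.g (nat_lit 3545) (.e (nat_lit 2030) (nat_lit 140) (.e (nat_lit 688177) (nat_lit 16) (.e (nat_lit 65586) (nat_lit 7) (.e (nat_lit 319531) (nat_lit 16) (.e (nat_lit 286748) (nat_lit 9) (.e (nat_lit 336295) (nat_lit 15) (.e (nat_lit 3617) (nat_lit 227) (.e (nat_lit 778269) (nat_lit 0) (.e (nat_lit 1019) (nat_lit 81) .nil))))))))) (.g (nat_lit 6) .nil .nil)))) (.nd (nat_lit 5) 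
(.lf (nat_lit 88861) (.g (nat_lit 3182) (.e (nat_lit 2030) (nat_lit 140) (.e (nat_lit 688177) (nat_lit 16) (.e (nat_lit 65586) (nat_lit 7) (.e (nat_lit 319531) (nat_lit 16) (.e (nat_lit 286727) (nat_lit 0) (.e (nat_lit 6223) (nat_lit 334) (.e (nat_lit 123166) (nat_lit 256) (.e (nat_lit 18) (nat_lit 0) .nil)))))))) (.g (nat_lit 5) .nil .nil))) 
(.lf (nat_lit 88893) (.g (nat_lit 3841) (.e (nat_lit 2030) (nat_lit 140) (.e (nat_lit 688177) (nat_lit 16) (.e (nat_lit 65586) (nat_lit 7) (.e (nat_lit 319531) (nat_lit 16) (.e (nat_lit 286748) (nat_lit 9) (.e (nat_lit 336295) (nat_lit 15) (.e (nat_lit 3632) (nat_lit 227) (.e (nat_lit 778241) (nat_lit 0) (.e (nat_lit 1048) (nat_lit 81) .nil))))))))) (.g (nat_lit 7) .nil .nil))))))) 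
(.nd (nat_lit 2) (.nd (nat_lit 3) (.nd (nat_lit 4) (.nd (nat_lit 5) 
(.lf (nat_lit 88835) (.g (nat_lit 3771) (.e (nat_lit 2030) (nat_lit 140) (.e (nat_lit 688177) (nat_lit 16) (.e (nat_lit 65583) (nat_lit 7) (.e (nat_lit 319530) (nat_lit 16) (.e (nat_lit 286759) (nat_lit 12) (.e (nat_lit 385106) (nat_lit 50) (.e (nat_lit 794368) (nat_lit 15) .nil))))))) (.g (nat_lit 6) .nil .nil))) 
(.lf (nat_lit 88867) (.g (nat_lit 1721) (.e (nat_lit 2030) (nat_lit 140) (.e (nat_lit 688177) (nat_lit 16) (.e (nat_lit 65586) (nat_lit 7) (.e (nat_lit 319531) (nat_lit 16) (.e (nat_lit 286748) (nat_lit 9) .nil))))) .nil))) (.nd (nat_lit 5) 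
(.lf (nat_lit 88851) (.g (nat_lit 2729) (.e (nat_lit 2030) (nat_lit 140) (.e (nat_lit 688177) (nat_lit 16) (.e (nat_lit 65583) (nat_lit 7) (.e (nat_lit 319534) (nat_lit 16) (.e (nat_lit 286756) (nat_lit 10) (.e (nat_lit 344169) (nat_lit 40) (.e (nat_lit 671748) (nat_lit 0) (.e (nat_lit 1025) (nat_lit 81) .nil)))))))) (.g (nat_lit 4) .nil .nil))) 
(.lf (nat_lit 88883) (.g (nat_lit 2515) (.e (nat_lit 2030) (nat_lit 140) (.e (nat_lit 688177) (nat_lit 16) (.e (nat_lit 65586) (nat_lit 7) (.e (nat_lit 319531) (nat_lit 16) (.e (nat_lit 286748) (nat_lit 9) (.e (nat_lit 336295) (nat_lit 15) (.e (nat_lit 3630) (nat_lit 227) (.e (nat_lit 778295) (nat_lit 0) (.e (nat_lit 1023) (nat_lit 81) .nil))))))))) (.g (nat_lit 4) .nil .nil))))) 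
(.nd (nat_lit 4) (.nd (nat_lit 5) 
(.lf (nat_lit 88843) (.g (nat_lit 2826) (.e (nat_lit 2030) (nat_lit 140) (.e (nat_lit 688177) (nat_lit 16) (.e (nat_lit 65583) (nat_lit 7) (.e (nat_lit 319531) (nat_lit 16) (.e (nat_lit 286756) (nat_lit 10) (.e (nat_lit 344169) (nat_lit 40) (.e (nat_lit 671748) (nat_lit 0) (.e (nat_lit 1047) (nat_lit 81) .nil)))))))) (.g (nat_lit 4) .nil .nil))) 
(.lf (nat_lit 88875) (.g (nat_lit 3047) (.e (nat_lit 2030) (nat_lit 140) (.e (nat_lit 688177) (nat_lit 16) (.e (nat_lit 65586) (nat_lit 7) (.e (nat_lit 319531) (nat_lit 16) (.e (nat_lit 286748) (nat_lit 9) (.e (nat_lit 336032) (nat_lit 4) (.e (nat_lit 123195) (nat_lit 266) (.e (nat_lit 57354) (nat_lit 0) .nil)))))))) (.g (nat_lit 5) .nil .nil)))) (.nd (nat_lit 5) 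
(.lf (nat_lit 88859) (.g (nat_lit 2861) (.e (nat_lit 2030) (nat_lit 140) (.e (nat_lit 688177) (nat_lit 16) (.e (nat_lit 65586) (nat_lit 7) (.e (nat_lit 319531) (nat_lit 16) (.e (nat_lit 286727) (nat_lit 0) (.e (nat_lit 6223) (nat_lit 334) (.e (nat_lit 123164) (nat_lit 256) (.e (nat_lit 18) (nat_lit 0) .nil)))))))) (.g (nat_lit 4) .nil .nil))) 
(.lf (nat_lit 88891) (.g (nat_lit 3956) (.e (nat_lit 2030) (nat_lit 140) (.e (nat_lit 688177) (nat_lit 16) (.e (nat_lit 65586) (nat_lit 7) (.e (nat_lit 319531) (nat_lit 16) (.e (nat_lit 286748) (nat_lit 9) (.e (nat_lit 336295) (nat_lit 15) (.e (nat_lit 3632) (nat_lit 227) (.e (nat_lit 778241) (nat_lit 0) (.e (nat_lit 1035) (nat_lit 81) .nil))))))))) (.g (nat_lit 7) .nil .nil)))))) 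
(.nd (nat_lit 3) (.nd (nat_lit 4) (.nd (nat_lit 5) 
(.lf (nat_lit 88839) (.g (nat_lit 4904) (.e (nat_lit 2030) (nat_lit 140) (.e (nat_lit 688177) (nat_lit 16) (.e (nat_lit 65583) (nat_lit 7) (.e (nat_lit 319530) (nat_lit 16) (.e (nat_lit 286762) (nat_lit 14) (.e (nat_lit 401437) (nat_lit 9) (.e (nat_lit 426364) (nat_lit 15) .nil))))))) (.g (nat_lit 7) .nil .nil))) 
(.lf (nat_lit 88871) (.g (nat_lit 3184) (.e (nat_lit 2030) (nat_lit 140) (.e (nat_lit 688177) (nat_lit 16) (.e (nat_lit 65586) (nat_lit 7) (.e (nat_lit 319531) (nat_lit 16) (.e (nat_lit 286748) (nat_lit 9) (.e (nat_lit 335907) (nat_lit 0) (.e (nat_lit 970) (nat_lit 81) (.e (nat_lit 5954) (nat_lit 322) (.e (nat_lit 57355) (nat_lit 0) .nil))))))))) (.g (nat_lit 5) .nil .nil)))) (.nd (nat_lit 5) 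
(.lf (nat_lit 88855) (.g (nat_lit 2590) (.e (nat_lit 2030) (nat_lit 140) (.e (nat_lit 688177) (nat_lit 16) (.e (nat_lit 65585) (nat_lit 7) (.e (nat_lit 319534) (nat_lit 16) (.e (nat_lit 286756) (nat_lit 10) (.e (nat_lit 344169) (nat_lit 40) (.e (nat_lit 671748) (nat_lit 0) (.e (nat_lit 1047) (nat_lit 81) .nil)))))))) (.g (nat_lit 4) .nil .nil))) 
(.lf (nat_lit 88887) (.g (nat_lit 2394) (.e (nat_lit 2030) (nat_lit 140) (.e (nat_lit 688177) (nat_lit 16) (.e (nat_lit 65586) (nat_lit 7) (.e (nat_lit 319531) (nat_lit 16) (.e (nat_lit 286748) (nat_lit 9) (.e (nat_lit 336295) (nat_lit 15) (.e (nat_lit 3632) (nat_lit 227) (.e (nat_lit 778241) (nat_lit 0) (.e (nat_lit 1021) (nat_lit 81) .nil))))))))) (.g (nat_lit 4) .nil .nil))))) 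
(.nd (nat_lit 4) (.nd (nat_lit 5) 
(.lf (nat_lit 88847) (.g (nat_lit 3076) (.e (nat_lit 2030) (nat_lit 140) (.e (nat_lit 688177) (nat_lit 16) (.e (nat_lit 65583) (nat_lit 7) (.e (nat_lit 319533) (nat_lit 16) (.e (nat_lit 286753) (nat_lit 10) (.e (nat_lit 344169) (nat_lit 40) (.e (nat_lit 671748) (nat_lit 0) (.e (nat_lit 1032) (nat_lit 81) .nil)))))))) (.g (nat_lit 4) .nil .nil))) 
(.lf (nat_lit 88879) (.g (nat_lit 1765) (.e (nat_lit 2030) (nat_lit 140) (.e (nat_lit 688177) (nat_lit 16) (.e (nat_lit 65586) (nat_lit 7) (.e (nat_lit 319531) (nat_lit 16) (.e (nat_lit 286748) (nat_lit 9) (.e (nat_lit 336295) (nat_lit 15) (.e (nat_lit 3630) (nat_lit 227) (.e (nat_lit 778248) (nat_lit 0) (.e (nat_lit 1046) (nat_lit 81) .nil))))))))) (.g (nat_lit 4) .nil .nil)))) (.nd (nat_lit 5) 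
(.lf (nat_lit 88863) (.g (nat_lit 2270) (.e (nat_lit 2030) (nat_lit 140) (.e (nat_lit 688177) (nat_lit 16) (.e (nat_lit 65586) (nat_lit 7) (.e (nat_lit 319531) (nat_lit 16) (.e (nat_lit 286739) (nat_lit 7) (.e (nat_lit 319539) (nat_lit 19) (.e (nat_lit 311348) (nat_lit 15) .nil))))))) (.g (nat_lit 4) .nil .nil))) 
(.lf (nat_lit 88895) (.g (nat_lit 3042) (.e (nat_lit 2030) (nat_lit 140) (.e (nat_lit 688177) (nat_lit 16) (.e (nat_lit 65586) (nat_lit 7) (.e (nat_lit 319531) (nat_lit 16) (.e (nat_lit 286748) (nat_lit 9) (.e (nat_lit 336295) (nat_lit 15) (.e (nat_lit 3632) (nat_lit 227) (.e (nat_lit 778246) (nat_lit 0) (.e (nat_lit 1026) (nat_lit 81) .nil))))))))) (.g (nat_lit 5) .nil .nil)))))))))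

noncomputable def tv1213 : DT := (.nd (nat_lit 0) (.nd (nat_lit 1) (.nd (nat_lit 2) (.nd (nat_lit 3) (.nd (nat_lit 4) (.nd (nat_lit 5) 
(.lf (nat_lit 88896) (.g (nat_lit 3278) (.e (nat_lit 2030) (nat_lit 140) (.e (nat_lit 688177) (nat_lit 16) (.e (nat_lit 65586) (nat_lit 7) (.e (nat_lit 319531) (nat_lit 16) (.e (nat_lit 286748) (nat_lit 9) (.e (nat_lit 336295) (nat_lit 15) (.e (nat_lit 3632) (nat_lit 227) (.e (nat_lit 778246) (nat_lit 0) (.e (nat_lit 1030) (nat_lit 81) .nil))))))))) (.g (nat_lit 6) .nil .nil))) 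
(.lf (nat_lit 88928) (.g (nat_lit 3778) (.e (nat_lit 2030) (nat_lit 140) (.e (nat_lit 688177) (nat_lit 16) (.e (nat_lit 65586) (nat_lit 7) (.e (nat_lit 319531) (nat_lit 16) (.e (nat_lit 286748) (nat_lit 9) (.e (nat_lit 336295) (nat_lit 15) (.e (nat_lit 3748) (nat_lit 228) (.e (nat_lit 794368) (nat_lit 15) .nil)))))))) (.g (nat_lit 7) .nil .nil)))) (.nd (nat_lit 5) 
(.lf (nat_lit 88912) (.g (nat_lit 3836) (.e (nat_lit 2030) (nat_lit 140) (.e (nat_lit 688177) (nat_lit 16) (.e (nat_lit 65586) (nat_lit 7) (.e (nat_lit 319531) (nat_lit 16) (.e (nat_lit 286748) (nat_lit 9) (.e (nat_lit 336295) (nat_lit 15) (.e (nat_lit 3666) (nat_lit 227) (.e (nat_lit 778266) (nat_lit 0) (.e (nat_lit 1019) (nat_lit 81) .nil))))))))) (.g (nat_lit 6) .nil .nil))) 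
(.lf (nat_lit 88944) (.g (nat_lit 4697) (.e (nat_lit 2030) (nat_lit 140) (.e (nat_lit 688177) (nat_lit 16) (.e (nat_lit 65586) (nat_lit 7) (.e (nat_lit 319531) (nat_lit 16) (.e (nat_lit 286753) (nat_lit 10) (.e (nat_lit 344169) (nat_lit 40) (.e (nat_lit 671748) (nat_lit 0) (.e (nat_lit 1035) (nat_lit 81) .nil)))))))) (.g (nat_lit 6) .nil .nil))))) (.nd (nat_lit 4) (.nd (nat_lit 5) 
(.lf (nat_lit 88904) (.g (nat_lit 2603) (.e (nat_lit 2030) (nat_lit 140) (.e (nat_lit 688177) (nat_lit 16) (.e (nat_lit 65586) (nat_lit 7) (.e (nat_lit 319531) (nat_lit 16) (.e (nat_lit 286748) (nat_lit 9) (.e (nat_lit 336295) (nat_lit 15) (.e (nat_lit 3632) (nat_lit 227) (.e (nat_lit 778267) (nat_lit 0) (.e (nat_lit 1019) (nat_lit 81) .nil))))))))) (.g (nat_lit 4) .nil .nil))) 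
(.lf (nat_lit 88936) (.g (nat_lit 3842) (.e (nat_lit 2030) (nat_lit 140) (.e (nat_lit 688177) (nat_lit 16) (.e (nat_lit 65586) (nat_lit 7) (.e (nat_lit 319531) (nat_lit 16) (.e (nat_lit 286752) (nat_lit 10) (.e (nat_lit 344169) (nat_lit 40) (.e (nat_lit 671748) (nat_lit 0) (.e (nat_lit 1032) (nat_lit 81) .nil)))))))) (.g (nat_lit 5) .nil .nil)))) (.nd (nat_lit 5) 
(.lf (nat_lit 88920) (.g (nat_lit 2042) (.e (nat_lit 2030) (nat_lit 140) (.e (nat_lit 688177) (nat_lit 16) (.e (nat_lit 65586) (nat_lit 7) (.e (nat_lit 319531) (nat_lit 16) (.e (nat_lit 286748) (nat_lit 9) (.e (nat_lit 336295) (nat_lit 15) (.e (nat_lit 3746) (nat_lit 228) (.e (nat_lit 786446) (nat_lit 15) .nil)))))))) (.g (nat_lit 4) .nil .nil))) 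
(.lf (nat_lit 88952) (.g (nat_lit 4265) (.e (nat_lit 2030) (nat_lit 140) (.e (nat_lit 688177) (nat_lit 16) (.e (nat_lit 65586) (nat_lit 7) (.e (nat_lit 319531) (nat_lit 16) (.e (nat_lit 286755) (nat_lit 10) (.e (nat_lit 344169) (nat_lit 40) (.e (nat_lit 671748) (nat_lit 0) (.e (nat_lit 1035) (nat_lit 81) .nil)))))))) (.g (nat_lit 6) .nil .nil)))))) 
(.nd (nat_lit 3) (.nd (nat_lit 4) (.nd (nat_lit 5) 
(.lf (nat_lit 88900) (.g (nat_lit 2227) (.e (nat_lit 2030) (nat_lit 140) (.e (nat_lit 688177) (nat_lit 16) (.e (nat_lit 65586) (nat_lit 7) (.e (nat_lit 319531) (nat_lit 16) (.e (nat_lit 286748) (nat_lit 9) (.e (nat_lit 336295) (nat_lit 15) (.e (nat_lit 3632) (nat_lit 227) (.e (nat_lit 778251) (nat_lit 0) (.e (nat_lit 1031) (nat_lit 81) .nil))))))))) (.g (nat_lit 4) .nil .nil))) 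
(.lf (nat_lit 88932) (.g (nat_lit 2468) (.e (nat_lit 2030) (nat_lit 140) (.e (nat_lit 688177) (nat_lit 16) (.e (nat_lit 65586) (nat_lit 7) (.e (nat_lit 319531) (nat_lit 16) (.e (nat_lit 286752) (nat_lit 10) (.e (nat_lit 344169) (nat_lit 40) (.e (nat_lit 671746) (nat_lit 0) (.e (nat_lit 1048) (nat_lit 81) .nil)))))))) (.g (nat_lit 4) .nil .nil)))) (.nd (nat_lit 5) 
(.lf (nat_lit 88916) (.g (nat_lit 2821) (.e (nat_lit 2030) (nat_lit 140) (.e (nat_lit 688177) (nat_lit 16) (.e (nat_lit 65586) (nat_lit 7) (.e (nat_lit 319531) (nat_lit 16) (.e (nat_lit 286748) (nat_lit 9) (.e (nat_lit 336295) (nat_lit 15) (.e (nat_lit 3733) (nat_lit 228) (.e (nat_lit 794368) (nat_lit 15) .nil)))))))) (.g (nat_lit 6) .nil .nil))) 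
(.lf (nat_lit 88948) (.g (nat_lit 4078) (.e (nat_lit 2030) (nat_lit 140) (.e (nat_lit 688177) (nat_lit 16) (.e (nat_lit 65586) (nat_lit 7) (.e (nat_lit 319531) (nat_lit 16) (.e (nat_lit 286755) (nat_lit 10) (.e (nat_lit 344169) (nat_lit 40) (.e (nat_lit 671748) (nat_lit 0) (.e (nat_lit 1025) (nat_lit 81) .nil)))))))) (.g (nat_lit 6) .nil .nil))))) (.nd (nat_lit 4) (.nd (nat_lit 5) 
(.lf (nat_lit 88908) (.g (nat_lit 1942) (.e (nat_lit 2030) (nat_lit 140) (.e (nat_lit 688177) (nat_lit 16) (.e (nat_lit 65586) (nat_lit 7) (.e (nat_lit 319531) (nat_lit 16) (.e (nat_lit 286748) (nat_lit 9) (.e (nat_lit 336295) (nat_lit 15) (.e (nat_lit 3632) (nat_lit 227) (.e (nat_lit 778307) (nat_lit 0) (.e (nat_lit 7936) (nat_lit 81) .nil))))))))) (.g (nat_lit 4) .nil .nil))) 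
(.lf (nat_lit 88940) (.g (nat_lit 4510) (.e (nat_lit 2030) (nat_lit 140) (.e (nat_lit 688177) (nat_lit 16) (.e (nat_lit 65586) (nat_lit 7) (.e (nat_lit 319531) (nat_lit 16) (.e (nat_lit 286753) (nat_lit 10) (.e (nat_lit 344169) (nat_lit 40) (.e (nat_lit 671748) (nat_lit 0) (.e (nat_lit 1025) (nat_lit 81) .nil)))))))) (.g (nat_lit 6) .nil .nil)))) (.nd (nat_lit 5) 
(.lf (nat_lit 88924) (.g (nat_lit 4427) (.e (nat_lit 2030) (nat_lit 140) (.e (nat_lit 688177) (nat_lit 16) (.e (nat_lit 65586) (nat_lit 7) (.e (nat_lit 319531) (nat_lit 16) (.e (nat_lit 286748) (nat_lit 9) (.e (nat_lit 336295) (nat_lit 15) (.e (nat_lit 3747) (nat_lit 228) (.e (nat_lit 786447) (nat_lit 15) .nil)))))))) (.g (nat_lit 8) .nil .nil))) 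
(.lf (nat_lit 88956) (.g (nat_lit 2428) (.e (nat_lit 2030) (nat_lit 140) (.e (nat_lit 688177) (nat_lit 16) (.e (nat_lit 65586) (nat_lit 7) (.e (nat_lit 319531) (nat_lit 16) (.e (nat_lit 286756) (nat_lit 10) (.e (nat_lit 344169) (nat_lit 40) (.e (nat_lit 671746) (nat_lit 0) (.e (nat_lit 1032) (nat_lit 81) .nil)))))))) (.g (nat_lit 4) .nil .nil))))))) 
(.nd (nat_lit 2) (.nd (nat_lit 3) (.nd (nat_lit 4) (.nd (nat_lit 5) 
(.lf (nat_lit 88898) (.g (nat_lit 4242) (.e (nat_lit 2030) (nat_lit 140) (.e (nat_lit 688177) (nat_lit 16) (.e (nat_lit 65586) (nat_lit 7) (.e (nat_lit 319531) (nat_lit 16) (.e (nat_lit 286748) (nat_lit 9) (.e (nat_lit 336295) (nat_lit 15) (.e (nat_lit 3632) (nat_lit 227) (.e (nat_lit 778246) (nat_lit 0) (.e (nat_lit 1035) (nat_lit 81) .nil))))))))) (.g (nat_lit 7) .nil .nil))) 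
(.lf (nat_lit 88930) (.g (nat_lit 2956) (.e (nat_lit 2030) (nat_lit 140) (.e (nat_lit 688177) (nat_lit 16) (.e (nat_lit 65586) (nat_lit 7) (.e (nat_lit 319531) (nat_lit 16) (.e (nat_lit 286751) (nat_lit 10) (.e (nat_lit 344169) (nat_lit 40) (.e (nat_lit 671748) (nat_lit 0) (.e (nat_lit 1047) (nat_lit 81) .nil)))))))) (.g (nat_lit 4) .nil .nil)))) (.nd (nat_lit 5) 
(.lf (nat_lit 88914) (.g (nat_lit 3959) (.e (nat_lit 2030) (nat_lit 140) (.e (nat_lit 688177) (nat_lit 16) (.e (nat_lit 65586) (nat_lit 7) (.e (nat_lit 319531) (nat_lit 16) (.e (nat_lit 286748) (nat_lit 9) (.e (nat_lit 336295) (nat_lit 15) (.e (nat_lit 3733) (nat_lit 228) (.e (nat_lit 786444) (nat_lit 15) .nil)))))))) (.g (nat_lit 8) .nil .nil))) 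
(.lf (nat_lit 88946) (.g (nat_lit 4356) (.e (nat_lit 2030) (nat_lit 140) (.e (nat_lit 688177) (nat_lit 16) (.e (nat_lit 65586) (nat_lit 7) (.e (nat_lit 319531) (nat_lit 16) (.e (nat_lit 286753) (nat_lit 10) (.e (nat_lit 344169) (nat_lit 40) (.e (nat_lit 671748) (nat_lit 0) (.e (nat_lit 1048) (nat_lit 81) .nil)))))))) (.g (nat_lit 5) .nil .nil))))) (.nd (nat_lit 4) (.nd (nat_lit 5) 
(.lf (nat_lit 88906) (.g (nat_lit 2159) (.e (nat_lit 2030) (nat_lit 140) (.e (nat_lit 688177) (nat_lit 16) (.e (nat_lit 65586) (nat_lit 7) (.e (nat_lit 319531) (nat_lit 16) (.e (nat_lit 286748) (nat_lit 9) (.e (nat_lit 336295) (nat_lit 15) (.e (nat_lit 3632) (nat_lit 227) (.e (nat_lit 778298) (nat_lit 0) (.e (nat_lit 1019) (nat_lit 81) .nil))))))))) (.g (nat_lit 4) .nil .nil))) 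
(.lf (nat_lit 88938) (.g (nat_lit 2743) (.e (nat_lit 2030) (nat_lit 140) (.e (nat_lit 688177) (nat_lit 16) (.e (nat_lit 65586) (nat_lit 7) (.e (nat_lit 319531) (nat_lit 16) (.e (nat_lit 286753) (nat_lit 10) (.e (nat_lit 344169) (nat_lit 40) (.e (nat_lit 671746) (nat_lit 0) (.e (nat_lit 1048) (nat_lit 81) .nil)))))))) (.g (nat_lit 4) .nil .nil)))) (.nd (nat_lit 5) 
(.lf (nat_lit 88922) (.g (nat_lit 4406) (.e (nat_lit 2030) (nat_lit 140) (.e (nat_lit 688177) (nat_lit 16) (.e (nat_lit 65586) (nat_lit 7) (.e (nat_lit 319531) (nat_lit 16) (.e (nat_lit 286748) (nat_lit 9) (.e (nat_lit 336295) (nat_lit 15) (.e (nat_lit 3747) (nat_lit 228) (.e (nat_lit 786444) (nat_lit 15) .nil)))))))) (.g (nat_lit 8) .nil .nil))) 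
(.lf (nat_lit 88954) (.g (nat_lit 2223) (.e (nat_lit 2030) (nat_lit 140) (.e (nat_lit 688177) (nat_lit 16) (.e (nat_lit 65586) (nat_lit 7) (.e (nat_lit 319531) (nat_lit 16) (.e (nat_lit 286756) (nat_lit 10) (.e (nat_lit 344169) (nat_lit 40) (.e (nat_lit 671746) (nat_lit 0) (.e (nat_lit 1025) (nat_lit 81) .nil)))))))) (.g (nat_lit 4) .nil .nil)))))) 
(.nd (nat_lit 3) (.nd (nat_lit 4) (.nd (nat_lit 5) 
(.lf (nat_lit 88902) (.g (nat_lit 4316) (.e (nat_lit 2030) (nat_lit 140) (.e (nat_lit 688177) (nat_lit 16) (.e (nat_lit 65586) (nat_lit 7) (.e (nat_lit 319531) (nat_lit 16) (.e (nat_lit 286748) (nat_lit 9) (.e (nat_lit 336295) (nat_lit 15) (.e (nat_lit 3632) (nat_lit 227) (.e (nat_lit 778253) (nat_lit 0) (.e (nat_lit 1020) (nat_lit 81) .nil))))))))) (.g (nat_lit 7) .nil .nil))) 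
(.lf (nat_lit 88934) (.g (nat_lit 3365) (.e (nat_lit 2030) (nat_lit 140) (.e (nat_lit 688177) (nat_lit 16) (.e (nat_lit 65586) (nat_lit 7) (.e (nat_lit 319531) (nat_lit 16) (.e (nat_lit 286752) (nat_lit 10) (.e (nat_lit 344169) (nat_lit 40) (.e (nat_lit 671748) (nat_lit 0) (.e (nat_lit 1027) (nat_lit 81) .nil)))))))) (.g (nat_lit 4) .nil .nil)))) (.nd (nat_lit 5) 
(.lf (nat_lit 88918) (.g (nat_lit 3979) (.e (nat_lit 2030) (nat_lit 140) (.e (nat_lit 688177) (nat_lit 16) (.e (nat_lit 65586) (nat_lit 7) (.e (nat_lit 319531) (nat_lit 16) (.e (nat_lit 286748) (nat_lit 9) (.e (nat_lit 336295) (nat_lit 15) (.e (nat_lit 3745) (nat_lit 228) (.e (nat_lit 786447) (nat_lit 15) .nil)))))))) (.g (nat_lit 0) .nil .nil))) 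
(.lf (nat_lit 88950) (.g (nat_lit 3001) (.e (nat_lit 2030) (nat_lit 140) (.e (nat_lit 688177) (nat_lit 16) (.e (nat_lit 65586) (nat_lit 7) (.e (nat_lit 319531) (nat_lit 16) (.e (nat_lit 286755) (nat_lit 10) (.e (nat_lit 344169) (nat_lit 40) (.e (nat_lit 671748) (nat_lit 0) (.e (nat_lit 1029) (nat_lit 81) .nil)))))))) (.g (nat_lit 4) .nil .nil))))) (.nd (nat_lit 4) (.nd (nat_lit 5) 
(.lf (nat_lit 88910) (.g (nat_lit 2236) (.e (nat_lit 2030) (nat_lit 140) (.e (nat_lit 688177) (nat_lit 16) (.e (nat_lit 65586) (nat_lit 7) (.e (nat_lit 319531) (nat_lit 16) (.e (nat_lit 286748) (nat_lit 9) (.e (nat_lit 336295) (nat_lit 15) (.e (nat_lit 3638) (nat_lit 227) (.e (nat_lit 778269) (nat_lit 0) (.e (nat_lit 1019) (nat_lit 81) .nil))))))))) (.g (nat_lit 4) .nil .nil))) 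
(.lf (nat_lit 88942) (.g (nat_lit 3433) (.e (nat_lit 2030) (nat_lit 140) (.e (nat_lit 688177) (nat_lit 16) (.e (nat_lit 65586) (nat_lit 7) (.e (nat_lit 319531) (nat_lit 16) (.e (nat_lit 286753) (nat_lit 10) (.e (nat_lit 344169) (nat_lit 40) (.e (nat_lit 671748) (nat_lit 0) (.e (nat_lit 1029) (nat_lit 81) .nil)))))))) (.g (nat_lit 4) .nil .nil)))) (.nd (nat_lit 5) 
(.lf (nat_lit 88926) (.g (nat_lit 4638) (.e (nat_lit 2030) (nat_lit 140) (.e (nat_lit 688177) (nat_lit 16) (.e (nat_lit 65586) (nat_lit 7) (.e (nat_lit 319531) (nat_lit 16) (.e (nat_lit 286748) (nat_lit 9) (.e (nat_lit 336295) (nat_lit 15) (.e (nat_lit 3748) (nat_lit 228) (.e (nat_lit 786444) (nat_lit 15) .nil)))))))) (.g (nat_lit 0) .nil .nil))) 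
(.lf (nat_lit 88958) (.g (nat_lit 2728) (.e (nat_lit 2030) (nat_lit 140) (.e (nat_lit 688177) (nat_lit 16) (.e (nat_lit 65586) (nat_lit 7) (.e (nat_lit 319531) (nat_lit 16) (.e (nat_lit 286756) (nat_lit 10) (.e (nat_lit 344169) (nat_lit 40) (.e (nat_lit 671746) (nat_lit 0) (.e (nat_lit 1048) (nat_lit 81) .nil)))))))) (.g (nat_lit 4) .nil .nil)))))))) 
(.nd (nat_lit 1) (.nd (nat_lit 2) (.nd (nat_lit 3) (.nd (nat_lit 4) (.nd (nat_lit 5) 
(.lf (nat_lit 88897) (.g (nat_lit 3256) (.e (nat_lit 2030) (nat_lit 140) (.e (nat_lit 688177) (nat_lit 16) (.e (nat_lit 65586) (nat_lit 7) (.e (nat_lit 319531) (nat_lit 16) (.e (nat_lit 286748) (nat_lit 9) (.e (nat_lit 336295) (nat_lit 15) (.e (nat_lit 3632) (nat_lit 227) (.e (nat_lit 778246) (nat_lit 0) (.e (nat_lit 1034) (nat_lit 81) .nil))))))))) (.g (nat_lit 6) .nil .nil))) 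
(.lf (nat_lit 88929) (.g (nat_lit 1870) (.e (nat_lit 2030) (nat_lit 140) (.e (nat_lit 688177) (nat_lit 16) (.e (nat_lit 65586) (nat_lit 7) (.e (nat_lit 319531) (nat_lit 16) (.e (nat_lit 286748) (nat_lit 9) (.e (nat_lit 336295) (nat_lit 15) (.e (nat_lit 7936) (nat_lit 228) (.e (nat_lit 786444) (nat_lit 15) .nil)))))))) (.g (nat_lit 4) .nil .nil)))) (.nd (nat_lit 5) 
(.lf (nat_lit 88913) (.g (nat_lit 2036) (.e (nat_lit 2030) (nat_lit 140) (.e (nat_lit 688177) (nat_lit 16) (.e (nat_lit 65586) (nat_lit 7) (.e (nat_lit 319531) (nat_lit 16) (.e (nat_lit 286748) (nat_lit 9) (.e (nat_lit 336295) (nat_lit 15) (.e (nat_lit 3681) (nat_lit 227) (.e (nat_lit 778280) (nat_lit 0) (.e (nat_lit 1046) (nat_lit 81) .nil))))))))) (.g (nat_lit 4) .nil .nil))) 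
(.lf (nat_lit 88945) (.g (nat_lit 5838) (.e (nat_lit 2030) (nat_lit 140) (.e (nat_lit 688177) (nat_lit 16) (.e (nat_lit 65586) (nat_lit 7) (.e (nat_lit 319531) (nat_lit 16) (.e (nat_lit 286753) (nat_lit 10) (.e (nat_lit 344169) (nat_lit 40) (.e (nat_lit 671748) (nat_lit 0) (.e (nat_lit 1047) (nat_lit 81) .nil)))))))) (.g (nat_lit 7) .nil .nil))))) (.nd (nat_lit 4) (.nd (nat_lit 5) 
(.lf (nat_lit 88905) (.g (nat_lit 4380) (.e (nat_lit 2030) (nat_lit 140) (.e (nat_lit 688177) (nat_lit 16) (.e (nat_lit 65586) (nat_lit 7) (.e (nat_lit 319531) (nat_lit 16) (.e (nat_lit 286748) (nat_lit 9) (.e (nat_lit 336295) (nat_lit 15) (.e (nat_lit 3632) (nat_lit 227) (.e (nat_lit 778290) (nat_lit 0) (.e (nat_lit 1017) (nat_lit 81) .nil))))))))) (.g (nat_lit 7) .nil .nil))) 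
(.lf (nat_lit 88937) (.g (nat_lit 4465) (.e (nat_lit 2030) (nat_lit 140) (.e (nat_lit 688177) (nat_lit 16) (.e (nat_lit 65586) (nat_lit 7) (.e (nat_lit 319531) (nat_lit 16) (.e (nat_lit 286752) (nat_lit 10) (.e (nat_lit 344169) (nat_lit 40) (.e (nat_lit 671748) (nat_lit 0) (.e (nat_lit 1035) (nat_lit 81) .nil)))))))) (.g (nat_lit 6) .nil .nil)))) (.nd (nat_lit 5) 
(.lf (nat_lit 88921) (.g (nat_lit 3433) (.e (nat_lit 2030) (nat_lit 140) (.e (nat_lit 688177) (nat_lit 16) (.e (nat_lit 65586) (nat_lit 7) (.e (nat_lit 319531) (nat_lit 16) (.e (nat_lit 286748) (nat_lit 9) (.e (nat_lit 336295) (nat_lit 15) (.e (nat_lit 3746) (nat_lit 228) (.e (nat_lit 794368) (nat_lit 15) .nil)))))))) (.g (nat_lit 7) .nil .nil))) 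
(.lf (nat_lit 88953) (.g (nat_lit 5414) (.e (nat_lit 2030) (nat_lit 140) (.e (nat_lit 688177) (nat_lit 16) (.e (nat_lit 65586) (nat_lit 7) (.e (nat_lit 319531) (nat_lit 16) (.e (nat_lit 286755) (nat_lit 10) (.e (nat_lit 344169) (nat_lit 40) (.e (nat_lit 671748) (nat_lit 0) (.e (nat_lit 1047) (nat_lit 81) .nil)))))))) (.g (nat_lit 7) .nil .nil)))))) 
(.nd (nat_lit 3) (.nd (nat_lit 4) (.nd (nat_lit 5) 
(.lf (nat_lit 88901) (.g (nat_lit 4197) (.e (nat_lit 2030) (nat_lit 140) (.e (nat_lit 688177) (nat_lit 16) (.e (nat_lit 65586) (nat_lit 7) (.e (nat_lit 319531) (nat_lit 16) (.e (nat_lit 286748) (nat_lit 9) (.e (nat_lit 336295) (nat_lit 15) (.e (nat_lit 3632) (nat_lit 227) (.e (nat_lit 778253) (nat_lit 0) (.e (nat_lit 1017) (nat_lit 81) .nil))))))))) (.g (nat_lit 7) .nil .nil))) 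
(.lf (nat_lit 88933) (.g (nat_lit 4278) (.e (nat_lit 2030) (nat_lit 140) (.e (nat_lit 688177) (nat_lit 16) (.e (nat_lit 65586) (nat_lit 7) (.e (nat_lit 319531) (nat_lit 16) (.e (nat_lit 286752) (nat_lit 10) (.e (nat_lit 344169) (nat_lit 40) (.e (nat_lit 671748) (nat_lit 0) (.e (nat_lit 1025) (nat_lit 81) .nil)))))))) (.g (nat_lit 6) .nil .nil)))) (.nd (nat_lit 5) 
(.lf (nat_lit 88917) (.g (nat_lit 3854) (.e (nat_lit 2030) (nat_lit 140) (.e (nat_lit 688177) (nat_lit 16) (.e (nat_lit 65586) (nat_lit 7) (.e (nat_lit 319531) (nat_lit 16) (.e (nat_lit 286748) (nat_lit 9) (.e (nat_lit 336295) (nat_lit 15) (.e (nat_lit 3745) (nat_lit 228) (.e (nat_lit 786444) (nat_lit 15) .nil)))))))) (.g (nat_lit 8) .nil .nil))) 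
(.lf (nat_lit 88949) (.g (nat_lit 3165) (.e (nat_lit 2030) (nat_lit 140) (.e (nat_lit 688177) (nat_lit 16) (.e (nat_lit 65586) (nat_lit 7) (.e (nat_lit 319531) (nat_lit 16) (.e (nat_lit 286755) (nat_lit 10) (.e (nat_lit 344169) (nat_lit 40) (.e (nat_lit 671748) (nat_lit 0) (.e (nat_lit 1027) (nat_lit 81) .nil)))))))) (.g (nat_lit 4) .nil .nil))))) (.nd (nat_lit 4) (.nd (nat_lit 5) 
(.lf (nat_lit 88909) (.g (nat_lit 2492) (.e (nat_lit 2030) (nat_lit 140) (.e (nat_lit 688177) (nat_lit 16) (.e (nat_lit 65586) (nat_lit 7) (.e (nat_lit 319531) (nat_lit 16) (.e (nat_lit 286748) (nat_lit 9) (.e (nat_lit 336295) (nat_lit 15) (.e (nat_lit 3632) (nat_lit 227) (.e (nat_lit 778309) (nat_lit 0) (.e (nat_lit 1019) (nat_lit 81) .nil))))))))) (.g (nat_lit 4) .nil .nil))) 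
(.lf (nat_lit 88941) (.g (nat_lit 3597) (.e (nat_lit 2030) (nat_lit 140) (.e (nat_lit 688177) (nat_lit 16) (.e (nat_lit 65586) (nat_lit 7) (.e (nat_lit 319531) (nat_lit 16) (.e (nat_lit 286753) (nat_lit 10) (.e (nat_lit 344169) (nat_lit 40) (.e (nat_lit 671748) (nat_lit 0) (.e (nat_lit 1027) (nat_lit 81) .nil)))))))) (.g (nat_lit 4) .nil .nil)))) (.nd (nat_lit 5) 
(.lf (nat_lit 88925) (.g (nat_lit 3845) (.e (nat_lit 2030) (nat_lit 140) (.e (nat_lit 688177) (nat_lit 16) (.e (nat_lit 65586) (nat_lit 7) (.e (nat_lit 319531) (nat_lit 16) (.e (nat_lit 286748) (nat_lit 9) (.e (nat_lit 336295) (nat_lit 15) (.e (nat_lit 3747) (nat_lit 228) (.e (nat_lit 794368) (nat_lit 15) .nil)))))))) (.g (nat_lit 7) .nil .nil))) 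
(.lf (nat_lit 88957) (.g (nat_lit 2660) (.e (nat_lit 2030) (nat_lit 140) (.e (nat_lit 688177) (nat_lit 16) (.e (nat_lit 65586) (nat_lit 7) (.e (nat_lit 319531) (nat_lit 16) (.e (nat_lit 286756) (nat_lit 10) (.e (nat_lit 344169) (nat_lit 40) (.e (nat_lit 671746) (nat_lit 0) (.e (nat_lit 1035) (nat_lit 81) .nil)))))))) (.g (nat_lit 4) .nil .nil))))))) 
(.nd (nat_lit 2) (.nd (nat_lit 3) (.nd (nat_lit 4) (.nd (nat_lit 5) 
(.lf (nat_lit 88899) (.g (nat_lit 3901) (.e (nat_lit 2030) (nat_lit 140) (.e (nat_lit 688177) (nat_lit 16) (.e (nat_lit 65586) (nat_lit 7) (.e (nat_lit 319531) (nat_lit 16) (.e (nat_lit 286748) (nat_lit 9) (.e (nat_lit 336295) (nat_lit 15) (.e (nat_lit 3632) (nat_lit 227) (.e (nat_lit 778246) (nat_lit 0) (.e (nat_lit 1048) (nat_lit 81) .nil))))))))) (.g (nat_lit 7) .nil .nil))) 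
(.lf (nat_lit 88931) (.g (nat_lit 2449) (.e (nat_lit 2030) (nat_lit 140) (.e (nat_lit 688177) (nat_lit 16) (.e (nat_lit 65586) (nat_lit 7) (.e (nat_lit 319531) (nat_lit 16) (.e (nat_lit 286752) (nat_lit 10) .nil))))) .nil))) (.nd (nat_lit 5) 
(.lf (nat_lit 88915) (.g (nat_lit 3746) (.e (nat_lit 2030) (nat_lit 140) (.e (nat_lit 688177) (nat_lit 16) (.e (nat_lit 65586) (nat_lit 7) (.e (nat_lit 319531) (nat_lit 16) (.e (nat_lit 286748) (nat_lit 9) (.e (nat_lit 336295) (nat_lit 15) (.e (nat_lit 3733) (nat_lit 228) (.e (nat_lit 786446) (nat_lit 15) .nil)))))))) (.g (nat_lit 7) .nil .nil))) 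
(.lf (nat_lit 88947) (.g (nat_lit 2393) (.e (nat_lit 2030) (nat_lit 140) (.e (nat_lit 688177) (nat_lit 16) (.e (nat_lit 65586) (nat_lit 7) (.e (nat_lit 319531) (nat_lit 16) (.e (nat_lit 286755) (nat_lit 10) .nil))))) .nil)))) (.nd (nat_lit 4) (.nd (nat_lit 5) 
(.lf (nat_lit 88907) (.g (nat_lit 2520) (.e (nat_lit 2030) (nat_lit 140) (.e (nat_lit 688177) (nat_lit 16) (.e (nat_lit 65586) (nat_lit 7) (.e (nat_lit 319531) (nat_lit 16) (.e (nat_lit 286748) (nat_lit 9) (.e (nat_lit 336295) (nat_lit 15) (.e (nat_lit 3632) (nat_lit 227) (.e (nat_lit 778299) (nat_lit 0) (.e (nat_lit 1019) (nat_lit 81) .nil))))))))) (.g (nat_lit 4) .nil .nil))) 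
(.lf (nat_lit 88939) (.g (nat_lit 3856) (.e (nat_lit 2030) (nat_lit 140) (.e (nat_lit 688177) (nat_lit 16) (.e (nat_lit 65586) (nat_lit 7) (.e (nat_lit 319531) (nat_lit 16) (.e (nat_lit 286753) (nat_lit 10) (.e (nat_lit 344169) (nat_lit 40) (.e (nat_lit 671748) (nat_lit 0) (.e (nat_lit 1022) (nat_lit 81) .nil)))))))) (.g (nat_lit 5) .nil .nil)))) (.nd (nat_lit 5) 
(.lf (nat_lit 88923) (.g (nat_lit 4436) (.e (nat_lit 2030) (nat_lit 140) (.e (nat_lit 688177) (nat_lit 16) (.e (nat_lit 65586) (nat_lit 7) (.e (nat_lit 319531) (nat_lit 16) (.e (nat_lit 286748) (nat_lit 9) (.e (nat_lit 336295) (nat_lit 15) (.e (nat_lit 3747) (nat_lit 228) (.e (nat_lit 786446) (nat_lit 15) .nil)))))))) (.g (nat_lit 8) .nil .nil))) 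
(.lf (nat_lit 88955) (.g (nat_lit 2670) (.e (nat_lit 2030) (nat_lit 140) (.e (nat_lit 688177) (nat_lit 16) (.e (nat_lit 65586) (nat_lit 7) (.e (nat_lit 319531) (nat_lit 16) (.e (nat_lit 286756) (nat_lit 10) (.e (nat_lit 344169) (nat_lit 40) (.e (nat_lit 671746) (nat_lit 0) (.e (nat_lit 1027) (nat_lit 81) .nil)))))))) (.g (nat_lit 4) .nil .nil)))))) 
(.nd (nat_lit 3) (.nd (nat_lit 4) (.nd (nat_lit 5) 
(.lf (nat_lit 88903) (.g (nat_lit 2654) (.e (nat_lit 2030) (nat_lit 140) (.e (nat_lit 688177) (nat_lit 16) (.e (nat_lit 65586) (nat_lit 7) (.e (nat_lit 319531) (nat_lit 16) (.e (nat_lit 286748) (nat_lit 9) (.e (nat_lit 336295) (nat_lit 15) (.e (nat_lit 3632) (nat_lit 227) (.e (nat_lit 778261) (nat_lit 0) (.e (nat_lit 1019) (nat_lit 81) .nil))))))))) (.g (nat_lit 4) .nil .nil))) 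
(.lf (nat_lit 88935) (.g (nat_lit 3201) (.e (nat_lit 2030) (nat_lit 140) (.e (nat_lit 688177) (nat_lit 16) (.e (nat_lit 65586) (nat_lit 7) (.e (nat_lit 319531) (nat_lit 16) (.e (nat_lit 286752) (nat_lit 10) (.e (nat_lit 344169) (nat_lit 40) (.e (nat_lit 671748) (nat_lit 0) (.e (nat_lit 1029) (nat_lit 81) .nil)))))))) (.g (nat_lit 4) .nil .nil)))) (.nd (nat_lit 5) 
(.lf (nat_lit 88919) (.g (nat_lit 3943) (.e (nat_lit 2030) (nat_lit 140) (.e (nat_lit 688177) (nat_lit 16) (.e (nat_lit 65586) (nat_lit 7) (.e (nat_lit 319531) (nat_lit 16) (.e (nat_lit 286748) (nat_lit 9) (.e (nat_lit 336295) (nat_lit 15) (.e (nat_lit 3746) (nat_lit 228) (.e (nat_lit 786444) (nat_lit 15) .nil)))))))) (.g (nat_lit 7) .nil .nil))) 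
(.lf (nat_lit 88951) (.g (nat_lit 3642) (.e (nat_lit 2030) (nat_lit 140) (.e (nat_lit 688177) (nat_lit 16) (.e (nat_lit 65586) (nat_lit 7) (.e (nat_lit 319531) (nat_lit 16) (.e (nat_lit 286755) (nat_lit 10) (.e (nat_lit 344169) (nat_lit 40) (.e (nat_lit 671748) (nat_lit 0) (.e (nat_lit 1032) (nat_lit 81) .nil)))))))) (.g (nat_lit 4) .nil .nil))))) (.nd (nat_lit 4) (.nd (nat_lit 5) 
(.lf (nat_lit 88911) (.g (nat_lit 3753) (.e (nat_lit 2030) (nat_lit 140) (.e (nat_lit 688177) (nat_lit 16) (.e (nat_lit 65586) (nat_lit 7) (.e (nat_lit 319531) (nat_lit 16) (.e (nat_lit 286748) (nat_lit 9) (.e (nat_lit 336295) (nat_lit 15) (.e (nat_lit 3664) (nat_lit 227) (.e (nat_lit 778266) (nat_lit 0) (.e (nat_lit 1019) (nat_lit 81) .nil))))))))) (.g (nat_lit 6) .nil .nil))) 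
(.lf (nat_lit 88943) (.g (nat_lit 4074) (.e (nat_lit 2030) (nat_lit 140) (.e (nat_lit 688177) (nat_lit 16) (.e (nat_lit 65586) (nat_lit 7) (.e (nat_lit 319531) (nat_lit 16) (.e (nat_lit 286753) (nat_lit 10) (.e (nat_lit 344169) (nat_lit 40) (.e (nat_lit 671748) (nat_lit 0) (.e (nat_lit 1032) (nat_lit 81) .nil)))))))) (.g (nat_lit 5) .nil .nil)))) (.nd (nat_lit 5) 
(.lf (nat_lit 88927) (.g (nat_lit 4730) (.e (nat_lit 2030) (nat_lit 140) (.e (nat_lit 688177) (nat_lit 16) (.e (nat_lit 65586) (nat_lit 7) (.e (nat_lit 319531) (nat_lit 16) (.e (nat_lit 286748) (nat_lit 9) (.e (nat_lit 336295) (nat_lit 15) (.e (nat_lit 3748) (nat_lit 228) (.e (nat_lit 786447) (nat_lit 15) .nil)))))))) (.g (nat_lit 0) .nil .nil))) 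
(.lf (nat_lit 88959) (.g (nat_lit 2291) (.e (nat_lit 2030) (nat_lit 140) (.e (nat_lit 688177) (nat_lit 16) (.e (nat_lit 65586) (nat_lit 7) (.e (nat_lit 319531) (nat_lit 16) (.e (nat_lit 286756) (nat_lit 10) (.e (nat_lit 344169) (nat_lit 40) (.e (nat_lit 671747) (nat_lit 0) (.e (nat_lit 1035) (nat_lit 81) .nil)))))))) (.g (nat_lit 4) .nil .nil)))))))))

noncomputable def tv1214 : DT := (.nd (nat_lit 0) (.nd (nat_lit 1) (.nd (nat_lit 2) (.nd (nat_lit 3) (.nd (nat_lit 4) (.nd (nat_lit 5) 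
(.lf (nat_lit 88960) (.g (nat_lit 2053) (.e (nat_lit 2030) (nat_lit 140) (.e (nat_lit 688177) (nat_lit 16) (.e (nat_lit 65586) (nat_lit 7) (.e (nat_lit 319531) (nat_lit 16) (.e (nat_lit 286756) (nat_lit 10) (.e (nat_lit 344169) (nat_lit 40) (.e (nat_lit 671748) (nat_lit 0) (.e (nat_lit 982) (nat_lit 81) .nil)))))))) (.g (nat_lit 4) .nil .nil))) 
(.lf (nat_lit 88992) (.g (nat_lit 3074) (.e (nat_lit 2030) (nat_lit 140) (.e (nat_lit 688177) (nat_lit 16) (.e (nat_lit 65586) (nat_lit 7) (.e (nat_lit 319531) (nat_lit 16) (.e (nat_lit 286759) (nat_lit 12) (.e (nat_lit 385094) (nat_lit 49) (.e (nat_lit 778241) (nat_lit 0) (.e (nat_lit 1018) (nat_lit 81) .nil)))))))) (.g (nat_lit 6) .nil .nil)))) (.nd (nat_lit 5) 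
(.lf (nat_lit 88976) (.g (nat_lit 2794) (.e (nat_lit 2030) (nat_lit 140) (.e (nat_lit 688177) (nat_lit 16) (.e (nat_lit 65586) (nat_lit 7) (.e (nat_lit 319531) (nat_lit 16) (.e (nat_lit 286759) (nat_lit 12) (.e (nat_lit 385092) (nat_lit 49) (.e (nat_lit 778251) (nat_lit 0) (.e (nat_lit 1046) (nat_lit 81) .nil)))))))) (.g (nat_lit 5) .nil .nil))) 
(.lf (nat_lit 89008) (.g (nat_lit 3251) (.e (nat_lit 2030) (nat_lit 140) (.e (nat_lit 688177) (nat_lit 16) (.e (nat_lit 65586) (nat_lit 7) (.e (nat_lit 319531) (nat_lit 16) (.e (nat_lit 286759) (nat_lit 12) (.e (nat_lit 385094) (nat_lit 49) (.e (nat_lit 778246) (nat_lit 0) (.e (nat_lit 1024) (nat_lit 81) .nil)))))))) (.g (nat_lit 5) .nil .nil))))) (.nd (nat_lit 4) (.nd (nat_lit 5) 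
(.lf (nat_lit 88968) (.g (nat_lit 2072) (.e (nat_lit 2030) (nat_lit 140) (.e (nat_lit 688177) (nat_lit 16) (.e (nat_lit 65586) (nat_lit 7) (.e (nat_lit 319531) (nat_lit 16) (.e (nat_lit 286758) (nat_lit 12) (.e (nat_lit 385105) (nat_lit 50) (.e (nat_lit 794368) (nat_lit 15) .nil))))))) (.g (nat_lit 4) .nil .nil))) 
(.lf (nat_lit 89000) (.g (nat_lit 4141) (.e (nat_lit 2030) (nat_lit 140) (.e (nat_lit 688177) (nat_lit 16) (.e (nat_lit 65586) (nat_lit 7) (.e (nat_lit 319531) (nat_lit 16) (.e (nat_lit 286759) (nat_lit 12) (.e (nat_lit 385094) (nat_lit 49) (.e (nat_lit 778241) (nat_lit 0) (.e (nat_lit 1029) (nat_lit 81) .nil)))))))) (.g (nat_lit 6) .nil .nil)))) (.nd (nat_lit 5) 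
(.lf (nat_lit 88984) (.g (nat_lit 2936) (.e (nat_lit 2030) (nat_lit 140) (.e (nat_lit 688177) (nat_lit 16) (.e (nat_lit 65586) (nat_lit 7) (.e (nat_lit 319531) (nat_lit 16) (.e (nat_lit 286759) (nat_lit 12) (.e (nat_lit 385092) (nat_lit 49) (.e (nat_lit 778297) (nat_lit 0) (.e (nat_lit 1023) (nat_lit 81) .nil)))))))) (.g (nat_lit 5) .nil .nil))) 
(.lf (nat_lit 89016) (.g (nat_lit 2830) (.e (nat_lit 2030) (nat_lit 140) (.e (nat_lit 688177) (nat_lit 16) (.e (nat_lit 65586) (nat_lit 7) (.e (nat_lit 319531) (nat_lit 16) (.e (nat_lit 286759) (nat_lit 12) (.e (nat_lit 385094) (nat_lit 49) (.e (nat_lit 778246) (nat_lit 0) (.e (nat_lit 1045) (nat_lit 81) .nil)))))))) (.g (nat_lit 4) .nil .nil)))))) 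
(.nd (nat_lit 3) (.nd (nat_lit 4) (.nd (nat_lit 5) 
(.lf (nat_lit 88964) (.g (nat_lit 3711) (.e (nat_lit 2030) (nat_lit 140) (.e (nat_lit 688177) (nat_lit 16) (.e (nat_lit 65586) (nat_lit 7) (.e (nat_lit 319531) (nat_lit 16) (.e (nat_lit 286756) (nat_lit 10) (.e (nat_lit 344169) (nat_lit 40) (.e (nat_lit 671748) (nat_lit 0) (.e (nat_lit 1032) (nat_lit 81) .nil)))))))) (.g (nat_lit 5) .nil .nil))) 
(.lf (nat_lit 88996) (.g (nat_lit 4032) (.e (nat_lit 2030) (nat_lit 140) (.e (nat_lit 688177) (nat_lit 16) (.e (nat_lit 65586) (nat_lit 7) (.e (nat_lit 319531) (nat_lit 16) (.e (nat_lit 286759) (nat_lit 12) (.e (nat_lit 385094) (nat_lit 49) (.e (nat_lit 778241) (nat_lit 0) (.e (nat_lit 1025) (nat_lit 81) .nil)))))))) (.g (nat_lit 6) .nil .nil)))) (.nd (nat_lit 5) 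
(.lf (nat_lit 88980) (.g (nat_lit 2637) (.e (nat_lit 2030) (nat_lit 140) (.e (nat_lit 688177) (nat_lit 16) (.e (nat_lit 65586) (nat_lit 7) (.e (nat_lit 319531) (nat_lit 16) (.e (nat_lit 286759) (nat_lit 12) (.e (nat_lit 385092) (nat_lit 49) (.e (nat_lit 778271) (nat_lit 0) (.e (nat_lit 1019) (nat_lit 81) .nil)))))))) (.g (nat_lit 4) .nil .nil))) 
(.lf (nat_lit 89012) (.g (nat_lit 3300) (.e (nat_lit 2030) (nat_lit 140) (.e (nat_lit 688177) (nat_lit 16) (.e (nat_lit 65586) (nat_lit 7) (.e (nat_lit 319531) (nat_lit 16) (.e (nat_lit 286759) (nat_lit 12) (.e (nat_lit 385094) (nat_lit 49) (.e (nat_lit 778246) (nat_lit 0) (.e (nat_lit 1029) (nat_lit 81) .nil)))))))) (.g (nat_lit 5) .nil .nil))))) (.nd (nat_lit 4) (.nd (nat_lit 5) 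
(.lf (nat_lit 88972) (.g (nat_lit 3622) (.e (nat_lit 2030) (nat_lit 140) (.e (nat_lit 688177) (nat_lit 16) (.e (nat_lit 65586) (nat_lit 7) (.e (nat_lit 319531) (nat_lit 16) (.e (nat_lit 286759) (nat_lit 12) (.e (nat_lit 385090) (nat_lit 49) (.e (nat_lit 778266) (nat_lit 0) (.e (nat_lit 1019) (nat_lit 81) .nil)))))))) (.g (nat_lit 5) .nil .nil))) 
(.lf (nat_lit 89004) (.g (nat_lit 3912) (.e (nat_lit 2030) (nat_lit 140) (.e (nat_lit 688177) (nat_lit 16) (.e (nat_lit 65586) (nat_lit 7) (.e (nat_lit 319531) (nat_lit 16) (.e (nat_lit 286759) (nat_lit 12) (.e (nat_lit 385094) (nat_lit 49) (.e (nat_lit 778241) (nat_lit 0) (.e (nat_lit 1034) (nat_lit 81) .nil)))))))) (.g (nat_lit 6) .nil .nil)))) (.nd (nat_lit 5) 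
(.lf (nat_lit 88988) (.g (nat_lit 3134) (.e (nat_lit 2030) (nat_lit 140) (.e (nat_lit 688177) (nat_lit 16) (.e (nat_lit 65586) (nat_lit 7) (.e (nat_lit 319531) (nat_lit 16) (.e (nat_lit 286759) (nat_lit 12) (.e (nat_lit 385092) (nat_lit 49) (.e (nat_lit 778305) (nat_lit 0) (.e (nat_lit 1019) (nat_lit 81) .nil)))))))) (.g (nat_lit 5) .nil .nil))) 
(.lf (nat_lit 89020) (.g (nat_lit 3358) (.e (nat_lit 2030) (nat_lit 140) (.e (nat_lit 688177) (nat_lit 16) (.e (nat_lit 65586) (nat_lit 7) (.e (nat_lit 319531) (nat_lit 16) (.e (nat_lit 286759) (nat_lit 12) (.e (nat_lit 385094) (nat_lit 49) (.e (nat_lit 778253) (nat_lit 0) (.e (nat_lit 1021) (nat_lit 81) .nil)))))))) (.g (nat_lit 6) .nil .nil))))))) 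
(.nd (nat_lit 2) (.nd (nat_lit 3) (.nd (nat_lit 4) (.nd (nat_lit 5) 
(.lf (nat_lit 88962) (.g (nat_lit 3234) (.e (nat_lit 2030) (nat_lit 140) (.e (nat_lit 688177) (nat_lit 16) (.e (nat_lit 65586) (nat_lit 7) (.e (nat_lit 319531) (nat_lit 16) (.e (nat_lit 286756) (nat_lit 10) (.e (nat_lit 344169) (nat_lit 40) (.e (nat_lit 671748) (nat_lit 0) (.e (nat_lit 1027) (nat_lit 81) .nil)))))))) (.g (nat_lit 5) .nil .nil))) 
(.lf (nat_lit 88994) (.g (nat_lit 1921) (.e (nat_lit 2030) (nat_lit 140) (.e (nat_lit 688177) (nat_lit 16) (.e (nat_lit 65586) (nat_lit 7) (.e (nat_lit 319531) (nat_lit 16) (.e (nat_lit 286759) (nat_lit 12) (.e (nat_lit 385094) (nat_lit 49) (.e (nat_lit 778241) (nat_lit 0) (.e (nat_lit 1022) (nat_lit 81) .nil)))))))) (.g (nat_lit 4) .nil .nil)))) (.nd (nat_lit 5) 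
(.lf (nat_lit 88978) (.g (nat_lit 2617) (.e (nat_lit 2030) (nat_lit 140) (.e (nat_lit 688177) (nat_lit 16) (.e (nat_lit 65586) (nat_lit 7) (.e (nat_lit 319531) (nat_lit 16) (.e (nat_lit 286759) (nat_lit 12) (.e (nat_lit 385092) (nat_lit 49) (.e (nat_lit 778261) (nat_lit 0) (.e (nat_lit 1019) (nat_lit 81) .nil)))))))) (.g (nat_lit 4) .nil .nil))) 
(.lf (nat_lit 89010) (.g (nat_lit 2873) (.e (nat_lit 2030) (nat_lit 140) (.e (nat_lit 688177) (nat_lit 16) (.e (nat_lit 65586) (nat_lit 7) (.e (nat_lit 319531) (nat_lit 16) (.e (nat_lit 286759) (nat_lit 12) (.e (nat_lit 385094) (nat_lit 49) (.e (nat_lit 778246) (nat_lit 0) (.e (nat_lit 1026) (nat_lit 81) .nil)))))))) (.g (nat_lit 4) .nil .nil))))) (.nd (nat_lit 4) (.nd (nat_lit 5) 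
(.lf (nat_lit 88970) (.g (nat_lit 2441) (.e (nat_lit 2030) (nat_lit 140) (.e (nat_lit 688177) (nat_lit 16) (.e (nat_lit 65586) (nat_lit 7) (.e (nat_lit 319531) (nat_lit 16) (.e (nat_lit 286758) (nat_lit 12) (.e (nat_lit 385106) (nat_lit 50) (.e (nat_lit 786447) (nat_lit 15) .nil))))))) (.g (nat_lit 4) .nil .nil))) 
(.lf (nat_lit 89002) (.g (nat_lit 3053) (.e (nat_lit 2030) (nat_lit 140) (.e (nat_lit 688177) (nat_lit 16) (.e (nat_lit 65586) (nat_lit 7) (.e (nat_lit 319531) (nat_lit 16) (.e (nat_lit 286759) (nat_lit 12) (.e (nat_lit 385094) (nat_lit 49) (.e (nat_lit 778241) (nat_lit 0) (.e (nat_lit 1031) (nat_lit 81) .nil)))))))) (.g (nat_lit 6) .nil .nil)))) (.nd (nat_lit 5) 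
(.lf (nat_lit 88986) (.g (nat_lit 2218) (.e (nat_lit 2030) (nat_lit 140) (.e (nat_lit 688177) (nat_lit 16) (.e (nat_lit 65586) (nat_lit 7) (.e (nat_lit 319531) (nat_lit 16) (.e (nat_lit 286759) (nat_lit 12) (.e (nat_lit 385092) (nat_lit 49) (.e (nat_lit 778298) (nat_lit 0) (.e (nat_lit 1019) (nat_lit 81) .nil)))))))) (.g (nat_lit 4) .nil .nil))) 
(.lf (nat_lit 89018) (.g (nat_lit 2395) (.e (nat_lit 2030) (nat_lit 140) (.e (nat_lit 688177) (nat_lit 16) (.e (nat_lit 65586) (nat_lit 7) (.e (nat_lit 319531) (nat_lit 16) (.e (nat_lit 286759) (nat_lit 12) (.e (nat_lit 385094) (nat_lit 49) (.e (nat_lit 778248) (nat_lit 0) (.e (nat_lit 1031) (nat_lit 81) .nil)))))))) (.g (nat_lit 4) .nil .nil)))))) 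
(.nd (nat_lit 3) (.nd (nat_lit 4) (.nd (nat_lit 5) 
(.lf (nat_lit 88966) (.g (nat_lit 5483) (.e (nat_lit 2030) (nat_lit 140) (.e (nat_lit 688177) (nat_lit 16) (.e (nat_lit 65586) (nat_lit 7) (.e (nat_lit 319531) (nat_lit 16) (.e (nat_lit 286756) (nat_lit 10) (.e (nat_lit 344169) (nat_lit 40) (.e (nat_lit 671748) (nat_lit 0) (.e (nat_lit 1047) (nat_lit 81) .nil)))))))) (.g (nat_lit 8) .nil .nil))) 
(.lf (nat_lit 88998) (.g (nat_lit 4518) (.e (nat_lit 2030) (nat_lit 140) (.e (nat_lit 688177) (nat_lit 16) (.e (nat_lit 65586) (nat_lit 7) (.e (nat_lit 319531) (nat_lit 16) (.e (nat_lit 286759) (nat_lit 12) (.e (nat_lit 385094) (nat_lit 49) (.e (nat_lit 778241) (nat_lit 0) (.e (nat_lit 1027) (nat_lit 81) .nil)))))))) (.g (nat_lit 8) .nil .nil)))) (.nd (nat_lit 5) 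
(.lf (nat_lit 88982) (.g (nat_lit 3094) (.e (nat_lit 2030) (nat_lit 140) (.e (nat_lit 688177) (nat_lit 16) (.e (nat_lit 65586) (nat_lit 7) (.e (nat_lit 319531) (nat_lit 16) (.e (nat_lit 286759) (nat_lit 12) (.e (nat_lit 385092) (nat_lit 49) (.e (nat_lit 778295) (nat_lit 0) (.e (nat_lit 1023) (nat_lit 81) .nil)))))))) (.g (nat_lit 5) .nil .nil))) 
(.lf (nat_lit 89014) (.g (nat_lit 3087) (.e (nat_lit 2030) (nat_lit 140) (.e (nat_lit 688177) (nat_lit 16) (.e (nat_lit 65586) (nat_lit 7) (.e (nat_lit 319531) (nat_lit 16) (.e (nat_lit 286759) (nat_lit 12) (.e (nat_lit 385094) (nat_lit 49) (.e (nat_lit 778246) (nat_lit 0) (.e (nat_lit 1034) (nat_lit 81) .nil)))))))) (.g (nat_lit 5) .nil .nil))))) (.nd (nat_lit 4) (.nd (nat_lit 5) 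
(.lf (nat_lit 88974) (.g (nat_lit 2538) (.e (nat_lit 2030) (nat_lit 140) (.e (nat_lit 688177) (nat_lit 16) (.e (nat_lit 65586) (nat_lit 7) (.e (nat_lit 319531) (nat_lit 16) (.e (nat_lit 286759) (nat_lit 12) (.e (nat_lit 385092) (nat_lit 49) (.e (nat_lit 778248) (nat_lit 0) (.e (nat_lit 1046) (nat_lit 81) .nil)))))))) (.g (nat_lit 5) .nil .nil))) 
(.lf (nat_lit 89006) (.g (nat_lit 3625) (.e (nat_lit 2030) (nat_lit 140) (.e (nat_lit 688177) (nat_lit 16) (.e (nat_lit 65586) (nat_lit 7) (.e (nat_lit 319531) (nat_lit 16) (.e (nat_lit 286759) (nat_lit 12) (.e (nat_lit 385094) (nat_lit 49) (.e (nat_lit 778241) (nat_lit 0) (.e (nat_lit 1047) (nat_lit 81) .nil)))))))) (.g (nat_lit 6) .nil .nil)))) (.nd (nat_lit 5) 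
(.lf (nat_lit 88990) (.g (nat_lit 1986) (.e (nat_lit 2030) (nat_lit 140) (.e (nat_lit 688177) (nat_lit 16) (.e (nat_lit 65586) (nat_lit 7) (.e (nat_lit 319531) (nat_lit 16) (.e (nat_lit 286759) (nat_lit 12) (.e (nat_lit 385093) (nat_lit 49) (.e (nat_lit 778290) (nat_lit 0) (.e (nat_lit 1017) (nat_lit 81) .nil)))))))) (.g (nat_lit 4) .nil .nil))) 
(.lf (nat_lit 89022) (.g (nat_lit 4077) (.e (nat_lit 2030) (nat_lit 140) (.e (nat_lit 688177) (nat_lit 16) (.e (nat_lit 65586) (nat_lit 7) (.e (nat_lit 319531) (nat_lit 16) (.e (nat_lit 286759) (nat_lit 12) (.e (nat_lit 385094) (nat_lit 49) (.e (nat_lit 778267) (nat_lit 0) (.e (nat_lit 1019) (nat_lit 81) .nil)))))))) (.g (nat_lit 6) .nil .nil)))))))) 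
(.nd (nat_lit 1) (.nd (nat_lit 2) (.nd (nat_lit 3) (.nd (nat_lit 4) (.nd (nat_lit 5) 
(.lf (nat_lit 88961) (.g (nat_lit 4128) (.e (nat_lit 2030) (nat_lit 140) (.e (nat_lit 688177) (nat_lit 16) (.e (nat_lit 65586) (nat_lit 7) (.e (nat_lit 319531) (nat_lit 16) (.e (nat_lit 286756) (nat_lit 10) (.e (nat_lit 344169) (nat_lit 40) (.e (nat_lit 671748) (nat_lit 0) (.e (nat_lit 1025) (nat_lit 81) .nil)))))))) (.g (nat_lit 6) .nil .nil))) 
(.lf (nat_lit 88993) (.g (nat_lit 2879) (.e (nat_lit 2030) (nat_lit 140) (.e (nat_lit 688177) (nat_lit 16) (.e (nat_lit 65586) (nat_lit 7) (.e (nat_lit 319531) (nat_lit 16) (.e (nat_lit 286759) (nat_lit 12) (.e (nat_lit 385094) (nat_lit 49) (.e (nat_lit 778241) (nat_lit 0) (.e (nat_lit 1021) (nat_lit 81) .nil)))))))) (.g (nat_lit 5) .nil .nil)))) (.nd (nat_lit 5) 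
(.lf (nat_lit 88977) (.g (nat_lit 2221) (.e (nat_lit 2030) (nat_lit 140) (.e (nat_lit 688177) (nat_lit 16) (.e (nat_lit 65586) (nat_lit 7) (.e (nat_lit 319531) (nat_lit 16) (.e (nat_lit 286759) (nat_lit 12) (.e (nat_lit 385092) (nat_lit 49) (.e (nat_lit 778259) (nat_lit 0) (.e (nat_lit 1019) (nat_lit 81) .nil)))))))) (.g (nat_lit 4) .nil .nil))) 
(.lf (nat_lit 89009) (.g (nat_lit 2879) (.e (nat_lit 2030) (nat_lit 140) (.e (nat_lit 688177) (nat_lit 16) (.e (nat_lit 65586) (nat_lit 7) (.e (nat_lit 319531) (nat_lit 16) (.e (nat_lit 286759) (nat_lit 12) (.e (nat_lit 385094) (nat_lit 49) (.e (nat_lit 778246) (nat_lit 0) (.e (nat_lit 1025) (nat_lit 81) .nil)))))))) (.g (nat_lit 4) .nil .nil))))) (.nd (nat_lit 4) (.nd (nat_lit 5) 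
(.lf (nat_lit 88969) (.g (nat_lit 2229) (.e (nat_lit 2030) (nat_lit 140) (.e (nat_lit 688177) (nat_lit 16) (.e (nat_lit 65586) (nat_lit 7) (.e (nat_lit 319531) (nat_lit 16) (.e (nat_lit 286758) (nat_lit 12) (.e (nat_lit 385106) (nat_lit 50) (.e (nat_lit 786444) (nat_lit 15) .nil))))))) (.g (nat_lit 4) .nil .nil))) 
(.lf (nat_lit 89001) (.g (nat_lit 4364) (.e (nat_lit 2030) (nat_lit 140) (.e (nat_lit 688177) (nat_lit 16) (.e (nat_lit 65586) (nat_lit 7) (.e (nat_lit 319531) (nat_lit 16) (.e (nat_lit 286759) (nat_lit 12) (.e (nat_lit 385094) (nat_lit 49) (.e (nat_lit 778241) (nat_lit 0) (.e (nat_lit 1030) (nat_lit 81) .nil)))))))) (.g (nat_lit 7) .nil .nil)))) (.nd (nat_lit 5) 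
(.lf (nat_lit 88985) (.g (nat_lit 2313) (.e (nat_lit 2030) (nat_lit 140) (.e (nat_lit 688177) (nat_lit 16) (.e (nat_lit 65586) (nat_lit 7) (.e (nat_lit 319531) (nat_lit 16) (.e (nat_lit 286759) (nat_lit 12) (.e (nat_lit 385092) (nat_lit 49) (.e (nat_lit 778297) (nat_lit 0) (.e (nat_lit 1033) (nat_lit 81) .nil)))))))) (.g (nat_lit 4) .nil .nil))) 
(.lf (nat_lit 89017) (.g (nat_lit 3732) (.e (nat_lit 2030) (nat_lit 140) (.e (nat_lit 688177) (nat_lit 16) (.e (nat_lit 65586) (nat_lit 7) (.e (nat_lit 319531) (nat_lit 16) (.e (nat_lit 286759) (nat_lit 12) (.e (nat_lit 385094) (nat_lit 49) (.e (nat_lit 778246) (nat_lit 0) (.e (nat_lit 1048) (nat_lit 81) .nil)))))))) (.g (nat_lit 6) .nil .nil)))))) 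
(.nd (nat_lit 3) (.nd (nat_lit 4) (.nd (nat_lit 5) 
(.lf (nat_lit 88965) (.g (nat_lit 4320) (.e (nat_lit 2030) (nat_lit 140) (.e (nat_lit 688177) (nat_lit 16) (.e (nat_lit 65586) (nat_lit 7) (.e (nat_lit 319531) (nat_lit 16) (.e (nat_lit 286756) (nat_lit 10) (.e (nat_lit 344169) (nat_lit 40) (.e (nat_lit 671748) (nat_lit 0) (.e (nat_lit 1035) (nat_lit 81) .nil)))))))) (.g (nat_lit 6) .nil .nil))) 
(.lf (nat_lit 88997) (.g (nat_lit 4144) (.e (nat_lit 2030) (nat_lit 140) (.e (nat_lit 688177) (nat_lit 16) (.e (nat_lit 65586) (nat_lit 7) (.e (nat_lit 319531) (nat_lit 16) (.e (nat_lit 286759) (nat_lit 12) (.e (nat_lit 385094) (nat_lit 49) (.e (nat_lit 778241) (nat_lit 0) (.e (nat_lit 1026) (nat_lit 81) .nil)))))))) (.g (nat_lit 6) .nil .nil)))) (.nd (nat_lit 5) 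
(.lf (nat_lit 88981) (.g (nat_lit 2401) (.e (nat_lit 2030) (nat_lit 140) (.e (nat_lit 688177) (nat_lit 16) (.e (nat_lit 65586) (nat_lit 7) (.e (nat_lit 319531) (nat_lit 16) (.e (nat_lit 286759) (nat_lit 12) (.e (nat_lit 385092) (nat_lit 49) (.e (nat_lit 778290) (nat_lit 0) (.e (nat_lit 1017) (nat_lit 81) .nil)))))))) (.g (nat_lit 4) .nil .nil))) 
(.lf (nat_lit 89013) (.g (nat_lit 3109) (.e (nat_lit 2030) (nat_lit 140) (.e (nat_lit 688177) (nat_lit 16) (.e (nat_lit 65586) (nat_lit 7) (.e (nat_lit 319531) (nat_lit 16) (.e (nat_lit 286759) (nat_lit 12) (.e (nat_lit 385094) (nat_lit 49) (.e (nat_lit 778246) (nat_lit 0) (.e (nat_lit 1030) (nat_lit 81) .nil)))))))) (.g (nat_lit 5) .nil .nil))))) (.nd (nat_lit 4) (.nd (nat_lit 5) 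
(.lf (nat_lit 88973) (.g (nat_lit 3496) (.e (nat_lit 2030) (nat_lit 140) (.e (nat_lit 688177) (nat_lit 16) (.e (nat_lit 65586) (nat_lit 7) (.e (nat_lit 319531) (nat_lit 16) (.e (nat_lit 286759) (nat_lit 12) (.e (nat_lit 385090) (nat_lit 49) (.e (nat_lit 778269) (nat_lit 0) (.e (nat_lit 1019) (nat_lit 81) .nil)))))))) (.g (nat_lit 5) .nil .nil))) 
(.lf (nat_lit 89005) (.g (nat_lit 4140) (.e (nat_lit 2030) (nat_lit 140) (.e (nat_lit 688177) (nat_lit 16) (.e (nat_lit 65586) (nat_lit 7) (.e (nat_lit 319531) (nat_lit 16) (.e (nat_lit 286759) (nat_lit 12) (.e (nat_lit 385094) (nat_lit 49) (.e (nat_lit 778241) (nat_lit 0) (.e (nat_lit 1045) (nat_lit 81) .nil)))))))) (.g (nat_lit 6) .nil .nil)))) (.nd (nat_lit 5) 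
(.lf (nat_lit 88989) (.g (nat_lit 2539) (.e (nat_lit 2030) (nat_lit 140) (.e (nat_lit 688177) (nat_lit 16) (.e (nat_lit 65586) (nat_lit 7) (.e (nat_lit 319531) (nat_lit 16) (.e (nat_lit 286759) (nat_lit 12) (.e (nat_lit 385092) (nat_lit 49) (.e (nat_lit 778309) (nat_lit 0) (.e (nat_lit 1019) (nat_lit 81) .nil)))))))) (.g (nat_lit 4) .nil .nil))) 
(.lf (nat_lit 89021) (.g (nat_lit 1817) (.e (nat_lit 2030) (nat_lit 140) (.e (nat_lit 688177) (nat_lit 16) (.e (nat_lit 65586) (nat_lit 7) (.e (nat_lit 319531) (nat_lit 16) (.e (nat_lit 286759) (nat_lit 12) (.e (nat_lit 385094) (nat_lit 49) (.e (nat_lit 778253) (nat_lit 0) (.e (nat_lit 7936) (nat_lit 81) .nil)))))))) (.g (nat_lit 4) .nil .nil))))))) 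
(.nd (nat_lit 2) (.nd (nat_lit 3) (.nd (nat_lit 4) (.nd (nat_lit 5) 
(.lf (nat_lit 88963) (.g (nat_lit 3070) (.e (nat_lit 2030) (nat_lit 140) (.e (nat_lit 688177) (nat_lit 16) (.e (nat_lit 65586) (nat_lit 7) (.e (nat_lit 319531) (nat_lit 16) (.e (nat_lit 286756) (nat_lit 10) (.e (nat_lit 344169) (nat_lit 40) (.e (nat_lit 671748) (nat_lit 0) (.e (nat_lit 1029) (nat_lit 81) .nil)))))))) (.g (nat_lit 4) .nil .nil))) 
(.lf (nat_lit 88995) (.g (nat_lit 3976) (.e (nat_lit 2030) (nat_lit 140) (.e (nat_lit 688177) (nat_lit 16) (.e (nat_lit 65586) (nat_lit 7) (.e (nat_lit 319531) (nat_lit 16) (.e (nat_lit 286759) (nat_lit 12) (.e (nat_lit 385094) (nat_lit 49) (.e (nat_lit 778241) (nat_lit 0) (.e (nat_lit 1024) (nat_lit 81) .nil)))))))) (.g (nat_lit 6) .nil .nil)))) (.nd (nat_lit 5) 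
(.lf (nat_lit 88979) (.g (nat_lit 3043) (.e (nat_lit 2030) (nat_lit 140) (.e (nat_lit 688177) (nat_lit 16) (.e (nat_lit 65586) (nat_lit 7) (.e (nat_lit 319531) (nat_lit 16) (.e (nat_lit 286759) (nat_lit 12) (.e (nat_lit 385092) (nat_lit 49) (.e (nat_lit 778267) (nat_lit 0) (.e (nat_lit 1019) (nat_lit 81) .nil)))))))) (.g (nat_lit 5) .nil .nil))) 
(.lf (nat_lit 89011) (.g (nat_lit 3184) (.e (nat_lit 2030) (nat_lit 140) (.e (nat_lit 688177) (nat_lit 16) (.e (nat_lit 65586) (nat_lit 7) (.e (nat_lit 319531) (nat_lit 16) (.e (nat_lit 286759) (nat_lit 12) (.e (nat_lit 385094) (nat_lit 49) (.e (nat_lit 778246) (nat_lit 0) (.e (nat_lit 1028) (nat_lit 81) .nil)))))))) (.g (nat_lit 5) .nil .nil))))) (.nd (nat_lit 4) (.nd (nat_lit 5) 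
(.lf (nat_lit 88971) (.g (nat_lit 1692) (.e (nat_lit 2030) (nat_lit 140) (.e (nat_lit 688177) (nat_lit 16) (.e (nat_lit 65586) (nat_lit 7) (.e (nat_lit 319531) (nat_lit 16) (.e (nat_lit 286759) (nat_lit 12) .nil))))) .nil)) 
(.lf (nat_lit 89003) (.g (nat_lit 4137) (.e (nat_lit 2030) (nat_lit 140) (.e (nat_lit 688177) (nat_lit 16) (.e (nat_lit 65586) (nat_lit 7) (.e (nat_lit 319531) (nat_lit 16) (.e (nat_lit 286759) (nat_lit 12) (.e (nat_lit 385094) (nat_lit 49) (.e (nat_lit 778241) (nat_lit 0) (.e (nat_lit 1032) (nat_lit 81) .nil)))))))) (.g (nat_lit 6) .nil .nil)))) (.nd (nat_lit 5) 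
(.lf (nat_lit 88987) (.g (nat_lit 2709) (.e (nat_lit 2030) (nat_lit 140) (.e (nat_lit 688177) (nat_lit 16) (.e (nat_lit 65586) (nat_lit 7) (.e (nat_lit 319531) (nat_lit 16) (.e (nat_lit 286759) (nat_lit 12) (.e (nat_lit 385092) (nat_lit 49) (.e (nat_lit 778299) (nat_lit 0) (.e (nat_lit 1019) (nat_lit 81) .nil)))))))) (.g (nat_lit 4) .nil .nil))) 
(.lf (nat_lit 89019) (.g (nat_lit 3513) (.e (nat_lit 2030) (nat_lit 140) (.e (nat_lit 688177) (nat_lit 16) (.e (nat_lit 65586) (nat_lit 7) (.e (nat_lit 319531) (nat_lit 16) (.e (nat_lit 286759) (nat_lit 12) (.e (nat_lit 385094) (nat_lit 49) (.e (nat_lit 778253) (nat_lit 0) (.e (nat_lit 1018) (nat_lit 81) .nil)))))))) (.g (nat_lit 6) .nil .nil)))))) 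
(.nd (nat_lit 3) (.nd (nat_lit 4) (.nd (nat_lit 5) 
(.lf (nat_lit 88967) (.g (nat_lit 2057) (.e (nat_lit 2030) (nat_lit 140) (.e (nat_lit 688177) (nat_lit 16) (.e (nat_lit 65586) (nat_lit 7) (.e (nat_lit 319531) (nat_lit 16) (.e (nat_lit 286758) (nat_lit 12) .nil))))) .nil)) 
(.lf (nat_lit 88999) (.g (nat_lit 4051) (.e (nat_lit 2030) (nat_lit 140) (.e (nat_lit 688177) (nat_lit 16) (.e (nat_lit 65586) (nat_lit 7) (.e (nat_lit 319531) (nat_lit 16) (.e (nat_lit 286759) (nat_lit 12) (.e (nat_lit 385094) (nat_lit 49) (.e (nat_lit 778241) (nat_lit 0) (.e (nat_lit 1028) (nat_lit 81) .nil)))))))) (.g (nat_lit 6) .nil .nil)))) (.nd (nat_lit 5) 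
(.lf (nat_lit 88983) (.g (nat_lit 2745) (.e (nat_lit 2030) (nat_lit 140) (.e (nat_lit 688177) (nat_lit 16) (.e (nat_lit 65586) (nat_lit 7) (.e (nat_lit 319531) (nat_lit 16) (.e (nat_lit 286759) (nat_lit 12) (.e (nat_lit 385092) (nat_lit 49) (.e (nat_lit 778295) (nat_lit 0) (.e (nat_lit 1033) (nat_lit 81) .nil)))))))) (.g (nat_lit 5) .nil .nil))) 
(.lf (nat_lit 89015) (.g (nat_lit 4073) (.e (nat_lit 2030) (nat_lit 140) (.e (nat_lit 688177) (nat_lit 16) (.e (nat_lit 65586) (nat_lit 7) (.e (nat_lit 319531) (nat_lit 16) (.e (nat_lit 286759) (nat_lit 12) (.e (nat_lit 385094) (nat_lit 49) (.e (nat_lit 778246) (nat_lit 0) (.e (nat_lit 1035) (nat_lit 81) .nil)))))))) (.g (nat_lit 7) .nil .nil))))) (.nd (nat_lit 4) (.nd (nat_lit 5) 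
(.lf (nat_lit 88975) (.g (nat_lit 2360) (.e (nat_lit 2030) (nat_lit 140) (.e (nat_lit 688177) (nat_lit 16) (.e (nat_lit 65586) (nat_lit 7) (.e (nat_lit 319531) (nat_lit 16) (.e (nat_lit 286759) (nat_lit 12) (.e (nat_lit 385092) (nat_lit 49) (.e (nat_lit 778251) (nat_lit 0) (.e (nat_lit 1017) (nat_lit 81) .nil)))))))) (.g (nat_lit 4) .nil .nil))) 
(.lf (nat_lit 89007) (.g (nat_lit 4326) (.e (nat_lit 2030) (nat_lit 140) (.e (nat_lit 688177) (nat_lit 16) (.e (nat_lit 65586) (nat_lit 7) (.e (nat_lit 319531) (nat_lit 16) (.e (nat_lit 286759) (nat_lit 12) (.e (nat_lit 385094) (nat_lit 49) (.e (nat_lit 778241) (nat_lit 0) (.e (nat_lit 1048) (nat_lit 81) .nil)))))))) (.g (nat_lit 7) .nil .nil)))) (.nd (nat_lit 5) 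
(.lf (nat_lit 88991) (.g (nat_lit 3841) (.e (nat_lit 2030) (nat_lit 140) (.e (nat_lit 688177) (nat_lit 16) (.e (nat_lit 65586) (nat_lit 7) (.e (nat_lit 319531) (nat_lit 16) (.e (nat_lit 286759) (nat_lit 12) (.e (nat_lit 385094) (nat_lit 49) (.e (nat_lit 778241) (nat_lit 0) (.e (nat_lit 1017) (nat_lit 81) .nil)))))))) (.g (nat_lit 7) .nil .nil))) 
(.lf (nat_lit 89023) (.g (nat_lit 4647) (.e (nat_lit 2030) (nat_lit 140) (.e (nat_lit 688177) (nat_lit 16) (.e (nat_lit 65586) (nat_lit 7) (.e (nat_lit 319531) (nat_lit 16) (.e (nat_lit 286759) (nat_lit 12) (.e (nat_lit 385094) (nat_lit 49) (.e (nat_lit 778268) (nat_lit 0) (.e (nat_lit 1019) (nat_lit 81) .nil)))))))) (.g (nat_lit 6) .nil .nil)))))))))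

noncomputable def tv1215 : DT := (.nd (nat_lit 0) (.nd (nat_lit 1) (.nd (nat_lit 2) (.nd (nat_lit 3) (.nd (nat_lit 4) (.nd (nat_lit 5) 
(.lf (nat_lit 89024) (.g (nat_lit 3532) (.e (nat_lit 2030) (nat_lit 140) (.e (nat_lit 688177) (nat_lit 16) (.e (nat_lit 65586) (nat_lit 7) (.e (nat_lit 319531) (nat_lit 16) (.e (nat_lit 286759) (nat_lit 12) (.e (nat_lit 385094) (nat_lit 49) (.e (nat_lit 778290) (nat_lit 0) (.e (nat_lit 1017) (nat_lit 81) .nil)))))))) (.g (nat_lit 6) .nil .nil))) 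
(.lf (nat_lit 89056) (.g (nat_lit 5172) (.e (nat_lit 2030) (nat_lit 140) (.e (nat_lit 688177) (nat_lit 16) (.e (nat_lit 65586) (nat_lit 7) (.e (nat_lit 319533) (nat_lit 16) (.e (nat_lit 286753) (nat_lit 10) (.e (nat_lit 344169) (nat_lit 40) (.e (nat_lit 671748) (nat_lit 0) (.e (nat_lit 1047) (nat_lit 81) .nil)))))))) (.g (nat_lit 8) .nil .nil)))) (.nd (nat_lit 5) 
(.lf (nat_lit 89040) (.g (nat_lit 3908) (.e (nat_lit 2030) (nat_lit 140) (.e (nat_lit 688177) (nat_lit 16) (.e (nat_lit 65586) (nat_lit 7) (.e (nat_lit 319531) (nat_lit 16) (.e (nat_lit 286759) (nat_lit 12) (.e (nat_lit 385105) (nat_lit 50) (.e (nat_lit 794368) (nat_lit 15) .nil))))))) (.g (nat_lit 6) .nil .nil))) 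
(.lf (nat_lit 89072) (.g (nat_lit 2385) (.e (nat_lit 2030) (nat_lit 140) (.e (nat_lit 688177) (nat_lit 16) (.e (nat_lit 65586) (nat_lit 7) (.e (nat_lit 319534) (nat_lit 16) (.e (nat_lit 286756) (nat_lit 10) (.e (nat_lit 344169) (nat_lit 40) (.e (nat_lit 671746) (nat_lit 0) (.e (nat_lit 1032) (nat_lit 81) .nil)))))))) (.g (nat_lit 4) .nil .nil))))) (.nd (nat_lit 4) (.nd (nat_lit 5) 
(.lf (nat_lit 89032) (.g (nat_lit 2335) (.e (nat_lit 2030) (nat_lit 140) (.e (nat_lit 688177) (nat_lit 16) (.e (nat_lit 65586) (nat_lit 7) (.e (nat_lit 319531) (nat_lit 16) (.e (nat_lit 286759) (nat_lit 12) (.e (nat_lit 385102) (nat_lit 50) (.e (nat_lit 786446) (nat_lit 15) .nil))))))) (.g (nat_lit 4) .nil .nil))) 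
(.lf (nat_lit 89064) (.g (nat_lit 2728) (.e (nat_lit 2030) (nat_lit 140) (.e (nat_lit 688177) (nat_lit 16) (.e (nat_lit 65586) (nat_lit 7) (.e (nat_lit 319534) (nat_lit 16) (.e (nat_lit 286752) (nat_lit 10) (.e (nat_lit 344169) (nat_lit 40) (.e (nat_lit 671748) (nat_lit 0) (.e (nat_lit 1029) (nat_lit 81) .nil)))))))) (.g (nat_lit 4) .nil .nil)))) (.nd (nat_lit 5) 
(.lf (nat_lit 89048) (.g (nat_lit 4784) (.e (nat_lit 2030) (nat_lit 140) (.e (nat_lit 688177) (nat_lit 16) (.e (nat_lit 65586) (nat_lit 7) (.e (nat_lit 319531) (nat_lit 16) (.e (nat_lit 286762) (nat_lit 14) (.e (nat_lit 401437) (nat_lit 9) (.e (nat_lit 426402) (nat_lit 15) .nil))))))) (.g (nat_lit 7) .nil .nil))) 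
(.lf (nat_lit 89080) (.g (nat_lit 4337) (.e (nat_lit 2030) (nat_lit 140) (.e (nat_lit 688177) (nat_lit 16) (.e (nat_lit 65586) (nat_lit 7) (.e (nat_lit 319534) (nat_lit 16) (.e (nat_lit 286756) (nat_lit 10) (.e (nat_lit 344169) (nat_lit 40) (.e (nat_lit 671748) (nat_lit 0) (.e (nat_lit 1035) (nat_lit 81) .nil)))))))) (.g (nat_lit 6) .nil .nil)))))) 
(.nd (nat_lit 3) (.nd (nat_lit 4) (.nd (nat_lit 5) 
(.lf (nat_lit 89028) (.g (nat_lit 4616) (.e (nat_lit 2030) (nat_lit 140) (.e (nat_lit 688177) (nat_lit 16) (.e (nat_lit 65586) (nat_lit 7) (.e (nat_lit 319531) (nat_lit 16) (.e (nat_lit 286759) (nat_lit 12) (.e (nat_lit 385094) (nat_lit 49) (.e (nat_lit 778298) (nat_lit 0) (.e (nat_lit 1019) (nat_lit 81) .nil)))))))) (.g (nat_lit 6) .nil .nil))) 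
(.lf (nat_lit 89060) (.g (nat_lit 3362) (.e (nat_lit 2030) (nat_lit 140) (.e (nat_lit 688177) (nat_lit 16) (.e (nat_lit 65586) (nat_lit 7) (.e (nat_lit 319534) (nat_lit 16) (.e (nat_lit 286721) (nat_lit 0) (.e (nat_lit 6113) (nat_lit 332) (.e (nat_lit 1376) (nat_lit 104) (.e (nat_lit 303147) (nat_lit 15) .nil)))))))) (.g (nat_lit 4) .nil .nil)))) (.nd (nat_lit 5) 
(.lf (nat_lit 89044) (.g (nat_lit 3567) (.e (nat_lit 2030) (nat_lit 140) (.e (nat_lit 688177) (nat_lit 16) (.e (nat_lit 65586) (nat_lit 7) (.e (nat_lit 319531) (nat_lit 16) (.e (nat_lit 286759) (nat_lit 12) (.e (nat_lit 385106) (nat_lit 50) (.e (nat_lit 794368) (nat_lit 15) .nil))))))) (.g (nat_lit 6) .nil .nil))) 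
(.lf (nat_lit 89076) (.g (nat_lit 4145) (.e (nat_lit 2030) (nat_lit 140) (.e (nat_lit 688177) (nat_lit 16) (.e (nat_lit 65586) (nat_lit 7) (.e (nat_lit 319534) (nat_lit 16) (.e (nat_lit 286756) (nat_lit 10) (.e (nat_lit 344169) (nat_lit 40) (.e (nat_lit 671748) (nat_lit 0) (.e (nat_lit 1025) (nat_lit 81) .nil)))))))) (.g (nat_lit 6) .nil .nil))))) (.nd (nat_lit 4) (.nd (nat_lit 5) 
(.lf (nat_lit 89036) (.g (nat_lit 3829) (.e (nat_lit 2030) (nat_lit 140) (.e (nat_lit 688177) (nat_lit 16) (.e (nat_lit 65586) (nat_lit 7) (.e (nat_lit 319531) (nat_lit 16) (.e (nat_lit 286759) (nat_lit 12) (.e (nat_lit 385104) (nat_lit 50) (.e (nat_lit 786447) (nat_lit 15) .nil))))))) (.g (nat_lit 0) .nil .nil))) 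
(.lf (nat_lit 89068) (.g (nat_lit 2731) (.e (nat_lit 2030) (nat_lit 140) (.e (nat_lit 688177) (nat_lit 16) (.e (nat_lit 65586) (nat_lit 7) (.e (nat_lit 319534) (nat_lit 16) (.e (nat_lit 286753) (nat_lit 10) (.e (nat_lit 344169) (nat_lit 40) (.e (nat_lit 671748) (nat_lit 0) (.e (nat_lit 1035) (nat_lit 81) .nil)))))))) (.g (nat_lit 4) .nil .nil)))) (.nd (nat_lit 5) 
(.lf (nat_lit 89052) (.g (nat_lit 2931) (.e (nat_lit 2030) (nat_lit 140) (.e (nat_lit 688177) (nat_lit 16) (.e (nat_lit 65586) (nat_lit 7) (.e (nat_lit 319533) (nat_lit 16) (.e (nat_lit 286753) (nat_lit 10) (.e (nat_lit 344169) (nat_lit 40) (.e (nat_lit 671748) (nat_lit 0) (.e (nat_lit 1027) (nat_lit 81) .nil)))))))) (.g (nat_lit 5) .nil .nil))) 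
(.lf (nat_lit 89084) (.g (nat_lit 3921) (.e (nat_lit 2030) (nat_lit 140) (.e (nat_lit 688177) (nat_lit 16) (.e (nat_lit 65586) (nat_lit 7) (.e (nat_lit 319534) (nat_lit 16) (.e (nat_lit 286762) (nat_lit 14) (.e (nat_lit 401438) (nat_lit 9) (.e (nat_lit 426402) (nat_lit 15) .nil))))))) (.g (nat_lit 6) .nil .nil))))))) (.nd (nat_lit 2) (.nd (nat_lit 3) (.nd (nat_lit 4) (.nd (nat_lit 5) 
(.lf (nat_lit 89026) (.g (nat_lit 4550) (.e (nat_lit 2030) (nat_lit 140) (.e (nat_lit 688177) (nat_lit 16) (.e (nat_lit 65586) (nat_lit 7) (.e (nat_lit 319531) (nat_lit 16) (.e (nat_lit 286759) (nat_lit 12) (.e (nat_lit 385094) (nat_lit 49) (.e (nat_lit 778292) (nat_lit 0) (.e (nat_lit 1019) (nat_lit 81) .nil)))))))) (.g (nat_lit 6) .nil .nil))) 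
(.lf (nat_lit 89058) (.g (nat_lit 2336) (.e (nat_lit 2030) (nat_lit 140) (.e (nat_lit 688177) (nat_lit 16) (.e (nat_lit 65586) (nat_lit 7) (.e (nat_lit 319533) (nat_lit 16) (.e (nat_lit 286762) (nat_lit 14) (.e (nat_lit 401437) (nat_lit 9) (.e (nat_lit 426402) (nat_lit 15) .nil))))))) (.g (nat_lit 4) .nil .nil)))) (.nd (nat_lit 5) 
(.lf (nat_lit 89042) (.g (nat_lit 3940) (.e (nat_lit 2030) (nat_lit 140) (.e (nat_lit 688177) (nat_lit 16) (.e (nat_lit 65586) (nat_lit 7) (.e (nat_lit 319531) (nat_lit 16) (.e (nat_lit 286759) (nat_lit 12) (.e (nat_lit 385106) (nat_lit 50) (.e (nat_lit 786446) (nat_lit 15) .nil))))))) (.g (nat_lit 7) .nil .nil))) 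
(.lf (nat_lit 89074) (.g (nat_lit 2685) (.e (nat_lit 2030) (nat_lit 140) (.e (nat_lit 688177) (nat_lit 16) (.e (nat_lit 65586) (nat_lit 7) (.e (nat_lit 319534) (nat_lit 16) (.e (nat_lit 286756) (nat_lit 10) (.e (nat_lit 344169) (nat_lit 40) (.e (nat_lit 671746) (nat_lit 0) (.e (nat_lit 1048) (nat_lit 81) .nil)))))))) (.g (nat_lit 4) .nil .nil))))) (.nd (nat_lit 4) (.nd (nat_lit 5) 
(.lf (nat_lit 89034) (.g (nat_lit 2680) (.e (nat_lit 2030) (nat_lit 140) (.e (nat_lit 688177) (nat_lit 16) (.e (nat_lit 65586) (nat_lit 7) (.e (nat_lit 319531) (nat_lit 16) (.e (nat_lit 286759) (nat_lit 12) (.e (nat_lit 385103) (nat_lit 50) (.e (nat_lit 786447) (nat_lit 15) .nil))))))) (.g (nat_lit 5) .nil .nil))) 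
(.lf (nat_lit 89066) (.g (nat_lit 3992) (.e (nat_lit 2030) (nat_lit 140) (.e (nat_lit 688177) (nat_lit 16) (.e (nat_lit 65586) (nat_lit 7) (.e (nat_lit 319534) (nat_lit 16) (.e (nat_lit 286752) (nat_lit 10) (.e (nat_lit 344169) (nat_lit 40) (.e (nat_lit 671748) (nat_lit 0) (.e (nat_lit 1035) (nat_lit 81) .nil)))))))) (.g (nat_lit 6) .nil .nil)))) (.nd (nat_lit 5) 
(.lf (nat_lit 89050) (.g (nat_lit 1009) (.e (nat_lit 2030) (nat_lit 140) (.e (nat_lit 688177) (nat_lit 16) (.e (nat_lit 65586) (nat_lit 7) (.e (nat_lit 319533) (nat_lit 16) .nil)))) .nil)) 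
(.lf (nat_lit 89082) (.g (nat_lit 3914) (.e (nat_lit 2030) (nat_lit 140) (.e (nat_lit 688177) (nat_lit 16) (.e (nat_lit 65586) (nat_lit 7) (.e (nat_lit 319534) (nat_lit 16) (.e (nat_lit 286762) (nat_lit 14) (.e (nat_lit 401437) (nat_lit 9) (.e (nat_lit 426364) (nat_lit 15) .nil))))))) (.g (nat_lit 6) .nil .nil)))))) (.nd (nat_lit 3) (.nd (nat_lit 4) (.nd (nat_lit 5) 
(.lf (nat_lit 89030) (.g (nat_lit 5106) (.e (nat_lit 2030) (nat_lit 140) (.e (nat_lit 688177) (nat_lit 16) (.e (nat_lit 65586) (nat_lit 7) (.e (nat_lit 319531) (nat_lit 16) (.e (nat_lit 286759) (nat_lit 12) (.e (nat_lit 385094) (nat_lit 49) (.e (nat_lit 778309) (nat_lit 0) (.e (nat_lit 1019) (nat_lit 81) .nil)))))))) (.g (nat_lit 6) .nil .nil))) 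
(.lf (nat_lit 89062) (.g (nat_lit 3805) (.e (nat_lit 2030) (nat_lit 140) (.e (nat_lit 688177) (nat_lit 16) (.e (nat_lit 65586) (nat_lit 7) (.e (nat_lit 319534) (nat_lit 16) (.e (nat_lit 286752) (nat_lit 10) (.e (nat_lit 344169) (nat_lit 40) (.e (nat_lit 671748) (nat_lit 0) (.e (nat_lit 1025) (nat_lit 81) .nil)))))))) (.g (nat_lit 6) .nil .nil)))) (.nd (nat_lit 5) 
(.lf (nat_lit 89046) (.g (nat_lit 4070) (.e (nat_lit 2030) (nat_lit 140) (.e (nat_lit 688177) (nat_lit 16) (.e (nat_lit 65586) (nat_lit 7) (.e (nat_lit 319531) (nat_lit 16) (.e (nat_lit 286762) (nat_lit 14) (.e (nat_lit 401436) (nat_lit 9) (.e (nat_lit 426402) (nat_lit 15) .nil))))))) (.g (nat_lit 7) .nil .nil))) 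
(.lf (nat_lit 89078) (.g (nat_lit 3087) (.e (nat_lit 2030) (nat_lit 140) (.e (nat_lit 688177) (nat_lit 16) (.e (nat_lit 65586) (nat_lit 7) (.e (nat_lit 319534) (nat_lit 16) (.e (nat_lit 286756) (nat_lit 10) (.e (nat_lit 344169) (nat_lit 40) (.e (nat_lit 671748) (nat_lit 0) (.e (nat_lit 1029) (nat_lit 81) .nil)))))))) (.g (nat_lit 4) .nil .nil))))) (.nd (nat_lit 4) (.nd (nat_lit 5) 
(.lf (nat_lit 89038) (.g (nat_lit 3793) (.e (nat_lit 2030) (nat_lit 140) (.e (nat_lit 688177) (nat_lit 16) (.e (nat_lit 65586) (nat_lit 7) (.e (nat_lit 319531) (nat_lit 16) (.e (nat_lit 286759) (nat_lit 12) (.e (nat_lit 385105) (nat_lit 50) (.e (nat_lit 786444) (nat_lit 15) .nil))))))) (.g (nat_lit 6) .nil .nil))) 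
(.lf (nat_lit 89070) (.g (nat_lit 2697) (.e (nat_lit 2030) (nat_lit 140) (.e (nat_lit 688177) (nat_lit 16) (.e (nat_lit 65586) (nat_lit 7) (.e (nat_lit 319534) (nat_lit 16) (.e (nat_lit 286755) (nat_lit 10) (.e (nat_lit 344169) (nat_lit 40) (.e (nat_lit 671748) (nat_lit 0) (.e (nat_lit 1047) (nat_lit 81) .nil)))))))) (.g (nat_lit 4) .nil .nil)))) (.nd (nat_lit 5) 
(.lf (nat_lit 89054) (.g (nat_lit 3408) (.e (nat_lit 2030) (nat_lit 140) (.e (nat_lit 688177) (nat_lit 16) (.e (nat_lit 65586) (nat_lit 7) (.e (nat_lit 319533) (nat_lit 16) (.e (nat_lit 286753) (nat_lit 10) (.e (nat_lit 344169) (nat_lit 40) (.e (nat_lit 671748) (nat_lit 0) (.e (nat_lit 1032) (nat_lit 81) .nil)))))))) (.g (nat_lit 5) .nil .nil))) 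
(.lf (nat_lit 89086) (.g (nat_lit 2207) (.e (nat_lit 2030) (nat_lit 140) (.e (nat_lit 688177) (nat_lit 16) (.e (nat_lit 65610) (nat_lit 10) (.e (nat_lit 344097) (nat_lit 18) (.e (nat_lit 5219) (nat_lit 296) .nil))))) .nil))))))) (.nd (nat_lit 1) (.nd (nat_lit 2) (.nd (nat_lit 3) (.nd (nat_lit 4) (.nd (nat_lit 5) 
(.lf (nat_lit 89025) (.g (nat_lit 2500) (.e (nat_lit 2030) (nat_lit 140) (.e (nat_lit 688177) (nat_lit 16) (.e (nat_lit 65586) (nat_lit 7) (.e (nat_lit 319531) (nat_lit 16) (.e (nat_lit 286759) (nat_lit 12) (.e (nat_lit 385094) (nat_lit 49) (.e (nat_lit 778290) (nat_lit 0) (.e (nat_lit 1046) (nat_lit 81) .nil)))))))) (.g (nat_lit 5) .nil .nil))) 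
(.lf (nat_lit 89057) (.g (nat_lit 3690) (.e (nat_lit 2030) (nat_lit 140) (.e (nat_lit 688177) (nat_lit 16) (.e (nat_lit 65586) (nat_lit 7) (.e (nat_lit 319533) (nat_lit 16) (.e (nat_lit 286753) (nat_lit 10) (.e (nat_lit 344169) (nat_lit 40) (.e (nat_lit 671748) (nat_lit 0) (.e (nat_lit 1048) (nat_lit 81) .nil)))))))) (.g (nat_lit 6) .nil .nil)))) (.nd (nat_lit 5) 
(.lf (nat_lit 89041) (.g (nat_lit 4225) (.e (nat_lit 2030) (nat_lit 140) (.e (nat_lit 688177) (nat_lit 16) (.e (nat_lit 65586) (nat_lit 7) (.e (nat_lit 319531) (nat_lit 16) (.e (nat_lit 286759) (nat_lit 12) (.e (nat_lit 385106) (nat_lit 50) (.e (nat_lit 786444) (nat_lit 15) .nil))))))) (.g (nat_lit 7) .nil .nil))) 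
(.lf (nat_lit 89073) (.g (nat_lit 2617) (.e (nat_lit 2030) (nat_lit 140) (.e (nat_lit 688177) (nat_lit 16) (.e (nat_lit 65586) (nat_lit 7) (.e (nat_lit 319534) (nat_lit 16) (.e (nat_lit 286756) (nat_lit 10) (.e (nat_lit 344169) (nat_lit 40) (.e (nat_lit 671746) (nat_lit 0) (.e (nat_lit 1035) (nat_lit 81) .nil)))))))) (.g (nat_lit 4) .nil .nil))))) (.nd (nat_lit 4) (.nd (nat_lit 5) 
(.lf (nat_lit 89033) (.g (nat_lit 3557) (.e (nat_lit 2030) (nat_lit 140) (.e (nat_lit 688177) (nat_lit 16) (.e (nat_lit 65586) (nat_lit 7) (.e (nat_lit 319531) (nat_lit 16) (.e (nat_lit 286759) (nat_lit 12) (.e (nat_lit 385102) (nat_lit 50) (.e (nat_lit 786447) (nat_lit 15) .nil))))))) (.g (nat_lit 6) .nil .nil))) 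
(.lf (nat_lit 89065) (.g (nat_lit 3369) (.e (nat_lit 2030) (nat_lit 140) (.e (nat_lit 688177) (nat_lit 16) (.e (nat_lit 65586) (nat_lit 7) (.e (nat_lit 319534) (nat_lit 16) (.e (nat_lit 286752) (nat_lit 10) (.e (nat_lit 344169) (nat_lit 40) (.e (nat_lit 671748) (nat_lit 0) (.e (nat_lit 1032) (nat_lit 81) .nil)))))))) (.g (nat_lit 4) .nil .nil)))) (.nd (nat_lit 5) 
(.lf (nat_lit 89049) (.g (nat_lit 4658) (.e (nat_lit 2030) (nat_lit 140) (.e (nat_lit 688177) (nat_lit 16) (.e (nat_lit 65586) (nat_lit 7) (.e (nat_lit 319531) (nat_lit 16) (.e (nat_lit 286762) (nat_lit 14) (.e (nat_lit 401438) (nat_lit 9) (.e (nat_lit 426402) (nat_lit 15) .nil))))))) (.g (nat_lit 0) .nil .nil))) 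
(.lf (nat_lit 89081) (.g (nat_lit 3424) (.e (nat_lit 2030) (nat_lit 140) (.e (nat_lit 688177) (nat_lit 16) (.e (nat_lit 65586) (nat_lit 7) (.e (nat_lit 319534) (nat_lit 16) (.e (nat_lit 286762) (nat_lit 14) (.e (nat_lit 401436) (nat_lit 9) (.e (nat_lit 426402) (nat_lit 15) .nil))))))) (.g (nat_lit 6) .nil .nil)))))) (.nd (nat_lit 3) (.nd (nat_lit 4) (.nd (nat_lit 5) 
(.lf (nat_lit 89029) (.g (nat_lit 5076) (.e (nat_lit 2030) (nat_lit 140) (.e (nat_lit 688177) (nat_lit 16) (.e (nat_lit 65586) (nat_lit 7) (.e (nat_lit 319531) (nat_lit 16) (.e (nat_lit 286759) (nat_lit 12) (.e (nat_lit 385094) (nat_lit 49) (.e (nat_lit 778299) (nat_lit 0) (.e (nat_lit 1019) (nat_lit 81) .nil)))))))) (.g (nat_lit 6) .nil .nil))) 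
(.lf (nat_lit 89061) (.g (nat_lit 2313) (.e (nat_lit 2030) (nat_lit 140) (.e (nat_lit 688177) (nat_lit 16) (.e (nat_lit 65586) (nat_lit 7) (.e (nat_lit 319534) (nat_lit 16) (.e (nat_lit 286752) (nat_lit 10) .nil))))) .nil))) (.nd (nat_lit 5) 
(.lf (nat_lit 89045) (.g (nat_lit 2383) (.e (nat_lit 2030) (nat_lit 140) (.e (nat_lit 688177) (nat_lit 16) (.e (nat_lit 65586) (nat_lit 7) (.e (nat_lit 319531) (nat_lit 16) (.e (nat_lit 286762) (nat_lit 14) (.e (nat_lit 401436) (nat_lit 9) (.e (nat_lit 426399) (nat_lit 15) .nil))))))) (.g (nat_lit 4) .nil .nil))) 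
(.lf (nat_lit 89077) (.g (nat_lit 3251) (.e (nat_lit 2030) (nat_lit 140) (.e (nat_lit 688177) (nat_lit 16) (.e (nat_lit 65586) (nat_lit 7) (.e (nat_lit 319534) (nat_lit 16) (.e (nat_lit 286756) (nat_lit 10) (.e (nat_lit 344169) (nat_lit 40) (.e (nat_lit 671748) (nat_lit 0) (.e (nat_lit 1027) (nat_lit 81) .nil)))))))) (.g (nat_lit 5) .nil .nil))))) (.nd (nat_lit 4) (.nd (nat_lit 5) 
(.lf (nat_lit 89037) (.g (nat_lit 2994) (.e (nat_lit 2030) (nat_lit 140) (.e (nat_lit 688177) (nat_lit 16) (.e (nat_lit 65586) (nat_lit 7) (.e (nat_lit 319531) (nat_lit 16) (.e (nat_lit 286759) (nat_lit 12) (.e (nat_lit 385104) (nat_lit 50) (.e (nat_lit 794368) (nat_lit 15) .nil))))))) (.g (nat_lit 6) .nil .nil))) 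
(.lf (nat_lit 89069) (.g (nat_lit 3872) (.e (nat_lit 2030) (nat_lit 140) (.e (nat_lit 688177) (nat_lit 16) (.e (nat_lit 65586) (nat_lit 7) (.e (nat_lit 319534) (nat_lit 16) (.e (nat_lit 286753) (nat_lit 10) (.e (nat_lit 344169) (nat_lit 40) (.e (nat_lit 671748) (nat_lit 0) (.e (nat_lit 1047) (nat_lit 81) .nil)))))))) (.g (nat_lit 5) .nil .nil)))) (.nd (nat_lit 5) 
(.lf (nat_lit 89053) (.g (nat_lit 2767) (.e (nat_lit 2030) (nat_lit 140) (.e (nat_lit 688177) (nat_lit 16) (.e (nat_lit 65586) (nat_lit 7) (.e (nat_lit 319533) (nat_lit 16) (.e (nat_lit 286753) (nat_lit 10) (.e (nat_lit 344169) (nat_lit 40) (.e (nat_lit 671748) (nat_lit 0) (.e (nat_lit 1029) (nat_lit 81) .nil)))))))) (.g (nat_lit 4) .nil .nil))) 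
(.lf (nat_lit 89085) (.g (nat_lit 2082) (.e (nat_lit 2030) (nat_lit 140) (.e (nat_lit 688177) (nat_lit 16) (.e (nat_lit 65610) (nat_lit 10) (.e (nat_lit 344097) (nat_lit 18) (.e (nat_lit 5055) (nat_lit 292) (.e (nat_lit 2646) (nat_lit 166) (.e (nat_lit 196352) (nat_lit 0) .nil))))))) (.g (nat_lit 4) .nil .nil))))))) (.nd (nat_lit 2) (.nd (nat_lit 3) (.nd (nat_lit 4) (.nd (nat_lit 5) 
(.lf (nat_lit 89027) (.g (nat_lit 3909) (.e (nat_lit 2030) (nat_lit 140) (.e (nat_lit 688177) (nat_lit 16) (.e (nat_lit 65586) (nat_lit 7) (.e (nat_lit 319531) (nat_lit 16) (.e (nat_lit 286759) (nat_lit 12) (.e (nat_lit 385094) (nat_lit 49) (.e (nat_lit 778297) (nat_lit 0) (.e (nat_lit 1023) (nat_lit 81) .nil)))))))) (.g (nat_lit 6) .nil .nil))) 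
(.lf (nat_lit 89059) (.g (nat_lit 3328) (.e (nat_lit 2030) (nat_lit 140) (.e (nat_lit 688177) (nat_lit 16) (.e (nat_lit 65586) (nat_lit 7) (.e (nat_lit 319534) (nat_lit 16) (.e (nat_lit 286721) (nat_lit 0) (.e (nat_lit 6113) (nat_lit 332) (.e (nat_lit 1374) (nat_lit 104) (.e (nat_lit 303147) (nat_lit 15) .nil)))))))) (.g (nat_lit 4) .nil .nil)))) (.nd (nat_lit 5) 
(.lf (nat_lit 89043) (.g (nat_lit 4320) (.e (nat_lit 2030) (nat_lit 140) (.e (nat_lit 688177) (nat_lit 16) (.e (nat_lit 65586) (nat_lit 7) (.e (nat_lit 319531) (nat_lit 16) (.e (nat_lit 286759) (nat_lit 12) (.e (nat_lit 385106) (nat_lit 50) (.e (nat_lit 786447) (nat_lit 15) .nil))))))) (.g (nat_lit 0) .nil .nil))) 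
(.lf (nat_lit 89075) (.g (nat_lit 2350) (.e (nat_lit 2030) (nat_lit 140) (.e (nat_lit 688177) (nat_lit 16) (.e (nat_lit 65586) (nat_lit 7) (.e (nat_lit 319534) (nat_lit 16) (.e (nat_lit 286756) (nat_lit 10) (.e (nat_lit 344169) (nat_lit 40) (.e (nat_lit 671747) (nat_lit 0) (.e (nat_lit 1035) (nat_lit 81) .nil)))))))) (.g (nat_lit 4) .nil .nil))))) (.nd (nat_lit 4) (.nd (nat_lit 5) 
(.lf (nat_lit 89035) (.g (nat_lit 3246) (.e (nat_lit 2030) (nat_lit 140) (.e (nat_lit 688177) (nat_lit 16) (.e (nat_lit 65586) (nat_lit 7) (.e (nat_lit 319531) (nat_lit 16) (.e (nat_lit 286759) (nat_lit 12) (.e (nat_lit 385104) (nat_lit 50) (.e (nat_lit 786444) (nat_lit 15) .nil))))))) (.g (nat_lit 6) .nil .nil))) 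
(.lf (nat_lit 89067) (.g (nat_lit 2544) (.e (nat_lit 2030) (nat_lit 140) (.e (nat_lit 688177) (nat_lit 16) (.e (nat_lit 65586) (nat_lit 7) (.e (nat_lit 319534) (nat_lit 16) (.e (nat_lit 286753) (nat_lit 10) (.e (nat_lit 344169) (nat_lit 40) (.e (nat_lit 671748) (nat_lit 0) (.e (nat_lit 1025) (nat_lit 81) .nil)))))))) (.g (nat_lit 4) .nil .nil)))) (.nd (nat_lit 5) 
(.lf (nat_lit 89051) (.g (nat_lit 3844) (.e (nat_lit 2030) (nat_lit 140) (.e (nat_lit 688177) (nat_lit 16) (.e (nat_lit 65586) (nat_lit 7) (.e (nat_lit 319533) (nat_lit 16) (.e (nat_lit 286753) (nat_lit 10) (.e (nat_lit 344169) (nat_lit 40) (.e (nat_lit 671748) (nat_lit 0) (.e (nat_lit 1025) (nat_lit 81) .nil)))))))) (.g (nat_lit 6) .nil .nil))) 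
(.lf (nat_lit 89083) (.g (nat_lit 4138) (.e (nat_lit 2030) (nat_lit 140) (.e (nat_lit 688177) (nat_lit 16) (.e (nat_lit 65586) (nat_lit 7) (.e (nat_lit 319534) (nat_lit 16) (.e (nat_lit 286762) (nat_lit 14) (.e (nat_lit 401437) (nat_lit 9) (.e (nat_lit 426402) (nat_lit 15) .nil))))))) (.g (nat_lit 7) .nil .nil)))))) (.nd (nat_lit 3) (.nd (nat_lit 4) (.nd (nat_lit 5) 
(.lf (nat_lit 89031) (.g (nat_lit 3039) (.e (nat_lit 2030) (nat_lit 140) (.e (nat_lit 688177) (nat_lit 16) (.e (nat_lit 65586) (nat_lit 7) (.e (nat_lit 319531) (nat_lit 16) (.e (nat_lit 286759) (nat_lit 12) (.e (nat_lit 385102) (nat_lit 50) (.e (nat_lit 786444) (nat_lit 15) .nil))))))) (.g (nat_lit 5) .nil .nil))) 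
(.lf (nat_lit 89063) (.g (nat_lit 2892) (.e (nat_lit 2030) (nat_lit 140) (.e (nat_lit 688177) (nat_lit 16) (.e (nat_lit 65586) (nat_lit 7) (.e (nat_lit 319534) (nat_lit 16) (.e (nat_lit 286752) (nat_lit 10) (.e (nat_lit 344169) (nat_lit 40) (.e (nat_lit 671748) (nat_lit 0) (.e (nat_lit 1027) (nat_lit 81) .nil)))))))) (.g (nat_lit 4) .nil .nil)))) (.nd (nat_lit 5) 
(.lf (nat_lit 89047) (.g (nat_lit 4561) (.e (nat_lit 2030) (nat_lit 140) (.e (nat_lit 688177) (nat_lit 16) (.e (nat_lit 65586) (nat_lit 7) (.e (nat_lit 319531) (nat_lit 16) (.e (nat_lit 286762) (nat_lit 14) (.e (nat_lit 401437) (nat_lit 9) (.e (nat_lit 426364) (nat_lit 15) .nil))))))) (.g (nat_lit 6) .nil .nil))) 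
(.lf (nat_lit 89079) (.g (nat_lit 3728) (.e (nat_lit 2030) (nat_lit 140) (.e (nat_lit 688177) (nat_lit 16) (.e (nat_lit 65586) (nat_lit 7) (.e (nat_lit 319534) (nat_lit 16) (.e (nat_lit 286756) (nat_lit 10) (.e (nat_lit 344169) (nat_lit 40) (.e (nat_lit 671748) (nat_lit 0) (.e (nat_lit 1032) (nat_lit 81) .nil)))))))) (.g (nat_lit 5) .nil .nil))))) (.nd (nat_lit 4) (.nd (nat_lit 5) 
(.lf (nat_lit 89039) (.g (nat_lit 3953) (.e (nat_lit 2030) (nat_lit 140) (.e (nat_lit 688177) (nat_lit 16) (.e (nat_lit 65586) (nat_lit 7) (.e (nat_lit 319531) (nat_lit 16) (.e (nat_lit 286759) (nat_lit 12) (.e (nat_lit 385105) (nat_lit 50) (.e (nat_lit 786447) (nat_lit 15) .nil))))))) (.g (nat_lit 6) .nil .nil))) 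
(.lf (nat_lit 89071) (.g (nat_lit 2627) (.e (nat_lit 2030) (nat_lit 140) (.e (nat_lit 688177) (nat_lit 16) (.e (nat_lit 65586) (nat_lit 7) (.e (nat_lit 319534) (nat_lit 16) (.e (nat_lit 286756) (nat_lit 10) (.e (nat_lit 344169) (nat_lit 40) (.e (nat_lit 671746) (nat_lit 0) (.e (nat_lit 1027) (nat_lit 81) .nil)))))))) (.g (nat_lit 4) .nil .nil)))) (.nd (nat_lit 5) 
(.lf (nat_lit 89055) (.g (nat_lit 4031) (.e (nat_lit 2030) (nat_lit 140) (.e (nat_lit 688177) (nat_lit 16) (.e (nat_lit 65586) (nat_lit 7) (.e (nat_lit 319533) (nat_lit 16) (.e (nat_lit 286753) (nat_lit 10) (.e (nat_lit 344169) (nat_lit 40) (.e (nat_lit 671748) (nat_lit 0) (.e (nat_lit 1035) (nat_lit 81) .nil)))))))) (.g (nat_lit 6) .nil .nil))) 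
(.lf (nat_lit 89087) (.g (nat_lit 2092) (.e (nat_lit 2030) (nat_lit 140) (.e (nat_lit 688177) (nat_lit 16) (.e (nat_lit 65610) (nat_lit 10) (.e (nat_lit 344097) (nat_lit 18) (.e (nat_lit 5243) (nat_lit 297) .nil))))) .nil))))))))

noncomputable def tv1216 : DT := (.nd (nat_lit 0) (.nd (nat_lit 1) (.nd (nat_lit 2) (.nd (nat_lit 3) (.nd (nat_lit 4) (.nd (nat_lit 5) 
(.lf (nat_lit 89088) (.g (nat_lit 1924) (.e (nat_lit 2030) (nat_lit 140) (.e (nat_lit 688177) (nat_lit 16) (.e (nat_lit 65610) (nat_lit 10) (.e (nat_lit 344156) (nat_lit 36) (.e (nat_lit 638983) (nat_lit 5) (.e (nat_lit 2988) (nat_lit 186) (.e (nat_lit 450304) (nat_lit 0) .nil))))))) (.g (nat_lit 4) .nil .nil))) 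
(.lf (nat_lit 89120) (.g (nat_lit 2081) (.e (nat_lit 2030) (nat_lit 140) (.e (nat_lit 688177) (nat_lit 16) (.e (nat_lit 65617) (nat_lit 10) (.e (nat_lit 344157) (nat_lit 36) (.e (nat_lit 638986) (nat_lit 5) (.e (nat_lit 2989) (nat_lit 186) (.e (nat_lit 450304) (nat_lit 0) .nil))))))) (.g (nat_lit 6) .nil .nil)))) (.nd (nat_lit 5) 
(.lf (nat_lit 89104) (.g (nat_lit 3126) (.e (nat_lit 2030) (nat_lit 140) (.e (nat_lit 688177) (nat_lit 16) (.e (nat_lit 65610) (nat_lit 10) (.e (nat_lit 344160) (nat_lit 37) (.e (nat_lit 647190) (nat_lit 9) (.e (nat_lit 7936) (nat_lit 37) (.e (nat_lit 474880) (nat_lit 0) .nil))))))) (.g (nat_lit 5) .nil .nil))) 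
(.lf (nat_lit 89136) (.g (nat_lit 3800) (.e (nat_lit 2030) (nat_lit 140) (.e (nat_lit 688177) (nat_lit 16) (.e (nat_lit 65617) (nat_lit 10) (.e (nat_lit 344164) (nat_lit 37) (.e (nat_lit 647199) (nat_lit 11) (.e (nat_lit 16438) (nat_lit 9) (.e (nat_lit 426402) (nat_lit 15) .nil))))))) (.g (nat_lit 0) .nil .nil))))) (.nd (nat_lit 4) (.nd (nat_lit 5) 
(.lf (nat_lit 89096) (.g (nat_lit 2105) (.e (nat_lit 2030) (nat_lit 140) (.e (nat_lit 688177) (nat_lit 16) (.e (nat_lit 65610) (nat_lit 10) (.e (nat_lit 344157) (nat_lit 36) (.e (nat_lit 638985) (nat_lit 5) (.e (nat_lit 3005) (nat_lit 186) (.e (nat_lit 450304) (nat_lit 0) .nil))))))) (.g (nat_lit 5) .nil .nil))) 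
(.lf (nat_lit 89128) (.g (nat_lit 2356) (.e (nat_lit 2030) (nat_lit 140) (.e (nat_lit 688177) (nat_lit 16) (.e (nat_lit 65617) (nat_lit 10) (.e (nat_lit 344161) (nat_lit 37) (.e (nat_lit 647190) (nat_lit 9) (.e (nat_lit 7936) (nat_lit 37) (.e (nat_lit 474880) (nat_lit 0) .nil))))))) (.g (nat_lit 5) .nil .nil)))) (.nd (nat_lit 5) 
(.lf (nat_lit 89112) (.g (nat_lit 1219) (.e (nat_lit 2030) (nat_lit 140) (.e (nat_lit 688177) (nat_lit 16) (.e (nat_lit 65617) (nat_lit 10) (.e (nat_lit 344155) (nat_lit 36) .nil)))) .nil)) 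
(.lf (nat_lit 89144) (.g (nat_lit 716) (.e (nat_lit 2030) (nat_lit 140) (.e (nat_lit 688178) (nat_lit 16) (.e (nat_lit 65584) (nat_lit 7) (.e (nat_lit 319530) (nat_lit 16) .nil)))) .nil))))) (.nd (nat_lit 3) (.nd (nat_lit 4) (.nd (nat_lit 5) 
(.lf (nat_lit 89092) (.g (nat_lit 2332) (.e (nat_lit 2030) (nat_lit 140) (.e (nat_lit 688177) (nat_lit 16) (.e (nat_lit 65610) (nat_lit 10) (.e (nat_lit 344157) (nat_lit 36) (.e (nat_lit 638985) (nat_lit 5) (.e (nat_lit 2988) (nat_lit 186) (.e (nat_lit 450304) (nat_lit 0) .nil))))))) (.g (nat_lit 6) .nil .nil))) 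
(.lf (nat_lit 89124) (.g (nat_lit 1748) (.e (nat_lit 2030) (nat_lit 140) (.e (nat_lit 688177) (nat_lit 16) (.e (nat_lit 65617) (nat_lit 10) (.e (nat_lit 344157) (nat_lit 36) (.e (nat_lit 639001) (nat_lit 10) (.e (nat_lit 196352) (nat_lit 0) .nil)))))) (.g (nat_lit 4) .nil .nil)))) (.nd (nat_lit 5) 
(.lf (nat_lit 89108) (.g (nat_lit 3527) (.e (nat_lit 2030) (nat_lit 140) (.e (nat_lit 688177) (nat_lit 16) (.e (nat_lit 65610) (nat_lit 10) (.e (nat_lit 344160) (nat_lit 37) (.e (nat_lit 647199) (nat_lit 11) (.e (nat_lit 16438) (nat_lit 9) (.e (nat_lit 426364) (nat_lit 15) .nil))))))) (.g (nat_lit 6) .nil .nil))) 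
(.lf (nat_lit 89140) (.g (nat_lit 5230) (.e (nat_lit 2030) (nat_lit 140) (.e (nat_lit 688178) (nat_lit 16) (.e (nat_lit 65569) (nat_lit 3) (.e (nat_lit 98359) (nat_lit 26) (.e (nat_lit 426211) (nat_lit 9) (.e (nat_lit 426125) (nat_lit 2) (.e (nat_lit 196615) (nat_lit 0) (.e (nat_lit 60) (nat_lit 0) .nil)))))))) (.g (nat_lit 6) .nil .nil))))) (.nd (nat_lit 4) (.nd (nat_lit 5) 
(.lf (nat_lit 89100) (.g (nat_lit 2310) (.e (nat_lit 2030) (nat_lit 140) (.e (nat_lit 688177) (nat_lit 16) (.e (nat_lit 65610) (nat_lit 10) (.e (nat_lit 344157) (nat_lit 36) (.e (nat_lit 638986) (nat_lit 5) (.e (nat_lit 3004) (nat_lit 186) (.e (nat_lit 450304) (nat_lit 0) .nil))))))) (.g (nat_lit 6) .nil .nil))) 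
(.lf (nat_lit 89132) (.g (nat_lit 3783) (.e (nat_lit 2030) (nat_lit 140) (.e (nat_lit 688177) (nat_lit 16) (.e (nat_lit 65617) (nat_lit 10) (.e (nat_lit 344161) (nat_lit 37) (.e (nat_lit 647199) (nat_lit 11) (.e (nat_lit 16438) (nat_lit 9) (.e (nat_lit 426402) (nat_lit 15) .nil))))))) (.g (nat_lit 7) .nil .nil)))) (.nd (nat_lit 5) 
(.lf (nat_lit 89116) (.g (nat_lit 1952) (.e (nat_lit 2030) (nat_lit 140) (.e (nat_lit 688177) (nat_lit 16) (.e (nat_lit 65617) (nat_lit 10) (.e (nat_lit 344157) (nat_lit 36) (.e (nat_lit 638985) (nat_lit 5) (.e (nat_lit 2998) (nat_lit 186) (.e (nat_lit 450304) (nat_lit 0) .nil))))))) (.g (nat_lit 6) .nil .nil))) 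
(.lf (nat_lit 89148) (.g (nat_lit 1627) (.e (nat_lit 2030) (nat_lit 140) (.e (nat_lit 688178) (nat_lit 16) (.e (nat_lit 65619) (nat_lit 10) (.e (nat_lit 344097) (nat_lit 18) (.e (nat_lit 5243) (nat_lit 297) (.e (nat_lit 229410) (nat_lit 14) (.e (nat_lit 450304) (nat_lit 0) .nil))))))) (.g (nat_lit 4) .nil .nil))))))) (.nd (nat_lit 2) (.nd (nat_lit 3) (.nd (nat_lit 4) (.nd (nat_lit 5) 
(.lf (nat_lit 89090) (.g (nat_lit 1467) (.e (nat_lit 2030) (nat_lit 140) (.e (nat_lit 688177) (nat_lit 16) (.e (nat_lit 65610) (nat_lit 10) (.e (nat_lit 344156) (nat_lit 36) (.e (nat_lit 638985) (nat_lit 5) .nil))))) .nil)) 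
(.lf (nat_lit 89122) (.g (nat_lit 2083) (.e (nat_lit 2030) (nat_lit 140) (.e (nat_lit 688177) (nat_lit 16) (.e (nat_lit 65617) (nat_lit 10) (.e (nat_lit 344157) (nat_lit 36) (.e (nat_lit 638986) (nat_lit 5) (.e (nat_lit 3004) (nat_lit 186) (.e (nat_lit 450304) (nat_lit 0) .nil))))))) (.g (nat_lit 6) .nil .nil)))) (.nd (nat_lit 5) 
(.lf (nat_lit 89106) (.g (nat_lit 3345) (.e (nat_lit 2030) (nat_lit 140) (.e (nat_lit 688177) (nat_lit 16) (.e (nat_lit 65610) (nat_lit 10) (.e (nat_lit 344160) (nat_lit 37) (.e (nat_lit 647195) (nat_lit 9) (.e (nat_lit 7936) (nat_lit 34) (.e (nat_lit 450304) (nat_lit 0) .nil))))))) (.g (nat_lit 5) .nil .nil))) 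
(.lf (nat_lit 89138) (.g (nat_lit 3836) (.e (nat_lit 2030) (nat_lit 140) (.e (nat_lit 688177) (nat_lit 16) (.e (nat_lit 65630) (nat_lit 14) (.e (nat_lit 401454) (nat_lit 12) (.e (nat_lit 475192) (nat_lit 37) (.e (nat_lit 679977) (nat_lit 17) (.e (nat_lit 179968) (nat_lit 15) .nil))))))) (.g (nat_lit 4) .nil .nil))))) (.nd (nat_lit 4) (.nd (nat_lit 5) 
(.lf (nat_lit 89098) (.g (nat_lit 2305) (.e (nat_lit 2030) (nat_lit 140) (.e (nat_lit 688177) (nat_lit 16) (.e (nat_lit 65610) (nat_lit 10) (.e (nat_lit 344157) (nat_lit 36) (.e (nat_lit 638986) (nat_lit 5) (.e (nat_lit 2989) (nat_lit 186) (.e (nat_lit 450304) (nat_lit 0) .nil))))))) (.g (nat_lit 6) .nil .nil))) 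
(.lf (nat_lit 89130) (.g (nat_lit 2603) (.e (nat_lit 2030) (nat_lit 140) (.e (nat_lit 688177) (nat_lit 16) (.e (nat_lit 65617) (nat_lit 10) (.e (nat_lit 344161) (nat_lit 37) (.e (nat_lit 647195) (nat_lit 9) (.e (nat_lit 420) (nat_lit 32) (.e (nat_lit 426262) (nat_lit 9) (.e (nat_lit 426401) (nat_lit 15) .nil)))))))) (.g (nat_lit 4) .nil .nil)))) (.nd (nat_lit 5) 
(.lf (nat_lit 89114) (.g (nat_lit 2098) (.e (nat_lit 2030) (nat_lit 140) (.e (nat_lit 688177) (nat_lit 16) (.e (nat_lit 65617) (nat_lit 10) (.e (nat_lit 344157) (nat_lit 36) (.e (nat_lit 638985) (nat_lit 5) (.e (nat_lit 2988) (nat_lit 186) (.e (nat_lit 450304) (nat_lit 0) .nil))))))) (.g (nat_lit 6) .nil .nil))) 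
(.lf (nat_lit 89146) (.g (nat_lit 1258) (.e (nat_lit 2030) (nat_lit 140) (.e (nat_lit 688178) (nat_lit 16) (.e (nat_lit 65604) (nat_lit 9) (.e (nat_lit 335997) (nat_lit 1) (.e (nat_lit 57857) (nat_lit 254) (.e (nat_lit 163933) (nat_lit 17) (.e (nat_lit 474880) (nat_lit 0) .nil))))))) (.g (nat_lit 4) .nil .nil)))))) (.nd (nat_lit 3) (.nd (nat_lit 4) (.nd (nat_lit 5) 
(.lf (nat_lit 89094) (.g (nat_lit 2186) (.e (nat_lit 2030) (nat_lit 140) (.e (nat_lit 688177) (nat_lit 16) (.e (nat_lit 65610) (nat_lit 10) (.e (nat_lit 344157) (nat_lit 36) (.e (nat_lit 638985) (nat_lit 5) (.e (nat_lit 2998) (nat_lit 186) (.e (nat_lit 450304) (nat_lit 0) .nil))))))) (.g (nat_lit 6) .nil .nil))) 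
(.lf (nat_lit 89126) (.g (nat_lit 1884) (.e (nat_lit 2030) (nat_lit 140) (.e (nat_lit 688177) (nat_lit 16) (.e (nat_lit 65617) (nat_lit 10) (.e (nat_lit 344161) (nat_lit 37) (.e (nat_lit 647188) (nat_lit 9) .nil))))) .nil))) (.nd (nat_lit 5) 
(.lf (nat_lit 89110) (.g (nat_lit 382) (.e (nat_lit 2030) (nat_lit 140) (.e (nat_lit 688177) (nat_lit 16) (.e (nat_lit 65617) (nat_lit 10) .nil))) .nil)) 
(.lf (nat_lit 89142) (.g (nat_lit 5656) (.e (nat_lit 2030) (nat_lit 140) (.e (nat_lit 688178) (nat_lit 16) (.e (nat_lit 65571) (nat_lit 3) (.e (nat_lit 98359) (nat_lit 26) (.e (nat_lit 426211) (nat_lit 9) (.e (nat_lit 426125) (nat_lit 2) (.e (nat_lit 196615) (nat_lit 0) (.e (nat_lit 60) (nat_lit 0) .nil)))))))) (.g (nat_lit 6) .nil .nil))))) (.nd (nat_lit 4) (.nd (nat_lit 5) 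
(.lf (nat_lit 89102) (.g (nat_lit 1919) (.e (nat_lit 2030) (nat_lit 140) (.e (nat_lit 688177) (nat_lit 16) (.e (nat_lit 65610) (nat_lit 10) (.e (nat_lit 344157) (nat_lit 36) (.e (nat_lit 639001) (nat_lit 10) (.e (nat_lit 196352) (nat_lit 0) .nil)))))) (.g (nat_lit 4) .nil .nil))) 
(.lf (nat_lit 89134) (.g (nat_lit 1002) (.e (nat_lit 2030) (nat_lit 140) (.e (nat_lit 688177) (nat_lit 16) (.e (nat_lit 65617) (nat_lit 10) (.e (nat_lit 344164) (nat_lit 37) .nil)))) .nil))) (.nd (nat_lit 5) 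
(.lf (nat_lit 89118) (.g (nat_lit 1872) (.e (nat_lit 2030) (nat_lit 140) (.e (nat_lit 688177) (nat_lit 16) (.e (nat_lit 65617) (nat_lit 10) (.e (nat_lit 344157) (nat_lit 36) (.e (nat_lit 638985) (nat_lit 5) (.e (nat_lit 3005) (nat_lit 186) (.e (nat_lit 450304) (nat_lit 0) .nil))))))) (.g (nat_lit 5) .nil .nil))) 
(.lf (nat_lit 89150) (.g (nat_lit 1030) (.e (nat_lit 2030) (nat_lit 140) (.e (nat_lit 688178) (nat_lit 16) (.e (nat_lit 65619) (nat_lit 10) (.e (nat_lit 344154) (nat_lit 35) .nil)))) .nil))))))) (.nd (nat_lit 1) (.nd (nat_lit 2) (.nd (nat_lit 3) (.nd (nat_lit 4) (.nd (nat_lit 5) 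
(.lf (nat_lit 89089) (.g (nat_lit 1924) (.e (nat_lit 2030) (nat_lit 140) (.e (nat_lit 688177) (nat_lit 16) (.e (nat_lit 65610) (nat_lit 10) (.e (nat_lit 344156) (nat_lit 36) (.e (nat_lit 638983) (nat_lit 5) (.e (nat_lit 3004) (nat_lit 186) (.e (nat_lit 450304) (nat_lit 0) .nil))))))) (.g (nat_lit 4) .nil .nil))) 
(.lf (nat_lit 89121) (.g (nat_lit 1998) (.e (nat_lit 2030) (nat_lit 140) (.e (nat_lit 688177) (nat_lit 16) (.e (nat_lit 65617) (nat_lit 10) (.e (nat_lit 344157) (nat_lit 36) (.e (nat_lit 638986) (nat_lit 5) (.e (nat_lit 2998) (nat_lit 186) (.e (nat_lit 450304) (nat_lit 0) .nil))))))) (.g (nat_lit 6) .nil .nil)))) (.nd (nat_lit 5) 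
(.lf (nat_lit 89105) (.g (nat_lit 1881) (.e (nat_lit 2030) (nat_lit 140) (.e (nat_lit 688177) (nat_lit 16) (.e (nat_lit 65610) (nat_lit 10) (.e (nat_lit 344160) (nat_lit 37) (.e (nat_lit 647195) (nat_lit 9) (.e (nat_lit 420) (nat_lit 32) (.e (nat_lit 426262) (nat_lit 9) (.e (nat_lit 433920) (nat_lit 15) .nil)))))))) (.g (nat_lit 4) .nil .nil))) 
(.lf (nat_lit 89137) (.g (nat_lit 2748) (.e (nat_lit 2030) (nat_lit 140) (.e (nat_lit 688177) (nat_lit 16) (.e (nat_lit 65625) (nat_lit 13) (.e (nat_lit 393283) (nat_lit 24) (.e (nat_lit 434268) (nat_lit 36) (.e (nat_lit 639005) (nat_lit 13) (.e (nat_lit 1027) (nat_lit 81) .nil))))))) (.g (nat_lit 5) .nil .nil))))) (.nd (nat_lit 4) (.nd (nat_lit 5) 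
(.lf (nat_lit 89097) (.g (nat_lit 2305) (.e (nat_lit 2030) (nat_lit 140) (.e (nat_lit 688177) (nat_lit 16) (.e (nat_lit 65610) (nat_lit 10) (.e (nat_lit 344157) (nat_lit 36) (.e (nat_lit 638986) (nat_lit 5) (.e (nat_lit 2988) (nat_lit 186) (.e (nat_lit 450304) (nat_lit 0) .nil))))))) (.g (nat_lit 6) .nil .nil))) 
(.lf (nat_lit 89129) (.g (nat_lit 1579) (.e (nat_lit 2030) (nat_lit 140) (.e (nat_lit 688177) (nat_lit 16) (.e (nat_lit 65617) (nat_lit 10) (.e (nat_lit 344161) (nat_lit 37) (.e (nat_lit 647195) (nat_lit 9) .nil))))) .nil))) (.nd (nat_lit 5) 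
(.lf (nat_lit 89113) (.g (nat_lit 1764) (.e (nat_lit 2030) (nat_lit 140) (.e (nat_lit 688177) (nat_lit 16) (.e (nat_lit 65617) (nat_lit 10) (.e (nat_lit 344156) (nat_lit 36) (.e (nat_lit 638983) (nat_lit 5) .nil))))) .nil)) 
(.lf (nat_lit 89145) (.g (nat_lit 2687) (.e (nat_lit 2030) (nat_lit 140) (.e (nat_lit 688178) (nat_lit 16) (.e (nat_lit 65604) (nat_lit 9) (.e (nat_lit 335997) (nat_lit 1) (.e (nat_lit 57857) (nat_lit 254) (.e (nat_lit 163920) (nat_lit 14) (.e (nat_lit 450304) (nat_lit 0) .nil))))))) (.g (nat_lit 6) .nil .nil)))))) (.nd (nat_lit 3) (.nd (nat_lit 4) (.nd (nat_lit 5) 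
(.lf (nat_lit 89093) (.g (nat_lit 2302) (.e (nat_lit 2030) (nat_lit 140) (.e (nat_lit 688177) (nat_lit 16) (.e (nat_lit 65610) (nat_lit 10) (.e (nat_lit 344157) (nat_lit 36) (.e (nat_lit 638985) (nat_lit 5) (.e (nat_lit 2989) (nat_lit 186) (.e (nat_lit 450304) (nat_lit 0) .nil))))))) (.g (nat_lit 6) .nil .nil))) 
(.lf (nat_lit 89125) (.g (nat_lit 1219) (.e (nat_lit 2030) (nat_lit 140) (.e (nat_lit 688177) (nat_lit 16) (.e (nat_lit 65617) (nat_lit 10) (.e (nat_lit 344158) (nat_lit 37) .nil)))) .nil))) (.nd (nat_lit 5) 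
(.lf (nat_lit 89109) (.g (nat_lit 3683) (.e (nat_lit 2030) (nat_lit 140) (.e (nat_lit 688177) (nat_lit 16) (.e (nat_lit 65610) (nat_lit 10) (.e (nat_lit 344160) (nat_lit 37) (.e (nat_lit 647199) (nat_lit 11) (.e (nat_lit 16438) (nat_lit 9) (.e (nat_lit 426402) (nat_lit 15) .nil))))))) (.g (nat_lit 6) .nil .nil))) 
(.lf (nat_lit 89141) (.g (nat_lit 1766) (.e (nat_lit 2030) (nat_lit 140) (.e (nat_lit 688178) (nat_lit 16) (.e (nat_lit 65569) (nat_lit 3) (.e (nat_lit 98381) (nat_lit 31) (.e (nat_lit 466947) (nat_lit 0) .nil))))) .nil)))) (.nd (nat_lit 4) (.nd (nat_lit 5) 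
(.lf (nat_lit 89101) (.g (nat_lit 2228) (.e (nat_lit 2030) (nat_lit 140) (.e (nat_lit 688177) (nat_lit 16) (.e (nat_lit 65610) (nat_lit 10) (.e (nat_lit 344157) (nat_lit 36) (.e (nat_lit 638986) (nat_lit 5) (.e (nat_lit 3005) (nat_lit 186) (.e (nat_lit 450304) (nat_lit 0) .nil))))))) (.g (nat_lit 6) .nil .nil))) 
(.lf (nat_lit 89133) (.g (nat_lit 2529) (.e (nat_lit 2030) (nat_lit 140) (.e (nat_lit 688177) (nat_lit 16) (.e (nat_lit 65617) (nat_lit 10) (.e (nat_lit 344163) (nat_lit 37) (.e (nat_lit 647199) (nat_lit 11) (.e (nat_lit 16438) (nat_lit 9) (.e (nat_lit 426364) (nat_lit 15) .nil))))))) (.g (nat_lit 5) .nil .nil)))) (.nd (nat_lit 5) 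
(.lf (nat_lit 89117) (.g (nat_lit 2094) (.e (nat_lit 2030) (nat_lit 140) (.e (nat_lit 688177) (nat_lit 16) (.e (nat_lit 65617) (nat_lit 10) (.e (nat_lit 344157) (nat_lit 36) (.e (nat_lit 638985) (nat_lit 5) (.e (nat_lit 3004) (nat_lit 186) (.e (nat_lit 450304) (nat_lit 0) .nil))))))) (.g (nat_lit 6) .nil .nil))) 
(.lf (nat_lit 89149) (.g (nat_lit 1521) (.e (nat_lit 2030) (nat_lit 140) (.e (nat_lit 688178) (nat_lit 16) (.e (nat_lit 65619) (nat_lit 10) (.e (nat_lit 344097) (nat_lit 18) (.e (nat_lit 5243) (nat_lit 297) (.e (nat_lit 229412) (nat_lit 14) (.e (nat_lit 450304) (nat_lit 0) .nil))))))) (.g (nat_lit 4) .nil .nil))))))) (.nd (nat_lit 2) (.nd (nat_lit 3) (.nd (nat_lit 4) (.nd (nat_lit 5) 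
(.lf (nat_lit 89091) (.g (nat_lit 2142) (.e (nat_lit 2030) (nat_lit 140) (.e (nat_lit 688177) (nat_lit 16) (.e (nat_lit 65610) (nat_lit 10) (.e (nat_lit 344156) (nat_lit 36) (.e (nat_lit 639001) (nat_lit 10) (.e (nat_lit 196352) (nat_lit 0) .nil)))))) (.g (nat_lit 4) .nil .nil))) 
(.lf (nat_lit 89123) (.g (nat_lit 2003) (.e (nat_lit 2030) (nat_lit 140) (.e (nat_lit 688177) (nat_lit 16) (.e (nat_lit 65617) (nat_lit 10) (.e (nat_lit 344157) (nat_lit 36) (.e (nat_lit 638986) (nat_lit 5) (.e (nat_lit 3005) (nat_lit 186) (.e (nat_lit 450304) (nat_lit 0) .nil))))))) (.g (nat_lit 6) .nil .nil)))) (.nd (nat_lit 5) 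
(.lf (nat_lit 89107) (.g (nat_lit 3345) (.e (nat_lit 2030) (nat_lit 140) (.e (nat_lit 688177) (nat_lit 16) (.e (nat_lit 65610) (nat_lit 10) (.e (nat_lit 344160) (nat_lit 37) (.e (nat_lit 647195) (nat_lit 9) (.e (nat_lit 7936) (nat_lit 37) (.e (nat_lit 474880) (nat_lit 0) .nil))))))) (.g (nat_lit 5) .nil .nil))) 
(.lf (nat_lit 89139) (.g (nat_lit 3537) (.e (nat_lit 2030) (nat_lit 140) (.e (nat_lit 688177) (nat_lit 16) (.e (nat_lit 65630) (nat_lit 14) (.e (nat_lit 401454) (nat_lit 12) (.e (nat_lit 475218) (nat_lit 44) (.e (nat_lit 737294) (nat_lit 3) (.e (nat_lit 40965) (nat_lit 0) (.e (nat_lit 1046) (nat_lit 81) .nil)))))))) (.g (nat_lit 4) .nil .nil))))) (.nd (nat_lit 4) (.nd (nat_lit 5) 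
(.lf (nat_lit 89099) (.g (nat_lit 2223) (.e (nat_lit 2030) (nat_lit 140) (.e (nat_lit 688177) (nat_lit 16) (.e (nat_lit 65610) (nat_lit 10) (.e (nat_lit 344157) (nat_lit 36) (.e (nat_lit 638986) (nat_lit 5) (.e (nat_lit 2998) (nat_lit 186) (.e (nat_lit 450304) (nat_lit 0) .nil))))))) (.g (nat_lit 6) .nil .nil))) 
(.lf (nat_lit 89131) (.g (nat_lit 3680) (.e (nat_lit 2030) (nat_lit 140) (.e (nat_lit 688177) (nat_lit 16) (.e (nat_lit 65617) (nat_lit 10) (.e (nat_lit 344161) (nat_lit 37) (.e (nat_lit 647199) (nat_lit 11) (.e (nat_lit 16438) (nat_lit 9) (.e (nat_lit 426364) (nat_lit 15) .nil))))))) (.g (nat_lit 7) .nil .nil)))) (.nd (nat_lit 5) 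
(.lf (nat_lit 89115) (.g (nat_lit 2068) (.e (nat_lit 2030) (nat_lit 140) (.e (nat_lit 688177) (nat_lit 16) (.e (nat_lit 65617) (nat_lit 10) (.e (nat_lit 344157) (nat_lit 36) (.e (nat_lit 638985) (nat_lit 5) (.e (nat_lit 2989) (nat_lit 186) (.e (nat_lit 450304) (nat_lit 0) .nil))))))) (.g (nat_lit 6) .nil .nil))) 
(.lf (nat_lit 89147) (.g (nat_lit 1756) (.e (nat_lit 2030) (nat_lit 140) (.e (nat_lit 688178) (nat_lit 16) (.e (nat_lit 65619) (nat_lit 10) (.e (nat_lit 344097) (nat_lit 18) (.e (nat_lit 5055) (nat_lit 292) (.e (nat_lit 2646) (nat_lit 166) (.e (nat_lit 196352) (nat_lit 0) .nil))))))) (.g (nat_lit 4) .nil .nil)))))) (.nd (nat_lit 3) (.nd (nat_lit 4) (.nd (nat_lit 5) 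
(.lf (nat_lit 89095) (.g (nat_lit 2327) (.e (nat_lit 2030) (nat_lit 140) (.e (nat_lit 688177) (nat_lit 16) (.e (nat_lit 65610) (nat_lit 10) (.e (nat_lit 344157) (nat_lit 36) (.e (nat_lit 638985) (nat_lit 5) (.e (nat_lit 3004) (nat_lit 186) (.e (nat_lit 450304) (nat_lit 0) .nil))))))) (.g (nat_lit 6) .nil .nil))) 
(.lf (nat_lit 89127) (.g (nat_lit 2341) (.e (nat_lit 2030) (nat_lit 140) (.e (nat_lit 688177) (nat_lit 16) (.e (nat_lit 65617) (nat_lit 10) (.e (nat_lit 344161) (nat_lit 37) (.e (nat_lit 647190) (nat_lit 9) (.e (nat_lit 7936) (nat_lit 34) (.e (nat_lit 450304) (nat_lit 0) .nil))))))) (.g (nat_lit 5) .nil .nil)))) (.nd (nat_lit 5) 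
(.lf (nat_lit 89111) (.g (nat_lit 1014) (.e (nat_lit 2030) (nat_lit 140) (.e (nat_lit 688177) (nat_lit 16) (.e (nat_lit 65617) (nat_lit 10) (.e (nat_lit 344154) (nat_lit 35) .nil)))) .nil)) 
(.lf (nat_lit 89143) (.g (nat_lit 1557) (.e (nat_lit 2030) (nat_lit 140) (.e (nat_lit 688178) (nat_lit 16) (.e (nat_lit 65571) (nat_lit 3) (.e (nat_lit 98381) (nat_lit 31) .nil)))) .nil)))) (.nd (nat_lit 4) (.nd (nat_lit 5) 
(.lf (nat_lit 89103) (.g (nat_lit 3111) (.e (nat_lit 2030) (nat_lit 140) (.e (nat_lit 688177) (nat_lit 16) (.e (nat_lit 65610) (nat_lit 10) (.e (nat_lit 344160) (nat_lit 37) (.e (nat_lit 647190) (nat_lit 9) (.e (nat_lit 7936) (nat_lit 34) (.e (nat_lit 450304) (nat_lit 0) .nil))))))) (.g (nat_lit 5) .nil .nil))) 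
(.lf (nat_lit 89135) (.g (nat_lit 3697) (.e (nat_lit 2030) (nat_lit 140) (.e (nat_lit 688177) (nat_lit 16) (.e (nat_lit 65617) (nat_lit 10) (.e (nat_lit 344164) (nat_lit 37) (.e (nat_lit 647199) (nat_lit 11) (.e (nat_lit 16438) (nat_lit 9) (.e (nat_lit 426364) (nat_lit 15) .nil))))))) (.g (nat_lit 7) .nil .nil)))) (.nd (nat_lit 5) 
(.lf (nat_lit 89119) (.g (nat_lit 2080) (.e (nat_lit 2030) (nat_lit 140) (.e (nat_lit 688177) (nat_lit 16) (.e (nat_lit 65617) (nat_lit 10) (.e (nat_lit 344157) (nat_lit 36) (.e (nat_lit 638986) (nat_lit 5) (.e (nat_lit 2988) (nat_lit 186) (.e (nat_lit 450304) (nat_lit 0) .nil))))))) (.g (nat_lit 6) .nil .nil))) 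
(.lf (nat_lit 89151) (.g (nat_lit 1849) (.e (nat_lit 2030) (nat_lit 140) (.e (nat_lit 688178) (nat_lit 16) (.e (nat_lit 65619) (nat_lit 10) (.e (nat_lit 344154) (nat_lit 35) (.e (nat_lit 630804) (nat_lit 10) (.e (nat_lit 196352) (nat_lit 0) .nil)))))) (.g (nat_lit 4) .nil .nil)))))))))

noncomputable def tv1217 : DT := (.nd (nat_lit 0) (.nd (nat_lit 1) (.nd (nat_lit 2) (.nd (nat_lit 3) (.nd (nat_lit 4) (.nd (nat_lit 5) 
(.lf (nat_lit 89152) (.g (nat_lit 1844) (.e (nat_lit 2030) (nat_lit 140) (.e (nat_lit 688178) (nat_lit 16) (.e (nat_lit 65619) (nat_lit 10) (.e (nat_lit 344156) (nat_lit 36) (.e (nat_lit 639001) (nat_lit 10) (.e (nat_lit 196352) (nat_lit 0) .nil)))))) (.g (nat_lit 4) .nil .nil))) 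
(.lf (nat_lit 89184) (.g (nat_lit 552) (.e (nat_lit 2030) (nat_lit 140) (.e (nat_lit 688184) (nat_lit 18) (.e (nat_lit 81943) (nat_lit 20) (.e (nat_lit 1963) (nat_lit 134) .nil)))) .nil))) (.nd (nat_lit 5) 
(.lf (nat_lit 89168) (.g (nat_lit 2925) (.e (nat_lit 2030) (nat_lit 140) (.e (nat_lit 688178) (nat_lit 16) (.e (nat_lit 65619) (nat_lit 10) (.e (nat_lit 344160) (nat_lit 37) (.e (nat_lit 647195) (nat_lit 9) (.e (nat_lit 7936) (nat_lit 37) (.e (nat_lit 474880) (nat_lit 0) .nil))))))) (.g (nat_lit 5) .nil .nil))) 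
(.lf (nat_lit 89200) (.g (nat_lit 1721) (.e (nat_lit 2030) (nat_lit 140) (.e (nat_lit 688186) (nat_lit 18) (.e (nat_lit 81959) (nat_lit 24) (.e (nat_lit 130816) (nat_lit 254) (.e (nat_lit 163933) (nat_lit 17) (.e (nat_lit 474880) (nat_lit 0) .nil)))))) (.g (nat_lit 5) .nil .nil))))) (.nd (nat_lit 4) (.nd (nat_lit 5) 
(.lf (nat_lit 89160) (.g (nat_lit 2248) (.e (nat_lit 2030) (nat_lit 140) (.e (nat_lit 688178) (nat_lit 16) (.e (nat_lit 65619) (nat_lit 10) (.e (nat_lit 344157) (nat_lit 36) (.e (nat_lit 638986) (nat_lit 5) (.e (nat_lit 2998) (nat_lit 186) (.e (nat_lit 450304) (nat_lit 0) .nil))))))) (.g (nat_lit 6) .nil .nil))) 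
(.lf (nat_lit 89192) (.g (nat_lit 950) (.e (nat_lit 2030) (nat_lit 140) (.e (nat_lit 688186) (nat_lit 18) (.e (nat_lit 81959) (nat_lit 24) (.e (nat_lit 123146) (nat_lit 250) .nil)))) .nil))) (.nd (nat_lit 5) 
(.lf (nat_lit 89176) (.g (nat_lit 3376) (.e (nat_lit 2030) (nat_lit 140) (.e (nat_lit 688182) (nat_lit 17) (.e (nat_lit 73745) (nat_lit 3) (.e (nat_lit 516151) (nat_lit 9) (.e (nat_lit 426211) (nat_lit 9) (.e (nat_lit 426125) (nat_lit 2) (.e (nat_lit 204544) (nat_lit 0) (.e (nat_lit 60) (nat_lit 0) .nil)))))))) (.g (nat_lit 5) .nil .nil))) 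
(.lf (nat_lit 89208) (.g (nat_lit 1865) (.e (nat_lit 2031) (nat_lit 140) (.e (nat_lit 688170) (nat_lit 15) (.e (nat_lit 57478) (nat_lit 28) (.e (nat_lit 557098) (nat_lit 13) (.e (nat_lit 179968) (nat_lit 18) (.e (nat_lit 98376) (nat_lit 30) (.e (nat_lit 458789) (nat_lit 23) (.e (nat_lit 532484) (nat_lit 0) .nil)))))))) (.g (nat_lit 4) .nil .nil)))))) 
(.nd (nat_lit 3) (.nd (nat_lit 4) (.nd (nat_lit 5) 
(.lf (nat_lit 89156) (.g (nat_lit 2274) (.e (nat_lit 2030) (nat_lit 140) (.e (nat_lit 688178) (nat_lit 16) (.e (nat_lit 65619) (nat_lit 10) (.e (nat_lit 344157) (nat_lit 36) (.e (nat_lit 638985) (nat_lit 5) (.e (nat_lit 3004) (nat_lit 186) (.e (nat_lit 450304) (nat_lit 0) .nil))))))) (.g (nat_lit 6) .nil .nil))) 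
(.lf (nat_lit 89188) (.g (nat_lit 1144) (.e (nat_lit 2030) (nat_lit 140) (.e (nat_lit 688186) (nat_lit 18) (.e (nat_lit 81950) (nat_lit 21) (.e (nat_lit 57824) (nat_lit 250) .nil)))) .nil))) (.nd (nat_lit 5) 
(.lf (nat_lit 89172) (.g (nat_lit 6909) (.e (nat_lit 2030) (nat_lit 140) (.e (nat_lit 688180) (nat_lit 17) (.e (nat_lit 73747) (nat_lit 3) (.e (nat_lit 516151) (nat_lit 9) (.e (nat_lit 426211) (nat_lit 9) (.e (nat_lit 426125) (nat_lit 2) (.e (nat_lit 196615) (nat_lit 0) (.e (nat_lit 60) (nat_lit 0) .nil)))))))) (.g (nat_lit 6) .nil .nil))) 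
(.lf (nat_lit 89204) (.g (nat_lit 1928) (.e (nat_lit 2031) (nat_lit 140) (.e (nat_lit 688169) (nat_lit 15) (.e (nat_lit 57479) (nat_lit 28) (.e (nat_lit 557105) (nat_lit 14) (.e (nat_lit 180252) (nat_lit 10) (.e (nat_lit 573489) (nat_lit 14) (.e (nat_lit 73755) (nat_lit 8) (.e (nat_lit 557065) (nat_lit 9) (.e (nat_lit 12) (nat_lit 0) .nil))))))))) (.g (nat_lit 4) .nil .nil))))) 
(.nd (nat_lit 4) (.nd (nat_lit 5) 
(.lf (nat_lit 89164) (.g (nat_lit 2341) (.e (nat_lit 2030) (nat_lit 140) (.e (nat_lit 688178) (nat_lit 16) (.e (nat_lit 65619) (nat_lit 10) (.e (nat_lit 344160) (nat_lit 37) (.e (nat_lit 647190) (nat_lit 9) (.e (nat_lit 7936) (nat_lit 34) (.e (nat_lit 450304) (nat_lit 0) .nil))))))) (.g (nat_lit 5) .nil .nil))) 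
(.lf (nat_lit 89196) (.g (nat_lit 2401) (.e (nat_lit 2030) (nat_lit 140) (.e (nat_lit 688186) (nat_lit 18) (.e (nat_lit 81959) (nat_lit 24) (.e (nat_lit 123153) (nat_lit 250) (.e (nat_lit 2650) (nat_lit 166) (.e (nat_lit 196352) (nat_lit 0) .nil)))))) (.g (nat_lit 5) .nil .nil)))) (.nd (nat_lit 5) 
(.lf (nat_lit 89180) (.g (nat_lit 1882) (.e (nat_lit 2030) (nat_lit 140) (.e (nat_lit 688184) (nat_lit 18) (.e (nat_lit 89856) (nat_lit 0) (.e (nat_lit 3604) (nat_lit 225) (.e (nat_lit 761912) (nat_lit 18) (.e (nat_lit 196352) (nat_lit 0) .nil)))))) (.g (nat_lit 5) .nil .nil))) 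
(.lf (nat_lit 89212) (.g (nat_lit 2259) (.e (nat_lit 2031) (nat_lit 140) (.e (nat_lit 688170) (nat_lit 15) (.e (nat_lit 57478) (nat_lit 28) (.e (nat_lit 557107) (nat_lit 15) (.e (nat_lit 196352) (nat_lit 11) .nil))))) .nil)))))) (.nd (nat_lit 2) (.nd (nat_lit 3) (.nd (nat_lit 4) (.nd (nat_lit 5) 
(.lf (nat_lit 89154) (.g (nat_lit 2249) (.e (nat_lit 2030) (nat_lit 140) (.e (nat_lit 688178) (nat_lit 16) (.e (nat_lit 65619) (nat_lit 10) (.e (nat_lit 344157) (nat_lit 36) (.e (nat_lit 638985) (nat_lit 5) (.e (nat_lit 2989) (nat_lit 186) (.e (nat_lit 450304) (nat_lit 0) .nil))))))) (.g (nat_lit 6) .nil .nil))) 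
(.lf (nat_lit 89186) (.g (nat_lit 1430) (.e (nat_lit 2030) (nat_lit 140) (.e (nat_lit 688186) (nat_lit 18) (.e (nat_lit 89856) (nat_lit 0) (.e (nat_lit 3605) (nat_lit 225) (.e (nat_lit 761914) (nat_lit 18) (.e (nat_lit 196352) (nat_lit 0) .nil)))))) (.g (nat_lit 5) .nil .nil)))) (.nd (nat_lit 5) 
(.lf (nat_lit 89170) (.g (nat_lit 3479) (.e (nat_lit 2030) (nat_lit 140) (.e (nat_lit 688178) (nat_lit 16) (.e (nat_lit 65619) (nat_lit 10) (.e (nat_lit 344160) (nat_lit 37) (.e (nat_lit 647199) (nat_lit 11) (.e (nat_lit 16438) (nat_lit 9) (.e (nat_lit 426402) (nat_lit 15) .nil))))))) (.g (nat_lit 6) .nil .nil))) 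
(.lf (nat_lit 89202) (.g (nat_lit 2764) (.e (nat_lit 2031) (nat_lit 140) (.e (nat_lit 688166) (nat_lit 15) (.e (nat_lit 57479) (nat_lit 28) (.e (nat_lit 557105) (nat_lit 14) (.e (nat_lit 180252) (nat_lit 10) (.e (nat_lit 573489) (nat_lit 14) (.e (nat_lit 73755) (nat_lit 8) (.e (nat_lit 557066) (nat_lit 9) (.e (nat_lit 5) (nat_lit 0) .nil))))))))) (.g (nat_lit 4) .nil .nil))))) 
(.nd (nat_lit 4) (.nd (nat_lit 5) 
(.lf (nat_lit 89162) (.g (nat_lit 2245) (.e (nat_lit 2030) (nat_lit 140) (.e (nat_lit 688178) (nat_lit 16) (.e (nat_lit 65619) (nat_lit 10) (.e (nat_lit 344157) (nat_lit 36) (.e (nat_lit 638986) (nat_lit 5) (.e (nat_lit 3005) (nat_lit 186) (.e (nat_lit 450304) (nat_lit 0) .nil))))))) (.g (nat_lit 6) .nil .nil))) 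
(.lf (nat_lit 89194) (.g (nat_lit 1141) (.e (nat_lit 2030) (nat_lit 140) (.e (nat_lit 688186) (nat_lit 18) (.e (nat_lit 81959) (nat_lit 24) (.e (nat_lit 123148) (nat_lit 250) .nil)))) .nil))) (.nd (nat_lit 5) 
(.lf (nat_lit 89178) (.g (nat_lit 4082) (.e (nat_lit 2030) (nat_lit 140) (.e (nat_lit 688182) (nat_lit 17) (.e (nat_lit 73748) (nat_lit 3) (.e (nat_lit 516151) (nat_lit 9) (.e (nat_lit 426211) (nat_lit 9) (.e (nat_lit 426125) (nat_lit 2) (.e (nat_lit 204544) (nat_lit 0) (.e (nat_lit 60) (nat_lit 0) .nil)))))))) (.g (nat_lit 5) .nil .nil))) 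
(.lf (nat_lit 89210) (.g (nat_lit 2622) (.e (nat_lit 2031) (nat_lit 140) (.e (nat_lit 688170) (nat_lit 15) (.e (nat_lit 57478) (nat_lit 28) (.e (nat_lit 557105) (nat_lit 14) (.e (nat_lit 180252) (nat_lit 10) (.e (nat_lit 573489) (nat_lit 14) (.e (nat_lit 73755) (nat_lit 8) (.e (nat_lit 557065) (nat_lit 9) (.e (nat_lit 5) (nat_lit 0) .nil))))))))) (.g (nat_lit 5) .nil .nil)))))) 
(.nd (nat_lit 3) (.nd (nat_lit 4) (.nd (nat_lit 5) 
(.lf (nat_lit 89158) (.g (nat_lit 2328) (.e (nat_lit 2030) (nat_lit 140) (.e (nat_lit 688178) (nat_lit 16) (.e (nat_lit 65619) (nat_lit 10) (.e (nat_lit 344157) (nat_lit 36) (.e (nat_lit 638986) (nat_lit 5) (.e (nat_lit 2988) (nat_lit 186) (.e (nat_lit 450304) (nat_lit 0) .nil))))))) (.g (nat_lit 6) .nil .nil))) 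
(.lf (nat_lit 89190) (.g (nat_lit 2152) (.e (nat_lit 2030) (nat_lit 140) (.e (nat_lit 688186) (nat_lit 18) (.e (nat_lit 81950) (nat_lit 21) (.e (nat_lit 57857) (nat_lit 254) (.e (nat_lit 163920) (nat_lit 14) (.e (nat_lit 450304) (nat_lit 0) .nil)))))) (.g (nat_lit 5) .nil .nil)))) (.nd (nat_lit 5) 
(.lf (nat_lit 89174) (.g (nat_lit 2564) (.e (nat_lit 2030) (nat_lit 140) (.e (nat_lit 688180) (nat_lit 17) (.e (nat_lit 73747) (nat_lit 3) (.e (nat_lit 516174) (nat_lit 14) (.e (nat_lit 466947) (nat_lit 0) (.e (nat_lit 7936) (nat_lit 121) (.e (nat_lit 532490) (nat_lit 0) .nil))))))) (.g (nat_lit 4) .nil .nil))) 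
(.lf (nat_lit 89206) (.g (nat_lit 2552) (.e (nat_lit 2031) (nat_lit 140) (.e (nat_lit 688169) (nat_lit 15) (.e (nat_lit 57479) (nat_lit 28) (.e (nat_lit 557109) (nat_lit 15) (.e (nat_lit 196352) (nat_lit 18) .nil))))) .nil)))) (.nd (nat_lit 4) (.nd (nat_lit 5) 
(.lf (nat_lit 89166) (.g (nat_lit 2244) (.e (nat_lit 2030) (nat_lit 140) (.e (nat_lit 688178) (nat_lit 16) (.e (nat_lit 65619) (nat_lit 10) (.e (nat_lit 344160) (nat_lit 37) (.e (nat_lit 647195) (nat_lit 9) (.e (nat_lit 426) (nat_lit 32) (.e (nat_lit 426198) (nat_lit 9) (.e (nat_lit 426364) (nat_lit 15) .nil)))))))) (.g (nat_lit 4) .nil .nil))) 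
(.lf (nat_lit 89198) (.g (nat_lit 2080) (.e (nat_lit 2030) (nat_lit 140) (.e (nat_lit 688186) (nat_lit 18) (.e (nat_lit 81959) (nat_lit 24) (.e (nat_lit 123160) (nat_lit 254) (.e (nat_lit 163919) (nat_lit 14) (.e (nat_lit 450304) (nat_lit 0) .nil)))))) (.g (nat_lit 5) .nil .nil)))) (.nd (nat_lit 5) 
(.lf (nat_lit 89182) (.g (nat_lit 1877) (.e (nat_lit 2030) (nat_lit 140) (.e (nat_lit 688184) (nat_lit 18) (.e (nat_lit 89856) (nat_lit 0) (.e (nat_lit 3605) (nat_lit 225) (.e (nat_lit 761912) (nat_lit 18) (.e (nat_lit 196352) (nat_lit 0) .nil)))))) (.g (nat_lit 5) .nil .nil))) 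
(.lf (nat_lit 89214) (.g (nat_lit 1535) (.e (nat_lit 2031) (nat_lit 140) (.e (nat_lit 688170) (nat_lit 15) (.e (nat_lit 57478) (nat_lit 28) (.e (nat_lit 557108) (nat_lit 15) (.e (nat_lit 196352) (nat_lit 11) .nil))))) .nil))))))) (.nd (nat_lit 1) (.nd (nat_lit 2) (.nd (nat_lit 3) (.nd (nat_lit 4) (.nd (nat_lit 5) 
(.lf (nat_lit 89153) (.g (nat_lit 2279) (.e (nat_lit 2030) (nat_lit 140) (.e (nat_lit 688178) (nat_lit 16) (.e (nat_lit 65619) (nat_lit 10) (.e (nat_lit 344157) (nat_lit 36) (.e (nat_lit 638985) (nat_lit 5) (.e (nat_lit 2988) (nat_lit 186) (.e (nat_lit 450304) (nat_lit 0) .nil))))))) (.g (nat_lit 6) .nil .nil))) 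
(.lf (nat_lit 89185) (.g (nat_lit 898) (.e (nat_lit 2030) (nat_lit 140) (.e (nat_lit 688186) (nat_lit 18) (.e (nat_lit 89856) (nat_lit 0) (.e (nat_lit 3604) (nat_lit 225) (.e (nat_lit 761914) (nat_lit 18) (.e (nat_lit 196352) (nat_lit 0) .nil)))))) (.g (nat_lit 4) .nil .nil)))) (.nd (nat_lit 5) 
(.lf (nat_lit 89169) (.g (nat_lit 4025) (.e (nat_lit 2030) (nat_lit 140) (.e (nat_lit 688178) (nat_lit 16) (.e (nat_lit 65619) (nat_lit 10) (.e (nat_lit 344160) (nat_lit 37) (.e (nat_lit 647199) (nat_lit 11) (.e (nat_lit 16438) (nat_lit 9) (.e (nat_lit 426364) (nat_lit 15) .nil))))))) (.g (nat_lit 0) .nil .nil))) 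
(.lf (nat_lit 89201) (.g (nat_lit 2182) (.e (nat_lit 2031) (nat_lit 140) (.e (nat_lit 688166) (nat_lit 15) (.e (nat_lit 57479) (nat_lit 28) (.e (nat_lit 557105) (nat_lit 14) (.e (nat_lit 180252) (nat_lit 10) (.e (nat_lit 573489) (nat_lit 14) (.e (nat_lit 73755) (nat_lit 8) (.e (nat_lit 557065) (nat_lit 9) (.e (nat_lit 5) (nat_lit 0) .nil))))))))) (.g (nat_lit 4) .nil .nil))))) 
(.nd (nat_lit 4) (.nd (nat_lit 5) 
(.lf (nat_lit 89161) (.g (nat_lit 2333) (.e (nat_lit 2030) (nat_lit 140) (.e (nat_lit 688178) (nat_lit 16) (.e (nat_lit 65619) (nat_lit 10) (.e (nat_lit 344157) (nat_lit 36) (.e (nat_lit 638986) (nat_lit 5) (.e (nat_lit 3004) (nat_lit 186) (.e (nat_lit 450304) (nat_lit 0) .nil))))))) (.g (nat_lit 6) .nil .nil))) 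
(.lf (nat_lit 89193) (.g (nat_lit 1602) (.e (nat_lit 2030) (nat_lit 140) (.e (nat_lit 688186) (nat_lit 18) (.e (nat_lit 81959) (nat_lit 24) (.e (nat_lit 123146) (nat_lit 250) (.e (nat_lit 2645) (nat_lit 166) (.e (nat_lit 196352) (nat_lit 0) .nil)))))) (.g (nat_lit 4) .nil .nil)))) (.nd (nat_lit 5) 
(.lf (nat_lit 89177) (.g (nat_lit 6445) (.e (nat_lit 2030) (nat_lit 140) (.e (nat_lit 688182) (nat_lit 17) (.e (nat_lit 73748) (nat_lit 3) (.e (nat_lit 516151) (nat_lit 9) (.e (nat_lit 426211) (nat_lit 9) (.e (nat_lit 426125) (nat_lit 2) (.e (nat_lit 196615) (nat_lit 0) (.e (nat_lit 60) (nat_lit 0) .nil)))))))) (.g (nat_lit 6) .nil .nil))) 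
(.lf (nat_lit 89209) (.g (nat_lit 1766) (.e (nat_lit 2031) (nat_lit 140) (.e (nat_lit 688170) (nat_lit 15) (.e (nat_lit 57478) (nat_lit 28) (.e (nat_lit 557098) (nat_lit 13) (.e (nat_lit 179968) (nat_lit 18) (.e (nat_lit 98377) (nat_lit 30) (.e (nat_lit 458789) (nat_lit 23) (.e (nat_lit 532484) (nat_lit 0) .nil)))))))) (.g (nat_lit 4) .nil .nil)))))) 
(.nd (nat_lit 3) (.nd (nat_lit 4) (.nd (nat_lit 5) 
(.lf (nat_lit 89157) (.g (nat_lit 2050) (.e (nat_lit 2030) (nat_lit 140) (.e (nat_lit 688178) (nat_lit 16) (.e (nat_lit 65619) (nat_lit 10) (.e (nat_lit 344157) (nat_lit 36) (.e (nat_lit 638985) (nat_lit 5) (.e (nat_lit 3005) (nat_lit 186) (.e (nat_lit 450304) (nat_lit 0) .nil))))))) (.g (nat_lit 4) .nil .nil))) 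
(.lf (nat_lit 89189) (.g (nat_lit 1163) (.e (nat_lit 2030) (nat_lit 140) (.e (nat_lit 688186) (nat_lit 18) (.e (nat_lit 81950) (nat_lit 21) (.e (nat_lit 57826) (nat_lit 250) .nil)))) .nil))) (.nd (nat_lit 5) 
(.lf (nat_lit 89173) (.g (nat_lit 4546) (.e (nat_lit 2030) (nat_lit 140) (.e (nat_lit 688180) (nat_lit 17) (.e (nat_lit 73747) (nat_lit 3) (.e (nat_lit 516151) (nat_lit 9) (.e (nat_lit 426211) (nat_lit 9) (.e (nat_lit 426125) (nat_lit 2) (.e (nat_lit 204544) (nat_lit 0) (.e (nat_lit 60) (nat_lit 0) .nil)))))))) (.g (nat_lit 5) .nil .nil))) 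
(.lf (nat_lit 89205) (.g (nat_lit 2552) (.e (nat_lit 2031) (nat_lit 140) (.e (nat_lit 688169) (nat_lit 15) (.e (nat_lit 57479) (nat_lit 28) (.e (nat_lit 557109) (nat_lit 15) (.e (nat_lit 196352) (nat_lit 11) .nil))))) .nil)))) (.nd (nat_lit 4) (.nd (nat_lit 5) 
(.lf (nat_lit 89165) (.g (nat_lit 2356) (.e (nat_lit 2030) (nat_lit 140) (.e (nat_lit 688178) (nat_lit 16) (.e (nat_lit 65619) (nat_lit 10) (.e (nat_lit 344160) (nat_lit 37) (.e (nat_lit 647190) (nat_lit 9) (.e (nat_lit 7936) (nat_lit 37) (.e (nat_lit 474880) (nat_lit 0) .nil))))))) (.g (nat_lit 5) .nil .nil))) 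
(.lf (nat_lit 89197) (.g (nat_lit 1077) (.e (nat_lit 2030) (nat_lit 140) (.e (nat_lit 688186) (nat_lit 18) (.e (nat_lit 81959) (nat_lit 24) (.e (nat_lit 123159) (nat_lit 254) .nil)))) .nil))) (.nd (nat_lit 5) 
(.lf (nat_lit 89181) (.g (nat_lit 1390) (.e (nat_lit 2030) (nat_lit 140) (.e (nat_lit 688184) (nat_lit 18) (.e (nat_lit 89856) (nat_lit 0) (.e (nat_lit 3604) (nat_lit 225) (.e (nat_lit 761914) (nat_lit 18) (.e (nat_lit 196352) (nat_lit 0) .nil)))))) (.g (nat_lit 5) .nil .nil))) 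
(.lf (nat_lit 89213) (.g (nat_lit 2672) (.e (nat_lit 2031) (nat_lit 140) (.e (nat_lit 688170) (nat_lit 15) (.e (nat_lit 57478) (nat_lit 28) (.e (nat_lit 557107) (nat_lit 15) (.e (nat_lit 196352) (nat_lit 18) (.e (nat_lit 401152) (nat_lit 0) .nil)))))) (.g (nat_lit 4) .nil .nil))))))) (.nd (nat_lit 2) (.nd (nat_lit 3) (.nd (nat_lit 4) (.nd (nat_lit 5) 
(.lf (nat_lit 89155) (.g (nat_lit 2132) (.e (nat_lit 2030) (nat_lit 140) (.e (nat_lit 688178) (nat_lit 16) (.e (nat_lit 65619) (nat_lit 10) (.e (nat_lit 344157) (nat_lit 36) (.e (nat_lit 638985) (nat_lit 5) (.e (nat_lit 2998) (nat_lit 186) (.e (nat_lit 450304) (nat_lit 0) .nil))))))) (.g (nat_lit 5) .nil .nil))) 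
(.lf (nat_lit 89187) (.g (nat_lit 1112) (.e (nat_lit 2030) (nat_lit 140) (.e (nat_lit 688186) (nat_lit 18) (.e (nat_lit 81938) (nat_lit 20) (.e (nat_lit 1963) (nat_lit 134) (.e (nat_lit 639001) (nat_lit 10) .nil))))) .nil))) (.nd (nat_lit 5) 
(.lf (nat_lit 89171) (.g (nat_lit 3069) (.e (nat_lit 2030) (nat_lit 140) (.e (nat_lit 688178) (nat_lit 16) (.e (nat_lit 65626) (nat_lit 13) (.e (nat_lit 393283) (nat_lit 24) (.e (nat_lit 434268) (nat_lit 36) (.e (nat_lit 639005) (nat_lit 13) (.e (nat_lit 1027) (nat_lit 81) .nil))))))) (.g (nat_lit 5) .nil .nil))) 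
(.lf (nat_lit 89203) (.g (nat_lit 2489) (.e (nat_lit 2031) (nat_lit 140) (.e (nat_lit 688169) (nat_lit 15) (.e (nat_lit 57479) (nat_lit 28) (.e (nat_lit 557105) (nat_lit 14) (.e (nat_lit 180252) (nat_lit 10) (.e (nat_lit 573489) (nat_lit 14) (.e (nat_lit 73755) (nat_lit 8) (.e (nat_lit 557065) (nat_lit 9) (.e (nat_lit 5) (nat_lit 0) .nil))))))))) (.g (nat_lit 4) .nil .nil))))) 
(.nd (nat_lit 4) (.nd (nat_lit 5) 
(.lf (nat_lit 89163) (.g (nat_lit 2009) (.e (nat_lit 2030) (nat_lit 140) (.e (nat_lit 688178) (nat_lit 16) (.e (nat_lit 65619) (nat_lit 10) (.e (nat_lit 344157) (nat_lit 36) (.e (nat_lit 639001) (nat_lit 10) (.e (nat_lit 196352) (nat_lit 0) .nil)))))) (.g (nat_lit 4) .nil .nil))) 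
(.lf (nat_lit 89195) (.g (nat_lit 2184) (.e (nat_lit 2030) (nat_lit 140) (.e (nat_lit 688186) (nat_lit 18) (.e (nat_lit 81959) (nat_lit 24) (.e (nat_lit 123153) (nat_lit 250) (.e (nat_lit 2648) (nat_lit 166) (.e (nat_lit 196352) (nat_lit 0) .nil)))))) (.g (nat_lit 5) .nil .nil)))) (.nd (nat_lit 5) 
(.lf (nat_lit 89179) (.g (nat_lit 2469) (.e (nat_lit 2030) (nat_lit 140) (.e (nat_lit 688182) (nat_lit 17) (.e (nat_lit 73755) (nat_lit 8) (.e (nat_lit 557098) (nat_lit 13) (.e (nat_lit 179968) (nat_lit 20) .nil))))) .nil)) 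
(.lf (nat_lit 89211) (.g (nat_lit 2061) (.e (nat_lit 2031) (nat_lit 140) (.e (nat_lit 688170) (nat_lit 15) (.e (nat_lit 57478) (nat_lit 28) (.e (nat_lit 557105) (nat_lit 14) (.e (nat_lit 180252) (nat_lit 10) (.e (nat_lit 573489) (nat_lit 14) (.e (nat_lit 73755) (nat_lit 8) (.e (nat_lit 557065) (nat_lit 9) (.e (nat_lit 12) (nat_lit 0) .nil))))))))) (.g (nat_lit 4) .nil .nil)))))) 
(.nd (nat_lit 3) (.nd (nat_lit 4) (.nd (nat_lit 5) 
(.lf (nat_lit 89159) (.g (nat_lit 2331) (.e (nat_lit 2030) (nat_lit 140) (.e (nat_lit 688178) (nat_lit 16) (.e (nat_lit 65619) (nat_lit 10) (.e (nat_lit 344157) (nat_lit 36) (.e (nat_lit 638986) (nat_lit 5) (.e (nat_lit 2989) (nat_lit 186) (.e (nat_lit 450304) (nat_lit 0) .nil))))))) (.g (nat_lit 6) .nil .nil))) 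
(.lf (nat_lit 89191) (.g (nat_lit 357) (.e (nat_lit 2030) (nat_lit 140) (.e (nat_lit 688186) (nat_lit 18) (.e (nat_lit 81959) (nat_lit 24) .nil))) .nil))) (.nd (nat_lit 5) 
(.lf (nat_lit 89175) (.g (nat_lit 5739) (.e (nat_lit 2030) (nat_lit 140) (.e (nat_lit 688182) (nat_lit 17) (.e (nat_lit 73745) (nat_lit 3) (.e (nat_lit 516151) (nat_lit 9) (.e (nat_lit 426211) (nat_lit 9) (.e (nat_lit 426125) (nat_lit 2) (.e (nat_lit 196615) (nat_lit 0) (.e (nat_lit 60) (nat_lit 0) .nil)))))))) (.g (nat_lit 6) .nil .nil))) 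
(.lf (nat_lit 89207) (.g (nat_lit 2052) (.e (nat_lit 2031) (nat_lit 140) (.e (nat_lit 688169) (nat_lit 15) (.e (nat_lit 57480) (nat_lit 28) (.e (nat_lit 557108) (nat_lit 15) (.e (nat_lit 196352) (nat_lit 18) (.e (nat_lit 401152) (nat_lit 0) .nil)))))) (.g (nat_lit 4) .nil .nil))))) (.nd (nat_lit 4) (.nd (nat_lit 5) 
(.lf (nat_lit 89167) (.g (nat_lit 2925) (.e (nat_lit 2030) (nat_lit 140) (.e (nat_lit 688178) (nat_lit 16) (.e (nat_lit 65619) (nat_lit 10) (.e (nat_lit 344160) (nat_lit 37) (.e (nat_lit 647195) (nat_lit 9) (.e (nat_lit 7936) (nat_lit 34) (.e (nat_lit 450304) (nat_lit 0) .nil))))))) (.g (nat_lit 5) .nil .nil))) 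
(.lf (nat_lit 89199) (.g (nat_lit 1529) (.e (nat_lit 2030) (nat_lit 140) (.e (nat_lit 688186) (nat_lit 18) (.e (nat_lit 81959) (nat_lit 24) (.e (nat_lit 123160) (nat_lit 254) (.e (nat_lit 163932) (nat_lit 17) (.e (nat_lit 474880) (nat_lit 0) .nil)))))) (.g (nat_lit 4) .nil .nil)))) (.nd (nat_lit 5) 
(.lf (nat_lit 89183) (.g (nat_lit 1671) (.e (nat_lit 2030) (nat_lit 140) (.e (nat_lit 688184) (nat_lit 18) (.e (nat_lit 89856) (nat_lit 0) (.e (nat_lit 3605) (nat_lit 225) (.e (nat_lit 761914) (nat_lit 18) (.e (nat_lit 196352) (nat_lit 0) .nil)))))) (.g (nat_lit 5) .nil .nil))) 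
(.lf (nat_lit 89215) (.g (nat_lit 1951) (.e (nat_lit 2031) (nat_lit 140) (.e (nat_lit 688170) (nat_lit 15) (.e (nat_lit 57478) (nat_lit 28) (.e (nat_lit 557108) (nat_lit 15) (.e (nat_lit 196352) (nat_lit 18) (.e (nat_lit 401152) (nat_lit 0) .nil)))))) (.g (nat_lit 4) .nil .nil)))))))))

noncomputable def tv1218 : DT := (.nd (nat_lit 0) (.nd (nat_lit 1) (.nd (nat_lit 2) (.nd (nat_lit 3) (.nd (nat_lit 4) (.nd (nat_lit 5) 
(.lf (nat_lit 89216) (.g (nat_lit 2151) (.e (nat_lit 2031) (nat_lit 140) (.e (nat_lit 688170) (nat_lit 15) (.e (nat_lit 57478) (nat_lit 28) (.e (nat_lit 557109) (nat_lit 15) (.e (nat_lit 188422) (nat_lit 11) .nil))))) .nil)) 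
(.lf (nat_lit 89248) (.g (nat_lit 1805) (.e (nat_lit 2031) (nat_lit 140) (.e (nat_lit 688171) (nat_lit 15) (.e (nat_lit 57478) (nat_lit 28) (.e (nat_lit 557096) (nat_lit 13) (.e (nat_lit 179968) (nat_lit 18) (.e (nat_lit 98376) (nat_lit 30) (.e (nat_lit 458789) (nat_lit 23) (.e (nat_lit 532484) (nat_lit 0) .nil)))))))) (.g (nat_lit 4) .nil .nil)))) (.nd (nat_lit 5) 
(.lf (nat_lit 89232) (.g (nat_lit 2203) (.e (nat_lit 2031) (nat_lit 140) (.e (nat_lit 688170) (nat_lit 15) (.e (nat_lit 57480) (nat_lit 28) (.e (nat_lit 557107) (nat_lit 15) (.e (nat_lit 196352) (nat_lit 11) .nil))))) .nil)) 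
(.lf (nat_lit 89264) (.g (nat_lit 2848) (.e (nat_lit 2031) (nat_lit 140) (.e (nat_lit 688171) (nat_lit 15) (.e (nat_lit 57478) (nat_lit 28) (.e (nat_lit 557109) (nat_lit 15) (.e (nat_lit 188422) (nat_lit 11) (.e (nat_lit 336403) (nat_lit 27) (.e (nat_lit 426349) (nat_lit 15) .nil))))))) (.g (nat_lit 5) .nil .nil))))) (.nd (nat_lit 4) (.nd (nat_lit 5) 
(.lf (nat_lit 89224) (.g (nat_lit 4945) (.e (nat_lit 2031) (nat_lit 140) (.e (nat_lit 688170) (nat_lit 15) (.e (nat_lit 57479) (nat_lit 28) (.e (nat_lit 557105) (nat_lit 14) (.e (nat_lit 180252) (nat_lit 10) (.e (nat_lit 573489) (nat_lit 14) (.e (nat_lit 73755) (nat_lit 8) (.e (nat_lit 557066) (nat_lit 9) (.e (nat_lit 5) (nat_lit 0) .nil))))))))) (.g (nat_lit 8) .nil .nil))) 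
(.lf (nat_lit 89256) (.g (nat_lit 2050) (.e (nat_lit 2031) (nat_lit 140) (.e (nat_lit 688171) (nat_lit 15) (.e (nat_lit 57478) (nat_lit 28) (.e (nat_lit 557107) (nat_lit 15) (.e (nat_lit 188459) (nat_lit 26) (.e (nat_lit 253953) (nat_lit 0) (.e (nat_lit 2857) (nat_lit 184) (.e (nat_lit 426350) (nat_lit 15) .nil)))))))) (.g (nat_lit 5) .nil .nil)))) (.nd (nat_lit 5) 
(.lf (nat_lit 89240) (.g (nat_lit 2867) (.e (nat_lit 2031) (nat_lit 140) (.e (nat_lit 688170) (nat_lit 15) (.e (nat_lit 57480) (nat_lit 28) (.e (nat_lit 557109) (nat_lit 15) (.e (nat_lit 196352) (nat_lit 11) (.e (nat_lit 336378) (nat_lit 27) (.e (nat_lit 426353) (nat_lit 15) .nil))))))) (.g (nat_lit 4) .nil .nil))) 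
(.lf (nat_lit 89272) (.g (nat_lit 2277) (.e (nat_lit 2031) (nat_lit 140) (.e (nat_lit 688171) (nat_lit 15) (.e (nat_lit 57478) (nat_lit 28) (.e (nat_lit 557109) (nat_lit 15) (.e (nat_lit 188460) (nat_lit 26) (.e (nat_lit 253957) (nat_lit 0) (.e (nat_lit 2855) (nat_lit 184) (.e (nat_lit 426354) (nat_lit 15) .nil)))))))) (.g (nat_lit 4) .nil .nil)))))) 
(.nd (nat_lit 3) (.nd (nat_lit 4) (.nd (nat_lit 5) 
(.lf (nat_lit 89220) (.g (nat_lit 2585) (.e (nat_lit 2031) (nat_lit 140) (.e (nat_lit 688170) (nat_lit 15) (.e (nat_lit 57478) (nat_lit 28) (.e (nat_lit 557109) (nat_lit 15) (.e (nat_lit 188460) (nat_lit 26) .nil))))) .nil)) 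
(.lf (nat_lit 89252) (.g (nat_lit 1474) (.e (nat_lit 2031) (nat_lit 140) (.e (nat_lit 688171) (nat_lit 15) (.e (nat_lit 57478) (nat_lit 28) (.e (nat_lit 557107) (nat_lit 15) (.e (nat_lit 188423) (nat_lit 11) (.e (nat_lit 336401) (nat_lit 27) (.e (nat_lit 426353) (nat_lit 15) .nil))))))) (.g (nat_lit 4) .nil .nil)))) (.nd (nat_lit 5) 
(.lf (nat_lit 89236) (.g (nat_lit 2967) (.e (nat_lit 2031) (nat_lit 140) (.e (nat_lit 688170) (nat_lit 15) (.e (nat_lit 57480) (nat_lit 28) (.e (nat_lit 557108) (nat_lit 15) (.e (nat_lit 196352) (nat_lit 18) (.e (nat_lit 401152) (nat_lit 0) .nil)))))) (.g (nat_lit 4) .nil .nil))) 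
(.lf (nat_lit 89268) (.g (nat_lit 2486) (.e (nat_lit 2031) (nat_lit 140) (.e (nat_lit 688171) (nat_lit 15) (.e (nat_lit 57478) (nat_lit 28) (.e (nat_lit 557109) (nat_lit 15) (.e (nat_lit 188460) (nat_lit 26) (.e (nat_lit 253952) (nat_lit 0) (.e (nat_lit 2854) (nat_lit 184) (.e (nat_lit 426354) (nat_lit 15) .nil)))))))) (.g (nat_lit 4) .nil .nil))))) (.nd (nat_lit 4) (.nd (nat_lit 5) 
(.lf (nat_lit 89228) (.g (nat_lit 2825) (.e (nat_lit 2031) (nat_lit 140) (.e (nat_lit 688170) (nat_lit 15) (.e (nat_lit 57479) (nat_lit 28) (.e (nat_lit 557109) (nat_lit 15) (.e (nat_lit 196352) (nat_lit 18) (.e (nat_lit 401152) (nat_lit 0) .nil)))))) (.g (nat_lit 4) .nil .nil))) 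
(.lf (nat_lit 89260) (.g (nat_lit 2654) (.e (nat_lit 2031) (nat_lit 140) (.e (nat_lit 688171) (nat_lit 15) (.e (nat_lit 57478) (nat_lit 28) (.e (nat_lit 557109) (nat_lit 15) (.e (nat_lit 188421) (nat_lit 11) (.e (nat_lit 336401) (nat_lit 27) (.e (nat_lit 426349) (nat_lit 15) .nil))))))) (.g (nat_lit 4) .nil .nil)))) (.nd (nat_lit 5) 
(.lf (nat_lit 89244) (.g (nat_lit 3258) (.e (nat_lit 2031) (nat_lit 140) (.e (nat_lit 688170) (nat_lit 15) (.e (nat_lit 57480) (nat_lit 28) (.e (nat_lit 557109) (nat_lit 15) (.e (nat_lit 188460) (nat_lit 26) (.e (nat_lit 253958) (nat_lit 0) (.e (nat_lit 2856) (nat_lit 184) (.e (nat_lit 426354) (nat_lit 15) .nil)))))))) (.g (nat_lit 4) .nil .nil))) 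
(.lf (nat_lit 89276) (.g (nat_lit 2843) (.e (nat_lit 2031) (nat_lit 140) (.e (nat_lit 688171) (nat_lit 15) (.e (nat_lit 57478) (nat_lit 28) (.e (nat_lit 557109) (nat_lit 15) (.e (nat_lit 188461) (nat_lit 26) (.e (nat_lit 253952) (nat_lit 0) (.e (nat_lit 2854) (nat_lit 184) (.e (nat_lit 426354) (nat_lit 15) .nil)))))))) (.g (nat_lit 5) .nil .nil))))))) 
(.nd (nat_lit 2) (.nd (nat_lit 3) (.nd (nat_lit 4) (.nd (nat_lit 5) 
(.lf (nat_lit 89218) (.g (nat_lit 2437) (.e (nat_lit 2031) (nat_lit 140) (.e (nat_lit 688170) (nat_lit 15) (.e (nat_lit 57478) (nat_lit 28) (.e (nat_lit 557109) (nat_lit 15) (.e (nat_lit 196352) (nat_lit 18) (.e (nat_lit 401152) (nat_lit 0) .nil)))))) (.g (nat_lit 4) .nil .nil))) 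
(.lf (nat_lit 89250) (.g (nat_lit 2886) (.e (nat_lit 2031) (nat_lit 140) (.e (nat_lit 688171) (nat_lit 15) (.e (nat_lit 57478) (nat_lit 28) (.e (nat_lit 557105) (nat_lit 14) (.e (nat_lit 180252) (nat_lit 10) (.e (nat_lit 573489) (nat_lit 14) (.e (nat_lit 73755) (nat_lit 8) (.e (nat_lit 557066) (nat_lit 9) (.e (nat_lit 12) (nat_lit 0) .nil))))))))) (.g (nat_lit 5) .nil .nil)))) (.nd (nat_lit 5) 
(.lf (nat_lit 89234) (.g (nat_lit 2458) (.e (nat_lit 2031) (nat_lit 140) (.e (nat_lit 688170) (nat_lit 15) (.e (nat_lit 57480) (nat_lit 28) (.e (nat_lit 557107) (nat_lit 15) (.e (nat_lit 188459) (nat_lit 26) (.e (nat_lit 253958) (nat_lit 0) (.e (nat_lit 2856) (nat_lit 184) (.e (nat_lit 426354) (nat_lit 15) .nil)))))))) (.g (nat_lit 4) .nil .nil))) 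
(.lf (nat_lit 89266) (.g (nat_lit 1849) (.e (nat_lit 2031) (nat_lit 140) (.e (nat_lit 688171) (nat_lit 15) (.e (nat_lit 57478) (nat_lit 28) (.e (nat_lit 557109) (nat_lit 15) (.e (nat_lit 196352) (nat_lit 11) .nil))))) .nil)))) (.nd (nat_lit 4) (.nd (nat_lit 5) 
(.lf (nat_lit 89226) (.g (nat_lit 2746) (.e (nat_lit 2031) (nat_lit 140) (.e (nat_lit 688170) (nat_lit 15) (.e (nat_lit 57479) (nat_lit 28) (.e (nat_lit 557107) (nat_lit 15) (.e (nat_lit 196352) (nat_lit 18) (.e (nat_lit 401152) (nat_lit 0) .nil)))))) (.g (nat_lit 4) .nil .nil))) 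
(.lf (nat_lit 89258) (.g (nat_lit 2229) (.e (nat_lit 2031) (nat_lit 140) (.e (nat_lit 688171) (nat_lit 15) (.e (nat_lit 57478) (nat_lit 28) (.e (nat_lit 557108) (nat_lit 15) (.e (nat_lit 196352) (nat_lit 11) .nil))))) .nil))) (.nd (nat_lit 5) 
(.lf (nat_lit 89242) (.g (nat_lit 2696) (.e (nat_lit 2031) (nat_lit 140) (.e (nat_lit 688170) (nat_lit 15) (.e (nat_lit 57480) (nat_lit 28) (.e (nat_lit 557109) (nat_lit 15) (.e (nat_lit 188460) (nat_lit 26) .nil))))) .nil)) 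
(.lf (nat_lit 89274) (.g (nat_lit 2719) (.e (nat_lit 2031) (nat_lit 140) (.e (nat_lit 688171) (nat_lit 15) (.e (nat_lit 57478) (nat_lit 28) (.e (nat_lit 557109) (nat_lit 15) (.e (nat_lit 188460) (nat_lit 26) (.e (nat_lit 253958) (nat_lit 0) (.e (nat_lit 2854) (nat_lit 184) (.e (nat_lit 426354) (nat_lit 15) .nil)))))))) (.g (nat_lit 4) .nil .nil)))))) 
(.nd (nat_lit 3) (.nd (nat_lit 4) (.nd (nat_lit 5) 
(.lf (nat_lit 89222) (.g (nat_lit 4363) (.e (nat_lit 2031) (nat_lit 140) (.e (nat_lit 688170) (nat_lit 15) (.e (nat_lit 57479) (nat_lit 28) (.e (nat_lit 557105) (nat_lit 14) (.e (nat_lit 180252) (nat_lit 10) (.e (nat_lit 573489) (nat_lit 14) (.e (nat_lit 73755) (nat_lit 8) (.e (nat_lit 557065) (nat_lit 9) (.e (nat_lit 5) (nat_lit 0) .nil))))))))) (.g (nat_lit 8) .nil .nil))) 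
(.lf (nat_lit 89254) (.g (nat_lit 2349) (.e (nat_lit 2031) (nat_lit 140) (.e (nat_lit 688171) (nat_lit 15) (.e (nat_lit 57478) (nat_lit 28) (.e (nat_lit 557107) (nat_lit 15) (.e (nat_lit 196352) (nat_lit 11) (.e (nat_lit 336378) (nat_lit 27) (.e (nat_lit 426353) (nat_lit 15) .nil))))))) (.g (nat_lit 4) .nil .nil)))) (.nd (nat_lit 5) 
(.lf (nat_lit 89238) (.g (nat_lit 3094) (.e (nat_lit 2031) (nat_lit 140) (.e (nat_lit 688170) (nat_lit 15) (.e (nat_lit 57480) (nat_lit 28) (.e (nat_lit 557109) (nat_lit 15) (.e (nat_lit 188422) (nat_lit 11) (.e (nat_lit 336401) (nat_lit 27) (.e (nat_lit 426353) (nat_lit 15) .nil))))))) (.g (nat_lit 4) .nil .nil))) 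
(.lf (nat_lit 89270) (.g (nat_lit 2254) (.e (nat_lit 2031) (nat_lit 140) (.e (nat_lit 688171) (nat_lit 15) (.e (nat_lit 57478) (nat_lit 28) (.e (nat_lit 557109) (nat_lit 15) (.e (nat_lit 188460) (nat_lit 26) (.e (nat_lit 253952) (nat_lit 0) (.e (nat_lit 2857) (nat_lit 184) (.e (nat_lit 426354) (nat_lit 15) .nil)))))))) (.g (nat_lit 4) .nil .nil))))) (.nd (nat_lit 4) (.nd (nat_lit 5) 
(.lf (nat_lit 89230) (.g (nat_lit 2376) (.e (nat_lit 2031) (nat_lit 140) (.e (nat_lit 688170) (nat_lit 15) (.e (nat_lit 57480) (nat_lit 28) (.e (nat_lit 557098) (nat_lit 13) (.e (nat_lit 179968) (nat_lit 18) (.e (nat_lit 98377) (nat_lit 30) (.e (nat_lit 458789) (nat_lit 23) (.e (nat_lit 532484) (nat_lit 0) .nil)))))))) (.g (nat_lit 4) .nil .nil))) 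
(.lf (nat_lit 89262) (.g (nat_lit 2385) (.e (nat_lit 2031) (nat_lit 140) (.e (nat_lit 688171) (nat_lit 15) (.e (nat_lit 57478) (nat_lit 28) (.e (nat_lit 557109) (nat_lit 15) (.e (nat_lit 188422) (nat_lit 11) (.e (nat_lit 336401) (nat_lit 27) (.e (nat_lit 426349) (nat_lit 15) .nil))))))) (.g (nat_lit 4) .nil .nil)))) (.nd (nat_lit 5) 
(.lf (nat_lit 89246) (.g (nat_lit 3519) (.e (nat_lit 2031) (nat_lit 140) (.e (nat_lit 688170) (nat_lit 15) (.e (nat_lit 57480) (nat_lit 28) (.e (nat_lit 557109) (nat_lit 15) (.e (nat_lit 188461) (nat_lit 26) (.e (nat_lit 253953) (nat_lit 0) (.e (nat_lit 2856) (nat_lit 184) (.e (nat_lit 426354) (nat_lit 15) .nil)))))))) (.g (nat_lit 5) .nil .nil))) 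
(.lf (nat_lit 89278) (.g (nat_lit 2936) (.e (nat_lit 2031) (nat_lit 140) (.e (nat_lit 688171) (nat_lit 15) (.e (nat_lit 57478) (nat_lit 28) (.e (nat_lit 557109) (nat_lit 15) (.e (nat_lit 188461) (nat_lit 26) (.e (nat_lit 253953) (nat_lit 0) (.e (nat_lit 2855) (nat_lit 184) (.e (nat_lit 426354) (nat_lit 15) .nil)))))))) (.g (nat_lit 5) .nil .nil)))))))) 
(.nd (nat_lit 1) (.nd (nat_lit 2) (.nd (nat_lit 3) (.nd (nat_lit 4) (.nd (nat_lit 5) 
(.lf (nat_lit 89217) (.g (nat_lit 2293) (.e (nat_lit 2031) (nat_lit 140) (.e (nat_lit 688170) (nat_lit 15) (.e (nat_lit 57478) (nat_lit 28) (.e (nat_lit 557109) (nat_lit 15) (.e (nat_lit 196352) (nat_lit 11) (.e (nat_lit 336378) (nat_lit 27) (.e (nat_lit 426353) (nat_lit 15) .nil))))))) (.g (nat_lit 4) .nil .nil))) 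
(.lf (nat_lit 89249) (.g (nat_lit 2481) (.e (nat_lit 2031) (nat_lit 140) (.e (nat_lit 688171) (nat_lit 15) (.e (nat_lit 57478) (nat_lit 28) (.e (nat_lit 557105) (nat_lit 14) (.e (nat_lit 180252) (nat_lit 10) (.e (nat_lit 573489) (nat_lit 14) (.e (nat_lit 73755) (nat_lit 8) (.e (nat_lit 557065) (nat_lit 9) (.e (nat_lit 1) (nat_lit 0) .nil))))))))) (.g (nat_lit 5) .nil .nil)))) (.nd (nat_lit 5) 
(.lf (nat_lit 89233) (.g (nat_lit 2591) (.e (nat_lit 2031) (nat_lit 140) (.e (nat_lit 688170) (nat_lit 15) (.e (nat_lit 57480) (nat_lit 28) (.e (nat_lit 557107) (nat_lit 15) (.e (nat_lit 196352) (nat_lit 18) (.e (nat_lit 401152) (nat_lit 0) .nil)))))) (.g (nat_lit 4) .nil .nil))) 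
(.lf (nat_lit 89265) (.g (nat_lit 2884) (.e (nat_lit 2031) (nat_lit 140) (.e (nat_lit 688171) (nat_lit 15) (.e (nat_lit 57478) (nat_lit 28) (.e (nat_lit 557109) (nat_lit 15) (.e (nat_lit 188422) (nat_lit 11) (.e (nat_lit 336403) (nat_lit 27) (.e (nat_lit 426353) (nat_lit 15) .nil))))))) (.g (nat_lit 5) .nil .nil))))) (.nd (nat_lit 4) (.nd (nat_lit 5) 
(.lf (nat_lit 89225) (.g (nat_lit 2255) (.e (nat_lit 2031) (nat_lit 140) (.e (nat_lit 688170) (nat_lit 15) (.e (nat_lit 57479) (nat_lit 28) (.e (nat_lit 557107) (nat_lit 15) (.e (nat_lit 196352) (nat_lit 11) .nil))))) .nil)) 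
(.lf (nat_lit 89257) (.g (nat_lit 1635) (.e (nat_lit 2031) (nat_lit 140) (.e (nat_lit 688171) (nat_lit 15) (.e (nat_lit 57478) (nat_lit 28) (.e (nat_lit 557107) (nat_lit 15) (.e (nat_lit 188459) (nat_lit 26) (.e (nat_lit 253958) (nat_lit 0) (.e (nat_lit 2857) (nat_lit 184) (.e (nat_lit 426350) (nat_lit 15) .nil)))))))) (.g (nat_lit 4) .nil .nil)))) (.nd (nat_lit 5) 
(.lf (nat_lit 89241) (.g (nat_lit 2921) (.e (nat_lit 2031) (nat_lit 140) (.e (nat_lit 688170) (nat_lit 15) (.e (nat_lit 57480) (nat_lit 28) (.e (nat_lit 557109) (nat_lit 15) (.e (nat_lit 196352) (nat_lit 18) (.e (nat_lit 401152) (nat_lit 0) .nil)))))) (.g (nat_lit 4) .nil .nil))) 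
(.lf (nat_lit 89273) (.g (nat_lit 2590) (.e (nat_lit 2031) (nat_lit 140) (.e (nat_lit 688171) (nat_lit 15) (.e (nat_lit 57478) (nat_lit 28) (.e (nat_lit 557109) (nat_lit 15) (.e (nat_lit 188460) (nat_lit 26) (.e (nat_lit 253957) (nat_lit 0) (.e (nat_lit 2857) (nat_lit 184) (.e (nat_lit 426354) (nat_lit 15) .nil)))))))) (.g (nat_lit 4) .nil .nil)))))) 
(.nd (nat_lit 3) (.nd (nat_lit 4) (.nd (nat_lit 5) 
(.lf (nat_lit 89221) (.g (nat_lit 3268) (.e (nat_lit 2031) (nat_lit 140) (.e (nat_lit 688170) (nat_lit 15) (.e (nat_lit 57479) (nat_lit 28) (.e (nat_lit 557105) (nat_lit 14) (.e (nat_lit 180252) (nat_lit 10) (.e (nat_lit 573489) (nat_lit 14) (.e (nat_lit 73755) (nat_lit 8) (.e (nat_lit 557065) (nat_lit 9) (.e (nat_lit 1) (nat_lit 0) .nil))))))))) (.g (nat_lit 6) .nil .nil))) 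
(.lf (nat_lit 89253) (.g (nat_lit 1463) (.e (nat_lit 2031) (nat_lit 140) (.e (nat_lit 688171) (nat_lit 15) (.e (nat_lit 57478) (nat_lit 28) (.e (nat_lit 557107) (nat_lit 15) (.e (nat_lit 188423) (nat_lit 11) (.e (nat_lit 336403) (nat_lit 27) (.e (nat_lit 426353) (nat_lit 15) .nil))))))) (.g (nat_lit 4) .nil .nil)))) (.nd (nat_lit 5) 
(.lf (nat_lit 89237) (.g (nat_lit 2967) (.e (nat_lit 2031) (nat_lit 140) (.e (nat_lit 688170) (nat_lit 15) (.e (nat_lit 57480) (nat_lit 28) (.e (nat_lit 557109) (nat_lit 15) (.e (nat_lit 188421) (nat_lit 11) (.e (nat_lit 336401) (nat_lit 27) (.e (nat_lit 426353) (nat_lit 15) .nil))))))) (.g (nat_lit 4) .nil .nil))) 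
(.lf (nat_lit 89269) (.g (nat_lit 2465) (.e (nat_lit 2031) (nat_lit 140) (.e (nat_lit 688171) (nat_lit 15) (.e (nat_lit 57478) (nat_lit 28) (.e (nat_lit 557109) (nat_lit 15) (.e (nat_lit 188460) (nat_lit 26) (.e (nat_lit 253952) (nat_lit 0) (.e (nat_lit 2855) (nat_lit 184) (.e (nat_lit 426354) (nat_lit 15) .nil)))))))) (.g (nat_lit 4) .nil .nil))))) (.nd (nat_lit 4) (.nd (nat_lit 5) 
(.lf (nat_lit 89229) (.g (nat_lit 2475) (.e (nat_lit 2031) (nat_lit 140) (.e (nat_lit 688170) (nat_lit 15) (.e (nat_lit 57480) (nat_lit 28) (.e (nat_lit 557098) (nat_lit 13) (.e (nat_lit 179968) (nat_lit 18) (.e (nat_lit 98376) (nat_lit 30) (.e (nat_lit 458789) (nat_lit 23) (.e (nat_lit 532484) (nat_lit 0) .nil)))))))) (.g (nat_lit 4) .nil .nil))) 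
(.lf (nat_lit 89261) (.g (nat_lit 3182) (.e (nat_lit 2031) (nat_lit 140) (.e (nat_lit 688171) (nat_lit 15) (.e (nat_lit 57478) (nat_lit 28) (.e (nat_lit 557109) (nat_lit 15) (.e (nat_lit 188421) (nat_lit 11) (.e (nat_lit 336401) (nat_lit 27) (.e (nat_lit 426353) (nat_lit 15) .nil))))))) (.g (nat_lit 4) .nil .nil)))) (.nd (nat_lit 5) 
(.lf (nat_lit 89245) (.g (nat_lit 2766) (.e (nat_lit 2031) (nat_lit 140) (.e (nat_lit 688170) (nat_lit 15) (.e (nat_lit 57480) (nat_lit 28) (.e (nat_lit 557109) (nat_lit 15) (.e (nat_lit 188461) (nat_lit 26) (.e (nat_lit 253953) (nat_lit 0) (.e (nat_lit 2854) (nat_lit 184) (.e (nat_lit 426354) (nat_lit 15) .nil)))))))) (.g (nat_lit 4) .nil .nil))) 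
(.lf (nat_lit 89277) (.g (nat_lit 3316) (.e (nat_lit 2031) (nat_lit 140) (.e (nat_lit 688171) (nat_lit 15) (.e (nat_lit 57478) (nat_lit 28) (.e (nat_lit 557109) (nat_lit 15) (.e (nat_lit 188461) (nat_lit 26) (.e (nat_lit 253952) (nat_lit 0) (.e (nat_lit 2856) (nat_lit 184) (.e (nat_lit 426354) (nat_lit 15) .nil)))))))) (.g (nat_lit 5) .nil .nil))))))) 
(.nd (nat_lit 2) (.nd (nat_lit 3) (.nd (nat_lit 4) (.nd (nat_lit 5) 
(.lf (nat_lit 89219) (.g (nat_lit 2729) (.e (nat_lit 2031) (nat_lit 140) (.e (nat_lit 688170) (nat_lit 15) (.e (nat_lit 57478) (nat_lit 28) (.e (nat_lit 557109) (nat_lit 15) (.e (nat_lit 188427) (nat_lit 20) (.e (nat_lit 3547) (nat_lit 219) (.e (nat_lit 712740) (nat_lit 27) (.e (nat_lit 426354) (nat_lit 15) .nil)))))))) (.g (nat_lit 4) .nil .nil))) 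
(.lf (nat_lit 89251) (.g (nat_lit 1906) (.e (nat_lit 2031) (nat_lit 140) (.e (nat_lit 688171) (nat_lit 15) (.e (nat_lit 57478) (nat_lit 28) (.e (nat_lit 557107) (nat_lit 15) (.e (nat_lit 188421) (nat_lit 11) (.e (nat_lit 336401) (nat_lit 27) (.e (nat_lit 426353) (nat_lit 15) .nil))))))) (.g (nat_lit 4) .nil .nil)))) (.nd (nat_lit 5) 
(.lf (nat_lit 89235) (.g (nat_lit 2529) (.e (nat_lit 2031) (nat_lit 140) (.e (nat_lit 688170) (nat_lit 15) (.e (nat_lit 57480) (nat_lit 28) (.e (nat_lit 557108) (nat_lit 15) (.e (nat_lit 196352) (nat_lit 11) (.e (nat_lit 336378) (nat_lit 27) (.e (nat_lit 426353) (nat_lit 15) .nil))))))) (.g (nat_lit 4) .nil .nil))) 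
(.lf (nat_lit 89267) (.g (nat_lit 2819) (.e (nat_lit 2031) (nat_lit 140) (.e (nat_lit 688171) (nat_lit 15) (.e (nat_lit 57478) (nat_lit 28) (.e (nat_lit 557109) (nat_lit 15) (.e (nat_lit 196352) (nat_lit 18) (.e (nat_lit 401152) (nat_lit 0) .nil)))))) (.g (nat_lit 4) .nil .nil))))) (.nd (nat_lit 4) (.nd (nat_lit 5) 
(.lf (nat_lit 89227) (.g (nat_lit 2750) (.e (nat_lit 2031) (nat_lit 140) (.e (nat_lit 688170) (nat_lit 15) (.e (nat_lit 57479) (nat_lit 28) (.e (nat_lit 557109) (nat_lit 15) (.e (nat_lit 196352) (nat_lit 11) (.e (nat_lit 336378) (nat_lit 27) (.e (nat_lit 426353) (nat_lit 15) .nil))))))) (.g (nat_lit 4) .nil .nil))) 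
(.lf (nat_lit 89259) (.g (nat_lit 2229) (.e (nat_lit 2031) (nat_lit 140) (.e (nat_lit 688171) (nat_lit 15) (.e (nat_lit 57478) (nat_lit 28) (.e (nat_lit 557108) (nat_lit 15) (.e (nat_lit 196352) (nat_lit 18) .nil))))) .nil))) (.nd (nat_lit 5) 
(.lf (nat_lit 89243) (.g (nat_lit 3236) (.e (nat_lit 2031) (nat_lit 140) (.e (nat_lit 688170) (nat_lit 15) (.e (nat_lit 57480) (nat_lit 28) (.e (nat_lit 557109) (nat_lit 15) (.e (nat_lit 188460) (nat_lit 26) (.e (nat_lit 253957) (nat_lit 0) (.e (nat_lit 2856) (nat_lit 184) (.e (nat_lit 426354) (nat_lit 15) .nil)))))))) (.g (nat_lit 4) .nil .nil))) 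
(.lf (nat_lit 89275) (.g (nat_lit 2169) (.e (nat_lit 2031) (nat_lit 140) (.e (nat_lit 688171) (nat_lit 15) (.e (nat_lit 57478) (nat_lit 28) (.e (nat_lit 557109) (nat_lit 15) (.e (nat_lit 188460) (nat_lit 26) (.e (nat_lit 253958) (nat_lit 0) (.e (nat_lit 2857) (nat_lit 184) (.e (nat_lit 426354) (nat_lit 15) .nil)))))))) (.g (nat_lit 4) .nil .nil)))))) 
(.nd (nat_lit 3) (.nd (nat_lit 4) (.nd (nat_lit 5) 
(.lf (nat_lit 89223) (.g (nat_lit 3802) (.e (nat_lit 2031) (nat_lit 140) (.e (nat_lit 688170) (nat_lit 15) (.e (nat_lit 57479) (nat_lit 28) (.e (nat_lit 557105) (nat_lit 14) (.e (nat_lit 180252) (nat_lit 10) (.e (nat_lit 573489) (nat_lit 14) (.e (nat_lit 73755) (nat_lit 8) (.e (nat_lit 557065) (nat_lit 9) (.e (nat_lit 12) (nat_lit 0) .nil))))))))) (.g (nat_lit 7) .nil .nil))) 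
(.lf (nat_lit 89255) (.g (nat_lit 2513) (.e (nat_lit 2031) (nat_lit 140) (.e (nat_lit 688171) (nat_lit 15) (.e (nat_lit 57478) (nat_lit 28) (.e (nat_lit 557107) (nat_lit 15) (.e (nat_lit 196352) (nat_lit 18) (.e (nat_lit 401152) (nat_lit 0) .nil)))))) (.g (nat_lit 4) .nil .nil)))) (.nd (nat_lit 5) 
(.lf (nat_lit 89239) (.g (nat_lit 3065) (.e (nat_lit 2031) (nat_lit 140) (.e (nat_lit 688170) (nat_lit 15) (.e (nat_lit 57480) (nat_lit 28) (.e (nat_lit 557109) (nat_lit 15) (.e (nat_lit 188422) (nat_lit 11) (.e (nat_lit 336403) (nat_lit 27) (.e (nat_lit 426353) (nat_lit 15) .nil))))))) (.g (nat_lit 4) .nil .nil))) 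
(.lf (nat_lit 89271) (.g (nat_lit 2374) (.e (nat_lit 2031) (nat_lit 140) (.e (nat_lit 688171) (nat_lit 15) (.e (nat_lit 57478) (nat_lit 28) (.e (nat_lit 557109) (nat_lit 15) (.e (nat_lit 188460) (nat_lit 26) (.e (nat_lit 253957) (nat_lit 0) (.e (nat_lit 2854) (nat_lit 184) (.e (nat_lit 426354) (nat_lit 15) .nil)))))))) (.g (nat_lit 4) .nil .nil))))) (.nd (nat_lit 4) (.nd (nat_lit 5) 
(.lf (nat_lit 89231) (.g (nat_lit 906) (.e (nat_lit 2031) (nat_lit 140) (.e (nat_lit 688170) (nat_lit 15) (.e (nat_lit 57480) (nat_lit 28) (.e (nat_lit 557107) (nat_lit 15) .nil)))) .nil)) 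
(.lf (nat_lit 89263) (.g (nat_lit 2913) (.e (nat_lit 2031) (nat_lit 140) (.e (nat_lit 688171) (nat_lit 15) (.e (nat_lit 57478) (nat_lit 28) (.e (nat_lit 557109) (nat_lit 15) (.e (nat_lit 188422) (nat_lit 11) (.e (nat_lit 336401) (nat_lit 27) (.e (nat_lit 426353) (nat_lit 15) .nil))))))) (.g (nat_lit 5) .nil .nil)))) (.nd (nat_lit 5) 
(.lf (nat_lit 89247) (.g (nat_lit 2471) (.e (nat_lit 2031) (nat_lit 140) (.e (nat_lit 688170) (nat_lit 15) (.e (nat_lit 57480) (nat_lit 28) (.e (nat_lit 557109) (nat_lit 15) (.e (nat_lit 188461) (nat_lit 26) (.e (nat_lit 261888) (nat_lit 4) (.e (nat_lit 179968) (nat_lit 15) .nil))))))) (.g (nat_lit 4) .nil .nil))) 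
(.lf (nat_lit 89279) (.g (nat_lit 3132) (.e (nat_lit 2031) (nat_lit 140) (.e (nat_lit 688171) (nat_lit 15) (.e (nat_lit 57478) (nat_lit 28) (.e (nat_lit 557109) (nat_lit 15) (.e (nat_lit 188461) (nat_lit 26) (.e (nat_lit 253953) (nat_lit 0) (.e (nat_lit 2857) (nat_lit 184) (.e (nat_lit 426354) (nat_lit 15) .nil)))))))) (.g (nat_lit 5) .nil .nil)))))))))


end

end Pool.Agent.Lib.MP_5854e1_co.Cz
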