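import Pool.Agent.Lib.MP_5854e1_co.DtD

/-!
# Windows and cells of the rings
-/

set_option autoImplicit false
set_option maxRecDepth 100000
set_option deprecated.oldSectionVars true

namespace Pool.Agent.Lib.MP_5854e1_co.Cz

open Pool.Agent.Lib.MP_5854e1_co

noncomputable section

noncomputable def tv1219 : DT := (.nd (nat_lit 0) (.nd (nat_lit 1) (.nd (nat_lit 2) (.nd (nat_lit 3) (.nd (nat_lit 4) (.nd (nat_lit 5) 
(.lf (nat_lit 89280) (.g (nat_lit 3246) (.e (nat_lit 2031) (nat_lit 140) (.e (nat_lit 688171) (nat_lit 15) (.e (nat_lit 57478) (nat_lit 28) (.e (nat_lit 557109) (nat_lit 15) (.e (nat_lit 188461) (nat_lit 26) (.e (nat_lit 253954) (nat_lit 0) (.e (nat_lit 2852) (nat_lit 184) (.e (nat_lit 426354) (nat_lit 15) .nil)))))))) (.g (nat_lit 5) .nil .nil))) 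
(.lf (nat_lit 89312) (.g (nat_lit 3761) (.e (nat_lit 2031) (nat_lit 140) (.e (nat_lit 688171) (nat_lit 15) (.e (nat_lit 57520) (nat_lit 44) (.e (nat_lit 688177) (nat_lit 16) (.e (nat_lit 65627) (nat_lit 13) (.e (nat_lit 393271) (nat_lit 23) (.e (nat_lit 426354) (nat_lit 15) .nil))))))) (.g (nat_lit 6) .nil .nil)))) (.nd (nat_lit 5) 
(.lf (nat_lit 89296) (.g (nat_lit 2186) (.e (nat_lit 2031) (nat_lit 140) (.e (nat_lit 688171) (nat_lit 15) (.e (nat_lit 57480) (nat_lit 28) (.e (nat_lit 557107) (nat_lit 15) (.e (nat_lit 196352) (nat_lit 11) (.e (nat_lit 336378) (nat_lit 27) (.e (nat_lit 426353) (nat_lit 15) .nil))))))) (.g (nat_lit 4) .nil .nil))) 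
(.lf (nat_lit 89328) (.g (nat_lit 2194) (.e (nat_lit 2031) (nat_lit 140) (.e (nat_lit 688175) (nat_lit 16) (.e (nat_lit 65619) (nat_lit 10) (.e (nat_lit 344160) (nat_lit 37) (.e (nat_lit 647195) (nat_lit 9) (.e (nat_lit 420) (nat_lit 32) (.e (nat_lit 426262) (nat_lit 9) (.e (nat_lit 426349) (nat_lit 15) .nil)))))))) (.g (nat_lit 4) .nil .nil))))) (.nd (nat_lit 4) (.nd (nat_lit 5) 
(.lf (nat_lit 89288) (.g (nat_lit 4474) (.e (nat_lit 2031) (nat_lit 140) (.e (nat_lit 688171) (nat_lit 15) (.e (nat_lit 57479) (nat_lit 28) (.e (nat_lit 557105) (nat_lit 14) (.e (nat_lit 180252) (nat_lit 10) (.e (nat_lit 573489) (nat_lit 14) (.e (nat_lit 73755) (nat_lit 8) (.e (nat_lit 557066) (nat_lit 9) (.e (nat_lit 12) (nat_lit 0) .nil))))))))) (.g (nat_lit 8) .nil .nil))) 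
(.lf (nat_lit 89320) (.g (nat_lit 1804) (.e (nat_lit 2031) (nat_lit 140) (.e (nat_lit 688175) (nat_lit 16) (.e (nat_lit 65619) (nat_lit 10) (.e (nat_lit 344097) (nat_lit 18) (.e (nat_lit 5243) (nat_lit 297) (.e (nat_lit 229410) (nat_lit 14) (.e (nat_lit 450304) (nat_lit 0) .nil))))))) (.g (nat_lit 4) .nil .nil)))) (.nd (nat_lit 5) 
(.lf (nat_lit 89304) (.g (nat_lit 2998) (.e (nat_lit 2031) (nat_lit 140) (.e (nat_lit 688171) (nat_lit 15) (.e (nat_lit 57480) (nat_lit 28) (.e (nat_lit 557109) (nat_lit 15) (.e (nat_lit 188422) (nat_lit 11) (.e (nat_lit 336403) (nat_lit 27) (.e (nat_lit 426353) (nat_lit 15) .nil))))))) (.g (nat_lit 4) .nil .nil))) 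
(.lf (nat_lit 89336) (.g (nat_lit 1716) (.e (nat_lit 2031) (nat_lit 140) (.e (nat_lit 688177) (nat_lit 16) (.e (nat_lit 65550) (nat_lit 0) (.e (nat_lit 1788) (nat_lit 119) (.e (nat_lit 516165) (nat_lit 12) (.e (nat_lit 458496) (nat_lit 3) (.e (nat_lit 524032) (nat_lit 17) .nil))))))) (.g (nat_lit 4) .nil .nil)))))) (.nd (nat_lit 3) (.nd (nat_lit 4) (.nd (nat_lit 5) 
(.lf (nat_lit 89284) (.g (nat_lit 2681) (.e (nat_lit 2031) (nat_lit 140) (.e (nat_lit 688171) (nat_lit 15) (.e (nat_lit 57478) (nat_lit 28) (.e (nat_lit 557109) (nat_lit 15) (.e (nat_lit 188461) (nat_lit 26) (.e (nat_lit 261888) (nat_lit 4) (.e (nat_lit 179968) (nat_lit 15) .nil))))))) (.g (nat_lit 5) .nil .nil))) 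
(.lf (nat_lit 89316) (.g (nat_lit 305) (.e (nat_lit 2031) (nat_lit 140) (.e (nat_lit 688175) (nat_lit 16) (.e (nat_lit 65619) (nat_lit 10) .nil))) .nil))) (.nd (nat_lit 5) 
(.lf (nat_lit 89300) (.g (nat_lit 3407) (.e (nat_lit 2031) (nat_lit 140) (.e (nat_lit 688171) (nat_lit 15) (.e (nat_lit 57480) (nat_lit 28) (.e (nat_lit 557108) (nat_lit 15) (.e (nat_lit 196352) (nat_lit 11) (.e (nat_lit 336378) (nat_lit 27) (.e (nat_lit 426353) (nat_lit 15) .nil))))))) (.g (nat_lit 4) .nil .nil))) 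
(.lf (nat_lit 89332) (.g (nat_lit 1703) (.e (nat_lit 2031) (nat_lit 140) (.e (nat_lit 688175) (nat_lit 16) (.e (nat_lit 65619) (nat_lit 10) (.e (nat_lit 344160) (nat_lit 37) (.e (nat_lit 647195) (nat_lit 9) (.e (nat_lit 7936) (nat_lit 37) (.e (nat_lit 474880) (nat_lit 0) .nil))))))) (.g (nat_lit 4) .nil .nil))))) (.nd (nat_lit 4) (.nd (nat_lit 5) 
(.lf (nat_lit 89292) (.g (nat_lit 2763) (.e (nat_lit 2031) (nat_lit 140) (.e (nat_lit 688171) (nat_lit 15) (.e (nat_lit 57479) (nat_lit 28) (.e (nat_lit 557107) (nat_lit 15) (.e (nat_lit 196352) (nat_lit 18) (.e (nat_lit 401152) (nat_lit 0) .nil)))))) (.g (nat_lit 4) .nil .nil))) 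
(.lf (nat_lit 89324) (.g (nat_lit 2080) (.e (nat_lit 2031) (nat_lit 140) (.e (nat_lit 688175) (nat_lit 16) (.e (nat_lit 65619) (nat_lit 10) (.e (nat_lit 344160) (nat_lit 37) (.e (nat_lit 647195) (nat_lit 9) (.e (nat_lit 420) (nat_lit 32) (.e (nat_lit 426232) (nat_lit 9) (.e (nat_lit 426353) (nat_lit 15) .nil)))))))) (.g (nat_lit 4) .nil .nil)))) (.nd (nat_lit 5) 
(.lf (nat_lit 89308) (.g (nat_lit 2789) (.e (nat_lit 2031) (nat_lit 140) (.e (nat_lit 688171) (nat_lit 15) (.e (nat_lit 57480) (nat_lit 28) (.e (nat_lit 557109) (nat_lit 15) (.e (nat_lit 188460) (nat_lit 26) (.e (nat_lit 253952) (nat_lit 0) (.e (nat_lit 2856) (nat_lit 184) (.e (nat_lit 426354) (nat_lit 15) .nil)))))))) (.g (nat_lit 4) .nil .nil))) 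
(.lf (nat_lit 89340) (.g (nat_lit 2534) (.e (nat_lit 2031) (nat_lit 140) (.e (nat_lit 688177) (nat_lit 16) (.e (nat_lit 65566) (nat_lit 2) (.e (nat_lit 90172) (nat_lit 14) (.e (nat_lit 188160) (nat_lit 33) (.e (nat_lit 8228) (nat_lit 15) (.e (nat_lit 532481) (nat_lit 0) .nil))))))) (.g (nat_lit 4) .nil .nil))))))) (.nd (nat_lit 2) (.nd (nat_lit 3) (.nd (nat_lit 4) (.nd (nat_lit 5) 
(.lf (nat_lit 89282) (.g (nat_lit 2919) (.e (nat_lit 2031) (nat_lit 140) (.e (nat_lit 688171) (nat_lit 15) (.e (nat_lit 57478) (nat_lit 28) (.e (nat_lit 557109) (nat_lit 15) (.e (nat_lit 188461) (nat_lit 26) (.e (nat_lit 261888) (nat_lit 0) (.e (nat_lit 2849) (nat_lit 184) (.e (nat_lit 426354) (nat_lit 15) .nil)))))))) (.g (nat_lit 5) .nil .nil))) 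
(.lf (nat_lit 89314) (.g (nat_lit 1566) (.e (nat_lit 2031) (nat_lit 140) (.e (nat_lit 688175) (nat_lit 16) (.e (nat_lit 65604) (nat_lit 9) (.e (nat_lit 335997) (nat_lit 1) (.e (nat_lit 57822) (nat_lit 250) .nil))))) .nil))) (.nd (nat_lit 5) 
(.lf (nat_lit 89298) (.g (nat_lit 2250) (.e (nat_lit 2031) (nat_lit 140) (.e (nat_lit 688171) (nat_lit 15) (.e (nat_lit 57480) (nat_lit 28) (.e (nat_lit 557107) (nat_lit 15) (.e (nat_lit 188459) (nat_lit 26) (.e (nat_lit 253953) (nat_lit 0) (.e (nat_lit 2854) (nat_lit 184) (.e (nat_lit 426354) (nat_lit 15) .nil)))))))) (.g (nat_lit 4) .nil .nil))) 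
(.lf (nat_lit 89330) (.g (nat_lit 3058) (.e (nat_lit 2031) (nat_lit 140) (.e (nat_lit 688175) (nat_lit 16) (.e (nat_lit 65619) (nat_lit 10) (.e (nat_lit 344160) (nat_lit 37) (.e (nat_lit 647195) (nat_lit 9) (.e (nat_lit 426) (nat_lit 32) (.e (nat_lit 426190) (nat_lit 9) (.e (nat_lit 426354) (nat_lit 15) .nil)))))))) (.g (nat_lit 5) .nil .nil))))) (.nd (nat_lit 4) (.nd (nat_lit 5) 
(.lf (nat_lit 89290) (.g (nat_lit 1231) (.e (nat_lit 2031) (nat_lit 140) (.e (nat_lit 688171) (nat_lit 15) (.e (nat_lit 57479) (nat_lit 28) (.e (nat_lit 557107) (nat_lit 15) .nil)))) .nil)) 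
(.lf (nat_lit 89322) (.g (nat_lit 1990) (.e (nat_lit 2031) (nat_lit 140) (.e (nat_lit 688175) (nat_lit 16) (.e (nat_lit 65619) (nat_lit 10) (.e (nat_lit 344156) (nat_lit 36) (.e (nat_lit 638998) (nat_lit 8) (.e (nat_lit 172087) (nat_lit 9) (.e (nat_lit 426354) (nat_lit 15) .nil))))))) (.g (nat_lit 4) .nil .nil)))) (.nd (nat_lit 5) 
(.lf (nat_lit 89306) (.g (nat_lit 2679) (.e (nat_lit 2031) (nat_lit 140) (.e (nat_lit 688171) (nat_lit 15) (.e (nat_lit 57480) (nat_lit 28) (.e (nat_lit 557109) (nat_lit 15) (.e (nat_lit 196352) (nat_lit 18) (.e (nat_lit 401152) (nat_lit 0) .nil)))))) (.g (nat_lit 4) .nil .nil))) 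
(.lf (nat_lit 89338) (.g (nat_lit 3060) (.e (nat_lit 2031) (nat_lit 140) (.e (nat_lit 688177) (nat_lit 16) (.e (nat_lit 65566) (nat_lit 2) (.e (nat_lit 90170) (nat_lit 13) (.e (nat_lit 172106) (nat_lit 10) (.e (nat_lit 434229) (nat_lit 22) (.e (nat_lit 532224) (nat_lit 17) .nil))))))) (.g (nat_lit 6) .nil .nil)))))) (.nd (nat_lit 3) (.nd (nat_lit 4) (.nd (nat_lit 5) 
(.lf (nat_lit 89286) (.g (nat_lit 4069) (.e (nat_lit 2031) (nat_lit 140) (.e (nat_lit 688171) (nat_lit 15) (.e (nat_lit 57479) (nat_lit 28) (.e (nat_lit 557105) (nat_lit 14) (.e (nat_lit 180252) (nat_lit 10) (.e (nat_lit 573489) (nat_lit 14) (.e (nat_lit 73755) (nat_lit 8) (.e (nat_lit 557065) (nat_lit 9) (.e (nat_lit 1) (nat_lit 0) .nil))))))))) (.g (nat_lit 8) .nil .nil))) 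
(.lf (nat_lit 89318) (.g (nat_lit 1399) (.e (nat_lit 2031) (nat_lit 140) (.e (nat_lit 688175) (nat_lit 16) (.e (nat_lit 65619) (nat_lit 10) (.e (nat_lit 344097) (nat_lit 18) (.e (nat_lit 5219) (nat_lit 296) .nil))))) .nil))) (.nd (nat_lit 5) 
(.lf (nat_lit 89302) (.g (nat_lit 3027) (.e (nat_lit 2031) (nat_lit 140) (.e (nat_lit 688171) (nat_lit 15) (.e (nat_lit 57480) (nat_lit 28) (.e (nat_lit 557109) (nat_lit 15) (.e (nat_lit 188422) (nat_lit 11) (.e (nat_lit 336401) (nat_lit 27) (.e (nat_lit 426353) (nat_lit 15) .nil))))))) (.g (nat_lit 4) .nil .nil))) 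
(.lf (nat_lit 89334) (.g (nat_lit 2603) (.e (nat_lit 2031) (nat_lit 140) (.e (nat_lit 688175) (nat_lit 16) (.e (nat_lit 65619) (nat_lit 10) (.e (nat_lit 344160) (nat_lit 37) (.e (nat_lit 647199) (nat_lit 11) (.e (nat_lit 16436) (nat_lit 9) (.e (nat_lit 426354) (nat_lit 15) .nil))))))) (.g (nat_lit 5) .nil .nil))))) (.nd (nat_lit 4) (.nd (nat_lit 5) 
(.lf (nat_lit 89294) (.g (nat_lit 2786) (.e (nat_lit 2031) (nat_lit 140) (.e (nat_lit 688171) (nat_lit 15) (.e (nat_lit 57480) (nat_lit 28) (.e (nat_lit 557098) (nat_lit 13) (.e (nat_lit 179968) (nat_lit 18) (.e (nat_lit 98376) (nat_lit 30) (.e (nat_lit 458789) (nat_lit 23) (.e (nat_lit 532484) (nat_lit 0) .nil)))))))) (.g (nat_lit 4) .nil .nil))) 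
(.lf (nat_lit 89326) (.g (nat_lit 1974) (.e (nat_lit 2031) (nat_lit 140) (.e (nat_lit 688175) (nat_lit 16) (.e (nat_lit 65619) (nat_lit 10) (.e (nat_lit 344160) (nat_lit 37) (.e (nat_lit 647195) (nat_lit 9) (.e (nat_lit 420) (nat_lit 32) (.e (nat_lit 426261) (nat_lit 9) (.e (nat_lit 426349) (nat_lit 15) .nil)))))))) (.g (nat_lit 4) .nil .nil)))) (.nd (nat_lit 5) 
(.lf (nat_lit 89310) (.g (nat_lit 2114) (.e (nat_lit 2031) (nat_lit 140) (.e (nat_lit 688171) (nat_lit 15) (.e (nat_lit 57520) (nat_lit 44) (.e (nat_lit 688177) (nat_lit 16) (.e (nat_lit 65625) (nat_lit 13) (.e (nat_lit 393270) (nat_lit 23) (.e (nat_lit 426354) (nat_lit 15) .nil))))))) (.g (nat_lit 5) .nil .nil))) 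
(.lf (nat_lit 89342) (.g (nat_lit 2750) (.e (nat_lit 2031) (nat_lit 140) (.e (nat_lit 688177) (nat_lit 16) (.e (nat_lit 65566) (nat_lit 2) (.e (nat_lit 90174) (nat_lit 14) (.e (nat_lit 188160) (nat_lit 33) (.e (nat_lit 8226) (nat_lit 15) (.e (nat_lit 532481) (nat_lit 0) .nil))))))) (.g (nat_lit 4) .nil .nil)))))))) 
(.nd (nat_lit 1) (.nd (nat_lit 2) (.nd (nat_lit 3) (.nd (nat_lit 4) (.nd (nat_lit 5) 
(.lf (nat_lit 89281) (.g (nat_lit 2867) (.e (nat_lit 2031) (nat_lit 140) (.e (nat_lit 688171) (nat_lit 15) (.e (nat_lit 57478) (nat_lit 28) (.e (nat_lit 557109) (nat_lit 15) (.e (nat_lit 188461) (nat_lit 26) (.e (nat_lit 261888) (nat_lit 0) (.e (nat_lit 2845) (nat_lit 184) (.e (nat_lit 426354) (nat_lit 15) .nil)))))))) (.g (nat_lit 5) .nil .nil))) 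
(.lf (nat_lit 89313) (.g (nat_lit 3490) (.e (nat_lit 2031) (nat_lit 140) (.e (nat_lit 688171) (nat_lit 15) (.e (nat_lit 57520) (nat_lit 44) (.e (nat_lit 688177) (nat_lit 16) (.e (nat_lit 65627) (nat_lit 13) (.e (nat_lit 393273) (nat_lit 23) (.e (nat_lit 426354) (nat_lit 15) .nil))))))) (.g (nat_lit 6) .nil .nil)))) (.nd (nat_lit 5) 
(.lf (nat_lit 89297) (.g (nat_lit 2371) (.e (nat_lit 2031) (nat_lit 140) (.e (nat_lit 688171) (nat_lit 15) (.e (nat_lit 57480) (nat_lit 28) (.e (nat_lit 557107) (nat_lit 15) (.e (nat_lit 196352) (nat_lit 18) (.e (nat_lit 401152) (nat_lit 0) .nil)))))) (.g (nat_lit 4) .nil .nil))) 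
(.lf (nat_lit 89329) (.g (nat_lit 3114) (.e (nat_lit 2031) (nat_lit 140) (.e (nat_lit 688175) (nat_lit 16) (.e (nat_lit 65619) (nat_lit 10) (.e (nat_lit 344160) (nat_lit 37) (.e (nat_lit 647195) (nat_lit 9) (.e (nat_lit 426) (nat_lit 32) (.e (nat_lit 426188) (nat_lit 9) (.e (nat_lit 426350) (nat_lit 15) .nil)))))))) (.g (nat_lit 5) .nil .nil))))) (.nd (nat_lit 4) (.nd (nat_lit 5) 
(.lf (nat_lit 89289) (.g (nat_lit 5579) (.e (nat_lit 2031) (nat_lit 140) (.e (nat_lit 688171) (nat_lit 15) (.e (nat_lit 57479) (nat_lit 28) (.e (nat_lit 557105) (nat_lit 14) (.e (nat_lit 180252) (nat_lit 10) (.e (nat_lit 573489) (nat_lit 14) (.e (nat_lit 73755) (nat_lit 8) (.e (nat_lit 557070) (nat_lit 9) (.e (nat_lit 4) (nat_lit 0) .nil))))))))) (.g (nat_lit 9) .nil .nil))) 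
(.lf (nat_lit 89321) (.g (nat_lit 1698) (.e (nat_lit 2031) (nat_lit 140) (.e (nat_lit 688175) (nat_lit 16) (.e (nat_lit 65619) (nat_lit 10) (.e (nat_lit 344097) (nat_lit 18) (.e (nat_lit 5243) (nat_lit 297) (.e (nat_lit 229412) (nat_lit 14) (.e (nat_lit 450304) (nat_lit 0) .nil))))))) (.g (nat_lit 4) .nil .nil)))) (.nd (nat_lit 5) 
(.lf (nat_lit 89305) (.g (nat_lit 2939) (.e (nat_lit 2031) (nat_lit 140) (.e (nat_lit 688171) (nat_lit 15) (.e (nat_lit 57480) (nat_lit 28) (.e (nat_lit 557109) (nat_lit 15) (.e (nat_lit 196352) (nat_lit 11) (.e (nat_lit 336378) (nat_lit 27) (.e (nat_lit 426353) (nat_lit 15) .nil))))))) (.g (nat_lit 4) .nil .nil))) 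
(.lf (nat_lit 89337) (.g (nat_lit 520) (.e (nat_lit 2031) (nat_lit 140) (.e (nat_lit 688177) (nat_lit 16) (.e (nat_lit 65553) (nat_lit 0) .nil))) .nil))))) (.nd (nat_lit 3) (.nd (nat_lit 4) (.nd (nat_lit 5) 
(.lf (nat_lit 89285) (.g (nat_lit 2845) (.e (nat_lit 2031) (nat_lit 140) (.e (nat_lit 688171) (nat_lit 15) (.e (nat_lit 57479) (nat_lit 28) (.e (nat_lit 557105) (nat_lit 14) (.e (nat_lit 180252) (nat_lit 10) (.e (nat_lit 573473) (nat_lit 12) (.e (nat_lit 65280) (nat_lit 204) (.e (nat_lit 163962) (nat_lit 25) (.e (nat_lit 532481) (nat_lit 0) .nil))))))))) (.g (nat_lit 5) .nil .nil))) 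
(.lf (nat_lit 89317) (.g (nat_lit 1527) (.e (nat_lit 2031) (nat_lit 140) (.e (nat_lit 688175) (nat_lit 16) (.e (nat_lit 65619) (nat_lit 10) (.e (nat_lit 344097) (nat_lit 18) (.e (nat_lit 5055) (nat_lit 292) (.e (nat_lit 2645) (nat_lit 166) (.e (nat_lit 196352) (nat_lit 0) .nil))))))) (.g (nat_lit 4) .nil .nil)))) (.nd (nat_lit 5) 
(.lf (nat_lit 89301) (.g (nat_lit 3531) (.e (nat_lit 2031) (nat_lit 140) (.e (nat_lit 688171) (nat_lit 15) (.e (nat_lit 57480) (nat_lit 28) (.e (nat_lit 557108) (nat_lit 15) (.e (nat_lit 196352) (nat_lit 18) (.e (nat_lit 401152) (nat_lit 0) .nil)))))) (.g (nat_lit 4) .nil .nil))) 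
(.lf (nat_lit 89333) (.g (nat_lit 1534) (.e (nat_lit 2031) (nat_lit 140) (.e (nat_lit 688175) (nat_lit 16) (.e (nat_lit 65619) (nat_lit 10) (.e (nat_lit 344160) (nat_lit 37) (.e (nat_lit 647199) (nat_lit 11) .nil))))) .nil)))) (.nd (nat_lit 4) (.nd (nat_lit 5) 
(.lf (nat_lit 89293) (.g (nat_lit 2867) (.e (nat_lit 2031) (nat_lit 140) (.e (nat_lit 688171) (nat_lit 15) (.e (nat_lit 57479) (nat_lit 28) (.e (nat_lit 557109) (nat_lit 15) (.e (nat_lit 196352) (nat_lit 18) (.e (nat_lit 401152) (nat_lit 0) .nil)))))) (.g (nat_lit 4) .nil .nil))) 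
(.lf (nat_lit 89325) (.g (nat_lit 2181) (.e (nat_lit 2031) (nat_lit 140) (.e (nat_lit 688175) (nat_lit 16) (.e (nat_lit 65619) (nat_lit 10) (.e (nat_lit 344160) (nat_lit 37) (.e (nat_lit 647195) (nat_lit 9) (.e (nat_lit 420) (nat_lit 32) (.e (nat_lit 426260) (nat_lit 9) (.e (nat_lit 426349) (nat_lit 15) .nil)))))))) (.g (nat_lit 4) .nil .nil)))) (.nd (nat_lit 5) 
(.lf (nat_lit 89309) (.g (nat_lit 3899) (.e (nat_lit 2031) (nat_lit 140) (.e (nat_lit 688171) (nat_lit 15) (.e (nat_lit 57480) (nat_lit 28) (.e (nat_lit 557109) (nat_lit 15) (.e (nat_lit 188461) (nat_lit 26) (.e (nat_lit 253953) (nat_lit 0) (.e (nat_lit 2856) (nat_lit 184) (.e (nat_lit 426354) (nat_lit 15) .nil)))))))) (.g (nat_lit 5) .nil .nil))) 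
(.lf (nat_lit 89341) (.g (nat_lit 2041) (.e (nat_lit 2031) (nat_lit 140) (.e (nat_lit 688177) (nat_lit 16) (.e (nat_lit 65566) (nat_lit 2) (.e (nat_lit 90172) (nat_lit 14) (.e (nat_lit 188160) (nat_lit 33) (.e (nat_lit 8228) (nat_lit 15) (.e (nat_lit 532483) (nat_lit 0) .nil))))))) (.g (nat_lit 4) .nil .nil))))))) (.nd (nat_lit 2) (.nd (nat_lit 3) (.nd (nat_lit 4) (.nd (nat_lit 5) 
(.lf (nat_lit 89283) (.g (nat_lit 2904) (.e (nat_lit 2031) (nat_lit 140) (.e (nat_lit 688171) (nat_lit 15) (.e (nat_lit 57478) (nat_lit 28) (.e (nat_lit 557109) (nat_lit 15) (.e (nat_lit 188461) (nat_lit 26) (.e (nat_lit 261888) (nat_lit 0) (.e (nat_lit 2859) (nat_lit 184) (.e (nat_lit 426354) (nat_lit 15) .nil)))))))) (.g (nat_lit 5) .nil .nil))) 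
(.lf (nat_lit 89315) (.g (nat_lit 1512) (.e (nat_lit 2031) (nat_lit 140) (.e (nat_lit 688175) (nat_lit 16) (.e (nat_lit 65604) (nat_lit 9) (.e (nat_lit 335997) (nat_lit 1) (.e (nat_lit 57857) (nat_lit 254) .nil))))) .nil))) (.nd (nat_lit 5) 
(.lf (nat_lit 89299) (.g (nat_lit 1345) (.e (nat_lit 2031) (nat_lit 140) (.e (nat_lit 688171) (nat_lit 15) (.e (nat_lit 57480) (nat_lit 28) (.e (nat_lit 557108) (nat_lit 15) .nil)))) .nil)) 
(.lf (nat_lit 89331) (.g (nat_lit 3058) (.e (nat_lit 2031) (nat_lit 140) (.e (nat_lit 688175) (nat_lit 16) (.e (nat_lit 65619) (nat_lit 10) (.e (nat_lit 344160) (nat_lit 37) (.e (nat_lit 647195) (nat_lit 9) (.e (nat_lit 426) (nat_lit 32) (.e (nat_lit 426198) (nat_lit 9) (.e (nat_lit 426354) (nat_lit 15) .nil)))))))) (.g (nat_lit 5) .nil .nil))))) (.nd (nat_lit 4) (.nd (nat_lit 5) 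
(.lf (nat_lit 89291) (.g (nat_lit 2606) (.e (nat_lit 2031) (nat_lit 140) (.e (nat_lit 688171) (nat_lit 15) (.e (nat_lit 57479) (nat_lit 28) (.e (nat_lit 557107) (nat_lit 15) (.e (nat_lit 196352) (nat_lit 11) (.e (nat_lit 336378) (nat_lit 27) (.e (nat_lit 426353) (nat_lit 15) .nil))))))) (.g (nat_lit 4) .nil .nil))) 
(.lf (nat_lit 89323) (.g (nat_lit 907) (.e (nat_lit 2031) (nat_lit 140) (.e (nat_lit 688175) (nat_lit 16) (.e (nat_lit 65619) (nat_lit 10) (.e (nat_lit 344157) (nat_lit 36) .nil)))) .nil))) (.nd (nat_lit 5) 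
(.lf (nat_lit 89307) (.g (nat_lit 2737) (.e (nat_lit 2031) (nat_lit 140) (.e (nat_lit 688171) (nat_lit 15) (.e (nat_lit 57480) (nat_lit 28) (.e (nat_lit 557109) (nat_lit 15) (.e (nat_lit 188460) (nat_lit 26) .nil))))) .nil)) 
(.lf (nat_lit 89339) (.g (nat_lit 1588) (.e (nat_lit 2031) (nat_lit 140) (.e (nat_lit 688177) (nat_lit 16) (.e (nat_lit 65566) (nat_lit 2) (.e (nat_lit 90172) (nat_lit 14) (.e (nat_lit 188160) (nat_lit 33) .nil))))) .nil))))) (.nd (nat_lit 3) (.nd (nat_lit 4) (.nd (nat_lit 5) 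
(.lf (nat_lit 89287) (.g (nat_lit 4217) (.e (nat_lit 2031) (nat_lit 140) (.e (nat_lit 688171) (nat_lit 15) (.e (nat_lit 57479) (nat_lit 28) (.e (nat_lit 557105) (nat_lit 14) (.e (nat_lit 180252) (nat_lit 10) (.e (nat_lit 573489) (nat_lit 14) (.e (nat_lit 73755) (nat_lit 8) (.e (nat_lit 557066) (nat_lit 9) (.e (nat_lit 1) (nat_lit 0) .nil))))))))) (.g (nat_lit 7) .nil .nil))) 
(.lf (nat_lit 89319) (.g (nat_lit 1559) (.e (nat_lit 2031) (nat_lit 140) (.e (nat_lit 688175) (nat_lit 16) (.e (nat_lit 65619) (nat_lit 10) (.e (nat_lit 344097) (nat_lit 18) (.e (nat_lit 5219) (nat_lit 296) (.e (nat_lit 163933) (nat_lit 17) (.e (nat_lit 474880) (nat_lit 0) .nil))))))) (.g (nat_lit 4) .nil .nil)))) (.nd (nat_lit 5) 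
(.lf (nat_lit 89303) (.g (nat_lit 2881) (.e (nat_lit 2031) (nat_lit 140) (.e (nat_lit 688171) (nat_lit 15) (.e (nat_lit 57480) (nat_lit 28) (.e (nat_lit 557109) (nat_lit 15) (.e (nat_lit 188422) (nat_lit 11) (.e (nat_lit 336403) (nat_lit 27) (.e (nat_lit 426349) (nat_lit 15) .nil))))))) (.g (nat_lit 4) .nil .nil))) 
(.lf (nat_lit 89335) (.g (nat_lit 2508) (.e (nat_lit 2031) (nat_lit 140) (.e (nat_lit 688175) (nat_lit 16) (.e (nat_lit 65619) (nat_lit 10) (.e (nat_lit 344160) (nat_lit 37) (.e (nat_lit 647199) (nat_lit 11) (.e (nat_lit 16438) (nat_lit 9) (.e (nat_lit 426354) (nat_lit 15) .nil))))))) (.g (nat_lit 5) .nil .nil))))) (.nd (nat_lit 4) (.nd (nat_lit 5) 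
(.lf (nat_lit 89295) (.g (nat_lit 2687) (.e (nat_lit 2031) (nat_lit 140) (.e (nat_lit 688171) (nat_lit 15) (.e (nat_lit 57480) (nat_lit 28) (.e (nat_lit 557098) (nat_lit 13) (.e (nat_lit 179968) (nat_lit 18) (.e (nat_lit 98377) (nat_lit 30) (.e (nat_lit 458789) (nat_lit 23) (.e (nat_lit 532484) (nat_lit 0) .nil)))))))) (.g (nat_lit 4) .nil .nil))) 
(.lf (nat_lit 89327) (.g (nat_lit 2080) (.e (nat_lit 2031) (nat_lit 140) (.e (nat_lit 688175) (nat_lit 16) (.e (nat_lit 65619) (nat_lit 10) (.e (nat_lit 344160) (nat_lit 37) (.e (nat_lit 647195) (nat_lit 9) (.e (nat_lit 420) (nat_lit 32) (.e (nat_lit 426261) (nat_lit 9) (.e (nat_lit 426353) (nat_lit 15) .nil)))))))) (.g (nat_lit 4) .nil .nil)))) (.nd (nat_lit 5) 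
(.lf (nat_lit 89311) (.g (nat_lit 2318) (.e (nat_lit 2031) (nat_lit 140) (.e (nat_lit 688171) (nat_lit 15) (.e (nat_lit 57520) (nat_lit 44) (.e (nat_lit 688177) (nat_lit 16) (.e (nat_lit 65627) (nat_lit 13) (.e (nat_lit 393270) (nat_lit 23) (.e (nat_lit 426354) (nat_lit 15) .nil))))))) (.g (nat_lit 5) .nil .nil))) 
(.lf (nat_lit 89343) (.g (nat_lit 1968) (.e (nat_lit 2031) (nat_lit 140) (.e (nat_lit 688177) (nat_lit 16) (.e (nat_lit 65566) (nat_lit 2) (.e (nat_lit 90174) (nat_lit 14) (.e (nat_lit 188160) (nat_lit 33) (.e (nat_lit 8226) (nat_lit 15) (.e (nat_lit 532484) (nat_lit 0) .nil))))))) (.g (nat_lit 4) .nil .nil)))))))))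

noncomputable def tv1220 : DT := (.nd (nat_lit 0) (.nd (nat_lit 1) (.nd (nat_lit 2) (.nd (nat_lit 3) (.nd (nat_lit 4) (.nd (nat_lit 5) 
(.lf (nat_lit 89344) (.g (nat_lit 2126) (.e (nat_lit 2031) (nat_lit 140) (.e (nat_lit 688177) (nat_lit 16) (.e (nat_lit 65566) (nat_lit 2) (.e (nat_lit 90174) (nat_lit 14) (.e (nat_lit 188160) (nat_lit 33) (.e (nat_lit 8228) (nat_lit 15) (.e (nat_lit 532484) (nat_lit 0) .nil))))))) (.g (nat_lit 4) .nil .nil))) 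
(.lf (nat_lit 89376) (.g (nat_lit 3224) (.e (nat_lit 2031) (nat_lit 140) (.e (nat_lit 688177) (nat_lit 16) (.e (nat_lit 65571) (nat_lit 3) (.e (nat_lit 98372) (nat_lit 29) (.e (nat_lit 458496) (nat_lit 3) (.e (nat_lit 524032) (nat_lit 17) .nil)))))) (.g (nat_lit 4) .nil .nil)))) (.nd (nat_lit 5) 
(.lf (nat_lit 89360) (.g (nat_lit 2021) (.e (nat_lit 2031) (nat_lit 140) (.e (nat_lit 688177) (nat_lit 16) (.e (nat_lit 65569) (nat_lit 3) (.e (nat_lit 98373) (nat_lit 29) (.e (nat_lit 458496) (nat_lit 3) (.e (nat_lit 524032) (nat_lit 17) .nil)))))) (.g (nat_lit 4) .nil .nil))) 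
(.lf (nat_lit 89392) (.g (nat_lit 949) (.e (nat_lit 2031) (nat_lit 140) (.e (nat_lit 688177) (nat_lit 16) (.e (nat_lit 65583) (nat_lit 7) (.e (nat_lit 319530) (nat_lit 16) .nil)))) .nil)))) (.nd (nat_lit 4) (.nd (nat_lit 5) 
(.lf (nat_lit 89352) (.g (nat_lit 3490) (.e (nat_lit 2031) (nat_lit 140) (.e (nat_lit 688177) (nat_lit 16) (.e (nat_lit 65569) (nat_lit 3) (.e (nat_lit 98359) (nat_lit 26) (.e (nat_lit 426211) (nat_lit 9) (.e (nat_lit 426125) (nat_lit 2) (.e (nat_lit 204544) (nat_lit 0) (.e (nat_lit 5) (nat_lit 0) .nil)))))))) (.g (nat_lit 5) .nil .nil))) 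
(.lf (nat_lit 89384) (.g (nat_lit 2517) (.e (nat_lit 2031) (nat_lit 140) (.e (nat_lit 688177) (nat_lit 16) (.e (nat_lit 65581) (nat_lit 7) (.e (nat_lit 319534) (nat_lit 16) (.e (nat_lit 286756) (nat_lit 10) (.e (nat_lit 344104) (nat_lit 18) (.e (nat_lit 5947) (nat_lit 322) (.e (nat_lit 57347) (nat_lit 0) .nil)))))))) (.g (nat_lit 4) .nil .nil)))) (.nd (nat_lit 5) 
(.lf (nat_lit 89368) (.g (nat_lit 2642) (.e (nat_lit 2031) (nat_lit 140) (.e (nat_lit 688177) (nat_lit 16) (.e (nat_lit 65571) (nat_lit 3) (.e (nat_lit 98367) (nat_lit 27) (.e (nat_lit 442112) (nat_lit 1) (.e (nat_lit 8228) (nat_lit 15) (.e (nat_lit 532481) (nat_lit 0) .nil))))))) (.g (nat_lit 4) .nil .nil))) 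
(.lf (nat_lit 89400) (.g (nat_lit 2398) (.e (nat_lit 2031) (nat_lit 140) (.e (nat_lit 688177) (nat_lit 16) (.e (nat_lit 65583) (nat_lit 7) (.e (nat_lit 319530) (nat_lit 16) (.e (nat_lit 286727) (nat_lit 0) (.e (nat_lit 6674) (nat_lit 357) (.e (nat_lit 2936) (nat_lit 184) (.e (nat_lit 426349) (nat_lit 15) .nil)))))))) (.g (nat_lit 4) .nil .nil)))))) 
(.nd (nat_lit 3) (.nd (nat_lit 4) (.nd (nat_lit 5) 
(.lf (nat_lit 89348) (.g (nat_lit 2793) (.e (nat_lit 2031) (nat_lit 140) (.e (nat_lit 688177) (nat_lit 16) (.e (nat_lit 65568) (nat_lit 2) (.e (nat_lit 90172) (nat_lit 14) (.e (nat_lit 188160) (nat_lit 33) (.e (nat_lit 8228) (nat_lit 15) (.e (nat_lit 532481) (nat_lit 0) .nil))))))) (.g (nat_lit 4) .nil .nil))) 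
(.lf (nat_lit 89380) (.g (nat_lit 1806) (.e (nat_lit 2031) (nat_lit 140) (.e (nat_lit 688177) (nat_lit 16) (.e (nat_lit 65571) (nat_lit 3) (.e (nat_lit 98381) (nat_lit 31) (.e (nat_lit 474880) (nat_lit 0) .nil))))) .nil))) (.nd (nat_lit 5) 
(.lf (nat_lit 89364) (.g (nat_lit 3610) (.e (nat_lit 2031) (nat_lit 140) (.e (nat_lit 688177) (nat_lit 16) (.e (nat_lit 65571) (nat_lit 3) (.e (nat_lit 98359) (nat_lit 26) (.e (nat_lit 426211) (nat_lit 9) (.e (nat_lit 426125) (nat_lit 2) (.e (nat_lit 204544) (nat_lit 0) (.e (nat_lit 5) (nat_lit 0) .nil)))))))) (.g (nat_lit 4) .nil .nil))) 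
(.lf (nat_lit 89396) (.g (nat_lit 2266) (.e (nat_lit 2031) (nat_lit 140) (.e (nat_lit 688177) (nat_lit 16) (.e (nat_lit 65583) (nat_lit 7) (.e (nat_lit 319530) (nat_lit 16) (.e (nat_lit 286727) (nat_lit 0) (.e (nat_lit 6223) (nat_lit 334) (.e (nat_lit 123164) (nat_lit 256) (.e (nat_lit 11) (nat_lit 0) .nil)))))))) (.g (nat_lit 4) .nil .nil))))) (.nd (nat_lit 4) (.nd (nat_lit 5) 
(.lf (nat_lit 89356) (.g (nat_lit 3074) (.e (nat_lit 2031) (nat_lit 140) (.e (nat_lit 688177) (nat_lit 16) (.e (nat_lit 65569) (nat_lit 3) (.e (nat_lit 98370) (nat_lit 28) (.e (nat_lit 442396) (nat_lit 20) (.e (nat_lit 3207) (nat_lit 195) (.e (nat_lit 524032) (nat_lit 17) .nil))))))) (.g (nat_lit 6) .nil .nil))) 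
(.lf (nat_lit 89388) (.g (nat_lit 3180) (.e (nat_lit 2031) (nat_lit 140) (.e (nat_lit 688177) (nat_lit 16) (.e (nat_lit 65581) (nat_lit 7) (.e (nat_lit 319534) (nat_lit 16) (.e (nat_lit 286756) (nat_lit 10) (.e (nat_lit 344169) (nat_lit 40) (.e (nat_lit 671748) (nat_lit 0) (.e (nat_lit 982) (nat_lit 81) .nil)))))))) (.g (nat_lit 5) .nil .nil)))) (.nd (nat_lit 5) 
(.lf (nat_lit 89372) (.g (nat_lit 3267) (.e (nat_lit 2031) (nat_lit 140) (.e (nat_lit 688177) (nat_lit 16) (.e (nat_lit 65571) (nat_lit 3) (.e (nat_lit 98370) (nat_lit 28) (.e (nat_lit 442396) (nat_lit 20) (.e (nat_lit 3207) (nat_lit 195) (.e (nat_lit 524032) (nat_lit 17) .nil))))))) (.g (nat_lit 5) .nil .nil))) 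
(.lf (nat_lit 89404) (.g (nat_lit 1985) (.e (nat_lit 2031) (nat_lit 140) (.e (nat_lit 688177) (nat_lit 16) (.e (nat_lit 65583) (nat_lit 7) (.e (nat_lit 319530) (nat_lit 16) (.e (nat_lit 286727) (nat_lit 0) (.e (nat_lit 6676) (nat_lit 357) (.e (nat_lit 2857) (nat_lit 184) (.e (nat_lit 426350) (nat_lit 15) .nil)))))))) (.g (nat_lit 4) .nil .nil))))))) 
(.nd (nat_lit 2) (.nd (nat_lit 3) (.nd (nat_lit 4) (.nd (nat_lit 5) 
(.lf (nat_lit 89346) (.g (nat_lit 414) (.e (nat_lit 2031) (nat_lit 140) (.e (nat_lit 688177) (nat_lit 16) (.e (nat_lit 65568) (nat_lit 2) .nil))) .nil)) 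
(.lf (nat_lit 89378) (.g (nat_lit 1615) (.e (nat_lit 2031) (nat_lit 140) (.e (nat_lit 688177) (nat_lit 16) (.e (nat_lit 65571) (nat_lit 3) (.e (nat_lit 98374) (nat_lit 29) .nil)))) .nil))) (.nd (nat_lit 5) 
(.lf (nat_lit 89362) (.g (nat_lit 2548) (.e (nat_lit 2031) (nat_lit 140) (.e (nat_lit 688177) (nat_lit 16) (.e (nat_lit 65571) (nat_lit 3) (.e (nat_lit 98359) (nat_lit 26) (.e (nat_lit 426211) (nat_lit 9) .nil))))) .nil)) 
(.lf (nat_lit 89394) (.g (nat_lit 2256) (.e (nat_lit 2031) (nat_lit 140) (.e (nat_lit 688177) (nat_lit 16) (.e (nat_lit 65583) (nat_lit 7) (.e (nat_lit 319530) (nat_lit 16) (.e (nat_lit 286727) (nat_lit 0) (.e (nat_lit 6150) (nat_lit 332) (.e (nat_lit 1385) (nat_lit 105) (.e (nat_lit 319232) (nat_lit 15) .nil)))))))) (.g (nat_lit 4) .nil .nil))))) (.nd (nat_lit 4) (.nd (nat_lit 5) 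
(.lf (nat_lit 89354) (.g (nat_lit 2722) (.e (nat_lit 2031) (nat_lit 140) (.e (nat_lit 688177) (nat_lit 16) (.e (nat_lit 65569) (nat_lit 3) (.e (nat_lit 98367) (nat_lit 27) (.e (nat_lit 442112) (nat_lit 1) (.e (nat_lit 8228) (nat_lit 15) (.e (nat_lit 532481) (nat_lit 0) .nil))))))) (.g (nat_lit 4) .nil .nil))) 
(.lf (nat_lit 89386) (.g (nat_lit 2851) (.e (nat_lit 2031) (nat_lit 140) (.e (nat_lit 688177) (nat_lit 16) (.e (nat_lit 65581) (nat_lit 7) (.e (nat_lit 319534) (nat_lit 16) (.e (nat_lit 286756) (nat_lit 10) (.e (nat_lit 344168) (nat_lit 40) (.e (nat_lit 671751) (nat_lit 0) (.e (nat_lit 982) (nat_lit 81) .nil)))))))) (.g (nat_lit 4) .nil .nil)))) (.nd (nat_lit 5) 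
(.lf (nat_lit 89370) (.g (nat_lit 1133) (.e (nat_lit 2031) (nat_lit 140) (.e (nat_lit 688177) (nat_lit 16) (.e (nat_lit 65571) (nat_lit 3) (.e (nat_lit 98370) (nat_lit 28) .nil)))) .nil)) 
(.lf (nat_lit 89402) (.g (nat_lit 2211) (.e (nat_lit 2031) (nat_lit 140) (.e (nat_lit 688177) (nat_lit 16) (.e (nat_lit 65583) (nat_lit 7) (.e (nat_lit 319530) (nat_lit 16) (.e (nat_lit 286727) (nat_lit 0) (.e (nat_lit 6674) (nat_lit 357) (.e (nat_lit 2939) (nat_lit 184) (.e (nat_lit 426349) (nat_lit 15) .nil)))))))) (.g (nat_lit 4) .nil .nil)))))) 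
(.nd (nat_lit 3) (.nd (nat_lit 4) (.nd (nat_lit 5) 
(.lf (nat_lit 89350) (.g (nat_lit 476) (.e (nat_lit 2031) (nat_lit 140) (.e (nat_lit 688177) (nat_lit 16) (.e (nat_lit 65569) (nat_lit 3) .nil))) .nil)) 
(.lf (nat_lit 89382) (.g (nat_lit 3411) (.e (nat_lit 2031) (nat_lit 140) (.e (nat_lit 688177) (nat_lit 16) (.e (nat_lit 65581) (nat_lit 7) (.e (nat_lit 319533) (nat_lit 16) (.e (nat_lit 286753) (nat_lit 10) (.e (nat_lit 344169) (nat_lit 40) (.e (nat_lit 671748) (nat_lit 0) (.e (nat_lit 982) (nat_lit 81) .nil)))))))) (.g (nat_lit 6) .nil .nil)))) (.nd (nat_lit 5) 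
(.lf (nat_lit 89366) (.g (nat_lit 2516) (.e (nat_lit 2031) (nat_lit 140) (.e (nat_lit 688177) (nat_lit 16) (.e (nat_lit 65571) (nat_lit 3) (.e (nat_lit 98359) (nat_lit 26) (.e (nat_lit 426285) (nat_lit 10) .nil))))) .nil)) 
(.lf (nat_lit 89398) (.g (nat_lit 3219) (.e (nat_lit 2031) (nat_lit 140) (.e (nat_lit 688177) (nat_lit 16) (.e (nat_lit 65583) (nat_lit 7) (.e (nat_lit 319530) (nat_lit 16) (.e (nat_lit 286727) (nat_lit 0) (.e (nat_lit 6223) (nat_lit 334) (.e (nat_lit 123166) (nat_lit 256) (.e (nat_lit 11) (nat_lit 0) .nil)))))))) (.g (nat_lit 5) .nil .nil))))) (.nd (nat_lit 4) (.nd (nat_lit 5) 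
(.lf (nat_lit 89358) (.g (nat_lit 3762) (.e (nat_lit 2031) (nat_lit 140) (.e (nat_lit 688177) (nat_lit 16) (.e (nat_lit 65569) (nat_lit 3) (.e (nat_lit 98370) (nat_lit 28) (.e (nat_lit 442424) (nat_lit 22) (.e (nat_lit 204544) (nat_lit 0) (.e (nat_lit 11) (nat_lit 0) .nil))))))) (.g (nat_lit 5) .nil .nil))) 
(.lf (nat_lit 89390) (.g (nat_lit 519) (.e (nat_lit 2031) (nat_lit 140) (.e (nat_lit 688177) (nat_lit 16) (.e (nat_lit 65582) (nat_lit 7) .nil))) .nil))) (.nd (nat_lit 5) 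
(.lf (nat_lit 89374) (.g (nat_lit 2642) (.e (nat_lit 2031) (nat_lit 140) (.e (nat_lit 688177) (nat_lit 16) (.e (nat_lit 65571) (nat_lit 3) (.e (nat_lit 98370) (nat_lit 28) (.e (nat_lit 442433) (nat_lit 25) (.e (nat_lit 245760) (nat_lit 0) (.e (nat_lit 4) (nat_lit 0) .nil))))))) (.g (nat_lit 4) .nil .nil))) 
(.lf (nat_lit 89406) (.g (nat_lit 2540) (.e (nat_lit 2031) (nat_lit 140) (.e (nat_lit 688177) (nat_lit 16) (.e (nat_lit 65583) (nat_lit 7) (.e (nat_lit 319530) (nat_lit 16) (.e (nat_lit 286727) (nat_lit 0) (.e (nat_lit 7936) (nat_lit 361) (.e (nat_lit 179968) (nat_lit 15) .nil))))))) (.g (nat_lit 5) .nil .nil)))))))) 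
(.nd (nat_lit 1) (.nd (nat_lit 2) (.nd (nat_lit 3) (.nd (nat_lit 4) (.nd (nat_lit 5) 
(.lf (nat_lit 89345) (.g (nat_lit 2588) (.e (nat_lit 2031) (nat_lit 140) (.e (nat_lit 688177) (nat_lit 16) (.e (nat_lit 65567) (nat_lit 2) (.e (nat_lit 90172) (nat_lit 14) (.e (nat_lit 188160) (nat_lit 33) (.e (nat_lit 8226) (nat_lit 15) (.e (nat_lit 532481) (nat_lit 0) .nil))))))) (.g (nat_lit 4) .nil .nil))) 
(.lf (nat_lit 89377) (.g (nat_lit 2768) (.e (nat_lit 2031) (nat_lit 140) (.e (nat_lit 688177) (nat_lit 16) (.e (nat_lit 65571) (nat_lit 3) (.e (nat_lit 98373) (nat_lit 29) (.e (nat_lit 458496) (nat_lit 3) (.e (nat_lit 524032) (nat_lit 17) .nil)))))) (.g (nat_lit 4) .nil .nil)))) (.nd (nat_lit 5) 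
(.lf (nat_lit 89361) (.g (nat_lit 386) (.e (nat_lit 2031) (nat_lit 140) (.e (nat_lit 688177) (nat_lit 16) (.e (nat_lit 65571) (nat_lit 3) .nil))) .nil)) 
(.lf (nat_lit 89393) (.g (nat_lit 2290) (.e (nat_lit 2031) (nat_lit 140) (.e (nat_lit 688177) (nat_lit 16) (.e (nat_lit 65583) (nat_lit 7) (.e (nat_lit 319530) (nat_lit 16) (.e (nat_lit 286727) (nat_lit 0) (.e (nat_lit 6149) (nat_lit 332) (.e (nat_lit 1386) (nat_lit 105) (.e (nat_lit 319232) (nat_lit 15) .nil)))))))) (.g (nat_lit 4) .nil .nil))))) (.nd (nat_lit 4) (.nd (nat_lit 5) 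
(.lf (nat_lit 89353) (.g (nat_lit 2420) (.e (nat_lit 2031) (nat_lit 140) (.e (nat_lit 688177) (nat_lit 16) (.e (nat_lit 65569) (nat_lit 3) (.e (nat_lit 98359) (nat_lit 26) (.e (nat_lit 426285) (nat_lit 10) (.e (nat_lit 434229) (nat_lit 22) (.e (nat_lit 532224) (nat_lit 17) .nil))))))) (.g (nat_lit 4) .nil .nil))) 
(.lf (nat_lit 89385) (.g (nat_lit 2592) (.e (nat_lit 2031) (nat_lit 140) (.e (nat_lit 688177) (nat_lit 16) (.e (nat_lit 65581) (nat_lit 7) (.e (nat_lit 319534) (nat_lit 16) (.e (nat_lit 286756) (nat_lit 10) (.e (nat_lit 344168) (nat_lit 40) (.e (nat_lit 671744) (nat_lit 0) (.e (nat_lit 999) (nat_lit 81) .nil)))))))) (.g (nat_lit 4) .nil .nil)))) (.nd (nat_lit 5) 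
(.lf (nat_lit 89369) (.g (nat_lit 2051) (.e (nat_lit 2031) (nat_lit 140) (.e (nat_lit 688177) (nat_lit 16) (.e (nat_lit 65571) (nat_lit 3) (.e (nat_lit 98369) (nat_lit 28) (.e (nat_lit 442374) (nat_lit 0) .nil))))) .nil)) 
(.lf (nat_lit 89401) (.g (nat_lit 2289) (.e (nat_lit 2031) (nat_lit 140) (.e (nat_lit 688177) (nat_lit 16) (.e (nat_lit 65583) (nat_lit 7) (.e (nat_lit 319530) (nat_lit 16) (.e (nat_lit 286727) (nat_lit 0) (.e (nat_lit 6674) (nat_lit 357) (.e (nat_lit 2936) (nat_lit 184) (.e (nat_lit 426353) (nat_lit 15) .nil)))))))) (.g (nat_lit 4) .nil .nil)))))) 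
(.nd (nat_lit 3) (.nd (nat_lit 4) (.nd (nat_lit 5) 
(.lf (nat_lit 89349) (.g (nat_lit 2652) (.e (nat_lit 2031) (nat_lit 140) (.e (nat_lit 688177) (nat_lit 16) (.e (nat_lit 65568) (nat_lit 2) (.e (nat_lit 90174) (nat_lit 14) (.e (nat_lit 188160) (nat_lit 33) (.e (nat_lit 8228) (nat_lit 15) (.e (nat_lit 532484) (nat_lit 0) .nil))))))) (.g (nat_lit 4) .nil .nil))) 
(.lf (nat_lit 89381) (.g (nat_lit 2502) (.e (nat_lit 2031) (nat_lit 140) (.e (nat_lit 688177) (nat_lit 16) (.e (nat_lit 65581) (nat_lit 7) (.e (nat_lit 319533) (nat_lit 16) (.e (nat_lit 286753) (nat_lit 10) (.e (nat_lit 344169) (nat_lit 40) (.e (nat_lit 671744) (nat_lit 0) (.e (nat_lit 999) (nat_lit 81) .nil)))))))) (.g (nat_lit 5) .nil .nil)))) (.nd (nat_lit 5) 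
(.lf (nat_lit 89365) (.g (nat_lit 4342) (.e (nat_lit 2031) (nat_lit 140) (.e (nat_lit 688177) (nat_lit 16) (.e (nat_lit 65571) (nat_lit 3) (.e (nat_lit 98359) (nat_lit 26) (.e (nat_lit 426211) (nat_lit 9) (.e (nat_lit 426125) (nat_lit 2) (.e (nat_lit 204544) (nat_lit 0) (.e (nat_lit 11) (nat_lit 0) .nil)))))))) (.g (nat_lit 5) .nil .nil))) 
(.lf (nat_lit 89397) (.g (nat_lit 2280) (.e (nat_lit 2031) (nat_lit 140) (.e (nat_lit 688177) (nat_lit 16) (.e (nat_lit 65583) (nat_lit 7) (.e (nat_lit 319530) (nat_lit 16) (.e (nat_lit 286727) (nat_lit 0) (.e (nat_lit 6223) (nat_lit 334) (.e (nat_lit 123165) (nat_lit 256) (.e (nat_lit 11) (nat_lit 0) .nil)))))))) (.g (nat_lit 4) .nil .nil))))) (.nd (nat_lit 4) (.nd (nat_lit 5) 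
(.lf (nat_lit 89357) (.g (nat_lit 3030) (.e (nat_lit 2031) (nat_lit 140) (.e (nat_lit 688177) (nat_lit 16) (.e (nat_lit 65569) (nat_lit 3) (.e (nat_lit 98370) (nat_lit 28) (.e (nat_lit 442424) (nat_lit 22) (.e (nat_lit 204544) (nat_lit 0) (.e (nat_lit 5) (nat_lit 0) .nil))))))) (.g (nat_lit 4) .nil .nil))) 
(.lf (nat_lit 89389) (.g (nat_lit 2784) (.e (nat_lit 2031) (nat_lit 140) (.e (nat_lit 688177) (nat_lit 16) (.e (nat_lit 65581) (nat_lit 7) (.e (nat_lit 319534) (nat_lit 16) (.e (nat_lit 286756) (nat_lit 10) (.e (nat_lit 344169) (nat_lit 40) (.e (nat_lit 671751) (nat_lit 0) (.e (nat_lit 982) (nat_lit 81) .nil)))))))) (.g (nat_lit 4) .nil .nil)))) (.nd (nat_lit 5) 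
(.lf (nat_lit 89373) (.g (nat_lit 2856) (.e (nat_lit 2031) (nat_lit 140) (.e (nat_lit 688177) (nat_lit 16) (.e (nat_lit 65571) (nat_lit 3) (.e (nat_lit 98370) (nat_lit 28) (.e (nat_lit 442424) (nat_lit 22) (.e (nat_lit 204544) (nat_lit 0) (.e (nat_lit 5) (nat_lit 0) .nil))))))) (.g (nat_lit 4) .nil .nil))) 
(.lf (nat_lit 89405) (.g (nat_lit 2744) (.e (nat_lit 2031) (nat_lit 140) (.e (nat_lit 688177) (nat_lit 16) (.e (nat_lit 65583) (nat_lit 7) (.e (nat_lit 319530) (nat_lit 16) (.e (nat_lit 286727) (nat_lit 0) (.e (nat_lit 6680) (nat_lit 357) (.e (nat_lit 2855) (nat_lit 184) (.e (nat_lit 426354) (nat_lit 15) .nil)))))))) (.g (nat_lit 5) .nil .nil))))))) 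
(.nd (nat_lit 2) (.nd (nat_lit 3) (.nd (nat_lit 4) (.nd (nat_lit 5) 
(.lf (nat_lit 89347) (.g (nat_lit 3373) (.e (nat_lit 2031) (nat_lit 140) (.e (nat_lit 688177) (nat_lit 16) (.e (nat_lit 65568) (nat_lit 2) (.e (nat_lit 90172) (nat_lit 14) (.e (nat_lit 188160) (nat_lit 33) (.e (nat_lit 8226) (nat_lit 15) (.e (nat_lit 532484) (nat_lit 0) .nil))))))) (.g (nat_lit 4) .nil .nil))) 
(.lf (nat_lit 89379) (.g (nat_lit 1402) (.e (nat_lit 2031) (nat_lit 140) (.e (nat_lit 688177) (nat_lit 16) (.e (nat_lit 65571) (nat_lit 3) (.e (nat_lit 98381) (nat_lit 31) .nil)))) .nil))) (.nd (nat_lit 5) 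
(.lf (nat_lit 89363) (.g (nat_lit 2734) (.e (nat_lit 2031) (nat_lit 140) (.e (nat_lit 688177) (nat_lit 16) (.e (nat_lit 65571) (nat_lit 3) (.e (nat_lit 98359) (nat_lit 26) (.e (nat_lit 426211) (nat_lit 9) (.e (nat_lit 426125) (nat_lit 2) (.e (nat_lit 204544) (nat_lit 0) (.e (nat_lit 4) (nat_lit 0) .nil)))))))) (.g (nat_lit 4) .nil .nil))) 
(.lf (nat_lit 89395) (.g (nat_lit 2677) (.e (nat_lit 2031) (nat_lit 140) (.e (nat_lit 688177) (nat_lit 16) (.e (nat_lit 65583) (nat_lit 7) (.e (nat_lit 319530) (nat_lit 16) (.e (nat_lit 286727) (nat_lit 0) (.e (nat_lit 6150) (nat_lit 332) (.e (nat_lit 1386) (nat_lit 105) (.e (nat_lit 319232) (nat_lit 15) .nil)))))))) (.g (nat_lit 5) .nil .nil))))) (.nd (nat_lit 4) (.nd (nat_lit 5) 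
(.lf (nat_lit 89355) (.g (nat_lit 1103) (.e (nat_lit 2031) (nat_lit 140) (.e (nat_lit 688177) (nat_lit 16) (.e (nat_lit 65569) (nat_lit 3) (.e (nat_lit 98370) (nat_lit 28) .nil)))) .nil)) 
(.lf (nat_lit 89387) (.g (nat_lit 2373) (.e (nat_lit 2031) (nat_lit 140) (.e (nat_lit 688177) (nat_lit 16) (.e (nat_lit 65581) (nat_lit 7) (.e (nat_lit 319534) (nat_lit 16) (.e (nat_lit 286756) (nat_lit 10) (.e (nat_lit 344169) (nat_lit 40) (.e (nat_lit 671744) (nat_lit 0) (.e (nat_lit 999) (nat_lit 81) .nil)))))))) (.g (nat_lit 4) .nil .nil)))) (.nd (nat_lit 5) 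
(.lf (nat_lit 89371) (.g (nat_lit 2747) (.e (nat_lit 2031) (nat_lit 140) (.e (nat_lit 688177) (nat_lit 16) (.e (nat_lit 65571) (nat_lit 3) (.e (nat_lit 98370) (nat_lit 28) (.e (nat_lit 442374) (nat_lit 0) (.e (nat_lit 7936) (nat_lit 121) (.e (nat_lit 532481) (nat_lit 0) .nil))))))) (.g (nat_lit 4) .nil .nil))) 
(.lf (nat_lit 89403) (.g (nat_lit 2313) (.e (nat_lit 2031) (nat_lit 140) (.e (nat_lit 688177) (nat_lit 16) (.e (nat_lit 65583) (nat_lit 7) (.e (nat_lit 319530) (nat_lit 16) (.e (nat_lit 286727) (nat_lit 0) (.e (nat_lit 6674) (nat_lit 357) (.e (nat_lit 2939) (nat_lit 184) (.e (nat_lit 426353) (nat_lit 15) .nil)))))))) (.g (nat_lit 4) .nil .nil)))))) 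
(.nd (nat_lit 3) (.nd (nat_lit 4) (.nd (nat_lit 5) 
(.lf (nat_lit 89351) (.g (nat_lit 2614) (.e (nat_lit 2031) (nat_lit 140) (.e (nat_lit 688177) (nat_lit 16) (.e (nat_lit 65569) (nat_lit 3) (.e (nat_lit 98359) (nat_lit 26) (.e (nat_lit 426211) (nat_lit 9) (.e (nat_lit 426125) (nat_lit 2) (.e (nat_lit 204544) (nat_lit 0) (.e (nat_lit 4) (nat_lit 0) .nil)))))))) (.g (nat_lit 4) .nil .nil))) 
(.lf (nat_lit 89383) (.g (nat_lit 2611) (.e (nat_lit 2031) (nat_lit 140) (.e (nat_lit 688177) (nat_lit 16) (.e (nat_lit 65581) (nat_lit 7) (.e (nat_lit 319533) (nat_lit 16) (.e (nat_lit 286753) (nat_lit 10) (.e (nat_lit 344169) (nat_lit 40) (.e (nat_lit 671751) (nat_lit 0) (.e (nat_lit 982) (nat_lit 81) .nil)))))))) (.g (nat_lit 5) .nil .nil)))) (.nd (nat_lit 5) 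
(.lf (nat_lit 89367) (.g (nat_lit 1618) (.e (nat_lit 2031) (nat_lit 140) (.e (nat_lit 688177) (nat_lit 16) (.e (nat_lit 65571) (nat_lit 3) (.e (nat_lit 98367) (nat_lit 27) .nil)))) .nil)) 
(.lf (nat_lit 89399) (.g (nat_lit 3008) (.e (nat_lit 2031) (nat_lit 140) (.e (nat_lit 688177) (nat_lit 16) (.e (nat_lit 65583) (nat_lit 7) (.e (nat_lit 319530) (nat_lit 16) (.e (nat_lit 286727) (nat_lit 0) (.e (nat_lit 6671) (nat_lit 357) (.e (nat_lit 2940) (nat_lit 184) (.e (nat_lit 433920) (nat_lit 15) .nil)))))))) (.g (nat_lit 5) .nil .nil))))) (.nd (nat_lit 4) (.nd (nat_lit 5) 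
(.lf (nat_lit 89359) (.g (nat_lit 2157) (.e (nat_lit 2031) (nat_lit 140) (.e (nat_lit 688177) (nat_lit 16) (.e (nat_lit 65569) (nat_lit 3) (.e (nat_lit 98372) (nat_lit 29) (.e (nat_lit 458496) (nat_lit 3) (.e (nat_lit 524032) (nat_lit 17) .nil)))))) (.g (nat_lit 4) .nil .nil))) 
(.lf (nat_lit 89391) (.g (nat_lit 1186) (.e (nat_lit 2031) (nat_lit 140) (.e (nat_lit 688177) (nat_lit 16) (.e (nat_lit 65583) (nat_lit 7) (.e (nat_lit 319499) (nat_lit 10) .nil)))) .nil))) (.nd (nat_lit 5) 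
(.lf (nat_lit 89375) (.g (nat_lit 2639) (.e (nat_lit 2031) (nat_lit 140) (.e (nat_lit 688177) (nat_lit 16) (.e (nat_lit 65571) (nat_lit 3) (.e (nat_lit 98370) (nat_lit 28) (.e (nat_lit 442433) (nat_lit 25) (.e (nat_lit 245761) (nat_lit 0) (.e (nat_lit 4) (nat_lit 0) .nil))))))) (.g (nat_lit 4) .nil .nil))) 
(.lf (nat_lit 89407) (.g (nat_lit 2742) (.e (nat_lit 2031) (nat_lit 140) (.e (nat_lit 688177) (nat_lit 16) (.e (nat_lit 65583) (nat_lit 7) (.e (nat_lit 319530) (nat_lit 16) (.e (nat_lit 286727) (nat_lit 0) (.e (nat_lit 7936) (nat_lit 364) (.e (nat_lit 245504) (nat_lit 15) .nil))))))) (.g (nat_lit 5) .nil .nil)))))))))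

noncomputable def tv1221 : DT := (.nd (nat_lit 0) (.nd (nat_lit 1) (.nd (nat_lit 2) (.nd (nat_lit 3) (.nd (nat_lit 4) (.nd (nat_lit 5) 
(.lf (nat_lit 89408) (.g (nat_lit 3527) (.e (nat_lit 2031) (nat_lit 140) (.e (nat_lit 688177) (nat_lit 16) (.e (nat_lit 65583) (nat_lit 7) (.e (nat_lit 319530) (nat_lit 16) (.e (nat_lit 286739) (nat_lit 7) (.e (nat_lit 319539) (nat_lit 19) (.e (nat_lit 319232) (nat_lit 15) .nil))))))) (.g (nat_lit 6) .nil .nil))) 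
(.lf (nat_lit 89440) (.g (nat_lit 2733) (.e (nat_lit 2031) (nat_lit 140) (.e (nat_lit 688177) (nat_lit 16) (.e (nat_lit 65583) (nat_lit 7) (.e (nat_lit 319530) (nat_lit 16) (.e (nat_lit 286748) (nat_lit 9) (.e (nat_lit 336030) (nat_lit 4) (.e (nat_lit 123194) (nat_lit 266) (.e (nat_lit 57347) (nat_lit 0) .nil)))))))) (.g (nat_lit 5) .nil .nil)))) (.nd (nat_lit 5) 
(.lf (nat_lit 89424) (.g (nat_lit 3580) (.e (nat_lit 2031) (nat_lit 140) (.e (nat_lit 688177) (nat_lit 16) (.e (nat_lit 65583) (nat_lit 7) (.e (nat_lit 319530) (nat_lit 16) (.e (nat_lit 286748) (nat_lit 9) (.e (nat_lit 335889) (nat_lit 0) (.e (nat_lit 970) (nat_lit 81) (.e (nat_lit 5954) (nat_lit 322) (.e (nat_lit 57345) (nat_lit 0) .nil))))))))) (.g (nat_lit 6) .nil .nil))) 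
(.lf (nat_lit 89456) (.g (nat_lit 2557) (.e (nat_lit 2031) (nat_lit 140) (.e (nat_lit 688177) (nat_lit 16) (.e (nat_lit 65583) (nat_lit 7) (.e (nat_lit 319530) (nat_lit 16) (.e (nat_lit 286748) (nat_lit 9) (.e (nat_lit 336034) (nat_lit 4) (.e (nat_lit 123194) (nat_lit 266) (.e (nat_lit 57348) (nat_lit 0) .nil)))))))) (.g (nat_lit 4) .nil .nil))))) (.nd (nat_lit 4) (.nd (nat_lit 5) 
(.lf (nat_lit 89416) (.g (nat_lit 2065) (.e (nat_lit 2031) (nat_lit 140) (.e (nat_lit 688177) (nat_lit 16) (.e (nat_lit 65583) (nat_lit 7) (.e (nat_lit 319530) (nat_lit 16) (.e (nat_lit 286747) (nat_lit 9) .nil))))) .nil)) 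
(.lf (nat_lit 89448) (.g (nat_lit 4122) (.e (nat_lit 2031) (nat_lit 140) (.e (nat_lit 688177) (nat_lit 16) (.e (nat_lit 65583) (nat_lit 7) (.e (nat_lit 319530) (nat_lit 16) (.e (nat_lit 286748) (nat_lit 9) (.e (nat_lit 336031) (nat_lit 4) (.e (nat_lit 123195) (nat_lit 266) (.e (nat_lit 57347) (nat_lit 0) .nil)))))))) (.g (nat_lit 7) .nil .nil)))) (.nd (nat_lit 5) 
(.lf (nat_lit 89432) (.g (nat_lit 3002) (.e (nat_lit 2031) (nat_lit 140) (.e (nat_lit 688177) (nat_lit 16) (.e (nat_lit 65583) (nat_lit 7) (.e (nat_lit 319530) (nat_lit 16) (.e (nat_lit 286748) (nat_lit 9) (.e (nat_lit 335905) (nat_lit 0) (.e (nat_lit 970) (nat_lit 81) (.e (nat_lit 5954) (nat_lit 322) (.e (nat_lit 57349) (nat_lit 0) .nil))))))))) (.g (nat_lit 5) .nil .nil))) 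
(.lf (nat_lit 89464) (.g (nat_lit 2662) (.e (nat_lit 2031) (nat_lit 140) (.e (nat_lit 688177) (nat_lit 16) (.e (nat_lit 65583) (nat_lit 7) (.e (nat_lit 319530) (nat_lit 16) (.e (nat_lit 286748) (nat_lit 9) (.e (nat_lit 336295) (nat_lit 15) (.e (nat_lit 3630) (nat_lit 227) (.e (nat_lit 778297) (nat_lit 0) (.e (nat_lit 993) (nat_lit 81) .nil))))))))) (.g (nat_lit 4) .nil .nil)))))) 
(.nd (nat_lit 3) (.nd (nat_lit 4) (.nd (nat_lit 5) 
(.lf (nat_lit 89412) (.g (nat_lit 2416) (.e (nat_lit 2031) (nat_lit 140) (.e (nat_lit 688177) (nat_lit 16) (.e (nat_lit 65583) (nat_lit 7) (.e (nat_lit 319530) (nat_lit 16) (.e (nat_lit 286742) (nat_lit 9) (.e (nat_lit 336032) (nat_lit 4) (.e (nat_lit 123197) (nat_lit 266) (.e (nat_lit 57345) (nat_lit 0) .nil)))))))) (.g (nat_lit 4) .nil .nil))) 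
(.lf (nat_lit 89444) (.g (nat_lit 1731) (.e (nat_lit 2031) (nat_lit 140) (.e (nat_lit 688177) (nat_lit 16) (.e (nat_lit 65583) (nat_lit 7) (.e (nat_lit 319530) (nat_lit 16) (.e (nat_lit 286748) (nat_lit 9) (.e (nat_lit 336030) (nat_lit 4) (.e (nat_lit 123198) (nat_lit 266) (.e (nat_lit 57345) (nat_lit 0) .nil)))))))) (.g (nat_lit 4) .nil .nil)))) (.nd (nat_lit 5) 
(.lf (nat_lit 89428) (.g (nat_lit 2426) (.e (nat_lit 2031) (nat_lit 140) (.e (nat_lit 688177) (nat_lit 16) (.e (nat_lit 65583) (nat_lit 7) (.e (nat_lit 319530) (nat_lit 16) (.e (nat_lit 286748) (nat_lit 9) (.e (nat_lit 335891) (nat_lit 0) (.e (nat_lit 1105) (nat_lit 81) (.e (nat_lit 5936) (nat_lit 322) (.e (nat_lit 57348) (nat_lit 0) .nil))))))))) (.g (nat_lit 4) .nil .nil))) 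
(.lf (nat_lit 89460) (.g (nat_lit 3445) (.e (nat_lit 2031) (nat_lit 140) (.e (nat_lit 688177) (nat_lit 16) (.e (nat_lit 65583) (nat_lit 7) (.e (nat_lit 319530) (nat_lit 16) (.e (nat_lit 286748) (nat_lit 9) (.e (nat_lit 336295) (nat_lit 15) (.e (nat_lit 3617) (nat_lit 227) (.e (nat_lit 786176) (nat_lit 0) (.e (nat_lit 999) (nat_lit 81) .nil))))))))) (.g (nat_lit 6) .nil .nil))))) 
(.nd (nat_lit 4) (.nd (nat_lit 5) 
(.lf (nat_lit 89420) (.g (nat_lit 2665) (.e (nat_lit 2031) (nat_lit 140) (.e (nat_lit 688177) (nat_lit 16) (.e (nat_lit 65583) (nat_lit 7) (.e (nat_lit 319530) (nat_lit 16) (.e (nat_lit 286747) (nat_lit 9) (.e (nat_lit 336032) (nat_lit 4) (.e (nat_lit 123197) (nat_lit 266) (.e (nat_lit 57347) (nat_lit 0) .nil)))))))) (.g (nat_lit 4) .nil .nil))) 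
(.lf (nat_lit 89452) (.g (nat_lit 2671) (.e (nat_lit 2031) (nat_lit 140) (.e (nat_lit 688177) (nat_lit 16) (.e (nat_lit 65583) (nat_lit 7) (.e (nat_lit 319530) (nat_lit 16) (.e (nat_lit 286748) (nat_lit 9) (.e (nat_lit 336032) (nat_lit 4) (.e (nat_lit 123195) (nat_lit 266) (.e (nat_lit 57345) (nat_lit 0) .nil)))))))) (.g (nat_lit 5) .nil .nil)))) (.nd (nat_lit 5) 
(.lf (nat_lit 89436) (.g (nat_lit 2853) (.e (nat_lit 2031) (nat_lit 140) (.e (nat_lit 688177) (nat_lit 16) (.e (nat_lit 65583) (nat_lit 7) (.e (nat_lit 319530) (nat_lit 16) (.e (nat_lit 286748) (nat_lit 9) (.e (nat_lit 335907) (nat_lit 0) (.e (nat_lit 1994) (nat_lit 137) (.e (nat_lit 663554) (nat_lit 0) (.e (nat_lit 982) (nat_lit 81) .nil))))))))) (.g (nat_lit 5) .nil .nil))) 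
(.lf (nat_lit 89468) (.g (nat_lit 2322) (.e (nat_lit 2031) (nat_lit 140) (.e (nat_lit 688177) (nat_lit 16) (.e (nat_lit 65583) (nat_lit 7) (.e (nat_lit 319530) (nat_lit 16) (.e (nat_lit 286748) (nat_lit 9) (.e (nat_lit 336295) (nat_lit 15) (.e (nat_lit 3632) (nat_lit 227) (.e (nat_lit 778246) (nat_lit 0) (.e (nat_lit 998) (nat_lit 81) .nil))))))))) (.g (nat_lit 4) .nil .nil))))))) 
(.nd (nat_lit 2) (.nd (nat_lit 3) (.nd (nat_lit 4) (.nd (nat_lit 5) 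
(.lf (nat_lit 89410) (.g (nat_lit 2472) (.e (nat_lit 2031) (nat_lit 140) (.e (nat_lit 688177) (nat_lit 16) (.e (nat_lit 65583) (nat_lit 7) (.e (nat_lit 319530) (nat_lit 16) (.e (nat_lit 286742) (nat_lit 9) (.e (nat_lit 336032) (nat_lit 4) (.e (nat_lit 123194) (nat_lit 266) (.e (nat_lit 57347) (nat_lit 0) .nil)))))))) (.g (nat_lit 5) .nil .nil))) 
(.lf (nat_lit 89442) (.g (nat_lit 2615) (.e (nat_lit 2031) (nat_lit 140) (.e (nat_lit 688177) (nat_lit 16) (.e (nat_lit 65583) (nat_lit 7) (.e (nat_lit 319530) (nat_lit 16) (.e (nat_lit 286748) (nat_lit 9) (.e (nat_lit 336030) (nat_lit 4) (.e (nat_lit 123196) (nat_lit 266) (.e (nat_lit 57347) (nat_lit 0) .nil)))))))) (.g (nat_lit 5) .nil .nil)))) (.nd (nat_lit 5) 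
(.lf (nat_lit 89426) (.g (nat_lit 3070) (.e (nat_lit 2031) (nat_lit 140) (.e (nat_lit 688177) (nat_lit 16) (.e (nat_lit 65583) (nat_lit 7) (.e (nat_lit 319530) (nat_lit 16) (.e (nat_lit 286748) (nat_lit 9) (.e (nat_lit 335891) (nat_lit 0) (.e (nat_lit 970) (nat_lit 81) (.e (nat_lit 5954) (nat_lit 322) (.e (nat_lit 57349) (nat_lit 0) .nil))))))))) (.g (nat_lit 5) .nil .nil))) 
(.lf (nat_lit 89458) (.g (nat_lit 2859) (.e (nat_lit 2031) (nat_lit 140) (.e (nat_lit 688177) (nat_lit 16) (.e (nat_lit 65583) (nat_lit 7) (.e (nat_lit 319530) (nat_lit 16) (.e (nat_lit 286748) (nat_lit 9) (.e (nat_lit 336034) (nat_lit 4) (.e (nat_lit 123197) (nat_lit 266) (.e (nat_lit 57345) (nat_lit 0) .nil)))))))) (.g (nat_lit 5) .nil .nil))))) (.nd (nat_lit 4) (.nd (nat_lit 5) 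
(.lf (nat_lit 89418) (.g (nat_lit 2099) (.e (nat_lit 2031) (nat_lit 140) (.e (nat_lit 688177) (nat_lit 16) (.e (nat_lit 65583) (nat_lit 7) (.e (nat_lit 319530) (nat_lit 16) (.e (nat_lit 286747) (nat_lit 9) (.e (nat_lit 336032) (nat_lit 4) (.e (nat_lit 123195) (nat_lit 266) (.e (nat_lit 57347) (nat_lit 0) .nil)))))))) (.g (nat_lit 4) .nil .nil))) 
(.lf (nat_lit 89450) (.g (nat_lit 2776) (.e (nat_lit 2031) (nat_lit 140) (.e (nat_lit 688177) (nat_lit 16) (.e (nat_lit 65583) (nat_lit 7) (.e (nat_lit 319530) (nat_lit 16) (.e (nat_lit 286748) (nat_lit 9) (.e (nat_lit 336031) (nat_lit 4) (.e (nat_lit 123198) (nat_lit 266) (.e (nat_lit 57347) (nat_lit 0) .nil)))))))) (.g (nat_lit 5) .nil .nil)))) (.nd (nat_lit 5) 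
(.lf (nat_lit 89434) (.g (nat_lit 3712) (.e (nat_lit 2031) (nat_lit 140) (.e (nat_lit 688177) (nat_lit 16) (.e (nat_lit 65583) (nat_lit 7) (.e (nat_lit 319530) (nat_lit 16) (.e (nat_lit 286748) (nat_lit 9) (.e (nat_lit 335907) (nat_lit 0) (.e (nat_lit 970) (nat_lit 81) (.e (nat_lit 5954) (nat_lit 322) (.e (nat_lit 57345) (nat_lit 0) .nil))))))))) (.g (nat_lit 6) .nil .nil))) 
(.lf (nat_lit 89466) (.g (nat_lit 2192) (.e (nat_lit 2031) (nat_lit 140) (.e (nat_lit 688177) (nat_lit 16) (.e (nat_lit 65583) (nat_lit 7) (.e (nat_lit 319530) (nat_lit 16) (.e (nat_lit 286748) (nat_lit 9) (.e (nat_lit 336295) (nat_lit 15) (.e (nat_lit 3632) (nat_lit 227) (.e (nat_lit 778241) (nat_lit 0) (.e (nat_lit 996) (nat_lit 81) .nil))))))))) (.g (nat_lit 4) .nil .nil)))))) 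
(.nd (nat_lit 3) (.nd (nat_lit 4) (.nd (nat_lit 5) 
(.lf (nat_lit 89414) (.g (nat_lit 2776) (.e (nat_lit 2031) (nat_lit 140) (.e (nat_lit 688177) (nat_lit 16) (.e (nat_lit 65583) (nat_lit 7) (.e (nat_lit 319530) (nat_lit 16) (.e (nat_lit 286745) (nat_lit 9) (.e (nat_lit 335907) (nat_lit 0) (.e (nat_lit 1994) (nat_lit 137) (.e (nat_lit 663554) (nat_lit 0) (.e (nat_lit 982) (nat_lit 81) .nil))))))))) (.g (nat_lit 4) .nil .nil))) 
(.lf (nat_lit 89446) (.g (nat_lit 2501) (.e (nat_lit 2031) (nat_lit 140) (.e (nat_lit 688177) (nat_lit 16) (.e (nat_lit 65583) (nat_lit 7) (.e (nat_lit 319530) (nat_lit 16) (.e (nat_lit 286748) (nat_lit 9) (.e (nat_lit 336031) (nat_lit 4) (.e (nat_lit 123194) (nat_lit 266) (.e (nat_lit 57348) (nat_lit 0) .nil)))))))) (.g (nat_lit 4) .nil .nil)))) (.nd (nat_lit 5) 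
(.lf (nat_lit 89430) (.g (nat_lit 2449) (.e (nat_lit 2031) (nat_lit 140) (.e (nat_lit 688177) (nat_lit 16) (.e (nat_lit 65583) (nat_lit 7) (.e (nat_lit 319530) (nat_lit 16) (.e (nat_lit 286748) (nat_lit 9) (.e (nat_lit 335891) (nat_lit 0) (.e (nat_lit 1105) (nat_lit 81) (.e (nat_lit 5938) (nat_lit 322) (.e (nat_lit 57348) (nat_lit 0) .nil))))))))) (.g (nat_lit 4) .nil .nil))) 
(.lf (nat_lit 89462) (.g (nat_lit 2239) (.e (nat_lit 2031) (nat_lit 140) (.e (nat_lit 688177) (nat_lit 16) (.e (nat_lit 65583) (nat_lit 7) (.e (nat_lit 319530) (nat_lit 16) (.e (nat_lit 286748) (nat_lit 9) (.e (nat_lit 336295) (nat_lit 15) (.e (nat_lit 3630) (nat_lit 227) (.e (nat_lit 778295) (nat_lit 0) (.e (nat_lit 993) (nat_lit 81) .nil))))))))) (.g (nat_lit 4) .nil .nil))))) 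
(.nd (nat_lit 4) (.nd (nat_lit 5) 
(.lf (nat_lit 89422) (.g (nat_lit 2212) (.e (nat_lit 2031) (nat_lit 140) (.e (nat_lit 688177) (nat_lit 16) (.e (nat_lit 65583) (nat_lit 7) (.e (nat_lit 319530) (nat_lit 16) (.e (nat_lit 286748) (nat_lit 9) (.e (nat_lit 335886) (nat_lit 0) (.e (nat_lit 970) (nat_lit 81) (.e (nat_lit 5954) (nat_lit 322) (.e (nat_lit 57345) (nat_lit 0) .nil))))))))) (.g (nat_lit 4) .nil .nil))) 
(.lf (nat_lit 89454) (.g (nat_lit 3128) (.e (nat_lit 2031) (nat_lit 140) (.e (nat_lit 688177) (nat_lit 16) (.e (nat_lit 65583) (nat_lit 7) (.e (nat_lit 319530) (nat_lit 16) (.e (nat_lit 286748) (nat_lit 9) (.e (nat_lit 336032) (nat_lit 4) (.e (nat_lit 123197) (nat_lit 266) (.e (nat_lit 57345) (nat_lit 0) .nil)))))))) (.g (nat_lit 7) .nil .nil)))) (.nd (nat_lit 5) 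
(.lf (nat_lit 89438) (.g (nat_lit 2980) (.e (nat_lit 2031) (nat_lit 140) (.e (nat_lit 688177) (nat_lit 16) (.e (nat_lit 65583) (nat_lit 7) (.e (nat_lit 319530) (nat_lit 16) (.e (nat_lit 286748) (nat_lit 9) (.e (nat_lit 335908) (nat_lit 0) (.e (nat_lit 970) (nat_lit 81) (.e (nat_lit 5954) (nat_lit 322) (.e (nat_lit 57345) (nat_lit 0) .nil))))))))) (.g (nat_lit 5) .nil .nil))) 
(.lf (nat_lit 89470) (.g (nat_lit 2432) (.e (nat_lit 2031) (nat_lit 140) (.e (nat_lit 688177) (nat_lit 16) (.e (nat_lit 65583) (nat_lit 7) (.e (nat_lit 319530) (nat_lit 16) (.e (nat_lit 286748) (nat_lit 9) (.e (nat_lit 336295) (nat_lit 15) (.e (nat_lit 3632) (nat_lit 227) (.e (nat_lit 778248) (nat_lit 0) (.e (nat_lit 982) (nat_lit 81) .nil))))))))) (.g (nat_lit 4) .nil .nil)))))))) 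
(.nd (nat_lit 1) (.nd (nat_lit 2) (.nd (nat_lit 3) (.nd (nat_lit 4) (.nd (nat_lit 5) 
(.lf (nat_lit 89409) (.g (nat_lit 2328) (.e (nat_lit 2031) (nat_lit 140) (.e (nat_lit 688177) (nat_lit 16) (.e (nat_lit 65583) (nat_lit 7) (.e (nat_lit 319530) (nat_lit 16) (.e (nat_lit 286740) (nat_lit 7) (.e (nat_lit 319539) (nat_lit 19) (.e (nat_lit 319232) (nat_lit 15) .nil))))))) (.g (nat_lit 4) .nil .nil))) 
(.lf (nat_lit 89441) (.g (nat_lit 2811) (.e (nat_lit 2031) (nat_lit 140) (.e (nat_lit 688177) (nat_lit 16) (.e (nat_lit 65583) (nat_lit 7) (.e (nat_lit 319530) (nat_lit 16) (.e (nat_lit 286748) (nat_lit 9) (.e (nat_lit 336030) (nat_lit 4) (.e (nat_lit 123195) (nat_lit 266) (.e (nat_lit 57345) (nat_lit 0) .nil)))))))) (.g (nat_lit 5) .nil .nil)))) (.nd (nat_lit 5) 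
(.lf (nat_lit 89425) (.g (nat_lit 2829) (.e (nat_lit 2031) (nat_lit 140) (.e (nat_lit 688177) (nat_lit 16) (.e (nat_lit 65583) (nat_lit 7) (.e (nat_lit 319530) (nat_lit 16) (.e (nat_lit 286748) (nat_lit 9) (.e (nat_lit 335889) (nat_lit 0) (.e (nat_lit 970) (nat_lit 81) (.e (nat_lit 5954) (nat_lit 322) (.e (nat_lit 57349) (nat_lit 0) .nil))))))))) (.g (nat_lit 4) .nil .nil))) 
(.lf (nat_lit 89457) (.g (nat_lit 3361) (.e (nat_lit 2031) (nat_lit 140) (.e (nat_lit 688177) (nat_lit 16) (.e (nat_lit 65583) (nat_lit 7) (.e (nat_lit 319530) (nat_lit 16) (.e (nat_lit 286748) (nat_lit 9) (.e (nat_lit 336034) (nat_lit 4) (.e (nat_lit 123195) (nat_lit 266) (.e (nat_lit 57345) (nat_lit 0) .nil)))))))) (.g (nat_lit 7) .nil .nil))))) (.nd (nat_lit 4) (.nd (nat_lit 5) 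
(.lf (nat_lit 89417) (.g (nat_lit 2267) (.e (nat_lit 2031) (nat_lit 140) (.e (nat_lit 688177) (nat_lit 16) (.e (nat_lit 65583) (nat_lit 7) (.e (nat_lit 319530) (nat_lit 16) (.e (nat_lit 286747) (nat_lit 9) (.e (nat_lit 335907) (nat_lit 0) (.e (nat_lit 1996) (nat_lit 137) (.e (nat_lit 663554) (nat_lit 0) (.e (nat_lit 982) (nat_lit 81) .nil))))))))) (.g (nat_lit 4) .nil .nil))) 
(.lf (nat_lit 89449) (.g (nat_lit 3017) (.e (nat_lit 2031) (nat_lit 140) (.e (nat_lit 688177) (nat_lit 16) (.e (nat_lit 65583) (nat_lit 7) (.e (nat_lit 319530) (nat_lit 16) (.e (nat_lit 286748) (nat_lit 9) (.e (nat_lit 336031) (nat_lit 4) (.e (nat_lit 123197) (nat_lit 266) (.e (nat_lit 57345) (nat_lit 0) .nil)))))))) (.g (nat_lit 5) .nil .nil)))) (.nd (nat_lit 5) 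
(.lf (nat_lit 89433) (.g (nat_lit 1975) (.e (nat_lit 2031) (nat_lit 140) (.e (nat_lit 688177) (nat_lit 16) (.e (nat_lit 65583) (nat_lit 7) (.e (nat_lit 319530) (nat_lit 16) (.e (nat_lit 286748) (nat_lit 9) (.e (nat_lit 335905) (nat_lit 0) (.e (nat_lit 1998) (nat_lit 137) (.e (nat_lit 663554) (nat_lit 0) (.e (nat_lit 982) (nat_lit 81) .nil))))))))) (.g (nat_lit 4) .nil .nil))) 
(.lf (nat_lit 89465) (.g (nat_lit 2396) (.e (nat_lit 2031) (nat_lit 140) (.e (nat_lit 688177) (nat_lit 16) (.e (nat_lit 65583) (nat_lit 7) (.e (nat_lit 319530) (nat_lit 16) (.e (nat_lit 286748) (nat_lit 9) (.e (nat_lit 336295) (nat_lit 15) (.e (nat_lit 3632) (nat_lit 227) (.e (nat_lit 778241) (nat_lit 0) (.e (nat_lit 982) (nat_lit 81) .nil))))))))) (.g (nat_lit 4) .nil .nil)))))) 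
(.nd (nat_lit 3) (.nd (nat_lit 4) (.nd (nat_lit 5) 
(.lf (nat_lit 89413) (.g (nat_lit 2737) (.e (nat_lit 2031) (nat_lit 140) (.e (nat_lit 688177) (nat_lit 16) (.e (nat_lit 65583) (nat_lit 7) (.e (nat_lit 319530) (nat_lit 16) (.e (nat_lit 286745) (nat_lit 9) (.e (nat_lit 335907) (nat_lit 0) (.e (nat_lit 970) (nat_lit 81) (.e (nat_lit 5954) (nat_lit 322) (.e (nat_lit 57345) (nat_lit 0) .nil))))))))) (.g (nat_lit 4) .nil .nil))) 
(.lf (nat_lit 89445) (.g (nat_lit 2817) (.e (nat_lit 2031) (nat_lit 140) (.e (nat_lit 688177) (nat_lit 16) (.e (nat_lit 65583) (nat_lit 7) (.e (nat_lit 319530) (nat_lit 16) (.e (nat_lit 286748) (nat_lit 9) (.e (nat_lit 336030) (nat_lit 4) (.e (nat_lit 123198) (nat_lit 266) (.e (nat_lit 57347) (nat_lit 0) .nil)))))))) (.g (nat_lit 5) .nil .nil)))) (.nd (nat_lit 5) 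
(.lf (nat_lit 89429) (.g (nat_lit 2160) (.e (nat_lit 2031) (nat_lit 140) (.e (nat_lit 688177) (nat_lit 16) (.e (nat_lit 65583) (nat_lit 7) (.e (nat_lit 319530) (nat_lit 16) (.e (nat_lit 286748) (nat_lit 9) (.e (nat_lit 335891) (nat_lit 0) (.e (nat_lit 1105) (nat_lit 81) (.e (nat_lit 5937) (nat_lit 322) (.e (nat_lit 57345) (nat_lit 0) .nil))))))))) (.g (nat_lit 4) .nil .nil))) 
(.lf (nat_lit 89461) (.g (nat_lit 2267) (.e (nat_lit 2031) (nat_lit 140) (.e (nat_lit 688177) (nat_lit 16) (.e (nat_lit 65583) (nat_lit 7) (.e (nat_lit 319530) (nat_lit 16) (.e (nat_lit 286748) (nat_lit 9) (.e (nat_lit 336295) (nat_lit 15) (.e (nat_lit 3629) (nat_lit 227) (.e (nat_lit 778297) (nat_lit 0) (.e (nat_lit 993) (nat_lit 81) .nil))))))))) (.g (nat_lit 4) .nil .nil))))) 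
(.nd (nat_lit 4) (.nd (nat_lit 5) 
(.lf (nat_lit 89421) (.g (nat_lit 1727) (.e (nat_lit 2031) (nat_lit 140) (.e (nat_lit 688177) (nat_lit 16) (.e (nat_lit 65583) (nat_lit 7) (.e (nat_lit 319530) (nat_lit 16) (.e (nat_lit 286748) (nat_lit 9) .nil))))) .nil)) 
(.lf (nat_lit 89453) (.g (nat_lit 1964) (.e (nat_lit 2031) (nat_lit 140) (.e (nat_lit 688177) (nat_lit 16) (.e (nat_lit 65583) (nat_lit 7) (.e (nat_lit 319530) (nat_lit 16) (.e (nat_lit 286748) (nat_lit 9) (.e (nat_lit 336032) (nat_lit 4) (.e (nat_lit 123196) (nat_lit 266) (.e (nat_lit 57345) (nat_lit 0) .nil)))))))) (.g (nat_lit 4) .nil .nil)))) (.nd (nat_lit 5) 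
(.lf (nat_lit 89437) (.g (nat_lit 3631) (.e (nat_lit 2031) (nat_lit 140) (.e (nat_lit 688177) (nat_lit 16) (.e (nat_lit 65583) (nat_lit 7) (.e (nat_lit 319530) (nat_lit 16) (.e (nat_lit 286748) (nat_lit 9) (.e (nat_lit 335907) (nat_lit 0) (.e (nat_lit 1996) (nat_lit 137) (.e (nat_lit 663554) (nat_lit 0) (.e (nat_lit 982) (nat_lit 81) .nil))))))))) (.g (nat_lit 6) .nil .nil))) 
(.lf (nat_lit 89469) (.g (nat_lit 2741) (.e (nat_lit 2031) (nat_lit 140) (.e (nat_lit 688177) (nat_lit 16) (.e (nat_lit 65583) (nat_lit 7) (.e (nat_lit 319530) (nat_lit 16) (.e (nat_lit 286748) (nat_lit 9) (.e (nat_lit 336295) (nat_lit 15) (.e (nat_lit 3632) (nat_lit 227) (.e (nat_lit 778246) (nat_lit 0) (.e (nat_lit 1000) (nat_lit 81) .nil))))))))) (.g (nat_lit 4) .nil .nil))))))) 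
(.nd (nat_lit 2) (.nd (nat_lit 3) (.nd (nat_lit 4) (.nd (nat_lit 5) 
(.lf (nat_lit 89411) (.g (nat_lit 1878) (.e (nat_lit 2031) (nat_lit 140) (.e (nat_lit 688177) (nat_lit 16) (.e (nat_lit 65583) (nat_lit 7) (.e (nat_lit 319530) (nat_lit 16) (.e (nat_lit 286742) (nat_lit 9) (.e (nat_lit 336032) (nat_lit 4) (.e (nat_lit 123195) (nat_lit 266) (.e (nat_lit 57345) (nat_lit 0) .nil)))))))) (.g (nat_lit 4) .nil .nil))) 
(.lf (nat_lit 89443) (.g (nat_lit 2821) (.e (nat_lit 2031) (nat_lit 140) (.e (nat_lit 688177) (nat_lit 16) (.e (nat_lit 65583) (nat_lit 7) (.e (nat_lit 319530) (nat_lit 16) (.e (nat_lit 286748) (nat_lit 9) (.e (nat_lit 336030) (nat_lit 4) (.e (nat_lit 123197) (nat_lit 266) (.e (nat_lit 57345) (nat_lit 0) .nil)))))))) (.g (nat_lit 5) .nil .nil)))) (.nd (nat_lit 5) 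
(.lf (nat_lit 89427) (.g (nat_lit 2607) (.e (nat_lit 2031) (nat_lit 140) (.e (nat_lit 688177) (nat_lit 16) (.e (nat_lit 65583) (nat_lit 7) (.e (nat_lit 319530) (nat_lit 16) (.e (nat_lit 286748) (nat_lit 9) (.e (nat_lit 335891) (nat_lit 0) (.e (nat_lit 1105) (nat_lit 81) (.e (nat_lit 5935) (nat_lit 322) (.e (nat_lit 57348) (nat_lit 0) .nil))))))))) (.g (nat_lit 4) .nil .nil))) 
(.lf (nat_lit 89459) (.g (nat_lit 2543) (.e (nat_lit 2031) (nat_lit 140) (.e (nat_lit 688177) (nat_lit 16) (.e (nat_lit 65583) (nat_lit 7) (.e (nat_lit 319530) (nat_lit 16) (.e (nat_lit 286748) (nat_lit 9) (.e (nat_lit 336034) (nat_lit 4) (.e (nat_lit 123198) (nat_lit 266) (.e (nat_lit 57347) (nat_lit 0) .nil)))))))) (.g (nat_lit 5) .nil .nil))))) (.nd (nat_lit 4) (.nd (nat_lit 5) 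
(.lf (nat_lit 89419) (.g (nat_lit 2501) (.e (nat_lit 2031) (nat_lit 140) (.e (nat_lit 688177) (nat_lit 16) (.e (nat_lit 65583) (nat_lit 7) (.e (nat_lit 319530) (nat_lit 16) (.e (nat_lit 286747) (nat_lit 9) (.e (nat_lit 336032) (nat_lit 4) (.e (nat_lit 123196) (nat_lit 266) (.e (nat_lit 57347) (nat_lit 0) .nil)))))))) (.g (nat_lit 4) .nil .nil))) 
(.lf (nat_lit 89451) (.g (nat_lit 2260) (.e (nat_lit 2031) (nat_lit 140) (.e (nat_lit 688177) (nat_lit 16) (.e (nat_lit 65583) (nat_lit 7) (.e (nat_lit 319530) (nat_lit 16) (.e (nat_lit 286748) (nat_lit 9) (.e (nat_lit 336032) (nat_lit 4) (.e (nat_lit 123194) (nat_lit 266) (.e (nat_lit 57348) (nat_lit 0) .nil)))))))) (.g (nat_lit 4) .nil .nil)))) (.nd (nat_lit 5) 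
(.lf (nat_lit 89435) (.g (nat_lit 2961) (.e (nat_lit 2031) (nat_lit 140) (.e (nat_lit 688177) (nat_lit 16) (.e (nat_lit 65583) (nat_lit 7) (.e (nat_lit 319530) (nat_lit 16) (.e (nat_lit 286748) (nat_lit 9) (.e (nat_lit 335907) (nat_lit 0) (.e (nat_lit 970) (nat_lit 81) (.e (nat_lit 5954) (nat_lit 322) (.e (nat_lit 57349) (nat_lit 0) .nil))))))))) (.g (nat_lit 5) .nil .nil))) 
(.lf (nat_lit 89467) (.g (nat_lit 2547) (.e (nat_lit 2031) (nat_lit 140) (.e (nat_lit 688177) (nat_lit 16) (.e (nat_lit 65583) (nat_lit 7) (.e (nat_lit 319530) (nat_lit 16) (.e (nat_lit 286748) (nat_lit 9) (.e (nat_lit 336295) (nat_lit 15) (.e (nat_lit 3632) (nat_lit 227) (.e (nat_lit 778246) (nat_lit 0) (.e (nat_lit 996) (nat_lit 81) .nil))))))))) (.g (nat_lit 4) .nil .nil)))))) 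
(.nd (nat_lit 3) (.nd (nat_lit 4) (.nd (nat_lit 5) 
(.lf (nat_lit 89415) (.g (nat_lit 3538) (.e (nat_lit 2031) (nat_lit 140) (.e (nat_lit 688177) (nat_lit 16) (.e (nat_lit 65583) (nat_lit 7) (.e (nat_lit 319530) (nat_lit 16) (.e (nat_lit 286745) (nat_lit 9) (.e (nat_lit 335907) (nat_lit 0) (.e (nat_lit 1996) (nat_lit 137) (.e (nat_lit 663554) (nat_lit 0) (.e (nat_lit 982) (nat_lit 81) .nil))))))))) (.g (nat_lit 6) .nil .nil))) 
(.lf (nat_lit 89447) (.g (nat_lit 3309) (.e (nat_lit 2031) (nat_lit 140) (.e (nat_lit 688177) (nat_lit 16) (.e (nat_lit 65583) (nat_lit 7) (.e (nat_lit 319530) (nat_lit 16) (.e (nat_lit 286748) (nat_lit 9) (.e (nat_lit 336031) (nat_lit 4) (.e (nat_lit 123195) (nat_lit 266) (.e (nat_lit 57345) (nat_lit 0) .nil)))))))) (.g (nat_lit 6) .nil .nil)))) (.nd (nat_lit 5) 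
(.lf (nat_lit 89431) (.g (nat_lit 1985) (.e (nat_lit 2031) (nat_lit 140) (.e (nat_lit 688177) (nat_lit 16) (.e (nat_lit 65583) (nat_lit 7) (.e (nat_lit 319530) (nat_lit 16) (.e (nat_lit 286748) (nat_lit 9) (.e (nat_lit 335891) (nat_lit 0) (.e (nat_lit 1105) (nat_lit 81) (.e (nat_lit 5953) (nat_lit 322) (.e (nat_lit 57345) (nat_lit 0) .nil))))))))) (.g (nat_lit 4) .nil .nil))) 
(.lf (nat_lit 89463) (.g (nat_lit 2255) (.e (nat_lit 2031) (nat_lit 140) (.e (nat_lit 688177) (nat_lit 16) (.e (nat_lit 65583) (nat_lit 7) (.e (nat_lit 319530) (nat_lit 16) (.e (nat_lit 286748) (nat_lit 9) (.e (nat_lit 336295) (nat_lit 15) (.e (nat_lit 3630) (nat_lit 227) (.e (nat_lit 778297) (nat_lit 0) (.e (nat_lit 988) (nat_lit 81) .nil))))))))) (.g (nat_lit 4) .nil .nil))))) 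
(.nd (nat_lit 4) (.nd (nat_lit 5) 
(.lf (nat_lit 89423) (.g (nat_lit 2146) (.e (nat_lit 2031) (nat_lit 140) (.e (nat_lit 688177) (nat_lit 16) (.e (nat_lit 65583) (nat_lit 7) (.e (nat_lit 319530) (nat_lit 16) (.e (nat_lit 286748) (nat_lit 9) (.e (nat_lit 335887) (nat_lit 0) (.e (nat_lit 970) (nat_lit 81) (.e (nat_lit 5954) (nat_lit 322) (.e (nat_lit 57345) (nat_lit 0) .nil))))))))) (.g (nat_lit 4) .nil .nil))) 
(.lf (nat_lit 89455) (.g (nat_lit 2117) (.e (nat_lit 2031) (nat_lit 140) (.e (nat_lit 688177) (nat_lit 16) (.e (nat_lit 65583) (nat_lit 7) (.e (nat_lit 319530) (nat_lit 16) (.e (nat_lit 286748) (nat_lit 9) (.e (nat_lit 336032) (nat_lit 4) (.e (nat_lit 123198) (nat_lit 266) (.e (nat_lit 57347) (nat_lit 0) .nil)))))))) (.g (nat_lit 4) .nil .nil)))) (.nd (nat_lit 5) 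
(.lf (nat_lit 89439) (.g (nat_lit 2229) (.e (nat_lit 2031) (nat_lit 140) (.e (nat_lit 688177) (nat_lit 16) (.e (nat_lit 65583) (nat_lit 7) (.e (nat_lit 319530) (nat_lit 16) (.e (nat_lit 286748) (nat_lit 9) (.e (nat_lit 335908) (nat_lit 0) (.e (nat_lit 970) (nat_lit 81) (.e (nat_lit 5954) (nat_lit 322) (.e (nat_lit 57349) (nat_lit 0) .nil))))))))) (.g (nat_lit 4) .nil .nil))) 
(.lf (nat_lit 89471) (.g (nat_lit 2786) (.e (nat_lit 2031) (nat_lit 140) (.e (nat_lit 688177) (nat_lit 16) (.e (nat_lit 65583) (nat_lit 7) (.e (nat_lit 319530) (nat_lit 16) (.e (nat_lit 286748) (nat_lit 9) (.e (nat_lit 336295) (nat_lit 15) (.e (nat_lit 3632) (nat_lit 227) (.e (nat_lit 778253) (nat_lit 0) (.e (nat_lit 982) (nat_lit 81) .nil))))))))) (.g (nat_lit 5) .nil .nil)))))))))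

noncomputable def tv1222 : DT := (.nd (nat_lit 0) (.nd (nat_lit 1) (.nd (nat_lit 2) (.nd (nat_lit 3) (.nd (nat_lit 4) (.nd (nat_lit 5) 
(.lf (nat_lit 89472) (.g (nat_lit 2713) (.e (nat_lit 2031) (nat_lit 140) (.e (nat_lit 688177) (nat_lit 16) (.e (nat_lit 65583) (nat_lit 7) (.e (nat_lit 319530) (nat_lit 16) (.e (nat_lit 286748) (nat_lit 9) (.e (nat_lit 336295) (nat_lit 15) (.e (nat_lit 3632) (nat_lit 227) (.e (nat_lit 778297) (nat_lit 0) (.e (nat_lit 988) (nat_lit 81) .nil))))))))) (.g (nat_lit 4) .nil .nil))) 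
(.lf (nat_lit 89504) (.g (nat_lit 3005) (.e (nat_lit 2031) (nat_lit 140) (.e (nat_lit 688177) (nat_lit 16) (.e (nat_lit 65583) (nat_lit 7) (.e (nat_lit 319530) (nat_lit 16) (.e (nat_lit 286759) (nat_lit 12) (.e (nat_lit 385092) (nat_lit 49) (.e (nat_lit 778297) (nat_lit 0) (.e (nat_lit 988) (nat_lit 81) .nil)))))))) (.g (nat_lit 5) .nil .nil)))) (.nd (nat_lit 5) 
(.lf (nat_lit 89488) (.g (nat_lit 1991) (.e (nat_lit 2031) (nat_lit 140) (.e (nat_lit 688177) (nat_lit 16) (.e (nat_lit 65583) (nat_lit 7) (.e (nat_lit 319530) (nat_lit 16) (.e (nat_lit 286755) (nat_lit 10) .nil))))) .nil)) 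
(.lf (nat_lit 89520) (.g (nat_lit 3639) (.e (nat_lit 2031) (nat_lit 140) (.e (nat_lit 688177) (nat_lit 16) (.e (nat_lit 65583) (nat_lit 7) (.e (nat_lit 319530) (nat_lit 16) (.e (nat_lit 286759) (nat_lit 12) (.e (nat_lit 385094) (nat_lit 49) (.e (nat_lit 778297) (nat_lit 0) (.e (nat_lit 988) (nat_lit 81) .nil)))))))) (.g (nat_lit 5) .nil .nil))))) (.nd (nat_lit 4) (.nd (nat_lit 5) 
(.lf (nat_lit 89480) (.g (nat_lit 2038) (.e (nat_lit 2031) (nat_lit 140) (.e (nat_lit 688177) (nat_lit 16) (.e (nat_lit 65583) (nat_lit 7) (.e (nat_lit 319530) (nat_lit 16) (.e (nat_lit 286751) (nat_lit 10) (.e (nat_lit 352000) (nat_lit 18) (.e (nat_lit 5937) (nat_lit 322) (.e (nat_lit 57347) (nat_lit 0) .nil)))))))) (.g (nat_lit 4) .nil .nil))) 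
(.lf (nat_lit 89512) (.g (nat_lit 3213) (.e (nat_lit 2031) (nat_lit 140) (.e (nat_lit 688177) (nat_lit 16) (.e (nat_lit 65583) (nat_lit 7) (.e (nat_lit 319530) (nat_lit 16) (.e (nat_lit 286759) (nat_lit 12) (.e (nat_lit 385094) (nat_lit 49) (.e (nat_lit 778241) (nat_lit 0) (.e (nat_lit 1000) (nat_lit 81) .nil)))))))) (.g (nat_lit 5) .nil .nil)))) (.nd (nat_lit 5) 
(.lf (nat_lit 89496) (.g (nat_lit 2487) (.e (nat_lit 2031) (nat_lit 140) (.e (nat_lit 688177) (nat_lit 16) (.e (nat_lit 65583) (nat_lit 7) (.e (nat_lit 319530) (nat_lit 16) (.e (nat_lit 286758) (nat_lit 12) (.e (nat_lit 385105) (nat_lit 50) (.e (nat_lit 786444) (nat_lit 15) .nil))))))) (.g (nat_lit 4) .nil .nil))) 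
(.lf (nat_lit 89528) (.g (nat_lit 4415) (.e (nat_lit 2031) (nat_lit 140) (.e (nat_lit 688177) (nat_lit 16) (.e (nat_lit 65583) (nat_lit 7) (.e (nat_lit 319530) (nat_lit 16) (.e (nat_lit 286762) (nat_lit 14) (.e (nat_lit 401436) (nat_lit 9) (.e (nat_lit 426354) (nat_lit 15) .nil))))))) (.g (nat_lit 0) .nil .nil)))))) (.nd (nat_lit 3) (.nd (nat_lit 4) (.nd (nat_lit 5) 
(.lf (nat_lit 89476) (.g (nat_lit 3555) (.e (nat_lit 2031) (nat_lit 140) (.e (nat_lit 688177) (nat_lit 16) (.e (nat_lit 65583) (nat_lit 7) (.e (nat_lit 319530) (nat_lit 16) (.e (nat_lit 286748) (nat_lit 9) (.e (nat_lit 336295) (nat_lit 15) (.e (nat_lit 3747) (nat_lit 228) (.e (nat_lit 786444) (nat_lit 15) .nil)))))))) (.g (nat_lit 6) .nil .nil))) 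
(.lf (nat_lit 89508) (.g (nat_lit 2791) (.e (nat_lit 2031) (nat_lit 140) (.e (nat_lit 688177) (nat_lit 16) (.e (nat_lit 65583) (nat_lit 7) (.e (nat_lit 319530) (nat_lit 16) (.e (nat_lit 286759) (nat_lit 12) (.e (nat_lit 385092) (nat_lit 49) (.e (nat_lit 786176) (nat_lit 0) (.e (nat_lit 999) (nat_lit 81) .nil)))))))) (.g (nat_lit 5) .nil .nil)))) (.nd (nat_lit 5) 
(.lf (nat_lit 89492) (.g (nat_lit 2921) (.e (nat_lit 2031) (nat_lit 140) (.e (nat_lit 688177) (nat_lit 16) (.e (nat_lit 65583) (nat_lit 7) (.e (nat_lit 319530) (nat_lit 16) (.e (nat_lit 286756) (nat_lit 10) (.e (nat_lit 344168) (nat_lit 40) (.e (nat_lit 671751) (nat_lit 0) (.e (nat_lit 982) (nat_lit 81) .nil)))))))) (.g (nat_lit 5) .nil .nil))) 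
(.lf (nat_lit 89524) (.g (nat_lit 3820) (.e (nat_lit 2031) (nat_lit 140) (.e (nat_lit 688177) (nat_lit 16) (.e (nat_lit 65583) (nat_lit 7) (.e (nat_lit 319530) (nat_lit 16) (.e (nat_lit 286759) (nat_lit 12) (.e (nat_lit 385105) (nat_lit 50) (.e (nat_lit 794368) (nat_lit 15) .nil))))))) (.g (nat_lit 6) .nil .nil))))) (.nd (nat_lit 4) (.nd (nat_lit 5) 
(.lf (nat_lit 89484) (.g (nat_lit 3169) (.e (nat_lit 2031) (nat_lit 140) (.e (nat_lit 688177) (nat_lit 16) (.e (nat_lit 65583) (nat_lit 7) (.e (nat_lit 319530) (nat_lit 16) (.e (nat_lit 286752) (nat_lit 10) (.e (nat_lit 344169) (nat_lit 40) (.e (nat_lit 671748) (nat_lit 0) (.e (nat_lit 982) (nat_lit 81) .nil)))))))) (.g (nat_lit 5) .nil .nil))) 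
(.lf (nat_lit 89516) (.g (nat_lit 4211) (.e (nat_lit 2031) (nat_lit 140) (.e (nat_lit 688177) (nat_lit 16) (.e (nat_lit 65583) (nat_lit 7) (.e (nat_lit 319530) (nat_lit 16) (.e (nat_lit 286759) (nat_lit 12) (.e (nat_lit 385094) (nat_lit 49) (.e (nat_lit 778246) (nat_lit 0) (.e (nat_lit 999) (nat_lit 81) .nil)))))))) (.g (nat_lit 8) .nil .nil)))) (.nd (nat_lit 5) 
(.lf (nat_lit 89500) (.g (nat_lit 3461) (.e (nat_lit 2031) (nat_lit 140) (.e (nat_lit 688177) (nat_lit 16) (.e (nat_lit 65583) (nat_lit 7) (.e (nat_lit 319530) (nat_lit 16) (.e (nat_lit 286759) (nat_lit 12) (.e (nat_lit 385092) (nat_lit 49) (.e (nat_lit 778295) (nat_lit 0) (.e (nat_lit 988) (nat_lit 81) .nil)))))))) (.g (nat_lit 5) .nil .nil))) 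
(.lf (nat_lit 89532) (.g (nat_lit 3354) (.e (nat_lit 2031) (nat_lit 140) (.e (nat_lit 688177) (nat_lit 16) (.e (nat_lit 65583) (nat_lit 7) (.e (nat_lit 319530) (nat_lit 16) (.e (nat_lit 286762) (nat_lit 14) (.e (nat_lit 401437) (nat_lit 9) (.e (nat_lit 426360) (nat_lit 15) .nil))))))) (.g (nat_lit 5) .nil .nil))))))) (.nd (nat_lit 2) (.nd (nat_lit 3) (.nd (nat_lit 4) (.nd (nat_lit 5) 
(.lf (nat_lit 89474) (.g (nat_lit 3260) (.e (nat_lit 2031) (nat_lit 140) (.e (nat_lit 688177) (nat_lit 16) (.e (nat_lit 65583) (nat_lit 7) (.e (nat_lit 319530) (nat_lit 16) (.e (nat_lit 286748) (nat_lit 9) (.e (nat_lit 336295) (nat_lit 15) (.e (nat_lit 3733) (nat_lit 228) (.e (nat_lit 786444) (nat_lit 15) .nil)))))))) (.g (nat_lit 6) .nil .nil))) 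
(.lf (nat_lit 89506) (.g (nat_lit 3423) (.e (nat_lit 2031) (nat_lit 140) (.e (nat_lit 688177) (nat_lit 16) (.e (nat_lit 65583) (nat_lit 7) (.e (nat_lit 319530) (nat_lit 16) (.e (nat_lit 286759) (nat_lit 12) (.e (nat_lit 385092) (nat_lit 49) (.e (nat_lit 778297) (nat_lit 0) (.e (nat_lit 993) (nat_lit 81) .nil)))))))) (.g (nat_lit 5) .nil .nil)))) (.nd (nat_lit 5) 
(.lf (nat_lit 89490) (.g (nat_lit 2487) (.e (nat_lit 2031) (nat_lit 140) (.e (nat_lit 688177) (nat_lit 16) (.e (nat_lit 65583) (nat_lit 7) (.e (nat_lit 319530) (nat_lit 16) (.e (nat_lit 286755) (nat_lit 10) (.e (nat_lit 352000) (nat_lit 18) (.e (nat_lit 5937) (nat_lit 322) (.e (nat_lit 57348) (nat_lit 0) .nil)))))))) (.g (nat_lit 4) .nil .nil))) 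
(.lf (nat_lit 89522) (.g (nat_lit 3881) (.e (nat_lit 2031) (nat_lit 140) (.e (nat_lit 688177) (nat_lit 16) (.e (nat_lit 65583) (nat_lit 7) (.e (nat_lit 319530) (nat_lit 16) (.e (nat_lit 286759) (nat_lit 12) (.e (nat_lit 385104) (nat_lit 50) (.e (nat_lit 786444) (nat_lit 15) .nil))))))) (.g (nat_lit 0) .nil .nil))))) (.nd (nat_lit 4) (.nd (nat_lit 5) 
(.lf (nat_lit 89482) (.g (nat_lit 2307) (.e (nat_lit 2031) (nat_lit 140) (.e (nat_lit 688177) (nat_lit 16) (.e (nat_lit 65583) (nat_lit 7) (.e (nat_lit 319530) (nat_lit 16) (.e (nat_lit 286752) (nat_lit 10) .nil))))) .nil)) 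
(.lf (nat_lit 89514) (.g (nat_lit 2908) (.e (nat_lit 2031) (nat_lit 140) (.e (nat_lit 688177) (nat_lit 16) (.e (nat_lit 65583) (nat_lit 7) (.e (nat_lit 319530) (nat_lit 16) (.e (nat_lit 286759) (nat_lit 12) (.e (nat_lit 385094) (nat_lit 49) (.e (nat_lit 778246) (nat_lit 0) (.e (nat_lit 996) (nat_lit 81) .nil)))))))) (.g (nat_lit 5) .nil .nil)))) (.nd (nat_lit 5) 
(.lf (nat_lit 89498) (.g (nat_lit 2228) (.e (nat_lit 2031) (nat_lit 140) (.e (nat_lit 688177) (nat_lit 16) (.e (nat_lit 65583) (nat_lit 7) (.e (nat_lit 319530) (nat_lit 16) (.e (nat_lit 286759) (nat_lit 12) (.e (nat_lit 385092) (nat_lit 49) (.e (nat_lit 778248) (nat_lit 0) (.e (nat_lit 982) (nat_lit 81) .nil)))))))) (.g (nat_lit 4) .nil .nil))) 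
(.lf (nat_lit 89530) (.g (nat_lit 2079) (.e (nat_lit 2031) (nat_lit 140) (.e (nat_lit 688177) (nat_lit 16) (.e (nat_lit 65583) (nat_lit 7) (.e (nat_lit 319530) (nat_lit 16) (.e (nat_lit 286762) (nat_lit 14) (.e (nat_lit 401436) (nat_lit 9) (.e (nat_lit 433920) (nat_lit 15) .nil))))))) (.g (nat_lit 4) .nil .nil)))))) (.nd (nat_lit 3) (.nd (nat_lit 4) (.nd (nat_lit 5) 
(.lf (nat_lit 89478) (.g (nat_lit 2430) (.e (nat_lit 2031) (nat_lit 140) (.e (nat_lit 688177) (nat_lit 16) (.e (nat_lit 65583) (nat_lit 7) (.e (nat_lit 319530) (nat_lit 16) (.e (nat_lit 286749) (nat_lit 9) (.e (nat_lit 336032) (nat_lit 4) (.e (nat_lit 123196) (nat_lit 266) (.e (nat_lit 57347) (nat_lit 0) .nil)))))))) (.g (nat_lit 4) .nil .nil))) 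
(.lf (nat_lit 89510) (.g (nat_lit 3242) (.e (nat_lit 2031) (nat_lit 140) (.e (nat_lit 688177) (nat_lit 16) (.e (nat_lit 65583) (nat_lit 7) (.e (nat_lit 319530) (nat_lit 16) (.e (nat_lit 286759) (nat_lit 12) (.e (nat_lit 385094) (nat_lit 49) (.e (nat_lit 778241) (nat_lit 0) (.e (nat_lit 996) (nat_lit 81) .nil)))))))) (.g (nat_lit 5) .nil .nil)))) (.nd (nat_lit 5) 
(.lf (nat_lit 89494) (.g (nat_lit 2846) (.e (nat_lit 2031) (nat_lit 140) (.e (nat_lit 688177) (nat_lit 16) (.e (nat_lit 65583) (nat_lit 7) (.e (nat_lit 319530) (nat_lit 16) (.e (nat_lit 286756) (nat_lit 10) (.e (nat_lit 344169) (nat_lit 40) (.e (nat_lit 671751) (nat_lit 0) (.e (nat_lit 982) (nat_lit 81) .nil)))))))) (.g (nat_lit 5) .nil .nil))) 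
(.lf (nat_lit 89526) (.g (nat_lit 3272) (.e (nat_lit 2031) (nat_lit 140) (.e (nat_lit 688177) (nat_lit 16) (.e (nat_lit 65583) (nat_lit 7) (.e (nat_lit 319530) (nat_lit 16) (.e (nat_lit 286762) (nat_lit 14) (.e (nat_lit 401435) (nat_lit 9) (.e (nat_lit 426354) (nat_lit 15) .nil))))))) (.g (nat_lit 5) .nil .nil))))) (.nd (nat_lit 4) (.nd (nat_lit 5) 
(.lf (nat_lit 89486) (.g (nat_lit 4284) (.e (nat_lit 2031) (nat_lit 140) (.e (nat_lit 688177) (nat_lit 16) (.e (nat_lit 65583) (nat_lit 7) (.e (nat_lit 319530) (nat_lit 16) (.e (nat_lit 286753) (nat_lit 10) (.e (nat_lit 344169) (nat_lit 40) (.e (nat_lit 671748) (nat_lit 0) (.e (nat_lit 982) (nat_lit 81) .nil)))))))) (.g (nat_lit 6) .nil .nil))) 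
(.lf (nat_lit 89518) (.g (nat_lit 3383) (.e (nat_lit 2031) (nat_lit 140) (.e (nat_lit 688177) (nat_lit 16) (.e (nat_lit 65583) (nat_lit 7) (.e (nat_lit 319530) (nat_lit 16) (.e (nat_lit 286759) (nat_lit 12) (.e (nat_lit 385094) (nat_lit 49) (.e (nat_lit 778253) (nat_lit 0) (.e (nat_lit 982) (nat_lit 81) .nil)))))))) (.g (nat_lit 5) .nil .nil)))) (.nd (nat_lit 5) 
(.lf (nat_lit 89502) (.g (nat_lit 3692) (.e (nat_lit 2031) (nat_lit 140) (.e (nat_lit 688177) (nat_lit 16) (.e (nat_lit 65583) (nat_lit 7) (.e (nat_lit 319530) (nat_lit 16) (.e (nat_lit 286759) (nat_lit 12) (.e (nat_lit 385092) (nat_lit 49) (.e (nat_lit 778295) (nat_lit 0) (.e (nat_lit 993) (nat_lit 81) .nil)))))))) (.g (nat_lit 5) .nil .nil))) 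
(.lf (nat_lit 89534) (.g (nat_lit 4242) (.e (nat_lit 2031) (nat_lit 140) (.e (nat_lit 688177) (nat_lit 16) (.e (nat_lit 65583) (nat_lit 7) (.e (nat_lit 319530) (nat_lit 16) (.e (nat_lit 286762) (nat_lit 14) (.e (nat_lit 401438) (nat_lit 9) (.e (nat_lit 426354) (nat_lit 15) .nil))))))) (.g (nat_lit 7) .nil .nil)))))))) 
(.nd (nat_lit 1) (.nd (nat_lit 2) (.nd (nat_lit 3) (.nd (nat_lit 4) (.nd (nat_lit 5) 
(.lf (nat_lit 89473) (.g (nat_lit 2671) (.e (nat_lit 2031) (nat_lit 140) (.e (nat_lit 688177) (nat_lit 16) (.e (nat_lit 65583) (nat_lit 7) (.e (nat_lit 319530) (nat_lit 16) (.e (nat_lit 286748) (nat_lit 9) (.e (nat_lit 336295) (nat_lit 15) (.e (nat_lit 3711) (nat_lit 227) (.e (nat_lit 778240) (nat_lit 0) (.e (nat_lit 974) (nat_lit 81) .nil))))))))) (.g (nat_lit 4) .nil .nil))) 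
(.lf (nat_lit 89505) (.g (nat_lit 2419) (.e (nat_lit 2031) (nat_lit 140) (.e (nat_lit 688177) (nat_lit 16) (.e (nat_lit 65583) (nat_lit 7) (.e (nat_lit 319530) (nat_lit 16) (.e (nat_lit 286759) (nat_lit 12) (.e (nat_lit 385092) (nat_lit 49) (.e (nat_lit 778297) (nat_lit 0) (.e (nat_lit 992) (nat_lit 81) .nil)))))))) (.g (nat_lit 4) .nil .nil)))) (.nd (nat_lit 5) 
(.lf (nat_lit 89489) (.g (nat_lit 2126) (.e (nat_lit 2031) (nat_lit 140) (.e (nat_lit 688177) (nat_lit 16) (.e (nat_lit 65583) (nat_lit 7) (.e (nat_lit 319530) (nat_lit 16) (.e (nat_lit 286755) (nat_lit 10) (.e (nat_lit 352000) (nat_lit 18) (.e (nat_lit 5937) (nat_lit 322) (.e (nat_lit 57347) (nat_lit 0) .nil)))))))) (.g (nat_lit 4) .nil .nil))) 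
(.lf (nat_lit 89521) (.g (nat_lit 3144) (.e (nat_lit 2031) (nat_lit 140) (.e (nat_lit 688177) (nat_lit 16) (.e (nat_lit 65583) (nat_lit 7) (.e (nat_lit 319530) (nat_lit 16) (.e (nat_lit 286759) (nat_lit 12) (.e (nat_lit 385102) (nat_lit 50) (.e (nat_lit 786444) (nat_lit 15) .nil))))))) (.g (nat_lit 5) .nil .nil))))) (.nd (nat_lit 4) (.nd (nat_lit 5) 
(.lf (nat_lit 89481) (.g (nat_lit 2399) (.e (nat_lit 2031) (nat_lit 140) (.e (nat_lit 688177) (nat_lit 16) (.e (nat_lit 65583) (nat_lit 7) (.e (nat_lit 319530) (nat_lit 16) (.e (nat_lit 286751) (nat_lit 10) (.e (nat_lit 352000) (nat_lit 18) (.e (nat_lit 5937) (nat_lit 322) (.e (nat_lit 57348) (nat_lit 0) .nil)))))))) (.g (nat_lit 4) .nil .nil))) 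
(.lf (nat_lit 89513) (.g (nat_lit 3312) (.e (nat_lit 2031) (nat_lit 140) (.e (nat_lit 688177) (nat_lit 16) (.e (nat_lit 65583) (nat_lit 7) (.e (nat_lit 319530) (nat_lit 16) (.e (nat_lit 286759) (nat_lit 12) (.e (nat_lit 385094) (nat_lit 49) (.e (nat_lit 778246) (nat_lit 0) (.e (nat_lit 982) (nat_lit 81) .nil)))))))) (.g (nat_lit 5) .nil .nil)))) (.nd (nat_lit 5) 
(.lf (nat_lit 89497) (.g (nat_lit 3527) (.e (nat_lit 2031) (nat_lit 140) (.e (nat_lit 688177) (nat_lit 16) (.e (nat_lit 65583) (nat_lit 7) (.e (nat_lit 319530) (nat_lit 16) (.e (nat_lit 286759) (nat_lit 12) (.e (nat_lit 385090) (nat_lit 49) (.e (nat_lit 786176) (nat_lit 0) (.e (nat_lit 999) (nat_lit 81) .nil)))))))) (.g (nat_lit 6) .nil .nil))) 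
(.lf (nat_lit 89529) (.g (nat_lit 2226) (.e (nat_lit 2031) (nat_lit 140) (.e (nat_lit 688177) (nat_lit 16) (.e (nat_lit 65583) (nat_lit 7) (.e (nat_lit 319530) (nat_lit 16) (.e (nat_lit 286762) (nat_lit 14) (.e (nat_lit 401436) (nat_lit 9) (.e (nat_lit 426360) (nat_lit 15) .nil))))))) (.g (nat_lit 4) .nil .nil)))))) (.nd (nat_lit 3) (.nd (nat_lit 4) (.nd (nat_lit 5) 
(.lf (nat_lit 89477) (.g (nat_lit 3691) (.e (nat_lit 2031) (nat_lit 140) (.e (nat_lit 688177) (nat_lit 16) (.e (nat_lit 65583) (nat_lit 7) (.e (nat_lit 319530) (nat_lit 16) (.e (nat_lit 286748) (nat_lit 9) (.e (nat_lit 336295) (nat_lit 15) (.e (nat_lit 3748) (nat_lit 228) (.e (nat_lit 786444) (nat_lit 15) .nil)))))))) (.g (nat_lit 6) .nil .nil))) 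
(.lf (nat_lit 89509) (.g (nat_lit 2677) (.e (nat_lit 2031) (nat_lit 140) (.e (nat_lit 688177) (nat_lit 16) (.e (nat_lit 65583) (nat_lit 7) (.e (nat_lit 319530) (nat_lit 16) (.e (nat_lit 286759) (nat_lit 12) (.e (nat_lit 385094) (nat_lit 49) (.e (nat_lit 778241) (nat_lit 0) (.e (nat_lit 974) (nat_lit 81) .nil)))))))) (.g (nat_lit 4) .nil .nil)))) (.nd (nat_lit 5) 
(.lf (nat_lit 89493) (.g (nat_lit 3198) (.e (nat_lit 2031) (nat_lit 140) (.e (nat_lit 688177) (nat_lit 16) (.e (nat_lit 65583) (nat_lit 7) (.e (nat_lit 319530) (nat_lit 16) (.e (nat_lit 286756) (nat_lit 10) (.e (nat_lit 344169) (nat_lit 40) (.e (nat_lit 671748) (nat_lit 0) (.e (nat_lit 982) (nat_lit 81) .nil)))))))) (.g (nat_lit 6) .nil .nil))) 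
(.lf (nat_lit 89525) (.g (nat_lit 3270) (.e (nat_lit 2031) (nat_lit 140) (.e (nat_lit 688177) (nat_lit 16) (.e (nat_lit 65583) (nat_lit 7) (.e (nat_lit 319530) (nat_lit 16) (.e (nat_lit 286759) (nat_lit 12) (.e (nat_lit 385106) (nat_lit 50) (.e (nat_lit 794368) (nat_lit 15) .nil))))))) (.g (nat_lit 5) .nil .nil))))) (.nd (nat_lit 4) (.nd (nat_lit 5) 
(.lf (nat_lit 89485) (.g (nat_lit 3014) (.e (nat_lit 2031) (nat_lit 140) (.e (nat_lit 688177) (nat_lit 16) (.e (nat_lit 65583) (nat_lit 7) (.e (nat_lit 319530) (nat_lit 16) (.e (nat_lit 286753) (nat_lit 10) (.e (nat_lit 344168) (nat_lit 40) (.e (nat_lit 671751) (nat_lit 0) (.e (nat_lit 982) (nat_lit 81) .nil)))))))) (.g (nat_lit 4) .nil .nil))) 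
(.lf (nat_lit 89517) (.g (nat_lit 3102) (.e (nat_lit 2031) (nat_lit 140) (.e (nat_lit 688177) (nat_lit 16) (.e (nat_lit 65583) (nat_lit 7) (.e (nat_lit 319530) (nat_lit 16) (.e (nat_lit 286759) (nat_lit 12) (.e (nat_lit 385094) (nat_lit 49) (.e (nat_lit 778246) (nat_lit 0) (.e (nat_lit 1000) (nat_lit 81) .nil)))))))) (.g (nat_lit 5) .nil .nil)))) (.nd (nat_lit 5) 
(.lf (nat_lit 89501) (.g (nat_lit 2775) (.e (nat_lit 2031) (nat_lit 140) (.e (nat_lit 688177) (nat_lit 16) (.e (nat_lit 65583) (nat_lit 7) (.e (nat_lit 319530) (nat_lit 16) (.e (nat_lit 286759) (nat_lit 12) (.e (nat_lit 385092) (nat_lit 49) (.e (nat_lit 778295) (nat_lit 0) (.e (nat_lit 992) (nat_lit 81) .nil)))))))) (.g (nat_lit 4) .nil .nil))) 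
(.lf (nat_lit 89533) (.g (nat_lit 4655) (.e (nat_lit 2031) (nat_lit 140) (.e (nat_lit 688177) (nat_lit 16) (.e (nat_lit 65583) (nat_lit 7) (.e (nat_lit 319530) (nat_lit 16) (.e (nat_lit 286762) (nat_lit 14) (.e (nat_lit 401438) (nat_lit 9) (.e (nat_lit 426350) (nat_lit 15) .nil))))))) (.g (nat_lit 0) .nil .nil))))))) (.nd (nat_lit 2) (.nd (nat_lit 3) (.nd (nat_lit 4) (.nd (nat_lit 5) 
(.lf (nat_lit 89475) (.g (nat_lit 3310) (.e (nat_lit 2031) (nat_lit 140) (.e (nat_lit 688177) (nat_lit 16) (.e (nat_lit 65583) (nat_lit 7) (.e (nat_lit 319530) (nat_lit 16) (.e (nat_lit 286748) (nat_lit 9) (.e (nat_lit 336295) (nat_lit 15) (.e (nat_lit 3746) (nat_lit 228) (.e (nat_lit 786444) (nat_lit 15) .nil)))))))) (.g (nat_lit 6) .nil .nil))) 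
(.lf (nat_lit 89507) (.g (nat_lit 2293) (.e (nat_lit 2031) (nat_lit 140) (.e (nat_lit 688177) (nat_lit 16) (.e (nat_lit 65583) (nat_lit 7) (.e (nat_lit 319530) (nat_lit 16) (.e (nat_lit 286759) (nat_lit 12) (.e (nat_lit 385092) (nat_lit 49) (.e (nat_lit 778297) (nat_lit 0) (.e (nat_lit 994) (nat_lit 81) .nil)))))))) (.g (nat_lit 4) .nil .nil)))) (.nd (nat_lit 5) 
(.lf (nat_lit 89491) (.g (nat_lit 2443) (.e (nat_lit 2031) (nat_lit 140) (.e (nat_lit 688177) (nat_lit 16) (.e (nat_lit 65583) (nat_lit 7) (.e (nat_lit 319530) (nat_lit 16) (.e (nat_lit 286756) (nat_lit 10) (.e (nat_lit 344104) (nat_lit 18) (.e (nat_lit 5947) (nat_lit 322) (.e (nat_lit 57347) (nat_lit 0) .nil)))))))) (.g (nat_lit 5) .nil .nil))) 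
(.lf (nat_lit 89523) (.g (nat_lit 4447) (.e (nat_lit 2031) (nat_lit 140) (.e (nat_lit 688177) (nat_lit 16) (.e (nat_lit 65583) (nat_lit 7) (.e (nat_lit 319530) (nat_lit 16) (.e (nat_lit 286759) (nat_lit 12) (.e (nat_lit 385105) (nat_lit 50) (.e (nat_lit 786444) (nat_lit 15) .nil))))))) (.g (nat_lit 0) .nil .nil))))) (.nd (nat_lit 4) (.nd (nat_lit 5) 
(.lf (nat_lit 89483) (.g (nat_lit 2351) (.e (nat_lit 2031) (nat_lit 140) (.e (nat_lit 688177) (nat_lit 16) (.e (nat_lit 65583) (nat_lit 7) (.e (nat_lit 319530) (nat_lit 16) (.e (nat_lit 286752) (nat_lit 10) (.e (nat_lit 344169) (nat_lit 40) (.e (nat_lit 671744) (nat_lit 0) (.e (nat_lit 999) (nat_lit 81) .nil)))))))) (.g (nat_lit 4) .nil .nil))) 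
(.lf (nat_lit 89515) (.g (nat_lit 2683) (.e (nat_lit 2031) (nat_lit 140) (.e (nat_lit 688177) (nat_lit 16) (.e (nat_lit 65583) (nat_lit 7) (.e (nat_lit 319530) (nat_lit 16) (.e (nat_lit 286759) (nat_lit 12) (.e (nat_lit 385094) (nat_lit 49) (.e (nat_lit 778246) (nat_lit 0) (.e (nat_lit 998) (nat_lit 81) .nil)))))))) (.g (nat_lit 4) .nil .nil)))) (.nd (nat_lit 5) 
(.lf (nat_lit 89499) (.g (nat_lit 2271) (.e (nat_lit 2031) (nat_lit 140) (.e (nat_lit 688177) (nat_lit 16) (.e (nat_lit 65583) (nat_lit 7) (.e (nat_lit 319530) (nat_lit 16) (.e (nat_lit 286759) (nat_lit 12) (.e (nat_lit 385092) (nat_lit 49) (.e (nat_lit 778251) (nat_lit 0) (.e (nat_lit 982) (nat_lit 81) .nil)))))))) (.g (nat_lit 4) .nil .nil))) 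
(.lf (nat_lit 89531) (.g (nat_lit 4656) (.e (nat_lit 2031) (nat_lit 140) (.e (nat_lit 688177) (nat_lit 16) (.e (nat_lit 65583) (nat_lit 7) (.e (nat_lit 319530) (nat_lit 16) (.e (nat_lit 286762) (nat_lit 14) (.e (nat_lit 401437) (nat_lit 9) (.e (nat_lit 426354) (nat_lit 15) .nil))))))) (.g (nat_lit 0) .nil .nil)))))) (.nd (nat_lit 3) (.nd (nat_lit 4) (.nd (nat_lit 5) 
(.lf (nat_lit 89479) (.g (nat_lit 1854) (.e (nat_lit 2031) (nat_lit 140) (.e (nat_lit 688177) (nat_lit 16) (.e (nat_lit 65583) (nat_lit 7) (.e (nat_lit 319530) (nat_lit 16) (.e (nat_lit 286751) (nat_lit 10) (.e (nat_lit 344104) (nat_lit 18) (.e (nat_lit 5949) (nat_lit 322) (.e (nat_lit 57347) (nat_lit 0) .nil)))))))) (.g (nat_lit 4) .nil .nil))) 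
(.lf (nat_lit 89511) (.g (nat_lit 3109) (.e (nat_lit 2031) (nat_lit 140) (.e (nat_lit 688177) (nat_lit 16) (.e (nat_lit 65583) (nat_lit 7) (.e (nat_lit 319530) (nat_lit 16) (.e (nat_lit 286759) (nat_lit 12) (.e (nat_lit 385094) (nat_lit 49) (.e (nat_lit 778241) (nat_lit 0) (.e (nat_lit 998) (nat_lit 81) .nil)))))))) (.g (nat_lit 5) .nil .nil)))) (.nd (nat_lit 5) 
(.lf (nat_lit 89495) (.g (nat_lit 1989) (.e (nat_lit 2031) (nat_lit 140) (.e (nat_lit 688177) (nat_lit 16) (.e (nat_lit 65583) (nat_lit 7) (.e (nat_lit 319530) (nat_lit 16) (.e (nat_lit 286758) (nat_lit 12) .nil))))) .nil)) 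
(.lf (nat_lit 89527) (.g (nat_lit 3334) (.e (nat_lit 2031) (nat_lit 140) (.e (nat_lit 688177) (nat_lit 16) (.e (nat_lit 65583) (nat_lit 7) (.e (nat_lit 319530) (nat_lit 16) (.e (nat_lit 286762) (nat_lit 14) (.e (nat_lit 401436) (nat_lit 9) (.e (nat_lit 426350) (nat_lit 15) .nil))))))) (.g (nat_lit 5) .nil .nil))))) (.nd (nat_lit 4) (.nd (nat_lit 5) 
(.lf (nat_lit 89487) (.g (nat_lit 3424) (.e (nat_lit 2031) (nat_lit 140) (.e (nat_lit 688177) (nat_lit 16) (.e (nat_lit 65583) (nat_lit 7) (.e (nat_lit 319530) (nat_lit 16) (.e (nat_lit 286753) (nat_lit 10) (.e (nat_lit 344169) (nat_lit 40) (.e (nat_lit 671751) (nat_lit 0) (.e (nat_lit 982) (nat_lit 81) .nil)))))))) (.g (nat_lit 5) .nil .nil))) 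
(.lf (nat_lit 89519) (.g (nat_lit 3687) (.e (nat_lit 2031) (nat_lit 140) (.e (nat_lit 688177) (nat_lit 16) (.e (nat_lit 65583) (nat_lit 7) (.e (nat_lit 319530) (nat_lit 16) (.e (nat_lit 286759) (nat_lit 12) (.e (nat_lit 385094) (nat_lit 49) (.e (nat_lit 778254) (nat_lit 0) (.e (nat_lit 974) (nat_lit 81) .nil)))))))) (.g (nat_lit 5) .nil .nil)))) (.nd (nat_lit 5) 
(.lf (nat_lit 89503) (.g (nat_lit 2702) (.e (nat_lit 2031) (nat_lit 140) (.e (nat_lit 688177) (nat_lit 16) (.e (nat_lit 65583) (nat_lit 7) (.e (nat_lit 319530) (nat_lit 16) (.e (nat_lit 286759) (nat_lit 12) (.e (nat_lit 385092) (nat_lit 49) (.e (nat_lit 778295) (nat_lit 0) (.e (nat_lit 994) (nat_lit 81) .nil)))))))) (.g (nat_lit 4) .nil .nil))) 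
(.lf (nat_lit 89535) (.g (nat_lit 3235) (.e (nat_lit 2031) (nat_lit 140) (.e (nat_lit 688177) (nat_lit 16) (.e (nat_lit 65583) (nat_lit 7) (.e (nat_lit 319530) (nat_lit 16) (.e (nat_lit 286762) (nat_lit 14) (.e (nat_lit 401438) (nat_lit 9) (.e (nat_lit 433920) (nat_lit 15) .nil))))))) (.g (nat_lit 5) .nil .nil)))))))))

noncomputable def tv1223 : DT := (.nd (nat_lit 0) (.nd (nat_lit 1) (.nd (nat_lit 2) (.nd (nat_lit 3) (.nd (nat_lit 4) (.nd (nat_lit 5) 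
(.lf (nat_lit 89536) (.g (nat_lit 3200) (.e (nat_lit 2031) (nat_lit 140) (.e (nat_lit 688177) (nat_lit 16) (.e (nat_lit 65583) (nat_lit 7) (.e (nat_lit 319533) (nat_lit 16) (.e (nat_lit 286753) (nat_lit 10) (.e (nat_lit 344168) (nat_lit 40) (.e (nat_lit 671751) (nat_lit 0) (.e (nat_lit 982) (nat_lit 81) .nil)))))))) (.g (nat_lit 4) .nil .nil))) 
(.lf (nat_lit 89568) (.g (nat_lit 3607) (.e (nat_lit 2031) (nat_lit 140) (.e (nat_lit 688177) (nat_lit 16) (.e (nat_lit 65586) (nat_lit 7) (.e (nat_lit 319531) (nat_lit 16) (.e (nat_lit 286745) (nat_lit 9) (.e (nat_lit 335907) (nat_lit 0) (.e (nat_lit 970) (nat_lit 81) (.e (nat_lit 5954) (nat_lit 322) (.e (nat_lit 57345) (nat_lit 0) .nil))))))))) (.g (nat_lit 5) .nil .nil)))) (.nd (nat_lit 5) 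
(.lf (nat_lit 89552) (.g (nat_lit 2676) (.e (nat_lit 2031) (nat_lit 140) (.e (nat_lit 688177) (nat_lit 16) (.e (nat_lit 65586) (nat_lit 7) (.e (nat_lit 319531) (nat_lit 16) (.e (nat_lit 286727) (nat_lit 0) (.e (nat_lit 6223) (nat_lit 334) (.e (nat_lit 123164) (nat_lit 256) (.e (nat_lit 11) (nat_lit 0) .nil)))))))) (.g (nat_lit 4) .nil .nil))) 
(.lf (nat_lit 89584) (.g (nat_lit 2833) (.e (nat_lit 2031) (nat_lit 140) (.e (nat_lit 688177) (nat_lit 16) (.e (nat_lit 65586) (nat_lit 7) (.e (nat_lit 319531) (nat_lit 16) (.e (nat_lit 286748) (nat_lit 9) (.e (nat_lit 335886) (nat_lit 0) (.e (nat_lit 970) (nat_lit 81) (.e (nat_lit 5954) (nat_lit 322) (.e (nat_lit 57349) (nat_lit 0) .nil))))))))) (.g (nat_lit 5) .nil .nil))))) 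
(.nd (nat_lit 4) (.nd (nat_lit 5) 
(.lf (nat_lit 89544) (.g (nat_lit 855) (.e (nat_lit 2031) (nat_lit 140) (.e (nat_lit 688177) (nat_lit 16) (.e (nat_lit 65586) (nat_lit 7) (.e (nat_lit 319531) (nat_lit 16) .nil)))) .nil)) 
(.lf (nat_lit 89576) (.g (nat_lit 3183) (.e (nat_lit 2031) (nat_lit 140) (.e (nat_lit 688177) (nat_lit 16) (.e (nat_lit 65586) (nat_lit 7) (.e (nat_lit 319531) (nat_lit 16) (.e (nat_lit 286747) (nat_lit 9) (.e (nat_lit 335907) (nat_lit 0) (.e (nat_lit 1996) (nat_lit 137) (.e (nat_lit 663554) (nat_lit 0) (.e (nat_lit 982) (nat_lit 81) .nil))))))))) (.g (nat_lit 5) .nil .nil)))) (.nd (nat_lit 5) 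
(.lf (nat_lit 89560) (.g (nat_lit 2205) (.e (nat_lit 2031) (nat_lit 140) (.e (nat_lit 688177) (nat_lit 16) (.e (nat_lit 65586) (nat_lit 7) (.e (nat_lit 319531) (nat_lit 16) (.e (nat_lit 286742) (nat_lit 9) .nil))))) .nil)) 
(.lf (nat_lit 89592) (.g (nat_lit 2763) (.e (nat_lit 2031) (nat_lit 140) (.e (nat_lit 688177) (nat_lit 16) (.e (nat_lit 65586) (nat_lit 7) (.e (nat_lit 319531) (nat_lit 16) (.e (nat_lit 286748) (nat_lit 9) (.e (nat_lit 335889) (nat_lit 0) (.e (nat_lit 1105) (nat_lit 81) (.e (nat_lit 5935) (nat_lit 322) (.e (nat_lit 57348) (nat_lit 0) .nil))))))))) (.g (nat_lit 5) .nil .nil)))))) 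
(.nd (nat_lit 3) (.nd (nat_lit 4) (.nd (nat_lit 5) 
(.lf (nat_lit 89540) (.g (nat_lit 3779) (.e (nat_lit 2031) (nat_lit 140) (.e (nat_lit 688177) (nat_lit 16) (.e (nat_lit 65583) (nat_lit 7) (.e (nat_lit 319533) (nat_lit 16) (.e (nat_lit 286753) (nat_lit 10) (.e (nat_lit 344169) (nat_lit 40) (.e (nat_lit 671751) (nat_lit 0) (.e (nat_lit 982) (nat_lit 81) .nil)))))))) (.g (nat_lit 5) .nil .nil))) 
(.lf (nat_lit 89572) (.g (nat_lit 2510) (.e (nat_lit 2031) (nat_lit 140) (.e (nat_lit 688177) (nat_lit 16) (.e (nat_lit 65586) (nat_lit 7) (.e (nat_lit 319531) (nat_lit 16) (.e (nat_lit 286745) (nat_lit 9) (.e (nat_lit 336030) (nat_lit 4) (.e (nat_lit 123197) (nat_lit 266) (.e (nat_lit 57347) (nat_lit 0) .nil)))))))) (.g (nat_lit 4) .nil .nil)))) (.nd (nat_lit 5) 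
(.lf (nat_lit 89556) (.g (nat_lit 2364) (.e (nat_lit 2031) (nat_lit 140) (.e (nat_lit 688177) (nat_lit 16) (.e (nat_lit 65586) (nat_lit 7) (.e (nat_lit 319531) (nat_lit 16) (.e (nat_lit 286727) (nat_lit 0) (.e (nat_lit 7936) (nat_lit 361) (.e (nat_lit 179968) (nat_lit 15) .nil))))))) (.g (nat_lit 5) .nil .nil))) 
(.lf (nat_lit 89588) (.g (nat_lit 2214) (.e (nat_lit 2031) (nat_lit 140) (.e (nat_lit 688177) (nat_lit 16) (.e (nat_lit 65586) (nat_lit 7) (.e (nat_lit 319531) (nat_lit 16) (.e (nat_lit 286748) (nat_lit 9) (.e (nat_lit 335888) (nat_lit 0) (.e (nat_lit 1103) (nat_lit 81) (.e (nat_lit 5936) (nat_lit 322) (.e (nat_lit 57348) (nat_lit 0) .nil))))))))) (.g (nat_lit 4) .nil .nil))))) 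
(.nd (nat_lit 4) (.nd (nat_lit 5) 
(.lf (nat_lit 89548) (.g (nat_lit 2689) (.e (nat_lit 2031) (nat_lit 140) (.e (nat_lit 688177) (nat_lit 16) (.e (nat_lit 65586) (nat_lit 7) (.e (nat_lit 319531) (nat_lit 16) (.e (nat_lit 286723) (nat_lit 0) (.e (nat_lit 6676) (nat_lit 357) (.e (nat_lit 2856) (nat_lit 184) (.e (nat_lit 426354) (nat_lit 15) .nil)))))))) (.g (nat_lit 4) .nil .nil))) 
(.lf (nat_lit 89580) (.g (nat_lit 3357) (.e (nat_lit 2031) (nat_lit 140) (.e (nat_lit 688177) (nat_lit 16) (.e (nat_lit 65586) (nat_lit 7) (.e (nat_lit 319531) (nat_lit 16) (.e (nat_lit 286747) (nat_lit 9) (.e (nat_lit 336032) (nat_lit 4) (.e (nat_lit 123196) (nat_lit 266) (.e (nat_lit 57347) (nat_lit 0) .nil)))))))) (.g (nat_lit 5) .nil .nil)))) (.nd (nat_lit 5) 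
(.lf (nat_lit 89564) (.g (nat_lit 2549) (.e (nat_lit 2031) (nat_lit 140) (.e (nat_lit 688177) (nat_lit 16) (.e (nat_lit 65586) (nat_lit 7) (.e (nat_lit 319531) (nat_lit 16) (.e (nat_lit 286742) (nat_lit 9) (.e (nat_lit 336032) (nat_lit 4) (.e (nat_lit 123197) (nat_lit 266) (.e (nat_lit 57344) (nat_lit 0) .nil)))))))) (.g (nat_lit 4) .nil .nil))) 
(.lf (nat_lit 89596) (.g (nat_lit 2992) (.e (nat_lit 2031) (nat_lit 140) (.e (nat_lit 688177) (nat_lit 16) (.e (nat_lit 65586) (nat_lit 7) (.e (nat_lit 319531) (nat_lit 16) (.e (nat_lit 286748) (nat_lit 9) (.e (nat_lit 335891) (nat_lit 0) (.e (nat_lit 1105) (nat_lit 81) (.e (nat_lit 5936) (nat_lit 322) (.e (nat_lit 57348) (nat_lit 0) .nil))))))))) (.g (nat_lit 5) .nil .nil))))))) 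
(.nd (nat_lit 2) (.nd (nat_lit 3) (.nd (nat_lit 4) (.nd (nat_lit 5) 
(.lf (nat_lit 89538) (.g (nat_lit 2625) (.e (nat_lit 2031) (nat_lit 140) (.e (nat_lit 688177) (nat_lit 16) (.e (nat_lit 65583) (nat_lit 7) (.e (nat_lit 319533) (nat_lit 16) (.e (nat_lit 286753) (nat_lit 10) (.e (nat_lit 344169) (nat_lit 40) (.e (nat_lit 671747) (nat_lit 0) (.e (nat_lit 982) (nat_lit 81) .nil)))))))) (.g (nat_lit 4) .nil .nil))) 
(.lf (nat_lit 89570) (.g (nat_lit 3719) (.e (nat_lit 2031) (nat_lit 140) (.e (nat_lit 688177) (nat_lit 16) (.e (nat_lit 65586) (nat_lit 7) (.e (nat_lit 319531) (nat_lit 16) (.e (nat_lit 286745) (nat_lit 9) (.e (nat_lit 335907) (nat_lit 0) (.e (nat_lit 1994) (nat_lit 137) (.e (nat_lit 663554) (nat_lit 0) (.e (nat_lit 982) (nat_lit 81) .nil))))))))) (.g (nat_lit 5) .nil .nil)))) (.nd (nat_lit 5) 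
(.lf (nat_lit 89554) (.g (nat_lit 3629) (.e (nat_lit 2031) (nat_lit 140) (.e (nat_lit 688177) (nat_lit 16) (.e (nat_lit 65586) (nat_lit 7) (.e (nat_lit 319531) (nat_lit 16) (.e (nat_lit 286727) (nat_lit 0) (.e (nat_lit 6223) (nat_lit 334) (.e (nat_lit 123166) (nat_lit 256) (.e (nat_lit 11) (nat_lit 0) .nil)))))))) (.g (nat_lit 5) .nil .nil))) 
(.lf (nat_lit 89586) (.g (nat_lit 2767) (.e (nat_lit 2031) (nat_lit 140) (.e (nat_lit 688177) (nat_lit 16) (.e (nat_lit 65586) (nat_lit 7) (.e (nat_lit 319531) (nat_lit 16) (.e (nat_lit 286748) (nat_lit 9) (.e (nat_lit 335887) (nat_lit 0) (.e (nat_lit 970) (nat_lit 81) (.e (nat_lit 5954) (nat_lit 322) (.e (nat_lit 57349) (nat_lit 0) .nil))))))))) (.g (nat_lit 5) .nil .nil))))) 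
(.nd (nat_lit 4) (.nd (nat_lit 5) 
(.lf (nat_lit 89546) (.g (nat_lit 2428) (.e (nat_lit 2031) (nat_lit 140) (.e (nat_lit 688177) (nat_lit 16) (.e (nat_lit 65586) (nat_lit 7) (.e (nat_lit 319531) (nat_lit 16) (.e (nat_lit 286721) (nat_lit 0) (.e (nat_lit 6113) (nat_lit 332) (.e (nat_lit 1376) (nat_lit 104) (.e (nat_lit 311040) (nat_lit 15) .nil)))))))) (.g (nat_lit 4) .nil .nil))) 
(.lf (nat_lit 89578) (.g (nat_lit 2129) (.e (nat_lit 2031) (nat_lit 140) (.e (nat_lit 688177) (nat_lit 16) (.e (nat_lit 65586) (nat_lit 7) (.e (nat_lit 319531) (nat_lit 16) (.e (nat_lit 286747) (nat_lit 9) (.e (nat_lit 336032) (nat_lit 4) (.e (nat_lit 123195) (nat_lit 266) (.e (nat_lit 57345) (nat_lit 0) .nil)))))))) (.g (nat_lit 4) .nil .nil)))) (.nd (nat_lit 5) 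
(.lf (nat_lit 89562) (.g (nat_lit 2945) (.e (nat_lit 2031) (nat_lit 140) (.e (nat_lit 688177) (nat_lit 16) (.e (nat_lit 65586) (nat_lit 7) (.e (nat_lit 319531) (nat_lit 16) (.e (nat_lit 286742) (nat_lit 9) (.e (nat_lit 336032) (nat_lit 4) (.e (nat_lit 123195) (nat_lit 266) (.e (nat_lit 57345) (nat_lit 0) .nil)))))))) (.g (nat_lit 4) .nil .nil))) 
(.lf (nat_lit 89594) (.g (nat_lit 3125) (.e (nat_lit 2031) (nat_lit 140) (.e (nat_lit 688177) (nat_lit 16) (.e (nat_lit 65586) (nat_lit 7) (.e (nat_lit 319531) (nat_lit 16) (.e (nat_lit 286748) (nat_lit 9) (.e (nat_lit 335889) (nat_lit 0) (.e (nat_lit 1105) (nat_lit 81) (.e (nat_lit 5937) (nat_lit 322) (.e (nat_lit 57348) (nat_lit 0) .nil))))))))) (.g (nat_lit 5) .nil .nil)))))) 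
(.nd (nat_lit 3) (.nd (nat_lit 4) (.nd (nat_lit 5) 
(.lf (nat_lit 89542) (.g (nat_lit 2968) (.e (nat_lit 2031) (nat_lit 140) (.e (nat_lit 688177) (nat_lit 16) (.e (nat_lit 65585) (nat_lit 7) (.e (nat_lit 319533) (nat_lit 16) (.e (nat_lit 286753) (nat_lit 10) (.e (nat_lit 344169) (nat_lit 40) (.e (nat_lit 671748) (nat_lit 0) (.e (nat_lit 982) (nat_lit 81) .nil)))))))) (.g (nat_lit 5) .nil .nil))) 
(.lf (nat_lit 89574) (.g (nat_lit 3039) (.e (nat_lit 2031) (nat_lit 140) (.e (nat_lit 688177) (nat_lit 16) (.e (nat_lit 65586) (nat_lit 7) (.e (nat_lit 319531) (nat_lit 16) (.e (nat_lit 286747) (nat_lit 9) (.e (nat_lit 335907) (nat_lit 0) (.e (nat_lit 970) (nat_lit 81) (.e (nat_lit 5954) (nat_lit 322) (.e (nat_lit 57347) (nat_lit 0) .nil))))))))) (.g (nat_lit 4) .nil .nil)))) (.nd (nat_lit 5) 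
(.lf (nat_lit 89558) (.g (nat_lit 3084) (.e (nat_lit 2031) (nat_lit 140) (.e (nat_lit 688177) (nat_lit 16) (.e (nat_lit 65586) (nat_lit 7) (.e (nat_lit 319531) (nat_lit 16) (.e (nat_lit 286739) (nat_lit 7) (.e (nat_lit 319539) (nat_lit 19) (.e (nat_lit 319232) (nat_lit 15) .nil))))))) (.g (nat_lit 6) .nil .nil))) 
(.lf (nat_lit 89590) (.g (nat_lit 4749) (.e (nat_lit 2031) (nat_lit 140) (.e (nat_lit 688177) (nat_lit 16) (.e (nat_lit 65586) (nat_lit 7) (.e (nat_lit 319531) (nat_lit 16) (.e (nat_lit 286748) (nat_lit 9) (.e (nat_lit 335889) (nat_lit 0) (.e (nat_lit 970) (nat_lit 81) (.e (nat_lit 5954) (nat_lit 322) (.e (nat_lit 57345) (nat_lit 0) .nil))))))))) (.g (nat_lit 8) .nil .nil))))) 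
(.nd (nat_lit 4) (.nd (nat_lit 5) 
(.lf (nat_lit 89550) (.g (nat_lit 1489) (.e (nat_lit 2031) (nat_lit 140) (.e (nat_lit 688177) (nat_lit 16) (.e (nat_lit 65586) (nat_lit 7) (.e (nat_lit 319531) (nat_lit 16) (.e (nat_lit 286727) (nat_lit 0) .nil))))) .nil)) 
(.lf (nat_lit 89582) (.g (nat_lit 1620) (.e (nat_lit 2031) (nat_lit 140) (.e (nat_lit 688177) (nat_lit 16) (.e (nat_lit 65586) (nat_lit 7) (.e (nat_lit 319531) (nat_lit 16) (.e (nat_lit 286748) (nat_lit 9) .nil))))) .nil))) (.nd (nat_lit 5) 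
(.lf (nat_lit 89566) (.g (nat_lit 2404) (.e (nat_lit 2031) (nat_lit 140) (.e (nat_lit 688177) (nat_lit 16) (.e (nat_lit 65586) (nat_lit 7) (.e (nat_lit 319531) (nat_lit 16) (.e (nat_lit 286742) (nat_lit 9) (.e (nat_lit 336032) (nat_lit 4) (.e (nat_lit 123198) (nat_lit 266) (.e (nat_lit 57347) (nat_lit 0) .nil)))))))) (.g (nat_lit 4) .nil .nil))) 
(.lf (nat_lit 89598) (.g (nat_lit 2478) (.e (nat_lit 2031) (nat_lit 140) (.e (nat_lit 688177) (nat_lit 16) (.e (nat_lit 65586) (nat_lit 7) (.e (nat_lit 319531) (nat_lit 16) (.e (nat_lit 286748) (nat_lit 9) (.e (nat_lit 335891) (nat_lit 0) (.e (nat_lit 1105) (nat_lit 81) (.e (nat_lit 5953) (nat_lit 322) (.e (nat_lit 57345) (nat_lit 0) .nil))))))))) (.g (nat_lit 4) .nil .nil)))))))) 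
(.nd (nat_lit 1) (.nd (nat_lit 2) (.nd (nat_lit 3) (.nd (nat_lit 4) (.nd (nat_lit 5) 
(.lf (nat_lit 89537) (.g (nat_lit 2836) (.e (nat_lit 2031) (nat_lit 140) (.e (nat_lit 688177) (nat_lit 16) (.e (nat_lit 65583) (nat_lit 7) (.e (nat_lit 319533) (nat_lit 16) (.e (nat_lit 286753) (nat_lit 10) (.e (nat_lit 344169) (nat_lit 40) (.e (nat_lit 671746) (nat_lit 0) (.e (nat_lit 982) (nat_lit 81) .nil)))))))) (.g (nat_lit 4) .nil .nil))) 
(.lf (nat_lit 89569) (.g (nat_lit 3059) (.e (nat_lit 2031) (nat_lit 140) (.e (nat_lit 688177) (nat_lit 16) (.e (nat_lit 65586) (nat_lit 7) (.e (nat_lit 319531) (nat_lit 16) (.e (nat_lit 286745) (nat_lit 9) (.e (nat_lit 335907) (nat_lit 0) (.e (nat_lit 970) (nat_lit 81) (.e (nat_lit 5954) (nat_lit 322) (.e (nat_lit 57349) (nat_lit 0) .nil))))))))) (.g (nat_lit 4) .nil .nil)))) (.nd (nat_lit 5) 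
(.lf (nat_lit 89553) (.g (nat_lit 2690) (.e (nat_lit 2031) (nat_lit 140) (.e (nat_lit 688177) (nat_lit 16) (.e (nat_lit 65586) (nat_lit 7) (.e (nat_lit 319531) (nat_lit 16) (.e (nat_lit 286727) (nat_lit 0) (.e (nat_lit 6223) (nat_lit 334) (.e (nat_lit 123165) (nat_lit 256) (.e (nat_lit 11) (nat_lit 0) .nil)))))))) (.g (nat_lit 4) .nil .nil))) 
(.lf (nat_lit 89585) (.g (nat_lit 3315) (.e (nat_lit 2031) (nat_lit 140) (.e (nat_lit 688177) (nat_lit 16) (.e (nat_lit 65586) (nat_lit 7) (.e (nat_lit 319531) (nat_lit 16) (.e (nat_lit 286748) (nat_lit 9) (.e (nat_lit 335887) (nat_lit 0) (.e (nat_lit 970) (nat_lit 81) (.e (nat_lit 5954) (nat_lit 322) (.e (nat_lit 57345) (nat_lit 0) .nil))))))))) (.g (nat_lit 5) .nil .nil))))) 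
(.nd (nat_lit 4) (.nd (nat_lit 5) 
(.lf (nat_lit 89545) (.g (nat_lit 2356) (.e (nat_lit 2031) (nat_lit 140) (.e (nat_lit 688177) (nat_lit 16) (.e (nat_lit 65586) (nat_lit 7) (.e (nat_lit 319531) (nat_lit 16) (.e (nat_lit 286721) (nat_lit 0) .nil))))) .nil)) 
(.lf (nat_lit 89577) (.g (nat_lit 2736) (.e (nat_lit 2031) (nat_lit 140) (.e (nat_lit 688177) (nat_lit 16) (.e (nat_lit 65586) (nat_lit 7) (.e (nat_lit 319531) (nat_lit 16) (.e (nat_lit 286747) (nat_lit 9) (.e (nat_lit 336032) (nat_lit 4) (.e (nat_lit 123194) (nat_lit 266) (.e (nat_lit 57347) (nat_lit 0) .nil)))))))) (.g (nat_lit 4) .nil .nil)))) (.nd (nat_lit 5) 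
(.lf (nat_lit 89561) (.g (nat_lit 2607) (.e (nat_lit 2031) (nat_lit 140) (.e (nat_lit 688177) (nat_lit 16) (.e (nat_lit 65586) (nat_lit 7) (.e (nat_lit 319531) (nat_lit 16) (.e (nat_lit 286742) (nat_lit 9) (.e (nat_lit 336032) (nat_lit 4) (.e (nat_lit 123194) (nat_lit 266) (.e (nat_lit 57348) (nat_lit 0) .nil)))))))) (.g (nat_lit 4) .nil .nil))) 
(.lf (nat_lit 89593) (.g (nat_lit 2295) (.e (nat_lit 2031) (nat_lit 140) (.e (nat_lit 688177) (nat_lit 16) (.e (nat_lit 65586) (nat_lit 7) (.e (nat_lit 319531) (nat_lit 16) (.e (nat_lit 286748) (nat_lit 9) (.e (nat_lit 335889) (nat_lit 0) (.e (nat_lit 1105) (nat_lit 81) (.e (nat_lit 5937) (nat_lit 322) (.e (nat_lit 57345) (nat_lit 0) .nil))))))))) (.g (nat_lit 4) .nil .nil)))))) 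
(.nd (nat_lit 3) (.nd (nat_lit 4) (.nd (nat_lit 5) 
(.lf (nat_lit 89541) (.g (nat_lit 3763) (.e (nat_lit 2031) (nat_lit 140) (.e (nat_lit 688177) (nat_lit 16) (.e (nat_lit 65583) (nat_lit 7) (.e (nat_lit 319534) (nat_lit 16) (.e (nat_lit 286756) (nat_lit 10) (.e (nat_lit 344169) (nat_lit 40) (.e (nat_lit 671748) (nat_lit 0) (.e (nat_lit 982) (nat_lit 81) .nil)))))))) (.g (nat_lit 5) .nil .nil))) 
(.lf (nat_lit 89573) (.g (nat_lit 2309) (.e (nat_lit 2031) (nat_lit 140) (.e (nat_lit 688177) (nat_lit 16) (.e (nat_lit 65586) (nat_lit 7) (.e (nat_lit 319531) (nat_lit 16) (.e (nat_lit 286747) (nat_lit 9) (.e (nat_lit 335907) (nat_lit 0) (.e (nat_lit 970) (nat_lit 81) (.e (nat_lit 5954) (nat_lit 322) (.e (nat_lit 57345) (nat_lit 0) .nil))))))))) (.g (nat_lit 4) .nil .nil)))) (.nd (nat_lit 5) 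
(.lf (nat_lit 89557) (.g (nat_lit 2566) (.e (nat_lit 2031) (nat_lit 140) (.e (nat_lit 688177) (nat_lit 16) (.e (nat_lit 65586) (nat_lit 7) (.e (nat_lit 319531) (nat_lit 16) (.e (nat_lit 286727) (nat_lit 0) (.e (nat_lit 7936) (nat_lit 364) (.e (nat_lit 245504) (nat_lit 15) .nil))))))) (.g (nat_lit 5) .nil .nil))) 
(.lf (nat_lit 89589) (.g (nat_lit 2864) (.e (nat_lit 2031) (nat_lit 140) (.e (nat_lit 688177) (nat_lit 16) (.e (nat_lit 65586) (nat_lit 7) (.e (nat_lit 319531) (nat_lit 16) (.e (nat_lit 286748) (nat_lit 9) (.e (nat_lit 335888) (nat_lit 0) (.e (nat_lit 1103) (nat_lit 81) (.e (nat_lit 5938) (nat_lit 322) (.e (nat_lit 57348) (nat_lit 0) .nil))))))))) (.g (nat_lit 5) .nil .nil))))) 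
(.nd (nat_lit 4) (.nd (nat_lit 5) 
(.lf (nat_lit 89549) (.g (nat_lit 2675) (.e (nat_lit 2031) (nat_lit 140) (.e (nat_lit 688177) (nat_lit 16) (.e (nat_lit 65586) (nat_lit 7) (.e (nat_lit 319531) (nat_lit 16) (.e (nat_lit 286726) (nat_lit 0) (.e (nat_lit 6676) (nat_lit 357) (.e (nat_lit 2856) (nat_lit 184) (.e (nat_lit 426354) (nat_lit 15) .nil)))))))) (.g (nat_lit 4) .nil .nil))) 
(.lf (nat_lit 89581) (.g (nat_lit 2667) (.e (nat_lit 2031) (nat_lit 140) (.e (nat_lit 688177) (nat_lit 16) (.e (nat_lit 65586) (nat_lit 7) (.e (nat_lit 319531) (nat_lit 16) (.e (nat_lit 286747) (nat_lit 9) (.e (nat_lit 336032) (nat_lit 4) (.e (nat_lit 123197) (nat_lit 266) (.e (nat_lit 57345) (nat_lit 0) .nil)))))))) (.g (nat_lit 4) .nil .nil)))) (.nd (nat_lit 5) 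
(.lf (nat_lit 89565) (.g (nat_lit 2501) (.e (nat_lit 2031) (nat_lit 140) (.e (nat_lit 688177) (nat_lit 16) (.e (nat_lit 65586) (nat_lit 7) (.e (nat_lit 319531) (nat_lit 16) (.e (nat_lit 286742) (nat_lit 9) (.e (nat_lit 336032) (nat_lit 4) (.e (nat_lit 123197) (nat_lit 266) (.e (nat_lit 57349) (nat_lit 0) .nil)))))))) (.g (nat_lit 4) .nil .nil))) 
(.lf (nat_lit 89597) (.g (nat_lit 2653) (.e (nat_lit 2031) (nat_lit 140) (.e (nat_lit 688177) (nat_lit 16) (.e (nat_lit 65586) (nat_lit 7) (.e (nat_lit 319531) (nat_lit 16) (.e (nat_lit 286748) (nat_lit 9) (.e (nat_lit 335891) (nat_lit 0) (.e (nat_lit 1105) (nat_lit 81) (.e (nat_lit 5937) (nat_lit 322) (.e (nat_lit 57345) (nat_lit 0) .nil))))))))) (.g (nat_lit 5) .nil .nil))))))) 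
(.nd (nat_lit 2) (.nd (nat_lit 3) (.nd (nat_lit 4) (.nd (nat_lit 5) 
(.lf (nat_lit 89539) (.g (nat_lit 4579) (.e (nat_lit 2031) (nat_lit 140) (.e (nat_lit 688177) (nat_lit 16) (.e (nat_lit 65583) (nat_lit 7) (.e (nat_lit 319533) (nat_lit 16) (.e (nat_lit 286753) (nat_lit 10) (.e (nat_lit 344169) (nat_lit 40) (.e (nat_lit 671748) (nat_lit 0) (.e (nat_lit 982) (nat_lit 81) .nil)))))))) (.g (nat_lit 6) .nil .nil))) 
(.lf (nat_lit 89571) (.g (nat_lit 4481) (.e (nat_lit 2031) (nat_lit 140) (.e (nat_lit 688177) (nat_lit 16) (.e (nat_lit 65586) (nat_lit 7) (.e (nat_lit 319531) (nat_lit 16) (.e (nat_lit 286745) (nat_lit 9) (.e (nat_lit 335907) (nat_lit 0) (.e (nat_lit 1996) (nat_lit 137) (.e (nat_lit 663554) (nat_lit 0) (.e (nat_lit 982) (nat_lit 81) .nil))))))))) (.g (nat_lit 8) .nil .nil)))) (.nd (nat_lit 5) 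
(.lf (nat_lit 89555) (.g (nat_lit 2660) (.e (nat_lit 2031) (nat_lit 140) (.e (nat_lit 688177) (nat_lit 16) (.e (nat_lit 65586) (nat_lit 7) (.e (nat_lit 319531) (nat_lit 16) (.e (nat_lit 286727) (nat_lit 0) (.e (nat_lit 6671) (nat_lit 357) (.e (nat_lit 2939) (nat_lit 184) (.e (nat_lit 426349) (nat_lit 15) .nil)))))))) (.g (nat_lit 4) .nil .nil))) 
(.lf (nat_lit 89587) (.g (nat_lit 2952) (.e (nat_lit 2031) (nat_lit 140) (.e (nat_lit 688177) (nat_lit 16) (.e (nat_lit 65586) (nat_lit 7) (.e (nat_lit 319531) (nat_lit 16) (.e (nat_lit 286748) (nat_lit 9) (.e (nat_lit 335888) (nat_lit 0) (.e (nat_lit 1103) (nat_lit 81) (.e (nat_lit 5935) (nat_lit 322) (.e (nat_lit 57348) (nat_lit 0) .nil))))))))) (.g (nat_lit 5) .nil .nil))))) 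
(.nd (nat_lit 4) (.nd (nat_lit 5) 
(.lf (nat_lit 89547) (.g (nat_lit 1777) (.e (nat_lit 2031) (nat_lit 140) (.e (nat_lit 688177) (nat_lit 16) (.e (nat_lit 65586) (nat_lit 7) (.e (nat_lit 319531) (nat_lit 16) (.e (nat_lit 286722) (nat_lit 0) .nil))))) .nil)) 
(.lf (nat_lit 89579) (.g (nat_lit 2955) (.e (nat_lit 2031) (nat_lit 140) (.e (nat_lit 688177) (nat_lit 16) (.e (nat_lit 65586) (nat_lit 7) (.e (nat_lit 319531) (nat_lit 16) (.e (nat_lit 286747) (nat_lit 9) (.e (nat_lit 336032) (nat_lit 4) (.e (nat_lit 123195) (nat_lit 266) (.e (nat_lit 57347) (nat_lit 0) .nil)))))))) (.g (nat_lit 4) .nil .nil)))) (.nd (nat_lit 5) 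
(.lf (nat_lit 89563) (.g (nat_lit 2377) (.e (nat_lit 2031) (nat_lit 140) (.e (nat_lit 688177) (nat_lit 16) (.e (nat_lit 65586) (nat_lit 7) (.e (nat_lit 319531) (nat_lit 16) (.e (nat_lit 286742) (nat_lit 9) (.e (nat_lit 336032) (nat_lit 4) (.e (nat_lit 123196) (nat_lit 266) (.e (nat_lit 57345) (nat_lit 0) .nil)))))))) (.g (nat_lit 4) .nil .nil))) 
(.lf (nat_lit 89595) (.g (nat_lit 2878) (.e (nat_lit 2031) (nat_lit 140) (.e (nat_lit 688177) (nat_lit 16) (.e (nat_lit 65586) (nat_lit 7) (.e (nat_lit 319531) (nat_lit 16) (.e (nat_lit 286748) (nat_lit 9) (.e (nat_lit 335889) (nat_lit 0) (.e (nat_lit 1998) (nat_lit 137) (.e (nat_lit 663554) (nat_lit 0) (.e (nat_lit 982) (nat_lit 81) .nil))))))))) (.g (nat_lit 5) .nil .nil)))))) 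
(.nd (nat_lit 3) (.nd (nat_lit 4) (.nd (nat_lit 5) 
(.lf (nat_lit 89543) (.g (nat_lit 2349) (.e (nat_lit 2031) (nat_lit 140) (.e (nat_lit 688177) (nat_lit 16) (.e (nat_lit 65585) (nat_lit 7) (.e (nat_lit 319534) (nat_lit 16) (.e (nat_lit 286756) (nat_lit 10) (.e (nat_lit 344169) (nat_lit 40) (.e (nat_lit 671748) (nat_lit 0) (.e (nat_lit 982) (nat_lit 81) .nil)))))))) (.g (nat_lit 4) .nil .nil))) 
(.lf (nat_lit 89575) (.g (nat_lit 2423) (.e (nat_lit 2031) (nat_lit 140) (.e (nat_lit 688177) (nat_lit 16) (.e (nat_lit 65586) (nat_lit 7) (.e (nat_lit 319531) (nat_lit 16) (.e (nat_lit 286747) (nat_lit 9) (.e (nat_lit 335907) (nat_lit 0) (.e (nat_lit 1994) (nat_lit 137) (.e (nat_lit 663554) (nat_lit 0) (.e (nat_lit 982) (nat_lit 81) .nil))))))))) (.g (nat_lit 4) .nil .nil)))) (.nd (nat_lit 5) 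
(.lf (nat_lit 89559) (.g (nat_lit 2929) (.e (nat_lit 2031) (nat_lit 140) (.e (nat_lit 688177) (nat_lit 16) (.e (nat_lit 65586) (nat_lit 7) (.e (nat_lit 319531) (nat_lit 16) (.e (nat_lit 286740) (nat_lit 7) (.e (nat_lit 319539) (nat_lit 19) (.e (nat_lit 319232) (nat_lit 15) .nil))))))) (.g (nat_lit 6) .nil .nil))) 
(.lf (nat_lit 89591) (.g (nat_lit 4201) (.e (nat_lit 2031) (nat_lit 140) (.e (nat_lit 688177) (nat_lit 16) (.e (nat_lit 65586) (nat_lit 7) (.e (nat_lit 319531) (nat_lit 16) (.e (nat_lit 286748) (nat_lit 9) (.e (nat_lit 335889) (nat_lit 0) (.e (nat_lit 970) (nat_lit 81) (.e (nat_lit 5954) (nat_lit 322) (.e (nat_lit 57349) (nat_lit 0) .nil))))))))) (.g (nat_lit 7) .nil .nil))))) 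
(.nd (nat_lit 4) (.nd (nat_lit 5) 
(.lf (nat_lit 89551) (.g (nat_lit 2712) (.e (nat_lit 2031) (nat_lit 140) (.e (nat_lit 688177) (nat_lit 16) (.e (nat_lit 65586) (nat_lit 7) (.e (nat_lit 319531) (nat_lit 16) (.e (nat_lit 286727) (nat_lit 0) (.e (nat_lit 6150) (nat_lit 332) (.e (nat_lit 1385) (nat_lit 105) (.e (nat_lit 319232) (nat_lit 15) .nil)))))))) (.g (nat_lit 5) .nil .nil))) 
(.lf (nat_lit 89583) (.g (nat_lit 3381) (.e (nat_lit 2031) (nat_lit 140) (.e (nat_lit 688177) (nat_lit 16) (.e (nat_lit 65586) (nat_lit 7) (.e (nat_lit 319531) (nat_lit 16) (.e (nat_lit 286748) (nat_lit 9) (.e (nat_lit 335886) (nat_lit 0) (.e (nat_lit 970) (nat_lit 81) (.e (nat_lit 5954) (nat_lit 322) (.e (nat_lit 57345) (nat_lit 0) .nil))))))))) (.g (nat_lit 5) .nil .nil)))) (.nd (nat_lit 5) 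
(.lf (nat_lit 89567) (.g (nat_lit 2933) (.e (nat_lit 2031) (nat_lit 140) (.e (nat_lit 688177) (nat_lit 16) (.e (nat_lit 65586) (nat_lit 7) (.e (nat_lit 319531) (nat_lit 16) (.e (nat_lit 286743) (nat_lit 9) (.e (nat_lit 336355) (nat_lit 24) (.e (nat_lit 262150) (nat_lit 0) (.e (nat_lit 7936) (nat_lit 81) .nil)))))))) (.g (nat_lit 5) .nil .nil))) 
(.lf (nat_lit 89599) (.g (nat_lit 2287) (.e (nat_lit 2031) (nat_lit 140) (.e (nat_lit 688177) (nat_lit 16) (.e (nat_lit 65586) (nat_lit 7) (.e (nat_lit 319531) (nat_lit 16) (.e (nat_lit 286748) (nat_lit 9) (.e (nat_lit 335891) (nat_lit 0) (.e (nat_lit 1996) (nat_lit 137) (.e (nat_lit 663554) (nat_lit 0) (.e (nat_lit 982) (nat_lit 81) .nil))))))))) (.g (nat_lit 4) .nil .nil)))))))))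

noncomputable def tv1224 : DT := (.nd (nat_lit 0) (.nd (nat_lit 1) (.nd (nat_lit 2) (.nd (nat_lit 3) (.nd (nat_lit 4) (.nd (nat_lit 5) 
(.lf (nat_lit 89600) (.g (nat_lit 3875) (.e (nat_lit 2031) (nat_lit 140) (.e (nat_lit 688177) (nat_lit 16) (.e (nat_lit 65586) (nat_lit 7) (.e (nat_lit 319531) (nat_lit 16) (.e (nat_lit 286748) (nat_lit 9) (.e (nat_lit 335891) (nat_lit 0) (.e (nat_lit 1998) (nat_lit 137) (.e (nat_lit 663554) (nat_lit 0) (.e (nat_lit 982) (nat_lit 81) .nil))))))))) (.g (nat_lit 8) .nil .nil))) 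
(.lf (nat_lit 89632) (.g (nat_lit 1997) (.e (nat_lit 2031) (nat_lit 140) (.e (nat_lit 688177) (nat_lit 16) (.e (nat_lit 65586) (nat_lit 7) (.e (nat_lit 319531) (nat_lit 16) (.e (nat_lit 286748) (nat_lit 9) (.e (nat_lit 336032) (nat_lit 4) (.e (nat_lit 123195) (nat_lit 266) (.e (nat_lit 57349) (nat_lit 0) .nil)))))))) (.g (nat_lit 4) .nil .nil)))) (.nd (nat_lit 5) 
(.lf (nat_lit 89616) (.g (nat_lit 2040) (.e (nat_lit 2031) (nat_lit 140) (.e (nat_lit 688177) (nat_lit 16) (.e (nat_lit 65586) (nat_lit 7) (.e (nat_lit 319531) (nat_lit 16) (.e (nat_lit 286748) (nat_lit 9) (.e (nat_lit 336030) (nat_lit 4) (.e (nat_lit 123197) (nat_lit 266) (.e (nat_lit 57349) (nat_lit 0) .nil)))))))) (.g (nat_lit 4) .nil .nil))) 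
(.lf (nat_lit 89648) (.g (nat_lit 1878) (.e (nat_lit 2031) (nat_lit 140) (.e (nat_lit 688177) (nat_lit 16) (.e (nat_lit 65586) (nat_lit 7) (.e (nat_lit 319531) (nat_lit 16) (.e (nat_lit 286748) (nat_lit 9) (.e (nat_lit 336295) (nat_lit 15) (.e (nat_lit 3617) (nat_lit 227) (.e (nat_lit 778275) (nat_lit 0) (.e (nat_lit 7936) (nat_lit 81) .nil))))))))) (.g (nat_lit 4) .nil .nil))))) 
(.nd (nat_lit 4) (.nd (nat_lit 5) 
(.lf (nat_lit 89608) (.g (nat_lit 4748) (.e (nat_lit 2031) (nat_lit 140) (.e (nat_lit 688177) (nat_lit 16) (.e (nat_lit 65586) (nat_lit 7) (.e (nat_lit 319531) (nat_lit 16) (.e (nat_lit 286748) (nat_lit 9) (.e (nat_lit 335907) (nat_lit 0) (.e (nat_lit 1996) (nat_lit 137) (.e (nat_lit 663554) (nat_lit 0) (.e (nat_lit 982) (nat_lit 81) .nil))))))))) (.g (nat_lit 8) .nil .nil))) 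
(.lf (nat_lit 89640) (.g (nat_lit 2630) (.e (nat_lit 2031) (nat_lit 140) (.e (nat_lit 688177) (nat_lit 16) (.e (nat_lit 65586) (nat_lit 7) (.e (nat_lit 319531) (nat_lit 16) (.e (nat_lit 286748) (nat_lit 9) (.e (nat_lit 336034) (nat_lit 4) (.e (nat_lit 123195) (nat_lit 266) (.e (nat_lit 57344) (nat_lit 0) .nil)))))))) (.g (nat_lit 4) .nil .nil)))) (.nd (nat_lit 5) 
(.lf (nat_lit 89624) (.g (nat_lit 2014) (.e (nat_lit 2031) (nat_lit 140) (.e (nat_lit 688177) (nat_lit 16) (.e (nat_lit 65586) (nat_lit 7) (.e (nat_lit 319531) (nat_lit 16) (.e (nat_lit 286748) (nat_lit 9) (.e (nat_lit 336031) (nat_lit 4) (.e (nat_lit 123196) (nat_lit 266) (.e (nat_lit 57345) (nat_lit 0) .nil)))))))) (.g (nat_lit 4) .nil .nil))) 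
(.lf (nat_lit 89656) (.g (nat_lit 2809) (.e (nat_lit 2031) (nat_lit 140) (.e (nat_lit 688177) (nat_lit 16) (.e (nat_lit 65586) (nat_lit 7) (.e (nat_lit 319531) (nat_lit 16) (.e (nat_lit 286748) (nat_lit 9) (.e (nat_lit 336295) (nat_lit 15) (.e (nat_lit 3629) (nat_lit 227) (.e (nat_lit 778297) (nat_lit 0) (.e (nat_lit 992) (nat_lit 81) .nil))))))))) (.g (nat_lit 5) .nil .nil)))))) 
(.nd (nat_lit 3) (.nd (nat_lit 4) (.nd (nat_lit 5) 
(.lf (nat_lit 89604) (.g (nat_lit 3094) (.e (nat_lit 2031) (nat_lit 140) (.e (nat_lit 688177) (nat_lit 16) (.e (nat_lit 65586) (nat_lit 7) (.e (nat_lit 319531) (nat_lit 16) (.e (nat_lit 286748) (nat_lit 9) (.e (nat_lit 335905) (nat_lit 0) (.e (nat_lit 1998) (nat_lit 137) (.e (nat_lit 663554) (nat_lit 0) (.e (nat_lit 982) (nat_lit 81) .nil))))))))) (.g (nat_lit 5) .nil .nil))) 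
(.lf (nat_lit 89636) (.g (nat_lit 2860) (.e (nat_lit 2031) (nat_lit 140) (.e (nat_lit 688177) (nat_lit 16) (.e (nat_lit 65586) (nat_lit 7) (.e (nat_lit 319531) (nat_lit 16) (.e (nat_lit 286748) (nat_lit 9) (.e (nat_lit 336032) (nat_lit 4) (.e (nat_lit 123197) (nat_lit 266) (.e (nat_lit 57349) (nat_lit 0) .nil)))))))) (.g (nat_lit 5) .nil .nil)))) (.nd (nat_lit 5) 
(.lf (nat_lit 89620) (.g (nat_lit 3195) (.e (nat_lit 2031) (nat_lit 140) (.e (nat_lit 688177) (nat_lit 16) (.e (nat_lit 65586) (nat_lit 7) (.e (nat_lit 319531) (nat_lit 16) (.e (nat_lit 286748) (nat_lit 9) (.e (nat_lit 336031) (nat_lit 4) (.e (nat_lit 123194) (nat_lit 266) (.e (nat_lit 57348) (nat_lit 0) .nil)))))))) (.g (nat_lit 6) .nil .nil))) 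
(.lf (nat_lit 89652) (.g (nat_lit 2473) (.e (nat_lit 2031) (nat_lit 140) (.e (nat_lit 688177) (nat_lit 16) (.e (nat_lit 65586) (nat_lit 7) (.e (nat_lit 319531) (nat_lit 16) (.e (nat_lit 286748) (nat_lit 9) (.e (nat_lit 336295) (nat_lit 15) (.e (nat_lit 3629) (nat_lit 227) (.e (nat_lit 778295) (nat_lit 0) (.e (nat_lit 988) (nat_lit 81) .nil))))))))) (.g (nat_lit 4) .nil .nil))))) 
(.nd (nat_lit 4) (.nd (nat_lit 5) 
(.lf (nat_lit 89612) (.g (nat_lit 3438) (.e (nat_lit 2031) (nat_lit 140) (.e (nat_lit 688177) (nat_lit 16) (.e (nat_lit 65586) (nat_lit 7) (.e (nat_lit 319531) (nat_lit 16) (.e (nat_lit 286748) (nat_lit 9) (.e (nat_lit 336030) (nat_lit 4) (.e (nat_lit 123195) (nat_lit 266) (.e (nat_lit 57345) (nat_lit 0) .nil)))))))) (.g (nat_lit 7) .nil .nil))) 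
(.lf (nat_lit 89644) (.g (nat_lit 2201) (.e (nat_lit 2031) (nat_lit 140) (.e (nat_lit 688177) (nat_lit 16) (.e (nat_lit 65586) (nat_lit 7) (.e (nat_lit 319531) (nat_lit 16) (.e (nat_lit 286748) (nat_lit 9) (.e (nat_lit 336034) (nat_lit 4) (.e (nat_lit 123198) (nat_lit 266) (.e (nat_lit 57344) (nat_lit 0) .nil)))))))) (.g (nat_lit 4) .nil .nil)))) (.nd (nat_lit 5) 
(.lf (nat_lit 89628) (.g (nat_lit 3410) (.e (nat_lit 2031) (nat_lit 140) (.e (nat_lit 688177) (nat_lit 16) (.e (nat_lit 65586) (nat_lit 7) (.e (nat_lit 319531) (nat_lit 16) (.e (nat_lit 286748) (nat_lit 9) (.e (nat_lit 336031) (nat_lit 4) (.e (nat_lit 123198) (nat_lit 266) (.e (nat_lit 57347) (nat_lit 0) .nil)))))))) (.g (nat_lit 6) .nil .nil))) 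
(.lf (nat_lit 89660) (.g (nat_lit 1991) (.e (nat_lit 2031) (nat_lit 140) (.e (nat_lit 688177) (nat_lit 16) (.e (nat_lit 65586) (nat_lit 7) (.e (nat_lit 319531) (nat_lit 16) (.e (nat_lit 286748) (nat_lit 9) (.e (nat_lit 336295) (nat_lit 15) (.e (nat_lit 3630) (nat_lit 227) (.e (nat_lit 778251) (nat_lit 0) (.e (nat_lit 982) (nat_lit 81) .nil))))))))) (.g (nat_lit 4) .nil .nil))))))) 
(.nd (nat_lit 2) (.nd (nat_lit 3) (.nd (nat_lit 4) (.nd (nat_lit 5) 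
(.lf (nat_lit 89602) (.g (nat_lit 2340) (.e (nat_lit 2031) (nat_lit 140) (.e (nat_lit 688177) (nat_lit 16) (.e (nat_lit 65586) (nat_lit 7) (.e (nat_lit 319531) (nat_lit 16) (.e (nat_lit 286748) (nat_lit 9) (.e (nat_lit 335905) (nat_lit 0) (.e (nat_lit 1105) (nat_lit 81) (.e (nat_lit 5937) (nat_lit 322) (.e (nat_lit 57348) (nat_lit 0) .nil))))))))) (.g (nat_lit 4) .nil .nil))) 
(.lf (nat_lit 89634) (.g (nat_lit 2908) (.e (nat_lit 2031) (nat_lit 140) (.e (nat_lit 688177) (nat_lit 16) (.e (nat_lit 65586) (nat_lit 7) (.e (nat_lit 319531) (nat_lit 16) (.e (nat_lit 286748) (nat_lit 9) (.e (nat_lit 336032) (nat_lit 4) (.e (nat_lit 123197) (nat_lit 266) (.e (nat_lit 57344) (nat_lit 0) .nil)))))))) (.g (nat_lit 4) .nil .nil)))) (.nd (nat_lit 5) 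
(.lf (nat_lit 89618) (.g (nat_lit 2358) (.e (nat_lit 2031) (nat_lit 140) (.e (nat_lit 688177) (nat_lit 16) (.e (nat_lit 65586) (nat_lit 7) (.e (nat_lit 319531) (nat_lit 16) (.e (nat_lit 286748) (nat_lit 9) (.e (nat_lit 336030) (nat_lit 4) (.e (nat_lit 123198) (nat_lit 266) (.e (nat_lit 57345) (nat_lit 0) .nil)))))))) (.g (nat_lit 4) .nil .nil))) 
(.lf (nat_lit 89650) (.g (nat_lit 2128) (.e (nat_lit 2031) (nat_lit 140) (.e (nat_lit 688177) (nat_lit 16) (.e (nat_lit 65586) (nat_lit 7) (.e (nat_lit 319531) (nat_lit 16) (.e (nat_lit 286748) (nat_lit 9) (.e (nat_lit 336295) (nat_lit 15) (.e (nat_lit 3617) (nat_lit 227) (.e (nat_lit 778295) (nat_lit 0) (.e (nat_lit 994) (nat_lit 81) .nil))))))))) (.g (nat_lit 4) .nil .nil))))) 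
(.nd (nat_lit 4) (.nd (nat_lit 5) 
(.lf (nat_lit 89610) (.g (nat_lit 3373) (.e (nat_lit 2031) (nat_lit 140) (.e (nat_lit 688177) (nat_lit 16) (.e (nat_lit 65586) (nat_lit 7) (.e (nat_lit 319531) (nat_lit 16) (.e (nat_lit 286748) (nat_lit 9) (.e (nat_lit 336030) (nat_lit 4) (.e (nat_lit 123194) (nat_lit 266) (.e (nat_lit 57347) (nat_lit 0) .nil)))))))) (.g (nat_lit 6) .nil .nil))) 
(.lf (nat_lit 89642) (.g (nat_lit 2348) (.e (nat_lit 2031) (nat_lit 140) (.e (nat_lit 688177) (nat_lit 16) (.e (nat_lit 65586) (nat_lit 7) (.e (nat_lit 319531) (nat_lit 16) (.e (nat_lit 286748) (nat_lit 9) (.e (nat_lit 336034) (nat_lit 4) (.e (nat_lit 123196) (nat_lit 266) (.e (nat_lit 57345) (nat_lit 0) .nil)))))))) (.g (nat_lit 4) .nil .nil)))) (.nd (nat_lit 5) 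
(.lf (nat_lit 89626) (.g (nat_lit 2266) (.e (nat_lit 2031) (nat_lit 140) (.e (nat_lit 688177) (nat_lit 16) (.e (nat_lit 65586) (nat_lit 7) (.e (nat_lit 319531) (nat_lit 16) (.e (nat_lit 286748) (nat_lit 9) (.e (nat_lit 336031) (nat_lit 4) (.e (nat_lit 123198) (nat_lit 266) (.e (nat_lit 57344) (nat_lit 0) .nil)))))))) (.g (nat_lit 4) .nil .nil))) 
(.lf (nat_lit 89658) (.g (nat_lit 2787) (.e (nat_lit 2031) (nat_lit 140) (.e (nat_lit 688177) (nat_lit 16) (.e (nat_lit 65586) (nat_lit 7) (.e (nat_lit 319531) (nat_lit 16) (.e (nat_lit 286748) (nat_lit 9) (.e (nat_lit 336295) (nat_lit 15) (.e (nat_lit 3629) (nat_lit 227) (.e (nat_lit 786176) (nat_lit 0) (.e (nat_lit 999) (nat_lit 81) .nil))))))))) (.g (nat_lit 4) .nil .nil)))))) 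
(.nd (nat_lit 3) (.nd (nat_lit 4) (.nd (nat_lit 5) 
(.lf (nat_lit 89606) (.g (nat_lit 4257) (.e (nat_lit 2031) (nat_lit 140) (.e (nat_lit 688177) (nat_lit 16) (.e (nat_lit 65586) (nat_lit 7) (.e (nat_lit 319531) (nat_lit 16) (.e (nat_lit 286748) (nat_lit 9) (.e (nat_lit 335907) (nat_lit 0) (.e (nat_lit 970) (nat_lit 81) (.e (nat_lit 5954) (nat_lit 322) (.e (nat_lit 57349) (nat_lit 0) .nil))))))))) (.g (nat_lit 7) .nil .nil))) 
(.lf (nat_lit 89638) (.g (nat_lit 2421) (.e (nat_lit 2031) (nat_lit 140) (.e (nat_lit 688177) (nat_lit 16) (.e (nat_lit 65586) (nat_lit 7) (.e (nat_lit 319531) (nat_lit 16) (.e (nat_lit 286748) (nat_lit 9) (.e (nat_lit 336032) (nat_lit 4) (.e (nat_lit 123198) (nat_lit 266) (.e (nat_lit 65280) (nat_lit 0) .nil)))))))) (.g (nat_lit 5) .nil .nil)))) (.nd (nat_lit 5) 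
(.lf (nat_lit 89622) (.g (nat_lit 3930) (.e (nat_lit 2031) (nat_lit 140) (.e (nat_lit 688177) (nat_lit 16) (.e (nat_lit 65586) (nat_lit 7) (.e (nat_lit 319531) (nat_lit 16) (.e (nat_lit 286748) (nat_lit 9) (.e (nat_lit 336031) (nat_lit 4) (.e (nat_lit 123195) (nat_lit 266) (.e (nat_lit 57345) (nat_lit 0) .nil)))))))) (.g (nat_lit 7) .nil .nil))) 
(.lf (nat_lit 89654) (.g (nat_lit 1997) (.e (nat_lit 2031) (nat_lit 140) (.e (nat_lit 688177) (nat_lit 16) (.e (nat_lit 65586) (nat_lit 7) (.e (nat_lit 319531) (nat_lit 16) (.e (nat_lit 286748) (nat_lit 9) (.e (nat_lit 336295) (nat_lit 15) (.e (nat_lit 3629) (nat_lit 227) (.e (nat_lit 778295) (nat_lit 0) (.e (nat_lit 994) (nat_lit 81) .nil))))))))) (.g (nat_lit 4) .nil .nil))))) 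
(.nd (nat_lit 4) (.nd (nat_lit 5) 
(.lf (nat_lit 89614) (.g (nat_lit 3255) (.e (nat_lit 2031) (nat_lit 140) (.e (nat_lit 688177) (nat_lit 16) (.e (nat_lit 65586) (nat_lit 7) (.e (nat_lit 319531) (nat_lit 16) (.e (nat_lit 286748) (nat_lit 9) (.e (nat_lit 336030) (nat_lit 4) (.e (nat_lit 123196) (nat_lit 266) (.e (nat_lit 57347) (nat_lit 0) .nil)))))))) (.g (nat_lit 6) .nil .nil))) 
(.lf (nat_lit 89646) (.g (nat_lit 3345) (.e (nat_lit 2031) (nat_lit 140) (.e (nat_lit 688177) (nat_lit 16) (.e (nat_lit 65586) (nat_lit 7) (.e (nat_lit 319531) (nat_lit 16) (.e (nat_lit 286748) (nat_lit 9) (.e (nat_lit 336034) (nat_lit 4) (.e (nat_lit 123198) (nat_lit 266) (.e (nat_lit 57347) (nat_lit 0) .nil)))))))) (.g (nat_lit 5) .nil .nil)))) (.nd (nat_lit 5) 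
(.lf (nat_lit 89630) (.g (nat_lit 3047) (.e (nat_lit 2031) (nat_lit 140) (.e (nat_lit 688177) (nat_lit 16) (.e (nat_lit 65586) (nat_lit 7) (.e (nat_lit 319531) (nat_lit 16) (.e (nat_lit 286748) (nat_lit 9) (.e (nat_lit 336032) (nat_lit 4) (.e (nat_lit 123194) (nat_lit 266) (.e (nat_lit 57348) (nat_lit 0) .nil)))))))) (.g (nat_lit 6) .nil .nil))) 
(.lf (nat_lit 89662) (.g (nat_lit 3393) (.e (nat_lit 2031) (nat_lit 140) (.e (nat_lit 688177) (nat_lit 16) (.e (nat_lit 65586) (nat_lit 7) (.e (nat_lit 319531) (nat_lit 16) (.e (nat_lit 286748) (nat_lit 9) (.e (nat_lit 336295) (nat_lit 15) (.e (nat_lit 3630) (nat_lit 227) (.e (nat_lit 778295) (nat_lit 0) (.e (nat_lit 993) (nat_lit 81) .nil))))))))) (.g (nat_lit 6) .nil .nil)))))))) 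
(.nd (nat_lit 1) (.nd (nat_lit 2) (.nd (nat_lit 3) (.nd (nat_lit 4) (.nd (nat_lit 5) 
(.lf (nat_lit 89601) (.g (nat_lit 2782) (.e (nat_lit 2031) (nat_lit 140) (.e (nat_lit 688177) (nat_lit 16) (.e (nat_lit 65586) (nat_lit 7) (.e (nat_lit 319531) (nat_lit 16) (.e (nat_lit 286748) (nat_lit 9) (.e (nat_lit 335901) (nat_lit 0) (.e (nat_lit 1106) (nat_lit 81) (.e (nat_lit 5936) (nat_lit 322) (.e (nat_lit 57348) (nat_lit 0) .nil))))))))) (.g (nat_lit 5) .nil .nil))) 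
(.lf (nat_lit 89633) (.g (nat_lit 2660) (.e (nat_lit 2031) (nat_lit 140) (.e (nat_lit 688177) (nat_lit 16) (.e (nat_lit 65586) (nat_lit 7) (.e (nat_lit 319531) (nat_lit 16) (.e (nat_lit 286748) (nat_lit 9) (.e (nat_lit 336032) (nat_lit 4) (.e (nat_lit 123196) (nat_lit 266) (.e (nat_lit 57345) (nat_lit 0) .nil)))))))) (.g (nat_lit 5) .nil .nil)))) (.nd (nat_lit 5) 
(.lf (nat_lit 89617) (.g (nat_lit 2289) (.e (nat_lit 2031) (nat_lit 140) (.e (nat_lit 688177) (nat_lit 16) (.e (nat_lit 65586) (nat_lit 7) (.e (nat_lit 319531) (nat_lit 16) (.e (nat_lit 286748) (nat_lit 9) (.e (nat_lit 336030) (nat_lit 4) (.e (nat_lit 123198) (nat_lit 266) (.e (nat_lit 57344) (nat_lit 0) .nil)))))))) (.g (nat_lit 4) .nil .nil))) 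
(.lf (nat_lit 89649) (.g (nat_lit 2193) (.e (nat_lit 2031) (nat_lit 140) (.e (nat_lit 688177) (nat_lit 16) (.e (nat_lit 65586) (nat_lit 7) (.e (nat_lit 319531) (nat_lit 16) (.e (nat_lit 286748) (nat_lit 9) (.e (nat_lit 336295) (nat_lit 15) (.e (nat_lit 3617) (nat_lit 227) (.e (nat_lit 778295) (nat_lit 0) (.e (nat_lit 992) (nat_lit 81) .nil))))))))) (.g (nat_lit 4) .nil .nil))))) 
(.nd (nat_lit 4) (.nd (nat_lit 5) 
(.lf (nat_lit 89609) (.g (nat_lit 2624) (.e (nat_lit 2031) (nat_lit 140) (.e (nat_lit 688177) (nat_lit 16) (.e (nat_lit 65586) (nat_lit 7) (.e (nat_lit 319531) (nat_lit 16) (.e (nat_lit 286748) (nat_lit 9) (.e (nat_lit 335908) (nat_lit 0) (.e (nat_lit 1998) (nat_lit 137) (.e (nat_lit 663554) (nat_lit 0) (.e (nat_lit 982) (nat_lit 81) .nil))))))))) (.g (nat_lit 5) .nil .nil))) 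
(.lf (nat_lit 89641) (.g (nat_lit 2762) (.e (nat_lit 2031) (nat_lit 140) (.e (nat_lit 688177) (nat_lit 16) (.e (nat_lit 65586) (nat_lit 7) (.e (nat_lit 319531) (nat_lit 16) (.e (nat_lit 286748) (nat_lit 9) (.e (nat_lit 336034) (nat_lit 4) (.e (nat_lit 123195) (nat_lit 266) (.e (nat_lit 57349) (nat_lit 0) .nil)))))))) (.g (nat_lit 5) .nil .nil)))) (.nd (nat_lit 5) 
(.lf (nat_lit 89625) (.g (nat_lit 3638) (.e (nat_lit 2031) (nat_lit 140) (.e (nat_lit 688177) (nat_lit 16) (.e (nat_lit 65586) (nat_lit 7) (.e (nat_lit 319531) (nat_lit 16) (.e (nat_lit 286748) (nat_lit 9) (.e (nat_lit 336031) (nat_lit 4) (.e (nat_lit 123197) (nat_lit 266) (.e (nat_lit 57345) (nat_lit 0) .nil)))))))) (.g (nat_lit 7) .nil .nil))) 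
(.lf (nat_lit 89657) (.g (nat_lit 3452) (.e (nat_lit 2031) (nat_lit 140) (.e (nat_lit 688177) (nat_lit 16) (.e (nat_lit 65586) (nat_lit 7) (.e (nat_lit 319531) (nat_lit 16) (.e (nat_lit 286748) (nat_lit 9) (.e (nat_lit 336295) (nat_lit 15) (.e (nat_lit 3629) (nat_lit 227) (.e (nat_lit 778297) (nat_lit 0) (.e (nat_lit 993) (nat_lit 81) .nil))))))))) (.g (nat_lit 6) .nil .nil)))))) 
(.nd (nat_lit 3) (.nd (nat_lit 4) (.nd (nat_lit 5) 
(.lf (nat_lit 89605) (.g (nat_lit 4805) (.e (nat_lit 2031) (nat_lit 140) (.e (nat_lit 688177) (nat_lit 16) (.e (nat_lit 65586) (nat_lit 7) (.e (nat_lit 319531) (nat_lit 16) (.e (nat_lit 286748) (nat_lit 9) (.e (nat_lit 335907) (nat_lit 0) (.e (nat_lit 970) (nat_lit 81) (.e (nat_lit 5954) (nat_lit 322) (.e (nat_lit 57345) (nat_lit 0) .nil))))))))) (.g (nat_lit 8) .nil .nil))) 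
(.lf (nat_lit 89637) (.g (nat_lit 2844) (.e (nat_lit 2031) (nat_lit 140) (.e (nat_lit 688177) (nat_lit 16) (.e (nat_lit 65586) (nat_lit 7) (.e (nat_lit 319531) (nat_lit 16) (.e (nat_lit 286748) (nat_lit 9) (.e (nat_lit 336032) (nat_lit 4) (.e (nat_lit 123198) (nat_lit 266) (.e (nat_lit 57347) (nat_lit 0) .nil)))))))) (.g (nat_lit 5) .nil .nil)))) (.nd (nat_lit 5) 
(.lf (nat_lit 89621) (.g (nat_lit 2410) (.e (nat_lit 2031) (nat_lit 140) (.e (nat_lit 688177) (nat_lit 16) (.e (nat_lit 65586) (nat_lit 7) (.e (nat_lit 319531) (nat_lit 16) (.e (nat_lit 286748) (nat_lit 9) (.e (nat_lit 336031) (nat_lit 4) (.e (nat_lit 123195) (nat_lit 266) (.e (nat_lit 57344) (nat_lit 0) .nil)))))))) (.g (nat_lit 4) .nil .nil))) 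
(.lf (nat_lit 89653) (.g (nat_lit 2062) (.e (nat_lit 2031) (nat_lit 140) (.e (nat_lit 688177) (nat_lit 16) (.e (nat_lit 65586) (nat_lit 7) (.e (nat_lit 319531) (nat_lit 16) (.e (nat_lit 286748) (nat_lit 9) (.e (nat_lit 336295) (nat_lit 15) (.e (nat_lit 3629) (nat_lit 227) (.e (nat_lit 778295) (nat_lit 0) (.e (nat_lit 992) (nat_lit 81) .nil))))))))) (.g (nat_lit 4) .nil .nil))))) 
(.nd (nat_lit 4) (.nd (nat_lit 5) 
(.lf (nat_lit 89613) (.g (nat_lit 2075) (.e (nat_lit 2031) (nat_lit 140) (.e (nat_lit 688177) (nat_lit 16) (.e (nat_lit 65586) (nat_lit 7) (.e (nat_lit 319531) (nat_lit 16) (.e (nat_lit 286748) (nat_lit 9) (.e (nat_lit 336030) (nat_lit 4) (.e (nat_lit 123195) (nat_lit 266) (.e (nat_lit 57349) (nat_lit 0) .nil)))))))) (.g (nat_lit 4) .nil .nil))) 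
(.lf (nat_lit 89645) (.g (nat_lit 2246) (.e (nat_lit 2031) (nat_lit 140) (.e (nat_lit 688177) (nat_lit 16) (.e (nat_lit 65586) (nat_lit 7) (.e (nat_lit 319531) (nat_lit 16) (.e (nat_lit 286748) (nat_lit 9) (.e (nat_lit 336034) (nat_lit 4) (.e (nat_lit 123198) (nat_lit 266) (.e (nat_lit 57345) (nat_lit 0) .nil)))))))) (.g (nat_lit 4) .nil .nil)))) (.nd (nat_lit 5) 
(.lf (nat_lit 89629) (.g (nat_lit 2987) (.e (nat_lit 2031) (nat_lit 140) (.e (nat_lit 688177) (nat_lit 16) (.e (nat_lit 65586) (nat_lit 7) (.e (nat_lit 319531) (nat_lit 16) (.e (nat_lit 286748) (nat_lit 9) (.e (nat_lit 336031) (nat_lit 4) (.e (nat_lit 123198) (nat_lit 266) (.e (nat_lit 65280) (nat_lit 0) .nil)))))))) (.g (nat_lit 7) .nil .nil))) 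
(.lf (nat_lit 89661) (.g (nat_lit 3248) (.e (nat_lit 2031) (nat_lit 140) (.e (nat_lit 688177) (nat_lit 16) (.e (nat_lit 65586) (nat_lit 7) (.e (nat_lit 319531) (nat_lit 16) (.e (nat_lit 286748) (nat_lit 9) (.e (nat_lit 336295) (nat_lit 15) (.e (nat_lit 3630) (nat_lit 227) (.e (nat_lit 778295) (nat_lit 0) (.e (nat_lit 988) (nat_lit 81) .nil))))))))) (.g (nat_lit 6) .nil .nil))))))) 
(.nd (nat_lit 2) (.nd (nat_lit 3) (.nd (nat_lit 4) (.nd (nat_lit 5) 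
(.lf (nat_lit 89603) (.g (nat_lit 2372) (.e (nat_lit 2031) (nat_lit 140) (.e (nat_lit 688177) (nat_lit 16) (.e (nat_lit 65586) (nat_lit 7) (.e (nat_lit 319531) (nat_lit 16) (.e (nat_lit 286748) (nat_lit 9) (.e (nat_lit 335905) (nat_lit 0) (.e (nat_lit 1996) (nat_lit 137) (.e (nat_lit 663554) (nat_lit 0) (.e (nat_lit 982) (nat_lit 81) .nil))))))))) (.g (nat_lit 4) .nil .nil))) 
(.lf (nat_lit 89635) (.g (nat_lit 3826) (.e (nat_lit 2031) (nat_lit 140) (.e (nat_lit 688177) (nat_lit 16) (.e (nat_lit 65586) (nat_lit 7) (.e (nat_lit 319531) (nat_lit 16) (.e (nat_lit 286748) (nat_lit 9) (.e (nat_lit 336032) (nat_lit 4) (.e (nat_lit 123197) (nat_lit 266) (.e (nat_lit 57345) (nat_lit 0) .nil)))))))) (.g (nat_lit 8) .nil .nil)))) (.nd (nat_lit 5) 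
(.lf (nat_lit 89619) (.g (nat_lit 3013) (.e (nat_lit 2031) (nat_lit 140) (.e (nat_lit 688177) (nat_lit 16) (.e (nat_lit 65586) (nat_lit 7) (.e (nat_lit 319531) (nat_lit 16) (.e (nat_lit 286748) (nat_lit 9) (.e (nat_lit 336030) (nat_lit 4) (.e (nat_lit 123198) (nat_lit 266) (.e (nat_lit 65280) (nat_lit 0) .nil)))))))) (.g (nat_lit 7) .nil .nil))) 
(.lf (nat_lit 89651) (.g (nat_lit 4367) (.e (nat_lit 2031) (nat_lit 140) (.e (nat_lit 688177) (nat_lit 16) (.e (nat_lit 65586) (nat_lit 7) (.e (nat_lit 319531) (nat_lit 16) (.e (nat_lit 286748) (nat_lit 9) (.e (nat_lit 336295) (nat_lit 15) (.e (nat_lit 3617) (nat_lit 227) (.e (nat_lit 786176) (nat_lit 0) (.e (nat_lit 999) (nat_lit 81) .nil))))))))) (.g (nat_lit 6) .nil .nil))))) 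
(.nd (nat_lit 4) (.nd (nat_lit 5) 
(.lf (nat_lit 89611) (.g (nat_lit 2428) (.e (nat_lit 2031) (nat_lit 140) (.e (nat_lit 688177) (nat_lit 16) (.e (nat_lit 65586) (nat_lit 7) (.e (nat_lit 319531) (nat_lit 16) (.e (nat_lit 286748) (nat_lit 9) (.e (nat_lit 336030) (nat_lit 4) (.e (nat_lit 123194) (nat_lit 266) (.e (nat_lit 57348) (nat_lit 0) .nil)))))))) (.g (nat_lit 5) .nil .nil))) 
(.lf (nat_lit 89643) (.g (nat_lit 3644) (.e (nat_lit 2031) (nat_lit 140) (.e (nat_lit 688177) (nat_lit 16) (.e (nat_lit 65586) (nat_lit 7) (.e (nat_lit 319531) (nat_lit 16) (.e (nat_lit 286748) (nat_lit 9) (.e (nat_lit 336034) (nat_lit 4) (.e (nat_lit 123197) (nat_lit 266) (.e (nat_lit 57345) (nat_lit 0) .nil)))))))) (.g (nat_lit 7) .nil .nil)))) (.nd (nat_lit 5) 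
(.lf (nat_lit 89627) (.g (nat_lit 2311) (.e (nat_lit 2031) (nat_lit 140) (.e (nat_lit 688177) (nat_lit 16) (.e (nat_lit 65586) (nat_lit 7) (.e (nat_lit 319531) (nat_lit 16) (.e (nat_lit 286748) (nat_lit 9) (.e (nat_lit 336031) (nat_lit 4) (.e (nat_lit 123198) (nat_lit 266) (.e (nat_lit 57345) (nat_lit 0) .nil)))))))) (.g (nat_lit 4) .nil .nil))) 
(.lf (nat_lit 89659) (.g (nat_lit 1852) (.e (nat_lit 2031) (nat_lit 140) (.e (nat_lit 688177) (nat_lit 16) (.e (nat_lit 65586) (nat_lit 7) (.e (nat_lit 319531) (nat_lit 16) (.e (nat_lit 286748) (nat_lit 9) (.e (nat_lit 336295) (nat_lit 15) (.e (nat_lit 3630) (nat_lit 227) (.e (nat_lit 778248) (nat_lit 0) (.e (nat_lit 982) (nat_lit 81) .nil))))))))) (.g (nat_lit 4) .nil .nil)))))) 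
(.nd (nat_lit 3) (.nd (nat_lit 4) (.nd (nat_lit 5) 
(.lf (nat_lit 89607) (.g (nat_lit 3973) (.e (nat_lit 2031) (nat_lit 140) (.e (nat_lit 688177) (nat_lit 16) (.e (nat_lit 65586) (nat_lit 7) (.e (nat_lit 319531) (nat_lit 16) (.e (nat_lit 286748) (nat_lit 9) (.e (nat_lit 335907) (nat_lit 0) (.e (nat_lit 1994) (nat_lit 137) (.e (nat_lit 663554) (nat_lit 0) (.e (nat_lit 982) (nat_lit 81) .nil))))))))) (.g (nat_lit 6) .nil .nil))) 
(.lf (nat_lit 89639) (.g (nat_lit 2064) (.e (nat_lit 2031) (nat_lit 140) (.e (nat_lit 688177) (nat_lit 16) (.e (nat_lit 65586) (nat_lit 7) (.e (nat_lit 319531) (nat_lit 16) (.e (nat_lit 286748) (nat_lit 9) (.e (nat_lit 336034) (nat_lit 4) (.e (nat_lit 123194) (nat_lit 266) (.e (nat_lit 57345) (nat_lit 0) .nil)))))))) (.g (nat_lit 4) .nil .nil)))) (.nd (nat_lit 5) 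
(.lf (nat_lit 89623) (.g (nat_lit 2542) (.e (nat_lit 2031) (nat_lit 140) (.e (nat_lit 688177) (nat_lit 16) (.e (nat_lit 65586) (nat_lit 7) (.e (nat_lit 319531) (nat_lit 16) (.e (nat_lit 286748) (nat_lit 9) (.e (nat_lit 336031) (nat_lit 4) (.e (nat_lit 123195) (nat_lit 266) (.e (nat_lit 57349) (nat_lit 0) .nil)))))))) (.g (nat_lit 4) .nil .nil))) 
(.lf (nat_lit 89655) (.g (nat_lit 3120) (.e (nat_lit 2031) (nat_lit 140) (.e (nat_lit 688177) (nat_lit 16) (.e (nat_lit 65586) (nat_lit 7) (.e (nat_lit 319531) (nat_lit 16) (.e (nat_lit 286748) (nat_lit 9) (.e (nat_lit 336295) (nat_lit 15) (.e (nat_lit 3629) (nat_lit 227) (.e (nat_lit 778297) (nat_lit 0) (.e (nat_lit 988) (nat_lit 81) .nil))))))))) (.g (nat_lit 6) .nil .nil))))) 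
(.nd (nat_lit 4) (.nd (nat_lit 5) 
(.lf (nat_lit 89615) (.g (nat_lit 3428) (.e (nat_lit 2031) (nat_lit 140) (.e (nat_lit 688177) (nat_lit 16) (.e (nat_lit 65586) (nat_lit 7) (.e (nat_lit 319531) (nat_lit 16) (.e (nat_lit 286748) (nat_lit 9) (.e (nat_lit 336030) (nat_lit 4) (.e (nat_lit 123197) (nat_lit 266) (.e (nat_lit 57345) (nat_lit 0) .nil)))))))) (.g (nat_lit 7) .nil .nil))) 
(.lf (nat_lit 89647) (.g (nat_lit 2922) (.e (nat_lit 2031) (nat_lit 140) (.e (nat_lit 688177) (nat_lit 16) (.e (nat_lit 65586) (nat_lit 7) (.e (nat_lit 319531) (nat_lit 16) (.e (nat_lit 286748) (nat_lit 9) (.e (nat_lit 336034) (nat_lit 4) (.e (nat_lit 123198) (nat_lit 266) (.e (nat_lit 65280) (nat_lit 0) .nil)))))))) (.g (nat_lit 7) .nil .nil)))) (.nd (nat_lit 5) 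
(.lf (nat_lit 89631) (.g (nat_lit 3385) (.e (nat_lit 2031) (nat_lit 140) (.e (nat_lit 688177) (nat_lit 16) (.e (nat_lit 65586) (nat_lit 7) (.e (nat_lit 319531) (nat_lit 16) (.e (nat_lit 286748) (nat_lit 9) (.e (nat_lit 336032) (nat_lit 4) (.e (nat_lit 123195) (nat_lit 266) (.e (nat_lit 57345) (nat_lit 0) .nil)))))))) (.g (nat_lit 7) .nil .nil))) 
(.lf (nat_lit 89663) (.g (nat_lit 2772) (.e (nat_lit 2031) (nat_lit 140) (.e (nat_lit 688177) (nat_lit 16) (.e (nat_lit 65586) (nat_lit 7) (.e (nat_lit 319531) (nat_lit 16) (.e (nat_lit 286748) (nat_lit 9) (.e (nat_lit 336295) (nat_lit 15) (.e (nat_lit 3630) (nat_lit 227) (.e (nat_lit 778295) (nat_lit 0) (.e (nat_lit 994) (nat_lit 81) .nil))))))))) (.g (nat_lit 5) .nil .nil)))))))))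

noncomputable def tv1225 : DT := (.nd (nat_lit 0) (.nd (nat_lit 1) (.nd (nat_lit 2) (.nd (nat_lit 3) (.nd (nat_lit 4) (.nd (nat_lit 5) 
(.lf (nat_lit 89664) (.g (nat_lit 3495) (.e (nat_lit 2031) (nat_lit 140) (.e (nat_lit 688177) (nat_lit 16) (.e (nat_lit 65586) (nat_lit 7) (.e (nat_lit 319531) (nat_lit 16) (.e (nat_lit 286748) (nat_lit 9) (.e (nat_lit 336295) (nat_lit 15) (.e (nat_lit 3630) (nat_lit 227) (.e (nat_lit 778297) (nat_lit 0) (.e (nat_lit 988) (nat_lit 81) .nil))))))))) (.g (nat_lit 6) .nil .nil))) 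
(.lf (nat_lit 89696) (.g (nat_lit 4674) (.e (nat_lit 2031) (nat_lit 140) (.e (nat_lit 688177) (nat_lit 16) (.e (nat_lit 65586) (nat_lit 7) (.e (nat_lit 319531) (nat_lit 16) (.e (nat_lit 286748) (nat_lit 9) (.e (nat_lit 336295) (nat_lit 15) (.e (nat_lit 3747) (nat_lit 228) (.e (nat_lit 786444) (nat_lit 15) .nil)))))))) (.g (nat_lit 8) .nil .nil)))) (.nd (nat_lit 5) 
(.lf (nat_lit 89680) (.g (nat_lit 2207) (.e (nat_lit 2031) (nat_lit 140) (.e (nat_lit 688177) (nat_lit 16) (.e (nat_lit 65586) (nat_lit 7) (.e (nat_lit 319531) (nat_lit 16) (.e (nat_lit 286748) (nat_lit 9) (.e (nat_lit 336295) (nat_lit 15) (.e (nat_lit 3632) (nat_lit 227) (.e (nat_lit 778272) (nat_lit 0) (.e (nat_lit 982) (nat_lit 81) .nil))))))))) (.g (nat_lit 4) .nil .nil))) 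
(.lf (nat_lit 89712) (.g (nat_lit 2278) (.e (nat_lit 2031) (nat_lit 140) (.e (nat_lit 688177) (nat_lit 16) (.e (nat_lit 65586) (nat_lit 7) (.e (nat_lit 319531) (nat_lit 16) (.e (nat_lit 286751) (nat_lit 10) (.e (nat_lit 344169) (nat_lit 40) (.e (nat_lit 671748) (nat_lit 0) (.e (nat_lit 982) (nat_lit 81) .nil)))))))) (.g (nat_lit 4) .nil .nil))))) (.nd (nat_lit 4) (.nd (nat_lit 5) 
(.lf (nat_lit 89672) (.g (nat_lit 4101) (.e (nat_lit 2031) (nat_lit 140) (.e (nat_lit 688177) (nat_lit 16) (.e (nat_lit 65586) (nat_lit 7) (.e (nat_lit 319531) (nat_lit 16) (.e (nat_lit 286748) (nat_lit 9) (.e (nat_lit 336295) (nat_lit 15) (.e (nat_lit 3632) (nat_lit 227) (.e (nat_lit 778241) (nat_lit 0) (.e (nat_lit 999) (nat_lit 81) .nil))))))))) (.g (nat_lit 7) .nil .nil))) 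
(.lf (nat_lit 89704) (.g (nat_lit 2225) (.e (nat_lit 2031) (nat_lit 140) (.e (nat_lit 688177) (nat_lit 16) (.e (nat_lit 65586) (nat_lit 7) (.e (nat_lit 319531) (nat_lit 16) (.e (nat_lit 286751) (nat_lit 10) .nil))))) .nil))) (.nd (nat_lit 5) 
(.lf (nat_lit 89688) (.g (nat_lit 3834) (.e (nat_lit 2031) (nat_lit 140) (.e (nat_lit 688177) (nat_lit 16) (.e (nat_lit 65586) (nat_lit 7) (.e (nat_lit 319531) (nat_lit 16) (.e (nat_lit 286748) (nat_lit 9) (.e (nat_lit 336295) (nat_lit 15) (.e (nat_lit 3711) (nat_lit 227) (.e (nat_lit 778240) (nat_lit 0) (.e (nat_lit 974) (nat_lit 81) .nil))))))))) (.g (nat_lit 6) .nil .nil))) 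
(.lf (nat_lit 89720) (.g (nat_lit 3597) (.e (nat_lit 2031) (nat_lit 140) (.e (nat_lit 688177) (nat_lit 16) (.e (nat_lit 65586) (nat_lit 7) (.e (nat_lit 319531) (nat_lit 16) (.e (nat_lit 286753) (nat_lit 10) (.e (nat_lit 344168) (nat_lit 40) (.e (nat_lit 671751) (nat_lit 0) (.e (nat_lit 982) (nat_lit 81) .nil)))))))) (.g (nat_lit 5) .nil .nil)))))) 
(.nd (nat_lit 3) (.nd (nat_lit 4) (.nd (nat_lit 5) 
(.lf (nat_lit 89668) (.g (nat_lit 2249) (.e (nat_lit 2031) (nat_lit 140) (.e (nat_lit 688177) (nat_lit 16) (.e (nat_lit 65586) (nat_lit 7) (.e (nat_lit 319531) (nat_lit 16) (.e (nat_lit 286748) (nat_lit 9) (.e (nat_lit 336295) (nat_lit 15) (.e (nat_lit 3631) (nat_lit 227) (.e (nat_lit 778297) (nat_lit 0) (.e (nat_lit 993) (nat_lit 81) .nil))))))))) (.g (nat_lit 4) .nil .nil))) 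
(.lf (nat_lit 89700) (.g (nat_lit 3405) (.e (nat_lit 2031) (nat_lit 140) (.e (nat_lit 688177) (nat_lit 16) (.e (nat_lit 65586) (nat_lit 7) (.e (nat_lit 319531) (nat_lit 16) (.e (nat_lit 286749) (nat_lit 9) (.e (nat_lit 335907) (nat_lit 0) (.e (nat_lit 1994) (nat_lit 137) (.e (nat_lit 663554) (nat_lit 0) (.e (nat_lit 982) (nat_lit 81) .nil))))))))) (.g (nat_lit 5) .nil .nil)))) (.nd (nat_lit 5) 
(.lf (nat_lit 89684) (.g (nat_lit 4336) (.e (nat_lit 2031) (nat_lit 140) (.e (nat_lit 688177) (nat_lit 16) (.e (nat_lit 65586) (nat_lit 7) (.e (nat_lit 319531) (nat_lit 16) (.e (nat_lit 286748) (nat_lit 9) (.e (nat_lit 336295) (nat_lit 15) (.e (nat_lit 3632) (nat_lit 227) (.e (nat_lit 778297) (nat_lit 0) (.e (nat_lit 993) (nat_lit 81) .nil))))))))) (.g (nat_lit 7) .nil .nil))) 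
(.lf (nat_lit 89716) (.g (nat_lit 4923) (.e (nat_lit 2031) (nat_lit 140) (.e (nat_lit 688177) (nat_lit 16) (.e (nat_lit 65586) (nat_lit 7) (.e (nat_lit 319531) (nat_lit 16) (.e (nat_lit 286752) (nat_lit 10) (.e (nat_lit 344169) (nat_lit 40) (.e (nat_lit 671748) (nat_lit 0) (.e (nat_lit 982) (nat_lit 81) .nil)))))))) (.g (nat_lit 7) .nil .nil))))) (.nd (nat_lit 4) (.nd (nat_lit 5) 
(.lf (nat_lit 89676) (.g (nat_lit 4257) (.e (nat_lit 2031) (nat_lit 140) (.e (nat_lit 688177) (nat_lit 16) (.e (nat_lit 65586) (nat_lit 7) (.e (nat_lit 319531) (nat_lit 16) (.e (nat_lit 286748) (nat_lit 9) (.e (nat_lit 336295) (nat_lit 15) (.e (nat_lit 3632) (nat_lit 227) (.e (nat_lit 778246) (nat_lit 0) (.e (nat_lit 998) (nat_lit 81) .nil))))))))) (.g (nat_lit 7) .nil .nil))) 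
(.lf (nat_lit 89708) (.g (nat_lit 3180) (.e (nat_lit 2031) (nat_lit 140) (.e (nat_lit 688177) (nat_lit 16) (.e (nat_lit 65586) (nat_lit 7) (.e (nat_lit 319531) (nat_lit 16) (.e (nat_lit 286751) (nat_lit 10) (.e (nat_lit 344104) (nat_lit 18) (.e (nat_lit 5949) (nat_lit 322) (.e (nat_lit 57347) (nat_lit 0) .nil)))))))) (.g (nat_lit 4) .nil .nil)))) (.nd (nat_lit 5) 
(.lf (nat_lit 89692) (.g (nat_lit 2576) (.e (nat_lit 2031) (nat_lit 140) (.e (nat_lit 688177) (nat_lit 16) (.e (nat_lit 65586) (nat_lit 7) (.e (nat_lit 319531) (nat_lit 16) (.e (nat_lit 286748) (nat_lit 9) (.e (nat_lit 336295) (nat_lit 15) (.e (nat_lit 3711) (nat_lit 227) (.e (nat_lit 786176) (nat_lit 0) (.e (nat_lit 999) (nat_lit 81) .nil))))))))) (.g (nat_lit 4) .nil .nil))) 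
(.lf (nat_lit 89724) (.g (nat_lit 4299) (.e (nat_lit 2031) (nat_lit 140) (.e (nat_lit 688177) (nat_lit 16) (.e (nat_lit 65586) (nat_lit 7) (.e (nat_lit 319531) (nat_lit 16) (.e (nat_lit 286753) (nat_lit 10) (.e (nat_lit 344169) (nat_lit 40) (.e (nat_lit 671751) (nat_lit 0) (.e (nat_lit 982) (nat_lit 81) .nil)))))))) (.g (nat_lit 6) .nil .nil))))))) 
(.nd (nat_lit 2) (.nd (nat_lit 3) (.nd (nat_lit 4) (.nd (nat_lit 5) 
(.lf (nat_lit 89666) (.g (nat_lit 3066) (.e (nat_lit 2031) (nat_lit 140) (.e (nat_lit 688177) (nat_lit 16) (.e (nat_lit 65586) (nat_lit 7) (.e (nat_lit 319531) (nat_lit 16) (.e (nat_lit 286748) (nat_lit 9) (.e (nat_lit 336295) (nat_lit 15) (.e (nat_lit 3630) (nat_lit 227) (.e (nat_lit 778297) (nat_lit 0) (.e (nat_lit 994) (nat_lit 81) .nil))))))))) (.g (nat_lit 6) .nil .nil))) 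
(.lf (nat_lit 89698) (.g (nat_lit 2364) (.e (nat_lit 2031) (nat_lit 140) (.e (nat_lit 688177) (nat_lit 16) (.e (nat_lit 65586) (nat_lit 7) (.e (nat_lit 319531) (nat_lit 16) (.e (nat_lit 286748) (nat_lit 9) (.e (nat_lit 336295) (nat_lit 15) (.e (nat_lit 7936) (nat_lit 228) (.e (nat_lit 786444) (nat_lit 15) .nil)))))))) (.g (nat_lit 4) .nil .nil)))) (.nd (nat_lit 5) 
(.lf (nat_lit 89682) (.g (nat_lit 4004) (.e (nat_lit 2031) (nat_lit 140) (.e (nat_lit 688177) (nat_lit 16) (.e (nat_lit 65586) (nat_lit 7) (.e (nat_lit 319531) (nat_lit 16) (.e (nat_lit 286748) (nat_lit 9) (.e (nat_lit 336295) (nat_lit 15) (.e (nat_lit 3632) (nat_lit 227) (.e (nat_lit 778297) (nat_lit 0) (.e (nat_lit 988) (nat_lit 81) .nil))))))))) (.g (nat_lit 7) .nil .nil))) 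
(.lf (nat_lit 89714) (.g (nat_lit 3032) (.e (nat_lit 2031) (nat_lit 140) (.e (nat_lit 688177) (nat_lit 16) (.e (nat_lit 65586) (nat_lit 7) (.e (nat_lit 319531) (nat_lit 16) (.e (nat_lit 286752) (nat_lit 10) (.e (nat_lit 344169) (nat_lit 40) (.e (nat_lit 671746) (nat_lit 0) (.e (nat_lit 982) (nat_lit 81) .nil)))))))) (.g (nat_lit 4) .nil .nil))))) (.nd (nat_lit 4) (.nd (nat_lit 5) 
(.lf (nat_lit 89674) (.g (nat_lit 4273) (.e (nat_lit 2031) (nat_lit 140) (.e (nat_lit 688177) (nat_lit 16) (.e (nat_lit 65586) (nat_lit 7) (.e (nat_lit 319531) (nat_lit 16) (.e (nat_lit 286748) (nat_lit 9) (.e (nat_lit 336295) (nat_lit 15) (.e (nat_lit 3632) (nat_lit 227) (.e (nat_lit 778246) (nat_lit 0) (.e (nat_lit 982) (nat_lit 81) .nil))))))))) (.g (nat_lit 7) .nil .nil))) 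
(.lf (nat_lit 89706) (.g (nat_lit 3009) (.e (nat_lit 2031) (nat_lit 140) (.e (nat_lit 688177) (nat_lit 16) (.e (nat_lit 65586) (nat_lit 7) (.e (nat_lit 319531) (nat_lit 16) (.e (nat_lit 286751) (nat_lit 10) (.e (nat_lit 344103) (nat_lit 18) (.e (nat_lit 5949) (nat_lit 322) (.e (nat_lit 57347) (nat_lit 0) .nil)))))))) (.g (nat_lit 4) .nil .nil)))) (.nd (nat_lit 5) 
(.lf (nat_lit 89690) (.g (nat_lit 3559) (.e (nat_lit 2031) (nat_lit 140) (.e (nat_lit 688177) (nat_lit 16) (.e (nat_lit 65586) (nat_lit 7) (.e (nat_lit 319531) (nat_lit 16) (.e (nat_lit 286748) (nat_lit 9) (.e (nat_lit 336295) (nat_lit 15) (.e (nat_lit 3711) (nat_lit 227) (.e (nat_lit 778249) (nat_lit 0) (.e (nat_lit 7936) (nat_lit 81) .nil))))))))) (.g (nat_lit 6) .nil .nil))) 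
(.lf (nat_lit 89722) (.g (nat_lit 3096) (.e (nat_lit 2031) (nat_lit 140) (.e (nat_lit 688177) (nat_lit 16) (.e (nat_lit 65586) (nat_lit 7) (.e (nat_lit 319531) (nat_lit 16) (.e (nat_lit 286753) (nat_lit 10) (.e (nat_lit 344169) (nat_lit 40) (.e (nat_lit 671747) (nat_lit 0) (.e (nat_lit 982) (nat_lit 81) .nil)))))))) (.g (nat_lit 4) .nil .nil)))))) 
(.nd (nat_lit 3) (.nd (nat_lit 4) (.nd (nat_lit 5) 
(.lf (nat_lit 89670) (.g (nat_lit 4121) (.e (nat_lit 2031) (nat_lit 140) (.e (nat_lit 688177) (nat_lit 16) (.e (nat_lit 65586) (nat_lit 7) (.e (nat_lit 319531) (nat_lit 16) (.e (nat_lit 286748) (nat_lit 9) (.e (nat_lit 336295) (nat_lit 15) (.e (nat_lit 3632) (nat_lit 227) (.e (nat_lit 778241) (nat_lit 0) (.e (nat_lit 996) (nat_lit 81) .nil))))))))) (.g (nat_lit 7) .nil .nil))) 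
(.lf (nat_lit 89702) (.g (nat_lit 3638) (.e (nat_lit 2031) (nat_lit 140) (.e (nat_lit 688177) (nat_lit 16) (.e (nat_lit 65586) (nat_lit 7) (.e (nat_lit 319531) (nat_lit 16) (.e (nat_lit 286749) (nat_lit 9) (.e (nat_lit 336032) (nat_lit 4) (.e (nat_lit 123196) (nat_lit 266) (.e (nat_lit 57347) (nat_lit 0) .nil)))))))) (.g (nat_lit 5) .nil .nil)))) (.nd (nat_lit 5) 
(.lf (nat_lit 89686) (.g (nat_lit 4274) (.e (nat_lit 2031) (nat_lit 140) (.e (nat_lit 688177) (nat_lit 16) (.e (nat_lit 65586) (nat_lit 7) (.e (nat_lit 319531) (nat_lit 16) (.e (nat_lit 286748) (nat_lit 9) (.e (nat_lit 336295) (nat_lit 15) (.e (nat_lit 3632) (nat_lit 227) (.e (nat_lit 786176) (nat_lit 0) (.e (nat_lit 999) (nat_lit 81) .nil))))))))) (.g (nat_lit 7) .nil .nil))) 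
(.lf (nat_lit 89718) (.g (nat_lit 4068) (.e (nat_lit 2031) (nat_lit 140) (.e (nat_lit 688177) (nat_lit 16) (.e (nat_lit 65586) (nat_lit 7) (.e (nat_lit 319531) (nat_lit 16) (.e (nat_lit 286752) (nat_lit 10) (.e (nat_lit 344169) (nat_lit 40) (.e (nat_lit 671751) (nat_lit 0) (.e (nat_lit 982) (nat_lit 81) .nil)))))))) (.g (nat_lit 6) .nil .nil))))) (.nd (nat_lit 4) (.nd (nat_lit 5) 
(.lf (nat_lit 89678) (.g (nat_lit 3754) (.e (nat_lit 2031) (nat_lit 140) (.e (nat_lit 688177) (nat_lit 16) (.e (nat_lit 65586) (nat_lit 7) (.e (nat_lit 319531) (nat_lit 16) (.e (nat_lit 286748) (nat_lit 9) (.e (nat_lit 336295) (nat_lit 15) (.e (nat_lit 3632) (nat_lit 227) (.e (nat_lit 778248) (nat_lit 0) (.e (nat_lit 982) (nat_lit 81) .nil))))))))) (.g (nat_lit 7) .nil .nil))) 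
(.lf (nat_lit 89710) (.g (nat_lit 2810) (.e (nat_lit 2031) (nat_lit 140) (.e (nat_lit 688177) (nat_lit 16) (.e (nat_lit 65586) (nat_lit 7) (.e (nat_lit 319531) (nat_lit 16) (.e (nat_lit 286751) (nat_lit 10) (.e (nat_lit 352000) (nat_lit 18) (.e (nat_lit 5937) (nat_lit 322) (.e (nat_lit 57345) (nat_lit 0) .nil)))))))) (.g (nat_lit 4) .nil .nil)))) (.nd (nat_lit 5) 
(.lf (nat_lit 89694) (.g (nat_lit 4175) (.e (nat_lit 2031) (nat_lit 140) (.e (nat_lit 688177) (nat_lit 16) (.e (nat_lit 65586) (nat_lit 7) (.e (nat_lit 319531) (nat_lit 16) (.e (nat_lit 286748) (nat_lit 9) (.e (nat_lit 336295) (nat_lit 15) (.e (nat_lit 3745) (nat_lit 228) (.e (nat_lit 786444) (nat_lit 15) .nil)))))))) (.g (nat_lit 8) .nil .nil))) 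
(.lf (nat_lit 89726) (.g (nat_lit 2391) (.e (nat_lit 2031) (nat_lit 140) (.e (nat_lit 688177) (nat_lit 16) (.e (nat_lit 65586) (nat_lit 7) (.e (nat_lit 319531) (nat_lit 16) (.e (nat_lit 286755) (nat_lit 10) (.e (nat_lit 344103) (nat_lit 18) (.e (nat_lit 5947) (nat_lit 322) (.e (nat_lit 57347) (nat_lit 0) .nil)))))))) (.g (nat_lit 4) .nil .nil)))))))) 
(.nd (nat_lit 1) (.nd (nat_lit 2) (.nd (nat_lit 3) (.nd (nat_lit 4) (.nd (nat_lit 5) 
(.lf (nat_lit 89665) (.g (nat_lit 3184) (.e (nat_lit 2031) (nat_lit 140) (.e (nat_lit 688177) (nat_lit 16) (.e (nat_lit 65586) (nat_lit 7) (.e (nat_lit 319531) (nat_lit 16) (.e (nat_lit 286748) (nat_lit 9) (.e (nat_lit 336295) (nat_lit 15) (.e (nat_lit 3630) (nat_lit 227) (.e (nat_lit 778297) (nat_lit 0) (.e (nat_lit 992) (nat_lit 81) .nil))))))))) (.g (nat_lit 6) .nil .nil))) 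
(.lf (nat_lit 89697) (.g (nat_lit 3750) (.e (nat_lit 2031) (nat_lit 140) (.e (nat_lit 688177) (nat_lit 16) (.e (nat_lit 65586) (nat_lit 7) (.e (nat_lit 319531) (nat_lit 16) (.e (nat_lit 286748) (nat_lit 9) (.e (nat_lit 336295) (nat_lit 15) (.e (nat_lit 3748) (nat_lit 228) (.e (nat_lit 794368) (nat_lit 15) .nil)))))))) (.g (nat_lit 7) .nil .nil)))) (.nd (nat_lit 5) 
(.lf (nat_lit 89681) (.g (nat_lit 4093) (.e (nat_lit 2031) (nat_lit 140) (.e (nat_lit 688177) (nat_lit 16) (.e (nat_lit 65586) (nat_lit 7) (.e (nat_lit 319531) (nat_lit 16) (.e (nat_lit 286748) (nat_lit 9) (.e (nat_lit 336295) (nat_lit 15) (.e (nat_lit 3632) (nat_lit 227) (.e (nat_lit 778290) (nat_lit 0) (.e (nat_lit 7936) (nat_lit 81) .nil))))))))) (.g (nat_lit 8) .nil .nil))) 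
(.lf (nat_lit 89713) (.g (nat_lit 2348) (.e (nat_lit 2031) (nat_lit 140) (.e (nat_lit 688177) (nat_lit 16) (.e (nat_lit 65586) (nat_lit 7) (.e (nat_lit 319531) (nat_lit 16) (.e (nat_lit 286752) (nat_lit 10) .nil))))) .nil)))) (.nd (nat_lit 4) (.nd (nat_lit 5) 
(.lf (nat_lit 89673) (.g (nat_lit 4089) (.e (nat_lit 2031) (nat_lit 140) (.e (nat_lit 688177) (nat_lit 16) (.e (nat_lit 65586) (nat_lit 7) (.e (nat_lit 319531) (nat_lit 16) (.e (nat_lit 286748) (nat_lit 9) (.e (nat_lit 336295) (nat_lit 15) (.e (nat_lit 3632) (nat_lit 227) (.e (nat_lit 778241) (nat_lit 0) (.e (nat_lit 1000) (nat_lit 81) .nil))))))))) (.g (nat_lit 7) .nil .nil))) 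
(.lf (nat_lit 89705) (.g (nat_lit 2494) (.e (nat_lit 2031) (nat_lit 140) (.e (nat_lit 688177) (nat_lit 16) (.e (nat_lit 65586) (nat_lit 7) (.e (nat_lit 319531) (nat_lit 16) (.e (nat_lit 286751) (nat_lit 10) (.e (nat_lit 344103) (nat_lit 18) (.e (nat_lit 5947) (nat_lit 322) (.e (nat_lit 57347) (nat_lit 0) .nil)))))))) (.g (nat_lit 4) .nil .nil)))) (.nd (nat_lit 5) 
(.lf (nat_lit 89689) (.g (nat_lit 3653) (.e (nat_lit 2031) (nat_lit 140) (.e (nat_lit 688177) (nat_lit 16) (.e (nat_lit 65586) (nat_lit 7) (.e (nat_lit 319531) (nat_lit 16) (.e (nat_lit 286748) (nat_lit 9) (.e (nat_lit 336295) (nat_lit 15) (.e (nat_lit 3711) (nat_lit 227) (.e (nat_lit 778247) (nat_lit 0) (.e (nat_lit 7936) (nat_lit 81) .nil))))))))) (.g (nat_lit 6) .nil .nil))) 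
(.lf (nat_lit 89721) (.g (nat_lit 3307) (.e (nat_lit 2031) (nat_lit 140) (.e (nat_lit 688177) (nat_lit 16) (.e (nat_lit 65586) (nat_lit 7) (.e (nat_lit 319531) (nat_lit 16) (.e (nat_lit 286753) (nat_lit 10) (.e (nat_lit 344169) (nat_lit 40) (.e (nat_lit 671746) (nat_lit 0) (.e (nat_lit 982) (nat_lit 81) .nil)))))))) (.g (nat_lit 4) .nil .nil)))))) 
(.nd (nat_lit 3) (.nd (nat_lit 4) (.nd (nat_lit 5) 
(.lf (nat_lit 89669) (.g (nat_lit 3718) (.e (nat_lit 2031) (nat_lit 140) (.e (nat_lit 688177) (nat_lit 16) (.e (nat_lit 65586) (nat_lit 7) (.e (nat_lit 319531) (nat_lit 16) (.e (nat_lit 286748) (nat_lit 9) (.e (nat_lit 336295) (nat_lit 15) (.e (nat_lit 3632) (nat_lit 227) (.e (nat_lit 778241) (nat_lit 0) (.e (nat_lit 982) (nat_lit 81) .nil))))))))) (.g (nat_lit 7) .nil .nil))) 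
(.lf (nat_lit 89701) (.g (nat_lit 4166) (.e (nat_lit 2031) (nat_lit 140) (.e (nat_lit 688177) (nat_lit 16) (.e (nat_lit 65586) (nat_lit 7) (.e (nat_lit 319531) (nat_lit 16) (.e (nat_lit 286749) (nat_lit 9) (.e (nat_lit 335907) (nat_lit 0) (.e (nat_lit 1996) (nat_lit 137) (.e (nat_lit 663554) (nat_lit 0) (.e (nat_lit 982) (nat_lit 81) .nil))))))))) (.g (nat_lit 5) .nil .nil)))) (.nd (nat_lit 5) 
(.lf (nat_lit 89685) (.g (nat_lit 3575) (.e (nat_lit 2031) (nat_lit 140) (.e (nat_lit 688177) (nat_lit 16) (.e (nat_lit 65586) (nat_lit 7) (.e (nat_lit 319531) (nat_lit 16) (.e (nat_lit 286748) (nat_lit 9) (.e (nat_lit 336295) (nat_lit 15) (.e (nat_lit 3632) (nat_lit 227) (.e (nat_lit 778297) (nat_lit 0) (.e (nat_lit 994) (nat_lit 81) .nil))))))))) (.g (nat_lit 7) .nil .nil))) 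
(.lf (nat_lit 89717) (.g (nat_lit 2886) (.e (nat_lit 2031) (nat_lit 140) (.e (nat_lit 688177) (nat_lit 16) (.e (nat_lit 65586) (nat_lit 7) (.e (nat_lit 319531) (nat_lit 16) (.e (nat_lit 286752) (nat_lit 10) (.e (nat_lit 344169) (nat_lit 40) (.e (nat_lit 671748) (nat_lit 0) (.e (nat_lit 7936) (nat_lit 81) .nil)))))))) (.g (nat_lit 5) .nil .nil))))) (.nd (nat_lit 4) (.nd (nat_lit 5) 
(.lf (nat_lit 89677) (.g (nat_lit 4670) (.e (nat_lit 2031) (nat_lit 140) (.e (nat_lit 688177) (nat_lit 16) (.e (nat_lit 65586) (nat_lit 7) (.e (nat_lit 319531) (nat_lit 16) (.e (nat_lit 286748) (nat_lit 9) (.e (nat_lit 336295) (nat_lit 15) (.e (nat_lit 3632) (nat_lit 227) (.e (nat_lit 778246) (nat_lit 0) (.e (nat_lit 1000) (nat_lit 81) .nil))))))))) (.g (nat_lit 7) .nil .nil))) 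
(.lf (nat_lit 89709) (.g (nat_lit 2999) (.e (nat_lit 2031) (nat_lit 140) (.e (nat_lit 688177) (nat_lit 16) (.e (nat_lit 65586) (nat_lit 7) (.e (nat_lit 319531) (nat_lit 16) (.e (nat_lit 286751) (nat_lit 10) (.e (nat_lit 352000) (nat_lit 18) (.e (nat_lit 5936) (nat_lit 322) (.e (nat_lit 57348) (nat_lit 0) .nil)))))))) (.g (nat_lit 4) .nil .nil)))) (.nd (nat_lit 5) 
(.lf (nat_lit 89693) (.g (nat_lit 4391) (.e (nat_lit 2031) (nat_lit 140) (.e (nat_lit 688177) (nat_lit 16) (.e (nat_lit 65586) (nat_lit 7) (.e (nat_lit 319531) (nat_lit 16) (.e (nat_lit 286748) (nat_lit 9) (.e (nat_lit 336295) (nat_lit 15) (.e (nat_lit 3733) (nat_lit 228) (.e (nat_lit 786444) (nat_lit 15) .nil)))))))) (.g (nat_lit 8) .nil .nil))) 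
(.lf (nat_lit 89725) (.g (nat_lit 2291) (.e (nat_lit 2031) (nat_lit 140) (.e (nat_lit 688177) (nat_lit 16) (.e (nat_lit 65586) (nat_lit 7) (.e (nat_lit 319531) (nat_lit 16) (.e (nat_lit 286755) (nat_lit 10) .nil))))) .nil)))))) (.nd (nat_lit 2) (.nd (nat_lit 3) (.nd (nat_lit 4) (.nd (nat_lit 5) 
(.lf (nat_lit 89667) (.g (nat_lit 1919) (.e (nat_lit 2031) (nat_lit 140) (.e (nat_lit 688177) (nat_lit 16) (.e (nat_lit 65586) (nat_lit 7) (.e (nat_lit 319531) (nat_lit 16) (.e (nat_lit 286748) (nat_lit 9) (.e (nat_lit 336295) (nat_lit 15) (.e (nat_lit 3630) (nat_lit 227) (.e (nat_lit 778304) (nat_lit 0) (.e (nat_lit 7936) (nat_lit 81) .nil))))))))) (.g (nat_lit 4) .nil .nil))) 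
(.lf (nat_lit 89699) (.g (nat_lit 4022) (.e (nat_lit 2031) (nat_lit 140) (.e (nat_lit 688177) (nat_lit 16) (.e (nat_lit 65586) (nat_lit 7) (.e (nat_lit 319531) (nat_lit 16) (.e (nat_lit 286749) (nat_lit 9) (.e (nat_lit 335907) (nat_lit 0) (.e (nat_lit 970) (nat_lit 81) (.e (nat_lit 5954) (nat_lit 322) (.e (nat_lit 57347) (nat_lit 0) .nil))))))))) (.g (nat_lit 5) .nil .nil)))) (.nd (nat_lit 5) 
(.lf (nat_lit 89683) (.g (nat_lit 3693) (.e (nat_lit 2031) (nat_lit 140) (.e (nat_lit 688177) (nat_lit 16) (.e (nat_lit 65586) (nat_lit 7) (.e (nat_lit 319531) (nat_lit 16) (.e (nat_lit 286748) (nat_lit 9) (.e (nat_lit 336295) (nat_lit 15) (.e (nat_lit 3632) (nat_lit 227) (.e (nat_lit 778297) (nat_lit 0) (.e (nat_lit 992) (nat_lit 81) .nil))))))))) (.g (nat_lit 7) .nil .nil))) 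
(.lf (nat_lit 89715) (.g (nat_lit 2821) (.e (nat_lit 2031) (nat_lit 140) (.e (nat_lit 688177) (nat_lit 16) (.e (nat_lit 65586) (nat_lit 7) (.e (nat_lit 319531) (nat_lit 16) (.e (nat_lit 286752) (nat_lit 10) (.e (nat_lit 344169) (nat_lit 40) (.e (nat_lit 671747) (nat_lit 0) (.e (nat_lit 982) (nat_lit 81) .nil)))))))) (.g (nat_lit 4) .nil .nil))))) (.nd (nat_lit 4) (.nd (nat_lit 5) 
(.lf (nat_lit 89675) (.g (nat_lit 4476) (.e (nat_lit 2031) (nat_lit 140) (.e (nat_lit 688177) (nat_lit 16) (.e (nat_lit 65586) (nat_lit 7) (.e (nat_lit 319531) (nat_lit 16) (.e (nat_lit 286748) (nat_lit 9) (.e (nat_lit 336295) (nat_lit 15) (.e (nat_lit 3632) (nat_lit 227) (.e (nat_lit 778246) (nat_lit 0) (.e (nat_lit 996) (nat_lit 81) .nil))))))))) (.g (nat_lit 7) .nil .nil))) 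
(.lf (nat_lit 89707) (.g (nat_lit 2356) (.e (nat_lit 2031) (nat_lit 140) (.e (nat_lit 688177) (nat_lit 16) (.e (nat_lit 65586) (nat_lit 7) (.e (nat_lit 319531) (nat_lit 16) (.e (nat_lit 286751) (nat_lit 10) (.e (nat_lit 344104) (nat_lit 18) (.e (nat_lit 5949) (nat_lit 322) (.e (nat_lit 57345) (nat_lit 0) .nil)))))))) (.g (nat_lit 4) .nil .nil)))) (.nd (nat_lit 5) 
(.lf (nat_lit 89691) (.g (nat_lit 4054) (.e (nat_lit 2031) (nat_lit 140) (.e (nat_lit 688177) (nat_lit 16) (.e (nat_lit 65586) (nat_lit 7) (.e (nat_lit 319531) (nat_lit 16) (.e (nat_lit 286748) (nat_lit 9) (.e (nat_lit 336295) (nat_lit 15) (.e (nat_lit 3711) (nat_lit 227) (.e (nat_lit 778279) (nat_lit 0) (.e (nat_lit 7936) (nat_lit 81) .nil))))))))) (.g (nat_lit 7) .nil .nil))) 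
(.lf (nat_lit 89723) (.g (nat_lit 5159) (.e (nat_lit 2031) (nat_lit 140) (.e (nat_lit 688177) (nat_lit 16) (.e (nat_lit 65586) (nat_lit 7) (.e (nat_lit 319531) (nat_lit 16) (.e (nat_lit 286753) (nat_lit 10) (.e (nat_lit 344169) (nat_lit 40) (.e (nat_lit 671748) (nat_lit 0) (.e (nat_lit 982) (nat_lit 81) .nil)))))))) (.g (nat_lit 7) .nil .nil)))))) 
(.nd (nat_lit 3) (.nd (nat_lit 4) (.nd (nat_lit 5) 
(.lf (nat_lit 89671) (.g (nat_lit 3982) (.e (nat_lit 2031) (nat_lit 140) (.e (nat_lit 688177) (nat_lit 16) (.e (nat_lit 65586) (nat_lit 7) (.e (nat_lit 319531) (nat_lit 16) (.e (nat_lit 286748) (nat_lit 9) (.e (nat_lit 336295) (nat_lit 15) (.e (nat_lit 3632) (nat_lit 227) (.e (nat_lit 778241) (nat_lit 0) (.e (nat_lit 998) (nat_lit 81) .nil))))))))) (.g (nat_lit 7) .nil .nil))) 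
(.lf (nat_lit 89703) (.g (nat_lit 3802) (.e (nat_lit 2031) (nat_lit 140) (.e (nat_lit 688177) (nat_lit 16) (.e (nat_lit 65586) (nat_lit 7) (.e (nat_lit 319531) (nat_lit 16) (.e (nat_lit 286749) (nat_lit 9) (.e (nat_lit 336032) (nat_lit 4) (.e (nat_lit 123197) (nat_lit 266) (.e (nat_lit 57347) (nat_lit 0) .nil)))))))) (.g (nat_lit 5) .nil .nil)))) (.nd (nat_lit 5) 
(.lf (nat_lit 89687) (.g (nat_lit 4221) (.e (nat_lit 2031) (nat_lit 140) (.e (nat_lit 688177) (nat_lit 16) (.e (nat_lit 65586) (nat_lit 7) (.e (nat_lit 319531) (nat_lit 16) (.e (nat_lit 286748) (nat_lit 9) (.e (nat_lit 336295) (nat_lit 15) (.e (nat_lit 3681) (nat_lit 227) (.e (nat_lit 786176) (nat_lit 0) (.e (nat_lit 999) (nat_lit 81) .nil))))))))) (.g (nat_lit 6) .nil .nil))) 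
(.lf (nat_lit 89719) (.g (nat_lit 3036) (.e (nat_lit 2031) (nat_lit 140) (.e (nat_lit 688177) (nat_lit 16) (.e (nat_lit 65586) (nat_lit 7) (.e (nat_lit 319531) (nat_lit 16) (.e (nat_lit 286753) (nat_lit 10) (.e (nat_lit 344168) (nat_lit 40) (.e (nat_lit 671744) (nat_lit 0) (.e (nat_lit 999) (nat_lit 81) .nil)))))))) (.g (nat_lit 4) .nil .nil))))) (.nd (nat_lit 4) (.nd (nat_lit 5) 
(.lf (nat_lit 89679) (.g (nat_lit 4108) (.e (nat_lit 2031) (nat_lit 140) (.e (nat_lit 688177) (nat_lit 16) (.e (nat_lit 65586) (nat_lit 7) (.e (nat_lit 319531) (nat_lit 16) (.e (nat_lit 286748) (nat_lit 9) (.e (nat_lit 336295) (nat_lit 15) (.e (nat_lit 3632) (nat_lit 227) (.e (nat_lit 778253) (nat_lit 0) (.e (nat_lit 982) (nat_lit 81) .nil))))))))) (.g (nat_lit 7) .nil .nil))) 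
(.lf (nat_lit 89711) (.g (nat_lit 3296) (.e (nat_lit 2031) (nat_lit 140) (.e (nat_lit 688177) (nat_lit 16) (.e (nat_lit 65586) (nat_lit 7) (.e (nat_lit 319531) (nat_lit 16) (.e (nat_lit 286751) (nat_lit 10) (.e (nat_lit 352000) (nat_lit 18) (.e (nat_lit 5937) (nat_lit 322) (.e (nat_lit 57347) (nat_lit 0) .nil)))))))) (.g (nat_lit 5) .nil .nil)))) (.nd (nat_lit 5) 
(.lf (nat_lit 89695) (.g (nat_lit 3386) (.e (nat_lit 2031) (nat_lit 140) (.e (nat_lit 688177) (nat_lit 16) (.e (nat_lit 65586) (nat_lit 7) (.e (nat_lit 319531) (nat_lit 16) (.e (nat_lit 286748) (nat_lit 9) (.e (nat_lit 336295) (nat_lit 15) (.e (nat_lit 3746) (nat_lit 228) (.e (nat_lit 794368) (nat_lit 15) .nil)))))))) (.g (nat_lit 7) .nil .nil))) 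
(.lf (nat_lit 89727) (.g (nat_lit 2906) (.e (nat_lit 2031) (nat_lit 140) (.e (nat_lit 688177) (nat_lit 16) (.e (nat_lit 65586) (nat_lit 7) (.e (nat_lit 319531) (nat_lit 16) (.e (nat_lit 286755) (nat_lit 10) (.e (nat_lit 344103) (nat_lit 18) (.e (nat_lit 5949) (nat_lit 322) (.e (nat_lit 57347) (nat_lit 0) .nil)))))))) (.g (nat_lit 4) .nil .nil)))))))))

noncomputable def tv1226 : DT := (.nd (nat_lit 0) (.nd (nat_lit 1) (.nd (nat_lit 2) (.nd (nat_lit 3) (.nd (nat_lit 4) (.nd (nat_lit 5) 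
(.lf (nat_lit 89728) (.g (nat_lit 2788) (.e (nat_lit 2031) (nat_lit 140) (.e (nat_lit 688177) (nat_lit 16) (.e (nat_lit 65586) (nat_lit 7) (.e (nat_lit 319531) (nat_lit 16) (.e (nat_lit 286755) (nat_lit 10) (.e (nat_lit 344104) (nat_lit 18) (.e (nat_lit 5949) (nat_lit 322) (.e (nat_lit 57347) (nat_lit 0) .nil)))))))) (.g (nat_lit 4) .nil .nil))) 
(.lf (nat_lit 89760) (.g (nat_lit 2625) (.e (nat_lit 2031) (nat_lit 140) (.e (nat_lit 688177) (nat_lit 16) (.e (nat_lit 65586) (nat_lit 7) (.e (nat_lit 319531) (nat_lit 16) (.e (nat_lit 286759) (nat_lit 12) (.e (nat_lit 385092) (nat_lit 49) (.e (nat_lit 778248) (nat_lit 0) (.e (nat_lit 982) (nat_lit 81) .nil)))))))) (.g (nat_lit 5) .nil .nil)))) (.nd (nat_lit 5) 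
(.lf (nat_lit 89744) (.g (nat_lit 2601) (.e (nat_lit 2031) (nat_lit 140) (.e (nat_lit 688177) (nat_lit 16) (.e (nat_lit 65586) (nat_lit 7) (.e (nat_lit 319531) (nat_lit 16) (.e (nat_lit 286756) (nat_lit 10) (.e (nat_lit 344168) (nat_lit 40) (.e (nat_lit 671746) (nat_lit 0) (.e (nat_lit 982) (nat_lit 81) .nil)))))))) (.g (nat_lit 4) .nil .nil))) 
(.lf (nat_lit 89776) (.g (nat_lit 3636) (.e (nat_lit 2031) (nat_lit 140) (.e (nat_lit 688177) (nat_lit 16) (.e (nat_lit 65586) (nat_lit 7) (.e (nat_lit 319531) (nat_lit 16) (.e (nat_lit 286759) (nat_lit 12) (.e (nat_lit 385094) (nat_lit 49) (.e (nat_lit 778248) (nat_lit 0) (.e (nat_lit 982) (nat_lit 81) .nil)))))))) (.g (nat_lit 6) .nil .nil))))) (.nd (nat_lit 4) (.nd (nat_lit 5) 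
(.lf (nat_lit 89736) (.g (nat_lit 2860) (.e (nat_lit 2031) (nat_lit 140) (.e (nat_lit 688177) (nat_lit 16) (.e (nat_lit 65586) (nat_lit 7) (.e (nat_lit 319531) (nat_lit 16) (.e (nat_lit 286755) (nat_lit 10) (.e (nat_lit 344169) (nat_lit 40) (.e (nat_lit 671746) (nat_lit 0) (.e (nat_lit 982) (nat_lit 81) .nil)))))))) (.g (nat_lit 4) .nil .nil))) 
(.lf (nat_lit 89768) (.g (nat_lit 2538) (.e (nat_lit 2031) (nat_lit 140) (.e (nat_lit 688177) (nat_lit 16) (.e (nat_lit 65586) (nat_lit 7) (.e (nat_lit 319531) (nat_lit 16) (.e (nat_lit 286759) (nat_lit 12) (.e (nat_lit 385092) (nat_lit 49) (.e (nat_lit 778305) (nat_lit 0) (.e (nat_lit 7936) (nat_lit 81) .nil)))))))) (.g (nat_lit 5) .nil .nil)))) (.nd (nat_lit 5) 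
(.lf (nat_lit 89752) (.g (nat_lit 3000) (.e (nat_lit 2031) (nat_lit 140) (.e (nat_lit 688177) (nat_lit 16) (.e (nat_lit 65586) (nat_lit 7) (.e (nat_lit 319531) (nat_lit 16) (.e (nat_lit 286756) (nat_lit 10) (.e (nat_lit 344169) (nat_lit 40) (.e (nat_lit 671747) (nat_lit 0) (.e (nat_lit 982) (nat_lit 81) .nil)))))))) (.g (nat_lit 5) .nil .nil))) 
(.lf (nat_lit 89784) (.g (nat_lit 2255) (.e (nat_lit 2031) (nat_lit 140) (.e (nat_lit 688177) (nat_lit 16) (.e (nat_lit 65586) (nat_lit 7) (.e (nat_lit 319531) (nat_lit 16) (.e (nat_lit 286759) (nat_lit 12) (.e (nat_lit 385094) (nat_lit 49) (.e (nat_lit 778272) (nat_lit 0) (.e (nat_lit 982) (nat_lit 81) .nil)))))))) (.g (nat_lit 4) .nil .nil)))))) 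
(.nd (nat_lit 3) (.nd (nat_lit 4) (.nd (nat_lit 5) 
(.lf (nat_lit 89732) (.g (nat_lit 3239) (.e (nat_lit 2031) (nat_lit 140) (.e (nat_lit 688177) (nat_lit 16) (.e (nat_lit 65586) (nat_lit 7) (.e (nat_lit 319531) (nat_lit 16) (.e (nat_lit 286755) (nat_lit 10) (.e (nat_lit 344168) (nat_lit 40) (.e (nat_lit 671744) (nat_lit 0) (.e (nat_lit 999) (nat_lit 81) .nil)))))))) (.g (nat_lit 4) .nil .nil))) 
(.lf (nat_lit 89764) (.g (nat_lit 3351) (.e (nat_lit 2031) (nat_lit 140) (.e (nat_lit 688177) (nat_lit 16) (.e (nat_lit 65586) (nat_lit 7) (.e (nat_lit 319531) (nat_lit 16) (.e (nat_lit 286759) (nat_lit 12) (.e (nat_lit 385092) (nat_lit 49) (.e (nat_lit 778295) (nat_lit 0) (.e (nat_lit 994) (nat_lit 81) .nil)))))))) (.g (nat_lit 5) .nil .nil)))) (.nd (nat_lit 5) 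
(.lf (nat_lit 89748) (.g (nat_lit 2319) (.e (nat_lit 2031) (nat_lit 140) (.e (nat_lit 688177) (nat_lit 16) (.e (nat_lit 65586) (nat_lit 7) (.e (nat_lit 319531) (nat_lit 16) (.e (nat_lit 286756) (nat_lit 10) (.e (nat_lit 344169) (nat_lit 40) (.e (nat_lit 671744) (nat_lit 0) (.e (nat_lit 974) (nat_lit 81) .nil)))))))) (.g (nat_lit 4) .nil .nil))) 
(.lf (nat_lit 89780) (.g (nat_lit 4639) (.e (nat_lit 2031) (nat_lit 140) (.e (nat_lit 688177) (nat_lit 16) (.e (nat_lit 65586) (nat_lit 7) (.e (nat_lit 319531) (nat_lit 16) (.e (nat_lit 286759) (nat_lit 12) (.e (nat_lit 385094) (nat_lit 49) (.e (nat_lit 778256) (nat_lit 0) (.e (nat_lit 7936) (nat_lit 81) .nil)))))))) (.g (nat_lit 7) .nil .nil))))) (.nd (nat_lit 4) (.nd (nat_lit 5) 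
(.lf (nat_lit 89740) (.g (nat_lit 1925) (.e (nat_lit 2031) (nat_lit 140) (.e (nat_lit 688177) (nat_lit 16) (.e (nat_lit 65586) (nat_lit 7) (.e (nat_lit 319531) (nat_lit 16) (.e (nat_lit 286756) (nat_lit 10) .nil))))) .nil)) 
(.lf (nat_lit 89772) (.g (nat_lit 4271) (.e (nat_lit 2031) (nat_lit 140) (.e (nat_lit 688177) (nat_lit 16) (.e (nat_lit 65586) (nat_lit 7) (.e (nat_lit 319531) (nat_lit 16) (.e (nat_lit 286759) (nat_lit 12) (.e (nat_lit 385094) (nat_lit 49) (.e (nat_lit 778243) (nat_lit 0) (.e (nat_lit 7936) (nat_lit 81) .nil)))))))) (.g (nat_lit 6) .nil .nil)))) (.nd (nat_lit 5) 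
(.lf (nat_lit 89756) (.g (nat_lit 2050) (.e (nat_lit 2031) (nat_lit 140) (.e (nat_lit 688177) (nat_lit 16) (.e (nat_lit 65586) (nat_lit 7) (.e (nat_lit 319531) (nat_lit 16) (.e (nat_lit 286758) (nat_lit 12) (.e (nat_lit 385105) (nat_lit 50) (.e (nat_lit 794368) (nat_lit 15) .nil))))))) (.g (nat_lit 4) .nil .nil))) 
(.lf (nat_lit 89788) (.g (nat_lit 3657) (.e (nat_lit 2031) (nat_lit 140) (.e (nat_lit 688177) (nat_lit 16) (.e (nat_lit 65586) (nat_lit 7) (.e (nat_lit 319531) (nat_lit 16) (.e (nat_lit 286759) (nat_lit 12) (.e (nat_lit 385094) (nat_lit 49) (.e (nat_lit 778291) (nat_lit 0) (.e (nat_lit 7936) (nat_lit 81) .nil)))))))) (.g (nat_lit 6) .nil .nil))))))) 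
(.nd (nat_lit 2) (.nd (nat_lit 3) (.nd (nat_lit 4) (.nd (nat_lit 5) 
(.lf (nat_lit 89730) (.g (nat_lit 2569) (.e (nat_lit 2031) (nat_lit 140) (.e (nat_lit 688177) (nat_lit 16) (.e (nat_lit 65586) (nat_lit 7) (.e (nat_lit 319531) (nat_lit 16) (.e (nat_lit 286755) (nat_lit 10) (.e (nat_lit 352000) (nat_lit 18) (.e (nat_lit 5937) (nat_lit 322) (.e (nat_lit 57345) (nat_lit 0) .nil)))))))) (.g (nat_lit 4) .nil .nil))) 
(.lf (nat_lit 89762) (.g (nat_lit 3416) (.e (nat_lit 2031) (nat_lit 140) (.e (nat_lit 688177) (nat_lit 16) (.e (nat_lit 65586) (nat_lit 7) (.e (nat_lit 319531) (nat_lit 16) (.e (nat_lit 286759) (nat_lit 12) (.e (nat_lit 385092) (nat_lit 49) (.e (nat_lit 778295) (nat_lit 0) (.e (nat_lit 992) (nat_lit 81) .nil)))))))) (.g (nat_lit 5) .nil .nil)))) (.nd (nat_lit 5) 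
(.lf (nat_lit 89746) (.g (nat_lit 4550) (.e (nat_lit 2031) (nat_lit 140) (.e (nat_lit 688177) (nat_lit 16) (.e (nat_lit 65586) (nat_lit 7) (.e (nat_lit 319531) (nat_lit 16) (.e (nat_lit 286756) (nat_lit 10) (.e (nat_lit 344168) (nat_lit 40) (.e (nat_lit 671751) (nat_lit 0) (.e (nat_lit 982) (nat_lit 81) .nil)))))))) (.g (nat_lit 7) .nil .nil))) 
(.lf (nat_lit 89778) (.g (nat_lit 3990) (.e (nat_lit 2031) (nat_lit 140) (.e (nat_lit 688177) (nat_lit 16) (.e (nat_lit 65586) (nat_lit 7) (.e (nat_lit 319531) (nat_lit 16) (.e (nat_lit 286759) (nat_lit 12) (.e (nat_lit 385094) (nat_lit 49) (.e (nat_lit 778254) (nat_lit 0) (.e (nat_lit 7936) (nat_lit 81) .nil)))))))) (.g (nat_lit 7) .nil .nil))))) (.nd (nat_lit 4) (.nd (nat_lit 5) 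
(.lf (nat_lit 89738) (.g (nat_lit 4736) (.e (nat_lit 2031) (nat_lit 140) (.e (nat_lit 688177) (nat_lit 16) (.e (nat_lit 65586) (nat_lit 7) (.e (nat_lit 319531) (nat_lit 16) (.e (nat_lit 286755) (nat_lit 10) (.e (nat_lit 344169) (nat_lit 40) (.e (nat_lit 671748) (nat_lit 0) (.e (nat_lit 982) (nat_lit 81) .nil)))))))) (.g (nat_lit 7) .nil .nil))) 
(.lf (nat_lit 89770) (.g (nat_lit 3282) (.e (nat_lit 2031) (nat_lit 140) (.e (nat_lit 688177) (nat_lit 16) (.e (nat_lit 65586) (nat_lit 7) (.e (nat_lit 319531) (nat_lit 16) (.e (nat_lit 286759) (nat_lit 12) (.e (nat_lit 385094) (nat_lit 49) (.e (nat_lit 778241) (nat_lit 0) (.e (nat_lit 974) (nat_lit 81) .nil)))))))) (.g (nat_lit 6) .nil .nil)))) (.nd (nat_lit 5) 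
(.lf (nat_lit 89754) (.g (nat_lit 4425) (.e (nat_lit 2031) (nat_lit 140) (.e (nat_lit 688177) (nat_lit 16) (.e (nat_lit 65586) (nat_lit 7) (.e (nat_lit 319531) (nat_lit 16) (.e (nat_lit 286756) (nat_lit 10) (.e (nat_lit 344169) (nat_lit 40) (.e (nat_lit 671751) (nat_lit 0) (.e (nat_lit 982) (nat_lit 81) .nil)))))))) (.g (nat_lit 7) .nil .nil))) 
(.lf (nat_lit 89786) (.g (nat_lit 2494) (.e (nat_lit 2031) (nat_lit 140) (.e (nat_lit 688177) (nat_lit 16) (.e (nat_lit 65586) (nat_lit 7) (.e (nat_lit 319531) (nat_lit 16) (.e (nat_lit 286759) (nat_lit 12) (.e (nat_lit 385094) (nat_lit 49) (.e (nat_lit 778290) (nat_lit 0) (.e (nat_lit 982) (nat_lit 81) .nil)))))))) (.g (nat_lit 4) .nil .nil)))))) 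
(.nd (nat_lit 3) (.nd (nat_lit 4) (.nd (nat_lit 5) 
(.lf (nat_lit 89734) (.g (nat_lit 2575) (.e (nat_lit 2031) (nat_lit 140) (.e (nat_lit 688177) (nat_lit 16) (.e (nat_lit 65586) (nat_lit 7) (.e (nat_lit 319531) (nat_lit 16) (.e (nat_lit 286755) (nat_lit 10) (.e (nat_lit 344168) (nat_lit 40) (.e (nat_lit 671751) (nat_lit 0) (.e (nat_lit 7936) (nat_lit 81) .nil)))))))) (.g (nat_lit 4) .nil .nil))) 
(.lf (nat_lit 89766) (.g (nat_lit 3703) (.e (nat_lit 2031) (nat_lit 140) (.e (nat_lit 688177) (nat_lit 16) (.e (nat_lit 65586) (nat_lit 7) (.e (nat_lit 319531) (nat_lit 16) (.e (nat_lit 286759) (nat_lit 12) (.e (nat_lit 385092) (nat_lit 49) (.e (nat_lit 778297) (nat_lit 0) (.e (nat_lit 993) (nat_lit 81) .nil)))))))) (.g (nat_lit 7) .nil .nil)))) (.nd (nat_lit 5) 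
(.lf (nat_lit 89750) (.g (nat_lit 3292) (.e (nat_lit 2031) (nat_lit 140) (.e (nat_lit 688177) (nat_lit 16) (.e (nat_lit 65586) (nat_lit 7) (.e (nat_lit 319531) (nat_lit 16) (.e (nat_lit 286756) (nat_lit 10) (.e (nat_lit 344169) (nat_lit 40) (.e (nat_lit 671746) (nat_lit 0) (.e (nat_lit 982) (nat_lit 81) .nil)))))))) (.g (nat_lit 5) .nil .nil))) 
(.lf (nat_lit 89782) (.g (nat_lit 4710) (.e (nat_lit 2031) (nat_lit 140) (.e (nat_lit 688177) (nat_lit 16) (.e (nat_lit 65586) (nat_lit 7) (.e (nat_lit 319531) (nat_lit 16) (.e (nat_lit 286759) (nat_lit 12) (.e (nat_lit 385094) (nat_lit 49) (.e (nat_lit 778258) (nat_lit 0) (.e (nat_lit 7936) (nat_lit 81) .nil)))))))) (.g (nat_lit 7) .nil .nil))))) (.nd (nat_lit 4) (.nd (nat_lit 5) 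
(.lf (nat_lit 89742) (.g (nat_lit 3863) (.e (nat_lit 2031) (nat_lit 140) (.e (nat_lit 688177) (nat_lit 16) (.e (nat_lit 65586) (nat_lit 7) (.e (nat_lit 319531) (nat_lit 16) (.e (nat_lit 286756) (nat_lit 10) (.e (nat_lit 344104) (nat_lit 18) (.e (nat_lit 5949) (nat_lit 322) (.e (nat_lit 57347) (nat_lit 0) .nil)))))))) (.g (nat_lit 5) .nil .nil))) 
(.lf (nat_lit 89774) (.g (nat_lit 4088) (.e (nat_lit 2031) (nat_lit 140) (.e (nat_lit 688177) (nat_lit 16) (.e (nat_lit 65586) (nat_lit 7) (.e (nat_lit 319531) (nat_lit 16) (.e (nat_lit 286759) (nat_lit 12) (.e (nat_lit 385094) (nat_lit 49) (.e (nat_lit 778246) (nat_lit 0) (.e (nat_lit 998) (nat_lit 81) .nil)))))))) (.g (nat_lit 7) .nil .nil)))) (.nd (nat_lit 5) 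
(.lf (nat_lit 89758) (.g (nat_lit 1590) (.e (nat_lit 2031) (nat_lit 140) (.e (nat_lit 688177) (nat_lit 16) (.e (nat_lit 65586) (nat_lit 7) (.e (nat_lit 319531) (nat_lit 16) (.e (nat_lit 286759) (nat_lit 12) .nil))))) .nil)) 
(.lf (nat_lit 89790) (.g (nat_lit 4033) (.e (nat_lit 2031) (nat_lit 140) (.e (nat_lit 688177) (nat_lit 16) (.e (nat_lit 65586) (nat_lit 7) (.e (nat_lit 319531) (nat_lit 16) (.e (nat_lit 286759) (nat_lit 12) (.e (nat_lit 385094) (nat_lit 49) (.e (nat_lit 778297) (nat_lit 0) (.e (nat_lit 992) (nat_lit 81) .nil)))))))) (.g (nat_lit 6) .nil .nil)))))))) 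
(.nd (nat_lit 1) (.nd (nat_lit 2) (.nd (nat_lit 3) (.nd (nat_lit 4) (.nd (nat_lit 5) 
(.lf (nat_lit 89729) (.g (nat_lit 2682) (.e (nat_lit 2031) (nat_lit 140) (.e (nat_lit 688177) (nat_lit 16) (.e (nat_lit 65586) (nat_lit 7) (.e (nat_lit 319531) (nat_lit 16) (.e (nat_lit 286755) (nat_lit 10) (.e (nat_lit 352000) (nat_lit 18) (.e (nat_lit 5936) (nat_lit 322) (.e (nat_lit 57348) (nat_lit 0) .nil)))))))) (.g (nat_lit 4) .nil .nil))) 
(.lf (nat_lit 89761) (.g (nat_lit 2668) (.e (nat_lit 2031) (nat_lit 140) (.e (nat_lit 688177) (nat_lit 16) (.e (nat_lit 65586) (nat_lit 7) (.e (nat_lit 319531) (nat_lit 16) (.e (nat_lit 286759) (nat_lit 12) (.e (nat_lit 385092) (nat_lit 49) (.e (nat_lit 778251) (nat_lit 0) (.e (nat_lit 982) (nat_lit 81) .nil)))))))) (.g (nat_lit 5) .nil .nil)))) (.nd (nat_lit 5) 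
(.lf (nat_lit 89745) (.g (nat_lit 2734) (.e (nat_lit 2031) (nat_lit 140) (.e (nat_lit 688177) (nat_lit 16) (.e (nat_lit 65586) (nat_lit 7) (.e (nat_lit 319531) (nat_lit 16) (.e (nat_lit 286756) (nat_lit 10) (.e (nat_lit 344168) (nat_lit 40) (.e (nat_lit 671747) (nat_lit 0) (.e (nat_lit 982) (nat_lit 81) .nil)))))))) (.g (nat_lit 4) .nil .nil))) 
(.lf (nat_lit 89777) (.g (nat_lit 3520) (.e (nat_lit 2031) (nat_lit 140) (.e (nat_lit 688177) (nat_lit 16) (.e (nat_lit 65586) (nat_lit 7) (.e (nat_lit 319531) (nat_lit 16) (.e (nat_lit 286759) (nat_lit 12) (.e (nat_lit 385094) (nat_lit 49) (.e (nat_lit 778253) (nat_lit 0) (.e (nat_lit 7936) (nat_lit 81) .nil)))))))) (.g (nat_lit 7) .nil .nil))))) (.nd (nat_lit 4) (.nd (nat_lit 5) 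
(.lf (nat_lit 89737) (.g (nat_lit 2649) (.e (nat_lit 2031) (nat_lit 140) (.e (nat_lit 688177) (nat_lit 16) (.e (nat_lit 65586) (nat_lit 7) (.e (nat_lit 319531) (nat_lit 16) (.e (nat_lit 286755) (nat_lit 10) (.e (nat_lit 344169) (nat_lit 40) (.e (nat_lit 671747) (nat_lit 0) (.e (nat_lit 982) (nat_lit 81) .nil)))))))) (.g (nat_lit 4) .nil .nil))) 
(.lf (nat_lit 89769) (.g (nat_lit 2806) (.e (nat_lit 2031) (nat_lit 140) (.e (nat_lit 688177) (nat_lit 16) (.e (nat_lit 65586) (nat_lit 7) (.e (nat_lit 319531) (nat_lit 16) (.e (nat_lit 286759) (nat_lit 12) (.e (nat_lit 385092) (nat_lit 49) (.e (nat_lit 786176) (nat_lit 0) (.e (nat_lit 999) (nat_lit 81) .nil)))))))) (.g (nat_lit 4) .nil .nil)))) (.nd (nat_lit 5) 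
(.lf (nat_lit 89753) (.g (nat_lit 4763) (.e (nat_lit 2031) (nat_lit 140) (.e (nat_lit 688177) (nat_lit 16) (.e (nat_lit 65586) (nat_lit 7) (.e (nat_lit 319531) (nat_lit 16) (.e (nat_lit 286756) (nat_lit 10) (.e (nat_lit 344169) (nat_lit 40) (.e (nat_lit 671748) (nat_lit 0) (.e (nat_lit 982) (nat_lit 81) .nil)))))))) (.g (nat_lit 7) .nil .nil))) 
(.lf (nat_lit 89785) (.g (nat_lit 3553) (.e (nat_lit 2031) (nat_lit 140) (.e (nat_lit 688177) (nat_lit 16) (.e (nat_lit 65586) (nat_lit 7) (.e (nat_lit 319531) (nat_lit 16) (.e (nat_lit 286759) (nat_lit 12) (.e (nat_lit 385094) (nat_lit 49) (.e (nat_lit 778272) (nat_lit 0) (.e (nat_lit 7936) (nat_lit 81) .nil)))))))) (.g (nat_lit 6) .nil .nil)))))) 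
(.nd (nat_lit 3) (.nd (nat_lit 4) (.nd (nat_lit 5) 
(.lf (nat_lit 89733) (.g (nat_lit 3800) (.e (nat_lit 2031) (nat_lit 140) (.e (nat_lit 688177) (nat_lit 16) (.e (nat_lit 65586) (nat_lit 7) (.e (nat_lit 319531) (nat_lit 16) (.e (nat_lit 286755) (nat_lit 10) (.e (nat_lit 344168) (nat_lit 40) (.e (nat_lit 671751) (nat_lit 0) (.e (nat_lit 982) (nat_lit 81) .nil)))))))) (.g (nat_lit 6) .nil .nil))) 
(.lf (nat_lit 89765) (.g (nat_lit 3060) (.e (nat_lit 2031) (nat_lit 140) (.e (nat_lit 688177) (nat_lit 16) (.e (nat_lit 65586) (nat_lit 7) (.e (nat_lit 319531) (nat_lit 16) (.e (nat_lit 286759) (nat_lit 12) (.e (nat_lit 385092) (nat_lit 49) (.e (nat_lit 778297) (nat_lit 0) (.e (nat_lit 992) (nat_lit 81) .nil)))))))) (.g (nat_lit 5) .nil .nil)))) (.nd (nat_lit 5) 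
(.lf (nat_lit 89749) (.g (nat_lit 3718) (.e (nat_lit 2031) (nat_lit 140) (.e (nat_lit 688177) (nat_lit 16) (.e (nat_lit 65586) (nat_lit 7) (.e (nat_lit 319531) (nat_lit 16) (.e (nat_lit 286756) (nat_lit 10) (.e (nat_lit 344169) (nat_lit 40) (.e (nat_lit 671744) (nat_lit 0) (.e (nat_lit 999) (nat_lit 81) .nil)))))))) (.g (nat_lit 5) .nil .nil))) 
(.lf (nat_lit 89781) (.g (nat_lit 4824) (.e (nat_lit 2031) (nat_lit 140) (.e (nat_lit 688177) (nat_lit 16) (.e (nat_lit 65586) (nat_lit 7) (.e (nat_lit 319531) (nat_lit 16) (.e (nat_lit 286759) (nat_lit 12) (.e (nat_lit 385094) (nat_lit 49) (.e (nat_lit 778257) (nat_lit 0) (.e (nat_lit 7936) (nat_lit 81) .nil)))))))) (.g (nat_lit 7) .nil .nil))))) (.nd (nat_lit 4) (.nd (nat_lit 5) 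
(.lf (nat_lit 89741) (.g (nat_lit 3454) (.e (nat_lit 2031) (nat_lit 140) (.e (nat_lit 688177) (nat_lit 16) (.e (nat_lit 65586) (nat_lit 7) (.e (nat_lit 319531) (nat_lit 16) (.e (nat_lit 286756) (nat_lit 10) (.e (nat_lit 344103) (nat_lit 18) (.e (nat_lit 5949) (nat_lit 322) (.e (nat_lit 57347) (nat_lit 0) .nil)))))))) (.g (nat_lit 5) .nil .nil))) 
(.lf (nat_lit 89773) (.g (nat_lit 4307) (.e (nat_lit 2031) (nat_lit 140) (.e (nat_lit 688177) (nat_lit 16) (.e (nat_lit 65586) (nat_lit 7) (.e (nat_lit 319531) (nat_lit 16) (.e (nat_lit 286759) (nat_lit 12) (.e (nat_lit 385094) (nat_lit 49) (.e (nat_lit 778246) (nat_lit 0) (.e (nat_lit 996) (nat_lit 81) .nil)))))))) (.g (nat_lit 7) .nil .nil)))) (.nd (nat_lit 5) 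
(.lf (nat_lit 89757) (.g (nat_lit 2564) (.e (nat_lit 2031) (nat_lit 140) (.e (nat_lit 688177) (nat_lit 16) (.e (nat_lit 65586) (nat_lit 7) (.e (nat_lit 319531) (nat_lit 16) (.e (nat_lit 286758) (nat_lit 12) (.e (nat_lit 385106) (nat_lit 50) (.e (nat_lit 786444) (nat_lit 15) .nil))))))) (.g (nat_lit 4) .nil .nil))) 
(.lf (nat_lit 89789) (.g (nat_lit 4842) (.e (nat_lit 2031) (nat_lit 140) (.e (nat_lit 688177) (nat_lit 16) (.e (nat_lit 65586) (nat_lit 7) (.e (nat_lit 319531) (nat_lit 16) (.e (nat_lit 286759) (nat_lit 12) (.e (nat_lit 385094) (nat_lit 49) (.e (nat_lit 778292) (nat_lit 0) (.e (nat_lit 7936) (nat_lit 81) .nil)))))))) (.g (nat_lit 7) .nil .nil))))))) 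
(.nd (nat_lit 2) (.nd (nat_lit 3) (.nd (nat_lit 4) (.nd (nat_lit 5) 
(.lf (nat_lit 89731) (.g (nat_lit 3055) (.e (nat_lit 2031) (nat_lit 140) (.e (nat_lit 688177) (nat_lit 16) (.e (nat_lit 65586) (nat_lit 7) (.e (nat_lit 319531) (nat_lit 16) (.e (nat_lit 286755) (nat_lit 10) (.e (nat_lit 352000) (nat_lit 18) (.e (nat_lit 5937) (nat_lit 322) (.e (nat_lit 57347) (nat_lit 0) .nil)))))))) (.g (nat_lit 4) .nil .nil))) 
(.lf (nat_lit 89763) (.g (nat_lit 3972) (.e (nat_lit 2031) (nat_lit 140) (.e (nat_lit 688177) (nat_lit 16) (.e (nat_lit 65586) (nat_lit 7) (.e (nat_lit 319531) (nat_lit 16) (.e (nat_lit 286759) (nat_lit 12) (.e (nat_lit 385092) (nat_lit 49) (.e (nat_lit 778295) (nat_lit 0) (.e (nat_lit 993) (nat_lit 81) .nil)))))))) (.g (nat_lit 7) .nil .nil)))) (.nd (nat_lit 5) 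
(.lf (nat_lit 89747) (.g (nat_lit 3325) (.e (nat_lit 2031) (nat_lit 140) (.e (nat_lit 688177) (nat_lit 16) (.e (nat_lit 65586) (nat_lit 7) (.e (nat_lit 319531) (nat_lit 16) (.e (nat_lit 286756) (nat_lit 10) (.e (nat_lit 344168) (nat_lit 40) (.e (nat_lit 671751) (nat_lit 0) (.e (nat_lit 7936) (nat_lit 81) .nil)))))))) (.g (nat_lit 6) .nil .nil))) 
(.lf (nat_lit 89779) (.g (nat_lit 4746) (.e (nat_lit 2031) (nat_lit 140) (.e (nat_lit 688177) (nat_lit 16) (.e (nat_lit 65586) (nat_lit 7) (.e (nat_lit 319531) (nat_lit 16) (.e (nat_lit 286759) (nat_lit 12) (.e (nat_lit 385094) (nat_lit 49) (.e (nat_lit 778255) (nat_lit 0) (.e (nat_lit 7936) (nat_lit 81) .nil)))))))) (.g (nat_lit 7) .nil .nil))))) (.nd (nat_lit 4) (.nd (nat_lit 5) 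
(.lf (nat_lit 89739) (.g (nat_lit 3896) (.e (nat_lit 2031) (nat_lit 140) (.e (nat_lit 688177) (nat_lit 16) (.e (nat_lit 65586) (nat_lit 7) (.e (nat_lit 319531) (nat_lit 16) (.e (nat_lit 286755) (nat_lit 10) (.e (nat_lit 344169) (nat_lit 40) (.e (nat_lit 671751) (nat_lit 0) (.e (nat_lit 982) (nat_lit 81) .nil)))))))) (.g (nat_lit 6) .nil .nil))) 
(.lf (nat_lit 89771) (.g (nat_lit 2860) (.e (nat_lit 2031) (nat_lit 140) (.e (nat_lit 688177) (nat_lit 16) (.e (nat_lit 65586) (nat_lit 7) (.e (nat_lit 319531) (nat_lit 16) (.e (nat_lit 286759) (nat_lit 12) (.e (nat_lit 385094) (nat_lit 49) (.e (nat_lit 778241) (nat_lit 0) (.e (nat_lit 7936) (nat_lit 81) .nil)))))))) (.g (nat_lit 6) .nil .nil)))) (.nd (nat_lit 5) 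
(.lf (nat_lit 89755) (.g (nat_lit 2074) (.e (nat_lit 2031) (nat_lit 140) (.e (nat_lit 688177) (nat_lit 16) (.e (nat_lit 65586) (nat_lit 7) (.e (nat_lit 319531) (nat_lit 16) (.e (nat_lit 286758) (nat_lit 12) (.e (nat_lit 385105) (nat_lit 50) (.e (nat_lit 786444) (nat_lit 15) .nil))))))) (.g (nat_lit 4) .nil .nil))) 
(.lf (nat_lit 89787) (.g (nat_lit 3477) (.e (nat_lit 2031) (nat_lit 140) (.e (nat_lit 688177) (nat_lit 16) (.e (nat_lit 65586) (nat_lit 7) (.e (nat_lit 319531) (nat_lit 16) (.e (nat_lit 286759) (nat_lit 12) (.e (nat_lit 385094) (nat_lit 49) (.e (nat_lit 778290) (nat_lit 0) (.e (nat_lit 7936) (nat_lit 81) .nil)))))))) (.g (nat_lit 7) .nil .nil)))))) 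
(.nd (nat_lit 3) (.nd (nat_lit 4) (.nd (nat_lit 5) 
(.lf (nat_lit 89735) (.g (nat_lit 3567) (.e (nat_lit 2031) (nat_lit 140) (.e (nat_lit 688177) (nat_lit 16) (.e (nat_lit 65586) (nat_lit 7) (.e (nat_lit 319531) (nat_lit 16) (.e (nat_lit 286755) (nat_lit 10) (.e (nat_lit 344169) (nat_lit 40) (.e (nat_lit 671744) (nat_lit 0) (.e (nat_lit 999) (nat_lit 81) .nil)))))))) (.g (nat_lit 4) .nil .nil))) 
(.lf (nat_lit 89767) (.g (nat_lit 2942) (.e (nat_lit 2031) (nat_lit 140) (.e (nat_lit 688177) (nat_lit 16) (.e (nat_lit 65586) (nat_lit 7) (.e (nat_lit 319531) (nat_lit 16) (.e (nat_lit 286759) (nat_lit 12) (.e (nat_lit 385092) (nat_lit 49) (.e (nat_lit 778297) (nat_lit 0) (.e (nat_lit 994) (nat_lit 81) .nil)))))))) (.g (nat_lit 5) .nil .nil)))) (.nd (nat_lit 5) 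
(.lf (nat_lit 89751) (.g (nat_lit 2211) (.e (nat_lit 2031) (nat_lit 140) (.e (nat_lit 688177) (nat_lit 16) (.e (nat_lit 65586) (nat_lit 7) (.e (nat_lit 319531) (nat_lit 16) (.e (nat_lit 286756) (nat_lit 10) (.e (nat_lit 344169) (nat_lit 40) (.e (nat_lit 671746) (nat_lit 0) (.e (nat_lit 7936) (nat_lit 81) .nil)))))))) (.g (nat_lit 4) .nil .nil))) 
(.lf (nat_lit 89783) (.g (nat_lit 4706) (.e (nat_lit 2031) (nat_lit 140) (.e (nat_lit 688177) (nat_lit 16) (.e (nat_lit 65586) (nat_lit 7) (.e (nat_lit 319531) (nat_lit 16) (.e (nat_lit 286759) (nat_lit 12) (.e (nat_lit 385094) (nat_lit 49) (.e (nat_lit 778271) (nat_lit 0) (.e (nat_lit 7936) (nat_lit 81) .nil)))))))) (.g (nat_lit 7) .nil .nil))))) (.nd (nat_lit 4) (.nd (nat_lit 5) 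
(.lf (nat_lit 89743) (.g (nat_lit 2481) (.e (nat_lit 2031) (nat_lit 140) (.e (nat_lit 688177) (nat_lit 16) (.e (nat_lit 65586) (nat_lit 7) (.e (nat_lit 319531) (nat_lit 16) (.e (nat_lit 286756) (nat_lit 10) (.e (nat_lit 344168) (nat_lit 40) (.e (nat_lit 671744) (nat_lit 0) (.e (nat_lit 974) (nat_lit 81) .nil)))))))) (.g (nat_lit 4) .nil .nil))) 
(.lf (nat_lit 89775) (.g (nat_lit 4501) (.e (nat_lit 2031) (nat_lit 140) (.e (nat_lit 688177) (nat_lit 16) (.e (nat_lit 65586) (nat_lit 7) (.e (nat_lit 319531) (nat_lit 16) (.e (nat_lit 286759) (nat_lit 12) (.e (nat_lit 385094) (nat_lit 49) (.e (nat_lit 778246) (nat_lit 0) (.e (nat_lit 1000) (nat_lit 81) .nil)))))))) (.g (nat_lit 8) .nil .nil)))) (.nd (nat_lit 5) 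
(.lf (nat_lit 89759) (.g (nat_lit 3596) (.e (nat_lit 2031) (nat_lit 140) (.e (nat_lit 688177) (nat_lit 16) (.e (nat_lit 65586) (nat_lit 7) (.e (nat_lit 319531) (nat_lit 16) (.e (nat_lit 286759) (nat_lit 12) (.e (nat_lit 385090) (nat_lit 49) (.e (nat_lit 786176) (nat_lit 0) (.e (nat_lit 999) (nat_lit 81) .nil)))))))) (.g (nat_lit 5) .nil .nil))) 
(.lf (nat_lit 89791) (.g (nat_lit 4596) (.e (nat_lit 2031) (nat_lit 140) (.e (nat_lit 688177) (nat_lit 16) (.e (nat_lit 65586) (nat_lit 7) (.e (nat_lit 319531) (nat_lit 16) (.e (nat_lit 286759) (nat_lit 12) (.e (nat_lit 385094) (nat_lit 49) (.e (nat_lit 778297) (nat_lit 0) (.e (nat_lit 993) (nat_lit 81) .nil)))))))) (.g (nat_lit 8) .nil .nil)))))))))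

noncomputable def tv1227 : DT := (.nd (nat_lit 0) (.nd (nat_lit 1) (.nd (nat_lit 2) (.nd (nat_lit 3) (.nd (nat_lit 4) (.nd (nat_lit 5) 
(.lf (nat_lit 89792) (.g (nat_lit 3915) (.e (nat_lit 2031) (nat_lit 140) (.e (nat_lit 688177) (nat_lit 16) (.e (nat_lit 65586) (nat_lit 7) (.e (nat_lit 319531) (nat_lit 16) (.e (nat_lit 286759) (nat_lit 12) (.e (nat_lit 385094) (nat_lit 49) (.e (nat_lit 778297) (nat_lit 0) (.e (nat_lit 994) (nat_lit 81) .nil)))))))) (.g (nat_lit 6) .nil .nil))) 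
(.lf (nat_lit 89824) (.g (nat_lit 2907) (.e (nat_lit 2031) (nat_lit 140) (.e (nat_lit 688177) (nat_lit 16) (.e (nat_lit 65586) (nat_lit 7) (.e (nat_lit 319534) (nat_lit 16) (.e (nat_lit 286749) (nat_lit 9) (.e (nat_lit 335907) (nat_lit 0) (.e (nat_lit 1996) (nat_lit 137) (.e (nat_lit 663554) (nat_lit 0) (.e (nat_lit 982) (nat_lit 81) .nil))))))))) (.g (nat_lit 4) .nil .nil)))) (.nd (nat_lit 5) 
(.lf (nat_lit 89808) (.g (nat_lit 4886) (.e (nat_lit 2031) (nat_lit 140) (.e (nat_lit 688177) (nat_lit 16) (.e (nat_lit 65586) (nat_lit 7) (.e (nat_lit 319531) (nat_lit 16) (.e (nat_lit 286762) (nat_lit 14) (.e (nat_lit 401437) (nat_lit 9) (.e (nat_lit 426354) (nat_lit 15) .nil))))))) (.g (nat_lit 0) .nil .nil))) 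
(.lf (nat_lit 89840) (.g (nat_lit 2584) (.e (nat_lit 2031) (nat_lit 140) (.e (nat_lit 688177) (nat_lit 16) (.e (nat_lit 65586) (nat_lit 7) (.e (nat_lit 319534) (nat_lit 16) (.e (nat_lit 286756) (nat_lit 10) (.e (nat_lit 344168) (nat_lit 40) (.e (nat_lit 671747) (nat_lit 0) (.e (nat_lit 982) (nat_lit 81) .nil)))))))) (.g (nat_lit 4) .nil .nil))))) (.nd (nat_lit 4) (.nd (nat_lit 5) 
(.lf (nat_lit 89800) (.g (nat_lit 3740) (.e (nat_lit 2031) (nat_lit 140) (.e (nat_lit 688177) (nat_lit 16) (.e (nat_lit 65586) (nat_lit 7) (.e (nat_lit 319531) (nat_lit 16) (.e (nat_lit 286759) (nat_lit 12) (.e (nat_lit 385104) (nat_lit 50) (.e (nat_lit 786444) (nat_lit 15) .nil))))))) (.g (nat_lit 6) .nil .nil))) 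
(.lf (nat_lit 89832) (.g (nat_lit 3518) (.e (nat_lit 2031) (nat_lit 140) (.e (nat_lit 688177) (nat_lit 16) (.e (nat_lit 65586) (nat_lit 7) (.e (nat_lit 319534) (nat_lit 16) (.e (nat_lit 286752) (nat_lit 10) (.e (nat_lit 344169) (nat_lit 40) (.e (nat_lit 671751) (nat_lit 0) (.e (nat_lit 982) (nat_lit 81) .nil)))))))) (.g (nat_lit 6) .nil .nil)))) (.nd (nat_lit 5) 
(.lf (nat_lit 89816) (.g (nat_lit 3265) (.e (nat_lit 2031) (nat_lit 140) (.e (nat_lit 688177) (nat_lit 16) (.e (nat_lit 65586) (nat_lit 7) (.e (nat_lit 319533) (nat_lit 16) (.e (nat_lit 286753) (nat_lit 10) (.e (nat_lit 344169) (nat_lit 40) (.e (nat_lit 671744) (nat_lit 0) (.e (nat_lit 999) (nat_lit 81) .nil)))))))) (.g (nat_lit 5) .nil .nil))) 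
(.lf (nat_lit 89848) (.g (nat_lit 3924) (.e (nat_lit 2031) (nat_lit 140) (.e (nat_lit 688177) (nat_lit 16) (.e (nat_lit 65586) (nat_lit 7) (.e (nat_lit 319534) (nat_lit 16) (.e (nat_lit 286762) (nat_lit 14) (.e (nat_lit 401436) (nat_lit 9) (.e (nat_lit 426354) (nat_lit 15) .nil))))))) (.g (nat_lit 7) .nil .nil)))))) (.nd (nat_lit 3) (.nd (nat_lit 4) (.nd (nat_lit 5) 
(.lf (nat_lit 89796) (.g (nat_lit 4292) (.e (nat_lit 2031) (nat_lit 140) (.e (nat_lit 688177) (nat_lit 16) (.e (nat_lit 65586) (nat_lit 7) (.e (nat_lit 319531) (nat_lit 16) (.e (nat_lit 286759) (nat_lit 12) (.e (nat_lit 385094) (nat_lit 49) (.e (nat_lit 778309) (nat_lit 0) (.e (nat_lit 7936) (nat_lit 81) .nil)))))))) (.g (nat_lit 6) .nil .nil))) 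
(.lf (nat_lit 89828) (.g (nat_lit 2482) (.e (nat_lit 2031) (nat_lit 140) (.e (nat_lit 688177) (nat_lit 16) (.e (nat_lit 65586) (nat_lit 7) (.e (nat_lit 319534) (nat_lit 16) (.e (nat_lit 286752) (nat_lit 10) (.e (nat_lit 344169) (nat_lit 40) (.e (nat_lit 671746) (nat_lit 0) (.e (nat_lit 982) (nat_lit 81) .nil)))))))) (.g (nat_lit 4) .nil .nil)))) (.nd (nat_lit 5) 
(.lf (nat_lit 89812) (.g (nat_lit 2915) (.e (nat_lit 2031) (nat_lit 140) (.e (nat_lit 688177) (nat_lit 16) (.e (nat_lit 65586) (nat_lit 7) (.e (nat_lit 319531) (nat_lit 16) (.e (nat_lit 286762) (nat_lit 14) (.e (nat_lit 401438) (nat_lit 9) (.e (nat_lit 426360) (nat_lit 15) .nil))))))) (.g (nat_lit 4) .nil .nil))) 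
(.lf (nat_lit 89844) (.g (nat_lit 3188) (.e (nat_lit 2031) (nat_lit 140) (.e (nat_lit 688177) (nat_lit 16) (.e (nat_lit 65586) (nat_lit 7) (.e (nat_lit 319534) (nat_lit 16) (.e (nat_lit 286756) (nat_lit 10) (.e (nat_lit 344169) (nat_lit 40) (.e (nat_lit 671746) (nat_lit 0) (.e (nat_lit 982) (nat_lit 81) .nil)))))))) (.g (nat_lit 5) .nil .nil))))) (.nd (nat_lit 4) (.nd (nat_lit 5) 
(.lf (nat_lit 89804) (.g (nat_lit 3539) (.e (nat_lit 2031) (nat_lit 140) (.e (nat_lit 688177) (nat_lit 16) (.e (nat_lit 65586) (nat_lit 7) (.e (nat_lit 319531) (nat_lit 16) (.e (nat_lit 286759) (nat_lit 12) (.e (nat_lit 385106) (nat_lit 50) (.e (nat_lit 794368) (nat_lit 15) .nil))))))) (.g (nat_lit 6) .nil .nil))) 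
(.lf (nat_lit 89836) (.g (nat_lit 3083) (.e (nat_lit 2031) (nat_lit 140) (.e (nat_lit 688177) (nat_lit 16) (.e (nat_lit 65586) (nat_lit 7) (.e (nat_lit 319534) (nat_lit 16) (.e (nat_lit 286756) (nat_lit 10) (.e (nat_lit 344104) (nat_lit 18) (.e (nat_lit 5949) (nat_lit 322) (.e (nat_lit 57347) (nat_lit 0) .nil)))))))) (.g (nat_lit 5) .nil .nil)))) (.nd (nat_lit 5) 
(.lf (nat_lit 89820) (.g (nat_lit 3663) (.e (nat_lit 2031) (nat_lit 140) (.e (nat_lit 688177) (nat_lit 16) (.e (nat_lit 65586) (nat_lit 7) (.e (nat_lit 319533) (nat_lit 16) (.e (nat_lit 286753) (nat_lit 10) (.e (nat_lit 344169) (nat_lit 40) (.e (nat_lit 671751) (nat_lit 0) (.e (nat_lit 982) (nat_lit 81) .nil)))))))) (.g (nat_lit 6) .nil .nil))) 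
(.lf (nat_lit 89852) (.g (nat_lit 371) (.e (nat_lit 2031) (nat_lit 140) (.e (nat_lit 688177) (nat_lit 16) (.e (nat_lit 65610) (nat_lit 10) .nil))) .nil)))))) (.nd (nat_lit 2) (.nd (nat_lit 3) (.nd (nat_lit 4) (.nd (nat_lit 5) 
(.lf (nat_lit 89794) (.g (nat_lit 4173) (.e (nat_lit 2031) (nat_lit 140) (.e (nat_lit 688177) (nat_lit 16) (.e (nat_lit 65586) (nat_lit 7) (.e (nat_lit 319531) (nat_lit 16) (.e (nat_lit 286759) (nat_lit 12) (.e (nat_lit 385094) (nat_lit 49) (.e (nat_lit 778299) (nat_lit 0) (.e (nat_lit 7936) (nat_lit 81) .nil)))))))) (.g (nat_lit 6) .nil .nil))) 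
(.lf (nat_lit 89826) (.g (nat_lit 3033) (.e (nat_lit 2031) (nat_lit 140) (.e (nat_lit 688177) (nat_lit 16) (.e (nat_lit 65586) (nat_lit 7) (.e (nat_lit 319534) (nat_lit 16) (.e (nat_lit 286751) (nat_lit 10) (.e (nat_lit 344104) (nat_lit 18) (.e (nat_lit 5947) (nat_lit 322) (.e (nat_lit 57347) (nat_lit 0) .nil)))))))) (.g (nat_lit 4) .nil .nil)))) (.nd (nat_lit 5) 
(.lf (nat_lit 89810) (.g (nat_lit 4643) (.e (nat_lit 2031) (nat_lit 140) (.e (nat_lit 688177) (nat_lit 16) (.e (nat_lit 65586) (nat_lit 7) (.e (nat_lit 319531) (nat_lit 16) (.e (nat_lit 286762) (nat_lit 14) (.e (nat_lit 401438) (nat_lit 9) (.e (nat_lit 426350) (nat_lit 15) .nil))))))) (.g (nat_lit 7) .nil .nil))) 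
(.lf (nat_lit 89842) (.g (nat_lit 2224) (.e (nat_lit 2031) (nat_lit 140) (.e (nat_lit 688177) (nat_lit 16) (.e (nat_lit 65586) (nat_lit 7) (.e (nat_lit 319534) (nat_lit 16) (.e (nat_lit 286756) (nat_lit 10) (.e (nat_lit 344169) (nat_lit 40) (.e (nat_lit 671744) (nat_lit 0) (.e (nat_lit 974) (nat_lit 81) .nil)))))))) (.g (nat_lit 4) .nil .nil))))) (.nd (nat_lit 4) (.nd (nat_lit 5) 
(.lf (nat_lit 89802) (.g (nat_lit 3886) (.e (nat_lit 2031) (nat_lit 140) (.e (nat_lit 688177) (nat_lit 16) (.e (nat_lit 65586) (nat_lit 7) (.e (nat_lit 319531) (nat_lit 16) (.e (nat_lit 286759) (nat_lit 12) (.e (nat_lit 385105) (nat_lit 50) (.e (nat_lit 794368) (nat_lit 15) .nil))))))) (.g (nat_lit 6) .nil .nil))) 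
(.lf (nat_lit 89834) (.g (nat_lit 3132) (.e (nat_lit 2031) (nat_lit 140) (.e (nat_lit 688177) (nat_lit 16) (.e (nat_lit 65586) (nat_lit 7) (.e (nat_lit 319534) (nat_lit 16) (.e (nat_lit 286753) (nat_lit 10) (.e (nat_lit 344169) (nat_lit 40) (.e (nat_lit 671748) (nat_lit 0) (.e (nat_lit 982) (nat_lit 81) .nil)))))))) (.g (nat_lit 4) .nil .nil)))) (.nd (nat_lit 5) 
(.lf (nat_lit 89818) (.g (nat_lit 2509) (.e (nat_lit 2031) (nat_lit 140) (.e (nat_lit 688177) (nat_lit 16) (.e (nat_lit 65586) (nat_lit 7) (.e (nat_lit 319533) (nat_lit 16) (.e (nat_lit 286753) (nat_lit 10) (.e (nat_lit 344169) (nat_lit 40) (.e (nat_lit 671747) (nat_lit 0) (.e (nat_lit 982) (nat_lit 81) .nil)))))))) (.g (nat_lit 5) .nil .nil))) 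
(.lf (nat_lit 89850) (.g (nat_lit 3845) (.e (nat_lit 2031) (nat_lit 140) (.e (nat_lit 688177) (nat_lit 16) (.e (nat_lit 65586) (nat_lit 7) (.e (nat_lit 319534) (nat_lit 16) (.e (nat_lit 286762) (nat_lit 14) (.e (nat_lit 401438) (nat_lit 9) (.e (nat_lit 426350) (nat_lit 15) .nil))))))) (.g (nat_lit 6) .nil .nil)))))) (.nd (nat_lit 3) (.nd (nat_lit 4) (.nd (nat_lit 5) 
(.lf (nat_lit 89798) (.g (nat_lit 3535) (.e (nat_lit 2031) (nat_lit 140) (.e (nat_lit 688177) (nat_lit 16) (.e (nat_lit 65586) (nat_lit 7) (.e (nat_lit 319531) (nat_lit 16) (.e (nat_lit 286759) (nat_lit 12) (.e (nat_lit 385098) (nat_lit 49) (.e (nat_lit 786176) (nat_lit 0) (.e (nat_lit 999) (nat_lit 81) .nil)))))))) (.g (nat_lit 5) .nil .nil))) 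
(.lf (nat_lit 89830) (.g (nat_lit 4389) (.e (nat_lit 2031) (nat_lit 140) (.e (nat_lit 688177) (nat_lit 16) (.e (nat_lit 65586) (nat_lit 7) (.e (nat_lit 319534) (nat_lit 16) (.e (nat_lit 286752) (nat_lit 10) (.e (nat_lit 344169) (nat_lit 40) (.e (nat_lit 671748) (nat_lit 0) (.e (nat_lit 982) (nat_lit 81) .nil)))))))) (.g (nat_lit 7) .nil .nil)))) (.nd (nat_lit 5) 
(.lf (nat_lit 89814) (.g (nat_lit 3031) (.e (nat_lit 2031) (nat_lit 140) (.e (nat_lit 688177) (nat_lit 16) (.e (nat_lit 65586) (nat_lit 7) (.e (nat_lit 319533) (nat_lit 16) (.e (nat_lit 286753) (nat_lit 10) (.e (nat_lit 344168) (nat_lit 40) (.e (nat_lit 671751) (nat_lit 0) (.e (nat_lit 982) (nat_lit 81) .nil)))))))) (.g (nat_lit 5) .nil .nil))) 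
(.lf (nat_lit 89846) (.g (nat_lit 4719) (.e (nat_lit 2031) (nat_lit 140) (.e (nat_lit 688177) (nat_lit 16) (.e (nat_lit 65586) (nat_lit 7) (.e (nat_lit 319534) (nat_lit 16) (.e (nat_lit 286756) (nat_lit 10) (.e (nat_lit 344169) (nat_lit 40) (.e (nat_lit 671748) (nat_lit 0) (.e (nat_lit 982) (nat_lit 81) .nil)))))))) (.g (nat_lit 7) .nil .nil))))) (.nd (nat_lit 4) (.nd (nat_lit 5) 
(.lf (nat_lit 89806) (.g (nat_lit 3336) (.e (nat_lit 2031) (nat_lit 140) (.e (nat_lit 688177) (nat_lit 16) (.e (nat_lit 65586) (nat_lit 7) (.e (nat_lit 319531) (nat_lit 16) (.e (nat_lit 286762) (nat_lit 14) (.e (nat_lit 401436) (nat_lit 9) (.e (nat_lit 426350) (nat_lit 15) .nil))))))) (.g (nat_lit 5) .nil .nil))) 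
(.lf (nat_lit 89838) (.g (nat_lit 3847) (.e (nat_lit 2031) (nat_lit 140) (.e (nat_lit 688177) (nat_lit 16) (.e (nat_lit 65586) (nat_lit 7) (.e (nat_lit 319534) (nat_lit 16) (.e (nat_lit 286756) (nat_lit 10) (.e (nat_lit 344168) (nat_lit 40) (.e (nat_lit 671744) (nat_lit 0) (.e (nat_lit 999) (nat_lit 81) .nil)))))))) (.g (nat_lit 5) .nil .nil)))) (.nd (nat_lit 5) 
(.lf (nat_lit 89822) (.g (nat_lit 2198) (.e (nat_lit 2031) (nat_lit 140) (.e (nat_lit 688177) (nat_lit 16) (.e (nat_lit 65586) (nat_lit 7) (.e (nat_lit 319534) (nat_lit 16) (.e (nat_lit 286740) (nat_lit 7) (.e (nat_lit 319539) (nat_lit 19) (.e (nat_lit 319232) (nat_lit 15) .nil))))))) (.g (nat_lit 5) .nil .nil))) 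
(.lf (nat_lit 89854) (.g (nat_lit 2323) (.e (nat_lit 2031) (nat_lit 140) (.e (nat_lit 688177) (nat_lit 16) (.e (nat_lit 65610) (nat_lit 10) (.e (nat_lit 344097) (nat_lit 18) (.e (nat_lit 5045) (nat_lit 292) (.e (nat_lit 2646) (nat_lit 166) (.e (nat_lit 196352) (nat_lit 0) .nil))))))) (.g (nat_lit 4) .nil .nil)))))))) 
(.nd (nat_lit 1) (.nd (nat_lit 2) (.nd (nat_lit 3) (.nd (nat_lit 4) (.nd (nat_lit 5) 
(.lf (nat_lit 89793) (.g (nat_lit 4192) (.e (nat_lit 2031) (nat_lit 140) (.e (nat_lit 688177) (nat_lit 16) (.e (nat_lit 65586) (nat_lit 7) (.e (nat_lit 319531) (nat_lit 16) (.e (nat_lit 286759) (nat_lit 12) (.e (nat_lit 385094) (nat_lit 49) (.e (nat_lit 778298) (nat_lit 0) (.e (nat_lit 7936) (nat_lit 81) .nil)))))))) (.g (nat_lit 6) .nil .nil))) 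
(.lf (nat_lit 89825) (.g (nat_lit 2874) (.e (nat_lit 2031) (nat_lit 140) (.e (nat_lit 688177) (nat_lit 16) (.e (nat_lit 65586) (nat_lit 7) (.e (nat_lit 319534) (nat_lit 16) (.e (nat_lit 286749) (nat_lit 9) (.e (nat_lit 336032) (nat_lit 4) (.e (nat_lit 123197) (nat_lit 266) (.e (nat_lit 57347) (nat_lit 0) .nil)))))))) (.g (nat_lit 4) .nil .nil)))) (.nd (nat_lit 5) 
(.lf (nat_lit 89809) (.g (nat_lit 3849) (.e (nat_lit 2031) (nat_lit 140) (.e (nat_lit 688177) (nat_lit 16) (.e (nat_lit 65586) (nat_lit 7) (.e (nat_lit 319531) (nat_lit 16) (.e (nat_lit 286762) (nat_lit 14) (.e (nat_lit 401437) (nat_lit 9) (.e (nat_lit 426360) (nat_lit 15) .nil))))))) (.g (nat_lit 5) .nil .nil))) 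
(.lf (nat_lit 89841) (.g (nat_lit 4395) (.e (nat_lit 2031) (nat_lit 140) (.e (nat_lit 688177) (nat_lit 16) (.e (nat_lit 65586) (nat_lit 7) (.e (nat_lit 319534) (nat_lit 16) (.e (nat_lit 286756) (nat_lit 10) (.e (nat_lit 344168) (nat_lit 40) (.e (nat_lit 671751) (nat_lit 0) (.e (nat_lit 982) (nat_lit 81) .nil)))))))) (.g (nat_lit 7) .nil .nil))))) (.nd (nat_lit 4) (.nd (nat_lit 5) 
(.lf (nat_lit 89801) (.g (nat_lit 4047) (.e (nat_lit 2031) (nat_lit 140) (.e (nat_lit 688177) (nat_lit 16) (.e (nat_lit 65586) (nat_lit 7) (.e (nat_lit 319531) (nat_lit 16) (.e (nat_lit 286759) (nat_lit 12) (.e (nat_lit 385105) (nat_lit 50) (.e (nat_lit 786444) (nat_lit 15) .nil))))))) (.g (nat_lit 6) .nil .nil))) 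
(.lf (nat_lit 89833) (.g (nat_lit 2293) (.e (nat_lit 2031) (nat_lit 140) (.e (nat_lit 688177) (nat_lit 16) (.e (nat_lit 65586) (nat_lit 7) (.e (nat_lit 319534) (nat_lit 16) (.e (nat_lit 286752) (nat_lit 10) (.e (nat_lit 344169) (nat_lit 40) (.e (nat_lit 671751) (nat_lit 0) (.e (nat_lit 7936) (nat_lit 81) .nil)))))))) (.g (nat_lit 4) .nil .nil)))) (.nd (nat_lit 5) 
(.lf (nat_lit 89817) (.g (nat_lit 2720) (.e (nat_lit 2031) (nat_lit 140) (.e (nat_lit 688177) (nat_lit 16) (.e (nat_lit 65586) (nat_lit 7) (.e (nat_lit 319533) (nat_lit 16) (.e (nat_lit 286753) (nat_lit 10) (.e (nat_lit 344169) (nat_lit 40) (.e (nat_lit 671746) (nat_lit 0) (.e (nat_lit 982) (nat_lit 81) .nil)))))))) (.g (nat_lit 5) .nil .nil))) 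
(.lf (nat_lit 89849) (.g (nat_lit 4170) (.e (nat_lit 2031) (nat_lit 140) (.e (nat_lit 688177) (nat_lit 16) (.e (nat_lit 65586) (nat_lit 7) (.e (nat_lit 319534) (nat_lit 16) (.e (nat_lit 286762) (nat_lit 14) (.e (nat_lit 401437) (nat_lit 9) (.e (nat_lit 426354) (nat_lit 15) .nil))))))) (.g (nat_lit 7) .nil .nil)))))) (.nd (nat_lit 3) (.nd (nat_lit 4) (.nd (nat_lit 5) 
(.lf (nat_lit 89797) (.g (nat_lit 3743) (.e (nat_lit 2031) (nat_lit 140) (.e (nat_lit 688177) (nat_lit 16) (.e (nat_lit 65586) (nat_lit 7) (.e (nat_lit 319531) (nat_lit 16) (.e (nat_lit 286759) (nat_lit 12) (.e (nat_lit 385094) (nat_lit 49) (.e (nat_lit 786176) (nat_lit 0) (.e (nat_lit 999) (nat_lit 81) .nil)))))))) (.g (nat_lit 6) .nil .nil))) 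
(.lf (nat_lit 89829) (.g (nat_lit 2271) (.e (nat_lit 2031) (nat_lit 140) (.e (nat_lit 688177) (nat_lit 16) (.e (nat_lit 65586) (nat_lit 7) (.e (nat_lit 319534) (nat_lit 16) (.e (nat_lit 286752) (nat_lit 10) (.e (nat_lit 344169) (nat_lit 40) (.e (nat_lit 671747) (nat_lit 0) (.e (nat_lit 982) (nat_lit 81) .nil)))))))) (.g (nat_lit 4) .nil .nil)))) (.nd (nat_lit 5) 
(.lf (nat_lit 89813) (.g (nat_lit 2470) (.e (nat_lit 2031) (nat_lit 140) (.e (nat_lit 688177) (nat_lit 16) (.e (nat_lit 65586) (nat_lit 7) (.e (nat_lit 319533) (nat_lit 16) (.e (nat_lit 286753) (nat_lit 10) (.e (nat_lit 344168) (nat_lit 40) (.e (nat_lit 671744) (nat_lit 0) (.e (nat_lit 999) (nat_lit 81) .nil)))))))) (.g (nat_lit 4) .nil .nil))) 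
(.lf (nat_lit 89845) (.g (nat_lit 2998) (.e (nat_lit 2031) (nat_lit 140) (.e (nat_lit 688177) (nat_lit 16) (.e (nat_lit 65586) (nat_lit 7) (.e (nat_lit 319534) (nat_lit 16) (.e (nat_lit 286756) (nat_lit 10) (.e (nat_lit 344169) (nat_lit 40) (.e (nat_lit 671747) (nat_lit 0) (.e (nat_lit 982) (nat_lit 81) .nil)))))))) (.g (nat_lit 5) .nil .nil))))) (.nd (nat_lit 4) (.nd (nat_lit 5) 
(.lf (nat_lit 89805) (.g (nat_lit 3881) (.e (nat_lit 2031) (nat_lit 140) (.e (nat_lit 688177) (nat_lit 16) (.e (nat_lit 65586) (nat_lit 7) (.e (nat_lit 319531) (nat_lit 16) (.e (nat_lit 286762) (nat_lit 14) (.e (nat_lit 401435) (nat_lit 9) (.e (nat_lit 426354) (nat_lit 15) .nil))))))) (.g (nat_lit 5) .nil .nil))) 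
(.lf (nat_lit 89837) (.g (nat_lit 2344) (.e (nat_lit 2031) (nat_lit 140) (.e (nat_lit 688177) (nat_lit 16) (.e (nat_lit 65586) (nat_lit 7) (.e (nat_lit 319534) (nat_lit 16) (.e (nat_lit 286756) (nat_lit 10) (.e (nat_lit 344168) (nat_lit 40) (.e (nat_lit 671744) (nat_lit 0) (.e (nat_lit 974) (nat_lit 81) .nil)))))))) (.g (nat_lit 4) .nil .nil)))) (.nd (nat_lit 5) 
(.lf (nat_lit 89821) (.g (nat_lit 2319) (.e (nat_lit 2031) (nat_lit 140) (.e (nat_lit 688177) (nat_lit 16) (.e (nat_lit 65586) (nat_lit 7) (.e (nat_lit 319533) (nat_lit 16) (.e (nat_lit 286762) (nat_lit 14) (.e (nat_lit 401437) (nat_lit 9) (.e (nat_lit 426354) (nat_lit 15) .nil))))))) (.g (nat_lit 4) .nil .nil))) 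
(.lf (nat_lit 89853) (.g (nat_lit 2218) (.e (nat_lit 2031) (nat_lit 140) (.e (nat_lit 688177) (nat_lit 16) (.e (nat_lit 65610) (nat_lit 10) (.e (nat_lit 344097) (nat_lit 18) (.e (nat_lit 5045) (nat_lit 292) (.e (nat_lit 2645) (nat_lit 166) (.e (nat_lit 196352) (nat_lit 0) .nil))))))) (.g (nat_lit 4) .nil .nil))))))) (.nd (nat_lit 2) (.nd (nat_lit 3) (.nd (nat_lit 4) (.nd (nat_lit 5) 
(.lf (nat_lit 89795) (.g (nat_lit 5065) (.e (nat_lit 2031) (nat_lit 140) (.e (nat_lit 688177) (nat_lit 16) (.e (nat_lit 65586) (nat_lit 7) (.e (nat_lit 319531) (nat_lit 16) (.e (nat_lit 286759) (nat_lit 12) (.e (nat_lit 385094) (nat_lit 49) (.e (nat_lit 778307) (nat_lit 0) (.e (nat_lit 7936) (nat_lit 81) .nil)))))))) (.g (nat_lit 7) .nil .nil))) 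
(.lf (nat_lit 89827) (.g (nat_lit 3189) (.e (nat_lit 2031) (nat_lit 140) (.e (nat_lit 688177) (nat_lit 16) (.e (nat_lit 65586) (nat_lit 7) (.e (nat_lit 319534) (nat_lit 16) (.e (nat_lit 286752) (nat_lit 10) (.e (nat_lit 344169) (nat_lit 40) (.e (nat_lit 671744) (nat_lit 0) (.e (nat_lit 999) (nat_lit 81) .nil)))))))) (.g (nat_lit 4) .nil .nil)))) (.nd (nat_lit 5) 
(.lf (nat_lit 89811) (.g (nat_lit 4438) (.e (nat_lit 2031) (nat_lit 140) (.e (nat_lit 688177) (nat_lit 16) (.e (nat_lit 65586) (nat_lit 7) (.e (nat_lit 319531) (nat_lit 16) (.e (nat_lit 286762) (nat_lit 14) (.e (nat_lit 401438) (nat_lit 9) (.e (nat_lit 426354) (nat_lit 15) .nil))))))) (.g (nat_lit 6) .nil .nil))) 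
(.lf (nat_lit 89843) (.g (nat_lit 3623) (.e (nat_lit 2031) (nat_lit 140) (.e (nat_lit 688177) (nat_lit 16) (.e (nat_lit 65586) (nat_lit 7) (.e (nat_lit 319534) (nat_lit 16) (.e (nat_lit 286756) (nat_lit 10) (.e (nat_lit 344169) (nat_lit 40) (.e (nat_lit 671744) (nat_lit 0) (.e (nat_lit 999) (nat_lit 81) .nil)))))))) (.g (nat_lit 5) .nil .nil))))) (.nd (nat_lit 4) (.nd (nat_lit 5) 
(.lf (nat_lit 89803) (.g (nat_lit 4366) (.e (nat_lit 2031) (nat_lit 140) (.e (nat_lit 688177) (nat_lit 16) (.e (nat_lit 65586) (nat_lit 7) (.e (nat_lit 319531) (nat_lit 16) (.e (nat_lit 286759) (nat_lit 12) (.e (nat_lit 385106) (nat_lit 50) (.e (nat_lit 786444) (nat_lit 15) .nil))))))) (.g (nat_lit 7) .nil .nil))) 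
(.lf (nat_lit 89835) (.g (nat_lit 1804) (.e (nat_lit 2031) (nat_lit 140) (.e (nat_lit 688177) (nat_lit 16) (.e (nat_lit 65586) (nat_lit 7) (.e (nat_lit 319534) (nat_lit 16) (.e (nat_lit 286756) (nat_lit 10) .nil))))) .nil))) (.nd (nat_lit 5) 
(.lf (nat_lit 89819) (.g (nat_lit 4463) (.e (nat_lit 2031) (nat_lit 140) (.e (nat_lit 688177) (nat_lit 16) (.e (nat_lit 65586) (nat_lit 7) (.e (nat_lit 319533) (nat_lit 16) (.e (nat_lit 286753) (nat_lit 10) (.e (nat_lit 344169) (nat_lit 40) (.e (nat_lit 671748) (nat_lit 0) (.e (nat_lit 982) (nat_lit 81) .nil)))))))) (.g (nat_lit 7) .nil .nil))) 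
(.lf (nat_lit 89851) (.g (nat_lit 3640) (.e (nat_lit 2031) (nat_lit 140) (.e (nat_lit 688177) (nat_lit 16) (.e (nat_lit 65586) (nat_lit 7) (.e (nat_lit 319534) (nat_lit 16) (.e (nat_lit 286762) (nat_lit 14) (.e (nat_lit 401438) (nat_lit 9) (.e (nat_lit 426354) (nat_lit 15) .nil))))))) (.g (nat_lit 6) .nil .nil)))))) (.nd (nat_lit 3) (.nd (nat_lit 4) (.nd (nat_lit 5) 
(.lf (nat_lit 89799) (.g (nat_lit 3533) (.e (nat_lit 2031) (nat_lit 140) (.e (nat_lit 688177) (nat_lit 16) (.e (nat_lit 65586) (nat_lit 7) (.e (nat_lit 319531) (nat_lit 16) (.e (nat_lit 286759) (nat_lit 12) (.e (nat_lit 385102) (nat_lit 50) (.e (nat_lit 786444) (nat_lit 15) .nil))))))) (.g (nat_lit 6) .nil .nil))) 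
(.lf (nat_lit 89831) (.g (nat_lit 2352) (.e (nat_lit 2031) (nat_lit 140) (.e (nat_lit 688177) (nat_lit 16) (.e (nat_lit 65586) (nat_lit 7) (.e (nat_lit 319534) (nat_lit 16) (.e (nat_lit 286752) (nat_lit 10) (.e (nat_lit 344169) (nat_lit 40) (.e (nat_lit 671748) (nat_lit 0) (.e (nat_lit 7936) (nat_lit 81) .nil)))))))) (.g (nat_lit 4) .nil .nil)))) (.nd (nat_lit 5) 
(.lf (nat_lit 89815) (.g (nat_lit 1806) (.e (nat_lit 2031) (nat_lit 140) (.e (nat_lit 688177) (nat_lit 16) (.e (nat_lit 65586) (nat_lit 7) (.e (nat_lit 319533) (nat_lit 16) (.e (nat_lit 286753) (nat_lit 10) (.e (nat_lit 344168) (nat_lit 40) (.e (nat_lit 671751) (nat_lit 0) (.e (nat_lit 7936) (nat_lit 81) .nil)))))))) (.g (nat_lit 4) .nil .nil))) 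
(.lf (nat_lit 89847) (.g (nat_lit 4323) (.e (nat_lit 2031) (nat_lit 140) (.e (nat_lit 688177) (nat_lit 16) (.e (nat_lit 65586) (nat_lit 7) (.e (nat_lit 319534) (nat_lit 16) (.e (nat_lit 286756) (nat_lit 10) (.e (nat_lit 344169) (nat_lit 40) (.e (nat_lit 671751) (nat_lit 0) (.e (nat_lit 982) (nat_lit 81) .nil)))))))) (.g (nat_lit 7) .nil .nil))))) (.nd (nat_lit 4) (.nd (nat_lit 5) 
(.lf (nat_lit 89807) (.g (nat_lit 2736) (.e (nat_lit 2031) (nat_lit 140) (.e (nat_lit 688177) (nat_lit 16) (.e (nat_lit 65586) (nat_lit 7) (.e (nat_lit 319531) (nat_lit 16) (.e (nat_lit 286762) (nat_lit 14) (.e (nat_lit 401436) (nat_lit 9) (.e (nat_lit 426360) (nat_lit 15) .nil))))))) (.g (nat_lit 4) .nil .nil))) 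
(.lf (nat_lit 89839) (.g (nat_lit 2453) (.e (nat_lit 2031) (nat_lit 140) (.e (nat_lit 688177) (nat_lit 16) (.e (nat_lit 65586) (nat_lit 7) (.e (nat_lit 319534) (nat_lit 16) (.e (nat_lit 286756) (nat_lit 10) (.e (nat_lit 344168) (nat_lit 40) (.e (nat_lit 671746) (nat_lit 0) (.e (nat_lit 982) (nat_lit 81) .nil)))))))) (.g (nat_lit 4) .nil .nil)))) (.nd (nat_lit 5) 
(.lf (nat_lit 89823) (.g (nat_lit 2763) (.e (nat_lit 2031) (nat_lit 140) (.e (nat_lit 688177) (nat_lit 16) (.e (nat_lit 65586) (nat_lit 7) (.e (nat_lit 319534) (nat_lit 16) (.e (nat_lit 286749) (nat_lit 9) (.e (nat_lit 335907) (nat_lit 0) (.e (nat_lit 970) (nat_lit 81) (.e (nat_lit 5954) (nat_lit 322) (.e (nat_lit 57347) (nat_lit 0) .nil))))))))) (.g (nat_lit 4) .nil .nil))) 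
(.lf (nat_lit 89855) (.g (nat_lit 3088) (.e (nat_lit 2031) (nat_lit 140) (.e (nat_lit 688177) (nat_lit 16) (.e (nat_lit 65610) (nat_lit 10) (.e (nat_lit 344097) (nat_lit 18) (.e (nat_lit 5055) (nat_lit 292) (.e (nat_lit 2645) (nat_lit 166) (.e (nat_lit 196352) (nat_lit 0) .nil))))))) (.g (nat_lit 5) .nil .nil)))))))))

noncomputable def tv1228 : DT := (.nd (nat_lit 0) (.nd (nat_lit 1) (.nd (nat_lit 2) (.nd (nat_lit 3) (.nd (nat_lit 4) (.nd (nat_lit 5) 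
(.lf (nat_lit 89856) (.g (nat_lit 3494) (.e (nat_lit 2031) (nat_lit 140) (.e (nat_lit 688177) (nat_lit 16) (.e (nat_lit 65610) (nat_lit 10) (.e (nat_lit 344097) (nat_lit 18) (.e (nat_lit 5055) (nat_lit 292) (.e (nat_lit 2646) (nat_lit 166) (.e (nat_lit 196352) (nat_lit 0) .nil))))))) (.g (nat_lit 5) .nil .nil))) 
(.lf (nat_lit 89888) (.g (nat_lit 2927) (.e (nat_lit 2031) (nat_lit 140) (.e (nat_lit 688177) (nat_lit 16) (.e (nat_lit 65610) (nat_lit 10) (.e (nat_lit 344160) (nat_lit 37) (.e (nat_lit 647195) (nat_lit 9) (.e (nat_lit 420) (nat_lit 32) (.e (nat_lit 426225) (nat_lit 9) (.e (nat_lit 426354) (nat_lit 15) .nil)))))))) (.g (nat_lit 5) .nil .nil)))) (.nd (nat_lit 5) 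
(.lf (nat_lit 89872) (.g (nat_lit 1724) (.e (nat_lit 2031) (nat_lit 140) (.e (nat_lit 688177) (nat_lit 16) (.e (nat_lit 65610) (nat_lit 10) (.e (nat_lit 344156) (nat_lit 36) (.e (nat_lit 638983) (nat_lit 5) .nil))))) .nil)) 
(.lf (nat_lit 89904) (.g (nat_lit 2235) (.e (nat_lit 2031) (nat_lit 140) (.e (nat_lit 688177) (nat_lit 16) (.e (nat_lit 65610) (nat_lit 10) (.e (nat_lit 344160) (nat_lit 37) (.e (nat_lit 647195) (nat_lit 9) (.e (nat_lit 426) (nat_lit 32) (.e (nat_lit 426199) (nat_lit 9) (.e (nat_lit 426350) (nat_lit 15) .nil)))))))) (.g (nat_lit 4) .nil .nil))))) (.nd (nat_lit 4) (.nd (nat_lit 5) 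
(.lf (nat_lit 89864) (.g (nat_lit 2614) (.e (nat_lit 2031) (nat_lit 140) (.e (nat_lit 688177) (nat_lit 16) (.e (nat_lit 65610) (nat_lit 10) (.e (nat_lit 344097) (nat_lit 18) (.e (nat_lit 5219) (nat_lit 296) (.e (nat_lit 163920) (nat_lit 14) (.e (nat_lit 450304) (nat_lit 0) .nil))))))) (.g (nat_lit 4) .nil .nil))) 
(.lf (nat_lit 89896) (.g (nat_lit 3581) (.e (nat_lit 2031) (nat_lit 140) (.e (nat_lit 688177) (nat_lit 16) (.e (nat_lit 65610) (nat_lit 10) (.e (nat_lit 344160) (nat_lit 37) (.e (nat_lit 647195) (nat_lit 9) (.e (nat_lit 420) (nat_lit 32) (.e (nat_lit 426261) (nat_lit 9) (.e (nat_lit 426349) (nat_lit 15) .nil)))))))) (.g (nat_lit 6) .nil .nil)))) (.nd (nat_lit 5) 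
(.lf (nat_lit 89880) (.g (nat_lit 3345) (.e (nat_lit 2031) (nat_lit 140) (.e (nat_lit 688177) (nat_lit 16) (.e (nat_lit 65610) (nat_lit 10) (.e (nat_lit 344160) (nat_lit 37) (.e (nat_lit 647190) (nat_lit 9) (.e (nat_lit 7936) (nat_lit 37) (.e (nat_lit 474880) (nat_lit 0) .nil))))))) (.g (nat_lit 5) .nil .nil))) 
(.lf (nat_lit 89912) (.g (nat_lit 3219) (.e (nat_lit 2031) (nat_lit 140) (.e (nat_lit 688177) (nat_lit 16) (.e (nat_lit 65610) (nat_lit 10) (.e (nat_lit 344160) (nat_lit 37) (.e (nat_lit 647199) (nat_lit 11) (.e (nat_lit 16435) (nat_lit 9) (.e (nat_lit 426354) (nat_lit 15) .nil))))))) (.g (nat_lit 6) .nil .nil)))))) (.nd (nat_lit 3) (.nd (nat_lit 4) (.nd (nat_lit 5) 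
(.lf (nat_lit 89860) (.g (nat_lit 2150) (.e (nat_lit 2031) (nat_lit 140) (.e (nat_lit 688177) (nat_lit 16) (.e (nat_lit 65610) (nat_lit 10) (.e (nat_lit 344097) (nat_lit 18) (.e (nat_lit 5091) (nat_lit 292) .nil))))) .nil)) 
(.lf (nat_lit 89892) (.g (nat_lit 2902) (.e (nat_lit 2031) (nat_lit 140) (.e (nat_lit 688177) (nat_lit 16) (.e (nat_lit 65610) (nat_lit 10) (.e (nat_lit 344160) (nat_lit 37) (.e (nat_lit 647195) (nat_lit 9) (.e (nat_lit 420) (nat_lit 32) (.e (nat_lit 426258) (nat_lit 9) (.e (nat_lit 426353) (nat_lit 15) .nil)))))))) (.g (nat_lit 5) .nil .nil)))) (.nd (nat_lit 5) 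
(.lf (nat_lit 89876) (.g (nat_lit 2071) (.e (nat_lit 2031) (nat_lit 140) (.e (nat_lit 688177) (nat_lit 16) (.e (nat_lit 65610) (nat_lit 10) (.e (nat_lit 344157) (nat_lit 36) (.e (nat_lit 638985) (nat_lit 5) (.e (nat_lit 2999) (nat_lit 186) (.e (nat_lit 450304) (nat_lit 0) .nil))))))) (.g (nat_lit 4) .nil .nil))) 
(.lf (nat_lit 89908) (.g (nat_lit 2712) (.e (nat_lit 2031) (nat_lit 140) (.e (nat_lit 688177) (nat_lit 16) (.e (nat_lit 65610) (nat_lit 10) (.e (nat_lit 344160) (nat_lit 37) (.e (nat_lit 647195) (nat_lit 9) (.e (nat_lit 7936) (nat_lit 34) (.e (nat_lit 450304) (nat_lit 0) .nil))))))) (.g (nat_lit 5) .nil .nil))))) (.nd (nat_lit 4) (.nd (nat_lit 5) 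
(.lf (nat_lit 89868) (.g (nat_lit 2068) (.e (nat_lit 2031) (nat_lit 140) (.e (nat_lit 688177) (nat_lit 16) (.e (nat_lit 65610) (nat_lit 10) (.e (nat_lit 344097) (nat_lit 18) (.e (nat_lit 5243) (nat_lit 297) .nil))))) .nil)) 
(.lf (nat_lit 89900) (.g (nat_lit 1932) (.e (nat_lit 2031) (nat_lit 140) (.e (nat_lit 688177) (nat_lit 16) (.e (nat_lit 65610) (nat_lit 10) (.e (nat_lit 344160) (nat_lit 37) (.e (nat_lit 647195) (nat_lit 9) (.e (nat_lit 426) (nat_lit 32) (.e (nat_lit 426187) (nat_lit 9) (.e (nat_lit 426350) (nat_lit 15) .nil)))))))) (.g (nat_lit 4) .nil .nil)))) (.nd (nat_lit 5) 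
(.lf (nat_lit 89884) (.g (nat_lit 2039) (.e (nat_lit 2031) (nat_lit 140) (.e (nat_lit 688177) (nat_lit 16) (.e (nat_lit 65610) (nat_lit 10) (.e (nat_lit 344160) (nat_lit 37) (.e (nat_lit 647195) (nat_lit 9) (.e (nat_lit 417) (nat_lit 32) (.e (nat_lit 426260) (nat_lit 9) (.e (nat_lit 426349) (nat_lit 15) .nil)))))))) (.g (nat_lit 4) .nil .nil))) 
(.lf (nat_lit 89916) (.g (nat_lit 2874) (.e (nat_lit 2031) (nat_lit 140) (.e (nat_lit 688177) (nat_lit 16) (.e (nat_lit 65610) (nat_lit 10) (.e (nat_lit 344160) (nat_lit 37) (.e (nat_lit 647199) (nat_lit 11) (.e (nat_lit 16437) (nat_lit 9) (.e (nat_lit 426354) (nat_lit 15) .nil))))))) (.g (nat_lit 6) .nil .nil))))))) (.nd (nat_lit 2) (.nd (nat_lit 3) (.nd (nat_lit 4) (.nd (nat_lit 5) 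
(.lf (nat_lit 89858) (.g (nat_lit 2153) (.e (nat_lit 2031) (nat_lit 140) (.e (nat_lit 688177) (nat_lit 16) (.e (nat_lit 65610) (nat_lit 10) (.e (nat_lit 344097) (nat_lit 18) (.e (nat_lit 5072) (nat_lit 292) .nil))))) .nil)) 
(.lf (nat_lit 89890) (.g (nat_lit 2761) (.e (nat_lit 2031) (nat_lit 140) (.e (nat_lit 688177) (nat_lit 16) (.e (nat_lit 65610) (nat_lit 10) (.e (nat_lit 344160) (nat_lit 37) (.e (nat_lit 647195) (nat_lit 9) (.e (nat_lit 420) (nat_lit 32) (.e (nat_lit 426230) (nat_lit 9) (.e (nat_lit 426349) (nat_lit 15) .nil)))))))) (.g (nat_lit 5) .nil .nil)))) (.nd (nat_lit 5) 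
(.lf (nat_lit 89874) (.g (nat_lit 2779) (.e (nat_lit 2031) (nat_lit 140) (.e (nat_lit 688177) (nat_lit 16) (.e (nat_lit 65610) (nat_lit 10) (.e (nat_lit 344156) (nat_lit 36) (.e (nat_lit 638998) (nat_lit 8) (.e (nat_lit 172087) (nat_lit 9) (.e (nat_lit 426350) (nat_lit 15) .nil))))))) (.g (nat_lit 5) .nil .nil))) 
(.lf (nat_lit 89906) (.g (nat_lit 2894) (.e (nat_lit 2031) (nat_lit 140) (.e (nat_lit 688177) (nat_lit 16) (.e (nat_lit 65610) (nat_lit 10) (.e (nat_lit 344160) (nat_lit 37) (.e (nat_lit 647195) (nat_lit 9) (.e (nat_lit 7936) (nat_lit 32) (.e (nat_lit 426230) (nat_lit 9) (.e (nat_lit 426353) (nat_lit 15) .nil)))))))) (.g (nat_lit 5) .nil .nil))))) (.nd (nat_lit 4) (.nd (nat_lit 5) 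
(.lf (nat_lit 89866) (.g (nat_lit 2514) (.e (nat_lit 2031) (nat_lit 140) (.e (nat_lit 688177) (nat_lit 16) (.e (nat_lit 65610) (nat_lit 10) (.e (nat_lit 344097) (nat_lit 18) (.e (nat_lit 5219) (nat_lit 296) (.e (nat_lit 163932) (nat_lit 17) (.e (nat_lit 474880) (nat_lit 0) .nil))))))) (.g (nat_lit 4) .nil .nil))) 
(.lf (nat_lit 89898) (.g (nat_lit 3239) (.e (nat_lit 2031) (nat_lit 140) (.e (nat_lit 688177) (nat_lit 16) (.e (nat_lit 65610) (nat_lit 10) (.e (nat_lit 344160) (nat_lit 37) (.e (nat_lit 647195) (nat_lit 9) (.e (nat_lit 420) (nat_lit 32) (.e (nat_lit 426262) (nat_lit 9) (.e (nat_lit 433920) (nat_lit 15) .nil)))))))) (.g (nat_lit 5) .nil .nil)))) (.nd (nat_lit 5) 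
(.lf (nat_lit 89882) (.g (nat_lit 2039) (.e (nat_lit 2031) (nat_lit 140) (.e (nat_lit 688177) (nat_lit 16) (.e (nat_lit 65610) (nat_lit 10) (.e (nat_lit 344160) (nat_lit 37) (.e (nat_lit 647195) (nat_lit 9) (.e (nat_lit 417) (nat_lit 32) (.e (nat_lit 426230) (nat_lit 9) (.e (nat_lit 426349) (nat_lit 15) .nil)))))))) (.g (nat_lit 4) .nil .nil))) 
(.lf (nat_lit 89914) (.g (nat_lit 4315) (.e (nat_lit 2031) (nat_lit 140) (.e (nat_lit 688177) (nat_lit 16) (.e (nat_lit 65610) (nat_lit 10) (.e (nat_lit 344160) (nat_lit 37) (.e (nat_lit 647199) (nat_lit 11) (.e (nat_lit 16436) (nat_lit 9) (.e (nat_lit 426354) (nat_lit 15) .nil))))))) (.g (nat_lit 0) .nil .nil)))))) (.nd (nat_lit 3) (.nd (nat_lit 4) (.nd (nat_lit 5) 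
(.lf (nat_lit 89862) (.g (nat_lit 2154) (.e (nat_lit 2031) (nat_lit 140) (.e (nat_lit 688177) (nat_lit 16) (.e (nat_lit 65610) (nat_lit 10) (.e (nat_lit 344097) (nat_lit 18) (.e (nat_lit 5103) (nat_lit 292) .nil))))) .nil)) 
(.lf (nat_lit 89894) (.g (nat_lit 3788) (.e (nat_lit 2031) (nat_lit 140) (.e (nat_lit 688177) (nat_lit 16) (.e (nat_lit 65610) (nat_lit 10) (.e (nat_lit 344160) (nat_lit 37) (.e (nat_lit 647195) (nat_lit 9) (.e (nat_lit 420) (nat_lit 32) (.e (nat_lit 426260) (nat_lit 9) (.e (nat_lit 426349) (nat_lit 15) .nil)))))))) (.g (nat_lit 7) .nil .nil)))) (.nd (nat_lit 5) 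
(.lf (nat_lit 89878) (.g (nat_lit 1483) (.e (nat_lit 2031) (nat_lit 140) (.e (nat_lit 688177) (nat_lit 16) (.e (nat_lit 65610) (nat_lit 10) (.e (nat_lit 344160) (nat_lit 37) (.e (nat_lit 647190) (nat_lit 9) .nil))))) .nil)) 
(.lf (nat_lit 89910) (.g (nat_lit 3193) (.e (nat_lit 2031) (nat_lit 140) (.e (nat_lit 688177) (nat_lit 16) (.e (nat_lit 65610) (nat_lit 10) (.e (nat_lit 344160) (nat_lit 37) (.e (nat_lit 647199) (nat_lit 11) (.e (nat_lit 16433) (nat_lit 9) (.e (nat_lit 426354) (nat_lit 15) .nil))))))) (.g (nat_lit 6) .nil .nil))))) (.nd (nat_lit 4) (.nd (nat_lit 5) 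
(.lf (nat_lit 89870) (.g (nat_lit 3266) (.e (nat_lit 2031) (nat_lit 140) (.e (nat_lit 688177) (nat_lit 16) (.e (nat_lit 65610) (nat_lit 10) (.e (nat_lit 344097) (nat_lit 18) (.e (nat_lit 5243) (nat_lit 297) (.e (nat_lit 229412) (nat_lit 14) (.e (nat_lit 450304) (nat_lit 0) .nil))))))) (.g (nat_lit 5) .nil .nil))) 
(.lf (nat_lit 89902) (.g (nat_lit 1961) (.e (nat_lit 2031) (nat_lit 140) (.e (nat_lit 688177) (nat_lit 16) (.e (nat_lit 65610) (nat_lit 10) (.e (nat_lit 344160) (nat_lit 37) (.e (nat_lit 647195) (nat_lit 9) (.e (nat_lit 426) (nat_lit 32) (.e (nat_lit 426189) (nat_lit 9) (.e (nat_lit 426350) (nat_lit 15) .nil)))))))) (.g (nat_lit 4) .nil .nil)))) (.nd (nat_lit 5) 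
(.lf (nat_lit 89886) (.g (nat_lit 2272) (.e (nat_lit 2031) (nat_lit 140) (.e (nat_lit 688177) (nat_lit 16) (.e (nat_lit 65610) (nat_lit 10) (.e (nat_lit 344160) (nat_lit 37) (.e (nat_lit 647195) (nat_lit 9) (.e (nat_lit 417) (nat_lit 32) (.e (nat_lit 426262) (nat_lit 9) (.e (nat_lit 426349) (nat_lit 15) .nil)))))))) (.g (nat_lit 4) .nil .nil))) 
(.lf (nat_lit 89918) (.g (nat_lit 2258) (.e (nat_lit 2031) (nat_lit 140) (.e (nat_lit 688177) (nat_lit 16) (.e (nat_lit 65610) (nat_lit 10) (.e (nat_lit 344160) (nat_lit 37) (.e (nat_lit 647199) (nat_lit 11) (.e (nat_lit 16438) (nat_lit 9) (.e (nat_lit 426360) (nat_lit 15) .nil))))))) (.g (nat_lit 4) .nil .nil)))))))) 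
(.nd (nat_lit 1) (.nd (nat_lit 2) (.nd (nat_lit 3) (.nd (nat_lit 4) (.nd (nat_lit 5) 
(.lf (nat_lit 89857) (.g (nat_lit 2153) (.e (nat_lit 2031) (nat_lit 140) (.e (nat_lit 688177) (nat_lit 16) (.e (nat_lit 65610) (nat_lit 10) (.e (nat_lit 344097) (nat_lit 18) (.e (nat_lit 5059) (nat_lit 292) .nil))))) .nil)) 
(.lf (nat_lit 89889) (.g (nat_lit 2510) (.e (nat_lit 2031) (nat_lit 140) (.e (nat_lit 688177) (nat_lit 16) (.e (nat_lit 65610) (nat_lit 10) (.e (nat_lit 344160) (nat_lit 37) (.e (nat_lit 647195) (nat_lit 9) (.e (nat_lit 420) (nat_lit 32) (.e (nat_lit 426228) (nat_lit 9) (.e (nat_lit 426349) (nat_lit 15) .nil)))))))) (.g (nat_lit 5) .nil .nil)))) (.nd (nat_lit 5) 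
(.lf (nat_lit 89873) (.g (nat_lit 2353) (.e (nat_lit 2031) (nat_lit 140) (.e (nat_lit 688177) (nat_lit 16) (.e (nat_lit 65610) (nat_lit 10) (.e (nat_lit 344156) (nat_lit 36) (.e (nat_lit 638998) (nat_lit 8) (.e (nat_lit 172085) (nat_lit 9) (.e (nat_lit 426354) (nat_lit 15) .nil))))))) (.g (nat_lit 5) .nil .nil))) 
(.lf (nat_lit 89905) (.g (nat_lit 2927) (.e (nat_lit 2031) (nat_lit 140) (.e (nat_lit 688177) (nat_lit 16) (.e (nat_lit 65610) (nat_lit 10) (.e (nat_lit 344160) (nat_lit 37) (.e (nat_lit 647195) (nat_lit 9) (.e (nat_lit 426) (nat_lit 32) (.e (nat_lit 426258) (nat_lit 9) (.e (nat_lit 426353) (nat_lit 15) .nil)))))))) (.g (nat_lit 5) .nil .nil))))) (.nd (nat_lit 4) (.nd (nat_lit 5) 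
(.lf (nat_lit 89865) (.g (nat_lit 2409) (.e (nat_lit 2031) (nat_lit 140) (.e (nat_lit 688177) (nat_lit 16) (.e (nat_lit 65610) (nat_lit 10) (.e (nat_lit 344097) (nat_lit 18) (.e (nat_lit 5219) (nat_lit 296) (.e (nat_lit 163931) (nat_lit 17) (.e (nat_lit 474880) (nat_lit 0) .nil))))))) (.g (nat_lit 4) .nil .nil))) 
(.lf (nat_lit 89897) (.g (nat_lit 3801) (.e (nat_lit 2031) (nat_lit 140) (.e (nat_lit 688177) (nat_lit 16) (.e (nat_lit 65610) (nat_lit 10) (.e (nat_lit 344160) (nat_lit 37) (.e (nat_lit 647195) (nat_lit 9) (.e (nat_lit 420) (nat_lit 32) (.e (nat_lit 426262) (nat_lit 9) (.e (nat_lit 426349) (nat_lit 15) .nil)))))))) (.g (nat_lit 7) .nil .nil)))) (.nd (nat_lit 5) 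
(.lf (nat_lit 89881) (.g (nat_lit 3004) (.e (nat_lit 2031) (nat_lit 140) (.e (nat_lit 688177) (nat_lit 16) (.e (nat_lit 65610) (nat_lit 10) (.e (nat_lit 344160) (nat_lit 37) (.e (nat_lit 647195) (nat_lit 9) (.e (nat_lit 417) (nat_lit 32) (.e (nat_lit 426228) (nat_lit 9) (.e (nat_lit 426353) (nat_lit 15) .nil)))))))) (.g (nat_lit 5) .nil .nil))) 
(.lf (nat_lit 89913) (.g (nat_lit 2388) (.e (nat_lit 2031) (nat_lit 140) (.e (nat_lit 688177) (nat_lit 16) (.e (nat_lit 65610) (nat_lit 10) (.e (nat_lit 344160) (nat_lit 37) (.e (nat_lit 647199) (nat_lit 11) (.e (nat_lit 16436) (nat_lit 9) (.e (nat_lit 426350) (nat_lit 15) .nil))))))) (.g (nat_lit 4) .nil .nil)))))) (.nd (nat_lit 3) (.nd (nat_lit 4) (.nd (nat_lit 5) 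
(.lf (nat_lit 89861) (.g (nat_lit 2154) (.e (nat_lit 2031) (nat_lit 140) (.e (nat_lit 688177) (nat_lit 16) (.e (nat_lit 65610) (nat_lit 10) (.e (nat_lit 344097) (nat_lit 18) (.e (nat_lit 5102) (nat_lit 292) .nil))))) .nil)) 
(.lf (nat_lit 89893) (.g (nat_lit 3004) (.e (nat_lit 2031) (nat_lit 140) (.e (nat_lit 688177) (nat_lit 16) (.e (nat_lit 65610) (nat_lit 10) (.e (nat_lit 344160) (nat_lit 37) (.e (nat_lit 647195) (nat_lit 9) (.e (nat_lit 420) (nat_lit 32) (.e (nat_lit 426259) (nat_lit 9) (.e (nat_lit 426349) (nat_lit 15) .nil)))))))) (.g (nat_lit 5) .nil .nil)))) (.nd (nat_lit 5) 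
(.lf (nat_lit 89877) (.g (nat_lit 1978) (.e (nat_lit 2031) (nat_lit 140) (.e (nat_lit 688177) (nat_lit 16) (.e (nat_lit 65610) (nat_lit 10) (.e (nat_lit 344160) (nat_lit 37) (.e (nat_lit 647188) (nat_lit 9) (.e (nat_lit 479) (nat_lit 37) (.e (nat_lit 474880) (nat_lit 0) .nil))))))) (.g (nat_lit 4) .nil .nil))) 
(.lf (nat_lit 89909) (.g (nat_lit 3564) (.e (nat_lit 2031) (nat_lit 140) (.e (nat_lit 688177) (nat_lit 16) (.e (nat_lit 65610) (nat_lit 10) (.e (nat_lit 344160) (nat_lit 37) (.e (nat_lit 647195) (nat_lit 9) (.e (nat_lit 7936) (nat_lit 37) (.e (nat_lit 474880) (nat_lit 0) .nil))))))) (.g (nat_lit 5) .nil .nil))))) (.nd (nat_lit 4) (.nd (nat_lit 5) 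
(.lf (nat_lit 89869) (.g (nat_lit 3372) (.e (nat_lit 2031) (nat_lit 140) (.e (nat_lit 688177) (nat_lit 16) (.e (nat_lit 65610) (nat_lit 10) (.e (nat_lit 344097) (nat_lit 18) (.e (nat_lit 5243) (nat_lit 297) (.e (nat_lit 229410) (nat_lit 14) (.e (nat_lit 450304) (nat_lit 0) .nil))))))) (.g (nat_lit 6) .nil .nil))) 
(.lf (nat_lit 89901) (.g (nat_lit 5013) (.e (nat_lit 2031) (nat_lit 140) (.e (nat_lit 688177) (nat_lit 16) (.e (nat_lit 65610) (nat_lit 10) (.e (nat_lit 344160) (nat_lit 37) (.e (nat_lit 647195) (nat_lit 9) (.e (nat_lit 426) (nat_lit 32) (.e (nat_lit 426188) (nat_lit 9) (.e (nat_lit 426350) (nat_lit 15) .nil)))))))) (.g (nat_lit 8) .nil .nil)))) (.nd (nat_lit 5) 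
(.lf (nat_lit 89885) (.g (nat_lit 2761) (.e (nat_lit 2031) (nat_lit 140) (.e (nat_lit 688177) (nat_lit 16) (.e (nat_lit 65610) (nat_lit 10) (.e (nat_lit 344160) (nat_lit 37) (.e (nat_lit 647195) (nat_lit 9) (.e (nat_lit 417) (nat_lit 32) (.e (nat_lit 426260) (nat_lit 9) (.e (nat_lit 426353) (nat_lit 15) .nil)))))))) (.g (nat_lit 5) .nil .nil))) 
(.lf (nat_lit 89917) (.g (nat_lit 2662) (.e (nat_lit 2031) (nat_lit 140) (.e (nat_lit 688177) (nat_lit 16) (.e (nat_lit 65610) (nat_lit 10) (.e (nat_lit 344160) (nat_lit 37) (.e (nat_lit 647199) (nat_lit 11) (.e (nat_lit 16438) (nat_lit 9) (.e (nat_lit 426350) (nat_lit 15) .nil))))))) (.g (nat_lit 5) .nil .nil))))))) (.nd (nat_lit 2) (.nd (nat_lit 3) (.nd (nat_lit 4) (.nd (nat_lit 5) 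
(.lf (nat_lit 89859) (.g (nat_lit 2164) (.e (nat_lit 2031) (nat_lit 140) (.e (nat_lit 688177) (nat_lit 16) (.e (nat_lit 65610) (nat_lit 10) (.e (nat_lit 344097) (nat_lit 18) (.e (nat_lit 5081) (nat_lit 292) .nil))))) .nil)) 
(.lf (nat_lit 89891) (.g (nat_lit 2680) (.e (nat_lit 2031) (nat_lit 140) (.e (nat_lit 688177) (nat_lit 16) (.e (nat_lit 65610) (nat_lit 10) (.e (nat_lit 344160) (nat_lit 37) (.e (nat_lit 647195) (nat_lit 9) (.e (nat_lit 420) (nat_lit 32) (.e (nat_lit 426234) (nat_lit 9) (.e (nat_lit 426349) (nat_lit 15) .nil)))))))) (.g (nat_lit 5) .nil .nil)))) (.nd (nat_lit 5) 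
(.lf (nat_lit 89875) (.g (nat_lit 2301) (.e (nat_lit 2031) (nat_lit 140) (.e (nat_lit 688177) (nat_lit 16) (.e (nat_lit 65610) (nat_lit 10) (.e (nat_lit 344156) (nat_lit 36) (.e (nat_lit 638998) (nat_lit 8) (.e (nat_lit 172087) (nat_lit 9) (.e (nat_lit 426360) (nat_lit 15) .nil))))))) (.g (nat_lit 4) .nil .nil))) 
(.lf (nat_lit 89907) (.g (nat_lit 3239) (.e (nat_lit 2031) (nat_lit 140) (.e (nat_lit 688177) (nat_lit 16) (.e (nat_lit 65610) (nat_lit 10) (.e (nat_lit 344160) (nat_lit 37) (.e (nat_lit 647195) (nat_lit 9) (.e (nat_lit 7936) (nat_lit 32) (.e (nat_lit 426234) (nat_lit 9) (.e (nat_lit 426353) (nat_lit 15) .nil)))))))) (.g (nat_lit 5) .nil .nil))))) (.nd (nat_lit 4) (.nd (nat_lit 5) 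
(.lf (nat_lit 89867) (.g (nat_lit 3137) (.e (nat_lit 2031) (nat_lit 140) (.e (nat_lit 688177) (nat_lit 16) (.e (nat_lit 65610) (nat_lit 10) (.e (nat_lit 344097) (nat_lit 18) (.e (nat_lit 5219) (nat_lit 296) (.e (nat_lit 163933) (nat_lit 17) (.e (nat_lit 474880) (nat_lit 0) .nil))))))) (.g (nat_lit 4) .nil .nil))) 
(.lf (nat_lit 89899) (.g (nat_lit 2367) (.e (nat_lit 2031) (nat_lit 140) (.e (nat_lit 688177) (nat_lit 16) (.e (nat_lit 65610) (nat_lit 10) (.e (nat_lit 344160) (nat_lit 37) (.e (nat_lit 647195) (nat_lit 9) (.e (nat_lit 426) (nat_lit 32) (.e (nat_lit 426186) (nat_lit 9) (.e (nat_lit 426350) (nat_lit 15) .nil)))))))) (.g (nat_lit 4) .nil .nil)))) (.nd (nat_lit 5) 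
(.lf (nat_lit 89883) (.g (nat_lit 2272) (.e (nat_lit 2031) (nat_lit 140) (.e (nat_lit 688177) (nat_lit 16) (.e (nat_lit 65610) (nat_lit 10) (.e (nat_lit 344160) (nat_lit 37) (.e (nat_lit 647195) (nat_lit 9) (.e (nat_lit 417) (nat_lit 32) (.e (nat_lit 426234) (nat_lit 9) (.e (nat_lit 426349) (nat_lit 15) .nil)))))))) (.g (nat_lit 4) .nil .nil))) 
(.lf (nat_lit 89915) (.g (nat_lit 2022) (.e (nat_lit 2031) (nat_lit 140) (.e (nat_lit 688177) (nat_lit 16) (.e (nat_lit 65610) (nat_lit 10) (.e (nat_lit 344160) (nat_lit 37) (.e (nat_lit 647199) (nat_lit 11) (.e (nat_lit 16437) (nat_lit 9) (.e (nat_lit 426350) (nat_lit 15) .nil))))))) (.g (nat_lit 4) .nil .nil)))))) (.nd (nat_lit 3) (.nd (nat_lit 4) (.nd (nat_lit 5) 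
(.lf (nat_lit 89863) (.g (nat_lit 2720) (.e (nat_lit 2031) (nat_lit 140) (.e (nat_lit 688177) (nat_lit 16) (.e (nat_lit 65610) (nat_lit 10) (.e (nat_lit 344097) (nat_lit 18) (.e (nat_lit 5219) (nat_lit 296) (.e (nat_lit 163907) (nat_lit 12) (.e (nat_lit 426227) (nat_lit 9) (.e (nat_lit 433920) (nat_lit 15) .nil)))))))) (.g (nat_lit 4) .nil .nil))) 
(.lf (nat_lit 89895) (.g (nat_lit 2894) (.e (nat_lit 2031) (nat_lit 140) (.e (nat_lit 688177) (nat_lit 16) (.e (nat_lit 65610) (nat_lit 10) (.e (nat_lit 344160) (nat_lit 37) (.e (nat_lit 647195) (nat_lit 9) (.e (nat_lit 420) (nat_lit 32) (.e (nat_lit 426260) (nat_lit 9) (.e (nat_lit 433920) (nat_lit 15) .nil)))))))) (.g (nat_lit 5) .nil .nil)))) (.nd (nat_lit 5) 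
(.lf (nat_lit 89879) (.g (nat_lit 3345) (.e (nat_lit 2031) (nat_lit 140) (.e (nat_lit 688177) (nat_lit 16) (.e (nat_lit 65610) (nat_lit 10) (.e (nat_lit 344160) (nat_lit 37) (.e (nat_lit 647190) (nat_lit 9) (.e (nat_lit 7936) (nat_lit 34) (.e (nat_lit 450304) (nat_lit 0) .nil))))))) (.g (nat_lit 5) .nil .nil))) 
(.lf (nat_lit 89911) (.g (nat_lit 2738) (.e (nat_lit 2031) (nat_lit 140) (.e (nat_lit 688177) (nat_lit 16) (.e (nat_lit 65610) (nat_lit 10) (.e (nat_lit 344160) (nat_lit 37) (.e (nat_lit 647199) (nat_lit 11) (.e (nat_lit 16435) (nat_lit 9) (.e (nat_lit 426350) (nat_lit 15) .nil))))))) (.g (nat_lit 5) .nil .nil))))) (.nd (nat_lit 4) (.nd (nat_lit 5) 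
(.lf (nat_lit 89871) (.g (nat_lit 2259) (.e (nat_lit 2031) (nat_lit 140) (.e (nat_lit 688177) (nat_lit 16) (.e (nat_lit 65610) (nat_lit 10) (.e (nat_lit 344154) (nat_lit 35) (.e (nat_lit 630804) (nat_lit 10) (.e (nat_lit 196352) (nat_lit 0) .nil)))))) (.g (nat_lit 5) .nil .nil))) 
(.lf (nat_lit 89903) (.g (nat_lit 4526) (.e (nat_lit 2031) (nat_lit 140) (.e (nat_lit 688177) (nat_lit 16) (.e (nat_lit 65610) (nat_lit 10) (.e (nat_lit 344160) (nat_lit 37) (.e (nat_lit 647195) (nat_lit 9) (.e (nat_lit 426) (nat_lit 32) (.e (nat_lit 426190) (nat_lit 9) (.e (nat_lit 426350) (nat_lit 15) .nil)))))))) (.g (nat_lit 7) .nil .nil)))) (.nd (nat_lit 5) 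
(.lf (nat_lit 89887) (.g (nat_lit 2902) (.e (nat_lit 2031) (nat_lit 140) (.e (nat_lit 688177) (nat_lit 16) (.e (nat_lit 65610) (nat_lit 10) (.e (nat_lit 344160) (nat_lit 37) (.e (nat_lit 647195) (nat_lit 9) (.e (nat_lit 420) (nat_lit 32) (.e (nat_lit 426225) (nat_lit 9) (.e (nat_lit 426353) (nat_lit 15) .nil)))))))) (.g (nat_lit 5) .nil .nil))) 
(.lf (nat_lit 89919) (.g (nat_lit 378) (.e (nat_lit 2031) (nat_lit 140) (.e (nat_lit 688177) (nat_lit 16) (.e (nat_lit 65617) (nat_lit 10) .nil))) .nil))))))))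

noncomputable def tv1229 : DT := (.nd (nat_lit 0) (.nd (nat_lit 1) (.nd (nat_lit 2) (.nd (nat_lit 3) (.nd (nat_lit 4) (.nd (nat_lit 5) 
(.lf (nat_lit 89920) (.g (nat_lit 1205) (.e (nat_lit 2031) (nat_lit 140) (.e (nat_lit 688177) (nat_lit 16) (.e (nat_lit 65617) (nat_lit 10) (.e (nat_lit 344087) (nat_lit 18) .nil)))) .nil)) 
(.lf (nat_lit 89952) (.g (nat_lit 1932) (.e (nat_lit 2031) (nat_lit 140) (.e (nat_lit 688177) (nat_lit 16) (.e (nat_lit 65617) (nat_lit 10) (.e (nat_lit 344157) (nat_lit 36) (.e (nat_lit 638986) (nat_lit 5) (.e (nat_lit 3005) (nat_lit 186) (.e (nat_lit 450304) (nat_lit 0) .nil))))))) (.g (nat_lit 6) .nil .nil)))) (.nd (nat_lit 5) 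
(.lf (nat_lit 89936) (.g (nat_lit 1767) (.e (nat_lit 2031) (nat_lit 140) (.e (nat_lit 688177) (nat_lit 16) (.e (nat_lit 65617) (nat_lit 10) (.e (nat_lit 344156) (nat_lit 36) (.e (nat_lit 639001) (nat_lit 10) .nil))))) .nil)) 
(.lf (nat_lit 89968) (.g (nat_lit 2719) (.e (nat_lit 2031) (nat_lit 140) (.e (nat_lit 688177) (nat_lit 16) (.e (nat_lit 65617) (nat_lit 10) (.e (nat_lit 344161) (nat_lit 37) (.e (nat_lit 647195) (nat_lit 9) (.e (nat_lit 417) (nat_lit 32) (.e (nat_lit 426234) (nat_lit 9) (.e (nat_lit 426349) (nat_lit 15) .nil)))))))) (.g (nat_lit 5) .nil .nil))))) (.nd (nat_lit 4) (.nd (nat_lit 5) 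
(.lf (nat_lit 89928) (.g (nat_lit 1665) (.e (nat_lit 2031) (nat_lit 140) (.e (nat_lit 688177) (nat_lit 16) (.e (nat_lit 65617) (nat_lit 10) (.e (nat_lit 344091) (nat_lit 18) (.e (nat_lit 5580) (nat_lit 309) .nil))))) .nil)) 
(.lf (nat_lit 89960) (.g (nat_lit 3028) (.e (nat_lit 2031) (nat_lit 140) (.e (nat_lit 688177) (nat_lit 16) (.e (nat_lit 65617) (nat_lit 10) (.e (nat_lit 344161) (nat_lit 37) (.e (nat_lit 647188) (nat_lit 9) (.e (nat_lit 479) (nat_lit 37) (.e (nat_lit 474880) (nat_lit 0) .nil))))))) (.g (nat_lit 6) .nil .nil)))) (.nd (nat_lit 5) 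
(.lf (nat_lit 89944) (.g (nat_lit 1995) (.e (nat_lit 2031) (nat_lit 140) (.e (nat_lit 688177) (nat_lit 16) (.e (nat_lit 65617) (nat_lit 10) (.e (nat_lit 344157) (nat_lit 36) (.e (nat_lit 638985) (nat_lit 5) (.e (nat_lit 3004) (nat_lit 186) (.e (nat_lit 450304) (nat_lit 0) .nil))))))) (.g (nat_lit 6) .nil .nil))) 
(.lf (nat_lit 89976) (.g (nat_lit 2805) (.e (nat_lit 2031) (nat_lit 140) (.e (nat_lit 688177) (nat_lit 16) (.e (nat_lit 65617) (nat_lit 10) (.e (nat_lit 344161) (nat_lit 37) (.e (nat_lit 647195) (nat_lit 9) (.e (nat_lit 420) (nat_lit 32) (.e (nat_lit 426230) (nat_lit 9) (.e (nat_lit 426349) (nat_lit 15) .nil)))))))) (.g (nat_lit 5) .nil .nil)))))) 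
(.nd (nat_lit 3) (.nd (nat_lit 4) (.nd (nat_lit 5) 
(.lf (nat_lit 89924) (.g (nat_lit 1856) (.e (nat_lit 2031) (nat_lit 140) (.e (nat_lit 688177) (nat_lit 16) (.e (nat_lit 65617) (nat_lit 10) (.e (nat_lit 344091) (nat_lit 18) (.e (nat_lit 5107) (nat_lit 292) (.e (nat_lit 2646) (nat_lit 166) (.e (nat_lit 196352) (nat_lit 0) .nil))))))) (.g (nat_lit 4) .nil .nil))) 
(.lf (nat_lit 89956) (.g (nat_lit 2383) (.e (nat_lit 2031) (nat_lit 140) (.e (nat_lit 688177) (nat_lit 16) (.e (nat_lit 65617) (nat_lit 10) (.e (nat_lit 344161) (nat_lit 37) (.e (nat_lit 647188) (nat_lit 9) (.e (nat_lit 458) (nat_lit 34) (.e (nat_lit 450304) (nat_lit 0) .nil))))))) (.g (nat_lit 5) .nil .nil)))) (.nd (nat_lit 5) 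
(.lf (nat_lit 89940) (.g (nat_lit 1966) (.e (nat_lit 2031) (nat_lit 140) (.e (nat_lit 688177) (nat_lit 16) (.e (nat_lit 65617) (nat_lit 10) (.e (nat_lit 344157) (nat_lit 36) (.e (nat_lit 638985) (nat_lit 5) (.e (nat_lit 2988) (nat_lit 186) (.e (nat_lit 450304) (nat_lit 0) .nil))))))) (.g (nat_lit 6) .nil .nil))) 
(.lf (nat_lit 89972) (.g (nat_lit 2728) (.e (nat_lit 2031) (nat_lit 140) (.e (nat_lit 688177) (nat_lit 16) (.e (nat_lit 65617) (nat_lit 10) (.e (nat_lit 344161) (nat_lit 37) (.e (nat_lit 647195) (nat_lit 9) (.e (nat_lit 417) (nat_lit 32) (.e (nat_lit 426262) (nat_lit 9) (.e (nat_lit 426349) (nat_lit 15) .nil)))))))) (.g (nat_lit 5) .nil .nil))))) (.nd (nat_lit 4) (.nd (nat_lit 5) 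
(.lf (nat_lit 89932) (.g (nat_lit 1009) (.e (nat_lit 2031) (nat_lit 140) (.e (nat_lit 688177) (nat_lit 16) (.e (nat_lit 65617) (nat_lit 10) (.e (nat_lit 344154) (nat_lit 35) .nil)))) .nil)) 
(.lf (nat_lit 89964) (.g (nat_lit 2925) (.e (nat_lit 2031) (nat_lit 140) (.e (nat_lit 688177) (nat_lit 16) (.e (nat_lit 65617) (nat_lit 10) (.e (nat_lit 344161) (nat_lit 37) (.e (nat_lit 647190) (nat_lit 9) (.e (nat_lit 7936) (nat_lit 34) (.e (nat_lit 450304) (nat_lit 0) .nil))))))) (.g (nat_lit 5) .nil .nil)))) (.nd (nat_lit 5) 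
(.lf (nat_lit 89948) (.g (nat_lit 1988) (.e (nat_lit 2031) (nat_lit 140) (.e (nat_lit 688177) (nat_lit 16) (.e (nat_lit 65617) (nat_lit 10) (.e (nat_lit 344157) (nat_lit 36) (.e (nat_lit 638986) (nat_lit 5) (.e (nat_lit 2989) (nat_lit 186) (.e (nat_lit 450304) (nat_lit 0) .nil))))))) (.g (nat_lit 6) .nil .nil))) 
(.lf (nat_lit 89980) (.g (nat_lit 3828) (.e (nat_lit 2031) (nat_lit 140) (.e (nat_lit 688177) (nat_lit 16) (.e (nat_lit 65617) (nat_lit 10) (.e (nat_lit 344161) (nat_lit 37) (.e (nat_lit 647195) (nat_lit 9) (.e (nat_lit 420) (nat_lit 32) (.e (nat_lit 426260) (nat_lit 9) (.e (nat_lit 426349) (nat_lit 15) .nil)))))))) (.g (nat_lit 6) .nil .nil))))))) 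
(.nd (nat_lit 2) (.nd (nat_lit 3) (.nd (nat_lit 4) (.nd (nat_lit 5) 
(.lf (nat_lit 89922) (.g (nat_lit 2009) (.e (nat_lit 2031) (nat_lit 140) (.e (nat_lit 688177) (nat_lit 16) (.e (nat_lit 65617) (nat_lit 10) (.e (nat_lit 344087) (nat_lit 18) (.e (nat_lit 5235) (nat_lit 296) (.e (nat_lit 163932) (nat_lit 17) (.e (nat_lit 474880) (nat_lit 0) .nil))))))) (.g (nat_lit 5) .nil .nil))) 
(.lf (nat_lit 89954) (.g (nat_lit 1040) (.e (nat_lit 2031) (nat_lit 140) (.e (nat_lit 688177) (nat_lit 16) (.e (nat_lit 65617) (nat_lit 10) (.e (nat_lit 344161) (nat_lit 37) .nil)))) .nil))) (.nd (nat_lit 5) 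
(.lf (nat_lit 89938) (.g (nat_lit 1981) (.e (nat_lit 2031) (nat_lit 140) (.e (nat_lit 688177) (nat_lit 16) (.e (nat_lit 65617) (nat_lit 10) (.e (nat_lit 344157) (nat_lit 36) (.e (nat_lit 638982) (nat_lit 5) (.e (nat_lit 3048) (nat_lit 189) (.e (nat_lit 474880) (nat_lit 0) .nil))))))) (.g (nat_lit 6) .nil .nil))) 
(.lf (nat_lit 89970) (.g (nat_lit 2495) (.e (nat_lit 2031) (nat_lit 140) (.e (nat_lit 688177) (nat_lit 16) (.e (nat_lit 65617) (nat_lit 10) (.e (nat_lit 344161) (nat_lit 37) (.e (nat_lit 647195) (nat_lit 9) (.e (nat_lit 417) (nat_lit 32) (.e (nat_lit 426260) (nat_lit 9) (.e (nat_lit 426349) (nat_lit 15) .nil)))))))) (.g (nat_lit 4) .nil .nil))))) (.nd (nat_lit 4) (.nd (nat_lit 5) 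
(.lf (nat_lit 89930) (.g (nat_lit 1857) (.e (nat_lit 2031) (nat_lit 140) (.e (nat_lit 688177) (nat_lit 16) (.e (nat_lit 65617) (nat_lit 10) (.e (nat_lit 344093) (nat_lit 18) (.e (nat_lit 5235) (nat_lit 296) (.e (nat_lit 163932) (nat_lit 17) (.e (nat_lit 474880) (nat_lit 0) .nil))))))) (.g (nat_lit 4) .nil .nil))) 
(.lf (nat_lit 89962) (.g (nat_lit 2297) (.e (nat_lit 2031) (nat_lit 140) (.e (nat_lit 688177) (nat_lit 16) (.e (nat_lit 65617) (nat_lit 10) (.e (nat_lit 344161) (nat_lit 37) (.e (nat_lit 647189) (nat_lit 9) (.e (nat_lit 476) (nat_lit 37) (.e (nat_lit 474880) (nat_lit 0) .nil))))))) (.g (nat_lit 6) .nil .nil)))) (.nd (nat_lit 5) 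
(.lf (nat_lit 89946) (.g (nat_lit 2002) (.e (nat_lit 2031) (nat_lit 140) (.e (nat_lit 688177) (nat_lit 16) (.e (nat_lit 65617) (nat_lit 10) (.e (nat_lit 344157) (nat_lit 36) (.e (nat_lit 638986) (nat_lit 5) (.e (nat_lit 2982) (nat_lit 186) (.e (nat_lit 450304) (nat_lit 0) .nil))))))) (.g (nat_lit 6) .nil .nil))) 
(.lf (nat_lit 89978) (.g (nat_lit 2880) (.e (nat_lit 2031) (nat_lit 140) (.e (nat_lit 688177) (nat_lit 16) (.e (nat_lit 65617) (nat_lit 10) (.e (nat_lit 344161) (nat_lit 37) (.e (nat_lit 647195) (nat_lit 9) (.e (nat_lit 420) (nat_lit 32) (.e (nat_lit 426258) (nat_lit 9) (.e (nat_lit 426353) (nat_lit 15) .nil)))))))) (.g (nat_lit 5) .nil .nil)))))) 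
(.nd (nat_lit 3) (.nd (nat_lit 4) (.nd (nat_lit 5) 
(.lf (nat_lit 89926) (.g (nat_lit 2136) (.e (nat_lit 2031) (nat_lit 140) (.e (nat_lit 688177) (nat_lit 16) (.e (nat_lit 65617) (nat_lit 10) (.e (nat_lit 344091) (nat_lit 18) (.e (nat_lit 5566) (nat_lit 308) (.e (nat_lit 57592) (nat_lit 73) (.e (nat_lit 426200) (nat_lit 9) (.e (nat_lit 426354) (nat_lit 15) .nil)))))))) (.g (nat_lit 4) .nil .nil))) 
(.lf (nat_lit 89958) (.g (nat_lit 2540) (.e (nat_lit 2031) (nat_lit 140) (.e (nat_lit 688177) (nat_lit 16) (.e (nat_lit 65617) (nat_lit 10) (.e (nat_lit 344161) (nat_lit 37) (.e (nat_lit 647188) (nat_lit 9) (.e (nat_lit 476) (nat_lit 37) (.e (nat_lit 474880) (nat_lit 0) .nil))))))) (.g (nat_lit 6) .nil .nil)))) (.nd (nat_lit 5) 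
(.lf (nat_lit 89942) (.g (nat_lit 1863) (.e (nat_lit 2031) (nat_lit 140) (.e (nat_lit 688177) (nat_lit 16) (.e (nat_lit 65617) (nat_lit 10) (.e (nat_lit 344157) (nat_lit 36) (.e (nat_lit 638985) (nat_lit 5) (.e (nat_lit 2998) (nat_lit 186) (.e (nat_lit 450304) (nat_lit 0) .nil))))))) (.g (nat_lit 6) .nil .nil))) 
(.lf (nat_lit 89974) (.g (nat_lit 2880) (.e (nat_lit 2031) (nat_lit 140) (.e (nat_lit 688177) (nat_lit 16) (.e (nat_lit 65617) (nat_lit 10) (.e (nat_lit 344161) (nat_lit 37) (.e (nat_lit 647195) (nat_lit 9) (.e (nat_lit 420) (nat_lit 32) (.e (nat_lit 426225) (nat_lit 9) (.e (nat_lit 426353) (nat_lit 15) .nil)))))))) (.g (nat_lit 5) .nil .nil))))) (.nd (nat_lit 4) (.nd (nat_lit 5) 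
(.lf (nat_lit 89934) (.g (nat_lit 2439) (.e (nat_lit 2031) (nat_lit 140) (.e (nat_lit 688177) (nat_lit 16) (.e (nat_lit 65617) (nat_lit 10) (.e (nat_lit 344156) (nat_lit 36) (.e (nat_lit 638998) (nat_lit 8) (.e (nat_lit 172087) (nat_lit 9) (.e (nat_lit 426350) (nat_lit 15) .nil))))))) (.g (nat_lit 4) .nil .nil))) 
(.lf (nat_lit 89966) (.g (nat_lit 3401) (.e (nat_lit 2031) (nat_lit 140) (.e (nat_lit 688177) (nat_lit 16) (.e (nat_lit 65617) (nat_lit 10) (.e (nat_lit 344161) (nat_lit 37) (.e (nat_lit 647195) (nat_lit 9) (.e (nat_lit 417) (nat_lit 32) (.e (nat_lit 426228) (nat_lit 9) (.e (nat_lit 426353) (nat_lit 15) .nil)))))))) (.g (nat_lit 5) .nil .nil)))) (.nd (nat_lit 5) 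
(.lf (nat_lit 89950) (.g (nat_lit 2231) (.e (nat_lit 2031) (nat_lit 140) (.e (nat_lit 688177) (nat_lit 16) (.e (nat_lit 65617) (nat_lit 10) (.e (nat_lit 344157) (nat_lit 36) (.e (nat_lit 638986) (nat_lit 5) (.e (nat_lit 2999) (nat_lit 186) (.e (nat_lit 450304) (nat_lit 0) .nil))))))) (.g (nat_lit 6) .nil .nil))) 
(.lf (nat_lit 89982) (.g (nat_lit 3618) (.e (nat_lit 2031) (nat_lit 140) (.e (nat_lit 688177) (nat_lit 16) (.e (nat_lit 65617) (nat_lit 10) (.e (nat_lit 344161) (nat_lit 37) (.e (nat_lit 647195) (nat_lit 9) (.e (nat_lit 420) (nat_lit 32) (.e (nat_lit 426261) (nat_lit 9) (.e (nat_lit 426349) (nat_lit 15) .nil)))))))) (.g (nat_lit 6) .nil .nil)))))))) 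
(.nd (nat_lit 1) (.nd (nat_lit 2) (.nd (nat_lit 3) (.nd (nat_lit 4) (.nd (nat_lit 5) 
(.lf (nat_lit 89921) (.g (nat_lit 2407) (.e (nat_lit 2031) (nat_lit 140) (.e (nat_lit 688177) (nat_lit 16) (.e (nat_lit 65617) (nat_lit 10) (.e (nat_lit 344087) (nat_lit 18) (.e (nat_lit 5226) (nat_lit 296) (.e (nat_lit 163933) (nat_lit 17) (.e (nat_lit 474880) (nat_lit 0) .nil))))))) (.g (nat_lit 6) .nil .nil))) 
(.lf (nat_lit 89953) (.g (nat_lit 1914) (.e (nat_lit 2031) (nat_lit 140) (.e (nat_lit 688177) (nat_lit 16) (.e (nat_lit 65617) (nat_lit 10) (.e (nat_lit 344157) (nat_lit 36) (.e (nat_lit 639001) (nat_lit 10) (.e (nat_lit 196352) (nat_lit 0) .nil)))))) (.g (nat_lit 5) .nil .nil)))) (.nd (nat_lit 5) 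
(.lf (nat_lit 89937) (.g (nat_lit 992) (.e (nat_lit 2031) (nat_lit 140) (.e (nat_lit 688177) (nat_lit 16) (.e (nat_lit 65617) (nat_lit 10) (.e (nat_lit 344157) (nat_lit 36) .nil)))) .nil)) 
(.lf (nat_lit 89969) (.g (nat_lit 2907) (.e (nat_lit 2031) (nat_lit 140) (.e (nat_lit 688177) (nat_lit 16) (.e (nat_lit 65617) (nat_lit 10) (.e (nat_lit 344161) (nat_lit 37) (.e (nat_lit 647195) (nat_lit 9) (.e (nat_lit 417) (nat_lit 32) (.e (nat_lit 426259) (nat_lit 9) (.e (nat_lit 426353) (nat_lit 15) .nil)))))))) (.g (nat_lit 5) .nil .nil))))) (.nd (nat_lit 4) (.nd (nat_lit 5) 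
(.lf (nat_lit 89929) (.g (nat_lit 1298) (.e (nat_lit 2031) (nat_lit 140) (.e (nat_lit 688177) (nat_lit 16) (.e (nat_lit 65617) (nat_lit 10) (.e (nat_lit 344093) (nat_lit 18) .nil)))) .nil)) 
(.lf (nat_lit 89961) (.g (nat_lit 1758) (.e (nat_lit 2031) (nat_lit 140) (.e (nat_lit 688177) (nat_lit 16) (.e (nat_lit 65617) (nat_lit 10) (.e (nat_lit 344161) (nat_lit 37) (.e (nat_lit 647189) (nat_lit 9) (.e (nat_lit 458) (nat_lit 34) (.e (nat_lit 450304) (nat_lit 0) .nil))))))) (.g (nat_lit 4) .nil .nil)))) (.nd (nat_lit 5) 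
(.lf (nat_lit 89945) (.g (nat_lit 1801) (.e (nat_lit 2031) (nat_lit 140) (.e (nat_lit 688177) (nat_lit 16) (.e (nat_lit 65617) (nat_lit 10) (.e (nat_lit 344157) (nat_lit 36) (.e (nat_lit 638985) (nat_lit 5) (.e (nat_lit 3005) (nat_lit 186) (.e (nat_lit 450304) (nat_lit 0) .nil))))))) (.g (nat_lit 5) .nil .nil))) 
(.lf (nat_lit 89977) (.g (nat_lit 2718) (.e (nat_lit 2031) (nat_lit 140) (.e (nat_lit 688177) (nat_lit 16) (.e (nat_lit 65617) (nat_lit 10) (.e (nat_lit 344161) (nat_lit 37) (.e (nat_lit 647195) (nat_lit 9) (.e (nat_lit 420) (nat_lit 32) (.e (nat_lit 426234) (nat_lit 9) (.e (nat_lit 426349) (nat_lit 15) .nil)))))))) (.g (nat_lit 5) .nil .nil)))))) 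
(.nd (nat_lit 3) (.nd (nat_lit 4) (.nd (nat_lit 5) 
(.lf (nat_lit 89925) (.g (nat_lit 1662) (.e (nat_lit 2031) (nat_lit 140) (.e (nat_lit 688177) (nat_lit 16) (.e (nat_lit 65617) (nat_lit 10) (.e (nat_lit 344091) (nat_lit 18) (.e (nat_lit 5236) (nat_lit 297) .nil))))) .nil)) 
(.lf (nat_lit 89957) (.g (nat_lit 2163) (.e (nat_lit 2031) (nat_lit 140) (.e (nat_lit 688177) (nat_lit 16) (.e (nat_lit 65617) (nat_lit 10) (.e (nat_lit 344161) (nat_lit 37) (.e (nat_lit 647188) (nat_lit 9) (.e (nat_lit 459) (nat_lit 34) (.e (nat_lit 450304) (nat_lit 0) .nil))))))) (.g (nat_lit 4) .nil .nil)))) (.nd (nat_lit 5) 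
(.lf (nat_lit 89941) (.g (nat_lit 1975) (.e (nat_lit 2031) (nat_lit 140) (.e (nat_lit 688177) (nat_lit 16) (.e (nat_lit 65617) (nat_lit 10) (.e (nat_lit 344157) (nat_lit 36) (.e (nat_lit 638985) (nat_lit 5) (.e (nat_lit 2989) (nat_lit 186) (.e (nat_lit 450304) (nat_lit 0) .nil))))))) (.g (nat_lit 6) .nil .nil))) 
(.lf (nat_lit 89973) (.g (nat_lit 3077) (.e (nat_lit 2031) (nat_lit 140) (.e (nat_lit 688177) (nat_lit 16) (.e (nat_lit 65617) (nat_lit 10) (.e (nat_lit 344161) (nat_lit 37) (.e (nat_lit 647195) (nat_lit 9) (.e (nat_lit 417) (nat_lit 32) (.e (nat_lit 426262) (nat_lit 9) (.e (nat_lit 426353) (nat_lit 15) .nil)))))))) (.g (nat_lit 5) .nil .nil))))) (.nd (nat_lit 4) (.nd (nat_lit 5) 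
(.lf (nat_lit 89933) (.g (nat_lit 1765) (.e (nat_lit 2031) (nat_lit 140) (.e (nat_lit 688177) (nat_lit 16) (.e (nat_lit 65617) (nat_lit 10) (.e (nat_lit 344156) (nat_lit 36) (.e (nat_lit 638983) (nat_lit 5) .nil))))) .nil)) 
(.lf (nat_lit 89965) (.g (nat_lit 2925) (.e (nat_lit 2031) (nat_lit 140) (.e (nat_lit 688177) (nat_lit 16) (.e (nat_lit 65617) (nat_lit 10) (.e (nat_lit 344161) (nat_lit 37) (.e (nat_lit 647190) (nat_lit 9) (.e (nat_lit 7936) (nat_lit 37) (.e (nat_lit 474880) (nat_lit 0) .nil))))))) (.g (nat_lit 5) .nil .nil)))) (.nd (nat_lit 5) 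
(.lf (nat_lit 89949) (.g (nat_lit 1909) (.e (nat_lit 2031) (nat_lit 140) (.e (nat_lit 688177) (nat_lit 16) (.e (nat_lit 65617) (nat_lit 10) (.e (nat_lit 344157) (nat_lit 36) (.e (nat_lit 638986) (nat_lit 5) (.e (nat_lit 2998) (nat_lit 186) (.e (nat_lit 450304) (nat_lit 0) .nil))))))) (.g (nat_lit 6) .nil .nil))) 
(.lf (nat_lit 89981) (.g (nat_lit 3155) (.e (nat_lit 2031) (nat_lit 140) (.e (nat_lit 688177) (nat_lit 16) (.e (nat_lit 65617) (nat_lit 10) (.e (nat_lit 344161) (nat_lit 37) (.e (nat_lit 647195) (nat_lit 9) (.e (nat_lit 420) (nat_lit 32) (.e (nat_lit 426260) (nat_lit 9) (.e (nat_lit 433920) (nat_lit 15) .nil)))))))) (.g (nat_lit 6) .nil .nil))))))) 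
(.nd (nat_lit 2) (.nd (nat_lit 3) (.nd (nat_lit 4) (.nd (nat_lit 5) 
(.lf (nat_lit 89923) (.g (nat_lit 2047) (.e (nat_lit 2031) (nat_lit 140) (.e (nat_lit 688177) (nat_lit 16) (.e (nat_lit 65617) (nat_lit 10) (.e (nat_lit 344091) (nat_lit 18) (.e (nat_lit 5107) (nat_lit 292) (.e (nat_lit 2645) (nat_lit 166) (.e (nat_lit 196352) (nat_lit 0) .nil))))))) (.g (nat_lit 4) .nil .nil))) 
(.lf (nat_lit 89955) (.g (nat_lit 1830) (.e (nat_lit 2031) (nat_lit 140) (.e (nat_lit 688177) (nat_lit 16) (.e (nat_lit 65617) (nat_lit 10) (.e (nat_lit 344161) (nat_lit 37) (.e (nat_lit 647188) (nat_lit 9) .nil))))) .nil))) (.nd (nat_lit 5) 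
(.lf (nat_lit 89939) (.g (nat_lit 1531) (.e (nat_lit 2031) (nat_lit 140) (.e (nat_lit 688177) (nat_lit 16) (.e (nat_lit 65617) (nat_lit 10) (.e (nat_lit 344157) (nat_lit 36) (.e (nat_lit 638985) (nat_lit 5) (.e (nat_lit 2982) (nat_lit 186) (.e (nat_lit 450304) (nat_lit 0) .nil))))))) (.g (nat_lit 4) .nil .nil))) 
(.lf (nat_lit 89971) (.g (nat_lit 3158) (.e (nat_lit 2031) (nat_lit 140) (.e (nat_lit 688177) (nat_lit 16) (.e (nat_lit 65617) (nat_lit 10) (.e (nat_lit 344161) (nat_lit 37) (.e (nat_lit 647195) (nat_lit 9) (.e (nat_lit 417) (nat_lit 32) (.e (nat_lit 426260) (nat_lit 9) (.e (nat_lit 426353) (nat_lit 15) .nil)))))))) (.g (nat_lit 5) .nil .nil))))) (.nd (nat_lit 4) (.nd (nat_lit 5) 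
(.lf (nat_lit 89931) (.g (nat_lit 1298) (.e (nat_lit 2031) (nat_lit 140) (.e (nat_lit 688177) (nat_lit 16) (.e (nat_lit 65617) (nat_lit 10) (.e (nat_lit 344153) (nat_lit 35) .nil)))) .nil)) 
(.lf (nat_lit 89963) (.g (nat_lit 2113) (.e (nat_lit 2031) (nat_lit 140) (.e (nat_lit 688177) (nat_lit 16) (.e (nat_lit 65617) (nat_lit 10) (.e (nat_lit 344161) (nat_lit 37) (.e (nat_lit 647189) (nat_lit 9) (.e (nat_lit 478) (nat_lit 37) (.e (nat_lit 474880) (nat_lit 0) .nil))))))) (.g (nat_lit 4) .nil .nil)))) (.nd (nat_lit 5) 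
(.lf (nat_lit 89947) (.g (nat_lit 1948) (.e (nat_lit 2031) (nat_lit 140) (.e (nat_lit 688177) (nat_lit 16) (.e (nat_lit 65617) (nat_lit 10) (.e (nat_lit 344157) (nat_lit 36) (.e (nat_lit 638986) (nat_lit 5) (.e (nat_lit 2988) (nat_lit 186) (.e (nat_lit 450304) (nat_lit 0) .nil))))))) (.g (nat_lit 6) .nil .nil))) 
(.lf (nat_lit 89979) (.g (nat_lit 3041) (.e (nat_lit 2031) (nat_lit 140) (.e (nat_lit 688177) (nat_lit 16) (.e (nat_lit 65617) (nat_lit 10) (.e (nat_lit 344161) (nat_lit 37) (.e (nat_lit 647195) (nat_lit 9) (.e (nat_lit 420) (nat_lit 32) (.e (nat_lit 426259) (nat_lit 9) (.e (nat_lit 426349) (nat_lit 15) .nil)))))))) (.g (nat_lit 5) .nil .nil)))))) 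
(.nd (nat_lit 3) (.nd (nat_lit 4) (.nd (nat_lit 5) 
(.lf (nat_lit 89927) (.g (nat_lit 1665) (.e (nat_lit 2031) (nat_lit 140) (.e (nat_lit 688177) (nat_lit 16) (.e (nat_lit 65617) (nat_lit 10) (.e (nat_lit 344091) (nat_lit 18) (.e (nat_lit 5579) (nat_lit 309) .nil))))) .nil)) 
(.lf (nat_lit 89959) (.g (nat_lit 2612) (.e (nat_lit 2031) (nat_lit 140) (.e (nat_lit 688177) (nat_lit 16) (.e (nat_lit 65617) (nat_lit 10) (.e (nat_lit 344161) (nat_lit 37) (.e (nat_lit 647188) (nat_lit 9) (.e (nat_lit 478) (nat_lit 37) (.e (nat_lit 474880) (nat_lit 0) .nil))))))) (.g (nat_lit 6) .nil .nil)))) (.nd (nat_lit 5) 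
(.lf (nat_lit 89943) (.g (nat_lit 2136) (.e (nat_lit 2031) (nat_lit 140) (.e (nat_lit 688177) (nat_lit 16) (.e (nat_lit 65617) (nat_lit 10) (.e (nat_lit 344157) (nat_lit 36) (.e (nat_lit 638985) (nat_lit 5) (.e (nat_lit 2999) (nat_lit 186) (.e (nat_lit 450304) (nat_lit 0) .nil))))))) (.g (nat_lit 6) .nil .nil))) 
(.lf (nat_lit 89975) (.g (nat_lit 2547) (.e (nat_lit 2031) (nat_lit 140) (.e (nat_lit 688177) (nat_lit 16) (.e (nat_lit 65617) (nat_lit 10) (.e (nat_lit 344161) (nat_lit 37) (.e (nat_lit 647195) (nat_lit 9) (.e (nat_lit 420) (nat_lit 32) (.e (nat_lit 426228) (nat_lit 9) (.e (nat_lit 426349) (nat_lit 15) .nil)))))))) (.g (nat_lit 4) .nil .nil))))) (.nd (nat_lit 4) (.nd (nat_lit 5) 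
(.lf (nat_lit 89935) (.g (nat_lit 2890) (.e (nat_lit 2031) (nat_lit 140) (.e (nat_lit 688177) (nat_lit 16) (.e (nat_lit 65617) (nat_lit 10) (.e (nat_lit 344156) (nat_lit 36) (.e (nat_lit 638998) (nat_lit 8) (.e (nat_lit 172087) (nat_lit 9) (.e (nat_lit 426354) (nat_lit 15) .nil))))))) (.g (nat_lit 5) .nil .nil))) 
(.lf (nat_lit 89967) (.g (nat_lit 2495) (.e (nat_lit 2031) (nat_lit 140) (.e (nat_lit 688177) (nat_lit 16) (.e (nat_lit 65617) (nat_lit 10) (.e (nat_lit 344161) (nat_lit 37) (.e (nat_lit 647195) (nat_lit 9) (.e (nat_lit 417) (nat_lit 32) (.e (nat_lit 426230) (nat_lit 9) (.e (nat_lit 426349) (nat_lit 15) .nil)))))))) (.g (nat_lit 4) .nil .nil)))) (.nd (nat_lit 5) 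
(.lf (nat_lit 89951) (.g (nat_lit 1984) (.e (nat_lit 2031) (nat_lit 140) (.e (nat_lit 688177) (nat_lit 16) (.e (nat_lit 65617) (nat_lit 10) (.e (nat_lit 344157) (nat_lit 36) (.e (nat_lit 638986) (nat_lit 5) (.e (nat_lit 3004) (nat_lit 186) (.e (nat_lit 450304) (nat_lit 0) .nil))))))) (.g (nat_lit 6) .nil .nil))) 
(.lf (nat_lit 89983) (.g (nat_lit 1928) (.e (nat_lit 2031) (nat_lit 140) (.e (nat_lit 688177) (nat_lit 16) (.e (nat_lit 65617) (nat_lit 10) (.e (nat_lit 344161) (nat_lit 37) (.e (nat_lit 647195) (nat_lit 9) (.e (nat_lit 420) (nat_lit 32) (.e (nat_lit 426261) (nat_lit 9) (.e (nat_lit 433920) (nat_lit 15) .nil)))))))) (.g (nat_lit 4) .nil .nil)))))))))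

noncomputable def tv1230 : DT := (.nd (nat_lit 0) (.nd (nat_lit 1) (.nd (nat_lit 2) (.nd (nat_lit 3) (.nd (nat_lit 4) (.nd (nat_lit 5) 
(.lf (nat_lit 89984) (.g (nat_lit 3839) (.e (nat_lit 2031) (nat_lit 140) (.e (nat_lit 688177) (nat_lit 16) (.e (nat_lit 65617) (nat_lit 10) (.e (nat_lit 344161) (nat_lit 37) (.e (nat_lit 647195) (nat_lit 9) (.e (nat_lit 420) (nat_lit 32) (.e (nat_lit 426262) (nat_lit 9) (.e (nat_lit 426349) (nat_lit 15) .nil)))))))) (.g (nat_lit 6) .nil .nil))) 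
(.lf (nat_lit 90016) (.g (nat_lit 3058) (.e (nat_lit 2031) (nat_lit 140) (.e (nat_lit 688177) (nat_lit 16) (.e (nat_lit 65617) (nat_lit 10) (.e (nat_lit 344164) (nat_lit 37) (.e (nat_lit 647195) (nat_lit 9) (.e (nat_lit 426) (nat_lit 32) (.e (nat_lit 426190) (nat_lit 9) (.e (nat_lit 426354) (nat_lit 15) .nil)))))))) (.g (nat_lit 5) .nil .nil)))) (.nd (nat_lit 5) 
(.lf (nat_lit 90000) (.g (nat_lit 2430) (.e (nat_lit 2031) (nat_lit 140) (.e (nat_lit 688177) (nat_lit 16) (.e (nat_lit 65617) (nat_lit 10) (.e (nat_lit 344161) (nat_lit 37) (.e (nat_lit 647199) (nat_lit 11) (.e (nat_lit 16438) (nat_lit 9) (.e (nat_lit 426360) (nat_lit 15) .nil))))))) (.g (nat_lit 4) .nil .nil))) 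
(.lf (nat_lit 90032) (.g (nat_lit 3478) (.e (nat_lit 2031) (nat_lit 140) (.e (nat_lit 688177) (nat_lit 16) (.e (nat_lit 65630) (nat_lit 14) (.e (nat_lit 401454) (nat_lit 12) (.e (nat_lit 475221) (nat_lit 45) .nil))))) .nil)))) (.nd (nat_lit 4) (.nd (nat_lit 5) 
(.lf (nat_lit 89992) (.g (nat_lit 2324) (.e (nat_lit 2031) (nat_lit 140) (.e (nat_lit 688177) (nat_lit 16) (.e (nat_lit 65617) (nat_lit 10) (.e (nat_lit 344161) (nat_lit 37) (.e (nat_lit 647195) (nat_lit 9) (.e (nat_lit 7936) (nat_lit 32) (.e (nat_lit 426234) (nat_lit 9) (.e (nat_lit 426353) (nat_lit 15) .nil)))))))) (.g (nat_lit 4) .nil .nil))) 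
(.lf (nat_lit 90024) (.g (nat_lit 2398) (.e (nat_lit 2031) (nat_lit 140) (.e (nat_lit 688177) (nat_lit 16) (.e (nat_lit 65617) (nat_lit 10) (.e (nat_lit 344164) (nat_lit 37) (.e (nat_lit 647199) (nat_lit 11) (.e (nat_lit 16438) (nat_lit 9) (.e (nat_lit 426360) (nat_lit 15) .nil))))))) (.g (nat_lit 4) .nil .nil)))) (.nd (nat_lit 5) 
(.lf (nat_lit 90008) (.g (nat_lit 2692) (.e (nat_lit 2031) (nat_lit 140) (.e (nat_lit 688177) (nat_lit 16) (.e (nat_lit 65617) (nat_lit 10) (.e (nat_lit 344164) (nat_lit 37) (.e (nat_lit 647188) (nat_lit 9) (.e (nat_lit 479) (nat_lit 37) (.e (nat_lit 474880) (nat_lit 0) .nil))))))) (.g (nat_lit 6) .nil .nil))) 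
(.lf (nat_lit 90040) (.g (nat_lit 2031) (.e (nat_lit 2031) (nat_lit 140) (.e (nat_lit 688178) (nat_lit 16) (.e (nat_lit 65604) (nat_lit 9) (.e (nat_lit 335997) (nat_lit 1) (.e (nat_lit 57822) (nat_lit 250) (.e (nat_lit 2646) (nat_lit 166) (.e (nat_lit 196352) (nat_lit 0) .nil))))))) (.g (nat_lit 4) .nil .nil)))))) (.nd (nat_lit 3) (.nd (nat_lit 4) (.nd (nat_lit 5) 
(.lf (nat_lit 89988) (.g (nat_lit 1683) (.e (nat_lit 2031) (nat_lit 140) (.e (nat_lit 688177) (nat_lit 16) (.e (nat_lit 65617) (nat_lit 10) (.e (nat_lit 344161) (nat_lit 37) (.e (nat_lit 647195) (nat_lit 9) (.e (nat_lit 426) (nat_lit 32) (.e (nat_lit 426189) (nat_lit 9) (.e (nat_lit 433920) (nat_lit 15) .nil)))))))) (.g (nat_lit 4) .nil .nil))) 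
(.lf (nat_lit 90020) (.g (nat_lit 2430) (.e (nat_lit 2031) (nat_lit 140) (.e (nat_lit 688177) (nat_lit 16) (.e (nat_lit 65617) (nat_lit 10) (.e (nat_lit 344164) (nat_lit 37) (.e (nat_lit 647199) (nat_lit 11) (.e (nat_lit 16436) (nat_lit 9) (.e (nat_lit 426350) (nat_lit 15) .nil))))))) (.g (nat_lit 4) .nil .nil)))) (.nd (nat_lit 5) 
(.lf (nat_lit 90004) (.g (nat_lit 1971) (.e (nat_lit 2031) (nat_lit 140) (.e (nat_lit 688177) (nat_lit 16) (.e (nat_lit 65617) (nat_lit 10) (.e (nat_lit 344164) (nat_lit 37) (.e (nat_lit 647188) (nat_lit 9) (.e (nat_lit 458) (nat_lit 34) (.e (nat_lit 450304) (nat_lit 0) .nil))))))) (.g (nat_lit 4) .nil .nil))) 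
(.lf (nat_lit 90036) (.g (nat_lit 1697) (.e (nat_lit 2031) (nat_lit 140) (.e (nat_lit 688178) (nat_lit 16) (.e (nat_lit 65569) (nat_lit 3) (.e (nat_lit 98380) (nat_lit 31) (.e (nat_lit 466947) (nat_lit 0) .nil))))) .nil)))) (.nd (nat_lit 4) (.nd (nat_lit 5) 
(.lf (nat_lit 89996) (.g (nat_lit 2492) (.e (nat_lit 2031) (nat_lit 140) (.e (nat_lit 688177) (nat_lit 16) (.e (nat_lit 65617) (nat_lit 10) (.e (nat_lit 344161) (nat_lit 37) (.e (nat_lit 647199) (nat_lit 11) (.e (nat_lit 16436) (nat_lit 9) (.e (nat_lit 426350) (nat_lit 15) .nil))))))) (.g (nat_lit 4) .nil .nil))) 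
(.lf (nat_lit 90028) (.g (nat_lit 3652) (.e (nat_lit 2031) (nat_lit 140) (.e (nat_lit 688177) (nat_lit 16) (.e (nat_lit 65630) (nat_lit 14) (.e (nat_lit 401454) (nat_lit 12) (.e (nat_lit 475192) (nat_lit 37) (.e (nat_lit 679977) (nat_lit 17) (.e (nat_lit 179968) (nat_lit 15) .nil))))))) (.g (nat_lit 4) .nil .nil)))) (.nd (nat_lit 5) 
(.lf (nat_lit 90012) (.g (nat_lit 2016) (.e (nat_lit 2031) (nat_lit 140) (.e (nat_lit 688177) (nat_lit 16) (.e (nat_lit 65617) (nat_lit 10) (.e (nat_lit 344164) (nat_lit 37) (.e (nat_lit 647190) (nat_lit 9) (.e (nat_lit 7936) (nat_lit 34) (.e (nat_lit 450304) (nat_lit 0) .nil))))))) (.g (nat_lit 4) .nil .nil))) 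
(.lf (nat_lit 90044) (.g (nat_lit 2386) (.e (nat_lit 2031) (nat_lit 140) (.e (nat_lit 688178) (nat_lit 16) (.e (nat_lit 65619) (nat_lit 10) (.e (nat_lit 344097) (nat_lit 18) (.e (nat_lit 5055) (nat_lit 292) (.e (nat_lit 2645) (nat_lit 166) (.e (nat_lit 196352) (nat_lit 0) .nil))))))) (.g (nat_lit 4) .nil .nil))))))) (.nd (nat_lit 2) (.nd (nat_lit 3) (.nd (nat_lit 4) (.nd (nat_lit 5) 
(.lf (nat_lit 89986) (.g (nat_lit 2608) (.e (nat_lit 2031) (nat_lit 140) (.e (nat_lit 688177) (nat_lit 16) (.e (nat_lit 65617) (nat_lit 10) (.e (nat_lit 344161) (nat_lit 37) (.e (nat_lit 647195) (nat_lit 9) (.e (nat_lit 426) (nat_lit 32) (.e (nat_lit 426186) (nat_lit 9) (.e (nat_lit 426350) (nat_lit 15) .nil)))))))) (.g (nat_lit 4) .nil .nil))) 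
(.lf (nat_lit 90018) (.g (nat_lit 2718) (.e (nat_lit 2031) (nat_lit 140) (.e (nat_lit 688177) (nat_lit 16) (.e (nat_lit 65617) (nat_lit 10) (.e (nat_lit 344164) (nat_lit 37) (.e (nat_lit 647199) (nat_lit 11) (.e (nat_lit 16435) (nat_lit 9) (.e (nat_lit 426350) (nat_lit 15) .nil))))))) (.g (nat_lit 5) .nil .nil)))) (.nd (nat_lit 5) 
(.lf (nat_lit 90002) (.g (nat_lit 1520) (.e (nat_lit 2031) (nat_lit 140) (.e (nat_lit 688177) (nat_lit 16) (.e (nat_lit 65617) (nat_lit 10) (.e (nat_lit 344164) (nat_lit 37) (.e (nat_lit 647188) (nat_lit 9) .nil))))) .nil)) 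
(.lf (nat_lit 90034) (.g (nat_lit 2587) (.e (nat_lit 2031) (nat_lit 140) (.e (nat_lit 688178) (nat_lit 16) (.e (nat_lit 65568) (nat_lit 2) (.e (nat_lit 90172) (nat_lit 14) (.e (nat_lit 188160) (nat_lit 33) (.e (nat_lit 8226) (nat_lit 15) (.e (nat_lit 532481) (nat_lit 0) .nil))))))) (.g (nat_lit 4) .nil .nil))))) (.nd (nat_lit 4) (.nd (nat_lit 5) 
(.lf (nat_lit 89994) (.g (nat_lit 2801) (.e (nat_lit 2031) (nat_lit 140) (.e (nat_lit 688177) (nat_lit 16) (.e (nat_lit 65617) (nat_lit 10) (.e (nat_lit 344161) (nat_lit 37) (.e (nat_lit 647199) (nat_lit 11) (.e (nat_lit 16435) (nat_lit 9) (.e (nat_lit 426350) (nat_lit 15) .nil))))))) (.g (nat_lit 5) .nil .nil))) 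
(.lf (nat_lit 90026) (.g (nat_lit 2487) (.e (nat_lit 2031) (nat_lit 140) (.e (nat_lit 688177) (nat_lit 16) (.e (nat_lit 65625) (nat_lit 13) (.e (nat_lit 393283) (nat_lit 24) (.e (nat_lit 434268) (nat_lit 36) (.e (nat_lit 639007) (nat_lit 13) (.e (nat_lit 982) (nat_lit 81) .nil))))))) (.g (nat_lit 4) .nil .nil)))) (.nd (nat_lit 5) 
(.lf (nat_lit 90010) (.g (nat_lit 2057) (.e (nat_lit 2031) (nat_lit 140) (.e (nat_lit 688177) (nat_lit 16) (.e (nat_lit 65617) (nat_lit 10) (.e (nat_lit 344164) (nat_lit 37) (.e (nat_lit 647189) (nat_lit 9) (.e (nat_lit 476) (nat_lit 37) (.e (nat_lit 474880) (nat_lit 0) .nil))))))) (.g (nat_lit 4) .nil .nil))) 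
(.lf (nat_lit 90042) (.g (nat_lit 2068) (.e (nat_lit 2031) (nat_lit 140) (.e (nat_lit 688178) (nat_lit 16) (.e (nat_lit 65604) (nat_lit 9) (.e (nat_lit 335997) (nat_lit 1) (.e (nat_lit 57857) (nat_lit 254) (.e (nat_lit 163933) (nat_lit 17) (.e (nat_lit 474880) (nat_lit 0) .nil))))))) (.g (nat_lit 4) .nil .nil)))))) (.nd (nat_lit 3) (.nd (nat_lit 4) (.nd (nat_lit 5) 
(.lf (nat_lit 89990) (.g (nat_lit 1876) (.e (nat_lit 2031) (nat_lit 140) (.e (nat_lit 688177) (nat_lit 16) (.e (nat_lit 65617) (nat_lit 10) (.e (nat_lit 344161) (nat_lit 37) (.e (nat_lit 647195) (nat_lit 9) (.e (nat_lit 426) (nat_lit 32) (.e (nat_lit 426190) (nat_lit 9) (.e (nat_lit 433920) (nat_lit 15) .nil)))))))) (.g (nat_lit 4) .nil .nil))) 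
(.lf (nat_lit 90022) (.g (nat_lit 2833) (.e (nat_lit 2031) (nat_lit 140) (.e (nat_lit 688177) (nat_lit 16) (.e (nat_lit 65617) (nat_lit 10) (.e (nat_lit 344164) (nat_lit 37) (.e (nat_lit 647199) (nat_lit 11) (.e (nat_lit 16437) (nat_lit 9) (.e (nat_lit 426354) (nat_lit 15) .nil))))))) (.g (nat_lit 5) .nil .nil)))) (.nd (nat_lit 5) 
(.lf (nat_lit 90006) (.g (nat_lit 2128) (.e (nat_lit 2031) (nat_lit 140) (.e (nat_lit 688177) (nat_lit 16) (.e (nat_lit 65617) (nat_lit 10) (.e (nat_lit 344164) (nat_lit 37) (.e (nat_lit 647188) (nat_lit 9) (.e (nat_lit 476) (nat_lit 37) (.e (nat_lit 474880) (nat_lit 0) .nil))))))) (.g (nat_lit 5) .nil .nil))) 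
(.lf (nat_lit 90038) (.g (nat_lit 1836) (.e (nat_lit 2031) (nat_lit 140) (.e (nat_lit 688178) (nat_lit 16) (.e (nat_lit 65571) (nat_lit 3) (.e (nat_lit 98370) (nat_lit 28) (.e (nat_lit 442424) (nat_lit 22) .nil))))) .nil)))) (.nd (nat_lit 4) (.nd (nat_lit 5) 
(.lf (nat_lit 89998) (.g (nat_lit 2916) (.e (nat_lit 2031) (nat_lit 140) (.e (nat_lit 688177) (nat_lit 16) (.e (nat_lit 65617) (nat_lit 10) (.e (nat_lit 344161) (nat_lit 37) (.e (nat_lit 647199) (nat_lit 11) (.e (nat_lit 16437) (nat_lit 9) (.e (nat_lit 426354) (nat_lit 15) .nil))))))) (.g (nat_lit 5) .nil .nil))) 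
(.lf (nat_lit 90030) (.g (nat_lit 3993) (.e (nat_lit 2031) (nat_lit 140) (.e (nat_lit 688177) (nat_lit 16) (.e (nat_lit 65630) (nat_lit 14) (.e (nat_lit 401454) (nat_lit 12) (.e (nat_lit 475218) (nat_lit 44) (.e (nat_lit 737294) (nat_lit 3) (.e (nat_lit 48896) (nat_lit 0) (.e (nat_lit 999) (nat_lit 81) .nil)))))))) (.g (nat_lit 4) .nil .nil)))) (.nd (nat_lit 5) 
(.lf (nat_lit 90014) (.g (nat_lit 2320) (.e (nat_lit 2031) (nat_lit 140) (.e (nat_lit 688177) (nat_lit 16) (.e (nat_lit 65617) (nat_lit 10) (.e (nat_lit 344164) (nat_lit 37) (.e (nat_lit 647195) (nat_lit 9) (.e (nat_lit 420) (nat_lit 32) (.e (nat_lit 426234) (nat_lit 9) (.e (nat_lit 426353) (nat_lit 15) .nil)))))))) (.g (nat_lit 4) .nil .nil))) 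
(.lf (nat_lit 90046) (.g (nat_lit 2001) (.e (nat_lit 2031) (nat_lit 140) (.e (nat_lit 688178) (nat_lit 16) (.e (nat_lit 65619) (nat_lit 10) (.e (nat_lit 344097) (nat_lit 18) (.e (nat_lit 5219) (nat_lit 296) (.e (nat_lit 163907) (nat_lit 12) (.e (nat_lit 426227) (nat_lit 9) (.e (nat_lit 433920) (nat_lit 15) .nil)))))))) (.g (nat_lit 4) .nil .nil)))))))) 
(.nd (nat_lit 1) (.nd (nat_lit 2) (.nd (nat_lit 3) (.nd (nat_lit 4) (.nd (nat_lit 5) 
(.lf (nat_lit 89985) (.g (nat_lit 3498) (.e (nat_lit 2031) (nat_lit 140) (.e (nat_lit 688177) (nat_lit 16) (.e (nat_lit 65617) (nat_lit 10) (.e (nat_lit 344161) (nat_lit 37) (.e (nat_lit 647195) (nat_lit 9) (.e (nat_lit 420) (nat_lit 32) (.e (nat_lit 426262) (nat_lit 9) (.e (nat_lit 433920) (nat_lit 15) .nil)))))))) (.g (nat_lit 7) .nil .nil))) 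
(.lf (nat_lit 90017) (.g (nat_lit 1703) (.e (nat_lit 2031) (nat_lit 140) (.e (nat_lit 688177) (nat_lit 16) (.e (nat_lit 65617) (nat_lit 10) (.e (nat_lit 344164) (nat_lit 37) (.e (nat_lit 647195) (nat_lit 9) (.e (nat_lit 7936) (nat_lit 37) (.e (nat_lit 474880) (nat_lit 0) .nil))))))) (.g (nat_lit 4) .nil .nil)))) (.nd (nat_lit 5) 
(.lf (nat_lit 90001) (.g (nat_lit 1612) (.e (nat_lit 2031) (nat_lit 140) (.e (nat_lit 688177) (nat_lit 16) (.e (nat_lit 65617) (nat_lit 10) (.e (nat_lit 344161) (nat_lit 37) (.e (nat_lit 647199) (nat_lit 11) (.e (nat_lit 16438) (nat_lit 9) (.e (nat_lit 433920) (nat_lit 15) .nil))))))) (.g (nat_lit 4) .nil .nil))) 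
(.lf (nat_lit 90033) (.g (nat_lit 2105) (.e (nat_lit 2031) (nat_lit 140) (.e (nat_lit 688178) (nat_lit 16) (.e (nat_lit 65567) (nat_lit 2) (.e (nat_lit 90174) (nat_lit 14) (.e (nat_lit 188160) (nat_lit 33) (.e (nat_lit 8226) (nat_lit 15) (.e (nat_lit 532481) (nat_lit 0) .nil))))))) (.g (nat_lit 4) .nil .nil))))) (.nd (nat_lit 4) (.nd (nat_lit 5) 
(.lf (nat_lit 89993) (.g (nat_lit 2929) (.e (nat_lit 2031) (nat_lit 140) (.e (nat_lit 688177) (nat_lit 16) (.e (nat_lit 65617) (nat_lit 10) (.e (nat_lit 344161) (nat_lit 37) (.e (nat_lit 647195) (nat_lit 9) (.e (nat_lit 7936) (nat_lit 37) (.e (nat_lit 474880) (nat_lit 0) .nil))))))) (.g (nat_lit 5) .nil .nil))) 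
(.lf (nat_lit 90025) (.g (nat_lit 1580) (.e (nat_lit 2031) (nat_lit 140) (.e (nat_lit 688177) (nat_lit 16) (.e (nat_lit 65617) (nat_lit 10) (.e (nat_lit 344164) (nat_lit 37) (.e (nat_lit 647199) (nat_lit 11) (.e (nat_lit 16438) (nat_lit 9) (.e (nat_lit 433920) (nat_lit 15) .nil))))))) (.g (nat_lit 4) .nil .nil)))) (.nd (nat_lit 5) 
(.lf (nat_lit 90009) (.g (nat_lit 1537) (.e (nat_lit 2031) (nat_lit 140) (.e (nat_lit 688177) (nat_lit 16) (.e (nat_lit 65617) (nat_lit 10) (.e (nat_lit 344164) (nat_lit 37) (.e (nat_lit 647189) (nat_lit 9) (.e (nat_lit 458) (nat_lit 34) (.e (nat_lit 450304) (nat_lit 0) .nil))))))) (.g (nat_lit 4) .nil .nil))) 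
(.lf (nat_lit 90041) (.g (nat_lit 3030) (.e (nat_lit 2031) (nat_lit 140) (.e (nat_lit 688178) (nat_lit 16) (.e (nat_lit 65604) (nat_lit 9) (.e (nat_lit 335997) (nat_lit 1) (.e (nat_lit 57857) (nat_lit 254) (.e (nat_lit 163920) (nat_lit 14) (.e (nat_lit 450304) (nat_lit 0) .nil))))))) (.g (nat_lit 6) .nil .nil)))))) (.nd (nat_lit 3) (.nd (nat_lit 4) (.nd (nat_lit 5) 
(.lf (nat_lit 89989) (.g (nat_lit 4767) (.e (nat_lit 2031) (nat_lit 140) (.e (nat_lit 688177) (nat_lit 16) (.e (nat_lit 65617) (nat_lit 10) (.e (nat_lit 344161) (nat_lit 37) (.e (nat_lit 647195) (nat_lit 9) (.e (nat_lit 426) (nat_lit 32) (.e (nat_lit 426190) (nat_lit 9) (.e (nat_lit 426350) (nat_lit 15) .nil)))))))) (.g (nat_lit 7) .nil .nil))) 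
(.lf (nat_lit 90021) (.g (nat_lit 4404) (.e (nat_lit 2031) (nat_lit 140) (.e (nat_lit 688177) (nat_lit 16) (.e (nat_lit 65617) (nat_lit 10) (.e (nat_lit 344164) (nat_lit 37) (.e (nat_lit 647199) (nat_lit 11) (.e (nat_lit 16436) (nat_lit 9) (.e (nat_lit 426354) (nat_lit 15) .nil))))))) (.g (nat_lit 0) .nil .nil)))) (.nd (nat_lit 5) 
(.lf (nat_lit 90005) (.g (nat_lit 1751) (.e (nat_lit 2031) (nat_lit 140) (.e (nat_lit 688177) (nat_lit 16) (.e (nat_lit 65617) (nat_lit 10) (.e (nat_lit 344164) (nat_lit 37) (.e (nat_lit 647188) (nat_lit 9) (.e (nat_lit 459) (nat_lit 34) (.e (nat_lit 450304) (nat_lit 0) .nil))))))) (.g (nat_lit 4) .nil .nil))) 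
(.lf (nat_lit 90037) (.g (nat_lit 2333) (.e (nat_lit 2031) (nat_lit 140) (.e (nat_lit 688178) (nat_lit 16) (.e (nat_lit 65571) (nat_lit 3) (.e (nat_lit 98367) (nat_lit 27) (.e (nat_lit 442112) (nat_lit 1) (.e (nat_lit 8226) (nat_lit 15) (.e (nat_lit 532481) (nat_lit 0) .nil))))))) (.g (nat_lit 4) .nil .nil))))) (.nd (nat_lit 4) (.nd (nat_lit 5) 
(.lf (nat_lit 89997) (.g (nat_lit 4436) (.e (nat_lit 2031) (nat_lit 140) (.e (nat_lit 688177) (nat_lit 16) (.e (nat_lit 65617) (nat_lit 10) (.e (nat_lit 344161) (nat_lit 37) (.e (nat_lit 647199) (nat_lit 11) (.e (nat_lit 16436) (nat_lit 9) (.e (nat_lit 426354) (nat_lit 15) .nil))))))) (.g (nat_lit 0) .nil .nil))) 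
(.lf (nat_lit 90029) (.g (nat_lit 4062) (.e (nat_lit 2031) (nat_lit 140) (.e (nat_lit 688177) (nat_lit 16) (.e (nat_lit 65630) (nat_lit 14) (.e (nat_lit 401454) (nat_lit 12) (.e (nat_lit 475192) (nat_lit 37) (.e (nat_lit 679981) (nat_lit 20) (.e (nat_lit 245504) (nat_lit 15) .nil))))))) (.g (nat_lit 4) .nil .nil)))) (.nd (nat_lit 5) 
(.lf (nat_lit 90013) (.g (nat_lit 2016) (.e (nat_lit 2031) (nat_lit 140) (.e (nat_lit 688177) (nat_lit 16) (.e (nat_lit 65617) (nat_lit 10) (.e (nat_lit 344164) (nat_lit 37) (.e (nat_lit 647190) (nat_lit 9) (.e (nat_lit 7936) (nat_lit 37) (.e (nat_lit 474880) (nat_lit 0) .nil))))))) (.g (nat_lit 4) .nil .nil))) 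
(.lf (nat_lit 90045) (.g (nat_lit 2792) (.e (nat_lit 2031) (nat_lit 140) (.e (nat_lit 688178) (nat_lit 16) (.e (nat_lit 65619) (nat_lit 10) (.e (nat_lit 344097) (nat_lit 18) (.e (nat_lit 5055) (nat_lit 292) (.e (nat_lit 2646) (nat_lit 166) (.e (nat_lit 196352) (nat_lit 0) .nil))))))) (.g (nat_lit 5) .nil .nil))))))) (.nd (nat_lit 2) (.nd (nat_lit 3) (.nd (nat_lit 4) (.nd (nat_lit 5) 
(.lf (nat_lit 89987) (.g (nat_lit 1590) (.e (nat_lit 2031) (nat_lit 140) (.e (nat_lit 688177) (nat_lit 16) (.e (nat_lit 65617) (nat_lit 10) (.e (nat_lit 344161) (nat_lit 37) (.e (nat_lit 647195) (nat_lit 9) (.e (nat_lit 426) (nat_lit 32) (.e (nat_lit 426186) (nat_lit 9) (.e (nat_lit 433920) (nat_lit 15) .nil)))))))) (.g (nat_lit 4) .nil .nil))) 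
(.lf (nat_lit 90019) (.g (nat_lit 3178) (.e (nat_lit 2031) (nat_lit 140) (.e (nat_lit 688177) (nat_lit 16) (.e (nat_lit 65617) (nat_lit 10) (.e (nat_lit 344164) (nat_lit 37) (.e (nat_lit 647199) (nat_lit 11) (.e (nat_lit 16435) (nat_lit 9) (.e (nat_lit 426354) (nat_lit 15) .nil))))))) (.g (nat_lit 6) .nil .nil)))) (.nd (nat_lit 5) 
(.lf (nat_lit 90003) (.g (nat_lit 2118) (.e (nat_lit 2031) (nat_lit 140) (.e (nat_lit 688177) (nat_lit 16) (.e (nat_lit 65617) (nat_lit 10) (.e (nat_lit 344164) (nat_lit 37) (.e (nat_lit 647188) (nat_lit 9) (.e (nat_lit 457) (nat_lit 34) (.e (nat_lit 450304) (nat_lit 0) .nil))))))) (.g (nat_lit 5) .nil .nil))) 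
(.lf (nat_lit 90035) (.g (nat_lit 1943) (.e (nat_lit 2031) (nat_lit 140) (.e (nat_lit 688178) (nat_lit 16) (.e (nat_lit 65569) (nat_lit 3) (.e (nat_lit 98367) (nat_lit 27) (.e (nat_lit 442112) (nat_lit 1) (.e (nat_lit 8226) (nat_lit 15) (.e (nat_lit 532481) (nat_lit 0) .nil))))))) (.g (nat_lit 4) .nil .nil))))) (.nd (nat_lit 4) (.nd (nat_lit 5) 
(.lf (nat_lit 89995) (.g (nat_lit 3261) (.e (nat_lit 2031) (nat_lit 140) (.e (nat_lit 688177) (nat_lit 16) (.e (nat_lit 65617) (nat_lit 10) (.e (nat_lit 344161) (nat_lit 37) (.e (nat_lit 647199) (nat_lit 11) (.e (nat_lit 16435) (nat_lit 9) (.e (nat_lit 426354) (nat_lit 15) .nil))))))) (.g (nat_lit 6) .nil .nil))) 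
(.lf (nat_lit 90027) (.g (nat_lit 1086) (.e (nat_lit 2031) (nat_lit 140) (.e (nat_lit 688177) (nat_lit 16) (.e (nat_lit 65627) (nat_lit 13) (.e (nat_lit 393283) (nat_lit 24) .nil)))) .nil))) (.nd (nat_lit 5) 
(.lf (nat_lit 90011) (.g (nat_lit 1892) (.e (nat_lit 2031) (nat_lit 140) (.e (nat_lit 688177) (nat_lit 16) (.e (nat_lit 65617) (nat_lit 10) (.e (nat_lit 344164) (nat_lit 37) (.e (nat_lit 647189) (nat_lit 9) (.e (nat_lit 478) (nat_lit 37) (.e (nat_lit 474880) (nat_lit 0) .nil))))))) (.g (nat_lit 4) .nil .nil))) 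
(.lf (nat_lit 90043) (.g (nat_lit 286) (.e (nat_lit 2031) (nat_lit 140) (.e (nat_lit 688178) (nat_lit 16) (.e (nat_lit 65619) (nat_lit 10) .nil))) .nil))))) (.nd (nat_lit 3) (.nd (nat_lit 4) (.nd (nat_lit 5) 
(.lf (nat_lit 89991) (.g (nat_lit 2476) (.e (nat_lit 2031) (nat_lit 140) (.e (nat_lit 688177) (nat_lit 16) (.e (nat_lit 65617) (nat_lit 10) (.e (nat_lit 344161) (nat_lit 37) (.e (nat_lit 647195) (nat_lit 9) (.e (nat_lit 426) (nat_lit 32) (.e (nat_lit 426199) (nat_lit 9) (.e (nat_lit 426350) (nat_lit 15) .nil)))))))) (.g (nat_lit 4) .nil .nil))) 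
(.lf (nat_lit 90023) (.g (nat_lit 2802) (.e (nat_lit 2031) (nat_lit 140) (.e (nat_lit 688177) (nat_lit 16) (.e (nat_lit 65617) (nat_lit 10) (.e (nat_lit 344164) (nat_lit 37) (.e (nat_lit 647199) (nat_lit 11) (.e (nat_lit 16438) (nat_lit 9) (.e (nat_lit 426350) (nat_lit 15) .nil))))))) (.g (nat_lit 5) .nil .nil)))) (.nd (nat_lit 5) 
(.lf (nat_lit 90007) (.g (nat_lit 2200) (.e (nat_lit 2031) (nat_lit 140) (.e (nat_lit 688177) (nat_lit 16) (.e (nat_lit 65617) (nat_lit 10) (.e (nat_lit 344164) (nat_lit 37) (.e (nat_lit 647188) (nat_lit 9) (.e (nat_lit 478) (nat_lit 37) (.e (nat_lit 474880) (nat_lit 0) .nil))))))) (.g (nat_lit 5) .nil .nil))) 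
(.lf (nat_lit 90039) (.g (nat_lit 2253) (.e (nat_lit 2031) (nat_lit 140) (.e (nat_lit 688178) (nat_lit 16) (.e (nat_lit 65571) (nat_lit 3) (.e (nat_lit 98380) (nat_lit 31) (.e (nat_lit 466947) (nat_lit 0) .nil))))) .nil)))) (.nd (nat_lit 4) (.nd (nat_lit 5) 
(.lf (nat_lit 89999) (.g (nat_lit 2834) (.e (nat_lit 2031) (nat_lit 140) (.e (nat_lit 688177) (nat_lit 16) (.e (nat_lit 65617) (nat_lit 10) (.e (nat_lit 344161) (nat_lit 37) (.e (nat_lit 647199) (nat_lit 11) (.e (nat_lit 16438) (nat_lit 9) (.e (nat_lit 426350) (nat_lit 15) .nil))))))) (.g (nat_lit 5) .nil .nil))) 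
(.lf (nat_lit 90031) (.g (nat_lit 3351) (.e (nat_lit 2031) (nat_lit 140) (.e (nat_lit 688177) (nat_lit 16) (.e (nat_lit 65630) (nat_lit 14) (.e (nat_lit 401454) (nat_lit 12) (.e (nat_lit 475219) (nat_lit 44) .nil))))) .nil))) (.nd (nat_lit 5) 
(.lf (nat_lit 90015) (.g (nat_lit 2322) (.e (nat_lit 2031) (nat_lit 140) (.e (nat_lit 688177) (nat_lit 16) (.e (nat_lit 65617) (nat_lit 10) (.e (nat_lit 344164) (nat_lit 37) (.e (nat_lit 647195) (nat_lit 9) (.e (nat_lit 420) (nat_lit 32) (.e (nat_lit 426262) (nat_lit 9) (.e (nat_lit 426353) (nat_lit 15) .nil)))))))) (.g (nat_lit 4) .nil .nil))) 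
(.lf (nat_lit 90047) (.g (nat_lit 1895) (.e (nat_lit 2031) (nat_lit 140) (.e (nat_lit 688178) (nat_lit 16) (.e (nat_lit 65619) (nat_lit 10) (.e (nat_lit 344097) (nat_lit 18) (.e (nat_lit 5219) (nat_lit 296) (.e (nat_lit 163920) (nat_lit 14) (.e (nat_lit 450304) (nat_lit 0) .nil))))))) (.g (nat_lit 4) .nil .nil)))))))))

noncomputable def tv1231 : DT := (.nd (nat_lit 0) (.nd (nat_lit 1) (.nd (nat_lit 2) (.nd (nat_lit 3) (.nd (nat_lit 4) (.nd (nat_lit 5) 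
(.lf (nat_lit 90048) (.g (nat_lit 1690) (.e (nat_lit 2031) (nat_lit 140) (.e (nat_lit 688178) (nat_lit 16) (.e (nat_lit 65619) (nat_lit 10) (.e (nat_lit 344097) (nat_lit 18) (.e (nat_lit 5219) (nat_lit 296) (.e (nat_lit 163931) (nat_lit 17) (.e (nat_lit 474880) (nat_lit 0) .nil))))))) (.g (nat_lit 4) .nil .nil))) 
(.lf (nat_lit 90080) (.g (nat_lit 2324) (.e (nat_lit 2031) (nat_lit 140) (.e (nat_lit 688178) (nat_lit 16) (.e (nat_lit 65619) (nat_lit 10) (.e (nat_lit 344160) (nat_lit 37) (.e (nat_lit 647195) (nat_lit 9) (.e (nat_lit 420) (nat_lit 32) (.e (nat_lit 426262) (nat_lit 9) (.e (nat_lit 433920) (nat_lit 15) .nil)))))))) (.g (nat_lit 4) .nil .nil)))) (.nd (nat_lit 5) 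
(.lf (nat_lit 90064) (.g (nat_lit 2220) (.e (nat_lit 2031) (nat_lit 140) (.e (nat_lit 688178) (nat_lit 16) (.e (nat_lit 65619) (nat_lit 10) (.e (nat_lit 344160) (nat_lit 37) (.e (nat_lit 647195) (nat_lit 9) (.e (nat_lit 417) (nat_lit 32) (.e (nat_lit 426228) (nat_lit 9) (.e (nat_lit 426349) (nat_lit 15) .nil)))))))) (.g (nat_lit 4) .nil .nil))) 
(.lf (nat_lit 90096) (.g (nat_lit 2861) (.e (nat_lit 2031) (nat_lit 140) (.e (nat_lit 688178) (nat_lit 16) (.e (nat_lit 65619) (nat_lit 10) (.e (nat_lit 344160) (nat_lit 37) (.e (nat_lit 647199) (nat_lit 11) (.e (nat_lit 16437) (nat_lit 9) (.e (nat_lit 426354) (nat_lit 15) .nil))))))) (.g (nat_lit 6) .nil .nil))))) (.nd (nat_lit 4) (.nd (nat_lit 5) 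
(.lf (nat_lit 90056) (.g (nat_lit 1834) (.e (nat_lit 2031) (nat_lit 140) (.e (nat_lit 688178) (nat_lit 16) (.e (nat_lit 65619) (nat_lit 10) (.e (nat_lit 344154) (nat_lit 35) (.e (nat_lit 630802) (nat_lit 8) (.e (nat_lit 172086) (nat_lit 9) (.e (nat_lit 426354) (nat_lit 15) .nil))))))) (.g (nat_lit 4) .nil .nil))) 
(.lf (nat_lit 90088) (.g (nat_lit 2077) (.e (nat_lit 2031) (nat_lit 140) (.e (nat_lit 688178) (nat_lit 16) (.e (nat_lit 65619) (nat_lit 10) (.e (nat_lit 344160) (nat_lit 37) (.e (nat_lit 647195) (nat_lit 9) (.e (nat_lit 7936) (nat_lit 34) (.e (nat_lit 450304) (nat_lit 0) .nil))))))) (.g (nat_lit 4) .nil .nil)))) (.nd (nat_lit 5) 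
(.lf (nat_lit 90072) (.g (nat_lit 2880) (.e (nat_lit 2031) (nat_lit 140) (.e (nat_lit 688178) (nat_lit 16) (.e (nat_lit 65619) (nat_lit 10) (.e (nat_lit 344160) (nat_lit 37) (.e (nat_lit 647195) (nat_lit 9) (.e (nat_lit 420) (nat_lit 32) (.e (nat_lit 426225) (nat_lit 9) (.e (nat_lit 426353) (nat_lit 15) .nil)))))))) (.g (nat_lit 5) .nil .nil))) 
(.lf (nat_lit 90104) (.g (nat_lit 2395) (.e (nat_lit 2031) (nat_lit 140) (.e (nat_lit 688180) (nat_lit 17) (.e (nat_lit 73753) (nat_lit 8) (.e (nat_lit 557100) (nat_lit 13) (.e (nat_lit 179968) (nat_lit 20) .nil))))) .nil))))) (.nd (nat_lit 3) (.nd (nat_lit 4) (.nd (nat_lit 5) 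
(.lf (nat_lit 90052) (.g (nat_lit 2557) (.e (nat_lit 2031) (nat_lit 140) (.e (nat_lit 688178) (nat_lit 16) (.e (nat_lit 65619) (nat_lit 10) (.e (nat_lit 344097) (nat_lit 18) (.e (nat_lit 5243) (nat_lit 297) (.e (nat_lit 229412) (nat_lit 14) (.e (nat_lit 450304) (nat_lit 0) .nil))))))) (.g (nat_lit 5) .nil .nil))) 
(.lf (nat_lit 90084) (.g (nat_lit 3128) (.e (nat_lit 2031) (nat_lit 140) (.e (nat_lit 688178) (nat_lit 16) (.e (nat_lit 65619) (nat_lit 10) (.e (nat_lit 344160) (nat_lit 37) (.e (nat_lit 647195) (nat_lit 9) (.e (nat_lit 426) (nat_lit 32) (.e (nat_lit 426197) (nat_lit 9) (.e (nat_lit 426354) (nat_lit 15) .nil)))))))) (.g (nat_lit 5) .nil .nil)))) (.nd (nat_lit 5) 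
(.lf (nat_lit 90068) (.g (nat_lit 2805) (.e (nat_lit 2031) (nat_lit 140) (.e (nat_lit 688178) (nat_lit 16) (.e (nat_lit 65619) (nat_lit 10) (.e (nat_lit 344160) (nat_lit 37) (.e (nat_lit 647195) (nat_lit 9) (.e (nat_lit 417) (nat_lit 32) (.e (nat_lit 426260) (nat_lit 9) (.e (nat_lit 426353) (nat_lit 15) .nil)))))))) (.g (nat_lit 5) .nil .nil))) 
(.lf (nat_lit 90100) (.g (nat_lit 2154) (.e (nat_lit 2031) (nat_lit 140) (.e (nat_lit 688180) (nat_lit 17) (.e (nat_lit 73746) (nat_lit 3) (.e (nat_lit 516174) (nat_lit 14) (.e (nat_lit 466947) (nat_lit 0) (.e (nat_lit 7936) (nat_lit 121) (.e (nat_lit 532481) (nat_lit 0) .nil))))))) (.g (nat_lit 4) .nil .nil))))) (.nd (nat_lit 4) (.nd (nat_lit 5) 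
(.lf (nat_lit 90060) (.g (nat_lit 1579) (.e (nat_lit 2031) (nat_lit 140) (.e (nat_lit 688178) (nat_lit 16) (.e (nat_lit 65619) (nat_lit 10) (.e (nat_lit 344160) (nat_lit 37) (.e (nat_lit 647190) (nat_lit 9) .nil))))) .nil)) 
(.lf (nat_lit 90092) (.g (nat_lit 3206) (.e (nat_lit 2031) (nat_lit 140) (.e (nat_lit 688178) (nat_lit 16) (.e (nat_lit 65619) (nat_lit 10) (.e (nat_lit 344160) (nat_lit 37) (.e (nat_lit 647199) (nat_lit 11) (.e (nat_lit 16435) (nat_lit 9) (.e (nat_lit 426354) (nat_lit 15) .nil))))))) (.g (nat_lit 6) .nil .nil)))) (.nd (nat_lit 5) 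
(.lf (nat_lit 90076) (.g (nat_lit 3077) (.e (nat_lit 2031) (nat_lit 140) (.e (nat_lit 688178) (nat_lit 16) (.e (nat_lit 65619) (nat_lit 10) (.e (nat_lit 344160) (nat_lit 37) (.e (nat_lit 647195) (nat_lit 9) (.e (nat_lit 420) (nat_lit 32) (.e (nat_lit 426234) (nat_lit 9) (.e (nat_lit 426349) (nat_lit 15) .nil)))))))) (.g (nat_lit 5) .nil .nil))) 
(.lf (nat_lit 90108) (.g (nat_lit 3209) (.e (nat_lit 2031) (nat_lit 140) (.e (nat_lit 688180) (nat_lit 17) (.e (nat_lit 73753) (nat_lit 8) (.e (nat_lit 557101) (nat_lit 13) (.e (nat_lit 179968) (nat_lit 20) (.e (nat_lit 114711) (nat_lit 21) (.e (nat_lit 57847) (nat_lit 252) (.e (nat_lit 57348) (nat_lit 0) .nil)))))))) (.g (nat_lit 7) .nil .nil))))))) 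
(.nd (nat_lit 2) (.nd (nat_lit 3) (.nd (nat_lit 4) (.nd (nat_lit 5) 
(.lf (nat_lit 90050) (.g (nat_lit 2418) (.e (nat_lit 2031) (nat_lit 140) (.e (nat_lit 688178) (nat_lit 16) (.e (nat_lit 65619) (nat_lit 10) (.e (nat_lit 344097) (nat_lit 18) (.e (nat_lit 5219) (nat_lit 296) (.e (nat_lit 163933) (nat_lit 17) (.e (nat_lit 474880) (nat_lit 0) .nil))))))) (.g (nat_lit 4) .nil .nil))) 
(.lf (nat_lit 90082) (.g (nat_lit 3128) (.e (nat_lit 2031) (nat_lit 140) (.e (nat_lit 688178) (nat_lit 16) (.e (nat_lit 65619) (nat_lit 10) (.e (nat_lit 344160) (nat_lit 37) (.e (nat_lit 647195) (nat_lit 9) (.e (nat_lit 426) (nat_lit 32) (.e (nat_lit 426189) (nat_lit 9) (.e (nat_lit 426354) (nat_lit 15) .nil)))))))) (.g (nat_lit 5) .nil .nil)))) (.nd (nat_lit 5) 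
(.lf (nat_lit 90066) (.g (nat_lit 2728) (.e (nat_lit 2031) (nat_lit 140) (.e (nat_lit 688178) (nat_lit 16) (.e (nat_lit 65619) (nat_lit 10) (.e (nat_lit 344160) (nat_lit 37) (.e (nat_lit 647195) (nat_lit 9) (.e (nat_lit 417) (nat_lit 32) (.e (nat_lit 426234) (nat_lit 9) (.e (nat_lit 426349) (nat_lit 15) .nil)))))))) (.g (nat_lit 5) .nil .nil))) 
(.lf (nat_lit 90098) (.g (nat_lit 1788) (.e (nat_lit 2031) (nat_lit 140) (.e (nat_lit 688178) (nat_lit 16) (.e (nat_lit 65619) (nat_lit 10) (.e (nat_lit 344160) (nat_lit 37) (.e (nat_lit 647199) (nat_lit 11) (.e (nat_lit 16438) (nat_lit 9) (.e (nat_lit 426360) (nat_lit 15) .nil))))))) (.g (nat_lit 4) .nil .nil))))) (.nd (nat_lit 4) (.nd (nat_lit 5) 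
(.lf (nat_lit 90058) (.g (nat_lit 3029) (.e (nat_lit 2031) (nat_lit 140) (.e (nat_lit 688178) (nat_lit 16) (.e (nat_lit 65619) (nat_lit 10) (.e (nat_lit 344156) (nat_lit 36) (.e (nat_lit 638998) (nat_lit 8) (.e (nat_lit 172087) (nat_lit 9) (.e (nat_lit 426350) (nat_lit 15) .nil))))))) (.g (nat_lit 5) .nil .nil))) 
(.lf (nat_lit 90090) (.g (nat_lit 3180) (.e (nat_lit 2031) (nat_lit 140) (.e (nat_lit 688178) (nat_lit 16) (.e (nat_lit 65619) (nat_lit 10) (.e (nat_lit 344160) (nat_lit 37) (.e (nat_lit 647199) (nat_lit 11) (.e (nat_lit 16433) (nat_lit 9) (.e (nat_lit 426354) (nat_lit 15) .nil))))))) (.g (nat_lit 6) .nil .nil)))) (.nd (nat_lit 5) 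
(.lf (nat_lit 90074) (.g (nat_lit 3158) (.e (nat_lit 2031) (nat_lit 140) (.e (nat_lit 688178) (nat_lit 16) (.e (nat_lit 65619) (nat_lit 10) (.e (nat_lit 344160) (nat_lit 37) (.e (nat_lit 647195) (nat_lit 9) (.e (nat_lit 420) (nat_lit 32) (.e (nat_lit 426230) (nat_lit 9) (.e (nat_lit 426349) (nat_lit 15) .nil)))))))) (.g (nat_lit 5) .nil .nil))) 
(.lf (nat_lit 90106) (.g (nat_lit 1682) (.e (nat_lit 2031) (nat_lit 140) (.e (nat_lit 688180) (nat_lit 17) (.e (nat_lit 73753) (nat_lit 8) (.e (nat_lit 557101) (nat_lit 13) (.e (nat_lit 179968) (nat_lit 20) (.e (nat_lit 114710) (nat_lit 21) (.e (nat_lit 57848) (nat_lit 252) (.e (nat_lit 57348) (nat_lit 0) .nil)))))))) (.g (nat_lit 4) .nil .nil)))))) 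
(.nd (nat_lit 3) (.nd (nat_lit 4) (.nd (nat_lit 5) 
(.lf (nat_lit 90054) (.g (nat_lit 1402) (.e (nat_lit 2031) (nat_lit 140) (.e (nat_lit 688178) (nat_lit 16) (.e (nat_lit 65619) (nat_lit 10) (.e (nat_lit 344154) (nat_lit 35) (.e (nat_lit 630793) (nat_lit 5) .nil))))) .nil)) 
(.lf (nat_lit 90086) (.g (nat_lit 2184) (.e (nat_lit 2031) (nat_lit 140) (.e (nat_lit 688178) (nat_lit 16) (.e (nat_lit 65619) (nat_lit 10) (.e (nat_lit 344160) (nat_lit 37) (.e (nat_lit 647195) (nat_lit 9) (.e (nat_lit 7936) (nat_lit 32) (.e (nat_lit 426228) (nat_lit 9) (.e (nat_lit 426353) (nat_lit 15) .nil)))))))) (.g (nat_lit 4) .nil .nil)))) (.nd (nat_lit 5) 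
(.lf (nat_lit 90070) (.g (nat_lit 2718) (.e (nat_lit 2031) (nat_lit 140) (.e (nat_lit 688178) (nat_lit 16) (.e (nat_lit 65619) (nat_lit 10) (.e (nat_lit 344160) (nat_lit 37) (.e (nat_lit 647195) (nat_lit 9) (.e (nat_lit 417) (nat_lit 32) (.e (nat_lit 426262) (nat_lit 9) (.e (nat_lit 426353) (nat_lit 15) .nil)))))))) (.g (nat_lit 5) .nil .nil))) 
(.lf (nat_lit 90102) (.g (nat_lit 2207) (.e (nat_lit 2031) (nat_lit 140) (.e (nat_lit 688180) (nat_lit 17) (.e (nat_lit 73753) (nat_lit 8) (.e (nat_lit 557098) (nat_lit 13) (.e (nat_lit 179968) (nat_lit 20) (.e (nat_lit 114710) (nat_lit 21) (.e (nat_lit 57851) (nat_lit 252) (.e (nat_lit 57347) (nat_lit 0) .nil)))))))) (.g (nat_lit 4) .nil .nil))))) (.nd (nat_lit 4) (.nd (nat_lit 5) 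
(.lf (nat_lit 90062) (.g (nat_lit 2360) (.e (nat_lit 2031) (nat_lit 140) (.e (nat_lit 688178) (nat_lit 16) (.e (nat_lit 65619) (nat_lit 10) (.e (nat_lit 344160) (nat_lit 37) (.e (nat_lit 647190) (nat_lit 9) (.e (nat_lit 7936) (nat_lit 37) (.e (nat_lit 474880) (nat_lit 0) .nil))))))) (.g (nat_lit 4) .nil .nil))) 
(.lf (nat_lit 90094) (.g (nat_lit 4329) (.e (nat_lit 2031) (nat_lit 140) (.e (nat_lit 688178) (nat_lit 16) (.e (nat_lit 65619) (nat_lit 10) (.e (nat_lit 344160) (nat_lit 37) (.e (nat_lit 647199) (nat_lit 11) (.e (nat_lit 16436) (nat_lit 9) (.e (nat_lit 426354) (nat_lit 15) .nil))))))) (.g (nat_lit 0) .nil .nil)))) (.nd (nat_lit 5) 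
(.lf (nat_lit 90078) (.g (nat_lit 3401) (.e (nat_lit 2031) (nat_lit 140) (.e (nat_lit 688178) (nat_lit 16) (.e (nat_lit 65619) (nat_lit 10) (.e (nat_lit 344160) (nat_lit 37) (.e (nat_lit 647195) (nat_lit 9) (.e (nat_lit 420) (nat_lit 32) (.e (nat_lit 426259) (nat_lit 9) (.e (nat_lit 426349) (nat_lit 15) .nil)))))))) (.g (nat_lit 5) .nil .nil))) 
(.lf (nat_lit 90110) (.g (nat_lit 1499) (.e (nat_lit 2031) (nat_lit 140) (.e (nat_lit 688180) (nat_lit 17) (.e (nat_lit 73754) (nat_lit 8) (.e (nat_lit 557101) (nat_lit 13) (.e (nat_lit 179968) (nat_lit 20) .nil))))) .nil))))))) (.nd (nat_lit 1) (.nd (nat_lit 2) (.nd (nat_lit 3) (.nd (nat_lit 4) (.nd (nat_lit 5) 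
(.lf (nat_lit 90049) (.g (nat_lit 1795) (.e (nat_lit 2031) (nat_lit 140) (.e (nat_lit 688178) (nat_lit 16) (.e (nat_lit 65619) (nat_lit 10) (.e (nat_lit 344097) (nat_lit 18) (.e (nat_lit 5219) (nat_lit 296) (.e (nat_lit 163932) (nat_lit 17) (.e (nat_lit 474880) (nat_lit 0) .nil))))))) (.g (nat_lit 4) .nil .nil))) 
(.lf (nat_lit 90081) (.g (nat_lit 2131) (.e (nat_lit 2031) (nat_lit 140) (.e (nat_lit 688178) (nat_lit 16) (.e (nat_lit 65619) (nat_lit 10) (.e (nat_lit 344160) (nat_lit 37) (.e (nat_lit 647195) (nat_lit 9) (.e (nat_lit 426) (nat_lit 32) (.e (nat_lit 426189) (nat_lit 9) (.e (nat_lit 426350) (nat_lit 15) .nil)))))))) (.g (nat_lit 4) .nil .nil)))) (.nd (nat_lit 5) 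
(.lf (nat_lit 90065) (.g (nat_lit 3041) (.e (nat_lit 2031) (nat_lit 140) (.e (nat_lit 688178) (nat_lit 16) (.e (nat_lit 65619) (nat_lit 10) (.e (nat_lit 344160) (nat_lit 37) (.e (nat_lit 647195) (nat_lit 9) (.e (nat_lit 417) (nat_lit 32) (.e (nat_lit 426228) (nat_lit 9) (.e (nat_lit 426353) (nat_lit 15) .nil)))))))) (.g (nat_lit 5) .nil .nil))) 
(.lf (nat_lit 90097) (.g (nat_lit 2519) (.e (nat_lit 2031) (nat_lit 140) (.e (nat_lit 688178) (nat_lit 16) (.e (nat_lit 65619) (nat_lit 10) (.e (nat_lit 344160) (nat_lit 37) (.e (nat_lit 647199) (nat_lit 11) (.e (nat_lit 16438) (nat_lit 9) (.e (nat_lit 426350) (nat_lit 15) .nil))))))) (.g (nat_lit 5) .nil .nil))))) (.nd (nat_lit 4) (.nd (nat_lit 5) 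
(.lf (nat_lit 90057) (.g (nat_lit 2653) (.e (nat_lit 2031) (nat_lit 140) (.e (nat_lit 688178) (nat_lit 16) (.e (nat_lit 65619) (nat_lit 10) (.e (nat_lit 344156) (nat_lit 36) (.e (nat_lit 638998) (nat_lit 8) (.e (nat_lit 172085) (nat_lit 9) (.e (nat_lit 426354) (nat_lit 15) .nil))))))) (.g (nat_lit 5) .nil .nil))) 
(.lf (nat_lit 90089) (.g (nat_lit 2929) (.e (nat_lit 2031) (nat_lit 140) (.e (nat_lit 688178) (nat_lit 16) (.e (nat_lit 65619) (nat_lit 10) (.e (nat_lit 344160) (nat_lit 37) (.e (nat_lit 647195) (nat_lit 9) (.e (nat_lit 7936) (nat_lit 37) (.e (nat_lit 474880) (nat_lit 0) .nil))))))) (.g (nat_lit 5) .nil .nil)))) (.nd (nat_lit 5) 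
(.lf (nat_lit 90073) (.g (nat_lit 2907) (.e (nat_lit 2031) (nat_lit 140) (.e (nat_lit 688178) (nat_lit 16) (.e (nat_lit 65619) (nat_lit 10) (.e (nat_lit 344160) (nat_lit 37) (.e (nat_lit 647195) (nat_lit 9) (.e (nat_lit 420) (nat_lit 32) (.e (nat_lit 426228) (nat_lit 9) (.e (nat_lit 426349) (nat_lit 15) .nil)))))))) (.g (nat_lit 5) .nil .nil))) 
(.lf (nat_lit 90105) (.g (nat_lit 2789) (.e (nat_lit 2031) (nat_lit 140) (.e (nat_lit 688180) (nat_lit 17) (.e (nat_lit 73753) (nat_lit 8) (.e (nat_lit 557100) (nat_lit 13) (.e (nat_lit 179968) (nat_lit 20) (.e (nat_lit 114712) (nat_lit 21) (.e (nat_lit 57851) (nat_lit 252) (.e (nat_lit 57347) (nat_lit 0) .nil)))))))) (.g (nat_lit 4) .nil .nil)))))) 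
(.nd (nat_lit 3) (.nd (nat_lit 4) (.nd (nat_lit 5) 
(.lf (nat_lit 90053) (.g (nat_lit 1233) (.e (nat_lit 2031) (nat_lit 140) (.e (nat_lit 688178) (nat_lit 16) (.e (nat_lit 65619) (nat_lit 10) (.e (nat_lit 344153) (nat_lit 35) .nil)))) .nil)) 
(.lf (nat_lit 90085) (.g (nat_lit 2923) (.e (nat_lit 2031) (nat_lit 140) (.e (nat_lit 688178) (nat_lit 16) (.e (nat_lit 65619) (nat_lit 10) (.e (nat_lit 344160) (nat_lit 37) (.e (nat_lit 647195) (nat_lit 9) (.e (nat_lit 426) (nat_lit 32) (.e (nat_lit 426258) (nat_lit 9) (.e (nat_lit 426353) (nat_lit 15) .nil)))))))) (.g (nat_lit 5) .nil .nil)))) (.nd (nat_lit 5) 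
(.lf (nat_lit 90069) (.g (nat_lit 2719) (.e (nat_lit 2031) (nat_lit 140) (.e (nat_lit 688178) (nat_lit 16) (.e (nat_lit 65619) (nat_lit 10) (.e (nat_lit 344160) (nat_lit 37) (.e (nat_lit 647195) (nat_lit 9) (.e (nat_lit 417) (nat_lit 32) (.e (nat_lit 426262) (nat_lit 9) (.e (nat_lit 426349) (nat_lit 15) .nil)))))))) (.g (nat_lit 5) .nil .nil))) 
(.lf (nat_lit 90101) (.g (nat_lit 2286) (.e (nat_lit 2031) (nat_lit 140) (.e (nat_lit 688180) (nat_lit 17) (.e (nat_lit 73753) (nat_lit 8) (.e (nat_lit 557098) (nat_lit 13) (.e (nat_lit 179968) (nat_lit 20) (.e (nat_lit 114710) (nat_lit 21) (.e (nat_lit 57847) (nat_lit 252) (.e (nat_lit 57345) (nat_lit 0) .nil)))))))) (.g (nat_lit 4) .nil .nil))))) (.nd (nat_lit 4) (.nd (nat_lit 5) 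
(.lf (nat_lit 90061) (.g (nat_lit 2360) (.e (nat_lit 2031) (nat_lit 140) (.e (nat_lit 688178) (nat_lit 16) (.e (nat_lit 65619) (nat_lit 10) (.e (nat_lit 344160) (nat_lit 37) (.e (nat_lit 647190) (nat_lit 9) (.e (nat_lit 7936) (nat_lit 34) (.e (nat_lit 450304) (nat_lit 0) .nil))))))) (.g (nat_lit 4) .nil .nil))) 
(.lf (nat_lit 90093) (.g (nat_lit 2308) (.e (nat_lit 2031) (nat_lit 140) (.e (nat_lit 688178) (nat_lit 16) (.e (nat_lit 65619) (nat_lit 10) (.e (nat_lit 344160) (nat_lit 37) (.e (nat_lit 647199) (nat_lit 11) (.e (nat_lit 16436) (nat_lit 9) (.e (nat_lit 426350) (nat_lit 15) .nil))))))) (.g (nat_lit 4) .nil .nil)))) (.nd (nat_lit 5) 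
(.lf (nat_lit 90077) (.g (nat_lit 2880) (.e (nat_lit 2031) (nat_lit 140) (.e (nat_lit 688178) (nat_lit 16) (.e (nat_lit 65619) (nat_lit 10) (.e (nat_lit 344160) (nat_lit 37) (.e (nat_lit 647195) (nat_lit 9) (.e (nat_lit 420) (nat_lit 32) (.e (nat_lit 426258) (nat_lit 9) (.e (nat_lit 426353) (nat_lit 15) .nil)))))))) (.g (nat_lit 5) .nil .nil))) 
(.lf (nat_lit 90109) (.g (nat_lit 2431) (.e (nat_lit 2031) (nat_lit 140) (.e (nat_lit 688180) (nat_lit 17) (.e (nat_lit 73754) (nat_lit 8) (.e (nat_lit 557100) (nat_lit 13) (.e (nat_lit 179968) (nat_lit 20) .nil))))) .nil)))))) (.nd (nat_lit 2) (.nd (nat_lit 3) (.nd (nat_lit 4) (.nd (nat_lit 5) 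
(.lf (nat_lit 90051) (.g (nat_lit 2663) (.e (nat_lit 2031) (nat_lit 140) (.e (nat_lit 688178) (nat_lit 16) (.e (nat_lit 65619) (nat_lit 10) (.e (nat_lit 344097) (nat_lit 18) (.e (nat_lit 5243) (nat_lit 297) (.e (nat_lit 229410) (nat_lit 14) (.e (nat_lit 450304) (nat_lit 0) .nil))))))) (.g (nat_lit 6) .nil .nil))) 
(.lf (nat_lit 90083) (.g (nat_lit 4696) (.e (nat_lit 2031) (nat_lit 140) (.e (nat_lit 688178) (nat_lit 16) (.e (nat_lit 65619) (nat_lit 10) (.e (nat_lit 344160) (nat_lit 37) (.e (nat_lit 647195) (nat_lit 9) (.e (nat_lit 426) (nat_lit 32) (.e (nat_lit 426190) (nat_lit 9) (.e (nat_lit 426350) (nat_lit 15) .nil)))))))) (.g (nat_lit 7) .nil .nil)))) (.nd (nat_lit 5) 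
(.lf (nat_lit 90067) (.g (nat_lit 2220) (.e (nat_lit 2031) (nat_lit 140) (.e (nat_lit 688178) (nat_lit 16) (.e (nat_lit 65619) (nat_lit 10) (.e (nat_lit 344160) (nat_lit 37) (.e (nat_lit 647195) (nat_lit 9) (.e (nat_lit 417) (nat_lit 32) (.e (nat_lit 426259) (nat_lit 9) (.e (nat_lit 426349) (nat_lit 15) .nil)))))))) (.g (nat_lit 4) .nil .nil))) 
(.lf (nat_lit 90099) (.g (nat_lit 2260) (.e (nat_lit 2031) (nat_lit 140) (.e (nat_lit 688178) (nat_lit 16) (.e (nat_lit 65626) (nat_lit 13) (.e (nat_lit 393283) (nat_lit 24) (.e (nat_lit 434268) (nat_lit 36) (.e (nat_lit 639005) (nat_lit 13) (.e (nat_lit 982) (nat_lit 81) .nil))))))) (.g (nat_lit 4) .nil .nil))))) (.nd (nat_lit 4) (.nd (nat_lit 5) 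
(.lf (nat_lit 90059) (.g (nat_lit 2224) (.e (nat_lit 2031) (nat_lit 140) (.e (nat_lit 688178) (nat_lit 16) (.e (nat_lit 65619) (nat_lit 10) (.e (nat_lit 344156) (nat_lit 36) (.e (nat_lit 638998) (nat_lit 8) (.e (nat_lit 172087) (nat_lit 9) (.e (nat_lit 426360) (nat_lit 15) .nil))))))) (.g (nat_lit 4) .nil .nil))) 
(.lf (nat_lit 90091) (.g (nat_lit 2675) (.e (nat_lit 2031) (nat_lit 140) (.e (nat_lit 688178) (nat_lit 16) (.e (nat_lit 65619) (nat_lit 10) (.e (nat_lit 344160) (nat_lit 37) (.e (nat_lit 647199) (nat_lit 11) (.e (nat_lit 16435) (nat_lit 9) (.e (nat_lit 426350) (nat_lit 15) .nil))))))) (.g (nat_lit 5) .nil .nil)))) (.nd (nat_lit 5) 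
(.lf (nat_lit 90075) (.g (nat_lit 2030) (.e (nat_lit 2031) (nat_lit 140) (.e (nat_lit 688178) (nat_lit 16) (.e (nat_lit 65619) (nat_lit 10) (.e (nat_lit 344160) (nat_lit 37) (.e (nat_lit 647195) (nat_lit 9) (.e (nat_lit 420) (nat_lit 32) (.e (nat_lit 426232) (nat_lit 9) (.e (nat_lit 426349) (nat_lit 15) .nil)))))))) (.g (nat_lit 4) .nil .nil))) 
(.lf (nat_lit 90107) (.g (nat_lit 2173) (.e (nat_lit 2031) (nat_lit 140) (.e (nat_lit 688180) (nat_lit 17) (.e (nat_lit 73753) (nat_lit 8) (.e (nat_lit 557101) (nat_lit 13) (.e (nat_lit 179968) (nat_lit 20) (.e (nat_lit 114711) (nat_lit 21) (.e (nat_lit 57847) (nat_lit 252) (.e (nat_lit 57345) (nat_lit 0) .nil)))))))) (.g (nat_lit 4) .nil .nil)))))) 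
(.nd (nat_lit 3) (.nd (nat_lit 4) (.nd (nat_lit 5) 
(.lf (nat_lit 90055) (.g (nat_lit 1764) (.e (nat_lit 2031) (nat_lit 140) (.e (nat_lit 688178) (nat_lit 16) (.e (nat_lit 65619) (nat_lit 10) (.e (nat_lit 344154) (nat_lit 35) (.e (nat_lit 630802) (nat_lit 8) (.e (nat_lit 172085) (nat_lit 9) (.e (nat_lit 426354) (nat_lit 15) .nil))))))) (.g (nat_lit 4) .nil .nil))) 
(.lf (nat_lit 90087) (.g (nat_lit 2345) (.e (nat_lit 2031) (nat_lit 140) (.e (nat_lit 688178) (nat_lit 16) (.e (nat_lit 65619) (nat_lit 10) (.e (nat_lit 344160) (nat_lit 37) (.e (nat_lit 647195) (nat_lit 9) (.e (nat_lit 7936) (nat_lit 32) (.e (nat_lit 426234) (nat_lit 9) (.e (nat_lit 426349) (nat_lit 15) .nil)))))))) (.g (nat_lit 4) .nil .nil)))) (.nd (nat_lit 5) 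
(.lf (nat_lit 90071) (.g (nat_lit 2035) (.e (nat_lit 2031) (nat_lit 140) (.e (nat_lit 688178) (nat_lit 16) (.e (nat_lit 65619) (nat_lit 10) (.e (nat_lit 344160) (nat_lit 37) (.e (nat_lit 647195) (nat_lit 9) (.e (nat_lit 420) (nat_lit 32) (.e (nat_lit 426225) (nat_lit 9) (.e (nat_lit 426349) (nat_lit 15) .nil)))))))) (.g (nat_lit 4) .nil .nil))) 
(.lf (nat_lit 90103) (.g (nat_lit 2329) (.e (nat_lit 2031) (nat_lit 140) (.e (nat_lit 688180) (nat_lit 17) (.e (nat_lit 73753) (nat_lit 8) (.e (nat_lit 557098) (nat_lit 13) (.e (nat_lit 179968) (nat_lit 20) (.e (nat_lit 114711) (nat_lit 21) (.e (nat_lit 57847) (nat_lit 252) (.e (nat_lit 57345) (nat_lit 0) .nil)))))))) (.g (nat_lit 4) .nil .nil))))) (.nd (nat_lit 4) (.nd (nat_lit 5) 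
(.lf (nat_lit 90063) (.g (nat_lit 1525) (.e (nat_lit 2031) (nat_lit 140) (.e (nat_lit 688178) (nat_lit 16) (.e (nat_lit 65619) (nat_lit 10) (.e (nat_lit 344160) (nat_lit 37) (.e (nat_lit 647195) (nat_lit 9) .nil))))) .nil)) 
(.lf (nat_lit 90095) (.g (nat_lit 1959) (.e (nat_lit 2031) (nat_lit 140) (.e (nat_lit 688178) (nat_lit 16) (.e (nat_lit 65619) (nat_lit 10) (.e (nat_lit 344160) (nat_lit 37) (.e (nat_lit 647199) (nat_lit 11) (.e (nat_lit 16437) (nat_lit 9) (.e (nat_lit 426350) (nat_lit 15) .nil))))))) (.g (nat_lit 4) .nil .nil)))) (.nd (nat_lit 5) 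
(.lf (nat_lit 90079) (.g (nat_lit 4189) (.e (nat_lit 2031) (nat_lit 140) (.e (nat_lit 688178) (nat_lit 16) (.e (nat_lit 65619) (nat_lit 10) (.e (nat_lit 344160) (nat_lit 37) (.e (nat_lit 647195) (nat_lit 9) (.e (nat_lit 420) (nat_lit 32) (.e (nat_lit 426262) (nat_lit 9) (.e (nat_lit 426349) (nat_lit 15) .nil)))))))) (.g (nat_lit 8) .nil .nil))) 
(.lf (nat_lit 90111) (.g (nat_lit 163) (.e (nat_lit 2031) (nat_lit 140) (.e (nat_lit 688180) (nat_lit 17) (.e (nat_lit 73789) (nat_lit 45) .nil))) .nil))))))))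

noncomputable def tv1232 : DT := (.nd (nat_lit 0) (.nd (nat_lit 1) (.nd (nat_lit 2) (.nd (nat_lit 3) (.nd (nat_lit 4) (.nd (nat_lit 5) 
(.lf (nat_lit 90112) (.g (nat_lit 2632) (.e (nat_lit 2031) (nat_lit 140) (.e (nat_lit 688181) (nat_lit 17) (.e (nat_lit 73754) (nat_lit 8) (.e (nat_lit 557100) (nat_lit 13) (.e (nat_lit 179968) (nat_lit 20) (.e (nat_lit 114710) (nat_lit 21) (.e (nat_lit 57847) (nat_lit 252) (.e (nat_lit 57345) (nat_lit 0) .nil)))))))) (.g (nat_lit 4) .nil .nil))) 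
(.lf (nat_lit 90144) (.g (nat_lit 1514) (.e (nat_lit 2031) (nat_lit 140) (.e (nat_lit 688184) (nat_lit 18) (.e (nat_lit 89856) (nat_lit 0) (.e (nat_lit 3603) (nat_lit 225) (.e (nat_lit 761914) (nat_lit 18) (.e (nat_lit 196352) (nat_lit 0) .nil)))))) (.g (nat_lit 5) .nil .nil)))) (.nd (nat_lit 5) 
(.lf (nat_lit 90128) (.g (nat_lit 2919) (.e (nat_lit 2031) (nat_lit 140) (.e (nat_lit 688182) (nat_lit 17) (.e (nat_lit 73754) (nat_lit 8) (.e (nat_lit 557100) (nat_lit 13) (.e (nat_lit 179968) (nat_lit 20) (.e (nat_lit 114712) (nat_lit 21) (.e (nat_lit 57851) (nat_lit 252) (.e (nat_lit 57347) (nat_lit 0) .nil)))))))) (.g (nat_lit 4) .nil .nil))) 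
(.lf (nat_lit 90160) (.g (nat_lit 1786) (.e (nat_lit 2031) (nat_lit 140) (.e (nat_lit 688186) (nat_lit 18) (.e (nat_lit 81959) (nat_lit 24) (.e (nat_lit 130816) (nat_lit 254) (.e (nat_lit 163933) (nat_lit 17) (.e (nat_lit 474880) (nat_lit 0) .nil)))))) (.g (nat_lit 5) .nil .nil))))) (.nd (nat_lit 4) (.nd (nat_lit 5) 
(.lf (nat_lit 90120) (.g (nat_lit 2386) (.e (nat_lit 2031) (nat_lit 140) (.e (nat_lit 688181) (nat_lit 17) (.e (nat_lit 73755) (nat_lit 8) (.e (nat_lit 557098) (nat_lit 13) (.e (nat_lit 179968) (nat_lit 20) (.e (nat_lit 114710) (nat_lit 21) (.e (nat_lit 57851) (nat_lit 252) (.e (nat_lit 57347) (nat_lit 0) .nil)))))))) (.g (nat_lit 4) .nil .nil))) 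
(.lf (nat_lit 90152) (.g (nat_lit 1571) (.e (nat_lit 2031) (nat_lit 140) (.e (nat_lit 688186) (nat_lit 18) (.e (nat_lit 81959) (nat_lit 24) (.e (nat_lit 123146) (nat_lit 250) (.e (nat_lit 2646) (nat_lit 166) (.e (nat_lit 196352) (nat_lit 0) .nil)))))) (.g (nat_lit 4) .nil .nil)))) (.nd (nat_lit 5) 
(.lf (nat_lit 90136) (.g (nat_lit 1766) (.e (nat_lit 2031) (nat_lit 140) (.e (nat_lit 688182) (nat_lit 17) (.e (nat_lit 73755) (nat_lit 8) (.e (nat_lit 557097) (nat_lit 13) (.e (nat_lit 179968) (nat_lit 20) .nil))))) .nil)) 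
(.lf (nat_lit 90168) (.g (nat_lit 3045) (.e (nat_lit 2032) (nat_lit 140) (.e (nat_lit 688177) (nat_lit 16) (.e (nat_lit 65583) (nat_lit 7) (.e (nat_lit 319530) (nat_lit 16) (.e (nat_lit 286748) (nat_lit 9) (.e (nat_lit 336295) (nat_lit 15) (.e (nat_lit 3748) (nat_lit 228) (.e (nat_lit 786445) (nat_lit 15) .nil)))))))) (.g (nat_lit 6) .nil .nil)))))) 
(.nd (nat_lit 3) (.nd (nat_lit 4) (.nd (nat_lit 5) 
(.lf (nat_lit 90116) (.g (nat_lit 1661) (.e (nat_lit 2031) (nat_lit 140) (.e (nat_lit 688181) (nat_lit 17) (.e (nat_lit 73755) (nat_lit 8) (.e (nat_lit 557091) (nat_lit 12) (.e (nat_lit 171776) (nat_lit 192) .nil))))) .nil)) 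
(.lf (nat_lit 90148) (.g (nat_lit 1100) (.e (nat_lit 2031) (nat_lit 140) (.e (nat_lit 688186) (nat_lit 18) (.e (nat_lit 81950) (nat_lit 21) (.e (nat_lit 57822) (nat_lit 250) .nil)))) .nil))) (.nd (nat_lit 5) 
(.lf (nat_lit 90132) (.g (nat_lit 2259) (.e (nat_lit 2031) (nat_lit 140) (.e (nat_lit 688182) (nat_lit 17) (.e (nat_lit 73755) (nat_lit 8) (.e (nat_lit 557089) (nat_lit 12) (.e (nat_lit 171776) (nat_lit 192) (.e (nat_lit 73731) (nat_lit 0) (.e (nat_lit 7261) (nat_lit 384) (.e (nat_lit 57347) (nat_lit 0) .nil)))))))) (.g (nat_lit 4) .nil .nil))) 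
(.lf (nat_lit 90164) (.g (nat_lit 994) (.e (nat_lit 2032) (nat_lit 140) (.e (nat_lit 688175) (nat_lit 16) (.e (nat_lit 65619) (nat_lit 10) (.e (nat_lit 344154) (nat_lit 35) .nil)))) .nil)))) (.nd (nat_lit 4) (.nd (nat_lit 5) 
(.lf (nat_lit 90124) (.g (nat_lit 1634) (.e (nat_lit 2031) (nat_lit 140) (.e (nat_lit 688182) (nat_lit 17) (.e (nat_lit 73754) (nat_lit 8) (.e (nat_lit 557095) (nat_lit 13) (.e (nat_lit 179968) (nat_lit 20) (.e (nat_lit 114710) (nat_lit 21) (.e (nat_lit 57847) (nat_lit 252) (.e (nat_lit 57348) (nat_lit 0) .nil)))))))) (.g (nat_lit 4) .nil .nil))) 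
(.lf (nat_lit 90156) (.g (nat_lit 1053) (.e (nat_lit 2031) (nat_lit 140) (.e (nat_lit 688186) (nat_lit 18) (.e (nat_lit 81959) (nat_lit 24) (.e (nat_lit 123159) (nat_lit 254) .nil)))) .nil))) (.nd (nat_lit 5) 
(.lf (nat_lit 90140) (.g (nat_lit 2724) (.e (nat_lit 2031) (nat_lit 140) (.e (nat_lit 688182) (nat_lit 17) (.e (nat_lit 73755) (nat_lit 8) (.e (nat_lit 557098) (nat_lit 13) (.e (nat_lit 179968) (nat_lit 20) (.e (nat_lit 114711) (nat_lit 21) (.e (nat_lit 57848) (nat_lit 252) (.e (nat_lit 57348) (nat_lit 0) .nil)))))))) (.g (nat_lit 4) .nil .nil))) 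
(.lf (nat_lit 90172) (.g (nat_lit 2403) (.e (nat_lit 2032) (nat_lit 140) (.e (nat_lit 688177) (nat_lit 16) (.e (nat_lit 65583) (nat_lit 7) (.e (nat_lit 319534) (nat_lit 16) (.e (nat_lit 286756) (nat_lit 10) .nil))))) .nil)))))) (.nd (nat_lit 2) (.nd (nat_lit 3) (.nd (nat_lit 4) (.nd (nat_lit 5) 
(.lf (nat_lit 90114) (.g (nat_lit 2409) (.e (nat_lit 2031) (nat_lit 140) (.e (nat_lit 688181) (nat_lit 17) (.e (nat_lit 73754) (nat_lit 8) (.e (nat_lit 557100) (nat_lit 13) (.e (nat_lit 179968) (nat_lit 20) (.e (nat_lit 114711) (nat_lit 21) (.e (nat_lit 57847) (nat_lit 252) (.e (nat_lit 57345) (nat_lit 0) .nil)))))))) (.g (nat_lit 4) .nil .nil))) 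
(.lf (nat_lit 90146) (.g (nat_lit 1917) (.e (nat_lit 2031) (nat_lit 140) (.e (nat_lit 688184) (nat_lit 18) (.e (nat_lit 89856) (nat_lit 0) (.e (nat_lit 3605) (nat_lit 225) (.e (nat_lit 761914) (nat_lit 18) (.e (nat_lit 196352) (nat_lit 0) .nil)))))) (.g (nat_lit 5) .nil .nil)))) (.nd (nat_lit 5) 
(.lf (nat_lit 90130) (.g (nat_lit 2076) (.e (nat_lit 2031) (nat_lit 140) (.e (nat_lit 688182) (nat_lit 17) (.e (nat_lit 73754) (nat_lit 8) (.e (nat_lit 557101) (nat_lit 13) (.e (nat_lit 179968) (nat_lit 20) (.e (nat_lit 114711) (nat_lit 21) (.e (nat_lit 57847) (nat_lit 252) (.e (nat_lit 57345) (nat_lit 0) .nil)))))))) (.g (nat_lit 4) .nil .nil))) 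
(.lf (nat_lit 90162) (.g (nat_lit 2212) (.e (nat_lit 2032) (nat_lit 140) (.e (nat_lit 688166) (nat_lit 15) (.e (nat_lit 57479) (nat_lit 28) (.e (nat_lit 557105) (nat_lit 14) (.e (nat_lit 180252) (nat_lit 10) (.e (nat_lit 573489) (nat_lit 14) (.e (nat_lit 73755) (nat_lit 8) (.e (nat_lit 557065) (nat_lit 9) (.e (nat_lit 14) (nat_lit 0) .nil))))))))) (.g (nat_lit 4) .nil .nil))))) 
(.nd (nat_lit 4) (.nd (nat_lit 5) 
(.lf (nat_lit 90122) (.g (nat_lit 2479) (.e (nat_lit 2031) (nat_lit 140) (.e (nat_lit 688182) (nat_lit 17) (.e (nat_lit 73753) (nat_lit 8) (.e (nat_lit 557100) (nat_lit 13) (.e (nat_lit 179968) (nat_lit 20) .nil))))) .nil)) 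
(.lf (nat_lit 90154) (.g (nat_lit 2379) (.e (nat_lit 2031) (nat_lit 140) (.e (nat_lit 688186) (nat_lit 18) (.e (nat_lit 81959) (nat_lit 24) (.e (nat_lit 123153) (nat_lit 250) (.e (nat_lit 2648) (nat_lit 166) (.e (nat_lit 196352) (nat_lit 0) .nil)))))) (.g (nat_lit 5) .nil .nil)))) (.nd (nat_lit 5) 
(.lf (nat_lit 90138) (.g (nat_lit 2492) (.e (nat_lit 2031) (nat_lit 140) (.e (nat_lit 688182) (nat_lit 17) (.e (nat_lit 73755) (nat_lit 8) (.e (nat_lit 557098) (nat_lit 13) (.e (nat_lit 179968) (nat_lit 20) .nil))))) .nil)) 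
(.lf (nat_lit 90170) (.g (nat_lit 1786) (.e (nat_lit 2032) (nat_lit 140) (.e (nat_lit 688177) (nat_lit 16) (.e (nat_lit 65583) (nat_lit 7) (.e (nat_lit 319530) (nat_lit 16) (.e (nat_lit 286756) (nat_lit 10) (.e (nat_lit 344168) (nat_lit 40) (.e (nat_lit 671751) (nat_lit 0) (.e (nat_lit 1015) (nat_lit 81) .nil)))))))) (.g (nat_lit 4) .nil .nil)))))) 
(.nd (nat_lit 3) (.nd (nat_lit 4) (.nd (nat_lit 5) 
(.lf (nat_lit 90118) (.g (nat_lit 1905) (.e (nat_lit 2031) (nat_lit 140) (.e (nat_lit 688181) (nat_lit 17) (.e (nat_lit 73755) (nat_lit 8) (.e (nat_lit 557097) (nat_lit 13) (.e (nat_lit 179968) (nat_lit 20) (.e (nat_lit 114710) (nat_lit 21) (.e (nat_lit 57847) (nat_lit 252) (.e (nat_lit 57348) (nat_lit 0) .nil)))))))) (.g (nat_lit 4) .nil .nil))) 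
(.lf (nat_lit 90150) (.g (nat_lit 354) (.e (nat_lit 2031) (nat_lit 140) (.e (nat_lit 688186) (nat_lit 18) (.e (nat_lit 81959) (nat_lit 24) .nil))) .nil))) (.nd (nat_lit 5) 
(.lf (nat_lit 90134) (.g (nat_lit 1255) (.e (nat_lit 2031) (nat_lit 140) (.e (nat_lit 688182) (nat_lit 17) (.e (nat_lit 73755) (nat_lit 8) (.e (nat_lit 557091) (nat_lit 12) .nil)))) .nil)) 
(.lf (nat_lit 90166) (.g (nat_lit 3296) (.e (nat_lit 2032) (nat_lit 140) (.e (nat_lit 688175) (nat_lit 16) (.e (nat_lit 65619) (nat_lit 10) (.e (nat_lit 344160) (nat_lit 37) (.e (nat_lit 647199) (nat_lit 11) (.e (nat_lit 16438) (nat_lit 9) (.e (nat_lit 426361) (nat_lit 15) .nil))))))) (.g (nat_lit 7) .nil .nil))))) (.nd (nat_lit 4) (.nd (nat_lit 5) 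
(.lf (nat_lit 90126) (.g (nat_lit 2535) (.e (nat_lit 2031) (nat_lit 140) (.e (nat_lit 688182) (nat_lit 17) (.e (nat_lit 73754) (nat_lit 8) (.e (nat_lit 557100) (nat_lit 13) (.e (nat_lit 179968) (nat_lit 20) (.e (nat_lit 114710) (nat_lit 21) (.e (nat_lit 57848) (nat_lit 252) (.e (nat_lit 57348) (nat_lit 0) .nil)))))))) (.g (nat_lit 4) .nil .nil))) 
(.lf (nat_lit 90158) (.g (nat_lit 1173) (.e (nat_lit 2031) (nat_lit 140) (.e (nat_lit 688186) (nat_lit 18) (.e (nat_lit 81959) (nat_lit 24) (.e (nat_lit 123160) (nat_lit 254) (.e (nat_lit 163921) (nat_lit 14) .nil))))) .nil))) (.nd (nat_lit 5) 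
(.lf (nat_lit 90142) (.g (nat_lit 2881) (.e (nat_lit 2031) (nat_lit 140) (.e (nat_lit 688182) (nat_lit 17) (.e (nat_lit 73755) (nat_lit 8) (.e (nat_lit 557100) (nat_lit 13) (.e (nat_lit 179968) (nat_lit 20) .nil))))) .nil)) 
(.lf (nat_lit 90174) (.g (nat_lit 1867) (.e (nat_lit 2032) (nat_lit 140) (.e (nat_lit 688177) (nat_lit 16) (.e (nat_lit 65586) (nat_lit 7) (.e (nat_lit 319531) (nat_lit 16) (.e (nat_lit 286748) (nat_lit 9) (.e (nat_lit 336295) (nat_lit 15) (.e (nat_lit 3630) (nat_lit 227) (.e (nat_lit 778248) (nat_lit 0) (.e (nat_lit 1006) (nat_lit 81) .nil))))))))) (.g (nat_lit 4) .nil .nil)))))))) 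
(.nd (nat_lit 1) (.nd (nat_lit 2) (.nd (nat_lit 3) (.nd (nat_lit 4) (.nd (nat_lit 5) 
(.lf (nat_lit 90113) (.g (nat_lit 2553) (.e (nat_lit 2031) (nat_lit 140) (.e (nat_lit 688181) (nat_lit 17) (.e (nat_lit 73754) (nat_lit 8) (.e (nat_lit 557100) (nat_lit 13) (.e (nat_lit 179968) (nat_lit 20) (.e (nat_lit 114710) (nat_lit 21) (.e (nat_lit 57851) (nat_lit 252) (.e (nat_lit 57347) (nat_lit 0) .nil)))))))) (.g (nat_lit 4) .nil .nil))) 
(.lf (nat_lit 90145) (.g (nat_lit 1872) (.e (nat_lit 2031) (nat_lit 140) (.e (nat_lit 688184) (nat_lit 18) (.e (nat_lit 89856) (nat_lit 0) (.e (nat_lit 3605) (nat_lit 225) (.e (nat_lit 761912) (nat_lit 18) (.e (nat_lit 196352) (nat_lit 0) .nil)))))) (.g (nat_lit 5) .nil .nil)))) (.nd (nat_lit 5) 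
(.lf (nat_lit 90129) (.g (nat_lit 1647) (.e (nat_lit 2031) (nat_lit 140) (.e (nat_lit 688182) (nat_lit 17) (.e (nat_lit 73754) (nat_lit 8) (.e (nat_lit 557101) (nat_lit 13) (.e (nat_lit 179968) (nat_lit 20) (.e (nat_lit 114710) (nat_lit 21) (.e (nat_lit 57848) (nat_lit 252) (.e (nat_lit 57348) (nat_lit 0) .nil)))))))) (.g (nat_lit 4) .nil .nil))) 
(.lf (nat_lit 90161) (.g (nat_lit 1710) (.e (nat_lit 2031) (nat_lit 140) (.e (nat_lit 688186) (nat_lit 18) (.e (nat_lit 81965) (nat_lit 26) (.e (nat_lit 147495) (nat_lit 11) (.e (nat_lit 32512) (nat_lit 16) (.e (nat_lit 164179) (nat_lit 154) (.e (nat_lit 57348) (nat_lit 0) .nil))))))) (.g (nat_lit 4) .nil .nil))))) (.nd (nat_lit 4) (.nd (nat_lit 5) 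
(.lf (nat_lit 90121) (.g (nat_lit 2508) (.e (nat_lit 2031) (nat_lit 140) (.e (nat_lit 688181) (nat_lit 17) (.e (nat_lit 73755) (nat_lit 8) (.e (nat_lit 557098) (nat_lit 13) (.e (nat_lit 179968) (nat_lit 20) (.e (nat_lit 114711) (nat_lit 21) (.e (nat_lit 57847) (nat_lit 252) (.e (nat_lit 57345) (nat_lit 0) .nil)))))))) (.g (nat_lit 4) .nil .nil))) 
(.lf (nat_lit 90153) (.g (nat_lit 1469) (.e (nat_lit 2031) (nat_lit 140) (.e (nat_lit 688186) (nat_lit 18) (.e (nat_lit 81959) (nat_lit 24) (.e (nat_lit 123153) (nat_lit 250) (.e (nat_lit 2423) (nat_lit 157) .nil))))) .nil))) (.nd (nat_lit 5) 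
(.lf (nat_lit 90137) (.g (nat_lit 1980) (.e (nat_lit 2031) (nat_lit 140) (.e (nat_lit 688182) (nat_lit 17) (.e (nat_lit 73755) (nat_lit 8) (.e (nat_lit 557097) (nat_lit 13) (.e (nat_lit 179968) (nat_lit 20) (.e (nat_lit 114711) (nat_lit 21) (.e (nat_lit 57848) (nat_lit 252) (.e (nat_lit 57348) (nat_lit 0) .nil)))))))) (.g (nat_lit 4) .nil .nil))) 
(.lf (nat_lit 90169) (.g (nat_lit 1892) (.e (nat_lit 2032) (nat_lit 140) (.e (nat_lit 688177) (nat_lit 16) (.e (nat_lit 65583) (nat_lit 7) (.e (nat_lit 319530) (nat_lit 16) (.e (nat_lit 286755) (nat_lit 10) .nil))))) .nil))))) (.nd (nat_lit 3) (.nd (nat_lit 4) (.nd (nat_lit 5) 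
(.lf (nat_lit 90117) (.g (nat_lit 1595) (.e (nat_lit 2031) (nat_lit 140) (.e (nat_lit 688181) (nat_lit 17) (.e (nat_lit 73755) (nat_lit 8) (.e (nat_lit 557097) (nat_lit 13) (.e (nat_lit 179968) (nat_lit 20) .nil))))) .nil)) 
(.lf (nat_lit 90149) (.g (nat_lit 1765) (.e (nat_lit 2031) (nat_lit 140) (.e (nat_lit 688186) (nat_lit 18) (.e (nat_lit 81950) (nat_lit 21) (.e (nat_lit 57857) (nat_lit 254) (.e (nat_lit 163920) (nat_lit 14) (.e (nat_lit 450304) (nat_lit 0) .nil)))))) (.g (nat_lit 4) .nil .nil)))) (.nd (nat_lit 5) 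
(.lf (nat_lit 90133) (.g (nat_lit 2430) (.e (nat_lit 2031) (nat_lit 140) (.e (nat_lit 688182) (nat_lit 17) (.e (nat_lit 73755) (nat_lit 8) (.e (nat_lit 557090) (nat_lit 12) (.e (nat_lit 171776) (nat_lit 192) .nil))))) .nil)) 
(.lf (nat_lit 90165) (.g (nat_lit 1573) (.e (nat_lit 2032) (nat_lit 140) (.e (nat_lit 688175) (nat_lit 16) (.e (nat_lit 65619) (nat_lit 10) (.e (nat_lit 344160) (nat_lit 37) (.e (nat_lit 647199) (nat_lit 11) .nil))))) .nil)))) (.nd (nat_lit 4) (.nd (nat_lit 5) 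
(.lf (nat_lit 90125) (.g (nat_lit 2371) (.e (nat_lit 2031) (nat_lit 140) (.e (nat_lit 688182) (nat_lit 17) (.e (nat_lit 73754) (nat_lit 8) (.e (nat_lit 557100) (nat_lit 13) (.e (nat_lit 179968) (nat_lit 20) .nil))))) .nil)) 
(.lf (nat_lit 90157) (.g (nat_lit 2233) (.e (nat_lit 2031) (nat_lit 140) (.e (nat_lit 688186) (nat_lit 18) (.e (nat_lit 81959) (nat_lit 24) (.e (nat_lit 123160) (nat_lit 254) (.e (nat_lit 163919) (nat_lit 14) (.e (nat_lit 450304) (nat_lit 0) .nil)))))) (.g (nat_lit 5) .nil .nil)))) (.nd (nat_lit 5) 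
(.lf (nat_lit 90141) (.g (nat_lit 2740) (.e (nat_lit 2031) (nat_lit 140) (.e (nat_lit 688182) (nat_lit 17) (.e (nat_lit 73755) (nat_lit 8) (.e (nat_lit 557098) (nat_lit 13) (.e (nat_lit 179968) (nat_lit 20) (.e (nat_lit 114712) (nat_lit 21) (.e (nat_lit 57852) (nat_lit 252) (.e (nat_lit 57347) (nat_lit 0) .nil)))))))) (.g (nat_lit 4) .nil .nil))) 
(.lf (nat_lit 90173) (.g (nat_lit 1743) (.e (nat_lit 2032) (nat_lit 140) (.e (nat_lit 688177) (nat_lit 16) (.e (nat_lit 65586) (nat_lit 7) (.e (nat_lit 319531) (nat_lit 16) (.e (nat_lit 286748) (nat_lit 9) .nil))))) .nil)))))) (.nd (nat_lit 2) (.nd (nat_lit 3) (.nd (nat_lit 4) (.nd (nat_lit 5) 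
(.lf (nat_lit 90115) (.g (nat_lit 2037) (.e (nat_lit 2031) (nat_lit 140) (.e (nat_lit 688181) (nat_lit 17) (.e (nat_lit 73754) (nat_lit 8) (.e (nat_lit 557101) (nat_lit 13) (.e (nat_lit 179968) (nat_lit 20) (.e (nat_lit 114710) (nat_lit 21) (.e (nat_lit 57847) (nat_lit 252) (.e (nat_lit 57345) (nat_lit 0) .nil)))))))) (.g (nat_lit 4) .nil .nil))) 
(.lf (nat_lit 90147) (.g (nat_lit 1962) (.e (nat_lit 2031) (nat_lit 140) (.e (nat_lit 688186) (nat_lit 18) (.e (nat_lit 89856) (nat_lit 0) (.e (nat_lit 3605) (nat_lit 225) (.e (nat_lit 761914) (nat_lit 18) (.e (nat_lit 196352) (nat_lit 0) .nil)))))) (.g (nat_lit 5) .nil .nil)))) (.nd (nat_lit 5) 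
(.lf (nat_lit 90131) (.g (nat_lit 2047) (.e (nat_lit 2031) (nat_lit 140) (.e (nat_lit 688182) (nat_lit 17) (.e (nat_lit 73755) (nat_lit 8) (.e (nat_lit 557089) (nat_lit 12) (.e (nat_lit 171776) (nat_lit 192) (.e (nat_lit 73729) (nat_lit 0) (.e (nat_lit 7261) (nat_lit 384) (.e (nat_lit 57347) (nat_lit 0) .nil)))))))) (.g (nat_lit 4) .nil .nil))) 
(.lf (nat_lit 90163) (.g (nat_lit 2262) (.e (nat_lit 2032) (nat_lit 140) (.e (nat_lit 688170) (nat_lit 15) (.e (nat_lit 57469) (nat_lit 26) (.e (nat_lit 540704) (nat_lit 12) (.e (nat_lit 360466) (nat_lit 3) (.e (nat_lit 516146) (nat_lit 9) (.e (nat_lit 426361) (nat_lit 15) .nil))))))) (.g (nat_lit 0) .nil .nil))))) (.nd (nat_lit 4) (.nd (nat_lit 5) 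
(.lf (nat_lit 90123) (.g (nat_lit 1621) (.e (nat_lit 2031) (nat_lit 140) (.e (nat_lit 688182) (nat_lit 17) (.e (nat_lit 73753) (nat_lit 8) (.e (nat_lit 557101) (nat_lit 13) (.e (nat_lit 179968) (nat_lit 20) .nil))))) .nil)) 
(.lf (nat_lit 90155) (.g (nat_lit 2645) (.e (nat_lit 2031) (nat_lit 140) (.e (nat_lit 688186) (nat_lit 18) (.e (nat_lit 81959) (nat_lit 24) (.e (nat_lit 123153) (nat_lit 250) (.e (nat_lit 2650) (nat_lit 166) (.e (nat_lit 196352) (nat_lit 0) .nil)))))) (.g (nat_lit 5) .nil .nil)))) (.nd (nat_lit 5) 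
(.lf (nat_lit 90139) (.g (nat_lit 2510) (.e (nat_lit 2031) (nat_lit 140) (.e (nat_lit 688182) (nat_lit 17) (.e (nat_lit 73755) (nat_lit 8) (.e (nat_lit 557098) (nat_lit 13) (.e (nat_lit 179968) (nat_lit 20) (.e (nat_lit 114711) (nat_lit 21) (.e (nat_lit 57847) (nat_lit 252) (.e (nat_lit 57347) (nat_lit 0) .nil)))))))) (.g (nat_lit 4) .nil .nil))) 
(.lf (nat_lit 90171) (.g (nat_lit 2333) (.e (nat_lit 2032) (nat_lit 140) (.e (nat_lit 688177) (nat_lit 16) (.e (nat_lit 65583) (nat_lit 7) (.e (nat_lit 319533) (nat_lit 16) (.e (nat_lit 286753) (nat_lit 10) .nil))))) .nil))))) (.nd (nat_lit 3) (.nd (nat_lit 4) (.nd (nat_lit 5) 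
(.lf (nat_lit 90119) (.g (nat_lit 2465) (.e (nat_lit 2031) (nat_lit 140) (.e (nat_lit 688181) (nat_lit 17) (.e (nat_lit 73755) (nat_lit 8) (.e (nat_lit 557098) (nat_lit 13) (.e (nat_lit 179968) (nat_lit 20) (.e (nat_lit 114710) (nat_lit 21) (.e (nat_lit 57847) (nat_lit 252) (.e (nat_lit 57345) (nat_lit 0) .nil)))))))) (.g (nat_lit 4) .nil .nil))) 
(.lf (nat_lit 90151) (.g (nat_lit 1755) (.e (nat_lit 2031) (nat_lit 140) (.e (nat_lit 688186) (nat_lit 18) (.e (nat_lit 81959) (nat_lit 24) (.e (nat_lit 123146) (nat_lit 250) (.e (nat_lit 2645) (nat_lit 166) (.e (nat_lit 196352) (nat_lit 0) .nil)))))) (.g (nat_lit 4) .nil .nil)))) (.nd (nat_lit 5) 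
(.lf (nat_lit 90135) (.g (nat_lit 1146) (.e (nat_lit 2031) (nat_lit 140) (.e (nat_lit 688182) (nat_lit 17) (.e (nat_lit 73755) (nat_lit 8) (.e (nat_lit 557096) (nat_lit 13) .nil)))) .nil)) 
(.lf (nat_lit 90167) (.g (nat_lit 1628) (.e (nat_lit 2032) (nat_lit 140) (.e (nat_lit 688177) (nat_lit 16) (.e (nat_lit 65583) (nat_lit 7) (.e (nat_lit 319530) (nat_lit 16) (.e (nat_lit 286748) (nat_lit 9) .nil))))) .nil)))) (.nd (nat_lit 4) (.nd (nat_lit 5) 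
(.lf (nat_lit 90127) (.g (nat_lit 2550) (.e (nat_lit 2031) (nat_lit 140) (.e (nat_lit 688182) (nat_lit 17) (.e (nat_lit 73754) (nat_lit 8) (.e (nat_lit 557100) (nat_lit 13) (.e (nat_lit 179968) (nat_lit 20) (.e (nat_lit 114711) (nat_lit 21) (.e (nat_lit 57848) (nat_lit 252) (.e (nat_lit 57348) (nat_lit 0) .nil)))))))) (.g (nat_lit 4) .nil .nil))) 
(.lf (nat_lit 90159) (.g (nat_lit 1682) (.e (nat_lit 2031) (nat_lit 140) (.e (nat_lit 688186) (nat_lit 18) (.e (nat_lit 81959) (nat_lit 24) (.e (nat_lit 123160) (nat_lit 254) (.e (nat_lit 163932) (nat_lit 17) (.e (nat_lit 474880) (nat_lit 0) .nil)))))) (.g (nat_lit 4) .nil .nil)))) (.nd (nat_lit 5) 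
(.lf (nat_lit 90143) (.g (nat_lit 1695) (.e (nat_lit 2031) (nat_lit 140) (.e (nat_lit 688182) (nat_lit 17) (.e (nat_lit 73755) (nat_lit 8) (.e (nat_lit 557101) (nat_lit 13) .nil)))) .nil)) 
(.lf (nat_lit 90175) (.g (nat_lit 1825) (.e (nat_lit 2032) (nat_lit 140) (.e (nat_lit 688177) (nat_lit 16) (.e (nat_lit 65586) (nat_lit 7) (.e (nat_lit 319531) (nat_lit 16) (.e (nat_lit 286748) (nat_lit 9) (.e (nat_lit 336295) (nat_lit 15) (.e (nat_lit 3630) (nat_lit 227) (.e (nat_lit 778251) (nat_lit 0) (.e (nat_lit 1006) (nat_lit 81) .nil))))))))) (.g (nat_lit 4) .nil .nil)))))))))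

noncomputable def tv1233 : DT := (.nd (nat_lit 0) (.nd (nat_lit 1) (.nd (nat_lit 2) (.nd (nat_lit 3) (.nd (nat_lit 4) (.nd (nat_lit 5) 
(.lf (nat_lit 90176) (.g (nat_lit 2109) (.e (nat_lit 2032) (nat_lit 140) (.e (nat_lit 688177) (nat_lit 16) (.e (nat_lit 65586) (nat_lit 7) (.e (nat_lit 319531) (nat_lit 16) (.e (nat_lit 286748) (nat_lit 9) (.e (nat_lit 336295) (nat_lit 15) (.e (nat_lit 3630) (nat_lit 227) (.e (nat_lit 778261) (nat_lit 0) (.e (nat_lit 1011) (nat_lit 81) .nil))))))))) (.g (nat_lit 4) .nil .nil))) 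
(.lf (nat_lit 90208) (.g (nat_lit 2327) (.e (nat_lit 2032) (nat_lit 140) (.e (nat_lit 688177) (nat_lit 16) (.e (nat_lit 65586) (nat_lit 7) (.e (nat_lit 319534) (nat_lit 16) (.e (nat_lit 286756) (nat_lit 10) (.e (nat_lit 344169) (nat_lit 40) (.e (nat_lit 671751) (nat_lit 0) (.e (nat_lit 1014) (nat_lit 81) .nil)))))))) (.g (nat_lit 4) .nil .nil)))) (.nd (nat_lit 5) 
(.lf (nat_lit 90192) (.g (nat_lit 2368) (.e (nat_lit 2032) (nat_lit 140) (.e (nat_lit 688177) (nat_lit 16) (.e (nat_lit 65586) (nat_lit 7) (.e (nat_lit 319531) (nat_lit 16) (.e (nat_lit 286756) (nat_lit 10) (.e (nat_lit 344169) (nat_lit 40) (.e (nat_lit 671751) (nat_lit 0) (.e (nat_lit 1014) (nat_lit 81) .nil)))))))) (.g (nat_lit 4) .nil .nil))) 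
(.lf (nat_lit 90224) (.g (nat_lit 1449) (.e (nat_lit 2032) (nat_lit 140) (.e (nat_lit 688182) (nat_lit 17) (.e (nat_lit 73754) (nat_lit 8) (.e (nat_lit 557101) (nat_lit 13) (.e (nat_lit 179968) (nat_lit 20) .nil))))) .nil)))) (.nd (nat_lit 4) (.nd (nat_lit 5) 
(.lf (nat_lit 90184) (.g (nat_lit 2908) (.e (nat_lit 2032) (nat_lit 140) (.e (nat_lit 688177) (nat_lit 16) (.e (nat_lit 65586) (nat_lit 7) (.e (nat_lit 319531) (nat_lit 16) (.e (nat_lit 286752) (nat_lit 10) (.e (nat_lit 344169) (nat_lit 40) (.e (nat_lit 671751) (nat_lit 0) (.e (nat_lit 1015) (nat_lit 81) .nil)))))))) (.g (nat_lit 4) .nil .nil))) 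
(.lf (nat_lit 90216) (.g (nat_lit 1630) (.e (nat_lit 2032) (nat_lit 140) (.e (nat_lit 688180) (nat_lit 17) (.e (nat_lit 73753) (nat_lit 8) (.e (nat_lit 557098) (nat_lit 13) (.e (nat_lit 179968) (nat_lit 20) .nil))))) .nil))) (.nd (nat_lit 5) 
(.lf (nat_lit 90200) (.g (nat_lit 3551) (.e (nat_lit 2032) (nat_lit 140) (.e (nat_lit 688177) (nat_lit 16) (.e (nat_lit 65586) (nat_lit 7) (.e (nat_lit 319531) (nat_lit 16) (.e (nat_lit 286759) (nat_lit 12) (.e (nat_lit 385094) (nat_lit 49) (.e (nat_lit 778272) (nat_lit 0) (.e (nat_lit 1010) (nat_lit 81) .nil)))))))) (.g (nat_lit 6) .nil .nil))) 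
(.lf (nat_lit 90232) (.g (nat_lit 2995) (.e (nat_lit 2032) (nat_lit 140) (.e (nat_lit 688182) (nat_lit 17) (.e (nat_lit 73755) (nat_lit 8) (.e (nat_lit 557098) (nat_lit 13) (.e (nat_lit 179968) (nat_lit 20) (.e (nat_lit 114711) (nat_lit 21) (.e (nat_lit 57847) (nat_lit 252) (.e (nat_lit 57348) (nat_lit 0) .nil)))))))) (.g (nat_lit 6) .nil .nil)))))) 
(.nd (nat_lit 3) (.nd (nat_lit 4) (.nd (nat_lit 5) 
(.lf (nat_lit 90180) (.g (nat_lit 1817) (.e (nat_lit 2032) (nat_lit 140) (.e (nat_lit 688177) (nat_lit 16) (.e (nat_lit 65586) (nat_lit 7) (.e (nat_lit 319531) (nat_lit 16) (.e (nat_lit 286748) (nat_lit 9) (.e (nat_lit 336295) (nat_lit 15) (.e (nat_lit 3746) (nat_lit 228) (.e (nat_lit 786445) (nat_lit 15) .nil)))))))) (.g (nat_lit 4) .nil .nil))) 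
(.lf (nat_lit 90212) (.g (nat_lit 1189) (.e (nat_lit 2032) (nat_lit 140) (.e (nat_lit 688178) (nat_lit 16) (.e (nat_lit 65619) (nat_lit 10) (.e (nat_lit 344156) (nat_lit 36) .nil)))) .nil))) (.nd (nat_lit 5) 
(.lf (nat_lit 90196) (.g (nat_lit 2579) (.e (nat_lit 2032) (nat_lit 140) (.e (nat_lit 688177) (nat_lit 16) (.e (nat_lit 65586) (nat_lit 7) (.e (nat_lit 319531) (nat_lit 16) (.e (nat_lit 286759) (nat_lit 12) (.e (nat_lit 385092) (nat_lit 49) (.e (nat_lit 778267) (nat_lit 0) (.e (nat_lit 1011) (nat_lit 81) .nil)))))))) (.g (nat_lit 5) .nil .nil))) 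
(.lf (nat_lit 90228) (.g (nat_lit 1815) (.e (nat_lit 2032) (nat_lit 140) (.e (nat_lit 688182) (nat_lit 17) (.e (nat_lit 73755) (nat_lit 8) (.e (nat_lit 557097) (nat_lit 13) (.e (nat_lit 179968) (nat_lit 20) .nil))))) .nil)))) (.nd (nat_lit 4) (.nd (nat_lit 5) 
(.lf (nat_lit 90188) (.g (nat_lit 2811) (.e (nat_lit 2032) (nat_lit 140) (.e (nat_lit 688177) (nat_lit 16) (.e (nat_lit 65586) (nat_lit 7) (.e (nat_lit 319531) (nat_lit 16) (.e (nat_lit 286756) (nat_lit 10) (.e (nat_lit 344168) (nat_lit 40) (.e (nat_lit 671751) (nat_lit 0) (.e (nat_lit 1008) (nat_lit 81) .nil)))))))) (.g (nat_lit 5) .nil .nil))) 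
(.lf (nat_lit 90220) (.g (nat_lit 2491) (.e (nat_lit 2032) (nat_lit 140) (.e (nat_lit 688180) (nat_lit 17) (.e (nat_lit 73753) (nat_lit 8) (.e (nat_lit 557100) (nat_lit 13) (.e (nat_lit 179968) (nat_lit 20) (.e (nat_lit 114711) (nat_lit 21) (.e (nat_lit 57847) (nat_lit 252) (.e (nat_lit 57347) (nat_lit 0) .nil)))))))) (.g (nat_lit 4) .nil .nil)))) (.nd (nat_lit 5) 
(.lf (nat_lit 90204) (.g (nat_lit 1914) (.e (nat_lit 2032) (nat_lit 140) (.e (nat_lit 688177) (nat_lit 16) (.e (nat_lit 65586) (nat_lit 7) (.e (nat_lit 319533) (nat_lit 16) (.e (nat_lit 286753) (nat_lit 10) (.e (nat_lit 344168) (nat_lit 40) (.e (nat_lit 671751) (nat_lit 0) (.e (nat_lit 1015) (nat_lit 81) .nil)))))))) (.g (nat_lit 4) .nil .nil))) 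
(.lf (nat_lit 90236) (.g (nat_lit 361) (.e (nat_lit 2032) (nat_lit 140) (.e (nat_lit 688186) (nat_lit 18) (.e (nat_lit 81938) (nat_lit 20) .nil))) .nil)))))) (.nd (nat_lit 2) (.nd (nat_lit 3) (.nd (nat_lit 4) (.nd (nat_lit 5) 
(.lf (nat_lit 90178) (.g (nat_lit 2139) (.e (nat_lit 2032) (nat_lit 140) (.e (nat_lit 688177) (nat_lit 16) (.e (nat_lit 65586) (nat_lit 7) (.e (nat_lit 319531) (nat_lit 16) (.e (nat_lit 286748) (nat_lit 9) (.e (nat_lit 336295) (nat_lit 15) (.e (nat_lit 3632) (nat_lit 227) (.e (nat_lit 778267) (nat_lit 0) (.e (nat_lit 1011) (nat_lit 81) .nil))))))))) (.g (nat_lit 4) .nil .nil))) 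
(.lf (nat_lit 90210) (.g (nat_lit 1860) (.e (nat_lit 2032) (nat_lit 140) (.e (nat_lit 688177) (nat_lit 16) (.e (nat_lit 65617) (nat_lit 10) (.e (nat_lit 344161) (nat_lit 37) (.e (nat_lit 647199) (nat_lit 11) .nil))))) .nil))) (.nd (nat_lit 5) 
(.lf (nat_lit 90194) (.g (nat_lit 2640) (.e (nat_lit 2032) (nat_lit 140) (.e (nat_lit 688177) (nat_lit 16) (.e (nat_lit 65586) (nat_lit 7) (.e (nat_lit 319531) (nat_lit 16) (.e (nat_lit 286759) (nat_lit 12) (.e (nat_lit 385092) (nat_lit 49) (.e (nat_lit 778248) (nat_lit 0) (.e (nat_lit 1006) (nat_lit 81) .nil)))))))) (.g (nat_lit 5) .nil .nil))) 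
(.lf (nat_lit 90226) (.g (nat_lit 1851) (.e (nat_lit 2032) (nat_lit 140) (.e (nat_lit 688182) (nat_lit 17) (.e (nat_lit 73755) (nat_lit 8) (.e (nat_lit 557089) (nat_lit 12) (.e (nat_lit 171776) (nat_lit 192) (.e (nat_lit 73731) (nat_lit 0) (.e (nat_lit 7261) (nat_lit 384) (.e (nat_lit 57347) (nat_lit 0) .nil)))))))) (.g (nat_lit 4) .nil .nil))))) (.nd (nat_lit 4) (.nd (nat_lit 5) 
(.lf (nat_lit 90186) (.g (nat_lit 2640) (.e (nat_lit 2032) (nat_lit 140) (.e (nat_lit 688177) (nat_lit 16) (.e (nat_lit 65586) (nat_lit 7) (.e (nat_lit 319531) (nat_lit 16) (.e (nat_lit 286755) (nat_lit 10) (.e (nat_lit 344168) (nat_lit 40) (.e (nat_lit 671751) (nat_lit 0) (.e (nat_lit 1015) (nat_lit 81) .nil)))))))) (.g (nat_lit 4) .nil .nil))) 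
(.lf (nat_lit 90218) (.g (nat_lit 2416) (.e (nat_lit 2032) (nat_lit 140) (.e (nat_lit 688180) (nat_lit 17) (.e (nat_lit 73753) (nat_lit 8) (.e (nat_lit 557100) (nat_lit 13) (.e (nat_lit 179968) (nat_lit 20) (.e (nat_lit 114710) (nat_lit 21) (.e (nat_lit 57847) (nat_lit 252) (.e (nat_lit 57347) (nat_lit 0) .nil)))))))) (.g (nat_lit 4) .nil .nil)))) (.nd (nat_lit 5) 
(.lf (nat_lit 90202) (.g (nat_lit 3696) (.e (nat_lit 2032) (nat_lit 140) (.e (nat_lit 688177) (nat_lit 16) (.e (nat_lit 65586) (nat_lit 7) (.e (nat_lit 319531) (nat_lit 16) (.e (nat_lit 286759) (nat_lit 12) (.e (nat_lit 385094) (nat_lit 49) (.e (nat_lit 778291) (nat_lit 0) (.e (nat_lit 1010) (nat_lit 81) .nil)))))))) (.g (nat_lit 6) .nil .nil))) 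
(.lf (nat_lit 90234) (.g (nat_lit 704) (.e (nat_lit 2032) (nat_lit 140) (.e (nat_lit 688184) (nat_lit 18) (.e (nat_lit 89856) (nat_lit 0) (.e (nat_lit 3603) (nat_lit 225) (.e (nat_lit 761912) (nat_lit 18) (.e (nat_lit 196352) (nat_lit 0) .nil)))))) (.g (nat_lit 5) .nil .nil)))))) (.nd (nat_lit 3) (.nd (nat_lit 4) (.nd (nat_lit 5) 
(.lf (nat_lit 90182) (.g (nat_lit 4018) (.e (nat_lit 2032) (nat_lit 140) (.e (nat_lit 688177) (nat_lit 16) (.e (nat_lit 65586) (nat_lit 7) (.e (nat_lit 319531) (nat_lit 16) (.e (nat_lit 286748) (nat_lit 9) (.e (nat_lit 336295) (nat_lit 15) (.e (nat_lit 3748) (nat_lit 228) (.e (nat_lit 786445) (nat_lit 15) .nil)))))))) (.g (nat_lit 8) .nil .nil))) 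
(.lf (nat_lit 90214) (.g (nat_lit 3078) (.e (nat_lit 2032) (nat_lit 140) (.e (nat_lit 688178) (nat_lit 16) (.e (nat_lit 65619) (nat_lit 10) (.e (nat_lit 344160) (nat_lit 37) (.e (nat_lit 647199) (nat_lit 11) (.e (nat_lit 16438) (nat_lit 9) (.e (nat_lit 426361) (nat_lit 15) .nil))))))) (.g (nat_lit 6) .nil .nil)))) (.nd (nat_lit 5) 
(.lf (nat_lit 90198) (.g (nat_lit 3025) (.e (nat_lit 2032) (nat_lit 140) (.e (nat_lit 688177) (nat_lit 16) (.e (nat_lit 65586) (nat_lit 7) (.e (nat_lit 319531) (nat_lit 16) (.e (nat_lit 286759) (nat_lit 12) (.e (nat_lit 385094) (nat_lit 49) (.e (nat_lit 778246) (nat_lit 0) (.e (nat_lit 1016) (nat_lit 81) .nil)))))))) (.g (nat_lit 6) .nil .nil))) 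
(.lf (nat_lit 90230) (.g (nat_lit 1908) (.e (nat_lit 2032) (nat_lit 140) (.e (nat_lit 688182) (nat_lit 17) (.e (nat_lit 73755) (nat_lit 8) (.e (nat_lit 557097) (nat_lit 13) (.e (nat_lit 179968) (nat_lit 20) (.e (nat_lit 114712) (nat_lit 21) (.e (nat_lit 57851) (nat_lit 252) (.e (nat_lit 57347) (nat_lit 0) .nil)))))))) (.g (nat_lit 4) .nil .nil))))) (.nd (nat_lit 4) (.nd (nat_lit 5) 
(.lf (nat_lit 90190) (.g (nat_lit 3390) (.e (nat_lit 2032) (nat_lit 140) (.e (nat_lit 688177) (nat_lit 16) (.e (nat_lit 65586) (nat_lit 7) (.e (nat_lit 319531) (nat_lit 16) (.e (nat_lit 286756) (nat_lit 10) (.e (nat_lit 344168) (nat_lit 40) (.e (nat_lit 671751) (nat_lit 0) (.e (nat_lit 1015) (nat_lit 81) .nil)))))))) (.g (nat_lit 6) .nil .nil))) 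
(.lf (nat_lit 90222) (.g (nat_lit 2387) (.e (nat_lit 2032) (nat_lit 140) (.e (nat_lit 688182) (nat_lit 17) (.e (nat_lit 73754) (nat_lit 8) (.e (nat_lit 557100) (nat_lit 13) (.e (nat_lit 179968) (nat_lit 20) .nil))))) .nil))) (.nd (nat_lit 5) 
(.lf (nat_lit 90206) (.g (nat_lit 2353) (.e (nat_lit 2032) (nat_lit 140) (.e (nat_lit 688177) (nat_lit 16) (.e (nat_lit 65586) (nat_lit 7) (.e (nat_lit 319534) (nat_lit 16) (.e (nat_lit 286752) (nat_lit 10) .nil))))) .nil)) 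
(.lf (nat_lit 90238) (.g (nat_lit 969) (.e (nat_lit 2032) (nat_lit 140) (.e (nat_lit 688186) (nat_lit 18) (.e (nat_lit 81947) (nat_lit 20) (.e (nat_lit 1962) (nat_lit 134) .nil)))) .nil))))))) (.nd (nat_lit 1) (.nd (nat_lit 2) (.nd (nat_lit 3) (.nd (nat_lit 4) (.nd (nat_lit 5) 
(.lf (nat_lit 90177) (.g (nat_lit 3769) (.e (nat_lit 2032) (nat_lit 140) (.e (nat_lit 688177) (nat_lit 16) (.e (nat_lit 65586) (nat_lit 7) (.e (nat_lit 319531) (nat_lit 16) (.e (nat_lit 286748) (nat_lit 9) (.e (nat_lit 336295) (nat_lit 15) (.e (nat_lit 3632) (nat_lit 227) (.e (nat_lit 778248) (nat_lit 0) (.e (nat_lit 1006) (nat_lit 81) .nil))))))))) (.g (nat_lit 7) .nil .nil))) 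
(.lf (nat_lit 90209) (.g (nat_lit 3154) (.e (nat_lit 2032) (nat_lit 140) (.e (nat_lit 688177) (nat_lit 16) (.e (nat_lit 65586) (nat_lit 7) (.e (nat_lit 319534) (nat_lit 16) (.e (nat_lit 286756) (nat_lit 10) (.e (nat_lit 344169) (nat_lit 40) (.e (nat_lit 671751) (nat_lit 0) (.e (nat_lit 1015) (nat_lit 81) .nil)))))))) (.g (nat_lit 5) .nil .nil)))) (.nd (nat_lit 5) 
(.lf (nat_lit 90193) (.g (nat_lit 1713) (.e (nat_lit 2032) (nat_lit 140) (.e (nat_lit 688177) (nat_lit 16) (.e (nat_lit 65586) (nat_lit 7) (.e (nat_lit 319531) (nat_lit 16) (.e (nat_lit 286759) (nat_lit 12) .nil))))) .nil)) 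
(.lf (nat_lit 90225) (.g (nat_lit 1762) (.e (nat_lit 2032) (nat_lit 140) (.e (nat_lit 688182) (nat_lit 17) (.e (nat_lit 73755) (nat_lit 8) (.e (nat_lit 557089) (nat_lit 12) (.e (nat_lit 171776) (nat_lit 192) .nil))))) .nil)))) (.nd (nat_lit 4) (.nd (nat_lit 5) 
(.lf (nat_lit 90185) (.g (nat_lit 2415) (.e (nat_lit 2032) (nat_lit 140) (.e (nat_lit 688177) (nat_lit 16) (.e (nat_lit 65586) (nat_lit 7) (.e (nat_lit 319531) (nat_lit 16) (.e (nat_lit 286755) (nat_lit 10) .nil))))) .nil)) 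
(.lf (nat_lit 90217) (.g (nat_lit 1721) (.e (nat_lit 2032) (nat_lit 140) (.e (nat_lit 688180) (nat_lit 17) (.e (nat_lit 73753) (nat_lit 8) (.e (nat_lit 557098) (nat_lit 13) (.e (nat_lit 179968) (nat_lit 20) (.e (nat_lit 114711) (nat_lit 21) (.e (nat_lit 57847) (nat_lit 252) (.e (nat_lit 57351) (nat_lit 0) .nil)))))))) (.g (nat_lit 4) .nil .nil)))) (.nd (nat_lit 5) 
(.lf (nat_lit 90201) (.g (nat_lit 3190) (.e (nat_lit 2032) (nat_lit 140) (.e (nat_lit 688177) (nat_lit 16) (.e (nat_lit 65586) (nat_lit 7) (.e (nat_lit 319531) (nat_lit 16) (.e (nat_lit 286759) (nat_lit 12) (.e (nat_lit 385094) (nat_lit 49) (.e (nat_lit 778290) (nat_lit 0) (.e (nat_lit 1006) (nat_lit 81) .nil)))))))) (.g (nat_lit 6) .nil .nil))) 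
(.lf (nat_lit 90233) (.g (nat_lit 2662) (.e (nat_lit 2032) (nat_lit 140) (.e (nat_lit 688182) (nat_lit 17) (.e (nat_lit 73755) (nat_lit 8) (.e (nat_lit 557098) (nat_lit 13) (.e (nat_lit 179968) (nat_lit 20) (.e (nat_lit 114711) (nat_lit 21) (.e (nat_lit 57847) (nat_lit 252) (.e (nat_lit 57351) (nat_lit 0) .nil)))))))) (.g (nat_lit 4) .nil .nil)))))) 
(.nd (nat_lit 3) (.nd (nat_lit 4) (.nd (nat_lit 5) 
(.lf (nat_lit 90181) (.g (nat_lit 3923) (.e (nat_lit 2032) (nat_lit 140) (.e (nat_lit 688177) (nat_lit 16) (.e (nat_lit 65586) (nat_lit 7) (.e (nat_lit 319531) (nat_lit 16) (.e (nat_lit 286748) (nat_lit 9) (.e (nat_lit 336295) (nat_lit 15) (.e (nat_lit 3747) (nat_lit 228) (.e (nat_lit 786445) (nat_lit 15) .nil)))))))) (.g (nat_lit 7) .nil .nil))) 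
(.lf (nat_lit 90213) (.g (nat_lit 1731) (.e (nat_lit 2032) (nat_lit 140) (.e (nat_lit 688178) (nat_lit 16) (.e (nat_lit 65619) (nat_lit 10) (.e (nat_lit 344160) (nat_lit 37) (.e (nat_lit 647199) (nat_lit 11) .nil))))) .nil))) (.nd (nat_lit 5) 
(.lf (nat_lit 90197) (.g (nat_lit 1773) (.e (nat_lit 2032) (nat_lit 140) (.e (nat_lit 688177) (nat_lit 16) (.e (nat_lit 65586) (nat_lit 7) (.e (nat_lit 319531) (nat_lit 16) (.e (nat_lit 286759) (nat_lit 12) (.e (nat_lit 385094) (nat_lit 49) (.e (nat_lit 778241) (nat_lit 0) (.e (nat_lit 998) (nat_lit 81) .nil)))))))) (.g (nat_lit 4) .nil .nil))) 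
(.lf (nat_lit 90229) (.g (nat_lit 1882) (.e (nat_lit 2032) (nat_lit 140) (.e (nat_lit 688182) (nat_lit 17) (.e (nat_lit 73755) (nat_lit 8) (.e (nat_lit 557097) (nat_lit 13) (.e (nat_lit 179968) (nat_lit 20) (.e (nat_lit 114711) (nat_lit 21) (.e (nat_lit 57847) (nat_lit 252) (.e (nat_lit 57351) (nat_lit 0) .nil)))))))) (.g (nat_lit 4) .nil .nil))))) (.nd (nat_lit 4) (.nd (nat_lit 5) 
(.lf (nat_lit 90189) (.g (nat_lit 2856) (.e (nat_lit 2032) (nat_lit 140) (.e (nat_lit 688177) (nat_lit 16) (.e (nat_lit 65586) (nat_lit 7) (.e (nat_lit 319531) (nat_lit 16) (.e (nat_lit 286756) (nat_lit 10) (.e (nat_lit 344168) (nat_lit 40) (.e (nat_lit 671751) (nat_lit 0) (.e (nat_lit 1013) (nat_lit 81) .nil)))))))) (.g (nat_lit 5) .nil .nil))) 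
(.lf (nat_lit 90221) (.g (nat_lit 1561) (.e (nat_lit 2032) (nat_lit 140) (.e (nat_lit 688180) (nat_lit 17) (.e (nat_lit 73753) (nat_lit 8) (.e (nat_lit 557101) (nat_lit 13) (.e (nat_lit 179968) (nat_lit 20) .nil))))) .nil))) (.nd (nat_lit 5) 
(.lf (nat_lit 90205) (.g (nat_lit 2012) (.e (nat_lit 2032) (nat_lit 140) (.e (nat_lit 688177) (nat_lit 16) (.e (nat_lit 65586) (nat_lit 7) (.e (nat_lit 319533) (nat_lit 16) (.e (nat_lit 286753) (nat_lit 10) (.e (nat_lit 344169) (nat_lit 40) (.e (nat_lit 671751) (nat_lit 0) (.e (nat_lit 1013) (nat_lit 81) .nil)))))))) (.g (nat_lit 4) .nil .nil))) 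
(.lf (nat_lit 90237) (.g (nat_lit 1116) (.e (nat_lit 2032) (nat_lit 140) (.e (nat_lit 688186) (nat_lit 18) (.e (nat_lit 81938) (nat_lit 20) (.e (nat_lit 1963) (nat_lit 134) (.e (nat_lit 639001) (nat_lit 10) .nil))))) .nil)))))) (.nd (nat_lit 2) (.nd (nat_lit 3) (.nd (nat_lit 4) (.nd (nat_lit 5) 
(.lf (nat_lit 90179) (.g (nat_lit 3902) (.e (nat_lit 2032) (nat_lit 140) (.e (nat_lit 688177) (nat_lit 16) (.e (nat_lit 65586) (nat_lit 7) (.e (nat_lit 319531) (nat_lit 16) (.e (nat_lit 286748) (nat_lit 9) (.e (nat_lit 336295) (nat_lit 15) (.e (nat_lit 3632) (nat_lit 227) (.e (nat_lit 778290) (nat_lit 0) (.e (nat_lit 1006) (nat_lit 81) .nil))))))))) (.g (nat_lit 7) .nil .nil))) 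
(.lf (nat_lit 90211) (.g (nat_lit 1790) (.e (nat_lit 2032) (nat_lit 140) (.e (nat_lit 688177) (nat_lit 16) (.e (nat_lit 65617) (nat_lit 10) (.e (nat_lit 344164) (nat_lit 37) (.e (nat_lit 647199) (nat_lit 11) (.e (nat_lit 16438) (nat_lit 9) (.e (nat_lit 426361) (nat_lit 15) .nil))))))) (.g (nat_lit 4) .nil .nil)))) (.nd (nat_lit 5) 
(.lf (nat_lit 90195) (.g (nat_lit 2785) (.e (nat_lit 2032) (nat_lit 140) (.e (nat_lit 688177) (nat_lit 16) (.e (nat_lit 65586) (nat_lit 7) (.e (nat_lit 319531) (nat_lit 16) (.e (nat_lit 286759) (nat_lit 12) (.e (nat_lit 385092) (nat_lit 49) (.e (nat_lit 778261) (nat_lit 0) (.e (nat_lit 1011) (nat_lit 81) .nil)))))))) (.g (nat_lit 5) .nil .nil))) 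
(.lf (nat_lit 90227) (.g (nat_lit 2488) (.e (nat_lit 2032) (nat_lit 140) (.e (nat_lit 688182) (nat_lit 17) (.e (nat_lit 73755) (nat_lit 8) (.e (nat_lit 557090) (nat_lit 12) (.e (nat_lit 171776) (nat_lit 192) .nil))))) .nil)))) (.nd (nat_lit 4) (.nd (nat_lit 5) 
(.lf (nat_lit 90187) (.g (nat_lit 2736) (.e (nat_lit 2032) (nat_lit 140) (.e (nat_lit 688177) (nat_lit 16) (.e (nat_lit 65586) (nat_lit 7) (.e (nat_lit 319531) (nat_lit 16) (.e (nat_lit 286755) (nat_lit 10) (.e (nat_lit 344169) (nat_lit 40) (.e (nat_lit 671751) (nat_lit 0) (.e (nat_lit 1015) (nat_lit 81) .nil)))))))) (.g (nat_lit 4) .nil .nil))) 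
(.lf (nat_lit 90219) (.g (nat_lit 2495) (.e (nat_lit 2032) (nat_lit 140) (.e (nat_lit 688180) (nat_lit 17) (.e (nat_lit 73753) (nat_lit 8) (.e (nat_lit 557100) (nat_lit 13) (.e (nat_lit 179968) (nat_lit 20) (.e (nat_lit 114710) (nat_lit 21) (.e (nat_lit 57847) (nat_lit 252) (.e (nat_lit 57351) (nat_lit 0) .nil)))))))) (.g (nat_lit 4) .nil .nil)))) (.nd (nat_lit 5) 
(.lf (nat_lit 90203) (.g (nat_lit 3717) (.e (nat_lit 2032) (nat_lit 140) (.e (nat_lit 688177) (nat_lit 16) (.e (nat_lit 65586) (nat_lit 7) (.e (nat_lit 319531) (nat_lit 16) (.e (nat_lit 286759) (nat_lit 12) (.e (nat_lit 385094) (nat_lit 49) (.e (nat_lit 778291) (nat_lit 0) (.e (nat_lit 1011) (nat_lit 81) .nil)))))))) (.g (nat_lit 6) .nil .nil))) 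
(.lf (nat_lit 90235) (.g (nat_lit 364) (.e (nat_lit 2032) (nat_lit 140) (.e (nat_lit 688186) (nat_lit 18) (.e (nat_lit 89856) (nat_lit 0) .nil))) .nil))))) (.nd (nat_lit 3) (.nd (nat_lit 4) (.nd (nat_lit 5) 
(.lf (nat_lit 90183) (.g (nat_lit 2471) (.e (nat_lit 2032) (nat_lit 140) (.e (nat_lit 688177) (nat_lit 16) (.e (nat_lit 65586) (nat_lit 7) (.e (nat_lit 319531) (nat_lit 16) (.e (nat_lit 286752) (nat_lit 10) .nil))))) .nil)) 
(.lf (nat_lit 90215) (.g (nat_lit 3395) (.e (nat_lit 2032) (nat_lit 140) (.e (nat_lit 688180) (nat_lit 17) (.e (nat_lit 73745) (nat_lit 3) (.e (nat_lit 516151) (nat_lit 9) (.e (nat_lit 426211) (nat_lit 9) (.e (nat_lit 426125) (nat_lit 2) (.e (nat_lit 204544) (nat_lit 0) (.e (nat_lit 13) (nat_lit 0) .nil)))))))) (.g (nat_lit 5) .nil .nil)))) (.nd (nat_lit 5) 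
(.lf (nat_lit 90199) (.g (nat_lit 3823) (.e (nat_lit 2032) (nat_lit 140) (.e (nat_lit 688177) (nat_lit 16) (.e (nat_lit 65586) (nat_lit 7) (.e (nat_lit 319531) (nat_lit 16) (.e (nat_lit 286759) (nat_lit 12) (.e (nat_lit 385094) (nat_lit 49) (.e (nat_lit 778261) (nat_lit 0) (.e (nat_lit 1011) (nat_lit 81) .nil)))))))) (.g (nat_lit 6) .nil .nil))) 
(.lf (nat_lit 90231) (.g (nat_lit 2544) (.e (nat_lit 2032) (nat_lit 140) (.e (nat_lit 688182) (nat_lit 17) (.e (nat_lit 73755) (nat_lit 8) (.e (nat_lit 557098) (nat_lit 13) (.e (nat_lit 179968) (nat_lit 20) .nil))))) .nil)))) (.nd (nat_lit 4) (.nd (nat_lit 5) 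
(.lf (nat_lit 90191) (.g (nat_lit 2731) (.e (nat_lit 2032) (nat_lit 140) (.e (nat_lit 688177) (nat_lit 16) (.e (nat_lit 65586) (nat_lit 7) (.e (nat_lit 319531) (nat_lit 16) (.e (nat_lit 286756) (nat_lit 10) (.e (nat_lit 344169) (nat_lit 40) (.e (nat_lit 671751) (nat_lit 0) (.e (nat_lit 1013) (nat_lit 81) .nil)))))))) (.g (nat_lit 5) .nil .nil))) 
(.lf (nat_lit 90223) (.g (nat_lit 2559) (.e (nat_lit 2032) (nat_lit 140) (.e (nat_lit 688182) (nat_lit 17) (.e (nat_lit 73754) (nat_lit 8) (.e (nat_lit 557100) (nat_lit 13) (.e (nat_lit 179968) (nat_lit 20) (.e (nat_lit 114711) (nat_lit 21) (.e (nat_lit 57847) (nat_lit 252) (.e (nat_lit 57351) (nat_lit 0) .nil)))))))) (.g (nat_lit 4) .nil .nil)))) (.nd (nat_lit 5) 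
(.lf (nat_lit 90207) (.g (nat_lit 2419) (.e (nat_lit 2032) (nat_lit 140) (.e (nat_lit 688177) (nat_lit 16) (.e (nat_lit 65586) (nat_lit 7) (.e (nat_lit 319534) (nat_lit 16) (.e (nat_lit 286752) (nat_lit 10) (.e (nat_lit 344169) (nat_lit 40) (.e (nat_lit 671751) (nat_lit 0) (.e (nat_lit 1015) (nat_lit 81) .nil)))))))) (.g (nat_lit 4) .nil .nil))) 
(.lf (nat_lit 90239) (.g (nat_lit 358) (.e (nat_lit 2032) (nat_lit 140) (.e (nat_lit 688186) (nat_lit 18) (.e (nat_lit 81950) (nat_lit 21) .nil))) .nil))))))))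

noncomputable def tv1234 : DT := (.nd (nat_lit 0) (.nd (nat_lit 1) (.nd (nat_lit 2) (.nd (nat_lit 3) (.nd (nat_lit 4) (.nd (nat_lit 5) 
(.lf (nat_lit 90240) (.g (nat_lit 1150) (.e (nat_lit 2032) (nat_lit 140) (.e (nat_lit 688186) (nat_lit 18) (.e (nat_lit 81950) (nat_lit 21) (.e (nat_lit 57826) (nat_lit 250) .nil)))) .nil)) 
(.lf (nat_lit 90272) (.g (nat_lit 2710) (.e (nat_lit 2040) (nat_lit 141) (.e (nat_lit 696344) (nat_lit 8) (.e (nat_lit 172067) (nat_lit 3) (.e (nat_lit 204866) (nat_lit 28) (.e (nat_lit 360192) (nat_lit 3) .nil))))) .nil))) (.nd (nat_lit 5) 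
(.lf (nat_lit 90256) (.g (nat_lit 2945) (.e (nat_lit 2033) (nat_lit 141) (.e (nat_lit 696344) (nat_lit 8) (.e (nat_lit 172082) (nat_lit 7) (.e (nat_lit 409646) (nat_lit 18) (.e (nat_lit 303127) (nat_lit 9) (.e (nat_lit 426449) (nat_lit 20) (.e (nat_lit 114699) (nat_lit 20) .nil))))))) (.g (nat_lit 5) .nil .nil))) 
(.lf (nat_lit 90288) (.g (nat_lit 2461) (.e (nat_lit 2040) (nat_lit 141) (.e (nat_lit 696344) (nat_lit 8) (.e (nat_lit 172082) (nat_lit 7) (.e (nat_lit 409646) (nat_lit 18) (.e (nat_lit 303143) (nat_lit 12) (.e (nat_lit 475215) (nat_lit 43) (.e (nat_lit 729101) (nat_lit 20) .nil))))))) (.g (nat_lit 5) .nil .nil))))) (.nd (nat_lit 4) (.nd (nat_lit 5) 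
(.lf (nat_lit 90248) (.g (nat_lit 1189) (.e (nat_lit 2032) (nat_lit 140) (.e (nat_lit 688186) (nat_lit 18) (.e (nat_lit 81959) (nat_lit 24) (.e (nat_lit 123160) (nat_lit 254) (.e (nat_lit 163920) (nat_lit 14) .nil))))) .nil)) 
(.lf (nat_lit 90280) (.g (nat_lit 1692) (.e (nat_lit 2040) (nat_lit 141) (.e (nat_lit 696344) (nat_lit 8) (.e (nat_lit 172082) (nat_lit 7) (.e (nat_lit 409646) (nat_lit 18) (.e (nat_lit 303133) (nat_lit 9) .nil))))) .nil))) (.nd (nat_lit 5) 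
(.lf (nat_lit 90264) (.g (nat_lit 1871) (.e (nat_lit 2035) (nat_lit 141) (.e (nat_lit 696344) (nat_lit 8) (.e (nat_lit 172067) (nat_lit 3) (.e (nat_lit 204877) (nat_lit 31) .nil)))) .nil)) 
(.lf (nat_lit 90296) (.g (nat_lit 2247) (.e (nat_lit 2044) (nat_lit 142) (.e (nat_lit 704590) (nat_lit 3) (.e (nat_lit 163975) (nat_lit 30) (.e (nat_lit 573491) (nat_lit 15) (.e (nat_lit 81954) (nat_lit 23) (.e (nat_lit 98356) (nat_lit 26) (.e (nat_lit 426354) (nat_lit 15) .nil))))))) (.g (nat_lit 4) .nil .nil)))))) (.nd (nat_lit 3) (.nd (nat_lit 4) (.nd (nat_lit 5) 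
(.lf (nat_lit 90244) (.g (nat_lit 361) (.e (nat_lit 2032) (nat_lit 140) (.e (nat_lit 688186) (nat_lit 18) (.e (nat_lit 81959) (nat_lit 24) .nil))) .nil)) 
(.lf (nat_lit 90276) (.g (nat_lit 2899) (.e (nat_lit 2040) (nat_lit 141) (.e (nat_lit 696344) (nat_lit 8) (.e (nat_lit 172079) (nat_lit 7) (.e (nat_lit 409645) (nat_lit 18) (.e (nat_lit 303127) (nat_lit 9) (.e (nat_lit 426449) (nat_lit 20) (.e (nat_lit 114699) (nat_lit 20) .nil))))))) (.g (nat_lit 0) .nil .nil)))) (.nd (nat_lit 5) 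
(.lf (nat_lit 90260) (.g (nat_lit 1871) (.e (nat_lit 2034) (nat_lit 141) (.e (nat_lit 696344) (nat_lit 8) (.e (nat_lit 172067) (nat_lit 3) (.e (nat_lit 204877) (nat_lit 31) .nil)))) .nil)) 
(.lf (nat_lit 90292) (.g (nat_lit 795) (.e (nat_lit 2042) (nat_lit 141) (.e (nat_lit 696343) (nat_lit 8) (.e (nat_lit 172073) (nat_lit 5) (.e (nat_lit 245784) (nat_lit 9) (.e (nat_lit 1560) (nat_lit 110) .nil))))) .nil)))) (.nd (nat_lit 4) (.nd (nat_lit 5) 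
(.lf (nat_lit 90252) (.g (nat_lit 978) (.e (nat_lit 7936) (nat_lit 140) (.e (nat_lit 688178) (nat_lit 16) (.e (nat_lit 65619) (nat_lit 10) (.e (nat_lit 344157) (nat_lit 36) .nil)))) .nil)) 
(.lf (nat_lit 90284) (.g (nat_lit 1792) (.e (nat_lit 2040) (nat_lit 141) (.e (nat_lit 696344) (nat_lit 8) (.e (nat_lit 172082) (nat_lit 7) (.e (nat_lit 409646) (nat_lit 18) (.e (nat_lit 303133) (nat_lit 9) (.e (nat_lit 426412) (nat_lit 15) (.e (nat_lit 2185) (nat_lit 144) (.e (nat_lit 720921) (nat_lit 20) .nil)))))))) (.g (nat_lit 4) .nil .nil)))) (.nd (nat_lit 5) 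
(.lf (nat_lit 90268) (.g (nat_lit 1581) (.e (nat_lit 2037) (nat_lit 141) (.e (nat_lit 696343) (nat_lit 8) (.e (nat_lit 172079) (nat_lit 7) (.e (nat_lit 409645) (nat_lit 18) (.e (nat_lit 303133) (nat_lit 9) .nil))))) .nil)) 
(.lf (nat_lit 90300) (.g (nat_lit 4653) (.e (nat_lit 2044) (nat_lit 142) (.e (nat_lit 704590) (nat_lit 3) (.e (nat_lit 163975) (nat_lit 30) (.e (nat_lit 573492) (nat_lit 15) (.e (nat_lit 81956) (nat_lit 23) (.e (nat_lit 98356) (nat_lit 26) (.e (nat_lit 426361) (nat_lit 15) .nil))))))) (.g (nat_lit 6) .nil .nil))))))) (.nd (nat_lit 2) (.nd (nat_lit 3) (.nd (nat_lit 4) (.nd (nat_lit 5) 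
(.lf (nat_lit 90242) (.g (nat_lit 1074) (.e (nat_lit 2032) (nat_lit 140) (.e (nat_lit 688186) (nat_lit 18) (.e (nat_lit 81950) (nat_lit 21) (.e (nat_lit 57834) (nat_lit 250) .nil)))) .nil)) 
(.lf (nat_lit 90274) (.g (nat_lit 2083) (.e (nat_lit 2040) (nat_lit 141) (.e (nat_lit 696344) (nat_lit 8) (.e (nat_lit 172067) (nat_lit 3) (.e (nat_lit 204876) (nat_lit 31) .nil)))) .nil))) (.nd (nat_lit 5) 
(.lf (nat_lit 90258) (.g (nat_lit 2832) (.e (nat_lit 2033) (nat_lit 141) (.e (nat_lit 696344) (nat_lit 8) (.e (nat_lit 172082) (nat_lit 7) (.e (nat_lit 409646) (nat_lit 18) (.e (nat_lit 303133) (nat_lit 9) (.e (nat_lit 426412) (nat_lit 15) (.e (nat_lit 2184) (nat_lit 144) (.e (nat_lit 720916) (nat_lit 20) .nil)))))))) (.g (nat_lit 6) .nil .nil))) 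
(.lf (nat_lit 90290) (.g (nat_lit 2651) (.e (nat_lit 2040) (nat_lit 141) (.e (nat_lit 696344) (nat_lit 8) (.e (nat_lit 172126) (nat_lit 14) (.e (nat_lit 491566) (nat_lit 12) (.e (nat_lit 385105) (nat_lit 50) .nil))))) .nil)))) (.nd (nat_lit 4) (.nd (nat_lit 5) 
(.lf (nat_lit 90250) (.g (nat_lit 1821) (.e (nat_lit 7936) (nat_lit 140) (.e (nat_lit 688177) (nat_lit 16) (.e (nat_lit 65586) (nat_lit 7) (.e (nat_lit 319531) (nat_lit 16) (.e (nat_lit 286748) (nat_lit 9) .nil))))) .nil)) 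
(.lf (nat_lit 90282) (.g (nat_lit 3020) (.e (nat_lit 2040) (nat_lit 141) (.e (nat_lit 696344) (nat_lit 8) (.e (nat_lit 172082) (nat_lit 7) (.e (nat_lit 409646) (nat_lit 18) (.e (nat_lit 303133) (nat_lit 9) (.e (nat_lit 426412) (nat_lit 15) (.e (nat_lit 2184) (nat_lit 144) (.e (nat_lit 720920) (nat_lit 20) .nil)))))))) (.g (nat_lit 8) .nil .nil)))) (.nd (nat_lit 5) 
(.lf (nat_lit 90266) (.g (nat_lit 2489) (.e (nat_lit 2036) (nat_lit 141) (.e (nat_lit 696348) (nat_lit 12) (.e (nat_lit 237605) (nat_lit 9) (.e (nat_lit 426555) (nat_lit 32) (.e (nat_lit 376857) (nat_lit 21) (.e (nat_lit 57854) (nat_lit 252) (.e (nat_lit 57351) (nat_lit 0) .nil))))))) (.g (nat_lit 6) .nil .nil))) 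
(.lf (nat_lit 90298) (.g (nat_lit 3845) (.e (nat_lit 2044) (nat_lit 142) (.e (nat_lit 704590) (nat_lit 3) (.e (nat_lit 163975) (nat_lit 30) (.e (nat_lit 573491) (nat_lit 15) (.e (nat_lit 81954) (nat_lit 23) (.e (nat_lit 98356) (nat_lit 26) (.e (nat_lit 426361) (nat_lit 15) .nil))))))) (.g (nat_lit 7) .nil .nil)))))) (.nd (nat_lit 3) (.nd (nat_lit 4) (.nd (nat_lit 5) 
(.lf (nat_lit 90246) (.g (nat_lit 1128) (.e (nat_lit 2032) (nat_lit 140) (.e (nat_lit 688186) (nat_lit 18) (.e (nat_lit 81959) (nat_lit 24) (.e (nat_lit 123148) (nat_lit 250) .nil)))) .nil)) 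
(.lf (nat_lit 90278) (.g (nat_lit 2935) (.e (nat_lit 2040) (nat_lit 141) (.e (nat_lit 696344) (nat_lit 8) (.e (nat_lit 172079) (nat_lit 7) (.e (nat_lit 409645) (nat_lit 18) (.e (nat_lit 303143) (nat_lit 12) (.e (nat_lit 475215) (nat_lit 43) (.e (nat_lit 729101) (nat_lit 20) .nil))))))) (.g (nat_lit 5) .nil .nil)))) (.nd (nat_lit 5) 
(.lf (nat_lit 90262) (.g (nat_lit 2946) (.e (nat_lit 2035) (nat_lit 141) (.e (nat_lit 696344) (nat_lit 8) (.e (nat_lit 172067) (nat_lit 3) (.e (nat_lit 204866) (nat_lit 28) (.e (nat_lit 360192) (nat_lit 3) .nil))))) .nil)) 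
(.lf (nat_lit 90294) (.g (nat_lit 403) (.e (nat_lit 2043) (nat_lit 141) (.e (nat_lit 696343) (nat_lit 8) (.e (nat_lit 172073) (nat_lit 5) .nil))) .nil)))) (.nd (nat_lit 4) (.nd (nat_lit 5) 
(.lf (nat_lit 90254) (.g (nat_lit 2229) (.e (nat_lit 2033) (nat_lit 141) (.e (nat_lit 696344) (nat_lit 8) (.e (nat_lit 172067) (nat_lit 3) (.e (nat_lit 204866) (nat_lit 28) .nil)))) .nil)) 
(.lf (nat_lit 90286) (.g (nat_lit 2935) (.e (nat_lit 2040) (nat_lit 141) (.e (nat_lit 696344) (nat_lit 8) (.e (nat_lit 172082) (nat_lit 7) (.e (nat_lit 409646) (nat_lit 18) (.e (nat_lit 303133) (nat_lit 9) (.e (nat_lit 426412) (nat_lit 15) (.e (nat_lit 2211) (nat_lit 145) (.e (nat_lit 729101) (nat_lit 20) .nil)))))))) (.g (nat_lit 6) .nil .nil)))) (.nd (nat_lit 5) 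
(.lf (nat_lit 90270) (.g (nat_lit 618) (.e (nat_lit 2039) (nat_lit 141) (.e (nat_lit 696344) (nat_lit 8) (.e (nat_lit 172073) (nat_lit 5) .nil))) .nil)) 
(.lf (nat_lit 90302) (.g (nat_lit 922) (.e (nat_lit 2044) (nat_lit 142) (.e (nat_lit 704734) (nat_lit 11) (.e (nat_lit 16412) (nat_lit 2) (.e (nat_lit 196672) (nat_lit 15) .nil)))) .nil))))))) (.nd (nat_lit 1) (.nd (nat_lit 2) (.nd (nat_lit 3) (.nd (nat_lit 4) (.nd (nat_lit 5) 
(.lf (nat_lit 90241) (.g (nat_lit 1971) (.e (nat_lit 2032) (nat_lit 140) (.e (nat_lit 688186) (nat_lit 18) (.e (nat_lit 81950) (nat_lit 21) (.e (nat_lit 57830) (nat_lit 250) (.e (nat_lit 7936) (nat_lit 166) (.e (nat_lit 196352) (nat_lit 0) .nil)))))) (.g (nat_lit 4) .nil .nil))) 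
(.lf (nat_lit 90273) (.g (nat_lit 2451) (.e (nat_lit 2040) (nat_lit 141) (.e (nat_lit 696344) (nat_lit 8) (.e (nat_lit 172067) (nat_lit 3) (.e (nat_lit 204867) (nat_lit 28) .nil)))) .nil))) (.nd (nat_lit 5) 
(.lf (nat_lit 90257) (.g (nat_lit 1842) (.e (nat_lit 2033) (nat_lit 141) (.e (nat_lit 696344) (nat_lit 8) (.e (nat_lit 172082) (nat_lit 7) (.e (nat_lit 409646) (nat_lit 18) (.e (nat_lit 303133) (nat_lit 9) .nil))))) .nil)) 
(.lf (nat_lit 90289) (.g (nat_lit 2879) (.e (nat_lit 2040) (nat_lit 141) (.e (nat_lit 696344) (nat_lit 8) (.e (nat_lit 172126) (nat_lit 14) (.e (nat_lit 491566) (nat_lit 12) (.e (nat_lit 385104) (nat_lit 50) (.e (nat_lit 786460) (nat_lit 20) (.e (nat_lit 114699) (nat_lit 20) .nil))))))) (.g (nat_lit 5) .nil .nil))))) (.nd (nat_lit 4) (.nd (nat_lit 5) 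
(.lf (nat_lit 90249) (.g (nat_lit 1697) (.e (nat_lit 2032) (nat_lit 140) (.e (nat_lit 688186) (nat_lit 18) (.e (nat_lit 81965) (nat_lit 26) (.e (nat_lit 147495) (nat_lit 11) (.e (nat_lit 32512) (nat_lit 16) .nil))))) .nil)) 
(.lf (nat_lit 90281) (.g (nat_lit 2889) (.e (nat_lit 2040) (nat_lit 141) (.e (nat_lit 696344) (nat_lit 8) (.e (nat_lit 172082) (nat_lit 7) (.e (nat_lit 409646) (nat_lit 18) (.e (nat_lit 303133) (nat_lit 9) (.e (nat_lit 426412) (nat_lit 15) (.e (nat_lit 2184) (nat_lit 144) (.e (nat_lit 720910) (nat_lit 20) .nil)))))))) (.g (nat_lit 7) .nil .nil)))) (.nd (nat_lit 5) 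
(.lf (nat_lit 90265) (.g (nat_lit 2033) (.e (nat_lit 2035) (nat_lit 141) (.e (nat_lit 696344) (nat_lit 8) (.e (nat_lit 172079) (nat_lit 7) (.e (nat_lit 409645) (nat_lit 18) (.e (nat_lit 303133) (nat_lit 9) .nil))))) .nil)) 
(.lf (nat_lit 90297) (.g (nat_lit 2951) (.e (nat_lit 2044) (nat_lit 142) (.e (nat_lit 704590) (nat_lit 3) (.e (nat_lit 163975) (nat_lit 30) (.e (nat_lit 573491) (nat_lit 15) (.e (nat_lit 81954) (nat_lit 23) (.e (nat_lit 98356) (nat_lit 26) (.e (nat_lit 426360) (nat_lit 15) .nil))))))) (.g (nat_lit 5) .nil .nil)))))) (.nd (nat_lit 3) (.nd (nat_lit 4) (.nd (nat_lit 5) 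
(.lf (nat_lit 90245) (.g (nat_lit 1095) (.e (nat_lit 2032) (nat_lit 140) (.e (nat_lit 688186) (nat_lit 18) (.e (nat_lit 81959) (nat_lit 24) (.e (nat_lit 123147) (nat_lit 250) (.e (nat_lit 2651) (nat_lit 166) .nil))))) .nil)) 
(.lf (nat_lit 90277) (.g (nat_lit 1746) (.e (nat_lit 2040) (nat_lit 141) (.e (nat_lit 696344) (nat_lit 8) (.e (nat_lit 172079) (nat_lit 7) (.e (nat_lit 409645) (nat_lit 18) (.e (nat_lit 303133) (nat_lit 9) .nil))))) .nil))) (.nd (nat_lit 5) 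
(.lf (nat_lit 90261) (.g (nat_lit 2713) (.e (nat_lit 2035) (nat_lit 141) (.e (nat_lit 696344) (nat_lit 8) (.e (nat_lit 172067) (nat_lit 3) (.e (nat_lit 204865) (nat_lit 28) .nil)))) .nil)) 
(.lf (nat_lit 90293) (.g (nat_lit 1802) (.e (nat_lit 2042) (nat_lit 141) (.e (nat_lit 696343) (nat_lit 8) (.e (nat_lit 172082) (nat_lit 7) (.e (nat_lit 409646) (nat_lit 18) (.e (nat_lit 303133) (nat_lit 9) .nil))))) .nil)))) (.nd (nat_lit 4) (.nd (nat_lit 5) 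
(.lf (nat_lit 90253) (.g (nat_lit 1247) (.e (nat_lit 7936) (nat_lit 140) (.e (nat_lit 688178) (nat_lit 16) (.e (nat_lit 65619) (nat_lit 10) (.e (nat_lit 344157) (nat_lit 36) (.e (nat_lit 638986) (nat_lit 5) .nil))))) .nil)) 
(.lf (nat_lit 90285) (.g (nat_lit 1752) (.e (nat_lit 2040) (nat_lit 141) (.e (nat_lit 696344) (nat_lit 8) (.e (nat_lit 172082) (nat_lit 7) (.e (nat_lit 409646) (nat_lit 18) (.e (nat_lit 303133) (nat_lit 9) (.e (nat_lit 426412) (nat_lit 15) (.e (nat_lit 2187) (nat_lit 144) (.e (nat_lit 720920) (nat_lit 20) .nil)))))))) (.g (nat_lit 4) .nil .nil)))) (.nd (nat_lit 5) 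
(.lf (nat_lit 90269) (.g (nat_lit 1802) (.e (nat_lit 2037) (nat_lit 141) (.e (nat_lit 696343) (nat_lit 8) (.e (nat_lit 172082) (nat_lit 7) (.e (nat_lit 409646) (nat_lit 18) (.e (nat_lit 303133) (nat_lit 9) .nil))))) .nil)) 
(.lf (nat_lit 90301) (.g (nat_lit 2454) (.e (nat_lit 2044) (nat_lit 142) (.e (nat_lit 704596) (nat_lit 5) (.e (nat_lit 180277) (nat_lit 32) (.e (nat_lit 1661) (nat_lit 115) (.e (nat_lit 393268) (nat_lit 23) (.e (nat_lit 426361) (nat_lit 15) .nil)))))) (.g (nat_lit 5) .nil .nil))))))) (.nd (nat_lit 2) (.nd (nat_lit 3) (.nd (nat_lit 4) (.nd (nat_lit 5) 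
(.lf (nat_lit 90243) (.g (nat_lit 2196) (.e (nat_lit 2032) (nat_lit 140) (.e (nat_lit 688186) (nat_lit 18) (.e (nat_lit 81950) (nat_lit 21) (.e (nat_lit 57857) (nat_lit 254) (.e (nat_lit 163920) (nat_lit 14) (.e (nat_lit 450304) (nat_lit 0) .nil)))))) (.g (nat_lit 5) .nil .nil))) 
(.lf (nat_lit 90275) (.g (nat_lit 1931) (.e (nat_lit 2040) (nat_lit 141) (.e (nat_lit 696344) (nat_lit 8) (.e (nat_lit 172067) (nat_lit 3) (.e (nat_lit 204878) (nat_lit 31) .nil)))) .nil))) (.nd (nat_lit 5) 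
(.lf (nat_lit 90259) (.g (nat_lit 2233) (.e (nat_lit 2034) (nat_lit 141) (.e (nat_lit 696344) (nat_lit 8) (.e (nat_lit 172067) (nat_lit 3) (.e (nat_lit 204866) (nat_lit 28) .nil)))) .nil)) 
(.lf (nat_lit 90291) (.g (nat_lit 469) (.e (nat_lit 2041) (nat_lit 141) (.e (nat_lit 696346) (nat_lit 10) (.e (nat_lit 196352) (nat_lit 16) .nil))) .nil)))) (.nd (nat_lit 4) (.nd (nat_lit 5) 
(.lf (nat_lit 90251) (.g (nat_lit 425) (.e (nat_lit 7936) (nat_lit 140) (.e (nat_lit 688177) (nat_lit 16) (.e (nat_lit 65610) (nat_lit 10) .nil))) .nil)) 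
(.lf (nat_lit 90283) (.g (nat_lit 2775) (.e (nat_lit 2040) (nat_lit 141) (.e (nat_lit 696344) (nat_lit 8) (.e (nat_lit 172082) (nat_lit 7) (.e (nat_lit 409646) (nat_lit 18) (.e (nat_lit 303133) (nat_lit 9) (.e (nat_lit 426412) (nat_lit 15) (.e (nat_lit 2184) (nat_lit 144) (.e (nat_lit 720921) (nat_lit 20) .nil)))))))) (.g (nat_lit 6) .nil .nil)))) (.nd (nat_lit 5) 
(.lf (nat_lit 90267) (.g (nat_lit 795) (.e (nat_lit 2037) (nat_lit 141) (.e (nat_lit 696343) (nat_lit 8) (.e (nat_lit 172073) (nat_lit 5) (.e (nat_lit 245784) (nat_lit 9) (.e (nat_lit 1560) (nat_lit 110) .nil))))) .nil)) 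
(.lf (nat_lit 90299) (.g (nat_lit 2184) (.e (nat_lit 2044) (nat_lit 142) (.e (nat_lit 704590) (nat_lit 3) (.e (nat_lit 163975) (nat_lit 30) (.e (nat_lit 573491) (nat_lit 15) (.e (nat_lit 81954) (nat_lit 23) (.e (nat_lit 98356) (nat_lit 26) (.e (nat_lit 426362) (nat_lit 15) .nil))))))) (.g (nat_lit 4) .nil .nil)))))) (.nd (nat_lit 3) (.nd (nat_lit 4) (.nd (nat_lit 5) 
(.lf (nat_lit 90247) (.g (nat_lit 1477) (.e (nat_lit 2032) (nat_lit 140) (.e (nat_lit 688186) (nat_lit 18) (.e (nat_lit 81959) (nat_lit 24) (.e (nat_lit 123153) (nat_lit 250) (.e (nat_lit 2648) (nat_lit 166) .nil))))) .nil)) 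
(.lf (nat_lit 90279) (.g (nat_lit 3263) (.e (nat_lit 2040) (nat_lit 141) (.e (nat_lit 696344) (nat_lit 8) (.e (nat_lit 172082) (nat_lit 7) (.e (nat_lit 409646) (nat_lit 18) (.e (nat_lit 303127) (nat_lit 9) (.e (nat_lit 426449) (nat_lit 20) (.e (nat_lit 114699) (nat_lit 20) .nil))))))) (.g (nat_lit 6) .nil .nil)))) (.nd (nat_lit 5) 
(.lf (nat_lit 90263) (.g (nat_lit 2101) (.e (nat_lit 2035) (nat_lit 141) (.e (nat_lit 696344) (nat_lit 8) (.e (nat_lit 172067) (nat_lit 3) (.e (nat_lit 204876) (nat_lit 31) .nil)))) .nil)) 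
(.lf (nat_lit 90295) (.g (nat_lit 1702) (.e (nat_lit 7936) (nat_lit 141) (.e (nat_lit 696344) (nat_lit 8) (.e (nat_lit 172082) (nat_lit 7) (.e (nat_lit 409646) (nat_lit 18) (.e (nat_lit 303133) (nat_lit 9) .nil))))) .nil)))) (.nd (nat_lit 4) (.nd (nat_lit 5) 
(.lf (nat_lit 90255) (.g (nat_lit 2081) (.e (nat_lit 2033) (nat_lit 141) (.e (nat_lit 696344) (nat_lit 8) (.e (nat_lit 172079) (nat_lit 7) (.e (nat_lit 409645) (nat_lit 18) (.e (nat_lit 303133) (nat_lit 9) (.e (nat_lit 426412) (nat_lit 15) (.e (nat_lit 2184) (nat_lit 144) (.e (nat_lit 720910) (nat_lit 20) .nil)))))))) (.g (nat_lit 4) .nil .nil))) 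
(.lf (nat_lit 90287) (.g (nat_lit 3639) (.e (nat_lit 2040) (nat_lit 141) (.e (nat_lit 696344) (nat_lit 8) (.e (nat_lit 172082) (nat_lit 7) (.e (nat_lit 409646) (nat_lit 18) (.e (nat_lit 303143) (nat_lit 12) (.e (nat_lit 475212) (nat_lit 42) (.e (nat_lit 720920) (nat_lit 20) .nil))))))) (.g (nat_lit 6) .nil .nil)))) (.nd (nat_lit 5) 
(.lf (nat_lit 90271) (.g (nat_lit 2695) (.e (nat_lit 2040) (nat_lit 141) (.e (nat_lit 696344) (nat_lit 8) (.e (nat_lit 172067) (nat_lit 3) (.e (nat_lit 204865) (nat_lit 28) .nil)))) .nil)) 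
(.lf (nat_lit 90303) (.g (nat_lit 1543) (.e (nat_lit 2044) (nat_lit 142) (.e (nat_lit 704734) (nat_lit 11) (.e (nat_lit 16412) (nat_lit 2) (.e (nat_lit 196681) (nat_lit 17) (.e (nat_lit 131105) (nat_lit 9) .nil))))) .nil))))))))

noncomputable def tv1235 : DT := (.nd (nat_lit 0) (.nd (nat_lit 1) (.nd (nat_lit 2) (.nd (nat_lit 3) (.nd (nat_lit 4) (.nd (nat_lit 5) 
(.lf (nat_lit 90304) (.g (nat_lit 1662) (.e (nat_lit 2044) (nat_lit 142) (.e (nat_lit 704734) (nat_lit 11) (.e (nat_lit 16412) (nat_lit 2) (.e (nat_lit 196681) (nat_lit 17) (.e (nat_lit 131105) (nat_lit 9) (.e (nat_lit 336324) (nat_lit 18) (.e (nat_lit 204814) (nat_lit 17) .nil))))))) (.g (nat_lit 4) .nil .nil))) 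
(.lf (nat_lit 90336) (.g (nat_lit 2339) (.e (nat_lit 2046) (nat_lit 142) (.e (nat_lit 704590) (nat_lit 3) (.e (nat_lit 163975) (nat_lit 30) (.e (nat_lit 573492) (nat_lit 15) (.e (nat_lit 81954) (nat_lit 23) .nil))))) .nil))) (.nd (nat_lit 5) 
(.lf (nat_lit 90320) (.g (nat_lit 998) (.e (nat_lit 2044) (nat_lit 142) (.e (nat_lit 704734) (nat_lit 11) (.e (nat_lit 16416) (nat_lit 3) (.e (nat_lit 204877) (nat_lit 31) .nil)))) .nil)) 
(.lf (nat_lit 90352) (.g (nat_lit 3660) (.e (nat_lit 2056) (nat_lit 142) (.e (nat_lit 704590) (nat_lit 3) (.e (nat_lit 163975) (nat_lit 30) (.e (nat_lit 573492) (nat_lit 15) (.e (nat_lit 81953) (nat_lit 22) (.e (nat_lit 90170) (nat_lit 13) (.e (nat_lit 172138) (nat_lit 15) .nil))))))) (.g (nat_lit 6) .nil .nil))))) (.nd (nat_lit 4) (.nd (nat_lit 5) 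
(.lf (nat_lit 90312) (.g (nat_lit 3097) (.e (nat_lit 2044) (nat_lit 142) (.e (nat_lit 704734) (nat_lit 11) (.e (nat_lit 16416) (nat_lit 3) (.e (nat_lit 204861) (nat_lit 26) (.e (nat_lit 336075) (nat_lit 9) (.e (nat_lit 336324) (nat_lit 18) (.e (nat_lit 204817) (nat_lit 17) .nil))))))) (.g (nat_lit 6) .nil .nil))) 
(.lf (nat_lit 90344) (.g (nat_lit 4460) (.e (nat_lit 2055) (nat_lit 142) (.e (nat_lit 704590) (nat_lit 3) (.e (nat_lit 163975) (nat_lit 30) (.e (nat_lit 573492) (nat_lit 15) (.e (nat_lit 81956) (nat_lit 23) (.e (nat_lit 98356) (nat_lit 26) (.e (nat_lit 426361) (nat_lit 15) .nil))))))) (.g (nat_lit 6) .nil .nil)))) (.nd (nat_lit 5) 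
(.lf (nat_lit 90328) (.g (nat_lit 3290) (.e (nat_lit 2044) (nat_lit 142) (.e (nat_lit 704734) (nat_lit 11) (.e (nat_lit 16466) (nat_lit 13) (.e (nat_lit 483393) (nat_lit 23) (.e (nat_lit 335988) (nat_lit 1) (.e (nat_lit 57854) (nat_lit 252) (.e (nat_lit 57347) (nat_lit 0) .nil))))))) (.g (nat_lit 7) .nil .nil))) 
(.lf (nat_lit 90360) (.g (nat_lit 630) (.e (nat_lit 2056) (nat_lit 142) (.e (nat_lit 704598) (nat_lit 6) (.e (nat_lit 188420) (nat_lit 0) (.e (nat_lit 2056) (nat_lit 142) (.e (nat_lit 704598) (nat_lit 6) (.e (nat_lit 188420) (nat_lit 0) .nil)))))) (.g (nat_lit 0) .nil .nil)))))) (.nd (nat_lit 3) (.nd (nat_lit 4) (.nd (nat_lit 5) 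
(.lf (nat_lit 90308) (.g (nat_lit 3280) (.e (nat_lit 2044) (nat_lit 142) (.e (nat_lit 704734) (nat_lit 11) (.e (nat_lit 16412) (nat_lit 2) (.e (nat_lit 196681) (nat_lit 17) (.e (nat_lit 131120) (nat_lit 12) (.e (nat_lit 385066) (nat_lit 26) (.e (nat_lit 532481) (nat_lit 0) .nil))))))) (.g (nat_lit 7) .nil .nil))) 
(.lf (nat_lit 90340) (.g (nat_lit 4893) (.e (nat_lit 2047) (nat_lit 142) (.e (nat_lit 704590) (nat_lit 3) (.e (nat_lit 163975) (nat_lit 30) (.e (nat_lit 573492) (nat_lit 15) (.e (nat_lit 81956) (nat_lit 23) (.e (nat_lit 98356) (nat_lit 26) (.e (nat_lit 426360) (nat_lit 15) .nil))))))) (.g (nat_lit 7) .nil .nil)))) (.nd (nat_lit 5) 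
(.lf (nat_lit 90324) (.g (nat_lit 3045) (.e (nat_lit 2044) (nat_lit 142) (.e (nat_lit 704734) (nat_lit 11) (.e (nat_lit 16436) (nat_lit 9) (.e (nat_lit 426555) (nat_lit 32) (.e (nat_lit 376857) (nat_lit 21) (.e (nat_lit 57854) (nat_lit 252) (.e (nat_lit 57351) (nat_lit 0) .nil))))))) (.g (nat_lit 6) .nil .nil))) 
(.lf (nat_lit 90356) (.g (nat_lit 2686) (.e (nat_lit 2056) (nat_lit 142) (.e (nat_lit 704595) (nat_lit 5) (.e (nat_lit 180278) (nat_lit 32) (.e (nat_lit 1428) (nat_lit 108) (.e (nat_lit 336430) (nat_lit 29) (.e (nat_lit 442379) (nat_lit 0) .nil)))))) (.g (nat_lit 0) .nil .nil))))) (.nd (nat_lit 4) (.nd (nat_lit 5) 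
(.lf (nat_lit 90316) (.g (nat_lit 4564) (.e (nat_lit 2044) (nat_lit 142) (.e (nat_lit 704734) (nat_lit 11) (.e (nat_lit 16416) (nat_lit 3) (.e (nat_lit 204861) (nat_lit 26) (.e (nat_lit 336194) (nat_lit 12) (.e (nat_lit 385066) (nat_lit 26) (.e (nat_lit 532481) (nat_lit 0) .nil))))))) (.g (nat_lit 0) .nil .nil))) 
(.lf (nat_lit 90348) (.g (nat_lit 4210) (.e (nat_lit 2056) (nat_lit 142) (.e (nat_lit 704590) (nat_lit 3) (.e (nat_lit 163975) (nat_lit 30) (.e (nat_lit 573481) (nat_lit 13) (.e (nat_lit 65609) (nat_lit 10) (.e (nat_lit 344117) (nat_lit 21) (.e (nat_lit 516151) (nat_lit 9) (.e (nat_lit 426412) (nat_lit 15) .nil)))))))) (.g (nat_lit 7) .nil .nil)))) (.nd (nat_lit 5) 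
(.lf (nat_lit 90332) (.g (nat_lit 1094) (.e (nat_lit 2046) (nat_lit 142) (.e (nat_lit 704590) (nat_lit 3) (.e (nat_lit 163975) (nat_lit 30) (.e (nat_lit 573479) (nat_lit 13) .nil)))) .nil)) 
(.lf (nat_lit 90364) (.g (nat_lit 1973) (.e (nat_lit 2056) (nat_lit 142) (.e (nat_lit 704598) (nat_lit 6) (.e (nat_lit 188453) (nat_lit 24) (.e (nat_lit 229681) (nat_lit 244) (.e (nat_lit 163931) (nat_lit 17) (.e (nat_lit 466947) (nat_lit 0) .nil)))))) (.g (nat_lit 0) .nil .nil))))))) (.nd (nat_lit 2) (.nd (nat_lit 3) (.nd (nat_lit 4) (.nd (nat_lit 5) 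
(.lf (nat_lit 90306) (.g (nat_lit 1629) (.e (nat_lit 2044) (nat_lit 142) (.e (nat_lit 704734) (nat_lit 11) (.e (nat_lit 16412) (nat_lit 2) (.e (nat_lit 196681) (nat_lit 17) (.e (nat_lit 131109) (nat_lit 9) (.e (nat_lit 336324) (nat_lit 18) (.e (nat_lit 204815) (nat_lit 17) .nil))))))) (.g (nat_lit 4) .nil .nil))) 
(.lf (nat_lit 90338) (.g (nat_lit 3062) (.e (nat_lit 2046) (nat_lit 142) (.e (nat_lit 704596) (nat_lit 5) (.e (nat_lit 180277) (nat_lit 32) (.e (nat_lit 1660) (nat_lit 115) (.e (nat_lit 393271) (nat_lit 23) (.e (nat_lit 426402) (nat_lit 15) .nil)))))) (.g (nat_lit 6) .nil .nil)))) (.nd (nat_lit 5) 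
(.lf (nat_lit 90322) (.g (nat_lit 1621) (.e (nat_lit 2044) (nat_lit 142) (.e (nat_lit 704734) (nat_lit 11) (.e (nat_lit 16416) (nat_lit 3) (.e (nat_lit 204877) (nat_lit 31) (.e (nat_lit 384768) (nat_lit 3) (.e (nat_lit 204817) (nat_lit 17) .nil)))))) (.g (nat_lit 4) .nil .nil))) 
(.lf (nat_lit 90354) (.g (nat_lit 2754) (.e (nat_lit 2056) (nat_lit 142) (.e (nat_lit 704592) (nat_lit 4) (.e (nat_lit 172126) (nat_lit 14) (.e (nat_lit 491549) (nat_lit 9) (.e (nat_lit 336430) (nat_lit 29) (.e (nat_lit 442379) (nat_lit 0) .nil)))))) (.g (nat_lit 5) .nil .nil))))) (.nd (nat_lit 4) (.nd (nat_lit 5) 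
(.lf (nat_lit 90314) (.g (nat_lit 1964) (.e (nat_lit 2044) (nat_lit 142) (.e (nat_lit 704734) (nat_lit 11) (.e (nat_lit 16416) (nat_lit 3) (.e (nat_lit 204861) (nat_lit 26) (.e (nat_lit 336076) (nat_lit 9) (.e (nat_lit 336324) (nat_lit 18) (.e (nat_lit 204818) (nat_lit 17) .nil))))))) (.g (nat_lit 4) .nil .nil))) 
(.lf (nat_lit 90346) (.g (nat_lit 4789) (.e (nat_lit 2056) (nat_lit 142) (.e (nat_lit 704589) (nat_lit 3) (.e (nat_lit 163975) (nat_lit 30) (.e (nat_lit 573479) (nat_lit 13) (.e (nat_lit 65610) (nat_lit 10) (.e (nat_lit 344117) (nat_lit 21) (.e (nat_lit 516151) (nat_lit 9) (.e (nat_lit 426412) (nat_lit 15) .nil)))))))) (.g (nat_lit 7) .nil .nil)))) (.nd (nat_lit 5) 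
(.lf (nat_lit 90330) (.g (nat_lit 3831) (.e (nat_lit 2045) (nat_lit 142) (.e (nat_lit 704590) (nat_lit 3) (.e (nat_lit 163975) (nat_lit 30) (.e (nat_lit 573492) (nat_lit 15) (.e (nat_lit 81956) (nat_lit 23) (.e (nat_lit 98355) (nat_lit 26) (.e (nat_lit 426402) (nat_lit 15) .nil))))))) (.g (nat_lit 5) .nil .nil))) 
(.lf (nat_lit 90362) (.g (nat_lit 2339) (.e (nat_lit 2056) (nat_lit 142) (.e (nat_lit 704598) (nat_lit 6) (.e (nat_lit 188453) (nat_lit 24) (.e (nat_lit 229680) (nat_lit 244) (.e (nat_lit 163931) (nat_lit 17) (.e (nat_lit 466947) (nat_lit 0) .nil)))))) (.g (nat_lit 0) .nil .nil)))))) (.nd (nat_lit 3) (.nd (nat_lit 4) (.nd (nat_lit 5) 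
(.lf (nat_lit 90310) (.g (nat_lit 3429) (.e (nat_lit 2044) (nat_lit 142) (.e (nat_lit 704734) (nat_lit 11) (.e (nat_lit 16412) (nat_lit 2) (.e (nat_lit 196681) (nat_lit 17) (.e (nat_lit 131123) (nat_lit 12) (.e (nat_lit 385066) (nat_lit 26) (.e (nat_lit 532481) (nat_lit 0) .nil))))))) (.g (nat_lit 7) .nil .nil))) 
(.lf (nat_lit 90342) (.g (nat_lit 1481) (.e (nat_lit 2054) (nat_lit 142) (.e (nat_lit 704595) (nat_lit 5) (.e (nat_lit 180277) (nat_lit 32) (.e (nat_lit 1661) (nat_lit 115) (.e (nat_lit 393268) (nat_lit 23) .nil))))) .nil))) (.nd (nat_lit 5) 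
(.lf (nat_lit 90326) (.g (nat_lit 3068) (.e (nat_lit 2044) (nat_lit 142) (.e (nat_lit 704734) (nat_lit 11) (.e (nat_lit 16436) (nat_lit 9) (.e (nat_lit 426555) (nat_lit 32) (.e (nat_lit 376860) (nat_lit 21) (.e (nat_lit 57854) (nat_lit 252) (.e (nat_lit 57351) (nat_lit 0) .nil))))))) (.g (nat_lit 7) .nil .nil))) 
(.lf (nat_lit 90358) (.g (nat_lit 579) (.e (nat_lit 2056) (nat_lit 142) (.e (nat_lit 704598) (nat_lit 6) (.e (nat_lit 188416) (nat_lit 0) (.e (nat_lit 2147) (nat_lit 142) (.e (nat_lit 704597) (nat_lit 6) .nil))))) .nil)))) (.nd (nat_lit 4) (.nd (nat_lit 5) 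
(.lf (nat_lit 90318) (.g (nat_lit 972) (.e (nat_lit 2044) (nat_lit 142) (.e (nat_lit 704734) (nat_lit 11) (.e (nat_lit 16416) (nat_lit 3) (.e (nat_lit 204876) (nat_lit 31) .nil)))) .nil)) 
(.lf (nat_lit 90350) (.g (nat_lit 1947) (.e (nat_lit 2056) (nat_lit 142) (.e (nat_lit 704590) (nat_lit 3) (.e (nat_lit 163975) (nat_lit 30) (.e (nat_lit 573491) (nat_lit 15) (.e (nat_lit 81954) (nat_lit 23) .nil))))) .nil))) (.nd (nat_lit 5) 
(.lf (nat_lit 90334) (.g (nat_lit 1977) (.e (nat_lit 2046) (nat_lit 142) (.e (nat_lit 704590) (nat_lit 3) (.e (nat_lit 163975) (nat_lit 30) (.e (nat_lit 573491) (nat_lit 15) (.e (nat_lit 81955) (nat_lit 23) .nil))))) .nil)) 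
(.lf (nat_lit 90366) (.g (nat_lit 1964) (.e (nat_lit 2056) (nat_lit 142) (.e (nat_lit 704598) (nat_lit 6) (.e (nat_lit 188455) (nat_lit 24) (.e (nat_lit 229680) (nat_lit 244) (.e (nat_lit 163931) (nat_lit 17) (.e (nat_lit 466947) (nat_lit 0) .nil)))))) (.g (nat_lit 0) .nil .nil)))))))) (.nd (nat_lit 1) (.nd (nat_lit 2) (.nd (nat_lit 3) (.nd (nat_lit 4) (.nd (nat_lit 5) 
(.lf (nat_lit 90305) (.g (nat_lit 2866) (.e (nat_lit 2044) (nat_lit 142) (.e (nat_lit 704734) (nat_lit 11) (.e (nat_lit 16412) (nat_lit 2) (.e (nat_lit 196681) (nat_lit 17) (.e (nat_lit 131105) (nat_lit 9) (.e (nat_lit 336324) (nat_lit 18) (.e (nat_lit 204817) (nat_lit 17) .nil))))))) (.g (nat_lit 7) .nil .nil))) 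
(.lf (nat_lit 90337) (.g (nat_lit 3668) (.e (nat_lit 2046) (nat_lit 142) (.e (nat_lit 704590) (nat_lit 3) (.e (nat_lit 163975) (nat_lit 30) (.e (nat_lit 573492) (nat_lit 15) (.e (nat_lit 81956) (nat_lit 23) (.e (nat_lit 98356) (nat_lit 26) (.e (nat_lit 426362) (nat_lit 15) .nil))))))) (.g (nat_lit 5) .nil .nil)))) (.nd (nat_lit 5) 
(.lf (nat_lit 90321) (.g (nat_lit 1518) (.e (nat_lit 2044) (nat_lit 142) (.e (nat_lit 704734) (nat_lit 11) (.e (nat_lit 16416) (nat_lit 3) (.e (nat_lit 204877) (nat_lit 31) (.e (nat_lit 384768) (nat_lit 3) .nil))))) .nil)) 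
(.lf (nat_lit 90353) (.g (nat_lit 3837) (.e (nat_lit 2056) (nat_lit 142) (.e (nat_lit 704590) (nat_lit 3) (.e (nat_lit 163975) (nat_lit 30) (.e (nat_lit 573492) (nat_lit 15) (.e (nat_lit 81956) (nat_lit 23) (.e (nat_lit 98359) (nat_lit 26) (.e (nat_lit 426412) (nat_lit 15) .nil))))))) (.g (nat_lit 6) .nil .nil))))) (.nd (nat_lit 4) (.nd (nat_lit 5) 
(.lf (nat_lit 90313) (.g (nat_lit 3198) (.e (nat_lit 2044) (nat_lit 142) (.e (nat_lit 704734) (nat_lit 11) (.e (nat_lit 16416) (nat_lit 3) (.e (nat_lit 204861) (nat_lit 26) (.e (nat_lit 336076) (nat_lit 9) (.e (nat_lit 336324) (nat_lit 18) (.e (nat_lit 204817) (nat_lit 17) .nil))))))) (.g (nat_lit 6) .nil .nil))) 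
(.lf (nat_lit 90345) (.g (nat_lit 5330) (.e (nat_lit 2056) (nat_lit 142) (.e (nat_lit 704589) (nat_lit 3) (.e (nat_lit 163974) (nat_lit 30) (.e (nat_lit 573484) (nat_lit 13) (.e (nat_lit 65610) (nat_lit 10) (.e (nat_lit 344117) (nat_lit 21) (.e (nat_lit 516151) (nat_lit 9) (.e (nat_lit 426412) (nat_lit 15) .nil)))))))) (.g (nat_lit 8) .nil .nil)))) (.nd (nat_lit 5) 
(.lf (nat_lit 90329) (.g (nat_lit 2746) (.e (nat_lit 2044) (nat_lit 142) (.e (nat_lit 704734) (nat_lit 11) (.e (nat_lit 16466) (nat_lit 13) (.e (nat_lit 483393) (nat_lit 23) (.e (nat_lit 335988) (nat_lit 1) (.e (nat_lit 57854) (nat_lit 252) (.e (nat_lit 57351) (nat_lit 0) .nil))))))) (.g (nat_lit 7) .nil .nil))) 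
(.lf (nat_lit 90361) (.g (nat_lit 1107) (.e (nat_lit 2056) (nat_lit 142) (.e (nat_lit 704598) (nat_lit 6) (.e (nat_lit 188420) (nat_lit 0) (.e (nat_lit 2058) (nat_lit 142) (.e (nat_lit 704598) (nat_lit 6) (.e (nat_lit 188420) (nat_lit 0) .nil)))))) (.g (nat_lit 0) .nil .nil)))))) (.nd (nat_lit 3) (.nd (nat_lit 4) (.nd (nat_lit 5) 
(.lf (nat_lit 90309) (.g (nat_lit 3164) (.e (nat_lit 2044) (nat_lit 142) (.e (nat_lit 704734) (nat_lit 11) (.e (nat_lit 16412) (nat_lit 2) (.e (nat_lit 196681) (nat_lit 17) (.e (nat_lit 131120) (nat_lit 12) (.e (nat_lit 385068) (nat_lit 26) (.e (nat_lit 532484) (nat_lit 0) .nil))))))) (.g (nat_lit 7) .nil .nil))) 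
(.lf (nat_lit 90341) (.g (nat_lit 3605) (.e (nat_lit 2054) (nat_lit 142) (.e (nat_lit 704590) (nat_lit 3) (.e (nat_lit 163975) (nat_lit 30) (.e (nat_lit 573492) (nat_lit 15) (.e (nat_lit 81956) (nat_lit 23) (.e (nat_lit 98356) (nat_lit 26) (.e (nat_lit 433920) (nat_lit 15) .nil))))))) (.g (nat_lit 5) .nil .nil)))) (.nd (nat_lit 5) 
(.lf (nat_lit 90325) (.g (nat_lit 1465) (.e (nat_lit 2044) (nat_lit 142) (.e (nat_lit 704734) (nat_lit 11) (.e (nat_lit 16436) (nat_lit 9) (.e (nat_lit 426555) (nat_lit 32) (.e (nat_lit 376859) (nat_lit 21) .nil))))) .nil)) 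
(.lf (nat_lit 90357) (.g (nat_lit 2291) (.e (nat_lit 2056) (nat_lit 142) (.e (nat_lit 704596) (nat_lit 5) (.e (nat_lit 180277) (nat_lit 32) (.e (nat_lit 1427) (nat_lit 108) (.e (nat_lit 336430) (nat_lit 29) (.e (nat_lit 442379) (nat_lit 0) .nil)))))) (.g (nat_lit 5) .nil .nil))))) (.nd (nat_lit 4) (.nd (nat_lit 5) 
(.lf (nat_lit 90317) (.g (nat_lit 3962) (.e (nat_lit 2044) (nat_lit 142) (.e (nat_lit 704734) (nat_lit 11) (.e (nat_lit 16416) (nat_lit 3) (.e (nat_lit 204861) (nat_lit 26) (.e (nat_lit 336194) (nat_lit 12) (.e (nat_lit 385068) (nat_lit 26) (.e (nat_lit 532484) (nat_lit 0) .nil))))))) (.g (nat_lit 0) .nil .nil))) 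
(.lf (nat_lit 90349) (.g (nat_lit 5054) (.e (nat_lit 2056) (nat_lit 142) (.e (nat_lit 704590) (nat_lit 3) (.e (nat_lit 163975) (nat_lit 30) (.e (nat_lit 573481) (nat_lit 13) (.e (nat_lit 65610) (nat_lit 10) (.e (nat_lit 344117) (nat_lit 21) (.e (nat_lit 516151) (nat_lit 9) (.e (nat_lit 426412) (nat_lit 15) .nil)))))))) (.g (nat_lit 7) .nil .nil)))) (.nd (nat_lit 5) 
(.lf (nat_lit 90333) (.g (nat_lit 3495) (.e (nat_lit 2046) (nat_lit 142) (.e (nat_lit 704590) (nat_lit 3) (.e (nat_lit 163975) (nat_lit 30) (.e (nat_lit 573491) (nat_lit 15) (.e (nat_lit 81954) (nat_lit 23) (.e (nat_lit 98355) (nat_lit 26) (.e (nat_lit 426402) (nat_lit 15) .nil))))))) (.g (nat_lit 0) .nil .nil))) 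
(.lf (nat_lit 90365) (.g (nat_lit 1889) (.e (nat_lit 2056) (nat_lit 142) (.e (nat_lit 704598) (nat_lit 6) (.e (nat_lit 188453) (nat_lit 24) (.e (nat_lit 229681) (nat_lit 244) (.e (nat_lit 163932) (nat_lit 17) (.e (nat_lit 466947) (nat_lit 0) .nil)))))) (.g (nat_lit 0) .nil .nil))))))) (.nd (nat_lit 2) (.nd (nat_lit 3) (.nd (nat_lit 4) (.nd (nat_lit 5) 
(.lf (nat_lit 90307) (.g (nat_lit 3045) (.e (nat_lit 2044) (nat_lit 142) (.e (nat_lit 704734) (nat_lit 11) (.e (nat_lit 16412) (nat_lit 2) (.e (nat_lit 196681) (nat_lit 17) (.e (nat_lit 131109) (nat_lit 9) (.e (nat_lit 336324) (nat_lit 18) (.e (nat_lit 204817) (nat_lit 17) .nil))))))) (.g (nat_lit 7) .nil .nil))) 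
(.lf (nat_lit 90339) (.g (nat_lit 1610) (.e (nat_lit 2046) (nat_lit 142) (.e (nat_lit 704596) (nat_lit 5) (.e (nat_lit 180277) (nat_lit 32) (.e (nat_lit 1661) (nat_lit 115) (.e (nat_lit 393269) (nat_lit 23) .nil))))) .nil))) (.nd (nat_lit 5) 
(.lf (nat_lit 90323) (.g (nat_lit 3519) (.e (nat_lit 2044) (nat_lit 142) (.e (nat_lit 704734) (nat_lit 11) (.e (nat_lit 16436) (nat_lit 9) (.e (nat_lit 426555) (nat_lit 32) (.e (nat_lit 376857) (nat_lit 21) (.e (nat_lit 57847) (nat_lit 252) (.e (nat_lit 57348) (nat_lit 0) .nil))))))) (.g (nat_lit 7) .nil .nil))) 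
(.lf (nat_lit 90355) (.g (nat_lit 3192) (.e (nat_lit 2056) (nat_lit 142) (.e (nat_lit 704595) (nat_lit 5) (.e (nat_lit 180278) (nat_lit 32) (.e (nat_lit 1427) (nat_lit 108) (.e (nat_lit 336430) (nat_lit 29) (.e (nat_lit 442379) (nat_lit 0) .nil)))))) (.g (nat_lit 0) .nil .nil))))) (.nd (nat_lit 4) (.nd (nat_lit 5) 
(.lf (nat_lit 90315) (.g (nat_lit 2657) (.e (nat_lit 2044) (nat_lit 142) (.e (nat_lit 704734) (nat_lit 11) (.e (nat_lit 16416) (nat_lit 3) (.e (nat_lit 204861) (nat_lit 26) (.e (nat_lit 336076) (nat_lit 9) (.e (nat_lit 336324) (nat_lit 18) (.e (nat_lit 204820) (nat_lit 17) .nil))))))) (.g (nat_lit 5) .nil .nil))) 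
(.lf (nat_lit 90347) (.g (nat_lit 4555) (.e (nat_lit 2056) (nat_lit 142) (.e (nat_lit 704590) (nat_lit 3) (.e (nat_lit 163973) (nat_lit 30) (.e (nat_lit 573484) (nat_lit 13) (.e (nat_lit 65610) (nat_lit 10) (.e (nat_lit 344117) (nat_lit 21) (.e (nat_lit 516151) (nat_lit 9) (.e (nat_lit 426412) (nat_lit 15) .nil)))))))) (.g (nat_lit 7) .nil .nil)))) (.nd (nat_lit 5) 
(.lf (nat_lit 90331) (.g (nat_lit 664) (.e (nat_lit 2046) (nat_lit 142) (.e (nat_lit 704514) (nat_lit 0) (.e (nat_lit 2830) (nat_lit 182) (.e (nat_lit 417536) (nat_lit 6) .nil)))) .nil)) 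
(.lf (nat_lit 90363) (.g (nat_lit 2277) (.e (nat_lit 2056) (nat_lit 142) (.e (nat_lit 704598) (nat_lit 6) (.e (nat_lit 188453) (nat_lit 24) (.e (nat_lit 229680) (nat_lit 244) (.e (nat_lit 163932) (nat_lit 17) (.e (nat_lit 466947) (nat_lit 0) .nil)))))) (.g (nat_lit 0) .nil .nil)))))) (.nd (nat_lit 3) (.nd (nat_lit 4) (.nd (nat_lit 5) 
(.lf (nat_lit 90311) (.g (nat_lit 3303) (.e (nat_lit 2044) (nat_lit 142) (.e (nat_lit 704734) (nat_lit 11) (.e (nat_lit 16412) (nat_lit 2) (.e (nat_lit 196681) (nat_lit 17) (.e (nat_lit 131123) (nat_lit 12) (.e (nat_lit 385068) (nat_lit 26) (.e (nat_lit 532484) (nat_lit 0) .nil))))))) (.g (nat_lit 0) .nil .nil))) 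
(.lf (nat_lit 90343) (.g (nat_lit 1399) (.e (nat_lit 2054) (nat_lit 142) (.e (nat_lit 704595) (nat_lit 5) (.e (nat_lit 180278) (nat_lit 32) (.e (nat_lit 1661) (nat_lit 115) (.e (nat_lit 393268) (nat_lit 23) .nil))))) .nil))) (.nd (nat_lit 5) 
(.lf (nat_lit 90327) (.g (nat_lit 2441) (.e (nat_lit 2044) (nat_lit 142) (.e (nat_lit 704734) (nat_lit 11) (.e (nat_lit 16466) (nat_lit 13) (.e (nat_lit 483393) (nat_lit 23) (.e (nat_lit 335987) (nat_lit 1) (.e (nat_lit 57854) (nat_lit 252) (.e (nat_lit 57351) (nat_lit 0) .nil))))))) (.g (nat_lit 0) .nil .nil))) 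
(.lf (nat_lit 90359) (.g (nat_lit 745) (.e (nat_lit 2056) (nat_lit 142) (.e (nat_lit 704598) (nat_lit 6) (.e (nat_lit 188417) (nat_lit 0) (.e (nat_lit 2143) (nat_lit 142) (.e (nat_lit 704597) (nat_lit 6) (.e (nat_lit 188420) (nat_lit 0) .nil)))))) (.g (nat_lit 0) .nil .nil))))) (.nd (nat_lit 4) (.nd (nat_lit 5) 
(.lf (nat_lit 90319) (.g (nat_lit 1330) (.e (nat_lit 2044) (nat_lit 142) (.e (nat_lit 704734) (nat_lit 11) (.e (nat_lit 16416) (nat_lit 3) (.e (nat_lit 204876) (nat_lit 31) (.e (nat_lit 384768) (nat_lit 3) .nil))))) .nil)) 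
(.lf (nat_lit 90351) (.g (nat_lit 2674) (.e (nat_lit 2056) (nat_lit 142) (.e (nat_lit 704590) (nat_lit 3) (.e (nat_lit 163975) (nat_lit 30) (.e (nat_lit 573491) (nat_lit 15) (.e (nat_lit 81954) (nat_lit 23) (.e (nat_lit 98356) (nat_lit 26) (.e (nat_lit 426364) (nat_lit 15) .nil))))))) (.g (nat_lit 5) .nil .nil)))) (.nd (nat_lit 5) 
(.lf (nat_lit 90335) (.g (nat_lit 1935) (.e (nat_lit 2046) (nat_lit 142) (.e (nat_lit 704590) (nat_lit 3) (.e (nat_lit 163975) (nat_lit 30) (.e (nat_lit 573491) (nat_lit 15) (.e (nat_lit 81956) (nat_lit 23) .nil))))) .nil)) 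
(.lf (nat_lit 90367) (.g (nat_lit 1842) (.e (nat_lit 2056) (nat_lit 142) (.e (nat_lit 704598) (nat_lit 6) (.e (nat_lit 188455) (nat_lit 24) (.e (nat_lit 229681) (nat_lit 244) (.e (nat_lit 163931) (nat_lit 17) (.e (nat_lit 466947) (nat_lit 0) .nil)))))) (.g (nat_lit 0) .nil .nil)))))))))

noncomputable def tv1236 : DT := (.nd (nat_lit 0) (.nd (nat_lit 1) (.nd (nat_lit 2) (.nd (nat_lit 3) (.nd (nat_lit 4) (.nd (nat_lit 5) 
(.lf (nat_lit 90368) (.g (nat_lit 1760) (.e (nat_lit 2056) (nat_lit 142) (.e (nat_lit 704598) (nat_lit 6) (.e (nat_lit 188455) (nat_lit 24) (.e (nat_lit 229681) (nat_lit 244) (.e (nat_lit 163932) (nat_lit 17) (.e (nat_lit 466947) (nat_lit 0) .nil)))))) (.g (nat_lit 0) .nil .nil))) 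
(.lf (nat_lit 90400) (.g (nat_lit 5204) (.e (nat_lit 2058) (nat_lit 142) (.e (nat_lit 704589) (nat_lit 3) (.e (nat_lit 163975) (nat_lit 30) (.e (nat_lit 573479) (nat_lit 13) (.e (nat_lit 65610) (nat_lit 10) (.e (nat_lit 344117) (nat_lit 21) (.e (nat_lit 516151) (nat_lit 9) (.e (nat_lit 426412) (nat_lit 15) .nil)))))))) (.g (nat_lit 7) .nil .nil)))) (.nd (nat_lit 5) 
(.lf (nat_lit 90384) (.g (nat_lit 3188) (.e (nat_lit 2057) (nat_lit 142) (.e (nat_lit 704595) (nat_lit 5) (.e (nat_lit 180278) (nat_lit 32) (.e (nat_lit 1427) (nat_lit 108) (.e (nat_lit 336430) (nat_lit 29) (.e (nat_lit 442379) (nat_lit 0) .nil)))))) (.g (nat_lit 0) .nil .nil))) 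
(.lf (nat_lit 90416) (.g (nat_lit 2718) (.e (nat_lit 2058) (nat_lit 142) (.e (nat_lit 704590) (nat_lit 3) (.e (nat_lit 163975) (nat_lit 30) (.e (nat_lit 573491) (nat_lit 15) (.e (nat_lit 81954) (nat_lit 23) (.e (nat_lit 98356) (nat_lit 26) (.e (nat_lit 426375) (nat_lit 15) .nil))))))) (.g (nat_lit 4) .nil .nil))))) (.nd (nat_lit 4) (.nd (nat_lit 5) 
(.lf (nat_lit 90376) (.g (nat_lit 1964) (.e (nat_lit 2056) (nat_lit 142) (.e (nat_lit 704599) (nat_lit 6) (.e (nat_lit 188455) (nat_lit 24) (.e (nat_lit 229680) (nat_lit 244) (.e (nat_lit 163932) (nat_lit 17) (.e (nat_lit 466947) (nat_lit 0) .nil)))))) (.g (nat_lit 6) .nil .nil))) 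
(.lf (nat_lit 90408) (.g (nat_lit 2676) (.e (nat_lit 2058) (nat_lit 142) (.e (nat_lit 704590) (nat_lit 3) (.e (nat_lit 163975) (nat_lit 30) (.e (nat_lit 573481) (nat_lit 13) (.e (nat_lit 65619) (nat_lit 10) (.e (nat_lit 344117) (nat_lit 21) (.e (nat_lit 516144) (nat_lit 9) (.e (nat_lit 426376) (nat_lit 15) .nil)))))))) (.g (nat_lit 4) .nil .nil)))) (.nd (nat_lit 5) 
(.lf (nat_lit 90392) (.g (nat_lit 661) (.e (nat_lit 2057) (nat_lit 142) (.e (nat_lit 704598) (nat_lit 6) (.e (nat_lit 188420) (nat_lit 0) (.e (nat_lit 2056) (nat_lit 142) (.e (nat_lit 704598) (nat_lit 6) (.e (nat_lit 188420) (nat_lit 0) .nil)))))) (.g (nat_lit 0) .nil .nil))) 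
(.lf (nat_lit 90424) (.g (nat_lit 3769) (.e (nat_lit 2058) (nat_lit 142) (.e (nat_lit 704592) (nat_lit 4) (.e (nat_lit 172126) (nat_lit 14) (.e (nat_lit 491550) (nat_lit 9) (.e (nat_lit 336428) (nat_lit 29) (.e (nat_lit 442374) (nat_lit 0) .nil)))))) (.g (nat_lit 6) .nil .nil)))))) (.nd (nat_lit 3) (.nd (nat_lit 4) (.nd (nat_lit 5) 
(.lf (nat_lit 90372) (.g (nat_lit 809) (.e (nat_lit 2056) (nat_lit 142) (.e (nat_lit 704599) (nat_lit 6) (.e (nat_lit 188418) (nat_lit 0) (.e (nat_lit 2057) (nat_lit 142) (.e (nat_lit 704598) (nat_lit 6) (.e (nat_lit 188420) (nat_lit 0) .nil)))))) (.g (nat_lit 6) .nil .nil))) 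
(.lf (nat_lit 90404) (.g (nat_lit 2320) (.e (nat_lit 2058) (nat_lit 142) (.e (nat_lit 704590) (nat_lit 3) (.e (nat_lit 163975) (nat_lit 30) (.e (nat_lit 573481) (nat_lit 13) (.e (nat_lit 65604) (nat_lit 9) (.e (nat_lit 336028) (nat_lit 3) (.e (nat_lit 98359) (nat_lit 26) (.e (nat_lit 426396) (nat_lit 15) .nil)))))))) (.g (nat_lit 4) .nil .nil)))) (.nd (nat_lit 5) 
(.lf (nat_lit 90388) (.g (nat_lit 590) (.e (nat_lit 2057) (nat_lit 142) (.e (nat_lit 704598) (nat_lit 6) (.e (nat_lit 188416) (nat_lit 0) (.e (nat_lit 2147) (nat_lit 142) (.e (nat_lit 704597) (nat_lit 6) .nil))))) .nil)) 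
(.lf (nat_lit 90420) (.g (nat_lit 2802) (.e (nat_lit 2058) (nat_lit 142) (.e (nat_lit 704590) (nat_lit 3) (.e (nat_lit 163975) (nat_lit 30) (.e (nat_lit 573492) (nat_lit 15) (.e (nat_lit 81951) (nat_lit 22) (.e (nat_lit 90170) (nat_lit 13) (.e (nat_lit 172138) (nat_lit 15) .nil))))))) (.g (nat_lit 4) .nil .nil))))) (.nd (nat_lit 4) (.nd (nat_lit 5) 
(.lf (nat_lit 90380) (.g (nat_lit 4832) (.e (nat_lit 2057) (nat_lit 142) (.e (nat_lit 704590) (nat_lit 3) (.e (nat_lit 163974) (nat_lit 30) (.e (nat_lit 573484) (nat_lit 13) (.e (nat_lit 65610) (nat_lit 10) (.e (nat_lit 344117) (nat_lit 21) (.e (nat_lit 516151) (nat_lit 9) (.e (nat_lit 426412) (nat_lit 15) .nil)))))))) (.g (nat_lit 7) .nil .nil))) 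
(.lf (nat_lit 90412) (.g (nat_lit 2586) (.e (nat_lit 2058) (nat_lit 142) (.e (nat_lit 704590) (nat_lit 3) (.e (nat_lit 163975) (nat_lit 30) (.e (nat_lit 573481) (nat_lit 13) (.e (nat_lit 65619) (nat_lit 10) (.e (nat_lit 344117) (nat_lit 21) (.e (nat_lit 516151) (nat_lit 9) (.e (nat_lit 426396) (nat_lit 15) .nil)))))))) (.g (nat_lit 4) .nil .nil)))) (.nd (nat_lit 5) 
(.lf (nat_lit 90396) (.g (nat_lit 1260) (.e (nat_lit 2057) (nat_lit 142) (.e (nat_lit 704598) (nat_lit 6) (.e (nat_lit 188420) (nat_lit 0) (.e (nat_lit 2059) (nat_lit 142) (.e (nat_lit 704598) (nat_lit 6) (.e (nat_lit 188420) (nat_lit 0) .nil)))))) (.g (nat_lit 0) .nil .nil))) 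
(.lf (nat_lit 90428) (.g (nat_lit 3347) (.e (nat_lit 2058) (nat_lit 142) (.e (nat_lit 704595) (nat_lit 5) (.e (nat_lit 180277) (nat_lit 32) (.e (nat_lit 1661) (nat_lit 115) (.e (nat_lit 393268) (nat_lit 23) (.e (nat_lit 426377) (nat_lit 15) .nil)))))) (.g (nat_lit 5) .nil .nil))))))) (.nd (nat_lit 2) (.nd (nat_lit 3) (.nd (nat_lit 4) (.nd (nat_lit 5) 
(.lf (nat_lit 90370) (.g (nat_lit 936) (.e (nat_lit 2056) (nat_lit 142) (.e (nat_lit 704599) (nat_lit 6) (.e (nat_lit 188416) (nat_lit 0) (.e (nat_lit 2147) (nat_lit 142) (.e (nat_lit 704597) (nat_lit 6) (.e (nat_lit 188420) (nat_lit 0) .nil)))))) (.g (nat_lit 6) .nil .nil))) 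
(.lf (nat_lit 90402) (.g (nat_lit 4891) (.e (nat_lit 2058) (nat_lit 142) (.e (nat_lit 704589) (nat_lit 3) (.e (nat_lit 163975) (nat_lit 30) (.e (nat_lit 573483) (nat_lit 13) (.e (nat_lit 65610) (nat_lit 10) (.e (nat_lit 344117) (nat_lit 21) (.e (nat_lit 516151) (nat_lit 9) (.e (nat_lit 426412) (nat_lit 15) .nil)))))))) (.g (nat_lit 7) .nil .nil)))) (.nd (nat_lit 5) 
(.lf (nat_lit 90386) (.g (nat_lit 301) (.e (nat_lit 2057) (nat_lit 142) (.e (nat_lit 704595) (nat_lit 5) (.e (nat_lit 188160) (nat_lit 32) .nil))) .nil)) 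
(.lf (nat_lit 90418) (.g (nat_lit 2167) (.e (nat_lit 2058) (nat_lit 142) (.e (nat_lit 704590) (nat_lit 3) (.e (nat_lit 163975) (nat_lit 30) (.e (nat_lit 573491) (nat_lit 15) (.e (nat_lit 81954) (nat_lit 23) (.e (nat_lit 98359) (nat_lit 26) (.e (nat_lit 426410) (nat_lit 15) .nil))))))) (.g (nat_lit 4) .nil .nil))))) (.nd (nat_lit 4) (.nd (nat_lit 5) 
(.lf (nat_lit 90378) (.g (nat_lit 5203) (.e (nat_lit 2057) (nat_lit 142) (.e (nat_lit 704589) (nat_lit 3) (.e (nat_lit 163974) (nat_lit 30) (.e (nat_lit 573484) (nat_lit 13) (.e (nat_lit 65610) (nat_lit 10) (.e (nat_lit 344117) (nat_lit 21) (.e (nat_lit 516151) (nat_lit 9) (.e (nat_lit 426412) (nat_lit 15) .nil)))))))) (.g (nat_lit 8) .nil .nil))) 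
(.lf (nat_lit 90410) (.g (nat_lit 2499) (.e (nat_lit 2058) (nat_lit 142) (.e (nat_lit 704590) (nat_lit 3) (.e (nat_lit 163975) (nat_lit 30) (.e (nat_lit 573481) (nat_lit 13) (.e (nat_lit 65619) (nat_lit 10) (.e (nat_lit 344117) (nat_lit 21) (.e (nat_lit 516144) (nat_lit 9) (.e (nat_lit 426420) (nat_lit 15) .nil)))))))) (.g (nat_lit 4) .nil .nil)))) (.nd (nat_lit 5) 
(.lf (nat_lit 90394) (.g (nat_lit 1128) (.e (nat_lit 2057) (nat_lit 142) (.e (nat_lit 704598) (nat_lit 6) (.e (nat_lit 188420) (nat_lit 0) (.e (nat_lit 2058) (nat_lit 142) (.e (nat_lit 704598) (nat_lit 6) (.e (nat_lit 188420) (nat_lit 0) .nil)))))) (.g (nat_lit 0) .nil .nil))) 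
(.lf (nat_lit 90426) (.g (nat_lit 3456) (.e (nat_lit 2058) (nat_lit 142) (.e (nat_lit 704595) (nat_lit 5) (.e (nat_lit 180277) (nat_lit 32) (.e (nat_lit 1661) (nat_lit 115) (.e (nat_lit 393268) (nat_lit 23) (.e (nat_lit 426375) (nat_lit 15) .nil)))))) (.g (nat_lit 5) .nil .nil)))))) (.nd (nat_lit 3) (.nd (nat_lit 4) (.nd (nat_lit 5) 
(.lf (nat_lit 90374) (.g (nat_lit 277) (.e (nat_lit 2056) (nat_lit 142) (.e (nat_lit 704599) (nat_lit 6) (.e (nat_lit 188430) (nat_lit 20) .nil))) .nil)) 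
(.lf (nat_lit 90406) (.g (nat_lit 3920) (.e (nat_lit 2058) (nat_lit 142) (.e (nat_lit 704590) (nat_lit 3) (.e (nat_lit 163975) (nat_lit 30) (.e (nat_lit 573481) (nat_lit 13) (.e (nat_lit 65604) (nat_lit 9) (.e (nat_lit 336028) (nat_lit 3) (.e (nat_lit 98359) (nat_lit 26) (.e (nat_lit 426412) (nat_lit 15) .nil)))))))) (.g (nat_lit 6) .nil .nil)))) (.nd (nat_lit 5) 
(.lf (nat_lit 90390) (.g (nat_lit 758) (.e (nat_lit 2057) (nat_lit 142) (.e (nat_lit 704598) (nat_lit 6) (.e (nat_lit 188417) (nat_lit 0) (.e (nat_lit 2147) (nat_lit 142) (.e (nat_lit 704597) (nat_lit 6) (.e (nat_lit 188420) (nat_lit 0) .nil)))))) (.g (nat_lit 0) .nil .nil))) 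
(.lf (nat_lit 90422) (.g (nat_lit 3423) (.e (nat_lit 2058) (nat_lit 142) (.e (nat_lit 704590) (nat_lit 3) (.e (nat_lit 163975) (nat_lit 30) (.e (nat_lit 573492) (nat_lit 15) (.e (nat_lit 81956) (nat_lit 23) (.e (nat_lit 98359) (nat_lit 26) (.e (nat_lit 426412) (nat_lit 15) .nil))))))) (.g (nat_lit 5) .nil .nil))))) (.nd (nat_lit 4) (.nd (nat_lit 5) 
(.lf (nat_lit 90382) (.g (nat_lit 1950) (.e (nat_lit 2057) (nat_lit 142) (.e (nat_lit 704590) (nat_lit 3) (.e (nat_lit 163975) (nat_lit 30) (.e (nat_lit 573491) (nat_lit 15) (.e (nat_lit 81954) (nat_lit 23) .nil))))) .nil)) 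
(.lf (nat_lit 90414) (.g (nat_lit 4573) (.e (nat_lit 2058) (nat_lit 142) (.e (nat_lit 704590) (nat_lit 3) (.e (nat_lit 163975) (nat_lit 30) (.e (nat_lit 573481) (nat_lit 13) (.e (nat_lit 65619) (nat_lit 10) (.e (nat_lit 344117) (nat_lit 21) (.e (nat_lit 516151) (nat_lit 9) (.e (nat_lit 426412) (nat_lit 15) .nil)))))))) (.g (nat_lit 7) .nil .nil)))) (.nd (nat_lit 5) 
(.lf (nat_lit 90398) (.g (nat_lit 2989) (.e (nat_lit 2058) (nat_lit 142) (.e (nat_lit 704589) (nat_lit 3) (.e (nat_lit 163973) (nat_lit 30) (.e (nat_lit 573484) (nat_lit 13) (.e (nat_lit 65610) (nat_lit 10) (.e (nat_lit 344117) (nat_lit 21) (.e (nat_lit 516151) (nat_lit 9) (.e (nat_lit 426412) (nat_lit 15) .nil)))))))) (.g (nat_lit 5) .nil .nil))) 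
(.lf (nat_lit 90430) (.g (nat_lit 3451) (.e (nat_lit 2058) (nat_lit 142) (.e (nat_lit 704595) (nat_lit 5) (.e (nat_lit 180277) (nat_lit 32) (.e (nat_lit 1661) (nat_lit 115) (.e (nat_lit 393268) (nat_lit 23) (.e (nat_lit 426393) (nat_lit 15) .nil)))))) (.g (nat_lit 5) .nil .nil)))))))) (.nd (nat_lit 1) (.nd (nat_lit 2) (.nd (nat_lit 3) (.nd (nat_lit 4) (.nd (nat_lit 5) 
(.lf (nat_lit 90369) (.g (nat_lit 667) (.e (nat_lit 2056) (nat_lit 142) (.e (nat_lit 704599) (nat_lit 6) (.e (nat_lit 188416) (nat_lit 0) (.e (nat_lit 2147) (nat_lit 142) (.e (nat_lit 704597) (nat_lit 6) .nil))))) .nil)) 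
(.lf (nat_lit 90401) (.g (nat_lit 2252) (.e (nat_lit 2058) (nat_lit 142) (.e (nat_lit 704589) (nat_lit 3) (.e (nat_lit 163975) (nat_lit 30) (.e (nat_lit 573479) (nat_lit 13) (.e (nat_lit 65619) (nat_lit 10) (.e (nat_lit 344117) (nat_lit 21) (.e (nat_lit 516151) (nat_lit 9) (.e (nat_lit 426412) (nat_lit 15) .nil)))))))) (.g (nat_lit 4) .nil .nil)))) (.nd (nat_lit 5) 
(.lf (nat_lit 90385) (.g (nat_lit 2255) (.e (nat_lit 2057) (nat_lit 142) (.e (nat_lit 704595) (nat_lit 5) (.e (nat_lit 180278) (nat_lit 32) (.e (nat_lit 1661) (nat_lit 115) (.e (nat_lit 393268) (nat_lit 23) (.e (nat_lit 426416) (nat_lit 15) .nil)))))) (.g (nat_lit 6) .nil .nil))) 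
(.lf (nat_lit 90417) (.g (nat_lit 2371) (.e (nat_lit 2058) (nat_lit 142) (.e (nat_lit 704590) (nat_lit 3) (.e (nat_lit 163975) (nat_lit 30) (.e (nat_lit 573491) (nat_lit 15) (.e (nat_lit 81954) (nat_lit 23) (.e (nat_lit 98356) (nat_lit 26) (.e (nat_lit 426416) (nat_lit 15) .nil))))))) (.g (nat_lit 4) .nil .nil))))) (.nd (nat_lit 4) (.nd (nat_lit 5) 
(.lf (nat_lit 90377) (.g (nat_lit 1769) (.e (nat_lit 2056) (nat_lit 142) (.e (nat_lit 704599) (nat_lit 6) (.e (nat_lit 188455) (nat_lit 24) (.e (nat_lit 229681) (nat_lit 244) (.e (nat_lit 163932) (nat_lit 17) (.e (nat_lit 466947) (nat_lit 0) .nil)))))) (.g (nat_lit 6) .nil .nil))) 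
(.lf (nat_lit 90409) (.g (nat_lit 2662) (.e (nat_lit 2058) (nat_lit 142) (.e (nat_lit 704590) (nat_lit 3) (.e (nat_lit 163975) (nat_lit 30) (.e (nat_lit 573481) (nat_lit 13) (.e (nat_lit 65619) (nat_lit 10) (.e (nat_lit 344117) (nat_lit 21) (.e (nat_lit 516144) (nat_lit 9) (.e (nat_lit 426393) (nat_lit 15) .nil)))))))) (.g (nat_lit 4) .nil .nil)))) (.nd (nat_lit 5) 
(.lf (nat_lit 90393) (.g (nat_lit 692) (.e (nat_lit 2057) (nat_lit 142) (.e (nat_lit 704598) (nat_lit 6) (.e (nat_lit 188420) (nat_lit 0) (.e (nat_lit 2057) (nat_lit 142) (.e (nat_lit 704598) (nat_lit 6) (.e (nat_lit 188420) (nat_lit 0) .nil)))))) (.g (nat_lit 0) .nil .nil))) 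
(.lf (nat_lit 90425) (.g (nat_lit 1533) (.e (nat_lit 2058) (nat_lit 142) (.e (nat_lit 704595) (nat_lit 5) (.e (nat_lit 180268) (nat_lit 24) (.e (nat_lit 688180) (nat_lit 17) (.e (nat_lit 73753) (nat_lit 8) (.e (nat_lit 557101) (nat_lit 13) (.e (nat_lit 172136) (nat_lit 15) .nil))))))) (.g (nat_lit 4) .nil .nil)))))) (.nd (nat_lit 3) (.nd (nat_lit 4) (.nd (nat_lit 5) 
(.lf (nat_lit 90373) (.g (nat_lit 1053) (.e (nat_lit 2056) (nat_lit 142) (.e (nat_lit 704599) (nat_lit 6) (.e (nat_lit 188418) (nat_lit 0) (.e (nat_lit 2058) (nat_lit 142) (.e (nat_lit 704599) (nat_lit 6) (.e (nat_lit 188418) (nat_lit 0) .nil)))))) (.g (nat_lit 4) .nil .nil))) 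
(.lf (nat_lit 90405) (.g (nat_lit 2572) (.e (nat_lit 2058) (nat_lit 142) (.e (nat_lit 704590) (nat_lit 3) (.e (nat_lit 163975) (nat_lit 30) (.e (nat_lit 573481) (nat_lit 13) (.e (nat_lit 65604) (nat_lit 9) (.e (nat_lit 336028) (nat_lit 3) (.e (nat_lit 98359) (nat_lit 26) (.e (nat_lit 426410) (nat_lit 15) .nil)))))))) (.g (nat_lit 4) .nil .nil)))) (.nd (nat_lit 5) 
(.lf (nat_lit 90389) (.g (nat_lit 842) (.e (nat_lit 2057) (nat_lit 142) (.e (nat_lit 704598) (nat_lit 6) (.e (nat_lit 188417) (nat_lit 0) (.e (nat_lit 2147) (nat_lit 142) (.e (nat_lit 704597) (nat_lit 6) (.e (nat_lit 188418) (nat_lit 0) .nil)))))) (.g (nat_lit 6) .nil .nil))) 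
(.lf (nat_lit 90421) (.g (nat_lit 2270) (.e (nat_lit 2058) (nat_lit 142) (.e (nat_lit 704590) (nat_lit 3) (.e (nat_lit 163975) (nat_lit 30) (.e (nat_lit 573492) (nat_lit 15) (.e (nat_lit 81956) (nat_lit 23) (.e (nat_lit 98359) (nat_lit 26) (.e (nat_lit 426410) (nat_lit 15) .nil))))))) (.g (nat_lit 4) .nil .nil))))) (.nd (nat_lit 4) (.nd (nat_lit 5) 
(.lf (nat_lit 90381) (.g (nat_lit 2732) (.e (nat_lit 2057) (nat_lit 142) (.e (nat_lit 704590) (nat_lit 3) (.e (nat_lit 163975) (nat_lit 30) (.e (nat_lit 573491) (nat_lit 15) (.e (nat_lit 81951) (nat_lit 22) (.e (nat_lit 90170) (nat_lit 13) (.e (nat_lit 172138) (nat_lit 15) .nil))))))) (.g (nat_lit 5) .nil .nil))) 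
(.lf (nat_lit 90413) (.g (nat_lit 3581) (.e (nat_lit 2058) (nat_lit 142) (.e (nat_lit 704590) (nat_lit 3) (.e (nat_lit 163975) (nat_lit 30) (.e (nat_lit 573481) (nat_lit 13) (.e (nat_lit 65619) (nat_lit 10) (.e (nat_lit 344117) (nat_lit 21) (.e (nat_lit 516151) (nat_lit 9) (.e (nat_lit 426410) (nat_lit 15) .nil)))))))) (.g (nat_lit 5) .nil .nil)))) (.nd (nat_lit 5) 
(.lf (nat_lit 90397) (.g (nat_lit 1317) (.e (nat_lit 2057) (nat_lit 142) (.e (nat_lit 704598) (nat_lit 6) (.e (nat_lit 188420) (nat_lit 0) (.e (nat_lit 2059) (nat_lit 142) (.e (nat_lit 704599) (nat_lit 6) (.e (nat_lit 188418) (nat_lit 0) .nil)))))) (.g (nat_lit 6) .nil .nil))) 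
(.lf (nat_lit 90429) (.g (nat_lit 3368) (.e (nat_lit 2058) (nat_lit 142) (.e (nat_lit 704595) (nat_lit 5) (.e (nat_lit 180277) (nat_lit 32) (.e (nat_lit 1661) (nat_lit 115) (.e (nat_lit 393268) (nat_lit 23) (.e (nat_lit 426381) (nat_lit 15) .nil)))))) (.g (nat_lit 5) .nil .nil))))))) (.nd (nat_lit 2) (.nd (nat_lit 3) (.nd (nat_lit 4) (.nd (nat_lit 5) 
(.lf (nat_lit 90371) (.g (nat_lit 472) (.e (nat_lit 2056) (nat_lit 142) (.e (nat_lit 704599) (nat_lit 6) (.e (nat_lit 188418) (nat_lit 0) (.e (nat_lit 2056) (nat_lit 142) .nil)))) .nil)) 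
(.lf (nat_lit 90403) (.g (nat_lit 4547) (.e (nat_lit 2058) (nat_lit 142) (.e (nat_lit 704590) (nat_lit 3) (.e (nat_lit 163975) (nat_lit 30) (.e (nat_lit 573481) (nat_lit 13) (.e (nat_lit 65604) (nat_lit 9) (.e (nat_lit 336013) (nat_lit 2) (.e (nat_lit 90170) (nat_lit 13) (.e (nat_lit 172138) (nat_lit 15) .nil)))))))) (.g (nat_lit 7) .nil .nil)))) (.nd (nat_lit 5) 
(.lf (nat_lit 90387) (.g (nat_lit 218) (.e (nat_lit 2057) (nat_lit 142) (.e (nat_lit 704596) (nat_lit 5) (.e (nat_lit 188160) (nat_lit 32) .nil))) .nil)) 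
(.lf (nat_lit 90419) (.g (nat_lit 2965) (.e (nat_lit 2058) (nat_lit 142) (.e (nat_lit 704590) (nat_lit 3) (.e (nat_lit 163975) (nat_lit 30) (.e (nat_lit 573491) (nat_lit 15) (.e (nat_lit 81954) (nat_lit 23) (.e (nat_lit 98359) (nat_lit 26) (.e (nat_lit 426412) (nat_lit 15) .nil))))))) (.g (nat_lit 5) .nil .nil))))) (.nd (nat_lit 4) (.nd (nat_lit 5) 
(.lf (nat_lit 90379) (.g (nat_lit 3443) (.e (nat_lit 2057) (nat_lit 142) (.e (nat_lit 704590) (nat_lit 3) (.e (nat_lit 163973) (nat_lit 30) (.e (nat_lit 573484) (nat_lit 13) (.e (nat_lit 65610) (nat_lit 10) (.e (nat_lit 344117) (nat_lit 21) (.e (nat_lit 516151) (nat_lit 9) (.e (nat_lit 426412) (nat_lit 15) .nil)))))))) (.g (nat_lit 5) .nil .nil))) 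
(.lf (nat_lit 90411) (.g (nat_lit 2359) (.e (nat_lit 2058) (nat_lit 142) (.e (nat_lit 704590) (nat_lit 3) (.e (nat_lit 163975) (nat_lit 30) (.e (nat_lit 573481) (nat_lit 13) (.e (nat_lit 65619) (nat_lit 10) (.e (nat_lit 344117) (nat_lit 21) (.e (nat_lit 516147) (nat_lit 9) (.e (nat_lit 426375) (nat_lit 15) .nil)))))))) (.g (nat_lit 4) .nil .nil)))) (.nd (nat_lit 5) 
(.lf (nat_lit 90395) (.g (nat_lit 1250) (.e (nat_lit 2057) (nat_lit 142) (.e (nat_lit 704598) (nat_lit 6) (.e (nat_lit 188420) (nat_lit 0) (.e (nat_lit 2058) (nat_lit 142) (.e (nat_lit 704599) (nat_lit 6) (.e (nat_lit 188418) (nat_lit 0) .nil)))))) (.g (nat_lit 6) .nil .nil))) 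
(.lf (nat_lit 90427) (.g (nat_lit 3374) (.e (nat_lit 2058) (nat_lit 142) (.e (nat_lit 704595) (nat_lit 5) (.e (nat_lit 180277) (nat_lit 32) (.e (nat_lit 1661) (nat_lit 115) (.e (nat_lit 393268) (nat_lit 23) (.e (nat_lit 426376) (nat_lit 15) .nil)))))) (.g (nat_lit 5) .nil .nil)))))) (.nd (nat_lit 3) (.nd (nat_lit 4) (.nd (nat_lit 5) 
(.lf (nat_lit 90375) (.g (nat_lit 1825) (.e (nat_lit 2056) (nat_lit 142) (.e (nat_lit 704599) (nat_lit 6) (.e (nat_lit 188453) (nat_lit 24) (.e (nat_lit 229681) (nat_lit 244) (.e (nat_lit 163931) (nat_lit 17) (.e (nat_lit 466947) (nat_lit 0) .nil)))))) (.g (nat_lit 0) .nil .nil))) 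
(.lf (nat_lit 90407) (.g (nat_lit 3424) (.e (nat_lit 2058) (nat_lit 142) (.e (nat_lit 704590) (nat_lit 3) (.e (nat_lit 163975) (nat_lit 30) (.e (nat_lit 573481) (nat_lit 13) (.e (nat_lit 65619) (nat_lit 10) (.e (nat_lit 344117) (nat_lit 21) (.e (nat_lit 516144) (nat_lit 9) (.e (nat_lit 426375) (nat_lit 15) .nil)))))))) (.g (nat_lit 5) .nil .nil)))) (.nd (nat_lit 5) 
(.lf (nat_lit 90391) (.g (nat_lit 521) (.e (nat_lit 2057) (nat_lit 142) (.e (nat_lit 704598) (nat_lit 6) (.e (nat_lit 188417) (nat_lit 0) (.e (nat_lit 2148) (nat_lit 142) (.e (nat_lit 704597) (nat_lit 6) (.e (nat_lit 188420) (nat_lit 0) .nil)))))) (.g (nat_lit 0) .nil .nil))) 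
(.lf (nat_lit 90423) (.g (nat_lit 3957) (.e (nat_lit 2058) (nat_lit 142) (.e (nat_lit 704592) (nat_lit 4) (.e (nat_lit 172126) (nat_lit 14) (.e (nat_lit 491549) (nat_lit 9) (.e (nat_lit 336428) (nat_lit 29) (.e (nat_lit 442374) (nat_lit 0) .nil)))))) (.g (nat_lit 6) .nil .nil))))) (.nd (nat_lit 4) (.nd (nat_lit 5) 
(.lf (nat_lit 90383) (.g (nat_lit 2317) (.e (nat_lit 2057) (nat_lit 142) (.e (nat_lit 704595) (nat_lit 5) (.e (nat_lit 180277) (nat_lit 32) (.e (nat_lit 1661) (nat_lit 115) (.e (nat_lit 393268) (nat_lit 23) (.e (nat_lit 426416) (nat_lit 15) .nil)))))) (.g (nat_lit 5) .nil .nil))) 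
(.lf (nat_lit 90415) (.g (nat_lit 3703) (.e (nat_lit 2058) (nat_lit 142) (.e (nat_lit 704590) (nat_lit 3) (.e (nat_lit 163975) (nat_lit 30) (.e (nat_lit 573491) (nat_lit 15) (.e (nat_lit 81951) (nat_lit 22) (.e (nat_lit 90170) (nat_lit 13) (.e (nat_lit 172138) (nat_lit 15) .nil))))))) (.g (nat_lit 6) .nil .nil)))) (.nd (nat_lit 5) 
(.lf (nat_lit 90399) (.g (nat_lit 5739) (.e (nat_lit 2058) (nat_lit 142) (.e (nat_lit 704589) (nat_lit 3) (.e (nat_lit 163974) (nat_lit 30) (.e (nat_lit 573484) (nat_lit 13) (.e (nat_lit 65610) (nat_lit 10) (.e (nat_lit 344117) (nat_lit 21) (.e (nat_lit 516151) (nat_lit 9) (.e (nat_lit 426412) (nat_lit 15) .nil)))))))) (.g (nat_lit 8) .nil .nil))) 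
(.lf (nat_lit 90431) (.g (nat_lit 2849) (.e (nat_lit 2058) (nat_lit 142) (.e (nat_lit 704595) (nat_lit 5) (.e (nat_lit 180277) (nat_lit 32) (.e (nat_lit 1661) (nat_lit 115) (.e (nat_lit 393268) (nat_lit 23) (.e (nat_lit 426416) (nat_lit 15) .nil)))))) (.g (nat_lit 5) .nil .nil)))))))))

noncomputable def tv1237 : DT := (.nd (nat_lit 0) (.nd (nat_lit 1) (.nd (nat_lit 2) (.nd (nat_lit 3) (.nd (nat_lit 4) (.nd (nat_lit 5) 
(.lf (nat_lit 90432) (.g (nat_lit 3574) (.e (nat_lit 2058) (nat_lit 142) (.e (nat_lit 704595) (nat_lit 5) (.e (nat_lit 180277) (nat_lit 32) (.e (nat_lit 1661) (nat_lit 115) (.e (nat_lit 393268) (nat_lit 23) (.e (nat_lit 426420) (nat_lit 15) .nil)))))) (.g (nat_lit 5) .nil .nil))) 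
(.lf (nat_lit 90464) (.g (nat_lit 2682) (.e (nat_lit 2059) (nat_lit 142) (.e (nat_lit 704589) (nat_lit 3) (.e (nat_lit 163974) (nat_lit 30) (.e (nat_lit 573484) (nat_lit 13) (.e (nat_lit 65610) (nat_lit 10) (.e (nat_lit 344117) (nat_lit 21) (.e (nat_lit 516151) (nat_lit 9) (.e (nat_lit 426396) (nat_lit 15) .nil)))))))) (.g (nat_lit 4) .nil .nil)))) (.nd (nat_lit 5) 
(.lf (nat_lit 90448) (.g (nat_lit 3392) (.e (nat_lit 2058) (nat_lit 142) (.e (nat_lit 704595) (nat_lit 5) (.e (nat_lit 180278) (nat_lit 32) (.e (nat_lit 1661) (nat_lit 115) (.e (nat_lit 393268) (nat_lit 23) (.e (nat_lit 426393) (nat_lit 15) .nil)))))) (.g (nat_lit 5) .nil .nil))) 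
(.lf (nat_lit 90480) (.g (nat_lit 2699) (.e (nat_lit 2059) (nat_lit 142) (.e (nat_lit 704590) (nat_lit 3) (.e (nat_lit 163975) (nat_lit 30) (.e (nat_lit 573481) (nat_lit 13) (.e (nat_lit 65619) (nat_lit 10) (.e (nat_lit 344117) (nat_lit 21) (.e (nat_lit 516145) (nat_lit 9) (.e (nat_lit 426416) (nat_lit 15) .nil)))))))) (.g (nat_lit 4) .nil .nil))))) (.nd (nat_lit 4) (.nd (nat_lit 5) 
(.lf (nat_lit 90440) (.g (nat_lit 2778) (.e (nat_lit 2058) (nat_lit 142) (.e (nat_lit 704595) (nat_lit 5) (.e (nat_lit 180278) (nat_lit 32) (.e (nat_lit 1427) (nat_lit 108) (.e (nat_lit 336430) (nat_lit 29) (.e (nat_lit 442377) (nat_lit 0) .nil)))))) (.g (nat_lit 5) .nil .nil))) 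
(.lf (nat_lit 90472) (.g (nat_lit 4069) (.e (nat_lit 2059) (nat_lit 142) (.e (nat_lit 704589) (nat_lit 3) (.e (nat_lit 163978) (nat_lit 30) (.e (nat_lit 573483) (nat_lit 13) (.e (nat_lit 65610) (nat_lit 10) (.e (nat_lit 344117) (nat_lit 21) (.e (nat_lit 516151) (nat_lit 9) (.e (nat_lit 426412) (nat_lit 15) .nil)))))))) (.g (nat_lit 5) .nil .nil)))) (.nd (nat_lit 5) 
(.lf (nat_lit 90456) (.g (nat_lit 1178) (.e (nat_lit 2058) (nat_lit 142) (.e (nat_lit 704598) (nat_lit 6) (.e (nat_lit 188416) (nat_lit 0) (.e (nat_lit 2147) (nat_lit 142) (.e (nat_lit 704597) (nat_lit 6) (.e (nat_lit 188418) (nat_lit 0) .nil)))))) (.g (nat_lit 5) .nil .nil))) 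
(.lf (nat_lit 90488) (.g (nat_lit 2386) (.e (nat_lit 2059) (nat_lit 142) (.e (nat_lit 704590) (nat_lit 3) (.e (nat_lit 163975) (nat_lit 30) (.e (nat_lit 573491) (nat_lit 15) (.e (nat_lit 81952) (nat_lit 22) (.e (nat_lit 90169) (nat_lit 13) (.e (nat_lit 172133) (nat_lit 15) .nil))))))) (.g (nat_lit 4) .nil .nil)))))) (.nd (nat_lit 3) (.nd (nat_lit 4) (.nd (nat_lit 5) 
(.lf (nat_lit 90436) (.g (nat_lit 2245) (.e (nat_lit 2058) (nat_lit 142) (.e (nat_lit 704595) (nat_lit 5) (.e (nat_lit 180277) (nat_lit 32) (.e (nat_lit 1661) (nat_lit 115) (.e (nat_lit 393275) (nat_lit 23) (.e (nat_lit 426380) (nat_lit 15) .nil)))))) (.g (nat_lit 4) .nil .nil))) 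
(.lf (nat_lit 90468) (.g (nat_lit 4978) (.e (nat_lit 2059) (nat_lit 142) (.e (nat_lit 704589) (nat_lit 3) (.e (nat_lit 163976) (nat_lit 30) (.e (nat_lit 573479) (nat_lit 13) (.e (nat_lit 65610) (nat_lit 10) (.e (nat_lit 344117) (nat_lit 21) (.e (nat_lit 516151) (nat_lit 9) (.e (nat_lit 426412) (nat_lit 15) .nil)))))))) (.g (nat_lit 7) .nil .nil)))) (.nd (nat_lit 5) 
(.lf (nat_lit 90452) (.g (nat_lit 1889) (.e (nat_lit 2058) (nat_lit 142) (.e (nat_lit 704595) (nat_lit 5) (.e (nat_lit 180278) (nat_lit 32) (.e (nat_lit 1661) (nat_lit 115) (.e (nat_lit 393275) (nat_lit 23) (.e (nat_lit 426410) (nat_lit 15) .nil)))))) (.g (nat_lit 4) .nil .nil))) 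
(.lf (nat_lit 90484) (.g (nat_lit 3101) (.e (nat_lit 2059) (nat_lit 142) (.e (nat_lit 704590) (nat_lit 3) (.e (nat_lit 163975) (nat_lit 30) (.e (nat_lit 573491) (nat_lit 15) (.e (nat_lit 81951) (nat_lit 22) (.e (nat_lit 90167) (nat_lit 13) (.e (nat_lit 172133) (nat_lit 15) .nil))))))) (.g (nat_lit 5) .nil .nil))))) (.nd (nat_lit 4) (.nd (nat_lit 5) 
(.lf (nat_lit 90444) (.g (nat_lit 1776) (.e (nat_lit 2058) (nat_lit 142) (.e (nat_lit 704595) (nat_lit 5) (.e (nat_lit 180278) (nat_lit 32) (.e (nat_lit 1660) (nat_lit 115) (.e (nat_lit 393281) (nat_lit 23) (.e (nat_lit 426413) (nat_lit 15) .nil)))))) (.g (nat_lit 4) .nil .nil))) 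
(.lf (nat_lit 90476) (.g (nat_lit 2523) (.e (nat_lit 2059) (nat_lit 142) (.e (nat_lit 704590) (nat_lit 3) (.e (nat_lit 163975) (nat_lit 30) (.e (nat_lit 573481) (nat_lit 13) (.e (nat_lit 65604) (nat_lit 9) (.e (nat_lit 336028) (nat_lit 3) (.e (nat_lit 98359) (nat_lit 26) (.e (nat_lit 426410) (nat_lit 15) .nil)))))))) (.g (nat_lit 4) .nil .nil)))) (.nd (nat_lit 5) 
(.lf (nat_lit 90460) (.g (nat_lit 1273) (.e (nat_lit 2058) (nat_lit 142) (.e (nat_lit 704598) (nat_lit 6) (.e (nat_lit 188418) (nat_lit 0) (.e (nat_lit 2059) (nat_lit 142) (.e (nat_lit 704598) (nat_lit 6) (.e (nat_lit 188420) (nat_lit 0) .nil)))))) (.g (nat_lit 4) .nil .nil))) 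
(.lf (nat_lit 90492) (.g (nat_lit 5884) (.e (nat_lit 2059) (nat_lit 142) (.e (nat_lit 704590) (nat_lit 3) (.e (nat_lit 163975) (nat_lit 30) (.e (nat_lit 573492) (nat_lit 15) (.e (nat_lit 81953) (nat_lit 22) (.e (nat_lit 90167) (nat_lit 13) (.e (nat_lit 172133) (nat_lit 15) .nil))))))) (.g (nat_lit 5) .nil .nil))))))) (.nd (nat_lit 2) (.nd (nat_lit 3) (.nd (nat_lit 4) (.nd (nat_lit 5) 
(.lf (nat_lit 90434) (.g (nat_lit 2216) (.e (nat_lit 2058) (nat_lit 142) (.e (nat_lit 704595) (nat_lit 5) (.e (nat_lit 180277) (nat_lit 32) (.e (nat_lit 1661) (nat_lit 115) (.e (nat_lit 393274) (nat_lit 23) (.e (nat_lit 426380) (nat_lit 15) .nil)))))) (.g (nat_lit 4) .nil .nil))) 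
(.lf (nat_lit 90466) (.g (nat_lit 1993) (.e (nat_lit 2059) (nat_lit 142) (.e (nat_lit 704589) (nat_lit 3) (.e (nat_lit 163975) (nat_lit 30) (.e (nat_lit 573479) (nat_lit 13) (.e (nat_lit 65619) (nat_lit 10) .nil))))) .nil))) (.nd (nat_lit 5) 
(.lf (nat_lit 90450) (.g (nat_lit 1389) (.e (nat_lit 2058) (nat_lit 142) (.e (nat_lit 704595) (nat_lit 5) (.e (nat_lit 180278) (nat_lit 32) (.e (nat_lit 1661) (nat_lit 115) (.e (nat_lit 393269) (nat_lit 23) .nil))))) .nil)) 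
(.lf (nat_lit 90482) (.g (nat_lit 4552) (.e (nat_lit 2059) (nat_lit 142) (.e (nat_lit 704590) (nat_lit 3) (.e (nat_lit 163975) (nat_lit 30) (.e (nat_lit 573481) (nat_lit 13) (.e (nat_lit 65619) (nat_lit 10) (.e (nat_lit 344117) (nat_lit 21) (.e (nat_lit 516151) (nat_lit 9) (.e (nat_lit 426412) (nat_lit 15) .nil)))))))) (.g (nat_lit 7) .nil .nil))))) (.nd (nat_lit 4) (.nd (nat_lit 5) 
(.lf (nat_lit 90442) (.g (nat_lit 1446) (.e (nat_lit 2058) (nat_lit 142) (.e (nat_lit 704595) (nat_lit 5) (.e (nat_lit 180278) (nat_lit 32) (.e (nat_lit 1660) (nat_lit 115) (.e (nat_lit 393275) (nat_lit 23) .nil))))) .nil)) 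
(.lf (nat_lit 90474) (.g (nat_lit 3860) (.e (nat_lit 2059) (nat_lit 142) (.e (nat_lit 704590) (nat_lit 3) (.e (nat_lit 163975) (nat_lit 30) (.e (nat_lit 573481) (nat_lit 13) (.e (nat_lit 65604) (nat_lit 9) (.e (nat_lit 336013) (nat_lit 2) (.e (nat_lit 90170) (nat_lit 13) (.e (nat_lit 172138) (nat_lit 15) .nil)))))))) (.g (nat_lit 6) .nil .nil)))) (.nd (nat_lit 5) 
(.lf (nat_lit 90458) (.g (nat_lit 1423) (.e (nat_lit 2058) (nat_lit 142) (.e (nat_lit 704598) (nat_lit 6) (.e (nat_lit 188418) (nat_lit 0) (.e (nat_lit 2058) (nat_lit 142) (.e (nat_lit 704598) (nat_lit 6) (.e (nat_lit 188420) (nat_lit 0) .nil)))))) (.g (nat_lit 4) .nil .nil))) 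
(.lf (nat_lit 90490) (.g (nat_lit 2921) (.e (nat_lit 2059) (nat_lit 142) (.e (nat_lit 704590) (nat_lit 3) (.e (nat_lit 163975) (nat_lit 30) (.e (nat_lit 573492) (nat_lit 15) (.e (nat_lit 81951) (nat_lit 22) (.e (nat_lit 90169) (nat_lit 13) (.e (nat_lit 172133) (nat_lit 15) .nil))))))) (.g (nat_lit 4) .nil .nil)))))) (.nd (nat_lit 3) (.nd (nat_lit 4) (.nd (nat_lit 5) 
(.lf (nat_lit 90438) (.g (nat_lit 1904) (.e (nat_lit 2058) (nat_lit 142) (.e (nat_lit 704595) (nat_lit 5) (.e (nat_lit 180277) (nat_lit 32) (.e (nat_lit 1661) (nat_lit 115) (.e (nat_lit 393279) (nat_lit 23) (.e (nat_lit 426419) (nat_lit 15) .nil)))))) (.g (nat_lit 4) .nil .nil))) 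
(.lf (nat_lit 90470) (.g (nat_lit 2026) (.e (nat_lit 2059) (nat_lit 142) (.e (nat_lit 704589) (nat_lit 3) (.e (nat_lit 163976) (nat_lit 30) (.e (nat_lit 573479) (nat_lit 13) (.e (nat_lit 65619) (nat_lit 10) (.e (nat_lit 344117) (nat_lit 21) (.e (nat_lit 516151) (nat_lit 9) (.e (nat_lit 426412) (nat_lit 15) .nil)))))))) (.g (nat_lit 4) .nil .nil)))) (.nd (nat_lit 5) 
(.lf (nat_lit 90454) (.g (nat_lit 1853) (.e (nat_lit 2058) (nat_lit 142) (.e (nat_lit 704595) (nat_lit 5) (.e (nat_lit 180278) (nat_lit 32) (.e (nat_lit 1661) (nat_lit 115) (.e (nat_lit 393279) (nat_lit 23) (.e (nat_lit 426419) (nat_lit 15) .nil)))))) (.g (nat_lit 4) .nil .nil))) 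
(.lf (nat_lit 90486) (.g (nat_lit 3876) (.e (nat_lit 2059) (nat_lit 142) (.e (nat_lit 704590) (nat_lit 3) (.e (nat_lit 163975) (nat_lit 30) (.e (nat_lit 573491) (nat_lit 15) (.e (nat_lit 81951) (nat_lit 22) (.e (nat_lit 90169) (nat_lit 13) (.e (nat_lit 172133) (nat_lit 15) .nil))))))) (.g (nat_lit 6) .nil .nil))))) (.nd (nat_lit 4) (.nd (nat_lit 5) 
(.lf (nat_lit 90446) (.g (nat_lit 3283) (.e (nat_lit 2058) (nat_lit 142) (.e (nat_lit 704595) (nat_lit 5) (.e (nat_lit 180278) (nat_lit 32) (.e (nat_lit 1661) (nat_lit 115) (.e (nat_lit 393268) (nat_lit 23) (.e (nat_lit 426377) (nat_lit 15) .nil)))))) (.g (nat_lit 5) .nil .nil))) 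
(.lf (nat_lit 90478) (.g (nat_lit 2725) (.e (nat_lit 2059) (nat_lit 142) (.e (nat_lit 704590) (nat_lit 3) (.e (nat_lit 163975) (nat_lit 30) (.e (nat_lit 573481) (nat_lit 13) (.e (nat_lit 65619) (nat_lit 10) (.e (nat_lit 344117) (nat_lit 21) (.e (nat_lit 516144) (nat_lit 9) (.e (nat_lit 426375) (nat_lit 15) .nil)))))))) (.g (nat_lit 4) .nil .nil)))) (.nd (nat_lit 5) 
(.lf (nat_lit 90462) (.g (nat_lit 1917) (.e (nat_lit 2058) (nat_lit 142) (.e (nat_lit 704598) (nat_lit 6) (.e (nat_lit 188453) (nat_lit 24) (.e (nat_lit 229680) (nat_lit 244) (.e (nat_lit 163932) (nat_lit 17) (.e (nat_lit 466947) (nat_lit 0) .nil)))))) (.g (nat_lit 5) .nil .nil))) 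
(.lf (nat_lit 90494) (.g (nat_lit 4834) (.e (nat_lit 2059) (nat_lit 142) (.e (nat_lit 704590) (nat_lit 3) (.e (nat_lit 163975) (nat_lit 30) (.e (nat_lit 573492) (nat_lit 15) (.e (nat_lit 81953) (nat_lit 22) (.e (nat_lit 90169) (nat_lit 13) (.e (nat_lit 172133) (nat_lit 15) .nil))))))) (.g (nat_lit 6) .nil .nil)))))))) 
(.nd (nat_lit 1) (.nd (nat_lit 2) (.nd (nat_lit 3) (.nd (nat_lit 4) (.nd (nat_lit 5) 
(.lf (nat_lit 90433) (.g (nat_lit 1550) (.e (nat_lit 2058) (nat_lit 142) (.e (nat_lit 704595) (nat_lit 5) (.e (nat_lit 180277) (nat_lit 32) (.e (nat_lit 1661) (nat_lit 115) (.e (nat_lit 393269) (nat_lit 23) .nil))))) .nil)) 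
(.lf (nat_lit 90465) (.g (nat_lit 2162) (.e (nat_lit 2059) (nat_lit 142) (.e (nat_lit 704589) (nat_lit 3) (.e (nat_lit 163975) (nat_lit 30) (.e (nat_lit 573450) (nat_lit 9) (.e (nat_lit 1615) (nat_lit 113) .nil))))) .nil))) (.nd (nat_lit 5) 
(.lf (nat_lit 90449) (.g (nat_lit 2716) (.e (nat_lit 2058) (nat_lit 142) (.e (nat_lit 704595) (nat_lit 5) (.e (nat_lit 180278) (nat_lit 32) (.e (nat_lit 1661) (nat_lit 115) (.e (nat_lit 393268) (nat_lit 23) (.e (nat_lit 426416) (nat_lit 15) .nil)))))) (.g (nat_lit 6) .nil .nil))) 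
(.lf (nat_lit 90481) (.g (nat_lit 3452) (.e (nat_lit 2059) (nat_lit 142) (.e (nat_lit 704590) (nat_lit 3) (.e (nat_lit 163975) (nat_lit 30) (.e (nat_lit 573481) (nat_lit 13) (.e (nat_lit 65619) (nat_lit 10) (.e (nat_lit 344117) (nat_lit 21) (.e (nat_lit 516151) (nat_lit 9) (.e (nat_lit 426410) (nat_lit 15) .nil)))))))) (.g (nat_lit 5) .nil .nil))))) (.nd (nat_lit 4) (.nd (nat_lit 5) 
(.lf (nat_lit 90441) (.g (nat_lit 733) (.e (nat_lit 2058) (nat_lit 142) (.e (nat_lit 704595) (nat_lit 5) (.e (nat_lit 180278) (nat_lit 32) (.e (nat_lit 1428) (nat_lit 108) .nil)))) .nil)) 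
(.lf (nat_lit 90473) (.g (nat_lit 5475) (.e (nat_lit 2059) (nat_lit 142) (.e (nat_lit 704590) (nat_lit 3) (.e (nat_lit 163974) (nat_lit 30) (.e (nat_lit 573484) (nat_lit 13) (.e (nat_lit 65610) (nat_lit 10) (.e (nat_lit 344117) (nat_lit 21) (.e (nat_lit 516151) (nat_lit 9) (.e (nat_lit 426412) (nat_lit 15) .nil)))))))) (.g (nat_lit 8) .nil .nil)))) (.nd (nat_lit 5) 
(.lf (nat_lit 90457) (.g (nat_lit 1077) (.e (nat_lit 2058) (nat_lit 142) (.e (nat_lit 704598) (nat_lit 6) (.e (nat_lit 188416) (nat_lit 0) (.e (nat_lit 2147) (nat_lit 142) (.e (nat_lit 704597) (nat_lit 6) (.e (nat_lit 188420) (nat_lit 0) .nil)))))) (.g (nat_lit 4) .nil .nil))) 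
(.lf (nat_lit 90489) (.g (nat_lit 2966) (.e (nat_lit 2059) (nat_lit 142) (.e (nat_lit 704590) (nat_lit 3) (.e (nat_lit 163975) (nat_lit 30) (.e (nat_lit 573491) (nat_lit 15) (.e (nat_lit 81954) (nat_lit 23) (.e (nat_lit 98359) (nat_lit 26) (.e (nat_lit 426396) (nat_lit 15) .nil))))))) (.g (nat_lit 5) .nil .nil)))))) (.nd (nat_lit 3) (.nd (nat_lit 4) (.nd (nat_lit 5) 
(.lf (nat_lit 90437) (.g (nat_lit 1892) (.e (nat_lit 2058) (nat_lit 142) (.e (nat_lit 704595) (nat_lit 5) (.e (nat_lit 180277) (nat_lit 32) (.e (nat_lit 1661) (nat_lit 115) (.e (nat_lit 393275) (nat_lit 23) (.e (nat_lit 426410) (nat_lit 15) .nil)))))) (.g (nat_lit 4) .nil .nil))) 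
(.lf (nat_lit 90469) (.g (nat_lit 2206) (.e (nat_lit 2059) (nat_lit 142) (.e (nat_lit 704589) (nat_lit 3) (.e (nat_lit 163976) (nat_lit 30) (.e (nat_lit 573479) (nat_lit 13) (.e (nat_lit 65619) (nat_lit 10) (.e (nat_lit 344117) (nat_lit 21) (.e (nat_lit 516151) (nat_lit 9) (.e (nat_lit 426396) (nat_lit 15) .nil)))))))) (.g (nat_lit 4) .nil .nil)))) (.nd (nat_lit 5) 
(.lf (nat_lit 90453) (.g (nat_lit 1892) (.e (nat_lit 2058) (nat_lit 142) (.e (nat_lit 704595) (nat_lit 5) (.e (nat_lit 180278) (nat_lit 32) (.e (nat_lit 1661) (nat_lit 115) (.e (nat_lit 393275) (nat_lit 23) (.e (nat_lit 426411) (nat_lit 15) .nil)))))) (.g (nat_lit 4) .nil .nil))) 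
(.lf (nat_lit 90485) (.g (nat_lit 3493) (.e (nat_lit 2059) (nat_lit 142) (.e (nat_lit 704590) (nat_lit 3) (.e (nat_lit 163975) (nat_lit 30) (.e (nat_lit 573491) (nat_lit 15) (.e (nat_lit 81951) (nat_lit 22) (.e (nat_lit 90168) (nat_lit 13) (.e (nat_lit 172133) (nat_lit 15) .nil))))))) (.g (nat_lit 5) .nil .nil))))) (.nd (nat_lit 4) (.nd (nat_lit 5) 
(.lf (nat_lit 90445) (.g (nat_lit 3267) (.e (nat_lit 2058) (nat_lit 142) (.e (nat_lit 704595) (nat_lit 5) (.e (nat_lit 180278) (nat_lit 32) (.e (nat_lit 1661) (nat_lit 115) (.e (nat_lit 393268) (nat_lit 23) (.e (nat_lit 426376) (nat_lit 15) .nil)))))) (.g (nat_lit 5) .nil .nil))) 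
(.lf (nat_lit 90477) (.g (nat_lit 4592) (.e (nat_lit 2059) (nat_lit 142) (.e (nat_lit 704590) (nat_lit 3) (.e (nat_lit 163975) (nat_lit 30) (.e (nat_lit 573481) (nat_lit 13) (.e (nat_lit 65610) (nat_lit 10) (.e (nat_lit 344117) (nat_lit 21) (.e (nat_lit 516151) (nat_lit 9) (.e (nat_lit 426412) (nat_lit 15) .nil)))))))) (.g (nat_lit 6) .nil .nil)))) (.nd (nat_lit 5) 
(.lf (nat_lit 90461) (.g (nat_lit 1369) (.e (nat_lit 2058) (nat_lit 142) (.e (nat_lit 704598) (nat_lit 6) (.e (nat_lit 188418) (nat_lit 0) (.e (nat_lit 2059) (nat_lit 142) (.e (nat_lit 704599) (nat_lit 6) (.e (nat_lit 188418) (nat_lit 0) .nil)))))) (.g (nat_lit 4) .nil .nil))) 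
(.lf (nat_lit 90493) (.g (nat_lit 6316) (.e (nat_lit 2059) (nat_lit 142) (.e (nat_lit 704590) (nat_lit 3) (.e (nat_lit 163975) (nat_lit 30) (.e (nat_lit 573492) (nat_lit 15) (.e (nat_lit 81953) (nat_lit 22) (.e (nat_lit 90168) (nat_lit 13) (.e (nat_lit 172133) (nat_lit 15) .nil))))))) (.g (nat_lit 5) .nil .nil))))))) (.nd (nat_lit 2) (.nd (nat_lit 3) (.nd (nat_lit 4) (.nd (nat_lit 5) 
(.lf (nat_lit 90435) (.g (nat_lit 1788) (.e (nat_lit 2058) (nat_lit 142) (.e (nat_lit 704595) (nat_lit 5) (.e (nat_lit 180277) (nat_lit 32) (.e (nat_lit 1661) (nat_lit 115) (.e (nat_lit 393274) (nat_lit 23) (.e (nat_lit 426410) (nat_lit 15) .nil)))))) (.g (nat_lit 4) .nil .nil))) 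
(.lf (nat_lit 90467) (.g (nat_lit 3131) (.e (nat_lit 2059) (nat_lit 142) (.e (nat_lit 704589) (nat_lit 3) (.e (nat_lit 163975) (nat_lit 30) (.e (nat_lit 573479) (nat_lit 13) (.e (nat_lit 65619) (nat_lit 10) (.e (nat_lit 344117) (nat_lit 21) (.e (nat_lit 516151) (nat_lit 9) (.e (nat_lit 426396) (nat_lit 15) .nil)))))))) (.g (nat_lit 5) .nil .nil)))) (.nd (nat_lit 5) 
(.lf (nat_lit 90451) (.g (nat_lit 1774) (.e (nat_lit 2058) (nat_lit 142) (.e (nat_lit 704595) (nat_lit 5) (.e (nat_lit 180278) (nat_lit 32) (.e (nat_lit 1661) (nat_lit 115) (.e (nat_lit 393274) (nat_lit 23) (.e (nat_lit 426410) (nat_lit 15) .nil)))))) (.g (nat_lit 4) .nil .nil))) 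
(.lf (nat_lit 90483) (.g (nat_lit 4630) (.e (nat_lit 2059) (nat_lit 142) (.e (nat_lit 704590) (nat_lit 3) (.e (nat_lit 163975) (nat_lit 30) (.e (nat_lit 573484) (nat_lit 13) (.e (nat_lit 65610) (nat_lit 10) (.e (nat_lit 344117) (nat_lit 21) (.e (nat_lit 516151) (nat_lit 9) (.e (nat_lit 426412) (nat_lit 15) .nil)))))))) (.g (nat_lit 7) .nil .nil))))) (.nd (nat_lit 4) (.nd (nat_lit 5) 
(.lf (nat_lit 90443) (.g (nat_lit 1888) (.e (nat_lit 2058) (nat_lit 142) (.e (nat_lit 704595) (nat_lit 5) (.e (nat_lit 180278) (nat_lit 32) (.e (nat_lit 1660) (nat_lit 115) (.e (nat_lit 393279) (nat_lit 23) (.e (nat_lit 426419) (nat_lit 15) .nil)))))) (.g (nat_lit 4) .nil .nil))) 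
(.lf (nat_lit 90475) (.g (nat_lit 3777) (.e (nat_lit 2059) (nat_lit 142) (.e (nat_lit 704590) (nat_lit 3) (.e (nat_lit 163975) (nat_lit 30) (.e (nat_lit 573481) (nat_lit 13) (.e (nat_lit 65604) (nat_lit 9) (.e (nat_lit 336028) (nat_lit 3) (.e (nat_lit 98359) (nat_lit 26) (.e (nat_lit 426396) (nat_lit 15) .nil)))))))) (.g (nat_lit 6) .nil .nil)))) (.nd (nat_lit 5) 
(.lf (nat_lit 90459) (.g (nat_lit 1440) (.e (nat_lit 2058) (nat_lit 142) (.e (nat_lit 704598) (nat_lit 6) (.e (nat_lit 188418) (nat_lit 0) (.e (nat_lit 2058) (nat_lit 142) (.e (nat_lit 704599) (nat_lit 6) (.e (nat_lit 188418) (nat_lit 0) .nil)))))) (.g (nat_lit 4) .nil .nil))) 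
(.lf (nat_lit 90491) (.g (nat_lit 5528) (.e (nat_lit 2059) (nat_lit 142) (.e (nat_lit 704590) (nat_lit 3) (.e (nat_lit 163975) (nat_lit 30) (.e (nat_lit 573492) (nat_lit 15) (.e (nat_lit 81953) (nat_lit 22) (.e (nat_lit 90166) (nat_lit 13) (.e (nat_lit 172133) (nat_lit 15) .nil))))))) (.g (nat_lit 5) .nil .nil)))))) (.nd (nat_lit 3) (.nd (nat_lit 4) (.nd (nat_lit 5) 
(.lf (nat_lit 90439) (.g (nat_lit 2404) (.e (nat_lit 2058) (nat_lit 142) (.e (nat_lit 704595) (nat_lit 5) (.e (nat_lit 180278) (nat_lit 32) (.e (nat_lit 1427) (nat_lit 108) (.e (nat_lit 336428) (nat_lit 29) (.e (nat_lit 442372) (nat_lit 0) .nil)))))) (.g (nat_lit 4) .nil .nil))) 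
(.lf (nat_lit 90471) (.g (nat_lit 4616) (.e (nat_lit 2059) (nat_lit 142) (.e (nat_lit 704589) (nat_lit 3) (.e (nat_lit 163977) (nat_lit 30) (.e (nat_lit 573484) (nat_lit 13) (.e (nat_lit 65610) (nat_lit 10) (.e (nat_lit 344117) (nat_lit 21) (.e (nat_lit 516151) (nat_lit 9) (.e (nat_lit 426412) (nat_lit 15) .nil)))))))) (.g (nat_lit 6) .nil .nil)))) (.nd (nat_lit 5) 
(.lf (nat_lit 90455) (.g (nat_lit 2422) (.e (nat_lit 2058) (nat_lit 142) (.e (nat_lit 704596) (nat_lit 5) (.e (nat_lit 180277) (nat_lit 32) (.e (nat_lit 1428) (nat_lit 108) (.e (nat_lit 336430) (nat_lit 29) (.e (nat_lit 442379) (nat_lit 0) .nil)))))) (.g (nat_lit 5) .nil .nil))) 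
(.lf (nat_lit 90487) (.g (nat_lit 2999) (.e (nat_lit 2059) (nat_lit 142) (.e (nat_lit 704590) (nat_lit 3) (.e (nat_lit 163975) (nat_lit 30) (.e (nat_lit 573491) (nat_lit 15) (.e (nat_lit 81951) (nat_lit 22) (.e (nat_lit 90170) (nat_lit 13) (.e (nat_lit 172138) (nat_lit 15) .nil))))))) (.g (nat_lit 5) .nil .nil))))) (.nd (nat_lit 4) (.nd (nat_lit 5) 
(.lf (nat_lit 90447) (.g (nat_lit 3355) (.e (nat_lit 2058) (nat_lit 142) (.e (nat_lit 704595) (nat_lit 5) (.e (nat_lit 180278) (nat_lit 32) (.e (nat_lit 1661) (nat_lit 115) (.e (nat_lit 393268) (nat_lit 23) (.e (nat_lit 426381) (nat_lit 15) .nil)))))) (.g (nat_lit 5) .nil .nil))) 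
(.lf (nat_lit 90479) (.g (nat_lit 2800) (.e (nat_lit 2059) (nat_lit 142) (.e (nat_lit 704590) (nat_lit 3) (.e (nat_lit 163975) (nat_lit 30) (.e (nat_lit 573481) (nat_lit 13) (.e (nat_lit 65619) (nat_lit 10) (.e (nat_lit 344117) (nat_lit 21) (.e (nat_lit 516145) (nat_lit 9) (.e (nat_lit 426374) (nat_lit 15) .nil)))))))) (.g (nat_lit 4) .nil .nil)))) (.nd (nat_lit 5) 
(.lf (nat_lit 90463) (.g (nat_lit 3521) (.e (nat_lit 2059) (nat_lit 142) (.e (nat_lit 704589) (nat_lit 3) (.e (nat_lit 163973) (nat_lit 30) (.e (nat_lit 573484) (nat_lit 13) (.e (nat_lit 65610) (nat_lit 10) (.e (nat_lit 344117) (nat_lit 21) (.e (nat_lit 516151) (nat_lit 9) (.e (nat_lit 426412) (nat_lit 15) .nil)))))))) (.g (nat_lit 5) .nil .nil))) 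
(.lf (nat_lit 90495) (.g (nat_lit 2870) (.e (nat_lit 2059) (nat_lit 142) (.e (nat_lit 704590) (nat_lit 3) (.e (nat_lit 163975) (nat_lit 30) (.e (nat_lit 573492) (nat_lit 15) (.e (nat_lit 81953) (nat_lit 22) (.e (nat_lit 90170) (nat_lit 13) (.e (nat_lit 172138) (nat_lit 15) .nil))))))) (.g (nat_lit 4) .nil .nil)))))))))

noncomputable def tv1238 : DT := (.nd (nat_lit 0) (.nd (nat_lit 1) (.nd (nat_lit 2) (.nd (nat_lit 3) (.nd (nat_lit 4) (.nd (nat_lit 5) 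
(.lf (nat_lit 90496) (.g (nat_lit 2699) (.e (nat_lit 2059) (nat_lit 142) (.e (nat_lit 704590) (nat_lit 3) (.e (nat_lit 163975) (nat_lit 30) (.e (nat_lit 573492) (nat_lit 15) (.e (nat_lit 81953) (nat_lit 22) (.e (nat_lit 98048) (nat_lit 13) (.e (nat_lit 172133) (nat_lit 15) .nil))))))) (.g (nat_lit 4) .nil .nil))) 
(.lf (nat_lit 90528) (.g (nat_lit 2416) (.e (nat_lit 2059) (nat_lit 142) (.e (nat_lit 704595) (nat_lit 5) (.e (nat_lit 180278) (nat_lit 32) (.e (nat_lit 1427) (nat_lit 108) (.e (nat_lit 336441) (nat_lit 32) .nil))))) .nil))) (.nd (nat_lit 5) 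
(.lf (nat_lit 90512) (.g (nat_lit 2448) (.e (nat_lit 2059) (nat_lit 142) (.e (nat_lit 704595) (nat_lit 5) (.e (nat_lit 180277) (nat_lit 32) (.e (nat_lit 1660) (nat_lit 115) (.e (nat_lit 393281) (nat_lit 23) (.e (nat_lit 426413) (nat_lit 15) .nil)))))) (.g (nat_lit 5) .nil .nil))) 
(.lf (nat_lit 90544) (.g (nat_lit 4799) (.e (nat_lit 2059) (nat_lit 142) (.e (nat_lit 704596) (nat_lit 5) (.e (nat_lit 180228) (nat_lit 0) (.e (nat_lit 6410) (nat_lit 340) (.e (nat_lit 122913) (nat_lit 13) (.e (nat_lit 344130) (nat_lit 26) (.e (nat_lit 557097) (nat_lit 13) (.e (nat_lit 172133) (nat_lit 15) .nil)))))))) (.g (nat_lit 0) .nil .nil))))) (.nd (nat_lit 4) (.nd (nat_lit 5) 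
(.lf (nat_lit 90504) (.g (nat_lit 3292) (.e (nat_lit 2059) (nat_lit 142) (.e (nat_lit 704593) (nat_lit 4) (.e (nat_lit 172124) (nat_lit 14) (.e (nat_lit 491549) (nat_lit 9) (.e (nat_lit 336428) (nat_lit 29) (.e (nat_lit 442374) (nat_lit 0) .nil)))))) (.g (nat_lit 5) .nil .nil))) 
(.lf (nat_lit 90536) (.g (nat_lit 1394) (.e (nat_lit 2059) (nat_lit 142) (.e (nat_lit 704595) (nat_lit 5) (.e (nat_lit 180278) (nat_lit 32) (.e (nat_lit 1661) (nat_lit 115) (.e (nat_lit 393269) (nat_lit 23) .nil))))) .nil))) (.nd (nat_lit 5) 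
(.lf (nat_lit 90520) (.g (nat_lit 2130) (.e (nat_lit 2059) (nat_lit 142) (.e (nat_lit 704595) (nat_lit 5) (.e (nat_lit 180277) (nat_lit 32) (.e (nat_lit 1661) (nat_lit 115) (.e (nat_lit 393274) (nat_lit 23) (.e (nat_lit 426410) (nat_lit 15) .nil)))))) (.g (nat_lit 4) .nil .nil))) 
(.lf (nat_lit 90552) (.g (nat_lit 3611) (.e (nat_lit 2059) (nat_lit 142) (.e (nat_lit 704596) (nat_lit 5) (.e (nat_lit 180277) (nat_lit 32) (.e (nat_lit 1661) (nat_lit 115) (.e (nat_lit 393268) (nat_lit 23) (.e (nat_lit 426420) (nat_lit 15) .nil)))))) (.g (nat_lit 5) .nil .nil)))))) (.nd (nat_lit 3) (.nd (nat_lit 4) (.nd (nat_lit 5) 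
(.lf (nat_lit 90500) (.g (nat_lit 3699) (.e (nat_lit 2059) (nat_lit 142) (.e (nat_lit 704590) (nat_lit 3) (.e (nat_lit 163975) (nat_lit 30) (.e (nat_lit 573492) (nat_lit 15) (.e (nat_lit 81956) (nat_lit 23) (.e (nat_lit 98359) (nat_lit 26) (.e (nat_lit 426412) (nat_lit 15) .nil))))))) (.g (nat_lit 5) .nil .nil))) 
(.lf (nat_lit 90532) (.g (nat_lit 739) (.e (nat_lit 2059) (nat_lit 142) (.e (nat_lit 704595) (nat_lit 5) (.e (nat_lit 180278) (nat_lit 32) (.e (nat_lit 1661) (nat_lit 115) .nil)))) .nil))) (.nd (nat_lit 5) 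
(.lf (nat_lit 90516) (.g (nat_lit 3610) (.e (nat_lit 2059) (nat_lit 142) (.e (nat_lit 704595) (nat_lit 5) (.e (nat_lit 180277) (nat_lit 32) (.e (nat_lit 1661) (nat_lit 115) (.e (nat_lit 393268) (nat_lit 23) (.e (nat_lit 426397) (nat_lit 15) .nil)))))) (.g (nat_lit 5) .nil .nil))) 
(.lf (nat_lit 90548) (.g (nat_lit 3352) (.e (nat_lit 2059) (nat_lit 142) (.e (nat_lit 704596) (nat_lit 5) (.e (nat_lit 180277) (nat_lit 32) (.e (nat_lit 1661) (nat_lit 115) (.e (nat_lit 393268) (nat_lit 23) (.e (nat_lit 426375) (nat_lit 15) .nil)))))) (.g (nat_lit 5) .nil .nil))))) (.nd (nat_lit 4) (.nd (nat_lit 5) 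
(.lf (nat_lit 90508) (.g (nat_lit 2013) (.e (nat_lit 2059) (nat_lit 142) (.e (nat_lit 704595) (nat_lit 5) (.e (nat_lit 180277) (nat_lit 32) (.e (nat_lit 1427) (nat_lit 108) (.e (nat_lit 336444) (nat_lit 32) (.e (nat_lit 466947) (nat_lit 0) .nil)))))) (.g (nat_lit 4) .nil .nil))) 
(.lf (nat_lit 90540) (.g (nat_lit 1991) (.e (nat_lit 2059) (nat_lit 142) (.e (nat_lit 704595) (nat_lit 5) (.e (nat_lit 180278) (nat_lit 32) (.e (nat_lit 1661) (nat_lit 115) (.e (nat_lit 393279) (nat_lit 23) (.e (nat_lit 426391) (nat_lit 15) .nil)))))) (.g (nat_lit 4) .nil .nil)))) (.nd (nat_lit 5) 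
(.lf (nat_lit 90524) (.g (nat_lit 2428) (.e (nat_lit 2059) (nat_lit 142) (.e (nat_lit 704595) (nat_lit 5) (.e (nat_lit 180277) (nat_lit 32) (.e (nat_lit 1661) (nat_lit 115) (.e (nat_lit 393281) (nat_lit 23) (.e (nat_lit 426413) (nat_lit 15) .nil)))))) (.g (nat_lit 4) .nil .nil))) 
(.lf (nat_lit 90556) (.g (nat_lit 1888) (.e (nat_lit 2059) (nat_lit 142) (.e (nat_lit 704596) (nat_lit 5) (.e (nat_lit 180277) (nat_lit 32) (.e (nat_lit 1661) (nat_lit 115) (.e (nat_lit 393275) (nat_lit 23) (.e (nat_lit 426411) (nat_lit 15) .nil)))))) (.g (nat_lit 4) .nil .nil))))))) (.nd (nat_lit 2) (.nd (nat_lit 3) (.nd (nat_lit 4) (.nd (nat_lit 5) 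
(.lf (nat_lit 90498) (.g (nat_lit 3433) (.e (nat_lit 2059) (nat_lit 142) (.e (nat_lit 704590) (nat_lit 3) (.e (nat_lit 163975) (nat_lit 30) (.e (nat_lit 573492) (nat_lit 15) (.e (nat_lit 81956) (nat_lit 23) (.e (nat_lit 98359) (nat_lit 26) (.e (nat_lit 426396) (nat_lit 15) .nil))))))) (.g (nat_lit 5) .nil .nil))) 
(.lf (nat_lit 90530) (.g (nat_lit 2702) (.e (nat_lit 2059) (nat_lit 142) (.e (nat_lit 704595) (nat_lit 5) (.e (nat_lit 180278) (nat_lit 32) (.e (nat_lit 1428) (nat_lit 108) (.e (nat_lit 336430) (nat_lit 29) (.e (nat_lit 442377) (nat_lit 0) .nil)))))) (.g (nat_lit 5) .nil .nil)))) (.nd (nat_lit 5) 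
(.lf (nat_lit 90514) (.g (nat_lit 3539) (.e (nat_lit 2059) (nat_lit 142) (.e (nat_lit 704595) (nat_lit 5) (.e (nat_lit 180277) (nat_lit 32) (.e (nat_lit 1661) (nat_lit 115) (.e (nat_lit 393268) (nat_lit 23) (.e (nat_lit 426375) (nat_lit 15) .nil)))))) (.g (nat_lit 5) .nil .nil))) 
(.lf (nat_lit 90546) (.g (nat_lit 1225) (.e (nat_lit 2059) (nat_lit 142) (.e (nat_lit 704596) (nat_lit 5) (.e (nat_lit 180277) (nat_lit 32) (.e (nat_lit 1660) (nat_lit 115) (.e (nat_lit 393275) (nat_lit 23) .nil))))) .nil)))) (.nd (nat_lit 4) (.nd (nat_lit 5) 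
(.lf (nat_lit 90506) (.g (nat_lit 309) (.e (nat_lit 2059) (nat_lit 142) (.e (nat_lit 704595) (nat_lit 5) (.e (nat_lit 180277) (nat_lit 32) .nil))) .nil)) 
(.lf (nat_lit 90538) (.g (nat_lit 2015) (.e (nat_lit 2059) (nat_lit 142) (.e (nat_lit 704595) (nat_lit 5) (.e (nat_lit 180278) (nat_lit 32) (.e (nat_lit 1661) (nat_lit 115) (.e (nat_lit 393274) (nat_lit 23) (.e (nat_lit 426410) (nat_lit 15) .nil)))))) (.g (nat_lit 4) .nil .nil)))) (.nd (nat_lit 5) 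
(.lf (nat_lit 90522) (.g (nat_lit 2065) (.e (nat_lit 2059) (nat_lit 142) (.e (nat_lit 704595) (nat_lit 5) (.e (nat_lit 180277) (nat_lit 32) (.e (nat_lit 1661) (nat_lit 115) (.e (nat_lit 393275) (nat_lit 23) (.e (nat_lit 426411) (nat_lit 15) .nil)))))) (.g (nat_lit 4) .nil .nil))) 
(.lf (nat_lit 90554) (.g (nat_lit 1790) (.e (nat_lit 2059) (nat_lit 142) (.e (nat_lit 704596) (nat_lit 5) (.e (nat_lit 180277) (nat_lit 32) (.e (nat_lit 1661) (nat_lit 115) (.e (nat_lit 393269) (nat_lit 23) (.e (nat_lit 426405) (nat_lit 15) .nil)))))) (.g (nat_lit 4) .nil .nil)))))) (.nd (nat_lit 3) (.nd (nat_lit 4) (.nd (nat_lit 5) 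
(.lf (nat_lit 90502) (.g (nat_lit 2165) (.e (nat_lit 2059) (nat_lit 142) (.e (nat_lit 704592) (nat_lit 4) (.e (nat_lit 172126) (nat_lit 14) (.e (nat_lit 491547) (nat_lit 9) (.e (nat_lit 336426) (nat_lit 29) .nil))))) .nil)) 
(.lf (nat_lit 90534) (.g (nat_lit 3453) (.e (nat_lit 2059) (nat_lit 142) (.e (nat_lit 704595) (nat_lit 5) (.e (nat_lit 180278) (nat_lit 32) (.e (nat_lit 1661) (nat_lit 115) (.e (nat_lit 393268) (nat_lit 23) (.e (nat_lit 426377) (nat_lit 15) .nil)))))) (.g (nat_lit 5) .nil .nil)))) (.nd (nat_lit 5) 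
(.lf (nat_lit 90518) (.g (nat_lit 2070) (.e (nat_lit 2059) (nat_lit 142) (.e (nat_lit 704595) (nat_lit 5) (.e (nat_lit 180277) (nat_lit 32) (.e (nat_lit 1661) (nat_lit 115) (.e (nat_lit 393269) (nat_lit 23) (.e (nat_lit 426382) (nat_lit 15) .nil)))))) (.g (nat_lit 4) .nil .nil))) 
(.lf (nat_lit 90550) (.g (nat_lit 3482) (.e (nat_lit 2059) (nat_lit 142) (.e (nat_lit 704596) (nat_lit 5) (.e (nat_lit 180277) (nat_lit 32) (.e (nat_lit 1661) (nat_lit 115) (.e (nat_lit 393268) (nat_lit 23) (.e (nat_lit 426397) (nat_lit 15) .nil)))))) (.g (nat_lit 5) .nil .nil))))) (.nd (nat_lit 4) (.nd (nat_lit 5) 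
(.lf (nat_lit 90510) (.g (nat_lit 759) (.e (nat_lit 2059) (nat_lit 142) (.e (nat_lit 704595) (nat_lit 5) (.e (nat_lit 180277) (nat_lit 32) (.e (nat_lit 1660) (nat_lit 115) .nil)))) .nil)) 
(.lf (nat_lit 90542) (.g (nat_lit 1362) (.e (nat_lit 2059) (nat_lit 142) (.e (nat_lit 704595) (nat_lit 5) (.e (nat_lit 180278) (nat_lit 32) (.e (nat_lit 1661) (nat_lit 115) (.e (nat_lit 401152) (nat_lit 23) .nil))))) .nil))) (.nd (nat_lit 5) 
(.lf (nat_lit 90526) (.g (nat_lit 292) (.e (nat_lit 2059) (nat_lit 142) (.e (nat_lit 704595) (nat_lit 5) (.e (nat_lit 180278) (nat_lit 32) .nil))) .nil)) 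
(.lf (nat_lit 90558) (.g (nat_lit 2337) (.e (nat_lit 2059) (nat_lit 142) (.e (nat_lit 704596) (nat_lit 5) (.e (nat_lit 180277) (nat_lit 32) (.e (nat_lit 1661) (nat_lit 115) (.e (nat_lit 393281) (nat_lit 23) (.e (nat_lit 426413) (nat_lit 15) .nil)))))) (.g (nat_lit 4) .nil .nil)))))))) (.nd (nat_lit 1) (.nd (nat_lit 2) (.nd (nat_lit 3) (.nd (nat_lit 4) (.nd (nat_lit 5) 
(.lf (nat_lit 90497) (.g (nat_lit 2699) (.e (nat_lit 2059) (nat_lit 142) (.e (nat_lit 704590) (nat_lit 3) (.e (nat_lit 163975) (nat_lit 30) (.e (nat_lit 573492) (nat_lit 15) (.e (nat_lit 81956) (nat_lit 23) (.e (nat_lit 98356) (nat_lit 26) (.e (nat_lit 426416) (nat_lit 15) .nil))))))) (.g (nat_lit 4) .nil .nil))) 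
(.lf (nat_lit 90529) (.g (nat_lit 2250) (.e (nat_lit 2059) (nat_lit 142) (.e (nat_lit 704595) (nat_lit 5) (.e (nat_lit 180278) (nat_lit 32) (.e (nat_lit 1427) (nat_lit 108) (.e (nat_lit 336444) (nat_lit 32) (.e (nat_lit 466947) (nat_lit 0) .nil)))))) (.g (nat_lit 4) .nil .nil)))) (.nd (nat_lit 5) 
(.lf (nat_lit 90513) (.g (nat_lit 1511) (.e (nat_lit 2059) (nat_lit 142) (.e (nat_lit 704595) (nat_lit 5) (.e (nat_lit 180277) (nat_lit 32) (.e (nat_lit 1661) (nat_lit 115) (.e (nat_lit 393267) (nat_lit 23) .nil))))) .nil)) 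
(.lf (nat_lit 90545) (.g (nat_lit 2554) (.e (nat_lit 2059) (nat_lit 142) (.e (nat_lit 704596) (nat_lit 5) (.e (nat_lit 180277) (nat_lit 32) (.e (nat_lit 1428) (nat_lit 108) (.e (nat_lit 336430) (nat_lit 29) (.e (nat_lit 442377) (nat_lit 0) .nil)))))) (.g (nat_lit 5) .nil .nil))))) (.nd (nat_lit 4) (.nd (nat_lit 5) 
(.lf (nat_lit 90505) (.g (nat_lit 4703) (.e (nat_lit 2059) (nat_lit 142) (.e (nat_lit 704595) (nat_lit 5) (.e (nat_lit 180268) (nat_lit 24) (.e (nat_lit 688180) (nat_lit 17) (.e (nat_lit 73753) (nat_lit 8) (.e (nat_lit 557098) (nat_lit 13) (.e (nat_lit 172133) (nat_lit 15) .nil))))))) (.g (nat_lit 0) .nil .nil))) 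
(.lf (nat_lit 90537) (.g (nat_lit 1886) (.e (nat_lit 2059) (nat_lit 142) (.e (nat_lit 704595) (nat_lit 5) (.e (nat_lit 180278) (nat_lit 32) (.e (nat_lit 1661) (nat_lit 115) (.e (nat_lit 393269) (nat_lit 23) (.e (nat_lit 426382) (nat_lit 15) .nil)))))) (.g (nat_lit 4) .nil .nil)))) (.nd (nat_lit 5) 
(.lf (nat_lit 90521) (.g (nat_lit 2234) (.e (nat_lit 2059) (nat_lit 142) (.e (nat_lit 704595) (nat_lit 5) (.e (nat_lit 180277) (nat_lit 32) (.e (nat_lit 1661) (nat_lit 115) (.e (nat_lit 393275) (nat_lit 23) (.e (nat_lit 426410) (nat_lit 15) .nil)))))) (.g (nat_lit 4) .nil .nil))) 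
(.lf (nat_lit 90553) (.g (nat_lit 1892) (.e (nat_lit 2059) (nat_lit 142) (.e (nat_lit 704596) (nat_lit 5) (.e (nat_lit 180277) (nat_lit 32) (.e (nat_lit 1661) (nat_lit 115) (.e (nat_lit 393269) (nat_lit 23) (.e (nat_lit 426382) (nat_lit 15) .nil)))))) (.g (nat_lit 4) .nil .nil)))))) (.nd (nat_lit 3) (.nd (nat_lit 4) (.nd (nat_lit 5) 
(.lf (nat_lit 90501) (.g (nat_lit 5110) (.e (nat_lit 2059) (nat_lit 142) (.e (nat_lit 704590) (nat_lit 3) (.e (nat_lit 163977) (nat_lit 30) (.e (nat_lit 573484) (nat_lit 13) (.e (nat_lit 65610) (nat_lit 10) (.e (nat_lit 344117) (nat_lit 21) (.e (nat_lit 516151) (nat_lit 9) (.e (nat_lit 426412) (nat_lit 15) .nil)))))))) (.g (nat_lit 7) .nil .nil))) 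
(.lf (nat_lit 90533) (.g (nat_lit 3400) (.e (nat_lit 2059) (nat_lit 142) (.e (nat_lit 704595) (nat_lit 5) (.e (nat_lit 180278) (nat_lit 32) (.e (nat_lit 1661) (nat_lit 115) (.e (nat_lit 393268) (nat_lit 23) (.e (nat_lit 426375) (nat_lit 15) .nil)))))) (.g (nat_lit 5) .nil .nil)))) (.nd (nat_lit 5) 
(.lf (nat_lit 90517) (.g (nat_lit 1537) (.e (nat_lit 2059) (nat_lit 142) (.e (nat_lit 704595) (nat_lit 5) (.e (nat_lit 180277) (nat_lit 32) (.e (nat_lit 1661) (nat_lit 115) (.e (nat_lit 393269) (nat_lit 23) .nil))))) .nil)) 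
(.lf (nat_lit 90549) (.g (nat_lit 3419) (.e (nat_lit 2059) (nat_lit 142) (.e (nat_lit 704596) (nat_lit 5) (.e (nat_lit 180277) (nat_lit 32) (.e (nat_lit 1661) (nat_lit 115) (.e (nat_lit 393268) (nat_lit 23) (.e (nat_lit 426377) (nat_lit 15) .nil)))))) (.g (nat_lit 5) .nil .nil))))) (.nd (nat_lit 4) (.nd (nat_lit 5) 
(.lf (nat_lit 90509) (.g (nat_lit 2601) (.e (nat_lit 2059) (nat_lit 142) (.e (nat_lit 704595) (nat_lit 5) (.e (nat_lit 180277) (nat_lit 32) (.e (nat_lit 1428) (nat_lit 108) (.e (nat_lit 336430) (nat_lit 29) (.e (nat_lit 442377) (nat_lit 0) .nil)))))) (.g (nat_lit 5) .nil .nil))) 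
(.lf (nat_lit 90541) (.g (nat_lit 2243) (.e (nat_lit 2059) (nat_lit 142) (.e (nat_lit 704595) (nat_lit 5) (.e (nat_lit 180278) (nat_lit 32) (.e (nat_lit 1661) (nat_lit 115) (.e (nat_lit 393281) (nat_lit 23) (.e (nat_lit 426413) (nat_lit 15) .nil)))))) (.g (nat_lit 4) .nil .nil)))) (.nd (nat_lit 5) 
(.lf (nat_lit 90525) (.g (nat_lit 1486) (.e (nat_lit 2059) (nat_lit 142) (.e (nat_lit 704595) (nat_lit 5) (.e (nat_lit 180277) (nat_lit 32) (.e (nat_lit 1661) (nat_lit 115) (.e (nat_lit 401152) (nat_lit 23) .nil))))) .nil)) 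
(.lf (nat_lit 90557) (.g (nat_lit 1962) (.e (nat_lit 2059) (nat_lit 142) (.e (nat_lit 704596) (nat_lit 5) (.e (nat_lit 180277) (nat_lit 32) (.e (nat_lit 1661) (nat_lit 115) (.e (nat_lit 393279) (nat_lit 23) (.e (nat_lit 426391) (nat_lit 15) .nil)))))) (.g (nat_lit 4) .nil .nil))))))) (.nd (nat_lit 2) (.nd (nat_lit 3) (.nd (nat_lit 4) (.nd (nat_lit 5) 
(.lf (nat_lit 90499) (.g (nat_lit 2221) (.e (nat_lit 2059) (nat_lit 142) (.e (nat_lit 704590) (nat_lit 3) (.e (nat_lit 163975) (nat_lit 30) (.e (nat_lit 573492) (nat_lit 15) (.e (nat_lit 81956) (nat_lit 23) (.e (nat_lit 98359) (nat_lit 26) (.e (nat_lit 426410) (nat_lit 15) .nil))))))) (.g (nat_lit 4) .nil .nil))) 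
(.lf (nat_lit 90531) (.g (nat_lit 2457) (.e (nat_lit 2059) (nat_lit 142) (.e (nat_lit 704595) (nat_lit 5) (.e (nat_lit 180278) (nat_lit 32) (.e (nat_lit 1660) (nat_lit 115) (.e (nat_lit 393281) (nat_lit 23) (.e (nat_lit 426413) (nat_lit 15) .nil)))))) (.g (nat_lit 5) .nil .nil)))) (.nd (nat_lit 5) 
(.lf (nat_lit 90515) (.g (nat_lit 3572) (.e (nat_lit 2059) (nat_lit 142) (.e (nat_lit 704595) (nat_lit 5) (.e (nat_lit 180277) (nat_lit 32) (.e (nat_lit 1661) (nat_lit 115) (.e (nat_lit 393268) (nat_lit 23) (.e (nat_lit 426377) (nat_lit 15) .nil)))))) (.g (nat_lit 5) .nil .nil))) 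
(.lf (nat_lit 90547) (.g (nat_lit 2424) (.e (nat_lit 2059) (nat_lit 142) (.e (nat_lit 704596) (nat_lit 5) (.e (nat_lit 180277) (nat_lit 32) (.e (nat_lit 1660) (nat_lit 115) (.e (nat_lit 393281) (nat_lit 23) (.e (nat_lit 426413) (nat_lit 15) .nil)))))) (.g (nat_lit 5) .nil .nil))))) (.nd (nat_lit 4) (.nd (nat_lit 5) 
(.lf (nat_lit 90507) (.g (nat_lit 2395) (.e (nat_lit 2059) (nat_lit 142) (.e (nat_lit 704595) (nat_lit 5) (.e (nat_lit 180277) (nat_lit 32) (.e (nat_lit 1427) (nat_lit 108) (.e (nat_lit 336427) (nat_lit 29) (.e (nat_lit 442374) (nat_lit 0) .nil)))))) (.g (nat_lit 4) .nil .nil))) 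
(.lf (nat_lit 90539) (.g (nat_lit 2130) (.e (nat_lit 2059) (nat_lit 142) (.e (nat_lit 704595) (nat_lit 5) (.e (nat_lit 180278) (nat_lit 32) (.e (nat_lit 1661) (nat_lit 115) (.e (nat_lit 393275) (nat_lit 23) (.e (nat_lit 426410) (nat_lit 15) .nil)))))) (.g (nat_lit 4) .nil .nil)))) (.nd (nat_lit 5) 
(.lf (nat_lit 90523) (.g (nat_lit 2098) (.e (nat_lit 2059) (nat_lit 142) (.e (nat_lit 704595) (nat_lit 5) (.e (nat_lit 180277) (nat_lit 32) (.e (nat_lit 1661) (nat_lit 115) (.e (nat_lit 393279) (nat_lit 23) (.e (nat_lit 426391) (nat_lit 15) .nil)))))) (.g (nat_lit 4) .nil .nil))) 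
(.lf (nat_lit 90555) (.g (nat_lit 1901) (.e (nat_lit 2059) (nat_lit 142) (.e (nat_lit 704596) (nat_lit 5) (.e (nat_lit 180277) (nat_lit 32) (.e (nat_lit 1661) (nat_lit 115) (.e (nat_lit 393274) (nat_lit 23) (.e (nat_lit 426410) (nat_lit 15) .nil)))))) (.g (nat_lit 4) .nil .nil)))))) (.nd (nat_lit 3) (.nd (nat_lit 4) (.nd (nat_lit 5) 
(.lf (nat_lit 90503) (.g (nat_lit 3141) (.e (nat_lit 2059) (nat_lit 142) (.e (nat_lit 704592) (nat_lit 4) (.e (nat_lit 172126) (nat_lit 14) (.e (nat_lit 491549) (nat_lit 9) (.e (nat_lit 336426) (nat_lit 29) (.e (nat_lit 442374) (nat_lit 0) .nil)))))) (.g (nat_lit 5) .nil .nil))) 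
(.lf (nat_lit 90535) (.g (nat_lit 3509) (.e (nat_lit 2059) (nat_lit 142) (.e (nat_lit 704595) (nat_lit 5) (.e (nat_lit 180278) (nat_lit 32) (.e (nat_lit 1661) (nat_lit 115) (.e (nat_lit 393268) (nat_lit 23) (.e (nat_lit 426397) (nat_lit 15) .nil)))))) (.g (nat_lit 5) .nil .nil)))) (.nd (nat_lit 5) 
(.lf (nat_lit 90519) (.g (nat_lit 1968) (.e (nat_lit 2059) (nat_lit 142) (.e (nat_lit 704595) (nat_lit 5) (.e (nat_lit 180277) (nat_lit 32) (.e (nat_lit 1661) (nat_lit 115) (.e (nat_lit 393269) (nat_lit 23) (.e (nat_lit 426405) (nat_lit 15) .nil)))))) (.g (nat_lit 4) .nil .nil))) 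
(.lf (nat_lit 90551) (.g (nat_lit 3026) (.e (nat_lit 2059) (nat_lit 142) (.e (nat_lit 704596) (nat_lit 5) (.e (nat_lit 180277) (nat_lit 32) (.e (nat_lit 1661) (nat_lit 115) (.e (nat_lit 393268) (nat_lit 23) (.e (nat_lit 426416) (nat_lit 15) .nil)))))) (.g (nat_lit 5) .nil .nil))))) (.nd (nat_lit 4) (.nd (nat_lit 5) 
(.lf (nat_lit 90511) (.g (nat_lit 2061) (.e (nat_lit 2059) (nat_lit 142) (.e (nat_lit 704595) (nat_lit 5) (.e (nat_lit 180277) (nat_lit 32) (.e (nat_lit 1660) (nat_lit 115) (.e (nat_lit 393279) (nat_lit 23) (.e (nat_lit 426391) (nat_lit 15) .nil)))))) (.g (nat_lit 4) .nil .nil))) 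
(.lf (nat_lit 90543) (.g (nat_lit 2036) (.e (nat_lit 2059) (nat_lit 142) (.e (nat_lit 704595) (nat_lit 5) (.e (nat_lit 188160) (nat_lit 36) (.e (nat_lit 65653) (nat_lit 27) (.e (nat_lit 426190) (nat_lit 9) (.e (nat_lit 426382) (nat_lit 15) .nil)))))) (.g (nat_lit 5) .nil .nil)))) (.nd (nat_lit 5) 
(.lf (nat_lit 90527) (.g (nat_lit 3092) (.e (nat_lit 2059) (nat_lit 142) (.e (nat_lit 704595) (nat_lit 5) (.e (nat_lit 180278) (nat_lit 32) (.e (nat_lit 1427) (nat_lit 108) (.e (nat_lit 336430) (nat_lit 29) (.e (nat_lit 442377) (nat_lit 0) .nil)))))) (.g (nat_lit 5) .nil .nil))) 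
(.lf (nat_lit 90559) (.g (nat_lit 581) (.e (nat_lit 2059) (nat_lit 142) (.e (nat_lit 704598) (nat_lit 6) (.e (nat_lit 188416) (nat_lit 0) (.e (nat_lit 2146) (nat_lit 142) (.e (nat_lit 704597) (nat_lit 6) .nil))))) .nil))))))))

noncomputable def tv1239 : DT := (.nd (nat_lit 0) (.nd (nat_lit 1) (.nd (nat_lit 2) (.nd (nat_lit 3) (.nd (nat_lit 4) (.nd (nat_lit 5) 
(.lf (nat_lit 90560) (.g (nat_lit 1110) (.e (nat_lit 2059) (nat_lit 142) (.e (nat_lit 704598) (nat_lit 6) (.e (nat_lit 188416) (nat_lit 0) (.e (nat_lit 2147) (nat_lit 142) (.e (nat_lit 704597) (nat_lit 6) (.e (nat_lit 188420) (nat_lit 0) .nil)))))) (.g (nat_lit 4) .nil .nil))) 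
(.lf (nat_lit 90592) (.g (nat_lit 3753) (.e (nat_lit 2063) (nat_lit 142) (.e (nat_lit 704590) (nat_lit 3) (.e (nat_lit 163975) (nat_lit 30) (.e (nat_lit 573491) (nat_lit 15) (.e (nat_lit 81954) (nat_lit 23) (.e (nat_lit 98356) (nat_lit 26) (.e (nat_lit 426360) (nat_lit 15) .nil))))))) (.g (nat_lit 6) .nil .nil)))) (.nd (nat_lit 5) 
(.lf (nat_lit 90576) (.g (nat_lit 3982) (.e (nat_lit 2060) (nat_lit 142) (.e (nat_lit 704590) (nat_lit 3) (.e (nat_lit 163975) (nat_lit 30) (.e (nat_lit 573491) (nat_lit 15) (.e (nat_lit 81954) (nat_lit 23) (.e (nat_lit 98356) (nat_lit 26) (.e (nat_lit 426363) (nat_lit 15) .nil))))))) (.g (nat_lit 0) .nil .nil))) 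
(.lf (nat_lit 90608) (.g (nat_lit 2228) (.e (nat_lit 2078) (nat_lit 142) (.e (nat_lit 704734) (nat_lit 11) (.e (nat_lit 16436) (nat_lit 9) (.e (nat_lit 426555) (nat_lit 32) (.e (nat_lit 376857) (nat_lit 21) (.e (nat_lit 57847) (nat_lit 252) (.e (nat_lit 57348) (nat_lit 0) .nil))))))) (.g (nat_lit 5) .nil .nil))))) (.nd (nat_lit 4) (.nd (nat_lit 5) 
(.lf (nat_lit 90568) (.g (nat_lit 2438) (.e (nat_lit 2059) (nat_lit 142) (.e (nat_lit 704598) (nat_lit 6) (.e (nat_lit 188455) (nat_lit 24) (.e (nat_lit 229678) (nat_lit 244) (.e (nat_lit 163846) (nat_lit 0) (.e (nat_lit 7936) (nat_lit 392) (.e (nat_lit 172133) (nat_lit 15) .nil))))))) (.g (nat_lit 4) .nil .nil))) 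
(.lf (nat_lit 90600) (.g (nat_lit 2089) (.e (nat_lit 2076) (nat_lit 142) (.e (nat_lit 704732) (nat_lit 11) (.e (nat_lit 16416) (nat_lit 3) (.e (nat_lit 204861) (nat_lit 26) (.e (nat_lit 336194) (nat_lit 12) .nil))))) .nil))) (.nd (nat_lit 5) 
(.lf (nat_lit 90584) (.g (nat_lit 2531) (.e (nat_lit 2061) (nat_lit 142) (.e (nat_lit 704598) (nat_lit 6) (.e (nat_lit 188452) (nat_lit 23) (.e (nat_lit 204809) (nat_lit 9) (.e (nat_lit 426107) (nat_lit 1) .nil))))) .nil)) 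
(.lf (nat_lit 90616) (.g (nat_lit 1368) (.e (nat_lit 2081) (nat_lit 142) (.e (nat_lit 704734) (nat_lit 11) (.e (nat_lit 16412) (nat_lit 2) (.e (nat_lit 196674) (nat_lit 15) (.e (nat_lit 89856) (nat_lit 3) .nil))))) .nil))))) (.nd (nat_lit 3) (.nd (nat_lit 4) (.nd (nat_lit 5) 
(.lf (nat_lit 90564) (.g (nat_lit 1486) (.e (nat_lit 2059) (nat_lit 142) (.e (nat_lit 704598) (nat_lit 6) (.e (nat_lit 188418) (nat_lit 0) (.e (nat_lit 2059) (nat_lit 142) (.e (nat_lit 704599) (nat_lit 6) (.e (nat_lit 188418) (nat_lit 0) .nil)))))) (.g (nat_lit 4) .nil .nil))) 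
(.lf (nat_lit 90596) (.g (nat_lit 2736) (.e (nat_lit 2063) (nat_lit 142) (.e (nat_lit 704596) (nat_lit 5) (.e (nat_lit 180277) (nat_lit 32) (.e (nat_lit 1661) (nat_lit 115) (.e (nat_lit 393268) (nat_lit 23) (.e (nat_lit 426363) (nat_lit 15) .nil)))))) (.g (nat_lit 6) .nil .nil)))) (.nd (nat_lit 5) 
(.lf (nat_lit 90580) (.g (nat_lit 3746) (.e (nat_lit 2061) (nat_lit 142) (.e (nat_lit 704590) (nat_lit 3) (.e (nat_lit 163975) (nat_lit 30) (.e (nat_lit 573491) (nat_lit 15) (.e (nat_lit 81954) (nat_lit 23) (.e (nat_lit 98356) (nat_lit 26) (.e (nat_lit 426360) (nat_lit 15) .nil))))))) (.g (nat_lit 6) .nil .nil))) 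
(.lf (nat_lit 90612) (.g (nat_lit 1031) (.e (nat_lit 2080) (nat_lit 142) (.e (nat_lit 704734) (nat_lit 11) (.e (nat_lit 16416) (nat_lit 3) (.e (nat_lit 204876) (nat_lit 31) .nil)))) .nil)))) (.nd (nat_lit 4) (.nd (nat_lit 5) 
(.lf (nat_lit 90572) (.g (nat_lit 2245) (.e (nat_lit 2059) (nat_lit 142) (.e (nat_lit 704599) (nat_lit 6) (.e (nat_lit 188418) (nat_lit 0) (.e (nat_lit 2175) (nat_lit 143) (.e (nat_lit 712752) (nat_lit 29) (.e (nat_lit 442377) (nat_lit 0) .nil)))))) (.g (nat_lit 6) .nil .nil))) 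
(.lf (nat_lit 90604) (.g (nat_lit 1791) (.e (nat_lit 2078) (nat_lit 142) (.e (nat_lit 704734) (nat_lit 11) (.e (nat_lit 16416) (nat_lit 3) (.e (nat_lit 204859) (nat_lit 26) (.e (nat_lit 336206) (nat_lit 12) .nil))))) .nil))) (.nd (nat_lit 5) 
(.lf (nat_lit 90588) (.g (nat_lit 3990) (.e (nat_lit 2062) (nat_lit 142) (.e (nat_lit 704590) (nat_lit 3) (.e (nat_lit 163975) (nat_lit 30) (.e (nat_lit 573491) (nat_lit 15) (.e (nat_lit 81954) (nat_lit 23) (.e (nat_lit 98356) (nat_lit 26) (.e (nat_lit 426363) (nat_lit 15) .nil))))))) (.g (nat_lit 0) .nil .nil))) 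
(.lf (nat_lit 90620) (.g (nat_lit 1179) (.e (nat_lit 2082) (nat_lit 142) (.e (nat_lit 704734) (nat_lit 11) (.e (nat_lit 16416) (nat_lit 3) (.e (nat_lit 204877) (nat_lit 31) (.e (nat_lit 376833) (nat_lit 0) .nil))))) .nil)))))) (.nd (nat_lit 2) (.nd (nat_lit 3) (.nd (nat_lit 4) (.nd (nat_lit 5) 
(.lf (nat_lit 90562) (.g (nat_lit 1553) (.e (nat_lit 2059) (nat_lit 142) (.e (nat_lit 704598) (nat_lit 6) (.e (nat_lit 188418) (nat_lit 0) (.e (nat_lit 2058) (nat_lit 142) (.e (nat_lit 704599) (nat_lit 6) (.e (nat_lit 188418) (nat_lit 0) .nil)))))) (.g (nat_lit 4) .nil .nil))) 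
(.lf (nat_lit 90594) (.g (nat_lit 4797) (.e (nat_lit 2063) (nat_lit 142) (.e (nat_lit 704590) (nat_lit 3) (.e (nat_lit 163975) (nat_lit 30) (.e (nat_lit 573492) (nat_lit 15) (.e (nat_lit 81956) (nat_lit 23) (.e (nat_lit 98356) (nat_lit 26) (.e (nat_lit 426360) (nat_lit 15) .nil))))))) (.g (nat_lit 6) .nil .nil)))) (.nd (nat_lit 5) 
(.lf (nat_lit 90578) (.g (nat_lit 3653) (.e (nat_lit 2060) (nat_lit 142) (.e (nat_lit 704590) (nat_lit 3) (.e (nat_lit 163975) (nat_lit 30) (.e (nat_lit 573492) (nat_lit 15) (.e (nat_lit 81956) (nat_lit 23) (.e (nat_lit 98356) (nat_lit 26) (.e (nat_lit 426362) (nat_lit 15) .nil))))))) (.g (nat_lit 5) .nil .nil))) 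
(.lf (nat_lit 90610) (.g (nat_lit 1814) (.e (nat_lit 2078) (nat_lit 142) (.e (nat_lit 704734) (nat_lit 11) (.e (nat_lit 16466) (nat_lit 13) (.e (nat_lit 483393) (nat_lit 23) (.e (nat_lit 335988) (nat_lit 1) (.e (nat_lit 57854) (nat_lit 252) (.e (nat_lit 57351) (nat_lit 0) .nil))))))) (.g (nat_lit 5) .nil .nil))))) (.nd (nat_lit 4) (.nd (nat_lit 5) 
(.lf (nat_lit 90570) (.g (nat_lit 2413) (.e (nat_lit 2059) (nat_lit 142) (.e (nat_lit 704598) (nat_lit 6) (.e (nat_lit 188455) (nat_lit 24) (.e (nat_lit 229681) (nat_lit 244) (.e (nat_lit 163932) (nat_lit 17) (.e (nat_lit 466947) (nat_lit 0) .nil)))))) (.g (nat_lit 0) .nil .nil))) 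
(.lf (nat_lit 90602) (.g (nat_lit 1588) (.e (nat_lit 2077) (nat_lit 142) (.e (nat_lit 704734) (nat_lit 11) (.e (nat_lit 16412) (nat_lit 2) (.e (nat_lit 196681) (nat_lit 17) (.e (nat_lit 131105) (nat_lit 9) .nil))))) .nil))) (.nd (nat_lit 5) 
(.lf (nat_lit 90586) (.g (nat_lit 1456) (.e (nat_lit 2061) (nat_lit 142) (.e (nat_lit 704742) (nat_lit 11) (.e (nat_lit 16434) (nat_lit 9) (.e (nat_lit 426555) (nat_lit 32) (.e (nat_lit 376857) (nat_lit 21) .nil))))) .nil)) 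
(.lf (nat_lit 90618) (.g (nat_lit 1583) (.e (nat_lit 2081) (nat_lit 142) (.e (nat_lit 704734) (nat_lit 11) (.e (nat_lit 16416) (nat_lit 3) (.e (nat_lit 204877) (nat_lit 31) (.e (nat_lit 384768) (nat_lit 3) (.e (nat_lit 204821) (nat_lit 17) .nil)))))) (.g (nat_lit 4) .nil .nil)))))) (.nd (nat_lit 3) (.nd (nat_lit 4) (.nd (nat_lit 5) 
(.lf (nat_lit 90566) (.g (nat_lit 2202) (.e (nat_lit 2059) (nat_lit 142) (.e (nat_lit 704598) (nat_lit 6) (.e (nat_lit 188420) (nat_lit 0) (.e (nat_lit 2175) (nat_lit 143) (.e (nat_lit 712752) (nat_lit 29) (.e (nat_lit 442377) (nat_lit 0) .nil)))))) (.g (nat_lit 6) .nil .nil))) 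
(.lf (nat_lit 90598) (.g (nat_lit 1558) (.e (nat_lit 2074) (nat_lit 142) (.e (nat_lit 704734) (nat_lit 11) (.e (nat_lit 16412) (nat_lit 2) (.e (nat_lit 196681) (nat_lit 17) (.e (nat_lit 131105) (nat_lit 9) .nil))))) .nil))) (.nd (nat_lit 5) 
(.lf (nat_lit 90582) (.g (nat_lit 4803) (.e (nat_lit 2061) (nat_lit 142) (.e (nat_lit 704590) (nat_lit 3) (.e (nat_lit 163975) (nat_lit 30) (.e (nat_lit 573492) (nat_lit 15) (.e (nat_lit 81956) (nat_lit 23) (.e (nat_lit 98356) (nat_lit 26) (.e (nat_lit 426360) (nat_lit 15) .nil))))))) (.g (nat_lit 6) .nil .nil))) 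
(.lf (nat_lit 90614) (.g (nat_lit 1607) (.e (nat_lit 2080) (nat_lit 142) (.e (nat_lit 704734) (nat_lit 11) (.e (nat_lit 16436) (nat_lit 9) (.e (nat_lit 426555) (nat_lit 32) (.e (nat_lit 376857) (nat_lit 21) .nil))))) .nil)))) (.nd (nat_lit 4) (.nd (nat_lit 5) 
(.lf (nat_lit 90574) (.g (nat_lit 2089) (.e (nat_lit 2059) (nat_lit 142) (.e (nat_lit 704731) (nat_lit 11) (.e (nat_lit 16466) (nat_lit 13) (.e (nat_lit 483393) (nat_lit 23) (.e (nat_lit 335988) (nat_lit 1) (.e (nat_lit 57852) (nat_lit 252) (.e (nat_lit 57361) (nat_lit 0) .nil))))))) (.g (nat_lit 4) .nil .nil))) 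
(.lf (nat_lit 90606) (.g (nat_lit 3283) (.e (nat_lit 2078) (nat_lit 142) (.e (nat_lit 704734) (nat_lit 11) (.e (nat_lit 16416) (nat_lit 3) (.e (nat_lit 204861) (nat_lit 26) (.e (nat_lit 336076) (nat_lit 9) (.e (nat_lit 336324) (nat_lit 18) (.e (nat_lit 204817) (nat_lit 17) .nil))))))) (.g (nat_lit 6) .nil .nil)))) (.nd (nat_lit 5) 
(.lf (nat_lit 90590) (.g (nat_lit 4731) (.e (nat_lit 2062) (nat_lit 142) (.e (nat_lit 704590) (nat_lit 3) (.e (nat_lit 163975) (nat_lit 30) (.e (nat_lit 573492) (nat_lit 15) (.e (nat_lit 81956) (nat_lit 23) (.e (nat_lit 98356) (nat_lit 26) (.e (nat_lit 426363) (nat_lit 15) .nil))))))) (.g (nat_lit 7) .nil .nil))) 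
(.lf (nat_lit 90622) (.g (nat_lit 1403) (.e (nat_lit 2084) (nat_lit 142) (.e (nat_lit 704734) (nat_lit 11) (.e (nat_lit 16416) (nat_lit 3) (.e (nat_lit 204859) (nat_lit 26) .nil)))) .nil))))))) (.nd (nat_lit 1) (.nd (nat_lit 2) (.nd (nat_lit 3) (.nd (nat_lit 4) (.nd (nat_lit 5) 
(.lf (nat_lit 90561) (.g (nat_lit 1635) (.e (nat_lit 2059) (nat_lit 142) (.e (nat_lit 704598) (nat_lit 6) (.e (nat_lit 188418) (nat_lit 0) (.e (nat_lit 2058) (nat_lit 142) (.e (nat_lit 704598) (nat_lit 6) (.e (nat_lit 188420) (nat_lit 0) .nil)))))) (.g (nat_lit 4) .nil .nil))) 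
(.lf (nat_lit 90593) (.g (nat_lit 4007) (.e (nat_lit 2063) (nat_lit 142) (.e (nat_lit 704590) (nat_lit 3) (.e (nat_lit 163975) (nat_lit 30) (.e (nat_lit 573491) (nat_lit 15) (.e (nat_lit 81954) (nat_lit 23) (.e (nat_lit 98356) (nat_lit 26) (.e (nat_lit 426363) (nat_lit 15) .nil))))))) (.g (nat_lit 0) .nil .nil)))) (.nd (nat_lit 5) 
(.lf (nat_lit 90577) (.g (nat_lit 4780) (.e (nat_lit 2060) (nat_lit 142) (.e (nat_lit 704590) (nat_lit 3) (.e (nat_lit 163975) (nat_lit 30) (.e (nat_lit 573492) (nat_lit 15) (.e (nat_lit 81956) (nat_lit 23) (.e (nat_lit 98356) (nat_lit 26) (.e (nat_lit 426360) (nat_lit 15) .nil))))))) (.g (nat_lit 6) .nil .nil))) 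
(.lf (nat_lit 90609) (.g (nat_lit 2304) (.e (nat_lit 2078) (nat_lit 142) (.e (nat_lit 704734) (nat_lit 11) (.e (nat_lit 16436) (nat_lit 9) (.e (nat_lit 426555) (nat_lit 32) (.e (nat_lit 376857) (nat_lit 21) (.e (nat_lit 57854) (nat_lit 252) (.e (nat_lit 57351) (nat_lit 0) .nil))))))) (.g (nat_lit 5) .nil .nil))))) (.nd (nat_lit 4) (.nd (nat_lit 5) 
(.lf (nat_lit 90569) (.g (nat_lit 2399) (.e (nat_lit 2059) (nat_lit 142) (.e (nat_lit 704598) (nat_lit 6) (.e (nat_lit 188455) (nat_lit 24) (.e (nat_lit 229681) (nat_lit 244) (.e (nat_lit 163931) (nat_lit 17) (.e (nat_lit 466947) (nat_lit 0) .nil)))))) (.g (nat_lit 0) .nil .nil))) 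
(.lf (nat_lit 90601) (.g (nat_lit 1564) (.e (nat_lit 2076) (nat_lit 142) (.e (nat_lit 704734) (nat_lit 11) (.e (nat_lit 16412) (nat_lit 2) (.e (nat_lit 196681) (nat_lit 17) (.e (nat_lit 131105) (nat_lit 9) .nil))))) .nil))) (.nd (nat_lit 5) 
(.lf (nat_lit 90585) (.g (nat_lit 1239) (.e (nat_lit 2061) (nat_lit 142) (.e (nat_lit 704742) (nat_lit 11) (.e (nat_lit 16433) (nat_lit 9) (.e (nat_lit 426555) (nat_lit 32) .nil)))) .nil)) 
(.lf (nat_lit 90617) (.g (nat_lit 1407) (.e (nat_lit 2081) (nat_lit 142) (.e (nat_lit 704734) (nat_lit 11) (.e (nat_lit 16416) (nat_lit 3) (.e (nat_lit 204876) (nat_lit 31) (.e (nat_lit 384768) (nat_lit 3) (.e (nat_lit 204821) (nat_lit 17) .nil)))))) (.g (nat_lit 4) .nil .nil)))))) (.nd (nat_lit 3) (.nd (nat_lit 4) (.nd (nat_lit 5) 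
(.lf (nat_lit 90565) (.g (nat_lit 1970) (.e (nat_lit 2059) (nat_lit 142) (.e (nat_lit 704598) (nat_lit 6) (.e (nat_lit 188420) (nat_lit 0) (.e (nat_lit 2174) (nat_lit 143) (.e (nat_lit 712752) (nat_lit 29) (.e (nat_lit 442377) (nat_lit 0) .nil)))))) (.g (nat_lit 5) .nil .nil))) 
(.lf (nat_lit 90597) (.g (nat_lit 4649) (.e (nat_lit 2064) (nat_lit 142) (.e (nat_lit 704590) (nat_lit 3) (.e (nat_lit 163975) (nat_lit 30) (.e (nat_lit 573492) (nat_lit 15) (.e (nat_lit 81956) (nat_lit 23) (.e (nat_lit 98356) (nat_lit 26) (.e (nat_lit 426361) (nat_lit 15) .nil))))))) (.g (nat_lit 7) .nil .nil)))) (.nd (nat_lit 5) 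
(.lf (nat_lit 90581) (.g (nat_lit 4009) (.e (nat_lit 2061) (nat_lit 142) (.e (nat_lit 704590) (nat_lit 3) (.e (nat_lit 163975) (nat_lit 30) (.e (nat_lit 573491) (nat_lit 15) (.e (nat_lit 81954) (nat_lit 23) (.e (nat_lit 98356) (nat_lit 26) (.e (nat_lit 426363) (nat_lit 15) .nil))))))) (.g (nat_lit 0) .nil .nil))) 
(.lf (nat_lit 90613) (.g (nat_lit 1053) (.e (nat_lit 2080) (nat_lit 142) (.e (nat_lit 704734) (nat_lit 11) (.e (nat_lit 16416) (nat_lit 3) (.e (nat_lit 204877) (nat_lit 31) .nil)))) .nil)))) (.nd (nat_lit 4) (.nd (nat_lit 5) 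
(.lf (nat_lit 90573) (.g (nat_lit 1653) (.e (nat_lit 2059) (nat_lit 142) (.e (nat_lit 704599) (nat_lit 6) (.e (nat_lit 188453) (nat_lit 24) (.e (nat_lit 229678) (nat_lit 244) (.e (nat_lit 163932) (nat_lit 17) .nil))))) .nil)) 
(.lf (nat_lit 90605) (.g (nat_lit 3182) (.e (nat_lit 2078) (nat_lit 142) (.e (nat_lit 704734) (nat_lit 11) (.e (nat_lit 16416) (nat_lit 3) (.e (nat_lit 204861) (nat_lit 26) (.e (nat_lit 336075) (nat_lit 9) (.e (nat_lit 336324) (nat_lit 18) (.e (nat_lit 204817) (nat_lit 17) .nil))))))) (.g (nat_lit 6) .nil .nil)))) (.nd (nat_lit 5) 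
(.lf (nat_lit 90589) (.g (nat_lit 4818) (.e (nat_lit 2062) (nat_lit 142) (.e (nat_lit 704590) (nat_lit 3) (.e (nat_lit 163975) (nat_lit 30) (.e (nat_lit 573492) (nat_lit 15) (.e (nat_lit 81956) (nat_lit 23) (.e (nat_lit 98356) (nat_lit 26) (.e (nat_lit 426360) (nat_lit 15) .nil))))))) (.g (nat_lit 6) .nil .nil))) 
(.lf (nat_lit 90621) (.g (nat_lit 1559) (.e (nat_lit 2084) (nat_lit 142) (.e (nat_lit 704734) (nat_lit 11) (.e (nat_lit 16412) (nat_lit 2) (.e (nat_lit 196681) (nat_lit 17) (.e (nat_lit 131105) (nat_lit 9) (.e (nat_lit 336324) (nat_lit 18) (.e (nat_lit 204817) (nat_lit 17) .nil))))))) (.g (nat_lit 4) .nil .nil))))))) (.nd (nat_lit 2) (.nd (nat_lit 3) (.nd (nat_lit 4) (.nd (nat_lit 5) 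
(.lf (nat_lit 90563) (.g (nat_lit 1486) (.e (nat_lit 2059) (nat_lit 142) (.e (nat_lit 704598) (nat_lit 6) (.e (nat_lit 188418) (nat_lit 0) (.e (nat_lit 2059) (nat_lit 142) (.e (nat_lit 704598) (nat_lit 6) (.e (nat_lit 188420) (nat_lit 0) .nil)))))) (.g (nat_lit 4) .nil .nil))) 
(.lf (nat_lit 90595) (.g (nat_lit 4757) (.e (nat_lit 2063) (nat_lit 142) (.e (nat_lit 704590) (nat_lit 3) (.e (nat_lit 163975) (nat_lit 30) (.e (nat_lit 573492) (nat_lit 15) (.e (nat_lit 81956) (nat_lit 23) (.e (nat_lit 98356) (nat_lit 26) (.e (nat_lit 426363) (nat_lit 15) .nil))))))) (.g (nat_lit 7) .nil .nil)))) (.nd (nat_lit 5) 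
(.lf (nat_lit 90579) (.g (nat_lit 2165) (.e (nat_lit 2061) (nat_lit 142) (.e (nat_lit 704590) (nat_lit 3) (.e (nat_lit 163975) (nat_lit 30) (.e (nat_lit 573481) (nat_lit 13) (.e (nat_lit 65619) (nat_lit 10) (.e (nat_lit 344117) (nat_lit 21) (.e (nat_lit 516147) (nat_lit 9) (.e (nat_lit 426364) (nat_lit 15) .nil)))))))) (.g (nat_lit 4) .nil .nil))) 
(.lf (nat_lit 90611) (.g (nat_lit 2029) (.e (nat_lit 2080) (nat_lit 142) (.e (nat_lit 704732) (nat_lit 11) (.e (nat_lit 16466) (nat_lit 13) (.e (nat_lit 483393) (nat_lit 23) (.e (nat_lit 335987) (nat_lit 1) .nil))))) .nil)))) (.nd (nat_lit 4) (.nd (nat_lit 5) 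
(.lf (nat_lit 90571) (.g (nat_lit 2081) (.e (nat_lit 2059) (nat_lit 142) (.e (nat_lit 704599) (nat_lit 6) (.e (nat_lit 188418) (nat_lit 0) (.e (nat_lit 2174) (nat_lit 143) (.e (nat_lit 712752) (nat_lit 29) (.e (nat_lit 442377) (nat_lit 0) .nil)))))) (.g (nat_lit 5) .nil .nil))) 
(.lf (nat_lit 90603) (.g (nat_lit 2961) (.e (nat_lit 2078) (nat_lit 142) (.e (nat_lit 704734) (nat_lit 11) (.e (nat_lit 16412) (nat_lit 2) (.e (nat_lit 196681) (nat_lit 17) (.e (nat_lit 131109) (nat_lit 9) (.e (nat_lit 336324) (nat_lit 18) (.e (nat_lit 204817) (nat_lit 17) .nil))))))) (.g (nat_lit 7) .nil .nil)))) (.nd (nat_lit 5) 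
(.lf (nat_lit 90587) (.g (nat_lit 3776) (.e (nat_lit 2062) (nat_lit 142) (.e (nat_lit 704590) (nat_lit 3) (.e (nat_lit 163975) (nat_lit 30) (.e (nat_lit 573491) (nat_lit 15) (.e (nat_lit 81954) (nat_lit 23) (.e (nat_lit 98356) (nat_lit 26) (.e (nat_lit 426360) (nat_lit 15) .nil))))))) (.g (nat_lit 6) .nil .nil))) 
(.lf (nat_lit 90619) (.g (nat_lit 1255) (.e (nat_lit 2082) (nat_lit 142) (.e (nat_lit 704734) (nat_lit 11) (.e (nat_lit 16416) (nat_lit 3) (.e (nat_lit 204876) (nat_lit 31) (.e (nat_lit 376833) (nat_lit 0) .nil))))) .nil))))) (.nd (nat_lit 3) (.nd (nat_lit 4) (.nd (nat_lit 5) 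
(.lf (nat_lit 90567) (.g (nat_lit 557) (.e (nat_lit 2059) (nat_lit 142) (.e (nat_lit 704598) (nat_lit 6) (.e (nat_lit 188428) (nat_lit 20) (.e (nat_lit 3402) (nat_lit 211) (.e (nat_lit 647185) (nat_lit 6) .nil))))) .nil)) 
(.lf (nat_lit 90599) (.g (nat_lit 1886) (.e (nat_lit 2074) (nat_lit 142) (.e (nat_lit 704734) (nat_lit 11) (.e (nat_lit 16466) (nat_lit 13) (.e (nat_lit 483393) (nat_lit 23) (.e (nat_lit 335988) (nat_lit 1) (.e (nat_lit 57854) (nat_lit 252) (.e (nat_lit 57351) (nat_lit 0) .nil))))))) (.g (nat_lit 5) .nil .nil)))) (.nd (nat_lit 5) 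
(.lf (nat_lit 90583) (.g (nat_lit 4731) (.e (nat_lit 2061) (nat_lit 142) (.e (nat_lit 704590) (nat_lit 3) (.e (nat_lit 163975) (nat_lit 30) (.e (nat_lit 573492) (nat_lit 15) (.e (nat_lit 81956) (nat_lit 23) (.e (nat_lit 98356) (nat_lit 26) (.e (nat_lit 426363) (nat_lit 15) .nil))))))) (.g (nat_lit 7) .nil .nil))) 
(.lf (nat_lit 90615) (.g (nat_lit 1534) (.e (nat_lit 2080) (nat_lit 142) (.e (nat_lit 704734) (nat_lit 11) (.e (nat_lit 16436) (nat_lit 9) (.e (nat_lit 426555) (nat_lit 32) (.e (nat_lit 376859) (nat_lit 21) .nil))))) .nil)))) (.nd (nat_lit 4) (.nd (nat_lit 5) 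
(.lf (nat_lit 90575) (.g (nat_lit 3736) (.e (nat_lit 2060) (nat_lit 142) (.e (nat_lit 704590) (nat_lit 3) (.e (nat_lit 163975) (nat_lit 30) (.e (nat_lit 573491) (nat_lit 15) (.e (nat_lit 81954) (nat_lit 23) (.e (nat_lit 98356) (nat_lit 26) (.e (nat_lit 426360) (nat_lit 15) .nil))))))) (.g (nat_lit 6) .nil .nil))) 
(.lf (nat_lit 90607) (.g (nat_lit 1306) (.e (nat_lit 2078) (nat_lit 142) (.e (nat_lit 704734) (nat_lit 11) (.e (nat_lit 16416) (nat_lit 3) (.e (nat_lit 204876) (nat_lit 31) (.e (nat_lit 384768) (nat_lit 3) .nil))))) .nil))) (.nd (nat_lit 5) 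
(.lf (nat_lit 90591) (.g (nat_lit 2711) (.e (nat_lit 2062) (nat_lit 142) (.e (nat_lit 704596) (nat_lit 5) (.e (nat_lit 180277) (nat_lit 32) (.e (nat_lit 1661) (nat_lit 115) (.e (nat_lit 393268) (nat_lit 23) (.e (nat_lit 426363) (nat_lit 15) .nil)))))) (.g (nat_lit 6) .nil .nil))) 
(.lf (nat_lit 90623) (.g (nat_lit 2181) (.e (nat_lit 2084) (nat_lit 142) (.e (nat_lit 704734) (nat_lit 11) (.e (nat_lit 16416) (nat_lit 3) (.e (nat_lit 204861) (nat_lit 26) (.e (nat_lit 336075) (nat_lit 9) (.e (nat_lit 336324) (nat_lit 18) (.e (nat_lit 204817) (nat_lit 17) .nil))))))) (.g (nat_lit 4) .nil .nil)))))))))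

noncomputable def tv1240 : DT := (.nd (nat_lit 0) (.nd (nat_lit 1) (.nd (nat_lit 2) (.nd (nat_lit 3) (.nd (nat_lit 4) (.nd (nat_lit 5) 
(.lf (nat_lit 90624) (.g (nat_lit 2282) (.e (nat_lit 2084) (nat_lit 142) (.e (nat_lit 704734) (nat_lit 11) (.e (nat_lit 16416) (nat_lit 3) (.e (nat_lit 204861) (nat_lit 26) (.e (nat_lit 336076) (nat_lit 9) (.e (nat_lit 336324) (nat_lit 18) (.e (nat_lit 204817) (nat_lit 17) .nil))))))) (.g (nat_lit 4) .nil .nil))) 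
(.lf (nat_lit 90656) (.g (nat_lit 2923) (.e (nat_lit 2108) (nat_lit 142) (.e (nat_lit 704738) (nat_lit 11) (.e (nat_lit 16425) (nat_lit 7) (.e (nat_lit 409649) (nat_lit 18) (.e (nat_lit 303132) (nat_lit 9) .nil))))) .nil))) (.nd (nat_lit 5) 
(.lf (nat_lit 90640) (.g (nat_lit 1868) (.e (nat_lit 2092) (nat_lit 142) (.e (nat_lit 704734) (nat_lit 11) (.e (nat_lit 16466) (nat_lit 13) (.e (nat_lit 483393) (nat_lit 23) (.e (nat_lit 335988) (nat_lit 1) (.e (nat_lit 57854) (nat_lit 252) (.e (nat_lit 57351) (nat_lit 0) .nil))))))) (.g (nat_lit 5) .nil .nil))) 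
(.lf (nat_lit 90672) (.g (nat_lit 1194) (.e (nat_lit 2114) (nat_lit 142) (.e (nat_lit 704738) (nat_lit 11) (.e (nat_lit 16416) (nat_lit 3) (.e (nat_lit 204861) (nat_lit 26) .nil)))) .nil)))) (.nd (nat_lit 4) (.nd (nat_lit 5) 
(.lf (nat_lit 90632) (.g (nat_lit 1793) (.e (nat_lit 2089) (nat_lit 142) (.e (nat_lit 704734) (nat_lit 11) (.e (nat_lit 16416) (nat_lit 3) (.e (nat_lit 204865) (nat_lit 28) .nil)))) .nil)) 
(.lf (nat_lit 90664) (.g (nat_lit 2347) (.e (nat_lit 2111) (nat_lit 142) (.e (nat_lit 704738) (nat_lit 11) (.e (nat_lit 16425) (nat_lit 7) (.e (nat_lit 409649) (nat_lit 18) .nil)))) .nil))) (.nd (nat_lit 5) 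
(.lf (nat_lit 90648) (.g (nat_lit 1850) (.e (nat_lit 2096) (nat_lit 142) (.e (nat_lit 704734) (nat_lit 11) (.e (nat_lit 16466) (nat_lit 13) (.e (nat_lit 483393) (nat_lit 23) (.e (nat_lit 335988) (nat_lit 1) (.e (nat_lit 57854) (nat_lit 252) (.e (nat_lit 57351) (nat_lit 0) .nil))))))) (.g (nat_lit 5) .nil .nil))) 
(.lf (nat_lit 90680) (.g (nat_lit 2818) (.e (nat_lit 2121) (nat_lit 142) (.e (nat_lit 704738) (nat_lit 11) (.e (nat_lit 16425) (nat_lit 7) (.e (nat_lit 409649) (nat_lit 18) (.e (nat_lit 303140) (nat_lit 10) .nil))))) .nil))))) (.nd (nat_lit 3) (.nd (nat_lit 4) (.nd (nat_lit 5) 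
(.lf (nat_lit 90628) (.g (nat_lit 1839) (.e (nat_lit 2086) (nat_lit 142) (.e (nat_lit 704734) (nat_lit 11) (.e (nat_lit 16466) (nat_lit 13) (.e (nat_lit 483393) (nat_lit 23) (.e (nat_lit 335988) (nat_lit 1) (.e (nat_lit 57854) (nat_lit 252) (.e (nat_lit 57351) (nat_lit 0) .nil))))))) (.g (nat_lit 5) .nil .nil))) 
(.lf (nat_lit 90660) (.g (nat_lit 2603) (.e (nat_lit 2108) (nat_lit 142) (.e (nat_lit 704738) (nat_lit 11) (.e (nat_lit 16425) (nat_lit 7) (.e (nat_lit 409649) (nat_lit 18) (.e (nat_lit 303140) (nat_lit 10) (.e (nat_lit 434209) (nat_lit 18) (.e (nat_lit 5224) (nat_lit 296) (.e (nat_lit 164076) (nat_lit 61) .nil)))))))) (.g (nat_lit 4) .nil .nil)))) (.nd (nat_lit 5) 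
(.lf (nat_lit 90644) (.g (nat_lit 1008) (.e (nat_lit 2094) (nat_lit 142) (.e (nat_lit 704734) (nat_lit 11) (.e (nat_lit 16416) (nat_lit 3) (.e (nat_lit 204877) (nat_lit 31) .nil)))) .nil)) 
(.lf (nat_lit 90676) (.g (nat_lit 1945) (.e (nat_lit 2116) (nat_lit 142) (.e (nat_lit 704738) (nat_lit 11) (.e (nat_lit 16425) (nat_lit 7) (.e (nat_lit 409649) (nat_lit 18) .nil)))) .nil)))) (.nd (nat_lit 4) (.nd (nat_lit 5) 
(.lf (nat_lit 90636) (.g (nat_lit 3437) (.e (nat_lit 2089) (nat_lit 142) (.e (nat_lit 704734) (nat_lit 11) (.e (nat_lit 16436) (nat_lit 9) (.e (nat_lit 426555) (nat_lit 32) (.e (nat_lit 376860) (nat_lit 21) (.e (nat_lit 57852) (nat_lit 252) (.e (nat_lit 57361) (nat_lit 0) .nil))))))) (.g (nat_lit 6) .nil .nil))) 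
(.lf (nat_lit 90668) (.g (nat_lit 2942) (.e (nat_lit 2112) (nat_lit 142) (.e (nat_lit 704738) (nat_lit 11) (.e (nat_lit 16425) (nat_lit 7) (.e (nat_lit 409646) (nat_lit 18) (.e (nat_lit 303143) (nat_lit 12) .nil))))) .nil))) (.nd (nat_lit 5) 
(.lf (nat_lit 90652) (.g (nat_lit 2419) (.e (nat_lit 2108) (nat_lit 142) (.e (nat_lit 704738) (nat_lit 11) (.e (nat_lit 16425) (nat_lit 7) (.e (nat_lit 409645) (nat_lit 18) .nil)))) .nil)) 
(.lf (nat_lit 90684) (.g (nat_lit 996) (.e (nat_lit 2124) (nat_lit 142) (.e (nat_lit 704734) (nat_lit 11) (.e (nat_lit 16416) (nat_lit 3) (.e (nat_lit 204876) (nat_lit 31) .nil)))) .nil)))))) (.nd (nat_lit 2) (.nd (nat_lit 3) (.nd (nat_lit 4) (.nd (nat_lit 5) 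
(.lf (nat_lit 90626) (.g (nat_lit 906) (.e (nat_lit 2084) (nat_lit 142) (.e (nat_lit 704734) (nat_lit 11) (.e (nat_lit 16416) (nat_lit 3) (.e (nat_lit 204877) (nat_lit 31) .nil)))) .nil)) 
(.lf (nat_lit 90658) (.g (nat_lit 3078) (.e (nat_lit 2108) (nat_lit 142) (.e (nat_lit 704738) (nat_lit 11) (.e (nat_lit 16425) (nat_lit 7) (.e (nat_lit 409649) (nat_lit 18) (.e (nat_lit 303132) (nat_lit 9) (.e (nat_lit 426109) (nat_lit 1) (.e (nat_lit 164330) (nat_lit 230) (.e (nat_lit 164080) (nat_lit 61) .nil)))))))) (.g (nat_lit 4) .nil .nil)))) (.nd (nat_lit 5) 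
(.lf (nat_lit 90642) (.g (nat_lit 1845) (.e (nat_lit 2093) (nat_lit 142) (.e (nat_lit 704734) (nat_lit 11) (.e (nat_lit 16466) (nat_lit 13) (.e (nat_lit 483393) (nat_lit 23) (.e (nat_lit 335988) (nat_lit 1) (.e (nat_lit 57854) (nat_lit 252) (.e (nat_lit 57351) (nat_lit 0) .nil))))))) (.g (nat_lit 5) .nil .nil))) 
(.lf (nat_lit 90674) (.g (nat_lit 2382) (.e (nat_lit 2114) (nat_lit 142) (.e (nat_lit 704738) (nat_lit 11) (.e (nat_lit 16425) (nat_lit 7) (.e (nat_lit 409648) (nat_lit 18) .nil)))) .nil)))) (.nd (nat_lit 4) (.nd (nat_lit 5) 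
(.lf (nat_lit 90634) (.g (nat_lit 1397) (.e (nat_lit 2089) (nat_lit 142) (.e (nat_lit 704734) (nat_lit 11) (.e (nat_lit 16416) (nat_lit 3) (.e (nat_lit 204876) (nat_lit 31) (.e (nat_lit 384768) (nat_lit 3) .nil))))) .nil)) 
(.lf (nat_lit 90666) (.g (nat_lit 2943) (.e (nat_lit 2111) (nat_lit 142) (.e (nat_lit 704738) (nat_lit 11) (.e (nat_lit 16425) (nat_lit 7) (.e (nat_lit 409649) (nat_lit 18) (.e (nat_lit 303140) (nat_lit 10) (.e (nat_lit 434209) (nat_lit 18) (.e (nat_lit 5224) (nat_lit 296) (.e (nat_lit 164080) (nat_lit 61) .nil)))))))) (.g (nat_lit 4) .nil .nil)))) (.nd (nat_lit 5) 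
(.lf (nat_lit 90650) (.g (nat_lit 610) (.e (nat_lit 2108) (nat_lit 142) (.e (nat_lit 704738) (nat_lit 11) (.e (nat_lit 16425) (nat_lit 7) .nil))) .nil)) 
(.lf (nat_lit 90682) (.g (nat_lit 3070) (.e (nat_lit 2122) (nat_lit 142) (.e (nat_lit 704738) (nat_lit 11) (.e (nat_lit 16425) (nat_lit 7) (.e (nat_lit 409649) (nat_lit 18) (.e (nat_lit 303143) (nat_lit 12) .nil))))) .nil))))) (.nd (nat_lit 3) (.nd (nat_lit 4) (.nd (nat_lit 5) 
(.lf (nat_lit 90630) (.g (nat_lit 1058) (.e (nat_lit 2087) (nat_lit 142) (.e (nat_lit 704734) (nat_lit 11) (.e (nat_lit 16416) (nat_lit 3) (.e (nat_lit 204876) (nat_lit 31) .nil)))) .nil)) 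
(.lf (nat_lit 90662) (.g (nat_lit 2723) (.e (nat_lit 2108) (nat_lit 142) (.e (nat_lit 704738) (nat_lit 11) (.e (nat_lit 16425) (nat_lit 7) (.e (nat_lit 409649) (nat_lit 18) (.e (nat_lit 303143) (nat_lit 12) .nil))))) .nil))) (.nd (nat_lit 5) 
(.lf (nat_lit 90646) (.g (nat_lit 1930) (.e (nat_lit 2096) (nat_lit 142) (.e (nat_lit 704734) (nat_lit 11) (.e (nat_lit 16412) (nat_lit 2) (.e (nat_lit 196681) (nat_lit 17) (.e (nat_lit 131123) (nat_lit 12) (.e (nat_lit 385066) (nat_lit 26) (.e (nat_lit 532481) (nat_lit 0) .nil))))))) (.g (nat_lit 4) .nil .nil))) 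
(.lf (nat_lit 90678) (.g (nat_lit 2466) (.e (nat_lit 2121) (nat_lit 142) (.e (nat_lit 704738) (nat_lit 11) (.e (nat_lit 16425) (nat_lit 7) (.e (nat_lit 409648) (nat_lit 18) .nil)))) .nil)))) (.nd (nat_lit 4) (.nd (nat_lit 5) 
(.lf (nat_lit 90638) (.g (nat_lit 1370) (.e (nat_lit 2090) (nat_lit 142) (.e (nat_lit 704734) (nat_lit 11) (.e (nat_lit 16416) (nat_lit 3) (.e (nat_lit 204876) (nat_lit 31) (.e (nat_lit 384768) (nat_lit 3) (.e (nat_lit 204821) (nat_lit 17) .nil)))))) (.g (nat_lit 4) .nil .nil))) 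
(.lf (nat_lit 90670) (.g (nat_lit 1181) (.e (nat_lit 2114) (nat_lit 142) (.e (nat_lit 704737) (nat_lit 11) (.e (nat_lit 16416) (nat_lit 3) (.e (nat_lit 204861) (nat_lit 26) .nil)))) .nil))) (.nd (nat_lit 5) 
(.lf (nat_lit 90654) (.g (nat_lit 2193) (.e (nat_lit 2108) (nat_lit 142) (.e (nat_lit 704738) (nat_lit 11) (.e (nat_lit 16425) (nat_lit 7) (.e (nat_lit 409648) (nat_lit 18) .nil)))) .nil)) 
(.lf (nat_lit 90686) (.g (nat_lit 1354) (.e (nat_lit 2128) (nat_lit 142) (.e (nat_lit 704734) (nat_lit 11) (.e (nat_lit 16416) (nat_lit 3) (.e (nat_lit 204876) (nat_lit 31) (.e (nat_lit 384768) (nat_lit 3) .nil))))) .nil))))))) (.nd (nat_lit 1) (.nd (nat_lit 2) (.nd (nat_lit 3) (.nd (nat_lit 4) (.nd (nat_lit 5) 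
(.lf (nat_lit 90625) (.g (nat_lit 993) (.e (nat_lit 2084) (nat_lit 142) (.e (nat_lit 704734) (nat_lit 11) (.e (nat_lit 16416) (nat_lit 3) (.e (nat_lit 204876) (nat_lit 31) .nil)))) .nil)) 
(.lf (nat_lit 90657) (.g (nat_lit 3159) (.e (nat_lit 2108) (nat_lit 142) (.e (nat_lit 704738) (nat_lit 11) (.e (nat_lit 16425) (nat_lit 7) (.e (nat_lit 409649) (nat_lit 18) (.e (nat_lit 303132) (nat_lit 9) (.e (nat_lit 426109) (nat_lit 1) (.e (nat_lit 164326) (nat_lit 230) (.e (nat_lit 164080) (nat_lit 61) .nil)))))))) (.g (nat_lit 4) .nil .nil)))) (.nd (nat_lit 5) 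
(.lf (nat_lit 90641) (.g (nat_lit 1602) (.e (nat_lit 2093) (nat_lit 142) (.e (nat_lit 704734) (nat_lit 11) (.e (nat_lit 16412) (nat_lit 2) (.e (nat_lit 196681) (nat_lit 17) (.e (nat_lit 131105) (nat_lit 9) .nil))))) .nil)) 
(.lf (nat_lit 90673) (.g (nat_lit 3673) (.e (nat_lit 2114) (nat_lit 142) (.e (nat_lit 704738) (nat_lit 11) (.e (nat_lit 16416) (nat_lit 3) (.e (nat_lit 204861) (nat_lit 26) (.e (nat_lit 336194) (nat_lit 12) (.e (nat_lit 385068) (nat_lit 26) (.e (nat_lit 532486) (nat_lit 0) .nil))))))) (.g (nat_lit 0) .nil .nil))))) (.nd (nat_lit 4) (.nd (nat_lit 5) 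
(.lf (nat_lit 90633) (.g (nat_lit 2327) (.e (nat_lit 2089) (nat_lit 142) (.e (nat_lit 704734) (nat_lit 11) (.e (nat_lit 16416) (nat_lit 3) (.e (nat_lit 204866) (nat_lit 28) (.e (nat_lit 360192) (nat_lit 3) .nil))))) .nil)) 
(.lf (nat_lit 90665) (.g (nat_lit 3261) (.e (nat_lit 2111) (nat_lit 142) (.e (nat_lit 704738) (nat_lit 11) (.e (nat_lit 16425) (nat_lit 7) (.e (nat_lit 409649) (nat_lit 18) (.e (nat_lit 303132) (nat_lit 9) .nil))))) .nil))) (.nd (nat_lit 5) 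
(.lf (nat_lit 90649) (.g (nat_lit 2005) (.e (nat_lit 2098) (nat_lit 142) (.e (nat_lit 704590) (nat_lit 3) (.e (nat_lit 163975) (nat_lit 30) (.e (nat_lit 573491) (nat_lit 15) (.e (nat_lit 81954) (nat_lit 23) (.e (nat_lit 98356) (nat_lit 26) (.e (nat_lit 433920) (nat_lit 15) .nil))))))) (.g (nat_lit 4) .nil .nil))) 
(.lf (nat_lit 90681) (.g (nat_lit 2409) (.e (nat_lit 2122) (nat_lit 142) (.e (nat_lit 704738) (nat_lit 11) (.e (nat_lit 16425) (nat_lit 7) (.e (nat_lit 409643) (nat_lit 18) .nil)))) .nil))))) (.nd (nat_lit 3) (.nd (nat_lit 4) (.nd (nat_lit 5) 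
(.lf (nat_lit 90629) (.g (nat_lit 1367) (.e (nat_lit 2087) (nat_lit 142) (.e (nat_lit 704734) (nat_lit 11) (.e (nat_lit 16412) (nat_lit 2) (.e (nat_lit 196674) (nat_lit 15) (.e (nat_lit 89856) (nat_lit 3) .nil))))) .nil)) 
(.lf (nat_lit 90661) (.g (nat_lit 2498) (.e (nat_lit 2108) (nat_lit 142) (.e (nat_lit 704738) (nat_lit 11) (.e (nat_lit 16425) (nat_lit 7) (.e (nat_lit 409649) (nat_lit 18) (.e (nat_lit 303140) (nat_lit 10) (.e (nat_lit 434209) (nat_lit 18) (.e (nat_lit 5224) (nat_lit 296) (.e (nat_lit 164080) (nat_lit 61) .nil)))))))) (.g (nat_lit 4) .nil .nil)))) (.nd (nat_lit 5) 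
(.lf (nat_lit 90645) (.g (nat_lit 1781) (.e (nat_lit 2096) (nat_lit 142) (.e (nat_lit 704734) (nat_lit 11) (.e (nat_lit 16412) (nat_lit 2) (.e (nat_lit 196681) (nat_lit 17) (.e (nat_lit 131120) (nat_lit 12) (.e (nat_lit 385066) (nat_lit 26) (.e (nat_lit 532481) (nat_lit 0) .nil))))))) (.g (nat_lit 4) .nil .nil))) 
(.lf (nat_lit 90677) (.g (nat_lit 2424) (.e (nat_lit 2116) (nat_lit 142) (.e (nat_lit 704738) (nat_lit 11) (.e (nat_lit 16425) (nat_lit 7) (.e (nat_lit 409649) (nat_lit 18) (.e (nat_lit 303140) (nat_lit 10) .nil))))) .nil)))) (.nd (nat_lit 4) (.nd (nat_lit 5) 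
(.lf (nat_lit 90637) (.g (nat_lit 1386) (.e (nat_lit 2090) (nat_lit 142) (.e (nat_lit 704734) (nat_lit 11) (.e (nat_lit 16412) (nat_lit 2) (.e (nat_lit 196674) (nat_lit 15) (.e (nat_lit 89856) (nat_lit 3) .nil))))) .nil)) 
(.lf (nat_lit 90669) (.g (nat_lit 3094) (.e (nat_lit 2112) (nat_lit 142) (.e (nat_lit 704738) (nat_lit 11) (.e (nat_lit 16425) (nat_lit 7) (.e (nat_lit 409649) (nat_lit 18) (.e (nat_lit 303143) (nat_lit 12) .nil))))) .nil))) (.nd (nat_lit 5) 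
(.lf (nat_lit 90653) (.g (nat_lit 2040) (.e (nat_lit 2108) (nat_lit 142) (.e (nat_lit 704738) (nat_lit 11) (.e (nat_lit 16425) (nat_lit 7) (.e (nat_lit 409646) (nat_lit 18) .nil)))) .nil)) 
(.lf (nat_lit 90685) (.g (nat_lit 1530) (.e (nat_lit 2124) (nat_lit 142) (.e (nat_lit 704734) (nat_lit 11) (.e (nat_lit 16416) (nat_lit 3) (.e (nat_lit 204877) (nat_lit 31) (.e (nat_lit 384768) (nat_lit 3) .nil))))) .nil)))))) (.nd (nat_lit 2) (.nd (nat_lit 3) (.nd (nat_lit 4) (.nd (nat_lit 5) 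
(.lf (nat_lit 90627) (.g (nat_lit 1589) (.e (nat_lit 2086) (nat_lit 142) (.e (nat_lit 704734) (nat_lit 11) (.e (nat_lit 16412) (nat_lit 2) (.e (nat_lit 196681) (nat_lit 17) (.e (nat_lit 131105) (nat_lit 9) .nil))))) .nil)) 
(.lf (nat_lit 90659) (.g (nat_lit 2488) (.e (nat_lit 2108) (nat_lit 142) (.e (nat_lit 704738) (nat_lit 11) (.e (nat_lit 16425) (nat_lit 7) (.e (nat_lit 409649) (nat_lit 18) (.e (nat_lit 303140) (nat_lit 10) .nil))))) .nil))) (.nd (nat_lit 5) 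
(.lf (nat_lit 90643) (.g (nat_lit 1490) (.e (nat_lit 2094) (nat_lit 142) (.e (nat_lit 704734) (nat_lit 11) (.e (nat_lit 16412) (nat_lit 2) (.e (nat_lit 196681) (nat_lit 17) (.e (nat_lit 131105) (nat_lit 9) .nil))))) .nil)) 
(.lf (nat_lit 90675) (.g (nat_lit 2235) (.e (nat_lit 2114) (nat_lit 142) (.e (nat_lit 704738) (nat_lit 11) (.e (nat_lit 16425) (nat_lit 7) (.e (nat_lit 409649) (nat_lit 18) .nil)))) .nil)))) (.nd (nat_lit 4) (.nd (nat_lit 5) 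
(.lf (nat_lit 90635) (.g (nat_lit 1598) (.e (nat_lit 2089) (nat_lit 142) (.e (nat_lit 704734) (nat_lit 11) (.e (nat_lit 16416) (nat_lit 3) (.e (nat_lit 204877) (nat_lit 31) (.e (nat_lit 384768) (nat_lit 3) .nil))))) .nil)) 
(.lf (nat_lit 90667) (.g (nat_lit 2434) (.e (nat_lit 2112) (nat_lit 142) (.e (nat_lit 704738) (nat_lit 11) (.e (nat_lit 16425) (nat_lit 7) (.e (nat_lit 409643) (nat_lit 18) .nil)))) .nil))) (.nd (nat_lit 5) 
(.lf (nat_lit 90651) (.g (nat_lit 2689) (.e (nat_lit 2108) (nat_lit 142) (.e (nat_lit 704738) (nat_lit 11) (.e (nat_lit 16425) (nat_lit 7) (.e (nat_lit 409643) (nat_lit 18) (.e (nat_lit 303143) (nat_lit 12) .nil))))) .nil)) 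
(.lf (nat_lit 90683) (.g (nat_lit 1692) (.e (nat_lit 2124) (nat_lit 142) (.e (nat_lit 704734) (nat_lit 11) (.e (nat_lit 16412) (nat_lit 2) (.e (nat_lit 196681) (nat_lit 17) (.e (nat_lit 131105) (nat_lit 9) .nil))))) .nil))))) (.nd (nat_lit 3) (.nd (nat_lit 4) (.nd (nat_lit 5) 
(.lf (nat_lit 90631) (.g (nat_lit 1596) (.e (nat_lit 2087) (nat_lit 142) (.e (nat_lit 704734) (nat_lit 11) (.e (nat_lit 16416) (nat_lit 3) (.e (nat_lit 204877) (nat_lit 31) (.e (nat_lit 384768) (nat_lit 3) .nil))))) .nil)) 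
(.lf (nat_lit 90663) (.g (nat_lit 3383) (.e (nat_lit 2111) (nat_lit 142) (.e (nat_lit 704738) (nat_lit 11) (.e (nat_lit 16425) (nat_lit 7) (.e (nat_lit 409648) (nat_lit 18) (.e (nat_lit 303137) (nat_lit 10) .nil))))) .nil))) (.nd (nat_lit 5) 
(.lf (nat_lit 90647) (.g (nat_lit 1545) (.e (nat_lit 2096) (nat_lit 142) (.e (nat_lit 704734) (nat_lit 11) (.e (nat_lit 16466) (nat_lit 13) (.e (nat_lit 483393) (nat_lit 23) (.e (nat_lit 335987) (nat_lit 1) (.e (nat_lit 57854) (nat_lit 252) (.e (nat_lit 57351) (nat_lit 0) .nil))))))) (.g (nat_lit 4) .nil .nil))) 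
(.lf (nat_lit 90679) (.g (nat_lit 2339) (.e (nat_lit 2121) (nat_lit 142) (.e (nat_lit 704738) (nat_lit 11) (.e (nat_lit 16425) (nat_lit 7) (.e (nat_lit 409649) (nat_lit 18) .nil)))) .nil)))) (.nd (nat_lit 4) (.nd (nat_lit 5) 
(.lf (nat_lit 90639) (.g (nat_lit 1546) (.e (nat_lit 2090) (nat_lit 142) (.e (nat_lit 704734) (nat_lit 11) (.e (nat_lit 16416) (nat_lit 3) (.e (nat_lit 204877) (nat_lit 31) (.e (nat_lit 384768) (nat_lit 3) (.e (nat_lit 204821) (nat_lit 17) .nil)))))) (.g (nat_lit 4) .nil .nil))) 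
(.lf (nat_lit 90671) (.g (nat_lit 1775) (.e (nat_lit 2114) (nat_lit 142) (.e (nat_lit 704737) (nat_lit 11) (.e (nat_lit 16416) (nat_lit 3) (.e (nat_lit 204861) (nat_lit 26) (.e (nat_lit 336076) (nat_lit 9) .nil))))) .nil))) (.nd (nat_lit 5) 
(.lf (nat_lit 90655) (.g (nat_lit 2009) (.e (nat_lit 2108) (nat_lit 142) (.e (nat_lit 704738) (nat_lit 11) (.e (nat_lit 16425) (nat_lit 7) (.e (nat_lit 409649) (nat_lit 18) .nil)))) .nil)) 
(.lf (nat_lit 90687) (.g (nat_lit 1399) (.e (nat_lit 2135) (nat_lit 142) (.e (nat_lit 704738) (nat_lit 11) (.e (nat_lit 16416) (nat_lit 3) (.e (nat_lit 204861) (nat_lit 26) .nil)))) .nil))))))))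

noncomputable def tv1241 : DT := (.nd (nat_lit 0) (.nd (nat_lit 1) (.nd (nat_lit 2) (.nd (nat_lit 3) (.nd (nat_lit 4) (.nd (nat_lit 5) 
(.lf (nat_lit 90688) (.g (nat_lit 423) (.e (nat_lit 2135) (nat_lit 142) (.e (nat_lit 704738) (nat_lit 11) (.e (nat_lit 16425) (nat_lit 7) .nil))) .nil)) 
(.lf (nat_lit 90720) (.g (nat_lit 3756) (.e (nat_lit 2143) (nat_lit 142) (.e (nat_lit 704741) (nat_lit 11) (.e (nat_lit 16416) (nat_lit 3) (.e (nat_lit 204861) (nat_lit 26) (.e (nat_lit 336076) (nat_lit 9) (.e (nat_lit 336326) (nat_lit 18) (.e (nat_lit 204819) (nat_lit 17) .nil))))))) (.g (nat_lit 7) .nil .nil)))) (.nd (nat_lit 5) 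
(.lf (nat_lit 90704) (.g (nat_lit 3875) (.e (nat_lit 2143) (nat_lit 142) (.e (nat_lit 712448) (nat_lit 3) (.e (nat_lit 163979) (nat_lit 30) (.e (nat_lit 573482) (nat_lit 13) (.e (nat_lit 65604) (nat_lit 9) (.e (nat_lit 336013) (nat_lit 2) (.e (nat_lit 90170) (nat_lit 13) (.e (nat_lit 172135) (nat_lit 15) .nil)))))))) (.g (nat_lit 7) .nil .nil))) 
(.lf (nat_lit 90736) (.g (nat_lit 3946) (.e (nat_lit 2146) (nat_lit 142) (.e (nat_lit 704588) (nat_lit 3) (.e (nat_lit 163978) (nat_lit 30) (.e (nat_lit 573485) (nat_lit 13) (.e (nat_lit 65604) (nat_lit 9) (.e (nat_lit 336013) (nat_lit 2) (.e (nat_lit 90170) (nat_lit 13) (.e (nat_lit 172135) (nat_lit 15) .nil)))))))) (.g (nat_lit 0) .nil .nil))))) (.nd (nat_lit 4) (.nd (nat_lit 5) 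
(.lf (nat_lit 90696) (.g (nat_lit 3078) (.e (nat_lit 2143) (nat_lit 142) (.e (nat_lit 712448) (nat_lit 3) (.e (nat_lit 163976) (nat_lit 30) (.e (nat_lit 573481) (nat_lit 13) (.e (nat_lit 65604) (nat_lit 9) (.e (nat_lit 336013) (nat_lit 2) (.e (nat_lit 90170) (nat_lit 13) (.e (nat_lit 172135) (nat_lit 15) .nil)))))))) (.g (nat_lit 7) .nil .nil))) 
(.lf (nat_lit 90728) (.g (nat_lit 1807) (.e (nat_lit 2145) (nat_lit 142) (.e (nat_lit 704741) (nat_lit 11) (.e (nat_lit 16412) (nat_lit 2) (.e (nat_lit 196681) (nat_lit 17) (.e (nat_lit 131120) (nat_lit 12) .nil))))) .nil))) (.nd (nat_lit 5) 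
(.lf (nat_lit 90712) (.g (nat_lit 2043) (.e (nat_lit 2143) (nat_lit 142) (.e (nat_lit 704594) (nat_lit 5) (.e (nat_lit 180278) (nat_lit 32) (.e (nat_lit 1428) (nat_lit 108) (.e (nat_lit 336430) (nat_lit 29) (.e (nat_lit 442376) (nat_lit 0) .nil)))))) (.g (nat_lit 0) .nil .nil))) 
(.lf (nat_lit 90744) (.g (nat_lit 3451) (.e (nat_lit 2146) (nat_lit 142) (.e (nat_lit 704588) (nat_lit 3) (.e (nat_lit 163979) (nat_lit 30) (.e (nat_lit 573493) (nat_lit 15) (.e (nat_lit 81953) (nat_lit 22) (.e (nat_lit 90170) (nat_lit 13) (.e (nat_lit 172135) (nat_lit 15) .nil))))))) (.g (nat_lit 0) .nil .nil)))))) (.nd (nat_lit 3) (.nd (nat_lit 4) (.nd (nat_lit 5) 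
(.lf (nat_lit 90692) (.g (nat_lit 3049) (.e (nat_lit 2135) (nat_lit 142) (.e (nat_lit 704738) (nat_lit 11) (.e (nat_lit 16425) (nat_lit 7) (.e (nat_lit 409648) (nat_lit 18) (.e (nat_lit 303137) (nat_lit 10) .nil))))) .nil)) 
(.lf (nat_lit 90724) (.g (nat_lit 3151) (.e (nat_lit 2143) (nat_lit 142) (.e (nat_lit 704741) (nat_lit 11) (.e (nat_lit 16466) (nat_lit 13) (.e (nat_lit 483393) (nat_lit 23) (.e (nat_lit 335988) (nat_lit 1) (.e (nat_lit 57852) (nat_lit 252) (.e (nat_lit 57350) (nat_lit 0) .nil))))))) (.g (nat_lit 7) .nil .nil)))) (.nd (nat_lit 5) 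
(.lf (nat_lit 90708) (.g (nat_lit 2638) (.e (nat_lit 2143) (nat_lit 142) (.e (nat_lit 712448) (nat_lit 3) (.e (nat_lit 163979) (nat_lit 30) (.e (nat_lit 573491) (nat_lit 15) (.e (nat_lit 81954) (nat_lit 23) (.e (nat_lit 98359) (nat_lit 26) (.e (nat_lit 426407) (nat_lit 15) .nil))))))) (.g (nat_lit 6) .nil .nil))) 
(.lf (nat_lit 90740) (.g (nat_lit 3711) (.e (nat_lit 2146) (nat_lit 142) (.e (nat_lit 704588) (nat_lit 3) (.e (nat_lit 163979) (nat_lit 30) (.e (nat_lit 573482) (nat_lit 13) (.e (nat_lit 65604) (nat_lit 9) (.e (nat_lit 336028) (nat_lit 3) (.e (nat_lit 98359) (nat_lit 26) (.e (nat_lit 426407) (nat_lit 15) .nil)))))))) (.g (nat_lit 0) .nil .nil))))) (.nd (nat_lit 4) (.nd (nat_lit 5) 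
(.lf (nat_lit 90700) (.g (nat_lit 2437) (.e (nat_lit 2143) (nat_lit 142) (.e (nat_lit 712448) (nat_lit 3) (.e (nat_lit 163976) (nat_lit 30) (.e (nat_lit 573492) (nat_lit 15) (.e (nat_lit 81953) (nat_lit 22) (.e (nat_lit 90170) (nat_lit 13) (.e (nat_lit 172135) (nat_lit 15) .nil))))))) (.g (nat_lit 6) .nil .nil))) 
(.lf (nat_lit 90732) (.g (nat_lit 2554) (.e (nat_lit 2146) (nat_lit 142) (.e (nat_lit 704588) (nat_lit 3) (.e (nat_lit 163976) (nat_lit 30) (.e (nat_lit 573491) (nat_lit 15) (.e (nat_lit 81951) (nat_lit 22) (.e (nat_lit 90170) (nat_lit 13) (.e (nat_lit 172135) (nat_lit 15) .nil))))))) (.g (nat_lit 0) .nil .nil)))) (.nd (nat_lit 5) 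
(.lf (nat_lit 90716) (.g (nat_lit 1826) (.e (nat_lit 2143) (nat_lit 142) (.e (nat_lit 704741) (nat_lit 11) (.e (nat_lit 16412) (nat_lit 2) (.e (nat_lit 196681) (nat_lit 17) (.e (nat_lit 131105) (nat_lit 9) (.e (nat_lit 336324) (nat_lit 18) (.e (nat_lit 204819) (nat_lit 17) .nil))))))) (.g (nat_lit 4) .nil .nil))) 
(.lf (nat_lit 90748) (.g (nat_lit 3779) (.e (nat_lit 2146) (nat_lit 142) (.e (nat_lit 712448) (nat_lit 3) (.e (nat_lit 163979) (nat_lit 30) (.e (nat_lit 573482) (nat_lit 13) (.e (nat_lit 65619) (nat_lit 10) (.e (nat_lit 344117) (nat_lit 21) (.e (nat_lit 516151) (nat_lit 9) (.e (nat_lit 426407) (nat_lit 15) .nil)))))))) (.g (nat_lit 7) .nil .nil))))))) 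
(.nd (nat_lit 2) (.nd (nat_lit 3) (.nd (nat_lit 4) (.nd (nat_lit 5) 
(.lf (nat_lit 90690) (.g (nat_lit 2387) (.e (nat_lit 2135) (nat_lit 142) (.e (nat_lit 704738) (nat_lit 11) (.e (nat_lit 16425) (nat_lit 7) (.e (nat_lit 409645) (nat_lit 18) .nil)))) .nil)) 
(.lf (nat_lit 90722) (.g (nat_lit 2717) (.e (nat_lit 2143) (nat_lit 142) (.e (nat_lit 704741) (nat_lit 11) (.e (nat_lit 16465) (nat_lit 13) (.e (nat_lit 483406) (nat_lit 26) (.e (nat_lit 385109) (nat_lit 51) (.e (nat_lit 802560) (nat_lit 0) .nil)))))) (.g (nat_lit 5) .nil .nil)))) (.nd (nat_lit 5) 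
(.lf (nat_lit 90706) (.g (nat_lit 3751) (.e (nat_lit 2143) (nat_lit 142) (.e (nat_lit 712448) (nat_lit 3) (.e (nat_lit 163979) (nat_lit 30) (.e (nat_lit 573482) (nat_lit 13) (.e (nat_lit 65619) (nat_lit 10) (.e (nat_lit 344117) (nat_lit 21) (.e (nat_lit 516151) (nat_lit 9) (.e (nat_lit 426407) (nat_lit 15) .nil)))))))) (.g (nat_lit 7) .nil .nil))) 
(.lf (nat_lit 90738) (.g (nat_lit 3845) (.e (nat_lit 2146) (nat_lit 142) (.e (nat_lit 704588) (nat_lit 3) (.e (nat_lit 163978) (nat_lit 30) (.e (nat_lit 573485) (nat_lit 13) (.e (nat_lit 65619) (nat_lit 10) (.e (nat_lit 344117) (nat_lit 21) (.e (nat_lit 516151) (nat_lit 9) (.e (nat_lit 426407) (nat_lit 15) .nil)))))))) (.g (nat_lit 0) .nil .nil))))) (.nd (nat_lit 4) (.nd (nat_lit 5) 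
(.lf (nat_lit 90698) (.g (nat_lit 2466) (.e (nat_lit 2143) (nat_lit 142) (.e (nat_lit 712448) (nat_lit 3) (.e (nat_lit 163976) (nat_lit 30) (.e (nat_lit 573491) (nat_lit 15) (.e (nat_lit 81951) (nat_lit 22) (.e (nat_lit 90170) (nat_lit 13) (.e (nat_lit 172135) (nat_lit 15) .nil))))))) (.g (nat_lit 6) .nil .nil))) 
(.lf (nat_lit 90730) (.g (nat_lit 3144) (.e (nat_lit 2146) (nat_lit 142) (.e (nat_lit 704588) (nat_lit 3) (.e (nat_lit 163976) (nat_lit 30) (.e (nat_lit 573481) (nat_lit 13) (.e (nat_lit 65604) (nat_lit 9) (.e (nat_lit 336013) (nat_lit 2) (.e (nat_lit 90170) (nat_lit 13) (.e (nat_lit 172135) (nat_lit 15) .nil)))))))) (.g (nat_lit 0) .nil .nil)))) (.nd (nat_lit 5) 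
(.lf (nat_lit 90714) (.g (nat_lit 1728) (.e (nat_lit 2143) (nat_lit 142) (.e (nat_lit 712448) (nat_lit 5) (.e (nat_lit 180278) (nat_lit 32) (.e (nat_lit 1428) (nat_lit 108) (.e (nat_lit 336430) (nat_lit 29) (.e (nat_lit 442376) (nat_lit 0) .nil)))))) (.g (nat_lit 5) .nil .nil))) 
(.lf (nat_lit 90746) (.g (nat_lit 3148) (.e (nat_lit 2146) (nat_lit 142) (.e (nat_lit 712448) (nat_lit 3) (.e (nat_lit 163976) (nat_lit 30) (.e (nat_lit 573481) (nat_lit 13) (.e (nat_lit 65619) (nat_lit 10) (.e (nat_lit 344117) (nat_lit 21) (.e (nat_lit 516151) (nat_lit 9) (.e (nat_lit 426407) (nat_lit 15) .nil)))))))) (.g (nat_lit 7) .nil .nil)))))) 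
(.nd (nat_lit 3) (.nd (nat_lit 4) (.nd (nat_lit 5) 
(.lf (nat_lit 90694) (.g (nat_lit 3531) (.e (nat_lit 2143) (nat_lit 142) (.e (nat_lit 704588) (nat_lit 3) (.e (nat_lit 163979) (nat_lit 30) (.e (nat_lit 573493) (nat_lit 15) (.e (nat_lit 81953) (nat_lit 22) (.e (nat_lit 90170) (nat_lit 13) (.e (nat_lit 172135) (nat_lit 15) .nil))))))) (.g (nat_lit 0) .nil .nil))) 
(.lf (nat_lit 90726) (.g (nat_lit 1862) (.e (nat_lit 2144) (nat_lit 142) (.e (nat_lit 704741) (nat_lit 11) (.e (nat_lit 16412) (nat_lit 2) (.e (nat_lit 196681) (nat_lit 17) (.e (nat_lit 131120) (nat_lit 12) (.e (nat_lit 385068) (nat_lit 26) (.e (nat_lit 532486) (nat_lit 0) .nil))))))) (.g (nat_lit 4) .nil .nil)))) (.nd (nat_lit 5) 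
(.lf (nat_lit 90710) (.g (nat_lit 3353) (.e (nat_lit 2143) (nat_lit 142) (.e (nat_lit 712448) (nat_lit 3) (.e (nat_lit 163979) (nat_lit 30) (.e (nat_lit 573493) (nat_lit 15) (.e (nat_lit 81956) (nat_lit 23) (.e (nat_lit 98359) (nat_lit 26) (.e (nat_lit 426407) (nat_lit 15) .nil))))))) (.g (nat_lit 6) .nil .nil))) 
(.lf (nat_lit 90742) (.g (nat_lit 3161) (.e (nat_lit 2146) (nat_lit 142) (.e (nat_lit 704588) (nat_lit 3) (.e (nat_lit 163979) (nat_lit 30) (.e (nat_lit 573491) (nat_lit 15) (.e (nat_lit 81951) (nat_lit 22) (.e (nat_lit 90170) (nat_lit 13) (.e (nat_lit 172135) (nat_lit 15) .nil))))))) (.g (nat_lit 0) .nil .nil))))) (.nd (nat_lit 4) (.nd (nat_lit 5) 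
(.lf (nat_lit 90702) (.g (nat_lit 3071) (.e (nat_lit 2143) (nat_lit 142) (.e (nat_lit 712448) (nat_lit 3) (.e (nat_lit 163977) (nat_lit 30) (.e (nat_lit 573493) (nat_lit 15) (.e (nat_lit 81953) (nat_lit 22) (.e (nat_lit 90170) (nat_lit 13) (.e (nat_lit 172135) (nat_lit 15) .nil))))))) (.g (nat_lit 6) .nil .nil))) 
(.lf (nat_lit 90734) (.g (nat_lit 2552) (.e (nat_lit 2146) (nat_lit 142) (.e (nat_lit 704588) (nat_lit 3) (.e (nat_lit 163976) (nat_lit 30) (.e (nat_lit 573492) (nat_lit 15) (.e (nat_lit 81953) (nat_lit 22) (.e (nat_lit 90170) (nat_lit 13) (.e (nat_lit 172135) (nat_lit 15) .nil))))))) (.g (nat_lit 0) .nil .nil)))) (.nd (nat_lit 5) 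
(.lf (nat_lit 90718) (.g (nat_lit 3227) (.e (nat_lit 2143) (nat_lit 142) (.e (nat_lit 704741) (nat_lit 11) (.e (nat_lit 16412) (nat_lit 2) (.e (nat_lit 196681) (nat_lit 17) (.e (nat_lit 131120) (nat_lit 12) (.e (nat_lit 385068) (nat_lit 26) (.e (nat_lit 532486) (nat_lit 0) .nil))))))) (.g (nat_lit 6) .nil .nil))) 
(.lf (nat_lit 90750) (.g (nat_lit 1957) (.e (nat_lit 2146) (nat_lit 142) (.e (nat_lit 704594) (nat_lit 5) (.e (nat_lit 180278) (nat_lit 32) (.e (nat_lit 1428) (nat_lit 108) (.e (nat_lit 336430) (nat_lit 29) (.e (nat_lit 442376) (nat_lit 0) .nil)))))) (.g (nat_lit 0) .nil .nil)))))))) (.nd (nat_lit 1) (.nd (nat_lit 2) (.nd (nat_lit 3) (.nd (nat_lit 4) (.nd (nat_lit 5) 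
(.lf (nat_lit 90689) (.g (nat_lit 2502) (.e (nat_lit 2135) (nat_lit 142) (.e (nat_lit 704738) (nat_lit 11) (.e (nat_lit 16425) (nat_lit 7) (.e (nat_lit 409643) (nat_lit 18) (.e (nat_lit 303143) (nat_lit 12) .nil))))) .nil)) 
(.lf (nat_lit 90721) (.g (nat_lit 3777) (.e (nat_lit 2143) (nat_lit 142) (.e (nat_lit 704741) (nat_lit 11) (.e (nat_lit 16416) (nat_lit 3) (.e (nat_lit 204861) (nat_lit 26) (.e (nat_lit 336194) (nat_lit 12) (.e (nat_lit 385068) (nat_lit 26) (.e (nat_lit 532486) (nat_lit 0) .nil))))))) (.g (nat_lit 7) .nil .nil)))) (.nd (nat_lit 5) 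
(.lf (nat_lit 90705) (.g (nat_lit 3531) (.e (nat_lit 2143) (nat_lit 142) (.e (nat_lit 712448) (nat_lit 3) (.e (nat_lit 163979) (nat_lit 30) (.e (nat_lit 573482) (nat_lit 13) (.e (nat_lit 65604) (nat_lit 9) (.e (nat_lit 336028) (nat_lit 3) (.e (nat_lit 98359) (nat_lit 26) (.e (nat_lit 426407) (nat_lit 15) .nil)))))))) (.g (nat_lit 7) .nil .nil))) 
(.lf (nat_lit 90737) (.g (nat_lit 3688) (.e (nat_lit 2146) (nat_lit 142) (.e (nat_lit 704588) (nat_lit 3) (.e (nat_lit 163978) (nat_lit 30) (.e (nat_lit 573485) (nat_lit 13) (.e (nat_lit 65604) (nat_lit 9) (.e (nat_lit 336028) (nat_lit 3) (.e (nat_lit 98359) (nat_lit 26) (.e (nat_lit 426407) (nat_lit 15) .nil)))))))) (.g (nat_lit 0) .nil .nil))))) (.nd (nat_lit 4) (.nd (nat_lit 5) 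
(.lf (nat_lit 90697) (.g (nat_lit 3123) (.e (nat_lit 2143) (nat_lit 142) (.e (nat_lit 712448) (nat_lit 3) (.e (nat_lit 163976) (nat_lit 30) (.e (nat_lit 573481) (nat_lit 13) (.e (nat_lit 65619) (nat_lit 10) (.e (nat_lit 344117) (nat_lit 21) (.e (nat_lit 516151) (nat_lit 9) (.e (nat_lit 426407) (nat_lit 15) .nil)))))))) (.g (nat_lit 7) .nil .nil))) 
(.lf (nat_lit 90729) (.g (nat_lit 1750) (.e (nat_lit 2145) (nat_lit 142) (.e (nat_lit 704741) (nat_lit 11) (.e (nat_lit 16412) (nat_lit 2) (.e (nat_lit 196681) (nat_lit 17) (.e (nat_lit 131123) (nat_lit 12) (.e (nat_lit 385068) (nat_lit 26) (.e (nat_lit 532486) (nat_lit 0) .nil))))))) (.g (nat_lit 4) .nil .nil)))) (.nd (nat_lit 5) 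
(.lf (nat_lit 90713) (.g (nat_lit 1592) (.e (nat_lit 2143) (nat_lit 142) (.e (nat_lit 712448) (nat_lit 5) (.e (nat_lit 180277) (nat_lit 32) (.e (nat_lit 1428) (nat_lit 108) (.e (nat_lit 336430) (nat_lit 29) (.e (nat_lit 442376) (nat_lit 0) .nil)))))) (.g (nat_lit 5) .nil .nil))) 
(.lf (nat_lit 90745) (.g (nat_lit 3389) (.e (nat_lit 2146) (nat_lit 142) (.e (nat_lit 712448) (nat_lit 3) (.e (nat_lit 163975) (nat_lit 30) (.e (nat_lit 573481) (nat_lit 13) (.e (nat_lit 65604) (nat_lit 9) (.e (nat_lit 336013) (nat_lit 2) (.e (nat_lit 90170) (nat_lit 13) (.e (nat_lit 172135) (nat_lit 15) .nil)))))))) (.g (nat_lit 7) .nil .nil)))))) 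
(.nd (nat_lit 3) (.nd (nat_lit 4) (.nd (nat_lit 5) 
(.lf (nat_lit 90693) (.g (nat_lit 2036) (.e (nat_lit 2135) (nat_lit 142) (.e (nat_lit 704738) (nat_lit 11) (.e (nat_lit 16425) (nat_lit 7) (.e (nat_lit 409649) (nat_lit 18) (.e (nat_lit 303140) (nat_lit 10) .nil))))) .nil)) 
(.lf (nat_lit 90725) (.g (nat_lit 529) (.e (nat_lit 2143) (nat_lit 142) (.e (nat_lit 704845) (nat_lit 15) (.e (nat_lit 57811) (nat_lit 246) (.e (nat_lit 57902) (nat_lit 277) (.e (nat_lit 139008) (nat_lit 29) (.e (nat_lit 442376) (nat_lit 0) .nil)))))) (.g (nat_lit 4) .nil .nil)))) (.nd (nat_lit 5) 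
(.lf (nat_lit 90709) (.g (nat_lit 3283) (.e (nat_lit 2143) (nat_lit 142) (.e (nat_lit 712448) (nat_lit 3) (.e (nat_lit 163979) (nat_lit 30) (.e (nat_lit 573493) (nat_lit 15) (.e (nat_lit 81953) (nat_lit 22) (.e (nat_lit 90170) (nat_lit 13) (.e (nat_lit 172135) (nat_lit 15) .nil))))))) (.g (nat_lit 6) .nil .nil))) 
(.lf (nat_lit 90741) (.g (nat_lit 3965) (.e (nat_lit 2146) (nat_lit 142) (.e (nat_lit 704588) (nat_lit 3) (.e (nat_lit 163979) (nat_lit 30) (.e (nat_lit 573482) (nat_lit 13) (.e (nat_lit 65619) (nat_lit 10) (.e (nat_lit 344117) (nat_lit 21) (.e (nat_lit 516151) (nat_lit 9) (.e (nat_lit 426407) (nat_lit 15) .nil)))))))) (.g (nat_lit 0) .nil .nil))))) (.nd (nat_lit 4) (.nd (nat_lit 5) 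
(.lf (nat_lit 90701) (.g (nat_lit 2615) (.e (nat_lit 2143) (nat_lit 142) (.e (nat_lit 712448) (nat_lit 3) (.e (nat_lit 163976) (nat_lit 30) (.e (nat_lit 573492) (nat_lit 15) (.e (nat_lit 81956) (nat_lit 23) (.e (nat_lit 98359) (nat_lit 26) (.e (nat_lit 426407) (nat_lit 15) .nil))))))) (.g (nat_lit 6) .nil .nil))) 
(.lf (nat_lit 90733) (.g (nat_lit 2264) (.e (nat_lit 2146) (nat_lit 142) (.e (nat_lit 704588) (nat_lit 3) (.e (nat_lit 163976) (nat_lit 30) (.e (nat_lit 573491) (nat_lit 15) (.e (nat_lit 81954) (nat_lit 23) (.e (nat_lit 98359) (nat_lit 26) (.e (nat_lit 426407) (nat_lit 15) .nil))))))) (.g (nat_lit 0) .nil .nil)))) (.nd (nat_lit 5) 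
(.lf (nat_lit 90717) (.g (nat_lit 3197) (.e (nat_lit 2143) (nat_lit 142) (.e (nat_lit 704741) (nat_lit 11) (.e (nat_lit 16412) (nat_lit 2) (.e (nat_lit 196681) (nat_lit 17) (.e (nat_lit 131109) (nat_lit 9) (.e (nat_lit 336326) (nat_lit 18) (.e (nat_lit 204819) (nat_lit 17) .nil))))))) (.g (nat_lit 7) .nil .nil))) 
(.lf (nat_lit 90749) (.g (nat_lit 1637) (.e (nat_lit 2146) (nat_lit 142) (.e (nat_lit 704594) (nat_lit 5) (.e (nat_lit 180277) (nat_lit 32) (.e (nat_lit 1428) (nat_lit 108) (.e (nat_lit 336430) (nat_lit 29) (.e (nat_lit 442376) (nat_lit 0) .nil)))))) (.g (nat_lit 5) .nil .nil))))))) (.nd (nat_lit 2) (.nd (nat_lit 3) (.nd (nat_lit 4) (.nd (nat_lit 5) 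
(.lf (nat_lit 90691) (.g (nat_lit 2018) (.e (nat_lit 2135) (nat_lit 142) (.e (nat_lit 704738) (nat_lit 11) (.e (nat_lit 16425) (nat_lit 7) (.e (nat_lit 409648) (nat_lit 18) .nil)))) .nil)) 
(.lf (nat_lit 90723) (.g (nat_lit 2714) (.e (nat_lit 2143) (nat_lit 142) (.e (nat_lit 704741) (nat_lit 11) (.e (nat_lit 16466) (nat_lit 13) (.e (nat_lit 483393) (nat_lit 23) (.e (nat_lit 335987) (nat_lit 1) (.e (nat_lit 57852) (nat_lit 252) (.e (nat_lit 57350) (nat_lit 0) .nil))))))) (.g (nat_lit 7) .nil .nil)))) (.nd (nat_lit 5) 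
(.lf (nat_lit 90707) (.g (nat_lit 3003) (.e (nat_lit 2143) (nat_lit 142) (.e (nat_lit 712448) (nat_lit 3) (.e (nat_lit 163979) (nat_lit 30) (.e (nat_lit 573491) (nat_lit 15) (.e (nat_lit 81951) (nat_lit 22) (.e (nat_lit 90170) (nat_lit 13) (.e (nat_lit 172135) (nat_lit 15) .nil))))))) (.g (nat_lit 6) .nil .nil))) 
(.lf (nat_lit 90739) (.g (nat_lit 3982) (.e (nat_lit 2146) (nat_lit 142) (.e (nat_lit 704588) (nat_lit 3) (.e (nat_lit 163979) (nat_lit 30) (.e (nat_lit 573482) (nat_lit 13) (.e (nat_lit 65604) (nat_lit 9) (.e (nat_lit 336013) (nat_lit 2) (.e (nat_lit 90170) (nat_lit 13) (.e (nat_lit 172135) (nat_lit 15) .nil)))))))) (.g (nat_lit 0) .nil .nil))))) (.nd (nat_lit 4) (.nd (nat_lit 5) 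
(.lf (nat_lit 90699) (.g (nat_lit 2100) (.e (nat_lit 2143) (nat_lit 142) (.e (nat_lit 712448) (nat_lit 3) (.e (nat_lit 163976) (nat_lit 30) (.e (nat_lit 573491) (nat_lit 15) (.e (nat_lit 81954) (nat_lit 23) (.e (nat_lit 98359) (nat_lit 26) (.e (nat_lit 426407) (nat_lit 15) .nil))))))) (.g (nat_lit 6) .nil .nil))) 
(.lf (nat_lit 90731) (.g (nat_lit 3306) (.e (nat_lit 2146) (nat_lit 142) (.e (nat_lit 704588) (nat_lit 3) (.e (nat_lit 163976) (nat_lit 30) (.e (nat_lit 573481) (nat_lit 13) (.e (nat_lit 65619) (nat_lit 10) (.e (nat_lit 344117) (nat_lit 21) (.e (nat_lit 516151) (nat_lit 9) (.e (nat_lit 426407) (nat_lit 15) .nil)))))))) (.g (nat_lit 0) .nil .nil)))) (.nd (nat_lit 5) 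
(.lf (nat_lit 90715) (.g (nat_lit 1795) (.e (nat_lit 2143) (nat_lit 142) (.e (nat_lit 704741) (nat_lit 11) (.e (nat_lit 16412) (nat_lit 2) (.e (nat_lit 196674) (nat_lit 15) (.e (nat_lit 89856) (nat_lit 3) (.e (nat_lit 204821) (nat_lit 17) .nil)))))) (.g (nat_lit 4) .nil .nil))) 
(.lf (nat_lit 90747) (.g (nat_lit 4124) (.e (nat_lit 2146) (nat_lit 142) (.e (nat_lit 712448) (nat_lit 3) (.e (nat_lit 163978) (nat_lit 30) (.e (nat_lit 573484) (nat_lit 13) (.e (nat_lit 65610) (nat_lit 10) (.e (nat_lit 344117) (nat_lit 21) (.e (nat_lit 516151) (nat_lit 9) (.e (nat_lit 426407) (nat_lit 15) .nil)))))))) (.g (nat_lit 7) .nil .nil)))))) 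
(.nd (nat_lit 3) (.nd (nat_lit 4) (.nd (nat_lit 5) 
(.lf (nat_lit 90695) (.g (nat_lit 3362) (.e (nat_lit 2143) (nat_lit 142) (.e (nat_lit 712448) (nat_lit 3) (.e (nat_lit 163975) (nat_lit 30) (.e (nat_lit 573481) (nat_lit 13) (.e (nat_lit 65604) (nat_lit 9) (.e (nat_lit 336013) (nat_lit 2) (.e (nat_lit 90170) (nat_lit 13) (.e (nat_lit 172135) (nat_lit 15) .nil)))))))) (.g (nat_lit 7) .nil .nil))) 
(.lf (nat_lit 90727) (.g (nat_lit 1691) (.e (nat_lit 2144) (nat_lit 142) (.e (nat_lit 704741) (nat_lit 11) (.e (nat_lit 16466) (nat_lit 13) (.e (nat_lit 483393) (nat_lit 23) (.e (nat_lit 335987) (nat_lit 1) .nil))))) .nil))) (.nd (nat_lit 5) 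
(.lf (nat_lit 90711) (.g (nat_lit 1710) (.e (nat_lit 2143) (nat_lit 142) (.e (nat_lit 704594) (nat_lit 5) (.e (nat_lit 180277) (nat_lit 32) (.e (nat_lit 1428) (nat_lit 108) (.e (nat_lit 336430) (nat_lit 29) (.e (nat_lit 442376) (nat_lit 0) .nil)))))) (.g (nat_lit 5) .nil .nil))) 
(.lf (nat_lit 90743) (.g (nat_lit 2874) (.e (nat_lit 2146) (nat_lit 142) (.e (nat_lit 704588) (nat_lit 3) (.e (nat_lit 163979) (nat_lit 30) (.e (nat_lit 573491) (nat_lit 15) (.e (nat_lit 81954) (nat_lit 23) (.e (nat_lit 98359) (nat_lit 26) (.e (nat_lit 426407) (nat_lit 15) .nil))))))) (.g (nat_lit 0) .nil .nil))))) (.nd (nat_lit 4) (.nd (nat_lit 5) 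
(.lf (nat_lit 90703) (.g (nat_lit 4108) (.e (nat_lit 2143) (nat_lit 142) (.e (nat_lit 712448) (nat_lit 3) (.e (nat_lit 163978) (nat_lit 30) (.e (nat_lit 573484) (nat_lit 13) (.e (nat_lit 65610) (nat_lit 10) (.e (nat_lit 344117) (nat_lit 21) (.e (nat_lit 516151) (nat_lit 9) (.e (nat_lit 426407) (nat_lit 15) .nil)))))))) (.g (nat_lit 7) .nil .nil))) 
(.lf (nat_lit 90735) (.g (nat_lit 2807) (.e (nat_lit 2146) (nat_lit 142) (.e (nat_lit 704588) (nat_lit 3) (.e (nat_lit 163976) (nat_lit 30) (.e (nat_lit 573492) (nat_lit 15) (.e (nat_lit 81956) (nat_lit 23) (.e (nat_lit 98359) (nat_lit 26) (.e (nat_lit 426407) (nat_lit 15) .nil))))))) (.g (nat_lit 0) .nil .nil)))) (.nd (nat_lit 5) 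
(.lf (nat_lit 90719) (.g (nat_lit 3268) (.e (nat_lit 2143) (nat_lit 142) (.e (nat_lit 704741) (nat_lit 11) (.e (nat_lit 16416) (nat_lit 3) (.e (nat_lit 204861) (nat_lit 26) (.e (nat_lit 336075) (nat_lit 9) (.e (nat_lit 336326) (nat_lit 18) (.e (nat_lit 204819) (nat_lit 17) .nil))))))) (.g (nat_lit 7) .nil .nil))) 
(.lf (nat_lit 90751) (.g (nat_lit 1651) (.e (nat_lit 2146) (nat_lit 142) (.e (nat_lit 712448) (nat_lit 5) (.e (nat_lit 180277) (nat_lit 32) (.e (nat_lit 1428) (nat_lit 108) (.e (nat_lit 336430) (nat_lit 29) (.e (nat_lit 442376) (nat_lit 0) .nil)))))) (.g (nat_lit 5) .nil .nil)))))))))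

noncomputable def tv1242 : DT := (.nd (nat_lit 0) (.nd (nat_lit 1) (.nd (nat_lit 2) (.nd (nat_lit 3) (.nd (nat_lit 4) (.nd (nat_lit 5) (.nd (nat_lit 6) 
(.lf (nat_lit 90752) (.g (nat_lit 1311) (.e (nat_lit 2146) (nat_lit 142) (.e (nat_lit 712448) (nat_lit 5) (.e (nat_lit 180278) (nat_lit 32) (.e (nat_lit 1426) (nat_lit 108) (.e (nat_lit 336430) (nat_lit 29) (.e (nat_lit 442376) (nat_lit 0) .nil)))))) (.g (nat_lit 5) .nil .nil))) 
(.lf (nat_lit 90816) (.g (nat_lit 3311) (.e (nat_lit 2160) (nat_lit 143) (.e (nat_lit 712742) (nat_lit 27) (.e (nat_lit 426338) (nat_lit 14) (.e (nat_lit 491569) (nat_lit 13) (.e (nat_lit 393273) (nat_lit 23) (.e (nat_lit 426364) (nat_lit 15) .nil)))))) (.g (nat_lit 0) .nil .nil)))) (.nd (nat_lit 6) 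
(.lf (nat_lit 90784) (.g (nat_lit 2122) (.e (nat_lit 2152) (nat_lit 142) (.e (nat_lit 704738) (nat_lit 11) (.e (nat_lit 16425) (nat_lit 7) (.e (nat_lit 409649) (nat_lit 18) .nil)))) .nil)) 
(.lf (nat_lit 90848) (.g (nat_lit 1200) (.e (nat_lit 2160) (nat_lit 143) (.e (nat_lit 712755) (nat_lit 30) (.e (nat_lit 450562) (nat_lit 0) (.e (nat_lit 4756) (nat_lit 281) .nil)))) .nil)))) (.nd (nat_lit 5) (.nd (nat_lit 6) 
(.lf (nat_lit 90768) (.g (nat_lit 3113) (.e (nat_lit 2151) (nat_lit 142) (.e (nat_lit 704738) (nat_lit 11) (.e (nat_lit 16412) (nat_lit 2) (.e (nat_lit 196674) (nat_lit 15) (.e (nat_lit 89856) (nat_lit 3) .nil))))) .nil)) 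
(.lf (nat_lit 90832) (.g (nat_lit 369) (.e (nat_lit 2160) (nat_lit 143) (.e (nat_lit 712753) (nat_lit 30) (.e (nat_lit 450567) (nat_lit 0) .nil))) .nil))) (.nd (nat_lit 6) 
(.lf (nat_lit 90800) (.g (nat_lit 662) (.e (nat_lit 2155) (nat_lit 142) (.e (nat_lit 704738) (nat_lit 11) (.e (nat_lit 16425) (nat_lit 7) .nil))) .nil)) 
(.lf (nat_lit 90864) (.g (nat_lit 1122) (.e (nat_lit 2160) (nat_lit 143) (.e (nat_lit 712755) (nat_lit 30) (.e (nat_lit 450563) (nat_lit 0) (.e (nat_lit 7936) (nat_lit 306) .nil)))) .nil))))) (.nd (nat_lit 4) (.nd (nat_lit 5) (.nd (nat_lit 6) 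
(.lf (nat_lit 90760) (.g (nat_lit 2523) (.e (nat_lit 2148) (nat_lit 142) (.e (nat_lit 704591) (nat_lit 4) (.e (nat_lit 172120) (nat_lit 12) (.e (nat_lit 475211) (nat_lit 41) (.e (nat_lit 712750) (nat_lit 29) (.e (nat_lit 442371) (nat_lit 0) .nil)))))) (.g (nat_lit 6) .nil .nil))) 
(.lf (nat_lit 90824) (.g (nat_lit 1374) (.e (nat_lit 2160) (nat_lit 143) (.e (nat_lit 712752) (nat_lit 29) (.e (nat_lit 442421) (nat_lit 21) (.e (nat_lit 164346) (nat_lit 240) .nil)))) .nil))) (.nd (nat_lit 6) 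
(.lf (nat_lit 90792) (.g (nat_lit 2365) (.e (nat_lit 2154) (nat_lit 142) (.e (nat_lit 704738) (nat_lit 11) (.e (nat_lit 16425) (nat_lit 7) (.e (nat_lit 409649) (nat_lit 18) .nil)))) .nil)) 
(.lf (nat_lit 90856) (.g (nat_lit 1132) (.e (nat_lit 2160) (nat_lit 143) (.e (nat_lit 712755) (nat_lit 30) (.e (nat_lit 450563) (nat_lit 0) (.e (nat_lit 5537) (nat_lit 306) .nil)))) .nil)))) (.nd (nat_lit 5) (.nd (nat_lit 6) 
(.lf (nat_lit 90776) (.g (nat_lit 3423) (.e (nat_lit 2151) (nat_lit 142) (.e (nat_lit 704738) (nat_lit 11) (.e (nat_lit 16416) (nat_lit 3) (.e (nat_lit 204861) (nat_lit 26) (.e (nat_lit 336194) (nat_lit 12) (.e (nat_lit 385068) (nat_lit 26) (.e (nat_lit 532486) (nat_lit 0) .nil))))))) (.g (nat_lit 6) .nil .nil))) 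
(.lf (nat_lit 90840) (.g (nat_lit 2273) (.e (nat_lit 2160) (nat_lit 143) (.e (nat_lit 712753) (nat_lit 30) (.e (nat_lit 450569) (nat_lit 0) (.e (nat_lit 5599) (nat_lit 310) (.e (nat_lit 163931) (nat_lit 17) (.e (nat_lit 466947) (nat_lit 0) .nil)))))) (.g (nat_lit 6) .nil .nil)))) (.nd (nat_lit 6) 
(.lf (nat_lit 90808) (.g (nat_lit 2760) (.e (nat_lit 2155) (nat_lit 142) (.e (nat_lit 704754) (nat_lit 12) (.e (nat_lit 57479) (nat_lit 28) (.e (nat_lit 557093) (nat_lit 12) (.e (nat_lit 164058) (nat_lit 56) .nil))))) .nil)) 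
(.lf (nat_lit 90872) (.g (nat_lit 626) (.e (nat_lit 2160) (nat_lit 143) (.e (nat_lit 712755) (nat_lit 30) (.e (nat_lit 450567) (nat_lit 0) .nil))) .nil)))))) (.nd (nat_lit 3) (.nd (nat_lit 4) (.nd (nat_lit 5) (.nd (nat_lit 6) 
(.lf (nat_lit 90756) (.g (nat_lit 1734) (.e (nat_lit 2147) (nat_lit 142) (.e (nat_lit 704594) (nat_lit 5) (.e (nat_lit 180277) (nat_lit 32) (.e (nat_lit 1428) (nat_lit 108) (.e (nat_lit 336430) (nat_lit 29) (.e (nat_lit 442376) (nat_lit 0) .nil)))))) (.g (nat_lit 5) .nil .nil))) 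
(.lf (nat_lit 90820) (.g (nat_lit 574) (.e (nat_lit 2160) (nat_lit 143) (.e (nat_lit 712752) (nat_lit 29) (.e (nat_lit 442377) (nat_lit 0) .nil))) .nil))) (.nd (nat_lit 6) 
(.lf (nat_lit 90788) (.g (nat_lit 3294) (.e (nat_lit 2153) (nat_lit 142) (.e (nat_lit 704738) (nat_lit 11) (.e (nat_lit 16425) (nat_lit 7) (.e (nat_lit 409649) (nat_lit 18) (.e (nat_lit 303132) (nat_lit 9) .nil))))) .nil)) 
(.lf (nat_lit 90852) (.g (nat_lit 1602) (.e (nat_lit 2160) (nat_lit 143) (.e (nat_lit 712755) (nat_lit 30) (.e (nat_lit 450562) (nat_lit 0) (.e (nat_lit 5539) (nat_lit 306) (.e (nat_lit 7936) (nat_lit 166) (.e (nat_lit 196352) (nat_lit 0) .nil)))))) (.g (nat_lit 4) .nil .nil))))) (.nd (nat_lit 5) (.nd (nat_lit 6) 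
(.lf (nat_lit 90772) (.g (nat_lit 3374) (.e (nat_lit 2151) (nat_lit 142) (.e (nat_lit 704738) (nat_lit 11) (.e (nat_lit 16412) (nat_lit 2) (.e (nat_lit 196681) (nat_lit 17) (.e (nat_lit 131109) (nat_lit 9) (.e (nat_lit 336324) (nat_lit 18) (.e (nat_lit 204821) (nat_lit 17) .nil))))))) (.g (nat_lit 6) .nil .nil))) 
(.lf (nat_lit 90836) (.g (nat_lit 2255) (.e (nat_lit 2160) (nat_lit 143) (.e (nat_lit 712753) (nat_lit 30) (.e (nat_lit 450568) (nat_lit 0) (.e (nat_lit 5599) (nat_lit 310) (.e (nat_lit 163931) (nat_lit 17) (.e (nat_lit 466947) (nat_lit 0) .nil)))))) (.g (nat_lit 6) .nil .nil)))) (.nd (nat_lit 6) 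
(.lf (nat_lit 90804) (.g (nat_lit 2022) (.e (nat_lit 2155) (nat_lit 142) (.e (nat_lit 704738) (nat_lit 11) (.e (nat_lit 16425) (nat_lit 7) (.e (nat_lit 409649) (nat_lit 18) .nil)))) .nil)) 
(.lf (nat_lit 90868) (.g (nat_lit 1232) (.e (nat_lit 2160) (nat_lit 143) (.e (nat_lit 712755) (nat_lit 30) (.e (nat_lit 450564) (nat_lit 0) (.e (nat_lit 5546) (nat_lit 306) .nil)))) .nil))))) (.nd (nat_lit 4) (.nd (nat_lit 5) (.nd (nat_lit 6) 
(.lf (nat_lit 90764) (.g (nat_lit 1483) (.e (nat_lit 2151) (nat_lit 142) (.e (nat_lit 704737) (nat_lit 11) (.e (nat_lit 16412) (nat_lit 2) (.e (nat_lit 196681) (nat_lit 17) .nil)))) .nil)) 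
(.lf (nat_lit 90828) (.g (nat_lit 1816) (.e (nat_lit 2160) (nat_lit 143) (.e (nat_lit 712752) (nat_lit 29) (.e (nat_lit 442430) (nat_lit 24) (.e (nat_lit 229665) (nat_lit 240) (.e (nat_lit 2725) (nat_lit 172) (.e (nat_lit 237605) (nat_lit 9) (.e (nat_lit 426364) (nat_lit 15) .nil))))))) (.g (nat_lit 4) .nil .nil)))) (.nd (nat_lit 6) 
(.lf (nat_lit 90796) (.g (nat_lit 2868) (.e (nat_lit 2154) (nat_lit 142) (.e (nat_lit 704738) (nat_lit 11) (.e (nat_lit 16425) (nat_lit 7) (.e (nat_lit 409649) (nat_lit 18) (.e (nat_lit 303140) (nat_lit 10) (.e (nat_lit 434272) (nat_lit 38) (.e (nat_lit 655386) (nat_lit 9) (.e (nat_lit 1002) (nat_lit 81) .nil)))))))) (.g (nat_lit 4) .nil .nil))) 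
(.lf (nat_lit 90860) (.g (nat_lit 1608) (.e (nat_lit 2160) (nat_lit 143) (.e (nat_lit 712755) (nat_lit 30) (.e (nat_lit 450563) (nat_lit 0) (.e (nat_lit 5537) (nat_lit 306) (.e (nat_lit 7936) (nat_lit 166) .nil))))) .nil)))) (.nd (nat_lit 5) (.nd (nat_lit 6) 
(.lf (nat_lit 90780) (.g (nat_lit 3616) (.e (nat_lit 2151) (nat_lit 142) (.e (nat_lit 704738) (nat_lit 11) (.e (nat_lit 16416) (nat_lit 3) (.e (nat_lit 204877) (nat_lit 31) .nil)))) .nil)) 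
(.lf (nat_lit 90844) (.g (nat_lit 956) (.e (nat_lit 2160) (nat_lit 143) (.e (nat_lit 712753) (nat_lit 30) (.e (nat_lit 450593) (nat_lit 16) (.e (nat_lit 655363) (nat_lit 0) .nil)))) .nil))) (.nd (nat_lit 6) 
(.lf (nat_lit 90812) (.g (nat_lit 2528) (.e (nat_lit 2156) (nat_lit 142) (.e (nat_lit 704738) (nat_lit 11) (.e (nat_lit 16425) (nat_lit 7) (.e (nat_lit 409648) (nat_lit 18) .nil)))) .nil)) 
(.lf (nat_lit 90876) (.g (nat_lit 2288) (.e (nat_lit 2160) (nat_lit 143) (.e (nat_lit 712755) (nat_lit 30) (.e (nat_lit 450568) (nat_lit 0) (.e (nat_lit 5599) (nat_lit 310) (.e (nat_lit 163920) (nat_lit 14) (.e (nat_lit 442374) (nat_lit 0) .nil)))))) (.g (nat_lit 5) .nil .nil)))))))) (.nd (nat_lit 2) (.nd (nat_lit 3) (.nd (nat_lit 4) (.nd (nat_lit 5) (.nd (nat_lit 6) 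
(.lf (nat_lit 90754) (.g (nat_lit 1231) (.e (nat_lit 2146) (nat_lit 142) (.e (nat_lit 704597) (nat_lit 6) (.e (nat_lit 188420) (nat_lit 0) (.e (nat_lit 2059) (nat_lit 142) (.e (nat_lit 704598) (nat_lit 6) (.e (nat_lit 188417) (nat_lit 0) .nil)))))) (.g (nat_lit 0) .nil .nil))) 
(.lf (nat_lit 90818) (.g (nat_lit 549) (.e (nat_lit 2160) (nat_lit 143) (.e (nat_lit 712750) (nat_lit 29) (.e (nat_lit 442382) (nat_lit 8) .nil))) .nil))) (.nd (nat_lit 6) 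
(.lf (nat_lit 90786) (.g (nat_lit 2696) (.e (nat_lit 2152) (nat_lit 142) (.e (nat_lit 704738) (nat_lit 11) (.e (nat_lit 16425) (nat_lit 7) (.e (nat_lit 409649) (nat_lit 18) (.e (nat_lit 303140) (nat_lit 10) (.e (nat_lit 434271) (nat_lit 38) (.e (nat_lit 655388) (nat_lit 9) (.e (nat_lit 1003) (nat_lit 81) .nil)))))))) (.g (nat_lit 4) .nil .nil))) 
(.lf (nat_lit 90850) (.g (nat_lit 1465) (.e (nat_lit 2160) (nat_lit 143) (.e (nat_lit 712755) (nat_lit 30) (.e (nat_lit 450562) (nat_lit 0) (.e (nat_lit 5539) (nat_lit 306) (.e (nat_lit 7936) (nat_lit 164) .nil))))) .nil)))) (.nd (nat_lit 5) (.nd (nat_lit 6) 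
(.lf (nat_lit 90770) (.g (nat_lit 1978) (.e (nat_lit 2151) (nat_lit 142) (.e (nat_lit 704738) (nat_lit 11) (.e (nat_lit 16412) (nat_lit 2) (.e (nat_lit 196681) (nat_lit 17) (.e (nat_lit 131105) (nat_lit 9) .nil))))) .nil)) 
(.lf (nat_lit 90834) (.g (nat_lit 1853) (.e (nat_lit 2160) (nat_lit 143) (.e (nat_lit 712753) (nat_lit 30) (.e (nat_lit 450568) (nat_lit 0) (.e (nat_lit 5448) (nat_lit 306) (.e (nat_lit 2725) (nat_lit 172) (.e (nat_lit 237603) (nat_lit 9) (.e (nat_lit 426364) (nat_lit 15) .nil))))))) (.g (nat_lit 5) .nil .nil)))) (.nd (nat_lit 6) 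
(.lf (nat_lit 90802) (.g (nat_lit 2171) (.e (nat_lit 2155) (nat_lit 142) (.e (nat_lit 704738) (nat_lit 11) (.e (nat_lit 16425) (nat_lit 7) (.e (nat_lit 409646) (nat_lit 18) .nil)))) .nil)) 
(.lf (nat_lit 90866) (.g (nat_lit 1122) (.e (nat_lit 2160) (nat_lit 143) (.e (nat_lit 712755) (nat_lit 30) (.e (nat_lit 450563) (nat_lit 0) (.e (nat_lit 7936) (nat_lit 311) .nil)))) .nil))))) (.nd (nat_lit 4) (.nd (nat_lit 5) (.nd (nat_lit 6) 
(.lf (nat_lit 90762) (.g (nat_lit 2096) (.e (nat_lit 2148) (nat_lit 142) (.e (nat_lit 704591) (nat_lit 4) (.e (nat_lit 172126) (nat_lit 14) (.e (nat_lit 491550) (nat_lit 9) (.e (nat_lit 336428) (nat_lit 29) (.e (nat_lit 442371) (nat_lit 0) .nil)))))) (.g (nat_lit 0) .nil .nil))) 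
(.lf (nat_lit 90826) (.g (nat_lit 2722) (.e (nat_lit 2160) (nat_lit 143) (.e (nat_lit 712752) (nat_lit 29) (.e (nat_lit 442421) (nat_lit 21) (.e (nat_lit 164348) (nat_lit 240) (.e (nat_lit 2650) (nat_lit 166) .nil))))) .nil))) (.nd (nat_lit 6) 
(.lf (nat_lit 90794) (.g (nat_lit 3024) (.e (nat_lit 2154) (nat_lit 142) (.e (nat_lit 704738) (nat_lit 11) (.e (nat_lit 16425) (nat_lit 7) (.e (nat_lit 409649) (nat_lit 18) (.e (nat_lit 303140) (nat_lit 10) (.e (nat_lit 434271) (nat_lit 38) (.e (nat_lit 655387) (nat_lit 9) (.e (nat_lit 985) (nat_lit 81) .nil)))))))) (.g (nat_lit 4) .nil .nil))) 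
(.lf (nat_lit 90858) (.g (nat_lit 1665) (.e (nat_lit 2160) (nat_lit 143) (.e (nat_lit 712755) (nat_lit 30) (.e (nat_lit 450563) (nat_lit 0) (.e (nat_lit 5537) (nat_lit 306) (.e (nat_lit 2629) (nat_lit 164) .nil))))) .nil)))) (.nd (nat_lit 5) (.nd (nat_lit 6) 
(.lf (nat_lit 90778) (.g (nat_lit 3542) (.e (nat_lit 2151) (nat_lit 142) (.e (nat_lit 704738) (nat_lit 11) (.e (nat_lit 16416) (nat_lit 3) (.e (nat_lit 204867) (nat_lit 28) .nil)))) .nil)) 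
(.lf (nat_lit 90842) (.g (nat_lit 2203) (.e (nat_lit 2160) (nat_lit 143) (.e (nat_lit 712753) (nat_lit 30) (.e (nat_lit 450569) (nat_lit 0) (.e (nat_lit 5599) (nat_lit 310) (.e (nat_lit 163932) (nat_lit 17) (.e (nat_lit 466947) (nat_lit 0) .nil)))))) (.g (nat_lit 6) .nil .nil)))) (.nd (nat_lit 6) 
(.lf (nat_lit 90810) (.g (nat_lit 2737) (.e (nat_lit 2155) (nat_lit 142) (.e (nat_lit 704754) (nat_lit 12) (.e (nat_lit 57479) (nat_lit 28) (.e (nat_lit 557094) (nat_lit 12) (.e (nat_lit 164040) (nat_lit 55) .nil))))) .nil)) 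
(.lf (nat_lit 90874) (.g (nat_lit 2257) (.e (nat_lit 2160) (nat_lit 143) (.e (nat_lit 712755) (nat_lit 30) (.e (nat_lit 450568) (nat_lit 0) (.e (nat_lit 5599) (nat_lit 310) (.e (nat_lit 163905) (nat_lit 12) (.e (nat_lit 426227) (nat_lit 9) (.e (nat_lit 426364) (nat_lit 15) .nil))))))) (.g (nat_lit 5) .nil .nil))))))) (.nd (nat_lit 3) (.nd (nat_lit 4) (.nd (nat_lit 5) (.nd (nat_lit 6) 
(.lf (nat_lit 90758) (.g (nat_lit 1510) (.e (nat_lit 2147) (nat_lit 142) (.e (nat_lit 704597) (nat_lit 6) (.e (nat_lit 188418) (nat_lit 0) (.e (nat_lit 2058) (nat_lit 142) (.e (nat_lit 704599) (nat_lit 6) (.e (nat_lit 188416) (nat_lit 0) .nil)))))) (.g (nat_lit 5) .nil .nil))) 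
(.lf (nat_lit 90822) (.g (nat_lit 593) (.e (nat_lit 2160) (nat_lit 143) (.e (nat_lit 712752) (nat_lit 29) (.e (nat_lit 442382) (nat_lit 8) .nil))) .nil))) (.nd (nat_lit 6) 
(.lf (nat_lit 90790) (.g (nat_lit 2494) (.e (nat_lit 2154) (nat_lit 142) (.e (nat_lit 704738) (nat_lit 11) (.e (nat_lit 16425) (nat_lit 7) (.e (nat_lit 409648) (nat_lit 18) .nil)))) .nil)) 
(.lf (nat_lit 90854) (.g (nat_lit 1226) (.e (nat_lit 2160) (nat_lit 143) (.e (nat_lit 712755) (nat_lit 30) (.e (nat_lit 450563) (nat_lit 0) (.e (nat_lit 4754) (nat_lit 281) .nil)))) .nil)))) (.nd (nat_lit 5) (.nd (nat_lit 6) 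
(.lf (nat_lit 90774) (.g (nat_lit 1998) (.e (nat_lit 2151) (nat_lit 142) (.e (nat_lit 704738) (nat_lit 11) (.e (nat_lit 16416) (nat_lit 3) (.e (nat_lit 204861) (nat_lit 26) (.e (nat_lit 336076) (nat_lit 9) .nil))))) .nil)) 
(.lf (nat_lit 90838) (.g (nat_lit 2181) (.e (nat_lit 2160) (nat_lit 143) (.e (nat_lit 712753) (nat_lit 30) (.e (nat_lit 450568) (nat_lit 0) (.e (nat_lit 5599) (nat_lit 310) (.e (nat_lit 163932) (nat_lit 17) (.e (nat_lit 466947) (nat_lit 0) .nil)))))) (.g (nat_lit 6) .nil .nil)))) (.nd (nat_lit 6) 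
(.lf (nat_lit 90806) (.g (nat_lit 3630) (.e (nat_lit 2155) (nat_lit 142) (.e (nat_lit 704754) (nat_lit 12) (.e (nat_lit 57479) (nat_lit 28) (.e (nat_lit 557091) (nat_lit 12) (.e (nat_lit 164053) (nat_lit 56) .nil))))) .nil)) 
(.lf (nat_lit 90870) (.g (nat_lit 2277) (.e (nat_lit 2160) (nat_lit 143) (.e (nat_lit 712755) (nat_lit 30) (.e (nat_lit 450564) (nat_lit 0) (.e (nat_lit 5547) (nat_lit 306) (.e (nat_lit 2650) (nat_lit 166) .nil))))) .nil))))) (.nd (nat_lit 4) (.nd (nat_lit 5) (.nd (nat_lit 6) 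
(.lf (nat_lit 90766) (.g (nat_lit 686) (.e (nat_lit 2151) (nat_lit 142) (.e (nat_lit 704738) (nat_lit 11) (.e (nat_lit 16412) (nat_lit 2) .nil))) .nil)) 
(.lf (nat_lit 90830) (.g (nat_lit 1262) (.e (nat_lit 2160) (nat_lit 143) (.e (nat_lit 712752) (nat_lit 29) (.e (nat_lit 442430) (nat_lit 24) (.e (nat_lit 229680) (nat_lit 244) .nil)))) .nil))) (.nd (nat_lit 6) 
(.lf (nat_lit 90798) (.g (nat_lit 2062) (.e (nat_lit 2155) (nat_lit 142) (.e (nat_lit 704736) (nat_lit 11) (.e (nat_lit 16433) (nat_lit 9) (.e (nat_lit 426555) (nat_lit 32) (.e (nat_lit 376857) (nat_lit 21) .nil))))) .nil)) 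
(.lf (nat_lit 90862) (.g (nat_lit 1965) (.e (nat_lit 2160) (nat_lit 143) (.e (nat_lit 712755) (nat_lit 30) (.e (nat_lit 450563) (nat_lit 0) (.e (nat_lit 5539) (nat_lit 306) (.e (nat_lit 7936) (nat_lit 166) (.e (nat_lit 188420) (nat_lit 0) .nil)))))) (.g (nat_lit 4) .nil .nil))))) (.nd (nat_lit 5) (.nd (nat_lit 6) 
(.lf (nat_lit 90782) (.g (nat_lit 2269) (.e (nat_lit 2152) (nat_lit 142) (.e (nat_lit 704738) (nat_lit 11) (.e (nat_lit 16425) (nat_lit 7) (.e (nat_lit 409648) (nat_lit 18) .nil)))) .nil)) 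
(.lf (nat_lit 90846) (.g (nat_lit 1959) (.e (nat_lit 2160) (nat_lit 143) (.e (nat_lit 712753) (nat_lit 30) (.e (nat_lit 450593) (nat_lit 16) (.e (nat_lit 655378) (nat_lit 4) (.e (nat_lit 172087) (nat_lit 9) .nil))))) .nil))) (.nd (nat_lit 6) 
(.lf (nat_lit 90814) (.g (nat_lit 955) (.e (nat_lit 2160) (nat_lit 143) (.e (nat_lit 712719) (nat_lit 15) (.e (nat_lit 3224) (nat_lit 196) (.e (nat_lit 524319) (nat_lit 11) (.e (nat_lit 450304) (nat_lit 18) (.e (nat_lit 393223) (nat_lit 0) .nil)))))) (.g (nat_lit 4) .nil .nil))) 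
(.lf (nat_lit 90878) (.g (nat_lit 2689) (.e (nat_lit 2160) (nat_lit 143) (.e (nat_lit 712755) (nat_lit 30) (.e (nat_lit 450568) (nat_lit 0) (.e (nat_lit 5599) (nat_lit 310) (.e (nat_lit 163931) (nat_lit 17) (.e (nat_lit 466947) (nat_lit 0) .nil)))))) (.g (nat_lit 6) .nil .nil))))))))) (.nd (nat_lit 1) (.nd (nat_lit 2) (.nd (nat_lit 3) (.nd (nat_lit 4) (.nd (nat_lit 5) (.nd (nat_lit 6) 
(.lf (nat_lit 90753) (.g (nat_lit 649) (.e (nat_lit 2146) (nat_lit 142) (.e (nat_lit 704597) (nat_lit 6) (.e (nat_lit 188420) (nat_lit 0) (.e (nat_lit 2056) (nat_lit 142) (.e (nat_lit 704598) (nat_lit 6) (.e (nat_lit 188417) (nat_lit 0) .nil)))))) (.g (nat_lit 0) .nil .nil))) 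
(.lf (nat_lit 90817) (.g (nat_lit 2929) (.e (nat_lit 2160) (nat_lit 143) (.e (nat_lit 712742) (nat_lit 27) (.e (nat_lit 426346) (nat_lit 14) (.e (nat_lit 491568) (nat_lit 13) (.e (nat_lit 393273) (nat_lit 23) (.e (nat_lit 426364) (nat_lit 15) .nil)))))) (.g (nat_lit 0) .nil .nil)))) (.nd (nat_lit 6) 
(.lf (nat_lit 90785) (.g (nat_lit 2601) (.e (nat_lit 2152) (nat_lit 142) (.e (nat_lit 704738) (nat_lit 11) (.e (nat_lit 16425) (nat_lit 7) (.e (nat_lit 409649) (nat_lit 18) (.e (nat_lit 303140) (nat_lit 10) .nil))))) .nil)) 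
(.lf (nat_lit 90849) (.g (nat_lit 1064) (.e (nat_lit 2160) (nat_lit 143) (.e (nat_lit 712755) (nat_lit 30) (.e (nat_lit 450562) (nat_lit 0) (.e (nat_lit 5539) (nat_lit 306) .nil)))) .nil)))) (.nd (nat_lit 5) (.nd (nat_lit 6) 
(.lf (nat_lit 90769) (.g (nat_lit 1469) (.e (nat_lit 2151) (nat_lit 142) (.e (nat_lit 704738) (nat_lit 11) (.e (nat_lit 16412) (nat_lit 2) (.e (nat_lit 196681) (nat_lit 17) .nil)))) .nil)) 
(.lf (nat_lit 90833) (.g (nat_lit 891) (.e (nat_lit 2160) (nat_lit 143) (.e (nat_lit 712753) (nat_lit 30) (.e (nat_lit 450568) (nat_lit 0) (.e (nat_lit 5448) (nat_lit 306) (.e (nat_lit 2725) (nat_lit 172) .nil))))) .nil))) (.nd (nat_lit 6) 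
(.lf (nat_lit 90801) (.g (nat_lit 2132) (.e (nat_lit 2155) (nat_lit 142) (.e (nat_lit 704738) (nat_lit 11) (.e (nat_lit 16425) (nat_lit 7) (.e (nat_lit 409643) (nat_lit 18) .nil)))) .nil)) 
(.lf (nat_lit 90865) (.g (nat_lit 1122) (.e (nat_lit 2160) (nat_lit 143) (.e (nat_lit 712755) (nat_lit 30) (.e (nat_lit 450563) (nat_lit 0) (.e (nat_lit 7936) (nat_lit 310) .nil)))) .nil))))) (.nd (nat_lit 4) (.nd (nat_lit 5) (.nd (nat_lit 6) 
(.lf (nat_lit 90761) (.g (nat_lit 2539) (.e (nat_lit 2148) (nat_lit 142) (.e (nat_lit 704591) (nat_lit 4) (.e (nat_lit 172126) (nat_lit 14) (.e (nat_lit 491549) (nat_lit 9) (.e (nat_lit 336428) (nat_lit 29) (.e (nat_lit 442371) (nat_lit 0) .nil)))))) (.g (nat_lit 6) .nil .nil))) 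
(.lf (nat_lit 90825) (.g (nat_lit 1916) (.e (nat_lit 2160) (nat_lit 143) (.e (nat_lit 712752) (nat_lit 29) (.e (nat_lit 442421) (nat_lit 21) (.e (nat_lit 164347) (nat_lit 240) (.e (nat_lit 2648) (nat_lit 166) .nil))))) .nil))) (.nd (nat_lit 6) 
(.lf (nat_lit 90793) (.g (nat_lit 2844) (.e (nat_lit 2154) (nat_lit 142) (.e (nat_lit 704738) (nat_lit 11) (.e (nat_lit 16425) (nat_lit 7) (.e (nat_lit 409649) (nat_lit 18) (.e (nat_lit 303140) (nat_lit 10) .nil))))) .nil)) 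
(.lf (nat_lit 90857) (.g (nat_lit 1789) (.e (nat_lit 2160) (nat_lit 143) (.e (nat_lit 712755) (nat_lit 30) (.e (nat_lit 450563) (nat_lit 0) (.e (nat_lit 5537) (nat_lit 306) (.e (nat_lit 2619) (nat_lit 164) (.e (nat_lit 172087) (nat_lit 9) (.e (nat_lit 426364) (nat_lit 15) .nil))))))) (.g (nat_lit 4) .nil .nil))))) (.nd (nat_lit 5) (.nd (nat_lit 6) 
(.lf (nat_lit 90777) (.g (nat_lit 3587) (.e (nat_lit 2151) (nat_lit 142) (.e (nat_lit 704738) (nat_lit 11) (.e (nat_lit 16416) (nat_lit 3) (.e (nat_lit 204865) (nat_lit 28) .nil)))) .nil)) 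
(.lf (nat_lit 90841) (.g (nat_lit 1004) (.e (nat_lit 2160) (nat_lit 143) (.e (nat_lit 712753) (nat_lit 30) (.e (nat_lit 450569) (nat_lit 0) (.e (nat_lit 5599) (nat_lit 310) (.e (nat_lit 163932) (nat_lit 17) .nil))))) .nil))) (.nd (nat_lit 6) 
(.lf (nat_lit 90809) (.g (nat_lit 2837) (.e (nat_lit 2155) (nat_lit 142) (.e (nat_lit 704754) (nat_lit 12) (.e (nat_lit 57479) (nat_lit 28) (.e (nat_lit 557093) (nat_lit 12) (.e (nat_lit 164058) (nat_lit 56) (.e (nat_lit 786455) (nat_lit 17) (.e (nat_lit 90170) (nat_lit 13) (.e (nat_lit 172065) (nat_lit 3) (.e (nat_lit 204821) (nat_lit 17) .nil))))))))) (.g (nat_lit 4) .nil .nil))) 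
(.lf (nat_lit 90873) (.g (nat_lit 553) (.e (nat_lit 2160) (nat_lit 143) (.e (nat_lit 712755) (nat_lit 30) (.e (nat_lit 450568) (nat_lit 0) .nil))) .nil)))))) (.nd (nat_lit 3) (.nd (nat_lit 4) (.nd (nat_lit 5) (.nd (nat_lit 6) 
(.lf (nat_lit 90757) (.g (nat_lit 607) (.e (nat_lit 2147) (nat_lit 142) (.e (nat_lit 704597) (nat_lit 6) (.e (nat_lit 188416) (nat_lit 0) (.e (nat_lit 2147) (nat_lit 142) (.e (nat_lit 704597) (nat_lit 6) (.e (nat_lit 188417) (nat_lit 0) .nil)))))) (.g (nat_lit 4) .nil .nil))) 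
(.lf (nat_lit 90821) (.g (nat_lit 1365) (.e (nat_lit 2160) (nat_lit 143) (.e (nat_lit 712752) (nat_lit 29) (.e (nat_lit 442377) (nat_lit 0) (.e (nat_lit 2175) (nat_lit 143) (.e (nat_lit 712752) (nat_lit 29) (.e (nat_lit 442377) (nat_lit 0) .nil)))))) (.g (nat_lit 4) .nil .nil)))) (.nd (nat_lit 6) 
(.lf (nat_lit 90789) (.g (nat_lit 2859) (.e (nat_lit 2153) (nat_lit 142) (.e (nat_lit 704738) (nat_lit 11) (.e (nat_lit 16425) (nat_lit 7) (.e (nat_lit 409649) (nat_lit 18) (.e (nat_lit 303140) (nat_lit 10) .nil))))) .nil)) 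
(.lf (nat_lit 90853) (.g (nat_lit 393) (.e (nat_lit 2160) (nat_lit 143) (.e (nat_lit 712755) (nat_lit 30) (.e (nat_lit 450563) (nat_lit 0) .nil))) .nil)))) (.nd (nat_lit 5) (.nd (nat_lit 6) 
(.lf (nat_lit 90773) (.g (nat_lit 3143) (.e (nat_lit 2151) (nat_lit 142) (.e (nat_lit 704738) (nat_lit 11) (.e (nat_lit 16416) (nat_lit 3) (.e (nat_lit 204861) (nat_lit 26) (.e (nat_lit 336075) (nat_lit 9) (.e (nat_lit 336326) (nat_lit 18) (.e (nat_lit 204821) (nat_lit 17) .nil))))))) (.g (nat_lit 6) .nil .nil))) 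
(.lf (nat_lit 90837) (.g (nat_lit 983) (.e (nat_lit 2160) (nat_lit 143) (.e (nat_lit 712753) (nat_lit 30) (.e (nat_lit 450568) (nat_lit 0) (.e (nat_lit 5599) (nat_lit 310) (.e (nat_lit 163932) (nat_lit 17) .nil))))) .nil))) (.nd (nat_lit 6) 
(.lf (nat_lit 90805) (.g (nat_lit 2736) (.e (nat_lit 2155) (nat_lit 142) (.e (nat_lit 704738) (nat_lit 11) (.e (nat_lit 16425) (nat_lit 7) (.e (nat_lit 409649) (nat_lit 18) (.e (nat_lit 303143) (nat_lit 12) .nil))))) .nil)) 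
(.lf (nat_lit 90869) (.g (nat_lit 2282) (.e (nat_lit 2160) (nat_lit 143) (.e (nat_lit 712755) (nat_lit 30) (.e (nat_lit 450564) (nat_lit 0) (.e (nat_lit 5546) (nat_lit 306) (.e (nat_lit 2650) (nat_lit 166) (.e (nat_lit 188419) (nat_lit 0) .nil)))))) (.g (nat_lit 4) .nil .nil)))))) (.nd (nat_lit 4) (.nd (nat_lit 5) (.nd (nat_lit 6) 
(.lf (nat_lit 90765) (.g (nat_lit 684) (.e (nat_lit 2151) (nat_lit 142) (.e (nat_lit 704737) (nat_lit 11) (.e (nat_lit 16416) (nat_lit 3) .nil))) .nil)) 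
(.lf (nat_lit 90829) (.g (nat_lit 1563) (.e (nat_lit 2160) (nat_lit 143) (.e (nat_lit 712752) (nat_lit 29) (.e (nat_lit 442430) (nat_lit 24) (.e (nat_lit 229666) (nat_lit 240) (.e (nat_lit 2725) (nat_lit 172) .nil))))) .nil))) (.nd (nat_lit 6) 
(.lf (nat_lit 90797) (.g (nat_lit 1691) (.e (nat_lit 2155) (nat_lit 142) (.e (nat_lit 704736) (nat_lit 11) (.e (nat_lit 16415) (nat_lit 3) (.e (nat_lit 204865) (nat_lit 28) (.e (nat_lit 360192) (nat_lit 3) .nil))))) .nil)) 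
(.lf (nat_lit 90861) (.g (nat_lit 1799) (.e (nat_lit 2160) (nat_lit 143) (.e (nat_lit 712755) (nat_lit 30) (.e (nat_lit 450563) (nat_lit 0) (.e (nat_lit 5539) (nat_lit 306) (.e (nat_lit 7936) (nat_lit 164) .nil))))) .nil)))) (.nd (nat_lit 5) (.nd (nat_lit 6) 
(.lf (nat_lit 90781) (.g (nat_lit 2329) (.e (nat_lit 2151) (nat_lit 142) (.e (nat_lit 704738) (nat_lit 11) (.e (nat_lit 16425) (nat_lit 7) (.e (nat_lit 409649) (nat_lit 18) (.e (nat_lit 303140) (nat_lit 10) .nil))))) .nil)) 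
(.lf (nat_lit 90845) (.g (nat_lit 1265) (.e (nat_lit 2160) (nat_lit 143) (.e (nat_lit 712753) (nat_lit 30) (.e (nat_lit 450593) (nat_lit 16) (.e (nat_lit 655364) (nat_lit 0) (.e (nat_lit 2988) (nat_lit 186) .nil))))) .nil))) (.nd (nat_lit 6) 
(.lf (nat_lit 90813) (.g (nat_lit 2993) (.e (nat_lit 2156) (nat_lit 142) (.e (nat_lit 704738) (nat_lit 11) (.e (nat_lit 16425) (nat_lit 7) (.e (nat_lit 409649) (nat_lit 18) (.e (nat_lit 303140) (nat_lit 10) (.e (nat_lit 434271) (nat_lit 38) (.e (nat_lit 655385) (nat_lit 9) (.e (nat_lit 986) (nat_lit 81) .nil)))))))) (.g (nat_lit 4) .nil .nil))) 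
(.lf (nat_lit 90877) (.g (nat_lit 1818) (.e (nat_lit 2160) (nat_lit 143) (.e (nat_lit 712755) (nat_lit 30) (.e (nat_lit 450568) (nat_lit 0) (.e (nat_lit 5599) (nat_lit 310) (.e (nat_lit 163931) (nat_lit 17) (.e (nat_lit 466945) (nat_lit 0) .nil)))))) (.g (nat_lit 4) .nil .nil)))))))) (.nd (nat_lit 2) (.nd (nat_lit 3) (.nd (nat_lit 4) (.nd (nat_lit 5) (.nd (nat_lit 6) 
(.lf (nat_lit 90755) (.g (nat_lit 254) (.e (nat_lit 2146) (nat_lit 142) (.e (nat_lit 704606) (nat_lit 9) (.e (nat_lit 1256) (nat_lit 92) .nil))) .nil)) 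
(.lf (nat_lit 90819) (.g (nat_lit 2447) (.e (nat_lit 2160) (nat_lit 143) (.e (nat_lit 712752) (nat_lit 29) (.e (nat_lit 442374) (nat_lit 0) (.e (nat_lit 2175) (nat_lit 143) (.e (nat_lit 712752) (nat_lit 29) (.e (nat_lit 442377) (nat_lit 0) .nil)))))) (.g (nat_lit 5) .nil .nil)))) (.nd (nat_lit 6) 
(.lf (nat_lit 90787) (.g (nat_lit 2528) (.e (nat_lit 2153) (nat_lit 142) (.e (nat_lit 704738) (nat_lit 11) (.e (nat_lit 16425) (nat_lit 7) (.e (nat_lit 409648) (nat_lit 18) .nil)))) .nil)) 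
(.lf (nat_lit 90851) (.g (nat_lit 1465) (.e (nat_lit 2160) (nat_lit 143) (.e (nat_lit 712755) (nat_lit 30) (.e (nat_lit 450562) (nat_lit 0) (.e (nat_lit 5539) (nat_lit 306) (.e (nat_lit 7936) (nat_lit 166) .nil))))) .nil)))) (.nd (nat_lit 5) (.nd (nat_lit 6) 
(.lf (nat_lit 90771) (.g (nat_lit 2000) (.e (nat_lit 2151) (nat_lit 142) (.e (nat_lit 704738) (nat_lit 11) (.e (nat_lit 16412) (nat_lit 2) (.e (nat_lit 196681) (nat_lit 17) (.e (nat_lit 131105) (nat_lit 9) (.e (nat_lit 336326) (nat_lit 18) (.e (nat_lit 204821) (nat_lit 17) .nil))))))) (.g (nat_lit 4) .nil .nil))) 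
(.lf (nat_lit 90835) (.g (nat_lit 1697) (.e (nat_lit 2160) (nat_lit 143) (.e (nat_lit 712753) (nat_lit 30) (.e (nat_lit 450568) (nat_lit 0) (.e (nat_lit 5599) (nat_lit 310) (.e (nat_lit 163905) (nat_lit 12) (.e (nat_lit 426227) (nat_lit 9) (.e (nat_lit 426364) (nat_lit 15) .nil))))))) (.g (nat_lit 5) .nil .nil)))) (.nd (nat_lit 6) 
(.lf (nat_lit 90803) (.g (nat_lit 2208) (.e (nat_lit 2155) (nat_lit 142) (.e (nat_lit 704738) (nat_lit 11) (.e (nat_lit 16425) (nat_lit 7) (.e (nat_lit 409648) (nat_lit 18) .nil)))) .nil)) 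
(.lf (nat_lit 90867) (.g (nat_lit 1901) (.e (nat_lit 2160) (nat_lit 143) (.e (nat_lit 712755) (nat_lit 30) (.e (nat_lit 450563) (nat_lit 0) (.e (nat_lit 7936) (nat_lit 311) (.e (nat_lit 229412) (nat_lit 14) (.e (nat_lit 442377) (nat_lit 0) .nil)))))) (.g (nat_lit 5) .nil .nil)))))) (.nd (nat_lit 4) (.nd (nat_lit 5) (.nd (nat_lit 6) 
(.lf (nat_lit 90763) (.g (nat_lit 1621) (.e (nat_lit 2151) (nat_lit 142) (.e (nat_lit 704737) (nat_lit 11) (.e (nat_lit 16412) (nat_lit 2) (.e (nat_lit 196674) (nat_lit 15) .nil)))) .nil)) 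
(.lf (nat_lit 90827) (.g (nat_lit 1141) (.e (nat_lit 2160) (nat_lit 143) (.e (nat_lit 712752) (nat_lit 29) (.e (nat_lit 442430) (nat_lit 24) (.e (nat_lit 229665) (nat_lit 240) .nil)))) .nil))) (.nd (nat_lit 6) 
(.lf (nat_lit 90795) (.g (nat_lit 2908) (.e (nat_lit 2154) (nat_lit 142) (.e (nat_lit 704738) (nat_lit 11) (.e (nat_lit 16425) (nat_lit 7) (.e (nat_lit 409649) (nat_lit 18) (.e (nat_lit 303140) (nat_lit 10) (.e (nat_lit 434272) (nat_lit 38) (.e (nat_lit 655386) (nat_lit 9) (.e (nat_lit 985) (nat_lit 81) .nil)))))))) (.g (nat_lit 4) .nil .nil))) 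
(.lf (nat_lit 90859) (.g (nat_lit 1608) (.e (nat_lit 2160) (nat_lit 143) (.e (nat_lit 712755) (nat_lit 30) (.e (nat_lit 450563) (nat_lit 0) (.e (nat_lit 5537) (nat_lit 306) (.e (nat_lit 7936) (nat_lit 164) .nil))))) .nil)))) (.nd (nat_lit 5) (.nd (nat_lit 6) 
(.lf (nat_lit 90779) (.g (nat_lit 3663) (.e (nat_lit 2151) (nat_lit 142) (.e (nat_lit 704738) (nat_lit 11) (.e (nat_lit 16416) (nat_lit 3) (.e (nat_lit 204876) (nat_lit 31) .nil)))) .nil)) 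
(.lf (nat_lit 90843) (.g (nat_lit 388) (.e (nat_lit 2160) (nat_lit 143) (.e (nat_lit 712753) (nat_lit 30) (.e (nat_lit 458496) (nat_lit 0) .nil))) .nil))) (.nd (nat_lit 6) 
(.lf (nat_lit 90811) (.g (nat_lit 2609) (.e (nat_lit 2155) (nat_lit 142) (.e (nat_lit 704754) (nat_lit 12) (.e (nat_lit 57479) (nat_lit 28) (.e (nat_lit 557094) (nat_lit 12) (.e (nat_lit 164056) (nat_lit 56) .nil))))) .nil)) 
(.lf (nat_lit 90875) (.g (nat_lit 2426) (.e (nat_lit 2160) (nat_lit 143) (.e (nat_lit 712755) (nat_lit 30) (.e (nat_lit 450568) (nat_lit 0) (.e (nat_lit 5599) (nat_lit 310) (.e (nat_lit 163919) (nat_lit 14) (.e (nat_lit 442373) (nat_lit 0) .nil)))))) (.g (nat_lit 5) .nil .nil))))))) (.nd (nat_lit 3) (.nd (nat_lit 4) (.nd (nat_lit 5) (.nd (nat_lit 6) 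
(.lf (nat_lit 90759) (.g (nat_lit 1346) (.e (nat_lit 2147) (nat_lit 142) (.e (nat_lit 704597) (nat_lit 6) (.e (nat_lit 188420) (nat_lit 0) (.e (nat_lit 2058) (nat_lit 142) (.e (nat_lit 704599) (nat_lit 6) (.e (nat_lit 188416) (nat_lit 0) .nil)))))) (.g (nat_lit 5) .nil .nil))) 
(.lf (nat_lit 90823) (.g (nat_lit 1375) (.e (nat_lit 2160) (nat_lit 143) (.e (nat_lit 712752) (nat_lit 29) (.e (nat_lit 442421) (nat_lit 21) (.e (nat_lit 164345) (nat_lit 240) .nil)))) .nil))) (.nd (nat_lit 6) 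
(.lf (nat_lit 90791) (.g (nat_lit 3526) (.e (nat_lit 2154) (nat_lit 142) (.e (nat_lit 704738) (nat_lit 11) (.e (nat_lit 16425) (nat_lit 7) (.e (nat_lit 409648) (nat_lit 18) (.e (nat_lit 303137) (nat_lit 10) .nil))))) .nil)) 
(.lf (nat_lit 90855) (.g (nat_lit 1233) (.e (nat_lit 2160) (nat_lit 143) (.e (nat_lit 712755) (nat_lit 30) (.e (nat_lit 450563) (nat_lit 0) (.e (nat_lit 5505) (nat_lit 306) .nil)))) .nil)))) (.nd (nat_lit 5) (.nd (nat_lit 6) 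
(.lf (nat_lit 90775) (.g (nat_lit 3518) (.e (nat_lit 2151) (nat_lit 142) (.e (nat_lit 704738) (nat_lit 11) (.e (nat_lit 16416) (nat_lit 3) (.e (nat_lit 204861) (nat_lit 26) (.e (nat_lit 336076) (nat_lit 9) (.e (nat_lit 336326) (nat_lit 18) (.e (nat_lit 204821) (nat_lit 17) .nil))))))) (.g (nat_lit 6) .nil .nil))) 
(.lf (nat_lit 90839) (.g (nat_lit 1709) (.e (nat_lit 2160) (nat_lit 143) (.e (nat_lit 712753) (nat_lit 30) (.e (nat_lit 450569) (nat_lit 0) (.e (nat_lit 5599) (nat_lit 310) (.e (nat_lit 163905) (nat_lit 12) (.e (nat_lit 426227) (nat_lit 9) (.e (nat_lit 426364) (nat_lit 15) .nil))))))) (.g (nat_lit 5) .nil .nil)))) (.nd (nat_lit 6) 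
(.lf (nat_lit 90807) (.g (nat_lit 1512) (.e (nat_lit 2155) (nat_lit 142) (.e (nat_lit 704754) (nat_lit 12) (.e (nat_lit 57479) (nat_lit 28) (.e (nat_lit 557093) (nat_lit 12) .nil)))) .nil)) 
(.lf (nat_lit 90871) (.g (nat_lit 602) (.e (nat_lit 2160) (nat_lit 143) (.e (nat_lit 712755) (nat_lit 30) (.e (nat_lit 450565) (nat_lit 0) .nil))) .nil))))) (.nd (nat_lit 4) (.nd (nat_lit 5) (.nd (nat_lit 6) 
(.lf (nat_lit 90767) (.g (nat_lit 2723) (.e (nat_lit 2151) (nat_lit 142) (.e (nat_lit 704738) (nat_lit 11) (.e (nat_lit 16412) (nat_lit 2) (.e (nat_lit 196672) (nat_lit 15) (.e (nat_lit 89856) (nat_lit 3) .nil))))) .nil)) 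
(.lf (nat_lit 90831) (.g (nat_lit 776) (.e (nat_lit 2160) (nat_lit 143) (.e (nat_lit 712753) (nat_lit 30) (.e (nat_lit 450564) (nat_lit 0) (.e (nat_lit 5546) (nat_lit 306) .nil)))) .nil))) (.nd (nat_lit 6) 
(.lf (nat_lit 90799) (.g (nat_lit 2140) (.e (nat_lit 2155) (nat_lit 142) (.e (nat_lit 704736) (nat_lit 11) (.e (nat_lit 16433) (nat_lit 9) (.e (nat_lit 426555) (nat_lit 32) (.e (nat_lit 376860) (nat_lit 21) .nil))))) .nil)) 
(.lf (nat_lit 90863) (.g (nat_lit 2172) (.e (nat_lit 2160) (nat_lit 143) (.e (nat_lit 712755) (nat_lit 30) (.e (nat_lit 450563) (nat_lit 0) (.e (nat_lit 5539) (nat_lit 306) (.e (nat_lit 7936) (nat_lit 166) (.e (nat_lit 196352) (nat_lit 0) .nil)))))) (.g (nat_lit 4) .nil .nil))))) (.nd (nat_lit 5) (.nd (nat_lit 6) 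
(.lf (nat_lit 90783) (.g (nat_lit 3300) (.e (nat_lit 2152) (nat_lit 142) (.e (nat_lit 704738) (nat_lit 11) (.e (nat_lit 16425) (nat_lit 7) (.e (nat_lit 409648) (nat_lit 18) (.e (nat_lit 303137) (nat_lit 10) .nil))))) .nil)) 
(.lf (nat_lit 90847) (.g (nat_lit 823) (.e (nat_lit 2160) (nat_lit 143) (.e (nat_lit 712753) (nat_lit 30) (.e (nat_lit 450593) (nat_lit 16) (.e (nat_lit 655380) (nat_lit 6) .nil)))) .nil))) (.nd (nat_lit 6) 
(.lf (nat_lit 90815) (.g (nat_lit 3284) (.e (nat_lit 2160) (nat_lit 143) (.e (nat_lit 712742) (nat_lit 27) (.e (nat_lit 426338) (nat_lit 14) (.e (nat_lit 491568) (nat_lit 13) (.e (nat_lit 393273) (nat_lit 23) (.e (nat_lit 426364) (nat_lit 15) .nil)))))) (.g (nat_lit 6) .nil .nil))) 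
(.lf (nat_lit 90879) (.g (nat_lit 1381) (.e (nat_lit 2160) (nat_lit 143) (.e (nat_lit 712755) (nat_lit 30) (.e (nat_lit 450568) (nat_lit 0) (.e (nat_lit 5599) (nat_lit 310) (.e (nat_lit 163932) (nat_lit 17) (.e (nat_lit 466945) (nat_lit 0) .nil)))))) (.g (nat_lit 4) .nil .nil))))))))))

noncomputable def tv1243 : DT := (.nd (nat_lit 0) (.nd (nat_lit 1) (.nd (nat_lit 2) (.nd (nat_lit 3) (.nd (nat_lit 4) (.nd (nat_lit 5) (.nd (nat_lit 6) 
(.lf (nat_lit 90880) (.g (nat_lit 2626) (.e (nat_lit 2160) (nat_lit 143) (.e (nat_lit 712755) (nat_lit 30) (.e (nat_lit 450568) (nat_lit 0) (.e (nat_lit 5599) (nat_lit 310) (.e (nat_lit 163932) (nat_lit 17) (.e (nat_lit 466947) (nat_lit 0) .nil)))))) (.g (nat_lit 6) .nil .nil))) 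
(.lf (nat_lit 90944) (.g (nat_lit 499) (.e (nat_lit 2161) (nat_lit 143) (.e (nat_lit 712755) (nat_lit 30) (.e (nat_lit 450563) (nat_lit 0) .nil))) .nil))) (.nd (nat_lit 6) 
(.lf (nat_lit 90912) (.g (nat_lit 2532) (.e (nat_lit 2160) (nat_lit 143) (.e (nat_lit 712755) (nat_lit 30) (.e (nat_lit 450588) (nat_lit 10) (.e (nat_lit 573473) (nat_lit 12) (.e (nat_lit 57508) (nat_lit 39) .nil))))) .nil)) 
(.lf (nat_lit 90976) (.g (nat_lit 706) (.e (nat_lit 2170) (nat_lit 143) (.e (nat_lit 712752) (nat_lit 29) (.e (nat_lit 450304) (nat_lit 4) (.e (nat_lit 106500) (nat_lit 0) (.e (nat_lit 2985) (nat_lit 186) (.e (nat_lit 450304) (nat_lit 0) .nil)))))) (.g (nat_lit 5) .nil .nil))))) (.nd (nat_lit 5) (.nd (nat_lit 6) 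
(.lf (nat_lit 90896) (.g (nat_lit 402) (.e (nat_lit 2160) (nat_lit 143) (.e (nat_lit 712755) (nat_lit 30) (.e (nat_lit 450588) (nat_lit 10) .nil))) .nil)) 
(.lf (nat_lit 90960) (.g (nat_lit 726) (.e (nat_lit 2165) (nat_lit 143) (.e (nat_lit 712752) (nat_lit 29) (.e (nat_lit 442382) (nat_lit 8) .nil))) .nil))) (.nd (nat_lit 6) 
(.lf (nat_lit 90928) (.g (nat_lit 512) (.e (nat_lit 2160) (nat_lit 143) (.e (nat_lit 712755) (nat_lit 30) (.e (nat_lit 450593) (nat_lit 16) .nil))) .nil)) 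
(.lf (nat_lit 90992) (.g (nat_lit 869) (.e (nat_lit 2170) (nat_lit 143) (.e (nat_lit 712755) (nat_lit 30) (.e (nat_lit 450568) (nat_lit 0) (.e (nat_lit 5599) (nat_lit 310) .nil)))) .nil))))) (.nd (nat_lit 4) (.nd (nat_lit 5) (.nd (nat_lit 6) 
(.lf (nat_lit 90888) (.g (nat_lit 2279) (.e (nat_lit 2160) (nat_lit 143) (.e (nat_lit 712755) (nat_lit 30) (.e (nat_lit 450569) (nat_lit 0) (.e (nat_lit 5599) (nat_lit 310) (.e (nat_lit 163905) (nat_lit 12) (.e (nat_lit 426227) (nat_lit 9) (.e (nat_lit 426364) (nat_lit 15) .nil))))))) (.g (nat_lit 5) .nil .nil))) 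
(.lf (nat_lit 90952) (.g (nat_lit 1337) (.e (nat_lit 2162) (nat_lit 143) (.e (nat_lit 712752) (nat_lit 29) (.e (nat_lit 442421) (nat_lit 21) (.e (nat_lit 164345) (nat_lit 240) .nil)))) .nil))) (.nd (nat_lit 6) 
(.lf (nat_lit 90920) (.g (nat_lit 3684) (.e (nat_lit 2160) (nat_lit 143) (.e (nat_lit 712755) (nat_lit 30) (.e (nat_lit 450588) (nat_lit 10) (.e (nat_lit 573475) (nat_lit 12) (.e (nat_lit 57354) (nat_lit 0) (.e (nat_lit 5195) (nat_lit 294) (.e (nat_lit 57365) (nat_lit 1) (.e (nat_lit 57851) (nat_lit 252) (.e (nat_lit 57347) (nat_lit 0) .nil))))))))) (.g (nat_lit 5) .nil .nil))) 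
(.lf (nat_lit 90984) (.g (nat_lit 2706) (.e (nat_lit 2170) (nat_lit 143) (.e (nat_lit 712752) (nat_lit 29) (.e (nat_lit 442421) (nat_lit 21) (.e (nat_lit 164348) (nat_lit 240) (.e (nat_lit 2648) (nat_lit 166) .nil))))) .nil)))) (.nd (nat_lit 5) (.nd (nat_lit 6) 
(.lf (nat_lit 90904) (.g (nat_lit 2262) (.e (nat_lit 2160) (nat_lit 143) (.e (nat_lit 712755) (nat_lit 30) (.e (nat_lit 450588) (nat_lit 10) (.e (nat_lit 573453) (nat_lit 9) .nil)))) .nil)) 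
(.lf (nat_lit 90968) (.g (nat_lit 2050) (.e (nat_lit 2167) (nat_lit 143) (.e (nat_lit 712755) (nat_lit 30) (.e (nat_lit 450563) (nat_lit 0) (.e (nat_lit 5539) (nat_lit 306) (.e (nat_lit 7936) (nat_lit 166) .nil))))) .nil))) (.nd (nat_lit 6) 
(.lf (nat_lit 90936) (.g (nat_lit 2390) (.e (nat_lit 2160) (nat_lit 143) (.e (nat_lit 712755) (nat_lit 30) (.e (nat_lit 450593) (nat_lit 16) (.e (nat_lit 655378) (nat_lit 4) (.e (nat_lit 172094) (nat_lit 9) (.e (nat_lit 426410) (nat_lit 15) .nil)))))) (.g (nat_lit 4) .nil .nil))) 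
(.lf (nat_lit 91000) (.g (nat_lit 506) (.e (nat_lit 2171) (nat_lit 143) (.e (nat_lit 712752) (nat_lit 29) (.e (nat_lit 442382) (nat_lit 8) .nil))) .nil)))))) (.nd (nat_lit 3) (.nd (nat_lit 4) (.nd (nat_lit 5) (.nd (nat_lit 6) 
(.lf (nat_lit 90884) (.g (nat_lit 1223) (.e (nat_lit 2160) (nat_lit 143) (.e (nat_lit 712755) (nat_lit 30) (.e (nat_lit 450569) (nat_lit 0) (.e (nat_lit 5598) (nat_lit 310) .nil)))) .nil)) 
(.lf (nat_lit 90948) (.g (nat_lit 1923) (.e (nat_lit 2162) (nat_lit 143) (.e (nat_lit 712749) (nat_lit 28) (.e (nat_lit 434180) (nat_lit 0) (.e (nat_lit 1661) (nat_lit 115) (.e (nat_lit 393269) (nat_lit 23) (.e (nat_lit 426402) (nat_lit 15) .nil)))))) (.g (nat_lit 4) .nil .nil)))) (.nd (nat_lit 6) 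
(.lf (nat_lit 90916) (.g (nat_lit 3525) (.e (nat_lit 2160) (nat_lit 143) (.e (nat_lit 712755) (nat_lit 30) (.e (nat_lit 450588) (nat_lit 10) (.e (nat_lit 573474) (nat_lit 12) (.e (nat_lit 57506) (nat_lit 39) .nil))))) .nil)) 
(.lf (nat_lit 90980) (.g (nat_lit 1800) (.e (nat_lit 2170) (nat_lit 143) (.e (nat_lit 712752) (nat_lit 29) (.e (nat_lit 442421) (nat_lit 21) (.e (nat_lit 164345) (nat_lit 240) (.e (nat_lit 2648) (nat_lit 166) .nil))))) .nil)))) (.nd (nat_lit 5) (.nd (nat_lit 6) 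
(.lf (nat_lit 90900) (.g (nat_lit 2267) (.e (nat_lit 2160) (nat_lit 143) (.e (nat_lit 712755) (nat_lit 30) (.e (nat_lit 450588) (nat_lit 10) (.e (nat_lit 573449) (nat_lit 9) (.e (nat_lit 1183) (nat_lit 87) (.e (nat_lit 57848) (nat_lit 252) (.e (nat_lit 57367) (nat_lit 1) (.e (nat_lit 57847) (nat_lit 252) (.e (nat_lit 57345) (nat_lit 0) .nil))))))))) (.g (nat_lit 4) .nil .nil))) 
(.lf (nat_lit 90964) (.g (nat_lit 512) (.e (nat_lit 2167) (nat_lit 143) (.e (nat_lit 712752) (nat_lit 29) (.e (nat_lit 442421) (nat_lit 21) .nil))) .nil))) (.nd (nat_lit 6) 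
(.lf (nat_lit 90932) (.g (nat_lit 1912) (.e (nat_lit 2160) (nat_lit 143) (.e (nat_lit 712755) (nat_lit 30) (.e (nat_lit 450593) (nat_lit 16) (.e (nat_lit 655367) (nat_lit 0) (.e (nat_lit 2946) (nat_lit 184) .nil))))) .nil)) 
(.lf (nat_lit 90996) (.g (nat_lit 1650) (.e (nat_lit 2170) (nat_lit 143) (.e (nat_lit 712755) (nat_lit 30) (.e (nat_lit 450569) (nat_lit 0) (.e (nat_lit 5599) (nat_lit 310) (.e (nat_lit 163932) (nat_lit 17) .nil))))) .nil))))) (.nd (nat_lit 4) (.nd (nat_lit 5) (.nd (nat_lit 6) 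
(.lf (nat_lit 90892) (.g (nat_lit 2565) (.e (nat_lit 2160) (nat_lit 143) (.e (nat_lit 712755) (nat_lit 30) (.e (nat_lit 450569) (nat_lit 0) (.e (nat_lit 5599) (nat_lit 310) (.e (nat_lit 163932) (nat_lit 17) (.e (nat_lit 466947) (nat_lit 0) .nil)))))) (.g (nat_lit 5) .nil .nil))) 
(.lf (nat_lit 90956) (.g (nat_lit 2133) (.e (nat_lit 2162) (nat_lit 143) (.e (nat_lit 712755) (nat_lit 30) (.e (nat_lit 450563) (nat_lit 0) (.e (nat_lit 5539) (nat_lit 306) (.e (nat_lit 7936) (nat_lit 166) (.e (nat_lit 196352) (nat_lit 0) .nil)))))) (.g (nat_lit 4) .nil .nil)))) (.nd (nat_lit 6) 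
(.lf (nat_lit 90924) (.g (nat_lit 2633) (.e (nat_lit 2160) (nat_lit 143) (.e (nat_lit 712755) (nat_lit 30) (.e (nat_lit 450588) (nat_lit 10) (.e (nat_lit 573475) (nat_lit 12) (.e (nat_lit 57507) (nat_lit 39) .nil))))) .nil)) 
(.lf (nat_lit 90988) (.g (nat_lit 1220) (.e (nat_lit 2170) (nat_lit 143) (.e (nat_lit 712752) (nat_lit 29) (.e (nat_lit 442430) (nat_lit 24) (.e (nat_lit 229681) (nat_lit 244) .nil)))) .nil)))) (.nd (nat_lit 5) (.nd (nat_lit 6) 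
(.lf (nat_lit 90908) (.g (nat_lit 3688) (.e (nat_lit 2160) (nat_lit 143) (.e (nat_lit 712755) (nat_lit 30) (.e (nat_lit 450588) (nat_lit 10) (.e (nat_lit 573468) (nat_lit 10) (.e (nat_lit 8277) (nat_lit 47) .nil))))) .nil)) 
(.lf (nat_lit 90972) (.g (nat_lit 266) (.e (nat_lit 2170) (nat_lit 143) (.e (nat_lit 712749) (nat_lit 28) (.e (nat_lit 442112) (nat_lit 0) .nil))) .nil))) (.nd (nat_lit 6) 
(.lf (nat_lit 90940) (.g (nat_lit 407) (.e (nat_lit 2160) (nat_lit 143) (.e (nat_lit 712755) (nat_lit 30) (.e (nat_lit 450596) (nat_lit 17) .nil))) .nil)) 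
(.lf (nat_lit 91004) (.g (nat_lit 2971) (.e (nat_lit 2171) (nat_lit 143) (.e (nat_lit 712755) (nat_lit 30) (.e (nat_lit 450588) (nat_lit 10) (.e (nat_lit 573475) (nat_lit 12) (.e (nat_lit 57507) (nat_lit 39) .nil))))) .nil))))))) (.nd (nat_lit 2) (.nd (nat_lit 3) (.nd (nat_lit 4) (.nd (nat_lit 5) (.nd (nat_lit 6) 
(.lf (nat_lit 90882) (.g (nat_lit 526) (.e (nat_lit 2160) (nat_lit 143) (.e (nat_lit 712755) (nat_lit 30) (.e (nat_lit 450569) (nat_lit 0) .nil))) .nil)) 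
(.lf (nat_lit 90946) (.g (nat_lit 1331) (.e (nat_lit 2161) (nat_lit 143) (.e (nat_lit 712755) (nat_lit 30) (.e (nat_lit 450563) (nat_lit 0) (.e (nat_lit 5539) (nat_lit 306) .nil)))) .nil))) (.nd (nat_lit 6) 
(.lf (nat_lit 90914) (.g (nat_lit 3426) (.e (nat_lit 2160) (nat_lit 143) (.e (nat_lit 712755) (nat_lit 30) (.e (nat_lit 450588) (nat_lit 10) (.e (nat_lit 573474) (nat_lit 12) (.e (nat_lit 57354) (nat_lit 0) (.e (nat_lit 5194) (nat_lit 294) (.e (nat_lit 57368) (nat_lit 1) (.e (nat_lit 57854) (nat_lit 252) (.e (nat_lit 57347) (nat_lit 0) .nil))))))))) (.g (nat_lit 4) .nil .nil))) 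
(.lf (nat_lit 90978) (.g (nat_lit 940) (.e (nat_lit 2170) (nat_lit 143) (.e (nat_lit 712752) (nat_lit 29) (.e (nat_lit 442382) (nat_lit 8) (.e (nat_lit 155652) (nat_lit 0) (.e (nat_lit 2985) (nat_lit 186) (.e (nat_lit 450304) (nat_lit 0) .nil)))))) (.g (nat_lit 5) .nil .nil))))) (.nd (nat_lit 5) (.nd (nat_lit 6) 
(.lf (nat_lit 90898) (.g (nat_lit 1573) (.e (nat_lit 2160) (nat_lit 143) (.e (nat_lit 712755) (nat_lit 30) (.e (nat_lit 450588) (nat_lit 10) (.e (nat_lit 581376) (nat_lit 0) .nil)))) .nil)) 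
(.lf (nat_lit 90962) (.g (nat_lit 489) (.e (nat_lit 2167) (nat_lit 143) (.e (nat_lit 712752) (nat_lit 29) (.e (nat_lit 442382) (nat_lit 8) .nil))) .nil))) (.nd (nat_lit 6) 
(.lf (nat_lit 90930) (.g (nat_lit 1327) (.e (nat_lit 2160) (nat_lit 143) (.e (nat_lit 712755) (nat_lit 30) (.e (nat_lit 450593) (nat_lit 16) (.e (nat_lit 655364) (nat_lit 0) .nil)))) .nil)) 
(.lf (nat_lit 90994) (.g (nat_lit 1269) (.e (nat_lit 2170) (nat_lit 143) (.e (nat_lit 712755) (nat_lit 30) (.e (nat_lit 450569) (nat_lit 0) (.e (nat_lit 5599) (nat_lit 310) .nil)))) .nil))))) (.nd (nat_lit 4) (.nd (nat_lit 5) (.nd (nat_lit 6) 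
(.lf (nat_lit 90890) (.g (nat_lit 1857) (.e (nat_lit 2160) (nat_lit 143) (.e (nat_lit 712755) (nat_lit 30) (.e (nat_lit 450569) (nat_lit 0) (.e (nat_lit 5599) (nat_lit 310) (.e (nat_lit 163931) (nat_lit 17) (.e (nat_lit 466945) (nat_lit 0) .nil)))))) (.g (nat_lit 4) .nil .nil))) 
(.lf (nat_lit 90954) (.g (nat_lit 1487) (.e (nat_lit 2162) (nat_lit 143) (.e (nat_lit 712755) (nat_lit 30) (.e (nat_lit 450562) (nat_lit 0) (.e (nat_lit 5539) (nat_lit 306) .nil)))) .nil))) (.nd (nat_lit 6) 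
(.lf (nat_lit 90922) (.g (nat_lit 3457) (.e (nat_lit 2160) (nat_lit 143) (.e (nat_lit 712755) (nat_lit 30) (.e (nat_lit 450588) (nat_lit 10) (.e (nat_lit 573475) (nat_lit 12) (.e (nat_lit 57354) (nat_lit 0) (.e (nat_lit 5195) (nat_lit 294) (.e (nat_lit 57368) (nat_lit 1) (.e (nat_lit 57851) (nat_lit 252) (.e (nat_lit 57347) (nat_lit 0) .nil))))))))) (.g (nat_lit 4) .nil .nil))) 
(.lf (nat_lit 90986) (.g (nat_lit 579) (.e (nat_lit 2170) (nat_lit 143) (.e (nat_lit 712752) (nat_lit 29) (.e (nat_lit 442428) (nat_lit 24) .nil))) .nil)))) (.nd (nat_lit 5) (.nd (nat_lit 6) 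
(.lf (nat_lit 90906) (.g (nat_lit 2041) (.e (nat_lit 2160) (nat_lit 143) (.e (nat_lit 712755) (nat_lit 30) (.e (nat_lit 450588) (nat_lit 10) (.e (nat_lit 573467) (nat_lit 10) (.e (nat_lit 8277) (nat_lit 47) .nil))))) .nil)) 
(.lf (nat_lit 90970) (.g (nat_lit 1544) (.e (nat_lit 2167) (nat_lit 143) (.e (nat_lit 712755) (nat_lit 30) (.e (nat_lit 450593) (nat_lit 16) (.e (nat_lit 655380) (nat_lit 6) .nil)))) .nil))) (.nd (nat_lit 6) 
(.lf (nat_lit 90938) (.g (nat_lit 1938) (.e (nat_lit 2160) (nat_lit 143) (.e (nat_lit 712755) (nat_lit 30) (.e (nat_lit 450593) (nat_lit 16) (.e (nat_lit 655380) (nat_lit 6) (.e (nat_lit 188419) (nat_lit 0) .nil))))) (.g (nat_lit 4) .nil .nil))) 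
(.lf (nat_lit 91002) (.g (nat_lit 2609) (.e (nat_lit 2171) (nat_lit 143) (.e (nat_lit 712755) (nat_lit 30) (.e (nat_lit 450588) (nat_lit 10) (.e (nat_lit 573453) (nat_lit 9) .nil)))) .nil)))))) (.nd (nat_lit 3) (.nd (nat_lit 4) (.nd (nat_lit 5) (.nd (nat_lit 6) 
(.lf (nat_lit 90886) (.g (nat_lit 1500) (.e (nat_lit 2160) (nat_lit 143) (.e (nat_lit 712755) (nat_lit 30) (.e (nat_lit 450569) (nat_lit 0) (.e (nat_lit 5598) (nat_lit 310) (.e (nat_lit 163932) (nat_lit 17) .nil))))) .nil)) 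
(.lf (nat_lit 90950) (.g (nat_lit 565) (.e (nat_lit 2162) (nat_lit 143) (.e (nat_lit 712752) (nat_lit 29) (.e (nat_lit 442382) (nat_lit 8) .nil))) .nil))) (.nd (nat_lit 6) 
(.lf (nat_lit 90918) (.g (nat_lit 3196) (.e (nat_lit 2160) (nat_lit 143) (.e (nat_lit 712755) (nat_lit 30) (.e (nat_lit 450588) (nat_lit 10) (.e (nat_lit 573475) (nat_lit 12) (.e (nat_lit 57354) (nat_lit 0) .nil))))) .nil)) 
(.lf (nat_lit 90982) (.g (nat_lit 1411) (.e (nat_lit 2170) (nat_lit 143) (.e (nat_lit 712752) (nat_lit 29) (.e (nat_lit 442421) (nat_lit 21) (.e (nat_lit 164346) (nat_lit 240) .nil)))) .nil)))) (.nd (nat_lit 5) (.nd (nat_lit 6) 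
(.lf (nat_lit 90902) (.g (nat_lit 2007) (.e (nat_lit 2160) (nat_lit 143) (.e (nat_lit 712755) (nat_lit 30) (.e (nat_lit 450588) (nat_lit 10) (.e (nat_lit 573451) (nat_lit 9) (.e (nat_lit 1177) (nat_lit 87) .nil))))) .nil)) 
(.lf (nat_lit 90966) (.g (nat_lit 1503) (.e (nat_lit 2167) (nat_lit 143) (.e (nat_lit 712755) (nat_lit 30) (.e (nat_lit 450562) (nat_lit 0) (.e (nat_lit 5539) (nat_lit 306) .nil)))) .nil))) (.nd (nat_lit 6) 
(.lf (nat_lit 90934) (.g (nat_lit 3229) (.e (nat_lit 2160) (nat_lit 143) (.e (nat_lit 712755) (nat_lit 30) (.e (nat_lit 450593) (nat_lit 16) (.e (nat_lit 655378) (nat_lit 4) (.e (nat_lit 172085) (nat_lit 9) (.e (nat_lit 426364) (nat_lit 15) .nil)))))) (.g (nat_lit 6) .nil .nil))) 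
(.lf (nat_lit 90998) (.g (nat_lit 1544) (.e (nat_lit 2170) (nat_lit 143) (.e (nat_lit 712755) (nat_lit 30) (.e (nat_lit 450593) (nat_lit 16) (.e (nat_lit 655380) (nat_lit 6) .nil)))) .nil))))) (.nd (nat_lit 4) (.nd (nat_lit 5) (.nd (nat_lit 6) 
(.lf (nat_lit 90894) (.g (nat_lit 2102) (.e (nat_lit 2160) (nat_lit 143) (.e (nat_lit 712755) (nat_lit 30) (.e (nat_lit 458496) (nat_lit 0) (.e (nat_lit 5546) (nat_lit 306) (.e (nat_lit 2650) (nat_lit 166) (.e (nat_lit 188419) (nat_lit 0) .nil)))))) (.g (nat_lit 5) .nil .nil))) 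
(.lf (nat_lit 90958) (.g (nat_lit 581) (.e (nat_lit 2162) (nat_lit 143) (.e (nat_lit 712755) (nat_lit 30) (.e (nat_lit 450597) (nat_lit 17) .nil))) .nil))) (.nd (nat_lit 6) 
(.lf (nat_lit 90926) (.g (nat_lit 2770) (.e (nat_lit 2160) (nat_lit 143) (.e (nat_lit 712755) (nat_lit 30) (.e (nat_lit 450588) (nat_lit 10) (.e (nat_lit 573475) (nat_lit 12) (.e (nat_lit 57509) (nat_lit 39) .nil))))) .nil)) 
(.lf (nat_lit 90990) (.g (nat_lit 1503) (.e (nat_lit 2170) (nat_lit 143) (.e (nat_lit 712755) (nat_lit 30) (.e (nat_lit 450562) (nat_lit 0) (.e (nat_lit 5539) (nat_lit 306) .nil)))) .nil)))) (.nd (nat_lit 5) (.nd (nat_lit 6) 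
(.lf (nat_lit 90910) (.g (nat_lit 2987) (.e (nat_lit 2160) (nat_lit 143) (.e (nat_lit 712755) (nat_lit 30) (.e (nat_lit 450588) (nat_lit 10) (.e (nat_lit 573473) (nat_lit 12) (.e (nat_lit 57506) (nat_lit 39) .nil))))) .nil)) 
(.lf (nat_lit 90974) (.g (nat_lit 1703) (.e (nat_lit 2170) (nat_lit 143) (.e (nat_lit 712752) (nat_lit 29) (.e (nat_lit 442374) (nat_lit 0) (.e (nat_lit 2175) (nat_lit 143) (.e (nat_lit 712750) (nat_lit 29) .nil))))) .nil))) (.nd (nat_lit 6) 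
(.lf (nat_lit 90942) (.g (nat_lit 854) (.e (nat_lit 2160) (nat_lit 143) (.e (nat_lit 712755) (nat_lit 30) (.e (nat_lit 450597) (nat_lit 17) (.e (nat_lit 663589) (nat_lit 14) .nil)))) .nil)) 
(.lf (nat_lit 91006) (.g (nat_lit 1941) (.e (nat_lit 2172) (nat_lit 143) (.e (nat_lit 712752) (nat_lit 29) (.e (nat_lit 442374) (nat_lit 0) (.e (nat_lit 2059) (nat_lit 142) (.e (nat_lit 704598) (nat_lit 6) .nil))))) .nil)))))))) (.nd (nat_lit 1) (.nd (nat_lit 2) (.nd (nat_lit 3) (.nd (nat_lit 4) (.nd (nat_lit 5) (.nd (nat_lit 6) 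
(.lf (nat_lit 90881) (.g (nat_lit 1500) (.e (nat_lit 2160) (nat_lit 143) (.e (nat_lit 712755) (nat_lit 30) (.e (nat_lit 450568) (nat_lit 0) (.e (nat_lit 5599) (nat_lit 310) (.e (nat_lit 163932) (nat_lit 17) (.e (nat_lit 466949) (nat_lit 0) .nil)))))) (.g (nat_lit 4) .nil .nil))) 
(.lf (nat_lit 90945) (.g (nat_lit 1290) (.e (nat_lit 2161) (nat_lit 143) (.e (nat_lit 712755) (nat_lit 30) (.e (nat_lit 450563) (nat_lit 0) (.e (nat_lit 5537) (nat_lit 306) .nil)))) .nil))) (.nd (nat_lit 6) 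
(.lf (nat_lit 90913) (.g (nat_lit 2596) (.e (nat_lit 2160) (nat_lit 143) (.e (nat_lit 712755) (nat_lit 30) (.e (nat_lit 450588) (nat_lit 10) (.e (nat_lit 573473) (nat_lit 12) (.e (nat_lit 57511) (nat_lit 39) .nil))))) .nil)) 
(.lf (nat_lit 90977) (.g (nat_lit 665) (.e (nat_lit 2170) (nat_lit 143) (.e (nat_lit 712752) (nat_lit 29) (.e (nat_lit 442382) (nat_lit 8) (.e (nat_lit 155652) (nat_lit 0) .nil)))) .nil)))) (.nd (nat_lit 5) (.nd (nat_lit 6) 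
(.lf (nat_lit 90897) (.g (nat_lit 1589) (.e (nat_lit 2160) (nat_lit 143) (.e (nat_lit 712755) (nat_lit 30) (.e (nat_lit 450588) (nat_lit 10) (.e (nat_lit 573441) (nat_lit 0) (.e (nat_lit 2962) (nat_lit 185) .nil))))) .nil)) 
(.lf (nat_lit 90961) (.g (nat_lit 1525) (.e (nat_lit 2166) (nat_lit 143) (.e (nat_lit 712755) (nat_lit 30) (.e (nat_lit 450563) (nat_lit 0) (.e (nat_lit 5539) (nat_lit 306) .nil)))) .nil))) (.nd (nat_lit 6) 
(.lf (nat_lit 90929) (.g (nat_lit 1479) (.e (nat_lit 2160) (nat_lit 143) (.e (nat_lit 712755) (nat_lit 30) (.e (nat_lit 450593) (nat_lit 16) (.e (nat_lit 655360) (nat_lit 0) .nil)))) .nil)) 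
(.lf (nat_lit 90993) (.g (nat_lit 1391) (.e (nat_lit 2170) (nat_lit 143) (.e (nat_lit 712755) (nat_lit 30) (.e (nat_lit 450568) (nat_lit 0) (.e (nat_lit 5599) (nat_lit 310) (.e (nat_lit 163932) (nat_lit 17) .nil))))) .nil))))) (.nd (nat_lit 4) (.nd (nat_lit 5) (.nd (nat_lit 6) 
(.lf (nat_lit 90889) (.g (nat_lit 2118) (.e (nat_lit 2160) (nat_lit 143) (.e (nat_lit 712755) (nat_lit 30) (.e (nat_lit 450569) (nat_lit 0) (.e (nat_lit 5599) (nat_lit 310) (.e (nat_lit 163920) (nat_lit 14) (.e (nat_lit 442377) (nat_lit 0) .nil)))))) (.g (nat_lit 4) .nil .nil))) 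
(.lf (nat_lit 90953) (.g (nat_lit 1787) (.e (nat_lit 2162) (nat_lit 143) (.e (nat_lit 712752) (nat_lit 29) (.e (nat_lit 442430) (nat_lit 24) (.e (nat_lit 229664) (nat_lit 240) (.e (nat_lit 2725) (nat_lit 172) .nil))))) .nil))) (.nd (nat_lit 6) 
(.lf (nat_lit 90921) (.g (nat_lit 4534) (.e (nat_lit 2160) (nat_lit 143) (.e (nat_lit 712755) (nat_lit 30) (.e (nat_lit 450588) (nat_lit 10) (.e (nat_lit 573475) (nat_lit 12) (.e (nat_lit 57354) (nat_lit 0) (.e (nat_lit 5195) (nat_lit 294) (.e (nat_lit 57367) (nat_lit 1) (.e (nat_lit 57847) (nat_lit 252) (.e (nat_lit 57348) (nat_lit 0) .nil))))))))) (.g (nat_lit 6) .nil .nil))) 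
(.lf (nat_lit 90985) (.g (nat_lit 2758) (.e (nat_lit 2170) (nat_lit 143) (.e (nat_lit 712752) (nat_lit 29) (.e (nat_lit 442421) (nat_lit 21) (.e (nat_lit 164348) (nat_lit 240) (.e (nat_lit 2650) (nat_lit 166) .nil))))) .nil)))) (.nd (nat_lit 5) (.nd (nat_lit 6) 
(.lf (nat_lit 90905) (.g (nat_lit 1159) (.e (nat_lit 2160) (nat_lit 143) (.e (nat_lit 712755) (nat_lit 30) (.e (nat_lit 450588) (nat_lit 10) (.e (nat_lit 573467) (nat_lit 10) .nil)))) .nil)) 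
(.lf (nat_lit 90969) (.g (nat_lit 2879) (.e (nat_lit 2167) (nat_lit 143) (.e (nat_lit 712755) (nat_lit 30) (.e (nat_lit 450588) (nat_lit 10) (.e (nat_lit 573473) (nat_lit 12) (.e (nat_lit 57508) (nat_lit 39) .nil))))) .nil))) (.nd (nat_lit 6) 
(.lf (nat_lit 90937) (.g (nat_lit 2321) (.e (nat_lit 2160) (nat_lit 143) (.e (nat_lit 712755) (nat_lit 30) (.e (nat_lit 450593) (nat_lit 16) (.e (nat_lit 655380) (nat_lit 6) (.e (nat_lit 188418) (nat_lit 0) .nil))))) (.g (nat_lit 5) .nil .nil))) 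
(.lf (nat_lit 91001) (.g (nat_lit 2411) (.e (nat_lit 2171) (nat_lit 143) (.e (nat_lit 712755) (nat_lit 30) (.e (nat_lit 450588) (nat_lit 10) (.e (nat_lit 573449) (nat_lit 9) (.e (nat_lit 1183) (nat_lit 87) .nil))))) .nil)))))) (.nd (nat_lit 3) (.nd (nat_lit 4) (.nd (nat_lit 5) (.nd (nat_lit 6) 
(.lf (nat_lit 90885) (.g (nat_lit 2651) (.e (nat_lit 2160) (nat_lit 143) (.e (nat_lit 712755) (nat_lit 30) (.e (nat_lit 450569) (nat_lit 0) (.e (nat_lit 5598) (nat_lit 310) (.e (nat_lit 163919) (nat_lit 14) (.e (nat_lit 442374) (nat_lit 0) .nil)))))) (.g (nat_lit 5) .nil .nil))) 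
(.lf (nat_lit 90949) (.g (nat_lit 506) (.e (nat_lit 2162) (nat_lit 143) (.e (nat_lit 712752) (nat_lit 29) (.e (nat_lit 450304) (nat_lit 4) .nil))) .nil))) (.nd (nat_lit 6) 
(.lf (nat_lit 90917) (.g (nat_lit 3317) (.e (nat_lit 2160) (nat_lit 143) (.e (nat_lit 712755) (nat_lit 30) (.e (nat_lit 450588) (nat_lit 10) (.e (nat_lit 573474) (nat_lit 12) (.e (nat_lit 57507) (nat_lit 39) (.e (nat_lit 647201) (nat_lit 12) (.e (nat_lit 57351) (nat_lit 0) (.e (nat_lit 7265) (nat_lit 384) (.e (nat_lit 57347) (nat_lit 0) .nil))))))))) (.g (nat_lit 4) .nil .nil))) 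
(.lf (nat_lit 90981) (.g (nat_lit 1733) (.e (nat_lit 2170) (nat_lit 143) (.e (nat_lit 712752) (nat_lit 29) (.e (nat_lit 442421) (nat_lit 21) (.e (nat_lit 164345) (nat_lit 240) (.e (nat_lit 2650) (nat_lit 166) .nil))))) .nil)))) (.nd (nat_lit 5) (.nd (nat_lit 6) 
(.lf (nat_lit 90901) (.g (nat_lit 3719) (.e (nat_lit 2160) (nat_lit 143) (.e (nat_lit 712755) (nat_lit 30) (.e (nat_lit 450588) (nat_lit 10) (.e (nat_lit 573449) (nat_lit 9) (.e (nat_lit 1183) (nat_lit 87) (.e (nat_lit 57848) (nat_lit 252) (.e (nat_lit 57368) (nat_lit 1) (.e (nat_lit 57854) (nat_lit 252) (.e (nat_lit 57351) (nat_lit 0) .nil))))))))) (.g (nat_lit 6) .nil .nil))) 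
(.lf (nat_lit 90965) (.g (nat_lit 1365) (.e (nat_lit 2167) (nat_lit 143) (.e (nat_lit 712752) (nat_lit 29) (.e (nat_lit 442421) (nat_lit 21) (.e (nat_lit 164347) (nat_lit 240) .nil)))) .nil))) (.nd (nat_lit 6) 
(.lf (nat_lit 90933) (.g (nat_lit 1383) (.e (nat_lit 2160) (nat_lit 143) (.e (nat_lit 712755) (nat_lit 30) (.e (nat_lit 450593) (nat_lit 16) (.e (nat_lit 655378) (nat_lit 4) .nil)))) .nil)) 
(.lf (nat_lit 90997) (.g (nat_lit 579) (.e (nat_lit 2170) (nat_lit 143) (.e (nat_lit 712755) (nat_lit 30) (.e (nat_lit 458496) (nat_lit 0) .nil))) .nil))))) (.nd (nat_lit 4) (.nd (nat_lit 5) (.nd (nat_lit 6) 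
(.lf (nat_lit 90893) (.g (nat_lit 506) (.e (nat_lit 2160) (nat_lit 143) (.e (nat_lit 712755) (nat_lit 30) (.e (nat_lit 458496) (nat_lit 0) .nil))) .nil)) 
(.lf (nat_lit 90957) (.g (nat_lit 1421) (.e (nat_lit 2162) (nat_lit 143) (.e (nat_lit 712755) (nat_lit 30) (.e (nat_lit 450569) (nat_lit 0) (.e (nat_lit 5448) (nat_lit 306) (.e (nat_lit 2725) (nat_lit 172) .nil))))) .nil))) (.nd (nat_lit 6) 
(.lf (nat_lit 90925) (.g (nat_lit 3049) (.e (nat_lit 2160) (nat_lit 143) (.e (nat_lit 712755) (nat_lit 30) (.e (nat_lit 450588) (nat_lit 10) (.e (nat_lit 573475) (nat_lit 12) (.e (nat_lit 57508) (nat_lit 39) .nil))))) .nil)) 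
(.lf (nat_lit 90989) (.g (nat_lit 1621) (.e (nat_lit 2170) (nat_lit 143) (.e (nat_lit 712752) (nat_lit 29) (.e (nat_lit 442430) (nat_lit 24) (.e (nat_lit 229681) (nat_lit 244) (.e (nat_lit 163931) (nat_lit 17) .nil))))) .nil)))) (.nd (nat_lit 5) (.nd (nat_lit 6) 
(.lf (nat_lit 90909) (.g (nat_lit 2788) (.e (nat_lit 2160) (nat_lit 143) (.e (nat_lit 712755) (nat_lit 30) (.e (nat_lit 450588) (nat_lit 10) (.e (nat_lit 573473) (nat_lit 12) (.e (nat_lit 57354) (nat_lit 0) .nil))))) .nil)) 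
(.lf (nat_lit 90973) (.g (nat_lit 1791) (.e (nat_lit 2170) (nat_lit 143) (.e (nat_lit 712752) (nat_lit 29) (.e (nat_lit 442374) (nat_lit 0) (.e (nat_lit 2059) (nat_lit 142) (.e (nat_lit 704598) (nat_lit 6) .nil))))) .nil))) (.nd (nat_lit 6) 
(.lf (nat_lit 90941) (.g (nat_lit 426) (.e (nat_lit 2160) (nat_lit 143) (.e (nat_lit 712755) (nat_lit 30) (.e (nat_lit 450597) (nat_lit 17) .nil))) .nil)) 
(.lf (nat_lit 91005) (.g (nat_lit 3387) (.e (nat_lit 2171) (nat_lit 143) (.e (nat_lit 712755) (nat_lit 30) (.e (nat_lit 450588) (nat_lit 10) (.e (nat_lit 573475) (nat_lit 12) (.e (nat_lit 57508) (nat_lit 39) .nil))))) .nil))))))) (.nd (nat_lit 2) (.nd (nat_lit 3) (.nd (nat_lit 4) (.nd (nat_lit 5) (.nd (nat_lit 6) 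
(.lf (nat_lit 90883) (.g (nat_lit 2119) (.e (nat_lit 2160) (nat_lit 143) (.e (nat_lit 712755) (nat_lit 30) (.e (nat_lit 450569) (nat_lit 0) (.e (nat_lit 5448) (nat_lit 306) (.e (nat_lit 2725) (nat_lit 172) (.e (nat_lit 237604) (nat_lit 9) (.e (nat_lit 426364) (nat_lit 15) .nil))))))) (.g (nat_lit 5) .nil .nil))) 
(.lf (nat_lit 90947) (.g (nat_lit 1856) (.e (nat_lit 2161) (nat_lit 143) (.e (nat_lit 712755) (nat_lit 30) (.e (nat_lit 450563) (nat_lit 0) (.e (nat_lit 5539) (nat_lit 306) (.e (nat_lit 7936) (nat_lit 166) .nil))))) .nil))) (.nd (nat_lit 6) 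
(.lf (nat_lit 90915) (.g (nat_lit 4827) (.e (nat_lit 2160) (nat_lit 143) (.e (nat_lit 712755) (nat_lit 30) (.e (nat_lit 450588) (nat_lit 10) (.e (nat_lit 573474) (nat_lit 12) (.e (nat_lit 57354) (nat_lit 0) (.e (nat_lit 5195) (nat_lit 294) (.e (nat_lit 57367) (nat_lit 1) (.e (nat_lit 57847) (nat_lit 252) (.e (nat_lit 57348) (nat_lit 0) .nil))))))))) (.g (nat_lit 5) .nil .nil))) 
(.lf (nat_lit 90979) (.g (nat_lit 1116) (.e (nat_lit 2170) (nat_lit 143) (.e (nat_lit 712752) (nat_lit 29) (.e (nat_lit 442382) (nat_lit 8) (.e (nat_lit 155652) (nat_lit 0) (.e (nat_lit 3003) (nat_lit 186) (.e (nat_lit 442373) (nat_lit 0) .nil)))))) (.g (nat_lit 6) .nil .nil))))) (.nd (nat_lit 5) (.nd (nat_lit 6) 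
(.lf (nat_lit 90899) (.g (nat_lit 1573) (.e (nat_lit 2160) (nat_lit 143) (.e (nat_lit 712755) (nat_lit 30) (.e (nat_lit 450588) (nat_lit 10) (.e (nat_lit 581376) (nat_lit 4) .nil)))) .nil)) 
(.lf (nat_lit 90963) (.g (nat_lit 878) (.e (nat_lit 2167) (nat_lit 143) (.e (nat_lit 712752) (nat_lit 29) (.e (nat_lit 442382) (nat_lit 8) (.e (nat_lit 155652) (nat_lit 0) (.e (nat_lit 2985) (nat_lit 186) .nil))))) .nil))) (.nd (nat_lit 6) 
(.lf (nat_lit 90931) (.g (nat_lit 1899) (.e (nat_lit 2160) (nat_lit 143) (.e (nat_lit 712755) (nat_lit 30) (.e (nat_lit 450593) (nat_lit 16) (.e (nat_lit 655364) (nat_lit 0) (.e (nat_lit 3005) (nat_lit 186) .nil))))) .nil)) 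
(.lf (nat_lit 90995) (.g (nat_lit 1702) (.e (nat_lit 2170) (nat_lit 143) (.e (nat_lit 712755) (nat_lit 30) (.e (nat_lit 450569) (nat_lit 0) (.e (nat_lit 5599) (nat_lit 310) (.e (nat_lit 163931) (nat_lit 17) (.e (nat_lit 466945) (nat_lit 0) .nil)))))) (.g (nat_lit 4) .nil .nil)))))) (.nd (nat_lit 4) (.nd (nat_lit 5) (.nd (nat_lit 6) 
(.lf (nat_lit 90891) (.g (nat_lit 1639) (.e (nat_lit 2160) (nat_lit 143) (.e (nat_lit 712755) (nat_lit 30) (.e (nat_lit 450569) (nat_lit 0) (.e (nat_lit 5599) (nat_lit 310) (.e (nat_lit 163932) (nat_lit 17) .nil))))) .nil)) 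
(.lf (nat_lit 90955) (.g (nat_lit 1490) (.e (nat_lit 2162) (nat_lit 143) (.e (nat_lit 712755) (nat_lit 30) (.e (nat_lit 450563) (nat_lit 0) (.e (nat_lit 5537) (nat_lit 306) .nil)))) .nil))) (.nd (nat_lit 6) 
(.lf (nat_lit 90923) (.g (nat_lit 3560) (.e (nat_lit 2160) (nat_lit 143) (.e (nat_lit 712755) (nat_lit 30) (.e (nat_lit 450588) (nat_lit 10) (.e (nat_lit 573475) (nat_lit 12) (.e (nat_lit 57506) (nat_lit 39) (.e (nat_lit 647201) (nat_lit 12) (.e (nat_lit 57351) (nat_lit 0) (.e (nat_lit 7265) (nat_lit 384) (.e (nat_lit 57347) (nat_lit 0) .nil))))))))) (.g (nat_lit 4) .nil .nil))) 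
(.lf (nat_lit 90987) (.g (nat_lit 473) (.e (nat_lit 2170) (nat_lit 143) (.e (nat_lit 712752) (nat_lit 29) (.e (nat_lit 442430) (nat_lit 24) .nil))) .nil)))) (.nd (nat_lit 5) (.nd (nat_lit 6) 
(.lf (nat_lit 90907) (.g (nat_lit 1829) (.e (nat_lit 2160) (nat_lit 143) (.e (nat_lit 712755) (nat_lit 30) (.e (nat_lit 450588) (nat_lit 10) (.e (nat_lit 573468) (nat_lit 10) .nil)))) .nil)) 
(.lf (nat_lit 90971) (.g (nat_lit 439) (.e (nat_lit 2168) (nat_lit 143) (.e (nat_lit 712753) (nat_lit 30) (.e (nat_lit 450561) (nat_lit 0) .nil))) .nil))) (.nd (nat_lit 6) 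
(.lf (nat_lit 90939) (.g (nat_lit 2027) (.e (nat_lit 2160) (nat_lit 143) (.e (nat_lit 712755) (nat_lit 30) (.e (nat_lit 450593) (nat_lit 16) (.e (nat_lit 655380) (nat_lit 6) (.e (nat_lit 188420) (nat_lit 0) .nil))))) (.g (nat_lit 4) .nil .nil))) 
(.lf (nat_lit 91003) (.g (nat_lit 2879) (.e (nat_lit 2171) (nat_lit 143) (.e (nat_lit 712755) (nat_lit 30) (.e (nat_lit 450588) (nat_lit 10) (.e (nat_lit 573473) (nat_lit 12) (.e (nat_lit 57508) (nat_lit 39) .nil))))) .nil)))))) (.nd (nat_lit 3) (.nd (nat_lit 4) (.nd (nat_lit 5) (.nd (nat_lit 6) 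
(.lf (nat_lit 90887) (.g (nat_lit 1266) (.e (nat_lit 2160) (nat_lit 143) (.e (nat_lit 712755) (nat_lit 30) (.e (nat_lit 450569) (nat_lit 0) (.e (nat_lit 5599) (nat_lit 310) .nil)))) .nil)) 
(.lf (nat_lit 90951) (.g (nat_lit 765) (.e (nat_lit 2162) (nat_lit 143) (.e (nat_lit 712752) (nat_lit 29) (.e (nat_lit 442382) (nat_lit 8) (.e (nat_lit 155652) (nat_lit 0) .nil)))) .nil))) (.nd (nat_lit 6) 
(.lf (nat_lit 90919) (.g (nat_lit 3297) (.e (nat_lit 2160) (nat_lit 143) (.e (nat_lit 712755) (nat_lit 30) (.e (nat_lit 450588) (nat_lit 10) (.e (nat_lit 573475) (nat_lit 12) (.e (nat_lit 57354) (nat_lit 0) (.e (nat_lit 5194) (nat_lit 294) (.e (nat_lit 57367) (nat_lit 1) (.e (nat_lit 57847) (nat_lit 252) (.e (nat_lit 57348) (nat_lit 0) .nil))))))))) (.g (nat_lit 4) .nil .nil))) 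
(.lf (nat_lit 90983) (.g (nat_lit 1925) (.e (nat_lit 2170) (nat_lit 143) (.e (nat_lit 712752) (nat_lit 29) (.e (nat_lit 442421) (nat_lit 21) (.e (nat_lit 164346) (nat_lit 240) (.e (nat_lit 2648) (nat_lit 166) (.e (nat_lit 196352) (nat_lit 0) .nil)))))) (.g (nat_lit 4) .nil .nil))))) (.nd (nat_lit 5) (.nd (nat_lit 6) 
(.lf (nat_lit 90903) (.g (nat_lit 1493) (.e (nat_lit 2160) (nat_lit 143) (.e (nat_lit 712755) (nat_lit 30) (.e (nat_lit 450588) (nat_lit 10) (.e (nat_lit 573452) (nat_lit 9) .nil)))) .nil)) 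
(.lf (nat_lit 90967) (.g (nat_lit 1484) (.e (nat_lit 2167) (nat_lit 143) (.e (nat_lit 712755) (nat_lit 30) (.e (nat_lit 450563) (nat_lit 0) (.e (nat_lit 5537) (nat_lit 306) .nil)))) .nil))) (.nd (nat_lit 6) 
(.lf (nat_lit 90935) (.g (nat_lit 3174) (.e (nat_lit 2160) (nat_lit 143) (.e (nat_lit 712755) (nat_lit 30) (.e (nat_lit 450593) (nat_lit 16) (.e (nat_lit 655378) (nat_lit 4) (.e (nat_lit 172087) (nat_lit 9) (.e (nat_lit 426364) (nat_lit 15) .nil)))))) (.g (nat_lit 0) .nil .nil))) 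
(.lf (nat_lit 90999) (.g (nat_lit 4152) (.e (nat_lit 2171) (nat_lit 143) (.e (nat_lit 712749) (nat_lit 28) (.e (nat_lit 434289) (nat_lit 43) (.e (nat_lit 696344) (nat_lit 8) (.e (nat_lit 172067) (nat_lit 3) (.e (nat_lit 204838) (nat_lit 20) (.e (nat_lit 114702) (nat_lit 20) .nil))))))) (.g (nat_lit 0) .nil .nil)))))) (.nd (nat_lit 4) (.nd (nat_lit 5) (.nd (nat_lit 6) 
(.lf (nat_lit 90895) (.g (nat_lit 2431) (.e (nat_lit 2160) (nat_lit 143) (.e (nat_lit 712755) (nat_lit 30) (.e (nat_lit 450587) (nat_lit 10) (.e (nat_lit 573475) (nat_lit 12) .nil)))) .nil)) 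
(.lf (nat_lit 90959) (.g (nat_lit 1528) (.e (nat_lit 2164) (nat_lit 143) (.e (nat_lit 712755) (nat_lit 30) (.e (nat_lit 450563) (nat_lit 0) (.e (nat_lit 5539) (nat_lit 306) .nil)))) .nil))) (.nd (nat_lit 6) 
(.lf (nat_lit 90927) (.g (nat_lit 506) (.e (nat_lit 2160) (nat_lit 143) (.e (nat_lit 712755) (nat_lit 30) (.e (nat_lit 458496) (nat_lit 15) .nil))) .nil)) 
(.lf (nat_lit 90991) (.g (nat_lit 1472) (.e (nat_lit 2170) (nat_lit 143) (.e (nat_lit 712755) (nat_lit 30) (.e (nat_lit 450563) (nat_lit 0) (.e (nat_lit 5539) (nat_lit 306) .nil)))) .nil)))) (.nd (nat_lit 5) (.nd (nat_lit 6) 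
(.lf (nat_lit 90911) (.g (nat_lit 3519) (.e (nat_lit 2160) (nat_lit 143) (.e (nat_lit 712755) (nat_lit 30) (.e (nat_lit 450588) (nat_lit 10) (.e (nat_lit 573473) (nat_lit 12) (.e (nat_lit 57507) (nat_lit 39) (.e (nat_lit 647201) (nat_lit 12) (.e (nat_lit 57351) (nat_lit 0) (.e (nat_lit 7265) (nat_lit 384) (.e (nat_lit 57347) (nat_lit 0) .nil))))))))) (.g (nat_lit 6) .nil .nil))) 
(.lf (nat_lit 90975) (.g (nat_lit 551) (.e (nat_lit 2170) (nat_lit 143) (.e (nat_lit 712752) (nat_lit 29) (.e (nat_lit 442377) (nat_lit 0) .nil))) .nil))) (.nd (nat_lit 6) 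
(.lf (nat_lit 90943) (.g (nat_lit 1309) (.e (nat_lit 2161) (nat_lit 143) (.e (nat_lit 712755) (nat_lit 30) (.e (nat_lit 450562) (nat_lit 0) (.e (nat_lit 5539) (nat_lit 306) .nil)))) .nil)) 
(.lf (nat_lit 91007) (.g (nat_lit 1947) (.e (nat_lit 2172) (nat_lit 143) (.e (nat_lit 712752) (nat_lit 29) (.e (nat_lit 442374) (nat_lit 0) (.e (nat_lit 2059) (nat_lit 142) (.e (nat_lit 704599) (nat_lit 6) .nil))))) .nil)))))))))

noncomputable def tv1244 : DT := (.nd (nat_lit 0) (.nd (nat_lit 1) (.nd (nat_lit 2) (.nd (nat_lit 3) (.nd (nat_lit 4) (.nd (nat_lit 5) 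
(.lf (nat_lit 91008) (.g (nat_lit 790) (.e (nat_lit 2172) (nat_lit 143) (.e (nat_lit 712752) (nat_lit 29) (.e (nat_lit 442377) (nat_lit 0) (.e (nat_lit 2059) (nat_lit 142) .nil)))) .nil)) 
(.lf (nat_lit 91040) (.g (nat_lit 1706) (.e (nat_lit 2173) (nat_lit 143) (.e (nat_lit 712729) (nat_lit 18) (.e (nat_lit 204863) (nat_lit 27) (.e (nat_lit 344129) (nat_lit 26) (.e (nat_lit 557097) (nat_lit 13) .nil))))) .nil))) (.nd (nat_lit 5) 
(.lf (nat_lit 91024) (.g (nat_lit 2083) (.e (nat_lit 2172) (nat_lit 143) (.e (nat_lit 712753) (nat_lit 30) (.e (nat_lit 450569) (nat_lit 0) (.e (nat_lit 5599) (nat_lit 310) (.e (nat_lit 163931) (nat_lit 17) (.e (nat_lit 466947) (nat_lit 0) .nil)))))) (.g (nat_lit 6) .nil .nil))) 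
(.lf (nat_lit 91056) (.g (nat_lit 2961) (.e (nat_lit 2173) (nat_lit 143) (.e (nat_lit 712752) (nat_lit 29) (.e (nat_lit 442430) (nat_lit 24) (.e (nat_lit 229681) (nat_lit 244) (.e (nat_lit 163932) (nat_lit 17) (.e (nat_lit 466947) (nat_lit 0) .nil)))))) (.g (nat_lit 0) .nil .nil))))) (.nd (nat_lit 4) (.nd (nat_lit 5) 
(.lf (nat_lit 91016) (.g (nat_lit 1782) (.e (nat_lit 2172) (nat_lit 143) (.e (nat_lit 712752) (nat_lit 29) (.e (nat_lit 442430) (nat_lit 24) (.e (nat_lit 229666) (nat_lit 240) (.e (nat_lit 2651) (nat_lit 166) .nil))))) .nil)) 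
(.lf (nat_lit 91048) (.g (nat_lit 2779) (.e (nat_lit 2173) (nat_lit 143) (.e (nat_lit 712752) (nat_lit 29) (.e (nat_lit 442428) (nat_lit 24) (.e (nat_lit 229681) (nat_lit 244) (.e (nat_lit 163932) (nat_lit 17) (.e (nat_lit 466947) (nat_lit 0) .nil)))))) (.g (nat_lit 0) .nil .nil)))) (.nd (nat_lit 5) 
(.lf (nat_lit 91032) (.g (nat_lit 1036) (.e (nat_lit 2172) (nat_lit 143) (.e (nat_lit 712755) (nat_lit 30) (.e (nat_lit 450569) (nat_lit 0) (.e (nat_lit 5448) (nat_lit 306) .nil)))) .nil)) 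
(.lf (nat_lit 91064) (.g (nat_lit 2037) (.e (nat_lit 2173) (nat_lit 143) (.e (nat_lit 712755) (nat_lit 30) (.e (nat_lit 450569) (nat_lit 0) (.e (nat_lit 5598) (nat_lit 310) (.e (nat_lit 163932) (nat_lit 17) (.e (nat_lit 466947) (nat_lit 0) .nil)))))) (.g (nat_lit 5) .nil .nil)))))) (.nd (nat_lit 3) (.nd (nat_lit 4) (.nd (nat_lit 5) 
(.lf (nat_lit 91012) (.g (nat_lit 2783) (.e (nat_lit 2172) (nat_lit 143) (.e (nat_lit 712752) (nat_lit 29) (.e (nat_lit 442421) (nat_lit 21) (.e (nat_lit 164348) (nat_lit 240) (.e (nat_lit 2648) (nat_lit 166) .nil))))) .nil)) 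
(.lf (nat_lit 91044) (.g (nat_lit 2367) (.e (nat_lit 2173) (nat_lit 143) (.e (nat_lit 712752) (nat_lit 29) (.e (nat_lit 442421) (nat_lit 21) (.e (nat_lit 164347) (nat_lit 240) (.e (nat_lit 2648) (nat_lit 166) (.e (nat_lit 188420) (nat_lit 0) .nil)))))) (.g (nat_lit 5) .nil .nil)))) (.nd (nat_lit 5) 
(.lf (nat_lit 91028) (.g (nat_lit 660) (.e (nat_lit 2172) (nat_lit 143) (.e (nat_lit 712755) (nat_lit 30) (.e (nat_lit 450566) (nat_lit 0) .nil))) .nil)) 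
(.lf (nat_lit 91060) (.g (nat_lit 2387) (.e (nat_lit 2173) (nat_lit 143) (.e (nat_lit 712753) (nat_lit 30) (.e (nat_lit 450569) (nat_lit 0) (.e (nat_lit 5599) (nat_lit 310) (.e (nat_lit 163932) (nat_lit 17) (.e (nat_lit 466947) (nat_lit 0) .nil)))))) (.g (nat_lit 0) .nil .nil))))) (.nd (nat_lit 4) (.nd (nat_lit 5) 
(.lf (nat_lit 91020) (.g (nat_lit 342) (.e (nat_lit 2172) (nat_lit 143) (.e (nat_lit 712753) (nat_lit 30) (.e (nat_lit 450568) (nat_lit 0) .nil))) .nil)) 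
(.lf (nat_lit 91052) (.g (nat_lit 1253) (.e (nat_lit 2173) (nat_lit 143) (.e (nat_lit 712752) (nat_lit 29) (.e (nat_lit 442430) (nat_lit 24) (.e (nat_lit 229679) (nat_lit 244) .nil)))) .nil))) (.nd (nat_lit 5) 
(.lf (nat_lit 91036) (.g (nat_lit 2073) (.e (nat_lit 2172) (nat_lit 143) (.e (nat_lit 712755) (nat_lit 30) (.e (nat_lit 450588) (nat_lit 10) (.e (nat_lit 573468) (nat_lit 10) .nil)))) .nil)) 
(.lf (nat_lit 91068) (.g (nat_lit 783) (.e (nat_lit 2173) (nat_lit 143) (.e (nat_lit 712755) (nat_lit 30) (.e (nat_lit 450593) (nat_lit 16) (.e (nat_lit 655364) (nat_lit 0) .nil)))) .nil)))))) (.nd (nat_lit 2) (.nd (nat_lit 3) (.nd (nat_lit 4) (.nd (nat_lit 5) 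
(.lf (nat_lit 91010) (.g (nat_lit 501) (.e (nat_lit 2172) (nat_lit 143) (.e (nat_lit 712752) (nat_lit 29) (.e (nat_lit 442421) (nat_lit 21) .nil))) .nil)) 
(.lf (nat_lit 91042) (.g (nat_lit 1855) (.e (nat_lit 2173) (nat_lit 143) (.e (nat_lit 712752) (nat_lit 29) (.e (nat_lit 442374) (nat_lit 0) (.e (nat_lit 2059) (nat_lit 142) (.e (nat_lit 704599) (nat_lit 6) .nil))))) .nil))) (.nd (nat_lit 5) 
(.lf (nat_lit 91026) (.g (nat_lit 1223) (.e (nat_lit 2172) (nat_lit 143) (.e (nat_lit 712755) (nat_lit 30) (.e (nat_lit 450562) (nat_lit 0) (.e (nat_lit 5539) (nat_lit 306) .nil)))) .nil)) 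
(.lf (nat_lit 91058) (.g (nat_lit 2333) (.e (nat_lit 2173) (nat_lit 143) (.e (nat_lit 712753) (nat_lit 30) (.e (nat_lit 450568) (nat_lit 0) (.e (nat_lit 5599) (nat_lit 310) (.e (nat_lit 163932) (nat_lit 17) (.e (nat_lit 466947) (nat_lit 0) .nil)))))) (.g (nat_lit 0) .nil .nil))))) (.nd (nat_lit 4) (.nd (nat_lit 5) 
(.lf (nat_lit 91018) (.g (nat_lit 1638) (.e (nat_lit 2172) (nat_lit 143) (.e (nat_lit 712752) (nat_lit 29) (.e (nat_lit 442430) (nat_lit 24) (.e (nat_lit 229677) (nat_lit 244) .nil)))) .nil)) 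
(.lf (nat_lit 91050) (.g (nat_lit 1313) (.e (nat_lit 2173) (nat_lit 143) (.e (nat_lit 712752) (nat_lit 29) (.e (nat_lit 442430) (nat_lit 24) (.e (nat_lit 229677) (nat_lit 244) .nil)))) .nil))) (.nd (nat_lit 5) 
(.lf (nat_lit 91034) (.g (nat_lit 1420) (.e (nat_lit 2172) (nat_lit 143) (.e (nat_lit 712755) (nat_lit 30) (.e (nat_lit 450569) (nat_lit 0) (.e (nat_lit 5598) (nat_lit 310) (.e (nat_lit 163932) (nat_lit 17) .nil))))) .nil)) 
(.lf (nat_lit 91066) (.g (nat_lit 3019) (.e (nat_lit 2173) (nat_lit 143) (.e (nat_lit 712755) (nat_lit 30) (.e (nat_lit 450569) (nat_lit 0) (.e (nat_lit 5599) (nat_lit 310) (.e (nat_lit 163932) (nat_lit 17) (.e (nat_lit 466947) (nat_lit 0) .nil)))))) (.g (nat_lit 0) .nil .nil)))))) (.nd (nat_lit 3) (.nd (nat_lit 4) (.nd (nat_lit 5) 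
(.lf (nat_lit 91014) (.g (nat_lit 1612) (.e (nat_lit 2172) (nat_lit 143) (.e (nat_lit 712752) (nat_lit 29) (.e (nat_lit 442428) (nat_lit 24) (.e (nat_lit 229681) (nat_lit 244) (.e (nat_lit 163932) (nat_lit 17) .nil))))) .nil)) 
(.lf (nat_lit 91046) (.g (nat_lit 2652) (.e (nat_lit 2173) (nat_lit 143) (.e (nat_lit 712752) (nat_lit 29) (.e (nat_lit 442428) (nat_lit 24) (.e (nat_lit 229680) (nat_lit 244) (.e (nat_lit 163932) (nat_lit 17) (.e (nat_lit 466947) (nat_lit 0) .nil)))))) (.g (nat_lit 6) .nil .nil)))) (.nd (nat_lit 5) 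
(.lf (nat_lit 91030) (.g (nat_lit 2385) (.e (nat_lit 2172) (nat_lit 143) (.e (nat_lit 712755) (nat_lit 30) (.e (nat_lit 450568) (nat_lit 0) (.e (nat_lit 5599) (nat_lit 310) (.e (nat_lit 163931) (nat_lit 17) (.e (nat_lit 466947) (nat_lit 0) .nil)))))) (.g (nat_lit 6) .nil .nil))) 
(.lf (nat_lit 91062) (.g (nat_lit 2861) (.e (nat_lit 2173) (nat_lit 143) (.e (nat_lit 712755) (nat_lit 30) (.e (nat_lit 450568) (nat_lit 0) (.e (nat_lit 5599) (nat_lit 310) (.e (nat_lit 163932) (nat_lit 17) (.e (nat_lit 466947) (nat_lit 0) .nil)))))) (.g (nat_lit 0) .nil .nil))))) (.nd (nat_lit 4) (.nd (nat_lit 5) 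
(.lf (nat_lit 91022) (.g (nat_lit 2071) (.e (nat_lit 2172) (nat_lit 143) (.e (nat_lit 712753) (nat_lit 30) (.e (nat_lit 450568) (nat_lit 0) (.e (nat_lit 5599) (nat_lit 310) (.e (nat_lit 163932) (nat_lit 17) (.e (nat_lit 466947) (nat_lit 0) .nil)))))) (.g (nat_lit 6) .nil .nil))) 
(.lf (nat_lit 91054) (.g (nat_lit 3327) (.e (nat_lit 2173) (nat_lit 143) (.e (nat_lit 712752) (nat_lit 29) (.e (nat_lit 442430) (nat_lit 24) (.e (nat_lit 229680) (nat_lit 244) (.e (nat_lit 163932) (nat_lit 17) (.e (nat_lit 466947) (nat_lit 0) .nil)))))) (.g (nat_lit 0) .nil .nil)))) (.nd (nat_lit 5) 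
(.lf (nat_lit 91038) (.g (nat_lit 1591) (.e (nat_lit 2172) (nat_lit 143) (.e (nat_lit 712755) (nat_lit 30) (.e (nat_lit 450593) (nat_lit 16) (.e (nat_lit 655360) (nat_lit 0) .nil)))) .nil)) 
(.lf (nat_lit 91070) (.g (nat_lit 2114) (.e (nat_lit 2174) (nat_lit 143) (.e (nat_lit 712722) (nat_lit 15) (.e (nat_lit 3302) (nat_lit 202) (.e (nat_lit 573484) (nat_lit 13) (.e (nat_lit 65610) (nat_lit 10) .nil))))) .nil))))))) (.nd (nat_lit 1) (.nd (nat_lit 2) (.nd (nat_lit 3) (.nd (nat_lit 4) (.nd (nat_lit 5) 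
(.lf (nat_lit 91009) (.g (nat_lit 582) (.e (nat_lit 2172) (nat_lit 143) (.e (nat_lit 712752) (nat_lit 29) (.e (nat_lit 442382) (nat_lit 8) .nil))) .nil)) 
(.lf (nat_lit 91041) (.g (nat_lit 2775) (.e (nat_lit 2173) (nat_lit 143) (.e (nat_lit 712750) (nat_lit 29) (.e (nat_lit 442430) (nat_lit 24) (.e (nat_lit 229680) (nat_lit 244) (.e (nat_lit 163931) (nat_lit 17) (.e (nat_lit 466947) (nat_lit 0) .nil)))))) (.g (nat_lit 6) .nil .nil)))) (.nd (nat_lit 5) 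
(.lf (nat_lit 91025) (.g (nat_lit 2040) (.e (nat_lit 2172) (nat_lit 143) (.e (nat_lit 712753) (nat_lit 30) (.e (nat_lit 450569) (nat_lit 0) (.e (nat_lit 5599) (nat_lit 310) (.e (nat_lit 163932) (nat_lit 17) (.e (nat_lit 466947) (nat_lit 0) .nil)))))) (.g (nat_lit 6) .nil .nil))) 
(.lf (nat_lit 91057) (.g (nat_lit 2372) (.e (nat_lit 2173) (nat_lit 143) (.e (nat_lit 712753) (nat_lit 30) (.e (nat_lit 450568) (nat_lit 0) (.e (nat_lit 5599) (nat_lit 310) (.e (nat_lit 163931) (nat_lit 17) (.e (nat_lit 466947) (nat_lit 0) .nil)))))) (.g (nat_lit 0) .nil .nil))))) (.nd (nat_lit 4) (.nd (nat_lit 5) 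
(.lf (nat_lit 91017) (.g (nat_lit 1716) (.e (nat_lit 2172) (nat_lit 143) (.e (nat_lit 712752) (nat_lit 29) (.e (nat_lit 442430) (nat_lit 24) (.e (nat_lit 229666) (nat_lit 240) (.e (nat_lit 2653) (nat_lit 166) .nil))))) .nil)) 
(.lf (nat_lit 91049) (.g (nat_lit 618) (.e (nat_lit 2173) (nat_lit 143) (.e (nat_lit 712752) (nat_lit 29) (.e (nat_lit 442429) (nat_lit 24) .nil))) .nil))) (.nd (nat_lit 5) 
(.lf (nat_lit 91033) (.g (nat_lit 1143) (.e (nat_lit 2172) (nat_lit 143) (.e (nat_lit 712755) (nat_lit 30) (.e (nat_lit 450569) (nat_lit 0) (.e (nat_lit 5598) (nat_lit 310) .nil)))) .nil)) 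
(.lf (nat_lit 91065) (.g (nat_lit 3064) (.e (nat_lit 2173) (nat_lit 143) (.e (nat_lit 712755) (nat_lit 30) (.e (nat_lit 450569) (nat_lit 0) (.e (nat_lit 5599) (nat_lit 310) (.e (nat_lit 163931) (nat_lit 17) (.e (nat_lit 466947) (nat_lit 0) .nil)))))) (.g (nat_lit 0) .nil .nil)))))) (.nd (nat_lit 3) (.nd (nat_lit 4) (.nd (nat_lit 5) 
(.lf (nat_lit 91013) (.g (nat_lit 1628) (.e (nat_lit 2172) (nat_lit 143) (.e (nat_lit 712752) (nat_lit 29) (.e (nat_lit 442428) (nat_lit 24) (.e (nat_lit 229681) (nat_lit 244) (.e (nat_lit 163931) (nat_lit 17) .nil))))) .nil)) 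
(.lf (nat_lit 91045) (.g (nat_lit 2702) (.e (nat_lit 2173) (nat_lit 143) (.e (nat_lit 712752) (nat_lit 29) (.e (nat_lit 442428) (nat_lit 24) (.e (nat_lit 229680) (nat_lit 244) (.e (nat_lit 163931) (nat_lit 17) (.e (nat_lit 466947) (nat_lit 0) .nil)))))) (.g (nat_lit 6) .nil .nil)))) (.nd (nat_lit 5) 
(.lf (nat_lit 91029) (.g (nat_lit 469) (.e (nat_lit 2172) (nat_lit 143) (.e (nat_lit 712755) (nat_lit 30) (.e (nat_lit 450568) (nat_lit 0) .nil))) .nil)) 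
(.lf (nat_lit 91061) (.g (nat_lit 2895) (.e (nat_lit 2173) (nat_lit 143) (.e (nat_lit 712755) (nat_lit 30) (.e (nat_lit 450568) (nat_lit 0) (.e (nat_lit 5599) (nat_lit 310) (.e (nat_lit 163931) (nat_lit 17) (.e (nat_lit 466947) (nat_lit 0) .nil)))))) (.g (nat_lit 0) .nil .nil))))) (.nd (nat_lit 4) (.nd (nat_lit 5) 
(.lf (nat_lit 91021) (.g (nat_lit 2118) (.e (nat_lit 2172) (nat_lit 143) (.e (nat_lit 712753) (nat_lit 30) (.e (nat_lit 450568) (nat_lit 0) (.e (nat_lit 5599) (nat_lit 310) (.e (nat_lit 163931) (nat_lit 17) (.e (nat_lit 466947) (nat_lit 0) .nil)))))) (.g (nat_lit 6) .nil .nil))) 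
(.lf (nat_lit 91053) (.g (nat_lit 3298) (.e (nat_lit 2173) (nat_lit 143) (.e (nat_lit 712752) (nat_lit 29) (.e (nat_lit 442430) (nat_lit 24) (.e (nat_lit 229680) (nat_lit 244) (.e (nat_lit 163931) (nat_lit 17) (.e (nat_lit 466947) (nat_lit 0) .nil)))))) (.g (nat_lit 0) .nil .nil)))) (.nd (nat_lit 5) 
(.lf (nat_lit 91037) (.g (nat_lit 520) (.e (nat_lit 2172) (nat_lit 143) (.e (nat_lit 712755) (nat_lit 30) (.e (nat_lit 450593) (nat_lit 16) .nil))) .nil)) 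
(.lf (nat_lit 91069) (.g (nat_lit 594) (.e (nat_lit 2173) (nat_lit 143) (.e (nat_lit 712755) (nat_lit 30) (.e (nat_lit 450596) (nat_lit 17) .nil))) .nil)))))) (.nd (nat_lit 2) (.nd (nat_lit 3) (.nd (nat_lit 4) (.nd (nat_lit 5) 
(.lf (nat_lit 91011) (.g (nat_lit 2448) (.e (nat_lit 2172) (nat_lit 143) (.e (nat_lit 712752) (nat_lit 29) (.e (nat_lit 442421) (nat_lit 21) (.e (nat_lit 164346) (nat_lit 240) (.e (nat_lit 2648) (nat_lit 166) (.e (nat_lit 188420) (nat_lit 0) .nil)))))) (.g (nat_lit 5) .nil .nil))) 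
(.lf (nat_lit 91043) (.g (nat_lit 1049) (.e (nat_lit 2173) (nat_lit 143) (.e (nat_lit 712752) (nat_lit 29) (.e (nat_lit 442374) (nat_lit 0) (.e (nat_lit 2175) (nat_lit 143) .nil)))) .nil))) (.nd (nat_lit 5) 
(.lf (nat_lit 91027) (.g (nat_lit 1353) (.e (nat_lit 2172) (nat_lit 143) (.e (nat_lit 712755) (nat_lit 30) (.e (nat_lit 450564) (nat_lit 0) (.e (nat_lit 5546) (nat_lit 306) .nil)))) .nil)) 
(.lf (nat_lit 91059) (.g (nat_lit 2422) (.e (nat_lit 2173) (nat_lit 143) (.e (nat_lit 712753) (nat_lit 30) (.e (nat_lit 450569) (nat_lit 0) (.e (nat_lit 5599) (nat_lit 310) (.e (nat_lit 163931) (nat_lit 17) (.e (nat_lit 466947) (nat_lit 0) .nil)))))) (.g (nat_lit 0) .nil .nil))))) (.nd (nat_lit 4) (.nd (nat_lit 5) 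
(.lf (nat_lit 91019) (.g (nat_lit 2673) (.e (nat_lit 2172) (nat_lit 143) (.e (nat_lit 712752) (nat_lit 29) (.e (nat_lit 442430) (nat_lit 24) (.e (nat_lit 229680) (nat_lit 244) (.e (nat_lit 163931) (nat_lit 17) (.e (nat_lit 466947) (nat_lit 0) .nil)))))) (.g (nat_lit 5) .nil .nil))) 
(.lf (nat_lit 91051) (.g (nat_lit 1924) (.e (nat_lit 2173) (nat_lit 143) (.e (nat_lit 712752) (nat_lit 29) (.e (nat_lit 442430) (nat_lit 24) (.e (nat_lit 229677) (nat_lit 244) (.e (nat_lit 163931) (nat_lit 17) (.e (nat_lit 466947) (nat_lit 0) .nil)))))) (.g (nat_lit 4) .nil .nil)))) (.nd (nat_lit 5) 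
(.lf (nat_lit 91035) (.g (nat_lit 2463) (.e (nat_lit 2172) (nat_lit 143) (.e (nat_lit 712755) (nat_lit 30) (.e (nat_lit 450588) (nat_lit 10) (.e (nat_lit 573453) (nat_lit 9) .nil)))) .nil)) 
(.lf (nat_lit 91067) (.g (nat_lit 601) (.e (nat_lit 2173) (nat_lit 143) (.e (nat_lit 712755) (nat_lit 30) (.e (nat_lit 450588) (nat_lit 10) .nil))) .nil))))) (.nd (nat_lit 3) (.nd (nat_lit 4) (.nd (nat_lit 5) 
(.lf (nat_lit 91015) (.g (nat_lit 2484) (.e (nat_lit 2172) (nat_lit 143) (.e (nat_lit 712752) (nat_lit 29) (.e (nat_lit 442430) (nat_lit 24) (.e (nat_lit 229663) (nat_lit 240) (.e (nat_lit 2653) (nat_lit 166) .nil))))) .nil)) 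
(.lf (nat_lit 91047) (.g (nat_lit 2839) (.e (nat_lit 2173) (nat_lit 143) (.e (nat_lit 712752) (nat_lit 29) (.e (nat_lit 442428) (nat_lit 24) (.e (nat_lit 229681) (nat_lit 244) (.e (nat_lit 163931) (nat_lit 17) (.e (nat_lit 466947) (nat_lit 0) .nil)))))) (.g (nat_lit 0) .nil .nil)))) (.nd (nat_lit 5) 
(.lf (nat_lit 91031) (.g (nat_lit 2348) (.e (nat_lit 2172) (nat_lit 143) (.e (nat_lit 712755) (nat_lit 30) (.e (nat_lit 450568) (nat_lit 0) (.e (nat_lit 5599) (nat_lit 310) (.e (nat_lit 163932) (nat_lit 17) (.e (nat_lit 466947) (nat_lit 0) .nil)))))) (.g (nat_lit 6) .nil .nil))) 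
(.lf (nat_lit 91063) (.g (nat_lit 1601) (.e (nat_lit 2173) (nat_lit 143) (.e (nat_lit 712755) (nat_lit 30) (.e (nat_lit 450569) (nat_lit 0) (.e (nat_lit 5598) (nat_lit 310) (.e (nat_lit 163931) (nat_lit 17) (.e (nat_lit 466947) (nat_lit 0) .nil)))))) (.g (nat_lit 4) .nil .nil))))) (.nd (nat_lit 4) (.nd (nat_lit 5) 
(.lf (nat_lit 91023) (.g (nat_lit 306) (.e (nat_lit 2172) (nat_lit 143) (.e (nat_lit 712753) (nat_lit 30) (.e (nat_lit 450569) (nat_lit 0) .nil))) .nil)) 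
(.lf (nat_lit 91055) (.g (nat_lit 2943) (.e (nat_lit 2173) (nat_lit 143) (.e (nat_lit 712752) (nat_lit 29) (.e (nat_lit 442430) (nat_lit 24) (.e (nat_lit 229681) (nat_lit 244) (.e (nat_lit 163931) (nat_lit 17) (.e (nat_lit 466947) (nat_lit 0) .nil)))))) (.g (nat_lit 0) .nil .nil)))) (.nd (nat_lit 5) 
(.lf (nat_lit 91039) (.g (nat_lit 1430) (.e (nat_lit 2172) (nat_lit 143) (.e (nat_lit 712755) (nat_lit 30) (.e (nat_lit 450593) (nat_lit 16) (.e (nat_lit 655380) (nat_lit 6) .nil)))) .nil)) 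
(.lf (nat_lit 91071) (.g (nat_lit 3115) (.e (nat_lit 2174) (nat_lit 143) (.e (nat_lit 712728) (nat_lit 18) (.e (nat_lit 204863) (nat_lit 27) (.e (nat_lit 344133) (nat_lit 26) (.e (nat_lit 557098) (nat_lit 13) (.e (nat_lit 179968) (nat_lit 18) (.e (nat_lit 98307) (nat_lit 0) .nil))))))) (.g (nat_lit 5) .nil .nil)))))))))

noncomputable def tv1245 : DT := (.nd (nat_lit 0) (.nd (nat_lit 1) (.nd (nat_lit 2) (.nd (nat_lit 3) (.nd (nat_lit 4) (.nd (nat_lit 5) 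
(.lf (nat_lit 91072) (.g (nat_lit 97) (.e (nat_lit 2174) (nat_lit 143) (.e (nat_lit 712745) (nat_lit 27) (.e (nat_lit 425984) (nat_lit 0) .nil))) .nil)) 
(.lf (nat_lit 91104) (.g (nat_lit 3035) (.e (nat_lit 2175) (nat_lit 143) (.e (nat_lit 712728) (nat_lit 18) (.e (nat_lit 204863) (nat_lit 27) (.e (nat_lit 344133) (nat_lit 26) (.e (nat_lit 557098) (nat_lit 13) (.e (nat_lit 179968) (nat_lit 18) (.e (nat_lit 98307) (nat_lit 0) .nil))))))) (.g (nat_lit 5) .nil .nil)))) (.nd (nat_lit 5) 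
(.lf (nat_lit 91088) (.g (nat_lit 2835) (.e (nat_lit 2174) (nat_lit 143) (.e (nat_lit 712745) (nat_lit 27) (.e (nat_lit 426347) (nat_lit 14) (.e (nat_lit 491550) (nat_lit 9) (.e (nat_lit 336428) (nat_lit 29) (.e (nat_lit 442372) (nat_lit 0) .nil)))))) (.g (nat_lit 5) .nil .nil))) 
(.lf (nat_lit 91120) (.g (nat_lit 1393) (.e (nat_lit 2175) (nat_lit 143) (.e (nat_lit 712747) (nat_lit 28) (.e (nat_lit 434209) (nat_lit 18) (.e (nat_lit 6277) (nat_lit 337) (.e (nat_lit 1214) (nat_lit 89) .nil))))) .nil)))) (.nd (nat_lit 4) (.nd (nat_lit 5) 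
(.lf (nat_lit 91080) (.g (nat_lit 489) (.e (nat_lit 2174) (nat_lit 143) (.e (nat_lit 712745) (nat_lit 27) (.e (nat_lit 426225) (nat_lit 9) (.e (nat_lit 426443) (nat_lit 19) .nil)))) .nil)) 
(.lf (nat_lit 91112) (.g (nat_lit 1798) (.e (nat_lit 2175) (nat_lit 143) (.e (nat_lit 712745) (nat_lit 27) (.e (nat_lit 426347) (nat_lit 14) (.e (nat_lit 491550) (nat_lit 9) (.e (nat_lit 336427) (nat_lit 29) (.e (nat_lit 442374) (nat_lit 0) .nil)))))) (.g (nat_lit 4) .nil .nil)))) (.nd (nat_lit 5) 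
(.lf (nat_lit 91096) (.g (nat_lit 2736) (.e (nat_lit 2174) (nat_lit 143) (.e (nat_lit 712749) (nat_lit 28) (.e (nat_lit 434289) (nat_lit 43) (.e (nat_lit 696344) (nat_lit 8) (.e (nat_lit 172067) (nat_lit 3) (.e (nat_lit 204837) (nat_lit 20) (.e (nat_lit 114708) (nat_lit 20) .nil))))))) (.g (nat_lit 4) .nil .nil))) 
(.lf (nat_lit 91128) (.g (nat_lit 2209) (.e (nat_lit 2175) (nat_lit 143) (.e (nat_lit 712749) (nat_lit 28) (.e (nat_lit 434209) (nat_lit 18) (.e (nat_lit 6410) (nat_lit 340) (.e (nat_lit 122913) (nat_lit 13) (.e (nat_lit 344130) (nat_lit 26) (.e (nat_lit 557097) (nat_lit 13) (.e (nat_lit 172133) (nat_lit 15) .nil)))))))) (.g (nat_lit 5) .nil .nil)))))) 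
(.nd (nat_lit 3) (.nd (nat_lit 4) (.nd (nat_lit 5) 
(.lf (nat_lit 91076) (.g (nat_lit 3127) (.e (nat_lit 2174) (nat_lit 143) (.e (nat_lit 712745) (nat_lit 27) (.e (nat_lit 426163) (nat_lit 6) (.e (nat_lit 253991) (nat_lit 11) (.e (nat_lit 16414) (nat_lit 3) (.e (nat_lit 204837) (nat_lit 20) (.e (nat_lit 114708) (nat_lit 20) .nil))))))) (.g (nat_lit 4) .nil .nil))) 
(.lf (nat_lit 91108) (.g (nat_lit 2162) (.e (nat_lit 2175) (nat_lit 143) (.e (nat_lit 712745) (nat_lit 27) (.e (nat_lit 426163) (nat_lit 6) (.e (nat_lit 253962) (nat_lit 9) (.e (nat_lit 1277) (nat_lit 94) (.e (nat_lit 114716) (nat_lit 22) (.e (nat_lit 90169) (nat_lit 13) (.e (nat_lit 172133) (nat_lit 15) .nil)))))))) (.g (nat_lit 4) .nil .nil)))) (.nd (nat_lit 5) 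
(.lf (nat_lit 91092) (.g (nat_lit 2131) (.e (nat_lit 2174) (nat_lit 143) (.e (nat_lit 712745) (nat_lit 27) (.e (nat_lit 426541) (nat_lit 29) (.e (nat_lit 352313) (nat_lit 23) (.e (nat_lit 98321) (nat_lit 17) (.e (nat_lit 7936) (nat_lit 220) (.e (nat_lit 720927) (nat_lit 20) .nil))))))) (.g (nat_lit 5) .nil .nil))) 
(.lf (nat_lit 91124) (.g (nat_lit 2666) (.e (nat_lit 2175) (nat_lit 143) (.e (nat_lit 712747) (nat_lit 28) (.e (nat_lit 434289) (nat_lit 43) (.e (nat_lit 696362) (nat_lit 17) (.e (nat_lit 73754) (nat_lit 8) (.e (nat_lit 557095) (nat_lit 13) (.e (nat_lit 172133) (nat_lit 15) .nil))))))) (.g (nat_lit 6) .nil .nil))))) (.nd (nat_lit 4) (.nd (nat_lit 5) 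
(.lf (nat_lit 91084) (.g (nat_lit 2201) (.e (nat_lit 2174) (nat_lit 143) (.e (nat_lit 712745) (nat_lit 27) (.e (nat_lit 426347) (nat_lit 14) (.e (nat_lit 491547) (nat_lit 9) (.e (nat_lit 336428) (nat_lit 29) (.e (nat_lit 442372) (nat_lit 0) .nil)))))) (.g (nat_lit 4) .nil .nil))) 
(.lf (nat_lit 91116) (.g (nat_lit 1087) (.e (nat_lit 2175) (nat_lit 143) (.e (nat_lit 712747) (nat_lit 28) (.e (nat_lit 434209) (nat_lit 18) (.e (nat_lit 6270) (nat_lit 337) .nil)))) .nil))) (.nd (nat_lit 5) 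
(.lf (nat_lit 91100) (.g (nat_lit 2187) (.e (nat_lit 2174) (nat_lit 143) (.e (nat_lit 712752) (nat_lit 29) (.e (nat_lit 442374) (nat_lit 0) (.e (nat_lit 2059) (nat_lit 142) (.e (nat_lit 704598) (nat_lit 6) (.e (nat_lit 188418) (nat_lit 0) .nil)))))) (.g (nat_lit 4) .nil .nil))) 
(.lf (nat_lit 91132) (.g (nat_lit 1203) (.e (nat_lit 2175) (nat_lit 143) (.e (nat_lit 712749) (nat_lit 28) (.e (nat_lit 434289) (nat_lit 43) (.e (nat_lit 696350) (nat_lit 13) .nil)))) .nil)))))) (.nd (nat_lit 2) (.nd (nat_lit 3) (.nd (nat_lit 4) (.nd (nat_lit 5) 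
(.lf (nat_lit 91074) (.g (nat_lit 1790) (.e (nat_lit 2174) (nat_lit 143) (.e (nat_lit 712745) (nat_lit 27) (.e (nat_lit 425984) (nat_lit 0) (.e (nat_lit 7586) (nat_lit 406) (.e (nat_lit 65653) (nat_lit 27) (.e (nat_lit 426190) (nat_lit 9) (.e (nat_lit 426405) (nat_lit 15) .nil))))))) (.g (nat_lit 4) .nil .nil))) 
(.lf (nat_lit 91106) (.g (nat_lit 3113) (.e (nat_lit 2175) (nat_lit 143) (.e (nat_lit 712745) (nat_lit 27) (.e (nat_lit 425984) (nat_lit 0) (.e (nat_lit 3555) (nat_lit 220) (.e (nat_lit 720956) (nat_lit 25) (.e (nat_lit 114716) (nat_lit 22) (.e (nat_lit 90169) (nat_lit 13) (.e (nat_lit 172133) (nat_lit 15) .nil)))))))) (.g (nat_lit 0) .nil .nil)))) (.nd (nat_lit 5) 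
(.lf (nat_lit 91090) (.g (nat_lit 2836) (.e (nat_lit 2174) (nat_lit 143) (.e (nat_lit 712745) (nat_lit 27) (.e (nat_lit 426347) (nat_lit 14) (.e (nat_lit 491550) (nat_lit 9) (.e (nat_lit 336430) (nat_lit 29) (.e (nat_lit 442378) (nat_lit 0) .nil)))))) (.g (nat_lit 5) .nil .nil))) 
(.lf (nat_lit 91122) (.g (nat_lit 2253) (.e (nat_lit 2175) (nat_lit 143) (.e (nat_lit 712747) (nat_lit 28) (.e (nat_lit 434286) (nat_lit 42) (.e (nat_lit 688179) (nat_lit 17) (.e (nat_lit 73754) (nat_lit 8) (.e (nat_lit 557101) (nat_lit 13) (.e (nat_lit 172136) (nat_lit 15) .nil))))))) (.g (nat_lit 6) .nil .nil))))) (.nd (nat_lit 4) (.nd (nat_lit 5) 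
(.lf (nat_lit 91082) (.g (nat_lit 817) (.e (nat_lit 2174) (nat_lit 143) (.e (nat_lit 712745) (nat_lit 27) (.e (nat_lit 426230) (nat_lit 9) (.e (nat_lit 426441) (nat_lit 19) (.e (nat_lit 114432) (nat_lit 6) .nil))))) .nil)) 
(.lf (nat_lit 91114) (.g (nat_lit 1900) (.e (nat_lit 2175) (nat_lit 143) (.e (nat_lit 712745) (nat_lit 27) (.e (nat_lit 426347) (nat_lit 14) (.e (nat_lit 491569) (nat_lit 13) (.e (nat_lit 401152) (nat_lit 23) (.e (nat_lit 426389) (nat_lit 15) .nil)))))) (.g (nat_lit 4) .nil .nil)))) (.nd (nat_lit 5) 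
(.lf (nat_lit 91098) (.g (nat_lit 2113) (.e (nat_lit 2174) (nat_lit 143) (.e (nat_lit 712750) (nat_lit 29) (.e (nat_lit 442374) (nat_lit 0) (.e (nat_lit 2059) (nat_lit 142) (.e (nat_lit 704598) (nat_lit 6) (.e (nat_lit 188418) (nat_lit 0) .nil)))))) (.g (nat_lit 4) .nil .nil))) 
(.lf (nat_lit 91130) (.g (nat_lit 4535) (.e (nat_lit 2175) (nat_lit 143) (.e (nat_lit 712749) (nat_lit 28) (.e (nat_lit 434289) (nat_lit 43) (.e (nat_lit 696344) (nat_lit 8) (.e (nat_lit 172067) (nat_lit 3) (.e (nat_lit 204837) (nat_lit 20) (.e (nat_lit 114708) (nat_lit 20) .nil))))))) (.g (nat_lit 0) .nil .nil)))))) (.nd (nat_lit 3) (.nd (nat_lit 4) (.nd (nat_lit 5) 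
(.lf (nat_lit 91078) (.g (nat_lit 5090) (.e (nat_lit 2174) (nat_lit 143) (.e (nat_lit 712745) (nat_lit 27) (.e (nat_lit 426163) (nat_lit 6) (.e (nat_lit 253991) (nat_lit 11) (.e (nat_lit 16416) (nat_lit 3) (.e (nat_lit 204837) (nat_lit 20) (.e (nat_lit 114708) (nat_lit 20) .nil))))))) (.g (nat_lit 6) .nil .nil))) 
(.lf (nat_lit 91110) (.g (nat_lit 2281) (.e (nat_lit 2175) (nat_lit 143) (.e (nat_lit 712745) (nat_lit 27) (.e (nat_lit 426163) (nat_lit 6) (.e (nat_lit 253991) (nat_lit 11) (.e (nat_lit 16414) (nat_lit 3) .nil))))) .nil))) (.nd (nat_lit 5) 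
(.lf (nat_lit 91094) (.g (nat_lit 1844) (.e (nat_lit 2174) (nat_lit 143) (.e (nat_lit 712745) (nat_lit 27) (.e (nat_lit 426554) (nat_lit 32) (.e (nat_lit 376862) (nat_lit 22) (.e (nat_lit 90165) (nat_lit 12) (.e (nat_lit 171776) (nat_lit 48) (.e (nat_lit 720927) (nat_lit 20) .nil))))))) (.g (nat_lit 4) .nil .nil))) 
(.lf (nat_lit 91126) (.g (nat_lit 3421) (.e (nat_lit 2175) (nat_lit 143) (.e (nat_lit 712747) (nat_lit 28) (.e (nat_lit 434289) (nat_lit 43) (.e (nat_lit 696362) (nat_lit 17) (.e (nat_lit 73755) (nat_lit 8) (.e (nat_lit 557098) (nat_lit 13) (.e (nat_lit 172133) (nat_lit 15) .nil))))))) (.g (nat_lit 6) .nil .nil))))) (.nd (nat_lit 4) (.nd (nat_lit 5) 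
(.lf (nat_lit 91086) (.g (nat_lit 2789) (.e (nat_lit 2174) (nat_lit 143) (.e (nat_lit 712745) (nat_lit 27) (.e (nat_lit 426347) (nat_lit 14) (.e (nat_lit 491549) (nat_lit 9) (.e (nat_lit 336443) (nat_lit 32) (.e (nat_lit 466949) (nat_lit 0) .nil)))))) (.g (nat_lit 4) .nil .nil))) 
(.lf (nat_lit 91118) (.g (nat_lit 1085) (.e (nat_lit 2175) (nat_lit 143) (.e (nat_lit 712747) (nat_lit 28) (.e (nat_lit 434209) (nat_lit 18) (.e (nat_lit 6277) (nat_lit 337) .nil)))) .nil))) (.nd (nat_lit 5) 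
(.lf (nat_lit 91102) (.g (nat_lit 1387) (.e (nat_lit 2174) (nat_lit 143) (.e (nat_lit 712753) (nat_lit 30) (.e (nat_lit 450561) (nat_lit 0) (.e (nat_lit 5539) (nat_lit 306) (.e (nat_lit 7936) (nat_lit 166) .nil))))) .nil)) 
(.lf (nat_lit 91134) (.g (nat_lit 1115) (.e (nat_lit 2175) (nat_lit 143) (.e (nat_lit 712749) (nat_lit 28) (.e (nat_lit 434289) (nat_lit 43) (.e (nat_lit 696362) (nat_lit 17) .nil)))) .nil))))))) (.nd (nat_lit 1) (.nd (nat_lit 2) (.nd (nat_lit 3) (.nd (nat_lit 4) (.nd (nat_lit 5) 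
(.lf (nat_lit 91073) (.g (nat_lit 1822) (.e (nat_lit 2174) (nat_lit 143) (.e (nat_lit 712745) (nat_lit 27) (.e (nat_lit 425984) (nat_lit 0) (.e (nat_lit 7586) (nat_lit 406) (.e (nat_lit 65653) (nat_lit 27) (.e (nat_lit 426190) (nat_lit 9) (.e (nat_lit 426382) (nat_lit 15) .nil))))))) (.g (nat_lit 4) .nil .nil))) 
(.lf (nat_lit 91105) (.g (nat_lit 3426) (.e (nat_lit 2175) (nat_lit 143) (.e (nat_lit 712742) (nat_lit 27) (.e (nat_lit 426338) (nat_lit 14) (.e (nat_lit 491549) (nat_lit 9) (.e (nat_lit 336428) (nat_lit 29) (.e (nat_lit 442374) (nat_lit 0) .nil)))))) (.g (nat_lit 5) .nil .nil)))) (.nd (nat_lit 5) 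
(.lf (nat_lit 91089) (.g (nat_lit 2906) (.e (nat_lit 2174) (nat_lit 143) (.e (nat_lit 712745) (nat_lit 27) (.e (nat_lit 426347) (nat_lit 14) (.e (nat_lit 491550) (nat_lit 9) (.e (nat_lit 336430) (nat_lit 29) (.e (nat_lit 442377) (nat_lit 0) .nil)))))) (.g (nat_lit 5) .nil .nil))) 
(.lf (nat_lit 91121) (.g (nat_lit 3642) (.e (nat_lit 2175) (nat_lit 143) (.e (nat_lit 712747) (nat_lit 28) (.e (nat_lit 434286) (nat_lit 42) (.e (nat_lit 688179) (nat_lit 17) (.e (nat_lit 73754) (nat_lit 8) (.e (nat_lit 557100) (nat_lit 13) (.e (nat_lit 172138) (nat_lit 15) .nil))))))) (.g (nat_lit 6) .nil .nil))))) (.nd (nat_lit 4) (.nd (nat_lit 5) 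
(.lf (nat_lit 91081) (.g (nat_lit 640) (.e (nat_lit 2174) (nat_lit 143) (.e (nat_lit 712745) (nat_lit 27) (.e (nat_lit 426228) (nat_lit 9) (.e (nat_lit 426441) (nat_lit 19) .nil)))) .nil)) 
(.lf (nat_lit 91113) (.g (nat_lit 2348) (.e (nat_lit 2175) (nat_lit 143) (.e (nat_lit 712745) (nat_lit 27) (.e (nat_lit 426347) (nat_lit 14) (.e (nat_lit 491568) (nat_lit 13) (.e (nat_lit 393279) (nat_lit 23) (.e (nat_lit 426419) (nat_lit 15) .nil)))))) (.g (nat_lit 4) .nil .nil)))) (.nd (nat_lit 5) 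
(.lf (nat_lit 91097) (.g (nat_lit 1265) (.e (nat_lit 2174) (nat_lit 143) (.e (nat_lit 712749) (nat_lit 28) (.e (nat_lit 434289) (nat_lit 43) (.e (nat_lit 696362) (nat_lit 17) .nil)))) .nil)) 
(.lf (nat_lit 91129) (.g (nat_lit 1838) (.e (nat_lit 2175) (nat_lit 143) (.e (nat_lit 712749) (nat_lit 28) (.e (nat_lit 434286) (nat_lit 42) (.e (nat_lit 688179) (nat_lit 17) (.e (nat_lit 73754) (nat_lit 8) (.e (nat_lit 557101) (nat_lit 13) (.e (nat_lit 172136) (nat_lit 15) .nil))))))) (.g (nat_lit 5) .nil .nil)))))) (.nd (nat_lit 3) (.nd (nat_lit 4) (.nd (nat_lit 5) 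
(.lf (nat_lit 91077) (.g (nat_lit 3295) (.e (nat_lit 2174) (nat_lit 143) (.e (nat_lit 712745) (nat_lit 27) (.e (nat_lit 426163) (nat_lit 6) (.e (nat_lit 253991) (nat_lit 11) (.e (nat_lit 16414) (nat_lit 3) (.e (nat_lit 204838) (nat_lit 20) (.e (nat_lit 114708) (nat_lit 20) .nil))))))) (.g (nat_lit 4) .nil .nil))) 
(.lf (nat_lit 91109) (.g (nat_lit 1617) (.e (nat_lit 2175) (nat_lit 143) (.e (nat_lit 712745) (nat_lit 27) (.e (nat_lit 426163) (nat_lit 6) (.e (nat_lit 253963) (nat_lit 9) (.e (nat_lit 1277) (nat_lit 94) .nil))))) .nil))) (.nd (nat_lit 5) 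
(.lf (nat_lit 91093) (.g (nat_lit 1724) (.e (nat_lit 2174) (nat_lit 143) (.e (nat_lit 712745) (nat_lit 27) (.e (nat_lit 426541) (nat_lit 29) (.e (nat_lit 352313) (nat_lit 23) (.e (nat_lit 98325) (nat_lit 17) (.e (nat_lit 7936) (nat_lit 220) (.e (nat_lit 720927) (nat_lit 20) .nil))))))) (.g (nat_lit 4) .nil .nil))) 
(.lf (nat_lit 91125) (.g (nat_lit 2870) (.e (nat_lit 2175) (nat_lit 143) (.e (nat_lit 712747) (nat_lit 28) (.e (nat_lit 434289) (nat_lit 43) (.e (nat_lit 696362) (nat_lit 17) (.e (nat_lit 73755) (nat_lit 8) (.e (nat_lit 557097) (nat_lit 13) (.e (nat_lit 172133) (nat_lit 15) .nil))))))) (.g (nat_lit 6) .nil .nil))))) (.nd (nat_lit 4) (.nd (nat_lit 5) 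
(.lf (nat_lit 91085) (.g (nat_lit 3519) (.e (nat_lit 2174) (nat_lit 143) (.e (nat_lit 712745) (nat_lit 27) (.e (nat_lit 426347) (nat_lit 14) (.e (nat_lit 491547) (nat_lit 9) (.e (nat_lit 336428) (nat_lit 29) (.e (nat_lit 442374) (nat_lit 0) .nil)))))) (.g (nat_lit 6) .nil .nil))) 
(.lf (nat_lit 91117) (.g (nat_lit 1098) (.e (nat_lit 2175) (nat_lit 143) (.e (nat_lit 712747) (nat_lit 28) (.e (nat_lit 434209) (nat_lit 18) (.e (nat_lit 6272) (nat_lit 337) .nil)))) .nil))) (.nd (nat_lit 5) 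
(.lf (nat_lit 91101) (.g (nat_lit 1010) (.e (nat_lit 2174) (nat_lit 143) (.e (nat_lit 712752) (nat_lit 29) (.e (nat_lit 442411) (nat_lit 20) (.e (nat_lit 3409) (nat_lit 212) .nil)))) .nil)) 
(.lf (nat_lit 91133) (.g (nat_lit 1218) (.e (nat_lit 2175) (nat_lit 143) (.e (nat_lit 712749) (nat_lit 28) (.e (nat_lit 434289) (nat_lit 43) (.e (nat_lit 696353) (nat_lit 13) .nil)))) .nil)))))) (.nd (nat_lit 2) (.nd (nat_lit 3) (.nd (nat_lit 4) (.nd (nat_lit 5) 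
(.lf (nat_lit 91075) (.g (nat_lit 1986) (.e (nat_lit 2174) (nat_lit 143) (.e (nat_lit 712745) (nat_lit 27) (.e (nat_lit 426163) (nat_lit 6) (.e (nat_lit 253962) (nat_lit 9) (.e (nat_lit 1277) (nat_lit 94) .nil))))) .nil)) 
(.lf (nat_lit 91107) (.g (nat_lit 2652) (.e (nat_lit 2175) (nat_lit 143) (.e (nat_lit 712745) (nat_lit 27) (.e (nat_lit 426163) (nat_lit 6) (.e (nat_lit 253962) (nat_lit 9) (.e (nat_lit 1277) (nat_lit 94) (.e (nat_lit 114714) (nat_lit 22) (.e (nat_lit 90169) (nat_lit 13) (.e (nat_lit 172133) (nat_lit 15) .nil)))))))) (.g (nat_lit 4) .nil .nil)))) (.nd (nat_lit 5) 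
(.lf (nat_lit 91091) (.g (nat_lit 1571) (.e (nat_lit 2174) (nat_lit 143) (.e (nat_lit 712745) (nat_lit 27) (.e (nat_lit 426347) (nat_lit 14) (.e (nat_lit 491568) (nat_lit 13) (.e (nat_lit 393271) (nat_lit 23) .nil))))) .nil)) 
(.lf (nat_lit 91123) (.g (nat_lit 1131) (.e (nat_lit 2175) (nat_lit 143) (.e (nat_lit 712747) (nat_lit 28) (.e (nat_lit 434289) (nat_lit 43) (.e (nat_lit 696362) (nat_lit 17) (.e (nat_lit 73753) (nat_lit 8) .nil))))) .nil)))) (.nd (nat_lit 4) (.nd (nat_lit 5) 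
(.lf (nat_lit 91083) (.g (nat_lit 1154) (.e (nat_lit 2174) (nat_lit 143) (.e (nat_lit 712745) (nat_lit 27) (.e (nat_lit 426234) (nat_lit 9) (.e (nat_lit 426443) (nat_lit 19) (.e (nat_lit 114432) (nat_lit 6) (.e (nat_lit 188420) (nat_lit 0) .nil)))))) (.g (nat_lit 4) .nil .nil))) 
(.lf (nat_lit 91115) (.g (nat_lit 2306) (.e (nat_lit 2175) (nat_lit 143) (.e (nat_lit 712745) (nat_lit 27) (.e (nat_lit 426347) (nat_lit 14) (.e (nat_lit 491571) (nat_lit 13) (.e (nat_lit 401152) (nat_lit 23) (.e (nat_lit 426389) (nat_lit 15) .nil)))))) (.g (nat_lit 4) .nil .nil)))) (.nd (nat_lit 5) 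
(.lf (nat_lit 91099) (.g (nat_lit 1469) (.e (nat_lit 2174) (nat_lit 143) (.e (nat_lit 712750) (nat_lit 29) (.e (nat_lit 442374) (nat_lit 0) (.e (nat_lit 2175) (nat_lit 143) (.e (nat_lit 712752) (nat_lit 29) .nil))))) .nil)) 
(.lf (nat_lit 91131) (.g (nat_lit 1162) (.e (nat_lit 2175) (nat_lit 143) (.e (nat_lit 712749) (nat_lit 28) (.e (nat_lit 434289) (nat_lit 43) (.e (nat_lit 696349) (nat_lit 13) .nil)))) .nil))))) (.nd (nat_lit 3) (.nd (nat_lit 4) (.nd (nat_lit 5) 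
(.lf (nat_lit 91079) (.g (nat_lit 4263) (.e (nat_lit 2174) (nat_lit 143) (.e (nat_lit 712745) (nat_lit 27) (.e (nat_lit 426163) (nat_lit 6) (.e (nat_lit 253992) (nat_lit 11) (.e (nat_lit 16416) (nat_lit 3) (.e (nat_lit 204837) (nat_lit 20) (.e (nat_lit 114708) (nat_lit 20) .nil))))))) (.g (nat_lit 5) .nil .nil))) 
(.lf (nat_lit 91111) (.g (nat_lit 2558) (.e (nat_lit 2175) (nat_lit 143) (.e (nat_lit 712745) (nat_lit 27) (.e (nat_lit 426347) (nat_lit 14) (.e (nat_lit 491549) (nat_lit 9) (.e (nat_lit 336426) (nat_lit 29) (.e (nat_lit 442374) (nat_lit 0) .nil)))))) (.g (nat_lit 4) .nil .nil)))) (.nd (nat_lit 5) 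
(.lf (nat_lit 91095) (.g (nat_lit 414) (.e (nat_lit 2174) (nat_lit 143) (.e (nat_lit 712749) (nat_lit 28) (.e (nat_lit 434192) (nat_lit 13) .nil))) .nil)) 
(.lf (nat_lit 91127) (.g (nat_lit 1602) (.e (nat_lit 2175) (nat_lit 143) (.e (nat_lit 712749) (nat_lit 28) (.e (nat_lit 434180) (nat_lit 0) (.e (nat_lit 1661) (nat_lit 115) (.e (nat_lit 393275) (nat_lit 23) .nil))))) .nil)))) (.nd (nat_lit 4) (.nd (nat_lit 5) 
(.lf (nat_lit 91087) (.g (nat_lit 1503) (.e (nat_lit 2174) (nat_lit 143) (.e (nat_lit 712745) (nat_lit 27) (.e (nat_lit 426347) (nat_lit 14) (.e (nat_lit 491550) (nat_lit 9) (.e (nat_lit 336427) (nat_lit 29) .nil))))) .nil)) 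
(.lf (nat_lit 91119) (.g (nat_lit 1393) (.e (nat_lit 2175) (nat_lit 143) (.e (nat_lit 712747) (nat_lit 28) (.e (nat_lit 434209) (nat_lit 18) (.e (nat_lit 6277) (nat_lit 337) (.e (nat_lit 1213) (nat_lit 89) .nil))))) .nil))) (.nd (nat_lit 5) 
(.lf (nat_lit 91103) (.g (nat_lit 1422) (.e (nat_lit 2174) (nat_lit 143) (.e (nat_lit 712755) (nat_lit 30) (.e (nat_lit 450562) (nat_lit 0) (.e (nat_lit 5537) (nat_lit 306) .nil)))) .nil)) 
(.lf (nat_lit 91135) (.g (nat_lit 4326) (.e (nat_lit 2175) (nat_lit 143) (.e (nat_lit 712749) (nat_lit 28) (.e (nat_lit 434289) (nat_lit 43) (.e (nat_lit 696362) (nat_lit 17) (.e (nat_lit 73753) (nat_lit 8) (.e (nat_lit 557098) (nat_lit 13) (.e (nat_lit 172133) (nat_lit 15) .nil))))))) (.g (nat_lit 0) .nil .nil)))))))))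

noncomputable def tv1246 : DT := (.nd (nat_lit 0) (.nd (nat_lit 1) (.nd (nat_lit 2) (.nd (nat_lit 3) (.nd (nat_lit 4) (.nd (nat_lit 5) 
(.lf (nat_lit 91136) (.g (nat_lit 3744) (.e (nat_lit 2175) (nat_lit 143) (.e (nat_lit 712749) (nat_lit 28) (.e (nat_lit 434289) (nat_lit 43) (.e (nat_lit 696362) (nat_lit 17) (.e (nat_lit 73754) (nat_lit 8) (.e (nat_lit 557095) (nat_lit 13) (.e (nat_lit 172133) (nat_lit 15) .nil))))))) (.g (nat_lit 0) .nil .nil))) 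
(.lf (nat_lit 91168) (.g (nat_lit 2801) (.e (nat_lit 2175) (nat_lit 143) (.e (nat_lit 712755) (nat_lit 30) (.e (nat_lit 450568) (nat_lit 0) (.e (nat_lit 5599) (nat_lit 310) (.e (nat_lit 163932) (nat_lit 17) (.e (nat_lit 466947) (nat_lit 0) .nil)))))) (.g (nat_lit 0) .nil .nil)))) (.nd (nat_lit 5) 
(.lf (nat_lit 91152) (.g (nat_lit 3115) (.e (nat_lit 2175) (nat_lit 143) (.e (nat_lit 712752) (nat_lit 29) (.e (nat_lit 442374) (nat_lit 0) (.e (nat_lit 2175) (nat_lit 143) (.e (nat_lit 712752) (nat_lit 29) (.e (nat_lit 442377) (nat_lit 0) .nil)))))) (.g (nat_lit 0) .nil .nil))) 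
(.lf (nat_lit 91184) (.g (nat_lit 647) (.e (nat_lit 2178) (nat_lit 143) (.e (nat_lit 712755) (nat_lit 30) (.e (nat_lit 450563) (nat_lit 0) .nil))) .nil)))) (.nd (nat_lit 4) (.nd (nat_lit 5) 
(.lf (nat_lit 91144) (.g (nat_lit 412) (.e (nat_lit 2175) (nat_lit 143) (.e (nat_lit 712750) (nat_lit 29) (.e (nat_lit 442374) (nat_lit 0) .nil))) .nil)) 
(.lf (nat_lit 91176) (.g (nat_lit 441) (.e (nat_lit 2177) (nat_lit 143) (.e (nat_lit 712753) (nat_lit 30) (.e (nat_lit 450586) (nat_lit 10) .nil))) .nil))) (.nd (nat_lit 5) 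
(.lf (nat_lit 91160) (.g (nat_lit 3038) (.e (nat_lit 2175) (nat_lit 143) (.e (nat_lit 712752) (nat_lit 29) (.e (nat_lit 442430) (nat_lit 24) (.e (nat_lit 229680) (nat_lit 244) (.e (nat_lit 163920) (nat_lit 14) (.e (nat_lit 442374) (nat_lit 0) .nil)))))) (.g (nat_lit 6) .nil .nil))) 
(.lf (nat_lit 91192) (.g (nat_lit 1466) (.e (nat_lit 2180) (nat_lit 143) (.e (nat_lit 712755) (nat_lit 30) (.e (nat_lit 450562) (nat_lit 0) (.e (nat_lit 5539) (nat_lit 306) .nil)))) .nil))))) (.nd (nat_lit 3) (.nd (nat_lit 4) (.nd (nat_lit 5) 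
(.lf (nat_lit 91140) (.g (nat_lit 3645) (.e (nat_lit 2175) (nat_lit 143) (.e (nat_lit 712749) (nat_lit 28) (.e (nat_lit 434289) (nat_lit 43) (.e (nat_lit 696362) (nat_lit 17) (.e (nat_lit 73755) (nat_lit 8) (.e (nat_lit 557096) (nat_lit 13) (.e (nat_lit 172133) (nat_lit 15) .nil))))))) (.g (nat_lit 7) .nil .nil))) 
(.lf (nat_lit 91172) (.g (nat_lit 1341) (.e (nat_lit 2175) (nat_lit 143) (.e (nat_lit 712755) (nat_lit 30) (.e (nat_lit 450593) (nat_lit 16) (.e (nat_lit 655362) (nat_lit 0) .nil)))) .nil))) (.nd (nat_lit 5) 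
(.lf (nat_lit 91156) (.g (nat_lit 512) (.e (nat_lit 2175) (nat_lit 143) (.e (nat_lit 712752) (nat_lit 29) (.e (nat_lit 442396) (nat_lit 20) (.e (nat_lit 3402) (nat_lit 211) .nil)))) .nil)) 
(.lf (nat_lit 91188) (.g (nat_lit 1386) (.e (nat_lit 2180) (nat_lit 143) (.e (nat_lit 712752) (nat_lit 29) (.e (nat_lit 442421) (nat_lit 21) (.e (nat_lit 164345) (nat_lit 240) .nil)))) .nil)))) (.nd (nat_lit 4) (.nd (nat_lit 5) 
(.lf (nat_lit 91148) (.g (nat_lit 1679) (.e (nat_lit 2175) (nat_lit 143) (.e (nat_lit 712750) (nat_lit 29) (.e (nat_lit 442430) (nat_lit 24) (.e (nat_lit 229681) (nat_lit 244) (.e (nat_lit 163931) (nat_lit 17) (.e (nat_lit 466947) (nat_lit 0) .nil)))))) (.g (nat_lit 4) .nil .nil))) 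
(.lf (nat_lit 91180) (.g (nat_lit 2875) (.e (nat_lit 2177) (nat_lit 143) (.e (nat_lit 712755) (nat_lit 30) (.e (nat_lit 450588) (nat_lit 10) (.e (nat_lit 573473) (nat_lit 12) (.e (nat_lit 57508) (nat_lit 39) .nil))))) .nil))) (.nd (nat_lit 5) 
(.lf (nat_lit 91164) (.g (nat_lit 1613) (.e (nat_lit 2175) (nat_lit 143) (.e (nat_lit 712752) (nat_lit 29) (.e (nat_lit 442430) (nat_lit 24) (.e (nat_lit 229681) (nat_lit 244) (.e (nat_lit 163932) (nat_lit 17) (.e (nat_lit 466947) (nat_lit 0) .nil)))))) (.g (nat_lit 4) .nil .nil))) 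
(.lf (nat_lit 91196) (.g (nat_lit 1513) (.e (nat_lit 2180) (nat_lit 143) (.e (nat_lit 712755) (nat_lit 30) (.e (nat_lit 450593) (nat_lit 16) (.e (nat_lit 655380) (nat_lit 6) .nil)))) .nil)))))) (.nd (nat_lit 2) (.nd (nat_lit 3) (.nd (nat_lit 4) (.nd (nat_lit 5) 
(.lf (nat_lit 91138) (.g (nat_lit 3121) (.e (nat_lit 2175) (nat_lit 143) (.e (nat_lit 712749) (nat_lit 28) (.e (nat_lit 434289) (nat_lit 43) (.e (nat_lit 696362) (nat_lit 17) (.e (nat_lit 73754) (nat_lit 8) (.e (nat_lit 557101) (nat_lit 13) (.e (nat_lit 172136) (nat_lit 15) .nil))))))) (.g (nat_lit 6) .nil .nil))) 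
(.lf (nat_lit 91170) (.g (nat_lit 1950) (.e (nat_lit 2175) (nat_lit 143) (.e (nat_lit 712755) (nat_lit 30) (.e (nat_lit 450569) (nat_lit 0) (.e (nat_lit 5598) (nat_lit 310) (.e (nat_lit 163932) (nat_lit 17) (.e (nat_lit 466947) (nat_lit 0) .nil)))))) (.g (nat_lit 5) .nil .nil)))) (.nd (nat_lit 5) 
(.lf (nat_lit 91154) (.g (nat_lit 1607) (.e (nat_lit 2175) (nat_lit 143) (.e (nat_lit 712752) (nat_lit 29) (.e (nat_lit 442377) (nat_lit 0) (.e (nat_lit 2059) (nat_lit 142) (.e (nat_lit 704598) (nat_lit 6) (.e (nat_lit 188418) (nat_lit 0) .nil)))))) (.g (nat_lit 4) .nil .nil))) 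
(.lf (nat_lit 91186) (.g (nat_lit 541) (.e (nat_lit 2180) (nat_lit 143) (.e (nat_lit 712752) (nat_lit 29) (.e (nat_lit 450304) (nat_lit 4) .nil))) .nil)))) (.nd (nat_lit 4) (.nd (nat_lit 5) 
(.lf (nat_lit 91146) (.g (nat_lit 927) (.e (nat_lit 2175) (nat_lit 143) (.e (nat_lit 712750) (nat_lit 29) (.e (nat_lit 442399) (nat_lit 20) (.e (nat_lit 3402) (nat_lit 211) (.e (nat_lit 647185) (nat_lit 6) .nil))))) .nil)) 
(.lf (nat_lit 91178) (.g (nat_lit 2318) (.e (nat_lit 2177) (nat_lit 143) (.e (nat_lit 712755) (nat_lit 30) (.e (nat_lit 450588) (nat_lit 10) (.e (nat_lit 573451) (nat_lit 9) (.e (nat_lit 1177) (nat_lit 87) .nil))))) .nil))) (.nd (nat_lit 5) 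
(.lf (nat_lit 91162) (.g (nat_lit 1936) (.e (nat_lit 2175) (nat_lit 143) (.e (nat_lit 712752) (nat_lit 29) (.e (nat_lit 442430) (nat_lit 24) (.e (nat_lit 229680) (nat_lit 244) (.e (nat_lit 163932) (nat_lit 17) (.e (nat_lit 466947) (nat_lit 0) .nil)))))) (.g (nat_lit 4) .nil .nil))) 
(.lf (nat_lit 91194) (.g (nat_lit 2145) (.e (nat_lit 2180) (nat_lit 143) (.e (nat_lit 712755) (nat_lit 30) (.e (nat_lit 450563) (nat_lit 0) (.e (nat_lit 5539) (nat_lit 306) (.e (nat_lit 7936) (nat_lit 166) (.e (nat_lit 196352) (nat_lit 0) .nil)))))) (.g (nat_lit 4) .nil .nil)))))) (.nd (nat_lit 3) (.nd (nat_lit 4) (.nd (nat_lit 5) 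
(.lf (nat_lit 91142) (.g (nat_lit 4474) (.e (nat_lit 2175) (nat_lit 143) (.e (nat_lit 712749) (nat_lit 28) (.e (nat_lit 434289) (nat_lit 43) (.e (nat_lit 696362) (nat_lit 17) (.e (nat_lit 73755) (nat_lit 8) (.e (nat_lit 557098) (nat_lit 13) (.e (nat_lit 172133) (nat_lit 15) .nil))))))) (.g (nat_lit 0) .nil .nil))) 
(.lf (nat_lit 91174) (.g (nat_lit 608) (.e (nat_lit 2176) (nat_lit 143) (.e (nat_lit 712755) (nat_lit 30) (.e (nat_lit 450597) (nat_lit 17) .nil))) .nil))) (.nd (nat_lit 5) 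
(.lf (nat_lit 91158) (.g (nat_lit 1177) (.e (nat_lit 2175) (nat_lit 143) (.e (nat_lit 712752) (nat_lit 29) (.e (nat_lit 442419) (nat_lit 21) (.e (nat_lit 164347) (nat_lit 240) .nil)))) .nil)) 
(.lf (nat_lit 91190) (.g (nat_lit 2068) (.e (nat_lit 2180) (nat_lit 143) (.e (nat_lit 712752) (nat_lit 29) (.e (nat_lit 442421) (nat_lit 21) (.e (nat_lit 164347) (nat_lit 240) (.e (nat_lit 2648) (nat_lit 166) (.e (nat_lit 196352) (nat_lit 0) .nil)))))) (.g (nat_lit 4) .nil .nil))))) (.nd (nat_lit 4) (.nd (nat_lit 5) 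
(.lf (nat_lit 91150) (.g (nat_lit 38) (.e (nat_lit 2175) (nat_lit 143) (.e (nat_lit 712751) (nat_lit 29) (.e (nat_lit 450304) (nat_lit 4) .nil))) .nil)) 
(.lf (nat_lit 91182) (.g (nat_lit 531) (.e (nat_lit 2178) (nat_lit 143) (.e (nat_lit 712752) (nat_lit 29) (.e (nat_lit 442382) (nat_lit 8) .nil))) .nil))) (.nd (nat_lit 5) 
(.lf (nat_lit 91166) (.g (nat_lit 336) (.e (nat_lit 2175) (nat_lit 143) (.e (nat_lit 712753) (nat_lit 30) (.e (nat_lit 458496) (nat_lit 15) .nil))) .nil)) 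
(.lf (nat_lit 91198) (.g (nat_lit 930) (.e (nat_lit 2184) (nat_lit 144) (.e (nat_lit 720933) (nat_lit 21) (.e (nat_lit 57847) (nat_lit 252) (.e (nat_lit 57410) (nat_lit 12) .nil)))) .nil))))))) (.nd (nat_lit 1) (.nd (nat_lit 2) (.nd (nat_lit 3) (.nd (nat_lit 4) (.nd (nat_lit 5) 
(.lf (nat_lit 91137) (.g (nat_lit 4522) (.e (nat_lit 2175) (nat_lit 143) (.e (nat_lit 712749) (nat_lit 28) (.e (nat_lit 434289) (nat_lit 43) (.e (nat_lit 696362) (nat_lit 17) (.e (nat_lit 73754) (nat_lit 8) (.e (nat_lit 557100) (nat_lit 13) (.e (nat_lit 172138) (nat_lit 15) .nil))))))) (.g (nat_lit 7) .nil .nil))) 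
(.lf (nat_lit 91169) (.g (nat_lit 1555) (.e (nat_lit 2175) (nat_lit 143) (.e (nat_lit 712755) (nat_lit 30) (.e (nat_lit 450569) (nat_lit 0) (.e (nat_lit 5598) (nat_lit 310) (.e (nat_lit 163931) (nat_lit 17) (.e (nat_lit 466947) (nat_lit 0) .nil)))))) (.g (nat_lit 4) .nil .nil)))) (.nd (nat_lit 5) 
(.lf (nat_lit 91153) (.g (nat_lit 539) (.e (nat_lit 2175) (nat_lit 143) (.e (nat_lit 712752) (nat_lit 29) (.e (nat_lit 442377) (nat_lit 0) .nil))) .nil)) 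
(.lf (nat_lit 91185) (.g (nat_lit 481) (.e (nat_lit 2179) (nat_lit 143) (.e (nat_lit 712752) (nat_lit 29) (.e (nat_lit 442382) (nat_lit 8) .nil))) .nil)))) (.nd (nat_lit 4) (.nd (nat_lit 5) 
(.lf (nat_lit 91145) (.g (nat_lit 2959) (.e (nat_lit 2175) (nat_lit 143) (.e (nat_lit 712750) (nat_lit 29) (.e (nat_lit 442374) (nat_lit 0) (.e (nat_lit 2175) (nat_lit 143) (.e (nat_lit 712752) (nat_lit 29) (.e (nat_lit 442377) (nat_lit 0) .nil)))))) (.g (nat_lit 0) .nil .nil))) 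
(.lf (nat_lit 91177) (.g (nat_lit 1340) (.e (nat_lit 2177) (nat_lit 143) (.e (nat_lit 712753) (nat_lit 30) (.e (nat_lit 450586) (nat_lit 10) (.e (nat_lit 573473) (nat_lit 12) (.e (nat_lit 57508) (nat_lit 39) .nil))))) .nil))) (.nd (nat_lit 5) 
(.lf (nat_lit 91161) (.g (nat_lit 1961) (.e (nat_lit 2175) (nat_lit 143) (.e (nat_lit 712752) (nat_lit 29) (.e (nat_lit 442430) (nat_lit 24) (.e (nat_lit 229680) (nat_lit 244) (.e (nat_lit 163931) (nat_lit 17) (.e (nat_lit 466947) (nat_lit 0) .nil)))))) (.g (nat_lit 4) .nil .nil))) 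
(.lf (nat_lit 91193) (.g (nat_lit 1888) (.e (nat_lit 2180) (nat_lit 143) (.e (nat_lit 712755) (nat_lit 30) (.e (nat_lit 450563) (nat_lit 0) (.e (nat_lit 5537) (nat_lit 306) (.e (nat_lit 7936) (nat_lit 166) .nil))))) .nil))))) (.nd (nat_lit 3) (.nd (nat_lit 4) (.nd (nat_lit 5) 
(.lf (nat_lit 91141) (.g (nat_lit 3904) (.e (nat_lit 2175) (nat_lit 143) (.e (nat_lit 712749) (nat_lit 28) (.e (nat_lit 434289) (nat_lit 43) (.e (nat_lit 696362) (nat_lit 17) (.e (nat_lit 73755) (nat_lit 8) (.e (nat_lit 557097) (nat_lit 13) (.e (nat_lit 172133) (nat_lit 15) .nil))))))) (.g (nat_lit 0) .nil .nil))) 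
(.lf (nat_lit 91173) (.g (nat_lit 2247) (.e (nat_lit 2175) (nat_lit 143) (.e (nat_lit 712755) (nat_lit 30) (.e (nat_lit 450593) (nat_lit 16) (.e (nat_lit 655378) (nat_lit 4) (.e (nat_lit 172094) (nat_lit 9) (.e (nat_lit 426396) (nat_lit 15) .nil)))))) (.g (nat_lit 4) .nil .nil)))) (.nd (nat_lit 5) 
(.lf (nat_lit 91157) (.g (nat_lit 1305) (.e (nat_lit 2175) (nat_lit 143) (.e (nat_lit 712752) (nat_lit 29) (.e (nat_lit 442411) (nat_lit 20) (.e (nat_lit 3409) (nat_lit 212) (.e (nat_lit 655380) (nat_lit 6) .nil))))) .nil)) 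
(.lf (nat_lit 91189) (.g (nat_lit 1882) (.e (nat_lit 2180) (nat_lit 143) (.e (nat_lit 712752) (nat_lit 29) (.e (nat_lit 442421) (nat_lit 21) (.e (nat_lit 164346) (nat_lit 240) (.e (nat_lit 2648) (nat_lit 166) .nil))))) .nil)))) (.nd (nat_lit 4) (.nd (nat_lit 5) 
(.lf (nat_lit 91149) (.g (nat_lit 1628) (.e (nat_lit 2175) (nat_lit 143) (.e (nat_lit 712750) (nat_lit 29) (.e (nat_lit 442430) (nat_lit 24) (.e (nat_lit 229681) (nat_lit 244) (.e (nat_lit 163932) (nat_lit 17) (.e (nat_lit 466947) (nat_lit 0) .nil)))))) (.g (nat_lit 4) .nil .nil))) 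
(.lf (nat_lit 91181) (.g (nat_lit 3530) (.e (nat_lit 2177) (nat_lit 143) (.e (nat_lit 712755) (nat_lit 30) (.e (nat_lit 450588) (nat_lit 10) (.e (nat_lit 573475) (nat_lit 12) (.e (nat_lit 57354) (nat_lit 0) .nil))))) .nil))) (.nd (nat_lit 5) 
(.lf (nat_lit 91165) (.g (nat_lit 1388) (.e (nat_lit 2175) (nat_lit 143) (.e (nat_lit 712753) (nat_lit 30) (.e (nat_lit 450561) (nat_lit 0) (.e (nat_lit 5539) (nat_lit 306) (.e (nat_lit 7936) (nat_lit 166) .nil))))) .nil)) 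
(.lf (nat_lit 91197) (.g (nat_lit 1965) (.e (nat_lit 2184) (nat_lit 144) (.e (nat_lit 720929) (nat_lit 21) (.e (nat_lit 57847) (nat_lit 252) (.e (nat_lit 57410) (nat_lit 12) .nil)))) .nil)))))) (.nd (nat_lit 2) (.nd (nat_lit 3) (.nd (nat_lit 4) (.nd (nat_lit 5) 
(.lf (nat_lit 91139) (.g (nat_lit 2478) (.e (nat_lit 2175) (nat_lit 143) (.e (nat_lit 712749) (nat_lit 28) (.e (nat_lit 434289) (nat_lit 43) (.e (nat_lit 696362) (nat_lit 17) (.e (nat_lit 73754) (nat_lit 8) (.e (nat_lit 557101) (nat_lit 13) (.e (nat_lit 172137) (nat_lit 15) .nil))))))) (.g (nat_lit 5) .nil .nil))) 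
(.lf (nat_lit 91171) (.g (nat_lit 1544) (.e (nat_lit 2175) (nat_lit 143) (.e (nat_lit 712755) (nat_lit 30) (.e (nat_lit 450588) (nat_lit 10) (.e (nat_lit 581376) (nat_lit 0) .nil)))) .nil))) (.nd (nat_lit 5) 
(.lf (nat_lit 91155) (.g (nat_lit 2532) (.e (nat_lit 2175) (nat_lit 143) (.e (nat_lit 712752) (nat_lit 29) (.e (nat_lit 442377) (nat_lit 0) (.e (nat_lit 2175) (nat_lit 143) (.e (nat_lit 712752) (nat_lit 29) (.e (nat_lit 442377) (nat_lit 0) .nil)))))) (.g (nat_lit 5) .nil .nil))) 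
(.lf (nat_lit 91187) (.g (nat_lit 671) (.e (nat_lit 2180) (nat_lit 143) (.e (nat_lit 712752) (nat_lit 29) (.e (nat_lit 442382) (nat_lit 8) (.e (nat_lit 155652) (nat_lit 0) .nil)))) .nil)))) (.nd (nat_lit 4) (.nd (nat_lit 5) 
(.lf (nat_lit 91147) (.g (nat_lit 1860) (.e (nat_lit 2175) (nat_lit 143) (.e (nat_lit 712750) (nat_lit 29) (.e (nat_lit 442430) (nat_lit 24) (.e (nat_lit 229680) (nat_lit 244) (.e (nat_lit 163931) (nat_lit 17) (.e (nat_lit 466947) (nat_lit 0) .nil)))))) (.g (nat_lit 4) .nil .nil))) 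
(.lf (nat_lit 91179) (.g (nat_lit 2605) (.e (nat_lit 2177) (nat_lit 143) (.e (nat_lit 712755) (nat_lit 30) (.e (nat_lit 450588) (nat_lit 10) (.e (nat_lit 573453) (nat_lit 9) .nil)))) .nil))) (.nd (nat_lit 5) 
(.lf (nat_lit 91163) (.g (nat_lit 1639) (.e (nat_lit 2175) (nat_lit 143) (.e (nat_lit 712752) (nat_lit 29) (.e (nat_lit 442430) (nat_lit 24) (.e (nat_lit 229681) (nat_lit 244) (.e (nat_lit 163931) (nat_lit 17) (.e (nat_lit 466947) (nat_lit 0) .nil)))))) (.g (nat_lit 4) .nil .nil))) 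
(.lf (nat_lit 91195) (.g (nat_lit 647) (.e (nat_lit 2180) (nat_lit 143) (.e (nat_lit 712755) (nat_lit 30) (.e (nat_lit 450566) (nat_lit 0) .nil))) .nil))))) (.nd (nat_lit 3) (.nd (nat_lit 4) (.nd (nat_lit 5) 
(.lf (nat_lit 91143) (.g (nat_lit 1121) (.e (nat_lit 2175) (nat_lit 143) (.e (nat_lit 712749) (nat_lit 28) (.e (nat_lit 434289) (nat_lit 43) (.e (nat_lit 704256) (nat_lit 17) .nil)))) .nil)) 
(.lf (nat_lit 91175) (.g (nat_lit 595) (.e (nat_lit 2177) (nat_lit 143) (.e (nat_lit 712750) (nat_lit 29) (.e (nat_lit 442382) (nat_lit 8) .nil))) .nil))) (.nd (nat_lit 5) 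
(.lf (nat_lit 91159) (.g (nat_lit 2017) (.e (nat_lit 2175) (nat_lit 143) (.e (nat_lit 712752) (nat_lit 29) (.e (nat_lit 442428) (nat_lit 24) (.e (nat_lit 229680) (nat_lit 244) (.e (nat_lit 163919) (nat_lit 14) (.e (nat_lit 442374) (nat_lit 0) .nil)))))) (.g (nat_lit 4) .nil .nil))) 
(.lf (nat_lit 91191) (.g (nat_lit 2123) (.e (nat_lit 2180) (nat_lit 143) (.e (nat_lit 712752) (nat_lit 29) (.e (nat_lit 442421) (nat_lit 21) (.e (nat_lit 164347) (nat_lit 240) (.e (nat_lit 2650) (nat_lit 166) (.e (nat_lit 196352) (nat_lit 0) .nil)))))) (.g (nat_lit 4) .nil .nil))))) (.nd (nat_lit 4) (.nd (nat_lit 5) 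
(.lf (nat_lit 91151) (.g (nat_lit 412) (.e (nat_lit 2175) (nat_lit 143) (.e (nat_lit 712752) (nat_lit 29) (.e (nat_lit 442374) (nat_lit 0) .nil))) .nil)) 
(.lf (nat_lit 91183) (.g (nat_lit 1077) (.e (nat_lit 2178) (nat_lit 143) (.e (nat_lit 712752) (nat_lit 29) (.e (nat_lit 442382) (nat_lit 8) (.e (nat_lit 155652) (nat_lit 0) (.e (nat_lit 2984) (nat_lit 186) (.e (nat_lit 450304) (nat_lit 0) .nil)))))) (.g (nat_lit 5) .nil .nil)))) (.nd (nat_lit 5) 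
(.lf (nat_lit 91167) (.g (nat_lit 2848) (.e (nat_lit 2175) (nat_lit 143) (.e (nat_lit 712755) (nat_lit 30) (.e (nat_lit 450568) (nat_lit 0) (.e (nat_lit 5599) (nat_lit 310) (.e (nat_lit 163931) (nat_lit 17) (.e (nat_lit 466947) (nat_lit 0) .nil)))))) (.g (nat_lit 0) .nil .nil))) 
(.lf (nat_lit 91199) (.g (nat_lit 3377) (.e (nat_lit 2184) (nat_lit 144) (.e (nat_lit 720933) (nat_lit 21) (.e (nat_lit 57847) (nat_lit 252) (.e (nat_lit 57410) (nat_lit 12) (.e (nat_lit 336211) (nat_lit 13) (.e (nat_lit 393273) (nat_lit 23) (.e (nat_lit 426364) (nat_lit 15) .nil))))))) (.g (nat_lit 0) .nil .nil)))))))))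

noncomputable def tv1247 : DT := (.nd (nat_lit 0) (.nd (nat_lit 1) (.nd (nat_lit 2) (.nd (nat_lit 3) (.nd (nat_lit 4) (.nd (nat_lit 5) 
(.lf (nat_lit 91200) (.g (nat_lit 3701) (.e (nat_lit 2184) (nat_lit 144) (.e (nat_lit 720933) (nat_lit 21) (.e (nat_lit 57847) (nat_lit 252) (.e (nat_lit 57411) (nat_lit 12) (.e (nat_lit 336211) (nat_lit 13) (.e (nat_lit 393273) (nat_lit 23) (.e (nat_lit 426364) (nat_lit 15) .nil))))))) (.g (nat_lit 0) .nil .nil))) 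
(.lf (nat_lit 91232) (.g (nat_lit 3067) (.e (nat_lit 2186) (nat_lit 144) (.e (nat_lit 720956) (nat_lit 25) (.e (nat_lit 114716) (nat_lit 22) (.e (nat_lit 90185) (nat_lit 17) (.e (nat_lit 237582) (nat_lit 1) (.e (nat_lit 164332) (nat_lit 230) (.e (nat_lit 163885) (nat_lit 5) (.e (nat_lit 221184) (nat_lit 0) .nil)))))))) (.g (nat_lit 8) .nil .nil)))) (.nd (nat_lit 5) 
(.lf (nat_lit 91216) (.g (nat_lit 1493) (.e (nat_lit 2185) (nat_lit 144) (.e (nat_lit 720956) (nat_lit 25) (.e (nat_lit 114716) (nat_lit 22) (.e (nat_lit 90185) (nat_lit 17) (.e (nat_lit 237582) (nat_lit 1) .nil))))) .nil)) 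
(.lf (nat_lit 91248) (.g (nat_lit 1823) (.e (nat_lit 2190) (nat_lit 144) (.e (nat_lit 720955) (nat_lit 25) (.e (nat_lit 114715) (nat_lit 22) (.e (nat_lit 90170) (nat_lit 13) (.e (nat_lit 179968) (nat_lit 20) .nil))))) .nil)))) (.nd (nat_lit 4) (.nd (nat_lit 5) 
(.lf (nat_lit 91208) (.g (nat_lit 3203) (.e (nat_lit 2184) (nat_lit 144) (.e (nat_lit 720956) (nat_lit 25) (.e (nat_lit 114716) (nat_lit 22) (.e (nat_lit 90185) (nat_lit 17) (.e (nat_lit 237582) (nat_lit 1) (.e (nat_lit 164332) (nat_lit 230) (.e (nat_lit 163885) (nat_lit 5) (.e (nat_lit 221184) (nat_lit 0) .nil)))))))) (.g (nat_lit 0) .nil .nil))) 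
(.lf (nat_lit 91240) (.g (nat_lit 3518) (.e (nat_lit 2189) (nat_lit 144) (.e (nat_lit 720956) (nat_lit 25) (.e (nat_lit 114711) (nat_lit 21) (.e (nat_lit 57847) (nat_lit 252) (.e (nat_lit 57365) (nat_lit 1) (.e (nat_lit 57854) (nat_lit 252) (.e (nat_lit 57445) (nat_lit 19) (.e (nat_lit 393217) (nat_lit 0) .nil)))))))) (.g (nat_lit 0) .nil .nil)))) (.nd (nat_lit 5) 
(.lf (nat_lit 91224) (.g (nat_lit 684) (.e (nat_lit 2186) (nat_lit 144) (.e (nat_lit 720955) (nat_lit 25) (.e (nat_lit 114716) (nat_lit 22) (.e (nat_lit 90181) (nat_lit 16) (.e (nat_lit 237312) (nat_lit 192) (.e (nat_lit 81664) (nat_lit 28) (.e (nat_lit 794625) (nat_lit 0) .nil))))))) (.g (nat_lit 4) .nil .nil))) 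
(.lf (nat_lit 91256) (.g (nat_lit 1987) (.e (nat_lit 2191) (nat_lit 144) (.e (nat_lit 720944) (nat_lit 23) (.e (nat_lit 98356) (nat_lit 26) (.e (nat_lit 426428) (nat_lit 17) (.e (nat_lit 98048) (nat_lit 5) .nil))))) .nil))))) (.nd (nat_lit 3) (.nd (nat_lit 4) (.nd (nat_lit 5) 
(.lf (nat_lit 91204) (.g (nat_lit 2294) (.e (nat_lit 2184) (nat_lit 144) (.e (nat_lit 720943) (nat_lit 23) (.e (nat_lit 98317) (nat_lit 9) (.e (nat_lit 336186) (nat_lit 11) .nil)))) .nil)) 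
(.lf (nat_lit 91236) (.g (nat_lit 1841) (.e (nat_lit 2188) (nat_lit 144) (.e (nat_lit 720929) (nat_lit 21) (.e (nat_lit 57847) (nat_lit 252) (.e (nat_lit 57437) (nat_lit 17) .nil)))) .nil))) (.nd (nat_lit 5) 
(.lf (nat_lit 91220) (.g (nat_lit 1743) (.e (nat_lit 2185) (nat_lit 144) (.e (nat_lit 720956) (nat_lit 25) (.e (nat_lit 114716) (nat_lit 22) (.e (nat_lit 90185) (nat_lit 17) (.e (nat_lit 237585) (nat_lit 1) (.e (nat_lit 164332) (nat_lit 230) (.e (nat_lit 163884) (nat_lit 5) (.e (nat_lit 221187) (nat_lit 0) .nil)))))))) (.g (nat_lit 5) .nil .nil))) 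
(.lf (nat_lit 91252) (.g (nat_lit 1876) (.e (nat_lit 2191) (nat_lit 144) (.e (nat_lit 720929) (nat_lit 21) (.e (nat_lit 57847) (nat_lit 252) (.e (nat_lit 57437) (nat_lit 17) .nil)))) .nil)))) (.nd (nat_lit 4) (.nd (nat_lit 5) 
(.lf (nat_lit 91212) (.g (nat_lit 3262) (.e (nat_lit 2184) (nat_lit 144) (.e (nat_lit 720956) (nat_lit 25) (.e (nat_lit 114716) (nat_lit 22) (.e (nat_lit 90185) (nat_lit 17) (.e (nat_lit 237585) (nat_lit 1) (.e (nat_lit 164332) (nat_lit 230) (.e (nat_lit 163885) (nat_lit 5) (.e (nat_lit 221184) (nat_lit 0) .nil)))))))) (.g (nat_lit 0) .nil .nil))) 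
(.lf (nat_lit 91244) (.g (nat_lit 1958) (.e (nat_lit 2190) (nat_lit 144) (.e (nat_lit 720929) (nat_lit 21) (.e (nat_lit 57847) (nat_lit 252) (.e (nat_lit 57410) (nat_lit 12) .nil)))) .nil))) (.nd (nat_lit 5) 
(.lf (nat_lit 91228) (.g (nat_lit 3430) (.e (nat_lit 2186) (nat_lit 144) (.e (nat_lit 720956) (nat_lit 25) (.e (nat_lit 114711) (nat_lit 21) (.e (nat_lit 57847) (nat_lit 252) (.e (nat_lit 57365) (nat_lit 1) (.e (nat_lit 57854) (nat_lit 252) (.e (nat_lit 57445) (nat_lit 19) (.e (nat_lit 393217) (nat_lit 0) .nil)))))))) (.g (nat_lit 0) .nil .nil))) 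
(.lf (nat_lit 91260) (.g (nat_lit 2442) (.e (nat_lit 2193) (nat_lit 144) (.e (nat_lit 720929) (nat_lit 21) (.e (nat_lit 57847) (nat_lit 252) (.e (nat_lit 57410) (nat_lit 12) (.e (nat_lit 336211) (nat_lit 13) .nil))))) .nil)))))) (.nd (nat_lit 2) (.nd (nat_lit 3) (.nd (nat_lit 4) (.nd (nat_lit 5) 
(.lf (nat_lit 91202) (.g (nat_lit 2571) (.e (nat_lit 2184) (nat_lit 144) (.e (nat_lit 720943) (nat_lit 23) (.e (nat_lit 98317) (nat_lit 9) (.e (nat_lit 336088) (nat_lit 9) (.e (nat_lit 336019) (nat_lit 3) .nil))))) .nil)) 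
(.lf (nat_lit 91234) (.g (nat_lit 2793) (.e (nat_lit 2186) (nat_lit 144) (.e (nat_lit 720956) (nat_lit 25) (.e (nat_lit 114716) (nat_lit 22) (.e (nat_lit 90185) (nat_lit 17) (.e (nat_lit 237585) (nat_lit 1) (.e (nat_lit 164332) (nat_lit 230) (.e (nat_lit 163884) (nat_lit 5) (.e (nat_lit 221185) (nat_lit 0) .nil)))))))) (.g (nat_lit 8) .nil .nil)))) (.nd (nat_lit 5) 
(.lf (nat_lit 91218) (.g (nat_lit 1580) (.e (nat_lit 2185) (nat_lit 144) (.e (nat_lit 720956) (nat_lit 25) (.e (nat_lit 114716) (nat_lit 22) (.e (nat_lit 90185) (nat_lit 17) (.e (nat_lit 237584) (nat_lit 1) .nil))))) .nil)) 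
(.lf (nat_lit 91250) (.g (nat_lit 2627) (.e (nat_lit 2191) (nat_lit 144) (.e (nat_lit 720929) (nat_lit 21) (.e (nat_lit 57847) (nat_lit 252) (.e (nat_lit 57411) (nat_lit 12) (.e (nat_lit 336211) (nat_lit 13) .nil))))) .nil)))) (.nd (nat_lit 4) (.nd (nat_lit 5) 
(.lf (nat_lit 91210) (.g (nat_lit 1633) (.e (nat_lit 2184) (nat_lit 144) (.e (nat_lit 720956) (nat_lit 25) (.e (nat_lit 114716) (nat_lit 22) (.e (nat_lit 90185) (nat_lit 17) (.e (nat_lit 237584) (nat_lit 1) (.e (nat_lit 164325) (nat_lit 230) (.e (nat_lit 163884) (nat_lit 5) (.e (nat_lit 221185) (nat_lit 0) .nil)))))))) (.g (nat_lit 4) .nil .nil))) 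
(.lf (nat_lit 91242) (.g (nat_lit 1509) (.e (nat_lit 2189) (nat_lit 144) (.e (nat_lit 720956) (nat_lit 25) (.e (nat_lit 114716) (nat_lit 22) (.e (nat_lit 90185) (nat_lit 17) (.e (nat_lit 237582) (nat_lit 1) (.e (nat_lit 164332) (nat_lit 230) (.e (nat_lit 163884) (nat_lit 5) (.e (nat_lit 221184) (nat_lit 0) .nil)))))))) (.g (nat_lit 4) .nil .nil)))) (.nd (nat_lit 5) 
(.lf (nat_lit 91226) (.g (nat_lit 2880) (.e (nat_lit 2186) (nat_lit 144) (.e (nat_lit 720955) (nat_lit 25) (.e (nat_lit 114716) (nat_lit 22) (.e (nat_lit 90185) (nat_lit 17) (.e (nat_lit 237582) (nat_lit 1) (.e (nat_lit 164332) (nat_lit 230) (.e (nat_lit 163885) (nat_lit 5) (.e (nat_lit 221184) (nat_lit 0) .nil)))))))) (.g (nat_lit 7) .nil .nil))) 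
(.lf (nat_lit 91258) (.g (nat_lit 2372) (.e (nat_lit 2192) (nat_lit 144) (.e (nat_lit 720943) (nat_lit 23) (.e (nat_lit 98317) (nat_lit 9) (.e (nat_lit 336087) (nat_lit 9) .nil)))) .nil))))) (.nd (nat_lit 3) (.nd (nat_lit 4) (.nd (nat_lit 5) 
(.lf (nat_lit 91206) (.g (nat_lit 3680) (.e (nat_lit 2184) (nat_lit 144) (.e (nat_lit 720956) (nat_lit 25) (.e (nat_lit 114711) (nat_lit 21) (.e (nat_lit 57847) (nat_lit 252) (.e (nat_lit 57365) (nat_lit 1) (.e (nat_lit 57854) (nat_lit 252) (.e (nat_lit 57447) (nat_lit 19) (.e (nat_lit 393223) (nat_lit 0) .nil)))))))) (.g (nat_lit 0) .nil .nil))) 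
(.lf (nat_lit 91238) (.g (nat_lit 2866) (.e (nat_lit 2189) (nat_lit 144) (.e (nat_lit 720943) (nat_lit 23) (.e (nat_lit 98317) (nat_lit 9) (.e (nat_lit 336088) (nat_lit 9) (.e (nat_lit 336019) (nat_lit 3) .nil))))) .nil))) (.nd (nat_lit 5) 
(.lf (nat_lit 91222) (.g (nat_lit 2374) (.e (nat_lit 2186) (nat_lit 144) (.e (nat_lit 720943) (nat_lit 23) (.e (nat_lit 98317) (nat_lit 9) (.e (nat_lit 336088) (nat_lit 9) .nil)))) .nil)) 
(.lf (nat_lit 91254) (.g (nat_lit 2411) (.e (nat_lit 2191) (nat_lit 144) (.e (nat_lit 720943) (nat_lit 23) (.e (nat_lit 98317) (nat_lit 9) (.e (nat_lit 336086) (nat_lit 9) .nil)))) .nil)))) (.nd (nat_lit 4) (.nd (nat_lit 5) 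
(.lf (nat_lit 91214) (.g (nat_lit 2558) (.e (nat_lit 2185) (nat_lit 144) (.e (nat_lit 720955) (nat_lit 25) (.e (nat_lit 114716) (nat_lit 22) (.e (nat_lit 90185) (nat_lit 17) (.e (nat_lit 237582) (nat_lit 1) (.e (nat_lit 164332) (nat_lit 230) (.e (nat_lit 163884) (nat_lit 5) (.e (nat_lit 221185) (nat_lit 0) .nil)))))))) (.g (nat_lit 7) .nil .nil))) 
(.lf (nat_lit 91246) (.g (nat_lit 2269) (.e (nat_lit 2190) (nat_lit 144) (.e (nat_lit 720943) (nat_lit 23) (.e (nat_lit 98317) (nat_lit 9) (.e (nat_lit 336087) (nat_lit 9) (.e (nat_lit 336019) (nat_lit 3) (.e (nat_lit 98356) (nat_lit 26) (.e (nat_lit 426361) (nat_lit 15) .nil))))))) (.g (nat_lit 4) .nil .nil)))) (.nd (nat_lit 5) 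
(.lf (nat_lit 91230) (.g (nat_lit 1280) (.e (nat_lit 2186) (nat_lit 144) (.e (nat_lit 720956) (nat_lit 25) (.e (nat_lit 114716) (nat_lit 22) (.e (nat_lit 90181) (nat_lit 16) (.e (nat_lit 229577) (nat_lit 179) .nil))))) .nil)) 
(.lf (nat_lit 91262) (.g (nat_lit 1279) (.e (nat_lit 2195) (nat_lit 144) (.e (nat_lit 720939) (nat_lit 22) (.e (nat_lit 90128) (nat_lit 9) (.e (nat_lit 314) (nat_lit 23) (.e (nat_lit 352313) (nat_lit 23) .nil))))) .nil))))))) (.nd (nat_lit 1) (.nd (nat_lit 2) (.nd (nat_lit 3) (.nd (nat_lit 4) (.nd (nat_lit 5) 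
(.lf (nat_lit 91201) (.g (nat_lit 2709) (.e (nat_lit 2184) (nat_lit 144) (.e (nat_lit 720943) (nat_lit 23) (.e (nat_lit 98317) (nat_lit 9) (.e (nat_lit 336087) (nat_lit 9) (.e (nat_lit 336019) (nat_lit 3) .nil))))) .nil)) 
(.lf (nat_lit 91233) (.g (nat_lit 1582) (.e (nat_lit 2186) (nat_lit 144) (.e (nat_lit 720956) (nat_lit 25) (.e (nat_lit 114716) (nat_lit 22) (.e (nat_lit 90185) (nat_lit 17) (.e (nat_lit 237584) (nat_lit 1) .nil))))) .nil))) (.nd (nat_lit 5) 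
(.lf (nat_lit 91217) (.g (nat_lit 2924) (.e (nat_lit 2185) (nat_lit 144) (.e (nat_lit 720956) (nat_lit 25) (.e (nat_lit 114716) (nat_lit 22) (.e (nat_lit 90185) (nat_lit 17) (.e (nat_lit 237582) (nat_lit 1) (.e (nat_lit 164332) (nat_lit 230) (.e (nat_lit 163884) (nat_lit 5) (.e (nat_lit 221185) (nat_lit 0) .nil)))))))) (.g (nat_lit 8) .nil .nil))) 
(.lf (nat_lit 91249) (.g (nat_lit 2456) (.e (nat_lit 2191) (nat_lit 144) (.e (nat_lit 720929) (nat_lit 21) (.e (nat_lit 57847) (nat_lit 252) (.e (nat_lit 57410) (nat_lit 12) (.e (nat_lit 336211) (nat_lit 13) .nil))))) .nil)))) (.nd (nat_lit 4) (.nd (nat_lit 5) 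
(.lf (nat_lit 91209) (.g (nat_lit 3212) (.e (nat_lit 2184) (nat_lit 144) (.e (nat_lit 720956) (nat_lit 25) (.e (nat_lit 114716) (nat_lit 22) (.e (nat_lit 90185) (nat_lit 17) (.e (nat_lit 237582) (nat_lit 1) (.e (nat_lit 164332) (nat_lit 230) (.e (nat_lit 163885) (nat_lit 5) (.e (nat_lit 221185) (nat_lit 0) .nil)))))))) (.g (nat_lit 8) .nil .nil))) 
(.lf (nat_lit 91241) (.g (nat_lit 3793) (.e (nat_lit 2189) (nat_lit 144) (.e (nat_lit 720956) (nat_lit 25) (.e (nat_lit 114711) (nat_lit 21) (.e (nat_lit 57847) (nat_lit 252) (.e (nat_lit 57365) (nat_lit 1) (.e (nat_lit 57854) (nat_lit 252) (.e (nat_lit 57447) (nat_lit 19) (.e (nat_lit 393217) (nat_lit 0) .nil)))))))) (.g (nat_lit 0) .nil .nil)))) (.nd (nat_lit 5) 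
(.lf (nat_lit 91225) (.g (nat_lit 2715) (.e (nat_lit 2186) (nat_lit 144) (.e (nat_lit 720955) (nat_lit 25) (.e (nat_lit 114716) (nat_lit 22) (.e (nat_lit 90185) (nat_lit 17) (.e (nat_lit 237582) (nat_lit 1) (.e (nat_lit 164332) (nat_lit 230) (.e (nat_lit 163884) (nat_lit 5) (.e (nat_lit 221185) (nat_lit 0) .nil)))))))) (.g (nat_lit 8) .nil .nil))) 
(.lf (nat_lit 91257) (.g (nat_lit 3187) (.e (nat_lit 2191) (nat_lit 144) (.e (nat_lit 720954) (nat_lit 25) (.e (nat_lit 114696) (nat_lit 11) (.e (nat_lit 426347) (nat_lit 14) (.e (nat_lit 491566) (nat_lit 12) (.e (nat_lit 385104) (nat_lit 50) (.e (nat_lit 786447) (nat_lit 15) .nil))))))) (.g (nat_lit 0) .nil .nil)))))) (.nd (nat_lit 3) (.nd (nat_lit 4) (.nd (nat_lit 5) 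
(.lf (nat_lit 91205) (.g (nat_lit 1334) (.e (nat_lit 2184) (nat_lit 144) (.e (nat_lit 720955) (nat_lit 25) (.e (nat_lit 114716) (nat_lit 22) (.e (nat_lit 90185) (nat_lit 17) (.e (nat_lit 237582) (nat_lit 1) .nil))))) .nil)) 
(.lf (nat_lit 91237) (.g (nat_lit 2372) (.e (nat_lit 2189) (nat_lit 144) (.e (nat_lit 720943) (nat_lit 23) (.e (nat_lit 98317) (nat_lit 9) (.e (nat_lit 336087) (nat_lit 9) .nil)))) .nil))) (.nd (nat_lit 5) 
(.lf (nat_lit 91221) (.g (nat_lit 2373) (.e (nat_lit 2186) (nat_lit 144) (.e (nat_lit 720943) (nat_lit 23) (.e (nat_lit 98317) (nat_lit 9) (.e (nat_lit 336087) (nat_lit 9) .nil)))) .nil)) 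
(.lf (nat_lit 91253) (.g (nat_lit 2420) (.e (nat_lit 2191) (nat_lit 144) (.e (nat_lit 720943) (nat_lit 23) (.e (nat_lit 98317) (nat_lit 9) (.e (nat_lit 336085) (nat_lit 9) .nil)))) .nil)))) (.nd (nat_lit 4) (.nd (nat_lit 5) 
(.lf (nat_lit 91213) (.g (nat_lit 3275) (.e (nat_lit 2184) (nat_lit 144) (.e (nat_lit 720956) (nat_lit 25) (.e (nat_lit 114716) (nat_lit 22) (.e (nat_lit 90185) (nat_lit 17) (.e (nat_lit 237585) (nat_lit 1) (.e (nat_lit 164332) (nat_lit 230) (.e (nat_lit 163885) (nat_lit 5) (.e (nat_lit 221185) (nat_lit 0) .nil)))))))) (.g (nat_lit 8) .nil .nil))) 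
(.lf (nat_lit 91245) (.g (nat_lit 1969) (.e (nat_lit 2190) (nat_lit 144) (.e (nat_lit 720929) (nat_lit 21) (.e (nat_lit 57847) (nat_lit 252) (.e (nat_lit 57411) (nat_lit 12) .nil)))) .nil))) (.nd (nat_lit 5) 
(.lf (nat_lit 91229) (.g (nat_lit 3709) (.e (nat_lit 2186) (nat_lit 144) (.e (nat_lit 720956) (nat_lit 25) (.e (nat_lit 114711) (nat_lit 21) (.e (nat_lit 57847) (nat_lit 252) (.e (nat_lit 57365) (nat_lit 1) (.e (nat_lit 57854) (nat_lit 252) (.e (nat_lit 57447) (nat_lit 19) (.e (nat_lit 393217) (nat_lit 0) .nil)))))))) (.g (nat_lit 0) .nil .nil))) 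
(.lf (nat_lit 91261) (.g (nat_lit 2609) (.e (nat_lit 2193) (nat_lit 144) (.e (nat_lit 720929) (nat_lit 21) (.e (nat_lit 57847) (nat_lit 252) (.e (nat_lit 57411) (nat_lit 12) (.e (nat_lit 336211) (nat_lit 13) .nil))))) .nil)))))) (.nd (nat_lit 2) (.nd (nat_lit 3) (.nd (nat_lit 4) (.nd (nat_lit 5) 
(.lf (nat_lit 91203) (.g (nat_lit 2289) (.e (nat_lit 2184) (nat_lit 144) (.e (nat_lit 720943) (nat_lit 23) (.e (nat_lit 98317) (nat_lit 9) (.e (nat_lit 336184) (nat_lit 11) .nil)))) .nil)) 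
(.lf (nat_lit 91235) (.g (nat_lit 3126) (.e (nat_lit 2186) (nat_lit 144) (.e (nat_lit 720956) (nat_lit 25) (.e (nat_lit 114716) (nat_lit 22) (.e (nat_lit 90185) (nat_lit 17) (.e (nat_lit 237585) (nat_lit 1) (.e (nat_lit 164332) (nat_lit 230) (.e (nat_lit 163885) (nat_lit 5) (.e (nat_lit 221184) (nat_lit 0) .nil)))))))) (.g (nat_lit 8) .nil .nil)))) (.nd (nat_lit 5) 
(.lf (nat_lit 91219) (.g (nat_lit 2800) (.e (nat_lit 2185) (nat_lit 144) (.e (nat_lit 720956) (nat_lit 25) (.e (nat_lit 114716) (nat_lit 22) (.e (nat_lit 90185) (nat_lit 17) (.e (nat_lit 237585) (nat_lit 1) (.e (nat_lit 164332) (nat_lit 230) (.e (nat_lit 163884) (nat_lit 5) (.e (nat_lit 221185) (nat_lit 0) .nil)))))))) (.g (nat_lit 8) .nil .nil))) 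
(.lf (nat_lit 91251) (.g (nat_lit 1866) (.e (nat_lit 2191) (nat_lit 144) (.e (nat_lit 720929) (nat_lit 21) (.e (nat_lit 57847) (nat_lit 252) (.e (nat_lit 57435) (nat_lit 17) .nil)))) .nil)))) (.nd (nat_lit 4) (.nd (nat_lit 5) 
(.lf (nat_lit 91211) (.g (nat_lit 2912) (.e (nat_lit 2184) (nat_lit 144) (.e (nat_lit 720956) (nat_lit 25) (.e (nat_lit 114716) (nat_lit 22) (.e (nat_lit 90185) (nat_lit 17) (.e (nat_lit 237585) (nat_lit 1) (.e (nat_lit 164332) (nat_lit 230) (.e (nat_lit 163884) (nat_lit 5) (.e (nat_lit 221185) (nat_lit 0) .nil)))))))) (.g (nat_lit 0) .nil .nil))) 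
(.lf (nat_lit 91243) (.g (nat_lit 1447) (.e (nat_lit 2189) (nat_lit 144) (.e (nat_lit 720956) (nat_lit 25) (.e (nat_lit 114716) (nat_lit 22) (.e (nat_lit 90185) (nat_lit 17) (.e (nat_lit 237585) (nat_lit 1) .nil))))) .nil))) (.nd (nat_lit 5) 
(.lf (nat_lit 91227) (.g (nat_lit 2908) (.e (nat_lit 2186) (nat_lit 144) (.e (nat_lit 720955) (nat_lit 25) (.e (nat_lit 114716) (nat_lit 22) (.e (nat_lit 90185) (nat_lit 17) (.e (nat_lit 237585) (nat_lit 1) (.e (nat_lit 164332) (nat_lit 230) (.e (nat_lit 163885) (nat_lit 5) (.e (nat_lit 221184) (nat_lit 0) .nil)))))))) (.g (nat_lit 7) .nil .nil))) 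
(.lf (nat_lit 91259) (.g (nat_lit 2373) (.e (nat_lit 2192) (nat_lit 144) (.e (nat_lit 720943) (nat_lit 23) (.e (nat_lit 98317) (nat_lit 9) (.e (nat_lit 336088) (nat_lit 9) .nil)))) .nil))))) (.nd (nat_lit 3) (.nd (nat_lit 4) (.nd (nat_lit 5) 
(.lf (nat_lit 91207) (.g (nat_lit 3036) (.e (nat_lit 2184) (nat_lit 144) (.e (nat_lit 720956) (nat_lit 25) (.e (nat_lit 114716) (nat_lit 22) (.e (nat_lit 90185) (nat_lit 17) (.e (nat_lit 237582) (nat_lit 1) (.e (nat_lit 164332) (nat_lit 230) (.e (nat_lit 163884) (nat_lit 5) (.e (nat_lit 221185) (nat_lit 0) .nil)))))))) (.g (nat_lit 0) .nil .nil))) 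
(.lf (nat_lit 91239) (.g (nat_lit 1836) (.e (nat_lit 2189) (nat_lit 144) (.e (nat_lit 720954) (nat_lit 25) (.e (nat_lit 114714) (nat_lit 22) (.e (nat_lit 90185) (nat_lit 17) (.e (nat_lit 237582) (nat_lit 1) .nil))))) .nil))) (.nd (nat_lit 5) 
(.lf (nat_lit 91223) (.g (nat_lit 1264) (.e (nat_lit 2186) (nat_lit 144) (.e (nat_lit 720955) (nat_lit 25) (.e (nat_lit 114712) (nat_lit 21) (.e (nat_lit 57854) (nat_lit 252) (.e (nat_lit 57366) (nat_lit 1) .nil))))) .nil)) 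
(.lf (nat_lit 91255) (.g (nat_lit 1783) (.e (nat_lit 2191) (nat_lit 144) (.e (nat_lit 720943) (nat_lit 23) (.e (nat_lit 98317) (nat_lit 9) (.e (nat_lit 336184) (nat_lit 11) .nil)))) .nil)))) (.nd (nat_lit 4) (.nd (nat_lit 5) 
(.lf (nat_lit 91215) (.g (nat_lit 3580) (.e (nat_lit 2185) (nat_lit 144) (.e (nat_lit 720956) (nat_lit 25) (.e (nat_lit 114711) (nat_lit 21) (.e (nat_lit 57847) (nat_lit 252) (.e (nat_lit 57365) (nat_lit 1) (.e (nat_lit 57854) (nat_lit 252) (.e (nat_lit 57447) (nat_lit 19) (.e (nat_lit 393223) (nat_lit 0) .nil)))))))) (.g (nat_lit 8) .nil .nil))) 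
(.lf (nat_lit 91247) (.g (nat_lit 1781) (.e (nat_lit 2190) (nat_lit 144) (.e (nat_lit 720943) (nat_lit 23) (.e (nat_lit 98317) (nat_lit 9) (.e (nat_lit 336184) (nat_lit 11) (.e (nat_lit 368676) (nat_lit 21) .nil))))) .nil))) (.nd (nat_lit 5) 
(.lf (nat_lit 91231) (.g (nat_lit 2917) (.e (nat_lit 2186) (nat_lit 144) (.e (nat_lit 720956) (nat_lit 25) (.e (nat_lit 114716) (nat_lit 22) (.e (nat_lit 90185) (nat_lit 17) (.e (nat_lit 237582) (nat_lit 1) (.e (nat_lit 164332) (nat_lit 230) (.e (nat_lit 163884) (nat_lit 5) (.e (nat_lit 221185) (nat_lit 0) .nil)))))))) (.g (nat_lit 8) .nil .nil))) 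
(.lf (nat_lit 91263) (.g (nat_lit 742) (.e (nat_lit 2196) (nat_lit 144) (.e (nat_lit 720932) (nat_lit 21) (.e (nat_lit 57849) (nat_lit 252) (.e (nat_lit 57407) (nat_lit 12) .nil)))) .nil))))))))

noncomputable def tv1248 : DT := (.nd (nat_lit 0) (.nd (nat_lit 1) (.nd (nat_lit 2) (.nd (nat_lit 3) (.nd (nat_lit 4) (.nd (nat_lit 5) 
(.lf (nat_lit 91264) (.g (nat_lit 2324) (.e (nat_lit 2198) (nat_lit 144) (.e (nat_lit 720933) (nat_lit 21) (.e (nat_lit 57847) (nat_lit 252) (.e (nat_lit 57437) (nat_lit 17) (.e (nat_lit 376842) (nat_lit 11) (.e (nat_lit 426200) (nat_lit 9) (.e (nat_lit 426354) (nat_lit 15) .nil))))))) (.g (nat_lit 5) .nil .nil))) 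
(.lf (nat_lit 91296) (.g (nat_lit 4680) (.e (nat_lit 2198) (nat_lit 144) (.e (nat_lit 720945) (nat_lit 23) (.e (nat_lit 98334) (nat_lit 18) (.e (nat_lit 164398) (nat_lit 256) (.e (nat_lit 57379) (nat_lit 3) (.e (nat_lit 98377) (nat_lit 30) (.e (nat_lit 458789) (nat_lit 23) (.e (nat_lit 532484) (nat_lit 0) .nil)))))))) (.g (nat_lit 8) .nil .nil)))) (.nd (nat_lit 5) 
(.lf (nat_lit 91280) (.g (nat_lit 875) (.e (nat_lit 2198) (nat_lit 144) (.e (nat_lit 720941) (nat_lit 22) (.e (nat_lit 90172) (nat_lit 14) (.e (nat_lit 180243) (nat_lit 5) .nil)))) .nil)) 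
(.lf (nat_lit 91312) (.g (nat_lit 2351) (.e (nat_lit 2200) (nat_lit 144) (.e (nat_lit 720943) (nat_lit 23) (.e (nat_lit 98317) (nat_lit 9) (.e (nat_lit 336186) (nat_lit 11) .nil)))) .nil)))) (.nd (nat_lit 4) (.nd (nat_lit 5) 
(.lf (nat_lit 91272) (.g (nat_lit 2525) (.e (nat_lit 2198) (nat_lit 144) (.e (nat_lit 720940) (nat_lit 22) (.e (nat_lit 90170) (nat_lit 13) (.e (nat_lit 172065) (nat_lit 3) (.e (nat_lit 204830) (nat_lit 18) (.e (nat_lit 57663) (nat_lit 152) (.e (nat_lit 2450) (nat_lit 157) (.e (nat_lit 2685) (nat_lit 168) (.e (nat_lit 204817) (nat_lit 17) .nil))))))))) (.g (nat_lit 5) .nil .nil))) 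
(.lf (nat_lit 91304) (.g (nat_lit 1951) (.e (nat_lit 2198) (nat_lit 144) (.e (nat_lit 720956) (nat_lit 25) (.e (nat_lit 114715) (nat_lit 22) (.e (nat_lit 90170) (nat_lit 13) (.e (nat_lit 179968) (nat_lit 20) (.e (nat_lit 114712) (nat_lit 21) (.e (nat_lit 57851) (nat_lit 252) (.e (nat_lit 57347) (nat_lit 0) .nil)))))))) (.g (nat_lit 4) .nil .nil)))) (.nd (nat_lit 5) 
(.lf (nat_lit 91288) (.g (nat_lit 4315) (.e (nat_lit 2198) (nat_lit 144) (.e (nat_lit 720945) (nat_lit 23) (.e (nat_lit 98333) (nat_lit 18) (.e (nat_lit 164327) (nat_lit 230) (.e (nat_lit 163873) (nat_lit 3) (.e (nat_lit 204809) (nat_lit 9) (.e (nat_lit 426139) (nat_lit 3) (.e (nat_lit 204817) (nat_lit 17) .nil)))))))) (.g (nat_lit 0) .nil .nil))) 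
(.lf (nat_lit 91320) (.g (nat_lit 1144) (.e (nat_lit 2201) (nat_lit 144) (.e (nat_lit 720956) (nat_lit 25) (.e (nat_lit 114716) (nat_lit 22) (.e (nat_lit 90181) (nat_lit 16) (.e (nat_lit 237312) (nat_lit 192) .nil))))) .nil))))) (.nd (nat_lit 3) (.nd (nat_lit 4) (.nd (nat_lit 5) 
(.lf (nat_lit 91268) (.g (nat_lit 1980) (.e (nat_lit 2198) (nat_lit 144) (.e (nat_lit 720940) (nat_lit 22) (.e (nat_lit 90170) (nat_lit 13) (.e (nat_lit 172062) (nat_lit 2) (.e (nat_lit 204544) (nat_lit 2) .nil))))) .nil)) 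
(.lf (nat_lit 91300) (.g (nat_lit 4633) (.e (nat_lit 2198) (nat_lit 144) (.e (nat_lit 720945) (nat_lit 23) (.e (nat_lit 98356) (nat_lit 26) (.e (nat_lit 426438) (nat_lit 18) (.e (nat_lit 98334) (nat_lit 18) (.e (nat_lit 164330) (nat_lit 230) (.e (nat_lit 163872) (nat_lit 3) (.e (nat_lit 204817) (nat_lit 17) .nil)))))))) (.g (nat_lit 0) .nil .nil)))) (.nd (nat_lit 5) 
(.lf (nat_lit 91284) (.g (nat_lit 4296) (.e (nat_lit 2198) (nat_lit 144) (.e (nat_lit 720941) (nat_lit 22) (.e (nat_lit 90172) (nat_lit 14) (.e (nat_lit 180244) (nat_lit 5) (.e (nat_lit 532499) (nat_lit 1) (.e (nat_lit 57692) (nat_lit 156) (.e (nat_lit 163874) (nat_lit 3) (.e (nat_lit 204815) (nat_lit 17) .nil)))))))) (.g (nat_lit 7) .nil .nil))) 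
(.lf (nat_lit 91316) (.g (nat_lit 2642) (.e (nat_lit 2201) (nat_lit 144) (.e (nat_lit 720943) (nat_lit 23) (.e (nat_lit 98317) (nat_lit 9) (.e (nat_lit 336088) (nat_lit 9) (.e (nat_lit 336019) (nat_lit 3) .nil))))) .nil)))) (.nd (nat_lit 4) (.nd (nat_lit 5) 
(.lf (nat_lit 91276) (.g (nat_lit 2434) (.e (nat_lit 2198) (nat_lit 144) (.e (nat_lit 720940) (nat_lit 22) (.e (nat_lit 90170) (nat_lit 13) (.e (nat_lit 172065) (nat_lit 3) (.e (nat_lit 204830) (nat_lit 18) (.e (nat_lit 57663) (nat_lit 152) (.e (nat_lit 2476) (nat_lit 157) (.e (nat_lit 2683) (nat_lit 168) (.e (nat_lit 204817) (nat_lit 17) .nil))))))))) (.g (nat_lit 5) .nil .nil))) 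
(.lf (nat_lit 91308) (.g (nat_lit 1039) (.e (nat_lit 2200) (nat_lit 144) (.e (nat_lit 720940) (nat_lit 22) (.e (nat_lit 90170) (nat_lit 13) (.e (nat_lit 179968) (nat_lit 20) .nil)))) .nil))) (.nd (nat_lit 5) 
(.lf (nat_lit 91292) (.g (nat_lit 1995) (.e (nat_lit 2198) (nat_lit 144) (.e (nat_lit 720945) (nat_lit 23) (.e (nat_lit 98333) (nat_lit 18) (.e (nat_lit 164399) (nat_lit 256) (.e (nat_lit 57379) (nat_lit 3) .nil))))) .nil)) 
(.lf (nat_lit 91324) (.g (nat_lit 2347) (.e (nat_lit 2202) (nat_lit 144) (.e (nat_lit 720943) (nat_lit 23) (.e (nat_lit 98317) (nat_lit 9) (.e (nat_lit 336184) (nat_lit 11) .nil)))) .nil)))))) (.nd (nat_lit 2) (.nd (nat_lit 3) (.nd (nat_lit 4) (.nd (nat_lit 5) 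
(.lf (nat_lit 91266) (.g (nat_lit 269) (.e (nat_lit 2198) (nat_lit 144) (.e (nat_lit 720933) (nat_lit 21) (.e (nat_lit 57870) (nat_lit 264) .nil))) .nil)) 
(.lf (nat_lit 91298) (.g (nat_lit 1765) (.e (nat_lit 2198) (nat_lit 144) (.e (nat_lit 720945) (nat_lit 23) (.e (nat_lit 98354) (nat_lit 26) (.e (nat_lit 426125) (nat_lit 2) (.e (nat_lit 204544) (nat_lit 2) (.e (nat_lit 24580) (nat_lit 0) (.e (nat_lit 1815) (nat_lit 121) (.e (nat_lit 532483) (nat_lit 0) .nil)))))))) (.g (nat_lit 6) .nil .nil)))) (.nd (nat_lit 5) 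
(.lf (nat_lit 91282) (.g (nat_lit 4444) (.e (nat_lit 2198) (nat_lit 144) (.e (nat_lit 720941) (nat_lit 22) (.e (nat_lit 90172) (nat_lit 14) (.e (nat_lit 180244) (nat_lit 5) (.e (nat_lit 532499) (nat_lit 1) (.e (nat_lit 57691) (nat_lit 156) (.e (nat_lit 163875) (nat_lit 3) (.e (nat_lit 204815) (nat_lit 17) .nil)))))))) (.g (nat_lit 7) .nil .nil))) 
(.lf (nat_lit 91314) (.g (nat_lit 2683) (.e (nat_lit 2201) (nat_lit 144) (.e (nat_lit 720929) (nat_lit 21) (.e (nat_lit 57847) (nat_lit 252) (.e (nat_lit 57409) (nat_lit 12) (.e (nat_lit 336211) (nat_lit 13) .nil))))) .nil)))) (.nd (nat_lit 4) (.nd (nat_lit 5) 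
(.lf (nat_lit 91274) (.g (nat_lit 2514) (.e (nat_lit 2198) (nat_lit 144) (.e (nat_lit 720940) (nat_lit 22) (.e (nat_lit 90170) (nat_lit 13) (.e (nat_lit 172065) (nat_lit 3) (.e (nat_lit 204830) (nat_lit 18) (.e (nat_lit 57663) (nat_lit 152) (.e (nat_lit 2466) (nat_lit 157) (.e (nat_lit 2683) (nat_lit 168) (.e (nat_lit 204817) (nat_lit 17) .nil))))))))) (.g (nat_lit 5) .nil .nil))) 
(.lf (nat_lit 91306) (.g (nat_lit 265) (.e (nat_lit 2200) (nat_lit 144) (.e (nat_lit 720933) (nat_lit 21) (.e (nat_lit 57870) (nat_lit 264) .nil))) .nil))) (.nd (nat_lit 5) 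
(.lf (nat_lit 91290) (.g (nat_lit 2005) (.e (nat_lit 2198) (nat_lit 144) (.e (nat_lit 720945) (nat_lit 23) (.e (nat_lit 98333) (nat_lit 18) (.e (nat_lit 164399) (nat_lit 256) (.e (nat_lit 57375) (nat_lit 2) .nil))))) .nil)) 
(.lf (nat_lit 91322) (.g (nat_lit 2374) (.e (nat_lit 2202) (nat_lit 144) (.e (nat_lit 720943) (nat_lit 23) (.e (nat_lit 98317) (nat_lit 9) (.e (nat_lit 336087) (nat_lit 9) .nil)))) .nil))))) (.nd (nat_lit 3) (.nd (nat_lit 4) (.nd (nat_lit 5) 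
(.lf (nat_lit 91270) (.g (nat_lit 1085) (.e (nat_lit 2198) (nat_lit 144) (.e (nat_lit 720940) (nat_lit 22) (.e (nat_lit 90170) (nat_lit 13) (.e (nat_lit 172065) (nat_lit 3) .nil)))) .nil)) 
(.lf (nat_lit 91302) (.g (nat_lit 2798) (.e (nat_lit 2198) (nat_lit 144) (.e (nat_lit 720945) (nat_lit 23) (.e (nat_lit 98356) (nat_lit 26) (.e (nat_lit 426438) (nat_lit 18) (.e (nat_lit 98335) (nat_lit 18) (.e (nat_lit 164305) (nat_lit 226) (.e (nat_lit 2450) (nat_lit 157) (.e (nat_lit 2685) (nat_lit 168) (.e (nat_lit 204817) (nat_lit 17) .nil))))))))) (.g (nat_lit 6) .nil .nil)))) 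
(.nd (nat_lit 5) 
(.lf (nat_lit 91286) (.g (nat_lit 3136) (.e (nat_lit 2198) (nat_lit 144) (.e (nat_lit 720941) (nat_lit 22) (.e (nat_lit 90172) (nat_lit 14) (.e (nat_lit 180244) (nat_lit 5) (.e (nat_lit 532499) (nat_lit 1) (.e (nat_lit 57694) (nat_lit 157) (.e (nat_lit 229389) (nat_lit 3) (.e (nat_lit 204817) (nat_lit 17) .nil)))))))) (.g (nat_lit 6) .nil .nil))) 
(.lf (nat_lit 91318) (.g (nat_lit 2352) (.e (nat_lit 2201) (nat_lit 144) (.e (nat_lit 720943) (nat_lit 23) (.e (nat_lit 98317) (nat_lit 9) (.e (nat_lit 336186) (nat_lit 11) .nil)))) .nil)))) (.nd (nat_lit 4) (.nd (nat_lit 5) 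
(.lf (nat_lit 91278) (.g (nat_lit 2621) (.e (nat_lit 2198) (nat_lit 144) (.e (nat_lit 720940) (nat_lit 22) (.e (nat_lit 90170) (nat_lit 13) (.e (nat_lit 172067) (nat_lit 3) (.e (nat_lit 204830) (nat_lit 18) (.e (nat_lit 57663) (nat_lit 152) (.e (nat_lit 2461) (nat_lit 157) (.e (nat_lit 2684) (nat_lit 168) (.e (nat_lit 204817) (nat_lit 17) .nil))))))))) (.g (nat_lit 5) .nil .nil))) 
(.lf (nat_lit 91310) (.g (nat_lit 2274) (.e (nat_lit 2200) (nat_lit 144) (.e (nat_lit 720943) (nat_lit 23) (.e (nat_lit 98317) (nat_lit 9) (.e (nat_lit 336088) (nat_lit 9) .nil)))) .nil))) (.nd (nat_lit 5) 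
(.lf (nat_lit 91294) (.g (nat_lit 2366) (.e (nat_lit 2198) (nat_lit 144) (.e (nat_lit 720945) (nat_lit 23) (.e (nat_lit 98334) (nat_lit 18) (.e (nat_lit 164398) (nat_lit 256) (.e (nat_lit 57379) (nat_lit 3) .nil))))) .nil)) 
(.lf (nat_lit 91326) (.g (nat_lit 1939) (.e (nat_lit 2202) (nat_lit 144) (.e (nat_lit 720954) (nat_lit 25) (.e (nat_lit 114714) (nat_lit 22) (.e (nat_lit 90170) (nat_lit 13) (.e (nat_lit 179968) (nat_lit 20) (.e (nat_lit 114712) (nat_lit 21) (.e (nat_lit 57851) (nat_lit 252) (.e (nat_lit 57347) (nat_lit 0) .nil)))))))) (.g (nat_lit 4) .nil .nil)))))))) 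
(.nd (nat_lit 1) (.nd (nat_lit 2) (.nd (nat_lit 3) (.nd (nat_lit 4) (.nd (nat_lit 5) 
(.lf (nat_lit 91265) (.g (nat_lit 1835) (.e (nat_lit 2198) (nat_lit 144) (.e (nat_lit 720933) (nat_lit 21) (.e (nat_lit 57849) (nat_lit 252) (.e (nat_lit 57437) (nat_lit 17) (.e (nat_lit 376842) (nat_lit 11) .nil))))) .nil)) 
(.lf (nat_lit 91297) (.g (nat_lit 2632) (.e (nat_lit 2198) (nat_lit 144) (.e (nat_lit 720945) (nat_lit 23) (.e (nat_lit 98334) (nat_lit 18) (.e (nat_lit 164399) (nat_lit 256) (.e (nat_lit 57379) (nat_lit 3) (.e (nat_lit 98377) (nat_lit 30) (.e (nat_lit 458789) (nat_lit 23) (.e (nat_lit 532484) (nat_lit 0) .nil)))))))) (.g (nat_lit 5) .nil .nil)))) (.nd (nat_lit 5) 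
(.lf (nat_lit 91281) (.g (nat_lit 4817) (.e (nat_lit 2198) (nat_lit 144) (.e (nat_lit 720941) (nat_lit 22) (.e (nat_lit 90172) (nat_lit 14) (.e (nat_lit 180244) (nat_lit 5) (.e (nat_lit 532499) (nat_lit 1) (.e (nat_lit 57688) (nat_lit 156) (.e (nat_lit 163873) (nat_lit 3) (.e (nat_lit 204817) (nat_lit 17) .nil)))))))) (.g (nat_lit 0) .nil .nil))) 
(.lf (nat_lit 91313) (.g (nat_lit 1884) (.e (nat_lit 2200) (nat_lit 144) (.e (nat_lit 720956) (nat_lit 25) (.e (nat_lit 114715) (nat_lit 22) (.e (nat_lit 90170) (nat_lit 13) (.e (nat_lit 179968) (nat_lit 20) .nil))))) .nil)))) (.nd (nat_lit 4) (.nd (nat_lit 5) 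
(.lf (nat_lit 91273) (.g (nat_lit 2405) (.e (nat_lit 2198) (nat_lit 144) (.e (nat_lit 720940) (nat_lit 22) (.e (nat_lit 90170) (nat_lit 13) (.e (nat_lit 172065) (nat_lit 3) (.e (nat_lit 204830) (nat_lit 18) (.e (nat_lit 57663) (nat_lit 152) (.e (nat_lit 2456) (nat_lit 157) (.e (nat_lit 2683) (nat_lit 168) (.e (nat_lit 204817) (nat_lit 17) .nil))))))))) (.g (nat_lit 5) .nil .nil))) 
(.lf (nat_lit 91305) (.g (nat_lit 1115) (.e (nat_lit 2198) (nat_lit 144) (.e (nat_lit 720956) (nat_lit 25) (.e (nat_lit 114716) (nat_lit 22) (.e (nat_lit 90181) (nat_lit 16) (.e (nat_lit 237312) (nat_lit 192) .nil))))) .nil))) (.nd (nat_lit 5) 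
(.lf (nat_lit 91289) (.g (nat_lit 1902) (.e (nat_lit 2198) (nat_lit 144) (.e (nat_lit 720945) (nat_lit 23) (.e (nat_lit 98333) (nat_lit 18) (.e (nat_lit 164398) (nat_lit 256) (.e (nat_lit 57379) (nat_lit 3) .nil))))) .nil)) 
(.lf (nat_lit 91321) (.g (nat_lit 1965) (.e (nat_lit 2202) (nat_lit 144) (.e (nat_lit 720929) (nat_lit 21) (.e (nat_lit 57847) (nat_lit 252) (.e (nat_lit 57410) (nat_lit 12) .nil)))) .nil))))) (.nd (nat_lit 3) (.nd (nat_lit 4) (.nd (nat_lit 5) 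
(.lf (nat_lit 91269) (.g (nat_lit 2100) (.e (nat_lit 2198) (nat_lit 144) (.e (nat_lit 720940) (nat_lit 22) (.e (nat_lit 90170) (nat_lit 13) (.e (nat_lit 172064) (nat_lit 2) (.e (nat_lit 204544) (nat_lit 2) .nil))))) .nil)) 
(.lf (nat_lit 91301) (.g (nat_lit 1763) (.e (nat_lit 2198) (nat_lit 144) (.e (nat_lit 720945) (nat_lit 23) (.e (nat_lit 98356) (nat_lit 26) (.e (nat_lit 426438) (nat_lit 18) (.e (nat_lit 98335) (nat_lit 18) .nil))))) .nil))) (.nd (nat_lit 5) 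
(.lf (nat_lit 91285) (.g (nat_lit 4427) (.e (nat_lit 2198) (nat_lit 144) (.e (nat_lit 720941) (nat_lit 22) (.e (nat_lit 90172) (nat_lit 14) (.e (nat_lit 180244) (nat_lit 5) (.e (nat_lit 532499) (nat_lit 1) (.e (nat_lit 57692) (nat_lit 156) (.e (nat_lit 163874) (nat_lit 3) (.e (nat_lit 204817) (nat_lit 17) .nil)))))))) (.g (nat_lit 0) .nil .nil))) 
(.lf (nat_lit 91317) (.g (nat_lit 2348) (.e (nat_lit 2201) (nat_lit 144) (.e (nat_lit 720943) (nat_lit 23) (.e (nat_lit 98317) (nat_lit 9) (.e (nat_lit 336184) (nat_lit 11) .nil)))) .nil)))) (.nd (nat_lit 4) (.nd (nat_lit 5) 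
(.lf (nat_lit 91277) (.g (nat_lit 2791) (.e (nat_lit 2198) (nat_lit 144) (.e (nat_lit 720940) (nat_lit 22) (.e (nat_lit 90170) (nat_lit 13) (.e (nat_lit 172065) (nat_lit 3) (.e (nat_lit 204830) (nat_lit 18) (.e (nat_lit 57665) (nat_lit 152) (.e (nat_lit 2466) (nat_lit 157) (.e (nat_lit 2683) (nat_lit 168) (.e (nat_lit 204817) (nat_lit 17) .nil))))))))) (.g (nat_lit 5) .nil .nil))) 
(.lf (nat_lit 91309) (.g (nat_lit 2363) (.e (nat_lit 2200) (nat_lit 144) (.e (nat_lit 720943) (nat_lit 23) (.e (nat_lit 98317) (nat_lit 9) (.e (nat_lit 336087) (nat_lit 9) .nil)))) .nil))) (.nd (nat_lit 5) 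
(.lf (nat_lit 91293) (.g (nat_lit 2420) (.e (nat_lit 2198) (nat_lit 144) (.e (nat_lit 720945) (nat_lit 23) (.e (nat_lit 98334) (nat_lit 18) (.e (nat_lit 164398) (nat_lit 256) (.e (nat_lit 57378) (nat_lit 3) .nil))))) .nil)) 
(.lf (nat_lit 91325) (.g (nat_lit 2351) (.e (nat_lit 2202) (nat_lit 144) (.e (nat_lit 720943) (nat_lit 23) (.e (nat_lit 98317) (nat_lit 9) (.e (nat_lit 336186) (nat_lit 11) .nil)))) .nil)))))) (.nd (nat_lit 2) (.nd (nat_lit 3) (.nd (nat_lit 4) (.nd (nat_lit 5) 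
(.lf (nat_lit 91267) (.g (nat_lit 1801) (.e (nat_lit 2198) (nat_lit 144) (.e (nat_lit 720938) (nat_lit 22) (.e (nat_lit 90172) (nat_lit 14) (.e (nat_lit 180244) (nat_lit 5) (.e (nat_lit 532503) (nat_lit 1) .nil))))) .nil)) 
(.lf (nat_lit 91299) (.g (nat_lit 1992) (.e (nat_lit 2198) (nat_lit 144) (.e (nat_lit 720945) (nat_lit 23) (.e (nat_lit 98356) (nat_lit 26) (.e (nat_lit 426428) (nat_lit 17) (.e (nat_lit 98048) (nat_lit 5) (.e (nat_lit 81664) (nat_lit 5) (.e (nat_lit 532481) (nat_lit 0) .nil))))))) (.g (nat_lit 4) .nil .nil)))) (.nd (nat_lit 5) 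
(.lf (nat_lit 91283) (.g (nat_lit 4495) (.e (nat_lit 2198) (nat_lit 144) (.e (nat_lit 720941) (nat_lit 22) (.e (nat_lit 90172) (nat_lit 14) (.e (nat_lit 180244) (nat_lit 5) (.e (nat_lit 532499) (nat_lit 1) (.e (nat_lit 57691) (nat_lit 156) (.e (nat_lit 163875) (nat_lit 3) (.e (nat_lit 204817) (nat_lit 17) .nil)))))))) (.g (nat_lit 0) .nil .nil))) 
(.lf (nat_lit 91315) (.g (nat_lit 2179) (.e (nat_lit 2201) (nat_lit 144) (.e (nat_lit 720943) (nat_lit 23) (.e (nat_lit 98317) (nat_lit 9) (.e (nat_lit 336087) (nat_lit 9) .nil)))) .nil)))) (.nd (nat_lit 4) (.nd (nat_lit 5) 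
(.lf (nat_lit 91275) (.g (nat_lit 2478) (.e (nat_lit 2198) (nat_lit 144) (.e (nat_lit 720940) (nat_lit 22) (.e (nat_lit 90170) (nat_lit 13) (.e (nat_lit 172065) (nat_lit 3) (.e (nat_lit 204830) (nat_lit 18) (.e (nat_lit 57663) (nat_lit 152) (.e (nat_lit 2467) (nat_lit 157) (.e (nat_lit 2683) (nat_lit 168) (.e (nat_lit 204817) (nat_lit 17) .nil))))))))) (.g (nat_lit 5) .nil .nil))) 
(.lf (nat_lit 91307) (.g (nat_lit 2692) (.e (nat_lit 2200) (nat_lit 144) (.e (nat_lit 720939) (nat_lit 22) (.e (nat_lit 90170) (nat_lit 13) (.e (nat_lit 179968) (nat_lit 20) (.e (nat_lit 114710) (nat_lit 21) (.e (nat_lit 57854) (nat_lit 252) (.e (nat_lit 57389) (nat_lit 5) (.e (nat_lit 114702) (nat_lit 20) .nil)))))))) (.g (nat_lit 7) .nil .nil)))) (.nd (nat_lit 5) 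
(.lf (nat_lit 91291) (.g (nat_lit 3193) (.e (nat_lit 2198) (nat_lit 144) (.e (nat_lit 720945) (nat_lit 23) (.e (nat_lit 98333) (nat_lit 18) (.e (nat_lit 164399) (nat_lit 256) (.e (nat_lit 57377) (nat_lit 3) (.e (nat_lit 98376) (nat_lit 30) (.e (nat_lit 458789) (nat_lit 23) (.e (nat_lit 532484) (nat_lit 0) .nil)))))))) (.g (nat_lit 5) .nil .nil))) 
(.lf (nat_lit 91323) (.g (nat_lit 2375) (.e (nat_lit 2202) (nat_lit 144) (.e (nat_lit 720943) (nat_lit 23) (.e (nat_lit 98317) (nat_lit 9) (.e (nat_lit 336088) (nat_lit 9) .nil)))) .nil))))) (.nd (nat_lit 3) (.nd (nat_lit 4) (.nd (nat_lit 5) 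
(.lf (nat_lit 91271) (.g (nat_lit 1569) (.e (nat_lit 2198) (nat_lit 144) (.e (nat_lit 720940) (nat_lit 22) (.e (nat_lit 90170) (nat_lit 13) (.e (nat_lit 172065) (nat_lit 3) (.e (nat_lit 204830) (nat_lit 18) .nil))))) .nil)) 
(.lf (nat_lit 91303) (.g (nat_lit 4350) (.e (nat_lit 2198) (nat_lit 144) (.e (nat_lit 720945) (nat_lit 23) (.e (nat_lit 98356) (nat_lit 26) (.e (nat_lit 426438) (nat_lit 18) (.e (nat_lit 98335) (nat_lit 18) (.e (nat_lit 164330) (nat_lit 230) (.e (nat_lit 163872) (nat_lit 3) (.e (nat_lit 204817) (nat_lit 17) .nil)))))))) (.g (nat_lit 8) .nil .nil)))) (.nd (nat_lit 5) 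
(.lf (nat_lit 91287) (.g (nat_lit 4627) (.e (nat_lit 2198) (nat_lit 144) (.e (nat_lit 720941) (nat_lit 22) (.e (nat_lit 90172) (nat_lit 14) (.e (nat_lit 180244) (nat_lit 5) (.e (nat_lit 532503) (nat_lit 1) (.e (nat_lit 57688) (nat_lit 156) (.e (nat_lit 163873) (nat_lit 3) (.e (nat_lit 204817) (nat_lit 17) .nil)))))))) (.g (nat_lit 0) .nil .nil))) 
(.lf (nat_lit 91319) (.g (nat_lit 1912) (.e (nat_lit 2201) (nat_lit 144) (.e (nat_lit 720956) (nat_lit 25) (.e (nat_lit 114715) (nat_lit 22) (.e (nat_lit 90170) (nat_lit 13) (.e (nat_lit 179968) (nat_lit 20) .nil))))) .nil)))) (.nd (nat_lit 4) (.nd (nat_lit 5) 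
(.lf (nat_lit 91279) (.g (nat_lit 1319) (.e (nat_lit 2198) (nat_lit 144) (.e (nat_lit 720940) (nat_lit 22) (.e (nat_lit 90170) (nat_lit 13) (.e (nat_lit 179968) (nat_lit 20) (.e (nat_lit 114710) (nat_lit 21) (.e (nat_lit 57847) (nat_lit 252) (.e (nat_lit 57390) (nat_lit 5) (.e (nat_lit 114702) (nat_lit 20) .nil)))))))) (.g (nat_lit 5) .nil .nil))) 
(.lf (nat_lit 91311) (.g (nat_lit 2347) (.e (nat_lit 2200) (nat_lit 144) (.e (nat_lit 720943) (nat_lit 23) (.e (nat_lit 98317) (nat_lit 9) (.e (nat_lit 336184) (nat_lit 11) .nil)))) .nil))) (.nd (nat_lit 5) 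
(.lf (nat_lit 91295) (.g (nat_lit 4371) (.e (nat_lit 2198) (nat_lit 144) (.e (nat_lit 720945) (nat_lit 23) (.e (nat_lit 98334) (nat_lit 18) (.e (nat_lit 164398) (nat_lit 256) (.e (nat_lit 57379) (nat_lit 3) (.e (nat_lit 98376) (nat_lit 30) (.e (nat_lit 458789) (nat_lit 23) (.e (nat_lit 532484) (nat_lit 0) .nil)))))))) (.g (nat_lit 0) .nil .nil))) 
(.lf (nat_lit 91327) (.g (nat_lit 629) (.e (nat_lit 2202) (nat_lit 144) (.e (nat_lit 720956) (nat_lit 25) (.e (nat_lit 114716) (nat_lit 22) (.e (nat_lit 90169) (nat_lit 13) .nil)))) .nil))))))))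

noncomputable def tv1249 : DT := (.nd (nat_lit 0) (.nd (nat_lit 1) (.nd (nat_lit 2) (.nd (nat_lit 3) (.nd (nat_lit 4) (.nd (nat_lit 5) 
(.lf (nat_lit 91328) (.g (nat_lit 2066) (.e (nat_lit 2202) (nat_lit 144) (.e (nat_lit 720956) (nat_lit 25) (.e (nat_lit 114716) (nat_lit 22) (.e (nat_lit 90169) (nat_lit 13) (.e (nat_lit 179968) (nat_lit 20) (.e (nat_lit 114710) (nat_lit 21) (.e (nat_lit 57847) (nat_lit 252) (.e (nat_lit 57345) (nat_lit 0) .nil)))))))) (.g (nat_lit 7) .nil .nil))) 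
(.lf (nat_lit 91360) (.g (nat_lit 2050) (.e (nat_lit 2203) (nat_lit 144) (.e (nat_lit 720941) (nat_lit 22) (.e (nat_lit 90172) (nat_lit 14) (.e (nat_lit 180244) (nat_lit 5) (.e (nat_lit 532575) (nat_lit 17) (.e (nat_lit 7098) (nat_lit 380) (.e (nat_lit 164096) (nat_lit 86) (.e (nat_lit 532487) (nat_lit 0) .nil)))))))) (.g (nat_lit 5) .nil .nil)))) (.nd (nat_lit 5) 
(.lf (nat_lit 91344) (.g (nat_lit 2997) (.e (nat_lit 2203) (nat_lit 144) (.e (nat_lit 720941) (nat_lit 22) (.e (nat_lit 90159) (nat_lit 11) (.e (nat_lit 24628) (nat_lit 9) (.e (nat_lit 336019) (nat_lit 3) (.e (nat_lit 98356) (nat_lit 26) (.e (nat_lit 426361) (nat_lit 15) .nil))))))) (.g (nat_lit 6) .nil .nil))) 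
(.lf (nat_lit 91376) (.g (nat_lit 2588) (.e (nat_lit 2205) (nat_lit 144) (.e (nat_lit 720955) (nat_lit 25) (.e (nat_lit 114716) (nat_lit 22) (.e (nat_lit 90185) (nat_lit 17) (.e (nat_lit 237585) (nat_lit 1) (.e (nat_lit 164332) (nat_lit 230) (.e (nat_lit 163884) (nat_lit 5) (.e (nat_lit 221185) (nat_lit 0) .nil)))))))) (.g (nat_lit 8) .nil .nil))))) (.nd (nat_lit 4) (.nd (nat_lit 5) 
(.lf (nat_lit 91336) (.g (nat_lit 2888) (.e (nat_lit 2203) (nat_lit 144) (.e (nat_lit 720938) (nat_lit 22) (.e (nat_lit 90160) (nat_lit 11) (.e (nat_lit 24628) (nat_lit 9) (.e (nat_lit 336019) (nat_lit 3) (.e (nat_lit 98356) (nat_lit 26) (.e (nat_lit 426361) (nat_lit 15) .nil))))))) (.g (nat_lit 6) .nil .nil))) 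
(.lf (nat_lit 91368) (.g (nat_lit 1637) (.e (nat_lit 2203) (nat_lit 144) (.e (nat_lit 720954) (nat_lit 25) (.e (nat_lit 114714) (nat_lit 22) (.e (nat_lit 90165) (nat_lit 12) (.e (nat_lit 171776) (nat_lit 192) (.e (nat_lit 73730) (nat_lit 0) (.e (nat_lit 7261) (nat_lit 384) (.e (nat_lit 57347) (nat_lit 0) .nil)))))))) (.g (nat_lit 4) .nil .nil)))) (.nd (nat_lit 5) 
(.lf (nat_lit 91352) (.g (nat_lit 5208) (.e (nat_lit 2203) (nat_lit 144) (.e (nat_lit 720941) (nat_lit 22) (.e (nat_lit 90172) (nat_lit 14) (.e (nat_lit 180244) (nat_lit 5) (.e (nat_lit 532499) (nat_lit 1) (.e (nat_lit 57691) (nat_lit 156) (.e (nat_lit 163875) (nat_lit 3) (.e (nat_lit 204815) (nat_lit 17) .nil)))))))) (.g (nat_lit 0) .nil .nil))) 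
(.lf (nat_lit 91384) (.g (nat_lit 2433) (.e (nat_lit 2207) (nat_lit 144) (.e (nat_lit 720929) (nat_lit 21) (.e (nat_lit 57847) (nat_lit 252) (.e (nat_lit 57411) (nat_lit 12) (.e (nat_lit 336211) (nat_lit 13) .nil))))) .nil))))) (.nd (nat_lit 3) (.nd (nat_lit 4) (.nd (nat_lit 5) 
(.lf (nat_lit 91332) (.g (nat_lit 3005) (.e (nat_lit 2203) (nat_lit 144) (.e (nat_lit 720938) (nat_lit 22) (.e (nat_lit 90158) (nat_lit 11) (.e (nat_lit 24628) (nat_lit 9) (.e (nat_lit 336019) (nat_lit 3) (.e (nat_lit 98356) (nat_lit 26) (.e (nat_lit 426361) (nat_lit 15) .nil))))))) (.g (nat_lit 6) .nil .nil))) 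
(.lf (nat_lit 91364) (.g (nat_lit 2063) (.e (nat_lit 2203) (nat_lit 144) (.e (nat_lit 720943) (nat_lit 23) (.e (nat_lit 98317) (nat_lit 9) (.e (nat_lit 336087) (nat_lit 9) (.e (nat_lit 336019) (nat_lit 3) (.e (nat_lit 98356) (nat_lit 26) (.e (nat_lit 426361) (nat_lit 15) .nil))))))) (.g (nat_lit 4) .nil .nil)))) (.nd (nat_lit 5) 
(.lf (nat_lit 91348) (.g (nat_lit 3161) (.e (nat_lit 2203) (nat_lit 144) (.e (nat_lit 720941) (nat_lit 22) (.e (nat_lit 90160) (nat_lit 11) (.e (nat_lit 24643) (nat_lit 11) (.e (nat_lit 368676) (nat_lit 21) (.e (nat_lit 516146) (nat_lit 9) (.e (nat_lit 426361) (nat_lit 15) .nil))))))) (.g (nat_lit 0) .nil .nil))) 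
(.lf (nat_lit 91380) (.g (nat_lit 2812) (.e (nat_lit 2206) (nat_lit 144) (.e (nat_lit 720943) (nat_lit 23) (.e (nat_lit 98317) (nat_lit 9) (.e (nat_lit 336185) (nat_lit 11) .nil)))) .nil)))) (.nd (nat_lit 4) (.nd (nat_lit 5) 
(.lf (nat_lit 91340) (.g (nat_lit 2135) (.e (nat_lit 2203) (nat_lit 144) (.e (nat_lit 720938) (nat_lit 22) (.e (nat_lit 90172) (nat_lit 14) (.e (nat_lit 180244) (nat_lit 5) (.e (nat_lit 532502) (nat_lit 1) (.e (nat_lit 57692) (nat_lit 156) (.e (nat_lit 163874) (nat_lit 3) (.e (nat_lit 204818) (nat_lit 17) .nil)))))))) (.g (nat_lit 4) .nil .nil))) 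
(.lf (nat_lit 91372) (.g (nat_lit 1965) (.e (nat_lit 2204) (nat_lit 144) (.e (nat_lit 720929) (nat_lit 21) (.e (nat_lit 57847) (nat_lit 252) (.e (nat_lit 57410) (nat_lit 12) .nil)))) .nil))) (.nd (nat_lit 5) 
(.lf (nat_lit 91356) (.g (nat_lit 2031) (.e (nat_lit 2203) (nat_lit 144) (.e (nat_lit 720941) (nat_lit 22) (.e (nat_lit 90172) (nat_lit 14) (.e (nat_lit 180244) (nat_lit 5) (.e (nat_lit 532502) (nat_lit 1) (.e (nat_lit 57688) (nat_lit 156) (.e (nat_lit 163873) (nat_lit 3) (.e (nat_lit 204818) (nat_lit 17) .nil)))))))) (.g (nat_lit 4) .nil .nil))) 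
(.lf (nat_lit 91388) (.g (nat_lit 3576) (.e (nat_lit 2248) (nat_lit 147) (.e (nat_lit 745493) (nat_lit 6) (.e (nat_lit 81956) (nat_lit 23) (.e (nat_lit 98313) (nat_lit 9) (.e (nat_lit 335996) (nat_lit 1) (.e (nat_lit 57851) (nat_lit 252) (.e (nat_lit 57354) (nat_lit 0) .nil))))))) (.g (nat_lit 0) .nil .nil))))))) (.nd (nat_lit 2) (.nd (nat_lit 3) (.nd (nat_lit 4) (.nd (nat_lit 5) 
(.lf (nat_lit 91330) (.g (nat_lit 2397) (.e (nat_lit 2203) (nat_lit 144) (.e (nat_lit 720929) (nat_lit 21) (.e (nat_lit 57847) (nat_lit 252) (.e (nat_lit 57410) (nat_lit 12) (.e (nat_lit 336211) (nat_lit 13) .nil))))) .nil)) 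
(.lf (nat_lit 91362) (.g (nat_lit 2614) (.e (nat_lit 2203) (nat_lit 144) (.e (nat_lit 720941) (nat_lit 22) (.e (nat_lit 90174) (nat_lit 14) (.e (nat_lit 180243) (nat_lit 5) (.e (nat_lit 532502) (nat_lit 1) (.e (nat_lit 57688) (nat_lit 156) (.e (nat_lit 163873) (nat_lit 3) (.e (nat_lit 204815) (nat_lit 17) .nil)))))))) (.g (nat_lit 5) .nil .nil)))) (.nd (nat_lit 5) 
(.lf (nat_lit 91346) (.g (nat_lit 1300) (.e (nat_lit 2203) (nat_lit 144) (.e (nat_lit 720941) (nat_lit 22) (.e (nat_lit 90160) (nat_lit 11) (.e (nat_lit 24631) (nat_lit 9) .nil)))) .nil)) 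
(.lf (nat_lit 91378) (.g (nat_lit 1292) (.e (nat_lit 2206) (nat_lit 144) (.e (nat_lit 720937) (nat_lit 22) (.e (nat_lit 90128) (nat_lit 9) (.e (nat_lit 334) (nat_lit 26) (.e (nat_lit 376867) (nat_lit 23) .nil))))) .nil)))) (.nd (nat_lit 4) (.nd (nat_lit 5) 
(.lf (nat_lit 91338) (.g (nat_lit 2493) (.e (nat_lit 2203) (nat_lit 144) (.e (nat_lit 720938) (nat_lit 22) (.e (nat_lit 90160) (nat_lit 11) (.e (nat_lit 24644) (nat_lit 11) (.e (nat_lit 368676) (nat_lit 21) (.e (nat_lit 516146) (nat_lit 9) (.e (nat_lit 426361) (nat_lit 15) .nil))))))) (.g (nat_lit 6) .nil .nil))) 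
(.lf (nat_lit 91370) (.g (nat_lit 1915) (.e (nat_lit 2203) (nat_lit 144) (.e (nat_lit 720955) (nat_lit 25) (.e (nat_lit 114715) (nat_lit 22) (.e (nat_lit 90170) (nat_lit 13) (.e (nat_lit 179968) (nat_lit 20) (.e (nat_lit 114712) (nat_lit 21) (.e (nat_lit 57851) (nat_lit 252) (.e (nat_lit 57347) (nat_lit 0) .nil)))))))) (.g (nat_lit 4) .nil .nil)))) (.nd (nat_lit 5) 
(.lf (nat_lit 91354) (.g (nat_lit 4277) (.e (nat_lit 2203) (nat_lit 144) (.e (nat_lit 720941) (nat_lit 22) (.e (nat_lit 90172) (nat_lit 14) (.e (nat_lit 180244) (nat_lit 5) (.e (nat_lit 532499) (nat_lit 1) (.e (nat_lit 57692) (nat_lit 156) (.e (nat_lit 163869) (nat_lit 2) (.e (nat_lit 196628) (nat_lit 9) (.e (nat_lit 968) (nat_lit 81) .nil))))))))) (.g (nat_lit 7) .nil .nil))) 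
(.lf (nat_lit 91386) (.g (nat_lit 2300) (.e (nat_lit 7936) (nat_lit 144) (.e (nat_lit 720943) (nat_lit 23) (.e (nat_lit 98317) (nat_lit 9) (.e (nat_lit 336186) (nat_lit 11) .nil)))) .nil))))) (.nd (nat_lit 3) (.nd (nat_lit 4) (.nd (nat_lit 5) 
(.lf (nat_lit 91334) (.g (nat_lit 2422) (.e (nat_lit 2203) (nat_lit 144) (.e (nat_lit 720938) (nat_lit 22) (.e (nat_lit 90158) (nat_lit 11) (.e (nat_lit 24643) (nat_lit 11) (.e (nat_lit 368676) (nat_lit 21) (.e (nat_lit 516146) (nat_lit 9) (.e (nat_lit 426361) (nat_lit 15) .nil))))))) (.g (nat_lit 6) .nil .nil))) 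
(.lf (nat_lit 91366) (.g (nat_lit 2068) (.e (nat_lit 2203) (nat_lit 144) (.e (nat_lit 720943) (nat_lit 23) (.e (nat_lit 98317) (nat_lit 9) (.e (nat_lit 336184) (nat_lit 11) (.e (nat_lit 368676) (nat_lit 21) (.e (nat_lit 516146) (nat_lit 9) (.e (nat_lit 426361) (nat_lit 15) .nil))))))) (.g (nat_lit 4) .nil .nil)))) (.nd (nat_lit 5) 
(.lf (nat_lit 91350) (.g (nat_lit 4626) (.e (nat_lit 2203) (nat_lit 144) (.e (nat_lit 720941) (nat_lit 22) (.e (nat_lit 90172) (nat_lit 14) (.e (nat_lit 180244) (nat_lit 5) (.e (nat_lit 532499) (nat_lit 1) (.e (nat_lit 57688) (nat_lit 156) (.e (nat_lit 163867) (nat_lit 2) (.e (nat_lit 196628) (nat_lit 9) (.e (nat_lit 968) (nat_lit 81) .nil))))))))) (.g (nat_lit 7) .nil .nil))) 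
(.lf (nat_lit 91382) (.g (nat_lit 1823) (.e (nat_lit 2206) (nat_lit 144) (.e (nat_lit 720955) (nat_lit 25) (.e (nat_lit 114715) (nat_lit 22) (.e (nat_lit 90170) (nat_lit 13) (.e (nat_lit 179968) (nat_lit 20) .nil))))) .nil)))) (.nd (nat_lit 4) (.nd (nat_lit 5) 
(.lf (nat_lit 91342) (.g (nat_lit 1043) (.e (nat_lit 2203) (nat_lit 144) (.e (nat_lit 720940) (nat_lit 22) (.e (nat_lit 90170) (nat_lit 13) (.e (nat_lit 179968) (nat_lit 20) .nil)))) .nil)) 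
(.lf (nat_lit 91374) (.g (nat_lit 2792) (.e (nat_lit 2205) (nat_lit 144) (.e (nat_lit 720943) (nat_lit 23) (.e (nat_lit 98317) (nat_lit 9) (.e (nat_lit 336087) (nat_lit 9) (.e (nat_lit 336019) (nat_lit 3) .nil))))) .nil))) (.nd (nat_lit 5) 
(.lf (nat_lit 91358) (.g (nat_lit 4746) (.e (nat_lit 2203) (nat_lit 144) (.e (nat_lit 720941) (nat_lit 22) (.e (nat_lit 90172) (nat_lit 14) (.e (nat_lit 180244) (nat_lit 5) (.e (nat_lit 532503) (nat_lit 1) (.e (nat_lit 57688) (nat_lit 156) (.e (nat_lit 163873) (nat_lit 3) (.e (nat_lit 204815) (nat_lit 17) .nil)))))))) (.g (nat_lit 8) .nil .nil))) 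
(.lf (nat_lit 91390) (.g (nat_lit 1559) (.e (nat_lit 2250) (nat_lit 147) (.e (nat_lit 745491) (nat_lit 4) (.e (nat_lit 65619) (nat_lit 10) (.e (nat_lit 344117) (nat_lit 21) (.e (nat_lit 516195) (nat_lit 26) .nil))))) .nil))))))) (.nd (nat_lit 1) (.nd (nat_lit 2) (.nd (nat_lit 3) (.nd (nat_lit 4) (.nd (nat_lit 5) 
(.lf (nat_lit 91329) (.g (nat_lit 2070) (.e (nat_lit 2202) (nat_lit 144) (.e (nat_lit 720956) (nat_lit 25) (.e (nat_lit 114716) (nat_lit 22) (.e (nat_lit 90170) (nat_lit 13) (.e (nat_lit 179968) (nat_lit 20) .nil))))) .nil)) 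
(.lf (nat_lit 91361) (.g (nat_lit 1731) (.e (nat_lit 2203) (nat_lit 144) (.e (nat_lit 720941) (nat_lit 22) (.e (nat_lit 90174) (nat_lit 14) (.e (nat_lit 180243) (nat_lit 5) (.e (nat_lit 532502) (nat_lit 1) .nil))))) .nil))) (.nd (nat_lit 5) 
(.lf (nat_lit 91345) (.g (nat_lit 3636) (.e (nat_lit 2203) (nat_lit 144) (.e (nat_lit 720941) (nat_lit 22) (.e (nat_lit 90160) (nat_lit 11) (.e (nat_lit 24628) (nat_lit 9) (.e (nat_lit 336019) (nat_lit 3) (.e (nat_lit 98356) (nat_lit 26) (.e (nat_lit 426361) (nat_lit 15) .nil))))))) (.g (nat_lit 0) .nil .nil))) 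
(.lf (nat_lit 91377) (.g (nat_lit 1903) (.e (nat_lit 2206) (nat_lit 144) (.e (nat_lit 720929) (nat_lit 21) (.e (nat_lit 57847) (nat_lit 252) (.e (nat_lit 57409) (nat_lit 12) .nil)))) .nil)))) (.nd (nat_lit 4) (.nd (nat_lit 5) 
(.lf (nat_lit 91337) (.g (nat_lit 2370) (.e (nat_lit 2203) (nat_lit 144) (.e (nat_lit 720938) (nat_lit 22) (.e (nat_lit 90160) (nat_lit 11) (.e (nat_lit 24643) (nat_lit 11) (.e (nat_lit 368676) (nat_lit 21) (.e (nat_lit 516146) (nat_lit 9) (.e (nat_lit 426361) (nat_lit 15) .nil))))))) (.g (nat_lit 6) .nil .nil))) 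
(.lf (nat_lit 91369) (.g (nat_lit 995) (.e (nat_lit 2203) (nat_lit 144) (.e (nat_lit 720954) (nat_lit 25) (.e (nat_lit 114718) (nat_lit 23) (.e (nat_lit 98389) (nat_lit 33) .nil)))) .nil))) (.nd (nat_lit 5) 
(.lf (nat_lit 91353) (.g (nat_lit 4976) (.e (nat_lit 2203) (nat_lit 144) (.e (nat_lit 720941) (nat_lit 22) (.e (nat_lit 90172) (nat_lit 14) (.e (nat_lit 180244) (nat_lit 5) (.e (nat_lit 532499) (nat_lit 1) (.e (nat_lit 57691) (nat_lit 156) (.e (nat_lit 163875) (nat_lit 3) (.e (nat_lit 204818) (nat_lit 17) .nil)))))))) (.g (nat_lit 0) .nil .nil))) 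
(.lf (nat_lit 91385) (.g (nat_lit 2346) (.e (nat_lit 7936) (nat_lit 144) (.e (nat_lit 720943) (nat_lit 23) (.e (nat_lit 98317) (nat_lit 9) (.e (nat_lit 336184) (nat_lit 11) .nil)))) .nil))))) (.nd (nat_lit 3) (.nd (nat_lit 4) (.nd (nat_lit 5) 
(.lf (nat_lit 91333) (.g (nat_lit 1919) (.e (nat_lit 2203) (nat_lit 144) (.e (nat_lit 720938) (nat_lit 22) (.e (nat_lit 90158) (nat_lit 11) (.e (nat_lit 24636) (nat_lit 9) (.e (nat_lit 336017) (nat_lit 3) (.e (nat_lit 98356) (nat_lit 26) (.e (nat_lit 426361) (nat_lit 15) .nil))))))) (.g (nat_lit 5) .nil .nil))) 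
(.lf (nat_lit 91365) (.g (nat_lit 2178) (.e (nat_lit 2203) (nat_lit 144) (.e (nat_lit 720943) (nat_lit 23) (.e (nat_lit 98317) (nat_lit 9) (.e (nat_lit 336088) (nat_lit 9) (.e (nat_lit 336019) (nat_lit 3) (.e (nat_lit 98356) (nat_lit 26) (.e (nat_lit 426361) (nat_lit 15) .nil))))))) (.g (nat_lit 4) .nil .nil)))) (.nd (nat_lit 5) 
(.lf (nat_lit 91349) (.g (nat_lit 3281) (.e (nat_lit 2203) (nat_lit 144) (.e (nat_lit 720941) (nat_lit 22) (.e (nat_lit 90160) (nat_lit 11) (.e (nat_lit 24644) (nat_lit 11) (.e (nat_lit 368676) (nat_lit 21) (.e (nat_lit 516146) (nat_lit 9) (.e (nat_lit 426361) (nat_lit 15) .nil))))))) (.g (nat_lit 0) .nil .nil))) 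
(.lf (nat_lit 91381) (.g (nat_lit 2264) (.e (nat_lit 2206) (nat_lit 144) (.e (nat_lit 720943) (nat_lit 23) (.e (nat_lit 98317) (nat_lit 9) (.e (nat_lit 336188) (nat_lit 11) .nil)))) .nil)))) (.nd (nat_lit 4) (.nd (nat_lit 5) 
(.lf (nat_lit 91341) (.g (nat_lit 2157) (.e (nat_lit 2203) (nat_lit 144) (.e (nat_lit 720938) (nat_lit 22) (.e (nat_lit 90172) (nat_lit 14) (.e (nat_lit 180244) (nat_lit 5) (.e (nat_lit 532575) (nat_lit 17) (.e (nat_lit 7098) (nat_lit 380) (.e (nat_lit 164096) (nat_lit 86) (.e (nat_lit 532481) (nat_lit 0) .nil)))))))) (.g (nat_lit 5) .nil .nil))) 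
(.lf (nat_lit 91373) (.g (nat_lit 1977) (.e (nat_lit 2205) (nat_lit 144) (.e (nat_lit 720929) (nat_lit 21) (.e (nat_lit 57847) (nat_lit 252) (.e (nat_lit 57411) (nat_lit 12) .nil)))) .nil))) (.nd (nat_lit 5) 
(.lf (nat_lit 91357) (.g (nat_lit 1579) (.e (nat_lit 2203) (nat_lit 144) (.e (nat_lit 720941) (nat_lit 22) (.e (nat_lit 90172) (nat_lit 14) (.e (nat_lit 180244) (nat_lit 5) (.e (nat_lit 532503) (nat_lit 1) .nil))))) .nil)) 
(.lf (nat_lit 91389) (.g (nat_lit 2201) (.e (nat_lit 2250) (nat_lit 147) (.e (nat_lit 745491) (nat_lit 4) (.e (nat_lit 65610) (nat_lit 10) (.e (nat_lit 344117) (nat_lit 21) (.e (nat_lit 516195) (nat_lit 26) .nil))))) .nil)))))) (.nd (nat_lit 2) (.nd (nat_lit 3) (.nd (nat_lit 4) (.nd (nat_lit 5) 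
(.lf (nat_lit 91331) (.g (nat_lit 2561) (.e (nat_lit 2203) (nat_lit 144) (.e (nat_lit 720929) (nat_lit 21) (.e (nat_lit 57847) (nat_lit 252) (.e (nat_lit 57411) (nat_lit 12) (.e (nat_lit 336211) (nat_lit 13) .nil))))) .nil)) 
(.lf (nat_lit 91363) (.g (nat_lit 1871) (.e (nat_lit 2203) (nat_lit 144) (.e (nat_lit 720941) (nat_lit 22) (.e (nat_lit 90174) (nat_lit 14) (.e (nat_lit 180243) (nat_lit 5) (.e (nat_lit 532502) (nat_lit 1) (.e (nat_lit 57692) (nat_lit 156) (.e (nat_lit 163869) (nat_lit 2) (.e (nat_lit 196628) (nat_lit 9) (.e (nat_lit 968) (nat_lit 81) .nil))))))))) (.g (nat_lit 4) .nil .nil)))) (.nd (nat_lit 5) 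
(.lf (nat_lit 91347) (.g (nat_lit 2822) (.e (nat_lit 2203) (nat_lit 144) (.e (nat_lit 720941) (nat_lit 22) (.e (nat_lit 90160) (nat_lit 11) (.e (nat_lit 24636) (nat_lit 9) (.e (nat_lit 336017) (nat_lit 3) (.e (nat_lit 98356) (nat_lit 26) (.e (nat_lit 426361) (nat_lit 15) .nil))))))) (.g (nat_lit 7) .nil .nil))) 
(.lf (nat_lit 91379) (.g (nat_lit 1327) (.e (nat_lit 2206) (nat_lit 144) (.e (nat_lit 720937) (nat_lit 22) (.e (nat_lit 90158) (nat_lit 11) (.e (nat_lit 24636) (nat_lit 9) (.e (nat_lit 336017) (nat_lit 3) .nil))))) .nil)))) (.nd (nat_lit 4) (.nd (nat_lit 5) 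
(.lf (nat_lit 91339) (.g (nat_lit 2102) (.e (nat_lit 2203) (nat_lit 144) (.e (nat_lit 720938) (nat_lit 22) (.e (nat_lit 90172) (nat_lit 14) (.e (nat_lit 180244) (nat_lit 5) (.e (nat_lit 532502) (nat_lit 1) (.e (nat_lit 57688) (nat_lit 156) (.e (nat_lit 163873) (nat_lit 3) (.e (nat_lit 204815) (nat_lit 17) .nil)))))))) (.g (nat_lit 4) .nil .nil))) 
(.lf (nat_lit 91371) (.g (nat_lit 2057) (.e (nat_lit 2203) (nat_lit 144) (.e (nat_lit 720956) (nat_lit 25) (.e (nat_lit 114716) (nat_lit 22) (.e (nat_lit 90170) (nat_lit 13) (.e (nat_lit 179968) (nat_lit 20) .nil))))) .nil))) (.nd (nat_lit 5) 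
(.lf (nat_lit 91355) (.g (nat_lit 4024) (.e (nat_lit 2203) (nat_lit 144) (.e (nat_lit 720941) (nat_lit 22) (.e (nat_lit 90172) (nat_lit 14) (.e (nat_lit 180244) (nat_lit 5) (.e (nat_lit 532501) (nat_lit 1) (.e (nat_lit 57691) (nat_lit 156) (.e (nat_lit 163875) (nat_lit 3) (.e (nat_lit 204815) (nat_lit 17) .nil)))))))) (.g (nat_lit 7) .nil .nil))) 
(.lf (nat_lit 91387) (.g (nat_lit 1712) (.e (nat_lit 2248) (nat_lit 147) (.e (nat_lit 745493) (nat_lit 6) (.e (nat_lit 81954) (nat_lit 23) (.e (nat_lit 98313) (nat_lit 9) (.e (nat_lit 335996) (nat_lit 1) (.e (nat_lit 57851) (nat_lit 252) (.e (nat_lit 57354) (nat_lit 0) .nil))))))) (.g (nat_lit 4) .nil .nil)))))) (.nd (nat_lit 3) (.nd (nat_lit 4) (.nd (nat_lit 5) 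
(.lf (nat_lit 91335) (.g (nat_lit 2527) (.e (nat_lit 2203) (nat_lit 144) (.e (nat_lit 720938) (nat_lit 22) (.e (nat_lit 90158) (nat_lit 11) (.e (nat_lit 24644) (nat_lit 11) (.e (nat_lit 368676) (nat_lit 21) (.e (nat_lit 516146) (nat_lit 9) (.e (nat_lit 426361) (nat_lit 15) .nil))))))) (.g (nat_lit 6) .nil .nil))) 
(.lf (nat_lit 91367) (.g (nat_lit 2228) (.e (nat_lit 2203) (nat_lit 144) (.e (nat_lit 720943) (nat_lit 23) (.e (nat_lit 98317) (nat_lit 9) (.e (nat_lit 336186) (nat_lit 11) (.e (nat_lit 368676) (nat_lit 21) (.e (nat_lit 516146) (nat_lit 9) (.e (nat_lit 426361) (nat_lit 15) .nil))))))) (.g (nat_lit 4) .nil .nil)))) (.nd (nat_lit 5) 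
(.lf (nat_lit 91351) (.g (nat_lit 4681) (.e (nat_lit 2203) (nat_lit 144) (.e (nat_lit 720941) (nat_lit 22) (.e (nat_lit 90172) (nat_lit 14) (.e (nat_lit 180244) (nat_lit 5) (.e (nat_lit 532499) (nat_lit 1) (.e (nat_lit 57691) (nat_lit 156) (.e (nat_lit 163875) (nat_lit 3) (.e (nat_lit 204814) (nat_lit 17) .nil)))))))) (.g (nat_lit 7) .nil .nil))) 
(.lf (nat_lit 91383) (.g (nat_lit 2291) (.e (nat_lit 2207) (nat_lit 144) (.e (nat_lit 720929) (nat_lit 21) (.e (nat_lit 57847) (nat_lit 252) (.e (nat_lit 57410) (nat_lit 12) (.e (nat_lit 336211) (nat_lit 13) .nil))))) .nil)))) (.nd (nat_lit 4) (.nd (nat_lit 5) 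
(.lf (nat_lit 91343) (.g (nat_lit 1802) (.e (nat_lit 2203) (nat_lit 144) (.e (nat_lit 720940) (nat_lit 22) (.e (nat_lit 90170) (nat_lit 13) (.e (nat_lit 179968) (nat_lit 20) (.e (nat_lit 114712) (nat_lit 21) (.e (nat_lit 57854) (nat_lit 252) (.e (nat_lit 57389) (nat_lit 5) (.e (nat_lit 114702) (nat_lit 20) .nil)))))))) (.g (nat_lit 5) .nil .nil))) 
(.lf (nat_lit 91375) (.g (nat_lit 2346) (.e (nat_lit 2205) (nat_lit 144) (.e (nat_lit 720943) (nat_lit 23) (.e (nat_lit 98317) (nat_lit 9) (.e (nat_lit 336184) (nat_lit 11) .nil)))) .nil))) (.nd (nat_lit 5) 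
(.lf (nat_lit 91359) (.g (nat_lit 3909) (.e (nat_lit 2203) (nat_lit 144) (.e (nat_lit 720941) (nat_lit 22) (.e (nat_lit 90172) (nat_lit 14) (.e (nat_lit 180244) (nat_lit 5) (.e (nat_lit 532504) (nat_lit 1) (.e (nat_lit 57692) (nat_lit 156) (.e (nat_lit 163874) (nat_lit 3) (.e (nat_lit 204815) (nat_lit 17) .nil)))))))) (.g (nat_lit 7) .nil .nil))) 
(.lf (nat_lit 91391) (.g (nat_lit 2076) (.e (nat_lit 2250) (nat_lit 147) (.e (nat_lit 745493) (nat_lit 6) (.e (nat_lit 81956) (nat_lit 23) (.e (nat_lit 98313) (nat_lit 9) (.e (nat_lit 335986) (nat_lit 1) .nil))))) .nil))))))))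

noncomputable def tv1250 : DT := (.nd (nat_lit 0) (.nd (nat_lit 1) (.nd (nat_lit 2) (.nd (nat_lit 3) (.nd (nat_lit 4) (.nd (nat_lit 5) 
(.lf (nat_lit 91392) (.g (nat_lit 2062) (.e (nat_lit 2250) (nat_lit 147) (.e (nat_lit 745493) (nat_lit 6) (.e (nat_lit 81956) (nat_lit 23) (.e (nat_lit 98313) (nat_lit 9) (.e (nat_lit 335996) (nat_lit 1) .nil))))) .nil)) 
(.lf (nat_lit 91424) (.g (nat_lit 1469) (.e (nat_lit 2270) (nat_lit 149) (.e (nat_lit 761868) (nat_lit 5) (.e (nat_lit 1597) (nat_lit 111) (.e (nat_lit 360449) (nat_lit 0) (.e (nat_lit 7122) (nat_lit 382) (.e (nat_lit 7936) (nat_lit 90) (.e (nat_lit 81939) (nat_lit 20) .nil))))))) (.g (nat_lit 4) .nil .nil)))) (.nd (nat_lit 5) 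
(.lf (nat_lit 91408) (.g (nat_lit 2288) (.e (nat_lit 2270) (nat_lit 149) (.e (nat_lit 761866) (nat_lit 5) (.e (nat_lit 1633) (nat_lit 114) (.e (nat_lit 385068) (nat_lit 26) (.e (nat_lit 532548) (nat_lit 11) (.e (nat_lit 352279) (nat_lit 19) (.e (nat_lit 491525) (nat_lit 0) .nil))))))) (.g (nat_lit 4) .nil .nil))) 
(.lf (nat_lit 91440) (.g (nat_lit 596) (.e (nat_lit 7936) (nat_lit 149) (.e (nat_lit 761905) (nat_lit 16) (.e (nat_lit 172138) (nat_lit 15) .nil))) .nil)))) (.nd (nat_lit 4) (.nd (nat_lit 5) 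
(.lf (nat_lit 91400) (.g (nat_lit 3542) (.e (nat_lit 2265) (nat_lit 149) (.e (nat_lit 761906) (nat_lit 16) (.e (nat_lit 172064) (nat_lit 2) (.e (nat_lit 196666) (nat_lit 13) (.e (nat_lit 65610) (nat_lit 10) (.e (nat_lit 344117) (nat_lit 21) (.e (nat_lit 524032) (nat_lit 17) .nil))))))) (.g (nat_lit 6) .nil .nil))) 
(.lf (nat_lit 91432) (.g (nat_lit 739) (.e (nat_lit 2270) (nat_lit 149) (.e (nat_lit 761868) (nat_lit 5) (.e (nat_lit 1656) (nat_lit 115) (.e (nat_lit 401152) (nat_lit 11) .nil)))) .nil))) (.nd (nat_lit 5) 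
(.lf (nat_lit 91416) (.g (nat_lit 1518) (.e (nat_lit 2270) (nat_lit 149) (.e (nat_lit 761868) (nat_lit 5) (.e (nat_lit 1574) (nat_lit 110) (.e (nat_lit 352271) (nat_lit 9) (.e (nat_lit 409602) (nat_lit 0) (.e (nat_lit 5425) (nat_lit 305) (.e (nat_lit 139008) (nat_lit 0) .nil))))))) (.g (nat_lit 6) .nil .nil))) 
(.lf (nat_lit 91448) (.g (nat_lit 2119) (.e (nat_lit 2274) (nat_lit 150) (.e (nat_lit 770074) (nat_lit 10) (.e (nat_lit 81938) (nat_lit 20) (.e (nat_lit 2281) (nat_lit 150) (.e (nat_lit 770074) (nat_lit 10) (.e (nat_lit 81931) (nat_lit 20) .nil)))))) (.g (nat_lit 6) .nil .nil)))))) (.nd (nat_lit 3) (.nd (nat_lit 4) (.nd (nat_lit 5) 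
(.lf (nat_lit 91396) (.g (nat_lit 1454) (.e (nat_lit 2265) (nat_lit 149) (.e (nat_lit 761903) (nat_lit 16) (.e (nat_lit 179968) (nat_lit 18) (.e (nat_lit 98359) (nat_lit 26) (.e (nat_lit 426331) (nat_lit 13) (.e (nat_lit 483353) (nat_lit 17) .nil)))))) (.g (nat_lit 5) .nil .nil))) 
(.lf (nat_lit 91428) (.g (nat_lit 558) (.e (nat_lit 2270) (nat_lit 149) (.e (nat_lit 761868) (nat_lit 5) (.e (nat_lit 1597) (nat_lit 111) (.e (nat_lit 368384) (nat_lit 0) .nil)))) .nil))) (.nd (nat_lit 5) 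
(.lf (nat_lit 91412) (.g (nat_lit 2195) (.e (nat_lit 2270) (nat_lit 149) (.e (nat_lit 761867) (nat_lit 5) (.e (nat_lit 1633) (nat_lit 114) (.e (nat_lit 385068) (nat_lit 26) (.e (nat_lit 532560) (nat_lit 14) (.e (nat_lit 384768) (nat_lit 19) (.e (nat_lit 491525) (nat_lit 0) .nil))))))) (.g (nat_lit 5) .nil .nil))) 
(.lf (nat_lit 91444) (.g (nat_lit 737) (.e (nat_lit 2274) (nat_lit 150) (.e (nat_lit 770074) (nat_lit 10) (.e (nat_lit 81931) (nat_lit 20) (.e (nat_lit 2274) (nat_lit 150) .nil)))) .nil)))) (.nd (nat_lit 4) (.nd (nat_lit 5) 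
(.lf (nat_lit 91404) (.g (nat_lit 2479) (.e (nat_lit 2266) (nat_lit 149) (.e (nat_lit 761910) (nat_lit 17) (.e (nat_lit 180252) (nat_lit 10) (.e (nat_lit 573451) (nat_lit 9) (.e (nat_lit 1667) (nat_lit 116) .nil))))) .nil)) 
(.lf (nat_lit 91436) (.g (nat_lit 2497) (.e (nat_lit 2272) (nat_lit 149) (.e (nat_lit 761898) (nat_lit 15) (.e (nat_lit 163978) (nat_lit 30) (.e (nat_lit 573487) (nat_lit 14) (.e (nat_lit 73753) (nat_lit 8) .nil))))) .nil))) (.nd (nat_lit 5) 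
(.lf (nat_lit 91420) (.g (nat_lit 1864) (.e (nat_lit 2270) (nat_lit 149) (.e (nat_lit 761868) (nat_lit 5) (.e (nat_lit 1582) (nat_lit 111) (.e (nat_lit 360489) (nat_lit 21) (.e (nat_lit 770074) (nat_lit 10) (.e (nat_lit 81939) (nat_lit 20) .nil)))))) (.g (nat_lit 6) .nil .nil))) 
(.lf (nat_lit 91452) (.g (nat_lit 1739) (.e (nat_lit 2274) (nat_lit 150) (.e (nat_lit 770074) (nat_lit 10) (.e (nat_lit 81943) (nat_lit 20) (.e (nat_lit 2281) (nat_lit 150) (.e (nat_lit 770074) (nat_lit 10) (.e (nat_lit 81931) (nat_lit 20) .nil)))))) (.g (nat_lit 5) .nil .nil))))))) (.nd (nat_lit 2) (.nd (nat_lit 3) (.nd (nat_lit 4) (.nd (nat_lit 5) 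
(.lf (nat_lit 91394) (.g (nat_lit 3660) (.e (nat_lit 2265) (nat_lit 149) (.e (nat_lit 761903) (nat_lit 16) (.e (nat_lit 172064) (nat_lit 2) (.e (nat_lit 196666) (nat_lit 13) (.e (nat_lit 65610) (nat_lit 10) (.e (nat_lit 344117) (nat_lit 21) (.e (nat_lit 524032) (nat_lit 17) .nil))))))) (.g (nat_lit 6) .nil .nil))) 
(.lf (nat_lit 91426) (.g (nat_lit 2429) (.e (nat_lit 2270) (nat_lit 149) (.e (nat_lit 761868) (nat_lit 5) (.e (nat_lit 1597) (nat_lit 111) (.e (nat_lit 360449) (nat_lit 0) (.e (nat_lit 7125) (nat_lit 382) (.e (nat_lit 1224) (nat_lit 90) (.e (nat_lit 81940) (nat_lit 20) .nil))))))) (.g (nat_lit 6) .nil .nil)))) (.nd (nat_lit 5) 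
(.lf (nat_lit 91410) (.g (nat_lit 4481) (.e (nat_lit 2270) (nat_lit 149) (.e (nat_lit 761867) (nat_lit 5) (.e (nat_lit 1454) (nat_lit 108) (.e (nat_lit 336056) (nat_lit 7) (.e (nat_lit 319534) (nat_lit 16) (.e (nat_lit 286756) (nat_lit 10) (.e (nat_lit 344160) (nat_lit 37) (.e (nat_lit 647195) (nat_lit 9) (.e (nat_lit 982) (nat_lit 81) .nil))))))))) (.g (nat_lit 8) .nil .nil))) 
(.lf (nat_lit 91442) (.g (nat_lit 457) (.e (nat_lit 2274) (nat_lit 150) (.e (nat_lit 770072) (nat_lit 8) (.e (nat_lit 65610) (nat_lit 10) .nil))) .nil)))) (.nd (nat_lit 4) (.nd (nat_lit 5) 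
(.lf (nat_lit 91402) (.g (nat_lit 1474) (.e (nat_lit 2266) (nat_lit 149) (.e (nat_lit 761903) (nat_lit 16) (.e (nat_lit 179968) (nat_lit 18) (.e (nat_lit 98359) (nat_lit 26) (.e (nat_lit 426331) (nat_lit 13) (.e (nat_lit 483349) (nat_lit 17) .nil)))))) (.g (nat_lit 5) .nil .nil))) 
(.lf (nat_lit 91434) (.g (nat_lit 3558) (.e (nat_lit 2270) (nat_lit 149) (.e (nat_lit 761905) (nat_lit 16) (.e (nat_lit 172087) (nat_lit 9) (.e (nat_lit 426482) (nat_lit 27) (.e (nat_lit 336060) (nat_lit 7) (.e (nat_lit 319534) (nat_lit 16) (.e (nat_lit 286728) (nat_lit 0) .nil))))))) (.g (nat_lit 7) .nil .nil)))) (.nd (nat_lit 5) 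
(.lf (nat_lit 91418) (.g (nat_lit 2075) (.e (nat_lit 2270) (nat_lit 149) (.e (nat_lit 761868) (nat_lit 5) (.e (nat_lit 1582) (nat_lit 111) (.e (nat_lit 360451) (nat_lit 0) (.e (nat_lit 7124) (nat_lit 382) (.e (nat_lit 7936) (nat_lit 90) (.e (nat_lit 81928) (nat_lit 20) .nil))))))) (.g (nat_lit 5) .nil .nil))) 
(.lf (nat_lit 91450) (.g (nat_lit 1604) (.e (nat_lit 2274) (nat_lit 150) (.e (nat_lit 770074) (nat_lit 10) (.e (nat_lit 81939) (nat_lit 20) (.e (nat_lit 2281) (nat_lit 150) (.e (nat_lit 770074) (nat_lit 10) (.e (nat_lit 81931) (nat_lit 20) .nil)))))) (.g (nat_lit 5) .nil .nil)))))) (.nd (nat_lit 3) (.nd (nat_lit 4) (.nd (nat_lit 5) 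
(.lf (nat_lit 91398) (.g (nat_lit 2681) (.e (nat_lit 2265) (nat_lit 149) (.e (nat_lit 761903) (nat_lit 16) (.e (nat_lit 179968) (nat_lit 18) (.e (nat_lit 98365) (nat_lit 26) (.e (nat_lit 426325) (nat_lit 13) (.e (nat_lit 483353) (nat_lit 17) .nil)))))) (.g (nat_lit 5) .nil .nil))) 
(.lf (nat_lit 91430) (.g (nat_lit 558) (.e (nat_lit 2270) (nat_lit 149) (.e (nat_lit 761868) (nat_lit 5) (.e (nat_lit 1597) (nat_lit 111) (.e (nat_lit 368384) (nat_lit 20) .nil)))) .nil))) (.nd (nat_lit 5) 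
(.lf (nat_lit 91414) (.g (nat_lit 2019) (.e (nat_lit 2270) (nat_lit 149) (.e (nat_lit 761867) (nat_lit 5) (.e (nat_lit 1656) (nat_lit 115) (.e (nat_lit 393225) (nat_lit 9) (.e (nat_lit 336188) (nat_lit 11) (.e (nat_lit 368679) (nat_lit 24) (.e (nat_lit 540675) (nat_lit 0) .nil))))))) (.g (nat_lit 4) .nil .nil))) 
(.lf (nat_lit 91446) (.g (nat_lit 908) (.e (nat_lit 2274) (nat_lit 150) (.e (nat_lit 770074) (nat_lit 10) (.e (nat_lit 81931) (nat_lit 20) (.e (nat_lit 2375) (nat_lit 154) (.e (nat_lit 802828) (nat_lit 13) (.e (nat_lit 352283) (nat_lit 20) .nil)))))) (.g (nat_lit 4) .nil .nil))))) (.nd (nat_lit 4) (.nd (nat_lit 5) 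
(.lf (nat_lit 91406) (.g (nat_lit 2966) (.e (nat_lit 2267) (nat_lit 149) (.e (nat_lit 761904) (nat_lit 16) (.e (nat_lit 172064) (nat_lit 2) (.e (nat_lit 196666) (nat_lit 13) (.e (nat_lit 65610) (nat_lit 10) (.e (nat_lit 344117) (nat_lit 21) (.e (nat_lit 524032) (nat_lit 17) .nil))))))) (.g (nat_lit 6) .nil .nil))) 
(.lf (nat_lit 91438) (.g (nat_lit 591) (.e (nat_lit 7936) (nat_lit 149) (.e (nat_lit 761905) (nat_lit 16) (.e (nat_lit 172039) (nat_lit 0) .nil))) .nil))) (.nd (nat_lit 5) 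
(.lf (nat_lit 91422) (.g (nat_lit 998) (.e (nat_lit 2270) (nat_lit 149) (.e (nat_lit 761868) (nat_lit 5) (.e (nat_lit 1585) (nat_lit 111) (.e (nat_lit 360488) (nat_lit 20) (.e (nat_lit 769792) (nat_lit 10) (.e (nat_lit 81939) (nat_lit 20) .nil)))))) (.g (nat_lit 4) .nil .nil))) 
(.lf (nat_lit 91454) (.g (nat_lit 1530) (.e (nat_lit 2274) (nat_lit 150) (.e (nat_lit 770074) (nat_lit 10) (.e (nat_lit 81947) (nat_lit 20) (.e (nat_lit 2281) (nat_lit 150) (.e (nat_lit 770074) (nat_lit 10) .nil))))) .nil))))))) (.nd (nat_lit 1) (.nd (nat_lit 2) (.nd (nat_lit 3) (.nd (nat_lit 4) (.nd (nat_lit 5) 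
(.lf (nat_lit 91393) (.g (nat_lit 2488) (.e (nat_lit 2264) (nat_lit 149) (.e (nat_lit 761898) (nat_lit 15) (.e (nat_lit 163978) (nat_lit 30) (.e (nat_lit 573487) (nat_lit 14) (.e (nat_lit 73753) (nat_lit 8) .nil))))) .nil)) 
(.lf (nat_lit 91425) (.g (nat_lit 1737) (.e (nat_lit 2270) (nat_lit 149) (.e (nat_lit 761868) (nat_lit 5) (.e (nat_lit 1597) (nat_lit 111) (.e (nat_lit 360449) (nat_lit 0) (.e (nat_lit 7124) (nat_lit 382) (.e (nat_lit 7936) (nat_lit 90) (.e (nat_lit 81941) (nat_lit 20) .nil))))))) (.g (nat_lit 5) .nil .nil)))) (.nd (nat_lit 5) 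
(.lf (nat_lit 91409) (.g (nat_lit 1417) (.e (nat_lit 2270) (nat_lit 149) (.e (nat_lit 761867) (nat_lit 5) (.e (nat_lit 1423) (nat_lit 108) (.e (nat_lit 336456) (nat_lit 34) (.e (nat_lit 483398) (nat_lit 25) (.e (nat_lit 368679) (nat_lit 24) (.e (nat_lit 540675) (nat_lit 0) .nil))))))) (.g (nat_lit 4) .nil .nil))) 
(.lf (nat_lit 91441) (.g (nat_lit 464) (.e (nat_lit 7936) (nat_lit 149) (.e (nat_lit 761905) (nat_lit 16) (.e (nat_lit 179968) (nat_lit 34) .nil))) .nil)))) (.nd (nat_lit 4) (.nd (nat_lit 5) 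
(.lf (nat_lit 91401) (.g (nat_lit 1051) (.e (nat_lit 2266) (nat_lit 149) (.e (nat_lit 761903) (nat_lit 16) (.e (nat_lit 179968) (nat_lit 18) (.e (nat_lit 98359) (nat_lit 26) (.e (nat_lit 426329) (nat_lit 13) .nil))))) .nil)) 
(.lf (nat_lit 91433) (.g (nat_lit 3761) (.e (nat_lit 2270) (nat_lit 149) (.e (nat_lit 761905) (nat_lit 16) (.e (nat_lit 172064) (nat_lit 2) (.e (nat_lit 196666) (nat_lit 13) (.e (nat_lit 65610) (nat_lit 10) (.e (nat_lit 344117) (nat_lit 21) (.e (nat_lit 524032) (nat_lit 17) .nil))))))) (.g (nat_lit 6) .nil .nil)))) (.nd (nat_lit 5) 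
(.lf (nat_lit 91417) (.g (nat_lit 1161) (.e (nat_lit 2270) (nat_lit 149) (.e (nat_lit 761868) (nat_lit 5) (.e (nat_lit 1574) (nat_lit 110) (.e (nat_lit 352271) (nat_lit 9) (.e (nat_lit 409603) (nat_lit 0) (.e (nat_lit 5425) (nat_lit 305) (.e (nat_lit 139008) (nat_lit 0) .nil))))))) (.g (nat_lit 6) .nil .nil))) 
(.lf (nat_lit 91449) (.g (nat_lit 1542) (.e (nat_lit 2274) (nat_lit 150) (.e (nat_lit 770074) (nat_lit 10) (.e (nat_lit 81938) (nat_lit 20) (.e (nat_lit 2281) (nat_lit 150) (.e (nat_lit 770074) (nat_lit 10) (.e (nat_lit 81935) (nat_lit 20) .nil)))))) (.g (nat_lit 4) .nil .nil)))))) (.nd (nat_lit 3) (.nd (nat_lit 4) (.nd (nat_lit 5) 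
(.lf (nat_lit 91397) (.g (nat_lit 1903) (.e (nat_lit 2265) (nat_lit 149) (.e (nat_lit 761903) (nat_lit 16) (.e (nat_lit 179968) (nat_lit 18) (.e (nat_lit 98365) (nat_lit 26) (.e (nat_lit 426325) (nat_lit 13) (.e (nat_lit 483349) (nat_lit 17) .nil)))))) (.g (nat_lit 5) .nil .nil))) 
(.lf (nat_lit 91429) (.g (nat_lit 1443) (.e (nat_lit 2270) (nat_lit 149) (.e (nat_lit 761868) (nat_lit 5) (.e (nat_lit 1597) (nat_lit 111) (.e (nat_lit 360488) (nat_lit 20) (.e (nat_lit 769792) (nat_lit 10) (.e (nat_lit 81939) (nat_lit 20) .nil)))))) (.g (nat_lit 4) .nil .nil)))) (.nd (nat_lit 5) 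
(.lf (nat_lit 91413) (.g (nat_lit 2262) (.e (nat_lit 2270) (nat_lit 149) (.e (nat_lit 761867) (nat_lit 5) (.e (nat_lit 1656) (nat_lit 115) (.e (nat_lit 393225) (nat_lit 9) (.e (nat_lit 336186) (nat_lit 11) (.e (nat_lit 368679) (nat_lit 24) (.e (nat_lit 540675) (nat_lit 0) .nil))))))) (.g (nat_lit 5) .nil .nil))) 
(.lf (nat_lit 91445) (.g (nat_lit 744) (.e (nat_lit 2274) (nat_lit 150) (.e (nat_lit 770074) (nat_lit 10) (.e (nat_lit 81931) (nat_lit 20) (.e (nat_lit 2375) (nat_lit 154) .nil)))) .nil)))) (.nd (nat_lit 4) (.nd (nat_lit 5) 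
(.lf (nat_lit 91405) (.g (nat_lit 3071) (.e (nat_lit 2267) (nat_lit 149) (.e (nat_lit 761902) (nat_lit 16) (.e (nat_lit 172064) (nat_lit 2) (.e (nat_lit 196666) (nat_lit 13) (.e (nat_lit 65610) (nat_lit 10) (.e (nat_lit 344117) (nat_lit 21) (.e (nat_lit 524032) (nat_lit 17) .nil))))))) (.g (nat_lit 6) .nil .nil))) 
(.lf (nat_lit 91437) (.g (nat_lit 3752) (.e (nat_lit 2272) (nat_lit 149) (.e (nat_lit 761899) (nat_lit 15) (.e (nat_lit 163963) (nat_lit 25) (.e (nat_lit 532513) (nat_lit 3) (.e (nat_lit 114714) (nat_lit 22) (.e (nat_lit 90170) (nat_lit 13) (.e (nat_lit 172065) (nat_lit 3) (.e (nat_lit 204817) (nat_lit 17) .nil)))))))) (.g (nat_lit 8) .nil .nil)))) (.nd (nat_lit 5) 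
(.lf (nat_lit 91421) (.g (nat_lit 1102) (.e (nat_lit 2270) (nat_lit 149) (.e (nat_lit 761868) (nat_lit 5) (.e (nat_lit 1585) (nat_lit 111) (.e (nat_lit 360449) (nat_lit 0) (.e (nat_lit 7124) (nat_lit 382) (.e (nat_lit 7936) (nat_lit 90) (.e (nat_lit 81941) (nat_lit 20) .nil))))))) (.g (nat_lit 4) .nil .nil))) 
(.lf (nat_lit 91453) (.g (nat_lit 2077) (.e (nat_lit 2274) (nat_lit 150) (.e (nat_lit 770074) (nat_lit 10) (.e (nat_lit 81946) (nat_lit 20) (.e (nat_lit 2281) (nat_lit 150) (.e (nat_lit 770074) (nat_lit 10) (.e (nat_lit 81931) (nat_lit 20) .nil)))))) (.g (nat_lit 0) .nil .nil))))))) (.nd (nat_lit 2) (.nd (nat_lit 3) (.nd (nat_lit 4) (.nd (nat_lit 5) 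
(.lf (nat_lit 91395) (.g (nat_lit 1160) (.e (nat_lit 2265) (nat_lit 149) (.e (nat_lit 761903) (nat_lit 16) (.e (nat_lit 179968) (nat_lit 18) (.e (nat_lit 98359) (nat_lit 26) (.e (nat_lit 426329) (nat_lit 13) (.e (nat_lit 483349) (nat_lit 17) .nil)))))) (.g (nat_lit 4) .nil .nil))) 
(.lf (nat_lit 91427) (.g (nat_lit 1417) (.e (nat_lit 2270) (nat_lit 149) (.e (nat_lit 761868) (nat_lit 5) (.e (nat_lit 1597) (nat_lit 111) (.e (nat_lit 360452) (nat_lit 0) (.e (nat_lit 7147) (nat_lit 382) (.e (nat_lit 1217) (nat_lit 90) (.e (nat_lit 81940) (nat_lit 20) .nil))))))) (.g (nat_lit 4) .nil .nil)))) (.nd (nat_lit 5) 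
(.lf (nat_lit 91411) (.g (nat_lit 4748) (.e (nat_lit 2270) (nat_lit 149) (.e (nat_lit 761867) (nat_lit 5) (.e (nat_lit 1454) (nat_lit 108) (.e (nat_lit 336060) (nat_lit 7) (.e (nat_lit 319534) (nat_lit 16) (.e (nat_lit 286756) (nat_lit 10) (.e (nat_lit 344160) (nat_lit 37) (.e (nat_lit 647195) (nat_lit 9) (.e (nat_lit 982) (nat_lit 81) .nil))))))))) (.g (nat_lit 8) .nil .nil))) 
(.lf (nat_lit 91443) (.g (nat_lit 529) (.e (nat_lit 2274) (nat_lit 150) (.e (nat_lit 770072) (nat_lit 8) (.e (nat_lit 65617) (nat_lit 10) .nil))) .nil)))) (.nd (nat_lit 4) (.nd (nat_lit 5) 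
(.lf (nat_lit 91403) (.g (nat_lit 1566) (.e (nat_lit 2266) (nat_lit 149) (.e (nat_lit 761903) (nat_lit 16) (.e (nat_lit 179968) (nat_lit 18) (.e (nat_lit 98370) (nat_lit 28) (.e (nat_lit 442390) (nat_lit 11) (.e (nat_lit 335899) (nat_lit 0) .nil)))))) (.g (nat_lit 5) .nil .nil))) 
(.lf (nat_lit 91435) (.g (nat_lit 3023) (.e (nat_lit 2271) (nat_lit 149) (.e (nat_lit 761904) (nat_lit 16) (.e (nat_lit 172064) (nat_lit 2) (.e (nat_lit 196666) (nat_lit 13) (.e (nat_lit 65610) (nat_lit 10) (.e (nat_lit 344117) (nat_lit 21) (.e (nat_lit 524032) (nat_lit 17) .nil))))))) (.g (nat_lit 6) .nil .nil)))) (.nd (nat_lit 5) 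
(.lf (nat_lit 91419) (.g (nat_lit 1899) (.e (nat_lit 2270) (nat_lit 149) (.e (nat_lit 761868) (nat_lit 5) (.e (nat_lit 1582) (nat_lit 111) (.e (nat_lit 360451) (nat_lit 0) (.e (nat_lit 7124) (nat_lit 382) (.e (nat_lit 7936) (nat_lit 90) (.e (nat_lit 81941) (nat_lit 20) .nil))))))) (.g (nat_lit 5) .nil .nil))) 
(.lf (nat_lit 91451) (.g (nat_lit 484) (.e (nat_lit 2274) (nat_lit 150) (.e (nat_lit 770074) (nat_lit 10) (.e (nat_lit 81942) (nat_lit 20) .nil))) .nil))))) (.nd (nat_lit 3) (.nd (nat_lit 4) (.nd (nat_lit 5) 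
(.lf (nat_lit 91399) (.g (nat_lit 310) (.e (nat_lit 2265) (nat_lit 149) (.e (nat_lit 761903) (nat_lit 16) (.e (nat_lit 179968) (nat_lit 34) .nil))) .nil)) 
(.lf (nat_lit 91431) (.g (nat_lit 2078) (.e (nat_lit 2270) (nat_lit 149) (.e (nat_lit 761868) (nat_lit 5) (.e (nat_lit 1597) (nat_lit 111) (.e (nat_lit 360489) (nat_lit 21) (.e (nat_lit 770074) (nat_lit 10) (.e (nat_lit 81939) (nat_lit 20) .nil)))))) (.g (nat_lit 6) .nil .nil)))) (.nd (nat_lit 5) 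
(.lf (nat_lit 91415) (.g (nat_lit 3875) (.e (nat_lit 2270) (nat_lit 149) (.e (nat_lit 761868) (nat_lit 5) (.e (nat_lit 1438) (nat_lit 108) (.e (nat_lit 336060) (nat_lit 7) (.e (nat_lit 319534) (nat_lit 16) (.e (nat_lit 286756) (nat_lit 10) (.e (nat_lit 344160) (nat_lit 37) (.e (nat_lit 647195) (nat_lit 9) (.e (nat_lit 982) (nat_lit 81) .nil))))))))) (.g (nat_lit 8) .nil .nil))) 
(.lf (nat_lit 91447) (.g (nat_lit 520) (.e (nat_lit 2274) (nat_lit 150) (.e (nat_lit 770074) (nat_lit 10) (.e (nat_lit 81933) (nat_lit 20) .nil))) .nil)))) (.nd (nat_lit 4) (.nd (nat_lit 5) 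
(.lf (nat_lit 91407) (.g (nat_lit 2326) (.e (nat_lit 2270) (nat_lit 149) (.e (nat_lit 761866) (nat_lit 5) (.e (nat_lit 1633) (nat_lit 114) (.e (nat_lit 385068) (nat_lit 26) (.e (nat_lit 532546) (nat_lit 11) (.e (nat_lit 352279) (nat_lit 19) (.e (nat_lit 491525) (nat_lit 0) .nil))))))) (.g (nat_lit 4) .nil .nil))) 
(.lf (nat_lit 91439) (.g (nat_lit 601) (.e (nat_lit 7936) (nat_lit 149) (.e (nat_lit 761905) (nat_lit 16) (.e (nat_lit 172049) (nat_lit 0) .nil))) .nil))) (.nd (nat_lit 5) 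
(.lf (nat_lit 91423) (.g (nat_lit 1276) (.e (nat_lit 2270) (nat_lit 149) (.e (nat_lit 761868) (nat_lit 5) (.e (nat_lit 1597) (nat_lit 111) (.e (nat_lit 360449) (nat_lit 0) (.e (nat_lit 7119) (nat_lit 382) (.e (nat_lit 7936) (nat_lit 90) (.e (nat_lit 81928) (nat_lit 20) .nil))))))) (.g (nat_lit 4) .nil .nil))) 
(.lf (nat_lit 91455) (.g (nat_lit 4490) (.e (nat_lit 2275) (nat_lit 150) (.e (nat_lit 770069) (nat_lit 7) (.e (nat_lit 57479) (nat_lit 28) (.e (nat_lit 557105) (nat_lit 14) (.e (nat_lit 180252) (nat_lit 10) (.e (nat_lit 573488) (nat_lit 14) (.e (nat_lit 81664) (nat_lit 5) (.e (nat_lit 532482) (nat_lit 0) .nil)))))))) (.g (nat_lit 6) .nil .nil)))))))))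

noncomputable def tv1251 : DT := (.nd (nat_lit 0) (.nd (nat_lit 1) (.nd (nat_lit 2) (.nd (nat_lit 3) (.nd (nat_lit 4) (.nd (nat_lit 5) 
(.lf (nat_lit 91456) (.g (nat_lit 1233) (.e (nat_lit 2276) (nat_lit 150) (.e (nat_lit 770057) (nat_lit 5) (.e (nat_lit 1586) (nat_lit 111) (.e (nat_lit 360451) (nat_lit 0) (.e (nat_lit 7265) (nat_lit 384) .nil))))) .nil)) 
(.lf (nat_lit 91488) (.g (nat_lit 1936) (.e (nat_lit 2276) (nat_lit 150) (.e (nat_lit 770072) (nat_lit 8) (.e (nat_lit 65583) (nat_lit 7) (.e (nat_lit 319530) (nat_lit 16) (.e (nat_lit 286756) (nat_lit 10) .nil))))) .nil))) (.nd (nat_lit 5) 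
(.lf (nat_lit 91472) (.g (nat_lit 820) (.e (nat_lit 2276) (nat_lit 150) (.e (nat_lit 770071) (nat_lit 8) (.e (nat_lit 65610) (nat_lit 10) (.e (nat_lit 344090) (nat_lit 18) .nil)))) .nil)) 
(.lf (nat_lit 91504) (.g (nat_lit 4539) (.e (nat_lit 2276) (nat_lit 150) (.e (nat_lit 770072) (nat_lit 8) (.e (nat_lit 65630) (nat_lit 14) (.e (nat_lit 401454) (nat_lit 12) (.e (nat_lit 475214) (nat_lit 42) (.e (nat_lit 720955) (nat_lit 25) (.e (nat_lit 114702) (nat_lit 20) .nil))))))) (.g (nat_lit 5) .nil .nil))))) (.nd (nat_lit 4) (.nd (nat_lit 5) 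
(.lf (nat_lit 91464) (.g (nat_lit 1931) (.e (nat_lit 2276) (nat_lit 150) (.e (nat_lit 770069) (nat_lit 7) (.e (nat_lit 57479) (nat_lit 28) (.e (nat_lit 557103) (nat_lit 14) (.e (nat_lit 180250) (nat_lit 10) .nil))))) .nil)) 
(.lf (nat_lit 91496) (.g (nat_lit 4636) (.e (nat_lit 2276) (nat_lit 150) (.e (nat_lit 770072) (nat_lit 8) (.e (nat_lit 65629) (nat_lit 14) (.e (nat_lit 401454) (nat_lit 12) (.e (nat_lit 475212) (nat_lit 42) (.e (nat_lit 720956) (nat_lit 25) (.e (nat_lit 114702) (nat_lit 20) .nil))))))) (.g (nat_lit 0) .nil .nil)))) (.nd (nat_lit 5) 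
(.lf (nat_lit 91480) (.g (nat_lit 3115) (.e (nat_lit 2276) (nat_lit 150) (.e (nat_lit 770071) (nat_lit 8) (.e (nat_lit 65630) (nat_lit 14) (.e (nat_lit 401422) (nat_lit 1) (.e (nat_lit 164179) (nat_lit 154) (.e (nat_lit 57437) (nat_lit 17) (.e (nat_lit 376855) (nat_lit 20) .nil))))))) (.g (nat_lit 6) .nil .nil))) 
(.lf (nat_lit 91512) (.g (nat_lit 502) (.e (nat_lit 2278) (nat_lit 150) (.e (nat_lit 770074) (nat_lit 10) (.e (nat_lit 81948) (nat_lit 21) .nil))) .nil))))) (.nd (nat_lit 3) (.nd (nat_lit 4) (.nd (nat_lit 5) 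
(.lf (nat_lit 91460) (.g (nat_lit 1651) (.e (nat_lit 2276) (nat_lit 150) (.e (nat_lit 770057) (nat_lit 5) (.e (nat_lit 1589) (nat_lit 111) (.e (nat_lit 360451) (nat_lit 0) (.e (nat_lit 7265) (nat_lit 384) .nil))))) .nil)) 
(.lf (nat_lit 91492) (.g (nat_lit 1587) (.e (nat_lit 2276) (nat_lit 150) (.e (nat_lit 770072) (nat_lit 8) (.e (nat_lit 65617) (nat_lit 10) (.e (nat_lit 344091) (nat_lit 18) (.e (nat_lit 7265) (nat_lit 384) .nil))))) .nil))) (.nd (nat_lit 5) 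
(.lf (nat_lit 91476) (.g (nat_lit 1721) (.e (nat_lit 2276) (nat_lit 150) (.e (nat_lit 770071) (nat_lit 8) (.e (nat_lit 65617) (nat_lit 10) (.e (nat_lit 344091) (nat_lit 18) (.e (nat_lit 7266) (nat_lit 384) (.e (nat_lit 57436) (nat_lit 17) (.e (nat_lit 376855) (nat_lit 20) .nil))))))) (.g (nat_lit 4) .nil .nil))) 
(.lf (nat_lit 91508) (.g (nat_lit 1558) (.e (nat_lit 2276) (nat_lit 150) (.e (nat_lit 770076) (nat_lit 12) (.e (nat_lit 131127) (nat_lit 13) (.e (nat_lit 393260) (nat_lit 21) (.e (nat_lit 417536) (nat_lit 16) (.e (nat_lit 286727) (nat_lit 0) .nil)))))) (.g (nat_lit 4) .nil .nil))))) (.nd (nat_lit 4) (.nd (nat_lit 5) 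
(.lf (nat_lit 91468) (.g (nat_lit 3031) (.e (nat_lit 2276) (nat_lit 150) (.e (nat_lit 770069) (nat_lit 7) (.e (nat_lit 57479) (nat_lit 28) (.e (nat_lit 557105) (nat_lit 14) (.e (nat_lit 180252) (nat_lit 10) (.e (nat_lit 573489) (nat_lit 14) (.e (nat_lit 81664) (nat_lit 5) (.e (nat_lit 532497) (nat_lit 0) .nil)))))))) (.g (nat_lit 6) .nil .nil))) 
(.lf (nat_lit 91500) (.g (nat_lit 2631) (.e (nat_lit 2276) (nat_lit 150) (.e (nat_lit 770072) (nat_lit 8) (.e (nat_lit 65630) (nat_lit 14) (.e (nat_lit 401422) (nat_lit 1) (.e (nat_lit 164179) (nat_lit 154) (.e (nat_lit 57437) (nat_lit 17) (.e (nat_lit 376855) (nat_lit 20) .nil))))))) (.g (nat_lit 5) .nil .nil)))) (.nd (nat_lit 5) 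
(.lf (nat_lit 91484) (.g (nat_lit 4300) (.e (nat_lit 2276) (nat_lit 150) (.e (nat_lit 770071) (nat_lit 8) (.e (nat_lit 65630) (nat_lit 14) (.e (nat_lit 401454) (nat_lit 12) (.e (nat_lit 475214) (nat_lit 42) (.e (nat_lit 720956) (nat_lit 25) (.e (nat_lit 114702) (nat_lit 20) .nil))))))) (.g (nat_lit 6) .nil .nil))) 
(.lf (nat_lit 91516) (.g (nat_lit 1285) (.e (nat_lit 2279) (nat_lit 150) (.e (nat_lit 770057) (nat_lit 5) (.e (nat_lit 1589) (nat_lit 111) (.e (nat_lit 360453) (nat_lit 0) (.e (nat_lit 7147) (nat_lit 382) .nil))))) .nil)))))) (.nd (nat_lit 2) (.nd (nat_lit 3) (.nd (nat_lit 4) (.nd (nat_lit 5) 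
(.lf (nat_lit 91458) (.g (nat_lit 131) (.e (nat_lit 2276) (nat_lit 150) (.e (nat_lit 770057) (nat_lit 5) (.e (nat_lit 1589) (nat_lit 111) .nil))) .nil)) 
(.lf (nat_lit 91490) (.g (nat_lit 2373) (.e (nat_lit 2276) (nat_lit 150) (.e (nat_lit 770072) (nat_lit 8) (.e (nat_lit 65586) (nat_lit 7) (.e (nat_lit 319531) (nat_lit 16) (.e (nat_lit 286751) (nat_lit 10) (.e (nat_lit 344160) (nat_lit 37) (.e (nat_lit 647195) (nat_lit 9) (.e (nat_lit 1040) (nat_lit 81) .nil)))))))) (.g (nat_lit 4) .nil .nil)))) (.nd (nat_lit 5) 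
(.lf (nat_lit 91474) (.g (nat_lit 1094) (.e (nat_lit 2276) (nat_lit 150) (.e (nat_lit 770071) (nat_lit 8) (.e (nat_lit 65617) (nat_lit 10) (.e (nat_lit 344091) (nat_lit 18) .nil)))) .nil)) 
(.lf (nat_lit 91506) (.g (nat_lit 417) (.e (nat_lit 2276) (nat_lit 150) (.e (nat_lit 770074) (nat_lit 10) (.e (nat_lit 81965) (nat_lit 26) .nil))) .nil)))) (.nd (nat_lit 4) (.nd (nat_lit 5) 
(.lf (nat_lit 91466) (.g (nat_lit 4245) (.e (nat_lit 2276) (nat_lit 150) (.e (nat_lit 770069) (nat_lit 7) (.e (nat_lit 57479) (nat_lit 28) (.e (nat_lit 557105) (nat_lit 14) (.e (nat_lit 180252) (nat_lit 10) (.e (nat_lit 573488) (nat_lit 14) (.e (nat_lit 81664) (nat_lit 5) (.e (nat_lit 532481) (nat_lit 0) .nil)))))))) (.g (nat_lit 6) .nil .nil))) 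
(.lf (nat_lit 91498) (.g (nat_lit 5767) (.e (nat_lit 2276) (nat_lit 150) (.e (nat_lit 770072) (nat_lit 8) (.e (nat_lit 65629) (nat_lit 14) (.e (nat_lit 401454) (nat_lit 12) (.e (nat_lit 475214) (nat_lit 42) (.e (nat_lit 720955) (nat_lit 25) (.e (nat_lit 114702) (nat_lit 20) .nil))))))) (.g (nat_lit 0) .nil .nil)))) (.nd (nat_lit 5) 
(.lf (nat_lit 91482) (.g (nat_lit 3971) (.e (nat_lit 2276) (nat_lit 150) (.e (nat_lit 770071) (nat_lit 8) (.e (nat_lit 65630) (nat_lit 14) (.e (nat_lit 401454) (nat_lit 12) (.e (nat_lit 475213) (nat_lit 42) (.e (nat_lit 720956) (nat_lit 25) (.e (nat_lit 114702) (nat_lit 20) .nil))))))) (.g (nat_lit 7) .nil .nil))) 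
(.lf (nat_lit 91514) (.g (nat_lit 1541) (.e (nat_lit 2279) (nat_lit 150) (.e (nat_lit 770055) (nat_lit 5) (.e (nat_lit 1586) (nat_lit 111) (.e (nat_lit 360451) (nat_lit 0) (.e (nat_lit 7122) (nat_lit 382) .nil))))) .nil))))) (.nd (nat_lit 3) (.nd (nat_lit 4) (.nd (nat_lit 5) 
(.lf (nat_lit 91462) (.g (nat_lit 939) (.e (nat_lit 2276) (nat_lit 150) (.e (nat_lit 770058) (nat_lit 5) (.e (nat_lit 1589) (nat_lit 111) (.e (nat_lit 368384) (nat_lit 24) .nil)))) .nil)) 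
(.lf (nat_lit 91494) (.g (nat_lit 1688) (.e (nat_lit 2276) (nat_lit 150) (.e (nat_lit 770072) (nat_lit 8) (.e (nat_lit 65617) (nat_lit 10) (.e (nat_lit 344096) (nat_lit 18) (.e (nat_lit 7261) (nat_lit 384) .nil))))) .nil))) (.nd (nat_lit 5) 
(.lf (nat_lit 91478) (.g (nat_lit 1763) (.e (nat_lit 2276) (nat_lit 150) (.e (nat_lit 770071) (nat_lit 8) (.e (nat_lit 65617) (nat_lit 10) (.e (nat_lit 344096) (nat_lit 18) (.e (nat_lit 7261) (nat_lit 384) (.e (nat_lit 57437) (nat_lit 17) (.e (nat_lit 376855) (nat_lit 20) .nil))))))) (.g (nat_lit 4) .nil .nil))) 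
(.lf (nat_lit 91510) (.g (nat_lit 2060) (.e (nat_lit 2278) (nat_lit 150) (.e (nat_lit 770069) (nat_lit 7) (.e (nat_lit 57479) (nat_lit 28) (.e (nat_lit 557103) (nat_lit 14) (.e (nat_lit 180250) (nat_lit 10) .nil))))) .nil)))) (.nd (nat_lit 4) (.nd (nat_lit 5) 
(.lf (nat_lit 91470) (.g (nat_lit 4443) (.e (nat_lit 2276) (nat_lit 150) (.e (nat_lit 770069) (nat_lit 7) (.e (nat_lit 57480) (nat_lit 28) (.e (nat_lit 557108) (nat_lit 15) (.e (nat_lit 188446) (nat_lit 21) (.e (nat_lit 164177) (nat_lit 154) (.e (nat_lit 57389) (nat_lit 5) (.e (nat_lit 114702) (nat_lit 20) .nil)))))))) (.g (nat_lit 0) .nil .nil))) 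
(.lf (nat_lit 91502) (.g (nat_lit 3522) (.e (nat_lit 2276) (nat_lit 150) (.e (nat_lit 770072) (nat_lit 8) (.e (nat_lit 65630) (nat_lit 14) (.e (nat_lit 401454) (nat_lit 12) (.e (nat_lit 475212) (nat_lit 42) (.e (nat_lit 720956) (nat_lit 25) (.e (nat_lit 114702) (nat_lit 20) .nil))))))) (.g (nat_lit 6) .nil .nil)))) (.nd (nat_lit 5) 
(.lf (nat_lit 91486) (.g (nat_lit 2126) (.e (nat_lit 2276) (nat_lit 150) (.e (nat_lit 770072) (nat_lit 8) (.e (nat_lit 65583) (nat_lit 7) (.e (nat_lit 319530) (nat_lit 16) (.e (nat_lit 286755) (nat_lit 10) .nil))))) .nil)) 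
(.lf (nat_lit 91518) (.g (nat_lit 871) (.e (nat_lit 2279) (nat_lit 150) (.e (nat_lit 770071) (nat_lit 8) (.e (nat_lit 65610) (nat_lit 10) (.e (nat_lit 344090) (nat_lit 18) .nil)))) .nil))))))) (.nd (nat_lit 1) (.nd (nat_lit 2) (.nd (nat_lit 3) (.nd (nat_lit 4) (.nd (nat_lit 5) 
(.lf (nat_lit 91457) (.g (nat_lit 638) (.e (nat_lit 2276) (nat_lit 150) (.e (nat_lit 770057) (nat_lit 5) (.e (nat_lit 1586) (nat_lit 111) (.e (nat_lit 368384) (nat_lit 24) .nil)))) .nil)) 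
(.lf (nat_lit 91489) (.g (nat_lit 3924) (.e (nat_lit 2276) (nat_lit 150) (.e (nat_lit 770072) (nat_lit 8) (.e (nat_lit 65583) (nat_lit 7) (.e (nat_lit 319534) (nat_lit 16) (.e (nat_lit 286756) (nat_lit 10) (.e (nat_lit 344160) (nat_lit 37) (.e (nat_lit 647195) (nat_lit 9) (.e (nat_lit 1040) (nat_lit 81) .nil)))))))) (.g (nat_lit 5) .nil .nil)))) (.nd (nat_lit 5) 
(.lf (nat_lit 91473) (.g (nat_lit 1548) (.e (nat_lit 2276) (nat_lit 150) (.e (nat_lit 770071) (nat_lit 8) (.e (nat_lit 65610) (nat_lit 10) (.e (nat_lit 344090) (nat_lit 18) (.e (nat_lit 7266) (nat_lit 384) (.e (nat_lit 57436) (nat_lit 17) (.e (nat_lit 376855) (nat_lit 20) .nil))))))) (.g (nat_lit 4) .nil .nil))) 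
(.lf (nat_lit 91505) (.g (nat_lit 4224) (.e (nat_lit 2276) (nat_lit 150) (.e (nat_lit 770072) (nat_lit 8) (.e (nat_lit 65630) (nat_lit 14) (.e (nat_lit 401454) (nat_lit 12) (.e (nat_lit 475214) (nat_lit 42) (.e (nat_lit 720956) (nat_lit 25) (.e (nat_lit 114702) (nat_lit 20) .nil))))))) (.g (nat_lit 5) .nil .nil))))) (.nd (nat_lit 4) (.nd (nat_lit 5) 
(.lf (nat_lit 91465) (.g (nat_lit 2097) (.e (nat_lit 2276) (nat_lit 150) (.e (nat_lit 770069) (nat_lit 7) (.e (nat_lit 57479) (nat_lit 28) (.e (nat_lit 557103) (nat_lit 14) (.e (nat_lit 180250) (nat_lit 10) (.e (nat_lit 573487) (nat_lit 14) (.e (nat_lit 81664) (nat_lit 5) (.e (nat_lit 532490) (nat_lit 0) .nil)))))))) (.g (nat_lit 4) .nil .nil))) 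
(.lf (nat_lit 91497) (.g (nat_lit 4210) (.e (nat_lit 2276) (nat_lit 150) (.e (nat_lit 770072) (nat_lit 8) (.e (nat_lit 65629) (nat_lit 14) (.e (nat_lit 401454) (nat_lit 12) (.e (nat_lit 475213) (nat_lit 42) (.e (nat_lit 720956) (nat_lit 25) (.e (nat_lit 114702) (nat_lit 20) .nil))))))) (.g (nat_lit 4) .nil .nil)))) (.nd (nat_lit 5) 
(.lf (nat_lit 91481) (.g (nat_lit 3581) (.e (nat_lit 2276) (nat_lit 150) (.e (nat_lit 770071) (nat_lit 8) (.e (nat_lit 65630) (nat_lit 14) (.e (nat_lit 401454) (nat_lit 12) (.e (nat_lit 475212) (nat_lit 42) (.e (nat_lit 720956) (nat_lit 25) (.e (nat_lit 114702) (nat_lit 20) .nil))))))) (.g (nat_lit 0) .nil .nil))) 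
(.lf (nat_lit 91513) (.g (nat_lit 1938) (.e (nat_lit 2278) (nat_lit 150) (.e (nat_lit 770074) (nat_lit 10) (.e (nat_lit 81965) (nat_lit 26) (.e (nat_lit 147467) (nat_lit 9) (.e (nat_lit 314) (nat_lit 23) .nil))))) .nil))))) (.nd (nat_lit 3) (.nd (nat_lit 4) (.nd (nat_lit 5) 
(.lf (nat_lit 91461) (.g (nat_lit 1047) (.e (nat_lit 2276) (nat_lit 150) (.e (nat_lit 770058) (nat_lit 5) (.e (nat_lit 1589) (nat_lit 111) (.e (nat_lit 360451) (nat_lit 0) .nil)))) .nil)) 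
(.lf (nat_lit 91493) (.g (nat_lit 1085) (.e (nat_lit 2276) (nat_lit 150) (.e (nat_lit 770072) (nat_lit 8) (.e (nat_lit 65617) (nat_lit 10) (.e (nat_lit 344095) (nat_lit 18) .nil)))) .nil))) (.nd (nat_lit 5) 
(.lf (nat_lit 91477) (.g (nat_lit 1434) (.e (nat_lit 2276) (nat_lit 150) (.e (nat_lit 770071) (nat_lit 8) (.e (nat_lit 65617) (nat_lit 10) (.e (nat_lit 344095) (nat_lit 18) (.e (nat_lit 7261) (nat_lit 384) (.e (nat_lit 57437) (nat_lit 17) (.e (nat_lit 376855) (nat_lit 20) .nil))))))) (.g (nat_lit 4) .nil .nil))) 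
(.lf (nat_lit 91509) (.g (nat_lit 3260) (.e (nat_lit 2278) (nat_lit 150) (.e (nat_lit 770068) (nat_lit 7) (.e (nat_lit 57480) (nat_lit 28) (.e (nat_lit 557105) (nat_lit 14) (.e (nat_lit 180252) (nat_lit 10) (.e (nat_lit 573488) (nat_lit 14) (.e (nat_lit 81664) (nat_lit 5) (.e (nat_lit 532490) (nat_lit 0) .nil)))))))) (.g (nat_lit 6) .nil .nil))))) (.nd (nat_lit 4) (.nd (nat_lit 5) 
(.lf (nat_lit 91469) (.g (nat_lit 3000) (.e (nat_lit 2276) (nat_lit 150) (.e (nat_lit 770069) (nat_lit 7) (.e (nat_lit 57479) (nat_lit 28) (.e (nat_lit 557109) (nat_lit 15) (.e (nat_lit 188446) (nat_lit 21) .nil))))) .nil)) 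
(.lf (nat_lit 91501) (.g (nat_lit 3460) (.e (nat_lit 2276) (nat_lit 150) (.e (nat_lit 770072) (nat_lit 8) (.e (nat_lit 65630) (nat_lit 14) (.e (nat_lit 401454) (nat_lit 12) (.e (nat_lit 475212) (nat_lit 42) (.e (nat_lit 720955) (nat_lit 25) (.e (nat_lit 114702) (nat_lit 20) .nil))))))) (.g (nat_lit 6) .nil .nil)))) (.nd (nat_lit 5) 
(.lf (nat_lit 91485) (.g (nat_lit 1889) (.e (nat_lit 2276) (nat_lit 150) (.e (nat_lit 770072) (nat_lit 8) (.e (nat_lit 65583) (nat_lit 7) (.e (nat_lit 319530) (nat_lit 16) (.e (nat_lit 286751) (nat_lit 10) (.e (nat_lit 344161) (nat_lit 37) (.e (nat_lit 647195) (nat_lit 9) (.e (nat_lit 1040) (nat_lit 81) .nil)))))))) (.g (nat_lit 4) .nil .nil))) 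
(.lf (nat_lit 91517) (.g (nat_lit 2098) (.e (nat_lit 2279) (nat_lit 150) (.e (nat_lit 770069) (nat_lit 7) (.e (nat_lit 57479) (nat_lit 28) (.e (nat_lit 557103) (nat_lit 14) (.e (nat_lit 180250) (nat_lit 10) .nil))))) .nil)))))) (.nd (nat_lit 2) (.nd (nat_lit 3) (.nd (nat_lit 4) (.nd (nat_lit 5) 
(.lf (nat_lit 91459) (.g (nat_lit 2589) (.e (nat_lit 2276) (nat_lit 150) (.e (nat_lit 770057) (nat_lit 5) (.e (nat_lit 1589) (nat_lit 111) (.e (nat_lit 360449) (nat_lit 0) (.e (nat_lit 7265) (nat_lit 384) (.e (nat_lit 57436) (nat_lit 17) (.e (nat_lit 376855) (nat_lit 20) .nil))))))) (.g (nat_lit 6) .nil .nil))) 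
(.lf (nat_lit 91491) (.g (nat_lit 1490) (.e (nat_lit 2276) (nat_lit 150) (.e (nat_lit 770072) (nat_lit 8) (.e (nat_lit 65610) (nat_lit 10) (.e (nat_lit 344090) (nat_lit 18) (.e (nat_lit 7265) (nat_lit 384) .nil))))) .nil))) (.nd (nat_lit 5) 
(.lf (nat_lit 91475) (.g (nat_lit 1691) (.e (nat_lit 2276) (nat_lit 150) (.e (nat_lit 770071) (nat_lit 8) (.e (nat_lit 65617) (nat_lit 10) (.e (nat_lit 344091) (nat_lit 18) (.e (nat_lit 7261) (nat_lit 384) (.e (nat_lit 57437) (nat_lit 17) (.e (nat_lit 376855) (nat_lit 20) .nil))))))) (.g (nat_lit 4) .nil .nil))) 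
(.lf (nat_lit 91507) (.g (nat_lit 1591) (.e (nat_lit 2276) (nat_lit 150) (.e (nat_lit 770074) (nat_lit 10) (.e (nat_lit 81965) (nat_lit 26) (.e (nat_lit 147464) (nat_lit 9) .nil)))) .nil)))) (.nd (nat_lit 4) (.nd (nat_lit 5) 
(.lf (nat_lit 91467) (.g (nat_lit 3000) (.e (nat_lit 2276) (nat_lit 150) (.e (nat_lit 770069) (nat_lit 7) (.e (nat_lit 57479) (nat_lit 28) (.e (nat_lit 557105) (nat_lit 14) (.e (nat_lit 180252) (nat_lit 10) (.e (nat_lit 573489) (nat_lit 14) (.e (nat_lit 81664) (nat_lit 5) (.e (nat_lit 532493) (nat_lit 0) .nil)))))))) (.g (nat_lit 6) .nil .nil))) 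
(.lf (nat_lit 91499) (.g (nat_lit 5447) (.e (nat_lit 2276) (nat_lit 150) (.e (nat_lit 770072) (nat_lit 8) (.e (nat_lit 65629) (nat_lit 14) (.e (nat_lit 401454) (nat_lit 12) (.e (nat_lit 475214) (nat_lit 42) (.e (nat_lit 720956) (nat_lit 25) (.e (nat_lit 114702) (nat_lit 20) .nil))))))) (.g (nat_lit 7) .nil .nil)))) (.nd (nat_lit 5) 
(.lf (nat_lit 91483) (.g (nat_lit 4618) (.e (nat_lit 2276) (nat_lit 150) (.e (nat_lit 770071) (nat_lit 8) (.e (nat_lit 65630) (nat_lit 14) (.e (nat_lit 401454) (nat_lit 12) (.e (nat_lit 475214) (nat_lit 42) (.e (nat_lit 720955) (nat_lit 25) (.e (nat_lit 114702) (nat_lit 20) .nil))))))) (.g (nat_lit 7) .nil .nil))) 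
(.lf (nat_lit 91515) (.g (nat_lit 1293) (.e (nat_lit 2279) (nat_lit 150) (.e (nat_lit 770055) (nat_lit 5) (.e (nat_lit 1598) (nat_lit 111) (.e (nat_lit 360452) (nat_lit 0) (.e (nat_lit 7147) (nat_lit 382) (.e (nat_lit 1216) (nat_lit 90) (.e (nat_lit 81938) (nat_lit 20) .nil))))))) (.g (nat_lit 4) .nil .nil)))))) (.nd (nat_lit 3) (.nd (nat_lit 4) (.nd (nat_lit 5) 
(.lf (nat_lit 91463) (.g (nat_lit 2818) (.e (nat_lit 2276) (nat_lit 150) (.e (nat_lit 770068) (nat_lit 7) (.e (nat_lit 57480) (nat_lit 28) (.e (nat_lit 557108) (nat_lit 15) (.e (nat_lit 188446) (nat_lit 21) (.e (nat_lit 164177) (nat_lit 154) (.e (nat_lit 57390) (nat_lit 5) (.e (nat_lit 114702) (nat_lit 20) .nil)))))))) (.g (nat_lit 5) .nil .nil))) 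
(.lf (nat_lit 91495) (.g (nat_lit 1736) (.e (nat_lit 2276) (nat_lit 150) (.e (nat_lit 770072) (nat_lit 8) (.e (nat_lit 65617) (nat_lit 10) (.e (nat_lit 344096) (nat_lit 18) (.e (nat_lit 7265) (nat_lit 384) (.e (nat_lit 57436) (nat_lit 17) (.e (nat_lit 376855) (nat_lit 20) .nil))))))) (.g (nat_lit 4) .nil .nil)))) (.nd (nat_lit 5) 
(.lf (nat_lit 91479) (.g (nat_lit 2883) (.e (nat_lit 2276) (nat_lit 150) (.e (nat_lit 770071) (nat_lit 8) (.e (nat_lit 65630) (nat_lit 14) (.e (nat_lit 401422) (nat_lit 1) (.e (nat_lit 164178) (nat_lit 154) (.e (nat_lit 57437) (nat_lit 17) (.e (nat_lit 376855) (nat_lit 20) .nil))))))) (.g (nat_lit 6) .nil .nil))) 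
(.lf (nat_lit 91511) (.g (nat_lit 529) (.e (nat_lit 2278) (nat_lit 150) (.e (nat_lit 770072) (nat_lit 8) (.e (nat_lit 65617) (nat_lit 10) .nil))) .nil)))) (.nd (nat_lit 4) (.nd (nat_lit 5) 
(.lf (nat_lit 91471) (.g (nat_lit 4698) (.e (nat_lit 2276) (nat_lit 150) (.e (nat_lit 770069) (nat_lit 7) (.e (nat_lit 57480) (nat_lit 28) (.e (nat_lit 557108) (nat_lit 15) (.e (nat_lit 188446) (nat_lit 21) (.e (nat_lit 164178) (nat_lit 154) (.e (nat_lit 57390) (nat_lit 5) (.e (nat_lit 114702) (nat_lit 20) .nil)))))))) (.g (nat_lit 0) .nil .nil))) 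
(.lf (nat_lit 91503) (.g (nat_lit 3913) (.e (nat_lit 2276) (nat_lit 150) (.e (nat_lit 770072) (nat_lit 8) (.e (nat_lit 65630) (nat_lit 14) (.e (nat_lit 401454) (nat_lit 12) (.e (nat_lit 475213) (nat_lit 42) (.e (nat_lit 720956) (nat_lit 25) (.e (nat_lit 114702) (nat_lit 20) .nil))))))) (.g (nat_lit 5) .nil .nil)))) (.nd (nat_lit 5) 
(.lf (nat_lit 91487) (.g (nat_lit 2358) (.e (nat_lit 2276) (nat_lit 150) (.e (nat_lit 770072) (nat_lit 8) (.e (nat_lit 65583) (nat_lit 7) (.e (nat_lit 319530) (nat_lit 16) (.e (nat_lit 286755) (nat_lit 10) (.e (nat_lit 344161) (nat_lit 37) (.e (nat_lit 647195) (nat_lit 9) (.e (nat_lit 1040) (nat_lit 81) .nil)))))))) (.g (nat_lit 4) .nil .nil))) 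
(.lf (nat_lit 91519) (.g (nat_lit 1448) (.e (nat_lit 2279) (nat_lit 150) (.e (nat_lit 770071) (nat_lit 8) (.e (nat_lit 65610) (nat_lit 10) (.e (nat_lit 344090) (nat_lit 18) (.e (nat_lit 7119) (nat_lit 382) .nil))))) .nil))))))))

noncomputable def tv1252 : DT := (.nd (nat_lit 0) (.nd (nat_lit 1) (.nd (nat_lit 2) (.nd (nat_lit 3) (.nd (nat_lit 4) (.nd (nat_lit 5) (.nd (nat_lit 6) 
(.lf (nat_lit 91520) (.g (nat_lit 2153) (.e (nat_lit 2279) (nat_lit 150) (.e (nat_lit 770071) (nat_lit 8) (.e (nat_lit 65610) (nat_lit 10) (.e (nat_lit 344097) (nat_lit 18) (.e (nat_lit 7145) (nat_lit 382) .nil))))) .nil)) 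
(.lf (nat_lit 91584) (.g (nat_lit 2042) (.e (nat_lit 2280) (nat_lit 150) (.e (nat_lit 770055) (nat_lit 5) (.e (nat_lit 1586) (nat_lit 111) (.e (nat_lit 360450) (nat_lit 0) (.e (nat_lit 7119) (nat_lit 382) (.e (nat_lit 7936) (nat_lit 90) (.e (nat_lit 81946) (nat_lit 20) .nil))))))) (.g (nat_lit 4) .nil .nil)))) (.nd (nat_lit 6) 
(.lf (nat_lit 91552) (.g (nat_lit 2003) (.e (nat_lit 2279) (nat_lit 150) (.e (nat_lit 770072) (nat_lit 8) (.e (nat_lit 65610) (nat_lit 10) (.e (nat_lit 344097) (nat_lit 18) (.e (nat_lit 7147) (nat_lit 382) (.e (nat_lit 1216) (nat_lit 90) (.e (nat_lit 81943) (nat_lit 20) .nil))))))) (.g (nat_lit 4) .nil .nil))) 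
(.lf (nat_lit 91616) (.g (nat_lit 2047) (.e (nat_lit 2280) (nat_lit 150) (.e (nat_lit 770069) (nat_lit 7) (.e (nat_lit 57479) (nat_lit 28) (.e (nat_lit 557103) (nat_lit 14) (.e (nat_lit 180250) (nat_lit 10) .nil))))) .nil)))) (.nd (nat_lit 5) (.nd (nat_lit 6) 
(.lf (nat_lit 91536) (.g (nat_lit 1729) (.e (nat_lit 2279) (nat_lit 150) (.e (nat_lit 770071) (nat_lit 8) (.e (nat_lit 65619) (nat_lit 10) (.e (nat_lit 344174) (nat_lit 42) (.e (nat_lit 769792) (nat_lit 10) .nil))))) .nil)) 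
(.lf (nat_lit 91600) (.g (nat_lit 1349) (.e (nat_lit 2280) (nat_lit 150) (.e (nat_lit 770056) (nat_lit 5) (.e (nat_lit 1598) (nat_lit 111) (.e (nat_lit 360489) (nat_lit 21) (.e (nat_lit 770074) (nat_lit 10) (.e (nat_lit 81942) (nat_lit 20) .nil)))))) (.g (nat_lit 5) .nil .nil)))) (.nd (nat_lit 6) 
(.lf (nat_lit 91568) (.g (nat_lit 1119) (.e (nat_lit 2279) (nat_lit 150) (.e (nat_lit 770072) (nat_lit 8) (.e (nat_lit 65617) (nat_lit 10) (.e (nat_lit 344096) (nat_lit 18) .nil)))) .nil)) 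
(.lf (nat_lit 91632) (.g (nat_lit 2432) (.e (nat_lit 2280) (nat_lit 150) (.e (nat_lit 770071) (nat_lit 8) (.e (nat_lit 65610) (nat_lit 10) (.e (nat_lit 344097) (nat_lit 18) (.e (nat_lit 7270) (nat_lit 385) (.e (nat_lit 122916) (nat_lit 14) (.e (nat_lit 352303) (nat_lit 20) .nil))))))) (.g (nat_lit 4) .nil .nil)))))) (.nd (nat_lit 4) (.nd (nat_lit 5) (.nd (nat_lit 6) 
(.lf (nat_lit 91528) (.g (nat_lit 1812) (.e (nat_lit 2279) (nat_lit 150) (.e (nat_lit 770071) (nat_lit 8) (.e (nat_lit 65617) (nat_lit 10) (.e (nat_lit 344091) (nat_lit 18) (.e (nat_lit 7119) (nat_lit 382) .nil))))) .nil)) 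
(.lf (nat_lit 91592) (.g (nat_lit 852) (.e (nat_lit 2280) (nat_lit 150) (.e (nat_lit 770055) (nat_lit 5) (.e (nat_lit 1589) (nat_lit 111) (.e (nat_lit 360451) (nat_lit 0) .nil)))) .nil))) (.nd (nat_lit 6) 
(.lf (nat_lit 91560) (.g (nat_lit 1339) (.e (nat_lit 2279) (nat_lit 150) (.e (nat_lit 770072) (nat_lit 8) (.e (nat_lit 65616) (nat_lit 10) (.e (nat_lit 344174) (nat_lit 42) (.e (nat_lit 769792) (nat_lit 10) .nil))))) .nil)) 
(.lf (nat_lit 91624) (.g (nat_lit 2239) (.e (nat_lit 2280) (nat_lit 150) (.e (nat_lit 770071) (nat_lit 8) (.e (nat_lit 65610) (nat_lit 10) (.e (nat_lit 344097) (nat_lit 18) (.e (nat_lit 7145) (nat_lit 382) .nil))))) .nil)))) (.nd (nat_lit 5) (.nd (nat_lit 6) 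
(.lf (nat_lit 91544) (.g (nat_lit 1797) (.e (nat_lit 2279) (nat_lit 150) (.e (nat_lit 770072) (nat_lit 8) (.e (nat_lit 65586) (nat_lit 7) (.e (nat_lit 319533) (nat_lit 16) (.e (nat_lit 286753) (nat_lit 10) .nil))))) .nil)) 
(.lf (nat_lit 91608) (.g (nat_lit 1618) (.e (nat_lit 2280) (nat_lit 150) (.e (nat_lit 770057) (nat_lit 5) (.e (nat_lit 1589) (nat_lit 111) (.e (nat_lit 360451) (nat_lit 0) (.e (nat_lit 7124) (nat_lit 382) .nil))))) .nil))) (.nd (nat_lit 6) 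
(.lf (nat_lit 91576) (.g (nat_lit 1795) (.e (nat_lit 2279) (nat_lit 150) (.e (nat_lit 770072) (nat_lit 8) (.e (nat_lit 65619) (nat_lit 10) (.e (nat_lit 344090) (nat_lit 18) (.e (nat_lit 7122) (nat_lit 382) .nil))))) .nil)) 
(.lf (nat_lit 91640) (.g (nat_lit 1813) (.e (nat_lit 2280) (nat_lit 150) (.e (nat_lit 770071) (nat_lit 8) (.e (nat_lit 65610) (nat_lit 10) (.e (nat_lit 344176) (nat_lit 43) (.e (nat_lit 770074) (nat_lit 10) (.e (nat_lit 81938) (nat_lit 20) .nil)))))) (.g (nat_lit 4) .nil .nil))))))) (.nd (nat_lit 3) (.nd (nat_lit 4) (.nd (nat_lit 5) (.nd (nat_lit 6) 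
(.lf (nat_lit 91524) (.g (nat_lit 1381) (.e (nat_lit 2279) (nat_lit 150) (.e (nat_lit 770071) (nat_lit 8) (.e (nat_lit 65610) (nat_lit 10) (.e (nat_lit 344174) (nat_lit 42) (.e (nat_lit 769792) (nat_lit 10) (.e (nat_lit 81938) (nat_lit 20) .nil)))))) (.g (nat_lit 4) .nil .nil))) 
(.lf (nat_lit 91588) (.g (nat_lit 2751) (.e (nat_lit 2280) (nat_lit 150) (.e (nat_lit 770055) (nat_lit 5) (.e (nat_lit 1586) (nat_lit 111) (.e (nat_lit 360451) (nat_lit 0) (.e (nat_lit 7122) (nat_lit 382) (.e (nat_lit 1222) (nat_lit 90) (.e (nat_lit 81943) (nat_lit 20) .nil))))))) (.g (nat_lit 5) .nil .nil)))) (.nd (nat_lit 6) 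
(.lf (nat_lit 91556) (.g (nat_lit 1479) (.e (nat_lit 2279) (nat_lit 150) (.e (nat_lit 770072) (nat_lit 8) (.e (nat_lit 65610) (nat_lit 10) (.e (nat_lit 344174) (nat_lit 42) (.e (nat_lit 769792) (nat_lit 10) .nil))))) .nil)) 
(.lf (nat_lit 91620) (.g (nat_lit 985) (.e (nat_lit 2280) (nat_lit 150) (.e (nat_lit 770071) (nat_lit 8) (.e (nat_lit 65610) (nat_lit 10) (.e (nat_lit 344090) (nat_lit 18) .nil)))) .nil)))) (.nd (nat_lit 5) (.nd (nat_lit 6) 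
(.lf (nat_lit 91540) (.g (nat_lit 2132) (.e (nat_lit 2279) (nat_lit 150) (.e (nat_lit 770072) (nat_lit 8) (.e (nat_lit 65583) (nat_lit 7) (.e (nat_lit 319530) (nat_lit 16) (.e (nat_lit 286756) (nat_lit 10) .nil))))) .nil)) 
(.lf (nat_lit 91604) (.g (nat_lit 1661) (.e (nat_lit 2280) (nat_lit 150) (.e (nat_lit 770057) (nat_lit 5) (.e (nat_lit 1586) (nat_lit 111) (.e (nat_lit 360451) (nat_lit 0) (.e (nat_lit 7119) (nat_lit 382) (.e (nat_lit 7936) (nat_lit 90) (.e (nat_lit 81938) (nat_lit 20) .nil))))))) (.g (nat_lit 4) .nil .nil)))) (.nd (nat_lit 6) 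
(.lf (nat_lit 91572) (.g (nat_lit 1760) (.e (nat_lit 2279) (nat_lit 150) (.e (nat_lit 770072) (nat_lit 8) (.e (nat_lit 65617) (nat_lit 10) (.e (nat_lit 344096) (nat_lit 18) (.e (nat_lit 7124) (nat_lit 382) .nil))))) .nil)) 
(.lf (nat_lit 91636) (.g (nat_lit 2104) (.e (nat_lit 2280) (nat_lit 150) (.e (nat_lit 770071) (nat_lit 8) (.e (nat_lit 65610) (nat_lit 10) (.e (nat_lit 344097) (nat_lit 18) (.e (nat_lit 7273) (nat_lit 385) .nil))))) .nil))))) (.nd (nat_lit 4) (.nd (nat_lit 5) (.nd (nat_lit 6) 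
(.lf (nat_lit 91532) (.g (nat_lit 1844) (.e (nat_lit 2279) (nat_lit 150) (.e (nat_lit 770071) (nat_lit 8) (.e (nat_lit 65617) (nat_lit 10) (.e (nat_lit 344096) (nat_lit 18) (.e (nat_lit 7119) (nat_lit 382) .nil))))) .nil)) 
(.lf (nat_lit 91596) (.g (nat_lit 964) (.e (nat_lit 2280) (nat_lit 150) (.e (nat_lit 770055) (nat_lit 5) (.e (nat_lit 1595) (nat_lit 111) (.e (nat_lit 360489) (nat_lit 21) (.e (nat_lit 770074) (nat_lit 10) .nil))))) .nil))) (.nd (nat_lit 6) 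
(.lf (nat_lit 91564) (.g (nat_lit 1855) (.e (nat_lit 2279) (nat_lit 150) (.e (nat_lit 770072) (nat_lit 8) (.e (nat_lit 65617) (nat_lit 10) (.e (nat_lit 344091) (nat_lit 18) (.e (nat_lit 7122) (nat_lit 382) .nil))))) .nil)) 
(.lf (nat_lit 91628) (.g (nat_lit 2114) (.e (nat_lit 2280) (nat_lit 150) (.e (nat_lit 770071) (nat_lit 8) (.e (nat_lit 65610) (nat_lit 10) (.e (nat_lit 344097) (nat_lit 18) (.e (nat_lit 7147) (nat_lit 382) (.e (nat_lit 1216) (nat_lit 90) (.e (nat_lit 81939) (nat_lit 20) .nil))))))) (.g (nat_lit 4) .nil .nil))))) (.nd (nat_lit 5) (.nd (nat_lit 6) 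
(.lf (nat_lit 91548) (.g (nat_lit 1546) (.e (nat_lit 2279) (nat_lit 150) (.e (nat_lit 770072) (nat_lit 8) (.e (nat_lit 65610) (nat_lit 10) (.e (nat_lit 344090) (nat_lit 18) (.e (nat_lit 7124) (nat_lit 382) (.e (nat_lit 7936) (nat_lit 90) (.e (nat_lit 81942) (nat_lit 20) .nil))))))) (.g (nat_lit 4) .nil .nil))) 
(.lf (nat_lit 91612) (.g (nat_lit 1378) (.e (nat_lit 2280) (nat_lit 150) (.e (nat_lit 770057) (nat_lit 5) (.e (nat_lit 1598) (nat_lit 111) (.e (nat_lit 360449) (nat_lit 0) (.e (nat_lit 7124) (nat_lit 382) (.e (nat_lit 7936) (nat_lit 90) (.e (nat_lit 81942) (nat_lit 20) .nil))))))) (.g (nat_lit 5) .nil .nil)))) (.nd (nat_lit 6) 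
(.lf (nat_lit 91580) (.g (nat_lit 1466) (.e (nat_lit 2279) (nat_lit 150) (.e (nat_lit 770072) (nat_lit 8) (.e (nat_lit 65620) (nat_lit 10) (.e (nat_lit 344174) (nat_lit 42) (.e (nat_lit 769792) (nat_lit 10) .nil))))) .nil)) 
(.lf (nat_lit 91644) (.g (nat_lit 3073) (.e (nat_lit 2280) (nat_lit 150) (.e (nat_lit 770071) (nat_lit 8) (.e (nat_lit 65610) (nat_lit 10) (.e (nat_lit 344177) (nat_lit 43) (.e (nat_lit 770074) (nat_lit 10) (.e (nat_lit 81946) (nat_lit 20) .nil)))))) (.g (nat_lit 6) .nil .nil)))))))) (.nd (nat_lit 2) (.nd (nat_lit 3) (.nd (nat_lit 4) (.nd (nat_lit 5) (.nd (nat_lit 6) 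
(.lf (nat_lit 91522) (.g (nat_lit 1042) (.e (nat_lit 2279) (nat_lit 150) (.e (nat_lit 770071) (nat_lit 8) (.e (nat_lit 65610) (nat_lit 10) (.e (nat_lit 344173) (nat_lit 42) .nil)))) .nil)) 
(.lf (nat_lit 91586) (.g (nat_lit 1277) (.e (nat_lit 2280) (nat_lit 150) (.e (nat_lit 770055) (nat_lit 5) (.e (nat_lit 1586) (nat_lit 111) (.e (nat_lit 360451) (nat_lit 0) (.e (nat_lit 7119) (nat_lit 382) .nil))))) .nil))) (.nd (nat_lit 6) 
(.lf (nat_lit 91554) (.g (nat_lit 2044) (.e (nat_lit 2279) (nat_lit 150) (.e (nat_lit 770072) (nat_lit 8) (.e (nat_lit 65610) (nat_lit 10) (.e (nat_lit 344097) (nat_lit 18) (.e (nat_lit 7273) (nat_lit 385) .nil))))) .nil)) 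
(.lf (nat_lit 91618) (.g (nat_lit 3318) (.e (nat_lit 2280) (nat_lit 150) (.e (nat_lit 770069) (nat_lit 7) (.e (nat_lit 57479) (nat_lit 28) (.e (nat_lit 557105) (nat_lit 14) (.e (nat_lit 180252) (nat_lit 10) (.e (nat_lit 573489) (nat_lit 14) (.e (nat_lit 73742) (nat_lit 1) (.e (nat_lit 499991) (nat_lit 14) (.e (nat_lit 1023) (nat_lit 81) .nil))))))))) (.g (nat_lit 6) .nil .nil))))) 
(.nd (nat_lit 5) (.nd (nat_lit 6) 
(.lf (nat_lit 91538) (.g (nat_lit 1277) (.e (nat_lit 2279) (nat_lit 150) (.e (nat_lit 770071) (nat_lit 8) (.e (nat_lit 65620) (nat_lit 10) (.e (nat_lit 344174) (nat_lit 42) (.e (nat_lit 769792) (nat_lit 10) .nil))))) .nil)) 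
(.lf (nat_lit 91602) (.g (nat_lit 2278) (.e (nat_lit 2280) (nat_lit 150) (.e (nat_lit 770057) (nat_lit 5) (.e (nat_lit 1586) (nat_lit 111) (.e (nat_lit 360450) (nat_lit 0) (.e (nat_lit 7122) (nat_lit 382) (.e (nat_lit 7936) (nat_lit 90) (.e (nat_lit 81938) (nat_lit 20) .nil))))))) (.g (nat_lit 5) .nil .nil)))) (.nd (nat_lit 6) 
(.lf (nat_lit 91570) (.g (nat_lit 2720) (.e (nat_lit 2279) (nat_lit 150) (.e (nat_lit 770072) (nat_lit 8) (.e (nat_lit 65617) (nat_lit 10) (.e (nat_lit 344096) (nat_lit 18) (.e (nat_lit 7122) (nat_lit 382) (.e (nat_lit 7936) (nat_lit 90) (.e (nat_lit 81938) (nat_lit 20) .nil))))))) (.g (nat_lit 5) .nil .nil))) 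
(.lf (nat_lit 91634) (.g (nat_lit 2045) (.e (nat_lit 2280) (nat_lit 150) (.e (nat_lit 770071) (nat_lit 8) (.e (nat_lit 65610) (nat_lit 10) (.e (nat_lit 344097) (nat_lit 18) (.e (nat_lit 7272) (nat_lit 385) (.e (nat_lit 122916) (nat_lit 14) (.e (nat_lit 352296) (nat_lit 20) .nil))))))) (.g (nat_lit 4) .nil .nil)))))) (.nd (nat_lit 4) (.nd (nat_lit 5) (.nd (nat_lit 6) 
(.lf (nat_lit 91530) (.g (nat_lit 1083) (.e (nat_lit 2279) (nat_lit 150) (.e (nat_lit 770071) (nat_lit 8) (.e (nat_lit 65617) (nat_lit 10) (.e (nat_lit 344095) (nat_lit 18) .nil)))) .nil)) 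
(.lf (nat_lit 91594) (.g (nat_lit 3697) (.e (nat_lit 2280) (nat_lit 150) (.e (nat_lit 770055) (nat_lit 5) (.e (nat_lit 1589) (nat_lit 111) (.e (nat_lit 360451) (nat_lit 0) (.e (nat_lit 7125) (nat_lit 382) (.e (nat_lit 1224) (nat_lit 90) (.e (nat_lit 81946) (nat_lit 20) .nil))))))) (.g (nat_lit 6) .nil .nil)))) (.nd (nat_lit 6) 
(.lf (nat_lit 91562) (.g (nat_lit 1121) (.e (nat_lit 2279) (nat_lit 150) (.e (nat_lit 770072) (nat_lit 8) (.e (nat_lit 65617) (nat_lit 10) (.e (nat_lit 344091) (nat_lit 18) .nil)))) .nil)) 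
(.lf (nat_lit 91626) (.g (nat_lit 2160) (.e (nat_lit 2280) (nat_lit 150) (.e (nat_lit 770071) (nat_lit 8) (.e (nat_lit 65610) (nat_lit 10) (.e (nat_lit 344097) (nat_lit 18) (.e (nat_lit 7146) (nat_lit 382) .nil))))) .nil)))) (.nd (nat_lit 5) (.nd (nat_lit 6) 
(.lf (nat_lit 91546) (.g (nat_lit 1578) (.e (nat_lit 2279) (nat_lit 150) (.e (nat_lit 770072) (nat_lit 8) (.e (nat_lit 65610) (nat_lit 10) (.e (nat_lit 344090) (nat_lit 18) (.e (nat_lit 7119) (nat_lit 382) .nil))))) .nil)) 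
(.lf (nat_lit 91610) (.g (nat_lit 978) (.e (nat_lit 2280) (nat_lit 150) (.e (nat_lit 770057) (nat_lit 5) (.e (nat_lit 1589) (nat_lit 111) (.e (nat_lit 360490) (nat_lit 22) .nil)))) .nil))) (.nd (nat_lit 6) 
(.lf (nat_lit 91578) (.g (nat_lit 1022) (.e (nat_lit 2279) (nat_lit 150) (.e (nat_lit 770072) (nat_lit 8) (.e (nat_lit 65619) (nat_lit 10) (.e (nat_lit 344097) (nat_lit 18) .nil)))) .nil)) 
(.lf (nat_lit 91642) (.g (nat_lit 2880) (.e (nat_lit 2280) (nat_lit 150) (.e (nat_lit 770071) (nat_lit 8) (.e (nat_lit 65610) (nat_lit 10) (.e (nat_lit 344177) (nat_lit 43) (.e (nat_lit 770074) (nat_lit 10) (.e (nat_lit 81942) (nat_lit 20) .nil)))))) (.g (nat_lit 0) .nil .nil))))))) (.nd (nat_lit 3) (.nd (nat_lit 4) (.nd (nat_lit 5) (.nd (nat_lit 6) 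
(.lf (nat_lit 91526) (.g (nat_lit 1167) (.e (nat_lit 2279) (nat_lit 150) (.e (nat_lit 770071) (nat_lit 8) (.e (nat_lit 65616) (nat_lit 10) (.e (nat_lit 344174) (nat_lit 42) (.e (nat_lit 769792) (nat_lit 10) .nil))))) .nil)) 
(.lf (nat_lit 91590) (.g (nat_lit 2114) (.e (nat_lit 2280) (nat_lit 150) (.e (nat_lit 770055) (nat_lit 5) (.e (nat_lit 1586) (nat_lit 111) (.e (nat_lit 360489) (nat_lit 21) (.e (nat_lit 770074) (nat_lit 10) (.e (nat_lit 81942) (nat_lit 20) .nil)))))) (.g (nat_lit 5) .nil .nil)))) (.nd (nat_lit 6) 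
(.lf (nat_lit 91558) (.g (nat_lit 1361) (.e (nat_lit 2279) (nat_lit 150) (.e (nat_lit 770072) (nat_lit 8) (.e (nat_lit 65611) (nat_lit 10) (.e (nat_lit 344174) (nat_lit 42) (.e (nat_lit 769792) (nat_lit 10) .nil))))) .nil)) 
(.lf (nat_lit 91622) (.g (nat_lit 1721) (.e (nat_lit 2280) (nat_lit 150) (.e (nat_lit 770071) (nat_lit 8) (.e (nat_lit 65610) (nat_lit 10) (.e (nat_lit 344090) (nat_lit 18) (.e (nat_lit 7119) (nat_lit 382) (.e (nat_lit 7936) (nat_lit 90) (.e (nat_lit 81942) (nat_lit 20) .nil))))))) (.g (nat_lit 4) .nil .nil))))) (.nd (nat_lit 5) (.nd (nat_lit 6) 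
(.lf (nat_lit 91542) (.g (nat_lit 2532) (.e (nat_lit 2279) (nat_lit 150) (.e (nat_lit 770072) (nat_lit 8) (.e (nat_lit 65583) (nat_lit 7) (.e (nat_lit 319533) (nat_lit 16) (.e (nat_lit 286753) (nat_lit 10) .nil))))) .nil)) 
(.lf (nat_lit 91606) (.g (nat_lit 769) (.e (nat_lit 2280) (nat_lit 150) (.e (nat_lit 770057) (nat_lit 5) (.e (nat_lit 1589) (nat_lit 111) (.e (nat_lit 360449) (nat_lit 0) .nil)))) .nil))) (.nd (nat_lit 6) 
(.lf (nat_lit 91574) (.g (nat_lit 1050) (.e (nat_lit 2279) (nat_lit 150) (.e (nat_lit 770072) (nat_lit 8) (.e (nat_lit 65619) (nat_lit 10) (.e (nat_lit 344090) (nat_lit 18) .nil)))) .nil)) 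
(.lf (nat_lit 91638) (.g (nat_lit 1432) (.e (nat_lit 2280) (nat_lit 150) (.e (nat_lit 770071) (nat_lit 8) (.e (nat_lit 65610) (nat_lit 10) (.e (nat_lit 344174) (nat_lit 42) (.e (nat_lit 769792) (nat_lit 10) .nil))))) .nil))))) (.nd (nat_lit 4) (.nd (nat_lit 5) (.nd (nat_lit 6) 
(.lf (nat_lit 91534) (.g (nat_lit 1053) (.e (nat_lit 2279) (nat_lit 150) (.e (nat_lit 770071) (nat_lit 8) (.e (nat_lit 65619) (nat_lit 10) (.e (nat_lit 344090) (nat_lit 18) .nil)))) .nil)) 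
(.lf (nat_lit 91598) (.g (nat_lit 1835) (.e (nat_lit 2280) (nat_lit 150) (.e (nat_lit 770055) (nat_lit 5) (.e (nat_lit 1598) (nat_lit 111) (.e (nat_lit 360489) (nat_lit 21) (.e (nat_lit 770074) (nat_lit 10) (.e (nat_lit 81942) (nat_lit 20) .nil)))))) (.g (nat_lit 5) .nil .nil)))) (.nd (nat_lit 6) 
(.lf (nat_lit 91566) (.g (nat_lit 1167) (.e (nat_lit 2279) (nat_lit 150) (.e (nat_lit 770072) (nat_lit 8) (.e (nat_lit 65617) (nat_lit 10) (.e (nat_lit 344095) (nat_lit 18) .nil)))) .nil)) 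
(.lf (nat_lit 91630) (.g (nat_lit 2376) (.e (nat_lit 2280) (nat_lit 150) (.e (nat_lit 770071) (nat_lit 8) (.e (nat_lit 65610) (nat_lit 10) (.e (nat_lit 344097) (nat_lit 18) (.e (nat_lit 7160) (nat_lit 382) (.e (nat_lit 1215) (nat_lit 90) (.e (nat_lit 81943) (nat_lit 20) .nil))))))) (.g (nat_lit 4) .nil .nil))))) (.nd (nat_lit 5) (.nd (nat_lit 6) 
(.lf (nat_lit 91550) (.g (nat_lit 2010) (.e (nat_lit 2279) (nat_lit 150) (.e (nat_lit 770072) (nat_lit 8) (.e (nat_lit 65610) (nat_lit 10) (.e (nat_lit 344097) (nat_lit 18) (.e (nat_lit 7146) (nat_lit 382) .nil))))) .nil)) 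
(.lf (nat_lit 91614) (.g (nat_lit 1646) (.e (nat_lit 2280) (nat_lit 150) (.e (nat_lit 770057) (nat_lit 5) (.e (nat_lit 1598) (nat_lit 111) (.e (nat_lit 360452) (nat_lit 0) (.e (nat_lit 7147) (nat_lit 382) (.e (nat_lit 1216) (nat_lit 90) (.e (nat_lit 81943) (nat_lit 20) .nil))))))) (.g (nat_lit 4) .nil .nil)))) (.nd (nat_lit 6) 
(.lf (nat_lit 91582) (.g (nat_lit 1341) (.e (nat_lit 2279) (nat_lit 150) (.e (nat_lit 770074) (nat_lit 10) (.e (nat_lit 81965) (nat_lit 26) (.e (nat_lit 147467) (nat_lit 9) .nil)))) .nil)) 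
(.lf (nat_lit 91646) (.g (nat_lit 1298) (.e (nat_lit 2280) (nat_lit 150) (.e (nat_lit 770071) (nat_lit 8) (.e (nat_lit 65611) (nat_lit 10) (.e (nat_lit 344174) (nat_lit 42) (.e (nat_lit 769792) (nat_lit 10) .nil))))) .nil)))))))) (.nd (nat_lit 1) (.nd (nat_lit 2) (.nd (nat_lit 3) (.nd (nat_lit 4) (.nd (nat_lit 5) (.nd (nat_lit 6) 
(.lf (nat_lit 91521) (.g (nat_lit 2074) (.e (nat_lit 2279) (nat_lit 150) (.e (nat_lit 770071) (nat_lit 8) (.e (nat_lit 65610) (nat_lit 10) (.e (nat_lit 344097) (nat_lit 18) (.e (nat_lit 7146) (nat_lit 382) .nil))))) .nil)) 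
(.lf (nat_lit 91585) (.g (nat_lit 2164) (.e (nat_lit 2280) (nat_lit 150) (.e (nat_lit 770055) (nat_lit 5) (.e (nat_lit 1586) (nat_lit 111) (.e (nat_lit 360450) (nat_lit 0) (.e (nat_lit 7125) (nat_lit 382) (.e (nat_lit 1222) (nat_lit 90) (.e (nat_lit 81943) (nat_lit 20) .nil))))))) (.g (nat_lit 4) .nil .nil)))) (.nd (nat_lit 6) 
(.lf (nat_lit 91553) (.g (nat_lit 1895) (.e (nat_lit 2279) (nat_lit 150) (.e (nat_lit 770072) (nat_lit 8) (.e (nat_lit 65610) (nat_lit 10) (.e (nat_lit 344097) (nat_lit 18) (.e (nat_lit 7271) (nat_lit 385) (.e (nat_lit 122916) (nat_lit 14) (.e (nat_lit 352302) (nat_lit 20) .nil))))))) (.g (nat_lit 4) .nil .nil))) 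
(.lf (nat_lit 91617) (.g (nat_lit 2234) (.e (nat_lit 2280) (nat_lit 150) (.e (nat_lit 770069) (nat_lit 7) (.e (nat_lit 57479) (nat_lit 28) (.e (nat_lit 557103) (nat_lit 14) (.e (nat_lit 180250) (nat_lit 10) (.e (nat_lit 573487) (nat_lit 14) (.e (nat_lit 81664) (nat_lit 5) (.e (nat_lit 532490) (nat_lit 0) .nil)))))))) (.g (nat_lit 4) .nil .nil))))) (.nd (nat_lit 5) (.nd (nat_lit 6) 
(.lf (nat_lit 91537) (.g (nat_lit 1786) (.e (nat_lit 2279) (nat_lit 150) (.e (nat_lit 770071) (nat_lit 8) (.e (nat_lit 65619) (nat_lit 10) (.e (nat_lit 344177) (nat_lit 43) (.e (nat_lit 770074) (nat_lit 10) .nil))))) .nil)) 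
(.lf (nat_lit 91601) (.g (nat_lit 1415) (.e (nat_lit 2280) (nat_lit 150) (.e (nat_lit 770057) (nat_lit 5) (.e (nat_lit 1586) (nat_lit 111) (.e (nat_lit 360450) (nat_lit 0) (.e (nat_lit 7119) (nat_lit 382) .nil))))) .nil))) (.nd (nat_lit 6) 
(.lf (nat_lit 91569) (.g (nat_lit 1916) (.e (nat_lit 2279) (nat_lit 150) (.e (nat_lit 770072) (nat_lit 8) (.e (nat_lit 65617) (nat_lit 10) (.e (nat_lit 344096) (nat_lit 18) (.e (nat_lit 7119) (nat_lit 382) .nil))))) .nil)) 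
(.lf (nat_lit 91633) (.g (nat_lit 1946) (.e (nat_lit 2280) (nat_lit 150) (.e (nat_lit 770071) (nat_lit 8) (.e (nat_lit 65610) (nat_lit 10) (.e (nat_lit 344097) (nat_lit 18) (.e (nat_lit 7272) (nat_lit 385) .nil))))) .nil))))) (.nd (nat_lit 4) (.nd (nat_lit 5) (.nd (nat_lit 6) 
(.lf (nat_lit 91529) (.g (nat_lit 1814) (.e (nat_lit 2279) (nat_lit 150) (.e (nat_lit 770071) (nat_lit 8) (.e (nat_lit 65617) (nat_lit 10) (.e (nat_lit 344091) (nat_lit 18) (.e (nat_lit 7122) (nat_lit 382) .nil))))) .nil)) 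
(.lf (nat_lit 91593) (.g (nat_lit 2089) (.e (nat_lit 2280) (nat_lit 150) (.e (nat_lit 770055) (nat_lit 5) (.e (nat_lit 1589) (nat_lit 111) (.e (nat_lit 360451) (nat_lit 0) (.e (nat_lit 7124) (nat_lit 382) (.e (nat_lit 7936) (nat_lit 90) (.e (nat_lit 81942) (nat_lit 20) .nil))))))) (.g (nat_lit 4) .nil .nil)))) (.nd (nat_lit 6) 
(.lf (nat_lit 91561) (.g (nat_lit 481) (.e (nat_lit 2279) (nat_lit 150) (.e (nat_lit 770072) (nat_lit 8) (.e (nat_lit 65617) (nat_lit 10) .nil))) .nil)) 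
(.lf (nat_lit 91625) (.g (nat_lit 2443) (.e (nat_lit 2280) (nat_lit 150) (.e (nat_lit 770071) (nat_lit 8) (.e (nat_lit 65610) (nat_lit 10) (.e (nat_lit 344097) (nat_lit 18) (.e (nat_lit 7145) (nat_lit 382) (.e (nat_lit 1216) (nat_lit 90) (.e (nat_lit 81938) (nat_lit 20) .nil))))))) (.g (nat_lit 4) .nil .nil))))) (.nd (nat_lit 5) (.nd (nat_lit 6) 
(.lf (nat_lit 91545) (.g (nat_lit 990) (.e (nat_lit 2279) (nat_lit 150) (.e (nat_lit 770072) (nat_lit 8) (.e (nat_lit 65610) (nat_lit 10) (.e (nat_lit 344090) (nat_lit 18) .nil)))) .nil)) 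
(.lf (nat_lit 91609) (.g (nat_lit 715) (.e (nat_lit 2280) (nat_lit 150) (.e (nat_lit 770057) (nat_lit 5) (.e (nat_lit 1589) (nat_lit 111) (.e (nat_lit 360488) (nat_lit 20) .nil)))) .nil))) (.nd (nat_lit 6) 
(.lf (nat_lit 91577) (.g (nat_lit 1682) (.e (nat_lit 2279) (nat_lit 150) (.e (nat_lit 770072) (nat_lit 8) (.e (nat_lit 65619) (nat_lit 10) (.e (nat_lit 344090) (nat_lit 18) (.e (nat_lit 7124) (nat_lit 382) .nil))))) .nil)) 
(.lf (nat_lit 91641) (.g (nat_lit 3325) (.e (nat_lit 2280) (nat_lit 150) (.e (nat_lit 770071) (nat_lit 8) (.e (nat_lit 65610) (nat_lit 10) (.e (nat_lit 344177) (nat_lit 43) (.e (nat_lit 770074) (nat_lit 10) (.e (nat_lit 81938) (nat_lit 20) .nil)))))) (.g (nat_lit 0) .nil .nil))))))) (.nd (nat_lit 3) (.nd (nat_lit 4) (.nd (nat_lit 5) (.nd (nat_lit 6) 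
(.lf (nat_lit 91525) (.g (nat_lit 1346) (.e (nat_lit 2279) (nat_lit 150) (.e (nat_lit 770071) (nat_lit 8) (.e (nat_lit 65611) (nat_lit 10) (.e (nat_lit 344177) (nat_lit 43) (.e (nat_lit 770074) (nat_lit 10) .nil))))) .nil)) 
(.lf (nat_lit 91589) (.g (nat_lit 2426) (.e (nat_lit 2280) (nat_lit 150) (.e (nat_lit 770055) (nat_lit 5) (.e (nat_lit 1586) (nat_lit 111) (.e (nat_lit 360451) (nat_lit 0) (.e (nat_lit 7124) (nat_lit 382) (.e (nat_lit 7936) (nat_lit 90) (.e (nat_lit 81942) (nat_lit 20) .nil))))))) (.g (nat_lit 5) .nil .nil)))) (.nd (nat_lit 6) 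
(.lf (nat_lit 91557) (.g (nat_lit 1737) (.e (nat_lit 2279) (nat_lit 150) (.e (nat_lit 770072) (nat_lit 8) (.e (nat_lit 65610) (nat_lit 10) (.e (nat_lit 344176) (nat_lit 43) (.e (nat_lit 770074) (nat_lit 10) .nil))))) .nil)) 
(.lf (nat_lit 91621) (.g (nat_lit 1562) (.e (nat_lit 2280) (nat_lit 150) (.e (nat_lit 770071) (nat_lit 8) (.e (nat_lit 65610) (nat_lit 10) (.e (nat_lit 344090) (nat_lit 18) (.e (nat_lit 7119) (nat_lit 382) .nil))))) .nil)))) (.nd (nat_lit 5) (.nd (nat_lit 6) 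
(.lf (nat_lit 91541) (.g (nat_lit 2720) (.e (nat_lit 2279) (nat_lit 150) (.e (nat_lit 770072) (nat_lit 8) (.e (nat_lit 65583) (nat_lit 7) (.e (nat_lit 319530) (nat_lit 16) (.e (nat_lit 286756) (nat_lit 10) (.e (nat_lit 344160) (nat_lit 37) (.e (nat_lit 647195) (nat_lit 9) (.e (nat_lit 982) (nat_lit 81) .nil)))))))) (.g (nat_lit 5) .nil .nil))) 
(.lf (nat_lit 91605) (.g (nat_lit 2169) (.e (nat_lit 2280) (nat_lit 150) (.e (nat_lit 770057) (nat_lit 5) (.e (nat_lit 1586) (nat_lit 111) (.e (nat_lit 360451) (nat_lit 0) (.e (nat_lit 7124) (nat_lit 382) (.e (nat_lit 7936) (nat_lit 90) (.e (nat_lit 81942) (nat_lit 20) .nil))))))) (.g (nat_lit 5) .nil .nil)))) (.nd (nat_lit 6) 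
(.lf (nat_lit 91573) (.g (nat_lit 1710) (.e (nat_lit 2279) (nat_lit 150) (.e (nat_lit 770072) (nat_lit 8) (.e (nat_lit 65617) (nat_lit 10) (.e (nat_lit 344174) (nat_lit 42) (.e (nat_lit 769792) (nat_lit 10) .nil))))) .nil)) 
(.lf (nat_lit 91637) (.g (nat_lit 1130) (.e (nat_lit 2280) (nat_lit 150) (.e (nat_lit 770071) (nat_lit 8) (.e (nat_lit 65610) (nat_lit 10) (.e (nat_lit 344173) (nat_lit 42) .nil)))) .nil))))) (.nd (nat_lit 4) (.nd (nat_lit 5) (.nd (nat_lit 6) 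
(.lf (nat_lit 91533) (.g (nat_lit 1648) (.e (nat_lit 2279) (nat_lit 150) (.e (nat_lit 770071) (nat_lit 8) (.e (nat_lit 65617) (nat_lit 10) (.e (nat_lit 344174) (nat_lit 42) (.e (nat_lit 769792) (nat_lit 10) .nil))))) .nil)) 
(.lf (nat_lit 91597) (.g (nat_lit 1822) (.e (nat_lit 2280) (nat_lit 150) (.e (nat_lit 770055) (nat_lit 5) (.e (nat_lit 1598) (nat_lit 111) (.e (nat_lit 360452) (nat_lit 0) (.e (nat_lit 7147) (nat_lit 382) (.e (nat_lit 1216) (nat_lit 90) (.e (nat_lit 81943) (nat_lit 20) .nil))))))) (.g (nat_lit 4) .nil .nil)))) (.nd (nat_lit 6) 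
(.lf (nat_lit 91565) (.g (nat_lit 1647) (.e (nat_lit 2279) (nat_lit 150) (.e (nat_lit 770072) (nat_lit 8) (.e (nat_lit 65617) (nat_lit 10) (.e (nat_lit 344091) (nat_lit 18) (.e (nat_lit 7124) (nat_lit 382) .nil))))) .nil)) 
(.lf (nat_lit 91629) (.g (nat_lit 2338) (.e (nat_lit 2280) (nat_lit 150) (.e (nat_lit 770071) (nat_lit 8) (.e (nat_lit 65610) (nat_lit 10) (.e (nat_lit 344097) (nat_lit 18) (.e (nat_lit 7160) (nat_lit 382) .nil))))) .nil)))) (.nd (nat_lit 5) (.nd (nat_lit 6) 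
(.lf (nat_lit 91549) (.g (nat_lit 2107) (.e (nat_lit 2279) (nat_lit 150) (.e (nat_lit 770072) (nat_lit 8) (.e (nat_lit 65610) (nat_lit 10) (.e (nat_lit 344097) (nat_lit 18) (.e (nat_lit 7145) (nat_lit 382) .nil))))) .nil)) 
(.lf (nat_lit 91613) (.g (nat_lit 1333) (.e (nat_lit 2280) (nat_lit 150) (.e (nat_lit 770057) (nat_lit 5) (.e (nat_lit 1598) (nat_lit 111) (.e (nat_lit 360452) (nat_lit 0) (.e (nat_lit 7147) (nat_lit 382) .nil))))) .nil))) (.nd (nat_lit 6) 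
(.lf (nat_lit 91581) (.g (nat_lit 1371) (.e (nat_lit 2279) (nat_lit 150) (.e (nat_lit 770072) (nat_lit 8) (.e (nat_lit 65630) (nat_lit 14) (.e (nat_lit 401422) (nat_lit 1) .nil)))) .nil)) 
(.lf (nat_lit 91645) (.g (nat_lit 1973) (.e (nat_lit 2280) (nat_lit 150) (.e (nat_lit 770071) (nat_lit 8) (.e (nat_lit 65610) (nat_lit 10) (.e (nat_lit 344177) (nat_lit 43) (.e (nat_lit 770074) (nat_lit 10) (.e (nat_lit 81947) (nat_lit 20) .nil)))))) (.g (nat_lit 4) .nil .nil)))))))) (.nd (nat_lit 2) (.nd (nat_lit 3) (.nd (nat_lit 4) (.nd (nat_lit 5) (.nd (nat_lit 6) 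
(.lf (nat_lit 91523) (.g (nat_lit 1348) (.e (nat_lit 2279) (nat_lit 150) (.e (nat_lit 770071) (nat_lit 8) (.e (nat_lit 65610) (nat_lit 10) (.e (nat_lit 344174) (nat_lit 42) (.e (nat_lit 769792) (nat_lit 10) .nil))))) .nil)) 
(.lf (nat_lit 91587) (.g (nat_lit 1879) (.e (nat_lit 2280) (nat_lit 150) (.e (nat_lit 770055) (nat_lit 5) (.e (nat_lit 1586) (nat_lit 111) (.e (nat_lit 360451) (nat_lit 0) (.e (nat_lit 7119) (nat_lit 382) (.e (nat_lit 7936) (nat_lit 90) (.e (nat_lit 81938) (nat_lit 20) .nil))))))) (.g (nat_lit 4) .nil .nil)))) (.nd (nat_lit 6) 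
(.lf (nat_lit 91555) (.g (nat_lit 1239) (.e (nat_lit 2279) (nat_lit 150) (.e (nat_lit 770072) (nat_lit 8) (.e (nat_lit 65610) (nat_lit 10) (.e (nat_lit 344173) (nat_lit 42) .nil)))) .nil)) 
(.lf (nat_lit 91619) (.g (nat_lit 3402) (.e (nat_lit 2280) (nat_lit 150) (.e (nat_lit 770069) (nat_lit 7) (.e (nat_lit 57480) (nat_lit 28) (.e (nat_lit 557105) (nat_lit 14) (.e (nat_lit 180252) (nat_lit 10) (.e (nat_lit 573488) (nat_lit 14) (.e (nat_lit 81664) (nat_lit 5) (.e (nat_lit 532490) (nat_lit 0) .nil)))))))) (.g (nat_lit 6) .nil .nil))))) (.nd (nat_lit 5) (.nd (nat_lit 6) 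
(.lf (nat_lit 91539) (.g (nat_lit 2836) (.e (nat_lit 2279) (nat_lit 150) (.e (nat_lit 770072) (nat_lit 8) (.e (nat_lit 65583) (nat_lit 7) (.e (nat_lit 319530) (nat_lit 16) (.e (nat_lit 286753) (nat_lit 10) (.e (nat_lit 344160) (nat_lit 37) (.e (nat_lit 647195) (nat_lit 9) (.e (nat_lit 982) (nat_lit 81) .nil)))))))) (.g (nat_lit 4) .nil .nil))) 
(.lf (nat_lit 91603) (.g (nat_lit 2091) (.e (nat_lit 2280) (nat_lit 150) (.e (nat_lit 770057) (nat_lit 5) (.e (nat_lit 1586) (nat_lit 111) (.e (nat_lit 360450) (nat_lit 0) (.e (nat_lit 7122) (nat_lit 382) (.e (nat_lit 7936) (nat_lit 90) (.e (nat_lit 81946) (nat_lit 20) .nil))))))) (.g (nat_lit 5) .nil .nil)))) (.nd (nat_lit 6) 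
(.lf (nat_lit 91571) (.g (nat_lit 1988) (.e (nat_lit 2279) (nat_lit 150) (.e (nat_lit 770072) (nat_lit 8) (.e (nat_lit 65617) (nat_lit 10) (.e (nat_lit 344096) (nat_lit 18) (.e (nat_lit 7122) (nat_lit 382) (.e (nat_lit 7936) (nat_lit 90) (.e (nat_lit 81943) (nat_lit 20) .nil))))))) (.g (nat_lit 4) .nil .nil))) 
(.lf (nat_lit 91635) (.g (nat_lit 3450) (.e (nat_lit 2280) (nat_lit 150) (.e (nat_lit 770071) (nat_lit 8) (.e (nat_lit 65610) (nat_lit 10) (.e (nat_lit 344097) (nat_lit 18) (.e (nat_lit 7272) (nat_lit 385) (.e (nat_lit 122916) (nat_lit 14) (.e (nat_lit 352302) (nat_lit 20) .nil))))))) (.g (nat_lit 6) .nil .nil)))))) (.nd (nat_lit 4) (.nd (nat_lit 5) (.nd (nat_lit 6) 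
(.lf (nat_lit 91531) (.g (nat_lit 1413) (.e (nat_lit 2279) (nat_lit 150) (.e (nat_lit 770071) (nat_lit 8) (.e (nat_lit 65617) (nat_lit 10) (.e (nat_lit 344095) (nat_lit 18) (.e (nat_lit 7119) (nat_lit 382) .nil))))) .nil)) 
(.lf (nat_lit 91595) (.g (nat_lit 1098) (.e (nat_lit 2280) (nat_lit 150) (.e (nat_lit 770055) (nat_lit 5) (.e (nat_lit 1589) (nat_lit 111) (.e (nat_lit 360489) (nat_lit 21) (.e (nat_lit 770074) (nat_lit 10) .nil))))) .nil))) (.nd (nat_lit 6) 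
(.lf (nat_lit 91563) (.g (nat_lit 1857) (.e (nat_lit 2279) (nat_lit 150) (.e (nat_lit 770072) (nat_lit 8) (.e (nat_lit 65617) (nat_lit 10) (.e (nat_lit 344091) (nat_lit 18) (.e (nat_lit 7119) (nat_lit 382) .nil))))) .nil)) 
(.lf (nat_lit 91627) (.g (nat_lit 2258) (.e (nat_lit 2280) (nat_lit 150) (.e (nat_lit 770071) (nat_lit 8) (.e (nat_lit 65610) (nat_lit 10) (.e (nat_lit 344097) (nat_lit 18) (.e (nat_lit 7146) (nat_lit 382) (.e (nat_lit 1216) (nat_lit 90) (.e (nat_lit 81943) (nat_lit 20) .nil))))))) (.g (nat_lit 4) .nil .nil))))) (.nd (nat_lit 5) (.nd (nat_lit 6) 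
(.lf (nat_lit 91547) (.g (nat_lit 1490) (.e (nat_lit 2279) (nat_lit 150) (.e (nat_lit 770072) (nat_lit 8) (.e (nat_lit 65610) (nat_lit 10) (.e (nat_lit 344090) (nat_lit 18) (.e (nat_lit 7124) (nat_lit 382) .nil))))) .nil)) 
(.lf (nat_lit 91611) (.g (nat_lit 1288) (.e (nat_lit 2280) (nat_lit 150) (.e (nat_lit 770057) (nat_lit 5) (.e (nat_lit 1595) (nat_lit 111) (.e (nat_lit 360449) (nat_lit 0) (.e (nat_lit 7119) (nat_lit 382) .nil))))) .nil))) (.nd (nat_lit 6) 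
(.lf (nat_lit 91579) (.g (nat_lit 1718) (.e (nat_lit 2279) (nat_lit 150) (.e (nat_lit 770072) (nat_lit 8) (.e (nat_lit 65619) (nat_lit 10) (.e (nat_lit 344174) (nat_lit 42) (.e (nat_lit 769792) (nat_lit 10) .nil))))) .nil)) 
(.lf (nat_lit 91643) (.g (nat_lit 2415) (.e (nat_lit 2280) (nat_lit 150) (.e (nat_lit 770071) (nat_lit 8) (.e (nat_lit 65610) (nat_lit 10) (.e (nat_lit 344177) (nat_lit 43) (.e (nat_lit 770074) (nat_lit 10) (.e (nat_lit 81943) (nat_lit 20) .nil)))))) (.g (nat_lit 5) .nil .nil))))))) (.nd (nat_lit 3) (.nd (nat_lit 4) (.nd (nat_lit 5) (.nd (nat_lit 6) 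
(.lf (nat_lit 91527) (.g (nat_lit 1073) (.e (nat_lit 2279) (nat_lit 150) (.e (nat_lit 770071) (nat_lit 8) (.e (nat_lit 65617) (nat_lit 10) (.e (nat_lit 344091) (nat_lit 18) .nil)))) .nil)) 
(.lf (nat_lit 91591) (.g (nat_lit 735) (.e (nat_lit 2280) (nat_lit 150) (.e (nat_lit 770055) (nat_lit 5) (.e (nat_lit 1589) (nat_lit 111) (.e (nat_lit 360449) (nat_lit 0) .nil)))) .nil))) (.nd (nat_lit 6) 
(.lf (nat_lit 91559) (.g (nat_lit 537) (.e (nat_lit 2279) (nat_lit 150) (.e (nat_lit 770072) (nat_lit 8) (.e (nat_lit 65616) (nat_lit 10) .nil))) .nil)) 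
(.lf (nat_lit 91623) (.g (nat_lit 3009) (.e (nat_lit 2280) (nat_lit 150) (.e (nat_lit 770071) (nat_lit 8) (.e (nat_lit 65610) (nat_lit 10) (.e (nat_lit 344090) (nat_lit 18) (.e (nat_lit 7125) (nat_lit 382) (.e (nat_lit 1222) (nat_lit 90) (.e (nat_lit 81943) (nat_lit 20) .nil))))))) (.g (nat_lit 6) .nil .nil))))) (.nd (nat_lit 5) (.nd (nat_lit 6) 
(.lf (nat_lit 91543) (.g (nat_lit 2743) (.e (nat_lit 2279) (nat_lit 150) (.e (nat_lit 770072) (nat_lit 8) (.e (nat_lit 65583) (nat_lit 7) (.e (nat_lit 319534) (nat_lit 16) (.e (nat_lit 286756) (nat_lit 10) (.e (nat_lit 344160) (nat_lit 37) (.e (nat_lit 647190) (nat_lit 9) (.e (nat_lit 1025) (nat_lit 81) .nil)))))))) (.g (nat_lit 4) .nil .nil))) 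
(.lf (nat_lit 91607) (.g (nat_lit 1346) (.e (nat_lit 2280) (nat_lit 150) (.e (nat_lit 770057) (nat_lit 5) (.e (nat_lit 1589) (nat_lit 111) (.e (nat_lit 360449) (nat_lit 0) (.e (nat_lit 7119) (nat_lit 382) .nil))))) .nil))) (.nd (nat_lit 6) 
(.lf (nat_lit 91575) (.g (nat_lit 1814) (.e (nat_lit 2279) (nat_lit 150) (.e (nat_lit 770072) (nat_lit 8) (.e (nat_lit 65619) (nat_lit 10) (.e (nat_lit 344090) (nat_lit 18) (.e (nat_lit 7119) (nat_lit 382) .nil))))) .nil)) 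
(.lf (nat_lit 91639) (.g (nat_lit 1589) (.e (nat_lit 2280) (nat_lit 150) (.e (nat_lit 770071) (nat_lit 8) (.e (nat_lit 65610) (nat_lit 10) (.e (nat_lit 344176) (nat_lit 43) (.e (nat_lit 770074) (nat_lit 10) .nil))))) .nil))))) (.nd (nat_lit 4) (.nd (nat_lit 5) (.nd (nat_lit 6) 
(.lf (nat_lit 91535) (.g (nat_lit 1644) (.e (nat_lit 2279) (nat_lit 150) (.e (nat_lit 770071) (nat_lit 8) (.e (nat_lit 65619) (nat_lit 10) (.e (nat_lit 344097) (nat_lit 18) (.e (nat_lit 7147) (nat_lit 382) .nil))))) .nil)) 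
(.lf (nat_lit 91599) (.g (nat_lit 1338) (.e (nat_lit 2280) (nat_lit 150) (.e (nat_lit 770056) (nat_lit 5) (.e (nat_lit 1598) (nat_lit 111) (.e (nat_lit 360452) (nat_lit 0) (.e (nat_lit 7147) (nat_lit 382) (.e (nat_lit 1216) (nat_lit 90) (.e (nat_lit 81943) (nat_lit 20) .nil))))))) (.g (nat_lit 4) .nil .nil)))) (.nd (nat_lit 6) 
(.lf (nat_lit 91567) (.g (nat_lit 1414) (.e (nat_lit 2279) (nat_lit 150) (.e (nat_lit 770072) (nat_lit 8) (.e (nat_lit 65617) (nat_lit 10) (.e (nat_lit 344095) (nat_lit 18) (.e (nat_lit 7122) (nat_lit 382) .nil))))) .nil)) 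
(.lf (nat_lit 91631) (.g (nat_lit 3827) (.e (nat_lit 2280) (nat_lit 150) (.e (nat_lit 770071) (nat_lit 8) (.e (nat_lit 65610) (nat_lit 10) (.e (nat_lit 344097) (nat_lit 18) (.e (nat_lit 7270) (nat_lit 385) (.e (nat_lit 122916) (nat_lit 14) (.e (nat_lit 352302) (nat_lit 20) .nil))))))) (.g (nat_lit 6) .nil .nil))))) (.nd (nat_lit 5) (.nd (nat_lit 6) 
(.lf (nat_lit 91551) (.g (nat_lit 2047) (.e (nat_lit 2279) (nat_lit 150) (.e (nat_lit 770072) (nat_lit 8) (.e (nat_lit 65610) (nat_lit 10) (.e (nat_lit 344097) (nat_lit 18) (.e (nat_lit 7147) (nat_lit 382) (.e (nat_lit 1216) (nat_lit 90) (.e (nat_lit 81939) (nat_lit 20) .nil))))))) (.g (nat_lit 4) .nil .nil))) 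
(.lf (nat_lit 91615) (.g (nat_lit 991) (.e (nat_lit 2280) (nat_lit 150) (.e (nat_lit 770058) (nat_lit 5) (.e (nat_lit 1589) (nat_lit 111) (.e (nat_lit 360489) (nat_lit 21) .nil)))) .nil))) (.nd (nat_lit 6) 
(.lf (nat_lit 91583) (.g (nat_lit 375) (.e (nat_lit 2280) (nat_lit 150) (.e (nat_lit 770055) (nat_lit 5) (.e (nat_lit 1580) (nat_lit 111) (.e (nat_lit 368384) (nat_lit 24) .nil)))) .nil)) 
(.lf (nat_lit 91647) (.g (nat_lit 1350) (.e (nat_lit 2280) (nat_lit 150) (.e (nat_lit 770071) (nat_lit 8) (.e (nat_lit 65611) (nat_lit 10) (.e (nat_lit 344174) (nat_lit 42) (.e (nat_lit 769792) (nat_lit 10) (.e (nat_lit 81943) (nat_lit 20) .nil)))))) (.g (nat_lit 4) .nil .nil))))))))))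

noncomputable def tv1253 : DT := (.nd (nat_lit 0) (.nd (nat_lit 1) (.nd (nat_lit 2) (.nd (nat_lit 3) (.nd (nat_lit 4) (.nd (nat_lit 5) 
(.lf (nat_lit 91648) (.g (nat_lit 3089) (.e (nat_lit 2280) (nat_lit 150) (.e (nat_lit 770071) (nat_lit 8) (.e (nat_lit 65611) (nat_lit 10) (.e (nat_lit 344177) (nat_lit 43) (.e (nat_lit 770074) (nat_lit 10) (.e (nat_lit 81938) (nat_lit 20) .nil)))))) (.g (nat_lit 0) .nil .nil))) 
(.lf (nat_lit 91680) (.g (nat_lit 1725) (.e (nat_lit 2280) (nat_lit 150) (.e (nat_lit 770071) (nat_lit 8) (.e (nat_lit 65617) (nat_lit 10) (.e (nat_lit 344174) (nat_lit 42) (.e (nat_lit 769792) (nat_lit 10) .nil))))) .nil))) (.nd (nat_lit 5) 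
(.lf (nat_lit 91664) (.g (nat_lit 1679) (.e (nat_lit 2280) (nat_lit 150) (.e (nat_lit 770071) (nat_lit 8) (.e (nat_lit 65617) (nat_lit 10) (.e (nat_lit 344091) (nat_lit 18) (.e (nat_lit 7124) (nat_lit 382) .nil))))) .nil)) 
(.lf (nat_lit 91696) (.g (nat_lit 1821) (.e (nat_lit 2280) (nat_lit 150) (.e (nat_lit 770071) (nat_lit 8) (.e (nat_lit 65619) (nat_lit 10) (.e (nat_lit 344097) (nat_lit 18) (.e (nat_lit 7147) (nat_lit 382) (.e (nat_lit 1216) (nat_lit 90) (.e (nat_lit 81939) (nat_lit 20) .nil))))))) (.g (nat_lit 4) .nil .nil))))) (.nd (nat_lit 4) (.nd (nat_lit 5) 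
(.lf (nat_lit 91656) (.g (nat_lit 2194) (.e (nat_lit 2280) (nat_lit 150) (.e (nat_lit 770071) (nat_lit 8) (.e (nat_lit 65616) (nat_lit 10) (.e (nat_lit 344177) (nat_lit 43) (.e (nat_lit 770074) (nat_lit 10) (.e (nat_lit 81943) (nat_lit 20) .nil)))))) (.g (nat_lit 5) .nil .nil))) 
(.lf (nat_lit 91688) (.g (nat_lit 1098) (.e (nat_lit 2280) (nat_lit 150) (.e (nat_lit 770071) (nat_lit 8) (.e (nat_lit 65619) (nat_lit 10) (.e (nat_lit 344090) (nat_lit 18) .nil)))) .nil))) (.nd (nat_lit 5) 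
(.lf (nat_lit 91672) (.g (nat_lit 1897) (.e (nat_lit 2280) (nat_lit 150) (.e (nat_lit 770071) (nat_lit 8) (.e (nat_lit 65617) (nat_lit 10) (.e (nat_lit 344096) (nat_lit 18) (.e (nat_lit 7122) (nat_lit 382) .nil))))) .nil)) 
(.lf (nat_lit 91704) (.g (nat_lit 2635) (.e (nat_lit 2280) (nat_lit 150) (.e (nat_lit 770071) (nat_lit 8) (.e (nat_lit 65619) (nat_lit 10) (.e (nat_lit 344177) (nat_lit 43) (.e (nat_lit 770074) (nat_lit 10) (.e (nat_lit 81943) (nat_lit 20) .nil)))))) (.g (nat_lit 5) .nil .nil)))))) (.nd (nat_lit 3) (.nd (nat_lit 4) (.nd (nat_lit 5) 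
(.lf (nat_lit 91652) (.g (nat_lit 1223) (.e (nat_lit 2280) (nat_lit 150) (.e (nat_lit 770071) (nat_lit 8) (.e (nat_lit 65616) (nat_lit 10) (.e (nat_lit 344174) (nat_lit 42) (.e (nat_lit 769792) (nat_lit 10) .nil))))) .nil)) 
(.lf (nat_lit 91684) (.g (nat_lit 2973) (.e (nat_lit 2280) (nat_lit 150) (.e (nat_lit 770071) (nat_lit 8) (.e (nat_lit 65617) (nat_lit 10) (.e (nat_lit 344177) (nat_lit 43) (.e (nat_lit 770074) (nat_lit 10) (.e (nat_lit 81942) (nat_lit 20) .nil)))))) (.g (nat_lit 0) .nil .nil)))) (.nd (nat_lit 5) 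
(.lf (nat_lit 91668) (.g (nat_lit 1523) (.e (nat_lit 2280) (nat_lit 150) (.e (nat_lit 770071) (nat_lit 8) (.e (nat_lit 65617) (nat_lit 10) (.e (nat_lit 344095) (nat_lit 18) (.e (nat_lit 7119) (nat_lit 382) .nil))))) .nil)) 
(.lf (nat_lit 91700) (.g (nat_lit 1216) (.e (nat_lit 2280) (nat_lit 150) (.e (nat_lit 770071) (nat_lit 8) (.e (nat_lit 65619) (nat_lit 10) (.e (nat_lit 344173) (nat_lit 42) .nil)))) .nil)))) (.nd (nat_lit 4) (.nd (nat_lit 5) 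
(.lf (nat_lit 91660) (.g (nat_lit 2041) (.e (nat_lit 2280) (nat_lit 150) (.e (nat_lit 770071) (nat_lit 8) (.e (nat_lit 65617) (nat_lit 10) (.e (nat_lit 344091) (nat_lit 18) (.e (nat_lit 7119) (nat_lit 382) (.e (nat_lit 7936) (nat_lit 90) (.e (nat_lit 81942) (nat_lit 20) .nil))))))) (.g (nat_lit 4) .nil .nil))) 
(.lf (nat_lit 91692) (.g (nat_lit 1726) (.e (nat_lit 2280) (nat_lit 150) (.e (nat_lit 770071) (nat_lit 8) (.e (nat_lit 65619) (nat_lit 10) (.e (nat_lit 344090) (nat_lit 18) (.e (nat_lit 7124) (nat_lit 382) .nil))))) .nil))) (.nd (nat_lit 5) 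
(.lf (nat_lit 91676) (.g (nat_lit 3515) (.e (nat_lit 2280) (nat_lit 150) (.e (nat_lit 770071) (nat_lit 8) (.e (nat_lit 65617) (nat_lit 10) (.e (nat_lit 344096) (nat_lit 18) (.e (nat_lit 7125) (nat_lit 382) (.e (nat_lit 1222) (nat_lit 90) (.e (nat_lit 81943) (nat_lit 20) .nil))))))) (.g (nat_lit 6) .nil .nil))) 
(.lf (nat_lit 91708) (.g (nat_lit 3121) (.e (nat_lit 2280) (nat_lit 150) (.e (nat_lit 770071) (nat_lit 8) (.e (nat_lit 65620) (nat_lit 10) (.e (nat_lit 344177) (nat_lit 43) (.e (nat_lit 770074) (nat_lit 10) (.e (nat_lit 81938) (nat_lit 20) .nil)))))) (.g (nat_lit 0) .nil .nil))))))) (.nd (nat_lit 2) (.nd (nat_lit 3) (.nd (nat_lit 4) (.nd (nat_lit 5) 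
(.lf (nat_lit 91650) (.g (nat_lit 2216) (.e (nat_lit 2280) (nat_lit 150) (.e (nat_lit 770071) (nat_lit 8) (.e (nat_lit 65611) (nat_lit 10) (.e (nat_lit 344177) (nat_lit 43) (.e (nat_lit 770074) (nat_lit 10) (.e (nat_lit 81943) (nat_lit 20) .nil)))))) (.g (nat_lit 5) .nil .nil))) 
(.lf (nat_lit 91682) (.g (nat_lit 1680) (.e (nat_lit 2280) (nat_lit 150) (.e (nat_lit 770071) (nat_lit 8) (.e (nat_lit 65617) (nat_lit 10) (.e (nat_lit 344175) (nat_lit 43) (.e (nat_lit 770074) (nat_lit 10) (.e (nat_lit 81938) (nat_lit 20) .nil)))))) (.g (nat_lit 4) .nil .nil)))) (.nd (nat_lit 5) 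
(.lf (nat_lit 91666) (.g (nat_lit 1681) (.e (nat_lit 2280) (nat_lit 150) (.e (nat_lit 770071) (nat_lit 8) (.e (nat_lit 65617) (nat_lit 10) (.e (nat_lit 344091) (nat_lit 18) (.e (nat_lit 7265) (nat_lit 384) .nil))))) .nil)) 
(.lf (nat_lit 91698) (.g (nat_lit 2332) (.e (nat_lit 2280) (nat_lit 150) (.e (nat_lit 770071) (nat_lit 8) (.e (nat_lit 65619) (nat_lit 10) (.e (nat_lit 344097) (nat_lit 18) (.e (nat_lit 7272) (nat_lit 385) (.e (nat_lit 122916) (nat_lit 14) (.e (nat_lit 352302) (nat_lit 20) .nil))))))) (.g (nat_lit 4) .nil .nil))))) (.nd (nat_lit 4) (.nd (nat_lit 5) 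
(.lf (nat_lit 91658) (.g (nat_lit 1137) (.e (nat_lit 2280) (nat_lit 150) (.e (nat_lit 770071) (nat_lit 8) (.e (nat_lit 65617) (nat_lit 10) (.e (nat_lit 344091) (nat_lit 18) .nil)))) .nil)) 
(.lf (nat_lit 91690) (.g (nat_lit 2075) (.e (nat_lit 2280) (nat_lit 150) (.e (nat_lit 770071) (nat_lit 8) (.e (nat_lit 65619) (nat_lit 10) (.e (nat_lit 344090) (nat_lit 18) (.e (nat_lit 7119) (nat_lit 382) (.e (nat_lit 7936) (nat_lit 90) (.e (nat_lit 81938) (nat_lit 20) .nil))))))) (.g (nat_lit 4) .nil .nil)))) (.nd (nat_lit 5) 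
(.lf (nat_lit 91674) (.g (nat_lit 2120) (.e (nat_lit 2280) (nat_lit 150) (.e (nat_lit 770071) (nat_lit 8) (.e (nat_lit 65617) (nat_lit 10) (.e (nat_lit 344096) (nat_lit 18) (.e (nat_lit 7122) (nat_lit 382) (.e (nat_lit 7936) (nat_lit 90) (.e (nat_lit 81947) (nat_lit 20) .nil))))))) (.g (nat_lit 4) .nil .nil))) 
(.lf (nat_lit 91706) (.g (nat_lit 2135) (.e (nat_lit 2280) (nat_lit 150) (.e (nat_lit 770071) (nat_lit 8) (.e (nat_lit 65619) (nat_lit 10) (.e (nat_lit 344177) (nat_lit 43) (.e (nat_lit 770074) (nat_lit 10) (.e (nat_lit 81947) (nat_lit 20) .nil)))))) (.g (nat_lit 4) .nil .nil)))))) (.nd (nat_lit 3) (.nd (nat_lit 4) (.nd (nat_lit 5) 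
(.lf (nat_lit 91654) (.g (nat_lit 3064) (.e (nat_lit 2280) (nat_lit 150) (.e (nat_lit 770071) (nat_lit 8) (.e (nat_lit 65616) (nat_lit 10) (.e (nat_lit 344177) (nat_lit 43) (.e (nat_lit 770074) (nat_lit 10) (.e (nat_lit 81938) (nat_lit 20) .nil)))))) (.g (nat_lit 0) .nil .nil))) 
(.lf (nat_lit 91686) (.g (nat_lit 3150) (.e (nat_lit 2280) (nat_lit 150) (.e (nat_lit 770071) (nat_lit 8) (.e (nat_lit 65617) (nat_lit 10) (.e (nat_lit 344177) (nat_lit 43) (.e (nat_lit 770074) (nat_lit 10) (.e (nat_lit 81946) (nat_lit 20) .nil)))))) (.g (nat_lit 6) .nil .nil)))) (.nd (nat_lit 5) 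
(.lf (nat_lit 91670) (.g (nat_lit 2128) (.e (nat_lit 2280) (nat_lit 150) (.e (nat_lit 770071) (nat_lit 8) (.e (nat_lit 65617) (nat_lit 10) (.e (nat_lit 344096) (nat_lit 18) (.e (nat_lit 7119) (nat_lit 382) (.e (nat_lit 7936) (nat_lit 90) (.e (nat_lit 81942) (nat_lit 20) .nil))))))) (.g (nat_lit 4) .nil .nil))) 
(.lf (nat_lit 91702) (.g (nat_lit 1822) (.e (nat_lit 2280) (nat_lit 150) (.e (nat_lit 770071) (nat_lit 8) (.e (nat_lit 65619) (nat_lit 10) (.e (nat_lit 344174) (nat_lit 42) (.e (nat_lit 769792) (nat_lit 10) (.e (nat_lit 81943) (nat_lit 20) .nil)))))) (.g (nat_lit 4) .nil .nil))))) (.nd (nat_lit 4) (.nd (nat_lit 5) 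
(.lf (nat_lit 91662) (.g (nat_lit 1864) (.e (nat_lit 2280) (nat_lit 150) (.e (nat_lit 770071) (nat_lit 8) (.e (nat_lit 65617) (nat_lit 10) (.e (nat_lit 344091) (nat_lit 18) (.e (nat_lit 7122) (nat_lit 382) .nil))))) .nil)) 
(.lf (nat_lit 91694) (.g (nat_lit 1024) (.e (nat_lit 2280) (nat_lit 150) (.e (nat_lit 770071) (nat_lit 8) (.e (nat_lit 65619) (nat_lit 10) (.e (nat_lit 344097) (nat_lit 18) .nil)))) .nil))) (.nd (nat_lit 5) 
(.lf (nat_lit 91678) (.g (nat_lit 1778) (.e (nat_lit 2280) (nat_lit 150) (.e (nat_lit 770071) (nat_lit 8) (.e (nat_lit 65617) (nat_lit 10) (.e (nat_lit 344096) (nat_lit 18) (.e (nat_lit 7265) (nat_lit 384) .nil))))) .nil)) 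
(.lf (nat_lit 91710) (.g (nat_lit 2244) (.e (nat_lit 2280) (nat_lit 150) (.e (nat_lit 770071) (nat_lit 8) (.e (nat_lit 65620) (nat_lit 10) (.e (nat_lit 344177) (nat_lit 43) (.e (nat_lit 770074) (nat_lit 10) (.e (nat_lit 81943) (nat_lit 20) .nil)))))) (.g (nat_lit 5) .nil .nil)))))))) (.nd (nat_lit 1) (.nd (nat_lit 2) (.nd (nat_lit 3) (.nd (nat_lit 4) (.nd (nat_lit 5) 
(.lf (nat_lit 91649) (.g (nat_lit 2672) (.e (nat_lit 2280) (nat_lit 150) (.e (nat_lit 770071) (nat_lit 8) (.e (nat_lit 65611) (nat_lit 10) (.e (nat_lit 344177) (nat_lit 43) (.e (nat_lit 770074) (nat_lit 10) (.e (nat_lit 81942) (nat_lit 20) .nil)))))) (.g (nat_lit 0) .nil .nil))) 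
(.lf (nat_lit 91681) (.g (nat_lit 1230) (.e (nat_lit 2280) (nat_lit 150) (.e (nat_lit 770071) (nat_lit 8) (.e (nat_lit 65617) (nat_lit 10) (.e (nat_lit 344175) (nat_lit 43) .nil)))) .nil))) (.nd (nat_lit 5) 
(.lf (nat_lit 91665) (.g (nat_lit 1866) (.e (nat_lit 2280) (nat_lit 150) (.e (nat_lit 770071) (nat_lit 8) (.e (nat_lit 65617) (nat_lit 10) (.e (nat_lit 344091) (nat_lit 18) (.e (nat_lit 7132) (nat_lit 382) .nil))))) .nil)) 
(.lf (nat_lit 91697) (.g (nat_lit 3997) (.e (nat_lit 2280) (nat_lit 150) (.e (nat_lit 770071) (nat_lit 8) (.e (nat_lit 65619) (nat_lit 10) (.e (nat_lit 344097) (nat_lit 18) (.e (nat_lit 7270) (nat_lit 385) (.e (nat_lit 122916) (nat_lit 14) (.e (nat_lit 352302) (nat_lit 20) .nil))))))) (.g (nat_lit 6) .nil .nil))))) (.nd (nat_lit 4) (.nd (nat_lit 5) 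
(.lf (nat_lit 91657) (.g (nat_lit 2831) (.e (nat_lit 2280) (nat_lit 150) (.e (nat_lit 770071) (nat_lit 8) (.e (nat_lit 65616) (nat_lit 10) (.e (nat_lit 344177) (nat_lit 43) (.e (nat_lit 770074) (nat_lit 10) (.e (nat_lit 81946) (nat_lit 20) .nil)))))) (.g (nat_lit 6) .nil .nil))) 
(.lf (nat_lit 91689) (.g (nat_lit 1846) (.e (nat_lit 2280) (nat_lit 150) (.e (nat_lit 770071) (nat_lit 8) (.e (nat_lit 65619) (nat_lit 10) (.e (nat_lit 344090) (nat_lit 18) (.e (nat_lit 7119) (nat_lit 382) .nil))))) .nil))) (.nd (nat_lit 5) 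
(.lf (nat_lit 91673) (.g (nat_lit 3574) (.e (nat_lit 2280) (nat_lit 150) (.e (nat_lit 770071) (nat_lit 8) (.e (nat_lit 65617) (nat_lit 10) (.e (nat_lit 344096) (nat_lit 18) (.e (nat_lit 7122) (nat_lit 382) (.e (nat_lit 1222) (nat_lit 90) (.e (nat_lit 81943) (nat_lit 20) .nil))))))) (.g (nat_lit 6) .nil .nil))) 
(.lf (nat_lit 91705) (.g (nat_lit 3281) (.e (nat_lit 2280) (nat_lit 150) (.e (nat_lit 770071) (nat_lit 8) (.e (nat_lit 65619) (nat_lit 10) (.e (nat_lit 344177) (nat_lit 43) (.e (nat_lit 770074) (nat_lit 10) (.e (nat_lit 81946) (nat_lit 20) .nil)))))) (.g (nat_lit 6) .nil .nil)))))) (.nd (nat_lit 3) (.nd (nat_lit 4) (.nd (nat_lit 5) 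
(.lf (nat_lit 91653) (.g (nat_lit 1225) (.e (nat_lit 2280) (nat_lit 150) (.e (nat_lit 770071) (nat_lit 8) (.e (nat_lit 65616) (nat_lit 10) (.e (nat_lit 344174) (nat_lit 42) (.e (nat_lit 769792) (nat_lit 10) (.e (nat_lit 81943) (nat_lit 20) .nil)))))) (.g (nat_lit 4) .nil .nil))) 
(.lf (nat_lit 91685) (.g (nat_lit 2494) (.e (nat_lit 2280) (nat_lit 150) (.e (nat_lit 770071) (nat_lit 8) (.e (nat_lit 65617) (nat_lit 10) (.e (nat_lit 344177) (nat_lit 43) (.e (nat_lit 770074) (nat_lit 10) (.e (nat_lit 81943) (nat_lit 20) .nil)))))) (.g (nat_lit 5) .nil .nil)))) (.nd (nat_lit 5) 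
(.lf (nat_lit 91669) (.g (nat_lit 1922) (.e (nat_lit 2280) (nat_lit 150) (.e (nat_lit 770071) (nat_lit 8) (.e (nat_lit 65617) (nat_lit 10) (.e (nat_lit 344096) (nat_lit 18) (.e (nat_lit 7119) (nat_lit 382) .nil))))) .nil)) 
(.lf (nat_lit 91701) (.g (nat_lit 1765) (.e (nat_lit 2280) (nat_lit 150) (.e (nat_lit 770071) (nat_lit 8) (.e (nat_lit 65619) (nat_lit 10) (.e (nat_lit 344174) (nat_lit 42) (.e (nat_lit 769792) (nat_lit 10) .nil))))) .nil)))) (.nd (nat_lit 4) (.nd (nat_lit 5) 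
(.lf (nat_lit 91661) (.g (nat_lit 1941) (.e (nat_lit 2280) (nat_lit 150) (.e (nat_lit 770071) (nat_lit 8) (.e (nat_lit 65617) (nat_lit 10) (.e (nat_lit 344091) (nat_lit 18) (.e (nat_lit 7119) (nat_lit 382) (.e (nat_lit 7936) (nat_lit 90) (.e (nat_lit 81943) (nat_lit 20) .nil))))))) (.g (nat_lit 4) .nil .nil))) 
(.lf (nat_lit 91693) (.g (nat_lit 2068) (.e (nat_lit 2280) (nat_lit 150) (.e (nat_lit 770071) (nat_lit 8) (.e (nat_lit 65619) (nat_lit 10) (.e (nat_lit 344090) (nat_lit 18) (.e (nat_lit 7124) (nat_lit 382) (.e (nat_lit 7936) (nat_lit 90) (.e (nat_lit 81942) (nat_lit 20) .nil))))))) (.g (nat_lit 4) .nil .nil)))) (.nd (nat_lit 5) 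
(.lf (nat_lit 91677) (.g (nat_lit 1863) (.e (nat_lit 2280) (nat_lit 150) (.e (nat_lit 770071) (nat_lit 8) (.e (nat_lit 65617) (nat_lit 10) (.e (nat_lit 344096) (nat_lit 18) (.e (nat_lit 7132) (nat_lit 382) .nil))))) .nil)) 
(.lf (nat_lit 91709) (.g (nat_lit 2706) (.e (nat_lit 2280) (nat_lit 150) (.e (nat_lit 770071) (nat_lit 8) (.e (nat_lit 65620) (nat_lit 10) (.e (nat_lit 344177) (nat_lit 43) (.e (nat_lit 770074) (nat_lit 10) (.e (nat_lit 81942) (nat_lit 20) .nil)))))) (.g (nat_lit 0) .nil .nil))))))) (.nd (nat_lit 2) (.nd (nat_lit 3) (.nd (nat_lit 4) (.nd (nat_lit 5) 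
(.lf (nat_lit 91651) (.g (nat_lit 2852) (.e (nat_lit 2280) (nat_lit 150) (.e (nat_lit 770071) (nat_lit 8) (.e (nat_lit 65611) (nat_lit 10) (.e (nat_lit 344177) (nat_lit 43) (.e (nat_lit 770074) (nat_lit 10) (.e (nat_lit 81946) (nat_lit 20) .nil)))))) (.g (nat_lit 6) .nil .nil))) 
(.lf (nat_lit 91683) (.g (nat_lit 3407) (.e (nat_lit 2280) (nat_lit 150) (.e (nat_lit 770071) (nat_lit 8) (.e (nat_lit 65617) (nat_lit 10) (.e (nat_lit 344177) (nat_lit 43) (.e (nat_lit 770074) (nat_lit 10) (.e (nat_lit 81938) (nat_lit 20) .nil)))))) (.g (nat_lit 0) .nil .nil)))) (.nd (nat_lit 5) 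
(.lf (nat_lit 91667) (.g (nat_lit 1193) (.e (nat_lit 2280) (nat_lit 150) (.e (nat_lit 770071) (nat_lit 8) (.e (nat_lit 65617) (nat_lit 10) (.e (nat_lit 344095) (nat_lit 18) .nil)))) .nil)) 
(.lf (nat_lit 91699) (.g (nat_lit 1472) (.e (nat_lit 2280) (nat_lit 150) (.e (nat_lit 770071) (nat_lit 8) (.e (nat_lit 65619) (nat_lit 10) (.e (nat_lit 344097) (nat_lit 18) (.e (nat_lit 7273) (nat_lit 385) .nil))))) .nil)))) (.nd (nat_lit 4) (.nd (nat_lit 5) 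
(.lf (nat_lit 91659) (.g (nat_lit 1865) (.e (nat_lit 2280) (nat_lit 150) (.e (nat_lit 770071) (nat_lit 8) (.e (nat_lit 65617) (nat_lit 10) (.e (nat_lit 344091) (nat_lit 18) (.e (nat_lit 7119) (nat_lit 382) .nil))))) .nil)) 
(.lf (nat_lit 91691) (.g (nat_lit 2057) (.e (nat_lit 2280) (nat_lit 150) (.e (nat_lit 770071) (nat_lit 8) (.e (nat_lit 65619) (nat_lit 10) (.e (nat_lit 344090) (nat_lit 18) (.e (nat_lit 7122) (nat_lit 382) (.e (nat_lit 1222) (nat_lit 90) (.e (nat_lit 81943) (nat_lit 20) .nil))))))) (.g (nat_lit 4) .nil .nil)))) (.nd (nat_lit 5) 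
(.lf (nat_lit 91675) (.g (nat_lit 1783) (.e (nat_lit 2280) (nat_lit 150) (.e (nat_lit 770071) (nat_lit 8) (.e (nat_lit 65617) (nat_lit 10) (.e (nat_lit 344096) (nat_lit 18) (.e (nat_lit 7124) (nat_lit 382) .nil))))) .nil)) 
(.lf (nat_lit 91707) (.g (nat_lit 1339) (.e (nat_lit 2280) (nat_lit 150) (.e (nat_lit 770071) (nat_lit 8) (.e (nat_lit 65620) (nat_lit 10) (.e (nat_lit 344174) (nat_lit 42) (.e (nat_lit 769792) (nat_lit 10) .nil))))) .nil))))) (.nd (nat_lit 3) (.nd (nat_lit 4) (.nd (nat_lit 5) 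
(.lf (nat_lit 91655) (.g (nat_lit 2655) (.e (nat_lit 2280) (nat_lit 150) (.e (nat_lit 770071) (nat_lit 8) (.e (nat_lit 65616) (nat_lit 10) (.e (nat_lit 344177) (nat_lit 43) (.e (nat_lit 770074) (nat_lit 10) (.e (nat_lit 81942) (nat_lit 20) .nil)))))) (.g (nat_lit 0) .nil .nil))) 
(.lf (nat_lit 91687) (.g (nat_lit 2068) (.e (nat_lit 2280) (nat_lit 150) (.e (nat_lit 770071) (nat_lit 8) (.e (nat_lit 65617) (nat_lit 10) (.e (nat_lit 344177) (nat_lit 43) (.e (nat_lit 770074) (nat_lit 10) (.e (nat_lit 81947) (nat_lit 20) .nil)))))) (.g (nat_lit 4) .nil .nil)))) (.nd (nat_lit 5) 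
(.lf (nat_lit 91671) (.g (nat_lit 2028) (.e (nat_lit 2280) (nat_lit 150) (.e (nat_lit 770071) (nat_lit 8) (.e (nat_lit 65617) (nat_lit 10) (.e (nat_lit 344096) (nat_lit 18) (.e (nat_lit 7119) (nat_lit 382) (.e (nat_lit 7936) (nat_lit 90) (.e (nat_lit 81943) (nat_lit 20) .nil))))))) (.g (nat_lit 4) .nil .nil))) 
(.lf (nat_lit 91703) (.g (nat_lit 3530) (.e (nat_lit 2280) (nat_lit 150) (.e (nat_lit 770071) (nat_lit 8) (.e (nat_lit 65619) (nat_lit 10) (.e (nat_lit 344177) (nat_lit 43) (.e (nat_lit 770074) (nat_lit 10) (.e (nat_lit 81938) (nat_lit 20) .nil)))))) (.g (nat_lit 0) .nil .nil))))) (.nd (nat_lit 4) (.nd (nat_lit 5) 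
(.lf (nat_lit 91663) (.g (nat_lit 1990) (.e (nat_lit 2280) (nat_lit 150) (.e (nat_lit 770071) (nat_lit 8) (.e (nat_lit 65617) (nat_lit 10) (.e (nat_lit 344091) (nat_lit 18) (.e (nat_lit 7122) (nat_lit 382) (.e (nat_lit 7936) (nat_lit 90) (.e (nat_lit 81943) (nat_lit 20) .nil))))))) (.g (nat_lit 4) .nil .nil))) 
(.lf (nat_lit 91695) (.g (nat_lit 2036) (.e (nat_lit 2280) (nat_lit 150) (.e (nat_lit 770071) (nat_lit 8) (.e (nat_lit 65619) (nat_lit 10) (.e (nat_lit 344097) (nat_lit 18) (.e (nat_lit 7146) (nat_lit 382) .nil))))) .nil))) (.nd (nat_lit 5) 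
(.lf (nat_lit 91679) (.g (nat_lit 1407) (.e (nat_lit 2280) (nat_lit 150) (.e (nat_lit 770071) (nat_lit 8) (.e (nat_lit 65617) (nat_lit 10) (.e (nat_lit 344173) (nat_lit 42) .nil)))) .nil)) 
(.lf (nat_lit 91711) (.g (nat_lit 2910) (.e (nat_lit 2280) (nat_lit 150) (.e (nat_lit 770071) (nat_lit 8) (.e (nat_lit 65620) (nat_lit 10) (.e (nat_lit 344177) (nat_lit 43) (.e (nat_lit 770074) (nat_lit 10) (.e (nat_lit 81946) (nat_lit 20) .nil)))))) (.g (nat_lit 6) .nil .nil)))))))))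

noncomputable def tv1254 : DT := (.nd (nat_lit 0) (.nd (nat_lit 1) (.nd (nat_lit 2) (.nd (nat_lit 3) (.nd (nat_lit 4) (.nd (nat_lit 5) 
(.lf (nat_lit 91712) (.g (nat_lit 1820) (.e (nat_lit 2280) (nat_lit 150) (.e (nat_lit 770071) (nat_lit 8) (.e (nat_lit 65627) (nat_lit 13) (.e (nat_lit 393299) (nat_lit 27) (.e (nat_lit 491551) (nat_lit 9) (.e (nat_lit 335928) (nat_lit 0) .nil)))))) (.g (nat_lit 4) .nil .nil))) 
(.lf (nat_lit 91744) (.g (nat_lit 4032) (.e (nat_lit 2280) (nat_lit 150) (.e (nat_lit 770072) (nat_lit 8) (.e (nat_lit 65610) (nat_lit 10) (.e (nat_lit 344097) (nat_lit 18) (.e (nat_lit 7270) (nat_lit 385) (.e (nat_lit 122916) (nat_lit 14) (.e (nat_lit 352302) (nat_lit 20) .nil))))))) (.g (nat_lit 7) .nil .nil)))) (.nd (nat_lit 5) 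
(.lf (nat_lit 91728) (.g (nat_lit 1653) (.e (nat_lit 2280) (nat_lit 150) (.e (nat_lit 770072) (nat_lit 8) (.e (nat_lit 65610) (nat_lit 10) (.e (nat_lit 344090) (nat_lit 18) (.e (nat_lit 7119) (nat_lit 382) .nil))))) .nil)) 
(.lf (nat_lit 91760) (.g (nat_lit 1327) (.e (nat_lit 2280) (nat_lit 150) (.e (nat_lit 770072) (nat_lit 8) (.e (nat_lit 65610) (nat_lit 10) (.e (nat_lit 344178) (nat_lit 44) .nil)))) .nil)))) (.nd (nat_lit 4) (.nd (nat_lit 5) 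
(.lf (nat_lit 91720) (.g (nat_lit 2350) (.e (nat_lit 2280) (nat_lit 150) (.e (nat_lit 770072) (nat_lit 8) (.e (nat_lit 65586) (nat_lit 7) (.e (nat_lit 319531) (nat_lit 16) (.e (nat_lit 286756) (nat_lit 10) (.e (nat_lit 344160) (nat_lit 37) (.e (nat_lit 647190) (nat_lit 9) (.e (nat_lit 1047) (nat_lit 81) .nil)))))))) (.g (nat_lit 4) .nil .nil))) 
(.lf (nat_lit 91752) (.g (nat_lit 1566) (.e (nat_lit 2280) (nat_lit 150) (.e (nat_lit 770072) (nat_lit 8) (.e (nat_lit 65610) (nat_lit 10) (.e (nat_lit 344174) (nat_lit 42) (.e (nat_lit 769792) (nat_lit 10) .nil))))) .nil))) (.nd (nat_lit 5) 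
(.lf (nat_lit 91736) (.g (nat_lit 2151) (.e (nat_lit 2280) (nat_lit 150) (.e (nat_lit 770072) (nat_lit 8) (.e (nat_lit 65610) (nat_lit 10) (.e (nat_lit 344097) (nat_lit 18) (.e (nat_lit 7146) (nat_lit 382) (.e (nat_lit 1216) (nat_lit 90) (.e (nat_lit 81939) (nat_lit 20) .nil))))))) (.g (nat_lit 4) .nil .nil))) 
(.lf (nat_lit 91768) (.g (nat_lit 1272) (.e (nat_lit 2280) (nat_lit 150) (.e (nat_lit 770072) (nat_lit 8) (.e (nat_lit 65616) (nat_lit 10) (.e (nat_lit 344096) (nat_lit 18) (.e (nat_lit 7125) (nat_lit 382) .nil))))) .nil))))) (.nd (nat_lit 3) (.nd (nat_lit 4) (.nd (nat_lit 5) 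
(.lf (nat_lit 91716) (.g (nat_lit 2828) (.e (nat_lit 2280) (nat_lit 150) (.e (nat_lit 770072) (nat_lit 8) (.e (nat_lit 65568) (nat_lit 2) (.e (nat_lit 90170) (nat_lit 13) (.e (nat_lit 172106) (nat_lit 10) (.e (nat_lit 434244) (nat_lit 28) (.e (nat_lit 573451) (nat_lit 9) (.e (nat_lit 1032) (nat_lit 81) .nil)))))))) (.g (nat_lit 6) .nil .nil))) 
(.lf (nat_lit 91748) (.g (nat_lit 3602) (.e (nat_lit 2280) (nat_lit 150) (.e (nat_lit 770072) (nat_lit 8) (.e (nat_lit 65610) (nat_lit 10) (.e (nat_lit 344097) (nat_lit 18) (.e (nat_lit 7272) (nat_lit 385) (.e (nat_lit 122916) (nat_lit 14) (.e (nat_lit 352302) (nat_lit 20) .nil))))))) (.g (nat_lit 7) .nil .nil)))) (.nd (nat_lit 5) 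
(.lf (nat_lit 91732) (.g (nat_lit 1562) (.e (nat_lit 2280) (nat_lit 150) (.e (nat_lit 770072) (nat_lit 8) (.e (nat_lit 65610) (nat_lit 10) (.e (nat_lit 344090) (nat_lit 18) (.e (nat_lit 7265) (nat_lit 384) .nil))))) .nil)) 
(.lf (nat_lit 91764) (.g (nat_lit 2679) (.e (nat_lit 2280) (nat_lit 150) (.e (nat_lit 770072) (nat_lit 8) (.e (nat_lit 65611) (nat_lit 10) (.e (nat_lit 344177) (nat_lit 43) (.e (nat_lit 770074) (nat_lit 10) (.e (nat_lit 81942) (nat_lit 20) .nil)))))) (.g (nat_lit 6) .nil .nil))))) (.nd (nat_lit 4) (.nd (nat_lit 5) 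
(.lf (nat_lit 91724) (.g (nat_lit 1189) (.e (nat_lit 2280) (nat_lit 150) (.e (nat_lit 770072) (nat_lit 8) (.e (nat_lit 65598) (nat_lit 9) (.e (nat_lit 335903) (nat_lit 0) .nil)))) .nil)) 
(.lf (nat_lit 91756) (.g (nat_lit 3483) (.e (nat_lit 2280) (nat_lit 150) (.e (nat_lit 770072) (nat_lit 8) (.e (nat_lit 65610) (nat_lit 10) (.e (nat_lit 344177) (nat_lit 43) (.e (nat_lit 770074) (nat_lit 10) (.e (nat_lit 81938) (nat_lit 20) .nil)))))) (.g (nat_lit 0) .nil .nil)))) (.nd (nat_lit 5) 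
(.lf (nat_lit 91740) (.g (nat_lit 2653) (.e (nat_lit 2280) (nat_lit 150) (.e (nat_lit 770072) (nat_lit 8) (.e (nat_lit 65610) (nat_lit 10) (.e (nat_lit 344097) (nat_lit 18) (.e (nat_lit 7160) (nat_lit 382) (.e (nat_lit 1215) (nat_lit 90) (.e (nat_lit 81943) (nat_lit 20) .nil))))))) (.g (nat_lit 4) .nil .nil))) 
(.lf (nat_lit 91772) (.g (nat_lit 2768) (.e (nat_lit 2280) (nat_lit 150) (.e (nat_lit 770072) (nat_lit 8) (.e (nat_lit 65616) (nat_lit 10) (.e (nat_lit 344177) (nat_lit 43) (.e (nat_lit 770074) (nat_lit 10) (.e (nat_lit 81946) (nat_lit 20) .nil)))))) (.g (nat_lit 6) .nil .nil))))))) (.nd (nat_lit 2) (.nd (nat_lit 3) (.nd (nat_lit 4) (.nd (nat_lit 5) 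
(.lf (nat_lit 91714) (.g (nat_lit 1417) (.e (nat_lit 2280) (nat_lit 150) (.e (nat_lit 770071) (nat_lit 8) (.e (nat_lit 65628) (nat_lit 14) (.e (nat_lit 401422) (nat_lit 1) .nil)))) .nil)) 
(.lf (nat_lit 91746) (.g (nat_lit 2013) (.e (nat_lit 2280) (nat_lit 150) (.e (nat_lit 770072) (nat_lit 8) (.e (nat_lit 65610) (nat_lit 10) (.e (nat_lit 344097) (nat_lit 18) (.e (nat_lit 7272) (nat_lit 385) .nil))))) .nil))) (.nd (nat_lit 5) 
(.lf (nat_lit 91730) (.g (nat_lit 1573) (.e (nat_lit 2280) (nat_lit 150) (.e (nat_lit 770072) (nat_lit 8) (.e (nat_lit 65610) (nat_lit 10) (.e (nat_lit 344090) (nat_lit 18) (.e (nat_lit 7124) (nat_lit 382) .nil))))) .nil)) 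
(.lf (nat_lit 91762) (.g (nat_lit 1290) (.e (nat_lit 2280) (nat_lit 150) (.e (nat_lit 770072) (nat_lit 8) (.e (nat_lit 65611) (nat_lit 10) (.e (nat_lit 344174) (nat_lit 42) (.e (nat_lit 769792) (nat_lit 10) (.e (nat_lit 81943) (nat_lit 20) .nil)))))) (.g (nat_lit 4) .nil .nil))))) (.nd (nat_lit 4) (.nd (nat_lit 5) 
(.lf (nat_lit 91722) (.g (nat_lit 2291) (.e (nat_lit 2280) (nat_lit 150) (.e (nat_lit 770072) (nat_lit 8) (.e (nat_lit 65586) (nat_lit 7) (.e (nat_lit 319534) (nat_lit 16) (.e (nat_lit 286756) (nat_lit 10) (.e (nat_lit 344160) (nat_lit 37) (.e (nat_lit 647190) (nat_lit 9) (.e (nat_lit 1047) (nat_lit 81) .nil)))))))) (.g (nat_lit 4) .nil .nil))) 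
(.lf (nat_lit 91754) (.g (nat_lit 1779) (.e (nat_lit 2280) (nat_lit 150) (.e (nat_lit 770072) (nat_lit 8) (.e (nat_lit 65610) (nat_lit 10) (.e (nat_lit 344176) (nat_lit 43) (.e (nat_lit 770074) (nat_lit 10) .nil))))) .nil))) (.nd (nat_lit 5) 
(.lf (nat_lit 91738) (.g (nat_lit 2294) (.e (nat_lit 2280) (nat_lit 150) (.e (nat_lit 770072) (nat_lit 8) (.e (nat_lit 65610) (nat_lit 10) (.e (nat_lit 344097) (nat_lit 18) (.e (nat_lit 7147) (nat_lit 382) (.e (nat_lit 1216) (nat_lit 90) (.e (nat_lit 81939) (nat_lit 20) .nil))))))) (.g (nat_lit 4) .nil .nil))) 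
(.lf (nat_lit 91770) (.g (nat_lit 2606) (.e (nat_lit 2280) (nat_lit 150) (.e (nat_lit 770072) (nat_lit 8) (.e (nat_lit 65616) (nat_lit 10) (.e (nat_lit 344177) (nat_lit 43) (.e (nat_lit 770074) (nat_lit 10) (.e (nat_lit 81942) (nat_lit 20) .nil)))))) (.g (nat_lit 6) .nil .nil)))))) (.nd (nat_lit 3) (.nd (nat_lit 4) (.nd (nat_lit 5) 
(.lf (nat_lit 91718) (.g (nat_lit 1983) (.e (nat_lit 2280) (nat_lit 150) (.e (nat_lit 770072) (nat_lit 8) (.e (nat_lit 65583) (nat_lit 7) (.e (nat_lit 319530) (nat_lit 16) (.e (nat_lit 286756) (nat_lit 10) .nil))))) .nil)) 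
(.lf (nat_lit 91750) (.g (nat_lit 1281) (.e (nat_lit 2280) (nat_lit 150) (.e (nat_lit 770072) (nat_lit 8) (.e (nat_lit 65610) (nat_lit 10) (.e (nat_lit 344173) (nat_lit 42) .nil)))) .nil))) (.nd (nat_lit 5) 
(.lf (nat_lit 91734) (.g (nat_lit 2437) (.e (nat_lit 2280) (nat_lit 150) (.e (nat_lit 770072) (nat_lit 8) (.e (nat_lit 65610) (nat_lit 10) (.e (nat_lit 344097) (nat_lit 18) (.e (nat_lit 7145) (nat_lit 382) (.e (nat_lit 1217) (nat_lit 90) (.e (nat_lit 81946) (nat_lit 20) .nil))))))) (.g (nat_lit 4) .nil .nil))) 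
(.lf (nat_lit 91766) (.g (nat_lit 2846) (.e (nat_lit 2280) (nat_lit 150) (.e (nat_lit 770072) (nat_lit 8) (.e (nat_lit 65611) (nat_lit 10) (.e (nat_lit 344177) (nat_lit 43) (.e (nat_lit 770074) (nat_lit 10) (.e (nat_lit 81946) (nat_lit 20) .nil)))))) (.g (nat_lit 6) .nil .nil))))) (.nd (nat_lit 4) (.nd (nat_lit 5) 
(.lf (nat_lit 91726) (.g (nat_lit 610) (.e (nat_lit 2280) (nat_lit 150) (.e (nat_lit 770072) (nat_lit 8) (.e (nat_lit 65609) (nat_lit 10) .nil))) .nil)) 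
(.lf (nat_lit 91758) (.g (nat_lit 2585) (.e (nat_lit 2280) (nat_lit 150) (.e (nat_lit 770072) (nat_lit 8) (.e (nat_lit 65610) (nat_lit 10) (.e (nat_lit 344177) (nat_lit 43) (.e (nat_lit 770074) (nat_lit 10) (.e (nat_lit 81943) (nat_lit 20) .nil)))))) (.g (nat_lit 5) .nil .nil)))) (.nd (nat_lit 5) 
(.lf (nat_lit 91742) (.g (nat_lit 2368) (.e (nat_lit 2280) (nat_lit 150) (.e (nat_lit 770072) (nat_lit 8) (.e (nat_lit 65610) (nat_lit 10) (.e (nat_lit 344097) (nat_lit 18) (.e (nat_lit 7160) (nat_lit 382) (.e (nat_lit 7936) (nat_lit 90) (.e (nat_lit 81938) (nat_lit 20) .nil))))))) (.g (nat_lit 4) .nil .nil))) 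
(.lf (nat_lit 91774) (.g (nat_lit 1809) (.e (nat_lit 2280) (nat_lit 150) (.e (nat_lit 770072) (nat_lit 8) (.e (nat_lit 65617) (nat_lit 10) (.e (nat_lit 344091) (nat_lit 18) (.e (nat_lit 7119) (nat_lit 382) .nil))))) .nil))))))) (.nd (nat_lit 1) (.nd (nat_lit 2) (.nd (nat_lit 3) (.nd (nat_lit 4) (.nd (nat_lit 5) 
(.lf (nat_lit 91713) (.g (nat_lit 3190) (.e (nat_lit 2280) (nat_lit 150) (.e (nat_lit 770071) (nat_lit 8) (.e (nat_lit 65627) (nat_lit 13) (.e (nat_lit 393301) (nat_lit 27) (.e (nat_lit 491551) (nat_lit 9) (.e (nat_lit 335928) (nat_lit 0) .nil)))))) (.g (nat_lit 0) .nil .nil))) 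
(.lf (nat_lit 91745) (.g (nat_lit 1965) (.e (nat_lit 2280) (nat_lit 150) (.e (nat_lit 770072) (nat_lit 8) (.e (nat_lit 65610) (nat_lit 10) (.e (nat_lit 344097) (nat_lit 18) (.e (nat_lit 7271) (nat_lit 385) .nil))))) .nil))) (.nd (nat_lit 5) 
(.lf (nat_lit 91729) (.g (nat_lit 1840) (.e (nat_lit 2280) (nat_lit 150) (.e (nat_lit 770072) (nat_lit 8) (.e (nat_lit 65610) (nat_lit 10) (.e (nat_lit 344090) (nat_lit 18) (.e (nat_lit 7119) (nat_lit 382) (.e (nat_lit 7936) (nat_lit 90) (.e (nat_lit 81942) (nat_lit 20) .nil))))))) (.g (nat_lit 4) .nil .nil))) 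
(.lf (nat_lit 91761) (.g (nat_lit 1266) (.e (nat_lit 2280) (nat_lit 150) (.e (nat_lit 770072) (nat_lit 8) (.e (nat_lit 65611) (nat_lit 10) (.e (nat_lit 344174) (nat_lit 42) (.e (nat_lit 769792) (nat_lit 10) .nil))))) .nil)))) (.nd (nat_lit 4) (.nd (nat_lit 5) 
(.lf (nat_lit 91721) (.g (nat_lit 2998) (.e (nat_lit 2280) (nat_lit 150) (.e (nat_lit 770072) (nat_lit 8) (.e (nat_lit 65586) (nat_lit 7) (.e (nat_lit 319531) (nat_lit 16) (.e (nat_lit 286756) (nat_lit 10) (.e (nat_lit 344160) (nat_lit 37) (.e (nat_lit 647195) (nat_lit 9) (.e (nat_lit 982) (nat_lit 81) .nil)))))))) (.g (nat_lit 5) .nil .nil))) 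
(.lf (nat_lit 91753) (.g (nat_lit 1678) (.e (nat_lit 2280) (nat_lit 150) (.e (nat_lit 770072) (nat_lit 8) (.e (nat_lit 65610) (nat_lit 10) (.e (nat_lit 344174) (nat_lit 42) (.e (nat_lit 769792) (nat_lit 10) (.e (nat_lit 81943) (nat_lit 20) .nil)))))) (.g (nat_lit 4) .nil .nil)))) (.nd (nat_lit 5) 
(.lf (nat_lit 91737) (.g (nat_lit 2056) (.e (nat_lit 2280) (nat_lit 150) (.e (nat_lit 770072) (nat_lit 8) (.e (nat_lit 65610) (nat_lit 10) (.e (nat_lit 344097) (nat_lit 18) (.e (nat_lit 7147) (nat_lit 382) .nil))))) .nil)) 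
(.lf (nat_lit 91769) (.g (nat_lit 1256) (.e (nat_lit 2280) (nat_lit 150) (.e (nat_lit 770072) (nat_lit 8) (.e (nat_lit 65616) (nat_lit 10) (.e (nat_lit 344174) (nat_lit 42) (.e (nat_lit 769792) (nat_lit 10) .nil))))) .nil))))) (.nd (nat_lit 3) (.nd (nat_lit 4) (.nd (nat_lit 5) 
(.lf (nat_lit 91717) (.g (nat_lit 2625) (.e (nat_lit 2280) (nat_lit 150) (.e (nat_lit 770072) (nat_lit 8) (.e (nat_lit 65583) (nat_lit 7) (.e (nat_lit 319530) (nat_lit 16) (.e (nat_lit 286753) (nat_lit 10) (.e (nat_lit 344160) (nat_lit 37) (.e (nat_lit 647195) (nat_lit 9) (.e (nat_lit 982) (nat_lit 81) .nil)))))))) (.g (nat_lit 4) .nil .nil))) 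
(.lf (nat_lit 91749) (.g (nat_lit 2130) (.e (nat_lit 2280) (nat_lit 150) (.e (nat_lit 770072) (nat_lit 8) (.e (nat_lit 65610) (nat_lit 10) (.e (nat_lit 344097) (nat_lit 18) (.e (nat_lit 7273) (nat_lit 385) .nil))))) .nil))) (.nd (nat_lit 5) 
(.lf (nat_lit 91733) (.g (nat_lit 2202) (.e (nat_lit 2280) (nat_lit 150) (.e (nat_lit 770072) (nat_lit 8) (.e (nat_lit 65610) (nat_lit 10) (.e (nat_lit 344097) (nat_lit 18) (.e (nat_lit 7145) (nat_lit 382) .nil))))) .nil)) 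
(.lf (nat_lit 91765) (.g (nat_lit 2252) (.e (nat_lit 2280) (nat_lit 150) (.e (nat_lit 770072) (nat_lit 8) (.e (nat_lit 65611) (nat_lit 10) (.e (nat_lit 344177) (nat_lit 43) (.e (nat_lit 770074) (nat_lit 10) (.e (nat_lit 81943) (nat_lit 20) .nil)))))) (.g (nat_lit 5) .nil .nil))))) (.nd (nat_lit 4) (.nd (nat_lit 5) 
(.lf (nat_lit 91725) (.g (nat_lit 1028) (.e (nat_lit 2280) (nat_lit 150) (.e (nat_lit 770072) (nat_lit 8) (.e (nat_lit 65604) (nat_lit 9) (.e (nat_lit 335997) (nat_lit 1) .nil)))) .nil)) 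
(.lf (nat_lit 91757) (.g (nat_lit 3030) (.e (nat_lit 2280) (nat_lit 150) (.e (nat_lit 770072) (nat_lit 8) (.e (nat_lit 65610) (nat_lit 10) (.e (nat_lit 344177) (nat_lit 43) (.e (nat_lit 770074) (nat_lit 10) (.e (nat_lit 81942) (nat_lit 20) .nil)))))) (.g (nat_lit 0) .nil .nil)))) (.nd (nat_lit 5) 
(.lf (nat_lit 91741) (.g (nat_lit 2484) (.e (nat_lit 2280) (nat_lit 150) (.e (nat_lit 770072) (nat_lit 8) (.e (nat_lit 65610) (nat_lit 10) (.e (nat_lit 344097) (nat_lit 18) (.e (nat_lit 7160) (nat_lit 382) (.e (nat_lit 1215) (nat_lit 90) (.e (nat_lit 81946) (nat_lit 20) .nil))))))) (.g (nat_lit 4) .nil .nil))) 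
(.lf (nat_lit 91773) (.g (nat_lit 1085) (.e (nat_lit 2280) (nat_lit 150) (.e (nat_lit 770072) (nat_lit 8) (.e (nat_lit 65617) (nat_lit 10) (.e (nat_lit 344091) (nat_lit 18) .nil)))) .nil)))))) (.nd (nat_lit 2) (.nd (nat_lit 3) (.nd (nat_lit 4) (.nd (nat_lit 5) 
(.lf (nat_lit 91715) (.g (nat_lit 2790) (.e (nat_lit 2280) (nat_lit 150) (.e (nat_lit 770072) (nat_lit 8) (.e (nat_lit 65568) (nat_lit 2) (.e (nat_lit 90170) (nat_lit 13) (.e (nat_lit 172106) (nat_lit 10) (.e (nat_lit 434244) (nat_lit 28) (.e (nat_lit 573451) (nat_lit 9) (.e (nat_lit 1030) (nat_lit 81) .nil)))))))) (.g (nat_lit 6) .nil .nil))) 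
(.lf (nat_lit 91747) (.g (nat_lit 2196) (.e (nat_lit 2280) (nat_lit 150) (.e (nat_lit 770072) (nat_lit 8) (.e (nat_lit 65610) (nat_lit 10) (.e (nat_lit 344097) (nat_lit 18) (.e (nat_lit 7272) (nat_lit 385) (.e (nat_lit 122916) (nat_lit 14) (.e (nat_lit 352296) (nat_lit 20) .nil))))))) (.g (nat_lit 4) .nil .nil)))) (.nd (nat_lit 5) 
(.lf (nat_lit 91731) (.g (nat_lit 3172) (.e (nat_lit 2280) (nat_lit 150) (.e (nat_lit 770072) (nat_lit 8) (.e (nat_lit 65610) (nat_lit 10) (.e (nat_lit 344090) (nat_lit 18) (.e (nat_lit 7125) (nat_lit 382) (.e (nat_lit 1222) (nat_lit 90) (.e (nat_lit 81943) (nat_lit 20) .nil))))))) (.g (nat_lit 6) .nil .nil))) 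
(.lf (nat_lit 91763) (.g (nat_lit 3109) (.e (nat_lit 2280) (nat_lit 150) (.e (nat_lit 770072) (nat_lit 8) (.e (nat_lit 65611) (nat_lit 10) (.e (nat_lit 344177) (nat_lit 43) (.e (nat_lit 770074) (nat_lit 10) (.e (nat_lit 81938) (nat_lit 20) .nil)))))) (.g (nat_lit 0) .nil .nil))))) (.nd (nat_lit 4) (.nd (nat_lit 5) 
(.lf (nat_lit 91723) (.g (nat_lit 3000) (.e (nat_lit 2280) (nat_lit 150) (.e (nat_lit 770072) (nat_lit 8) (.e (nat_lit 65586) (nat_lit 7) (.e (nat_lit 319534) (nat_lit 16) (.e (nat_lit 286756) (nat_lit 10) (.e (nat_lit 344160) (nat_lit 37) (.e (nat_lit 647195) (nat_lit 9) (.e (nat_lit 982) (nat_lit 81) .nil)))))))) (.g (nat_lit 5) .nil .nil))) 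
(.lf (nat_lit 91755) (.g (nat_lit 2614) (.e (nat_lit 2280) (nat_lit 150) (.e (nat_lit 770072) (nat_lit 8) (.e (nat_lit 65610) (nat_lit 10) (.e (nat_lit 344176) (nat_lit 43) (.e (nat_lit 770074) (nat_lit 10) (.e (nat_lit 81938) (nat_lit 20) .nil)))))) (.g (nat_lit 5) .nil .nil)))) (.nd (nat_lit 5) 
(.lf (nat_lit 91739) (.g (nat_lit 2269) (.e (nat_lit 2280) (nat_lit 150) (.e (nat_lit 770072) (nat_lit 8) (.e (nat_lit 65610) (nat_lit 10) (.e (nat_lit 344097) (nat_lit 18) (.e (nat_lit 7160) (nat_lit 382) .nil))))) .nil)) 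
(.lf (nat_lit 91771) (.g (nat_lit 2173) (.e (nat_lit 2280) (nat_lit 150) (.e (nat_lit 770072) (nat_lit 8) (.e (nat_lit 65616) (nat_lit 10) (.e (nat_lit 344177) (nat_lit 43) (.e (nat_lit 770074) (nat_lit 10) (.e (nat_lit 81943) (nat_lit 20) .nil)))))) (.g (nat_lit 5) .nil .nil)))))) (.nd (nat_lit 3) (.nd (nat_lit 4) (.nd (nat_lit 5) 
(.lf (nat_lit 91719) (.g (nat_lit 2375) (.e (nat_lit 2280) (nat_lit 150) (.e (nat_lit 770072) (nat_lit 8) (.e (nat_lit 65583) (nat_lit 7) (.e (nat_lit 319533) (nat_lit 16) (.e (nat_lit 286753) (nat_lit 10) .nil))))) .nil)) 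
(.lf (nat_lit 91751) (.g (nat_lit 1799) (.e (nat_lit 2280) (nat_lit 150) (.e (nat_lit 770072) (nat_lit 8) (.e (nat_lit 65610) (nat_lit 10) (.e (nat_lit 344173) (nat_lit 42) (.e (nat_lit 769792) (nat_lit 10) (.e (nat_lit 81946) (nat_lit 20) .nil)))))) (.g (nat_lit 4) .nil .nil)))) (.nd (nat_lit 5) 
(.lf (nat_lit 91735) (.g (nat_lit 2087) (.e (nat_lit 2280) (nat_lit 150) (.e (nat_lit 770072) (nat_lit 8) (.e (nat_lit 65610) (nat_lit 10) (.e (nat_lit 344097) (nat_lit 18) (.e (nat_lit 7146) (nat_lit 382) .nil))))) .nil)) 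
(.lf (nat_lit 91767) (.g (nat_lit 527) (.e (nat_lit 2280) (nat_lit 150) (.e (nat_lit 770072) (nat_lit 8) (.e (nat_lit 65616) (nat_lit 10) .nil))) .nil)))) (.nd (nat_lit 4) (.nd (nat_lit 5) 
(.lf (nat_lit 91727) (.g (nat_lit 1059) (.e (nat_lit 2280) (nat_lit 150) (.e (nat_lit 770072) (nat_lit 8) (.e (nat_lit 65610) (nat_lit 10) (.e (nat_lit 344090) (nat_lit 18) .nil)))) .nil)) 
(.lf (nat_lit 91759) (.g (nat_lit 3202) (.e (nat_lit 2280) (nat_lit 150) (.e (nat_lit 770072) (nat_lit 8) (.e (nat_lit 65610) (nat_lit 10) (.e (nat_lit 344177) (nat_lit 43) (.e (nat_lit 770074) (nat_lit 10) (.e (nat_lit 81946) (nat_lit 20) .nil)))))) (.g (nat_lit 6) .nil .nil)))) (.nd (nat_lit 5) 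
(.lf (nat_lit 91743) (.g (nat_lit 2973) (.e (nat_lit 2280) (nat_lit 150) (.e (nat_lit 770072) (nat_lit 8) (.e (nat_lit 65610) (nat_lit 10) (.e (nat_lit 344097) (nat_lit 18) (.e (nat_lit 7270) (nat_lit 385) (.e (nat_lit 122916) (nat_lit 14) (.e (nat_lit 352296) (nat_lit 20) .nil))))))) (.g (nat_lit 5) .nil .nil))) 
(.lf (nat_lit 91775) (.g (nat_lit 1855) (.e (nat_lit 2280) (nat_lit 150) (.e (nat_lit 770072) (nat_lit 8) (.e (nat_lit 65617) (nat_lit 10) (.e (nat_lit 344091) (nat_lit 18) (.e (nat_lit 7119) (nat_lit 382) (.e (nat_lit 7936) (nat_lit 90) (.e (nat_lit 81939) (nat_lit 20) .nil))))))) (.g (nat_lit 4) .nil .nil)))))))))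

noncomputable def tv1255 : DT := (.nd (nat_lit 0) (.nd (nat_lit 1) (.nd (nat_lit 2) (.nd (nat_lit 3) (.nd (nat_lit 4) (.nd (nat_lit 5) 
(.lf (nat_lit 91776) (.g (nat_lit 1958) (.e (nat_lit 2280) (nat_lit 150) (.e (nat_lit 770072) (nat_lit 8) (.e (nat_lit 65617) (nat_lit 10) (.e (nat_lit 344091) (nat_lit 18) (.e (nat_lit 7119) (nat_lit 382) (.e (nat_lit 7936) (nat_lit 90) (.e (nat_lit 81942) (nat_lit 20) .nil))))))) (.g (nat_lit 4) .nil .nil))) 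
(.lf (nat_lit 91808) (.g (nat_lit 2183) (.e (nat_lit 2280) (nat_lit 150) (.e (nat_lit 770072) (nat_lit 8) (.e (nat_lit 65619) (nat_lit 10) (.e (nat_lit 344090) (nat_lit 18) (.e (nat_lit 7119) (nat_lit 382) (.e (nat_lit 7936) (nat_lit 90) (.e (nat_lit 81938) (nat_lit 20) .nil))))))) (.g (nat_lit 4) .nil .nil)))) (.nd (nat_lit 5) 
(.lf (nat_lit 91792) (.g (nat_lit 3450) (.e (nat_lit 2280) (nat_lit 150) (.e (nat_lit 770072) (nat_lit 8) (.e (nat_lit 65617) (nat_lit 10) (.e (nat_lit 344096) (nat_lit 18) (.e (nat_lit 7122) (nat_lit 382) (.e (nat_lit 1222) (nat_lit 90) (.e (nat_lit 81943) (nat_lit 20) .nil))))))) (.g (nat_lit 6) .nil .nil))) 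
(.lf (nat_lit 91824) (.g (nat_lit 1409) (.e (nat_lit 2280) (nat_lit 150) (.e (nat_lit 770072) (nat_lit 8) (.e (nat_lit 65620) (nat_lit 10) (.e (nat_lit 344174) (nat_lit 42) (.e (nat_lit 769792) (nat_lit 10) .nil))))) .nil)))) (.nd (nat_lit 4) (.nd (nat_lit 5) 
(.lf (nat_lit 91784) (.g (nat_lit 1169) (.e (nat_lit 2280) (nat_lit 150) (.e (nat_lit 770072) (nat_lit 8) (.e (nat_lit 65617) (nat_lit 10) (.e (nat_lit 344095) (nat_lit 18) .nil)))) .nil)) 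
(.lf (nat_lit 91816) (.g (nat_lit 1363) (.e (nat_lit 2280) (nat_lit 150) (.e (nat_lit 770072) (nat_lit 8) (.e (nat_lit 65619) (nat_lit 10) (.e (nat_lit 344173) (nat_lit 42) (.e (nat_lit 769792) (nat_lit 10) .nil))))) .nil))) (.nd (nat_lit 5) 
(.lf (nat_lit 91800) (.g (nat_lit 1684) (.e (nat_lit 2280) (nat_lit 150) (.e (nat_lit 770072) (nat_lit 8) (.e (nat_lit 65617) (nat_lit 10) (.e (nat_lit 344174) (nat_lit 42) (.e (nat_lit 769792) (nat_lit 10) .nil))))) .nil)) 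
(.lf (nat_lit 91832) (.g (nat_lit 460) (.e (nat_lit 2280) (nat_lit 150) (.e (nat_lit 770074) (nat_lit 10) (.e (nat_lit 81934) (nat_lit 20) .nil))) .nil))))) (.nd (nat_lit 3) (.nd (nat_lit 4) (.nd (nat_lit 5) 
(.lf (nat_lit 91780) (.g (nat_lit 1611) (.e (nat_lit 2280) (nat_lit 150) (.e (nat_lit 770072) (nat_lit 8) (.e (nat_lit 65617) (nat_lit 10) (.e (nat_lit 344091) (nat_lit 18) (.e (nat_lit 7124) (nat_lit 382) .nil))))) .nil)) 
(.lf (nat_lit 91812) (.g (nat_lit 1865) (.e (nat_lit 2280) (nat_lit 150) (.e (nat_lit 770072) (nat_lit 8) (.e (nat_lit 65619) (nat_lit 10) (.e (nat_lit 344097) (nat_lit 18) (.e (nat_lit 7146) (nat_lit 382) .nil))))) .nil))) (.nd (nat_lit 5) 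
(.lf (nat_lit 91796) (.g (nat_lit 1842) (.e (nat_lit 2280) (nat_lit 150) (.e (nat_lit 770072) (nat_lit 8) (.e (nat_lit 65617) (nat_lit 10) (.e (nat_lit 344096) (nat_lit 18) (.e (nat_lit 7132) (nat_lit 382) .nil))))) .nil)) 
(.lf (nat_lit 91828) (.g (nat_lit 1800) (.e (nat_lit 2280) (nat_lit 150) (.e (nat_lit 770072) (nat_lit 8) (.e (nat_lit 65627) (nat_lit 13) (.e (nat_lit 393263) (nat_lit 22) (.e (nat_lit 425728) (nat_lit 16) (.e (nat_lit 286728) (nat_lit 0) .nil)))))) (.g (nat_lit 4) .nil .nil))))) (.nd (nat_lit 4) (.nd (nat_lit 5) 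
(.lf (nat_lit 91788) (.g (nat_lit 1905) (.e (nat_lit 2280) (nat_lit 150) (.e (nat_lit 770072) (nat_lit 8) (.e (nat_lit 65617) (nat_lit 10) (.e (nat_lit 344096) (nat_lit 18) (.e (nat_lit 7119) (nat_lit 382) .nil))))) .nil)) 
(.lf (nat_lit 91820) (.g (nat_lit 2976) (.e (nat_lit 2280) (nat_lit 150) (.e (nat_lit 770072) (nat_lit 8) (.e (nat_lit 65619) (nat_lit 10) (.e (nat_lit 344177) (nat_lit 43) (.e (nat_lit 770074) (nat_lit 10) (.e (nat_lit 81942) (nat_lit 20) .nil)))))) (.g (nat_lit 6) .nil .nil)))) (.nd (nat_lit 5) 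
(.lf (nat_lit 91804) (.g (nat_lit 3051) (.e (nat_lit 2280) (nat_lit 150) (.e (nat_lit 770072) (nat_lit 8) (.e (nat_lit 65617) (nat_lit 10) (.e (nat_lit 344177) (nat_lit 43) (.e (nat_lit 770074) (nat_lit 10) (.e (nat_lit 81946) (nat_lit 20) .nil)))))) (.g (nat_lit 6) .nil .nil))) 
(.lf (nat_lit 91836) (.g (nat_lit 1704) (.e (nat_lit 2280) (nat_lit 150) (.e (nat_lit 770074) (nat_lit 10) (.e (nat_lit 81938) (nat_lit 20) (.e (nat_lit 2281) (nat_lit 150) (.e (nat_lit 770074) (nat_lit 10) (.e (nat_lit 81946) (nat_lit 20) .nil)))))) (.g (nat_lit 4) .nil .nil))))))) (.nd (nat_lit 2) (.nd (nat_lit 3) (.nd (nat_lit 4) (.nd (nat_lit 5) 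
(.lf (nat_lit 91778) (.g (nat_lit 1889) (.e (nat_lit 2280) (nat_lit 150) (.e (nat_lit 770072) (nat_lit 8) (.e (nat_lit 65617) (nat_lit 10) (.e (nat_lit 344091) (nat_lit 18) (.e (nat_lit 7122) (nat_lit 382) (.e (nat_lit 7936) (nat_lit 90) (.e (nat_lit 81939) (nat_lit 20) .nil))))))) (.g (nat_lit 4) .nil .nil))) 
(.lf (nat_lit 91810) (.g (nat_lit 1642) (.e (nat_lit 2280) (nat_lit 150) (.e (nat_lit 770072) (nat_lit 8) (.e (nat_lit 65619) (nat_lit 10) (.e (nat_lit 344090) (nat_lit 18) (.e (nat_lit 7124) (nat_lit 382) .nil))))) .nil))) (.nd (nat_lit 5) 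
(.lf (nat_lit 91794) (.g (nat_lit 1748) (.e (nat_lit 2280) (nat_lit 150) (.e (nat_lit 770072) (nat_lit 8) (.e (nat_lit 65617) (nat_lit 10) (.e (nat_lit 344096) (nat_lit 18) (.e (nat_lit 7124) (nat_lit 382) .nil))))) .nil)) 
(.lf (nat_lit 91826) (.g (nat_lit 2278) (.e (nat_lit 2280) (nat_lit 150) (.e (nat_lit 770072) (nat_lit 8) (.e (nat_lit 65620) (nat_lit 10) (.e (nat_lit 344177) (nat_lit 43) (.e (nat_lit 770074) (nat_lit 10) (.e (nat_lit 81943) (nat_lit 20) .nil)))))) (.g (nat_lit 5) .nil .nil))))) (.nd (nat_lit 4) (.nd (nat_lit 5) 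
(.lf (nat_lit 91786) (.g (nat_lit 1784) (.e (nat_lit 2280) (nat_lit 150) (.e (nat_lit 770072) (nat_lit 8) (.e (nat_lit 65617) (nat_lit 10) (.e (nat_lit 344095) (nat_lit 18) (.e (nat_lit 7122) (nat_lit 382) (.e (nat_lit 7936) (nat_lit 90) (.e (nat_lit 81939) (nat_lit 20) .nil))))))) (.g (nat_lit 4) .nil .nil))) 
(.lf (nat_lit 91818) (.g (nat_lit 1626) (.e (nat_lit 2280) (nat_lit 150) (.e (nat_lit 770072) (nat_lit 8) (.e (nat_lit 65619) (nat_lit 10) (.e (nat_lit 344174) (nat_lit 42) (.e (nat_lit 769792) (nat_lit 10) (.e (nat_lit 81943) (nat_lit 20) .nil)))))) (.g (nat_lit 4) .nil .nil)))) (.nd (nat_lit 5) 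
(.lf (nat_lit 91802) (.g (nat_lit 1740) (.e (nat_lit 2280) (nat_lit 150) (.e (nat_lit 770072) (nat_lit 8) (.e (nat_lit 65617) (nat_lit 10) (.e (nat_lit 344175) (nat_lit 43) (.e (nat_lit 770074) (nat_lit 10) (.e (nat_lit 81938) (nat_lit 20) .nil)))))) (.g (nat_lit 4) .nil .nil))) 
(.lf (nat_lit 91834) (.g (nat_lit 2035) (.e (nat_lit 2280) (nat_lit 150) (.e (nat_lit 770074) (nat_lit 10) (.e (nat_lit 81938) (nat_lit 20) (.e (nat_lit 2281) (nat_lit 150) (.e (nat_lit 770074) (nat_lit 10) (.e (nat_lit 81938) (nat_lit 20) .nil)))))) (.g (nat_lit 5) .nil .nil)))))) (.nd (nat_lit 3) (.nd (nat_lit 4) (.nd (nat_lit 5) 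
(.lf (nat_lit 91782) (.g (nat_lit 1808) (.e (nat_lit 2280) (nat_lit 150) (.e (nat_lit 770072) (nat_lit 8) (.e (nat_lit 65617) (nat_lit 10) (.e (nat_lit 344091) (nat_lit 18) (.e (nat_lit 7132) (nat_lit 382) .nil))))) .nil)) 
(.lf (nat_lit 91814) (.g (nat_lit 3941) (.e (nat_lit 2280) (nat_lit 150) (.e (nat_lit 770072) (nat_lit 8) (.e (nat_lit 65619) (nat_lit 10) (.e (nat_lit 344097) (nat_lit 18) (.e (nat_lit 7270) (nat_lit 385) (.e (nat_lit 122916) (nat_lit 14) (.e (nat_lit 352302) (nat_lit 20) .nil))))))) (.g (nat_lit 6) .nil .nil)))) (.nd (nat_lit 5) 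
(.lf (nat_lit 91798) (.g (nat_lit 1874) (.e (nat_lit 2280) (nat_lit 150) (.e (nat_lit 770072) (nat_lit 8) (.e (nat_lit 65617) (nat_lit 10) (.e (nat_lit 344096) (nat_lit 18) (.e (nat_lit 7265) (nat_lit 384) (.e (nat_lit 57424) (nat_lit 14) (.e (nat_lit 352302) (nat_lit 20) .nil))))))) (.g (nat_lit 4) .nil .nil))) 
(.lf (nat_lit 91830) (.g (nat_lit 727) (.e (nat_lit 2280) (nat_lit 150) (.e (nat_lit 770074) (nat_lit 10) (.e (nat_lit 81931) (nat_lit 20) (.e (nat_lit 2375) (nat_lit 154) .nil)))) .nil)))) (.nd (nat_lit 4) (.nd (nat_lit 5) 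
(.lf (nat_lit 91790) (.g (nat_lit 2098) (.e (nat_lit 2280) (nat_lit 150) (.e (nat_lit 770072) (nat_lit 8) (.e (nat_lit 65617) (nat_lit 10) (.e (nat_lit 344096) (nat_lit 18) (.e (nat_lit 7119) (nat_lit 382) (.e (nat_lit 7936) (nat_lit 90) (.e (nat_lit 81942) (nat_lit 20) .nil))))))) (.g (nat_lit 4) .nil .nil))) 
(.lf (nat_lit 91822) (.g (nat_lit 3153) (.e (nat_lit 2280) (nat_lit 150) (.e (nat_lit 770072) (nat_lit 8) (.e (nat_lit 65619) (nat_lit 10) (.e (nat_lit 344177) (nat_lit 43) (.e (nat_lit 770074) (nat_lit 10) (.e (nat_lit 81946) (nat_lit 20) .nil)))))) (.g (nat_lit 6) .nil .nil)))) (.nd (nat_lit 5) 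
(.lf (nat_lit 91806) (.g (nat_lit 1041) (.e (nat_lit 2280) (nat_lit 150) (.e (nat_lit 770072) (nat_lit 8) (.e (nat_lit 65619) (nat_lit 10) (.e (nat_lit 344090) (nat_lit 18) .nil)))) .nil)) 
(.lf (nat_lit 91838) (.g (nat_lit 475) (.e (nat_lit 2280) (nat_lit 150) (.e (nat_lit 770074) (nat_lit 10) (.e (nat_lit 81942) (nat_lit 20) .nil))) .nil))))))) (.nd (nat_lit 1) (.nd (nat_lit 2) (.nd (nat_lit 3) (.nd (nat_lit 4) (.nd (nat_lit 5) 
(.lf (nat_lit 91777) (.g (nat_lit 1875) (.e (nat_lit 2280) (nat_lit 150) (.e (nat_lit 770072) (nat_lit 8) (.e (nat_lit 65617) (nat_lit 10) (.e (nat_lit 344091) (nat_lit 18) (.e (nat_lit 7119) (nat_lit 382) (.e (nat_lit 7936) (nat_lit 90) (.e (nat_lit 81943) (nat_lit 20) .nil))))))) (.g (nat_lit 4) .nil .nil))) 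
(.lf (nat_lit 91809) (.g (nat_lit 2180) (.e (nat_lit 2280) (nat_lit 150) (.e (nat_lit 770072) (nat_lit 8) (.e (nat_lit 65619) (nat_lit 10) (.e (nat_lit 344090) (nat_lit 18) (.e (nat_lit 7122) (nat_lit 382) (.e (nat_lit 1222) (nat_lit 90) (.e (nat_lit 81943) (nat_lit 20) .nil))))))) (.g (nat_lit 4) .nil .nil)))) (.nd (nat_lit 5) 
(.lf (nat_lit 91793) (.g (nat_lit 2186) (.e (nat_lit 2280) (nat_lit 150) (.e (nat_lit 770072) (nat_lit 8) (.e (nat_lit 65617) (nat_lit 10) (.e (nat_lit 344096) (nat_lit 18) (.e (nat_lit 7122) (nat_lit 382) (.e (nat_lit 7936) (nat_lit 90) (.e (nat_lit 81942) (nat_lit 20) .nil))))))) (.g (nat_lit 4) .nil .nil))) 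
(.lf (nat_lit 91825) (.g (nat_lit 2719) (.e (nat_lit 2280) (nat_lit 150) (.e (nat_lit 770072) (nat_lit 8) (.e (nat_lit 65620) (nat_lit 10) (.e (nat_lit 344177) (nat_lit 43) (.e (nat_lit 770074) (nat_lit 10) (.e (nat_lit 81942) (nat_lit 20) .nil)))))) (.g (nat_lit 6) .nil .nil))))) (.nd (nat_lit 4) (.nd (nat_lit 5) 
(.lf (nat_lit 91785) (.g (nat_lit 1495) (.e (nat_lit 2280) (nat_lit 150) (.e (nat_lit 770072) (nat_lit 8) (.e (nat_lit 65617) (nat_lit 10) (.e (nat_lit 344095) (nat_lit 18) (.e (nat_lit 7119) (nat_lit 382) .nil))))) .nil)) 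
(.lf (nat_lit 91817) (.g (nat_lit 1621) (.e (nat_lit 2280) (nat_lit 150) (.e (nat_lit 770072) (nat_lit 8) (.e (nat_lit 65619) (nat_lit 10) (.e (nat_lit 344174) (nat_lit 42) (.e (nat_lit 769792) (nat_lit 10) .nil))))) .nil))) (.nd (nat_lit 5) 
(.lf (nat_lit 91801) (.g (nat_lit 1205) (.e (nat_lit 2280) (nat_lit 150) (.e (nat_lit 770072) (nat_lit 8) (.e (nat_lit 65617) (nat_lit 10) (.e (nat_lit 344175) (nat_lit 43) .nil)))) .nil)) 
(.lf (nat_lit 91833) (.g (nat_lit 881) (.e (nat_lit 2280) (nat_lit 150) (.e (nat_lit 770074) (nat_lit 10) (.e (nat_lit 81935) (nat_lit 20) (.e (nat_lit 2375) (nat_lit 154) .nil)))) .nil))))) (.nd (nat_lit 3) (.nd (nat_lit 4) (.nd (nat_lit 5) 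
(.lf (nat_lit 91781) (.g (nat_lit 3694) (.e (nat_lit 2280) (nat_lit 150) (.e (nat_lit 770072) (nat_lit 8) (.e (nat_lit 65617) (nat_lit 10) (.e (nat_lit 344091) (nat_lit 18) (.e (nat_lit 7125) (nat_lit 382) (.e (nat_lit 1224) (nat_lit 90) (.e (nat_lit 81946) (nat_lit 20) .nil))))))) (.g (nat_lit 7) .nil .nil))) 
(.lf (nat_lit 91813) (.g (nat_lit 1656) (.e (nat_lit 2280) (nat_lit 150) (.e (nat_lit 770072) (nat_lit 8) (.e (nat_lit 65619) (nat_lit 10) (.e (nat_lit 344097) (nat_lit 18) (.e (nat_lit 7147) (nat_lit 382) (.e (nat_lit 1216) (nat_lit 90) (.e (nat_lit 81939) (nat_lit 20) .nil))))))) (.g (nat_lit 4) .nil .nil)))) (.nd (nat_lit 5) 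
(.lf (nat_lit 91797) (.g (nat_lit 1742) (.e (nat_lit 2280) (nat_lit 150) (.e (nat_lit 770072) (nat_lit 8) (.e (nat_lit 65617) (nat_lit 10) (.e (nat_lit 344096) (nat_lit 18) (.e (nat_lit 7265) (nat_lit 384) .nil))))) .nil)) 
(.lf (nat_lit 91829) (.g (nat_lit 2553) (.e (nat_lit 2280) (nat_lit 150) (.e (nat_lit 770072) (nat_lit 8) (.e (nat_lit 65627) (nat_lit 13) (.e (nat_lit 393301) (nat_lit 27) (.e (nat_lit 491551) (nat_lit 9) .nil))))) .nil)))) (.nd (nat_lit 4) (.nd (nat_lit 5) 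
(.lf (nat_lit 91789) (.g (nat_lit 1995) (.e (nat_lit 2280) (nat_lit 150) (.e (nat_lit 770072) (nat_lit 8) (.e (nat_lit 65617) (nat_lit 10) (.e (nat_lit 344096) (nat_lit 18) (.e (nat_lit 7119) (nat_lit 382) (.e (nat_lit 7936) (nat_lit 90) (.e (nat_lit 81939) (nat_lit 20) .nil))))))) (.g (nat_lit 4) .nil .nil))) 
(.lf (nat_lit 91821) (.g (nat_lit 2553) (.e (nat_lit 2280) (nat_lit 150) (.e (nat_lit 770072) (nat_lit 8) (.e (nat_lit 65619) (nat_lit 10) (.e (nat_lit 344177) (nat_lit 43) (.e (nat_lit 770074) (nat_lit 10) (.e (nat_lit 81943) (nat_lit 20) .nil)))))) (.g (nat_lit 5) .nil .nil)))) (.nd (nat_lit 5) 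
(.lf (nat_lit 91805) (.g (nat_lit 2103) (.e (nat_lit 2280) (nat_lit 150) (.e (nat_lit 770072) (nat_lit 8) (.e (nat_lit 65617) (nat_lit 10) (.e (nat_lit 344177) (nat_lit 43) (.e (nat_lit 770074) (nat_lit 10) (.e (nat_lit 81947) (nat_lit 20) .nil)))))) (.g (nat_lit 4) .nil .nil))) 
(.lf (nat_lit 91837) (.g (nat_lit 1296) (.e (nat_lit 2280) (nat_lit 150) (.e (nat_lit 770074) (nat_lit 10) (.e (nat_lit 81939) (nat_lit 20) (.e (nat_lit 2281) (nat_lit 150) (.e (nat_lit 770074) (nat_lit 10) (.e (nat_lit 81942) (nat_lit 20) .nil)))))) (.g (nat_lit 4) .nil .nil))))))) (.nd (nat_lit 2) (.nd (nat_lit 3) (.nd (nat_lit 4) (.nd (nat_lit 5) 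
(.lf (nat_lit 91779) (.g (nat_lit 1924) (.e (nat_lit 2280) (nat_lit 150) (.e (nat_lit 770072) (nat_lit 8) (.e (nat_lit 65617) (nat_lit 10) (.e (nat_lit 344091) (nat_lit 18) (.e (nat_lit 7122) (nat_lit 382) (.e (nat_lit 7936) (nat_lit 90) (.e (nat_lit 81943) (nat_lit 20) .nil))))))) (.g (nat_lit 4) .nil .nil))) 
(.lf (nat_lit 91811) (.g (nat_lit 3141) (.e (nat_lit 2280) (nat_lit 150) (.e (nat_lit 770072) (nat_lit 8) (.e (nat_lit 65619) (nat_lit 10) (.e (nat_lit 344090) (nat_lit 18) (.e (nat_lit 7125) (nat_lit 382) (.e (nat_lit 1222) (nat_lit 90) (.e (nat_lit 81943) (nat_lit 20) .nil))))))) (.g (nat_lit 6) .nil .nil)))) (.nd (nat_lit 5) 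
(.lf (nat_lit 91795) (.g (nat_lit 3482) (.e (nat_lit 2280) (nat_lit 150) (.e (nat_lit 770072) (nat_lit 8) (.e (nat_lit 65617) (nat_lit 10) (.e (nat_lit 344096) (nat_lit 18) (.e (nat_lit 7125) (nat_lit 382) (.e (nat_lit 1222) (nat_lit 90) (.e (nat_lit 81943) (nat_lit 20) .nil))))))) (.g (nat_lit 6) .nil .nil))) 
(.lf (nat_lit 91827) (.g (nat_lit 2903) (.e (nat_lit 2280) (nat_lit 150) (.e (nat_lit 770072) (nat_lit 8) (.e (nat_lit 65620) (nat_lit 10) (.e (nat_lit 344177) (nat_lit 43) (.e (nat_lit 770074) (nat_lit 10) (.e (nat_lit 81946) (nat_lit 20) .nil)))))) (.g (nat_lit 6) .nil .nil))))) (.nd (nat_lit 4) (.nd (nat_lit 5) 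
(.lf (nat_lit 91787) (.g (nat_lit 1107) (.e (nat_lit 2280) (nat_lit 150) (.e (nat_lit 770072) (nat_lit 8) (.e (nat_lit 65617) (nat_lit 10) (.e (nat_lit 344096) (nat_lit 18) .nil)))) .nil)) 
(.lf (nat_lit 91819) (.g (nat_lit 3430) (.e (nat_lit 2280) (nat_lit 150) (.e (nat_lit 770072) (nat_lit 8) (.e (nat_lit 65619) (nat_lit 10) (.e (nat_lit 344177) (nat_lit 43) (.e (nat_lit 770074) (nat_lit 10) (.e (nat_lit 81938) (nat_lit 20) .nil)))))) (.g (nat_lit 0) .nil .nil)))) (.nd (nat_lit 5) 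
(.lf (nat_lit 91803) (.g (nat_lit 3406) (.e (nat_lit 2280) (nat_lit 150) (.e (nat_lit 770072) (nat_lit 8) (.e (nat_lit 65617) (nat_lit 10) (.e (nat_lit 344177) (nat_lit 43) (.e (nat_lit 770074) (nat_lit 10) (.e (nat_lit 81938) (nat_lit 20) .nil)))))) (.g (nat_lit 0) .nil .nil))) 
(.lf (nat_lit 91835) (.g (nat_lit 1773) (.e (nat_lit 2280) (nat_lit 150) (.e (nat_lit 770074) (nat_lit 10) (.e (nat_lit 81938) (nat_lit 20) (.e (nat_lit 2281) (nat_lit 150) (.e (nat_lit 770074) (nat_lit 10) (.e (nat_lit 81942) (nat_lit 20) .nil)))))) (.g (nat_lit 4) .nil .nil)))))) (.nd (nat_lit 3) (.nd (nat_lit 4) (.nd (nat_lit 5) 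
(.lf (nat_lit 91783) (.g (nat_lit 1612) (.e (nat_lit 2280) (nat_lit 150) (.e (nat_lit 770072) (nat_lit 8) (.e (nat_lit 65617) (nat_lit 10) (.e (nat_lit 344091) (nat_lit 18) (.e (nat_lit 7265) (nat_lit 384) .nil))))) .nil)) 
(.lf (nat_lit 91815) (.g (nat_lit 1421) (.e (nat_lit 2280) (nat_lit 150) (.e (nat_lit 770072) (nat_lit 8) (.e (nat_lit 65619) (nat_lit 10) (.e (nat_lit 344097) (nat_lit 18) (.e (nat_lit 7273) (nat_lit 385) .nil))))) .nil))) (.nd (nat_lit 5) 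
(.lf (nat_lit 91799) (.g (nat_lit 1372) (.e (nat_lit 2280) (nat_lit 150) (.e (nat_lit 770072) (nat_lit 8) (.e (nat_lit 65617) (nat_lit 10) (.e (nat_lit 344173) (nat_lit 42) .nil)))) .nil)) 
(.lf (nat_lit 91831) (.g (nat_lit 516) (.e (nat_lit 2280) (nat_lit 150) (.e (nat_lit 770074) (nat_lit 10) (.e (nat_lit 81933) (nat_lit 20) .nil))) .nil)))) (.nd (nat_lit 4) (.nd (nat_lit 5) 
(.lf (nat_lit 91791) (.g (nat_lit 2015) (.e (nat_lit 2280) (nat_lit 150) (.e (nat_lit 770072) (nat_lit 8) (.e (nat_lit 65617) (nat_lit 10) (.e (nat_lit 344096) (nat_lit 18) (.e (nat_lit 7119) (nat_lit 382) (.e (nat_lit 7936) (nat_lit 90) (.e (nat_lit 81943) (nat_lit 20) .nil))))))) (.g (nat_lit 4) .nil .nil))) 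
(.lf (nat_lit 91823) (.g (nat_lit 2075) (.e (nat_lit 2280) (nat_lit 150) (.e (nat_lit 770072) (nat_lit 8) (.e (nat_lit 65619) (nat_lit 10) (.e (nat_lit 344177) (nat_lit 43) (.e (nat_lit 770074) (nat_lit 10) (.e (nat_lit 81947) (nat_lit 20) .nil)))))) (.g (nat_lit 4) .nil .nil)))) (.nd (nat_lit 5) 
(.lf (nat_lit 91807) (.g (nat_lit 1789) (.e (nat_lit 2280) (nat_lit 150) (.e (nat_lit 770072) (nat_lit 8) (.e (nat_lit 65619) (nat_lit 10) (.e (nat_lit 344090) (nat_lit 18) (.e (nat_lit 7119) (nat_lit 382) .nil))))) .nil)) 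
(.lf (nat_lit 91839) (.g (nat_lit 1342) (.e (nat_lit 2280) (nat_lit 150) (.e (nat_lit 770074) (nat_lit 10) (.e (nat_lit 81942) (nat_lit 20) (.e (nat_lit 2281) (nat_lit 150) (.e (nat_lit 770074) (nat_lit 10) (.e (nat_lit 81938) (nat_lit 20) .nil)))))) (.g (nat_lit 4) .nil .nil)))))))))

noncomputable def tv1256 : DT := (.nd (nat_lit 0) (.nd (nat_lit 1) (.nd (nat_lit 2) (.nd (nat_lit 3) (.nd (nat_lit 4) (.nd (nat_lit 5) 
(.lf (nat_lit 91840) (.g (nat_lit 1085) (.e (nat_lit 2280) (nat_lit 150) (.e (nat_lit 770074) (nat_lit 10) (.e (nat_lit 81942) (nat_lit 20) (.e (nat_lit 2281) (nat_lit 150) (.e (nat_lit 770074) (nat_lit 10) (.e (nat_lit 81942) (nat_lit 20) .nil)))))) (.g (nat_lit 4) .nil .nil))) 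
(.lf (nat_lit 91872) (.g (nat_lit 2414) (.e (nat_lit 2281) (nat_lit 150) (.e (nat_lit 770057) (nat_lit 5) (.e (nat_lit 1586) (nat_lit 111) (.e (nat_lit 360451) (nat_lit 0) (.e (nat_lit 7122) (nat_lit 382) (.e (nat_lit 7936) (nat_lit 90) (.e (nat_lit 81943) (nat_lit 20) .nil))))))) (.g (nat_lit 5) .nil .nil)))) (.nd (nat_lit 5) 
(.lf (nat_lit 91856) (.g (nat_lit 1669) (.e (nat_lit 2280) (nat_lit 150) (.e (nat_lit 770074) (nat_lit 10) (.e (nat_lit 81950) (nat_lit 21) (.e (nat_lit 57683) (nat_lit 155) (.e (nat_lit 122916) (nat_lit 14) (.e (nat_lit 352302) (nat_lit 20) .nil)))))) (.g (nat_lit 4) .nil .nil))) 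
(.lf (nat_lit 91888) (.g (nat_lit 3488) (.e (nat_lit 2281) (nat_lit 150) (.e (nat_lit 770057) (nat_lit 5) (.e (nat_lit 1589) (nat_lit 111) (.e (nat_lit 360449) (nat_lit 0) (.e (nat_lit 7125) (nat_lit 382) (.e (nat_lit 1224) (nat_lit 90) (.e (nat_lit 81946) (nat_lit 20) .nil))))))) (.g (nat_lit 7) .nil .nil))))) (.nd (nat_lit 4) (.nd (nat_lit 5) 
(.lf (nat_lit 91848) (.g (nat_lit 1718) (.e (nat_lit 2280) (nat_lit 150) (.e (nat_lit 770074) (nat_lit 10) (.e (nat_lit 81947) (nat_lit 20) (.e (nat_lit 2281) (nat_lit 150) (.e (nat_lit 770074) (nat_lit 10) (.e (nat_lit 81946) (nat_lit 20) .nil)))))) (.g (nat_lit 4) .nil .nil))) 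
(.lf (nat_lit 91880) (.g (nat_lit 2490) (.e (nat_lit 2281) (nat_lit 150) (.e (nat_lit 770057) (nat_lit 5) (.e (nat_lit 1586) (nat_lit 111) (.e (nat_lit 360489) (nat_lit 21) (.e (nat_lit 770074) (nat_lit 10) (.e (nat_lit 81946) (nat_lit 20) .nil)))))) (.g (nat_lit 0) .nil .nil)))) (.nd (nat_lit 5) 
(.lf (nat_lit 91864) (.g (nat_lit 1278) (.e (nat_lit 2281) (nat_lit 150) (.e (nat_lit 770056) (nat_lit 5) (.e (nat_lit 1598) (nat_lit 111) (.e (nat_lit 360449) (nat_lit 0) (.e (nat_lit 7119) (nat_lit 382) (.e (nat_lit 7936) (nat_lit 90) (.e (nat_lit 81939) (nat_lit 20) .nil))))))) (.g (nat_lit 4) .nil .nil))) 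
(.lf (nat_lit 91896) (.g (nat_lit 2379) (.e (nat_lit 2281) (nat_lit 150) (.e (nat_lit 770057) (nat_lit 5) (.e (nat_lit 1589) (nat_lit 111) (.e (nat_lit 360453) (nat_lit 0) (.e (nat_lit 7147) (nat_lit 382) (.e (nat_lit 1216) (nat_lit 90) (.e (nat_lit 81939) (nat_lit 20) .nil))))))) (.g (nat_lit 6) .nil .nil)))))) (.nd (nat_lit 3) (.nd (nat_lit 4) (.nd (nat_lit 5) 
(.lf (nat_lit 91844) (.g (nat_lit 1753) (.e (nat_lit 2280) (nat_lit 150) (.e (nat_lit 770074) (nat_lit 10) (.e (nat_lit 81946) (nat_lit 20) (.e (nat_lit 2281) (nat_lit 150) (.e (nat_lit 770074) (nat_lit 10) (.e (nat_lit 81942) (nat_lit 20) .nil)))))) (.g (nat_lit 4) .nil .nil))) 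
(.lf (nat_lit 91876) (.g (nat_lit 2248) (.e (nat_lit 2281) (nat_lit 150) (.e (nat_lit 770057) (nat_lit 5) (.e (nat_lit 1586) (nat_lit 111) (.e (nat_lit 360451) (nat_lit 0) (.e (nat_lit 7124) (nat_lit 382) (.e (nat_lit 7936) (nat_lit 90) (.e (nat_lit 81942) (nat_lit 20) .nil))))))) (.g (nat_lit 5) .nil .nil)))) (.nd (nat_lit 5) 
(.lf (nat_lit 91860) (.g (nat_lit 956) (.e (nat_lit 2280) (nat_lit 150) (.e (nat_lit 770074) (nat_lit 10) (.e (nat_lit 81963) (nat_lit 26) (.e (nat_lit 147463) (nat_lit 9) .nil)))) .nil)) 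
(.lf (nat_lit 91892) (.g (nat_lit 2046) (.e (nat_lit 2281) (nat_lit 150) (.e (nat_lit 770057) (nat_lit 5) (.e (nat_lit 1589) (nat_lit 111) (.e (nat_lit 360451) (nat_lit 0) (.e (nat_lit 7124) (nat_lit 382) (.e (nat_lit 7936) (nat_lit 90) (.e (nat_lit 81946) (nat_lit 20) .nil))))))) (.g (nat_lit 4) .nil .nil))))) (.nd (nat_lit 4) (.nd (nat_lit 5) 
(.lf (nat_lit 91852) (.g (nat_lit 1475) (.e (nat_lit 2280) (nat_lit 150) (.e (nat_lit 770074) (nat_lit 10) (.e (nat_lit 81948) (nat_lit 21) (.e (nat_lit 57683) (nat_lit 155) (.e (nat_lit 122916) (nat_lit 14) (.e (nat_lit 352302) (nat_lit 20) .nil)))))) (.g (nat_lit 4) .nil .nil))) 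
(.lf (nat_lit 91884) (.g (nat_lit 2214) (.e (nat_lit 2281) (nat_lit 150) (.e (nat_lit 770057) (nat_lit 5) (.e (nat_lit 1589) (nat_lit 111) (.e (nat_lit 360449) (nat_lit 0) (.e (nat_lit 7122) (nat_lit 382) (.e (nat_lit 7936) (nat_lit 90) (.e (nat_lit 81939) (nat_lit 20) .nil))))))) (.g (nat_lit 5) .nil .nil)))) (.nd (nat_lit 5) 
(.lf (nat_lit 91868) (.g (nat_lit 1509) (.e (nat_lit 2281) (nat_lit 150) (.e (nat_lit 770057) (nat_lit 5) (.e (nat_lit 1586) (nat_lit 111) (.e (nat_lit 360450) (nat_lit 0) (.e (nat_lit 7119) (nat_lit 382) (.e (nat_lit 7936) (nat_lit 90) (.e (nat_lit 81942) (nat_lit 20) .nil))))))) (.g (nat_lit 4) .nil .nil))) 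
(.lf (nat_lit 91900) (.g (nat_lit 2571) (.e (nat_lit 2281) (nat_lit 150) (.e (nat_lit 770057) (nat_lit 5) (.e (nat_lit 1589) (nat_lit 111) (.e (nat_lit 360489) (nat_lit 21) (.e (nat_lit 770074) (nat_lit 10) (.e (nat_lit 81943) (nat_lit 20) .nil)))))) (.g (nat_lit 0) .nil .nil))))))) (.nd (nat_lit 2) (.nd (nat_lit 3) (.nd (nat_lit 4) (.nd (nat_lit 5) 
(.lf (nat_lit 91842) (.g (nat_lit 963) (.e (nat_lit 2280) (nat_lit 150) (.e (nat_lit 770074) (nat_lit 10) (.e (nat_lit 81946) (nat_lit 20) (.e (nat_lit 2280) (nat_lit 150) .nil)))) .nil)) 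
(.lf (nat_lit 91874) (.g (nat_lit 2711) (.e (nat_lit 2281) (nat_lit 150) (.e (nat_lit 770057) (nat_lit 5) (.e (nat_lit 1586) (nat_lit 111) (.e (nat_lit 360451) (nat_lit 0) (.e (nat_lit 7122) (nat_lit 382) (.e (nat_lit 7936) (nat_lit 90) (.e (nat_lit 81947) (nat_lit 20) .nil))))))) (.g (nat_lit 5) .nil .nil)))) (.nd (nat_lit 5) 
(.lf (nat_lit 91858) (.g (nat_lit 1315) (.e (nat_lit 2280) (nat_lit 150) (.e (nat_lit 770074) (nat_lit 10) (.e (nat_lit 81959) (nat_lit 24) (.e (nat_lit 123048) (nat_lit 152) .nil)))) .nil)) 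
(.lf (nat_lit 91890) (.g (nat_lit 2106) (.e (nat_lit 2281) (nat_lit 150) (.e (nat_lit 770057) (nat_lit 5) (.e (nat_lit 1589) (nat_lit 111) (.e (nat_lit 360451) (nat_lit 0) (.e (nat_lit 7124) (nat_lit 382) (.e (nat_lit 7936) (nat_lit 90) (.e (nat_lit 81942) (nat_lit 20) .nil))))))) (.g (nat_lit 4) .nil .nil))))) (.nd (nat_lit 4) (.nd (nat_lit 5) 
(.lf (nat_lit 91850) (.g (nat_lit 1114) (.e (nat_lit 2280) (nat_lit 150) (.e (nat_lit 770074) (nat_lit 10) (.e (nat_lit 81948) (nat_lit 21) (.e (nat_lit 57654) (nat_lit 152) .nil)))) .nil)) 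
(.lf (nat_lit 91882) (.g (nat_lit 1555) (.e (nat_lit 2281) (nat_lit 150) (.e (nat_lit 770057) (nat_lit 5) (.e (nat_lit 1589) (nat_lit 111) (.e (nat_lit 360449) (nat_lit 0) (.e (nat_lit 7119) (nat_lit 382) (.e (nat_lit 7936) (nat_lit 90) (.e (nat_lit 81939) (nat_lit 20) .nil))))))) (.g (nat_lit 4) .nil .nil)))) (.nd (nat_lit 5) 
(.lf (nat_lit 91866) (.g (nat_lit 1175) (.e (nat_lit 2281) (nat_lit 150) (.e (nat_lit 770056) (nat_lit 5) (.e (nat_lit 1598) (nat_lit 111) (.e (nat_lit 360449) (nat_lit 0) (.e (nat_lit 7124) (nat_lit 382) (.e (nat_lit 7936) (nat_lit 90) (.e (nat_lit 81939) (nat_lit 20) .nil))))))) (.g (nat_lit 4) .nil .nil))) 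
(.lf (nat_lit 91898) (.g (nat_lit 2708) (.e (nat_lit 2281) (nat_lit 150) (.e (nat_lit 770057) (nat_lit 5) (.e (nat_lit 1589) (nat_lit 111) (.e (nat_lit 360489) (nat_lit 21) (.e (nat_lit 770074) (nat_lit 10) (.e (nat_lit 81938) (nat_lit 20) .nil)))))) (.g (nat_lit 0) .nil .nil)))))) (.nd (nat_lit 3) (.nd (nat_lit 4) (.nd (nat_lit 5) 
(.lf (nat_lit 91846) (.g (nat_lit 2043) (.e (nat_lit 2280) (nat_lit 150) (.e (nat_lit 770074) (nat_lit 10) (.e (nat_lit 81947) (nat_lit 20) (.e (nat_lit 2281) (nat_lit 150) (.e (nat_lit 770074) (nat_lit 10) (.e (nat_lit 81938) (nat_lit 20) .nil)))))) (.g (nat_lit 5) .nil .nil))) 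
(.lf (nat_lit 91878) (.g (nat_lit 2177) (.e (nat_lit 2281) (nat_lit 150) (.e (nat_lit 770057) (nat_lit 5) (.e (nat_lit 1586) (nat_lit 111) (.e (nat_lit 360451) (nat_lit 0) (.e (nat_lit 7124) (nat_lit 382) (.e (nat_lit 7936) (nat_lit 90) (.e (nat_lit 81946) (nat_lit 20) .nil))))))) (.g (nat_lit 5) .nil .nil)))) (.nd (nat_lit 5) 
(.lf (nat_lit 91862) (.g (nat_lit 2194) (.e (nat_lit 2280) (nat_lit 150) (.e (nat_lit 770074) (nat_lit 10) (.e (nat_lit 81965) (nat_lit 26) (.e (nat_lit 147463) (nat_lit 9) (.e (nat_lit 314) (nat_lit 23) (.e (nat_lit 352297) (nat_lit 20) .nil)))))) (.g (nat_lit 4) .nil .nil))) 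
(.lf (nat_lit 91894) (.g (nat_lit 981) (.e (nat_lit 2281) (nat_lit 150) (.e (nat_lit 770057) (nat_lit 5) (.e (nat_lit 1589) (nat_lit 111) (.e (nat_lit 360452) (nat_lit 0) .nil)))) .nil)))) (.nd (nat_lit 4) (.nd (nat_lit 5) 
(.lf (nat_lit 91854) (.g (nat_lit 1737) (.e (nat_lit 2280) (nat_lit 150) (.e (nat_lit 770074) (nat_lit 10) (.e (nat_lit 81950) (nat_lit 21) (.e (nat_lit 57654) (nat_lit 152) (.e (nat_lit 1216) (nat_lit 90) .nil))))) .nil)) 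
(.lf (nat_lit 91886) (.g (nat_lit 2552) (.e (nat_lit 2281) (nat_lit 150) (.e (nat_lit 770057) (nat_lit 5) (.e (nat_lit 1589) (nat_lit 111) (.e (nat_lit 360449) (nat_lit 0) (.e (nat_lit 7122) (nat_lit 382) (.e (nat_lit 7936) (nat_lit 90) (.e (nat_lit 81946) (nat_lit 20) .nil))))))) (.g (nat_lit 5) .nil .nil)))) (.nd (nat_lit 5) 
(.lf (nat_lit 91870) (.g (nat_lit 1648) (.e (nat_lit 2281) (nat_lit 150) (.e (nat_lit 770057) (nat_lit 5) (.e (nat_lit 1586) (nat_lit 111) (.e (nat_lit 360451) (nat_lit 0) (.e (nat_lit 7119) (nat_lit 382) (.e (nat_lit 7936) (nat_lit 90) (.e (nat_lit 81939) (nat_lit 20) .nil))))))) (.g (nat_lit 4) .nil .nil))) 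
(.lf (nat_lit 91902) (.g (nat_lit 3027) (.e (nat_lit 2281) (nat_lit 150) (.e (nat_lit 770057) (nat_lit 5) (.e (nat_lit 1595) (nat_lit 111) (.e (nat_lit 360449) (nat_lit 0) (.e (nat_lit 7122) (nat_lit 382) (.e (nat_lit 1222) (nat_lit 90) (.e (nat_lit 81943) (nat_lit 20) .nil))))))) (.g (nat_lit 6) .nil .nil)))))))) 
(.nd (nat_lit 1) (.nd (nat_lit 2) (.nd (nat_lit 3) (.nd (nat_lit 4) (.nd (nat_lit 5) 
(.lf (nat_lit 91841) (.g (nat_lit 1399) (.e (nat_lit 2280) (nat_lit 150) (.e (nat_lit 770074) (nat_lit 10) (.e (nat_lit 81943) (nat_lit 20) (.e (nat_lit 2281) (nat_lit 150) (.e (nat_lit 770074) (nat_lit 10) (.e (nat_lit 81942) (nat_lit 20) .nil)))))) (.g (nat_lit 4) .nil .nil))) 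
(.lf (nat_lit 91873) (.g (nat_lit 2594) (.e (nat_lit 2281) (nat_lit 150) (.e (nat_lit 770057) (nat_lit 5) (.e (nat_lit 1586) (nat_lit 111) (.e (nat_lit 360451) (nat_lit 0) (.e (nat_lit 7122) (nat_lit 382) (.e (nat_lit 7936) (nat_lit 90) (.e (nat_lit 81946) (nat_lit 20) .nil))))))) (.g (nat_lit 5) .nil .nil)))) (.nd (nat_lit 5) 
(.lf (nat_lit 91857) (.g (nat_lit 1189) (.e (nat_lit 2280) (nat_lit 150) (.e (nat_lit 770074) (nat_lit 10) (.e (nat_lit 81950) (nat_lit 21) (.e (nat_lit 57684) (nat_lit 155) .nil)))) .nil)) 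
(.lf (nat_lit 91889) (.g (nat_lit 2587) (.e (nat_lit 2281) (nat_lit 150) (.e (nat_lit 770057) (nat_lit 5) (.e (nat_lit 1589) (nat_lit 111) (.e (nat_lit 360451) (nat_lit 0) (.e (nat_lit 7124) (nat_lit 382) (.e (nat_lit 1222) (nat_lit 90) (.e (nat_lit 81943) (nat_lit 20) .nil))))))) (.g (nat_lit 5) .nil .nil))))) (.nd (nat_lit 4) (.nd (nat_lit 5) 
(.lf (nat_lit 91849) (.g (nat_lit 502) (.e (nat_lit 2280) (nat_lit 150) (.e (nat_lit 770074) (nat_lit 10) (.e (nat_lit 81948) (nat_lit 21) .nil))) .nil)) 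
(.lf (nat_lit 91881) (.g (nat_lit 753) (.e (nat_lit 2281) (nat_lit 150) (.e (nat_lit 770057) (nat_lit 5) (.e (nat_lit 1589) (nat_lit 111) (.e (nat_lit 360449) (nat_lit 0) .nil)))) .nil))) (.nd (nat_lit 5) 
(.lf (nat_lit 91865) (.g (nat_lit 1871) (.e (nat_lit 2281) (nat_lit 150) (.e (nat_lit 770056) (nat_lit 5) (.e (nat_lit 1598) (nat_lit 111) (.e (nat_lit 360449) (nat_lit 0) (.e (nat_lit 7122) (nat_lit 382) (.e (nat_lit 7936) (nat_lit 90) (.e (nat_lit 81939) (nat_lit 20) .nil))))))) (.g (nat_lit 5) .nil .nil))) 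
(.lf (nat_lit 91897) (.g (nat_lit 668) (.e (nat_lit 2281) (nat_lit 150) (.e (nat_lit 770057) (nat_lit 5) (.e (nat_lit 1589) (nat_lit 111) (.e (nat_lit 368384) (nat_lit 0) .nil)))) .nil))))) (.nd (nat_lit 3) (.nd (nat_lit 4) (.nd (nat_lit 5) 
(.lf (nat_lit 91845) (.g (nat_lit 1698) (.e (nat_lit 2280) (nat_lit 150) (.e (nat_lit 770074) (nat_lit 10) (.e (nat_lit 81946) (nat_lit 20) (.e (nat_lit 2281) (nat_lit 150) (.e (nat_lit 770074) (nat_lit 10) (.e (nat_lit 81946) (nat_lit 20) .nil)))))) (.g (nat_lit 4) .nil .nil))) 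
(.lf (nat_lit 91877) (.g (nat_lit 2014) (.e (nat_lit 2281) (nat_lit 150) (.e (nat_lit 770057) (nat_lit 5) (.e (nat_lit 1586) (nat_lit 111) (.e (nat_lit 360451) (nat_lit 0) (.e (nat_lit 7124) (nat_lit 382) (.e (nat_lit 7936) (nat_lit 90) (.e (nat_lit 81943) (nat_lit 20) .nil))))))) (.g (nat_lit 5) .nil .nil)))) (.nd (nat_lit 5) 
(.lf (nat_lit 91861) (.g (nat_lit 437) (.e (nat_lit 2280) (nat_lit 150) (.e (nat_lit 770074) (nat_lit 10) (.e (nat_lit 81965) (nat_lit 26) .nil))) .nil)) 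
(.lf (nat_lit 91893) (.g (nat_lit 1462) (.e (nat_lit 2281) (nat_lit 150) (.e (nat_lit 770057) (nat_lit 5) (.e (nat_lit 1589) (nat_lit 111) (.e (nat_lit 360451) (nat_lit 0) (.e (nat_lit 7125) (nat_lit 382) .nil))))) .nil)))) (.nd (nat_lit 4) (.nd (nat_lit 5) 
(.lf (nat_lit 91853) (.g (nat_lit 1466) (.e (nat_lit 2280) (nat_lit 150) (.e (nat_lit 770074) (nat_lit 10) (.e (nat_lit 81949) (nat_lit 21) (.e (nat_lit 57655) (nat_lit 152) (.e (nat_lit 1217) (nat_lit 90) .nil))))) .nil)) 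
(.lf (nat_lit 91885) (.g (nat_lit 2366) (.e (nat_lit 2281) (nat_lit 150) (.e (nat_lit 770057) (nat_lit 5) (.e (nat_lit 1589) (nat_lit 111) (.e (nat_lit 360449) (nat_lit 0) (.e (nat_lit 7122) (nat_lit 382) (.e (nat_lit 7936) (nat_lit 90) (.e (nat_lit 81943) (nat_lit 20) .nil))))))) (.g (nat_lit 5) .nil .nil)))) (.nd (nat_lit 5) 
(.lf (nat_lit 91869) (.g (nat_lit 3330) (.e (nat_lit 2281) (nat_lit 150) (.e (nat_lit 770057) (nat_lit 5) (.e (nat_lit 1586) (nat_lit 111) (.e (nat_lit 360450) (nat_lit 0) (.e (nat_lit 7122) (nat_lit 382) (.e (nat_lit 1222) (nat_lit 90) (.e (nat_lit 81943) (nat_lit 20) .nil))))))) (.g (nat_lit 7) .nil .nil))) 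
(.lf (nat_lit 91901) (.g (nat_lit 2792) (.e (nat_lit 2281) (nat_lit 150) (.e (nat_lit 770057) (nat_lit 5) (.e (nat_lit 1589) (nat_lit 111) (.e (nat_lit 360489) (nat_lit 21) (.e (nat_lit 770074) (nat_lit 10) (.e (nat_lit 81947) (nat_lit 20) .nil)))))) (.g (nat_lit 0) .nil .nil))))))) (.nd (nat_lit 2) (.nd (nat_lit 3) (.nd (nat_lit 4) (.nd (nat_lit 5) 
(.lf (nat_lit 91843) (.g (nat_lit 2018) (.e (nat_lit 2280) (nat_lit 150) (.e (nat_lit 770074) (nat_lit 10) (.e (nat_lit 81946) (nat_lit 20) (.e (nat_lit 2281) (nat_lit 150) (.e (nat_lit 770074) (nat_lit 10) (.e (nat_lit 81938) (nat_lit 20) .nil)))))) (.g (nat_lit 5) .nil .nil))) 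
(.lf (nat_lit 91875) (.g (nat_lit 1919) (.e (nat_lit 2281) (nat_lit 150) (.e (nat_lit 770057) (nat_lit 5) (.e (nat_lit 1586) (nat_lit 111) (.e (nat_lit 360451) (nat_lit 0) (.e (nat_lit 7124) (nat_lit 382) (.e (nat_lit 7936) (nat_lit 90) (.e (nat_lit 81939) (nat_lit 20) .nil))))))) (.g (nat_lit 5) .nil .nil)))) (.nd (nat_lit 5) 
(.lf (nat_lit 91859) (.g (nat_lit 1268) (.e (nat_lit 2280) (nat_lit 150) (.e (nat_lit 770074) (nat_lit 10) (.e (nat_lit 81959) (nat_lit 24) (.e (nat_lit 130816) (nat_lit 152) .nil)))) .nil)) 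
(.lf (nat_lit 91891) (.g (nat_lit 1877) (.e (nat_lit 2281) (nat_lit 150) (.e (nat_lit 770057) (nat_lit 5) (.e (nat_lit 1589) (nat_lit 111) (.e (nat_lit 360451) (nat_lit 0) (.e (nat_lit 7124) (nat_lit 382) (.e (nat_lit 7936) (nat_lit 90) (.e (nat_lit 81943) (nat_lit 20) .nil))))))) (.g (nat_lit 4) .nil .nil))))) (.nd (nat_lit 4) (.nd (nat_lit 5) 
(.lf (nat_lit 91851) (.g (nat_lit 1301) (.e (nat_lit 2280) (nat_lit 150) (.e (nat_lit 770074) (nat_lit 10) (.e (nat_lit 81948) (nat_lit 21) (.e (nat_lit 57655) (nat_lit 152) (.e (nat_lit 1217) (nat_lit 90) .nil))))) .nil)) 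
(.lf (nat_lit 91883) (.g (nat_lit 1692) (.e (nat_lit 2281) (nat_lit 150) (.e (nat_lit 770057) (nat_lit 5) (.e (nat_lit 1589) (nat_lit 111) (.e (nat_lit 360449) (nat_lit 0) (.e (nat_lit 7119) (nat_lit 382) (.e (nat_lit 7936) (nat_lit 90) (.e (nat_lit 81943) (nat_lit 20) .nil))))))) (.g (nat_lit 4) .nil .nil)))) (.nd (nat_lit 5) 
(.lf (nat_lit 91867) (.g (nat_lit 1450) (.e (nat_lit 2281) (nat_lit 150) (.e (nat_lit 770056) (nat_lit 5) (.e (nat_lit 1598) (nat_lit 111) (.e (nat_lit 360449) (nat_lit 0) (.e (nat_lit 7124) (nat_lit 382) (.e (nat_lit 7936) (nat_lit 90) (.e (nat_lit 81942) (nat_lit 20) .nil))))))) (.g (nat_lit 5) .nil .nil))) 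
(.lf (nat_lit 91899) (.g (nat_lit 2338) (.e (nat_lit 2281) (nat_lit 150) (.e (nat_lit 770057) (nat_lit 5) (.e (nat_lit 1589) (nat_lit 111) (.e (nat_lit 360489) (nat_lit 21) (.e (nat_lit 770074) (nat_lit 10) (.e (nat_lit 81939) (nat_lit 20) .nil)))))) (.g (nat_lit 0) .nil .nil)))))) (.nd (nat_lit 3) (.nd (nat_lit 4) (.nd (nat_lit 5) 
(.lf (nat_lit 91847) (.g (nat_lit 1790) (.e (nat_lit 2280) (nat_lit 150) (.e (nat_lit 770074) (nat_lit 10) (.e (nat_lit 81947) (nat_lit 20) (.e (nat_lit 2281) (nat_lit 150) (.e (nat_lit 770074) (nat_lit 10) (.e (nat_lit 81942) (nat_lit 20) .nil)))))) (.g (nat_lit 4) .nil .nil))) 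
(.lf (nat_lit 91879) (.g (nat_lit 3831) (.e (nat_lit 2281) (nat_lit 150) (.e (nat_lit 770057) (nat_lit 5) (.e (nat_lit 1586) (nat_lit 111) (.e (nat_lit 360451) (nat_lit 0) (.e (nat_lit 7125) (nat_lit 382) (.e (nat_lit 1224) (nat_lit 90) (.e (nat_lit 81946) (nat_lit 20) .nil))))))) (.g (nat_lit 0) .nil .nil)))) (.nd (nat_lit 5) 
(.lf (nat_lit 91863) (.g (nat_lit 1357) (.e (nat_lit 2281) (nat_lit 150) (.e (nat_lit 770054) (nat_lit 5) (.e (nat_lit 1615) (nat_lit 113) (.e (nat_lit 376859) (nat_lit 21) (.e (nat_lit 57655) (nat_lit 152) (.e (nat_lit 1216) (nat_lit 90) (.e (nat_lit 81943) (nat_lit 20) .nil))))))) (.g (nat_lit 4) .nil .nil))) 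
(.lf (nat_lit 91895) (.g (nat_lit 2766) (.e (nat_lit 2281) (nat_lit 150) (.e (nat_lit 770057) (nat_lit 5) (.e (nat_lit 1589) (nat_lit 111) (.e (nat_lit 360453) (nat_lit 0) (.e (nat_lit 7147) (nat_lit 382) (.e (nat_lit 1216) (nat_lit 90) (.e (nat_lit 81938) (nat_lit 20) .nil))))))) (.g (nat_lit 7) .nil .nil))))) (.nd (nat_lit 4) (.nd (nat_lit 5) 
(.lf (nat_lit 91855) (.g (nat_lit 1166) (.e (nat_lit 2280) (nat_lit 150) (.e (nat_lit 770074) (nat_lit 10) (.e (nat_lit 81950) (nat_lit 21) (.e (nat_lit 57655) (nat_lit 152) .nil)))) .nil)) 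
(.lf (nat_lit 91887) (.g (nat_lit 1489) (.e (nat_lit 2281) (nat_lit 150) (.e (nat_lit 770057) (nat_lit 5) (.e (nat_lit 1589) (nat_lit 111) (.e (nat_lit 360449) (nat_lit 0) (.e (nat_lit 7124) (nat_lit 382) (.e (nat_lit 7936) (nat_lit 90) (.e (nat_lit 81939) (nat_lit 20) .nil))))))) (.g (nat_lit 4) .nil .nil)))) (.nd (nat_lit 5) 
(.lf (nat_lit 91871) (.g (nat_lit 2742) (.e (nat_lit 2281) (nat_lit 150) (.e (nat_lit 770057) (nat_lit 5) (.e (nat_lit 1586) (nat_lit 111) (.e (nat_lit 360451) (nat_lit 0) (.e (nat_lit 7122) (nat_lit 382) (.e (nat_lit 7936) (nat_lit 90) (.e (nat_lit 81938) (nat_lit 20) .nil))))))) (.g (nat_lit 5) .nil .nil))) 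
(.lf (nat_lit 91903) (.g (nat_lit 2285) (.e (nat_lit 2281) (nat_lit 150) (.e (nat_lit 770057) (nat_lit 5) (.e (nat_lit 1595) (nat_lit 111) (.e (nat_lit 360449) (nat_lit 0) (.e (nat_lit 7122) (nat_lit 382) (.e (nat_lit 7936) (nat_lit 90) (.e (nat_lit 81938) (nat_lit 20) .nil))))))) (.g (nat_lit 5) .nil .nil)))))))))

noncomputable def tv1257 : DT := (.nd (nat_lit 0) (.nd (nat_lit 1) (.nd (nat_lit 2) (.nd (nat_lit 3) (.nd (nat_lit 4) 
(.lf (nat_lit 91904) (.g (nat_lit 1959) (.e (nat_lit 2281) (nat_lit 150) (.e (nat_lit 770057) (nat_lit 5) (.e (nat_lit 1595) (nat_lit 111) (.e (nat_lit 360449) (nat_lit 0) (.e (nat_lit 7122) (nat_lit 382) (.e (nat_lit 7936) (nat_lit 90) (.e (nat_lit 81943) (nat_lit 20) .nil))))))) (.g (nat_lit 5) .nil .nil))) 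
(.lf (nat_lit 91920) (.g (nat_lit 1363) (.e (nat_lit 2281) (nat_lit 150) (.e (nat_lit 770058) (nat_lit 5) (.e (nat_lit 1586) (nat_lit 111) (.e (nat_lit 360451) (nat_lit 0) (.e (nat_lit 7119) (nat_lit 382) .nil))))) .nil))) (.nd (nat_lit 4) 
(.lf (nat_lit 91912) (.g (nat_lit 2216) (.e (nat_lit 2281) (nat_lit 150) (.e (nat_lit 770057) (nat_lit 5) (.e (nat_lit 1598) (nat_lit 111) (.e (nat_lit 360489) (nat_lit 21) (.e (nat_lit 770074) (nat_lit 10) (.e (nat_lit 81947) (nat_lit 20) .nil)))))) (.g (nat_lit 0) .nil .nil))) 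
(.lf (nat_lit 91928) (.g (nat_lit 2412) (.e (nat_lit 2281) (nat_lit 150) (.e (nat_lit 770058) (nat_lit 5) (.e (nat_lit 1586) (nat_lit 111) (.e (nat_lit 360451) (nat_lit 0) (.e (nat_lit 7124) (nat_lit 382) (.e (nat_lit 7936) (nat_lit 90) (.e (nat_lit 81942) (nat_lit 20) .nil))))))) (.g (nat_lit 5) .nil .nil))))) (.nd (nat_lit 3) (.nd (nat_lit 4) 
(.lf (nat_lit 91908) (.g (nat_lit 2510) (.e (nat_lit 2281) (nat_lit 150) (.e (nat_lit 770057) (nat_lit 5) (.e (nat_lit 1598) (nat_lit 111) (.e (nat_lit 360452) (nat_lit 0) (.e (nat_lit 7147) (nat_lit 382) (.e (nat_lit 1216) (nat_lit 90) (.e (nat_lit 81943) (nat_lit 20) .nil))))))) (.g (nat_lit 0) .nil .nil))) 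
(.lf (nat_lit 91924) (.g (nat_lit 2632) (.e (nat_lit 2281) (nat_lit 150) (.e (nat_lit 770058) (nat_lit 5) (.e (nat_lit 1586) (nat_lit 111) (.e (nat_lit 360451) (nat_lit 0) (.e (nat_lit 7122) (nat_lit 382) (.e (nat_lit 7936) (nat_lit 90) (.e (nat_lit 81943) (nat_lit 20) .nil))))))) (.g (nat_lit 5) .nil .nil)))) (.nd (nat_lit 4) 
(.lf (nat_lit 91916) (.g (nat_lit 2211) (.e (nat_lit 2281) (nat_lit 150) (.e (nat_lit 770058) (nat_lit 5) (.e (nat_lit 1449) (nat_lit 108) (.e (nat_lit 336013) (nat_lit 2) (.e (nat_lit 90170) (nat_lit 13) (.e (nat_lit 172106) (nat_lit 10) (.e (nat_lit 434244) (nat_lit 28) (.e (nat_lit 573451) (nat_lit 9) (.e (nat_lit 1030) (nat_lit 81) .nil))))))))) (.g (nat_lit 5) .nil .nil))) 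
(.lf (nat_lit 91932) (.g (nat_lit 639) (.e (nat_lit 2281) (nat_lit 150) (.e (nat_lit 770058) (nat_lit 5) (.e (nat_lit 1586) (nat_lit 111) (.e (nat_lit 368384) (nat_lit 20) .nil)))) .nil))))) (.nd (nat_lit 2) (.nd (nat_lit 3) (.nd (nat_lit 4) 
(.lf (nat_lit 91906) (.g (nat_lit 2378) (.e (nat_lit 2281) (nat_lit 150) (.e (nat_lit 770057) (nat_lit 5) (.e (nat_lit 1595) (nat_lit 111) (.e (nat_lit 360453) (nat_lit 0) (.e (nat_lit 7147) (nat_lit 382) (.e (nat_lit 1216) (nat_lit 90) (.e (nat_lit 81943) (nat_lit 20) .nil))))))) (.g (nat_lit 0) .nil .nil))) 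
(.lf (nat_lit 91922) (.g (nat_lit 1503) (.e (nat_lit 2281) (nat_lit 150) (.e (nat_lit 770058) (nat_lit 5) (.e (nat_lit 1586) (nat_lit 111) (.e (nat_lit 360451) (nat_lit 0) (.e (nat_lit 7122) (nat_lit 382) .nil))))) .nil))) (.nd (nat_lit 4) 
(.lf (nat_lit 91914) (.g (nat_lit 1621) (.e (nat_lit 2281) (nat_lit 150) (.e (nat_lit 770057) (nat_lit 5) (.e (nat_lit 1599) (nat_lit 111) (.e (nat_lit 360489) (nat_lit 21) (.e (nat_lit 770074) (nat_lit 10) (.e (nat_lit 81939) (nat_lit 20) .nil)))))) (.g (nat_lit 0) .nil .nil))) 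
(.lf (nat_lit 91930) (.g (nat_lit 2332) (.e (nat_lit 2281) (nat_lit 150) (.e (nat_lit 770058) (nat_lit 5) (.e (nat_lit 1586) (nat_lit 111) (.e (nat_lit 360451) (nat_lit 0) (.e (nat_lit 7124) (nat_lit 382) (.e (nat_lit 7936) (nat_lit 90) (.e (nat_lit 81946) (nat_lit 20) .nil))))))) (.g (nat_lit 5) .nil .nil))))) (.nd (nat_lit 3) (.nd (nat_lit 4) 
(.lf (nat_lit 91910) (.g (nat_lit 2118) (.e (nat_lit 2281) (nat_lit 150) (.e (nat_lit 770057) (nat_lit 5) (.e (nat_lit 1598) (nat_lit 111) (.e (nat_lit 360489) (nat_lit 21) (.e (nat_lit 770074) (nat_lit 10) (.e (nat_lit 81938) (nat_lit 20) .nil)))))) (.g (nat_lit 0) .nil .nil))) 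
(.lf (nat_lit 91926) (.g (nat_lit 2937) (.e (nat_lit 2281) (nat_lit 150) (.e (nat_lit 770058) (nat_lit 5) (.e (nat_lit 1586) (nat_lit 111) (.e (nat_lit 360451) (nat_lit 0) (.e (nat_lit 7122) (nat_lit 382) (.e (nat_lit 7936) (nat_lit 90) (.e (nat_lit 81947) (nat_lit 20) .nil))))))) (.g (nat_lit 5) .nil .nil)))) (.nd (nat_lit 4) 
(.lf (nat_lit 91918) (.g (nat_lit 1541) (.e (nat_lit 2281) (nat_lit 150) (.e (nat_lit 770058) (nat_lit 5) (.e (nat_lit 1586) (nat_lit 111) (.e (nat_lit 360450) (nat_lit 0) (.e (nat_lit 7119) (nat_lit 382) (.e (nat_lit 7936) (nat_lit 90) (.e (nat_lit 81942) (nat_lit 20) .nil))))))) (.g (nat_lit 4) .nil .nil))) 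
(.lf (nat_lit 91934) (.g (nat_lit 2138) (.e (nat_lit 2281) (nat_lit 150) (.e (nat_lit 770058) (nat_lit 5) (.e (nat_lit 1586) (nat_lit 111) (.e (nat_lit 360489) (nat_lit 21) (.e (nat_lit 770074) (nat_lit 10) (.e (nat_lit 81942) (nat_lit 20) .nil)))))) (.g (nat_lit 0) .nil .nil))))))) (.nd (nat_lit 1) (.nd (nat_lit 2) (.nd (nat_lit 3) (.nd (nat_lit 4) 
(.lf (nat_lit 91905) (.g (nat_lit 2260) (.e (nat_lit 2281) (nat_lit 150) (.e (nat_lit 770057) (nat_lit 5) (.e (nat_lit 1595) (nat_lit 111) (.e (nat_lit 360449) (nat_lit 0) (.e (nat_lit 7122) (nat_lit 382) (.e (nat_lit 7936) (nat_lit 90) (.e (nat_lit 81947) (nat_lit 20) .nil))))))) (.g (nat_lit 5) .nil .nil))) 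
(.lf (nat_lit 91921) (.g (nat_lit 1810) (.e (nat_lit 2281) (nat_lit 150) (.e (nat_lit 770058) (nat_lit 5) (.e (nat_lit 1586) (nat_lit 111) (.e (nat_lit 360451) (nat_lit 0) (.e (nat_lit 7119) (nat_lit 382) (.e (nat_lit 7936) (nat_lit 90) (.e (nat_lit 81939) (nat_lit 20) .nil))))))) (.g (nat_lit 4) .nil .nil)))) (.nd (nat_lit 4) 
(.lf (nat_lit 91913) (.g (nat_lit 2009) (.e (nat_lit 2281) (nat_lit 150) (.e (nat_lit 770057) (nat_lit 5) (.e (nat_lit 1599) (nat_lit 111) (.e (nat_lit 360489) (nat_lit 21) (.e (nat_lit 770074) (nat_lit 10) (.e (nat_lit 81938) (nat_lit 20) .nil)))))) (.g (nat_lit 0) .nil .nil))) 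
(.lf (nat_lit 91929) (.g (nat_lit 2252) (.e (nat_lit 2281) (nat_lit 150) (.e (nat_lit 770058) (nat_lit 5) (.e (nat_lit 1586) (nat_lit 111) (.e (nat_lit 360451) (nat_lit 0) (.e (nat_lit 7124) (nat_lit 382) (.e (nat_lit 7936) (nat_lit 90) (.e (nat_lit 81943) (nat_lit 20) .nil))))))) (.g (nat_lit 5) .nil .nil))))) (.nd (nat_lit 3) (.nd (nat_lit 4) 
(.lf (nat_lit 91909) (.g (nat_lit 3109) (.e (nat_lit 2281) (nat_lit 150) (.e (nat_lit 770057) (nat_lit 5) (.e (nat_lit 1598) (nat_lit 111) (.e (nat_lit 360452) (nat_lit 0) (.e (nat_lit 7270) (nat_lit 385) (.e (nat_lit 122916) (nat_lit 14) (.e (nat_lit 352303) (nat_lit 20) .nil))))))) (.g (nat_lit 6) .nil .nil))) 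
(.lf (nat_lit 91925) (.g (nat_lit 2729) (.e (nat_lit 2281) (nat_lit 150) (.e (nat_lit 770058) (nat_lit 5) (.e (nat_lit 1586) (nat_lit 111) (.e (nat_lit 360451) (nat_lit 0) (.e (nat_lit 7122) (nat_lit 382) (.e (nat_lit 7936) (nat_lit 90) (.e (nat_lit 81946) (nat_lit 20) .nil))))))) (.g (nat_lit 5) .nil .nil)))) (.nd (nat_lit 4) 
(.lf (nat_lit 91917) (.g (nat_lit 3363) (.e (nat_lit 2281) (nat_lit 150) (.e (nat_lit 770058) (nat_lit 5) (.e (nat_lit 1452) (nat_lit 108) (.e (nat_lit 336013) (nat_lit 2) (.e (nat_lit 90170) (nat_lit 13) (.e (nat_lit 172106) (nat_lit 10) (.e (nat_lit 434244) (nat_lit 28) (.e (nat_lit 573451) (nat_lit 9) (.e (nat_lit 1035) (nat_lit 81) .nil))))))))) (.g (nat_lit 5) .nil .nil))) 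
(.lf (nat_lit 91933) (.g (nat_lit 2135) (.e (nat_lit 2281) (nat_lit 150) (.e (nat_lit 770058) (nat_lit 5) (.e (nat_lit 1586) (nat_lit 111) (.e (nat_lit 360489) (nat_lit 21) (.e (nat_lit 770074) (nat_lit 10) (.e (nat_lit 81939) (nat_lit 20) .nil)))))) (.g (nat_lit 0) .nil .nil)))))) (.nd (nat_lit 2) (.nd (nat_lit 3) (.nd (nat_lit 4) 
(.lf (nat_lit 91907) (.g (nat_lit 621) (.e (nat_lit 2281) (nat_lit 150) (.e (nat_lit 770057) (nat_lit 5) (.e (nat_lit 1595) (nat_lit 111) (.e (nat_lit 368384) (nat_lit 0) .nil)))) .nil)) 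
(.lf (nat_lit 91923) (.g (nat_lit 3048) (.e (nat_lit 2281) (nat_lit 150) (.e (nat_lit 770058) (nat_lit 5) (.e (nat_lit 1586) (nat_lit 111) (.e (nat_lit 360451) (nat_lit 0) (.e (nat_lit 7122) (nat_lit 382) (.e (nat_lit 7936) (nat_lit 90) (.e (nat_lit 81938) (nat_lit 20) .nil))))))) (.g (nat_lit 5) .nil .nil)))) (.nd (nat_lit 4) 
(.lf (nat_lit 91915) (.g (nat_lit 2083) (.e (nat_lit 2281) (nat_lit 150) (.e (nat_lit 770057) (nat_lit 5) (.e (nat_lit 1599) (nat_lit 111) (.e (nat_lit 360489) (nat_lit 21) (.e (nat_lit 770074) (nat_lit 10) (.e (nat_lit 81947) (nat_lit 20) .nil)))))) (.g (nat_lit 0) .nil .nil))) 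
(.lf (nat_lit 91931) (.g (nat_lit 4261) (.e (nat_lit 2281) (nat_lit 150) (.e (nat_lit 770058) (nat_lit 5) (.e (nat_lit 1586) (nat_lit 111) (.e (nat_lit 360451) (nat_lit 0) (.e (nat_lit 7125) (nat_lit 382) (.e (nat_lit 1222) (nat_lit 90) (.e (nat_lit 81943) (nat_lit 20) .nil))))))) (.g (nat_lit 0) .nil .nil))))) (.nd (nat_lit 3) (.nd (nat_lit 4) 
(.lf (nat_lit 91911) (.g (nat_lit 1746) (.e (nat_lit 2281) (nat_lit 150) (.e (nat_lit 770057) (nat_lit 5) (.e (nat_lit 1598) (nat_lit 111) (.e (nat_lit 360489) (nat_lit 21) (.e (nat_lit 770074) (nat_lit 10) (.e (nat_lit 81939) (nat_lit 20) .nil)))))) (.g (nat_lit 0) .nil .nil))) 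
(.lf (nat_lit 91927) (.g (nat_lit 2105) (.e (nat_lit 2281) (nat_lit 150) (.e (nat_lit 770058) (nat_lit 5) (.e (nat_lit 1586) (nat_lit 111) (.e (nat_lit 360451) (nat_lit 0) (.e (nat_lit 7124) (nat_lit 382) (.e (nat_lit 7936) (nat_lit 90) (.e (nat_lit 81939) (nat_lit 20) .nil))))))) (.g (nat_lit 5) .nil .nil)))) (.nd (nat_lit 4) 
(.lf (nat_lit 91919) (.g (nat_lit 3396) (.e (nat_lit 2281) (nat_lit 150) (.e (nat_lit 770058) (nat_lit 5) (.e (nat_lit 1586) (nat_lit 111) (.e (nat_lit 360450) (nat_lit 0) (.e (nat_lit 7122) (nat_lit 382) (.e (nat_lit 1222) (nat_lit 90) (.e (nat_lit 81943) (nat_lit 20) .nil))))))) (.g (nat_lit 7) .nil .nil))) 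
(.lf (nat_lit 91935) (.g (nat_lit 2451) (.e (nat_lit 2281) (nat_lit 150) (.e (nat_lit 770058) (nat_lit 5) (.e (nat_lit 1586) (nat_lit 111) (.e (nat_lit 360489) (nat_lit 21) (.e (nat_lit 770074) (nat_lit 10) (.e (nat_lit 81943) (nat_lit 20) .nil)))))) (.g (nat_lit 0) .nil .nil))))))))

noncomputable def tv1258 : DT := (.nd (nat_lit 0) (.nd (nat_lit 1) (.nd (nat_lit 2) (.nd (nat_lit 3) (.nd (nat_lit 4) 
(.lf (nat_lit 91936) (.g (nat_lit 897) (.e (nat_lit 2281) (nat_lit 150) (.e (nat_lit 770058) (nat_lit 5) (.e (nat_lit 1589) (nat_lit 111) (.e (nat_lit 360449) (nat_lit 0) .nil)))) .nil)) 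
(.lf (nat_lit 91952) (.g (nat_lit 2023) (.e (nat_lit 2281) (nat_lit 150) (.e (nat_lit 770058) (nat_lit 5) (.e (nat_lit 1589) (nat_lit 111) (.e (nat_lit 360451) (nat_lit 0) (.e (nat_lit 7124) (nat_lit 382) (.e (nat_lit 7936) (nat_lit 90) (.e (nat_lit 81943) (nat_lit 20) .nil))))))) (.g (nat_lit 4) .nil .nil)))) (.nd (nat_lit 4) 
(.lf (nat_lit 91944) (.g (nat_lit 1965) (.e (nat_lit 2281) (nat_lit 150) (.e (nat_lit 770058) (nat_lit 5) (.e (nat_lit 1589) (nat_lit 111) (.e (nat_lit 360449) (nat_lit 0) (.e (nat_lit 7124) (nat_lit 382) (.e (nat_lit 7936) (nat_lit 90) (.e (nat_lit 81942) (nat_lit 20) .nil))))))) (.g (nat_lit 5) .nil .nil))) 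
(.lf (nat_lit 91960) (.g (nat_lit 2487) (.e (nat_lit 2281) (nat_lit 150) (.e (nat_lit 770058) (nat_lit 5) (.e (nat_lit 1589) (nat_lit 111) (.e (nat_lit 360489) (nat_lit 21) (.e (nat_lit 770074) (nat_lit 10) (.e (nat_lit 81942) (nat_lit 20) .nil)))))) (.g (nat_lit 0) .nil .nil))))) (.nd (nat_lit 3) (.nd (nat_lit 4) 
(.lf (nat_lit 91940) (.g (nat_lit 2388) (.e (nat_lit 2281) (nat_lit 150) (.e (nat_lit 770058) (nat_lit 5) (.e (nat_lit 1589) (nat_lit 111) (.e (nat_lit 360449) (nat_lit 0) (.e (nat_lit 7122) (nat_lit 382) (.e (nat_lit 7936) (nat_lit 90) (.e (nat_lit 81939) (nat_lit 20) .nil))))))) (.g (nat_lit 5) .nil .nil))) 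
(.lf (nat_lit 91956) (.g (nat_lit 2531) (.e (nat_lit 2281) (nat_lit 150) (.e (nat_lit 770058) (nat_lit 5) (.e (nat_lit 1589) (nat_lit 111) (.e (nat_lit 360453) (nat_lit 0) (.e (nat_lit 7272) (nat_lit 385) (.e (nat_lit 122916) (nat_lit 14) (.e (nat_lit 352303) (nat_lit 20) .nil))))))) (.g (nat_lit 6) .nil .nil)))) (.nd (nat_lit 4) 
(.lf (nat_lit 91948) (.g (nat_lit 945) (.e (nat_lit 2281) (nat_lit 150) (.e (nat_lit 770058) (nat_lit 5) (.e (nat_lit 1589) (nat_lit 111) (.e (nat_lit 360451) (nat_lit 0) .nil)))) .nil)) 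
(.lf (nat_lit 91964) (.g (nat_lit 3215) (.e (nat_lit 2281) (nat_lit 150) (.e (nat_lit 770058) (nat_lit 5) (.e (nat_lit 1595) (nat_lit 111) (.e (nat_lit 360449) (nat_lit 0) (.e (nat_lit 7122) (nat_lit 382) (.e (nat_lit 1222) (nat_lit 90) (.e (nat_lit 81943) (nat_lit 20) .nil))))))) (.g (nat_lit 6) .nil .nil)))))) (.nd (nat_lit 2) (.nd (nat_lit 3) (.nd (nat_lit 4) 
(.lf (nat_lit 91938) (.g (nat_lit 1887) (.e (nat_lit 2281) (nat_lit 150) (.e (nat_lit 770058) (nat_lit 5) (.e (nat_lit 1589) (nat_lit 111) (.e (nat_lit 360449) (nat_lit 0) (.e (nat_lit 7119) (nat_lit 382) (.e (nat_lit 7936) (nat_lit 90) (.e (nat_lit 81943) (nat_lit 20) .nil))))))) (.g (nat_lit 4) .nil .nil))) 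
(.lf (nat_lit 91954) (.g (nat_lit 1589) (.e (nat_lit 2281) (nat_lit 150) (.e (nat_lit 770058) (nat_lit 5) (.e (nat_lit 1589) (nat_lit 111) (.e (nat_lit 360451) (nat_lit 0) (.e (nat_lit 7125) (nat_lit 382) .nil))))) .nil))) (.nd (nat_lit 4) 
(.lf (nat_lit 91946) (.g (nat_lit 3702) (.e (nat_lit 2281) (nat_lit 150) (.e (nat_lit 770058) (nat_lit 5) (.e (nat_lit 1589) (nat_lit 111) (.e (nat_lit 360449) (nat_lit 0) (.e (nat_lit 7125) (nat_lit 382) (.e (nat_lit 1224) (nat_lit 90) (.e (nat_lit 81946) (nat_lit 20) .nil))))))) (.g (nat_lit 7) .nil .nil))) 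
(.lf (nat_lit 91962) (.g (nat_lit 1670) (.e (nat_lit 2281) (nat_lit 150) (.e (nat_lit 770058) (nat_lit 5) (.e (nat_lit 1592) (nat_lit 111) (.e (nat_lit 360489) (nat_lit 21) (.e (nat_lit 770074) (nat_lit 10) (.e (nat_lit 81939) (nat_lit 20) .nil)))))) (.g (nat_lit 0) .nil .nil))))) (.nd (nat_lit 3) (.nd (nat_lit 4) 
(.lf (nat_lit 91942) (.g (nat_lit 2734) (.e (nat_lit 2281) (nat_lit 150) (.e (nat_lit 770058) (nat_lit 5) (.e (nat_lit 1589) (nat_lit 111) (.e (nat_lit 360449) (nat_lit 0) (.e (nat_lit 7122) (nat_lit 382) (.e (nat_lit 7936) (nat_lit 90) (.e (nat_lit 81946) (nat_lit 20) .nil))))))) (.g (nat_lit 5) .nil .nil))) 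
(.lf (nat_lit 91958) (.g (nat_lit 802) (.e (nat_lit 2281) (nat_lit 150) (.e (nat_lit 770058) (nat_lit 5) (.e (nat_lit 1589) (nat_lit 111) (.e (nat_lit 368384) (nat_lit 20) .nil)))) .nil))) (.nd (nat_lit 4) 
(.lf (nat_lit 91950) (.g (nat_lit 1915) (.e (nat_lit 2281) (nat_lit 150) (.e (nat_lit 770058) (nat_lit 5) (.e (nat_lit 1589) (nat_lit 111) (.e (nat_lit 360451) (nat_lit 0) (.e (nat_lit 7124) (nat_lit 382) (.e (nat_lit 7936) (nat_lit 90) (.e (nat_lit 81939) (nat_lit 20) .nil))))))) (.g (nat_lit 4) .nil .nil))) 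
(.lf (nat_lit 91966) (.g (nat_lit 2478) (.e (nat_lit 2281) (nat_lit 150) (.e (nat_lit 770058) (nat_lit 5) (.e (nat_lit 1595) (nat_lit 111) (.e (nat_lit 360449) (nat_lit 0) (.e (nat_lit 7122) (nat_lit 382) (.e (nat_lit 7936) (nat_lit 90) (.e (nat_lit 81947) (nat_lit 20) .nil))))))) (.g (nat_lit 5) .nil .nil))))))) (.nd (nat_lit 1) (.nd (nat_lit 2) (.nd (nat_lit 3) (.nd (nat_lit 4) 
(.lf (nat_lit 91937) (.g (nat_lit 1738) (.e (nat_lit 2281) (nat_lit 150) (.e (nat_lit 770058) (nat_lit 5) (.e (nat_lit 1589) (nat_lit 111) (.e (nat_lit 360449) (nat_lit 0) (.e (nat_lit 7119) (nat_lit 382) (.e (nat_lit 7936) (nat_lit 90) (.e (nat_lit 81939) (nat_lit 20) .nil))))))) (.g (nat_lit 4) .nil .nil))) 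
(.lf (nat_lit 91953) (.g (nat_lit 2188) (.e (nat_lit 2281) (nat_lit 150) (.e (nat_lit 770058) (nat_lit 5) (.e (nat_lit 1589) (nat_lit 111) (.e (nat_lit 360451) (nat_lit 0) (.e (nat_lit 7124) (nat_lit 382) (.e (nat_lit 7936) (nat_lit 90) (.e (nat_lit 81946) (nat_lit 20) .nil))))))) (.g (nat_lit 4) .nil .nil)))) (.nd (nat_lit 4) 
(.lf (nat_lit 91945) (.g (nat_lit 1776) (.e (nat_lit 2281) (nat_lit 150) (.e (nat_lit 770058) (nat_lit 5) (.e (nat_lit 1589) (nat_lit 111) (.e (nat_lit 360449) (nat_lit 0) (.e (nat_lit 7124) (nat_lit 382) (.e (nat_lit 7936) (nat_lit 90) (.e (nat_lit 81943) (nat_lit 20) .nil))))))) (.g (nat_lit 4) .nil .nil))) 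
(.lf (nat_lit 91961) (.g (nat_lit 2738) (.e (nat_lit 2281) (nat_lit 150) (.e (nat_lit 770058) (nat_lit 5) (.e (nat_lit 1589) (nat_lit 111) (.e (nat_lit 360489) (nat_lit 21) (.e (nat_lit 770074) (nat_lit 10) (.e (nat_lit 81943) (nat_lit 20) .nil)))))) (.g (nat_lit 0) .nil .nil))))) (.nd (nat_lit 3) (.nd (nat_lit 4) 
(.lf (nat_lit 91941) (.g (nat_lit 2552) (.e (nat_lit 2281) (nat_lit 150) (.e (nat_lit 770058) (nat_lit 5) (.e (nat_lit 1589) (nat_lit 111) (.e (nat_lit 360449) (nat_lit 0) (.e (nat_lit 7122) (nat_lit 382) (.e (nat_lit 7936) (nat_lit 90) (.e (nat_lit 81943) (nat_lit 20) .nil))))))) (.g (nat_lit 5) .nil .nil))) 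
(.lf (nat_lit 91957) (.g (nat_lit 802) (.e (nat_lit 2281) (nat_lit 150) (.e (nat_lit 770058) (nat_lit 5) (.e (nat_lit 1589) (nat_lit 111) (.e (nat_lit 368384) (nat_lit 0) .nil)))) .nil))) (.nd (nat_lit 4) 
(.lf (nat_lit 91949) (.g (nat_lit 2691) (.e (nat_lit 2281) (nat_lit 150) (.e (nat_lit 770058) (nat_lit 5) (.e (nat_lit 1589) (nat_lit 111) (.e (nat_lit 360451) (nat_lit 0) (.e (nat_lit 7124) (nat_lit 382) (.e (nat_lit 1222) (nat_lit 90) (.e (nat_lit 81943) (nat_lit 20) .nil))))))) (.g (nat_lit 5) .nil .nil))) 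
(.lf (nat_lit 91965) (.g (nat_lit 2577) (.e (nat_lit 2281) (nat_lit 150) (.e (nat_lit 770058) (nat_lit 5) (.e (nat_lit 1595) (nat_lit 111) (.e (nat_lit 360449) (nat_lit 0) (.e (nat_lit 7122) (nat_lit 382) (.e (nat_lit 7936) (nat_lit 90) (.e (nat_lit 81938) (nat_lit 20) .nil))))))) (.g (nat_lit 5) .nil .nil)))))) (.nd (nat_lit 2) (.nd (nat_lit 3) (.nd (nat_lit 4) 
(.lf (nat_lit 91939) (.g (nat_lit 1399) (.e (nat_lit 2281) (nat_lit 150) (.e (nat_lit 770058) (nat_lit 5) (.e (nat_lit 1589) (nat_lit 111) (.e (nat_lit 360449) (nat_lit 0) (.e (nat_lit 7122) (nat_lit 382) .nil))))) .nil)) 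
(.lf (nat_lit 91955) (.g (nat_lit 1115) (.e (nat_lit 2281) (nat_lit 150) (.e (nat_lit 770058) (nat_lit 5) (.e (nat_lit 1589) (nat_lit 111) (.e (nat_lit 360452) (nat_lit 0) .nil)))) .nil))) (.nd (nat_lit 4) 
(.lf (nat_lit 91947) (.g (nat_lit 2696) (.e (nat_lit 2281) (nat_lit 150) (.e (nat_lit 770058) (nat_lit 5) (.e (nat_lit 1589) (nat_lit 111) (.e (nat_lit 360449) (nat_lit 0) (.e (nat_lit 7265) (nat_lit 384) (.e (nat_lit 57424) (nat_lit 14) (.e (nat_lit 352303) (nat_lit 20) .nil))))))) (.g (nat_lit 6) .nil .nil))) 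
(.lf (nat_lit 91963) (.g (nat_lit 1677) (.e (nat_lit 2281) (nat_lit 150) (.e (nat_lit 770058) (nat_lit 5) (.e (nat_lit 1592) (nat_lit 111) (.e (nat_lit 360489) (nat_lit 21) (.e (nat_lit 770074) (nat_lit 10) (.e (nat_lit 81942) (nat_lit 20) .nil)))))) (.g (nat_lit 0) .nil .nil))))) (.nd (nat_lit 3) (.nd (nat_lit 4) 
(.lf (nat_lit 91943) (.g (nat_lit 1668) (.e (nat_lit 2281) (nat_lit 150) (.e (nat_lit 770058) (nat_lit 5) (.e (nat_lit 1589) (nat_lit 111) (.e (nat_lit 360449) (nat_lit 0) (.e (nat_lit 7124) (nat_lit 382) (.e (nat_lit 7936) (nat_lit 90) (.e (nat_lit 81939) (nat_lit 20) .nil))))))) (.g (nat_lit 4) .nil .nil))) 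
(.lf (nat_lit 91959) (.g (nat_lit 2482) (.e (nat_lit 2281) (nat_lit 150) (.e (nat_lit 770058) (nat_lit 5) (.e (nat_lit 1589) (nat_lit 111) (.e (nat_lit 360489) (nat_lit 21) (.e (nat_lit 770074) (nat_lit 10) (.e (nat_lit 81939) (nat_lit 20) .nil)))))) (.g (nat_lit 0) .nil .nil)))) (.nd (nat_lit 4) 
(.lf (nat_lit 91951) (.g (nat_lit 2212) (.e (nat_lit 2281) (nat_lit 150) (.e (nat_lit 770058) (nat_lit 5) (.e (nat_lit 1589) (nat_lit 111) (.e (nat_lit 360451) (nat_lit 0) (.e (nat_lit 7124) (nat_lit 382) (.e (nat_lit 7936) (nat_lit 90) (.e (nat_lit 81942) (nat_lit 20) .nil))))))) (.g (nat_lit 4) .nil .nil))) 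
(.lf (nat_lit 91967) (.g (nat_lit 3746) (.e (nat_lit 2281) (nat_lit 150) (.e (nat_lit 770058) (nat_lit 5) (.e (nat_lit 1595) (nat_lit 111) (.e (nat_lit 360449) (nat_lit 0) (.e (nat_lit 7125) (nat_lit 382) (.e (nat_lit 1222) (nat_lit 90) (.e (nat_lit 81943) (nat_lit 20) .nil))))))) (.g (nat_lit 0) .nil .nil))))))))

noncomputable def tv1259 : DT := (.nd (nat_lit 0) (.nd (nat_lit 1) (.nd (nat_lit 2) (.nd (nat_lit 3) (.nd (nat_lit 4) (.nd (nat_lit 5) 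
(.lf (nat_lit 91968) (.g (nat_lit 2585) (.e (nat_lit 2281) (nat_lit 150) (.e (nat_lit 770058) (nat_lit 5) (.e (nat_lit 1595) (nat_lit 111) (.e (nat_lit 360453) (nat_lit 0) (.e (nat_lit 7147) (nat_lit 382) (.e (nat_lit 1216) (nat_lit 90) (.e (nat_lit 81943) (nat_lit 20) .nil))))))) (.g (nat_lit 0) .nil .nil))) 
(.lf (nat_lit 92000) (.g (nat_lit 3086) (.e (nat_lit 2281) (nat_lit 150) (.e (nat_lit 770069) (nat_lit 7) (.e (nat_lit 57479) (nat_lit 28) (.e (nat_lit 557105) (nat_lit 14) (.e (nat_lit 180252) (nat_lit 10) (.e (nat_lit 573489) (nat_lit 14) (.e (nat_lit 73741) (nat_lit 1) (.e (nat_lit 500008) (nat_lit 14) (.e (nat_lit 1019) (nat_lit 81) .nil))))))))) (.g (nat_lit 6) .nil .nil)))) (.nd (nat_lit 5) 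
(.lf (nat_lit 91984) (.g (nat_lit 4255) (.e (nat_lit 2281) (nat_lit 150) (.e (nat_lit 770069) (nat_lit 7) (.e (nat_lit 57479) (nat_lit 28) (.e (nat_lit 557103) (nat_lit 14) (.e (nat_lit 180244) (nat_lit 5) (.e (nat_lit 532513) (nat_lit 3) (.e (nat_lit 122624) (nat_lit 3) (.e (nat_lit 204821) (nat_lit 17) .nil)))))))) (.g (nat_lit 5) .nil .nil))) 
(.lf (nat_lit 92016) (.g (nat_lit 3639) (.e (nat_lit 2281) (nat_lit 150) (.e (nat_lit 770069) (nat_lit 7) (.e (nat_lit 57480) (nat_lit 28) (.e (nat_lit 557105) (nat_lit 14) (.e (nat_lit 180252) (nat_lit 10) (.e (nat_lit 573488) (nat_lit 14) (.e (nat_lit 73750) (nat_lit 6) (.e (nat_lit 540675) (nat_lit 0) .nil)))))))) (.g (nat_lit 6) .nil .nil))))) (.nd (nat_lit 4) (.nd (nat_lit 5) 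
(.lf (nat_lit 91976) (.g (nat_lit 3000) (.e (nat_lit 2281) (nat_lit 150) (.e (nat_lit 770058) (nat_lit 5) (.e (nat_lit 1598) (nat_lit 111) (.e (nat_lit 360452) (nat_lit 0) (.e (nat_lit 7272) (nat_lit 385) (.e (nat_lit 122916) (nat_lit 14) (.e (nat_lit 352303) (nat_lit 20) .nil))))))) (.g (nat_lit 6) .nil .nil))) 
(.lf (nat_lit 92008) (.g (nat_lit 2461) (.e (nat_lit 2281) (nat_lit 150) (.e (nat_lit 770069) (nat_lit 7) (.e (nat_lit 57480) (nat_lit 28) (.e (nat_lit 557104) (nat_lit 14) (.e (nat_lit 180245) (nat_lit 5) .nil))))) .nil))) (.nd (nat_lit 5) 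
(.lf (nat_lit 91992) (.g (nat_lit 3808) (.e (nat_lit 2281) (nat_lit 150) (.e (nat_lit 770069) (nat_lit 7) (.e (nat_lit 57479) (nat_lit 28) (.e (nat_lit 557105) (nat_lit 14) (.e (nat_lit 180252) (nat_lit 10) (.e (nat_lit 573487) (nat_lit 14) (.e (nat_lit 81664) (nat_lit 5) (.e (nat_lit 532491) (nat_lit 0) .nil)))))))) (.g (nat_lit 6) .nil .nil))) 
(.lf (nat_lit 92024) (.g (nat_lit 1933) (.e (nat_lit 2281) (nat_lit 150) (.e (nat_lit 770071) (nat_lit 8) (.e (nat_lit 65610) (nat_lit 10) (.e (nat_lit 344097) (nat_lit 18) (.e (nat_lit 7272) (nat_lit 385) .nil))))) .nil))))) (.nd (nat_lit 3) (.nd (nat_lit 4) (.nd (nat_lit 5) 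
(.lf (nat_lit 91972) (.g (nat_lit 2093) (.e (nat_lit 2281) (nat_lit 150) (.e (nat_lit 770058) (nat_lit 5) (.e (nat_lit 1598) (nat_lit 111) (.e (nat_lit 360449) (nat_lit 0) (.e (nat_lit 7124) (nat_lit 382) (.e (nat_lit 1222) (nat_lit 90) (.e (nat_lit 81943) (nat_lit 20) .nil))))))) (.g (nat_lit 6) .nil .nil))) 
(.lf (nat_lit 92004) (.g (nat_lit 4360) (.e (nat_lit 2281) (nat_lit 150) (.e (nat_lit 770069) (nat_lit 7) (.e (nat_lit 57480) (nat_lit 28) (.e (nat_lit 557103) (nat_lit 14) (.e (nat_lit 180244) (nat_lit 5) (.e (nat_lit 532513) (nat_lit 3) (.e (nat_lit 122624) (nat_lit 3) (.e (nat_lit 204821) (nat_lit 17) .nil)))))))) (.g (nat_lit 6) .nil .nil)))) (.nd (nat_lit 5) 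
(.lf (nat_lit 91988) (.g (nat_lit 3404) (.e (nat_lit 2281) (nat_lit 150) (.e (nat_lit 770069) (nat_lit 7) (.e (nat_lit 57479) (nat_lit 28) (.e (nat_lit 557105) (nat_lit 14) (.e (nat_lit 180245) (nat_lit 5) (.e (nat_lit 532515) (nat_lit 3) (.e (nat_lit 122624) (nat_lit 3) (.e (nat_lit 204821) (nat_lit 17) .nil)))))))) (.g (nat_lit 5) .nil .nil))) 
(.lf (nat_lit 92020) (.g (nat_lit 4648) (.e (nat_lit 2281) (nat_lit 150) (.e (nat_lit 770069) (nat_lit 7) (.e (nat_lit 57480) (nat_lit 28) (.e (nat_lit 557108) (nat_lit 15) (.e (nat_lit 188446) (nat_lit 21) (.e (nat_lit 164178) (nat_lit 154) (.e (nat_lit 57390) (nat_lit 5) (.e (nat_lit 114699) (nat_lit 20) .nil)))))))) (.g (nat_lit 7) .nil .nil))))) (.nd (nat_lit 4) (.nd (nat_lit 5) 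
(.lf (nat_lit 91980) (.g (nat_lit 1953) (.e (nat_lit 2281) (nat_lit 150) (.e (nat_lit 770058) (nat_lit 5) (.e (nat_lit 1599) (nat_lit 111) (.e (nat_lit 360489) (nat_lit 21) (.e (nat_lit 770074) (nat_lit 10) (.e (nat_lit 81943) (nat_lit 20) .nil)))))) (.g (nat_lit 0) .nil .nil))) 
(.lf (nat_lit 92012) (.g (nat_lit 3682) (.e (nat_lit 2281) (nat_lit 150) (.e (nat_lit 770069) (nat_lit 7) (.e (nat_lit 57480) (nat_lit 28) (.e (nat_lit 557105) (nat_lit 14) (.e (nat_lit 180252) (nat_lit 10) (.e (nat_lit 573488) (nat_lit 14) (.e (nat_lit 73743) (nat_lit 1) (.e (nat_lit 499991) (nat_lit 14) (.e (nat_lit 1023) (nat_lit 81) .nil))))))))) (.g (nat_lit 6) .nil .nil)))) (.nd (nat_lit 5) 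
(.lf (nat_lit 91996) (.g (nat_lit 4665) (.e (nat_lit 2281) (nat_lit 150) (.e (nat_lit 770069) (nat_lit 7) (.e (nat_lit 57479) (nat_lit 28) (.e (nat_lit 557105) (nat_lit 14) (.e (nat_lit 180252) (nat_lit 10) (.e (nat_lit 573488) (nat_lit 14) (.e (nat_lit 81664) (nat_lit 5) (.e (nat_lit 532491) (nat_lit 0) .nil)))))))) (.g (nat_lit 6) .nil .nil))) 
(.lf (nat_lit 92028) (.g (nat_lit 2299) (.e (nat_lit 2281) (nat_lit 150) (.e (nat_lit 770071) (nat_lit 8) (.e (nat_lit 65617) (nat_lit 10) (.e (nat_lit 344096) (nat_lit 18) (.e (nat_lit 7122) (nat_lit 382) (.e (nat_lit 1222) (nat_lit 90) (.e (nat_lit 81943) (nat_lit 20) .nil))))))) (.g (nat_lit 4) .nil .nil))))))) (.nd (nat_lit 2) (.nd (nat_lit 3) (.nd (nat_lit 4) (.nd (nat_lit 5) 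
(.lf (nat_lit 91970) (.g (nat_lit 2285) (.e (nat_lit 2281) (nat_lit 150) (.e (nat_lit 770058) (nat_lit 5) (.e (nat_lit 1595) (nat_lit 111) (.e (nat_lit 360453) (nat_lit 0) (.e (nat_lit 7272) (nat_lit 385) (.e (nat_lit 122916) (nat_lit 14) (.e (nat_lit 352303) (nat_lit 20) .nil))))))) (.g (nat_lit 5) .nil .nil))) 
(.lf (nat_lit 92002) (.g (nat_lit 3545) (.e (nat_lit 2281) (nat_lit 150) (.e (nat_lit 770069) (nat_lit 7) (.e (nat_lit 57479) (nat_lit 28) (.e (nat_lit 557105) (nat_lit 14) (.e (nat_lit 180252) (nat_lit 10) (.e (nat_lit 573489) (nat_lit 14) (.e (nat_lit 73750) (nat_lit 6) (.e (nat_lit 540674) (nat_lit 0) .nil)))))))) (.g (nat_lit 6) .nil .nil)))) (.nd (nat_lit 5) 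
(.lf (nat_lit 91986) (.g (nat_lit 2554) (.e (nat_lit 2281) (nat_lit 150) (.e (nat_lit 770069) (nat_lit 7) (.e (nat_lit 57479) (nat_lit 28) (.e (nat_lit 557103) (nat_lit 14) (.e (nat_lit 180250) (nat_lit 10) (.e (nat_lit 573487) (nat_lit 14) (.e (nat_lit 73750) (nat_lit 6) (.e (nat_lit 540672) (nat_lit 0) .nil)))))))) (.g (nat_lit 4) .nil .nil))) 
(.lf (nat_lit 92018) (.g (nat_lit 3703) (.e (nat_lit 2281) (nat_lit 150) (.e (nat_lit 770069) (nat_lit 7) (.e (nat_lit 57480) (nat_lit 28) (.e (nat_lit 557108) (nat_lit 15) (.e (nat_lit 188446) (nat_lit 21) (.e (nat_lit 164177) (nat_lit 154) (.e (nat_lit 57389) (nat_lit 5) (.e (nat_lit 114699) (nat_lit 20) .nil)))))))) (.g (nat_lit 5) .nil .nil))))) (.nd (nat_lit 4) (.nd (nat_lit 5) 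
(.lf (nat_lit 91978) (.g (nat_lit 1694) (.e (nat_lit 2281) (nat_lit 150) (.e (nat_lit 770058) (nat_lit 5) (.e (nat_lit 1599) (nat_lit 111) (.e (nat_lit 360489) (nat_lit 21) (.e (nat_lit 770074) (nat_lit 10) (.e (nat_lit 81939) (nat_lit 20) .nil)))))) (.g (nat_lit 0) .nil .nil))) 
(.lf (nat_lit 92010) (.g (nat_lit 2366) (.e (nat_lit 2281) (nat_lit 150) (.e (nat_lit 770069) (nat_lit 7) (.e (nat_lit 57480) (nat_lit 28) (.e (nat_lit 557105) (nat_lit 14) (.e (nat_lit 180245) (nat_lit 5) (.e (nat_lit 532515) (nat_lit 3) (.e (nat_lit 122624) (nat_lit 3) (.e (nat_lit 204821) (nat_lit 17) .nil)))))))) (.g (nat_lit 4) .nil .nil)))) (.nd (nat_lit 5) 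
(.lf (nat_lit 91994) (.g (nat_lit 3962) (.e (nat_lit 2281) (nat_lit 150) (.e (nat_lit 770069) (nat_lit 7) (.e (nat_lit 57479) (nat_lit 28) (.e (nat_lit 557105) (nat_lit 14) (.e (nat_lit 180252) (nat_lit 10) (.e (nat_lit 573487) (nat_lit 14) (.e (nat_lit 73750) (nat_lit 6) (.e (nat_lit 540674) (nat_lit 0) .nil)))))))) (.g (nat_lit 6) .nil .nil))) 
(.lf (nat_lit 92026) (.g (nat_lit 1067) (.e (nat_lit 2281) (nat_lit 150) (.e (nat_lit 770071) (nat_lit 8) (.e (nat_lit 65617) (nat_lit 10) (.e (nat_lit 344091) (nat_lit 18) .nil)))) .nil))))) (.nd (nat_lit 3) (.nd (nat_lit 4) (.nd (nat_lit 5) 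
(.lf (nat_lit 91974) (.g (nat_lit 3195) (.e (nat_lit 2281) (nat_lit 150) (.e (nat_lit 770058) (nat_lit 5) (.e (nat_lit 1598) (nat_lit 111) (.e (nat_lit 360452) (nat_lit 0) (.e (nat_lit 7270) (nat_lit 385) (.e (nat_lit 122916) (nat_lit 14) (.e (nat_lit 352303) (nat_lit 20) .nil))))))) (.g (nat_lit 6) .nil .nil))) 
(.lf (nat_lit 92006) (.g (nat_lit 2796) (.e (nat_lit 2281) (nat_lit 150) (.e (nat_lit 770069) (nat_lit 7) (.e (nat_lit 57480) (nat_lit 28) (.e (nat_lit 557103) (nat_lit 14) (.e (nat_lit 180250) (nat_lit 10) (.e (nat_lit 573487) (nat_lit 14) (.e (nat_lit 73743) (nat_lit 1) (.e (nat_lit 499991) (nat_lit 14) (.e (nat_lit 1023) (nat_lit 81) .nil))))))))) (.g (nat_lit 4) .nil .nil)))) (.nd (nat_lit 5) 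
(.lf (nat_lit 91990) (.g (nat_lit 4646) (.e (nat_lit 2281) (nat_lit 150) (.e (nat_lit 770069) (nat_lit 7) (.e (nat_lit 57479) (nat_lit 28) (.e (nat_lit 557105) (nat_lit 14) (.e (nat_lit 180252) (nat_lit 10) (.e (nat_lit 573487) (nat_lit 14) (.e (nat_lit 73743) (nat_lit 1) (.e (nat_lit 499991) (nat_lit 14) (.e (nat_lit 1023) (nat_lit 81) .nil))))))))) (.g (nat_lit 6) .nil .nil))) 
(.lf (nat_lit 92022) (.g (nat_lit 919) (.e (nat_lit 2281) (nat_lit 150) (.e (nat_lit 770071) (nat_lit 8) (.e (nat_lit 65610) (nat_lit 10) (.e (nat_lit 344090) (nat_lit 18) .nil)))) .nil)))) (.nd (nat_lit 4) (.nd (nat_lit 5) 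
(.lf (nat_lit 91982) (.g (nat_lit 4088) (.e (nat_lit 2281) (nat_lit 150) (.e (nat_lit 770069) (nat_lit 7) (.e (nat_lit 57479) (nat_lit 28) (.e (nat_lit 557100) (nat_lit 13) (.e (nat_lit 172065) (nat_lit 3) (.e (nat_lit 204837) (nat_lit 20) (.e (nat_lit 122624) (nat_lit 3) (.e (nat_lit 204821) (nat_lit 17) .nil)))))))) (.g (nat_lit 4) .nil .nil))) 
(.lf (nat_lit 92014) (.g (nat_lit 3017) (.e (nat_lit 2281) (nat_lit 150) (.e (nat_lit 770069) (nat_lit 7) (.e (nat_lit 57480) (nat_lit 28) (.e (nat_lit 557105) (nat_lit 14) (.e (nat_lit 180252) (nat_lit 10) (.e (nat_lit 573488) (nat_lit 14) (.e (nat_lit 81664) (nat_lit 5) (.e (nat_lit 532491) (nat_lit 0) .nil)))))))) (.g (nat_lit 5) .nil .nil)))) (.nd (nat_lit 5) 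
(.lf (nat_lit 91998) (.g (nat_lit 4241) (.e (nat_lit 2281) (nat_lit 150) (.e (nat_lit 770069) (nat_lit 7) (.e (nat_lit 57479) (nat_lit 28) (.e (nat_lit 557105) (nat_lit 14) (.e (nat_lit 180252) (nat_lit 10) (.e (nat_lit 573488) (nat_lit 14) (.e (nat_lit 73750) (nat_lit 6) (.e (nat_lit 540674) (nat_lit 0) .nil)))))))) (.g (nat_lit 6) .nil .nil))) 
(.lf (nat_lit 92030) (.g (nat_lit 2239) (.e (nat_lit 2281) (nat_lit 150) (.e (nat_lit 770071) (nat_lit 8) (.e (nat_lit 65617) (nat_lit 10) (.e (nat_lit 344096) (nat_lit 18) (.e (nat_lit 7125) (nat_lit 382) (.e (nat_lit 1222) (nat_lit 90) (.e (nat_lit 81943) (nat_lit 20) .nil))))))) (.g (nat_lit 4) .nil .nil)))))))) 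
(.nd (nat_lit 1) (.nd (nat_lit 2) (.nd (nat_lit 3) (.nd (nat_lit 4) (.nd (nat_lit 5) 
(.lf (nat_lit 91969) (.g (nat_lit 2998) (.e (nat_lit 2281) (nat_lit 150) (.e (nat_lit 770058) (nat_lit 5) (.e (nat_lit 1595) (nat_lit 111) (.e (nat_lit 360453) (nat_lit 0) (.e (nat_lit 7272) (nat_lit 385) (.e (nat_lit 122916) (nat_lit 14) (.e (nat_lit 352302) (nat_lit 20) .nil))))))) (.g (nat_lit 6) .nil .nil))) 
(.lf (nat_lit 92001) (.g (nat_lit 3886) (.e (nat_lit 2281) (nat_lit 150) (.e (nat_lit 770069) (nat_lit 7) (.e (nat_lit 57479) (nat_lit 28) (.e (nat_lit 557105) (nat_lit 14) (.e (nat_lit 180252) (nat_lit 10) (.e (nat_lit 573489) (nat_lit 14) (.e (nat_lit 73750) (nat_lit 6) (.e (nat_lit 540672) (nat_lit 0) .nil)))))))) (.g (nat_lit 7) .nil .nil)))) (.nd (nat_lit 5) 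
(.lf (nat_lit 91985) (.g (nat_lit 1902) (.e (nat_lit 2281) (nat_lit 150) (.e (nat_lit 770069) (nat_lit 7) (.e (nat_lit 57479) (nat_lit 28) (.e (nat_lit 557103) (nat_lit 14) (.e (nat_lit 180250) (nat_lit 10) .nil))))) .nil)) 
(.lf (nat_lit 92017) (.g (nat_lit 3577) (.e (nat_lit 2281) (nat_lit 150) (.e (nat_lit 770069) (nat_lit 7) (.e (nat_lit 57480) (nat_lit 28) (.e (nat_lit 557108) (nat_lit 15) (.e (nat_lit 188446) (nat_lit 21) (.e (nat_lit 164177) (nat_lit 154) (.e (nat_lit 57388) (nat_lit 5) (.e (nat_lit 114699) (nat_lit 20) .nil)))))))) (.g (nat_lit 5) .nil .nil))))) (.nd (nat_lit 4) (.nd (nat_lit 5) 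
(.lf (nat_lit 91977) (.g (nat_lit 1878) (.e (nat_lit 2281) (nat_lit 150) (.e (nat_lit 770058) (nat_lit 5) (.e (nat_lit 1598) (nat_lit 111) (.e (nat_lit 360489) (nat_lit 21) (.e (nat_lit 770074) (nat_lit 10) (.e (nat_lit 81939) (nat_lit 20) .nil)))))) (.g (nat_lit 0) .nil .nil))) 
(.lf (nat_lit 92009) (.g (nat_lit 3691) (.e (nat_lit 2281) (nat_lit 150) (.e (nat_lit 770069) (nat_lit 7) (.e (nat_lit 57480) (nat_lit 28) (.e (nat_lit 557105) (nat_lit 14) (.e (nat_lit 180245) (nat_lit 5) (.e (nat_lit 532513) (nat_lit 3) (.e (nat_lit 122624) (nat_lit 3) (.e (nat_lit 204821) (nat_lit 17) .nil)))))))) (.g (nat_lit 6) .nil .nil)))) (.nd (nat_lit 5) 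
(.lf (nat_lit 91993) (.g (nat_lit 4303) (.e (nat_lit 2281) (nat_lit 150) (.e (nat_lit 770069) (nat_lit 7) (.e (nat_lit 57479) (nat_lit 28) (.e (nat_lit 557105) (nat_lit 14) (.e (nat_lit 180252) (nat_lit 10) (.e (nat_lit 573487) (nat_lit 14) (.e (nat_lit 73750) (nat_lit 6) (.e (nat_lit 540672) (nat_lit 0) .nil)))))))) (.g (nat_lit 6) .nil .nil))) 
(.lf (nat_lit 92025) (.g (nat_lit 1572) (.e (nat_lit 2281) (nat_lit 150) (.e (nat_lit 770071) (nat_lit 8) (.e (nat_lit 65610) (nat_lit 10) (.e (nat_lit 344177) (nat_lit 43) (.e (nat_lit 770074) (nat_lit 10) .nil))))) .nil))))) (.nd (nat_lit 3) (.nd (nat_lit 4) (.nd (nat_lit 5) 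
(.lf (nat_lit 91973) (.g (nat_lit 3502) (.e (nat_lit 2281) (nat_lit 150) (.e (nat_lit 770058) (nat_lit 5) (.e (nat_lit 1598) (nat_lit 111) (.e (nat_lit 360449) (nat_lit 0) (.e (nat_lit 7125) (nat_lit 382) (.e (nat_lit 1222) (nat_lit 90) (.e (nat_lit 81943) (nat_lit 20) .nil))))))) (.g (nat_lit 0) .nil .nil))) 
(.lf (nat_lit 92005) (.g (nat_lit 2648) (.e (nat_lit 2281) (nat_lit 150) (.e (nat_lit 770069) (nat_lit 7) (.e (nat_lit 57480) (nat_lit 28) (.e (nat_lit 557103) (nat_lit 14) (.e (nat_lit 180250) (nat_lit 10) (.e (nat_lit 573487) (nat_lit 14) (.e (nat_lit 73742) (nat_lit 1) (.e (nat_lit 499991) (nat_lit 14) (.e (nat_lit 1023) (nat_lit 81) .nil))))))))) (.g (nat_lit 4) .nil .nil)))) (.nd (nat_lit 5) 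
(.lf (nat_lit 91989) (.g (nat_lit 3157) (.e (nat_lit 2281) (nat_lit 150) (.e (nat_lit 770069) (nat_lit 7) (.e (nat_lit 57479) (nat_lit 28) (.e (nat_lit 557105) (nat_lit 14) (.e (nat_lit 180252) (nat_lit 10) (.e (nat_lit 573482) (nat_lit 13) (.e (nat_lit 65536) (nat_lit 0) (.e (nat_lit 1832) (nat_lit 122) (.e (nat_lit 540672) (nat_lit 0) .nil))))))))) (.g (nat_lit 5) .nil .nil))) 
(.lf (nat_lit 92021) (.g (nat_lit 2238) (.e (nat_lit 2281) (nat_lit 150) (.e (nat_lit 770071) (nat_lit 8) (.e (nat_lit 65586) (nat_lit 7) (.e (nat_lit 319534) (nat_lit 16) (.e (nat_lit 286756) (nat_lit 10) (.e (nat_lit 344160) (nat_lit 37) (.e (nat_lit 647190) (nat_lit 9) (.e (nat_lit 1035) (nat_lit 81) .nil)))))))) (.g (nat_lit 4) .nil .nil))))) (.nd (nat_lit 4) (.nd (nat_lit 5) 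
(.lf (nat_lit 91981) (.g (nat_lit 2536) (.e (nat_lit 2281) (nat_lit 150) (.e (nat_lit 770069) (nat_lit 7) (.e (nat_lit 57478) (nat_lit 28) (.e (nat_lit 557105) (nat_lit 14) (.e (nat_lit 180252) (nat_lit 10) (.e (nat_lit 573488) (nat_lit 14) (.e (nat_lit 73743) (nat_lit 1) (.e (nat_lit 499991) (nat_lit 14) (.e (nat_lit 1023) (nat_lit 81) .nil))))))))) (.g (nat_lit 4) .nil .nil))) 
(.lf (nat_lit 92013) (.g (nat_lit 3788) (.e (nat_lit 2281) (nat_lit 150) (.e (nat_lit 770069) (nat_lit 7) (.e (nat_lit 57480) (nat_lit 28) (.e (nat_lit 557105) (nat_lit 14) (.e (nat_lit 180252) (nat_lit 10) (.e (nat_lit 573488) (nat_lit 14) (.e (nat_lit 81664) (nat_lit 5) (.e (nat_lit 532490) (nat_lit 0) .nil)))))))) (.g (nat_lit 6) .nil .nil)))) (.nd (nat_lit 5) 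
(.lf (nat_lit 91997) (.g (nat_lit 4582) (.e (nat_lit 2281) (nat_lit 150) (.e (nat_lit 770069) (nat_lit 7) (.e (nat_lit 57479) (nat_lit 28) (.e (nat_lit 557105) (nat_lit 14) (.e (nat_lit 180252) (nat_lit 10) (.e (nat_lit 573488) (nat_lit 14) (.e (nat_lit 73750) (nat_lit 6) (.e (nat_lit 540672) (nat_lit 0) .nil)))))))) (.g (nat_lit 6) .nil .nil))) 
(.lf (nat_lit 92029) (.g (nat_lit 1699) (.e (nat_lit 2281) (nat_lit 150) (.e (nat_lit 770071) (nat_lit 8) (.e (nat_lit 65617) (nat_lit 10) (.e (nat_lit 344096) (nat_lit 18) (.e (nat_lit 7124) (nat_lit 382) .nil))))) .nil)))))) (.nd (nat_lit 2) (.nd (nat_lit 3) (.nd (nat_lit 4) (.nd (nat_lit 5) 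
(.lf (nat_lit 91971) (.g (nat_lit 652) (.e (nat_lit 2281) (nat_lit 150) (.e (nat_lit 770058) (nat_lit 5) (.e (nat_lit 1595) (nat_lit 111) (.e (nat_lit 368384) (nat_lit 0) .nil)))) .nil)) 
(.lf (nat_lit 92003) (.g (nat_lit 3251) (.e (nat_lit 2281) (nat_lit 150) (.e (nat_lit 770069) (nat_lit 7) (.e (nat_lit 57480) (nat_lit 28) (.e (nat_lit 557103) (nat_lit 14) (.e (nat_lit 180243) (nat_lit 5) (.e (nat_lit 532515) (nat_lit 3) (.e (nat_lit 122624) (nat_lit 3) (.e (nat_lit 204821) (nat_lit 17) .nil)))))))) (.g (nat_lit 4) .nil .nil)))) (.nd (nat_lit 5) 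
(.lf (nat_lit 91987) (.g (nat_lit 2213) (.e (nat_lit 2281) (nat_lit 150) (.e (nat_lit 770069) (nat_lit 7) (.e (nat_lit 57479) (nat_lit 28) (.e (nat_lit 557103) (nat_lit 14) (.e (nat_lit 180250) (nat_lit 10) (.e (nat_lit 573487) (nat_lit 14) (.e (nat_lit 73750) (nat_lit 6) (.e (nat_lit 540674) (nat_lit 0) .nil)))))))) (.g (nat_lit 4) .nil .nil))) 
(.lf (nat_lit 92019) (.g (nat_lit 3577) (.e (nat_lit 2281) (nat_lit 150) (.e (nat_lit 770069) (nat_lit 7) (.e (nat_lit 57480) (nat_lit 28) (.e (nat_lit 557108) (nat_lit 15) (.e (nat_lit 188446) (nat_lit 21) (.e (nat_lit 164177) (nat_lit 154) (.e (nat_lit 57390) (nat_lit 5) (.e (nat_lit 114699) (nat_lit 20) .nil)))))))) (.g (nat_lit 5) .nil .nil))))) (.nd (nat_lit 4) (.nd (nat_lit 5) 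
(.lf (nat_lit 91979) (.g (nat_lit 1718) (.e (nat_lit 2281) (nat_lit 150) (.e (nat_lit 770058) (nat_lit 5) (.e (nat_lit 1599) (nat_lit 111) (.e (nat_lit 360489) (nat_lit 21) (.e (nat_lit 770074) (nat_lit 10) (.e (nat_lit 81942) (nat_lit 20) .nil)))))) (.g (nat_lit 0) .nil .nil))) 
(.lf (nat_lit 92011) (.g (nat_lit 3893) (.e (nat_lit 2281) (nat_lit 150) (.e (nat_lit 770069) (nat_lit 7) (.e (nat_lit 57480) (nat_lit 28) (.e (nat_lit 557105) (nat_lit 14) (.e (nat_lit 180252) (nat_lit 10) (.e (nat_lit 573488) (nat_lit 14) (.e (nat_lit 73742) (nat_lit 1) (.e (nat_lit 499991) (nat_lit 14) (.e (nat_lit 1023) (nat_lit 81) .nil))))))))) (.g (nat_lit 6) .nil .nil)))) (.nd (nat_lit 5) 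
(.lf (nat_lit 91995) (.g (nat_lit 4830) (.e (nat_lit 2281) (nat_lit 150) (.e (nat_lit 770069) (nat_lit 7) (.e (nat_lit 57479) (nat_lit 28) (.e (nat_lit 557105) (nat_lit 14) (.e (nat_lit 180252) (nat_lit 10) (.e (nat_lit 573488) (nat_lit 14) (.e (nat_lit 81664) (nat_lit 5) (.e (nat_lit 532480) (nat_lit 0) .nil)))))))) (.g (nat_lit 6) .nil .nil))) 
(.lf (nat_lit 92027) (.g (nat_lit 1991) (.e (nat_lit 2281) (nat_lit 150) (.e (nat_lit 770071) (nat_lit 8) (.e (nat_lit 65617) (nat_lit 10) (.e (nat_lit 344091) (nat_lit 18) (.e (nat_lit 7125) (nat_lit 382) (.e (nat_lit 1222) (nat_lit 90) (.e (nat_lit 81943) (nat_lit 20) .nil))))))) (.g (nat_lit 4) .nil .nil)))))) (.nd (nat_lit 3) (.nd (nat_lit 4) (.nd (nat_lit 5) 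
(.lf (nat_lit 91975) (.g (nat_lit 2666) (.e (nat_lit 2281) (nat_lit 150) (.e (nat_lit 770058) (nat_lit 5) (.e (nat_lit 1598) (nat_lit 111) (.e (nat_lit 360452) (nat_lit 0) (.e (nat_lit 7271) (nat_lit 385) (.e (nat_lit 122916) (nat_lit 14) (.e (nat_lit 352303) (nat_lit 20) .nil))))))) (.g (nat_lit 6) .nil .nil))) 
(.lf (nat_lit 92007) (.g (nat_lit 2368) (.e (nat_lit 2281) (nat_lit 150) (.e (nat_lit 770069) (nat_lit 7) (.e (nat_lit 57480) (nat_lit 28) (.e (nat_lit 557103) (nat_lit 14) (.e (nat_lit 180250) (nat_lit 10) (.e (nat_lit 573487) (nat_lit 14) (.e (nat_lit 81664) (nat_lit 5) (.e (nat_lit 532490) (nat_lit 0) .nil)))))))) (.g (nat_lit 4) .nil .nil)))) (.nd (nat_lit 5) 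
(.lf (nat_lit 91991) (.g (nat_lit 4187) (.e (nat_lit 2281) (nat_lit 150) (.e (nat_lit 770069) (nat_lit 7) (.e (nat_lit 57479) (nat_lit 28) (.e (nat_lit 557105) (nat_lit 14) (.e (nat_lit 180252) (nat_lit 10) (.e (nat_lit 573487) (nat_lit 14) (.e (nat_lit 81664) (nat_lit 5) (.e (nat_lit 532480) (nat_lit 0) .nil)))))))) (.g (nat_lit 6) .nil .nil))) 
(.lf (nat_lit 92023) (.g (nat_lit 1967) (.e (nat_lit 2281) (nat_lit 150) (.e (nat_lit 770071) (nat_lit 8) (.e (nat_lit 65610) (nat_lit 10) (.e (nat_lit 344097) (nat_lit 18) (.e (nat_lit 7147) (nat_lit 382) .nil))))) .nil)))) (.nd (nat_lit 4) (.nd (nat_lit 5) 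
(.lf (nat_lit 91983) (.g (nat_lit 5338) (.e (nat_lit 2281) (nat_lit 150) (.e (nat_lit 770069) (nat_lit 7) (.e (nat_lit 57479) (nat_lit 28) (.e (nat_lit 557103) (nat_lit 14) (.e (nat_lit 180243) (nat_lit 5) (.e (nat_lit 532513) (nat_lit 3) (.e (nat_lit 122624) (nat_lit 3) (.e (nat_lit 204821) (nat_lit 17) .nil)))))))) (.g (nat_lit 6) .nil .nil))) 
(.lf (nat_lit 92015) (.g (nat_lit 2930) (.e (nat_lit 2281) (nat_lit 150) (.e (nat_lit 770069) (nat_lit 7) (.e (nat_lit 57480) (nat_lit 28) (.e (nat_lit 557105) (nat_lit 14) (.e (nat_lit 180252) (nat_lit 10) (.e (nat_lit 573488) (nat_lit 14) (.e (nat_lit 73750) (nat_lit 6) (.e (nat_lit 540672) (nat_lit 0) .nil)))))))) (.g (nat_lit 5) .nil .nil)))) (.nd (nat_lit 5) 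
(.lf (nat_lit 91999) (.g (nat_lit 3266) (.e (nat_lit 2281) (nat_lit 150) (.e (nat_lit 770069) (nat_lit 7) (.e (nat_lit 57479) (nat_lit 28) (.e (nat_lit 557105) (nat_lit 14) (.e (nat_lit 180252) (nat_lit 10) (.e (nat_lit 573489) (nat_lit 14) (.e (nat_lit 73739) (nat_lit 1) (.e (nat_lit 500008) (nat_lit 14) (.e (nat_lit 1019) (nat_lit 81) .nil))))))))) (.g (nat_lit 6) .nil .nil))) 
(.lf (nat_lit 92031) (.g (nat_lit 1662) (.e (nat_lit 2281) (nat_lit 150) (.e (nat_lit 770071) (nat_lit 8) (.e (nat_lit 65617) (nat_lit 10) (.e (nat_lit 344177) (nat_lit 43) (.e (nat_lit 770074) (nat_lit 10) .nil))))) .nil))))))))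

noncomputable def tv1260 : DT := (.nd (nat_lit 0) (.nd (nat_lit 1) (.nd (nat_lit 2) (.nd (nat_lit 3) (.nd (nat_lit 4) (.nd (nat_lit 5) 
(.lf (nat_lit 92032) (.g (nat_lit 1045) (.e (nat_lit 2281) (nat_lit 150) (.e (nat_lit 770071) (nat_lit 8) (.e (nat_lit 65619) (nat_lit 10) (.e (nat_lit 344090) (nat_lit 18) .nil)))) .nil)) 
(.lf (nat_lit 92064) (.g (nat_lit 3552) (.e (nat_lit 2281) (nat_lit 150) (.e (nat_lit 770072) (nat_lit 8) (.e (nat_lit 65583) (nat_lit 7) (.e (nat_lit 319530) (nat_lit 16) (.e (nat_lit 286753) (nat_lit 10) (.e (nat_lit 344160) (nat_lit 37) (.e (nat_lit 647190) (nat_lit 9) (.e (nat_lit 1022) (nat_lit 81) .nil)))))))) (.g (nat_lit 5) .nil .nil)))) (.nd (nat_lit 5) 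
(.lf (nat_lit 92048) (.g (nat_lit 3805) (.e (nat_lit 2281) (nat_lit 150) (.e (nat_lit 770072) (nat_lit 8) (.e (nat_lit 65582) (nat_lit 7) (.e (nat_lit 319531) (nat_lit 16) (.e (nat_lit 286756) (nat_lit 10) (.e (nat_lit 344160) (nat_lit 37) (.e (nat_lit 647190) (nat_lit 9) (.e (nat_lit 1048) (nat_lit 81) .nil)))))))) (.g (nat_lit 6) .nil .nil))) 
(.lf (nat_lit 92080) (.g (nat_lit 2422) (.e (nat_lit 2281) (nat_lit 150) (.e (nat_lit 770072) (nat_lit 8) (.e (nat_lit 65583) (nat_lit 7) (.e (nat_lit 319530) (nat_lit 16) (.e (nat_lit 286756) (nat_lit 10) (.e (nat_lit 344160) (nat_lit 37) (.e (nat_lit 647195) (nat_lit 9) (.e (nat_lit 7936) (nat_lit 81) .nil)))))))) (.g (nat_lit 4) .nil .nil))))) (.nd (nat_lit 4) (.nd (nat_lit 5) 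
(.lf (nat_lit 92040) (.g (nat_lit 4530) (.e (nat_lit 2281) (nat_lit 150) (.e (nat_lit 770072) (nat_lit 8) (.e (nat_lit 65568) (nat_lit 2) (.e (nat_lit 90170) (nat_lit 13) (.e (nat_lit 172113) (nat_lit 10) (.e (nat_lit 434245) (nat_lit 28) (.e (nat_lit 573451) (nat_lit 9) (.e (nat_lit 1035) (nat_lit 81) .nil)))))))) (.g (nat_lit 6) .nil .nil))) 
(.lf (nat_lit 92072) (.g (nat_lit 2421) (.e (nat_lit 2281) (nat_lit 150) (.e (nat_lit 770072) (nat_lit 8) (.e (nat_lit 65583) (nat_lit 7) (.e (nat_lit 319530) (nat_lit 16) (.e (nat_lit 286755) (nat_lit 10) (.e (nat_lit 344161) (nat_lit 37) (.e (nat_lit 647190) (nat_lit 9) (.e (nat_lit 1022) (nat_lit 81) .nil)))))))) (.g (nat_lit 4) .nil .nil)))) (.nd (nat_lit 5) 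
(.lf (nat_lit 92056) (.g (nat_lit 2340) (.e (nat_lit 2281) (nat_lit 150) (.e (nat_lit 770072) (nat_lit 8) (.e (nat_lit 65583) (nat_lit 7) (.e (nat_lit 319530) (nat_lit 16) (.e (nat_lit 286751) (nat_lit 10) (.e (nat_lit 344091) (nat_lit 18) (.e (nat_lit 5566) (nat_lit 308) (.e (nat_lit 57354) (nat_lit 0) .nil)))))))) (.g (nat_lit 4) .nil .nil))) 
(.lf (nat_lit 92088) (.g (nat_lit 2753) (.e (nat_lit 2281) (nat_lit 150) (.e (nat_lit 770072) (nat_lit 8) (.e (nat_lit 65583) (nat_lit 7) (.e (nat_lit 319533) (nat_lit 16) (.e (nat_lit 286753) (nat_lit 10) (.e (nat_lit 344160) (nat_lit 37) (.e (nat_lit 647190) (nat_lit 9) (.e (nat_lit 1032) (nat_lit 81) .nil)))))))) (.g (nat_lit 4) .nil .nil)))))) 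
(.nd (nat_lit 3) (.nd (nat_lit 4) (.nd (nat_lit 5) 
(.lf (nat_lit 92036) (.g (nat_lit 4079) (.e (nat_lit 2281) (nat_lit 150) (.e (nat_lit 770072) (nat_lit 8) (.e (nat_lit 65566) (nat_lit 2) (.e (nat_lit 90170) (nat_lit 13) (.e (nat_lit 172113) (nat_lit 10) (.e (nat_lit 434245) (nat_lit 28) (.e (nat_lit 573451) (nat_lit 9) (.e (nat_lit 1035) (nat_lit 81) .nil)))))))) (.g (nat_lit 6) .nil .nil))) 
(.lf (nat_lit 92068) (.g (nat_lit 4940) (.e (nat_lit 2281) (nat_lit 150) (.e (nat_lit 770072) (nat_lit 8) (.e (nat_lit 65583) (nat_lit 7) (.e (nat_lit 319530) (nat_lit 16) (.e (nat_lit 286753) (nat_lit 10) (.e (nat_lit 344160) (nat_lit 37) (.e (nat_lit 647190) (nat_lit 9) (.e (nat_lit 1035) (nat_lit 81) .nil)))))))) (.g (nat_lit 7) .nil .nil)))) (.nd (nat_lit 5) 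
(.lf (nat_lit 92052) (.g (nat_lit 4124) (.e (nat_lit 2281) (nat_lit 150) (.e (nat_lit 770072) (nat_lit 8) (.e (nat_lit 65582) (nat_lit 7) (.e (nat_lit 319534) (nat_lit 16) (.e (nat_lit 286756) (nat_lit 10) (.e (nat_lit 344160) (nat_lit 37) (.e (nat_lit 647190) (nat_lit 9) (.e (nat_lit 1025) (nat_lit 81) .nil)))))))) (.g (nat_lit 6) .nil .nil))) 
(.lf (nat_lit 92084) (.g (nat_lit 2731) (.e (nat_lit 2281) (nat_lit 150) (.e (nat_lit 770072) (nat_lit 8) (.e (nat_lit 65583) (nat_lit 7) (.e (nat_lit 319531) (nat_lit 16) (.e (nat_lit 286756) (nat_lit 10) (.e (nat_lit 344160) (nat_lit 37) (.e (nat_lit 647190) (nat_lit 9) (.e (nat_lit 1047) (nat_lit 81) .nil)))))))) (.g (nat_lit 4) .nil .nil))))) (.nd (nat_lit 4) (.nd (nat_lit 5) 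
(.lf (nat_lit 92044) (.g (nat_lit 3042) (.e (nat_lit 2281) (nat_lit 150) (.e (nat_lit 770072) (nat_lit 8) (.e (nat_lit 65571) (nat_lit 3) (.e (nat_lit 98359) (nat_lit 26) (.e (nat_lit 426286) (nat_lit 10) (.e (nat_lit 434248) (nat_lit 28) (.e (nat_lit 573452) (nat_lit 9) (.e (nat_lit 1035) (nat_lit 81) .nil)))))))) (.g (nat_lit 4) .nil .nil))) 
(.lf (nat_lit 92076) (.g (nat_lit 3190) (.e (nat_lit 2281) (nat_lit 150) (.e (nat_lit 770072) (nat_lit 8) (.e (nat_lit 65583) (nat_lit 7) (.e (nat_lit 319530) (nat_lit 16) (.e (nat_lit 286756) (nat_lit 10) (.e (nat_lit 344160) (nat_lit 37) (.e (nat_lit 647190) (nat_lit 9) (.e (nat_lit 1022) (nat_lit 81) .nil)))))))) (.g (nat_lit 5) .nil .nil)))) (.nd (nat_lit 5) 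
(.lf (nat_lit 92060) (.g (nat_lit 2201) (.e (nat_lit 2281) (nat_lit 150) (.e (nat_lit 770072) (nat_lit 8) (.e (nat_lit 65583) (nat_lit 7) (.e (nat_lit 319530) (nat_lit 16) (.e (nat_lit 286751) (nat_lit 10) (.e (nat_lit 344160) (nat_lit 37) (.e (nat_lit 647190) (nat_lit 9) (.e (nat_lit 1048) (nat_lit 81) .nil)))))))) (.g (nat_lit 4) .nil .nil))) 
(.lf (nat_lit 92092) (.g (nat_lit 3856) (.e (nat_lit 2281) (nat_lit 150) (.e (nat_lit 770072) (nat_lit 8) (.e (nat_lit 65583) (nat_lit 7) (.e (nat_lit 319534) (nat_lit 16) (.e (nat_lit 286756) (nat_lit 10) (.e (nat_lit 344160) (nat_lit 37) (.e (nat_lit 647190) (nat_lit 9) (.e (nat_lit 1022) (nat_lit 81) .nil)))))))) (.g (nat_lit 5) .nil .nil))))))) 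
(.nd (nat_lit 2) (.nd (nat_lit 3) (.nd (nat_lit 4) (.nd (nat_lit 5) 
(.lf (nat_lit 92034) (.g (nat_lit 620) (.e (nat_lit 2281) (nat_lit 150) (.e (nat_lit 770072) (nat_lit 8) (.e (nat_lit 65565) (nat_lit 1) .nil))) .nil)) 
(.lf (nat_lit 92066) (.g (nat_lit 2651) (.e (nat_lit 2281) (nat_lit 150) (.e (nat_lit 770072) (nat_lit 8) (.e (nat_lit 65583) (nat_lit 7) (.e (nat_lit 319530) (nat_lit 16) (.e (nat_lit 286753) (nat_lit 10) (.e (nat_lit 344160) (nat_lit 37) (.e (nat_lit 647190) (nat_lit 9) (.e (nat_lit 1030) (nat_lit 81) .nil)))))))) (.g (nat_lit 4) .nil .nil)))) (.nd (nat_lit 5) 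
(.lf (nat_lit 92050) (.g (nat_lit 2277) (.e (nat_lit 2281) (nat_lit 150) (.e (nat_lit 770072) (nat_lit 8) (.e (nat_lit 65582) (nat_lit 7) (.e (nat_lit 319533) (nat_lit 16) (.e (nat_lit 286753) (nat_lit 10) (.e (nat_lit 344160) (nat_lit 37) (.e (nat_lit 647190) (nat_lit 9) (.e (nat_lit 1047) (nat_lit 81) .nil)))))))) (.g (nat_lit 4) .nil .nil))) 
(.lf (nat_lit 92082) (.g (nat_lit 3405) (.e (nat_lit 2281) (nat_lit 150) (.e (nat_lit 770072) (nat_lit 8) (.e (nat_lit 65583) (nat_lit 7) (.e (nat_lit 319530) (nat_lit 16) (.e (nat_lit 286759) (nat_lit 12) (.e (nat_lit 385047) (nat_lit 21) (.e (nat_lit 7936) (nat_lit 412) (.e (nat_lit 57354) (nat_lit 0) .nil)))))))) (.g (nat_lit 5) .nil .nil))))) (.nd (nat_lit 4) (.nd (nat_lit 5) 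
(.lf (nat_lit 92042) (.g (nat_lit 3319) (.e (nat_lit 2281) (nat_lit 150) (.e (nat_lit 770072) (nat_lit 8) (.e (nat_lit 65571) (nat_lit 3) (.e (nat_lit 98359) (nat_lit 26) (.e (nat_lit 426286) (nat_lit 10) (.e (nat_lit 434245) (nat_lit 28) (.e (nat_lit 573451) (nat_lit 9) (.e (nat_lit 1032) (nat_lit 81) .nil)))))))) (.g (nat_lit 4) .nil .nil))) 
(.lf (nat_lit 92074) (.g (nat_lit 2777) (.e (nat_lit 2281) (nat_lit 150) (.e (nat_lit 770072) (nat_lit 8) (.e (nat_lit 65583) (nat_lit 7) (.e (nat_lit 319530) (nat_lit 16) (.e (nat_lit 286755) (nat_lit 10) (.e (nat_lit 344161) (nat_lit 37) (.e (nat_lit 647195) (nat_lit 9) (.e (nat_lit 982) (nat_lit 81) .nil)))))))) (.g (nat_lit 4) .nil .nil)))) (.nd (nat_lit 5) 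
(.lf (nat_lit 92058) (.g (nat_lit 2051) (.e (nat_lit 2281) (nat_lit 150) (.e (nat_lit 770072) (nat_lit 8) (.e (nat_lit 65583) (nat_lit 7) (.e (nat_lit 319530) (nat_lit 16) (.e (nat_lit 286751) (nat_lit 10) (.e (nat_lit 344160) (nat_lit 37) (.e (nat_lit 647190) (nat_lit 9) (.e (nat_lit 1025) (nat_lit 81) .nil)))))))) (.g (nat_lit 4) .nil .nil))) 
(.lf (nat_lit 92090) (.g (nat_lit 4284) (.e (nat_lit 2281) (nat_lit 150) (.e (nat_lit 770072) (nat_lit 8) (.e (nat_lit 65583) (nat_lit 7) (.e (nat_lit 319533) (nat_lit 16) (.e (nat_lit 286753) (nat_lit 10) (.e (nat_lit 344160) (nat_lit 37) (.e (nat_lit 647195) (nat_lit 9) (.e (nat_lit 982) (nat_lit 81) .nil)))))))) (.g (nat_lit 6) .nil .nil)))))) (.nd (nat_lit 3) (.nd (nat_lit 4) (.nd (nat_lit 5) 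
(.lf (nat_lit 92038) (.g (nat_lit 2844) (.e (nat_lit 2281) (nat_lit 150) (.e (nat_lit 770072) (nat_lit 8) (.e (nat_lit 65568) (nat_lit 2) (.e (nat_lit 90170) (nat_lit 13) (.e (nat_lit 172106) (nat_lit 10) (.e (nat_lit 434244) (nat_lit 28) (.e (nat_lit 573451) (nat_lit 9) (.e (nat_lit 1034) (nat_lit 81) .nil)))))))) (.g (nat_lit 5) .nil .nil))) 
(.lf (nat_lit 92070) (.g (nat_lit 4579) (.e (nat_lit 2281) (nat_lit 150) (.e (nat_lit 770072) (nat_lit 8) (.e (nat_lit 65583) (nat_lit 7) (.e (nat_lit 319530) (nat_lit 16) (.e (nat_lit 286753) (nat_lit 10) (.e (nat_lit 344160) (nat_lit 37) (.e (nat_lit 647195) (nat_lit 9) (.e (nat_lit 982) (nat_lit 81) .nil)))))))) (.g (nat_lit 6) .nil .nil)))) (.nd (nat_lit 5) 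
(.lf (nat_lit 92054) (.g (nat_lit 4923) (.e (nat_lit 2281) (nat_lit 150) (.e (nat_lit 770072) (nat_lit 8) (.e (nat_lit 65582) (nat_lit 7) (.e (nat_lit 319534) (nat_lit 16) (.e (nat_lit 286756) (nat_lit 10) (.e (nat_lit 344160) (nat_lit 37) (.e (nat_lit 647195) (nat_lit 9) (.e (nat_lit 982) (nat_lit 81) .nil)))))))) (.g (nat_lit 7) .nil .nil))) 
(.lf (nat_lit 92086) (.g (nat_lit 3058) (.e (nat_lit 2281) (nat_lit 150) (.e (nat_lit 770072) (nat_lit 8) (.e (nat_lit 65583) (nat_lit 7) (.e (nat_lit 319533) (nat_lit 16) (.e (nat_lit 286753) (nat_lit 10) (.e (nat_lit 344160) (nat_lit 37) (.e (nat_lit 647190) (nat_lit 9) (.e (nat_lit 1025) (nat_lit 81) .nil)))))))) (.g (nat_lit 4) .nil .nil))))) (.nd (nat_lit 4) (.nd (nat_lit 5) 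
(.lf (nat_lit 92046) (.g (nat_lit 2278) (.e (nat_lit 2281) (nat_lit 150) (.e (nat_lit 770072) (nat_lit 8) (.e (nat_lit 65581) (nat_lit 7) (.e (nat_lit 319534) (nat_lit 16) (.e (nat_lit 286756) (nat_lit 10) (.e (nat_lit 344160) (nat_lit 37) (.e (nat_lit 647195) (nat_lit 9) (.e (nat_lit 982) (nat_lit 81) .nil)))))))) (.g (nat_lit 4) .nil .nil))) 
(.lf (nat_lit 92078) (.g (nat_lit 2931) (.e (nat_lit 2281) (nat_lit 150) (.e (nat_lit 770072) (nat_lit 8) (.e (nat_lit 65583) (nat_lit 7) (.e (nat_lit 319530) (nat_lit 16) (.e (nat_lit 286756) (nat_lit 10) (.e (nat_lit 344160) (nat_lit 37) (.e (nat_lit 647190) (nat_lit 9) (.e (nat_lit 1030) (nat_lit 81) .nil)))))))) (.g (nat_lit 5) .nil .nil)))) (.nd (nat_lit 5) 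
(.lf (nat_lit 92062) (.g (nat_lit 2308) (.e (nat_lit 2281) (nat_lit 150) (.e (nat_lit 770072) (nat_lit 8) (.e (nat_lit 65583) (nat_lit 7) (.e (nat_lit 319530) (nat_lit 16) (.e (nat_lit 286751) (nat_lit 10) (.e (nat_lit 344161) (nat_lit 37) (.e (nat_lit 647195) (nat_lit 9) (.e (nat_lit 982) (nat_lit 81) .nil)))))))) (.g (nat_lit 4) .nil .nil))) 
(.lf (nat_lit 92094) (.g (nat_lit 4074) (.e (nat_lit 2281) (nat_lit 150) (.e (nat_lit 770072) (nat_lit 8) (.e (nat_lit 65583) (nat_lit 7) (.e (nat_lit 319534) (nat_lit 16) (.e (nat_lit 286756) (nat_lit 10) (.e (nat_lit 344160) (nat_lit 37) (.e (nat_lit 647190) (nat_lit 9) (.e (nat_lit 1032) (nat_lit 81) .nil)))))))) (.g (nat_lit 5) .nil .nil)))))))) 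
(.nd (nat_lit 1) (.nd (nat_lit 2) (.nd (nat_lit 3) (.nd (nat_lit 4) (.nd (nat_lit 5) 
(.lf (nat_lit 92033) (.g (nat_lit 972) (.e (nat_lit 2281) (nat_lit 150) (.e (nat_lit 770071) (nat_lit 8) (.e (nat_lit 65619) (nat_lit 10) (.e (nat_lit 344097) (nat_lit 18) .nil)))) .nil)) 
(.lf (nat_lit 92065) (.g (nat_lit 3381) (.e (nat_lit 2281) (nat_lit 150) (.e (nat_lit 770072) (nat_lit 8) (.e (nat_lit 65583) (nat_lit 7) (.e (nat_lit 319530) (nat_lit 16) (.e (nat_lit 286753) (nat_lit 10) (.e (nat_lit 344160) (nat_lit 37) (.e (nat_lit 647190) (nat_lit 9) (.e (nat_lit 1025) (nat_lit 81) .nil)))))))) (.g (nat_lit 4) .nil .nil)))) (.nd (nat_lit 5) 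
(.lf (nat_lit 92049) (.g (nat_lit 4389) (.e (nat_lit 2281) (nat_lit 150) (.e (nat_lit 770072) (nat_lit 8) (.e (nat_lit 65582) (nat_lit 7) (.e (nat_lit 319531) (nat_lit 16) (.e (nat_lit 286756) (nat_lit 10) (.e (nat_lit 344160) (nat_lit 37) (.e (nat_lit 647195) (nat_lit 9) (.e (nat_lit 982) (nat_lit 81) .nil)))))))) (.g (nat_lit 7) .nil .nil))) 
(.lf (nat_lit 92081) (.g (nat_lit 2496) (.e (nat_lit 2281) (nat_lit 150) (.e (nat_lit 770072) (nat_lit 8) (.e (nat_lit 65583) (nat_lit 7) (.e (nat_lit 319530) (nat_lit 16) (.e (nat_lit 286757) (nat_lit 11) (.e (nat_lit 368665) (nat_lit 18) (.e (nat_lit 5571) (nat_lit 308) (.e (nat_lit 57354) (nat_lit 0) .nil)))))))) (.g (nat_lit 4) .nil .nil))))) (.nd (nat_lit 4) (.nd (nat_lit 5) 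
(.lf (nat_lit 92041) (.g (nat_lit 3958) (.e (nat_lit 2281) (nat_lit 150) (.e (nat_lit 770072) (nat_lit 8) (.e (nat_lit 65569) (nat_lit 3) (.e (nat_lit 98359) (nat_lit 26) (.e (nat_lit 426286) (nat_lit 10) (.e (nat_lit 434245) (nat_lit 28) (.e (nat_lit 573451) (nat_lit 9) (.e (nat_lit 1035) (nat_lit 81) .nil)))))))) (.g (nat_lit 6) .nil .nil))) 
(.lf (nat_lit 92073) (.g (nat_lit 2647) (.e (nat_lit 2281) (nat_lit 150) (.e (nat_lit 770072) (nat_lit 8) (.e (nat_lit 65583) (nat_lit 7) (.e (nat_lit 319530) (nat_lit 16) (.e (nat_lit 286755) (nat_lit 10) (.e (nat_lit 344161) (nat_lit 37) (.e (nat_lit 647190) (nat_lit 9) (.e (nat_lit 1035) (nat_lit 81) .nil)))))))) (.g (nat_lit 4) .nil .nil)))) (.nd (nat_lit 5) 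
(.lf (nat_lit 92057) (.g (nat_lit 2222) (.e (nat_lit 2281) (nat_lit 150) (.e (nat_lit 770072) (nat_lit 8) (.e (nat_lit 65583) (nat_lit 7) (.e (nat_lit 319530) (nat_lit 16) (.e (nat_lit 286751) (nat_lit 10) (.e (nat_lit 344160) (nat_lit 37) (.e (nat_lit 647190) (nat_lit 9) (.e (nat_lit 1022) (nat_lit 81) .nil)))))))) (.g (nat_lit 4) .nil .nil))) 
(.lf (nat_lit 92089) (.g (nat_lit 3208) (.e (nat_lit 2281) (nat_lit 150) (.e (nat_lit 770072) (nat_lit 8) (.e (nat_lit 65583) (nat_lit 7) (.e (nat_lit 319533) (nat_lit 16) (.e (nat_lit 286753) (nat_lit 10) (.e (nat_lit 344160) (nat_lit 37) (.e (nat_lit 647190) (nat_lit 9) (.e (nat_lit 1048) (nat_lit 81) .nil)))))))) (.g (nat_lit 4) .nil .nil)))))) 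
(.nd (nat_lit 3) (.nd (nat_lit 4) (.nd (nat_lit 5) 
(.lf (nat_lit 92037) (.g (nat_lit 3443) (.e (nat_lit 2281) (nat_lit 150) (.e (nat_lit 770072) (nat_lit 8) (.e (nat_lit 65568) (nat_lit 2) (.e (nat_lit 90170) (nat_lit 13) (.e (nat_lit 172106) (nat_lit 10) (.e (nat_lit 434244) (nat_lit 28) (.e (nat_lit 573451) (nat_lit 9) (.e (nat_lit 1024) (nat_lit 81) .nil)))))))) (.g (nat_lit 6) .nil .nil))) 
(.lf (nat_lit 92069) (.g (nat_lit 3711) (.e (nat_lit 2281) (nat_lit 150) (.e (nat_lit 770072) (nat_lit 8) (.e (nat_lit 65583) (nat_lit 7) (.e (nat_lit 319530) (nat_lit 16) (.e (nat_lit 286753) (nat_lit 10) (.e (nat_lit 344160) (nat_lit 37) (.e (nat_lit 647190) (nat_lit 9) (.e (nat_lit 1047) (nat_lit 81) .nil)))))))) (.g (nat_lit 5) .nil .nil)))) (.nd (nat_lit 5) 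
(.lf (nat_lit 92053) (.g (nat_lit 4278) (.e (nat_lit 2281) (nat_lit 150) (.e (nat_lit 770072) (nat_lit 8) (.e (nat_lit 65582) (nat_lit 7) (.e (nat_lit 319534) (nat_lit 16) (.e (nat_lit 286756) (nat_lit 10) (.e (nat_lit 344160) (nat_lit 37) (.e (nat_lit 647190) (nat_lit 9) (.e (nat_lit 1048) (nat_lit 81) .nil)))))))) (.g (nat_lit 6) .nil .nil))) 
(.lf (nat_lit 92085) (.g (nat_lit 2544) (.e (nat_lit 2281) (nat_lit 150) (.e (nat_lit 770072) (nat_lit 8) (.e (nat_lit 65583) (nat_lit 7) (.e (nat_lit 319531) (nat_lit 16) (.e (nat_lit 286756) (nat_lit 10) (.e (nat_lit 344160) (nat_lit 37) (.e (nat_lit 647190) (nat_lit 9) (.e (nat_lit 1048) (nat_lit 81) .nil)))))))) (.g (nat_lit 4) .nil .nil))))) (.nd (nat_lit 4) (.nd (nat_lit 5) 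
(.lf (nat_lit 92045) (.g (nat_lit 2032) (.e (nat_lit 2281) (nat_lit 150) (.e (nat_lit 770072) (nat_lit 8) (.e (nat_lit 65571) (nat_lit 3) (.e (nat_lit 98372) (nat_lit 29) .nil)))) .nil)) 
(.lf (nat_lit 92077) (.g (nat_lit 3690) (.e (nat_lit 2281) (nat_lit 150) (.e (nat_lit 770072) (nat_lit 8) (.e (nat_lit 65583) (nat_lit 7) (.e (nat_lit 319530) (nat_lit 16) (.e (nat_lit 286756) (nat_lit 10) (.e (nat_lit 344160) (nat_lit 37) (.e (nat_lit 647190) (nat_lit 9) (.e (nat_lit 1025) (nat_lit 81) .nil)))))))) (.g (nat_lit 6) .nil .nil)))) (.nd (nat_lit 5) 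
(.lf (nat_lit 92061) (.g (nat_lit 2178) (.e (nat_lit 2281) (nat_lit 150) (.e (nat_lit 770072) (nat_lit 8) (.e (nat_lit 65583) (nat_lit 7) (.e (nat_lit 319530) (nat_lit 16) (.e (nat_lit 286751) (nat_lit 10) (.e (nat_lit 344161) (nat_lit 37) (.e (nat_lit 647190) (nat_lit 9) (.e (nat_lit 1035) (nat_lit 81) .nil)))))))) (.g (nat_lit 4) .nil .nil))) 
(.lf (nat_lit 92093) (.g (nat_lit 4356) (.e (nat_lit 2281) (nat_lit 150) (.e (nat_lit 770072) (nat_lit 8) (.e (nat_lit 65583) (nat_lit 7) (.e (nat_lit 319534) (nat_lit 16) (.e (nat_lit 286756) (nat_lit 10) (.e (nat_lit 344160) (nat_lit 37) (.e (nat_lit 647190) (nat_lit 9) (.e (nat_lit 1025) (nat_lit 81) .nil)))))))) (.g (nat_lit 5) .nil .nil))))))) 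
(.nd (nat_lit 2) (.nd (nat_lit 3) (.nd (nat_lit 4) (.nd (nat_lit 5) 
(.lf (nat_lit 92035) (.g (nat_lit 5373) (.e (nat_lit 2281) (nat_lit 150) (.e (nat_lit 770072) (nat_lit 8) (.e (nat_lit 65566) (nat_lit 2) (.e (nat_lit 90170) (nat_lit 13) (.e (nat_lit 172106) (nat_lit 10) (.e (nat_lit 434244) (nat_lit 28) (.e (nat_lit 573451) (nat_lit 9) (.e (nat_lit 1035) (nat_lit 81) .nil)))))))) (.g (nat_lit 0) .nil .nil))) 
(.lf (nat_lit 92067) (.g (nat_lit 3076) (.e (nat_lit 2281) (nat_lit 150) (.e (nat_lit 770072) (nat_lit 8) (.e (nat_lit 65583) (nat_lit 7) (.e (nat_lit 319530) (nat_lit 16) (.e (nat_lit 286753) (nat_lit 10) (.e (nat_lit 344160) (nat_lit 37) (.e (nat_lit 647190) (nat_lit 9) (.e (nat_lit 1032) (nat_lit 81) .nil)))))))) (.g (nat_lit 4) .nil .nil)))) (.nd (nat_lit 5) 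
(.lf (nat_lit 92051) (.g (nat_lit 3624) (.e (nat_lit 2281) (nat_lit 150) (.e (nat_lit 770072) (nat_lit 8) (.e (nat_lit 65582) (nat_lit 7) (.e (nat_lit 319534) (nat_lit 16) (.e (nat_lit 286756) (nat_lit 10) (.e (nat_lit 344160) (nat_lit 37) (.e (nat_lit 647190) (nat_lit 9) (.e (nat_lit 1022) (nat_lit 81) .nil)))))))) (.g (nat_lit 5) .nil .nil))) 
(.lf (nat_lit 92083) (.g (nat_lit 3872) (.e (nat_lit 2281) (nat_lit 150) (.e (nat_lit 770072) (nat_lit 8) (.e (nat_lit 65583) (nat_lit 7) (.e (nat_lit 319531) (nat_lit 16) (.e (nat_lit 286756) (nat_lit 10) (.e (nat_lit 344160) (nat_lit 37) (.e (nat_lit 647190) (nat_lit 9) (.e (nat_lit 1035) (nat_lit 81) .nil)))))))) (.g (nat_lit 5) .nil .nil))))) (.nd (nat_lit 4) (.nd (nat_lit 5) 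
(.lf (nat_lit 92043) (.g (nat_lit 5559) (.e (nat_lit 2281) (nat_lit 150) (.e (nat_lit 770072) (nat_lit 8) (.e (nat_lit 65571) (nat_lit 3) (.e (nat_lit 98359) (nat_lit 26) (.e (nat_lit 426286) (nat_lit 10) (.e (nat_lit 434245) (nat_lit 28) (.e (nat_lit 573451) (nat_lit 9) (.e (nat_lit 1035) (nat_lit 81) .nil)))))))) (.g (nat_lit 7) .nil .nil))) 
(.lf (nat_lit 92075) (.g (nat_lit 2374) (.e (nat_lit 2281) (nat_lit 150) (.e (nat_lit 770072) (nat_lit 8) (.e (nat_lit 65583) (nat_lit 7) (.e (nat_lit 319530) (nat_lit 16) (.e (nat_lit 286756) (nat_lit 10) (.e (nat_lit 344160) (nat_lit 37) (.e (nat_lit 647188) (nat_lit 9) (.e (nat_lit 1035) (nat_lit 81) .nil)))))))) (.g (nat_lit 4) .nil .nil)))) (.nd (nat_lit 5) 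
(.lf (nat_lit 92059) (.g (nat_lit 2381) (.e (nat_lit 2281) (nat_lit 150) (.e (nat_lit 770072) (nat_lit 8) (.e (nat_lit 65583) (nat_lit 7) (.e (nat_lit 319530) (nat_lit 16) (.e (nat_lit 286751) (nat_lit 10) (.e (nat_lit 344160) (nat_lit 37) (.e (nat_lit 647190) (nat_lit 9) (.e (nat_lit 1047) (nat_lit 81) .nil)))))))) (.g (nat_lit 4) .nil .nil))) 
(.lf (nat_lit 92091) (.g (nat_lit 3049) (.e (nat_lit 2281) (nat_lit 150) (.e (nat_lit 770072) (nat_lit 8) (.e (nat_lit 65583) (nat_lit 7) (.e (nat_lit 319534) (nat_lit 16) (.e (nat_lit 286756) (nat_lit 10) (.e (nat_lit 344160) (nat_lit 37) (.e (nat_lit 647188) (nat_lit 9) (.e (nat_lit 1035) (nat_lit 81) .nil)))))))) (.g (nat_lit 4) .nil .nil)))))) 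
(.nd (nat_lit 3) (.nd (nat_lit 4) (.nd (nat_lit 5) 
(.lf (nat_lit 92039) (.g (nat_lit 5941) (.e (nat_lit 2281) (nat_lit 150) (.e (nat_lit 770072) (nat_lit 8) (.e (nat_lit 65568) (nat_lit 2) (.e (nat_lit 90170) (nat_lit 13) (.e (nat_lit 172106) (nat_lit 10) (.e (nat_lit 434244) (nat_lit 28) (.e (nat_lit 573451) (nat_lit 9) (.e (nat_lit 1035) (nat_lit 81) .nil)))))))) (.g (nat_lit 0) .nil .nil))) 
(.lf (nat_lit 92071) (.g (nat_lit 1906) (.e (nat_lit 2281) (nat_lit 150) (.e (nat_lit 770072) (nat_lit 8) (.e (nat_lit 65583) (nat_lit 7) (.e (nat_lit 319530) (nat_lit 16) (.e (nat_lit 286755) (nat_lit 10) .nil))))) .nil))) (.nd (nat_lit 5) 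
(.lf (nat_lit 92055) (.g (nat_lit 2886) (.e (nat_lit 2281) (nat_lit 150) (.e (nat_lit 770072) (nat_lit 8) (.e (nat_lit 65582) (nat_lit 7) (.e (nat_lit 319534) (nat_lit 16) (.e (nat_lit 286756) (nat_lit 10) (.e (nat_lit 344160) (nat_lit 37) (.e (nat_lit 647195) (nat_lit 9) (.e (nat_lit 7936) (nat_lit 81) .nil)))))))) (.g (nat_lit 5) .nil .nil))) 
(.lf (nat_lit 92087) (.g (nat_lit 2328) (.e (nat_lit 2281) (nat_lit 150) (.e (nat_lit 770072) (nat_lit 8) (.e (nat_lit 65583) (nat_lit 7) (.e (nat_lit 319533) (nat_lit 16) (.e (nat_lit 286753) (nat_lit 10) (.e (nat_lit 344160) (nat_lit 37) (.e (nat_lit 647190) (nat_lit 9) (.e (nat_lit 1030) (nat_lit 81) .nil)))))))) (.g (nat_lit 4) .nil .nil))))) (.nd (nat_lit 4) (.nd (nat_lit 5) 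
(.lf (nat_lit 92047) (.g (nat_lit 3151) (.e (nat_lit 2281) (nat_lit 150) (.e (nat_lit 770072) (nat_lit 8) (.e (nat_lit 65582) (nat_lit 7) (.e (nat_lit 319531) (nat_lit 16) (.e (nat_lit 286756) (nat_lit 10) (.e (nat_lit 344160) (nat_lit 37) (.e (nat_lit 647190) (nat_lit 9) (.e (nat_lit 1022) (nat_lit 81) .nil)))))))) (.g (nat_lit 5) .nil .nil))) 
(.lf (nat_lit 92079) (.g (nat_lit 4463) (.e (nat_lit 2281) (nat_lit 150) (.e (nat_lit 770072) (nat_lit 8) (.e (nat_lit 65583) (nat_lit 7) (.e (nat_lit 319530) (nat_lit 16) (.e (nat_lit 286756) (nat_lit 10) (.e (nat_lit 344160) (nat_lit 37) (.e (nat_lit 647195) (nat_lit 9) (.e (nat_lit 982) (nat_lit 81) .nil)))))))) (.g (nat_lit 7) .nil .nil)))) (.nd (nat_lit 5) 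
(.lf (nat_lit 92063) (.g (nat_lit 2539) (.e (nat_lit 2281) (nat_lit 150) (.e (nat_lit 770072) (nat_lit 8) (.e (nat_lit 65583) (nat_lit 7) (.e (nat_lit 319530) (nat_lit 16) (.e (nat_lit 286753) (nat_lit 10) (.e (nat_lit 344160) (nat_lit 37) (.e (nat_lit 647188) (nat_lit 9) (.e (nat_lit 1035) (nat_lit 81) .nil)))))))) (.g (nat_lit 4) .nil .nil))) 
(.lf (nat_lit 92095) (.g (nat_lit 5838) (.e (nat_lit 2281) (nat_lit 150) (.e (nat_lit 770072) (nat_lit 8) (.e (nat_lit 65583) (nat_lit 7) (.e (nat_lit 319534) (nat_lit 16) (.e (nat_lit 286756) (nat_lit 10) (.e (nat_lit 344160) (nat_lit 37) (.e (nat_lit 647190) (nat_lit 9) (.e (nat_lit 1035) (nat_lit 81) .nil)))))))) (.g (nat_lit 7) .nil .nil)))))))))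

noncomputable def tv1261 : DT := (.nd (nat_lit 0) (.nd (nat_lit 1) (.nd (nat_lit 2) (.nd (nat_lit 3) (.nd (nat_lit 4) (.nd (nat_lit 5) 
(.lf (nat_lit 92096) (.g (nat_lit 4697) (.e (nat_lit 2281) (nat_lit 150) (.e (nat_lit 770072) (nat_lit 8) (.e (nat_lit 65583) (nat_lit 7) (.e (nat_lit 319534) (nat_lit 16) (.e (nat_lit 286756) (nat_lit 10) (.e (nat_lit 344160) (nat_lit 37) (.e (nat_lit 647190) (nat_lit 9) (.e (nat_lit 1047) (nat_lit 81) .nil)))))))) (.g (nat_lit 6) .nil .nil))) 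
(.lf (nat_lit 92128) (.g (nat_lit 4145) (.e (nat_lit 2281) (nat_lit 150) (.e (nat_lit 770072) (nat_lit 8) (.e (nat_lit 65586) (nat_lit 7) (.e (nat_lit 319531) (nat_lit 16) (.e (nat_lit 286756) (nat_lit 10) (.e (nat_lit 344160) (nat_lit 37) (.e (nat_lit 647190) (nat_lit 9) (.e (nat_lit 1048) (nat_lit 81) .nil)))))))) (.g (nat_lit 6) .nil .nil)))) (.nd (nat_lit 5) 
(.lf (nat_lit 92112) (.g (nat_lit 2686) (.e (nat_lit 2281) (nat_lit 150) (.e (nat_lit 770072) (nat_lit 8) (.e (nat_lit 65585) (nat_lit 7) (.e (nat_lit 319534) (nat_lit 16) (.e (nat_lit 286756) (nat_lit 10) (.e (nat_lit 344160) (nat_lit 37) (.e (nat_lit 647195) (nat_lit 9) (.e (nat_lit 7936) (nat_lit 81) .nil)))))))) (.g (nat_lit 4) .nil .nil))) 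
(.lf (nat_lit 92144) (.g (nat_lit 2755) (.e (nat_lit 2281) (nat_lit 150) (.e (nat_lit 770072) (nat_lit 8) (.e (nat_lit 65586) (nat_lit 7) (.e (nat_lit 319534) (nat_lit 16) (.e (nat_lit 286756) (nat_lit 10) (.e (nat_lit 344160) (nat_lit 37) (.e (nat_lit 647195) (nat_lit 9) (.e (nat_lit 7936) (nat_lit 81) .nil)))))))) (.g (nat_lit 4) .nil .nil))))) (.nd (nat_lit 4) (.nd (nat_lit 5) 
(.lf (nat_lit 92104) (.g (nat_lit 3669) (.e (nat_lit 2281) (nat_lit 150) (.e (nat_lit 770072) (nat_lit 8) (.e (nat_lit 65585) (nat_lit 7) (.e (nat_lit 319533) (nat_lit 16) (.e (nat_lit 286753) (nat_lit 10) (.e (nat_lit 344160) (nat_lit 37) (.e (nat_lit 647195) (nat_lit 9) (.e (nat_lit 982) (nat_lit 81) .nil)))))))) (.g (nat_lit 6) .nil .nil))) 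
(.lf (nat_lit 92136) (.g (nat_lit 2826) (.e (nat_lit 2281) (nat_lit 150) (.e (nat_lit 770072) (nat_lit 8) (.e (nat_lit 65586) (nat_lit 7) (.e (nat_lit 319534) (nat_lit 16) (.e (nat_lit 286753) (nat_lit 10) (.e (nat_lit 344160) (nat_lit 37) (.e (nat_lit 647190) (nat_lit 9) (.e (nat_lit 1035) (nat_lit 81) .nil)))))))) (.g (nat_lit 4) .nil .nil)))) (.nd (nat_lit 5) 
(.lf (nat_lit 92120) (.g (nat_lit 2219) (.e (nat_lit 2281) (nat_lit 150) (.e (nat_lit 770072) (nat_lit 8) (.e (nat_lit 65586) (nat_lit 7) (.e (nat_lit 319531) (nat_lit 16) (.e (nat_lit 286755) (nat_lit 10) .nil))))) .nil)) 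
(.lf (nat_lit 92152) (.g (nat_lit 2245) (.e (nat_lit 2281) (nat_lit 150) (.e (nat_lit 770072) (nat_lit 8) (.e (nat_lit 65610) (nat_lit 10) (.e (nat_lit 344090) (nat_lit 18) (.e (nat_lit 7119) (nat_lit 382) (.e (nat_lit 7936) (nat_lit 90) (.e (nat_lit 81942) (nat_lit 20) .nil))))))) (.g (nat_lit 4) .nil .nil)))))) (.nd (nat_lit 3) (.nd (nat_lit 4) (.nd (nat_lit 5) 
(.lf (nat_lit 92100) (.g (nat_lit 2434) (.e (nat_lit 2281) (nat_lit 150) (.e (nat_lit 770072) (nat_lit 8) (.e (nat_lit 65585) (nat_lit 7) (.e (nat_lit 319533) (nat_lit 16) (.e (nat_lit 286753) (nat_lit 10) (.e (nat_lit 344160) (nat_lit 37) (.e (nat_lit 647190) (nat_lit 9) (.e (nat_lit 1025) (nat_lit 81) .nil)))))))) (.g (nat_lit 4) .nil .nil))) 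
(.lf (nat_lit 92132) (.g (nat_lit 2590) (.e (nat_lit 2281) (nat_lit 150) (.e (nat_lit 770072) (nat_lit 8) (.e (nat_lit 65586) (nat_lit 7) (.e (nat_lit 319531) (nat_lit 16) (.e (nat_lit 286759) (nat_lit 12) (.e (nat_lit 385047) (nat_lit 21) (.e (nat_lit 7936) (nat_lit 412) (.e (nat_lit 57354) (nat_lit 0) .nil)))))))) (.g (nat_lit 4) .nil .nil)))) (.nd (nat_lit 5) 
(.lf (nat_lit 92116) (.g (nat_lit 2769) (.e (nat_lit 2281) (nat_lit 150) (.e (nat_lit 770072) (nat_lit 8) (.e (nat_lit 65586) (nat_lit 7) (.e (nat_lit 319531) (nat_lit 16) (.e (nat_lit 286753) (nat_lit 10) (.e (nat_lit 344160) (nat_lit 37) (.e (nat_lit 647190) (nat_lit 9) (.e (nat_lit 1022) (nat_lit 81) .nil)))))))) (.g (nat_lit 4) .nil .nil))) 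
(.lf (nat_lit 92148) (.g (nat_lit 985) (.e (nat_lit 2281) (nat_lit 150) (.e (nat_lit 770072) (nat_lit 8) (.e (nat_lit 65604) (nat_lit 9) (.e (nat_lit 335997) (nat_lit 1) .nil)))) .nil)))) (.nd (nat_lit 4) (.nd (nat_lit 5) 
(.lf (nat_lit 92108) (.g (nat_lit 5414) (.e (nat_lit 2281) (nat_lit 150) (.e (nat_lit 770072) (nat_lit 8) (.e (nat_lit 65585) (nat_lit 7) (.e (nat_lit 319534) (nat_lit 16) (.e (nat_lit 286756) (nat_lit 10) (.e (nat_lit 344160) (nat_lit 37) (.e (nat_lit 647190) (nat_lit 9) (.e (nat_lit 1035) (nat_lit 81) .nil)))))))) (.g (nat_lit 7) .nil .nil))) 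
(.lf (nat_lit 92140) (.g (nat_lit 3974) (.e (nat_lit 2281) (nat_lit 150) (.e (nat_lit 770072) (nat_lit 8) (.e (nat_lit 65586) (nat_lit 7) (.e (nat_lit 319534) (nat_lit 16) (.e (nat_lit 286756) (nat_lit 10) (.e (nat_lit 344160) (nat_lit 37) (.e (nat_lit 647190) (nat_lit 9) (.e (nat_lit 1025) (nat_lit 81) .nil)))))))) (.g (nat_lit 6) .nil .nil)))) (.nd (nat_lit 5) 
(.lf (nat_lit 92124) (.g (nat_lit 2691) (.e (nat_lit 2281) (nat_lit 150) (.e (nat_lit 770072) (nat_lit 8) (.e (nat_lit 65586) (nat_lit 7) (.e (nat_lit 319531) (nat_lit 16) (.e (nat_lit 286756) (nat_lit 10) (.e (nat_lit 344160) (nat_lit 37) (.e (nat_lit 647188) (nat_lit 9) (.e (nat_lit 1035) (nat_lit 81) .nil)))))))) (.g (nat_lit 4) .nil .nil))) 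
(.lf (nat_lit 92156) (.g (nat_lit 3135) (.e (nat_lit 2281) (nat_lit 150) (.e (nat_lit 770072) (nat_lit 8) (.e (nat_lit 65610) (nat_lit 10) (.e (nat_lit 344090) (nat_lit 18) (.e (nat_lit 7124) (nat_lit 382) (.e (nat_lit 1222) (nat_lit 90) (.e (nat_lit 81943) (nat_lit 20) .nil))))))) (.g (nat_lit 6) .nil .nil))))))) (.nd (nat_lit 2) (.nd (nat_lit 3) (.nd (nat_lit 4) (.nd (nat_lit 5) 
(.lf (nat_lit 92098) (.g (nat_lit 3118) (.e (nat_lit 2281) (nat_lit 150) (.e (nat_lit 770072) (nat_lit 8) (.e (nat_lit 65583) (nat_lit 7) (.e (nat_lit 319534) (nat_lit 16) (.e (nat_lit 286756) (nat_lit 10) (.e (nat_lit 344160) (nat_lit 37) (.e (nat_lit 647195) (nat_lit 9) (.e (nat_lit 7936) (nat_lit 81) .nil)))))))) (.g (nat_lit 4) .nil .nil))) 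
(.lf (nat_lit 92130) (.g (nat_lit 2711) (.e (nat_lit 2281) (nat_lit 150) (.e (nat_lit 770072) (nat_lit 8) (.e (nat_lit 65586) (nat_lit 7) (.e (nat_lit 319531) (nat_lit 16) (.e (nat_lit 286756) (nat_lit 10) (.e (nat_lit 344160) (nat_lit 37) (.e (nat_lit 647195) (nat_lit 9) (.e (nat_lit 7936) (nat_lit 81) .nil)))))))) (.g (nat_lit 4) .nil .nil)))) (.nd (nat_lit 5) 
(.lf (nat_lit 92114) (.g (nat_lit 2169) (.e (nat_lit 2281) (nat_lit 150) (.e (nat_lit 770072) (nat_lit 8) (.e (nat_lit 65586) (nat_lit 7) (.e (nat_lit 319531) (nat_lit 16) (.e (nat_lit 286751) (nat_lit 10) (.e (nat_lit 344160) (nat_lit 37) (.e (nat_lit 647190) (nat_lit 9) (.e (nat_lit 1047) (nat_lit 81) .nil)))))))) (.g (nat_lit 4) .nil .nil))) 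
(.lf (nat_lit 92146) (.g (nat_lit 509) (.e (nat_lit 2281) (nat_lit 150) (.e (nat_lit 770072) (nat_lit 8) (.e (nat_lit 65598) (nat_lit 9) .nil))) .nil)))) (.nd (nat_lit 4) (.nd (nat_lit 5) 
(.lf (nat_lit 92106) (.g (nat_lit 3424) (.e (nat_lit 2281) (nat_lit 150) (.e (nat_lit 770072) (nat_lit 8) (.e (nat_lit 65585) (nat_lit 7) (.e (nat_lit 319534) (nat_lit 16) (.e (nat_lit 286756) (nat_lit 10) (.e (nat_lit 344160) (nat_lit 37) (.e (nat_lit 647190) (nat_lit 9) (.e (nat_lit 1022) (nat_lit 81) .nil)))))))) (.g (nat_lit 5) .nil .nil))) 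
(.lf (nat_lit 92138) (.g (nat_lit 2053) (.e (nat_lit 2281) (nat_lit 150) (.e (nat_lit 770072) (nat_lit 8) (.e (nat_lit 65586) (nat_lit 7) (.e (nat_lit 319534) (nat_lit 16) (.e (nat_lit 286756) (nat_lit 10) (.e (nat_lit 344160) (nat_lit 37) (.e (nat_lit 647190) (nat_lit 9) (.e (nat_lit 982) (nat_lit 81) .nil)))))))) (.g (nat_lit 4) .nil .nil)))) (.nd (nat_lit 5) 
(.lf (nat_lit 92122) (.g (nat_lit 2349) (.e (nat_lit 2281) (nat_lit 150) (.e (nat_lit 770072) (nat_lit 8) (.e (nat_lit 65586) (nat_lit 7) (.e (nat_lit 319531) (nat_lit 16) (.e (nat_lit 286755) (nat_lit 10) (.e (nat_lit 344160) (nat_lit 37) (.e (nat_lit 647195) (nat_lit 9) (.e (nat_lit 982) (nat_lit 81) .nil)))))))) (.g (nat_lit 4) .nil .nil))) 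
(.lf (nat_lit 92154) (.g (nat_lit 2546) (.e (nat_lit 2281) (nat_lit 150) (.e (nat_lit 770072) (nat_lit 8) (.e (nat_lit 65610) (nat_lit 10) (.e (nat_lit 344090) (nat_lit 18) (.e (nat_lit 7122) (nat_lit 382) (.e (nat_lit 7936) (nat_lit 90) (.e (nat_lit 81943) (nat_lit 20) .nil))))))) (.g (nat_lit 5) .nil .nil)))))) (.nd (nat_lit 3) (.nd (nat_lit 4) (.nd (nat_lit 5) 
(.lf (nat_lit 92102) (.g (nat_lit 4001) (.e (nat_lit 2281) (nat_lit 150) (.e (nat_lit 770072) (nat_lit 8) (.e (nat_lit 65585) (nat_lit 7) (.e (nat_lit 319533) (nat_lit 16) (.e (nat_lit 286753) (nat_lit 10) (.e (nat_lit 344160) (nat_lit 37) (.e (nat_lit 647190) (nat_lit 9) (.e (nat_lit 1035) (nat_lit 81) .nil)))))))) (.g (nat_lit 7) .nil .nil))) 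
(.lf (nat_lit 92134) (.g (nat_lit 2321) (.e (nat_lit 2281) (nat_lit 150) (.e (nat_lit 770072) (nat_lit 8) (.e (nat_lit 65586) (nat_lit 7) (.e (nat_lit 319533) (nat_lit 16) (.e (nat_lit 286753) (nat_lit 10) (.e (nat_lit 344160) (nat_lit 37) (.e (nat_lit 647190) (nat_lit 9) (.e (nat_lit 1047) (nat_lit 81) .nil)))))))) (.g (nat_lit 4) .nil .nil)))) (.nd (nat_lit 5) 
(.lf (nat_lit 92118) (.g (nat_lit 2729) (.e (nat_lit 2281) (nat_lit 150) (.e (nat_lit 770072) (nat_lit 8) (.e (nat_lit 65586) (nat_lit 7) (.e (nat_lit 319531) (nat_lit 16) (.e (nat_lit 286753) (nat_lit 10) (.e (nat_lit 344160) (nat_lit 37) (.e (nat_lit 647190) (nat_lit 9) (.e (nat_lit 1048) (nat_lit 81) .nil)))))))) (.g (nat_lit 4) .nil .nil))) 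
(.lf (nat_lit 92150) (.g (nat_lit 1539) (.e (nat_lit 2281) (nat_lit 150) (.e (nat_lit 770072) (nat_lit 8) (.e (nat_lit 65609) (nat_lit 10) (.e (nat_lit 344177) (nat_lit 43) (.e (nat_lit 770074) (nat_lit 10) .nil))))) .nil)))) (.nd (nat_lit 4) (.nd (nat_lit 5) 
(.lf (nat_lit 92110) (.g (nat_lit 4078) (.e (nat_lit 2281) (nat_lit 150) (.e (nat_lit 770072) (nat_lit 8) (.e (nat_lit 65585) (nat_lit 7) (.e (nat_lit 319534) (nat_lit 16) (.e (nat_lit 286756) (nat_lit 10) (.e (nat_lit 344160) (nat_lit 37) (.e (nat_lit 647190) (nat_lit 9) (.e (nat_lit 1048) (nat_lit 81) .nil)))))))) (.g (nat_lit 6) .nil .nil))) 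
(.lf (nat_lit 92142) (.g (nat_lit 4128) (.e (nat_lit 2281) (nat_lit 150) (.e (nat_lit 770072) (nat_lit 8) (.e (nat_lit 65586) (nat_lit 7) (.e (nat_lit 319534) (nat_lit 16) (.e (nat_lit 286756) (nat_lit 10) (.e (nat_lit 344160) (nat_lit 37) (.e (nat_lit 647190) (nat_lit 9) (.e (nat_lit 1048) (nat_lit 81) .nil)))))))) (.g (nat_lit 6) .nil .nil)))) (.nd (nat_lit 5) 
(.lf (nat_lit 92126) (.g (nat_lit 3991) (.e (nat_lit 2281) (nat_lit 150) (.e (nat_lit 770072) (nat_lit 8) (.e (nat_lit 65586) (nat_lit 7) (.e (nat_lit 319531) (nat_lit 16) (.e (nat_lit 286756) (nat_lit 10) (.e (nat_lit 344160) (nat_lit 37) (.e (nat_lit 647190) (nat_lit 9) (.e (nat_lit 1025) (nat_lit 81) .nil)))))))) (.g (nat_lit 6) .nil .nil))) 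
(.lf (nat_lit 92158) (.g (nat_lit 2092) (.e (nat_lit 2281) (nat_lit 150) (.e (nat_lit 770072) (nat_lit 8) (.e (nat_lit 65610) (nat_lit 10) (.e (nat_lit 344090) (nat_lit 18) (.e (nat_lit 7125) (nat_lit 382) (.e (nat_lit 1222) (nat_lit 90) (.e (nat_lit 81939) (nat_lit 20) .nil))))))) (.g (nat_lit 4) .nil .nil)))))))) 
(.nd (nat_lit 1) (.nd (nat_lit 2) (.nd (nat_lit 3) (.nd (nat_lit 4) (.nd (nat_lit 5) 
(.lf (nat_lit 92097) (.g (nat_lit 5159) (.e (nat_lit 2281) (nat_lit 150) (.e (nat_lit 770072) (nat_lit 8) (.e (nat_lit 65583) (nat_lit 7) (.e (nat_lit 319534) (nat_lit 16) (.e (nat_lit 286756) (nat_lit 10) (.e (nat_lit 344160) (nat_lit 37) (.e (nat_lit 647195) (nat_lit 9) (.e (nat_lit 982) (nat_lit 81) .nil)))))))) (.g (nat_lit 7) .nil .nil))) 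
(.lf (nat_lit 92129) (.g (nat_lit 4719) (.e (nat_lit 2281) (nat_lit 150) (.e (nat_lit 770072) (nat_lit 8) (.e (nat_lit 65586) (nat_lit 7) (.e (nat_lit 319531) (nat_lit 16) (.e (nat_lit 286756) (nat_lit 10) (.e (nat_lit 344160) (nat_lit 37) (.e (nat_lit 647195) (nat_lit 9) (.e (nat_lit 982) (nat_lit 81) .nil)))))))) (.g (nat_lit 7) .nil .nil)))) (.nd (nat_lit 5) 
(.lf (nat_lit 92113) (.g (nat_lit 2119) (.e (nat_lit 2281) (nat_lit 150) (.e (nat_lit 770072) (nat_lit 8) (.e (nat_lit 65586) (nat_lit 7) (.e (nat_lit 319531) (nat_lit 16) (.e (nat_lit 286751) (nat_lit 10) .nil))))) .nil)) 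
(.lf (nat_lit 92145) (.g (nat_lit 2239) (.e (nat_lit 2281) (nat_lit 150) (.e (nat_lit 770072) (nat_lit 8) (.e (nat_lit 65591) (nat_lit 9) (.e (nat_lit 336369) (nat_lit 27) (.e (nat_lit 426173) (nat_lit 7) (.e (nat_lit 417536) (nat_lit 16) (.e (nat_lit 286728) (nat_lit 0) .nil))))))) (.g (nat_lit 4) .nil .nil))))) (.nd (nat_lit 4) (.nd (nat_lit 5) 
(.lf (nat_lit 92105) (.g (nat_lit 2625) (.e (nat_lit 2281) (nat_lit 150) (.e (nat_lit 770072) (nat_lit 8) (.e (nat_lit 65585) (nat_lit 7) (.e (nat_lit 319534) (nat_lit 16) (.e (nat_lit 286756) (nat_lit 10) (.e (nat_lit 344160) (nat_lit 37) (.e (nat_lit 647188) (nat_lit 9) (.e (nat_lit 1035) (nat_lit 81) .nil)))))))) (.g (nat_lit 4) .nil .nil))) 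
(.lf (nat_lit 92137) (.g (nat_lit 2694) (.e (nat_lit 2281) (nat_lit 150) (.e (nat_lit 770072) (nat_lit 8) (.e (nat_lit 65586) (nat_lit 7) (.e (nat_lit 319534) (nat_lit 16) (.e (nat_lit 286756) (nat_lit 10) (.e (nat_lit 344160) (nat_lit 37) (.e (nat_lit 647188) (nat_lit 9) (.e (nat_lit 1035) (nat_lit 81) .nil)))))))) (.g (nat_lit 4) .nil .nil)))) (.nd (nat_lit 5) 
(.lf (nat_lit 92121) (.g (nat_lit 2590) (.e (nat_lit 2281) (nat_lit 150) (.e (nat_lit 770072) (nat_lit 8) (.e (nat_lit 65586) (nat_lit 7) (.e (nat_lit 319531) (nat_lit 16) (.e (nat_lit 286755) (nat_lit 10) (.e (nat_lit 344160) (nat_lit 37) (.e (nat_lit 647190) (nat_lit 9) (.e (nat_lit 1035) (nat_lit 81) .nil)))))))) (.g (nat_lit 4) .nil .nil))) 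
(.lf (nat_lit 92153) (.g (nat_lit 2420) (.e (nat_lit 2281) (nat_lit 150) (.e (nat_lit 770072) (nat_lit 8) (.e (nat_lit 65610) (nat_lit 10) (.e (nat_lit 344090) (nat_lit 18) (.e (nat_lit 7122) (nat_lit 382) (.e (nat_lit 7936) (nat_lit 90) (.e (nat_lit 81939) (nat_lit 20) .nil))))))) (.g (nat_lit 5) .nil .nil)))))) (.nd (nat_lit 3) (.nd (nat_lit 4) (.nd (nat_lit 5) 
(.lf (nat_lit 92101) (.g (nat_lit 2129) (.e (nat_lit 2281) (nat_lit 150) (.e (nat_lit 770072) (nat_lit 8) (.e (nat_lit 65585) (nat_lit 7) (.e (nat_lit 319533) (nat_lit 16) (.e (nat_lit 286753) (nat_lit 10) (.e (nat_lit 344160) (nat_lit 37) (.e (nat_lit 647190) (nat_lit 9) (.e (nat_lit 1032) (nat_lit 81) .nil)))))))) (.g (nat_lit 4) .nil .nil))) 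
(.lf (nat_lit 92133) (.g (nat_lit 3572) (.e (nat_lit 2281) (nat_lit 150) (.e (nat_lit 770072) (nat_lit 8) (.e (nat_lit 65586) (nat_lit 7) (.e (nat_lit 319533) (nat_lit 16) (.e (nat_lit 286753) (nat_lit 10) (.e (nat_lit 344160) (nat_lit 37) (.e (nat_lit 647190) (nat_lit 9) (.e (nat_lit 1035) (nat_lit 81) .nil)))))))) (.g (nat_lit 6) .nil .nil)))) (.nd (nat_lit 5) 
(.lf (nat_lit 92117) (.g (nat_lit 2914) (.e (nat_lit 2281) (nat_lit 150) (.e (nat_lit 770072) (nat_lit 8) (.e (nat_lit 65586) (nat_lit 7) (.e (nat_lit 319531) (nat_lit 16) (.e (nat_lit 286753) (nat_lit 10) (.e (nat_lit 344160) (nat_lit 37) (.e (nat_lit 647190) (nat_lit 9) (.e (nat_lit 1047) (nat_lit 81) .nil)))))))) (.g (nat_lit 4) .nil .nil))) 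
(.lf (nat_lit 92149) (.g (nat_lit 1830) (.e (nat_lit 2281) (nat_lit 150) (.e (nat_lit 770072) (nat_lit 8) (.e (nat_lit 65604) (nat_lit 9) (.e (nat_lit 335997) (nat_lit 1) (.e (nat_lit 57655) (nat_lit 152) .nil))))) .nil)))) (.nd (nat_lit 4) (.nd (nat_lit 5) 
(.lf (nat_lit 92109) (.g (nat_lit 4265) (.e (nat_lit 2281) (nat_lit 150) (.e (nat_lit 770072) (nat_lit 8) (.e (nat_lit 65585) (nat_lit 7) (.e (nat_lit 319534) (nat_lit 16) (.e (nat_lit 286756) (nat_lit 10) (.e (nat_lit 344160) (nat_lit 37) (.e (nat_lit 647190) (nat_lit 9) (.e (nat_lit 1047) (nat_lit 81) .nil)))))))) (.g (nat_lit 6) .nil .nil))) 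
(.lf (nat_lit 92141) (.g (nat_lit 3234) (.e (nat_lit 2281) (nat_lit 150) (.e (nat_lit 770072) (nat_lit 8) (.e (nat_lit 65586) (nat_lit 7) (.e (nat_lit 319534) (nat_lit 16) (.e (nat_lit 286756) (nat_lit 10) (.e (nat_lit 344160) (nat_lit 37) (.e (nat_lit 647190) (nat_lit 9) (.e (nat_lit 1030) (nat_lit 81) .nil)))))))) (.g (nat_lit 5) .nil .nil)))) (.nd (nat_lit 5) 
(.lf (nat_lit 92125) (.g (nat_lit 3510) (.e (nat_lit 2281) (nat_lit 150) (.e (nat_lit 770072) (nat_lit 8) (.e (nat_lit 65586) (nat_lit 7) (.e (nat_lit 319531) (nat_lit 16) (.e (nat_lit 286756) (nat_lit 10) (.e (nat_lit 344160) (nat_lit 37) (.e (nat_lit 647190) (nat_lit 9) (.e (nat_lit 1022) (nat_lit 81) .nil)))))))) (.g (nat_lit 5) .nil .nil))) 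
(.lf (nat_lit 92157) (.g (nat_lit 2383) (.e (nat_lit 2281) (nat_lit 150) (.e (nat_lit 770072) (nat_lit 8) (.e (nat_lit 65610) (nat_lit 10) (.e (nat_lit 344090) (nat_lit 18) (.e (nat_lit 7124) (nat_lit 382) (.e (nat_lit 7936) (nat_lit 90) (.e (nat_lit 81939) (nat_lit 20) .nil))))))) (.g (nat_lit 5) .nil .nil))))))) (.nd (nat_lit 2) (.nd (nat_lit 3) (.nd (nat_lit 4) (.nd (nat_lit 5) 
(.lf (nat_lit 92099) (.g (nat_lit 2605) (.e (nat_lit 2281) (nat_lit 150) (.e (nat_lit 770072) (nat_lit 8) (.e (nat_lit 65585) (nat_lit 7) (.e (nat_lit 319533) (nat_lit 16) (.e (nat_lit 286753) (nat_lit 10) (.e (nat_lit 344160) (nat_lit 37) (.e (nat_lit 647190) (nat_lit 9) (.e (nat_lit 1022) (nat_lit 81) .nil)))))))) (.g (nat_lit 4) .nil .nil))) 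
(.lf (nat_lit 92131) (.g (nat_lit 2577) (.e (nat_lit 2281) (nat_lit 150) (.e (nat_lit 770072) (nat_lit 8) (.e (nat_lit 65586) (nat_lit 7) (.e (nat_lit 319531) (nat_lit 16) (.e (nat_lit 286757) (nat_lit 11) (.e (nat_lit 368665) (nat_lit 18) (.e (nat_lit 5571) (nat_lit 308) (.e (nat_lit 57354) (nat_lit 0) .nil)))))))) (.g (nat_lit 4) .nil .nil)))) (.nd (nat_lit 5) 
(.lf (nat_lit 92115) (.g (nat_lit 3180) (.e (nat_lit 2281) (nat_lit 150) (.e (nat_lit 770072) (nat_lit 8) (.e (nat_lit 65586) (nat_lit 7) (.e (nat_lit 319531) (nat_lit 16) (.e (nat_lit 286751) (nat_lit 10) (.e (nat_lit 344160) (nat_lit 37) (.e (nat_lit 647195) (nat_lit 9) (.e (nat_lit 982) (nat_lit 81) .nil)))))))) (.g (nat_lit 5) .nil .nil))) 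
(.lf (nat_lit 92147) (.g (nat_lit 565) (.e (nat_lit 2281) (nat_lit 150) (.e (nat_lit 770072) (nat_lit 8) (.e (nat_lit 65604) (nat_lit 9) .nil))) .nil)))) (.nd (nat_lit 4) (.nd (nat_lit 5) 
(.lf (nat_lit 92107) (.g (nat_lit 3924) (.e (nat_lit 2281) (nat_lit 150) (.e (nat_lit 770072) (nat_lit 8) (.e (nat_lit 65585) (nat_lit 7) (.e (nat_lit 319534) (nat_lit 16) (.e (nat_lit 286756) (nat_lit 10) (.e (nat_lit 344160) (nat_lit 37) (.e (nat_lit 647190) (nat_lit 9) (.e (nat_lit 1025) (nat_lit 81) .nil)))))))) (.g (nat_lit 6) .nil .nil))) 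
(.lf (nat_lit 92139) (.g (nat_lit 3493) (.e (nat_lit 2281) (nat_lit 150) (.e (nat_lit 770072) (nat_lit 8) (.e (nat_lit 65586) (nat_lit 7) (.e (nat_lit 319534) (nat_lit 16) (.e (nat_lit 286756) (nat_lit 10) (.e (nat_lit 344160) (nat_lit 37) (.e (nat_lit 647190) (nat_lit 9) (.e (nat_lit 1022) (nat_lit 81) .nil)))))))) (.g (nat_lit 5) .nil .nil)))) (.nd (nat_lit 5) 
(.lf (nat_lit 92123) (.g (nat_lit 2742) (.e (nat_lit 2281) (nat_lit 150) (.e (nat_lit 770072) (nat_lit 8) (.e (nat_lit 65586) (nat_lit 7) (.e (nat_lit 319531) (nat_lit 16) (.e (nat_lit 286756) (nat_lit 10) (.e (nat_lit 344090) (nat_lit 18) (.e (nat_lit 5566) (nat_lit 308) (.e (nat_lit 57354) (nat_lit 0) .nil)))))))) (.g (nat_lit 4) .nil .nil))) 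
(.lf (nat_lit 92155) (.g (nat_lit 2877) (.e (nat_lit 2281) (nat_lit 150) (.e (nat_lit 770072) (nat_lit 8) (.e (nat_lit 65610) (nat_lit 10) (.e (nat_lit 344090) (nat_lit 18) (.e (nat_lit 7122) (nat_lit 382) (.e (nat_lit 7936) (nat_lit 90) (.e (nat_lit 81947) (nat_lit 20) .nil))))))) (.g (nat_lit 5) .nil .nil)))))) (.nd (nat_lit 3) (.nd (nat_lit 4) (.nd (nat_lit 5) 
(.lf (nat_lit 92103) (.g (nat_lit 2584) (.e (nat_lit 2281) (nat_lit 150) (.e (nat_lit 770072) (nat_lit 8) (.e (nat_lit 65585) (nat_lit 7) (.e (nat_lit 319533) (nat_lit 16) (.e (nat_lit 286753) (nat_lit 10) (.e (nat_lit 344160) (nat_lit 37) (.e (nat_lit 647190) (nat_lit 9) (.e (nat_lit 1048) (nat_lit 81) .nil)))))))) (.g (nat_lit 4) .nil .nil))) 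
(.lf (nat_lit 92135) (.g (nat_lit 3198) (.e (nat_lit 2281) (nat_lit 150) (.e (nat_lit 770072) (nat_lit 8) (.e (nat_lit 65586) (nat_lit 7) (.e (nat_lit 319533) (nat_lit 16) (.e (nat_lit 286753) (nat_lit 10) (.e (nat_lit 344160) (nat_lit 37) (.e (nat_lit 647195) (nat_lit 9) (.e (nat_lit 982) (nat_lit 81) .nil)))))))) (.g (nat_lit 6) .nil .nil)))) (.nd (nat_lit 5) 
(.lf (nat_lit 92119) (.g (nat_lit 3763) (.e (nat_lit 2281) (nat_lit 150) (.e (nat_lit 770072) (nat_lit 8) (.e (nat_lit 65586) (nat_lit 7) (.e (nat_lit 319531) (nat_lit 16) (.e (nat_lit 286753) (nat_lit 10) (.e (nat_lit 344160) (nat_lit 37) (.e (nat_lit 647195) (nat_lit 9) (.e (nat_lit 982) (nat_lit 81) .nil)))))))) (.g (nat_lit 5) .nil .nil))) 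
(.lf (nat_lit 92151) (.g (nat_lit 963) (.e (nat_lit 2281) (nat_lit 150) (.e (nat_lit 770072) (nat_lit 8) (.e (nat_lit 65610) (nat_lit 10) (.e (nat_lit 344090) (nat_lit 18) .nil)))) .nil)))) (.nd (nat_lit 4) (.nd (nat_lit 5) 
(.lf (nat_lit 92111) (.g (nat_lit 4736) (.e (nat_lit 2281) (nat_lit 150) (.e (nat_lit 770072) (nat_lit 8) (.e (nat_lit 65585) (nat_lit 7) (.e (nat_lit 319534) (nat_lit 16) (.e (nat_lit 286756) (nat_lit 10) (.e (nat_lit 344160) (nat_lit 37) (.e (nat_lit 647195) (nat_lit 9) (.e (nat_lit 982) (nat_lit 81) .nil)))))))) (.g (nat_lit 7) .nil .nil))) 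
(.lf (nat_lit 92143) (.g (nat_lit 4763) (.e (nat_lit 2281) (nat_lit 150) (.e (nat_lit 770072) (nat_lit 8) (.e (nat_lit 65586) (nat_lit 7) (.e (nat_lit 319534) (nat_lit 16) (.e (nat_lit 286756) (nat_lit 10) (.e (nat_lit 344160) (nat_lit 37) (.e (nat_lit 647195) (nat_lit 9) (.e (nat_lit 982) (nat_lit 81) .nil)))))))) (.g (nat_lit 7) .nil .nil)))) (.nd (nat_lit 5) 
(.lf (nat_lit 92127) (.g (nat_lit 3251) (.e (nat_lit 2281) (nat_lit 150) (.e (nat_lit 770072) (nat_lit 8) (.e (nat_lit 65586) (nat_lit 7) (.e (nat_lit 319531) (nat_lit 16) (.e (nat_lit 286756) (nat_lit 10) (.e (nat_lit 344160) (nat_lit 37) (.e (nat_lit 647190) (nat_lit 9) (.e (nat_lit 1030) (nat_lit 81) .nil)))))))) (.g (nat_lit 5) .nil .nil))) 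
(.lf (nat_lit 92159) (.g (nat_lit 1845) (.e (nat_lit 2281) (nat_lit 150) (.e (nat_lit 770072) (nat_lit 8) (.e (nat_lit 65610) (nat_lit 10) (.e (nat_lit 344090) (nat_lit 18) (.e (nat_lit 7261) (nat_lit 384) (.e (nat_lit 57424) (nat_lit 14) (.e (nat_lit 352303) (nat_lit 20) .nil))))))) (.g (nat_lit 4) .nil .nil)))))))))

noncomputable def tv1262 : DT := (.nd (nat_lit 0) (.nd (nat_lit 1) (.nd (nat_lit 2) (.nd (nat_lit 3) (.nd (nat_lit 4) (.nd (nat_lit 5) 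
(.lf (nat_lit 92160) (.g (nat_lit 1734) (.e (nat_lit 2281) (nat_lit 150) (.e (nat_lit 770072) (nat_lit 8) (.e (nat_lit 65610) (nat_lit 10) (.e (nat_lit 344090) (nat_lit 18) (.e (nat_lit 7263) (nat_lit 384) (.e (nat_lit 57424) (nat_lit 14) (.e (nat_lit 352303) (nat_lit 20) .nil))))))) (.g (nat_lit 4) .nil .nil))) 
(.lf (nat_lit 92192) (.g (nat_lit 3506) (.e (nat_lit 2281) (nat_lit 150) (.e (nat_lit 770072) (nat_lit 8) (.e (nat_lit 65610) (nat_lit 10) (.e (nat_lit 344177) (nat_lit 43) (.e (nat_lit 770074) (nat_lit 10) (.e (nat_lit 81942) (nat_lit 20) .nil)))))) (.g (nat_lit 0) .nil .nil)))) (.nd (nat_lit 5) 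
(.lf (nat_lit 92176) (.g (nat_lit 3377) (.e (nat_lit 2281) (nat_lit 150) (.e (nat_lit 770072) (nat_lit 8) (.e (nat_lit 65610) (nat_lit 10) (.e (nat_lit 344097) (nat_lit 18) (.e (nat_lit 7270) (nat_lit 385) (.e (nat_lit 122916) (nat_lit 14) (.e (nat_lit 352296) (nat_lit 20) .nil))))))) (.g (nat_lit 5) .nil .nil))) 
(.lf (nat_lit 92208) (.g (nat_lit 3095) (.e (nat_lit 2281) (nat_lit 150) (.e (nat_lit 770072) (nat_lit 8) (.e (nat_lit 65617) (nat_lit 10) (.e (nat_lit 344091) (nat_lit 18) (.e (nat_lit 7265) (nat_lit 384) (.e (nat_lit 57424) (nat_lit 14) (.e (nat_lit 352303) (nat_lit 20) .nil))))))) (.g (nat_lit 6) .nil .nil))))) (.nd (nat_lit 4) (.nd (nat_lit 5) 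
(.lf (nat_lit 92168) (.g (nat_lit 2195) (.e (nat_lit 2281) (nat_lit 150) (.e (nat_lit 770072) (nat_lit 8) (.e (nat_lit 65610) (nat_lit 10) (.e (nat_lit 344097) (nat_lit 18) (.e (nat_lit 7146) (nat_lit 382) (.e (nat_lit 7936) (nat_lit 90) (.e (nat_lit 81939) (nat_lit 20) .nil))))))) (.g (nat_lit 4) .nil .nil))) 
(.lf (nat_lit 92200) (.g (nat_lit 2842) (.e (nat_lit 2281) (nat_lit 150) (.e (nat_lit 770072) (nat_lit 8) (.e (nat_lit 65617) (nat_lit 10) (.e (nat_lit 344091) (nat_lit 18) (.e (nat_lit 7122) (nat_lit 382) (.e (nat_lit 7936) (nat_lit 90) (.e (nat_lit 81939) (nat_lit 20) .nil))))))) (.g (nat_lit 5) .nil .nil)))) (.nd (nat_lit 5) 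
(.lf (nat_lit 92184) (.g (nat_lit 3721) (.e (nat_lit 2281) (nat_lit 150) (.e (nat_lit 770072) (nat_lit 8) (.e (nat_lit 65610) (nat_lit 10) (.e (nat_lit 344097) (nat_lit 18) (.e (nat_lit 7273) (nat_lit 385) (.e (nat_lit 122916) (nat_lit 14) (.e (nat_lit 352302) (nat_lit 20) .nil))))))) (.g (nat_lit 6) .nil .nil))) 
(.lf (nat_lit 92216) (.g (nat_lit 4264) (.e (nat_lit 2281) (nat_lit 150) (.e (nat_lit 770072) (nat_lit 8) (.e (nat_lit 65617) (nat_lit 10) (.e (nat_lit 344096) (nat_lit 18) (.e (nat_lit 7125) (nat_lit 382) (.e (nat_lit 1224) (nat_lit 90) (.e (nat_lit 81946) (nat_lit 20) .nil))))))) (.g (nat_lit 7) .nil .nil)))))) (.nd (nat_lit 3) (.nd (nat_lit 4) (.nd (nat_lit 5) 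
(.lf (nat_lit 92164) (.g (nat_lit 2587) (.e (nat_lit 2281) (nat_lit 150) (.e (nat_lit 770072) (nat_lit 8) (.e (nat_lit 65610) (nat_lit 10) (.e (nat_lit 344097) (nat_lit 18) (.e (nat_lit 7145) (nat_lit 382) (.e (nat_lit 1216) (nat_lit 90) (.e (nat_lit 81939) (nat_lit 20) .nil))))))) (.g (nat_lit 4) .nil .nil))) 
(.lf (nat_lit 92196) (.g (nat_lit 933) (.e (nat_lit 2281) (nat_lit 150) (.e (nat_lit 770072) (nat_lit 8) (.e (nat_lit 65617) (nat_lit 10) (.e (nat_lit 344091) (nat_lit 18) .nil)))) .nil))) (.nd (nat_lit 5) 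
(.lf (nat_lit 92180) (.g (nat_lit 3232) (.e (nat_lit 2281) (nat_lit 150) (.e (nat_lit 770072) (nat_lit 8) (.e (nat_lit 65610) (nat_lit 10) (.e (nat_lit 344097) (nat_lit 18) (.e (nat_lit 7271) (nat_lit 385) (.e (nat_lit 122916) (nat_lit 14) (.e (nat_lit 352303) (nat_lit 20) .nil))))))) (.g (nat_lit 6) .nil .nil))) 
(.lf (nat_lit 92212) (.g (nat_lit 2470) (.e (nat_lit 2281) (nat_lit 150) (.e (nat_lit 770072) (nat_lit 8) (.e (nat_lit 65617) (nat_lit 10) (.e (nat_lit 344096) (nat_lit 18) (.e (nat_lit 7122) (nat_lit 382) (.e (nat_lit 7936) (nat_lit 90) (.e (nat_lit 81942) (nat_lit 20) .nil))))))) (.g (nat_lit 4) .nil .nil))))) (.nd (nat_lit 4) (.nd (nat_lit 5) 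
(.lf (nat_lit 92172) (.g (nat_lit 2647) (.e (nat_lit 2281) (nat_lit 150) (.e (nat_lit 770072) (nat_lit 8) (.e (nat_lit 65610) (nat_lit 10) (.e (nat_lit 344097) (nat_lit 18) (.e (nat_lit 7160) (nat_lit 382) (.e (nat_lit 1215) (nat_lit 90) (.e (nat_lit 81939) (nat_lit 20) .nil))))))) (.g (nat_lit 4) .nil .nil))) 
(.lf (nat_lit 92204) (.g (nat_lit 2075) (.e (nat_lit 2281) (nat_lit 150) (.e (nat_lit 770072) (nat_lit 8) (.e (nat_lit 65617) (nat_lit 10) (.e (nat_lit 344091) (nat_lit 18) (.e (nat_lit 7125) (nat_lit 382) (.e (nat_lit 1222) (nat_lit 90) (.e (nat_lit 81939) (nat_lit 20) .nil))))))) (.g (nat_lit 4) .nil .nil)))) (.nd (nat_lit 5) 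
(.lf (nat_lit 92188) (.g (nat_lit 2526) (.e (nat_lit 2281) (nat_lit 150) (.e (nat_lit 770072) (nat_lit 8) (.e (nat_lit 65610) (nat_lit 10) (.e (nat_lit 344176) (nat_lit 43) (.e (nat_lit 770074) (nat_lit 10) (.e (nat_lit 81942) (nat_lit 20) .nil)))))) (.g (nat_lit 4) .nil .nil))) 
(.lf (nat_lit 92220) (.g (nat_lit 3337) (.e (nat_lit 2281) (nat_lit 150) (.e (nat_lit 770072) (nat_lit 8) (.e (nat_lit 65617) (nat_lit 10) (.e (nat_lit 344096) (nat_lit 18) (.e (nat_lit 7265) (nat_lit 384) (.e (nat_lit 57424) (nat_lit 14) (.e (nat_lit 352303) (nat_lit 20) .nil))))))) (.g (nat_lit 6) .nil .nil))))))) (.nd (nat_lit 2) (.nd (nat_lit 3) (.nd (nat_lit 4) (.nd (nat_lit 5) 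
(.lf (nat_lit 92162) (.g (nat_lit 3036) (.e (nat_lit 2281) (nat_lit 150) (.e (nat_lit 770072) (nat_lit 8) (.e (nat_lit 65610) (nat_lit 10) (.e (nat_lit 344090) (nat_lit 18) (.e (nat_lit 7265) (nat_lit 384) (.e (nat_lit 57424) (nat_lit 14) (.e (nat_lit 352303) (nat_lit 20) .nil))))))) (.g (nat_lit 6) .nil .nil))) 
(.lf (nat_lit 92194) (.g (nat_lit 706) (.e (nat_lit 2281) (nat_lit 150) (.e (nat_lit 770072) (nat_lit 8) (.e (nat_lit 65616) (nat_lit 10) (.e (nat_lit 344173) (nat_lit 42) .nil)))) .nil))) (.nd (nat_lit 5) 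
(.lf (nat_lit 92178) (.g (nat_lit 2058) (.e (nat_lit 2281) (nat_lit 150) (.e (nat_lit 770072) (nat_lit 8) (.e (nat_lit 65610) (nat_lit 10) (.e (nat_lit 344097) (nat_lit 18) (.e (nat_lit 7271) (nat_lit 385) (.e (nat_lit 122916) (nat_lit 14) (.e (nat_lit 352296) (nat_lit 20) .nil))))))) (.g (nat_lit 4) .nil .nil))) 
(.lf (nat_lit 92210) (.g (nat_lit 924) (.e (nat_lit 2281) (nat_lit 150) (.e (nat_lit 770072) (nat_lit 8) (.e (nat_lit 65617) (nat_lit 10) (.e (nat_lit 344096) (nat_lit 18) .nil)))) .nil)))) (.nd (nat_lit 4) (.nd (nat_lit 5) 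
(.lf (nat_lit 92170) (.g (nat_lit 2510) (.e (nat_lit 2281) (nat_lit 150) (.e (nat_lit 770072) (nat_lit 8) (.e (nat_lit 65610) (nat_lit 10) (.e (nat_lit 344097) (nat_lit 18) (.e (nat_lit 7146) (nat_lit 382) (.e (nat_lit 7936) (nat_lit 90) (.e (nat_lit 81946) (nat_lit 20) .nil))))))) (.g (nat_lit 4) .nil .nil))) 
(.lf (nat_lit 92202) (.g (nat_lit 2995) (.e (nat_lit 2281) (nat_lit 150) (.e (nat_lit 770072) (nat_lit 8) (.e (nat_lit 65617) (nat_lit 10) (.e (nat_lit 344091) (nat_lit 18) (.e (nat_lit 7122) (nat_lit 382) (.e (nat_lit 7936) (nat_lit 90) (.e (nat_lit 81943) (nat_lit 20) .nil))))))) (.g (nat_lit 5) .nil .nil)))) (.nd (nat_lit 5) 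
(.lf (nat_lit 92186) (.g (nat_lit 2971) (.e (nat_lit 2281) (nat_lit 150) (.e (nat_lit 770072) (nat_lit 8) (.e (nat_lit 65610) (nat_lit 10) (.e (nat_lit 344176) (nat_lit 43) (.e (nat_lit 770074) (nat_lit 10) (.e (nat_lit 81938) (nat_lit 20) .nil)))))) (.g (nat_lit 5) .nil .nil))) 
(.lf (nat_lit 92218) (.g (nat_lit 2104) (.e (nat_lit 2281) (nat_lit 150) (.e (nat_lit 770072) (nat_lit 8) (.e (nat_lit 65617) (nat_lit 10) (.e (nat_lit 344096) (nat_lit 18) (.e (nat_lit 7263) (nat_lit 384) (.e (nat_lit 57424) (nat_lit 14) (.e (nat_lit 352303) (nat_lit 20) .nil))))))) (.g (nat_lit 4) .nil .nil)))))) (.nd (nat_lit 3) (.nd (nat_lit 4) (.nd (nat_lit 5) 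
(.lf (nat_lit 92166) (.g (nat_lit 3258) (.e (nat_lit 2281) (nat_lit 150) (.e (nat_lit 770072) (nat_lit 8) (.e (nat_lit 65610) (nat_lit 10) (.e (nat_lit 344097) (nat_lit 18) (.e (nat_lit 7146) (nat_lit 382) (.e (nat_lit 1216) (nat_lit 90) (.e (nat_lit 81939) (nat_lit 20) .nil))))))) (.g (nat_lit 6) .nil .nil))) 
(.lf (nat_lit 92198) (.g (nat_lit 4082) (.e (nat_lit 2281) (nat_lit 150) (.e (nat_lit 770072) (nat_lit 8) (.e (nat_lit 65617) (nat_lit 10) (.e (nat_lit 344091) (nat_lit 18) (.e (nat_lit 7122) (nat_lit 382) (.e (nat_lit 1222) (nat_lit 90) (.e (nat_lit 81943) (nat_lit 20) .nil))))))) (.g (nat_lit 7) .nil .nil)))) (.nd (nat_lit 5) 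
(.lf (nat_lit 92182) (.g (nat_lit 3801) (.e (nat_lit 2281) (nat_lit 150) (.e (nat_lit 770072) (nat_lit 8) (.e (nat_lit 65610) (nat_lit 10) (.e (nat_lit 344097) (nat_lit 18) (.e (nat_lit 7272) (nat_lit 385) (.e (nat_lit 122916) (nat_lit 14) (.e (nat_lit 352303) (nat_lit 20) .nil))))))) (.g (nat_lit 6) .nil .nil))) 
(.lf (nat_lit 92214) (.g (nat_lit 2547) (.e (nat_lit 2281) (nat_lit 150) (.e (nat_lit 770072) (nat_lit 8) (.e (nat_lit 65617) (nat_lit 10) (.e (nat_lit 344096) (nat_lit 18) (.e (nat_lit 7124) (nat_lit 382) (.e (nat_lit 7936) (nat_lit 90) (.e (nat_lit 81939) (nat_lit 20) .nil))))))) (.g (nat_lit 5) .nil .nil))))) (.nd (nat_lit 4) (.nd (nat_lit 5) 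
(.lf (nat_lit 92174) (.g (nat_lit 2610) (.e (nat_lit 2281) (nat_lit 150) (.e (nat_lit 770072) (nat_lit 8) (.e (nat_lit 65610) (nat_lit 10) (.e (nat_lit 344097) (nat_lit 18) (.e (nat_lit 7160) (nat_lit 382) (.e (nat_lit 7936) (nat_lit 90) (.e (nat_lit 81943) (nat_lit 20) .nil))))))) (.g (nat_lit 4) .nil .nil))) 
(.lf (nat_lit 92206) (.g (nat_lit 2015) (.e (nat_lit 2281) (nat_lit 150) (.e (nat_lit 770072) (nat_lit 8) (.e (nat_lit 65617) (nat_lit 10) (.e (nat_lit 344091) (nat_lit 18) (.e (nat_lit 7263) (nat_lit 384) (.e (nat_lit 57424) (nat_lit 14) (.e (nat_lit 352303) (nat_lit 20) .nil))))))) (.g (nat_lit 4) .nil .nil)))) (.nd (nat_lit 5) 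
(.lf (nat_lit 92190) (.g (nat_lit 2947) (.e (nat_lit 2281) (nat_lit 150) (.e (nat_lit 770072) (nat_lit 8) (.e (nat_lit 65610) (nat_lit 10) (.e (nat_lit 344176) (nat_lit 43) (.e (nat_lit 770074) (nat_lit 10) (.e (nat_lit 81946) (nat_lit 20) .nil)))))) (.g (nat_lit 5) .nil .nil))) 
(.lf (nat_lit 92222) (.g (nat_lit 1735) (.e (nat_lit 2281) (nat_lit 150) (.e (nat_lit 770072) (nat_lit 8) (.e (nat_lit 65617) (nat_lit 10) (.e (nat_lit 344176) (nat_lit 43) (.e (nat_lit 770074) (nat_lit 10) .nil))))) .nil))))))) (.nd (nat_lit 1) (.nd (nat_lit 2) (.nd (nat_lit 3) (.nd (nat_lit 4) (.nd (nat_lit 5) 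
(.lf (nat_lit 92161) (.g (nat_lit 2317) (.e (nat_lit 2281) (nat_lit 150) (.e (nat_lit 770072) (nat_lit 8) (.e (nat_lit 65610) (nat_lit 10) (.e (nat_lit 344090) (nat_lit 18) (.e (nat_lit 7265) (nat_lit 384) (.e (nat_lit 57424) (nat_lit 14) (.e (nat_lit 352302) (nat_lit 20) .nil))))))) (.g (nat_lit 4) .nil .nil))) 
(.lf (nat_lit 92193) (.g (nat_lit 2924) (.e (nat_lit 2281) (nat_lit 150) (.e (nat_lit 770072) (nat_lit 8) (.e (nat_lit 65611) (nat_lit 10) (.e (nat_lit 344177) (nat_lit 43) (.e (nat_lit 770074) (nat_lit 10) (.e (nat_lit 81942) (nat_lit 20) .nil)))))) (.g (nat_lit 0) .nil .nil)))) (.nd (nat_lit 5) 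
(.lf (nat_lit 92177) (.g (nat_lit 4476) (.e (nat_lit 2281) (nat_lit 150) (.e (nat_lit 770072) (nat_lit 8) (.e (nat_lit 65610) (nat_lit 10) (.e (nat_lit 344097) (nat_lit 18) (.e (nat_lit 7270) (nat_lit 385) (.e (nat_lit 122916) (nat_lit 14) (.e (nat_lit 352303) (nat_lit 20) .nil))))))) (.g (nat_lit 0) .nil .nil))) 
(.lf (nat_lit 92209) (.g (nat_lit 3609) (.e (nat_lit 2281) (nat_lit 150) (.e (nat_lit 770072) (nat_lit 8) (.e (nat_lit 65617) (nat_lit 10) (.e (nat_lit 344095) (nat_lit 18) (.e (nat_lit 7122) (nat_lit 382) (.e (nat_lit 1222) (nat_lit 90) (.e (nat_lit 81943) (nat_lit 20) .nil))))))) (.g (nat_lit 7) .nil .nil))))) (.nd (nat_lit 4) (.nd (nat_lit 5) 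
(.lf (nat_lit 92169) (.g (nat_lit 2321) (.e (nat_lit 2281) (nat_lit 150) (.e (nat_lit 770072) (nat_lit 8) (.e (nat_lit 65610) (nat_lit 10) (.e (nat_lit 344097) (nat_lit 18) (.e (nat_lit 7146) (nat_lit 382) (.e (nat_lit 7936) (nat_lit 90) (.e (nat_lit 81943) (nat_lit 20) .nil))))))) (.g (nat_lit 4) .nil .nil))) 
(.lf (nat_lit 92201) (.g (nat_lit 1950) (.e (nat_lit 2281) (nat_lit 150) (.e (nat_lit 770072) (nat_lit 8) (.e (nat_lit 65617) (nat_lit 10) (.e (nat_lit 344091) (nat_lit 18) (.e (nat_lit 7122) (nat_lit 382) (.e (nat_lit 7936) (nat_lit 90) (.e (nat_lit 81942) (nat_lit 20) .nil))))))) (.g (nat_lit 4) .nil .nil)))) (.nd (nat_lit 5) 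
(.lf (nat_lit 92185) (.g (nat_lit 3422) (.e (nat_lit 2281) (nat_lit 150) (.e (nat_lit 770072) (nat_lit 8) (.e (nat_lit 65610) (nat_lit 10) (.e (nat_lit 344097) (nat_lit 18) (.e (nat_lit 7273) (nat_lit 385) (.e (nat_lit 122916) (nat_lit 14) (.e (nat_lit 352303) (nat_lit 20) .nil))))))) (.g (nat_lit 6) .nil .nil))) 
(.lf (nat_lit 92217) (.g (nat_lit 1913) (.e (nat_lit 2281) (nat_lit 150) (.e (nat_lit 770072) (nat_lit 8) (.e (nat_lit 65617) (nat_lit 10) (.e (nat_lit 344096) (nat_lit 18) (.e (nat_lit 7261) (nat_lit 384) (.e (nat_lit 57424) (nat_lit 14) (.e (nat_lit 352303) (nat_lit 20) .nil))))))) (.g (nat_lit 4) .nil .nil)))))) (.nd (nat_lit 3) (.nd (nat_lit 4) (.nd (nat_lit 5) 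
(.lf (nat_lit 92165) (.g (nat_lit 2726) (.e (nat_lit 2281) (nat_lit 150) (.e (nat_lit 770072) (nat_lit 8) (.e (nat_lit 65610) (nat_lit 10) (.e (nat_lit 344097) (nat_lit 18) (.e (nat_lit 7145) (nat_lit 382) (.e (nat_lit 1216) (nat_lit 90) (.e (nat_lit 81943) (nat_lit 20) .nil))))))) (.g (nat_lit 4) .nil .nil))) 
(.lf (nat_lit 92197) (.g (nat_lit 2291) (.e (nat_lit 2281) (nat_lit 150) (.e (nat_lit 770072) (nat_lit 8) (.e (nat_lit 65617) (nat_lit 10) (.e (nat_lit 344091) (nat_lit 18) (.e (nat_lit 7119) (nat_lit 382) (.e (nat_lit 7936) (nat_lit 90) (.e (nat_lit 81942) (nat_lit 20) .nil))))))) (.g (nat_lit 4) .nil .nil)))) (.nd (nat_lit 5) 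
(.lf (nat_lit 92181) (.g (nat_lit 2600) (.e (nat_lit 2281) (nat_lit 150) (.e (nat_lit 770072) (nat_lit 8) (.e (nat_lit 65610) (nat_lit 10) (.e (nat_lit 344097) (nat_lit 18) (.e (nat_lit 7272) (nat_lit 385) (.e (nat_lit 122916) (nat_lit 14) (.e (nat_lit 352296) (nat_lit 20) .nil))))))) (.g (nat_lit 4) .nil .nil))) 
(.lf (nat_lit 92213) (.g (nat_lit 3347) (.e (nat_lit 2281) (nat_lit 150) (.e (nat_lit 770072) (nat_lit 8) (.e (nat_lit 65617) (nat_lit 10) (.e (nat_lit 344096) (nat_lit 18) (.e (nat_lit 7124) (nat_lit 382) (.e (nat_lit 1222) (nat_lit 90) (.e (nat_lit 81943) (nat_lit 20) .nil))))))) (.g (nat_lit 7) .nil .nil))))) (.nd (nat_lit 4) (.nd (nat_lit 5) 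
(.lf (nat_lit 92173) (.g (nat_lit 2484) (.e (nat_lit 2281) (nat_lit 150) (.e (nat_lit 770072) (nat_lit 8) (.e (nat_lit 65610) (nat_lit 10) (.e (nat_lit 344097) (nat_lit 18) (.e (nat_lit 7160) (nat_lit 382) (.e (nat_lit 7936) (nat_lit 90) (.e (nat_lit 81939) (nat_lit 20) .nil))))))) (.g (nat_lit 4) .nil .nil))) 
(.lf (nat_lit 92205) (.g (nat_lit 1751) (.e (nat_lit 2281) (nat_lit 150) (.e (nat_lit 770072) (nat_lit 8) (.e (nat_lit 65617) (nat_lit 10) (.e (nat_lit 344091) (nat_lit 18) (.e (nat_lit 7261) (nat_lit 384) (.e (nat_lit 57424) (nat_lit 14) (.e (nat_lit 352303) (nat_lit 20) .nil))))))) (.g (nat_lit 4) .nil .nil)))) (.nd (nat_lit 5) 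
(.lf (nat_lit 92189) (.g (nat_lit 2683) (.e (nat_lit 2281) (nat_lit 150) (.e (nat_lit 770072) (nat_lit 8) (.e (nat_lit 65610) (nat_lit 10) (.e (nat_lit 344176) (nat_lit 43) (.e (nat_lit 770074) (nat_lit 10) (.e (nat_lit 81943) (nat_lit 20) .nil)))))) (.g (nat_lit 5) .nil .nil))) 
(.lf (nat_lit 92221) (.g (nat_lit 2232) (.e (nat_lit 2281) (nat_lit 150) (.e (nat_lit 770072) (nat_lit 8) (.e (nat_lit 65617) (nat_lit 10) (.e (nat_lit 344174) (nat_lit 42) (.e (nat_lit 769792) (nat_lit 10) (.e (nat_lit 81939) (nat_lit 20) .nil)))))) (.g (nat_lit 4) .nil .nil))))))) (.nd (nat_lit 2) (.nd (nat_lit 3) (.nd (nat_lit 4) (.nd (nat_lit 5) 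
(.lf (nat_lit 92163) (.g (nat_lit 2159) (.e (nat_lit 2281) (nat_lit 150) (.e (nat_lit 770072) (nat_lit 8) (.e (nat_lit 65610) (nat_lit 10) (.e (nat_lit 344097) (nat_lit 18) (.e (nat_lit 7144) (nat_lit 382) (.e (nat_lit 1217) (nat_lit 90) (.e (nat_lit 81946) (nat_lit 20) .nil))))))) (.g (nat_lit 4) .nil .nil))) 
(.lf (nat_lit 92195) (.g (nat_lit 2911) (.e (nat_lit 2281) (nat_lit 150) (.e (nat_lit 770072) (nat_lit 8) (.e (nat_lit 65616) (nat_lit 10) (.e (nat_lit 344177) (nat_lit 43) (.e (nat_lit 770074) (nat_lit 10) (.e (nat_lit 81942) (nat_lit 20) .nil)))))) (.g (nat_lit 0) .nil .nil)))) (.nd (nat_lit 5) 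
(.lf (nat_lit 92179) (.g (nat_lit 3615) (.e (nat_lit 2281) (nat_lit 150) (.e (nat_lit 770072) (nat_lit 8) (.e (nat_lit 65610) (nat_lit 10) (.e (nat_lit 344097) (nat_lit 18) (.e (nat_lit 7271) (nat_lit 385) (.e (nat_lit 122916) (nat_lit 14) (.e (nat_lit 352302) (nat_lit 20) .nil))))))) (.g (nat_lit 6) .nil .nil))) 
(.lf (nat_lit 92211) (.g (nat_lit 2382) (.e (nat_lit 2281) (nat_lit 150) (.e (nat_lit 770072) (nat_lit 8) (.e (nat_lit 65617) (nat_lit 10) (.e (nat_lit 344096) (nat_lit 18) (.e (nat_lit 7119) (nat_lit 382) (.e (nat_lit 7936) (nat_lit 90) (.e (nat_lit 81942) (nat_lit 20) .nil))))))) (.g (nat_lit 4) .nil .nil))))) (.nd (nat_lit 4) (.nd (nat_lit 5) 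
(.lf (nat_lit 92171) (.g (nat_lit 2652) (.e (nat_lit 2281) (nat_lit 150) (.e (nat_lit 770072) (nat_lit 8) (.e (nat_lit 65610) (nat_lit 10) (.e (nat_lit 344097) (nat_lit 18) (.e (nat_lit 7146) (nat_lit 382) (.e (nat_lit 7936) (nat_lit 90) (.e (nat_lit 81947) (nat_lit 20) .nil))))))) (.g (nat_lit 4) .nil .nil))) 
(.lf (nat_lit 92203) (.g (nat_lit 3111) (.e (nat_lit 2281) (nat_lit 150) (.e (nat_lit 770072) (nat_lit 8) (.e (nat_lit 65617) (nat_lit 10) (.e (nat_lit 344091) (nat_lit 18) (.e (nat_lit 7124) (nat_lit 382) (.e (nat_lit 1222) (nat_lit 90) (.e (nat_lit 81943) (nat_lit 20) .nil))))))) (.g (nat_lit 6) .nil .nil)))) (.nd (nat_lit 5) 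
(.lf (nat_lit 92187) (.g (nat_lit 2577) (.e (nat_lit 2281) (nat_lit 150) (.e (nat_lit 770072) (nat_lit 8) (.e (nat_lit 65610) (nat_lit 10) (.e (nat_lit 344176) (nat_lit 43) (.e (nat_lit 770074) (nat_lit 10) (.e (nat_lit 81939) (nat_lit 20) .nil)))))) (.g (nat_lit 5) .nil .nil))) 
(.lf (nat_lit 92219) (.g (nat_lit 2658) (.e (nat_lit 2281) (nat_lit 150) (.e (nat_lit 770072) (nat_lit 8) (.e (nat_lit 65617) (nat_lit 10) (.e (nat_lit 344096) (nat_lit 18) (.e (nat_lit 7265) (nat_lit 384) (.e (nat_lit 57424) (nat_lit 14) (.e (nat_lit 352302) (nat_lit 20) .nil))))))) (.g (nat_lit 5) .nil .nil)))))) (.nd (nat_lit 3) (.nd (nat_lit 4) (.nd (nat_lit 5) 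
(.lf (nat_lit 92167) (.g (nat_lit 2624) (.e (nat_lit 2281) (nat_lit 150) (.e (nat_lit 770072) (nat_lit 8) (.e (nat_lit 65610) (nat_lit 10) (.e (nat_lit 344097) (nat_lit 18) (.e (nat_lit 7146) (nat_lit 382) (.e (nat_lit 7936) (nat_lit 90) (.e (nat_lit 81938) (nat_lit 20) .nil))))))) (.g (nat_lit 4) .nil .nil))) 
(.lf (nat_lit 92199) (.g (nat_lit 2406) (.e (nat_lit 2281) (nat_lit 150) (.e (nat_lit 770072) (nat_lit 8) (.e (nat_lit 65617) (nat_lit 10) (.e (nat_lit 344091) (nat_lit 18) (.e (nat_lit 7122) (nat_lit 382) (.e (nat_lit 1224) (nat_lit 90) (.e (nat_lit 81947) (nat_lit 20) .nil))))))) (.g (nat_lit 4) .nil .nil)))) (.nd (nat_lit 5) 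
(.lf (nat_lit 92183) (.g (nat_lit 2293) (.e (nat_lit 2281) (nat_lit 150) (.e (nat_lit 770072) (nat_lit 8) (.e (nat_lit 65610) (nat_lit 10) (.e (nat_lit 344097) (nat_lit 18) (.e (nat_lit 7273) (nat_lit 385) (.e (nat_lit 122916) (nat_lit 14) (.e (nat_lit 352296) (nat_lit 20) .nil))))))) (.g (nat_lit 4) .nil .nil))) 
(.lf (nat_lit 92215) (.g (nat_lit 2644) (.e (nat_lit 2281) (nat_lit 150) (.e (nat_lit 770072) (nat_lit 8) (.e (nat_lit 65617) (nat_lit 10) (.e (nat_lit 344096) (nat_lit 18) (.e (nat_lit 7124) (nat_lit 382) (.e (nat_lit 7936) (nat_lit 90) (.e (nat_lit 81943) (nat_lit 20) .nil))))))) (.g (nat_lit 5) .nil .nil))))) (.nd (nat_lit 4) (.nd (nat_lit 5) 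
(.lf (nat_lit 92175) (.g (nat_lit 2799) (.e (nat_lit 2281) (nat_lit 150) (.e (nat_lit 770072) (nat_lit 8) (.e (nat_lit 65610) (nat_lit 10) (.e (nat_lit 344097) (nat_lit 18) (.e (nat_lit 7160) (nat_lit 382) (.e (nat_lit 7936) (nat_lit 90) (.e (nat_lit 81946) (nat_lit 20) .nil))))))) (.g (nat_lit 4) .nil .nil))) 
(.lf (nat_lit 92207) (.g (nat_lit 2402) (.e (nat_lit 2281) (nat_lit 150) (.e (nat_lit 770072) (nat_lit 8) (.e (nat_lit 65617) (nat_lit 10) (.e (nat_lit 344091) (nat_lit 18) (.e (nat_lit 7265) (nat_lit 384) (.e (nat_lit 57424) (nat_lit 14) (.e (nat_lit 352302) (nat_lit 20) .nil))))))) (.g (nat_lit 5) .nil .nil)))) (.nd (nat_lit 5) 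
(.lf (nat_lit 92191) (.g (nat_lit 3042) (.e (nat_lit 2281) (nat_lit 150) (.e (nat_lit 770072) (nat_lit 8) (.e (nat_lit 65610) (nat_lit 10) (.e (nat_lit 344176) (nat_lit 43) (.e (nat_lit 770074) (nat_lit 10) (.e (nat_lit 81947) (nat_lit 20) .nil)))))) (.g (nat_lit 5) .nil .nil))) 
(.lf (nat_lit 92223) (.g (nat_lit 3234) (.e (nat_lit 2281) (nat_lit 150) (.e (nat_lit 770072) (nat_lit 8) (.e (nat_lit 65617) (nat_lit 10) (.e (nat_lit 344177) (nat_lit 43) (.e (nat_lit 770074) (nat_lit 10) (.e (nat_lit 81939) (nat_lit 20) .nil)))))) (.g (nat_lit 0) .nil .nil)))))))))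

noncomputable def tv1263 : DT := (.nd (nat_lit 0) (.nd (nat_lit 1) (.nd (nat_lit 2) (.nd (nat_lit 3) (.nd (nat_lit 4) (.nd (nat_lit 5) 
(.lf (nat_lit 92224) (.g (nat_lit 2267) (.e (nat_lit 2281) (nat_lit 150) (.e (nat_lit 770072) (nat_lit 8) (.e (nat_lit 65619) (nat_lit 10) (.e (nat_lit 344090) (nat_lit 18) (.e (nat_lit 7119) (nat_lit 382) (.e (nat_lit 7936) (nat_lit 90) (.e (nat_lit 81939) (nat_lit 20) .nil))))))) (.g (nat_lit 4) .nil .nil))) 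
(.lf (nat_lit 92256) (.g (nat_lit 2579) (.e (nat_lit 2281) (nat_lit 150) (.e (nat_lit 770072) (nat_lit 8) (.e (nat_lit 65627) (nat_lit 13) (.e (nat_lit 393300) (nat_lit 27) (.e (nat_lit 491551) (nat_lit 9) (.e (nat_lit 335928) (nat_lit 0) .nil)))))) (.g (nat_lit 4) .nil .nil)))) (.nd (nat_lit 5) 
(.lf (nat_lit 92240) (.g (nat_lit 2251) (.e (nat_lit 2281) (nat_lit 150) (.e (nat_lit 770072) (nat_lit 8) (.e (nat_lit 65619) (nat_lit 10) (.e (nat_lit 344097) (nat_lit 18) (.e (nat_lit 7271) (nat_lit 385) (.e (nat_lit 122916) (nat_lit 14) (.e (nat_lit 352303) (nat_lit 20) .nil))))))) (.g (nat_lit 4) .nil .nil))) 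
(.lf (nat_lit 92272) (.g (nat_lit 3113) (.e (nat_lit 2281) (nat_lit 150) (.e (nat_lit 770073) (nat_lit 9) (.e (nat_lit 73754) (nat_lit 8) (.e (nat_lit 557105) (nat_lit 14) (.e (nat_lit 180233) (nat_lit 0) (.e (nat_lit 5817) (nat_lit 320) (.e (nat_lit 1201) (nat_lit 88) (.e (nat_lit 65546) (nat_lit 0) .nil)))))))) (.g (nat_lit 5) .nil .nil))))) (.nd (nat_lit 4) (.nd (nat_lit 5) 
(.lf (nat_lit 92232) (.g (nat_lit 2069) (.e (nat_lit 2281) (nat_lit 150) (.e (nat_lit 770072) (nat_lit 8) (.e (nat_lit 65619) (nat_lit 10) (.e (nat_lit 344090) (nat_lit 18) (.e (nat_lit 7124) (nat_lit 382) (.e (nat_lit 7936) (nat_lit 90) (.e (nat_lit 81943) (nat_lit 20) .nil))))))) (.g (nat_lit 4) .nil .nil))) 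
(.lf (nat_lit 92264) (.g (nat_lit 3291) (.e (nat_lit 2281) (nat_lit 150) (.e (nat_lit 770073) (nat_lit 9) (.e (nat_lit 73753) (nat_lit 8) (.e (nat_lit 557103) (nat_lit 14) (.e (nat_lit 180229) (nat_lit 0) (.e (nat_lit 5815) (nat_lit 320) (.e (nat_lit 1201) (nat_lit 88) (.e (nat_lit 65546) (nat_lit 0) .nil)))))))) (.g (nat_lit 5) .nil .nil)))) (.nd (nat_lit 5) 
(.lf (nat_lit 92248) (.g (nat_lit 2968) (.e (nat_lit 2281) (nat_lit 150) (.e (nat_lit 770072) (nat_lit 8) (.e (nat_lit 65620) (nat_lit 10) (.e (nat_lit 344177) (nat_lit 43) (.e (nat_lit 770074) (nat_lit 10) (.e (nat_lit 81939) (nat_lit 20) .nil)))))) (.g (nat_lit 0) .nil .nil))) 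
(.lf (nat_lit 92280) (.g (nat_lit 2778) (.e (nat_lit 2281) (nat_lit 150) (.e (nat_lit 770073) (nat_lit 9) (.e (nat_lit 73755) (nat_lit 8) (.e (nat_lit 557103) (nat_lit 14) (.e (nat_lit 180233) (nat_lit 0) (.e (nat_lit 5817) (nat_lit 320) (.e (nat_lit 1201) (nat_lit 88) (.e (nat_lit 65546) (nat_lit 0) .nil)))))))) (.g (nat_lit 4) .nil .nil)))))) (.nd (nat_lit 3) (.nd (nat_lit 4) (.nd (nat_lit 5) 
(.lf (nat_lit 92228) (.g (nat_lit 2032) (.e (nat_lit 2281) (nat_lit 150) (.e (nat_lit 770072) (nat_lit 8) (.e (nat_lit 65619) (nat_lit 10) (.e (nat_lit 344090) (nat_lit 18) (.e (nat_lit 7122) (nat_lit 382) (.e (nat_lit 7936) (nat_lit 90) (.e (nat_lit 81943) (nat_lit 20) .nil))))))) (.g (nat_lit 4) .nil .nil))) 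
(.lf (nat_lit 92260) (.g (nat_lit 3717) (.e (nat_lit 2281) (nat_lit 150) (.e (nat_lit 770072) (nat_lit 8) (.e (nat_lit 65629) (nat_lit 14) (.e (nat_lit 401454) (nat_lit 12) (.e (nat_lit 475213) (nat_lit 42) .nil))))) .nil))) (.nd (nat_lit 5) 
(.lf (nat_lit 92244) (.g (nat_lit 3305) (.e (nat_lit 2281) (nat_lit 150) (.e (nat_lit 770072) (nat_lit 8) (.e (nat_lit 65619) (nat_lit 10) (.e (nat_lit 344097) (nat_lit 18) (.e (nat_lit 7273) (nat_lit 385) (.e (nat_lit 122916) (nat_lit 14) (.e (nat_lit 352302) (nat_lit 20) .nil))))))) (.g (nat_lit 6) .nil .nil))) 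
(.lf (nat_lit 92276) (.g (nat_lit 2569) (.e (nat_lit 2281) (nat_lit 150) (.e (nat_lit 770073) (nat_lit 9) (.e (nat_lit 73755) (nat_lit 8) (.e (nat_lit 557098) (nat_lit 13) (.e (nat_lit 172070) (nat_lit 4) .nil))))) .nil)))) (.nd (nat_lit 4) (.nd (nat_lit 5) 
(.lf (nat_lit 92236) (.g (nat_lit 2707) (.e (nat_lit 2281) (nat_lit 150) (.e (nat_lit 770072) (nat_lit 8) (.e (nat_lit 65619) (nat_lit 10) (.e (nat_lit 344090) (nat_lit 18) (.e (nat_lit 7265) (nat_lit 384) (.e (nat_lit 57424) (nat_lit 14) (.e (nat_lit 352303) (nat_lit 20) .nil))))))) (.g (nat_lit 6) .nil .nil))) 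
(.lf (nat_lit 92268) (.g (nat_lit 2506) (.e (nat_lit 2281) (nat_lit 150) (.e (nat_lit 770073) (nat_lit 9) (.e (nat_lit 73753) (nat_lit 8) (.e (nat_lit 557105) (nat_lit 14) (.e (nat_lit 180233) (nat_lit 0) .nil))))) .nil))) (.nd (nat_lit 5) 
(.lf (nat_lit 92252) (.g (nat_lit 1833) (.e (nat_lit 2281) (nat_lit 150) (.e (nat_lit 770072) (nat_lit 8) (.e (nat_lit 65626) (nat_lit 13) (.e (nat_lit 393260) (nat_lit 21) (.e (nat_lit 417536) (nat_lit 16) .nil))))) .nil)) 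
(.lf (nat_lit 92284) (.g (nat_lit 4661) (.e (nat_lit 2281) (nat_lit 150) (.e (nat_lit 770073) (nat_lit 9) (.e (nat_lit 73755) (nat_lit 8) (.e (nat_lit 557104) (nat_lit 14) (.e (nat_lit 180233) (nat_lit 0) (.e (nat_lit 5817) (nat_lit 320) (.e (nat_lit 1201) (nat_lit 88) (.e (nat_lit 65546) (nat_lit 0) .nil)))))))) (.g (nat_lit 8) .nil .nil))))))) 
(.nd (nat_lit 2) (.nd (nat_lit 3) (.nd (nat_lit 4) (.nd (nat_lit 5) 
(.lf (nat_lit 92226) (.g (nat_lit 2311) (.e (nat_lit 2281) (nat_lit 150) (.e (nat_lit 770072) (nat_lit 8) (.e (nat_lit 65619) (nat_lit 10) (.e (nat_lit 344090) (nat_lit 18) (.e (nat_lit 7122) (nat_lit 382) (.e (nat_lit 7936) (nat_lit 90) (.e (nat_lit 81938) (nat_lit 20) .nil))))))) (.g (nat_lit 4) .nil .nil))) 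
(.lf (nat_lit 92258) (.g (nat_lit 1729) (.e (nat_lit 2281) (nat_lit 150) (.e (nat_lit 770072) (nat_lit 8) (.e (nat_lit 65628) (nat_lit 14) (.e (nat_lit 401422) (nat_lit 1) (.e (nat_lit 164149) (nat_lit 152) .nil))))) .nil))) (.nd (nat_lit 5) 
(.lf (nat_lit 92242) (.g (nat_lit 2613) (.e (nat_lit 2281) (nat_lit 150) (.e (nat_lit 770072) (nat_lit 8) (.e (nat_lit 65619) (nat_lit 10) (.e (nat_lit 344097) (nat_lit 18) (.e (nat_lit 7272) (nat_lit 385) (.e (nat_lit 122916) (nat_lit 14) (.e (nat_lit 352303) (nat_lit 20) .nil))))))) (.g (nat_lit 5) .nil .nil))) 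
(.lf (nat_lit 92274) (.g (nat_lit 2655) (.e (nat_lit 2281) (nat_lit 150) (.e (nat_lit 770073) (nat_lit 9) (.e (nat_lit 73754) (nat_lit 8) (.e (nat_lit 557105) (nat_lit 14) (.e (nat_lit 180265) (nat_lit 21) (.e (nat_lit 663566) (nat_lit 4) (.e (nat_lit 65546) (nat_lit 0) .nil))))))) (.g (nat_lit 5) .nil .nil))))) (.nd (nat_lit 4) (.nd (nat_lit 5) 
(.lf (nat_lit 92234) (.g (nat_lit 1970) (.e (nat_lit 2281) (nat_lit 150) (.e (nat_lit 770072) (nat_lit 8) (.e (nat_lit 65619) (nat_lit 10) (.e (nat_lit 344090) (nat_lit 18) (.e (nat_lit 7125) (nat_lit 382) (.e (nat_lit 1222) (nat_lit 90) (.e (nat_lit 81939) (nat_lit 20) .nil))))))) (.g (nat_lit 4) .nil .nil))) 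
(.lf (nat_lit 92266) (.g (nat_lit 2984) (.e (nat_lit 2281) (nat_lit 150) (.e (nat_lit 770073) (nat_lit 9) (.e (nat_lit 73753) (nat_lit 8) (.e (nat_lit 557103) (nat_lit 14) (.e (nat_lit 180233) (nat_lit 0) (.e (nat_lit 5817) (nat_lit 320) (.e (nat_lit 1201) (nat_lit 88) (.e (nat_lit 65546) (nat_lit 0) .nil)))))))) (.g (nat_lit 4) .nil .nil)))) (.nd (nat_lit 5) 
(.lf (nat_lit 92250) (.g (nat_lit 3382) (.e (nat_lit 2281) (nat_lit 150) (.e (nat_lit 770072) (nat_lit 8) (.e (nat_lit 65620) (nat_lit 10) (.e (nat_lit 344177) (nat_lit 43) (.e (nat_lit 770074) (nat_lit 10) (.e (nat_lit 81946) (nat_lit 20) .nil)))))) (.g (nat_lit 0) .nil .nil))) 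
(.lf (nat_lit 92282) (.g (nat_lit 2885) (.e (nat_lit 2281) (nat_lit 150) (.e (nat_lit 770073) (nat_lit 9) (.e (nat_lit 73755) (nat_lit 8) (.e (nat_lit 557104) (nat_lit 14) (.e (nat_lit 180227) (nat_lit 0) (.e (nat_lit 5814) (nat_lit 320) (.e (nat_lit 1201) (nat_lit 88) (.e (nat_lit 65546) (nat_lit 0) .nil)))))))) (.g (nat_lit 4) .nil .nil)))))) (.nd (nat_lit 3) (.nd (nat_lit 4) (.nd (nat_lit 5) 
(.lf (nat_lit 92230) (.g (nat_lit 2329) (.e (nat_lit 2281) (nat_lit 150) (.e (nat_lit 770072) (nat_lit 8) (.e (nat_lit 65619) (nat_lit 10) (.e (nat_lit 344090) (nat_lit 18) (.e (nat_lit 7122) (nat_lit 382) (.e (nat_lit 7936) (nat_lit 90) (.e (nat_lit 81947) (nat_lit 20) .nil))))))) (.g (nat_lit 4) .nil .nil))) 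
(.lf (nat_lit 92262) (.g (nat_lit 2946) (.e (nat_lit 2281) (nat_lit 150) (.e (nat_lit 770073) (nat_lit 9) (.e (nat_lit 73753) (nat_lit 8) (.e (nat_lit 557103) (nat_lit 14) (.e (nat_lit 180225) (nat_lit 0) (.e (nat_lit 5814) (nat_lit 320) (.e (nat_lit 1201) (nat_lit 88) (.e (nat_lit 65546) (nat_lit 0) .nil)))))))) (.g (nat_lit 4) .nil .nil)))) (.nd (nat_lit 5) 
(.lf (nat_lit 92246) (.g (nat_lit 3269) (.e (nat_lit 2281) (nat_lit 150) (.e (nat_lit 770072) (nat_lit 8) (.e (nat_lit 65619) (nat_lit 10) (.e (nat_lit 344177) (nat_lit 43) (.e (nat_lit 770074) (nat_lit 10) (.e (nat_lit 81939) (nat_lit 20) .nil)))))) (.g (nat_lit 0) .nil .nil))) 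
(.lf (nat_lit 92278) (.g (nat_lit 3130) (.e (nat_lit 2281) (nat_lit 150) (.e (nat_lit 770073) (nat_lit 9) (.e (nat_lit 73755) (nat_lit 8) (.e (nat_lit 557103) (nat_lit 14) (.e (nat_lit 180229) (nat_lit 0) (.e (nat_lit 5815) (nat_lit 320) (.e (nat_lit 1201) (nat_lit 88) (.e (nat_lit 65546) (nat_lit 0) .nil)))))))) (.g (nat_lit 4) .nil .nil))))) (.nd (nat_lit 4) (.nd (nat_lit 5) 
(.lf (nat_lit 92238) (.g (nat_lit 3273) (.e (nat_lit 2281) (nat_lit 150) (.e (nat_lit 770072) (nat_lit 8) (.e (nat_lit 65619) (nat_lit 10) (.e (nat_lit 344097) (nat_lit 18) (.e (nat_lit 7270) (nat_lit 385) (.e (nat_lit 122916) (nat_lit 14) (.e (nat_lit 352296) (nat_lit 20) .nil))))))) (.g (nat_lit 5) .nil .nil))) 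
(.lf (nat_lit 92270) (.g (nat_lit 2447) (.e (nat_lit 2281) (nat_lit 150) (.e (nat_lit 770073) (nat_lit 9) (.e (nat_lit 73754) (nat_lit 8) (.e (nat_lit 557105) (nat_lit 14) (.e (nat_lit 180230) (nat_lit 0) (.e (nat_lit 5815) (nat_lit 320) (.e (nat_lit 1201) (nat_lit 88) (.e (nat_lit 65546) (nat_lit 0) .nil)))))))) (.g (nat_lit 4) .nil .nil)))) (.nd (nat_lit 5) 
(.lf (nat_lit 92254) (.g (nat_lit 1910) (.e (nat_lit 2281) (nat_lit 150) (.e (nat_lit 770072) (nat_lit 8) (.e (nat_lit 65627) (nat_lit 13) (.e (nat_lit 393298) (nat_lit 27) (.e (nat_lit 491552) (nat_lit 9) .nil))))) .nil)) 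
(.lf (nat_lit 92286) (.g (nat_lit 2603) (.e (nat_lit 2281) (nat_lit 150) (.e (nat_lit 770073) (nat_lit 9) (.e (nat_lit 73755) (nat_lit 8) (.e (nat_lit 557104) (nat_lit 14) (.e (nat_lit 180262) (nat_lit 21) .nil))))) .nil))))))) (.nd (nat_lit 1) (.nd (nat_lit 2) (.nd (nat_lit 3) (.nd (nat_lit 4) (.nd (nat_lit 5) 
(.lf (nat_lit 92225) (.g (nat_lit 2407) (.e (nat_lit 2281) (nat_lit 150) (.e (nat_lit 770072) (nat_lit 8) (.e (nat_lit 65619) (nat_lit 10) (.e (nat_lit 344090) (nat_lit 18) (.e (nat_lit 7119) (nat_lit 382) (.e (nat_lit 7936) (nat_lit 90) (.e (nat_lit 81943) (nat_lit 20) .nil))))))) (.g (nat_lit 4) .nil .nil))) 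
(.lf (nat_lit 92257) (.g (nat_lit 3983) (.e (nat_lit 2281) (nat_lit 150) (.e (nat_lit 770072) (nat_lit 8) (.e (nat_lit 65627) (nat_lit 13) (.e (nat_lit 393301) (nat_lit 27) (.e (nat_lit 491551) (nat_lit 9) (.e (nat_lit 335928) (nat_lit 0) .nil)))))) (.g (nat_lit 5) .nil .nil)))) (.nd (nat_lit 5) 
(.lf (nat_lit 92241) (.g (nat_lit 3133) (.e (nat_lit 2281) (nat_lit 150) (.e (nat_lit 770072) (nat_lit 8) (.e (nat_lit 65619) (nat_lit 10) (.e (nat_lit 344097) (nat_lit 18) (.e (nat_lit 7272) (nat_lit 385) (.e (nat_lit 122916) (nat_lit 14) (.e (nat_lit 352302) (nat_lit 20) .nil))))))) (.g (nat_lit 5) .nil .nil))) 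
(.lf (nat_lit 92273) (.g (nat_lit 2172) (.e (nat_lit 2281) (nat_lit 150) (.e (nat_lit 770073) (nat_lit 9) (.e (nat_lit 73754) (nat_lit 8) (.e (nat_lit 557105) (nat_lit 14) (.e (nat_lit 180264) (nat_lit 21) (.e (nat_lit 663566) (nat_lit 4) (.e (nat_lit 65546) (nat_lit 0) .nil))))))) (.g (nat_lit 4) .nil .nil))))) (.nd (nat_lit 4) (.nd (nat_lit 5) 
(.lf (nat_lit 92233) (.g (nat_lit 2233) (.e (nat_lit 2281) (nat_lit 150) (.e (nat_lit 770072) (nat_lit 8) (.e (nat_lit 65619) (nat_lit 10) (.e (nat_lit 344090) (nat_lit 18) (.e (nat_lit 7124) (nat_lit 382) (.e (nat_lit 7936) (nat_lit 90) (.e (nat_lit 81946) (nat_lit 20) .nil))))))) (.g (nat_lit 4) .nil .nil))) 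
(.lf (nat_lit 92265) (.g (nat_lit 2783) (.e (nat_lit 2281) (nat_lit 150) (.e (nat_lit 770073) (nat_lit 9) (.e (nat_lit 73753) (nat_lit 8) (.e (nat_lit 557103) (nat_lit 14) (.e (nat_lit 180233) (nat_lit 0) (.e (nat_lit 5815) (nat_lit 320) (.e (nat_lit 1201) (nat_lit 88) (.e (nat_lit 65546) (nat_lit 0) .nil)))))))) (.g (nat_lit 4) .nil .nil)))) (.nd (nat_lit 5) 
(.lf (nat_lit 92249) (.g (nat_lit 2975) (.e (nat_lit 2281) (nat_lit 150) (.e (nat_lit 770072) (nat_lit 8) (.e (nat_lit 65620) (nat_lit 10) (.e (nat_lit 344177) (nat_lit 43) (.e (nat_lit 770074) (nat_lit 10) (.e (nat_lit 81942) (nat_lit 20) .nil)))))) (.g (nat_lit 0) .nil .nil))) 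
(.lf (nat_lit 92281) (.g (nat_lit 1318) (.e (nat_lit 2281) (nat_lit 150) (.e (nat_lit 770073) (nat_lit 9) (.e (nat_lit 73755) (nat_lit 8) (.e (nat_lit 557104) (nat_lit 14) .nil)))) .nil))))) (.nd (nat_lit 3) (.nd (nat_lit 4) (.nd (nat_lit 5) 
(.lf (nat_lit 92229) (.g (nat_lit 2213) (.e (nat_lit 2281) (nat_lit 150) (.e (nat_lit 770072) (nat_lit 8) (.e (nat_lit 65619) (nat_lit 10) (.e (nat_lit 344090) (nat_lit 18) (.e (nat_lit 7122) (nat_lit 382) (.e (nat_lit 7936) (nat_lit 90) (.e (nat_lit 81946) (nat_lit 20) .nil))))))) (.g (nat_lit 4) .nil .nil))) 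
(.lf (nat_lit 92261) (.g (nat_lit 4469) (.e (nat_lit 2281) (nat_lit 150) (.e (nat_lit 770072) (nat_lit 8) (.e (nat_lit 65629) (nat_lit 14) (.e (nat_lit 401454) (nat_lit 12) (.e (nat_lit 475214) (nat_lit 42) (.e (nat_lit 720956) (nat_lit 25) (.e (nat_lit 114699) (nat_lit 20) .nil))))))) (.g (nat_lit 4) .nil .nil)))) (.nd (nat_lit 5) 
(.lf (nat_lit 92245) (.g (nat_lit 3004) (.e (nat_lit 2281) (nat_lit 150) (.e (nat_lit 770072) (nat_lit 8) (.e (nat_lit 65619) (nat_lit 10) (.e (nat_lit 344097) (nat_lit 18) (.e (nat_lit 7273) (nat_lit 385) (.e (nat_lit 122916) (nat_lit 14) (.e (nat_lit 352303) (nat_lit 20) .nil))))))) (.g (nat_lit 6) .nil .nil))) 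
(.lf (nat_lit 92277) (.g (nat_lit 2660) (.e (nat_lit 2281) (nat_lit 150) (.e (nat_lit 770073) (nat_lit 9) (.e (nat_lit 73755) (nat_lit 8) (.e (nat_lit 557103) (nat_lit 14) (.e (nat_lit 180229) (nat_lit 0) .nil))))) .nil)))) (.nd (nat_lit 4) (.nd (nat_lit 5) 
(.lf (nat_lit 92237) (.g (nat_lit 1797) (.e (nat_lit 2281) (nat_lit 150) (.e (nat_lit 770072) (nat_lit 8) (.e (nat_lit 65619) (nat_lit 10) (.e (nat_lit 344097) (nat_lit 18) (.e (nat_lit 7146) (nat_lit 382) .nil))))) .nil)) 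
(.lf (nat_lit 92269) (.g (nat_lit 2854) (.e (nat_lit 2281) (nat_lit 150) (.e (nat_lit 770073) (nat_lit 9) (.e (nat_lit 73754) (nat_lit 8) (.e (nat_lit 557105) (nat_lit 14) (.e (nat_lit 180227) (nat_lit 0) (.e (nat_lit 5796) (nat_lit 320) (.e (nat_lit 1201) (nat_lit 88) (.e (nat_lit 65546) (nat_lit 0) .nil)))))))) (.g (nat_lit 5) .nil .nil)))) (.nd (nat_lit 5) 
(.lf (nat_lit 92253) (.g (nat_lit 2384) (.e (nat_lit 2281) (nat_lit 150) (.e (nat_lit 770072) (nat_lit 8) (.e (nat_lit 65627) (nat_lit 13) (.e (nat_lit 393298) (nat_lit 27) (.e (nat_lit 491551) (nat_lit 9) (.e (nat_lit 335928) (nat_lit 0) .nil)))))) (.g (nat_lit 4) .nil .nil))) 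
(.lf (nat_lit 92285) (.g (nat_lit 2644) (.e (nat_lit 2281) (nat_lit 150) (.e (nat_lit 770073) (nat_lit 9) (.e (nat_lit 73755) (nat_lit 8) (.e (nat_lit 557104) (nat_lit 14) (.e (nat_lit 180233) (nat_lit 0) (.e (nat_lit 5902) (nat_lit 320) (.e (nat_lit 1199) (nat_lit 88) (.e (nat_lit 65546) (nat_lit 0) .nil)))))))) (.g (nat_lit 4) .nil .nil))))))) 
(.nd (nat_lit 2) (.nd (nat_lit 3) (.nd (nat_lit 4) (.nd (nat_lit 5) 
(.lf (nat_lit 92227) (.g (nat_lit 1877) (.e (nat_lit 2281) (nat_lit 150) (.e (nat_lit 770072) (nat_lit 8) (.e (nat_lit 65619) (nat_lit 10) (.e (nat_lit 344090) (nat_lit 18) (.e (nat_lit 7122) (nat_lit 382) (.e (nat_lit 7936) (nat_lit 90) (.e (nat_lit 81939) (nat_lit 20) .nil))))))) (.g (nat_lit 4) .nil .nil))) 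
(.lf (nat_lit 92259) (.g (nat_lit 3748) (.e (nat_lit 2281) (nat_lit 150) (.e (nat_lit 770072) (nat_lit 8) (.e (nat_lit 65629) (nat_lit 14) (.e (nat_lit 401454) (nat_lit 12) (.e (nat_lit 475212) (nat_lit 42) (.e (nat_lit 720956) (nat_lit 25) (.e (nat_lit 114699) (nat_lit 20) .nil))))))) (.g (nat_lit 4) .nil .nil)))) (.nd (nat_lit 5) 
(.lf (nat_lit 92243) (.g (nat_lit 1721) (.e (nat_lit 2281) (nat_lit 150) (.e (nat_lit 770072) (nat_lit 8) (.e (nat_lit 65619) (nat_lit 10) (.e (nat_lit 344097) (nat_lit 18) (.e (nat_lit 7273) (nat_lit 385) (.e (nat_lit 122916) (nat_lit 14) (.e (nat_lit 352296) (nat_lit 20) .nil))))))) (.g (nat_lit 4) .nil .nil))) 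
(.lf (nat_lit 92275) (.g (nat_lit 2787) (.e (nat_lit 2281) (nat_lit 150) (.e (nat_lit 770073) (nat_lit 9) (.e (nat_lit 73754) (nat_lit 8) (.e (nat_lit 557105) (nat_lit 14) (.e (nat_lit 180266) (nat_lit 22) (.e (nat_lit 671762) (nat_lit 4) (.e (nat_lit 65546) (nat_lit 0) .nil))))))) (.g (nat_lit 5) .nil .nil))))) (.nd (nat_lit 4) (.nd (nat_lit 5) 
(.lf (nat_lit 92235) (.g (nat_lit 1990) (.e (nat_lit 2281) (nat_lit 150) (.e (nat_lit 770072) (nat_lit 8) (.e (nat_lit 65619) (nat_lit 10) (.e (nat_lit 344090) (nat_lit 18) (.e (nat_lit 7265) (nat_lit 384) (.e (nat_lit 57424) (nat_lit 14) (.e (nat_lit 352302) (nat_lit 20) .nil))))))) (.g (nat_lit 4) .nil .nil))) 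
(.lf (nat_lit 92267) (.g (nat_lit 2658) (.e (nat_lit 2281) (nat_lit 150) (.e (nat_lit 770073) (nat_lit 9) (.e (nat_lit 73753) (nat_lit 8) (.e (nat_lit 557105) (nat_lit 14) (.e (nat_lit 180227) (nat_lit 0) (.e (nat_lit 5814) (nat_lit 320) (.e (nat_lit 1201) (nat_lit 88) (.e (nat_lit 65546) (nat_lit 0) .nil)))))))) (.g (nat_lit 4) .nil .nil)))) (.nd (nat_lit 5) 
(.lf (nat_lit 92251) (.g (nat_lit 3015) (.e (nat_lit 2281) (nat_lit 150) (.e (nat_lit 770072) (nat_lit 8) (.e (nat_lit 65625) (nat_lit 13) (.e (nat_lit 393301) (nat_lit 27) (.e (nat_lit 491551) (nat_lit 9) (.e (nat_lit 335928) (nat_lit 0) .nil)))))) (.g (nat_lit 4) .nil .nil))) 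
(.lf (nat_lit 92283) (.g (nat_lit 4460) (.e (nat_lit 2281) (nat_lit 150) (.e (nat_lit 770073) (nat_lit 9) (.e (nat_lit 73755) (nat_lit 8) (.e (nat_lit 557104) (nat_lit 14) (.e (nat_lit 180233) (nat_lit 0) (.e (nat_lit 5815) (nat_lit 320) (.e (nat_lit 1201) (nat_lit 88) (.e (nat_lit 65546) (nat_lit 0) .nil)))))))) (.g (nat_lit 8) .nil .nil)))))) (.nd (nat_lit 3) (.nd (nat_lit 4) (.nd (nat_lit 5) 
(.lf (nat_lit 92231) (.g (nat_lit 1970) (.e (nat_lit 2281) (nat_lit 150) (.e (nat_lit 770072) (nat_lit 8) (.e (nat_lit 65619) (nat_lit 10) (.e (nat_lit 344090) (nat_lit 18) (.e (nat_lit 7124) (nat_lit 382) (.e (nat_lit 7936) (nat_lit 90) (.e (nat_lit 81939) (nat_lit 20) .nil))))))) (.g (nat_lit 4) .nil .nil))) 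
(.lf (nat_lit 92263) (.g (nat_lit 2542) (.e (nat_lit 2281) (nat_lit 150) (.e (nat_lit 770073) (nat_lit 9) (.e (nat_lit 73753) (nat_lit 8) (.e (nat_lit 557103) (nat_lit 14) (.e (nat_lit 180228) (nat_lit 0) .nil))))) .nil))) (.nd (nat_lit 5) 
(.lf (nat_lit 92247) (.g (nat_lit 3302) (.e (nat_lit 2281) (nat_lit 150) (.e (nat_lit 770072) (nat_lit 8) (.e (nat_lit 65619) (nat_lit 10) (.e (nat_lit 344177) (nat_lit 43) (.e (nat_lit 770074) (nat_lit 10) (.e (nat_lit 81942) (nat_lit 20) .nil)))))) (.g (nat_lit 0) .nil .nil))) 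
(.lf (nat_lit 92279) (.g (nat_lit 2616) (.e (nat_lit 2281) (nat_lit 150) (.e (nat_lit 770073) (nat_lit 9) (.e (nat_lit 73755) (nat_lit 8) (.e (nat_lit 557103) (nat_lit 14) (.e (nat_lit 180233) (nat_lit 0) .nil))))) .nil)))) (.nd (nat_lit 4) (.nd (nat_lit 5) 
(.lf (nat_lit 92239) (.g (nat_lit 2636) (.e (nat_lit 2281) (nat_lit 150) (.e (nat_lit 770072) (nat_lit 8) (.e (nat_lit 65619) (nat_lit 10) (.e (nat_lit 344097) (nat_lit 18) (.e (nat_lit 7271) (nat_lit 385) (.e (nat_lit 122916) (nat_lit 14) (.e (nat_lit 352302) (nat_lit 20) .nil))))))) (.g (nat_lit 4) .nil .nil))) 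
(.lf (nat_lit 92271) (.g (nat_lit 2789) (.e (nat_lit 2281) (nat_lit 150) (.e (nat_lit 770073) (nat_lit 9) (.e (nat_lit 73754) (nat_lit 8) (.e (nat_lit 557105) (nat_lit 14) (.e (nat_lit 180230) (nat_lit 0) (.e (nat_lit 5820) (nat_lit 320) (.e (nat_lit 1201) (nat_lit 88) (.e (nat_lit 65546) (nat_lit 0) .nil)))))))) (.g (nat_lit 4) .nil .nil)))) (.nd (nat_lit 5) 
(.lf (nat_lit 92255) (.g (nat_lit 2652) (.e (nat_lit 2281) (nat_lit 150) (.e (nat_lit 770072) (nat_lit 8) (.e (nat_lit 65627) (nat_lit 13) (.e (nat_lit 393299) (nat_lit 27) (.e (nat_lit 491551) (nat_lit 9) (.e (nat_lit 335928) (nat_lit 0) .nil)))))) (.g (nat_lit 4) .nil .nil))) 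
(.lf (nat_lit 92287) (.g (nat_lit 2919) (.e (nat_lit 2281) (nat_lit 150) (.e (nat_lit 770073) (nat_lit 9) (.e (nat_lit 73755) (nat_lit 8) (.e (nat_lit 557104) (nat_lit 14) (.e (nat_lit 180266) (nat_lit 22) (.e (nat_lit 671762) (nat_lit 4) (.e (nat_lit 65546) (nat_lit 0) .nil))))))) (.g (nat_lit 4) .nil .nil)))))))))

noncomputable def tv1264 : DT := (.nd (nat_lit 0) (.nd (nat_lit 1) (.nd (nat_lit 2) (.nd (nat_lit 3) (.nd (nat_lit 4) 
(.lf (nat_lit 92288) (.g (nat_lit 1929) (.e (nat_lit 2281) (nat_lit 150) (.e (nat_lit 770073) (nat_lit 9) (.e (nat_lit 73755) (nat_lit 8) (.e (nat_lit 557105) (nat_lit 14) (.e (nat_lit 180227) (nat_lit 0) .nil))))) .nil)) 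
(.lf (nat_lit 92304) (.g (nat_lit 2364) (.e (nat_lit 2281) (nat_lit 150) (.e (nat_lit 770074) (nat_lit 10) (.e (nat_lit 81938) (nat_lit 20) (.e (nat_lit 2281) (nat_lit 150) (.e (nat_lit 770074) (nat_lit 10) (.e (nat_lit 81942) (nat_lit 20) .nil)))))) (.g (nat_lit 0) .nil .nil)))) (.nd (nat_lit 4) 
(.lf (nat_lit 92296) (.g (nat_lit 1478) (.e (nat_lit 2281) (nat_lit 150) (.e (nat_lit 770074) (nat_lit 10) (.e (nat_lit 81927) (nat_lit 11) (.e (nat_lit 426172) (nat_lit 7) (.e (nat_lit 417536) (nat_lit 16) (.e (nat_lit 286728) (nat_lit 0) .nil)))))) (.g (nat_lit 4) .nil .nil))) 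
(.lf (nat_lit 92312) (.g (nat_lit 2093) (.e (nat_lit 2281) (nat_lit 150) (.e (nat_lit 770074) (nat_lit 10) (.e (nat_lit 81943) (nat_lit 20) (.e (nat_lit 2281) (nat_lit 150) (.e (nat_lit 770074) (nat_lit 10) (.e (nat_lit 81939) (nat_lit 20) .nil)))))) (.g (nat_lit 0) .nil .nil))))) (.nd (nat_lit 3) (.nd (nat_lit 4) 
(.lf (nat_lit 92292) (.g (nat_lit 2195) (.e (nat_lit 2281) (nat_lit 150) (.e (nat_lit 770073) (nat_lit 9) (.e (nat_lit 73755) (nat_lit 8) (.e (nat_lit 557105) (nat_lit 14) (.e (nat_lit 180264) (nat_lit 21) .nil))))) .nil)) 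
(.lf (nat_lit 92308) (.g (nat_lit 1938) (.e (nat_lit 2281) (nat_lit 150) (.e (nat_lit 770074) (nat_lit 10) (.e (nat_lit 81939) (nat_lit 20) (.e (nat_lit 2281) (nat_lit 150) (.e (nat_lit 770074) (nat_lit 10) (.e (nat_lit 81939) (nat_lit 20) .nil)))))) (.g (nat_lit 0) .nil .nil)))) (.nd (nat_lit 4) 
(.lf (nat_lit 92300) (.g (nat_lit 1128) (.e (nat_lit 2281) (nat_lit 150) (.e (nat_lit 770074) (nat_lit 10) (.e (nat_lit 81934) (nat_lit 20) (.e (nat_lit 2375) (nat_lit 154) (.e (nat_lit 802828) (nat_lit 13) (.e (nat_lit 352296) (nat_lit 20) .nil)))))) (.g (nat_lit 0) .nil .nil))) 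
(.lf (nat_lit 92316) (.g (nat_lit 1230) (.e (nat_lit 2281) (nat_lit 150) (.e (nat_lit 770074) (nat_lit 10) (.e (nat_lit 81946) (nat_lit 20) (.e (nat_lit 2280) (nat_lit 150) (.e (nat_lit 770074) (nat_lit 10) .nil))))) .nil))))) (.nd (nat_lit 2) (.nd (nat_lit 3) (.nd (nat_lit 4) 
(.lf (nat_lit 92290) (.g (nat_lit 2375) (.e (nat_lit 2281) (nat_lit 150) (.e (nat_lit 770073) (nat_lit 9) (.e (nat_lit 73755) (nat_lit 8) (.e (nat_lit 557105) (nat_lit 14) (.e (nat_lit 180230) (nat_lit 0) .nil))))) .nil)) 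
(.lf (nat_lit 92306) (.g (nat_lit 2839) (.e (nat_lit 2281) (nat_lit 150) (.e (nat_lit 770074) (nat_lit 10) (.e (nat_lit 81938) (nat_lit 20) (.e (nat_lit 2281) (nat_lit 150) (.e (nat_lit 770074) (nat_lit 10) (.e (nat_lit 81947) (nat_lit 20) .nil)))))) (.g (nat_lit 0) .nil .nil)))) (.nd (nat_lit 4) 
(.lf (nat_lit 92298) (.g (nat_lit 1337) (.e (nat_lit 2281) (nat_lit 150) (.e (nat_lit 770074) (nat_lit 10) (.e (nat_lit 81931) (nat_lit 20) (.e (nat_lit 2375) (nat_lit 154) (.e (nat_lit 802828) (nat_lit 13) (.e (nat_lit 352296) (nat_lit 20) .nil)))))) (.g (nat_lit 0) .nil .nil))) 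
(.lf (nat_lit 92314) (.g (nat_lit 2356) (.e (nat_lit 2281) (nat_lit 150) (.e (nat_lit 770074) (nat_lit 10) (.e (nat_lit 81943) (nat_lit 20) (.e (nat_lit 2281) (nat_lit 150) (.e (nat_lit 770074) (nat_lit 10) (.e (nat_lit 81943) (nat_lit 20) .nil)))))) (.g (nat_lit 0) .nil .nil))))) (.nd (nat_lit 3) (.nd (nat_lit 4) 
(.lf (nat_lit 92294) (.g (nat_lit 2417) (.e (nat_lit 2281) (nat_lit 150) (.e (nat_lit 770073) (nat_lit 9) (.e (nat_lit 73755) (nat_lit 8) (.e (nat_lit 557105) (nat_lit 14) (.e (nat_lit 180266) (nat_lit 22) (.e (nat_lit 671762) (nat_lit 4) (.e (nat_lit 65546) (nat_lit 0) .nil))))))) (.g (nat_lit 4) .nil .nil))) 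
(.lf (nat_lit 92310) (.g (nat_lit 1944) (.e (nat_lit 2281) (nat_lit 150) (.e (nat_lit 770074) (nat_lit 10) (.e (nat_lit 81942) (nat_lit 20) (.e (nat_lit 2281) (nat_lit 150) (.e (nat_lit 770074) (nat_lit 10) (.e (nat_lit 81942) (nat_lit 20) .nil)))))) (.g (nat_lit 0) .nil .nil)))) (.nd (nat_lit 4) 
(.lf (nat_lit 92302) (.g (nat_lit 1541) (.e (nat_lit 2281) (nat_lit 150) (.e (nat_lit 770074) (nat_lit 10) (.e (nat_lit 81938) (nat_lit 20) (.e (nat_lit 2280) (nat_lit 150) (.e (nat_lit 770074) (nat_lit 10) (.e (nat_lit 81939) (nat_lit 20) .nil)))))) (.g (nat_lit 4) .nil .nil))) 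
(.lf (nat_lit 92318) (.g (nat_lit 2320) (.e (nat_lit 2281) (nat_lit 150) (.e (nat_lit 770074) (nat_lit 10) (.e (nat_lit 81946) (nat_lit 20) (.e (nat_lit 2281) (nat_lit 150) (.e (nat_lit 770074) (nat_lit 10) (.e (nat_lit 81942) (nat_lit 20) .nil)))))) (.g (nat_lit 0) .nil .nil))))))) (.nd (nat_lit 1) (.nd (nat_lit 2) (.nd (nat_lit 3) (.nd (nat_lit 4) 
(.lf (nat_lit 92289) (.g (nat_lit 2354) (.e (nat_lit 2281) (nat_lit 150) (.e (nat_lit 770073) (nat_lit 9) (.e (nat_lit 73755) (nat_lit 8) (.e (nat_lit 557105) (nat_lit 14) (.e (nat_lit 180227) (nat_lit 0) (.e (nat_lit 5796) (nat_lit 320) (.e (nat_lit 1201) (nat_lit 88) (.e (nat_lit 65546) (nat_lit 0) .nil)))))))) (.g (nat_lit 4) .nil .nil))) 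
(.lf (nat_lit 92305) (.g (nat_lit 2747) (.e (nat_lit 2281) (nat_lit 150) (.e (nat_lit 770074) (nat_lit 10) (.e (nat_lit 81938) (nat_lit 20) (.e (nat_lit 2281) (nat_lit 150) (.e (nat_lit 770074) (nat_lit 10) (.e (nat_lit 81946) (nat_lit 20) .nil)))))) (.g (nat_lit 0) .nil .nil)))) (.nd (nat_lit 4) 
(.lf (nat_lit 92297) (.g (nat_lit 654) (.e (nat_lit 2281) (nat_lit 150) (.e (nat_lit 770074) (nat_lit 10) (.e (nat_lit 81928) (nat_lit 20) (.e (nat_lit 2271) (nat_lit 149) .nil)))) .nil)) 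
(.lf (nat_lit 92313) (.g (nat_lit 2110) (.e (nat_lit 2281) (nat_lit 150) (.e (nat_lit 770074) (nat_lit 10) (.e (nat_lit 81943) (nat_lit 20) (.e (nat_lit 2281) (nat_lit 150) (.e (nat_lit 770074) (nat_lit 10) (.e (nat_lit 81942) (nat_lit 20) .nil)))))) (.g (nat_lit 0) .nil .nil))))) (.nd (nat_lit 3) (.nd (nat_lit 4) 
(.lf (nat_lit 92293) (.g (nat_lit 2163) (.e (nat_lit 2281) (nat_lit 150) (.e (nat_lit 770073) (nat_lit 9) (.e (nat_lit 73755) (nat_lit 8) (.e (nat_lit 557105) (nat_lit 14) (.e (nat_lit 180265) (nat_lit 21) (.e (nat_lit 663566) (nat_lit 4) (.e (nat_lit 65546) (nat_lit 0) .nil))))))) (.g (nat_lit 4) .nil .nil))) 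
(.lf (nat_lit 92309) (.g (nat_lit 1936) (.e (nat_lit 2281) (nat_lit 150) (.e (nat_lit 770074) (nat_lit 10) (.e (nat_lit 81942) (nat_lit 20) (.e (nat_lit 2281) (nat_lit 150) (.e (nat_lit 770074) (nat_lit 10) (.e (nat_lit 81939) (nat_lit 20) .nil)))))) (.g (nat_lit 0) .nil .nil)))) (.nd (nat_lit 4) 
(.lf (nat_lit 92301) (.g (nat_lit 1494) (.e (nat_lit 2281) (nat_lit 150) (.e (nat_lit 770074) (nat_lit 10) (.e (nat_lit 81935) (nat_lit 20) (.e (nat_lit 2375) (nat_lit 154) (.e (nat_lit 802828) (nat_lit 13) (.e (nat_lit 352296) (nat_lit 20) .nil)))))) (.g (nat_lit 0) .nil .nil))) 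
(.lf (nat_lit 92317) (.g (nat_lit 2329) (.e (nat_lit 2281) (nat_lit 150) (.e (nat_lit 770074) (nat_lit 10) (.e (nat_lit 81946) (nat_lit 20) (.e (nat_lit 2281) (nat_lit 150) (.e (nat_lit 770074) (nat_lit 10) (.e (nat_lit 81939) (nat_lit 20) .nil)))))) (.g (nat_lit 0) .nil .nil)))))) (.nd (nat_lit 2) (.nd (nat_lit 3) (.nd (nat_lit 4) 
(.lf (nat_lit 92291) (.g (nat_lit 2390) (.e (nat_lit 2281) (nat_lit 150) (.e (nat_lit 770073) (nat_lit 9) (.e (nat_lit 73755) (nat_lit 8) (.e (nat_lit 557105) (nat_lit 14) (.e (nat_lit 180233) (nat_lit 0) .nil))))) .nil)) 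
(.lf (nat_lit 92307) (.g (nat_lit 886) (.e (nat_lit 2281) (nat_lit 150) (.e (nat_lit 770074) (nat_lit 10) (.e (nat_lit 81939) (nat_lit 20) (.e (nat_lit 2280) (nat_lit 150) (.e (nat_lit 770074) (nat_lit 10) .nil))))) .nil))) (.nd (nat_lit 4) 
(.lf (nat_lit 92299) (.g (nat_lit 1137) (.e (nat_lit 2281) (nat_lit 150) (.e (nat_lit 770074) (nat_lit 10) (.e (nat_lit 81933) (nat_lit 20) (.e (nat_lit 2375) (nat_lit 154) (.e (nat_lit 802828) (nat_lit 13) (.e (nat_lit 352296) (nat_lit 20) .nil)))))) (.g (nat_lit 0) .nil .nil))) 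
(.lf (nat_lit 92315) (.g (nat_lit 930) (.e (nat_lit 2281) (nat_lit 150) (.e (nat_lit 770074) (nat_lit 10) (.e (nat_lit 81946) (nat_lit 20) (.e (nat_lit 1014) (nat_lit 81) .nil)))) .nil)))) (.nd (nat_lit 3) (.nd (nat_lit 4) 
(.lf (nat_lit 92295) (.g (nat_lit 1527) (.e (nat_lit 2281) (nat_lit 150) (.e (nat_lit 770074) (nat_lit 10) (.e (nat_lit 81925) (nat_lit 11) (.e (nat_lit 426172) (nat_lit 7) (.e (nat_lit 417536) (nat_lit 16) (.e (nat_lit 286728) (nat_lit 0) .nil)))))) (.g (nat_lit 4) .nil .nil))) 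
(.lf (nat_lit 92311) (.g (nat_lit 1139) (.e (nat_lit 2281) (nat_lit 150) (.e (nat_lit 770074) (nat_lit 10) (.e (nat_lit 81943) (nat_lit 20) (.e (nat_lit 2280) (nat_lit 150) (.e (nat_lit 770074) (nat_lit 10) .nil))))) .nil))) (.nd (nat_lit 4) 
(.lf (nat_lit 92303) (.g (nat_lit 2355) (.e (nat_lit 2281) (nat_lit 150) (.e (nat_lit 770074) (nat_lit 10) (.e (nat_lit 81938) (nat_lit 20) (.e (nat_lit 2281) (nat_lit 150) (.e (nat_lit 770074) (nat_lit 10) (.e (nat_lit 81939) (nat_lit 20) .nil)))))) (.g (nat_lit 0) .nil .nil))) 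
(.lf (nat_lit 92319) (.g (nat_lit 2722) (.e (nat_lit 2281) (nat_lit 150) (.e (nat_lit 770074) (nat_lit 10) (.e (nat_lit 81946) (nat_lit 20) (.e (nat_lit 2281) (nat_lit 150) (.e (nat_lit 770074) (nat_lit 10) (.e (nat_lit 81946) (nat_lit 20) .nil)))))) (.g (nat_lit 0) .nil .nil))))))))

noncomputable def tv1265 : DT := (.nd (nat_lit 0) (.nd (nat_lit 1) (.nd (nat_lit 2) (.nd (nat_lit 3) (.nd (nat_lit 4) 
(.lf (nat_lit 92320) (.g (nat_lit 2819) (.e (nat_lit 2281) (nat_lit 150) (.e (nat_lit 770074) (nat_lit 10) (.e (nat_lit 81946) (nat_lit 20) (.e (nat_lit 2281) (nat_lit 150) (.e (nat_lit 770074) (nat_lit 10) (.e (nat_lit 81947) (nat_lit 20) .nil)))))) (.g (nat_lit 0) .nil .nil))) 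
(.lf (nat_lit 92336) (.g (nat_lit 1076) (.e (nat_lit 2281) (nat_lit 150) (.e (nat_lit 770074) (nat_lit 10) (.e (nat_lit 81959) (nat_lit 24) (.e (nat_lit 130816) (nat_lit 152) .nil)))) .nil))) (.nd (nat_lit 4) 
(.lf (nat_lit 92328) (.g (nat_lit 2559) (.e (nat_lit 2281) (nat_lit 150) (.e (nat_lit 770074) (nat_lit 10) (.e (nat_lit 81950) (nat_lit 21) (.e (nat_lit 57655) (nat_lit 152) (.e (nat_lit 1216) (nat_lit 90) (.e (nat_lit 81943) (nat_lit 20) .nil)))))) (.g (nat_lit 0) .nil .nil))) 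
(.lf (nat_lit 92344) (.g (nat_lit 1309) (.e (nat_lit 2281) (nat_lit 150) (.e (nat_lit 770074) (nat_lit 10) (.e (nat_lit 81965) (nat_lit 26) (.e (nat_lit 147466) (nat_lit 9) .nil)))) .nil)))) (.nd (nat_lit 3) (.nd (nat_lit 4) 
(.lf (nat_lit 92324) (.g (nat_lit 2681) (.e (nat_lit 2281) (nat_lit 150) (.e (nat_lit 770074) (nat_lit 10) (.e (nat_lit 81948) (nat_lit 21) (.e (nat_lit 57683) (nat_lit 155) (.e (nat_lit 122916) (nat_lit 14) (.e (nat_lit 352303) (nat_lit 20) .nil)))))) (.g (nat_lit 6) .nil .nil))) 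
(.lf (nat_lit 92340) (.g (nat_lit 2336) (.e (nat_lit 2281) (nat_lit 150) (.e (nat_lit 770074) (nat_lit 10) (.e (nat_lit 81963) (nat_lit 26) (.e (nat_lit 147496) (nat_lit 11) (.e (nat_lit 24631) (nat_lit 9) (.e (nat_lit 335928) (nat_lit 0) .nil)))))) (.g (nat_lit 4) .nil .nil)))) (.nd (nat_lit 4) 
(.lf (nat_lit 92332) (.g (nat_lit 1143) (.e (nat_lit 2281) (nat_lit 150) (.e (nat_lit 770074) (nat_lit 10) (.e (nat_lit 81957) (nat_lit 24) (.e (nat_lit 130816) (nat_lit 152) .nil)))) .nil)) 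
(.lf (nat_lit 92348) (.g (nat_lit 2126) (.e (nat_lit 2281) (nat_lit 150) (.e (nat_lit 770074) (nat_lit 10) (.e (nat_lit 81965) (nat_lit 26) (.e (nat_lit 147495) (nat_lit 11) (.e (nat_lit 24631) (nat_lit 9) (.e (nat_lit 335928) (nat_lit 0) .nil)))))) (.g (nat_lit 4) .nil .nil)))))) (.nd (nat_lit 2) (.nd (nat_lit 3) (.nd (nat_lit 4) 
(.lf (nat_lit 92322) (.g (nat_lit 2427) (.e (nat_lit 2281) (nat_lit 150) (.e (nat_lit 770074) (nat_lit 10) (.e (nat_lit 81947) (nat_lit 20) (.e (nat_lit 2281) (nat_lit 150) (.e (nat_lit 770074) (nat_lit 10) (.e (nat_lit 81942) (nat_lit 20) .nil)))))) (.g (nat_lit 0) .nil .nil))) 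
(.lf (nat_lit 92338) (.g (nat_lit 2595) (.e (nat_lit 2281) (nat_lit 150) (.e (nat_lit 770074) (nat_lit 10) (.e (nat_lit 81963) (nat_lit 26) (.e (nat_lit 147467) (nat_lit 9) (.e (nat_lit 314) (nat_lit 23) (.e (nat_lit 352297) (nat_lit 20) .nil)))))) (.g (nat_lit 0) .nil .nil)))) (.nd (nat_lit 4) 
(.lf (nat_lit 92330) (.g (nat_lit 2268) (.e (nat_lit 2281) (nat_lit 150) (.e (nat_lit 770074) (nat_lit 10) (.e (nat_lit 81950) (nat_lit 21) (.e (nat_lit 57684) (nat_lit 155) (.e (nat_lit 122916) (nat_lit 14) (.e (nat_lit 352302) (nat_lit 20) .nil)))))) (.g (nat_lit 5) .nil .nil))) 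
(.lf (nat_lit 92346) (.g (nat_lit 1785) (.e (nat_lit 2281) (nat_lit 150) (.e (nat_lit 770074) (nat_lit 10) (.e (nat_lit 81965) (nat_lit 26) (.e (nat_lit 147492) (nat_lit 11) (.e (nat_lit 24631) (nat_lit 9) (.e (nat_lit 335928) (nat_lit 0) .nil)))))) (.g (nat_lit 4) .nil .nil))))) (.nd (nat_lit 3) (.nd (nat_lit 4) 
(.lf (nat_lit 92326) (.g (nat_lit 1565) (.e (nat_lit 2281) (nat_lit 150) (.e (nat_lit 770074) (nat_lit 10) (.e (nat_lit 81949) (nat_lit 21) (.e (nat_lit 57683) (nat_lit 155) (.e (nat_lit 122916) (nat_lit 14) .nil))))) .nil)) 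
(.lf (nat_lit 92342) (.g (nat_lit 1327) (.e (nat_lit 2281) (nat_lit 150) (.e (nat_lit 770074) (nat_lit 10) (.e (nat_lit 81965) (nat_lit 26) (.e (nat_lit 147463) (nat_lit 9) .nil)))) .nil))) (.nd (nat_lit 4) 
(.lf (nat_lit 92334) (.g (nat_lit 1334) (.e (nat_lit 2281) (nat_lit 150) (.e (nat_lit 770074) (nat_lit 10) (.e (nat_lit 81959) (nat_lit 24) (.e (nat_lit 123049) (nat_lit 152) .nil)))) .nil)) 
(.lf (nat_lit 92350) (.g (nat_lit 1358) (.e (nat_lit 2281) (nat_lit 150) (.e (nat_lit 770076) (nat_lit 12) (.e (nat_lit 131116) (nat_lit 9) (.e (nat_lit 335986) (nat_lit 1) (.e (nat_lit 57665) (nat_lit 152) .nil))))) .nil)))))) (.nd (nat_lit 1) (.nd (nat_lit 2) (.nd (nat_lit 3) (.nd (nat_lit 4) 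
(.lf (nat_lit 92321) (.g (nat_lit 2416) (.e (nat_lit 2281) (nat_lit 150) (.e (nat_lit 770074) (nat_lit 10) (.e (nat_lit 81947) (nat_lit 20) (.e (nat_lit 2281) (nat_lit 150) (.e (nat_lit 770074) (nat_lit 10) (.e (nat_lit 81939) (nat_lit 20) .nil)))))) (.g (nat_lit 0) .nil .nil))) 
(.lf (nat_lit 92337) (.g (nat_lit 356) (.e (nat_lit 2281) (nat_lit 150) (.e (nat_lit 770074) (nat_lit 10) (.e (nat_lit 81963) (nat_lit 26) .nil))) .nil))) (.nd (nat_lit 4) 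
(.lf (nat_lit 92329) (.g (nat_lit 2718) (.e (nat_lit 2281) (nat_lit 150) (.e (nat_lit 770074) (nat_lit 10) (.e (nat_lit 81950) (nat_lit 21) (.e (nat_lit 57683) (nat_lit 155) (.e (nat_lit 122916) (nat_lit 14) (.e (nat_lit 352303) (nat_lit 20) .nil)))))) (.g (nat_lit 6) .nil .nil))) 
(.lf (nat_lit 92345) (.g (nat_lit 3274) (.e (nat_lit 2281) (nat_lit 150) (.e (nat_lit 770074) (nat_lit 10) (.e (nat_lit 81965) (nat_lit 26) (.e (nat_lit 147467) (nat_lit 9) (.e (nat_lit 314) (nat_lit 23) (.e (nat_lit 352297) (nat_lit 20) .nil)))))) (.g (nat_lit 0) .nil .nil))))) (.nd (nat_lit 3) (.nd (nat_lit 4) 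
(.lf (nat_lit 92325) (.g (nat_lit 2306) (.e (nat_lit 2281) (nat_lit 150) (.e (nat_lit 770074) (nat_lit 10) (.e (nat_lit 81949) (nat_lit 21) (.e (nat_lit 57655) (nat_lit 152) (.e (nat_lit 1216) (nat_lit 90) (.e (nat_lit 81939) (nat_lit 20) .nil)))))) (.g (nat_lit 5) .nil .nil))) 
(.lf (nat_lit 92341) (.g (nat_lit 349) (.e (nat_lit 2281) (nat_lit 150) (.e (nat_lit 770074) (nat_lit 10) (.e (nat_lit 81965) (nat_lit 26) .nil))) .nil))) (.nd (nat_lit 4) 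
(.lf (nat_lit 92333) (.g (nat_lit 2373) (.e (nat_lit 2281) (nat_lit 150) (.e (nat_lit 770074) (nat_lit 10) (.e (nat_lit 81959) (nat_lit 24) (.e (nat_lit 123048) (nat_lit 152) (.e (nat_lit 1216) (nat_lit 90) (.e (nat_lit 81939) (nat_lit 20) .nil)))))) (.g (nat_lit 5) .nil .nil))) 
(.lf (nat_lit 92349) (.g (nat_lit 2668) (.e (nat_lit 2281) (nat_lit 150) (.e (nat_lit 770074) (nat_lit 10) (.e (nat_lit 81965) (nat_lit 26) (.e (nat_lit 147496) (nat_lit 11) (.e (nat_lit 24631) (nat_lit 9) (.e (nat_lit 335928) (nat_lit 0) .nil)))))) (.g (nat_lit 5) .nil .nil)))))) (.nd (nat_lit 2) (.nd (nat_lit 3) (.nd (nat_lit 4) 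
(.lf (nat_lit 92323) (.g (nat_lit 2888) (.e (nat_lit 2281) (nat_lit 150) (.e (nat_lit 770074) (nat_lit 10) (.e (nat_lit 81947) (nat_lit 20) (.e (nat_lit 2281) (nat_lit 150) (.e (nat_lit 770074) (nat_lit 10) (.e (nat_lit 81947) (nat_lit 20) .nil)))))) (.g (nat_lit 0) .nil .nil))) 
(.lf (nat_lit 92339) (.g (nat_lit 1783) (.e (nat_lit 2281) (nat_lit 150) (.e (nat_lit 770074) (nat_lit 10) (.e (nat_lit 81963) (nat_lit 26) (.e (nat_lit 147495) (nat_lit 11) (.e (nat_lit 24631) (nat_lit 9) (.e (nat_lit 335928) (nat_lit 0) .nil)))))) (.g (nat_lit 4) .nil .nil)))) (.nd (nat_lit 4) 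
(.lf (nat_lit 92331) (.g (nat_lit 1191) (.e (nat_lit 2281) (nat_lit 150) (.e (nat_lit 770074) (nat_lit 10) (.e (nat_lit 81957) (nat_lit 24) (.e (nat_lit 123048) (nat_lit 152) .nil)))) .nil)) 
(.lf (nat_lit 92347) (.g (nat_lit 1095) (.e (nat_lit 2281) (nat_lit 150) (.e (nat_lit 770074) (nat_lit 10) (.e (nat_lit 81965) (nat_lit 26) (.e (nat_lit 147495) (nat_lit 11) .nil)))) .nil)))) (.nd (nat_lit 3) (.nd (nat_lit 4) 
(.lf (nat_lit 92327) (.g (nat_lit 1879) (.e (nat_lit 2281) (nat_lit 150) (.e (nat_lit 770074) (nat_lit 10) (.e (nat_lit 81950) (nat_lit 21) (.e (nat_lit 57654) (nat_lit 152) (.e (nat_lit 1216) (nat_lit 90) (.e (nat_lit 81939) (nat_lit 20) .nil)))))) (.g (nat_lit 4) .nil .nil))) 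
(.lf (nat_lit 92343) (.g (nat_lit 783) (.e (nat_lit 2281) (nat_lit 150) (.e (nat_lit 770074) (nat_lit 10) (.e (nat_lit 81965) (nat_lit 26) (.e (nat_lit 147465) (nat_lit 9) .nil)))) .nil))) (.nd (nat_lit 4) 
(.lf (nat_lit 92335) (.g (nat_lit 1334) (.e (nat_lit 2281) (nat_lit 150) (.e (nat_lit 770074) (nat_lit 10) (.e (nat_lit 81959) (nat_lit 24) (.e (nat_lit 123050) (nat_lit 152) .nil)))) .nil)) 
(.lf (nat_lit 92351) (.g (nat_lit 1711) (.e (nat_lit 2281) (nat_lit 150) (.e (nat_lit 770076) (nat_lit 12) (.e (nat_lit 131116) (nat_lit 9) (.e (nat_lit 335988) (nat_lit 1) (.e (nat_lit 57665) (nat_lit 152) (.e (nat_lit 7936) (nat_lit 90) (.e (nat_lit 81942) (nat_lit 20) .nil))))))) (.g (nat_lit 4) .nil .nil))))))))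

noncomputable def tv1266 : DT := (.nd (nat_lit 0) (.nd (nat_lit 1) (.nd (nat_lit 2) (.nd (nat_lit 3) (.nd (nat_lit 4) (.nd (nat_lit 5) 
(.lf (nat_lit 92352) (.g (nat_lit 1711) (.e (nat_lit 2281) (nat_lit 150) (.e (nat_lit 770076) (nat_lit 12) (.e (nat_lit 131127) (nat_lit 13) (.e (nat_lit 393260) (nat_lit 21) (.e (nat_lit 417536) (nat_lit 16) (.e (nat_lit 286724) (nat_lit 0) .nil)))))) (.g (nat_lit 4) .nil .nil))) 
(.lf (nat_lit 92384) (.g (nat_lit 1806) (.e (nat_lit 2283) (nat_lit 150) (.e (nat_lit 770071) (nat_lit 8) (.e (nat_lit 65583) (nat_lit 7) (.e (nat_lit 319530) (nat_lit 16) (.e (nat_lit 286756) (nat_lit 10) (.e (nat_lit 344160) (nat_lit 37) (.e (nat_lit 647195) (nat_lit 9) (.e (nat_lit 7936) (nat_lit 81) .nil)))))))) (.g (nat_lit 4) .nil .nil)))) (.nd (nat_lit 5) 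
(.lf (nat_lit 92368) (.g (nat_lit 2008) (.e (nat_lit 2283) (nat_lit 150) (.e (nat_lit 770071) (nat_lit 8) (.e (nat_lit 65583) (nat_lit 7) (.e (nat_lit 319530) (nat_lit 16) (.e (nat_lit 286748) (nat_lit 9) (.e (nat_lit 335925) (nat_lit 0) (.e (nat_lit 1013) (nat_lit 81) (.e (nat_lit 5566) (nat_lit 308) (.e (nat_lit 57348) (nat_lit 0) .nil))))))))) (.g (nat_lit 4) .nil .nil))) 
(.lf (nat_lit 92400) (.g (nat_lit 2294) (.e (nat_lit 2283) (nat_lit 150) (.e (nat_lit 770071) (nat_lit 8) (.e (nat_lit 65586) (nat_lit 7) (.e (nat_lit 319531) (nat_lit 16) (.e (nat_lit 286748) (nat_lit 9) (.e (nat_lit 335925) (nat_lit 0) (.e (nat_lit 1042) (nat_lit 81) (.e (nat_lit 5566) (nat_lit 308) (.e (nat_lit 57348) (nat_lit 0) .nil))))))))) (.g (nat_lit 4) .nil .nil))))) 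
(.nd (nat_lit 4) (.nd (nat_lit 5) 
(.lf (nat_lit 92360) (.g (nat_lit 2409) (.e (nat_lit 2283) (nat_lit 150) (.e (nat_lit 770069) (nat_lit 7) (.e (nat_lit 57479) (nat_lit 28) (.e (nat_lit 557103) (nat_lit 14) (.e (nat_lit 180250) (nat_lit 10) (.e (nat_lit 573487) (nat_lit 14) (.e (nat_lit 81664) (nat_lit 5) (.e (nat_lit 532481) (nat_lit 0) .nil)))))))) (.g (nat_lit 4) .nil .nil))) 
(.lf (nat_lit 92392) (.g (nat_lit 3120) (.e (nat_lit 2283) (nat_lit 150) (.e (nat_lit 770071) (nat_lit 8) (.e (nat_lit 65586) (nat_lit 7) (.e (nat_lit 319531) (nat_lit 16) (.e (nat_lit 286748) (nat_lit 9) (.e (nat_lit 335925) (nat_lit 0) (.e (nat_lit 1008) (nat_lit 81) (.e (nat_lit 5566) (nat_lit 308) (.e (nat_lit 57348) (nat_lit 0) .nil))))))))) (.g (nat_lit 5) .nil .nil)))) (.nd (nat_lit 5) 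
(.lf (nat_lit 92376) (.g (nat_lit 2708) (.e (nat_lit 2283) (nat_lit 150) (.e (nat_lit 770071) (nat_lit 8) (.e (nat_lit 65583) (nat_lit 7) (.e (nat_lit 319530) (nat_lit 16) (.e (nat_lit 286751) (nat_lit 10) (.e (nat_lit 344091) (nat_lit 18) (.e (nat_lit 5568) (nat_lit 308) (.e (nat_lit 57348) (nat_lit 0) .nil)))))))) (.g (nat_lit 6) .nil .nil))) 
(.lf (nat_lit 92408) (.g (nat_lit 4266) (.e (nat_lit 2283) (nat_lit 150) (.e (nat_lit 770071) (nat_lit 8) (.e (nat_lit 65586) (nat_lit 7) (.e (nat_lit 319531) (nat_lit 16) (.e (nat_lit 286751) (nat_lit 10) (.e (nat_lit 344091) (nat_lit 18) (.e (nat_lit 5566) (nat_lit 308) (.e (nat_lit 57348) (nat_lit 0) .nil)))))))) (.g (nat_lit 8) .nil .nil)))))) 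
(.nd (nat_lit 3) (.nd (nat_lit 4) (.nd (nat_lit 5) 
(.lf (nat_lit 92356) (.g (nat_lit 4714) (.e (nat_lit 2283) (nat_lit 150) (.e (nat_lit 770068) (nat_lit 7) (.e (nat_lit 57479) (nat_lit 28) (.e (nat_lit 557105) (nat_lit 14) (.e (nat_lit 180252) (nat_lit 10) (.e (nat_lit 573488) (nat_lit 14) (.e (nat_lit 81664) (nat_lit 5) (.e (nat_lit 532481) (nat_lit 0) .nil)))))))) (.g (nat_lit 6) .nil .nil))) 
(.lf (nat_lit 92388) (.g (nat_lit 3093) (.e (nat_lit 2283) (nat_lit 150) (.e (nat_lit 770071) (nat_lit 8) (.e (nat_lit 65586) (nat_lit 7) (.e (nat_lit 319531) (nat_lit 16) (.e (nat_lit 286748) (nat_lit 9) (.e (nat_lit 335925) (nat_lit 0) (.e (nat_lit 993) (nat_lit 81) (.e (nat_lit 5566) (nat_lit 308) (.e (nat_lit 57348) (nat_lit 0) .nil))))))))) (.g (nat_lit 5) .nil .nil)))) (.nd (nat_lit 5) 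
(.lf (nat_lit 92372) (.g (nat_lit 1613) (.e (nat_lit 2283) (nat_lit 150) (.e (nat_lit 770071) (nat_lit 8) (.e (nat_lit 65583) (nat_lit 7) (.e (nat_lit 319530) (nat_lit 16) (.e (nat_lit 286748) (nat_lit 9) (.e (nat_lit 335928) (nat_lit 0) (.e (nat_lit 988) (nat_lit 81) (.e (nat_lit 5567) (nat_lit 308) (.e (nat_lit 57348) (nat_lit 0) .nil))))))))) (.g (nat_lit 4) .nil .nil))) 
(.lf (nat_lit 92404) (.g (nat_lit 1982) (.e (nat_lit 2283) (nat_lit 150) (.e (nat_lit 770071) (nat_lit 8) (.e (nat_lit 65586) (nat_lit 7) (.e (nat_lit 319531) (nat_lit 16) (.e (nat_lit 286748) (nat_lit 9) (.e (nat_lit 335928) (nat_lit 0) (.e (nat_lit 1008) (nat_lit 81) (.e (nat_lit 5566) (nat_lit 308) (.e (nat_lit 57348) (nat_lit 0) .nil))))))))) (.g (nat_lit 4) .nil .nil))))) 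
(.nd (nat_lit 4) (.nd (nat_lit 5) 
(.lf (nat_lit 92364) (.g (nat_lit 3854) (.e (nat_lit 2283) (nat_lit 150) (.e (nat_lit 770071) (nat_lit 8) (.e (nat_lit 65568) (nat_lit 2) (.e (nat_lit 90170) (nat_lit 13) (.e (nat_lit 172106) (nat_lit 10) (.e (nat_lit 434244) (nat_lit 28) (.e (nat_lit 573449) (nat_lit 9) (.e (nat_lit 974) (nat_lit 81) .nil)))))))) (.g (nat_lit 8) .nil .nil))) 
(.lf (nat_lit 92396) (.g (nat_lit 3011) (.e (nat_lit 2283) (nat_lit 150) (.e (nat_lit 770071) (nat_lit 8) (.e (nat_lit 65586) (nat_lit 7) (.e (nat_lit 319531) (nat_lit 16) (.e (nat_lit 286748) (nat_lit 9) (.e (nat_lit 335925) (nat_lit 0) (.e (nat_lit 1014) (nat_lit 81) (.e (nat_lit 5567) (nat_lit 308) (.e (nat_lit 57348) (nat_lit 0) .nil))))))))) (.g (nat_lit 5) .nil .nil)))) (.nd (nat_lit 5) 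
(.lf (nat_lit 92380) (.g (nat_lit 2600) (.e (nat_lit 2283) (nat_lit 150) (.e (nat_lit 770071) (nat_lit 8) (.e (nat_lit 65583) (nat_lit 7) (.e (nat_lit 319530) (nat_lit 16) (.e (nat_lit 286751) (nat_lit 10) (.e (nat_lit 344096) (nat_lit 18) (.e (nat_lit 5568) (nat_lit 308) (.e (nat_lit 57348) (nat_lit 0) .nil)))))))) (.g (nat_lit 6) .nil .nil))) 
(.lf (nat_lit 92412) (.g (nat_lit 2537) (.e (nat_lit 2283) (nat_lit 150) (.e (nat_lit 770071) (nat_lit 8) (.e (nat_lit 65586) (nat_lit 7) (.e (nat_lit 319531) (nat_lit 16) (.e (nat_lit 286751) (nat_lit 10) (.e (nat_lit 344095) (nat_lit 18) (.e (nat_lit 5568) (nat_lit 308) (.e (nat_lit 57348) (nat_lit 0) .nil)))))))) (.g (nat_lit 4) .nil .nil))))))) 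
(.nd (nat_lit 2) (.nd (nat_lit 3) (.nd (nat_lit 4) (.nd (nat_lit 5) 
(.lf (nat_lit 92354) (.g (nat_lit 1827) (.e (nat_lit 2282) (nat_lit 150) (.e (nat_lit 770074) (nat_lit 10) (.e (nat_lit 81965) (nat_lit 26) (.e (nat_lit 147494) (nat_lit 11) (.e (nat_lit 24638) (nat_lit 9) (.e (nat_lit 335892) (nat_lit 0) .nil)))))) (.g (nat_lit 5) .nil .nil))) 
(.lf (nat_lit 92386) (.g (nat_lit 3597) (.e (nat_lit 2283) (nat_lit 150) (.e (nat_lit 770071) (nat_lit 8) (.e (nat_lit 65583) (nat_lit 7) (.e (nat_lit 319534) (nat_lit 16) (.e (nat_lit 286756) (nat_lit 10) (.e (nat_lit 344160) (nat_lit 37) (.e (nat_lit 647195) (nat_lit 9) (.e (nat_lit 982) (nat_lit 81) .nil)))))))) (.g (nat_lit 5) .nil .nil)))) (.nd (nat_lit 5) 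
(.lf (nat_lit 92370) (.g (nat_lit 1904) (.e (nat_lit 2283) (nat_lit 150) (.e (nat_lit 770071) (nat_lit 8) (.e (nat_lit 65583) (nat_lit 7) (.e (nat_lit 319530) (nat_lit 16) (.e (nat_lit 286748) (nat_lit 9) (.e (nat_lit 335925) (nat_lit 0) (.e (nat_lit 1013) (nat_lit 81) (.e (nat_lit 5570) (nat_lit 308) (.e (nat_lit 57348) (nat_lit 0) .nil))))))))) (.g (nat_lit 4) .nil .nil))) 
(.lf (nat_lit 92402) (.g (nat_lit 1927) (.e (nat_lit 2283) (nat_lit 150) (.e (nat_lit 770071) (nat_lit 8) (.e (nat_lit 65586) (nat_lit 7) (.e (nat_lit 319531) (nat_lit 16) (.e (nat_lit 286748) (nat_lit 9) (.e (nat_lit 335928) (nat_lit 0) (.e (nat_lit 994) (nat_lit 81) (.e (nat_lit 5567) (nat_lit 308) (.e (nat_lit 57348) (nat_lit 0) .nil))))))))) (.g (nat_lit 4) .nil .nil))))) 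
(.nd (nat_lit 4) (.nd (nat_lit 5) 
(.lf (nat_lit 92362) (.g (nat_lit 4797) (.e (nat_lit 2283) (nat_lit 150) (.e (nat_lit 770069) (nat_lit 7) (.e (nat_lit 57479) (nat_lit 28) (.e (nat_lit 557105) (nat_lit 14) (.e (nat_lit 180252) (nat_lit 10) (.e (nat_lit 573488) (nat_lit 14) (.e (nat_lit 81664) (nat_lit 5) (.e (nat_lit 532481) (nat_lit 0) .nil)))))))) (.g (nat_lit 6) .nil .nil))) 
(.lf (nat_lit 92394) (.g (nat_lit 2894) (.e (nat_lit 2283) (nat_lit 150) (.e (nat_lit 770071) (nat_lit 8) (.e (nat_lit 65586) (nat_lit 7) (.e (nat_lit 319531) (nat_lit 16) (.e (nat_lit 286748) (nat_lit 9) (.e (nat_lit 335925) (nat_lit 0) (.e (nat_lit 1012) (nat_lit 81) (.e (nat_lit 5567) (nat_lit 308) (.e (nat_lit 57348) (nat_lit 0) .nil))))))))) (.g (nat_lit 5) .nil .nil)))) (.nd (nat_lit 5) 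
(.lf (nat_lit 92378) (.g (nat_lit 1638) (.e (nat_lit 2283) (nat_lit 150) (.e (nat_lit 770071) (nat_lit 8) (.e (nat_lit 65583) (nat_lit 7) (.e (nat_lit 319530) (nat_lit 16) (.e (nat_lit 286751) (nat_lit 10) (.e (nat_lit 344095) (nat_lit 18) (.e (nat_lit 5568) (nat_lit 308) (.e (nat_lit 57348) (nat_lit 0) .nil)))))))) (.g (nat_lit 4) .nil .nil))) 
(.lf (nat_lit 92410) (.g (nat_lit 3625) (.e (nat_lit 2283) (nat_lit 150) (.e (nat_lit 770071) (nat_lit 8) (.e (nat_lit 65586) (nat_lit 7) (.e (nat_lit 319531) (nat_lit 16) (.e (nat_lit 286751) (nat_lit 10) (.e (nat_lit 344091) (nat_lit 18) (.e (nat_lit 5568) (nat_lit 308) (.e (nat_lit 57348) (nat_lit 0) .nil)))))))) (.g (nat_lit 6) .nil .nil)))))) 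
(.nd (nat_lit 3) (.nd (nat_lit 4) (.nd (nat_lit 5) 
(.lf (nat_lit 92358) (.g (nat_lit 3141) (.e (nat_lit 2283) (nat_lit 150) (.e (nat_lit 770068) (nat_lit 7) (.e (nat_lit 57480) (nat_lit 28) (.e (nat_lit 557105) (nat_lit 14) (.e (nat_lit 180252) (nat_lit 10) (.e (nat_lit 573487) (nat_lit 14) (.e (nat_lit 81664) (nat_lit 5) (.e (nat_lit 532481) (nat_lit 0) .nil)))))))) (.g (nat_lit 6) .nil .nil))) 
(.lf (nat_lit 92390) (.g (nat_lit 2286) (.e (nat_lit 2283) (nat_lit 150) (.e (nat_lit 770071) (nat_lit 8) (.e (nat_lit 65586) (nat_lit 7) (.e (nat_lit 319531) (nat_lit 16) (.e (nat_lit 286748) (nat_lit 9) (.e (nat_lit 335925) (nat_lit 0) (.e (nat_lit 994) (nat_lit 81) (.e (nat_lit 5566) (nat_lit 308) (.e (nat_lit 57348) (nat_lit 0) .nil))))))))) (.g (nat_lit 4) .nil .nil)))) (.nd (nat_lit 5) 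
(.lf (nat_lit 92374) (.g (nat_lit 3344) (.e (nat_lit 2283) (nat_lit 150) (.e (nat_lit 770071) (nat_lit 8) (.e (nat_lit 65583) (nat_lit 7) (.e (nat_lit 319530) (nat_lit 16) (.e (nat_lit 286751) (nat_lit 10) (.e (nat_lit 344091) (nat_lit 18) (.e (nat_lit 5566) (nat_lit 308) (.e (nat_lit 57348) (nat_lit 0) .nil)))))))) (.g (nat_lit 8) .nil .nil))) 
(.lf (nat_lit 92406) (.g (nat_lit 1939) (.e (nat_lit 2283) (nat_lit 150) (.e (nat_lit 770071) (nat_lit 8) (.e (nat_lit 65586) (nat_lit 7) (.e (nat_lit 319531) (nat_lit 16) (.e (nat_lit 286748) (nat_lit 9) (.e (nat_lit 335928) (nat_lit 0) (.e (nat_lit 1014) (nat_lit 81) (.e (nat_lit 5567) (nat_lit 308) (.e (nat_lit 57348) (nat_lit 0) .nil))))))))) (.g (nat_lit 4) .nil .nil))))) 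
(.nd (nat_lit 4) (.nd (nat_lit 5) 
(.lf (nat_lit 92366) (.g (nat_lit 2563) (.e (nat_lit 2283) (nat_lit 150) (.e (nat_lit 770071) (nat_lit 8) (.e (nat_lit 65583) (nat_lit 7) (.e (nat_lit 319530) (nat_lit 16) (.e (nat_lit 286748) (nat_lit 9) (.e (nat_lit 335925) (nat_lit 0) (.e (nat_lit 993) (nat_lit 81) (.e (nat_lit 5567) (nat_lit 308) (.e (nat_lit 57348) (nat_lit 0) .nil))))))))) (.g (nat_lit 5) .nil .nil))) 
(.lf (nat_lit 92398) (.g (nat_lit 2333) (.e (nat_lit 2283) (nat_lit 150) (.e (nat_lit 770071) (nat_lit 8) (.e (nat_lit 65586) (nat_lit 7) (.e (nat_lit 319531) (nat_lit 16) (.e (nat_lit 286748) (nat_lit 9) (.e (nat_lit 335925) (nat_lit 0) (.e (nat_lit 1015) (nat_lit 81) (.e (nat_lit 5566) (nat_lit 308) (.e (nat_lit 57348) (nat_lit 0) .nil))))))))) (.g (nat_lit 4) .nil .nil)))) (.nd (nat_lit 5) 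
(.lf (nat_lit 92382) (.g (nat_lit 2470) (.e (nat_lit 2283) (nat_lit 150) (.e (nat_lit 770071) (nat_lit 8) (.e (nat_lit 65583) (nat_lit 7) (.e (nat_lit 319530) (nat_lit 16) (.e (nat_lit 286756) (nat_lit 10) (.e (nat_lit 344090) (nat_lit 18) (.e (nat_lit 5566) (nat_lit 308) (.e (nat_lit 57348) (nat_lit 0) .nil)))))))) (.g (nat_lit 5) .nil .nil))) 
(.lf (nat_lit 92414) (.g (nat_lit 3499) (.e (nat_lit 2283) (nat_lit 150) (.e (nat_lit 770071) (nat_lit 8) (.e (nat_lit 65586) (nat_lit 7) (.e (nat_lit 319531) (nat_lit 16) (.e (nat_lit 286751) (nat_lit 10) (.e (nat_lit 344096) (nat_lit 18) (.e (nat_lit 5568) (nat_lit 308) (.e (nat_lit 57348) (nat_lit 0) .nil)))))))) (.g (nat_lit 6) .nil .nil)))))))) 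
(.nd (nat_lit 1) (.nd (nat_lit 2) (.nd (nat_lit 3) (.nd (nat_lit 4) (.nd (nat_lit 5) 
(.lf (nat_lit 92353) (.g (nat_lit 436) (.e (nat_lit 2282) (nat_lit 150) (.e (nat_lit 770074) (nat_lit 10) (.e (nat_lit 81965) (nat_lit 26) .nil))) .nil)) 
(.lf (nat_lit 92385) (.g (nat_lit 1914) (.e (nat_lit 2283) (nat_lit 150) (.e (nat_lit 770071) (nat_lit 8) (.e (nat_lit 65583) (nat_lit 7) (.e (nat_lit 319530) (nat_lit 16) (.e (nat_lit 286756) (nat_lit 10) (.e (nat_lit 344160) (nat_lit 37) (.e (nat_lit 647196) (nat_lit 9) (.e (nat_lit 993) (nat_lit 81) .nil)))))))) (.g (nat_lit 4) .nil .nil)))) (.nd (nat_lit 5) 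
(.lf (nat_lit 92369) (.g (nat_lit 2556) (.e (nat_lit 2283) (nat_lit 150) (.e (nat_lit 770071) (nat_lit 8) (.e (nat_lit 65583) (nat_lit 7) (.e (nat_lit 319530) (nat_lit 16) (.e (nat_lit 286748) (nat_lit 9) (.e (nat_lit 335925) (nat_lit 0) (.e (nat_lit 1013) (nat_lit 81) (.e (nat_lit 5567) (nat_lit 308) (.e (nat_lit 57348) (nat_lit 0) .nil))))))))) (.g (nat_lit 5) .nil .nil))) 
(.lf (nat_lit 92401) (.g (nat_lit 2011) (.e (nat_lit 2283) (nat_lit 150) (.e (nat_lit 770071) (nat_lit 8) (.e (nat_lit 65586) (nat_lit 7) (.e (nat_lit 319531) (nat_lit 16) (.e (nat_lit 286748) (nat_lit 9) (.e (nat_lit 335928) (nat_lit 0) (.e (nat_lit 988) (nat_lit 81) (.e (nat_lit 5568) (nat_lit 308) (.e (nat_lit 57348) (nat_lit 0) .nil))))))))) (.g (nat_lit 4) .nil .nil))))) 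
(.nd (nat_lit 4) (.nd (nat_lit 5) 
(.lf (nat_lit 92361) (.g (nat_lit 3129) (.e (nat_lit 2283) (nat_lit 150) (.e (nat_lit 770069) (nat_lit 7) (.e (nat_lit 57479) (nat_lit 28) (.e (nat_lit 557105) (nat_lit 14) (.e (nat_lit 180252) (nat_lit 10) (.e (nat_lit 573487) (nat_lit 14) (.e (nat_lit 81664) (nat_lit 5) (.e (nat_lit 532485) (nat_lit 0) .nil)))))))) (.g (nat_lit 5) .nil .nil))) 
(.lf (nat_lit 92393) (.g (nat_lit 2326) (.e (nat_lit 2283) (nat_lit 150) (.e (nat_lit 770071) (nat_lit 8) (.e (nat_lit 65586) (nat_lit 7) (.e (nat_lit 319531) (nat_lit 16) (.e (nat_lit 286748) (nat_lit 9) (.e (nat_lit 335925) (nat_lit 0) (.e (nat_lit 1012) (nat_lit 81) (.e (nat_lit 5566) (nat_lit 308) (.e (nat_lit 57348) (nat_lit 0) .nil))))))))) (.g (nat_lit 4) .nil .nil)))) (.nd (nat_lit 5) 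
(.lf (nat_lit 92377) (.g (nat_lit 1946) (.e (nat_lit 2283) (nat_lit 150) (.e (nat_lit 770071) (nat_lit 8) (.e (nat_lit 65583) (nat_lit 7) (.e (nat_lit 319530) (nat_lit 16) (.e (nat_lit 286751) (nat_lit 10) (.e (nat_lit 344091) (nat_lit 18) (.e (nat_lit 5570) (nat_lit 308) (.e (nat_lit 57348) (nat_lit 0) .nil)))))))) (.g (nat_lit 4) .nil .nil))) 
(.lf (nat_lit 92409) (.g (nat_lit 3046) (.e (nat_lit 2283) (nat_lit 150) (.e (nat_lit 770071) (nat_lit 8) (.e (nat_lit 65586) (nat_lit 7) (.e (nat_lit 319531) (nat_lit 16) (.e (nat_lit 286751) (nat_lit 10) (.e (nat_lit 344091) (nat_lit 18) (.e (nat_lit 5567) (nat_lit 308) (.e (nat_lit 57348) (nat_lit 0) .nil)))))))) (.g (nat_lit 5) .nil .nil)))))) 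
(.nd (nat_lit 3) (.nd (nat_lit 4) (.nd (nat_lit 5) 
(.lf (nat_lit 92357) (.g (nat_lit 2086) (.e (nat_lit 2283) (nat_lit 150) (.e (nat_lit 770068) (nat_lit 7) (.e (nat_lit 57479) (nat_lit 28) (.e (nat_lit 557105) (nat_lit 14) (.e (nat_lit 180252) (nat_lit 10) (.e (nat_lit 573489) (nat_lit 14) (.e (nat_lit 81664) (nat_lit 5) (.e (nat_lit 532484) (nat_lit 0) .nil)))))))) (.g (nat_lit 4) .nil .nil))) 
(.lf (nat_lit 92389) (.g (nat_lit 3023) (.e (nat_lit 2283) (nat_lit 150) (.e (nat_lit 770071) (nat_lit 8) (.e (nat_lit 65586) (nat_lit 7) (.e (nat_lit 319531) (nat_lit 16) (.e (nat_lit 286748) (nat_lit 9) (.e (nat_lit 335925) (nat_lit 0) (.e (nat_lit 993) (nat_lit 81) (.e (nat_lit 5568) (nat_lit 308) (.e (nat_lit 57348) (nat_lit 0) .nil))))))))) (.g (nat_lit 5) .nil .nil)))) (.nd (nat_lit 5) 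
(.lf (nat_lit 92373) (.g (nat_lit 2025) (.e (nat_lit 2283) (nat_lit 150) (.e (nat_lit 770071) (nat_lit 8) (.e (nat_lit 65583) (nat_lit 7) (.e (nat_lit 319530) (nat_lit 16) (.e (nat_lit 286748) (nat_lit 9) (.e (nat_lit 336034) (nat_lit 4) (.e (nat_lit 123226) (nat_lit 280) (.e (nat_lit 57348) (nat_lit 0) .nil)))))))) (.g (nat_lit 4) .nil .nil))) 
(.lf (nat_lit 92405) (.g (nat_lit 1912) (.e (nat_lit 2283) (nat_lit 150) (.e (nat_lit 770071) (nat_lit 8) (.e (nat_lit 65586) (nat_lit 7) (.e (nat_lit 319531) (nat_lit 16) (.e (nat_lit 286748) (nat_lit 9) (.e (nat_lit 335928) (nat_lit 0) (.e (nat_lit 1013) (nat_lit 81) (.e (nat_lit 5567) (nat_lit 308) (.e (nat_lit 57348) (nat_lit 0) .nil))))))))) (.g (nat_lit 4) .nil .nil))))) 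
(.nd (nat_lit 4) (.nd (nat_lit 5) 
(.lf (nat_lit 92365) (.g (nat_lit 3334) (.e (nat_lit 2283) (nat_lit 150) (.e (nat_lit 770071) (nat_lit 8) (.e (nat_lit 65568) (nat_lit 2) (.e (nat_lit 90170) (nat_lit 13) (.e (nat_lit 172106) (nat_lit 10) (.e (nat_lit 434244) (nat_lit 28) (.e (nat_lit 573450) (nat_lit 9) (.e (nat_lit 974) (nat_lit 81) .nil)))))))) (.g (nat_lit 7) .nil .nil))) 
(.lf (nat_lit 92397) (.g (nat_lit 2317) (.e (nat_lit 2283) (nat_lit 150) (.e (nat_lit 770071) (nat_lit 8) (.e (nat_lit 65586) (nat_lit 7) (.e (nat_lit 319531) (nat_lit 16) (.e (nat_lit 286748) (nat_lit 9) (.e (nat_lit 335925) (nat_lit 0) (.e (nat_lit 1014) (nat_lit 81) (.e (nat_lit 5570) (nat_lit 308) (.e (nat_lit 57348) (nat_lit 0) .nil))))))))) (.g (nat_lit 4) .nil .nil)))) (.nd (nat_lit 5) 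
(.lf (nat_lit 92381) (.g (nat_lit 2178) (.e (nat_lit 2283) (nat_lit 150) (.e (nat_lit 770071) (nat_lit 8) (.e (nat_lit 65583) (nat_lit 7) (.e (nat_lit 319530) (nat_lit 16) (.e (nat_lit 286755) (nat_lit 10) (.e (nat_lit 344091) (nat_lit 18) (.e (nat_lit 5566) (nat_lit 308) (.e (nat_lit 57348) (nat_lit 0) .nil)))))))) (.g (nat_lit 4) .nil .nil))) 
(.lf (nat_lit 92413) (.g (nat_lit 3441) (.e (nat_lit 2283) (nat_lit 150) (.e (nat_lit 770071) (nat_lit 8) (.e (nat_lit 65586) (nat_lit 7) (.e (nat_lit 319531) (nat_lit 16) (.e (nat_lit 286751) (nat_lit 10) (.e (nat_lit 344096) (nat_lit 18) (.e (nat_lit 5566) (nat_lit 308) (.e (nat_lit 57348) (nat_lit 0) .nil)))))))) (.g (nat_lit 6) .nil .nil))))))) 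
(.nd (nat_lit 2) (.nd (nat_lit 3) (.nd (nat_lit 4) (.nd (nat_lit 5) 
(.lf (nat_lit 92355) (.g (nat_lit 4393) (.e (nat_lit 2283) (nat_lit 150) (.e (nat_lit 770068) (nat_lit 7) (.e (nat_lit 57479) (nat_lit 28) (.e (nat_lit 557105) (nat_lit 14) (.e (nat_lit 180252) (nat_lit 10) (.e (nat_lit 573487) (nat_lit 14) (.e (nat_lit 81664) (nat_lit 5) (.e (nat_lit 532481) (nat_lit 0) .nil)))))))) (.g (nat_lit 6) .nil .nil))) 
(.lf (nat_lit 92387) (.g (nat_lit 3079) (.e (nat_lit 2283) (nat_lit 150) (.e (nat_lit 770071) (nat_lit 8) (.e (nat_lit 65585) (nat_lit 7) (.e (nat_lit 319534) (nat_lit 16) (.e (nat_lit 286756) (nat_lit 10) (.e (nat_lit 344090) (nat_lit 18) (.e (nat_lit 5566) (nat_lit 308) (.e (nat_lit 57348) (nat_lit 0) .nil)))))))) (.g (nat_lit 5) .nil .nil)))) (.nd (nat_lit 5) 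
(.lf (nat_lit 92371) (.g (nat_lit 1907) (.e (nat_lit 2283) (nat_lit 150) (.e (nat_lit 770071) (nat_lit 8) (.e (nat_lit 65583) (nat_lit 7) (.e (nat_lit 319530) (nat_lit 16) (.e (nat_lit 286748) (nat_lit 9) (.e (nat_lit 335925) (nat_lit 0) (.e (nat_lit 1014) (nat_lit 81) (.e (nat_lit 5568) (nat_lit 308) (.e (nat_lit 57348) (nat_lit 0) .nil))))))))) (.g (nat_lit 4) .nil .nil))) 
(.lf (nat_lit 92403) (.g (nat_lit 2085) (.e (nat_lit 2283) (nat_lit 150) (.e (nat_lit 770071) (nat_lit 8) (.e (nat_lit 65586) (nat_lit 7) (.e (nat_lit 319531) (nat_lit 16) (.e (nat_lit 286748) (nat_lit 9) (.e (nat_lit 335928) (nat_lit 0) (.e (nat_lit 995) (nat_lit 81) (.e (nat_lit 5567) (nat_lit 308) (.e (nat_lit 57348) (nat_lit 0) .nil))))))))) (.g (nat_lit 4) .nil .nil))))) 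
(.nd (nat_lit 4) (.nd (nat_lit 5) 
(.lf (nat_lit 92363) (.g (nat_lit 3351) (.e (nat_lit 2283) (nat_lit 150) (.e (nat_lit 770069) (nat_lit 7) (.e (nat_lit 57479) (nat_lit 28) (.e (nat_lit 557105) (nat_lit 14) (.e (nat_lit 180252) (nat_lit 10) (.e (nat_lit 573489) (nat_lit 14) (.e (nat_lit 81664) (nat_lit 5) (.e (nat_lit 532485) (nat_lit 0) .nil)))))))) (.g (nat_lit 6) .nil .nil))) 
(.lf (nat_lit 92395) (.g (nat_lit 3010) (.e (nat_lit 2283) (nat_lit 150) (.e (nat_lit 770071) (nat_lit 8) (.e (nat_lit 65586) (nat_lit 7) (.e (nat_lit 319531) (nat_lit 16) (.e (nat_lit 286748) (nat_lit 9) (.e (nat_lit 335925) (nat_lit 0) (.e (nat_lit 1013) (nat_lit 81) (.e (nat_lit 5568) (nat_lit 308) (.e (nat_lit 57348) (nat_lit 0) .nil))))))))) (.g (nat_lit 5) .nil .nil)))) (.nd (nat_lit 5) 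
(.lf (nat_lit 92379) (.g (nat_lit 2542) (.e (nat_lit 2283) (nat_lit 150) (.e (nat_lit 770071) (nat_lit 8) (.e (nat_lit 65583) (nat_lit 7) (.e (nat_lit 319530) (nat_lit 16) (.e (nat_lit 286751) (nat_lit 10) (.e (nat_lit 344096) (nat_lit 18) (.e (nat_lit 5566) (nat_lit 308) (.e (nat_lit 57348) (nat_lit 0) .nil)))))))) (.g (nat_lit 6) .nil .nil))) 
(.lf (nat_lit 92411) (.g (nat_lit 2863) (.e (nat_lit 2283) (nat_lit 150) (.e (nat_lit 770071) (nat_lit 8) (.e (nat_lit 65586) (nat_lit 7) (.e (nat_lit 319531) (nat_lit 16) (.e (nat_lit 286751) (nat_lit 10) (.e (nat_lit 344091) (nat_lit 18) (.e (nat_lit 5570) (nat_lit 308) (.e (nat_lit 57348) (nat_lit 0) .nil)))))))) (.g (nat_lit 5) .nil .nil)))))) 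
(.nd (nat_lit 3) (.nd (nat_lit 4) (.nd (nat_lit 5) 
(.lf (nat_lit 92359) (.g (nat_lit 3555) (.e (nat_lit 2283) (nat_lit 150) (.e (nat_lit 770068) (nat_lit 7) (.e (nat_lit 57480) (nat_lit 28) (.e (nat_lit 557105) (nat_lit 14) (.e (nat_lit 180252) (nat_lit 10) (.e (nat_lit 573488) (nat_lit 14) (.e (nat_lit 81664) (nat_lit 5) (.e (nat_lit 532485) (nat_lit 0) .nil)))))))) (.g (nat_lit 6) .nil .nil))) 
(.lf (nat_lit 92391) (.g (nat_lit 2926) (.e (nat_lit 2283) (nat_lit 150) (.e (nat_lit 770071) (nat_lit 8) (.e (nat_lit 65586) (nat_lit 7) (.e (nat_lit 319531) (nat_lit 16) (.e (nat_lit 286748) (nat_lit 9) (.e (nat_lit 335925) (nat_lit 0) (.e (nat_lit 994) (nat_lit 81) (.e (nat_lit 5567) (nat_lit 308) (.e (nat_lit 57348) (nat_lit 0) .nil))))))))) (.g (nat_lit 5) .nil .nil)))) (.nd (nat_lit 5) 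
(.lf (nat_lit 92375) (.g (nat_lit 2129) (.e (nat_lit 2283) (nat_lit 150) (.e (nat_lit 770071) (nat_lit 8) (.e (nat_lit 65583) (nat_lit 7) (.e (nat_lit 319530) (nat_lit 16) (.e (nat_lit 286751) (nat_lit 10) (.e (nat_lit 344091) (nat_lit 18) (.e (nat_lit 5567) (nat_lit 308) (.e (nat_lit 57348) (nat_lit 0) .nil)))))))) (.g (nat_lit 5) .nil .nil))) 
(.lf (nat_lit 92407) (.g (nat_lit 2445) (.e (nat_lit 2283) (nat_lit 150) (.e (nat_lit 770071) (nat_lit 8) (.e (nat_lit 65586) (nat_lit 7) (.e (nat_lit 319531) (nat_lit 16) (.e (nat_lit 286751) (nat_lit 10) (.e (nat_lit 344091) (nat_lit 18) (.e (nat_lit 5566) (nat_lit 308) (.e (nat_lit 57347) (nat_lit 0) .nil)))))))) (.g (nat_lit 4) .nil .nil))))) (.nd (nat_lit 4) (.nd (nat_lit 5) 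
(.lf (nat_lit 92367) (.g (nat_lit 1901) (.e (nat_lit 2283) (nat_lit 150) (.e (nat_lit 770071) (nat_lit 8) (.e (nat_lit 65583) (nat_lit 7) (.e (nat_lit 319530) (nat_lit 16) (.e (nat_lit 286748) (nat_lit 9) (.e (nat_lit 335925) (nat_lit 0) (.e (nat_lit 1008) (nat_lit 81) (.e (nat_lit 5567) (nat_lit 308) (.e (nat_lit 57348) (nat_lit 0) .nil))))))))) (.g (nat_lit 4) .nil .nil))) 
(.lf (nat_lit 92399) (.g (nat_lit 2929) (.e (nat_lit 2283) (nat_lit 150) (.e (nat_lit 770071) (nat_lit 8) (.e (nat_lit 65586) (nat_lit 7) (.e (nat_lit 319531) (nat_lit 16) (.e (nat_lit 286748) (nat_lit 9) (.e (nat_lit 335925) (nat_lit 0) (.e (nat_lit 1015) (nat_lit 81) (.e (nat_lit 5567) (nat_lit 308) (.e (nat_lit 57348) (nat_lit 0) .nil))))))))) (.g (nat_lit 5) .nil .nil)))) (.nd (nat_lit 5) 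
(.lf (nat_lit 92383) (.g (nat_lit 1774) (.e (nat_lit 2283) (nat_lit 150) (.e (nat_lit 770071) (nat_lit 8) (.e (nat_lit 65583) (nat_lit 7) (.e (nat_lit 319530) (nat_lit 16) (.e (nat_lit 286756) (nat_lit 10) (.e (nat_lit 344090) (nat_lit 18) (.e (nat_lit 5570) (nat_lit 308) (.e (nat_lit 57348) (nat_lit 0) .nil)))))))) (.g (nat_lit 4) .nil .nil))) 
(.lf (nat_lit 92415) (.g (nat_lit 2695) (.e (nat_lit 2283) (nat_lit 150) (.e (nat_lit 770071) (nat_lit 8) (.e (nat_lit 65586) (nat_lit 7) (.e (nat_lit 319531) (nat_lit 16) (.e (nat_lit 286755) (nat_lit 10) (.e (nat_lit 344091) (nat_lit 18) (.e (nat_lit 5566) (nat_lit 308) (.e (nat_lit 57348) (nat_lit 0) .nil)))))))) (.g (nat_lit 4) .nil .nil)))))))))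

noncomputable def tv1267 : DT := (.nd (nat_lit 0) (.nd (nat_lit 1) (.nd (nat_lit 2) (.nd (nat_lit 3) (.nd (nat_lit 4) (.nd (nat_lit 5) 
(.lf (nat_lit 92416) (.g (nat_lit 3664) (.e (nat_lit 2283) (nat_lit 150) (.e (nat_lit 770071) (nat_lit 8) (.e (nat_lit 65586) (nat_lit 7) (.e (nat_lit 319531) (nat_lit 16) (.e (nat_lit 286756) (nat_lit 10) (.e (nat_lit 344088) (nat_lit 18) (.e (nat_lit 5566) (nat_lit 308) (.e (nat_lit 57348) (nat_lit 0) .nil)))))))) (.g (nat_lit 5) .nil .nil))) 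
(.lf (nat_lit 92448) (.g (nat_lit 2725) (.e (nat_lit 2283) (nat_lit 150) (.e (nat_lit 770071) (nat_lit 8) (.e (nat_lit 65617) (nat_lit 10) (.e (nat_lit 344096) (nat_lit 18) (.e (nat_lit 7122) (nat_lit 382) (.e (nat_lit 1296) (nat_lit 96) (.e (nat_lit 131109) (nat_lit 9) (.e (nat_lit 335878) (nat_lit 0) .nil)))))))) (.g (nat_lit 5) .nil .nil)))) (.nd (nat_lit 5) 
(.lf (nat_lit 92432) (.g (nat_lit 2356) (.e (nat_lit 2283) (nat_lit 150) (.e (nat_lit 770071) (nat_lit 8) (.e (nat_lit 65586) (nat_lit 7) (.e (nat_lit 319534) (nat_lit 16) (.e (nat_lit 286756) (nat_lit 10) (.e (nat_lit 344160) (nat_lit 37) (.e (nat_lit 647194) (nat_lit 9) (.e (nat_lit 993) (nat_lit 81) .nil)))))))) (.g (nat_lit 4) .nil .nil))) 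
(.lf (nat_lit 92464) (.g (nat_lit 2854) (.e (nat_lit 2283) (nat_lit 150) (.e (nat_lit 770072) (nat_lit 8) (.e (nat_lit 65571) (nat_lit 3) (.e (nat_lit 98359) (nat_lit 26) (.e (nat_lit 426286) (nat_lit 10) (.e (nat_lit 434245) (nat_lit 28) (.e (nat_lit 573449) (nat_lit 9) (.e (nat_lit 974) (nat_lit 81) .nil)))))))) (.g (nat_lit 4) .nil .nil))))) (.nd (nat_lit 4) (.nd (nat_lit 5) 
(.lf (nat_lit 92424) (.g (nat_lit 2399) (.e (nat_lit 2283) (nat_lit 150) (.e (nat_lit 770071) (nat_lit 8) (.e (nat_lit 65586) (nat_lit 7) (.e (nat_lit 319531) (nat_lit 16) (.e (nat_lit 286756) (nat_lit 10) (.e (nat_lit 344160) (nat_lit 37) (.e (nat_lit 647196) (nat_lit 9) (.e (nat_lit 992) (nat_lit 81) .nil)))))))) (.g (nat_lit 4) .nil .nil))) 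
(.lf (nat_lit 92456) (.g (nat_lit 1106) (.e (nat_lit 2283) (nat_lit 150) (.e (nat_lit 770071) (nat_lit 8) (.e (nat_lit 65627) (nat_lit 13) (.e (nat_lit 393300) (nat_lit 27) .nil)))) .nil))) (.nd (nat_lit 5) 
(.lf (nat_lit 92440) (.g (nat_lit 2241) (.e (nat_lit 2283) (nat_lit 150) (.e (nat_lit 770071) (nat_lit 8) (.e (nat_lit 65610) (nat_lit 10) (.e (nat_lit 344097) (nat_lit 18) (.e (nat_lit 7145) (nat_lit 382) .nil))))) .nil)) 
(.lf (nat_lit 92472) (.g (nat_lit 3452) (.e (nat_lit 2283) (nat_lit 150) (.e (nat_lit 770072) (nat_lit 8) (.e (nat_lit 65582) (nat_lit 7) (.e (nat_lit 319534) (nat_lit 16) (.e (nat_lit 286756) (nat_lit 10) (.e (nat_lit 344090) (nat_lit 18) (.e (nat_lit 5566) (nat_lit 308) (.e (nat_lit 57348) (nat_lit 0) .nil)))))))) (.g (nat_lit 5) .nil .nil)))))) 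
(.nd (nat_lit 3) (.nd (nat_lit 4) (.nd (nat_lit 5) 
(.lf (nat_lit 92420) (.g (nat_lit 4163) (.e (nat_lit 2283) (nat_lit 150) (.e (nat_lit 770071) (nat_lit 8) (.e (nat_lit 65586) (nat_lit 7) (.e (nat_lit 319531) (nat_lit 16) (.e (nat_lit 286756) (nat_lit 10) (.e (nat_lit 344090) (nat_lit 18) (.e (nat_lit 5570) (nat_lit 308) (.e (nat_lit 57348) (nat_lit 0) .nil)))))))) (.g (nat_lit 6) .nil .nil))) 
(.lf (nat_lit 92452) (.g (nat_lit 1949) (.e (nat_lit 2283) (nat_lit 150) (.e (nat_lit 770071) (nat_lit 8) (.e (nat_lit 65627) (nat_lit 13) (.e (nat_lit 393298) (nat_lit 27) (.e (nat_lit 491552) (nat_lit 9) .nil))))) .nil))) (.nd (nat_lit 5) 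
(.lf (nat_lit 92436) (.g (nat_lit 3390) (.e (nat_lit 2283) (nat_lit 150) (.e (nat_lit 770071) (nat_lit 8) (.e (nat_lit 65586) (nat_lit 7) (.e (nat_lit 319534) (nat_lit 16) (.e (nat_lit 286756) (nat_lit 10) (.e (nat_lit 344160) (nat_lit 37) (.e (nat_lit 647196) (nat_lit 9) (.e (nat_lit 993) (nat_lit 81) .nil)))))))) (.g (nat_lit 6) .nil .nil))) 
(.lf (nat_lit 92468) (.g (nat_lit 546) (.e (nat_lit 2283) (nat_lit 150) (.e (nat_lit 770072) (nat_lit 8) (.e (nat_lit 65580) (nat_lit 6) .nil))) .nil)))) (.nd (nat_lit 4) (.nd (nat_lit 5) 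
(.lf (nat_lit 92428) (.g (nat_lit 2397) (.e (nat_lit 2283) (nat_lit 150) (.e (nat_lit 770071) (nat_lit 8) (.e (nat_lit 65586) (nat_lit 7) (.e (nat_lit 319534) (nat_lit 16) (.e (nat_lit 286756) (nat_lit 10) (.e (nat_lit 344090) (nat_lit 18) (.e (nat_lit 5566) (nat_lit 308) (.e (nat_lit 57347) (nat_lit 0) .nil)))))))) (.g (nat_lit 4) .nil .nil))) 
(.lf (nat_lit 92460) (.g (nat_lit 2070) (.e (nat_lit 2283) (nat_lit 150) (.e (nat_lit 770071) (nat_lit 8) (.e (nat_lit 65627) (nat_lit 13) (.e (nat_lit 393301) (nat_lit 27) (.e (nat_lit 491556) (nat_lit 9) (.e (nat_lit 335872) (nat_lit 0) .nil)))))) (.g (nat_lit 5) .nil .nil)))) (.nd (nat_lit 5) 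
(.lf (nat_lit 92444) (.g (nat_lit 2534) (.e (nat_lit 2283) (nat_lit 150) (.e (nat_lit 770071) (nat_lit 8) (.e (nat_lit 65610) (nat_lit 10) (.e (nat_lit 344176) (nat_lit 43) (.e (nat_lit 770076) (nat_lit 12) (.e (nat_lit 131109) (nat_lit 9) (.e (nat_lit 335878) (nat_lit 0) .nil))))))) (.g (nat_lit 6) .nil .nil))) 
(.lf (nat_lit 92476) (.g (nat_lit 2402) (.e (nat_lit 2283) (nat_lit 150) (.e (nat_lit 770072) (nat_lit 8) (.e (nat_lit 65583) (nat_lit 7) (.e (nat_lit 319530) (nat_lit 16) (.e (nat_lit 286748) (nat_lit 9) (.e (nat_lit 335915) (nat_lit 0) (.e (nat_lit 1016) (nat_lit 81) (.e (nat_lit 5567) (nat_lit 308) (.e (nat_lit 57348) (nat_lit 0) .nil))))))))) (.g (nat_lit 4) .nil .nil))))))) 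
(.nd (nat_lit 2) (.nd (nat_lit 3) (.nd (nat_lit 4) (.nd (nat_lit 5) 
(.lf (nat_lit 92418) (.g (nat_lit 3765) (.e (nat_lit 2283) (nat_lit 150) (.e (nat_lit 770071) (nat_lit 8) (.e (nat_lit 65586) (nat_lit 7) (.e (nat_lit 319531) (nat_lit 16) (.e (nat_lit 286756) (nat_lit 10) (.e (nat_lit 344088) (nat_lit 18) (.e (nat_lit 5568) (nat_lit 308) (.e (nat_lit 57348) (nat_lit 0) .nil)))))))) (.g (nat_lit 5) .nil .nil))) 
(.lf (nat_lit 92450) (.g (nat_lit 1395) (.e (nat_lit 2283) (nat_lit 150) (.e (nat_lit 770071) (nat_lit 8) (.e (nat_lit 65617) (nat_lit 10) (.e (nat_lit 344176) (nat_lit 43) .nil)))) .nil))) (.nd (nat_lit 5) 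
(.lf (nat_lit 92434) (.g (nat_lit 3325) (.e (nat_lit 2283) (nat_lit 150) (.e (nat_lit 770071) (nat_lit 8) (.e (nat_lit 65586) (nat_lit 7) (.e (nat_lit 319534) (nat_lit 16) (.e (nat_lit 286756) (nat_lit 10) (.e (nat_lit 344160) (nat_lit 37) (.e (nat_lit 647195) (nat_lit 9) (.e (nat_lit 7936) (nat_lit 81) .nil)))))))) (.g (nat_lit 6) .nil .nil))) 
(.lf (nat_lit 92466) (.g (nat_lit 2247) (.e (nat_lit 2283) (nat_lit 150) (.e (nat_lit 770072) (nat_lit 8) (.e (nat_lit 65571) (nat_lit 3) (.e (nat_lit 98370) (nat_lit 28) .nil)))) .nil)))) (.nd (nat_lit 4) (.nd (nat_lit 5) 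
(.lf (nat_lit 92426) (.g (nat_lit 1786) (.e (nat_lit 2283) (nat_lit 150) (.e (nat_lit 770071) (nat_lit 8) (.e (nat_lit 65586) (nat_lit 7) (.e (nat_lit 319533) (nat_lit 16) (.e (nat_lit 286753) (nat_lit 10) (.e (nat_lit 344160) (nat_lit 37) (.e (nat_lit 647196) (nat_lit 9) (.e (nat_lit 993) (nat_lit 81) .nil)))))))) (.g (nat_lit 4) .nil .nil))) 
(.lf (nat_lit 92458) (.g (nat_lit 1990) (.e (nat_lit 2283) (nat_lit 150) (.e (nat_lit 770071) (nat_lit 8) (.e (nat_lit 65627) (nat_lit 13) (.e (nat_lit 393301) (nat_lit 27) (.e (nat_lit 491546) (nat_lit 9) .nil))))) .nil))) (.nd (nat_lit 5) 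
(.lf (nat_lit 92442) (.g (nat_lit 2693) (.e (nat_lit 2283) (nat_lit 150) (.e (nat_lit 770071) (nat_lit 8) (.e (nat_lit 65610) (nat_lit 10) (.e (nat_lit 344097) (nat_lit 18) (.e (nat_lit 7270) (nat_lit 385) (.e (nat_lit 122916) (nat_lit 14) (.e (nat_lit 352280) (nat_lit 20) .nil))))))) (.g (nat_lit 4) .nil .nil))) 
(.lf (nat_lit 92474) (.g (nat_lit 1235) (.e (nat_lit 2283) (nat_lit 150) (.e (nat_lit 770072) (nat_lit 8) (.e (nat_lit 65583) (nat_lit 7) (.e (nat_lit 319516) (nat_lit 11) .nil)))) .nil))))) (.nd (nat_lit 3) (.nd (nat_lit 4) (.nd (nat_lit 5) 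
(.lf (nat_lit 92422) (.g (nat_lit 4395) (.e (nat_lit 2283) (nat_lit 150) (.e (nat_lit 770071) (nat_lit 8) (.e (nat_lit 65586) (nat_lit 7) (.e (nat_lit 319531) (nat_lit 16) (.e (nat_lit 286756) (nat_lit 10) (.e (nat_lit 344160) (nat_lit 37) (.e (nat_lit 647195) (nat_lit 9) (.e (nat_lit 982) (nat_lit 81) .nil)))))))) (.g (nat_lit 7) .nil .nil))) 
(.lf (nat_lit 92454) (.g (nat_lit 1069) (.e (nat_lit 2283) (nat_lit 150) (.e (nat_lit 770071) (nat_lit 8) (.e (nat_lit 65627) (nat_lit 13) (.e (nat_lit 393299) (nat_lit 27) .nil)))) .nil))) (.nd (nat_lit 5) 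
(.lf (nat_lit 92438) (.g (nat_lit 2811) (.e (nat_lit 2283) (nat_lit 150) (.e (nat_lit 770071) (nat_lit 8) (.e (nat_lit 65610) (nat_lit 10) (.e (nat_lit 344090) (nat_lit 18) (.e (nat_lit 7125) (nat_lit 382) (.e (nat_lit 1296) (nat_lit 96) (.e (nat_lit 131109) (nat_lit 9) (.e (nat_lit 335878) (nat_lit 0) .nil)))))))) (.g (nat_lit 7) .nil .nil))) 
(.lf (nat_lit 92470) (.g (nat_lit 3114) (.e (nat_lit 2283) (nat_lit 150) (.e (nat_lit 770072) (nat_lit 8) (.e (nat_lit 65582) (nat_lit 7) (.e (nat_lit 319531) (nat_lit 16) (.e (nat_lit 286756) (nat_lit 10) (.e (nat_lit 344090) (nat_lit 18) (.e (nat_lit 5566) (nat_lit 308) (.e (nat_lit 57348) (nat_lit 0) .nil)))))))) (.g (nat_lit 5) .nil .nil))))) (.nd (nat_lit 4) (.nd (nat_lit 5) 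
(.lf (nat_lit 92430) (.g (nat_lit 2346) (.e (nat_lit 2283) (nat_lit 150) (.e (nat_lit 770071) (nat_lit 8) (.e (nat_lit 65586) (nat_lit 7) (.e (nat_lit 319534) (nat_lit 16) (.e (nat_lit 286756) (nat_lit 10) (.e (nat_lit 344090) (nat_lit 18) (.e (nat_lit 5568) (nat_lit 308) (.e (nat_lit 57348) (nat_lit 0) .nil)))))))) (.g (nat_lit 4) .nil .nil))) 
(.lf (nat_lit 92462) (.g (nat_lit 2431) (.e (nat_lit 2283) (nat_lit 150) (.e (nat_lit 770072) (nat_lit 8) (.e (nat_lit 65568) (nat_lit 2) (.e (nat_lit 90170) (nat_lit 13) (.e (nat_lit 172113) (nat_lit 10) .nil))))) .nil))) (.nd (nat_lit 5) 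
(.lf (nat_lit 92446) (.g (nat_lit 2037) (.e (nat_lit 2283) (nat_lit 150) (.e (nat_lit 770071) (nat_lit 8) (.e (nat_lit 65617) (nat_lit 10) (.e (nat_lit 344091) (nat_lit 18) (.e (nat_lit 7122) (nat_lit 382) (.e (nat_lit 1296) (nat_lit 96) (.e (nat_lit 131109) (nat_lit 9) (.e (nat_lit 335878) (nat_lit 0) .nil)))))))) (.g (nat_lit 4) .nil .nil))) 
(.lf (nat_lit 92478) (.g (nat_lit 3230) (.e (nat_lit 2283) (nat_lit 150) (.e (nat_lit 770072) (nat_lit 8) (.e (nat_lit 65583) (nat_lit 7) (.e (nat_lit 319530) (nat_lit 16) (.e (nat_lit 286748) (nat_lit 9) (.e (nat_lit 335925) (nat_lit 0) (.e (nat_lit 993) (nat_lit 81) (.e (nat_lit 5567) (nat_lit 308) (.e (nat_lit 57348) (nat_lit 0) .nil))))))))) (.g (nat_lit 5) .nil .nil)))))))) 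
(.nd (nat_lit 1) (.nd (nat_lit 2) (.nd (nat_lit 3) (.nd (nat_lit 4) (.nd (nat_lit 5) 
(.lf (nat_lit 92417) (.g (nat_lit 3934) (.e (nat_lit 2283) (nat_lit 150) (.e (nat_lit 770071) (nat_lit 8) (.e (nat_lit 65586) (nat_lit 7) (.e (nat_lit 319531) (nat_lit 16) (.e (nat_lit 286756) (nat_lit 10) (.e (nat_lit 344088) (nat_lit 18) (.e (nat_lit 5567) (nat_lit 308) (.e (nat_lit 57348) (nat_lit 0) .nil)))))))) (.g (nat_lit 5) .nil .nil))) 
(.lf (nat_lit 92449) (.g (nat_lit 3027) (.e (nat_lit 2283) (nat_lit 150) (.e (nat_lit 770071) (nat_lit 8) (.e (nat_lit 65617) (nat_lit 10) (.e (nat_lit 344096) (nat_lit 18) (.e (nat_lit 7125) (nat_lit 382) (.e (nat_lit 1296) (nat_lit 96) (.e (nat_lit 131109) (nat_lit 9) (.e (nat_lit 335878) (nat_lit 0) .nil)))))))) (.g (nat_lit 6) .nil .nil)))) (.nd (nat_lit 5) 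
(.lf (nat_lit 92433) (.g (nat_lit 4550) (.e (nat_lit 2283) (nat_lit 150) (.e (nat_lit 770071) (nat_lit 8) (.e (nat_lit 65586) (nat_lit 7) (.e (nat_lit 319534) (nat_lit 16) (.e (nat_lit 286756) (nat_lit 10) (.e (nat_lit 344160) (nat_lit 37) (.e (nat_lit 647195) (nat_lit 9) (.e (nat_lit 982) (nat_lit 81) .nil)))))))) (.g (nat_lit 7) .nil .nil))) 
(.lf (nat_lit 92465) (.g (nat_lit 3081) (.e (nat_lit 2283) (nat_lit 150) (.e (nat_lit 770072) (nat_lit 8) (.e (nat_lit 65571) (nat_lit 3) (.e (nat_lit 98359) (nat_lit 26) (.e (nat_lit 426286) (nat_lit 10) (.e (nat_lit 434248) (nat_lit 28) (.e (nat_lit 573449) (nat_lit 9) (.e (nat_lit 974) (nat_lit 81) .nil)))))))) (.g (nat_lit 4) .nil .nil))))) (.nd (nat_lit 4) (.nd (nat_lit 5) 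
(.lf (nat_lit 92425) (.g (nat_lit 3296) (.e (nat_lit 2283) (nat_lit 150) (.e (nat_lit 770071) (nat_lit 8) (.e (nat_lit 65586) (nat_lit 7) (.e (nat_lit 319531) (nat_lit 16) (.e (nat_lit 286756) (nat_lit 10) (.e (nat_lit 344160) (nat_lit 37) (.e (nat_lit 647196) (nat_lit 9) (.e (nat_lit 993) (nat_lit 81) .nil)))))))) (.g (nat_lit 5) .nil .nil))) 
(.lf (nat_lit 92457) (.g (nat_lit 1941) (.e (nat_lit 2283) (nat_lit 150) (.e (nat_lit 770071) (nat_lit 8) (.e (nat_lit 65627) (nat_lit 13) (.e (nat_lit 393300) (nat_lit 27) (.e (nat_lit 491546) (nat_lit 9) .nil))))) .nil))) (.nd (nat_lit 5) 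
(.lf (nat_lit 92441) (.g (nat_lit 2287) (.e (nat_lit 2283) (nat_lit 150) (.e (nat_lit 770071) (nat_lit 8) (.e (nat_lit 65610) (nat_lit 10) (.e (nat_lit 344097) (nat_lit 18) (.e (nat_lit 7146) (nat_lit 382) (.e (nat_lit 1204) (nat_lit 88) (.e (nat_lit 65608) (nat_lit 9) (.e (nat_lit 335892) (nat_lit 0) .nil)))))))) (.g (nat_lit 4) .nil .nil))) 
(.lf (nat_lit 92473) (.g (nat_lit 4068) (.e (nat_lit 2283) (nat_lit 150) (.e (nat_lit 770072) (nat_lit 8) (.e (nat_lit 65582) (nat_lit 7) (.e (nat_lit 319534) (nat_lit 16) (.e (nat_lit 286756) (nat_lit 10) (.e (nat_lit 344160) (nat_lit 37) (.e (nat_lit 647195) (nat_lit 9) (.e (nat_lit 982) (nat_lit 81) .nil)))))))) (.g (nat_lit 6) .nil .nil)))))) (.nd (nat_lit 3) (.nd (nat_lit 4) (.nd (nat_lit 5) 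
(.lf (nat_lit 92421) (.g (nat_lit 2266) (.e (nat_lit 2283) (nat_lit 150) (.e (nat_lit 770071) (nat_lit 8) (.e (nat_lit 65586) (nat_lit 7) (.e (nat_lit 319531) (nat_lit 16) (.e (nat_lit 286756) (nat_lit 10) (.e (nat_lit 344160) (nat_lit 37) (.e (nat_lit 647194) (nat_lit 9) (.e (nat_lit 993) (nat_lit 81) .nil)))))))) (.g (nat_lit 4) .nil .nil))) 
(.lf (nat_lit 92453) (.g (nat_lit 3000) (.e (nat_lit 2283) (nat_lit 150) (.e (nat_lit 770071) (nat_lit 8) (.e (nat_lit 65627) (nat_lit 13) (.e (nat_lit 393298) (nat_lit 27) (.e (nat_lit 491552) (nat_lit 9) (.e (nat_lit 335900) (nat_lit 0) .nil)))))) (.g (nat_lit 0) .nil .nil)))) (.nd (nat_lit 5) 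
(.lf (nat_lit 92437) (.g (nat_lit 2856) (.e (nat_lit 2283) (nat_lit 150) (.e (nat_lit 770071) (nat_lit 8) (.e (nat_lit 65586) (nat_lit 7) (.e (nat_lit 319534) (nat_lit 16) (.e (nat_lit 286756) (nat_lit 10) (.e (nat_lit 344160) (nat_lit 37) (.e (nat_lit 647196) (nat_lit 9) (.e (nat_lit 995) (nat_lit 81) .nil)))))))) (.g (nat_lit 5) .nil .nil))) 
(.lf (nat_lit 92469) (.g (nat_lit 888) (.e (nat_lit 2283) (nat_lit 150) (.e (nat_lit 770072) (nat_lit 8) (.e (nat_lit 65580) (nat_lit 6) (.e (nat_lit 155392) (nat_lit 0) .nil)))) .nil)))) (.nd (nat_lit 4) (.nd (nat_lit 5) 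
(.lf (nat_lit 92429) (.g (nat_lit 4223) (.e (nat_lit 2283) (nat_lit 150) (.e (nat_lit 770071) (nat_lit 8) (.e (nat_lit 65586) (nat_lit 7) (.e (nat_lit 319534) (nat_lit 16) (.e (nat_lit 286756) (nat_lit 10) (.e (nat_lit 344090) (nat_lit 18) (.e (nat_lit 5566) (nat_lit 308) (.e (nat_lit 57348) (nat_lit 0) .nil)))))))) (.g (nat_lit 8) .nil .nil))) 
(.lf (nat_lit 92461) (.g (nat_lit 4082) (.e (nat_lit 2283) (nat_lit 150) (.e (nat_lit 770072) (nat_lit 8) (.e (nat_lit 65568) (nat_lit 2) (.e (nat_lit 90170) (nat_lit 13) (.e (nat_lit 172106) (nat_lit 10) (.e (nat_lit 434244) (nat_lit 28) (.e (nat_lit 573449) (nat_lit 9) (.e (nat_lit 974) (nat_lit 81) .nil)))))))) (.g (nat_lit 7) .nil .nil)))) (.nd (nat_lit 5) 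
(.lf (nat_lit 92445) (.g (nat_lit 1666) (.e (nat_lit 2283) (nat_lit 150) (.e (nat_lit 770071) (nat_lit 8) (.e (nat_lit 65610) (nat_lit 10) (.e (nat_lit 344176) (nat_lit 43) (.e (nat_lit 770076) (nat_lit 12) (.e (nat_lit 131116) (nat_lit 9) (.e (nat_lit 335897) (nat_lit 0) .nil))))))) (.g (nat_lit 4) .nil .nil))) 
(.lf (nat_lit 92477) (.g (nat_lit 3000) (.e (nat_lit 2283) (nat_lit 150) (.e (nat_lit 770072) (nat_lit 8) (.e (nat_lit 65583) (nat_lit 7) (.e (nat_lit 319530) (nat_lit 16) (.e (nat_lit 286748) (nat_lit 9) (.e (nat_lit 335925) (nat_lit 0) (.e (nat_lit 993) (nat_lit 81) (.e (nat_lit 5566) (nat_lit 308) (.e (nat_lit 57348) (nat_lit 0) .nil))))))))) (.g (nat_lit 5) .nil .nil))))))) 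
(.nd (nat_lit 2) (.nd (nat_lit 3) (.nd (nat_lit 4) (.nd (nat_lit 5) 
(.lf (nat_lit 92419) (.g (nat_lit 4859) (.e (nat_lit 2283) (nat_lit 150) (.e (nat_lit 770071) (nat_lit 8) (.e (nat_lit 65586) (nat_lit 7) (.e (nat_lit 319531) (nat_lit 16) (.e (nat_lit 286756) (nat_lit 10) (.e (nat_lit 344090) (nat_lit 18) (.e (nat_lit 5566) (nat_lit 308) (.e (nat_lit 57348) (nat_lit 0) .nil)))))))) (.g (nat_lit 8) .nil .nil))) 
(.lf (nat_lit 92451) (.g (nat_lit 2121) (.e (nat_lit 2283) (nat_lit 150) (.e (nat_lit 770071) (nat_lit 8) (.e (nat_lit 65619) (nat_lit 10) (.e (nat_lit 344090) (nat_lit 18) (.e (nat_lit 7125) (nat_lit 382) (.e (nat_lit 1296) (nat_lit 96) (.e (nat_lit 131109) (nat_lit 9) (.e (nat_lit 335878) (nat_lit 0) .nil)))))))) (.g (nat_lit 5) .nil .nil)))) (.nd (nat_lit 5) 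
(.lf (nat_lit 92435) (.g (nat_lit 2811) (.e (nat_lit 2283) (nat_lit 150) (.e (nat_lit 770071) (nat_lit 8) (.e (nat_lit 65586) (nat_lit 7) (.e (nat_lit 319534) (nat_lit 16) (.e (nat_lit 286756) (nat_lit 10) (.e (nat_lit 344160) (nat_lit 37) (.e (nat_lit 647196) (nat_lit 9) (.e (nat_lit 988) (nat_lit 81) .nil)))))))) (.g (nat_lit 5) .nil .nil))) 
(.lf (nat_lit 92467) (.g (nat_lit 2132) (.e (nat_lit 2283) (nat_lit 150) (.e (nat_lit 770072) (nat_lit 8) (.e (nat_lit 65571) (nat_lit 3) (.e (nat_lit 98372) (nat_lit 29) .nil)))) .nil)))) (.nd (nat_lit 4) (.nd (nat_lit 5) 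
(.lf (nat_lit 92427) (.g (nat_lit 3078) (.e (nat_lit 2283) (nat_lit 150) (.e (nat_lit 770071) (nat_lit 8) (.e (nat_lit 65586) (nat_lit 7) (.e (nat_lit 319534) (nat_lit 16) (.e (nat_lit 286751) (nat_lit 10) (.e (nat_lit 344091) (nat_lit 18) (.e (nat_lit 5566) (nat_lit 308) (.e (nat_lit 57348) (nat_lit 0) .nil)))))))) (.g (nat_lit 4) .nil .nil))) 
(.lf (nat_lit 92459) (.g (nat_lit 2312) (.e (nat_lit 2283) (nat_lit 150) (.e (nat_lit 770071) (nat_lit 8) (.e (nat_lit 65627) (nat_lit 13) (.e (nat_lit 393301) (nat_lit 27) (.e (nat_lit 491552) (nat_lit 9) .nil))))) .nil))) (.nd (nat_lit 5) 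
(.lf (nat_lit 92443) (.g (nat_lit 2094) (.e (nat_lit 2283) (nat_lit 150) (.e (nat_lit 770071) (nat_lit 8) (.e (nat_lit 65610) (nat_lit 10) (.e (nat_lit 344097) (nat_lit 18) (.e (nat_lit 7272) (nat_lit 385) (.e (nat_lit 122916) (nat_lit 14) (.e (nat_lit 352280) (nat_lit 20) .nil))))))) (.g (nat_lit 4) .nil .nil))) 
(.lf (nat_lit 92475) (.g (nat_lit 2309) (.e (nat_lit 2283) (nat_lit 150) (.e (nat_lit 770072) (nat_lit 8) (.e (nat_lit 65583) (nat_lit 7) (.e (nat_lit 319530) (nat_lit 16) (.e (nat_lit 286748) (nat_lit 9) (.e (nat_lit 335915) (nat_lit 0) (.e (nat_lit 1007) (nat_lit 81) (.e (nat_lit 5567) (nat_lit 308) (.e (nat_lit 57348) (nat_lit 0) .nil))))))))) (.g (nat_lit 4) .nil .nil)))))) 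
(.nd (nat_lit 3) (.nd (nat_lit 4) (.nd (nat_lit 5) 
(.lf (nat_lit 92423) (.g (nat_lit 3170) (.e (nat_lit 2283) (nat_lit 150) (.e (nat_lit 770071) (nat_lit 8) (.e (nat_lit 65586) (nat_lit 7) (.e (nat_lit 319531) (nat_lit 16) (.e (nat_lit 286756) (nat_lit 10) (.e (nat_lit 344160) (nat_lit 37) (.e (nat_lit 647195) (nat_lit 9) (.e (nat_lit 7936) (nat_lit 81) .nil)))))))) (.g (nat_lit 5) .nil .nil))) 
(.lf (nat_lit 92455) (.g (nat_lit 2235) (.e (nat_lit 2283) (nat_lit 150) (.e (nat_lit 770071) (nat_lit 8) (.e (nat_lit 65627) (nat_lit 13) (.e (nat_lit 393299) (nat_lit 27) (.e (nat_lit 491546) (nat_lit 9) (.e (nat_lit 335878) (nat_lit 0) .nil)))))) (.g (nat_lit 4) .nil .nil)))) (.nd (nat_lit 5) 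
(.lf (nat_lit 92439) (.g (nat_lit 2142) (.e (nat_lit 2283) (nat_lit 150) (.e (nat_lit 770071) (nat_lit 8) (.e (nat_lit 65610) (nat_lit 10) (.e (nat_lit 344097) (nat_lit 18) (.e (nat_lit 7144) (nat_lit 382) .nil))))) .nil)) 
(.lf (nat_lit 92471) (.g (nat_lit 3518) (.e (nat_lit 2283) (nat_lit 150) (.e (nat_lit 770072) (nat_lit 8) (.e (nat_lit 65582) (nat_lit 7) (.e (nat_lit 319531) (nat_lit 16) (.e (nat_lit 286756) (nat_lit 10) (.e (nat_lit 344160) (nat_lit 37) (.e (nat_lit 647195) (nat_lit 9) (.e (nat_lit 982) (nat_lit 81) .nil)))))))) (.g (nat_lit 6) .nil .nil))))) (.nd (nat_lit 4) (.nd (nat_lit 5) 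
(.lf (nat_lit 92431) (.g (nat_lit 3540) (.e (nat_lit 2283) (nat_lit 150) (.e (nat_lit 770071) (nat_lit 8) (.e (nat_lit 65586) (nat_lit 7) (.e (nat_lit 319534) (nat_lit 16) (.e (nat_lit 286756) (nat_lit 10) (.e (nat_lit 344090) (nat_lit 18) (.e (nat_lit 5570) (nat_lit 308) (.e (nat_lit 57348) (nat_lit 0) .nil)))))))) (.g (nat_lit 6) .nil .nil))) 
(.lf (nat_lit 92463) (.g (nat_lit 616) (.e (nat_lit 2283) (nat_lit 150) (.e (nat_lit 770072) (nat_lit 8) (.e (nat_lit 65571) (nat_lit 3) .nil))) .nil))) (.nd (nat_lit 5) 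
(.lf (nat_lit 92447) (.g (nat_lit 2875) (.e (nat_lit 2283) (nat_lit 150) (.e (nat_lit 770071) (nat_lit 8) (.e (nat_lit 65617) (nat_lit 10) (.e (nat_lit 344091) (nat_lit 18) (.e (nat_lit 7125) (nat_lit 382) (.e (nat_lit 1296) (nat_lit 96) (.e (nat_lit 131109) (nat_lit 9) (.e (nat_lit 335878) (nat_lit 0) .nil)))))))) (.g (nat_lit 7) .nil .nil))) 
(.lf (nat_lit 92479) (.g (nat_lit 2930) (.e (nat_lit 2283) (nat_lit 150) (.e (nat_lit 770072) (nat_lit 8) (.e (nat_lit 65583) (nat_lit 7) (.e (nat_lit 319530) (nat_lit 16) (.e (nat_lit 286748) (nat_lit 9) (.e (nat_lit 335925) (nat_lit 0) (.e (nat_lit 993) (nat_lit 81) (.e (nat_lit 5568) (nat_lit 308) (.e (nat_lit 57348) (nat_lit 0) .nil))))))))) (.g (nat_lit 5) .nil .nil)))))))))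

noncomputable def tv1268 : DT := (.nd (nat_lit 0) (.nd (nat_lit 1) (.nd (nat_lit 2) (.nd (nat_lit 3) (.nd (nat_lit 4) (.nd (nat_lit 5) 
(.lf (nat_lit 92480) (.g (nat_lit 2512) (.e (nat_lit 2283) (nat_lit 150) (.e (nat_lit 770072) (nat_lit 8) (.e (nat_lit 65583) (nat_lit 7) (.e (nat_lit 319530) (nat_lit 16) (.e (nat_lit 286748) (nat_lit 9) (.e (nat_lit 335925) (nat_lit 0) (.e (nat_lit 993) (nat_lit 81) (.e (nat_lit 5570) (nat_lit 308) (.e (nat_lit 57348) (nat_lit 0) .nil))))))))) (.g (nat_lit 4) .nil .nil))) 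
(.lf (nat_lit 92512) (.g (nat_lit 3779) (.e (nat_lit 2283) (nat_lit 150) (.e (nat_lit 770072) (nat_lit 8) (.e (nat_lit 65583) (nat_lit 7) (.e (nat_lit 319530) (nat_lit 16) (.e (nat_lit 286753) (nat_lit 10) (.e (nat_lit 344160) (nat_lit 37) (.e (nat_lit 647195) (nat_lit 9) (.e (nat_lit 982) (nat_lit 81) .nil)))))))) (.g (nat_lit 5) .nil .nil)))) (.nd (nat_lit 5) 
(.lf (nat_lit 92496) (.g (nat_lit 2140) (.e (nat_lit 2283) (nat_lit 150) (.e (nat_lit 770072) (nat_lit 8) (.e (nat_lit 65583) (nat_lit 7) (.e (nat_lit 319530) (nat_lit 16) (.e (nat_lit 286748) (nat_lit 9) (.e (nat_lit 335925) (nat_lit 0) (.e (nat_lit 1015) (nat_lit 81) (.e (nat_lit 5570) (nat_lit 308) (.e (nat_lit 57348) (nat_lit 0) .nil))))))))) (.g (nat_lit 4) .nil .nil))) 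
(.lf (nat_lit 92528) (.g (nat_lit 3175) (.e (nat_lit 2283) (nat_lit 150) (.e (nat_lit 770072) (nat_lit 8) (.e (nat_lit 65585) (nat_lit 7) (.e (nat_lit 319534) (nat_lit 16) (.e (nat_lit 286756) (nat_lit 10) (.e (nat_lit 344090) (nat_lit 18) (.e (nat_lit 5566) (nat_lit 308) (.e (nat_lit 57348) (nat_lit 0) .nil)))))))) (.g (nat_lit 5) .nil .nil))))) (.nd (nat_lit 4) (.nd (nat_lit 5) 
(.lf (nat_lit 92488) (.g (nat_lit 2149) (.e (nat_lit 2283) (nat_lit 150) (.e (nat_lit 770072) (nat_lit 8) (.e (nat_lit 65583) (nat_lit 7) (.e (nat_lit 319530) (nat_lit 16) (.e (nat_lit 286748) (nat_lit 9) (.e (nat_lit 335925) (nat_lit 0) (.e (nat_lit 1012) (nat_lit 81) (.e (nat_lit 5570) (nat_lit 308) (.e (nat_lit 57348) (nat_lit 0) .nil))))))))) (.g (nat_lit 4) .nil .nil))) 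
(.lf (nat_lit 92520) (.g (nat_lit 3102) (.e (nat_lit 2283) (nat_lit 150) (.e (nat_lit 770072) (nat_lit 8) (.e (nat_lit 65583) (nat_lit 7) (.e (nat_lit 319530) (nat_lit 16) (.e (nat_lit 286756) (nat_lit 10) (.e (nat_lit 344090) (nat_lit 18) (.e (nat_lit 5566) (nat_lit 308) (.e (nat_lit 57348) (nat_lit 0) .nil)))))))) (.g (nat_lit 5) .nil .nil)))) (.nd (nat_lit 5) 
(.lf (nat_lit 92504) (.g (nat_lit 4011) (.e (nat_lit 2283) (nat_lit 150) (.e (nat_lit 770072) (nat_lit 8) (.e (nat_lit 65583) (nat_lit 7) (.e (nat_lit 319530) (nat_lit 16) (.e (nat_lit 286751) (nat_lit 10) (.e (nat_lit 344091) (nat_lit 18) (.e (nat_lit 5566) (nat_lit 308) (.e (nat_lit 57348) (nat_lit 0) .nil)))))))) (.g (nat_lit 0) .nil .nil))) 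
(.lf (nat_lit 92536) (.g (nat_lit 2178) (.e (nat_lit 2283) (nat_lit 150) (.e (nat_lit 770072) (nat_lit 8) (.e (nat_lit 65586) (nat_lit 7) (.e (nat_lit 319531) (nat_lit 16) (.e (nat_lit 286748) (nat_lit 9) (.e (nat_lit 335925) (nat_lit 0) (.e (nat_lit 1012) (nat_lit 81) (.e (nat_lit 5566) (nat_lit 308) (.e (nat_lit 57348) (nat_lit 0) .nil))))))))) (.g (nat_lit 4) .nil .nil)))))) 
(.nd (nat_lit 3) (.nd (nat_lit 4) (.nd (nat_lit 5) 
(.lf (nat_lit 92484) (.g (nat_lit 2413) (.e (nat_lit 2283) (nat_lit 150) (.e (nat_lit 770072) (nat_lit 8) (.e (nat_lit 65583) (nat_lit 7) (.e (nat_lit 319530) (nat_lit 16) (.e (nat_lit 286748) (nat_lit 9) (.e (nat_lit 335925) (nat_lit 0) (.e (nat_lit 995) (nat_lit 81) (.e (nat_lit 5567) (nat_lit 308) (.e (nat_lit 57348) (nat_lit 0) .nil))))))))) (.g (nat_lit 4) .nil .nil))) 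
(.lf (nat_lit 92516) (.g (nat_lit 2199) (.e (nat_lit 2283) (nat_lit 150) (.e (nat_lit 770072) (nat_lit 8) (.e (nat_lit 65583) (nat_lit 7) (.e (nat_lit 319530) (nat_lit 16) (.e (nat_lit 286755) (nat_lit 10) (.e (nat_lit 344091) (nat_lit 18) (.e (nat_lit 5568) (nat_lit 308) (.e (nat_lit 57348) (nat_lit 0) .nil)))))))) (.g (nat_lit 4) .nil .nil)))) (.nd (nat_lit 5) 
(.lf (nat_lit 92500) (.g (nat_lit 2298) (.e (nat_lit 2283) (nat_lit 150) (.e (nat_lit 770072) (nat_lit 8) (.e (nat_lit 65583) (nat_lit 7) (.e (nat_lit 319530) (nat_lit 16) (.e (nat_lit 286748) (nat_lit 9) (.e (nat_lit 336031) (nat_lit 4) (.e (nat_lit 123226) (nat_lit 280) (.e (nat_lit 57348) (nat_lit 0) .nil)))))))) (.g (nat_lit 4) .nil .nil))) 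
(.lf (nat_lit 92532) (.g (nat_lit 2875) (.e (nat_lit 2283) (nat_lit 150) (.e (nat_lit 770072) (nat_lit 8) (.e (nat_lit 65586) (nat_lit 7) (.e (nat_lit 319531) (nat_lit 16) (.e (nat_lit 286748) (nat_lit 9) (.e (nat_lit 335925) (nat_lit 0) (.e (nat_lit 993) (nat_lit 81) (.e (nat_lit 5568) (nat_lit 308) (.e (nat_lit 57348) (nat_lit 0) .nil))))))))) (.g (nat_lit 5) .nil .nil))))) 
(.nd (nat_lit 4) (.nd (nat_lit 5) 
(.lf (nat_lit 92492) (.g (nat_lit 2918) (.e (nat_lit 2283) (nat_lit 150) (.e (nat_lit 770072) (nat_lit 8) (.e (nat_lit 65583) (nat_lit 7) (.e (nat_lit 319530) (nat_lit 16) (.e (nat_lit 286748) (nat_lit 9) (.e (nat_lit 335925) (nat_lit 0) (.e (nat_lit 1014) (nat_lit 81) (.e (nat_lit 5567) (nat_lit 308) (.e (nat_lit 57348) (nat_lit 0) .nil))))))))) (.g (nat_lit 5) .nil .nil))) 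
(.lf (nat_lit 92524) (.g (nat_lit 2012) (.e (nat_lit 2283) (nat_lit 150) (.e (nat_lit 770072) (nat_lit 8) (.e (nat_lit 65583) (nat_lit 7) (.e (nat_lit 319530) (nat_lit 16) (.e (nat_lit 286756) (nat_lit 10) (.e (nat_lit 344160) (nat_lit 37) (.e (nat_lit 647196) (nat_lit 9) (.e (nat_lit 995) (nat_lit 81) .nil)))))))) (.g (nat_lit 4) .nil .nil)))) (.nd (nat_lit 5) 
(.lf (nat_lit 92508) (.g (nat_lit 2305) (.e (nat_lit 2283) (nat_lit 150) (.e (nat_lit 770072) (nat_lit 8) (.e (nat_lit 65583) (nat_lit 7) (.e (nat_lit 319530) (nat_lit 16) (.e (nat_lit 286751) (nat_lit 10) (.e (nat_lit 344095) (nat_lit 18) (.e (nat_lit 5568) (nat_lit 308) (.e (nat_lit 57348) (nat_lit 0) .nil)))))))) (.g (nat_lit 4) .nil .nil))) 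
(.lf (nat_lit 92540) (.g (nat_lit 2863) (.e (nat_lit 2283) (nat_lit 150) (.e (nat_lit 770072) (nat_lit 8) (.e (nat_lit 65586) (nat_lit 7) (.e (nat_lit 319531) (nat_lit 16) (.e (nat_lit 286748) (nat_lit 9) (.e (nat_lit 335925) (nat_lit 0) (.e (nat_lit 1014) (nat_lit 81) (.e (nat_lit 5567) (nat_lit 308) (.e (nat_lit 57348) (nat_lit 0) .nil))))))))) (.g (nat_lit 5) .nil .nil))))))) 
(.nd (nat_lit 2) (.nd (nat_lit 3) (.nd (nat_lit 4) (.nd (nat_lit 5) 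
(.lf (nat_lit 92482) (.g (nat_lit 2490) (.e (nat_lit 2283) (nat_lit 150) (.e (nat_lit 770072) (nat_lit 8) (.e (nat_lit 65583) (nat_lit 7) (.e (nat_lit 319530) (nat_lit 16) (.e (nat_lit 286748) (nat_lit 9) (.e (nat_lit 335925) (nat_lit 0) (.e (nat_lit 994) (nat_lit 81) (.e (nat_lit 5568) (nat_lit 308) (.e (nat_lit 57348) (nat_lit 0) .nil))))))))) (.g (nat_lit 4) .nil .nil))) 
(.lf (nat_lit 92514) (.g (nat_lit 2170) (.e (nat_lit 2283) (nat_lit 150) (.e (nat_lit 770072) (nat_lit 8) (.e (nat_lit 65583) (nat_lit 7) (.e (nat_lit 319530) (nat_lit 16) (.e (nat_lit 286755) (nat_lit 10) .nil))))) .nil))) (.nd (nat_lit 5) 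
(.lf (nat_lit 92498) (.g (nat_lit 2128) (.e (nat_lit 2283) (nat_lit 150) (.e (nat_lit 770072) (nat_lit 8) (.e (nat_lit 65583) (nat_lit 7) (.e (nat_lit 319530) (nat_lit 16) (.e (nat_lit 286748) (nat_lit 9) (.e (nat_lit 335925) (nat_lit 0) (.e (nat_lit 1043) (nat_lit 81) (.e (nat_lit 5566) (nat_lit 308) (.e (nat_lit 57348) (nat_lit 0) .nil))))))))) (.g (nat_lit 4) .nil .nil))) 
(.lf (nat_lit 92530) (.g (nat_lit 2945) (.e (nat_lit 2283) (nat_lit 150) (.e (nat_lit 770072) (nat_lit 8) (.e (nat_lit 65586) (nat_lit 7) (.e (nat_lit 319531) (nat_lit 16) (.e (nat_lit 286748) (nat_lit 9) (.e (nat_lit 335925) (nat_lit 0) (.e (nat_lit 993) (nat_lit 81) (.e (nat_lit 5566) (nat_lit 308) (.e (nat_lit 57348) (nat_lit 0) .nil))))))))) (.g (nat_lit 5) .nil .nil))))) 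
(.nd (nat_lit 4) (.nd (nat_lit 5) 
(.lf (nat_lit 92490) (.g (nat_lit 2917) (.e (nat_lit 2283) (nat_lit 150) (.e (nat_lit 770072) (nat_lit 8) (.e (nat_lit 65583) (nat_lit 7) (.e (nat_lit 319530) (nat_lit 16) (.e (nat_lit 286748) (nat_lit 9) (.e (nat_lit 335925) (nat_lit 0) (.e (nat_lit 1013) (nat_lit 81) (.e (nat_lit 5568) (nat_lit 308) (.e (nat_lit 57348) (nat_lit 0) .nil))))))))) (.g (nat_lit 5) .nil .nil))) 
(.lf (nat_lit 92522) (.g (nat_lit 2438) (.e (nat_lit 2283) (nat_lit 150) (.e (nat_lit 770072) (nat_lit 8) (.e (nat_lit 65583) (nat_lit 7) (.e (nat_lit 319530) (nat_lit 16) (.e (nat_lit 286756) (nat_lit 10) (.e (nat_lit 344160) (nat_lit 37) (.e (nat_lit 647195) (nat_lit 9) (.e (nat_lit 7936) (nat_lit 81) .nil)))))))) (.g (nat_lit 4) .nil .nil)))) (.nd (nat_lit 5) 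
(.lf (nat_lit 92506) (.g (nat_lit 2613) (.e (nat_lit 2283) (nat_lit 150) (.e (nat_lit 770072) (nat_lit 8) (.e (nat_lit 65583) (nat_lit 7) (.e (nat_lit 319530) (nat_lit 16) (.e (nat_lit 286751) (nat_lit 10) (.e (nat_lit 344091) (nat_lit 18) (.e (nat_lit 5570) (nat_lit 308) (.e (nat_lit 57348) (nat_lit 0) .nil)))))))) (.g (nat_lit 5) .nil .nil))) 
(.lf (nat_lit 92538) (.g (nat_lit 2862) (.e (nat_lit 2283) (nat_lit 150) (.e (nat_lit 770072) (nat_lit 8) (.e (nat_lit 65586) (nat_lit 7) (.e (nat_lit 319531) (nat_lit 16) (.e (nat_lit 286748) (nat_lit 9) (.e (nat_lit 335925) (nat_lit 0) (.e (nat_lit 1013) (nat_lit 81) (.e (nat_lit 5568) (nat_lit 308) (.e (nat_lit 57348) (nat_lit 0) .nil))))))))) (.g (nat_lit 5) .nil .nil)))))) 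
(.nd (nat_lit 3) (.nd (nat_lit 4) (.nd (nat_lit 5) 
(.lf (nat_lit 92486) (.g (nat_lit 2233) (.e (nat_lit 2283) (nat_lit 150) (.e (nat_lit 770072) (nat_lit 8) (.e (nat_lit 65583) (nat_lit 7) (.e (nat_lit 319530) (nat_lit 16) (.e (nat_lit 286748) (nat_lit 9) (.e (nat_lit 335925) (nat_lit 0) (.e (nat_lit 1012) (nat_lit 81) (.e (nat_lit 5566) (nat_lit 308) (.e (nat_lit 57348) (nat_lit 0) .nil))))))))) (.g (nat_lit 4) .nil .nil))) 
(.lf (nat_lit 92518) (.g (nat_lit 2383) (.e (nat_lit 2283) (nat_lit 150) (.e (nat_lit 770072) (nat_lit 8) (.e (nat_lit 65583) (nat_lit 7) (.e (nat_lit 319530) (nat_lit 16) (.e (nat_lit 286755) (nat_lit 10) (.e (nat_lit 344096) (nat_lit 18) (.e (nat_lit 5568) (nat_lit 308) (.e (nat_lit 57348) (nat_lit 0) .nil)))))))) (.g (nat_lit 4) .nil .nil)))) (.nd (nat_lit 5) 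
(.lf (nat_lit 92502) (.g (nat_lit 1852) (.e (nat_lit 2283) (nat_lit 150) (.e (nat_lit 770072) (nat_lit 8) (.e (nat_lit 65583) (nat_lit 7) (.e (nat_lit 319530) (nat_lit 16) (.e (nat_lit 286751) (nat_lit 10) .nil))))) .nil)) 
(.lf (nat_lit 92534) (.g (nat_lit 2778) (.e (nat_lit 2283) (nat_lit 150) (.e (nat_lit 770072) (nat_lit 8) (.e (nat_lit 65586) (nat_lit 7) (.e (nat_lit 319531) (nat_lit 16) (.e (nat_lit 286748) (nat_lit 9) (.e (nat_lit 335925) (nat_lit 0) (.e (nat_lit 994) (nat_lit 81) (.e (nat_lit 5567) (nat_lit 308) (.e (nat_lit 57348) (nat_lit 0) .nil))))))))) (.g (nat_lit 5) .nil .nil))))) 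
(.nd (nat_lit 4) (.nd (nat_lit 5) 
(.lf (nat_lit 92494) (.g (nat_lit 2240) (.e (nat_lit 2283) (nat_lit 150) (.e (nat_lit 770072) (nat_lit 8) (.e (nat_lit 65583) (nat_lit 7) (.e (nat_lit 319530) (nat_lit 16) (.e (nat_lit 286748) (nat_lit 9) (.e (nat_lit 335925) (nat_lit 0) (.e (nat_lit 1015) (nat_lit 81) (.e (nat_lit 5566) (nat_lit 308) (.e (nat_lit 57348) (nat_lit 0) .nil))))))))) (.g (nat_lit 4) .nil .nil))) 
(.lf (nat_lit 92526) (.g (nat_lit 2825) (.e (nat_lit 2283) (nat_lit 150) (.e (nat_lit 770072) (nat_lit 8) (.e (nat_lit 65583) (nat_lit 7) (.e (nat_lit 319534) (nat_lit 16) (.e (nat_lit 286756) (nat_lit 10) (.e (nat_lit 344090) (nat_lit 18) (.e (nat_lit 5570) (nat_lit 308) (.e (nat_lit 57348) (nat_lit 0) .nil)))))))) (.g (nat_lit 4) .nil .nil)))) (.nd (nat_lit 5) 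
(.lf (nat_lit 92510) (.g (nat_lit 3209) (.e (nat_lit 2283) (nat_lit 150) (.e (nat_lit 770072) (nat_lit 8) (.e (nat_lit 65583) (nat_lit 7) (.e (nat_lit 319530) (nat_lit 16) (.e (nat_lit 286751) (nat_lit 10) (.e (nat_lit 344096) (nat_lit 18) (.e (nat_lit 5566) (nat_lit 308) (.e (nat_lit 57348) (nat_lit 0) .nil)))))))) (.g (nat_lit 6) .nil .nil))) 
(.lf (nat_lit 92542) (.g (nat_lit 2185) (.e (nat_lit 2283) (nat_lit 150) (.e (nat_lit 770072) (nat_lit 8) (.e (nat_lit 65586) (nat_lit 7) (.e (nat_lit 319531) (nat_lit 16) (.e (nat_lit 286748) (nat_lit 9) (.e (nat_lit 335925) (nat_lit 0) (.e (nat_lit 1015) (nat_lit 81) (.e (nat_lit 5566) (nat_lit 308) (.e (nat_lit 57348) (nat_lit 0) .nil))))))))) (.g (nat_lit 4) .nil .nil)))))))) 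
(.nd (nat_lit 1) (.nd (nat_lit 2) (.nd (nat_lit 3) (.nd (nat_lit 4) (.nd (nat_lit 5) 
(.lf (nat_lit 92481) (.g (nat_lit 2193) (.e (nat_lit 2283) (nat_lit 150) (.e (nat_lit 770072) (nat_lit 8) (.e (nat_lit 65583) (nat_lit 7) (.e (nat_lit 319530) (nat_lit 16) (.e (nat_lit 286748) (nat_lit 9) (.e (nat_lit 335925) (nat_lit 0) (.e (nat_lit 994) (nat_lit 81) (.e (nat_lit 5566) (nat_lit 308) (.e (nat_lit 57348) (nat_lit 0) .nil))))))))) (.g (nat_lit 4) .nil .nil))) 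
(.lf (nat_lit 92513) (.g (nat_lit 2639) (.e (nat_lit 2283) (nat_lit 150) (.e (nat_lit 770072) (nat_lit 8) (.e (nat_lit 65583) (nat_lit 7) (.e (nat_lit 319530) (nat_lit 16) (.e (nat_lit 286753) (nat_lit 10) (.e (nat_lit 344160) (nat_lit 37) (.e (nat_lit 647196) (nat_lit 9) (.e (nat_lit 993) (nat_lit 81) .nil)))))))) (.g (nat_lit 4) .nil .nil)))) (.nd (nat_lit 5) 
(.lf (nat_lit 92497) (.g (nat_lit 2201) (.e (nat_lit 2283) (nat_lit 150) (.e (nat_lit 770072) (nat_lit 8) (.e (nat_lit 65583) (nat_lit 7) (.e (nat_lit 319530) (nat_lit 16) (.e (nat_lit 286748) (nat_lit 9) (.e (nat_lit 335925) (nat_lit 0) (.e (nat_lit 1042) (nat_lit 81) (.e (nat_lit 5566) (nat_lit 308) (.e (nat_lit 57348) (nat_lit 0) .nil))))))))) (.g (nat_lit 4) .nil .nil))) 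
(.lf (nat_lit 92529) (.g (nat_lit 2254) (.e (nat_lit 2283) (nat_lit 150) (.e (nat_lit 770072) (nat_lit 8) (.e (nat_lit 65586) (nat_lit 7) (.e (nat_lit 319531) (nat_lit 16) (.e (nat_lit 286748) (nat_lit 9) (.e (nat_lit 335915) (nat_lit 0) (.e (nat_lit 1007) (nat_lit 81) (.e (nat_lit 5567) (nat_lit 308) (.e (nat_lit 57348) (nat_lit 0) .nil))))))))) (.g (nat_lit 4) .nil .nil))))) 
(.nd (nat_lit 4) (.nd (nat_lit 5) 
(.lf (nat_lit 92489) (.g (nat_lit 3223) (.e (nat_lit 2283) (nat_lit 150) (.e (nat_lit 770072) (nat_lit 8) (.e (nat_lit 65583) (nat_lit 7) (.e (nat_lit 319530) (nat_lit 16) (.e (nat_lit 286748) (nat_lit 9) (.e (nat_lit 335925) (nat_lit 0) (.e (nat_lit 1013) (nat_lit 81) (.e (nat_lit 5567) (nat_lit 308) (.e (nat_lit 57348) (nat_lit 0) .nil))))))))) (.g (nat_lit 5) .nil .nil))) 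
(.lf (nat_lit 92521) (.g (nat_lit 2406) (.e (nat_lit 2283) (nat_lit 150) (.e (nat_lit 770072) (nat_lit 8) (.e (nat_lit 65583) (nat_lit 7) (.e (nat_lit 319530) (nat_lit 16) (.e (nat_lit 286756) (nat_lit 10) (.e (nat_lit 344090) (nat_lit 18) (.e (nat_lit 5570) (nat_lit 308) (.e (nat_lit 57348) (nat_lit 0) .nil)))))))) (.g (nat_lit 4) .nil .nil)))) (.nd (nat_lit 5) 
(.lf (nat_lit 92505) (.g (nat_lit 3375) (.e (nat_lit 2283) (nat_lit 150) (.e (nat_lit 770072) (nat_lit 8) (.e (nat_lit 65583) (nat_lit 7) (.e (nat_lit 319530) (nat_lit 16) (.e (nat_lit 286751) (nat_lit 10) (.e (nat_lit 344091) (nat_lit 18) (.e (nat_lit 5568) (nat_lit 308) (.e (nat_lit 57348) (nat_lit 0) .nil)))))))) (.g (nat_lit 7) .nil .nil))) 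
(.lf (nat_lit 92537) (.g (nat_lit 3168) (.e (nat_lit 2283) (nat_lit 150) (.e (nat_lit 770072) (nat_lit 8) (.e (nat_lit 65586) (nat_lit 7) (.e (nat_lit 319531) (nat_lit 16) (.e (nat_lit 286748) (nat_lit 9) (.e (nat_lit 335925) (nat_lit 0) (.e (nat_lit 1013) (nat_lit 81) (.e (nat_lit 5567) (nat_lit 308) (.e (nat_lit 57348) (nat_lit 0) .nil))))))))) (.g (nat_lit 5) .nil .nil)))))) 
(.nd (nat_lit 3) (.nd (nat_lit 4) (.nd (nat_lit 5) 
(.lf (nat_lit 92485) (.g (nat_lit 3027) (.e (nat_lit 2283) (nat_lit 150) (.e (nat_lit 770072) (nat_lit 8) (.e (nat_lit 65583) (nat_lit 7) (.e (nat_lit 319530) (nat_lit 16) (.e (nat_lit 286748) (nat_lit 9) (.e (nat_lit 335925) (nat_lit 0) (.e (nat_lit 1008) (nat_lit 81) (.e (nat_lit 5566) (nat_lit 308) (.e (nat_lit 57348) (nat_lit 0) .nil))))))))) (.g (nat_lit 5) .nil .nil))) 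
(.lf (nat_lit 92517) (.g (nat_lit 2325) (.e (nat_lit 2283) (nat_lit 150) (.e (nat_lit 770072) (nat_lit 8) (.e (nat_lit 65583) (nat_lit 7) (.e (nat_lit 319530) (nat_lit 16) (.e (nat_lit 286755) (nat_lit 10) (.e (nat_lit 344096) (nat_lit 18) (.e (nat_lit 5566) (nat_lit 308) (.e (nat_lit 57348) (nat_lit 0) .nil)))))))) (.g (nat_lit 4) .nil .nil)))) (.nd (nat_lit 5) 
(.lf (nat_lit 92501) (.g (nat_lit 2692) (.e (nat_lit 2283) (nat_lit 150) (.e (nat_lit 770072) (nat_lit 8) (.e (nat_lit 65583) (nat_lit 7) (.e (nat_lit 319530) (nat_lit 16) (.e (nat_lit 286748) (nat_lit 9) (.e (nat_lit 336034) (nat_lit 4) (.e (nat_lit 123226) (nat_lit 280) (.e (nat_lit 57348) (nat_lit 0) .nil)))))))) (.g (nat_lit 5) .nil .nil))) 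
(.lf (nat_lit 92533) (.g (nat_lit 2138) (.e (nat_lit 2283) (nat_lit 150) (.e (nat_lit 770072) (nat_lit 8) (.e (nat_lit 65586) (nat_lit 7) (.e (nat_lit 319531) (nat_lit 16) (.e (nat_lit 286748) (nat_lit 9) (.e (nat_lit 335925) (nat_lit 0) (.e (nat_lit 994) (nat_lit 81) (.e (nat_lit 5566) (nat_lit 308) (.e (nat_lit 57348) (nat_lit 0) .nil))))))))) (.g (nat_lit 4) .nil .nil))))) 
(.nd (nat_lit 4) (.nd (nat_lit 5) 
(.lf (nat_lit 92493) (.g (nat_lit 2224) (.e (nat_lit 2283) (nat_lit 150) (.e (nat_lit 770072) (nat_lit 8) (.e (nat_lit 65583) (nat_lit 7) (.e (nat_lit 319530) (nat_lit 16) (.e (nat_lit 286748) (nat_lit 9) (.e (nat_lit 335925) (nat_lit 0) (.e (nat_lit 1014) (nat_lit 81) (.e (nat_lit 5570) (nat_lit 308) (.e (nat_lit 57348) (nat_lit 0) .nil))))))))) (.g (nat_lit 4) .nil .nil))) 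
(.lf (nat_lit 92525) (.g (nat_lit 3424) (.e (nat_lit 2283) (nat_lit 150) (.e (nat_lit 770072) (nat_lit 8) (.e (nat_lit 65583) (nat_lit 7) (.e (nat_lit 319533) (nat_lit 16) (.e (nat_lit 286753) (nat_lit 10) (.e (nat_lit 344160) (nat_lit 37) (.e (nat_lit 647195) (nat_lit 9) (.e (nat_lit 982) (nat_lit 81) .nil)))))))) (.g (nat_lit 5) .nil .nil)))) (.nd (nat_lit 5) 
(.lf (nat_lit 92509) (.g (nat_lit 2012) (.e (nat_lit 2283) (nat_lit 150) (.e (nat_lit 770072) (nat_lit 8) (.e (nat_lit 65583) (nat_lit 7) (.e (nat_lit 319530) (nat_lit 16) (.e (nat_lit 286751) (nat_lit 10) (.e (nat_lit 344095) (nat_lit 18) (.e (nat_lit 5570) (nat_lit 308) (.e (nat_lit 57348) (nat_lit 0) .nil)))))))) (.g (nat_lit 4) .nil .nil))) 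
(.lf (nat_lit 92541) (.g (nat_lit 2169) (.e (nat_lit 2283) (nat_lit 150) (.e (nat_lit 770072) (nat_lit 8) (.e (nat_lit 65586) (nat_lit 7) (.e (nat_lit 319531) (nat_lit 16) (.e (nat_lit 286748) (nat_lit 9) (.e (nat_lit 335925) (nat_lit 0) (.e (nat_lit 1014) (nat_lit 81) (.e (nat_lit 5570) (nat_lit 308) (.e (nat_lit 57348) (nat_lit 0) .nil))))))))) (.g (nat_lit 4) .nil .nil))))))) 
(.nd (nat_lit 2) (.nd (nat_lit 3) (.nd (nat_lit 4) (.nd (nat_lit 5) 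
(.lf (nat_lit 92483) (.g (nat_lit 2131) (.e (nat_lit 2283) (nat_lit 150) (.e (nat_lit 770072) (nat_lit 8) (.e (nat_lit 65583) (nat_lit 7) (.e (nat_lit 319530) (nat_lit 16) (.e (nat_lit 286748) (nat_lit 9) (.e (nat_lit 335925) (nat_lit 0) (.e (nat_lit 994) (nat_lit 81) (.e (nat_lit 5570) (nat_lit 308) (.e (nat_lit 57348) (nat_lit 0) .nil))))))))) (.g (nat_lit 4) .nil .nil))) 
(.lf (nat_lit 92515) (.g (nat_lit 2845) (.e (nat_lit 2283) (nat_lit 150) (.e (nat_lit 770072) (nat_lit 8) (.e (nat_lit 65583) (nat_lit 7) (.e (nat_lit 319530) (nat_lit 16) (.e (nat_lit 286755) (nat_lit 10) (.e (nat_lit 344091) (nat_lit 18) (.e (nat_lit 5566) (nat_lit 308) (.e (nat_lit 57348) (nat_lit 0) .nil)))))))) (.g (nat_lit 5) .nil .nil)))) (.nd (nat_lit 5) 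
(.lf (nat_lit 92499) (.g (nat_lit 2280) (.e (nat_lit 2283) (nat_lit 150) (.e (nat_lit 770072) (nat_lit 8) (.e (nat_lit 65583) (nat_lit 7) (.e (nat_lit 319530) (nat_lit 16) (.e (nat_lit 286748) (nat_lit 9) (.e (nat_lit 335928) (nat_lit 0) (.e (nat_lit 988) (nat_lit 81) (.e (nat_lit 5567) (nat_lit 308) (.e (nat_lit 57348) (nat_lit 0) .nil))))))))) (.g (nat_lit 4) .nil .nil))) 
(.lf (nat_lit 92531) (.g (nat_lit 3175) (.e (nat_lit 2283) (nat_lit 150) (.e (nat_lit 770072) (nat_lit 8) (.e (nat_lit 65586) (nat_lit 7) (.e (nat_lit 319531) (nat_lit 16) (.e (nat_lit 286748) (nat_lit 9) (.e (nat_lit 335925) (nat_lit 0) (.e (nat_lit 993) (nat_lit 81) (.e (nat_lit 5567) (nat_lit 308) (.e (nat_lit 57348) (nat_lit 0) .nil))))))))) (.g (nat_lit 5) .nil .nil))))) 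
(.nd (nat_lit 4) (.nd (nat_lit 5) 
(.lf (nat_lit 92491) (.g (nat_lit 2275) (.e (nat_lit 2283) (nat_lit 150) (.e (nat_lit 770072) (nat_lit 8) (.e (nat_lit 65583) (nat_lit 7) (.e (nat_lit 319530) (nat_lit 16) (.e (nat_lit 286748) (nat_lit 9) (.e (nat_lit 335925) (nat_lit 0) (.e (nat_lit 1014) (nat_lit 81) (.e (nat_lit 5566) (nat_lit 308) (.e (nat_lit 57348) (nat_lit 0) .nil))))))))) (.g (nat_lit 4) .nil .nil))) 
(.lf (nat_lit 92523) (.g (nat_lit 2546) (.e (nat_lit 2283) (nat_lit 150) (.e (nat_lit 770072) (nat_lit 8) (.e (nat_lit 65583) (nat_lit 7) (.e (nat_lit 319530) (nat_lit 16) (.e (nat_lit 286756) (nat_lit 10) (.e (nat_lit 344160) (nat_lit 37) (.e (nat_lit 647196) (nat_lit 9) (.e (nat_lit 993) (nat_lit 81) .nil)))))))) (.g (nat_lit 4) .nil .nil)))) (.nd (nat_lit 5) 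
(.lf (nat_lit 92507) (.g (nat_lit 1997) (.e (nat_lit 2283) (nat_lit 150) (.e (nat_lit 770072) (nat_lit 8) (.e (nat_lit 65583) (nat_lit 7) (.e (nat_lit 319530) (nat_lit 16) (.e (nat_lit 286751) (nat_lit 10) (.e (nat_lit 344094) (nat_lit 18) (.e (nat_lit 5570) (nat_lit 308) (.e (nat_lit 57348) (nat_lit 0) .nil)))))))) (.g (nat_lit 4) .nil .nil))) 
(.lf (nat_lit 92539) (.g (nat_lit 2220) (.e (nat_lit 2283) (nat_lit 150) (.e (nat_lit 770072) (nat_lit 8) (.e (nat_lit 65586) (nat_lit 7) (.e (nat_lit 319531) (nat_lit 16) (.e (nat_lit 286748) (nat_lit 9) (.e (nat_lit 335925) (nat_lit 0) (.e (nat_lit 1014) (nat_lit 81) (.e (nat_lit 5566) (nat_lit 308) (.e (nat_lit 57348) (nat_lit 0) .nil))))))))) (.g (nat_lit 4) .nil .nil)))))) 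
(.nd (nat_lit 3) (.nd (nat_lit 4) (.nd (nat_lit 5) 
(.lf (nat_lit 92487) (.g (nat_lit 2498) (.e (nat_lit 2283) (nat_lit 150) (.e (nat_lit 770072) (nat_lit 8) (.e (nat_lit 65583) (nat_lit 7) (.e (nat_lit 319530) (nat_lit 16) (.e (nat_lit 286748) (nat_lit 9) (.e (nat_lit 335925) (nat_lit 0) (.e (nat_lit 1012) (nat_lit 81) (.e (nat_lit 5568) (nat_lit 308) (.e (nat_lit 57348) (nat_lit 0) .nil))))))))) (.g (nat_lit 4) .nil .nil))) 
(.lf (nat_lit 92519) (.g (nat_lit 1981) (.e (nat_lit 2283) (nat_lit 150) (.e (nat_lit 770072) (nat_lit 8) (.e (nat_lit 65583) (nat_lit 7) (.e (nat_lit 319530) (nat_lit 16) (.e (nat_lit 286756) (nat_lit 10) .nil))))) .nil))) (.nd (nat_lit 5) 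
(.lf (nat_lit 92503) (.g (nat_lit 2188) (.e (nat_lit 2283) (nat_lit 150) (.e (nat_lit 770072) (nat_lit 8) (.e (nat_lit 65583) (nat_lit 7) (.e (nat_lit 319530) (nat_lit 16) (.e (nat_lit 286751) (nat_lit 10) (.e (nat_lit 344091) (nat_lit 18) (.e (nat_lit 5566) (nat_lit 308) (.e (nat_lit 57347) (nat_lit 0) .nil)))))))) (.g (nat_lit 4) .nil .nil))) 
(.lf (nat_lit 92535) (.g (nat_lit 2972) (.e (nat_lit 2283) (nat_lit 150) (.e (nat_lit 770072) (nat_lit 8) (.e (nat_lit 65586) (nat_lit 7) (.e (nat_lit 319531) (nat_lit 16) (.e (nat_lit 286748) (nat_lit 9) (.e (nat_lit 335925) (nat_lit 0) (.e (nat_lit 1008) (nat_lit 81) (.e (nat_lit 5566) (nat_lit 308) (.e (nat_lit 57348) (nat_lit 0) .nil))))))))) (.g (nat_lit 5) .nil .nil))))) 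
(.nd (nat_lit 4) (.nd (nat_lit 5) 
(.lf (nat_lit 92495) (.g (nat_lit 2515) (.e (nat_lit 2283) (nat_lit 150) (.e (nat_lit 770072) (nat_lit 8) (.e (nat_lit 65583) (nat_lit 7) (.e (nat_lit 319530) (nat_lit 16) (.e (nat_lit 286748) (nat_lit 9) (.e (nat_lit 335925) (nat_lit 0) (.e (nat_lit 1015) (nat_lit 81) (.e (nat_lit 5568) (nat_lit 308) (.e (nat_lit 57348) (nat_lit 0) .nil))))))))) (.g (nat_lit 4) .nil .nil))) 
(.lf (nat_lit 92527) (.g (nat_lit 3074) (.e (nat_lit 2283) (nat_lit 150) (.e (nat_lit 770072) (nat_lit 8) (.e (nat_lit 65583) (nat_lit 7) (.e (nat_lit 319534) (nat_lit 16) (.e (nat_lit 286756) (nat_lit 10) (.e (nat_lit 344160) (nat_lit 37) (.e (nat_lit 647195) (nat_lit 9) (.e (nat_lit 7936) (nat_lit 81) .nil)))))))) (.g (nat_lit 4) .nil .nil)))) (.nd (nat_lit 5) 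
(.lf (nat_lit 92511) (.g (nat_lit 3267) (.e (nat_lit 2283) (nat_lit 150) (.e (nat_lit 770072) (nat_lit 8) (.e (nat_lit 65583) (nat_lit 7) (.e (nat_lit 319530) (nat_lit 16) (.e (nat_lit 286751) (nat_lit 10) (.e (nat_lit 344096) (nat_lit 18) (.e (nat_lit 5568) (nat_lit 308) (.e (nat_lit 57348) (nat_lit 0) .nil)))))))) (.g (nat_lit 6) .nil .nil))) 
(.lf (nat_lit 92543) (.g (nat_lit 2781) (.e (nat_lit 2283) (nat_lit 150) (.e (nat_lit 770072) (nat_lit 8) (.e (nat_lit 65586) (nat_lit 7) (.e (nat_lit 319531) (nat_lit 16) (.e (nat_lit 286748) (nat_lit 9) (.e (nat_lit 335925) (nat_lit 0) (.e (nat_lit 1015) (nat_lit 81) (.e (nat_lit 5567) (nat_lit 308) (.e (nat_lit 57348) (nat_lit 0) .nil))))))))) (.g (nat_lit 5) .nil .nil)))))))))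

noncomputable def tv1269 : DT := (.nd (nat_lit 0) (.nd (nat_lit 1) (.nd (nat_lit 2) (.nd (nat_lit 3) (.nd (nat_lit 4) (.nd (nat_lit 5) 
(.lf (nat_lit 92544) (.g (nat_lit 2146) (.e (nat_lit 2283) (nat_lit 150) (.e (nat_lit 770072) (nat_lit 8) (.e (nat_lit 65586) (nat_lit 7) (.e (nat_lit 319531) (nat_lit 16) (.e (nat_lit 286748) (nat_lit 9) (.e (nat_lit 335925) (nat_lit 0) (.e (nat_lit 1042) (nat_lit 81) (.e (nat_lit 5566) (nat_lit 308) (.e (nat_lit 57348) (nat_lit 0) .nil))))))))) (.g (nat_lit 4) .nil .nil))) 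
(.lf (nat_lit 92576) (.g (nat_lit 3347) (.e (nat_lit 2283) (nat_lit 150) (.e (nat_lit 770072) (nat_lit 8) (.e (nat_lit 65586) (nat_lit 7) (.e (nat_lit 319534) (nat_lit 16) (.e (nat_lit 286756) (nat_lit 10) (.e (nat_lit 344090) (nat_lit 18) (.e (nat_lit 5570) (nat_lit 308) (.e (nat_lit 57348) (nat_lit 0) .nil)))))))) (.g (nat_lit 5) .nil .nil)))) (.nd (nat_lit 5) 
(.lf (nat_lit 92560) (.g (nat_lit 2390) (.e (nat_lit 2283) (nat_lit 150) (.e (nat_lit 770072) (nat_lit 8) (.e (nat_lit 65586) (nat_lit 7) (.e (nat_lit 319531) (nat_lit 16) (.e (nat_lit 286755) (nat_lit 10) .nil))))) .nil)) 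
(.lf (nat_lit 92592) (.g (nat_lit 3269) (.e (nat_lit 2283) (nat_lit 150) (.e (nat_lit 770074) (nat_lit 10) (.e (nat_lit 81963) (nat_lit 26) (.e (nat_lit 147495) (nat_lit 11) (.e (nat_lit 24628) (nat_lit 9) (.e (nat_lit 335878) (nat_lit 0) .nil)))))) (.g (nat_lit 0) .nil .nil))))) (.nd (nat_lit 4) (.nd (nat_lit 5) 
(.lf (nat_lit 92552) (.g (nat_lit 4131) (.e (nat_lit 2283) (nat_lit 150) (.e (nat_lit 770072) (nat_lit 8) (.e (nat_lit 65586) (nat_lit 7) (.e (nat_lit 319531) (nat_lit 16) (.e (nat_lit 286751) (nat_lit 10) (.e (nat_lit 344091) (nat_lit 18) (.e (nat_lit 5566) (nat_lit 308) (.e (nat_lit 57348) (nat_lit 0) .nil)))))))) (.g (nat_lit 8) .nil .nil))) 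
(.lf (nat_lit 92584) (.g (nat_lit 1176) (.e (nat_lit 2283) (nat_lit 150) (.e (nat_lit 770072) (nat_lit 8) (.e (nat_lit 65617) (nat_lit 10) (.e (nat_lit 344095) (nat_lit 18) .nil)))) .nil))) (.nd (nat_lit 5) 
(.lf (nat_lit 92568) (.g (nat_lit 4323) (.e (nat_lit 2283) (nat_lit 150) (.e (nat_lit 770072) (nat_lit 8) (.e (nat_lit 65586) (nat_lit 7) (.e (nat_lit 319531) (nat_lit 16) (.e (nat_lit 286756) (nat_lit 10) (.e (nat_lit 344160) (nat_lit 37) (.e (nat_lit 647195) (nat_lit 9) (.e (nat_lit 982) (nat_lit 81) .nil)))))))) (.g (nat_lit 7) .nil .nil))) 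
(.lf (nat_lit 92600) (.g (nat_lit 3744) (.e (nat_lit 2283) (nat_lit 150) (.e (nat_lit 770074) (nat_lit 10) (.e (nat_lit 81965) (nat_lit 26) (.e (nat_lit 147495) (nat_lit 11) (.e (nat_lit 24628) (nat_lit 9) (.e (nat_lit 335878) (nat_lit 0) .nil)))))) (.g (nat_lit 0) .nil .nil)))))) (.nd (nat_lit 3) (.nd (nat_lit 4) (.nd (nat_lit 5) 
(.lf (nat_lit 92548) (.g (nat_lit 1834) (.e (nat_lit 2283) (nat_lit 150) (.e (nat_lit 770072) (nat_lit 8) (.e (nat_lit 65586) (nat_lit 7) (.e (nat_lit 319531) (nat_lit 16) (.e (nat_lit 286748) (nat_lit 9) (.e (nat_lit 335928) (nat_lit 0) (.e (nat_lit 1008) (nat_lit 81) (.e (nat_lit 5566) (nat_lit 308) (.e (nat_lit 57348) (nat_lit 0) .nil))))))))) (.g (nat_lit 4) .nil .nil))) 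
(.lf (nat_lit 92580) (.g (nat_lit 2731) (.e (nat_lit 2283) (nat_lit 150) (.e (nat_lit 770072) (nat_lit 8) (.e (nat_lit 65586) (nat_lit 7) (.e (nat_lit 319534) (nat_lit 16) (.e (nat_lit 286756) (nat_lit 10) (.e (nat_lit 344160) (nat_lit 37) (.e (nat_lit 647196) (nat_lit 9) (.e (nat_lit 995) (nat_lit 81) .nil)))))))) (.g (nat_lit 5) .nil .nil)))) (.nd (nat_lit 5) 
(.lf (nat_lit 92564) (.g (nat_lit 3625) (.e (nat_lit 2283) (nat_lit 150) (.e (nat_lit 770072) (nat_lit 8) (.e (nat_lit 65586) (nat_lit 7) (.e (nat_lit 319531) (nat_lit 16) (.e (nat_lit 286756) (nat_lit 10) (.e (nat_lit 344088) (nat_lit 18) (.e (nat_lit 5568) (nat_lit 308) (.e (nat_lit 57348) (nat_lit 0) .nil)))))))) (.g (nat_lit 5) .nil .nil))) 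
(.lf (nat_lit 92596) (.g (nat_lit 2631) (.e (nat_lit 2283) (nat_lit 150) (.e (nat_lit 770074) (nat_lit 10) (.e (nat_lit 81965) (nat_lit 26) (.e (nat_lit 147493) (nat_lit 11) (.e (nat_lit 24628) (nat_lit 9) (.e (nat_lit 335878) (nat_lit 0) .nil)))))) (.g (nat_lit 5) .nil .nil))))) (.nd (nat_lit 4) (.nd (nat_lit 5) 
(.lf (nat_lit 92556) (.g (nat_lit 2402) (.e (nat_lit 2283) (nat_lit 150) (.e (nat_lit 770072) (nat_lit 8) (.e (nat_lit 65586) (nat_lit 7) (.e (nat_lit 319531) (nat_lit 16) (.e (nat_lit 286751) (nat_lit 10) (.e (nat_lit 344095) (nat_lit 18) (.e (nat_lit 5568) (nat_lit 308) (.e (nat_lit 57348) (nat_lit 0) .nil)))))))) (.g (nat_lit 4) .nil .nil))) 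
(.lf (nat_lit 92588) (.g (nat_lit 2057) (.e (nat_lit 2283) (nat_lit 150) (.e (nat_lit 770072) (nat_lit 8) (.e (nat_lit 65627) (nat_lit 13) (.e (nat_lit 393298) (nat_lit 27) (.e (nat_lit 491552) (nat_lit 9) (.e (nat_lit 335900) (nat_lit 0) .nil)))))) (.g (nat_lit 4) .nil .nil)))) (.nd (nat_lit 5) 
(.lf (nat_lit 92572) (.g (nat_lit 2908) (.e (nat_lit 2283) (nat_lit 150) (.e (nat_lit 770072) (nat_lit 8) (.e (nat_lit 65586) (nat_lit 7) (.e (nat_lit 319534) (nat_lit 16) (.e (nat_lit 286751) (nat_lit 10) (.e (nat_lit 344091) (nat_lit 18) (.e (nat_lit 5566) (nat_lit 308) (.e (nat_lit 57348) (nat_lit 0) .nil)))))))) (.g (nat_lit 4) .nil .nil))) 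
(.lf (nat_lit 92604) (.g (nat_lit 885) (.e (nat_lit 7936) (nat_lit 150) (.e (nat_lit 770074) (nat_lit 10) (.e (nat_lit 81965) (nat_lit 26) (.e (nat_lit 147494) (nat_lit 11) .nil)))) .nil)))))) (.nd (nat_lit 2) (.nd (nat_lit 3) (.nd (nat_lit 4) (.nd (nat_lit 5) 
(.lf (nat_lit 92546) (.g (nat_lit 1863) (.e (nat_lit 2283) (nat_lit 150) (.e (nat_lit 770072) (nat_lit 8) (.e (nat_lit 65586) (nat_lit 7) (.e (nat_lit 319531) (nat_lit 16) (.e (nat_lit 286748) (nat_lit 9) (.e (nat_lit 335928) (nat_lit 0) (.e (nat_lit 988) (nat_lit 81) (.e (nat_lit 5568) (nat_lit 308) (.e (nat_lit 57348) (nat_lit 0) .nil))))))))) (.g (nat_lit 4) .nil .nil))) 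
(.lf (nat_lit 92578) (.g (nat_lit 3200) (.e (nat_lit 2283) (nat_lit 150) (.e (nat_lit 770072) (nat_lit 8) (.e (nat_lit 65586) (nat_lit 7) (.e (nat_lit 319534) (nat_lit 16) (.e (nat_lit 286756) (nat_lit 10) (.e (nat_lit 344160) (nat_lit 37) (.e (nat_lit 647195) (nat_lit 9) (.e (nat_lit 7936) (nat_lit 81) .nil)))))))) (.g (nat_lit 5) .nil .nil)))) (.nd (nat_lit 5) 
(.lf (nat_lit 92562) (.g (nat_lit 3524) (.e (nat_lit 2283) (nat_lit 150) (.e (nat_lit 770072) (nat_lit 8) (.e (nat_lit 65586) (nat_lit 7) (.e (nat_lit 319531) (nat_lit 16) (.e (nat_lit 286756) (nat_lit 10) (.e (nat_lit 344088) (nat_lit 18) (.e (nat_lit 5566) (nat_lit 308) (.e (nat_lit 57348) (nat_lit 0) .nil)))))))) (.g (nat_lit 5) .nil .nil))) 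
(.lf (nat_lit 92594) (.g (nat_lit 3325) (.e (nat_lit 2283) (nat_lit 150) (.e (nat_lit 770074) (nat_lit 10) (.e (nat_lit 81965) (nat_lit 26) (.e (nat_lit 147492) (nat_lit 11) (.e (nat_lit 24628) (nat_lit 9) (.e (nat_lit 335878) (nat_lit 0) .nil)))))) (.g (nat_lit 0) .nil .nil))))) (.nd (nat_lit 4) (.nd (nat_lit 5) 
(.lf (nat_lit 92554) (.g (nat_lit 3490) (.e (nat_lit 2283) (nat_lit 150) (.e (nat_lit 770072) (nat_lit 8) (.e (nat_lit 65586) (nat_lit 7) (.e (nat_lit 319531) (nat_lit 16) (.e (nat_lit 286751) (nat_lit 10) (.e (nat_lit 344091) (nat_lit 18) (.e (nat_lit 5568) (nat_lit 308) (.e (nat_lit 57348) (nat_lit 0) .nil)))))))) (.g (nat_lit 6) .nil .nil))) 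
(.lf (nat_lit 92586) (.g (nat_lit 2258) (.e (nat_lit 2283) (nat_lit 150) (.e (nat_lit 770072) (nat_lit 8) (.e (nat_lit 65617) (nat_lit 10) (.e (nat_lit 344096) (nat_lit 18) (.e (nat_lit 7125) (nat_lit 382) (.e (nat_lit 1296) (nat_lit 96) (.e (nat_lit 131109) (nat_lit 9) (.e (nat_lit 335878) (nat_lit 0) .nil)))))))) (.g (nat_lit 4) .nil .nil)))) (.nd (nat_lit 5) 
(.lf (nat_lit 92570) (.g (nat_lit 2327) (.e (nat_lit 2283) (nat_lit 150) (.e (nat_lit 770072) (nat_lit 8) (.e (nat_lit 65586) (nat_lit 7) (.e (nat_lit 319531) (nat_lit 16) (.e (nat_lit 286756) (nat_lit 10) (.e (nat_lit 344160) (nat_lit 37) (.e (nat_lit 647196) (nat_lit 9) (.e (nat_lit 992) (nat_lit 81) .nil)))))))) (.g (nat_lit 4) .nil .nil))) 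
(.lf (nat_lit 92602) (.g (nat_lit 1538) (.e (nat_lit 2284) (nat_lit 150) (.e (nat_lit 770076) (nat_lit 12) (.e (nat_lit 131116) (nat_lit 9) (.e (nat_lit 335988) (nat_lit 1) (.e (nat_lit 57665) (nat_lit 152) (.e (nat_lit 7936) (nat_lit 90) (.e (nat_lit 81930) (nat_lit 20) .nil))))))) (.g (nat_lit 4) .nil .nil)))))) (.nd (nat_lit 3) (.nd (nat_lit 4) (.nd (nat_lit 5) 
(.lf (nat_lit 92550) (.g (nat_lit 2289) (.e (nat_lit 2283) (nat_lit 150) (.e (nat_lit 770072) (nat_lit 8) (.e (nat_lit 65586) (nat_lit 7) (.e (nat_lit 319531) (nat_lit 16) (.e (nat_lit 286751) (nat_lit 10) .nil))))) .nil)) 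
(.lf (nat_lit 92582) (.g (nat_lit 2425) (.e (nat_lit 2283) (nat_lit 150) (.e (nat_lit 770072) (nat_lit 8) (.e (nat_lit 65610) (nat_lit 10) (.e (nat_lit 344176) (nat_lit 43) (.e (nat_lit 770076) (nat_lit 12) (.e (nat_lit 131109) (nat_lit 9) (.e (nat_lit 335878) (nat_lit 0) .nil))))))) (.g (nat_lit 5) .nil .nil)))) (.nd (nat_lit 5) 
(.lf (nat_lit 92566) (.g (nat_lit 4023) (.e (nat_lit 2283) (nat_lit 150) (.e (nat_lit 770072) (nat_lit 8) (.e (nat_lit 65586) (nat_lit 7) (.e (nat_lit 319531) (nat_lit 16) (.e (nat_lit 286756) (nat_lit 10) (.e (nat_lit 344090) (nat_lit 18) (.e (nat_lit 5570) (nat_lit 308) (.e (nat_lit 57348) (nat_lit 0) .nil)))))))) (.g (nat_lit 6) .nil .nil))) 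
(.lf (nat_lit 92598) (.g (nat_lit 2691) (.e (nat_lit 2283) (nat_lit 150) (.e (nat_lit 770074) (nat_lit 10) (.e (nat_lit 81965) (nat_lit 26) (.e (nat_lit 147494) (nat_lit 11) (.e (nat_lit 24638) (nat_lit 9) (.e (nat_lit 335892) (nat_lit 0) .nil)))))) (.g (nat_lit 6) .nil .nil))))) (.nd (nat_lit 4) (.nd (nat_lit 5) 
(.lf (nat_lit 92558) (.g (nat_lit 3364) (.e (nat_lit 2283) (nat_lit 150) (.e (nat_lit 770072) (nat_lit 8) (.e (nat_lit 65586) (nat_lit 7) (.e (nat_lit 319531) (nat_lit 16) (.e (nat_lit 286751) (nat_lit 10) (.e (nat_lit 344096) (nat_lit 18) (.e (nat_lit 5568) (nat_lit 308) (.e (nat_lit 57348) (nat_lit 0) .nil)))))))) (.g (nat_lit 6) .nil .nil))) 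
(.lf (nat_lit 92590) (.g (nat_lit 3207) (.e (nat_lit 2283) (nat_lit 150) (.e (nat_lit 770072) (nat_lit 8) (.e (nat_lit 65629) (nat_lit 14) (.e (nat_lit 401454) (nat_lit 12) (.e (nat_lit 475212) (nat_lit 42) .nil))))) .nil))) (.nd (nat_lit 5) 
(.lf (nat_lit 92574) (.g (nat_lit 2401) (.e (nat_lit 2283) (nat_lit 150) (.e (nat_lit 770072) (nat_lit 8) (.e (nat_lit 65586) (nat_lit 7) (.e (nat_lit 319534) (nat_lit 16) (.e (nat_lit 286756) (nat_lit 10) (.e (nat_lit 344088) (nat_lit 18) (.e (nat_lit 5568) (nat_lit 308) (.e (nat_lit 57348) (nat_lit 0) .nil)))))))) (.g (nat_lit 4) .nil .nil))) 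
(.lf (nat_lit 92606) (.g (nat_lit 1932) (.e (nat_lit 2291) (nat_lit 151) (.e (nat_lit 778318) (nat_lit 3) (.e (nat_lit 57464) (nat_lit 23) (.e (nat_lit 516160) (nat_lit 10) (.e (nat_lit 434245) (nat_lit 28) (.e (nat_lit 573488) (nat_lit 14) (.e (nat_lit 81664) (nat_lit 5) (.e (nat_lit 532482) (nat_lit 0) .nil)))))))) (.g (nat_lit 4) .nil .nil)))))))) 
(.nd (nat_lit 1) (.nd (nat_lit 2) (.nd (nat_lit 3) (.nd (nat_lit 4) (.nd (nat_lit 5) 
(.lf (nat_lit 92545) (.g (nat_lit 2225) (.e (nat_lit 2283) (nat_lit 150) (.e (nat_lit 770072) (nat_lit 8) (.e (nat_lit 65586) (nat_lit 7) (.e (nat_lit 319531) (nat_lit 16) (.e (nat_lit 286748) (nat_lit 9) (.e (nat_lit 335928) (nat_lit 0) (.e (nat_lit 988) (nat_lit 81) (.e (nat_lit 5567) (nat_lit 308) (.e (nat_lit 57348) (nat_lit 0) .nil))))))))) (.g (nat_lit 4) .nil .nil))) 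
(.lf (nat_lit 92577) (.g (nat_lit 4425) (.e (nat_lit 2283) (nat_lit 150) (.e (nat_lit 770072) (nat_lit 8) (.e (nat_lit 65586) (nat_lit 7) (.e (nat_lit 319534) (nat_lit 16) (.e (nat_lit 286756) (nat_lit 10) (.e (nat_lit 344160) (nat_lit 37) (.e (nat_lit 647195) (nat_lit 9) (.e (nat_lit 982) (nat_lit 81) .nil)))))))) (.g (nat_lit 7) .nil .nil)))) (.nd (nat_lit 5) 
(.lf (nat_lit 92561) (.g (nat_lit 2560) (.e (nat_lit 2283) (nat_lit 150) (.e (nat_lit 770072) (nat_lit 8) (.e (nat_lit 65586) (nat_lit 7) (.e (nat_lit 319531) (nat_lit 16) (.e (nat_lit 286755) (nat_lit 10) (.e (nat_lit 344091) (nat_lit 18) (.e (nat_lit 5566) (nat_lit 308) (.e (nat_lit 57348) (nat_lit 0) .nil)))))))) (.g (nat_lit 4) .nil .nil))) 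
(.lf (nat_lit 92593) (.g (nat_lit 1299) (.e (nat_lit 2283) (nat_lit 150) (.e (nat_lit 770074) (nat_lit 10) (.e (nat_lit 81965) (nat_lit 26) (.e (nat_lit 147492) (nat_lit 11) .nil)))) .nil)))) (.nd (nat_lit 4) (.nd (nat_lit 5) 
(.lf (nat_lit 92553) (.g (nat_lit 2911) (.e (nat_lit 2283) (nat_lit 150) (.e (nat_lit 770072) (nat_lit 8) (.e (nat_lit 65586) (nat_lit 7) (.e (nat_lit 319531) (nat_lit 16) (.e (nat_lit 286751) (nat_lit 10) (.e (nat_lit 344091) (nat_lit 18) (.e (nat_lit 5567) (nat_lit 308) (.e (nat_lit 57348) (nat_lit 0) .nil)))))))) (.g (nat_lit 5) .nil .nil))) 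
(.lf (nat_lit 92585) (.g (nat_lit 1996) (.e (nat_lit 2283) (nat_lit 150) (.e (nat_lit 770072) (nat_lit 8) (.e (nat_lit 65617) (nat_lit 10) (.e (nat_lit 344096) (nat_lit 18) (.e (nat_lit 7124) (nat_lit 382) (.e (nat_lit 1296) (nat_lit 96) (.e (nat_lit 131109) (nat_lit 9) (.e (nat_lit 335878) (nat_lit 0) .nil)))))))) (.g (nat_lit 4) .nil .nil)))) (.nd (nat_lit 5) 
(.lf (nat_lit 92569) (.g (nat_lit 3098) (.e (nat_lit 2283) (nat_lit 150) (.e (nat_lit 770072) (nat_lit 8) (.e (nat_lit 65586) (nat_lit 7) (.e (nat_lit 319531) (nat_lit 16) (.e (nat_lit 286756) (nat_lit 10) (.e (nat_lit 344160) (nat_lit 37) (.e (nat_lit 647195) (nat_lit 9) (.e (nat_lit 7936) (nat_lit 81) .nil)))))))) (.g (nat_lit 5) .nil .nil))) 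
(.lf (nat_lit 92601) (.g (nat_lit 3613) (.e (nat_lit 2283) (nat_lit 150) (.e (nat_lit 770074) (nat_lit 10) (.e (nat_lit 81965) (nat_lit 26) (.e (nat_lit 147496) (nat_lit 11) (.e (nat_lit 24628) (nat_lit 9) (.e (nat_lit 335878) (nat_lit 0) .nil)))))) (.g (nat_lit 0) .nil .nil)))))) (.nd (nat_lit 3) (.nd (nat_lit 4) (.nd (nat_lit 5) 
(.lf (nat_lit 92549) (.g (nat_lit 2257) (.e (nat_lit 2283) (nat_lit 150) (.e (nat_lit 770072) (nat_lit 8) (.e (nat_lit 65586) (nat_lit 7) (.e (nat_lit 319531) (nat_lit 16) (.e (nat_lit 286748) (nat_lit 9) (.e (nat_lit 336034) (nat_lit 4) (.e (nat_lit 123226) (nat_lit 280) (.e (nat_lit 57348) (nat_lit 0) .nil)))))))) (.g (nat_lit 4) .nil .nil))) 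
(.lf (nat_lit 92581) (.g (nat_lit 1930) (.e (nat_lit 2283) (nat_lit 150) (.e (nat_lit 770072) (nat_lit 8) (.e (nat_lit 65610) (nat_lit 10) (.e (nat_lit 344090) (nat_lit 18) (.e (nat_lit 7124) (nat_lit 382) (.e (nat_lit 1296) (nat_lit 96) (.e (nat_lit 131109) (nat_lit 9) (.e (nat_lit 335878) (nat_lit 0) .nil)))))))) (.g (nat_lit 4) .nil .nil)))) (.nd (nat_lit 5) 
(.lf (nat_lit 92565) (.g (nat_lit 4719) (.e (nat_lit 2283) (nat_lit 150) (.e (nat_lit 770072) (nat_lit 8) (.e (nat_lit 65586) (nat_lit 7) (.e (nat_lit 319531) (nat_lit 16) (.e (nat_lit 286756) (nat_lit 10) (.e (nat_lit 344090) (nat_lit 18) (.e (nat_lit 5566) (nat_lit 308) (.e (nat_lit 57348) (nat_lit 0) .nil)))))))) (.g (nat_lit 8) .nil .nil))) 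
(.lf (nat_lit 92597) (.g (nat_lit 2357) (.e (nat_lit 2283) (nat_lit 150) (.e (nat_lit 770074) (nat_lit 10) (.e (nat_lit 81965) (nat_lit 26) (.e (nat_lit 147494) (nat_lit 11) (.e (nat_lit 24628) (nat_lit 9) (.e (nat_lit 335878) (nat_lit 0) .nil)))))) (.g (nat_lit 5) .nil .nil))))) (.nd (nat_lit 4) (.nd (nat_lit 5) 
(.lf (nat_lit 92557) (.g (nat_lit 3306) (.e (nat_lit 2283) (nat_lit 150) (.e (nat_lit 770072) (nat_lit 8) (.e (nat_lit 65586) (nat_lit 7) (.e (nat_lit 319531) (nat_lit 16) (.e (nat_lit 286751) (nat_lit 10) (.e (nat_lit 344096) (nat_lit 18) (.e (nat_lit 5566) (nat_lit 308) (.e (nat_lit 57348) (nat_lit 0) .nil)))))))) (.g (nat_lit 6) .nil .nil))) 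
(.lf (nat_lit 92589) (.g (nat_lit 1143) (.e (nat_lit 2283) (nat_lit 150) (.e (nat_lit 770072) (nat_lit 8) (.e (nat_lit 65627) (nat_lit 13) (.e (nat_lit 393301) (nat_lit 27) .nil)))) .nil))) (.nd (nat_lit 5) 
(.lf (nat_lit 92573) (.g (nat_lit 1944) (.e (nat_lit 2283) (nat_lit 150) (.e (nat_lit 770072) (nat_lit 8) (.e (nat_lit 65586) (nat_lit 7) (.e (nat_lit 319534) (nat_lit 16) (.e (nat_lit 286756) (nat_lit 10) .nil))))) .nil)) 
(.lf (nat_lit 92605) (.g (nat_lit 4003) (.e (nat_lit 2286) (nat_lit 151) (.e (nat_lit 778320) (nat_lit 4) (.e (nat_lit 65630) (nat_lit 14) (.e (nat_lit 401459) (nat_lit 13) (.e (nat_lit 483411) (nat_lit 27) (.e (nat_lit 409344) (nat_lit 15) .nil)))))) (.g (nat_lit 5) .nil .nil))))))) (.nd (nat_lit 2) (.nd (nat_lit 3) (.nd (nat_lit 4) (.nd (nat_lit 5) 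
(.lf (nat_lit 92547) (.g (nat_lit 1937) (.e (nat_lit 2283) (nat_lit 150) (.e (nat_lit 770072) (nat_lit 8) (.e (nat_lit 65586) (nat_lit 7) (.e (nat_lit 319531) (nat_lit 16) (.e (nat_lit 286748) (nat_lit 9) (.e (nat_lit 335928) (nat_lit 0) (.e (nat_lit 995) (nat_lit 81) (.e (nat_lit 5567) (nat_lit 308) (.e (nat_lit 57348) (nat_lit 0) .nil))))))))) (.g (nat_lit 4) .nil .nil))) 
(.lf (nat_lit 92579) (.g (nat_lit 2368) (.e (nat_lit 2283) (nat_lit 150) (.e (nat_lit 770072) (nat_lit 8) (.e (nat_lit 65586) (nat_lit 7) (.e (nat_lit 319534) (nat_lit 16) (.e (nat_lit 286756) (nat_lit 10) (.e (nat_lit 344160) (nat_lit 37) (.e (nat_lit 647196) (nat_lit 9) (.e (nat_lit 992) (nat_lit 81) .nil)))))))) (.g (nat_lit 4) .nil .nil)))) (.nd (nat_lit 5) 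
(.lf (nat_lit 92563) (.g (nat_lit 3794) (.e (nat_lit 2283) (nat_lit 150) (.e (nat_lit 770072) (nat_lit 8) (.e (nat_lit 65586) (nat_lit 7) (.e (nat_lit 319531) (nat_lit 16) (.e (nat_lit 286756) (nat_lit 10) (.e (nat_lit 344088) (nat_lit 18) (.e (nat_lit 5567) (nat_lit 308) (.e (nat_lit 57348) (nat_lit 0) .nil)))))))) (.g (nat_lit 5) .nil .nil))) 
(.lf (nat_lit 92595) (.g (nat_lit 1573) (.e (nat_lit 2283) (nat_lit 150) (.e (nat_lit 770074) (nat_lit 10) (.e (nat_lit 81965) (nat_lit 26) (.e (nat_lit 147493) (nat_lit 11) .nil)))) .nil)))) (.nd (nat_lit 4) (.nd (nat_lit 5) 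
(.lf (nat_lit 92555) (.g (nat_lit 2728) (.e (nat_lit 2283) (nat_lit 150) (.e (nat_lit 770072) (nat_lit 8) (.e (nat_lit 65586) (nat_lit 7) (.e (nat_lit 319531) (nat_lit 16) (.e (nat_lit 286751) (nat_lit 10) (.e (nat_lit 344091) (nat_lit 18) (.e (nat_lit 5570) (nat_lit 308) (.e (nat_lit 57348) (nat_lit 0) .nil)))))))) (.g (nat_lit 4) .nil .nil))) 
(.lf (nat_lit 92587) (.g (nat_lit 536) (.e (nat_lit 2283) (nat_lit 150) (.e (nat_lit 770072) (nat_lit 8) (.e (nat_lit 65627) (nat_lit 13) .nil))) .nil))) (.nd (nat_lit 5) 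
(.lf (nat_lit 92571) (.g (nat_lit 3154) (.e (nat_lit 2283) (nat_lit 150) (.e (nat_lit 770072) (nat_lit 8) (.e (nat_lit 65586) (nat_lit 7) (.e (nat_lit 319531) (nat_lit 16) (.e (nat_lit 286756) (nat_lit 10) (.e (nat_lit 344160) (nat_lit 37) (.e (nat_lit 647196) (nat_lit 9) (.e (nat_lit 993) (nat_lit 81) .nil)))))))) (.g (nat_lit 5) .nil .nil))) 
(.lf (nat_lit 92603) (.g (nat_lit 415) (.e (nat_lit 7936) (nat_lit 150) (.e (nat_lit 770074) (nat_lit 10) (.e (nat_lit 89856) (nat_lit 12) .nil))) .nil))))) (.nd (nat_lit 3) (.nd (nat_lit 4) (.nd (nat_lit 5) 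
(.lf (nat_lit 92551) (.g (nat_lit 2378) (.e (nat_lit 2283) (nat_lit 150) (.e (nat_lit 770072) (nat_lit 8) (.e (nat_lit 65586) (nat_lit 7) (.e (nat_lit 319531) (nat_lit 16) (.e (nat_lit 286751) (nat_lit 10) (.e (nat_lit 344091) (nat_lit 18) (.e (nat_lit 5566) (nat_lit 308) (.e (nat_lit 57347) (nat_lit 0) .nil)))))))) (.g (nat_lit 4) .nil .nil))) 
(.lf (nat_lit 92583) (.g (nat_lit 1884) (.e (nat_lit 2283) (nat_lit 150) (.e (nat_lit 770072) (nat_lit 8) (.e (nat_lit 65617) (nat_lit 10) (.e (nat_lit 344091) (nat_lit 18) (.e (nat_lit 7124) (nat_lit 382) (.e (nat_lit 1296) (nat_lit 96) (.e (nat_lit 131109) (nat_lit 9) (.e (nat_lit 335878) (nat_lit 0) .nil)))))))) (.g (nat_lit 4) .nil .nil)))) (.nd (nat_lit 5) 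
(.lf (nat_lit 92567) (.g (nat_lit 2481) (.e (nat_lit 2283) (nat_lit 150) (.e (nat_lit 770072) (nat_lit 8) (.e (nat_lit 65586) (nat_lit 7) (.e (nat_lit 319531) (nat_lit 16) (.e (nat_lit 286756) (nat_lit 10) (.e (nat_lit 344160) (nat_lit 37) (.e (nat_lit 647188) (nat_lit 9) (.e (nat_lit 974) (nat_lit 81) .nil)))))))) (.g (nat_lit 4) .nil .nil))) 
(.lf (nat_lit 92599) (.g (nat_lit 2420) (.e (nat_lit 2283) (nat_lit 150) (.e (nat_lit 770074) (nat_lit 10) (.e (nat_lit 81965) (nat_lit 26) (.e (nat_lit 147494) (nat_lit 11) (.e (nat_lit 24638) (nat_lit 9) (.e (nat_lit 335897) (nat_lit 0) .nil)))))) (.g (nat_lit 6) .nil .nil))))) (.nd (nat_lit 4) (.nd (nat_lit 5) 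
(.lf (nat_lit 92559) (.g (nat_lit 2784) (.e (nat_lit 2283) (nat_lit 150) (.e (nat_lit 770072) (nat_lit 8) (.e (nat_lit 65586) (nat_lit 7) (.e (nat_lit 319531) (nat_lit 16) (.e (nat_lit 286751) (nat_lit 10) (.e (nat_lit 344160) (nat_lit 37) (.e (nat_lit 647195) (nat_lit 9) (.e (nat_lit 982) (nat_lit 81) .nil)))))))) (.g (nat_lit 4) .nil .nil))) 
(.lf (nat_lit 92591) (.g (nat_lit 416) (.e (nat_lit 2283) (nat_lit 150) (.e (nat_lit 770074) (nat_lit 10) (.e (nat_lit 81963) (nat_lit 26) .nil))) .nil))) (.nd (nat_lit 5) 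
(.lf (nat_lit 92575) (.g (nat_lit 4030) (.e (nat_lit 2283) (nat_lit 150) (.e (nat_lit 770072) (nat_lit 8) (.e (nat_lit 65586) (nat_lit 7) (.e (nat_lit 319534) (nat_lit 16) (.e (nat_lit 286756) (nat_lit 10) (.e (nat_lit 344090) (nat_lit 18) (.e (nat_lit 5566) (nat_lit 308) (.e (nat_lit 57348) (nat_lit 0) .nil)))))))) (.g (nat_lit 7) .nil .nil))) 
(.lf (nat_lit 92607) (.g (nat_lit 2704) (.e (nat_lit 2296) (nat_lit 151) (.e (nat_lit 778325) (nat_lit 6) (.e (nat_lit 81953) (nat_lit 22) (.e (nat_lit 90187) (nat_lit 18) .nil)))) .nil))))))))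

noncomputable def tv1270 : DT := (.nd (nat_lit 0) (.nd (nat_lit 1) (.nd (nat_lit 2) (.nd (nat_lit 3) (.nd (nat_lit 4) (.nd (nat_lit 5) 
(.lf (nat_lit 92608) (.g (nat_lit 3050) (.e (nat_lit 2298) (nat_lit 151) (.e (nat_lit 778319) (nat_lit 4) (.e (nat_lit 65630) (nat_lit 14) (.e (nat_lit 401459) (nat_lit 13) (.e (nat_lit 483411) (nat_lit 27) (.e (nat_lit 409344) (nat_lit 15) .nil)))))) (.g (nat_lit 5) .nil .nil))) 
(.lf (nat_lit 92640) (.g (nat_lit 3528) (.e (nat_lit 2313) (nat_lit 151) (.e (nat_lit 778466) (nat_lit 11) (.e (nat_lit 24617) (nat_lit 7) (.e (nat_lit 319533) (nat_lit 16) (.e (nat_lit 286753) (nat_lit 10) .nil))))) .nil))) (.nd (nat_lit 5) 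
(.lf (nat_lit 92624) (.g (nat_lit 1113) (.e (nat_lit 2309) (nat_lit 151) (.e (nat_lit 778465) (nat_lit 11) (.e (nat_lit 24640) (nat_lit 10) .nil))) .nil)) 
(.lf (nat_lit 92656) (.g (nat_lit 4007) (.e (nat_lit 2333) (nat_lit 151) (.e (nat_lit 778466) (nat_lit 11) (.e (nat_lit 24617) (nat_lit 7) (.e (nat_lit 319533) (nat_lit 16) (.e (nat_lit 286753) (nat_lit 10) (.e (nat_lit 344160) (nat_lit 37) (.e (nat_lit 647190) (nat_lit 9) (.e (nat_lit 984) (nat_lit 81) .nil)))))))) (.g (nat_lit 5) .nil .nil))))) (.nd (nat_lit 4) (.nd (nat_lit 5) 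
(.lf (nat_lit 92616) (.g (nat_lit 2284) (.e (nat_lit 2309) (nat_lit 151) (.e (nat_lit 778362) (nat_lit 9) (.e (nat_lit 232) (nat_lit 21) (.e (nat_lit 336060) (nat_lit 7) (.e (nat_lit 319533) (nat_lit 16) .nil))))) .nil)) 
(.lf (nat_lit 92648) (.g (nat_lit 4409) (.e (nat_lit 2315) (nat_lit 151) (.e (nat_lit 778466) (nat_lit 11) (.e (nat_lit 24617) (nat_lit 7) (.e (nat_lit 319534) (nat_lit 16) (.e (nat_lit 286756) (nat_lit 10) (.e (nat_lit 344160) (nat_lit 37) (.e (nat_lit 647195) (nat_lit 9) (.e (nat_lit 7936) (nat_lit 81) .nil)))))))) (.g (nat_lit 6) .nil .nil)))) (.nd (nat_lit 5) 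
(.lf (nat_lit 92632) (.g (nat_lit 1663) (.e (nat_lit 2310) (nat_lit 151) (.e (nat_lit 778362) (nat_lit 9) (.e (nat_lit 232) (nat_lit 21) (.e (nat_lit 336060) (nat_lit 7) .nil)))) .nil)) 
(.lf (nat_lit 92664) (.g (nat_lit 284) (.e (nat_lit 2336) (nat_lit 151) (.e (nat_lit 778334) (nat_lit 9) (.e (nat_lit 323) (nat_lit 24) .nil))) .nil))))) (.nd (nat_lit 3) (.nd (nat_lit 4) (.nd (nat_lit 5) 
(.lf (nat_lit 92612) (.g (nat_lit 2237) (.e (nat_lit 2303) (nat_lit 151) (.e (nat_lit 778466) (nat_lit 11) (.e (nat_lit 24617) (nat_lit 7) (.e (nat_lit 319534) (nat_lit 16) (.e (nat_lit 286756) (nat_lit 10) .nil))))) .nil)) 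
(.lf (nat_lit 92644) (.g (nat_lit 2843) (.e (nat_lit 2313) (nat_lit 151) (.e (nat_lit 778466) (nat_lit 11) (.e (nat_lit 24617) (nat_lit 7) (.e (nat_lit 319534) (nat_lit 16) (.e (nat_lit 286756) (nat_lit 10) (.e (nat_lit 344160) (nat_lit 37) (.e (nat_lit 647196) (nat_lit 9) (.e (nat_lit 991) (nat_lit 81) .nil)))))))) (.g (nat_lit 4) .nil .nil)))) (.nd (nat_lit 5) 
(.lf (nat_lit 92628) (.g (nat_lit 2942) (.e (nat_lit 2309) (nat_lit 151) (.e (nat_lit 778465) (nat_lit 11) (.e (nat_lit 24640) (nat_lit 10) (.e (nat_lit 344096) (nat_lit 18) (.e (nat_lit 7265) (nat_lit 384) .nil))))) .nil)) 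
(.lf (nat_lit 92660) (.g (nat_lit 1742) (.e (nat_lit 2334) (nat_lit 151) (.e (nat_lit 778325) (nat_lit 6) (.e (nat_lit 81956) (nat_lit 23) (.e (nat_lit 98321) (nat_lit 17) (.e (nat_lit 7936) (nat_lit 216) .nil))))) .nil)))) (.nd (nat_lit 4) (.nd (nat_lit 5) 
(.lf (nat_lit 92620) (.g (nat_lit 1638) (.e (nat_lit 2309) (nat_lit 151) (.e (nat_lit 778465) (nat_lit 11) (.e (nat_lit 24639) (nat_lit 10) (.e (nat_lit 344090) (nat_lit 18) .nil)))) .nil)) 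
(.lf (nat_lit 92652) (.g (nat_lit 2182) (.e (nat_lit 2328) (nat_lit 151) (.e (nat_lit 778362) (nat_lit 9) (.e (nat_lit 232) (nat_lit 21) (.e (nat_lit 336060) (nat_lit 7) (.e (nat_lit 319533) (nat_lit 16) .nil))))) .nil))) (.nd (nat_lit 5) 
(.lf (nat_lit 92636) (.g (nat_lit 5254) (.e (nat_lit 2311) (nat_lit 151) (.e (nat_lit 778466) (nat_lit 11) (.e (nat_lit 24617) (nat_lit 7) (.e (nat_lit 319534) (nat_lit 16) (.e (nat_lit 286756) (nat_lit 10) (.e (nat_lit 344160) (nat_lit 37) (.e (nat_lit 647190) (nat_lit 9) (.e (nat_lit 984) (nat_lit 81) .nil)))))))) (.g (nat_lit 7) .nil .nil))) 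
(.lf (nat_lit 92668) (.g (nat_lit 1247) (.e (nat_lit 2342) (nat_lit 151) (.e (nat_lit 778361) (nat_lit 9) (.e (nat_lit 321) (nat_lit 24) (.e (nat_lit 360488) (nat_lit 20) .nil)))) .nil)))))) (.nd (nat_lit 2) (.nd (nat_lit 3) (.nd (nat_lit 4) (.nd (nat_lit 5) 
(.lf (nat_lit 92610) (.g (nat_lit 3022) (.e (nat_lit 2298) (nat_lit 151) (.e (nat_lit 778469) (nat_lit 11) (.e (nat_lit 24665) (nat_lit 14) (.e (nat_lit 401414) (nat_lit 0) (.e (nat_lit 3459) (nat_lit 216) .nil))))) .nil)) 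
(.lf (nat_lit 92642) (.g (nat_lit 2795) (.e (nat_lit 2313) (nat_lit 151) (.e (nat_lit 778466) (nat_lit 11) (.e (nat_lit 24617) (nat_lit 7) (.e (nat_lit 319534) (nat_lit 16) (.e (nat_lit 286756) (nat_lit 10) .nil))))) .nil))) (.nd (nat_lit 5) 
(.lf (nat_lit 92626) (.g (nat_lit 2411) (.e (nat_lit 2309) (nat_lit 151) (.e (nat_lit 778465) (nat_lit 11) (.e (nat_lit 24640) (nat_lit 10) (.e (nat_lit 344091) (nat_lit 18) .nil)))) .nil)) 
(.lf (nat_lit 92658) (.g (nat_lit 3740) (.e (nat_lit 2333) (nat_lit 151) (.e (nat_lit 778466) (nat_lit 11) (.e (nat_lit 24617) (nat_lit 7) (.e (nat_lit 319534) (nat_lit 16) (.e (nat_lit 286756) (nat_lit 10) (.e (nat_lit 344160) (nat_lit 37) (.e (nat_lit 647196) (nat_lit 9) (.e (nat_lit 991) (nat_lit 81) .nil)))))))) (.g (nat_lit 5) .nil .nil))))) (.nd (nat_lit 4) (.nd (nat_lit 5) 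
(.lf (nat_lit 92618) (.g (nat_lit 4093) (.e (nat_lit 2309) (nat_lit 151) (.e (nat_lit 778362) (nat_lit 9) (.e (nat_lit 232) (nat_lit 21) (.e (nat_lit 336060) (nat_lit 7) (.e (nat_lit 319534) (nat_lit 16) (.e (nat_lit 286756) (nat_lit 10) (.e (nat_lit 344160) (nat_lit 37) (.e (nat_lit 647195) (nat_lit 9) (.e (nat_lit 7936) (nat_lit 81) .nil))))))))) (.g (nat_lit 8) .nil .nil))) 
(.lf (nat_lit 92650) (.g (nat_lit 2023) (.e (nat_lit 2328) (nat_lit 151) (.e (nat_lit 778361) (nat_lit 9) (.e (nat_lit 232) (nat_lit 21) (.e (nat_lit 336060) (nat_lit 7) (.e (nat_lit 319534) (nat_lit 16) .nil))))) .nil))) (.nd (nat_lit 5) 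
(.lf (nat_lit 92634) (.g (nat_lit 4112) (.e (nat_lit 2311) (nat_lit 151) (.e (nat_lit 778466) (nat_lit 11) (.e (nat_lit 24617) (nat_lit 7) (.e (nat_lit 319533) (nat_lit 16) (.e (nat_lit 286753) (nat_lit 10) (.e (nat_lit 344160) (nat_lit 37) (.e (nat_lit 647190) (nat_lit 9) (.e (nat_lit 984) (nat_lit 81) .nil)))))))) (.g (nat_lit 5) .nil .nil))) 
(.lf (nat_lit 92666) (.g (nat_lit 384) (.e (nat_lit 2336) (nat_lit 151) (.e (nat_lit 778334) (nat_lit 9) (.e (nat_lit 323) (nat_lit 24) (.e (nat_lit 368384) (nat_lit 24) .nil)))) .nil))))) (.nd (nat_lit 3) (.nd (nat_lit 4) (.nd (nat_lit 5) 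
(.lf (nat_lit 92614) (.g (nat_lit 1887) (.e (nat_lit 2307) (nat_lit 151) (.e (nat_lit 778362) (nat_lit 9) (.e (nat_lit 232) (nat_lit 21) (.e (nat_lit 336060) (nat_lit 7) (.e (nat_lit 319534) (nat_lit 16) .nil))))) .nil)) 
(.lf (nat_lit 92646) (.g (nat_lit 3552) (.e (nat_lit 2315) (nat_lit 151) (.e (nat_lit 778466) (nat_lit 11) (.e (nat_lit 24617) (nat_lit 7) (.e (nat_lit 319533) (nat_lit 16) (.e (nat_lit 286753) (nat_lit 10) (.e (nat_lit 344160) (nat_lit 37) (.e (nat_lit 647190) (nat_lit 9) (.e (nat_lit 984) (nat_lit 81) .nil)))))))) (.g (nat_lit 4) .nil .nil)))) (.nd (nat_lit 5) 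
(.lf (nat_lit 92630) (.g (nat_lit 2655) (.e (nat_lit 2309) (nat_lit 151) (.e (nat_lit 778465) (nat_lit 11) (.e (nat_lit 24640) (nat_lit 10) (.e (nat_lit 344174) (nat_lit 42) (.e (nat_lit 769792) (nat_lit 10) .nil))))) .nil)) 
(.lf (nat_lit 92662) (.g (nat_lit 221) (.e (nat_lit 2334) (nat_lit 151) (.e (nat_lit 778337) (nat_lit 9) (.e (nat_lit 311) (nat_lit 23) .nil))) .nil)))) (.nd (nat_lit 4) (.nd (nat_lit 5) 
(.lf (nat_lit 92622) (.g (nat_lit 2233) (.e (nat_lit 2309) (nat_lit 151) (.e (nat_lit 778465) (nat_lit 11) (.e (nat_lit 24639) (nat_lit 10) (.e (nat_lit 344174) (nat_lit 42) (.e (nat_lit 769792) (nat_lit 10) .nil))))) .nil)) 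
(.lf (nat_lit 92654) (.g (nat_lit 4192) (.e (nat_lit 2329) (nat_lit 151) (.e (nat_lit 778466) (nat_lit 11) (.e (nat_lit 24617) (nat_lit 7) (.e (nat_lit 319534) (nat_lit 16) (.e (nat_lit 286756) (nat_lit 10) (.e (nat_lit 344160) (nat_lit 37) (.e (nat_lit 647195) (nat_lit 9) (.e (nat_lit 7936) (nat_lit 81) .nil)))))))) (.g (nat_lit 6) .nil .nil)))) (.nd (nat_lit 5) 
(.lf (nat_lit 92638) (.g (nat_lit 3007) (.e (nat_lit 2311) (nat_lit 151) (.e (nat_lit 778466) (nat_lit 11) (.e (nat_lit 24617) (nat_lit 7) (.e (nat_lit 319534) (nat_lit 16) (.e (nat_lit 286756) (nat_lit 10) (.e (nat_lit 344160) (nat_lit 37) (.e (nat_lit 647195) (nat_lit 9) (.e (nat_lit 982) (nat_lit 81) .nil)))))))) (.g (nat_lit 4) .nil .nil))) 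
(.lf (nat_lit 92670) (.g (nat_lit 1990) (.e (nat_lit 2342) (nat_lit 151) (.e (nat_lit 778362) (nat_lit 9) (.e (nat_lit 232) (nat_lit 21) (.e (nat_lit 336013) (nat_lit 2) .nil)))) .nil))))))) (.nd (nat_lit 1) (.nd (nat_lit 2) (.nd (nat_lit 3) (.nd (nat_lit 4) (.nd (nat_lit 5) 
(.lf (nat_lit 92609) (.g (nat_lit 276) (.e (nat_lit 2298) (nat_lit 151) (.e (nat_lit 778334) (nat_lit 9) (.e (nat_lit 311) (nat_lit 23) .nil))) .nil)) 
(.lf (nat_lit 92641) (.g (nat_lit 3975) (.e (nat_lit 2313) (nat_lit 151) (.e (nat_lit 778466) (nat_lit 11) (.e (nat_lit 24617) (nat_lit 7) (.e (nat_lit 319533) (nat_lit 16) (.e (nat_lit 286753) (nat_lit 10) (.e (nat_lit 344160) (nat_lit 37) (.e (nat_lit 647190) (nat_lit 9) (.e (nat_lit 984) (nat_lit 81) .nil)))))))) (.g (nat_lit 5) .nil .nil)))) (.nd (nat_lit 5) 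
(.lf (nat_lit 92625) (.g (nat_lit 2249) (.e (nat_lit 2309) (nat_lit 151) (.e (nat_lit 778465) (nat_lit 11) (.e (nat_lit 24640) (nat_lit 10) (.e (nat_lit 344090) (nat_lit 18) .nil)))) .nil)) 
(.lf (nat_lit 92657) (.g (nat_lit 2775) (.e (nat_lit 2333) (nat_lit 151) (.e (nat_lit 778466) (nat_lit 11) (.e (nat_lit 24617) (nat_lit 7) (.e (nat_lit 319534) (nat_lit 16) (.e (nat_lit 286756) (nat_lit 10) .nil))))) .nil)))) (.nd (nat_lit 4) (.nd (nat_lit 5) 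
(.lf (nat_lit 92617) (.g (nat_lit 1989) (.e (nat_lit 2309) (nat_lit 151) (.e (nat_lit 778362) (nat_lit 9) (.e (nat_lit 232) (nat_lit 21) (.e (nat_lit 336060) (nat_lit 7) (.e (nat_lit 319534) (nat_lit 16) .nil))))) .nil)) 
(.lf (nat_lit 92649) (.g (nat_lit 1725) (.e (nat_lit 2322) (nat_lit 151) (.e (nat_lit 778462) (nat_lit 11) (.e (nat_lit 24628) (nat_lit 9) (.e (nat_lit 335878) (nat_lit 0) (.e (nat_lit 2283) (nat_lit 150) .nil))))) .nil))) (.nd (nat_lit 5) 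
(.lf (nat_lit 92633) (.g (nat_lit 3491) (.e (nat_lit 2311) (nat_lit 151) (.e (nat_lit 778466) (nat_lit 11) (.e (nat_lit 24617) (nat_lit 7) (.e (nat_lit 319533) (nat_lit 16) (.e (nat_lit 286753) (nat_lit 10) .nil))))) .nil)) 
(.lf (nat_lit 92665) (.g (nat_lit 805) (.e (nat_lit 2336) (nat_lit 151) (.e (nat_lit 778334) (nat_lit 9) (.e (nat_lit 323) (nat_lit 24) (.e (nat_lit 360488) (nat_lit 20) (.e (nat_lit 769792) (nat_lit 10) .nil))))) .nil))))) (.nd (nat_lit 3) (.nd (nat_lit 4) (.nd (nat_lit 5) 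
(.lf (nat_lit 92613) (.g (nat_lit 1887) (.e (nat_lit 2304) (nat_lit 151) (.e (nat_lit 778362) (nat_lit 9) (.e (nat_lit 232) (nat_lit 21) (.e (nat_lit 336060) (nat_lit 7) (.e (nat_lit 319534) (nat_lit 16) .nil))))) .nil)) 
(.lf (nat_lit 92645) (.g (nat_lit 2182) (.e (nat_lit 2314) (nat_lit 151) (.e (nat_lit 778362) (nat_lit 9) (.e (nat_lit 232) (nat_lit 21) (.e (nat_lit 336060) (nat_lit 7) (.e (nat_lit 319533) (nat_lit 16) .nil))))) .nil))) (.nd (nat_lit 5) 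
(.lf (nat_lit 92629) (.g (nat_lit 2396) (.e (nat_lit 2309) (nat_lit 151) (.e (nat_lit 778465) (nat_lit 11) (.e (nat_lit 24640) (nat_lit 10) (.e (nat_lit 344173) (nat_lit 42) .nil)))) .nil)) 
(.lf (nat_lit 92661) (.g (nat_lit 284) (.e (nat_lit 2334) (nat_lit 151) (.e (nat_lit 778334) (nat_lit 9) (.e (nat_lit 311) (nat_lit 23) .nil))) .nil)))) (.nd (nat_lit 4) (.nd (nat_lit 5) 
(.lf (nat_lit 92621) (.g (nat_lit 1733) (.e (nat_lit 2309) (nat_lit 151) (.e (nat_lit 778465) (nat_lit 11) (.e (nat_lit 24639) (nat_lit 10) (.e (nat_lit 344096) (nat_lit 18) .nil)))) .nil)) 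
(.lf (nat_lit 92653) (.g (nat_lit 3536) (.e (nat_lit 2329) (nat_lit 151) (.e (nat_lit 778466) (nat_lit 11) (.e (nat_lit 24617) (nat_lit 7) (.e (nat_lit 319533) (nat_lit 16) (.e (nat_lit 286753) (nat_lit 10) .nil))))) .nil))) (.nd (nat_lit 5) 
(.lf (nat_lit 92637) (.g (nat_lit 2855) (.e (nat_lit 2311) (nat_lit 151) (.e (nat_lit 778466) (nat_lit 11) (.e (nat_lit 24617) (nat_lit 7) (.e (nat_lit 319534) (nat_lit 16) (.e (nat_lit 286756) (nat_lit 10) (.e (nat_lit 344160) (nat_lit 37) (.e (nat_lit 647190) (nat_lit 9) (.e (nat_lit 7936) (nat_lit 81) .nil)))))))) (.g (nat_lit 4) .nil .nil))) 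
(.lf (nat_lit 92669) (.g (nat_lit 842) (.e (nat_lit 2342) (nat_lit 151) (.e (nat_lit 778361) (nat_lit 9) (.e (nat_lit 324) (nat_lit 24) .nil))) .nil)))))) (.nd (nat_lit 2) (.nd (nat_lit 3) (.nd (nat_lit 4) (.nd (nat_lit 5) 
(.lf (nat_lit 92611) (.g (nat_lit 2182) (.e (nat_lit 2303) (nat_lit 151) (.e (nat_lit 778362) (nat_lit 9) (.e (nat_lit 232) (nat_lit 21) (.e (nat_lit 336060) (nat_lit 7) (.e (nat_lit 319533) (nat_lit 16) .nil))))) .nil)) 
(.lf (nat_lit 92643) (.g (nat_lit 4173) (.e (nat_lit 2313) (nat_lit 151) (.e (nat_lit 778466) (nat_lit 11) (.e (nat_lit 24617) (nat_lit 7) (.e (nat_lit 319534) (nat_lit 16) (.e (nat_lit 286756) (nat_lit 10) (.e (nat_lit 344160) (nat_lit 37) (.e (nat_lit 647195) (nat_lit 9) (.e (nat_lit 7936) (nat_lit 81) .nil)))))))) (.g (nat_lit 6) .nil .nil)))) (.nd (nat_lit 5) 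
(.lf (nat_lit 92627) (.g (nat_lit 2417) (.e (nat_lit 2309) (nat_lit 151) (.e (nat_lit 778465) (nat_lit 11) (.e (nat_lit 24640) (nat_lit 10) (.e (nat_lit 344094) (nat_lit 18) .nil)))) .nil)) 
(.lf (nat_lit 92659) (.g (nat_lit 3669) (.e (nat_lit 2334) (nat_lit 151) (.e (nat_lit 778319) (nat_lit 4) (.e (nat_lit 65630) (nat_lit 14) (.e (nat_lit 401459) (nat_lit 13) (.e (nat_lit 483410) (nat_lit 27) (.e (nat_lit 401464) (nat_lit 15) .nil)))))) (.g (nat_lit 6) .nil .nil))))) (.nd (nat_lit 4) (.nd (nat_lit 5) 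
(.lf (nat_lit 92619) (.g (nat_lit 3902) (.e (nat_lit 2309) (nat_lit 151) (.e (nat_lit 778362) (nat_lit 9) (.e (nat_lit 232) (nat_lit 21) (.e (nat_lit 336060) (nat_lit 7) (.e (nat_lit 319534) (nat_lit 16) (.e (nat_lit 286756) (nat_lit 10) (.e (nat_lit 344160) (nat_lit 37) (.e (nat_lit 647196) (nat_lit 9) (.e (nat_lit 1003) (nat_lit 81) .nil))))))))) (.g (nat_lit 7) .nil .nil))) 
(.lf (nat_lit 92651) (.g (nat_lit 1663) (.e (nat_lit 2328) (nat_lit 151) (.e (nat_lit 778362) (nat_lit 9) (.e (nat_lit 232) (nat_lit 21) (.e (nat_lit 336060) (nat_lit 7) .nil)))) .nil))) (.nd (nat_lit 5) 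
(.lf (nat_lit 92635) (.g (nat_lit 2328) (.e (nat_lit 2311) (nat_lit 151) (.e (nat_lit 778466) (nat_lit 11) (.e (nat_lit 24617) (nat_lit 7) (.e (nat_lit 319534) (nat_lit 16) .nil)))) .nil)) 
(.lf (nat_lit 92667) (.g (nat_lit 826) (.e (nat_lit 2342) (nat_lit 151) (.e (nat_lit 778361) (nat_lit 9) (.e (nat_lit 321) (nat_lit 24) .nil))) .nil))))) (.nd (nat_lit 3) (.nd (nat_lit 4) (.nd (nat_lit 5) 
(.lf (nat_lit 92615) (.g (nat_lit 1765) (.e (nat_lit 2309) (nat_lit 151) (.e (nat_lit 778362) (nat_lit 9) (.e (nat_lit 232) (nat_lit 21) (.e (nat_lit 336060) (nat_lit 7) .nil)))) .nil)) 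
(.lf (nat_lit 92647) (.g (nat_lit 2797) (.e (nat_lit 2315) (nat_lit 151) (.e (nat_lit 778466) (nat_lit 11) (.e (nat_lit 24617) (nat_lit 7) (.e (nat_lit 319534) (nat_lit 16) (.e (nat_lit 286756) (nat_lit 10) .nil))))) .nil))) (.nd (nat_lit 5) 
(.lf (nat_lit 92631) (.g (nat_lit 2803) (.e (nat_lit 2309) (nat_lit 151) (.e (nat_lit 778465) (nat_lit 11) (.e (nat_lit 24640) (nat_lit 10) (.e (nat_lit 344174) (nat_lit 42) (.e (nat_lit 769792) (nat_lit 10) (.e (nat_lit 81931) (nat_lit 20) .nil)))))) (.g (nat_lit 4) .nil .nil))) 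
(.lf (nat_lit 92663) (.g (nat_lit 300) (.e (nat_lit 2335) (nat_lit 151) (.e (nat_lit 778337) (nat_lit 9) (.e (nat_lit 320) (nat_lit 24) .nil))) .nil)))) (.nd (nat_lit 4) (.nd (nat_lit 5) 
(.lf (nat_lit 92623) (.g (nat_lit 2309) (.e (nat_lit 2309) (nat_lit 151) (.e (nat_lit 778465) (nat_lit 11) (.e (nat_lit 24639) (nat_lit 10) (.e (nat_lit 344174) (nat_lit 42) (.e (nat_lit 769792) (nat_lit 10) (.e (nat_lit 81929) (nat_lit 20) .nil)))))) (.g (nat_lit 4) .nil .nil))) 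
(.lf (nat_lit 92655) (.g (nat_lit 3510) (.e (nat_lit 2333) (nat_lit 151) (.e (nat_lit 778466) (nat_lit 11) (.e (nat_lit 24617) (nat_lit 7) (.e (nat_lit 319533) (nat_lit 16) (.e (nat_lit 286753) (nat_lit 10) .nil))))) .nil))) (.nd (nat_lit 5) 
(.lf (nat_lit 92639) (.g (nat_lit 4706) (.e (nat_lit 2311) (nat_lit 151) (.e (nat_lit 778466) (nat_lit 11) (.e (nat_lit 24617) (nat_lit 7) (.e (nat_lit 319534) (nat_lit 16) (.e (nat_lit 286756) (nat_lit 10) (.e (nat_lit 344160) (nat_lit 37) (.e (nat_lit 647195) (nat_lit 9) (.e (nat_lit 7936) (nat_lit 81) .nil)))))))) (.g (nat_lit 7) .nil .nil))) 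
(.lf (nat_lit 92671) (.g (nat_lit 2103) (.e (nat_lit 2342) (nat_lit 151) (.e (nat_lit 778362) (nat_lit 9) (.e (nat_lit 232) (nat_lit 21) (.e (nat_lit 336060) (nat_lit 7) (.e (nat_lit 319505) (nat_lit 10) .nil))))) .nil))))))))

noncomputable def tv1271 : DT := (.nd (nat_lit 0) (.nd (nat_lit 1) (.nd (nat_lit 2) (.nd (nat_lit 3) (.nd (nat_lit 4) (.nd (nat_lit 5) (.nd (nat_lit 6) 
(.lf (nat_lit 92672) (.g (nat_lit 2182) (.e (nat_lit 2342) (nat_lit 151) (.e (nat_lit 778362) (nat_lit 9) (.e (nat_lit 232) (nat_lit 21) (.e (nat_lit 336060) (nat_lit 7) (.e (nat_lit 319533) (nat_lit 16) .nil))))) .nil)) 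
(.lf (nat_lit 92736) (.g (nat_lit 3360) (.e (nat_lit 2347) (nat_lit 151) (.e (nat_lit 778362) (nat_lit 9) (.e (nat_lit 232) (nat_lit 21) (.e (nat_lit 336060) (nat_lit 7) (.e (nat_lit 319534) (nat_lit 16) (.e (nat_lit 286756) (nat_lit 10) (.e (nat_lit 344160) (nat_lit 37) (.e (nat_lit 647190) (nat_lit 9) (.e (nat_lit 987) (nat_lit 81) .nil))))))))) (.g (nat_lit 6) .nil .nil)))) (.nd (nat_lit 6) 
(.lf (nat_lit 92704) (.g (nat_lit 1417) (.e (nat_lit 2346) (nat_lit 151) (.e (nat_lit 778453) (nat_lit 10) (.e (nat_lit 8319) (nat_lit 64) (.e (nat_lit 516131) (nat_lit 3) (.e (nat_lit 221212) (nat_lit 22) (.e (nat_lit 196669) (nat_lit 14) (.e (nat_lit 81664) (nat_lit 5) (.e (nat_lit 532490) (nat_lit 0) .nil)))))))) (.g (nat_lit 5) .nil .nil))) 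
(.lf (nat_lit 92768) (.g (nat_lit 395) (.e (nat_lit 7936) (nat_lit 151) (.e (nat_lit 778469) (nat_lit 11) (.e (nat_lit 24675) (nat_lit 27) (.e (nat_lit 433920) (nat_lit 30) .nil)))) .nil)))) (.nd (nat_lit 5) (.nd (nat_lit 6) 
(.lf (nat_lit 92688) (.g (nat_lit 3383) (.e (nat_lit 2345) (nat_lit 151) (.e (nat_lit 778362) (nat_lit 9) (.e (nat_lit 232) (nat_lit 21) (.e (nat_lit 336060) (nat_lit 7) (.e (nat_lit 319534) (nat_lit 16) (.e (nat_lit 286756) (nat_lit 10) (.e (nat_lit 344160) (nat_lit 37) (.e (nat_lit 647195) (nat_lit 9) (.e (nat_lit 982) (nat_lit 81) .nil))))))))) (.g (nat_lit 6) .nil .nil))) 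
(.lf (nat_lit 92752) (.g (nat_lit 2292) (.e (nat_lit 2347) (nat_lit 151) (.e (nat_lit 778466) (nat_lit 11) (.e (nat_lit 24640) (nat_lit 10) (.e (nat_lit 344176) (nat_lit 43) (.e (nat_lit 770054) (nat_lit 5) (.e (nat_lit 1572) (nat_lit 110) (.e (nat_lit 352284) (nat_lit 20) .nil))))))) (.g (nat_lit 4) .nil .nil)))) (.nd (nat_lit 6) 
(.lf (nat_lit 92720) (.g (nat_lit 2215) (.e (nat_lit 2346) (nat_lit 151) (.e (nat_lit 778481) (nat_lit 12) (.e (nat_lit 163978) (nat_lit 30) (.e (nat_lit 573478) (nat_lit 12) (.e (nat_lit 57549) (nat_lit 48) .nil))))) .nil)) 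
(.lf (nat_lit 92784) (.g (nat_lit 1722) (.e (nat_lit 2356) (nat_lit 152) (.e (nat_lit 786481) (nat_lit 30) (.e (nat_lit 360473) (nat_lit 8) (.e (nat_lit 557089) (nat_lit 12) (.e (nat_lit 164010) (nat_lit 41) .nil))))) .nil))))) (.nd (nat_lit 4) (.nd (nat_lit 5) (.nd (nat_lit 6) 
(.lf (nat_lit 92680) (.g (nat_lit 2215) (.e (nat_lit 2342) (nat_lit 151) (.e (nat_lit 778465) (nat_lit 11) (.e (nat_lit 24640) (nat_lit 10) (.e (nat_lit 344174) (nat_lit 42) (.e (nat_lit 769792) (nat_lit 10) .nil))))) .nil)) 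
(.lf (nat_lit 92744) (.g (nat_lit 2621) (.e (nat_lit 2347) (nat_lit 151) (.e (nat_lit 778465) (nat_lit 11) (.e (nat_lit 24640) (nat_lit 10) (.e (nat_lit 344094) (nat_lit 18) (.e (nat_lit 7265) (nat_lit 384) .nil))))) .nil))) (.nd (nat_lit 6) 
(.lf (nat_lit 92712) (.g (nat_lit 1691) (.e (nat_lit 2346) (nat_lit 151) (.e (nat_lit 778460) (nat_lit 11) (.e (nat_lit 24660) (nat_lit 13) (.e (nat_lit 393260) (nat_lit 21) (.e (nat_lit 417536) (nat_lit 16) (.e (nat_lit 286727) (nat_lit 0) .nil)))))) (.g (nat_lit 4) .nil .nil))) 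
(.lf (nat_lit 92776) (.g (nat_lit 3894) (.e (nat_lit 2355) (nat_lit 152) (.e (nat_lit 786483) (nat_lit 30) (.e (nat_lit 360475) (nat_lit 8) (.e (nat_lit 557091) (nat_lit 12) (.e (nat_lit 163999) (nat_lit 38) (.e (nat_lit 639020) (nat_lit 16) (.e (nat_lit 65539) (nat_lit 0) .nil))))))) (.g (nat_lit 6) .nil .nil))))) (.nd (nat_lit 5) (.nd (nat_lit 6) 
(.lf (nat_lit 92696) (.g (nat_lit 2951) (.e (nat_lit 2346) (nat_lit 151) (.e (nat_lit 778362) (nat_lit 9) (.e (nat_lit 232) (nat_lit 21) (.e (nat_lit 336060) (nat_lit 7) (.e (nat_lit 319533) (nat_lit 16) (.e (nat_lit 286753) (nat_lit 10) (.e (nat_lit 344160) (nat_lit 37) (.e (nat_lit 647195) (nat_lit 9) (.e (nat_lit 982) (nat_lit 81) .nil))))))))) (.g (nat_lit 5) .nil .nil))) 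
(.lf (nat_lit 92760) (.g (nat_lit 1854) (.e (nat_lit 7936) (nat_lit 151) (.e (nat_lit 778318) (nat_lit 3) (.e (nat_lit 57464) (nat_lit 23) (.e (nat_lit 516160) (nat_lit 10) (.e (nat_lit 434247) (nat_lit 28) .nil))))) .nil))) (.nd (nat_lit 6) 
(.lf (nat_lit 92728) (.g (nat_lit 2768) (.e (nat_lit 2346) (nat_lit 151) (.e (nat_lit 778482) (nat_lit 12) (.e (nat_lit 163978) (nat_lit 30) (.e (nat_lit 573477) (nat_lit 12) (.e (nat_lit 57549) (nat_lit 48) .nil))))) .nil)) 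
(.lf (nat_lit 92792) (.g (nat_lit 2277) (.e (nat_lit 2356) (nat_lit 152) (.e (nat_lit 786482) (nat_lit 30) (.e (nat_lit 360475) (nat_lit 8) (.e (nat_lit 557089) (nat_lit 12) (.e (nat_lit 164007) (nat_lit 41) (.e (nat_lit 663580) (nat_lit 9) (.e (nat_lit 284) (nat_lit 21) (.e (nat_lit 335893) (nat_lit 0) .nil)))))))) (.g (nat_lit 4) .nil .nil))))))) 
(.nd (nat_lit 3) (.nd (nat_lit 4) (.nd (nat_lit 5) (.nd (nat_lit 6) 
(.lf (nat_lit 92676) (.g (nat_lit 2375) (.e (nat_lit 2342) (nat_lit 151) (.e (nat_lit 778362) (nat_lit 9) (.e (nat_lit 232) (nat_lit 21) (.e (nat_lit 336060) (nat_lit 7) (.e (nat_lit 319534) (nat_lit 16) (.e (nat_lit 286756) (nat_lit 10) (.e (nat_lit 344160) (nat_lit 37) (.e (nat_lit 647195) (nat_lit 9) (.e (nat_lit 7936) (nat_lit 81) .nil))))))))) (.g (nat_lit 5) .nil .nil))) 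
(.lf (nat_lit 92740) (.g (nat_lit 887) (.e (nat_lit 2347) (nat_lit 151) (.e (nat_lit 778465) (nat_lit 11) (.e (nat_lit 24639) (nat_lit 10) .nil))) .nil))) (.nd (nat_lit 6) 
(.lf (nat_lit 92708) (.g (nat_lit 2359) (.e (nat_lit 2346) (nat_lit 151) (.e (nat_lit 778455) (nat_lit 10) (.e (nat_lit 8319) (nat_lit 64) (.e (nat_lit 516129) (nat_lit 3) (.e (nat_lit 221210) (nat_lit 22) (.e (nat_lit 196668) (nat_lit 14) (.e (nat_lit 81664) (nat_lit 5) (.e (nat_lit 532490) (nat_lit 0) .nil)))))))) (.g (nat_lit 6) .nil .nil))) 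
(.lf (nat_lit 92772) (.g (nat_lit 2646) (.e (nat_lit 2355) (nat_lit 152) (.e (nat_lit 786483) (nat_lit 30) (.e (nat_lit 360475) (nat_lit 8) (.e (nat_lit 557089) (nat_lit 12) (.e (nat_lit 163999) (nat_lit 38) (.e (nat_lit 639020) (nat_lit 16) (.e (nat_lit 65543) (nat_lit 0) .nil))))))) (.g (nat_lit 4) .nil .nil))))) (.nd (nat_lit 5) (.nd (nat_lit 6) 
(.lf (nat_lit 92692) (.g (nat_lit 2333) (.e (nat_lit 2345) (nat_lit 151) (.e (nat_lit 778466) (nat_lit 11) (.e (nat_lit 24617) (nat_lit 7) (.e (nat_lit 319533) (nat_lit 16) .nil)))) .nil)) 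
(.lf (nat_lit 92756) (.g (nat_lit 1329) (.e (nat_lit 7936) (nat_lit 151) (.e (nat_lit 778317) (nat_lit 3) (.e (nat_lit 57464) (nat_lit 23) (.e (nat_lit 516159) (nat_lit 10) .nil)))) .nil))) (.nd (nat_lit 6) 
(.lf (nat_lit 92724) (.g (nat_lit 3639) (.e (nat_lit 2346) (nat_lit 151) (.e (nat_lit 778482) (nat_lit 12) (.e (nat_lit 163978) (nat_lit 30) (.e (nat_lit 573475) (nat_lit 12) (.e (nat_lit 57549) (nat_lit 48) (.e (nat_lit 720945) (nat_lit 23) (.e (nat_lit 98367) (nat_lit 27) (.e (nat_lit 434231) (nat_lit 23) (.e (nat_lit 532490) (nat_lit 0) .nil))))))))) (.g (nat_lit 4) .nil .nil))) 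
(.lf (nat_lit 92788) (.g (nat_lit 2084) (.e (nat_lit 2356) (nat_lit 152) (.e (nat_lit 786481) (nat_lit 30) (.e (nat_lit 360473) (nat_lit 8) (.e (nat_lit 557091) (nat_lit 12) (.e (nat_lit 164007) (nat_lit 41) .nil))))) .nil))))) (.nd (nat_lit 4) (.nd (nat_lit 5) (.nd (nat_lit 6) 
(.lf (nat_lit 92684) (.g (nat_lit 2182) (.e (nat_lit 2343) (nat_lit 151) (.e (nat_lit 778362) (nat_lit 9) (.e (nat_lit 232) (nat_lit 21) (.e (nat_lit 336060) (nat_lit 7) (.e (nat_lit 319533) (nat_lit 16) .nil))))) .nil)) 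
(.lf (nat_lit 92748) (.g (nat_lit 3199) (.e (nat_lit 2347) (nat_lit 151) (.e (nat_lit 778465) (nat_lit 11) (.e (nat_lit 24640) (nat_lit 10) (.e (nat_lit 344177) (nat_lit 43) (.e (nat_lit 770058) (nat_lit 5) (.e (nat_lit 1572) (nat_lit 110) (.e (nat_lit 352284) (nat_lit 20) .nil))))))) (.g (nat_lit 4) .nil .nil)))) (.nd (nat_lit 6) 
(.lf (nat_lit 92716) (.g (nat_lit 837) (.e (nat_lit 2346) (nat_lit 151) (.e (nat_lit 778466) (nat_lit 11) (.e (nat_lit 24614) (nat_lit 6) .nil))) .nil)) 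
(.lf (nat_lit 92780) (.g (nat_lit 2463) (.e (nat_lit 2356) (nat_lit 152) (.e (nat_lit 786481) (nat_lit 30) (.e (nat_lit 360473) (nat_lit 8) (.e (nat_lit 557089) (nat_lit 12) (.e (nat_lit 164006) (nat_lit 41) (.e (nat_lit 663583) (nat_lit 11) (.e (nat_lit 24580) (nat_lit 0) .nil))))))) (.g (nat_lit 5) .nil .nil))))) (.nd (nat_lit 5) (.nd (nat_lit 6) 
(.lf (nat_lit 92700) (.g (nat_lit 2425) (.e (nat_lit 2346) (nat_lit 151) (.e (nat_lit 778452) (nat_lit 10) (.e (nat_lit 8320) (nat_lit 64) (.e (nat_lit 516129) (nat_lit 3) (.e (nat_lit 221210) (nat_lit 22) (.e (nat_lit 196668) (nat_lit 14) (.e (nat_lit 81664) (nat_lit 5) (.e (nat_lit 532490) (nat_lit 0) .nil)))))))) (.g (nat_lit 6) .nil .nil))) 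
(.lf (nat_lit 92764) (.g (nat_lit 555) (.e (nat_lit 7936) (nat_lit 151) (.e (nat_lit 778340) (nat_lit 9) (.e (nat_lit 351) (nat_lit 28) (.e (nat_lit 401152) (nat_lit 12) .nil)))) .nil))) (.nd (nat_lit 6) 
(.lf (nat_lit 92732) (.g (nat_lit 1420) (.e (nat_lit 2346) (nat_lit 151) (.e (nat_lit 778482) (nat_lit 12) (.e (nat_lit 164057) (nat_lit 56) (.e (nat_lit 786473) (nat_lit 27) (.e (nat_lit 336429) (nat_lit 29) (.e (nat_lit 442427) (nat_lit 23) (.e (nat_lit 204821) (nat_lit 17) .nil))))))) (.g (nat_lit 5) .nil .nil))) 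
(.lf (nat_lit 92796) (.g (nat_lit 2169) (.e (nat_lit 2358) (nat_lit 152) (.e (nat_lit 786482) (nat_lit 30) (.e (nat_lit 360475) (nat_lit 8) (.e (nat_lit 557089) (nat_lit 12) (.e (nat_lit 164007) (nat_lit 41) (.e (nat_lit 663580) (nat_lit 9) (.e (nat_lit 284) (nat_lit 21) (.e (nat_lit 335895) (nat_lit 0) .nil)))))))) (.g (nat_lit 4) .nil .nil)))))))) 
(.nd (nat_lit 2) (.nd (nat_lit 3) (.nd (nat_lit 4) (.nd (nat_lit 5) (.nd (nat_lit 6) 
(.lf (nat_lit 92674) (.g (nat_lit 1887) (.e (nat_lit 2342) (nat_lit 151) (.e (nat_lit 778362) (nat_lit 9) (.e (nat_lit 232) (nat_lit 21) (.e (nat_lit 336060) (nat_lit 7) (.e (nat_lit 319534) (nat_lit 16) .nil))))) .nil)) 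
(.lf (nat_lit 92738) (.g (nat_lit 1566) (.e (nat_lit 2347) (nat_lit 151) (.e (nat_lit 778362) (nat_lit 9) (.e (nat_lit 314) (nat_lit 23) (.e (nat_lit 352297) (nat_lit 20) .nil)))) .nil))) (.nd (nat_lit 6) 
(.lf (nat_lit 92706) (.g (nat_lit 2305) (.e (nat_lit 2346) (nat_lit 151) (.e (nat_lit 778454) (nat_lit 10) (.e (nat_lit 8320) (nat_lit 64) (.e (nat_lit 516129) (nat_lit 3) (.e (nat_lit 221210) (nat_lit 22) (.e (nat_lit 196668) (nat_lit 14) (.e (nat_lit 81664) (nat_lit 5) (.e (nat_lit 532490) (nat_lit 0) .nil)))))))) (.g (nat_lit 6) .nil .nil))) 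
(.lf (nat_lit 92770) (.g (nat_lit 3706) (.e (nat_lit 2355) (nat_lit 152) (.e (nat_lit 786483) (nat_lit 30) (.e (nat_lit 360474) (nat_lit 8) (.e (nat_lit 557091) (nat_lit 12) (.e (nat_lit 163999) (nat_lit 38) (.e (nat_lit 639020) (nat_lit 16) (.e (nat_lit 65541) (nat_lit 0) .nil))))))) (.g (nat_lit 5) .nil .nil))))) (.nd (nat_lit 5) (.nd (nat_lit 6) 
(.lf (nat_lit 92690) (.g (nat_lit 3217) (.e (nat_lit 2345) (nat_lit 151) (.e (nat_lit 778362) (nat_lit 9) (.e (nat_lit 232) (nat_lit 21) (.e (nat_lit 336060) (nat_lit 7) (.e (nat_lit 319534) (nat_lit 16) (.e (nat_lit 286756) (nat_lit 10) (.e (nat_lit 344160) (nat_lit 37) (.e (nat_lit 647196) (nat_lit 9) (.e (nat_lit 1003) (nat_lit 81) .nil))))))))) (.g (nat_lit 6) .nil .nil))) 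
(.lf (nat_lit 92754) (.g (nat_lit 1887) (.e (nat_lit 2349) (nat_lit 151) (.e (nat_lit 778362) (nat_lit 9) (.e (nat_lit 232) (nat_lit 21) (.e (nat_lit 336060) (nat_lit 7) (.e (nat_lit 319534) (nat_lit 16) .nil))))) .nil))) (.nd (nat_lit 6) 
(.lf (nat_lit 92722) (.g (nat_lit 3964) (.e (nat_lit 2346) (nat_lit 151) (.e (nat_lit 778482) (nat_lit 12) (.e (nat_lit 163978) (nat_lit 30) (.e (nat_lit 573475) (nat_lit 12) (.e (nat_lit 57549) (nat_lit 48) (.e (nat_lit 720940) (nat_lit 22) (.e (nat_lit 90170) (nat_lit 13) (.e (nat_lit 172067) (nat_lit 3) (.e (nat_lit 204821) (nat_lit 17) .nil))))))))) (.g (nat_lit 5) .nil .nil))) 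
(.lf (nat_lit 92786) (.g (nat_lit 2037) (.e (nat_lit 2356) (nat_lit 152) (.e (nat_lit 786481) (nat_lit 30) (.e (nat_lit 360473) (nat_lit 8) (.e (nat_lit 557091) (nat_lit 12) (.e (nat_lit 164006) (nat_lit 41) .nil))))) .nil))))) (.nd (nat_lit 4) (.nd (nat_lit 5) (.nd (nat_lit 6) 
(.lf (nat_lit 92682) (.g (nat_lit 2545) (.e (nat_lit 2342) (nat_lit 151) (.e (nat_lit 778482) (nat_lit 12) (.e (nat_lit 163978) (nat_lit 30) (.e (nat_lit 573478) (nat_lit 12) (.e (nat_lit 57549) (nat_lit 48) .nil))))) .nil)) 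
(.lf (nat_lit 92746) (.g (nat_lit 3072) (.e (nat_lit 2347) (nat_lit 151) (.e (nat_lit 778465) (nat_lit 11) (.e (nat_lit 24640) (nat_lit 10) (.e (nat_lit 344176) (nat_lit 43) (.e (nat_lit 770054) (nat_lit 5) (.e (nat_lit 1572) (nat_lit 110) (.e (nat_lit 352284) (nat_lit 20) .nil))))))) (.g (nat_lit 4) .nil .nil)))) (.nd (nat_lit 6) 
(.lf (nat_lit 92714) (.g (nat_lit 716) (.e (nat_lit 2346) (nat_lit 151) (.e (nat_lit 778465) (nat_lit 11) (.e (nat_lit 24675) (nat_lit 27) .nil))) .nil)) 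
(.lf (nat_lit 92778) (.g (nat_lit 1866) (.e (nat_lit 2356) (nat_lit 152) (.e (nat_lit 786481) (nat_lit 30) (.e (nat_lit 360473) (nat_lit 8) (.e (nat_lit 557089) (nat_lit 12) (.e (nat_lit 164006) (nat_lit 41) .nil))))) .nil)))) (.nd (nat_lit 5) (.nd (nat_lit 6) 
(.lf (nat_lit 92698) (.g (nat_lit 3194) (.e (nat_lit 2346) (nat_lit 151) (.e (nat_lit 778362) (nat_lit 9) (.e (nat_lit 232) (nat_lit 21) (.e (nat_lit 336060) (nat_lit 7) (.e (nat_lit 319534) (nat_lit 16) (.e (nat_lit 286756) (nat_lit 10) (.e (nat_lit 344160) (nat_lit 37) (.e (nat_lit 647196) (nat_lit 9) (.e (nat_lit 1023) (nat_lit 81) .nil))))))))) (.g (nat_lit 6) .nil .nil))) 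
(.lf (nat_lit 92762) (.g (nat_lit 224) (.e (nat_lit 7936) (nat_lit 151) (.e (nat_lit 778339) (nat_lit 9) (.e (nat_lit 349) (nat_lit 28) .nil))) .nil))) (.nd (nat_lit 6) 
(.lf (nat_lit 92730) (.g (nat_lit 4591) (.e (nat_lit 2346) (nat_lit 151) (.e (nat_lit 778482) (nat_lit 12) (.e (nat_lit 163978) (nat_lit 30) (.e (nat_lit 573478) (nat_lit 12) (.e (nat_lit 57549) (nat_lit 48) (.e (nat_lit 720940) (nat_lit 22) (.e (nat_lit 90170) (nat_lit 13) (.e (nat_lit 172065) (nat_lit 3) (.e (nat_lit 204821) (nat_lit 17) .nil))))))))) (.g (nat_lit 8) .nil .nil))) 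
(.lf (nat_lit 92794) (.g (nat_lit 1722) (.e (nat_lit 2357) (nat_lit 152) (.e (nat_lit 786481) (nat_lit 30) (.e (nat_lit 360473) (nat_lit 8) (.e (nat_lit 557089) (nat_lit 12) (.e (nat_lit 164010) (nat_lit 41) .nil))))) .nil)))))) (.nd (nat_lit 3) (.nd (nat_lit 4) (.nd (nat_lit 5) (.nd (nat_lit 6) 
(.lf (nat_lit 92678) (.g (nat_lit 1361) (.e (nat_lit 2342) (nat_lit 151) (.e (nat_lit 778465) (nat_lit 11) (.e (nat_lit 24639) (nat_lit 10) (.e (nat_lit 344174) (nat_lit 42) .nil)))) .nil)) 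
(.lf (nat_lit 92742) (.g (nat_lit 1034) (.e (nat_lit 2347) (nat_lit 151) (.e (nat_lit 778465) (nat_lit 11) (.e (nat_lit 24640) (nat_lit 10) .nil))) .nil))) (.nd (nat_lit 6) 
(.lf (nat_lit 92710) (.g (nat_lit 3563) (.e (nat_lit 2346) (nat_lit 151) (.e (nat_lit 778455) (nat_lit 10) (.e (nat_lit 8326) (nat_lit 69) (.e (nat_lit 557103) (nat_lit 14) (.e (nat_lit 180250) (nat_lit 10) (.e (nat_lit 573487) (nat_lit 14) (.e (nat_lit 81664) (nat_lit 5) (.e (nat_lit 532490) (nat_lit 0) .nil)))))))) (.g (nat_lit 6) .nil .nil))) 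
(.lf (nat_lit 92774) (.g (nat_lit 3042) (.e (nat_lit 2355) (nat_lit 152) (.e (nat_lit 786483) (nat_lit 30) (.e (nat_lit 360475) (nat_lit 8) (.e (nat_lit 557090) (nat_lit 12) (.e (nat_lit 163999) (nat_lit 38) .nil))))) .nil)))) (.nd (nat_lit 5) (.nd (nat_lit 6) 
(.lf (nat_lit 92694) (.g (nat_lit 2722) (.e (nat_lit 2345) (nat_lit 151) (.e (nat_lit 778466) (nat_lit 11) (.e (nat_lit 24617) (nat_lit 7) (.e (nat_lit 319534) (nat_lit 16) (.e (nat_lit 286756) (nat_lit 10) (.e (nat_lit 344160) (nat_lit 37) (.e (nat_lit 647195) (nat_lit 9) (.e (nat_lit 982) (nat_lit 81) .nil)))))))) (.g (nat_lit 4) .nil .nil))) 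
(.lf (nat_lit 92758) (.g (nat_lit 1098) (.e (nat_lit 7936) (nat_lit 151) (.e (nat_lit 778318) (nat_lit 3) (.e (nat_lit 57454) (nat_lit 21) (.e (nat_lit 507648) (nat_lit 19) .nil)))) .nil))) (.nd (nat_lit 6) 
(.lf (nat_lit 92726) (.g (nat_lit 3674) (.e (nat_lit 2346) (nat_lit 151) (.e (nat_lit 778482) (nat_lit 12) (.e (nat_lit 163978) (nat_lit 30) (.e (nat_lit 573475) (nat_lit 12) (.e (nat_lit 57550) (nat_lit 48) (.e (nat_lit 720945) (nat_lit 23) (.e (nat_lit 98354) (nat_lit 26) (.e (nat_lit 426140) (nat_lit 3) (.e (nat_lit 204821) (nat_lit 17) .nil))))))))) (.g (nat_lit 4) .nil .nil))) 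
(.lf (nat_lit 92790) (.g (nat_lit 2165) (.e (nat_lit 2356) (nat_lit 152) (.e (nat_lit 786482) (nat_lit 30) (.e (nat_lit 360475) (nat_lit 8) (.e (nat_lit 557089) (nat_lit 12) (.e (nat_lit 164007) (nat_lit 41) .nil))))) .nil))))) (.nd (nat_lit 4) (.nd (nat_lit 5) (.nd (nat_lit 6) 
(.lf (nat_lit 92686) (.g (nat_lit 3769) (.e (nat_lit 2343) (nat_lit 151) (.e (nat_lit 778362) (nat_lit 9) (.e (nat_lit 232) (nat_lit 21) (.e (nat_lit 336060) (nat_lit 7) (.e (nat_lit 319534) (nat_lit 16) (.e (nat_lit 286756) (nat_lit 10) (.e (nat_lit 344160) (nat_lit 37) (.e (nat_lit 647196) (nat_lit 9) (.e (nat_lit 1003) (nat_lit 81) .nil))))))))) (.g (nat_lit 7) .nil .nil))) 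
(.lf (nat_lit 92750) (.g (nat_lit 539) (.e (nat_lit 2347) (nat_lit 151) (.e (nat_lit 778466) (nat_lit 11) (.e (nat_lit 24640) (nat_lit 10) .nil))) .nil))) (.nd (nat_lit 6) 
(.lf (nat_lit 92718) (.g (nat_lit 1311) (.e (nat_lit 2346) (nat_lit 151) (.e (nat_lit 778466) (nat_lit 11) (.e (nat_lit 24679) (nat_lit 27) (.e (nat_lit 433920) (nat_lit 30) .nil)))) .nil)) 
(.lf (nat_lit 92782) (.g (nat_lit 1512) (.e (nat_lit 2356) (nat_lit 152) (.e (nat_lit 786481) (nat_lit 30) (.e (nat_lit 360473) (nat_lit 8) (.e (nat_lit 557089) (nat_lit 12) (.e (nat_lit 164007) (nat_lit 41) (.e (nat_lit 663583) (nat_lit 11) (.e (nat_lit 24578) (nat_lit 0) .nil))))))) (.g (nat_lit 4) .nil .nil))))) (.nd (nat_lit 5) (.nd (nat_lit 6) 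
(.lf (nat_lit 92702) (.g (nat_lit 1757) (.e (nat_lit 2346) (nat_lit 151) (.e (nat_lit 778452) (nat_lit 10) (.e (nat_lit 8320) (nat_lit 64) (.e (nat_lit 516131) (nat_lit 3) (.e (nat_lit 221212) (nat_lit 22) (.e (nat_lit 196669) (nat_lit 14) (.e (nat_lit 81664) (nat_lit 5) (.e (nat_lit 532490) (nat_lit 0) .nil)))))))) (.g (nat_lit 5) .nil .nil))) 
(.lf (nat_lit 92766) (.g (nat_lit 96) (.e (nat_lit 7936) (nat_lit 151) (.e (nat_lit 778348) (nat_lit 9) (.e (nat_lit 349) (nat_lit 28) (.e (nat_lit 401152) (nat_lit 12) .nil)))) .nil))) (.nd (nat_lit 6) 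
(.lf (nat_lit 92734) (.g (nat_lit 2105) (.e (nat_lit 2347) (nat_lit 151) (.e (nat_lit 778362) (nat_lit 9) (.e (nat_lit 232) (nat_lit 21) (.e (nat_lit 336060) (nat_lit 7) (.e (nat_lit 319505) (nat_lit 10) .nil))))) .nil)) 
(.lf (nat_lit 92798) (.g (nat_lit 2381) (.e (nat_lit 2359) (nat_lit 152) (.e (nat_lit 786438) (nat_lit 9) (.e (nat_lit 426108) (nat_lit 1) (.e (nat_lit 164332) (nat_lit 230) (.e (nat_lit 163885) (nat_lit 5) (.e (nat_lit 229120) (nat_lit 13) (.e (nat_lit 352283) (nat_lit 20) .nil))))))) (.g (nat_lit 5) .nil .nil))))))))) 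
(.nd (nat_lit 1) (.nd (nat_lit 2) (.nd (nat_lit 3) (.nd (nat_lit 4) (.nd (nat_lit 5) 
(.nd (nat_lit 6) 
(.lf (nat_lit 92673) (.g (nat_lit 2209) (.e (nat_lit 2342) (nat_lit 151) (.e (nat_lit 778362) (nat_lit 9) (.e (nat_lit 232) (nat_lit 21) (.e (nat_lit 336060) (nat_lit 7) (.e (nat_lit 319533) (nat_lit 16) (.e (nat_lit 286753) (nat_lit 10) (.e (nat_lit 344160) (nat_lit 37) (.e (nat_lit 647196) (nat_lit 9) (.e (nat_lit 1003) (nat_lit 81) .nil))))))))) (.g (nat_lit 4) .nil .nil))) 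
(.lf (nat_lit 92737) (.g (nat_lit 1532) (.e (nat_lit 2347) (nat_lit 151) (.e (nat_lit 778362) (nat_lit 9) (.e (nat_lit 314) (nat_lit 23) (.e (nat_lit 352290) (nat_lit 20) .nil)))) .nil))) (.nd (nat_lit 6) 
(.lf (nat_lit 92705) (.g (nat_lit 4236) (.e (nat_lit 2346) (nat_lit 151) (.e (nat_lit 778453) (nat_lit 10) (.e (nat_lit 8326) (nat_lit 69) (.e (nat_lit 557105) (nat_lit 14) (.e (nat_lit 180252) (nat_lit 10) (.e (nat_lit 573488) (nat_lit 14) (.e (nat_lit 81664) (nat_lit 5) (.e (nat_lit 532490) (nat_lit 0) .nil)))))))) (.g (nat_lit 6) .nil .nil))) 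
(.lf (nat_lit 92769) (.g (nat_lit 3278) (.e (nat_lit 2355) (nat_lit 152) (.e (nat_lit 786483) (nat_lit 30) (.e (nat_lit 360474) (nat_lit 8) (.e (nat_lit 557091) (nat_lit 12) (.e (nat_lit 163999) (nat_lit 38) .nil))))) .nil)))) (.nd (nat_lit 5) (.nd (nat_lit 6) 
(.lf (nat_lit 92689) (.g (nat_lit 2050) (.e (nat_lit 2345) (nat_lit 151) (.e (nat_lit 778362) (nat_lit 9) (.e (nat_lit 232) (nat_lit 21) (.e (nat_lit 336060) (nat_lit 7) (.e (nat_lit 319534) (nat_lit 16) (.e (nat_lit 286756) (nat_lit 10) (.e (nat_lit 344160) (nat_lit 37) (.e (nat_lit 647195) (nat_lit 9) (.e (nat_lit 7936) (nat_lit 81) .nil))))))))) (.g (nat_lit 4) .nil .nil))) 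
(.lf (nat_lit 92753) (.g (nat_lit 2118) (.e (nat_lit 2347) (nat_lit 151) (.e (nat_lit 778466) (nat_lit 11) (.e (nat_lit 24640) (nat_lit 10) (.e (nat_lit 344177) (nat_lit 43) .nil)))) .nil))) (.nd (nat_lit 6) 
(.lf (nat_lit 92721) (.g (nat_lit 2026) (.e (nat_lit 2346) (nat_lit 151) (.e (nat_lit 778482) (nat_lit 12) (.e (nat_lit 163978) (nat_lit 30) (.e (nat_lit 573474) (nat_lit 12) .nil)))) .nil)) 
(.lf (nat_lit 92785) (.g (nat_lit 2059) (.e (nat_lit 2356) (nat_lit 152) (.e (nat_lit 786481) (nat_lit 30) (.e (nat_lit 360473) (nat_lit 8) (.e (nat_lit 557091) (nat_lit 12) (.e (nat_lit 164005) (nat_lit 41) .nil))))) .nil))))) (.nd (nat_lit 4) (.nd (nat_lit 5) (.nd (nat_lit 6) 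
(.lf (nat_lit 92681) (.g (nat_lit 1783) (.e (nat_lit 2342) (nat_lit 151) (.e (nat_lit 778465) (nat_lit 11) (.e (nat_lit 24640) (nat_lit 10) (.e (nat_lit 344176) (nat_lit 43) .nil)))) .nil)) 
(.lf (nat_lit 92745) (.g (nat_lit 2014) (.e (nat_lit 2347) (nat_lit 151) (.e (nat_lit 778465) (nat_lit 11) (.e (nat_lit 24640) (nat_lit 10) (.e (nat_lit 344097) (nat_lit 18) .nil)))) .nil))) (.nd (nat_lit 6) 
(.lf (nat_lit 92713) (.g (nat_lit 1992) (.e (nat_lit 2346) (nat_lit 151) (.e (nat_lit 778465) (nat_lit 11) (.e (nat_lit 24660) (nat_lit 13) (.e (nat_lit 393260) (nat_lit 21) (.e (nat_lit 417536) (nat_lit 16) .nil))))) .nil)) 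
(.lf (nat_lit 92777) (.g (nat_lit 2874) (.e (nat_lit 2355) (nat_lit 152) (.e (nat_lit 786483) (nat_lit 30) (.e (nat_lit 360475) (nat_lit 8) (.e (nat_lit 557091) (nat_lit 12) (.e (nat_lit 164000) (nat_lit 38) .nil))))) .nil)))) (.nd (nat_lit 5) (.nd (nat_lit 6) 
(.lf (nat_lit 92697) (.g (nat_lit 1832) (.e (nat_lit 2346) (nat_lit 151) (.e (nat_lit 778362) (nat_lit 9) (.e (nat_lit 232) (nat_lit 21) (.e (nat_lit 336060) (nat_lit 7) (.e (nat_lit 319534) (nat_lit 16) .nil))))) .nil)) 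
(.lf (nat_lit 92761) (.g (nat_lit 2269) (.e (nat_lit 7936) (nat_lit 151) (.e (nat_lit 778320) (nat_lit 4) (.e (nat_lit 65630) (nat_lit 14) (.e (nat_lit 401459) (nat_lit 13) (.e (nat_lit 483410) (nat_lit 27) .nil))))) .nil))) (.nd (nat_lit 6) 
(.lf (nat_lit 92729) (.g (nat_lit 2600) (.e (nat_lit 2346) (nat_lit 151) (.e (nat_lit 778482) (nat_lit 12) (.e (nat_lit 163978) (nat_lit 30) (.e (nat_lit 573478) (nat_lit 12) (.e (nat_lit 57549) (nat_lit 48) (.e (nat_lit 720939) (nat_lit 22) (.e (nat_lit 90170) (nat_lit 13) (.e (nat_lit 172067) (nat_lit 3) (.e (nat_lit 204821) (nat_lit 17) .nil))))))))) (.g (nat_lit 4) .nil .nil))) 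
(.lf (nat_lit 92793) (.g (nat_lit 2180) (.e (nat_lit 2356) (nat_lit 152) (.e (nat_lit 786482) (nat_lit 30) (.e (nat_lit 360475) (nat_lit 8) (.e (nat_lit 557090) (nat_lit 12) .nil)))) .nil)))))) (.nd (nat_lit 3) (.nd (nat_lit 4) (.nd (nat_lit 5) (.nd (nat_lit 6) 
(.lf (nat_lit 92677) (.g (nat_lit 1195) (.e (nat_lit 2342) (nat_lit 151) (.e (nat_lit 778463) (nat_lit 11) (.e (nat_lit 24660) (nat_lit 13) (.e (nat_lit 393260) (nat_lit 21) (.e (nat_lit 417536) (nat_lit 16) .nil))))) .nil)) 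
(.lf (nat_lit 92741) (.g (nat_lit 1633) (.e (nat_lit 2347) (nat_lit 151) (.e (nat_lit 778465) (nat_lit 11) (.e (nat_lit 24639) (nat_lit 10) (.e (nat_lit 344177) (nat_lit 43) .nil)))) .nil))) (.nd (nat_lit 6) 
(.lf (nat_lit 92709) (.g (nat_lit 4317) (.e (nat_lit 2346) (nat_lit 151) (.e (nat_lit 778455) (nat_lit 10) (.e (nat_lit 8325) (nat_lit 69) (.e (nat_lit 557105) (nat_lit 14) (.e (nat_lit 180252) (nat_lit 10) (.e (nat_lit 573488) (nat_lit 14) (.e (nat_lit 81664) (nat_lit 5) (.e (nat_lit 532490) (nat_lit 0) .nil)))))))) (.g (nat_lit 6) .nil .nil))) 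
(.lf (nat_lit 92773) (.g (nat_lit 2898) (.e (nat_lit 2355) (nat_lit 152) (.e (nat_lit 786483) (nat_lit 30) (.e (nat_lit 360475) (nat_lit 8) (.e (nat_lit 557089) (nat_lit 12) (.e (nat_lit 164000) (nat_lit 38) .nil))))) .nil)))) (.nd (nat_lit 5) (.nd (nat_lit 6) 
(.lf (nat_lit 92693) (.g (nat_lit 2848) (.e (nat_lit 2345) (nat_lit 151) (.e (nat_lit 778466) (nat_lit 11) (.e (nat_lit 24617) (nat_lit 7) (.e (nat_lit 319534) (nat_lit 16) (.e (nat_lit 286756) (nat_lit 10) (.e (nat_lit 344160) (nat_lit 37) (.e (nat_lit 647190) (nat_lit 9) (.e (nat_lit 1005) (nat_lit 81) .nil)))))))) (.g (nat_lit 4) .nil .nil))) 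
(.lf (nat_lit 92757) (.g (nat_lit 1208) (.e (nat_lit 7936) (nat_lit 151) (.e (nat_lit 778317) (nat_lit 3) (.e (nat_lit 57479) (nat_lit 28) (.e (nat_lit 557101) (nat_lit 13) .nil)))) .nil))) (.nd (nat_lit 6) 
(.lf (nat_lit 92725) (.g (nat_lit 3599) (.e (nat_lit 2346) (nat_lit 151) (.e (nat_lit 778482) (nat_lit 12) (.e (nat_lit 163978) (nat_lit 30) (.e (nat_lit 573475) (nat_lit 12) (.e (nat_lit 57550) (nat_lit 48) .nil))))) .nil)) 
(.lf (nat_lit 92789) (.g (nat_lit 955) (.e (nat_lit 2356) (nat_lit 152) (.e (nat_lit 786481) (nat_lit 30) (.e (nat_lit 360473) (nat_lit 8) (.e (nat_lit 557094) (nat_lit 12) .nil)))) .nil))))) (.nd (nat_lit 4) (.nd (nat_lit 5) (.nd (nat_lit 6) 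
(.lf (nat_lit 92685) (.g (nat_lit 1887) (.e (nat_lit 2343) (nat_lit 151) (.e (nat_lit 778362) (nat_lit 9) (.e (nat_lit 232) (nat_lit 21) (.e (nat_lit 336060) (nat_lit 7) (.e (nat_lit 319534) (nat_lit 16) .nil))))) .nil)) 
(.lf (nat_lit 92749) (.g (nat_lit 2605) (.e (nat_lit 2347) (nat_lit 151) (.e (nat_lit 778466) (nat_lit 11) (.e (nat_lit 24617) (nat_lit 7) (.e (nat_lit 319505) (nat_lit 10) (.e (nat_lit 720) (nat_lit 64) (.e (nat_lit 688152) (nat_lit 13) (.e (nat_lit 1572) (nat_lit 110) (.e (nat_lit 352284) (nat_lit 20) .nil)))))))) (.g (nat_lit 4) .nil .nil)))) (.nd (nat_lit 6) 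
(.lf (nat_lit 92717) (.g (nat_lit 1129) (.e (nat_lit 2346) (nat_lit 151) (.e (nat_lit 778466) (nat_lit 11) (.e (nat_lit 24615) (nat_lit 6) (.e (nat_lit 147460) (nat_lit 0) .nil)))) .nil)) 
(.lf (nat_lit 92781) (.g (nat_lit 1340) (.e (nat_lit 2356) (nat_lit 152) (.e (nat_lit 786481) (nat_lit 30) (.e (nat_lit 360473) (nat_lit 8) (.e (nat_lit 557089) (nat_lit 12) (.e (nat_lit 164007) (nat_lit 41) .nil))))) .nil)))) (.nd (nat_lit 5) (.nd (nat_lit 6) 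
(.lf (nat_lit 92701) (.g (nat_lit 2467) (.e (nat_lit 2346) (nat_lit 151) (.e (nat_lit 778452) (nat_lit 10) (.e (nat_lit 8320) (nat_lit 64) (.e (nat_lit 516131) (nat_lit 3) (.e (nat_lit 221212) (nat_lit 22) (.e (nat_lit 196668) (nat_lit 14) (.e (nat_lit 81664) (nat_lit 5) (.e (nat_lit 532490) (nat_lit 0) .nil)))))))) (.g (nat_lit 6) .nil .nil))) 
(.lf (nat_lit 92765) (.g (nat_lit 149) (.e (nat_lit 7936) (nat_lit 151) (.e (nat_lit 778348) (nat_lit 9) (.e (nat_lit 347) (nat_lit 28) (.e (nat_lit 401152) (nat_lit 12) .nil)))) .nil))) (.nd (nat_lit 6) 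
(.lf (nat_lit 92733) (.g (nat_lit 1948) (.e (nat_lit 2346) (nat_lit 151) (.e (nat_lit 778482) (nat_lit 12) (.e (nat_lit 164058) (nat_lit 56) (.e (nat_lit 786468) (nat_lit 27) (.e (nat_lit 336430) (nat_lit 29) (.e (nat_lit 442427) (nat_lit 23) (.e (nat_lit 204821) (nat_lit 17) .nil))))))) (.g (nat_lit 7) .nil .nil))) 
(.lf (nat_lit 92797) (.g (nat_lit 2191) (.e (nat_lit 2358) (nat_lit 152) (.e (nat_lit 786482) (nat_lit 30) (.e (nat_lit 360475) (nat_lit 8) (.e (nat_lit 557090) (nat_lit 12) .nil)))) .nil))))))) (.nd (nat_lit 2) (.nd (nat_lit 3) (.nd (nat_lit 4) (.nd (nat_lit 5) (.nd (nat_lit 6) 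
(.lf (nat_lit 92675) (.g (nat_lit 3784) (.e (nat_lit 2342) (nat_lit 151) (.e (nat_lit 778362) (nat_lit 9) (.e (nat_lit 232) (nat_lit 21) (.e (nat_lit 336060) (nat_lit 7) (.e (nat_lit 319534) (nat_lit 16) (.e (nat_lit 286756) (nat_lit 10) (.e (nat_lit 344160) (nat_lit 37) (.e (nat_lit 647190) (nat_lit 9) (.e (nat_lit 1005) (nat_lit 81) .nil))))))))) (.g (nat_lit 7) .nil .nil))) 
(.lf (nat_lit 92739) (.g (nat_lit 1483) (.e (nat_lit 2347) (nat_lit 151) (.e (nat_lit 778464) (nat_lit 11) (.e (nat_lit 24640) (nat_lit 10) (.e (nat_lit 344177) (nat_lit 43) .nil)))) .nil))) (.nd (nat_lit 6) 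
(.lf (nat_lit 92707) (.g (nat_lit 1656) (.e (nat_lit 2346) (nat_lit 151) (.e (nat_lit 778454) (nat_lit 10) (.e (nat_lit 8320) (nat_lit 64) (.e (nat_lit 516131) (nat_lit 3) (.e (nat_lit 221212) (nat_lit 22) (.e (nat_lit 196669) (nat_lit 14) (.e (nat_lit 81664) (nat_lit 5) (.e (nat_lit 532490) (nat_lit 0) .nil)))))))) (.g (nat_lit 5) .nil .nil))) 
(.lf (nat_lit 92771) (.g (nat_lit 2644) (.e (nat_lit 2355) (nat_lit 152) (.e (nat_lit 786483) (nat_lit 30) (.e (nat_lit 360475) (nat_lit 8) (.e (nat_lit 557089) (nat_lit 12) (.e (nat_lit 163999) (nat_lit 38) .nil))))) .nil)))) (.nd (nat_lit 5) (.nd (nat_lit 6) 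
(.lf (nat_lit 92691) (.g (nat_lit 2061) (.e (nat_lit 2345) (nat_lit 151) (.e (nat_lit 778464) (nat_lit 11) (.e (nat_lit 24617) (nat_lit 7) (.e (nat_lit 319505) (nat_lit 10) (.e (nat_lit 720) (nat_lit 64) .nil))))) .nil)) 
(.lf (nat_lit 92755) (.g (nat_lit 2840) (.e (nat_lit 2350) (nat_lit 151) (.e (nat_lit 778482) (nat_lit 12) (.e (nat_lit 163978) (nat_lit 30) (.e (nat_lit 573478) (nat_lit 12) (.e (nat_lit 57549) (nat_lit 48) (.e (nat_lit 720945) (nat_lit 23) (.e (nat_lit 98366) (nat_lit 27) (.e (nat_lit 434231) (nat_lit 23) (.e (nat_lit 532481) (nat_lit 0) .nil))))))))) (.g (nat_lit 4) .nil .nil)))) 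
(.nd (nat_lit 6) 
(.lf (nat_lit 92723) (.g (nat_lit 3913) (.e (nat_lit 2346) (nat_lit 151) (.e (nat_lit 778482) (nat_lit 12) (.e (nat_lit 163978) (nat_lit 30) (.e (nat_lit 573475) (nat_lit 12) (.e (nat_lit 57549) (nat_lit 48) (.e (nat_lit 720945) (nat_lit 23) (.e (nat_lit 98354) (nat_lit 26) (.e (nat_lit 426140) (nat_lit 3) (.e (nat_lit 204821) (nat_lit 17) .nil))))))))) (.g (nat_lit 5) .nil .nil))) 
(.lf (nat_lit 92787) (.g (nat_lit 2548) (.e (nat_lit 2356) (nat_lit 152) (.e (nat_lit 786481) (nat_lit 30) (.e (nat_lit 360473) (nat_lit 8) (.e (nat_lit 557091) (nat_lit 12) (.e (nat_lit 164006) (nat_lit 41) (.e (nat_lit 663583) (nat_lit 11) (.e (nat_lit 24580) (nat_lit 0) .nil))))))) (.g (nat_lit 5) .nil .nil)))))) (.nd (nat_lit 4) (.nd (nat_lit 5) (.nd (nat_lit 6) 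
(.lf (nat_lit 92683) (.g (nat_lit 2103) (.e (nat_lit 2343) (nat_lit 151) (.e (nat_lit 778362) (nat_lit 9) (.e (nat_lit 232) (nat_lit 21) (.e (nat_lit 336060) (nat_lit 7) (.e (nat_lit 319505) (nat_lit 10) .nil))))) .nil)) 
(.lf (nat_lit 92747) (.g (nat_lit 2539) (.e (nat_lit 2347) (nat_lit 151) (.e (nat_lit 778465) (nat_lit 11) (.e (nat_lit 24640) (nat_lit 10) (.e (nat_lit 344177) (nat_lit 43) .nil)))) .nil))) (.nd (nat_lit 6) 
(.lf (nat_lit 92715) (.g (nat_lit 638) (.e (nat_lit 2346) (nat_lit 151) (.e (nat_lit 778466) (nat_lit 11) (.e (nat_lit 24584) (nat_lit 0) .nil))) .nil)) 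
(.lf (nat_lit 92779) (.g (nat_lit 1980) (.e (nat_lit 2356) (nat_lit 152) (.e (nat_lit 786481) (nat_lit 30) (.e (nat_lit 360473) (nat_lit 8) (.e (nat_lit 557089) (nat_lit 12) (.e (nat_lit 164006) (nat_lit 41) (.e (nat_lit 663574) (nat_lit 9) (.e (nat_lit 249) (nat_lit 21) (.e (nat_lit 335895) (nat_lit 0) .nil)))))))) (.g (nat_lit 4) .nil .nil))))) (.nd (nat_lit 5) (.nd (nat_lit 6) 
(.lf (nat_lit 92699) (.g (nat_lit 778) (.e (nat_lit 2346) (nat_lit 151) (.e (nat_lit 778362) (nat_lit 9) (.e (nat_lit 348) (nat_lit 28) (.e (nat_lit 401152) (nat_lit 12) .nil)))) .nil)) 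
(.lf (nat_lit 92763) (.g (nat_lit 82) (.e (nat_lit 7936) (nat_lit 151) (.e (nat_lit 778340) (nat_lit 9) (.e (nat_lit 349) (nat_lit 28) (.e (nat_lit 401152) (nat_lit 12) .nil)))) .nil))) (.nd (nat_lit 6) 
(.lf (nat_lit 92731) (.g (nat_lit 2411) (.e (nat_lit 2346) (nat_lit 151) (.e (nat_lit 778482) (nat_lit 12) (.e (nat_lit 163979) (nat_lit 30) (.e (nat_lit 573475) (nat_lit 12) (.e (nat_lit 57550) (nat_lit 48) .nil))))) .nil)) 
(.lf (nat_lit 92795) (.g (nat_lit 955) (.e (nat_lit 2357) (nat_lit 152) (.e (nat_lit 786481) (nat_lit 30) (.e (nat_lit 360473) (nat_lit 8) (.e (nat_lit 557094) (nat_lit 12) .nil)))) .nil)))))) (.nd (nat_lit 3) (.nd (nat_lit 4) (.nd (nat_lit 5) (.nd (nat_lit 6) 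
(.lf (nat_lit 92679) (.g (nat_lit 785) (.e (nat_lit 2342) (nat_lit 151) (.e (nat_lit 778465) (nat_lit 11) (.e (nat_lit 24640) (nat_lit 10) .nil))) .nil)) 
(.lf (nat_lit 92743) (.g (nat_lit 2739) (.e (nat_lit 2347) (nat_lit 151) (.e (nat_lit 778465) (nat_lit 11) (.e (nat_lit 24640) (nat_lit 10) (.e (nat_lit 344091) (nat_lit 18) (.e (nat_lit 7265) (nat_lit 384) .nil))))) .nil))) (.nd (nat_lit 6) 
(.lf (nat_lit 92711) (.g (nat_lit 4466) (.e (nat_lit 2346) (nat_lit 151) (.e (nat_lit 778455) (nat_lit 10) (.e (nat_lit 8326) (nat_lit 69) (.e (nat_lit 557105) (nat_lit 14) (.e (nat_lit 180252) (nat_lit 10) (.e (nat_lit 573488) (nat_lit 14) (.e (nat_lit 81664) (nat_lit 5) (.e (nat_lit 532490) (nat_lit 0) .nil)))))))) (.g (nat_lit 6) .nil .nil))) 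
(.lf (nat_lit 92775) (.g (nat_lit 2613) (.e (nat_lit 2355) (nat_lit 152) (.e (nat_lit 786483) (nat_lit 30) (.e (nat_lit 360475) (nat_lit 8) (.e (nat_lit 557091) (nat_lit 12) (.e (nat_lit 163999) (nat_lit 38) .nil))))) .nil)))) (.nd (nat_lit 5) (.nd (nat_lit 6) 
(.lf (nat_lit 92695) (.g (nat_lit 2127) (.e (nat_lit 2346) (nat_lit 151) (.e (nat_lit 778362) (nat_lit 9) (.e (nat_lit 232) (nat_lit 21) (.e (nat_lit 336060) (nat_lit 7) (.e (nat_lit 319533) (nat_lit 16) .nil))))) .nil)) 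
(.lf (nat_lit 92759) (.g (nat_lit 1151) (.e (nat_lit 7936) (nat_lit 151) (.e (nat_lit 778318) (nat_lit 3) (.e (nat_lit 57464) (nat_lit 23) (.e (nat_lit 516160) (nat_lit 10) .nil)))) .nil))) (.nd (nat_lit 6) 
(.lf (nat_lit 92727) (.g (nat_lit 3599) (.e (nat_lit 2346) (nat_lit 151) (.e (nat_lit 778482) (nat_lit 12) (.e (nat_lit 163978) (nat_lit 30) (.e (nat_lit 573475) (nat_lit 12) (.e (nat_lit 57551) (nat_lit 48) .nil))))) .nil)) 
(.lf (nat_lit 92791) (.g (nat_lit 2374) (.e (nat_lit 2356) (nat_lit 152) (.e (nat_lit 786482) (nat_lit 30) (.e (nat_lit 360475) (nat_lit 8) (.e (nat_lit 557089) (nat_lit 12) (.e (nat_lit 164007) (nat_lit 41) (.e (nat_lit 663580) (nat_lit 9) (.e (nat_lit 284) (nat_lit 21) (.e (nat_lit 335892) (nat_lit 0) .nil)))))))) (.g (nat_lit 4) .nil .nil)))))) 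
(.nd (nat_lit 4) (.nd (nat_lit 5) (.nd (nat_lit 6) 
(.lf (nat_lit 92687) (.g (nat_lit 2182) (.e (nat_lit 2345) (nat_lit 151) (.e (nat_lit 778362) (nat_lit 9) (.e (nat_lit 232) (nat_lit 21) (.e (nat_lit 336060) (nat_lit 7) (.e (nat_lit 319533) (nat_lit 16) .nil))))) .nil)) 
(.lf (nat_lit 92751) (.g (nat_lit 1971) (.e (nat_lit 2347) (nat_lit 151) (.e (nat_lit 778466) (nat_lit 11) (.e (nat_lit 24640) (nat_lit 10) (.e (nat_lit 344094) (nat_lit 18) .nil)))) .nil))) (.nd (nat_lit 6) 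
(.lf (nat_lit 92719) (.g (nat_lit 1848) (.e (nat_lit 2346) (nat_lit 151) (.e (nat_lit 778474) (nat_lit 12) (.e (nat_lit 164053) (nat_lit 56) (.e (nat_lit 786468) (nat_lit 27) (.e (nat_lit 336430) (nat_lit 29) (.e (nat_lit 442427) (nat_lit 23) (.e (nat_lit 204821) (nat_lit 17) .nil))))))) (.g (nat_lit 7) .nil .nil))) 
(.lf (nat_lit 92783) (.g (nat_lit 1817) (.e (nat_lit 2356) (nat_lit 152) (.e (nat_lit 786481) (nat_lit 30) (.e (nat_lit 360473) (nat_lit 8) (.e (nat_lit 557089) (nat_lit 12) (.e (nat_lit 164008) (nat_lit 41) .nil))))) .nil)))) (.nd (nat_lit 5) (.nd (nat_lit 6) 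
(.lf (nat_lit 92703) (.g (nat_lit 4254) (.e (nat_lit 2346) (nat_lit 151) (.e (nat_lit 778452) (nat_lit 10) (.e (nat_lit 8326) (nat_lit 69) (.e (nat_lit 557105) (nat_lit 14) (.e (nat_lit 180252) (nat_lit 10) (.e (nat_lit 573488) (nat_lit 14) (.e (nat_lit 81664) (nat_lit 5) (.e (nat_lit 532490) (nat_lit 0) .nil)))))))) (.g (nat_lit 6) .nil .nil))) 
(.lf (nat_lit 92767) (.g (nat_lit 2179) (.e (nat_lit 7936) (nat_lit 151) (.e (nat_lit 778361) (nat_lit 9) (.e (nat_lit 232) (nat_lit 21) (.e (nat_lit 336060) (nat_lit 7) (.e (nat_lit 319533) (nat_lit 16) .nil))))) .nil))) (.nd (nat_lit 6) 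
(.lf (nat_lit 92735) (.g (nat_lit 1889) (.e (nat_lit 2347) (nat_lit 151) (.e (nat_lit 778362) (nat_lit 9) (.e (nat_lit 232) (nat_lit 21) (.e (nat_lit 336060) (nat_lit 7) (.e (nat_lit 319534) (nat_lit 16) .nil))))) .nil)) 
(.lf (nat_lit 92799) (.g (nat_lit 2876) (.e (nat_lit 2359) (nat_lit 152) (.e (nat_lit 786473) (nat_lit 27) (.e (nat_lit 335998) (nat_lit 1) (.e (nat_lit 57849) (nat_lit 252) (.e (nat_lit 57377) (nat_lit 3) (.e (nat_lit 106240) (nat_lit 11) (.e (nat_lit 352283) (nat_lit 20) .nil))))))) (.g (nat_lit 5) .nil .nil))))))))))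

noncomputable def tv1272 : DT := (.nd (nat_lit 0) (.nd (nat_lit 1) (.nd (nat_lit 2) (.nd (nat_lit 3) (.nd (nat_lit 4) (.nd (nat_lit 5) 
(.lf (nat_lit 92800) (.g (nat_lit 1316) (.e (nat_lit 2359) (nat_lit 152) (.e (nat_lit 786481) (nat_lit 30) (.e (nat_lit 360466) (nat_lit 3) (.e (nat_lit 516100) (nat_lit 0) (.e (nat_lit 7936) (nat_lit 216) .nil))))) .nil)) 
(.lf (nat_lit 92832) (.g (nat_lit 107) (.e (nat_lit 2375) (nat_lit 154) (.e (nat_lit 802827) (nat_lit 12) (.e (nat_lit 344131) (nat_lit 26) .nil))) .nil))) (.nd (nat_lit 5) 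
(.lf (nat_lit 92816) (.g (nat_lit 900) (.e (nat_lit 2362) (nat_lit 153) (.e (nat_lit 794637) (nat_lit 11) (.e (nat_lit 336086) (nat_lit 9) (.e (nat_lit 336421) (nat_lit 28) .nil)))) .nil)) 
(.lf (nat_lit 92848) (.g (nat_lit 964) (.e (nat_lit 2375) (nat_lit 154) (.e (nat_lit 802828) (nat_lit 13) (.e (nat_lit 352324) (nat_lit 26) (.e (nat_lit 147492) (nat_lit 11) .nil)))) .nil)))) (.nd (nat_lit 4) (.nd (nat_lit 5) 
(.lf (nat_lit 92808) (.g (nat_lit 1464) (.e (nat_lit 2360) (nat_lit 152) (.e (nat_lit 786481) (nat_lit 30) (.e (nat_lit 360473) (nat_lit 8) (.e (nat_lit 557094) (nat_lit 12) (.e (nat_lit 164010) (nat_lit 41) .nil))))) .nil)) 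
(.lf (nat_lit 92840) (.g (nat_lit 632) (.e (nat_lit 2375) (nat_lit 154) (.e (nat_lit 802828) (nat_lit 13) (.e (nat_lit 352291) (nat_lit 20) (.e (nat_lit 2281) (nat_lit 150) (.e (nat_lit 770074) (nat_lit 10) .nil))))) .nil))) (.nd (nat_lit 5) 
(.lf (nat_lit 92824) (.g (nat_lit 3019) (.e (nat_lit 2367) (nat_lit 153) (.e (nat_lit 794684) (nat_lit 25) (.e (nat_lit 221211) (nat_lit 22) (.e (nat_lit 196630) (nat_lit 9) (.e (nat_lit 1669) (nat_lit 116) (.e (nat_lit 401459) (nat_lit 13) (.e (nat_lit 483343) (nat_lit 17) .nil))))))) (.g (nat_lit 7) .nil .nil))) 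
(.lf (nat_lit 92856) (.g (nat_lit 950) (.e (nat_lit 2383) (nat_lit 155) (.e (nat_lit 811011) (nat_lit 0) (.e (nat_lit 5777) (nat_lit 317) (.e (nat_lit 180241) (nat_lit 4) (.e (nat_lit 524340) (nat_lit 28) (.e (nat_lit 352287) (nat_lit 20) .nil)))))) (.g (nat_lit 0) .nil .nil)))))) (.nd (nat_lit 3) (.nd (nat_lit 4) (.nd (nat_lit 5) 
(.lf (nat_lit 92804) (.g (nat_lit 1880) (.e (nat_lit 2360) (nat_lit 152) (.e (nat_lit 786481) (nat_lit 30) (.e (nat_lit 360473) (nat_lit 8) (.e (nat_lit 557089) (nat_lit 12) (.e (nat_lit 164009) (nat_lit 41) (.e (nat_lit 663583) (nat_lit 11) (.e (nat_lit 24580) (nat_lit 0) .nil))))))) (.g (nat_lit 5) .nil .nil))) 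
(.lf (nat_lit 92836) (.g (nat_lit 536) (.e (nat_lit 2375) (nat_lit 154) (.e (nat_lit 802828) (nat_lit 13) (.e (nat_lit 352283) (nat_lit 20) (.e (nat_lit 2375) (nat_lit 154) (.e (nat_lit 802828) (nat_lit 13) (.e (nat_lit 352286) (nat_lit 20) .nil)))))) (.g (nat_lit 0) .nil .nil)))) (.nd (nat_lit 5) 
(.lf (nat_lit 92820) (.g (nat_lit 433) (.e (nat_lit 2362) (nat_lit 153) (.e (nat_lit 794637) (nat_lit 11) (.e (nat_lit 336223) (nat_lit 13) .nil))) .nil)) 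
(.lf (nat_lit 92852) (.g (nat_lit 2050) (.e (nat_lit 2379) (nat_lit 155) (.e (nat_lit 811029) (nat_lit 9) (.e (nat_lit 303137) (nat_lit 10) (.e (nat_lit 434241) (nat_lit 27) (.e (nat_lit 565269) (nat_lit 6) (.e (nat_lit 81935) (nat_lit 20) .nil)))))) (.g (nat_lit 6) .nil .nil))))) (.nd (nat_lit 4) (.nd (nat_lit 5) 
(.lf (nat_lit 92812) (.g (nat_lit 1385) (.e (nat_lit 7936) (nat_lit 152) (.e (nat_lit 786481) (nat_lit 30) (.e (nat_lit 360466) (nat_lit 3) (.e (nat_lit 516117) (nat_lit 1) (.e (nat_lit 164166) (nat_lit 152) .nil))))) .nil)) 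
(.lf (nat_lit 92844) (.g (nat_lit 860) (.e (nat_lit 2375) (nat_lit 154) (.e (nat_lit 802828) (nat_lit 13) (.e (nat_lit 352322) (nat_lit 26) (.e (nat_lit 147477) (nat_lit 9) (.e (nat_lit 7936) (nat_lit 23) .nil))))) .nil))) (.nd (nat_lit 5) 
(.lf (nat_lit 92828) (.g (nat_lit 2990) (.e (nat_lit 2370) (nat_lit 154) (.e (nat_lit 802822) (nat_lit 11) (.e (nat_lit 336223) (nat_lit 13) (.e (nat_lit 393301) (nat_lit 27) (.e (nat_lit 491552) (nat_lit 9) (.e (nat_lit 335907) (nat_lit 0) .nil)))))) (.g (nat_lit 6) .nil .nil))) 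
(.lf (nat_lit 92860) (.g (nat_lit 1029) (.e (nat_lit 2383) (nat_lit 155) (.e (nat_lit 811012) (nat_lit 0) (.e (nat_lit 5776) (nat_lit 317) (.e (nat_lit 180248) (nat_lit 9) (.e (nat_lit 565269) (nat_lit 6) (.e (nat_lit 81933) (nat_lit 20) .nil)))))) (.g (nat_lit 0) .nil .nil))))))) (.nd (nat_lit 2) (.nd (nat_lit 3) (.nd (nat_lit 4) (.nd (nat_lit 5) 
(.lf (nat_lit 92802) (.g (nat_lit 2180) (.e (nat_lit 2359) (nat_lit 152) (.e (nat_lit 786482) (nat_lit 30) (.e (nat_lit 360475) (nat_lit 8) (.e (nat_lit 557090) (nat_lit 12) .nil)))) .nil)) 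
(.lf (nat_lit 92834) (.g (nat_lit 2078) (.e (nat_lit 2375) (nat_lit 154) (.e (nat_lit 802827) (nat_lit 12) (.e (nat_lit 344133) (nat_lit 26) (.e (nat_lit 557103) (nat_lit 14) (.e (nat_lit 180262) (nat_lit 21) .nil))))) .nil))) (.nd (nat_lit 5) 
(.lf (nat_lit 92818) (.g (nat_lit 1085) (.e (nat_lit 2362) (nat_lit 153) (.e (nat_lit 794637) (nat_lit 11) (.e (nat_lit 336203) (nat_lit 12) (.e (nat_lit 392960) (nat_lit 16) .nil)))) .nil)) 
(.lf (nat_lit 92850) (.g (nat_lit 1959) (.e (nat_lit 2375) (nat_lit 154) (.e (nat_lit 802828) (nat_lit 13) (.e (nat_lit 352324) (nat_lit 26) (.e (nat_lit 147496) (nat_lit 11) (.e (nat_lit 24631) (nat_lit 9) (.e (nat_lit 335908) (nat_lit 0) .nil)))))) (.g (nat_lit 5) .nil .nil))))) (.nd (nat_lit 4) (.nd (nat_lit 5) 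
(.lf (nat_lit 92810) (.g (nat_lit 888) (.e (nat_lit 7936) (nat_lit 152) (.e (nat_lit 786477) (nat_lit 28) (.e (nat_lit 344169) (nat_lit 40) (.e (nat_lit 671751) (nat_lit 0) .nil)))) .nil)) 
(.lf (nat_lit 92842) (.g (nat_lit 1364) (.e (nat_lit 2375) (nat_lit 154) (.e (nat_lit 802828) (nat_lit 13) (.e (nat_lit 352309) (nat_lit 21) (.e (nat_lit 57660) (nat_lit 152) (.e (nat_lit 7936) (nat_lit 90) .nil))))) .nil))) (.nd (nat_lit 5) 
(.lf (nat_lit 92826) (.g (nat_lit 181) (.e (nat_lit 7936) (nat_lit 153) (.e (nat_lit 794635) (nat_lit 11) (.e (nat_lit 336402) (nat_lit 27) (.e (nat_lit 433920) (nat_lit 30) .nil)))) .nil)) 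
(.lf (nat_lit 92858) (.g (nat_lit 412) (.e (nat_lit 2383) (nat_lit 155) (.e (nat_lit 811011) (nat_lit 0) (.e (nat_lit 5779) (nat_lit 317) (.e (nat_lit 180241) (nat_lit 4) (.e (nat_lit 532224) (nat_lit 28) (.e (nat_lit 352285) (nat_lit 20) .nil)))))) (.g (nat_lit 4) .nil .nil)))))) (.nd (nat_lit 3) (.nd (nat_lit 4) (.nd (nat_lit 5) 
(.lf (nat_lit 92806) (.g (nat_lit 2086) (.e (nat_lit 2360) (nat_lit 152) (.e (nat_lit 786481) (nat_lit 30) (.e (nat_lit 360473) (nat_lit 8) (.e (nat_lit 557091) (nat_lit 12) (.e (nat_lit 164007) (nat_lit 41) .nil))))) .nil)) 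
(.lf (nat_lit 92838) (.g (nat_lit 382) (.e (nat_lit 2375) (nat_lit 154) (.e (nat_lit 802828) (nat_lit 13) (.e (nat_lit 352286) (nat_lit 20) (.e (nat_lit 2375) (nat_lit 154) (.e (nat_lit 802828) (nat_lit 13) (.e (nat_lit 352286) (nat_lit 20) .nil)))))) (.g (nat_lit 0) .nil .nil)))) (.nd (nat_lit 5) 
(.lf (nat_lit 92822) (.g (nat_lit 604) (.e (nat_lit 2363) (nat_lit 153) (.e (nat_lit 794637) (nat_lit 11) (.e (nat_lit 336021) (nat_lit 3) .nil))) .nil)) 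
(.lf (nat_lit 92854) (.g (nat_lit 377) (.e (nat_lit 2383) (nat_lit 155) (.e (nat_lit 811011) (nat_lit 0) (.e (nat_lit 5776) (nat_lit 317) (.e (nat_lit 180241) (nat_lit 4) (.e (nat_lit 532224) (nat_lit 28) .nil))))) .nil)))) (.nd (nat_lit 4) (.nd (nat_lit 5) 
(.lf (nat_lit 92814) (.g (nat_lit 1479) (.e (nat_lit 7936) (nat_lit 152) (.e (nat_lit 786481) (nat_lit 30) (.e (nat_lit 360466) (nat_lit 3) (.e (nat_lit 516120) (nat_lit 1) (.e (nat_lit 164166) (nat_lit 152) .nil))))) .nil)) 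
(.lf (nat_lit 92846) (.g (nat_lit 671) (.e (nat_lit 2375) (nat_lit 154) (.e (nat_lit 802828) (nat_lit 13) (.e (nat_lit 352324) (nat_lit 26) (.e (nat_lit 147478) (nat_lit 9) .nil)))) .nil))) (.nd (nat_lit 5) 
(.lf (nat_lit 92830) (.g (nat_lit 1328) (.e (nat_lit 2374) (nat_lit 154) (.e (nat_lit 810752) (nat_lit 14) (.e (nat_lit 360451) (nat_lit 0) (.e (nat_lit 7125) (nat_lit 382) (.e (nat_lit 7936) (nat_lit 90) (.e (nat_lit 81931) (nat_lit 20) .nil)))))) (.g (nat_lit 4) .nil .nil))) 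
(.lf (nat_lit 92862) (.g (nat_lit 375) (.e (nat_lit 2383) (nat_lit 155) (.e (nat_lit 811012) (nat_lit 0) (.e (nat_lit 5779) (nat_lit 317) (.e (nat_lit 180241) (nat_lit 4) (.e (nat_lit 532224) (nat_lit 28) (.e (nat_lit 352285) (nat_lit 20) .nil)))))) (.g (nat_lit 4) .nil .nil)))))))) (.nd (nat_lit 1) (.nd (nat_lit 2) (.nd (nat_lit 3) (.nd (nat_lit 4) (.nd (nat_lit 5) 
(.lf (nat_lit 92801) (.g (nat_lit 3571) (.e (nat_lit 2359) (nat_lit 152) (.e (nat_lit 786481) (nat_lit 30) (.e (nat_lit 360474) (nat_lit 8) (.e (nat_lit 557091) (nat_lit 12) (.e (nat_lit 163999) (nat_lit 38) .nil))))) .nil)) 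
(.lf (nat_lit 92833) (.g (nat_lit 2001) (.e (nat_lit 2375) (nat_lit 154) (.e (nat_lit 802827) (nat_lit 12) (.e (nat_lit 344133) (nat_lit 26) (.e (nat_lit 557098) (nat_lit 13) (.e (nat_lit 172051) (nat_lit 0) .nil))))) .nil))) (.nd (nat_lit 5) 
(.lf (nat_lit 92817) (.g (nat_lit 1180) (.e (nat_lit 2362) (nat_lit 153) (.e (nat_lit 794637) (nat_lit 11) (.e (nat_lit 336088) (nat_lit 9) (.e (nat_lit 335878) (nat_lit 0) .nil)))) .nil)) 
(.lf (nat_lit 92849) (.g (nat_lit 2224) (.e (nat_lit 2375) (nat_lit 154) (.e (nat_lit 802828) (nat_lit 13) (.e (nat_lit 352324) (nat_lit 26) (.e (nat_lit 147496) (nat_lit 11) (.e (nat_lit 24631) (nat_lit 9) (.e (nat_lit 335905) (nat_lit 0) .nil)))))) (.g (nat_lit 6) .nil .nil))))) (.nd (nat_lit 4) (.nd (nat_lit 5) 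
(.lf (nat_lit 92809) (.g (nat_lit 2192) (.e (nat_lit 2360) (nat_lit 152) (.e (nat_lit 786482) (nat_lit 30) (.e (nat_lit 360475) (nat_lit 8) (.e (nat_lit 557090) (nat_lit 12) .nil)))) .nil)) 
(.lf (nat_lit 92841) (.g (nat_lit 932) (.e (nat_lit 2375) (nat_lit 154) (.e (nat_lit 802828) (nat_lit 13) (.e (nat_lit 352307) (nat_lit 21) (.e (nat_lit 57665) (nat_lit 152) .nil)))) .nil))) (.nd (nat_lit 5) 
(.lf (nat_lit 92825) (.g (nat_lit 3619) (.e (nat_lit 2367) (nat_lit 153) (.e (nat_lit 794684) (nat_lit 25) (.e (nat_lit 221211) (nat_lit 22) (.e (nat_lit 196630) (nat_lit 9) (.e (nat_lit 1669) (nat_lit 116) (.e (nat_lit 401459) (nat_lit 13) (.e (nat_lit 483344) (nat_lit 17) .nil))))))) (.g (nat_lit 7) .nil .nil))) 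
(.lf (nat_lit 92857) (.g (nat_lit 520) (.e (nat_lit 2383) (nat_lit 155) (.e (nat_lit 811011) (nat_lit 0) (.e (nat_lit 5779) (nat_lit 317) (.e (nat_lit 180241) (nat_lit 4) (.e (nat_lit 524340) (nat_lit 28) (.e (nat_lit 352286) (nat_lit 20) .nil)))))) (.g (nat_lit 4) .nil .nil)))))) (.nd (nat_lit 3) (.nd (nat_lit 4) (.nd (nat_lit 5) 
(.lf (nat_lit 92805) (.g (nat_lit 1724) (.e (nat_lit 2360) (nat_lit 152) (.e (nat_lit 786481) (nat_lit 30) (.e (nat_lit 360473) (nat_lit 8) (.e (nat_lit 557089) (nat_lit 12) (.e (nat_lit 164010) (nat_lit 41) .nil))))) .nil)) 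
(.lf (nat_lit 92837) (.g (nat_lit 420) (.e (nat_lit 2375) (nat_lit 154) (.e (nat_lit 802828) (nat_lit 13) (.e (nat_lit 352285) (nat_lit 20) (.e (nat_lit 2375) (nat_lit 154) (.e (nat_lit 802828) (nat_lit 13) (.e (nat_lit 352286) (nat_lit 20) .nil)))))) (.g (nat_lit 0) .nil .nil)))) (.nd (nat_lit 5) 
(.lf (nat_lit 92821) (.g (nat_lit 1838) (.e (nat_lit 2362) (nat_lit 153) (.e (nat_lit 794637) (nat_lit 11) (.e (nat_lit 336223) (nat_lit 13) (.e (nat_lit 393301) (nat_lit 27) .nil)))) .nil)) 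
(.lf (nat_lit 92853) (.g (nat_lit 488) (.e (nat_lit 2383) (nat_lit 155) (.e (nat_lit 811011) (nat_lit 0) (.e (nat_lit 5776) (nat_lit 317) (.e (nat_lit 180241) (nat_lit 4) (.e (nat_lit 524340) (nat_lit 28) (.e (nat_lit 352286) (nat_lit 20) .nil)))))) (.g (nat_lit 4) .nil .nil))))) (.nd (nat_lit 4) (.nd (nat_lit 5) 
(.lf (nat_lit 92813) (.g (nat_lit 1789) (.e (nat_lit 7936) (nat_lit 152) (.e (nat_lit 786481) (nat_lit 30) (.e (nat_lit 360466) (nat_lit 3) (.e (nat_lit 516120) (nat_lit 1) (.e (nat_lit 164159) (nat_lit 152) .nil))))) .nil)) 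
(.lf (nat_lit 92845) (.g (nat_lit 1235) (.e (nat_lit 2375) (nat_lit 154) (.e (nat_lit 802828) (nat_lit 13) (.e (nat_lit 352324) (nat_lit 26) (.e (nat_lit 147477) (nat_lit 9) (.e (nat_lit 7936) (nat_lit 23) .nil))))) .nil))) (.nd (nat_lit 5) 
(.lf (nat_lit 92829) (.g (nat_lit 1920) (.e (nat_lit 2372) (nat_lit 154) (.e (nat_lit 802822) (nat_lit 11) (.e (nat_lit 336223) (nat_lit 13) (.e (nat_lit 393301) (nat_lit 27) (.e (nat_lit 491552) (nat_lit 9) .nil))))) .nil)) 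
(.lf (nat_lit 92861) (.g (nat_lit 1614) (.e (nat_lit 2383) (nat_lit 155) (.e (nat_lit 811012) (nat_lit 0) (.e (nat_lit 5776) (nat_lit 317) (.e (nat_lit 180248) (nat_lit 9) (.e (nat_lit 565269) (nat_lit 6) (.e (nat_lit 81935) (nat_lit 20) .nil)))))) (.g (nat_lit 0) .nil .nil))))))) (.nd (nat_lit 2) (.nd (nat_lit 3) (.nd (nat_lit 4) (.nd (nat_lit 5) 
(.lf (nat_lit 92803) (.g (nat_lit 1353) (.e (nat_lit 2360) (nat_lit 152) (.e (nat_lit 786481) (nat_lit 30) (.e (nat_lit 360473) (nat_lit 8) (.e (nat_lit 557089) (nat_lit 12) (.e (nat_lit 164007) (nat_lit 41) (.e (nat_lit 663583) (nat_lit 11) (.e (nat_lit 24578) (nat_lit 0) .nil))))))) (.g (nat_lit 4) .nil .nil))) 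
(.lf (nat_lit 92835) (.g (nat_lit 2088) (.e (nat_lit 2375) (nat_lit 154) (.e (nat_lit 802827) (nat_lit 12) (.e (nat_lit 344133) (nat_lit 26) (.e (nat_lit 557105) (nat_lit 14) (.e (nat_lit 180262) (nat_lit 21) .nil))))) .nil))) (.nd (nat_lit 5) 
(.lf (nat_lit 92819) (.g (nat_lit 407) (.e (nat_lit 2362) (nat_lit 153) (.e (nat_lit 794637) (nat_lit 11) (.e (nat_lit 336222) (nat_lit 13) .nil))) .nil)) 
(.lf (nat_lit 92851) (.g (nat_lit 984) (.e (nat_lit 2379) (nat_lit 155) (.e (nat_lit 811029) (nat_lit 9) (.e (nat_lit 303131) (nat_lit 9) (.e (nat_lit 426125) (nat_lit 2) (.e (nat_lit 204544) (nat_lit 0) .nil))))) .nil)))) (.nd (nat_lit 4) (.nd (nat_lit 5) 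
(.lf (nat_lit 92811) (.g (nat_lit 580) (.e (nat_lit 7936) (nat_lit 152) (.e (nat_lit 786478) (nat_lit 29) (.e (nat_lit 352311) (nat_lit 22) .nil))) .nil)) 
(.lf (nat_lit 92843) (.g (nat_lit 1819) (.e (nat_lit 2375) (nat_lit 154) (.e (nat_lit 802828) (nat_lit 13) (.e (nat_lit 352309) (nat_lit 21) (.e (nat_lit 57666) (nat_lit 152) (.e (nat_lit 7936) (nat_lit 90) (.e (nat_lit 81935) (nat_lit 20) .nil)))))) (.g (nat_lit 4) .nil .nil)))) (.nd (nat_lit 5) 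
(.lf (nat_lit 92827) (.g (nat_lit 2658) (.e (nat_lit 2370) (nat_lit 154) (.e (nat_lit 802822) (nat_lit 11) (.e (nat_lit 336027) (nat_lit 3) (.e (nat_lit 98372) (nat_lit 29) (.e (nat_lit 450586) (nat_lit 10) (.e (nat_lit 573452) (nat_lit 9) (.e (nat_lit 1004) (nat_lit 81) .nil))))))) (.g (nat_lit 5) .nil .nil))) 
(.lf (nat_lit 92859) (.g (nat_lit 324) (.e (nat_lit 2383) (nat_lit 155) (.e (nat_lit 811012) (nat_lit 0) (.e (nat_lit 5776) (nat_lit 317) (.e (nat_lit 180241) (nat_lit 4) (.e (nat_lit 532224) (nat_lit 28) (.e (nat_lit 352285) (nat_lit 20) .nil)))))) (.g (nat_lit 4) .nil .nil)))))) (.nd (nat_lit 3) (.nd (nat_lit 4) (.nd (nat_lit 5) 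
(.lf (nat_lit 92807) (.g (nat_lit 1545) (.e (nat_lit 2360) (nat_lit 152) (.e (nat_lit 786481) (nat_lit 30) (.e (nat_lit 360473) (nat_lit 8) (.e (nat_lit 557093) (nat_lit 12) (.e (nat_lit 164008) (nat_lit 41) .nil))))) .nil)) 
(.lf (nat_lit 92839) (.g (nat_lit 1273) (.e (nat_lit 2375) (nat_lit 154) (.e (nat_lit 802828) (nat_lit 13) (.e (nat_lit 352290) (nat_lit 20) (.e (nat_lit 2281) (nat_lit 150) (.e (nat_lit 770074) (nat_lit 10) (.e (nat_lit 81933) (nat_lit 20) .nil)))))) (.g (nat_lit 0) .nil .nil)))) (.nd (nat_lit 5) 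
(.lf (nat_lit 92823) (.g (nat_lit 603) (.e (nat_lit 2363) (nat_lit 153) (.e (nat_lit 794637) (nat_lit 11) (.e (nat_lit 336215) (nat_lit 13) .nil))) .nil)) 
(.lf (nat_lit 92855) (.g (nat_lit 634) (.e (nat_lit 2383) (nat_lit 155) (.e (nat_lit 811011) (nat_lit 0) (.e (nat_lit 5777) (nat_lit 317) (.e (nat_lit 180241) (nat_lit 4) (.e (nat_lit 524340) (nat_lit 28) (.e (nat_lit 352285) (nat_lit 20) .nil)))))) (.g (nat_lit 0) .nil .nil))))) (.nd (nat_lit 4) (.nd (nat_lit 5) 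
(.lf (nat_lit 92815) (.g (nat_lit 2274) (.e (nat_lit 2362) (nat_lit 153) (.e (nat_lit 794637) (nat_lit 11) (.e (nat_lit 336011) (nat_lit 2) (.e (nat_lit 90170) (nat_lit 13) (.e (nat_lit 172106) (nat_lit 10) .nil))))) .nil)) 
(.lf (nat_lit 92847) (.g (nat_lit 983) (.e (nat_lit 2375) (nat_lit 154) (.e (nat_lit 802828) (nat_lit 13) (.e (nat_lit 352324) (nat_lit 26) (.e (nat_lit 147483) (nat_lit 9) (.e (nat_lit 7936) (nat_lit 23) .nil))))) .nil))) (.nd (nat_lit 5) 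
(.lf (nat_lit 92831) (.g (nat_lit 1237) (.e (nat_lit 2375) (nat_lit 154) (.e (nat_lit 802826) (nat_lit 11) (.e (nat_lit 336222) (nat_lit 13) (.e (nat_lit 393260) (nat_lit 21) (.e (nat_lit 417536) (nat_lit 16) (.e (nat_lit 286720) (nat_lit 0) .nil)))))) (.g (nat_lit 4) .nil .nil))) 
(.lf (nat_lit 92863) (.g (nat_lit 1121) (.e (nat_lit 2383) (nat_lit 155) (.e (nat_lit 811027) (nat_lit 9) (.e (nat_lit 303127) (nat_lit 9) (.e (nat_lit 426428) (nat_lit 17) (.e (nat_lit 98048) (nat_lit 6) .nil))))) .nil))))))))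

noncomputable def tv1273 : DT := (.nd (nat_lit 0) (.nd (nat_lit 1) (.nd (nat_lit 2) (.nd (nat_lit 3) (.nd (nat_lit 4) (.nd (nat_lit 5) 
(.lf (nat_lit 92864) (.g (nat_lit 1267) (.e (nat_lit 2383) (nat_lit 155) (.e (nat_lit 811028) (nat_lit 9) (.e (nat_lit 303127) (nat_lit 9) (.e (nat_lit 426428) (nat_lit 17) (.e (nat_lit 98048) (nat_lit 6) .nil))))) .nil)) 
(.lf (nat_lit 92896) (.g (nat_lit 1490) (.e (nat_lit 2384) (nat_lit 155) (.e (nat_lit 811029) (nat_lit 9) (.e (nat_lit 303139) (nat_lit 10) (.e (nat_lit 434241) (nat_lit 27) (.e (nat_lit 565269) (nat_lit 6) (.e (nat_lit 81933) (nat_lit 20) .nil)))))) (.g (nat_lit 0) .nil .nil)))) (.nd (nat_lit 5) 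
(.lf (nat_lit 92880) (.g (nat_lit 483) (.e (nat_lit 2384) (nat_lit 155) (.e (nat_lit 811011) (nat_lit 0) (.e (nat_lit 5779) (nat_lit 317) (.e (nat_lit 180241) (nat_lit 4) (.e (nat_lit 532224) (nat_lit 28) (.e (nat_lit 352285) (nat_lit 20) .nil)))))) (.g (nat_lit 4) .nil .nil))) 
(.lf (nat_lit 92912) (.g (nat_lit 403) (.e (nat_lit 2390) (nat_lit 156) (.e (nat_lit 819204) (nat_lit 0) (.e (nat_lit 3004) (nat_lit 186) .nil))) .nil)))) (.nd (nat_lit 4) (.nd (nat_lit 5) 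
(.lf (nat_lit 92872) (.g (nat_lit 439) (.e (nat_lit 2384) (nat_lit 155) (.e (nat_lit 811009) (nat_lit 0) (.e (nat_lit 5777) (nat_lit 317) (.e (nat_lit 180248) (nat_lit 9) (.e (nat_lit 573184) (nat_lit 6) (.e (nat_lit 81933) (nat_lit 20) .nil)))))) (.g (nat_lit 4) .nil .nil))) 
(.lf (nat_lit 92904) (.g (nat_lit 151) (.e (nat_lit 2389) (nat_lit 156) (.e (nat_lit 819203) (nat_lit 0) (.e (nat_lit 3027) (nat_lit 187) .nil))) .nil))) (.nd (nat_lit 5) 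
(.lf (nat_lit 92888) (.g (nat_lit 445) (.e (nat_lit 2384) (nat_lit 155) (.e (nat_lit 811012) (nat_lit 0) (.e (nat_lit 5779) (nat_lit 317) (.e (nat_lit 180241) (nat_lit 4) (.e (nat_lit 532224) (nat_lit 28) (.e (nat_lit 352285) (nat_lit 20) .nil)))))) (.g (nat_lit 4) .nil .nil))) 
(.lf (nat_lit 92920) (.g (nat_lit 1065) (.e (nat_lit 2390) (nat_lit 156) (.e (nat_lit 819223) (nat_lit 8) (.e (nat_lit 237605) (nat_lit 9) (.e (nat_lit 426432) (nat_lit 17) (.e (nat_lit 98048) (nat_lit 6) .nil))))) .nil))))) (.nd (nat_lit 3) (.nd (nat_lit 4) (.nd (nat_lit 5) 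
(.lf (nat_lit 92868) (.g (nat_lit 1637) (.e (nat_lit 2383) (nat_lit 155) (.e (nat_lit 811029) (nat_lit 9) (.e (nat_lit 303139) (nat_lit 10) (.e (nat_lit 434241) (nat_lit 27) (.e (nat_lit 565269) (nat_lit 6) (.e (nat_lit 81931) (nat_lit 20) .nil)))))) (.g (nat_lit 0) .nil .nil))) 
(.lf (nat_lit 92900) (.g (nat_lit 1312) (.e (nat_lit 2384) (nat_lit 155) (.e (nat_lit 811030) (nat_lit 10) (.e (nat_lit 311325) (nat_lit 9) (.e (nat_lit 426432) (nat_lit 17) (.e (nat_lit 98048) (nat_lit 6) .nil))))) .nil))) (.nd (nat_lit 5) 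
(.lf (nat_lit 92884) (.g (nat_lit 1075) (.e (nat_lit 2384) (nat_lit 155) (.e (nat_lit 811012) (nat_lit 0) (.e (nat_lit 5776) (nat_lit 317) (.e (nat_lit 180248) (nat_lit 9) (.e (nat_lit 565269) (nat_lit 6) (.e (nat_lit 81933) (nat_lit 20) .nil)))))) (.g (nat_lit 0) .nil .nil))) 
(.lf (nat_lit 92916) (.g (nat_lit 1539) (.e (nat_lit 2390) (nat_lit 156) (.e (nat_lit 819219) (nat_lit 4) (.e (nat_lit 172112) (nat_lit 10) (.e (nat_lit 434241) (nat_lit 27) (.e (nat_lit 565269) (nat_lit 6) (.e (nat_lit 81947) (nat_lit 20) .nil)))))) (.g (nat_lit 5) .nil .nil))))) (.nd (nat_lit 4) (.nd (nat_lit 5) 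
(.lf (nat_lit 92876) (.g (nat_lit 24) (.e (nat_lit 2384) (nat_lit 155) (.e (nat_lit 811010) (nat_lit 0) (.e (nat_lit 5773) (nat_lit 316) .nil))) .nil)) 
(.lf (nat_lit 92908) (.g (nat_lit 1120) (.e (nat_lit 2390) (nat_lit 156) (.e (nat_lit 819203) (nat_lit 0) (.e (nat_lit 3027) (nat_lit 187) (.e (nat_lit 450584) (nat_lit 9) (.e (nat_lit 573184) (nat_lit 6) .nil))))) .nil))) (.nd (nat_lit 5) 
(.lf (nat_lit 92892) (.g (nat_lit 1127) (.e (nat_lit 2384) (nat_lit 155) (.e (nat_lit 811027) (nat_lit 9) (.e (nat_lit 303127) (nat_lit 9) (.e (nat_lit 426428) (nat_lit 17) (.e (nat_lit 98048) (nat_lit 6) .nil))))) .nil)) 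
(.lf (nat_lit 92924) (.g (nat_lit 2498) (.e (nat_lit 2391) (nat_lit 156) (.e (nat_lit 819204) (nat_lit 0) (.e (nat_lit 2668) (nat_lit 167) (.e (nat_lit 196630) (nat_lit 9) (.e (nat_lit 1543) (nat_lit 109) .nil))))) .nil)))))) (.nd (nat_lit 2) (.nd (nat_lit 3) (.nd (nat_lit 4) (.nd (nat_lit 5) 
(.lf (nat_lit 92866) (.g (nat_lit 1827) (.e (nat_lit 2383) (nat_lit 155) (.e (nat_lit 811029) (nat_lit 9) (.e (nat_lit 303137) (nat_lit 10) (.e (nat_lit 434241) (nat_lit 27) (.e (nat_lit 565269) (nat_lit 6) (.e (nat_lit 81931) (nat_lit 20) .nil)))))) (.g (nat_lit 6) .nil .nil))) 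
(.lf (nat_lit 92898) (.g (nat_lit 924) (.e (nat_lit 2384) (nat_lit 155) (.e (nat_lit 811030) (nat_lit 10) (.e (nat_lit 311324) (nat_lit 9) (.e (nat_lit 426428) (nat_lit 17) (.e (nat_lit 98048) (nat_lit 6) .nil))))) .nil))) (.nd (nat_lit 5) 
(.lf (nat_lit 92882) (.g (nat_lit 1040) (.e (nat_lit 2384) (nat_lit 155) (.e (nat_lit 811011) (nat_lit 0) (.e (nat_lit 5780) (nat_lit 317) (.e (nat_lit 180248) (nat_lit 9) (.e (nat_lit 565269) (nat_lit 6) (.e (nat_lit 81934) (nat_lit 20) .nil)))))) (.g (nat_lit 0) .nil .nil))) 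
(.lf (nat_lit 92914) (.g (nat_lit 1705) (.e (nat_lit 2390) (nat_lit 156) (.e (nat_lit 819219) (nat_lit 4) (.e (nat_lit 172107) (nat_lit 10) (.e (nat_lit 434241) (nat_lit 27) (.e (nat_lit 565269) (nat_lit 6) (.e (nat_lit 81943) (nat_lit 20) .nil)))))) (.g (nat_lit 6) .nil .nil))))) (.nd (nat_lit 4) (.nd (nat_lit 5) 
(.lf (nat_lit 92874) (.g (nat_lit 462) (.e (nat_lit 2384) (nat_lit 155) (.e (nat_lit 811009) (nat_lit 0) (.e (nat_lit 5779) (nat_lit 317) (.e (nat_lit 180241) (nat_lit 4) (.e (nat_lit 524340) (nat_lit 28) .nil))))) .nil)) 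
(.lf (nat_lit 92906) (.g (nat_lit 84) (.e (nat_lit 2389) (nat_lit 156) (.e (nat_lit 819221) (nat_lit 6) (.e (nat_lit 196352) (nat_lit 2) .nil))) .nil))) (.nd (nat_lit 5) 
(.lf (nat_lit 92890) (.g (nat_lit 1200) (.e (nat_lit 2384) (nat_lit 155) (.e (nat_lit 811012) (nat_lit 0) (.e (nat_lit 5779) (nat_lit 317) (.e (nat_lit 180248) (nat_lit 9) (.e (nat_lit 565269) (nat_lit 6) (.e (nat_lit 81934) (nat_lit 20) .nil)))))) (.g (nat_lit 0) .nil .nil))) 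
(.lf (nat_lit 92922) (.g (nat_lit 1403) (.e (nat_lit 2391) (nat_lit 156) (.e (nat_lit 819203) (nat_lit 0) (.e (nat_lit 3015) (nat_lit 187) (.e (nat_lit 450562) (nat_lit 0) (.e (nat_lit 4093) (nat_lit 245) .nil))))) .nil))))) (.nd (nat_lit 3) (.nd (nat_lit 4) (.nd (nat_lit 5) 
(.lf (nat_lit 92870) (.g (nat_lit 921) (.e (nat_lit 2383) (nat_lit 155) (.e (nat_lit 811030) (nat_lit 10) (.e (nat_lit 311324) (nat_lit 9) (.e (nat_lit 426428) (nat_lit 17) (.e (nat_lit 98048) (nat_lit 6) .nil))))) .nil)) 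
(.lf (nat_lit 92902) (.g (nat_lit 2104) (.e (nat_lit 2388) (nat_lit 156) (.e (nat_lit 819237) (nat_lit 11) (.e (nat_lit 16438) (nat_lit 9) (.e (nat_lit 426482) (nat_lit 27) (.e (nat_lit 336060) (nat_lit 7) .nil))))) .nil))) (.nd (nat_lit 5) 
(.lf (nat_lit 92886) (.g (nat_lit 961) (.e (nat_lit 2384) (nat_lit 155) (.e (nat_lit 811012) (nat_lit 0) (.e (nat_lit 5777) (nat_lit 317) (.e (nat_lit 180248) (nat_lit 9) (.e (nat_lit 565269) (nat_lit 6) (.e (nat_lit 81933) (nat_lit 20) .nil)))))) (.g (nat_lit 0) .nil .nil))) 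
(.lf (nat_lit 92918) (.g (nat_lit 1707) (.e (nat_lit 2390) (nat_lit 156) (.e (nat_lit 819219) (nat_lit 4) (.e (nat_lit 172116) (nat_lit 10) (.e (nat_lit 434241) (nat_lit 27) (.e (nat_lit 565269) (nat_lit 6) (.e (nat_lit 81943) (nat_lit 20) .nil)))))) (.g (nat_lit 6) .nil .nil))))) (.nd (nat_lit 4) (.nd (nat_lit 5) 
(.lf (nat_lit 92878) (.g (nat_lit 1178) (.e (nat_lit 2384) (nat_lit 155) (.e (nat_lit 811011) (nat_lit 0) (.e (nat_lit 5776) (nat_lit 317) (.e (nat_lit 180248) (nat_lit 9) (.e (nat_lit 565269) (nat_lit 6) (.e (nat_lit 81934) (nat_lit 20) .nil)))))) (.g (nat_lit 0) .nil .nil))) 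
(.lf (nat_lit 92910) (.g (nat_lit 404) (.e (nat_lit 2390) (nat_lit 156) (.e (nat_lit 819204) (nat_lit 0) (.e (nat_lit 2989) (nat_lit 186) .nil))) .nil))) (.nd (nat_lit 5) 
(.lf (nat_lit 92894) (.g (nat_lit 1274) (.e (nat_lit 2384) (nat_lit 155) (.e (nat_lit 811029) (nat_lit 9) (.e (nat_lit 303127) (nat_lit 9) (.e (nat_lit 426428) (nat_lit 17) (.e (nat_lit 98048) (nat_lit 6) .nil))))) .nil)) 
(.lf (nat_lit 92926) (.g (nat_lit 2521) (.e (nat_lit 2391) (nat_lit 156) (.e (nat_lit 819204) (nat_lit 0) (.e (nat_lit 2668) (nat_lit 167) (.e (nat_lit 196670) (nat_lit 14) (.e (nat_lit 73754) (nat_lit 8) .nil))))) .nil))))))) (.nd (nat_lit 1) (.nd (nat_lit 2) (.nd (nat_lit 3) (.nd (nat_lit 4) (.nd (nat_lit 5) 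
(.lf (nat_lit 92865) (.g (nat_lit 1290) (.e (nat_lit 2383) (nat_lit 155) (.e (nat_lit 811029) (nat_lit 9) (.e (nat_lit 303127) (nat_lit 9) (.e (nat_lit 426428) (nat_lit 17) (.e (nat_lit 98048) (nat_lit 6) .nil))))) .nil)) 
(.lf (nat_lit 92897) (.g (nat_lit 1526) (.e (nat_lit 2384) (nat_lit 155) (.e (nat_lit 811029) (nat_lit 9) (.e (nat_lit 303139) (nat_lit 10) (.e (nat_lit 434241) (nat_lit 27) (.e (nat_lit 565269) (nat_lit 6) (.e (nat_lit 81934) (nat_lit 20) .nil)))))) (.g (nat_lit 0) .nil .nil)))) (.nd (nat_lit 5) 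
(.lf (nat_lit 92881) (.g (nat_lit 1237) (.e (nat_lit 2384) (nat_lit 155) (.e (nat_lit 811011) (nat_lit 0) (.e (nat_lit 5779) (nat_lit 317) (.e (nat_lit 180248) (nat_lit 9) (.e (nat_lit 565269) (nat_lit 6) (.e (nat_lit 81934) (nat_lit 20) .nil)))))) (.g (nat_lit 0) .nil .nil))) 
(.lf (nat_lit 92913) (.g (nat_lit 2109) (.e (nat_lit 2390) (nat_lit 156) (.e (nat_lit 819219) (nat_lit 4) (.e (nat_lit 172106) (nat_lit 10) (.e (nat_lit 434241) (nat_lit 27) (.e (nat_lit 565269) (nat_lit 6) (.e (nat_lit 81943) (nat_lit 20) .nil)))))) (.g (nat_lit 0) .nil .nil))))) (.nd (nat_lit 4) (.nd (nat_lit 5) 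
(.lf (nat_lit 92873) (.g (nat_lit 327) (.e (nat_lit 2384) (nat_lit 155) (.e (nat_lit 811009) (nat_lit 0) (.e (nat_lit 5779) (nat_lit 317) (.e (nat_lit 188160) (nat_lit 3) .nil)))) .nil)) 
(.lf (nat_lit 92905) (.g (nat_lit 1619) (.e (nat_lit 2389) (nat_lit 156) (.e (nat_lit 819219) (nat_lit 4) (.e (nat_lit 172094) (nat_lit 9) (.e (nat_lit 426125) (nat_lit 2) (.e (nat_lit 204544) (nat_lit 0) .nil))))) .nil))) (.nd (nat_lit 5) 
(.lf (nat_lit 92889) (.g (nat_lit 1150) (.e (nat_lit 2384) (nat_lit 155) (.e (nat_lit 811012) (nat_lit 0) (.e (nat_lit 5779) (nat_lit 317) (.e (nat_lit 180248) (nat_lit 9) (.e (nat_lit 565269) (nat_lit 6) (.e (nat_lit 81933) (nat_lit 20) .nil)))))) (.g (nat_lit 0) .nil .nil))) 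
(.lf (nat_lit 92921) (.g (nat_lit 1083) (.e (nat_lit 2390) (nat_lit 156) (.e (nat_lit 819223) (nat_lit 8) (.e (nat_lit 237605) (nat_lit 9) (.e (nat_lit 426432) (nat_lit 17) (.e (nat_lit 98048) (nat_lit 6) (.e (nat_lit 81943) (nat_lit 20) .nil)))))) (.g (nat_lit 4) .nil .nil)))))) (.nd (nat_lit 3) (.nd (nat_lit 4) (.nd (nat_lit 5) 
(.lf (nat_lit 92869) (.g (nat_lit 1979) (.e (nat_lit 2383) (nat_lit 155) (.e (nat_lit 811029) (nat_lit 9) (.e (nat_lit 303140) (nat_lit 10) (.e (nat_lit 434241) (nat_lit 27) (.e (nat_lit 565269) (nat_lit 6) (.e (nat_lit 81931) (nat_lit 20) .nil)))))) (.g (nat_lit 0) .nil .nil))) 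
(.lf (nat_lit 92901) (.g (nat_lit 1155) (.e (nat_lit 7936) (nat_lit 155) (.e (nat_lit 811021) (nat_lit 2) (.e (nat_lit 32788) (nat_lit 10) (.e (nat_lit 73755) (nat_lit 8) (.e (nat_lit 557098) (nat_lit 13) .nil))))) .nil))) (.nd (nat_lit 5) 
(.lf (nat_lit 92885) (.g (nat_lit 1125) (.e (nat_lit 2384) (nat_lit 155) (.e (nat_lit 811012) (nat_lit 0) (.e (nat_lit 5776) (nat_lit 317) (.e (nat_lit 180248) (nat_lit 9) (.e (nat_lit 565269) (nat_lit 6) (.e (nat_lit 81934) (nat_lit 20) .nil)))))) (.g (nat_lit 0) .nil .nil))) 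
(.lf (nat_lit 92917) (.g (nat_lit 2043) (.e (nat_lit 2390) (nat_lit 156) (.e (nat_lit 819219) (nat_lit 4) (.e (nat_lit 172113) (nat_lit 10) (.e (nat_lit 434241) (nat_lit 27) (.e (nat_lit 565269) (nat_lit 6) (.e (nat_lit 81943) (nat_lit 20) .nil)))))) (.g (nat_lit 0) .nil .nil))))) (.nd (nat_lit 4) (.nd (nat_lit 5) 
(.lf (nat_lit 92877) (.g (nat_lit 443) (.e (nat_lit 2384) (nat_lit 155) (.e (nat_lit 811011) (nat_lit 0) (.e (nat_lit 5776) (nat_lit 317) (.e (nat_lit 180241) (nat_lit 4) (.e (nat_lit 532224) (nat_lit 28) (.e (nat_lit 352285) (nat_lit 20) .nil)))))) (.g (nat_lit 4) .nil .nil))) 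
(.lf (nat_lit 92909) (.g (nat_lit 1622) (.e (nat_lit 2390) (nat_lit 156) (.e (nat_lit 819204) (nat_lit 0) (.e (nat_lit 2685) (nat_lit 168) (.e (nat_lit 204863) (nat_lit 27) (.e (nat_lit 344130) (nat_lit 26) .nil))))) .nil))) (.nd (nat_lit 5) 
(.lf (nat_lit 92893) (.g (nat_lit 1272) (.e (nat_lit 2384) (nat_lit 155) (.e (nat_lit 811028) (nat_lit 9) (.e (nat_lit 303127) (nat_lit 9) (.e (nat_lit 426428) (nat_lit 17) (.e (nat_lit 98048) (nat_lit 6) .nil))))) .nil)) 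
(.lf (nat_lit 92925) (.g (nat_lit 2414) (.e (nat_lit 2391) (nat_lit 156) (.e (nat_lit 819204) (nat_lit 0) (.e (nat_lit 2668) (nat_lit 167) (.e (nat_lit 196630) (nat_lit 9) (.e (nat_lit 1549) (nat_lit 109) .nil))))) .nil)))))) (.nd (nat_lit 2) (.nd (nat_lit 3) (.nd (nat_lit 4) (.nd (nat_lit 5) 
(.lf (nat_lit 92867) (.g (nat_lit 1741) (.e (nat_lit 2383) (nat_lit 155) (.e (nat_lit 811029) (nat_lit 9) (.e (nat_lit 303138) (nat_lit 10) (.e (nat_lit 434241) (nat_lit 27) (.e (nat_lit 565269) (nat_lit 6) (.e (nat_lit 81931) (nat_lit 20) .nil)))))) (.g (nat_lit 0) .nil .nil))) 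
(.lf (nat_lit 92899) (.g (nat_lit 951) (.e (nat_lit 2384) (nat_lit 155) (.e (nat_lit 811030) (nat_lit 10) (.e (nat_lit 311324) (nat_lit 9) (.e (nat_lit 426432) (nat_lit 17) (.e (nat_lit 98048) (nat_lit 6) .nil))))) .nil))) (.nd (nat_lit 5) 
(.lf (nat_lit 92883) (.g (nat_lit 391) (.e (nat_lit 2384) (nat_lit 155) (.e (nat_lit 811012) (nat_lit 0) (.e (nat_lit 5776) (nat_lit 317) (.e (nat_lit 180241) (nat_lit 4) (.e (nat_lit 532224) (nat_lit 28) (.e (nat_lit 352285) (nat_lit 20) .nil)))))) (.g (nat_lit 4) .nil .nil))) 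
(.lf (nat_lit 92915) (.g (nat_lit 1637) (.e (nat_lit 2390) (nat_lit 156) (.e (nat_lit 819219) (nat_lit 4) (.e (nat_lit 172112) (nat_lit 10) (.e (nat_lit 434241) (nat_lit 27) (.e (nat_lit 565269) (nat_lit 6) (.e (nat_lit 81943) (nat_lit 20) .nil)))))) (.g (nat_lit 6) .nil .nil))))) (.nd (nat_lit 4) (.nd (nat_lit 5) 
(.lf (nat_lit 92875) (.g (nat_lit 635) (.e (nat_lit 2384) (nat_lit 155) (.e (nat_lit 811009) (nat_lit 0) (.e (nat_lit 5779) (nat_lit 317) (.e (nat_lit 180241) (nat_lit 4) (.e (nat_lit 524340) (nat_lit 28) (.e (nat_lit 352283) (nat_lit 20) .nil)))))) (.g (nat_lit 4) .nil .nil))) 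
(.lf (nat_lit 92907) (.g (nat_lit 478) (.e (nat_lit 2390) (nat_lit 156) (.e (nat_lit 819203) (nat_lit 0) (.e (nat_lit 2999) (nat_lit 186) (.e (nat_lit 450304) (nat_lit 2) .nil)))) .nil))) (.nd (nat_lit 5) 
(.lf (nat_lit 92891) (.g (nat_lit 994) (.e (nat_lit 2384) (nat_lit 155) (.e (nat_lit 811012) (nat_lit 0) (.e (nat_lit 5780) (nat_lit 317) (.e (nat_lit 180248) (nat_lit 9) (.e (nat_lit 565269) (nat_lit 6) (.e (nat_lit 81934) (nat_lit 20) .nil)))))) (.g (nat_lit 0) .nil .nil))) 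
(.lf (nat_lit 92923) (.g (nat_lit 2498) (.e (nat_lit 2391) (nat_lit 156) (.e (nat_lit 819204) (nat_lit 0) (.e (nat_lit 2668) (nat_lit 167) (.e (nat_lit 196630) (nat_lit 9) (.e (nat_lit 1529) (nat_lit 109) .nil))))) .nil))))) (.nd (nat_lit 3) (.nd (nat_lit 4) (.nd (nat_lit 5) 
(.lf (nat_lit 92871) (.g (nat_lit 937) (.e (nat_lit 2384) (nat_lit 155) (.e (nat_lit 811009) (nat_lit 0) (.e (nat_lit 5777) (nat_lit 317) (.e (nat_lit 180248) (nat_lit 9) (.e (nat_lit 565269) (nat_lit 6) (.e (nat_lit 81933) (nat_lit 20) .nil)))))) (.g (nat_lit 5) .nil .nil))) 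
(.lf (nat_lit 92903) (.g (nat_lit 642) (.e (nat_lit 2389) (nat_lit 156) (.e (nat_lit 819203) (nat_lit 0) (.e (nat_lit 3022) (nat_lit 187) (.e (nat_lit 458496) (nat_lit 3) .nil)))) .nil))) (.nd (nat_lit 5) 
(.lf (nat_lit 92887) (.g (nat_lit 1009) (.e (nat_lit 2384) (nat_lit 155) (.e (nat_lit 811012) (nat_lit 0) (.e (nat_lit 5777) (nat_lit 317) (.e (nat_lit 180248) (nat_lit 9) (.e (nat_lit 565269) (nat_lit 6) (.e (nat_lit 81934) (nat_lit 20) .nil)))))) (.g (nat_lit 0) .nil .nil))) 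
(.lf (nat_lit 92919) (.g (nat_lit 706) (.e (nat_lit 2390) (nat_lit 156) (.e (nat_lit 819221) (nat_lit 6) (.e (nat_lit 188434) (nat_lit 20) (.e (nat_lit 3288) (nat_lit 201) (.e (nat_lit 565269) (nat_lit 6) .nil))))) .nil)))) (.nd (nat_lit 4) (.nd (nat_lit 5) 
(.lf (nat_lit 92879) (.g (nat_lit 1063) (.e (nat_lit 2384) (nat_lit 155) (.e (nat_lit 811011) (nat_lit 0) (.e (nat_lit 5777) (nat_lit 317) (.e (nat_lit 180248) (nat_lit 9) (.e (nat_lit 565269) (nat_lit 6) (.e (nat_lit 81934) (nat_lit 20) .nil)))))) (.g (nat_lit 0) .nil .nil))) 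
(.lf (nat_lit 92911) (.g (nat_lit 422) (.e (nat_lit 2390) (nat_lit 156) (.e (nat_lit 819204) (nat_lit 0) (.e (nat_lit 2998) (nat_lit 186) .nil))) .nil))) (.nd (nat_lit 5) 
(.lf (nat_lit 92895) (.g (nat_lit 1408) (.e (nat_lit 2384) (nat_lit 155) (.e (nat_lit 811029) (nat_lit 9) (.e (nat_lit 303127) (nat_lit 9) (.e (nat_lit 426428) (nat_lit 17) (.e (nat_lit 98048) (nat_lit 6) (.e (nat_lit 81931) (nat_lit 20) .nil)))))) (.g (nat_lit 4) .nil .nil))) 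
(.lf (nat_lit 92927) (.g (nat_lit 1908) (.e (nat_lit 2391) (nat_lit 156) (.e (nat_lit 819218) (nat_lit 4) (.e (nat_lit 172113) (nat_lit 10) (.e (nat_lit 434241) (nat_lit 27) (.e (nat_lit 565269) (nat_lit 6) (.e (nat_lit 81943) (nat_lit 20) .nil)))))) (.g (nat_lit 5) .nil .nil)))))))))

noncomputable def tv1274 : DT := (.nd (nat_lit 0) (.nd (nat_lit 1) (.nd (nat_lit 2) (.nd (nat_lit 3) (.nd (nat_lit 4) (.nd (nat_lit 5) 
(.lf (nat_lit 92928) (.g (nat_lit 856) (.e (nat_lit 2391) (nat_lit 156) (.e (nat_lit 819219) (nat_lit 4) (.e (nat_lit 172087) (nat_lit 9) (.e (nat_lit 426428) (nat_lit 17) (.e (nat_lit 98048) (nat_lit 6) .nil))))) .nil)) 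
(.lf (nat_lit 92960) (.g (nat_lit 3391) (.e (nat_lit 2397) (nat_lit 157) (.e (nat_lit 6931) (nat_lit 373) (.e (nat_lit 57372) (nat_lit 2) (.e (nat_lit 90176) (nat_lit 15) (.e (nat_lit 188450) (nat_lit 23) (.e (nat_lit 204852) (nat_lit 26) (.e (nat_lit 336257) (nat_lit 15) .nil))))))) (.g (nat_lit 0) .nil .nil)))) (.nd (nat_lit 5) 
(.lf (nat_lit 92944) (.g (nat_lit 1960) (.e (nat_lit 2391) (nat_lit 156) (.e (nat_lit 819237) (nat_lit 11) (.e (nat_lit 16468) (nat_lit 13) (.e (nat_lit 483372) (nat_lit 21) (.e (nat_lit 319533) (nat_lit 16) (.e (nat_lit 286720) (nat_lit 0) .nil)))))) (.g (nat_lit 4) .nil .nil))) 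
(.lf (nat_lit 92976) (.g (nat_lit 1435) (.e (nat_lit 2397) (nat_lit 157) (.e (nat_lit 7592) (nat_lit 407) (.e (nat_lit 73754) (nat_lit 8) (.e (nat_lit 557074) (nat_lit 9) (.e (nat_lit 7936) (nat_lit 26) .nil))))) .nil)))) (.nd (nat_lit 4) (.nd (nat_lit 5) 
(.lf (nat_lit 92936) (.g (nat_lit 1541) (.e (nat_lit 2391) (nat_lit 156) (.e (nat_lit 819223) (nat_lit 8) (.e (nat_lit 237605) (nat_lit 9) (.e (nat_lit 426432) (nat_lit 17) (.e (nat_lit 98048) (nat_lit 6) (.e (nat_lit 81938) (nat_lit 20) .nil)))))) (.g (nat_lit 4) .nil .nil))) 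
(.lf (nat_lit 92968) (.g (nat_lit 3127) (.e (nat_lit 2397) (nat_lit 157) (.e (nat_lit 7587) (nat_lit 406) (.e (nat_lit 65571) (nat_lit 3) (.e (nat_lit 98350) (nat_lit 24) (.e (nat_lit 409617) (nat_lit 10) (.e (nat_lit 5355) (nat_lit 298) (.e (nat_lit 1235) (nat_lit 91) (.e (nat_lit 90133) (nat_lit 9) .nil)))))))) (.g (nat_lit 5) .nil .nil)))) (.nd (nat_lit 5) 
(.lf (nat_lit 92952) (.g (nat_lit 589) (.e (nat_lit 2397) (nat_lit 157) (.e (nat_lit 5270) (nat_lit 298) (.e (nat_lit 1256) (nat_lit 92) .nil))) .nil)) 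
(.lf (nat_lit 92984) (.g (nat_lit 1461) (.e (nat_lit 2398) (nat_lit 157) (.e (nat_lit 5943) (nat_lit 322) (.e (nat_lit 57372) (nat_lit 2) (.e (nat_lit 90176) (nat_lit 15) (.e (nat_lit 196352) (nat_lit 18) (.e (nat_lit 393234) (nat_lit 17) .nil)))))) (.g (nat_lit 4) .nil .nil)))))) (.nd (nat_lit 3) (.nd (nat_lit 4) (.nd (nat_lit 5) 
(.lf (nat_lit 92932) (.g (nat_lit 932) (.e (nat_lit 2391) (nat_lit 156) (.e (nat_lit 819219) (nat_lit 4) (.e (nat_lit 172113) (nat_lit 10) (.e (nat_lit 434239) (nat_lit 27) .nil)))) .nil)) 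
(.lf (nat_lit 92964) (.g (nat_lit 2065) (.e (nat_lit 2397) (nat_lit 157) (.e (nat_lit 7065) (nat_lit 377) (.e (nat_lit 1348) (nat_lit 102) (.e (nat_lit 286735) (nat_lit 3) (.e (nat_lit 98359) (nat_lit 26) .nil))))) .nil))) (.nd (nat_lit 5) 
(.lf (nat_lit 92948) (.g (nat_lit 1889) (.e (nat_lit 2397) (nat_lit 157) (.e (nat_lit 232) (nat_lit 21) (.e (nat_lit 336060) (nat_lit 7) (.e (nat_lit 319505) (nat_lit 10) (.e (nat_lit 7936) (nat_lit 45) (.e (nat_lit 532550) (nat_lit 12) (.e (nat_lit 360451) (nat_lit 0) (.e (nat_lit 4046) (nat_lit 245) .nil)))))))) (.g (nat_lit 4) .nil .nil))) 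
(.lf (nat_lit 92980) (.g (nat_lit 1416) (.e (nat_lit 2397) (nat_lit 157) (.e (nat_lit 7593) (nat_lit 407) (.e (nat_lit 73754) (nat_lit 8) (.e (nat_lit 557072) (nat_lit 9) .nil)))) .nil)))) (.nd (nat_lit 4) (.nd (nat_lit 5) 
(.lf (nat_lit 92940) (.g (nat_lit 2804) (.e (nat_lit 2391) (nat_lit 156) (.e (nat_lit 819237) (nat_lit 11) (.e (nat_lit 16436) (nat_lit 9) (.e (nat_lit 426482) (nat_lit 27) (.e (nat_lit 336060) (nat_lit 7) (.e (nat_lit 319533) (nat_lit 16) (.e (nat_lit 286724) (nat_lit 0) .nil))))))) (.g (nat_lit 4) .nil .nil))) 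
(.lf (nat_lit 92972) (.g (nat_lit 1610) (.e (nat_lit 2397) (nat_lit 157) (.e (nat_lit 7590) (nat_lit 407) (.e (nat_lit 73755) (nat_lit 8) (.e (nat_lit 557067) (nat_lit 9) (.e (nat_lit 7936) (nat_lit 26) .nil))))) .nil))) (.nd (nat_lit 5) 
(.lf (nat_lit 92956) (.g (nat_lit 1613) (.e (nat_lit 2397) (nat_lit 157) (.e (nat_lit 5944) (nat_lit 322) (.e (nat_lit 57447) (nat_lit 19) (.e (nat_lit 393281) (nat_lit 23) (.e (nat_lit 426115) (nat_lit 2) (.e (nat_lit 196656) (nat_lit 11) (.e (nat_lit 16392) (nat_lit 0) .nil))))))) (.g (nat_lit 4) .nil .nil))) 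
(.lf (nat_lit 92988) (.g (nat_lit 1121) (.e (nat_lit 2398) (nat_lit 157) (.e (nat_lit 5943) (nat_lit 322) (.e (nat_lit 57379) (nat_lit 3) (.e (nat_lit 98369) (nat_lit 28) (.e (nat_lit 450304) (nat_lit 18) .nil))))) .nil)))))) (.nd (nat_lit 2) (.nd (nat_lit 3) (.nd (nat_lit 4) (.nd (nat_lit 5) 
(.lf (nat_lit 92930) (.g (nat_lit 2541) (.e (nat_lit 2391) (nat_lit 156) (.e (nat_lit 819219) (nat_lit 4) (.e (nat_lit 172106) (nat_lit 10) (.e (nat_lit 434241) (nat_lit 27) (.e (nat_lit 565269) (nat_lit 6) (.e (nat_lit 81942) (nat_lit 20) .nil)))))) (.g (nat_lit 0) .nil .nil))) 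
(.lf (nat_lit 92962) (.g (nat_lit 1628) (.e (nat_lit 2397) (nat_lit 157) (.e (nat_lit 7064) (nat_lit 377) (.e (nat_lit 1348) (nat_lit 102) (.e (nat_lit 286733) (nat_lit 2) (.e (nat_lit 90172) (nat_lit 14) .nil))))) .nil))) (.nd (nat_lit 5) 
(.lf (nat_lit 92946) (.g (nat_lit 3019) (.e (nat_lit 2391) (nat_lit 156) (.e (nat_lit 819237) (nat_lit 11) (.e (nat_lit 16468) (nat_lit 13) (.e (nat_lit 483372) (nat_lit 21) (.e (nat_lit 319534) (nat_lit 16) (.e (nat_lit 286724) (nat_lit 0) .nil)))))) (.g (nat_lit 5) .nil .nil))) 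
(.lf (nat_lit 92978) (.g (nat_lit 1690) (.e (nat_lit 2397) (nat_lit 157) (.e (nat_lit 7592) (nat_lit 407) (.e (nat_lit 73755) (nat_lit 8) (.e (nat_lit 557074) (nat_lit 9) (.e (nat_lit 7936) (nat_lit 26) .nil))))) .nil)))) (.nd (nat_lit 4) (.nd (nat_lit 5) 
(.lf (nat_lit 92938) (.g (nat_lit 2569) (.e (nat_lit 2391) (nat_lit 156) (.e (nat_lit 819237) (nat_lit 11) (.e (nat_lit 16433) (nat_lit 9) (.e (nat_lit 426482) (nat_lit 27) (.e (nat_lit 336060) (nat_lit 7) (.e (nat_lit 319534) (nat_lit 16) (.e (nat_lit 286728) (nat_lit 0) .nil))))))) (.g (nat_lit 4) .nil .nil))) 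
(.lf (nat_lit 92970) (.g (nat_lit 1471) (.e (nat_lit 2397) (nat_lit 157) (.e (nat_lit 7590) (nat_lit 407) (.e (nat_lit 73754) (nat_lit 8) (.e (nat_lit 557070) (nat_lit 9) (.e (nat_lit 7936) (nat_lit 23) .nil))))) .nil))) (.nd (nat_lit 5) 
(.lf (nat_lit 92954) (.g (nat_lit 2015) (.e (nat_lit 2397) (nat_lit 157) (.e (nat_lit 5941) (nat_lit 322) (.e (nat_lit 57447) (nat_lit 19) (.e (nat_lit 393281) (nat_lit 23) (.e (nat_lit 426115) (nat_lit 2) (.e (nat_lit 196656) (nat_lit 11) (.e (nat_lit 16392) (nat_lit 0) .nil))))))) (.g (nat_lit 4) .nil .nil))) 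
(.lf (nat_lit 92986) (.g (nat_lit 1730) (.e (nat_lit 2398) (nat_lit 157) (.e (nat_lit 5943) (nat_lit 322) (.e (nat_lit 57375) (nat_lit 2) (.e (nat_lit 90185) (nat_lit 17) (.e (nat_lit 237601) (nat_lit 9) .nil))))) .nil))))) (.nd (nat_lit 3) (.nd (nat_lit 4) (.nd (nat_lit 5) 
(.lf (nat_lit 92934) (.g (nat_lit 2455) (.e (nat_lit 2391) (nat_lit 156) (.e (nat_lit 819219) (nat_lit 4) (.e (nat_lit 172115) (nat_lit 10) (.e (nat_lit 434241) (nat_lit 27) (.e (nat_lit 565269) (nat_lit 6) (.e (nat_lit 81942) (nat_lit 20) .nil)))))) (.g (nat_lit 0) .nil .nil))) 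
(.lf (nat_lit 92966) (.g (nat_lit 2685) (.e (nat_lit 2397) (nat_lit 157) (.e (nat_lit 7236) (nat_lit 382) (.e (nat_lit 1199) (nat_lit 88) (.e (nat_lit 65571) (nat_lit 3) (.e (nat_lit 98370) (nat_lit 28) (.e (nat_lit 450304) (nat_lit 3) (.e (nat_lit 98323) (nat_lit 17) .nil))))))) (.g (nat_lit 5) .nil .nil)))) (.nd (nat_lit 5) 
(.lf (nat_lit 92950) (.g (nat_lit 1601) (.e (nat_lit 2397) (nat_lit 157) (.e (nat_lit 3605) (nat_lit 225) (.e (nat_lit 761905) (nat_lit 16) (.e (nat_lit 179968) (nat_lit 34) .nil)))) .nil)) 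
(.lf (nat_lit 92982) (.g (nat_lit 1061) (.e (nat_lit 2398) (nat_lit 157) (.e (nat_lit 5940) (nat_lit 322) (.e (nat_lit 57379) (nat_lit 3) (.e (nat_lit 98369) (nat_lit 28) (.e (nat_lit 450304) (nat_lit 18) .nil))))) .nil)))) (.nd (nat_lit 4) (.nd (nat_lit 5) 
(.lf (nat_lit 92942) (.g (nat_lit 3924) (.e (nat_lit 2391) (nat_lit 156) (.e (nat_lit 819237) (nat_lit 11) (.e (nat_lit 16438) (nat_lit 9) (.e (nat_lit 426482) (nat_lit 27) (.e (nat_lit 336060) (nat_lit 7) (.e (nat_lit 319533) (nat_lit 16) (.e (nat_lit 286724) (nat_lit 0) .nil))))))) (.g (nat_lit 7) .nil .nil))) 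
(.lf (nat_lit 92974) (.g (nat_lit 1709) (.e (nat_lit 2397) (nat_lit 157) (.e (nat_lit 7592) (nat_lit 407) (.e (nat_lit 73754) (nat_lit 8) (.e (nat_lit 557070) (nat_lit 9) (.e (nat_lit 333) (nat_lit 26) (.e (nat_lit 376862) (nat_lit 22) (.e (nat_lit 90133) (nat_lit 9) .nil))))))) (.g (nat_lit 4) .nil .nil)))) (.nd (nat_lit 5) 
(.lf (nat_lit 92958) (.g (nat_lit 2065) (.e (nat_lit 2397) (nat_lit 157) (.e (nat_lit 5954) (nat_lit 322) (.e (nat_lit 57445) (nat_lit 19) (.e (nat_lit 393281) (nat_lit 23) (.e (nat_lit 426115) (nat_lit 2) (.e (nat_lit 196656) (nat_lit 11) (.e (nat_lit 16392) (nat_lit 0) .nil))))))) (.g (nat_lit 4) .nil .nil))) 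
(.lf (nat_lit 92990) (.g (nat_lit 1156) (.e (nat_lit 2398) (nat_lit 157) (.e (nat_lit 5968) (nat_lit 324) (.e (nat_lit 163871) (nat_lit 2) (.e (nat_lit 196668) (nat_lit 14) (.e (nat_lit 81664) (nat_lit 0) .nil))))) .nil))))))) (.nd (nat_lit 1) (.nd (nat_lit 2) (.nd (nat_lit 3) (.nd (nat_lit 4) (.nd (nat_lit 5) 
(.lf (nat_lit 92929) (.g (nat_lit 1983) (.e (nat_lit 2391) (nat_lit 156) (.e (nat_lit 819219) (nat_lit 4) (.e (nat_lit 172094) (nat_lit 9) (.e (nat_lit 426125) (nat_lit 2) (.e (nat_lit 204544) (nat_lit 0) (.e (nat_lit 314) (nat_lit 23) (.e (nat_lit 352290) (nat_lit 20) .nil))))))) (.g (nat_lit 4) .nil .nil))) 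
(.lf (nat_lit 92961) (.g (nat_lit 3515) (.e (nat_lit 2397) (nat_lit 157) (.e (nat_lit 6931) (nat_lit 373) (.e (nat_lit 57375) (nat_lit 2) (.e (nat_lit 90176) (nat_lit 15) (.e (nat_lit 188450) (nat_lit 23) (.e (nat_lit 204852) (nat_lit 26) (.e (nat_lit 336257) (nat_lit 15) .nil))))))) (.g (nat_lit 0) .nil .nil)))) (.nd (nat_lit 5) 
(.lf (nat_lit 92945) (.g (nat_lit 2947) (.e (nat_lit 2391) (nat_lit 156) (.e (nat_lit 819237) (nat_lit 11) (.e (nat_lit 16468) (nat_lit 13) (.e (nat_lit 483372) (nat_lit 21) (.e (nat_lit 319533) (nat_lit 16) (.e (nat_lit 286725) (nat_lit 0) .nil)))))) (.g (nat_lit 5) .nil .nil))) 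
(.lf (nat_lit 92977) (.g (nat_lit 1690) (.e (nat_lit 2397) (nat_lit 157) (.e (nat_lit 7592) (nat_lit 407) (.e (nat_lit 73755) (nat_lit 8) (.e (nat_lit 557074) (nat_lit 9) (.e (nat_lit 7936) (nat_lit 23) .nil))))) .nil)))) (.nd (nat_lit 4) (.nd (nat_lit 5) 
(.lf (nat_lit 92937) (.g (nat_lit 1199) (.e (nat_lit 2391) (nat_lit 156) (.e (nat_lit 819223) (nat_lit 8) (.e (nat_lit 237605) (nat_lit 9) (.e (nat_lit 426432) (nat_lit 17) (.e (nat_lit 98048) (nat_lit 6) (.e (nat_lit 81947) (nat_lit 20) .nil)))))) (.g (nat_lit 4) .nil .nil))) 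
(.lf (nat_lit 92969) (.g (nat_lit 1572) (.e (nat_lit 2397) (nat_lit 157) (.e (nat_lit 7590) (nat_lit 407) (.e (nat_lit 73754) (nat_lit 8) (.e (nat_lit 557070) (nat_lit 9) (.e (nat_lit 313) (nat_lit 23) (.e (nat_lit 352312) (nat_lit 22) (.e (nat_lit 90133) (nat_lit 9) .nil))))))) (.g (nat_lit 4) .nil .nil)))) (.nd (nat_lit 5) 
(.lf (nat_lit 92953) (.g (nat_lit 1644) (.e (nat_lit 2397) (nat_lit 157) (.e (nat_lit 5940) (nat_lit 322) (.e (nat_lit 57448) (nat_lit 19) (.e (nat_lit 393281) (nat_lit 23) (.e (nat_lit 426115) (nat_lit 2) (.e (nat_lit 196656) (nat_lit 11) (.e (nat_lit 16392) (nat_lit 0) .nil))))))) (.g (nat_lit 4) .nil .nil))) 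
(.lf (nat_lit 92985) (.g (nat_lit 1369) (.e (nat_lit 2398) (nat_lit 157) (.e (nat_lit 5943) (nat_lit 322) (.e (nat_lit 57375) (nat_lit 2) (.e (nat_lit 90176) (nat_lit 15) (.e (nat_lit 196352) (nat_lit 18) .nil))))) .nil))))) (.nd (nat_lit 3) (.nd (nat_lit 4) (.nd (nat_lit 5) 
(.lf (nat_lit 92933) (.g (nat_lit 2391) (.e (nat_lit 2391) (nat_lit 156) (.e (nat_lit 819219) (nat_lit 4) (.e (nat_lit 172113) (nat_lit 10) (.e (nat_lit 434241) (nat_lit 27) (.e (nat_lit 565269) (nat_lit 6) (.e (nat_lit 81942) (nat_lit 20) .nil)))))) (.g (nat_lit 0) .nil .nil))) 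
(.lf (nat_lit 92965) (.g (nat_lit 1959) (.e (nat_lit 2397) (nat_lit 157) (.e (nat_lit 7236) (nat_lit 382) (.e (nat_lit 1190) (nat_lit 88) (.e (nat_lit 65571) (nat_lit 3) (.e (nat_lit 98370) (nat_lit 28) .nil))))) .nil))) (.nd (nat_lit 5) 
(.lf (nat_lit 92949) (.g (nat_lit 1937) (.e (nat_lit 2397) (nat_lit 157) (.e (nat_lit 720) (nat_lit 64) (.e (nat_lit 688177) (nat_lit 16) (.e (nat_lit 65586) (nat_lit 7) (.e (nat_lit 319531) (nat_lit 16) .nil))))) .nil)) 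
(.lf (nat_lit 92981) (.g (nat_lit 1567) (.e (nat_lit 2398) (nat_lit 157) (.e (nat_lit 5940) (nat_lit 322) (.e (nat_lit 57375) (nat_lit 2) (.e (nat_lit 90185) (nat_lit 17) (.e (nat_lit 237605) (nat_lit 9) .nil))))) .nil)))) (.nd (nat_lit 4) (.nd (nat_lit 5) 
(.lf (nat_lit 92941) (.g (nat_lit 4060) (.e (nat_lit 2391) (nat_lit 156) (.e (nat_lit 819237) (nat_lit 11) (.e (nat_lit 16436) (nat_lit 9) (.e (nat_lit 426482) (nat_lit 27) (.e (nat_lit 336060) (nat_lit 7) (.e (nat_lit 319534) (nat_lit 16) (.e (nat_lit 286728) (nat_lit 0) .nil))))))) (.g (nat_lit 6) .nil .nil))) 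
(.lf (nat_lit 92973) (.g (nat_lit 1409) (.e (nat_lit 2397) (nat_lit 157) (.e (nat_lit 7590) (nat_lit 407) (.e (nat_lit 73755) (nat_lit 8) (.e (nat_lit 557070) (nat_lit 9) (.e (nat_lit 7936) (nat_lit 26) .nil))))) .nil))) (.nd (nat_lit 5) 
(.lf (nat_lit 92957) (.g (nat_lit 3004) (.e (nat_lit 2397) (nat_lit 157) (.e (nat_lit 5954) (nat_lit 322) (.e (nat_lit 57406) (nat_lit 12) (.e (nat_lit 336443) (nat_lit 32) (.e (nat_lit 466977) (nat_lit 22) (.e (nat_lit 196656) (nat_lit 11) (.e (nat_lit 16392) (nat_lit 0) .nil))))))) (.g (nat_lit 5) .nil .nil))) 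
(.lf (nat_lit 92989) (.g (nat_lit 1296) (.e (nat_lit 2398) (nat_lit 157) (.e (nat_lit 5954) (nat_lit 322) (.e (nat_lit 57445) (nat_lit 19) (.e (nat_lit 393281) (nat_lit 23) .nil)))) .nil)))))) (.nd (nat_lit 2) (.nd (nat_lit 3) (.nd (nat_lit 4) (.nd (nat_lit 5) 
(.lf (nat_lit 92931) (.g (nat_lit 2137) (.e (nat_lit 2391) (nat_lit 156) (.e (nat_lit 819219) (nat_lit 4) (.e (nat_lit 172112) (nat_lit 10) (.e (nat_lit 434241) (nat_lit 27) (.e (nat_lit 565269) (nat_lit 6) (.e (nat_lit 81942) (nat_lit 20) .nil)))))) (.g (nat_lit 0) .nil .nil))) 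
(.lf (nat_lit 92963) (.g (nat_lit 1874) (.e (nat_lit 2397) (nat_lit 157) (.e (nat_lit 7064) (nat_lit 377) (.e (nat_lit 1348) (nat_lit 102) (.e (nat_lit 286733) (nat_lit 2) (.e (nat_lit 90174) (nat_lit 14) .nil))))) .nil))) (.nd (nat_lit 5) 
(.lf (nat_lit 92947) (.g (nat_lit 2570) (.e (nat_lit 2391) (nat_lit 156) (.e (nat_lit 827136) (nat_lit 11) (.e (nat_lit 16468) (nat_lit 13) (.e (nat_lit 483372) (nat_lit 21) (.e (nat_lit 319533) (nat_lit 16) (.e (nat_lit 286724) (nat_lit 0) .nil)))))) (.g (nat_lit 5) .nil .nil))) 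
(.lf (nat_lit 92979) (.g (nat_lit 604) (.e (nat_lit 2397) (nat_lit 157) (.e (nat_lit 7593) (nat_lit 407) (.e (nat_lit 73754) (nat_lit 8) .nil))) .nil)))) (.nd (nat_lit 4) (.nd (nat_lit 5) 
(.lf (nat_lit 92939) (.g (nat_lit 2147) (.e (nat_lit 2391) (nat_lit 156) (.e (nat_lit 819237) (nat_lit 11) (.e (nat_lit 16434) (nat_lit 9) (.e (nat_lit 426482) (nat_lit 27) (.e (nat_lit 336060) (nat_lit 7) (.e (nat_lit 319534) (nat_lit 16) (.e (nat_lit 286728) (nat_lit 0) .nil))))))) (.g (nat_lit 4) .nil .nil))) 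
(.lf (nat_lit 92971) (.g (nat_lit 1669) (.e (nat_lit 2397) (nat_lit 157) (.e (nat_lit 7590) (nat_lit 407) (.e (nat_lit 73755) (nat_lit 8) (.e (nat_lit 557067) (nat_lit 9) (.e (nat_lit 7936) (nat_lit 23) (.e (nat_lit 352312) (nat_lit 22) (.e (nat_lit 90133) (nat_lit 9) .nil))))))) (.g (nat_lit 4) .nil .nil)))) (.nd (nat_lit 5) 
(.lf (nat_lit 92955) (.g (nat_lit 1584) (.e (nat_lit 2397) (nat_lit 157) (.e (nat_lit 5943) (nat_lit 322) (.e (nat_lit 57372) (nat_lit 2) (.e (nat_lit 90176) (nat_lit 15) (.e (nat_lit 196352) (nat_lit 18) (.e (nat_lit 393238) (nat_lit 17) .nil)))))) (.g (nat_lit 4) .nil .nil))) 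
(.lf (nat_lit 92987) (.g (nat_lit 1655) (.e (nat_lit 2398) (nat_lit 157) (.e (nat_lit 5943) (nat_lit 322) (.e (nat_lit 57375) (nat_lit 2) (.e (nat_lit 90185) (nat_lit 17) (.e (nat_lit 237605) (nat_lit 9) .nil))))) .nil))))) (.nd (nat_lit 3) (.nd (nat_lit 4) (.nd (nat_lit 5) 
(.lf (nat_lit 92935) (.g (nat_lit 1456) (.e (nat_lit 2391) (nat_lit 156) (.e (nat_lit 819221) (nat_lit 6) (.e (nat_lit 188449) (nat_lit 22) (.e (nat_lit 204544) (nat_lit 0) .nil)))) .nil)) 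
(.lf (nat_lit 92967) (.g (nat_lit 2010) (.e (nat_lit 2397) (nat_lit 157) (.e (nat_lit 7236) (nat_lit 382) (.e (nat_lit 1209) (nat_lit 89) (.e (nat_lit 73747) (nat_lit 3) (.e (nat_lit 516174) (nat_lit 14) .nil))))) .nil))) (.nd (nat_lit 5) 
(.lf (nat_lit 92951) (.g (nat_lit 834) (.e (nat_lit 2397) (nat_lit 157) (.e (nat_lit 5270) (nat_lit 298) (.e (nat_lit 359) (nat_lit 30) .nil))) .nil)) 
(.lf (nat_lit 92983) (.g (nat_lit 1386) (.e (nat_lit 2398) (nat_lit 157) (.e (nat_lit 5943) (nat_lit 322) (.e (nat_lit 57372) (nat_lit 2) (.e (nat_lit 90176) (nat_lit 15) (.e (nat_lit 196352) (nat_lit 18) .nil))))) .nil)))) (.nd (nat_lit 4) (.nd (nat_lit 5) 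
(.lf (nat_lit 92943) (.g (nat_lit 3499) (.e (nat_lit 2391) (nat_lit 156) (.e (nat_lit 819237) (nat_lit 11) (.e (nat_lit 16466) (nat_lit 13) (.e (nat_lit 483372) (nat_lit 21) (.e (nat_lit 319534) (nat_lit 16) (.e (nat_lit 286728) (nat_lit 0) .nil)))))) (.g (nat_lit 5) .nil .nil))) 
(.lf (nat_lit 92975) (.g (nat_lit 1435) (.e (nat_lit 2397) (nat_lit 157) (.e (nat_lit 7592) (nat_lit 407) (.e (nat_lit 73754) (nat_lit 8) (.e (nat_lit 557074) (nat_lit 9) (.e (nat_lit 7936) (nat_lit 23) .nil))))) .nil))) (.nd (nat_lit 5) 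
(.lf (nat_lit 92959) (.g (nat_lit 3686) (.e (nat_lit 2397) (nat_lit 157) (.e (nat_lit 6930) (nat_lit 373) (.e (nat_lit 57372) (nat_lit 2) (.e (nat_lit 90176) (nat_lit 15) (.e (nat_lit 188450) (nat_lit 23) (.e (nat_lit 204852) (nat_lit 26) (.e (nat_lit 336257) (nat_lit 15) .nil))))))) (.g (nat_lit 7) .nil .nil))) 
(.lf (nat_lit 92991) (.g (nat_lit 3008) (.e (nat_lit 2398) (nat_lit 157) (.e (nat_lit 6930) (nat_lit 373) (.e (nat_lit 57372) (nat_lit 2) (.e (nat_lit 90176) (nat_lit 15) (.e (nat_lit 188450) (nat_lit 23) (.e (nat_lit 204852) (nat_lit 26) (.e (nat_lit 343808) (nat_lit 15) .nil))))))) (.g (nat_lit 6) .nil .nil)))))))))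

noncomputable def tv1275 : DT := (.nd (nat_lit 0) (.nd (nat_lit 1) (.nd (nat_lit 2) (.nd (nat_lit 3) (.nd (nat_lit 4) (.nd (nat_lit 5) 
(.lf (nat_lit 92992) (.g (nat_lit 2686) (.e (nat_lit 2398) (nat_lit 157) (.e (nat_lit 6930) (nat_lit 373) (.e (nat_lit 57375) (nat_lit 2) (.e (nat_lit 90176) (nat_lit 15) (.e (nat_lit 188450) (nat_lit 23) (.e (nat_lit 204852) (nat_lit 26) (.e (nat_lit 343808) (nat_lit 15) .nil))))))) (.g (nat_lit 6) .nil .nil))) 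
(.lf (nat_lit 93024) (.g (nat_lit 3097) (.e (nat_lit 2400) (nat_lit 157) (.e (nat_lit 3525) (nat_lit 218) (.e (nat_lit 704738) (nat_lit 11) (.e (nat_lit 16425) (nat_lit 7) (.e (nat_lit 409649) (nat_lit 18) .nil))))) .nil))) (.nd (nat_lit 5) 
(.lf (nat_lit 93008) (.g (nat_lit 1292) (.e (nat_lit 2399) (nat_lit 157) (.e (nat_lit 5943) (nat_lit 322) (.e (nat_lit 57379) (nat_lit 3) (.e (nat_lit 98363) (nat_lit 26) (.e (nat_lit 426228) (nat_lit 9) (.e (nat_lit 426565) (nat_lit 34) (.e (nat_lit 393232) (nat_lit 17) .nil))))))) (.g (nat_lit 4) .nil .nil))) 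
(.lf (nat_lit 93040) (.g (nat_lit 1333) (.e (nat_lit 2400) (nat_lit 157) (.e (nat_lit 7236) (nat_lit 382) (.e (nat_lit 1209) (nat_lit 89) (.e (nat_lit 73747) (nat_lit 3) .nil)))) .nil)))) (.nd (nat_lit 4) (.nd (nat_lit 5) 
(.lf (nat_lit 93000) (.g (nat_lit 3209) (.e (nat_lit 2399) (nat_lit 157) (.e (nat_lit 5940) (nat_lit 322) (.e (nat_lit 57379) (nat_lit 3) (.e (nat_lit 98365) (nat_lit 26) (.e (nat_lit 426188) (nat_lit 9) (.e (nat_lit 426566) (nat_lit 34) (.e (nat_lit 393233) (nat_lit 17) .nil))))))) (.g (nat_lit 0) .nil .nil))) 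
(.lf (nat_lit 93032) (.g (nat_lit 1841) (.e (nat_lit 2400) (nat_lit 157) (.e (nat_lit 7236) (nat_lit 382) (.e (nat_lit 1199) (nat_lit 88) (.e (nat_lit 65586) (nat_lit 7) (.e (nat_lit 319531) (nat_lit 16) (.e (nat_lit 286748) (nat_lit 9) (.e (nat_lit 336295) (nat_lit 15) (.e (nat_lit 3757) (nat_lit 229) (.e (nat_lit 794638) (nat_lit 20) .nil))))))))) (.g (nat_lit 4) .nil .nil)))) (.nd (nat_lit 5) 
(.lf (nat_lit 93016) (.g (nat_lit 2337) (.e (nat_lit 2399) (nat_lit 157) (.e (nat_lit 5954) (nat_lit 322) (.e (nat_lit 57377) (nat_lit 3) (.e (nat_lit 98365) (nat_lit 26) (.e (nat_lit 426187) (nat_lit 9) (.e (nat_lit 426566) (nat_lit 34) (.e (nat_lit 393233) (nat_lit 17) .nil))))))) (.g (nat_lit 5) .nil .nil))) 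
(.lf (nat_lit 93048) (.g (nat_lit 1467) (.e (nat_lit 2400) (nat_lit 157) (.e (nat_lit 7590) (nat_lit 407) (.e (nat_lit 73754) (nat_lit 8) (.e (nat_lit 557070) (nat_lit 9) (.e (nat_lit 7936) (nat_lit 23) .nil))))) .nil))))) (.nd (nat_lit 3) (.nd (nat_lit 4) (.nd (nat_lit 5) 
(.lf (nat_lit 92996) (.g (nat_lit 1578) (.e (nat_lit 2399) (nat_lit 157) (.e (nat_lit 5934) (nat_lit 322) (.e (nat_lit 57372) (nat_lit 2) (.e (nat_lit 90185) (nat_lit 17) .nil)))) .nil)) 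
(.lf (nat_lit 93028) (.g (nat_lit 2041) (.e (nat_lit 2400) (nat_lit 157) (.e (nat_lit 7064) (nat_lit 377) (.e (nat_lit 1348) (nat_lit 102) (.e (nat_lit 286733) (nat_lit 2) (.e (nat_lit 90173) (nat_lit 14) (.e (nat_lit 180277) (nat_lit 32) (.e (nat_lit 1235) (nat_lit 91) (.e (nat_lit 90133) (nat_lit 9) .nil)))))))) (.g (nat_lit 4) .nil .nil)))) (.nd (nat_lit 5) 
(.lf (nat_lit 93012) (.g (nat_lit 1980) (.e (nat_lit 2399) (nat_lit 157) (.e (nat_lit 5954) (nat_lit 322) (.e (nat_lit 57373) (nat_lit 2) (.e (nat_lit 90185) (nat_lit 17) (.e (nat_lit 237601) (nat_lit 9) .nil))))) .nil)) 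
(.lf (nat_lit 93044) (.g (nat_lit 3765) (.e (nat_lit 2400) (nat_lit 157) (.e (nat_lit 7236) (nat_lit 382) (.e (nat_lit 1294) (nat_lit 96) (.e (nat_lit 131109) (nat_lit 9) (.e (nat_lit 336443) (nat_lit 32) (.e (nat_lit 466969) (nat_lit 21) (.e (nat_lit 164330) (nat_lit 230) (.e (nat_lit 163846) (nat_lit 0) .nil)))))))) (.g (nat_lit 0) .nil .nil))))) (.nd (nat_lit 4) (.nd (nat_lit 5) 
(.lf (nat_lit 93004) (.g (nat_lit 1533) (.e (nat_lit 2399) (nat_lit 157) (.e (nat_lit 5942) (nat_lit 322) (.e (nat_lit 57375) (nat_lit 2) (.e (nat_lit 90178) (nat_lit 15) (.e (nat_lit 196352) (nat_lit 18) (.e (nat_lit 393233) (nat_lit 17) .nil)))))) (.g (nat_lit 4) .nil .nil))) 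
(.lf (nat_lit 93036) (.g (nat_lit 2726) (.e (nat_lit 2400) (nat_lit 157) (.e (nat_lit 7236) (nat_lit 382) (.e (nat_lit 1209) (nat_lit 89) (.e (nat_lit 73746) (nat_lit 3) (.e (nat_lit 516149) (nat_lit 9) (.e (nat_lit 426320) (nat_lit 12) (.e (nat_lit 475179) (nat_lit 24) (.e (nat_lit 516102) (nat_lit 0) .nil)))))))) (.g (nat_lit 5) .nil .nil)))) (.nd (nat_lit 5) 
(.lf (nat_lit 93020) (.g (nat_lit 1287) (.e (nat_lit 2400) (nat_lit 157) (.e (nat_lit 216) (nat_lit 19) (.e (nat_lit 319531) (nat_lit 16) (.e (nat_lit 286735) (nat_lit 3) (.e (nat_lit 98373) (nat_lit 29) .nil))))) .nil)) 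
(.lf (nat_lit 93052) (.g (nat_lit 1771) (.e (nat_lit 2400) (nat_lit 157) (.e (nat_lit 7590) (nat_lit 407) (.e (nat_lit 73755) (nat_lit 8) (.e (nat_lit 557070) (nat_lit 9) (.e (nat_lit 313) (nat_lit 23) (.e (nat_lit 352312) (nat_lit 22) (.e (nat_lit 90133) (nat_lit 9) .nil))))))) (.g (nat_lit 4) .nil .nil))))))) (.nd (nat_lit 2) (.nd (nat_lit 3) (.nd (nat_lit 4) (.nd (nat_lit 5) 
(.lf (nat_lit 92994) (.g (nat_lit 3422) (.e (nat_lit 2399) (nat_lit 157) (.e (nat_lit 2685) (nat_lit 168) (.e (nat_lit 204817) (nat_lit 17) (.e (nat_lit 2198) (nat_lit 144) (.e (nat_lit 720941) (nat_lit 22) (.e (nat_lit 90172) (nat_lit 14) (.e (nat_lit 180244) (nat_lit 5) (.e (nat_lit 532499) (nat_lit 1) (.e (nat_lit 57654) (nat_lit 152) .nil))))))))) (.g (nat_lit 8) .nil .nil))) 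
(.lf (nat_lit 93026) (.g (nat_lit 1389) (.e (nat_lit 2400) (nat_lit 157) (.e (nat_lit 5569) (nat_lit 308) (.e (nat_lit 57367) (nat_lit 1) (.e (nat_lit 57847) (nat_lit 252) (.e (nat_lit 57435) (nat_lit 17) (.e (nat_lit 384768) (nat_lit 13) (.e (nat_lit 442395) (nat_lit 20) .nil))))))) (.g (nat_lit 5) .nil .nil)))) (.nd (nat_lit 5) 
(.lf (nat_lit 93010) (.g (nat_lit 3149) (.e (nat_lit 2399) (nat_lit 157) (.e (nat_lit 5943) (nat_lit 322) (.e (nat_lit 57379) (nat_lit 3) (.e (nat_lit 98365) (nat_lit 26) (.e (nat_lit 426188) (nat_lit 9) (.e (nat_lit 426566) (nat_lit 34) (.e (nat_lit 393233) (nat_lit 17) .nil))))))) (.g (nat_lit 7) .nil .nil))) 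
(.lf (nat_lit 93042) (.g (nat_lit 3250) (.e (nat_lit 2400) (nat_lit 157) (.e (nat_lit 7236) (nat_lit 382) (.e (nat_lit 1294) (nat_lit 96) (.e (nat_lit 131105) (nat_lit 9) (.e (nat_lit 336443) (nat_lit 32) (.e (nat_lit 466969) (nat_lit 21) (.e (nat_lit 164330) (nat_lit 230) (.e (nat_lit 163846) (nat_lit 0) .nil)))))))) (.g (nat_lit 7) .nil .nil))))) (.nd (nat_lit 4) (.nd (nat_lit 5) 
(.lf (nat_lit 93002) (.g (nat_lit 1137) (.e (nat_lit 2399) (nat_lit 157) (.e (nat_lit 5941) (nat_lit 322) (.e (nat_lit 57372) (nat_lit 2) (.e (nat_lit 90185) (nat_lit 17) .nil)))) .nil)) 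
(.lf (nat_lit 93034) (.g (nat_lit 1214) (.e (nat_lit 2400) (nat_lit 157) (.e (nat_lit 7236) (nat_lit 382) (.e (nat_lit 1209) (nat_lit 89) (.e (nat_lit 73746) (nat_lit 3) .nil)))) .nil))) (.nd (nat_lit 5) 
(.lf (nat_lit 93018) (.g (nat_lit 2076) (.e (nat_lit 2399) (nat_lit 157) (.e (nat_lit 5954) (nat_lit 322) (.e (nat_lit 57445) (nat_lit 19) (.e (nat_lit 393281) (nat_lit 23) (.e (nat_lit 426116) (nat_lit 2) (.e (nat_lit 196654) (nat_lit 11) (.e (nat_lit 16386) (nat_lit 0) .nil))))))) (.g (nat_lit 4) .nil .nil))) 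
(.lf (nat_lit 93050) (.g (nat_lit 1652) (.e (nat_lit 2400) (nat_lit 157) (.e (nat_lit 7590) (nat_lit 407) (.e (nat_lit 73755) (nat_lit 8) (.e (nat_lit 557067) (nat_lit 9) (.e (nat_lit 7936) (nat_lit 23) (.e (nat_lit 352312) (nat_lit 22) (.e (nat_lit 90133) (nat_lit 9) .nil))))))) (.g (nat_lit 4) .nil .nil)))))) (.nd (nat_lit 3) (.nd (nat_lit 4) (.nd (nat_lit 5) 
(.lf (nat_lit 92998) (.g (nat_lit 1338) (.e (nat_lit 2399) (nat_lit 157) (.e (nat_lit 5940) (nat_lit 322) (.e (nat_lit 57375) (nat_lit 2) (.e (nat_lit 90176) (nat_lit 15) (.e (nat_lit 196352) (nat_lit 18) .nil))))) .nil)) 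
(.lf (nat_lit 93030) (.g (nat_lit 2912) (.e (nat_lit 2400) (nat_lit 157) (.e (nat_lit 7236) (nat_lit 382) (.e (nat_lit 1199) (nat_lit 88) (.e (nat_lit 65569) (nat_lit 3) (.e (nat_lit 98370) (nat_lit 28) (.e (nat_lit 450304) (nat_lit 3) (.e (nat_lit 98323) (nat_lit 17) .nil))))))) (.g (nat_lit 5) .nil .nil)))) (.nd (nat_lit 5) 
(.lf (nat_lit 93014) (.g (nat_lit 2084) (.e (nat_lit 2399) (nat_lit 157) (.e (nat_lit 5954) (nat_lit 322) (.e (nat_lit 57373) (nat_lit 2) (.e (nat_lit 90185) (nat_lit 17) (.e (nat_lit 237605) (nat_lit 9) (.e (nat_lit 426566) (nat_lit 34) (.e (nat_lit 393233) (nat_lit 17) .nil))))))) (.g (nat_lit 4) .nil .nil))) 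
(.lf (nat_lit 93046) (.g (nat_lit 393) (.e (nat_lit 2400) (nat_lit 157) (.e (nat_lit 7236) (nat_lit 382) (.e (nat_lit 1297) (nat_lit 96) .nil))) .nil)))) (.nd (nat_lit 4) (.nd (nat_lit 5) 
(.lf (nat_lit 93006) (.g (nat_lit 1418) (.e (nat_lit 2399) (nat_lit 157) (.e (nat_lit 5943) (nat_lit 322) (.e (nat_lit 57375) (nat_lit 2) (.e (nat_lit 90176) (nat_lit 15) (.e (nat_lit 196352) (nat_lit 18) .nil))))) .nil)) 
(.lf (nat_lit 93038) (.g (nat_lit 2078) (.e (nat_lit 2400) (nat_lit 157) (.e (nat_lit 7236) (nat_lit 382) (.e (nat_lit 1209) (nat_lit 89) (.e (nat_lit 73746) (nat_lit 3) (.e (nat_lit 516174) (nat_lit 14) (.e (nat_lit 474880) (nat_lit 3) (.e (nat_lit 98323) (nat_lit 17) .nil))))))) (.g (nat_lit 4) .nil .nil)))) (.nd (nat_lit 5) 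
(.lf (nat_lit 93022) (.g (nat_lit 1874) (.e (nat_lit 2400) (nat_lit 157) (.e (nat_lit 720) (nat_lit 64) (.e (nat_lit 688177) (nat_lit 16) (.e (nat_lit 65586) (nat_lit 7) (.e (nat_lit 319531) (nat_lit 16) .nil))))) .nil)) 
(.lf (nat_lit 93054) (.g (nat_lit 1600) (.e (nat_lit 2400) (nat_lit 157) (.e (nat_lit 7590) (nat_lit 407) (.e (nat_lit 73755) (nat_lit 8) (.e (nat_lit 557074) (nat_lit 9) (.e (nat_lit 7936) (nat_lit 23) (.e (nat_lit 352312) (nat_lit 22) (.e (nat_lit 90133) (nat_lit 9) .nil))))))) (.g (nat_lit 4) .nil .nil)))))))) (.nd (nat_lit 1) (.nd (nat_lit 2) (.nd (nat_lit 3) (.nd (nat_lit 4) (.nd (nat_lit 5) 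
(.lf (nat_lit 92993) (.g (nat_lit 2802) (.e (nat_lit 2399) (nat_lit 157) (.e (nat_lit 251) (nat_lit 21) (.e (nat_lit 336012) (nat_lit 2) (.e (nat_lit 90176) (nat_lit 15) (.e (nat_lit 188450) (nat_lit 23) (.e (nat_lit 204830) (nat_lit 18) (.e (nat_lit 65280) (nat_lit 233) .nil))))))) (.g (nat_lit 6) .nil .nil))) 
(.lf (nat_lit 93025) (.g (nat_lit 1570) (.e (nat_lit 2400) (nat_lit 157) (.e (nat_lit 5568) (nat_lit 308) (.e (nat_lit 57367) (nat_lit 1) (.e (nat_lit 57847) (nat_lit 252) (.e (nat_lit 57435) (nat_lit 17) (.e (nat_lit 384768) (nat_lit 13) (.e (nat_lit 442395) (nat_lit 20) .nil))))))) (.g (nat_lit 5) .nil .nil)))) (.nd (nat_lit 5) 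
(.lf (nat_lit 93009) (.g (nat_lit 3023) (.e (nat_lit 2399) (nat_lit 157) (.e (nat_lit 5943) (nat_lit 322) (.e (nat_lit 57379) (nat_lit 3) (.e (nat_lit 98365) (nat_lit 26) (.e (nat_lit 426187) (nat_lit 9) (.e (nat_lit 426566) (nat_lit 34) (.e (nat_lit 393233) (nat_lit 17) .nil))))))) (.g (nat_lit 7) .nil .nil))) 
(.lf (nat_lit 93041) (.g (nat_lit 2292) (.e (nat_lit 2400) (nat_lit 157) (.e (nat_lit 7236) (nat_lit 382) (.e (nat_lit 1209) (nat_lit 89) (.e (nat_lit 73747) (nat_lit 3) (.e (nat_lit 516150) (nat_lit 9) .nil))))) .nil)))) (.nd (nat_lit 4) (.nd (nat_lit 5) 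
(.lf (nat_lit 93001) (.g (nat_lit 1458) (.e (nat_lit 2399) (nat_lit 157) (.e (nat_lit 5940) (nat_lit 322) (.e (nat_lit 57379) (nat_lit 3) (.e (nat_lit 98370) (nat_lit 28) (.e (nat_lit 450304) (nat_lit 18) .nil))))) .nil)) 
(.lf (nat_lit 93033) (.g (nat_lit 2728) (.e (nat_lit 2400) (nat_lit 157) (.e (nat_lit 7236) (nat_lit 382) (.e (nat_lit 1199) (nat_lit 88) (.e (nat_lit 65586) (nat_lit 7) (.e (nat_lit 319531) (nat_lit 16) (.e (nat_lit 286748) (nat_lit 9) (.e (nat_lit 336295) (nat_lit 15) (.e (nat_lit 3757) (nat_lit 229) (.e (nat_lit 794644) (nat_lit 20) .nil))))))))) (.g (nat_lit 5) .nil .nil)))) (.nd (nat_lit 5) 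
(.lf (nat_lit 93017) (.g (nat_lit 2173) (.e (nat_lit 2399) (nat_lit 157) (.e (nat_lit 5954) (nat_lit 322) (.e (nat_lit 57406) (nat_lit 12) (.e (nat_lit 336443) (nat_lit 32) (.e (nat_lit 466974) (nat_lit 22) (.e (nat_lit 196654) (nat_lit 11) (.e (nat_lit 16386) (nat_lit 0) .nil))))))) (.g (nat_lit 4) .nil .nil))) 
(.lf (nat_lit 93049) (.g (nat_lit 2151) (.e (nat_lit 2400) (nat_lit 157) (.e (nat_lit 7590) (nat_lit 407) (.e (nat_lit 73755) (nat_lit 8) (.e (nat_lit 557065) (nat_lit 9) (.e (nat_lit 334) (nat_lit 26) (.e (nat_lit 376864) (nat_lit 22) (.e (nat_lit 90133) (nat_lit 9) .nil))))))) (.g (nat_lit 5) .nil .nil)))))) (.nd (nat_lit 3) (.nd (nat_lit 4) (.nd (nat_lit 5) 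
(.lf (nat_lit 92997) (.g (nat_lit 1253) (.e (nat_lit 2399) (nat_lit 157) (.e (nat_lit 5934) (nat_lit 322) (.e (nat_lit 57375) (nat_lit 2) (.e (nat_lit 90176) (nat_lit 15) (.e (nat_lit 196352) (nat_lit 18) (.e (nat_lit 393233) (nat_lit 17) .nil)))))) (.g (nat_lit 4) .nil .nil))) 
(.lf (nat_lit 93029) (.g (nat_lit 2848) (.e (nat_lit 2400) (nat_lit 157) (.e (nat_lit 7064) (nat_lit 377) (.e (nat_lit 1349) (nat_lit 102) (.e (nat_lit 286733) (nat_lit 2) (.e (nat_lit 90172) (nat_lit 14) (.e (nat_lit 180278) (nat_lit 32) (.e (nat_lit 1235) (nat_lit 91) (.e (nat_lit 90133) (nat_lit 9) .nil)))))))) (.g (nat_lit 5) .nil .nil)))) (.nd (nat_lit 5) 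
(.lf (nat_lit 93013) (.g (nat_lit 1977) (.e (nat_lit 2399) (nat_lit 157) (.e (nat_lit 5954) (nat_lit 322) (.e (nat_lit 57373) (nat_lit 2) (.e (nat_lit 90185) (nat_lit 17) (.e (nat_lit 237605) (nat_lit 9) .nil))))) .nil)) 
(.lf (nat_lit 93045) (.g (nat_lit 4042) (.e (nat_lit 2400) (nat_lit 157) (.e (nat_lit 7236) (nat_lit 382) (.e (nat_lit 1294) (nat_lit 96) (.e (nat_lit 131109) (nat_lit 9) (.e (nat_lit 336443) (nat_lit 32) (.e (nat_lit 466972) (nat_lit 21) (.e (nat_lit 164330) (nat_lit 230) (.e (nat_lit 163846) (nat_lit 0) .nil)))))))) (.g (nat_lit 0) .nil .nil))))) (.nd (nat_lit 4) (.nd (nat_lit 5) 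
(.lf (nat_lit 93005) (.g (nat_lit 1384) (.e (nat_lit 2399) (nat_lit 157) (.e (nat_lit 5943) (nat_lit 322) (.e (nat_lit 57372) (nat_lit 2) (.e (nat_lit 90176) (nat_lit 15) (.e (nat_lit 196352) (nat_lit 18) .nil))))) .nil)) 
(.lf (nat_lit 93037) (.g (nat_lit 3124) (.e (nat_lit 2400) (nat_lit 157) (.e (nat_lit 7236) (nat_lit 382) (.e (nat_lit 1209) (nat_lit 89) (.e (nat_lit 73746) (nat_lit 3) (.e (nat_lit 516150) (nat_lit 9) (.e (nat_lit 426227) (nat_lit 9) (.e (nat_lit 426438) (nat_lit 18) (.e (nat_lit 98323) (nat_lit 17) .nil)))))))) (.g (nat_lit 5) .nil .nil)))) (.nd (nat_lit 5) 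
(.lf (nat_lit 93021) (.g (nat_lit 1782) (.e (nat_lit 2400) (nat_lit 157) (.e (nat_lit 216) (nat_lit 19) (.e (nat_lit 319533) (nat_lit 16) (.e (nat_lit 286735) (nat_lit 3) .nil)))) .nil)) 
(.lf (nat_lit 93053) (.g (nat_lit 1414) (.e (nat_lit 2400) (nat_lit 157) (.e (nat_lit 7590) (nat_lit 407) (.e (nat_lit 73755) (nat_lit 8) (.e (nat_lit 557070) (nat_lit 9) (.e (nat_lit 7936) (nat_lit 26) .nil))))) .nil)))))) (.nd (nat_lit 2) (.nd (nat_lit 3) (.nd (nat_lit 4) (.nd (nat_lit 5) 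
(.lf (nat_lit 92995) (.g (nat_lit 1443) (.e (nat_lit 2399) (nat_lit 157) (.e (nat_lit 5934) (nat_lit 322) (.e (nat_lit 57372) (nat_lit 2) (.e (nat_lit 90176) (nat_lit 15) (.e (nat_lit 196352) (nat_lit 18) (.e (nat_lit 393233) (nat_lit 17) .nil)))))) (.g (nat_lit 4) .nil .nil))) 
(.lf (nat_lit 93027) (.g (nat_lit 1643) (.e (nat_lit 2400) (nat_lit 157) (.e (nat_lit 5604) (nat_lit 310) (.e (nat_lit 163843) (nat_lit 0) (.e (nat_lit 3223) (nat_lit 196) (.e (nat_lit 524319) (nat_lit 11) (.e (nat_lit 450304) (nat_lit 18) (.e (nat_lit 393238) (nat_lit 17) .nil))))))) (.g (nat_lit 4) .nil .nil)))) (.nd (nat_lit 5) 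
(.lf (nat_lit 93011) (.g (nat_lit 1147) (.e (nat_lit 2399) (nat_lit 157) (.e (nat_lit 5943) (nat_lit 322) (.e (nat_lit 57379) (nat_lit 3) (.e (nat_lit 98369) (nat_lit 28) (.e (nat_lit 450304) (nat_lit 18) (.e (nat_lit 393233) (nat_lit 17) .nil)))))) (.g (nat_lit 4) .nil .nil))) 
(.lf (nat_lit 93043) (.g (nat_lit 3512) (.e (nat_lit 2400) (nat_lit 157) (.e (nat_lit 7236) (nat_lit 382) (.e (nat_lit 1294) (nat_lit 96) (.e (nat_lit 131105) (nat_lit 9) (.e (nat_lit 336443) (nat_lit 32) (.e (nat_lit 466972) (nat_lit 21) (.e (nat_lit 164330) (nat_lit 230) (.e (nat_lit 163846) (nat_lit 0) .nil)))))))) (.g (nat_lit 7) .nil .nil))))) (.nd (nat_lit 4) (.nd (nat_lit 5) 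
(.lf (nat_lit 93003) (.g (nat_lit 1583) (.e (nat_lit 2399) (nat_lit 157) (.e (nat_lit 5942) (nat_lit 322) (.e (nat_lit 57375) (nat_lit 2) (.e (nat_lit 90178) (nat_lit 15) (.e (nat_lit 196352) (nat_lit 18) (.e (nat_lit 393232) (nat_lit 17) .nil)))))) (.g (nat_lit 4) .nil .nil))) 
(.lf (nat_lit 93035) (.g (nat_lit 4315) (.e (nat_lit 2400) (nat_lit 157) (.e (nat_lit 7236) (nat_lit 382) (.e (nat_lit 1209) (nat_lit 89) (.e (nat_lit 73746) (nat_lit 3) (.e (nat_lit 516146) (nat_lit 9) (.e (nat_lit 426320) (nat_lit 12) (.e (nat_lit 475179) (nat_lit 24) (.e (nat_lit 516102) (nat_lit 0) .nil)))))))) (.g (nat_lit 7) .nil .nil)))) (.nd (nat_lit 5) 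
(.lf (nat_lit 93019) (.g (nat_lit 937) (.e (nat_lit 2399) (nat_lit 157) (.e (nat_lit 6420) (nat_lit 341) (.e (nat_lit 163902) (nat_lit 12) (.e (nat_lit 426428) (nat_lit 17) .nil)))) .nil)) 
(.lf (nat_lit 93051) (.g (nat_lit 1627) (.e (nat_lit 2400) (nat_lit 157) (.e (nat_lit 7590) (nat_lit 407) (.e (nat_lit 73755) (nat_lit 8) (.e (nat_lit 557067) (nat_lit 9) (.e (nat_lit 7936) (nat_lit 26) .nil))))) .nil))))) (.nd (nat_lit 3) (.nd (nat_lit 4) (.nd (nat_lit 5) 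
(.lf (nat_lit 92999) (.g (nat_lit 1547) (.e (nat_lit 2399) (nat_lit 157) (.e (nat_lit 5940) (nat_lit 322) (.e (nat_lit 57375) (nat_lit 2) (.e (nat_lit 90178) (nat_lit 15) (.e (nat_lit 196352) (nat_lit 18) .nil))))) .nil)) 
(.lf (nat_lit 93031) (.g (nat_lit 2916) (.e (nat_lit 2400) (nat_lit 157) (.e (nat_lit 7236) (nat_lit 382) (.e (nat_lit 1199) (nat_lit 88) (.e (nat_lit 65586) (nat_lit 7) (.e (nat_lit 319531) (nat_lit 16) (.e (nat_lit 286743) (nat_lit 9) (.e (nat_lit 336337) (nat_lit 20) (.e (nat_lit 221195) (nat_lit 20) .nil)))))))) (.g (nat_lit 5) .nil .nil)))) (.nd (nat_lit 5) 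
(.lf (nat_lit 93015) (.g (nat_lit 410) (.e (nat_lit 2399) (nat_lit 157) (.e (nat_lit 5954) (nat_lit 322) (.e (nat_lit 57377) (nat_lit 3) .nil))) .nil)) 
(.lf (nat_lit 93047) (.g (nat_lit 1529) (.e (nat_lit 2400) (nat_lit 157) (.e (nat_lit 7590) (nat_lit 407) (.e (nat_lit 73754) (nat_lit 8) (.e (nat_lit 557070) (nat_lit 9) (.e (nat_lit 313) (nat_lit 23) (.e (nat_lit 352312) (nat_lit 22) (.e (nat_lit 90133) (nat_lit 9) .nil))))))) (.g (nat_lit 4) .nil .nil))))) (.nd (nat_lit 4) (.nd (nat_lit 5) 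
(.lf (nat_lit 93007) (.g (nat_lit 1697) (.e (nat_lit 2399) (nat_lit 157) (.e (nat_lit 5943) (nat_lit 322) (.e (nat_lit 57375) (nat_lit 2) (.e (nat_lit 90178) (nat_lit 15) (.e (nat_lit 196352) (nat_lit 18) .nil))))) .nil)) 
(.lf (nat_lit 93039) (.g (nat_lit 2033) (.e (nat_lit 2400) (nat_lit 157) (.e (nat_lit 7236) (nat_lit 382) (.e (nat_lit 1209) (nat_lit 89) (.e (nat_lit 73746) (nat_lit 3) (.e (nat_lit 516176) (nat_lit 14) (.e (nat_lit 474880) (nat_lit 3) (.e (nat_lit 98323) (nat_lit 17) .nil))))))) (.g (nat_lit 4) .nil .nil)))) (.nd (nat_lit 5) 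
(.lf (nat_lit 93023) (.g (nat_lit 2971) (.e (nat_lit 2400) (nat_lit 157) (.e (nat_lit 3494) (nat_lit 218) (.e (nat_lit 704738) (nat_lit 11) (.e (nat_lit 16425) (nat_lit 7) (.e (nat_lit 409649) (nat_lit 18) (.e (nat_lit 303140) (nat_lit 10) (.e (nat_lit 434275) (nat_lit 39) (.e (nat_lit 663572) (nat_lit 9) .nil)))))))) (.g (nat_lit 4) .nil .nil))) 
(.lf (nat_lit 93055) (.g (nat_lit 2011) (.e (nat_lit 2400) (nat_lit 157) (.e (nat_lit 7592) (nat_lit 407) (.e (nat_lit 73753) (nat_lit 8) (.e (nat_lit 557067) (nat_lit 9) (.e (nat_lit 7936) (nat_lit 26) (.e (nat_lit 376862) (nat_lit 22) (.e (nat_lit 90133) (nat_lit 9) .nil))))))) (.g (nat_lit 4) .nil .nil)))))))))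

noncomputable def tv1276 : DT := (.nd (nat_lit 0) (.nd (nat_lit 1) (.nd (nat_lit 2) (.nd (nat_lit 3) (.nd (nat_lit 4) (.nd (nat_lit 5) 
(.lf (nat_lit 93056) (.g (nat_lit 1877) (.e (nat_lit 2400) (nat_lit 157) (.e (nat_lit 7592) (nat_lit 407) (.e (nat_lit 73753) (nat_lit 8) (.e (nat_lit 557067) (nat_lit 9) (.e (nat_lit 7936) (nat_lit 26) (.e (nat_lit 376865) (nat_lit 22) (.e (nat_lit 90133) (nat_lit 9) .nil))))))) (.g (nat_lit 4) .nil .nil))) 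
(.lf (nat_lit 93088) (.g (nat_lit 2463) (.e (nat_lit 2406) (nat_lit 157) (.e (nat_lit 5293) (nat_lit 298) (.e (nat_lit 1633) (nat_lit 114) (.e (nat_lit 385106) (nat_lit 50) (.e (nat_lit 786483) (nat_lit 30) (.e (nat_lit 368384) (nat_lit 0) (.e (nat_lit 5813) (nat_lit 320) (.e (nat_lit 11) (nat_lit 0) .nil)))))))) (.g (nat_lit 5) .nil .nil)))) (.nd (nat_lit 5) 
(.lf (nat_lit 93072) (.g (nat_lit 1767) (.e (nat_lit 2403) (nat_lit 157) (.e (nat_lit 5153) (nat_lit 292) (.e (nat_lit 1220) (nat_lit 90) (.e (nat_lit 81938) (nat_lit 20) (.e (nat_lit 1963) (nat_lit 134) (.e (nat_lit 639001) (nat_lit 10) (.e (nat_lit 188427) (nat_lit 20) .nil))))))) (.g (nat_lit 5) .nil .nil))) 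
(.lf (nat_lit 93104) (.g (nat_lit 1915) (.e (nat_lit 2415) (nat_lit 157) (.e (nat_lit 5205) (nat_lit 294) (.e (nat_lit 57447) (nat_lit 19) (.e (nat_lit 393234) (nat_lit 17) (.e (nat_lit 2415) (nat_lit 157) (.e (nat_lit 5190) (nat_lit 294) (.e (nat_lit 57448) (nat_lit 19) (.e (nat_lit 393234) (nat_lit 17) .nil)))))))) (.g (nat_lit 4) .nil .nil))))) (.nd (nat_lit 4) (.nd (nat_lit 5) 
(.lf (nat_lit 93064) (.g (nat_lit 3094) (.e (nat_lit 2402) (nat_lit 157) (.e (nat_lit 3525) (nat_lit 218) (.e (nat_lit 704738) (nat_lit 11) (.e (nat_lit 16425) (nat_lit 7) (.e (nat_lit 409649) (nat_lit 18) .nil))))) .nil)) 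
(.lf (nat_lit 93096) (.g (nat_lit 1931) (.e (nat_lit 2413) (nat_lit 157) (.e (nat_lit 5195) (nat_lit 294) (.e (nat_lit 57448) (nat_lit 19) (.e (nat_lit 393234) (nat_lit 17) (.e (nat_lit 2522) (nat_lit 157) (.e (nat_lit 5192) (nat_lit 294) (.e (nat_lit 57448) (nat_lit 19) (.e (nat_lit 393234) (nat_lit 17) .nil)))))))) (.g (nat_lit 4) .nil .nil)))) (.nd (nat_lit 5) 
(.lf (nat_lit 93080) (.g (nat_lit 483) (.e (nat_lit 2406) (nat_lit 157) (.e (nat_lit 5293) (nat_lit 298) (.e (nat_lit 1250) (nat_lit 92) .nil))) .nil)) 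
(.lf (nat_lit 93112) (.g (nat_lit 4163) (.e (nat_lit 2416) (nat_lit 157) (.e (nat_lit 3877) (nat_lit 233) (.e (nat_lit 1221) (nat_lit 90) (.e (nat_lit 81956) (nat_lit 23) (.e (nat_lit 98350) (nat_lit 24) (.e (nat_lit 409649) (nat_lit 18) (.e (nat_lit 303111) (nat_lit 0) .nil))))))) (.g (nat_lit 0) .nil .nil)))))) (.nd (nat_lit 3) (.nd (nat_lit 4) (.nd (nat_lit 5) 
(.lf (nat_lit 93060) (.g (nat_lit 1684) (.e (nat_lit 2400) (nat_lit 157) (.e (nat_lit 7592) (nat_lit 407) (.e (nat_lit 73753) (nat_lit 8) (.e (nat_lit 557074) (nat_lit 9) (.e (nat_lit 7936) (nat_lit 26) (.e (nat_lit 376862) (nat_lit 22) (.e (nat_lit 90133) (nat_lit 9) .nil))))))) (.g (nat_lit 4) .nil .nil))) 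
(.lf (nat_lit 93092) (.g (nat_lit 1811) (.e (nat_lit 2411) (nat_lit 157) (.e (nat_lit 5195) (nat_lit 294) (.e (nat_lit 57448) (nat_lit 19) (.e (nat_lit 393234) (nat_lit 17) (.e (nat_lit 2411) (nat_lit 157) (.e (nat_lit 5205) (nat_lit 294) (.e (nat_lit 57447) (nat_lit 19) (.e (nat_lit 393234) (nat_lit 17) .nil)))))))) (.g (nat_lit 4) .nil .nil)))) (.nd (nat_lit 5) 
(.lf (nat_lit 93076) (.g (nat_lit 2070) (.e (nat_lit 2405) (nat_lit 157) (.e (nat_lit 3062) (nat_lit 190) (.e (nat_lit 475179) (nat_lit 24) (.e (nat_lit 516174) (nat_lit 14) (.e (nat_lit 466954) (nat_lit 11) .nil))))) .nil)) 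
(.lf (nat_lit 93108) (.g (nat_lit 2006) (.e (nat_lit 2416) (nat_lit 157) (.e (nat_lit 307) (nat_lit 22) (.e (nat_lit 344126) (nat_lit 25) (.e (nat_lit 548874) (nat_lit 5) (.e (nat_lit 1598) (nat_lit 111) .nil))))) .nil)))) (.nd (nat_lit 4) (.nd (nat_lit 5) 
(.lf (nat_lit 93068) (.g (nat_lit 1990) (.e (nat_lit 2403) (nat_lit 157) (.e (nat_lit 4413) (nat_lit 259) (.e (nat_lit 57375) (nat_lit 2) (.e (nat_lit 90176) (nat_lit 15) (.e (nat_lit 188439) (nat_lit 20) (.e (nat_lit 3271) (nat_lit 199) (.e (nat_lit 548913) (nat_lit 18) (.e (nat_lit 172035) (nat_lit 0) .nil)))))))) (.g (nat_lit 5) .nil .nil))) 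
(.lf (nat_lit 93100) (.g (nat_lit 779) (.e (nat_lit 2414) (nat_lit 157) (.e (nat_lit 5203) (nat_lit 294) (.e (nat_lit 57427) (nat_lit 15) (.e (nat_lit 360483) (nat_lit 15) .nil)))) .nil))) (.nd (nat_lit 5) 
(.lf (nat_lit 93084) (.g (nat_lit 4260) (.e (nat_lit 2406) (nat_lit 157) (.e (nat_lit 5293) (nat_lit 298) (.e (nat_lit 1250) (nat_lit 92) (.e (nat_lit 98350) (nat_lit 24) (.e (nat_lit 409647) (nat_lit 18) (.e (nat_lit 303119) (nat_lit 3) (.e (nat_lit 204819) (nat_lit 17) (.e (nat_lit 6113) (nat_lit 332) .nil)))))))) (.g (nat_lit 8) .nil .nil))) 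
(.lf (nat_lit 93116) (.g (nat_lit 3087) (.e (nat_lit 2416) (nat_lit 157) (.e (nat_lit 6931) (nat_lit 373) (.e (nat_lit 57372) (nat_lit 2) (.e (nat_lit 90176) (nat_lit 15) (.e (nat_lit 188450) (nat_lit 23) (.e (nat_lit 204852) (nat_lit 26) (.e (nat_lit 336258) (nat_lit 15) .nil))))))) (.g (nat_lit 0) .nil .nil))))))) (.nd (nat_lit 2) (.nd (nat_lit 3) (.nd (nat_lit 4) (.nd (nat_lit 5) 
(.lf (nat_lit 93058) (.g (nat_lit 1325) (.e (nat_lit 2400) (nat_lit 157) (.e (nat_lit 7592) (nat_lit 407) (.e (nat_lit 73753) (nat_lit 8) (.e (nat_lit 557072) (nat_lit 9) (.e (nat_lit 7936) (nat_lit 26) (.e (nat_lit 376865) (nat_lit 22) (.e (nat_lit 90133) (nat_lit 9) .nil))))))) (.g (nat_lit 4) .nil .nil))) 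
(.lf (nat_lit 93090) (.g (nat_lit 1777) (.e (nat_lit 2411) (nat_lit 157) (.e (nat_lit 5190) (nat_lit 294) (.e (nat_lit 57448) (nat_lit 19) (.e (nat_lit 393234) (nat_lit 17) (.e (nat_lit 2415) (nat_lit 157) (.e (nat_lit 5193) (nat_lit 294) (.e (nat_lit 57448) (nat_lit 19) (.e (nat_lit 393234) (nat_lit 17) .nil)))))))) (.g (nat_lit 4) .nil .nil)))) (.nd (nat_lit 5) 
(.lf (nat_lit 93074) (.g (nat_lit 1553) (.e (nat_lit 2404) (nat_lit 157) (.e (nat_lit 5270) (nat_lit 298) (.e (nat_lit 359) (nat_lit 30) (.e (nat_lit 417536) (nat_lit 7) .nil)))) .nil)) 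
(.lf (nat_lit 93106) (.g (nat_lit 1827) (.e (nat_lit 2416) (nat_lit 157) (.e (nat_lit 232) (nat_lit 21) (.e (nat_lit 336060) (nat_lit 7) (.e (nat_lit 319533) (nat_lit 16) (.e (nat_lit 286753) (nat_lit 10) .nil))))) .nil)))) (.nd (nat_lit 4) (.nd (nat_lit 5) 
(.lf (nat_lit 93066) (.g (nat_lit 2112) (.e (nat_lit 2402) (nat_lit 157) (.e (nat_lit 7236) (nat_lit 382) (.e (nat_lit 1209) (nat_lit 89) (.e (nat_lit 73747) (nat_lit 3) (.e (nat_lit 516146) (nat_lit 9) .nil))))) .nil)) 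
(.lf (nat_lit 93098) (.g (nat_lit 1810) (.e (nat_lit 2414) (nat_lit 157) (.e (nat_lit 5195) (nat_lit 294) (.e (nat_lit 57448) (nat_lit 19) (.e (nat_lit 393234) (nat_lit 17) (.e (nat_lit 2411) (nat_lit 157) .nil))))) .nil))) (.nd (nat_lit 5) 
(.lf (nat_lit 93082) (.g (nat_lit 3984) (.e (nat_lit 2406) (nat_lit 157) (.e (nat_lit 5293) (nat_lit 298) (.e (nat_lit 1250) (nat_lit 92) (.e (nat_lit 98350) (nat_lit 24) (.e (nat_lit 409645) (nat_lit 18) (.e (nat_lit 303119) (nat_lit 3) (.e (nat_lit 204819) (nat_lit 17) (.e (nat_lit 6113) (nat_lit 332) .nil)))))))) (.g (nat_lit 7) .nil .nil))) 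
(.lf (nat_lit 93114) (.g (nat_lit 1392) (.e (nat_lit 2416) (nat_lit 157) (.e (nat_lit 5939) (nat_lit 322) (.e (nat_lit 57379) (nat_lit 3) (.e (nat_lit 98369) (nat_lit 28) (.e (nat_lit 450304) (nat_lit 18) .nil))))) .nil))))) (.nd (nat_lit 3) (.nd (nat_lit 4) (.nd (nat_lit 5) 
(.lf (nat_lit 93062) (.g (nat_lit 1730) (.e (nat_lit 2400) (nat_lit 157) (.e (nat_lit 7592) (nat_lit 407) (.e (nat_lit 73754) (nat_lit 8) (.e (nat_lit 557070) (nat_lit 9) (.e (nat_lit 7936) (nat_lit 26) (.e (nat_lit 376864) (nat_lit 22) (.e (nat_lit 90133) (nat_lit 9) .nil))))))) (.g (nat_lit 4) .nil .nil))) 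
(.lf (nat_lit 93094) (.g (nat_lit 1907) (.e (nat_lit 2411) (nat_lit 157) (.e (nat_lit 5195) (nat_lit 294) (.e (nat_lit 57448) (nat_lit 19) (.e (nat_lit 393234) (nat_lit 17) (.e (nat_lit 2415) (nat_lit 157) .nil))))) .nil))) (.nd (nat_lit 5) 
(.lf (nat_lit 93078) (.g (nat_lit 2760) (.e (nat_lit 2406) (nat_lit 157) (.e (nat_lit 247) (nat_lit 21) (.e (nat_lit 336004) (nat_lit 2) (.e (nat_lit 90176) (nat_lit 15) (.e (nat_lit 188450) (nat_lit 23) (.e (nat_lit 204830) (nat_lit 18) (.e (nat_lit 65280) (nat_lit 233) .nil))))))) (.g (nat_lit 6) .nil .nil))) 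
(.lf (nat_lit 93110) (.g (nat_lit 4104) (.e (nat_lit 2416) (nat_lit 157) (.e (nat_lit 3537) (nat_lit 218) (.e (nat_lit 704738) (nat_lit 11) (.e (nat_lit 16425) (nat_lit 7) (.e (nat_lit 409649) (nat_lit 18) (.e (nat_lit 303140) (nat_lit 10) (.e (nat_lit 434275) (nat_lit 39) (.e (nat_lit 663580) (nat_lit 9) .nil)))))))) (.g (nat_lit 8) .nil .nil))))) (.nd (nat_lit 4) (.nd (nat_lit 5) 
(.lf (nat_lit 93070) (.g (nat_lit 2747) (.e (nat_lit 2403) (nat_lit 157) (.e (nat_lit 4962) (nat_lit 287) (.e (nat_lit 1139) (nat_lit 84) (.e (nat_lit 32787) (nat_lit 9) (.e (nat_lit 65604) (nat_lit 9) (.e (nat_lit 336013) (nat_lit 2) (.e (nat_lit 90165) (nat_lit 12) (.e (nat_lit 164208) (nat_lit 176) .nil)))))))) (.g (nat_lit 7) .nil .nil))) 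
(.lf (nat_lit 93102) (.g (nat_lit 1863) (.e (nat_lit 2415) (nat_lit 157) (.e (nat_lit 5190) (nat_lit 294) (.e (nat_lit 57448) (nat_lit 19) (.e (nat_lit 393234) (nat_lit 17) (.e (nat_lit 2528) (nat_lit 157) (.e (nat_lit 5193) (nat_lit 294) (.e (nat_lit 57448) (nat_lit 19) (.e (nat_lit 393234) (nat_lit 17) .nil)))))))) (.g (nat_lit 4) .nil .nil)))) (.nd (nat_lit 5) 
(.lf (nat_lit 93086) (.g (nat_lit 1840) (.e (nat_lit 2406) (nat_lit 157) (.e (nat_lit 5293) (nat_lit 298) (.e (nat_lit 1250) (nat_lit 92) (.e (nat_lit 98350) (nat_lit 24) (.e (nat_lit 417536) (nat_lit 18) .nil))))) .nil)) 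
(.lf (nat_lit 93118) (.g (nat_lit 4106) (.e (nat_lit 2417) (nat_lit 157) (.e (nat_lit 3538) (nat_lit 218) (.e (nat_lit 704738) (nat_lit 11) (.e (nat_lit 16425) (nat_lit 7) (.e (nat_lit 409649) (nat_lit 18) (.e (nat_lit 303140) (nat_lit 10) (.e (nat_lit 434275) (nat_lit 39) (.e (nat_lit 663574) (nat_lit 9) .nil)))))))) (.g (nat_lit 0) .nil .nil)))))))) 
(.nd (nat_lit 1) (.nd (nat_lit 2) (.nd (nat_lit 3) (.nd (nat_lit 4) (.nd (nat_lit 5) 
(.lf (nat_lit 93057) (.g (nat_lit 1690) (.e (nat_lit 2400) (nat_lit 157) (.e (nat_lit 7592) (nat_lit 407) (.e (nat_lit 73753) (nat_lit 8) (.e (nat_lit 557070) (nat_lit 9) (.e (nat_lit 333) (nat_lit 26) (.e (nat_lit 376862) (nat_lit 22) (.e (nat_lit 90133) (nat_lit 9) .nil))))))) (.g (nat_lit 4) .nil .nil))) 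
(.lf (nat_lit 93089) (.g (nat_lit 5417) (.e (nat_lit 2406) (nat_lit 157) (.e (nat_lit 5293) (nat_lit 298) (.e (nat_lit 1656) (nat_lit 115) (.e (nat_lit 393301) (nat_lit 27) (.e (nat_lit 491559) (nat_lit 10) (.e (nat_lit 344177) (nat_lit 43) (.e (nat_lit 777984) (nat_lit 0) .nil))))))) (.g (nat_lit 5) .nil .nil)))) (.nd (nat_lit 5) 
(.lf (nat_lit 93073) (.g (nat_lit 1793) (.e (nat_lit 2403) (nat_lit 157) (.e (nat_lit 5153) (nat_lit 292) (.e (nat_lit 1220) (nat_lit 90) (.e (nat_lit 81938) (nat_lit 20) (.e (nat_lit 1963) (nat_lit 134) (.e (nat_lit 639001) (nat_lit 10) (.e (nat_lit 188431) (nat_lit 20) .nil))))))) (.g (nat_lit 5) .nil .nil))) 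
(.lf (nat_lit 93105) (.g (nat_lit 1208) (.e (nat_lit 2416) (nat_lit 157) (.e (nat_lit 232) (nat_lit 21) (.e (nat_lit 336060) (nat_lit 7) (.e (nat_lit 319505) (nat_lit 10) .nil)))) .nil)))) (.nd (nat_lit 4) (.nd (nat_lit 5) 
(.lf (nat_lit 93065) (.g (nat_lit 3716) (.e (nat_lit 2402) (nat_lit 157) (.e (nat_lit 6930) (nat_lit 373) (.e (nat_lit 57372) (nat_lit 2) (.e (nat_lit 90176) (nat_lit 15) (.e (nat_lit 188450) (nat_lit 23) (.e (nat_lit 204852) (nat_lit 26) (.e (nat_lit 336257) (nat_lit 15) .nil))))))) (.g (nat_lit 0) .nil .nil))) 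
(.lf (nat_lit 93097) (.g (nat_lit 1920) (.e (nat_lit 2413) (nat_lit 157) (.e (nat_lit 5195) (nat_lit 294) (.e (nat_lit 57448) (nat_lit 19) (.e (nat_lit 393234) (nat_lit 17) (.e (nat_lit 2528) (nat_lit 157) (.e (nat_lit 5192) (nat_lit 294) (.e (nat_lit 57448) (nat_lit 19) (.e (nat_lit 393234) (nat_lit 17) .nil)))))))) (.g (nat_lit 4) .nil .nil)))) (.nd (nat_lit 5) 
(.lf (nat_lit 93081) (.g (nat_lit 4260) (.e (nat_lit 2406) (nat_lit 157) (.e (nat_lit 5293) (nat_lit 298) (.e (nat_lit 1250) (nat_lit 92) (.e (nat_lit 98350) (nat_lit 24) (.e (nat_lit 409644) (nat_lit 18) (.e (nat_lit 303119) (nat_lit 3) (.e (nat_lit 204819) (nat_lit 17) (.e (nat_lit 6113) (nat_lit 332) .nil)))))))) (.g (nat_lit 8) .nil .nil))) 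
(.lf (nat_lit 93113) (.g (nat_lit 2269) (.e (nat_lit 2416) (nat_lit 157) (.e (nat_lit 5355) (nat_lit 298) (.e (nat_lit 1661) (nat_lit 115) (.e (nat_lit 393260) (nat_lit 21) (.e (nat_lit 409648) (nat_lit 18) (.e (nat_lit 303104) (nat_lit 0) (.e (nat_lit 3459) (nat_lit 216) (.e (nat_lit 688129) (nat_lit 0) .nil)))))))) (.g (nat_lit 5) .nil .nil)))))) 
(.nd (nat_lit 3) (.nd (nat_lit 4) (.nd (nat_lit 5) 
(.lf (nat_lit 93061) (.g (nat_lit 1744) (.e (nat_lit 2400) (nat_lit 157) (.e (nat_lit 7592) (nat_lit 407) (.e (nat_lit 73754) (nat_lit 8) (.e (nat_lit 557070) (nat_lit 9) (.e (nat_lit 333) (nat_lit 26) (.e (nat_lit 376864) (nat_lit 22) (.e (nat_lit 90133) (nat_lit 9) .nil))))))) (.g (nat_lit 4) .nil .nil))) 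
(.lf (nat_lit 93093) (.g (nat_lit 1900) (.e (nat_lit 2411) (nat_lit 157) (.e (nat_lit 5195) (nat_lit 294) (.e (nat_lit 57448) (nat_lit 19) (.e (nat_lit 393234) (nat_lit 17) (.e (nat_lit 2414) (nat_lit 157) .nil))))) .nil))) (.nd (nat_lit 5) 
(.lf (nat_lit 93077) (.g (nat_lit 2775) (.e (nat_lit 2405) (nat_lit 157) (.e (nat_lit 5566) (nat_lit 308) (.e (nat_lit 57389) (nat_lit 5) (.e (nat_lit 114711) (nat_lit 21) (.e (nat_lit 57847) (nat_lit 252) (.e (nat_lit 57363) (nat_lit 1) (.e (nat_lit 57847) (nat_lit 252) (.e (nat_lit 57448) (nat_lit 19) (.e (nat_lit 393234) (nat_lit 17) .nil))))))))) (.g (nat_lit 5) .nil .nil))) 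
(.lf (nat_lit 93109) (.g (nat_lit 4203) (.e (nat_lit 2416) (nat_lit 157) (.e (nat_lit 3535) (nat_lit 218) (.e (nat_lit 704738) (nat_lit 11) (.e (nat_lit 16425) (nat_lit 7) (.e (nat_lit 409649) (nat_lit 18) (.e (nat_lit 303140) (nat_lit 10) (.e (nat_lit 434275) (nat_lit 39) (.e (nat_lit 663580) (nat_lit 9) .nil)))))))) (.g (nat_lit 0) .nil .nil))))) (.nd (nat_lit 4) (.nd (nat_lit 5) 
(.lf (nat_lit 93069) (.g (nat_lit 3435) (.e (nat_lit 2403) (nat_lit 157) (.e (nat_lit 4921) (nat_lit 287) (.e (nat_lit 1141) (nat_lit 84) (.e (nat_lit 32787) (nat_lit 9) (.e (nat_lit 65598) (nat_lit 9) (.e (nat_lit 336013) (nat_lit 2) (.e (nat_lit 90165) (nat_lit 12) (.e (nat_lit 164208) (nat_lit 176) .nil)))))))) (.g (nat_lit 8) .nil .nil))) 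
(.lf (nat_lit 93101) (.g (nat_lit 1941) (.e (nat_lit 2415) (nat_lit 157) (.e (nat_lit 5190) (nat_lit 294) (.e (nat_lit 57448) (nat_lit 19) (.e (nat_lit 393234) (nat_lit 17) (.e (nat_lit 2415) (nat_lit 157) (.e (nat_lit 5193) (nat_lit 294) (.e (nat_lit 57448) (nat_lit 19) (.e (nat_lit 393234) (nat_lit 17) .nil)))))))) (.g (nat_lit 5) .nil .nil)))) (.nd (nat_lit 5) 
(.lf (nat_lit 93085) (.g (nat_lit 3984) (.e (nat_lit 2406) (nat_lit 157) (.e (nat_lit 5293) (nat_lit 298) (.e (nat_lit 1250) (nat_lit 92) (.e (nat_lit 98350) (nat_lit 24) (.e (nat_lit 409648) (nat_lit 18) (.e (nat_lit 303119) (nat_lit 3) (.e (nat_lit 204819) (nat_lit 17) (.e (nat_lit 6113) (nat_lit 332) .nil)))))))) (.g (nat_lit 7) .nil .nil))) 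
(.lf (nat_lit 93117) (.g (nat_lit 3211) (.e (nat_lit 2416) (nat_lit 157) (.e (nat_lit 6931) (nat_lit 373) (.e (nat_lit 57375) (nat_lit 2) (.e (nat_lit 90176) (nat_lit 15) (.e (nat_lit 188450) (nat_lit 23) (.e (nat_lit 204852) (nat_lit 26) (.e (nat_lit 336258) (nat_lit 15) .nil))))))) (.g (nat_lit 0) .nil .nil))))))) (.nd (nat_lit 2) (.nd (nat_lit 3) (.nd (nat_lit 4) (.nd (nat_lit 5) 
(.lf (nat_lit 93059) (.g (nat_lit 1613) (.e (nat_lit 2400) (nat_lit 157) (.e (nat_lit 7592) (nat_lit 407) (.e (nat_lit 73753) (nat_lit 8) (.e (nat_lit 557074) (nat_lit 9) (.e (nat_lit 7936) (nat_lit 26) .nil))))) .nil)) 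
(.lf (nat_lit 93091) (.g (nat_lit 1810) (.e (nat_lit 2411) (nat_lit 157) (.e (nat_lit 5195) (nat_lit 294) (.e (nat_lit 57448) (nat_lit 19) (.e (nat_lit 393234) (nat_lit 17) (.e (nat_lit 2411) (nat_lit 157) .nil))))) .nil))) (.nd (nat_lit 5) 
(.lf (nat_lit 93075) (.g (nat_lit 1154) (.e (nat_lit 2404) (nat_lit 157) (.e (nat_lit 5629) (nat_lit 312) (.e (nat_lit 351) (nat_lit 28) (.e (nat_lit 393279) (nat_lit 23) (.e (nat_lit 426129) (nat_lit 3) .nil))))) .nil)) 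
(.lf (nat_lit 93107) (.g (nat_lit 184) (.e (nat_lit 2416) (nat_lit 157) (.e (nat_lit 249) (nat_lit 21) (.e (nat_lit 336196) (nat_lit 12) .nil))) .nil)))) (.nd (nat_lit 4) (.nd (nat_lit 5) 
(.lf (nat_lit 93067) (.g (nat_lit 2030) (.e (nat_lit 2403) (nat_lit 157) (.e (nat_lit 4413) (nat_lit 259) (.e (nat_lit 57375) (nat_lit 2) (.e (nat_lit 90176) (nat_lit 15) (.e (nat_lit 188439) (nat_lit 20) (.e (nat_lit 3270) (nat_lit 199) (.e (nat_lit 548913) (nat_lit 18) (.e (nat_lit 172035) (nat_lit 0) .nil)))))))) (.g (nat_lit 5) .nil .nil))) 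
(.lf (nat_lit 93099) (.g (nat_lit 1907) (.e (nat_lit 2414) (nat_lit 157) (.e (nat_lit 5195) (nat_lit 294) (.e (nat_lit 57448) (nat_lit 19) (.e (nat_lit 393234) (nat_lit 17) (.e (nat_lit 2413) (nat_lit 157) .nil))))) .nil))) (.nd (nat_lit 5) 
(.lf (nat_lit 93083) (.g (nat_lit 3708) (.e (nat_lit 2406) (nat_lit 157) (.e (nat_lit 5293) (nat_lit 298) (.e (nat_lit 1250) (nat_lit 92) (.e (nat_lit 98350) (nat_lit 24) (.e (nat_lit 409646) (nat_lit 18) (.e (nat_lit 303119) (nat_lit 3) (.e (nat_lit 204819) (nat_lit 17) (.e (nat_lit 6113) (nat_lit 332) .nil)))))))) (.g (nat_lit 6) .nil .nil))) 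
(.lf (nat_lit 93115) (.g (nat_lit 1574) (.e (nat_lit 2416) (nat_lit 157) (.e (nat_lit 5939) (nat_lit 322) (.e (nat_lit 57379) (nat_lit 3) (.e (nat_lit 98370) (nat_lit 28) (.e (nat_lit 450304) (nat_lit 18) (.e (nat_lit 393249) (nat_lit 17) .nil)))))) (.g (nat_lit 4) .nil .nil)))))) (.nd (nat_lit 3) (.nd (nat_lit 4) (.nd (nat_lit 5) 
(.lf (nat_lit 93063) (.g (nat_lit 1981) (.e (nat_lit 2402) (nat_lit 157) (.e (nat_lit 720) (nat_lit 64) (.e (nat_lit 688177) (nat_lit 16) (.e (nat_lit 65586) (nat_lit 7) (.e (nat_lit 319531) (nat_lit 16) .nil))))) .nil)) 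
(.lf (nat_lit 93095) (.g (nat_lit 1907) (.e (nat_lit 2413) (nat_lit 157) (.e (nat_lit 5195) (nat_lit 294) (.e (nat_lit 57448) (nat_lit 19) (.e (nat_lit 393234) (nat_lit 17) (.e (nat_lit 2415) (nat_lit 157) .nil))))) .nil))) (.nd (nat_lit 5) 
(.lf (nat_lit 93079) (.g (nat_lit 445) (.e (nat_lit 2406) (nat_lit 157) (.e (nat_lit 5259) (nat_lit 298) (.e (nat_lit 172) (nat_lit 12) (.e (nat_lit 212736) (nat_lit 3) .nil)))) .nil)) 
(.lf (nat_lit 93111) (.g (nat_lit 3867) (.e (nat_lit 2416) (nat_lit 157) (.e (nat_lit 3877) (nat_lit 233) (.e (nat_lit 1220) (nat_lit 90) (.e (nat_lit 81956) (nat_lit 23) (.e (nat_lit 98350) (nat_lit 24) (.e (nat_lit 409649) (nat_lit 18) (.e (nat_lit 303111) (nat_lit 0) .nil))))))) (.g (nat_lit 0) .nil .nil))))) (.nd (nat_lit 4) (.nd (nat_lit 5) 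
(.lf (nat_lit 93071) (.g (nat_lit 1613) (.e (nat_lit 2403) (nat_lit 157) (.e (nat_lit 5153) (nat_lit 292) (.e (nat_lit 989) (nat_lit 81) (.e (nat_lit 1615) (nat_lit 113) (.e (nat_lit 376860) (nat_lit 21) (.e (nat_lit 57832) (nat_lit 250) (.e (nat_lit 7936) (nat_lit 166) (.e (nat_lit 188427) (nat_lit 20) .nil)))))))) (.g (nat_lit 6) .nil .nil))) 
(.lf (nat_lit 93103) (.g (nat_lit 1025) (.e (nat_lit 2415) (nat_lit 157) (.e (nat_lit 5205) (nat_lit 294) (.e (nat_lit 57373) (nat_lit 2) (.e (nat_lit 98048) (nat_lit 6) .nil)))) .nil))) (.nd (nat_lit 5) 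
(.lf (nat_lit 93087) (.g (nat_lit 2316) (.e (nat_lit 2406) (nat_lit 157) (.e (nat_lit 5293) (nat_lit 298) (.e (nat_lit 1633) (nat_lit 114) (.e (nat_lit 385106) (nat_lit 50) (.e (nat_lit 786481) (nat_lit 30) (.e (nat_lit 368384) (nat_lit 0) (.e (nat_lit 5813) (nat_lit 320) (.e (nat_lit 11) (nat_lit 0) .nil)))))))) (.g (nat_lit 5) .nil .nil))) 
(.lf (nat_lit 93119) (.g (nat_lit 3239) (.e (nat_lit 2417) (nat_lit 157) (.e (nat_lit 6931) (nat_lit 373) (.e (nat_lit 57372) (nat_lit 2) (.e (nat_lit 90176) (nat_lit 15) (.e (nat_lit 188450) (nat_lit 23) (.e (nat_lit 204852) (nat_lit 26) (.e (nat_lit 336257) (nat_lit 15) .nil))))))) (.g (nat_lit 7) .nil .nil)))))))))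

noncomputable def tv1277 : DT := (.nd (nat_lit 0) (.nd (nat_lit 1) (.nd (nat_lit 2) (.nd (nat_lit 3) (.nd (nat_lit 4) (.nd (nat_lit 5) 
(.lf (nat_lit 93120) (.g (nat_lit 3221) (.e (nat_lit 2417) (nat_lit 157) (.e (nat_lit 6931) (nat_lit 373) (.e (nat_lit 57372) (nat_lit 2) (.e (nat_lit 90176) (nat_lit 15) (.e (nat_lit 188450) (nat_lit 23) (.e (nat_lit 204852) (nat_lit 26) (.e (nat_lit 336258) (nat_lit 15) .nil))))))) (.g (nat_lit 0) .nil .nil))) 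
(.lf (nat_lit 93152) (.g (nat_lit 3883) (.e (nat_lit 2423) (nat_lit 157) (.e (nat_lit 3878) (nat_lit 233) (.e (nat_lit 1221) (nat_lit 90) (.e (nat_lit 81956) (nat_lit 23) (.e (nat_lit 98350) (nat_lit 24) (.e (nat_lit 409649) (nat_lit 18) (.e (nat_lit 303111) (nat_lit 0) .nil))))))) (.g (nat_lit 7) .nil .nil)))) (.nd (nat_lit 5) 
(.lf (nat_lit 93136) (.g (nat_lit 3819) (.e (nat_lit 2422) (nat_lit 157) (.e (nat_lit 3878) (nat_lit 233) (.e (nat_lit 1221) (nat_lit 90) (.e (nat_lit 81956) (nat_lit 23) (.e (nat_lit 98350) (nat_lit 24) (.e (nat_lit 409648) (nat_lit 18) (.e (nat_lit 303108) (nat_lit 0) .nil))))))) (.g (nat_lit 6) .nil .nil))) 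
(.lf (nat_lit 93168) (.g (nat_lit 3424) (.e (nat_lit 2425) (nat_lit 157) (.e (nat_lit 3878) (nat_lit 233) (.e (nat_lit 1221) (nat_lit 90) (.e (nat_lit 81956) (nat_lit 23) (.e (nat_lit 98350) (nat_lit 24) (.e (nat_lit 409648) (nat_lit 18) (.e (nat_lit 303108) (nat_lit 0) .nil))))))) (.g (nat_lit 6) .nil .nil))))) (.nd (nat_lit 4) (.nd (nat_lit 5) 
(.lf (nat_lit 93128) (.g (nat_lit 3292) (.e (nat_lit 2418) (nat_lit 157) (.e (nat_lit 6931) (nat_lit 373) (.e (nat_lit 57375) (nat_lit 2) (.e (nat_lit 90176) (nat_lit 15) (.e (nat_lit 188450) (nat_lit 23) (.e (nat_lit 204852) (nat_lit 26) (.e (nat_lit 336258) (nat_lit 15) .nil))))))) (.g (nat_lit 0) .nil .nil))) 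
(.lf (nat_lit 93160) (.g (nat_lit 3915) (.e (nat_lit 2424) (nat_lit 157) (.e (nat_lit 3881) (nat_lit 233) (.e (nat_lit 1220) (nat_lit 90) (.e (nat_lit 81956) (nat_lit 23) (.e (nat_lit 98350) (nat_lit 24) (.e (nat_lit 409649) (nat_lit 18) (.e (nat_lit 303111) (nat_lit 0) .nil))))))) (.g (nat_lit 0) .nil .nil)))) (.nd (nat_lit 5) 
(.lf (nat_lit 93144) (.g (nat_lit 2006) (.e (nat_lit 2423) (nat_lit 157) (.e (nat_lit 307) (nat_lit 22) (.e (nat_lit 344126) (nat_lit 25) (.e (nat_lit 548874) (nat_lit 5) (.e (nat_lit 1598) (nat_lit 111) .nil))))) .nil)) 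
(.lf (nat_lit 93176) (.g (nat_lit 4017) (.e (nat_lit 2426) (nat_lit 157) (.e (nat_lit 4598) (nat_lit 269) (.e (nat_lit 1200) (nat_lit 88) (.e (nat_lit 65628) (nat_lit 14) (.e (nat_lit 401459) (nat_lit 13) (.e (nat_lit 483411) (nat_lit 27) (.e (nat_lit 401414) (nat_lit 0) .nil))))))) (.g (nat_lit 7) .nil .nil)))))) (.nd (nat_lit 3) (.nd (nat_lit 4) (.nd (nat_lit 5) 
(.lf (nat_lit 93124) (.g (nat_lit 2041) (.e (nat_lit 2417) (nat_lit 157) (.e (nat_lit 6989) (nat_lit 377) (.e (nat_lit 1361) (nat_lit 102) (.e (nat_lit 286761) (nat_lit 13) (.e (nat_lit 393270) (nat_lit 23) .nil))))) .nil)) 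
(.lf (nat_lit 93156) (.g (nat_lit 3705) (.e (nat_lit 2424) (nat_lit 157) (.e (nat_lit 3875) (nat_lit 233) (.e (nat_lit 1221) (nat_lit 90) (.e (nat_lit 81956) (nat_lit 23) (.e (nat_lit 98350) (nat_lit 24) (.e (nat_lit 409649) (nat_lit 18) (.e (nat_lit 303111) (nat_lit 0) .nil))))))) (.g (nat_lit 0) .nil .nil)))) (.nd (nat_lit 5) 
(.lf (nat_lit 93140) (.g (nat_lit 1789) (.e (nat_lit 2422) (nat_lit 157) (.e (nat_lit 5355) (nat_lit 298) (.e (nat_lit 1661) (nat_lit 115) (.e (nat_lit 393260) (nat_lit 21) (.e (nat_lit 409643) (nat_lit 18) .nil))))) .nil)) 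
(.lf (nat_lit 93172) (.g (nat_lit 2092) (.e (nat_lit 2425) (nat_lit 157) (.e (nat_lit 7237) (nat_lit 382) (.e (nat_lit 1209) (nat_lit 89) (.e (nat_lit 73747) (nat_lit 3) (.e (nat_lit 516176) (nat_lit 14) .nil))))) .nil)))) (.nd (nat_lit 4) (.nd (nat_lit 5) 
(.lf (nat_lit 93132) (.g (nat_lit 1224) (.e (nat_lit 2421) (nat_lit 157) (.e (nat_lit 6989) (nat_lit 377) (.e (nat_lit 1361) (nat_lit 102) (.e (nat_lit 286761) (nat_lit 13) .nil)))) .nil)) 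
(.lf (nat_lit 93164) (.g (nat_lit 3618) (.e (nat_lit 2425) (nat_lit 157) (.e (nat_lit 3875) (nat_lit 233) (.e (nat_lit 1220) (nat_lit 90) (.e (nat_lit 81956) (nat_lit 23) (.e (nat_lit 98350) (nat_lit 24) (.e (nat_lit 409649) (nat_lit 18) (.e (nat_lit 303111) (nat_lit 0) .nil))))))) (.g (nat_lit 0) .nil .nil)))) (.nd (nat_lit 5) 
(.lf (nat_lit 93148) (.g (nat_lit 3012) (.e (nat_lit 2423) (nat_lit 157) (.e (nat_lit 3875) (nat_lit 233) (.e (nat_lit 1221) (nat_lit 90) (.e (nat_lit 81956) (nat_lit 23) (.e (nat_lit 98350) (nat_lit 24) (.e (nat_lit 409648) (nat_lit 18) (.e (nat_lit 303108) (nat_lit 0) .nil))))))) (.g (nat_lit 7) .nil .nil))) 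
(.lf (nat_lit 93180) (.g (nat_lit 3765) (.e (nat_lit 2427) (nat_lit 157) (.e (nat_lit 4598) (nat_lit 269) (.e (nat_lit 1200) (nat_lit 88) (.e (nat_lit 65628) (nat_lit 14) (.e (nat_lit 401459) (nat_lit 13) (.e (nat_lit 483411) (nat_lit 27) (.e (nat_lit 401408) (nat_lit 0) .nil))))))) (.g (nat_lit 0) .nil .nil))))))) (.nd (nat_lit 2) (.nd (nat_lit 3) (.nd (nat_lit 4) (.nd (nat_lit 5) 
(.lf (nat_lit 93122) (.g (nat_lit 3333) (.e (nat_lit 2417) (nat_lit 157) (.e (nat_lit 6931) (nat_lit 373) (.e (nat_lit 57375) (nat_lit 2) (.e (nat_lit 90176) (nat_lit 15) (.e (nat_lit 188450) (nat_lit 23) (.e (nat_lit 204852) (nat_lit 26) (.e (nat_lit 336258) (nat_lit 15) .nil))))))) (.g (nat_lit 0) .nil .nil))) 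
(.lf (nat_lit 93154) (.g (nat_lit 4035) (.e (nat_lit 2424) (nat_lit 157) (.e (nat_lit 3843) (nat_lit 233) (.e (nat_lit 1218) (nat_lit 90) (.e (nat_lit 81956) (nat_lit 23) (.e (nat_lit 98350) (nat_lit 24) (.e (nat_lit 409649) (nat_lit 18) (.e (nat_lit 303111) (nat_lit 0) .nil))))))) (.g (nat_lit 7) .nil .nil)))) (.nd (nat_lit 5) 
(.lf (nat_lit 93138) (.g (nat_lit 2751) (.e (nat_lit 2422) (nat_lit 157) (.e (nat_lit 4751) (nat_lit 281) (.e (nat_lit 1128) (nat_lit 83) (.e (nat_lit 16392) (nat_lit 0) (.e (nat_lit 6989) (nat_lit 377) (.e (nat_lit 2779) (nat_lit 178) (.e (nat_lit 286771) (nat_lit 29) (.e (nat_lit 442409) (nat_lit 20) .nil)))))))) (.g (nat_lit 7) .nil .nil))) 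
(.lf (nat_lit 93170) (.g (nat_lit 5207) (.e (nat_lit 2425) (nat_lit 157) (.e (nat_lit 4549) (nat_lit 269) (.e (nat_lit 1201) (nat_lit 88) (.e (nat_lit 65630) (nat_lit 14) (.e (nat_lit 401459) (nat_lit 13) (.e (nat_lit 483411) (nat_lit 27) (.e (nat_lit 401414) (nat_lit 0) .nil))))))) (.g (nat_lit 7) .nil .nil))))) (.nd (nat_lit 4) (.nd (nat_lit 5) 
(.lf (nat_lit 93130) (.g (nat_lit 3393) (.e (nat_lit 2420) (nat_lit 157) (.e (nat_lit 3105) (nat_lit 192) (.e (nat_lit 491540) (nat_lit 3) (.e (nat_lit 98373) (nat_lit 29) (.e (nat_lit 450587) (nat_lit 10) (.e (nat_lit 573475) (nat_lit 12) (.e (nat_lit 57345) (nat_lit 0) (.e (nat_lit 6852) (nat_lit 371) .nil)))))))) (.g (nat_lit 0) .nil .nil))) 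
(.lf (nat_lit 93162) (.g (nat_lit 1259) (.e (nat_lit 2425) (nat_lit 157) (.e (nat_lit 268) (nat_lit 21) (.e (nat_lit 336228) (nat_lit 14) (.e (nat_lit 401428) (nat_lit 3) .nil)))) .nil))) (.nd (nat_lit 5) 
(.lf (nat_lit 93146) (.g (nat_lit 3464) (.e (nat_lit 2423) (nat_lit 157) (.e (nat_lit 3828) (nat_lit 233) (.e (nat_lit 1222) (nat_lit 90) (.e (nat_lit 81956) (nat_lit 23) (.e (nat_lit 98350) (nat_lit 24) .nil))))) .nil)) 
(.lf (nat_lit 93178) (.g (nat_lit 2724) (.e (nat_lit 2426) (nat_lit 157) (.e (nat_lit 5355) (nat_lit 298) (.e (nat_lit 1661) (nat_lit 115) (.e (nat_lit 393260) (nat_lit 21) (.e (nat_lit 409649) (nat_lit 18) (.e (nat_lit 303114) (nat_lit 1) (.e (nat_lit 164151) (nat_lit 152) (.e (nat_lit 87) (nat_lit 0) .nil)))))))) (.g (nat_lit 5) .nil .nil)))))) (.nd (nat_lit 3) (.nd (nat_lit 4) (.nd (nat_lit 5) 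
(.lf (nat_lit 93126) (.g (nat_lit 3537) (.e (nat_lit 2418) (nat_lit 157) (.e (nat_lit 4541) (nat_lit 267) (.e (nat_lit 163902) (nat_lit 12) (.e (nat_lit 426472) (nat_lit 25) (.e (nat_lit 319531) (nat_lit 16) (.e (nat_lit 286761) (nat_lit 13) (.e (nat_lit 393237) (nat_lit 17) .nil))))))) (.g (nat_lit 7) .nil .nil))) 
(.lf (nat_lit 93158) (.g (nat_lit 2737) (.e (nat_lit 2424) (nat_lit 157) (.e (nat_lit 3878) (nat_lit 233) (.e (nat_lit 1221) (nat_lit 90) (.e (nat_lit 81956) (nat_lit 23) (.e (nat_lit 98350) (nat_lit 24) (.e (nat_lit 409648) (nat_lit 18) (.e (nat_lit 303108) (nat_lit 0) .nil))))))) (.g (nat_lit 5) .nil .nil)))) (.nd (nat_lit 5) 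
(.lf (nat_lit 93142) (.g (nat_lit 3389) (.e (nat_lit 2422) (nat_lit 157) (.e (nat_lit 6931) (nat_lit 373) (.e (nat_lit 57372) (nat_lit 2) (.e (nat_lit 90176) (nat_lit 15) (.e (nat_lit 188450) (nat_lit 23) (.e (nat_lit 204852) (nat_lit 26) (.e (nat_lit 336257) (nat_lit 15) .nil))))))) (.g (nat_lit 0) .nil .nil))) 
(.lf (nat_lit 93174) (.g (nat_lit 4010) (.e (nat_lit 2426) (nat_lit 157) (.e (nat_lit 4588) (nat_lit 269) (.e (nat_lit 1196) (nat_lit 88) (.e (nat_lit 65630) (nat_lit 14) (.e (nat_lit 401459) (nat_lit 13) (.e (nat_lit 483411) (nat_lit 27) (.e (nat_lit 401414) (nat_lit 0) .nil))))))) (.g (nat_lit 7) .nil .nil))))) (.nd (nat_lit 4) (.nd (nat_lit 5) 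
(.lf (nat_lit 93134) (.g (nat_lit 3997) (.e (nat_lit 2422) (nat_lit 157) (.e (nat_lit 3878) (nat_lit 233) (.e (nat_lit 1220) (nat_lit 90) (.e (nat_lit 81956) (nat_lit 23) (.e (nat_lit 98350) (nat_lit 24) (.e (nat_lit 409648) (nat_lit 18) (.e (nat_lit 303108) (nat_lit 0) .nil))))))) (.g (nat_lit 6) .nil .nil))) 
(.lf (nat_lit 93166) (.g (nat_lit 3677) (.e (nat_lit 2425) (nat_lit 157) (.e (nat_lit 3878) (nat_lit 233) (.e (nat_lit 1220) (nat_lit 90) (.e (nat_lit 81956) (nat_lit 23) (.e (nat_lit 98350) (nat_lit 24) (.e (nat_lit 409648) (nat_lit 18) (.e (nat_lit 303108) (nat_lit 0) .nil))))))) (.g (nat_lit 6) .nil .nil)))) (.nd (nat_lit 5) 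
(.lf (nat_lit 93150) (.g (nat_lit 4105) (.e (nat_lit 2423) (nat_lit 157) (.e (nat_lit 3878) (nat_lit 233) (.e (nat_lit 1220) (nat_lit 90) (.e (nat_lit 81956) (nat_lit 23) (.e (nat_lit 98350) (nat_lit 24) (.e (nat_lit 409649) (nat_lit 18) (.e (nat_lit 303111) (nat_lit 0) .nil))))))) (.g (nat_lit 7) .nil .nil))) 
(.lf (nat_lit 93182) (.g (nat_lit 1429) (.e (nat_lit 2430) (nat_lit 157) (.e (nat_lit 3098) (nat_lit 192) (.e (nat_lit 491565) (nat_lit 12) (.e (nat_lit 385102) (nat_lit 50) .nil)))) .nil))))))) (.nd (nat_lit 1) (.nd (nat_lit 2) (.nd (nat_lit 3) (.nd (nat_lit 4) (.nd (nat_lit 5) 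
(.lf (nat_lit 93121) (.g (nat_lit 3351) (.e (nat_lit 2417) (nat_lit 157) (.e (nat_lit 6931) (nat_lit 373) (.e (nat_lit 57375) (nat_lit 2) (.e (nat_lit 90176) (nat_lit 15) (.e (nat_lit 188450) (nat_lit 23) (.e (nat_lit 204852) (nat_lit 26) (.e (nat_lit 336257) (nat_lit 15) .nil))))))) (.g (nat_lit 7) .nil .nil))) 
(.lf (nat_lit 93153) (.g (nat_lit 725) (.e (nat_lit 2423) (nat_lit 157) (.e (nat_lit 4616) (nat_lit 269) (.e (nat_lit 1209) (nat_lit 89) (.e (nat_lit 73782) (nat_lit 32) .nil)))) .nil))) (.nd (nat_lit 5) 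
(.lf (nat_lit 93137) (.g (nat_lit 2986) (.e (nat_lit 2422) (nat_lit 157) (.e (nat_lit 3878) (nat_lit 233) (.e (nat_lit 1221) (nat_lit 90) (.e (nat_lit 81956) (nat_lit 23) (.e (nat_lit 98350) (nat_lit 24) (.e (nat_lit 409649) (nat_lit 18) (.e (nat_lit 303111) (nat_lit 0) .nil))))))) (.g (nat_lit 5) .nil .nil))) 
(.lf (nat_lit 93169) (.g (nat_lit 4374) (.e (nat_lit 2425) (nat_lit 157) (.e (nat_lit 3878) (nat_lit 233) (.e (nat_lit 1221) (nat_lit 90) (.e (nat_lit 81956) (nat_lit 23) (.e (nat_lit 98350) (nat_lit 24) (.e (nat_lit 409649) (nat_lit 18) (.e (nat_lit 303111) (nat_lit 0) .nil))))))) (.g (nat_lit 0) .nil .nil))))) (.nd (nat_lit 4) (.nd (nat_lit 5) 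
(.lf (nat_lit 93129) (.g (nat_lit 3312) (.e (nat_lit 2419) (nat_lit 157) (.e (nat_lit 3105) (nat_lit 192) (.e (nat_lit 491540) (nat_lit 3) (.e (nat_lit 98373) (nat_lit 29) (.e (nat_lit 450587) (nat_lit 10) (.e (nat_lit 573475) (nat_lit 12) (.e (nat_lit 57345) (nat_lit 0) (.e (nat_lit 6848) (nat_lit 371) .nil)))))))) (.g (nat_lit 8) .nil .nil))) 
(.lf (nat_lit 93161) (.g (nat_lit 3989) (.e (nat_lit 2424) (nat_lit 157) (.e (nat_lit 3881) (nat_lit 233) (.e (nat_lit 1221) (nat_lit 90) (.e (nat_lit 81956) (nat_lit 23) (.e (nat_lit 98350) (nat_lit 24) (.e (nat_lit 409649) (nat_lit 18) (.e (nat_lit 303111) (nat_lit 0) .nil))))))) (.g (nat_lit 0) .nil .nil)))) (.nd (nat_lit 5) 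
(.lf (nat_lit 93145) (.g (nat_lit 1258) (.e (nat_lit 2423) (nat_lit 157) (.e (nat_lit 356) (nat_lit 29) (.e (nat_lit 401456) (nat_lit 13) (.e (nat_lit 483413) (nat_lit 27) .nil)))) .nil)) 
(.lf (nat_lit 93177) (.g (nat_lit 2633) (.e (nat_lit 2426) (nat_lit 157) (.e (nat_lit 5355) (nat_lit 298) (.e (nat_lit 1661) (nat_lit 115) (.e (nat_lit 393260) (nat_lit 21) (.e (nat_lit 409643) (nat_lit 18) (.e (nat_lit 303115) (nat_lit 1) (.e (nat_lit 164151) (nat_lit 152) (.e (nat_lit 87) (nat_lit 0) .nil)))))))) (.g (nat_lit 6) .nil .nil)))))) (.nd (nat_lit 3) (.nd (nat_lit 4) (.nd (nat_lit 5) 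
(.lf (nat_lit 93125) (.g (nat_lit 1856) (.e (nat_lit 2418) (nat_lit 157) (.e (nat_lit 4540) (nat_lit 267) (.e (nat_lit 163903) (nat_lit 12) (.e (nat_lit 426472) (nat_lit 25) (.e (nat_lit 319530) (nat_lit 16) (.e (nat_lit 286761) (nat_lit 13) (.e (nat_lit 393237) (nat_lit 17) .nil))))))) (.g (nat_lit 4) .nil .nil))) 
(.lf (nat_lit 93157) (.g (nat_lit 2952) (.e (nat_lit 2424) (nat_lit 157) (.e (nat_lit 3878) (nat_lit 233) (.e (nat_lit 1220) (nat_lit 90) (.e (nat_lit 81956) (nat_lit 23) (.e (nat_lit 98350) (nat_lit 24) (.e (nat_lit 409648) (nat_lit 18) (.e (nat_lit 303108) (nat_lit 0) .nil))))))) (.g (nat_lit 5) .nil .nil)))) (.nd (nat_lit 5) 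
(.lf (nat_lit 93141) (.g (nat_lit 2449) (.e (nat_lit 2422) (nat_lit 157) (.e (nat_lit 5355) (nat_lit 298) (.e (nat_lit 1661) (nat_lit 115) (.e (nat_lit 393260) (nat_lit 21) (.e (nat_lit 409649) (nat_lit 18) (.e (nat_lit 303115) (nat_lit 1) (.e (nat_lit 164151) (nat_lit 152) (.e (nat_lit 87) (nat_lit 0) .nil)))))))) (.g (nat_lit 5) .nil .nil))) 
(.lf (nat_lit 93173) (.g (nat_lit 1986) (.e (nat_lit 2426) (nat_lit 157) (.e (nat_lit 604) (nat_lit 45) (.e (nat_lit 532504) (nat_lit 1) (.e (nat_lit 57852) (nat_lit 252) (.e (nat_lit 57419) (nat_lit 12) .nil))))) .nil)))) (.nd (nat_lit 4) (.nd (nat_lit 5) 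
(.lf (nat_lit 93133) (.g (nat_lit 2068) (.e (nat_lit 2422) (nat_lit 157) (.e (nat_lit 232) (nat_lit 21) (.e (nat_lit 336060) (nat_lit 7) (.e (nat_lit 319533) (nat_lit 16) (.e (nat_lit 286753) (nat_lit 10) .nil))))) .nil)) 
(.lf (nat_lit 93165) (.g (nat_lit 3495) (.e (nat_lit 2425) (nat_lit 157) (.e (nat_lit 3875) (nat_lit 233) (.e (nat_lit 1221) (nat_lit 90) (.e (nat_lit 81956) (nat_lit 23) (.e (nat_lit 98350) (nat_lit 24) (.e (nat_lit 409649) (nat_lit 18) (.e (nat_lit 303111) (nat_lit 0) .nil))))))) (.g (nat_lit 0) .nil .nil)))) (.nd (nat_lit 5) 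
(.lf (nat_lit 93149) (.g (nat_lit 4336) (.e (nat_lit 2423) (nat_lit 157) (.e (nat_lit 3878) (nat_lit 233) (.e (nat_lit 1220) (nat_lit 90) (.e (nat_lit 81956) (nat_lit 23) (.e (nat_lit 98350) (nat_lit 24) (.e (nat_lit 409648) (nat_lit 18) (.e (nat_lit 303108) (nat_lit 0) .nil))))))) (.g (nat_lit 7) .nil .nil))) 
(.lf (nat_lit 93181) (.g (nat_lit 2385) (.e (nat_lit 2427) (nat_lit 157) (.e (nat_lit 6740) (nat_lit 365) (.e (nat_lit 1201) (nat_lit 88) (.e (nat_lit 65610) (nat_lit 10) (.e (nat_lit 344123) (nat_lit 24) (.e (nat_lit 540724) (nat_lit 28) (.e (nat_lit 442408) (nat_lit 20) .nil))))))) (.g (nat_lit 0) .nil .nil))))))) (.nd (nat_lit 2) (.nd (nat_lit 3) (.nd (nat_lit 4) (.nd (nat_lit 5) 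
(.lf (nat_lit 93123) (.g (nat_lit 1224) (.e (nat_lit 2417) (nat_lit 157) (.e (nat_lit 6989) (nat_lit 377) (.e (nat_lit 1361) (nat_lit 102) (.e (nat_lit 286761) (nat_lit 13) .nil)))) .nil)) 
(.lf (nat_lit 93155) (.g (nat_lit 3903) (.e (nat_lit 2424) (nat_lit 157) (.e (nat_lit 3875) (nat_lit 233) (.e (nat_lit 1220) (nat_lit 90) (.e (nat_lit 81956) (nat_lit 23) (.e (nat_lit 98350) (nat_lit 24) (.e (nat_lit 409649) (nat_lit 18) (.e (nat_lit 303111) (nat_lit 0) .nil))))))) (.g (nat_lit 0) .nil .nil)))) (.nd (nat_lit 5) 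
(.lf (nat_lit 93139) (.g (nat_lit 2374) (.e (nat_lit 2422) (nat_lit 157) (.e (nat_lit 4760) (nat_lit 281) (.e (nat_lit 1128) (nat_lit 83) (.e (nat_lit 16392) (nat_lit 0) (.e (nat_lit 6989) (nat_lit 377) (.e (nat_lit 2779) (nat_lit 178) (.e (nat_lit 286771) (nat_lit 29) (.e (nat_lit 442409) (nat_lit 20) .nil)))))))) (.g (nat_lit 6) .nil .nil))) 
(.lf (nat_lit 93171) (.g (nat_lit 1337) (.e (nat_lit 2425) (nat_lit 157) (.e (nat_lit 4556) (nat_lit 269) (.e (nat_lit 1201) (nat_lit 88) (.e (nat_lit 65628) (nat_lit 14) (.e (nat_lit 401459) (nat_lit 13) .nil))))) .nil)))) (.nd (nat_lit 4) (.nd (nat_lit 5) 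
(.lf (nat_lit 93131) (.g (nat_lit 3956) (.e (nat_lit 2421) (nat_lit 157) (.e (nat_lit 3538) (nat_lit 218) (.e (nat_lit 704738) (nat_lit 11) (.e (nat_lit 16425) (nat_lit 7) (.e (nat_lit 409649) (nat_lit 18) (.e (nat_lit 303140) (nat_lit 10) (.e (nat_lit 434275) (nat_lit 39) (.e (nat_lit 663574) (nat_lit 9) .nil)))))))) (.g (nat_lit 0) .nil .nil))) 
(.lf (nat_lit 93163) (.g (nat_lit 1167) (.e (nat_lit 2425) (nat_lit 157) (.e (nat_lit 268) (nat_lit 21) (.e (nat_lit 336228) (nat_lit 14) (.e (nat_lit 401459) (nat_lit 13) .nil)))) .nil))) (.nd (nat_lit 5) 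
(.lf (nat_lit 93147) (.g (nat_lit 3273) (.e (nat_lit 2423) (nat_lit 157) (.e (nat_lit 3875) (nat_lit 233) (.e (nat_lit 1220) (nat_lit 90) (.e (nat_lit 81956) (nat_lit 23) (.e (nat_lit 98350) (nat_lit 24) (.e (nat_lit 409648) (nat_lit 18) (.e (nat_lit 303108) (nat_lit 0) .nil))))))) (.g (nat_lit 7) .nil .nil))) 
(.lf (nat_lit 93179) (.g (nat_lit 2764) (.e (nat_lit 2427) (nat_lit 157) (.e (nat_lit 247) (nat_lit 21) (.e (nat_lit 336012) (nat_lit 2) (.e (nat_lit 90176) (nat_lit 15) (.e (nat_lit 188450) (nat_lit 23) (.e (nat_lit 204830) (nat_lit 18) (.e (nat_lit 65280) (nat_lit 233) .nil))))))) (.g (nat_lit 6) .nil .nil)))))) (.nd (nat_lit 3) (.nd (nat_lit 4) (.nd (nat_lit 5) 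
(.lf (nat_lit 93127) (.g (nat_lit 3188) (.e (nat_lit 2418) (nat_lit 157) (.e (nat_lit 6931) (nat_lit 373) (.e (nat_lit 57372) (nat_lit 2) (.e (nat_lit 90176) (nat_lit 15) (.e (nat_lit 188450) (nat_lit 23) (.e (nat_lit 204852) (nat_lit 26) (.e (nat_lit 336258) (nat_lit 15) .nil))))))) (.g (nat_lit 0) .nil .nil))) 
(.lf (nat_lit 93159) (.g (nat_lit 4394) (.e (nat_lit 2424) (nat_lit 157) (.e (nat_lit 3878) (nat_lit 233) (.e (nat_lit 1221) (nat_lit 90) (.e (nat_lit 81956) (nat_lit 23) (.e (nat_lit 98350) (nat_lit 24) (.e (nat_lit 409649) (nat_lit 18) (.e (nat_lit 303111) (nat_lit 0) .nil))))))) (.g (nat_lit 0) .nil .nil)))) (.nd (nat_lit 5) 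
(.lf (nat_lit 93143) (.g (nat_lit 3503) (.e (nat_lit 2422) (nat_lit 157) (.e (nat_lit 6931) (nat_lit 373) (.e (nat_lit 57375) (nat_lit 2) (.e (nat_lit 90176) (nat_lit 15) (.e (nat_lit 188450) (nat_lit 23) (.e (nat_lit 204852) (nat_lit 26) (.e (nat_lit 336257) (nat_lit 15) .nil))))))) (.g (nat_lit 0) .nil .nil))) 
(.lf (nat_lit 93175) (.g (nat_lit 3767) (.e (nat_lit 2426) (nat_lit 157) (.e (nat_lit 4588) (nat_lit 269) (.e (nat_lit 1197) (nat_lit 88) (.e (nat_lit 65630) (nat_lit 14) (.e (nat_lit 401459) (nat_lit 13) (.e (nat_lit 483411) (nat_lit 27) (.e (nat_lit 401414) (nat_lit 0) .nil))))))) (.g (nat_lit 7) .nil .nil))))) (.nd (nat_lit 4) (.nd (nat_lit 5) 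
(.lf (nat_lit 93135) (.g (nat_lit 3112) (.e (nat_lit 2422) (nat_lit 157) (.e (nat_lit 3878) (nat_lit 233) (.e (nat_lit 1220) (nat_lit 90) (.e (nat_lit 81956) (nat_lit 23) (.e (nat_lit 98350) (nat_lit 24) (.e (nat_lit 409649) (nat_lit 18) (.e (nat_lit 303111) (nat_lit 0) .nil))))))) (.g (nat_lit 5) .nil .nil))) 
(.lf (nat_lit 93167) (.g (nat_lit 4575) (.e (nat_lit 2425) (nat_lit 157) (.e (nat_lit 3878) (nat_lit 233) (.e (nat_lit 1220) (nat_lit 90) (.e (nat_lit 81956) (nat_lit 23) (.e (nat_lit 98350) (nat_lit 24) (.e (nat_lit 409649) (nat_lit 18) (.e (nat_lit 303111) (nat_lit 0) .nil))))))) (.g (nat_lit 0) .nil .nil)))) (.nd (nat_lit 5) 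
(.lf (nat_lit 93151) (.g (nat_lit 4052) (.e (nat_lit 2423) (nat_lit 157) (.e (nat_lit 3878) (nat_lit 233) (.e (nat_lit 1221) (nat_lit 90) (.e (nat_lit 81956) (nat_lit 23) (.e (nat_lit 98350) (nat_lit 24) (.e (nat_lit 409648) (nat_lit 18) (.e (nat_lit 303108) (nat_lit 0) .nil))))))) (.g (nat_lit 7) .nil .nil))) 
(.lf (nat_lit 93183) (.g (nat_lit 1531) (.e (nat_lit 2430) (nat_lit 157) (.e (nat_lit 5207) (nat_lit 295) (.e (nat_lit 122919) (nat_lit 15) (.e (nat_lit 360484) (nat_lit 15) (.e (nat_lit 647199) (nat_lit 11) .nil))))) .nil))))))))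

noncomputable def tv1278 : DT := (.nd (nat_lit 0) (.nd (nat_lit 1) (.nd (nat_lit 2) (.nd (nat_lit 3) (.nd (nat_lit 4) (.nd (nat_lit 5) 
(.lf (nat_lit 93184) (.g (nat_lit 655) (.e (nat_lit 2430) (nat_lit 157) (.e (nat_lit 5940) (nat_lit 322) (.e (nat_lit 57379) (nat_lit 3) (.e (nat_lit 98370) (nat_lit 28) .nil)))) .nil)) 
(.lf (nat_lit 93216) (.g (nat_lit 3980) (.e (nat_lit 2440) (nat_lit 157) (.e (nat_lit 3098) (nat_lit 192) (.e (nat_lit 491540) (nat_lit 3) (.e (nat_lit 98373) (nat_lit 29) (.e (nat_lit 450587) (nat_lit 10) (.e (nat_lit 573475) (nat_lit 12) (.e (nat_lit 57345) (nat_lit 0) (.e (nat_lit 6848) (nat_lit 371) .nil)))))))) (.g (nat_lit 8) .nil .nil)))) (.nd (nat_lit 5) 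
(.lf (nat_lit 93200) (.g (nat_lit 4071) (.e (nat_lit 2433) (nat_lit 157) (.e (nat_lit 3098) (nat_lit 192) (.e (nat_lit 491540) (nat_lit 3) (.e (nat_lit 98373) (nat_lit 29) (.e (nat_lit 450587) (nat_lit 10) (.e (nat_lit 573475) (nat_lit 12) (.e (nat_lit 57345) (nat_lit 0) (.e (nat_lit 6853) (nat_lit 371) .nil)))))))) (.g (nat_lit 0) .nil .nil))) 
(.lf (nat_lit 93232) (.g (nat_lit 1869) (.e (nat_lit 2443) (nat_lit 157) (.e (nat_lit 3098) (nat_lit 192) (.e (nat_lit 491540) (nat_lit 3) (.e (nat_lit 98372) (nat_lit 29) (.e (nat_lit 450579) (nat_lit 5) (.e (nat_lit 532504) (nat_lit 1) (.e (nat_lit 57758) (nat_lit 215) .nil))))))) (.g (nat_lit 4) .nil .nil))))) (.nd (nat_lit 4) (.nd (nat_lit 5) 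
(.lf (nat_lit 93192) (.g (nat_lit 2034) (.e (nat_lit 2431) (nat_lit 157) (.e (nat_lit 113) (nat_lit 3) (.e (nat_lit 98372) (nat_lit 29) (.e (nat_lit 450579) (nat_lit 5) (.e (nat_lit 532555) (nat_lit 13) .nil))))) .nil)) 
(.lf (nat_lit 93224) (.g (nat_lit 102) (.e (nat_lit 2440) (nat_lit 157) (.e (nat_lit 3453) (nat_lit 216) (.e (nat_lit 688175) (nat_lit 16) .nil))) .nil))) (.nd (nat_lit 5) 
(.lf (nat_lit 93208) (.g (nat_lit 4274) (.e (nat_lit 2438) (nat_lit 157) (.e (nat_lit 3877) (nat_lit 233) (.e (nat_lit 1221) (nat_lit 90) (.e (nat_lit 81956) (nat_lit 23) (.e (nat_lit 98350) (nat_lit 24) (.e (nat_lit 409649) (nat_lit 18) (.e (nat_lit 303111) (nat_lit 0) .nil))))))) (.g (nat_lit 0) .nil .nil))) 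
(.lf (nat_lit 93240) (.g (nat_lit 3144) (.e (nat_lit 2443) (nat_lit 157) (.e (nat_lit 7450) (nat_lit 396) (.e (nat_lit 1170) (nat_lit 87) (.e (nat_lit 57521) (nat_lit 44) (.e (nat_lit 688177) (nat_lit 16) (.e (nat_lit 65586) (nat_lit 7) (.e (nat_lit 319531) (nat_lit 16) (.e (nat_lit 286748) (nat_lit 9) (.e (nat_lit 336295) (nat_lit 15) .nil))))))))) (.g (nat_lit 9) .nil .nil)))))) 
(.nd (nat_lit 3) (.nd (nat_lit 4) (.nd (nat_lit 5) 
(.lf (nat_lit 93188) (.g (nat_lit 3324) (.e (nat_lit 2430) (nat_lit 157) (.e (nat_lit 6931) (nat_lit 373) (.e (nat_lit 57372) (nat_lit 2) (.e (nat_lit 90176) (nat_lit 15) (.e (nat_lit 188450) (nat_lit 23) (.e (nat_lit 204852) (nat_lit 26) (.e (nat_lit 336257) (nat_lit 15) .nil))))))) (.g (nat_lit 0) .nil .nil))) 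
(.lf (nat_lit 93220) (.g (nat_lit 3860) (.e (nat_lit 2440) (nat_lit 157) (.e (nat_lit 3098) (nat_lit 192) (.e (nat_lit 491540) (nat_lit 3) (.e (nat_lit 98373) (nat_lit 29) (.e (nat_lit 450587) (nat_lit 10) (.e (nat_lit 573475) (nat_lit 12) (.e (nat_lit 57349) (nat_lit 0) (.e (nat_lit 6894) (nat_lit 371) .nil)))))))) (.g (nat_lit 8) .nil .nil)))) (.nd (nat_lit 5) 
(.lf (nat_lit 93204) (.g (nat_lit 2911) (.e (nat_lit 2437) (nat_lit 157) (.e (nat_lit 3105) (nat_lit 192) (.e (nat_lit 491540) (nat_lit 3) (.e (nat_lit 98373) (nat_lit 29) (.e (nat_lit 450587) (nat_lit 10) (.e (nat_lit 573475) (nat_lit 12) (.e (nat_lit 57345) (nat_lit 0) (.e (nat_lit 6850) (nat_lit 371) .nil)))))))) (.g (nat_lit 6) .nil .nil))) 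
(.lf (nat_lit 93236) (.g (nat_lit 2502) (.e (nat_lit 2443) (nat_lit 157) (.e (nat_lit 5355) (nat_lit 298) (.e (nat_lit 1661) (nat_lit 115) (.e (nat_lit 393260) (nat_lit 21) (.e (nat_lit 409648) (nat_lit 18) (.e (nat_lit 303104) (nat_lit 0) (.e (nat_lit 3459) (nat_lit 216) (.e (nat_lit 688131) (nat_lit 0) .nil)))))))) (.g (nat_lit 6) .nil .nil))))) (.nd (nat_lit 4) (.nd (nat_lit 5) 
(.lf (nat_lit 93196) (.g (nat_lit 2065) (.e (nat_lit 2433) (nat_lit 157) (.e (nat_lit 2668) (nat_lit 167) (.e (nat_lit 196666) (nat_lit 13) (.e (nat_lit 65610) (nat_lit 10) (.e (nat_lit 344117) (nat_lit 21) (.e (nat_lit 516145) (nat_lit 9) (.e (nat_lit 426360) (nat_lit 15) (.e (nat_lit 973) (nat_lit 81) (.e (nat_lit 5979) (nat_lit 326) .nil))))))))) (.g (nat_lit 4) .nil .nil))) 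
(.lf (nat_lit 93228) (.g (nat_lit 1715) (.e (nat_lit 2441) (nat_lit 157) (.e (nat_lit 5355) (nat_lit 298) (.e (nat_lit 1661) (nat_lit 115) (.e (nat_lit 393260) (nat_lit 21) (.e (nat_lit 409648) (nat_lit 18) .nil))))) .nil))) (.nd (nat_lit 5) 
(.lf (nat_lit 93212) (.g (nat_lit 4042) (.e (nat_lit 2438) (nat_lit 157) (.e (nat_lit 4604) (nat_lit 269) (.e (nat_lit 1178) (nat_lit 87) (.e (nat_lit 57480) (nat_lit 28) (.e (nat_lit 557108) (nat_lit 15) (.e (nat_lit 188452) (nat_lit 23) (.e (nat_lit 204885) (nat_lit 33) (.e (nat_lit 401414) (nat_lit 0) .nil)))))))) (.g (nat_lit 0) .nil .nil))) 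
(.lf (nat_lit 93244) (.g (nat_lit 3378) (.e (nat_lit 2444) (nat_lit 157) (.e (nat_lit 247) (nat_lit 21) (.e (nat_lit 336027) (nat_lit 3) (.e (nat_lit 98372) (nat_lit 29) (.e (nat_lit 450579) (nat_lit 5) (.e (nat_lit 532504) (nat_lit 1) (.e (nat_lit 57777) (nat_lit 233) .nil))))))) (.g (nat_lit 7) .nil .nil))))))) (.nd (nat_lit 2) (.nd (nat_lit 3) (.nd (nat_lit 4) (.nd (nat_lit 5) 
(.lf (nat_lit 93186) (.g (nat_lit 1815) (.e (nat_lit 2430) (nat_lit 157) (.e (nat_lit 5943) (nat_lit 322) (.e (nat_lit 57375) (nat_lit 2) (.e (nat_lit 90185) (nat_lit 17) (.e (nat_lit 237621) (nat_lit 13) (.e (nat_lit 483341) (nat_lit 9) (.e (nat_lit 426009) (nat_lit 0) .nil))))))) (.g (nat_lit 4) .nil .nil))) 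
(.lf (nat_lit 93218) (.g (nat_lit 4042) (.e (nat_lit 2440) (nat_lit 157) (.e (nat_lit 3098) (nat_lit 192) (.e (nat_lit 491540) (nat_lit 3) (.e (nat_lit 98373) (nat_lit 29) (.e (nat_lit 450587) (nat_lit 10) (.e (nat_lit 573475) (nat_lit 12) (.e (nat_lit 57345) (nat_lit 0) (.e (nat_lit 6857) (nat_lit 371) .nil)))))))) (.g (nat_lit 0) .nil .nil)))) (.nd (nat_lit 5) 
(.lf (nat_lit 93202) (.g (nat_lit 1524) (.e (nat_lit 2433) (nat_lit 157) (.e (nat_lit 5943) (nat_lit 322) (.e (nat_lit 57375) (nat_lit 2) (.e (nat_lit 90176) (nat_lit 15) (.e (nat_lit 196352) (nat_lit 18) (.e (nat_lit 393237) (nat_lit 17) .nil)))))) (.g (nat_lit 4) .nil .nil))) 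
(.lf (nat_lit 93234) (.g (nat_lit 1238) (.e (nat_lit 2443) (nat_lit 157) (.e (nat_lit 5355) (nat_lit 298) (.e (nat_lit 1638) (nat_lit 114) (.e (nat_lit 385104) (nat_lit 50) .nil)))) .nil)))) (.nd (nat_lit 4) (.nd (nat_lit 5) 
(.lf (nat_lit 93194) (.g (nat_lit 3461) (.e (nat_lit 2431) (nat_lit 157) (.e (nat_lit 6931) (nat_lit 373) (.e (nat_lit 57375) (nat_lit 2) (.e (nat_lit 90176) (nat_lit 15) (.e (nat_lit 188450) (nat_lit 23) (.e (nat_lit 204852) (nat_lit 26) (.e (nat_lit 336257) (nat_lit 15) .nil))))))) (.g (nat_lit 7) .nil .nil))) 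
(.lf (nat_lit 93226) (.g (nat_lit 3179) (.e (nat_lit 2440) (nat_lit 157) (.e (nat_lit 5355) (nat_lit 298) (.e (nat_lit 1661) (nat_lit 115) (.e (nat_lit 393260) (nat_lit 21) (.e (nat_lit 409648) (nat_lit 18) (.e (nat_lit 303107) (nat_lit 0) (.e (nat_lit 3459) (nat_lit 216) (.e (nat_lit 688129) (nat_lit 0) .nil)))))))) (.g (nat_lit 7) .nil .nil)))) (.nd (nat_lit 5) 
(.lf (nat_lit 93210) (.g (nat_lit 3887) (.e (nat_lit 2438) (nat_lit 157) (.e (nat_lit 4603) (nat_lit 269) (.e (nat_lit 1178) (nat_lit 87) (.e (nat_lit 57480) (nat_lit 28) (.e (nat_lit 557108) (nat_lit 15) (.e (nat_lit 188452) (nat_lit 23) (.e (nat_lit 204885) (nat_lit 33) (.e (nat_lit 401414) (nat_lit 0) .nil)))))))) (.g (nat_lit 8) .nil .nil))) 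
(.lf (nat_lit 93242) (.g (nat_lit 4572) (.e (nat_lit 2443) (nat_lit 157) (.e (nat_lit 7660) (nat_lit 410) (.e (nat_lit 1122) (nat_lit 83) (.e (nat_lit 16473) (nat_lit 14) (.e (nat_lit 491544) (nat_lit 7) (.e (nat_lit 319531) (nat_lit 16) (.e (nat_lit 286748) (nat_lit 9) (.e (nat_lit 336295) (nat_lit 15) .nil)))))))) (.g (nat_lit 0) .nil .nil)))))) 
(.nd (nat_lit 3) (.nd (nat_lit 4) (.nd (nat_lit 5) 
(.lf (nat_lit 93190) (.g (nat_lit 1695) (.e (nat_lit 2431) (nat_lit 157) (.e (nat_lit 109) (nat_lit 3) (.e (nat_lit 98381) (nat_lit 31) (.e (nat_lit 466977) (nat_lit 22) (.e (nat_lit 196668) (nat_lit 14) .nil))))) .nil)) 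
(.lf (nat_lit 93222) (.g (nat_lit 1931) (.e (nat_lit 2440) (nat_lit 157) (.e (nat_lit 3098) (nat_lit 192) (.e (nat_lit 491565) (nat_lit 12) (.e (nat_lit 385102) (nat_lit 50) (.e (nat_lit 786483) (nat_lit 30) (.e (nat_lit 360451) (nat_lit 0) (.e (nat_lit 5429) (nat_lit 306) .nil))))))) (.g (nat_lit 4) .nil .nil)))) (.nd (nat_lit 5) 
(.lf (nat_lit 93206) (.g (nat_lit 3774) (.e (nat_lit 2438) (nat_lit 157) (.e (nat_lit 3535) (nat_lit 218) (.e (nat_lit 704738) (nat_lit 11) (.e (nat_lit 16425) (nat_lit 7) (.e (nat_lit 409649) (nat_lit 18) (.e (nat_lit 303140) (nat_lit 10) (.e (nat_lit 434275) (nat_lit 39) (.e (nat_lit 663579) (nat_lit 9) .nil)))))))) (.g (nat_lit 0) .nil .nil))) 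
(.lf (nat_lit 93238) (.g (nat_lit 1199) (.e (nat_lit 2443) (nat_lit 157) (.e (nat_lit 5934) (nat_lit 322) (.e (nat_lit 57375) (nat_lit 2) (.e (nat_lit 90176) (nat_lit 15) (.e (nat_lit 196352) (nat_lit 18) .nil))))) .nil)))) (.nd (nat_lit 4) (.nd (nat_lit 5) 
(.lf (nat_lit 93198) (.g (nat_lit 1967) (.e (nat_lit 2433) (nat_lit 157) (.e (nat_lit 2851) (nat_lit 184) (.e (nat_lit 426566) (nat_lit 34) (.e (nat_lit 393296) (nat_lit 26) .nil)))) .nil)) 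
(.lf (nat_lit 93230) (.g (nat_lit 3478) (.e (nat_lit 2443) (nat_lit 157) (.e (nat_lit 247) (nat_lit 21) (.e (nat_lit 336027) (nat_lit 3) (.e (nat_lit 98372) (nat_lit 29) (.e (nat_lit 450579) (nat_lit 5) (.e (nat_lit 532501) (nat_lit 1) (.e (nat_lit 57777) (nat_lit 233) .nil))))))) (.g (nat_lit 7) .nil .nil)))) (.nd (nat_lit 5) 
(.lf (nat_lit 93214) (.g (nat_lit 2839) (.e (nat_lit 2440) (nat_lit 157) (.e (nat_lit 247) (nat_lit 21) (.e (nat_lit 336004) (nat_lit 2) (.e (nat_lit 90176) (nat_lit 15) (.e (nat_lit 188450) (nat_lit 23) (.e (nat_lit 204830) (nat_lit 18) (.e (nat_lit 65280) (nat_lit 233) .nil))))))) (.g (nat_lit 6) .nil .nil))) 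
(.lf (nat_lit 93246) (.g (nat_lit 4158) (.e (nat_lit 2444) (nat_lit 157) (.e (nat_lit 3098) (nat_lit 192) (.e (nat_lit 491540) (nat_lit 3) (.e (nat_lit 98372) (nat_lit 29) (.e (nat_lit 450579) (nat_lit 5) (.e (nat_lit 532501) (nat_lit 1) (.e (nat_lit 57758) (nat_lit 215) .nil))))))) (.g (nat_lit 7) .nil .nil)))))))) 
(.nd (nat_lit 1) (.nd (nat_lit 2) (.nd (nat_lit 3) (.nd (nat_lit 4) (.nd (nat_lit 5) 
(.lf (nat_lit 93185) (.g (nat_lit 1100) (.e (nat_lit 2430) (nat_lit 157) (.e (nat_lit 5943) (nat_lit 322) (.e (nat_lit 57375) (nat_lit 2) (.e (nat_lit 90176) (nat_lit 15) (.e (nat_lit 188423) (nat_lit 11) .nil))))) .nil)) 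
(.lf (nat_lit 93217) (.g (nat_lit 3887) (.e (nat_lit 2440) (nat_lit 157) (.e (nat_lit 3098) (nat_lit 192) (.e (nat_lit 491540) (nat_lit 3) (.e (nat_lit 98373) (nat_lit 29) (.e (nat_lit 450587) (nat_lit 10) (.e (nat_lit 573475) (nat_lit 12) (.e (nat_lit 57345) (nat_lit 0) (.e (nat_lit 6855) (nat_lit 371) .nil)))))))) (.g (nat_lit 8) .nil .nil)))) (.nd (nat_lit 5) 
(.lf (nat_lit 93201) (.g (nat_lit 1462) (.e (nat_lit 2433) (nat_lit 157) (.e (nat_lit 5943) (nat_lit 322) (.e (nat_lit 57372) (nat_lit 2) (.e (nat_lit 90176) (nat_lit 15) (.e (nat_lit 196352) (nat_lit 18) (.e (nat_lit 393237) (nat_lit 17) .nil)))))) (.g (nat_lit 4) .nil .nil))) 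
(.lf (nat_lit 93233) (.g (nat_lit 2938) (.e (nat_lit 2443) (nat_lit 157) (.e (nat_lit 4000) (nat_lit 241) (.e (nat_lit 57368) (nat_lit 1) (.e (nat_lit 57854) (nat_lit 252) (.e (nat_lit 57431) (nat_lit 16) (.e (nat_lit 368676) (nat_lit 21) (.e (nat_lit 516176) (nat_lit 14) (.e (nat_lit 466967) (nat_lit 20) .nil)))))))) (.g (nat_lit 7) .nil .nil))))) (.nd (nat_lit 4) (.nd (nat_lit 5) 
(.lf (nat_lit 93193) (.g (nat_lit 3349) (.e (nat_lit 2431) (nat_lit 157) (.e (nat_lit 6931) (nat_lit 373) (.e (nat_lit 57372) (nat_lit 2) (.e (nat_lit 90176) (nat_lit 15) (.e (nat_lit 188450) (nat_lit 23) (.e (nat_lit 204852) (nat_lit 26) (.e (nat_lit 336257) (nat_lit 15) .nil))))))) (.g (nat_lit 0) .nil .nil))) 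
(.lf (nat_lit 93225) (.g (nat_lit 2250) (.e (nat_lit 2440) (nat_lit 157) (.e (nat_lit 3458) (nat_lit 216) (.e (nat_lit 688178) (nat_lit 16) (.e (nat_lit 65626) (nat_lit 13) (.e (nat_lit 393260) (nat_lit 21) (.e (nat_lit 409623) (nat_lit 10) (.e (nat_lit 5664) (nat_lit 312) .nil))))))) (.g (nat_lit 0) .nil .nil)))) (.nd (nat_lit 5) 
(.lf (nat_lit 93209) (.g (nat_lit 3945) (.e (nat_lit 2438) (nat_lit 157) (.e (nat_lit 4561) (nat_lit 269) (.e (nat_lit 1178) (nat_lit 87) (.e (nat_lit 57480) (nat_lit 28) (.e (nat_lit 557108) (nat_lit 15) (.e (nat_lit 188452) (nat_lit 23) (.e (nat_lit 204885) (nat_lit 33) (.e (nat_lit 401414) (nat_lit 0) .nil)))))))) (.g (nat_lit 0) .nil .nil))) 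
(.lf (nat_lit 93241) (.g (nat_lit 2002) (.e (nat_lit 2443) (nat_lit 157) (.e (nat_lit 7450) (nat_lit 396) (.e (nat_lit 1181) (nat_lit 87) (.e (nat_lit 57520) (nat_lit 44) (.e (nat_lit 688177) (nat_lit 16) .nil))))) .nil))))) (.nd (nat_lit 3) (.nd (nat_lit 4) (.nd (nat_lit 5) 
(.lf (nat_lit 93189) (.g (nat_lit 929) (.e (nat_lit 2431) (nat_lit 157) (.e (nat_lit 109) (nat_lit 3) (.e (nat_lit 98372) (nat_lit 29) (.e (nat_lit 450579) (nat_lit 5) .nil)))) .nil)) 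
(.lf (nat_lit 93221) (.g (nat_lit 1913) (.e (nat_lit 2440) (nat_lit 157) (.e (nat_lit 3098) (nat_lit 192) (.e (nat_lit 491565) (nat_lit 12) (.e (nat_lit 385102) (nat_lit 50) (.e (nat_lit 786483) (nat_lit 30) .nil))))) .nil))) (.nd (nat_lit 5) 
(.lf (nat_lit 93205) (.g (nat_lit 4188) (.e (nat_lit 2437) (nat_lit 157) (.e (nat_lit 3535) (nat_lit 218) (.e (nat_lit 704738) (nat_lit 11) (.e (nat_lit 16425) (nat_lit 7) (.e (nat_lit 409649) (nat_lit 18) (.e (nat_lit 303140) (nat_lit 10) (.e (nat_lit 434275) (nat_lit 39) (.e (nat_lit 663574) (nat_lit 9) .nil)))))))) (.g (nat_lit 0) .nil .nil))) 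
(.lf (nat_lit 93237) (.g (nat_lit 1388) (.e (nat_lit 2443) (nat_lit 157) (.e (nat_lit 5934) (nat_lit 322) (.e (nat_lit 57372) (nat_lit 2) (.e (nat_lit 90176) (nat_lit 15) (.e (nat_lit 196352) (nat_lit 18) .nil))))) .nil)))) (.nd (nat_lit 4) (.nd (nat_lit 5) 
(.lf (nat_lit 93197) (.g (nat_lit 2009) (.e (nat_lit 2433) (nat_lit 157) (.e (nat_lit 2668) (nat_lit 167) (.e (nat_lit 196666) (nat_lit 13) (.e (nat_lit 65610) (nat_lit 10) (.e (nat_lit 344117) (nat_lit 21) (.e (nat_lit 516145) (nat_lit 9) (.e (nat_lit 426360) (nat_lit 15) (.e (nat_lit 984) (nat_lit 81) (.e (nat_lit 5981) (nat_lit 326) .nil))))))))) (.g (nat_lit 4) .nil .nil))) 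
(.lf (nat_lit 93229) (.g (nat_lit 1473) (.e (nat_lit 2442) (nat_lit 157) (.e (nat_lit 290) (nat_lit 21) (.e (nat_lit 336021) (nat_lit 3) (.e (nat_lit 98372) (nat_lit 29) .nil)))) .nil))) (.nd (nat_lit 5) 
(.lf (nat_lit 93213) (.g (nat_lit 3067) (.e (nat_lit 2439) (nat_lit 157) (.e (nat_lit 3105) (nat_lit 192) (.e (nat_lit 491540) (nat_lit 3) (.e (nat_lit 98373) (nat_lit 29) (.e (nat_lit 450587) (nat_lit 10) (.e (nat_lit 573475) (nat_lit 12) (.e (nat_lit 57345) (nat_lit 0) (.e (nat_lit 6853) (nat_lit 371) .nil)))))))) (.g (nat_lit 7) .nil .nil))) 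
(.lf (nat_lit 93245) (.g (nat_lit 4122) (.e (nat_lit 2444) (nat_lit 157) (.e (nat_lit 2828) (nat_lit 182) (.e (nat_lit 409646) (nat_lit 18) (.e (nat_lit 303115) (nat_lit 1) (.e (nat_lit 164185) (nat_lit 155) (.e (nat_lit 122919) (nat_lit 15) (.e (nat_lit 360451) (nat_lit 0) (.e (nat_lit 6869) (nat_lit 371) .nil)))))))) (.g (nat_lit 7) .nil .nil))))))) 
(.nd (nat_lit 2) (.nd (nat_lit 3) (.nd (nat_lit 4) (.nd (nat_lit 5) 
(.lf (nat_lit 93187) (.g (nat_lit 1313) (.e (nat_lit 2430) (nat_lit 157) (.e (nat_lit 6252) (nat_lit 337) (.e (nat_lit 1059) (nat_lit 81) (.e (nat_lit 1638) (nat_lit 114) (.e (nat_lit 385065) (nat_lit 26) .nil))))) .nil)) 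
(.lf (nat_lit 93219) (.g (nat_lit 3945) (.e (nat_lit 2440) (nat_lit 157) (.e (nat_lit 3098) (nat_lit 192) (.e (nat_lit 491540) (nat_lit 3) (.e (nat_lit 98373) (nat_lit 29) (.e (nat_lit 450587) (nat_lit 10) (.e (nat_lit 573475) (nat_lit 12) (.e (nat_lit 57345) (nat_lit 0) (.e (nat_lit 6894) (nat_lit 371) .nil)))))))) (.g (nat_lit 0) .nil .nil)))) (.nd (nat_lit 5) 
(.lf (nat_lit 93203) (.g (nat_lit 3039) (.e (nat_lit 2437) (nat_lit 157) (.e (nat_lit 3105) (nat_lit 192) (.e (nat_lit 491540) (nat_lit 3) (.e (nat_lit 98373) (nat_lit 29) (.e (nat_lit 450587) (nat_lit 10) (.e (nat_lit 573475) (nat_lit 12) (.e (nat_lit 57345) (nat_lit 0) (.e (nat_lit 6848) (nat_lit 371) .nil)))))))) (.g (nat_lit 6) .nil .nil))) 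
(.lf (nat_lit 93235) (.g (nat_lit 1919) (.e (nat_lit 2443) (nat_lit 157) (.e (nat_lit 5355) (nat_lit 298) (.e (nat_lit 1638) (nat_lit 114) (.e (nat_lit 385105) (nat_lit 50) (.e (nat_lit 786478) (nat_lit 29) (.e (nat_lit 352270) (nat_lit 8) (.e (nat_lit 262175) (nat_lit 14) .nil))))))) (.g (nat_lit 4) .nil .nil))))) (.nd (nat_lit 4) (.nd (nat_lit 5) 
(.lf (nat_lit 93195) (.g (nat_lit 1298) (.e (nat_lit 2433) (nat_lit 157) (.e (nat_lit 2668) (nat_lit 167) (.e (nat_lit 196653) (nat_lit 11) (.e (nat_lit 16465) (nat_lit 13) .nil)))) .nil)) 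
(.lf (nat_lit 93227) (.g (nat_lit 1429) (.e (nat_lit 2441) (nat_lit 157) (.e (nat_lit 3098) (nat_lit 192) (.e (nat_lit 491565) (nat_lit 12) (.e (nat_lit 385102) (nat_lit 50) .nil)))) .nil))) (.nd (nat_lit 5) 
(.lf (nat_lit 93211) (.g (nat_lit 4125) (.e (nat_lit 2438) (nat_lit 157) (.e (nat_lit 4603) (nat_lit 269) (.e (nat_lit 1190) (nat_lit 88) (.e (nat_lit 65628) (nat_lit 14) (.e (nat_lit 401459) (nat_lit 13) (.e (nat_lit 483411) (nat_lit 27) (.e (nat_lit 401414) (nat_lit 0) .nil))))))) (.g (nat_lit 0) .nil .nil))) 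
(.lf (nat_lit 93243) (.g (nat_lit 3490) (.e (nat_lit 2444) (nat_lit 157) (.e (nat_lit 247) (nat_lit 21) (.e (nat_lit 336027) (nat_lit 3) (.e (nat_lit 98372) (nat_lit 29) (.e (nat_lit 450579) (nat_lit 5) (.e (nat_lit 532501) (nat_lit 1) (.e (nat_lit 57777) (nat_lit 233) .nil))))))) (.g (nat_lit 7) .nil .nil)))))) (.nd (nat_lit 3) (.nd (nat_lit 4) (.nd (nat_lit 5) 
(.lf (nat_lit 93191) (.g (nat_lit 2045) (.e (nat_lit 2431) (nat_lit 157) (.e (nat_lit 113) (nat_lit 3) (.e (nat_lit 98372) (nat_lit 29) (.e (nat_lit 450579) (nat_lit 5) (.e (nat_lit 532553) (nat_lit 13) .nil))))) .nil)) 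
(.lf (nat_lit 93223) (.g (nat_lit 1962) (.e (nat_lit 2440) (nat_lit 157) (.e (nat_lit 3098) (nat_lit 192) (.e (nat_lit 491566) (nat_lit 12) (.e (nat_lit 385105) (nat_lit 50) .nil)))) .nil))) (.nd (nat_lit 5) 
(.lf (nat_lit 93207) (.g (nat_lit 3978) (.e (nat_lit 2438) (nat_lit 157) (.e (nat_lit 3877) (nat_lit 233) (.e (nat_lit 1220) (nat_lit 90) (.e (nat_lit 81956) (nat_lit 23) (.e (nat_lit 98350) (nat_lit 24) (.e (nat_lit 409649) (nat_lit 18) (.e (nat_lit 303111) (nat_lit 0) .nil))))))) (.g (nat_lit 0) .nil .nil))) 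
(.lf (nat_lit 93239) (.g (nat_lit 4539) (.e (nat_lit 2443) (nat_lit 157) (.e (nat_lit 6919) (nat_lit 371) (.e (nat_lit 2540) (nat_lit 158) (.e (nat_lit 8326) (nat_lit 69) (.e (nat_lit 557100) (nat_lit 13) (.e (nat_lit 172106) (nat_lit 10) (.e (nat_lit 434231) (nat_lit 23) (.e (nat_lit 532535) (nat_lit 9) (.e (nat_lit 336295) (nat_lit 15) .nil))))))))) (.g (nat_lit 9) .nil .nil))))) 
(.nd (nat_lit 4) (.nd (nat_lit 5) 
(.lf (nat_lit 93199) (.g (nat_lit 3581) (.e (nat_lit 2433) (nat_lit 157) (.e (nat_lit 3098) (nat_lit 192) (.e (nat_lit 491540) (nat_lit 3) (.e (nat_lit 98373) (nat_lit 29) (.e (nat_lit 450587) (nat_lit 10) (.e (nat_lit 573475) (nat_lit 12) (.e (nat_lit 57345) (nat_lit 0) (.e (nat_lit 6848) (nat_lit 371) .nil)))))))) (.g (nat_lit 6) .nil .nil))) 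
(.lf (nat_lit 93231) (.g (nat_lit 3367) (.e (nat_lit 2443) (nat_lit 157) (.e (nat_lit 247) (nat_lit 21) (.e (nat_lit 336027) (nat_lit 3) (.e (nat_lit 98372) (nat_lit 29) (.e (nat_lit 450579) (nat_lit 5) (.e (nat_lit 532504) (nat_lit 1) (.e (nat_lit 57777) (nat_lit 233) .nil))))))) (.g (nat_lit 7) .nil .nil)))) (.nd (nat_lit 5) 
(.lf (nat_lit 93215) (.g (nat_lit 2855) (.e (nat_lit 2440) (nat_lit 157) (.e (nat_lit 247) (nat_lit 21) (.e (nat_lit 336012) (nat_lit 2) (.e (nat_lit 90176) (nat_lit 15) (.e (nat_lit 188450) (nat_lit 23) (.e (nat_lit 204830) (nat_lit 18) (.e (nat_lit 65280) (nat_lit 233) .nil))))))) (.g (nat_lit 6) .nil .nil))) 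
(.lf (nat_lit 93247) (.g (nat_lit 3711) (.e (nat_lit 2444) (nat_lit 157) (.e (nat_lit 3098) (nat_lit 192) (.e (nat_lit 491540) (nat_lit 3) (.e (nat_lit 98372) (nat_lit 29) (.e (nat_lit 450579) (nat_lit 5) (.e (nat_lit 532504) (nat_lit 1) (.e (nat_lit 57758) (nat_lit 215) .nil))))))) (.g (nat_lit 7) .nil .nil)))))))))

noncomputable def tv1279 : DT := (.nd (nat_lit 0) (.nd (nat_lit 1) (.nd (nat_lit 2) (.nd (nat_lit 3) (.nd (nat_lit 4) (.nd (nat_lit 5) 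
(.lf (nat_lit 93248) (.g (nat_lit 4024) (.e (nat_lit 2444) (nat_lit 157) (.e (nat_lit 3098) (nat_lit 192) (.e (nat_lit 491540) (nat_lit 3) (.e (nat_lit 98373) (nat_lit 29) (.e (nat_lit 450587) (nat_lit 10) (.e (nat_lit 573475) (nat_lit 12) (.e (nat_lit 57345) (nat_lit 0) (.e (nat_lit 6869) (nat_lit 371) .nil)))))))) (.g (nat_lit 8) .nil .nil))) 
(.lf (nat_lit 93280) (.g (nat_lit 2527) (.e (nat_lit 2450) (nat_lit 157) (.e (nat_lit 5355) (nat_lit 298) (.e (nat_lit 1661) (nat_lit 115) (.e (nat_lit 393260) (nat_lit 21) (.e (nat_lit 409649) (nat_lit 18) (.e (nat_lit 303115) (nat_lit 1) (.e (nat_lit 164151) (nat_lit 152) (.e (nat_lit 3) (nat_lit 0) .nil)))))))) (.g (nat_lit 5) .nil .nil)))) (.nd (nat_lit 5) 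
(.lf (nat_lit 93264) (.g (nat_lit 4596) (.e (nat_lit 2449) (nat_lit 157) (.e (nat_lit 3521) (nat_lit 218) (.e (nat_lit 704738) (nat_lit 11) (.e (nat_lit 16425) (nat_lit 7) (.e (nat_lit 409649) (nat_lit 18) (.e (nat_lit 303140) (nat_lit 10) (.e (nat_lit 434275) (nat_lit 39) (.e (nat_lit 663580) (nat_lit 9) .nil)))))))) (.g (nat_lit 8) .nil .nil))) 
(.lf (nat_lit 93296) (.g (nat_lit 2487) (.e (nat_lit 2458) (nat_lit 157) (.e (nat_lit 250) (nat_lit 21) (.e (nat_lit 336012) (nat_lit 2) (.e (nat_lit 90176) (nat_lit 15) (.e (nat_lit 188450) (nat_lit 23) (.e (nat_lit 204830) (nat_lit 18) (.e (nat_lit 65280) (nat_lit 233) .nil))))))) (.g (nat_lit 6) .nil .nil))))) (.nd (nat_lit 4) (.nd (nat_lit 5) 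
(.lf (nat_lit 93256) (.g (nat_lit 2620) (.e (nat_lit 2445) (nat_lit 157) (.e (nat_lit 3098) (nat_lit 192) (.e (nat_lit 491540) (nat_lit 3) (.e (nat_lit 98372) (nat_lit 29) (.e (nat_lit 450579) (nat_lit 5) (.e (nat_lit 532504) (nat_lit 1) (.e (nat_lit 57758) (nat_lit 215) .nil))))))) (.g (nat_lit 5) .nil .nil))) 
(.lf (nat_lit 93288) (.g (nat_lit 3731) (.e (nat_lit 2454) (nat_lit 157) (.e (nat_lit 2663) (nat_lit 167) (.e (nat_lit 196666) (nat_lit 13) (.e (nat_lit 65610) (nat_lit 10) (.e (nat_lit 344117) (nat_lit 21) (.e (nat_lit 516151) (nat_lit 9) (.e (nat_lit 426412) (nat_lit 15) (.e (nat_lit 1010) (nat_lit 81) (.e (nat_lit 6014) (nat_lit 326) .nil))))))))) (.g (nat_lit 5) .nil .nil)))) (.nd (nat_lit 5) 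
(.lf (nat_lit 93272) (.g (nat_lit 4727) (.e (nat_lit 2450) (nat_lit 157) (.e (nat_lit 3098) (nat_lit 192) (.e (nat_lit 491540) (nat_lit 3) (.e (nat_lit 98373) (nat_lit 29) (.e (nat_lit 450588) (nat_lit 10) (.e (nat_lit 573474) (nat_lit 12) (.e (nat_lit 57348) (nat_lit 0) (.e (nat_lit 6850) (nat_lit 371) .nil)))))))) (.g (nat_lit 6) .nil .nil))) 
(.lf (nat_lit 93304) (.g (nat_lit 4169) (.e (nat_lit 2458) (nat_lit 157) (.e (nat_lit 4606) (nat_lit 269) (.e (nat_lit 1178) (nat_lit 87) (.e (nat_lit 57480) (nat_lit 28) (.e (nat_lit 557108) (nat_lit 15) (.e (nat_lit 188452) (nat_lit 23) (.e (nat_lit 204885) (nat_lit 33) (.e (nat_lit 401414) (nat_lit 0) .nil)))))))) (.g (nat_lit 0) .nil .nil)))))) 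
(.nd (nat_lit 3) (.nd (nat_lit 4) (.nd (nat_lit 5) 
(.lf (nat_lit 93252) (.g (nat_lit 3496) (.e (nat_lit 2445) (nat_lit 157) (.e (nat_lit 247) (nat_lit 21) (.e (nat_lit 336027) (nat_lit 3) (.e (nat_lit 98372) (nat_lit 29) (.e (nat_lit 450579) (nat_lit 5) (.e (nat_lit 532501) (nat_lit 1) (.e (nat_lit 57777) (nat_lit 233) .nil))))))) (.g (nat_lit 7) .nil .nil))) 
(.lf (nat_lit 93284) (.g (nat_lit 1367) (.e (nat_lit 2452) (nat_lit 157) (.e (nat_lit 5939) (nat_lit 322) (.e (nat_lit 57379) (nat_lit 3) (.e (nat_lit 98369) (nat_lit 28) (.e (nat_lit 450304) (nat_lit 18) .nil))))) .nil))) (.nd (nat_lit 5) 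
(.lf (nat_lit 93268) (.g (nat_lit 4089) (.e (nat_lit 2450) (nat_lit 157) (.e (nat_lit 3098) (nat_lit 192) (.e (nat_lit 491540) (nat_lit 3) (.e (nat_lit 98373) (nat_lit 29) (.e (nat_lit 450587) (nat_lit 10) (.e (nat_lit 573475) (nat_lit 12) (.e (nat_lit 57345) (nat_lit 0) (.e (nat_lit 6848) (nat_lit 371) .nil)))))))) (.g (nat_lit 0) .nil .nil))) 
(.lf (nat_lit 93300) (.g (nat_lit 4112) (.e (nat_lit 2458) (nat_lit 157) (.e (nat_lit 4605) (nat_lit 269) (.e (nat_lit 1178) (nat_lit 87) (.e (nat_lit 57480) (nat_lit 28) (.e (nat_lit 557108) (nat_lit 15) (.e (nat_lit 188452) (nat_lit 23) (.e (nat_lit 204885) (nat_lit 33) (.e (nat_lit 401414) (nat_lit 0) .nil)))))))) (.g (nat_lit 0) .nil .nil))))) (.nd (nat_lit 4) (.nd (nat_lit 5) 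
(.lf (nat_lit 93260) (.g (nat_lit 3785) (.e (nat_lit 2445) (nat_lit 157) (.e (nat_lit 3098) (nat_lit 192) (.e (nat_lit 491540) (nat_lit 3) (.e (nat_lit 98373) (nat_lit 29) (.e (nat_lit 450587) (nat_lit 10) (.e (nat_lit 573475) (nat_lit 12) (.e (nat_lit 57345) (nat_lit 0) (.e (nat_lit 6903) (nat_lit 371) .nil)))))))) (.g (nat_lit 7) .nil .nil))) 
(.lf (nat_lit 93292) (.g (nat_lit 1351) (.e (nat_lit 2456) (nat_lit 157) (.e (nat_lit 5939) (nat_lit 322) (.e (nat_lit 57379) (nat_lit 3) (.e (nat_lit 98369) (nat_lit 28) (.e (nat_lit 450304) (nat_lit 18) (.e (nat_lit 393241) (nat_lit 17) .nil)))))) (.g (nat_lit 4) .nil .nil)))) (.nd (nat_lit 5) 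
(.lf (nat_lit 93276) (.g (nat_lit 2154) (.e (nat_lit 2450) (nat_lit 157) (.e (nat_lit 5355) (nat_lit 298) (.e (nat_lit 1661) (nat_lit 115) (.e (nat_lit 393260) (nat_lit 21) (.e (nat_lit 409643) (nat_lit 18) (.e (nat_lit 303115) (nat_lit 1) (.e (nat_lit 164150) (nat_lit 152) (.e (nat_lit 23) (nat_lit 0) .nil)))))))) (.g (nat_lit 5) .nil .nil))) 
(.lf (nat_lit 93308) (.g (nat_lit 1369) (.e (nat_lit 2458) (nat_lit 157) (.e (nat_lit 5939) (nat_lit 322) (.e (nat_lit 57379) (nat_lit 3) (.e (nat_lit 98369) (nat_lit 28) (.e (nat_lit 450304) (nat_lit 18) .nil))))) .nil)))))) (.nd (nat_lit 2) (.nd (nat_lit 3) (.nd (nat_lit 4) (.nd (nat_lit 5) 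
(.lf (nat_lit 93250) (.g (nat_lit 3106) (.e (nat_lit 2444) (nat_lit 157) (.e (nat_lit 5968) (nat_lit 324) (.e (nat_lit 163868) (nat_lit 2) (.e (nat_lit 196663) (nat_lit 13) (.e (nat_lit 65574) (nat_lit 4) (.e (nat_lit 123197) (nat_lit 266) (.e (nat_lit 57445) (nat_lit 19) (.e (nat_lit 393249) (nat_lit 17) .nil)))))))) (.g (nat_lit 7) .nil .nil))) 
(.lf (nat_lit 93282) (.g (nat_lit 1449) (.e (nat_lit 2450) (nat_lit 157) (.e (nat_lit 7450) (nat_lit 396) (.e (nat_lit 1209) (nat_lit 89) (.e (nat_lit 73782) (nat_lit 32) (.e (nat_lit 3090) (nat_lit 191) .nil))))) .nil))) (.nd (nat_lit 5) 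
(.lf (nat_lit 93266) (.g (nat_lit 4042) (.e (nat_lit 2449) (nat_lit 157) (.e (nat_lit 5355) (nat_lit 298) (.e (nat_lit 1661) (nat_lit 115) (.e (nat_lit 393260) (nat_lit 21) (.e (nat_lit 409649) (nat_lit 18) (.e (nat_lit 303111) (nat_lit 0) (.e (nat_lit 3469) (nat_lit 217) (.e (nat_lit 696324) (nat_lit 0) .nil)))))))) (.g (nat_lit 0) .nil .nil))) 
(.lf (nat_lit 93298) (.g (nat_lit 6590) (.e (nat_lit 2458) (nat_lit 157) (.e (nat_lit 2946) (nat_lit 184) (.e (nat_lit 426100) (nat_lit 1) (.e (nat_lit 164398) (nat_lit 256) (.e (nat_lit 57378) (nat_lit 3) (.e (nat_lit 98373) (nat_lit 29) (.e (nat_lit 450563) (nat_lit 0) (.e (nat_lit 6595) (nat_lit 351) .nil)))))))) (.g (nat_lit 7) .nil .nil))))) (.nd (nat_lit 4) (.nd (nat_lit 5) 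
(.lf (nat_lit 93258) (.g (nat_lit 3474) (.e (nat_lit 2445) (nat_lit 157) (.e (nat_lit 3098) (nat_lit 192) (.e (nat_lit 491540) (nat_lit 3) (.e (nat_lit 98373) (nat_lit 29) (.e (nat_lit 450587) (nat_lit 10) (.e (nat_lit 573475) (nat_lit 12) (.e (nat_lit 57345) (nat_lit 0) (.e (nat_lit 6900) (nat_lit 371) .nil)))))))) (.g (nat_lit 6) .nil .nil))) 
(.lf (nat_lit 93290) (.g (nat_lit 1033) (.e (nat_lit 2454) (nat_lit 157) (.e (nat_lit 3409) (nat_lit 212) (.e (nat_lit 655378) (nat_lit 4) (.e (nat_lit 172125) (nat_lit 14) .nil)))) .nil))) (.nd (nat_lit 5) 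
(.lf (nat_lit 93274) (.g (nat_lit 3313) (.e (nat_lit 2450) (nat_lit 157) (.e (nat_lit 3521) (nat_lit 218) (.e (nat_lit 704738) (nat_lit 11) (.e (nat_lit 16425) (nat_lit 7) (.e (nat_lit 409648) (nat_lit 18) (.e (nat_lit 303137) (nat_lit 10) (.e (nat_lit 434275) (nat_lit 39) (.e (nat_lit 663574) (nat_lit 9) .nil)))))))) (.g (nat_lit 5) .nil .nil))) 
(.lf (nat_lit 93306) (.g (nat_lit 4077) (.e (nat_lit 2458) (nat_lit 157) (.e (nat_lit 4607) (nat_lit 269) (.e (nat_lit 1178) (nat_lit 87) (.e (nat_lit 57480) (nat_lit 28) (.e (nat_lit 557108) (nat_lit 15) (.e (nat_lit 188452) (nat_lit 23) (.e (nat_lit 204885) (nat_lit 33) (.e (nat_lit 401414) (nat_lit 0) .nil)))))))) (.g (nat_lit 0) .nil .nil)))))) 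
(.nd (nat_lit 3) (.nd (nat_lit 4) (.nd (nat_lit 5) 
(.lf (nat_lit 93254) (.g (nat_lit 2728) (.e (nat_lit 2445) (nat_lit 157) (.e (nat_lit 2668) (nat_lit 167) (.e (nat_lit 196666) (nat_lit 13) (.e (nat_lit 65610) (nat_lit 10) (.e (nat_lit 344117) (nat_lit 21) (.e (nat_lit 516151) (nat_lit 9) (.e (nat_lit 426412) (nat_lit 15) (.e (nat_lit 1009) (nat_lit 81) (.e (nat_lit 5998) (nat_lit 326) .nil))))))))) (.g (nat_lit 4) .nil .nil))) 
(.lf (nat_lit 93286) (.g (nat_lit 3393) (.e (nat_lit 2453) (nat_lit 157) (.e (nat_lit 4606) (nat_lit 269) (.e (nat_lit 1178) (nat_lit 87) (.e (nat_lit 57480) (nat_lit 28) (.e (nat_lit 557108) (nat_lit 15) (.e (nat_lit 188452) (nat_lit 23) (.e (nat_lit 204885) (nat_lit 33) (.e (nat_lit 401418) (nat_lit 0) .nil)))))))) (.g (nat_lit 0) .nil .nil)))) (.nd (nat_lit 5) 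
(.lf (nat_lit 93270) (.g (nat_lit 4169) (.e (nat_lit 2450) (nat_lit 157) (.e (nat_lit 3098) (nat_lit 192) (.e (nat_lit 491540) (nat_lit 3) (.e (nat_lit 98373) (nat_lit 29) (.e (nat_lit 450587) (nat_lit 10) (.e (nat_lit 573475) (nat_lit 12) (.e (nat_lit 57345) (nat_lit 0) (.e (nat_lit 6852) (nat_lit 371) .nil)))))))) (.g (nat_lit 0) .nil .nil))) 
(.lf (nat_lit 93302) (.g (nat_lit 4167) (.e (nat_lit 2458) (nat_lit 157) (.e (nat_lit 4605) (nat_lit 269) (.e (nat_lit 1196) (nat_lit 88) (.e (nat_lit 65630) (nat_lit 14) (.e (nat_lit 401459) (nat_lit 13) (.e (nat_lit 483411) (nat_lit 27) (.e (nat_lit 401414) (nat_lit 0) .nil))))))) (.g (nat_lit 0) .nil .nil))))) (.nd (nat_lit 4) (.nd (nat_lit 5) 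
(.lf (nat_lit 93262) (.g (nat_lit 1756) (.e (nat_lit 2445) (nat_lit 157) (.e (nat_lit 4168) (nat_lit 251) (.e (nat_lit 1221) (nat_lit 90) (.e (nat_lit 81953) (nat_lit 22) (.e (nat_lit 90133) (nat_lit 9) .nil))))) .nil)) 
(.lf (nat_lit 93294) (.g (nat_lit 1385) (.e (nat_lit 2457) (nat_lit 157) (.e (nat_lit 5939) (nat_lit 322) (.e (nat_lit 57379) (nat_lit 3) (.e (nat_lit 98369) (nat_lit 28) (.e (nat_lit 450304) (nat_lit 18) .nil))))) .nil))) (.nd (nat_lit 5) 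
(.lf (nat_lit 93278) (.g (nat_lit 2792) (.e (nat_lit 2450) (nat_lit 157) (.e (nat_lit 5355) (nat_lit 298) (.e (nat_lit 1661) (nat_lit 115) (.e (nat_lit 393260) (nat_lit 21) (.e (nat_lit 409648) (nat_lit 18) (.e (nat_lit 303115) (nat_lit 1) (.e (nat_lit 164148) (nat_lit 152) (.e (nat_lit 23) (nat_lit 0) .nil)))))))) (.g (nat_lit 6) .nil .nil))) 
(.lf (nat_lit 93310) (.g (nat_lit 1724) (.e (nat_lit 2458) (nat_lit 157) (.e (nat_lit 5939) (nat_lit 322) (.e (nat_lit 57448) (nat_lit 19) (.e (nat_lit 393234) (nat_lit 17) (.e (nat_lit 7583) (nat_lit 405) (.e (nat_lit 57476) (nat_lit 28) (.e (nat_lit 557097) (nat_lit 13) (.e (nat_lit 172045) (nat_lit 0) .nil)))))))) (.g (nat_lit 4) .nil .nil)))))))) 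
(.nd (nat_lit 1) (.nd (nat_lit 2) (.nd (nat_lit 3) (.nd (nat_lit 4) (.nd (nat_lit 5) 
(.lf (nat_lit 93249) (.g (nat_lit 797) (.e (nat_lit 2444) (nat_lit 157) (.e (nat_lit 5934) (nat_lit 322) (.e (nat_lit 57379) (nat_lit 3) (.e (nat_lit 98370) (nat_lit 28) .nil)))) .nil)) 
(.lf (nat_lit 93281) (.g (nat_lit 4155) (.e (nat_lit 2450) (nat_lit 157) (.e (nat_lit 7450) (nat_lit 396) (.e (nat_lit 1178) (nat_lit 87) (.e (nat_lit 57480) (nat_lit 28) (.e (nat_lit 557108) (nat_lit 15) (.e (nat_lit 188452) (nat_lit 23) (.e (nat_lit 204852) (nat_lit 26) (.e (nat_lit 336258) (nat_lit 15) .nil)))))))) (.g (nat_lit 7) .nil .nil)))) (.nd (nat_lit 5) 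
(.lf (nat_lit 93265) (.g (nat_lit 1845) (.e (nat_lit 2449) (nat_lit 157) (.e (nat_lit 5355) (nat_lit 298) (.e (nat_lit 1661) (nat_lit 115) (.e (nat_lit 393260) (nat_lit 21) (.e (nat_lit 409643) (nat_lit 18) .nil))))) .nil)) 
(.lf (nat_lit 93297) (.g (nat_lit 6783) (.e (nat_lit 2458) (nat_lit 157) (.e (nat_lit 2946) (nat_lit 184) (.e (nat_lit 426100) (nat_lit 1) (.e (nat_lit 164398) (nat_lit 256) (.e (nat_lit 57378) (nat_lit 3) (.e (nat_lit 98373) (nat_lit 29) (.e (nat_lit 450562) (nat_lit 0) (.e (nat_lit 6595) (nat_lit 351) .nil)))))))) (.g (nat_lit 0) .nil .nil))))) (.nd (nat_lit 4) (.nd (nat_lit 5) 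
(.lf (nat_lit 93257) (.g (nat_lit 4002) (.e (nat_lit 2445) (nat_lit 157) (.e (nat_lit 3098) (nat_lit 192) (.e (nat_lit 491540) (nat_lit 3) (.e (nat_lit 98373) (nat_lit 29) (.e (nat_lit 450587) (nat_lit 10) (.e (nat_lit 573475) (nat_lit 12) (.e (nat_lit 57345) (nat_lit 0) (.e (nat_lit 6869) (nat_lit 371) .nil)))))))) (.g (nat_lit 8) .nil .nil))) 
(.lf (nat_lit 93289) (.g (nat_lit 4787) (.e (nat_lit 2454) (nat_lit 157) (.e (nat_lit 2663) (nat_lit 167) (.e (nat_lit 196666) (nat_lit 13) (.e (nat_lit 65610) (nat_lit 10) (.e (nat_lit 344117) (nat_lit 21) (.e (nat_lit 516151) (nat_lit 9) (.e (nat_lit 426412) (nat_lit 15) (.e (nat_lit 1010) (nat_lit 81) (.e (nat_lit 6017) (nat_lit 326) .nil))))))))) (.g (nat_lit 6) .nil .nil)))) (.nd (nat_lit 5) 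
(.lf (nat_lit 93273) (.g (nat_lit 2388) (.e (nat_lit 2450) (nat_lit 157) (.e (nat_lit 3098) (nat_lit 192) (.e (nat_lit 491565) (nat_lit 12) (.e (nat_lit 385102) (nat_lit 50) (.e (nat_lit 786483) (nat_lit 30) (.e (nat_lit 360451) (nat_lit 0) (.e (nat_lit 5429) (nat_lit 306) .nil))))))) (.g (nat_lit 5) .nil .nil))) 
(.lf (nat_lit 93305) (.g (nat_lit 4185) (.e (nat_lit 2458) (nat_lit 157) (.e (nat_lit 4606) (nat_lit 269) (.e (nat_lit 1196) (nat_lit 88) (.e (nat_lit 65630) (nat_lit 14) (.e (nat_lit 401459) (nat_lit 13) (.e (nat_lit 483411) (nat_lit 27) (.e (nat_lit 401414) (nat_lit 0) .nil))))))) (.g (nat_lit 7) .nil .nil)))))) (.nd (nat_lit 3) (.nd (nat_lit 4) (.nd (nat_lit 5) 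
(.lf (nat_lit 93253) (.g (nat_lit 3385) (.e (nat_lit 2445) (nat_lit 157) (.e (nat_lit 247) (nat_lit 21) (.e (nat_lit 336027) (nat_lit 3) (.e (nat_lit 98372) (nat_lit 29) (.e (nat_lit 450579) (nat_lit 5) (.e (nat_lit 532504) (nat_lit 1) (.e (nat_lit 57777) (nat_lit 233) .nil))))))) (.g (nat_lit 7) .nil .nil))) 
(.lf (nat_lit 93285) (.g (nat_lit 1932) (.e (nat_lit 2453) (nat_lit 157) (.e (nat_lit 250) (nat_lit 21) (.e (nat_lit 336027) (nat_lit 3) (.e (nat_lit 98373) (nat_lit 29) (.e (nat_lit 458496) (nat_lit 3) .nil))))) .nil))) (.nd (nat_lit 5) 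
(.lf (nat_lit 93269) (.g (nat_lit 4112) (.e (nat_lit 2450) (nat_lit 157) (.e (nat_lit 3098) (nat_lit 192) (.e (nat_lit 491540) (nat_lit 3) (.e (nat_lit 98373) (nat_lit 29) (.e (nat_lit 450587) (nat_lit 10) (.e (nat_lit 573475) (nat_lit 12) (.e (nat_lit 57345) (nat_lit 0) (.e (nat_lit 6850) (nat_lit 371) .nil)))))))) (.g (nat_lit 0) .nil .nil))) 
(.lf (nat_lit 93301) (.g (nat_lit 3915) (.e (nat_lit 2458) (nat_lit 157) (.e (nat_lit 4605) (nat_lit 269) (.e (nat_lit 1190) (nat_lit 88) (.e (nat_lit 65628) (nat_lit 14) (.e (nat_lit 401459) (nat_lit 13) (.e (nat_lit 483411) (nat_lit 27) (.e (nat_lit 401414) (nat_lit 0) .nil))))))) (.g (nat_lit 7) .nil .nil))))) (.nd (nat_lit 4) (.nd (nat_lit 5) 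
(.lf (nat_lit 93261) (.g (nat_lit 3637) (.e (nat_lit 2445) (nat_lit 157) (.e (nat_lit 3098) (nat_lit 192) (.e (nat_lit 491540) (nat_lit 3) (.e (nat_lit 98373) (nat_lit 29) (.e (nat_lit 450587) (nat_lit 10) (.e (nat_lit 573475) (nat_lit 12) (.e (nat_lit 57345) (nat_lit 0) (.e (nat_lit 6904) (nat_lit 371) .nil)))))))) (.g (nat_lit 6) .nil .nil))) 
(.lf (nat_lit 93293) (.g (nat_lit 1497) (.e (nat_lit 2456) (nat_lit 157) (.e (nat_lit 5939) (nat_lit 322) (.e (nat_lit 57379) (nat_lit 3) (.e (nat_lit 98370) (nat_lit 28) (.e (nat_lit 450304) (nat_lit 18) .nil))))) .nil))) (.nd (nat_lit 5) 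
(.lf (nat_lit 93277) (.g (nat_lit 2446) (.e (nat_lit 2450) (nat_lit 157) (.e (nat_lit 5355) (nat_lit 298) (.e (nat_lit 1661) (nat_lit 115) (.e (nat_lit 393260) (nat_lit 21) (.e (nat_lit 409648) (nat_lit 18) (.e (nat_lit 303114) (nat_lit 1) (.e (nat_lit 164150) (nat_lit 152) (.e (nat_lit 23) (nat_lit 0) .nil)))))))) (.g (nat_lit 5) .nil .nil))) 
(.lf (nat_lit 93309) (.g (nat_lit 1549) (.e (nat_lit 2458) (nat_lit 157) (.e (nat_lit 5939) (nat_lit 322) (.e (nat_lit 57379) (nat_lit 3) (.e (nat_lit 98370) (nat_lit 28) (.e (nat_lit 450304) (nat_lit 18) .nil))))) .nil)))))) (.nd (nat_lit 2) (.nd (nat_lit 3) (.nd (nat_lit 4) (.nd (nat_lit 5) 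
(.lf (nat_lit 93251) (.g (nat_lit 3372) (.e (nat_lit 2444) (nat_lit 157) (.e (nat_lit 5968) (nat_lit 324) (.e (nat_lit 163871) (nat_lit 2) (.e (nat_lit 196663) (nat_lit 13) (.e (nat_lit 65574) (nat_lit 4) (.e (nat_lit 123197) (nat_lit 266) (.e (nat_lit 57445) (nat_lit 19) (.e (nat_lit 393249) (nat_lit 17) .nil)))))))) (.g (nat_lit 8) .nil .nil))) 
(.lf (nat_lit 93283) (.g (nat_lit 1933) (.e (nat_lit 2452) (nat_lit 157) (.e (nat_lit 250) (nat_lit 21) (.e (nat_lit 336027) (nat_lit 3) (.e (nat_lit 98373) (nat_lit 29) (.e (nat_lit 458496) (nat_lit 3) .nil))))) .nil))) (.nd (nat_lit 5) 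
(.lf (nat_lit 93267) (.g (nat_lit 1882) (.e (nat_lit 2450) (nat_lit 157) (.e (nat_lit 2842) (nat_lit 184) (.e (nat_lit 426566) (nat_lit 34) (.e (nat_lit 393296) (nat_lit 26) .nil)))) .nil)) 
(.lf (nat_lit 93299) (.g (nat_lit 4089) (.e (nat_lit 2458) (nat_lit 157) (.e (nat_lit 4602) (nat_lit 269) (.e (nat_lit 1178) (nat_lit 87) (.e (nat_lit 57480) (nat_lit 28) (.e (nat_lit 557108) (nat_lit 15) (.e (nat_lit 188452) (nat_lit 23) (.e (nat_lit 204885) (nat_lit 33) (.e (nat_lit 401414) (nat_lit 0) .nil)))))))) (.g (nat_lit 0) .nil .nil))))) (.nd (nat_lit 4) (.nd (nat_lit 5) 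
(.lf (nat_lit 93259) (.g (nat_lit 3841) (.e (nat_lit 2445) (nat_lit 157) (.e (nat_lit 3098) (nat_lit 192) (.e (nat_lit 491540) (nat_lit 3) (.e (nat_lit 98373) (nat_lit 29) (.e (nat_lit 450587) (nat_lit 10) (.e (nat_lit 573475) (nat_lit 12) (.e (nat_lit 57345) (nat_lit 0) (.e (nat_lit 6901) (nat_lit 371) .nil)))))))) (.g (nat_lit 7) .nil .nil))) 
(.lf (nat_lit 93291) (.g (nat_lit 1816) (.e (nat_lit 2456) (nat_lit 157) (.e (nat_lit 5939) (nat_lit 322) (.e (nat_lit 57375) (nat_lit 2) (.e (nat_lit 90178) (nat_lit 15) (.e (nat_lit 196352) (nat_lit 18) .nil))))) .nil))) (.nd (nat_lit 5) 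
(.lf (nat_lit 93275) (.g (nat_lit 1799) (.e (nat_lit 2450) (nat_lit 157) (.e (nat_lit 5355) (nat_lit 298) (.e (nat_lit 1661) (nat_lit 115) (.e (nat_lit 393260) (nat_lit 21) (.e (nat_lit 409643) (nat_lit 18) .nil))))) .nil)) 
(.lf (nat_lit 93307) (.g (nat_lit 1337) (.e (nat_lit 2458) (nat_lit 157) (.e (nat_lit 5546) (nat_lit 306) (.e (nat_lit 2640) (nat_lit 165) (.e (nat_lit 180277) (nat_lit 32) (.e (nat_lit 1427) (nat_lit 108) .nil))))) .nil))))) (.nd (nat_lit 3) (.nd (nat_lit 4) (.nd (nat_lit 5) 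
(.lf (nat_lit 93255) (.g (nat_lit 1719) (.e (nat_lit 2445) (nat_lit 157) (.e (nat_lit 3098) (nat_lit 192) (.e (nat_lit 491540) (nat_lit 3) (.e (nat_lit 98372) (nat_lit 29) (.e (nat_lit 450579) (nat_lit 5) .nil))))) .nil)) 
(.lf (nat_lit 93287) (.g (nat_lit 3774) (.e (nat_lit 2454) (nat_lit 157) (.e (nat_lit 2663) (nat_lit 167) (.e (nat_lit 196666) (nat_lit 13) (.e (nat_lit 65610) (nat_lit 10) (.e (nat_lit 344117) (nat_lit 21) (.e (nat_lit 516151) (nat_lit 9) (.e (nat_lit 426412) (nat_lit 15) (.e (nat_lit 1010) (nat_lit 81) (.e (nat_lit 6013) (nat_lit 326) .nil))))))))) (.g (nat_lit 5) .nil .nil)))) (.nd (nat_lit 5) 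
(.lf (nat_lit 93271) (.g (nat_lit 4077) (.e (nat_lit 2450) (nat_lit 157) (.e (nat_lit 3098) (nat_lit 192) (.e (nat_lit 491540) (nat_lit 3) (.e (nat_lit 98373) (nat_lit 29) (.e (nat_lit 450587) (nat_lit 10) (.e (nat_lit 573475) (nat_lit 12) (.e (nat_lit 57345) (nat_lit 0) (.e (nat_lit 6853) (nat_lit 371) .nil)))))))) (.g (nat_lit 0) .nil .nil))) 
(.lf (nat_lit 93303) (.g (nat_lit 4754) (.e (nat_lit 2458) (nat_lit 157) (.e (nat_lit 4605) (nat_lit 269) (.e (nat_lit 1200) (nat_lit 88) (.e (nat_lit 65629) (nat_lit 14) (.e (nat_lit 401459) (nat_lit 13) (.e (nat_lit 483411) (nat_lit 27) (.e (nat_lit 401414) (nat_lit 0) .nil))))))) (.g (nat_lit 7) .nil .nil))))) (.nd (nat_lit 4) (.nd (nat_lit 5) 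
(.lf (nat_lit 93263) (.g (nat_lit 912) (.e (nat_lit 2448) (nat_lit 157) (.e (nat_lit 6416) (nat_lit 341) (.e (nat_lit 163885) (nat_lit 5) (.e (nat_lit 221218) (nat_lit 24) .nil)))) .nil)) 
(.lf (nat_lit 93295) (.g (nat_lit 1559) (.e (nat_lit 2457) (nat_lit 157) (.e (nat_lit 5939) (nat_lit 322) (.e (nat_lit 57379) (nat_lit 3) (.e (nat_lit 98370) (nat_lit 28) (.e (nat_lit 450304) (nat_lit 18) .nil))))) .nil))) (.nd (nat_lit 5) 
(.lf (nat_lit 93279) (.g (nat_lit 2742) (.e (nat_lit 2450) (nat_lit 157) (.e (nat_lit 5355) (nat_lit 298) (.e (nat_lit 1661) (nat_lit 115) (.e (nat_lit 393260) (nat_lit 21) (.e (nat_lit 409648) (nat_lit 18) (.e (nat_lit 303115) (nat_lit 1) (.e (nat_lit 164150) (nat_lit 152) (.e (nat_lit 23) (nat_lit 0) .nil)))))))) (.g (nat_lit 6) .nil .nil))) 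
(.lf (nat_lit 93311) (.g (nat_lit 3312) (.e (nat_lit 2461) (nat_lit 157) (.e (nat_lit 2684) (nat_lit 168) (.e (nat_lit 204817) (nat_lit 17) (.e (nat_lit 2198) (nat_lit 144) (.e (nat_lit 720941) (nat_lit 22) (.e (nat_lit 90172) (nat_lit 14) (.e (nat_lit 180244) (nat_lit 5) (.e (nat_lit 532499) (nat_lit 1) (.e (nat_lit 57657) (nat_lit 152) .nil))))))))) (.g (nat_lit 9) .nil .nil)))))))))

noncomputable def tv1280 : DT := (.nd (nat_lit 0) (.nd (nat_lit 1) (.nd (nat_lit 2) (.nd (nat_lit 3) (.nd (nat_lit 4) (.nd (nat_lit 5) 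
(.lf (nat_lit 93312) (.g (nat_lit 2735) (.e (nat_lit 2461) (nat_lit 157) (.e (nat_lit 3307) (nat_lit 202) (.e (nat_lit 573489) (nat_lit 14) (.e (nat_lit 73754) (nat_lit 8) (.e (nat_lit 557105) (nat_lit 14) .nil))))) .nil)) 
(.lf (nat_lit 93344) (.g (nat_lit 2388) (.e (nat_lit 2469) (nat_lit 157) (.e (nat_lit 5935) (nat_lit 322) (.e (nat_lit 57374) (nat_lit 2) (.e (nat_lit 90170) (nat_lit 13) (.e (nat_lit 172065) (nat_lit 3) .nil))))) .nil))) (.nd (nat_lit 5) 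
(.lf (nat_lit 93328) (.g (nat_lit 1047) (.e (nat_lit 2466) (nat_lit 157) (.e (nat_lit 5937) (nat_lit 322) (.e (nat_lit 57445) (nat_lit 19) (.e (nat_lit 393281) (nat_lit 23) .nil)))) .nil)) 
(.lf (nat_lit 93360) (.g (nat_lit 1485) (.e (nat_lit 2473) (nat_lit 157) (.e (nat_lit 5939) (nat_lit 322) (.e (nat_lit 57372) (nat_lit 2) (.e (nat_lit 90176) (nat_lit 15) (.e (nat_lit 188423) (nat_lit 11) .nil))))) .nil)))) (.nd (nat_lit 4) (.nd (nat_lit 5) 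
(.lf (nat_lit 93320) (.g (nat_lit 2213) (.e (nat_lit 2466) (nat_lit 157) (.e (nat_lit 3307) (nat_lit 202) (.e (nat_lit 573485) (nat_lit 13) (.e (nat_lit 65619) (nat_lit 10) (.e (nat_lit 344117) (nat_lit 21) .nil))))) .nil)) 
(.lf (nat_lit 93352) (.g (nat_lit 4441) (.e (nat_lit 2472) (nat_lit 157) (.e (nat_lit 3535) (nat_lit 218) (.e (nat_lit 704738) (nat_lit 11) (.e (nat_lit 16425) (nat_lit 7) (.e (nat_lit 409649) (nat_lit 18) (.e (nat_lit 303140) (nat_lit 10) (.e (nat_lit 434275) (nat_lit 39) (.e (nat_lit 663574) (nat_lit 9) .nil)))))))) (.g (nat_lit 8) .nil .nil)))) (.nd (nat_lit 5) 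
(.lf (nat_lit 93336) (.g (nat_lit 1584) (.e (nat_lit 2467) (nat_lit 157) (.e (nat_lit 3469) (nat_lit 217) (.e (nat_lit 696344) (nat_lit 8) (.e (nat_lit 172077) (nat_lit 7) .nil)))) .nil)) 
(.lf (nat_lit 93368) (.g (nat_lit 3388) (.e (nat_lit 2475) (nat_lit 157) (.e (nat_lit 284) (nat_lit 21) (.e (nat_lit 336012) (nat_lit 2) (.e (nat_lit 90176) (nat_lit 15) (.e (nat_lit 188450) (nat_lit 23) (.e (nat_lit 204830) (nat_lit 18) (.e (nat_lit 65280) (nat_lit 233) .nil))))))) (.g (nat_lit 6) .nil .nil)))))) (.nd (nat_lit 3) (.nd (nat_lit 4) (.nd (nat_lit 5) 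
(.lf (nat_lit 93316) (.g (nat_lit 2505) (.e (nat_lit 2464) (nat_lit 157) (.e (nat_lit 5939) (nat_lit 322) (.e (nat_lit 57375) (nat_lit 2) (.e (nat_lit 90185) (nat_lit 17) (.e (nat_lit 237605) (nat_lit 9) (.e (nat_lit 426566) (nat_lit 34) (.e (nat_lit 393235) (nat_lit 17) .nil))))))) (.g (nat_lit 6) .nil .nil))) 
(.lf (nat_lit 93348) (.g (nat_lit 1287) (.e (nat_lit 2469) (nat_lit 157) (.e (nat_lit 5953) (nat_lit 322) (.e (nat_lit 57373) (nat_lit 2) (.e (nat_lit 90178) (nat_lit 15) (.e (nat_lit 196352) (nat_lit 18) .nil))))) .nil))) (.nd (nat_lit 5) 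
(.lf (nat_lit 93332) (.g (nat_lit 1282) (.e (nat_lit 2466) (nat_lit 157) (.e (nat_lit 5938) (nat_lit 322) (.e (nat_lit 57372) (nat_lit 2) (.e (nat_lit 90176) (nat_lit 15) (.e (nat_lit 196352) (nat_lit 18) (.e (nat_lit 393237) (nat_lit 17) .nil)))))) (.g (nat_lit 4) .nil .nil))) 
(.lf (nat_lit 93364) (.g (nat_lit 1546) (.e (nat_lit 2473) (nat_lit 157) (.e (nat_lit 5939) (nat_lit 322) (.e (nat_lit 57379) (nat_lit 3) (.e (nat_lit 98370) (nat_lit 28) (.e (nat_lit 450304) (nat_lit 18) .nil))))) .nil)))) (.nd (nat_lit 4) (.nd (nat_lit 5) 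
(.lf (nat_lit 93324) (.g (nat_lit 1675) (.e (nat_lit 2466) (nat_lit 157) (.e (nat_lit 5937) (nat_lit 322) (.e (nat_lit 57373) (nat_lit 2) (.e (nat_lit 90185) (nat_lit 17) (.e (nat_lit 237624) (nat_lit 13) .nil))))) .nil)) 
(.lf (nat_lit 93356) (.g (nat_lit 1445) (.e (nat_lit 2472) (nat_lit 157) (.e (nat_lit 5939) (nat_lit 322) (.e (nat_lit 57379) (nat_lit 3) (.e (nat_lit 98369) (nat_lit 28) (.e (nat_lit 450304) (nat_lit 18) (.e (nat_lit 393241) (nat_lit 17) .nil)))))) (.g (nat_lit 4) .nil .nil)))) (.nd (nat_lit 5) 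
(.lf (nat_lit 93340) (.g (nat_lit 1376) (.e (nat_lit 2467) (nat_lit 157) (.e (nat_lit 5939) (nat_lit 322) (.e (nat_lit 57379) (nat_lit 3) (.e (nat_lit 98369) (nat_lit 28) (.e (nat_lit 450304) (nat_lit 18) .nil))))) .nil)) 
(.lf (nat_lit 93372) (.g (nat_lit 2908) (.e (nat_lit 2477) (nat_lit 157) (.e (nat_lit 3537) (nat_lit 218) (.e (nat_lit 704738) (nat_lit 11) (.e (nat_lit 16425) (nat_lit 7) (.e (nat_lit 409648) (nat_lit 18) (.e (nat_lit 303137) (nat_lit 10) (.e (nat_lit 434275) (nat_lit 39) (.e (nat_lit 663580) (nat_lit 9) .nil)))))))) (.g (nat_lit 5) .nil .nil))))))) 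
(.nd (nat_lit 2) (.nd (nat_lit 3) (.nd (nat_lit 4) (.nd (nat_lit 5) 
(.lf (nat_lit 93314) (.g (nat_lit 2440) (.e (nat_lit 2461) (nat_lit 157) (.e (nat_lit 3308) (nat_lit 202) (.e (nat_lit 573489) (nat_lit 14) (.e (nat_lit 73754) (nat_lit 8) (.e (nat_lit 557105) (nat_lit 14) .nil))))) .nil)) 
(.lf (nat_lit 93346) (.g (nat_lit 1552) (.e (nat_lit 2469) (nat_lit 157) (.e (nat_lit 5939) (nat_lit 322) (.e (nat_lit 57379) (nat_lit 3) (.e (nat_lit 98370) (nat_lit 28) (.e (nat_lit 450304) (nat_lit 18) .nil))))) .nil))) (.nd (nat_lit 5) 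
(.lf (nat_lit 93330) (.g (nat_lit 1813) (.e (nat_lit 2466) (nat_lit 157) (.e (nat_lit 5937) (nat_lit 322) (.e (nat_lit 57447) (nat_lit 19) (.e (nat_lit 393281) (nat_lit 23) (.e (nat_lit 426115) (nat_lit 2) .nil))))) .nil)) 
(.lf (nat_lit 93362) (.g (nat_lit 1366) (.e (nat_lit 2473) (nat_lit 157) (.e (nat_lit 5939) (nat_lit 322) (.e (nat_lit 57379) (nat_lit 3) (.e (nat_lit 98369) (nat_lit 28) (.e (nat_lit 450304) (nat_lit 18) .nil))))) .nil)))) (.nd (nat_lit 4) (.nd (nat_lit 5) 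
(.lf (nat_lit 93322) (.g (nat_lit 2244) (.e (nat_lit 2466) (nat_lit 157) (.e (nat_lit 5937) (nat_lit 322) (.e (nat_lit 57373) (nat_lit 2) (.e (nat_lit 90178) (nat_lit 15) (.e (nat_lit 196352) (nat_lit 18) .nil))))) .nil)) 
(.lf (nat_lit 93354) (.g (nat_lit 2594) (.e (nat_lit 2472) (nat_lit 157) (.e (nat_lit 5939) (nat_lit 322) (.e (nat_lit 57375) (nat_lit 2) (.e (nat_lit 90185) (nat_lit 17) (.e (nat_lit 237605) (nat_lit 9) (.e (nat_lit 426566) (nat_lit 34) (.e (nat_lit 393239) (nat_lit 17) .nil))))))) (.g (nat_lit 7) .nil .nil)))) (.nd (nat_lit 5) 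
(.lf (nat_lit 93338) (.g (nat_lit 1595) (.e (nat_lit 2467) (nat_lit 157) (.e (nat_lit 5939) (nat_lit 322) (.e (nat_lit 57375) (nat_lit 2) (.e (nat_lit 90176) (nat_lit 15) (.e (nat_lit 196352) (nat_lit 18) .nil))))) .nil)) 
(.lf (nat_lit 93370) (.g (nat_lit 2394) (.e (nat_lit 2477) (nat_lit 157) (.e (nat_lit 2663) (nat_lit 167) (.e (nat_lit 196670) (nat_lit 14) (.e (nat_lit 73753) (nat_lit 8) (.e (nat_lit 557103) (nat_lit 14) .nil))))) .nil))))) (.nd (nat_lit 3) (.nd (nat_lit 4) (.nd (nat_lit 5) 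
(.lf (nat_lit 93318) (.g (nat_lit 1717) (.e (nat_lit 2464) (nat_lit 157) (.e (nat_lit 5953) (nat_lit 322) (.e (nat_lit 57373) (nat_lit 2) (.e (nat_lit 90185) (nat_lit 17) (.e (nat_lit 237601) (nat_lit 9) .nil))))) .nil)) 
(.lf (nat_lit 93350) (.g (nat_lit 1388) (.e (nat_lit 2471) (nat_lit 157) (.e (nat_lit 5939) (nat_lit 322) (.e (nat_lit 57379) (nat_lit 3) (.e (nat_lit 98369) (nat_lit 28) (.e (nat_lit 450304) (nat_lit 18) .nil))))) .nil))) (.nd (nat_lit 5) 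
(.lf (nat_lit 93334) (.g (nat_lit 1912) (.e (nat_lit 2466) (nat_lit 157) (.e (nat_lit 6791) (nat_lit 365) (.e (nat_lit 1221) (nat_lit 90) (.e (nat_lit 81953) (nat_lit 22) (.e (nat_lit 98048) (nat_lit 0) .nil))))) .nil)) 
(.lf (nat_lit 93366) (.g (nat_lit 2852) (.e (nat_lit 2475) (nat_lit 157) (.e (nat_lit 247) (nat_lit 21) (.e (nat_lit 336012) (nat_lit 2) (.e (nat_lit 90176) (nat_lit 15) (.e (nat_lit 188450) (nat_lit 23) (.e (nat_lit 204830) (nat_lit 18) (.e (nat_lit 65280) (nat_lit 233) .nil))))))) (.g (nat_lit 6) .nil .nil))))) (.nd (nat_lit 4) (.nd (nat_lit 5) 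
(.lf (nat_lit 93326) (.g (nat_lit 1581) (.e (nat_lit 2466) (nat_lit 157) (.e (nat_lit 5937) (nat_lit 322) (.e (nat_lit 57379) (nat_lit 3) (.e (nat_lit 98370) (nat_lit 28) (.e (nat_lit 450304) (nat_lit 18) .nil))))) .nil)) 
(.lf (nat_lit 93358) (.g (nat_lit 1677) (.e (nat_lit 2472) (nat_lit 157) (.e (nat_lit 5939) (nat_lit 322) (.e (nat_lit 57379) (nat_lit 3) (.e (nat_lit 98370) (nat_lit 28) (.e (nat_lit 450304) (nat_lit 18) (.e (nat_lit 393241) (nat_lit 17) .nil)))))) (.g (nat_lit 4) .nil .nil)))) (.nd (nat_lit 5) 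
(.lf (nat_lit 93342) (.g (nat_lit 1744) (.e (nat_lit 2468) (nat_lit 157) (.e (nat_lit 5937) (nat_lit 322) (.e (nat_lit 57447) (nat_lit 19) (.e (nat_lit 393234) (nat_lit 17) (.e (nat_lit 7583) (nat_lit 405) .nil))))) .nil)) 
(.lf (nat_lit 93374) (.g (nat_lit 4586) (.e (nat_lit 2478) (nat_lit 157) (.e (nat_lit 3535) (nat_lit 218) (.e (nat_lit 704738) (nat_lit 11) (.e (nat_lit 16425) (nat_lit 7) (.e (nat_lit 409649) (nat_lit 18) (.e (nat_lit 303140) (nat_lit 10) (.e (nat_lit 434275) (nat_lit 39) (.e (nat_lit 663580) (nat_lit 9) .nil)))))))) (.g (nat_lit 8) .nil .nil)))))))) 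
(.nd (nat_lit 1) (.nd (nat_lit 2) (.nd (nat_lit 3) (.nd (nat_lit 4) (.nd (nat_lit 5) 
(.lf (nat_lit 93313) (.g (nat_lit 3012) (.e (nat_lit 2461) (nat_lit 157) (.e (nat_lit 3307) (nat_lit 202) (.e (nat_lit 573489) (nat_lit 14) (.e (nat_lit 73755) (nat_lit 8) (.e (nat_lit 557103) (nat_lit 14) .nil))))) .nil)) 
(.lf (nat_lit 93345) (.g (nat_lit 1873) (.e (nat_lit 2469) (nat_lit 157) (.e (nat_lit 5939) (nat_lit 322) (.e (nat_lit 57375) (nat_lit 2) (.e (nat_lit 90178) (nat_lit 15) (.e (nat_lit 196352) (nat_lit 18) .nil))))) .nil))) (.nd (nat_lit 5) 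
(.lf (nat_lit 93329) (.g (nat_lit 1038) (.e (nat_lit 2466) (nat_lit 157) (.e (nat_lit 5937) (nat_lit 322) (.e (nat_lit 57446) (nat_lit 19) (.e (nat_lit 393281) (nat_lit 23) (.e (nat_lit 426115) (nat_lit 2) .nil))))) .nil)) 
(.lf (nat_lit 93361) (.g (nat_lit 2059) (.e (nat_lit 2473) (nat_lit 157) (.e (nat_lit 5939) (nat_lit 322) (.e (nat_lit 57379) (nat_lit 3) (.e (nat_lit 98369) (nat_lit 28) (.e (nat_lit 442390) (nat_lit 11) (.e (nat_lit 336387) (nat_lit 27) (.e (nat_lit 426030) (nat_lit 0) .nil))))))) (.g (nat_lit 7) .nil .nil))))) (.nd (nat_lit 4) (.nd (nat_lit 5) 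
(.lf (nat_lit 93321) (.g (nat_lit 2281) (.e (nat_lit 2466) (nat_lit 157) (.e (nat_lit 5937) (nat_lit 322) (.e (nat_lit 57372) (nat_lit 2) (.e (nat_lit 90172) (nat_lit 14) (.e (nat_lit 180243) (nat_lit 5) .nil))))) .nil)) 
(.lf (nat_lit 93353) (.g (nat_lit 2847) (.e (nat_lit 2472) (nat_lit 157) (.e (nat_lit 3537) (nat_lit 218) (.e (nat_lit 704738) (nat_lit 11) (.e (nat_lit 16425) (nat_lit 7) (.e (nat_lit 409648) (nat_lit 18) (.e (nat_lit 303137) (nat_lit 10) (.e (nat_lit 434275) (nat_lit 39) (.e (nat_lit 663574) (nat_lit 9) .nil)))))))) (.g (nat_lit 5) .nil .nil)))) (.nd (nat_lit 5) 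
(.lf (nat_lit 93337) (.g (nat_lit 1409) (.e (nat_lit 2467) (nat_lit 157) (.e (nat_lit 3469) (nat_lit 217) (.e (nat_lit 696344) (nat_lit 8) (.e (nat_lit 172079) (nat_lit 7) .nil)))) .nil)) 
(.lf (nat_lit 93369) (.g (nat_lit 3436) (.e (nat_lit 2477) (nat_lit 157) (.e (nat_lit 247) (nat_lit 21) (.e (nat_lit 336027) (nat_lit 3) (.e (nat_lit 98372) (nat_lit 29) (.e (nat_lit 450579) (nat_lit 5) (.e (nat_lit 532501) (nat_lit 1) (.e (nat_lit 57777) (nat_lit 233) .nil))))))) (.g (nat_lit 7) .nil .nil)))))) (.nd (nat_lit 3) (.nd (nat_lit 4) (.nd (nat_lit 5) 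
(.lf (nat_lit 93317) (.g (nat_lit 1384) (.e (nat_lit 2464) (nat_lit 157) (.e (nat_lit 5939) (nat_lit 322) (.e (nat_lit 57379) (nat_lit 3) (.e (nat_lit 98369) (nat_lit 28) (.e (nat_lit 450304) (nat_lit 18) .nil))))) .nil)) 
(.lf (nat_lit 93349) (.g (nat_lit 1387) (.e (nat_lit 2469) (nat_lit 157) (.e (nat_lit 6401) (nat_lit 339) (.e (nat_lit 57447) (nat_lit 19) (.e (nat_lit 393229) (nat_lit 9) .nil)))) .nil))) (.nd (nat_lit 5) 
(.lf (nat_lit 93333) (.g (nat_lit 1386) (.e (nat_lit 2466) (nat_lit 157) (.e (nat_lit 5939) (nat_lit 322) (.e (nat_lit 57379) (nat_lit 3) (.e (nat_lit 98369) (nat_lit 28) (.e (nat_lit 450304) (nat_lit 18) .nil))))) .nil)) 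
(.lf (nat_lit 93365) (.g (nat_lit 2868) (.e (nat_lit 2475) (nat_lit 157) (.e (nat_lit 247) (nat_lit 21) (.e (nat_lit 336004) (nat_lit 2) (.e (nat_lit 90176) (nat_lit 15) (.e (nat_lit 188450) (nat_lit 23) (.e (nat_lit 204830) (nat_lit 18) (.e (nat_lit 65280) (nat_lit 233) .nil))))))) (.g (nat_lit 6) .nil .nil))))) (.nd (nat_lit 4) (.nd (nat_lit 5) 
(.lf (nat_lit 93325) (.g (nat_lit 1578) (.e (nat_lit 2466) (nat_lit 157) (.e (nat_lit 5937) (nat_lit 322) (.e (nat_lit 57377) (nat_lit 3) (.e (nat_lit 98365) (nat_lit 26) (.e (nat_lit 426187) (nat_lit 9) .nil))))) .nil)) 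
(.lf (nat_lit 93357) (.g (nat_lit 1538) (.e (nat_lit 2472) (nat_lit 157) (.e (nat_lit 5939) (nat_lit 322) (.e (nat_lit 57379) (nat_lit 3) (.e (nat_lit 98370) (nat_lit 28) (.e (nat_lit 450304) (nat_lit 18) .nil))))) .nil))) (.nd (nat_lit 5) 
(.lf (nat_lit 93341) (.g (nat_lit 1561) (.e (nat_lit 2467) (nat_lit 157) (.e (nat_lit 5939) (nat_lit 322) (.e (nat_lit 57379) (nat_lit 3) (.e (nat_lit 98370) (nat_lit 28) (.e (nat_lit 450304) (nat_lit 18) .nil))))) .nil)) 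
(.lf (nat_lit 93373) (.g (nat_lit 4223) (.e (nat_lit 2478) (nat_lit 157) (.e (nat_lit 3535) (nat_lit 218) (.e (nat_lit 704738) (nat_lit 11) (.e (nat_lit 16425) (nat_lit 7) (.e (nat_lit 409648) (nat_lit 18) (.e (nat_lit 303137) (nat_lit 10) (.e (nat_lit 434275) (nat_lit 39) (.e (nat_lit 663580) (nat_lit 9) .nil)))))))) (.g (nat_lit 7) .nil .nil))))))) 
(.nd (nat_lit 2) (.nd (nat_lit 3) (.nd (nat_lit 4) (.nd (nat_lit 5) 
(.lf (nat_lit 93315) (.g (nat_lit 4518) (.e (nat_lit 2464) (nat_lit 157) (.e (nat_lit 3535) (nat_lit 218) (.e (nat_lit 704738) (nat_lit 11) (.e (nat_lit 16425) (nat_lit 7) (.e (nat_lit 409649) (nat_lit 18) (.e (nat_lit 303140) (nat_lit 10) (.e (nat_lit 434275) (nat_lit 39) (.e (nat_lit 663574) (nat_lit 9) .nil)))))))) (.g (nat_lit 8) .nil .nil))) 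
(.lf (nat_lit 93347) (.g (nat_lit 1013) (.e (nat_lit 2469) (nat_lit 157) (.e (nat_lit 5951) (nat_lit 322) (.e (nat_lit 57373) (nat_lit 2) (.e (nat_lit 90178) (nat_lit 15) .nil)))) .nil))) (.nd (nat_lit 5) 
(.lf (nat_lit 93331) (.g (nat_lit 1680) (.e (nat_lit 2466) (nat_lit 157) (.e (nat_lit 5938) (nat_lit 322) (.e (nat_lit 57372) (nat_lit 2) (.e (nat_lit 90176) (nat_lit 15) (.e (nat_lit 188423) (nat_lit 11) (.e (nat_lit 336387) (nat_lit 27) (.e (nat_lit 426031) (nat_lit 0) .nil))))))) (.g (nat_lit 0) .nil .nil))) 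
(.lf (nat_lit 93363) (.g (nat_lit 1411) (.e (nat_lit 2473) (nat_lit 157) (.e (nat_lit 5939) (nat_lit 322) (.e (nat_lit 57379) (nat_lit 3) (.e (nat_lit 98369) (nat_lit 28) (.e (nat_lit 450304) (nat_lit 18) (.e (nat_lit 393241) (nat_lit 17) .nil)))))) (.g (nat_lit 4) .nil .nil))))) (.nd (nat_lit 4) (.nd (nat_lit 5) 
(.lf (nat_lit 93323) (.g (nat_lit 1671) (.e (nat_lit 2466) (nat_lit 157) (.e (nat_lit 5937) (nat_lit 322) (.e (nat_lit 57373) (nat_lit 2) (.e (nat_lit 90185) (nat_lit 17) (.e (nat_lit 237621) (nat_lit 13) .nil))))) .nil)) 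
(.lf (nat_lit 93355) (.g (nat_lit 934) (.e (nat_lit 2472) (nat_lit 157) (.e (nat_lit 5939) (nat_lit 322) (.e (nat_lit 57379) (nat_lit 3) (.e (nat_lit 98363) (nat_lit 26) .nil)))) .nil))) (.nd (nat_lit 5) 
(.lf (nat_lit 93339) (.g (nat_lit 1875) (.e (nat_lit 2467) (nat_lit 157) (.e (nat_lit 5939) (nat_lit 322) (.e (nat_lit 57375) (nat_lit 2) (.e (nat_lit 90178) (nat_lit 15) (.e (nat_lit 196352) (nat_lit 18) (.e (nat_lit 393237) (nat_lit 17) .nil)))))) (.g (nat_lit 4) .nil .nil))) 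
(.lf (nat_lit 93371) (.g (nat_lit 4594) (.e (nat_lit 2477) (nat_lit 157) (.e (nat_lit 3535) (nat_lit 218) (.e (nat_lit 704738) (nat_lit 11) (.e (nat_lit 16425) (nat_lit 7) (.e (nat_lit 409649) (nat_lit 18) (.e (nat_lit 303140) (nat_lit 10) (.e (nat_lit 434275) (nat_lit 39) (.e (nat_lit 663580) (nat_lit 9) .nil)))))))) (.g (nat_lit 0) .nil .nil)))))) 
(.nd (nat_lit 3) (.nd (nat_lit 4) (.nd (nat_lit 5) 
(.lf (nat_lit 93319) (.g (nat_lit 2173) (.e (nat_lit 2466) (nat_lit 157) (.e (nat_lit 2854) (nat_lit 184) (.e (nat_lit 426566) (nat_lit 34) (.e (nat_lit 393271) (nat_lit 23) (.e (nat_lit 426131) (nat_lit 3) .nil))))) .nil)) 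
(.lf (nat_lit 93351) (.g (nat_lit 2792) (.e (nat_lit 2472) (nat_lit 157) (.e (nat_lit 3307) (nat_lit 202) (.e (nat_lit 573484) (nat_lit 13) (.e (nat_lit 65610) (nat_lit 10) (.e (nat_lit 344117) (nat_lit 21) .nil))))) .nil))) (.nd (nat_lit 5) 
(.lf (nat_lit 93335) (.g (nat_lit 1573) (.e (nat_lit 2467) (nat_lit 157) (.e (nat_lit 3469) (nat_lit 217) (.e (nat_lit 696344) (nat_lit 8) (.e (nat_lit 172064) (nat_lit 2) .nil)))) .nil)) 
(.lf (nat_lit 93367) (.g (nat_lit 3442) (.e (nat_lit 2475) (nat_lit 157) (.e (nat_lit 284) (nat_lit 21) (.e (nat_lit 336004) (nat_lit 2) (.e (nat_lit 90176) (nat_lit 15) (.e (nat_lit 188450) (nat_lit 23) (.e (nat_lit 204830) (nat_lit 18) (.e (nat_lit 65280) (nat_lit 233) .nil))))))) (.g (nat_lit 6) .nil .nil))))) (.nd (nat_lit 4) (.nd (nat_lit 5) 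
(.lf (nat_lit 93327) (.g (nat_lit 872) (.e (nat_lit 2466) (nat_lit 157) (.e (nat_lit 5937) (nat_lit 322) (.e (nat_lit 57379) (nat_lit 3) (.e (nat_lit 98381) (nat_lit 31) .nil)))) .nil)) 
(.lf (nat_lit 93359) (.g (nat_lit 1835) (.e (nat_lit 2472) (nat_lit 157) (.e (nat_lit 5953) (nat_lit 322) (.e (nat_lit 57447) (nat_lit 19) (.e (nat_lit 393281) (nat_lit 23) (.e (nat_lit 426116) (nat_lit 2) .nil))))) .nil))) (.nd (nat_lit 5) 
(.lf (nat_lit 93343) (.g (nat_lit 1835) (.e (nat_lit 2468) (nat_lit 157) (.e (nat_lit 5937) (nat_lit 322) (.e (nat_lit 57448) (nat_lit 19) (.e (nat_lit 393234) (nat_lit 17) (.e (nat_lit 7583) (nat_lit 405) .nil))))) .nil)) 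
(.lf (nat_lit 93375) (.g (nat_lit 4211) (.e (nat_lit 2478) (nat_lit 157) (.e (nat_lit 3537) (nat_lit 218) (.e (nat_lit 704738) (nat_lit 11) (.e (nat_lit 16425) (nat_lit 7) (.e (nat_lit 409648) (nat_lit 18) (.e (nat_lit 303137) (nat_lit 10) (.e (nat_lit 434275) (nat_lit 39) (.e (nat_lit 663580) (nat_lit 9) .nil)))))))) (.g (nat_lit 8) .nil .nil)))))))))

noncomputable def tv1281 : DT := (.nd (nat_lit 0) (.nd (nat_lit 1) (.nd (nat_lit 2) (.nd (nat_lit 3) (.nd (nat_lit 4) (.nd (nat_lit 5) 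
(.lf (nat_lit 93376) (.g (nat_lit 4071) (.e (nat_lit 2478) (nat_lit 157) (.e (nat_lit 4607) (nat_lit 269) (.e (nat_lit 1178) (nat_lit 87) (.e (nat_lit 57480) (nat_lit 28) (.e (nat_lit 557108) (nat_lit 15) (.e (nat_lit 188452) (nat_lit 23) (.e (nat_lit 204885) (nat_lit 33) (.e (nat_lit 401414) (nat_lit 0) .nil)))))))) (.g (nat_lit 0) .nil .nil))) 
(.lf (nat_lit 93408) (.g (nat_lit 3101) (.e (nat_lit 2485) (nat_lit 157) (.e (nat_lit 5949) (nat_lit 322) (.e (nat_lit 57378) (nat_lit 3) (.e (nat_lit 98365) (nat_lit 26) (.e (nat_lit 426187) (nat_lit 9) (.e (nat_lit 426566) (nat_lit 34) (.e (nat_lit 393233) (nat_lit 17) .nil))))))) (.g (nat_lit 7) .nil .nil)))) (.nd (nat_lit 5) 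
(.lf (nat_lit 93392) (.g (nat_lit 1246) (.e (nat_lit 2479) (nat_lit 157) (.e (nat_lit 284) (nat_lit 21) (.e (nat_lit 336026) (nat_lit 3) (.e (nat_lit 98372) (nat_lit 29) (.e (nat_lit 450579) (nat_lit 5) .nil))))) .nil)) 
(.lf (nat_lit 93424) (.g (nat_lit 1574) (.e (nat_lit 2504) (nat_lit 157) (.e (nat_lit 5949) (nat_lit 322) (.e (nat_lit 57373) (nat_lit 2) (.e (nat_lit 90176) (nat_lit 15) (.e (nat_lit 196352) (nat_lit 18) .nil))))) .nil)))) (.nd (nat_lit 4) (.nd (nat_lit 5) 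
(.lf (nat_lit 93384) (.g (nat_lit 2031) (.e (nat_lit 2478) (nat_lit 157) (.e (nat_lit 6391) (nat_lit 339) (.e (nat_lit 57406) (nat_lit 12) (.e (nat_lit 336367) (nat_lit 27) (.e (nat_lit 426542) (nat_lit 29) (.e (nat_lit 352313) (nat_lit 23) (.e (nat_lit 98325) (nat_lit 17) .nil))))))) (.g (nat_lit 5) .nil .nil))) 
(.lf (nat_lit 93416) (.g (nat_lit 3226) (.e (nat_lit 2487) (nat_lit 157) (.e (nat_lit 247) (nat_lit 21) (.e (nat_lit 336027) (nat_lit 3) (.e (nat_lit 98372) (nat_lit 29) (.e (nat_lit 450579) (nat_lit 5) (.e (nat_lit 532501) (nat_lit 1) (.e (nat_lit 57776) (nat_lit 233) .nil))))))) (.g (nat_lit 6) .nil .nil)))) (.nd (nat_lit 5) 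
(.lf (nat_lit 93400) (.g (nat_lit 4467) (.e (nat_lit 2481) (nat_lit 157) (.e (nat_lit 3535) (nat_lit 218) (.e (nat_lit 704738) (nat_lit 11) (.e (nat_lit 16425) (nat_lit 7) (.e (nat_lit 409649) (nat_lit 18) (.e (nat_lit 303140) (nat_lit 10) (.e (nat_lit 434275) (nat_lit 39) (.e (nat_lit 663580) (nat_lit 9) .nil)))))))) (.g (nat_lit 8) .nil .nil))) 
(.lf (nat_lit 93432) (.g (nat_lit 1300) (.e (nat_lit 2504) (nat_lit 157) (.e (nat_lit 5949) (nat_lit 322) (.e (nat_lit 57378) (nat_lit 3) (.e (nat_lit 98380) (nat_lit 31) .nil)))) .nil))))) (.nd (nat_lit 3) (.nd (nat_lit 4) (.nd (nat_lit 5) 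
(.lf (nat_lit 93380) (.g (nat_lit 2693) (.e (nat_lit 2478) (nat_lit 157) (.e (nat_lit 5953) (nat_lit 322) (.e (nat_lit 57373) (nat_lit 2) (.e (nat_lit 90174) (nat_lit 14) (.e (nat_lit 180243) (nat_lit 5) (.e (nat_lit 532508) (nat_lit 2) (.e (nat_lit 106517) (nat_lit 9) (.e (nat_lit 1255) (nat_lit 92) (.e (nat_lit 98325) (nat_lit 17) .nil))))))))) (.g (nat_lit 6) .nil .nil))) 
(.lf (nat_lit 93412) (.g (nat_lit 1259) (.e (nat_lit 2485) (nat_lit 157) (.e (nat_lit 5949) (nat_lit 322) (.e (nat_lit 57378) (nat_lit 3) (.e (nat_lit 98380) (nat_lit 31) .nil)))) .nil))) (.nd (nat_lit 5) 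
(.lf (nat_lit 93396) (.g (nat_lit 1518) (.e (nat_lit 2479) (nat_lit 157) (.e (nat_lit 5953) (nat_lit 322) (.e (nat_lit 57378) (nat_lit 3) (.e (nat_lit 98370) (nat_lit 28) (.e (nat_lit 450304) (nat_lit 18) .nil))))) .nil)) 
(.lf (nat_lit 93428) (.g (nat_lit 1966) (.e (nat_lit 2504) (nat_lit 157) (.e (nat_lit 5949) (nat_lit 322) (.e (nat_lit 57377) (nat_lit 3) (.e (nat_lit 98365) (nat_lit 26) (.e (nat_lit 426188) (nat_lit 9) .nil))))) .nil)))) (.nd (nat_lit 4) (.nd (nat_lit 5) 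
(.lf (nat_lit 93388) (.g (nat_lit 2503) (.e (nat_lit 2478) (nat_lit 157) (.e (nat_lit 6393) (nat_lit 339) (.e (nat_lit 57407) (nat_lit 12) (.e (nat_lit 336367) (nat_lit 27) (.e (nat_lit 426542) (nat_lit 29) (.e (nat_lit 352315) (nat_lit 23) (.e (nat_lit 98325) (nat_lit 17) .nil))))))) (.g (nat_lit 5) .nil .nil))) 
(.lf (nat_lit 93420) (.g (nat_lit 1774) (.e (nat_lit 2497) (nat_lit 157) (.e (nat_lit 3067) (nat_lit 190) (.e (nat_lit 475176) (nat_lit 24) (.e (nat_lit 516174) (nat_lit 14) (.e (nat_lit 466954) (nat_lit 11) .nil))))) .nil))) (.nd (nat_lit 5) 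
(.lf (nat_lit 93404) (.g (nat_lit 1509) (.e (nat_lit 2485) (nat_lit 157) (.e (nat_lit 5949) (nat_lit 322) (.e (nat_lit 57373) (nat_lit 2) (.e (nat_lit 90178) (nat_lit 15) (.e (nat_lit 196352) (nat_lit 18) .nil))))) .nil)) 
(.lf (nat_lit 93436) (.g (nat_lit 560) (.e (nat_lit 2505) (nat_lit 157) (.e (nat_lit 3302) (nat_lit 202) (.e (nat_lit 573449) (nat_lit 9) .nil))) .nil)))))) (.nd (nat_lit 2) (.nd (nat_lit 3) (.nd (nat_lit 4) (.nd (nat_lit 5) 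
(.lf (nat_lit 93378) (.g (nat_lit 1029) (.e (nat_lit 2478) (nat_lit 157) (.e (nat_lit 5224) (nat_lit 296) (.e (nat_lit 163903) (nat_lit 12) (.e (nat_lit 426566) (nat_lit 34) .nil)))) .nil)) 
(.lf (nat_lit 93410) (.g (nat_lit 3197) (.e (nat_lit 2485) (nat_lit 157) (.e (nat_lit 5949) (nat_lit 322) (.e (nat_lit 57378) (nat_lit 3) (.e (nat_lit 98365) (nat_lit 26) (.e (nat_lit 426188) (nat_lit 9) (.e (nat_lit 426566) (nat_lit 34) (.e (nat_lit 393233) (nat_lit 17) .nil))))))) (.g (nat_lit 7) .nil .nil)))) (.nd (nat_lit 5) 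
(.lf (nat_lit 93394) (.g (nat_lit 3779) (.e (nat_lit 2479) (nat_lit 157) (.e (nat_lit 2663) (nat_lit 167) (.e (nat_lit 196666) (nat_lit 13) (.e (nat_lit 65610) (nat_lit 10) (.e (nat_lit 344117) (nat_lit 21) (.e (nat_lit 516151) (nat_lit 9) (.e (nat_lit 426412) (nat_lit 15) (.e (nat_lit 1010) (nat_lit 81) (.e (nat_lit 6014) (nat_lit 326) .nil))))))))) (.g (nat_lit 5) .nil .nil))) 
(.lf (nat_lit 93426) (.g (nat_lit 3062) (.e (nat_lit 2504) (nat_lit 157) (.e (nat_lit 5949) (nat_lit 322) (.e (nat_lit 57373) (nat_lit 2) (.e (nat_lit 90185) (nat_lit 17) (.e (nat_lit 237601) (nat_lit 9) (.e (nat_lit 426566) (nat_lit 34) (.e (nat_lit 393232) (nat_lit 17) .nil))))))) (.g (nat_lit 0) .nil .nil))))) (.nd (nat_lit 4) (.nd (nat_lit 5) 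
(.lf (nat_lit 93386) (.g (nat_lit 1795) (.e (nat_lit 2478) (nat_lit 157) (.e (nat_lit 6391) (nat_lit 339) (.e (nat_lit 57407) (nat_lit 12) (.e (nat_lit 336367) (nat_lit 27) (.e (nat_lit 426542) (nat_lit 29) .nil))))) .nil)) 
(.lf (nat_lit 93418) (.g (nat_lit 1603) (.e (nat_lit 2489) (nat_lit 157) (.e (nat_lit 5949) (nat_lit 322) (.e (nat_lit 57400) (nat_lit 10) (.e (nat_lit 319534) (nat_lit 16) (.e (nat_lit 286761) (nat_lit 13) .nil))))) .nil))) (.nd (nat_lit 5) 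
(.lf (nat_lit 93402) (.g (nat_lit 1998) (.e (nat_lit 2484) (nat_lit 157) (.e (nat_lit 5949) (nat_lit 322) (.e (nat_lit 57445) (nat_lit 19) (.e (nat_lit 393281) (nat_lit 23) (.e (nat_lit 426115) (nat_lit 2) .nil))))) .nil)) 
(.lf (nat_lit 93434) (.g (nat_lit 3364) (.e (nat_lit 2505) (nat_lit 157) (.e (nat_lit 247) (nat_lit 21) (.e (nat_lit 336027) (nat_lit 3) (.e (nat_lit 98372) (nat_lit 29) (.e (nat_lit 450579) (nat_lit 5) (.e (nat_lit 532501) (nat_lit 1) (.e (nat_lit 57776) (nat_lit 233) .nil))))))) (.g (nat_lit 6) .nil .nil)))))) (.nd (nat_lit 3) (.nd (nat_lit 4) (.nd (nat_lit 5) 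
(.lf (nat_lit 93382) (.g (nat_lit 3352) (.e (nat_lit 2478) (nat_lit 157) (.e (nat_lit 6387) (nat_lit 338) (.e (nat_lit 8210) (nat_lit 8) (.e (nat_lit 294960) (nat_lit 13) (.e (nat_lit 393260) (nat_lit 21) (.e (nat_lit 409645) (nat_lit 18) (.e (nat_lit 303112) (nat_lit 0) .nil))))))) (.g (nat_lit 0) .nil .nil))) 
(.lf (nat_lit 93414) (.g (nat_lit 1468) (.e (nat_lit 2486) (nat_lit 157) (.e (nat_lit 5949) (nat_lit 322) (.e (nat_lit 57378) (nat_lit 3) (.e (nat_lit 98363) (nat_lit 26) (.e (nat_lit 426230) (nat_lit 9) .nil))))) .nil))) (.nd (nat_lit 5) 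
(.lf (nat_lit 93398) (.g (nat_lit 4501) (.e (nat_lit 2480) (nat_lit 157) (.e (nat_lit 3537) (nat_lit 218) (.e (nat_lit 704738) (nat_lit 11) (.e (nat_lit 16425) (nat_lit 7) (.e (nat_lit 409649) (nat_lit 18) (.e (nat_lit 303140) (nat_lit 10) (.e (nat_lit 434275) (nat_lit 39) (.e (nat_lit 663580) (nat_lit 9) .nil)))))))) (.g (nat_lit 8) .nil .nil))) 
(.lf (nat_lit 93430) (.g (nat_lit 3959) (.e (nat_lit 2504) (nat_lit 157) (.e (nat_lit 5949) (nat_lit 322) (.e (nat_lit 57378) (nat_lit 3) (.e (nat_lit 98365) (nat_lit 26) (.e (nat_lit 426187) (nat_lit 9) (.e (nat_lit 426568) (nat_lit 34) (.e (nat_lit 393234) (nat_lit 17) .nil))))))) (.g (nat_lit 0) .nil .nil))))) (.nd (nat_lit 4) (.nd (nat_lit 5) 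
(.lf (nat_lit 93390) (.g (nat_lit 1817) (.e (nat_lit 2478) (nat_lit 157) (.e (nat_lit 6400) (nat_lit 339) (.e (nat_lit 57379) (nat_lit 3) (.e (nat_lit 98342) (nat_lit 20) (.e (nat_lit 221215) (nat_lit 23) .nil))))) .nil)) 
(.lf (nat_lit 93422) (.g (nat_lit 1769) (.e (nat_lit 2497) (nat_lit 157) (.e (nat_lit 5949) (nat_lit 322) (.e (nat_lit 57378) (nat_lit 3) (.e (nat_lit 98365) (nat_lit 26) (.e (nat_lit 426187) (nat_lit 9) .nil))))) .nil))) (.nd (nat_lit 5) 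
(.lf (nat_lit 93406) (.g (nat_lit 3198) (.e (nat_lit 2485) (nat_lit 157) (.e (nat_lit 5949) (nat_lit 322) (.e (nat_lit 57373) (nat_lit 2) (.e (nat_lit 90185) (nat_lit 17) (.e (nat_lit 237605) (nat_lit 9) (.e (nat_lit 426566) (nat_lit 34) (.e (nat_lit 393232) (nat_lit 17) .nil))))))) (.g (nat_lit 0) .nil .nil))) 
(.lf (nat_lit 93438) (.g (nat_lit 1808) (.e (nat_lit 2505) (nat_lit 157) (.e (nat_lit 5293) (nat_lit 298) (.e (nat_lit 1633) (nat_lit 114) (.e (nat_lit 385094) (nat_lit 49) (.e (nat_lit 778327) (nat_lit 6) .nil))))) .nil))))))) (.nd (nat_lit 1) (.nd (nat_lit 2) (.nd (nat_lit 3) (.nd (nat_lit 4) (.nd (nat_lit 5) 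
(.lf (nat_lit 93377) (.g (nat_lit 2351) (.e (nat_lit 2478) (nat_lit 157) (.e (nat_lit 5190) (nat_lit 294) (.e (nat_lit 57411) (nat_lit 12) (.e (nat_lit 336019) (nat_lit 3) (.e (nat_lit 98374) (nat_lit 29) .nil))))) .nil)) 
(.lf (nat_lit 93409) (.g (nat_lit 3921) (.e (nat_lit 2485) (nat_lit 157) (.e (nat_lit 5949) (nat_lit 322) (.e (nat_lit 57378) (nat_lit 3) (.e (nat_lit 98365) (nat_lit 26) (.e (nat_lit 426187) (nat_lit 9) (.e (nat_lit 426568) (nat_lit 34) (.e (nat_lit 393234) (nat_lit 17) .nil))))))) (.g (nat_lit 0) .nil .nil)))) (.nd (nat_lit 5) 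
(.lf (nat_lit 93393) (.g (nat_lit 3891) (.e (nat_lit 2479) (nat_lit 157) (.e (nat_lit 2663) (nat_lit 167) (.e (nat_lit 196666) (nat_lit 13) (.e (nat_lit 65610) (nat_lit 10) (.e (nat_lit 344117) (nat_lit 21) (.e (nat_lit 516151) (nat_lit 9) (.e (nat_lit 426412) (nat_lit 15) (.e (nat_lit 1010) (nat_lit 81) (.e (nat_lit 6013) (nat_lit 326) .nil))))))))) (.g (nat_lit 5) .nil .nil))) 
(.lf (nat_lit 93425) (.g (nat_lit 1534) (.e (nat_lit 2504) (nat_lit 157) (.e (nat_lit 5949) (nat_lit 322) (.e (nat_lit 57373) (nat_lit 2) (.e (nat_lit 90178) (nat_lit 15) (.e (nat_lit 196352) (nat_lit 18) .nil))))) .nil)))) (.nd (nat_lit 4) (.nd (nat_lit 5) 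
(.lf (nat_lit 93385) (.g (nat_lit 1918) (.e (nat_lit 2478) (nat_lit 157) (.e (nat_lit 6391) (nat_lit 339) (.e (nat_lit 57406) (nat_lit 12) (.e (nat_lit 336456) (nat_lit 34) (.e (nat_lit 483389) (nat_lit 23) (.e (nat_lit 336028) (nat_lit 3) (.e (nat_lit 98325) (nat_lit 17) .nil))))))) (.g (nat_lit 4) .nil .nil))) 
(.lf (nat_lit 93417) (.g (nat_lit 2252) (.e (nat_lit 2488) (nat_lit 157) (.e (nat_lit 2664) (nat_lit 167) (.e (nat_lit 196666) (nat_lit 13) (.e (nat_lit 65610) (nat_lit 10) (.e (nat_lit 344117) (nat_lit 21) .nil))))) .nil))) (.nd (nat_lit 5) 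
(.lf (nat_lit 93401) (.g (nat_lit 1635) (.e (nat_lit 2481) (nat_lit 157) (.e (nat_lit 5953) (nat_lit 322) (.e (nat_lit 57447) (nat_lit 19) (.e (nat_lit 393234) (nat_lit 17) (.e (nat_lit 7583) (nat_lit 405) .nil))))) .nil)) 
(.lf (nat_lit 93433) (.g (nat_lit 1818) (.e (nat_lit 2504) (nat_lit 157) (.e (nat_lit 5949) (nat_lit 322) (.e (nat_lit 57447) (nat_lit 19) (.e (nat_lit 393281) (nat_lit 23) (.e (nat_lit 426115) (nat_lit 2) .nil))))) .nil))))) (.nd (nat_lit 3) (.nd (nat_lit 4) (.nd (nat_lit 5) 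
(.lf (nat_lit 93381) (.g (nat_lit 1143) (.e (nat_lit 2478) (nat_lit 157) (.e (nat_lit 6273) (nat_lit 337) (.e (nat_lit 1056) (nat_lit 81) (.e (nat_lit 1661) (nat_lit 115) (.e (nat_lit 401152) (nat_lit 11) (.e (nat_lit 352315) (nat_lit 23) (.e (nat_lit 98325) (nat_lit 17) .nil))))))) (.g (nat_lit 4) .nil .nil))) 
(.lf (nat_lit 93413) (.g (nat_lit 1756) (.e (nat_lit 2485) (nat_lit 157) (.e (nat_lit 5949) (nat_lit 322) (.e (nat_lit 57447) (nat_lit 19) (.e (nat_lit 393281) (nat_lit 23) (.e (nat_lit 426115) (nat_lit 2) .nil))))) .nil))) (.nd (nat_lit 5) 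
(.lf (nat_lit 93397) (.g (nat_lit 4565) (.e (nat_lit 2480) (nat_lit 157) (.e (nat_lit 3535) (nat_lit 218) (.e (nat_lit 704738) (nat_lit 11) (.e (nat_lit 16425) (nat_lit 7) (.e (nat_lit 409649) (nat_lit 18) (.e (nat_lit 303140) (nat_lit 10) (.e (nat_lit 434275) (nat_lit 39) (.e (nat_lit 663580) (nat_lit 9) .nil)))))))) (.g (nat_lit 0) .nil .nil))) 
(.lf (nat_lit 93429) (.g (nat_lit 1577) (.e (nat_lit 2504) (nat_lit 157) (.e (nat_lit 5949) (nat_lit 322) (.e (nat_lit 57378) (nat_lit 3) (.e (nat_lit 98363) (nat_lit 26) (.e (nat_lit 426228) (nat_lit 9) (.e (nat_lit 426565) (nat_lit 34) (.e (nat_lit 393234) (nat_lit 17) .nil))))))) (.g (nat_lit 4) .nil .nil))))) (.nd (nat_lit 4) (.nd (nat_lit 5) 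
(.lf (nat_lit 93389) (.g (nat_lit 2086) (.e (nat_lit 2478) (nat_lit 157) (.e (nat_lit 6400) (nat_lit 339) (.e (nat_lit 57379) (nat_lit 3) (.e (nat_lit 98342) (nat_lit 20) (.e (nat_lit 221211) (nat_lit 22) (.e (nat_lit 196666) (nat_lit 13) (.e (nat_lit 65569) (nat_lit 3) (.e (nat_lit 98325) (nat_lit 17) .nil)))))))) (.g (nat_lit 4) .nil .nil))) 
(.lf (nat_lit 93421) (.g (nat_lit 2465) (.e (nat_lit 2497) (nat_lit 157) (.e (nat_lit 3067) (nat_lit 190) (.e (nat_lit 475179) (nat_lit 24) (.e (nat_lit 516174) (nat_lit 14) (.e (nat_lit 466954) (nat_lit 11) .nil))))) .nil))) (.nd (nat_lit 5) 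
(.lf (nat_lit 93405) (.g (nat_lit 3083) (.e (nat_lit 2485) (nat_lit 157) (.e (nat_lit 5949) (nat_lit 322) (.e (nat_lit 57373) (nat_lit 2) (.e (nat_lit 90185) (nat_lit 17) (.e (nat_lit 237601) (nat_lit 9) (.e (nat_lit 426566) (nat_lit 34) (.e (nat_lit 393232) (nat_lit 17) .nil))))))) (.g (nat_lit 0) .nil .nil))) 
(.lf (nat_lit 93437) (.g (nat_lit 1885) (.e (nat_lit 2505) (nat_lit 157) (.e (nat_lit 3302) (nat_lit 202) (.e (nat_lit 573450) (nat_lit 9) (.e (nat_lit 1615) (nat_lit 113) (.e (nat_lit 376869) (nat_lit 23) .nil))))) .nil)))))) (.nd (nat_lit 2) (.nd (nat_lit 3) (.nd (nat_lit 4) (.nd (nat_lit 5) 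
(.lf (nat_lit 93379) (.g (nat_lit 3188) (.e (nat_lit 2478) (nat_lit 157) (.e (nat_lit 5766) (nat_lit 316) (.e (nat_lit 172133) (nat_lit 15) (.e (nat_lit 2175) (nat_lit 143) (.e (nat_lit 712755) (nat_lit 30) (.e (nat_lit 450597) (nat_lit 17) (.e (nat_lit 663589) (nat_lit 14) .nil))))))) (.g (nat_lit 7) .nil .nil))) 
(.lf (nat_lit 93411) (.g (nat_lit 4291) (.e (nat_lit 2485) (nat_lit 157) (.e (nat_lit 5949) (nat_lit 322) (.e (nat_lit 57378) (nat_lit 3) (.e (nat_lit 98365) (nat_lit 26) (.e (nat_lit 426188) (nat_lit 9) (.e (nat_lit 426568) (nat_lit 34) (.e (nat_lit 393234) (nat_lit 17) .nil))))))) (.g (nat_lit 0) .nil .nil)))) (.nd (nat_lit 5) 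
(.lf (nat_lit 93395) (.g (nat_lit 939) (.e (nat_lit 2479) (nat_lit 157) (.e (nat_lit 5953) (nat_lit 322) (.e (nat_lit 57371) (nat_lit 2) (.e (nat_lit 90176) (nat_lit 15) .nil)))) .nil)) 
(.lf (nat_lit 93427) (.g (nat_lit 3184) (.e (nat_lit 2504) (nat_lit 157) (.e (nat_lit 5949) (nat_lit 322) (.e (nat_lit 57373) (nat_lit 2) (.e (nat_lit 90185) (nat_lit 17) (.e (nat_lit 237605) (nat_lit 9) (.e (nat_lit 426566) (nat_lit 34) (.e (nat_lit 393232) (nat_lit 17) .nil))))))) (.g (nat_lit 0) .nil .nil))))) (.nd (nat_lit 4) (.nd (nat_lit 5) 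
(.lf (nat_lit 93387) (.g (nat_lit 991) (.e (nat_lit 2478) (nat_lit 157) (.e (nat_lit 6391) (nat_lit 339) (.e (nat_lit 57445) (nat_lit 19) (.e (nat_lit 393229) (nat_lit 9) .nil)))) .nil)) 
(.lf (nat_lit 93419) (.g (nat_lit 2263) (.e (nat_lit 2497) (nat_lit 157) (.e (nat_lit 2857) (nat_lit 184) (.e (nat_lit 426568) (nat_lit 34) (.e (nat_lit 393271) (nat_lit 23) (.e (nat_lit 426131) (nat_lit 3) .nil))))) .nil))) (.nd (nat_lit 5) 
(.lf (nat_lit 93403) (.g (nat_lit 950) (.e (nat_lit 2485) (nat_lit 157) (.e (nat_lit 5597) (nat_lit 310) (.e (nat_lit 163843) (nat_lit 0) (.e (nat_lit 3223) (nat_lit 196) .nil)))) .nil)) 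
(.lf (nat_lit 93435) (.g (nat_lit 1047) (.e (nat_lit 2505) (nat_lit 157) (.e (nat_lit 2887) (nat_lit 184) (.e (nat_lit 426317) (nat_lit 12) (.e (nat_lit 475208) (nat_lit 41) .nil)))) .nil))))) (.nd (nat_lit 3) (.nd (nat_lit 4) (.nd (nat_lit 5) 
(.lf (nat_lit 93383) (.g (nat_lit 2121) (.e (nat_lit 2478) (nat_lit 157) (.e (nat_lit 6390) (nat_lit 339) (.e (nat_lit 57406) (nat_lit 12) (.e (nat_lit 336456) (nat_lit 34) (.e (nat_lit 483394) (nat_lit 24) (.e (nat_lit 344117) (nat_lit 21) (.e (nat_lit 516106) (nat_lit 0) .nil))))))) (.g (nat_lit 4) .nil .nil))) 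
(.lf (nat_lit 93415) (.g (nat_lit 3127) (.e (nat_lit 2486) (nat_lit 157) (.e (nat_lit 5949) (nat_lit 322) (.e (nat_lit 57378) (nat_lit 3) (.e (nat_lit 98365) (nat_lit 26) (.e (nat_lit 426187) (nat_lit 9) (.e (nat_lit 426566) (nat_lit 34) (.e (nat_lit 393233) (nat_lit 17) .nil))))))) (.g (nat_lit 0) .nil .nil)))) (.nd (nat_lit 5) 
(.lf (nat_lit 93399) (.g (nat_lit 3109) (.e (nat_lit 2481) (nat_lit 157) (.e (nat_lit 3535) (nat_lit 218) (.e (nat_lit 704738) (nat_lit 11) (.e (nat_lit 16425) (nat_lit 7) (.e (nat_lit 409648) (nat_lit 18) (.e (nat_lit 303137) (nat_lit 10) (.e (nat_lit 434275) (nat_lit 39) (.e (nat_lit 663580) (nat_lit 9) .nil)))))))) (.g (nat_lit 5) .nil .nil))) 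
(.lf (nat_lit 93431) (.g (nat_lit 4322) (.e (nat_lit 2504) (nat_lit 157) (.e (nat_lit 5949) (nat_lit 322) (.e (nat_lit 57378) (nat_lit 3) (.e (nat_lit 98365) (nat_lit 26) (.e (nat_lit 426188) (nat_lit 9) (.e (nat_lit 426568) (nat_lit 34) (.e (nat_lit 393234) (nat_lit 17) .nil))))))) (.g (nat_lit 0) .nil .nil))))) (.nd (nat_lit 4) (.nd (nat_lit 5) 
(.lf (nat_lit 93391) (.g (nat_lit 1771) (.e (nat_lit 2479) (nat_lit 157) (.e (nat_lit 284) (nat_lit 21) (.e (nat_lit 336021) (nat_lit 3) (.e (nat_lit 98372) (nat_lit 29) .nil)))) .nil)) 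
(.lf (nat_lit 93423) (.g (nat_lit 831) (.e (nat_lit 2504) (nat_lit 157) (.e (nat_lit 5818) (nat_lit 320) (.e (nat_lit 999) (nat_lit 81) (.e (nat_lit 1256) (nat_lit 92) (.e (nat_lit 98369) (nat_lit 28) .nil))))) .nil))) (.nd (nat_lit 5) 
(.lf (nat_lit 93407) (.g (nat_lit 1914) (.e (nat_lit 2485) (nat_lit 157) (.e (nat_lit 5949) (nat_lit 322) (.e (nat_lit 57377) (nat_lit 3) (.e (nat_lit 98365) (nat_lit 26) (.e (nat_lit 426188) (nat_lit 9) .nil))))) .nil)) 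
(.lf (nat_lit 93439) (.g (nat_lit 1148) (.e (nat_lit 2506) (nat_lit 157) (.e (nat_lit 5629) (nat_lit 312) (.e (nat_lit 351) (nat_lit 28) (.e (nat_lit 393279) (nat_lit 23) (.e (nat_lit 426129) (nat_lit 3) .nil))))) .nil))))))))

noncomputable def tv1282 : DT := (.nd (nat_lit 0) (.nd (nat_lit 1) (.nd (nat_lit 2) (.nd (nat_lit 3) (.nd (nat_lit 4) (.nd (nat_lit 5) 
(.lf (nat_lit 93440) (.g (nat_lit 1800) (.e (nat_lit 2506) (nat_lit 157) (.e (nat_lit 5944) (nat_lit 322) (.e (nat_lit 57373) (nat_lit 2) (.e (nat_lit 90185) (nat_lit 17) (.e (nat_lit 237605) (nat_lit 9) .nil))))) .nil)) 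
(.lf (nat_lit 93472) (.g (nat_lit 2068) (.e (nat_lit 2515) (nat_lit 157) (.e (nat_lit 2856) (nat_lit 184) (.e (nat_lit 426472) (nat_lit 25) (.e (nat_lit 319531) (nat_lit 16) (.e (nat_lit 286748) (nat_lit 9) (.e (nat_lit 336389) (nat_lit 27) (.e (nat_lit 426012) (nat_lit 0) (.e (nat_lit 2398) (nat_lit 157) (.e (nat_lit 4460) (nat_lit 263) .nil))))))))) (.g (nat_lit 4) .nil .nil)))) 
(.nd (nat_lit 5) 
(.lf (nat_lit 93456) (.g (nat_lit 1038) (.e (nat_lit 2508) (nat_lit 157) (.e (nat_lit 2887) (nat_lit 184) (.e (nat_lit 426317) (nat_lit 12) (.e (nat_lit 475207) (nat_lit 41) .nil)))) .nil)) 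
(.lf (nat_lit 93488) (.g (nat_lit 1604) (.e (nat_lit 2515) (nat_lit 157) (.e (nat_lit 5947) (nat_lit 322) (.e (nat_lit 57371) (nat_lit 2) (.e (nat_lit 90176) (nat_lit 15) (.e (nat_lit 196352) (nat_lit 18) .nil))))) .nil)))) (.nd (nat_lit 4) (.nd (nat_lit 5) 
(.lf (nat_lit 93448) (.g (nat_lit 4260) (.e (nat_lit 2507) (nat_lit 157) (.e (nat_lit 5293) (nat_lit 298) (.e (nat_lit 1250) (nat_lit 92) (.e (nat_lit 98350) (nat_lit 24) (.e (nat_lit 409647) (nat_lit 18) (.e (nat_lit 303119) (nat_lit 3) (.e (nat_lit 204819) (nat_lit 17) (.e (nat_lit 6113) (nat_lit 332) .nil)))))))) (.g (nat_lit 8) .nil .nil))) 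
(.lf (nat_lit 93480) (.g (nat_lit 4293) (.e (nat_lit 2515) (nat_lit 157) (.e (nat_lit 2856) (nat_lit 184) (.e (nat_lit 426472) (nat_lit 25) (.e (nat_lit 319531) (nat_lit 16) (.e (nat_lit 286761) (nat_lit 13) (.e (nat_lit 393234) (nat_lit 17) (.e (nat_lit 2411) (nat_lit 157) (.e (nat_lit 4458) (nat_lit 263) .nil)))))))) (.g (nat_lit 6) .nil .nil)))) (.nd (nat_lit 5) 
(.lf (nat_lit 93464) (.g (nat_lit 2252) (.e (nat_lit 2514) (nat_lit 157) (.e (nat_lit 2664) (nat_lit 167) (.e (nat_lit 196666) (nat_lit 13) (.e (nat_lit 65610) (nat_lit 10) (.e (nat_lit 344117) (nat_lit 21) .nil))))) .nil)) 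
(.lf (nat_lit 93496) (.g (nat_lit 2300) (.e (nat_lit 2515) (nat_lit 157) (.e (nat_lit 5949) (nat_lit 322) (.e (nat_lit 57373) (nat_lit 2) (.e (nat_lit 90172) (nat_lit 14) (.e (nat_lit 180244) (nat_lit 5) .nil))))) .nil))))) (.nd (nat_lit 3) (.nd (nat_lit 4) (.nd (nat_lit 5) 
(.lf (nat_lit 93444) (.g (nat_lit 4260) (.e (nat_lit 2507) (nat_lit 157) (.e (nat_lit 5293) (nat_lit 298) (.e (nat_lit 1250) (nat_lit 92) (.e (nat_lit 98350) (nat_lit 24) (.e (nat_lit 409644) (nat_lit 18) (.e (nat_lit 303119) (nat_lit 3) (.e (nat_lit 204819) (nat_lit 17) (.e (nat_lit 6113) (nat_lit 332) .nil)))))))) (.g (nat_lit 8) .nil .nil))) 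
(.lf (nat_lit 93476) (.g (nat_lit 2382) (.e (nat_lit 2515) (nat_lit 157) (.e (nat_lit 2856) (nat_lit 184) (.e (nat_lit 426472) (nat_lit 25) (.e (nat_lit 319531) (nat_lit 16) (.e (nat_lit 286748) (nat_lit 9) (.e (nat_lit 336389) (nat_lit 27) (.e (nat_lit 426012) (nat_lit 0) (.e (nat_lit 2401) (nat_lit 157) (.e (nat_lit 4460) (nat_lit 263) .nil))))))))) (.g (nat_lit 5) .nil .nil)))) 
(.nd (nat_lit 5) 
(.lf (nat_lit 93460) (.g (nat_lit 1897) (.e (nat_lit 2508) (nat_lit 157) (.e (nat_lit 3249) (nat_lit 197) (.e (nat_lit 532550) (nat_lit 12) (.e (nat_lit 360474) (nat_lit 8) (.e (nat_lit 557073) (nat_lit 9) (.e (nat_lit 7936) (nat_lit 22) (.e (nat_lit 344066) (nat_lit 0) .nil))))))) (.g (nat_lit 4) .nil .nil))) 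
(.lf (nat_lit 93492) (.g (nat_lit 1587) (.e (nat_lit 2515) (nat_lit 157) (.e (nat_lit 5948) (nat_lit 322) (.e (nat_lit 57378) (nat_lit 3) (.e (nat_lit 98358) (nat_lit 26) .nil)))) .nil)))) (.nd (nat_lit 4) (.nd (nat_lit 5) 
(.lf (nat_lit 93452) (.g (nat_lit 3164) (.e (nat_lit 2507) (nat_lit 157) (.e (nat_lit 5293) (nat_lit 298) (.e (nat_lit 1633) (nat_lit 114) (.e (nat_lit 385106) (nat_lit 50) (.e (nat_lit 786481) (nat_lit 30) (.e (nat_lit 360455) (nat_lit 0) (.e (nat_lit 5813) (nat_lit 320) (.e (nat_lit 11) (nat_lit 0) .nil)))))))) (.g (nat_lit 8) .nil .nil))) 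
(.lf (nat_lit 93484) (.g (nat_lit 1892) (.e (nat_lit 2515) (nat_lit 157) (.e (nat_lit 3304) (nat_lit 202) (.e (nat_lit 573485) (nat_lit 13) (.e (nat_lit 65604) (nat_lit 9) (.e (nat_lit 336028) (nat_lit 3) .nil))))) .nil))) (.nd (nat_lit 5) 
(.lf (nat_lit 93468) (.g (nat_lit 1838) (.e (nat_lit 2514) (nat_lit 157) (.e (nat_lit 5949) (nat_lit 322) (.e (nat_lit 57447) (nat_lit 19) (.e (nat_lit 393281) (nat_lit 23) (.e (nat_lit 426115) (nat_lit 2) .nil))))) .nil)) 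
(.lf (nat_lit 93500) (.g (nat_lit 1774) (.e (nat_lit 2519) (nat_lit 157) (.e (nat_lit 3067) (nat_lit 190) (.e (nat_lit 475176) (nat_lit 24) (.e (nat_lit 516174) (nat_lit 14) (.e (nat_lit 466954) (nat_lit 11) .nil))))) .nil)))))) (.nd (nat_lit 2) (.nd (nat_lit 3) (.nd (nat_lit 4) (.nd (nat_lit 5) 
(.lf (nat_lit 93442) (.g (nat_lit 461) (.e (nat_lit 2507) (nat_lit 157) (.e (nat_lit 5259) (nat_lit 298) (.e (nat_lit 494) (nat_lit 39) (.e (nat_lit 491264) (nat_lit 3) .nil)))) .nil)) 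
(.lf (nat_lit 93474) (.g (nat_lit 1944) (.e (nat_lit 2515) (nat_lit 157) (.e (nat_lit 2856) (nat_lit 184) (.e (nat_lit 426472) (nat_lit 25) (.e (nat_lit 319531) (nat_lit 16) (.e (nat_lit 286748) (nat_lit 9) (.e (nat_lit 336389) (nat_lit 27) (.e (nat_lit 426012) (nat_lit 0) (.e (nat_lit 2398) (nat_lit 157) (.e (nat_lit 4464) (nat_lit 263) .nil))))))))) (.g (nat_lit 4) .nil .nil)))) 
(.nd (nat_lit 5) 
(.lf (nat_lit 93458) (.g (nat_lit 630) (.e (nat_lit 2508) (nat_lit 157) (.e (nat_lit 3249) (nat_lit 197) (.e (nat_lit 532544) (nat_lit 10) (.e (nat_lit 344081) (nat_lit 13) .nil)))) .nil)) 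
(.lf (nat_lit 93490) (.g (nat_lit 4108) (.e (nat_lit 2515) (nat_lit 157) (.e (nat_lit 5948) (nat_lit 322) (.e (nat_lit 57373) (nat_lit 2) (.e (nat_lit 90172) (nat_lit 14) (.e (nat_lit 180244) (nat_lit 5) (.e (nat_lit 532515) (nat_lit 3) (.e (nat_lit 114719) (nat_lit 23) (.e (nat_lit 98325) (nat_lit 17) .nil)))))))) (.g (nat_lit 0) .nil .nil))))) (.nd (nat_lit 4) (.nd (nat_lit 5) 
(.lf (nat_lit 93450) (.g (nat_lit 3984) (.e (nat_lit 2507) (nat_lit 157) (.e (nat_lit 5293) (nat_lit 298) (.e (nat_lit 1250) (nat_lit 92) (.e (nat_lit 98350) (nat_lit 24) (.e (nat_lit 409648) (nat_lit 18) (.e (nat_lit 303119) (nat_lit 3) (.e (nat_lit 204819) (nat_lit 17) (.e (nat_lit 6113) (nat_lit 332) .nil)))))))) (.g (nat_lit 7) .nil .nil))) 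
(.lf (nat_lit 93482) (.g (nat_lit 4281) (.e (nat_lit 2515) (nat_lit 157) (.e (nat_lit 2856) (nat_lit 184) (.e (nat_lit 426472) (nat_lit 25) (.e (nat_lit 319531) (nat_lit 16) (.e (nat_lit 286761) (nat_lit 13) (.e (nat_lit 393234) (nat_lit 17) (.e (nat_lit 2411) (nat_lit 157) (.e (nat_lit 4464) (nat_lit 263) .nil)))))))) (.g (nat_lit 6) .nil .nil)))) (.nd (nat_lit 5) 
(.lf (nat_lit 93466) (.g (nat_lit 3506) (.e (nat_lit 2514) (nat_lit 157) (.e (nat_lit 5949) (nat_lit 322) (.e (nat_lit 57378) (nat_lit 3) (.e (nat_lit 98365) (nat_lit 26) (.e (nat_lit 426187) (nat_lit 9) (.e (nat_lit 426568) (nat_lit 34) (.e (nat_lit 393238) (nat_lit 17) .nil))))))) (.g (nat_lit 0) .nil .nil))) 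
(.lf (nat_lit 93498) (.g (nat_lit 5152) (.e (nat_lit 2517) (nat_lit 157) (.e (nat_lit 256) (nat_lit 21) (.e (nat_lit 336013) (nat_lit 2) (.e (nat_lit 90170) (nat_lit 13) (.e (nat_lit 172106) (nat_lit 10) (.e (nat_lit 434231) (nat_lit 23) (.e (nat_lit 532483) (nat_lit 0) (.e (nat_lit 1030) (nat_lit 81) (.e (nat_lit 4602) (nat_lit 269) .nil))))))))) (.g (nat_lit 7) .nil .nil)))))) 
(.nd (nat_lit 3) (.nd (nat_lit 4) (.nd (nat_lit 5) 
(.lf (nat_lit 93446) (.g (nat_lit 2900) (.e (nat_lit 2507) (nat_lit 157) (.e (nat_lit 5293) (nat_lit 298) (.e (nat_lit 1250) (nat_lit 92) (.e (nat_lit 98350) (nat_lit 24) (.e (nat_lit 409645) (nat_lit 18) (.e (nat_lit 303119) (nat_lit 3) (.e (nat_lit 204821) (nat_lit 17) (.e (nat_lit 6114) (nat_lit 332) .nil)))))))) (.g (nat_lit 5) .nil .nil))) 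
(.lf (nat_lit 93478) (.g (nat_lit 2192) (.e (nat_lit 2515) (nat_lit 157) (.e (nat_lit 2856) (nat_lit 184) (.e (nat_lit 426472) (nat_lit 25) (.e (nat_lit 319531) (nat_lit 16) (.e (nat_lit 286748) (nat_lit 9) (.e (nat_lit 336389) (nat_lit 27) (.e (nat_lit 426012) (nat_lit 0) (.e (nat_lit 2412) (nat_lit 157) (.e (nat_lit 4458) (nat_lit 263) .nil))))))))) (.g (nat_lit 5) .nil .nil)))) 
(.nd (nat_lit 5) 
(.lf (nat_lit 93462) (.g (nat_lit 2062) (.e (nat_lit 2508) (nat_lit 157) (.e (nat_lit 3249) (nat_lit 197) (.e (nat_lit 532569) (nat_lit 16) (.e (nat_lit 401440) (nat_lit 9) (.e (nat_lit 426134) (nat_lit 3) .nil))))) .nil)) 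
(.lf (nat_lit 93494) (.g (nat_lit 2910) (.e (nat_lit 2515) (nat_lit 157) (.e (nat_lit 5949) (nat_lit 322) (.e (nat_lit 57373) (nat_lit 2) (.e (nat_lit 90170) (nat_lit 13) (.e (nat_lit 172065) (nat_lit 3) (.e (nat_lit 204838) (nat_lit 20) (.e (nat_lit 114719) (nat_lit 23) (.e (nat_lit 98325) (nat_lit 17) .nil)))))))) (.g (nat_lit 4) .nil .nil))))) (.nd (nat_lit 4) (.nd (nat_lit 5) 
(.lf (nat_lit 93454) (.g (nat_lit 2730) (.e (nat_lit 2507) (nat_lit 157) (.e (nat_lit 5293) (nat_lit 298) (.e (nat_lit 1633) (nat_lit 114) (.e (nat_lit 385106) (nat_lit 50) (.e (nat_lit 786483) (nat_lit 30) (.e (nat_lit 360455) (nat_lit 0) (.e (nat_lit 5813) (nat_lit 320) (.e (nat_lit 11) (nat_lit 0) .nil)))))))) (.g (nat_lit 5) .nil .nil))) 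
(.lf (nat_lit 93486) (.g (nat_lit 1163) (.e (nat_lit 2515) (nat_lit 157) (.e (nat_lit 5934) (nat_lit 322) (.e (nat_lit 57375) (nat_lit 2) (.e (nat_lit 90176) (nat_lit 15) (.e (nat_lit 196352) (nat_lit 18) .nil))))) .nil))) (.nd (nat_lit 5) 
(.lf (nat_lit 93470) (.g (nat_lit 1843) (.e (nat_lit 2515) (nat_lit 157) (.e (nat_lit 2856) (nat_lit 184) (.e (nat_lit 426472) (nat_lit 25) (.e (nat_lit 319531) (nat_lit 16) (.e (nat_lit 286748) (nat_lit 9) .nil))))) .nil)) 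
(.lf (nat_lit 93502) (.g (nat_lit 1904) (.e (nat_lit 2522) (nat_lit 157) (.e (nat_lit 5195) (nat_lit 294) (.e (nat_lit 57448) (nat_lit 19) (.e (nat_lit 393234) (nat_lit 17) (.e (nat_lit 2413) (nat_lit 157) .nil))))) .nil))))))) (.nd (nat_lit 1) (.nd (nat_lit 2) (.nd (nat_lit 3) (.nd (nat_lit 4) (.nd (nat_lit 5) 
(.lf (nat_lit 93441) (.g (nat_lit 404) (.e (nat_lit 2507) (nat_lit 157) (.e (nat_lit 5259) (nat_lit 298) (.e (nat_lit 172) (nat_lit 12) .nil))) .nil)) 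
(.lf (nat_lit 93473) (.g (nat_lit 1912) (.e (nat_lit 2515) (nat_lit 157) (.e (nat_lit 2856) (nat_lit 184) (.e (nat_lit 426472) (nat_lit 25) (.e (nat_lit 319531) (nat_lit 16) (.e (nat_lit 286748) (nat_lit 9) (.e (nat_lit 336389) (nat_lit 27) (.e (nat_lit 426012) (nat_lit 0) (.e (nat_lit 2398) (nat_lit 157) (.e (nat_lit 4462) (nat_lit 263) .nil))))))))) (.g (nat_lit 4) .nil .nil)))) 
(.nd (nat_lit 5) 
(.lf (nat_lit 93457) (.g (nat_lit 883) (.e (nat_lit 2508) (nat_lit 157) (.e (nat_lit 3062) (nat_lit 190) (.e (nat_lit 475189) (nat_lit 34) .nil))) .nil)) 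
(.lf (nat_lit 93489) (.g (nat_lit 2001) (.e (nat_lit 2515) (nat_lit 157) (.e (nat_lit 5948) (nat_lit 322) (.e (nat_lit 57371) (nat_lit 2) (.e (nat_lit 90174) (nat_lit 14) (.e (nat_lit 180243) (nat_lit 5) .nil))))) .nil)))) (.nd (nat_lit 4) (.nd (nat_lit 5) 
(.lf (nat_lit 93449) (.g (nat_lit 3565) (.e (nat_lit 2507) (nat_lit 157) (.e (nat_lit 5293) (nat_lit 298) (.e (nat_lit 1250) (nat_lit 92) (.e (nat_lit 98350) (nat_lit 24) (.e (nat_lit 409647) (nat_lit 18) (.e (nat_lit 303119) (nat_lit 3) (.e (nat_lit 204821) (nat_lit 17) (.e (nat_lit 6114) (nat_lit 332) .nil)))))))) (.g (nat_lit 6) .nil .nil))) 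
(.lf (nat_lit 93481) (.g (nat_lit 4432) (.e (nat_lit 2515) (nat_lit 157) (.e (nat_lit 2856) (nat_lit 184) (.e (nat_lit 426472) (nat_lit 25) (.e (nat_lit 319531) (nat_lit 16) (.e (nat_lit 286761) (nat_lit 13) (.e (nat_lit 393234) (nat_lit 17) (.e (nat_lit 2411) (nat_lit 157) (.e (nat_lit 4460) (nat_lit 263) .nil)))))))) (.g (nat_lit 6) .nil .nil)))) (.nd (nat_lit 5) 
(.lf (nat_lit 93465) (.g (nat_lit 1862) (.e (nat_lit 2514) (nat_lit 157) (.e (nat_lit 5946) (nat_lit 322) (.e (nat_lit 57447) (nat_lit 19) (.e (nat_lit 393281) (nat_lit 23) (.e (nat_lit 426115) (nat_lit 2) .nil))))) .nil)) 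
(.lf (nat_lit 93497) (.g (nat_lit 1884) (.e (nat_lit 2516) (nat_lit 157) (.e (nat_lit 2856) (nat_lit 184) (.e (nat_lit 426472) (nat_lit 25) (.e (nat_lit 319531) (nat_lit 16) (.e (nat_lit 286748) (nat_lit 9) .nil))))) .nil))))) (.nd (nat_lit 3) (.nd (nat_lit 4) (.nd (nat_lit 5) 
(.lf (nat_lit 93445) (.g (nat_lit 3984) (.e (nat_lit 2507) (nat_lit 157) (.e (nat_lit 5293) (nat_lit 298) (.e (nat_lit 1250) (nat_lit 92) (.e (nat_lit 98350) (nat_lit 24) (.e (nat_lit 409645) (nat_lit 18) (.e (nat_lit 303119) (nat_lit 3) (.e (nat_lit 204819) (nat_lit 17) (.e (nat_lit 6113) (nat_lit 332) .nil)))))))) (.g (nat_lit 7) .nil .nil))) 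
(.lf (nat_lit 93477) (.g (nat_lit 1914) (.e (nat_lit 2515) (nat_lit 157) (.e (nat_lit 2856) (nat_lit 184) (.e (nat_lit 426472) (nat_lit 25) (.e (nat_lit 319531) (nat_lit 16) (.e (nat_lit 286748) (nat_lit 9) (.e (nat_lit 336389) (nat_lit 27) (.e (nat_lit 426012) (nat_lit 0) (.e (nat_lit 2411) (nat_lit 157) (.e (nat_lit 4460) (nat_lit 263) .nil))))))))) (.g (nat_lit 4) .nil .nil)))) 
(.nd (nat_lit 5) 
(.lf (nat_lit 93461) (.g (nat_lit 3056) (.e (nat_lit 2508) (nat_lit 157) (.e (nat_lit 3249) (nat_lit 197) (.e (nat_lit 532550) (nat_lit 12) (.e (nat_lit 360475) (nat_lit 8) (.e (nat_lit 557073) (nat_lit 9) (.e (nat_lit 7936) (nat_lit 22) (.e (nat_lit 344067) (nat_lit 0) .nil))))))) (.g (nat_lit 4) .nil .nil))) 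
(.lf (nat_lit 93493) (.g (nat_lit 1126) (.e (nat_lit 2515) (nat_lit 157) (.e (nat_lit 5948) (nat_lit 322) (.e (nat_lit 57447) (nat_lit 19) (.e (nat_lit 393281) (nat_lit 23) .nil)))) .nil)))) (.nd (nat_lit 4) (.nd (nat_lit 5) 
(.lf (nat_lit 93453) (.g (nat_lit 1373) (.e (nat_lit 2507) (nat_lit 157) (.e (nat_lit 5293) (nat_lit 298) (.e (nat_lit 1633) (nat_lit 114) (.e (nat_lit 385106) (nat_lit 50) (.e (nat_lit 786483) (nat_lit 30) .nil))))) .nil)) 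
(.lf (nat_lit 93485) (.g (nat_lit 1382) (.e (nat_lit 2515) (nat_lit 157) (.e (nat_lit 5934) (nat_lit 322) (.e (nat_lit 57372) (nat_lit 2) (.e (nat_lit 90176) (nat_lit 15) (.e (nat_lit 196352) (nat_lit 18) .nil))))) .nil))) (.nd (nat_lit 5) 
(.lf (nat_lit 93469) (.g (nat_lit 1677) (.e (nat_lit 2515) (nat_lit 157) (.e (nat_lit 2856) (nat_lit 184) (.e (nat_lit 426320) (nat_lit 12) (.e (nat_lit 475207) (nat_lit 41) .nil)))) .nil)) 
(.lf (nat_lit 93501) (.g (nat_lit 1824) (.e (nat_lit 2522) (nat_lit 157) (.e (nat_lit 5193) (nat_lit 294) (.e (nat_lit 57448) (nat_lit 19) (.e (nat_lit 393234) (nat_lit 17) (.e (nat_lit 2415) (nat_lit 157) .nil))))) .nil)))))) (.nd (nat_lit 2) (.nd (nat_lit 3) (.nd (nat_lit 4) (.nd (nat_lit 5) 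
(.lf (nat_lit 93443) (.g (nat_lit 2003) (.e (nat_lit 2507) (nat_lit 157) (.e (nat_lit 5270) (nat_lit 298) (.e (nat_lit 1256) (nat_lit 92) (.e (nat_lit 98350) (nat_lit 24) (.e (nat_lit 409643) (nat_lit 18) .nil))))) .nil)) 
(.lf (nat_lit 93475) (.g (nat_lit 2251) (.e (nat_lit 2515) (nat_lit 157) (.e (nat_lit 2856) (nat_lit 184) (.e (nat_lit 426472) (nat_lit 25) (.e (nat_lit 319531) (nat_lit 16) (.e (nat_lit 286748) (nat_lit 9) (.e (nat_lit 336389) (nat_lit 27) (.e (nat_lit 426012) (nat_lit 0) (.e (nat_lit 2401) (nat_lit 157) (.e (nat_lit 4458) (nat_lit 263) .nil))))))))) (.g (nat_lit 5) .nil .nil)))) 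
(.nd (nat_lit 5) 
(.lf (nat_lit 93459) (.g (nat_lit 1952) (.e (nat_lit 2508) (nat_lit 157) (.e (nat_lit 3249) (nat_lit 197) (.e (nat_lit 532550) (nat_lit 12) (.e (nat_lit 360474) (nat_lit 8) (.e (nat_lit 557072) (nat_lit 9) (.e (nat_lit 7936) (nat_lit 22) (.e (nat_lit 344066) (nat_lit 0) .nil))))))) (.g (nat_lit 4) .nil .nil))) 
(.lf (nat_lit 93491) (.g (nat_lit 3422) (.e (nat_lit 2515) (nat_lit 157) (.e (nat_lit 5948) (nat_lit 322) (.e (nat_lit 57373) (nat_lit 2) (.e (nat_lit 90174) (nat_lit 14) (.e (nat_lit 180243) (nat_lit 5) (.e (nat_lit 532508) (nat_lit 2) (.e (nat_lit 106517) (nat_lit 9) (.e (nat_lit 1255) (nat_lit 92) (.e (nat_lit 98325) (nat_lit 17) .nil))))))))) (.g (nat_lit 8) .nil .nil))))) 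
(.nd (nat_lit 4) (.nd (nat_lit 5) 
(.lf (nat_lit 93451) (.g (nat_lit 4033) (.e (nat_lit 2507) (nat_lit 157) (.e (nat_lit 5293) (nat_lit 298) (.e (nat_lit 1250) (nat_lit 92) (.e (nat_lit 98350) (nat_lit 24) (.e (nat_lit 409649) (nat_lit 18) (.e (nat_lit 303119) (nat_lit 3) (.e (nat_lit 204821) (nat_lit 17) (.e (nat_lit 6114) (nat_lit 332) .nil)))))))) (.g (nat_lit 7) .nil .nil))) 
(.lf (nat_lit 93483) (.g (nat_lit 2219) (.e (nat_lit 2515) (nat_lit 157) (.e (nat_lit 3304) (nat_lit 202) (.e (nat_lit 573482) (nat_lit 13) (.e (nat_lit 65604) (nat_lit 9) (.e (nat_lit 336028) (nat_lit 3) .nil))))) .nil))) (.nd (nat_lit 5) 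
(.lf (nat_lit 93467) (.g (nat_lit 3885) (.e (nat_lit 2514) (nat_lit 157) (.e (nat_lit 5949) (nat_lit 322) (.e (nat_lit 57378) (nat_lit 3) (.e (nat_lit 98365) (nat_lit 26) (.e (nat_lit 426188) (nat_lit 9) (.e (nat_lit 426568) (nat_lit 34) (.e (nat_lit 393238) (nat_lit 17) .nil))))))) (.g (nat_lit 0) .nil .nil))) 
(.lf (nat_lit 93499) (.g (nat_lit 1884) (.e (nat_lit 2518) (nat_lit 157) (.e (nat_lit 2856) (nat_lit 184) (.e (nat_lit 426472) (nat_lit 25) (.e (nat_lit 319531) (nat_lit 16) (.e (nat_lit 286748) (nat_lit 9) .nil))))) .nil))))) (.nd (nat_lit 3) (.nd (nat_lit 4) (.nd (nat_lit 5) 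
(.lf (nat_lit 93447) (.g (nat_lit 3708) (.e (nat_lit 2507) (nat_lit 157) (.e (nat_lit 5293) (nat_lit 298) (.e (nat_lit 1250) (nat_lit 92) (.e (nat_lit 98350) (nat_lit 24) (.e (nat_lit 409646) (nat_lit 18) (.e (nat_lit 303119) (nat_lit 3) (.e (nat_lit 204819) (nat_lit 17) (.e (nat_lit 6113) (nat_lit 332) .nil)))))))) (.g (nat_lit 6) .nil .nil))) 
(.lf (nat_lit 93479) (.g (nat_lit 2275) (.e (nat_lit 2515) (nat_lit 157) (.e (nat_lit 2856) (nat_lit 184) (.e (nat_lit 426472) (nat_lit 25) (.e (nat_lit 319531) (nat_lit 16) (.e (nat_lit 286748) (nat_lit 9) (.e (nat_lit 336389) (nat_lit 27) (.e (nat_lit 426012) (nat_lit 0) (.e (nat_lit 2412) (nat_lit 157) (.e (nat_lit 4464) (nat_lit 263) .nil))))))))) (.g (nat_lit 5) .nil .nil)))) 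
(.nd (nat_lit 5) 
(.lf (nat_lit 93463) (.g (nat_lit 5694) (.e (nat_lit 2508) (nat_lit 157) (.e (nat_lit 5293) (nat_lit 298) (.e (nat_lit 1656) (nat_lit 115) (.e (nat_lit 393301) (nat_lit 27) (.e (nat_lit 491559) (nat_lit 10) (.e (nat_lit 344177) (nat_lit 43) (.e (nat_lit 770050) (nat_lit 0) .nil))))))) (.g (nat_lit 5) .nil .nil))) 
(.lf (nat_lit 93495) (.g (nat_lit 2765) (.e (nat_lit 2515) (nat_lit 157) (.e (nat_lit 5949) (nat_lit 322) (.e (nat_lit 57373) (nat_lit 2) (.e (nat_lit 90172) (nat_lit 14) (.e (nat_lit 180243) (nat_lit 5) .nil))))) .nil)))) (.nd (nat_lit 4) (.nd (nat_lit 5) 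
(.lf (nat_lit 93455) (.g (nat_lit 5819) (.e (nat_lit 2507) (nat_lit 157) (.e (nat_lit 5293) (nat_lit 298) (.e (nat_lit 1656) (nat_lit 115) (.e (nat_lit 393301) (nat_lit 27) (.e (nat_lit 491559) (nat_lit 10) (.e (nat_lit 344177) (nat_lit 43) (.e (nat_lit 777984) (nat_lit 0) .nil))))))) (.g (nat_lit 6) .nil .nil))) 
(.lf (nat_lit 93487) (.g (nat_lit 1647) (.e (nat_lit 2515) (nat_lit 157) (.e (nat_lit 5947) (nat_lit 322) (.e (nat_lit 57371) (nat_lit 2) (.e (nat_lit 90174) (nat_lit 14) (.e (nat_lit 180243) (nat_lit 5) .nil))))) .nil))) (.nd (nat_lit 5) 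
(.lf (nat_lit 93471) (.g (nat_lit 1946) (.e (nat_lit 2515) (nat_lit 157) (.e (nat_lit 2856) (nat_lit 184) (.e (nat_lit 426472) (nat_lit 25) (.e (nat_lit 319531) (nat_lit 16) (.e (nat_lit 286748) (nat_lit 9) (.e (nat_lit 336389) (nat_lit 27) (.e (nat_lit 426012) (nat_lit 0) (.e (nat_lit 2398) (nat_lit 157) (.e (nat_lit 4458) (nat_lit 263) .nil))))))))) (.g (nat_lit 4) .nil .nil))) 
(.lf (nat_lit 93503) (.g (nat_lit 1904) (.e (nat_lit 2522) (nat_lit 157) (.e (nat_lit 5195) (nat_lit 294) (.e (nat_lit 57448) (nat_lit 19) (.e (nat_lit 393234) (nat_lit 17) (.e (nat_lit 2415) (nat_lit 157) .nil))))) .nil))))))))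

noncomputable def tv1283 : DT := (.nd (nat_lit 0) (.nd (nat_lit 1) (.nd (nat_lit 2) (.nd (nat_lit 3) (.nd (nat_lit 4) (.nd (nat_lit 5) 
(.lf (nat_lit 93504) (.g (nat_lit 1774) (.e (nat_lit 2524) (nat_lit 157) (.e (nat_lit 5949) (nat_lit 322) (.e (nat_lit 57373) (nat_lit 2) (.e (nat_lit 90178) (nat_lit 15) (.e (nat_lit 196352) (nat_lit 18) .nil))))) .nil)) 
(.lf (nat_lit 93536) (.g (nat_lit 1948) (.e (nat_lit 2539) (nat_lit 158) (.e (nat_lit 8430) (nat_lit 138) (.e (nat_lit 1201) (nat_lit 88) (.e (nat_lit 65630) (nat_lit 14) (.e (nat_lit 401437) (nat_lit 9) .nil))))) .nil))) (.nd (nat_lit 5) 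
(.lf (nat_lit 93520) (.g (nat_lit 2605) (.e (nat_lit 7936) (nat_lit 157) (.e (nat_lit 226) (nat_lit 21) (.e (nat_lit 336454) (nat_lit 34) (.e (nat_lit 483385) (nat_lit 23) .nil)))) .nil)) 
(.lf (nat_lit 93552) (.g (nat_lit 2065) (.e (nat_lit 2540) (nat_lit 158) (.e (nat_lit 8325) (nat_lit 69) (.e (nat_lit 557105) (nat_lit 14) (.e (nat_lit 180252) (nat_lit 10) (.e (nat_lit 573489) (nat_lit 14) (.e (nat_lit 73755) (nat_lit 8) (.e (nat_lit 557090) (nat_lit 12) (.e (nat_lit 163844) (nat_lit 0) (.e (nat_lit 5845) (nat_lit 320) .nil))))))))) (.g (nat_lit 4) .nil .nil))))) 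
(.nd (nat_lit 4) (.nd (nat_lit 5) 
(.lf (nat_lit 93512) (.g (nat_lit 1941) (.e (nat_lit 2528) (nat_lit 157) (.e (nat_lit 5195) (nat_lit 294) (.e (nat_lit 57448) (nat_lit 19) (.e (nat_lit 393234) (nat_lit 17) (.e (nat_lit 2536) (nat_lit 157) .nil))))) .nil)) 
(.lf (nat_lit 93544) (.g (nat_lit 2068) (.e (nat_lit 2540) (nat_lit 158) (.e (nat_lit 8325) (nat_lit 69) (.e (nat_lit 557105) (nat_lit 14) (.e (nat_lit 180252) (nat_lit 10) (.e (nat_lit 573489) (nat_lit 14) (.e (nat_lit 73755) (nat_lit 8) (.e (nat_lit 557090) (nat_lit 12) (.e (nat_lit 163844) (nat_lit 0) (.e (nat_lit 5834) (nat_lit 320) .nil))))))))) (.g (nat_lit 4) .nil .nil)))) (.nd (nat_lit 5) 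
(.lf (nat_lit 93528) (.g (nat_lit 719) (.e (nat_lit 7936) (nat_lit 157) (.e (nat_lit 7266) (nat_lit 384) (.e (nat_lit 57430) (nat_lit 16) (.e (nat_lit 368676) (nat_lit 21) .nil)))) .nil)) 
(.lf (nat_lit 93560) (.g (nat_lit 2113) (.e (nat_lit 2540) (nat_lit 158) (.e (nat_lit 8326) (nat_lit 69) (.e (nat_lit 557100) (nat_lit 13) (.e (nat_lit 172106) (nat_lit 10) (.e (nat_lit 434231) (nat_lit 23) (.e (nat_lit 532535) (nat_lit 9) (.e (nat_lit 335925) (nat_lit 0) (.e (nat_lit 1012) (nat_lit 81) (.e (nat_lit 4825) (nat_lit 281) .nil))))))))) (.g (nat_lit 4) .nil .nil)))))) 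
(.nd (nat_lit 3) (.nd (nat_lit 4) (.nd (nat_lit 5) 
(.lf (nat_lit 93508) (.g (nat_lit 1410) (.e (nat_lit 2524) (nat_lit 157) (.e (nat_lit 5949) (nat_lit 322) (.e (nat_lit 57378) (nat_lit 3) (.e (nat_lit 98380) (nat_lit 31) .nil)))) .nil)) 
(.lf (nat_lit 93540) (.g (nat_lit 2998) (.e (nat_lit 2540) (nat_lit 158) (.e (nat_lit 8325) (nat_lit 69) (.e (nat_lit 557105) (nat_lit 14) (.e (nat_lit 180252) (nat_lit 10) (.e (nat_lit 573489) (nat_lit 14) (.e (nat_lit 73755) (nat_lit 8) (.e (nat_lit 557090) (nat_lit 12) (.e (nat_lit 163844) (nat_lit 0) (.e (nat_lit 5800) (nat_lit 320) .nil))))))))) (.g (nat_lit 6) .nil .nil)))) (.nd (nat_lit 5) 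
(.lf (nat_lit 93524) (.g (nat_lit 1644) (.e (nat_lit 7936) (nat_lit 157) (.e (nat_lit 5937) (nat_lit 322) (.e (nat_lit 57411) (nat_lit 12) (.e (nat_lit 336443) (nat_lit 32) (.e (nat_lit 466974) (nat_lit 22) .nil))))) .nil)) 
(.lf (nat_lit 93556) (.g (nat_lit 2126) (.e (nat_lit 2540) (nat_lit 158) (.e (nat_lit 8326) (nat_lit 69) (.e (nat_lit 557100) (nat_lit 13) (.e (nat_lit 172106) (nat_lit 10) (.e (nat_lit 434231) (nat_lit 23) (.e (nat_lit 532529) (nat_lit 9) (.e (nat_lit 336257) (nat_lit 15) (.e (nat_lit 2433) (nat_lit 157) (.e (nat_lit 6919) (nat_lit 371) .nil))))))))) (.g (nat_lit 4) .nil .nil))))) 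
(.nd (nat_lit 4) (.nd (nat_lit 5) 
(.lf (nat_lit 93516) (.g (nat_lit 1265) (.e (nat_lit 2536) (nat_lit 157) (.e (nat_lit 5937) (nat_lit 322) (.e (nat_lit 57448) (nat_lit 19) (.e (nat_lit 393281) (nat_lit 23) (.e (nat_lit 426115) (nat_lit 2) .nil))))) .nil)) 
(.lf (nat_lit 93548) (.g (nat_lit 2081) (.e (nat_lit 2540) (nat_lit 158) (.e (nat_lit 8325) (nat_lit 69) (.e (nat_lit 557105) (nat_lit 14) (.e (nat_lit 180252) (nat_lit 10) (.e (nat_lit 573489) (nat_lit 14) (.e (nat_lit 73755) (nat_lit 8) (.e (nat_lit 557090) (nat_lit 12) (.e (nat_lit 163844) (nat_lit 0) (.e (nat_lit 5839) (nat_lit 320) .nil))))))))) (.g (nat_lit 4) .nil .nil)))) (.nd (nat_lit 5) 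
(.lf (nat_lit 93532) (.g (nat_lit 4171) (.e (nat_lit 2538) (nat_lit 158) (.e (nat_lit 8431) (nat_lit 138) (.e (nat_lit 1201) (nat_lit 88) (.e (nat_lit 65630) (nat_lit 14) (.e (nat_lit 401459) (nat_lit 13) (.e (nat_lit 483350) (nat_lit 17) (.e (nat_lit 6097) (nat_lit 332) .nil))))))) (.g (nat_lit 6) .nil .nil))) 
(.lf (nat_lit 93564) (.g (nat_lit 2196) (.e (nat_lit 2540) (nat_lit 158) (.e (nat_lit 8326) (nat_lit 69) (.e (nat_lit 557100) (nat_lit 13) (.e (nat_lit 172106) (nat_lit 10) (.e (nat_lit 434231) (nat_lit 23) (.e (nat_lit 532535) (nat_lit 9) (.e (nat_lit 335989) (nat_lit 1) (.e (nat_lit 57782) (nat_lit 239) .nil)))))))) (.g (nat_lit 4) .nil .nil))))))) 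
(.nd (nat_lit 2) (.nd (nat_lit 3) (.nd (nat_lit 4) (.nd (nat_lit 5) 
(.lf (nat_lit 93506) (.g (nat_lit 1571) (.e (nat_lit 2524) (nat_lit 157) (.e (nat_lit 5949) (nat_lit 322) (.e (nat_lit 57378) (nat_lit 3) (.e (nat_lit 98363) (nat_lit 26) (.e (nat_lit 426228) (nat_lit 9) (.e (nat_lit 426565) (nat_lit 34) (.e (nat_lit 393232) (nat_lit 17) .nil))))))) (.g (nat_lit 4) .nil .nil))) 
(.lf (nat_lit 93538) (.g (nat_lit 2194) (.e (nat_lit 2540) (nat_lit 158) (.e (nat_lit 8325) (nat_lit 69) (.e (nat_lit 557105) (nat_lit 14) (.e (nat_lit 180252) (nat_lit 10) (.e (nat_lit 573489) (nat_lit 14) (.e (nat_lit 73755) (nat_lit 8) (.e (nat_lit 557090) (nat_lit 12) (.e (nat_lit 163844) (nat_lit 0) (.e (nat_lit 5796) (nat_lit 320) .nil))))))))) (.g (nat_lit 4) .nil .nil)))) (.nd (nat_lit 5) 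
(.lf (nat_lit 93522) (.g (nat_lit 425) (.e (nat_lit 7936) (nat_lit 157) (.e (nat_lit 5195) (nat_lit 294) (.e (nat_lit 57430) (nat_lit 16) .nil))) .nil)) 
(.lf (nat_lit 93554) (.g (nat_lit 2008) (.e (nat_lit 2540) (nat_lit 158) (.e (nat_lit 8326) (nat_lit 69) (.e (nat_lit 557100) (nat_lit 13) (.e (nat_lit 172106) (nat_lit 10) (.e (nat_lit 434231) (nat_lit 23) .nil))))) .nil)))) (.nd (nat_lit 4) (.nd (nat_lit 5) 
(.lf (nat_lit 93514) (.g (nat_lit 2127) (.e (nat_lit 2530) (nat_lit 157) (.e (nat_lit 5949) (nat_lit 322) (.e (nat_lit 57373) (nat_lit 2) (.e (nat_lit 90185) (nat_lit 17) (.e (nat_lit 237605) (nat_lit 9) (.e (nat_lit 426566) (nat_lit 34) (.e (nat_lit 393233) (nat_lit 17) .nil))))))) (.g (nat_lit 6) .nil .nil))) 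
(.lf (nat_lit 93546) (.g (nat_lit 2051) (.e (nat_lit 2540) (nat_lit 158) (.e (nat_lit 8325) (nat_lit 69) (.e (nat_lit 557105) (nat_lit 14) (.e (nat_lit 180252) (nat_lit 10) (.e (nat_lit 573489) (nat_lit 14) (.e (nat_lit 73755) (nat_lit 8) (.e (nat_lit 557090) (nat_lit 12) (.e (nat_lit 163844) (nat_lit 0) (.e (nat_lit 5836) (nat_lit 320) .nil))))))))) (.g (nat_lit 4) .nil .nil)))) (.nd (nat_lit 5) 
(.lf (nat_lit 93530) (.g (nat_lit 1737) (.e (nat_lit 2538) (nat_lit 158) (.e (nat_lit 8326) (nat_lit 69) (.e (nat_lit 557100) (nat_lit 13) (.e (nat_lit 172106) (nat_lit 10) (.e (nat_lit 434231) (nat_lit 23) .nil))))) .nil)) 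
(.lf (nat_lit 93562) (.g (nat_lit 2216) (.e (nat_lit 2540) (nat_lit 158) (.e (nat_lit 8326) (nat_lit 69) (.e (nat_lit 557100) (nat_lit 13) (.e (nat_lit 172106) (nat_lit 10) (.e (nat_lit 434231) (nat_lit 23) (.e (nat_lit 532535) (nat_lit 9) (.e (nat_lit 335928) (nat_lit 0) (.e (nat_lit 988) (nat_lit 81) (.e (nat_lit 4824) (nat_lit 281) .nil))))))))) (.g (nat_lit 4) .nil .nil)))))) 
(.nd (nat_lit 3) (.nd (nat_lit 4) (.nd (nat_lit 5) 
(.lf (nat_lit 93510) (.g (nat_lit 3497) (.e (nat_lit 2525) (nat_lit 157) (.e (nat_lit 5003) (nat_lit 288) (.e (nat_lit 57896) (nat_lit 273) (.e (nat_lit 57464) (nat_lit 23) (.e (nat_lit 516151) (nat_lit 9) (.e (nat_lit 426211) (nat_lit 9) (.e (nat_lit 426125) (nat_lit 2) (.e (nat_lit 204544) (nat_lit 18) .nil)))))))) (.g (nat_lit 7) .nil .nil))) 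
(.lf (nat_lit 93542) (.g (nat_lit 2051) (.e (nat_lit 2540) (nat_lit 158) (.e (nat_lit 8325) (nat_lit 69) (.e (nat_lit 557105) (nat_lit 14) (.e (nat_lit 180252) (nat_lit 10) (.e (nat_lit 573489) (nat_lit 14) (.e (nat_lit 73755) (nat_lit 8) (.e (nat_lit 557090) (nat_lit 12) (.e (nat_lit 163844) (nat_lit 0) (.e (nat_lit 5832) (nat_lit 320) .nil))))))))) (.g (nat_lit 4) .nil .nil)))) (.nd (nat_lit 5) 
(.lf (nat_lit 93526) (.g (nat_lit 905) (.e (nat_lit 7936) (nat_lit 157) (.e (nat_lit 6393) (nat_lit 339) (.e (nat_lit 57407) (nat_lit 12) (.e (nat_lit 336456) (nat_lit 34) .nil)))) .nil)) 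
(.lf (nat_lit 93558) (.g (nat_lit 2123) (.e (nat_lit 2540) (nat_lit 158) (.e (nat_lit 8326) (nat_lit 69) (.e (nat_lit 557100) (nat_lit 13) (.e (nat_lit 172106) (nat_lit 10) (.e (nat_lit 434231) (nat_lit 23) (.e (nat_lit 532535) (nat_lit 9) (.e (nat_lit 335925) (nat_lit 0) (.e (nat_lit 994) (nat_lit 81) (.e (nat_lit 4825) (nat_lit 281) .nil))))))))) (.g (nat_lit 4) .nil .nil))))) 
(.nd (nat_lit 4) (.nd (nat_lit 5) 
(.lf (nat_lit 93518) (.g (nat_lit 1719) (.e (nat_lit 2536) (nat_lit 157) (.e (nat_lit 5953) (nat_lit 322) (.e (nat_lit 57373) (nat_lit 2) (.e (nat_lit 90185) (nat_lit 17) (.e (nat_lit 237601) (nat_lit 9) .nil))))) .nil)) 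
(.lf (nat_lit 93550) (.g (nat_lit 2055) (.e (nat_lit 2540) (nat_lit 158) (.e (nat_lit 8325) (nat_lit 69) (.e (nat_lit 557105) (nat_lit 14) (.e (nat_lit 180252) (nat_lit 10) (.e (nat_lit 573489) (nat_lit 14) (.e (nat_lit 73755) (nat_lit 8) (.e (nat_lit 557090) (nat_lit 12) (.e (nat_lit 163844) (nat_lit 0) (.e (nat_lit 5842) (nat_lit 320) .nil))))))))) (.g (nat_lit 4) .nil .nil)))) (.nd (nat_lit 5) 
(.lf (nat_lit 93534) (.g (nat_lit 4641) (.e (nat_lit 2538) (nat_lit 158) (.e (nat_lit 8433) (nat_lit 138) (.e (nat_lit 1201) (nat_lit 88) (.e (nat_lit 65630) (nat_lit 14) (.e (nat_lit 401459) (nat_lit 13) (.e (nat_lit 483350) (nat_lit 17) (.e (nat_lit 6113) (nat_lit 332) .nil))))))) (.g (nat_lit 7) .nil .nil))) 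
(.lf (nat_lit 93566) (.g (nat_lit 2829) (.e (nat_lit 2540) (nat_lit 158) (.e (nat_lit 8326) (nat_lit 69) (.e (nat_lit 557100) (nat_lit 13) (.e (nat_lit 172106) (nat_lit 10) (.e (nat_lit 434231) (nat_lit 23) (.e (nat_lit 532543) (nat_lit 10) (.e (nat_lit 344090) (nat_lit 18) (.e (nat_lit 4829) (nat_lit 281) .nil)))))))) (.g (nat_lit 6) .nil .nil)))))))) 
(.nd (nat_lit 1) (.nd (nat_lit 2) (.nd (nat_lit 3) (.nd (nat_lit 4) (.nd (nat_lit 5) 
(.lf (nat_lit 93505) (.g (nat_lit 1218) (.e (nat_lit 2524) (nat_lit 157) (.e (nat_lit 5949) (nat_lit 322) (.e (nat_lit 57373) (nat_lit 2) (.e (nat_lit 90185) (nat_lit 17) (.e (nat_lit 237605) (nat_lit 9) .nil))))) .nil)) 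
(.lf (nat_lit 93537) (.g (nat_lit 2024) (.e (nat_lit 2540) (nat_lit 158) (.e (nat_lit 8325) (nat_lit 69) (.e (nat_lit 557105) (nat_lit 14) (.e (nat_lit 180252) (nat_lit 10) (.e (nat_lit 573489) (nat_lit 14) .nil))))) .nil))) (.nd (nat_lit 5) 
(.lf (nat_lit 93521) (.g (nat_lit 2626) (.e (nat_lit 7936) (nat_lit 157) (.e (nat_lit 3539) (nat_lit 218) (.e (nat_lit 704738) (nat_lit 11) (.e (nat_lit 16425) (nat_lit 7) (.e (nat_lit 409649) (nat_lit 18) .nil))))) .nil)) 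
(.lf (nat_lit 93553) (.g (nat_lit 2060) (.e (nat_lit 2540) (nat_lit 158) (.e (nat_lit 8325) (nat_lit 69) (.e (nat_lit 557105) (nat_lit 14) (.e (nat_lit 180252) (nat_lit 10) (.e (nat_lit 573489) (nat_lit 14) (.e (nat_lit 73755) (nat_lit 8) (.e (nat_lit 557090) (nat_lit 12) (.e (nat_lit 163844) (nat_lit 0) (.e (nat_lit 5847) (nat_lit 320) .nil))))))))) (.g (nat_lit 4) .nil .nil))))) 
(.nd (nat_lit 4) (.nd (nat_lit 5) 
(.lf (nat_lit 93513) (.g (nat_lit 907) (.e (nat_lit 2528) (nat_lit 157) (.e (nat_lit 5384) (nat_lit 300) (.e (nat_lit 16459) (nat_lit 12) (.e (nat_lit 475199) (nat_lit 40) .nil)))) .nil)) 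
(.lf (nat_lit 93545) (.g (nat_lit 2068) (.e (nat_lit 2540) (nat_lit 158) (.e (nat_lit 8325) (nat_lit 69) (.e (nat_lit 557105) (nat_lit 14) (.e (nat_lit 180252) (nat_lit 10) (.e (nat_lit 573489) (nat_lit 14) (.e (nat_lit 73755) (nat_lit 8) (.e (nat_lit 557090) (nat_lit 12) (.e (nat_lit 163844) (nat_lit 0) (.e (nat_lit 5835) (nat_lit 320) .nil))))))))) (.g (nat_lit 4) .nil .nil)))) (.nd (nat_lit 5) 
(.lf (nat_lit 93529) (.g (nat_lit 549) (.e (nat_lit 7936) (nat_lit 157) (.e (nat_lit 7266) (nat_lit 384) (.e (nat_lit 57431) (nat_lit 16) .nil))) .nil)) 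
(.lf (nat_lit 93561) (.g (nat_lit 2116) (.e (nat_lit 2540) (nat_lit 158) (.e (nat_lit 8326) (nat_lit 69) (.e (nat_lit 557100) (nat_lit 13) (.e (nat_lit 172106) (nat_lit 10) (.e (nat_lit 434231) (nat_lit 23) (.e (nat_lit 532535) (nat_lit 9) (.e (nat_lit 335925) (nat_lit 0) (.e (nat_lit 1014) (nat_lit 81) (.e (nat_lit 4825) (nat_lit 281) .nil))))))))) (.g (nat_lit 4) .nil .nil)))))) 
(.nd (nat_lit 3) (.nd (nat_lit 4) (.nd (nat_lit 5) 
(.lf (nat_lit 93509) (.g (nat_lit 1362) (.e (nat_lit 2524) (nat_lit 157) (.e (nat_lit 5949) (nat_lit 322) (.e (nat_lit 57378) (nat_lit 3) (.e (nat_lit 98381) (nat_lit 31) .nil)))) .nil)) 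
(.lf (nat_lit 93541) (.g (nat_lit 2112) (.e (nat_lit 2540) (nat_lit 158) (.e (nat_lit 8325) (nat_lit 69) (.e (nat_lit 557105) (nat_lit 14) (.e (nat_lit 180252) (nat_lit 10) (.e (nat_lit 573489) (nat_lit 14) (.e (nat_lit 73755) (nat_lit 8) (.e (nat_lit 557090) (nat_lit 12) (.e (nat_lit 163844) (nat_lit 0) (.e (nat_lit 5830) (nat_lit 320) .nil))))))))) (.g (nat_lit 4) .nil .nil)))) (.nd (nat_lit 5) 
(.lf (nat_lit 93525) (.g (nat_lit 1561) (.e (nat_lit 7936) (nat_lit 157) (.e (nat_lit 5939) (nat_lit 322) (.e (nat_lit 57375) (nat_lit 2) (.e (nat_lit 90176) (nat_lit 15) (.e (nat_lit 196352) (nat_lit 18) .nil))))) .nil)) 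
(.lf (nat_lit 93557) (.g (nat_lit 2114) (.e (nat_lit 2540) (nat_lit 158) (.e (nat_lit 8326) (nat_lit 69) (.e (nat_lit 557100) (nat_lit 13) (.e (nat_lit 172106) (nat_lit 10) (.e (nat_lit 434231) (nat_lit 23) (.e (nat_lit 532535) (nat_lit 9) (.e (nat_lit 335925) (nat_lit 0) (.e (nat_lit 993) (nat_lit 81) (.e (nat_lit 4823) (nat_lit 281) .nil))))))))) (.g (nat_lit 4) .nil .nil))))) 
(.nd (nat_lit 4) (.nd (nat_lit 5) 
(.lf (nat_lit 93517) (.g (nat_lit 1312) (.e (nat_lit 2536) (nat_lit 157) (.e (nat_lit 5953) (nat_lit 322) (.e (nat_lit 57373) (nat_lit 2) (.e (nat_lit 90178) (nat_lit 15) (.e (nat_lit 196352) (nat_lit 18) (.e (nat_lit 393232) (nat_lit 17) .nil)))))) (.g (nat_lit 4) .nil .nil))) 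
(.lf (nat_lit 93549) (.g (nat_lit 2340) (.e (nat_lit 2540) (nat_lit 158) (.e (nat_lit 8325) (nat_lit 69) (.e (nat_lit 557105) (nat_lit 14) (.e (nat_lit 180252) (nat_lit 10) (.e (nat_lit 573489) (nat_lit 14) (.e (nat_lit 73755) (nat_lit 8) (.e (nat_lit 557090) (nat_lit 12) (.e (nat_lit 163844) (nat_lit 0) (.e (nat_lit 5840) (nat_lit 320) .nil))))))))) (.g (nat_lit 5) .nil .nil)))) (.nd (nat_lit 5) 
(.lf (nat_lit 93533) (.g (nat_lit 4319) (.e (nat_lit 2538) (nat_lit 158) (.e (nat_lit 8433) (nat_lit 138) (.e (nat_lit 1201) (nat_lit 88) (.e (nat_lit 65630) (nat_lit 14) (.e (nat_lit 401459) (nat_lit 13) (.e (nat_lit 483350) (nat_lit 17) (.e (nat_lit 6097) (nat_lit 332) .nil))))))) (.g (nat_lit 6) .nil .nil))) 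
(.lf (nat_lit 93565) (.g (nat_lit 3079) (.e (nat_lit 2540) (nat_lit 158) (.e (nat_lit 8326) (nat_lit 69) (.e (nat_lit 557100) (nat_lit 13) (.e (nat_lit 172106) (nat_lit 10) (.e (nat_lit 434231) (nat_lit 23) (.e (nat_lit 532535) (nat_lit 9) (.e (nat_lit 335992) (nat_lit 1) (.e (nat_lit 57781) (nat_lit 239) .nil)))))))) (.g (nat_lit 6) .nil .nil))))))) 
(.nd (nat_lit 2) (.nd (nat_lit 3) (.nd (nat_lit 4) (.nd (nat_lit 5) 
(.lf (nat_lit 93507) (.g (nat_lit 1715) (.e (nat_lit 2524) (nat_lit 157) (.e (nat_lit 5949) (nat_lit 322) (.e (nat_lit 57378) (nat_lit 3) (.e (nat_lit 98365) (nat_lit 26) (.e (nat_lit 426187) (nat_lit 9) .nil))))) .nil)) 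
(.lf (nat_lit 93539) (.g (nat_lit 3295) (.e (nat_lit 2540) (nat_lit 158) (.e (nat_lit 8325) (nat_lit 69) (.e (nat_lit 557105) (nat_lit 14) (.e (nat_lit 180252) (nat_lit 10) (.e (nat_lit 573489) (nat_lit 14) (.e (nat_lit 73755) (nat_lit 8) (.e (nat_lit 557090) (nat_lit 12) (.e (nat_lit 163844) (nat_lit 0) (.e (nat_lit 5799) (nat_lit 320) .nil))))))))) (.g (nat_lit 7) .nil .nil)))) (.nd (nat_lit 5) 
(.lf (nat_lit 93523) (.g (nat_lit 1560) (.e (nat_lit 7936) (nat_lit 157) (.e (nat_lit 5629) (nat_lit 312) (.e (nat_lit 226) (nat_lit 21) (.e (nat_lit 336443) (nat_lit 32) (.e (nat_lit 466979) (nat_lit 23) .nil))))) .nil)) 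
(.lf (nat_lit 93555) (.g (nat_lit 2125) (.e (nat_lit 2540) (nat_lit 158) (.e (nat_lit 8326) (nat_lit 69) (.e (nat_lit 557100) (nat_lit 13) (.e (nat_lit 172106) (nat_lit 10) (.e (nat_lit 434231) (nat_lit 23) (.e (nat_lit 532529) (nat_lit 9) (.e (nat_lit 336257) (nat_lit 15) (.e (nat_lit 2427) (nat_lit 157) (.e (nat_lit 6919) (nat_lit 371) .nil))))))))) (.g (nat_lit 4) .nil .nil))))) 
(.nd (nat_lit 4) (.nd (nat_lit 5) 
(.lf (nat_lit 93515) (.g (nat_lit 2359) (.e (nat_lit 2536) (nat_lit 157) (.e (nat_lit 5937) (nat_lit 322) (.e (nat_lit 57409) (nat_lit 12) (.e (nat_lit 336443) (nat_lit 32) (.e (nat_lit 466977) (nat_lit 22) .nil))))) .nil)) 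
(.lf (nat_lit 93547) (.g (nat_lit 2128) (.e (nat_lit 2540) (nat_lit 158) (.e (nat_lit 8325) (nat_lit 69) (.e (nat_lit 557105) (nat_lit 14) (.e (nat_lit 180252) (nat_lit 10) (.e (nat_lit 573489) (nat_lit 14) (.e (nat_lit 73755) (nat_lit 8) (.e (nat_lit 557090) (nat_lit 12) (.e (nat_lit 163844) (nat_lit 0) (.e (nat_lit 5837) (nat_lit 320) .nil))))))))) (.g (nat_lit 4) .nil .nil)))) (.nd (nat_lit 5) 
(.lf (nat_lit 93531) (.g (nat_lit 1851) (.e (nat_lit 2538) (nat_lit 158) (.e (nat_lit 8326) (nat_lit 69) (.e (nat_lit 557100) (nat_lit 13) (.e (nat_lit 172106) (nat_lit 10) (.e (nat_lit 434231) (nat_lit 23) (.e (nat_lit 532543) (nat_lit 10) (.e (nat_lit 344090) (nat_lit 18) (.e (nat_lit 4761) (nat_lit 281) .nil)))))))) (.g (nat_lit 5) .nil .nil))) 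
(.lf (nat_lit 93563) (.g (nat_lit 2016) (.e (nat_lit 2540) (nat_lit 158) (.e (nat_lit 8326) (nat_lit 69) (.e (nat_lit 557100) (nat_lit 13) (.e (nat_lit 172106) (nat_lit 10) (.e (nat_lit 434231) (nat_lit 23) (.e (nat_lit 532535) (nat_lit 9) (.e (nat_lit 335928) (nat_lit 0) (.e (nat_lit 995) (nat_lit 81) (.e (nat_lit 4824) (nat_lit 281) .nil))))))))) (.g (nat_lit 4) .nil .nil)))))) 
(.nd (nat_lit 3) (.nd (nat_lit 4) (.nd (nat_lit 5) 
(.lf (nat_lit 93511) (.g (nat_lit 1904) (.e (nat_lit 2528) (nat_lit 157) (.e (nat_lit 5195) (nat_lit 294) (.e (nat_lit 57448) (nat_lit 19) (.e (nat_lit 393234) (nat_lit 17) (.e (nat_lit 2413) (nat_lit 157) .nil))))) .nil)) 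
(.lf (nat_lit 93543) (.g (nat_lit 2131) (.e (nat_lit 2540) (nat_lit 158) (.e (nat_lit 8325) (nat_lit 69) (.e (nat_lit 557105) (nat_lit 14) (.e (nat_lit 180252) (nat_lit 10) (.e (nat_lit 573489) (nat_lit 14) (.e (nat_lit 73755) (nat_lit 8) (.e (nat_lit 557090) (nat_lit 12) (.e (nat_lit 163844) (nat_lit 0) (.e (nat_lit 5833) (nat_lit 320) .nil))))))))) (.g (nat_lit 4) .nil .nil)))) (.nd (nat_lit 5) 
(.lf (nat_lit 93527) (.g (nat_lit 1468) (.e (nat_lit 7936) (nat_lit 157) (.e (nat_lit 6989) (nat_lit 377) (.e (nat_lit 1361) (nat_lit 102) (.e (nat_lit 286761) (nat_lit 13) (.e (nat_lit 393293) (nat_lit 26) .nil))))) .nil)) 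
(.lf (nat_lit 93559) (.g (nat_lit 2162) (.e (nat_lit 2540) (nat_lit 158) (.e (nat_lit 8326) (nat_lit 69) (.e (nat_lit 557100) (nat_lit 13) (.e (nat_lit 172106) (nat_lit 10) (.e (nat_lit 434231) (nat_lit 23) (.e (nat_lit 532535) (nat_lit 9) (.e (nat_lit 335925) (nat_lit 0) (.e (nat_lit 995) (nat_lit 81) (.e (nat_lit 4824) (nat_lit 281) .nil))))))))) (.g (nat_lit 4) .nil .nil))))) 
(.nd (nat_lit 4) (.nd (nat_lit 5) 
(.lf (nat_lit 93519) (.g (nat_lit 1819) (.e (nat_lit 2536) (nat_lit 157) (.e (nat_lit 5953) (nat_lit 322) (.e (nat_lit 57447) (nat_lit 19) (.e (nat_lit 393281) (nat_lit 23) (.e (nat_lit 426115) (nat_lit 2) .nil))))) .nil)) 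
(.lf (nat_lit 93551) (.g (nat_lit 2057) (.e (nat_lit 2540) (nat_lit 158) (.e (nat_lit 8325) (nat_lit 69) (.e (nat_lit 557105) (nat_lit 14) (.e (nat_lit 180252) (nat_lit 10) (.e (nat_lit 573489) (nat_lit 14) (.e (nat_lit 73755) (nat_lit 8) (.e (nat_lit 557090) (nat_lit 12) (.e (nat_lit 163844) (nat_lit 0) (.e (nat_lit 5843) (nat_lit 320) .nil))))))))) (.g (nat_lit 4) .nil .nil)))) (.nd (nat_lit 5) 
(.lf (nat_lit 93535) (.g (nat_lit 2584) (.e (nat_lit 2538) (nat_lit 158) (.e (nat_lit 8433) (nat_lit 138) (.e (nat_lit 1214) (nat_lit 89) (.e (nat_lit 73781) (nat_lit 32) (.e (nat_lit 3090) (nat_lit 191) (.e (nat_lit 483350) (nat_lit 17) (.e (nat_lit 6097) (nat_lit 332) .nil))))))) (.g (nat_lit 7) .nil .nil))) 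
(.lf (nat_lit 93567) (.g (nat_lit 2837) (.e (nat_lit 2540) (nat_lit 158) (.e (nat_lit 8326) (nat_lit 69) (.e (nat_lit 557100) (nat_lit 13) (.e (nat_lit 172106) (nat_lit 10) (.e (nat_lit 434231) (nat_lit 23) (.e (nat_lit 532543) (nat_lit 10) (.e (nat_lit 344090) (nat_lit 18) (.e (nat_lit 4830) (nat_lit 281) .nil)))))))) (.g (nat_lit 6) .nil .nil)))))))))

noncomputable def tv1284 : DT := (.nd (nat_lit 0) (.nd (nat_lit 1) (.nd (nat_lit 2) (.nd (nat_lit 3) (.nd (nat_lit 4) (.nd (nat_lit 5) 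
(.lf (nat_lit 93568) (.g (nat_lit 2223) (.e (nat_lit 2540) (nat_lit 158) (.e (nat_lit 8326) (nat_lit 69) (.e (nat_lit 557100) (nat_lit 13) (.e (nat_lit 172106) (nat_lit 10) (.e (nat_lit 434231) (nat_lit 23) (.e (nat_lit 532543) (nat_lit 10) (.e (nat_lit 344097) (nat_lit 18) (.e (nat_lit 4827) (nat_lit 281) .nil)))))))) (.g (nat_lit 4) .nil .nil))) 
(.lf (nat_lit 93600) (.g (nat_lit 4972) (.e (nat_lit 2540) (nat_lit 158) (.e (nat_lit 8326) (nat_lit 69) (.e (nat_lit 557105) (nat_lit 14) (.e (nat_lit 180252) (nat_lit 10) (.e (nat_lit 573489) (nat_lit 14) (.e (nat_lit 73755) (nat_lit 8) (.e (nat_lit 557090) (nat_lit 12) (.e (nat_lit 163844) (nat_lit 0) (.e (nat_lit 5799) (nat_lit 320) .nil))))))))) (.g (nat_lit 9) .nil .nil)))) (.nd (nat_lit 5) 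
(.lf (nat_lit 93584) (.g (nat_lit 2773) (.e (nat_lit 2540) (nat_lit 158) (.e (nat_lit 8326) (nat_lit 69) (.e (nat_lit 557105) (nat_lit 14) (.e (nat_lit 180252) (nat_lit 10) (.e (nat_lit 573489) (nat_lit 14) (.e (nat_lit 73755) (nat_lit 8) (.e (nat_lit 557090) (nat_lit 12) (.e (nat_lit 163842) (nat_lit 0) (.e (nat_lit 5922) (nat_lit 320) .nil))))))))) (.g (nat_lit 4) .nil .nil))) 
(.lf (nat_lit 93616) (.g (nat_lit 3265) (.e (nat_lit 2540) (nat_lit 158) (.e (nat_lit 8433) (nat_lit 138) (.e (nat_lit 1191) (nat_lit 88) (.e (nat_lit 65630) (nat_lit 14) (.e (nat_lit 401459) (nat_lit 13) (.e (nat_lit 483344) (nat_lit 17) (.e (nat_lit 6155) (nat_lit 332) .nil))))))) (.g (nat_lit 7) .nil .nil))))) (.nd (nat_lit 4) (.nd (nat_lit 5) 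
(.lf (nat_lit 93576) (.g (nat_lit 2489) (.e (nat_lit 2540) (nat_lit 158) (.e (nat_lit 8326) (nat_lit 69) (.e (nat_lit 557100) (nat_lit 13) (.e (nat_lit 172106) (nat_lit 10) (.e (nat_lit 434231) (nat_lit 23) (.e (nat_lit 532544) (nat_lit 10) (.e (nat_lit 344098) (nat_lit 18) (.e (nat_lit 4827) (nat_lit 281) .nil)))))))) (.g (nat_lit 5) .nil .nil))) 
(.lf (nat_lit 93608) (.g (nat_lit 3742) (.e (nat_lit 2540) (nat_lit 158) (.e (nat_lit 8326) (nat_lit 69) (.e (nat_lit 557105) (nat_lit 14) (.e (nat_lit 180252) (nat_lit 10) (.e (nat_lit 573489) (nat_lit 14) (.e (nat_lit 73755) (nat_lit 8) (.e (nat_lit 557090) (nat_lit 12) (.e (nat_lit 163844) (nat_lit 0) (.e (nat_lit 5845) (nat_lit 320) .nil))))))))) (.g (nat_lit 7) .nil .nil)))) (.nd (nat_lit 5) 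
(.lf (nat_lit 93592) (.g (nat_lit 3679) (.e (nat_lit 2540) (nat_lit 158) (.e (nat_lit 8326) (nat_lit 69) (.e (nat_lit 557105) (nat_lit 14) (.e (nat_lit 180252) (nat_lit 10) (.e (nat_lit 573489) (nat_lit 14) (.e (nat_lit 73755) (nat_lit 8) (.e (nat_lit 557090) (nat_lit 12) (.e (nat_lit 163843) (nat_lit 0) (.e (nat_lit 5837) (nat_lit 320) .nil))))))))) (.g (nat_lit 6) .nil .nil))) 
(.lf (nat_lit 93624) (.g (nat_lit 2847) (.e (nat_lit 2541) (nat_lit 158) (.e (nat_lit 8325) (nat_lit 69) (.e (nat_lit 557105) (nat_lit 14) (.e (nat_lit 180252) (nat_lit 10) (.e (nat_lit 573489) (nat_lit 14) (.e (nat_lit 73755) (nat_lit 8) (.e (nat_lit 557090) (nat_lit 12) (.e (nat_lit 163844) (nat_lit 0) (.e (nat_lit 5811) (nat_lit 320) .nil))))))))) (.g (nat_lit 6) .nil .nil)))))) 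
(.nd (nat_lit 3) (.nd (nat_lit 4) (.nd (nat_lit 5) 
(.lf (nat_lit 93572) (.g (nat_lit 2610) (.e (nat_lit 2540) (nat_lit 158) (.e (nat_lit 8326) (nat_lit 69) (.e (nat_lit 557100) (nat_lit 13) (.e (nat_lit 172106) (nat_lit 10) (.e (nat_lit 434231) (nat_lit 23) (.e (nat_lit 532544) (nat_lit 10) (.e (nat_lit 344090) (nat_lit 18) (.e (nat_lit 4829) (nat_lit 281) .nil)))))))) (.g (nat_lit 5) .nil .nil))) 
(.lf (nat_lit 93604) (.g (nat_lit 3745) (.e (nat_lit 2540) (nat_lit 158) (.e (nat_lit 8326) (nat_lit 69) (.e (nat_lit 557105) (nat_lit 14) (.e (nat_lit 180252) (nat_lit 10) (.e (nat_lit 573489) (nat_lit 14) (.e (nat_lit 73755) (nat_lit 8) (.e (nat_lit 557090) (nat_lit 12) (.e (nat_lit 163844) (nat_lit 0) (.e (nat_lit 5834) (nat_lit 320) .nil))))))))) (.g (nat_lit 7) .nil .nil)))) (.nd (nat_lit 5) 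
(.lf (nat_lit 93588) (.g (nat_lit 3676) (.e (nat_lit 2540) (nat_lit 158) (.e (nat_lit 8326) (nat_lit 69) (.e (nat_lit 557105) (nat_lit 14) (.e (nat_lit 180252) (nat_lit 10) (.e (nat_lit 573489) (nat_lit 14) (.e (nat_lit 73755) (nat_lit 8) (.e (nat_lit 557090) (nat_lit 12) (.e (nat_lit 163843) (nat_lit 0) (.e (nat_lit 5833) (nat_lit 320) .nil))))))))) (.g (nat_lit 6) .nil .nil))) 
(.lf (nat_lit 93620) (.g (nat_lit 3315) (.e (nat_lit 2540) (nat_lit 158) (.e (nat_lit 8439) (nat_lit 138) (.e (nat_lit 1221) (nat_lit 90) (.e (nat_lit 81959) (nat_lit 24) (.e (nat_lit 123195) (nat_lit 266) (.e (nat_lit 57417) (nat_lit 12) (.e (nat_lit 335874) (nat_lit 0) (.e (nat_lit 6202) (nat_lit 332) .nil)))))))) (.g (nat_lit 7) .nil .nil))))) (.nd (nat_lit 4) (.nd (nat_lit 5) 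
(.lf (nat_lit 93580) (.g (nat_lit 3230) (.e (nat_lit 2540) (nat_lit 158) (.e (nat_lit 8326) (nat_lit 69) (.e (nat_lit 557100) (nat_lit 13) (.e (nat_lit 172113) (nat_lit 10) (.e (nat_lit 434245) (nat_lit 28) .nil))))) .nil)) 
(.lf (nat_lit 93612) (.g (nat_lit 2828) (.e (nat_lit 2540) (nat_lit 158) (.e (nat_lit 8326) (nat_lit 69) (.e (nat_lit 557105) (nat_lit 14) (.e (nat_lit 180252) (nat_lit 10) (.e (nat_lit 573489) (nat_lit 14) (.e (nat_lit 73755) (nat_lit 8) (.e (nat_lit 557090) (nat_lit 12) (.e (nat_lit 163851) (nat_lit 0) (.e (nat_lit 5831) (nat_lit 320) .nil))))))))) (.g (nat_lit 4) .nil .nil)))) (.nd (nat_lit 5) 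
(.lf (nat_lit 93596) (.g (nat_lit 3675) (.e (nat_lit 2540) (nat_lit 158) (.e (nat_lit 8326) (nat_lit 69) (.e (nat_lit 557105) (nat_lit 14) (.e (nat_lit 180252) (nat_lit 10) (.e (nat_lit 573489) (nat_lit 14) (.e (nat_lit 73755) (nat_lit 8) (.e (nat_lit 557090) (nat_lit 12) (.e (nat_lit 163843) (nat_lit 0) (.e (nat_lit 5847) (nat_lit 320) .nil))))))))) (.g (nat_lit 6) .nil .nil))) 
(.lf (nat_lit 93628) (.g (nat_lit 3518) (.e (nat_lit 2541) (nat_lit 158) (.e (nat_lit 8326) (nat_lit 69) (.e (nat_lit 557105) (nat_lit 14) (.e (nat_lit 180252) (nat_lit 10) (.e (nat_lit 573489) (nat_lit 14) (.e (nat_lit 73755) (nat_lit 8) (.e (nat_lit 557090) (nat_lit 12) (.e (nat_lit 163844) (nat_lit 0) (.e (nat_lit 5797) (nat_lit 320) .nil))))))))) (.g (nat_lit 6) .nil .nil))))))) 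
(.nd (nat_lit 2) (.nd (nat_lit 3) (.nd (nat_lit 4) (.nd (nat_lit 5) 
(.lf (nat_lit 93570) (.g (nat_lit 2477) (.e (nat_lit 2540) (nat_lit 158) (.e (nat_lit 8326) (nat_lit 69) (.e (nat_lit 557100) (nat_lit 13) (.e (nat_lit 172106) (nat_lit 10) (.e (nat_lit 434231) (nat_lit 23) (.e (nat_lit 532544) (nat_lit 10) (.e (nat_lit 344088) (nat_lit 18) (.e (nat_lit 4825) (nat_lit 281) .nil)))))))) (.g (nat_lit 5) .nil .nil))) 
(.lf (nat_lit 93602) (.g (nat_lit 3789) (.e (nat_lit 2540) (nat_lit 158) (.e (nat_lit 8326) (nat_lit 69) (.e (nat_lit 557105) (nat_lit 14) (.e (nat_lit 180252) (nat_lit 10) (.e (nat_lit 573489) (nat_lit 14) (.e (nat_lit 73755) (nat_lit 8) (.e (nat_lit 557090) (nat_lit 12) (.e (nat_lit 163844) (nat_lit 0) (.e (nat_lit 5830) (nat_lit 320) .nil))))))))) (.g (nat_lit 7) .nil .nil)))) (.nd (nat_lit 5) 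
(.lf (nat_lit 93586) (.g (nat_lit 3677) (.e (nat_lit 2540) (nat_lit 158) (.e (nat_lit 8326) (nat_lit 69) (.e (nat_lit 557105) (nat_lit 14) (.e (nat_lit 180252) (nat_lit 10) (.e (nat_lit 573489) (nat_lit 14) (.e (nat_lit 73755) (nat_lit 8) (.e (nat_lit 557090) (nat_lit 12) (.e (nat_lit 163843) (nat_lit 0) (.e (nat_lit 5830) (nat_lit 320) .nil))))))))) (.g (nat_lit 6) .nil .nil))) 
(.lf (nat_lit 93618) (.g (nat_lit 1112) (.e (nat_lit 2540) (nat_lit 158) (.e (nat_lit 8433) (nat_lit 138) (.e (nat_lit 1222) (nat_lit 90) (.e (nat_lit 81924) (nat_lit 0) (.e (nat_lit 3747) (nat_lit 228) .nil))))) .nil)))) (.nd (nat_lit 4) (.nd (nat_lit 5) 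
(.lf (nat_lit 93578) (.g (nat_lit 2209) (.e (nat_lit 2540) (nat_lit 158) (.e (nat_lit 8326) (nat_lit 69) (.e (nat_lit 557100) (nat_lit 13) (.e (nat_lit 172106) (nat_lit 10) (.e (nat_lit 434231) (nat_lit 23) (.e (nat_lit 532553) (nat_lit 13) (.e (nat_lit 368662) (nat_lit 18) (.e (nat_lit 4827) (nat_lit 281) .nil)))))))) (.g (nat_lit 4) .nil .nil))) 
(.lf (nat_lit 93610) (.g (nat_lit 3020) (.e (nat_lit 2540) (nat_lit 158) (.e (nat_lit 8326) (nat_lit 69) (.e (nat_lit 557105) (nat_lit 14) (.e (nat_lit 180252) (nat_lit 10) (.e (nat_lit 573489) (nat_lit 14) (.e (nat_lit 73755) (nat_lit 8) (.e (nat_lit 557090) (nat_lit 12) (.e (nat_lit 163850) (nat_lit 0) (.e (nat_lit 5831) (nat_lit 320) .nil))))))))) (.g (nat_lit 5) .nil .nil)))) (.nd (nat_lit 5) 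
(.lf (nat_lit 93594) (.g (nat_lit 3675) (.e (nat_lit 2540) (nat_lit 158) (.e (nat_lit 8326) (nat_lit 69) (.e (nat_lit 557105) (nat_lit 14) (.e (nat_lit 180252) (nat_lit 10) (.e (nat_lit 573489) (nat_lit 14) (.e (nat_lit 73755) (nat_lit 8) (.e (nat_lit 557090) (nat_lit 12) (.e (nat_lit 163843) (nat_lit 0) (.e (nat_lit 5843) (nat_lit 320) .nil))))))))) (.g (nat_lit 6) .nil .nil))) 
(.lf (nat_lit 93626) (.g (nat_lit 2640) (.e (nat_lit 2541) (nat_lit 158) (.e (nat_lit 8326) (nat_lit 69) (.e (nat_lit 557105) (nat_lit 14) (.e (nat_lit 180252) (nat_lit 10) (.e (nat_lit 573489) (nat_lit 14) .nil))))) .nil))))) (.nd (nat_lit 3) (.nd (nat_lit 4) (.nd (nat_lit 5) 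
(.lf (nat_lit 93574) (.g (nat_lit 2245) (.e (nat_lit 2540) (nat_lit 158) (.e (nat_lit 8326) (nat_lit 69) (.e (nat_lit 557100) (nat_lit 13) (.e (nat_lit 172106) (nat_lit 10) (.e (nat_lit 434231) (nat_lit 23) (.e (nat_lit 532544) (nat_lit 10) (.e (nat_lit 344096) (nat_lit 18) (.e (nat_lit 4761) (nat_lit 281) .nil)))))))) (.g (nat_lit 4) .nil .nil))) 
(.lf (nat_lit 93606) (.g (nat_lit 3805) (.e (nat_lit 2540) (nat_lit 158) (.e (nat_lit 8326) (nat_lit 69) (.e (nat_lit 557105) (nat_lit 14) (.e (nat_lit 180252) (nat_lit 10) (.e (nat_lit 573489) (nat_lit 14) (.e (nat_lit 73755) (nat_lit 8) (.e (nat_lit 557090) (nat_lit 12) (.e (nat_lit 163844) (nat_lit 0) (.e (nat_lit 5837) (nat_lit 320) .nil))))))))) (.g (nat_lit 7) .nil .nil)))) (.nd (nat_lit 5) 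
(.lf (nat_lit 93590) (.g (nat_lit 3684) (.e (nat_lit 2540) (nat_lit 158) (.e (nat_lit 8326) (nat_lit 69) (.e (nat_lit 557105) (nat_lit 14) (.e (nat_lit 180252) (nat_lit 10) (.e (nat_lit 573489) (nat_lit 14) (.e (nat_lit 73755) (nat_lit 8) (.e (nat_lit 557090) (nat_lit 12) (.e (nat_lit 163843) (nat_lit 0) (.e (nat_lit 5835) (nat_lit 320) .nil))))))))) (.g (nat_lit 6) .nil .nil))) 
(.lf (nat_lit 93622) (.g (nat_lit 2832) (.e (nat_lit 2541) (nat_lit 158) (.e (nat_lit 8325) (nat_lit 69) (.e (nat_lit 557105) (nat_lit 14) (.e (nat_lit 180252) (nat_lit 10) (.e (nat_lit 573489) (nat_lit 14) (.e (nat_lit 73755) (nat_lit 8) (.e (nat_lit 557090) (nat_lit 12) (.e (nat_lit 163844) (nat_lit 0) (.e (nat_lit 5796) (nat_lit 320) .nil))))))))) (.g (nat_lit 6) .nil .nil))))) 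
(.nd (nat_lit 4) (.nd (nat_lit 5) 
(.lf (nat_lit 93582) (.g (nat_lit 2664) (.e (nat_lit 2540) (nat_lit 158) (.e (nat_lit 8326) (nat_lit 69) (.e (nat_lit 557105) (nat_lit 14) (.e (nat_lit 180252) (nat_lit 10) (.e (nat_lit 573489) (nat_lit 14) .nil))))) .nil)) 
(.lf (nat_lit 93614) (.g (nat_lit 4048) (.e (nat_lit 2540) (nat_lit 158) (.e (nat_lit 8432) (nat_lit 138) (.e (nat_lit 1201) (nat_lit 88) (.e (nat_lit 65630) (nat_lit 14) (.e (nat_lit 401459) (nat_lit 13) (.e (nat_lit 483344) (nat_lit 17) (.e (nat_lit 6155) (nat_lit 332) .nil))))))) (.g (nat_lit 7) .nil .nil)))) (.nd (nat_lit 5) 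
(.lf (nat_lit 93598) (.g (nat_lit 3871) (.e (nat_lit 2540) (nat_lit 158) (.e (nat_lit 8326) (nat_lit 69) (.e (nat_lit 557105) (nat_lit 14) (.e (nat_lit 180252) (nat_lit 10) (.e (nat_lit 573489) (nat_lit 14) (.e (nat_lit 73755) (nat_lit 8) (.e (nat_lit 557090) (nat_lit 12) (.e (nat_lit 163844) (nat_lit 0) (.e (nat_lit 5796) (nat_lit 320) .nil))))))))) (.g (nat_lit 7) .nil .nil))) 
(.lf (nat_lit 93630) (.g (nat_lit 892) (.e (nat_lit 2541) (nat_lit 158) (.e (nat_lit 8360) (nat_lit 88) (.e (nat_lit 712752) (nat_lit 29) (.e (nat_lit 442427) (nat_lit 23) .nil)))) .nil))))))) (.nd (nat_lit 1) (.nd (nat_lit 2) (.nd (nat_lit 3) (.nd (nat_lit 4) (.nd (nat_lit 5) 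
(.lf (nat_lit 93569) (.g (nat_lit 2090) (.e (nat_lit 2540) (nat_lit 158) (.e (nat_lit 8326) (nat_lit 69) (.e (nat_lit 557100) (nat_lit 13) (.e (nat_lit 172106) (nat_lit 10) (.e (nat_lit 434231) (nat_lit 23) (.e (nat_lit 532543) (nat_lit 10) (.e (nat_lit 344098) (nat_lit 18) (.e (nat_lit 4827) (nat_lit 281) .nil)))))))) (.g (nat_lit 4) .nil .nil))) 
(.lf (nat_lit 93601) (.g (nat_lit 3938) (.e (nat_lit 2540) (nat_lit 158) (.e (nat_lit 8326) (nat_lit 69) (.e (nat_lit 557105) (nat_lit 14) (.e (nat_lit 180252) (nat_lit 10) (.e (nat_lit 573489) (nat_lit 14) (.e (nat_lit 73755) (nat_lit 8) (.e (nat_lit 557090) (nat_lit 12) (.e (nat_lit 163844) (nat_lit 0) (.e (nat_lit 5811) (nat_lit 320) .nil))))))))) (.g (nat_lit 7) .nil .nil)))) (.nd (nat_lit 5) 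
(.lf (nat_lit 93585) (.g (nat_lit 3641) (.e (nat_lit 2540) (nat_lit 158) (.e (nat_lit 8326) (nat_lit 69) (.e (nat_lit 557105) (nat_lit 14) (.e (nat_lit 180252) (nat_lit 10) (.e (nat_lit 573489) (nat_lit 14) (.e (nat_lit 73755) (nat_lit 8) (.e (nat_lit 557090) (nat_lit 12) (.e (nat_lit 163843) (nat_lit 0) (.e (nat_lit 5797) (nat_lit 320) .nil))))))))) (.g (nat_lit 6) .nil .nil))) 
(.lf (nat_lit 93617) (.g (nat_lit 3014) (.e (nat_lit 2540) (nat_lit 158) (.e (nat_lit 8433) (nat_lit 138) (.e (nat_lit 1191) (nat_lit 88) (.e (nat_lit 65630) (nat_lit 14) (.e (nat_lit 401459) (nat_lit 13) (.e (nat_lit 483344) (nat_lit 17) (.e (nat_lit 6156) (nat_lit 332) .nil))))))) (.g (nat_lit 6) .nil .nil))))) (.nd (nat_lit 4) (.nd (nat_lit 5) 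
(.lf (nat_lit 93577) (.g (nat_lit 2227) (.e (nat_lit 2540) (nat_lit 158) (.e (nat_lit 8326) (nat_lit 69) (.e (nat_lit 557100) (nat_lit 13) (.e (nat_lit 172106) (nat_lit 10) (.e (nat_lit 434231) (nat_lit 23) (.e (nat_lit 532544) (nat_lit 10) (.e (nat_lit 344098) (nat_lit 18) (.e (nat_lit 4828) (nat_lit 281) .nil)))))))) (.g (nat_lit 4) .nil .nil))) 
(.lf (nat_lit 93609) (.g (nat_lit 3648) (.e (nat_lit 2540) (nat_lit 158) (.e (nat_lit 8326) (nat_lit 69) (.e (nat_lit 557105) (nat_lit 14) (.e (nat_lit 180252) (nat_lit 10) (.e (nat_lit 573489) (nat_lit 14) (.e (nat_lit 73755) (nat_lit 8) (.e (nat_lit 557090) (nat_lit 12) (.e (nat_lit 163844) (nat_lit 0) (.e (nat_lit 5849) (nat_lit 320) .nil))))))))) (.g (nat_lit 6) .nil .nil)))) (.nd (nat_lit 5) 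
(.lf (nat_lit 93593) (.g (nat_lit 3680) (.e (nat_lit 2540) (nat_lit 158) (.e (nat_lit 8326) (nat_lit 69) (.e (nat_lit 557105) (nat_lit 14) (.e (nat_lit 180252) (nat_lit 10) (.e (nat_lit 573489) (nat_lit 14) (.e (nat_lit 73755) (nat_lit 8) (.e (nat_lit 557090) (nat_lit 12) (.e (nat_lit 163843) (nat_lit 0) (.e (nat_lit 5842) (nat_lit 320) .nil))))))))) (.g (nat_lit 6) .nil .nil))) 
(.lf (nat_lit 93625) (.g (nat_lit 2189) (.e (nat_lit 2541) (nat_lit 158) (.e (nat_lit 8326) (nat_lit 69) (.e (nat_lit 557103) (nat_lit 14) (.e (nat_lit 180250) (nat_lit 10) (.e (nat_lit 573489) (nat_lit 14) (.e (nat_lit 73755) (nat_lit 8) (.e (nat_lit 557090) (nat_lit 12) (.e (nat_lit 163844) (nat_lit 0) (.e (nat_lit 5799) (nat_lit 320) .nil))))))))) (.g (nat_lit 4) .nil .nil)))))) 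
(.nd (nat_lit 3) (.nd (nat_lit 4) (.nd (nat_lit 5) 
(.lf (nat_lit 93573) (.g (nat_lit 2618) (.e (nat_lit 2540) (nat_lit 158) (.e (nat_lit 8326) (nat_lit 69) (.e (nat_lit 557100) (nat_lit 13) (.e (nat_lit 172106) (nat_lit 10) (.e (nat_lit 434231) (nat_lit 23) (.e (nat_lit 532544) (nat_lit 10) (.e (nat_lit 344090) (nat_lit 18) (.e (nat_lit 4830) (nat_lit 281) .nil)))))))) (.g (nat_lit 5) .nil .nil))) 
(.lf (nat_lit 93605) (.g (nat_lit 3745) (.e (nat_lit 2540) (nat_lit 158) (.e (nat_lit 8326) (nat_lit 69) (.e (nat_lit 557105) (nat_lit 14) (.e (nat_lit 180252) (nat_lit 10) (.e (nat_lit 573489) (nat_lit 14) (.e (nat_lit 73755) (nat_lit 8) (.e (nat_lit 557090) (nat_lit 12) (.e (nat_lit 163844) (nat_lit 0) (.e (nat_lit 5835) (nat_lit 320) .nil))))))))) (.g (nat_lit 7) .nil .nil)))) (.nd (nat_lit 5) 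
(.lf (nat_lit 93589) (.g (nat_lit 3695) (.e (nat_lit 2540) (nat_lit 158) (.e (nat_lit 8326) (nat_lit 69) (.e (nat_lit 557105) (nat_lit 14) (.e (nat_lit 180252) (nat_lit 10) (.e (nat_lit 573489) (nat_lit 14) (.e (nat_lit 73755) (nat_lit 8) (.e (nat_lit 557090) (nat_lit 12) (.e (nat_lit 163843) (nat_lit 0) (.e (nat_lit 5834) (nat_lit 320) .nil))))))))) (.g (nat_lit 6) .nil .nil))) 
(.lf (nat_lit 93621) (.g (nat_lit 2160) (.e (nat_lit 2541) (nat_lit 158) (.e (nat_lit 8320) (nat_lit 64) (.e (nat_lit 516176) (nat_lit 14) (.e (nat_lit 466977) (nat_lit 22) (.e (nat_lit 196681) (nat_lit 17) (.e (nat_lit 131089) (nat_lit 1) (.e (nat_lit 57909) (nat_lit 278) .nil))))))) (.g (nat_lit 5) .nil .nil))))) (.nd (nat_lit 4) (.nd (nat_lit 5) 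
(.lf (nat_lit 93581) (.g (nat_lit 2195) (.e (nat_lit 2540) (nat_lit 158) (.e (nat_lit 8326) (nat_lit 69) (.e (nat_lit 557103) (nat_lit 14) (.e (nat_lit 180250) (nat_lit 10) (.e (nat_lit 573489) (nat_lit 14) (.e (nat_lit 73755) (nat_lit 8) (.e (nat_lit 557090) (nat_lit 12) (.e (nat_lit 163844) (nat_lit 0) (.e (nat_lit 5798) (nat_lit 320) .nil))))))))) (.g (nat_lit 4) .nil .nil))) 
(.lf (nat_lit 93613) (.g (nat_lit 2163) (.e (nat_lit 2540) (nat_lit 158) (.e (nat_lit 8326) (nat_lit 69) (.e (nat_lit 557109) (nat_lit 15) (.e (nat_lit 188452) (nat_lit 23) (.e (nat_lit 204863) (nat_lit 27) .nil))))) .nil))) (.nd (nat_lit 5) 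
(.lf (nat_lit 93597) (.g (nat_lit 3587) (.e (nat_lit 2540) (nat_lit 158) (.e (nat_lit 8326) (nat_lit 69) (.e (nat_lit 557105) (nat_lit 14) (.e (nat_lit 180252) (nat_lit 10) (.e (nat_lit 573489) (nat_lit 14) (.e (nat_lit 73755) (nat_lit 8) (.e (nat_lit 557090) (nat_lit 12) (.e (nat_lit 163843) (nat_lit 0) (.e (nat_lit 5849) (nat_lit 320) .nil))))))))) (.g (nat_lit 6) .nil .nil))) 
(.lf (nat_lit 93629) (.g (nat_lit 4420) (.e (nat_lit 2541) (nat_lit 158) (.e (nat_lit 8326) (nat_lit 69) (.e (nat_lit 557105) (nat_lit 14) (.e (nat_lit 180252) (nat_lit 10) (.e (nat_lit 573489) (nat_lit 14) (.e (nat_lit 73755) (nat_lit 8) (.e (nat_lit 557090) (nat_lit 12) (.e (nat_lit 163844) (nat_lit 0) (.e (nat_lit 5800) (nat_lit 320) .nil))))))))) (.g (nat_lit 8) .nil .nil))))))) 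
(.nd (nat_lit 2) (.nd (nat_lit 3) (.nd (nat_lit 4) (.nd (nat_lit 5) 
(.lf (nat_lit 93571) (.g (nat_lit 2663) (.e (nat_lit 2540) (nat_lit 158) (.e (nat_lit 8326) (nat_lit 69) (.e (nat_lit 557100) (nat_lit 13) (.e (nat_lit 172106) (nat_lit 10) (.e (nat_lit 434231) (nat_lit 23) (.e (nat_lit 532544) (nat_lit 10) (.e (nat_lit 344088) (nat_lit 18) (.e (nat_lit 4830) (nat_lit 281) .nil)))))))) (.g (nat_lit 5) .nil .nil))) 
(.lf (nat_lit 93603) (.g (nat_lit 3808) (.e (nat_lit 2540) (nat_lit 158) (.e (nat_lit 8326) (nat_lit 69) (.e (nat_lit 557105) (nat_lit 14) (.e (nat_lit 180252) (nat_lit 10) (.e (nat_lit 573489) (nat_lit 14) (.e (nat_lit 73755) (nat_lit 8) (.e (nat_lit 557090) (nat_lit 12) (.e (nat_lit 163844) (nat_lit 0) (.e (nat_lit 5833) (nat_lit 320) .nil))))))))) (.g (nat_lit 7) .nil .nil)))) (.nd (nat_lit 5) 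
(.lf (nat_lit 93587) (.g (nat_lit 3677) (.e (nat_lit 2540) (nat_lit 158) (.e (nat_lit 8326) (nat_lit 69) (.e (nat_lit 557105) (nat_lit 14) (.e (nat_lit 180252) (nat_lit 10) (.e (nat_lit 573489) (nat_lit 14) (.e (nat_lit 73755) (nat_lit 8) (.e (nat_lit 557090) (nat_lit 12) (.e (nat_lit 163843) (nat_lit 0) (.e (nat_lit 5832) (nat_lit 320) .nil))))))))) (.g (nat_lit 6) .nil .nil))) 
(.lf (nat_lit 93619) (.g (nat_lit 864) (.e (nat_lit 2540) (nat_lit 158) (.e (nat_lit 8433) (nat_lit 138) (.e (nat_lit 1224) (nat_lit 90) (.e (nat_lit 81922) (nat_lit 0) (.e (nat_lit 3747) (nat_lit 228) (.e (nat_lit 786473) (nat_lit 27) (.e (nat_lit 335872) (nat_lit 0) (.e (nat_lit 6202) (nat_lit 332) .nil)))))))) (.g (nat_lit 4) .nil .nil))))) (.nd (nat_lit 4) (.nd (nat_lit 5) 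
(.lf (nat_lit 93579) (.g (nat_lit 2730) (.e (nat_lit 2540) (nat_lit 158) (.e (nat_lit 8326) (nat_lit 69) (.e (nat_lit 557100) (nat_lit 13) (.e (nat_lit 172106) (nat_lit 10) (.e (nat_lit 434231) (nat_lit 23) (.e (nat_lit 532554) (nat_lit 13) (.e (nat_lit 368662) (nat_lit 18) (.e (nat_lit 4828) (nat_lit 281) .nil)))))))) (.g (nat_lit 5) .nil .nil))) 
(.lf (nat_lit 93611) (.g (nat_lit 2775) (.e (nat_lit 2540) (nat_lit 158) (.e (nat_lit 8326) (nat_lit 69) (.e (nat_lit 557105) (nat_lit 14) (.e (nat_lit 180252) (nat_lit 10) (.e (nat_lit 573489) (nat_lit 14) (.e (nat_lit 73755) (nat_lit 8) (.e (nat_lit 557090) (nat_lit 12) (.e (nat_lit 163850) (nat_lit 0) (.e (nat_lit 5841) (nat_lit 320) .nil))))))))) (.g (nat_lit 4) .nil .nil)))) (.nd (nat_lit 5) 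
(.lf (nat_lit 93595) (.g (nat_lit 3684) (.e (nat_lit 2540) (nat_lit 158) (.e (nat_lit 8326) (nat_lit 69) (.e (nat_lit 557105) (nat_lit 14) (.e (nat_lit 180252) (nat_lit 10) (.e (nat_lit 573489) (nat_lit 14) (.e (nat_lit 73755) (nat_lit 8) (.e (nat_lit 557090) (nat_lit 12) (.e (nat_lit 163843) (nat_lit 0) (.e (nat_lit 5845) (nat_lit 320) .nil))))))))) (.g (nat_lit 6) .nil .nil))) 
(.lf (nat_lit 93627) (.g (nat_lit 3510) (.e (nat_lit 2541) (nat_lit 158) (.e (nat_lit 8326) (nat_lit 69) (.e (nat_lit 557105) (nat_lit 14) (.e (nat_lit 180252) (nat_lit 10) (.e (nat_lit 573489) (nat_lit 14) (.e (nat_lit 73755) (nat_lit 8) (.e (nat_lit 557090) (nat_lit 12) (.e (nat_lit 163843) (nat_lit 0) (.e (nat_lit 5797) (nat_lit 320) .nil))))))))) (.g (nat_lit 6) .nil .nil)))))) 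
(.nd (nat_lit 3) (.nd (nat_lit 4) (.nd (nat_lit 5) 
(.lf (nat_lit 93575) (.g (nat_lit 4189) (.e (nat_lit 2540) (nat_lit 158) (.e (nat_lit 8326) (nat_lit 69) (.e (nat_lit 557100) (nat_lit 13) (.e (nat_lit 172106) (nat_lit 10) (.e (nat_lit 434231) (nat_lit 23) (.e (nat_lit 532544) (nat_lit 10) (.e (nat_lit 344096) (nat_lit 18) (.e (nat_lit 4764) (nat_lit 281) .nil)))))))) (.g (nat_lit 7) .nil .nil))) 
(.lf (nat_lit 93607) (.g (nat_lit 3758) (.e (nat_lit 2540) (nat_lit 158) (.e (nat_lit 8326) (nat_lit 69) (.e (nat_lit 557105) (nat_lit 14) (.e (nat_lit 180252) (nat_lit 10) (.e (nat_lit 573489) (nat_lit 14) (.e (nat_lit 73755) (nat_lit 8) (.e (nat_lit 557090) (nat_lit 12) (.e (nat_lit 163844) (nat_lit 0) (.e (nat_lit 5839) (nat_lit 320) .nil))))))))) (.g (nat_lit 7) .nil .nil)))) (.nd (nat_lit 5) 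
(.lf (nat_lit 93591) (.g (nat_lit 3677) (.e (nat_lit 2540) (nat_lit 158) (.e (nat_lit 8326) (nat_lit 69) (.e (nat_lit 557105) (nat_lit 14) (.e (nat_lit 180252) (nat_lit 10) (.e (nat_lit 573489) (nat_lit 14) (.e (nat_lit 73755) (nat_lit 8) (.e (nat_lit 557090) (nat_lit 12) (.e (nat_lit 163843) (nat_lit 0) (.e (nat_lit 5836) (nat_lit 320) .nil))))))))) (.g (nat_lit 6) .nil .nil))) 
(.lf (nat_lit 93623) (.g (nat_lit 2181) (.e (nat_lit 2541) (nat_lit 158) (.e (nat_lit 8325) (nat_lit 69) (.e (nat_lit 557105) (nat_lit 14) (.e (nat_lit 180252) (nat_lit 10) (.e (nat_lit 573489) (nat_lit 14) (.e (nat_lit 73755) (nat_lit 8) (.e (nat_lit 557090) (nat_lit 12) (.e (nat_lit 163844) (nat_lit 0) (.e (nat_lit 5797) (nat_lit 320) .nil))))))))) (.g (nat_lit 4) .nil .nil))))) 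
(.nd (nat_lit 4) (.nd (nat_lit 5) 
(.lf (nat_lit 93583) (.g (nat_lit 3178) (.e (nat_lit 2540) (nat_lit 158) (.e (nat_lit 8326) (nat_lit 69) (.e (nat_lit 557105) (nat_lit 14) (.e (nat_lit 180252) (nat_lit 10) (.e (nat_lit 573489) (nat_lit 14) (.e (nat_lit 73755) (nat_lit 8) (.e (nat_lit 557090) (nat_lit 12) (.e (nat_lit 163841) (nat_lit 0) (.e (nat_lit 5798) (nat_lit 320) .nil))))))))) (.g (nat_lit 5) .nil .nil))) 
(.lf (nat_lit 93615) (.g (nat_lit 3804) (.e (nat_lit 2540) (nat_lit 158) (.e (nat_lit 8432) (nat_lit 138) (.e (nat_lit 1201) (nat_lit 88) (.e (nat_lit 65630) (nat_lit 14) (.e (nat_lit 401459) (nat_lit 13) (.e (nat_lit 483344) (nat_lit 17) (.e (nat_lit 6156) (nat_lit 332) .nil))))))) (.g (nat_lit 6) .nil .nil)))) (.nd (nat_lit 5) 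
(.lf (nat_lit 93599) (.g (nat_lit 3649) (.e (nat_lit 2540) (nat_lit 158) (.e (nat_lit 8326) (nat_lit 69) (.e (nat_lit 557105) (nat_lit 14) (.e (nat_lit 180252) (nat_lit 10) (.e (nat_lit 573489) (nat_lit 14) (.e (nat_lit 73755) (nat_lit 8) (.e (nat_lit 557090) (nat_lit 12) (.e (nat_lit 163844) (nat_lit 0) (.e (nat_lit 5797) (nat_lit 320) .nil))))))))) (.g (nat_lit 6) .nil .nil))) 
(.lf (nat_lit 93631) (.g (nat_lit 2333) (.e (nat_lit 2542) (nat_lit 158) (.e (nat_lit 8320) (nat_lit 64) (.e (nat_lit 516176) (nat_lit 14) (.e (nat_lit 466977) (nat_lit 22) (.e (nat_lit 196681) (nat_lit 17) (.e (nat_lit 131086) (nat_lit 1) (.e (nat_lit 57908) (nat_lit 278) .nil))))))) (.g (nat_lit 5) .nil .nil)))))))))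

noncomputable def tv1285 : DT := (.nd (nat_lit 0) (.nd (nat_lit 1) (.nd (nat_lit 2) (.nd (nat_lit 3) (.nd (nat_lit 4) (.nd (nat_lit 5) 
(.lf (nat_lit 93632) (.g (nat_lit 2484) (.e (nat_lit 2542) (nat_lit 158) (.e (nat_lit 8320) (nat_lit 64) (.e (nat_lit 516176) (nat_lit 14) (.e (nat_lit 466977) (nat_lit 22) (.e (nat_lit 196681) (nat_lit 17) (.e (nat_lit 131089) (nat_lit 1) (.e (nat_lit 57909) (nat_lit 278) .nil))))))) (.g (nat_lit 7) .nil .nil))) 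
(.lf (nat_lit 93664) (.g (nat_lit 1836) (.e (nat_lit 2544) (nat_lit 158) (.e (nat_lit 8326) (nat_lit 69) (.e (nat_lit 557100) (nat_lit 13) (.e (nat_lit 172106) (nat_lit 10) (.e (nat_lit 434231) (nat_lit 23) (.e (nat_lit 532535) (nat_lit 9) (.e (nat_lit 335928) (nat_lit 0) (.e (nat_lit 994) (nat_lit 81) (.e (nat_lit 4824) (nat_lit 281) .nil))))))))) (.g (nat_lit 4) .nil .nil)))) (.nd (nat_lit 5) 
(.lf (nat_lit 93648) (.g (nat_lit 1783) (.e (nat_lit 2543) (nat_lit 158) (.e (nat_lit 8326) (nat_lit 69) (.e (nat_lit 557100) (nat_lit 13) (.e (nat_lit 172106) (nat_lit 10) (.e (nat_lit 434231) (nat_lit 23) (.e (nat_lit 532544) (nat_lit 10) (.e (nat_lit 344088) (nat_lit 18) (.e (nat_lit 4825) (nat_lit 281) .nil)))))))) (.g (nat_lit 4) .nil .nil))) 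
(.lf (nat_lit 93680) (.g (nat_lit 3285) (.e (nat_lit 2544) (nat_lit 158) (.e (nat_lit 8326) (nat_lit 69) (.e (nat_lit 557100) (nat_lit 13) (.e (nat_lit 172113) (nat_lit 10) (.e (nat_lit 434245) (nat_lit 28) (.e (nat_lit 573471) (nat_lit 11) (.e (nat_lit 16406) (nat_lit 1) (.e (nat_lit 164412) (nat_lit 260) .nil)))))))) (.g (nat_lit 4) .nil .nil))))) (.nd (nat_lit 4) (.nd (nat_lit 5) 
(.lf (nat_lit 93640) (.g (nat_lit 4247) (.e (nat_lit 2542) (nat_lit 158) (.e (nat_lit 8432) (nat_lit 138) (.e (nat_lit 1201) (nat_lit 88) (.e (nat_lit 65630) (nat_lit 14) (.e (nat_lit 401459) (nat_lit 13) (.e (nat_lit 483344) (nat_lit 17) (.e (nat_lit 6079) (nat_lit 332) .nil))))))) (.g (nat_lit 7) .nil .nil))) 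
(.lf (nat_lit 93672) (.g (nat_lit 2483) (.e (nat_lit 2544) (nat_lit 158) (.e (nat_lit 8326) (nat_lit 69) (.e (nat_lit 557100) (nat_lit 13) (.e (nat_lit 172106) (nat_lit 10) (.e (nat_lit 434231) (nat_lit 23) (.e (nat_lit 532544) (nat_lit 10) (.e (nat_lit 344092) (nat_lit 18) (.e (nat_lit 4829) (nat_lit 281) .nil)))))))) (.g (nat_lit 5) .nil .nil)))) (.nd (nat_lit 5) 
(.lf (nat_lit 93656) (.g (nat_lit 3673) (.e (nat_lit 2544) (nat_lit 158) (.e (nat_lit 8325) (nat_lit 69) (.e (nat_lit 557105) (nat_lit 14) (.e (nat_lit 180252) (nat_lit 10) (.e (nat_lit 573489) (nat_lit 14) (.e (nat_lit 73755) (nat_lit 8) (.e (nat_lit 557090) (nat_lit 12) (.e (nat_lit 163842) (nat_lit 0) (.e (nat_lit 5922) (nat_lit 320) .nil))))))))) (.g (nat_lit 7) .nil .nil))) 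
(.lf (nat_lit 93688) (.g (nat_lit 4427) (.e (nat_lit 2544) (nat_lit 158) (.e (nat_lit 8439) (nat_lit 138) (.e (nat_lit 1199) (nat_lit 88) (.e (nat_lit 65630) (nat_lit 14) (.e (nat_lit 401459) (nat_lit 13) (.e (nat_lit 483344) (nat_lit 17) (.e (nat_lit 6152) (nat_lit 332) .nil))))))) (.g (nat_lit 0) .nil .nil)))))) (.nd (nat_lit 3) (.nd (nat_lit 4) (.nd (nat_lit 5) 
(.lf (nat_lit 93636) (.g (nat_lit 3536) (.e (nat_lit 2542) (nat_lit 158) (.e (nat_lit 8326) (nat_lit 69) (.e (nat_lit 557105) (nat_lit 14) (.e (nat_lit 180252) (nat_lit 10) (.e (nat_lit 573489) (nat_lit 14) (.e (nat_lit 73755) (nat_lit 8) (.e (nat_lit 557090) (nat_lit 12) (.e (nat_lit 163844) (nat_lit 0) (.e (nat_lit 5796) (nat_lit 320) .nil))))))))) (.g (nat_lit 6) .nil .nil))) 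
(.lf (nat_lit 93668) (.g (nat_lit 2015) (.e (nat_lit 2544) (nat_lit 158) (.e (nat_lit 8326) (nat_lit 69) (.e (nat_lit 557100) (nat_lit 13) (.e (nat_lit 172106) (nat_lit 10) (.e (nat_lit 434231) (nat_lit 23) (.e (nat_lit 532544) (nat_lit 10) (.e (nat_lit 344088) (nat_lit 18) (.e (nat_lit 4825) (nat_lit 281) .nil)))))))) (.g (nat_lit 4) .nil .nil)))) (.nd (nat_lit 5) 
(.lf (nat_lit 93652) (.g (nat_lit 3018) (.e (nat_lit 2543) (nat_lit 158) (.e (nat_lit 8326) (nat_lit 69) (.e (nat_lit 557100) (nat_lit 13) (.e (nat_lit 172113) (nat_lit 10) (.e (nat_lit 434245) (nat_lit 28) .nil))))) .nil)) 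
(.lf (nat_lit 93684) (.g (nat_lit 3399) (.e (nat_lit 2544) (nat_lit 158) (.e (nat_lit 8439) (nat_lit 138) (.e (nat_lit 1188) (nat_lit 88) (.e (nat_lit 65630) (nat_lit 14) (.e (nat_lit 401459) (nat_lit 13) (.e (nat_lit 483344) (nat_lit 17) (.e (nat_lit 6152) (nat_lit 332) .nil))))))) (.g (nat_lit 6) .nil .nil))))) (.nd (nat_lit 4) (.nd (nat_lit 5) 
(.lf (nat_lit 93644) (.g (nat_lit 1773) (.e (nat_lit 2543) (nat_lit 158) (.e (nat_lit 8326) (nat_lit 69) (.e (nat_lit 557100) (nat_lit 13) (.e (nat_lit 172106) (nat_lit 10) (.e (nat_lit 434231) (nat_lit 23) .nil))))) .nil)) 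
(.lf (nat_lit 93676) (.g (nat_lit 2076) (.e (nat_lit 2544) (nat_lit 158) (.e (nat_lit 8326) (nat_lit 69) (.e (nat_lit 557100) (nat_lit 13) (.e (nat_lit 172106) (nat_lit 10) (.e (nat_lit 434231) (nat_lit 23) (.e (nat_lit 532544) (nat_lit 10) (.e (nat_lit 344098) (nat_lit 18) (.e (nat_lit 4828) (nat_lit 281) .nil)))))))) (.g (nat_lit 4) .nil .nil)))) (.nd (nat_lit 5) 
(.lf (nat_lit 93660) (.g (nat_lit 1851) (.e (nat_lit 2544) (nat_lit 158) (.e (nat_lit 8326) (nat_lit 69) (.e (nat_lit 557100) (nat_lit 13) (.e (nat_lit 172106) (nat_lit 10) (.e (nat_lit 434231) (nat_lit 23) (.e (nat_lit 532535) (nat_lit 9) (.e (nat_lit 335925) (nat_lit 0) (.e (nat_lit 993) (nat_lit 81) (.e (nat_lit 4823) (nat_lit 281) .nil))))))))) (.g (nat_lit 4) .nil .nil))) 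
(.lf (nat_lit 93692) (.g (nat_lit 3991) (.e (nat_lit 2544) (nat_lit 158) (.e (nat_lit 8439) (nat_lit 138) (.e (nat_lit 1199) (nat_lit 88) (.e (nat_lit 65630) (nat_lit 14) (.e (nat_lit 401459) (nat_lit 13) (.e (nat_lit 483347) (nat_lit 17) (.e (nat_lit 6198) (nat_lit 332) .nil))))))) (.g (nat_lit 0) .nil .nil))))))) (.nd (nat_lit 2) (.nd (nat_lit 3) (.nd (nat_lit 4) (.nd (nat_lit 5) 
(.lf (nat_lit 93634) (.g (nat_lit 2128) (.e (nat_lit 2542) (nat_lit 158) (.e (nat_lit 8325) (nat_lit 69) (.e (nat_lit 557105) (nat_lit 14) (.e (nat_lit 180252) (nat_lit 10) (.e (nat_lit 573489) (nat_lit 14) (.e (nat_lit 73755) (nat_lit 8) (.e (nat_lit 557090) (nat_lit 12) (.e (nat_lit 163844) (nat_lit 0) (.e (nat_lit 5797) (nat_lit 320) .nil))))))))) (.g (nat_lit 4) .nil .nil))) 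
(.lf (nat_lit 93666) (.g (nat_lit 1961) (.e (nat_lit 2544) (nat_lit 158) (.e (nat_lit 8326) (nat_lit 69) (.e (nat_lit 557100) (nat_lit 13) (.e (nat_lit 172106) (nat_lit 10) (.e (nat_lit 434231) (nat_lit 23) (.e (nat_lit 532543) (nat_lit 10) (.e (nat_lit 344091) (nat_lit 18) (.e (nat_lit 4829) (nat_lit 281) .nil)))))))) (.g (nat_lit 4) .nil .nil)))) (.nd (nat_lit 5) 
(.lf (nat_lit 93650) (.g (nat_lit 2296) (.e (nat_lit 2543) (nat_lit 158) (.e (nat_lit 8326) (nat_lit 69) (.e (nat_lit 557100) (nat_lit 13) (.e (nat_lit 172106) (nat_lit 10) (.e (nat_lit 434231) (nat_lit 23) (.e (nat_lit 532544) (nat_lit 10) (.e (nat_lit 344098) (nat_lit 18) (.e (nat_lit 4827) (nat_lit 281) .nil)))))))) (.g (nat_lit 5) .nil .nil))) 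
(.lf (nat_lit 93682) (.g (nat_lit 2141) (.e (nat_lit 2544) (nat_lit 158) (.e (nat_lit 8326) (nat_lit 69) (.e (nat_lit 557109) (nat_lit 15) (.e (nat_lit 188452) (nat_lit 23) (.e (nat_lit 204863) (nat_lit 27) .nil))))) .nil)))) (.nd (nat_lit 4) (.nd (nat_lit 5) 
(.lf (nat_lit 93642) (.g (nat_lit 4288) (.e (nat_lit 2542) (nat_lit 158) (.e (nat_lit 8432) (nat_lit 138) (.e (nat_lit 1201) (nat_lit 88) (.e (nat_lit 65630) (nat_lit 14) (.e (nat_lit 401459) (nat_lit 13) (.e (nat_lit 483344) (nat_lit 17) (.e (nat_lit 6153) (nat_lit 332) .nil))))))) (.g (nat_lit 7) .nil .nil))) 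
(.lf (nat_lit 93674) (.g (nat_lit 4025) (.e (nat_lit 2544) (nat_lit 158) (.e (nat_lit 8326) (nat_lit 69) (.e (nat_lit 557100) (nat_lit 13) (.e (nat_lit 172106) (nat_lit 10) (.e (nat_lit 434231) (nat_lit 23) (.e (nat_lit 532544) (nat_lit 10) (.e (nat_lit 344096) (nat_lit 18) (.e (nat_lit 4764) (nat_lit 281) .nil)))))))) (.g (nat_lit 7) .nil .nil)))) (.nd (nat_lit 5) 
(.lf (nat_lit 93658) (.g (nat_lit 3547) (.e (nat_lit 2544) (nat_lit 158) (.e (nat_lit 8325) (nat_lit 69) (.e (nat_lit 557109) (nat_lit 15) (.e (nat_lit 188452) (nat_lit 23) (.e (nat_lit 204863) (nat_lit 27) .nil))))) .nil)) 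
(.lf (nat_lit 93690) (.g (nat_lit 4172) (.e (nat_lit 2544) (nat_lit 158) (.e (nat_lit 8439) (nat_lit 138) (.e (nat_lit 1199) (nat_lit 88) (.e (nat_lit 65630) (nat_lit 14) (.e (nat_lit 401459) (nat_lit 13) (.e (nat_lit 483344) (nat_lit 17) (.e (nat_lit 6155) (nat_lit 332) .nil))))))) (.g (nat_lit 7) .nil .nil)))))) (.nd (nat_lit 3) (.nd (nat_lit 4) (.nd (nat_lit 5) 
(.lf (nat_lit 93638) (.g (nat_lit 2749) (.e (nat_lit 2542) (nat_lit 158) (.e (nat_lit 8326) (nat_lit 69) (.e (nat_lit 557105) (nat_lit 14) (.e (nat_lit 180252) (nat_lit 10) (.e (nat_lit 573489) (nat_lit 14) (.e (nat_lit 73755) (nat_lit 8) (.e (nat_lit 557090) (nat_lit 12) (.e (nat_lit 163845) (nat_lit 0) (.e (nat_lit 5800) (nat_lit 320) .nil))))))))) (.g (nat_lit 4) .nil .nil))) 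
(.lf (nat_lit 93670) (.g (nat_lit 2995) (.e (nat_lit 2544) (nat_lit 158) (.e (nat_lit 8326) (nat_lit 69) (.e (nat_lit 557100) (nat_lit 13) (.e (nat_lit 172106) (nat_lit 10) (.e (nat_lit 434231) (nat_lit 23) (.e (nat_lit 532544) (nat_lit 10) (.e (nat_lit 344091) (nat_lit 18) (.e (nat_lit 4829) (nat_lit 281) .nil)))))))) (.g (nat_lit 6) .nil .nil)))) (.nd (nat_lit 5) 
(.lf (nat_lit 93654) (.g (nat_lit 2142) (.e (nat_lit 2543) (nat_lit 158) (.e (nat_lit 8326) (nat_lit 69) (.e (nat_lit 557109) (nat_lit 15) (.e (nat_lit 188452) (nat_lit 23) (.e (nat_lit 204863) (nat_lit 27) .nil))))) .nil)) 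
(.lf (nat_lit 93686) (.g (nat_lit 2864) (.e (nat_lit 2544) (nat_lit 158) (.e (nat_lit 8439) (nat_lit 138) (.e (nat_lit 1190) (nat_lit 88) (.e (nat_lit 65628) (nat_lit 14) (.e (nat_lit 401459) (nat_lit 13) (.e (nat_lit 483347) (nat_lit 17) (.e (nat_lit 6198) (nat_lit 332) .nil))))))) (.g (nat_lit 5) .nil .nil))))) (.nd (nat_lit 4) (.nd (nat_lit 5) 
(.lf (nat_lit 93646) (.g (nat_lit 1943) (.e (nat_lit 2543) (nat_lit 158) (.e (nat_lit 8326) (nat_lit 69) (.e (nat_lit 557100) (nat_lit 13) (.e (nat_lit 172106) (nat_lit 10) (.e (nat_lit 434231) (nat_lit 23) (.e (nat_lit 532543) (nat_lit 10) (.e (nat_lit 344097) (nat_lit 18) (.e (nat_lit 4826) (nat_lit 281) .nil)))))))) (.g (nat_lit 5) .nil .nil))) 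
(.lf (nat_lit 93678) (.g (nat_lit 2579) (.e (nat_lit 2544) (nat_lit 158) (.e (nat_lit 8326) (nat_lit 69) (.e (nat_lit 557100) (nat_lit 13) (.e (nat_lit 172106) (nat_lit 10) (.e (nat_lit 434231) (nat_lit 23) (.e (nat_lit 532554) (nat_lit 13) (.e (nat_lit 368662) (nat_lit 18) (.e (nat_lit 4828) (nat_lit 281) .nil)))))))) (.g (nat_lit 5) .nil .nil)))) (.nd (nat_lit 5) 
(.lf (nat_lit 93662) (.g (nat_lit 1830) (.e (nat_lit 2544) (nat_lit 158) (.e (nat_lit 8326) (nat_lit 69) (.e (nat_lit 557100) (nat_lit 13) (.e (nat_lit 172106) (nat_lit 10) (.e (nat_lit 434231) (nat_lit 23) (.e (nat_lit 532535) (nat_lit 9) (.e (nat_lit 335925) (nat_lit 0) (.e (nat_lit 1013) (nat_lit 81) (.e (nat_lit 4825) (nat_lit 281) .nil))))))))) (.g (nat_lit 4) .nil .nil))) 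
(.lf (nat_lit 93694) (.g (nat_lit 2813) (.e (nat_lit 2544) (nat_lit 158) (.e (nat_lit 8439) (nat_lit 138) (.e (nat_lit 1221) (nat_lit 90) (.e (nat_lit 81959) (nat_lit 24) (.e (nat_lit 123195) (nat_lit 266) (.e (nat_lit 57400) (nat_lit 10) (.e (nat_lit 319490) (nat_lit 0) (.e (nat_lit 4977) (nat_lit 287) .nil)))))))) (.g (nat_lit 5) .nil .nil)))))))) 
(.nd (nat_lit 1) (.nd (nat_lit 2) (.nd (nat_lit 3) (.nd (nat_lit 4) (.nd (nat_lit 5) 
(.lf (nat_lit 93633) (.g (nat_lit 2814) (.e (nat_lit 2542) (nat_lit 158) (.e (nat_lit 8325) (nat_lit 69) (.e (nat_lit 557105) (nat_lit 14) (.e (nat_lit 180252) (nat_lit 10) (.e (nat_lit 573489) (nat_lit 14) (.e (nat_lit 73755) (nat_lit 8) (.e (nat_lit 557090) (nat_lit 12) (.e (nat_lit 163844) (nat_lit 0) (.e (nat_lit 5796) (nat_lit 320) .nil))))))))) (.g (nat_lit 6) .nil .nil))) 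
(.lf (nat_lit 93665) (.g (nat_lit 1845) (.e (nat_lit 2544) (nat_lit 158) (.e (nat_lit 8326) (nat_lit 69) (.e (nat_lit 557100) (nat_lit 13) (.e (nat_lit 172106) (nat_lit 10) (.e (nat_lit 434231) (nat_lit 23) (.e (nat_lit 532535) (nat_lit 9) (.e (nat_lit 335928) (nat_lit 0) (.e (nat_lit 995) (nat_lit 81) (.e (nat_lit 4824) (nat_lit 281) .nil))))))))) (.g (nat_lit 4) .nil .nil)))) (.nd (nat_lit 5) 
(.lf (nat_lit 93649) (.g (nat_lit 1800) (.e (nat_lit 2543) (nat_lit 158) (.e (nat_lit 8326) (nat_lit 69) (.e (nat_lit 557100) (nat_lit 13) (.e (nat_lit 172106) (nat_lit 10) (.e (nat_lit 434231) (nat_lit 23) (.e (nat_lit 532544) (nat_lit 10) (.e (nat_lit 344090) (nat_lit 18) (.e (nat_lit 4829) (nat_lit 281) .nil)))))))) (.g (nat_lit 4) .nil .nil))) 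
(.lf (nat_lit 93681) (.g (nat_lit 2664) (.e (nat_lit 2544) (nat_lit 158) (.e (nat_lit 8326) (nat_lit 69) (.e (nat_lit 557105) (nat_lit 14) (.e (nat_lit 180252) (nat_lit 10) (.e (nat_lit 573489) (nat_lit 14) .nil))))) .nil)))) (.nd (nat_lit 4) (.nd (nat_lit 5) 
(.lf (nat_lit 93641) (.g (nat_lit 4401) (.e (nat_lit 2542) (nat_lit 158) (.e (nat_lit 8432) (nat_lit 138) (.e (nat_lit 1201) (nat_lit 88) (.e (nat_lit 65630) (nat_lit 14) (.e (nat_lit 401459) (nat_lit 13) (.e (nat_lit 483344) (nat_lit 17) (.e (nat_lit 6081) (nat_lit 332) .nil))))))) (.g (nat_lit 7) .nil .nil))) 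
(.lf (nat_lit 93673) (.g (nat_lit 1867) (.e (nat_lit 2544) (nat_lit 158) (.e (nat_lit 8326) (nat_lit 69) (.e (nat_lit 557100) (nat_lit 13) (.e (nat_lit 172106) (nat_lit 10) (.e (nat_lit 434231) (nat_lit 23) (.e (nat_lit 532544) (nat_lit 10) (.e (nat_lit 344096) (nat_lit 18) (.e (nat_lit 4761) (nat_lit 281) .nil)))))))) (.g (nat_lit 4) .nil .nil)))) (.nd (nat_lit 5) 
(.lf (nat_lit 93657) (.g (nat_lit 1307) (.e (nat_lit 2544) (nat_lit 158) (.e (nat_lit 8325) (nat_lit 69) (.e (nat_lit 557109) (nat_lit 15) (.e (nat_lit 188452) (nat_lit 23) .nil)))) .nil)) 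
(.lf (nat_lit 93689) (.g (nat_lit 4398) (.e (nat_lit 2544) (nat_lit 158) (.e (nat_lit 8439) (nat_lit 138) (.e (nat_lit 1199) (nat_lit 88) (.e (nat_lit 65630) (nat_lit 14) (.e (nat_lit 401459) (nat_lit 13) (.e (nat_lit 483344) (nat_lit 17) (.e (nat_lit 6154) (nat_lit 332) .nil))))))) (.g (nat_lit 0) .nil .nil)))))) (.nd (nat_lit 3) (.nd (nat_lit 4) (.nd (nat_lit 5) 
(.lf (nat_lit 93637) (.g (nat_lit 3806) (.e (nat_lit 2542) (nat_lit 158) (.e (nat_lit 8326) (nat_lit 69) (.e (nat_lit 557105) (nat_lit 14) (.e (nat_lit 180252) (nat_lit 10) (.e (nat_lit 573489) (nat_lit 14) (.e (nat_lit 73755) (nat_lit 8) (.e (nat_lit 557090) (nat_lit 12) (.e (nat_lit 163844) (nat_lit 0) (.e (nat_lit 5811) (nat_lit 320) .nil))))))))) (.g (nat_lit 7) .nil .nil))) 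
(.lf (nat_lit 93669) (.g (nat_lit 1788) (.e (nat_lit 2544) (nat_lit 158) (.e (nat_lit 8326) (nat_lit 69) (.e (nat_lit 557100) (nat_lit 13) (.e (nat_lit 172106) (nat_lit 10) (.e (nat_lit 434231) (nat_lit 23) (.e (nat_lit 532544) (nat_lit 10) (.e (nat_lit 344088) (nat_lit 18) (.e (nat_lit 4829) (nat_lit 281) .nil)))))))) (.g (nat_lit 4) .nil .nil)))) (.nd (nat_lit 5) 
(.lf (nat_lit 93653) (.g (nat_lit 2672) (.e (nat_lit 2543) (nat_lit 158) (.e (nat_lit 8326) (nat_lit 69) (.e (nat_lit 557105) (nat_lit 14) (.e (nat_lit 180252) (nat_lit 10) (.e (nat_lit 573489) (nat_lit 14) .nil))))) .nil)) 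
(.lf (nat_lit 93685) (.g (nat_lit 3366) (.e (nat_lit 2544) (nat_lit 158) (.e (nat_lit 8439) (nat_lit 138) (.e (nat_lit 1188) (nat_lit 88) (.e (nat_lit 65630) (nat_lit 14) (.e (nat_lit 401459) (nat_lit 13) (.e (nat_lit 483344) (nat_lit 17) (.e (nat_lit 6154) (nat_lit 332) .nil))))))) (.g (nat_lit 6) .nil .nil))))) (.nd (nat_lit 4) (.nd (nat_lit 5) 
(.lf (nat_lit 93645) (.g (nat_lit 1882) (.e (nat_lit 2543) (nat_lit 158) (.e (nat_lit 8326) (nat_lit 69) (.e (nat_lit 557100) (nat_lit 13) (.e (nat_lit 172106) (nat_lit 10) (.e (nat_lit 434231) (nat_lit 23) (.e (nat_lit 532535) (nat_lit 9) (.e (nat_lit 335925) (nat_lit 0) (.e (nat_lit 993) (nat_lit 81) (.e (nat_lit 4823) (nat_lit 281) .nil))))))))) (.g (nat_lit 4) .nil .nil))) 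
(.lf (nat_lit 93677) (.g (nat_lit 2345) (.e (nat_lit 2544) (nat_lit 158) (.e (nat_lit 8326) (nat_lit 69) (.e (nat_lit 557100) (nat_lit 13) (.e (nat_lit 172106) (nat_lit 10) (.e (nat_lit 434231) (nat_lit 23) (.e (nat_lit 532553) (nat_lit 13) (.e (nat_lit 368662) (nat_lit 18) (.e (nat_lit 4827) (nat_lit 281) .nil)))))))) (.g (nat_lit 5) .nil .nil)))) (.nd (nat_lit 5) 
(.lf (nat_lit 93661) (.g (nat_lit 1991) (.e (nat_lit 2544) (nat_lit 158) (.e (nat_lit 8326) (nat_lit 69) (.e (nat_lit 557100) (nat_lit 13) (.e (nat_lit 172106) (nat_lit 10) (.e (nat_lit 434231) (nat_lit 23) (.e (nat_lit 532535) (nat_lit 9) (.e (nat_lit 335925) (nat_lit 0) (.e (nat_lit 995) (nat_lit 81) (.e (nat_lit 4824) (nat_lit 281) .nil))))))))) (.g (nat_lit 4) .nil .nil))) 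
(.lf (nat_lit 93693) (.g (nat_lit 3577) (.e (nat_lit 2544) (nat_lit 158) (.e (nat_lit 8439) (nat_lit 138) (.e (nat_lit 1200) (nat_lit 88) (.e (nat_lit 65629) (nat_lit 14) (.e (nat_lit 401459) (nat_lit 13) (.e (nat_lit 483347) (nat_lit 17) (.e (nat_lit 6198) (nat_lit 332) .nil))))))) (.g (nat_lit 5) .nil .nil))))))) (.nd (nat_lit 2) (.nd (nat_lit 3) (.nd (nat_lit 4) (.nd (nat_lit 5) 
(.lf (nat_lit 93635) (.g (nat_lit 2076) (.e (nat_lit 2542) (nat_lit 158) (.e (nat_lit 8325) (nat_lit 69) (.e (nat_lit 557105) (nat_lit 14) (.e (nat_lit 180252) (nat_lit 10) (.e (nat_lit 573489) (nat_lit 14) (.e (nat_lit 73755) (nat_lit 8) (.e (nat_lit 557090) (nat_lit 12) (.e (nat_lit 163845) (nat_lit 0) (.e (nat_lit 5799) (nat_lit 320) .nil))))))))) (.g (nat_lit 4) .nil .nil))) 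
(.lf (nat_lit 93667) (.g (nat_lit 1887) (.e (nat_lit 2544) (nat_lit 158) (.e (nat_lit 8326) (nat_lit 69) (.e (nat_lit 557100) (nat_lit 13) (.e (nat_lit 172106) (nat_lit 10) (.e (nat_lit 434231) (nat_lit 23) (.e (nat_lit 532543) (nat_lit 10) (.e (nat_lit 344091) (nat_lit 18) (.e (nat_lit 4830) (nat_lit 281) .nil)))))))) (.g (nat_lit 4) .nil .nil)))) (.nd (nat_lit 5) 
(.lf (nat_lit 93651) (.g (nat_lit 2352) (.e (nat_lit 2543) (nat_lit 158) (.e (nat_lit 8326) (nat_lit 69) (.e (nat_lit 557100) (nat_lit 13) (.e (nat_lit 172106) (nat_lit 10) (.e (nat_lit 434231) (nat_lit 23) (.e (nat_lit 532554) (nat_lit 13) (.e (nat_lit 368662) (nat_lit 18) (.e (nat_lit 4826) (nat_lit 281) .nil)))))))) (.g (nat_lit 5) .nil .nil))) 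
(.lf (nat_lit 93683) (.g (nat_lit 2414) (.e (nat_lit 2544) (nat_lit 158) (.e (nat_lit 8379) (nat_lit 102) (.e (nat_lit 1221) (nat_lit 90) (.e (nat_lit 81956) (nat_lit 23) (.e (nat_lit 98350) (nat_lit 24) (.e (nat_lit 409617) (nat_lit 10) (.e (nat_lit 4934) (nat_lit 287) .nil))))))) (.g (nat_lit 5) .nil .nil))))) (.nd (nat_lit 4) (.nd (nat_lit 5) 
(.lf (nat_lit 93643) (.g (nat_lit 1716) (.e (nat_lit 2543) (nat_lit 158) (.e (nat_lit 8320) (nat_lit 64) (.e (nat_lit 516176) (nat_lit 14) (.e (nat_lit 466977) (nat_lit 22) (.e (nat_lit 196668) (nat_lit 14) (.e (nat_lit 81664) (nat_lit 0) (.e (nat_lit 5546) (nat_lit 306) .nil))))))) (.g (nat_lit 5) .nil .nil))) 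
(.lf (nat_lit 93675) (.g (nat_lit 2422) (.e (nat_lit 2544) (nat_lit 158) (.e (nat_lit 8326) (nat_lit 69) (.e (nat_lit 557100) (nat_lit 13) (.e (nat_lit 172106) (nat_lit 10) (.e (nat_lit 434231) (nat_lit 23) (.e (nat_lit 532544) (nat_lit 10) (.e (nat_lit 344097) (nat_lit 18) (.e (nat_lit 4827) (nat_lit 281) .nil)))))))) (.g (nat_lit 5) .nil .nil)))) (.nd (nat_lit 5) 
(.lf (nat_lit 93659) (.g (nat_lit 1774) (.e (nat_lit 2544) (nat_lit 158) (.e (nat_lit 8326) (nat_lit 69) (.e (nat_lit 557100) (nat_lit 13) (.e (nat_lit 172106) (nat_lit 10) (.e (nat_lit 434231) (nat_lit 23) .nil))))) .nil)) 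
(.lf (nat_lit 93691) (.g (nat_lit 4901) (.e (nat_lit 2544) (nat_lit 158) (.e (nat_lit 8439) (nat_lit 138) (.e (nat_lit 1199) (nat_lit 88) (.e (nat_lit 65630) (nat_lit 14) (.e (nat_lit 401459) (nat_lit 13) (.e (nat_lit 483344) (nat_lit 17) (.e (nat_lit 6203) (nat_lit 332) .nil))))))) (.g (nat_lit 0) .nil .nil)))))) (.nd (nat_lit 3) (.nd (nat_lit 4) (.nd (nat_lit 5) 
(.lf (nat_lit 93639) (.g (nat_lit 1300) (.e (nat_lit 2542) (nat_lit 158) (.e (nat_lit 8432) (nat_lit 138) (.e (nat_lit 1201) (nat_lit 88) (.e (nat_lit 65583) (nat_lit 7) (.e (nat_lit 319530) (nat_lit 16) .nil))))) .nil)) 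
(.lf (nat_lit 93671) (.g (nat_lit 2921) (.e (nat_lit 2544) (nat_lit 158) (.e (nat_lit 8326) (nat_lit 69) (.e (nat_lit 557100) (nat_lit 13) (.e (nat_lit 172106) (nat_lit 10) (.e (nat_lit 434231) (nat_lit 23) (.e (nat_lit 532544) (nat_lit 10) (.e (nat_lit 344091) (nat_lit 18) (.e (nat_lit 4830) (nat_lit 281) .nil)))))))) (.g (nat_lit 6) .nil .nil)))) (.nd (nat_lit 5) 
(.lf (nat_lit 93655) (.g (nat_lit 3155) (.e (nat_lit 2543) (nat_lit 158) (.e (nat_lit 8439) (nat_lit 138) (.e (nat_lit 1221) (nat_lit 90) (.e (nat_lit 81959) (nat_lit 24) (.e (nat_lit 123195) (nat_lit 266) (.e (nat_lit 57417) (nat_lit 12) (.e (nat_lit 335876) (nat_lit 0) (.e (nat_lit 6202) (nat_lit 332) .nil)))))))) (.g (nat_lit 6) .nil .nil))) 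
(.lf (nat_lit 93687) (.g (nat_lit 4616) (.e (nat_lit 2544) (nat_lit 158) (.e (nat_lit 8439) (nat_lit 138) (.e (nat_lit 1199) (nat_lit 88) (.e (nat_lit 65630) (nat_lit 14) (.e (nat_lit 401457) (nat_lit 13) (.e (nat_lit 483346) (nat_lit 17) (.e (nat_lit 6203) (nat_lit 332) .nil))))))) (.g (nat_lit 0) .nil .nil))))) (.nd (nat_lit 4) (.nd (nat_lit 5) 
(.lf (nat_lit 93647) (.g (nat_lit 1897) (.e (nat_lit 2543) (nat_lit 158) (.e (nat_lit 8326) (nat_lit 69) (.e (nat_lit 557100) (nat_lit 13) (.e (nat_lit 172106) (nat_lit 10) (.e (nat_lit 434231) (nat_lit 23) (.e (nat_lit 532543) (nat_lit 10) (.e (nat_lit 344098) (nat_lit 18) (.e (nat_lit 4827) (nat_lit 281) .nil)))))))) (.g (nat_lit 4) .nil .nil))) 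
(.lf (nat_lit 93679) (.g (nat_lit 2209) (.e (nat_lit 2544) (nat_lit 158) (.e (nat_lit 8326) (nat_lit 69) (.e (nat_lit 557100) (nat_lit 13) (.e (nat_lit 172113) (nat_lit 10) .nil)))) .nil))) (.nd (nat_lit 5) 
(.lf (nat_lit 93663) (.g (nat_lit 2045) (.e (nat_lit 2544) (nat_lit 158) (.e (nat_lit 8326) (nat_lit 69) (.e (nat_lit 557100) (nat_lit 13) (.e (nat_lit 172106) (nat_lit 10) (.e (nat_lit 434231) (nat_lit 23) (.e (nat_lit 532535) (nat_lit 9) (.e (nat_lit 335928) (nat_lit 0) (.e (nat_lit 988) (nat_lit 81) (.e (nat_lit 4824) (nat_lit 281) .nil))))))))) (.g (nat_lit 4) .nil .nil))) 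
(.lf (nat_lit 93695) (.g (nat_lit 3442) (.e (nat_lit 2544) (nat_lit 158) (.e (nat_lit 8439) (nat_lit 138) (.e (nat_lit 1221) (nat_lit 90) (.e (nat_lit 81959) (nat_lit 24) (.e (nat_lit 123195) (nat_lit 266) (.e (nat_lit 57417) (nat_lit 12) (.e (nat_lit 335872) (nat_lit 0) (.e (nat_lit 6202) (nat_lit 332) .nil)))))))) (.g (nat_lit 6) .nil .nil)))))))))

noncomputable def tv1286 : DT := (.nd (nat_lit 0) (.nd (nat_lit 1) (.nd (nat_lit 2) (.nd (nat_lit 3) (.nd (nat_lit 4) (.nd (nat_lit 5) 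
(.lf (nat_lit 93696) (.g (nat_lit 3945) (.e (nat_lit 2544) (nat_lit 158) (.e (nat_lit 8439) (nat_lit 138) (.e (nat_lit 1221) (nat_lit 90) (.e (nat_lit 81959) (nat_lit 24) (.e (nat_lit 123195) (nat_lit 266) (.e (nat_lit 57417) (nat_lit 12) (.e (nat_lit 335874) (nat_lit 0) (.e (nat_lit 6202) (nat_lit 332) .nil)))))))) (.g (nat_lit 8) .nil .nil))) 
(.lf (nat_lit 93728) (.g (nat_lit 2631) (.e (nat_lit 2548) (nat_lit 158) (.e (nat_lit 8326) (nat_lit 69) (.e (nat_lit 557105) (nat_lit 14) (.e (nat_lit 180252) (nat_lit 10) (.e (nat_lit 573489) (nat_lit 14) .nil))))) .nil))) (.nd (nat_lit 5) 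
(.lf (nat_lit 93712) (.g (nat_lit 4053) (.e (nat_lit 2546) (nat_lit 158) (.e (nat_lit 8439) (nat_lit 138) (.e (nat_lit 1199) (nat_lit 88) (.e (nat_lit 65630) (nat_lit 14) (.e (nat_lit 401459) (nat_lit 13) (.e (nat_lit 483344) (nat_lit 17) (.e (nat_lit 6155) (nat_lit 332) .nil))))))) (.g (nat_lit 0) .nil .nil))) 
(.lf (nat_lit 93744) (.g (nat_lit 3841) (.e (nat_lit 2551) (nat_lit 159) (.e (nat_lit 24658) (nat_lit 13) (.e (nat_lit 393301) (nat_lit 27) (.e (nat_lit 491560) (nat_lit 10) (.e (nat_lit 344088) (nat_lit 18) .nil))))) .nil)))) (.nd (nat_lit 4) (.nd (nat_lit 5) 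
(.lf (nat_lit 93704) (.g (nat_lit 2804) (.e (nat_lit 2546) (nat_lit 158) (.e (nat_lit 8325) (nat_lit 69) (.e (nat_lit 557100) (nat_lit 13) (.e (nat_lit 172106) (nat_lit 10) (.e (nat_lit 434231) (nat_lit 23) .nil))))) .nil)) 
(.lf (nat_lit 93736) (.g (nat_lit 1543) (.e (nat_lit 2550) (nat_lit 159) (.e (nat_lit 24608) (nat_lit 3) (.e (nat_lit 98372) (nat_lit 29) .nil))) .nil))) (.nd (nat_lit 5) 
(.lf (nat_lit 93720) (.g (nat_lit 4357) (.e (nat_lit 2547) (nat_lit 158) (.e (nat_lit 8326) (nat_lit 69) (.e (nat_lit 557105) (nat_lit 14) (.e (nat_lit 180252) (nat_lit 10) (.e (nat_lit 573489) (nat_lit 14) (.e (nat_lit 73755) (nat_lit 8) (.e (nat_lit 557090) (nat_lit 12) (.e (nat_lit 163844) (nat_lit 0) (.e (nat_lit 5811) (nat_lit 320) .nil))))))))) (.g (nat_lit 8) .nil .nil))) 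
(.lf (nat_lit 93752) (.g (nat_lit 1885) (.e (nat_lit 2551) (nat_lit 159) (.e (nat_lit 24665) (nat_lit 14) (.e (nat_lit 409344) (nat_lit 18) (.e (nat_lit 98373) (nat_lit 29) (.e (nat_lit 450560) (nat_lit 0) .nil))))) .nil))))) (.nd (nat_lit 3) (.nd (nat_lit 4) (.nd (nat_lit 5) 
(.lf (nat_lit 93700) (.g (nat_lit 4509) (.e (nat_lit 2545) (nat_lit 158) (.e (nat_lit 8326) (nat_lit 69) (.e (nat_lit 557100) (nat_lit 13) (.e (nat_lit 172106) (nat_lit 10) (.e (nat_lit 434231) (nat_lit 23) (.e (nat_lit 532544) (nat_lit 10) (.e (nat_lit 344096) (nat_lit 18) (.e (nat_lit 4764) (nat_lit 281) .nil)))))))) (.g (nat_lit 8) .nil .nil))) 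
(.lf (nat_lit 93732) (.g (nat_lit 1948) (.e (nat_lit 2549) (nat_lit 158) (.e (nat_lit 8430) (nat_lit 138) (.e (nat_lit 1201) (nat_lit 88) (.e (nat_lit 65630) (nat_lit 14) (.e (nat_lit 401437) (nat_lit 9) .nil))))) .nil))) (.nd (nat_lit 5) 
(.lf (nat_lit 93716) (.g (nat_lit 2612) (.e (nat_lit 2547) (nat_lit 158) (.e (nat_lit 8326) (nat_lit 69) (.e (nat_lit 557105) (nat_lit 14) (.e (nat_lit 180252) (nat_lit 10) (.e (nat_lit 573489) (nat_lit 14) .nil))))) .nil)) 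
(.lf (nat_lit 93748) (.g (nat_lit 2859) (.e (nat_lit 2551) (nat_lit 159) (.e (nat_lit 24665) (nat_lit 14) (.e (nat_lit 409344) (nat_lit 17) (.e (nat_lit 90170) (nat_lit 13) (.e (nat_lit 172113) (nat_lit 10) (.e (nat_lit 434203) (nat_lit 18) (.e (nat_lit 5992) (nat_lit 326) .nil))))))) (.g (nat_lit 6) .nil .nil))))) (.nd (nat_lit 4) (.nd (nat_lit 5) 
(.lf (nat_lit 93708) (.g (nat_lit 4401) (.e (nat_lit 2546) (nat_lit 158) (.e (nat_lit 8326) (nat_lit 69) (.e (nat_lit 557100) (nat_lit 13) (.e (nat_lit 172106) (nat_lit 10) (.e (nat_lit 434231) (nat_lit 23) (.e (nat_lit 532544) (nat_lit 10) (.e (nat_lit 344096) (nat_lit 18) (.e (nat_lit 4764) (nat_lit 281) .nil)))))))) (.g (nat_lit 8) .nil .nil))) 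
(.lf (nat_lit 93740) (.g (nat_lit 1713) (.e (nat_lit 2551) (nat_lit 159) (.e (nat_lit 24650) (nat_lit 12) (.e (nat_lit 385063) (nat_lit 25) (.e (nat_lit 524322) (nat_lit 12) (.e (nat_lit 450563) (nat_lit 0) (.e (nat_lit 6000) (nat_lit 326) .nil)))))) (.g (nat_lit 0) .nil .nil)))) (.nd (nat_lit 5) 
(.lf (nat_lit 93724) (.g (nat_lit 2886) (.e (nat_lit 2548) (nat_lit 158) (.e (nat_lit 8325) (nat_lit 69) (.e (nat_lit 557105) (nat_lit 14) (.e (nat_lit 180252) (nat_lit 10) (.e (nat_lit 573489) (nat_lit 14) (.e (nat_lit 73755) (nat_lit 8) (.e (nat_lit 557090) (nat_lit 12) (.e (nat_lit 163844) (nat_lit 0) (.e (nat_lit 5797) (nat_lit 320) .nil))))))))) (.g (nat_lit 6) .nil .nil))) 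
(.lf (nat_lit 93756) (.g (nat_lit 1714) (.e (nat_lit 2552) (nat_lit 159) (.e (nat_lit 24640) (nat_lit 10) (.e (nat_lit 344156) (nat_lit 36) (.e (nat_lit 638998) (nat_lit 8) (.e (nat_lit 172107) (nat_lit 10) .nil))))) .nil)))))) (.nd (nat_lit 2) (.nd (nat_lit 3) (.nd (nat_lit 4) (.nd (nat_lit 5) 
(.lf (nat_lit 93698) (.g (nat_lit 1945) (.e (nat_lit 2545) (nat_lit 158) (.e (nat_lit 8326) (nat_lit 69) (.e (nat_lit 557100) (nat_lit 13) (.e (nat_lit 172106) (nat_lit 10) (.e (nat_lit 434231) (nat_lit 23) (.e (nat_lit 532535) (nat_lit 9) (.e (nat_lit 335925) (nat_lit 0) (.e (nat_lit 993) (nat_lit 81) (.e (nat_lit 4767) (nat_lit 281) .nil))))))))) (.g (nat_lit 4) .nil .nil))) 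
(.lf (nat_lit 93730) (.g (nat_lit 3500) (.e (nat_lit 2548) (nat_lit 158) (.e (nat_lit 8326) (nat_lit 69) (.e (nat_lit 557105) (nat_lit 14) (.e (nat_lit 180252) (nat_lit 10) (.e (nat_lit 573489) (nat_lit 14) (.e (nat_lit 73755) (nat_lit 8) (.e (nat_lit 557090) (nat_lit 12) (.e (nat_lit 163843) (nat_lit 0) (.e (nat_lit 5796) (nat_lit 320) .nil))))))))) (.g (nat_lit 6) .nil .nil)))) (.nd (nat_lit 5) 
(.lf (nat_lit 93714) (.g (nat_lit 2390) (.e (nat_lit 2547) (nat_lit 158) (.e (nat_lit 8325) (nat_lit 69) (.e (nat_lit 557105) (nat_lit 14) (.e (nat_lit 180252) (nat_lit 10) (.e (nat_lit 573489) (nat_lit 14) (.e (nat_lit 73755) (nat_lit 8) (.e (nat_lit 557090) (nat_lit 12) (.e (nat_lit 163844) (nat_lit 0) (.e (nat_lit 5797) (nat_lit 320) .nil))))))))) (.g (nat_lit 5) .nil .nil))) 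
(.lf (nat_lit 93746) (.g (nat_lit 2448) (.e (nat_lit 2551) (nat_lit 159) (.e (nat_lit 24662) (nat_lit 14) (.e (nat_lit 401459) (nat_lit 13) (.e (nat_lit 483395) (nat_lit 24) .nil)))) .nil)))) (.nd (nat_lit 4) (.nd (nat_lit 5) 
(.lf (nat_lit 93706) (.g (nat_lit 1836) (.e (nat_lit 2546) (nat_lit 158) (.e (nat_lit 8326) (nat_lit 69) (.e (nat_lit 557100) (nat_lit 13) (.e (nat_lit 172106) (nat_lit 10) (.e (nat_lit 434231) (nat_lit 23) .nil))))) .nil)) 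
(.lf (nat_lit 93738) (.g (nat_lit 2547) (.e (nat_lit 2551) (nat_lit 159) (.e (nat_lit 24608) (nat_lit 3) (.e (nat_lit 98373) (nat_lit 29) (.e (nat_lit 450579) (nat_lit 5) .nil)))) .nil))) (.nd (nat_lit 5) 
(.lf (nat_lit 93722) (.g (nat_lit 2017) (.e (nat_lit 2548) (nat_lit 158) (.e (nat_lit 8325) (nat_lit 69) (.e (nat_lit 557105) (nat_lit 14) (.e (nat_lit 180252) (nat_lit 10) (.e (nat_lit 573489) (nat_lit 14) .nil))))) .nil)) 
(.lf (nat_lit 93754) (.g (nat_lit 1499) (.e (nat_lit 2551) (nat_lit 159) (.e (nat_lit 24675) (nat_lit 27) (.e (nat_lit 433920) (nat_lit 30) (.e (nat_lit 360466) (nat_lit 3) (.e (nat_lit 516117) (nat_lit 1) (.e (nat_lit 164194) (nat_lit 158) .nil)))))) (.g (nat_lit 5) .nil .nil)))))) (.nd (nat_lit 3) (.nd (nat_lit 4) (.nd (nat_lit 5) 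
(.lf (nat_lit 93702) (.g (nat_lit 3429) (.e (nat_lit 2545) (nat_lit 158) (.e (nat_lit 8435) (nat_lit 138) (.e (nat_lit 1187) (nat_lit 88) (.e (nat_lit 65630) (nat_lit 14) (.e (nat_lit 401459) (nat_lit 13) (.e (nat_lit 483344) (nat_lit 17) (.e (nat_lit 6155) (nat_lit 332) .nil))))))) (.g (nat_lit 7) .nil .nil))) 
(.lf (nat_lit 93734) (.g (nat_lit 2030) (.e (nat_lit 7936) (nat_lit 158) (.e (nat_lit 8318) (nat_lit 64) (.e (nat_lit 516176) (nat_lit 14) (.e (nat_lit 466974) (nat_lit 22) (.e (nat_lit 196681) (nat_lit 17) .nil))))) .nil))) (.nd (nat_lit 5) 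
(.lf (nat_lit 93718) (.g (nat_lit 4386) (.e (nat_lit 2547) (nat_lit 158) (.e (nat_lit 8326) (nat_lit 69) (.e (nat_lit 557105) (nat_lit 14) (.e (nat_lit 180252) (nat_lit 10) (.e (nat_lit 573489) (nat_lit 14) (.e (nat_lit 73755) (nat_lit 8) (.e (nat_lit 557090) (nat_lit 12) (.e (nat_lit 163844) (nat_lit 0) (.e (nat_lit 5796) (nat_lit 320) .nil))))))))) (.g (nat_lit 8) .nil .nil))) 
(.lf (nat_lit 93750) (.g (nat_lit 2723) (.e (nat_lit 2551) (nat_lit 159) (.e (nat_lit 24665) (nat_lit 14) (.e (nat_lit 409344) (nat_lit 18) (.e (nat_lit 98359) (nat_lit 26) (.e (nat_lit 426286) (nat_lit 10) (.e (nat_lit 434203) (nat_lit 18) (.e (nat_lit 5992) (nat_lit 326) .nil))))))) (.g (nat_lit 6) .nil .nil))))) (.nd (nat_lit 4) (.nd (nat_lit 5) 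
(.lf (nat_lit 93710) (.g (nat_lit 3308) (.e (nat_lit 2546) (nat_lit 158) (.e (nat_lit 8439) (nat_lit 138) (.e (nat_lit 1188) (nat_lit 88) (.e (nat_lit 65630) (nat_lit 14) (.e (nat_lit 401459) (nat_lit 13) (.e (nat_lit 483344) (nat_lit 17) (.e (nat_lit 6152) (nat_lit 332) .nil))))))) (.g (nat_lit 6) .nil .nil))) 
(.lf (nat_lit 93742) (.g (nat_lit 1617) (.e (nat_lit 2551) (nat_lit 159) (.e (nat_lit 24658) (nat_lit 13) (.e (nat_lit 393301) (nat_lit 27) (.e (nat_lit 491559) (nat_lit 10) .nil)))) .nil))) (.nd (nat_lit 5) 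
(.lf (nat_lit 93726) (.g (nat_lit 3867) (.e (nat_lit 2548) (nat_lit 158) (.e (nat_lit 8325) (nat_lit 69) (.e (nat_lit 557105) (nat_lit 14) (.e (nat_lit 180252) (nat_lit 10) (.e (nat_lit 573489) (nat_lit 14) (.e (nat_lit 73755) (nat_lit 8) (.e (nat_lit 557090) (nat_lit 12) (.e (nat_lit 163844) (nat_lit 0) (.e (nat_lit 5800) (nat_lit 320) .nil))))))))) (.g (nat_lit 8) .nil .nil))) 
(.lf (nat_lit 93758) (.g (nat_lit 1406) (.e (nat_lit 2552) (nat_lit 159) (.e (nat_lit 24665) (nat_lit 14) (.e (nat_lit 409344) (nat_lit 18) .nil))) .nil))))))) (.nd (nat_lit 1) (.nd (nat_lit 2) (.nd (nat_lit 3) (.nd (nat_lit 4) (.nd (nat_lit 5) 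
(.lf (nat_lit 93697) (.g (nat_lit 1930) (.e (nat_lit 2545) (nat_lit 158) (.e (nat_lit 8326) (nat_lit 69) (.e (nat_lit 557100) (nat_lit 13) (.e (nat_lit 172106) (nat_lit 10) (.e (nat_lit 434231) (nat_lit 23) .nil))))) .nil)) 
(.lf (nat_lit 93729) (.g (nat_lit 2730) (.e (nat_lit 2548) (nat_lit 158) (.e (nat_lit 8326) (nat_lit 69) (.e (nat_lit 557105) (nat_lit 14) (.e (nat_lit 180252) (nat_lit 10) (.e (nat_lit 573489) (nat_lit 14) (.e (nat_lit 73755) (nat_lit 8) (.e (nat_lit 557090) (nat_lit 12) (.e (nat_lit 163841) (nat_lit 0) (.e (nat_lit 5798) (nat_lit 320) .nil))))))))) (.g (nat_lit 4) .nil .nil)))) (.nd (nat_lit 5) 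
(.lf (nat_lit 93713) (.g (nat_lit 3470) (.e (nat_lit 2547) (nat_lit 158) (.e (nat_lit 8320) (nat_lit 64) (.e (nat_lit 516176) (nat_lit 14) (.e (nat_lit 466981) (nat_lit 23) (.e (nat_lit 204861) (nat_lit 26) (.e (nat_lit 335988) (nat_lit 1) (.e (nat_lit 57905) (nat_lit 278) .nil))))))) (.g (nat_lit 7) .nil .nil))) 
(.lf (nat_lit 93745) (.g (nat_lit 2938) (.e (nat_lit 2551) (nat_lit 159) (.e (nat_lit 24662) (nat_lit 14) (.e (nat_lit 401459) (nat_lit 13) (.e (nat_lit 483393) (nat_lit 23) .nil)))) .nil)))) (.nd (nat_lit 4) (.nd (nat_lit 5) 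
(.lf (nat_lit 93705) (.g (nat_lit 2320) (.e (nat_lit 2546) (nat_lit 158) (.e (nat_lit 8325) (nat_lit 69) (.e (nat_lit 557107) (nat_lit 15) (.e (nat_lit 188450) (nat_lit 23) (.e (nat_lit 204863) (nat_lit 27) (.e (nat_lit 344096) (nat_lit 18) (.e (nat_lit 4764) (nat_lit 281) .nil))))))) (.g (nat_lit 4) .nil .nil))) 
(.lf (nat_lit 93737) (.g (nat_lit 1877) (.e (nat_lit 2551) (nat_lit 159) (.e (nat_lit 24588) (nat_lit 0) (.e (nat_lit 1842) (nat_lit 123) (.e (nat_lit 548874) (nat_lit 5) (.e (nat_lit 1598) (nat_lit 111) .nil))))) .nil))) (.nd (nat_lit 5) 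
(.lf (nat_lit 93721) (.g (nat_lit 1837) (.e (nat_lit 2548) (nat_lit 158) (.e (nat_lit 8318) (nat_lit 64) (.e (nat_lit 516176) (nat_lit 14) (.e (nat_lit 466977) (nat_lit 22) (.e (nat_lit 196668) (nat_lit 14) .nil))))) .nil)) 
(.lf (nat_lit 93753) (.g (nat_lit 1887) (.e (nat_lit 2551) (nat_lit 159) (.e (nat_lit 24665) (nat_lit 14) (.e (nat_lit 409344) (nat_lit 18) (.e (nat_lit 98373) (nat_lit 29) (.e (nat_lit 450560) (nat_lit 0) (.e (nat_lit 6054) (nat_lit 326) .nil)))))) (.g (nat_lit 4) .nil .nil)))))) (.nd (nat_lit 3) (.nd (nat_lit 4) (.nd (nat_lit 5) 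
(.lf (nat_lit 93701) (.g (nat_lit 2574) (.e (nat_lit 2545) (nat_lit 158) (.e (nat_lit 8388) (nat_lit 114) (.e (nat_lit 1220) (nat_lit 90) (.e (nat_lit 81938) (nat_lit 20) (.e (nat_lit 2391) (nat_lit 156) (.e (nat_lit 819220) (nat_lit 5) (.e (nat_lit 180287) (nat_lit 45) .nil))))))) (.g (nat_lit 6) .nil .nil))) 
(.lf (nat_lit 93733) (.g (nat_lit 1790) (.e (nat_lit 7936) (nat_lit 158) (.e (nat_lit 8318) (nat_lit 64) (.e (nat_lit 516174) (nat_lit 14) (.e (nat_lit 466974) (nat_lit 22) (.e (nat_lit 196681) (nat_lit 17) .nil))))) .nil))) (.nd (nat_lit 5) 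
(.lf (nat_lit 93717) (.g (nat_lit 2640) (.e (nat_lit 2547) (nat_lit 158) (.e (nat_lit 8326) (nat_lit 69) (.e (nat_lit 557105) (nat_lit 14) (.e (nat_lit 180252) (nat_lit 10) (.e (nat_lit 573489) (nat_lit 14) (.e (nat_lit 73755) (nat_lit 8) (.e (nat_lit 557090) (nat_lit 12) (.e (nat_lit 163841) (nat_lit 0) (.e (nat_lit 5812) (nat_lit 320) .nil))))))))) (.g (nat_lit 4) .nil .nil))) 
(.lf (nat_lit 93749) (.g (nat_lit 882) (.e (nat_lit 2551) (nat_lit 159) (.e (nat_lit 24665) (nat_lit 14) (.e (nat_lit 409344) (nat_lit 18) .nil))) .nil)))) (.nd (nat_lit 4) (.nd (nat_lit 5) 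
(.lf (nat_lit 93709) (.g (nat_lit 1599) (.e (nat_lit 2546) (nat_lit 158) (.e (nat_lit 8388) (nat_lit 114) (.e (nat_lit 1220) (nat_lit 90) (.e (nat_lit 81938) (nat_lit 20) (.e (nat_lit 2391) (nat_lit 156) .nil))))) .nil)) 
(.lf (nat_lit 93741) (.g (nat_lit 2164) (.e (nat_lit 2551) (nat_lit 159) (.e (nat_lit 24658) (nat_lit 13) (.e (nat_lit 393301) (nat_lit 27) (.e (nat_lit 491558) (nat_lit 10) .nil)))) .nil))) (.nd (nat_lit 5) 
(.lf (nat_lit 93725) (.g (nat_lit 3922) (.e (nat_lit 2548) (nat_lit 158) (.e (nat_lit 8325) (nat_lit 69) (.e (nat_lit 557105) (nat_lit 14) (.e (nat_lit 180252) (nat_lit 10) (.e (nat_lit 573489) (nat_lit 14) (.e (nat_lit 73755) (nat_lit 8) (.e (nat_lit 557090) (nat_lit 12) (.e (nat_lit 163844) (nat_lit 0) (.e (nat_lit 5798) (nat_lit 320) .nil))))))))) (.g (nat_lit 9) .nil .nil))) 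
(.lf (nat_lit 93757) (.g (nat_lit 1805) (.e (nat_lit 2552) (nat_lit 159) (.e (nat_lit 24640) (nat_lit 10) (.e (nat_lit 344156) (nat_lit 36) (.e (nat_lit 638999) (nat_lit 8) .nil)))) .nil)))))) (.nd (nat_lit 2) (.nd (nat_lit 3) (.nd (nat_lit 4) (.nd (nat_lit 5) 
(.lf (nat_lit 93699) (.g (nat_lit 1948) (.e (nat_lit 2545) (nat_lit 158) (.e (nat_lit 8326) (nat_lit 69) (.e (nat_lit 557100) (nat_lit 13) (.e (nat_lit 172106) (nat_lit 10) (.e (nat_lit 434231) (nat_lit 23) (.e (nat_lit 532544) (nat_lit 10) (.e (nat_lit 344091) (nat_lit 18) (.e (nat_lit 4767) (nat_lit 281) .nil)))))))) (.g (nat_lit 4) .nil .nil))) 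
(.lf (nat_lit 93731) (.g (nat_lit 4823) (.e (nat_lit 2548) (nat_lit 158) (.e (nat_lit 8430) (nat_lit 138) (.e (nat_lit 1201) (nat_lit 88) (.e (nat_lit 65630) (nat_lit 14) (.e (nat_lit 401459) (nat_lit 13) (.e (nat_lit 483344) (nat_lit 17) (.e (nat_lit 6081) (nat_lit 332) .nil))))))) (.g (nat_lit 0) .nil .nil)))) (.nd (nat_lit 5) 
(.lf (nat_lit 93715) (.g (nat_lit 1336) (.e (nat_lit 2547) (nat_lit 158) (.e (nat_lit 8326) (nat_lit 69) (.e (nat_lit 557100) (nat_lit 13) (.e (nat_lit 172106) (nat_lit 10) .nil)))) .nil)) 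
(.lf (nat_lit 93747) (.g (nat_lit 882) (.e (nat_lit 2551) (nat_lit 159) (.e (nat_lit 24665) (nat_lit 14) (.e (nat_lit 409344) (nat_lit 17) .nil))) .nil)))) (.nd (nat_lit 4) (.nd (nat_lit 5) 
(.lf (nat_lit 93707) (.g (nat_lit 3419) (.e (nat_lit 2546) (nat_lit 158) (.e (nat_lit 8326) (nat_lit 69) (.e (nat_lit 557100) (nat_lit 13) (.e (nat_lit 172106) (nat_lit 10) (.e (nat_lit 434231) (nat_lit 23) (.e (nat_lit 532544) (nat_lit 10) (.e (nat_lit 344096) (nat_lit 18) (.e (nat_lit 4761) (nat_lit 281) .nil)))))))) (.g (nat_lit 6) .nil .nil))) 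
(.lf (nat_lit 93739) (.g (nat_lit 2375) (.e (nat_lit 2551) (nat_lit 159) (.e (nat_lit 24617) (nat_lit 7) (.e (nat_lit 319534) (nat_lit 16) (.e (nat_lit 286756) (nat_lit 10) (.e (nat_lit 344160) (nat_lit 37) .nil))))) .nil))) (.nd (nat_lit 5) 
(.lf (nat_lit 93723) (.g (nat_lit 2363) (.e (nat_lit 2548) (nat_lit 158) (.e (nat_lit 8325) (nat_lit 69) (.e (nat_lit 557105) (nat_lit 14) (.e (nat_lit 180252) (nat_lit 10) (.e (nat_lit 573489) (nat_lit 14) (.e (nat_lit 73755) (nat_lit 8) (.e (nat_lit 557090) (nat_lit 12) (.e (nat_lit 163841) (nat_lit 0) (.e (nat_lit 5798) (nat_lit 320) .nil))))))))) (.g (nat_lit 5) .nil .nil))) 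
(.lf (nat_lit 93755) (.g (nat_lit 1845) (.e (nat_lit 2552) (nat_lit 159) (.e (nat_lit 24640) (nat_lit 10) (.e (nat_lit 344156) (nat_lit 36) (.e (nat_lit 638998) (nat_lit 8) (.e (nat_lit 172106) (nat_lit 10) .nil))))) .nil))))) (.nd (nat_lit 3) (.nd (nat_lit 4) (.nd (nat_lit 5) 
(.lf (nat_lit 93703) (.g (nat_lit 3625) (.e (nat_lit 2545) (nat_lit 158) (.e (nat_lit 8435) (nat_lit 138) (.e (nat_lit 1194) (nat_lit 88) (.e (nat_lit 65630) (nat_lit 14) (.e (nat_lit 401459) (nat_lit 13) (.e (nat_lit 483344) (nat_lit 17) (.e (nat_lit 6155) (nat_lit 332) .nil))))))) (.g (nat_lit 6) .nil .nil))) 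
(.lf (nat_lit 93735) (.g (nat_lit 2141) (.e (nat_lit 2550) (nat_lit 159) (.e (nat_lit 24604) (nat_lit 2) (.e (nat_lit 90176) (nat_lit 15) (.e (nat_lit 188450) (nat_lit 23) (.e (nat_lit 204830) (nat_lit 18) .nil))))) .nil))) (.nd (nat_lit 5) 
(.lf (nat_lit 93719) (.g (nat_lit 4385) (.e (nat_lit 2547) (nat_lit 158) (.e (nat_lit 8326) (nat_lit 69) (.e (nat_lit 557105) (nat_lit 14) (.e (nat_lit 180252) (nat_lit 10) (.e (nat_lit 573489) (nat_lit 14) (.e (nat_lit 73755) (nat_lit 8) (.e (nat_lit 557090) (nat_lit 12) (.e (nat_lit 163844) (nat_lit 0) (.e (nat_lit 5800) (nat_lit 320) .nil))))))))) (.g (nat_lit 8) .nil .nil))) 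
(.lf (nat_lit 93751) (.g (nat_lit 2693) (.e (nat_lit 2551) (nat_lit 159) (.e (nat_lit 24665) (nat_lit 14) (.e (nat_lit 409344) (nat_lit 18) (.e (nat_lit 98359) (nat_lit 26) (.e (nat_lit 426286) (nat_lit 10) (.e (nat_lit 434203) (nat_lit 18) (.e (nat_lit 6032) (nat_lit 326) .nil))))))) (.g (nat_lit 6) .nil .nil))))) (.nd (nat_lit 4) (.nd (nat_lit 5) 
(.lf (nat_lit 93711) (.g (nat_lit 4348) (.e (nat_lit 2546) (nat_lit 158) (.e (nat_lit 8439) (nat_lit 138) (.e (nat_lit 1199) (nat_lit 88) (.e (nat_lit 65630) (nat_lit 14) (.e (nat_lit 401459) (nat_lit 13) (.e (nat_lit 483344) (nat_lit 17) (.e (nat_lit 6152) (nat_lit 332) .nil))))))) (.g (nat_lit 0) .nil .nil))) 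
(.lf (nat_lit 93743) (.g (nat_lit 3444) (.e (nat_lit 2551) (nat_lit 159) (.e (nat_lit 24658) (nat_lit 13) (.e (nat_lit 393301) (nat_lit 27) (.e (nat_lit 491559) (nat_lit 10) (.e (nat_lit 344089) (nat_lit 18) .nil))))) .nil))) (.nd (nat_lit 5) 
(.lf (nat_lit 93727) (.g (nat_lit 3849) (.e (nat_lit 2548) (nat_lit 158) (.e (nat_lit 8325) (nat_lit 69) (.e (nat_lit 557105) (nat_lit 14) (.e (nat_lit 180252) (nat_lit 10) (.e (nat_lit 573489) (nat_lit 14) (.e (nat_lit 73755) (nat_lit 8) (.e (nat_lit 557090) (nat_lit 12) (.e (nat_lit 163844) (nat_lit 0) (.e (nat_lit 5811) (nat_lit 320) .nil))))))))) (.g (nat_lit 8) .nil .nil))) 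
(.lf (nat_lit 93759) (.g (nat_lit 3190) (.e (nat_lit 2553) (nat_lit 159) (.e (nat_lit 24658) (nat_lit 13) (.e (nat_lit 393301) (nat_lit 27) (.e (nat_lit 491558) (nat_lit 10) (.e (nat_lit 344088) (nat_lit 18) .nil))))) .nil))))))))

noncomputable def tv1287 : DT := (.nd (nat_lit 0) (.nd (nat_lit 1) (.nd (nat_lit 2) (.nd (nat_lit 3) (.nd (nat_lit 4) (.nd (nat_lit 5) 
(.lf (nat_lit 93760) (.g (nat_lit 3099) (.e (nat_lit 2553) (nat_lit 159) (.e (nat_lit 24658) (nat_lit 13) (.e (nat_lit 393301) (nat_lit 27) (.e (nat_lit 491560) (nat_lit 10) (.e (nat_lit 344087) (nat_lit 18) .nil))))) .nil)) 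
(.lf (nat_lit 93792) (.g (nat_lit 1852) (.e (nat_lit 2558) (nat_lit 159) (.e (nat_lit 24640) (nat_lit 10) (.e (nat_lit 344156) (nat_lit 36) (.e (nat_lit 638998) (nat_lit 8) (.e (nat_lit 172106) (nat_lit 10) .nil))))) .nil))) (.nd (nat_lit 5) 
(.lf (nat_lit 93776) (.g (nat_lit 2430) (.e (nat_lit 2555) (nat_lit 159) (.e (nat_lit 24617) (nat_lit 7) (.e (nat_lit 319505) (nat_lit 10) (.e (nat_lit 618) (nat_lit 48) (.e (nat_lit 557098) (nat_lit 13) .nil))))) .nil)) 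
(.lf (nat_lit 93808) (.g (nat_lit 1831) (.e (nat_lit 2569) (nat_lit 160) (.e (nat_lit 32807) (nat_lit 18) (.e (nat_lit 172032) (nat_lit 0) (.e (nat_lit 7545) (nat_lit 402) (.e (nat_lit 1228) (nat_lit 91) (.e (nat_lit 90172) (nat_lit 14) (.e (nat_lit 180285) (nat_lit 45) .nil))))))) (.g (nat_lit 7) .nil .nil))))) (.nd (nat_lit 4) (.nd (nat_lit 5) 
(.lf (nat_lit 93768) (.g (nat_lit 2577) (.e (nat_lit 2554) (nat_lit 159) (.e (nat_lit 24662) (nat_lit 14) (.e (nat_lit 401459) (nat_lit 13) (.e (nat_lit 483395) (nat_lit 24) .nil)))) .nil)) 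
(.lf (nat_lit 93800) (.g (nat_lit 2052) (.e (nat_lit 2559) (nat_lit 159) (.e (nat_lit 24640) (nat_lit 10) (.e (nat_lit 344156) (nat_lit 36) (.e (nat_lit 638998) (nat_lit 8) (.e (nat_lit 172113) (nat_lit 10) .nil))))) .nil))) (.nd (nat_lit 5) 
(.lf (nat_lit 93784) (.g (nat_lit 2631) (.e (nat_lit 2556) (nat_lit 159) (.e (nat_lit 24662) (nat_lit 14) (.e (nat_lit 401459) (nat_lit 13) (.e (nat_lit 483395) (nat_lit 24) .nil)))) .nil)) 
(.lf (nat_lit 93816) (.g (nat_lit 2121) (.e (nat_lit 2569) (nat_lit 160) (.e (nat_lit 32807) (nat_lit 18) (.e (nat_lit 172085) (nat_lit 9) (.e (nat_lit 426402) (nat_lit 15) (.e (nat_lit 1848) (nat_lit 124) (.e (nat_lit 557103) (nat_lit 14) (.e (nat_lit 180285) (nat_lit 45) .nil))))))) (.g (nat_lit 7) .nil .nil)))))) (.nd (nat_lit 3) (.nd (nat_lit 4) (.nd (nat_lit 5) 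
(.lf (nat_lit 93764) (.g (nat_lit 2899) (.e (nat_lit 2554) (nat_lit 159) (.e (nat_lit 24658) (nat_lit 13) (.e (nat_lit 393301) (nat_lit 27) (.e (nat_lit 491558) (nat_lit 10) .nil)))) .nil)) 
(.lf (nat_lit 93796) (.g (nat_lit 1325) (.e (nat_lit 2558) (nat_lit 159) (.e (nat_lit 24665) (nat_lit 14) (.e (nat_lit 409344) (nat_lit 17) .nil))) .nil))) (.nd (nat_lit 5) 
(.lf (nat_lit 93780) (.g (nat_lit 2583) (.e (nat_lit 2555) (nat_lit 159) (.e (nat_lit 24662) (nat_lit 14) (.e (nat_lit 401459) (nat_lit 13) (.e (nat_lit 483395) (nat_lit 24) .nil)))) .nil)) 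
(.lf (nat_lit 93812) (.g (nat_lit 2327) (.e (nat_lit 2569) (nat_lit 160) (.e (nat_lit 32807) (nat_lit 18) (.e (nat_lit 172040) (nat_lit 0) (.e (nat_lit 7540) (nat_lit 402) (.e (nat_lit 1238) (nat_lit 91) (.e (nat_lit 90172) (nat_lit 14) (.e (nat_lit 180285) (nat_lit 45) .nil))))))) (.g (nat_lit 7) .nil .nil))))) (.nd (nat_lit 4) (.nd (nat_lit 5) 
(.lf (nat_lit 93772) (.g (nat_lit 3478) (.e (nat_lit 2555) (nat_lit 159) (.e (nat_lit 24588) (nat_lit 0) (.e (nat_lit 1842) (nat_lit 123) (.e (nat_lit 548874) (nat_lit 5) (.e (nat_lit 1598) (nat_lit 111) (.e (nat_lit 360466) (nat_lit 3) (.e (nat_lit 516120) (nat_lit 1) (.e (nat_lit 164427) (nat_lit 278) .nil)))))))) (.g (nat_lit 7) .nil .nil))) 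
(.lf (nat_lit 93804) (.g (nat_lit 1694) (.e (nat_lit 2560) (nat_lit 159) (.e (nat_lit 24608) (nat_lit 3) (.e (nat_lit 98365) (nat_lit 26) (.e (nat_lit 426298) (nat_lit 11) .nil)))) .nil))) (.nd (nat_lit 5) 
(.lf (nat_lit 93788) (.g (nat_lit 3695) (.e (nat_lit 2557) (nat_lit 159) (.e (nat_lit 24617) (nat_lit 7) (.e (nat_lit 319504) (nat_lit 10) (.e (nat_lit 618) (nat_lit 48) (.e (nat_lit 557109) (nat_lit 15) (.e (nat_lit 188455) (nat_lit 24) (.e (nat_lit 237312) (nat_lit 146) .nil))))))) (.g (nat_lit 6) .nil .nil))) 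
(.lf (nat_lit 93820) (.g (nat_lit 1815) (.e (nat_lit 2569) (nat_lit 160) (.e (nat_lit 32807) (nat_lit 18) (.e (nat_lit 172086) (nat_lit 9) (.e (nat_lit 426402) (nat_lit 15) (.e (nat_lit 1848) (nat_lit 124) (.e (nat_lit 557103) (nat_lit 14) (.e (nat_lit 180285) (nat_lit 45) .nil))))))) (.g (nat_lit 7) .nil .nil))))))) (.nd (nat_lit 2) (.nd (nat_lit 3) (.nd (nat_lit 4) (.nd (nat_lit 5) 
(.lf (nat_lit 93762) (.g (nat_lit 2179) (.e (nat_lit 2554) (nat_lit 159) (.e (nat_lit 24588) (nat_lit 0) (.e (nat_lit 1842) (nat_lit 123) (.e (nat_lit 548874) (nat_lit 5) (.e (nat_lit 1598) (nat_lit 111) (.e (nat_lit 360466) (nat_lit 3) (.e (nat_lit 516117) (nat_lit 1) (.e (nat_lit 164427) (nat_lit 278) .nil)))))))) (.g (nat_lit 5) .nil .nil))) 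
(.lf (nat_lit 93794) (.g (nat_lit 1540) (.e (nat_lit 2558) (nat_lit 159) (.e (nat_lit 24658) (nat_lit 13) (.e (nat_lit 393301) (nat_lit 27) .nil))) .nil))) (.nd (nat_lit 5) 
(.lf (nat_lit 93778) (.g (nat_lit 3034) (.e (nat_lit 2555) (nat_lit 159) (.e (nat_lit 24662) (nat_lit 14) (.e (nat_lit 401459) (nat_lit 13) (.e (nat_lit 483393) (nat_lit 23) .nil)))) .nil)) 
(.lf (nat_lit 93810) (.g (nat_lit 1387) (.e (nat_lit 2569) (nat_lit 160) (.e (nat_lit 32807) (nat_lit 18) (.e (nat_lit 172040) (nat_lit 0) (.e (nat_lit 7540) (nat_lit 402) (.e (nat_lit 1227) (nat_lit 91) (.e (nat_lit 90172) (nat_lit 14) (.e (nat_lit 180285) (nat_lit 45) .nil))))))) (.g (nat_lit 5) .nil .nil))))) (.nd (nat_lit 4) (.nd (nat_lit 5) 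
(.lf (nat_lit 93770) (.g (nat_lit 1877) (.e (nat_lit 2555) (nat_lit 159) (.e (nat_lit 24588) (nat_lit 0) (.e (nat_lit 1842) (nat_lit 123) (.e (nat_lit 548874) (nat_lit 5) (.e (nat_lit 1598) (nat_lit 111) .nil))))) .nil)) 
(.lf (nat_lit 93802) (.g (nat_lit 1088) (.e (nat_lit 2559) (nat_lit 159) (.e (nat_lit 24665) (nat_lit 14) (.e (nat_lit 409344) (nat_lit 18) .nil))) .nil))) (.nd (nat_lit 5) 
(.lf (nat_lit 93786) (.g (nat_lit 1952) (.e (nat_lit 2557) (nat_lit 159) (.e (nat_lit 24603) (nat_lit 2) (.e (nat_lit 90176) (nat_lit 15) (.e (nat_lit 188450) (nat_lit 23) (.e (nat_lit 204830) (nat_lit 18) (.e (nat_lit 65280) (nat_lit 233) .nil)))))) (.g (nat_lit 5) .nil .nil))) 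
(.lf (nat_lit 93818) (.g (nat_lit 2271) (.e (nat_lit 2569) (nat_lit 160) (.e (nat_lit 32807) (nat_lit 18) (.e (nat_lit 172085) (nat_lit 9) (.e (nat_lit 426402) (nat_lit 15) (.e (nat_lit 1859) (nat_lit 124) (.e (nat_lit 557103) (nat_lit 14) (.e (nat_lit 180285) (nat_lit 45) .nil))))))) (.g (nat_lit 7) .nil .nil)))))) (.nd (nat_lit 3) (.nd (nat_lit 4) (.nd (nat_lit 5) 
(.lf (nat_lit 93766) (.g (nat_lit 2537) (.e (nat_lit 2554) (nat_lit 159) (.e (nat_lit 24658) (nat_lit 13) (.e (nat_lit 393301) (nat_lit 27) (.e (nat_lit 491560) (nat_lit 10) .nil)))) .nil)) 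
(.lf (nat_lit 93798) (.g (nat_lit 2328) (.e (nat_lit 2558) (nat_lit 159) (.e (nat_lit 24665) (nat_lit 14) (.e (nat_lit 409344) (nat_lit 18) (.e (nat_lit 98373) (nat_lit 29) (.e (nat_lit 450560) (nat_lit 0) .nil))))) .nil))) (.nd (nat_lit 5) 
(.lf (nat_lit 93782) (.g (nat_lit 2686) (.e (nat_lit 2556) (nat_lit 159) (.e (nat_lit 24658) (nat_lit 13) (.e (nat_lit 393301) (nat_lit 27) (.e (nat_lit 491560) (nat_lit 10) .nil)))) .nil)) 
(.lf (nat_lit 93814) (.g (nat_lit 2153) (.e (nat_lit 2569) (nat_lit 160) (.e (nat_lit 32807) (nat_lit 18) (.e (nat_lit 172041) (nat_lit 0) (.e (nat_lit 7540) (nat_lit 402) (.e (nat_lit 1238) (nat_lit 91) (.e (nat_lit 90172) (nat_lit 14) (.e (nat_lit 180285) (nat_lit 45) .nil))))))) (.g (nat_lit 6) .nil .nil))))) (.nd (nat_lit 4) (.nd (nat_lit 5) 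
(.lf (nat_lit 93774) (.g (nat_lit 3198) (.e (nat_lit 2555) (nat_lit 159) (.e (nat_lit 24589) (nat_lit 0) (.e (nat_lit 1842) (nat_lit 123) (.e (nat_lit 548874) (nat_lit 5) (.e (nat_lit 1598) (nat_lit 111) (.e (nat_lit 360466) (nat_lit 3) (.e (nat_lit 516117) (nat_lit 1) (.e (nat_lit 164427) (nat_lit 278) .nil)))))))) (.g (nat_lit 7) .nil .nil))) 
(.lf (nat_lit 93806) (.g (nat_lit 1543) (.e (nat_lit 2561) (nat_lit 159) (.e (nat_lit 24608) (nat_lit 3) (.e (nat_lit 98372) (nat_lit 29) .nil))) .nil))) (.nd (nat_lit 5) 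
(.lf (nat_lit 93790) (.g (nat_lit 4689) (.e (nat_lit 2557) (nat_lit 159) (.e (nat_lit 24617) (nat_lit 7) (.e (nat_lit 319505) (nat_lit 10) (.e (nat_lit 618) (nat_lit 48) (.e (nat_lit 557109) (nat_lit 15) (.e (nat_lit 188455) (nat_lit 24) (.e (nat_lit 237312) (nat_lit 146) .nil))))))) (.g (nat_lit 6) .nil .nil))) 
(.lf (nat_lit 93822) (.g (nat_lit 1826) (.e (nat_lit 2569) (nat_lit 160) (.e (nat_lit 32807) (nat_lit 18) (.e (nat_lit 172086) (nat_lit 9) (.e (nat_lit 426402) (nat_lit 15) (.e (nat_lit 1859) (nat_lit 124) (.e (nat_lit 557103) (nat_lit 14) (.e (nat_lit 180285) (nat_lit 45) .nil))))))) (.g (nat_lit 7) .nil .nil)))))))) 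
(.nd (nat_lit 1) (.nd (nat_lit 2) (.nd (nat_lit 3) (.nd (nat_lit 4) (.nd (nat_lit 5) 
(.lf (nat_lit 93761) (.g (nat_lit 3273) (.e (nat_lit 2553) (nat_lit 159) (.e (nat_lit 24658) (nat_lit 13) (.e (nat_lit 393301) (nat_lit 27) (.e (nat_lit 491560) (nat_lit 10) (.e (nat_lit 344088) (nat_lit 18) .nil))))) .nil)) 
(.lf (nat_lit 93793) (.g (nat_lit 1812) (.e (nat_lit 2558) (nat_lit 159) (.e (nat_lit 24640) (nat_lit 10) (.e (nat_lit 344156) (nat_lit 36) (.e (nat_lit 638999) (nat_lit 8) .nil)))) .nil))) (.nd (nat_lit 5) 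
(.lf (nat_lit 93777) (.g (nat_lit 2327) (.e (nat_lit 2555) (nat_lit 159) (.e (nat_lit 24617) (nat_lit 7) (.e (nat_lit 319505) (nat_lit 10) (.e (nat_lit 618) (nat_lit 48) (.e (nat_lit 557100) (nat_lit 13) .nil))))) .nil)) 
(.lf (nat_lit 93809) (.g (nat_lit 1681) (.e (nat_lit 2569) (nat_lit 160) (.e (nat_lit 32807) (nat_lit 18) (.e (nat_lit 172032) (nat_lit 0) (.e (nat_lit 7545) (nat_lit 402) (.e (nat_lit 1238) (nat_lit 91) (.e (nat_lit 90172) (nat_lit 14) (.e (nat_lit 180285) (nat_lit 45) .nil))))))) (.g (nat_lit 6) .nil .nil))))) (.nd (nat_lit 4) (.nd (nat_lit 5) 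
(.lf (nat_lit 93769) (.g (nat_lit 599) (.e (nat_lit 2555) (nat_lit 159) (.e (nat_lit 24584) (nat_lit 0) (.e (nat_lit 1996) (nat_lit 137) .nil))) .nil)) 
(.lf (nat_lit 93801) (.g (nat_lit 2061) (.e (nat_lit 2559) (nat_lit 159) (.e (nat_lit 24640) (nat_lit 10) (.e (nat_lit 344156) (nat_lit 36) (.e (nat_lit 638999) (nat_lit 8) (.e (nat_lit 172113) (nat_lit 10) .nil))))) .nil))) (.nd (nat_lit 5) 
(.lf (nat_lit 93785) (.g (nat_lit 2382) (.e (nat_lit 2556) (nat_lit 159) (.e (nat_lit 24665) (nat_lit 14) (.e (nat_lit 401414) (nat_lit 0) (.e (nat_lit 3124) (nat_lit 193) .nil)))) .nil)) 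
(.lf (nat_lit 93817) (.g (nat_lit 1835) (.e (nat_lit 2569) (nat_lit 160) (.e (nat_lit 32807) (nat_lit 18) (.e (nat_lit 172085) (nat_lit 9) (.e (nat_lit 426402) (nat_lit 15) (.e (nat_lit 1849) (nat_lit 124) (.e (nat_lit 557103) (nat_lit 14) (.e (nat_lit 180285) (nat_lit 45) .nil))))))) (.g (nat_lit 7) .nil .nil)))))) (.nd (nat_lit 3) (.nd (nat_lit 4) (.nd (nat_lit 5) 
(.lf (nat_lit 93765) (.g (nat_lit 2352) (.e (nat_lit 2554) (nat_lit 159) (.e (nat_lit 24658) (nat_lit 13) (.e (nat_lit 393301) (nat_lit 27) (.e (nat_lit 491559) (nat_lit 10) .nil)))) .nil)) 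
(.lf (nat_lit 93797) (.g (nat_lit 1325) (.e (nat_lit 2558) (nat_lit 159) (.e (nat_lit 24665) (nat_lit 14) (.e (nat_lit 409344) (nat_lit 18) .nil))) .nil))) (.nd (nat_lit 5) 
(.lf (nat_lit 93781) (.g (nat_lit 3393) (.e (nat_lit 2555) (nat_lit 159) (.e (nat_lit 24662) (nat_lit 14) (.e (nat_lit 401459) (nat_lit 13) (.e (nat_lit 483396) (nat_lit 24) .nil)))) .nil)) 
(.lf (nat_lit 93813) (.g (nat_lit 1238) (.e (nat_lit 2569) (nat_lit 160) (.e (nat_lit 32807) (nat_lit 18) (.e (nat_lit 172041) (nat_lit 0) (.e (nat_lit 7540) (nat_lit 402) (.e (nat_lit 1227) (nat_lit 91) .nil))))) .nil)))) (.nd (nat_lit 4) (.nd (nat_lit 5) 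
(.lf (nat_lit 93773) (.g (nat_lit 1735) (.e (nat_lit 2555) (nat_lit 159) (.e (nat_lit 24589) (nat_lit 0) (.e (nat_lit 1842) (nat_lit 123) (.e (nat_lit 548874) (nat_lit 5) (.e (nat_lit 1598) (nat_lit 111) .nil))))) .nil)) 
(.lf (nat_lit 93805) (.g (nat_lit 2141) (.e (nat_lit 2561) (nat_lit 159) (.e (nat_lit 24604) (nat_lit 2) (.e (nat_lit 90176) (nat_lit 15) (.e (nat_lit 188450) (nat_lit 23) (.e (nat_lit 204830) (nat_lit 18) .nil))))) .nil))) (.nd (nat_lit 5) 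
(.lf (nat_lit 93789) (.g (nat_lit 2400) (.e (nat_lit 2557) (nat_lit 159) (.e (nat_lit 24617) (nat_lit 7) (.e (nat_lit 319505) (nat_lit 10) (.e (nat_lit 618) (nat_lit 48) (.e (nat_lit 557109) (nat_lit 15) (.e (nat_lit 188446) (nat_lit 21) (.e (nat_lit 171776) (nat_lit 146) .nil))))))) (.g (nat_lit 4) .nil .nil))) 
(.lf (nat_lit 93821) (.g (nat_lit 1507) (.e (nat_lit 2569) (nat_lit 160) (.e (nat_lit 32807) (nat_lit 18) (.e (nat_lit 172086) (nat_lit 9) (.e (nat_lit 426402) (nat_lit 15) (.e (nat_lit 1849) (nat_lit 124) (.e (nat_lit 557103) (nat_lit 14) (.e (nat_lit 180285) (nat_lit 45) .nil))))))) (.g (nat_lit 7) .nil .nil))))))) (.nd (nat_lit 2) (.nd (nat_lit 3) (.nd (nat_lit 4) (.nd (nat_lit 5) 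
(.lf (nat_lit 93763) (.g (nat_lit 3697) (.e (nat_lit 2554) (nat_lit 159) (.e (nat_lit 24608) (nat_lit 3) (.e (nat_lit 98373) (nat_lit 29) (.e (nat_lit 450587) (nat_lit 10) (.e (nat_lit 573475) (nat_lit 12) .nil))))) .nil)) 
(.lf (nat_lit 93795) (.g (nat_lit 2686) (.e (nat_lit 2558) (nat_lit 159) (.e (nat_lit 24658) (nat_lit 13) (.e (nat_lit 393301) (nat_lit 27) (.e (nat_lit 491560) (nat_lit 10) .nil)))) .nil))) (.nd (nat_lit 5) 
(.lf (nat_lit 93779) (.g (nat_lit 2697) (.e (nat_lit 2555) (nat_lit 159) (.e (nat_lit 24662) (nat_lit 14) (.e (nat_lit 401459) (nat_lit 13) (.e (nat_lit 483394) (nat_lit 24) .nil)))) .nil)) 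
(.lf (nat_lit 93811) (.g (nat_lit 1681) (.e (nat_lit 2569) (nat_lit 160) (.e (nat_lit 32807) (nat_lit 18) (.e (nat_lit 172040) (nat_lit 0) (.e (nat_lit 7540) (nat_lit 402) (.e (nat_lit 1228) (nat_lit 91) (.e (nat_lit 90172) (nat_lit 14) (.e (nat_lit 180285) (nat_lit 45) .nil))))))) (.g (nat_lit 6) .nil .nil))))) (.nd (nat_lit 4) (.nd (nat_lit 5) 
(.lf (nat_lit 93771) (.g (nat_lit 3326) (.e (nat_lit 2555) (nat_lit 159) (.e (nat_lit 24588) (nat_lit 0) (.e (nat_lit 1842) (nat_lit 123) (.e (nat_lit 548874) (nat_lit 5) (.e (nat_lit 1598) (nat_lit 111) (.e (nat_lit 360466) (nat_lit 3) (.e (nat_lit 516117) (nat_lit 1) (.e (nat_lit 164427) (nat_lit 278) .nil)))))))) (.g (nat_lit 7) .nil .nil))) 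
(.lf (nat_lit 93803) (.g (nat_lit 2091) (.e (nat_lit 2559) (nat_lit 159) (.e (nat_lit 24665) (nat_lit 14) (.e (nat_lit 409344) (nat_lit 18) (.e (nat_lit 98373) (nat_lit 29) (.e (nat_lit 450560) (nat_lit 0) .nil))))) .nil))) (.nd (nat_lit 5) 
(.lf (nat_lit 93787) (.g (nat_lit 2673) (.e (nat_lit 2557) (nat_lit 159) (.e (nat_lit 24604) (nat_lit 2) (.e (nat_lit 90176) (nat_lit 15) (.e (nat_lit 188450) (nat_lit 23) (.e (nat_lit 204830) (nat_lit 18) (.e (nat_lit 65280) (nat_lit 233) .nil)))))) (.g (nat_lit 5) .nil .nil))) 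
(.lf (nat_lit 93819) (.g (nat_lit 2005) (.e (nat_lit 2569) (nat_lit 160) (.e (nat_lit 32807) (nat_lit 18) (.e (nat_lit 172086) (nat_lit 9) (.e (nat_lit 426363) (nat_lit 15) (.e (nat_lit 1859) (nat_lit 124) (.e (nat_lit 557103) (nat_lit 14) (.e (nat_lit 180285) (nat_lit 45) .nil))))))) (.g (nat_lit 7) .nil .nil)))))) (.nd (nat_lit 3) (.nd (nat_lit 4) (.nd (nat_lit 5) 
(.lf (nat_lit 93767) (.g (nat_lit 3030) (.e (nat_lit 2554) (nat_lit 159) (.e (nat_lit 24662) (nat_lit 14) (.e (nat_lit 401459) (nat_lit 13) (.e (nat_lit 483393) (nat_lit 23) .nil)))) .nil)) 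
(.lf (nat_lit 93799) (.g (nat_lit 1910) (.e (nat_lit 2559) (nat_lit 159) (.e (nat_lit 24640) (nat_lit 10) (.e (nat_lit 344156) (nat_lit 36) (.e (nat_lit 638998) (nat_lit 8) (.e (nat_lit 172106) (nat_lit 10) .nil))))) .nil))) (.nd (nat_lit 5) 
(.lf (nat_lit 93783) (.g (nat_lit 2782) (.e (nat_lit 2556) (nat_lit 159) (.e (nat_lit 24662) (nat_lit 14) (.e (nat_lit 401459) (nat_lit 13) (.e (nat_lit 483394) (nat_lit 24) .nil)))) .nil)) 
(.lf (nat_lit 93815) (.g (nat_lit 2360) (.e (nat_lit 2569) (nat_lit 160) (.e (nat_lit 32807) (nat_lit 18) (.e (nat_lit 172085) (nat_lit 9) (.e (nat_lit 426363) (nat_lit 15) (.e (nat_lit 1859) (nat_lit 124) (.e (nat_lit 557103) (nat_lit 14) (.e (nat_lit 180285) (nat_lit 45) .nil))))))) (.g (nat_lit 7) .nil .nil))))) (.nd (nat_lit 4) (.nd (nat_lit 5) 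
(.lf (nat_lit 93775) (.g (nat_lit 3350) (.e (nat_lit 2555) (nat_lit 159) (.e (nat_lit 24589) (nat_lit 0) (.e (nat_lit 1842) (nat_lit 123) (.e (nat_lit 548874) (nat_lit 5) (.e (nat_lit 1598) (nat_lit 111) (.e (nat_lit 360466) (nat_lit 3) (.e (nat_lit 516120) (nat_lit 1) (.e (nat_lit 164427) (nat_lit 278) .nil)))))))) (.g (nat_lit 7) .nil .nil))) 
(.lf (nat_lit 93807) (.g (nat_lit 1306) (.e (nat_lit 2567) (nat_lit 160) (.e (nat_lit 32783) (nat_lit 7) (.e (nat_lit 16438) (nat_lit 9) (.e (nat_lit 426562) (nat_lit 33) (.e (nat_lit 385041) (nat_lit 19) (.e (nat_lit 164269) (nat_lit 221) .nil)))))) (.g (nat_lit 0) .nil .nil)))) (.nd (nat_lit 5) 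
(.lf (nat_lit 93791) (.g (nat_lit 2792) (.e (nat_lit 2557) (nat_lit 159) (.e (nat_lit 24662) (nat_lit 14) (.e (nat_lit 401459) (nat_lit 13) (.e (nat_lit 483394) (nat_lit 24) .nil)))) .nil)) 
(.lf (nat_lit 93823) (.g (nat_lit 813) (.e (nat_lit 2569) (nat_lit 160) (.e (nat_lit 32807) (nat_lit 18) (.e (nat_lit 172087) (nat_lit 9) (.e (nat_lit 426402) (nat_lit 15) (.e (nat_lit 1849) (nat_lit 124) (.e (nat_lit 557103) (nat_lit 14) (.e (nat_lit 180285) (nat_lit 45) .nil))))))) (.g (nat_lit 4) .nil .nil)))))))))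

noncomputable def tv1288 : DT := (.nd (nat_lit 0) (.nd (nat_lit 1) (.nd (nat_lit 2) (.nd (nat_lit 3) (.nd (nat_lit 4) (.nd (nat_lit 5) 
(.lf (nat_lit 93824) (.g (nat_lit 2472) (.e (nat_lit 2569) (nat_lit 160) (.e (nat_lit 32809) (nat_lit 20) (.e (nat_lit 188418) (nat_lit 0) (.e (nat_lit 1855) (nat_lit 124) (.e (nat_lit 557103) (nat_lit 14) (.e (nat_lit 180285) (nat_lit 45) .nil)))))) (.g (nat_lit 6) .nil .nil))) 
(.lf (nat_lit 93856) (.g (nat_lit 1919) (.e (nat_lit 2571) (nat_lit 160) (.e (nat_lit 32807) (nat_lit 18) (.e (nat_lit 172086) (nat_lit 9) (.e (nat_lit 426363) (nat_lit 15) (.e (nat_lit 1859) (nat_lit 124) (.e (nat_lit 557103) (nat_lit 14) (.e (nat_lit 180285) (nat_lit 45) .nil))))))) (.g (nat_lit 7) .nil .nil)))) (.nd (nat_lit 5) 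
(.lf (nat_lit 93840) (.g (nat_lit 1352) (.e (nat_lit 2570) (nat_lit 160) (.e (nat_lit 32807) (nat_lit 18) (.e (nat_lit 172086) (nat_lit 9) (.e (nat_lit 426402) (nat_lit 15) (.e (nat_lit 1849) (nat_lit 124) (.e (nat_lit 557103) (nat_lit 14) (.e (nat_lit 180285) (nat_lit 45) .nil))))))) (.g (nat_lit 7) .nil .nil))) 
(.lf (nat_lit 93872) (.g (nat_lit 1632) (.e (nat_lit 2576) (nat_lit 161) (.e (nat_lit 40995) (nat_lit 11) (.e (nat_lit 24608) (nat_lit 3) (.e (nat_lit 98372) (nat_lit 29) .nil)))) .nil)))) (.nd (nat_lit 4) (.nd (nat_lit 5) 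
(.lf (nat_lit 93832) (.g (nat_lit 1192) (.e (nat_lit 2570) (nat_lit 160) (.e (nat_lit 32807) (nat_lit 18) (.e (nat_lit 172041) (nat_lit 0) (.e (nat_lit 7540) (nat_lit 402) (.e (nat_lit 1227) (nat_lit 91) .nil))))) .nil)) 
(.lf (nat_lit 93864) (.g (nat_lit 1945) (.e (nat_lit 2571) (nat_lit 160) (.e (nat_lit 32809) (nat_lit 20) (.e (nat_lit 188418) (nat_lit 0) (.e (nat_lit 1856) (nat_lit 124) (.e (nat_lit 557105) (nat_lit 14) (.e (nat_lit 180285) (nat_lit 45) .nil)))))) (.g (nat_lit 5) .nil .nil)))) (.nd (nat_lit 5) 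
(.lf (nat_lit 93848) (.g (nat_lit 1096) (.e (nat_lit 2571) (nat_lit 160) (.e (nat_lit 32807) (nat_lit 18) (.e (nat_lit 172034) (nat_lit 0) (.e (nat_lit 7541) (nat_lit 402) (.e (nat_lit 1228) (nat_lit 91) (.e (nat_lit 90172) (nat_lit 14) (.e (nat_lit 180285) (nat_lit 45) .nil))))))) (.g (nat_lit 5) .nil .nil))) 
(.lf (nat_lit 93880) (.g (nat_lit 1640) (.e (nat_lit 2576) (nat_lit 161) (.e (nat_lit 40996) (nat_lit 11) (.e (nat_lit 24654) (nat_lit 13) (.e (nat_lit 393263) (nat_lit 22) (.e (nat_lit 417817) (nat_lit 10) (.e (nat_lit 4876) (nat_lit 287) .nil)))))) (.g (nat_lit 5) .nil .nil)))))) (.nd (nat_lit 3) (.nd (nat_lit 4) (.nd (nat_lit 5) 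
(.lf (nat_lit 93828) (.g (nat_lit 1729) (.e (nat_lit 2570) (nat_lit 160) (.e (nat_lit 32807) (nat_lit 18) (.e (nat_lit 172032) (nat_lit 0) (.e (nat_lit 7545) (nat_lit 402) (.e (nat_lit 1228) (nat_lit 91) (.e (nat_lit 90172) (nat_lit 14) (.e (nat_lit 180285) (nat_lit 45) .nil))))))) (.g (nat_lit 7) .nil .nil))) 
(.lf (nat_lit 93860) (.g (nat_lit 751) (.e (nat_lit 2571) (nat_lit 160) (.e (nat_lit 32807) (nat_lit 18) (.e (nat_lit 172087) (nat_lit 9) (.e (nat_lit 426402) (nat_lit 15) (.e (nat_lit 1849) (nat_lit 124) (.e (nat_lit 557103) (nat_lit 14) (.e (nat_lit 180285) (nat_lit 45) .nil))))))) (.g (nat_lit 4) .nil .nil)))) (.nd (nat_lit 5) 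
(.lf (nat_lit 93844) (.g (nat_lit 2691) (.e (nat_lit 2570) (nat_lit 160) (.e (nat_lit 32809) (nat_lit 20) (.e (nat_lit 188420) (nat_lit 0) (.e (nat_lit 1855) (nat_lit 124) (.e (nat_lit 557103) (nat_lit 14) (.e (nat_lit 180288) (nat_lit 45) .nil)))))) (.g (nat_lit 0) .nil .nil))) 
(.lf (nat_lit 93876) (.g (nat_lit 966) (.e (nat_lit 2576) (nat_lit 161) (.e (nat_lit 40995) (nat_lit 11) (.e (nat_lit 24660) (nat_lit 13) (.e (nat_lit 393238) (nat_lit 17) (.e (nat_lit 7107) (nat_lit 380) .nil))))) .nil)))) (.nd (nat_lit 4) (.nd (nat_lit 5) 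
(.lf (nat_lit 93836) (.g (nat_lit 1723) (.e (nat_lit 2570) (nat_lit 160) (.e (nat_lit 32807) (nat_lit 18) (.e (nat_lit 172085) (nat_lit 9) (.e (nat_lit 426402) (nat_lit 15) (.e (nat_lit 1849) (nat_lit 124) (.e (nat_lit 557103) (nat_lit 14) (.e (nat_lit 180285) (nat_lit 45) .nil))))))) (.g (nat_lit 7) .nil .nil))) 
(.lf (nat_lit 93868) (.g (nat_lit 3254) (.e (nat_lit 2574) (nat_lit 161) (.e (nat_lit 40997) (nat_lit 11) (.e (nat_lit 24617) (nat_lit 7) (.e (nat_lit 319533) (nat_lit 16) (.e (nat_lit 286753) (nat_lit 10) (.e (nat_lit 344160) (nat_lit 37) (.e (nat_lit 647204) (nat_lit 14) .nil))))))) (.g (nat_lit 7) .nil .nil)))) (.nd (nat_lit 5) 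
(.lf (nat_lit 93852) (.g (nat_lit 2273) (.e (nat_lit 2571) (nat_lit 160) (.e (nat_lit 32807) (nat_lit 18) (.e (nat_lit 172085) (nat_lit 9) (.e (nat_lit 426363) (nat_lit 15) (.e (nat_lit 1859) (nat_lit 124) (.e (nat_lit 557103) (nat_lit 14) (.e (nat_lit 180285) (nat_lit 45) .nil))))))) (.g (nat_lit 7) .nil .nil))) 
(.lf (nat_lit 93884) (.g (nat_lit 1296) (.e (nat_lit 2576) (nat_lit 161) (.e (nat_lit 40996) (nat_lit 11) (.e (nat_lit 24658) (nat_lit 13) (.e (nat_lit 393263) (nat_lit 22) .nil)))) .nil)))))) (.nd (nat_lit 2) (.nd (nat_lit 3) (.nd (nat_lit 4) (.nd (nat_lit 5) 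
(.lf (nat_lit 93826) (.g (nat_lit 1855) (.e (nat_lit 2569) (nat_lit 160) (.e (nat_lit 32809) (nat_lit 20) (.e (nat_lit 188418) (nat_lit 0) (.e (nat_lit 1856) (nat_lit 124) (.e (nat_lit 557105) (nat_lit 14) (.e (nat_lit 188160) (nat_lit 45) .nil)))))) (.g (nat_lit 5) .nil .nil))) 
(.lf (nat_lit 93858) (.g (nat_lit 1402) (.e (nat_lit 2571) (nat_lit 160) (.e (nat_lit 32807) (nat_lit 18) (.e (nat_lit 172086) (nat_lit 9) (.e (nat_lit 426402) (nat_lit 15) (.e (nat_lit 1849) (nat_lit 124) (.e (nat_lit 557103) (nat_lit 14) (.e (nat_lit 180285) (nat_lit 45) .nil))))))) (.g (nat_lit 7) .nil .nil)))) (.nd (nat_lit 5) 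
(.lf (nat_lit 93842) (.g (nat_lit 2396) (.e (nat_lit 2570) (nat_lit 160) (.e (nat_lit 32809) (nat_lit 20) (.e (nat_lit 188418) (nat_lit 0) (.e (nat_lit 1855) (nat_lit 124) (.e (nat_lit 557103) (nat_lit 14) (.e (nat_lit 180285) (nat_lit 45) .nil)))))) (.g (nat_lit 0) .nil .nil))) 
(.lf (nat_lit 93874) (.g (nat_lit 1188) (.e (nat_lit 2576) (nat_lit 161) (.e (nat_lit 40995) (nat_lit 11) (.e (nat_lit 24628) (nat_lit 9) (.e (nat_lit 336438) (nat_lit 31) (.e (nat_lit 458769) (nat_lit 16) (.e (nat_lit 164269) (nat_lit 221) .nil)))))) (.g (nat_lit 4) .nil .nil))))) (.nd (nat_lit 4) (.nd (nat_lit 5) 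
(.lf (nat_lit 93834) (.g (nat_lit 2239) (.e (nat_lit 2570) (nat_lit 160) (.e (nat_lit 32807) (nat_lit 18) (.e (nat_lit 172085) (nat_lit 9) (.e (nat_lit 426363) (nat_lit 15) (.e (nat_lit 1859) (nat_lit 124) (.e (nat_lit 557103) (nat_lit 14) (.e (nat_lit 180285) (nat_lit 45) .nil))))))) (.g (nat_lit 7) .nil .nil))) 
(.lf (nat_lit 93866) (.g (nat_lit 3321) (.e (nat_lit 2574) (nat_lit 161) (.e (nat_lit 40996) (nat_lit 11) (.e (nat_lit 24608) (nat_lit 3) (.e (nat_lit 98372) (nat_lit 29) (.e (nat_lit 450588) (nat_lit 10) .nil))))) .nil))) (.nd (nat_lit 5) 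
(.lf (nat_lit 93850) (.g (nat_lit 1197) (.e (nat_lit 2571) (nat_lit 160) (.e (nat_lit 32807) (nat_lit 18) (.e (nat_lit 172041) (nat_lit 0) (.e (nat_lit 7540) (nat_lit 402) (.e (nat_lit 1227) (nat_lit 91) .nil))))) .nil)) 
(.lf (nat_lit 93882) (.g (nat_lit 842) (.e (nat_lit 2576) (nat_lit 161) (.e (nat_lit 40996) (nat_lit 11) (.e (nat_lit 24657) (nat_lit 13) (.e (nat_lit 401152) (nat_lit 17) .nil)))) .nil))))) (.nd (nat_lit 3) (.nd (nat_lit 4) (.nd (nat_lit 5) 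
(.lf (nat_lit 93830) (.g (nat_lit 1089) (.e (nat_lit 2570) (nat_lit 160) (.e (nat_lit 32807) (nat_lit 18) (.e (nat_lit 172034) (nat_lit 0) (.e (nat_lit 7541) (nat_lit 402) (.e (nat_lit 1228) (nat_lit 91) (.e (nat_lit 90172) (nat_lit 14) (.e (nat_lit 180285) (nat_lit 45) .nil))))))) (.g (nat_lit 5) .nil .nil))) 
(.lf (nat_lit 93862) (.g (nat_lit 2035) (.e (nat_lit 2571) (nat_lit 160) (.e (nat_lit 32809) (nat_lit 20) (.e (nat_lit 188418) (nat_lit 0) (.e (nat_lit 1846) (nat_lit 124) (.e (nat_lit 557103) (nat_lit 14) (.e (nat_lit 180285) (nat_lit 45) .nil)))))) (.g (nat_lit 6) .nil .nil)))) (.nd (nat_lit 5) 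
(.lf (nat_lit 93846) (.g (nat_lit 1742) (.e (nat_lit 2571) (nat_lit 160) (.e (nat_lit 32807) (nat_lit 18) (.e (nat_lit 172032) (nat_lit 0) (.e (nat_lit 7545) (nat_lit 402) (.e (nat_lit 1228) (nat_lit 91) (.e (nat_lit 90172) (nat_lit 14) (.e (nat_lit 180285) (nat_lit 45) .nil))))))) (.g (nat_lit 7) .nil .nil))) 
(.lf (nat_lit 93878) (.g (nat_lit 1649) (.e (nat_lit 2576) (nat_lit 161) (.e (nat_lit 40996) (nat_lit 11) (.e (nat_lit 24628) (nat_lit 9) (.e (nat_lit 336438) (nat_lit 31) (.e (nat_lit 458769) (nat_lit 16) (.e (nat_lit 164269) (nat_lit 221) .nil)))))) (.g (nat_lit 0) .nil .nil))))) (.nd (nat_lit 4) (.nd (nat_lit 5) 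
(.lf (nat_lit 93838) (.g (nat_lit 1857) (.e (nat_lit 2570) (nat_lit 160) (.e (nat_lit 32807) (nat_lit 18) (.e (nat_lit 172086) (nat_lit 9) (.e (nat_lit 426363) (nat_lit 15) (.e (nat_lit 1859) (nat_lit 124) (.e (nat_lit 557103) (nat_lit 14) (.e (nat_lit 180285) (nat_lit 45) .nil))))))) (.g (nat_lit 7) .nil .nil))) 
(.lf (nat_lit 93870) (.g (nat_lit 3150) (.e (nat_lit 2576) (nat_lit 161) (.e (nat_lit 40972) (nat_lit 9) (.e (nat_lit 232) (nat_lit 21) (.e (nat_lit 336060) (nat_lit 7) (.e (nat_lit 319534) (nat_lit 16) (.e (nat_lit 286756) (nat_lit 10) (.e (nat_lit 344160) (nat_lit 37) (.e (nat_lit 655104) (nat_lit 14) .nil)))))))) (.g (nat_lit 7) .nil .nil)))) (.nd (nat_lit 5) 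
(.lf (nat_lit 93854) (.g (nat_lit 1748) (.e (nat_lit 2571) (nat_lit 160) (.e (nat_lit 32807) (nat_lit 18) (.e (nat_lit 172085) (nat_lit 9) (.e (nat_lit 426402) (nat_lit 15) (.e (nat_lit 1849) (nat_lit 124) (.e (nat_lit 557103) (nat_lit 14) (.e (nat_lit 180285) (nat_lit 45) .nil))))))) (.g (nat_lit 7) .nil .nil))) 
(.lf (nat_lit 93886) (.g (nat_lit 1667) (.e (nat_lit 2576) (nat_lit 161) (.e (nat_lit 40996) (nat_lit 11) (.e (nat_lit 24658) (nat_lit 13) (.e (nat_lit 393265) (nat_lit 22) (.e (nat_lit 417817) (nat_lit 10) .nil))))) .nil))))))) (.nd (nat_lit 1) (.nd (nat_lit 2) (.nd (nat_lit 3) (.nd (nat_lit 4) (.nd (nat_lit 5) 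
(.lf (nat_lit 93825) (.g (nat_lit 2012) (.e (nat_lit 2569) (nat_lit 160) (.e (nat_lit 32809) (nat_lit 20) (.e (nat_lit 188418) (nat_lit 0) (.e (nat_lit 1856) (nat_lit 124) (.e (nat_lit 557105) (nat_lit 14) (.e (nat_lit 180285) (nat_lit 45) .nil)))))) (.g (nat_lit 5) .nil .nil))) 
(.lf (nat_lit 93857) (.g (nat_lit 1700) (.e (nat_lit 2571) (nat_lit 160) (.e (nat_lit 32807) (nat_lit 18) (.e (nat_lit 172086) (nat_lit 9) (.e (nat_lit 426402) (nat_lit 15) (.e (nat_lit 1848) (nat_lit 124) (.e (nat_lit 557103) (nat_lit 14) (.e (nat_lit 180285) (nat_lit 45) .nil))))))) (.g (nat_lit 7) .nil .nil)))) (.nd (nat_lit 5) 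
(.lf (nat_lit 93841) (.g (nat_lit 747) (.e (nat_lit 2570) (nat_lit 160) (.e (nat_lit 32807) (nat_lit 18) (.e (nat_lit 172087) (nat_lit 9) (.e (nat_lit 426402) (nat_lit 15) (.e (nat_lit 1849) (nat_lit 124) (.e (nat_lit 557103) (nat_lit 14) (.e (nat_lit 180285) (nat_lit 45) .nil))))))) (.g (nat_lit 4) .nil .nil))) 
(.lf (nat_lit 93873) (.g (nat_lit 1373) (.e (nat_lit 2576) (nat_lit 161) (.e (nat_lit 40995) (nat_lit 11) (.e (nat_lit 24625) (nat_lit 9) (.e (nat_lit 336438) (nat_lit 31) (.e (nat_lit 458769) (nat_lit 16) .nil))))) .nil)))) (.nd (nat_lit 4) (.nd (nat_lit 5) 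
(.lf (nat_lit 93833) (.g (nat_lit 1248) (.e (nat_lit 2570) (nat_lit 160) (.e (nat_lit 32807) (nat_lit 18) (.e (nat_lit 172082) (nat_lit 7) (.e (nat_lit 409612) (nat_lit 10) (.e (nat_lit 7936) (nat_lit 43) (.e (nat_lit 516160) (nat_lit 10) (.e (nat_lit 434193) (nat_lit 13) .nil))))))) (.g (nat_lit 4) .nil .nil))) 
(.lf (nat_lit 93865) (.g (nat_lit 1711) (.e (nat_lit 2571) (nat_lit 160) (.e (nat_lit 32809) (nat_lit 20) (.e (nat_lit 188420) (nat_lit 0) (.e (nat_lit 1856) (nat_lit 124) (.e (nat_lit 557100) (nat_lit 13) (.e (nat_lit 172039) (nat_lit 0) (.e (nat_lit 7013) (nat_lit 377) .nil))))))) (.g (nat_lit 5) .nil .nil)))) (.nd (nat_lit 5) 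
(.lf (nat_lit 93849) (.g (nat_lit 2247) (.e (nat_lit 2571) (nat_lit 160) (.e (nat_lit 32807) (nat_lit 18) (.e (nat_lit 172040) (nat_lit 0) (.e (nat_lit 7540) (nat_lit 402) (.e (nat_lit 1238) (nat_lit 91) (.e (nat_lit 90172) (nat_lit 14) (.e (nat_lit 180285) (nat_lit 45) .nil))))))) (.g (nat_lit 7) .nil .nil))) 
(.lf (nat_lit 93881) (.g (nat_lit 924) (.e (nat_lit 2576) (nat_lit 161) (.e (nat_lit 40996) (nat_lit 11) (.e (nat_lit 24656) (nat_lit 13) (.e (nat_lit 401152) (nat_lit 17) (.e (nat_lit 7098) (nat_lit 380) (.e (nat_lit 164269) (nat_lit 221) .nil)))))) (.g (nat_lit 5) .nil .nil)))))) (.nd (nat_lit 3) (.nd (nat_lit 4) (.nd (nat_lit 5) 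
(.lf (nat_lit 93829) (.g (nat_lit 1574) (.e (nat_lit 2570) (nat_lit 160) (.e (nat_lit 32807) (nat_lit 18) (.e (nat_lit 172032) (nat_lit 0) (.e (nat_lit 7545) (nat_lit 402) (.e (nat_lit 1238) (nat_lit 91) (.e (nat_lit 90172) (nat_lit 14) (.e (nat_lit 180285) (nat_lit 45) .nil))))))) (.g (nat_lit 6) .nil .nil))) 
(.lf (nat_lit 93861) (.g (nat_lit 1265) (.e (nat_lit 2571) (nat_lit 160) (.e (nat_lit 32808) (nat_lit 19) (.e (nat_lit 180277) (nat_lit 32) (.e (nat_lit 1225) (nat_lit 91) (.e (nat_lit 90172) (nat_lit 14) (.e (nat_lit 180285) (nat_lit 45) .nil)))))) (.g (nat_lit 5) .nil .nil)))) (.nd (nat_lit 5) 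
(.lf (nat_lit 93845) (.g (nat_lit 1151) (.e (nat_lit 2571) (nat_lit 160) (.e (nat_lit 32807) (nat_lit 18) (.e (nat_lit 172032) (nat_lit 0) (.e (nat_lit 7540) (nat_lit 402) (.e (nat_lit 1238) (nat_lit 91) (.e (nat_lit 90172) (nat_lit 14) (.e (nat_lit 180285) (nat_lit 45) .nil))))))) (.g (nat_lit 4) .nil .nil))) 
(.lf (nat_lit 93877) (.g (nat_lit 1200) (.e (nat_lit 2576) (nat_lit 161) (.e (nat_lit 40995) (nat_lit 11) (.e (nat_lit 24665) (nat_lit 14) (.e (nat_lit 409344) (nat_lit 25) .nil)))) .nil)))) (.nd (nat_lit 4) (.nd (nat_lit 5) 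
(.lf (nat_lit 93837) (.g (nat_lit 2142) (.e (nat_lit 2570) (nat_lit 160) (.e (nat_lit 32807) (nat_lit 18) (.e (nat_lit 172085) (nat_lit 9) (.e (nat_lit 426402) (nat_lit 15) (.e (nat_lit 1859) (nat_lit 124) (.e (nat_lit 557103) (nat_lit 14) (.e (nat_lit 180285) (nat_lit 45) .nil))))))) (.g (nat_lit 7) .nil .nil))) 
(.lf (nat_lit 93869) (.g (nat_lit 1055) (.e (nat_lit 2575) (nat_lit 161) (.e (nat_lit 40996) (nat_lit 11) (.e (nat_lit 24654) (nat_lit 13) (.e (nat_lit 393263) (nat_lit 22) (.e (nat_lit 417817) (nat_lit 10) .nil))))) .nil))) (.nd (nat_lit 5) 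
(.lf (nat_lit 93853) (.g (nat_lit 2024) (.e (nat_lit 2571) (nat_lit 160) (.e (nat_lit 32807) (nat_lit 18) (.e (nat_lit 172085) (nat_lit 9) (.e (nat_lit 426402) (nat_lit 15) (.e (nat_lit 1848) (nat_lit 124) (.e (nat_lit 557103) (nat_lit 14) (.e (nat_lit 180285) (nat_lit 45) .nil))))))) (.g (nat_lit 7) .nil .nil))) 
(.lf (nat_lit 93885) (.g (nat_lit 1296) (.e (nat_lit 2576) (nat_lit 161) (.e (nat_lit 40996) (nat_lit 11) (.e (nat_lit 24658) (nat_lit 13) (.e (nat_lit 393264) (nat_lit 22) .nil)))) .nil)))))) (.nd (nat_lit 2) (.nd (nat_lit 3) (.nd (nat_lit 4) (.nd (nat_lit 5) 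
(.lf (nat_lit 93827) (.g (nat_lit 2731) (.e (nat_lit 2569) (nat_lit 160) (.e (nat_lit 32809) (nat_lit 20) (.e (nat_lit 188420) (nat_lit 0) (.e (nat_lit 1855) (nat_lit 124) (.e (nat_lit 557103) (nat_lit 14) (.e (nat_lit 180285) (nat_lit 45) .nil)))))) (.g (nat_lit 6) .nil .nil))) 
(.lf (nat_lit 93859) (.g (nat_lit 1711) (.e (nat_lit 2571) (nat_lit 160) (.e (nat_lit 32807) (nat_lit 18) (.e (nat_lit 172086) (nat_lit 9) (.e (nat_lit 426402) (nat_lit 15) (.e (nat_lit 1859) (nat_lit 124) (.e (nat_lit 557103) (nat_lit 14) (.e (nat_lit 180285) (nat_lit 45) .nil))))))) (.g (nat_lit 7) .nil .nil)))) (.nd (nat_lit 5) 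
(.lf (nat_lit 93843) (.g (nat_lit 1899) (.e (nat_lit 2570) (nat_lit 160) (.e (nat_lit 32809) (nat_lit 20) (.e (nat_lit 188418) (nat_lit 0) (.e (nat_lit 1856) (nat_lit 124) (.e (nat_lit 557105) (nat_lit 14) (.e (nat_lit 180285) (nat_lit 45) .nil)))))) (.g (nat_lit 5) .nil .nil))) 
(.lf (nat_lit 93875) (.g (nat_lit 498) (.e (nat_lit 2576) (nat_lit 161) (.e (nat_lit 40995) (nat_lit 11) (.e (nat_lit 24657) (nat_lit 13) (.e (nat_lit 401152) (nat_lit 17) .nil)))) .nil)))) (.nd (nat_lit 4) (.nd (nat_lit 5) 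
(.lf (nat_lit 93835) (.g (nat_lit 1988) (.e (nat_lit 2570) (nat_lit 160) (.e (nat_lit 32807) (nat_lit 18) (.e (nat_lit 172085) (nat_lit 9) (.e (nat_lit 426402) (nat_lit 15) (.e (nat_lit 1848) (nat_lit 124) (.e (nat_lit 557103) (nat_lit 14) (.e (nat_lit 180285) (nat_lit 45) .nil))))))) (.g (nat_lit 7) .nil .nil))) 
(.lf (nat_lit 93867) (.g (nat_lit 2587) (.e (nat_lit 2574) (nat_lit 161) (.e (nat_lit 40996) (nat_lit 11) (.e (nat_lit 24608) (nat_lit 3) (.e (nat_lit 98373) (nat_lit 29) (.e (nat_lit 450587) (nat_lit 10) .nil))))) .nil))) (.nd (nat_lit 5) 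
(.lf (nat_lit 93851) (.g (nat_lit 1252) (.e (nat_lit 2571) (nat_lit 160) (.e (nat_lit 32807) (nat_lit 18) (.e (nat_lit 172082) (nat_lit 7) (.e (nat_lit 409612) (nat_lit 10) (.e (nat_lit 7936) (nat_lit 43) (.e (nat_lit 516160) (nat_lit 10) (.e (nat_lit 434193) (nat_lit 13) .nil))))))) (.g (nat_lit 4) .nil .nil))) 
(.lf (nat_lit 93883) (.g (nat_lit 1949) (.e (nat_lit 2576) (nat_lit 161) (.e (nat_lit 40996) (nat_lit 11) (.e (nat_lit 24658) (nat_lit 13) (.e (nat_lit 393238) (nat_lit 17) (.e (nat_lit 7101) (nat_lit 380) .nil))))) .nil))))) (.nd (nat_lit 3) (.nd (nat_lit 4) (.nd (nat_lit 5) 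
(.lf (nat_lit 93831) (.g (nat_lit 2237) (.e (nat_lit 2570) (nat_lit 160) (.e (nat_lit 32807) (nat_lit 18) (.e (nat_lit 172040) (nat_lit 0) (.e (nat_lit 7540) (nat_lit 402) (.e (nat_lit 1238) (nat_lit 91) (.e (nat_lit 90172) (nat_lit 14) (.e (nat_lit 180285) (nat_lit 45) .nil))))))) (.g (nat_lit 7) .nil .nil))) 
(.lf (nat_lit 93863) (.g (nat_lit 2475) (.e (nat_lit 2571) (nat_lit 160) (.e (nat_lit 32809) (nat_lit 20) (.e (nat_lit 188418) (nat_lit 0) (.e (nat_lit 1855) (nat_lit 124) (.e (nat_lit 557103) (nat_lit 14) (.e (nat_lit 180285) (nat_lit 45) .nil)))))) (.g (nat_lit 0) .nil .nil)))) (.nd (nat_lit 5) 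
(.lf (nat_lit 93847) (.g (nat_lit 1589) (.e (nat_lit 2571) (nat_lit 160) (.e (nat_lit 32807) (nat_lit 18) (.e (nat_lit 172032) (nat_lit 0) (.e (nat_lit 7545) (nat_lit 402) (.e (nat_lit 1238) (nat_lit 91) (.e (nat_lit 90172) (nat_lit 14) (.e (nat_lit 180285) (nat_lit 45) .nil))))))) (.g (nat_lit 6) .nil .nil))) 
(.lf (nat_lit 93879) (.g (nat_lit 1686) (.e (nat_lit 2576) (nat_lit 161) (.e (nat_lit 40996) (nat_lit 11) (.e (nat_lit 24654) (nat_lit 13) (.e (nat_lit 393263) (nat_lit 22) (.e (nat_lit 417817) (nat_lit 10) (.e (nat_lit 4859) (nat_lit 287) .nil)))))) (.g (nat_lit 6) .nil .nil))))) (.nd (nat_lit 4) (.nd (nat_lit 5) 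
(.lf (nat_lit 93839) (.g (nat_lit 1639) (.e (nat_lit 2570) (nat_lit 160) (.e (nat_lit 32807) (nat_lit 18) (.e (nat_lit 172086) (nat_lit 9) (.e (nat_lit 426402) (nat_lit 15) (.e (nat_lit 1848) (nat_lit 124) (.e (nat_lit 557103) (nat_lit 14) (.e (nat_lit 180285) (nat_lit 45) .nil))))))) (.g (nat_lit 7) .nil .nil))) 
(.lf (nat_lit 93871) (.g (nat_lit 1415) (.e (nat_lit 2576) (nat_lit 161) (.e (nat_lit 40994) (nat_lit 11) (.e (nat_lit 24628) (nat_lit 9) (.e (nat_lit 336438) (nat_lit 31) (.e (nat_lit 458769) (nat_lit 16) (.e (nat_lit 164269) (nat_lit 221) .nil)))))) (.g (nat_lit 5) .nil .nil)))) (.nd (nat_lit 5) 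
(.lf (nat_lit 93855) (.g (nat_lit 2174) (.e (nat_lit 2571) (nat_lit 160) (.e (nat_lit 32807) (nat_lit 18) (.e (nat_lit 172085) (nat_lit 9) (.e (nat_lit 426402) (nat_lit 15) (.e (nat_lit 1859) (nat_lit 124) (.e (nat_lit 557103) (nat_lit 14) (.e (nat_lit 180285) (nat_lit 45) .nil))))))) (.g (nat_lit 7) .nil .nil))) 
(.lf (nat_lit 93887) (.g (nat_lit 587) (.e (nat_lit 2576) (nat_lit 161) (.e (nat_lit 40997) (nat_lit 11) (.e (nat_lit 24628) (nat_lit 9) (.e (nat_lit 336438) (nat_lit 31) .nil)))) .nil))))))))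

noncomputable def tv1289 : DT := (.nd (nat_lit 0) (.nd (nat_lit 1) (.nd (nat_lit 2) (.nd (nat_lit 3) (.nd (nat_lit 4) (.nd (nat_lit 5) 
(.lf (nat_lit 93888) (.g (nat_lit 1441) (.e (nat_lit 2576) (nat_lit 161) (.e (nat_lit 40997) (nat_lit 11) (.e (nat_lit 24628) (nat_lit 9) (.e (nat_lit 336438) (nat_lit 31) (.e (nat_lit 458769) (nat_lit 16) (.e (nat_lit 164269) (nat_lit 221) .nil)))))) (.g (nat_lit 6) .nil .nil))) 
(.lf (nat_lit 93920) (.g (nat_lit 3577) (.e (nat_lit 2579) (nat_lit 161) (.e (nat_lit 40965) (nat_lit 0) (.e (nat_lit 1448) (nat_lit 108) (.e (nat_lit 336060) (nat_lit 7) (.e (nat_lit 319505) (nat_lit 10) (.e (nat_lit 618) (nat_lit 48) (.e (nat_lit 557103) (nat_lit 14) (.e (nat_lit 180285) (nat_lit 45) .nil)))))))) (.g (nat_lit 8) .nil .nil)))) (.nd (nat_lit 5) 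
(.lf (nat_lit 93904) (.g (nat_lit 1792) (.e (nat_lit 2577) (nat_lit 161) (.e (nat_lit 40965) (nat_lit 0) (.e (nat_lit 1597) (nat_lit 111) (.e (nat_lit 360477) (nat_lit 11) (.e (nat_lit 581652) (nat_lit 5) (.e (nat_lit 180287) (nat_lit 45) .nil)))))) (.g (nat_lit 6) .nil .nil))) 
(.lf (nat_lit 93936) (.g (nat_lit 795) (.e (nat_lit 2579) (nat_lit 161) (.e (nat_lit 40965) (nat_lit 0) (.e (nat_lit 1597) (nat_lit 111) (.e (nat_lit 368384) (nat_lit 5) .nil)))) .nil)))) (.nd (nat_lit 4) (.nd (nat_lit 5) 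
(.lf (nat_lit 93896) (.g (nat_lit 1019) (.e (nat_lit 2577) (nat_lit 161) (.e (nat_lit 40965) (nat_lit 0) (.e (nat_lit 1574) (nat_lit 110) (.e (nat_lit 352269) (nat_lit 7) (.e (nat_lit 245777) (nat_lit 5) (.e (nat_lit 180287) (nat_lit 45) .nil)))))) (.g (nat_lit 6) .nil .nil))) 
(.lf (nat_lit 93928) (.g (nat_lit 1058) (.e (nat_lit 2579) (nat_lit 161) (.e (nat_lit 40965) (nat_lit 0) (.e (nat_lit 1574) (nat_lit 110) (.e (nat_lit 352269) (nat_lit 7) (.e (nat_lit 245777) (nat_lit 5) (.e (nat_lit 180284) (nat_lit 45) .nil)))))) (.g (nat_lit 0) .nil .nil)))) (.nd (nat_lit 5) 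
(.lf (nat_lit 93912) (.g (nat_lit 204) (.e (nat_lit 2578) (nat_lit 161) (.e (nat_lit 40964) (nat_lit 0) (.e (nat_lit 1585) (nat_lit 111) (.e (nat_lit 368384) (nat_lit 5) .nil)))) .nil)) 
(.lf (nat_lit 93944) (.g (nat_lit 2658) (.e (nat_lit 2579) (nat_lit 161) (.e (nat_lit 40993) (nat_lit 11) (.e (nat_lit 24660) (nat_lit 13) (.e (nat_lit 393260) (nat_lit 21) (.e (nat_lit 409617) (nat_lit 10) (.e (nat_lit 4934) (nat_lit 287) .nil)))))) (.g (nat_lit 0) .nil .nil)))))) (.nd (nat_lit 3) (.nd (nat_lit 4) (.nd (nat_lit 5) 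
(.lf (nat_lit 93892) (.g (nat_lit 660) (.e (nat_lit 2577) (nat_lit 161) (.e (nat_lit 40965) (nat_lit 0) (.e (nat_lit 1558) (nat_lit 110) (.e (nat_lit 352269) (nat_lit 7) (.e (nat_lit 245777) (nat_lit 5) (.e (nat_lit 180287) (nat_lit 45) .nil)))))) (.g (nat_lit 5) .nil .nil))) 
(.lf (nat_lit 93924) (.g (nat_lit 690) (.e (nat_lit 2579) (nat_lit 161) (.e (nat_lit 40965) (nat_lit 0) (.e (nat_lit 1558) (nat_lit 110) (.e (nat_lit 352269) (nat_lit 7) (.e (nat_lit 245777) (nat_lit 5) (.e (nat_lit 180284) (nat_lit 45) .nil)))))) (.g (nat_lit 0) .nil .nil)))) (.nd (nat_lit 5) 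
(.lf (nat_lit 93908) (.g (nat_lit 2358) (.e (nat_lit 2577) (nat_lit 161) (.e (nat_lit 40996) (nat_lit 11) (.e (nat_lit 24660) (nat_lit 13) (.e (nat_lit 393260) (nat_lit 21) (.e (nat_lit 409617) (nat_lit 10) (.e (nat_lit 4926) (nat_lit 287) .nil)))))) (.g (nat_lit 5) .nil .nil))) 
(.lf (nat_lit 93940) (.g (nat_lit 1055) (.e (nat_lit 2579) (nat_lit 161) (.e (nat_lit 40965) (nat_lit 0) (.e (nat_lit 1597) (nat_lit 111) (.e (nat_lit 368384) (nat_lit 11) (.e (nat_lit 581652) (nat_lit 5) (.e (nat_lit 180284) (nat_lit 45) .nil)))))) (.g (nat_lit 5) .nil .nil))))) (.nd (nat_lit 4) (.nd (nat_lit 5) 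
(.lf (nat_lit 93900) (.g (nat_lit 149) (.e (nat_lit 2577) (nat_lit 161) (.e (nat_lit 40965) (nat_lit 0) (.e (nat_lit 1597) (nat_lit 111) .nil))) .nil)) 
(.lf (nat_lit 93932) (.g (nat_lit 991) (.e (nat_lit 2579) (nat_lit 161) (.e (nat_lit 40965) (nat_lit 0) (.e (nat_lit 1585) (nat_lit 111) (.e (nat_lit 360477) (nat_lit 11) (.e (nat_lit 581652) (nat_lit 5) (.e (nat_lit 180284) (nat_lit 45) .nil)))))) (.g (nat_lit 0) .nil .nil)))) (.nd (nat_lit 5) 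
(.lf (nat_lit 93916) (.g (nat_lit 488) (.e (nat_lit 2579) (nat_lit 161) (.e (nat_lit 40964) (nat_lit 0) (.e (nat_lit 1568) (nat_lit 110) (.e (nat_lit 352269) (nat_lit 7) (.e (nat_lit 245777) (nat_lit 5) (.e (nat_lit 180288) (nat_lit 45) .nil)))))) (.g (nat_lit 4) .nil .nil))) 
(.lf (nat_lit 93948) (.g (nat_lit 211) (.e (nat_lit 2580) (nat_lit 161) (.e (nat_lit 40964) (nat_lit 0) (.e (nat_lit 1558) (nat_lit 110) (.e (nat_lit 360192) (nat_lit 7) .nil)))) .nil)))))) (.nd (nat_lit 2) (.nd (nat_lit 3) (.nd (nat_lit 4) (.nd (nat_lit 5) 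
(.lf (nat_lit 93890) (.g (nat_lit 635) (.e (nat_lit 2577) (nat_lit 161) (.e (nat_lit 40965) (nat_lit 0) (.e (nat_lit 1555) (nat_lit 110) (.e (nat_lit 352269) (nat_lit 7) (.e (nat_lit 245777) (nat_lit 5) (.e (nat_lit 180285) (nat_lit 45) .nil)))))) (.g (nat_lit 4) .nil .nil))) 
(.lf (nat_lit 93922) (.g (nat_lit 854) (.e (nat_lit 2579) (nat_lit 161) (.e (nat_lit 40965) (nat_lit 0) (.e (nat_lit 1555) (nat_lit 110) (.e (nat_lit 352269) (nat_lit 7) (.e (nat_lit 245777) (nat_lit 5) (.e (nat_lit 180284) (nat_lit 45) .nil)))))) (.g (nat_lit 0) .nil .nil)))) (.nd (nat_lit 5) 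
(.lf (nat_lit 93906) (.g (nat_lit 2137) (.e (nat_lit 2577) (nat_lit 161) (.e (nat_lit 40995) (nat_lit 11) (.e (nat_lit 24660) (nat_lit 13) (.e (nat_lit 393260) (nat_lit 21) (.e (nat_lit 409617) (nat_lit 10) (.e (nat_lit 4934) (nat_lit 287) .nil)))))) (.g (nat_lit 6) .nil .nil))) 
(.lf (nat_lit 93938) (.g (nat_lit 1863) (.e (nat_lit 2579) (nat_lit 161) (.e (nat_lit 40965) (nat_lit 0) (.e (nat_lit 1597) (nat_lit 111) (.e (nat_lit 360477) (nat_lit 11) (.e (nat_lit 581652) (nat_lit 5) (.e (nat_lit 180284) (nat_lit 45) .nil)))))) (.g (nat_lit 0) .nil .nil))))) (.nd (nat_lit 4) (.nd (nat_lit 5) 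
(.lf (nat_lit 93898) (.g (nat_lit 155) (.e (nat_lit 2577) (nat_lit 161) (.e (nat_lit 40965) (nat_lit 0) (.e (nat_lit 1591) (nat_lit 111) .nil))) .nil)) 
(.lf (nat_lit 93930) (.g (nat_lit 569) (.e (nat_lit 2579) (nat_lit 161) (.e (nat_lit 40965) (nat_lit 0) (.e (nat_lit 1585) (nat_lit 111) (.e (nat_lit 360470) (nat_lit 6) (.e (nat_lit 540723) (nat_lit 27) (.e (nat_lit 434189) (nat_lit 13) .nil)))))) (.g (nat_lit 0) .nil .nil)))) (.nd (nat_lit 5) 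
(.lf (nat_lit 93914) (.g (nat_lit 1741) (.e (nat_lit 2578) (nat_lit 161) (.e (nat_lit 40964) (nat_lit 0) (.e (nat_lit 1597) (nat_lit 111) (.e (nat_lit 360477) (nat_lit 11) (.e (nat_lit 581651) (nat_lit 4) (.e (nat_lit 172052) (nat_lit 0) (.e (nat_lit 6998) (nat_lit 377) .nil))))))) (.g (nat_lit 7) .nil .nil))) 
(.lf (nat_lit 93946) (.g (nat_lit 732) (.e (nat_lit 2580) (nat_lit 161) (.e (nat_lit 40964) (nat_lit 0) (.e (nat_lit 1555) (nat_lit 110) (.e (nat_lit 352269) (nat_lit 7) (.e (nat_lit 245777) (nat_lit 5) (.e (nat_lit 180287) (nat_lit 45) .nil)))))) (.g (nat_lit 6) .nil .nil)))))) (.nd (nat_lit 3) (.nd (nat_lit 4) (.nd (nat_lit 5) 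
(.lf (nat_lit 93894) (.g (nat_lit 636) (.e (nat_lit 2577) (nat_lit 161) (.e (nat_lit 40965) (nat_lit 0) (.e (nat_lit 1568) (nat_lit 110) (.e (nat_lit 352269) (nat_lit 7) (.e (nat_lit 245777) (nat_lit 5) (.e (nat_lit 180287) (nat_lit 45) .nil)))))) (.g (nat_lit 5) .nil .nil))) 
(.lf (nat_lit 93926) (.g (nat_lit 713) (.e (nat_lit 2579) (nat_lit 161) (.e (nat_lit 40965) (nat_lit 0) (.e (nat_lit 1568) (nat_lit 110) (.e (nat_lit 352269) (nat_lit 7) (.e (nat_lit 245777) (nat_lit 5) (.e (nat_lit 180284) (nat_lit 45) .nil)))))) (.g (nat_lit 0) .nil .nil)))) (.nd (nat_lit 5) 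
(.lf (nat_lit 93910) (.g (nat_lit 2365) (.e (nat_lit 2577) (nat_lit 161) (.e (nat_lit 40997) (nat_lit 11) (.e (nat_lit 24625) (nat_lit 9) (.e (nat_lit 336369) (nat_lit 27) (.e (nat_lit 426173) (nat_lit 7) .nil))))) .nil)) 
(.lf (nat_lit 93942) (.g (nat_lit 2733) (.e (nat_lit 2579) (nat_lit 161) (.e (nat_lit 40993) (nat_lit 11) (.e (nat_lit 24630) (nat_lit 9) (.e (nat_lit 336369) (nat_lit 27) (.e (nat_lit 426173) (nat_lit 7) (.e (nat_lit 409617) (nat_lit 10) (.e (nat_lit 4934) (nat_lit 287) .nil))))))) (.g (nat_lit 0) .nil .nil))))) (.nd (nat_lit 4) (.nd (nat_lit 5) 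
(.lf (nat_lit 93902) (.g (nat_lit 951) (.e (nat_lit 2577) (nat_lit 161) (.e (nat_lit 40965) (nat_lit 0) (.e (nat_lit 1597) (nat_lit 111) (.e (nat_lit 360477) (nat_lit 11) .nil)))) .nil)) 
(.lf (nat_lit 93934) (.g (nat_lit 1040) (.e (nat_lit 2579) (nat_lit 161) (.e (nat_lit 40965) (nat_lit 0) (.e (nat_lit 1591) (nat_lit 111) (.e (nat_lit 360477) (nat_lit 11) (.e (nat_lit 581652) (nat_lit 5) (.e (nat_lit 180284) (nat_lit 45) .nil)))))) (.g (nat_lit 0) .nil .nil)))) (.nd (nat_lit 5) 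
(.lf (nat_lit 93918) (.g (nat_lit 370) (.e (nat_lit 2579) (nat_lit 161) (.e (nat_lit 40964) (nat_lit 0) (.e (nat_lit 1582) (nat_lit 111) (.e (nat_lit 368384) (nat_lit 5) .nil)))) .nil)) 
(.lf (nat_lit 93950) (.g (nat_lit 3631) (.e (nat_lit 2580) (nat_lit 161) (.e (nat_lit 40964) (nat_lit 0) (.e (nat_lit 1582) (nat_lit 111) (.e (nat_lit 360475) (nat_lit 8) (.e (nat_lit 557119) (nat_lit 18) (.e (nat_lit 2798) (nat_lit 180) (.e (nat_lit 303112) (nat_lit 0) (.e (nat_lit 7008) (nat_lit 377) .nil)))))))) (.g (nat_lit 8) .nil .nil)))))))) 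
(.nd (nat_lit 1) (.nd (nat_lit 2) (.nd (nat_lit 3) (.nd (nat_lit 4) (.nd (nat_lit 5) 
(.lf (nat_lit 93889) (.g (nat_lit 1416) (.e (nat_lit 2576) (nat_lit 161) (.e (nat_lit 40997) (nat_lit 11) (.e (nat_lit 24655) (nat_lit 13) (.e (nat_lit 393263) (nat_lit 22) .nil)))) .nil)) 
(.lf (nat_lit 93921) (.g (nat_lit 3423) (.e (nat_lit 2579) (nat_lit 161) (.e (nat_lit 40965) (nat_lit 0) (.e (nat_lit 1463) (nat_lit 108) (.e (nat_lit 336060) (nat_lit 7) (.e (nat_lit 319505) (nat_lit 10) (.e (nat_lit 618) (nat_lit 48) (.e (nat_lit 557103) (nat_lit 14) (.e (nat_lit 180285) (nat_lit 45) .nil)))))))) (.g (nat_lit 8) .nil .nil)))) (.nd (nat_lit 5) 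
(.lf (nat_lit 93905) (.g (nat_lit 805) (.e (nat_lit 2577) (nat_lit 161) (.e (nat_lit 40965) (nat_lit 0) (.e (nat_lit 1597) (nat_lit 111) (.e (nat_lit 368384) (nat_lit 11) .nil)))) .nil)) 
(.lf (nat_lit 93937) (.g (nat_lit 827) (.e (nat_lit 2579) (nat_lit 161) (.e (nat_lit 40965) (nat_lit 0) (.e (nat_lit 1597) (nat_lit 111) (.e (nat_lit 360470) (nat_lit 6) .nil)))) .nil)))) (.nd (nat_lit 4) (.nd (nat_lit 5) 
(.lf (nat_lit 93897) (.g (nat_lit 937) (.e (nat_lit 2577) (nat_lit 161) (.e (nat_lit 40965) (nat_lit 0) (.e (nat_lit 1585) (nat_lit 111) (.e (nat_lit 360477) (nat_lit 11) (.e (nat_lit 581652) (nat_lit 5) (.e (nat_lit 180287) (nat_lit 45) .nil)))))) (.g (nat_lit 5) .nil .nil))) 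
(.lf (nat_lit 93929) (.g (nat_lit 1256) (.e (nat_lit 2579) (nat_lit 161) (.e (nat_lit 40965) (nat_lit 0) (.e (nat_lit 1574) (nat_lit 110) (.e (nat_lit 352269) (nat_lit 7) (.e (nat_lit 245777) (nat_lit 5) (.e (nat_lit 180285) (nat_lit 45) .nil)))))) (.g (nat_lit 0) .nil .nil)))) (.nd (nat_lit 5) 
(.lf (nat_lit 93913) (.g (nat_lit 555) (.e (nat_lit 2578) (nat_lit 161) (.e (nat_lit 40964) (nat_lit 0) (.e (nat_lit 1597) (nat_lit 111) (.e (nat_lit 368384) (nat_lit 5) .nil)))) .nil)) 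
(.lf (nat_lit 93945) (.g (nat_lit 703) (.e (nat_lit 2580) (nat_lit 161) (.e (nat_lit 40964) (nat_lit 0) (.e (nat_lit 1555) (nat_lit 110) (.e (nat_lit 352269) (nat_lit 7) (.e (nat_lit 245777) (nat_lit 5) (.e (nat_lit 180284) (nat_lit 45) .nil)))))) (.g (nat_lit 6) .nil .nil)))))) (.nd (nat_lit 3) (.nd (nat_lit 4) (.nd (nat_lit 5) 
(.lf (nat_lit 93893) (.g (nat_lit 314) (.e (nat_lit 2577) (nat_lit 161) (.e (nat_lit 40965) (nat_lit 0) (.e (nat_lit 1558) (nat_lit 110) (.e (nat_lit 360192) (nat_lit 7) .nil)))) .nil)) 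
(.lf (nat_lit 93925) (.g (nat_lit 888) (.e (nat_lit 2579) (nat_lit 161) (.e (nat_lit 40965) (nat_lit 0) (.e (nat_lit 1558) (nat_lit 110) (.e (nat_lit 352269) (nat_lit 7) (.e (nat_lit 245777) (nat_lit 5) (.e (nat_lit 180285) (nat_lit 45) .nil)))))) (.g (nat_lit 0) .nil .nil)))) (.nd (nat_lit 5) 
(.lf (nat_lit 93909) (.g (nat_lit 2495) (.e (nat_lit 2577) (nat_lit 161) (.e (nat_lit 40996) (nat_lit 11) (.e (nat_lit 24660) (nat_lit 13) (.e (nat_lit 393260) (nat_lit 21) (.e (nat_lit 409617) (nat_lit 10) (.e (nat_lit 4934) (nat_lit 287) .nil)))))) (.g (nat_lit 6) .nil .nil))) 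
(.lf (nat_lit 93941) (.g (nat_lit 2822) (.e (nat_lit 2579) (nat_lit 161) (.e (nat_lit 40993) (nat_lit 11) (.e (nat_lit 24627) (nat_lit 9) (.e (nat_lit 336369) (nat_lit 27) (.e (nat_lit 426173) (nat_lit 7) (.e (nat_lit 409617) (nat_lit 10) (.e (nat_lit 4934) (nat_lit 287) .nil))))))) (.g (nat_lit 6) .nil .nil))))) (.nd (nat_lit 4) (.nd (nat_lit 5) 
(.lf (nat_lit 93901) (.g (nat_lit 805) (.e (nat_lit 2577) (nat_lit 161) (.e (nat_lit 40965) (nat_lit 0) (.e (nat_lit 1597) (nat_lit 111) (.e (nat_lit 368384) (nat_lit 5) .nil)))) .nil)) 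
(.lf (nat_lit 93933) (.g (nat_lit 1188) (.e (nat_lit 2579) (nat_lit 161) (.e (nat_lit 40965) (nat_lit 0) (.e (nat_lit 1585) (nat_lit 111) (.e (nat_lit 360477) (nat_lit 11) (.e (nat_lit 581652) (nat_lit 5) (.e (nat_lit 180285) (nat_lit 45) .nil)))))) (.g (nat_lit 0) .nil .nil)))) (.nd (nat_lit 5) 
(.lf (nat_lit 93917) (.g (nat_lit 950) (.e (nat_lit 2579) (nat_lit 161) (.e (nat_lit 40964) (nat_lit 0) (.e (nat_lit 1574) (nat_lit 110) (.e (nat_lit 352269) (nat_lit 7) (.e (nat_lit 245777) (nat_lit 5) (.e (nat_lit 180287) (nat_lit 45) .nil)))))) (.g (nat_lit 0) .nil .nil))) 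
(.lf (nat_lit 93949) (.g (nat_lit 917) (.e (nat_lit 2580) (nat_lit 161) (.e (nat_lit 40964) (nat_lit 0) (.e (nat_lit 1574) (nat_lit 110) (.e (nat_lit 352269) (nat_lit 7) (.e (nat_lit 245777) (nat_lit 5) (.e (nat_lit 180287) (nat_lit 45) .nil)))))) (.g (nat_lit 0) .nil .nil))))))) (.nd (nat_lit 2) (.nd (nat_lit 3) (.nd (nat_lit 4) (.nd (nat_lit 5) 
(.lf (nat_lit 93891) (.g (nat_lit 895) (.e (nat_lit 2577) (nat_lit 161) (.e (nat_lit 40965) (nat_lit 0) (.e (nat_lit 1555) (nat_lit 110) (.e (nat_lit 352269) (nat_lit 7) (.e (nat_lit 245777) (nat_lit 5) (.e (nat_lit 180287) (nat_lit 45) .nil)))))) (.g (nat_lit 0) .nil .nil))) 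
(.lf (nat_lit 93923) (.g (nat_lit 1053) (.e (nat_lit 2579) (nat_lit 161) (.e (nat_lit 40965) (nat_lit 0) (.e (nat_lit 1555) (nat_lit 110) (.e (nat_lit 352269) (nat_lit 7) (.e (nat_lit 245777) (nat_lit 5) (.e (nat_lit 180285) (nat_lit 45) .nil)))))) (.g (nat_lit 0) .nil .nil)))) (.nd (nat_lit 5) 
(.lf (nat_lit 93907) (.g (nat_lit 2746) (.e (nat_lit 2577) (nat_lit 161) (.e (nat_lit 40996) (nat_lit 11) (.e (nat_lit 24660) (nat_lit 13) (.e (nat_lit 393260) (nat_lit 21) (.e (nat_lit 409616) (nat_lit 10) (.e (nat_lit 4926) (nat_lit 287) .nil)))))) (.g (nat_lit 5) .nil .nil))) 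
(.lf (nat_lit 93939) (.g (nat_lit 2059) (.e (nat_lit 2579) (nat_lit 161) (.e (nat_lit 40965) (nat_lit 0) (.e (nat_lit 1597) (nat_lit 111) (.e (nat_lit 360477) (nat_lit 11) (.e (nat_lit 581652) (nat_lit 5) (.e (nat_lit 180285) (nat_lit 45) .nil)))))) (.g (nat_lit 0) .nil .nil))))) (.nd (nat_lit 4) (.nd (nat_lit 5) 
(.lf (nat_lit 93899) (.g (nat_lit 939) (.e (nat_lit 2577) (nat_lit 161) (.e (nat_lit 40965) (nat_lit 0) (.e (nat_lit 1591) (nat_lit 111) (.e (nat_lit 360477) (nat_lit 11) (.e (nat_lit 581652) (nat_lit 5) (.e (nat_lit 180287) (nat_lit 45) .nil)))))) (.g (nat_lit 5) .nil .nil))) 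
(.lf (nat_lit 93931) (.g (nat_lit 598) (.e (nat_lit 2579) (nat_lit 161) (.e (nat_lit 40965) (nat_lit 0) (.e (nat_lit 1585) (nat_lit 111) (.e (nat_lit 360470) (nat_lit 6) (.e (nat_lit 540723) (nat_lit 27) (.e (nat_lit 434193) (nat_lit 13) .nil)))))) (.g (nat_lit 0) .nil .nil)))) (.nd (nat_lit 5) 
(.lf (nat_lit 93915) (.g (nat_lit 634) (.e (nat_lit 2579) (nat_lit 161) (.e (nat_lit 40964) (nat_lit 0) (.e (nat_lit 1558) (nat_lit 110) (.e (nat_lit 352269) (nat_lit 7) (.e (nat_lit 245777) (nat_lit 5) (.e (nat_lit 180287) (nat_lit 45) .nil)))))) (.g (nat_lit 0) .nil .nil))) 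
(.lf (nat_lit 93947) (.g (nat_lit 615) (.e (nat_lit 2580) (nat_lit 161) (.e (nat_lit 40964) (nat_lit 0) (.e (nat_lit 1558) (nat_lit 110) (.e (nat_lit 352269) (nat_lit 7) (.e (nat_lit 245777) (nat_lit 5) (.e (nat_lit 180287) (nat_lit 45) .nil)))))) (.g (nat_lit 0) .nil .nil)))))) (.nd (nat_lit 3) (.nd (nat_lit 4) (.nd (nat_lit 5) 
(.lf (nat_lit 93895) (.g (nat_lit 786) (.e (nat_lit 2577) (nat_lit 161) (.e (nat_lit 40965) (nat_lit 0) (.e (nat_lit 1574) (nat_lit 110) (.e (nat_lit 352269) (nat_lit 7) (.e (nat_lit 245777) (nat_lit 5) .nil))))) .nil)) 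
(.lf (nat_lit 93927) (.g (nat_lit 911) (.e (nat_lit 2579) (nat_lit 161) (.e (nat_lit 40965) (nat_lit 0) (.e (nat_lit 1568) (nat_lit 110) (.e (nat_lit 352269) (nat_lit 7) (.e (nat_lit 245777) (nat_lit 5) (.e (nat_lit 180285) (nat_lit 45) .nil)))))) (.g (nat_lit 0) .nil .nil)))) (.nd (nat_lit 5) 
(.lf (nat_lit 93911) (.g (nat_lit 322) (.e (nat_lit 2578) (nat_lit 161) (.e (nat_lit 40964) (nat_lit 0) (.e (nat_lit 1582) (nat_lit 111) (.e (nat_lit 368384) (nat_lit 5) .nil)))) .nil)) 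
(.lf (nat_lit 93943) (.g (nat_lit 2715) (.e (nat_lit 2579) (nat_lit 161) (.e (nat_lit 40993) (nat_lit 11) (.e (nat_lit 24660) (nat_lit 13) (.e (nat_lit 393260) (nat_lit 21) (.e (nat_lit 409616) (nat_lit 10) (.e (nat_lit 4931) (nat_lit 287) .nil)))))) (.g (nat_lit 6) .nil .nil))))) (.nd (nat_lit 4) (.nd (nat_lit 5) 
(.lf (nat_lit 93903) (.g (nat_lit 1572) (.e (nat_lit 2577) (nat_lit 161) (.e (nat_lit 40965) (nat_lit 0) (.e (nat_lit 1597) (nat_lit 111) (.e (nat_lit 360477) (nat_lit 11) (.e (nat_lit 581652) (nat_lit 5) (.e (nat_lit 180285) (nat_lit 45) .nil)))))) (.g (nat_lit 4) .nil .nil))) 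
(.lf (nat_lit 93935) (.g (nat_lit 1237) (.e (nat_lit 2579) (nat_lit 161) (.e (nat_lit 40965) (nat_lit 0) (.e (nat_lit 1591) (nat_lit 111) (.e (nat_lit 360477) (nat_lit 11) (.e (nat_lit 581652) (nat_lit 5) (.e (nat_lit 180285) (nat_lit 45) .nil)))))) (.g (nat_lit 0) .nil .nil)))) (.nd (nat_lit 5) 
(.lf (nat_lit 93919) (.g (nat_lit 722) (.e (nat_lit 2579) (nat_lit 161) (.e (nat_lit 40964) (nat_lit 0) (.e (nat_lit 1597) (nat_lit 111) (.e (nat_lit 368384) (nat_lit 11) (.e (nat_lit 581652) (nat_lit 5) (.e (nat_lit 180284) (nat_lit 45) .nil)))))) (.g (nat_lit 5) .nil .nil))) 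
(.lf (nat_lit 93951) (.g (nat_lit 913) (.e (nat_lit 2580) (nat_lit 161) (.e (nat_lit 40964) (nat_lit 0) (.e (nat_lit 1585) (nat_lit 111) (.e (nat_lit 360477) (nat_lit 11) (.e (nat_lit 581652) (nat_lit 5) (.e (nat_lit 180287) (nat_lit 45) .nil)))))) (.g (nat_lit 0) .nil .nil)))))))))

noncomputable def tv1290 : DT := (.nd (nat_lit 0) (.nd (nat_lit 1) (.nd (nat_lit 2) (.nd (nat_lit 3) (.nd (nat_lit 4) (.nd (nat_lit 5) 
(.lf (nat_lit 93952) (.g (nat_lit 1497) (.e (nat_lit 2580) (nat_lit 161) (.e (nat_lit 40964) (nat_lit 0) (.e (nat_lit 1597) (nat_lit 111) (.e (nat_lit 360477) (nat_lit 11) (.e (nat_lit 581652) (nat_lit 5) (.e (nat_lit 180287) (nat_lit 45) .nil)))))) (.g (nat_lit 0) .nil .nil))) 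
(.lf (nat_lit 93984) (.g (nat_lit 1075) (.e (nat_lit 2584) (nat_lit 161) (.e (nat_lit 40972) (nat_lit 9) (.e (nat_lit 314) (nat_lit 23) (.e (nat_lit 352323) (nat_lit 26) .nil)))) .nil))) (.nd (nat_lit 5) 
(.lf (nat_lit 93968) (.g (nat_lit 529) (.e (nat_lit 2580) (nat_lit 161) (.e (nat_lit 40965) (nat_lit 0) (.e (nat_lit 1585) (nat_lit 111) (.e (nat_lit 360470) (nat_lit 6) (.e (nat_lit 540723) (nat_lit 27) (.e (nat_lit 434189) (nat_lit 13) .nil)))))) (.g (nat_lit 0) .nil .nil))) 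
(.lf (nat_lit 94000) (.g (nat_lit 2906) (.e (nat_lit 2598) (nat_lit 163) (.e (nat_lit 164022) (nat_lit 46) (.e (nat_lit 704738) (nat_lit 11) (.e (nat_lit 16425) (nat_lit 7) (.e (nat_lit 409649) (nat_lit 18) (.e (nat_lit 303140) (nat_lit 10) (.e (nat_lit 434200) (nat_lit 18) (.e (nat_lit 5842) (nat_lit 320) .nil)))))))) (.g (nat_lit 4) .nil .nil))))) (.nd (nat_lit 4) (.nd (nat_lit 5) 
(.lf (nat_lit 93960) (.g (nat_lit 253) (.e (nat_lit 2580) (nat_lit 161) (.e (nat_lit 40965) (nat_lit 0) (.e (nat_lit 1558) (nat_lit 110) (.e (nat_lit 360192) (nat_lit 7) .nil)))) .nil)) 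
(.lf (nat_lit 93992) (.g (nat_lit 1780) (.e (nat_lit 2584) (nat_lit 161) (.e (nat_lit 40997) (nat_lit 11) (.e (nat_lit 24623) (nat_lit 9) (.e (nat_lit 336369) (nat_lit 27) (.e (nat_lit 426173) (nat_lit 7) .nil))))) .nil))) (.nd (nat_lit 5) 
(.lf (nat_lit 93976) (.g (nat_lit 1817) (.e (nat_lit 2580) (nat_lit 161) (.e (nat_lit 40965) (nat_lit 0) (.e (nat_lit 1597) (nat_lit 111) (.e (nat_lit 360477) (nat_lit 11) (.e (nat_lit 581652) (nat_lit 5) (.e (nat_lit 180284) (nat_lit 45) .nil)))))) (.g (nat_lit 0) .nil .nil))) 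
(.lf (nat_lit 94008) (.g (nat_lit 2913) (.e (nat_lit 2598) (nat_lit 163) (.e (nat_lit 164022) (nat_lit 46) (.e (nat_lit 704738) (nat_lit 11) (.e (nat_lit 16425) (nat_lit 7) (.e (nat_lit 409649) (nat_lit 18) (.e (nat_lit 303140) (nat_lit 10) (.e (nat_lit 434202) (nat_lit 18) (.e (nat_lit 5836) (nat_lit 320) .nil)))))))) (.g (nat_lit 4) .nil .nil)))))) 
(.nd (nat_lit 3) (.nd (nat_lit 4) (.nd (nat_lit 5) 
(.lf (nat_lit 93956) (.g (nat_lit 1015) (.e (nat_lit 2580) (nat_lit 161) (.e (nat_lit 40965) (nat_lit 0) (.e (nat_lit 1555) (nat_lit 110) (.e (nat_lit 352269) (nat_lit 7) (.e (nat_lit 245777) (nat_lit 5) (.e (nat_lit 180285) (nat_lit 45) .nil)))))) (.g (nat_lit 0) .nil .nil))) 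
(.lf (nat_lit 93988) (.g (nat_lit 2114) (.e (nat_lit 2584) (nat_lit 161) (.e (nat_lit 40994) (nat_lit 11) (.e (nat_lit 24660) (nat_lit 13) (.e (nat_lit 393260) (nat_lit 21) (.e (nat_lit 409617) (nat_lit 10) (.e (nat_lit 4926) (nat_lit 287) .nil)))))) (.g (nat_lit 5) .nil .nil)))) (.nd (nat_lit 5) 
(.lf (nat_lit 93972) (.g (nat_lit 994) (.e (nat_lit 2580) (nat_lit 161) (.e (nat_lit 40965) (nat_lit 0) (.e (nat_lit 1591) (nat_lit 111) (.e (nat_lit 360477) (nat_lit 11) (.e (nat_lit 581652) (nat_lit 5) (.e (nat_lit 180284) (nat_lit 45) .nil)))))) (.g (nat_lit 0) .nil .nil))) 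
(.lf (nat_lit 94004) (.g (nat_lit 2904) (.e (nat_lit 2598) (nat_lit 163) (.e (nat_lit 164022) (nat_lit 46) (.e (nat_lit 704738) (nat_lit 11) (.e (nat_lit 16425) (nat_lit 7) (.e (nat_lit 409649) (nat_lit 18) (.e (nat_lit 303140) (nat_lit 10) (.e (nat_lit 434202) (nat_lit 18) (.e (nat_lit 5832) (nat_lit 320) .nil)))))))) (.g (nat_lit 4) .nil .nil))))) (.nd (nat_lit 4) (.nd (nat_lit 5) 
(.lf (nat_lit 93964) (.g (nat_lit 696) (.e (nat_lit 2580) (nat_lit 161) (.e (nat_lit 40965) (nat_lit 0) (.e (nat_lit 1568) (nat_lit 110) (.e (nat_lit 352269) (nat_lit 7) (.e (nat_lit 245777) (nat_lit 5) (.e (nat_lit 180287) (nat_lit 45) .nil)))))) (.g (nat_lit 0) .nil .nil))) 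
(.lf (nat_lit 93996) (.g (nat_lit 1911) (.e (nat_lit 2598) (nat_lit 163) (.e (nat_lit 163962) (nat_lit 25) (.e (nat_lit 532513) (nat_lit 3) (.e (nat_lit 114714) (nat_lit 22) (.e (nat_lit 90172) (nat_lit 14) .nil))))) .nil))) (.nd (nat_lit 5) 
(.lf (nat_lit 93980) (.g (nat_lit 2643) (.e (nat_lit 2580) (nat_lit 161) (.e (nat_lit 40993) (nat_lit 11) (.e (nat_lit 24630) (nat_lit 9) (.e (nat_lit 336369) (nat_lit 27) (.e (nat_lit 426173) (nat_lit 7) (.e (nat_lit 409617) (nat_lit 10) (.e (nat_lit 4934) (nat_lit 287) .nil))))))) (.g (nat_lit 0) .nil .nil))) 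
(.lf (nat_lit 94012) (.g (nat_lit 2931) (.e (nat_lit 2598) (nat_lit 163) (.e (nat_lit 164022) (nat_lit 46) (.e (nat_lit 704738) (nat_lit 11) (.e (nat_lit 16425) (nat_lit 7) (.e (nat_lit 409649) (nat_lit 18) (.e (nat_lit 303140) (nat_lit 10) (.e (nat_lit 434202) (nat_lit 18) (.e (nat_lit 5845) (nat_lit 320) .nil)))))))) (.g (nat_lit 4) .nil .nil))))))) 
(.nd (nat_lit 2) (.nd (nat_lit 3) (.nd (nat_lit 4) (.nd (nat_lit 5) 
(.lf (nat_lit 93954) (.g (nat_lit 3387) (.e (nat_lit 2580) (nat_lit 161) (.e (nat_lit 40965) (nat_lit 0) (.e (nat_lit 1463) (nat_lit 108) (.e (nat_lit 336060) (nat_lit 7) (.e (nat_lit 319505) (nat_lit 10) (.e (nat_lit 618) (nat_lit 48) (.e (nat_lit 557103) (nat_lit 14) (.e (nat_lit 180285) (nat_lit 45) .nil)))))))) (.g (nat_lit 8) .nil .nil))) 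
(.lf (nat_lit 93986) (.g (nat_lit 2195) (.e (nat_lit 2584) (nat_lit 161) (.e (nat_lit 40972) (nat_lit 9) (.e (nat_lit 324) (nat_lit 24) (.e (nat_lit 360491) (nat_lit 22) (.e (nat_lit 778466) (nat_lit 11) (.e (nat_lit 24584) (nat_lit 0) (.e (nat_lit 6097) (nat_lit 332) .nil))))))) (.g (nat_lit 6) .nil .nil)))) (.nd (nat_lit 5) 
(.lf (nat_lit 93970) (.g (nat_lit 1150) (.e (nat_lit 2580) (nat_lit 161) (.e (nat_lit 40965) (nat_lit 0) (.e (nat_lit 1585) (nat_lit 111) (.e (nat_lit 360477) (nat_lit 11) (.e (nat_lit 581652) (nat_lit 5) (.e (nat_lit 180285) (nat_lit 45) .nil)))))) (.g (nat_lit 0) .nil .nil))) 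
(.lf (nat_lit 94002) (.g (nat_lit 2930) (.e (nat_lit 2598) (nat_lit 163) (.e (nat_lit 164022) (nat_lit 46) (.e (nat_lit 704738) (nat_lit 11) (.e (nat_lit 16425) (nat_lit 7) (.e (nat_lit 409649) (nat_lit 18) (.e (nat_lit 303140) (nat_lit 10) (.e (nat_lit 434202) (nat_lit 18) (.e (nat_lit 5811) (nat_lit 320) .nil)))))))) (.g (nat_lit 4) .nil .nil))))) (.nd (nat_lit 4) (.nd (nat_lit 5) 
(.lf (nat_lit 93962) (.g (nat_lit 667) (.e (nat_lit 2580) (nat_lit 161) (.e (nat_lit 40965) (nat_lit 0) (.e (nat_lit 1568) (nat_lit 110) (.e (nat_lit 352269) (nat_lit 7) (.e (nat_lit 245777) (nat_lit 5) (.e (nat_lit 180284) (nat_lit 45) .nil)))))) (.g (nat_lit 0) .nil .nil))) 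
(.lf (nat_lit 93994) (.g (nat_lit 2462) (.e (nat_lit 2591) (nat_lit 162) (.e (nat_lit 49185) (nat_lit 11) (.e (nat_lit 16465) (nat_lit 13) (.e (nat_lit 483395) (nat_lit 24) (.e (nat_lit 344156) (nat_lit 36) (.e (nat_lit 638980) (nat_lit 0) .nil)))))) (.g (nat_lit 6) .nil .nil)))) (.nd (nat_lit 5) 
(.lf (nat_lit 93978) (.g (nat_lit 1832) (.e (nat_lit 2580) (nat_lit 161) (.e (nat_lit 40965) (nat_lit 0) (.e (nat_lit 1597) (nat_lit 111) (.e (nat_lit 360477) (nat_lit 11) (.e (nat_lit 581652) (nat_lit 5) (.e (nat_lit 180287) (nat_lit 45) .nil)))))) (.g (nat_lit 0) .nil .nil))) 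
(.lf (nat_lit 94010) (.g (nat_lit 2906) (.e (nat_lit 2598) (nat_lit 163) (.e (nat_lit 164022) (nat_lit 46) (.e (nat_lit 704738) (nat_lit 11) (.e (nat_lit 16425) (nat_lit 7) (.e (nat_lit 409649) (nat_lit 18) (.e (nat_lit 303140) (nat_lit 10) (.e (nat_lit 434202) (nat_lit 18) (.e (nat_lit 5842) (nat_lit 320) .nil)))))))) (.g (nat_lit 4) .nil .nil)))))) 
(.nd (nat_lit 3) (.nd (nat_lit 4) (.nd (nat_lit 5) 
(.lf (nat_lit 93958) (.g (nat_lit 645) (.e (nat_lit 2580) (nat_lit 161) (.e (nat_lit 40965) (nat_lit 0) (.e (nat_lit 1558) (nat_lit 110) (.e (nat_lit 352269) (nat_lit 7) (.e (nat_lit 245777) (nat_lit 5) (.e (nat_lit 180284) (nat_lit 45) .nil)))))) (.g (nat_lit 0) .nil .nil))) 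
(.lf (nat_lit 93990) (.g (nat_lit 2008) (.e (nat_lit 2584) (nat_lit 161) (.e (nat_lit 40997) (nat_lit 11) (.e (nat_lit 24584) (nat_lit 0) (.e (nat_lit 6097) (nat_lit 332) (.e (nat_lit 2584) (nat_lit 161) (.e (nat_lit 40997) (nat_lit 11) (.e (nat_lit 24584) (nat_lit 0) (.e (nat_lit 6097) (nat_lit 332) .nil)))))))) (.g (nat_lit 0) .nil .nil)))) (.nd (nat_lit 5) 
(.lf (nat_lit 93974) (.g (nat_lit 1009) (.e (nat_lit 2580) (nat_lit 161) (.e (nat_lit 40965) (nat_lit 0) (.e (nat_lit 1591) (nat_lit 111) (.e (nat_lit 360477) (nat_lit 11) (.e (nat_lit 581652) (nat_lit 5) (.e (nat_lit 180287) (nat_lit 45) .nil)))))) (.g (nat_lit 0) .nil .nil))) 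
(.lf (nat_lit 94006) (.g (nat_lit 2945) (.e (nat_lit 2598) (nat_lit 163) (.e (nat_lit 164022) (nat_lit 46) (.e (nat_lit 704738) (nat_lit 11) (.e (nat_lit 16425) (nat_lit 7) (.e (nat_lit 409649) (nat_lit 18) (.e (nat_lit 303140) (nat_lit 10) (.e (nat_lit 434202) (nat_lit 18) (.e (nat_lit 5834) (nat_lit 320) .nil)))))))) (.g (nat_lit 4) .nil .nil))))) (.nd (nat_lit 4) (.nd (nat_lit 5) 
(.lf (nat_lit 93966) (.g (nat_lit 1041) (.e (nat_lit 2580) (nat_lit 161) (.e (nat_lit 40965) (nat_lit 0) (.e (nat_lit 1574) (nat_lit 110) (.e (nat_lit 352269) (nat_lit 7) (.e (nat_lit 245777) (nat_lit 5) (.e (nat_lit 180287) (nat_lit 45) .nil)))))) (.g (nat_lit 0) .nil .nil))) 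
(.lf (nat_lit 93998) (.g (nat_lit 2836) (.e (nat_lit 2598) (nat_lit 163) (.e (nat_lit 164022) (nat_lit 46) (.e (nat_lit 704738) (nat_lit 11) (.e (nat_lit 16425) (nat_lit 7) (.e (nat_lit 409649) (nat_lit 18) .nil))))) .nil))) (.nd (nat_lit 5) 
(.lf (nat_lit 93982) (.g (nat_lit 2219) (.e (nat_lit 2583) (nat_lit 161) (.e (nat_lit 40995) (nat_lit 11) (.e (nat_lit 24660) (nat_lit 13) (.e (nat_lit 393260) (nat_lit 21) (.e (nat_lit 409617) (nat_lit 10) (.e (nat_lit 4926) (nat_lit 287) .nil)))))) (.g (nat_lit 0) .nil .nil))) 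
(.lf (nat_lit 94014) (.g (nat_lit 2975) (.e (nat_lit 2598) (nat_lit 163) (.e (nat_lit 164022) (nat_lit 46) (.e (nat_lit 704738) (nat_lit 11) (.e (nat_lit 16425) (nat_lit 7) (.e (nat_lit 409649) (nat_lit 18) (.e (nat_lit 303140) (nat_lit 10) (.e (nat_lit 434202) (nat_lit 18) (.e (nat_lit 5849) (nat_lit 320) .nil)))))))) (.g (nat_lit 4) .nil .nil)))))))) 
(.nd (nat_lit 1) (.nd (nat_lit 2) (.nd (nat_lit 3) (.nd (nat_lit 4) (.nd (nat_lit 5) 
(.lf (nat_lit 93953) (.g (nat_lit 3526) (.e (nat_lit 2580) (nat_lit 161) (.e (nat_lit 40965) (nat_lit 0) (.e (nat_lit 1448) (nat_lit 108) (.e (nat_lit 336060) (nat_lit 7) (.e (nat_lit 319505) (nat_lit 10) (.e (nat_lit 618) (nat_lit 48) (.e (nat_lit 557103) (nat_lit 14) (.e (nat_lit 180285) (nat_lit 45) .nil)))))))) (.g (nat_lit 8) .nil .nil))) 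
(.lf (nat_lit 93985) (.g (nat_lit 3206) (.e (nat_lit 2584) (nat_lit 161) (.e (nat_lit 40972) (nat_lit 9) (.e (nat_lit 314) (nat_lit 23) (.e (nat_lit 352324) (nat_lit 26) (.e (nat_lit 147496) (nat_lit 11) (.e (nat_lit 24584) (nat_lit 0) (.e (nat_lit 6097) (nat_lit 332) .nil))))))) (.g (nat_lit 7) .nil .nil)))) (.nd (nat_lit 5) 
(.lf (nat_lit 93969) (.g (nat_lit 943) (.e (nat_lit 2580) (nat_lit 161) (.e (nat_lit 40965) (nat_lit 0) (.e (nat_lit 1585) (nat_lit 111) (.e (nat_lit 360477) (nat_lit 11) (.e (nat_lit 581652) (nat_lit 5) (.e (nat_lit 180284) (nat_lit 45) .nil)))))) (.g (nat_lit 0) .nil .nil))) 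
(.lf (nat_lit 94001) (.g (nat_lit 3021) (.e (nat_lit 2598) (nat_lit 163) (.e (nat_lit 164022) (nat_lit 46) (.e (nat_lit 704738) (nat_lit 11) (.e (nat_lit 16425) (nat_lit 7) (.e (nat_lit 409649) (nat_lit 18) (.e (nat_lit 303140) (nat_lit 10) (.e (nat_lit 434202) (nat_lit 18) (.e (nat_lit 5798) (nat_lit 320) .nil)))))))) (.g (nat_lit 4) .nil .nil))))) (.nd (nat_lit 4) (.nd (nat_lit 5) 
(.lf (nat_lit 93961) (.g (nat_lit 146) (.e (nat_lit 2580) (nat_lit 161) (.e (nat_lit 40965) (nat_lit 0) (.e (nat_lit 1568) (nat_lit 110) .nil))) .nil)) 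
(.lf (nat_lit 93993) (.g (nat_lit 509) (.e (nat_lit 7936) (nat_lit 161) (.e (nat_lit 40995) (nat_lit 11) (.e (nat_lit 24657) (nat_lit 13) (.e (nat_lit 401152) (nat_lit 17) .nil)))) .nil))) (.nd (nat_lit 5) 
(.lf (nat_lit 93977) (.g (nat_lit 2022) (.e (nat_lit 2580) (nat_lit 161) (.e (nat_lit 40965) (nat_lit 0) (.e (nat_lit 1597) (nat_lit 111) (.e (nat_lit 360477) (nat_lit 11) (.e (nat_lit 581652) (nat_lit 5) (.e (nat_lit 180285) (nat_lit 45) .nil)))))) (.g (nat_lit 0) .nil .nil))) 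
(.lf (nat_lit 94009) (.g (nat_lit 2902) (.e (nat_lit 2598) (nat_lit 163) (.e (nat_lit 164022) (nat_lit 46) (.e (nat_lit 704738) (nat_lit 11) (.e (nat_lit 16425) (nat_lit 7) (.e (nat_lit 409649) (nat_lit 18) (.e (nat_lit 303140) (nat_lit 10) (.e (nat_lit 434202) (nat_lit 18) (.e (nat_lit 5837) (nat_lit 320) .nil)))))))) (.g (nat_lit 4) .nil .nil)))))) 
(.nd (nat_lit 3) (.nd (nat_lit 4) (.nd (nat_lit 5) 
(.lf (nat_lit 93957) (.g (nat_lit 838) (.e (nat_lit 2580) (nat_lit 161) (.e (nat_lit 40965) (nat_lit 0) (.e (nat_lit 1555) (nat_lit 110) (.e (nat_lit 352269) (nat_lit 7) (.e (nat_lit 245777) (nat_lit 5) (.e (nat_lit 180287) (nat_lit 45) .nil)))))) (.g (nat_lit 0) .nil .nil))) 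
(.lf (nat_lit 93989) (.g (nat_lit 1252) (.e (nat_lit 2584) (nat_lit 161) (.e (nat_lit 40997) (nat_lit 11) (.e (nat_lit 24584) (nat_lit 0) (.e (nat_lit 2292) (nat_lit 151) .nil)))) .nil))) (.nd (nat_lit 5) 
(.lf (nat_lit 93973) (.g (nat_lit 1200) (.e (nat_lit 2580) (nat_lit 161) (.e (nat_lit 40965) (nat_lit 0) (.e (nat_lit 1591) (nat_lit 111) (.e (nat_lit 360477) (nat_lit 11) (.e (nat_lit 581652) (nat_lit 5) (.e (nat_lit 180285) (nat_lit 45) .nil)))))) (.g (nat_lit 0) .nil .nil))) 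
(.lf (nat_lit 94005) (.g (nat_lit 2973) (.e (nat_lit 2598) (nat_lit 163) (.e (nat_lit 164022) (nat_lit 46) (.e (nat_lit 704738) (nat_lit 11) (.e (nat_lit 16425) (nat_lit 7) (.e (nat_lit 409649) (nat_lit 18) (.e (nat_lit 303140) (nat_lit 10) (.e (nat_lit 434202) (nat_lit 18) (.e (nat_lit 5833) (nat_lit 320) .nil)))))))) (.g (nat_lit 4) .nil .nil))))) (.nd (nat_lit 4) (.nd (nat_lit 5) 
(.lf (nat_lit 93965) (.g (nat_lit 1012) (.e (nat_lit 2580) (nat_lit 161) (.e (nat_lit 40965) (nat_lit 0) (.e (nat_lit 1574) (nat_lit 110) (.e (nat_lit 352269) (nat_lit 7) (.e (nat_lit 245777) (nat_lit 5) (.e (nat_lit 180284) (nat_lit 45) .nil)))))) (.g (nat_lit 0) .nil .nil))) 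
(.lf (nat_lit 93997) (.g (nat_lit 2939) (.e (nat_lit 2598) (nat_lit 163) (.e (nat_lit 164022) (nat_lit 46) (.e (nat_lit 704738) (nat_lit 11) (.e (nat_lit 16425) (nat_lit 7) (.e (nat_lit 409648) (nat_lit 18) .nil))))) .nil))) (.nd (nat_lit 5) 
(.lf (nat_lit 93981) (.g (nat_lit 2478) (.e (nat_lit 2580) (nat_lit 161) (.e (nat_lit 40993) (nat_lit 11) (.e (nat_lit 24660) (nat_lit 13) (.e (nat_lit 393260) (nat_lit 21) (.e (nat_lit 409617) (nat_lit 10) (.e (nat_lit 4934) (nat_lit 287) .nil)))))) (.g (nat_lit 6) .nil .nil))) 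
(.lf (nat_lit 94013) (.g (nat_lit 2889) (.e (nat_lit 2598) (nat_lit 163) (.e (nat_lit 164022) (nat_lit 46) (.e (nat_lit 704738) (nat_lit 11) (.e (nat_lit 16425) (nat_lit 7) (.e (nat_lit 409649) (nat_lit 18) (.e (nat_lit 303140) (nat_lit 10) (.e (nat_lit 434202) (nat_lit 18) (.e (nat_lit 5847) (nat_lit 320) .nil)))))))) (.g (nat_lit 4) .nil .nil))))))) 
(.nd (nat_lit 2) (.nd (nat_lit 3) (.nd (nat_lit 4) (.nd (nat_lit 5) 
(.lf (nat_lit 93955) (.g (nat_lit 807) (.e (nat_lit 2580) (nat_lit 161) (.e (nat_lit 40965) (nat_lit 0) (.e (nat_lit 1555) (nat_lit 110) (.e (nat_lit 352269) (nat_lit 7) (.e (nat_lit 245777) (nat_lit 5) (.e (nat_lit 180284) (nat_lit 45) .nil)))))) (.g (nat_lit 0) .nil .nil))) 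
(.lf (nat_lit 93987) (.g (nat_lit 2670) (.e (nat_lit 2584) (nat_lit 161) (.e (nat_lit 40994) (nat_lit 11) (.e (nat_lit 24660) (nat_lit 13) (.e (nat_lit 393260) (nat_lit 21) (.e (nat_lit 409616) (nat_lit 10) (.e (nat_lit 4926) (nat_lit 287) .nil)))))) (.g (nat_lit 5) .nil .nil)))) (.nd (nat_lit 5) 
(.lf (nat_lit 93971) (.g (nat_lit 961) (.e (nat_lit 2580) (nat_lit 161) (.e (nat_lit 40965) (nat_lit 0) (.e (nat_lit 1585) (nat_lit 111) (.e (nat_lit 360477) (nat_lit 11) (.e (nat_lit 581652) (nat_lit 5) (.e (nat_lit 180287) (nat_lit 45) .nil)))))) (.g (nat_lit 0) .nil .nil))) 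
(.lf (nat_lit 94003) (.g (nat_lit 2967) (.e (nat_lit 2598) (nat_lit 163) (.e (nat_lit 164022) (nat_lit 46) (.e (nat_lit 704738) (nat_lit 11) (.e (nat_lit 16425) (nat_lit 7) (.e (nat_lit 409649) (nat_lit 18) (.e (nat_lit 303140) (nat_lit 10) (.e (nat_lit 434202) (nat_lit 18) (.e (nat_lit 5830) (nat_lit 320) .nil)))))))) (.g (nat_lit 4) .nil .nil))))) (.nd (nat_lit 4) (.nd (nat_lit 5) 
(.lf (nat_lit 93963) (.g (nat_lit 871) (.e (nat_lit 2580) (nat_lit 161) (.e (nat_lit 40965) (nat_lit 0) (.e (nat_lit 1568) (nat_lit 110) (.e (nat_lit 352269) (nat_lit 7) (.e (nat_lit 245777) (nat_lit 5) (.e (nat_lit 180285) (nat_lit 45) .nil)))))) (.g (nat_lit 0) .nil .nil))) 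
(.lf (nat_lit 93995) (.g (nat_lit 1932) (.e (nat_lit 2594) (nat_lit 162) (.e (nat_lit 49189) (nat_lit 11) (.e (nat_lit 16425) (nat_lit 7) (.e (nat_lit 409646) (nat_lit 18) (.e (nat_lit 303143) (nat_lit 12) .nil))))) .nil))) (.nd (nat_lit 5) 
(.lf (nat_lit 93979) (.g (nat_lit 1009) (.e (nat_lit 2580) (nat_lit 161) (.e (nat_lit 40965) (nat_lit 0) (.e (nat_lit 1597) (nat_lit 111) (.e (nat_lit 368384) (nat_lit 11) (.e (nat_lit 581652) (nat_lit 5) (.e (nat_lit 180284) (nat_lit 45) .nil)))))) (.g (nat_lit 5) .nil .nil))) 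
(.lf (nat_lit 94011) (.g (nat_lit 2842) (.e (nat_lit 2598) (nat_lit 163) (.e (nat_lit 164022) (nat_lit 46) (.e (nat_lit 704738) (nat_lit 11) (.e (nat_lit 16425) (nat_lit 7) (.e (nat_lit 409649) (nat_lit 18) (.e (nat_lit 303140) (nat_lit 10) (.e (nat_lit 434202) (nat_lit 18) (.e (nat_lit 5843) (nat_lit 320) .nil)))))))) (.g (nat_lit 4) .nil .nil)))))) 
(.nd (nat_lit 3) (.nd (nat_lit 4) (.nd (nat_lit 5) 
(.lf (nat_lit 93959) (.g (nat_lit 675) (.e (nat_lit 2580) (nat_lit 161) (.e (nat_lit 40965) (nat_lit 0) (.e (nat_lit 1558) (nat_lit 110) (.e (nat_lit 352269) (nat_lit 7) (.e (nat_lit 245777) (nat_lit 5) (.e (nat_lit 180287) (nat_lit 45) .nil)))))) (.g (nat_lit 0) .nil .nil))) 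
(.lf (nat_lit 93991) (.g (nat_lit 2439) (.e (nat_lit 2584) (nat_lit 161) (.e (nat_lit 40997) (nat_lit 11) (.e (nat_lit 24617) (nat_lit 7) (.e (nat_lit 319534) (nat_lit 16) (.e (nat_lit 286756) (nat_lit 10) (.e (nat_lit 344160) (nat_lit 37) (.e (nat_lit 655104) (nat_lit 14) .nil))))))) (.g (nat_lit 5) .nil .nil)))) (.nd (nat_lit 5) 
(.lf (nat_lit 93975) (.g (nat_lit 820) (.e (nat_lit 2580) (nat_lit 161) (.e (nat_lit 40965) (nat_lit 0) (.e (nat_lit 1597) (nat_lit 111) (.e (nat_lit 360470) (nat_lit 6) .nil)))) .nil)) 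
(.lf (nat_lit 94007) (.g (nat_lit 2984) (.e (nat_lit 2598) (nat_lit 163) (.e (nat_lit 164022) (nat_lit 46) (.e (nat_lit 704738) (nat_lit 11) (.e (nat_lit 16425) (nat_lit 7) (.e (nat_lit 409649) (nat_lit 18) (.e (nat_lit 303140) (nat_lit 10) (.e (nat_lit 434202) (nat_lit 18) (.e (nat_lit 5835) (nat_lit 320) .nil)))))))) (.g (nat_lit 4) .nil .nil))))) (.nd (nat_lit 4) (.nd (nat_lit 5) 
(.lf (nat_lit 93967) (.g (nat_lit 406) (.e (nat_lit 2580) (nat_lit 161) (.e (nat_lit 40965) (nat_lit 0) (.e (nat_lit 1582) (nat_lit 111) (.e (nat_lit 368384) (nat_lit 5) .nil)))) .nil)) 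
(.lf (nat_lit 93999) (.g (nat_lit 2926) (.e (nat_lit 2598) (nat_lit 163) (.e (nat_lit 164022) (nat_lit 46) (.e (nat_lit 704738) (nat_lit 11) (.e (nat_lit 16425) (nat_lit 7) (.e (nat_lit 409649) (nat_lit 18) (.e (nat_lit 303140) (nat_lit 10) (.e (nat_lit 434200) (nat_lit 18) (.e (nat_lit 5798) (nat_lit 320) .nil)))))))) (.g (nat_lit 4) .nil .nil)))) (.nd (nat_lit 5) 
(.lf (nat_lit 93983) (.g (nat_lit 1190) (.e (nat_lit 2583) (nat_lit 161) (.e (nat_lit 40997) (nat_lit 11) (.e (nat_lit 24658) (nat_lit 13) (.e (nat_lit 393238) (nat_lit 17) .nil)))) .nil)) 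
(.lf (nat_lit 94015) (.g (nat_lit 2200) (.e (nat_lit 2598) (nat_lit 163) (.e (nat_lit 164023) (nat_lit 46) (.e (nat_lit 704738) (nat_lit 11) (.e (nat_lit 16425) (nat_lit 7) .nil)))) .nil))))))))

noncomputable def tv1291 : DT := (.nd (nat_lit 0) (.nd (nat_lit 1) (.nd (nat_lit 2) (.nd (nat_lit 3) (.nd (nat_lit 4) (.nd (nat_lit 5) 
(.lf (nat_lit 94016) (.g (nat_lit 2157) (.e (nat_lit 2598) (nat_lit 163) (.e (nat_lit 164398) (nat_lit 256) (.e (nat_lit 57372) (nat_lit 2) (.e (nat_lit 90172) (nat_lit 14) (.e (nat_lit 180244) (nat_lit 5) .nil))))) .nil)) 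
(.lf (nat_lit 94048) (.g (nat_lit 2181) (.e (nat_lit 2599) (nat_lit 163) (.e (nat_lit 164398) (nat_lit 256) (.e (nat_lit 57375) (nat_lit 2) (.e (nat_lit 90172) (nat_lit 14) (.e (nat_lit 180243) (nat_lit 5) .nil))))) .nil))) (.nd (nat_lit 5) 
(.lf (nat_lit 94032) (.g (nat_lit 1862) (.e (nat_lit 2599) (nat_lit 163) (.e (nat_lit 163979) (nat_lit 30) (.e (nat_lit 573449) (nat_lit 9) (.e (nat_lit 1615) (nat_lit 113) (.e (nat_lit 376865) (nat_lit 22) (.e (nat_lit 90185) (nat_lit 17) (.e (nat_lit 237582) (nat_lit 1) (.e (nat_lit 164345) (nat_lit 240) .nil)))))))) (.g (nat_lit 4) .nil .nil))) 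
(.lf (nat_lit 94064) (.g (nat_lit 3885) (.e (nat_lit 2600) (nat_lit 163) (.e (nat_lit 163975) (nat_lit 30) (.e (nat_lit 573450) (nat_lit 9) (.e (nat_lit 1615) (nat_lit 113) (.e (nat_lit 376865) (nat_lit 22) (.e (nat_lit 90185) (nat_lit 17) (.e (nat_lit 237585) (nat_lit 1) (.e (nat_lit 164345) (nat_lit 240) .nil)))))))) (.g (nat_lit 8) .nil .nil))))) (.nd (nat_lit 4) (.nd (nat_lit 5) 
(.lf (nat_lit 94024) (.g (nat_lit 2998) (.e (nat_lit 2599) (nat_lit 163) (.e (nat_lit 163975) (nat_lit 30) (.e (nat_lit 573449) (nat_lit 9) (.e (nat_lit 1615) (nat_lit 113) (.e (nat_lit 376865) (nat_lit 22) (.e (nat_lit 90185) (nat_lit 17) (.e (nat_lit 237584) (nat_lit 1) (.e (nat_lit 164348) (nat_lit 240) .nil)))))))) (.g (nat_lit 6) .nil .nil))) 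
(.lf (nat_lit 94056) (.g (nat_lit 2369) (.e (nat_lit 2599) (nat_lit 163) (.e (nat_lit 164399) (nat_lit 256) (.e (nat_lit 57375) (nat_lit 2) (.e (nat_lit 90172) (nat_lit 14) (.e (nat_lit 180243) (nat_lit 5) .nil))))) .nil))) (.nd (nat_lit 5) 
(.lf (nat_lit 94040) (.g (nat_lit 3040) (.e (nat_lit 2599) (nat_lit 163) (.e (nat_lit 164022) (nat_lit 46) (.e (nat_lit 704738) (nat_lit 11) (.e (nat_lit 16425) (nat_lit 7) (.e (nat_lit 409649) (nat_lit 18) (.e (nat_lit 303140) (nat_lit 10) (.e (nat_lit 434201) (nat_lit 18) (.e (nat_lit 5922) (nat_lit 320) .nil)))))))) (.g (nat_lit 4) .nil .nil))) 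
(.lf (nat_lit 94072) (.g (nat_lit 486) (.e (nat_lit 2600) (nat_lit 163) (.e (nat_lit 164182) (nat_lit 154) (.e (nat_lit 57448) (nat_lit 19) .nil))) .nil))))) (.nd (nat_lit 3) (.nd (nat_lit 4) (.nd (nat_lit 5) 
(.lf (nat_lit 94020) (.g (nat_lit 2723) (.e (nat_lit 2598) (nat_lit 163) (.e (nat_lit 164403) (nat_lit 256) (.e (nat_lit 57373) (nat_lit 2) (.e (nat_lit 90172) (nat_lit 14) (.e (nat_lit 180244) (nat_lit 5) .nil))))) .nil)) 
(.lf (nat_lit 94052) (.g (nat_lit 2272) (.e (nat_lit 2599) (nat_lit 163) (.e (nat_lit 164398) (nat_lit 256) (.e (nat_lit 57379) (nat_lit 3) (.e (nat_lit 98377) (nat_lit 30) (.e (nat_lit 458789) (nat_lit 23) (.e (nat_lit 532515) (nat_lit 3) (.e (nat_lit 114716) (nat_lit 22) (.e (nat_lit 90137) (nat_lit 9) .nil)))))))) (.g (nat_lit 5) .nil .nil)))) (.nd (nat_lit 5) 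
(.lf (nat_lit 94036) (.g (nat_lit 3901) (.e (nat_lit 2599) (nat_lit 163) (.e (nat_lit 163979) (nat_lit 30) (.e (nat_lit 573451) (nat_lit 9) (.e (nat_lit 1595) (nat_lit 111) (.e (nat_lit 360467) (nat_lit 3) (.e (nat_lit 516158) (nat_lit 9) (.e (nat_lit 426107) (nat_lit 1) (.e (nat_lit 164347) (nat_lit 240) .nil)))))))) (.g (nat_lit 6) .nil .nil))) 
(.lf (nat_lit 94068) (.g (nat_lit 2101) (.e (nat_lit 2600) (nat_lit 163) (.e (nat_lit 164022) (nat_lit 46) (.e (nat_lit 704738) (nat_lit 11) (.e (nat_lit 16425) (nat_lit 7) .nil)))) .nil)))) (.nd (nat_lit 4) (.nd (nat_lit 5) 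
(.lf (nat_lit 94028) (.g (nat_lit 3266) (.e (nat_lit 2599) (nat_lit 163) (.e (nat_lit 163975) (nat_lit 30) (.e (nat_lit 573450) (nat_lit 9) (.e (nat_lit 1615) (nat_lit 113) (.e (nat_lit 376865) (nat_lit 22) (.e (nat_lit 90185) (nat_lit 17) (.e (nat_lit 237584) (nat_lit 1) (.e (nat_lit 164345) (nat_lit 240) .nil)))))))) (.g (nat_lit 6) .nil .nil))) 
(.lf (nat_lit 94060) (.g (nat_lit 2140) (.e (nat_lit 2599) (nat_lit 163) (.e (nat_lit 164403) (nat_lit 256) (.e (nat_lit 57371) (nat_lit 2) (.e (nat_lit 90172) (nat_lit 14) (.e (nat_lit 180244) (nat_lit 5) .nil))))) .nil))) (.nd (nat_lit 5) 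
(.lf (nat_lit 94044) (.g (nat_lit 2895) (.e (nat_lit 2599) (nat_lit 163) (.e (nat_lit 164398) (nat_lit 256) (.e (nat_lit 57372) (nat_lit 2) (.e (nat_lit 90172) (nat_lit 14) (.e (nat_lit 180243) (nat_lit 5) (.e (nat_lit 532515) (nat_lit 3) (.e (nat_lit 114716) (nat_lit 22) (.e (nat_lit 90137) (nat_lit 9) .nil)))))))) (.g (nat_lit 4) .nil .nil))) 
(.lf (nat_lit 94076) (.g (nat_lit 1980) (.e (nat_lit 2600) (nat_lit 163) (.e (nat_lit 164398) (nat_lit 256) (.e (nat_lit 57375) (nat_lit 2) (.e (nat_lit 90172) (nat_lit 14) (.e (nat_lit 180244) (nat_lit 5) (.e (nat_lit 532515) (nat_lit 3) (.e (nat_lit 114716) (nat_lit 22) (.e (nat_lit 90137) (nat_lit 9) .nil)))))))) (.g (nat_lit 4) .nil .nil))))))) 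
(.nd (nat_lit 2) (.nd (nat_lit 3) (.nd (nat_lit 4) (.nd (nat_lit 5) 
(.lf (nat_lit 94018) (.g (nat_lit 2281) (.e (nat_lit 2598) (nat_lit 163) (.e (nat_lit 164399) (nat_lit 256) (.e (nat_lit 57375) (nat_lit 2) (.e (nat_lit 90172) (nat_lit 14) (.e (nat_lit 180244) (nat_lit 5) .nil))))) .nil)) 
(.lf (nat_lit 94050) (.g (nat_lit 2477) (.e (nat_lit 2599) (nat_lit 163) (.e (nat_lit 164398) (nat_lit 256) (.e (nat_lit 57375) (nat_lit 2) (.e (nat_lit 90174) (nat_lit 14) (.e (nat_lit 180243) (nat_lit 5) (.e (nat_lit 532515) (nat_lit 3) (.e (nat_lit 114716) (nat_lit 22) (.e (nat_lit 90137) (nat_lit 9) .nil)))))))) (.g (nat_lit 6) .nil .nil)))) (.nd (nat_lit 5) 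
(.lf (nat_lit 94034) (.g (nat_lit 1894) (.e (nat_lit 2599) (nat_lit 163) (.e (nat_lit 163979) (nat_lit 30) (.e (nat_lit 573449) (nat_lit 9) (.e (nat_lit 1615) (nat_lit 113) (.e (nat_lit 376865) (nat_lit 22) (.e (nat_lit 90185) (nat_lit 17) (.e (nat_lit 237585) (nat_lit 1) (.e (nat_lit 164345) (nat_lit 240) .nil)))))))) (.g (nat_lit 4) .nil .nil))) 
(.lf (nat_lit 94066) (.g (nat_lit 2880) (.e (nat_lit 2600) (nat_lit 163) (.e (nat_lit 164020) (nat_lit 45) (.e (nat_lit 696344) (nat_lit 8) (.e (nat_lit 172079) (nat_lit 7) (.e (nat_lit 409645) (nat_lit 18) (.e (nat_lit 303133) (nat_lit 9) (.e (nat_lit 426412) (nat_lit 15) (.e (nat_lit 1009) (nat_lit 81) (.e (nat_lit 6811) (nat_lit 365) .nil))))))))) (.g (nat_lit 6) .nil .nil))))) 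
(.nd (nat_lit 4) (.nd (nat_lit 5) 
(.lf (nat_lit 94026) (.g (nat_lit 2343) (.e (nat_lit 2599) (nat_lit 163) (.e (nat_lit 163975) (nat_lit 30) (.e (nat_lit 573450) (nat_lit 9) (.e (nat_lit 1615) (nat_lit 113) (.e (nat_lit 376862) (nat_lit 22) (.e (nat_lit 90185) (nat_lit 17) (.e (nat_lit 237585) (nat_lit 1) (.e (nat_lit 164345) (nat_lit 240) .nil)))))))) (.g (nat_lit 5) .nil .nil))) 
(.lf (nat_lit 94058) (.g (nat_lit 2622) (.e (nat_lit 2599) (nat_lit 163) (.e (nat_lit 164399) (nat_lit 256) (.e (nat_lit 57379) (nat_lit 3) (.e (nat_lit 98377) (nat_lit 30) (.e (nat_lit 458789) (nat_lit 23) (.e (nat_lit 532515) (nat_lit 3) (.e (nat_lit 114716) (nat_lit 22) (.e (nat_lit 90137) (nat_lit 9) .nil)))))))) (.g (nat_lit 5) .nil .nil)))) (.nd (nat_lit 5) 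
(.lf (nat_lit 94042) (.g (nat_lit 1873) (.e (nat_lit 2599) (nat_lit 163) (.e (nat_lit 164327) (nat_lit 230) (.e (nat_lit 163886) (nat_lit 5) (.e (nat_lit 229120) (nat_lit 12) (.e (nat_lit 344133) (nat_lit 26) (.e (nat_lit 557103) (nat_lit 14) (.e (nat_lit 180263) (nat_lit 21) (.e (nat_lit 663579) (nat_lit 9) .nil)))))))) (.g (nat_lit 5) .nil .nil))) 
(.lf (nat_lit 94074) (.g (nat_lit 2469) (.e (nat_lit 2600) (nat_lit 163) (.e (nat_lit 164398) (nat_lit 256) (.e (nat_lit 57372) (nat_lit 2) (.e (nat_lit 90172) (nat_lit 14) (.e (nat_lit 180244) (nat_lit 5) (.e (nat_lit 532515) (nat_lit 3) (.e (nat_lit 114716) (nat_lit 22) (.e (nat_lit 90137) (nat_lit 9) .nil)))))))) (.g (nat_lit 4) .nil .nil)))))) 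
(.nd (nat_lit 3) (.nd (nat_lit 4) (.nd (nat_lit 5) 
(.lf (nat_lit 94022) (.g (nat_lit 3181) (.e (nat_lit 2599) (nat_lit 163) (.e (nat_lit 163975) (nat_lit 30) (.e (nat_lit 573449) (nat_lit 9) (.e (nat_lit 1615) (nat_lit 113) (.e (nat_lit 376865) (nat_lit 22) (.e (nat_lit 90185) (nat_lit 17) (.e (nat_lit 237582) (nat_lit 1) (.e (nat_lit 164347) (nat_lit 240) .nil)))))))) (.g (nat_lit 6) .nil .nil))) 
(.lf (nat_lit 94054) (.g (nat_lit 2673) (.e (nat_lit 2599) (nat_lit 163) (.e (nat_lit 164399) (nat_lit 256) (.e (nat_lit 57373) (nat_lit 2) (.e (nat_lit 90172) (nat_lit 14) (.e (nat_lit 180243) (nat_lit 5) .nil))))) .nil))) (.nd (nat_lit 5) 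
(.lf (nat_lit 94038) (.g (nat_lit 2104) (.e (nat_lit 2599) (nat_lit 163) (.e (nat_lit 164022) (nat_lit 46) (.e (nat_lit 704738) (nat_lit 11) (.e (nat_lit 16425) (nat_lit 7) .nil)))) .nil)) 
(.lf (nat_lit 94070) (.g (nat_lit 3394) (.e (nat_lit 2600) (nat_lit 163) (.e (nat_lit 164022) (nat_lit 46) (.e (nat_lit 704738) (nat_lit 11) (.e (nat_lit 16425) (nat_lit 7) (.e (nat_lit 409649) (nat_lit 18) (.e (nat_lit 303140) (nat_lit 10) (.e (nat_lit 434201) (nat_lit 18) (.e (nat_lit 5922) (nat_lit 320) .nil)))))))) (.g (nat_lit 5) .nil .nil))))) (.nd (nat_lit 4) (.nd (nat_lit 5) 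
(.lf (nat_lit 94030) (.g (nat_lit 3451) (.e (nat_lit 2599) (nat_lit 163) (.e (nat_lit 163975) (nat_lit 30) (.e (nat_lit 573450) (nat_lit 9) (.e (nat_lit 1615) (nat_lit 113) (.e (nat_lit 376865) (nat_lit 22) (.e (nat_lit 90185) (nat_lit 17) (.e (nat_lit 237585) (nat_lit 1) (.e (nat_lit 164345) (nat_lit 240) .nil)))))))) (.g (nat_lit 7) .nil .nil))) 
(.lf (nat_lit 94062) (.g (nat_lit 1663) (.e (nat_lit 2600) (nat_lit 163) (.e (nat_lit 163975) (nat_lit 30) (.e (nat_lit 573450) (nat_lit 9) (.e (nat_lit 1615) (nat_lit 113) (.e (nat_lit 376862) (nat_lit 22) .nil))))) .nil))) (.nd (nat_lit 5) 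
(.lf (nat_lit 94046) (.g (nat_lit 2408) (.e (nat_lit 2599) (nat_lit 163) (.e (nat_lit 164398) (nat_lit 256) (.e (nat_lit 57373) (nat_lit 2) (.e (nat_lit 90172) (nat_lit 14) (.e (nat_lit 180243) (nat_lit 5) .nil))))) .nil)) 
(.lf (nat_lit 94078) (.g (nat_lit 1495) (.e (nat_lit 2600) (nat_lit 163) (.e (nat_lit 164398) (nat_lit 256) (.e (nat_lit 57379) (nat_lit 3) (.e (nat_lit 98377) (nat_lit 30) (.e (nat_lit 458789) (nat_lit 23) .nil))))) .nil))))))) (.nd (nat_lit 1) (.nd (nat_lit 2) (.nd (nat_lit 3) (.nd (nat_lit 4) (.nd (nat_lit 5) 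
(.lf (nat_lit 94017) (.g (nat_lit 1875) (.e (nat_lit 2598) (nat_lit 163) (.e (nat_lit 164398) (nat_lit 256) (.e (nat_lit 57373) (nat_lit 2) (.e (nat_lit 90172) (nat_lit 14) (.e (nat_lit 180244) (nat_lit 5) .nil))))) .nil)) 
(.lf (nat_lit 94049) (.g (nat_lit 2805) (.e (nat_lit 2599) (nat_lit 163) (.e (nat_lit 164398) (nat_lit 256) (.e (nat_lit 57375) (nat_lit 2) (.e (nat_lit 90172) (nat_lit 14) (.e (nat_lit 180244) (nat_lit 5) (.e (nat_lit 532515) (nat_lit 3) (.e (nat_lit 114716) (nat_lit 22) (.e (nat_lit 90137) (nat_lit 9) .nil)))))))) (.g (nat_lit 5) .nil .nil)))) (.nd (nat_lit 5) 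
(.lf (nat_lit 94033) (.g (nat_lit 1887) (.e (nat_lit 2599) (nat_lit 163) (.e (nat_lit 163979) (nat_lit 30) (.e (nat_lit 573449) (nat_lit 9) (.e (nat_lit 1615) (nat_lit 113) (.e (nat_lit 376865) (nat_lit 22) (.e (nat_lit 90185) (nat_lit 17) (.e (nat_lit 237584) (nat_lit 1) (.e (nat_lit 164348) (nat_lit 240) .nil)))))))) (.g (nat_lit 4) .nil .nil))) 
(.lf (nat_lit 94065) (.g (nat_lit 2751) (.e (nat_lit 2600) (nat_lit 163) (.e (nat_lit 163975) (nat_lit 30) (.e (nat_lit 573451) (nat_lit 9) (.e (nat_lit 1595) (nat_lit 111) (.e (nat_lit 360467) (nat_lit 3) .nil))))) .nil)))) (.nd (nat_lit 4) (.nd (nat_lit 5) 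
(.lf (nat_lit 94025) (.g (nat_lit 2286) (.e (nat_lit 2599) (nat_lit 163) (.e (nat_lit 163975) (nat_lit 30) (.e (nat_lit 573450) (nat_lit 9) (.e (nat_lit 1615) (nat_lit 113) (.e (nat_lit 376862) (nat_lit 22) (.e (nat_lit 90185) (nat_lit 17) (.e (nat_lit 237582) (nat_lit 1) (.e (nat_lit 164345) (nat_lit 240) .nil)))))))) (.g (nat_lit 5) .nil .nil))) 
(.lf (nat_lit 94057) (.g (nat_lit 1911) (.e (nat_lit 2599) (nat_lit 163) (.e (nat_lit 164399) (nat_lit 256) (.e (nat_lit 57378) (nat_lit 3) (.e (nat_lit 98377) (nat_lit 30) (.e (nat_lit 458789) (nat_lit 23) .nil))))) .nil))) (.nd (nat_lit 5) 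
(.lf (nat_lit 94041) (.g (nat_lit 1647) (.e (nat_lit 2599) (nat_lit 163) (.e (nat_lit 164053) (nat_lit 56) (.e (nat_lit 794368) (nat_lit 12) (.e (nat_lit 475207) (nat_lit 41) (.e (nat_lit 712755) (nat_lit 30) (.e (nat_lit 450563) (nat_lit 0) (.e (nat_lit 5125) (nat_lit 292) .nil))))))) (.g (nat_lit 6) .nil .nil))) 
(.lf (nat_lit 94073) (.g (nat_lit 1266) (.e (nat_lit 2600) (nat_lit 163) (.e (nat_lit 164183) (nat_lit 154) (.e (nat_lit 57447) (nat_lit 19) (.e (nat_lit 401152) (nat_lit 11) .nil)))) .nil))))) (.nd (nat_lit 3) (.nd (nat_lit 4) (.nd (nat_lit 5) 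
(.lf (nat_lit 94021) (.g (nat_lit 2150) (.e (nat_lit 2599) (nat_lit 163) (.e (nat_lit 163975) (nat_lit 30) (.e (nat_lit 573449) (nat_lit 9) (.e (nat_lit 1615) (nat_lit 113) (.e (nat_lit 376862) (nat_lit 22) (.e (nat_lit 90185) (nat_lit 17) (.e (nat_lit 237584) (nat_lit 1) (.e (nat_lit 164347) (nat_lit 240) .nil)))))))) (.g (nat_lit 5) .nil .nil))) 
(.lf (nat_lit 94053) (.g (nat_lit 1492) (.e (nat_lit 2599) (nat_lit 163) (.e (nat_lit 164399) (nat_lit 256) (.e (nat_lit 57370) (nat_lit 2) (.e (nat_lit 90172) (nat_lit 14) (.e (nat_lit 180244) (nat_lit 5) .nil))))) .nil))) (.nd (nat_lit 5) 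
(.lf (nat_lit 94037) (.g (nat_lit 2593) (.e (nat_lit 2599) (nat_lit 163) (.e (nat_lit 163979) (nat_lit 30) (.e (nat_lit 573451) (nat_lit 9) (.e (nat_lit 1595) (nat_lit 111) (.e (nat_lit 360467) (nat_lit 3) (.e (nat_lit 516169) (nat_lit 13) (.e (nat_lit 458774) (nat_lit 18) (.e (nat_lit 5547) (nat_lit 306) .nil)))))))) (.g (nat_lit 4) .nil .nil))) 
(.lf (nat_lit 94069) (.g (nat_lit 2936) (.e (nat_lit 2600) (nat_lit 163) (.e (nat_lit 164022) (nat_lit 46) (.e (nat_lit 704738) (nat_lit 11) (.e (nat_lit 16425) (nat_lit 7) (.e (nat_lit 409648) (nat_lit 18) .nil))))) .nil)))) (.nd (nat_lit 4) (.nd (nat_lit 5) 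
(.lf (nat_lit 94029) (.g (nat_lit 3649) (.e (nat_lit 2599) (nat_lit 163) (.e (nat_lit 163975) (nat_lit 30) (.e (nat_lit 573450) (nat_lit 9) (.e (nat_lit 1615) (nat_lit 113) (.e (nat_lit 376865) (nat_lit 22) (.e (nat_lit 90185) (nat_lit 17) (.e (nat_lit 237584) (nat_lit 1) (.e (nat_lit 164347) (nat_lit 240) .nil)))))))) (.g (nat_lit 8) .nil .nil))) 
(.lf (nat_lit 94061) (.g (nat_lit 3318) (.e (nat_lit 2599) (nat_lit 163) (.e (nat_lit 164403) (nat_lit 256) (.e (nat_lit 57373) (nat_lit 2) (.e (nat_lit 90172) (nat_lit 14) (.e (nat_lit 180243) (nat_lit 5) .nil))))) .nil))) (.nd (nat_lit 5) 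
(.lf (nat_lit 94045) (.g (nat_lit 3294) (.e (nat_lit 2599) (nat_lit 163) (.e (nat_lit 164398) (nat_lit 256) (.e (nat_lit 57372) (nat_lit 2) (.e (nat_lit 90172) (nat_lit 14) (.e (nat_lit 180244) (nat_lit 5) (.e (nat_lit 532515) (nat_lit 3) (.e (nat_lit 114716) (nat_lit 22) (.e (nat_lit 90137) (nat_lit 9) .nil)))))))) (.g (nat_lit 6) .nil .nil))) 
(.lf (nat_lit 94077) (.g (nat_lit 1652) (.e (nat_lit 2600) (nat_lit 163) (.e (nat_lit 164398) (nat_lit 256) (.e (nat_lit 57375) (nat_lit 2) (.e (nat_lit 90174) (nat_lit 14) (.e (nat_lit 180243) (nat_lit 5) (.e (nat_lit 532515) (nat_lit 3) (.e (nat_lit 114716) (nat_lit 22) (.e (nat_lit 90137) (nat_lit 9) .nil)))))))) (.g (nat_lit 4) .nil .nil))))))) 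
(.nd (nat_lit 2) (.nd (nat_lit 3) (.nd (nat_lit 4) (.nd (nat_lit 5) 
(.lf (nat_lit 94019) (.g (nat_lit 1373) (.e (nat_lit 2598) (nat_lit 163) (.e (nat_lit 164399) (nat_lit 256) (.e (nat_lit 57375) (nat_lit 2) (.e (nat_lit 90174) (nat_lit 14) .nil)))) .nil)) 
(.lf (nat_lit 94051) (.g (nat_lit 2030) (.e (nat_lit 2599) (nat_lit 163) (.e (nat_lit 164398) (nat_lit 256) (.e (nat_lit 57378) (nat_lit 3) (.e (nat_lit 98377) (nat_lit 30) (.e (nat_lit 458789) (nat_lit 23) (.e (nat_lit 532515) (nat_lit 3) (.e (nat_lit 114716) (nat_lit 22) (.e (nat_lit 90137) (nat_lit 9) .nil)))))))) (.g (nat_lit 4) .nil .nil)))) (.nd (nat_lit 5) 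
(.lf (nat_lit 94035) (.g (nat_lit 1860) (.e (nat_lit 2599) (nat_lit 163) (.e (nat_lit 163979) (nat_lit 30) (.e (nat_lit 573451) (nat_lit 9) (.e (nat_lit 1595) (nat_lit 111) .nil)))) .nil)) 
(.lf (nat_lit 94067) (.g (nat_lit 3481) (.e (nat_lit 2600) (nat_lit 163) (.e (nat_lit 164020) (nat_lit 45) (.e (nat_lit 696344) (nat_lit 8) (.e (nat_lit 172082) (nat_lit 7) (.e (nat_lit 409646) (nat_lit 18) (.e (nat_lit 303133) (nat_lit 9) (.e (nat_lit 426412) (nat_lit 15) (.e (nat_lit 1009) (nat_lit 81) (.e (nat_lit 6811) (nat_lit 365) .nil))))))))) (.g (nat_lit 7) .nil .nil))))) 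
(.nd (nat_lit 4) (.nd (nat_lit 5) 
(.lf (nat_lit 94027) (.g (nat_lit 3422) (.e (nat_lit 2599) (nat_lit 163) (.e (nat_lit 163975) (nat_lit 30) (.e (nat_lit 573450) (nat_lit 9) (.e (nat_lit 1615) (nat_lit 113) (.e (nat_lit 376865) (nat_lit 22) (.e (nat_lit 90185) (nat_lit 17) (.e (nat_lit 237582) (nat_lit 1) (.e (nat_lit 164345) (nat_lit 240) .nil)))))))) (.g (nat_lit 6) .nil .nil))) 
(.lf (nat_lit 94059) (.g (nat_lit 2595) (.e (nat_lit 2599) (nat_lit 163) (.e (nat_lit 164403) (nat_lit 256) (.e (nat_lit 57371) (nat_lit 2) (.e (nat_lit 90172) (nat_lit 14) (.e (nat_lit 180243) (nat_lit 5) .nil))))) .nil))) (.nd (nat_lit 5) 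
(.lf (nat_lit 94043) (.g (nat_lit 1716) (.e (nat_lit 2599) (nat_lit 163) (.e (nat_lit 164397) (nat_lit 256) (.e (nat_lit 57375) (nat_lit 2) (.e (nat_lit 90174) (nat_lit 14) (.e (nat_lit 180243) (nat_lit 5) .nil))))) .nil)) 
(.lf (nat_lit 94075) (.g (nat_lit 2529) (.e (nat_lit 2600) (nat_lit 163) (.e (nat_lit 164398) (nat_lit 256) (.e (nat_lit 57373) (nat_lit 2) (.e (nat_lit 90172) (nat_lit 14) (.e (nat_lit 180244) (nat_lit 5) (.e (nat_lit 532515) (nat_lit 3) (.e (nat_lit 114716) (nat_lit 22) (.e (nat_lit 90137) (nat_lit 9) .nil)))))))) (.g (nat_lit 5) .nil .nil)))))) 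
(.nd (nat_lit 3) (.nd (nat_lit 4) (.nd (nat_lit 5) 
(.lf (nat_lit 94023) (.g (nat_lit 3125) (.e (nat_lit 2599) (nat_lit 163) (.e (nat_lit 163975) (nat_lit 30) (.e (nat_lit 573449) (nat_lit 9) (.e (nat_lit 1615) (nat_lit 113) (.e (nat_lit 376865) (nat_lit 22) (.e (nat_lit 90185) (nat_lit 17) (.e (nat_lit 237584) (nat_lit 1) (.e (nat_lit 164347) (nat_lit 240) .nil)))))))) (.g (nat_lit 7) .nil .nil))) 
(.lf (nat_lit 94055) (.g (nat_lit 3085) (.e (nat_lit 2599) (nat_lit 163) (.e (nat_lit 164399) (nat_lit 256) (.e (nat_lit 57373) (nat_lit 2) (.e (nat_lit 90172) (nat_lit 14) (.e (nat_lit 180244) (nat_lit 5) (.e (nat_lit 532515) (nat_lit 3) (.e (nat_lit 114716) (nat_lit 22) (.e (nat_lit 90137) (nat_lit 9) .nil)))))))) (.g (nat_lit 6) .nil .nil)))) (.nd (nat_lit 5) 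
(.lf (nat_lit 94039) (.g (nat_lit 2939) (.e (nat_lit 2599) (nat_lit 163) (.e (nat_lit 164022) (nat_lit 46) (.e (nat_lit 704738) (nat_lit 11) (.e (nat_lit 16425) (nat_lit 7) (.e (nat_lit 409648) (nat_lit 18) .nil))))) .nil)) 
(.lf (nat_lit 94071) (.g (nat_lit 1656) (.e (nat_lit 2600) (nat_lit 163) (.e (nat_lit 164182) (nat_lit 154) (.e (nat_lit 57447) (nat_lit 19) (.e (nat_lit 401152) (nat_lit 11) .nil)))) .nil)))) (.nd (nat_lit 4) (.nd (nat_lit 5) 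
(.lf (nat_lit 94031) (.g (nat_lit 2927) (.e (nat_lit 2599) (nat_lit 163) (.e (nat_lit 163975) (nat_lit 30) (.e (nat_lit 573451) (nat_lit 9) (.e (nat_lit 1595) (nat_lit 111) (.e (nat_lit 360467) (nat_lit 3) .nil))))) .nil)) 
(.lf (nat_lit 94063) (.g (nat_lit 3882) (.e (nat_lit 2600) (nat_lit 163) (.e (nat_lit 163975) (nat_lit 30) (.e (nat_lit 573450) (nat_lit 9) (.e (nat_lit 1615) (nat_lit 113) (.e (nat_lit 376865) (nat_lit 22) (.e (nat_lit 90185) (nat_lit 17) (.e (nat_lit 237582) (nat_lit 1) (.e (nat_lit 164345) (nat_lit 240) .nil)))))))) (.g (nat_lit 8) .nil .nil)))) (.nd (nat_lit 5) 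
(.lf (nat_lit 94047) (.g (nat_lit 3309) (.e (nat_lit 2599) (nat_lit 163) (.e (nat_lit 164398) (nat_lit 256) (.e (nat_lit 57373) (nat_lit 2) (.e (nat_lit 90172) (nat_lit 14) (.e (nat_lit 180244) (nat_lit 5) (.e (nat_lit 532515) (nat_lit 3) (.e (nat_lit 114716) (nat_lit 22) (.e (nat_lit 90137) (nat_lit 9) .nil)))))))) (.g (nat_lit 8) .nil .nil))) 
(.lf (nat_lit 94079) (.g (nat_lit 2089) (.e (nat_lit 2600) (nat_lit 163) (.e (nat_lit 164399) (nat_lit 256) (.e (nat_lit 57372) (nat_lit 2) (.e (nat_lit 90172) (nat_lit 14) (.e (nat_lit 180244) (nat_lit 5) .nil))))) .nil))))))))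

noncomputable def tv1292 : DT := (.nd (nat_lit 0) (.nd (nat_lit 1) (.nd (nat_lit 2) (.nd (nat_lit 3) (.nd (nat_lit 4) (.nd (nat_lit 5) 
(.lf (nat_lit 94080) (.g (nat_lit 2101) (.e (nat_lit 2600) (nat_lit 163) (.e (nat_lit 164399) (nat_lit 256) (.e (nat_lit 57373) (nat_lit 2) (.e (nat_lit 90172) (nat_lit 14) (.e (nat_lit 180244) (nat_lit 5) .nil))))) .nil)) 
(.lf (nat_lit 94112) (.g (nat_lit 4550) (.e (nat_lit 2601) (nat_lit 163) (.e (nat_lit 164238) (nat_lit 187) (.e (nat_lit 1659) (nat_lit 115) (.e (nat_lit 393301) (nat_lit 27) (.e (nat_lit 491560) (nat_lit 10) (.e (nat_lit 344088) (nat_lit 18) (.e (nat_lit 6923) (nat_lit 371) .nil))))))) (.g (nat_lit 6) .nil .nil)))) (.nd (nat_lit 5) 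
(.lf (nat_lit 94096) (.g (nat_lit 2662) (.e (nat_lit 2601) (nat_lit 163) (.e (nat_lit 163975) (nat_lit 30) (.e (nat_lit 573451) (nat_lit 9) (.e (nat_lit 1595) (nat_lit 111) (.e (nat_lit 360467) (nat_lit 3) .nil))))) .nil)) 
(.lf (nat_lit 94128) (.g (nat_lit 2226) (.e (nat_lit 2602) (nat_lit 163) (.e (nat_lit 164403) (nat_lit 256) (.e (nat_lit 57378) (nat_lit 3) (.e (nat_lit 98368) (nat_lit 27) .nil)))) .nil)))) (.nd (nat_lit 4) (.nd (nat_lit 5) 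
(.lf (nat_lit 94088) (.g (nat_lit 3342) (.e (nat_lit 2601) (nat_lit 163) (.e (nat_lit 163975) (nat_lit 30) (.e (nat_lit 573449) (nat_lit 9) (.e (nat_lit 1615) (nat_lit 113) (.e (nat_lit 376865) (nat_lit 22) (.e (nat_lit 90185) (nat_lit 17) (.e (nat_lit 237584) (nat_lit 1) (.e (nat_lit 164348) (nat_lit 240) .nil)))))))) (.g (nat_lit 7) .nil .nil))) 
(.lf (nat_lit 94120) (.g (nat_lit 2049) (.e (nat_lit 2601) (nat_lit 163) (.e (nat_lit 164403) (nat_lit 256) (.e (nat_lit 57373) (nat_lit 2) (.e (nat_lit 90172) (nat_lit 14) .nil)))) .nil))) (.nd (nat_lit 5) 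
(.lf (nat_lit 94104) (.g (nat_lit 2141) (.e (nat_lit 2601) (nat_lit 163) (.e (nat_lit 164034) (nat_lit 54) (.e (nat_lit 770072) (nat_lit 8) (.e (nat_lit 65586) (nat_lit 7) (.e (nat_lit 319531) (nat_lit 16) (.e (nat_lit 286748) (nat_lit 9) (.e (nat_lit 336295) (nat_lit 15) (.e (nat_lit 2443) (nat_lit 157) (.e (nat_lit 7460) (nat_lit 396) .nil))))))))) (.g (nat_lit 5) .nil .nil))) 
(.lf (nat_lit 94136) (.g (nat_lit 2508) (.e (nat_lit 2603) (nat_lit 163) (.e (nat_lit 164398) (nat_lit 256) (.e (nat_lit 57372) (nat_lit 2) (.e (nat_lit 90172) (nat_lit 14) (.e (nat_lit 180243) (nat_lit 5) .nil))))) .nil))))) (.nd (nat_lit 3) (.nd (nat_lit 4) (.nd (nat_lit 5) 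
(.lf (nat_lit 94084) (.g (nat_lit 1202) (.e (nat_lit 2601) (nat_lit 163) (.e (nat_lit 163843) (nat_lit 0) (.e (nat_lit 6830) (nat_lit 367) (.e (nat_lit 57445) (nat_lit 19) .nil)))) .nil)) 
(.lf (nat_lit 94116) (.g (nat_lit 428) (.e (nat_lit 2601) (nat_lit 163) (.e (nat_lit 164305) (nat_lit 226) (.e (nat_lit 7936) (nat_lit 90) .nil))) .nil))) (.nd (nat_lit 5) 
(.lf (nat_lit 94100) (.g (nat_lit 3516) (.e (nat_lit 2601) (nat_lit 163) (.e (nat_lit 164020) (nat_lit 45) (.e (nat_lit 696344) (nat_lit 8) (.e (nat_lit 172079) (nat_lit 7) (.e (nat_lit 409645) (nat_lit 18) (.e (nat_lit 303133) (nat_lit 9) (.e (nat_lit 426412) (nat_lit 15) (.e (nat_lit 1009) (nat_lit 81) (.e (nat_lit 6811) (nat_lit 365) .nil))))))))) (.g (nat_lit 7) .nil .nil))) 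
(.lf (nat_lit 94132) (.g (nat_lit 2754) (.e (nat_lit 2603) (nat_lit 163) (.e (nat_lit 164022) (nat_lit 46) (.e (nat_lit 704738) (nat_lit 11) (.e (nat_lit 16425) (nat_lit 7) (.e (nat_lit 409649) (nat_lit 18) .nil))))) .nil)))) (.nd (nat_lit 4) (.nd (nat_lit 5) 
(.lf (nat_lit 94092) (.g (nat_lit 3956) (.e (nat_lit 2601) (nat_lit 163) (.e (nat_lit 163975) (nat_lit 30) (.e (nat_lit 573450) (nat_lit 9) (.e (nat_lit 1615) (nat_lit 113) (.e (nat_lit 376865) (nat_lit 22) (.e (nat_lit 90185) (nat_lit 17) (.e (nat_lit 237582) (nat_lit 1) (.e (nat_lit 164347) (nat_lit 240) .nil)))))))) (.g (nat_lit 8) .nil .nil))) 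
(.lf (nat_lit 94124) (.g (nat_lit 2577) (.e (nat_lit 2602) (nat_lit 163) (.e (nat_lit 164022) (nat_lit 46) (.e (nat_lit 704738) (nat_lit 11) (.e (nat_lit 16425) (nat_lit 7) (.e (nat_lit 409649) (nat_lit 18) .nil))))) .nil))) (.nd (nat_lit 5) 
(.lf (nat_lit 94108) (.g (nat_lit 3061) (.e (nat_lit 2601) (nat_lit 163) (.e (nat_lit 164238) (nat_lit 187) (.e (nat_lit 1659) (nat_lit 115) (.e (nat_lit 393301) (nat_lit 27) (.e (nat_lit 491558) (nat_lit 10) (.e (nat_lit 344090) (nat_lit 18) (.e (nat_lit 6923) (nat_lit 371) .nil))))))) (.g (nat_lit 5) .nil .nil))) 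
(.lf (nat_lit 94140) (.g (nat_lit 1889) (.e (nat_lit 2603) (nat_lit 163) (.e (nat_lit 164399) (nat_lit 256) (.e (nat_lit 57375) (nat_lit 2) (.e (nat_lit 90174) (nat_lit 14) (.e (nat_lit 180243) (nat_lit 5) .nil))))) .nil)))))) (.nd (nat_lit 2) (.nd (nat_lit 3) (.nd (nat_lit 4) (.nd (nat_lit 5) 
(.lf (nat_lit 94082) (.g (nat_lit 1871) (.e (nat_lit 2600) (nat_lit 163) (.e (nat_lit 164399) (nat_lit 256) (.e (nat_lit 57375) (nat_lit 2) (.e (nat_lit 90174) (nat_lit 14) (.e (nat_lit 180243) (nat_lit 5) .nil))))) .nil)) 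
(.lf (nat_lit 94114) (.g (nat_lit 4704) (.e (nat_lit 2601) (nat_lit 163) (.e (nat_lit 164238) (nat_lit 187) (.e (nat_lit 1659) (nat_lit 115) (.e (nat_lit 393301) (nat_lit 27) (.e (nat_lit 491560) (nat_lit 10) (.e (nat_lit 344091) (nat_lit 18) (.e (nat_lit 6923) (nat_lit 371) .nil))))))) (.g (nat_lit 0) .nil .nil)))) (.nd (nat_lit 5) 
(.lf (nat_lit 94098) (.g (nat_lit 1759) (.e (nat_lit 2601) (nat_lit 163) (.e (nat_lit 163977) (nat_lit 30) (.e (nat_lit 573449) (nat_lit 9) (.e (nat_lit 1615) (nat_lit 113) (.e (nat_lit 376865) (nat_lit 22) (.e (nat_lit 90185) (nat_lit 17) (.e (nat_lit 237584) (nat_lit 1) (.e (nat_lit 164347) (nat_lit 240) .nil)))))))) (.g (nat_lit 4) .nil .nil))) 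
(.lf (nat_lit 94130) (.g (nat_lit 2981) (.e (nat_lit 2603) (nat_lit 163) (.e (nat_lit 164022) (nat_lit 46) (.e (nat_lit 704738) (nat_lit 11) (.e (nat_lit 16425) (nat_lit 7) (.e (nat_lit 409648) (nat_lit 18) (.e (nat_lit 303137) (nat_lit 10) (.e (nat_lit 434200) (nat_lit 18) (.e (nat_lit 5798) (nat_lit 320) .nil)))))))) (.g (nat_lit 4) .nil .nil))))) (.nd (nat_lit 4) (.nd (nat_lit 5) 
(.lf (nat_lit 94090) (.g (nat_lit 2923) (.e (nat_lit 2601) (nat_lit 163) (.e (nat_lit 163975) (nat_lit 30) (.e (nat_lit 573450) (nat_lit 9) (.e (nat_lit 1615) (nat_lit 113) (.e (nat_lit 376862) (nat_lit 22) (.e (nat_lit 90185) (nat_lit 17) (.e (nat_lit 237584) (nat_lit 1) (.e (nat_lit 164347) (nat_lit 240) .nil)))))))) (.g (nat_lit 6) .nil .nil))) 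
(.lf (nat_lit 94122) (.g (nat_lit 2772) (.e (nat_lit 2602) (nat_lit 163) (.e (nat_lit 164022) (nat_lit 46) (.e (nat_lit 704738) (nat_lit 11) (.e (nat_lit 16425) (nat_lit 7) (.e (nat_lit 409648) (nat_lit 18) (.e (nat_lit 303137) (nat_lit 10) (.e (nat_lit 434200) (nat_lit 18) (.e (nat_lit 5798) (nat_lit 320) .nil)))))))) (.g (nat_lit 4) .nil .nil)))) (.nd (nat_lit 5) 
(.lf (nat_lit 94106) (.g (nat_lit 1495) (.e (nat_lit 2601) (nat_lit 163) (.e (nat_lit 164183) (nat_lit 154) (.e (nat_lit 57373) (nat_lit 2) (.e (nat_lit 90165) (nat_lit 12) .nil)))) .nil)) 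
(.lf (nat_lit 94138) (.g (nat_lit 2089) (.e (nat_lit 2603) (nat_lit 163) (.e (nat_lit 164399) (nat_lit 256) (.e (nat_lit 57372) (nat_lit 2) (.e (nat_lit 90172) (nat_lit 14) (.e (nat_lit 180244) (nat_lit 5) .nil))))) .nil))))) (.nd (nat_lit 3) (.nd (nat_lit 4) (.nd (nat_lit 5) 
(.lf (nat_lit 94086) (.g (nat_lit 3308) (.e (nat_lit 2601) (nat_lit 163) (.e (nat_lit 163975) (nat_lit 30) (.e (nat_lit 573449) (nat_lit 9) (.e (nat_lit 1615) (nat_lit 113) (.e (nat_lit 376865) (nat_lit 22) (.e (nat_lit 90185) (nat_lit 17) (.e (nat_lit 237584) (nat_lit 1) (.e (nat_lit 164345) (nat_lit 240) .nil)))))))) (.g (nat_lit 7) .nil .nil))) 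
(.lf (nat_lit 94118) (.g (nat_lit 1368) (.e (nat_lit 2601) (nat_lit 163) (.e (nat_lit 164332) (nat_lit 230) (.e (nat_lit 163885) (nat_lit 5) (.e (nat_lit 229120) (nat_lit 12) .nil)))) .nil))) (.nd (nat_lit 5) 
(.lf (nat_lit 94102) (.g (nat_lit 3133) (.e (nat_lit 2601) (nat_lit 163) (.e (nat_lit 164020) (nat_lit 45) (.e (nat_lit 696344) (nat_lit 8) (.e (nat_lit 172082) (nat_lit 7) (.e (nat_lit 409646) (nat_lit 18) (.e (nat_lit 303133) (nat_lit 9) (.e (nat_lit 426412) (nat_lit 15) (.e (nat_lit 1008) (nat_lit 81) (.e (nat_lit 6811) (nat_lit 365) .nil))))))))) (.g (nat_lit 6) .nil .nil))) 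
(.lf (nat_lit 94134) (.g (nat_lit 2855) (.e (nat_lit 2603) (nat_lit 163) (.e (nat_lit 164022) (nat_lit 46) (.e (nat_lit 704738) (nat_lit 11) (.e (nat_lit 16425) (nat_lit 7) (.e (nat_lit 409649) (nat_lit 18) (.e (nat_lit 303140) (nat_lit 10) (.e (nat_lit 434200) (nat_lit 18) (.e (nat_lit 5811) (nat_lit 320) .nil)))))))) (.g (nat_lit 4) .nil .nil))))) (.nd (nat_lit 4) (.nd (nat_lit 5) 
(.lf (nat_lit 94094) (.g (nat_lit 3714) (.e (nat_lit 2601) (nat_lit 163) (.e (nat_lit 163975) (nat_lit 30) (.e (nat_lit 573450) (nat_lit 9) (.e (nat_lit 1615) (nat_lit 113) (.e (nat_lit 376865) (nat_lit 22) (.e (nat_lit 90185) (nat_lit 17) (.e (nat_lit 237584) (nat_lit 1) (.e (nat_lit 164345) (nat_lit 240) .nil)))))))) (.g (nat_lit 8) .nil .nil))) 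
(.lf (nat_lit 94126) (.g (nat_lit 2513) (.e (nat_lit 2602) (nat_lit 163) (.e (nat_lit 164399) (nat_lit 256) (.e (nat_lit 57375) (nat_lit 2) (.e (nat_lit 90172) (nat_lit 14) (.e (nat_lit 180243) (nat_lit 5) .nil))))) .nil))) (.nd (nat_lit 5) 
(.lf (nat_lit 94110) (.g (nat_lit 4779) (.e (nat_lit 2601) (nat_lit 163) (.e (nat_lit 164238) (nat_lit 187) (.e (nat_lit 1659) (nat_lit 115) (.e (nat_lit 393301) (nat_lit 27) (.e (nat_lit 491559) (nat_lit 10) (.e (nat_lit 344091) (nat_lit 18) (.e (nat_lit 6923) (nat_lit 371) .nil))))))) (.g (nat_lit 0) .nil .nil))) 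
(.lf (nat_lit 94142) (.g (nat_lit 2595) (.e (nat_lit 2603) (nat_lit 163) (.e (nat_lit 164403) (nat_lit 256) (.e (nat_lit 57371) (nat_lit 2) (.e (nat_lit 90172) (nat_lit 14) (.e (nat_lit 180243) (nat_lit 5) .nil))))) .nil))))))) (.nd (nat_lit 1) (.nd (nat_lit 2) (.nd (nat_lit 3) (.nd (nat_lit 4) (.nd (nat_lit 5) 
(.lf (nat_lit 94081) (.g (nat_lit 2309) (.e (nat_lit 2600) (nat_lit 163) (.e (nat_lit 164399) (nat_lit 256) (.e (nat_lit 57375) (nat_lit 2) (.e (nat_lit 90172) (nat_lit 14) (.e (nat_lit 180244) (nat_lit 5) (.e (nat_lit 532515) (nat_lit 3) (.e (nat_lit 114716) (nat_lit 22) (.e (nat_lit 90137) (nat_lit 9) .nil)))))))) (.g (nat_lit 4) .nil .nil))) 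
(.lf (nat_lit 94113) (.g (nat_lit 4392) (.e (nat_lit 2601) (nat_lit 163) (.e (nat_lit 164238) (nat_lit 187) (.e (nat_lit 1659) (nat_lit 115) (.e (nat_lit 393301) (nat_lit 27) (.e (nat_lit 491560) (nat_lit 10) (.e (nat_lit 344090) (nat_lit 18) (.e (nat_lit 6923) (nat_lit 371) .nil))))))) (.g (nat_lit 7) .nil .nil)))) (.nd (nat_lit 5) 
(.lf (nat_lit 94097) (.g (nat_lit 2897) (.e (nat_lit 2601) (nat_lit 163) (.e (nat_lit 163976) (nat_lit 30) (.e (nat_lit 573451) (nat_lit 9) (.e (nat_lit 1595) (nat_lit 111) (.e (nat_lit 360467) (nat_lit 3) (.e (nat_lit 516158) (nat_lit 9) (.e (nat_lit 426107) (nat_lit 1) (.e (nat_lit 164347) (nat_lit 240) .nil)))))))) (.g (nat_lit 5) .nil .nil))) 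
(.lf (nat_lit 94129) (.g (nat_lit 2857) (.e (nat_lit 2603) (nat_lit 163) (.e (nat_lit 164022) (nat_lit 46) (.e (nat_lit 704738) (nat_lit 11) (.e (nat_lit 16425) (nat_lit 7) (.e (nat_lit 409648) (nat_lit 18) .nil))))) .nil)))) (.nd (nat_lit 4) (.nd (nat_lit 5) 
(.lf (nat_lit 94089) (.g (nat_lit 3136) (.e (nat_lit 2601) (nat_lit 163) (.e (nat_lit 163975) (nat_lit 30) (.e (nat_lit 573450) (nat_lit 9) (.e (nat_lit 1615) (nat_lit 113) (.e (nat_lit 376862) (nat_lit 22) (.e (nat_lit 90185) (nat_lit 17) (.e (nat_lit 237582) (nat_lit 1) (.e (nat_lit 164348) (nat_lit 240) .nil)))))))) (.g (nat_lit 6) .nil .nil))) 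
(.lf (nat_lit 94121) (.g (nat_lit 2679) (.e (nat_lit 2602) (nat_lit 163) (.e (nat_lit 164022) (nat_lit 46) (.e (nat_lit 704738) (nat_lit 11) (.e (nat_lit 16425) (nat_lit 7) (.e (nat_lit 409648) (nat_lit 18) .nil))))) .nil))) (.nd (nat_lit 5) 
(.lf (nat_lit 94105) (.g (nat_lit 1934) (.e (nat_lit 2601) (nat_lit 163) (.e (nat_lit 164182) (nat_lit 154) (.e (nat_lit 57411) (nat_lit 12) (.e (nat_lit 336019) (nat_lit 3) (.e (nat_lit 98381) (nat_lit 31) (.e (nat_lit 466967) (nat_lit 20) (.e (nat_lit 3304) (nat_lit 202) (.e (nat_lit 581376) (nat_lit 0) .nil)))))))) (.g (nat_lit 4) .nil .nil))) 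
(.lf (nat_lit 94137) (.g (nat_lit 2808) (.e (nat_lit 2603) (nat_lit 163) (.e (nat_lit 164398) (nat_lit 256) (.e (nat_lit 57373) (nat_lit 2) (.e (nat_lit 90172) (nat_lit 14) (.e (nat_lit 180244) (nat_lit 5) (.e (nat_lit 532515) (nat_lit 3) (.e (nat_lit 114716) (nat_lit 22) (.e (nat_lit 90129) (nat_lit 9) .nil)))))))) (.g (nat_lit 6) .nil .nil)))))) 
(.nd (nat_lit 3) (.nd (nat_lit 4) (.nd (nat_lit 5) 
(.lf (nat_lit 94085) (.g (nat_lit 3459) (.e (nat_lit 2601) (nat_lit 163) (.e (nat_lit 163975) (nat_lit 30) (.e (nat_lit 573449) (nat_lit 9) (.e (nat_lit 1615) (nat_lit 113) (.e (nat_lit 376865) (nat_lit 22) (.e (nat_lit 90185) (nat_lit 17) (.e (nat_lit 237582) (nat_lit 1) (.e (nat_lit 164345) (nat_lit 240) .nil)))))))) (.g (nat_lit 7) .nil .nil))) 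
(.lf (nat_lit 94117) (.g (nat_lit 540) (.e (nat_lit 2601) (nat_lit 163) (.e (nat_lit 164332) (nat_lit 230) (.e (nat_lit 163884) (nat_lit 5) .nil))) .nil))) (.nd (nat_lit 5) 
(.lf (nat_lit 94101) (.g (nat_lit 2325) (.e (nat_lit 2601) (nat_lit 163) (.e (nat_lit 164020) (nat_lit 45) (.e (nat_lit 696344) (nat_lit 8) (.e (nat_lit 172082) (nat_lit 7) (.e (nat_lit 409646) (nat_lit 18) (.e (nat_lit 303133) (nat_lit 9) (.e (nat_lit 426412) (nat_lit 15) (.e (nat_lit 982) (nat_lit 81) (.e (nat_lit 6811) (nat_lit 365) .nil))))))))) (.g (nat_lit 5) .nil .nil))) 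
(.lf (nat_lit 94133) (.g (nat_lit 2758) (.e (nat_lit 2603) (nat_lit 163) (.e (nat_lit 164022) (nat_lit 46) (.e (nat_lit 704738) (nat_lit 11) (.e (nat_lit 16425) (nat_lit 7) (.e (nat_lit 409649) (nat_lit 18) (.e (nat_lit 303140) (nat_lit 10) (.e (nat_lit 434200) (nat_lit 18) (.e (nat_lit 5800) (nat_lit 320) .nil)))))))) (.g (nat_lit 4) .nil .nil))))) (.nd (nat_lit 4) (.nd (nat_lit 5) 
(.lf (nat_lit 94093) (.g (nat_lit 4280) (.e (nat_lit 2601) (nat_lit 163) (.e (nat_lit 163975) (nat_lit 30) (.e (nat_lit 573450) (nat_lit 9) (.e (nat_lit 1615) (nat_lit 113) (.e (nat_lit 376865) (nat_lit 22) (.e (nat_lit 90185) (nat_lit 17) (.e (nat_lit 237582) (nat_lit 1) (.e (nat_lit 164348) (nat_lit 240) .nil)))))))) (.g (nat_lit 8) .nil .nil))) 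
(.lf (nat_lit 94125) (.g (nat_lit 2614) (.e (nat_lit 2602) (nat_lit 163) (.e (nat_lit 164022) (nat_lit 46) (.e (nat_lit 704738) (nat_lit 11) (.e (nat_lit 16425) (nat_lit 7) (.e (nat_lit 409649) (nat_lit 18) (.e (nat_lit 303140) (nat_lit 10) (.e (nat_lit 434200) (nat_lit 18) (.e (nat_lit 5811) (nat_lit 320) .nil)))))))) (.g (nat_lit 4) .nil .nil)))) (.nd (nat_lit 5) 
(.lf (nat_lit 94109) (.g (nat_lit 4462) (.e (nat_lit 2601) (nat_lit 163) (.e (nat_lit 164238) (nat_lit 187) (.e (nat_lit 1659) (nat_lit 115) (.e (nat_lit 393301) (nat_lit 27) (.e (nat_lit 491558) (nat_lit 10) (.e (nat_lit 344091) (nat_lit 18) (.e (nat_lit 6923) (nat_lit 371) .nil))))))) (.g (nat_lit 0) .nil .nil))) 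
(.lf (nat_lit 94141) (.g (nat_lit 2562) (.e (nat_lit 2603) (nat_lit 163) (.e (nat_lit 164402) (nat_lit 256) (.e (nat_lit 57371) (nat_lit 2) (.e (nat_lit 90172) (nat_lit 14) (.e (nat_lit 180244) (nat_lit 5) (.e (nat_lit 532515) (nat_lit 3) (.e (nat_lit 114716) (nat_lit 22) (.e (nat_lit 90129) (nat_lit 9) .nil)))))))) (.g (nat_lit 5) .nil .nil))))))) 
(.nd (nat_lit 2) (.nd (nat_lit 3) (.nd (nat_lit 4) (.nd (nat_lit 5) 
(.lf (nat_lit 94083) (.g (nat_lit 1608) (.e (nat_lit 2600) (nat_lit 163) (.e (nat_lit 164400) (nat_lit 256) (.e (nat_lit 57375) (nat_lit 2) (.e (nat_lit 90174) (nat_lit 14) (.e (nat_lit 180243) (nat_lit 5) .nil))))) .nil)) 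
(.lf (nat_lit 94115) (.g (nat_lit 3618) (.e (nat_lit 2601) (nat_lit 163) (.e (nat_lit 164238) (nat_lit 187) (.e (nat_lit 1659) (nat_lit 115) (.e (nat_lit 393301) (nat_lit 27) (.e (nat_lit 491560) (nat_lit 10) (.e (nat_lit 344094) (nat_lit 18) (.e (nat_lit 6923) (nat_lit 371) .nil))))))) (.g (nat_lit 5) .nil .nil)))) (.nd (nat_lit 5) 
(.lf (nat_lit 94099) (.g (nat_lit 2411) (.e (nat_lit 2601) (nat_lit 163) (.e (nat_lit 164020) (nat_lit 45) (.e (nat_lit 696343) (nat_lit 8) (.e (nat_lit 172082) (nat_lit 7) (.e (nat_lit 409646) (nat_lit 18) (.e (nat_lit 303133) (nat_lit 9) (.e (nat_lit 426412) (nat_lit 15) (.e (nat_lit 1009) (nat_lit 81) (.e (nat_lit 6811) (nat_lit 365) .nil))))))))) (.g (nat_lit 5) .nil .nil))) 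
(.lf (nat_lit 94131) (.g (nat_lit 3010) (.e (nat_lit 2603) (nat_lit 163) (.e (nat_lit 164022) (nat_lit 46) (.e (nat_lit 704738) (nat_lit 11) (.e (nat_lit 16425) (nat_lit 7) (.e (nat_lit 409648) (nat_lit 18) (.e (nat_lit 303137) (nat_lit 10) (.e (nat_lit 434200) (nat_lit 18) (.e (nat_lit 5812) (nat_lit 320) .nil)))))))) (.g (nat_lit 4) .nil .nil))))) (.nd (nat_lit 4) (.nd (nat_lit 5) 
(.lf (nat_lit 94091) (.g (nat_lit 3865) (.e (nat_lit 2601) (nat_lit 163) (.e (nat_lit 163975) (nat_lit 30) (.e (nat_lit 573450) (nat_lit 9) (.e (nat_lit 1615) (nat_lit 113) (.e (nat_lit 376865) (nat_lit 22) (.e (nat_lit 90185) (nat_lit 17) (.e (nat_lit 237582) (nat_lit 1) (.e (nat_lit 164345) (nat_lit 240) .nil)))))))) (.g (nat_lit 8) .nil .nil))) 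
(.lf (nat_lit 94123) (.g (nat_lit 2876) (.e (nat_lit 2602) (nat_lit 163) (.e (nat_lit 164022) (nat_lit 46) (.e (nat_lit 704738) (nat_lit 11) (.e (nat_lit 16425) (nat_lit 7) (.e (nat_lit 409648) (nat_lit 18) (.e (nat_lit 303137) (nat_lit 10) (.e (nat_lit 434200) (nat_lit 18) (.e (nat_lit 5812) (nat_lit 320) .nil)))))))) (.g (nat_lit 4) .nil .nil)))) (.nd (nat_lit 5) 
(.lf (nat_lit 94107) (.g (nat_lit 2497) (.e (nat_lit 2601) (nat_lit 163) (.e (nat_lit 164183) (nat_lit 154) (.e (nat_lit 57411) (nat_lit 12) (.e (nat_lit 336019) (nat_lit 3) (.e (nat_lit 98381) (nat_lit 31) (.e (nat_lit 466967) (nat_lit 20) (.e (nat_lit 3304) (nat_lit 202) (.e (nat_lit 581376) (nat_lit 0) .nil)))))))) (.g (nat_lit 5) .nil .nil))) 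
(.lf (nat_lit 94139) (.g (nat_lit 2101) (.e (nat_lit 2603) (nat_lit 163) (.e (nat_lit 164399) (nat_lit 256) (.e (nat_lit 57373) (nat_lit 2) (.e (nat_lit 90172) (nat_lit 14) (.e (nat_lit 180244) (nat_lit 5) .nil))))) .nil))))) (.nd (nat_lit 3) (.nd (nat_lit 4) (.nd (nat_lit 5) 
(.lf (nat_lit 94087) (.g (nat_lit 3649) (.e (nat_lit 2601) (nat_lit 163) (.e (nat_lit 163975) (nat_lit 30) (.e (nat_lit 573449) (nat_lit 9) (.e (nat_lit 1615) (nat_lit 113) (.e (nat_lit 376865) (nat_lit 22) (.e (nat_lit 90185) (nat_lit 17) (.e (nat_lit 237584) (nat_lit 1) (.e (nat_lit 164347) (nat_lit 240) .nil)))))))) (.g (nat_lit 8) .nil .nil))) 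
(.lf (nat_lit 94119) (.g (nat_lit 1373) (.e (nat_lit 2601) (nat_lit 163) (.e (nat_lit 164399) (nat_lit 256) (.e (nat_lit 57375) (nat_lit 2) (.e (nat_lit 90174) (nat_lit 14) .nil)))) .nil))) (.nd (nat_lit 5) 
(.lf (nat_lit 94103) (.g (nat_lit 2795) (.e (nat_lit 2601) (nat_lit 163) (.e (nat_lit 164022) (nat_lit 46) (.e (nat_lit 704738) (nat_lit 11) (.e (nat_lit 16425) (nat_lit 7) (.e (nat_lit 409649) (nat_lit 18) .nil))))) .nil)) 
(.lf (nat_lit 94135) (.g (nat_lit 3238) (.e (nat_lit 2603) (nat_lit 163) (.e (nat_lit 164022) (nat_lit 46) (.e (nat_lit 704738) (nat_lit 11) (.e (nat_lit 16425) (nat_lit 7) (.e (nat_lit 409649) (nat_lit 18) (.e (nat_lit 303140) (nat_lit 10) (.e (nat_lit 434202) (nat_lit 18) (.e (nat_lit 5800) (nat_lit 320) .nil)))))))) (.g (nat_lit 5) .nil .nil))))) (.nd (nat_lit 4) (.nd (nat_lit 5) 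
(.lf (nat_lit 94095) (.g (nat_lit 3907) (.e (nat_lit 2601) (nat_lit 163) (.e (nat_lit 163975) (nat_lit 30) (.e (nat_lit 573450) (nat_lit 9) (.e (nat_lit 1615) (nat_lit 113) (.e (nat_lit 376865) (nat_lit 22) (.e (nat_lit 90185) (nat_lit 17) (.e (nat_lit 237585) (nat_lit 1) (.e (nat_lit 164345) (nat_lit 240) .nil)))))))) (.g (nat_lit 8) .nil .nil))) 
(.lf (nat_lit 94127) (.g (nat_lit 2140) (.e (nat_lit 2602) (nat_lit 163) (.e (nat_lit 164403) (nat_lit 256) (.e (nat_lit 57371) (nat_lit 2) (.e (nat_lit 90172) (nat_lit 14) (.e (nat_lit 180244) (nat_lit 5) .nil))))) .nil))) (.nd (nat_lit 5) 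
(.lf (nat_lit 94111) (.g (nat_lit 4059) (.e (nat_lit 2601) (nat_lit 163) (.e (nat_lit 164238) (nat_lit 187) (.e (nat_lit 1659) (nat_lit 115) (.e (nat_lit 393301) (nat_lit 27) (.e (nat_lit 491560) (nat_lit 10) (.e (nat_lit 344087) (nat_lit 18) (.e (nat_lit 6923) (nat_lit 371) .nil))))))) (.g (nat_lit 6) .nil .nil))) 
(.lf (nat_lit 94143) (.g (nat_lit 3250) (.e (nat_lit 2603) (nat_lit 163) (.e (nat_lit 164403) (nat_lit 256) (.e (nat_lit 57373) (nat_lit 2) (.e (nat_lit 90172) (nat_lit 14) (.e (nat_lit 180243) (nat_lit 5) .nil))))) .nil))))))))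

noncomputable def tv1293 : DT := (.nd (nat_lit 0) (.nd (nat_lit 1) (.nd (nat_lit 2) (.nd (nat_lit 3) (.nd (nat_lit 4) (.nd (nat_lit 5) 
(.lf (nat_lit 94144) (.g (nat_lit 2678) (.e (nat_lit 2603) (nat_lit 163) (.e (nat_lit 164403) (nat_lit 256) (.e (nat_lit 57373) (nat_lit 2) (.e (nat_lit 90172) (nat_lit 14) (.e (nat_lit 180244) (nat_lit 5) .nil))))) .nil)) 
(.lf (nat_lit 94176) (.g (nat_lit 1881) (.e (nat_lit 2605) (nat_lit 163) (.e (nat_lit 164149) (nat_lit 152) (.e (nat_lit 1217) (nat_lit 90) (.e (nat_lit 81925) (nat_lit 11) (.e (nat_lit 426172) (nat_lit 7) (.e (nat_lit 409623) (nat_lit 10) (.e (nat_lit 5664) (nat_lit 312) .nil))))))) (.g (nat_lit 7) .nil .nil)))) (.nd (nat_lit 5) 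
(.lf (nat_lit 94160) (.g (nat_lit 2050) (.e (nat_lit 2604) (nat_lit 163) (.e (nat_lit 164398) (nat_lit 256) (.e (nat_lit 57375) (nat_lit 2) (.e (nat_lit 90172) (nat_lit 14) (.e (nat_lit 180244) (nat_lit 5) (.e (nat_lit 532515) (nat_lit 3) (.e (nat_lit 114716) (nat_lit 22) (.e (nat_lit 90129) (nat_lit 9) .nil)))))))) (.g (nat_lit 4) .nil .nil))) 
(.lf (nat_lit 94192) (.g (nat_lit 3617) (.e (nat_lit 2606) (nat_lit 163) (.e (nat_lit 163978) (nat_lit 30) (.e (nat_lit 573489) (nat_lit 14) (.e (nat_lit 73755) (nat_lit 8) (.e (nat_lit 557104) (nat_lit 14) .nil))))) .nil)))) (.nd (nat_lit 4) (.nd (nat_lit 5) 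
(.lf (nat_lit 94152) (.g (nat_lit 2768) (.e (nat_lit 2604) (nat_lit 163) (.e (nat_lit 164022) (nat_lit 46) (.e (nat_lit 704738) (nat_lit 11) (.e (nat_lit 16425) (nat_lit 7) (.e (nat_lit 409649) (nat_lit 18) .nil))))) .nil)) 
(.lf (nat_lit 94184) (.g (nat_lit 970) (.e (nat_lit 2605) (nat_lit 163) (.e (nat_lit 164239) (nat_lit 187) (.e (nat_lit 1638) (nat_lit 114) (.e (nat_lit 385102) (nat_lit 50) .nil)))) .nil))) (.nd (nat_lit 5) 
(.lf (nat_lit 94168) (.g (nat_lit 3065) (.e (nat_lit 2605) (nat_lit 163) (.e (nat_lit 164022) (nat_lit 46) (.e (nat_lit 704738) (nat_lit 11) (.e (nat_lit 16425) (nat_lit 7) (.e (nat_lit 409649) (nat_lit 18) (.e (nat_lit 303140) (nat_lit 10) (.e (nat_lit 434202) (nat_lit 18) (.e (nat_lit 5836) (nat_lit 320) .nil)))))))) (.g (nat_lit 4) .nil .nil))) 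
(.lf (nat_lit 94200) (.g (nat_lit 3322) (.e (nat_lit 2606) (nat_lit 163) (.e (nat_lit 164022) (nat_lit 46) (.e (nat_lit 704738) (nat_lit 11) (.e (nat_lit 16425) (nat_lit 7) (.e (nat_lit 409649) (nat_lit 18) (.e (nat_lit 303140) (nat_lit 10) (.e (nat_lit 434202) (nat_lit 18) (.e (nat_lit 5798) (nat_lit 320) .nil)))))))) (.g (nat_lit 5) .nil .nil)))))) 
(.nd (nat_lit 3) (.nd (nat_lit 4) (.nd (nat_lit 5) 
(.lf (nat_lit 94148) (.g (nat_lit 3625) (.e (nat_lit 2604) (nat_lit 163) (.e (nat_lit 163977) (nat_lit 30) (.e (nat_lit 573493) (nat_lit 15) (.e (nat_lit 81951) (nat_lit 22) (.e (nat_lit 90170) (nat_lit 13) .nil))))) .nil)) 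
(.lf (nat_lit 94180) (.g (nat_lit 1872) (.e (nat_lit 2605) (nat_lit 163) (.e (nat_lit 164163) (nat_lit 152) (.e (nat_lit 1221) (nat_lit 90) (.e (nat_lit 81926) (nat_lit 11) (.e (nat_lit 426172) (nat_lit 7) (.e (nat_lit 409623) (nat_lit 10) (.e (nat_lit 5664) (nat_lit 312) .nil))))))) (.g (nat_lit 7) .nil .nil)))) (.nd (nat_lit 5) 
(.lf (nat_lit 94164) (.g (nat_lit 2836) (.e (nat_lit 2605) (nat_lit 163) (.e (nat_lit 164022) (nat_lit 46) (.e (nat_lit 704738) (nat_lit 11) (.e (nat_lit 16425) (nat_lit 7) (.e (nat_lit 409649) (nat_lit 18) .nil))))) .nil)) 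
(.lf (nat_lit 94196) (.g (nat_lit 2883) (.e (nat_lit 2606) (nat_lit 163) (.e (nat_lit 164022) (nat_lit 46) (.e (nat_lit 704738) (nat_lit 11) (.e (nat_lit 16425) (nat_lit 7) (.e (nat_lit 409648) (nat_lit 18) .nil))))) .nil)))) (.nd (nat_lit 4) (.nd (nat_lit 5) 
(.lf (nat_lit 94156) (.g (nat_lit 3286) (.e (nat_lit 2604) (nat_lit 163) (.e (nat_lit 164022) (nat_lit 46) (.e (nat_lit 704738) (nat_lit 11) (.e (nat_lit 16425) (nat_lit 7) (.e (nat_lit 409649) (nat_lit 18) (.e (nat_lit 303140) (nat_lit 10) (.e (nat_lit 434202) (nat_lit 18) (.e (nat_lit 5797) (nat_lit 320) .nil)))))))) (.g (nat_lit 5) .nil .nil))) 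
(.lf (nat_lit 94188) (.g (nat_lit 2636) (.e (nat_lit 2606) (nat_lit 163) (.e (nat_lit 163978) (nat_lit 30) (.e (nat_lit 573489) (nat_lit 14) (.e (nat_lit 73754) (nat_lit 8) (.e (nat_lit 557101) (nat_lit 13) .nil))))) .nil))) (.nd (nat_lit 5) 
(.lf (nat_lit 94172) (.g (nat_lit 3061) (.e (nat_lit 2605) (nat_lit 163) (.e (nat_lit 164022) (nat_lit 46) (.e (nat_lit 704738) (nat_lit 11) (.e (nat_lit 16425) (nat_lit 7) (.e (nat_lit 409649) (nat_lit 18) (.e (nat_lit 303140) (nat_lit 10) (.e (nat_lit 434202) (nat_lit 18) (.e (nat_lit 5847) (nat_lit 320) .nil)))))))) (.g (nat_lit 4) .nil .nil))) 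
(.lf (nat_lit 94204) (.g (nat_lit 1520) (.e (nat_lit 2606) (nat_lit 163) (.e (nat_lit 164239) (nat_lit 187) (.e (nat_lit 1638) (nat_lit 114) (.e (nat_lit 385102) (nat_lit 50) (.e (nat_lit 786483) (nat_lit 30) (.e (nat_lit 360451) (nat_lit 0) (.e (nat_lit 5429) (nat_lit 306) .nil))))))) (.g (nat_lit 4) .nil .nil))))))) (.nd (nat_lit 2) (.nd (nat_lit 3) (.nd (nat_lit 4) (.nd (nat_lit 5) 
(.lf (nat_lit 94146) (.g (nat_lit 1235) (.e (nat_lit 2604) (nat_lit 163) (.e (nat_lit 163975) (nat_lit 30) (.e (nat_lit 573450) (nat_lit 9) (.e (nat_lit 1615) (nat_lit 113) .nil)))) .nil)) 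
(.lf (nat_lit 94178) (.g (nat_lit 1997) (.e (nat_lit 2605) (nat_lit 163) (.e (nat_lit 164151) (nat_lit 152) (.e (nat_lit 1217) (nat_lit 90) (.e (nat_lit 81925) (nat_lit 11) (.e (nat_lit 426172) (nat_lit 7) (.e (nat_lit 409623) (nat_lit 10) (.e (nat_lit 5664) (nat_lit 312) .nil))))))) (.g (nat_lit 0) .nil .nil)))) (.nd (nat_lit 5) 
(.lf (nat_lit 94162) (.g (nat_lit 2689) (.e (nat_lit 2604) (nat_lit 163) (.e (nat_lit 164400) (nat_lit 256) (.e (nat_lit 57375) (nat_lit 2) (.e (nat_lit 90172) (nat_lit 14) (.e (nat_lit 180244) (nat_lit 5) (.e (nat_lit 532515) (nat_lit 3) (.e (nat_lit 114716) (nat_lit 22) (.e (nat_lit 90129) (nat_lit 9) .nil)))))))) (.g (nat_lit 6) .nil .nil))) 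
(.lf (nat_lit 94194) (.g (nat_lit 2191) (.e (nat_lit 2606) (nat_lit 163) (.e (nat_lit 163979) (nat_lit 30) (.e (nat_lit 573489) (nat_lit 14) (.e (nat_lit 73755) (nat_lit 8) (.e (nat_lit 557097) (nat_lit 13) .nil))))) .nil)))) (.nd (nat_lit 4) (.nd (nat_lit 5) 
(.lf (nat_lit 94154) (.g (nat_lit 2866) (.e (nat_lit 2604) (nat_lit 163) (.e (nat_lit 164022) (nat_lit 46) (.e (nat_lit 704738) (nat_lit 11) (.e (nat_lit 16425) (nat_lit 7) (.e (nat_lit 409649) (nat_lit 18) (.e (nat_lit 303140) (nat_lit 10) (.e (nat_lit 434200) (nat_lit 18) (.e (nat_lit 5800) (nat_lit 320) .nil)))))))) (.g (nat_lit 4) .nil .nil))) 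
(.lf (nat_lit 94186) (.g (nat_lit 2418) (.e (nat_lit 2606) (nat_lit 163) (.e (nat_lit 163977) (nat_lit 30) (.e (nat_lit 573489) (nat_lit 14) (.e (nat_lit 73755) (nat_lit 8) (.e (nat_lit 557104) (nat_lit 14) .nil))))) .nil))) (.nd (nat_lit 5) 
(.lf (nat_lit 94170) (.g (nat_lit 4261) (.e (nat_lit 2605) (nat_lit 163) (.e (nat_lit 164022) (nat_lit 46) (.e (nat_lit 704738) (nat_lit 11) (.e (nat_lit 16425) (nat_lit 7) (.e (nat_lit 409649) (nat_lit 18) (.e (nat_lit 303140) (nat_lit 10) (.e (nat_lit 434202) (nat_lit 18) (.e (nat_lit 5840) (nat_lit 320) .nil)))))))) (.g (nat_lit 6) .nil .nil))) 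
(.lf (nat_lit 94202) (.g (nat_lit 1852) (.e (nat_lit 2606) (nat_lit 163) (.e (nat_lit 164238) (nat_lit 187) (.e (nat_lit 1638) (nat_lit 114) (.e (nat_lit 385102) (nat_lit 50) (.e (nat_lit 786483) (nat_lit 30) (.e (nat_lit 360451) (nat_lit 0) (.e (nat_lit 5429) (nat_lit 306) .nil))))))) (.g (nat_lit 4) .nil .nil)))))) (.nd (nat_lit 3) (.nd (nat_lit 4) (.nd (nat_lit 5) 
(.lf (nat_lit 94150) (.g (nat_lit 3601) (.e (nat_lit 2604) (nat_lit 163) (.e (nat_lit 163977) (nat_lit 30) (.e (nat_lit 573493) (nat_lit 15) (.e (nat_lit 81954) (nat_lit 23) (.e (nat_lit 98359) (nat_lit 26) .nil))))) .nil)) 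
(.lf (nat_lit 94182) (.g (nat_lit 2554) (.e (nat_lit 2605) (nat_lit 163) (.e (nat_lit 164179) (nat_lit 154) (.e (nat_lit 57437) (nat_lit 17) (.e (nat_lit 376842) (nat_lit 11) (.e (nat_lit 426172) (nat_lit 7) .nil))))) .nil))) (.nd (nat_lit 5) 
(.lf (nat_lit 94166) (.g (nat_lit 3065) (.e (nat_lit 2605) (nat_lit 163) (.e (nat_lit 164022) (nat_lit 46) (.e (nat_lit 704738) (nat_lit 11) (.e (nat_lit 16425) (nat_lit 7) (.e (nat_lit 409649) (nat_lit 18) (.e (nat_lit 303140) (nat_lit 10) (.e (nat_lit 434200) (nat_lit 18) (.e (nat_lit 5842) (nat_lit 320) .nil)))))))) (.g (nat_lit 4) .nil .nil))) 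
(.lf (nat_lit 94198) (.g (nat_lit 2780) (.e (nat_lit 2606) (nat_lit 163) (.e (nat_lit 164022) (nat_lit 46) (.e (nat_lit 704738) (nat_lit 11) (.e (nat_lit 16425) (nat_lit 7) (.e (nat_lit 409649) (nat_lit 18) .nil))))) .nil)))) (.nd (nat_lit 4) (.nd (nat_lit 5) 
(.lf (nat_lit 94158) (.g (nat_lit 3346) (.e (nat_lit 2604) (nat_lit 163) (.e (nat_lit 164022) (nat_lit 46) (.e (nat_lit 704738) (nat_lit 11) (.e (nat_lit 16425) (nat_lit 7) (.e (nat_lit 409649) (nat_lit 18) (.e (nat_lit 303140) (nat_lit 10) (.e (nat_lit 434202) (nat_lit 18) (.e (nat_lit 5800) (nat_lit 320) .nil)))))))) (.g (nat_lit 5) .nil .nil))) 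
(.lf (nat_lit 94190) (.g (nat_lit 3038) (.e (nat_lit 2606) (nat_lit 163) (.e (nat_lit 163978) (nat_lit 30) (.e (nat_lit 573489) (nat_lit 14) (.e (nat_lit 73755) (nat_lit 8) (.e (nat_lit 557098) (nat_lit 13) .nil))))) .nil))) (.nd (nat_lit 5) 
(.lf (nat_lit 94174) (.g (nat_lit 2711) (.e (nat_lit 2605) (nat_lit 163) (.e (nat_lit 164023) (nat_lit 46) (.e (nat_lit 704738) (nat_lit 11) (.e (nat_lit 16425) (nat_lit 7) (.e (nat_lit 409649) (nat_lit 18) .nil))))) .nil)) 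
(.lf (nat_lit 94206) (.g (nat_lit 4370) (.e (nat_lit 2606) (nat_lit 163) (.e (nat_lit 164239) (nat_lit 187) (.e (nat_lit 1659) (nat_lit 115) (.e (nat_lit 393301) (nat_lit 27) (.e (nat_lit 491560) (nat_lit 10) (.e (nat_lit 344089) (nat_lit 18) (.e (nat_lit 6863) (nat_lit 371) .nil))))))) (.g (nat_lit 0) .nil .nil)))))))) 
(.nd (nat_lit 1) (.nd (nat_lit 2) (.nd (nat_lit 3) (.nd (nat_lit 4) (.nd (nat_lit 5) 
(.lf (nat_lit 94145) (.g (nat_lit 3681) (.e (nat_lit 2603) (nat_lit 163) (.e (nat_lit 164403) (nat_lit 256) (.e (nat_lit 57373) (nat_lit 2) (.e (nat_lit 90172) (nat_lit 14) (.e (nat_lit 180244) (nat_lit 5) (.e (nat_lit 532515) (nat_lit 3) (.e (nat_lit 114716) (nat_lit 22) (.e (nat_lit 90129) (nat_lit 9) .nil)))))))) (.g (nat_lit 6) .nil .nil))) 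
(.lf (nat_lit 94177) (.g (nat_lit 672) (.e (nat_lit 2605) (nat_lit 163) (.e (nat_lit 164151) (nat_lit 152) (.e (nat_lit 1216) (nat_lit 90) (.e (nat_lit 81926) (nat_lit 11) .nil)))) .nil))) (.nd (nat_lit 5) 
(.lf (nat_lit 94161) (.g (nat_lit 1622) (.e (nat_lit 2604) (nat_lit 163) (.e (nat_lit 164398) (nat_lit 256) (.e (nat_lit 57375) (nat_lit 2) (.e (nat_lit 90174) (nat_lit 14) (.e (nat_lit 180243) (nat_lit 5) (.e (nat_lit 532515) (nat_lit 3) (.e (nat_lit 114716) (nat_lit 22) (.e (nat_lit 90129) (nat_lit 9) .nil)))))))) (.g (nat_lit 4) .nil .nil))) 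
(.lf (nat_lit 94193) (.g (nat_lit 2218) (.e (nat_lit 2606) (nat_lit 163) (.e (nat_lit 163978) (nat_lit 30) (.e (nat_lit 573489) (nat_lit 14) (.e (nat_lit 73755) (nat_lit 8) (.e (nat_lit 557105) (nat_lit 14) .nil))))) .nil)))) (.nd (nat_lit 4) (.nd (nat_lit 5) 
(.lf (nat_lit 94153) (.g (nat_lit 3263) (.e (nat_lit 2604) (nat_lit 163) (.e (nat_lit 164022) (nat_lit 46) (.e (nat_lit 704738) (nat_lit 11) (.e (nat_lit 16425) (nat_lit 7) (.e (nat_lit 409649) (nat_lit 18) (.e (nat_lit 303140) (nat_lit 10) (.e (nat_lit 434200) (nat_lit 18) (.e (nat_lit 5798) (nat_lit 320) .nil)))))))) (.g (nat_lit 5) .nil .nil))) 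
(.lf (nat_lit 94185) (.g (nat_lit 835) (.e (nat_lit 2605) (nat_lit 163) (.e (nat_lit 164327) (nat_lit 230) (.e (nat_lit 163886) (nat_lit 5) .nil))) .nil))) (.nd (nat_lit 5) 
(.lf (nat_lit 94169) (.g (nat_lit 3096) (.e (nat_lit 2605) (nat_lit 163) (.e (nat_lit 164022) (nat_lit 46) (.e (nat_lit 704738) (nat_lit 11) (.e (nat_lit 16425) (nat_lit 7) (.e (nat_lit 409649) (nat_lit 18) (.e (nat_lit 303140) (nat_lit 10) (.e (nat_lit 434202) (nat_lit 18) (.e (nat_lit 5837) (nat_lit 320) .nil)))))))) (.g (nat_lit 4) .nil .nil))) 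
(.lf (nat_lit 94201) (.g (nat_lit 3459) (.e (nat_lit 2606) (nat_lit 163) (.e (nat_lit 164022) (nat_lit 46) (.e (nat_lit 704738) (nat_lit 11) (.e (nat_lit 16425) (nat_lit 7) (.e (nat_lit 409649) (nat_lit 18) (.e (nat_lit 303140) (nat_lit 10) (.e (nat_lit 434202) (nat_lit 18) (.e (nat_lit 5800) (nat_lit 320) .nil)))))))) (.g (nat_lit 5) .nil .nil)))))) 
(.nd (nat_lit 3) (.nd (nat_lit 4) (.nd (nat_lit 5) 
(.lf (nat_lit 94149) (.g (nat_lit 2301) (.e (nat_lit 2604) (nat_lit 163) (.e (nat_lit 163977) (nat_lit 30) (.e (nat_lit 573493) (nat_lit 15) (.e (nat_lit 81953) (nat_lit 22) (.e (nat_lit 90170) (nat_lit 13) .nil))))) .nil)) 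
(.lf (nat_lit 94181) (.g (nat_lit 1771) (.e (nat_lit 2605) (nat_lit 163) (.e (nat_lit 164178) (nat_lit 154) (.e (nat_lit 57437) (nat_lit 17) (.e (nat_lit 376838) (nat_lit 11) (.e (nat_lit 426172) (nat_lit 7) (.e (nat_lit 409623) (nat_lit 10) (.e (nat_lit 5664) (nat_lit 312) .nil))))))) (.g (nat_lit 5) .nil .nil)))) (.nd (nat_lit 5) 
(.lf (nat_lit 94165) (.g (nat_lit 3867) (.e (nat_lit 2605) (nat_lit 163) (.e (nat_lit 164022) (nat_lit 46) (.e (nat_lit 704738) (nat_lit 11) (.e (nat_lit 16425) (nat_lit 7) (.e (nat_lit 409649) (nat_lit 18) (.e (nat_lit 303132) (nat_lit 9) (.e (nat_lit 426109) (nat_lit 1) (.e (nat_lit 164389) (nat_lit 254) .nil)))))))) (.g (nat_lit 5) .nil .nil))) 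
(.lf (nat_lit 94197) (.g (nat_lit 3138) (.e (nat_lit 2606) (nat_lit 163) (.e (nat_lit 164022) (nat_lit 46) (.e (nat_lit 704738) (nat_lit 11) (.e (nat_lit 16425) (nat_lit 7) (.e (nat_lit 409648) (nat_lit 18) (.e (nat_lit 303137) (nat_lit 10) (.e (nat_lit 434200) (nat_lit 18) (.e (nat_lit 5798) (nat_lit 320) .nil)))))))) (.g (nat_lit 4) .nil .nil))))) (.nd (nat_lit 4) (.nd (nat_lit 5) 
(.lf (nat_lit 94157) (.g (nat_lit 3358) (.e (nat_lit 2604) (nat_lit 163) (.e (nat_lit 164022) (nat_lit 46) (.e (nat_lit 704738) (nat_lit 11) (.e (nat_lit 16425) (nat_lit 7) (.e (nat_lit 409649) (nat_lit 18) (.e (nat_lit 303140) (nat_lit 10) (.e (nat_lit 434202) (nat_lit 18) (.e (nat_lit 5798) (nat_lit 320) .nil)))))))) (.g (nat_lit 5) .nil .nil))) 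
(.lf (nat_lit 94189) (.g (nat_lit 3305) (.e (nat_lit 2606) (nat_lit 163) (.e (nat_lit 163978) (nat_lit 30) (.e (nat_lit 573489) (nat_lit 14) (.e (nat_lit 73754) (nat_lit 8) (.e (nat_lit 557103) (nat_lit 14) .nil))))) .nil))) (.nd (nat_lit 5) 
(.lf (nat_lit 94173) (.g (nat_lit 2200) (.e (nat_lit 2605) (nat_lit 163) (.e (nat_lit 164023) (nat_lit 46) (.e (nat_lit 704738) (nat_lit 11) (.e (nat_lit 16425) (nat_lit 7) .nil)))) .nil)) 
(.lf (nat_lit 94205) (.g (nat_lit 3475) (.e (nat_lit 2606) (nat_lit 163) (.e (nat_lit 164239) (nat_lit 187) (.e (nat_lit 1659) (nat_lit 115) (.e (nat_lit 393301) (nat_lit 27) (.e (nat_lit 491560) (nat_lit 10) (.e (nat_lit 344088) (nat_lit 18) (.e (nat_lit 6863) (nat_lit 371) .nil))))))) (.g (nat_lit 5) .nil .nil))))))) (.nd (nat_lit 2) (.nd (nat_lit 3) (.nd (nat_lit 4) (.nd (nat_lit 5) 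
(.lf (nat_lit 94147) (.g (nat_lit 1836) (.e (nat_lit 2604) (nat_lit 163) (.e (nat_lit 163977) (nat_lit 30) (.e (nat_lit 573482) (nat_lit 13) (.e (nat_lit 65604) (nat_lit 9) (.e (nat_lit 336013) (nat_lit 2) .nil))))) .nil)) 
(.lf (nat_lit 94179) (.g (nat_lit 1204) (.e (nat_lit 2605) (nat_lit 163) (.e (nat_lit 164151) (nat_lit 152) (.e (nat_lit 1217) (nat_lit 90) (.e (nat_lit 81926) (nat_lit 11) (.e (nat_lit 426172) (nat_lit 7) (.e (nat_lit 409623) (nat_lit 10) (.e (nat_lit 5664) (nat_lit 312) .nil))))))) (.g (nat_lit 5) .nil .nil)))) (.nd (nat_lit 5) 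
(.lf (nat_lit 94163) (.g (nat_lit 2957) (.e (nat_lit 2605) (nat_lit 163) (.e (nat_lit 164022) (nat_lit 46) (.e (nat_lit 704738) (nat_lit 11) (.e (nat_lit 16425) (nat_lit 7) (.e (nat_lit 409648) (nat_lit 18) (.e (nat_lit 303137) (nat_lit 10) (.e (nat_lit 434200) (nat_lit 18) (.e (nat_lit 5842) (nat_lit 320) .nil)))))))) (.g (nat_lit 4) .nil .nil))) 
(.lf (nat_lit 94195) (.g (nat_lit 2164) (.e (nat_lit 2606) (nat_lit 163) (.e (nat_lit 163979) (nat_lit 30) (.e (nat_lit 573489) (nat_lit 14) (.e (nat_lit 73755) (nat_lit 8) (.e (nat_lit 557104) (nat_lit 14) .nil))))) .nil)))) (.nd (nat_lit 4) (.nd (nat_lit 5) 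
(.lf (nat_lit 94155) (.g (nat_lit 2961) (.e (nat_lit 2604) (nat_lit 163) (.e (nat_lit 164022) (nat_lit 46) (.e (nat_lit 704738) (nat_lit 11) (.e (nat_lit 16425) (nat_lit 7) (.e (nat_lit 409649) (nat_lit 18) (.e (nat_lit 303140) (nat_lit 10) (.e (nat_lit 434200) (nat_lit 18) (.e (nat_lit 5811) (nat_lit 320) .nil)))))))) (.g (nat_lit 4) .nil .nil))) 
(.lf (nat_lit 94187) (.g (nat_lit 1796) (.e (nat_lit 2606) (nat_lit 163) (.e (nat_lit 163978) (nat_lit 30) (.e (nat_lit 573489) (nat_lit 14) (.e (nat_lit 73754) (nat_lit 8) .nil)))) .nil))) (.nd (nat_lit 5) 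
(.lf (nat_lit 94171) (.g (nat_lit 3065) (.e (nat_lit 2605) (nat_lit 163) (.e (nat_lit 164022) (nat_lit 46) (.e (nat_lit 704738) (nat_lit 11) (.e (nat_lit 16425) (nat_lit 7) (.e (nat_lit 409649) (nat_lit 18) (.e (nat_lit 303140) (nat_lit 10) (.e (nat_lit 434202) (nat_lit 18) (.e (nat_lit 5842) (nat_lit 320) .nil)))))))) (.g (nat_lit 4) .nil .nil))) 
(.lf (nat_lit 94203) (.g (nat_lit 4262) (.e (nat_lit 2606) (nat_lit 163) (.e (nat_lit 164238) (nat_lit 187) (.e (nat_lit 1659) (nat_lit 115) (.e (nat_lit 393301) (nat_lit 27) (.e (nat_lit 491560) (nat_lit 10) (.e (nat_lit 344089) (nat_lit 18) (.e (nat_lit 6863) (nat_lit 371) .nil))))))) (.g (nat_lit 5) .nil .nil)))))) (.nd (nat_lit 3) (.nd (nat_lit 4) (.nd (nat_lit 5) 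
(.lf (nat_lit 94151) (.g (nat_lit 2871) (.e (nat_lit 2604) (nat_lit 163) (.e (nat_lit 164022) (nat_lit 46) (.e (nat_lit 704738) (nat_lit 11) (.e (nat_lit 16425) (nat_lit 7) (.e (nat_lit 409648) (nat_lit 18) .nil))))) .nil)) 
(.lf (nat_lit 94183) (.g (nat_lit 1488) (.e (nat_lit 2605) (nat_lit 163) (.e (nat_lit 164238) (nat_lit 187) (.e (nat_lit 1638) (nat_lit 114) (.e (nat_lit 385102) (nat_lit 50) .nil)))) .nil))) (.nd (nat_lit 5) 
(.lf (nat_lit 94167) (.g (nat_lit 3059) (.e (nat_lit 2605) (nat_lit 163) (.e (nat_lit 164022) (nat_lit 46) (.e (nat_lit 704738) (nat_lit 11) (.e (nat_lit 16425) (nat_lit 7) (.e (nat_lit 409649) (nat_lit 18) (.e (nat_lit 303140) (nat_lit 10) (.e (nat_lit 434202) (nat_lit 18) (.e (nat_lit 5832) (nat_lit 320) .nil)))))))) (.g (nat_lit 4) .nil .nil))) 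
(.lf (nat_lit 94199) (.g (nat_lit 2979) (.e (nat_lit 2606) (nat_lit 163) (.e (nat_lit 164022) (nat_lit 46) (.e (nat_lit 704738) (nat_lit 11) (.e (nat_lit 16425) (nat_lit 7) (.e (nat_lit 409649) (nat_lit 18) (.e (nat_lit 303140) (nat_lit 10) (.e (nat_lit 434200) (nat_lit 18) (.e (nat_lit 5800) (nat_lit 320) .nil)))))))) (.g (nat_lit 4) .nil .nil))))) (.nd (nat_lit 4) (.nd (nat_lit 5) 
(.lf (nat_lit 94159) (.g (nat_lit 2599) (.e (nat_lit 2604) (nat_lit 163) (.e (nat_lit 164398) (nat_lit 256) (.e (nat_lit 57373) (nat_lit 2) (.e (nat_lit 90172) (nat_lit 14) (.e (nat_lit 180244) (nat_lit 5) (.e (nat_lit 532515) (nat_lit 3) (.e (nat_lit 114716) (nat_lit 22) (.e (nat_lit 90129) (nat_lit 9) .nil)))))))) (.g (nat_lit 5) .nil .nil))) 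
(.lf (nat_lit 94191) (.g (nat_lit 3827) (.e (nat_lit 2606) (nat_lit 163) (.e (nat_lit 163978) (nat_lit 30) (.e (nat_lit 573489) (nat_lit 14) (.e (nat_lit 73755) (nat_lit 8) (.e (nat_lit 557100) (nat_lit 13) .nil))))) .nil))) (.nd (nat_lit 5) 
(.lf (nat_lit 94175) (.g (nat_lit 2927) (.e (nat_lit 2605) (nat_lit 163) (.e (nat_lit 164023) (nat_lit 46) (.e (nat_lit 704738) (nat_lit 11) (.e (nat_lit 16425) (nat_lit 7) (.e (nat_lit 409649) (nat_lit 18) (.e (nat_lit 303140) (nat_lit 10) (.e (nat_lit 434202) (nat_lit 18) (.e (nat_lit 5840) (nat_lit 320) .nil)))))))) (.g (nat_lit 4) .nil .nil))) 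
(.lf (nat_lit 94207) (.g (nat_lit 2179) (.e (nat_lit 2606) (nat_lit 163) (.e (nat_lit 164402) (nat_lit 256) (.e (nat_lit 57371) (nat_lit 2) (.e (nat_lit 90172) (nat_lit 14) (.e (nat_lit 180243) (nat_lit 5) (.e (nat_lit 532515) (nat_lit 3) (.e (nat_lit 114716) (nat_lit 22) (.e (nat_lit 90129) (nat_lit 9) .nil)))))))) (.g (nat_lit 4) .nil .nil)))))))))

noncomputable def tv1294 : DT := (.nd (nat_lit 0) (.nd (nat_lit 1) (.nd (nat_lit 2) (.nd (nat_lit 3) (.nd (nat_lit 4) (.nd (nat_lit 5) 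
(.lf (nat_lit 94208) (.g (nat_lit 2596) (.e (nat_lit 2606) (nat_lit 163) (.e (nat_lit 164403) (nat_lit 256) (.e (nat_lit 57371) (nat_lit 2) (.e (nat_lit 90172) (nat_lit 14) (.e (nat_lit 180243) (nat_lit 5) .nil))))) .nil)) 
(.lf (nat_lit 94240) (.g (nat_lit 1854) (.e (nat_lit 2607) (nat_lit 163) (.e (nat_lit 164332) (nat_lit 230) (.e (nat_lit 163885) (nat_lit 5) (.e (nat_lit 229120) (nat_lit 12) (.e (nat_lit 344120) (nat_lit 21) (.e (nat_lit 516131) (nat_lit 3) (.e (nat_lit 221219) (nat_lit 24) (.e (nat_lit 213022) (nat_lit 9) .nil)))))))) (.g (nat_lit 6) .nil .nil)))) (.nd (nat_lit 5) 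
(.lf (nat_lit 94224) (.g (nat_lit 4022) (.e (nat_lit 2607) (nat_lit 163) (.e (nat_lit 164239) (nat_lit 187) (.e (nat_lit 1659) (nat_lit 115) (.e (nat_lit 393301) (nat_lit 27) (.e (nat_lit 491559) (nat_lit 10) (.e (nat_lit 344091) (nat_lit 18) (.e (nat_lit 6923) (nat_lit 371) .nil))))))) (.g (nat_lit 7) .nil .nil))) 
(.lf (nat_lit 94256) (.g (nat_lit 2468) (.e (nat_lit 2608) (nat_lit 163) (.e (nat_lit 164207) (nat_lit 176) (.e (nat_lit 2777) (nat_lit 178) (.e (nat_lit 286731) (nat_lit 1) (.e (nat_lit 57681) (nat_lit 155) (.e (nat_lit 122919) (nat_lit 15) (.e (nat_lit 360451) (nat_lit 0) (.e (nat_lit 6869) (nat_lit 371) .nil)))))))) (.g (nat_lit 5) .nil .nil))))) (.nd (nat_lit 4) (.nd (nat_lit 5) 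
(.lf (nat_lit 94216) (.g (nat_lit 3471) (.e (nat_lit 2607) (nat_lit 163) (.e (nat_lit 164022) (nat_lit 46) (.e (nat_lit 704738) (nat_lit 11) (.e (nat_lit 16425) (nat_lit 7) (.e (nat_lit 409649) (nat_lit 18) (.e (nat_lit 303140) (nat_lit 10) (.e (nat_lit 434201) (nat_lit 18) (.e (nat_lit 5922) (nat_lit 320) .nil)))))))) (.g (nat_lit 5) .nil .nil))) 
(.lf (nat_lit 94248) (.g (nat_lit 1946) (.e (nat_lit 2607) (nat_lit 163) (.e (nat_lit 164403) (nat_lit 256) (.e (nat_lit 57373) (nat_lit 2) (.e (nat_lit 90172) (nat_lit 14) .nil)))) .nil))) (.nd (nat_lit 5) 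
(.lf (nat_lit 94232) (.g (nat_lit 1972) (.e (nat_lit 2607) (nat_lit 163) (.e (nat_lit 164332) (nat_lit 230) (.e (nat_lit 163884) (nat_lit 5) (.e (nat_lit 229120) (nat_lit 12) (.e (nat_lit 344117) (nat_lit 21) (.e (nat_lit 516130) (nat_lit 3) (.e (nat_lit 221218) (nat_lit 24) (.e (nat_lit 213010) (nat_lit 9) .nil)))))))) (.g (nat_lit 5) .nil .nil))) 
(.lf (nat_lit 94264) (.g (nat_lit 3902) (.e (nat_lit 2608) (nat_lit 163) (.e (nat_lit 164403) (nat_lit 256) (.e (nat_lit 57400) (nat_lit 10) (.e (nat_lit 319530) (nat_lit 16) (.e (nat_lit 286761) (nat_lit 13) (.e (nat_lit 393234) (nat_lit 17) (.e (nat_lit 7345) (nat_lit 388) .nil))))))) (.g (nat_lit 6) .nil .nil)))))) (.nd (nat_lit 3) (.nd (nat_lit 4) (.nd (nat_lit 5) 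
(.lf (nat_lit 94212) (.g (nat_lit 2163) (.e (nat_lit 2606) (nat_lit 163) (.e (nat_lit 164403) (nat_lit 256) (.e (nat_lit 57378) (nat_lit 3) (.e (nat_lit 98368) (nat_lit 27) .nil)))) .nil)) 
(.lf (nat_lit 94244) (.g (nat_lit 3417) (.e (nat_lit 2607) (nat_lit 163) (.e (nat_lit 164402) (nat_lit 256) (.e (nat_lit 57373) (nat_lit 2) (.e (nat_lit 90172) (nat_lit 14) (.e (nat_lit 180244) (nat_lit 5) (.e (nat_lit 532515) (nat_lit 3) (.e (nat_lit 114716) (nat_lit 22) (.e (nat_lit 90137) (nat_lit 9) .nil)))))))) (.g (nat_lit 0) .nil .nil)))) (.nd (nat_lit 5) 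
(.lf (nat_lit 94228) (.g (nat_lit 3558) (.e (nat_lit 2607) (nat_lit 163) (.e (nat_lit 164239) (nat_lit 187) (.e (nat_lit 1659) (nat_lit 115) (.e (nat_lit 393301) (nat_lit 27) (.e (nat_lit 491560) (nat_lit 10) (.e (nat_lit 344090) (nat_lit 18) (.e (nat_lit 6923) (nat_lit 371) .nil))))))) (.g (nat_lit 6) .nil .nil))) 
(.lf (nat_lit 94260) (.g (nat_lit 2119) (.e (nat_lit 2608) (nat_lit 163) (.e (nat_lit 164403) (nat_lit 256) (.e (nat_lit 57373) (nat_lit 2) (.e (nat_lit 90176) (nat_lit 15) (.e (nat_lit 196352) (nat_lit 17) .nil))))) .nil)))) (.nd (nat_lit 4) (.nd (nat_lit 5) 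
(.lf (nat_lit 94220) (.g (nat_lit 3240) (.e (nat_lit 2607) (nat_lit 163) (.e (nat_lit 164238) (nat_lit 187) (.e (nat_lit 1659) (nat_lit 115) (.e (nat_lit 393301) (nat_lit 27) (.e (nat_lit 491558) (nat_lit 10) (.e (nat_lit 344091) (nat_lit 18) (.e (nat_lit 6923) (nat_lit 371) .nil))))))) (.g (nat_lit 5) .nil .nil))) 
(.lf (nat_lit 94252) (.g (nat_lit 3658) (.e (nat_lit 2608) (nat_lit 163) (.e (nat_lit 164022) (nat_lit 46) (.e (nat_lit 704738) (nat_lit 11) (.e (nat_lit 16425) (nat_lit 7) (.e (nat_lit 409649) (nat_lit 18) (.e (nat_lit 303140) (nat_lit 10) (.e (nat_lit 434209) (nat_lit 18) (.e (nat_lit 5912) (nat_lit 320) .nil)))))))) (.g (nat_lit 5) .nil .nil)))) (.nd (nat_lit 5) 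
(.lf (nat_lit 94236) (.g (nat_lit 1430) (.e (nat_lit 2607) (nat_lit 163) (.e (nat_lit 164332) (nat_lit 230) (.e (nat_lit 163884) (nat_lit 5) (.e (nat_lit 229120) (nat_lit 12) (.e (nat_lit 344130) (nat_lit 26) (.e (nat_lit 557104) (nat_lit 14) (.e (nat_lit 180264) (nat_lit 21) (.e (nat_lit 663577) (nat_lit 9) .nil)))))))) (.g (nat_lit 5) .nil .nil))) 
(.lf (nat_lit 94268) (.g (nat_lit 3063) (.e (nat_lit 2608) (nat_lit 163) (.e (nat_lit 164403) (nat_lit 256) (.e (nat_lit 57447) (nat_lit 19) (.e (nat_lit 393260) (nat_lit 21) (.e (nat_lit 409616) (nat_lit 10) .nil))))) .nil)))))) (.nd (nat_lit 2) (.nd (nat_lit 3) (.nd (nat_lit 4) (.nd (nat_lit 5) 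
(.lf (nat_lit 94210) (.g (nat_lit 3758) (.e (nat_lit 2606) (nat_lit 163) (.e (nat_lit 164403) (nat_lit 256) (.e (nat_lit 57373) (nat_lit 2) (.e (nat_lit 90172) (nat_lit 14) (.e (nat_lit 180244) (nat_lit 5) (.e (nat_lit 532515) (nat_lit 3) (.e (nat_lit 114716) (nat_lit 22) (.e (nat_lit 90129) (nat_lit 9) .nil)))))))) (.g (nat_lit 6) .nil .nil))) 
(.lf (nat_lit 94242) (.g (nat_lit 2769) (.e (nat_lit 2607) (nat_lit 163) (.e (nat_lit 164402) (nat_lit 256) (.e (nat_lit 57371) (nat_lit 2) (.e (nat_lit 90172) (nat_lit 14) (.e (nat_lit 180243) (nat_lit 5) (.e (nat_lit 532515) (nat_lit 3) (.e (nat_lit 114716) (nat_lit 22) (.e (nat_lit 90137) (nat_lit 9) .nil)))))))) (.g (nat_lit 5) .nil .nil)))) (.nd (nat_lit 5) 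
(.lf (nat_lit 94226) (.g (nat_lit 3915) (.e (nat_lit 2607) (nat_lit 163) (.e (nat_lit 164239) (nat_lit 187) (.e (nat_lit 1659) (nat_lit 115) (.e (nat_lit 393301) (nat_lit 27) (.e (nat_lit 491560) (nat_lit 10) (.e (nat_lit 344089) (nat_lit 18) (.e (nat_lit 6916) (nat_lit 371) .nil))))))) (.g (nat_lit 6) .nil .nil))) 
(.lf (nat_lit 94258) (.g (nat_lit 1180) (.e (nat_lit 2608) (nat_lit 163) (.e (nat_lit 164402) (nat_lit 256) (.e (nat_lit 57400) (nat_lit 10) (.e (nat_lit 319530) (nat_lit 16) (.e (nat_lit 286761) (nat_lit 13) .nil))))) .nil)))) (.nd (nat_lit 4) (.nd (nat_lit 5) 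
(.lf (nat_lit 94218) (.g (nat_lit 1773) (.e (nat_lit 2607) (nat_lit 163) (.e (nat_lit 164179) (nat_lit 154) (.e (nat_lit 57432) (nat_lit 16) (.e (nat_lit 368676) (nat_lit 21) (.e (nat_lit 516174) (nat_lit 14) (.e (nat_lit 466967) (nat_lit 20) (.e (nat_lit 3304) (nat_lit 202) (.e (nat_lit 581376) (nat_lit 0) .nil)))))))) (.g (nat_lit 4) .nil .nil))) 
(.lf (nat_lit 94250) (.g (nat_lit 2667) (.e (nat_lit 2607) (nat_lit 163) (.e (nat_lit 164403) (nat_lit 256) (.e (nat_lit 57378) (nat_lit 3) (.e (nat_lit 98368) (nat_lit 27) (.e (nat_lit 434245) (nat_lit 28) .nil))))) .nil))) (.nd (nat_lit 5) 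
(.lf (nat_lit 94234) (.g (nat_lit 2066) (.e (nat_lit 2607) (nat_lit 163) (.e (nat_lit 164332) (nat_lit 230) (.e (nat_lit 163884) (nat_lit 5) (.e (nat_lit 229120) (nat_lit 12) (.e (nat_lit 344119) (nat_lit 21) (.e (nat_lit 516131) (nat_lit 3) (.e (nat_lit 221219) (nat_lit 24) (.e (nat_lit 213022) (nat_lit 9) .nil)))))))) (.g (nat_lit 7) .nil .nil))) 
(.lf (nat_lit 94266) (.g (nat_lit 4230) (.e (nat_lit 2608) (nat_lit 163) (.e (nat_lit 164403) (nat_lit 256) (.e (nat_lit 57400) (nat_lit 10) (.e (nat_lit 319531) (nat_lit 16) (.e (nat_lit 286761) (nat_lit 13) (.e (nat_lit 393234) (nat_lit 17) (.e (nat_lit 7345) (nat_lit 388) .nil))))))) (.g (nat_lit 6) .nil .nil)))))) (.nd (nat_lit 3) (.nd (nat_lit 4) (.nd (nat_lit 5) 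
(.lf (nat_lit 94214) (.g (nat_lit 2104) (.e (nat_lit 2607) (nat_lit 163) (.e (nat_lit 164022) (nat_lit 46) (.e (nat_lit 704738) (nat_lit 11) (.e (nat_lit 16425) (nat_lit 7) .nil)))) .nil)) 
(.lf (nat_lit 94246) (.g (nat_lit 2017) (.e (nat_lit 2607) (nat_lit 163) (.e (nat_lit 164403) (nat_lit 256) (.e (nat_lit 57371) (nat_lit 2) (.e (nat_lit 90171) (nat_lit 14) (.e (nat_lit 180251) (nat_lit 10) .nil))))) .nil))) (.nd (nat_lit 5) 
(.lf (nat_lit 94230) (.g (nat_lit 1098) (.e (nat_lit 2607) (nat_lit 163) (.e (nat_lit 164332) (nat_lit 230) (.e (nat_lit 163884) (nat_lit 5) (.e (nat_lit 229120) (nat_lit 12) .nil)))) .nil)) 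
(.lf (nat_lit 94262) (.g (nat_lit 1728) (.e (nat_lit 2608) (nat_lit 163) (.e (nat_lit 164403) (nat_lit 256) (.e (nat_lit 57399) (nat_lit 10) (.e (nat_lit 319531) (nat_lit 16) (.e (nat_lit 286761) (nat_lit 13) .nil))))) .nil)))) (.nd (nat_lit 4) (.nd (nat_lit 5) 
(.lf (nat_lit 94222) (.g (nat_lit 3482) (.e (nat_lit 2607) (nat_lit 163) (.e (nat_lit 164238) (nat_lit 187) (.e (nat_lit 1659) (nat_lit 115) (.e (nat_lit 393301) (nat_lit 27) (.e (nat_lit 491560) (nat_lit 10) (.e (nat_lit 344091) (nat_lit 18) (.e (nat_lit 6923) (nat_lit 371) .nil))))))) (.g (nat_lit 5) .nil .nil))) 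
(.lf (nat_lit 94254) (.g (nat_lit 2696) (.e (nat_lit 2608) (nat_lit 163) (.e (nat_lit 164179) (nat_lit 154) (.e (nat_lit 57432) (nat_lit 16) (.e (nat_lit 368676) (nat_lit 21) (.e (nat_lit 516176) (nat_lit 14) (.e (nat_lit 466967) (nat_lit 20) (.e (nat_lit 3304) (nat_lit 202) (.e (nat_lit 581376) (nat_lit 0) .nil)))))))) (.g (nat_lit 6) .nil .nil)))) (.nd (nat_lit 5) 
(.lf (nat_lit 94238) (.g (nat_lit 3041) (.e (nat_lit 2607) (nat_lit 163) (.e (nat_lit 164332) (nat_lit 230) (.e (nat_lit 163885) (nat_lit 5) (.e (nat_lit 229120) (nat_lit 12) (.e (nat_lit 344117) (nat_lit 21) (.e (nat_lit 516130) (nat_lit 3) (.e (nat_lit 221219) (nat_lit 24) (.e (nat_lit 213022) (nat_lit 9) .nil)))))))) (.g (nat_lit 6) .nil .nil))) 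
(.lf (nat_lit 94270) (.g (nat_lit 1167) (.e (nat_lit 2609) (nat_lit 163) (.e (nat_lit 164332) (nat_lit 230) (.e (nat_lit 163884) (nat_lit 5) (.e (nat_lit 229120) (nat_lit 12) .nil)))) .nil))))))) (.nd (nat_lit 1) (.nd (nat_lit 2) (.nd (nat_lit 3) (.nd (nat_lit 4) (.nd (nat_lit 5) 
(.lf (nat_lit 94209) (.g (nat_lit 3221) (.e (nat_lit 2606) (nat_lit 163) (.e (nat_lit 164403) (nat_lit 256) (.e (nat_lit 57373) (nat_lit 2) (.e (nat_lit 90172) (nat_lit 14) (.e (nat_lit 180243) (nat_lit 5) .nil))))) .nil)) 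
(.lf (nat_lit 94241) (.g (nat_lit 2924) (.e (nat_lit 2607) (nat_lit 163) (.e (nat_lit 164396) (nat_lit 256) (.e (nat_lit 57371) (nat_lit 2) (.e (nat_lit 90172) (nat_lit 14) (.e (nat_lit 180244) (nat_lit 5) (.e (nat_lit 532515) (nat_lit 3) (.e (nat_lit 114716) (nat_lit 22) (.e (nat_lit 90137) (nat_lit 9) .nil)))))))) (.g (nat_lit 7) .nil .nil)))) (.nd (nat_lit 5) 
(.lf (nat_lit 94225) (.g (nat_lit 3225) (.e (nat_lit 2607) (nat_lit 163) (.e (nat_lit 164239) (nat_lit 187) (.e (nat_lit 1659) (nat_lit 115) (.e (nat_lit 393301) (nat_lit 27) (.e (nat_lit 491560) (nat_lit 10) (.e (nat_lit 344087) (nat_lit 18) (.e (nat_lit 6923) (nat_lit 371) .nil))))))) (.g (nat_lit 5) .nil .nil))) 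
(.lf (nat_lit 94257) (.g (nat_lit 3875) (.e (nat_lit 2608) (nat_lit 163) (.e (nat_lit 164239) (nat_lit 187) (.e (nat_lit 1659) (nat_lit 115) (.e (nat_lit 393301) (nat_lit 27) (.e (nat_lit 491560) (nat_lit 10) (.e (nat_lit 344096) (nat_lit 18) (.e (nat_lit 6869) (nat_lit 371) .nil))))))) (.g (nat_lit 6) .nil .nil))))) (.nd (nat_lit 4) (.nd (nat_lit 5) 
(.lf (nat_lit 94217) (.g (nat_lit 3108) (.e (nat_lit 2607) (nat_lit 163) (.e (nat_lit 164022) (nat_lit 46) (.e (nat_lit 704738) (nat_lit 11) (.e (nat_lit 16425) (nat_lit 7) (.e (nat_lit 409649) (nat_lit 18) (.e (nat_lit 303140) (nat_lit 10) (.e (nat_lit 434209) (nat_lit 18) (.e (nat_lit 5912) (nat_lit 320) .nil)))))))) (.g (nat_lit 4) .nil .nil))) 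
(.lf (nat_lit 94249) (.g (nat_lit 3223) (.e (nat_lit 2607) (nat_lit 163) (.e (nat_lit 164403) (nat_lit 256) (.e (nat_lit 57373) (nat_lit 2) (.e (nat_lit 90172) (nat_lit 14) (.e (nat_lit 180243) (nat_lit 5) .nil))))) .nil))) (.nd (nat_lit 5) 
(.lf (nat_lit 94233) (.g (nat_lit 1641) (.e (nat_lit 2607) (nat_lit 163) (.e (nat_lit 164332) (nat_lit 230) (.e (nat_lit 163884) (nat_lit 5) (.e (nat_lit 229120) (nat_lit 12) (.e (nat_lit 344118) (nat_lit 21) (.e (nat_lit 516131) (nat_lit 3) (.e (nat_lit 221219) (nat_lit 24) (.e (nat_lit 213022) (nat_lit 9) .nil)))))))) (.g (nat_lit 6) .nil .nil))) 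
(.lf (nat_lit 94265) (.g (nat_lit 4036) (.e (nat_lit 2608) (nat_lit 163) (.e (nat_lit 164403) (nat_lit 256) (.e (nat_lit 57400) (nat_lit 10) (.e (nat_lit 319530) (nat_lit 16) (.e (nat_lit 286761) (nat_lit 13) (.e (nat_lit 393234) (nat_lit 17) (.e (nat_lit 7355) (nat_lit 388) .nil))))))) (.g (nat_lit 6) .nil .nil)))))) (.nd (nat_lit 3) (.nd (nat_lit 4) (.nd (nat_lit 5) 
(.lf (nat_lit 94213) (.g (nat_lit 2019) (.e (nat_lit 2606) (nat_lit 163) (.e (nat_lit 164403) (nat_lit 256) (.e (nat_lit 57378) (nat_lit 3) (.e (nat_lit 98377) (nat_lit 30) (.e (nat_lit 458789) (nat_lit 23) .nil))))) .nil)) 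
(.lf (nat_lit 94245) (.g (nat_lit 1771) (.e (nat_lit 2607) (nat_lit 163) (.e (nat_lit 164403) (nat_lit 256) (.e (nat_lit 57370) (nat_lit 2) (.e (nat_lit 90172) (nat_lit 14) (.e (nat_lit 180244) (nat_lit 5) .nil))))) .nil))) (.nd (nat_lit 5) 
(.lf (nat_lit 94229) (.g (nat_lit 3870) (.e (nat_lit 2607) (nat_lit 163) (.e (nat_lit 164239) (nat_lit 187) (.e (nat_lit 1659) (nat_lit 115) (.e (nat_lit 393301) (nat_lit 27) (.e (nat_lit 491560) (nat_lit 10) (.e (nat_lit 344091) (nat_lit 18) (.e (nat_lit 6923) (nat_lit 371) .nil))))))) (.g (nat_lit 7) .nil .nil))) 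
(.lf (nat_lit 94261) (.g (nat_lit 1549) (.e (nat_lit 2608) (nat_lit 163) (.e (nat_lit 164403) (nat_lit 256) (.e (nat_lit 57373) (nat_lit 2) (.e (nat_lit 90178) (nat_lit 15) .nil)))) .nil)))) (.nd (nat_lit 4) (.nd (nat_lit 5) 
(.lf (nat_lit 94221) (.g (nat_lit 3557) (.e (nat_lit 2607) (nat_lit 163) (.e (nat_lit 164238) (nat_lit 187) (.e (nat_lit 1659) (nat_lit 115) (.e (nat_lit 393301) (nat_lit 27) (.e (nat_lit 491559) (nat_lit 10) (.e (nat_lit 344091) (nat_lit 18) (.e (nat_lit 6923) (nat_lit 371) .nil))))))) (.g (nat_lit 5) .nil .nil))) 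
(.lf (nat_lit 94253) (.g (nat_lit 2406) (.e (nat_lit 2608) (nat_lit 163) (.e (nat_lit 164178) (nat_lit 154) (.e (nat_lit 57437) (nat_lit 17) (.e (nat_lit 376859) (nat_lit 21) (.e (nat_lit 57655) (nat_lit 152) (.e (nat_lit 1206) (nat_lit 89) (.e (nat_lit 73782) (nat_lit 32) .nil))))))) (.g (nat_lit 4) .nil .nil)))) (.nd (nat_lit 5) 
(.lf (nat_lit 94237) (.g (nat_lit 1353) (.e (nat_lit 2607) (nat_lit 163) (.e (nat_lit 164332) (nat_lit 230) (.e (nat_lit 163885) (nat_lit 5) (.e (nat_lit 229120) (nat_lit 12) .nil)))) .nil)) 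
(.lf (nat_lit 94269) (.g (nat_lit 3108) (.e (nat_lit 2608) (nat_lit 163) (.e (nat_lit 164403) (nat_lit 256) (.e (nat_lit 57447) (nat_lit 19) (.e (nat_lit 393260) (nat_lit 21) (.e (nat_lit 409617) (nat_lit 10) (.e (nat_lit 632) (nat_lit 50) (.e (nat_lit 573478) (nat_lit 12) (.e (nat_lit 57750) (nat_lit 201) .nil)))))))) (.g (nat_lit 4) .nil .nil))))))) 
(.nd (nat_lit 2) (.nd (nat_lit 3) (.nd (nat_lit 4) (.nd (nat_lit 5) 
(.lf (nat_lit 94211) (.g (nat_lit 2966) (.e (nat_lit 2606) (nat_lit 163) (.e (nat_lit 164403) (nat_lit 256) (.e (nat_lit 57373) (nat_lit 2) (.e (nat_lit 90172) (nat_lit 14) (.e (nat_lit 180250) (nat_lit 10) (.e (nat_lit 573489) (nat_lit 14) (.e (nat_lit 73755) (nat_lit 8) (.e (nat_lit 557067) (nat_lit 9) .nil)))))))) (.g (nat_lit 4) .nil .nil))) 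
(.lf (nat_lit 94243) (.g (nat_lit 3657) (.e (nat_lit 2607) (nat_lit 163) (.e (nat_lit 164402) (nat_lit 256) (.e (nat_lit 57371) (nat_lit 2) (.e (nat_lit 90172) (nat_lit 14) (.e (nat_lit 180244) (nat_lit 5) (.e (nat_lit 532515) (nat_lit 3) (.e (nat_lit 114716) (nat_lit 22) (.e (nat_lit 90137) (nat_lit 9) .nil)))))))) (.g (nat_lit 0) .nil .nil)))) (.nd (nat_lit 5) 
(.lf (nat_lit 94227) (.g (nat_lit 3528) (.e (nat_lit 2607) (nat_lit 163) (.e (nat_lit 164239) (nat_lit 187) (.e (nat_lit 1659) (nat_lit 115) (.e (nat_lit 393301) (nat_lit 27) (.e (nat_lit 491560) (nat_lit 10) (.e (nat_lit 344089) (nat_lit 18) (.e (nat_lit 6920) (nat_lit 371) .nil))))))) (.g (nat_lit 5) .nil .nil))) 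
(.lf (nat_lit 94259) (.g (nat_lit 578) (.e (nat_lit 2608) (nat_lit 163) (.e (nat_lit 164403) (nat_lit 256) (.e (nat_lit 57371) (nat_lit 2) .nil))) .nil)))) (.nd (nat_lit 4) (.nd (nat_lit 5) 
(.lf (nat_lit 94219) (.g (nat_lit 2749) (.e (nat_lit 2607) (nat_lit 163) (.e (nat_lit 164179) (nat_lit 154) (.e (nat_lit 57432) (nat_lit 16) (.e (nat_lit 368676) (nat_lit 21) (.e (nat_lit 516176) (nat_lit 14) (.e (nat_lit 466967) (nat_lit 20) (.e (nat_lit 3304) (nat_lit 202) (.e (nat_lit 581376) (nat_lit 0) .nil)))))))) (.g (nat_lit 5) .nil .nil))) 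
(.lf (nat_lit 94251) (.g (nat_lit 2168) (.e (nat_lit 2607) (nat_lit 163) (.e (nat_lit 164403) (nat_lit 256) (.e (nat_lit 57378) (nat_lit 3) (.e (nat_lit 98377) (nat_lit 30) (.e (nat_lit 458789) (nat_lit 23) (.e (nat_lit 532515) (nat_lit 3) (.e (nat_lit 114716) (nat_lit 22) (.e (nat_lit 90137) (nat_lit 9) .nil)))))))) (.g (nat_lit 4) .nil .nil)))) (.nd (nat_lit 5) 
(.lf (nat_lit 94235) (.g (nat_lit 1471) (.e (nat_lit 2607) (nat_lit 163) (.e (nat_lit 164332) (nat_lit 230) (.e (nat_lit 163884) (nat_lit 5) (.e (nat_lit 229120) (nat_lit 12) (.e (nat_lit 344130) (nat_lit 26) (.e (nat_lit 557104) (nat_lit 14) (.e (nat_lit 180264) (nat_lit 21) (.e (nat_lit 663576) (nat_lit 9) .nil)))))))) (.g (nat_lit 5) .nil .nil))) 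
(.lf (nat_lit 94267) (.g (nat_lit 1132) (.e (nat_lit 2608) (nat_lit 163) (.e (nat_lit 164403) (nat_lit 256) (.e (nat_lit 57400) (nat_lit 10) (.e (nat_lit 319532) (nat_lit 16) .nil)))) .nil))))) (.nd (nat_lit 3) (.nd (nat_lit 4) (.nd (nat_lit 5) 
(.lf (nat_lit 94215) (.g (nat_lit 2966) (.e (nat_lit 2607) (nat_lit 163) (.e (nat_lit 164022) (nat_lit 46) (.e (nat_lit 704738) (nat_lit 11) (.e (nat_lit 16425) (nat_lit 7) (.e (nat_lit 409648) (nat_lit 18) (.e (nat_lit 303137) (nat_lit 10) (.e (nat_lit 434201) (nat_lit 18) (.e (nat_lit 5922) (nat_lit 320) .nil)))))))) (.g (nat_lit 4) .nil .nil))) 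
(.lf (nat_lit 94247) (.g (nat_lit 2790) (.e (nat_lit 2607) (nat_lit 163) (.e (nat_lit 164403) (nat_lit 256) (.e (nat_lit 57371) (nat_lit 2) (.e (nat_lit 90172) (nat_lit 14) (.e (nat_lit 180243) (nat_lit 5) (.e (nat_lit 532515) (nat_lit 3) (.e (nat_lit 114716) (nat_lit 22) (.e (nat_lit 90137) (nat_lit 9) .nil)))))))) (.g (nat_lit 4) .nil .nil)))) (.nd (nat_lit 5) 
(.lf (nat_lit 94231) (.g (nat_lit 3149) (.e (nat_lit 2607) (nat_lit 163) (.e (nat_lit 164332) (nat_lit 230) (.e (nat_lit 163884) (nat_lit 5) (.e (nat_lit 229120) (nat_lit 12) (.e (nat_lit 344117) (nat_lit 21) (.e (nat_lit 516129) (nat_lit 3) (.e (nat_lit 221217) (nat_lit 24) (.e (nat_lit 213022) (nat_lit 9) .nil)))))))) (.g (nat_lit 7) .nil .nil))) 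
(.lf (nat_lit 94263) (.g (nat_lit 532) (.e (nat_lit 2608) (nat_lit 163) (.e (nat_lit 164403) (nat_lit 256) (.e (nat_lit 57400) (nat_lit 10) .nil))) .nil)))) (.nd (nat_lit 4) (.nd (nat_lit 5) 
(.lf (nat_lit 94223) (.g (nat_lit 3683) (.e (nat_lit 2607) (nat_lit 163) (.e (nat_lit 164239) (nat_lit 187) (.e (nat_lit 1659) (nat_lit 115) (.e (nat_lit 393301) (nat_lit 27) (.e (nat_lit 491558) (nat_lit 10) (.e (nat_lit 344091) (nat_lit 18) (.e (nat_lit 6923) (nat_lit 371) .nil))))))) (.g (nat_lit 7) .nil .nil))) 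
(.lf (nat_lit 94255) (.g (nat_lit 3173) (.e (nat_lit 2608) (nat_lit 163) (.e (nat_lit 164179) (nat_lit 154) (.e (nat_lit 57437) (nat_lit 17) (.e (nat_lit 376859) (nat_lit 21) (.e (nat_lit 57655) (nat_lit 152) (.e (nat_lit 1206) (nat_lit 89) (.e (nat_lit 73782) (nat_lit 32) .nil))))))) (.g (nat_lit 5) .nil .nil)))) (.nd (nat_lit 5) 
(.lf (nat_lit 94239) (.g (nat_lit 2006) (.e (nat_lit 2607) (nat_lit 163) (.e (nat_lit 164332) (nat_lit 230) (.e (nat_lit 163885) (nat_lit 5) (.e (nat_lit 229120) (nat_lit 12) (.e (nat_lit 344119) (nat_lit 21) (.e (nat_lit 516131) (nat_lit 3) (.e (nat_lit 221219) (nat_lit 24) (.e (nat_lit 213022) (nat_lit 9) .nil)))))))) (.g (nat_lit 6) .nil .nil))) 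
(.lf (nat_lit 94271) (.g (nat_lit 1356) (.e (nat_lit 2609) (nat_lit 163) (.e (nat_lit 164332) (nat_lit 230) (.e (nat_lit 163885) (nat_lit 5) (.e (nat_lit 229120) (nat_lit 12) .nil)))) .nil))))))))

noncomputable def tv1295 : DT := (.nd (nat_lit 0) (.nd (nat_lit 1) (.nd (nat_lit 2) (.nd (nat_lit 3) (.nd (nat_lit 4) (.nd (nat_lit 5) 
(.lf (nat_lit 94272) (.g (nat_lit 3478) (.e (nat_lit 2609) (nat_lit 163) (.e (nat_lit 164402) (nat_lit 256) (.e (nat_lit 57371) (nat_lit 2) (.e (nat_lit 90172) (nat_lit 14) (.e (nat_lit 180244) (nat_lit 5) (.e (nat_lit 532515) (nat_lit 3) (.e (nat_lit 114716) (nat_lit 22) (.e (nat_lit 90137) (nat_lit 9) .nil)))))))) (.g (nat_lit 8) .nil .nil))) 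
(.lf (nat_lit 94304) (.g (nat_lit 4891) (.e (nat_lit 2610) (nat_lit 163) (.e (nat_lit 163979) (nat_lit 30) (.e (nat_lit 573493) (nat_lit 15) (.e (nat_lit 81953) (nat_lit 22) (.e (nat_lit 90184) (nat_lit 17) .nil))))) .nil))) (.nd (nat_lit 5) 
(.lf (nat_lit 94288) (.g (nat_lit 2704) (.e (nat_lit 2610) (nat_lit 163) (.e (nat_lit 163979) (nat_lit 30) (.e (nat_lit 573449) (nat_lit 9) (.e (nat_lit 1615) (nat_lit 113) (.e (nat_lit 376865) (nat_lit 22) (.e (nat_lit 90185) (nat_lit 17) (.e (nat_lit 237582) (nat_lit 1) (.e (nat_lit 164345) (nat_lit 240) .nil)))))))) (.g (nat_lit 4) .nil .nil))) 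
(.lf (nat_lit 94320) (.g (nat_lit 3539) (.e (nat_lit 2610) (nat_lit 163) (.e (nat_lit 164178) (nat_lit 154) (.e (nat_lit 57432) (nat_lit 16) (.e (nat_lit 368676) (nat_lit 21) (.e (nat_lit 516176) (nat_lit 14) (.e (nat_lit 466967) (nat_lit 20) (.e (nat_lit 3304) (nat_lit 202) (.e (nat_lit 581376) (nat_lit 0) .nil)))))))) (.g (nat_lit 7) .nil .nil))))) (.nd (nat_lit 4) (.nd (nat_lit 5) 
(.lf (nat_lit 94280) (.g (nat_lit 2411) (.e (nat_lit 2610) (nat_lit 163) (.e (nat_lit 163977) (nat_lit 30) (.e (nat_lit 573451) (nat_lit 9) (.e (nat_lit 1595) (nat_lit 111) (.e (nat_lit 360467) (nat_lit 3) (.e (nat_lit 516171) (nat_lit 13) (.e (nat_lit 458774) (nat_lit 18) (.e (nat_lit 5548) (nat_lit 306) .nil)))))))) (.g (nat_lit 4) .nil .nil))) 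
(.lf (nat_lit 94312) (.g (nat_lit 2589) (.e (nat_lit 2610) (nat_lit 163) (.e (nat_lit 164022) (nat_lit 46) (.e (nat_lit 704738) (nat_lit 11) (.e (nat_lit 16425) (nat_lit 7) (.e (nat_lit 409649) (nat_lit 18) .nil))))) .nil))) (.nd (nat_lit 5) 
(.lf (nat_lit 94296) (.g (nat_lit 3774) (.e (nat_lit 2610) (nat_lit 163) (.e (nat_lit 163979) (nat_lit 30) (.e (nat_lit 573451) (nat_lit 9) (.e (nat_lit 1595) (nat_lit 111) (.e (nat_lit 360467) (nat_lit 3) (.e (nat_lit 516169) (nat_lit 13) (.e (nat_lit 458774) (nat_lit 18) (.e (nat_lit 5548) (nat_lit 306) .nil)))))))) (.g (nat_lit 5) .nil .nil))) 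
(.lf (nat_lit 94328) (.g (nat_lit 1929) (.e (nat_lit 2610) (nat_lit 163) (.e (nat_lit 164183) (nat_lit 154) (.e (nat_lit 57411) (nat_lit 12) (.e (nat_lit 336019) (nat_lit 3) (.e (nat_lit 98380) (nat_lit 31) .nil))))) .nil))))) (.nd (nat_lit 3) (.nd (nat_lit 4) (.nd (nat_lit 5) 
(.lf (nat_lit 94276) (.g (nat_lit 4187) (.e (nat_lit 2609) (nat_lit 163) (.e (nat_lit 164403) (nat_lit 256) (.e (nat_lit 57373) (nat_lit 2) (.e (nat_lit 90172) (nat_lit 14) (.e (nat_lit 180244) (nat_lit 5) (.e (nat_lit 532515) (nat_lit 3) (.e (nat_lit 114716) (nat_lit 22) (.e (nat_lit 90137) (nat_lit 9) .nil)))))))) (.g (nat_lit 8) .nil .nil))) 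
(.lf (nat_lit 94308) (.g (nat_lit 862) (.e (nat_lit 2610) (nat_lit 163) (.e (nat_lit 163979) (nat_lit 30) (.e (nat_lit 573497) (nat_lit 17) .nil))) .nil))) (.nd (nat_lit 5) 
(.lf (nat_lit 94292) (.g (nat_lit 2654) (.e (nat_lit 2610) (nat_lit 163) (.e (nat_lit 163979) (nat_lit 30) (.e (nat_lit 573449) (nat_lit 9) (.e (nat_lit 1615) (nat_lit 113) (.e (nat_lit 376865) (nat_lit 22) (.e (nat_lit 90185) (nat_lit 17) (.e (nat_lit 237585) (nat_lit 1) (.e (nat_lit 164345) (nat_lit 240) .nil)))))))) (.g (nat_lit 4) .nil .nil))) 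
(.lf (nat_lit 94324) (.g (nat_lit 2757) (.e (nat_lit 2610) (nat_lit 163) (.e (nat_lit 164182) (nat_lit 154) (.e (nat_lit 57411) (nat_lit 12) (.e (nat_lit 336019) (nat_lit 3) (.e (nat_lit 98381) (nat_lit 31) (.e (nat_lit 466967) (nat_lit 20) (.e (nat_lit 3304) (nat_lit 202) (.e (nat_lit 581376) (nat_lit 0) .nil)))))))) (.g (nat_lit 5) .nil .nil))))) (.nd (nat_lit 4) (.nd (nat_lit 5) 
(.lf (nat_lit 94284) (.g (nat_lit 2099) (.e (nat_lit 2610) (nat_lit 163) (.e (nat_lit 163977) (nat_lit 30) (.e (nat_lit 573493) (nat_lit 15) (.e (nat_lit 81953) (nat_lit 22) (.e (nat_lit 90170) (nat_lit 13) .nil))))) .nil)) 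
(.lf (nat_lit 94316) (.g (nat_lit 4238) (.e (nat_lit 2610) (nat_lit 163) (.e (nat_lit 164040) (nat_lit 55) (.e (nat_lit 778320) (nat_lit 4) (.e (nat_lit 65630) (nat_lit 14) (.e (nat_lit 401459) (nat_lit 13) (.e (nat_lit 483363) (nat_lit 18) (.e (nat_lit 57773) (nat_lit 227) .nil))))))) (.g (nat_lit 6) .nil .nil)))) (.nd (nat_lit 5) 
(.lf (nat_lit 94300) (.g (nat_lit 2905) (.e (nat_lit 2610) (nat_lit 163) (.e (nat_lit 163979) (nat_lit 30) (.e (nat_lit 573492) (nat_lit 15) (.e (nat_lit 81956) (nat_lit 23) (.e (nat_lit 98378) (nat_lit 30) .nil))))) .nil)) 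
(.lf (nat_lit 94332) (.g (nat_lit 3027) (.e (nat_lit 2610) (nat_lit 163) (.e (nat_lit 164238) (nat_lit 187) (.e (nat_lit 1253) (nat_lit 92) (.e (nat_lit 98373) (nat_lit 29) (.e (nat_lit 450587) (nat_lit 10) (.e (nat_lit 573473) (nat_lit 12) (.e (nat_lit 57348) (nat_lit 0) (.e (nat_lit 6923) (nat_lit 371) .nil)))))))) (.g (nat_lit 5) .nil .nil))))))) 
(.nd (nat_lit 2) (.nd (nat_lit 3) (.nd (nat_lit 4) (.nd (nat_lit 5) 
(.lf (nat_lit 94274) (.g (nat_lit 3227) (.e (nat_lit 2609) (nat_lit 163) (.e (nat_lit 164403) (nat_lit 256) (.e (nat_lit 57373) (nat_lit 2) (.e (nat_lit 90172) (nat_lit 14) (.e (nat_lit 180243) (nat_lit 5) .nil))))) .nil)) 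
(.lf (nat_lit 94306) (.g (nat_lit 2246) (.e (nat_lit 2610) (nat_lit 163) (.e (nat_lit 163979) (nat_lit 30) (.e (nat_lit 573493) (nat_lit 15) (.e (nat_lit 81956) (nat_lit 23) (.e (nat_lit 98367) (nat_lit 27) .nil))))) .nil))) (.nd (nat_lit 5) 
(.lf (nat_lit 94290) (.g (nat_lit 2562) (.e (nat_lit 2610) (nat_lit 163) (.e (nat_lit 163979) (nat_lit 30) (.e (nat_lit 573449) (nat_lit 9) (.e (nat_lit 1615) (nat_lit 113) (.e (nat_lit 376865) (nat_lit 22) (.e (nat_lit 90185) (nat_lit 17) (.e (nat_lit 237584) (nat_lit 1) (.e (nat_lit 164345) (nat_lit 240) .nil)))))))) (.g (nat_lit 4) .nil .nil))) 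
(.lf (nat_lit 94322) (.g (nat_lit 2737) (.e (nat_lit 2610) (nat_lit 163) (.e (nat_lit 164179) (nat_lit 154) (.e (nat_lit 57432) (nat_lit 16) (.e (nat_lit 368676) (nat_lit 21) (.e (nat_lit 516174) (nat_lit 14) (.e (nat_lit 466967) (nat_lit 20) (.e (nat_lit 3304) (nat_lit 202) (.e (nat_lit 581376) (nat_lit 0) .nil)))))))) (.g (nat_lit 6) .nil .nil))))) (.nd (nat_lit 4) (.nd (nat_lit 5) 
(.lf (nat_lit 94282) (.g (nat_lit 3322) (.e (nat_lit 2610) (nat_lit 163) (.e (nat_lit 163977) (nat_lit 30) (.e (nat_lit 573493) (nat_lit 15) (.e (nat_lit 81951) (nat_lit 22) (.e (nat_lit 90172) (nat_lit 14) .nil))))) .nil)) 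
(.lf (nat_lit 94314) (.g (nat_lit 3241) (.e (nat_lit 2610) (nat_lit 163) (.e (nat_lit 164022) (nat_lit 46) (.e (nat_lit 704738) (nat_lit 11) (.e (nat_lit 16425) (nat_lit 7) (.e (nat_lit 409649) (nat_lit 18) (.e (nat_lit 303140) (nat_lit 10) (.e (nat_lit 434201) (nat_lit 18) (.e (nat_lit 5919) (nat_lit 320) .nil)))))))) (.g (nat_lit 4) .nil .nil)))) (.nd (nat_lit 5) 
(.lf (nat_lit 94298) (.g (nat_lit 4009) (.e (nat_lit 2610) (nat_lit 163) (.e (nat_lit 163979) (nat_lit 30) (.e (nat_lit 573451) (nat_lit 9) (.e (nat_lit 1595) (nat_lit 111) (.e (nat_lit 360467) (nat_lit 3) (.e (nat_lit 516171) (nat_lit 13) (.e (nat_lit 458774) (nat_lit 18) (.e (nat_lit 5548) (nat_lit 306) .nil)))))))) (.g (nat_lit 5) .nil .nil))) 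
(.lf (nat_lit 94330) (.g (nat_lit 2387) (.e (nat_lit 2610) (nat_lit 163) (.e (nat_lit 164196) (nat_lit 158) (.e (nat_lit 1199) (nat_lit 88) (.e (nat_lit 65586) (nat_lit 7) (.e (nat_lit 319531) (nat_lit 16) (.e (nat_lit 286770) (nat_lit 28) (.e (nat_lit 434279) (nat_lit 39) (.e (nat_lit 663579) (nat_lit 9) .nil)))))))) (.g (nat_lit 4) .nil .nil)))))) 
(.nd (nat_lit 3) (.nd (nat_lit 4) (.nd (nat_lit 5) 
(.lf (nat_lit 94278) (.g (nat_lit 2506) (.e (nat_lit 2610) (nat_lit 163) (.e (nat_lit 163965) (nat_lit 25) (.e (nat_lit 532544) (nat_lit 10) (.e (nat_lit 344133) (nat_lit 26) (.e (nat_lit 557103) (nat_lit 14) (.e (nat_lit 180243) (nat_lit 5) (.e (nat_lit 532501) (nat_lit 1) (.e (nat_lit 57703) (nat_lit 164) .nil)))))))) (.g (nat_lit 4) .nil .nil))) 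
(.lf (nat_lit 94310) (.g (nat_lit 3077) (.e (nat_lit 2610) (nat_lit 163) (.e (nat_lit 164022) (nat_lit 46) (.e (nat_lit 704738) (nat_lit 11) (.e (nat_lit 16425) (nat_lit 7) (.e (nat_lit 409648) (nat_lit 18) (.e (nat_lit 303137) (nat_lit 10) (.e (nat_lit 434200) (nat_lit 18) (.e (nat_lit 5919) (nat_lit 320) .nil)))))))) (.g (nat_lit 4) .nil .nil)))) (.nd (nat_lit 5) 
(.lf (nat_lit 94294) (.g (nat_lit 4694) (.e (nat_lit 2610) (nat_lit 163) (.e (nat_lit 163979) (nat_lit 30) (.e (nat_lit 573451) (nat_lit 9) (.e (nat_lit 1595) (nat_lit 111) (.e (nat_lit 360467) (nat_lit 3) (.e (nat_lit 516158) (nat_lit 9) (.e (nat_lit 426107) (nat_lit 1) (.e (nat_lit 164347) (nat_lit 240) .nil)))))))) (.g (nat_lit 6) .nil .nil))) 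
(.lf (nat_lit 94326) (.g (nat_lit 2295) (.e (nat_lit 2610) (nat_lit 163) (.e (nat_lit 164183) (nat_lit 154) (.e (nat_lit 57374) (nat_lit 2) (.e (nat_lit 90165) (nat_lit 12) (.e (nat_lit 171776) (nat_lit 48) (.e (nat_lit 720941) (nat_lit 22) (.e (nat_lit 90172) (nat_lit 14) (.e (nat_lit 180239) (nat_lit 1) (.e (nat_lit 499846) (nat_lit 5) .nil))))))))) (.g (nat_lit 4) .nil .nil))))) 
(.nd (nat_lit 4) (.nd (nat_lit 5) 
(.lf (nat_lit 94286) (.g (nat_lit 3565) (.e (nat_lit 2610) (nat_lit 163) (.e (nat_lit 163978) (nat_lit 30) (.e (nat_lit 573490) (nat_lit 15) (.e (nat_lit 81953) (nat_lit 22) (.e (nat_lit 90172) (nat_lit 14) .nil))))) .nil)) 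
(.lf (nat_lit 94318) (.g (nat_lit 2295) (.e (nat_lit 2610) (nat_lit 163) (.e (nat_lit 164050) (nat_lit 55) (.e (nat_lit 778362) (nat_lit 9) (.e (nat_lit 232) (nat_lit 21) (.e (nat_lit 336060) (nat_lit 7) (.e (nat_lit 319534) (nat_lit 16) (.e (nat_lit 286756) (nat_lit 10) (.e (nat_lit 344088) (nat_lit 18) (.e (nat_lit 5918) (nat_lit 320) .nil))))))))) (.g (nat_lit 4) .nil .nil)))) (.nd (nat_lit 5) 
(.lf (nat_lit 94302) (.g (nat_lit 3676) (.e (nat_lit 2610) (nat_lit 163) (.e (nat_lit 163979) (nat_lit 30) (.e (nat_lit 573493) (nat_lit 15) (.e (nat_lit 81953) (nat_lit 22) (.e (nat_lit 90171) (nat_lit 14) .nil))))) .nil)) 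
(.lf (nat_lit 94334) (.g (nat_lit 2453) (.e (nat_lit 2610) (nat_lit 163) (.e (nat_lit 164238) (nat_lit 187) (.e (nat_lit 1253) (nat_lit 92) (.e (nat_lit 98373) (nat_lit 29) (.e (nat_lit 450587) (nat_lit 10) (.e (nat_lit 573475) (nat_lit 12) (.e (nat_lit 57346) (nat_lit 0) (.e (nat_lit 6920) (nat_lit 371) .nil)))))))) (.g (nat_lit 4) .nil .nil)))))))) 
(.nd (nat_lit 1) (.nd (nat_lit 2) (.nd (nat_lit 3) (.nd (nat_lit 4) (.nd (nat_lit 5) 
(.lf (nat_lit 94273) (.g (nat_lit 3231) (.e (nat_lit 2609) (nat_lit 163) (.e (nat_lit 164403) (nat_lit 256) (.e (nat_lit 57371) (nat_lit 2) (.e (nat_lit 90172) (nat_lit 14) (.e (nat_lit 180244) (nat_lit 5) (.e (nat_lit 532515) (nat_lit 3) (.e (nat_lit 114716) (nat_lit 22) (.e (nat_lit 90137) (nat_lit 9) .nil)))))))) (.g (nat_lit 7) .nil .nil))) 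
(.lf (nat_lit 94305) (.g (nat_lit 2306) (.e (nat_lit 2610) (nat_lit 163) (.e (nat_lit 163979) (nat_lit 30) (.e (nat_lit 573493) (nat_lit 15) (.e (nat_lit 81956) (nat_lit 23) (.e (nat_lit 98366) (nat_lit 27) .nil))))) .nil))) (.nd (nat_lit 5) 
(.lf (nat_lit 94289) (.g (nat_lit 2952) (.e (nat_lit 2610) (nat_lit 163) (.e (nat_lit 163979) (nat_lit 30) (.e (nat_lit 573449) (nat_lit 9) (.e (nat_lit 1615) (nat_lit 113) (.e (nat_lit 376865) (nat_lit 22) (.e (nat_lit 90185) (nat_lit 17) (.e (nat_lit 237582) (nat_lit 1) (.e (nat_lit 164347) (nat_lit 240) .nil)))))))) (.g (nat_lit 5) .nil .nil))) 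
(.lf (nat_lit 94321) (.g (nat_lit 2156) (.e (nat_lit 2610) (nat_lit 163) (.e (nat_lit 164179) (nat_lit 154) (.e (nat_lit 57430) (nat_lit 16) (.e (nat_lit 368676) (nat_lit 21) (.e (nat_lit 516176) (nat_lit 14) (.e (nat_lit 466967) (nat_lit 20) (.e (nat_lit 3304) (nat_lit 202) (.e (nat_lit 581376) (nat_lit 0) .nil)))))))) (.g (nat_lit 4) .nil .nil))))) (.nd (nat_lit 4) (.nd (nat_lit 5) 
(.lf (nat_lit 94281) (.g (nat_lit 2830) (.e (nat_lit 2610) (nat_lit 163) (.e (nat_lit 163977) (nat_lit 30) (.e (nat_lit 573492) (nat_lit 15) (.e (nat_lit 81956) (nat_lit 23) (.e (nat_lit 98377) (nat_lit 30) .nil))))) .nil)) 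
(.lf (nat_lit 94313) (.g (nat_lit 3185) (.e (nat_lit 2610) (nat_lit 163) (.e (nat_lit 164022) (nat_lit 46) (.e (nat_lit 704738) (nat_lit 11) (.e (nat_lit 16425) (nat_lit 7) (.e (nat_lit 409649) (nat_lit 18) (.e (nat_lit 303140) (nat_lit 10) (.e (nat_lit 434200) (nat_lit 18) (.e (nat_lit 5919) (nat_lit 320) .nil)))))))) (.g (nat_lit 4) .nil .nil)))) (.nd (nat_lit 5) 
(.lf (nat_lit 94297) (.g (nat_lit 3605) (.e (nat_lit 2610) (nat_lit 163) (.e (nat_lit 163979) (nat_lit 30) (.e (nat_lit 573451) (nat_lit 9) (.e (nat_lit 1595) (nat_lit 111) (.e (nat_lit 360467) (nat_lit 3) (.e (nat_lit 516171) (nat_lit 13) (.e (nat_lit 458774) (nat_lit 18) (.e (nat_lit 5547) (nat_lit 306) .nil)))))))) (.g (nat_lit 5) .nil .nil))) 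
(.lf (nat_lit 94329) (.g (nat_lit 3319) (.e (nat_lit 2610) (nat_lit 163) (.e (nat_lit 164183) (nat_lit 154) (.e (nat_lit 57411) (nat_lit 12) (.e (nat_lit 336019) (nat_lit 3) (.e (nat_lit 98381) (nat_lit 31) (.e (nat_lit 466967) (nat_lit 20) (.e (nat_lit 3304) (nat_lit 202) (.e (nat_lit 581376) (nat_lit 0) .nil)))))))) (.g (nat_lit 6) .nil .nil)))))) 
(.nd (nat_lit 3) (.nd (nat_lit 4) (.nd (nat_lit 5) 
(.lf (nat_lit 94277) (.g (nat_lit 2231) (.e (nat_lit 2609) (nat_lit 163) (.e (nat_lit 164403) (nat_lit 256) (.e (nat_lit 57378) (nat_lit 3) (.e (nat_lit 98368) (nat_lit 27) .nil)))) .nil)) 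
(.lf (nat_lit 94309) (.g (nat_lit 1857) (.e (nat_lit 2610) (nat_lit 163) (.e (nat_lit 164022) (nat_lit 46) (.e (nat_lit 704738) (nat_lit 11) (.e (nat_lit 16425) (nat_lit 7) .nil)))) .nil))) (.nd (nat_lit 5) 
(.lf (nat_lit 94293) (.g (nat_lit 1702) (.e (nat_lit 2610) (nat_lit 163) (.e (nat_lit 163979) (nat_lit 30) (.e (nat_lit 573451) (nat_lit 9) (.e (nat_lit 1595) (nat_lit 111) .nil)))) .nil)) 
(.lf (nat_lit 94325) (.g (nat_lit 2851) (.e (nat_lit 2610) (nat_lit 163) (.e (nat_lit 164183) (nat_lit 154) (.e (nat_lit 57373) (nat_lit 2) (.e (nat_lit 90165) (nat_lit 12) (.e (nat_lit 171776) (nat_lit 48) (.e (nat_lit 720941) (nat_lit 22) (.e (nat_lit 90172) (nat_lit 14) (.e (nat_lit 180239) (nat_lit 1) (.e (nat_lit 499846) (nat_lit 5) .nil))))))))) (.g (nat_lit 4) .nil .nil))))) 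
(.nd (nat_lit 4) (.nd (nat_lit 5) 
(.lf (nat_lit 94285) (.g (nat_lit 1865) (.e (nat_lit 2610) (nat_lit 163) (.e (nat_lit 163978) (nat_lit 30) (.e (nat_lit 573479) (nat_lit 13) (.e (nat_lit 65619) (nat_lit 10) (.e (nat_lit 344117) (nat_lit 21) .nil))))) .nil)) 
(.lf (nat_lit 94317) (.g (nat_lit 3764) (.e (nat_lit 2610) (nat_lit 163) (.e (nat_lit 164041) (nat_lit 55) (.e (nat_lit 778320) (nat_lit 4) (.e (nat_lit 65630) (nat_lit 14) (.e (nat_lit 401459) (nat_lit 13) (.e (nat_lit 483363) (nat_lit 18) (.e (nat_lit 57773) (nat_lit 227) .nil))))))) (.g (nat_lit 5) .nil .nil)))) (.nd (nat_lit 5) 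
(.lf (nat_lit 94301) (.g (nat_lit 3863) (.e (nat_lit 2610) (nat_lit 163) (.e (nat_lit 163979) (nat_lit 30) (.e (nat_lit 573493) (nat_lit 15) (.e (nat_lit 81951) (nat_lit 22) (.e (nat_lit 90174) (nat_lit 14) .nil))))) .nil)) 
(.lf (nat_lit 94333) (.g (nat_lit 2859) (.e (nat_lit 2610) (nat_lit 163) (.e (nat_lit 164238) (nat_lit 187) (.e (nat_lit 1253) (nat_lit 92) (.e (nat_lit 98373) (nat_lit 29) (.e (nat_lit 450587) (nat_lit 10) (.e (nat_lit 573475) (nat_lit 12) (.e (nat_lit 57346) (nat_lit 0) (.e (nat_lit 6916) (nat_lit 371) .nil)))))))) (.g (nat_lit 5) .nil .nil))))))) 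
(.nd (nat_lit 2) (.nd (nat_lit 3) (.nd (nat_lit 4) (.nd (nat_lit 5) 
(.lf (nat_lit 94275) (.g (nat_lit 2655) (.e (nat_lit 2609) (nat_lit 163) (.e (nat_lit 164403) (nat_lit 256) (.e (nat_lit 57373) (nat_lit 2) (.e (nat_lit 90172) (nat_lit 14) (.e (nat_lit 180244) (nat_lit 5) .nil))))) .nil)) 
(.lf (nat_lit 94307) (.g (nat_lit 2508) (.e (nat_lit 2610) (nat_lit 163) (.e (nat_lit 163979) (nat_lit 30) (.e (nat_lit 573493) (nat_lit 15) (.e (nat_lit 81956) (nat_lit 23) (.e (nat_lit 98368) (nat_lit 27) .nil))))) .nil))) (.nd (nat_lit 5) 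
(.lf (nat_lit 94291) (.g (nat_lit 2871) (.e (nat_lit 2610) (nat_lit 163) (.e (nat_lit 163979) (nat_lit 30) (.e (nat_lit 573449) (nat_lit 9) (.e (nat_lit 1615) (nat_lit 113) (.e (nat_lit 376865) (nat_lit 22) (.e (nat_lit 90185) (nat_lit 17) (.e (nat_lit 237584) (nat_lit 1) (.e (nat_lit 164347) (nat_lit 240) .nil)))))))) (.g (nat_lit 5) .nil .nil))) 
(.lf (nat_lit 94323) (.g (nat_lit 3713) (.e (nat_lit 2610) (nat_lit 163) (.e (nat_lit 164179) (nat_lit 154) (.e (nat_lit 57432) (nat_lit 16) (.e (nat_lit 368676) (nat_lit 21) (.e (nat_lit 516176) (nat_lit 14) (.e (nat_lit 466967) (nat_lit 20) (.e (nat_lit 3304) (nat_lit 202) (.e (nat_lit 581376) (nat_lit 0) .nil)))))))) (.g (nat_lit 7) .nil .nil))))) (.nd (nat_lit 4) (.nd (nat_lit 5) 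
(.lf (nat_lit 94283) (.g (nat_lit 3891) (.e (nat_lit 2610) (nat_lit 163) (.e (nat_lit 163977) (nat_lit 30) (.e (nat_lit 573493) (nat_lit 15) (.e (nat_lit 81951) (nat_lit 22) (.e (nat_lit 90185) (nat_lit 17) .nil))))) .nil)) 
(.lf (nat_lit 94315) (.g (nat_lit 4865) (.e (nat_lit 2610) (nat_lit 163) (.e (nat_lit 164022) (nat_lit 46) (.e (nat_lit 704738) (nat_lit 11) (.e (nat_lit 16425) (nat_lit 7) (.e (nat_lit 409649) (nat_lit 18) (.e (nat_lit 303140) (nat_lit 10) (.e (nat_lit 434201) (nat_lit 18) (.e (nat_lit 5922) (nat_lit 320) .nil)))))))) (.g (nat_lit 6) .nil .nil)))) (.nd (nat_lit 5) 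
(.lf (nat_lit 94299) (.g (nat_lit 2938) (.e (nat_lit 2610) (nat_lit 163) (.e (nat_lit 163979) (nat_lit 30) (.e (nat_lit 573492) (nat_lit 15) (.e (nat_lit 81956) (nat_lit 23) (.e (nat_lit 98377) (nat_lit 30) .nil))))) .nil)) 
(.lf (nat_lit 94331) (.g (nat_lit 2306) (.e (nat_lit 2610) (nat_lit 163) (.e (nat_lit 164207) (nat_lit 176) (.e (nat_lit 2777) (nat_lit 178) (.e (nat_lit 286731) (nat_lit 1) (.e (nat_lit 57681) (nat_lit 155) (.e (nat_lit 122919) (nat_lit 15) (.e (nat_lit 360451) (nat_lit 0) (.e (nat_lit 6923) (nat_lit 371) .nil)))))))) (.g (nat_lit 4) .nil .nil)))))) 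
(.nd (nat_lit 3) (.nd (nat_lit 4) (.nd (nat_lit 5) 
(.lf (nat_lit 94279) (.g (nat_lit 2176) (.e (nat_lit 2610) (nat_lit 163) (.e (nat_lit 163977) (nat_lit 30) (.e (nat_lit 573451) (nat_lit 9) (.e (nat_lit 1595) (nat_lit 111) (.e (nat_lit 360467) (nat_lit 3) (.e (nat_lit 516169) (nat_lit 13) (.e (nat_lit 458774) (nat_lit 18) (.e (nat_lit 5548) (nat_lit 306) .nil)))))))) (.g (nat_lit 4) .nil .nil))) 
(.lf (nat_lit 94311) (.g (nat_lit 4360) (.e (nat_lit 2610) (nat_lit 163) (.e (nat_lit 164022) (nat_lit 46) (.e (nat_lit 704738) (nat_lit 11) (.e (nat_lit 16425) (nat_lit 7) (.e (nat_lit 409648) (nat_lit 18) (.e (nat_lit 303137) (nat_lit 10) (.e (nat_lit 434201) (nat_lit 18) (.e (nat_lit 5922) (nat_lit 320) .nil)))))))) (.g (nat_lit 5) .nil .nil)))) (.nd (nat_lit 5) 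
(.lf (nat_lit 94295) (.g (nat_lit 3363) (.e (nat_lit 2610) (nat_lit 163) (.e (nat_lit 163979) (nat_lit 30) (.e (nat_lit 573451) (nat_lit 9) (.e (nat_lit 1595) (nat_lit 111) (.e (nat_lit 360467) (nat_lit 3) (.e (nat_lit 516169) (nat_lit 13) (.e (nat_lit 458774) (nat_lit 18) (.e (nat_lit 5547) (nat_lit 306) .nil)))))))) (.g (nat_lit 5) .nil .nil))) 
(.lf (nat_lit 94327) (.g (nat_lit 1483) (.e (nat_lit 2610) (nat_lit 163) (.e (nat_lit 164183) (nat_lit 154) (.e (nat_lit 57410) (nat_lit 12) (.e (nat_lit 336019) (nat_lit 3) (.e (nat_lit 98381) (nat_lit 31) .nil))))) .nil)))) (.nd (nat_lit 4) (.nd (nat_lit 5) 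
(.lf (nat_lit 94287) (.g (nat_lit 3500) (.e (nat_lit 2610) (nat_lit 163) (.e (nat_lit 163978) (nat_lit 30) (.e (nat_lit 573490) (nat_lit 15) (.e (nat_lit 81953) (nat_lit 22) (.e (nat_lit 90174) (nat_lit 14) .nil))))) .nil)) 
(.lf (nat_lit 94319) (.g (nat_lit 2545) (.e (nat_lit 2610) (nat_lit 163) (.e (nat_lit 164178) (nat_lit 154) (.e (nat_lit 57432) (nat_lit 16) (.e (nat_lit 368676) (nat_lit 21) (.e (nat_lit 516174) (nat_lit 14) (.e (nat_lit 466967) (nat_lit 20) (.e (nat_lit 3304) (nat_lit 202) (.e (nat_lit 581376) (nat_lit 0) .nil)))))))) (.g (nat_lit 6) .nil .nil)))) (.nd (nat_lit 5) 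
(.lf (nat_lit 94303) (.g (nat_lit 3163) (.e (nat_lit 2610) (nat_lit 163) (.e (nat_lit 163979) (nat_lit 30) (.e (nat_lit 573493) (nat_lit 15) (.e (nat_lit 81953) (nat_lit 22) (.e (nat_lit 90174) (nat_lit 14) .nil))))) .nil)) 
(.lf (nat_lit 94335) (.g (nat_lit 5484) (.e (nat_lit 2610) (nat_lit 163) (.e (nat_lit 164238) (nat_lit 187) (.e (nat_lit 1253) (nat_lit 92) (.e (nat_lit 98373) (nat_lit 29) (.e (nat_lit 450588) (nat_lit 10) (.e (nat_lit 573474) (nat_lit 12) (.e (nat_lit 57348) (nat_lit 0) (.e (nat_lit 6923) (nat_lit 371) .nil)))))))) (.g (nat_lit 7) .nil .nil)))))))))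

noncomputable def tv1296 : DT := (.nd (nat_lit 0) (.nd (nat_lit 1) (.nd (nat_lit 2) (.nd (nat_lit 3) (.nd (nat_lit 4) (.nd (nat_lit 5) 
(.lf (nat_lit 94336) (.g (nat_lit 3105) (.e (nat_lit 2610) (nat_lit 163) (.e (nat_lit 164238) (nat_lit 187) (.e (nat_lit 1659) (nat_lit 115) (.e (nat_lit 393301) (nat_lit 27) (.e (nat_lit 491558) (nat_lit 10) (.e (nat_lit 344088) (nat_lit 18) (.e (nat_lit 6923) (nat_lit 371) .nil))))))) (.g (nat_lit 5) .nil .nil))) 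
(.lf (nat_lit 94368) (.g (nat_lit 3678) (.e (nat_lit 2610) (nat_lit 163) (.e (nat_lit 164326) (nat_lit 230) (.e (nat_lit 163884) (nat_lit 5) (.e (nat_lit 229120) (nat_lit 12) (.e (nat_lit 344129) (nat_lit 26) (.e (nat_lit 557103) (nat_lit 14) (.e (nat_lit 180263) (nat_lit 21) (.e (nat_lit 663578) (nat_lit 9) .nil)))))))) (.g (nat_lit 6) .nil .nil)))) (.nd (nat_lit 5) 
(.lf (nat_lit 94352) (.g (nat_lit 3194) (.e (nat_lit 2610) (nat_lit 163) (.e (nat_lit 164239) (nat_lit 187) (.e (nat_lit 1659) (nat_lit 115) (.e (nat_lit 393301) (nat_lit 27) (.e (nat_lit 491558) (nat_lit 10) (.e (nat_lit 344096) (nat_lit 18) (.e (nat_lit 6923) (nat_lit 371) .nil))))))) (.g (nat_lit 5) .nil .nil))) 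
(.lf (nat_lit 94384) (.g (nat_lit 2608) (.e (nat_lit 2610) (nat_lit 163) (.e (nat_lit 164326) (nat_lit 230) (.e (nat_lit 163886) (nat_lit 5) (.e (nat_lit 229120) (nat_lit 12) (.e (nat_lit 344130) (nat_lit 26) (.e (nat_lit 557103) (nat_lit 14) (.e (nat_lit 180263) (nat_lit 21) (.e (nat_lit 663579) (nat_lit 9) .nil)))))))) (.g (nat_lit 6) .nil .nil))))) (.nd (nat_lit 4) (.nd (nat_lit 5) 
(.lf (nat_lit 94344) (.g (nat_lit 4064) (.e (nat_lit 2610) (nat_lit 163) (.e (nat_lit 164238) (nat_lit 187) (.e (nat_lit 1659) (nat_lit 115) (.e (nat_lit 393301) (nat_lit 27) (.e (nat_lit 491560) (nat_lit 10) (.e (nat_lit 344094) (nat_lit 18) (.e (nat_lit 6923) (nat_lit 371) .nil))))))) (.g (nat_lit 6) .nil .nil))) 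
(.lf (nat_lit 94376) (.g (nat_lit 2913) (.e (nat_lit 2610) (nat_lit 163) (.e (nat_lit 164326) (nat_lit 230) (.e (nat_lit 163884) (nat_lit 5) (.e (nat_lit 229120) (nat_lit 12) (.e (nat_lit 344130) (nat_lit 26) (.e (nat_lit 557103) (nat_lit 14) (.e (nat_lit 180263) (nat_lit 21) (.e (nat_lit 663580) (nat_lit 9) .nil)))))))) (.g (nat_lit 6) .nil .nil)))) (.nd (nat_lit 5) 
(.lf (nat_lit 94360) (.g (nat_lit 4259) (.e (nat_lit 2610) (nat_lit 163) (.e (nat_lit 164239) (nat_lit 187) (.e (nat_lit 1659) (nat_lit 115) (.e (nat_lit 393301) (nat_lit 27) (.e (nat_lit 491560) (nat_lit 10) (.e (nat_lit 344096) (nat_lit 18) (.e (nat_lit 6923) (nat_lit 371) .nil))))))) (.g (nat_lit 6) .nil .nil))) 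
(.lf (nat_lit 94392) (.g (nat_lit 2363) (.e (nat_lit 2610) (nat_lit 163) (.e (nat_lit 164396) (nat_lit 256) (.e (nat_lit 57375) (nat_lit 2) (.e (nat_lit 90174) (nat_lit 14) (.e (nat_lit 180243) (nat_lit 5) (.e (nat_lit 532515) (nat_lit 3) (.e (nat_lit 114716) (nat_lit 22) (.e (nat_lit 90140) (nat_lit 9) .nil)))))))) (.g (nat_lit 4) .nil .nil)))))) 
(.nd (nat_lit 3) (.nd (nat_lit 4) (.nd (nat_lit 5) 
(.lf (nat_lit 94340) (.g (nat_lit 2934) (.e (nat_lit 2610) (nat_lit 163) (.e (nat_lit 164238) (nat_lit 187) (.e (nat_lit 1659) (nat_lit 115) (.e (nat_lit 393301) (nat_lit 27) (.e (nat_lit 491558) (nat_lit 10) (.e (nat_lit 344096) (nat_lit 18) (.e (nat_lit 6923) (nat_lit 371) .nil))))))) (.g (nat_lit 5) .nil .nil))) 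
(.lf (nat_lit 94372) (.g (nat_lit 3290) (.e (nat_lit 2610) (nat_lit 163) (.e (nat_lit 164326) (nat_lit 230) (.e (nat_lit 163884) (nat_lit 5) (.e (nat_lit 229120) (nat_lit 12) (.e (nat_lit 344129) (nat_lit 26) (.e (nat_lit 557104) (nat_lit 14) (.e (nat_lit 180265) (nat_lit 21) (.e (nat_lit 663579) (nat_lit 9) .nil)))))))) (.g (nat_lit 6) .nil .nil)))) (.nd (nat_lit 5) 
(.lf (nat_lit 94356) (.g (nat_lit 4300) (.e (nat_lit 2610) (nat_lit 163) (.e (nat_lit 164239) (nat_lit 187) (.e (nat_lit 1659) (nat_lit 115) (.e (nat_lit 393301) (nat_lit 27) (.e (nat_lit 491560) (nat_lit 10) (.e (nat_lit 344088) (nat_lit 18) (.e (nat_lit 6916) (nat_lit 371) .nil))))))) (.g (nat_lit 6) .nil .nil))) 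
(.lf (nat_lit 94388) (.g (nat_lit 2579) (.e (nat_lit 2610) (nat_lit 163) (.e (nat_lit 164396) (nat_lit 256) (.e (nat_lit 57371) (nat_lit 2) (.e (nat_lit 90172) (nat_lit 14) (.e (nat_lit 180243) (nat_lit 5) (.e (nat_lit 532515) (nat_lit 3) (.e (nat_lit 114716) (nat_lit 22) (.e (nat_lit 90140) (nat_lit 9) .nil)))))))) (.g (nat_lit 4) .nil .nil))))) (.nd (nat_lit 4) (.nd (nat_lit 5) 
(.lf (nat_lit 94348) (.g (nat_lit 5425) (.e (nat_lit 2610) (nat_lit 163) (.e (nat_lit 164239) (nat_lit 187) (.e (nat_lit 1253) (nat_lit 92) (.e (nat_lit 98373) (nat_lit 29) (.e (nat_lit 450588) (nat_lit 10) (.e (nat_lit 573474) (nat_lit 12) (.e (nat_lit 57348) (nat_lit 0) (.e (nat_lit 6923) (nat_lit 371) .nil)))))))) (.g (nat_lit 7) .nil .nil))) 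
(.lf (nat_lit 94380) (.g (nat_lit 3051) (.e (nat_lit 2610) (nat_lit 163) (.e (nat_lit 164326) (nat_lit 230) (.e (nat_lit 163884) (nat_lit 5) (.e (nat_lit 229120) (nat_lit 12) (.e (nat_lit 344133) (nat_lit 26) (.e (nat_lit 557105) (nat_lit 14) (.e (nat_lit 180264) (nat_lit 21) (.e (nat_lit 663578) (nat_lit 9) .nil)))))))) (.g (nat_lit 6) .nil .nil)))) (.nd (nat_lit 5) 
(.lf (nat_lit 94364) (.g (nat_lit 2773) (.e (nat_lit 2610) (nat_lit 163) (.e (nat_lit 164326) (nat_lit 230) (.e (nat_lit 163884) (nat_lit 5) (.e (nat_lit 229120) (nat_lit 12) (.e (nat_lit 344117) (nat_lit 21) (.e (nat_lit 516129) (nat_lit 3) (.e (nat_lit 221217) (nat_lit 24) (.e (nat_lit 213013) (nat_lit 9) .nil)))))))) (.g (nat_lit 6) .nil .nil))) 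
(.lf (nat_lit 94396) (.g (nat_lit 2423) (.e (nat_lit 2610) (nat_lit 163) (.e (nat_lit 164401) (nat_lit 256) (.e (nat_lit 57378) (nat_lit 3) (.e (nat_lit 98377) (nat_lit 30) (.e (nat_lit 458789) (nat_lit 23) (.e (nat_lit 532515) (nat_lit 3) (.e (nat_lit 114716) (nat_lit 22) (.e (nat_lit 90140) (nat_lit 9) .nil)))))))) (.g (nat_lit 4) .nil .nil))))))) 
(.nd (nat_lit 2) (.nd (nat_lit 3) (.nd (nat_lit 4) (.nd (nat_lit 5) 
(.lf (nat_lit 94338) (.g (nat_lit 4884) (.e (nat_lit 2610) (nat_lit 163) (.e (nat_lit 164238) (nat_lit 187) (.e (nat_lit 1659) (nat_lit 115) (.e (nat_lit 393301) (nat_lit 27) (.e (nat_lit 491558) (nat_lit 10) (.e (nat_lit 344091) (nat_lit 18) (.e (nat_lit 6923) (nat_lit 371) .nil))))))) (.g (nat_lit 0) .nil .nil))) 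
(.lf (nat_lit 94370) (.g (nat_lit 3245) (.e (nat_lit 2610) (nat_lit 163) (.e (nat_lit 164326) (nat_lit 230) (.e (nat_lit 163884) (nat_lit 5) (.e (nat_lit 229120) (nat_lit 12) (.e (nat_lit 344129) (nat_lit 26) (.e (nat_lit 557104) (nat_lit 14) (.e (nat_lit 180264) (nat_lit 21) (.e (nat_lit 663578) (nat_lit 9) .nil)))))))) (.g (nat_lit 6) .nil .nil)))) (.nd (nat_lit 5) 
(.lf (nat_lit 94354) (.g (nat_lit 3752) (.e (nat_lit 2610) (nat_lit 163) (.e (nat_lit 164239) (nat_lit 187) (.e (nat_lit 1659) (nat_lit 115) (.e (nat_lit 393301) (nat_lit 27) (.e (nat_lit 491560) (nat_lit 10) (.e (nat_lit 344087) (nat_lit 18) (.e (nat_lit 6915) (nat_lit 371) .nil))))))) (.g (nat_lit 5) .nil .nil))) 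
(.lf (nat_lit 94386) (.g (nat_lit 1381) (.e (nat_lit 2610) (nat_lit 163) (.e (nat_lit 164332) (nat_lit 230) (.e (nat_lit 163885) (nat_lit 5) (.e (nat_lit 229120) (nat_lit 12) .nil)))) .nil)))) (.nd (nat_lit 4) (.nd (nat_lit 5) 
(.lf (nat_lit 94346) (.g (nat_lit 2993) (.e (nat_lit 2610) (nat_lit 163) (.e (nat_lit 164239) (nat_lit 187) (.e (nat_lit 1253) (nat_lit 92) (.e (nat_lit 98373) (nat_lit 29) (.e (nat_lit 450587) (nat_lit 10) (.e (nat_lit 573473) (nat_lit 12) (.e (nat_lit 57348) (nat_lit 0) (.e (nat_lit 6923) (nat_lit 371) .nil)))))))) (.g (nat_lit 5) .nil .nil))) 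
(.lf (nat_lit 94378) (.g (nat_lit 2402) (.e (nat_lit 2610) (nat_lit 163) (.e (nat_lit 164326) (nat_lit 230) (.e (nat_lit 163884) (nat_lit 5) (.e (nat_lit 229120) (nat_lit 12) (.e (nat_lit 344130) (nat_lit 26) (.e (nat_lit 557104) (nat_lit 14) (.e (nat_lit 180265) (nat_lit 21) (.e (nat_lit 663579) (nat_lit 9) .nil)))))))) (.g (nat_lit 6) .nil .nil)))) (.nd (nat_lit 5) 
(.lf (nat_lit 94362) (.g (nat_lit 1449) (.e (nat_lit 2610) (nat_lit 163) (.e (nat_lit 164326) (nat_lit 230) (.e (nat_lit 163864) (nat_lit 1) (.e (nat_lit 164329) (nat_lit 230) (.e (nat_lit 163843) (nat_lit 0) (.e (nat_lit 7936) (nat_lit 195) (.e (nat_lit 516151) (nat_lit 9) (.e (nat_lit 426211) (nat_lit 9) (.e (nat_lit 426125) (nat_lit 2) (.e (nat_lit 204544) (nat_lit 0) .nil)))))))))) (.g (nat_lit 4) .nil .nil))) 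
(.lf (nat_lit 94394) (.g (nat_lit 1966) (.e (nat_lit 2610) (nat_lit 163) (.e (nat_lit 164401) (nat_lit 256) (.e (nat_lit 57373) (nat_lit 2) (.e (nat_lit 90172) (nat_lit 14) (.e (nat_lit 180244) (nat_lit 5) (.e (nat_lit 532515) (nat_lit 3) (.e (nat_lit 114716) (nat_lit 22) (.e (nat_lit 90121) (nat_lit 9) .nil)))))))) (.g (nat_lit 4) .nil .nil)))))) 
(.nd (nat_lit 3) (.nd (nat_lit 4) (.nd (nat_lit 5) 
(.lf (nat_lit 94342) (.g (nat_lit 4055) (.e (nat_lit 2610) (nat_lit 163) (.e (nat_lit 164238) (nat_lit 187) (.e (nat_lit 1659) (nat_lit 115) (.e (nat_lit 393301) (nat_lit 27) (.e (nat_lit 491560) (nat_lit 10) (.e (nat_lit 344089) (nat_lit 18) (.e (nat_lit 6916) (nat_lit 371) .nil))))))) (.g (nat_lit 5) .nil .nil))) 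
(.lf (nat_lit 94374) (.g (nat_lit 3067) (.e (nat_lit 2610) (nat_lit 163) (.e (nat_lit 164326) (nat_lit 230) (.e (nat_lit 163884) (nat_lit 5) (.e (nat_lit 229120) (nat_lit 12) (.e (nat_lit 344130) (nat_lit 26) (.e (nat_lit 557103) (nat_lit 14) (.e (nat_lit 180263) (nat_lit 21) (.e (nat_lit 663578) (nat_lit 9) .nil)))))))) (.g (nat_lit 6) .nil .nil)))) (.nd (nat_lit 5) 
(.lf (nat_lit 94358) (.g (nat_lit 4103) (.e (nat_lit 2610) (nat_lit 163) (.e (nat_lit 164239) (nat_lit 187) (.e (nat_lit 1659) (nat_lit 115) (.e (nat_lit 393301) (nat_lit 27) (.e (nat_lit 491560) (nat_lit 10) (.e (nat_lit 344089) (nat_lit 18) (.e (nat_lit 6920) (nat_lit 371) .nil))))))) (.g (nat_lit 5) .nil .nil))) 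
(.lf (nat_lit 94390) (.g (nat_lit 2633) (.e (nat_lit 2610) (nat_lit 163) (.e (nat_lit 164396) (nat_lit 256) (.e (nat_lit 57372) (nat_lit 2) (.e (nat_lit 90172) (nat_lit 14) (.e (nat_lit 180244) (nat_lit 5) (.e (nat_lit 532515) (nat_lit 3) (.e (nat_lit 114716) (nat_lit 22) (.e (nat_lit 90140) (nat_lit 9) .nil)))))))) (.g (nat_lit 5) .nil .nil))))) (.nd (nat_lit 4) (.nd (nat_lit 5) 
(.lf (nat_lit 94350) (.g (nat_lit 3123) (.e (nat_lit 2610) (nat_lit 163) (.e (nat_lit 164239) (nat_lit 187) (.e (nat_lit 1658) (nat_lit 115) (.e (nat_lit 393301) (nat_lit 27) (.e (nat_lit 491559) (nat_lit 10) (.e (nat_lit 344091) (nat_lit 18) (.e (nat_lit 6923) (nat_lit 371) .nil))))))) (.g (nat_lit 5) .nil .nil))) 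
(.lf (nat_lit 94382) (.g (nat_lit 2315) (.e (nat_lit 2610) (nat_lit 163) (.e (nat_lit 164326) (nat_lit 230) (.e (nat_lit 163886) (nat_lit 5) (.e (nat_lit 229120) (nat_lit 12) (.e (nat_lit 344117) (nat_lit 21) (.e (nat_lit 516129) (nat_lit 3) (.e (nat_lit 221217) (nat_lit 24) (.e (nat_lit 213013) (nat_lit 9) .nil)))))))) (.g (nat_lit 5) .nil .nil)))) (.nd (nat_lit 5) 
(.lf (nat_lit 94366) (.g (nat_lit 2409) (.e (nat_lit 2610) (nat_lit 163) (.e (nat_lit 164326) (nat_lit 230) (.e (nat_lit 163884) (nat_lit 5) (.e (nat_lit 229120) (nat_lit 12) (.e (nat_lit 344117) (nat_lit 21) (.e (nat_lit 516130) (nat_lit 3) (.e (nat_lit 221219) (nat_lit 24) (.e (nat_lit 213013) (nat_lit 9) .nil)))))))) (.g (nat_lit 5) .nil .nil))) 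
(.lf (nat_lit 94398) (.g (nat_lit 1917) (.e (nat_lit 2610) (nat_lit 163) (.e (nat_lit 164402) (nat_lit 256) (.e (nat_lit 57371) (nat_lit 2) (.e (nat_lit 90172) (nat_lit 14) (.e (nat_lit 180244) (nat_lit 5) .nil))))) .nil))))))) (.nd (nat_lit 1) (.nd (nat_lit 2) (.nd (nat_lit 3) (.nd (nat_lit 4) (.nd (nat_lit 5) 
(.lf (nat_lit 94337) (.g (nat_lit 3507) (.e (nat_lit 2610) (nat_lit 163) (.e (nat_lit 164238) (nat_lit 187) (.e (nat_lit 1659) (nat_lit 115) (.e (nat_lit 393301) (nat_lit 27) (.e (nat_lit 491558) (nat_lit 10) (.e (nat_lit 344090) (nat_lit 18) (.e (nat_lit 6923) (nat_lit 371) .nil))))))) (.g (nat_lit 6) .nil .nil))) 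
(.lf (nat_lit 94369) (.g (nat_lit 3704) (.e (nat_lit 2610) (nat_lit 163) (.e (nat_lit 164326) (nat_lit 230) (.e (nat_lit 163884) (nat_lit 5) (.e (nat_lit 229120) (nat_lit 12) (.e (nat_lit 344129) (nat_lit 26) (.e (nat_lit 557103) (nat_lit 14) (.e (nat_lit 180263) (nat_lit 21) (.e (nat_lit 663579) (nat_lit 9) .nil)))))))) (.g (nat_lit 6) .nil .nil)))) (.nd (nat_lit 5) 
(.lf (nat_lit 94353) (.g (nat_lit 3444) (.e (nat_lit 2610) (nat_lit 163) (.e (nat_lit 164239) (nat_lit 187) (.e (nat_lit 1659) (nat_lit 115) (.e (nat_lit 393301) (nat_lit 27) (.e (nat_lit 491559) (nat_lit 10) (.e (nat_lit 344090) (nat_lit 18) (.e (nat_lit 6923) (nat_lit 371) .nil))))))) (.g (nat_lit 5) .nil .nil))) 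
(.lf (nat_lit 94385) (.g (nat_lit 4208) (.e (nat_lit 2610) (nat_lit 163) (.e (nat_lit 164326) (nat_lit 230) (.e (nat_lit 163886) (nat_lit 5) (.e (nat_lit 229120) (nat_lit 12) (.e (nat_lit 344133) (nat_lit 26) (.e (nat_lit 557105) (nat_lit 14) (.e (nat_lit 180265) (nat_lit 21) (.e (nat_lit 663578) (nat_lit 9) .nil)))))))) (.g (nat_lit 7) .nil .nil))))) (.nd (nat_lit 4) (.nd (nat_lit 5) 
(.lf (nat_lit 94345) (.g (nat_lit 4054) (.e (nat_lit 2610) (nat_lit 163) (.e (nat_lit 164238) (nat_lit 187) (.e (nat_lit 1659) (nat_lit 115) (.e (nat_lit 393301) (nat_lit 27) (.e (nat_lit 491560) (nat_lit 10) (.e (nat_lit 344096) (nat_lit 18) (.e (nat_lit 6923) (nat_lit 371) .nil))))))) (.g (nat_lit 5) .nil .nil))) 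
(.lf (nat_lit 94377) (.g (nat_lit 2650) (.e (nat_lit 2610) (nat_lit 163) (.e (nat_lit 164326) (nat_lit 230) (.e (nat_lit 163884) (nat_lit 5) (.e (nat_lit 229120) (nat_lit 12) (.e (nat_lit 344130) (nat_lit 26) (.e (nat_lit 557104) (nat_lit 14) (.e (nat_lit 180264) (nat_lit 21) (.e (nat_lit 663578) (nat_lit 9) .nil)))))))) (.g (nat_lit 6) .nil .nil)))) (.nd (nat_lit 5) 
(.lf (nat_lit 94361) (.g (nat_lit 1449) (.e (nat_lit 2610) (nat_lit 163) (.e (nat_lit 164326) (nat_lit 230) (.e (nat_lit 163861) (nat_lit 1) (.e (nat_lit 164329) (nat_lit 230) (.e (nat_lit 163843) (nat_lit 0) (.e (nat_lit 7936) (nat_lit 195) (.e (nat_lit 516151) (nat_lit 9) (.e (nat_lit 426211) (nat_lit 9) (.e (nat_lit 426125) (nat_lit 2) (.e (nat_lit 204544) (nat_lit 0) .nil)))))))))) (.g (nat_lit 4) .nil .nil))) 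
(.lf (nat_lit 94393) (.g (nat_lit 2221) (.e (nat_lit 2610) (nat_lit 163) (.e (nat_lit 164401) (nat_lit 256) (.e (nat_lit 57373) (nat_lit 2) (.e (nat_lit 90172) (nat_lit 14) (.e (nat_lit 180243) (nat_lit 5) .nil))))) .nil))))) (.nd (nat_lit 3) (.nd (nat_lit 4) (.nd (nat_lit 5) 
(.lf (nat_lit 94341) (.g (nat_lit 5197) (.e (nat_lit 2610) (nat_lit 163) (.e (nat_lit 164238) (nat_lit 187) (.e (nat_lit 1659) (nat_lit 115) (.e (nat_lit 393301) (nat_lit 27) (.e (nat_lit 491559) (nat_lit 10) (.e (nat_lit 344091) (nat_lit 18) (.e (nat_lit 6923) (nat_lit 371) .nil))))))) (.g (nat_lit 0) .nil .nil))) 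
(.lf (nat_lit 94373) (.g (nat_lit 3664) (.e (nat_lit 2610) (nat_lit 163) (.e (nat_lit 164326) (nat_lit 230) (.e (nat_lit 163884) (nat_lit 5) (.e (nat_lit 229120) (nat_lit 12) (.e (nat_lit 344129) (nat_lit 26) (.e (nat_lit 557104) (nat_lit 14) (.e (nat_lit 180265) (nat_lit 21) (.e (nat_lit 663580) (nat_lit 9) .nil)))))))) (.g (nat_lit 6) .nil .nil)))) (.nd (nat_lit 5) 
(.lf (nat_lit 94357) (.g (nat_lit 4621) (.e (nat_lit 2610) (nat_lit 163) (.e (nat_lit 164239) (nat_lit 187) (.e (nat_lit 1659) (nat_lit 115) (.e (nat_lit 393301) (nat_lit 27) (.e (nat_lit 491560) (nat_lit 10) (.e (nat_lit 344089) (nat_lit 18) (.e (nat_lit 6916) (nat_lit 371) .nil))))))) (.g (nat_lit 6) .nil .nil))) 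
(.lf (nat_lit 94389) (.g (nat_lit 2170) (.e (nat_lit 2610) (nat_lit 163) (.e (nat_lit 164396) (nat_lit 256) (.e (nat_lit 57371) (nat_lit 2) (.e (nat_lit 90172) (nat_lit 14) (.e (nat_lit 180244) (nat_lit 5) (.e (nat_lit 532515) (nat_lit 3) (.e (nat_lit 114716) (nat_lit 22) (.e (nat_lit 90121) (nat_lit 9) .nil)))))))) (.g (nat_lit 4) .nil .nil))))) (.nd (nat_lit 4) (.nd (nat_lit 5) 
(.lf (nat_lit 94349) (.g (nat_lit 2834) (.e (nat_lit 2610) (nat_lit 163) (.e (nat_lit 164239) (nat_lit 187) (.e (nat_lit 1658) (nat_lit 115) (.e (nat_lit 393301) (nat_lit 27) (.e (nat_lit 491558) (nat_lit 10) (.e (nat_lit 344091) (nat_lit 18) (.e (nat_lit 6923) (nat_lit 371) .nil))))))) (.g (nat_lit 5) .nil .nil))) 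
(.lf (nat_lit 94381) (.g (nat_lit 820) (.e (nat_lit 2610) (nat_lit 163) (.e (nat_lit 164326) (nat_lit 230) (.e (nat_lit 163886) (nat_lit 5) (.e (nat_lit 229120) (nat_lit 12) .nil)))) .nil))) (.nd (nat_lit 5) 
(.lf (nat_lit 94365) (.g (nat_lit 2397) (.e (nat_lit 2610) (nat_lit 163) (.e (nat_lit 164326) (nat_lit 230) (.e (nat_lit 163884) (nat_lit 5) (.e (nat_lit 229120) (nat_lit 12) (.e (nat_lit 344117) (nat_lit 21) (.e (nat_lit 516129) (nat_lit 3) (.e (nat_lit 221217) (nat_lit 24) (.e (nat_lit 213022) (nat_lit 9) .nil)))))))) (.g (nat_lit 5) .nil .nil))) 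
(.lf (nat_lit 94397) (.g (nat_lit 3117) (.e (nat_lit 2610) (nat_lit 163) (.e (nat_lit 164402) (nat_lit 256) (.e (nat_lit 57371) (nat_lit 2) (.e (nat_lit 90172) (nat_lit 14) (.e (nat_lit 180243) (nat_lit 5) (.e (nat_lit 532515) (nat_lit 3) (.e (nat_lit 114716) (nat_lit 22) (.e (nat_lit 90140) (nat_lit 9) .nil)))))))) (.g (nat_lit 5) .nil .nil))))))) 
(.nd (nat_lit 2) (.nd (nat_lit 3) (.nd (nat_lit 4) (.nd (nat_lit 5) 
(.lf (nat_lit 94339) (.g (nat_lit 2246) (.e (nat_lit 2610) (nat_lit 163) (.e (nat_lit 164238) (nat_lit 187) (.e (nat_lit 1659) (nat_lit 115) (.e (nat_lit 393301) (nat_lit 27) (.e (nat_lit 491558) (nat_lit 10) (.e (nat_lit 344095) (nat_lit 18) (.e (nat_lit 6923) (nat_lit 371) .nil))))))) (.g (nat_lit 4) .nil .nil))) 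
(.lf (nat_lit 94371) (.g (nat_lit 3079) (.e (nat_lit 2610) (nat_lit 163) (.e (nat_lit 164326) (nat_lit 230) (.e (nat_lit 163884) (nat_lit 5) (.e (nat_lit 229120) (nat_lit 12) (.e (nat_lit 344129) (nat_lit 26) (.e (nat_lit 557104) (nat_lit 14) (.e (nat_lit 180265) (nat_lit 21) (.e (nat_lit 663578) (nat_lit 9) .nil)))))))) (.g (nat_lit 6) .nil .nil)))) (.nd (nat_lit 5) 
(.lf (nat_lit 94355) (.g (nat_lit 3543) (.e (nat_lit 2610) (nat_lit 163) (.e (nat_lit 164239) (nat_lit 187) (.e (nat_lit 1659) (nat_lit 115) (.e (nat_lit 393301) (nat_lit 27) (.e (nat_lit 491560) (nat_lit 10) (.e (nat_lit 344087) (nat_lit 18) (.e (nat_lit 6916) (nat_lit 371) .nil))))))) (.g (nat_lit 5) .nil .nil))) 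
(.lf (nat_lit 94387) (.g (nat_lit 2601) (.e (nat_lit 2610) (nat_lit 163) (.e (nat_lit 164332) (nat_lit 230) (.e (nat_lit 163885) (nat_lit 5) (.e (nat_lit 229120) (nat_lit 12) (.e (nat_lit 344117) (nat_lit 21) (.e (nat_lit 516130) (nat_lit 3) (.e (nat_lit 221219) (nat_lit 24) (.e (nat_lit 213019) (nat_lit 9) .nil)))))))) (.g (nat_lit 5) .nil .nil))))) (.nd (nat_lit 4) (.nd (nat_lit 5) 
(.lf (nat_lit 94347) (.g (nat_lit 3035) (.e (nat_lit 2610) (nat_lit 163) (.e (nat_lit 164239) (nat_lit 187) (.e (nat_lit 1253) (nat_lit 92) (.e (nat_lit 98373) (nat_lit 29) (.e (nat_lit 450587) (nat_lit 10) (.e (nat_lit 573475) (nat_lit 12) (.e (nat_lit 57346) (nat_lit 0) (.e (nat_lit 6916) (nat_lit 371) .nil)))))))) (.g (nat_lit 5) .nil .nil))) 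
(.lf (nat_lit 94379) (.g (nat_lit 2377) (.e (nat_lit 2610) (nat_lit 163) (.e (nat_lit 164326) (nat_lit 230) (.e (nat_lit 163884) (nat_lit 5) (.e (nat_lit 229120) (nat_lit 12) (.e (nat_lit 344133) (nat_lit 26) (.e (nat_lit 557103) (nat_lit 14) (.e (nat_lit 180263) (nat_lit 21) (.e (nat_lit 663579) (nat_lit 9) .nil)))))))) (.g (nat_lit 6) .nil .nil)))) (.nd (nat_lit 5) 
(.lf (nat_lit 94363) (.g (nat_lit 910) (.e (nat_lit 2610) (nat_lit 163) (.e (nat_lit 164326) (nat_lit 230) (.e (nat_lit 163884) (nat_lit 5) (.e (nat_lit 229120) (nat_lit 12) .nil)))) .nil)) 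
(.lf (nat_lit 94395) (.g (nat_lit 3371) (.e (nat_lit 2610) (nat_lit 163) (.e (nat_lit 164401) (nat_lit 256) (.e (nat_lit 57373) (nat_lit 2) (.e (nat_lit 90172) (nat_lit 14) (.e (nat_lit 180244) (nat_lit 5) (.e (nat_lit 532515) (nat_lit 3) (.e (nat_lit 114716) (nat_lit 22) (.e (nat_lit 90140) (nat_lit 9) .nil)))))))) (.g (nat_lit 6) .nil .nil)))))) 
(.nd (nat_lit 3) (.nd (nat_lit 4) (.nd (nat_lit 5) 
(.lf (nat_lit 94343) (.g (nat_lit 5111) (.e (nat_lit 2610) (nat_lit 163) (.e (nat_lit 164238) (nat_lit 187) (.e (nat_lit 1659) (nat_lit 115) (.e (nat_lit 393301) (nat_lit 27) (.e (nat_lit 491560) (nat_lit 10) (.e (nat_lit 344091) (nat_lit 18) (.e (nat_lit 6923) (nat_lit 371) .nil))))))) (.g (nat_lit 0) .nil .nil))) 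
(.lf (nat_lit 94375) (.g (nat_lit 3093) (.e (nat_lit 2610) (nat_lit 163) (.e (nat_lit 164326) (nat_lit 230) (.e (nat_lit 163884) (nat_lit 5) (.e (nat_lit 229120) (nat_lit 12) (.e (nat_lit 344130) (nat_lit 26) (.e (nat_lit 557103) (nat_lit 14) (.e (nat_lit 180263) (nat_lit 21) (.e (nat_lit 663579) (nat_lit 9) .nil)))))))) (.g (nat_lit 6) .nil .nil)))) (.nd (nat_lit 5) 
(.lf (nat_lit 94359) (.g (nat_lit 3630) (.e (nat_lit 2610) (nat_lit 163) (.e (nat_lit 164239) (nat_lit 187) (.e (nat_lit 1659) (nat_lit 115) (.e (nat_lit 393301) (nat_lit 27) (.e (nat_lit 491560) (nat_lit 10) (.e (nat_lit 344095) (nat_lit 18) (.e (nat_lit 6923) (nat_lit 371) .nil))))))) (.g (nat_lit 5) .nil .nil))) 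
(.lf (nat_lit 94391) (.g (nat_lit 2714) (.e (nat_lit 2610) (nat_lit 163) (.e (nat_lit 164396) (nat_lit 256) (.e (nat_lit 57375) (nat_lit 2) (.e (nat_lit 90172) (nat_lit 14) (.e (nat_lit 180244) (nat_lit 5) (.e (nat_lit 532515) (nat_lit 3) (.e (nat_lit 114716) (nat_lit 22) (.e (nat_lit 90140) (nat_lit 9) .nil)))))))) (.g (nat_lit 5) .nil .nil))))) (.nd (nat_lit 4) (.nd (nat_lit 5) 
(.lf (nat_lit 94351) (.g (nat_lit 3365) (.e (nat_lit 2610) (nat_lit 163) (.e (nat_lit 164239) (nat_lit 187) (.e (nat_lit 1659) (nat_lit 115) (.e (nat_lit 393301) (nat_lit 27) (.e (nat_lit 491558) (nat_lit 10) (.e (nat_lit 344088) (nat_lit 18) (.e (nat_lit 6923) (nat_lit 371) .nil))))))) (.g (nat_lit 5) .nil .nil))) 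
(.lf (nat_lit 94383) (.g (nat_lit 2563) (.e (nat_lit 2610) (nat_lit 163) (.e (nat_lit 164326) (nat_lit 230) (.e (nat_lit 163886) (nat_lit 5) (.e (nat_lit 229120) (nat_lit 12) (.e (nat_lit 344130) (nat_lit 26) (.e (nat_lit 557103) (nat_lit 14) (.e (nat_lit 180263) (nat_lit 21) (.e (nat_lit 663578) (nat_lit 9) .nil)))))))) (.g (nat_lit 6) .nil .nil)))) (.nd (nat_lit 5) 
(.lf (nat_lit 94367) (.g (nat_lit 2497) (.e (nat_lit 2610) (nat_lit 163) (.e (nat_lit 164326) (nat_lit 230) (.e (nat_lit 163884) (nat_lit 5) (.e (nat_lit 229120) (nat_lit 12) (.e (nat_lit 344117) (nat_lit 21) (.e (nat_lit 516130) (nat_lit 3) (.e (nat_lit 221219) (nat_lit 24) (.e (nat_lit 213022) (nat_lit 9) .nil)))))))) (.g (nat_lit 5) .nil .nil))) 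
(.lf (nat_lit 94399) (.g (nat_lit 2180) (.e (nat_lit 2610) (nat_lit 163) (.e (nat_lit 164402) (nat_lit 256) (.e (nat_lit 57371) (nat_lit 2) (.e (nat_lit 90172) (nat_lit 14) (.e (nat_lit 180244) (nat_lit 5) (.e (nat_lit 532513) (nat_lit 3) (.e (nat_lit 114714) (nat_lit 22) (.e (nat_lit 90140) (nat_lit 9) .nil)))))))) (.g (nat_lit 4) .nil .nil)))))))))

noncomputable def tv1297 : DT := (.nd (nat_lit 0) (.nd (nat_lit 1) (.nd (nat_lit 2) (.nd (nat_lit 3) (.nd (nat_lit 4) (.nd (nat_lit 5) 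
(.lf (nat_lit 94400) (.g (nat_lit 2721) (.e (nat_lit 2610) (nat_lit 163) (.e (nat_lit 164402) (nat_lit 256) (.e (nat_lit 57371) (nat_lit 2) (.e (nat_lit 90172) (nat_lit 14) (.e (nat_lit 180244) (nat_lit 5) (.e (nat_lit 532515) (nat_lit 3) (.e (nat_lit 114716) (nat_lit 22) (.e (nat_lit 90121) (nat_lit 9) .nil)))))))) (.g (nat_lit 4) .nil .nil))) 
(.lf (nat_lit 94432) (.g (nat_lit 2226) (.e (nat_lit 2611) (nat_lit 163) (.e (nat_lit 163979) (nat_lit 30) (.e (nat_lit 573449) (nat_lit 9) (.e (nat_lit 1615) (nat_lit 113) (.e (nat_lit 376865) (nat_lit 22) (.e (nat_lit 90185) (nat_lit 17) (.e (nat_lit 237584) (nat_lit 1) (.e (nat_lit 164347) (nat_lit 240) .nil)))))))) (.g (nat_lit 4) .nil .nil)))) (.nd (nat_lit 5) 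
(.lf (nat_lit 94416) (.g (nat_lit 2576) (.e (nat_lit 2610) (nat_lit 163) (.e (nat_lit 164403) (nat_lit 256) (.e (nat_lit 57373) (nat_lit 2) (.e (nat_lit 90172) (nat_lit 14) (.e (nat_lit 180244) (nat_lit 5) .nil))))) .nil)) 
(.lf (nat_lit 94448) (.g (nat_lit 4675) (.e (nat_lit 2611) (nat_lit 163) (.e (nat_lit 164238) (nat_lit 187) (.e (nat_lit 1659) (nat_lit 115) (.e (nat_lit 393301) (nat_lit 27) (.e (nat_lit 491558) (nat_lit 10) (.e (nat_lit 344091) (nat_lit 18) (.e (nat_lit 6923) (nat_lit 371) .nil))))))) (.g (nat_lit 0) .nil .nil))))) (.nd (nat_lit 4) (.nd (nat_lit 5) 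
(.lf (nat_lit 94408) (.g (nat_lit 2596) (.e (nat_lit 2610) (nat_lit 163) (.e (nat_lit 164403) (nat_lit 256) (.e (nat_lit 57371) (nat_lit 2) (.e (nat_lit 90172) (nat_lit 14) (.e (nat_lit 180243) (nat_lit 5) .nil))))) .nil)) 
(.lf (nat_lit 94440) (.g (nat_lit 1485) (.e (nat_lit 2611) (nat_lit 163) (.e (nat_lit 163979) (nat_lit 30) (.e (nat_lit 573452) (nat_lit 9) (.e (nat_lit 1625) (nat_lit 113) .nil)))) .nil))) (.nd (nat_lit 5) 
(.lf (nat_lit 94424) (.g (nat_lit 3312) (.e (nat_lit 2610) (nat_lit 163) (.e (nat_lit 164423) (nat_lit 272) (.e (nat_lit 1199) (nat_lit 88) (.e (nat_lit 65630) (nat_lit 14) (.e (nat_lit 401459) (nat_lit 13) (.e (nat_lit 483344) (nat_lit 17) (.e (nat_lit 6696) (nat_lit 357) .nil))))))) (.g (nat_lit 5) .nil .nil))) 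
(.lf (nat_lit 94456) (.g (nat_lit 3854) (.e (nat_lit 2611) (nat_lit 163) (.e (nat_lit 164238) (nat_lit 187) (.e (nat_lit 1659) (nat_lit 115) (.e (nat_lit 393301) (nat_lit 27) (.e (nat_lit 491560) (nat_lit 10) (.e (nat_lit 344094) (nat_lit 18) (.e (nat_lit 6923) (nat_lit 371) .nil))))))) (.g (nat_lit 5) .nil .nil)))))) (.nd (nat_lit 3) (.nd (nat_lit 4) (.nd (nat_lit 5) 
(.lf (nat_lit 94404) (.g (nat_lit 3886) (.e (nat_lit 2610) (nat_lit 163) (.e (nat_lit 164402) (nat_lit 256) (.e (nat_lit 57373) (nat_lit 2) (.e (nat_lit 90172) (nat_lit 14) (.e (nat_lit 180244) (nat_lit 5) (.e (nat_lit 532515) (nat_lit 3) (.e (nat_lit 114716) (nat_lit 22) (.e (nat_lit 90140) (nat_lit 9) .nil)))))))) (.g (nat_lit 7) .nil .nil))) 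
(.lf (nat_lit 94436) (.g (nat_lit 3894) (.e (nat_lit 2611) (nat_lit 163) (.e (nat_lit 163979) (nat_lit 30) (.e (nat_lit 573451) (nat_lit 9) (.e (nat_lit 1595) (nat_lit 111) (.e (nat_lit 360467) (nat_lit 3) (.e (nat_lit 516158) (nat_lit 9) (.e (nat_lit 426107) (nat_lit 1) (.e (nat_lit 164347) (nat_lit 240) .nil)))))))) (.g (nat_lit 6) .nil .nil)))) (.nd (nat_lit 5) 
(.lf (nat_lit 94420) (.g (nat_lit 4918) (.e (nat_lit 2610) (nat_lit 163) (.e (nat_lit 164403) (nat_lit 256) (.e (nat_lit 57373) (nat_lit 2) (.e (nat_lit 90172) (nat_lit 14) (.e (nat_lit 180244) (nat_lit 5) (.e (nat_lit 532515) (nat_lit 3) (.e (nat_lit 114716) (nat_lit 22) (.e (nat_lit 90140) (nat_lit 9) .nil)))))))) (.g (nat_lit 7) .nil .nil))) 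
(.lf (nat_lit 94452) (.g (nat_lit 4786) (.e (nat_lit 2611) (nat_lit 163) (.e (nat_lit 164238) (nat_lit 187) (.e (nat_lit 1659) (nat_lit 115) (.e (nat_lit 393301) (nat_lit 27) (.e (nat_lit 491560) (nat_lit 10) (.e (nat_lit 344088) (nat_lit 18) (.e (nat_lit 6923) (nat_lit 371) .nil))))))) (.g (nat_lit 6) .nil .nil))))) (.nd (nat_lit 4) (.nd (nat_lit 5) 
(.lf (nat_lit 94412) (.g (nat_lit 3025) (.e (nat_lit 2610) (nat_lit 163) (.e (nat_lit 164403) (nat_lit 256) (.e (nat_lit 57373) (nat_lit 2) (.e (nat_lit 90170) (nat_lit 13) (.e (nat_lit 172065) (nat_lit 3) (.e (nat_lit 204838) (nat_lit 20) (.e (nat_lit 114716) (nat_lit 22) (.e (nat_lit 90140) (nat_lit 9) .nil)))))))) (.g (nat_lit 4) .nil .nil))) 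
(.lf (nat_lit 94444) (.g (nat_lit 1535) (.e (nat_lit 2611) (nat_lit 163) (.e (nat_lit 164183) (nat_lit 154) (.e (nat_lit 57410) (nat_lit 12) (.e (nat_lit 336019) (nat_lit 3) (.e (nat_lit 98381) (nat_lit 31) (.e (nat_lit 466967) (nat_lit 20) (.e (nat_lit 3304) (nat_lit 202) (.e (nat_lit 581376) (nat_lit 0) .nil)))))))) (.g (nat_lit 4) .nil .nil)))) (.nd (nat_lit 5) 
(.lf (nat_lit 94428) (.g (nat_lit 2271) (.e (nat_lit 2611) (nat_lit 163) (.e (nat_lit 163978) (nat_lit 30) (.e (nat_lit 573479) (nat_lit 13) (.e (nat_lit 65619) (nat_lit 10) (.e (nat_lit 344117) (nat_lit 21) .nil))))) .nil)) 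
(.lf (nat_lit 94460) (.g (nat_lit 2709) (.e (nat_lit 2611) (nat_lit 163) (.e (nat_lit 164332) (nat_lit 230) (.e (nat_lit 163884) (nat_lit 5) (.e (nat_lit 229120) (nat_lit 12) (.e (nat_lit 344117) (nat_lit 21) (.e (nat_lit 516129) (nat_lit 3) (.e (nat_lit 221217) (nat_lit 24) (.e (nat_lit 213013) (nat_lit 9) .nil)))))))) (.g (nat_lit 6) .nil .nil))))))) 
(.nd (nat_lit 2) (.nd (nat_lit 3) (.nd (nat_lit 4) (.nd (nat_lit 5) 
(.lf (nat_lit 94402) (.g (nat_lit 2601) (.e (nat_lit 2610) (nat_lit 163) (.e (nat_lit 164402) (nat_lit 256) (.e (nat_lit 57373) (nat_lit 2) (.e (nat_lit 90172) (nat_lit 14) (.e (nat_lit 180243) (nat_lit 5) (.e (nat_lit 532515) (nat_lit 3) (.e (nat_lit 114716) (nat_lit 22) (.e (nat_lit 90140) (nat_lit 9) .nil)))))))) (.g (nat_lit 4) .nil .nil))) 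
(.lf (nat_lit 94434) (.g (nat_lit 2034) (.e (nat_lit 2611) (nat_lit 163) (.e (nat_lit 163979) (nat_lit 30) (.e (nat_lit 573449) (nat_lit 9) (.e (nat_lit 1615) (nat_lit 113) (.e (nat_lit 376865) (nat_lit 22) (.e (nat_lit 90185) (nat_lit 17) (.e (nat_lit 237585) (nat_lit 1) (.e (nat_lit 164345) (nat_lit 240) .nil)))))))) (.g (nat_lit 4) .nil .nil)))) (.nd (nat_lit 5) 
(.lf (nat_lit 94418) (.g (nat_lit 2830) (.e (nat_lit 2610) (nat_lit 163) (.e (nat_lit 164403) (nat_lit 256) (.e (nat_lit 57373) (nat_lit 2) (.e (nat_lit 90172) (nat_lit 14) (.e (nat_lit 180244) (nat_lit 5) (.e (nat_lit 532515) (nat_lit 3) (.e (nat_lit 114715) (nat_lit 22) (.e (nat_lit 90121) (nat_lit 9) .nil)))))))) (.g (nat_lit 4) .nil .nil))) 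
(.lf (nat_lit 94450) (.g (nat_lit 4992) (.e (nat_lit 2611) (nat_lit 163) (.e (nat_lit 164238) (nat_lit 187) (.e (nat_lit 1659) (nat_lit 115) (.e (nat_lit 393301) (nat_lit 27) (.e (nat_lit 491559) (nat_lit 10) (.e (nat_lit 344091) (nat_lit 18) (.e (nat_lit 6923) (nat_lit 371) .nil))))))) (.g (nat_lit 0) .nil .nil))))) (.nd (nat_lit 4) (.nd (nat_lit 5) 
(.lf (nat_lit 94410) (.g (nat_lit 2728) (.e (nat_lit 2610) (nat_lit 163) (.e (nat_lit 164403) (nat_lit 256) (.e (nat_lit 57371) (nat_lit 2) (.e (nat_lit 90172) (nat_lit 14) (.e (nat_lit 180244) (nat_lit 5) (.e (nat_lit 532515) (nat_lit 3) (.e (nat_lit 114716) (nat_lit 22) (.e (nat_lit 90121) (nat_lit 9) .nil)))))))) (.g (nat_lit 4) .nil .nil))) 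
(.lf (nat_lit 94442) (.g (nat_lit 2682) (.e (nat_lit 2611) (nat_lit 163) (.e (nat_lit 164022) (nat_lit 46) (.e (nat_lit 704738) (nat_lit 11) (.e (nat_lit 16425) (nat_lit 7) (.e (nat_lit 409649) (nat_lit 18) .nil))))) .nil))) (.nd (nat_lit 5) 
(.lf (nat_lit 94426) (.g (nat_lit 3595) (.e (nat_lit 2611) (nat_lit 163) (.e (nat_lit 163977) (nat_lit 30) (.e (nat_lit 573451) (nat_lit 9) (.e (nat_lit 1595) (nat_lit 111) (.e (nat_lit 360467) (nat_lit 3) (.e (nat_lit 516158) (nat_lit 9) (.e (nat_lit 426107) (nat_lit 1) (.e (nat_lit 164347) (nat_lit 240) .nil)))))))) (.g (nat_lit 6) .nil .nil))) 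
(.lf (nat_lit 94458) (.g (nat_lit 1630) (.e (nat_lit 2611) (nat_lit 163) (.e (nat_lit 164238) (nat_lit 187) (.e (nat_lit 1661) (nat_lit 115) (.e (nat_lit 393260) (nat_lit 21) (.e (nat_lit 409649) (nat_lit 18) .nil))))) .nil))))) (.nd (nat_lit 3) (.nd (nat_lit 4) (.nd (nat_lit 5) 
(.lf (nat_lit 94406) (.g (nat_lit 2309) (.e (nat_lit 2610) (nat_lit 163) (.e (nat_lit 164403) (nat_lit 256) (.e (nat_lit 57371) (nat_lit 2) (.e (nat_lit 90167) (nat_lit 13) (.e (nat_lit 172067) (nat_lit 3) (.e (nat_lit 204838) (nat_lit 20) (.e (nat_lit 114716) (nat_lit 22) (.e (nat_lit 90140) (nat_lit 9) .nil)))))))) (.g (nat_lit 4) .nil .nil))) 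
(.lf (nat_lit 94438) (.g (nat_lit 2711) (.e (nat_lit 2611) (nat_lit 163) (.e (nat_lit 163979) (nat_lit 30) (.e (nat_lit 573451) (nat_lit 9) (.e (nat_lit 1595) (nat_lit 111) (.e (nat_lit 360467) (nat_lit 3) (.e (nat_lit 516169) (nat_lit 13) (.e (nat_lit 458774) (nat_lit 18) (.e (nat_lit 5548) (nat_lit 306) .nil)))))))) (.g (nat_lit 4) .nil .nil)))) (.nd (nat_lit 5) 
(.lf (nat_lit 94422) (.g (nat_lit 2222) (.e (nat_lit 2610) (nat_lit 163) (.e (nat_lit 164403) (nat_lit 256) (.e (nat_lit 57378) (nat_lit 3) (.e (nat_lit 98368) (nat_lit 27) .nil)))) .nil)) 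
(.lf (nat_lit 94454) (.g (nat_lit 4628) (.e (nat_lit 2611) (nat_lit 163) (.e (nat_lit 164238) (nat_lit 187) (.e (nat_lit 1659) (nat_lit 115) (.e (nat_lit 393301) (nat_lit 27) (.e (nat_lit 491560) (nat_lit 10) (.e (nat_lit 344090) (nat_lit 18) (.e (nat_lit 6923) (nat_lit 371) .nil))))))) (.g (nat_lit 7) .nil .nil))))) (.nd (nat_lit 4) (.nd (nat_lit 5) 
(.lf (nat_lit 94414) (.g (nat_lit 3148) (.e (nat_lit 2610) (nat_lit 163) (.e (nat_lit 164403) (nat_lit 256) (.e (nat_lit 57373) (nat_lit 2) (.e (nat_lit 90172) (nat_lit 14) (.e (nat_lit 180243) (nat_lit 5) .nil))))) .nil)) 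
(.lf (nat_lit 94446) (.g (nat_lit 4976) (.e (nat_lit 2611) (nat_lit 163) (.e (nat_lit 164238) (nat_lit 187) (.e (nat_lit 1253) (nat_lit 92) (.e (nat_lit 98373) (nat_lit 29) (.e (nat_lit 450588) (nat_lit 10) (.e (nat_lit 573474) (nat_lit 12) (.e (nat_lit 57348) (nat_lit 0) (.e (nat_lit 6923) (nat_lit 371) .nil)))))))) (.g (nat_lit 6) .nil .nil)))) (.nd (nat_lit 5) 
(.lf (nat_lit 94430) (.g (nat_lit 2013) (.e (nat_lit 2611) (nat_lit 163) (.e (nat_lit 163979) (nat_lit 30) (.e (nat_lit 573449) (nat_lit 9) (.e (nat_lit 1615) (nat_lit 113) (.e (nat_lit 376865) (nat_lit 22) (.e (nat_lit 90185) (nat_lit 17) (.e (nat_lit 237582) (nat_lit 1) (.e (nat_lit 164345) (nat_lit 240) .nil)))))))) (.g (nat_lit 4) .nil .nil))) 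
(.lf (nat_lit 94462) (.g (nat_lit 3221) (.e (nat_lit 2611) (nat_lit 163) (.e (nat_lit 164332) (nat_lit 230) (.e (nat_lit 163884) (nat_lit 5) (.e (nat_lit 229120) (nat_lit 12) (.e (nat_lit 344129) (nat_lit 26) (.e (nat_lit 557104) (nat_lit 14) (.e (nat_lit 180264) (nat_lit 21) (.e (nat_lit 663580) (nat_lit 9) .nil)))))))) (.g (nat_lit 6) .nil .nil)))))))) 
(.nd (nat_lit 1) (.nd (nat_lit 2) (.nd (nat_lit 3) (.nd (nat_lit 4) (.nd (nat_lit 5) 
(.lf (nat_lit 94401) (.g (nat_lit 4126) (.e (nat_lit 2610) (nat_lit 163) (.e (nat_lit 164402) (nat_lit 256) (.e (nat_lit 57371) (nat_lit 2) (.e (nat_lit 90172) (nat_lit 14) (.e (nat_lit 180244) (nat_lit 5) (.e (nat_lit 532515) (nat_lit 3) (.e (nat_lit 114716) (nat_lit 22) (.e (nat_lit 90140) (nat_lit 9) .nil)))))))) (.g (nat_lit 7) .nil .nil))) 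
(.lf (nat_lit 94433) (.g (nat_lit 2129) (.e (nat_lit 2611) (nat_lit 163) (.e (nat_lit 163979) (nat_lit 30) (.e (nat_lit 573449) (nat_lit 9) (.e (nat_lit 1615) (nat_lit 113) (.e (nat_lit 376865) (nat_lit 22) (.e (nat_lit 90185) (nat_lit 17) (.e (nat_lit 237584) (nat_lit 1) (.e (nat_lit 164348) (nat_lit 240) .nil)))))))) (.g (nat_lit 4) .nil .nil)))) (.nd (nat_lit 5) 
(.lf (nat_lit 94417) (.g (nat_lit 2934) (.e (nat_lit 2610) (nat_lit 163) (.e (nat_lit 164403) (nat_lit 256) (.e (nat_lit 57373) (nat_lit 2) (.e (nat_lit 90172) (nat_lit 14) (.e (nat_lit 180244) (nat_lit 5) (.e (nat_lit 532513) (nat_lit 3) (.e (nat_lit 114714) (nat_lit 22) (.e (nat_lit 90140) (nat_lit 9) .nil)))))))) (.g (nat_lit 4) .nil .nil))) 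
(.lf (nat_lit 94449) (.g (nat_lit 2036) (.e (nat_lit 2611) (nat_lit 163) (.e (nat_lit 164238) (nat_lit 187) (.e (nat_lit 1659) (nat_lit 115) (.e (nat_lit 393301) (nat_lit 27) (.e (nat_lit 491558) (nat_lit 10) (.e (nat_lit 344095) (nat_lit 18) (.e (nat_lit 6923) (nat_lit 371) .nil))))))) (.g (nat_lit 4) .nil .nil))))) (.nd (nat_lit 4) (.nd (nat_lit 5) 
(.lf (nat_lit 94409) (.g (nat_lit 3721) (.e (nat_lit 2610) (nat_lit 163) (.e (nat_lit 164403) (nat_lit 256) (.e (nat_lit 57371) (nat_lit 2) (.e (nat_lit 90172) (nat_lit 14) (.e (nat_lit 180243) (nat_lit 5) (.e (nat_lit 532515) (nat_lit 3) (.e (nat_lit 114716) (nat_lit 22) (.e (nat_lit 90140) (nat_lit 9) .nil)))))))) (.g (nat_lit 5) .nil .nil))) 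
(.lf (nat_lit 94441) (.g (nat_lit 3307) (.e (nat_lit 2611) (nat_lit 163) (.e (nat_lit 164022) (nat_lit 46) (.e (nat_lit 704738) (nat_lit 11) (.e (nat_lit 16425) (nat_lit 7) (.e (nat_lit 409648) (nat_lit 18) (.e (nat_lit 303137) (nat_lit 10) (.e (nat_lit 434201) (nat_lit 18) (.e (nat_lit 5922) (nat_lit 320) .nil)))))))) (.g (nat_lit 4) .nil .nil)))) (.nd (nat_lit 5) 
(.lf (nat_lit 94425) (.g (nat_lit 1828) (.e (nat_lit 2611) (nat_lit 163) (.e (nat_lit 163977) (nat_lit 30) (.e (nat_lit 573449) (nat_lit 9) (.e (nat_lit 1615) (nat_lit 113) (.e (nat_lit 376865) (nat_lit 22) (.e (nat_lit 90185) (nat_lit 17) (.e (nat_lit 237584) (nat_lit 1) (.e (nat_lit 164347) (nat_lit 240) .nil)))))))) (.g (nat_lit 4) .nil .nil))) 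
(.lf (nat_lit 94457) (.g (nat_lit 3844) (.e (nat_lit 2611) (nat_lit 163) (.e (nat_lit 164238) (nat_lit 187) (.e (nat_lit 1659) (nat_lit 115) (.e (nat_lit 393301) (nat_lit 27) (.e (nat_lit 491560) (nat_lit 10) (.e (nat_lit 344096) (nat_lit 18) (.e (nat_lit 6923) (nat_lit 371) .nil))))))) (.g (nat_lit 5) .nil .nil)))))) (.nd (nat_lit 3) (.nd (nat_lit 4) (.nd (nat_lit 5) 
(.lf (nat_lit 94405) (.g (nat_lit 2743) (.e (nat_lit 2610) (nat_lit 163) (.e (nat_lit 164403) (nat_lit 256) (.e (nat_lit 57370) (nat_lit 2) (.e (nat_lit 90172) (nat_lit 14) (.e (nat_lit 180244) (nat_lit 5) (.e (nat_lit 532515) (nat_lit 3) (.e (nat_lit 114716) (nat_lit 22) (.e (nat_lit 90140) (nat_lit 9) .nil)))))))) (.g (nat_lit 5) .nil .nil))) 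
(.lf (nat_lit 94437) (.g (nat_lit 2511) (.e (nat_lit 2611) (nat_lit 163) (.e (nat_lit 163979) (nat_lit 30) (.e (nat_lit 573451) (nat_lit 9) (.e (nat_lit 1595) (nat_lit 111) (.e (nat_lit 360467) (nat_lit 3) (.e (nat_lit 516169) (nat_lit 13) (.e (nat_lit 458774) (nat_lit 18) (.e (nat_lit 5547) (nat_lit 306) .nil)))))))) (.g (nat_lit 4) .nil .nil)))) (.nd (nat_lit 5) 
(.lf (nat_lit 94421) (.g (nat_lit 2927) (.e (nat_lit 2610) (nat_lit 163) (.e (nat_lit 164403) (nat_lit 256) (.e (nat_lit 57378) (nat_lit 3) (.e (nat_lit 98356) (nat_lit 26) (.e (nat_lit 426131) (nat_lit 3) (.e (nat_lit 204838) (nat_lit 20) (.e (nat_lit 114716) (nat_lit 22) (.e (nat_lit 90140) (nat_lit 9) .nil)))))))) (.g (nat_lit 4) .nil .nil))) 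
(.lf (nat_lit 94453) (.g (nat_lit 4103) (.e (nat_lit 2611) (nat_lit 163) (.e (nat_lit 164238) (nat_lit 187) (.e (nat_lit 1659) (nat_lit 115) (.e (nat_lit 393301) (nat_lit 27) (.e (nat_lit 491560) (nat_lit 10) (.e (nat_lit 344089) (nat_lit 18) (.e (nat_lit 6916) (nat_lit 371) .nil))))))) (.g (nat_lit 5) .nil .nil))))) (.nd (nat_lit 4) (.nd (nat_lit 5) 
(.lf (nat_lit 94413) (.g (nat_lit 3331) (.e (nat_lit 2610) (nat_lit 163) (.e (nat_lit 164403) (nat_lit 256) (.e (nat_lit 57373) (nat_lit 2) (.e (nat_lit 90170) (nat_lit 13) (.e (nat_lit 172067) (nat_lit 3) (.e (nat_lit 204838) (nat_lit 20) (.e (nat_lit 114716) (nat_lit 22) (.e (nat_lit 90140) (nat_lit 9) .nil)))))))) (.g (nat_lit 5) .nil .nil))) 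
(.lf (nat_lit 94445) (.g (nat_lit 2978) (.e (nat_lit 2611) (nat_lit 163) (.e (nat_lit 164238) (nat_lit 187) (.e (nat_lit 1253) (nat_lit 92) (.e (nat_lit 98373) (nat_lit 29) (.e (nat_lit 450587) (nat_lit 10) (.e (nat_lit 573475) (nat_lit 12) (.e (nat_lit 57348) (nat_lit 0) (.e (nat_lit 6923) (nat_lit 371) .nil)))))))) (.g (nat_lit 5) .nil .nil)))) (.nd (nat_lit 5) 
(.lf (nat_lit 94429) (.g (nat_lit 1851) (.e (nat_lit 2611) (nat_lit 163) (.e (nat_lit 163979) (nat_lit 30) (.e (nat_lit 573449) (nat_lit 9) (.e (nat_lit 1615) (nat_lit 113) (.e (nat_lit 376862) (nat_lit 22) .nil))))) .nil)) 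
(.lf (nat_lit 94461) (.g (nat_lit 1887) (.e (nat_lit 2611) (nat_lit 163) (.e (nat_lit 164332) (nat_lit 230) (.e (nat_lit 163884) (nat_lit 5) (.e (nat_lit 229120) (nat_lit 12) (.e (nat_lit 344118) (nat_lit 21) (.e (nat_lit 516131) (nat_lit 3) (.e (nat_lit 221219) (nat_lit 24) (.e (nat_lit 213022) (nat_lit 9) .nil)))))))) (.g (nat_lit 6) .nil .nil))))))) 
(.nd (nat_lit 2) (.nd (nat_lit 3) (.nd (nat_lit 4) (.nd (nat_lit 5) 
(.lf (nat_lit 94403) (.g (nat_lit 2481) (.e (nat_lit 2610) (nat_lit 163) (.e (nat_lit 164402) (nat_lit 256) (.e (nat_lit 57373) (nat_lit 2) (.e (nat_lit 90172) (nat_lit 14) (.e (nat_lit 180244) (nat_lit 5) (.e (nat_lit 532515) (nat_lit 3) (.e (nat_lit 114716) (nat_lit 22) (.e (nat_lit 90121) (nat_lit 9) .nil)))))))) (.g (nat_lit 4) .nil .nil))) 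
(.lf (nat_lit 94435) (.g (nat_lit 1676) (.e (nat_lit 2611) (nat_lit 163) (.e (nat_lit 163979) (nat_lit 30) (.e (nat_lit 573451) (nat_lit 9) (.e (nat_lit 1595) (nat_lit 111) .nil)))) .nil))) (.nd (nat_lit 5) 
(.lf (nat_lit 94419) (.g (nat_lit 3720) (.e (nat_lit 2610) (nat_lit 163) (.e (nat_lit 164403) (nat_lit 256) (.e (nat_lit 57373) (nat_lit 2) (.e (nat_lit 90172) (nat_lit 14) (.e (nat_lit 180244) (nat_lit 5) (.e (nat_lit 532515) (nat_lit 3) (.e (nat_lit 114716) (nat_lit 22) (.e (nat_lit 90121) (nat_lit 9) .nil)))))))) (.g (nat_lit 5) .nil .nil))) 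
(.lf (nat_lit 94451) (.g (nat_lit 4295) (.e (nat_lit 2611) (nat_lit 163) (.e (nat_lit 164238) (nat_lit 187) (.e (nat_lit 1659) (nat_lit 115) (.e (nat_lit 393301) (nat_lit 27) (.e (nat_lit 491560) (nat_lit 10) (.e (nat_lit 344087) (nat_lit 18) (.e (nat_lit 6923) (nat_lit 371) .nil))))))) (.g (nat_lit 6) .nil .nil))))) (.nd (nat_lit 4) (.nd (nat_lit 5) 
(.lf (nat_lit 94411) (.g (nat_lit 4123) (.e (nat_lit 2610) (nat_lit 163) (.e (nat_lit 164403) (nat_lit 256) (.e (nat_lit 57371) (nat_lit 2) (.e (nat_lit 90172) (nat_lit 14) (.e (nat_lit 180244) (nat_lit 5) (.e (nat_lit 532515) (nat_lit 3) (.e (nat_lit 114716) (nat_lit 22) (.e (nat_lit 90140) (nat_lit 9) .nil)))))))) (.g (nat_lit 7) .nil .nil))) 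
(.lf (nat_lit 94443) (.g (nat_lit 2280) (.e (nat_lit 2611) (nat_lit 163) (.e (nat_lit 164183) (nat_lit 154) (.e (nat_lit 57373) (nat_lit 2) (.e (nat_lit 90165) (nat_lit 12) (.e (nat_lit 171776) (nat_lit 48) (.e (nat_lit 720941) (nat_lit 22) (.e (nat_lit 90172) (nat_lit 14) (.e (nat_lit 180239) (nat_lit 1) (.e (nat_lit 499846) (nat_lit 5) .nil))))))))) (.g (nat_lit 4) .nil .nil)))) 
(.nd (nat_lit 5) 
(.lf (nat_lit 94427) (.g (nat_lit 2896) (.e (nat_lit 2611) (nat_lit 163) (.e (nat_lit 163978) (nat_lit 30) (.e (nat_lit 573451) (nat_lit 9) (.e (nat_lit 1595) (nat_lit 111) (.e (nat_lit 360467) (nat_lit 3) .nil))))) .nil)) 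
(.lf (nat_lit 94459) (.g (nat_lit 905) (.e (nat_lit 2611) (nat_lit 163) (.e (nat_lit 164332) (nat_lit 230) (.e (nat_lit 163884) (nat_lit 5) (.e (nat_lit 229120) (nat_lit 12) .nil)))) .nil))))) (.nd (nat_lit 3) (.nd (nat_lit 4) (.nd (nat_lit 5) 
(.lf (nat_lit 94407) (.g (nat_lit 2018) (.e (nat_lit 2610) (nat_lit 163) (.e (nat_lit 164403) (nat_lit 256) (.e (nat_lit 57371) (nat_lit 2) (.e (nat_lit 90171) (nat_lit 14) (.e (nat_lit 180245) (nat_lit 5) .nil))))) .nil)) 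
(.lf (nat_lit 94439) (.g (nat_lit 2760) (.e (nat_lit 2611) (nat_lit 163) (.e (nat_lit 163979) (nat_lit 30) (.e (nat_lit 573451) (nat_lit 9) (.e (nat_lit 1595) (nat_lit 111) (.e (nat_lit 360467) (nat_lit 3) (.e (nat_lit 516171) (nat_lit 13) (.e (nat_lit 458774) (nat_lit 18) (.e (nat_lit 5547) (nat_lit 306) .nil)))))))) (.g (nat_lit 4) .nil .nil)))) (.nd (nat_lit 5) 
(.lf (nat_lit 94423) (.g (nat_lit 3411) (.e (nat_lit 2610) (nat_lit 163) (.e (nat_lit 164403) (nat_lit 256) (.e (nat_lit 57378) (nat_lit 3) (.e (nat_lit 98377) (nat_lit 30) (.e (nat_lit 458789) (nat_lit 23) (.e (nat_lit 532515) (nat_lit 3) (.e (nat_lit 114716) (nat_lit 22) (.e (nat_lit 90140) (nat_lit 9) .nil)))))))) (.g (nat_lit 5) .nil .nil))) 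
(.lf (nat_lit 94455) (.g (nat_lit 4917) (.e (nat_lit 2611) (nat_lit 163) (.e (nat_lit 164238) (nat_lit 187) (.e (nat_lit 1659) (nat_lit 115) (.e (nat_lit 393301) (nat_lit 27) (.e (nat_lit 491560) (nat_lit 10) (.e (nat_lit 344091) (nat_lit 18) (.e (nat_lit 6923) (nat_lit 371) .nil))))))) (.g (nat_lit 0) .nil .nil))))) (.nd (nat_lit 4) (.nd (nat_lit 5) 
(.lf (nat_lit 94415) (.g (nat_lit 3831) (.e (nat_lit 2610) (nat_lit 163) (.e (nat_lit 164403) (nat_lit 256) (.e (nat_lit 57373) (nat_lit 2) (.e (nat_lit 90172) (nat_lit 14) (.e (nat_lit 180243) (nat_lit 5) (.e (nat_lit 532515) (nat_lit 3) (.e (nat_lit 114716) (nat_lit 22) (.e (nat_lit 90140) (nat_lit 9) .nil)))))))) (.g (nat_lit 4) .nil .nil))) 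
(.lf (nat_lit 94447) (.g (nat_lit 3297) (.e (nat_lit 2611) (nat_lit 163) (.e (nat_lit 164238) (nat_lit 187) (.e (nat_lit 1659) (nat_lit 115) (.e (nat_lit 393301) (nat_lit 27) (.e (nat_lit 491558) (nat_lit 10) (.e (nat_lit 344090) (nat_lit 18) (.e (nat_lit 6923) (nat_lit 371) .nil))))))) (.g (nat_lit 5) .nil .nil)))) (.nd (nat_lit 5) 
(.lf (nat_lit 94431) (.g (nat_lit 2723) (.e (nat_lit 2611) (nat_lit 163) (.e (nat_lit 163979) (nat_lit 30) (.e (nat_lit 573449) (nat_lit 9) (.e (nat_lit 1615) (nat_lit 113) (.e (nat_lit 376865) (nat_lit 22) (.e (nat_lit 90185) (nat_lit 17) (.e (nat_lit 237582) (nat_lit 1) (.e (nat_lit 164348) (nat_lit 240) .nil)))))))) (.g (nat_lit 5) .nil .nil))) 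
(.lf (nat_lit 94463) (.g (nat_lit 2803) (.e (nat_lit 2611) (nat_lit 163) (.e (nat_lit 164332) (nat_lit 230) (.e (nat_lit 163884) (nat_lit 5) (.e (nat_lit 229120) (nat_lit 12) (.e (nat_lit 344133) (nat_lit 26) (.e (nat_lit 557103) (nat_lit 14) (.e (nat_lit 180263) (nat_lit 21) (.e (nat_lit 663580) (nat_lit 9) .nil)))))))) (.g (nat_lit 6) .nil .nil)))))))))

noncomputable def tv1298 : DT := (.nd (nat_lit 0) (.nd (nat_lit 1) (.nd (nat_lit 2) (.nd (nat_lit 3) (.nd (nat_lit 4) (.nd (nat_lit 5) 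
(.lf (nat_lit 94464) (.g (nat_lit 1208) (.e (nat_lit 2611) (nat_lit 163) (.e (nat_lit 164332) (nat_lit 230) (.e (nat_lit 163885) (nat_lit 5) (.e (nat_lit 229120) (nat_lit 12) .nil)))) .nil)) 
(.lf (nat_lit 94496) (.g (nat_lit 4213) (.e (nat_lit 2611) (nat_lit 163) (.e (nat_lit 164403) (nat_lit 256) (.e (nat_lit 57371) (nat_lit 2) (.e (nat_lit 90172) (nat_lit 14) (.e (nat_lit 180244) (nat_lit 5) (.e (nat_lit 532515) (nat_lit 3) (.e (nat_lit 114716) (nat_lit 22) (.e (nat_lit 90140) (nat_lit 9) .nil)))))))) (.g (nat_lit 7) .nil .nil)))) (.nd (nat_lit 5) 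
(.lf (nat_lit 94480) (.g (nat_lit 3352) (.e (nat_lit 2611) (nat_lit 163) (.e (nat_lit 164402) (nat_lit 256) (.e (nat_lit 57371) (nat_lit 2) (.e (nat_lit 90172) (nat_lit 14) (.e (nat_lit 180244) (nat_lit 5) (.e (nat_lit 532515) (nat_lit 3) (.e (nat_lit 114716) (nat_lit 22) (.e (nat_lit 90121) (nat_lit 9) .nil)))))))) (.g (nat_lit 6) .nil .nil))) 
(.lf (nat_lit 94512) (.g (nat_lit 2781) (.e (nat_lit 2612) (nat_lit 163) (.e (nat_lit 163977) (nat_lit 30) (.e (nat_lit 573489) (nat_lit 14) (.e (nat_lit 73755) (nat_lit 8) (.e (nat_lit 557098) (nat_lit 13) .nil))))) .nil)))) (.nd (nat_lit 4) (.nd (nat_lit 5) 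
(.lf (nat_lit 94472) (.g (nat_lit 2778) (.e (nat_lit 2611) (nat_lit 163) (.e (nat_lit 164396) (nat_lit 256) (.e (nat_lit 57371) (nat_lit 2) (.e (nat_lit 90172) (nat_lit 14) (.e (nat_lit 180243) (nat_lit 5) (.e (nat_lit 532515) (nat_lit 3) (.e (nat_lit 114716) (nat_lit 22) (.e (nat_lit 90140) (nat_lit 9) .nil)))))))) (.g (nat_lit 5) .nil .nil))) 
(.lf (nat_lit 94504) (.g (nat_lit 2893) (.e (nat_lit 2611) (nat_lit 163) (.e (nat_lit 164403) (nat_lit 256) (.e (nat_lit 57373) (nat_lit 2) (.e (nat_lit 90172) (nat_lit 14) (.e (nat_lit 180244) (nat_lit 5) (.e (nat_lit 532513) (nat_lit 3) (.e (nat_lit 114714) (nat_lit 22) (.e (nat_lit 90140) (nat_lit 9) .nil)))))))) (.g (nat_lit 4) .nil .nil)))) (.nd (nat_lit 5) 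
(.lf (nat_lit 94488) (.g (nat_lit 2404) (.e (nat_lit 2611) (nat_lit 163) (.e (nat_lit 164403) (nat_lit 256) (.e (nat_lit 57371) (nat_lit 2) (.e (nat_lit 90167) (nat_lit 13) (.e (nat_lit 172067) (nat_lit 3) (.e (nat_lit 204838) (nat_lit 20) (.e (nat_lit 114716) (nat_lit 22) (.e (nat_lit 90140) (nat_lit 9) .nil)))))))) (.g (nat_lit 4) .nil .nil))) 
(.lf (nat_lit 94520) (.g (nat_lit 2844) (.e (nat_lit 2612) (nat_lit 163) (.e (nat_lit 163977) (nat_lit 30) (.e (nat_lit 573492) (nat_lit 15) (.e (nat_lit 81956) (nat_lit 23) (.e (nat_lit 106240) (nat_lit 26) .nil))))) .nil))))) (.nd (nat_lit 3) (.nd (nat_lit 4) (.nd (nat_lit 5) 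
(.lf (nat_lit 94468) (.g (nat_lit 1908) (.e (nat_lit 2611) (nat_lit 163) (.e (nat_lit 164332) (nat_lit 230) (.e (nat_lit 163885) (nat_lit 5) (.e (nat_lit 229120) (nat_lit 12) (.e (nat_lit 344130) (nat_lit 26) (.e (nat_lit 557103) (nat_lit 14) (.e (nat_lit 180263) (nat_lit 21) (.e (nat_lit 663579) (nat_lit 9) .nil)))))))) (.g (nat_lit 5) .nil .nil))) 
(.lf (nat_lit 94500) (.g (nat_lit 3081) (.e (nat_lit 2611) (nat_lit 163) (.e (nat_lit 164403) (nat_lit 256) (.e (nat_lit 57373) (nat_lit 2) (.e (nat_lit 90172) (nat_lit 14) (.e (nat_lit 180243) (nat_lit 5) .nil))))) .nil))) (.nd (nat_lit 5) 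
(.lf (nat_lit 94484) (.g (nat_lit 3112) (.e (nat_lit 2611) (nat_lit 163) (.e (nat_lit 164402) (nat_lit 256) (.e (nat_lit 57373) (nat_lit 2) (.e (nat_lit 90172) (nat_lit 14) (.e (nat_lit 180244) (nat_lit 5) (.e (nat_lit 532515) (nat_lit 3) (.e (nat_lit 114716) (nat_lit 22) (.e (nat_lit 90121) (nat_lit 9) .nil)))))))) (.g (nat_lit 6) .nil .nil))) 
(.lf (nat_lit 94516) (.g (nat_lit 3692) (.e (nat_lit 2612) (nat_lit 163) (.e (nat_lit 163977) (nat_lit 30) (.e (nat_lit 573492) (nat_lit 15) (.e (nat_lit 81956) (nat_lit 23) (.e (nat_lit 98360) (nat_lit 26) .nil))))) .nil)))) (.nd (nat_lit 4) (.nd (nat_lit 5) 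
(.lf (nat_lit 94476) (.g (nat_lit 1972) (.e (nat_lit 2611) (nat_lit 163) (.e (nat_lit 164401) (nat_lit 256) (.e (nat_lit 57373) (nat_lit 2) (.e (nat_lit 90172) (nat_lit 14) (.e (nat_lit 180244) (nat_lit 5) (.e (nat_lit 532515) (nat_lit 3) (.e (nat_lit 114716) (nat_lit 22) (.e (nat_lit 90121) (nat_lit 9) .nil)))))))) (.g (nat_lit 4) .nil .nil))) 
(.lf (nat_lit 94508) (.g (nat_lit 2305) (.e (nat_lit 2611) (nat_lit 163) (.e (nat_lit 164403) (nat_lit 256) (.e (nat_lit 57378) (nat_lit 3) (.e (nat_lit 98377) (nat_lit 30) (.e (nat_lit 458789) (nat_lit 23) (.e (nat_lit 532515) (nat_lit 3) (.e (nat_lit 114716) (nat_lit 22) (.e (nat_lit 90121) (nat_lit 9) .nil)))))))) (.g (nat_lit 4) .nil .nil)))) (.nd (nat_lit 5) 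
(.lf (nat_lit 94492) (.g (nat_lit 3811) (.e (nat_lit 2611) (nat_lit 163) (.e (nat_lit 164403) (nat_lit 256) (.e (nat_lit 57371) (nat_lit 2) (.e (nat_lit 90172) (nat_lit 14) (.e (nat_lit 180243) (nat_lit 5) (.e (nat_lit 532515) (nat_lit 3) (.e (nat_lit 114716) (nat_lit 22) (.e (nat_lit 90140) (nat_lit 9) .nil)))))))) (.g (nat_lit 6) .nil .nil))) 
(.lf (nat_lit 94524) (.g (nat_lit 3734) (.e (nat_lit 2612) (nat_lit 163) (.e (nat_lit 163977) (nat_lit 30) (.e (nat_lit 573493) (nat_lit 15) (.e (nat_lit 81954) (nat_lit 23) (.e (nat_lit 98360) (nat_lit 26) .nil))))) .nil)))))) (.nd (nat_lit 2) (.nd (nat_lit 3) (.nd (nat_lit 4) (.nd (nat_lit 5) 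
(.lf (nat_lit 94466) (.g (nat_lit 2178) (.e (nat_lit 2611) (nat_lit 163) (.e (nat_lit 164332) (nat_lit 230) (.e (nat_lit 163885) (nat_lit 5) (.e (nat_lit 229120) (nat_lit 12) (.e (nat_lit 344118) (nat_lit 21) (.e (nat_lit 516131) (nat_lit 3) (.e (nat_lit 221219) (nat_lit 24) (.e (nat_lit 213022) (nat_lit 9) .nil)))))))) (.g (nat_lit 6) .nil .nil))) 
(.lf (nat_lit 94498) (.g (nat_lit 2374) (.e (nat_lit 2611) (nat_lit 163) (.e (nat_lit 164403) (nat_lit 256) (.e (nat_lit 57373) (nat_lit 2) (.e (nat_lit 90170) (nat_lit 13) (.e (nat_lit 172067) (nat_lit 3) .nil))))) .nil))) (.nd (nat_lit 5) 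
(.lf (nat_lit 94482) (.g (nat_lit 2236) (.e (nat_lit 2611) (nat_lit 163) (.e (nat_lit 164402) (nat_lit 256) (.e (nat_lit 57373) (nat_lit 2) (.e (nat_lit 90172) (nat_lit 14) (.e (nat_lit 180244) (nat_lit 5) (.e (nat_lit 532513) (nat_lit 3) (.e (nat_lit 114714) (nat_lit 22) (.e (nat_lit 90140) (nat_lit 9) .nil)))))))) (.g (nat_lit 4) .nil .nil))) 
(.lf (nat_lit 94514) (.g (nat_lit 2282) (.e (nat_lit 2612) (nat_lit 163) (.e (nat_lit 163977) (nat_lit 30) (.e (nat_lit 573492) (nat_lit 15) (.e (nat_lit 81954) (nat_lit 23) .nil)))) .nil)))) (.nd (nat_lit 4) (.nd (nat_lit 5) 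
(.lf (nat_lit 94474) (.g (nat_lit 3774) (.e (nat_lit 2611) (nat_lit 163) (.e (nat_lit 164396) (nat_lit 256) (.e (nat_lit 57371) (nat_lit 2) (.e (nat_lit 90172) (nat_lit 14) (.e (nat_lit 180244) (nat_lit 5) (.e (nat_lit 532515) (nat_lit 3) (.e (nat_lit 114716) (nat_lit 22) (.e (nat_lit 90140) (nat_lit 9) .nil)))))))) (.g (nat_lit 7) .nil .nil))) 
(.lf (nat_lit 94506) (.g (nat_lit 4836) (.e (nat_lit 2611) (nat_lit 163) (.e (nat_lit 164403) (nat_lit 256) (.e (nat_lit 57373) (nat_lit 2) (.e (nat_lit 90172) (nat_lit 14) (.e (nat_lit 180244) (nat_lit 5) (.e (nat_lit 532515) (nat_lit 3) (.e (nat_lit 114716) (nat_lit 22) (.e (nat_lit 90140) (nat_lit 9) .nil)))))))) (.g (nat_lit 8) .nil .nil)))) (.nd (nat_lit 5) 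
(.lf (nat_lit 94490) (.g (nat_lit 2702) (.e (nat_lit 2611) (nat_lit 163) (.e (nat_lit 164403) (nat_lit 256) (.e (nat_lit 57371) (nat_lit 2) (.e (nat_lit 90172) (nat_lit 14) (.e (nat_lit 180243) (nat_lit 5) (.e (nat_lit 532513) (nat_lit 3) (.e (nat_lit 114714) (nat_lit 22) (.e (nat_lit 90140) (nat_lit 9) .nil)))))))) (.g (nat_lit 4) .nil .nil))) 
(.lf (nat_lit 94522) (.g (nat_lit 4922) (.e (nat_lit 2612) (nat_lit 163) (.e (nat_lit 163977) (nat_lit 30) (.e (nat_lit 573493) (nat_lit 15) (.e (nat_lit 81953) (nat_lit 22) (.e (nat_lit 90173) (nat_lit 14) .nil))))) .nil))))) (.nd (nat_lit 3) (.nd (nat_lit 4) (.nd (nat_lit 5) 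
(.lf (nat_lit 94470) (.g (nat_lit 2054) (.e (nat_lit 2611) (nat_lit 163) (.e (nat_lit 164332) (nat_lit 230) (.e (nat_lit 163885) (nat_lit 5) (.e (nat_lit 229120) (nat_lit 12) (.e (nat_lit 344133) (nat_lit 26) (.e (nat_lit 557103) (nat_lit 14) (.e (nat_lit 180263) (nat_lit 21) (.e (nat_lit 663579) (nat_lit 9) .nil)))))))) (.g (nat_lit 5) .nil .nil))) 
(.lf (nat_lit 94502) (.g (nat_lit 2509) (.e (nat_lit 2611) (nat_lit 163) (.e (nat_lit 164403) (nat_lit 256) (.e (nat_lit 57373) (nat_lit 2) (.e (nat_lit 90172) (nat_lit 14) (.e (nat_lit 180244) (nat_lit 5) .nil))))) .nil))) (.nd (nat_lit 5) 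
(.lf (nat_lit 94486) (.g (nat_lit 1817) (.e (nat_lit 2611) (nat_lit 163) (.e (nat_lit 164403) (nat_lit 256) (.e (nat_lit 57370) (nat_lit 2) (.e (nat_lit 90172) (nat_lit 14) (.e (nat_lit 180244) (nat_lit 5) (.e (nat_lit 532515) (nat_lit 3) (.e (nat_lit 114716) (nat_lit 22) (.e (nat_lit 90121) (nat_lit 9) .nil)))))))) (.g (nat_lit 4) .nil .nil))) 
(.lf (nat_lit 94518) (.g (nat_lit 4778) (.e (nat_lit 2612) (nat_lit 163) (.e (nat_lit 163977) (nat_lit 30) (.e (nat_lit 573492) (nat_lit 15) (.e (nat_lit 81956) (nat_lit 23) (.e (nat_lit 98362) (nat_lit 26) .nil))))) .nil)))) (.nd (nat_lit 4) (.nd (nat_lit 5) 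
(.lf (nat_lit 94478) (.g (nat_lit 2302) (.e (nat_lit 2611) (nat_lit 163) (.e (nat_lit 164402) (nat_lit 256) (.e (nat_lit 57371) (nat_lit 2) (.e (nat_lit 90172) (nat_lit 14) (.e (nat_lit 180243) (nat_lit 5) (.e (nat_lit 532513) (nat_lit 3) (.e (nat_lit 114714) (nat_lit 22) (.e (nat_lit 90140) (nat_lit 9) .nil)))))))) (.g (nat_lit 4) .nil .nil))) 
(.lf (nat_lit 94510) (.g (nat_lit 1826) (.e (nat_lit 2612) (nat_lit 163) (.e (nat_lit 163977) (nat_lit 30) (.e (nat_lit 573479) (nat_lit 13) (.e (nat_lit 65619) (nat_lit 10) (.e (nat_lit 344117) (nat_lit 21) (.e (nat_lit 516151) (nat_lit 9) (.e (nat_lit 426142) (nat_lit 4) (.e (nat_lit 229666) (nat_lit 240) .nil)))))))) (.g (nat_lit 4) .nil .nil)))) (.nd (nat_lit 5) 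
(.lf (nat_lit 94494) (.g (nat_lit 2273) (.e (nat_lit 2611) (nat_lit 163) (.e (nat_lit 164403) (nat_lit 256) (.e (nat_lit 57371) (nat_lit 2) (.e (nat_lit 90172) (nat_lit 14) (.e (nat_lit 180244) (nat_lit 5) (.e (nat_lit 532515) (nat_lit 3) (.e (nat_lit 114715) (nat_lit 22) (.e (nat_lit 90121) (nat_lit 9) .nil)))))))) (.g (nat_lit 4) .nil .nil))) 
(.lf (nat_lit 94526) (.g (nat_lit 2522) (.e (nat_lit 2612) (nat_lit 163) (.e (nat_lit 163977) (nat_lit 30) (.e (nat_lit 573493) (nat_lit 15) (.e (nat_lit 81956) (nat_lit 23) (.e (nat_lit 98354) (nat_lit 26) .nil))))) .nil))))))) (.nd (nat_lit 1) (.nd (nat_lit 2) (.nd (nat_lit 3) (.nd (nat_lit 4) (.nd (nat_lit 5) 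
(.lf (nat_lit 94465) (.g (nat_lit 3033) (.e (nat_lit 2611) (nat_lit 163) (.e (nat_lit 164332) (nat_lit 230) (.e (nat_lit 163885) (nat_lit 5) (.e (nat_lit 229120) (nat_lit 12) (.e (nat_lit 344117) (nat_lit 21) (.e (nat_lit 516129) (nat_lit 3) (.e (nat_lit 221217) (nat_lit 24) (.e (nat_lit 213013) (nat_lit 9) .nil)))))))) (.g (nat_lit 6) .nil .nil))) 
(.lf (nat_lit 94497) (.g (nat_lit 3063) (.e (nat_lit 2611) (nat_lit 163) (.e (nat_lit 164403) (nat_lit 256) (.e (nat_lit 57373) (nat_lit 2) (.e (nat_lit 90170) (nat_lit 13) (.e (nat_lit 172065) (nat_lit 3) (.e (nat_lit 204838) (nat_lit 20) (.e (nat_lit 114716) (nat_lit 22) (.e (nat_lit 90140) (nat_lit 9) .nil)))))))) (.g (nat_lit 5) .nil .nil)))) (.nd (nat_lit 5) 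
(.lf (nat_lit 94481) (.g (nat_lit 4420) (.e (nat_lit 2611) (nat_lit 163) (.e (nat_lit 164402) (nat_lit 256) (.e (nat_lit 57371) (nat_lit 2) (.e (nat_lit 90172) (nat_lit 14) (.e (nat_lit 180244) (nat_lit 5) (.e (nat_lit 532515) (nat_lit 3) (.e (nat_lit 114716) (nat_lit 22) (.e (nat_lit 90140) (nat_lit 9) .nil)))))))) (.g (nat_lit 0) .nil .nil))) 
(.lf (nat_lit 94513) (.g (nat_lit 4138) (.e (nat_lit 2612) (nat_lit 163) (.e (nat_lit 163977) (nat_lit 30) (.e (nat_lit 573492) (nat_lit 15) (.e (nat_lit 81951) (nat_lit 22) (.e (nat_lit 90170) (nat_lit 13) .nil))))) .nil)))) (.nd (nat_lit 4) (.nd (nat_lit 5) 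
(.lf (nat_lit 94473) (.g (nat_lit 1846) (.e (nat_lit 2611) (nat_lit 163) (.e (nat_lit 164396) (nat_lit 256) (.e (nat_lit 57371) (nat_lit 2) (.e (nat_lit 90172) (nat_lit 14) (.e (nat_lit 180244) (nat_lit 5) (.e (nat_lit 532515) (nat_lit 3) (.e (nat_lit 114715) (nat_lit 22) (.e (nat_lit 90121) (nat_lit 9) .nil)))))))) (.g (nat_lit 4) .nil .nil))) 
(.lf (nat_lit 94505) (.g (nat_lit 3134) (.e (nat_lit 2611) (nat_lit 163) (.e (nat_lit 164403) (nat_lit 256) (.e (nat_lit 57373) (nat_lit 2) (.e (nat_lit 90172) (nat_lit 14) (.e (nat_lit 180244) (nat_lit 5) (.e (nat_lit 532515) (nat_lit 3) (.e (nat_lit 114715) (nat_lit 22) (.e (nat_lit 90121) (nat_lit 9) .nil)))))))) (.g (nat_lit 5) .nil .nil)))) (.nd (nat_lit 5) 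
(.lf (nat_lit 94489) (.g (nat_lit 2588) (.e (nat_lit 2611) (nat_lit 163) (.e (nat_lit 164403) (nat_lit 256) (.e (nat_lit 57371) (nat_lit 2) (.e (nat_lit 90172) (nat_lit 14) (.e (nat_lit 180243) (nat_lit 5) .nil))))) .nil)) 
(.lf (nat_lit 94521) (.g (nat_lit 3903) (.e (nat_lit 2612) (nat_lit 163) (.e (nat_lit 163977) (nat_lit 30) (.e (nat_lit 573493) (nat_lit 15) (.e (nat_lit 81951) (nat_lit 22) (.e (nat_lit 90167) (nat_lit 13) .nil))))) .nil))))) (.nd (nat_lit 3) (.nd (nat_lit 4) (.nd (nat_lit 5) 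
(.lf (nat_lit 94469) (.g (nat_lit 3209) (.e (nat_lit 2611) (nat_lit 163) (.e (nat_lit 164332) (nat_lit 230) (.e (nat_lit 163885) (nat_lit 5) (.e (nat_lit 229120) (nat_lit 12) (.e (nat_lit 344130) (nat_lit 26) (.e (nat_lit 557103) (nat_lit 14) (.e (nat_lit 180263) (nat_lit 21) (.e (nat_lit 663580) (nat_lit 9) .nil)))))))) (.g (nat_lit 7) .nil .nil))) 
(.lf (nat_lit 94501) (.g (nat_lit 3749) (.e (nat_lit 2611) (nat_lit 163) (.e (nat_lit 164403) (nat_lit 256) (.e (nat_lit 57373) (nat_lit 2) (.e (nat_lit 90172) (nat_lit 14) (.e (nat_lit 180243) (nat_lit 5) (.e (nat_lit 532515) (nat_lit 3) (.e (nat_lit 114716) (nat_lit 22) (.e (nat_lit 90140) (nat_lit 9) .nil)))))))) (.g (nat_lit 5) .nil .nil)))) (.nd (nat_lit 5) 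
(.lf (nat_lit 94485) (.g (nat_lit 4179) (.e (nat_lit 2611) (nat_lit 163) (.e (nat_lit 164402) (nat_lit 256) (.e (nat_lit 57373) (nat_lit 2) (.e (nat_lit 90172) (nat_lit 14) (.e (nat_lit 180244) (nat_lit 5) (.e (nat_lit 532515) (nat_lit 3) (.e (nat_lit 114716) (nat_lit 22) (.e (nat_lit 90140) (nat_lit 9) .nil)))))))) (.g (nat_lit 8) .nil .nil))) 
(.lf (nat_lit 94517) (.g (nat_lit 4702) (.e (nat_lit 2612) (nat_lit 163) (.e (nat_lit 163977) (nat_lit 30) (.e (nat_lit 573492) (nat_lit 15) (.e (nat_lit 81956) (nat_lit 23) (.e (nat_lit 98361) (nat_lit 26) .nil))))) .nil)))) (.nd (nat_lit 4) (.nd (nat_lit 5) 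
(.lf (nat_lit 94477) (.g (nat_lit 2099) (.e (nat_lit 2611) (nat_lit 163) (.e (nat_lit 164402) (nat_lit 256) (.e (nat_lit 57371) (nat_lit 2) (.e (nat_lit 90172) (nat_lit 14) (.e (nat_lit 180243) (nat_lit 5) .nil))))) .nil)) 
(.lf (nat_lit 94509) (.g (nat_lit 3491) (.e (nat_lit 2611) (nat_lit 163) (.e (nat_lit 164403) (nat_lit 256) (.e (nat_lit 57378) (nat_lit 3) (.e (nat_lit 98377) (nat_lit 30) (.e (nat_lit 458789) (nat_lit 23) (.e (nat_lit 532515) (nat_lit 3) (.e (nat_lit 114716) (nat_lit 22) (.e (nat_lit 90140) (nat_lit 9) .nil)))))))) (.g (nat_lit 6) .nil .nil)))) (.nd (nat_lit 5) 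
(.lf (nat_lit 94493) (.g (nat_lit 2308) (.e (nat_lit 2611) (nat_lit 163) (.e (nat_lit 164403) (nat_lit 256) (.e (nat_lit 57371) (nat_lit 2) (.e (nat_lit 90172) (nat_lit 14) (.e (nat_lit 180244) (nat_lit 5) (.e (nat_lit 532513) (nat_lit 3) (.e (nat_lit 114714) (nat_lit 22) (.e (nat_lit 90140) (nat_lit 9) .nil)))))))) (.g (nat_lit 4) .nil .nil))) 
(.lf (nat_lit 94525) (.g (nat_lit 3504) (.e (nat_lit 2612) (nat_lit 163) (.e (nat_lit 163977) (nat_lit 30) (.e (nat_lit 573493) (nat_lit 15) (.e (nat_lit 81954) (nat_lit 23) (.e (nat_lit 98367) (nat_lit 27) .nil))))) .nil)))))) (.nd (nat_lit 2) (.nd (nat_lit 3) (.nd (nat_lit 4) (.nd (nat_lit 5) 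
(.lf (nat_lit 94467) (.g (nat_lit 3517) (.e (nat_lit 2611) (nat_lit 163) (.e (nat_lit 164332) (nat_lit 230) (.e (nat_lit 163885) (nat_lit 5) (.e (nat_lit 229120) (nat_lit 12) (.e (nat_lit 344129) (nat_lit 26) (.e (nat_lit 557104) (nat_lit 14) (.e (nat_lit 180264) (nat_lit 21) (.e (nat_lit 663580) (nat_lit 9) .nil)))))))) (.g (nat_lit 6) .nil .nil))) 
(.lf (nat_lit 94499) (.g (nat_lit 3369) (.e (nat_lit 2611) (nat_lit 163) (.e (nat_lit 164403) (nat_lit 256) (.e (nat_lit 57373) (nat_lit 2) (.e (nat_lit 90170) (nat_lit 13) (.e (nat_lit 172067) (nat_lit 3) (.e (nat_lit 204838) (nat_lit 20) (.e (nat_lit 114716) (nat_lit 22) (.e (nat_lit 90140) (nat_lit 9) .nil)))))))) (.g (nat_lit 5) .nil .nil)))) (.nd (nat_lit 5) 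
(.lf (nat_lit 94483) (.g (nat_lit 2222) (.e (nat_lit 2611) (nat_lit 163) (.e (nat_lit 164402) (nat_lit 256) (.e (nat_lit 57373) (nat_lit 2) (.e (nat_lit 90172) (nat_lit 14) (.e (nat_lit 180244) (nat_lit 5) (.e (nat_lit 532515) (nat_lit 3) (.e (nat_lit 114715) (nat_lit 22) (.e (nat_lit 90121) (nat_lit 9) .nil)))))))) (.g (nat_lit 4) .nil .nil))) 
(.lf (nat_lit 94515) (.g (nat_lit 3119) (.e (nat_lit 2612) (nat_lit 163) (.e (nat_lit 163977) (nat_lit 30) (.e (nat_lit 573492) (nat_lit 15) (.e (nat_lit 81956) (nat_lit 23) (.e (nat_lit 98354) (nat_lit 26) .nil))))) .nil)))) (.nd (nat_lit 4) (.nd (nat_lit 5) 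
(.lf (nat_lit 94475) (.g (nat_lit 2576) (.e (nat_lit 2611) (nat_lit 163) (.e (nat_lit 164396) (nat_lit 256) (.e (nat_lit 57375) (nat_lit 2) (.e (nat_lit 90174) (nat_lit 14) (.e (nat_lit 180243) (nat_lit 5) (.e (nat_lit 532515) (nat_lit 3) (.e (nat_lit 114716) (nat_lit 22) (.e (nat_lit 90140) (nat_lit 9) .nil)))))))) (.g (nat_lit 5) .nil .nil))) 
(.lf (nat_lit 94507) (.g (nat_lit 2233) (.e (nat_lit 2611) (nat_lit 163) (.e (nat_lit 164403) (nat_lit 256) (.e (nat_lit 57378) (nat_lit 3) (.e (nat_lit 98368) (nat_lit 27) .nil)))) .nil))) (.nd (nat_lit 5) 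
(.lf (nat_lit 94491) (.g (nat_lit 2679) (.e (nat_lit 2611) (nat_lit 163) (.e (nat_lit 164403) (nat_lit 256) (.e (nat_lit 57371) (nat_lit 2) (.e (nat_lit 90172) (nat_lit 14) (.e (nat_lit 180243) (nat_lit 5) (.e (nat_lit 532515) (nat_lit 3) (.e (nat_lit 114716) (nat_lit 22) (.e (nat_lit 90121) (nat_lit 9) .nil)))))))) (.g (nat_lit 4) .nil .nil))) 
(.lf (nat_lit 94523) (.g (nat_lit 3607) (.e (nat_lit 2612) (nat_lit 163) (.e (nat_lit 163977) (nat_lit 30) (.e (nat_lit 573493) (nat_lit 15) (.e (nat_lit 81954) (nat_lit 23) (.e (nat_lit 98356) (nat_lit 26) .nil))))) .nil))))) (.nd (nat_lit 3) (.nd (nat_lit 4) (.nd (nat_lit 5) 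
(.lf (nat_lit 94471) (.g (nat_lit 2995) (.e (nat_lit 2611) (nat_lit 163) (.e (nat_lit 164332) (nat_lit 230) (.e (nat_lit 163885) (nat_lit 5) (.e (nat_lit 229120) (nat_lit 12) (.e (nat_lit 344133) (nat_lit 26) (.e (nat_lit 557105) (nat_lit 14) (.e (nat_lit 180265) (nat_lit 21) (.e (nat_lit 663579) (nat_lit 9) .nil)))))))) (.g (nat_lit 6) .nil .nil))) 
(.lf (nat_lit 94503) (.g (nat_lit 2706) (.e (nat_lit 2611) (nat_lit 163) (.e (nat_lit 164403) (nat_lit 256) (.e (nat_lit 57373) (nat_lit 2) (.e (nat_lit 90172) (nat_lit 14) (.e (nat_lit 180244) (nat_lit 5) (.e (nat_lit 532513) (nat_lit 3) (.e (nat_lit 114714) (nat_lit 22) (.e (nat_lit 90121) (nat_lit 9) .nil)))))))) (.g (nat_lit 4) .nil .nil)))) (.nd (nat_lit 5) 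
(.lf (nat_lit 94487) (.g (nat_lit 2885) (.e (nat_lit 2611) (nat_lit 163) (.e (nat_lit 164403) (nat_lit 256) (.e (nat_lit 57370) (nat_lit 2) (.e (nat_lit 90172) (nat_lit 14) (.e (nat_lit 180244) (nat_lit 5) (.e (nat_lit 532515) (nat_lit 3) (.e (nat_lit 114716) (nat_lit 22) (.e (nat_lit 90140) (nat_lit 9) .nil)))))))) (.g (nat_lit 6) .nil .nil))) 
(.lf (nat_lit 94519) (.g (nat_lit 4565) (.e (nat_lit 2612) (nat_lit 163) (.e (nat_lit 163977) (nat_lit 30) (.e (nat_lit 573492) (nat_lit 15) (.e (nat_lit 81956) (nat_lit 23) (.e (nat_lit 98363) (nat_lit 26) .nil))))) .nil)))) (.nd (nat_lit 4) (.nd (nat_lit 5) 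
(.lf (nat_lit 94479) (.g (nat_lit 2261) (.e (nat_lit 2611) (nat_lit 163) (.e (nat_lit 164402) (nat_lit 256) (.e (nat_lit 57371) (nat_lit 2) (.e (nat_lit 90172) (nat_lit 14) (.e (nat_lit 180243) (nat_lit 5) (.e (nat_lit 532515) (nat_lit 3) (.e (nat_lit 114716) (nat_lit 22) (.e (nat_lit 90121) (nat_lit 9) .nil)))))))) (.g (nat_lit 4) .nil .nil))) 
(.lf (nat_lit 94511) (.g (nat_lit 2238) (.e (nat_lit 2612) (nat_lit 163) (.e (nat_lit 163977) (nat_lit 30) (.e (nat_lit 573489) (nat_lit 14) (.e (nat_lit 73755) (nat_lit 8) (.e (nat_lit 557097) (nat_lit 13) .nil))))) .nil))) (.nd (nat_lit 5) 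
(.lf (nat_lit 94495) (.g (nat_lit 3163) (.e (nat_lit 2611) (nat_lit 163) (.e (nat_lit 164403) (nat_lit 256) (.e (nat_lit 57371) (nat_lit 2) (.e (nat_lit 90172) (nat_lit 14) (.e (nat_lit 180244) (nat_lit 5) (.e (nat_lit 532515) (nat_lit 3) (.e (nat_lit 114716) (nat_lit 22) (.e (nat_lit 90121) (nat_lit 9) .nil)))))))) (.g (nat_lit 5) .nil .nil))) 
(.lf (nat_lit 94527) (.g (nat_lit 2798) (.e (nat_lit 2612) (nat_lit 163) (.e (nat_lit 163977) (nat_lit 30) (.e (nat_lit 573493) (nat_lit 15) (.e (nat_lit 81956) (nat_lit 23) (.e (nat_lit 98355) (nat_lit 26) .nil))))) .nil))))))))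

noncomputable def tv1299 : DT := (.nd (nat_lit 0) (.nd (nat_lit 1) (.nd (nat_lit 2) (.nd (nat_lit 3) (.nd (nat_lit 4) (.nd (nat_lit 5) 
(.lf (nat_lit 94528) (.g (nat_lit 3016) (.e (nat_lit 2612) (nat_lit 163) (.e (nat_lit 163977) (nat_lit 30) (.e (nat_lit 573493) (nat_lit 15) (.e (nat_lit 81956) (nat_lit 23) (.e (nat_lit 98360) (nat_lit 26) .nil))))) .nil)) 
(.lf (nat_lit 94560) (.g (nat_lit 6169) (.e (nat_lit 2612) (nat_lit 163) (.e (nat_lit 163979) (nat_lit 30) (.e (nat_lit 573492) (nat_lit 15) (.e (nat_lit 81953) (nat_lit 22) (.e (nat_lit 90174) (nat_lit 14) .nil))))) .nil))) (.nd (nat_lit 5) 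
(.lf (nat_lit 94544) (.g (nat_lit 463) (.e (nat_lit 2612) (nat_lit 163) (.e (nat_lit 163978) (nat_lit 30) (.e (nat_lit 573490) (nat_lit 15) .nil))) .nil)) 
(.lf (nat_lit 94576) (.g (nat_lit 2988) (.e (nat_lit 2612) (nat_lit 163) (.e (nat_lit 163979) (nat_lit 30) (.e (nat_lit 573493) (nat_lit 15) (.e (nat_lit 81956) (nat_lit 23) (.e (nat_lit 106240) (nat_lit 26) .nil))))) .nil)))) (.nd (nat_lit 4) (.nd (nat_lit 5) 
(.lf (nat_lit 94536) (.g (nat_lit 2319) (.e (nat_lit 2612) (nat_lit 163) (.e (nat_lit 163978) (nat_lit 30) (.e (nat_lit 573489) (nat_lit 14) (.e (nat_lit 73753) (nat_lit 8) .nil)))) .nil)) 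
(.lf (nat_lit 94568) (.g (nat_lit 3208) (.e (nat_lit 2612) (nat_lit 163) (.e (nat_lit 163979) (nat_lit 30) (.e (nat_lit 573493) (nat_lit 15) (.e (nat_lit 81953) (nat_lit 22) (.e (nat_lit 90166) (nat_lit 13) .nil))))) .nil))) (.nd (nat_lit 5) 
(.lf (nat_lit 94552) (.g (nat_lit 2884) (.e (nat_lit 2612) (nat_lit 163) (.e (nat_lit 163979) (nat_lit 30) (.e (nat_lit 573489) (nat_lit 14) (.e (nat_lit 73755) (nat_lit 8) (.e (nat_lit 557096) (nat_lit 13) .nil))))) .nil)) 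
(.lf (nat_lit 94584) (.g (nat_lit 4217) (.e (nat_lit 2612) (nat_lit 163) (.e (nat_lit 164022) (nat_lit 46) (.e (nat_lit 704738) (nat_lit 11) (.e (nat_lit 16425) (nat_lit 7) (.e (nat_lit 409648) (nat_lit 18) (.e (nat_lit 303137) (nat_lit 10) (.e (nat_lit 434200) (nat_lit 18) (.e (nat_lit 5811) (nat_lit 320) .nil)))))))) (.g (nat_lit 5) .nil .nil)))))) 
(.nd (nat_lit 3) (.nd (nat_lit 4) (.nd (nat_lit 5) 
(.lf (nat_lit 94532) (.g (nat_lit 1088) (.e (nat_lit 2612) (nat_lit 163) (.e (nat_lit 163978) (nat_lit 30) (.e (nat_lit 573479) (nat_lit 13) (.e (nat_lit 65619) (nat_lit 10) .nil)))) .nil)) 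
(.lf (nat_lit 94564) (.g (nat_lit 5149) (.e (nat_lit 2612) (nat_lit 163) (.e (nat_lit 163979) (nat_lit 30) (.e (nat_lit 573492) (nat_lit 15) (.e (nat_lit 81956) (nat_lit 23) (.e (nat_lit 98362) (nat_lit 26) .nil))))) .nil))) (.nd (nat_lit 5) 
(.lf (nat_lit 94548) (.g (nat_lit 2529) (.e (nat_lit 2612) (nat_lit 163) (.e (nat_lit 163979) (nat_lit 30) (.e (nat_lit 573487) (nat_lit 14) (.e (nat_lit 73755) (nat_lit 8) (.e (nat_lit 557098) (nat_lit 13) .nil))))) .nil)) 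
(.lf (nat_lit 94580) (.g (nat_lit 2531) (.e (nat_lit 2612) (nat_lit 163) (.e (nat_lit 164022) (nat_lit 46) (.e (nat_lit 704738) (nat_lit 11) (.e (nat_lit 16425) (nat_lit 7) (.e (nat_lit 409648) (nat_lit 18) (.e (nat_lit 303137) (nat_lit 10) (.e (nat_lit 434199) (nat_lit 18) (.e (nat_lit 5812) (nat_lit 320) .nil)))))))) (.g (nat_lit 4) .nil .nil))))) (.nd (nat_lit 4) (.nd (nat_lit 5) 
(.lf (nat_lit 94540) (.g (nat_lit 2606) (.e (nat_lit 2612) (nat_lit 163) (.e (nat_lit 163978) (nat_lit 30) (.e (nat_lit 573489) (nat_lit 14) (.e (nat_lit 73755) (nat_lit 8) (.e (nat_lit 557096) (nat_lit 13) .nil))))) .nil)) 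
(.lf (nat_lit 94572) (.g (nat_lit 2233) (.e (nat_lit 2612) (nat_lit 163) (.e (nat_lit 163979) (nat_lit 30) (.e (nat_lit 573493) (nat_lit 15) (.e (nat_lit 81956) (nat_lit 23) (.e (nat_lit 98359) (nat_lit 26) .nil))))) .nil))) (.nd (nat_lit 5) 
(.lf (nat_lit 94556) (.g (nat_lit 2173) (.e (nat_lit 2612) (nat_lit 163) (.e (nat_lit 163979) (nat_lit 30) (.e (nat_lit 573491) (nat_lit 15) (.e (nat_lit 81954) (nat_lit 23) (.e (nat_lit 98356) (nat_lit 26) .nil))))) .nil)) 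
(.lf (nat_lit 94588) (.g (nat_lit 2428) (.e (nat_lit 2612) (nat_lit 163) (.e (nat_lit 164022) (nat_lit 46) (.e (nat_lit 704738) (nat_lit 11) (.e (nat_lit 16425) (nat_lit 7) (.e (nat_lit 409648) (nat_lit 18) (.e (nat_lit 303137) (nat_lit 10) (.e (nat_lit 434202) (nat_lit 18) (.e (nat_lit 5811) (nat_lit 320) .nil)))))))) (.g (nat_lit 4) .nil .nil))))))) 
(.nd (nat_lit 2) (.nd (nat_lit 3) (.nd (nat_lit 4) (.nd (nat_lit 5) 
(.lf (nat_lit 94530) (.g (nat_lit 3674) (.e (nat_lit 2612) (nat_lit 163) (.e (nat_lit 163977) (nat_lit 30) (.e (nat_lit 573493) (nat_lit 15) (.e (nat_lit 81956) (nat_lit 23) (.e (nat_lit 106240) (nat_lit 26) .nil))))) .nil)) 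
(.lf (nat_lit 94562) (.g (nat_lit 3843) (.e (nat_lit 2612) (nat_lit 163) (.e (nat_lit 163979) (nat_lit 30) (.e (nat_lit 573492) (nat_lit 15) (.e (nat_lit 81956) (nat_lit 23) (.e (nat_lit 98360) (nat_lit 26) .nil))))) .nil))) (.nd (nat_lit 5) 
(.lf (nat_lit 94546) (.g (nat_lit 2480) (.e (nat_lit 2612) (nat_lit 163) (.e (nat_lit 163978) (nat_lit 30) (.e (nat_lit 573493) (nat_lit 15) (.e (nat_lit 81956) (nat_lit 23) .nil)))) .nil)) 
(.lf (nat_lit 94578) (.g (nat_lit 2315) (.e (nat_lit 2612) (nat_lit 163) (.e (nat_lit 164022) (nat_lit 46) (.e (nat_lit 704738) (nat_lit 11) (.e (nat_lit 16425) (nat_lit 7) (.e (nat_lit 409648) (nat_lit 18) .nil))))) .nil)))) (.nd (nat_lit 4) (.nd (nat_lit 5) 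
(.lf (nat_lit 94538) (.g (nat_lit 2482) (.e (nat_lit 2612) (nat_lit 163) (.e (nat_lit 163978) (nat_lit 30) (.e (nat_lit 573489) (nat_lit 14) (.e (nat_lit 73754) (nat_lit 8) (.e (nat_lit 557100) (nat_lit 13) .nil))))) .nil)) 
(.lf (nat_lit 94570) (.g (nat_lit 3681) (.e (nat_lit 2612) (nat_lit 163) (.e (nat_lit 163979) (nat_lit 30) (.e (nat_lit 573493) (nat_lit 15) (.e (nat_lit 81954) (nat_lit 23) (.e (nat_lit 98362) (nat_lit 26) .nil))))) .nil))) (.nd (nat_lit 5) 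
(.lf (nat_lit 94554) (.g (nat_lit 2983) (.e (nat_lit 2612) (nat_lit 163) (.e (nat_lit 163979) (nat_lit 30) (.e (nat_lit 573489) (nat_lit 14) (.e (nat_lit 73755) (nat_lit 8) (.e (nat_lit 557098) (nat_lit 13) .nil))))) .nil)) 
(.lf (nat_lit 94586) (.g (nat_lit 3009) (.e (nat_lit 2612) (nat_lit 163) (.e (nat_lit 164022) (nat_lit 46) (.e (nat_lit 704738) (nat_lit 11) (.e (nat_lit 16425) (nat_lit 7) (.e (nat_lit 409648) (nat_lit 18) (.e (nat_lit 303137) (nat_lit 10) (.e (nat_lit 434202) (nat_lit 18) (.e (nat_lit 5796) (nat_lit 320) .nil)))))))) (.g (nat_lit 4) .nil .nil)))))) 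
(.nd (nat_lit 3) (.nd (nat_lit 4) (.nd (nat_lit 5) 
(.lf (nat_lit 94534) (.g (nat_lit 801) (.e (nat_lit 2612) (nat_lit 163) (.e (nat_lit 163978) (nat_lit 30) (.e (nat_lit 573487) (nat_lit 14) .nil))) .nil)) 
(.lf (nat_lit 94566) (.g (nat_lit 3787) (.e (nat_lit 2612) (nat_lit 163) (.e (nat_lit 163979) (nat_lit 30) (.e (nat_lit 573493) (nat_lit 15) (.e (nat_lit 81951) (nat_lit 22) (.e (nat_lit 90167) (nat_lit 13) .nil))))) .nil))) (.nd (nat_lit 5) 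
(.lf (nat_lit 94550) (.g (nat_lit 1980) (.e (nat_lit 2612) (nat_lit 163) (.e (nat_lit 163979) (nat_lit 30) (.e (nat_lit 573489) (nat_lit 14) (.e (nat_lit 73753) (nat_lit 8) .nil)))) .nil)) 
(.lf (nat_lit 94582) (.g (nat_lit 3970) (.e (nat_lit 2612) (nat_lit 163) (.e (nat_lit 164022) (nat_lit 46) (.e (nat_lit 704738) (nat_lit 11) (.e (nat_lit 16425) (nat_lit 7) (.e (nat_lit 409648) (nat_lit 18) (.e (nat_lit 303137) (nat_lit 10) (.e (nat_lit 434200) (nat_lit 18) (.e (nat_lit 5799) (nat_lit 320) .nil)))))))) (.g (nat_lit 5) .nil .nil))))) (.nd (nat_lit 4) (.nd (nat_lit 5) 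
(.lf (nat_lit 94542) (.g (nat_lit 2575) (.e (nat_lit 2612) (nat_lit 163) (.e (nat_lit 163978) (nat_lit 30) (.e (nat_lit 573489) (nat_lit 14) (.e (nat_lit 73755) (nat_lit 8) (.e (nat_lit 557098) (nat_lit 13) .nil))))) .nil)) 
(.lf (nat_lit 94574) (.g (nat_lit 3879) (.e (nat_lit 2612) (nat_lit 163) (.e (nat_lit 163979) (nat_lit 30) (.e (nat_lit 573493) (nat_lit 15) (.e (nat_lit 81956) (nat_lit 23) (.e (nat_lit 98361) (nat_lit 26) .nil))))) .nil))) (.nd (nat_lit 5) 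
(.lf (nat_lit 94558) (.g (nat_lit 2428) (.e (nat_lit 2612) (nat_lit 163) (.e (nat_lit 163979) (nat_lit 30) (.e (nat_lit 573491) (nat_lit 15) (.e (nat_lit 81956) (nat_lit 23) (.e (nat_lit 98359) (nat_lit 26) .nil))))) .nil)) 
(.lf (nat_lit 94590) (.g (nat_lit 2522) (.e (nat_lit 2612) (nat_lit 163) (.e (nat_lit 164022) (nat_lit 46) (.e (nat_lit 704738) (nat_lit 11) (.e (nat_lit 16425) (nat_lit 7) (.e (nat_lit 409648) (nat_lit 18) (.e (nat_lit 303138) (nat_lit 10) (.e (nat_lit 434203) (nat_lit 18) (.e (nat_lit 5796) (nat_lit 320) .nil)))))))) (.g (nat_lit 4) .nil .nil)))))))) 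
(.nd (nat_lit 1) (.nd (nat_lit 2) (.nd (nat_lit 3) (.nd (nat_lit 4) (.nd (nat_lit 5) 
(.lf (nat_lit 94529) (.g (nat_lit 4078) (.e (nat_lit 2612) (nat_lit 163) (.e (nat_lit 163977) (nat_lit 30) (.e (nat_lit 573493) (nat_lit 15) (.e (nat_lit 81956) (nat_lit 23) (.e (nat_lit 98361) (nat_lit 26) .nil))))) .nil)) 
(.lf (nat_lit 94561) (.g (nat_lit 2390) (.e (nat_lit 2612) (nat_lit 163) (.e (nat_lit 163979) (nat_lit 30) (.e (nat_lit 573492) (nat_lit 15) (.e (nat_lit 81956) (nat_lit 23) (.e (nat_lit 98357) (nat_lit 26) .nil))))) .nil))) (.nd (nat_lit 5) 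
(.lf (nat_lit 94545) (.g (nat_lit 3227) (.e (nat_lit 2612) (nat_lit 163) (.e (nat_lit 163978) (nat_lit 30) (.e (nat_lit 573490) (nat_lit 15) (.e (nat_lit 81953) (nat_lit 22) (.e (nat_lit 90172) (nat_lit 14) .nil))))) .nil)) 
(.lf (nat_lit 94577) (.g (nat_lit 1480) (.e (nat_lit 2612) (nat_lit 163) (.e (nat_lit 164022) (nat_lit 46) (.e (nat_lit 704738) (nat_lit 11) (.e (nat_lit 16425) (nat_lit 7) .nil)))) .nil)))) (.nd (nat_lit 4) (.nd (nat_lit 5) 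
(.lf (nat_lit 94537) (.g (nat_lit 2863) (.e (nat_lit 2612) (nat_lit 163) (.e (nat_lit 163978) (nat_lit 30) (.e (nat_lit 573489) (nat_lit 14) (.e (nat_lit 73754) (nat_lit 8) (.e (nat_lit 557098) (nat_lit 13) .nil))))) .nil)) 
(.lf (nat_lit 94569) (.g (nat_lit 3656) (.e (nat_lit 2612) (nat_lit 163) (.e (nat_lit 163979) (nat_lit 30) (.e (nat_lit 573493) (nat_lit 15) (.e (nat_lit 81954) (nat_lit 23) (.e (nat_lit 98360) (nat_lit 26) .nil))))) .nil))) (.nd (nat_lit 5) 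
(.lf (nat_lit 94553) (.g (nat_lit 2352) (.e (nat_lit 2612) (nat_lit 163) (.e (nat_lit 163979) (nat_lit 30) (.e (nat_lit 573489) (nat_lit 14) (.e (nat_lit 73755) (nat_lit 8) (.e (nat_lit 557097) (nat_lit 13) .nil))))) .nil)) 
(.lf (nat_lit 94585) (.g (nat_lit 4358) (.e (nat_lit 2612) (nat_lit 163) (.e (nat_lit 164022) (nat_lit 46) (.e (nat_lit 704738) (nat_lit 11) (.e (nat_lit 16425) (nat_lit 7) (.e (nat_lit 409648) (nat_lit 18) (.e (nat_lit 303137) (nat_lit 10) (.e (nat_lit 434200) (nat_lit 18) (.e (nat_lit 5812) (nat_lit 320) .nil)))))))) (.g (nat_lit 6) .nil .nil)))))) 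
(.nd (nat_lit 3) (.nd (nat_lit 4) (.nd (nat_lit 5) 
(.lf (nat_lit 94533) (.g (nat_lit 2556) (.e (nat_lit 2612) (nat_lit 163) (.e (nat_lit 163978) (nat_lit 30) (.e (nat_lit 573484) (nat_lit 13) (.e (nat_lit 65619) (nat_lit 10) .nil)))) .nil)) 
(.lf (nat_lit 94565) (.g (nat_lit 3485) (.e (nat_lit 2612) (nat_lit 163) (.e (nat_lit 163979) (nat_lit 30) (.e (nat_lit 573492) (nat_lit 15) (.e (nat_lit 81956) (nat_lit 23) (.e (nat_lit 106240) (nat_lit 26) .nil))))) .nil))) (.nd (nat_lit 5) 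
(.lf (nat_lit 94549) (.g (nat_lit 2461) (.e (nat_lit 2612) (nat_lit 163) (.e (nat_lit 163979) (nat_lit 30) (.e (nat_lit 573488) (nat_lit 14) (.e (nat_lit 73755) (nat_lit 8) (.e (nat_lit 557097) (nat_lit 13) .nil))))) .nil)) 
(.lf (nat_lit 94581) (.g (nat_lit 3634) (.e (nat_lit 2612) (nat_lit 163) (.e (nat_lit 164022) (nat_lit 46) (.e (nat_lit 704738) (nat_lit 11) (.e (nat_lit 16425) (nat_lit 7) (.e (nat_lit 409648) (nat_lit 18) (.e (nat_lit 303137) (nat_lit 10) (.e (nat_lit 434200) (nat_lit 18) (.e (nat_lit 5797) (nat_lit 320) .nil)))))))) (.g (nat_lit 5) .nil .nil))))) (.nd (nat_lit 4) (.nd (nat_lit 5) 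
(.lf (nat_lit 94541) (.g (nat_lit 3092) (.e (nat_lit 2612) (nat_lit 163) (.e (nat_lit 163978) (nat_lit 30) (.e (nat_lit 573489) (nat_lit 14) (.e (nat_lit 73755) (nat_lit 8) (.e (nat_lit 557097) (nat_lit 13) .nil))))) .nil)) 
(.lf (nat_lit 94573) (.g (nat_lit 2939) (.e (nat_lit 2612) (nat_lit 163) (.e (nat_lit 163979) (nat_lit 30) (.e (nat_lit 573493) (nat_lit 15) (.e (nat_lit 81956) (nat_lit 23) (.e (nat_lit 98360) (nat_lit 26) .nil))))) .nil))) (.nd (nat_lit 5) 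
(.lf (nat_lit 94557) (.g (nat_lit 2504) (.e (nat_lit 2612) (nat_lit 163) (.e (nat_lit 163979) (nat_lit 30) (.e (nat_lit 573491) (nat_lit 15) (.e (nat_lit 81954) (nat_lit 23) (.e (nat_lit 98368) (nat_lit 27) .nil))))) .nil)) 
(.lf (nat_lit 94589) (.g (nat_lit 2399) (.e (nat_lit 2612) (nat_lit 163) (.e (nat_lit 164022) (nat_lit 46) (.e (nat_lit 704738) (nat_lit 11) (.e (nat_lit 16425) (nat_lit 7) (.e (nat_lit 409648) (nat_lit 18) (.e (nat_lit 303137) (nat_lit 10) (.e (nat_lit 434203) (nat_lit 18) (.e (nat_lit 5799) (nat_lit 320) .nil)))))))) (.g (nat_lit 4) .nil .nil))))))) 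
(.nd (nat_lit 2) (.nd (nat_lit 3) (.nd (nat_lit 4) (.nd (nat_lit 5) 
(.lf (nat_lit 94531) (.g (nat_lit 1923) (.e (nat_lit 2612) (nat_lit 163) (.e (nat_lit 163978) (nat_lit 30) (.e (nat_lit 573479) (nat_lit 13) (.e (nat_lit 65604) (nat_lit 9) (.e (nat_lit 336013) (nat_lit 2) .nil))))) .nil)) 
(.lf (nat_lit 94563) (.g (nat_lit 5286) (.e (nat_lit 2612) (nat_lit 163) (.e (nat_lit 163979) (nat_lit 30) (.e (nat_lit 573492) (nat_lit 15) (.e (nat_lit 81956) (nat_lit 23) (.e (nat_lit 98361) (nat_lit 26) .nil))))) .nil))) (.nd (nat_lit 5) 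
(.lf (nat_lit 94547) (.g (nat_lit 2006) (.e (nat_lit 2612) (nat_lit 163) (.e (nat_lit 163979) (nat_lit 30) (.e (nat_lit 573482) (nat_lit 13) (.e (nat_lit 65607) (nat_lit 9) .nil)))) .nil)) 
(.lf (nat_lit 94579) (.g (nat_lit 2462) (.e (nat_lit 2612) (nat_lit 163) (.e (nat_lit 164022) (nat_lit 46) (.e (nat_lit 704738) (nat_lit 11) (.e (nat_lit 16425) (nat_lit 7) (.e (nat_lit 409648) (nat_lit 18) (.e (nat_lit 303137) (nat_lit 10) (.e (nat_lit 434199) (nat_lit 18) (.e (nat_lit 5811) (nat_lit 320) .nil)))))))) (.g (nat_lit 4) .nil .nil))))) (.nd (nat_lit 4) (.nd (nat_lit 5) 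
(.lf (nat_lit 94539) (.g (nat_lit 2248) (.e (nat_lit 2612) (nat_lit 163) (.e (nat_lit 163978) (nat_lit 30) (.e (nat_lit 573489) (nat_lit 14) (.e (nat_lit 73754) (nat_lit 8) (.e (nat_lit 557101) (nat_lit 13) .nil))))) .nil)) 
(.lf (nat_lit 94571) (.g (nat_lit 3723) (.e (nat_lit 2612) (nat_lit 163) (.e (nat_lit 163979) (nat_lit 30) (.e (nat_lit 573493) (nat_lit 15) (.e (nat_lit 81954) (nat_lit 23) (.e (nat_lit 98365) (nat_lit 26) .nil))))) .nil))) (.nd (nat_lit 5) 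
(.lf (nat_lit 94555) (.g (nat_lit 2808) (.e (nat_lit 2612) (nat_lit 163) (.e (nat_lit 163979) (nat_lit 30) (.e (nat_lit 573491) (nat_lit 15) (.e (nat_lit 81951) (nat_lit 22) (.e (nat_lit 90167) (nat_lit 13) .nil))))) .nil)) 
(.lf (nat_lit 94587) (.g (nat_lit 2985) (.e (nat_lit 2612) (nat_lit 163) (.e (nat_lit 164022) (nat_lit 46) (.e (nat_lit 704738) (nat_lit 11) (.e (nat_lit 16425) (nat_lit 7) (.e (nat_lit 409648) (nat_lit 18) (.e (nat_lit 303137) (nat_lit 10) (.e (nat_lit 434202) (nat_lit 18) (.e (nat_lit 5799) (nat_lit 320) .nil)))))))) (.g (nat_lit 4) .nil .nil)))))) 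
(.nd (nat_lit 3) (.nd (nat_lit 4) (.nd (nat_lit 5) 
(.lf (nat_lit 94535) (.g (nat_lit 2463) (.e (nat_lit 2612) (nat_lit 163) (.e (nat_lit 163978) (nat_lit 30) (.e (nat_lit 573487) (nat_lit 14) (.e (nat_lit 73755) (nat_lit 8) .nil)))) .nil)) 
(.lf (nat_lit 94567) (.g (nat_lit 3337) (.e (nat_lit 2612) (nat_lit 163) (.e (nat_lit 163979) (nat_lit 30) (.e (nat_lit 573493) (nat_lit 15) (.e (nat_lit 81951) (nat_lit 22) (.e (nat_lit 90170) (nat_lit 13) .nil))))) .nil))) (.nd (nat_lit 5) 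
(.lf (nat_lit 94551) (.g (nat_lit 2848) (.e (nat_lit 2612) (nat_lit 163) (.e (nat_lit 163979) (nat_lit 30) (.e (nat_lit 573489) (nat_lit 14) (.e (nat_lit 73754) (nat_lit 8) (.e (nat_lit 557095) (nat_lit 13) .nil))))) .nil)) 
(.lf (nat_lit 94583) (.g (nat_lit 3859) (.e (nat_lit 2612) (nat_lit 163) (.e (nat_lit 164022) (nat_lit 46) (.e (nat_lit 704738) (nat_lit 11) (.e (nat_lit 16425) (nat_lit 7) (.e (nat_lit 409648) (nat_lit 18) (.e (nat_lit 303137) (nat_lit 10) (.e (nat_lit 434200) (nat_lit 18) (.e (nat_lit 5800) (nat_lit 320) .nil)))))))) (.g (nat_lit 5) .nil .nil))))) (.nd (nat_lit 4) (.nd (nat_lit 5) 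
(.lf (nat_lit 94543) (.g (nat_lit 3154) (.e (nat_lit 2612) (nat_lit 163) (.e (nat_lit 163978) (nat_lit 30) (.e (nat_lit 573489) (nat_lit 14) (.e (nat_lit 73755) (nat_lit 8) (.e (nat_lit 557104) (nat_lit 14) .nil))))) .nil)) 
(.lf (nat_lit 94575) (.g (nat_lit 3056) (.e (nat_lit 2612) (nat_lit 163) (.e (nat_lit 163979) (nat_lit 30) (.e (nat_lit 573493) (nat_lit 15) (.e (nat_lit 81956) (nat_lit 23) (.e (nat_lit 98363) (nat_lit 26) .nil))))) .nil))) (.nd (nat_lit 5) 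
(.lf (nat_lit 94559) (.g (nat_lit 6147) (.e (nat_lit 2612) (nat_lit 163) (.e (nat_lit 163979) (nat_lit 30) (.e (nat_lit 573492) (nat_lit 15) (.e (nat_lit 81953) (nat_lit 22) (.e (nat_lit 90172) (nat_lit 14) .nil))))) .nil)) 
(.lf (nat_lit 94591) (.g (nat_lit 2595) (.e (nat_lit 2612) (nat_lit 163) (.e (nat_lit 164022) (nat_lit 46) (.e (nat_lit 704738) (nat_lit 11) (.e (nat_lit 16425) (nat_lit 7) (.e (nat_lit 409648) (nat_lit 18) (.e (nat_lit 303138) (nat_lit 10) (.e (nat_lit 434203) (nat_lit 18) (.e (nat_lit 5811) (nat_lit 320) .nil)))))))) (.g (nat_lit 4) .nil .nil)))))))))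

noncomputable def tv1300 : DT := (.nd (nat_lit 0) (.nd (nat_lit 1) (.nd (nat_lit 2) (.nd (nat_lit 3) (.nd (nat_lit 4) (.nd (nat_lit 5) 
(.lf (nat_lit 94592) (.g (nat_lit 2212) (.e (nat_lit 2612) (nat_lit 163) (.e (nat_lit 164022) (nat_lit 46) (.e (nat_lit 704738) (nat_lit 11) (.e (nat_lit 16425) (nat_lit 7) (.e (nat_lit 409649) (nat_lit 18) .nil))))) .nil)) 
(.lf (nat_lit 94624) (.g (nat_lit 2968) (.e (nat_lit 2612) (nat_lit 163) (.e (nat_lit 164023) (nat_lit 46) (.e (nat_lit 704738) (nat_lit 11) (.e (nat_lit 16425) (nat_lit 7) (.e (nat_lit 409648) (nat_lit 18) (.e (nat_lit 303137) (nat_lit 10) (.e (nat_lit 434202) (nat_lit 18) (.e (nat_lit 5799) (nat_lit 320) .nil)))))))) (.g (nat_lit 4) .nil .nil)))) (.nd (nat_lit 5) 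
(.lf (nat_lit 94608) (.g (nat_lit 4447) (.e (nat_lit 2612) (nat_lit 163) (.e (nat_lit 164022) (nat_lit 46) (.e (nat_lit 704738) (nat_lit 11) (.e (nat_lit 16425) (nat_lit 7) (.e (nat_lit 409649) (nat_lit 18) (.e (nat_lit 303140) (nat_lit 10) (.e (nat_lit 434202) (nat_lit 18) (.e (nat_lit 5800) (nat_lit 320) .nil)))))))) (.g (nat_lit 7) .nil .nil))) 
(.lf (nat_lit 94640) (.g (nat_lit 4353) (.e (nat_lit 2612) (nat_lit 163) (.e (nat_lit 164023) (nat_lit 46) (.e (nat_lit 704738) (nat_lit 11) (.e (nat_lit 16425) (nat_lit 7) (.e (nat_lit 409649) (nat_lit 18) (.e (nat_lit 303140) (nat_lit 10) (.e (nat_lit 434200) (nat_lit 18) (.e (nat_lit 5812) (nat_lit 320) .nil)))))))) (.g (nat_lit 6) .nil .nil))))) (.nd (nat_lit 4) (.nd (nat_lit 5) 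
(.lf (nat_lit 94600) (.g (nat_lit 3297) (.e (nat_lit 2612) (nat_lit 163) (.e (nat_lit 164022) (nat_lit 46) (.e (nat_lit 704738) (nat_lit 11) (.e (nat_lit 16425) (nat_lit 7) (.e (nat_lit 409649) (nat_lit 18) (.e (nat_lit 303140) (nat_lit 10) (.e (nat_lit 434200) (nat_lit 18) (.e (nat_lit 5796) (nat_lit 320) .nil)))))))) (.g (nat_lit 5) .nil .nil))) 
(.lf (nat_lit 94632) (.g (nat_lit 2646) (.e (nat_lit 2612) (nat_lit 163) (.e (nat_lit 164023) (nat_lit 46) (.e (nat_lit 704738) (nat_lit 11) (.e (nat_lit 16425) (nat_lit 7) (.e (nat_lit 409649) (nat_lit 18) (.e (nat_lit 303140) (nat_lit 10) (.e (nat_lit 434199) (nat_lit 18) (.e (nat_lit 5800) (nat_lit 320) .nil)))))))) (.g (nat_lit 4) .nil .nil)))) (.nd (nat_lit 5) 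
(.lf (nat_lit 94616) (.g (nat_lit 2288) (.e (nat_lit 2612) (nat_lit 163) (.e (nat_lit 164023) (nat_lit 46) (.e (nat_lit 704738) (nat_lit 11) (.e (nat_lit 16425) (nat_lit 7) (.e (nat_lit 409648) (nat_lit 18) .nil))))) .nil)) 
(.lf (nat_lit 94648) (.g (nat_lit 4109) (.e (nat_lit 2612) (nat_lit 163) (.e (nat_lit 164149) (nat_lit 152) (.e (nat_lit 1217) (nat_lit 90) (.e (nat_lit 81925) (nat_lit 11) (.e (nat_lit 426182) (nat_lit 8) (.e (nat_lit 417820) (nat_lit 10) (.e (nat_lit 5626) (nat_lit 312) .nil))))))) (.g (nat_lit 0) .nil .nil)))))) (.nd (nat_lit 3) (.nd (nat_lit 4) (.nd (nat_lit 5) 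
(.lf (nat_lit 94596) (.g (nat_lit 2795) (.e (nat_lit 2612) (nat_lit 163) (.e (nat_lit 164022) (nat_lit 46) (.e (nat_lit 704738) (nat_lit 11) (.e (nat_lit 16425) (nat_lit 7) (.e (nat_lit 409649) (nat_lit 18) (.e (nat_lit 303140) (nat_lit 10) (.e (nat_lit 434199) (nat_lit 18) (.e (nat_lit 5799) (nat_lit 320) .nil)))))))) (.g (nat_lit 4) .nil .nil))) 
(.lf (nat_lit 94628) (.g (nat_lit 2035) (.e (nat_lit 2612) (nat_lit 163) (.e (nat_lit 164023) (nat_lit 46) (.e (nat_lit 704738) (nat_lit 11) (.e (nat_lit 16425) (nat_lit 7) (.e (nat_lit 409649) (nat_lit 18) .nil))))) .nil))) (.nd (nat_lit 5) 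
(.lf (nat_lit 94612) (.g (nat_lit 2343) (.e (nat_lit 2612) (nat_lit 163) (.e (nat_lit 164022) (nat_lit 46) (.e (nat_lit 704738) (nat_lit 11) (.e (nat_lit 16425) (nat_lit 7) (.e (nat_lit 409649) (nat_lit 18) (.e (nat_lit 303140) (nat_lit 10) (.e (nat_lit 434204) (nat_lit 18) (.e (nat_lit 5812) (nat_lit 320) .nil)))))))) (.g (nat_lit 4) .nil .nil))) 
(.lf (nat_lit 94644) (.g (nat_lit 4497) (.e (nat_lit 2612) (nat_lit 163) (.e (nat_lit 164023) (nat_lit 46) (.e (nat_lit 704738) (nat_lit 11) (.e (nat_lit 16425) (nat_lit 7) (.e (nat_lit 409649) (nat_lit 18) (.e (nat_lit 303140) (nat_lit 10) (.e (nat_lit 434202) (nat_lit 18) (.e (nat_lit 5811) (nat_lit 320) .nil)))))))) (.g (nat_lit 7) .nil .nil))))) (.nd (nat_lit 4) (.nd (nat_lit 5) 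
(.lf (nat_lit 94604) (.g (nat_lit 4325) (.e (nat_lit 2612) (nat_lit 163) (.e (nat_lit 164022) (nat_lit 46) (.e (nat_lit 704738) (nat_lit 11) (.e (nat_lit 16425) (nat_lit 7) (.e (nat_lit 409649) (nat_lit 18) (.e (nat_lit 303140) (nat_lit 10) (.e (nat_lit 434200) (nat_lit 18) (.e (nat_lit 5811) (nat_lit 320) .nil)))))))) (.g (nat_lit 6) .nil .nil))) 
(.lf (nat_lit 94636) (.g (nat_lit 3651) (.e (nat_lit 2612) (nat_lit 163) (.e (nat_lit 164023) (nat_lit 46) (.e (nat_lit 704738) (nat_lit 11) (.e (nat_lit 16425) (nat_lit 7) (.e (nat_lit 409649) (nat_lit 18) (.e (nat_lit 303140) (nat_lit 10) (.e (nat_lit 434200) (nat_lit 18) (.e (nat_lit 5797) (nat_lit 320) .nil)))))))) (.g (nat_lit 6) .nil .nil)))) (.nd (nat_lit 5) 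
(.lf (nat_lit 94620) (.g (nat_lit 3766) (.e (nat_lit 2612) (nat_lit 163) (.e (nat_lit 164023) (nat_lit 46) (.e (nat_lit 704738) (nat_lit 11) (.e (nat_lit 16425) (nat_lit 7) (.e (nat_lit 409648) (nat_lit 18) (.e (nat_lit 303137) (nat_lit 10) (.e (nat_lit 434200) (nat_lit 18) (.e (nat_lit 5800) (nat_lit 320) .nil)))))))) (.g (nat_lit 5) .nil .nil))) 
(.lf (nat_lit 94652) (.g (nat_lit 3564) (.e (nat_lit 2612) (nat_lit 163) (.e (nat_lit 164178) (nat_lit 154) (.e (nat_lit 57432) (nat_lit 16) (.e (nat_lit 368676) (nat_lit 21) (.e (nat_lit 516176) (nat_lit 14) (.e (nat_lit 466967) (nat_lit 20) (.e (nat_lit 3304) (nat_lit 202) (.e (nat_lit 581376) (nat_lit 0) .nil)))))))) (.g (nat_lit 7) .nil .nil))))))) 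
(.nd (nat_lit 2) (.nd (nat_lit 3) (.nd (nat_lit 4) (.nd (nat_lit 5) 
(.lf (nat_lit 94594) (.g (nat_lit 2396) (.e (nat_lit 2612) (nat_lit 163) (.e (nat_lit 164022) (nat_lit 46) (.e (nat_lit 704738) (nat_lit 11) (.e (nat_lit 16425) (nat_lit 7) (.e (nat_lit 409649) (nat_lit 18) (.e (nat_lit 303140) (nat_lit 10) (.e (nat_lit 434199) (nat_lit 18) (.e (nat_lit 5796) (nat_lit 320) .nil)))))))) (.g (nat_lit 4) .nil .nil))) 
(.lf (nat_lit 94626) (.g (nat_lit 3138) (.e (nat_lit 2612) (nat_lit 163) (.e (nat_lit 164023) (nat_lit 46) (.e (nat_lit 704738) (nat_lit 11) (.e (nat_lit 16425) (nat_lit 7) (.e (nat_lit 409648) (nat_lit 18) (.e (nat_lit 303138) (nat_lit 10) (.e (nat_lit 434203) (nat_lit 18) (.e (nat_lit 5799) (nat_lit 320) .nil)))))))) (.g (nat_lit 4) .nil .nil)))) (.nd (nat_lit 5) 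
(.lf (nat_lit 94610) (.g (nat_lit 2282) (.e (nat_lit 2612) (nat_lit 163) (.e (nat_lit 164022) (nat_lit 46) (.e (nat_lit 704738) (nat_lit 11) (.e (nat_lit 16425) (nat_lit 7) (.e (nat_lit 409649) (nat_lit 18) (.e (nat_lit 303140) (nat_lit 10) (.e (nat_lit 434204) (nat_lit 18) (.e (nat_lit 5799) (nat_lit 320) .nil)))))))) (.g (nat_lit 4) .nil .nil))) 
(.lf (nat_lit 94642) (.g (nat_lit 5115) (.e (nat_lit 2612) (nat_lit 163) (.e (nat_lit 164023) (nat_lit 46) (.e (nat_lit 704738) (nat_lit 11) (.e (nat_lit 16425) (nat_lit 7) (.e (nat_lit 409649) (nat_lit 18) (.e (nat_lit 303140) (nat_lit 10) (.e (nat_lit 434202) (nat_lit 18) (.e (nat_lit 5799) (nat_lit 320) .nil)))))))) (.g (nat_lit 8) .nil .nil))))) (.nd (nat_lit 4) (.nd (nat_lit 5) 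
(.lf (nat_lit 94602) (.g (nat_lit 4078) (.e (nat_lit 2612) (nat_lit 163) (.e (nat_lit 164022) (nat_lit 46) (.e (nat_lit 704738) (nat_lit 11) (.e (nat_lit 16425) (nat_lit 7) (.e (nat_lit 409649) (nat_lit 18) (.e (nat_lit 303140) (nat_lit 10) (.e (nat_lit 434200) (nat_lit 18) (.e (nat_lit 5799) (nat_lit 320) .nil)))))))) (.g (nat_lit 6) .nil .nil))) 
(.lf (nat_lit 94634) (.g (nat_lit 3123) (.e (nat_lit 2612) (nat_lit 163) (.e (nat_lit 164023) (nat_lit 46) (.e (nat_lit 704738) (nat_lit 11) (.e (nat_lit 16425) (nat_lit 7) (.e (nat_lit 409649) (nat_lit 18) (.e (nat_lit 303140) (nat_lit 10) (.e (nat_lit 434199) (nat_lit 18) (.e (nat_lit 5812) (nat_lit 320) .nil)))))))) (.g (nat_lit 5) .nil .nil)))) (.nd (nat_lit 5) 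
(.lf (nat_lit 94618) (.g (nat_lit 3140) (.e (nat_lit 2612) (nat_lit 163) (.e (nat_lit 164023) (nat_lit 46) (.e (nat_lit 704738) (nat_lit 11) (.e (nat_lit 16425) (nat_lit 7) (.e (nat_lit 409648) (nat_lit 18) (.e (nat_lit 303137) (nat_lit 10) (.e (nat_lit 434200) (nat_lit 18) (.e (nat_lit 5796) (nat_lit 320) .nil)))))))) (.g (nat_lit 4) .nil .nil))) 
(.lf (nat_lit 94650) (.g (nat_lit 3012) (.e (nat_lit 2612) (nat_lit 163) (.e (nat_lit 164177) (nat_lit 154) (.e (nat_lit 57437) (nat_lit 17) (.e (nat_lit 376842) (nat_lit 11) (.e (nat_lit 426182) (nat_lit 8) (.e (nat_lit 417820) (nat_lit 10) (.e (nat_lit 5626) (nat_lit 312) .nil))))))) (.g (nat_lit 4) .nil .nil)))))) (.nd (nat_lit 3) (.nd (nat_lit 4) (.nd (nat_lit 5) 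
(.lf (nat_lit 94598) (.g (nat_lit 3148) (.e (nat_lit 2612) (nat_lit 163) (.e (nat_lit 164022) (nat_lit 46) (.e (nat_lit 704738) (nat_lit 11) (.e (nat_lit 16425) (nat_lit 7) (.e (nat_lit 409649) (nat_lit 18) (.e (nat_lit 303140) (nat_lit 10) (.e (nat_lit 434199) (nat_lit 18) (.e (nat_lit 5811) (nat_lit 320) .nil)))))))) (.g (nat_lit 5) .nil .nil))) 
(.lf (nat_lit 94630) (.g (nat_lit 2878) (.e (nat_lit 2612) (nat_lit 163) (.e (nat_lit 164023) (nat_lit 46) (.e (nat_lit 704738) (nat_lit 11) (.e (nat_lit 16425) (nat_lit 7) (.e (nat_lit 409649) (nat_lit 18) (.e (nat_lit 303140) (nat_lit 10) (.e (nat_lit 434199) (nat_lit 18) (.e (nat_lit 5797) (nat_lit 320) .nil)))))))) (.g (nat_lit 4) .nil .nil)))) (.nd (nat_lit 5) 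
(.lf (nat_lit 94614) (.g (nat_lit 2115) (.e (nat_lit 2612) (nat_lit 163) (.e (nat_lit 164023) (nat_lit 46) (.e (nat_lit 704738) (nat_lit 11) (.e (nat_lit 16424) (nat_lit 7) .nil)))) .nil)) 
(.lf (nat_lit 94646) (.g (nat_lit 1867) (.e (nat_lit 2612) (nat_lit 163) (.e (nat_lit 164147) (nat_lit 152) (.e (nat_lit 1221) (nat_lit 90) (.e (nat_lit 81965) (nat_lit 26) (.e (nat_lit 147492) (nat_lit 11) (.e (nat_lit 24580) (nat_lit 0) (.e (nat_lit 6619) (nat_lit 357) .nil))))))) (.g (nat_lit 4) .nil .nil))))) (.nd (nat_lit 4) (.nd (nat_lit 5) 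
(.lf (nat_lit 94606) (.g (nat_lit 4500) (.e (nat_lit 2612) (nat_lit 163) (.e (nat_lit 164022) (nat_lit 46) (.e (nat_lit 704738) (nat_lit 11) (.e (nat_lit 16425) (nat_lit 7) (.e (nat_lit 409649) (nat_lit 18) (.e (nat_lit 303140) (nat_lit 10) (.e (nat_lit 434202) (nat_lit 18) (.e (nat_lit 5797) (nat_lit 320) .nil)))))))) (.g (nat_lit 7) .nil .nil))) 
(.lf (nat_lit 94638) (.g (nat_lit 3860) (.e (nat_lit 2612) (nat_lit 163) (.e (nat_lit 164023) (nat_lit 46) (.e (nat_lit 704738) (nat_lit 11) (.e (nat_lit 16425) (nat_lit 7) (.e (nat_lit 409649) (nat_lit 18) (.e (nat_lit 303140) (nat_lit 10) (.e (nat_lit 434200) (nat_lit 18) (.e (nat_lit 5800) (nat_lit 320) .nil)))))))) (.g (nat_lit 6) .nil .nil)))) (.nd (nat_lit 5) 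
(.lf (nat_lit 94622) (.g (nat_lit 4278) (.e (nat_lit 2612) (nat_lit 163) (.e (nat_lit 164023) (nat_lit 46) (.e (nat_lit 704738) (nat_lit 11) (.e (nat_lit 16425) (nat_lit 7) (.e (nat_lit 409648) (nat_lit 18) (.e (nat_lit 303137) (nat_lit 10) (.e (nat_lit 434200) (nat_lit 18) (.e (nat_lit 5812) (nat_lit 320) .nil)))))))) (.g (nat_lit 5) .nil .nil))) 
(.lf (nat_lit 94654) (.g (nat_lit 1690) (.e (nat_lit 2612) (nat_lit 163) (.e (nat_lit 164179) (nat_lit 154) (.e (nat_lit 57432) (nat_lit 16) (.e (nat_lit 368676) (nat_lit 21) (.e (nat_lit 516174) (nat_lit 14) (.e (nat_lit 466967) (nat_lit 20) (.e (nat_lit 3304) (nat_lit 202) (.e (nat_lit 581376) (nat_lit 0) .nil)))))))) (.g (nat_lit 4) .nil .nil)))))))) 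
(.nd (nat_lit 1) (.nd (nat_lit 2) (.nd (nat_lit 3) (.nd (nat_lit 4) (.nd (nat_lit 5) 
(.lf (nat_lit 94593) (.g (nat_lit 3156) (.e (nat_lit 2612) (nat_lit 163) (.e (nat_lit 164022) (nat_lit 46) (.e (nat_lit 704738) (nat_lit 11) (.e (nat_lit 16425) (nat_lit 7) (.e (nat_lit 409649) (nat_lit 18) (.e (nat_lit 303132) (nat_lit 9) (.e (nat_lit 426109) (nat_lit 1) (.e (nat_lit 164378) (nat_lit 254) .nil)))))))) (.g (nat_lit 5) .nil .nil))) 
(.lf (nat_lit 94625) (.g (nat_lit 2473) (.e (nat_lit 2612) (nat_lit 163) (.e (nat_lit 164023) (nat_lit 46) (.e (nat_lit 704738) (nat_lit 11) (.e (nat_lit 16425) (nat_lit 7) (.e (nat_lit 409648) (nat_lit 18) (.e (nat_lit 303138) (nat_lit 10) (.e (nat_lit 434203) (nat_lit 18) (.e (nat_lit 5796) (nat_lit 320) .nil)))))))) (.g (nat_lit 4) .nil .nil)))) (.nd (nat_lit 5) 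
(.lf (nat_lit 94609) (.g (nat_lit 4604) (.e (nat_lit 2612) (nat_lit 163) (.e (nat_lit 164022) (nat_lit 46) (.e (nat_lit 704738) (nat_lit 11) (.e (nat_lit 16425) (nat_lit 7) (.e (nat_lit 409649) (nat_lit 18) (.e (nat_lit 303140) (nat_lit 10) (.e (nat_lit 434202) (nat_lit 18) (.e (nat_lit 5811) (nat_lit 320) .nil)))))))) (.g (nat_lit 7) .nil .nil))) 
(.lf (nat_lit 94641) (.g (nat_lit 4409) (.e (nat_lit 2612) (nat_lit 163) (.e (nat_lit 164023) (nat_lit 46) (.e (nat_lit 704738) (nat_lit 11) (.e (nat_lit 16425) (nat_lit 7) (.e (nat_lit 409649) (nat_lit 18) (.e (nat_lit 303140) (nat_lit 10) (.e (nat_lit 434202) (nat_lit 18) (.e (nat_lit 5797) (nat_lit 320) .nil)))))))) (.g (nat_lit 7) .nil .nil))))) (.nd (nat_lit 4) (.nd (nat_lit 5) 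
(.lf (nat_lit 94601) (.g (nat_lit 3742) (.e (nat_lit 2612) (nat_lit 163) (.e (nat_lit 164022) (nat_lit 46) (.e (nat_lit 704738) (nat_lit 11) (.e (nat_lit 16425) (nat_lit 7) (.e (nat_lit 409649) (nat_lit 18) (.e (nat_lit 303140) (nat_lit 10) (.e (nat_lit 434200) (nat_lit 18) (.e (nat_lit 5797) (nat_lit 320) .nil)))))))) (.g (nat_lit 6) .nil .nil))) 
(.lf (nat_lit 94633) (.g (nat_lit 3041) (.e (nat_lit 2612) (nat_lit 163) (.e (nat_lit 164023) (nat_lit 46) (.e (nat_lit 704738) (nat_lit 11) (.e (nat_lit 16425) (nat_lit 7) (.e (nat_lit 409649) (nat_lit 18) (.e (nat_lit 303140) (nat_lit 10) (.e (nat_lit 434199) (nat_lit 18) (.e (nat_lit 5811) (nat_lit 320) .nil)))))))) (.g (nat_lit 5) .nil .nil)))) (.nd (nat_lit 5) 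
(.lf (nat_lit 94617) (.g (nat_lit 2451) (.e (nat_lit 2612) (nat_lit 163) (.e (nat_lit 164023) (nat_lit 46) (.e (nat_lit 704738) (nat_lit 11) (.e (nat_lit 16425) (nat_lit 7) (.e (nat_lit 409648) (nat_lit 18) (.e (nat_lit 303137) (nat_lit 10) (.e (nat_lit 434199) (nat_lit 18) (.e (nat_lit 5812) (nat_lit 320) .nil)))))))) (.g (nat_lit 4) .nil .nil))) 
(.lf (nat_lit 94649) (.g (nat_lit 2614) (.e (nat_lit 2612) (nat_lit 163) (.e (nat_lit 164177) (nat_lit 154) (.e (nat_lit 57432) (nat_lit 16) (.e (nat_lit 368676) (nat_lit 21) (.e (nat_lit 516176) (nat_lit 14) (.e (nat_lit 466967) (nat_lit 20) (.e (nat_lit 3304) (nat_lit 202) (.e (nat_lit 581376) (nat_lit 0) .nil)))))))) (.g (nat_lit 5) .nil .nil)))))) 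
(.nd (nat_lit 3) (.nd (nat_lit 4) (.nd (nat_lit 5) 
(.lf (nat_lit 94597) (.g (nat_lit 2753) (.e (nat_lit 2612) (nat_lit 163) (.e (nat_lit 164022) (nat_lit 46) (.e (nat_lit 704738) (nat_lit 11) (.e (nat_lit 16425) (nat_lit 7) (.e (nat_lit 409649) (nat_lit 18) (.e (nat_lit 303140) (nat_lit 10) (.e (nat_lit 434199) (nat_lit 18) (.e (nat_lit 5800) (nat_lit 320) .nil)))))))) (.g (nat_lit 4) .nil .nil))) 
(.lf (nat_lit 94629) (.g (nat_lit 3049) (.e (nat_lit 2612) (nat_lit 163) (.e (nat_lit 164023) (nat_lit 46) (.e (nat_lit 704738) (nat_lit 11) (.e (nat_lit 16425) (nat_lit 7) (.e (nat_lit 409649) (nat_lit 18) (.e (nat_lit 303132) (nat_lit 9) (.e (nat_lit 426109) (nat_lit 1) (.e (nat_lit 164378) (nat_lit 254) .nil)))))))) (.g (nat_lit 5) .nil .nil)))) (.nd (nat_lit 5) 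
(.lf (nat_lit 94613) (.g (nat_lit 3805) (.e (nat_lit 2612) (nat_lit 163) (.e (nat_lit 164022) (nat_lit 46) (.e (nat_lit 704738) (nat_lit 11) (.e (nat_lit 16425) (nat_lit 7) (.e (nat_lit 409649) (nat_lit 18) (.e (nat_lit 303140) (nat_lit 10) (.e (nat_lit 434214) (nat_lit 18) (.e (nat_lit 5810) (nat_lit 320) .nil)))))))) (.g (nat_lit 6) .nil .nil))) 
(.lf (nat_lit 94645) (.g (nat_lit 3698) (.e (nat_lit 2612) (nat_lit 163) (.e (nat_lit 164023) (nat_lit 46) (.e (nat_lit 704738) (nat_lit 11) (.e (nat_lit 16425) (nat_lit 7) (.e (nat_lit 409649) (nat_lit 18) (.e (nat_lit 303140) (nat_lit 10) (.e (nat_lit 434214) (nat_lit 18) (.e (nat_lit 5810) (nat_lit 320) .nil)))))))) (.g (nat_lit 6) .nil .nil))))) (.nd (nat_lit 4) (.nd (nat_lit 5) 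
(.lf (nat_lit 94605) (.g (nat_lit 4447) (.e (nat_lit 2612) (nat_lit 163) (.e (nat_lit 164022) (nat_lit 46) (.e (nat_lit 704738) (nat_lit 11) (.e (nat_lit 16425) (nat_lit 7) (.e (nat_lit 409649) (nat_lit 18) (.e (nat_lit 303140) (nat_lit 10) (.e (nat_lit 434200) (nat_lit 18) (.e (nat_lit 5812) (nat_lit 320) .nil)))))))) (.g (nat_lit 7) .nil .nil))) 
(.lf (nat_lit 94637) (.g (nat_lit 4047) (.e (nat_lit 2612) (nat_lit 163) (.e (nat_lit 164023) (nat_lit 46) (.e (nat_lit 704738) (nat_lit 11) (.e (nat_lit 16425) (nat_lit 7) (.e (nat_lit 409649) (nat_lit 18) (.e (nat_lit 303140) (nat_lit 10) (.e (nat_lit 434200) (nat_lit 18) (.e (nat_lit 5799) (nat_lit 320) .nil)))))))) (.g (nat_lit 6) .nil .nil)))) (.nd (nat_lit 5) 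
(.lf (nat_lit 94621) (.g (nat_lit 4124) (.e (nat_lit 2612) (nat_lit 163) (.e (nat_lit 164023) (nat_lit 46) (.e (nat_lit 704738) (nat_lit 11) (.e (nat_lit 16425) (nat_lit 7) (.e (nat_lit 409648) (nat_lit 18) (.e (nat_lit 303137) (nat_lit 10) (.e (nat_lit 434200) (nat_lit 18) (.e (nat_lit 5811) (nat_lit 320) .nil)))))))) (.g (nat_lit 5) .nil .nil))) 
(.lf (nat_lit 94653) (.g (nat_lit 2836) (.e (nat_lit 2612) (nat_lit 163) (.e (nat_lit 164178) (nat_lit 154) (.e (nat_lit 57437) (nat_lit 17) (.e (nat_lit 376842) (nat_lit 11) (.e (nat_lit 426182) (nat_lit 8) (.e (nat_lit 417820) (nat_lit 10) (.e (nat_lit 5626) (nat_lit 312) .nil))))))) (.g (nat_lit 4) .nil .nil))))))) (.nd (nat_lit 2) (.nd (nat_lit 3) (.nd (nat_lit 4) (.nd (nat_lit 5) 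
(.lf (nat_lit 94595) (.g (nat_lit 2969) (.e (nat_lit 2612) (nat_lit 163) (.e (nat_lit 164022) (nat_lit 46) (.e (nat_lit 704738) (nat_lit 11) (.e (nat_lit 16425) (nat_lit 7) (.e (nat_lit 409649) (nat_lit 18) (.e (nat_lit 303140) (nat_lit 10) (.e (nat_lit 434199) (nat_lit 18) (.e (nat_lit 5797) (nat_lit 320) .nil)))))))) (.g (nat_lit 4) .nil .nil))) 
(.lf (nat_lit 94627) (.g (nat_lit 2502) (.e (nat_lit 2612) (nat_lit 163) (.e (nat_lit 164023) (nat_lit 46) (.e (nat_lit 704738) (nat_lit 11) (.e (nat_lit 16425) (nat_lit 7) (.e (nat_lit 409648) (nat_lit 18) (.e (nat_lit 303138) (nat_lit 10) (.e (nat_lit 434203) (nat_lit 18) (.e (nat_lit 5811) (nat_lit 320) .nil)))))))) (.g (nat_lit 4) .nil .nil)))) (.nd (nat_lit 5) 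
(.lf (nat_lit 94611) (.g (nat_lit 2490) (.e (nat_lit 2612) (nat_lit 163) (.e (nat_lit 164022) (nat_lit 46) (.e (nat_lit 704738) (nat_lit 11) (.e (nat_lit 16425) (nat_lit 7) (.e (nat_lit 409649) (nat_lit 18) (.e (nat_lit 303140) (nat_lit 10) (.e (nat_lit 434204) (nat_lit 18) (.e (nat_lit 5811) (nat_lit 320) .nil)))))))) (.g (nat_lit 4) .nil .nil))) 
(.lf (nat_lit 94643) (.g (nat_lit 4340) (.e (nat_lit 2612) (nat_lit 163) (.e (nat_lit 164023) (nat_lit 46) (.e (nat_lit 704738) (nat_lit 11) (.e (nat_lit 16425) (nat_lit 7) (.e (nat_lit 409649) (nat_lit 18) (.e (nat_lit 303140) (nat_lit 10) (.e (nat_lit 434202) (nat_lit 18) (.e (nat_lit 5800) (nat_lit 320) .nil)))))))) (.g (nat_lit 7) .nil .nil))))) (.nd (nat_lit 4) (.nd (nat_lit 5) 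
(.lf (nat_lit 94603) (.g (nat_lit 3967) (.e (nat_lit 2612) (nat_lit 163) (.e (nat_lit 164022) (nat_lit 46) (.e (nat_lit 704738) (nat_lit 11) (.e (nat_lit 16425) (nat_lit 7) (.e (nat_lit 409649) (nat_lit 18) (.e (nat_lit 303140) (nat_lit 10) (.e (nat_lit 434200) (nat_lit 18) (.e (nat_lit 5800) (nat_lit 320) .nil)))))))) (.g (nat_lit 6) .nil .nil))) 
(.lf (nat_lit 94635) (.g (nat_lit 3234) (.e (nat_lit 2612) (nat_lit 163) (.e (nat_lit 164023) (nat_lit 46) (.e (nat_lit 704738) (nat_lit 11) (.e (nat_lit 16425) (nat_lit 7) (.e (nat_lit 409649) (nat_lit 18) (.e (nat_lit 303140) (nat_lit 10) (.e (nat_lit 434200) (nat_lit 18) (.e (nat_lit 5796) (nat_lit 320) .nil)))))))) (.g (nat_lit 5) .nil .nil)))) (.nd (nat_lit 5) 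
(.lf (nat_lit 94619) (.g (nat_lit 3953) (.e (nat_lit 2612) (nat_lit 163) (.e (nat_lit 164023) (nat_lit 46) (.e (nat_lit 704738) (nat_lit 11) (.e (nat_lit 16425) (nat_lit 7) (.e (nat_lit 409648) (nat_lit 18) (.e (nat_lit 303137) (nat_lit 10) (.e (nat_lit 434200) (nat_lit 18) (.e (nat_lit 5799) (nat_lit 320) .nil)))))))) (.g (nat_lit 5) .nil .nil))) 
(.lf (nat_lit 94651) (.g (nat_lit 2570) (.e (nat_lit 2612) (nat_lit 163) (.e (nat_lit 164178) (nat_lit 154) (.e (nat_lit 57432) (nat_lit 16) (.e (nat_lit 368676) (nat_lit 21) (.e (nat_lit 516174) (nat_lit 14) (.e (nat_lit 466967) (nat_lit 20) (.e (nat_lit 3304) (nat_lit 202) (.e (nat_lit 581376) (nat_lit 0) .nil)))))))) (.g (nat_lit 6) .nil .nil)))))) 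
(.nd (nat_lit 3) (.nd (nat_lit 4) (.nd (nat_lit 5) 
(.lf (nat_lit 94599) (.g (nat_lit 3217) (.e (nat_lit 2612) (nat_lit 163) (.e (nat_lit 164022) (nat_lit 46) (.e (nat_lit 704738) (nat_lit 11) (.e (nat_lit 16425) (nat_lit 7) (.e (nat_lit 409649) (nat_lit 18) (.e (nat_lit 303140) (nat_lit 10) (.e (nat_lit 434199) (nat_lit 18) (.e (nat_lit 5812) (nat_lit 320) .nil)))))))) (.g (nat_lit 5) .nil .nil))) 
(.lf (nat_lit 94631) (.g (nat_lit 2764) (.e (nat_lit 2612) (nat_lit 163) (.e (nat_lit 164023) (nat_lit 46) (.e (nat_lit 704738) (nat_lit 11) (.e (nat_lit 16425) (nat_lit 7) (.e (nat_lit 409649) (nat_lit 18) (.e (nat_lit 303140) (nat_lit 10) (.e (nat_lit 434199) (nat_lit 18) (.e (nat_lit 5799) (nat_lit 320) .nil)))))))) (.g (nat_lit 4) .nil .nil)))) (.nd (nat_lit 5) 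
(.lf (nat_lit 94615) (.g (nat_lit 1525) (.e (nat_lit 2612) (nat_lit 163) (.e (nat_lit 164023) (nat_lit 46) (.e (nat_lit 704738) (nat_lit 11) (.e (nat_lit 16425) (nat_lit 7) .nil)))) .nil)) 
(.lf (nat_lit 94647) (.g (nat_lit 1852) (.e (nat_lit 2612) (nat_lit 163) (.e (nat_lit 164148) (nat_lit 152) (.e (nat_lit 1201) (nat_lit 88) (.e (nat_lit 65625) (nat_lit 13) (.e (nat_lit 393265) (nat_lit 22) (.e (nat_lit 417820) (nat_lit 10) (.e (nat_lit 5626) (nat_lit 312) .nil))))))) (.g (nat_lit 4) .nil .nil))))) (.nd (nat_lit 4) (.nd (nat_lit 5) 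
(.lf (nat_lit 94607) (.g (nat_lit 5146) (.e (nat_lit 2612) (nat_lit 163) (.e (nat_lit 164022) (nat_lit 46) (.e (nat_lit 704738) (nat_lit 11) (.e (nat_lit 16425) (nat_lit 7) (.e (nat_lit 409649) (nat_lit 18) (.e (nat_lit 303140) (nat_lit 10) (.e (nat_lit 434202) (nat_lit 18) (.e (nat_lit 5799) (nat_lit 320) .nil)))))))) (.g (nat_lit 8) .nil .nil))) 
(.lf (nat_lit 94639) (.g (nat_lit 4218) (.e (nat_lit 2612) (nat_lit 163) (.e (nat_lit 164023) (nat_lit 46) (.e (nat_lit 704738) (nat_lit 11) (.e (nat_lit 16425) (nat_lit 7) (.e (nat_lit 409649) (nat_lit 18) (.e (nat_lit 303140) (nat_lit 10) (.e (nat_lit 434200) (nat_lit 18) (.e (nat_lit 5811) (nat_lit 320) .nil)))))))) (.g (nat_lit 6) .nil .nil)))) (.nd (nat_lit 5) 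
(.lf (nat_lit 94623) (.g (nat_lit 2960) (.e (nat_lit 2612) (nat_lit 163) (.e (nat_lit 164023) (nat_lit 46) (.e (nat_lit 704738) (nat_lit 11) (.e (nat_lit 16425) (nat_lit 7) (.e (nat_lit 409648) (nat_lit 18) (.e (nat_lit 303137) (nat_lit 10) (.e (nat_lit 434202) (nat_lit 18) (.e (nat_lit 5796) (nat_lit 320) .nil)))))))) (.g (nat_lit 4) .nil .nil))) 
(.lf (nat_lit 94655) (.g (nat_lit 2666) (.e (nat_lit 2612) (nat_lit 163) (.e (nat_lit 164179) (nat_lit 154) (.e (nat_lit 57432) (nat_lit 16) (.e (nat_lit 368676) (nat_lit 21) (.e (nat_lit 516176) (nat_lit 14) (.e (nat_lit 466967) (nat_lit 20) (.e (nat_lit 3304) (nat_lit 202) (.e (nat_lit 581376) (nat_lit 0) .nil)))))))) (.g (nat_lit 5) .nil .nil)))))))))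

noncomputable def tv1301 : DT := (.nd (nat_lit 0) (.nd (nat_lit 1) (.nd (nat_lit 2) (.nd (nat_lit 3) (.nd (nat_lit 4) (.nd (nat_lit 5) 
(.lf (nat_lit 94656) (.g (nat_lit 2872) (.e (nat_lit 2612) (nat_lit 163) (.e (nat_lit 164179) (nat_lit 154) (.e (nat_lit 57437) (nat_lit 17) (.e (nat_lit 376842) (nat_lit 11) (.e (nat_lit 426182) (nat_lit 8) .nil))))) .nil)) 
(.lf (nat_lit 94688) (.g (nat_lit 2906) (.e (nat_lit 2612) (nat_lit 163) (.e (nat_lit 164239) (nat_lit 187) (.e (nat_lit 1253) (nat_lit 92) (.e (nat_lit 98373) (nat_lit 29) (.e (nat_lit 450587) (nat_lit 10) (.e (nat_lit 573475) (nat_lit 12) (.e (nat_lit 57346) (nat_lit 0) (.e (nat_lit 6863) (nat_lit 371) .nil)))))))) (.g (nat_lit 5) .nil .nil)))) (.nd (nat_lit 5) 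
(.lf (nat_lit 94672) (.g (nat_lit 3645) (.e (nat_lit 2612) (nat_lit 163) (.e (nat_lit 164238) (nat_lit 187) (.e (nat_lit 1659) (nat_lit 115) (.e (nat_lit 393301) (nat_lit 27) (.e (nat_lit 491558) (nat_lit 10) (.e (nat_lit 344096) (nat_lit 18) (.e (nat_lit 6850) (nat_lit 371) .nil))))))) (.g (nat_lit 5) .nil .nil))) 
(.lf (nat_lit 94704) (.g (nat_lit 3513) (.e (nat_lit 2612) (nat_lit 163) (.e (nat_lit 164239) (nat_lit 187) (.e (nat_lit 1659) (nat_lit 115) (.e (nat_lit 393301) (nat_lit 27) (.e (nat_lit 491560) (nat_lit 10) (.e (nat_lit 344090) (nat_lit 18) (.e (nat_lit 6850) (nat_lit 371) .nil))))))) (.g (nat_lit 5) .nil .nil))))) (.nd (nat_lit 4) (.nd (nat_lit 5) 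
(.lf (nat_lit 94664) (.g (nat_lit 4309) (.e (nat_lit 2612) (nat_lit 163) (.e (nat_lit 164238) (nat_lit 187) (.e (nat_lit 1253) (nat_lit 92) (.e (nat_lit 98373) (nat_lit 29) (.e (nat_lit 450587) (nat_lit 10) (.e (nat_lit 573475) (nat_lit 12) (.e (nat_lit 57345) (nat_lit 0) (.e (nat_lit 6850) (nat_lit 371) .nil)))))))) (.g (nat_lit 6) .nil .nil))) 
(.lf (nat_lit 94696) (.g (nat_lit 4175) (.e (nat_lit 2612) (nat_lit 163) (.e (nat_lit 164239) (nat_lit 187) (.e (nat_lit 1659) (nat_lit 115) (.e (nat_lit 393301) (nat_lit 27) (.e (nat_lit 491558) (nat_lit 10) (.e (nat_lit 344091) (nat_lit 18) (.e (nat_lit 6852) (nat_lit 371) .nil))))))) (.g (nat_lit 7) .nil .nil)))) (.nd (nat_lit 5) 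
(.lf (nat_lit 94680) (.g (nat_lit 4725) (.e (nat_lit 2612) (nat_lit 163) (.e (nat_lit 164238) (nat_lit 187) (.e (nat_lit 1659) (nat_lit 115) (.e (nat_lit 393301) (nat_lit 27) (.e (nat_lit 491560) (nat_lit 10) (.e (nat_lit 344088) (nat_lit 18) (.e (nat_lit 6852) (nat_lit 371) .nil))))))) (.g (nat_lit 6) .nil .nil))) 
(.lf (nat_lit 94712) (.g (nat_lit 2845) (.e (nat_lit 2612) (nat_lit 163) (.e (nat_lit 164396) (nat_lit 256) (.e (nat_lit 57371) (nat_lit 2) (.e (nat_lit 90172) (nat_lit 14) (.e (nat_lit 180243) (nat_lit 5) (.e (nat_lit 532515) (nat_lit 3) (.e (nat_lit 114716) (nat_lit 22) (.e (nat_lit 90130) (nat_lit 9) .nil)))))))) (.g (nat_lit 5) .nil .nil)))))) 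
(.nd (nat_lit 3) (.nd (nat_lit 4) (.nd (nat_lit 5) 
(.lf (nat_lit 94660) (.g (nat_lit 1594) (.e (nat_lit 2612) (nat_lit 163) (.e (nat_lit 164187) (nat_lit 157) (.e (nat_lit 229409) (nat_lit 13) (.e (nat_lit 434285) (nat_lit 42) (.e (nat_lit 688184) (nat_lit 18) (.e (nat_lit 81963) (nat_lit 26) (.e (nat_lit 147471) (nat_lit 9) .nil))))))) (.g (nat_lit 5) .nil .nil))) 
(.lf (nat_lit 94692) (.g (nat_lit 3380) (.e (nat_lit 2612) (nat_lit 163) (.e (nat_lit 164239) (nat_lit 187) (.e (nat_lit 1659) (nat_lit 115) (.e (nat_lit 393301) (nat_lit 27) (.e (nat_lit 491558) (nat_lit 10) (.e (nat_lit 344088) (nat_lit 18) (.e (nat_lit 6852) (nat_lit 371) .nil))))))) (.g (nat_lit 5) .nil .nil)))) (.nd (nat_lit 5) 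
(.lf (nat_lit 94676) (.g (nat_lit 3932) (.e (nat_lit 2612) (nat_lit 163) (.e (nat_lit 164238) (nat_lit 187) (.e (nat_lit 1659) (nat_lit 115) (.e (nat_lit 393301) (nat_lit 27) (.e (nat_lit 491560) (nat_lit 10) (.e (nat_lit 344087) (nat_lit 18) (.e (nat_lit 6850) (nat_lit 371) .nil))))))) (.g (nat_lit 5) .nil .nil))) 
(.lf (nat_lit 94708) (.g (nat_lit 3815) (.e (nat_lit 2612) (nat_lit 163) (.e (nat_lit 164239) (nat_lit 187) (.e (nat_lit 1659) (nat_lit 115) (.e (nat_lit 393301) (nat_lit 27) (.e (nat_lit 491560) (nat_lit 10) (.e (nat_lit 344094) (nat_lit 18) (.e (nat_lit 6850) (nat_lit 371) .nil))))))) (.g (nat_lit 6) .nil .nil))))) (.nd (nat_lit 4) (.nd (nat_lit 5) 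
(.lf (nat_lit 94668) (.g (nat_lit 2587) (.e (nat_lit 2612) (nat_lit 163) (.e (nat_lit 164238) (nat_lit 187) (.e (nat_lit 1638) (nat_lit 114) (.e (nat_lit 385102) (nat_lit 50) (.e (nat_lit 786483) (nat_lit 30) (.e (nat_lit 360451) (nat_lit 0) (.e (nat_lit 5444) (nat_lit 306) .nil))))))) (.g (nat_lit 5) .nil .nil))) 
(.lf (nat_lit 94700) (.g (nat_lit 5094) (.e (nat_lit 2612) (nat_lit 163) (.e (nat_lit 164239) (nat_lit 187) (.e (nat_lit 1659) (nat_lit 115) (.e (nat_lit 393301) (nat_lit 27) (.e (nat_lit 491560) (nat_lit 10) (.e (nat_lit 344088) (nat_lit 18) (.e (nat_lit 6850) (nat_lit 371) .nil))))))) (.g (nat_lit 0) .nil .nil)))) (.nd (nat_lit 5) 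
(.lf (nat_lit 94684) (.g (nat_lit 3874) (.e (nat_lit 2612) (nat_lit 163) (.e (nat_lit 164238) (nat_lit 187) (.e (nat_lit 1659) (nat_lit 115) (.e (nat_lit 393301) (nat_lit 27) (.e (nat_lit 491560) (nat_lit 10) (.e (nat_lit 344091) (nat_lit 18) (.e (nat_lit 6852) (nat_lit 371) .nil))))))) (.g (nat_lit 5) .nil .nil))) 
(.lf (nat_lit 94716) (.g (nat_lit 2245) (.e (nat_lit 2612) (nat_lit 163) (.e (nat_lit 164396) (nat_lit 256) (.e (nat_lit 57375) (nat_lit 2) (.e (nat_lit 90174) (nat_lit 14) (.e (nat_lit 180243) (nat_lit 5) (.e (nat_lit 532513) (nat_lit 3) (.e (nat_lit 114714) (nat_lit 22) (.e (nat_lit 90130) (nat_lit 9) .nil)))))))) (.g (nat_lit 4) .nil .nil))))))) 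
(.nd (nat_lit 2) (.nd (nat_lit 3) (.nd (nat_lit 4) (.nd (nat_lit 5) 
(.lf (nat_lit 94658) (.g (nat_lit 2423) (.e (nat_lit 2612) (nat_lit 163) (.e (nat_lit 164183) (nat_lit 154) (.e (nat_lit 57411) (nat_lit 12) (.e (nat_lit 336019) (nat_lit 3) (.e (nat_lit 98381) (nat_lit 31) (.e (nat_lit 466967) (nat_lit 20) (.e (nat_lit 3304) (nat_lit 202) (.e (nat_lit 581376) (nat_lit 0) .nil)))))))) (.g (nat_lit 4) .nil .nil))) 
(.lf (nat_lit 94690) (.g (nat_lit 2745) (.e (nat_lit 2612) (nat_lit 163) (.e (nat_lit 164239) (nat_lit 187) (.e (nat_lit 1638) (nat_lit 114) (.e (nat_lit 385102) (nat_lit 50) (.e (nat_lit 786483) (nat_lit 30) (.e (nat_lit 360451) (nat_lit 0) (.e (nat_lit 5444) (nat_lit 306) .nil))))))) (.g (nat_lit 6) .nil .nil)))) (.nd (nat_lit 5) 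
(.lf (nat_lit 94674) (.g (nat_lit 3874) (.e (nat_lit 2612) (nat_lit 163) (.e (nat_lit 164238) (nat_lit 187) (.e (nat_lit 1659) (nat_lit 115) (.e (nat_lit 393301) (nat_lit 27) (.e (nat_lit 491559) (nat_lit 10) (.e (nat_lit 344091) (nat_lit 18) (.e (nat_lit 6852) (nat_lit 371) .nil))))))) (.g (nat_lit 5) .nil .nil))) 
(.lf (nat_lit 94706) (.g (nat_lit 3202) (.e (nat_lit 2612) (nat_lit 163) (.e (nat_lit 164239) (nat_lit 187) (.e (nat_lit 1659) (nat_lit 115) (.e (nat_lit 393301) (nat_lit 27) (.e (nat_lit 491560) (nat_lit 10) (.e (nat_lit 344090) (nat_lit 18) (.e (nat_lit 6853) (nat_lit 371) .nil))))))) (.g (nat_lit 5) .nil .nil))))) (.nd (nat_lit 4) (.nd (nat_lit 5) 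
(.lf (nat_lit 94666) (.g (nat_lit 4253) (.e (nat_lit 2612) (nat_lit 163) (.e (nat_lit 164238) (nat_lit 187) (.e (nat_lit 1253) (nat_lit 92) (.e (nat_lit 98373) (nat_lit 29) (.e (nat_lit 450587) (nat_lit 10) (.e (nat_lit 573475) (nat_lit 12) (.e (nat_lit 57345) (nat_lit 0) (.e (nat_lit 6853) (nat_lit 371) .nil)))))))) (.g (nat_lit 6) .nil .nil))) 
(.lf (nat_lit 94698) (.g (nat_lit 4538) (.e (nat_lit 2612) (nat_lit 163) (.e (nat_lit 164239) (nat_lit 187) (.e (nat_lit 1659) (nat_lit 115) (.e (nat_lit 393301) (nat_lit 27) (.e (nat_lit 491559) (nat_lit 10) (.e (nat_lit 344091) (nat_lit 18) (.e (nat_lit 6850) (nat_lit 371) .nil))))))) (.g (nat_lit 7) .nil .nil)))) (.nd (nat_lit 5) 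
(.lf (nat_lit 94682) (.g (nat_lit 4290) (.e (nat_lit 2612) (nat_lit 163) (.e (nat_lit 164238) (nat_lit 187) (.e (nat_lit 1659) (nat_lit 115) (.e (nat_lit 393301) (nat_lit 27) (.e (nat_lit 491560) (nat_lit 10) (.e (nat_lit 344089) (nat_lit 18) (.e (nat_lit 6863) (nat_lit 371) .nil))))))) (.g (nat_lit 5) .nil .nil))) 
(.lf (nat_lit 94714) (.g (nat_lit 2796) (.e (nat_lit 2612) (nat_lit 163) (.e (nat_lit 164396) (nat_lit 256) (.e (nat_lit 57372) (nat_lit 2) (.e (nat_lit 90172) (nat_lit 14) (.e (nat_lit 180244) (nat_lit 5) (.e (nat_lit 532515) (nat_lit 3) (.e (nat_lit 114716) (nat_lit 22) (.e (nat_lit 90130) (nat_lit 9) .nil)))))))) (.g (nat_lit 5) .nil .nil)))))) 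
(.nd (nat_lit 3) (.nd (nat_lit 4) (.nd (nat_lit 5) 
(.lf (nat_lit 94662) (.g (nat_lit 2086) (.e (nat_lit 2612) (nat_lit 163) (.e (nat_lit 164238) (nat_lit 187) (.e (nat_lit 1253) (nat_lit 92) (.e (nat_lit 98373) (nat_lit 29) (.e (nat_lit 450587) (nat_lit 10) (.e (nat_lit 573473) (nat_lit 12) (.e (nat_lit 57348) (nat_lit 0) (.e (nat_lit 6852) (nat_lit 371) .nil)))))))) (.g (nat_lit 4) .nil .nil))) 
(.lf (nat_lit 94694) (.g (nat_lit 2472) (.e (nat_lit 2612) (nat_lit 163) (.e (nat_lit 164239) (nat_lit 187) (.e (nat_lit 1659) (nat_lit 115) (.e (nat_lit 393301) (nat_lit 27) (.e (nat_lit 491558) (nat_lit 10) (.e (nat_lit 344090) (nat_lit 18) (.e (nat_lit 6852) (nat_lit 371) .nil))))))) (.g (nat_lit 5) .nil .nil)))) (.nd (nat_lit 5) 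
(.lf (nat_lit 94678) (.g (nat_lit 3742) (.e (nat_lit 2612) (nat_lit 163) (.e (nat_lit 164238) (nat_lit 187) (.e (nat_lit 1659) (nat_lit 115) (.e (nat_lit 393301) (nat_lit 27) (.e (nat_lit 491560) (nat_lit 10) (.e (nat_lit 344087) (nat_lit 18) (.e (nat_lit 6853) (nat_lit 371) .nil))))))) (.g (nat_lit 5) .nil .nil))) 
(.lf (nat_lit 94710) (.g (nat_lit 6165) (.e (nat_lit 2612) (nat_lit 163) (.e (nat_lit 164319) (nat_lit 228) (.e (nat_lit 57421) (nat_lit 13) (.e (nat_lit 344117) (nat_lit 21) (.e (nat_lit 516151) (nat_lit 9) (.e (nat_lit 426211) (nat_lit 9) (.e (nat_lit 426125) (nat_lit 2) (.e (nat_lit 204544) (nat_lit 0) .nil)))))))) (.g (nat_lit 6) .nil .nil))))) (.nd (nat_lit 4) (.nd (nat_lit 5) 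
(.lf (nat_lit 94670) (.g (nat_lit 3647) (.e (nat_lit 2612) (nat_lit 163) (.e (nat_lit 164238) (nat_lit 187) (.e (nat_lit 1659) (nat_lit 115) (.e (nat_lit 393301) (nat_lit 27) (.e (nat_lit 491558) (nat_lit 10) (.e (nat_lit 344091) (nat_lit 18) (.e (nat_lit 6852) (nat_lit 371) .nil))))))) (.g (nat_lit 5) .nil .nil))) 
(.lf (nat_lit 94702) (.g (nat_lit 3984) (.e (nat_lit 2612) (nat_lit 163) (.e (nat_lit 164239) (nat_lit 187) (.e (nat_lit 1659) (nat_lit 115) (.e (nat_lit 393301) (nat_lit 27) (.e (nat_lit 491560) (nat_lit 10) (.e (nat_lit 344088) (nat_lit 18) (.e (nat_lit 6863) (nat_lit 371) .nil))))))) (.g (nat_lit 5) .nil .nil)))) (.nd (nat_lit 5) 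
(.lf (nat_lit 94686) (.g (nat_lit 3386) (.e (nat_lit 2612) (nat_lit 163) (.e (nat_lit 164238) (nat_lit 187) (.e (nat_lit 1659) (nat_lit 115) (.e (nat_lit 393301) (nat_lit 27) (.e (nat_lit 491560) (nat_lit 10) (.e (nat_lit 344094) (nat_lit 18) (.e (nat_lit 6850) (nat_lit 371) .nil))))))) (.g (nat_lit 5) .nil .nil))) 
(.lf (nat_lit 94718) (.g (nat_lit 2577) (.e (nat_lit 2612) (nat_lit 163) (.e (nat_lit 164401) (nat_lit 256) (.e (nat_lit 57373) (nat_lit 2) (.e (nat_lit 90172) (nat_lit 14) (.e (nat_lit 180244) (nat_lit 5) (.e (nat_lit 532515) (nat_lit 3) (.e (nat_lit 114716) (nat_lit 22) (.e (nat_lit 90130) (nat_lit 9) .nil)))))))) (.g (nat_lit 5) .nil .nil)))))))) 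
(.nd (nat_lit 1) (.nd (nat_lit 2) (.nd (nat_lit 3) (.nd (nat_lit 4) (.nd (nat_lit 5) 
(.lf (nat_lit 94657) (.g (nat_lit 2318) (.e (nat_lit 2612) (nat_lit 163) (.e (nat_lit 164182) (nat_lit 154) (.e (nat_lit 57411) (nat_lit 12) (.e (nat_lit 336019) (nat_lit 3) (.e (nat_lit 98381) (nat_lit 31) (.e (nat_lit 466967) (nat_lit 20) (.e (nat_lit 3304) (nat_lit 202) (.e (nat_lit 581376) (nat_lit 0) .nil)))))))) (.g (nat_lit 4) .nil .nil))) 
(.lf (nat_lit 94689) (.g (nat_lit 4883) (.e (nat_lit 2612) (nat_lit 163) (.e (nat_lit 164239) (nat_lit 187) (.e (nat_lit 1253) (nat_lit 92) (.e (nat_lit 98373) (nat_lit 29) (.e (nat_lit 450588) (nat_lit 10) (.e (nat_lit 573474) (nat_lit 12) (.e (nat_lit 57348) (nat_lit 0) (.e (nat_lit 6850) (nat_lit 371) .nil)))))))) (.g (nat_lit 6) .nil .nil)))) (.nd (nat_lit 5) 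
(.lf (nat_lit 94673) (.g (nat_lit 4035) (.e (nat_lit 2612) (nat_lit 163) (.e (nat_lit 164238) (nat_lit 187) (.e (nat_lit 1659) (nat_lit 115) (.e (nat_lit 393301) (nat_lit 27) (.e (nat_lit 491559) (nat_lit 10) (.e (nat_lit 344091) (nat_lit 18) (.e (nat_lit 6850) (nat_lit 371) .nil))))))) (.g (nat_lit 5) .nil .nil))) 
(.lf (nat_lit 94705) (.g (nat_lit 3856) (.e (nat_lit 2612) (nat_lit 163) (.e (nat_lit 164239) (nat_lit 187) (.e (nat_lit 1659) (nat_lit 115) (.e (nat_lit 393301) (nat_lit 27) (.e (nat_lit 491560) (nat_lit 10) (.e (nat_lit 344090) (nat_lit 18) (.e (nat_lit 6852) (nat_lit 371) .nil))))))) (.g (nat_lit 6) .nil .nil))))) (.nd (nat_lit 4) (.nd (nat_lit 5) 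
(.lf (nat_lit 94665) (.g (nat_lit 4393) (.e (nat_lit 2612) (nat_lit 163) (.e (nat_lit 164238) (nat_lit 187) (.e (nat_lit 1253) (nat_lit 92) (.e (nat_lit 98373) (nat_lit 29) (.e (nat_lit 450587) (nat_lit 10) (.e (nat_lit 573475) (nat_lit 12) (.e (nat_lit 57345) (nat_lit 0) (.e (nat_lit 6852) (nat_lit 371) .nil)))))))) (.g (nat_lit 6) .nil .nil))) 
(.lf (nat_lit 94697) (.g (nat_lit 4127) (.e (nat_lit 2612) (nat_lit 163) (.e (nat_lit 164239) (nat_lit 187) (.e (nat_lit 1659) (nat_lit 115) (.e (nat_lit 393301) (nat_lit 27) (.e (nat_lit 491558) (nat_lit 10) (.e (nat_lit 344096) (nat_lit 18) (.e (nat_lit 6850) (nat_lit 371) .nil))))))) (.g (nat_lit 0) .nil .nil)))) (.nd (nat_lit 5) 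
(.lf (nat_lit 94681) (.g (nat_lit 4186) (.e (nat_lit 2612) (nat_lit 163) (.e (nat_lit 164238) (nat_lit 187) (.e (nat_lit 1659) (nat_lit 115) (.e (nat_lit 393301) (nat_lit 27) (.e (nat_lit 491560) (nat_lit 10) (.e (nat_lit 344088) (nat_lit 18) (.e (nat_lit 6853) (nat_lit 371) .nil))))))) (.g (nat_lit 5) .nil .nil))) 
(.lf (nat_lit 94713) (.g (nat_lit 3738) (.e (nat_lit 2612) (nat_lit 163) (.e (nat_lit 164396) (nat_lit 256) (.e (nat_lit 57371) (nat_lit 2) (.e (nat_lit 90172) (nat_lit 14) (.e (nat_lit 180244) (nat_lit 5) (.e (nat_lit 532515) (nat_lit 3) (.e (nat_lit 114716) (nat_lit 22) (.e (nat_lit 90130) (nat_lit 9) .nil)))))))) (.g (nat_lit 8) .nil .nil)))))) 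
(.nd (nat_lit 3) (.nd (nat_lit 4) (.nd (nat_lit 5) 
(.lf (nat_lit 94661) (.g (nat_lit 2974) (.e (nat_lit 2612) (nat_lit 163) (.e (nat_lit 164196) (nat_lit 158) (.e (nat_lit 1221) (nat_lit 90) (.e (nat_lit 81956) (nat_lit 23) (.e (nat_lit 98309) (nat_lit 0) .nil))))) .nil)) 
(.lf (nat_lit 94693) (.g (nat_lit 2851) (.e (nat_lit 2612) (nat_lit 163) (.e (nat_lit 164239) (nat_lit 187) (.e (nat_lit 1659) (nat_lit 115) (.e (nat_lit 393301) (nat_lit 27) (.e (nat_lit 491558) (nat_lit 10) (.e (nat_lit 344088) (nat_lit 18) (.e (nat_lit 6853) (nat_lit 371) .nil))))))) (.g (nat_lit 5) .nil .nil)))) (.nd (nat_lit 5) 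
(.lf (nat_lit 94677) (.g (nat_lit 4016) (.e (nat_lit 2612) (nat_lit 163) (.e (nat_lit 164238) (nat_lit 187) (.e (nat_lit 1659) (nat_lit 115) (.e (nat_lit 393301) (nat_lit 27) (.e (nat_lit 491560) (nat_lit 10) (.e (nat_lit 344087) (nat_lit 18) (.e (nat_lit 6852) (nat_lit 371) .nil))))))) (.g (nat_lit 5) .nil .nil))) 
(.lf (nat_lit 94709) (.g (nat_lit 5112) (.e (nat_lit 2612) (nat_lit 163) (.e (nat_lit 164239) (nat_lit 187) (.e (nat_lit 1659) (nat_lit 115) (.e (nat_lit 393301) (nat_lit 27) (.e (nat_lit 491560) (nat_lit 10) (.e (nat_lit 344096) (nat_lit 18) (.e (nat_lit 6850) (nat_lit 371) .nil))))))) (.g (nat_lit 0) .nil .nil))))) (.nd (nat_lit 4) (.nd (nat_lit 5) 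
(.lf (nat_lit 94669) (.g (nat_lit 3760) (.e (nat_lit 2612) (nat_lit 163) (.e (nat_lit 164238) (nat_lit 187) (.e (nat_lit 1659) (nat_lit 115) (.e (nat_lit 393301) (nat_lit 27) (.e (nat_lit 491558) (nat_lit 10) (.e (nat_lit 344091) (nat_lit 18) (.e (nat_lit 6850) (nat_lit 371) .nil))))))) (.g (nat_lit 5) .nil .nil))) 
(.lf (nat_lit 94701) (.g (nat_lit 5197) (.e (nat_lit 2612) (nat_lit 163) (.e (nat_lit 164239) (nat_lit 187) (.e (nat_lit 1659) (nat_lit 115) (.e (nat_lit 393301) (nat_lit 27) (.e (nat_lit 491560) (nat_lit 10) (.e (nat_lit 344088) (nat_lit 18) (.e (nat_lit 6852) (nat_lit 371) .nil))))))) (.g (nat_lit 0) .nil .nil)))) (.nd (nat_lit 5) 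
(.lf (nat_lit 94685) (.g (nat_lit 3974) (.e (nat_lit 2612) (nat_lit 163) (.e (nat_lit 164238) (nat_lit 187) (.e (nat_lit 1659) (nat_lit 115) (.e (nat_lit 393301) (nat_lit 27) (.e (nat_lit 491560) (nat_lit 10) (.e (nat_lit 344091) (nat_lit 18) (.e (nat_lit 6853) (nat_lit 371) .nil))))))) (.g (nat_lit 5) .nil .nil))) 
(.lf (nat_lit 94717) (.g (nat_lit 2629) (.e (nat_lit 2612) (nat_lit 163) (.e (nat_lit 164396) (nat_lit 256) (.e (nat_lit 57375) (nat_lit 2) (.e (nat_lit 90174) (nat_lit 14) (.e (nat_lit 180243) (nat_lit 5) (.e (nat_lit 532515) (nat_lit 3) (.e (nat_lit 114716) (nat_lit 22) (.e (nat_lit 90130) (nat_lit 9) .nil)))))))) (.g (nat_lit 5) .nil .nil))))))) 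
(.nd (nat_lit 2) (.nd (nat_lit 3) (.nd (nat_lit 4) (.nd (nat_lit 5) 
(.lf (nat_lit 94659) (.g (nat_lit 819) (.e (nat_lit 2612) (nat_lit 163) (.e (nat_lit 164187) (nat_lit 157) (.e (nat_lit 229409) (nat_lit 13) (.e (nat_lit 434285) (nat_lit 42) .nil)))) .nil)) 
(.lf (nat_lit 94691) (.g (nat_lit 3272) (.e (nat_lit 2612) (nat_lit 163) (.e (nat_lit 164239) (nat_lit 187) (.e (nat_lit 1659) (nat_lit 115) (.e (nat_lit 393301) (nat_lit 27) (.e (nat_lit 491558) (nat_lit 10) (.e (nat_lit 344088) (nat_lit 18) (.e (nat_lit 6850) (nat_lit 371) .nil))))))) (.g (nat_lit 5) .nil .nil)))) (.nd (nat_lit 5) 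
(.lf (nat_lit 94675) (.g (nat_lit 4037) (.e (nat_lit 2612) (nat_lit 163) (.e (nat_lit 164238) (nat_lit 187) (.e (nat_lit 1659) (nat_lit 115) (.e (nat_lit 393301) (nat_lit 27) (.e (nat_lit 491559) (nat_lit 10) (.e (nat_lit 344091) (nat_lit 18) (.e (nat_lit 6853) (nat_lit 371) .nil))))))) (.g (nat_lit 5) .nil .nil))) 
(.lf (nat_lit 94707) (.g (nat_lit 4469) (.e (nat_lit 2612) (nat_lit 163) (.e (nat_lit 164239) (nat_lit 187) (.e (nat_lit 1659) (nat_lit 115) (.e (nat_lit 393301) (nat_lit 27) (.e (nat_lit 491560) (nat_lit 10) (.e (nat_lit 344091) (nat_lit 18) (.e (nat_lit 6853) (nat_lit 371) .nil))))))) (.g (nat_lit 0) .nil .nil))))) (.nd (nat_lit 4) (.nd (nat_lit 5) 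
(.lf (nat_lit 94667) (.g (nat_lit 4805) (.e (nat_lit 2612) (nat_lit 163) (.e (nat_lit 164238) (nat_lit 187) (.e (nat_lit 1253) (nat_lit 92) (.e (nat_lit 98373) (nat_lit 29) (.e (nat_lit 450588) (nat_lit 10) (.e (nat_lit 573474) (nat_lit 12) (.e (nat_lit 57348) (nat_lit 0) (.e (nat_lit 6850) (nat_lit 371) .nil)))))))) (.g (nat_lit 6) .nil .nil))) 
(.lf (nat_lit 94699) (.g (nat_lit 4424) (.e (nat_lit 2612) (nat_lit 163) (.e (nat_lit 164239) (nat_lit 187) (.e (nat_lit 1659) (nat_lit 115) (.e (nat_lit 393301) (nat_lit 27) (.e (nat_lit 491559) (nat_lit 10) (.e (nat_lit 344091) (nat_lit 18) (.e (nat_lit 6852) (nat_lit 371) .nil))))))) (.g (nat_lit 6) .nil .nil)))) (.nd (nat_lit 5) 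
(.lf (nat_lit 94683) (.g (nat_lit 3991) (.e (nat_lit 2612) (nat_lit 163) (.e (nat_lit 164238) (nat_lit 187) (.e (nat_lit 1659) (nat_lit 115) (.e (nat_lit 393301) (nat_lit 27) (.e (nat_lit 491560) (nat_lit 10) (.e (nat_lit 344091) (nat_lit 18) (.e (nat_lit 6850) (nat_lit 371) .nil))))))) (.g (nat_lit 5) .nil .nil))) 
(.lf (nat_lit 94715) (.g (nat_lit 2877) (.e (nat_lit 2612) (nat_lit 163) (.e (nat_lit 164396) (nat_lit 256) (.e (nat_lit 57375) (nat_lit 2) (.e (nat_lit 90172) (nat_lit 14) (.e (nat_lit 180244) (nat_lit 5) (.e (nat_lit 532515) (nat_lit 3) (.e (nat_lit 114716) (nat_lit 22) (.e (nat_lit 90130) (nat_lit 9) .nil)))))))) (.g (nat_lit 5) .nil .nil)))))) 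
(.nd (nat_lit 3) (.nd (nat_lit 4) (.nd (nat_lit 5) 
(.lf (nat_lit 94663) (.g (nat_lit 2086) (.e (nat_lit 2612) (nat_lit 163) (.e (nat_lit 164238) (nat_lit 187) (.e (nat_lit 1253) (nat_lit 92) (.e (nat_lit 98373) (nat_lit 29) (.e (nat_lit 450587) (nat_lit 10) (.e (nat_lit 573473) (nat_lit 12) (.e (nat_lit 57348) (nat_lit 0) (.e (nat_lit 6853) (nat_lit 371) .nil)))))))) (.g (nat_lit 4) .nil .nil))) 
(.lf (nat_lit 94695) (.g (nat_lit 4241) (.e (nat_lit 2612) (nat_lit 163) (.e (nat_lit 164239) (nat_lit 187) (.e (nat_lit 1659) (nat_lit 115) (.e (nat_lit 393301) (nat_lit 27) (.e (nat_lit 491558) (nat_lit 10) (.e (nat_lit 344091) (nat_lit 18) (.e (nat_lit 6850) (nat_lit 371) .nil))))))) (.g (nat_lit 7) .nil .nil)))) (.nd (nat_lit 5) 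
(.lf (nat_lit 94679) (.g (nat_lit 4667) (.e (nat_lit 2612) (nat_lit 163) (.e (nat_lit 164238) (nat_lit 187) (.e (nat_lit 1659) (nat_lit 115) (.e (nat_lit 393301) (nat_lit 27) (.e (nat_lit 491560) (nat_lit 10) (.e (nat_lit 344088) (nat_lit 18) (.e (nat_lit 6850) (nat_lit 371) .nil))))))) (.g (nat_lit 6) .nil .nil))) 
(.lf (nat_lit 94711) (.g (nat_lit 3306) (.e (nat_lit 2612) (nat_lit 163) (.e (nat_lit 164319) (nat_lit 228) (.e (nat_lit 57421) (nat_lit 13) (.e (nat_lit 344117) (nat_lit 21) (.e (nat_lit 516163) (nat_lit 11) (.e (nat_lit 442424) (nat_lit 22) (.e (nat_lit 204544) (nat_lit 0) .nil))))))) (.g (nat_lit 6) .nil .nil))))) (.nd (nat_lit 4) (.nd (nat_lit 5) 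
(.lf (nat_lit 94671) (.g (nat_lit 3700) (.e (nat_lit 2612) (nat_lit 163) (.e (nat_lit 164238) (nat_lit 187) (.e (nat_lit 1659) (nat_lit 115) (.e (nat_lit 393301) (nat_lit 27) (.e (nat_lit 491558) (nat_lit 10) (.e (nat_lit 344091) (nat_lit 18) (.e (nat_lit 6853) (nat_lit 371) .nil))))))) (.g (nat_lit 5) .nil .nil))) 
(.lf (nat_lit 94703) (.g (nat_lit 4887) (.e (nat_lit 2612) (nat_lit 163) (.e (nat_lit 164239) (nat_lit 187) (.e (nat_lit 1659) (nat_lit 115) (.e (nat_lit 393301) (nat_lit 27) (.e (nat_lit 491560) (nat_lit 10) (.e (nat_lit 344089) (nat_lit 18) (.e (nat_lit 6863) (nat_lit 371) .nil))))))) (.g (nat_lit 0) .nil .nil)))) (.nd (nat_lit 5) 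
(.lf (nat_lit 94687) (.g (nat_lit 4685) (.e (nat_lit 2612) (nat_lit 163) (.e (nat_lit 164238) (nat_lit 187) (.e (nat_lit 1659) (nat_lit 115) (.e (nat_lit 393301) (nat_lit 27) (.e (nat_lit 491560) (nat_lit 10) (.e (nat_lit 344096) (nat_lit 18) (.e (nat_lit 6850) (nat_lit 371) .nil))))))) (.g (nat_lit 6) .nil .nil))) 
(.lf (nat_lit 94719) (.g (nat_lit 2516) (.e (nat_lit 2612) (nat_lit 163) (.e (nat_lit 164402) (nat_lit 256) (.e (nat_lit 57371) (nat_lit 2) (.e (nat_lit 90172) (nat_lit 14) (.e (nat_lit 180243) (nat_lit 5) (.e (nat_lit 532513) (nat_lit 3) (.e (nat_lit 114714) (nat_lit 22) (.e (nat_lit 90130) (nat_lit 9) .nil)))))))) (.g (nat_lit 4) .nil .nil)))))))))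

noncomputable def tv1302 : DT := (.nd (nat_lit 0) (.nd (nat_lit 1) (.nd (nat_lit 2) (.nd (nat_lit 3) (.nd (nat_lit 4) (.nd (nat_lit 5) (.nd (nat_lit 6) 
(.lf (nat_lit 94720) (.g (nat_lit 2813) (.e (nat_lit 2612) (nat_lit 163) (.e (nat_lit 164402) (nat_lit 256) (.e (nat_lit 57371) (nat_lit 2) (.e (nat_lit 90172) (nat_lit 14) (.e (nat_lit 180243) (nat_lit 5) (.e (nat_lit 532515) (nat_lit 3) (.e (nat_lit 114716) (nat_lit 22) (.e (nat_lit 90130) (nat_lit 9) .nil)))))))) (.g (nat_lit 5) .nil .nil))) 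
(.lf (nat_lit 94784) (.g (nat_lit 1983) (.e (nat_lit 2618) (nat_lit 164) (.e (nat_lit 172126) (nat_lit 14) (.e (nat_lit 491549) (nat_lit 9) (.e (nat_lit 336432) (nat_lit 30) .nil)))) .nil))) (.nd (nat_lit 6) 
(.lf (nat_lit 94752) (.g (nat_lit 2089) (.e (nat_lit 2613) (nat_lit 163) (.e (nat_lit 164399) (nat_lit 256) (.e (nat_lit 57372) (nat_lit 2) (.e (nat_lit 90172) (nat_lit 14) (.e (nat_lit 180244) (nat_lit 5) .nil))))) .nil)) 
(.lf (nat_lit 94816) (.g (nat_lit 1911) (.e (nat_lit 2622) (nat_lit 164) (.e (nat_lit 172143) (nat_lit 25) (.e (nat_lit 319534) (nat_lit 16) (.e (nat_lit 286728) (nat_lit 0) (.e (nat_lit 1859) (nat_lit 124) .nil))))) .nil)))) (.nd (nat_lit 5) (.nd (nat_lit 6) 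
(.lf (nat_lit 94736) (.g (nat_lit 2232) (.e (nat_lit 2612) (nat_lit 163) (.e (nat_lit 164403) (nat_lit 256) (.e (nat_lit 57378) (nat_lit 3) (.e (nat_lit 98368) (nat_lit 27) .nil)))) .nil)) 
(.lf (nat_lit 94800) (.g (nat_lit 2305) (.e (nat_lit 2620) (nat_lit 164) (.e (nat_lit 172062) (nat_lit 2) (.e (nat_lit 196666) (nat_lit 13) (.e (nat_lit 65617) (nat_lit 10) (.e (nat_lit 344130) (nat_lit 26) .nil))))) .nil))) (.nd (nat_lit 6) 
(.lf (nat_lit 94768) (.g (nat_lit 1930) (.e (nat_lit 2616) (nat_lit 164) (.e (nat_lit 172126) (nat_lit 14) (.e (nat_lit 491537) (nat_lit 2) (.e (nat_lit 90170) (nat_lit 13) (.e (nat_lit 172113) (nat_lit 10) .nil))))) .nil)) 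
(.lf (nat_lit 94832) (.g (nat_lit 1758) (.e (nat_lit 2628) (nat_lit 164) (.e (nat_lit 172124) (nat_lit 14) (.e (nat_lit 491549) (nat_lit 9) (.e (nat_lit 336434) (nat_lit 30) (.e (nat_lit 458496) (nat_lit 0) .nil))))) .nil))))) (.nd (nat_lit 4) (.nd (nat_lit 5) (.nd (nat_lit 6) 
(.lf (nat_lit 94728) (.g (nat_lit 3141) (.e (nat_lit 2612) (nat_lit 163) (.e (nat_lit 164403) (nat_lit 256) (.e (nat_lit 57371) (nat_lit 2) (.e (nat_lit 90172) (nat_lit 14) (.e (nat_lit 180244) (nat_lit 5) (.e (nat_lit 532513) (nat_lit 3) (.e (nat_lit 114714) (nat_lit 22) (.e (nat_lit 90130) (nat_lit 9) .nil)))))))) (.g (nat_lit 5) .nil .nil))) 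
(.lf (nat_lit 94792) (.g (nat_lit 1284) (.e (nat_lit 2619) (nat_lit 164) (.e (nat_lit 179968) (nat_lit 18) (.e (nat_lit 98359) (nat_lit 26) (.e (nat_lit 426331) (nat_lit 13) (.e (nat_lit 483368) (nat_lit 19) (.e (nat_lit 123048) (nat_lit 152) .nil)))))) (.g (nat_lit 4) .nil .nil)))) (.nd (nat_lit 6) 
(.lf (nat_lit 94760) (.g (nat_lit 3066) (.e (nat_lit 2615) (nat_lit 163) (.e (nat_lit 164398) (nat_lit 256) (.e (nat_lit 57372) (nat_lit 2) (.e (nat_lit 90172) (nat_lit 14) (.e (nat_lit 180244) (nat_lit 5) (.e (nat_lit 532515) (nat_lit 3) (.e (nat_lit 114716) (nat_lit 22) (.e (nat_lit 90128) (nat_lit 9) .nil)))))))) (.g (nat_lit 5) .nil .nil))) 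
(.lf (nat_lit 94824) (.g (nat_lit 1265) (.e (nat_lit 2626) (nat_lit 164) (.e (nat_lit 172124) (nat_lit 14) (.e (nat_lit 491540) (nat_lit 3) (.e (nat_lit 98372) (nat_lit 29) .nil)))) .nil)))) (.nd (nat_lit 5) (.nd (nat_lit 6) 
(.lf (nat_lit 94744) (.g (nat_lit 2250) (.e (nat_lit 2612) (nat_lit 163) (.e (nat_lit 164423) (nat_lit 272) (.e (nat_lit 1199) (nat_lit 88) (.e (nat_lit 65628) (nat_lit 14) (.e (nat_lit 401459) (nat_lit 13) (.e (nat_lit 483344) (nat_lit 17) (.e (nat_lit 6619) (nat_lit 357) .nil))))))) (.g (nat_lit 5) .nil .nil))) 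
(.lf (nat_lit 94808) (.g (nat_lit 2817) (.e (nat_lit 2621) (nat_lit 164) (.e (nat_lit 172064) (nat_lit 2) (.e (nat_lit 196666) (nat_lit 13) (.e (nat_lit 65617) (nat_lit 10) (.e (nat_lit 344133) (nat_lit 26) .nil))))) .nil))) (.nd (nat_lit 6) 
(.lf (nat_lit 94776) (.g (nat_lit 1883) (.e (nat_lit 2617) (nat_lit 164) (.e (nat_lit 172126) (nat_lit 14) (.e (nat_lit 491549) (nat_lit 9) (.e (nat_lit 336432) (nat_lit 30) (.e (nat_lit 450565) (nat_lit 0) .nil))))) .nil)) 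
(.lf (nat_lit 94840) (.g (nat_lit 2690) (.e (nat_lit 2628) (nat_lit 164) (.e (nat_lit 172126) (nat_lit 14) (.e (nat_lit 491549) (nat_lit 9) (.e (nat_lit 336443) (nat_lit 32) (.e (nat_lit 466970) (nat_lit 21) .nil))))) .nil)))))) (.nd (nat_lit 3) (.nd (nat_lit 4) (.nd (nat_lit 5) (.nd (nat_lit 6) 
(.lf (nat_lit 94724) (.g (nat_lit 2798) (.e (nat_lit 2612) (nat_lit 163) (.e (nat_lit 164403) (nat_lit 256) (.e (nat_lit 57370) (nat_lit 2) (.e (nat_lit 90172) (nat_lit 14) (.e (nat_lit 180244) (nat_lit 5) (.e (nat_lit 532515) (nat_lit 3) (.e (nat_lit 114716) (nat_lit 22) (.e (nat_lit 90130) (nat_lit 9) .nil)))))))) (.g (nat_lit 5) .nil .nil))) 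
(.lf (nat_lit 94788) (.g (nat_lit 1621) (.e (nat_lit 2619) (nat_lit 164) (.e (nat_lit 172120) (nat_lit 12) (.e (nat_lit 475207) (nat_lit 41) (.e (nat_lit 712752) (nat_lit 29) (.e (nat_lit 442421) (nat_lit 21) .nil))))) .nil))) (.nd (nat_lit 6) 
(.lf (nat_lit 94756) (.g (nat_lit 2022) (.e (nat_lit 2613) (nat_lit 163) (.e (nat_lit 164403) (nat_lit 256) (.e (nat_lit 57373) (nat_lit 2) (.e (nat_lit 90172) (nat_lit 14) .nil)))) .nil)) 
(.lf (nat_lit 94820) (.g (nat_lit 2492) (.e (nat_lit 2623) (nat_lit 164) (.e (nat_lit 172126) (nat_lit 14) (.e (nat_lit 491537) (nat_lit 2) (.e (nat_lit 90170) (nat_lit 13) (.e (nat_lit 172113) (nat_lit 10) .nil))))) .nil)))) (.nd (nat_lit 5) (.nd (nat_lit 6) 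
(.lf (nat_lit 94740) (.g (nat_lit 3380) (.e (nat_lit 2612) (nat_lit 163) (.e (nat_lit 164422) (nat_lit 272) (.e (nat_lit 1190) (nat_lit 88) (.e (nat_lit 65628) (nat_lit 14) (.e (nat_lit 401459) (nat_lit 13) (.e (nat_lit 483344) (nat_lit 17) (.e (nat_lit 6619) (nat_lit 357) .nil))))))) (.g (nat_lit 0) .nil .nil))) 
(.lf (nat_lit 94804) (.g (nat_lit 2672) (.e (nat_lit 2620) (nat_lit 164) (.e (nat_lit 172064) (nat_lit 2) (.e (nat_lit 196666) (nat_lit 13) (.e (nat_lit 65617) (nat_lit 10) (.e (nat_lit 344133) (nat_lit 26) .nil))))) .nil))) (.nd (nat_lit 6) 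
(.lf (nat_lit 94772) (.g (nat_lit 680) (.e (nat_lit 2617) (nat_lit 164) (.e (nat_lit 172124) (nat_lit 14) (.e (nat_lit 491549) (nat_lit 9) .nil))) .nil)) 
(.lf (nat_lit 94836) (.g (nat_lit 1607) (.e (nat_lit 2628) (nat_lit 164) (.e (nat_lit 172126) (nat_lit 14) (.e (nat_lit 491547) (nat_lit 9) (.e (nat_lit 336432) (nat_lit 30) (.e (nat_lit 458496) (nat_lit 0) .nil))))) .nil))))) (.nd (nat_lit 4) (.nd (nat_lit 5) (.nd (nat_lit 6) 
(.lf (nat_lit 94732) (.g (nat_lit 3722) (.e (nat_lit 2612) (nat_lit 163) (.e (nat_lit 164403) (nat_lit 256) (.e (nat_lit 57373) (nat_lit 2) (.e (nat_lit 90172) (nat_lit 14) (.e (nat_lit 180243) (nat_lit 5) (.e (nat_lit 532513) (nat_lit 3) (.e (nat_lit 114714) (nat_lit 22) (.e (nat_lit 90130) (nat_lit 9) .nil)))))))) (.g (nat_lit 4) .nil .nil))) 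
(.lf (nat_lit 94796) (.g (nat_lit 3160) (.e (nat_lit 2619) (nat_lit 164) (.e (nat_lit 172143) (nat_lit 25) (.e (nat_lit 319530) (nat_lit 16) (.e (nat_lit 286761) (nat_lit 13) (.e (nat_lit 393234) (nat_lit 17) (.e (nat_lit 2412) (nat_lit 157) (.e (nat_lit 4507) (nat_lit 263) .nil))))))) (.g (nat_lit 5) .nil .nil)))) (.nd (nat_lit 6) 
(.lf (nat_lit 94764) (.g (nat_lit 1845) (.e (nat_lit 2615) (nat_lit 163) (.e (nat_lit 164400) (nat_lit 256) (.e (nat_lit 57372) (nat_lit 2) (.e (nat_lit 90172) (nat_lit 14) (.e (nat_lit 180243) (nat_lit 5) .nil))))) .nil)) 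
(.lf (nat_lit 94828) (.g (nat_lit 2805) (.e (nat_lit 2628) (nat_lit 164) (.e (nat_lit 172064) (nat_lit 2) (.e (nat_lit 196666) (nat_lit 13) (.e (nat_lit 65617) (nat_lit 10) (.e (nat_lit 344132) (nat_lit 26) .nil))))) .nil)))) (.nd (nat_lit 5) (.nd (nat_lit 6) 
(.lf (nat_lit 94748) (.g (nat_lit 2302) (.e (nat_lit 2613) (nat_lit 163) (.e (nat_lit 164396) (nat_lit 256) (.e (nat_lit 57371) (nat_lit 2) (.e (nat_lit 90172) (nat_lit 14) (.e (nat_lit 180244) (nat_lit 5) (.e (nat_lit 532515) (nat_lit 3) (.e (nat_lit 114716) (nat_lit 22) (.e (nat_lit 90133) (nat_lit 9) .nil)))))))) (.g (nat_lit 5) .nil .nil))) 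
(.lf (nat_lit 94812) (.g (nat_lit 2260) (.e (nat_lit 2622) (nat_lit 164) (.e (nat_lit 172062) (nat_lit 2) (.e (nat_lit 196666) (nat_lit 13) (.e (nat_lit 65617) (nat_lit 10) (.e (nat_lit 344133) (nat_lit 26) .nil))))) .nil))) (.nd (nat_lit 6) 
(.lf (nat_lit 94780) (.g (nat_lit 2050) (.e (nat_lit 2617) (nat_lit 164) (.e (nat_lit 172150) (nat_lit 27) (.e (nat_lit 335986) (nat_lit 1) (.e (nat_lit 57655) (nat_lit 152) (.e (nat_lit 1207) (nat_lit 89) .nil))))) .nil)) 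
(.lf (nat_lit 94844) (.g (nat_lit 3190) (.e (nat_lit 2628) (nat_lit 164) (.e (nat_lit 172138) (nat_lit 15) (.e (nat_lit 1855) (nat_lit 124) (.e (nat_lit 557100) (nat_lit 13) (.e (nat_lit 172113) (nat_lit 10) (.e (nat_lit 434248) (nat_lit 28) (.e (nat_lit 573473) (nat_lit 12) (.e (nat_lit 57348) (nat_lit 0) (.e (nat_lit 6923) (nat_lit 371) .nil))))))))) (.g (nat_lit 5) .nil .nil)))))))) 
(.nd (nat_lit 2) (.nd (nat_lit 3) (.nd (nat_lit 4) (.nd (nat_lit 5) (.nd (nat_lit 6) 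
(.lf (nat_lit 94722) (.g (nat_lit 2451) (.e (nat_lit 2612) (nat_lit 163) (.e (nat_lit 164402) (nat_lit 256) (.e (nat_lit 57373) (nat_lit 2) (.e (nat_lit 90172) (nat_lit 14) (.e (nat_lit 180244) (nat_lit 5) (.e (nat_lit 532513) (nat_lit 3) (.e (nat_lit 114714) (nat_lit 22) (.e (nat_lit 90130) (nat_lit 9) .nil)))))))) (.g (nat_lit 4) .nil .nil))) 
(.lf (nat_lit 94786) (.g (nat_lit 551) (.e (nat_lit 2619) (nat_lit 164) (.e (nat_lit 172119) (nat_lit 12) (.e (nat_lit 475207) (nat_lit 41) .nil))) .nil))) (.nd (nat_lit 6) 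
(.lf (nat_lit 94754) (.g (nat_lit 1861) (.e (nat_lit 2613) (nat_lit 163) (.e (nat_lit 164399) (nat_lit 256) (.e (nat_lit 57379) (nat_lit 3) (.e (nat_lit 98377) (nat_lit 30) (.e (nat_lit 458789) (nat_lit 23) .nil))))) .nil)) 
(.lf (nat_lit 94818) (.g (nat_lit 1383) (.e (nat_lit 2622) (nat_lit 164) (.e (nat_lit 172143) (nat_lit 25) (.e (nat_lit 319534) (nat_lit 16) (.e (nat_lit 286760) (nat_lit 13) .nil)))) .nil)))) (.nd (nat_lit 5) (.nd (nat_lit 6) 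
(.lf (nat_lit 94738) (.g (nat_lit 2901) (.e (nat_lit 2612) (nat_lit 163) (.e (nat_lit 164422) (nat_lit 272) (.e (nat_lit 1187) (nat_lit 88) (.e (nat_lit 65630) (nat_lit 14) (.e (nat_lit 401459) (nat_lit 13) (.e (nat_lit 483344) (nat_lit 17) (.e (nat_lit 6619) (nat_lit 357) .nil))))))) (.g (nat_lit 5) .nil .nil))) 
(.lf (nat_lit 94802) (.g (nat_lit 2689) (.e (nat_lit 2620) (nat_lit 164) (.e (nat_lit 172064) (nat_lit 2) (.e (nat_lit 196666) (nat_lit 13) (.e (nat_lit 65617) (nat_lit 10) (.e (nat_lit 344130) (nat_lit 26) .nil))))) .nil))) (.nd (nat_lit 6) 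
(.lf (nat_lit 94770) (.g (nat_lit 1675) (.e (nat_lit 2616) (nat_lit 164) (.e (nat_lit 172133) (nat_lit 15) (.e (nat_lit 1800) (nat_lit 119) (.e (nat_lit 516150) (nat_lit 9) (.e (nat_lit 426323) (nat_lit 13) .nil))))) .nil)) 
(.lf (nat_lit 94834) (.g (nat_lit 1981) (.e (nat_lit 2628) (nat_lit 164) (.e (nat_lit 172124) (nat_lit 14) (.e (nat_lit 491568) (nat_lit 13) (.e (nat_lit 393282) (nat_lit 24) .nil)))) .nil))))) (.nd (nat_lit 4) (.nd (nat_lit 5) (.nd (nat_lit 6) 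
(.lf (nat_lit 94730) (.g (nat_lit 2641) (.e (nat_lit 2612) (nat_lit 163) (.e (nat_lit 164403) (nat_lit 256) (.e (nat_lit 57373) (nat_lit 2) (.e (nat_lit 90170) (nat_lit 13) (.e (nat_lit 172065) (nat_lit 3) (.e (nat_lit 204838) (nat_lit 20) (.e (nat_lit 114716) (nat_lit 22) (.e (nat_lit 90130) (nat_lit 9) .nil)))))))) (.g (nat_lit 4) .nil .nil))) 
(.lf (nat_lit 94794) (.g (nat_lit 3232) (.e (nat_lit 2619) (nat_lit 164) (.e (nat_lit 172143) (nat_lit 25) (.e (nat_lit 319530) (nat_lit 16) (.e (nat_lit 286761) (nat_lit 13) (.e (nat_lit 393234) (nat_lit 17) (.e (nat_lit 2407) (nat_lit 157) (.e (nat_lit 4506) (nat_lit 263) .nil))))))) (.g (nat_lit 5) .nil .nil)))) (.nd (nat_lit 6) 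
(.lf (nat_lit 94762) (.g (nat_lit 2577) (.e (nat_lit 2615) (nat_lit 163) (.e (nat_lit 164398) (nat_lit 256) (.e (nat_lit 57375) (nat_lit 2) (.e (nat_lit 90172) (nat_lit 14) (.e (nat_lit 180244) (nat_lit 5) (.e (nat_lit 532515) (nat_lit 3) (.e (nat_lit 114716) (nat_lit 22) (.e (nat_lit 90128) (nat_lit 9) .nil)))))))) (.g (nat_lit 5) .nil .nil))) 
(.lf (nat_lit 94826) (.g (nat_lit 2425) (.e (nat_lit 2627) (nat_lit 164) (.e (nat_lit 172126) (nat_lit 14) (.e (nat_lit 491540) (nat_lit 3) (.e (nat_lit 98373) (nat_lit 29) (.e (nat_lit 450560) (nat_lit 0) .nil))))) .nil)))) (.nd (nat_lit 5) (.nd (nat_lit 6) 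
(.lf (nat_lit 94746) (.g (nat_lit 3109) (.e (nat_lit 2612) (nat_lit 163) (.e (nat_lit 164423) (nat_lit 272) (.e (nat_lit 1200) (nat_lit 88) (.e (nat_lit 65628) (nat_lit 14) (.e (nat_lit 401459) (nat_lit 13) (.e (nat_lit 483344) (nat_lit 17) (.e (nat_lit 6619) (nat_lit 357) .nil))))))) (.g (nat_lit 6) .nil .nil))) 
(.lf (nat_lit 94810) (.g (nat_lit 2277) (.e (nat_lit 2622) (nat_lit 164) (.e (nat_lit 172062) (nat_lit 2) (.e (nat_lit 196666) (nat_lit 13) (.e (nat_lit 65617) (nat_lit 10) (.e (nat_lit 344130) (nat_lit 26) .nil))))) .nil))) (.nd (nat_lit 6) 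
(.lf (nat_lit 94778) (.g (nat_lit 3728) (.e (nat_lit 2617) (nat_lit 164) (.e (nat_lit 172149) (nat_lit 27) (.e (nat_lit 336051) (nat_lit 6) (.e (nat_lit 147467) (nat_lit 9) (.e (nat_lit 297) (nat_lit 22) (.e (nat_lit 344119) (nat_lit 21) (.e (nat_lit 516117) (nat_lit 1) (.e (nat_lit 164226) (nat_lit 181) .nil)))))))) (.g (nat_lit 7) .nil .nil))) 
(.lf (nat_lit 94842) (.g (nat_lit 3087) (.e (nat_lit 2628) (nat_lit 164) (.e (nat_lit 172138) (nat_lit 15) (.e (nat_lit 1855) (nat_lit 124) (.e (nat_lit 557100) (nat_lit 13) (.e (nat_lit 172113) (nat_lit 10) (.e (nat_lit 434245) (nat_lit 28) (.e (nat_lit 573473) (nat_lit 12) (.e (nat_lit 57348) (nat_lit 0) (.e (nat_lit 6923) (nat_lit 371) .nil))))))))) (.g (nat_lit 5) .nil .nil))))))) 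
(.nd (nat_lit 3) (.nd (nat_lit 4) (.nd (nat_lit 5) (.nd (nat_lit 6) 
(.lf (nat_lit 94726) (.g (nat_lit 3535) (.e (nat_lit 2612) (nat_lit 163) (.e (nat_lit 164403) (nat_lit 256) (.e (nat_lit 57371) (nat_lit 2) (.e (nat_lit 90172) (nat_lit 14) (.e (nat_lit 180243) (nat_lit 5) (.e (nat_lit 532513) (nat_lit 3) (.e (nat_lit 114714) (nat_lit 22) (.e (nat_lit 90130) (nat_lit 9) .nil)))))))) (.g (nat_lit 5) .nil .nil))) 
(.lf (nat_lit 94790) (.g (nat_lit 2379) (.e (nat_lit 2619) (nat_lit 164) (.e (nat_lit 172126) (nat_lit 14) (.e (nat_lit 491540) (nat_lit 3) (.e (nat_lit 98373) (nat_lit 29) (.e (nat_lit 458496) (nat_lit 0) .nil))))) .nil))) (.nd (nat_lit 6) 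
(.lf (nat_lit 94758) (.g (nat_lit 861) (.e (nat_lit 2615) (nat_lit 163) (.e (nat_lit 164177) (nat_lit 154) (.e (nat_lit 57445) (nat_lit 19) (.e (nat_lit 401152) (nat_lit 14) .nil)))) .nil)) 
(.lf (nat_lit 94822) (.g (nat_lit 2303) (.e (nat_lit 2625) (nat_lit 164) (.e (nat_lit 172138) (nat_lit 15) (.e (nat_lit 1856) (nat_lit 124) (.e (nat_lit 557100) (nat_lit 13) (.e (nat_lit 172113) (nat_lit 10) (.e (nat_lit 434245) (nat_lit 28) (.e (nat_lit 573474) (nat_lit 12) (.e (nat_lit 57348) (nat_lit 0) (.e (nat_lit 6923) (nat_lit 371) .nil))))))))) (.g (nat_lit 4) .nil .nil))))) 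
(.nd (nat_lit 5) (.nd (nat_lit 6) 
(.lf (nat_lit 94742) (.g (nat_lit 4078) (.e (nat_lit 2612) (nat_lit 163) (.e (nat_lit 164422) (nat_lit 272) (.e (nat_lit 1196) (nat_lit 88) (.e (nat_lit 65630) (nat_lit 14) (.e (nat_lit 401459) (nat_lit 13) (.e (nat_lit 483344) (nat_lit 17) (.e (nat_lit 6619) (nat_lit 357) .nil))))))) (.g (nat_lit 7) .nil .nil))) 
(.lf (nat_lit 94806) (.g (nat_lit 2009) (.e (nat_lit 2621) (nat_lit 164) (.e (nat_lit 172064) (nat_lit 2) (.e (nat_lit 196666) (nat_lit 13) (.e (nat_lit 65617) (nat_lit 10) .nil)))) .nil))) (.nd (nat_lit 6) 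
(.lf (nat_lit 94774) (.g (nat_lit 2342) (.e (nat_lit 2617) (nat_lit 164) (.e (nat_lit 172126) (nat_lit 14) (.e (nat_lit 491540) (nat_lit 3) (.e (nat_lit 98373) (nat_lit 29) (.e (nat_lit 458496) (nat_lit 0) .nil))))) .nil)) 
(.lf (nat_lit 94838) (.g (nat_lit 1154) (.e (nat_lit 2628) (nat_lit 164) (.e (nat_lit 172126) (nat_lit 14) (.e (nat_lit 491549) (nat_lit 9) (.e (nat_lit 336432) (nat_lit 30) .nil)))) .nil))))) (.nd (nat_lit 4) (.nd (nat_lit 5) (.nd (nat_lit 6) 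
(.lf (nat_lit 94734) (.g (nat_lit 2538) (.e (nat_lit 2612) (nat_lit 163) (.e (nat_lit 164403) (nat_lit 256) (.e (nat_lit 57373) (nat_lit 2) (.e (nat_lit 90172) (nat_lit 14) (.e (nat_lit 180244) (nat_lit 5) .nil))))) .nil)) 
(.lf (nat_lit 94798) (.g (nat_lit 1864) (.e (nat_lit 2619) (nat_lit 164) (.e (nat_lit 172143) (nat_lit 25) (.e (nat_lit 319537) (nat_lit 19) (.e (nat_lit 311315) (nat_lit 3) (.e (nat_lit 204809) (nat_lit 9) (.e (nat_lit 426107) (nat_lit 1) (.e (nat_lit 164347) (nat_lit 240) .nil))))))) (.g (nat_lit 5) .nil .nil)))) (.nd (nat_lit 6) 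
(.lf (nat_lit 94766) (.g (nat_lit 1571) (.e (nat_lit 7936) (nat_lit 163) (.e (nat_lit 163975) (nat_lit 30) (.e (nat_lit 573451) (nat_lit 9) (.e (nat_lit 1569) (nat_lit 110) .nil)))) .nil)) 
(.lf (nat_lit 94830) (.g (nat_lit 2477) (.e (nat_lit 2628) (nat_lit 164) (.e (nat_lit 172124) (nat_lit 14) (.e (nat_lit 491540) (nat_lit 3) (.e (nat_lit 98373) (nat_lit 29) (.e (nat_lit 450560) (nat_lit 0) .nil))))) .nil)))) (.nd (nat_lit 5) (.nd (nat_lit 6) 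
(.lf (nat_lit 94750) (.g (nat_lit 2416) (.e (nat_lit 2613) (nat_lit 163) (.e (nat_lit 164398) (nat_lit 256) (.e (nat_lit 57373) (nat_lit 2) (.e (nat_lit 90172) (nat_lit 14) (.e (nat_lit 180244) (nat_lit 5) (.e (nat_lit 532515) (nat_lit 3) (.e (nat_lit 114716) (nat_lit 22) (.e (nat_lit 90133) (nat_lit 9) .nil)))))))) (.g (nat_lit 5) .nil .nil))) 
(.lf (nat_lit 94814) (.g (nat_lit 3375) (.e (nat_lit 2622) (nat_lit 164) (.e (nat_lit 172133) (nat_lit 15) (.e (nat_lit 1800) (nat_lit 119) (.e (nat_lit 516176) (nat_lit 14) (.e (nat_lit 466954) (nat_lit 11) (.e (nat_lit 335986) (nat_lit 1) (.e (nat_lit 57657) (nat_lit 152) .nil))))))) (.g (nat_lit 6) .nil .nil)))) (.nd (nat_lit 6) 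
(.lf (nat_lit 94782) (.g (nat_lit 854) (.e (nat_lit 2618) (nat_lit 164) (.e (nat_lit 172126) (nat_lit 14) (.e (nat_lit 491547) (nat_lit 9) .nil))) .nil)) 
(.lf (nat_lit 94846) (.g (nat_lit 3320) (.e (nat_lit 2628) (nat_lit 164) (.e (nat_lit 172138) (nat_lit 15) (.e (nat_lit 1855) (nat_lit 124) (.e (nat_lit 557100) (nat_lit 13) (.e (nat_lit 172113) (nat_lit 10) (.e (nat_lit 434248) (nat_lit 28) (.e (nat_lit 573475) (nat_lit 12) (.e (nat_lit 57348) (nat_lit 0) (.e (nat_lit 6923) (nat_lit 371) .nil))))))))) (.g (nat_lit 5) .nil .nil))))))))) 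
(.nd (nat_lit 1) (.nd (nat_lit 2) (.nd (nat_lit 3) (.nd (nat_lit 4) (.nd (nat_lit 5) 
(.nd (nat_lit 6) 
(.lf (nat_lit 94721) (.g (nat_lit 3719) (.e (nat_lit 2612) (nat_lit 163) (.e (nat_lit 164402) (nat_lit 256) (.e (nat_lit 57371) (nat_lit 2) (.e (nat_lit 90172) (nat_lit 14) (.e (nat_lit 180244) (nat_lit 5) (.e (nat_lit 532515) (nat_lit 3) (.e (nat_lit 114716) (nat_lit 22) (.e (nat_lit 90130) (nat_lit 9) .nil)))))))) (.g (nat_lit 7) .nil .nil))) 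
(.lf (nat_lit 94785) (.g (nat_lit 1632) (.e (nat_lit 2618) (nat_lit 164) (.e (nat_lit 172126) (nat_lit 14) (.e (nat_lit 491550) (nat_lit 9) (.e (nat_lit 336432) (nat_lit 30) .nil)))) .nil))) (.nd (nat_lit 6) 
(.lf (nat_lit 94753) (.g (nat_lit 2101) (.e (nat_lit 2613) (nat_lit 163) (.e (nat_lit 164399) (nat_lit 256) (.e (nat_lit 57373) (nat_lit 2) (.e (nat_lit 90172) (nat_lit 14) (.e (nat_lit 180244) (nat_lit 5) .nil))))) .nil)) 
(.lf (nat_lit 94817) (.g (nat_lit 2024) (.e (nat_lit 2622) (nat_lit 164) (.e (nat_lit 172143) (nat_lit 25) (.e (nat_lit 319534) (nat_lit 16) (.e (nat_lit 286728) (nat_lit 0) (.e (nat_lit 1859) (nat_lit 124) (.e (nat_lit 557105) (nat_lit 14) (.e (nat_lit 180233) (nat_lit 0) (.e (nat_lit 5448) (nat_lit 306) .nil)))))))) (.g (nat_lit 4) .nil .nil))))) (.nd (nat_lit 5) (.nd (nat_lit 6) 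
(.lf (nat_lit 94737) (.g (nat_lit 3305) (.e (nat_lit 2612) (nat_lit 163) (.e (nat_lit 164403) (nat_lit 256) (.e (nat_lit 57378) (nat_lit 3) (.e (nat_lit 98377) (nat_lit 30) (.e (nat_lit 458789) (nat_lit 23) (.e (nat_lit 532515) (nat_lit 3) (.e (nat_lit 114716) (nat_lit 22) (.e (nat_lit 90130) (nat_lit 9) .nil)))))))) (.g (nat_lit 6) .nil .nil))) 
(.lf (nat_lit 94801) (.g (nat_lit 2518) (.e (nat_lit 2620) (nat_lit 164) (.e (nat_lit 172064) (nat_lit 2) (.e (nat_lit 196666) (nat_lit 13) (.e (nat_lit 65617) (nat_lit 10) (.e (nat_lit 344127) (nat_lit 26) .nil))))) .nil))) (.nd (nat_lit 6) 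
(.lf (nat_lit 94769) (.g (nat_lit 1010) (.e (nat_lit 2616) (nat_lit 164) (.e (nat_lit 172133) (nat_lit 15) (.e (nat_lit 1800) (nat_lit 119) (.e (nat_lit 516149) (nat_lit 9) .nil)))) .nil)) 
(.lf (nat_lit 94833) (.g (nat_lit 971) (.e (nat_lit 2628) (nat_lit 164) (.e (nat_lit 172124) (nat_lit 14) (.e (nat_lit 491550) (nat_lit 9) (.e (nat_lit 336434) (nat_lit 30) .nil)))) .nil))))) (.nd (nat_lit 4) (.nd (nat_lit 5) (.nd (nat_lit 6) 
(.lf (nat_lit 94729) (.g (nat_lit 4131) (.e (nat_lit 2612) (nat_lit 163) (.e (nat_lit 164403) (nat_lit 256) (.e (nat_lit 57371) (nat_lit 2) (.e (nat_lit 90172) (nat_lit 14) (.e (nat_lit 180244) (nat_lit 5) (.e (nat_lit 532515) (nat_lit 3) (.e (nat_lit 114716) (nat_lit 22) (.e (nat_lit 90130) (nat_lit 9) .nil)))))))) (.g (nat_lit 7) .nil .nil))) 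
(.lf (nat_lit 94793) (.g (nat_lit 3451) (.e (nat_lit 2619) (nat_lit 164) (.e (nat_lit 172143) (nat_lit 25) (.e (nat_lit 319530) (nat_lit 16) (.e (nat_lit 286761) (nat_lit 13) (.e (nat_lit 393234) (nat_lit 17) (.e (nat_lit 2405) (nat_lit 157) (.e (nat_lit 4506) (nat_lit 263) .nil))))))) (.g (nat_lit 5) .nil .nil)))) (.nd (nat_lit 6) 
(.lf (nat_lit 94761) (.g (nat_lit 2408) (.e (nat_lit 2615) (nat_lit 163) (.e (nat_lit 164398) (nat_lit 256) (.e (nat_lit 57373) (nat_lit 2) (.e (nat_lit 90172) (nat_lit 14) (.e (nat_lit 180243) (nat_lit 5) .nil))))) .nil)) 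
(.lf (nat_lit 94825) (.g (nat_lit 1359) (.e (nat_lit 2626) (nat_lit 164) (.e (nat_lit 172126) (nat_lit 14) (.e (nat_lit 491540) (nat_lit 3) (.e (nat_lit 98372) (nat_lit 29) .nil)))) .nil)))) (.nd (nat_lit 5) (.nd (nat_lit 6) 
(.lf (nat_lit 94745) (.g (nat_lit 3689) (.e (nat_lit 2612) (nat_lit 163) (.e (nat_lit 164423) (nat_lit 272) (.e (nat_lit 1199) (nat_lit 88) (.e (nat_lit 65630) (nat_lit 14) (.e (nat_lit 401459) (nat_lit 13) (.e (nat_lit 483344) (nat_lit 17) (.e (nat_lit 6619) (nat_lit 357) .nil))))))) (.g (nat_lit 7) .nil .nil))) 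
(.lf (nat_lit 94809) (.g (nat_lit 1801) (.e (nat_lit 2621) (nat_lit 164) (.e (nat_lit 172126) (nat_lit 14) (.e (nat_lit 491549) (nat_lit 9) (.e (nat_lit 336430) (nat_lit 29) .nil)))) .nil))) (.nd (nat_lit 6) 
(.lf (nat_lit 94777) (.g (nat_lit 2954) (.e (nat_lit 2617) (nat_lit 164) (.e (nat_lit 172126) (nat_lit 14) (.e (nat_lit 491549) (nat_lit 9) (.e (nat_lit 336443) (nat_lit 32) (.e (nat_lit 466968) (nat_lit 21) .nil))))) .nil)) 
(.lf (nat_lit 94841) (.g (nat_lit 1209) (.e (nat_lit 2628) (nat_lit 164) (.e (nat_lit 172126) (nat_lit 14) (.e (nat_lit 491550) (nat_lit 9) (.e (nat_lit 336432) (nat_lit 30) .nil)))) .nil)))))) (.nd (nat_lit 3) (.nd (nat_lit 4) (.nd (nat_lit 5) (.nd (nat_lit 6) 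
(.lf (nat_lit 94725) (.g (nat_lit 1611) (.e (nat_lit 2612) (nat_lit 163) (.e (nat_lit 164403) (nat_lit 256) (.e (nat_lit 57371) (nat_lit 2) (.e (nat_lit 90171) (nat_lit 14) .nil)))) .nil)) 
(.lf (nat_lit 94789) (.g (nat_lit 1054) (.e (nat_lit 2619) (nat_lit 164) (.e (nat_lit 172124) (nat_lit 14) (.e (nat_lit 491550) (nat_lit 9) (.e (nat_lit 336432) (nat_lit 30) .nil)))) .nil))) (.nd (nat_lit 6) 
(.lf (nat_lit 94757) (.g (nat_lit 3298) (.e (nat_lit 2613) (nat_lit 163) (.e (nat_lit 164403) (nat_lit 256) (.e (nat_lit 57373) (nat_lit 2) (.e (nat_lit 90172) (nat_lit 14) (.e (nat_lit 180243) (nat_lit 5) .nil))))) .nil)) 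
(.lf (nat_lit 94821) (.g (nat_lit 1982) (.e (nat_lit 2625) (nat_lit 164) (.e (nat_lit 172138) (nat_lit 15) (.e (nat_lit 1856) (nat_lit 124) (.e (nat_lit 557100) (nat_lit 13) (.e (nat_lit 172113) (nat_lit 10) .nil))))) .nil)))) (.nd (nat_lit 5) (.nd (nat_lit 6) 
(.lf (nat_lit 94741) (.g (nat_lit 2179) (.e (nat_lit 2612) (nat_lit 163) (.e (nat_lit 164422) (nat_lit 272) (.e (nat_lit 1196) (nat_lit 88) (.e (nat_lit 65628) (nat_lit 14) (.e (nat_lit 401459) (nat_lit 13) (.e (nat_lit 483344) (nat_lit 17) (.e (nat_lit 6619) (nat_lit 357) .nil))))))) (.g (nat_lit 5) .nil .nil))) 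
(.lf (nat_lit 94805) (.g (nat_lit 2305) (.e (nat_lit 2621) (nat_lit 164) (.e (nat_lit 172062) (nat_lit 2) (.e (nat_lit 196666) (nat_lit 13) (.e (nat_lit 65617) (nat_lit 10) (.e (nat_lit 344130) (nat_lit 26) .nil))))) .nil))) (.nd (nat_lit 6) 
(.lf (nat_lit 94773) (.g (nat_lit 1578) (.e (nat_lit 2617) (nat_lit 164) (.e (nat_lit 172126) (nat_lit 14) (.e (nat_lit 491537) (nat_lit 2) (.e (nat_lit 90170) (nat_lit 13) (.e (nat_lit 172113) (nat_lit 10) .nil))))) .nil)) 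
(.lf (nat_lit 94837) (.g (nat_lit 1237) (.e (nat_lit 2628) (nat_lit 164) (.e (nat_lit 172126) (nat_lit 14) (.e (nat_lit 491547) (nat_lit 9) (.e (nat_lit 336434) (nat_lit 30) .nil)))) .nil))))) (.nd (nat_lit 4) (.nd (nat_lit 5) (.nd (nat_lit 6) 
(.lf (nat_lit 94733) (.g (nat_lit 4019) (.e (nat_lit 2612) (nat_lit 163) (.e (nat_lit 164403) (nat_lit 256) (.e (nat_lit 57373) (nat_lit 2) (.e (nat_lit 90172) (nat_lit 14) (.e (nat_lit 180243) (nat_lit 5) (.e (nat_lit 532515) (nat_lit 3) (.e (nat_lit 114716) (nat_lit 22) (.e (nat_lit 90130) (nat_lit 9) .nil)))))))) (.g (nat_lit 5) .nil .nil))) 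
(.lf (nat_lit 94797) (.g (nat_lit 3490) (.e (nat_lit 2619) (nat_lit 164) (.e (nat_lit 172143) (nat_lit 25) (.e (nat_lit 319531) (nat_lit 16) (.e (nat_lit 286761) (nat_lit 13) (.e (nat_lit 393234) (nat_lit 17) (.e (nat_lit 2405) (nat_lit 157) (.e (nat_lit 4506) (nat_lit 263) .nil))))))) (.g (nat_lit 5) .nil .nil)))) (.nd (nat_lit 6) 
(.lf (nat_lit 94765) (.g (nat_lit 2131) (.e (nat_lit 2615) (nat_lit 163) (.e (nat_lit 164400) (nat_lit 256) (.e (nat_lit 57374) (nat_lit 2) (.e (nat_lit 90170) (nat_lit 13) (.e (nat_lit 172067) (nat_lit 3) .nil))))) .nil)) 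
(.lf (nat_lit 94829) (.g (nat_lit 628) (.e (nat_lit 2628) (nat_lit 164) (.e (nat_lit 172120) (nat_lit 12) (.e (nat_lit 475207) (nat_lit 41) .nil))) .nil)))) (.nd (nat_lit 5) (.nd (nat_lit 6) 
(.lf (nat_lit 94749) (.g (nat_lit 2356) (.e (nat_lit 2613) (nat_lit 163) (.e (nat_lit 164398) (nat_lit 256) (.e (nat_lit 57372) (nat_lit 2) (.e (nat_lit 90172) (nat_lit 14) (.e (nat_lit 180244) (nat_lit 5) (.e (nat_lit 532515) (nat_lit 3) (.e (nat_lit 114716) (nat_lit 22) (.e (nat_lit 90133) (nat_lit 9) .nil)))))))) (.g (nat_lit 4) .nil .nil))) 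
(.lf (nat_lit 94813) (.g (nat_lit 3040) (.e (nat_lit 2622) (nat_lit 164) (.e (nat_lit 172124) (nat_lit 14) (.e (nat_lit 491550) (nat_lit 9) (.e (nat_lit 336443) (nat_lit 32) (.e (nat_lit 466982) (nat_lit 24) .nil))))) .nil))) (.nd (nat_lit 6) 
(.lf (nat_lit 94781) (.g (nat_lit 1802) (.e (nat_lit 2618) (nat_lit 164) (.e (nat_lit 172124) (nat_lit 14) (.e (nat_lit 491568) (nat_lit 13) (.e (nat_lit 393282) (nat_lit 24) .nil)))) .nil)) 
(.lf (nat_lit 94845) (.g (nat_lit 3310) (.e (nat_lit 2628) (nat_lit 164) (.e (nat_lit 172138) (nat_lit 15) (.e (nat_lit 1855) (nat_lit 124) (.e (nat_lit 557100) (nat_lit 13) (.e (nat_lit 172113) (nat_lit 10) (.e (nat_lit 434248) (nat_lit 28) (.e (nat_lit 573475) (nat_lit 12) (.e (nat_lit 57347) (nat_lit 0) (.e (nat_lit 6923) (nat_lit 371) .nil))))))))) (.g (nat_lit 5) .nil .nil)))))))) 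
(.nd (nat_lit 2) (.nd (nat_lit 3) (.nd (nat_lit 4) (.nd (nat_lit 5) (.nd (nat_lit 6) 
(.lf (nat_lit 94723) (.g (nat_lit 3479) (.e (nat_lit 2612) (nat_lit 163) (.e (nat_lit 164402) (nat_lit 256) (.e (nat_lit 57373) (nat_lit 2) (.e (nat_lit 90172) (nat_lit 14) (.e (nat_lit 180244) (nat_lit 5) (.e (nat_lit 532515) (nat_lit 3) (.e (nat_lit 114716) (nat_lit 22) (.e (nat_lit 90130) (nat_lit 9) .nil)))))))) (.g (nat_lit 7) .nil .nil))) 
(.lf (nat_lit 94787) (.g (nat_lit 608) (.e (nat_lit 2619) (nat_lit 164) (.e (nat_lit 172120) (nat_lit 12) (.e (nat_lit 475207) (nat_lit 41) .nil))) .nil))) (.nd (nat_lit 6) 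
(.lf (nat_lit 94755) (.g (nat_lit 2140) (.e (nat_lit 2613) (nat_lit 163) (.e (nat_lit 164403) (nat_lit 256) (.e (nat_lit 57371) (nat_lit 2) (.e (nat_lit 90172) (nat_lit 14) (.e (nat_lit 180244) (nat_lit 5) .nil))))) .nil)) 
(.lf (nat_lit 94819) (.g (nat_lit 1151) (.e (nat_lit 2623) (nat_lit 164) (.e (nat_lit 172049) (nat_lit 0) (.e (nat_lit 3579) (nat_lit 223) (.e (nat_lit 745476) (nat_lit 0) (.e (nat_lit 1598) (nat_lit 111) .nil))))) .nil)))) (.nd (nat_lit 5) (.nd (nat_lit 6) 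
(.lf (nat_lit 94739) (.g (nat_lit 2464) (.e (nat_lit 2612) (nat_lit 163) (.e (nat_lit 164422) (nat_lit 272) (.e (nat_lit 1188) (nat_lit 88) (.e (nat_lit 65630) (nat_lit 14) (.e (nat_lit 401459) (nat_lit 13) (.e (nat_lit 483344) (nat_lit 17) (.e (nat_lit 6619) (nat_lit 357) .nil))))))) (.g (nat_lit 5) .nil .nil))) 
(.lf (nat_lit 94803) (.g (nat_lit 2758) (.e (nat_lit 2620) (nat_lit 164) (.e (nat_lit 172064) (nat_lit 2) (.e (nat_lit 196666) (nat_lit 13) (.e (nat_lit 65617) (nat_lit 10) (.e (nat_lit 344132) (nat_lit 26) .nil))))) .nil))) (.nd (nat_lit 6) 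
(.lf (nat_lit 94771) (.g (nat_lit 1860) (.e (nat_lit 2616) (nat_lit 164) (.e (nat_lit 172133) (nat_lit 15) (.e (nat_lit 1800) (nat_lit 119) (.e (nat_lit 516174) (nat_lit 14) (.e (nat_lit 466954) (nat_lit 11) .nil))))) .nil)) 
(.lf (nat_lit 94835) (.g (nat_lit 2364) (.e (nat_lit 2628) (nat_lit 164) (.e (nat_lit 172126) (nat_lit 14) (.e (nat_lit 491540) (nat_lit 3) (.e (nat_lit 98373) (nat_lit 29) (.e (nat_lit 458496) (nat_lit 0) .nil))))) .nil))))) (.nd (nat_lit 4) (.nd (nat_lit 5) (.nd (nat_lit 6) 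
(.lf (nat_lit 94731) (.g (nat_lit 2947) (.e (nat_lit 2612) (nat_lit 163) (.e (nat_lit 164403) (nat_lit 256) (.e (nat_lit 57373) (nat_lit 2) (.e (nat_lit 90170) (nat_lit 13) (.e (nat_lit 172067) (nat_lit 3) (.e (nat_lit 204838) (nat_lit 20) (.e (nat_lit 114716) (nat_lit 22) (.e (nat_lit 90130) (nat_lit 9) .nil)))))))) (.g (nat_lit 4) .nil .nil))) 
(.lf (nat_lit 94795) (.g (nat_lit 3073) (.e (nat_lit 2619) (nat_lit 164) (.e (nat_lit 172143) (nat_lit 25) (.e (nat_lit 319530) (nat_lit 16) (.e (nat_lit 286761) (nat_lit 13) (.e (nat_lit 393234) (nat_lit 17) (.e (nat_lit 2411) (nat_lit 157) (.e (nat_lit 4507) (nat_lit 263) .nil))))))) (.g (nat_lit 5) .nil .nil)))) (.nd (nat_lit 6) 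
(.lf (nat_lit 94763) (.g (nat_lit 1802) (.e (nat_lit 2615) (nat_lit 163) (.e (nat_lit 164398) (nat_lit 256) (.e (nat_lit 57378) (nat_lit 3) (.e (nat_lit 98377) (nat_lit 30) (.e (nat_lit 458789) (nat_lit 23) (.e (nat_lit 532515) (nat_lit 3) (.e (nat_lit 114716) (nat_lit 22) (.e (nat_lit 90128) (nat_lit 9) .nil)))))))) (.g (nat_lit 4) .nil .nil))) 
(.lf (nat_lit 94827) (.g (nat_lit 2378) (.e (nat_lit 2628) (nat_lit 164) (.e (nat_lit 172062) (nat_lit 2) (.e (nat_lit 196666) (nat_lit 13) (.e (nat_lit 65617) (nat_lit 10) (.e (nat_lit 344132) (nat_lit 26) .nil))))) .nil)))) (.nd (nat_lit 5) (.nd (nat_lit 6) 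
(.lf (nat_lit 94747) (.g (nat_lit 3347) (.e (nat_lit 2612) (nat_lit 163) (.e (nat_lit 164423) (nat_lit 272) (.e (nat_lit 1200) (nat_lit 88) (.e (nat_lit 65630) (nat_lit 14) (.e (nat_lit 401459) (nat_lit 13) (.e (nat_lit 483344) (nat_lit 17) (.e (nat_lit 6619) (nat_lit 357) .nil))))))) (.g (nat_lit 6) .nil .nil))) 
(.lf (nat_lit 94811) (.g (nat_lit 2349) (.e (nat_lit 2622) (nat_lit 164) (.e (nat_lit 172062) (nat_lit 2) (.e (nat_lit 196666) (nat_lit 13) (.e (nat_lit 65617) (nat_lit 10) (.e (nat_lit 344132) (nat_lit 26) .nil))))) .nil))) (.nd (nat_lit 6) 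
(.lf (nat_lit 94779) (.g (nat_lit 2110) (.e (nat_lit 2617) (nat_lit 164) (.e (nat_lit 172150) (nat_lit 27) (.e (nat_lit 335986) (nat_lit 1) (.e (nat_lit 57655) (nat_lit 152) (.e (nat_lit 1206) (nat_lit 89) (.e (nat_lit 73746) (nat_lit 3) (.e (nat_lit 516117) (nat_lit 1) (.e (nat_lit 164226) (nat_lit 181) .nil)))))))) (.g (nat_lit 4) .nil .nil))) 
(.lf (nat_lit 94843) (.g (nat_lit 3243) (.e (nat_lit 2628) (nat_lit 164) (.e (nat_lit 172138) (nat_lit 15) (.e (nat_lit 1855) (nat_lit 124) (.e (nat_lit 557100) (nat_lit 13) (.e (nat_lit 172113) (nat_lit 10) (.e (nat_lit 434245) (nat_lit 28) (.e (nat_lit 573474) (nat_lit 12) (.e (nat_lit 57347) (nat_lit 0) (.e (nat_lit 6923) (nat_lit 371) .nil))))))))) (.g (nat_lit 5) .nil .nil))))))) 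
(.nd (nat_lit 3) (.nd (nat_lit 4) (.nd (nat_lit 5) (.nd (nat_lit 6) 
(.lf (nat_lit 94727) (.g (nat_lit 3832) (.e (nat_lit 2612) (nat_lit 163) (.e (nat_lit 164403) (nat_lit 256) (.e (nat_lit 57371) (nat_lit 2) (.e (nat_lit 90172) (nat_lit 14) (.e (nat_lit 180243) (nat_lit 5) (.e (nat_lit 532515) (nat_lit 3) (.e (nat_lit 114716) (nat_lit 22) (.e (nat_lit 90130) (nat_lit 9) .nil)))))))) (.g (nat_lit 6) .nil .nil))) 
(.lf (nat_lit 94791) (.g (nat_lit 1175) (.e (nat_lit 2619) (nat_lit 164) (.e (nat_lit 172126) (nat_lit 14) (.e (nat_lit 491549) (nat_lit 9) (.e (nat_lit 336432) (nat_lit 30) .nil)))) .nil))) (.nd (nat_lit 6) 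
(.lf (nat_lit 94759) (.g (nat_lit 2673) (.e (nat_lit 2615) (nat_lit 163) (.e (nat_lit 164398) (nat_lit 256) (.e (nat_lit 57372) (nat_lit 2) (.e (nat_lit 90172) (nat_lit 14) (.e (nat_lit 180243) (nat_lit 5) (.e (nat_lit 532515) (nat_lit 3) (.e (nat_lit 114716) (nat_lit 22) (.e (nat_lit 90128) (nat_lit 9) .nil)))))))) (.g (nat_lit 4) .nil .nil))) 
(.lf (nat_lit 94823) (.g (nat_lit 479) (.e (nat_lit 2626) (nat_lit 164) (.e (nat_lit 172119) (nat_lit 12) (.e (nat_lit 475184) (nat_lit 29) .nil))) .nil)))) (.nd (nat_lit 5) (.nd (nat_lit 6) 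
(.lf (nat_lit 94743) (.g (nat_lit 2362) (.e (nat_lit 2612) (nat_lit 163) (.e (nat_lit 164423) (nat_lit 272) (.e (nat_lit 1196) (nat_lit 88) (.e (nat_lit 65628) (nat_lit 14) (.e (nat_lit 401459) (nat_lit 13) (.e (nat_lit 483344) (nat_lit 17) (.e (nat_lit 6619) (nat_lit 357) .nil))))))) (.g (nat_lit 5) .nil .nil))) 
(.lf (nat_lit 94807) (.g (nat_lit 2835) (.e (nat_lit 2621) (nat_lit 164) (.e (nat_lit 172064) (nat_lit 2) (.e (nat_lit 196666) (nat_lit 13) (.e (nat_lit 65617) (nat_lit 10) (.e (nat_lit 344130) (nat_lit 26) .nil))))) .nil))) (.nd (nat_lit 6) 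
(.lf (nat_lit 94775) (.g (nat_lit 1760) (.e (nat_lit 2617) (nat_lit 164) (.e (nat_lit 172126) (nat_lit 14) (.e (nat_lit 491549) (nat_lit 9) (.e (nat_lit 336426) (nat_lit 29) .nil)))) .nil)) 
(.lf (nat_lit 94839) (.g (nat_lit 2676) (.e (nat_lit 2628) (nat_lit 164) (.e (nat_lit 172126) (nat_lit 14) (.e (nat_lit 491549) (nat_lit 9) (.e (nat_lit 336443) (nat_lit 32) (.e (nat_lit 466968) (nat_lit 21) .nil))))) .nil))))) (.nd (nat_lit 4) (.nd (nat_lit 5) (.nd (nat_lit 6) 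
(.lf (nat_lit 94735) (.g (nat_lit 3975) (.e (nat_lit 2612) (nat_lit 163) (.e (nat_lit 164403) (nat_lit 256) (.e (nat_lit 57373) (nat_lit 2) (.e (nat_lit 90172) (nat_lit 14) (.e (nat_lit 180244) (nat_lit 5) (.e (nat_lit 532513) (nat_lit 3) (.e (nat_lit 114714) (nat_lit 22) (.e (nat_lit 90130) (nat_lit 9) .nil)))))))) (.g (nat_lit 6) .nil .nil))) 
(.lf (nat_lit 94799) (.g (nat_lit 1895) (.e (nat_lit 2619) (nat_lit 164) (.e (nat_lit 172151) (nat_lit 35) (.e (nat_lit 409344) (nat_lit 30) (.e (nat_lit 360474) (nat_lit 8) (.e (nat_lit 557091) (nat_lit 12) (.e (nat_lit 163842) (nat_lit 0) (.e (nat_lit 4821) (nat_lit 281) .nil))))))) (.g (nat_lit 5) .nil .nil)))) (.nd (nat_lit 6) 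
(.lf (nat_lit 94767) (.g (nat_lit 1831) (.e (nat_lit 7936) (nat_lit 163) (.e (nat_lit 164399) (nat_lit 256) (.e (nat_lit 57378) (nat_lit 3) (.e (nat_lit 98368) (nat_lit 27) .nil)))) .nil)) 
(.lf (nat_lit 94831) (.g (nat_lit 1068) (.e (nat_lit 2628) (nat_lit 164) (.e (nat_lit 172124) (nat_lit 14) (.e (nat_lit 491549) (nat_lit 9) (.e (nat_lit 336432) (nat_lit 30) .nil)))) .nil)))) (.nd (nat_lit 5) (.nd (nat_lit 6) 
(.lf (nat_lit 94751) (.g (nat_lit 1957) (.e (nat_lit 2613) (nat_lit 163) (.e (nat_lit 164398) (nat_lit 256) (.e (nat_lit 57375) (nat_lit 2) (.e (nat_lit 90172) (nat_lit 14) (.e (nat_lit 180244) (nat_lit 5) .nil))))) .nil)) 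
(.lf (nat_lit 94815) (.g (nat_lit 1903) (.e (nat_lit 2622) (nat_lit 164) (.e (nat_lit 172143) (nat_lit 25) (.e (nat_lit 319534) (nat_lit 16) (.e (nat_lit 286728) (nat_lit 0) (.e (nat_lit 1858) (nat_lit 124) .nil))))) .nil))) (.nd (nat_lit 6) 
(.lf (nat_lit 94783) (.g (nat_lit 2488) (.e (nat_lit 2618) (nat_lit 164) (.e (nat_lit 172126) (nat_lit 14) (.e (nat_lit 491549) (nat_lit 9) (.e (nat_lit 336430) (nat_lit 29) (.e (nat_lit 442419) (nat_lit 21) .nil))))) .nil)) 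
(.lf (nat_lit 94847) (.g (nat_lit 1992) (.e (nat_lit 2628) (nat_lit 164) (.e (nat_lit 172138) (nat_lit 15) (.e (nat_lit 1856) (nat_lit 124) (.e (nat_lit 557100) (nat_lit 13) (.e (nat_lit 172113) (nat_lit 10) .nil))))) .nil)))))))))

noncomputable def tv1303 : DT := (.nd (nat_lit 0) (.nd (nat_lit 1) (.nd (nat_lit 2) (.nd (nat_lit 3) (.nd (nat_lit 4) (.nd (nat_lit 5) 
(.lf (nat_lit 94848) (.g (nat_lit 3358) (.e (nat_lit 2628) (nat_lit 164) (.e (nat_lit 172138) (nat_lit 15) (.e (nat_lit 1856) (nat_lit 124) (.e (nat_lit 557100) (nat_lit 13) (.e (nat_lit 172113) (nat_lit 10) (.e (nat_lit 434245) (nat_lit 28) (.e (nat_lit 573473) (nat_lit 12) (.e (nat_lit 57347) (nat_lit 0) (.e (nat_lit 6923) (nat_lit 371) .nil))))))))) (.g (nat_lit 6) .nil .nil))) 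
(.lf (nat_lit 94880) (.g (nat_lit 2693) (.e (nat_lit 2630) (nat_lit 164) (.e (nat_lit 172137) (nat_lit 15) (.e (nat_lit 1856) (nat_lit 124) (.e (nat_lit 557100) (nat_lit 13) (.e (nat_lit 172113) (nat_lit 10) (.e (nat_lit 434245) (nat_lit 28) (.e (nat_lit 573474) (nat_lit 12) (.e (nat_lit 57348) (nat_lit 0) (.e (nat_lit 6850) (nat_lit 371) .nil))))))))) (.g (nat_lit 4) .nil .nil)))) 
(.nd (nat_lit 5) 
(.lf (nat_lit 94864) (.g (nat_lit 2691) (.e (nat_lit 2629) (nat_lit 164) (.e (nat_lit 172124) (nat_lit 14) (.e (nat_lit 491549) (nat_lit 9) (.e (nat_lit 336443) (nat_lit 32) (.e (nat_lit 466968) (nat_lit 21) .nil))))) .nil)) 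
(.lf (nat_lit 94896) (.g (nat_lit 2968) (.e (nat_lit 2630) (nat_lit 164) (.e (nat_lit 172138) (nat_lit 15) (.e (nat_lit 1855) (nat_lit 124) (.e (nat_lit 557100) (nat_lit 13) (.e (nat_lit 172113) (nat_lit 10) (.e (nat_lit 434248) (nat_lit 28) (.e (nat_lit 573473) (nat_lit 12) (.e (nat_lit 57348) (nat_lit 0) (.e (nat_lit 6853) (nat_lit 371) .nil))))))))) (.g (nat_lit 4) .nil .nil))))) 
(.nd (nat_lit 4) (.nd (nat_lit 5) 
(.lf (nat_lit 94856) (.g (nat_lit 2806) (.e (nat_lit 2628) (nat_lit 164) (.e (nat_lit 172138) (nat_lit 15) (.e (nat_lit 1856) (nat_lit 124) (.e (nat_lit 557100) (nat_lit 13) (.e (nat_lit 172113) (nat_lit 10) (.e (nat_lit 434248) (nat_lit 28) (.e (nat_lit 573475) (nat_lit 12) (.e (nat_lit 57344) (nat_lit 0) (.e (nat_lit 6923) (nat_lit 371) .nil))))))))) (.g (nat_lit 5) .nil .nil))) 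
(.lf (nat_lit 94888) (.g (nat_lit 3181) (.e (nat_lit 2630) (nat_lit 164) (.e (nat_lit 172138) (nat_lit 15) (.e (nat_lit 1800) (nat_lit 119) (.e (nat_lit 516176) (nat_lit 14) (.e (nat_lit 466954) (nat_lit 11) (.e (nat_lit 335988) (nat_lit 1) (.e (nat_lit 57663) (nat_lit 152) .nil))))))) (.g (nat_lit 5) .nil .nil)))) (.nd (nat_lit 5) 
(.lf (nat_lit 94872) (.g (nat_lit 1928) (.e (nat_lit 2630) (nat_lit 164) (.e (nat_lit 172064) (nat_lit 2) (.e (nat_lit 196666) (nat_lit 13) (.e (nat_lit 65617) (nat_lit 10) (.e (nat_lit 344127) (nat_lit 26) .nil))))) .nil)) 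
(.lf (nat_lit 94904) (.g (nat_lit 2297) (.e (nat_lit 2630) (nat_lit 164) (.e (nat_lit 172138) (nat_lit 15) (.e (nat_lit 1855) (nat_lit 124) (.e (nat_lit 557100) (nat_lit 13) (.e (nat_lit 172113) (nat_lit 10) (.e (nat_lit 434248) (nat_lit 28) (.e (nat_lit 573475) (nat_lit 12) (.e (nat_lit 57348) (nat_lit 0) (.e (nat_lit 6852) (nat_lit 371) .nil))))))))) (.g (nat_lit 4) .nil .nil)))))) 
(.nd (nat_lit 3) (.nd (nat_lit 4) (.nd (nat_lit 5) 
(.lf (nat_lit 94852) (.g (nat_lit 5562) (.e (nat_lit 2628) (nat_lit 164) (.e (nat_lit 172138) (nat_lit 15) (.e (nat_lit 1856) (nat_lit 124) (.e (nat_lit 557100) (nat_lit 13) (.e (nat_lit 172113) (nat_lit 10) (.e (nat_lit 434245) (nat_lit 28) (.e (nat_lit 573474) (nat_lit 12) (.e (nat_lit 57348) (nat_lit 0) (.e (nat_lit 6923) (nat_lit 371) .nil))))))))) (.g (nat_lit 9) .nil .nil))) 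
(.lf (nat_lit 94884) (.g (nat_lit 2369) (.e (nat_lit 2630) (nat_lit 164) (.e (nat_lit 172137) (nat_lit 15) (.e (nat_lit 1856) (nat_lit 124) (.e (nat_lit 557100) (nat_lit 13) (.e (nat_lit 172113) (nat_lit 10) (.e (nat_lit 434248) (nat_lit 28) (.e (nat_lit 573475) (nat_lit 12) (.e (nat_lit 57348) (nat_lit 0) (.e (nat_lit 6850) (nat_lit 371) .nil))))))))) (.g (nat_lit 4) .nil .nil)))) 
(.nd (nat_lit 5) 
(.lf (nat_lit 94868) (.g (nat_lit 1230) (.e (nat_lit 2629) (nat_lit 164) (.e (nat_lit 172126) (nat_lit 14) (.e (nat_lit 491549) (nat_lit 9) (.e (nat_lit 336434) (nat_lit 30) .nil)))) .nil)) 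
(.lf (nat_lit 94900) (.g (nat_lit 3627) (.e (nat_lit 2630) (nat_lit 164) (.e (nat_lit 172138) (nat_lit 15) (.e (nat_lit 1855) (nat_lit 124) (.e (nat_lit 557100) (nat_lit 13) (.e (nat_lit 172113) (nat_lit 10) (.e (nat_lit 434248) (nat_lit 28) (.e (nat_lit 573475) (nat_lit 12) (.e (nat_lit 57347) (nat_lit 0) (.e (nat_lit 6850) (nat_lit 371) .nil))))))))) (.g (nat_lit 5) .nil .nil))))) 
(.nd (nat_lit 4) (.nd (nat_lit 5) 
(.lf (nat_lit 94860) (.g (nat_lit 719) (.e (nat_lit 2629) (nat_lit 164) (.e (nat_lit 172120) (nat_lit 12) (.e (nat_lit 475207) (nat_lit 41) .nil))) .nil)) 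
(.lf (nat_lit 94892) (.g (nat_lit 3144) (.e (nat_lit 2630) (nat_lit 164) (.e (nat_lit 172138) (nat_lit 15) (.e (nat_lit 1855) (nat_lit 124) (.e (nat_lit 557100) (nat_lit 13) (.e (nat_lit 172113) (nat_lit 10) (.e (nat_lit 434245) (nat_lit 28) (.e (nat_lit 573474) (nat_lit 12) (.e (nat_lit 57347) (nat_lit 0) (.e (nat_lit 6853) (nat_lit 371) .nil))))))))) (.g (nat_lit 5) .nil .nil)))) 
(.nd (nat_lit 5) 
(.lf (nat_lit 94876) (.g (nat_lit 1982) (.e (nat_lit 2630) (nat_lit 164) (.e (nat_lit 172126) (nat_lit 14) (.e (nat_lit 491537) (nat_lit 2) (.e (nat_lit 90170) (nat_lit 13) .nil)))) .nil)) 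
(.lf (nat_lit 94908) (.g (nat_lit 3510) (.e (nat_lit 2630) (nat_lit 164) (.e (nat_lit 172138) (nat_lit 15) (.e (nat_lit 1856) (nat_lit 124) (.e (nat_lit 557100) (nat_lit 13) (.e (nat_lit 172113) (nat_lit 10) (.e (nat_lit 434242) (nat_lit 28) (.e (nat_lit 573474) (nat_lit 12) (.e (nat_lit 57348) (nat_lit 0) (.e (nat_lit 6852) (nat_lit 371) .nil))))))))) (.g (nat_lit 5) .nil .nil))))))) 
(.nd (nat_lit 2) (.nd (nat_lit 3) (.nd (nat_lit 4) (.nd (nat_lit 5) 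
(.lf (nat_lit 94850) (.g (nat_lit 2229) (.e (nat_lit 2628) (nat_lit 164) (.e (nat_lit 172138) (nat_lit 15) (.e (nat_lit 1856) (nat_lit 124) (.e (nat_lit 557100) (nat_lit 13) (.e (nat_lit 172113) (nat_lit 10) (.e (nat_lit 434245) (nat_lit 28) (.e (nat_lit 573474) (nat_lit 12) (.e (nat_lit 57346) (nat_lit 0) (.e (nat_lit 6916) (nat_lit 371) .nil))))))))) (.g (nat_lit 4) .nil .nil))) 
(.lf (nat_lit 94882) (.g (nat_lit 2266) (.e (nat_lit 2630) (nat_lit 164) (.e (nat_lit 172137) (nat_lit 15) (.e (nat_lit 1856) (nat_lit 124) (.e (nat_lit 557100) (nat_lit 13) (.e (nat_lit 172113) (nat_lit 10) (.e (nat_lit 434248) (nat_lit 28) (.e (nat_lit 573473) (nat_lit 12) (.e (nat_lit 57348) (nat_lit 0) (.e (nat_lit 6850) (nat_lit 371) .nil))))))))) (.g (nat_lit 4) .nil .nil)))) 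
(.nd (nat_lit 5) 
(.lf (nat_lit 94866) (.g (nat_lit 2298) (.e (nat_lit 2629) (nat_lit 164) (.e (nat_lit 172126) (nat_lit 14) (.e (nat_lit 491540) (nat_lit 3) (.e (nat_lit 98373) (nat_lit 29) (.e (nat_lit 458496) (nat_lit 0) .nil))))) .nil)) 
(.lf (nat_lit 94898) (.g (nat_lit 2564) (.e (nat_lit 2630) (nat_lit 164) (.e (nat_lit 172138) (nat_lit 15) (.e (nat_lit 1855) (nat_lit 124) (.e (nat_lit 557100) (nat_lit 13) (.e (nat_lit 172113) (nat_lit 10) (.e (nat_lit 434248) (nat_lit 28) (.e (nat_lit 573475) (nat_lit 12) (.e (nat_lit 57345) (nat_lit 0) (.e (nat_lit 6850) (nat_lit 371) .nil))))))))) (.g (nat_lit 4) .nil .nil))))) 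
(.nd (nat_lit 4) (.nd (nat_lit 5) 
(.lf (nat_lit 94858) (.g (nat_lit 5228) (.e (nat_lit 2628) (nat_lit 164) (.e (nat_lit 172138) (nat_lit 15) (.e (nat_lit 1856) (nat_lit 124) (.e (nat_lit 557100) (nat_lit 13) (.e (nat_lit 172113) (nat_lit 10) (.e (nat_lit 434248) (nat_lit 28) (.e (nat_lit 573475) (nat_lit 12) (.e (nat_lit 57347) (nat_lit 0) (.e (nat_lit 6923) (nat_lit 371) .nil))))))))) (.g (nat_lit 8) .nil .nil))) 
(.lf (nat_lit 94890) (.g (nat_lit 2865) (.e (nat_lit 2630) (nat_lit 164) (.e (nat_lit 172138) (nat_lit 15) (.e (nat_lit 1855) (nat_lit 124) (.e (nat_lit 557100) (nat_lit 13) (.e (nat_lit 172113) (nat_lit 10) (.e (nat_lit 434245) (nat_lit 28) (.e (nat_lit 573473) (nat_lit 12) (.e (nat_lit 57348) (nat_lit 0) (.e (nat_lit 6853) (nat_lit 371) .nil))))))))) (.g (nat_lit 4) .nil .nil)))) 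
(.nd (nat_lit 5) 
(.lf (nat_lit 94874) (.g (nat_lit 1646) (.e (nat_lit 2630) (nat_lit 164) (.e (nat_lit 172065) (nat_lit 3) (.e (nat_lit 204863) (nat_lit 27) (.e (nat_lit 344144) (nat_lit 31) .nil)))) .nil)) 
(.lf (nat_lit 94906) (.g (nat_lit 1982) (.e (nat_lit 2630) (nat_lit 164) (.e (nat_lit 172138) (nat_lit 15) (.e (nat_lit 1856) (nat_lit 124) (.e (nat_lit 557100) (nat_lit 13) (.e (nat_lit 172113) (nat_lit 10) .nil))))) .nil))))) (.nd (nat_lit 3) (.nd (nat_lit 4) (.nd (nat_lit 5) 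
(.lf (nat_lit 94854) (.g (nat_lit 3368) (.e (nat_lit 2628) (nat_lit 164) (.e (nat_lit 172138) (nat_lit 15) (.e (nat_lit 1856) (nat_lit 124) (.e (nat_lit 557100) (nat_lit 13) (.e (nat_lit 172113) (nat_lit 10) (.e (nat_lit 434248) (nat_lit 28) (.e (nat_lit 573473) (nat_lit 12) (.e (nat_lit 57347) (nat_lit 0) (.e (nat_lit 6923) (nat_lit 371) .nil))))))))) (.g (nat_lit 6) .nil .nil))) 
(.lf (nat_lit 94886) (.g (nat_lit 2472) (.e (nat_lit 2630) (nat_lit 164) (.e (nat_lit 172138) (nat_lit 15) (.e (nat_lit 1800) (nat_lit 119) (.e (nat_lit 516174) (nat_lit 14) (.e (nat_lit 466954) (nat_lit 11) (.e (nat_lit 335988) (nat_lit 1) (.e (nat_lit 57663) (nat_lit 152) .nil))))))) (.g (nat_lit 4) .nil .nil)))) (.nd (nat_lit 5) 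
(.lf (nat_lit 94870) (.g (nat_lit 1590) (.e (nat_lit 2630) (nat_lit 164) (.e (nat_lit 172062) (nat_lit 2) (.e (nat_lit 196666) (nat_lit 13) (.e (nat_lit 65617) (nat_lit 10) (.e (nat_lit 344127) (nat_lit 26) .nil))))) .nil)) 
(.lf (nat_lit 94902) (.g (nat_lit 3211) (.e (nat_lit 2630) (nat_lit 164) (.e (nat_lit 172138) (nat_lit 15) (.e (nat_lit 1855) (nat_lit 124) (.e (nat_lit 557100) (nat_lit 13) (.e (nat_lit 172113) (nat_lit 10) (.e (nat_lit 434248) (nat_lit 28) (.e (nat_lit 573475) (nat_lit 12) (.e (nat_lit 57347) (nat_lit 0) (.e (nat_lit 6853) (nat_lit 371) .nil))))))))) (.g (nat_lit 5) .nil .nil))))) 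
(.nd (nat_lit 4) (.nd (nat_lit 5) 
(.lf (nat_lit 94862) (.g (nat_lit 634) (.e (nat_lit 2629) (nat_lit 164) (.e (nat_lit 172124) (nat_lit 14) (.e (nat_lit 491547) (nat_lit 9) .nil))) .nil)) 
(.lf (nat_lit 94894) (.g (nat_lit 3382) (.e (nat_lit 2630) (nat_lit 164) (.e (nat_lit 172138) (nat_lit 15) (.e (nat_lit 1855) (nat_lit 124) (.e (nat_lit 557100) (nat_lit 13) (.e (nat_lit 172113) (nat_lit 10) (.e (nat_lit 434245) (nat_lit 28) (.e (nat_lit 573474) (nat_lit 12) (.e (nat_lit 57348) (nat_lit 0) (.e (nat_lit 6853) (nat_lit 371) .nil))))))))) (.g (nat_lit 5) .nil .nil)))) 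
(.nd (nat_lit 5) 
(.lf (nat_lit 94878) (.g (nat_lit 2680) (.e (nat_lit 2630) (nat_lit 164) (.e (nat_lit 172126) (nat_lit 14) (.e (nat_lit 491540) (nat_lit 3) (.e (nat_lit 98373) (nat_lit 29) (.e (nat_lit 458496) (nat_lit 0) .nil))))) .nil)) 
(.lf (nat_lit 94910) (.g (nat_lit 2292) (.e (nat_lit 2630) (nat_lit 164) (.e (nat_lit 172138) (nat_lit 15) (.e (nat_lit 1856) (nat_lit 124) (.e (nat_lit 557100) (nat_lit 13) (.e (nat_lit 172113) (nat_lit 10) (.e (nat_lit 434245) (nat_lit 28) (.e (nat_lit 573473) (nat_lit 12) (.e (nat_lit 57345) (nat_lit 0) (.e (nat_lit 6853) (nat_lit 371) .nil))))))))) (.g (nat_lit 4) .nil .nil)))))))) 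
(.nd (nat_lit 1) (.nd (nat_lit 2) (.nd (nat_lit 3) (.nd (nat_lit 4) (.nd (nat_lit 5) 
(.lf (nat_lit 94849) (.g (nat_lit 5016) (.e (nat_lit 2628) (nat_lit 164) (.e (nat_lit 172138) (nat_lit 15) (.e (nat_lit 1856) (nat_lit 124) (.e (nat_lit 557100) (nat_lit 13) (.e (nat_lit 172113) (nat_lit 10) (.e (nat_lit 434245) (nat_lit 28) (.e (nat_lit 573473) (nat_lit 12) (.e (nat_lit 57348) (nat_lit 0) (.e (nat_lit 6923) (nat_lit 371) .nil))))))))) (.g (nat_lit 0) .nil .nil))) 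
(.lf (nat_lit 94881) (.g (nat_lit 2330) (.e (nat_lit 2630) (nat_lit 164) (.e (nat_lit 172137) (nat_lit 15) (.e (nat_lit 1856) (nat_lit 124) (.e (nat_lit 557100) (nat_lit 13) (.e (nat_lit 172113) (nat_lit 10) (.e (nat_lit 434245) (nat_lit 28) (.e (nat_lit 573474) (nat_lit 12) (.e (nat_lit 57348) (nat_lit 0) (.e (nat_lit 6853) (nat_lit 371) .nil))))))))) (.g (nat_lit 4) .nil .nil)))) 
(.nd (nat_lit 5) 
(.lf (nat_lit 94865) (.g (nat_lit 2705) (.e (nat_lit 2629) (nat_lit 164) (.e (nat_lit 172124) (nat_lit 14) (.e (nat_lit 491549) (nat_lit 9) (.e (nat_lit 336443) (nat_lit 32) (.e (nat_lit 466970) (nat_lit 21) .nil))))) .nil)) 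
(.lf (nat_lit 94897) (.g (nat_lit 2268) (.e (nat_lit 2630) (nat_lit 164) (.e (nat_lit 172138) (nat_lit 15) (.e (nat_lit 1855) (nat_lit 124) (.e (nat_lit 557100) (nat_lit 13) (.e (nat_lit 172113) (nat_lit 10) (.e (nat_lit 434248) (nat_lit 28) (.e (nat_lit 573475) (nat_lit 12) (.e (nat_lit 57344) (nat_lit 0) (.e (nat_lit 6850) (nat_lit 371) .nil))))))))) (.g (nat_lit 4) .nil .nil))))) 
(.nd (nat_lit 4) (.nd (nat_lit 5) 
(.lf (nat_lit 94857) (.g (nat_lit 2710) (.e (nat_lit 2628) (nat_lit 164) (.e (nat_lit 172138) (nat_lit 15) (.e (nat_lit 1856) (nat_lit 124) (.e (nat_lit 557100) (nat_lit 13) (.e (nat_lit 172113) (nat_lit 10) (.e (nat_lit 434248) (nat_lit 28) (.e (nat_lit 573475) (nat_lit 12) (.e (nat_lit 57345) (nat_lit 0) (.e (nat_lit 6923) (nat_lit 371) .nil))))))))) (.g (nat_lit 5) .nil .nil))) 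
(.lf (nat_lit 94889) (.g (nat_lit 3226) (.e (nat_lit 2630) (nat_lit 164) (.e (nat_lit 172138) (nat_lit 15) (.e (nat_lit 1855) (nat_lit 124) (.e (nat_lit 557100) (nat_lit 13) (.e (nat_lit 172113) (nat_lit 10) (.e (nat_lit 434245) (nat_lit 28) (.e (nat_lit 573473) (nat_lit 12) (.e (nat_lit 57348) (nat_lit 0) (.e (nat_lit 6850) (nat_lit 371) .nil))))))))) (.g (nat_lit 5) .nil .nil)))) 
(.nd (nat_lit 5) 
(.lf (nat_lit 94873) (.g (nat_lit 2168) (.e (nat_lit 2630) (nat_lit 164) (.e (nat_lit 172064) (nat_lit 2) (.e (nat_lit 196666) (nat_lit 13) (.e (nat_lit 65617) (nat_lit 10) (.e (nat_lit 344132) (nat_lit 26) .nil))))) .nil)) 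
(.lf (nat_lit 94905) (.g (nat_lit 3069) (.e (nat_lit 2630) (nat_lit 164) (.e (nat_lit 172138) (nat_lit 15) (.e (nat_lit 1855) (nat_lit 124) (.e (nat_lit 557100) (nat_lit 13) (.e (nat_lit 172113) (nat_lit 10) (.e (nat_lit 434248) (nat_lit 28) (.e (nat_lit 573475) (nat_lit 12) (.e (nat_lit 57348) (nat_lit 0) (.e (nat_lit 6853) (nat_lit 371) .nil))))))))) (.g (nat_lit 4) .nil .nil)))))) 
(.nd (nat_lit 3) (.nd (nat_lit 4) (.nd (nat_lit 5) 
(.lf (nat_lit 94853) (.g (nat_lit 2619) (.e (nat_lit 2628) (nat_lit 164) (.e (nat_lit 172138) (nat_lit 15) (.e (nat_lit 1856) (nat_lit 124) (.e (nat_lit 557100) (nat_lit 13) (.e (nat_lit 172113) (nat_lit 10) (.e (nat_lit 434247) (nat_lit 28) (.e (nat_lit 573473) (nat_lit 12) (.e (nat_lit 57348) (nat_lit 0) (.e (nat_lit 6923) (nat_lit 371) .nil))))))))) (.g (nat_lit 4) .nil .nil))) 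
(.lf (nat_lit 94885) (.g (nat_lit 2902) (.e (nat_lit 2630) (nat_lit 164) (.e (nat_lit 172138) (nat_lit 15) (.e (nat_lit 1800) (nat_lit 119) (.e (nat_lit 516150) (nat_lit 9) (.e (nat_lit 426323) (nat_lit 13) (.e (nat_lit 483364) (nat_lit 18) (.e (nat_lit 57663) (nat_lit 152) .nil))))))) (.g (nat_lit 5) .nil .nil)))) (.nd (nat_lit 5) 
(.lf (nat_lit 94869) (.g (nat_lit 2713) (.e (nat_lit 2629) (nat_lit 164) (.e (nat_lit 172126) (nat_lit 14) (.e (nat_lit 491549) (nat_lit 9) (.e (nat_lit 336443) (nat_lit 32) (.e (nat_lit 466968) (nat_lit 21) .nil))))) .nil)) 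
(.lf (nat_lit 94901) (.g (nat_lit 2216) (.e (nat_lit 2630) (nat_lit 164) (.e (nat_lit 172138) (nat_lit 15) (.e (nat_lit 1855) (nat_lit 124) (.e (nat_lit 557100) (nat_lit 13) (.e (nat_lit 172113) (nat_lit 10) (.e (nat_lit 434248) (nat_lit 28) (.e (nat_lit 573475) (nat_lit 12) (.e (nat_lit 57347) (nat_lit 0) (.e (nat_lit 6852) (nat_lit 371) .nil))))))))) (.g (nat_lit 4) .nil .nil))))) 
(.nd (nat_lit 4) (.nd (nat_lit 5) 
(.lf (nat_lit 94861) (.g (nat_lit 2273) (.e (nat_lit 2629) (nat_lit 164) (.e (nat_lit 172120) (nat_lit 12) (.e (nat_lit 475207) (nat_lit 41) (.e (nat_lit 712755) (nat_lit 30) (.e (nat_lit 450563) (nat_lit 0) (.e (nat_lit 5537) (nat_lit 306) .nil)))))) (.g (nat_lit 4) .nil .nil))) 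
(.lf (nat_lit 94893) (.g (nat_lit 2610) (.e (nat_lit 2630) (nat_lit 164) (.e (nat_lit 172138) (nat_lit 15) (.e (nat_lit 1855) (nat_lit 124) (.e (nat_lit 557100) (nat_lit 13) (.e (nat_lit 172113) (nat_lit 10) (.e (nat_lit 434245) (nat_lit 28) (.e (nat_lit 573474) (nat_lit 12) (.e (nat_lit 57348) (nat_lit 0) (.e (nat_lit 6852) (nat_lit 371) .nil))))))))) (.g (nat_lit 4) .nil .nil)))) 
(.nd (nat_lit 5) 
(.lf (nat_lit 94877) (.g (nat_lit 2329) (.e (nat_lit 2630) (nat_lit 164) (.e (nat_lit 172126) (nat_lit 14) (.e (nat_lit 491540) (nat_lit 3) (.e (nat_lit 98372) (nat_lit 29) (.e (nat_lit 458496) (nat_lit 0) .nil))))) .nil)) 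
(.lf (nat_lit 94909) (.g (nat_lit 2373) (.e (nat_lit 2630) (nat_lit 164) (.e (nat_lit 172138) (nat_lit 15) (.e (nat_lit 1856) (nat_lit 124) (.e (nat_lit 557100) (nat_lit 13) (.e (nat_lit 172113) (nat_lit 10) (.e (nat_lit 434245) (nat_lit 28) (.e (nat_lit 573473) (nat_lit 12) (.e (nat_lit 57345) (nat_lit 0) (.e (nat_lit 6850) (nat_lit 371) .nil))))))))) (.g (nat_lit 4) .nil .nil))))))) 
(.nd (nat_lit 2) (.nd (nat_lit 3) (.nd (nat_lit 4) (.nd (nat_lit 5) 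
(.lf (nat_lit 94851) (.g (nat_lit 5172) (.e (nat_lit 2628) (nat_lit 164) (.e (nat_lit 172138) (nat_lit 15) (.e (nat_lit 1856) (nat_lit 124) (.e (nat_lit 557100) (nat_lit 13) (.e (nat_lit 172113) (nat_lit 10) (.e (nat_lit 434245) (nat_lit 28) (.e (nat_lit 573474) (nat_lit 12) (.e (nat_lit 57347) (nat_lit 0) (.e (nat_lit 6923) (nat_lit 371) .nil))))))))) (.g (nat_lit 8) .nil .nil))) 
(.lf (nat_lit 94883) (.g (nat_lit 2564) (.e (nat_lit 2630) (nat_lit 164) (.e (nat_lit 172137) (nat_lit 15) (.e (nat_lit 1856) (nat_lit 124) (.e (nat_lit 557100) (nat_lit 13) (.e (nat_lit 172113) (nat_lit 10) (.e (nat_lit 434248) (nat_lit 28) (.e (nat_lit 573475) (nat_lit 12) (.e (nat_lit 57347) (nat_lit 0) (.e (nat_lit 6850) (nat_lit 371) .nil))))))))) (.g (nat_lit 4) .nil .nil)))) 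
(.nd (nat_lit 5) 
(.lf (nat_lit 94867) (.g (nat_lit 1644) (.e (nat_lit 2629) (nat_lit 164) (.e (nat_lit 172126) (nat_lit 14) (.e (nat_lit 491549) (nat_lit 9) (.e (nat_lit 336426) (nat_lit 29) .nil)))) .nil)) 
(.lf (nat_lit 94899) (.g (nat_lit 2444) (.e (nat_lit 2630) (nat_lit 164) (.e (nat_lit 172138) (nat_lit 15) (.e (nat_lit 1855) (nat_lit 124) (.e (nat_lit 557100) (nat_lit 13) (.e (nat_lit 172113) (nat_lit 10) (.e (nat_lit 434248) (nat_lit 28) (.e (nat_lit 573475) (nat_lit 12) (.e (nat_lit 57345) (nat_lit 0) (.e (nat_lit 6853) (nat_lit 371) .nil))))))))) (.g (nat_lit 4) .nil .nil))))) 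
(.nd (nat_lit 4) (.nd (nat_lit 5) 
(.lf (nat_lit 94859) (.g (nat_lit 2679) (.e (nat_lit 2628) (nat_lit 164) (.e (nat_lit 179968) (nat_lit 20) (.e (nat_lit 114710) (nat_lit 21) (.e (nat_lit 57855) (nat_lit 253) (.e (nat_lit 122919) (nat_lit 15) (.e (nat_lit 360451) (nat_lit 0) (.e (nat_lit 6923) (nat_lit 371) .nil))))))) (.g (nat_lit 6) .nil .nil))) 
(.lf (nat_lit 94891) (.g (nat_lit 3560) (.e (nat_lit 2630) (nat_lit 164) (.e (nat_lit 172138) (nat_lit 15) (.e (nat_lit 1855) (nat_lit 124) (.e (nat_lit 557100) (nat_lit 13) (.e (nat_lit 172113) (nat_lit 10) (.e (nat_lit 434245) (nat_lit 28) (.e (nat_lit 573474) (nat_lit 12) (.e (nat_lit 57347) (nat_lit 0) (.e (nat_lit 6850) (nat_lit 371) .nil))))))))) (.g (nat_lit 5) .nil .nil)))) 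
(.nd (nat_lit 5) 
(.lf (nat_lit 94875) (.g (nat_lit 2162) (.e (nat_lit 2630) (nat_lit 164) (.e (nat_lit 172124) (nat_lit 14) (.e (nat_lit 491549) (nat_lit 9) (.e (nat_lit 336443) (nat_lit 32) (.e (nat_lit 466982) (nat_lit 24) .nil))))) .nil)) 
(.lf (nat_lit 94907) (.g (nat_lit 2838) (.e (nat_lit 2630) (nat_lit 164) (.e (nat_lit 172138) (nat_lit 15) (.e (nat_lit 1856) (nat_lit 124) (.e (nat_lit 557100) (nat_lit 13) (.e (nat_lit 172113) (nat_lit 10) (.e (nat_lit 434242) (nat_lit 28) (.e (nat_lit 573474) (nat_lit 12) (.e (nat_lit 57347) (nat_lit 0) (.e (nat_lit 6852) (nat_lit 371) .nil))))))))) (.g (nat_lit 4) .nil .nil)))))) 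
(.nd (nat_lit 3) (.nd (nat_lit 4) (.nd (nat_lit 5) 
(.lf (nat_lit 94855) (.g (nat_lit 5108) (.e (nat_lit 2628) (nat_lit 164) (.e (nat_lit 172138) (nat_lit 15) (.e (nat_lit 1856) (nat_lit 124) (.e (nat_lit 557100) (nat_lit 13) (.e (nat_lit 172113) (nat_lit 10) (.e (nat_lit 434248) (nat_lit 28) (.e (nat_lit 573473) (nat_lit 12) (.e (nat_lit 57348) (nat_lit 0) (.e (nat_lit 6923) (nat_lit 371) .nil))))))))) (.g (nat_lit 0) .nil .nil))) 
(.lf (nat_lit 94887) (.g (nat_lit 1565) (.e (nat_lit 2630) (nat_lit 164) (.e (nat_lit 172138) (nat_lit 15) (.e (nat_lit 1800) (nat_lit 119) (.e (nat_lit 516176) (nat_lit 14) (.e (nat_lit 466954) (nat_lit 11) .nil))))) .nil))) (.nd (nat_lit 5) 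
(.lf (nat_lit 94871) (.g (nat_lit 1831) (.e (nat_lit 2630) (nat_lit 164) (.e (nat_lit 172062) (nat_lit 2) (.e (nat_lit 196666) (nat_lit 13) (.e (nat_lit 65617) (nat_lit 10) (.e (nat_lit 344132) (nat_lit 26) .nil))))) .nil)) 
(.lf (nat_lit 94903) (.g (nat_lit 3432) (.e (nat_lit 2630) (nat_lit 164) (.e (nat_lit 172138) (nat_lit 15) (.e (nat_lit 1855) (nat_lit 124) (.e (nat_lit 557100) (nat_lit 13) (.e (nat_lit 172113) (nat_lit 10) (.e (nat_lit 434248) (nat_lit 28) (.e (nat_lit 573475) (nat_lit 12) (.e (nat_lit 57348) (nat_lit 0) (.e (nat_lit 6850) (nat_lit 371) .nil))))))))) (.g (nat_lit 5) .nil .nil))))) 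
(.nd (nat_lit 4) (.nd (nat_lit 5) 
(.lf (nat_lit 94863) (.g (nat_lit 2185) (.e (nat_lit 2629) (nat_lit 164) (.e (nat_lit 172124) (nat_lit 14) (.e (nat_lit 491549) (nat_lit 9) (.e (nat_lit 336432) (nat_lit 30) (.e (nat_lit 450564) (nat_lit 0) .nil))))) .nil)) 
(.lf (nat_lit 94895) (.g (nat_lit 3329) (.e (nat_lit 2630) (nat_lit 164) (.e (nat_lit 172138) (nat_lit 15) (.e (nat_lit 1855) (nat_lit 124) (.e (nat_lit 557100) (nat_lit 13) (.e (nat_lit 172113) (nat_lit 10) (.e (nat_lit 434248) (nat_lit 28) (.e (nat_lit 573473) (nat_lit 12) (.e (nat_lit 57348) (nat_lit 0) (.e (nat_lit 6850) (nat_lit 371) .nil))))))))) (.g (nat_lit 5) .nil .nil)))) 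
(.nd (nat_lit 5) 
(.lf (nat_lit 94879) (.g (nat_lit 2508) (.e (nat_lit 2630) (nat_lit 164) (.e (nat_lit 172137) (nat_lit 15) (.e (nat_lit 1856) (nat_lit 124) (.e (nat_lit 557100) (nat_lit 13) (.e (nat_lit 172113) (nat_lit 10) (.e (nat_lit 434245) (nat_lit 28) (.e (nat_lit 573474) (nat_lit 12) (.e (nat_lit 57347) (nat_lit 0) (.e (nat_lit 6850) (nat_lit 371) .nil))))))))) (.g (nat_lit 4) .nil .nil))) 
(.lf (nat_lit 94911) (.g (nat_lit 3744) (.e (nat_lit 2630) (nat_lit 164) (.e (nat_lit 172138) (nat_lit 15) (.e (nat_lit 1856) (nat_lit 124) (.e (nat_lit 557100) (nat_lit 13) (.e (nat_lit 172113) (nat_lit 10) (.e (nat_lit 434245) (nat_lit 28) (.e (nat_lit 573473) (nat_lit 12) (.e (nat_lit 57347) (nat_lit 0) (.e (nat_lit 6850) (nat_lit 371) .nil))))))))) (.g (nat_lit 6) .nil .nil)))))))))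

noncomputable def tv1304 : DT := (.nd (nat_lit 0) (.nd (nat_lit 1) (.nd (nat_lit 2) (.nd (nat_lit 3) (.nd (nat_lit 4) (.nd (nat_lit 5) 
(.lf (nat_lit 94912) (.g (nat_lit 2333) (.e (nat_lit 2630) (nat_lit 164) (.e (nat_lit 172138) (nat_lit 15) (.e (nat_lit 1856) (nat_lit 124) (.e (nat_lit 557100) (nat_lit 13) (.e (nat_lit 172113) (nat_lit 10) (.e (nat_lit 434245) (nat_lit 28) (.e (nat_lit 573473) (nat_lit 12) (.e (nat_lit 57347) (nat_lit 0) (.e (nat_lit 6852) (nat_lit 371) .nil))))))))) (.g (nat_lit 4) .nil .nil))) 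
(.lf (nat_lit 94944) (.g (nat_lit 2365) (.e (nat_lit 2630) (nat_lit 164) (.e (nat_lit 172138) (nat_lit 15) (.e (nat_lit 1856) (nat_lit 124) (.e (nat_lit 557100) (nat_lit 13) (.e (nat_lit 172113) (nat_lit 10) (.e (nat_lit 434247) (nat_lit 28) (.e (nat_lit 573478) (nat_lit 12) (.e (nat_lit 57352) (nat_lit 0) (.e (nat_lit 6850) (nat_lit 371) .nil))))))))) (.g (nat_lit 4) .nil .nil)))) 
(.nd (nat_lit 5) 
(.lf (nat_lit 94928) (.g (nat_lit 2827) (.e (nat_lit 2630) (nat_lit 164) (.e (nat_lit 172138) (nat_lit 15) (.e (nat_lit 1856) (nat_lit 124) (.e (nat_lit 557100) (nat_lit 13) (.e (nat_lit 172113) (nat_lit 10) (.e (nat_lit 434245) (nat_lit 28) (.e (nat_lit 573474) (nat_lit 12) (.e (nat_lit 57348) (nat_lit 0) (.e (nat_lit 6848) (nat_lit 371) .nil))))))))) (.g (nat_lit 4) .nil .nil))) 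
(.lf (nat_lit 94960) (.g (nat_lit 2802) (.e (nat_lit 2630) (nat_lit 164) (.e (nat_lit 172138) (nat_lit 15) (.e (nat_lit 1856) (nat_lit 124) (.e (nat_lit 557100) (nat_lit 13) (.e (nat_lit 172113) (nat_lit 10) (.e (nat_lit 434248) (nat_lit 28) (.e (nat_lit 573475) (nat_lit 12) (.e (nat_lit 57345) (nat_lit 0) (.e (nat_lit 6848) (nat_lit 371) .nil))))))))) (.g (nat_lit 4) .nil .nil))))) 
(.nd (nat_lit 4) (.nd (nat_lit 5) 
(.lf (nat_lit 94920) (.g (nat_lit 2340) (.e (nat_lit 2630) (nat_lit 164) (.e (nat_lit 172138) (nat_lit 15) (.e (nat_lit 1856) (nat_lit 124) (.e (nat_lit 557100) (nat_lit 13) (.e (nat_lit 172113) (nat_lit 10) (.e (nat_lit 434245) (nat_lit 28) (.e (nat_lit 573474) (nat_lit 12) (.e (nat_lit 57344) (nat_lit 0) (.e (nat_lit 6852) (nat_lit 371) .nil))))))))) (.g (nat_lit 4) .nil .nil))) 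
(.lf (nat_lit 94952) (.g (nat_lit 5316) (.e (nat_lit 2630) (nat_lit 164) (.e (nat_lit 172138) (nat_lit 15) (.e (nat_lit 1856) (nat_lit 124) (.e (nat_lit 557100) (nat_lit 13) (.e (nat_lit 172113) (nat_lit 10) (.e (nat_lit 434248) (nat_lit 28) (.e (nat_lit 573473) (nat_lit 12) (.e (nat_lit 57348) (nat_lit 0) (.e (nat_lit 6850) (nat_lit 371) .nil))))))))) (.g (nat_lit 0) .nil .nil)))) 
(.nd (nat_lit 5) 
(.lf (nat_lit 94936) (.g (nat_lit 2052) (.e (nat_lit 2630) (nat_lit 164) (.e (nat_lit 172138) (nat_lit 15) (.e (nat_lit 1856) (nat_lit 124) (.e (nat_lit 557100) (nat_lit 13) (.e (nat_lit 172113) (nat_lit 10) (.e (nat_lit 434247) (nat_lit 28) (.e (nat_lit 573477) (nat_lit 12) (.e (nat_lit 57344) (nat_lit 0) (.e (nat_lit 6853) (nat_lit 371) .nil))))))))) (.g (nat_lit 4) .nil .nil))) 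
(.lf (nat_lit 94968) (.g (nat_lit 4284) (.e (nat_lit 2630) (nat_lit 164) (.e (nat_lit 172138) (nat_lit 15) (.e (nat_lit 1856) (nat_lit 124) (.e (nat_lit 557100) (nat_lit 13) (.e (nat_lit 172113) (nat_lit 10) (.e (nat_lit 434248) (nat_lit 28) (.e (nat_lit 573475) (nat_lit 12) (.e (nat_lit 57348) (nat_lit 0) (.e (nat_lit 6852) (nat_lit 371) .nil))))))))) (.g (nat_lit 7) .nil .nil)))))) 
(.nd (nat_lit 3) (.nd (nat_lit 4) (.nd (nat_lit 5) 
(.lf (nat_lit 94916) (.g (nat_lit 4091) (.e (nat_lit 2630) (nat_lit 164) (.e (nat_lit 172138) (nat_lit 15) (.e (nat_lit 1856) (nat_lit 124) (.e (nat_lit 557100) (nat_lit 13) (.e (nat_lit 172113) (nat_lit 10) (.e (nat_lit 434245) (nat_lit 28) (.e (nat_lit 573473) (nat_lit 12) (.e (nat_lit 57348) (nat_lit 0) (.e (nat_lit 6852) (nat_lit 371) .nil))))))))) (.g (nat_lit 7) .nil .nil))) 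
(.lf (nat_lit 94948) (.g (nat_lit 3754) (.e (nat_lit 2630) (nat_lit 164) (.e (nat_lit 172138) (nat_lit 15) (.e (nat_lit 1856) (nat_lit 124) (.e (nat_lit 557100) (nat_lit 13) (.e (nat_lit 172113) (nat_lit 10) (.e (nat_lit 434248) (nat_lit 28) (.e (nat_lit 573473) (nat_lit 12) (.e (nat_lit 57347) (nat_lit 0) (.e (nat_lit 6850) (nat_lit 371) .nil))))))))) (.g (nat_lit 6) .nil .nil)))) 
(.nd (nat_lit 5) 
(.lf (nat_lit 94932) (.g (nat_lit 3559) (.e (nat_lit 2630) (nat_lit 164) (.e (nat_lit 172138) (nat_lit 15) (.e (nat_lit 1856) (nat_lit 124) (.e (nat_lit 557100) (nat_lit 13) (.e (nat_lit 172113) (nat_lit 10) (.e (nat_lit 434245) (nat_lit 28) (.e (nat_lit 573474) (nat_lit 12) (.e (nat_lit 57351) (nat_lit 0) (.e (nat_lit 6850) (nat_lit 371) .nil))))))))) (.g (nat_lit 6) .nil .nil))) 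
(.lf (nat_lit 94964) (.g (nat_lit 2330) (.e (nat_lit 2630) (nat_lit 164) (.e (nat_lit 172138) (nat_lit 15) (.e (nat_lit 1856) (nat_lit 124) (.e (nat_lit 557100) (nat_lit 13) (.e (nat_lit 172113) (nat_lit 10) (.e (nat_lit 434248) (nat_lit 28) (.e (nat_lit 573475) (nat_lit 12) (.e (nat_lit 57347) (nat_lit 0) (.e (nat_lit 6848) (nat_lit 371) .nil))))))))) (.g (nat_lit 4) .nil .nil))))) 
(.nd (nat_lit 4) (.nd (nat_lit 5) 
(.lf (nat_lit 94924) (.g (nat_lit 3394) (.e (nat_lit 2630) (nat_lit 164) (.e (nat_lit 172138) (nat_lit 15) (.e (nat_lit 1856) (nat_lit 124) (.e (nat_lit 557100) (nat_lit 13) (.e (nat_lit 172113) (nat_lit 10) (.e (nat_lit 434245) (nat_lit 28) (.e (nat_lit 573474) (nat_lit 12) (.e (nat_lit 57345) (nat_lit 0) (.e (nat_lit 6853) (nat_lit 371) .nil))))))))) (.g (nat_lit 6) .nil .nil))) 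
(.lf (nat_lit 94956) (.g (nat_lit 2700) (.e (nat_lit 2630) (nat_lit 164) (.e (nat_lit 172138) (nat_lit 15) (.e (nat_lit 1856) (nat_lit 124) (.e (nat_lit 557100) (nat_lit 13) (.e (nat_lit 172113) (nat_lit 10) (.e (nat_lit 434248) (nat_lit 28) (.e (nat_lit 573473) (nat_lit 12) (.e (nat_lit 57353) (nat_lit 0) (.e (nat_lit 6850) (nat_lit 371) .nil))))))))) (.g (nat_lit 4) .nil .nil)))) 
(.nd (nat_lit 5) 
(.lf (nat_lit 94940) (.g (nat_lit 3291) (.e (nat_lit 2630) (nat_lit 164) (.e (nat_lit 172138) (nat_lit 15) (.e (nat_lit 1856) (nat_lit 124) (.e (nat_lit 557100) (nat_lit 13) (.e (nat_lit 172113) (nat_lit 10) (.e (nat_lit 434247) (nat_lit 28) (.e (nat_lit 573478) (nat_lit 12) (.e (nat_lit 57344) (nat_lit 0) (.e (nat_lit 6850) (nat_lit 371) .nil))))))))) (.g (nat_lit 5) .nil .nil))) 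
(.lf (nat_lit 94972) (.g (nat_lit 2413) (.e (nat_lit 2630) (nat_lit 164) (.e (nat_lit 179968) (nat_lit 34) (.e (nat_lit 393296) (nat_lit 26) (.e (nat_lit 475179) (nat_lit 24) (.e (nat_lit 516117) (nat_lit 1) (.e (nat_lit 164304) (nat_lit 226) .nil)))))) (.g (nat_lit 5) .nil .nil))))))) (.nd (nat_lit 2) (.nd (nat_lit 3) (.nd (nat_lit 4) (.nd (nat_lit 5) 
(.lf (nat_lit 94914) (.g (nat_lit 2310) (.e (nat_lit 2630) (nat_lit 164) (.e (nat_lit 172138) (nat_lit 15) (.e (nat_lit 1856) (nat_lit 124) (.e (nat_lit 557100) (nat_lit 13) (.e (nat_lit 172113) (nat_lit 10) (.e (nat_lit 434245) (nat_lit 28) (.e (nat_lit 573473) (nat_lit 12) (.e (nat_lit 57348) (nat_lit 0) (.e (nat_lit 6848) (nat_lit 371) .nil))))))))) (.g (nat_lit 4) .nil .nil))) 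
(.lf (nat_lit 94946) (.g (nat_lit 2401) (.e (nat_lit 2630) (nat_lit 164) (.e (nat_lit 172138) (nat_lit 15) (.e (nat_lit 1856) (nat_lit 124) (.e (nat_lit 557100) (nat_lit 13) (.e (nat_lit 172113) (nat_lit 10) (.e (nat_lit 434248) (nat_lit 28) (.e (nat_lit 573473) (nat_lit 12) (.e (nat_lit 57345) (nat_lit 0) (.e (nat_lit 6850) (nat_lit 371) .nil))))))))) (.g (nat_lit 4) .nil .nil)))) 
(.nd (nat_lit 5) 
(.lf (nat_lit 94930) (.g (nat_lit 4608) (.e (nat_lit 2630) (nat_lit 164) (.e (nat_lit 172138) (nat_lit 15) (.e (nat_lit 1856) (nat_lit 124) (.e (nat_lit 557100) (nat_lit 13) (.e (nat_lit 172113) (nat_lit 10) (.e (nat_lit 434245) (nat_lit 28) (.e (nat_lit 573474) (nat_lit 12) (.e (nat_lit 57348) (nat_lit 0) (.e (nat_lit 6852) (nat_lit 371) .nil))))))))) (.g (nat_lit 7) .nil .nil))) 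
(.lf (nat_lit 94962) (.g (nat_lit 3839) (.e (nat_lit 2630) (nat_lit 164) (.e (nat_lit 172138) (nat_lit 15) (.e (nat_lit 1856) (nat_lit 124) (.e (nat_lit 557100) (nat_lit 13) (.e (nat_lit 172113) (nat_lit 10) (.e (nat_lit 434248) (nat_lit 28) (.e (nat_lit 573475) (nat_lit 12) (.e (nat_lit 57345) (nat_lit 0) (.e (nat_lit 6852) (nat_lit 371) .nil))))))))) (.g (nat_lit 6) .nil .nil))))) 
(.nd (nat_lit 4) (.nd (nat_lit 5) 
(.lf (nat_lit 94922) (.g (nat_lit 3475) (.e (nat_lit 2630) (nat_lit 164) (.e (nat_lit 172138) (nat_lit 15) (.e (nat_lit 1856) (nat_lit 124) (.e (nat_lit 557100) (nat_lit 13) (.e (nat_lit 172113) (nat_lit 10) (.e (nat_lit 434245) (nat_lit 28) (.e (nat_lit 573474) (nat_lit 12) (.e (nat_lit 57345) (nat_lit 0) (.e (nat_lit 6850) (nat_lit 371) .nil))))))))) (.g (nat_lit 6) .nil .nil))) 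
(.lf (nat_lit 94954) (.g (nat_lit 4955) (.e (nat_lit 2630) (nat_lit 164) (.e (nat_lit 172138) (nat_lit 15) (.e (nat_lit 1856) (nat_lit 124) (.e (nat_lit 557100) (nat_lit 13) (.e (nat_lit 172113) (nat_lit 10) (.e (nat_lit 434248) (nat_lit 28) (.e (nat_lit 573473) (nat_lit 12) (.e (nat_lit 57348) (nat_lit 0) (.e (nat_lit 6853) (nat_lit 371) .nil))))))))) (.g (nat_lit 9) .nil .nil)))) 
(.nd (nat_lit 5) 
(.lf (nat_lit 94938) (.g (nat_lit 2981) (.e (nat_lit 2630) (nat_lit 164) (.e (nat_lit 172138) (nat_lit 15) (.e (nat_lit 1856) (nat_lit 124) (.e (nat_lit 557100) (nat_lit 13) (.e (nat_lit 172113) (nat_lit 10) (.e (nat_lit 434247) (nat_lit 28) (.e (nat_lit 573477) (nat_lit 12) (.e (nat_lit 57352) (nat_lit 0) (.e (nat_lit 6850) (nat_lit 371) .nil))))))))) (.g (nat_lit 5) .nil .nil))) 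
(.lf (nat_lit 94970) (.g (nat_lit 3537) (.e (nat_lit 2630) (nat_lit 164) (.e (nat_lit 172138) (nat_lit 15) (.e (nat_lit 1856) (nat_lit 124) (.e (nat_lit 557100) (nat_lit 13) (.e (nat_lit 172113) (nat_lit 10) (.e (nat_lit 434248) (nat_lit 28) (.e (nat_lit 573475) (nat_lit 12) (.e (nat_lit 57351) (nat_lit 0) (.e (nat_lit 6850) (nat_lit 371) .nil))))))))) (.g (nat_lit 6) .nil .nil)))))) 
(.nd (nat_lit 3) (.nd (nat_lit 4) (.nd (nat_lit 5) 
(.lf (nat_lit 94918) (.g (nat_lit 2861) (.e (nat_lit 2630) (nat_lit 164) (.e (nat_lit 172138) (nat_lit 15) (.e (nat_lit 1856) (nat_lit 124) (.e (nat_lit 557100) (nat_lit 13) (.e (nat_lit 172113) (nat_lit 10) (.e (nat_lit 434245) (nat_lit 28) (.e (nat_lit 573473) (nat_lit 12) (.e (nat_lit 57352) (nat_lit 0) (.e (nat_lit 6850) (nat_lit 371) .nil))))))))) (.g (nat_lit 4) .nil .nil))) 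
(.lf (nat_lit 94950) (.g (nat_lit 3338) (.e (nat_lit 2630) (nat_lit 164) (.e (nat_lit 172138) (nat_lit 15) (.e (nat_lit 1856) (nat_lit 124) (.e (nat_lit 557100) (nat_lit 13) (.e (nat_lit 172113) (nat_lit 10) (.e (nat_lit 434248) (nat_lit 28) (.e (nat_lit 573473) (nat_lit 12) (.e (nat_lit 57347) (nat_lit 0) (.e (nat_lit 6853) (nat_lit 371) .nil))))))))) (.g (nat_lit 5) .nil .nil)))) 
(.nd (nat_lit 5) 
(.lf (nat_lit 94934) (.g (nat_lit 2466) (.e (nat_lit 2630) (nat_lit 164) (.e (nat_lit 172138) (nat_lit 15) (.e (nat_lit 1856) (nat_lit 124) (.e (nat_lit 557100) (nat_lit 13) (.e (nat_lit 172113) (nat_lit 10) (.e (nat_lit 434247) (nat_lit 28) (.e (nat_lit 573473) (nat_lit 12) (.e (nat_lit 57348) (nat_lit 0) (.e (nat_lit 6853) (nat_lit 371) .nil))))))))) (.g (nat_lit 4) .nil .nil))) 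
(.lf (nat_lit 94966) (.g (nat_lit 5198) (.e (nat_lit 2630) (nat_lit 164) (.e (nat_lit 172138) (nat_lit 15) (.e (nat_lit 1856) (nat_lit 124) (.e (nat_lit 557100) (nat_lit 13) (.e (nat_lit 172113) (nat_lit 10) (.e (nat_lit 434248) (nat_lit 28) (.e (nat_lit 573475) (nat_lit 12) (.e (nat_lit 57347) (nat_lit 0) (.e (nat_lit 6853) (nat_lit 371) .nil))))))))) (.g (nat_lit 8) .nil .nil))))) 
(.nd (nat_lit 4) (.nd (nat_lit 5) 
(.lf (nat_lit 94926) (.g (nat_lit 5558) (.e (nat_lit 2630) (nat_lit 164) (.e (nat_lit 172138) (nat_lit 15) (.e (nat_lit 1856) (nat_lit 124) (.e (nat_lit 557100) (nat_lit 13) (.e (nat_lit 172113) (nat_lit 10) (.e (nat_lit 434245) (nat_lit 28) (.e (nat_lit 573474) (nat_lit 12) (.e (nat_lit 57347) (nat_lit 0) (.e (nat_lit 6850) (nat_lit 371) .nil))))))))) (.g (nat_lit 8) .nil .nil))) 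
(.lf (nat_lit 94958) (.g (nat_lit 3199) (.e (nat_lit 2630) (nat_lit 164) (.e (nat_lit 172138) (nat_lit 15) (.e (nat_lit 1856) (nat_lit 124) (.e (nat_lit 557100) (nat_lit 13) (.e (nat_lit 172113) (nat_lit 10) (.e (nat_lit 434248) (nat_lit 28) (.e (nat_lit 573475) (nat_lit 12) (.e (nat_lit 57344) (nat_lit 0) (.e (nat_lit 6852) (nat_lit 371) .nil))))))))) (.g (nat_lit 5) .nil .nil)))) 
(.nd (nat_lit 5) 
(.lf (nat_lit 94942) (.g (nat_lit 3139) (.e (nat_lit 2630) (nat_lit 164) (.e (nat_lit 172138) (nat_lit 15) (.e (nat_lit 1856) (nat_lit 124) (.e (nat_lit 557100) (nat_lit 13) (.e (nat_lit 172113) (nat_lit 10) (.e (nat_lit 434247) (nat_lit 28) (.e (nat_lit 573478) (nat_lit 12) (.e (nat_lit 57344) (nat_lit 0) (.e (nat_lit 6853) (nat_lit 371) .nil))))))))) (.g (nat_lit 5) .nil .nil))) 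
(.lf (nat_lit 94974) (.g (nat_lit 2869) (.e (nat_lit 2633) (nat_lit 164) (.e (nat_lit 172133) (nat_lit 15) (.e (nat_lit 1800) (nat_lit 119) (.e (nat_lit 516150) (nat_lit 9) (.e (nat_lit 426323) (nat_lit 13) (.e (nat_lit 483365) (nat_lit 18) (.e (nat_lit 57654) (nat_lit 152) .nil))))))) (.g (nat_lit 6) .nil .nil)))))))) 
(.nd (nat_lit 1) (.nd (nat_lit 2) (.nd (nat_lit 3) (.nd (nat_lit 4) (.nd (nat_lit 5) 
(.lf (nat_lit 94913) (.g (nat_lit 3328) (.e (nat_lit 2630) (nat_lit 164) (.e (nat_lit 172138) (nat_lit 15) (.e (nat_lit 1856) (nat_lit 124) (.e (nat_lit 557100) (nat_lit 13) (.e (nat_lit 172113) (nat_lit 10) (.e (nat_lit 434245) (nat_lit 28) (.e (nat_lit 573473) (nat_lit 12) (.e (nat_lit 57347) (nat_lit 0) (.e (nat_lit 6853) (nat_lit 371) .nil))))))))) (.g (nat_lit 5) .nil .nil))) 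
(.lf (nat_lit 94945) (.g (nat_lit 2267) (.e (nat_lit 2630) (nat_lit 164) (.e (nat_lit 172138) (nat_lit 15) (.e (nat_lit 1856) (nat_lit 124) (.e (nat_lit 557100) (nat_lit 13) (.e (nat_lit 172113) (nat_lit 10) (.e (nat_lit 434247) (nat_lit 28) (.e (nat_lit 573478) (nat_lit 12) (.e (nat_lit 57353) (nat_lit 0) (.e (nat_lit 6850) (nat_lit 371) .nil))))))))) (.g (nat_lit 4) .nil .nil)))) 
(.nd (nat_lit 5) 
(.lf (nat_lit 94929) (.g (nat_lit 5743) (.e (nat_lit 2630) (nat_lit 164) (.e (nat_lit 172138) (nat_lit 15) (.e (nat_lit 1856) (nat_lit 124) (.e (nat_lit 557100) (nat_lit 13) (.e (nat_lit 172113) (nat_lit 10) (.e (nat_lit 434245) (nat_lit 28) (.e (nat_lit 573474) (nat_lit 12) (.e (nat_lit 57348) (nat_lit 0) (.e (nat_lit 6850) (nat_lit 371) .nil))))))))) (.g (nat_lit 9) .nil .nil))) 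
(.lf (nat_lit 94961) (.g (nat_lit 4551) (.e (nat_lit 2630) (nat_lit 164) (.e (nat_lit 172138) (nat_lit 15) (.e (nat_lit 1856) (nat_lit 124) (.e (nat_lit 557100) (nat_lit 13) (.e (nat_lit 172113) (nat_lit 10) (.e (nat_lit 434248) (nat_lit 28) (.e (nat_lit 573475) (nat_lit 12) (.e (nat_lit 57345) (nat_lit 0) (.e (nat_lit 6850) (nat_lit 371) .nil))))))))) (.g (nat_lit 7) .nil .nil))))) 
(.nd (nat_lit 4) (.nd (nat_lit 5) 
(.lf (nat_lit 94921) (.g (nat_lit 3244) (.e (nat_lit 2630) (nat_lit 164) (.e (nat_lit 172138) (nat_lit 15) (.e (nat_lit 1856) (nat_lit 124) (.e (nat_lit 557100) (nat_lit 13) (.e (nat_lit 172113) (nat_lit 10) (.e (nat_lit 434245) (nat_lit 28) (.e (nat_lit 573474) (nat_lit 12) (.e (nat_lit 57344) (nat_lit 0) (.e (nat_lit 6853) (nat_lit 371) .nil))))))))) (.g (nat_lit 5) .nil .nil))) 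
(.lf (nat_lit 94953) (.g (nat_lit 4183) (.e (nat_lit 2630) (nat_lit 164) (.e (nat_lit 172138) (nat_lit 15) (.e (nat_lit 1856) (nat_lit 124) (.e (nat_lit 557100) (nat_lit 13) (.e (nat_lit 172113) (nat_lit 10) (.e (nat_lit 434248) (nat_lit 28) (.e (nat_lit 573473) (nat_lit 12) (.e (nat_lit 57348) (nat_lit 0) (.e (nat_lit 6852) (nat_lit 371) .nil))))))))) (.g (nat_lit 7) .nil .nil)))) 
(.nd (nat_lit 5) 
(.lf (nat_lit 94937) (.g (nat_lit 2267) (.e (nat_lit 2630) (nat_lit 164) (.e (nat_lit 172138) (nat_lit 15) (.e (nat_lit 1856) (nat_lit 124) (.e (nat_lit 557100) (nat_lit 13) (.e (nat_lit 172113) (nat_lit 10) (.e (nat_lit 434247) (nat_lit 28) (.e (nat_lit 573477) (nat_lit 12) (.e (nat_lit 57351) (nat_lit 0) (.e (nat_lit 6850) (nat_lit 371) .nil))))))))) (.g (nat_lit 4) .nil .nil))) 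
(.lf (nat_lit 94969) (.g (nat_lit 5056) (.e (nat_lit 2630) (nat_lit 164) (.e (nat_lit 172138) (nat_lit 15) (.e (nat_lit 1856) (nat_lit 124) (.e (nat_lit 557100) (nat_lit 13) (.e (nat_lit 172113) (nat_lit 10) (.e (nat_lit 434248) (nat_lit 28) (.e (nat_lit 573475) (nat_lit 12) (.e (nat_lit 57348) (nat_lit 0) (.e (nat_lit 6853) (nat_lit 371) .nil))))))))) (.g (nat_lit 8) .nil .nil)))))) 
(.nd (nat_lit 3) (.nd (nat_lit 4) (.nd (nat_lit 5) 
(.lf (nat_lit 94917) (.g (nat_lit 4863) (.e (nat_lit 2630) (nat_lit 164) (.e (nat_lit 172138) (nat_lit 15) (.e (nat_lit 1856) (nat_lit 124) (.e (nat_lit 557100) (nat_lit 13) (.e (nat_lit 172113) (nat_lit 10) (.e (nat_lit 434245) (nat_lit 28) (.e (nat_lit 573473) (nat_lit 12) (.e (nat_lit 57348) (nat_lit 0) (.e (nat_lit 6853) (nat_lit 371) .nil))))))))) (.g (nat_lit 9) .nil .nil))) 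
(.lf (nat_lit 94949) (.g (nat_lit 2343) (.e (nat_lit 2630) (nat_lit 164) (.e (nat_lit 172138) (nat_lit 15) (.e (nat_lit 1856) (nat_lit 124) (.e (nat_lit 557100) (nat_lit 13) (.e (nat_lit 172113) (nat_lit 10) (.e (nat_lit 434248) (nat_lit 28) (.e (nat_lit 573473) (nat_lit 12) (.e (nat_lit 57347) (nat_lit 0) (.e (nat_lit 6852) (nat_lit 371) .nil))))))))) (.g (nat_lit 4) .nil .nil)))) 
(.nd (nat_lit 5) 
(.lf (nat_lit 94933) (.g (nat_lit 2827) (.e (nat_lit 2630) (nat_lit 164) (.e (nat_lit 172138) (nat_lit 15) (.e (nat_lit 1856) (nat_lit 124) (.e (nat_lit 557100) (nat_lit 13) (.e (nat_lit 172113) (nat_lit 10) (.e (nat_lit 434247) (nat_lit 28) (.e (nat_lit 573473) (nat_lit 12) (.e (nat_lit 57348) (nat_lit 0) (.e (nat_lit 6850) (nat_lit 371) .nil))))))))) (.g (nat_lit 4) .nil .nil))) 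
(.lf (nat_lit 94965) (.g (nat_lit 5614) (.e (nat_lit 2630) (nat_lit 164) (.e (nat_lit 172138) (nat_lit 15) (.e (nat_lit 1856) (nat_lit 124) (.e (nat_lit 557100) (nat_lit 13) (.e (nat_lit 172113) (nat_lit 10) (.e (nat_lit 434248) (nat_lit 28) (.e (nat_lit 573475) (nat_lit 12) (.e (nat_lit 57347) (nat_lit 0) (.e (nat_lit 6850) (nat_lit 371) .nil))))))))) (.g (nat_lit 8) .nil .nil))))) 
(.nd (nat_lit 4) (.nd (nat_lit 5) 
(.lf (nat_lit 94925) (.g (nat_lit 2274) (.e (nat_lit 2630) (nat_lit 164) (.e (nat_lit 172138) (nat_lit 15) (.e (nat_lit 1856) (nat_lit 124) (.e (nat_lit 557100) (nat_lit 13) (.e (nat_lit 172113) (nat_lit 10) (.e (nat_lit 434245) (nat_lit 28) (.e (nat_lit 573474) (nat_lit 12) (.e (nat_lit 57347) (nat_lit 0) (.e (nat_lit 6848) (nat_lit 371) .nil))))))))) (.g (nat_lit 4) .nil .nil))) 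
(.lf (nat_lit 94957) (.g (nat_lit 4255) (.e (nat_lit 2630) (nat_lit 164) (.e (nat_lit 172138) (nat_lit 15) (.e (nat_lit 1856) (nat_lit 124) (.e (nat_lit 557100) (nat_lit 13) (.e (nat_lit 172113) (nat_lit 10) (.e (nat_lit 434248) (nat_lit 28) (.e (nat_lit 573475) (nat_lit 12) (.e (nat_lit 57344) (nat_lit 0) (.e (nat_lit 6850) (nat_lit 371) .nil))))))))) (.g (nat_lit 7) .nil .nil)))) 
(.nd (nat_lit 5) 
(.lf (nat_lit 94941) (.g (nat_lit 2235) (.e (nat_lit 2630) (nat_lit 164) (.e (nat_lit 172138) (nat_lit 15) (.e (nat_lit 1856) (nat_lit 124) (.e (nat_lit 557100) (nat_lit 13) (.e (nat_lit 172113) (nat_lit 10) (.e (nat_lit 434247) (nat_lit 28) (.e (nat_lit 573478) (nat_lit 12) (.e (nat_lit 57344) (nat_lit 0) (.e (nat_lit 6852) (nat_lit 371) .nil))))))))) (.g (nat_lit 4) .nil .nil))) 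
(.lf (nat_lit 94973) (.g (nat_lit 2218) (.e (nat_lit 2633) (nat_lit 164) (.e (nat_lit 172062) (nat_lit 2) (.e (nat_lit 196666) (nat_lit 13) (.e (nat_lit 65617) (nat_lit 10) (.e (nat_lit 344130) (nat_lit 26) .nil))))) .nil)))))) (.nd (nat_lit 2) (.nd (nat_lit 3) (.nd (nat_lit 4) (.nd (nat_lit 5) 
(.lf (nat_lit 94915) (.g (nat_lit 5224) (.e (nat_lit 2630) (nat_lit 164) (.e (nat_lit 172138) (nat_lit 15) (.e (nat_lit 1856) (nat_lit 124) (.e (nat_lit 557100) (nat_lit 13) (.e (nat_lit 172113) (nat_lit 10) (.e (nat_lit 434245) (nat_lit 28) (.e (nat_lit 573473) (nat_lit 12) (.e (nat_lit 57348) (nat_lit 0) (.e (nat_lit 6850) (nat_lit 371) .nil))))))))) (.g (nat_lit 0) .nil .nil))) 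
(.lf (nat_lit 94947) (.g (nat_lit 2320) (.e (nat_lit 2630) (nat_lit 164) (.e (nat_lit 172138) (nat_lit 15) (.e (nat_lit 1856) (nat_lit 124) (.e (nat_lit 557100) (nat_lit 13) (.e (nat_lit 172113) (nat_lit 10) (.e (nat_lit 434248) (nat_lit 28) (.e (nat_lit 573473) (nat_lit 12) (.e (nat_lit 57345) (nat_lit 0) (.e (nat_lit 6853) (nat_lit 371) .nil))))))))) (.g (nat_lit 4) .nil .nil)))) 
(.nd (nat_lit 5) 
(.lf (nat_lit 94931) (.g (nat_lit 5380) (.e (nat_lit 2630) (nat_lit 164) (.e (nat_lit 172138) (nat_lit 15) (.e (nat_lit 1856) (nat_lit 124) (.e (nat_lit 557100) (nat_lit 13) (.e (nat_lit 172113) (nat_lit 10) (.e (nat_lit 434245) (nat_lit 28) (.e (nat_lit 573474) (nat_lit 12) (.e (nat_lit 57348) (nat_lit 0) (.e (nat_lit 6853) (nat_lit 371) .nil))))))))) (.g (nat_lit 8) .nil .nil))) 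
(.lf (nat_lit 94963) (.g (nat_lit 4431) (.e (nat_lit 2630) (nat_lit 164) (.e (nat_lit 172138) (nat_lit 15) (.e (nat_lit 1856) (nat_lit 124) (.e (nat_lit 557100) (nat_lit 13) (.e (nat_lit 172113) (nat_lit 10) (.e (nat_lit 434248) (nat_lit 28) (.e (nat_lit 573475) (nat_lit 12) (.e (nat_lit 57345) (nat_lit 0) (.e (nat_lit 6853) (nat_lit 371) .nil))))))))) (.g (nat_lit 7) .nil .nil))))) 
(.nd (nat_lit 4) (.nd (nat_lit 5) 
(.lf (nat_lit 94923) (.g (nat_lit 2817) (.e (nat_lit 2630) (nat_lit 164) (.e (nat_lit 172138) (nat_lit 15) (.e (nat_lit 1856) (nat_lit 124) (.e (nat_lit 557100) (nat_lit 13) (.e (nat_lit 172113) (nat_lit 10) (.e (nat_lit 434245) (nat_lit 28) (.e (nat_lit 573474) (nat_lit 12) (.e (nat_lit 57345) (nat_lit 0) (.e (nat_lit 6852) (nat_lit 371) .nil))))))))) (.g (nat_lit 4) .nil .nil))) 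
(.lf (nat_lit 94955) (.g (nat_lit 2922) (.e (nat_lit 2630) (nat_lit 164) (.e (nat_lit 172138) (nat_lit 15) (.e (nat_lit 1856) (nat_lit 124) (.e (nat_lit 557100) (nat_lit 13) (.e (nat_lit 172113) (nat_lit 10) (.e (nat_lit 434248) (nat_lit 28) (.e (nat_lit 573473) (nat_lit 12) (.e (nat_lit 57352) (nat_lit 0) (.e (nat_lit 6850) (nat_lit 371) .nil))))))))) (.g (nat_lit 5) .nil .nil)))) 
(.nd (nat_lit 5) 
(.lf (nat_lit 94939) (.g (nat_lit 2719) (.e (nat_lit 2630) (nat_lit 164) (.e (nat_lit 172138) (nat_lit 15) (.e (nat_lit 1856) (nat_lit 124) (.e (nat_lit 557100) (nat_lit 13) (.e (nat_lit 172113) (nat_lit 10) (.e (nat_lit 434247) (nat_lit 28) (.e (nat_lit 573477) (nat_lit 12) (.e (nat_lit 57353) (nat_lit 0) (.e (nat_lit 6850) (nat_lit 371) .nil))))))))) (.g (nat_lit 4) .nil .nil))) 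
(.lf (nat_lit 94971) (.g (nat_lit 2400) (.e (nat_lit 2630) (nat_lit 164) (.e (nat_lit 172138) (nat_lit 15) (.e (nat_lit 1856) (nat_lit 124) (.e (nat_lit 557100) (nat_lit 13) (.e (nat_lit 172113) (nat_lit 10) (.e (nat_lit 434248) (nat_lit 28) (.e (nat_lit 573475) (nat_lit 12) (.e (nat_lit 57353) (nat_lit 0) (.e (nat_lit 6850) (nat_lit 371) .nil))))))))) (.g (nat_lit 4) .nil .nil)))))) 
(.nd (nat_lit 3) (.nd (nat_lit 4) (.nd (nat_lit 5) 
(.lf (nat_lit 94919) (.g (nat_lit 2635) (.e (nat_lit 2630) (nat_lit 164) (.e (nat_lit 172138) (nat_lit 15) (.e (nat_lit 1856) (nat_lit 124) (.e (nat_lit 557100) (nat_lit 13) (.e (nat_lit 172113) (nat_lit 10) (.e (nat_lit 434245) (nat_lit 28) (.e (nat_lit 573473) (nat_lit 12) (.e (nat_lit 57353) (nat_lit 0) (.e (nat_lit 6850) (nat_lit 371) .nil))))))))) (.g (nat_lit 4) .nil .nil))) 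
(.lf (nat_lit 94951) (.g (nat_lit 2402) (.e (nat_lit 2630) (nat_lit 164) (.e (nat_lit 172138) (nat_lit 15) (.e (nat_lit 1856) (nat_lit 124) (.e (nat_lit 557100) (nat_lit 13) (.e (nat_lit 172113) (nat_lit 10) (.e (nat_lit 434248) (nat_lit 28) (.e (nat_lit 573473) (nat_lit 12) (.e (nat_lit 57348) (nat_lit 0) (.e (nat_lit 6848) (nat_lit 371) .nil))))))))) (.g (nat_lit 4) .nil .nil)))) 
(.nd (nat_lit 5) 
(.lf (nat_lit 94935) (.g (nat_lit 2204) (.e (nat_lit 2630) (nat_lit 164) (.e (nat_lit 172138) (nat_lit 15) (.e (nat_lit 1856) (nat_lit 124) (.e (nat_lit 557100) (nat_lit 13) (.e (nat_lit 172113) (nat_lit 10) (.e (nat_lit 434247) (nat_lit 28) (.e (nat_lit 573477) (nat_lit 12) (.e (nat_lit 57344) (nat_lit 0) (.e (nat_lit 6850) (nat_lit 371) .nil))))))))) (.g (nat_lit 4) .nil .nil))) 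
(.lf (nat_lit 94967) (.g (nat_lit 2503) (.e (nat_lit 2630) (nat_lit 164) (.e (nat_lit 172138) (nat_lit 15) (.e (nat_lit 1856) (nat_lit 124) (.e (nat_lit 557100) (nat_lit 13) (.e (nat_lit 172113) (nat_lit 10) (.e (nat_lit 434248) (nat_lit 28) (.e (nat_lit 573475) (nat_lit 12) (.e (nat_lit 57348) (nat_lit 0) (.e (nat_lit 6848) (nat_lit 371) .nil))))))))) (.g (nat_lit 4) .nil .nil))))) 
(.nd (nat_lit 4) (.nd (nat_lit 5) 
(.lf (nat_lit 94927) (.g (nat_lit 5142) (.e (nat_lit 2630) (nat_lit 164) (.e (nat_lit 172138) (nat_lit 15) (.e (nat_lit 1856) (nat_lit 124) (.e (nat_lit 557100) (nat_lit 13) (.e (nat_lit 172113) (nat_lit 10) (.e (nat_lit 434245) (nat_lit 28) (.e (nat_lit 573474) (nat_lit 12) (.e (nat_lit 57347) (nat_lit 0) (.e (nat_lit 6853) (nat_lit 371) .nil))))))))) (.g (nat_lit 8) .nil .nil))) 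
(.lf (nat_lit 94959) (.g (nat_lit 4103) (.e (nat_lit 2630) (nat_lit 164) (.e (nat_lit 172138) (nat_lit 15) (.e (nat_lit 1856) (nat_lit 124) (.e (nat_lit 557100) (nat_lit 13) (.e (nat_lit 172113) (nat_lit 10) (.e (nat_lit 434248) (nat_lit 28) (.e (nat_lit 573475) (nat_lit 12) (.e (nat_lit 57344) (nat_lit 0) (.e (nat_lit 6853) (nat_lit 371) .nil))))))))) (.g (nat_lit 7) .nil .nil)))) 
(.nd (nat_lit 5) 
(.lf (nat_lit 94943) (.g (nat_lit 3012) (.e (nat_lit 2630) (nat_lit 164) (.e (nat_lit 172138) (nat_lit 15) (.e (nat_lit 1856) (nat_lit 124) (.e (nat_lit 557100) (nat_lit 13) (.e (nat_lit 172113) (nat_lit 10) (.e (nat_lit 434247) (nat_lit 28) (.e (nat_lit 573478) (nat_lit 12) (.e (nat_lit 57351) (nat_lit 0) (.e (nat_lit 6850) (nat_lit 371) .nil))))))))) (.g (nat_lit 5) .nil .nil))) 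
(.lf (nat_lit 94975) (.g (nat_lit 1028) (.e (nat_lit 2633) (nat_lit 164) (.e (nat_lit 172133) (nat_lit 15) (.e (nat_lit 1800) (nat_lit 119) (.e (nat_lit 516176) (nat_lit 14) .nil)))) .nil))))))))

noncomputable def tv1305 : DT := (.nd (nat_lit 0) (.nd (nat_lit 1) (.nd (nat_lit 2) (.nd (nat_lit 3) (.nd (nat_lit 4) (.nd (nat_lit 5) 
(.lf (nat_lit 94976) (.g (nat_lit 2761) (.e (nat_lit 2635) (nat_lit 165) (.e (nat_lit 180241) (nat_lit 4) (.e (nat_lit 524339) (nat_lit 27) (.e (nat_lit 344133) (nat_lit 26) (.e (nat_lit 557105) (nat_lit 14) (.e (nat_lit 180227) (nat_lit 0) (.e (nat_lit 4175) (nat_lit 251) .nil))))))) (.g (nat_lit 6) .nil .nil))) 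
(.lf (nat_lit 95008) (.g (nat_lit 1126) (.e (nat_lit 2638) (nat_lit 165) (.e (nat_lit 180277) (nat_lit 32) (.e (nat_lit 1428) (nat_lit 108) (.e (nat_lit 336444) (nat_lit 32) .nil)))) .nil))) (.nd (nat_lit 5) 
(.lf (nat_lit 94992) (.g (nat_lit 4264) (.e (nat_lit 2638) (nat_lit 165) (.e (nat_lit 180225) (nat_lit 0) (.e (nat_lit 5934) (nat_lit 322) (.e (nat_lit 57379) (nat_lit 3) (.e (nat_lit 98373) (nat_lit 29) (.e (nat_lit 450562) (nat_lit 0) (.e (nat_lit 6595) (nat_lit 351) .nil))))))) (.g (nat_lit 6) .nil .nil))) 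
(.lf (nat_lit 95024) (.g (nat_lit 2829) (.e (nat_lit 2638) (nat_lit 165) (.e (nat_lit 180278) (nat_lit 32) (.e (nat_lit 1427) (nat_lit 108) (.e (nat_lit 336443) (nat_lit 32) (.e (nat_lit 466968) (nat_lit 21) .nil))))) .nil)))) (.nd (nat_lit 4) (.nd (nat_lit 5) 
(.lf (nat_lit 94984) (.g (nat_lit 1893) (.e (nat_lit 2636) (nat_lit 165) (.e (nat_lit 180277) (nat_lit 32) (.e (nat_lit 1253) (nat_lit 92) (.e (nat_lit 98373) (nat_lit 29) (.e (nat_lit 458496) (nat_lit 0) .nil))))) .nil)) 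
(.lf (nat_lit 95016) (.g (nat_lit 3511) (.e (nat_lit 2638) (nat_lit 165) (.e (nat_lit 180277) (nat_lit 32) (.e (nat_lit 1661) (nat_lit 115) (.e (nat_lit 393281) (nat_lit 23) (.e (nat_lit 426107) (nat_lit 1) (.e (nat_lit 164347) (nat_lit 240) .nil)))))) (.g (nat_lit 6) .nil .nil)))) (.nd (nat_lit 5) 
(.lf (nat_lit 95000) (.g (nat_lit 5167) (.e (nat_lit 2638) (nat_lit 165) (.e (nat_lit 180233) (nat_lit 0) (.e (nat_lit 5949) (nat_lit 322) (.e (nat_lit 57378) (nat_lit 3) (.e (nat_lit 98373) (nat_lit 29) (.e (nat_lit 450563) (nat_lit 0) (.e (nat_lit 6595) (nat_lit 351) .nil))))))) (.g (nat_lit 6) .nil .nil))) 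
(.lf (nat_lit 95032) (.g (nat_lit 1018) (.e (nat_lit 2638) (nat_lit 165) (.e (nat_lit 180278) (nat_lit 32) (.e (nat_lit 1660) (nat_lit 115) (.e (nat_lit 393274) (nat_lit 23) .nil)))) .nil))))) (.nd (nat_lit 3) (.nd (nat_lit 4) (.nd (nat_lit 5) 
(.lf (nat_lit 94980) (.g (nat_lit 4935) (.e (nat_lit 2636) (nat_lit 165) (.e (nat_lit 180243) (nat_lit 5) (.e (nat_lit 532550) (nat_lit 12) (.e (nat_lit 360474) (nat_lit 8) (.e (nat_lit 557091) (nat_lit 12) .nil))))) .nil)) 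
(.lf (nat_lit 95012) (.g (nat_lit 2495) (.e (nat_lit 2638) (nat_lit 165) (.e (nat_lit 180277) (nat_lit 32) (.e (nat_lit 1661) (nat_lit 115) (.e (nat_lit 393268) (nat_lit 23) (.e (nat_lit 426112) (nat_lit 1) .nil))))) .nil))) (.nd (nat_lit 5) 
(.lf (nat_lit 94996) (.g (nat_lit 2407) (.e (nat_lit 2638) (nat_lit 165) (.e (nat_lit 180229) (nat_lit 0) (.e (nat_lit 6401) (nat_lit 339) (.e (nat_lit 57411) (nat_lit 12) (.e (nat_lit 336019) (nat_lit 3) (.e (nat_lit 98342) (nat_lit 20) (.e (nat_lit 221207) (nat_lit 21) (.e (nat_lit 164243) (nat_lit 195) .nil)))))))) (.g (nat_lit 4) .nil .nil))) 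
(.lf (nat_lit 95028) (.g (nat_lit 2961) (.e (nat_lit 2638) (nat_lit 165) (.e (nat_lit 180278) (nat_lit 32) (.e (nat_lit 1427) (nat_lit 108) (.e (nat_lit 336443) (nat_lit 32) (.e (nat_lit 466971) (nat_lit 21) (.e (nat_lit 164346) (nat_lit 240) .nil)))))) (.g (nat_lit 5) .nil .nil))))) (.nd (nat_lit 4) (.nd (nat_lit 5) 
(.lf (nat_lit 94988) (.g (nat_lit 2611) (.e (nat_lit 2637) (nat_lit 165) (.e (nat_lit 180252) (nat_lit 10) (.e (nat_lit 573503) (nat_lit 18) (.e (nat_lit 1349) (nat_lit 102) (.e (nat_lit 286761) (nat_lit 13) .nil))))) .nil)) 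
(.lf (nat_lit 95020) (.g (nat_lit 1806) (.e (nat_lit 2638) (nat_lit 165) (.e (nat_lit 180278) (nat_lit 32) (.e (nat_lit 1253) (nat_lit 92) (.e (nat_lit 98373) (nat_lit 29) (.e (nat_lit 458496) (nat_lit 0) .nil))))) .nil))) (.nd (nat_lit 5) 
(.lf (nat_lit 95004) (.g (nat_lit 1809) (.e (nat_lit 2638) (nat_lit 165) (.e (nat_lit 180277) (nat_lit 32) (.e (nat_lit 1253) (nat_lit 92) (.e (nat_lit 98373) (nat_lit 29) (.e (nat_lit 458496) (nat_lit 0) .nil))))) .nil)) 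
(.lf (nat_lit 95036) (.g (nat_lit 1755) (.e (nat_lit 2639) (nat_lit 165) (.e (nat_lit 180277) (nat_lit 32) (.e (nat_lit 1659) (nat_lit 115) (.e (nat_lit 393271) (nat_lit 23) (.e (nat_lit 426112) (nat_lit 1) .nil))))) .nil)))))) (.nd (nat_lit 2) (.nd (nat_lit 3) (.nd (nat_lit 4) (.nd (nat_lit 5) 
(.lf (nat_lit 94978) (.g (nat_lit 3027) (.e (nat_lit 2636) (nat_lit 165) (.e (nat_lit 180241) (nat_lit 4) (.e (nat_lit 524339) (nat_lit 27) (.e (nat_lit 344133) (nat_lit 26) (.e (nat_lit 557105) (nat_lit 14) (.e (nat_lit 180227) (nat_lit 0) (.e (nat_lit 4175) (nat_lit 251) .nil))))))) (.g (nat_lit 7) .nil .nil))) 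
(.lf (nat_lit 95010) (.g (nat_lit 1009) (.e (nat_lit 2638) (nat_lit 165) (.e (nat_lit 180277) (nat_lit 32) (.e (nat_lit 1660) (nat_lit 115) (.e (nat_lit 393274) (nat_lit 23) .nil)))) .nil))) (.nd (nat_lit 5) 
(.lf (nat_lit 94994) (.g (nat_lit 1773) (.e (nat_lit 2638) (nat_lit 165) (.e (nat_lit 180229) (nat_lit 0) (.e (nat_lit 6401) (nat_lit 339) (.e (nat_lit 57411) (nat_lit 12) (.e (nat_lit 336019) (nat_lit 3) .nil))))) .nil)) 
(.lf (nat_lit 95026) (.g (nat_lit 3882) (.e (nat_lit 2638) (nat_lit 165) (.e (nat_lit 180278) (nat_lit 32) (.e (nat_lit 1427) (nat_lit 108) (.e (nat_lit 336443) (nat_lit 32) (.e (nat_lit 466969) (nat_lit 21) (.e (nat_lit 164348) (nat_lit 240) .nil)))))) (.g (nat_lit 0) .nil .nil))))) (.nd (nat_lit 4) (.nd (nat_lit 5) 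
(.lf (nat_lit 94986) (.g (nat_lit 1482) (.e (nat_lit 2637) (nat_lit 165) (.e (nat_lit 180252) (nat_lit 10) (.e (nat_lit 573503) (nat_lit 18) (.e (nat_lit 1348) (nat_lit 102) .nil)))) .nil)) 
(.lf (nat_lit 95018) (.g (nat_lit 2479) (.e (nat_lit 2638) (nat_lit 165) (.e (nat_lit 180277) (nat_lit 32) (.e (nat_lit 1661) (nat_lit 115) (.e (nat_lit 393284) (nat_lit 24) (.e (nat_lit 434205) (nat_lit 18) (.e (nat_lit 5545) (nat_lit 306) .nil)))))) (.g (nat_lit 5) .nil .nil)))) (.nd (nat_lit 5) 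
(.lf (nat_lit 95002) (.g (nat_lit 3020) (.e (nat_lit 2638) (nat_lit 165) (.e (nat_lit 180264) (nat_lit 21) (.e (nat_lit 663557) (nat_lit 0) (.e (nat_lit 1234) (nat_lit 91) (.e (nat_lit 90170) (nat_lit 13) (.e (nat_lit 172113) (nat_lit 10) (.e (nat_lit 434207) (nat_lit 18) (.e (nat_lit 6595) (nat_lit 351) .nil)))))))) (.g (nat_lit 6) .nil .nil))) 
(.lf (nat_lit 95034) (.g (nat_lit 1490) (.e (nat_lit 2638) (nat_lit 165) (.e (nat_lit 180278) (nat_lit 32) (.e (nat_lit 1660) (nat_lit 115) (.e (nat_lit 393281) (nat_lit 23) (.e (nat_lit 426105) (nat_lit 1) .nil))))) .nil))))) (.nd (nat_lit 3) (.nd (nat_lit 4) (.nd (nat_lit 5) 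
(.lf (nat_lit 94982) (.g (nat_lit 3027) (.e (nat_lit 2636) (nat_lit 165) (.e (nat_lit 180243) (nat_lit 5) (.e (nat_lit 532550) (nat_lit 12) (.e (nat_lit 360474) (nat_lit 8) (.e (nat_lit 557094) (nat_lit 12) .nil))))) .nil)) 
(.lf (nat_lit 95014) (.g (nat_lit 1360) (.e (nat_lit 2638) (nat_lit 165) (.e (nat_lit 180277) (nat_lit 32) (.e (nat_lit 1661) (nat_lit 115) (.e (nat_lit 393269) (nat_lit 23) .nil)))) .nil))) (.nd (nat_lit 5) 
(.lf (nat_lit 94998) (.g (nat_lit 2872) (.e (nat_lit 2638) (nat_lit 165) (.e (nat_lit 180233) (nat_lit 0) (.e (nat_lit 5949) (nat_lit 322) (.e (nat_lit 57378) (nat_lit 3) (.e (nat_lit 98372) (nat_lit 29) (.e (nat_lit 450561) (nat_lit 0) (.e (nat_lit 6595) (nat_lit 351) .nil))))))) (.g (nat_lit 5) .nil .nil))) 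
(.lf (nat_lit 95030) (.g (nat_lit 1050) (.e (nat_lit 2638) (nat_lit 165) (.e (nat_lit 180278) (nat_lit 32) (.e (nat_lit 1428) (nat_lit 108) (.e (nat_lit 336432) (nat_lit 30) .nil)))) .nil)))) (.nd (nat_lit 4) (.nd (nat_lit 5) 
(.lf (nat_lit 94990) (.g (nat_lit 2728) (.e (nat_lit 2637) (nat_lit 165) (.e (nat_lit 180273) (nat_lit 31) (.e (nat_lit 745476) (nat_lit 0) (.e (nat_lit 1598) (nat_lit 111) (.e (nat_lit 360466) (nat_lit 3) (.e (nat_lit 516117) (nat_lit 1) (.e (nat_lit 164142) (nat_lit 146) .nil))))))) (.g (nat_lit 7) .nil .nil))) 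
(.lf (nat_lit 95022) (.g (nat_lit 2723) (.e (nat_lit 2638) (nat_lit 165) (.e (nat_lit 180278) (nat_lit 32) (.e (nat_lit 1427) (nat_lit 108) (.e (nat_lit 336426) (nat_lit 29) (.e (nat_lit 442421) (nat_lit 21) (.e (nat_lit 164347) (nat_lit 240) .nil)))))) (.g (nat_lit 5) .nil .nil)))) (.nd (nat_lit 5) 
(.lf (nat_lit 95006) (.g (nat_lit 2790) (.e (nat_lit 2638) (nat_lit 165) (.e (nat_lit 180277) (nat_lit 32) (.e (nat_lit 1427) (nat_lit 108) (.e (nat_lit 336443) (nat_lit 32) (.e (nat_lit 466968) (nat_lit 21) .nil))))) .nil)) 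
(.lf (nat_lit 95038) (.g (nat_lit 2276) (.e (nat_lit 2639) (nat_lit 165) (.e (nat_lit 180278) (nat_lit 32) (.e (nat_lit 1427) (nat_lit 108) (.e (nat_lit 336430) (nat_lit 29) (.e (nat_lit 442419) (nat_lit 21) .nil))))) .nil))))))) (.nd (nat_lit 1) (.nd (nat_lit 2) (.nd (nat_lit 3) (.nd (nat_lit 4) (.nd (nat_lit 5) 
(.lf (nat_lit 94977) (.g (nat_lit 4140) (.e (nat_lit 2635) (nat_lit 165) (.e (nat_lit 180245) (nat_lit 5) (.e (nat_lit 532550) (nat_lit 12) (.e (nat_lit 360474) (nat_lit 8) (.e (nat_lit 557094) (nat_lit 12) .nil))))) .nil)) 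
(.lf (nat_lit 95009) (.g (nat_lit 393) (.e (nat_lit 2638) (nat_lit 165) (.e (nat_lit 180277) (nat_lit 32) (.e (nat_lit 1658) (nat_lit 115) .nil))) .nil))) (.nd (nat_lit 5) 
(.lf (nat_lit 94993) (.g (nat_lit 4330) (.e (nat_lit 2638) (nat_lit 165) (.e (nat_lit 180225) (nat_lit 0) (.e (nat_lit 5934) (nat_lit 322) (.e (nat_lit 57379) (nat_lit 3) (.e (nat_lit 98373) (nat_lit 29) (.e (nat_lit 450563) (nat_lit 0) (.e (nat_lit 6595) (nat_lit 351) .nil))))))) (.g (nat_lit 6) .nil .nil))) 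
(.lf (nat_lit 95025) (.g (nat_lit 3042) (.e (nat_lit 2638) (nat_lit 165) (.e (nat_lit 180278) (nat_lit 32) (.e (nat_lit 1427) (nat_lit 108) (.e (nat_lit 336443) (nat_lit 32) (.e (nat_lit 466968) (nat_lit 21) (.e (nat_lit 164347) (nat_lit 240) .nil)))))) (.g (nat_lit 4) .nil .nil))))) (.nd (nat_lit 4) (.nd (nat_lit 5) 
(.lf (nat_lit 94985) (.g (nat_lit 1778) (.e (nat_lit 2637) (nat_lit 165) (.e (nat_lit 180227) (nat_lit 0) (.e (nat_lit 6830) (nat_lit 367) (.e (nat_lit 57426) (nat_lit 15) (.e (nat_lit 360466) (nat_lit 3) .nil))))) .nil)) 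
(.lf (nat_lit 95017) (.g (nat_lit 1188) (.e (nat_lit 2638) (nat_lit 165) (.e (nat_lit 180277) (nat_lit 32) (.e (nat_lit 1661) (nat_lit 115) (.e (nat_lit 393283) (nat_lit 24) .nil)))) .nil))) (.nd (nat_lit 5) 
(.lf (nat_lit 95001) (.g (nat_lit 3063) (.e (nat_lit 2638) (nat_lit 165) (.e (nat_lit 180263) (nat_lit 21) (.e (nat_lit 663557) (nat_lit 0) (.e (nat_lit 1234) (nat_lit 91) (.e (nat_lit 90170) (nat_lit 13) (.e (nat_lit 172113) (nat_lit 10) (.e (nat_lit 434208) (nat_lit 18) (.e (nat_lit 6595) (nat_lit 351) .nil)))))))) (.g (nat_lit 6) .nil .nil))) 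
(.lf (nat_lit 95033) (.g (nat_lit 961) (.e (nat_lit 2638) (nat_lit 165) (.e (nat_lit 180278) (nat_lit 32) (.e (nat_lit 1660) (nat_lit 115) (.e (nat_lit 393277) (nat_lit 23) .nil)))) .nil))))) (.nd (nat_lit 3) (.nd (nat_lit 4) (.nd (nat_lit 5) 
(.lf (nat_lit 94981) (.g (nat_lit 3474) (.e (nat_lit 2636) (nat_lit 165) (.e (nat_lit 180243) (nat_lit 5) (.e (nat_lit 532550) (nat_lit 12) (.e (nat_lit 360474) (nat_lit 8) (.e (nat_lit 557093) (nat_lit 12) .nil))))) .nil)) 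
(.lf (nat_lit 95013) (.g (nat_lit 2267) (.e (nat_lit 2638) (nat_lit 165) (.e (nat_lit 180277) (nat_lit 32) (.e (nat_lit 1661) (nat_lit 115) (.e (nat_lit 393268) (nat_lit 23) (.e (nat_lit 433920) (nat_lit 1) (.e (nat_lit 164347) (nat_lit 240) .nil)))))) (.g (nat_lit 4) .nil .nil)))) (.nd (nat_lit 5) 
(.lf (nat_lit 94997) (.g (nat_lit 2263) (.e (nat_lit 2638) (nat_lit 165) (.e (nat_lit 180229) (nat_lit 0) (.e (nat_lit 6401) (nat_lit 339) (.e (nat_lit 57411) (nat_lit 12) (.e (nat_lit 336019) (nat_lit 3) (.e (nat_lit 98342) (nat_lit 20) (.e (nat_lit 221208) (nat_lit 21) (.e (nat_lit 164242) (nat_lit 195) .nil)))))))) (.g (nat_lit 4) .nil .nil))) 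
(.lf (nat_lit 95029) (.g (nat_lit 3829) (.e (nat_lit 2638) (nat_lit 165) (.e (nat_lit 180278) (nat_lit 32) (.e (nat_lit 1427) (nat_lit 108) (.e (nat_lit 336443) (nat_lit 32) (.e (nat_lit 466971) (nat_lit 21) (.e (nat_lit 164348) (nat_lit 240) .nil)))))) (.g (nat_lit 0) .nil .nil))))) (.nd (nat_lit 4) (.nd (nat_lit 5) 
(.lf (nat_lit 94989) (.g (nat_lit 2197) (.e (nat_lit 2637) (nat_lit 165) (.e (nat_lit 180273) (nat_lit 31) (.e (nat_lit 745475) (nat_lit 0) (.e (nat_lit 1598) (nat_lit 111) (.e (nat_lit 360466) (nat_lit 3) (.e (nat_lit 516117) (nat_lit 1) (.e (nat_lit 164142) (nat_lit 146) .nil))))))) (.g (nat_lit 7) .nil .nil))) 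
(.lf (nat_lit 95021) (.g (nat_lit 1261) (.e (nat_lit 2638) (nat_lit 165) (.e (nat_lit 180278) (nat_lit 32) (.e (nat_lit 1427) (nat_lit 108) (.e (nat_lit 336426) (nat_lit 29) .nil)))) .nil))) (.nd (nat_lit 5) 
(.lf (nat_lit 95005) (.g (nat_lit 1295) (.e (nat_lit 2638) (nat_lit 165) (.e (nat_lit 180277) (nat_lit 32) (.e (nat_lit 1427) (nat_lit 108) (.e (nat_lit 336426) (nat_lit 29) .nil)))) .nil)) 
(.lf (nat_lit 95037) (.g (nat_lit 886) (.e (nat_lit 2639) (nat_lit 165) (.e (nat_lit 180277) (nat_lit 32) (.e (nat_lit 1660) (nat_lit 115) (.e (nat_lit 393281) (nat_lit 23) .nil)))) .nil)))))) (.nd (nat_lit 2) (.nd (nat_lit 3) (.nd (nat_lit 4) (.nd (nat_lit 5) 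
(.lf (nat_lit 94979) (.g (nat_lit 1769) (.e (nat_lit 2636) (nat_lit 165) (.e (nat_lit 180243) (nat_lit 5) (.e (nat_lit 532501) (nat_lit 1) (.e (nat_lit 57724) (nat_lit 181) .nil)))) .nil)) 
(.lf (nat_lit 95011) (.g (nat_lit 817) (.e (nat_lit 2638) (nat_lit 165) (.e (nat_lit 180277) (nat_lit 32) (.e (nat_lit 1660) (nat_lit 115) (.e (nat_lit 393279) (nat_lit 23) .nil)))) .nil))) (.nd (nat_lit 5) 
(.lf (nat_lit 94995) (.g (nat_lit 2497) (.e (nat_lit 2638) (nat_lit 165) (.e (nat_lit 180229) (nat_lit 0) (.e (nat_lit 6401) (nat_lit 339) (.e (nat_lit 57411) (nat_lit 12) (.e (nat_lit 336019) (nat_lit 3) (.e (nat_lit 98342) (nat_lit 20) (.e (nat_lit 221207) (nat_lit 21) (.e (nat_lit 164242) (nat_lit 195) .nil)))))))) (.g (nat_lit 4) .nil .nil))) 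
(.lf (nat_lit 95027) (.g (nat_lit 2843) (.e (nat_lit 2638) (nat_lit 165) (.e (nat_lit 180278) (nat_lit 32) (.e (nat_lit 1427) (nat_lit 108) (.e (nat_lit 336443) (nat_lit 32) (.e (nat_lit 466970) (nat_lit 21) .nil))))) .nil)))) (.nd (nat_lit 4) (.nd (nat_lit 5) 
(.lf (nat_lit 94987) (.g (nat_lit 1667) (.e (nat_lit 2637) (nat_lit 165) (.e (nat_lit 180252) (nat_lit 10) (.e (nat_lit 573503) (nat_lit 18) (.e (nat_lit 1349) (nat_lit 102) .nil)))) .nil)) 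
(.lf (nat_lit 95019) (.g (nat_lit 2636) (.e (nat_lit 2638) (nat_lit 165) (.e (nat_lit 180277) (nat_lit 32) (.e (nat_lit 1661) (nat_lit 115) (.e (nat_lit 393284) (nat_lit 24) (.e (nat_lit 434209) (nat_lit 18) (.e (nat_lit 5547) (nat_lit 306) .nil)))))) (.g (nat_lit 5) .nil .nil)))) (.nd (nat_lit 5) 
(.lf (nat_lit 95003) (.g (nat_lit 515) (.e (nat_lit 2638) (nat_lit 165) (.e (nat_lit 180271) (nat_lit 26) (.e (nat_lit 704626) (nat_lit 9) .nil))) .nil)) 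
(.lf (nat_lit 95035) (.g (nat_lit 3053) (.e (nat_lit 2639) (nat_lit 165) (.e (nat_lit 180264) (nat_lit 21) (.e (nat_lit 663557) (nat_lit 0) (.e (nat_lit 1234) (nat_lit 91) (.e (nat_lit 90170) (nat_lit 13) (.e (nat_lit 172113) (nat_lit 10) (.e (nat_lit 434207) (nat_lit 18) (.e (nat_lit 6595) (nat_lit 351) .nil)))))))) (.g (nat_lit 8) .nil .nil)))))) 
(.nd (nat_lit 3) (.nd (nat_lit 4) (.nd (nat_lit 5) 
(.lf (nat_lit 94983) (.g (nat_lit 589) (.e (nat_lit 2636) (nat_lit 165) (.e (nat_lit 180277) (nat_lit 32) (.e (nat_lit 1009) (nat_lit 81) .nil))) .nil)) 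
(.lf (nat_lit 95015) (.g (nat_lit 2351) (.e (nat_lit 2638) (nat_lit 165) (.e (nat_lit 180277) (nat_lit 32) (.e (nat_lit 1661) (nat_lit 115) (.e (nat_lit 393271) (nat_lit 23) (.e (nat_lit 426112) (nat_lit 1) (.e (nat_lit 164348) (nat_lit 240) .nil)))))) (.g (nat_lit 4) .nil .nil)))) (.nd (nat_lit 5) 
(.lf (nat_lit 94999) (.g (nat_lit 5359) (.e (nat_lit 2638) (nat_lit 165) (.e (nat_lit 180233) (nat_lit 0) (.e (nat_lit 5949) (nat_lit 322) (.e (nat_lit 57378) (nat_lit 3) (.e (nat_lit 98373) (nat_lit 29) (.e (nat_lit 450562) (nat_lit 0) (.e (nat_lit 6595) (nat_lit 351) .nil))))))) (.g (nat_lit 6) .nil .nil))) 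
(.lf (nat_lit 95031) (.g (nat_lit 1761) (.e (nat_lit 2638) (nat_lit 165) (.e (nat_lit 180278) (nat_lit 32) (.e (nat_lit 1659) (nat_lit 115) (.e (nat_lit 393281) (nat_lit 23) (.e (nat_lit 426105) (nat_lit 1) .nil))))) .nil)))) (.nd (nat_lit 4) (.nd (nat_lit 5) 
(.lf (nat_lit 94991) (.g (nat_lit 2564) (.e (nat_lit 2638) (nat_lit 165) (.e (nat_lit 180225) (nat_lit 0) (.e (nat_lit 5934) (nat_lit 322) (.e (nat_lit 57379) (nat_lit 3) (.e (nat_lit 98372) (nat_lit 29) (.e (nat_lit 450561) (nat_lit 0) (.e (nat_lit 6595) (nat_lit 351) .nil))))))) (.g (nat_lit 5) .nil .nil))) 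
(.lf (nat_lit 95023) (.g (nat_lit 1150) (.e (nat_lit 2638) (nat_lit 165) (.e (nat_lit 180278) (nat_lit 32) (.e (nat_lit 1427) (nat_lit 108) (.e (nat_lit 336432) (nat_lit 30) .nil)))) .nil))) (.nd (nat_lit 5) 
(.lf (nat_lit 95007) (.g (nat_lit 2804) (.e (nat_lit 2638) (nat_lit 165) (.e (nat_lit 180277) (nat_lit 32) (.e (nat_lit 1427) (nat_lit 108) (.e (nat_lit 336443) (nat_lit 32) (.e (nat_lit 466970) (nat_lit 21) .nil))))) .nil)) 
(.lf (nat_lit 95039) (.g (nat_lit 3309) (.e (nat_lit 2639) (nat_lit 165) (.e (nat_lit 180278) (nat_lit 32) (.e (nat_lit 1427) (nat_lit 108) (.e (nat_lit 336430) (nat_lit 29) (.e (nat_lit 442419) (nat_lit 21) (.e (nat_lit 164345) (nat_lit 240) .nil)))))) (.g (nat_lit 0) .nil .nil)))))))))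

noncomputable def tv1306 : DT := (.nd (nat_lit 0) (.nd (nat_lit 1) (.nd (nat_lit 2) (.nd (nat_lit 3) (.nd (nat_lit 4) (.nd (nat_lit 5) 
(.lf (nat_lit 95040) (.g (nat_lit 2316) (.e (nat_lit 2639) (nat_lit 165) (.e (nat_lit 180278) (nat_lit 32) (.e (nat_lit 1427) (nat_lit 108) (.e (nat_lit 336430) (nat_lit 29) (.e (nat_lit 442421) (nat_lit 21) .nil))))) .nil)) 
(.lf (nat_lit 95072) (.g (nat_lit 1482) (.e (nat_lit 2640) (nat_lit 165) (.e (nat_lit 180278) (nat_lit 32) (.e (nat_lit 1428) (nat_lit 108) (.e (nat_lit 336432) (nat_lit 30) (.e (nat_lit 458496) (nat_lit 0) .nil))))) .nil))) (.nd (nat_lit 5) 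
(.lf (nat_lit 95056) (.g (nat_lit 1708) (.e (nat_lit 2640) (nat_lit 165) (.e (nat_lit 180277) (nat_lit 32) (.e (nat_lit 1661) (nat_lit 115) (.e (nat_lit 393260) (nat_lit 21) (.e (nat_lit 417536) (nat_lit 1) (.e (nat_lit 8460) (nat_lit 144) .nil)))))) (.g (nat_lit 4) .nil .nil))) 
(.lf (nat_lit 95088) (.g (nat_lit 5071) (.e (nat_lit 2643) (nat_lit 165) (.e (nat_lit 180243) (nat_lit 5) (.e (nat_lit 532550) (nat_lit 12) (.e (nat_lit 360474) (nat_lit 8) (.e (nat_lit 557089) (nat_lit 12) .nil))))) .nil)))) (.nd (nat_lit 4) (.nd (nat_lit 5) 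
(.lf (nat_lit 95048) (.g (nat_lit 1045) (.e (nat_lit 2639) (nat_lit 165) (.e (nat_lit 180278) (nat_lit 32) (.e (nat_lit 1660) (nat_lit 115) (.e (nat_lit 393281) (nat_lit 23) .nil)))) .nil)) 
(.lf (nat_lit 95080) (.g (nat_lit 3261) (.e (nat_lit 2641) (nat_lit 165) (.e (nat_lit 180278) (nat_lit 32) (.e (nat_lit 1427) (nat_lit 108) (.e (nat_lit 336426) (nat_lit 29) (.e (nat_lit 442430) (nat_lit 24) (.e (nat_lit 229665) (nat_lit 240) .nil)))))) (.g (nat_lit 0) .nil .nil)))) (.nd (nat_lit 5) 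
(.lf (nat_lit 95064) (.g (nat_lit 2162) (.e (nat_lit 2640) (nat_lit 165) (.e (nat_lit 180278) (nat_lit 32) (.e (nat_lit 1427) (nat_lit 108) (.e (nat_lit 336430) (nat_lit 29) (.e (nat_lit 442419) (nat_lit 21) (.e (nat_lit 164346) (nat_lit 240) .nil)))))) (.g (nat_lit 4) .nil .nil))) 
(.lf (nat_lit 95096) (.g (nat_lit 2208) (.e (nat_lit 2645) (nat_lit 166) (.e (nat_lit 196352) (nat_lit 0) (.e (nat_lit 1860) (nat_lit 124) (.e (nat_lit 557109) (nat_lit 15) (.e (nat_lit 188455) (nat_lit 24) (.e (nat_lit 237312) (nat_lit 134) .nil)))))) (.g (nat_lit 5) .nil .nil)))))) (.nd (nat_lit 3) (.nd (nat_lit 4) (.nd (nat_lit 5) 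
(.lf (nat_lit 95044) (.g (nat_lit 865) (.e (nat_lit 2639) (nat_lit 165) (.e (nat_lit 180278) (nat_lit 32) (.e (nat_lit 1658) (nat_lit 115) (.e (nat_lit 393277) (nat_lit 23) .nil)))) .nil)) 
(.lf (nat_lit 95076) (.g (nat_lit 3216) (.e (nat_lit 2641) (nat_lit 165) (.e (nat_lit 180244) (nat_lit 5) (.e (nat_lit 532549) (nat_lit 12) (.e (nat_lit 360475) (nat_lit 8) (.e (nat_lit 557089) (nat_lit 12) .nil))))) .nil))) (.nd (nat_lit 5) 
(.lf (nat_lit 95060) (.g (nat_lit 1159) (.e (nat_lit 2640) (nat_lit 165) (.e (nat_lit 180277) (nat_lit 32) (.e (nat_lit 1661) (nat_lit 115) (.e (nat_lit 393283) (nat_lit 24) .nil)))) .nil)) 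
(.lf (nat_lit 95092) (.g (nat_lit 2024) (.e (nat_lit 2643) (nat_lit 165) (.e (nat_lit 180268) (nat_lit 24) (.e (nat_lit 688182) (nat_lit 17) (.e (nat_lit 73755) (nat_lit 8) (.e (nat_lit 557104) (nat_lit 14) (.e (nat_lit 180233) (nat_lit 0) (.e (nat_lit 5447) (nat_lit 306) .nil))))))) (.g (nat_lit 4) .nil .nil))))) (.nd (nat_lit 4) (.nd (nat_lit 5) 
(.lf (nat_lit 95052) (.g (nat_lit 366) (.e (nat_lit 2640) (nat_lit 165) (.e (nat_lit 180227) (nat_lit 0) (.e (nat_lit 6252) (nat_lit 337) .nil))) .nil)) 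
(.lf (nat_lit 95084) (.g (nat_lit 3693) (.e (nat_lit 2641) (nat_lit 165) (.e (nat_lit 180278) (nat_lit 32) (.e (nat_lit 1427) (nat_lit 108) (.e (nat_lit 336430) (nat_lit 29) (.e (nat_lit 442430) (nat_lit 24) (.e (nat_lit 229665) (nat_lit 240) .nil)))))) (.g (nat_lit 0) .nil .nil)))) (.nd (nat_lit 5) 
(.lf (nat_lit 95068) (.g (nat_lit 2815) (.e (nat_lit 2640) (nat_lit 165) (.e (nat_lit 180278) (nat_lit 32) (.e (nat_lit 1427) (nat_lit 108) (.e (nat_lit 336434) (nat_lit 30) (.e (nat_lit 450564) (nat_lit 0) (.e (nat_lit 5546) (nat_lit 306) .nil)))))) (.g (nat_lit 6) .nil .nil))) 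
(.lf (nat_lit 95100) (.g (nat_lit 1693) (.e (nat_lit 2648) (nat_lit 166) (.e (nat_lit 188418) (nat_lit 0) (.e (nat_lit 2175) (nat_lit 143) (.e (nat_lit 712755) (nat_lit 30) (.e (nat_lit 458496) (nat_lit 0) (.e (nat_lit 5547) (nat_lit 306) .nil)))))) (.g (nat_lit 4) .nil .nil))))))) (.nd (nat_lit 2) (.nd (nat_lit 3) (.nd (nat_lit 4) (.nd (nat_lit 5) 
(.lf (nat_lit 95042) (.g (nat_lit 3318) (.e (nat_lit 2639) (nat_lit 165) (.e (nat_lit 180278) (nat_lit 32) (.e (nat_lit 1427) (nat_lit 108) (.e (nat_lit 336443) (nat_lit 32) (.e (nat_lit 466969) (nat_lit 21) (.e (nat_lit 164345) (nat_lit 240) .nil)))))) (.g (nat_lit 6) .nil .nil))) 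
(.lf (nat_lit 95074) (.g (nat_lit 2366) (.e (nat_lit 2641) (nat_lit 165) (.e (nat_lit 180244) (nat_lit 5) (.e (nat_lit 532549) (nat_lit 12) (.e (nat_lit 360473) (nat_lit 8) (.e (nat_lit 557089) (nat_lit 12) .nil))))) .nil))) (.nd (nat_lit 5) 
(.lf (nat_lit 95058) (.g (nat_lit 2389) (.e (nat_lit 2640) (nat_lit 165) (.e (nat_lit 180277) (nat_lit 32) (.e (nat_lit 1661) (nat_lit 115) (.e (nat_lit 393275) (nat_lit 23) (.e (nat_lit 426109) (nat_lit 1) (.e (nat_lit 164347) (nat_lit 240) .nil)))))) (.g (nat_lit 0) .nil .nil))) 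
(.lf (nat_lit 95090) (.g (nat_lit 3155) (.e (nat_lit 2643) (nat_lit 165) (.e (nat_lit 180243) (nat_lit 5) (.e (nat_lit 532550) (nat_lit 12) (.e (nat_lit 360474) (nat_lit 8) (.e (nat_lit 557094) (nat_lit 12) .nil))))) .nil)))) (.nd (nat_lit 4) (.nd (nat_lit 5) 
(.lf (nat_lit 95050) (.g (nat_lit 1157) (.e (nat_lit 2639) (nat_lit 165) (.e (nat_lit 180278) (nat_lit 32) (.e (nat_lit 1660) (nat_lit 115) (.e (nat_lit 393284) (nat_lit 24) .nil)))) .nil)) 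
(.lf (nat_lit 95082) (.g (nat_lit 3453) (.e (nat_lit 2641) (nat_lit 165) (.e (nat_lit 180278) (nat_lit 32) (.e (nat_lit 1427) (nat_lit 108) (.e (nat_lit 336430) (nat_lit 29) (.e (nat_lit 442428) (nat_lit 24) (.e (nat_lit 229665) (nat_lit 240) .nil)))))) (.g (nat_lit 0) .nil .nil)))) (.nd (nat_lit 5) 
(.lf (nat_lit 95066) (.g (nat_lit 1554) (.e (nat_lit 2640) (nat_lit 165) (.e (nat_lit 180278) (nat_lit 32) (.e (nat_lit 1427) (nat_lit 108) (.e (nat_lit 336432) (nat_lit 30) (.e (nat_lit 458496) (nat_lit 0) .nil))))) .nil)) 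
(.lf (nat_lit 95098) (.g (nat_lit 751) (.e (nat_lit 2647) (nat_lit 166) (.e (nat_lit 188446) (nat_lit 21) (.e (nat_lit 164321) (nat_lit 229) .nil))) .nil))))) (.nd (nat_lit 3) (.nd (nat_lit 4) (.nd (nat_lit 5) 
(.lf (nat_lit 95046) (.g (nat_lit 2008) (.e (nat_lit 2639) (nat_lit 165) (.e (nat_lit 180278) (nat_lit 32) (.e (nat_lit 1659) (nat_lit 115) (.e (nat_lit 393271) (nat_lit 23) (.e (nat_lit 426112) (nat_lit 1) .nil))))) .nil)) 
(.lf (nat_lit 95078) (.g (nat_lit 3664) (.e (nat_lit 2641) (nat_lit 165) (.e (nat_lit 180268) (nat_lit 24) (.e (nat_lit 688182) (nat_lit 17) (.e (nat_lit 73755) (nat_lit 8) (.e (nat_lit 557104) (nat_lit 14) (.e (nat_lit 180233) (nat_lit 0) (.e (nat_lit 5448) (nat_lit 306) .nil))))))) (.g (nat_lit 0) .nil .nil)))) (.nd (nat_lit 5) 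
(.lf (nat_lit 95062) (.g (nat_lit 1843) (.e (nat_lit 2640) (nat_lit 165) (.e (nat_lit 180277) (nat_lit 32) (.e (nat_lit 1661) (nat_lit 115) (.e (nat_lit 393284) (nat_lit 24) (.e (nat_lit 434212) (nat_lit 18) (.e (nat_lit 5547) (nat_lit 306) .nil)))))) (.g (nat_lit 4) .nil .nil))) 
(.lf (nat_lit 95094) (.g (nat_lit 1156) (.e (nat_lit 7936) (nat_lit 165) (.e (nat_lit 180243) (nat_lit 5) (.e (nat_lit 532501) (nat_lit 1) (.e (nat_lit 57730) (nat_lit 181) (.e (nat_lit 1082) (nat_lit 81) .nil))))) .nil)))) (.nd (nat_lit 4) (.nd (nat_lit 5) 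
(.lf (nat_lit 95054) (.g (nat_lit 2827) (.e (nat_lit 2640) (nat_lit 165) (.e (nat_lit 180265) (nat_lit 21) (.e (nat_lit 663556) (nat_lit 0) (.e (nat_lit 1234) (nat_lit 91) (.e (nat_lit 90170) (nat_lit 13) (.e (nat_lit 172113) (nat_lit 10) (.e (nat_lit 434207) (nat_lit 18) (.e (nat_lit 6595) (nat_lit 351) .nil)))))))) (.g (nat_lit 6) .nil .nil))) 
(.lf (nat_lit 95086) (.g (nat_lit 616) (.e (nat_lit 2643) (nat_lit 165) (.e (nat_lit 180228) (nat_lit 0) (.e (nat_lit 6306) (nat_lit 337) .nil))) .nil))) (.nd (nat_lit 5) 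
(.lf (nat_lit 95070) (.g (nat_lit 1470) (.e (nat_lit 2640) (nat_lit 165) (.e (nat_lit 180278) (nat_lit 32) (.e (nat_lit 1427) (nat_lit 108) (.e (nat_lit 336434) (nat_lit 30) (.e (nat_lit 458496) (nat_lit 0) .nil))))) .nil)) 
(.lf (nat_lit 95102) (.g (nat_lit 637) (.e (nat_lit 2649) (nat_lit 166) (.e (nat_lit 188446) (nat_lit 21) (.e (nat_lit 164195) (nat_lit 158) .nil))) .nil))))))) (.nd (nat_lit 1) (.nd (nat_lit 2) (.nd (nat_lit 3) (.nd (nat_lit 4) (.nd (nat_lit 5) 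
(.lf (nat_lit 95041) (.g (nat_lit 3239) (.e (nat_lit 2639) (nat_lit 165) (.e (nat_lit 180278) (nat_lit 32) (.e (nat_lit 1427) (nat_lit 108) (.e (nat_lit 336430) (nat_lit 29) (.e (nat_lit 442421) (nat_lit 21) (.e (nat_lit 164345) (nat_lit 240) .nil)))))) (.g (nat_lit 0) .nil .nil))) 
(.lf (nat_lit 95073) (.g (nat_lit 1175) (.e (nat_lit 2640) (nat_lit 165) (.e (nat_lit 188160) (nat_lit 32) (.e (nat_lit 1656) (nat_lit 115) (.e (nat_lit 393265) (nat_lit 22) (.e (nat_lit 417804) (nat_lit 1) (.e (nat_lit 8460) (nat_lit 144) .nil)))))) (.g (nat_lit 4) .nil .nil)))) (.nd (nat_lit 5) 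
(.lf (nat_lit 95057) (.g (nat_lit 2460) (.e (nat_lit 2640) (nat_lit 165) (.e (nat_lit 180277) (nat_lit 32) (.e (nat_lit 1661) (nat_lit 115) (.e (nat_lit 393266) (nat_lit 23) (.e (nat_lit 426109) (nat_lit 1) (.e (nat_lit 164347) (nat_lit 240) .nil)))))) (.g (nat_lit 0) .nil .nil))) 
(.lf (nat_lit 95089) (.g (nat_lit 3602) (.e (nat_lit 2643) (nat_lit 165) (.e (nat_lit 180243) (nat_lit 5) (.e (nat_lit 532550) (nat_lit 12) (.e (nat_lit 360474) (nat_lit 8) (.e (nat_lit 557093) (nat_lit 12) .nil))))) .nil)))) (.nd (nat_lit 4) (.nd (nat_lit 5) 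
(.lf (nat_lit 95049) (.g (nat_lit 1059) (.e (nat_lit 2639) (nat_lit 165) (.e (nat_lit 180278) (nat_lit 32) (.e (nat_lit 1660) (nat_lit 115) (.e (nat_lit 393283) (nat_lit 24) .nil)))) .nil)) 
(.lf (nat_lit 95081) (.g (nat_lit 1915) (.e (nat_lit 2641) (nat_lit 165) (.e (nat_lit 180278) (nat_lit 32) (.e (nat_lit 1427) (nat_lit 108) (.e (nat_lit 336426) (nat_lit 29) (.e (nat_lit 442430) (nat_lit 24) (.e (nat_lit 229666) (nat_lit 240) .nil)))))) (.g (nat_lit 4) .nil .nil)))) (.nd (nat_lit 5) 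
(.lf (nat_lit 95065) (.g (nat_lit 2032) (.e (nat_lit 2640) (nat_lit 165) (.e (nat_lit 180278) (nat_lit 32) (.e (nat_lit 1427) (nat_lit 108) (.e (nat_lit 336430) (nat_lit 29) (.e (nat_lit 442421) (nat_lit 21) .nil))))) .nil)) 
(.lf (nat_lit 95097) (.g (nat_lit 2116) (.e (nat_lit 2646) (nat_lit 166) (.e (nat_lit 188418) (nat_lit 0) (.e (nat_lit 2160) (nat_lit 143) (.e (nat_lit 712755) (nat_lit 30) (.e (nat_lit 450563) (nat_lit 0) (.e (nat_lit 7936) (nat_lit 306) .nil)))))) (.g (nat_lit 5) .nil .nil)))))) (.nd (nat_lit 3) (.nd (nat_lit 4) (.nd (nat_lit 5) 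
(.lf (nat_lit 95045) (.g (nat_lit 862) (.e (nat_lit 2639) (nat_lit 165) (.e (nat_lit 180278) (nat_lit 32) (.e (nat_lit 1658) (nat_lit 115) (.e (nat_lit 393278) (nat_lit 23) .nil)))) .nil)) 
(.lf (nat_lit 95077) (.g (nat_lit 3197) (.e (nat_lit 2641) (nat_lit 165) (.e (nat_lit 180244) (nat_lit 5) (.e (nat_lit 532549) (nat_lit 12) (.e (nat_lit 360475) (nat_lit 8) (.e (nat_lit 557091) (nat_lit 12) .nil))))) .nil))) (.nd (nat_lit 5) 
(.lf (nat_lit 95061) (.g (nat_lit 1691) (.e (nat_lit 2640) (nat_lit 165) (.e (nat_lit 180277) (nat_lit 32) (.e (nat_lit 1661) (nat_lit 115) (.e (nat_lit 393284) (nat_lit 24) (.e (nat_lit 434212) (nat_lit 18) .nil))))) .nil)) 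
(.lf (nat_lit 95093) (.g (nat_lit 3587) (.e (nat_lit 2643) (nat_lit 165) (.e (nat_lit 180268) (nat_lit 24) (.e (nat_lit 688182) (nat_lit 17) (.e (nat_lit 73755) (nat_lit 8) (.e (nat_lit 557104) (nat_lit 14) (.e (nat_lit 180233) (nat_lit 0) (.e (nat_lit 5448) (nat_lit 306) .nil))))))) (.g (nat_lit 0) .nil .nil))))) (.nd (nat_lit 4) (.nd (nat_lit 5) 
(.lf (nat_lit 95053) (.g (nat_lit 3473) (.e (nat_lit 2640) (nat_lit 165) (.e (nat_lit 180265) (nat_lit 21) (.e (nat_lit 663555) (nat_lit 0) (.e (nat_lit 1234) (nat_lit 91) (.e (nat_lit 90170) (nat_lit 13) (.e (nat_lit 172113) (nat_lit 10) (.e (nat_lit 434203) (nat_lit 18) (.e (nat_lit 6595) (nat_lit 351) .nil)))))))) (.g (nat_lit 7) .nil .nil))) 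
(.lf (nat_lit 95085) (.g (nat_lit 3126) (.e (nat_lit 2641) (nat_lit 165) (.e (nat_lit 180278) (nat_lit 32) (.e (nat_lit 1427) (nat_lit 108) (.e (nat_lit 336430) (nat_lit 29) (.e (nat_lit 442430) (nat_lit 24) (.e (nat_lit 229666) (nat_lit 240) .nil)))))) (.g (nat_lit 0) .nil .nil)))) (.nd (nat_lit 5) 
(.lf (nat_lit 95069) (.g (nat_lit 1540) (.e (nat_lit 2640) (nat_lit 165) (.e (nat_lit 180278) (nat_lit 32) (.e (nat_lit 1427) (nat_lit 108) (.e (nat_lit 336434) (nat_lit 30) (.e (nat_lit 450564) (nat_lit 0) (.e (nat_lit 5547) (nat_lit 306) .nil)))))) (.g (nat_lit 4) .nil .nil))) 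
(.lf (nat_lit 95101) (.g (nat_lit 3152) (.e (nat_lit 2648) (nat_lit 166) (.e (nat_lit 188420) (nat_lit 0) (.e (nat_lit 2172) (nat_lit 143) (.e (nat_lit 712752) (nat_lit 29) (.e (nat_lit 442421) (nat_lit 21) (.e (nat_lit 164347) (nat_lit 240) .nil)))))) (.g (nat_lit 0) .nil .nil))))))) (.nd (nat_lit 2) (.nd (nat_lit 3) (.nd (nat_lit 4) (.nd (nat_lit 5) 
(.lf (nat_lit 95043) (.g (nat_lit 3115) (.e (nat_lit 2639) (nat_lit 165) (.e (nat_lit 180278) (nat_lit 32) (.e (nat_lit 1427) (nat_lit 108) (.e (nat_lit 336443) (nat_lit 32) (.e (nat_lit 466971) (nat_lit 21) (.e (nat_lit 164345) (nat_lit 240) .nil)))))) (.g (nat_lit 6) .nil .nil))) 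
(.lf (nat_lit 95075) (.g (nat_lit 2466) (.e (nat_lit 2641) (nat_lit 165) (.e (nat_lit 180244) (nat_lit 5) (.e (nat_lit 532549) (nat_lit 12) (.e (nat_lit 360473) (nat_lit 8) (.e (nat_lit 557091) (nat_lit 12) .nil))))) .nil))) (.nd (nat_lit 5) 
(.lf (nat_lit 95059) (.g (nat_lit 1167) (.e (nat_lit 2640) (nat_lit 165) (.e (nat_lit 180277) (nat_lit 32) (.e (nat_lit 1661) (nat_lit 115) (.e (nat_lit 393282) (nat_lit 24) .nil)))) .nil)) 
(.lf (nat_lit 95091) (.g (nat_lit 3240) (.e (nat_lit 2643) (nat_lit 165) (.e (nat_lit 180243) (nat_lit 5) (.e (nat_lit 532550) (nat_lit 12) (.e (nat_lit 360475) (nat_lit 8) (.e (nat_lit 557089) (nat_lit 12) .nil))))) .nil)))) (.nd (nat_lit 4) (.nd (nat_lit 5) 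
(.lf (nat_lit 95051) (.g (nat_lit 360) (.e (nat_lit 2640) (nat_lit 165) (.e (nat_lit 180227) (nat_lit 0) (.e (nat_lit 5117) (nat_lit 292) .nil))) .nil)) 
(.lf (nat_lit 95083) (.g (nat_lit 3094) (.e (nat_lit 2641) (nat_lit 165) (.e (nat_lit 180278) (nat_lit 32) (.e (nat_lit 1427) (nat_lit 108) (.e (nat_lit 336430) (nat_lit 29) (.e (nat_lit 442428) (nat_lit 24) (.e (nat_lit 229666) (nat_lit 240) .nil)))))) (.g (nat_lit 0) .nil .nil)))) (.nd (nat_lit 5) 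
(.lf (nat_lit 95067) (.g (nat_lit 1736) (.e (nat_lit 2640) (nat_lit 165) (.e (nat_lit 180278) (nat_lit 32) (.e (nat_lit 1427) (nat_lit 108) (.e (nat_lit 336432) (nat_lit 30) (.e (nat_lit 458496) (nat_lit 0) (.e (nat_lit 5546) (nat_lit 306) .nil)))))) (.g (nat_lit 4) .nil .nil))) 
(.lf (nat_lit 95099) (.g (nat_lit 1304) (.e (nat_lit 2648) (nat_lit 166) (.e (nat_lit 188418) (nat_lit 0) (.e (nat_lit 2175) (nat_lit 143) (.e (nat_lit 712753) (nat_lit 30) (.e (nat_lit 458496) (nat_lit 0) (.e (nat_lit 5547) (nat_lit 306) .nil)))))) (.g (nat_lit 4) .nil .nil)))))) (.nd (nat_lit 3) (.nd (nat_lit 4) (.nd (nat_lit 5) 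
(.lf (nat_lit 95047) (.g (nat_lit 1511) (.e (nat_lit 2639) (nat_lit 165) (.e (nat_lit 180278) (nat_lit 32) (.e (nat_lit 1660) (nat_lit 115) (.e (nat_lit 393271) (nat_lit 23) (.e (nat_lit 426112) (nat_lit 1) .nil))))) .nil)) 
(.lf (nat_lit 95079) (.g (nat_lit 3172) (.e (nat_lit 2641) (nat_lit 165) (.e (nat_lit 180278) (nat_lit 32) (.e (nat_lit 1427) (nat_lit 108) (.e (nat_lit 336426) (nat_lit 29) (.e (nat_lit 442430) (nat_lit 24) (.e (nat_lit 229664) (nat_lit 240) .nil)))))) (.g (nat_lit 6) .nil .nil)))) (.nd (nat_lit 5) 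
(.lf (nat_lit 95063) (.g (nat_lit 1412) (.e (nat_lit 2640) (nat_lit 165) (.e (nat_lit 180277) (nat_lit 32) (.e (nat_lit 1661) (nat_lit 115) (.e (nat_lit 393285) (nat_lit 25) .nil)))) .nil)) 
(.lf (nat_lit 95095) (.g (nat_lit 1957) (.e (nat_lit 7936) (nat_lit 165) (.e (nat_lit 180252) (nat_lit 10) (.e (nat_lit 573451) (nat_lit 9) (.e (nat_lit 1667) (nat_lit 116) .nil)))) .nil)))) (.nd (nat_lit 4) (.nd (nat_lit 5) 
(.lf (nat_lit 95055) (.g (nat_lit 1565) (.e (nat_lit 2640) (nat_lit 165) (.e (nat_lit 180271) (nat_lit 26) (.e (nat_lit 704629) (nat_lit 9) (.e (nat_lit 1276) (nat_lit 94) .nil)))) .nil)) 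
(.lf (nat_lit 95087) (.g (nat_lit 1356) (.e (nat_lit 2643) (nat_lit 165) (.e (nat_lit 180243) (nat_lit 5) (.e (nat_lit 532549) (nat_lit 12) (.e (nat_lit 360473) (nat_lit 8) .nil)))) .nil))) (.nd (nat_lit 5) 
(.lf (nat_lit 95071) (.g (nat_lit 2663) (.e (nat_lit 2640) (nat_lit 165) (.e (nat_lit 180278) (nat_lit 32) (.e (nat_lit 1427) (nat_lit 108) (.e (nat_lit 336443) (nat_lit 32) (.e (nat_lit 466971) (nat_lit 21) (.e (nat_lit 164347) (nat_lit 240) .nil)))))) (.g (nat_lit 5) .nil .nil))) 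
(.lf (nat_lit 95103) (.g (nat_lit 3081) (.e (nat_lit 2649) (nat_lit 166) (.e (nat_lit 188446) (nat_lit 21) (.e (nat_lit 164196) (nat_lit 158) (.e (nat_lit 1221) (nat_lit 90) (.e (nat_lit 81959) (nat_lit 24) (.e (nat_lit 130816) (nat_lit 122) .nil)))))) (.g (nat_lit 5) .nil .nil)))))))))

noncomputable def tv1307 : DT := (.nd (nat_lit 0) (.nd (nat_lit 1) (.nd (nat_lit 2) (.nd (nat_lit 3) (.nd (nat_lit 4) (.nd (nat_lit 5) (.nd (nat_lit 6) 
(.lf (nat_lit 95104) (.g (nat_lit 1029) (.e (nat_lit 2649) (nat_lit 166) (.e (nat_lit 188446) (nat_lit 21) (.e (nat_lit 164305) (nat_lit 226) (.e (nat_lit 7936) (nat_lit 90) .nil)))) .nil)) 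
(.lf (nat_lit 95168) (.g (nat_lit 2077) (.e (nat_lit 2661) (nat_lit 167) (.e (nat_lit 196624) (nat_lit 9) (.e (nat_lit 1615) (nat_lit 113) (.e (nat_lit 376862) (nat_lit 22) (.e (nat_lit 90181) (nat_lit 16) (.e (nat_lit 229577) (nat_lit 179) (.e (nat_lit 164362) (nat_lit 246) .nil))))))) (.g (nat_lit 5) .nil .nil)))) (.nd (nat_lit 6) 
(.lf (nat_lit 95136) (.g (nat_lit 2210) (.e (nat_lit 2654) (nat_lit 167) (.e (nat_lit 196666) (nat_lit 13) (.e (nat_lit 65610) (nat_lit 10) (.e (nat_lit 344117) (nat_lit 21) (.e (nat_lit 516106) (nat_lit 0) .nil))))) .nil)) 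
(.lf (nat_lit 95200) (.g (nat_lit 2926) (.e (nat_lit 2662) (nat_lit 167) (.e (nat_lit 196666) (nat_lit 13) (.e (nat_lit 65610) (nat_lit 10) (.e (nat_lit 344117) (nat_lit 21) (.e (nat_lit 516151) (nat_lit 9) .nil))))) .nil)))) (.nd (nat_lit 5) (.nd (nat_lit 6) 
(.lf (nat_lit 95120) (.g (nat_lit 1636) (.e (nat_lit 2651) (nat_lit 166) (.e (nat_lit 196352) (nat_lit 0) (.e (nat_lit 2030) (nat_lit 140) (.e (nat_lit 688186) (nat_lit 18) (.e (nat_lit 81959) (nat_lit 24) (.e (nat_lit 123147) (nat_lit 250) .nil)))))) (.g (nat_lit 5) .nil .nil))) 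
(.lf (nat_lit 95184) (.g (nat_lit 2148) (.e (nat_lit 2661) (nat_lit 167) (.e (nat_lit 196666) (nat_lit 13) (.e (nat_lit 65610) (nat_lit 10) (.e (nat_lit 344117) (nat_lit 21) (.e (nat_lit 516142) (nat_lit 8) .nil))))) .nil))) (.nd (nat_lit 6) 
(.lf (nat_lit 95152) (.g (nat_lit 2837) (.e (nat_lit 2655) (nat_lit 167) (.e (nat_lit 196666) (nat_lit 13) (.e (nat_lit 65610) (nat_lit 10) (.e (nat_lit 344129) (nat_lit 26) .nil)))) .nil)) 
(.lf (nat_lit 95216) (.g (nat_lit 4691) (.e (nat_lit 2663) (nat_lit 167) (.e (nat_lit 196666) (nat_lit 13) (.e (nat_lit 65610) (nat_lit 10) (.e (nat_lit 344117) (nat_lit 21) (.e (nat_lit 516151) (nat_lit 9) (.e (nat_lit 426412) (nat_lit 15) (.e (nat_lit 1010) (nat_lit 81) (.e (nat_lit 6017) (nat_lit 326) (.e (nat_lit 2479) (nat_lit 157) .nil))))))))) (.g (nat_lit 5) .nil .nil)))))) 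
(.nd (nat_lit 4) (.nd (nat_lit 5) (.nd (nat_lit 6) 
(.lf (nat_lit 95112) (.g (nat_lit 2312) (.e (nat_lit 2650) (nat_lit 166) (.e (nat_lit 188446) (nat_lit 21) (.e (nat_lit 164196) (nat_lit 158) (.e (nat_lit 1221) (nat_lit 90) (.e (nat_lit 81959) (nat_lit 24) (.e (nat_lit 130816) (nat_lit 122) .nil)))))) (.g (nat_lit 4) .nil .nil))) 
(.lf (nat_lit 95176) (.g (nat_lit 2406) (.e (nat_lit 2661) (nat_lit 167) (.e (nat_lit 196666) (nat_lit 13) (.e (nat_lit 65610) (nat_lit 10) (.e (nat_lit 344117) (nat_lit 21) (.e (nat_lit 516098) (nat_lit 0) .nil))))) .nil))) (.nd (nat_lit 6) 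
(.lf (nat_lit 95144) (.g (nat_lit 1325) (.e (nat_lit 2654) (nat_lit 167) (.e (nat_lit 196672) (nat_lit 15) (.e (nat_lit 81954) (nat_lit 23) (.e (nat_lit 98323) (nat_lit 17) .nil)))) .nil)) 
(.lf (nat_lit 95208) (.g (nat_lit 3019) (.e (nat_lit 2663) (nat_lit 167) (.e (nat_lit 196666) (nat_lit 13) (.e (nat_lit 65610) (nat_lit 10) (.e (nat_lit 344117) (nat_lit 21) (.e (nat_lit 516138) (nat_lit 7) .nil))))) .nil)))) (.nd (nat_lit 5) (.nd (nat_lit 6) 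
(.lf (nat_lit 95128) (.g (nat_lit 1645) (.e (nat_lit 2653) (nat_lit 166) (.e (nat_lit 188440) (nat_lit 20) (.e (nat_lit 3469) (nat_lit 217) (.e (nat_lit 696344) (nat_lit 8) (.e (nat_lit 172113) (nat_lit 10) .nil))))) .nil)) 
(.lf (nat_lit 95192) (.g (nat_lit 2263) (.e (nat_lit 2661) (nat_lit 167) (.e (nat_lit 196666) (nat_lit 13) (.e (nat_lit 65617) (nat_lit 10) (.e (nat_lit 344133) (nat_lit 26) (.e (nat_lit 557065) (nat_lit 9) .nil))))) .nil))) (.nd (nat_lit 6) 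
(.lf (nat_lit 95160) (.g (nat_lit 2886) (.e (nat_lit 2657) (nat_lit 167) (.e (nat_lit 196672) (nat_lit 15) (.e (nat_lit 81954) (nat_lit 23) (.e (nat_lit 98350) (nat_lit 24) (.e (nat_lit 409610) (nat_lit 10) .nil))))) .nil)) 
(.lf (nat_lit 95224) (.g (nat_lit 3153) (.e (nat_lit 2663) (nat_lit 167) (.e (nat_lit 196666) (nat_lit 13) (.e (nat_lit 65617) (nat_lit 10) (.e (nat_lit 344127) (nat_lit 26) (.e (nat_lit 557066) (nat_lit 9) (.e (nat_lit 297) (nat_lit 22) (.e (nat_lit 344069) (nat_lit 0) .nil))))))) (.g (nat_lit 6) .nil .nil))))))) (.nd (nat_lit 3) (.nd (nat_lit 4) (.nd (nat_lit 5) (.nd (nat_lit 6) 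
(.lf (nat_lit 95108) (.g (nat_lit 1157) (.e (nat_lit 2650) (nat_lit 166) (.e (nat_lit 188419) (nat_lit 0) (.e (nat_lit 2160) (nat_lit 143) (.e (nat_lit 712753) (nat_lit 30) (.e (nat_lit 458496) (nat_lit 0) (.e (nat_lit 5550) (nat_lit 306) .nil)))))) (.g (nat_lit 4) .nil .nil))) 
(.lf (nat_lit 95172) (.g (nat_lit 2621) (.e (nat_lit 2661) (nat_lit 167) (.e (nat_lit 196663) (nat_lit 13) (.e (nat_lit 65630) (nat_lit 14) (.e (nat_lit 401425) (nat_lit 2) (.e (nat_lit 196661) (nat_lit 12) .nil))))) .nil))) (.nd (nat_lit 6) 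
(.lf (nat_lit 95140) (.g (nat_lit 2669) (.e (nat_lit 2654) (nat_lit 167) (.e (nat_lit 196666) (nat_lit 13) (.e (nat_lit 65610) (nat_lit 10) (.e (nat_lit 344117) (nat_lit 21) (.e (nat_lit 516142) (nat_lit 8) .nil))))) .nil)) 
(.lf (nat_lit 95204) (.g (nat_lit 2022) (.e (nat_lit 2663) (nat_lit 167) (.e (nat_lit 196630) (nat_lit 9) (.e (nat_lit 1543) (nat_lit 109) (.e (nat_lit 344132) (nat_lit 26) (.e (nat_lit 557105) (nat_lit 14) (.e (nat_lit 180252) (nat_lit 10) (.e (nat_lit 573473) (nat_lit 12) (.e (nat_lit 57508) (nat_lit 39) (.e (nat_lit 647176) (nat_lit 0) .nil))))))))) (.g (nat_lit 4) .nil .nil))))) 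
(.nd (nat_lit 5) (.nd (nat_lit 6) 
(.lf (nat_lit 95124) (.g (nat_lit 2308) (.e (nat_lit 2651) (nat_lit 166) (.e (nat_lit 188453) (nat_lit 24) (.e (nat_lit 229519) (nat_lit 125) (.e (nat_lit 122919) (nat_lit 15) (.e (nat_lit 360451) (nat_lit 0) (.e (nat_lit 7607) (nat_lit 410) .nil)))))) (.g (nat_lit 5) .nil .nil))) 
(.lf (nat_lit 95188) (.g (nat_lit 573) (.e (nat_lit 2661) (nat_lit 167) (.e (nat_lit 196666) (nat_lit 13) (.e (nat_lit 65617) (nat_lit 10) .nil))) .nil))) (.nd (nat_lit 6) 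
(.lf (nat_lit 95156) (.g (nat_lit 2111) (.e (nat_lit 2657) (nat_lit 167) (.e (nat_lit 196654) (nat_lit 11) (.e (nat_lit 16436) (nat_lit 9) (.e (nat_lit 426131) (nat_lit 3) (.e (nat_lit 204880) (nat_lit 32) .nil))))) .nil)) 
(.lf (nat_lit 95220) (.g (nat_lit 4015) (.e (nat_lit 2663) (nat_lit 167) (.e (nat_lit 196666) (nat_lit 13) (.e (nat_lit 65610) (nat_lit 10) (.e (nat_lit 344129) (nat_lit 26) (.e (nat_lit 557066) (nat_lit 9) (.e (nat_lit 297) (nat_lit 22) (.e (nat_lit 344068) (nat_lit 0) .nil))))))) (.g (nat_lit 5) .nil .nil)))))) (.nd (nat_lit 4) (.nd (nat_lit 5) (.nd (nat_lit 6) 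
(.lf (nat_lit 95116) (.g (nat_lit 3663) (.e (nat_lit 2651) (nat_lit 166) (.e (nat_lit 188420) (nat_lit 0) (.e (nat_lit 1855) (nat_lit 124) (.e (nat_lit 557109) (nat_lit 15) (.e (nat_lit 188455) (nat_lit 24) (.e (nat_lit 237312) (nat_lit 134) .nil)))))) (.g (nat_lit 5) .nil .nil))) 
(.lf (nat_lit 95180) (.g (nat_lit 2628) (.e (nat_lit 2661) (nat_lit 167) (.e (nat_lit 196666) (nat_lit 13) (.e (nat_lit 65610) (nat_lit 10) (.e (nat_lit 344117) (nat_lit 21) (.e (nat_lit 524032) (nat_lit 0) .nil))))) .nil))) (.nd (nat_lit 6) 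
(.lf (nat_lit 95148) (.g (nat_lit 2828) (.e (nat_lit 2654) (nat_lit 167) (.e (nat_lit 196672) (nat_lit 15) (.e (nat_lit 81956) (nat_lit 23) (.e (nat_lit 98320) (nat_lit 17) .nil)))) .nil)) 
(.lf (nat_lit 95212) (.g (nat_lit 4715) (.e (nat_lit 2663) (nat_lit 167) (.e (nat_lit 196666) (nat_lit 13) (.e (nat_lit 65610) (nat_lit 10) (.e (nat_lit 344117) (nat_lit 21) (.e (nat_lit 516151) (nat_lit 9) (.e (nat_lit 426412) (nat_lit 15) (.e (nat_lit 1009) (nat_lit 81) (.e (nat_lit 6045) (nat_lit 326) (.e (nat_lit 2454) (nat_lit 157) .nil))))))))) (.g (nat_lit 5) .nil .nil))))) 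
(.nd (nat_lit 5) (.nd (nat_lit 6) 
(.lf (nat_lit 95132) (.g (nat_lit 1778) (.e (nat_lit 7936) (nat_lit 166) (.e (nat_lit 188441) (nat_lit 20) (.e (nat_lit 3469) (nat_lit 217) (.e (nat_lit 696344) (nat_lit 8) (.e (nat_lit 172106) (nat_lit 10) .nil))))) .nil)) 
(.lf (nat_lit 95196) (.g (nat_lit 2462) (.e (nat_lit 2661) (nat_lit 167) (.e (nat_lit 196666) (nat_lit 13) (.e (nat_lit 65617) (nat_lit 10) (.e (nat_lit 344133) (nat_lit 26) (.e (nat_lit 557073) (nat_lit 9) .nil))))) .nil))) (.nd (nat_lit 6) 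
(.lf (nat_lit 95164) (.g (nat_lit 1027) (.e (nat_lit 2659) (nat_lit 167) (.e (nat_lit 196666) (nat_lit 13) (.e (nat_lit 65610) (nat_lit 10) .nil))) .nil)) 
(.lf (nat_lit 95228) (.g (nat_lit 4429) (.e (nat_lit 2663) (nat_lit 167) (.e (nat_lit 196666) (nat_lit 13) (.e (nat_lit 65617) (nat_lit 10) (.e (nat_lit 344130) (nat_lit 26) (.e (nat_lit 557066) (nat_lit 9) (.e (nat_lit 232) (nat_lit 21) (.e (nat_lit 335907) (nat_lit 0) (.e (nat_lit 6679) (nat_lit 357) .nil)))))))) (.g (nat_lit 6) .nil .nil)))))))) 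
(.nd (nat_lit 2) (.nd (nat_lit 3) (.nd (nat_lit 4) (.nd (nat_lit 5) (.nd (nat_lit 6) 
(.lf (nat_lit 95106) (.g (nat_lit 698) (.e (nat_lit 2649) (nat_lit 166) (.e (nat_lit 188455) (nat_lit 24) (.e (nat_lit 229632) (nat_lit 226) .nil))) .nil)) 
(.lf (nat_lit 95170) (.g (nat_lit 3048) (.e (nat_lit 2661) (nat_lit 167) (.e (nat_lit 196624) (nat_lit 9) (.e (nat_lit 1615) (nat_lit 113) (.e (nat_lit 376868) (nat_lit 23) (.e (nat_lit 98350) (nat_lit 24) (.e (nat_lit 409623) (nat_lit 10) (.e (nat_lit 5664) (nat_lit 312) .nil))))))) (.g (nat_lit 0) .nil .nil)))) (.nd (nat_lit 6) 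
(.lf (nat_lit 95138) (.g (nat_lit 2581) (.e (nat_lit 2654) (nat_lit 167) (.e (nat_lit 196666) (nat_lit 13) (.e (nat_lit 65610) (nat_lit 10) (.e (nat_lit 344117) (nat_lit 21) (.e (nat_lit 516139) (nat_lit 7) .nil))))) .nil)) 
(.lf (nat_lit 95202) (.g (nat_lit 4028) (.e (nat_lit 2663) (nat_lit 167) (.e (nat_lit 196630) (nat_lit 9) (.e (nat_lit 1529) (nat_lit 109) (.e (nat_lit 344133) (nat_lit 26) (.e (nat_lit 557105) (nat_lit 14) (.e (nat_lit 180252) (nat_lit 10) (.e (nat_lit 573474) (nat_lit 12) (.e (nat_lit 57507) (nat_lit 39) (.e (nat_lit 647176) (nat_lit 0) .nil))))))))) (.g (nat_lit 6) .nil .nil))))) 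
(.nd (nat_lit 5) (.nd (nat_lit 6) 
(.lf (nat_lit 95122) (.g (nat_lit 1850) (.e (nat_lit 2651) (nat_lit 166) (.e (nat_lit 188434) (nat_lit 20) (.e (nat_lit 3469) (nat_lit 217) (.e (nat_lit 696344) (nat_lit 8) (.e (nat_lit 172113) (nat_lit 10) .nil))))) .nil)) 
(.lf (nat_lit 95186) (.g (nat_lit 3466) (.e (nat_lit 2661) (nat_lit 167) (.e (nat_lit 196666) (nat_lit 13) (.e (nat_lit 65610) (nat_lit 10) (.e (nat_lit 344129) (nat_lit 26) (.e (nat_lit 557066) (nat_lit 9) (.e (nat_lit 232) (nat_lit 21) (.e (nat_lit 335907) (nat_lit 0) (.e (nat_lit 7936) (nat_lit 357) .nil)))))))) (.g (nat_lit 7) .nil .nil)))) (.nd (nat_lit 6) 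
(.lf (nat_lit 95154) (.g (nat_lit 2565) (.e (nat_lit 2656) (nat_lit 167) (.e (nat_lit 196668) (nat_lit 14) (.e (nat_lit 73753) (nat_lit 8) (.e (nat_lit 557103) (nat_lit 14) (.e (nat_lit 180250) (nat_lit 10) .nil))))) .nil)) 
(.lf (nat_lit 95218) (.g (nat_lit 3383) (.e (nat_lit 2663) (nat_lit 167) (.e (nat_lit 196666) (nat_lit 13) (.e (nat_lit 65610) (nat_lit 10) (.e (nat_lit 344117) (nat_lit 21) (.e (nat_lit 516185) (nat_lit 16) .nil))))) .nil))))) (.nd (nat_lit 4) (.nd (nat_lit 5) (.nd (nat_lit 6) 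
(.lf (nat_lit 95114) (.g (nat_lit 696) (.e (nat_lit 2650) (nat_lit 166) (.e (nat_lit 188455) (nat_lit 24) (.e (nat_lit 229514) (nat_lit 122) .nil))) .nil)) 
(.lf (nat_lit 95178) (.g (nat_lit 1947) (.e (nat_lit 2661) (nat_lit 167) (.e (nat_lit 196666) (nat_lit 13) (.e (nat_lit 65610) (nat_lit 10) (.e (nat_lit 344117) (nat_lit 21) (.e (nat_lit 516102) (nat_lit 0) .nil))))) .nil))) (.nd (nat_lit 6) 
(.lf (nat_lit 95146) (.g (nat_lit 1249) (.e (nat_lit 2654) (nat_lit 167) (.e (nat_lit 196672) (nat_lit 15) (.e (nat_lit 81954) (nat_lit 23) (.e (nat_lit 98352) (nat_lit 25) .nil)))) .nil)) 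
(.lf (nat_lit 95210) (.g (nat_lit 4629) (.e (nat_lit 2663) (nat_lit 167) (.e (nat_lit 196666) (nat_lit 13) (.e (nat_lit 65610) (nat_lit 10) (.e (nat_lit 344117) (nat_lit 21) (.e (nat_lit 516151) (nat_lit 9) (.e (nat_lit 426412) (nat_lit 15) (.e (nat_lit 1009) (nat_lit 81) (.e (nat_lit 5998) (nat_lit 326) (.e (nat_lit 2477) (nat_lit 157) .nil))))))))) (.g (nat_lit 5) .nil .nil))))) 
(.nd (nat_lit 5) (.nd (nat_lit 6) 
(.lf (nat_lit 95130) (.g (nat_lit 1744) (.e (nat_lit 2653) (nat_lit 166) (.e (nat_lit 188441) (nat_lit 20) (.e (nat_lit 3469) (nat_lit 217) (.e (nat_lit 696344) (nat_lit 8) (.e (nat_lit 172113) (nat_lit 10) .nil))))) .nil)) 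
(.lf (nat_lit 95194) (.g (nat_lit 2306) (.e (nat_lit 2661) (nat_lit 167) (.e (nat_lit 196666) (nat_lit 13) (.e (nat_lit 65617) (nat_lit 10) (.e (nat_lit 344133) (nat_lit 26) (.e (nat_lit 557068) (nat_lit 9) .nil))))) .nil))) (.nd (nat_lit 6) 
(.lf (nat_lit 95162) (.g (nat_lit 2454) (.e (nat_lit 2658) (nat_lit 167) (.e (nat_lit 196672) (nat_lit 15) (.e (nat_lit 81956) (nat_lit 23) (.e (nat_lit 98350) (nat_lit 24) .nil)))) .nil)) 
(.lf (nat_lit 95226) (.g (nat_lit 2211) (.e (nat_lit 2663) (nat_lit 167) (.e (nat_lit 196666) (nat_lit 13) (.e (nat_lit 65617) (nat_lit 10) (.e (nat_lit 344130) (nat_lit 26) (.e (nat_lit 557065) (nat_lit 9) (.e (nat_lit 297) (nat_lit 22) (.e (nat_lit 344069) (nat_lit 0) .nil))))))) (.g (nat_lit 4) .nil .nil))))))) (.nd (nat_lit 3) (.nd (nat_lit 4) (.nd (nat_lit 5) (.nd (nat_lit 6) 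
(.lf (nat_lit 95110) (.g (nat_lit 1390) (.e (nat_lit 2650) (nat_lit 166) (.e (nat_lit 188419) (nat_lit 0) (.e (nat_lit 2160) (nat_lit 143) (.e (nat_lit 712755) (nat_lit 30) (.e (nat_lit 458496) (nat_lit 0) (.e (nat_lit 5550) (nat_lit 306) .nil)))))) (.g (nat_lit 4) .nil .nil))) 
(.lf (nat_lit 95174) (.g (nat_lit 1824) (.e (nat_lit 2661) (nat_lit 167) (.e (nat_lit 196666) (nat_lit 13) (.e (nat_lit 65610) (nat_lit 10) (.e (nat_lit 344116) (nat_lit 21) .nil)))) .nil))) (.nd (nat_lit 6) 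
(.lf (nat_lit 95142) (.g (nat_lit 733) (.e (nat_lit 2654) (nat_lit 167) (.e (nat_lit 196666) (nat_lit 13) (.e (nat_lit 65624) (nat_lit 12) .nil))) .nil)) 
(.lf (nat_lit 95206) (.g (nat_lit 2846) (.e (nat_lit 2663) (nat_lit 167) (.e (nat_lit 196630) (nat_lit 9) (.e (nat_lit 1669) (nat_lit 116) (.e (nat_lit 401459) (nat_lit 13) (.e (nat_lit 491264) (nat_lit 10) (.e (nat_lit 434275) (nat_lit 39) (.e (nat_lit 663580) (nat_lit 9) .nil))))))) (.g (nat_lit 4) .nil .nil))))) (.nd (nat_lit 5) (.nd (nat_lit 6) 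
(.lf (nat_lit 95126) (.g (nat_lit 2018) (.e (nat_lit 2653) (nat_lit 166) (.e (nat_lit 188418) (nat_lit 0) (.e (nat_lit 2160) (nat_lit 143) (.e (nat_lit 712755) (nat_lit 30) (.e (nat_lit 450563) (nat_lit 0) (.e (nat_lit 7936) (nat_lit 306) .nil)))))) (.g (nat_lit 5) .nil .nil))) 
(.lf (nat_lit 95190) (.g (nat_lit 3742) (.e (nat_lit 2661) (nat_lit 167) (.e (nat_lit 196666) (nat_lit 13) (.e (nat_lit 65617) (nat_lit 10) (.e (nat_lit 344130) (nat_lit 26) (.e (nat_lit 557067) (nat_lit 9) (.e (nat_lit 214) (nat_lit 19) (.e (nat_lit 319491) (nat_lit 0) (.e (nat_lit 5664) (nat_lit 312) .nil)))))))) (.g (nat_lit 6) .nil .nil)))) (.nd (nat_lit 6) 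
(.lf (nat_lit 95158) (.g (nat_lit 2545) (.e (nat_lit 2657) (nat_lit 167) (.e (nat_lit 196668) (nat_lit 14) (.e (nat_lit 73753) (nat_lit 8) (.e (nat_lit 557103) (nat_lit 14) (.e (nat_lit 180250) (nat_lit 10) .nil))))) .nil)) 
(.lf (nat_lit 95222) (.g (nat_lit 1960) (.e (nat_lit 2663) (nat_lit 167) (.e (nat_lit 196666) (nat_lit 13) (.e (nat_lit 65617) (nat_lit 10) (.e (nat_lit 344091) (nat_lit 18) (.e (nat_lit 3928) (nat_lit 239) (.e (nat_lit 1206) (nat_lit 89) (.e (nat_lit 73782) (nat_lit 32) .nil))))))) (.g (nat_lit 4) .nil .nil)))))) (.nd (nat_lit 4) (.nd (nat_lit 5) (.nd (nat_lit 6) 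
(.lf (nat_lit 95118) (.g (nat_lit 1370) (.e (nat_lit 2651) (nat_lit 166) (.e (nat_lit 188420) (nat_lit 0) (.e (nat_lit 2160) (nat_lit 143) (.e (nat_lit 712755) (nat_lit 30) (.e (nat_lit 450568) (nat_lit 0) (.e (nat_lit 5448) (nat_lit 306) .nil)))))) (.g (nat_lit 4) .nil .nil))) 
(.lf (nat_lit 95182) (.g (nat_lit 1914) (.e (nat_lit 2661) (nat_lit 167) (.e (nat_lit 196666) (nat_lit 13) (.e (nat_lit 65610) (nat_lit 10) (.e (nat_lit 344117) (nat_lit 21) (.e (nat_lit 516139) (nat_lit 7) .nil))))) .nil))) (.nd (nat_lit 6) 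
(.lf (nat_lit 95150) (.g (nat_lit 1756) (.e (nat_lit 2654) (nat_lit 167) (.e (nat_lit 196672) (nat_lit 15) (.e (nat_lit 81956) (nat_lit 23) (.e (nat_lit 98353) (nat_lit 25) .nil)))) .nil)) 
(.lf (nat_lit 95214) (.g (nat_lit 4949) (.e (nat_lit 2663) (nat_lit 167) (.e (nat_lit 196666) (nat_lit 13) (.e (nat_lit 65610) (nat_lit 10) (.e (nat_lit 344117) (nat_lit 21) (.e (nat_lit 516151) (nat_lit 9) (.e (nat_lit 426412) (nat_lit 15) (.e (nat_lit 1009) (nat_lit 81) (.e (nat_lit 6045) (nat_lit 326) (.e (nat_lit 2479) (nat_lit 157) .nil))))))))) (.g (nat_lit 6) .nil .nil))))) 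
(.nd (nat_lit 5) (.nd (nat_lit 6) 
(.lf (nat_lit 95134) (.g (nat_lit 2927) (.e (nat_lit 2654) (nat_lit 167) (.e (nat_lit 196666) (nat_lit 13) (.e (nat_lit 65610) (nat_lit 10) (.e (nat_lit 344117) (nat_lit 21) (.e (nat_lit 516098) (nat_lit 0) .nil))))) .nil)) 
(.lf (nat_lit 95198) (.g (nat_lit 1415) (.e (nat_lit 2661) (nat_lit 167) (.e (nat_lit 196673) (nat_lit 15) (.e (nat_lit 81953) (nat_lit 22) (.e (nat_lit 90165) (nat_lit 12) (.e (nat_lit 164218) (nat_lit 179) .nil))))) .nil))) (.nd (nat_lit 6) 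
(.lf (nat_lit 95166) (.g (nat_lit 3161) (.e (nat_lit 2660) (nat_lit 167) (.e (nat_lit 196672) (nat_lit 15) (.e (nat_lit 81954) (nat_lit 23) (.e (nat_lit 98350) (nat_lit 24) (.e (nat_lit 409616) (nat_lit 10) .nil))))) .nil)) 
(.lf (nat_lit 95230) (.g (nat_lit 4102) (.e (nat_lit 2663) (nat_lit 167) (.e (nat_lit 196666) (nat_lit 13) (.e (nat_lit 65617) (nat_lit 10) (.e (nat_lit 344130) (nat_lit 26) (.e (nat_lit 557066) (nat_lit 9) (.e (nat_lit 297) (nat_lit 22) (.e (nat_lit 344068) (nat_lit 0) .nil))))))) (.g (nat_lit 0) .nil .nil))))))))) 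
(.nd (nat_lit 1) (.nd (nat_lit 2) (.nd (nat_lit 3) (.nd (nat_lit 4) (.nd (nat_lit 5) 
(.nd (nat_lit 6) 
(.lf (nat_lit 95105) (.g (nat_lit 631) (.e (nat_lit 2649) (nat_lit 166) (.e (nat_lit 188446) (nat_lit 21) (.e (nat_lit 164309) (nat_lit 226) .nil))) .nil)) 
(.lf (nat_lit 95169) (.g (nat_lit 879) (.e (nat_lit 2661) (nat_lit 167) (.e (nat_lit 196624) (nat_lit 9) (.e (nat_lit 1615) (nat_lit 113) (.e (nat_lit 376863) (nat_lit 22) .nil)))) .nil))) (.nd (nat_lit 6) 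
(.lf (nat_lit 95137) (.g (nat_lit 2393) (.e (nat_lit 2654) (nat_lit 167) (.e (nat_lit 196666) (nat_lit 13) (.e (nat_lit 65610) (nat_lit 10) (.e (nat_lit 344117) (nat_lit 21) (.e (nat_lit 516138) (nat_lit 7) .nil))))) .nil)) 
(.lf (nat_lit 95201) (.g (nat_lit 2727) (.e (nat_lit 2662) (nat_lit 167) (.e (nat_lit 196670) (nat_lit 14) (.e (nat_lit 73755) (nat_lit 8) (.e (nat_lit 557105) (nat_lit 14) (.e (nat_lit 180252) (nat_lit 10) .nil))))) .nil)))) (.nd (nat_lit 5) (.nd (nat_lit 6) 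
(.lf (nat_lit 95121) (.g (nat_lit 680) (.e (nat_lit 2651) (nat_lit 166) (.e (nat_lit 188431) (nat_lit 20) (.e (nat_lit 2402) (nat_lit 157) (.e (nat_lit 5156) (nat_lit 292) .nil)))) .nil)) 
(.lf (nat_lit 95185) (.g (nat_lit 1174) (.e (nat_lit 2661) (nat_lit 167) (.e (nat_lit 196666) (nat_lit 13) (.e (nat_lit 65610) (nat_lit 10) (.e (nat_lit 344117) (nat_lit 21) (.e (nat_lit 516159) (nat_lit 10) .nil))))) .nil))) (.nd (nat_lit 6) 
(.lf (nat_lit 95153) (.g (nat_lit 2153) (.e (nat_lit 2655) (nat_lit 167) (.e (nat_lit 196670) (nat_lit 14) (.e (nat_lit 73753) (nat_lit 8) (.e (nat_lit 557103) (nat_lit 14) (.e (nat_lit 180250) (nat_lit 10) .nil))))) .nil)) 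
(.lf (nat_lit 95217) (.g (nat_lit 2420) (.e (nat_lit 2663) (nat_lit 167) (.e (nat_lit 196666) (nat_lit 13) (.e (nat_lit 65610) (nat_lit 10) (.e (nat_lit 344117) (nat_lit 21) (.e (nat_lit 516160) (nat_lit 10) .nil))))) .nil))))) (.nd (nat_lit 4) (.nd (nat_lit 5) (.nd (nat_lit 6) 
(.lf (nat_lit 95113) (.g (nat_lit 915) (.e (nat_lit 2650) (nat_lit 166) (.e (nat_lit 188455) (nat_lit 24) (.e (nat_lit 229512) (nat_lit 122) .nil))) .nil)) 
(.lf (nat_lit 95177) (.g (nat_lit 2782) (.e (nat_lit 2661) (nat_lit 167) (.e (nat_lit 196666) (nat_lit 13) (.e (nat_lit 65610) (nat_lit 10) (.e (nat_lit 344117) (nat_lit 21) (.e (nat_lit 516099) (nat_lit 0) .nil))))) .nil))) (.nd (nat_lit 6) 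
(.lf (nat_lit 95145) (.g (nat_lit 1677) (.e (nat_lit 2654) (nat_lit 167) (.e (nat_lit 196672) (nat_lit 15) (.e (nat_lit 81954) (nat_lit 23) (.e (nat_lit 98325) (nat_lit 17) (.e (nat_lit 7112) (nat_lit 381) .nil))))) .nil)) 
(.lf (nat_lit 95209) (.g (nat_lit 4986) (.e (nat_lit 2663) (nat_lit 167) (.e (nat_lit 196666) (nat_lit 13) (.e (nat_lit 65610) (nat_lit 10) (.e (nat_lit 344117) (nat_lit 21) (.e (nat_lit 516151) (nat_lit 9) (.e (nat_lit 426412) (nat_lit 15) (.e (nat_lit 1009) (nat_lit 81) (.e (nat_lit 5998) (nat_lit 326) (.e (nat_lit 2454) (nat_lit 157) .nil))))))))) (.g (nat_lit 6) .nil .nil))))) 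
(.nd (nat_lit 5) (.nd (nat_lit 6) 
(.lf (nat_lit 95129) (.g (nat_lit 1752) (.e (nat_lit 2653) (nat_lit 166) (.e (nat_lit 188441) (nat_lit 20) (.e (nat_lit 3469) (nat_lit 217) (.e (nat_lit 696344) (nat_lit 8) (.e (nat_lit 172106) (nat_lit 10) .nil))))) .nil)) 
(.lf (nat_lit 95193) (.g (nat_lit 2741) (.e (nat_lit 2661) (nat_lit 167) (.e (nat_lit 196666) (nat_lit 13) (.e (nat_lit 65617) (nat_lit 10) (.e (nat_lit 344133) (nat_lit 26) (.e (nat_lit 557065) (nat_lit 9) (.e (nat_lit 214) (nat_lit 19) (.e (nat_lit 319490) (nat_lit 0) (.e (nat_lit 5664) (nat_lit 312) .nil)))))))) (.g (nat_lit 4) .nil .nil)))) (.nd (nat_lit 6) 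
(.lf (nat_lit 95161) (.g (nat_lit 2698) (.e (nat_lit 2658) (nat_lit 167) (.e (nat_lit 196666) (nat_lit 13) (.e (nat_lit 65610) (nat_lit 10) (.e (nat_lit 344117) (nat_lit 21) .nil)))) .nil)) 
(.lf (nat_lit 95225) (.g (nat_lit 1999) (.e (nat_lit 2663) (nat_lit 167) (.e (nat_lit 196666) (nat_lit 13) (.e (nat_lit 65617) (nat_lit 10) (.e (nat_lit 344130) (nat_lit 26) (.e (nat_lit 557065) (nat_lit 9) (.e (nat_lit 297) (nat_lit 22) (.e (nat_lit 344068) (nat_lit 0) .nil))))))) (.g (nat_lit 4) .nil .nil))))))) (.nd (nat_lit 3) (.nd (nat_lit 4) (.nd (nat_lit 5) (.nd (nat_lit 6) 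
(.lf (nat_lit 95109) (.g (nat_lit 1622) (.e (nat_lit 2650) (nat_lit 166) (.e (nat_lit 188419) (nat_lit 0) (.e (nat_lit 2160) (nat_lit 143) (.e (nat_lit 712755) (nat_lit 30) (.e (nat_lit 458496) (nat_lit 0) (.e (nat_lit 5543) (nat_lit 306) .nil)))))) (.g (nat_lit 4) .nil .nil))) 
(.lf (nat_lit 95173) (.g (nat_lit 555) (.e (nat_lit 2661) (nat_lit 167) (.e (nat_lit 196666) (nat_lit 13) (.e (nat_lit 65599) (nat_lit 9) .nil))) .nil))) (.nd (nat_lit 6) 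
(.lf (nat_lit 95141) (.g (nat_lit 671) (.e (nat_lit 2654) (nat_lit 167) (.e (nat_lit 196666) (nat_lit 13) (.e (nat_lit 65617) (nat_lit 10) .nil))) .nil)) 
(.lf (nat_lit 95205) (.g (nat_lit 2067) (.e (nat_lit 2663) (nat_lit 167) (.e (nat_lit 196630) (nat_lit 9) (.e (nat_lit 1669) (nat_lit 116) (.e (nat_lit 401459) (nat_lit 13) (.e (nat_lit 491264) (nat_lit 10) .nil))))) .nil)))) (.nd (nat_lit 5) (.nd (nat_lit 6) 
(.lf (nat_lit 95125) (.g (nat_lit 2161) (.e (nat_lit 2652) (nat_lit 166) (.e (nat_lit 188455) (nat_lit 24) (.e (nat_lit 229519) (nat_lit 125) (.e (nat_lit 122919) (nat_lit 15) (.e (nat_lit 360451) (nat_lit 0) .nil))))) .nil)) 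
(.lf (nat_lit 95189) (.g (nat_lit 1222) (.e (nat_lit 2661) (nat_lit 167) (.e (nat_lit 196666) (nat_lit 13) (.e (nat_lit 65617) (nat_lit 10) (.e (nat_lit 344127) (nat_lit 26) .nil)))) .nil))) (.nd (nat_lit 6) 
(.lf (nat_lit 95157) (.g (nat_lit 2842) (.e (nat_lit 2657) (nat_lit 167) (.e (nat_lit 196666) (nat_lit 13) (.e (nat_lit 65610) (nat_lit 10) (.e (nat_lit 344129) (nat_lit 26) .nil)))) .nil)) 
(.lf (nat_lit 95221) (.g (nat_lit 4227) (.e (nat_lit 2663) (nat_lit 167) (.e (nat_lit 196666) (nat_lit 13) (.e (nat_lit 65610) (nat_lit 10) (.e (nat_lit 344129) (nat_lit 26) (.e (nat_lit 557066) (nat_lit 9) (.e (nat_lit 297) (nat_lit 22) (.e (nat_lit 344069) (nat_lit 0) .nil))))))) (.g (nat_lit 5) .nil .nil)))))) (.nd (nat_lit 4) (.nd (nat_lit 5) (.nd (nat_lit 6) 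
(.lf (nat_lit 95117) (.g (nat_lit 2183) (.e (nat_lit 2651) (nat_lit 166) (.e (nat_lit 188420) (nat_lit 0) (.e (nat_lit 2160) (nat_lit 143) (.e (nat_lit 712755) (nat_lit 30) (.e (nat_lit 450563) (nat_lit 0) (.e (nat_lit 7936) (nat_lit 306) .nil)))))) (.g (nat_lit 5) .nil .nil))) 
(.lf (nat_lit 95181) (.g (nat_lit 1872) (.e (nat_lit 2661) (nat_lit 167) (.e (nat_lit 196666) (nat_lit 13) (.e (nat_lit 65610) (nat_lit 10) (.e (nat_lit 344117) (nat_lit 21) (.e (nat_lit 516138) (nat_lit 7) .nil))))) .nil))) (.nd (nat_lit 6) 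
(.lf (nat_lit 95149) (.g (nat_lit 4346) (.e (nat_lit 2654) (nat_lit 167) (.e (nat_lit 196672) (nat_lit 15) (.e (nat_lit 81956) (nat_lit 23) (.e (nat_lit 98350) (nat_lit 24) (.e (nat_lit 409616) (nat_lit 10) .nil))))) .nil)) 
(.lf (nat_lit 95213) (.g (nat_lit 4171) (.e (nat_lit 2663) (nat_lit 167) (.e (nat_lit 196666) (nat_lit 13) (.e (nat_lit 65610) (nat_lit 10) (.e (nat_lit 344117) (nat_lit 21) (.e (nat_lit 516151) (nat_lit 9) (.e (nat_lit 426412) (nat_lit 15) (.e (nat_lit 1009) (nat_lit 81) (.e (nat_lit 6045) (nat_lit 326) (.e (nat_lit 2477) (nat_lit 157) .nil))))))))) (.g (nat_lit 5) .nil .nil))))) 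
(.nd (nat_lit 5) (.nd (nat_lit 6) 
(.lf (nat_lit 95133) (.g (nat_lit 1303) (.e (nat_lit 7936) (nat_lit 166) (.e (nat_lit 188444) (nat_lit 21) (.e (nat_lit 164321) (nat_lit 229) (.e (nat_lit 122919) (nat_lit 15) (.e (nat_lit 360451) (nat_lit 0) .nil))))) .nil)) 
(.lf (nat_lit 95197) (.g (nat_lit 670) (.e (nat_lit 2661) (nat_lit 167) (.e (nat_lit 196666) (nat_lit 13) (.e (nat_lit 65619) (nat_lit 10) .nil))) .nil))) (.nd (nat_lit 6) 
(.lf (nat_lit 95165) (.g (nat_lit 2054) (.e (nat_lit 2659) (nat_lit 167) (.e (nat_lit 196672) (nat_lit 15) (.e (nat_lit 81954) (nat_lit 23) (.e (nat_lit 98350) (nat_lit 24) .nil)))) .nil)) 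
(.lf (nat_lit 95229) (.g (nat_lit 4031) (.e (nat_lit 2663) (nat_lit 167) (.e (nat_lit 196666) (nat_lit 13) (.e (nat_lit 65617) (nat_lit 10) (.e (nat_lit 344130) (nat_lit 26) (.e (nat_lit 557066) (nat_lit 9) (.e (nat_lit 232) (nat_lit 21) (.e (nat_lit 335907) (nat_lit 0) (.e (nat_lit 7936) (nat_lit 357) .nil)))))))) (.g (nat_lit 6) .nil .nil)))))))) 
(.nd (nat_lit 2) (.nd (nat_lit 3) (.nd (nat_lit 4) (.nd (nat_lit 5) (.nd (nat_lit 6) 
(.lf (nat_lit 95107) (.g (nat_lit 1202) (.e (nat_lit 2650) (nat_lit 166) (.e (nat_lit 188419) (nat_lit 0) (.e (nat_lit 2160) (nat_lit 143) (.e (nat_lit 712753) (nat_lit 30) (.e (nat_lit 458496) (nat_lit 0) (.e (nat_lit 5543) (nat_lit 306) .nil)))))) (.g (nat_lit 4) .nil .nil))) 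
(.lf (nat_lit 95171) (.g (nat_lit 2214) (.e (nat_lit 2661) (nat_lit 167) (.e (nat_lit 196624) (nat_lit 9) (.e (nat_lit 1615) (nat_lit 113) (.e (nat_lit 376869) (nat_lit 23) (.e (nat_lit 98350) (nat_lit 24) (.e (nat_lit 409623) (nat_lit 10) (.e (nat_lit 5664) (nat_lit 312) .nil))))))) (.g (nat_lit 5) .nil .nil)))) (.nd (nat_lit 6) 
(.lf (nat_lit 95139) (.g (nat_lit 2974) (.e (nat_lit 2654) (nat_lit 167) (.e (nat_lit 196666) (nat_lit 13) (.e (nat_lit 65610) (nat_lit 10) (.e (nat_lit 344117) (nat_lit 21) (.e (nat_lit 516141) (nat_lit 8) .nil))))) .nil)) 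
(.lf (nat_lit 95203) (.g (nat_lit 3649) (.e (nat_lit 2663) (nat_lit 167) (.e (nat_lit 196630) (nat_lit 9) (.e (nat_lit 1529) (nat_lit 109) (.e (nat_lit 344133) (nat_lit 26) (.e (nat_lit 557105) (nat_lit 14) (.e (nat_lit 180252) (nat_lit 10) (.e (nat_lit 573474) (nat_lit 12) (.e (nat_lit 57508) (nat_lit 39) (.e (nat_lit 647176) (nat_lit 0) .nil))))))))) (.g (nat_lit 6) .nil .nil))))) 
(.nd (nat_lit 5) (.nd (nat_lit 6) 
(.lf (nat_lit 95123) (.g (nat_lit 1157) (.e (nat_lit 2651) (nat_lit 166) (.e (nat_lit 188441) (nat_lit 20) (.e (nat_lit 3469) (nat_lit 217) (.e (nat_lit 696344) (nat_lit 8) .nil)))) .nil)) 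
(.lf (nat_lit 95187) (.g (nat_lit 2331) (.e (nat_lit 2661) (nat_lit 167) (.e (nat_lit 196666) (nat_lit 13) (.e (nat_lit 65610) (nat_lit 10) (.e (nat_lit 344129) (nat_lit 26) (.e (nat_lit 557074) (nat_lit 9) (.e (nat_lit 7936) (nat_lit 19) (.e (nat_lit 319491) (nat_lit 0) (.e (nat_lit 5664) (nat_lit 312) .nil)))))))) (.g (nat_lit 4) .nil .nil)))) (.nd (nat_lit 6) 
(.lf (nat_lit 95155) (.g (nat_lit 2855) (.e (nat_lit 2656) (nat_lit 167) (.e (nat_lit 196668) (nat_lit 14) (.e (nat_lit 73753) (nat_lit 8) (.e (nat_lit 557105) (nat_lit 14) (.e (nat_lit 180252) (nat_lit 10) .nil))))) .nil)) 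
(.lf (nat_lit 95219) (.g (nat_lit 4491) (.e (nat_lit 2663) (nat_lit 167) (.e (nat_lit 196666) (nat_lit 13) (.e (nat_lit 65610) (nat_lit 10) (.e (nat_lit 344129) (nat_lit 26) (.e (nat_lit 557066) (nat_lit 9) (.e (nat_lit 232) (nat_lit 21) (.e (nat_lit 335907) (nat_lit 0) (.e (nat_lit 7936) (nat_lit 357) .nil)))))))) (.g (nat_lit 7) .nil .nil)))))) (.nd (nat_lit 4) (.nd (nat_lit 5) (.nd (nat_lit 6) 
(.lf (nat_lit 95115) (.g (nat_lit 774) (.e (nat_lit 2650) (nat_lit 166) (.e (nat_lit 188455) (nat_lit 24) (.e (nat_lit 229515) (nat_lit 122) .nil))) .nil)) 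
(.lf (nat_lit 95179) (.g (nat_lit 1782) (.e (nat_lit 2661) (nat_lit 167) (.e (nat_lit 196666) (nat_lit 13) (.e (nat_lit 65610) (nat_lit 10) (.e (nat_lit 344117) (nat_lit 21) (.e (nat_lit 516106) (nat_lit 0) .nil))))) .nil))) (.nd (nat_lit 6) 
(.lf (nat_lit 95147) (.g (nat_lit 1293) (.e (nat_lit 2654) (nat_lit 167) (.e (nat_lit 196672) (nat_lit 15) (.e (nat_lit 81954) (nat_lit 23) (.e (nat_lit 98353) (nat_lit 25) .nil)))) .nil)) 
(.lf (nat_lit 95211) (.g (nat_lit 5081) (.e (nat_lit 2663) (nat_lit 167) (.e (nat_lit 196666) (nat_lit 13) (.e (nat_lit 65610) (nat_lit 10) (.e (nat_lit 344117) (nat_lit 21) (.e (nat_lit 516151) (nat_lit 9) (.e (nat_lit 426412) (nat_lit 15) (.e (nat_lit 1009) (nat_lit 81) (.e (nat_lit 5998) (nat_lit 326) (.e (nat_lit 2479) (nat_lit 157) .nil))))))))) (.g (nat_lit 6) .nil .nil))))) 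
(.nd (nat_lit 5) (.nd (nat_lit 6) 
(.lf (nat_lit 95131) (.g (nat_lit 1774) (.e (nat_lit 7936) (nat_lit 166) (.e (nat_lit 188434) (nat_lit 20) (.e (nat_lit 3469) (nat_lit 217) (.e (nat_lit 696344) (nat_lit 8) (.e (nat_lit 172106) (nat_lit 10) .nil))))) .nil)) 
(.lf (nat_lit 95195) (.g (nat_lit 2409) (.e (nat_lit 2661) (nat_lit 167) (.e (nat_lit 196666) (nat_lit 13) (.e (nat_lit 65617) (nat_lit 10) (.e (nat_lit 344133) (nat_lit 26) (.e (nat_lit 557071) (nat_lit 9) (.e (nat_lit 214) (nat_lit 19) (.e (nat_lit 319491) (nat_lit 0) (.e (nat_lit 5664) (nat_lit 312) .nil)))))))) (.g (nat_lit 4) .nil .nil)))) (.nd (nat_lit 6) 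
(.lf (nat_lit 95163) (.g (nat_lit 2834) (.e (nat_lit 2658) (nat_lit 167) (.e (nat_lit 196673) (nat_lit 15) (.e (nat_lit 81956) (nat_lit 23) (.e (nat_lit 98350) (nat_lit 24) .nil)))) .nil)) 
(.lf (nat_lit 95227) (.g (nat_lit 4038) (.e (nat_lit 2663) (nat_lit 167) (.e (nat_lit 196666) (nat_lit 13) (.e (nat_lit 65617) (nat_lit 10) (.e (nat_lit 344130) (nat_lit 26) (.e (nat_lit 557066) (nat_lit 9) (.e (nat_lit 232) (nat_lit 21) (.e (nat_lit 335907) (nat_lit 0) (.e (nat_lit 6677) (nat_lit 357) .nil)))))))) (.g (nat_lit 6) .nil .nil))))))) 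
(.nd (nat_lit 3) (.nd (nat_lit 4) (.nd (nat_lit 5) (.nd (nat_lit 6) 
(.lf (nat_lit 95111) (.g (nat_lit 986) (.e (nat_lit 2650) (nat_lit 166) (.e (nat_lit 188427) (nat_lit 20) (.e (nat_lit 3279) (nat_lit 200) (.e (nat_lit 557061) (nat_lit 0) (.e (nat_lit 1597) (nat_lit 111) (.e (nat_lit 368384) (nat_lit 0) (.e (nat_lit 7685) (nat_lit 410) .nil))))))) (.g (nat_lit 4) .nil .nil))) 
(.lf (nat_lit 95175) (.g (nat_lit 2375) (.e (nat_lit 2661) (nat_lit 167) (.e (nat_lit 196666) (nat_lit 13) (.e (nat_lit 65610) (nat_lit 10) (.e (nat_lit 344117) (nat_lit 21) (.e (nat_lit 516096) (nat_lit 0) .nil))))) .nil))) (.nd (nat_lit 6) 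
(.lf (nat_lit 95143) (.g (nat_lit 1175) (.e (nat_lit 2654) (nat_lit 167) (.e (nat_lit 196672) (nat_lit 15) (.e (nat_lit 81954) (nat_lit 23) (.e (nat_lit 98320) (nat_lit 17) .nil)))) .nil)) 
(.lf (nat_lit 95207) (.g (nat_lit 592) (.e (nat_lit 2663) (nat_lit 167) (.e (nat_lit 196666) (nat_lit 13) (.e (nat_lit 65572) (nat_lit 4) .nil))) .nil)))) (.nd (nat_lit 5) (.nd (nat_lit 6) 
(.lf (nat_lit 95127) (.g (nat_lit 2291) (.e (nat_lit 2653) (nat_lit 166) (.e (nat_lit 188418) (nat_lit 0) (.e (nat_lit 2172) (nat_lit 143) (.e (nat_lit 712752) (nat_lit 29) (.e (nat_lit 442430) (nat_lit 24) (.e (nat_lit 229665) (nat_lit 240) .nil)))))) (.g (nat_lit 5) .nil .nil))) 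
(.lf (nat_lit 95191) (.g (nat_lit 1459) (.e (nat_lit 2661) (nat_lit 167) (.e (nat_lit 196666) (nat_lit 13) (.e (nat_lit 65617) (nat_lit 10) (.e (nat_lit 344132) (nat_lit 26) .nil)))) .nil))) (.nd (nat_lit 6) 
(.lf (nat_lit 95159) (.g (nat_lit 1427) (.e (nat_lit 2657) (nat_lit 167) (.e (nat_lit 196672) (nat_lit 15) (.e (nat_lit 81954) (nat_lit 23) (.e (nat_lit 98349) (nat_lit 24) .nil)))) .nil)) 
(.lf (nat_lit 95223) (.g (nat_lit 968) (.e (nat_lit 2663) (nat_lit 167) (.e (nat_lit 196666) (nat_lit 13) (.e (nat_lit 65617) (nat_lit 10) (.e (nat_lit 344117) (nat_lit 21) .nil)))) .nil))))) (.nd (nat_lit 4) (.nd (nat_lit 5) (.nd (nat_lit 6) 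
(.lf (nat_lit 95119) (.g (nat_lit 1702) (.e (nat_lit 2651) (nat_lit 166) (.e (nat_lit 188420) (nat_lit 0) (.e (nat_lit 2160) (nat_lit 143) (.e (nat_lit 712755) (nat_lit 30) (.e (nat_lit 450569) (nat_lit 0) (.e (nat_lit 5448) (nat_lit 306) .nil)))))) (.g (nat_lit 4) .nil .nil))) 
(.lf (nat_lit 95183) (.g (nat_lit 2503) (.e (nat_lit 2661) (nat_lit 167) (.e (nat_lit 196666) (nat_lit 13) (.e (nat_lit 65610) (nat_lit 10) (.e (nat_lit 344117) (nat_lit 21) (.e (nat_lit 516141) (nat_lit 8) .nil))))) .nil))) (.nd (nat_lit 6) 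
(.lf (nat_lit 95151) (.g (nat_lit 2808) (.e (nat_lit 2654) (nat_lit 167) (.e (nat_lit 196673) (nat_lit 15) (.e (nat_lit 81956) (nat_lit 23) (.e (nat_lit 98350) (nat_lit 24) .nil)))) .nil)) 
(.lf (nat_lit 95215) (.g (nat_lit 4078) (.e (nat_lit 2663) (nat_lit 167) (.e (nat_lit 196666) (nat_lit 13) (.e (nat_lit 65610) (nat_lit 10) (.e (nat_lit 344117) (nat_lit 21) (.e (nat_lit 516151) (nat_lit 9) (.e (nat_lit 426412) (nat_lit 15) (.e (nat_lit 1010) (nat_lit 81) (.e (nat_lit 6017) (nat_lit 326) (.e (nat_lit 2477) (nat_lit 157) .nil))))))))) (.g (nat_lit 5) .nil .nil))))) 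
(.nd (nat_lit 5) (.nd (nat_lit 6) 
(.lf (nat_lit 95135) (.g (nat_lit 2375) (.e (nat_lit 2654) (nat_lit 167) (.e (nat_lit 196666) (nat_lit 13) (.e (nat_lit 65610) (nat_lit 10) (.e (nat_lit 344117) (nat_lit 21) (.e (nat_lit 516102) (nat_lit 0) .nil))))) .nil)) 
(.lf (nat_lit 95199) (.g (nat_lit 2578) (.e (nat_lit 2662) (nat_lit 167) (.e (nat_lit 196666) (nat_lit 13) (.e (nat_lit 65610) (nat_lit 10) (.e (nat_lit 344117) (nat_lit 21) .nil)))) .nil))) (.nd (nat_lit 6) 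
(.lf (nat_lit 95167) (.g (nat_lit 4594) (.e (nat_lit 2660) (nat_lit 167) (.e (nat_lit 196672) (nat_lit 15) (.e (nat_lit 81956) (nat_lit 23) (.e (nat_lit 98350) (nat_lit 24) (.e (nat_lit 409616) (nat_lit 10) .nil))))) .nil)) 
(.lf (nat_lit 95231) (.g (nat_lit 4160) (.e (nat_lit 2663) (nat_lit 167) (.e (nat_lit 196666) (nat_lit 13) (.e (nat_lit 65617) (nat_lit 10) (.e (nat_lit 344130) (nat_lit 26) (.e (nat_lit 557066) (nat_lit 9) (.e (nat_lit 297) (nat_lit 22) (.e (nat_lit 344069) (nat_lit 0) .nil))))))) (.g (nat_lit 0) .nil .nil))))))))))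


end

end Pool.Agent.Lib.MP_5854e1_co.Cz
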