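import Pool.Agent.Lib.MP_5854e1_co.DtD

/-!
# Windows and cells of the rings
-/

set_option autoImplicit false
set_option maxRecDepth 100000
set_option deprecated.oldSectionVars true

namespace Pool.Agent.Lib.MP_5854e1_co.Cz

open Pool.Agent.Lib.MP_5854e1_co

noncomputable section

noncomputable def tv1308 : DT := (.nd (nat_lit 0) (.nd (nat_lit 1) (.nd (nat_lit 2) (.nd (nat_lit 3) (.nd (nat_lit 4) (.nd (nat_lit 5) (.nd (nat_lit 6) 
(.lf (nat_lit 95232) (.g (nat_lit 3002) (.e (nat_lit 2663) (nat_lit 167) (.e (nat_lit 196666) (nat_lit 13) (.e (nat_lit 65617) (nat_lit 10) (.e (nat_lit 344130) (nat_lit 26) (.e (nat_lit 557066) (nat_lit 9) (.e (nat_lit 307) (nat_lit 22) (.e (nat_lit 344065) (nat_lit 0) .nil))))))) (.g (nat_lit 5) .nil .nil))) 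
(.lf (nat_lit 95296) (.g (nat_lit 477) (.e (nat_lit 2664) (nat_lit 167) (.e (nat_lit 196670) (nat_lit 14) (.e (nat_lit 73779) (nat_lit 32) .nil))) .nil))) (.nd (nat_lit 6) 
(.lf (nat_lit 95264) (.g (nat_lit 2988) (.e (nat_lit 2664) (nat_lit 167) (.e (nat_lit 196666) (nat_lit 13) (.e (nat_lit 65610) (nat_lit 10) (.e (nat_lit 344117) (nat_lit 21) (.e (nat_lit 516141) (nat_lit 8) .nil))))) .nil)) 
(.lf (nat_lit 95328) (.g (nat_lit 2625) (.e (nat_lit 2666) (nat_lit 167) (.e (nat_lit 196666) (nat_lit 13) (.e (nat_lit 65622) (nat_lit 12) (.e (nat_lit 385074) (nat_lit 31) .nil)))) .nil)))) (.nd (nat_lit 5) (.nd (nat_lit 6) 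
(.lf (nat_lit 95248) (.g (nat_lit 2056) (.e (nat_lit 2663) (nat_lit 167) (.e (nat_lit 196670) (nat_lit 14) (.e (nat_lit 73753) (nat_lit 8) (.e (nat_lit 557103) (nat_lit 14) (.e (nat_lit 180250) (nat_lit 10) .nil))))) .nil)) 
(.lf (nat_lit 95312) (.g (nat_lit 2345) (.e (nat_lit 2666) (nat_lit 167) (.e (nat_lit 196666) (nat_lit 13) (.e (nat_lit 65572) (nat_lit 4) (.e (nat_lit 123197) (nat_lit 266) .nil)))) .nil))) (.nd (nat_lit 6) 
(.lf (nat_lit 95280) (.g (nat_lit 2888) (.e (nat_lit 2664) (nat_lit 167) (.e (nat_lit 196666) (nat_lit 13) (.e (nat_lit 65617) (nat_lit 10) (.e (nat_lit 344127) (nat_lit 26) (.e (nat_lit 557066) (nat_lit 9) (.e (nat_lit 297) (nat_lit 22) (.e (nat_lit 344069) (nat_lit 0) .nil))))))) (.g (nat_lit 6) .nil .nil))) 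
(.lf (nat_lit 95344) (.g (nat_lit 1895) (.e (nat_lit 2668) (nat_lit 167) (.e (nat_lit 196656) (nat_lit 11) (.e (nat_lit 16435) (nat_lit 9) (.e (nat_lit 426566) (nat_lit 34) .nil)))) .nil))))) (.nd (nat_lit 4) (.nd (nat_lit 5) (.nd (nat_lit 6) 
(.lf (nat_lit 95240) (.g (nat_lit 2188) (.e (nat_lit 2663) (nat_lit 167) (.e (nat_lit 196666) (nat_lit 13) (.e (nat_lit 65617) (nat_lit 10) (.e (nat_lit 344133) (nat_lit 26) (.e (nat_lit 557065) (nat_lit 9) (.e (nat_lit 297) (nat_lit 22) (.e (nat_lit 344069) (nat_lit 0) .nil))))))) (.g (nat_lit 4) .nil .nil))) 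
(.lf (nat_lit 95304) (.g (nat_lit 1675) (.e (nat_lit 2664) (nat_lit 167) (.e (nat_lit 196674) (nat_lit 15) (.e (nat_lit 81947) (nat_lit 20) (.e (nat_lit 1842) (nat_lit 123) (.e (nat_lit 548889) (nat_lit 9) .nil))))) .nil))) (.nd (nat_lit 6) 
(.lf (nat_lit 95272) (.g (nat_lit 3237) (.e (nat_lit 2664) (nat_lit 167) (.e (nat_lit 196666) (nat_lit 13) (.e (nat_lit 65610) (nat_lit 10) (.e (nat_lit 344129) (nat_lit 26) (.e (nat_lit 557074) (nat_lit 9) (.e (nat_lit 284) (nat_lit 21) (.e (nat_lit 335913) (nat_lit 0) (.e (nat_lit 6684) (nat_lit 357) .nil)))))))) (.g (nat_lit 5) .nil .nil))) 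
(.lf (nat_lit 95336) (.g (nat_lit 2337) (.e (nat_lit 2667) (nat_lit 167) (.e (nat_lit 196672) (nat_lit 15) (.e (nat_lit 81954) (nat_lit 23) (.e (nat_lit 98349) (nat_lit 24) (.e (nat_lit 409610) (nat_lit 10) .nil))))) .nil)))) (.nd (nat_lit 5) (.nd (nat_lit 6) 
(.lf (nat_lit 95256) (.g (nat_lit 2919) (.e (nat_lit 2664) (nat_lit 167) (.e (nat_lit 196666) (nat_lit 13) (.e (nat_lit 65610) (nat_lit 10) (.e (nat_lit 344117) (nat_lit 21) (.e (nat_lit 516098) (nat_lit 0) .nil))))) .nil)) 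
(.lf (nat_lit 95320) (.g (nat_lit 3125) (.e (nat_lit 2666) (nat_lit 167) (.e (nat_lit 196666) (nat_lit 13) (.e (nat_lit 65610) (nat_lit 10) (.e (nat_lit 344129) (nat_lit 26) (.e (nat_lit 557066) (nat_lit 9) (.e (nat_lit 307) (nat_lit 22) (.e (nat_lit 352000) (nat_lit 0) .nil))))))) (.g (nat_lit 6) .nil .nil)))) (.nd (nat_lit 6) 
(.lf (nat_lit 95288) (.g (nat_lit 1939) (.e (nat_lit 2664) (nat_lit 167) (.e (nat_lit 196666) (nat_lit 13) (.e (nat_lit 65617) (nat_lit 10) (.e (nat_lit 344132) (nat_lit 26) (.e (nat_lit 557072) (nat_lit 9) (.e (nat_lit 290) (nat_lit 21) (.e (nat_lit 335895) (nat_lit 0) (.e (nat_lit 6654) (nat_lit 357) .nil)))))))) (.g (nat_lit 4) .nil .nil))) 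
(.lf (nat_lit 95352) (.g (nat_lit 1782) (.e (nat_lit 2668) (nat_lit 167) (.e (nat_lit 196666) (nat_lit 13) (.e (nat_lit 65610) (nat_lit 10) (.e (nat_lit 344117) (nat_lit 21) (.e (nat_lit 516102) (nat_lit 0) .nil))))) .nil)))))) (.nd (nat_lit 3) (.nd (nat_lit 4) (.nd (nat_lit 5) (.nd (nat_lit 6) 
(.lf (nat_lit 95236) (.g (nat_lit 1621) (.e (nat_lit 2663) (nat_lit 167) (.e (nat_lit 196666) (nat_lit 13) (.e (nat_lit 65617) (nat_lit 10) (.e (nat_lit 344130) (nat_lit 26) (.e (nat_lit 557086) (nat_lit 11) .nil))))) .nil)) 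
(.lf (nat_lit 95300) (.g (nat_lit 1148) (.e (nat_lit 2664) (nat_lit 167) (.e (nat_lit 196672) (nat_lit 15) (.e (nat_lit 81954) (nat_lit 23) (.e (nat_lit 98352) (nat_lit 25) .nil)))) .nil))) (.nd (nat_lit 6) 
(.lf (nat_lit 95268) (.g (nat_lit 2137) (.e (nat_lit 2664) (nat_lit 167) (.e (nat_lit 196666) (nat_lit 13) (.e (nat_lit 65610) (nat_lit 10) (.e (nat_lit 344129) (nat_lit 26) (.e (nat_lit 557066) (nat_lit 9) .nil))))) .nil)) 
(.lf (nat_lit 95332) (.g (nat_lit 3111) (.e (nat_lit 2667) (nat_lit 167) (.e (nat_lit 196668) (nat_lit 14) (.e (nat_lit 73753) (nat_lit 8) (.e (nat_lit 557103) (nat_lit 14) (.e (nat_lit 180252) (nat_lit 10) .nil))))) .nil)))) (.nd (nat_lit 5) (.nd (nat_lit 6) 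
(.lf (nat_lit 95252) (.g (nat_lit 616) (.e (nat_lit 2664) (nat_lit 167) (.e (nat_lit 196630) (nat_lit 9) (.e (nat_lit 1543) (nat_lit 109) (.e (nat_lit 344132) (nat_lit 26) .nil)))) .nil)) 
(.lf (nat_lit 95316) (.g (nat_lit 3168) (.e (nat_lit 2666) (nat_lit 167) (.e (nat_lit 196666) (nat_lit 13) (.e (nat_lit 65610) (nat_lit 10) (.e (nat_lit 344120) (nat_lit 21) .nil)))) .nil))) (.nd (nat_lit 6) 
(.lf (nat_lit 95284) (.g (nat_lit 1948) (.e (nat_lit 2664) (nat_lit 167) (.e (nat_lit 196666) (nat_lit 13) (.e (nat_lit 65617) (nat_lit 10) (.e (nat_lit 344130) (nat_lit 26) (.e (nat_lit 557067) (nat_lit 9) (.e (nat_lit 290) (nat_lit 21) (.e (nat_lit 335895) (nat_lit 0) (.e (nat_lit 6654) (nat_lit 357) .nil)))))))) (.g (nat_lit 4) .nil .nil))) 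
(.lf (nat_lit 95348) (.g (nat_lit 3308) (.e (nat_lit 2668) (nat_lit 167) (.e (nat_lit 196666) (nat_lit 13) (.e (nat_lit 65610) (nat_lit 10) (.e (nat_lit 344097) (nat_lit 18) (.e (nat_lit 3946) (nat_lit 239) .nil))))) .nil))))) (.nd (nat_lit 4) (.nd (nat_lit 5) (.nd (nat_lit 6) 
(.lf (nat_lit 95244) (.g (nat_lit 1755) (.e (nat_lit 2663) (nat_lit 167) (.e (nat_lit 196666) (nat_lit 13) (.e (nat_lit 65617) (nat_lit 10) (.e (nat_lit 344133) (nat_lit 26) (.e (nat_lit 557086) (nat_lit 11) .nil))))) .nil)) 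
(.lf (nat_lit 95308) (.g (nat_lit 2034) (.e (nat_lit 2666) (nat_lit 167) (.e (nat_lit 196666) (nat_lit 13) (.e (nat_lit 65546) (nat_lit 0) (.e (nat_lit 2006) (nat_lit 138) .nil)))) .nil))) (.nd (nat_lit 6) 
(.lf (nat_lit 95276) (.g (nat_lit 1540) (.e (nat_lit 2664) (nat_lit 167) (.e (nat_lit 196666) (nat_lit 13) (.e (nat_lit 65617) (nat_lit 10) (.e (nat_lit 344096) (nat_lit 18) (.e (nat_lit 3928) (nat_lit 239) .nil))))) .nil)) 
(.lf (nat_lit 95340) (.g (nat_lit 3463) (.e (nat_lit 2668) (nat_lit 167) (.e (nat_lit 196625) (nat_lit 9) (.e (nat_lit 1595) (nat_lit 111) (.e (nat_lit 360467) (nat_lit 3) (.e (nat_lit 516139) (nat_lit 7) (.e (nat_lit 409616) (nat_lit 10) (.e (nat_lit 7936) (nat_lit 312) .nil))))))) (.g (nat_lit 6) .nil .nil))))) (.nd (nat_lit 5) (.nd (nat_lit 6) 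
(.lf (nat_lit 95260) (.g (nat_lit 4086) (.e (nat_lit 2664) (nat_lit 167) (.e (nat_lit 196666) (nat_lit 13) (.e (nat_lit 65610) (nat_lit 10) (.e (nat_lit 344117) (nat_lit 21) (.e (nat_lit 516112) (nat_lit 0) .nil))))) .nil)) 
(.lf (nat_lit 95324) (.g (nat_lit 1997) (.e (nat_lit 2666) (nat_lit 167) (.e (nat_lit 196666) (nat_lit 13) (.e (nat_lit 65610) (nat_lit 10) (.e (nat_lit 344129) (nat_lit 26) (.e (nat_lit 557074) (nat_lit 9) (.e (nat_lit 284) (nat_lit 21) (.e (nat_lit 335895) (nat_lit 0) (.e (nat_lit 6696) (nat_lit 357) .nil)))))))) (.g (nat_lit 4) .nil .nil)))) (.nd (nat_lit 6) 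
(.lf (nat_lit 95292) (.g (nat_lit 2016) (.e (nat_lit 2664) (nat_lit 167) (.e (nat_lit 196666) (nat_lit 13) (.e (nat_lit 65617) (nat_lit 10) (.e (nat_lit 344133) (nat_lit 26) (.e (nat_lit 557068) (nat_lit 9) (.e (nat_lit 290) (nat_lit 21) (.e (nat_lit 335895) (nat_lit 0) (.e (nat_lit 6654) (nat_lit 357) .nil)))))))) (.g (nat_lit 4) .nil .nil))) 
(.lf (nat_lit 95356) (.g (nat_lit 2416) (.e (nat_lit 2668) (nat_lit 167) (.e (nat_lit 196666) (nat_lit 13) (.e (nat_lit 65610) (nat_lit 10) (.e (nat_lit 344117) (nat_lit 21) (.e (nat_lit 516141) (nat_lit 8) .nil))))) .nil))))))) (.nd (nat_lit 2) (.nd (nat_lit 3) (.nd (nat_lit 4) (.nd (nat_lit 5) (.nd (nat_lit 6) 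
(.lf (nat_lit 95234) (.g (nat_lit 3329) (.e (nat_lit 2663) (nat_lit 167) (.e (nat_lit 196666) (nat_lit 13) (.e (nat_lit 65617) (nat_lit 10) (.e (nat_lit 344130) (nat_lit 26) (.e (nat_lit 557067) (nat_lit 9) (.e (nat_lit 290) (nat_lit 21) (.e (nat_lit 335894) (nat_lit 0) (.e (nat_lit 6696) (nat_lit 357) .nil)))))))) (.g (nat_lit 5) .nil .nil))) 
(.lf (nat_lit 95298) (.g (nat_lit 737) (.e (nat_lit 2664) (nat_lit 167) (.e (nat_lit 196672) (nat_lit 15) (.e (nat_lit 81947) (nat_lit 20) .nil))) .nil))) (.nd (nat_lit 6) 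
(.lf (nat_lit 95266) (.g (nat_lit 3352) (.e (nat_lit 2664) (nat_lit 167) (.e (nat_lit 196666) (nat_lit 13) (.e (nat_lit 65610) (nat_lit 10) (.e (nat_lit 344117) (nat_lit 21) (.e (nat_lit 516151) (nat_lit 9) (.e (nat_lit 426412) (nat_lit 15) (.e (nat_lit 1009) (nat_lit 81) (.e (nat_lit 6043) (nat_lit 326) (.e (nat_lit 2517) (nat_lit 157) .nil))))))))) (.g (nat_lit 5) .nil .nil))) 
(.lf (nat_lit 95330) (.g (nat_lit 2067) (.e (nat_lit 2667) (nat_lit 167) (.e (nat_lit 196630) (nat_lit 9) (.e (nat_lit 1669) (nat_lit 116) (.e (nat_lit 401459) (nat_lit 13) (.e (nat_lit 491264) (nat_lit 10) .nil))))) .nil)))) (.nd (nat_lit 5) (.nd (nat_lit 6) 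
(.lf (nat_lit 95250) (.g (nat_lit 1666) (.e (nat_lit 2663) (nat_lit 167) (.e (nat_lit 196672) (nat_lit 15) (.e (nat_lit 81954) (nat_lit 23) (.e (nat_lit 98350) (nat_lit 24) .nil)))) .nil)) 
(.lf (nat_lit 95314) (.g (nat_lit 2782) (.e (nat_lit 2666) (nat_lit 167) (.e (nat_lit 196666) (nat_lit 13) (.e (nat_lit 65610) (nat_lit 10) (.e (nat_lit 344117) (nat_lit 21) (.e (nat_lit 516102) (nat_lit 0) .nil))))) .nil))) (.nd (nat_lit 6) 
(.lf (nat_lit 95282) (.g (nat_lit 1421) (.e (nat_lit 2664) (nat_lit 167) (.e (nat_lit 196666) (nat_lit 13) (.e (nat_lit 65617) (nat_lit 10) (.e (nat_lit 344130) (nat_lit 26) (.e (nat_lit 557065) (nat_lit 9) .nil))))) .nil)) 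
(.lf (nat_lit 95346) (.g (nat_lit 513) (.e (nat_lit 2668) (nat_lit 167) (.e (nat_lit 196666) (nat_lit 13) (.e (nat_lit 65553) (nat_lit 0) .nil))) .nil))))) (.nd (nat_lit 4) (.nd (nat_lit 5) (.nd (nat_lit 6) 
(.lf (nat_lit 95242) (.g (nat_lit 3341) (.e (nat_lit 2663) (nat_lit 167) (.e (nat_lit 196666) (nat_lit 13) (.e (nat_lit 65617) (nat_lit 10) (.e (nat_lit 344133) (nat_lit 26) (.e (nat_lit 557068) (nat_lit 9) (.e (nat_lit 290) (nat_lit 21) (.e (nat_lit 335894) (nat_lit 0) (.e (nat_lit 6696) (nat_lit 357) .nil)))))))) (.g (nat_lit 5) .nil .nil))) 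
(.lf (nat_lit 95306) (.g (nat_lit 2153) (.e (nat_lit 2665) (nat_lit 167) (.e (nat_lit 196670) (nat_lit 14) (.e (nat_lit 73753) (nat_lit 8) (.e (nat_lit 557103) (nat_lit 14) (.e (nat_lit 180250) (nat_lit 10) .nil))))) .nil))) (.nd (nat_lit 6) 
(.lf (nat_lit 95274) (.g (nat_lit 1803) (.e (nat_lit 2664) (nat_lit 167) (.e (nat_lit 196666) (nat_lit 13) (.e (nat_lit 65617) (nat_lit 10) (.e (nat_lit 344091) (nat_lit 18) (.e (nat_lit 3928) (nat_lit 239) .nil))))) .nil)) 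
(.lf (nat_lit 95338) (.g (nat_lit 3074) (.e (nat_lit 2667) (nat_lit 167) (.e (nat_lit 196672) (nat_lit 15) (.e (nat_lit 81954) (nat_lit 23) (.e (nat_lit 98350) (nat_lit 24) (.e (nat_lit 409609) (nat_lit 10) .nil))))) .nil)))) (.nd (nat_lit 5) (.nd (nat_lit 6) 
(.lf (nat_lit 95258) (.g (nat_lit 2406) (.e (nat_lit 2664) (nat_lit 167) (.e (nat_lit 196666) (nat_lit 13) (.e (nat_lit 65610) (nat_lit 10) (.e (nat_lit 344117) (nat_lit 21) (.e (nat_lit 516102) (nat_lit 0) .nil))))) .nil)) 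
(.lf (nat_lit 95322) (.g (nat_lit 2713) (.e (nat_lit 2666) (nat_lit 167) (.e (nat_lit 196666) (nat_lit 13) (.e (nat_lit 65610) (nat_lit 10) (.e (nat_lit 344129) (nat_lit 26) (.e (nat_lit 557067) (nat_lit 9) (.e (nat_lit 7936) (nat_lit 22) (.e (nat_lit 352000) (nat_lit 0) .nil))))))) (.g (nat_lit 5) .nil .nil)))) (.nd (nat_lit 6) 
(.lf (nat_lit 95290) (.g (nat_lit 2872) (.e (nat_lit 2664) (nat_lit 167) (.e (nat_lit 196666) (nat_lit 13) (.e (nat_lit 65617) (nat_lit 10) (.e (nat_lit 344132) (nat_lit 26) (.e (nat_lit 557072) (nat_lit 9) (.e (nat_lit 290) (nat_lit 21) (.e (nat_lit 335914) (nat_lit 0) (.e (nat_lit 6684) (nat_lit 357) .nil)))))))) (.g (nat_lit 5) .nil .nil))) 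
(.lf (nat_lit 95354) (.g (nat_lit 2651) (.e (nat_lit 2668) (nat_lit 167) (.e (nat_lit 196666) (nat_lit 13) (.e (nat_lit 65610) (nat_lit 10) (.e (nat_lit 344117) (nat_lit 21) (.e (nat_lit 524032) (nat_lit 0) .nil))))) .nil)))))) (.nd (nat_lit 3) (.nd (nat_lit 4) (.nd (nat_lit 5) (.nd (nat_lit 6) 
(.lf (nat_lit 95238) (.g (nat_lit 2897) (.e (nat_lit 2663) (nat_lit 167) (.e (nat_lit 196666) (nat_lit 13) (.e (nat_lit 65617) (nat_lit 10) (.e (nat_lit 344132) (nat_lit 26) (.e (nat_lit 557072) (nat_lit 9) (.e (nat_lit 290) (nat_lit 21) (.e (nat_lit 335895) (nat_lit 0) (.e (nat_lit 6696) (nat_lit 357) .nil)))))))) (.g (nat_lit 4) .nil .nil))) 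
(.lf (nat_lit 95302) (.g (nat_lit 1174) (.e (nat_lit 2664) (nat_lit 167) (.e (nat_lit 196674) (nat_lit 15) (.e (nat_lit 81946) (nat_lit 20) (.e (nat_lit 1841) (nat_lit 123) .nil)))) .nil))) (.nd (nat_lit 6) 
(.lf (nat_lit 95270) (.g (nat_lit 4071) (.e (nat_lit 2664) (nat_lit 167) (.e (nat_lit 196666) (nat_lit 13) (.e (nat_lit 65610) (nat_lit 10) (.e (nat_lit 344129) (nat_lit 26) (.e (nat_lit 557066) (nat_lit 9) (.e (nat_lit 232) (nat_lit 21) (.e (nat_lit 335907) (nat_lit 0) (.e (nat_lit 7936) (nat_lit 357) .nil)))))))) (.g (nat_lit 7) .nil .nil))) 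
(.lf (nat_lit 95334) (.g (nat_lit 2990) (.e (nat_lit 2667) (nat_lit 167) (.e (nat_lit 196668) (nat_lit 14) (.e (nat_lit 73753) (nat_lit 8) (.e (nat_lit 557105) (nat_lit 14) (.e (nat_lit 180251) (nat_lit 10) .nil))))) .nil)))) (.nd (nat_lit 5) (.nd (nat_lit 6) 
(.lf (nat_lit 95254) (.g (nat_lit 2927) (.e (nat_lit 2664) (nat_lit 167) (.e (nat_lit 196666) (nat_lit 13) (.e (nat_lit 65610) (nat_lit 10) (.e (nat_lit 344117) (nat_lit 21) (.e (nat_lit 516096) (nat_lit 0) .nil))))) .nil)) 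
(.lf (nat_lit 95318) (.g (nat_lit 3677) (.e (nat_lit 2666) (nat_lit 167) (.e (nat_lit 196666) (nat_lit 13) (.e (nat_lit 65610) (nat_lit 10) (.e (nat_lit 344129) (nat_lit 26) (.e (nat_lit 557066) (nat_lit 9) (.e (nat_lit 297) (nat_lit 22) (.e (nat_lit 352000) (nat_lit 0) .nil))))))) (.g (nat_lit 6) .nil .nil)))) (.nd (nat_lit 6) 
(.lf (nat_lit 95286) (.g (nat_lit 3499) (.e (nat_lit 2664) (nat_lit 167) (.e (nat_lit 196666) (nat_lit 13) (.e (nat_lit 65617) (nat_lit 10) (.e (nat_lit 344130) (nat_lit 26) (.e (nat_lit 557074) (nat_lit 9) (.e (nat_lit 284) (nat_lit 21) (.e (nat_lit 335913) (nat_lit 0) (.e (nat_lit 6684) (nat_lit 357) .nil)))))))) (.g (nat_lit 6) .nil .nil))) 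
(.lf (nat_lit 95350) (.g (nat_lit 2210) (.e (nat_lit 2668) (nat_lit 167) (.e (nat_lit 196666) (nat_lit 13) (.e (nat_lit 65610) (nat_lit 10) (.e (nat_lit 344117) (nat_lit 21) (.e (nat_lit 516096) (nat_lit 0) .nil))))) .nil))))) (.nd (nat_lit 4) (.nd (nat_lit 5) (.nd (nat_lit 6) 
(.lf (nat_lit 95246) (.g (nat_lit 2441) (.e (nat_lit 2663) (nat_lit 167) (.e (nat_lit 196668) (nat_lit 14) (.e (nat_lit 73753) (nat_lit 8) (.e (nat_lit 557103) (nat_lit 14) (.e (nat_lit 180250) (nat_lit 10) .nil))))) .nil)) 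
(.lf (nat_lit 95310) (.g (nat_lit 2367) (.e (nat_lit 2666) (nat_lit 167) (.e (nat_lit 196666) (nat_lit 13) (.e (nat_lit 65553) (nat_lit 0) (.e (nat_lit 2006) (nat_lit 138) .nil)))) .nil))) (.nd (nat_lit 6) 
(.lf (nat_lit 95278) (.g (nat_lit 957) (.e (nat_lit 2664) (nat_lit 167) (.e (nat_lit 196666) (nat_lit 13) (.e (nat_lit 65617) (nat_lit 10) (.e (nat_lit 344117) (nat_lit 21) .nil)))) .nil)) 
(.lf (nat_lit 95342) (.g (nat_lit 2471) (.e (nat_lit 2668) (nat_lit 167) (.e (nat_lit 196630) (nat_lit 9) (.e (nat_lit 1669) (nat_lit 116) (.e (nat_lit 401459) (nat_lit 13) (.e (nat_lit 483370) (nat_lit 20) .nil))))) .nil)))) (.nd (nat_lit 5) (.nd (nat_lit 6) 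
(.lf (nat_lit 95262) (.g (nat_lit 2428) (.e (nat_lit 2664) (nat_lit 167) (.e (nat_lit 196666) (nat_lit 13) (.e (nat_lit 65610) (nat_lit 10) (.e (nat_lit 344117) (nat_lit 21) (.e (nat_lit 516138) (nat_lit 7) .nil))))) .nil)) 
(.lf (nat_lit 95326) (.g (nat_lit 2729) (.e (nat_lit 2666) (nat_lit 167) (.e (nat_lit 196666) (nat_lit 13) (.e (nat_lit 65617) (nat_lit 10) (.e (nat_lit 344127) (nat_lit 26) (.e (nat_lit 557087) (nat_lit 11) .nil))))) .nil))) (.nd (nat_lit 6) 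
(.lf (nat_lit 95294) (.g (nat_lit 1115) (.e (nat_lit 2664) (nat_lit 167) (.e (nat_lit 196666) (nat_lit 13) (.e (nat_lit 65619) (nat_lit 10) (.e (nat_lit 344117) (nat_lit 21) .nil)))) .nil)) 
(.lf (nat_lit 95358) (.g (nat_lit 3081) (.e (nat_lit 2668) (nat_lit 167) (.e (nat_lit 196666) (nat_lit 13) (.e (nat_lit 65610) (nat_lit 10) (.e (nat_lit 344117) (nat_lit 21) (.e (nat_lit 516145) (nat_lit 9) (.e (nat_lit 426360) (nat_lit 15) (.e (nat_lit 972) (nat_lit 81) (.e (nat_lit 5979) (nat_lit 326) (.e (nat_lit 2433) (nat_lit 157) .nil))))))))) (.g (nat_lit 5) .nil .nil))))))))) 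
(.nd (nat_lit 1) (.nd (nat_lit 2) (.nd (nat_lit 3) (.nd (nat_lit 4) (.nd (nat_lit 5) 
(.nd (nat_lit 6) 
(.lf (nat_lit 95233) (.g (nat_lit 2633) (.e (nat_lit 2663) (nat_lit 167) (.e (nat_lit 196666) (nat_lit 13) (.e (nat_lit 65617) (nat_lit 10) (.e (nat_lit 344130) (nat_lit 26) (.e (nat_lit 557067) (nat_lit 9) (.e (nat_lit 290) (nat_lit 21) (.e (nat_lit 335894) (nat_lit 0) (.e (nat_lit 6639) (nat_lit 357) .nil)))))))) (.g (nat_lit 4) .nil .nil))) 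
(.lf (nat_lit 95297) (.g (nat_lit 705) (.e (nat_lit 2664) (nat_lit 167) (.e (nat_lit 196670) (nat_lit 14) (.e (nat_lit 73786) (nat_lit 45) .nil))) .nil))) (.nd (nat_lit 6) 
(.lf (nat_lit 95265) (.g (nat_lit 2704) (.e (nat_lit 2664) (nat_lit 167) (.e (nat_lit 196666) (nat_lit 13) (.e (nat_lit 65610) (nat_lit 10) (.e (nat_lit 344117) (nat_lit 21) (.e (nat_lit 516142) (nat_lit 8) .nil))))) .nil)) 
(.lf (nat_lit 95329) (.g (nat_lit 2054) (.e (nat_lit 2666) (nat_lit 167) (.e (nat_lit 196672) (nat_lit 15) (.e (nat_lit 81954) (nat_lit 23) (.e (nat_lit 98350) (nat_lit 24) .nil)))) .nil)))) (.nd (nat_lit 5) (.nd (nat_lit 6) 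
(.lf (nat_lit 95249) (.g (nat_lit 2812) (.e (nat_lit 2663) (nat_lit 167) (.e (nat_lit 196670) (nat_lit 14) (.e (nat_lit 73753) (nat_lit 8) (.e (nat_lit 557104) (nat_lit 14) (.e (nat_lit 180252) (nat_lit 10) .nil))))) .nil)) 
(.lf (nat_lit 95313) (.g (nat_lit 725) (.e (nat_lit 2666) (nat_lit 167) (.e (nat_lit 196666) (nat_lit 13) (.e (nat_lit 65574) (nat_lit 4) .nil))) .nil))) (.nd (nat_lit 6) 
(.lf (nat_lit 95281) (.g (nat_lit 1603) (.e (nat_lit 2664) (nat_lit 167) (.e (nat_lit 196666) (nat_lit 13) (.e (nat_lit 65617) (nat_lit 10) (.e (nat_lit 344130) (nat_lit 26) (.e (nat_lit 557064) (nat_lit 9) .nil))))) .nil)) 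
(.lf (nat_lit 95345) (.g (nat_lit 1845) (.e (nat_lit 2668) (nat_lit 167) (.e (nat_lit 196656) (nat_lit 11) (.e (nat_lit 16465) (nat_lit 13) (.e (nat_lit 483341) (nat_lit 9) .nil)))) .nil))))) (.nd (nat_lit 4) (.nd (nat_lit 5) (.nd (nat_lit 6) 
(.lf (nat_lit 95241) (.g (nat_lit 2647) (.e (nat_lit 2663) (nat_lit 167) (.e (nat_lit 196666) (nat_lit 13) (.e (nat_lit 65617) (nat_lit 10) (.e (nat_lit 344133) (nat_lit 26) (.e (nat_lit 557068) (nat_lit 9) (.e (nat_lit 290) (nat_lit 21) (.e (nat_lit 335894) (nat_lit 0) (.e (nat_lit 6639) (nat_lit 357) .nil)))))))) (.g (nat_lit 4) .nil .nil))) 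
(.lf (nat_lit 95305) (.g (nat_lit 2665) (.e (nat_lit 2665) (nat_lit 167) (.e (nat_lit 196666) (nat_lit 13) (.e (nat_lit 65610) (nat_lit 10) (.e (nat_lit 344117) (nat_lit 21) (.e (nat_lit 516145) (nat_lit 9) .nil))))) .nil))) (.nd (nat_lit 6) 
(.lf (nat_lit 95273) (.g (nat_lit 2018) (.e (nat_lit 2664) (nat_lit 167) (.e (nat_lit 196666) (nat_lit 13) (.e (nat_lit 65610) (nat_lit 10) (.e (nat_lit 344129) (nat_lit 26) (.e (nat_lit 557087) (nat_lit 11) .nil))))) .nil)) 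
(.lf (nat_lit 95337) (.g (nat_lit 2704) (.e (nat_lit 2667) (nat_lit 167) (.e (nat_lit 196672) (nat_lit 15) (.e (nat_lit 81954) (nat_lit 23) (.e (nat_lit 98350) (nat_lit 24) (.e (nat_lit 409608) (nat_lit 10) .nil))))) .nil)))) (.nd (nat_lit 5) (.nd (nat_lit 6) 
(.lf (nat_lit 95257) (.g (nat_lit 3338) (.e (nat_lit 2664) (nat_lit 167) (.e (nat_lit 196666) (nat_lit 13) (.e (nat_lit 65610) (nat_lit 10) (.e (nat_lit 344117) (nat_lit 21) (.e (nat_lit 516099) (nat_lit 0) .nil))))) .nil)) 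
(.lf (nat_lit 95321) (.g (nat_lit 2208) (.e (nat_lit 2666) (nat_lit 167) (.e (nat_lit 196666) (nat_lit 13) (.e (nat_lit 65610) (nat_lit 10) (.e (nat_lit 344129) (nat_lit 26) (.e (nat_lit 557067) (nat_lit 9) (.e (nat_lit 290) (nat_lit 21) (.e (nat_lit 335892) (nat_lit 0) (.e (nat_lit 6696) (nat_lit 357) .nil)))))))) (.g (nat_lit 4) .nil .nil)))) (.nd (nat_lit 6) 
(.lf (nat_lit 95289) (.g (nat_lit 2359) (.e (nat_lit 2664) (nat_lit 167) (.e (nat_lit 196666) (nat_lit 13) (.e (nat_lit 65617) (nat_lit 10) (.e (nat_lit 344132) (nat_lit 26) (.e (nat_lit 557072) (nat_lit 9) (.e (nat_lit 290) (nat_lit 21) (.e (nat_lit 335913) (nat_lit 0) (.e (nat_lit 6684) (nat_lit 357) .nil)))))))) (.g (nat_lit 4) .nil .nil))) 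
(.lf (nat_lit 95353) (.g (nat_lit 1618) (.e (nat_lit 2668) (nat_lit 167) (.e (nat_lit 196666) (nat_lit 13) (.e (nat_lit 65610) (nat_lit 10) (.e (nat_lit 344117) (nat_lit 21) (.e (nat_lit 516106) (nat_lit 0) .nil))))) .nil)))))) (.nd (nat_lit 3) (.nd (nat_lit 4) (.nd (nat_lit 5) (.nd (nat_lit 6) 
(.lf (nat_lit 95237) (.g (nat_lit 2589) (.e (nat_lit 2663) (nat_lit 167) (.e (nat_lit 196666) (nat_lit 13) (.e (nat_lit 65617) (nat_lit 10) (.e (nat_lit 344132) (nat_lit 26) (.e (nat_lit 557072) (nat_lit 9) (.e (nat_lit 290) (nat_lit 21) (.e (nat_lit 335894) (nat_lit 0) (.e (nat_lit 6639) (nat_lit 357) .nil)))))))) (.g (nat_lit 4) .nil .nil))) 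
(.lf (nat_lit 95301) (.g (nat_lit 1172) (.e (nat_lit 2664) (nat_lit 167) (.e (nat_lit 196672) (nat_lit 15) (.e (nat_lit 81954) (nat_lit 23) (.e (nat_lit 98353) (nat_lit 25) .nil)))) .nil))) (.nd (nat_lit 6) 
(.lf (nat_lit 95269) (.g (nat_lit 2494) (.e (nat_lit 2664) (nat_lit 167) (.e (nat_lit 196666) (nat_lit 13) (.e (nat_lit 65610) (nat_lit 10) (.e (nat_lit 344129) (nat_lit 26) (.e (nat_lit 557066) (nat_lit 9) (.e (nat_lit 232) (nat_lit 21) (.e (nat_lit 335907) (nat_lit 0) (.e (nat_lit 6666) (nat_lit 357) .nil)))))))) (.g (nat_lit 4) .nil .nil))) 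
(.lf (nat_lit 95333) (.g (nat_lit 2530) (.e (nat_lit 2667) (nat_lit 167) (.e (nat_lit 196668) (nat_lit 14) (.e (nat_lit 73753) (nat_lit 8) (.e (nat_lit 557104) (nat_lit 14) (.e (nat_lit 180251) (nat_lit 10) .nil))))) .nil)))) (.nd (nat_lit 5) (.nd (nat_lit 6) 
(.lf (nat_lit 95253) (.g (nat_lit 2820) (.e (nat_lit 2664) (nat_lit 167) (.e (nat_lit 196663) (nat_lit 13) (.e (nat_lit 65630) (nat_lit 14) (.e (nat_lit 401425) (nat_lit 2) (.e (nat_lit 196666) (nat_lit 13) (.e (nat_lit 65540) (nat_lit 0) (.e (nat_lit 6681) (nat_lit 357) .nil))))))) (.g (nat_lit 5) .nil .nil))) 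
(.lf (nat_lit 95317) (.g (nat_lit 3620) (.e (nat_lit 2666) (nat_lit 167) (.e (nat_lit 196666) (nat_lit 13) (.e (nat_lit 65610) (nat_lit 10) (.e (nat_lit 344129) (nat_lit 26) (.e (nat_lit 557066) (nat_lit 9) (.e (nat_lit 232) (nat_lit 21) (.e (nat_lit 335907) (nat_lit 0) (.e (nat_lit 7936) (nat_lit 357) .nil)))))))) (.g (nat_lit 7) .nil .nil)))) (.nd (nat_lit 6) 
(.lf (nat_lit 95285) (.g (nat_lit 2455) (.e (nat_lit 2664) (nat_lit 167) (.e (nat_lit 196666) (nat_lit 13) (.e (nat_lit 65617) (nat_lit 10) (.e (nat_lit 344130) (nat_lit 26) (.e (nat_lit 557067) (nat_lit 9) (.e (nat_lit 290) (nat_lit 21) (.e (nat_lit 335913) (nat_lit 0) (.e (nat_lit 6684) (nat_lit 357) .nil)))))))) (.g (nat_lit 5) .nil .nil))) 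
(.lf (nat_lit 95349) (.g (nat_lit 1852) (.e (nat_lit 2668) (nat_lit 167) (.e (nat_lit 196666) (nat_lit 13) (.e (nat_lit 65610) (nat_lit 10) (.e (nat_lit 344116) (nat_lit 21) .nil)))) .nil))))) (.nd (nat_lit 4) (.nd (nat_lit 5) (.nd (nat_lit 6) 
(.lf (nat_lit 95245) (.g (nat_lit 1200) (.e (nat_lit 2663) (nat_lit 167) (.e (nat_lit 196666) (nat_lit 13) (.e (nat_lit 65619) (nat_lit 10) (.e (nat_lit 344117) (nat_lit 21) .nil)))) .nil)) 
(.lf (nat_lit 95309) (.g (nat_lit 2372) (.e (nat_lit 2666) (nat_lit 167) (.e (nat_lit 196666) (nat_lit 13) (.e (nat_lit 65553) (nat_lit 0) (.e (nat_lit 2003) (nat_lit 138) .nil)))) .nil))) (.nd (nat_lit 6) 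
(.lf (nat_lit 95277) (.g (nat_lit 1907) (.e (nat_lit 2664) (nat_lit 167) (.e (nat_lit 196666) (nat_lit 13) (.e (nat_lit 65617) (nat_lit 10) (.e (nat_lit 344096) (nat_lit 18) (.e (nat_lit 3957) (nat_lit 239) (.e (nat_lit 1208) (nat_lit 89) (.e (nat_lit 73782) (nat_lit 32) .nil))))))) (.g (nat_lit 4) .nil .nil))) 
(.lf (nat_lit 95341) (.g (nat_lit 2599) (.e (nat_lit 2668) (nat_lit 167) (.e (nat_lit 196630) (nat_lit 9) (.e (nat_lit 1669) (nat_lit 116) (.e (nat_lit 401459) (nat_lit 13) (.e (nat_lit 483354) (nat_lit 17) (.e (nat_lit 2346) (nat_lit 151) (.e (nat_lit 778482) (nat_lit 12) (.e (nat_lit 164042) (nat_lit 55) (.e (nat_lit 778336) (nat_lit 9) .nil))))))))) (.g (nat_lit 4) .nil .nil))))) 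
(.nd (nat_lit 5) (.nd (nat_lit 6) 
(.lf (nat_lit 95261) (.g (nat_lit 3185) (.e (nat_lit 2664) (nat_lit 167) (.e (nat_lit 196666) (nat_lit 13) (.e (nat_lit 65610) (nat_lit 10) (.e (nat_lit 344117) (nat_lit 21) (.e (nat_lit 524032) (nat_lit 0) .nil))))) .nil)) 
(.lf (nat_lit 95325) (.g (nat_lit 2259) (.e (nat_lit 2666) (nat_lit 167) (.e (nat_lit 196666) (nat_lit 13) (.e (nat_lit 65610) (nat_lit 10) (.e (nat_lit 344129) (nat_lit 26) (.e (nat_lit 557086) (nat_lit 11) .nil))))) .nil))) (.nd (nat_lit 6) 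
(.lf (nat_lit 95293) (.g (nat_lit 1691) (.e (nat_lit 2664) (nat_lit 167) (.e (nat_lit 196666) (nat_lit 13) (.e (nat_lit 65617) (nat_lit 10) (.e (nat_lit 344133) (nat_lit 26) (.e (nat_lit 557086) (nat_lit 11) .nil))))) .nil)) 
(.lf (nat_lit 95357) (.g (nat_lit 2218) (.e (nat_lit 2668) (nat_lit 167) (.e (nat_lit 196666) (nat_lit 13) (.e (nat_lit 65610) (nat_lit 10) (.e (nat_lit 344117) (nat_lit 21) (.e (nat_lit 516145) (nat_lit 9) (.e (nat_lit 426360) (nat_lit 15) (.e (nat_lit 970) (nat_lit 81) (.e (nat_lit 5979) (nat_lit 326) (.e (nat_lit 2433) (nat_lit 157) .nil))))))))) (.g (nat_lit 4) .nil .nil)))))))) 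
(.nd (nat_lit 2) (.nd (nat_lit 3) (.nd (nat_lit 4) (.nd (nat_lit 5) (.nd (nat_lit 6) 
(.lf (nat_lit 95235) (.g (nat_lit 2314) (.e (nat_lit 2663) (nat_lit 167) (.e (nat_lit 196666) (nat_lit 13) (.e (nat_lit 65617) (nat_lit 10) (.e (nat_lit 344130) (nat_lit 26) (.e (nat_lit 557074) (nat_lit 9) (.e (nat_lit 284) (nat_lit 21) (.e (nat_lit 335914) (nat_lit 0) (.e (nat_lit 6684) (nat_lit 357) .nil)))))))) (.g (nat_lit 4) .nil .nil))) 
(.lf (nat_lit 95299) (.g (nat_lit 1620) (.e (nat_lit 2664) (nat_lit 167) (.e (nat_lit 196672) (nat_lit 15) (.e (nat_lit 81954) (nat_lit 23) (.e (nat_lit 98350) (nat_lit 24) .nil)))) .nil))) (.nd (nat_lit 6) 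
(.lf (nat_lit 95267) (.g (nat_lit 2123) (.e (nat_lit 2664) (nat_lit 167) (.e (nat_lit 196666) (nat_lit 13) (.e (nat_lit 65610) (nat_lit 10) (.e (nat_lit 344126) (nat_lit 25) (.e (nat_lit 548889) (nat_lit 9) .nil))))) .nil)) 
(.lf (nat_lit 95331) (.g (nat_lit 2271) (.e (nat_lit 2667) (nat_lit 167) (.e (nat_lit 196666) (nat_lit 13) (.e (nat_lit 65610) (nat_lit 10) (.e (nat_lit 344129) (nat_lit 26) .nil)))) .nil)))) (.nd (nat_lit 5) (.nd (nat_lit 6) 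
(.lf (nat_lit 95251) (.g (nat_lit 3348) (.e (nat_lit 2663) (nat_lit 167) (.e (nat_lit 196672) (nat_lit 15) (.e (nat_lit 81954) (nat_lit 23) (.e (nat_lit 98350) (nat_lit 24) (.e (nat_lit 409609) (nat_lit 10) .nil))))) .nil)) 
(.lf (nat_lit 95315) (.g (nat_lit 2824) (.e (nat_lit 2666) (nat_lit 167) (.e (nat_lit 196666) (nat_lit 13) (.e (nat_lit 65610) (nat_lit 10) (.e (nat_lit 344117) (nat_lit 21) (.e (nat_lit 516138) (nat_lit 7) .nil))))) .nil))) (.nd (nat_lit 6) 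
(.lf (nat_lit 95283) (.g (nat_lit 1907) (.e (nat_lit 2664) (nat_lit 167) (.e (nat_lit 196666) (nat_lit 13) (.e (nat_lit 65617) (nat_lit 10) (.e (nat_lit 344130) (nat_lit 26) (.e (nat_lit 557065) (nat_lit 9) (.e (nat_lit 297) (nat_lit 22) (.e (nat_lit 344069) (nat_lit 0) .nil))))))) (.g (nat_lit 4) .nil .nil))) 
(.lf (nat_lit 95347) (.g (nat_lit 2412) (.e (nat_lit 2668) (nat_lit 167) (.e (nat_lit 196666) (nat_lit 13) (.e (nat_lit 65610) (nat_lit 10) (.e (nat_lit 344090) (nat_lit 18) (.e (nat_lit 3928) (nat_lit 239) .nil))))) .nil))))) (.nd (nat_lit 4) (.nd (nat_lit 5) (.nd (nat_lit 6) 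
(.lf (nat_lit 95243) (.g (nat_lit 2924) (.e (nat_lit 2663) (nat_lit 167) (.e (nat_lit 196666) (nat_lit 13) (.e (nat_lit 65617) (nat_lit 10) (.e (nat_lit 344133) (nat_lit 26) (.e (nat_lit 557068) (nat_lit 9) (.e (nat_lit 290) (nat_lit 21) (.e (nat_lit 335895) (nat_lit 0) (.e (nat_lit 6696) (nat_lit 357) .nil)))))))) (.g (nat_lit 4) .nil .nil))) 
(.lf (nat_lit 95307) (.g (nat_lit 2038) (.e (nat_lit 2666) (nat_lit 167) (.e (nat_lit 196666) (nat_lit 13) (.e (nat_lit 65546) (nat_lit 0) (.e (nat_lit 2003) (nat_lit 138) .nil)))) .nil))) (.nd (nat_lit 6) 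
(.lf (nat_lit 95275) (.g (nat_lit 1911) (.e (nat_lit 2664) (nat_lit 167) (.e (nat_lit 196666) (nat_lit 13) (.e (nat_lit 65617) (nat_lit 10) (.e (nat_lit 344091) (nat_lit 18) (.e (nat_lit 3957) (nat_lit 239) (.e (nat_lit 1208) (nat_lit 89) (.e (nat_lit 73782) (nat_lit 32) .nil))))))) (.g (nat_lit 4) .nil .nil))) 
(.lf (nat_lit 95339) (.g (nat_lit 753) (.e (nat_lit 2668) (nat_lit 167) (.e (nat_lit 196624) (nat_lit 9) (.e (nat_lit 1615) (nat_lit 113) .nil))) .nil)))) (.nd (nat_lit 5) (.nd (nat_lit 6) 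
(.lf (nat_lit 95259) (.g (nat_lit 2334) (.e (nat_lit 2664) (nat_lit 167) (.e (nat_lit 196666) (nat_lit 13) (.e (nat_lit 65610) (nat_lit 10) (.e (nat_lit 344117) (nat_lit 21) (.e (nat_lit 516106) (nat_lit 0) .nil))))) .nil)) 
(.lf (nat_lit 95323) (.g (nat_lit 2734) (.e (nat_lit 2666) (nat_lit 167) (.e (nat_lit 196666) (nat_lit 13) (.e (nat_lit 65610) (nat_lit 10) (.e (nat_lit 344129) (nat_lit 26) (.e (nat_lit 557074) (nat_lit 9) (.e (nat_lit 284) (nat_lit 21) (.e (nat_lit 335886) (nat_lit 0) (.e (nat_lit 6696) (nat_lit 357) .nil)))))))) (.g (nat_lit 5) .nil .nil)))) (.nd (nat_lit 6) 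
(.lf (nat_lit 95291) (.g (nat_lit 2160) (.e (nat_lit 2664) (nat_lit 167) (.e (nat_lit 196666) (nat_lit 13) (.e (nat_lit 65617) (nat_lit 10) (.e (nat_lit 344132) (nat_lit 26) (.e (nat_lit 557073) (nat_lit 9) (.e (nat_lit 290) (nat_lit 21) (.e (nat_lit 335913) (nat_lit 0) (.e (nat_lit 6684) (nat_lit 357) .nil)))))))) (.g (nat_lit 4) .nil .nil))) 
(.lf (nat_lit 95355) (.g (nat_lit 1800) (.e (nat_lit 2668) (nat_lit 167) (.e (nat_lit 196666) (nat_lit 13) (.e (nat_lit 65610) (nat_lit 10) (.e (nat_lit 344117) (nat_lit 21) (.e (nat_lit 516138) (nat_lit 7) .nil))))) .nil)))))) (.nd (nat_lit 3) (.nd (nat_lit 4) (.nd (nat_lit 5) (.nd (nat_lit 6) 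
(.lf (nat_lit 95239) (.g (nat_lit 2574) (.e (nat_lit 2663) (nat_lit 167) (.e (nat_lit 196666) (nat_lit 13) (.e (nat_lit 65617) (nat_lit 10) (.e (nat_lit 344132) (nat_lit 26) (.e (nat_lit 557073) (nat_lit 9) (.e (nat_lit 290) (nat_lit 21) (.e (nat_lit 335895) (nat_lit 0) (.e (nat_lit 6696) (nat_lit 357) .nil)))))))) (.g (nat_lit 4) .nil .nil))) 
(.lf (nat_lit 95303) (.g (nat_lit 1134) (.e (nat_lit 2664) (nat_lit 167) (.e (nat_lit 196674) (nat_lit 15) (.e (nat_lit 81946) (nat_lit 20) (.e (nat_lit 1842) (nat_lit 123) .nil)))) .nil))) (.nd (nat_lit 6) 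
(.lf (nat_lit 95271) (.g (nat_lit 2502) (.e (nat_lit 2664) (nat_lit 167) (.e (nat_lit 196666) (nat_lit 13) (.e (nat_lit 65610) (nat_lit 10) (.e (nat_lit 344129) (nat_lit 26) (.e (nat_lit 557066) (nat_lit 9) (.e (nat_lit 307) (nat_lit 22) (.e (nat_lit 344065) (nat_lit 0) .nil))))))) (.g (nat_lit 4) .nil .nil))) 
(.lf (nat_lit 95335) (.g (nat_lit 2300) (.e (nat_lit 2667) (nat_lit 167) (.e (nat_lit 196672) (nat_lit 15) (.e (nat_lit 81954) (nat_lit 23) (.e (nat_lit 98349) (nat_lit 24) (.e (nat_lit 409609) (nat_lit 10) .nil))))) .nil)))) (.nd (nat_lit 5) (.nd (nat_lit 6) 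
(.lf (nat_lit 95255) (.g (nat_lit 3553) (.e (nat_lit 2664) (nat_lit 167) (.e (nat_lit 196666) (nat_lit 13) (.e (nat_lit 65610) (nat_lit 10) (.e (nat_lit 344117) (nat_lit 21) (.e (nat_lit 516097) (nat_lit 0) .nil))))) .nil)) 
(.lf (nat_lit 95319) (.g (nat_lit 2246) (.e (nat_lit 2666) (nat_lit 167) (.e (nat_lit 196666) (nat_lit 13) (.e (nat_lit 65610) (nat_lit 10) (.e (nat_lit 344129) (nat_lit 26) (.e (nat_lit 557066) (nat_lit 9) (.e (nat_lit 305) (nat_lit 22) (.e (nat_lit 352000) (nat_lit 0) .nil))))))) (.g (nat_lit 4) .nil .nil)))) (.nd (nat_lit 6) 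
(.lf (nat_lit 95287) (.g (nat_lit 1518) (.e (nat_lit 2664) (nat_lit 167) (.e (nat_lit 196666) (nat_lit 13) (.e (nat_lit 65617) (nat_lit 10) (.e (nat_lit 344130) (nat_lit 26) (.e (nat_lit 557086) (nat_lit 11) .nil))))) .nil)) 
(.lf (nat_lit 95351) (.g (nat_lit 2334) (.e (nat_lit 2668) (nat_lit 167) (.e (nat_lit 196666) (nat_lit 13) (.e (nat_lit 65610) (nat_lit 10) (.e (nat_lit 344117) (nat_lit 21) (.e (nat_lit 516098) (nat_lit 0) .nil))))) .nil))))) (.nd (nat_lit 4) (.nd (nat_lit 5) (.nd (nat_lit 6) 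
(.lf (nat_lit 95247) (.g (nat_lit 2631) (.e (nat_lit 2663) (nat_lit 167) (.e (nat_lit 196668) (nat_lit 14) (.e (nat_lit 73753) (nat_lit 8) (.e (nat_lit 557105) (nat_lit 14) (.e (nat_lit 180252) (nat_lit 10) .nil))))) .nil)) 
(.lf (nat_lit 95311) (.g (nat_lit 2526) (.e (nat_lit 2666) (nat_lit 167) (.e (nat_lit 196666) (nat_lit 13) (.e (nat_lit 65571) (nat_lit 3) (.e (nat_lit 98333) (nat_lit 18) .nil)))) .nil))) (.nd (nat_lit 6) 
(.lf (nat_lit 95279) (.g (nat_lit 1426) (.e (nat_lit 2664) (nat_lit 167) (.e (nat_lit 196666) (nat_lit 13) (.e (nat_lit 65617) (nat_lit 10) (.e (nat_lit 344126) (nat_lit 25) (.e (nat_lit 548889) (nat_lit 9) .nil))))) .nil)) 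
(.lf (nat_lit 95343) (.g (nat_lit 2507) (.e (nat_lit 2668) (nat_lit 167) (.e (nat_lit 196630) (nat_lit 9) (.e (nat_lit 1669) (nat_lit 116) (.e (nat_lit 401459) (nat_lit 13) (.e (nat_lit 483370) (nat_lit 20) (.e (nat_lit 147503) (nat_lit 12) (.e (nat_lit 164042) (nat_lit 55) (.e (nat_lit 778336) (nat_lit 9) .nil)))))))) (.g (nat_lit 4) .nil .nil))))) (.nd (nat_lit 5) (.nd (nat_lit 6) 
(.lf (nat_lit 95263) (.g (nat_lit 2357) (.e (nat_lit 2664) (nat_lit 167) (.e (nat_lit 196666) (nat_lit 13) (.e (nat_lit 65610) (nat_lit 10) (.e (nat_lit 344117) (nat_lit 21) (.e (nat_lit 516139) (nat_lit 7) .nil))))) .nil)) 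
(.lf (nat_lit 95327) (.g (nat_lit 662) (.e (nat_lit 2666) (nat_lit 167) (.e (nat_lit 196666) (nat_lit 13) (.e (nat_lit 65619) (nat_lit 10) .nil))) .nil))) (.nd (nat_lit 6) 
(.lf (nat_lit 95295) (.g (nat_lit 2840) (.e (nat_lit 2664) (nat_lit 167) (.e (nat_lit 196666) (nat_lit 13) (.e (nat_lit 65628) (nat_lit 14) (.e (nat_lit 401425) (nat_lit 2) (.e (nat_lit 196669) (nat_lit 14) .nil))))) .nil)) 
(.lf (nat_lit 95359) (.g (nat_lit 2384) (.e (nat_lit 2668) (nat_lit 167) (.e (nat_lit 196666) (nat_lit 13) (.e (nat_lit 65610) (nat_lit 10) (.e (nat_lit 344117) (nat_lit 21) (.e (nat_lit 516145) (nat_lit 9) (.e (nat_lit 426360) (nat_lit 15) (.e (nat_lit 991) (nat_lit 81) (.e (nat_lit 5981) (nat_lit 326) (.e (nat_lit 2433) (nat_lit 157) .nil))))))))) (.g (nat_lit 4) .nil .nil))))))))))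

noncomputable def tv1309 : DT := (.nd (nat_lit 0) (.nd (nat_lit 1) (.nd (nat_lit 2) (.nd (nat_lit 3) (.nd (nat_lit 4) (.nd (nat_lit 5) 
(.lf (nat_lit 95360) (.g (nat_lit 3888) (.e (nat_lit 2668) (nat_lit 167) (.e (nat_lit 196666) (nat_lit 13) (.e (nat_lit 65610) (nat_lit 10) (.e (nat_lit 344117) (nat_lit 21) (.e (nat_lit 516151) (nat_lit 9) (.e (nat_lit 426365) (nat_lit 15) (.e (nat_lit 971) (nat_lit 81) (.e (nat_lit 5979) (nat_lit 326) (.e (nat_lit 2433) (nat_lit 157) .nil))))))))) (.g (nat_lit 5) .nil .nil))) 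
(.lf (nat_lit 95392) (.g (nat_lit 2190) (.e (nat_lit 2668) (nat_lit 167) (.e (nat_lit 196666) (nat_lit 13) (.e (nat_lit 65610) (nat_lit 10) (.e (nat_lit 344129) (nat_lit 26) (.e (nat_lit 557070) (nat_lit 9) (.e (nat_lit 296) (nat_lit 22) (.e (nat_lit 352000) (nat_lit 0) .nil))))))) (.g (nat_lit 4) .nil .nil)))) (.nd (nat_lit 5) 
(.lf (nat_lit 95376) (.g (nat_lit 2742) (.e (nat_lit 2668) (nat_lit 167) (.e (nat_lit 196666) (nat_lit 13) (.e (nat_lit 65610) (nat_lit 10) (.e (nat_lit 344129) (nat_lit 26) (.e (nat_lit 557067) (nat_lit 9) (.e (nat_lit 214) (nat_lit 19) (.e (nat_lit 319491) (nat_lit 0) (.e (nat_lit 5612) (nat_lit 312) .nil)))))))) (.g (nat_lit 4) .nil .nil))) 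
(.lf (nat_lit 95408) (.g (nat_lit 1184) (.e (nat_lit 2668) (nat_lit 167) (.e (nat_lit 196666) (nat_lit 13) (.e (nat_lit 65617) (nat_lit 10) (.e (nat_lit 344117) (nat_lit 21) .nil)))) .nil)))) (.nd (nat_lit 4) (.nd (nat_lit 5) 
(.lf (nat_lit 95368) (.g (nat_lit 4565) (.e (nat_lit 2668) (nat_lit 167) (.e (nat_lit 196666) (nat_lit 13) (.e (nat_lit 65610) (nat_lit 10) (.e (nat_lit 344129) (nat_lit 26) (.e (nat_lit 557066) (nat_lit 9) (.e (nat_lit 297) (nat_lit 22) (.e (nat_lit 352000) (nat_lit 0) .nil))))))) (.g (nat_lit 6) .nil .nil))) 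
(.lf (nat_lit 95400) (.g (nat_lit 3070) (.e (nat_lit 2668) (nat_lit 167) (.e (nat_lit 196666) (nat_lit 13) (.e (nat_lit 65610) (nat_lit 10) (.e (nat_lit 344129) (nat_lit 26) (.e (nat_lit 557074) (nat_lit 9) (.e (nat_lit 7936) (nat_lit 21) (.e (nat_lit 335877) (nat_lit 0) (.e (nat_lit 6618) (nat_lit 357) .nil)))))))) (.g (nat_lit 4) .nil .nil)))) (.nd (nat_lit 5) 
(.lf (nat_lit 95384) (.g (nat_lit 4147) (.e (nat_lit 2668) (nat_lit 167) (.e (nat_lit 196666) (nat_lit 13) (.e (nat_lit 65610) (nat_lit 10) (.e (nat_lit 344129) (nat_lit 26) (.e (nat_lit 557067) (nat_lit 9) (.e (nat_lit 290) (nat_lit 21) (.e (nat_lit 335892) (nat_lit 0) (.e (nat_lit 6619) (nat_lit 357) .nil)))))))) (.g (nat_lit 0) .nil .nil))) 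
(.lf (nat_lit 95416) (.g (nat_lit 2787) (.e (nat_lit 2668) (nat_lit 167) (.e (nat_lit 196666) (nat_lit 13) (.e (nat_lit 65617) (nat_lit 10) (.e (nat_lit 344127) (nat_lit 26) (.e (nat_lit 557066) (nat_lit 9) (.e (nat_lit 328) (nat_lit 25) (.e (nat_lit 376576) (nat_lit 0) .nil))))))) (.g (nat_lit 6) .nil .nil)))))) (.nd (nat_lit 3) (.nd (nat_lit 4) (.nd (nat_lit 5) 
(.lf (nat_lit 95364) (.g (nat_lit 1810) (.e (nat_lit 2668) (nat_lit 167) (.e (nat_lit 196666) (nat_lit 13) (.e (nat_lit 65610) (nat_lit 10) (.e (nat_lit 344129) (nat_lit 26) (.e (nat_lit 557065) (nat_lit 9) .nil))))) .nil)) 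
(.lf (nat_lit 95396) (.g (nat_lit 2728) (.e (nat_lit 2668) (nat_lit 167) (.e (nat_lit 196666) (nat_lit 13) (.e (nat_lit 65610) (nat_lit 10) (.e (nat_lit 344129) (nat_lit 26) (.e (nat_lit 557074) (nat_lit 9) (.e (nat_lit 278) (nat_lit 21) (.e (nat_lit 335877) (nat_lit 0) (.e (nat_lit 6618) (nat_lit 357) .nil)))))))) (.g (nat_lit 4) .nil .nil)))) (.nd (nat_lit 5) 
(.lf (nat_lit 95380) (.g (nat_lit 3601) (.e (nat_lit 2668) (nat_lit 167) (.e (nat_lit 196666) (nat_lit 13) (.e (nat_lit 65610) (nat_lit 10) (.e (nat_lit 344129) (nat_lit 26) (.e (nat_lit 557067) (nat_lit 9) (.e (nat_lit 220) (nat_lit 20) (.e (nat_lit 327683) (nat_lit 0) (.e (nat_lit 5616) (nat_lit 312) .nil)))))))) (.g (nat_lit 5) .nil .nil))) 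
(.lf (nat_lit 95412) (.g (nat_lit 996) (.e (nat_lit 2668) (nat_lit 167) (.e (nat_lit 196666) (nat_lit 13) (.e (nat_lit 65617) (nat_lit 10) (.e (nat_lit 344120) (nat_lit 21) .nil)))) .nil)))) (.nd (nat_lit 4) (.nd (nat_lit 5) 
(.lf (nat_lit 95372) (.g (nat_lit 2520) (.e (nat_lit 2668) (nat_lit 167) (.e (nat_lit 196666) (nat_lit 13) (.e (nat_lit 65610) (nat_lit 10) (.e (nat_lit 344129) (nat_lit 26) (.e (nat_lit 557066) (nat_lit 9) (.e (nat_lit 326) (nat_lit 25) (.e (nat_lit 376576) (nat_lit 0) .nil))))))) (.g (nat_lit 4) .nil .nil))) 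
(.lf (nat_lit 95404) (.g (nat_lit 2421) (.e (nat_lit 2668) (nat_lit 167) (.e (nat_lit 196666) (nat_lit 13) (.e (nat_lit 65617) (nat_lit 10) (.e (nat_lit 344091) (nat_lit 18) (.e (nat_lit 3928) (nat_lit 239) (.e (nat_lit 1207) (nat_lit 89) (.e (nat_lit 81664) (nat_lit 32) .nil))))))) (.g (nat_lit 4) .nil .nil)))) (.nd (nat_lit 5) 
(.lf (nat_lit 95388) (.g (nat_lit 2796) (.e (nat_lit 2668) (nat_lit 167) (.e (nat_lit 196666) (nat_lit 13) (.e (nat_lit 65610) (nat_lit 10) (.e (nat_lit 344129) (nat_lit 26) (.e (nat_lit 557067) (nat_lit 9) (.e (nat_lit 7936) (nat_lit 21) (.e (nat_lit 335874) (nat_lit 0) (.e (nat_lit 6618) (nat_lit 357) .nil)))))))) (.g (nat_lit 4) .nil .nil))) 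
(.lf (nat_lit 95420) (.g (nat_lit 1869) (.e (nat_lit 2668) (nat_lit 167) (.e (nat_lit 196666) (nat_lit 13) (.e (nat_lit 65617) (nat_lit 10) (.e (nat_lit 344130) (nat_lit 26) (.e (nat_lit 557064) (nat_lit 9) .nil))))) .nil)))))) (.nd (nat_lit 2) (.nd (nat_lit 3) (.nd (nat_lit 4) (.nd (nat_lit 5) 
(.lf (nat_lit 95362) (.g (nat_lit 2279) (.e (nat_lit 2668) (nat_lit 167) (.e (nat_lit 196666) (nat_lit 13) (.e (nat_lit 65610) (nat_lit 10) (.e (nat_lit 344117) (nat_lit 21) (.e (nat_lit 516151) (nat_lit 9) (.e (nat_lit 426412) (nat_lit 15) (.e (nat_lit 1009) (nat_lit 81) (.e (nat_lit 6045) (nat_lit 326) (.e (nat_lit 7936) (nat_lit 157) .nil))))))))) (.g (nat_lit 4) .nil .nil))) 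
(.lf (nat_lit 95394) (.g (nat_lit 3776) (.e (nat_lit 2668) (nat_lit 167) (.e (nat_lit 196666) (nat_lit 13) (.e (nat_lit 65610) (nat_lit 10) (.e (nat_lit 344129) (nat_lit 26) (.e (nat_lit 557074) (nat_lit 9) (.e (nat_lit 278) (nat_lit 21) (.e (nat_lit 335874) (nat_lit 0) (.e (nat_lit 6618) (nat_lit 357) .nil)))))))) (.g (nat_lit 5) .nil .nil)))) (.nd (nat_lit 5) 
(.lf (nat_lit 95378) (.g (nat_lit 5592) (.e (nat_lit 2668) (nat_lit 167) (.e (nat_lit 196666) (nat_lit 13) (.e (nat_lit 65610) (nat_lit 10) (.e (nat_lit 344129) (nat_lit 26) (.e (nat_lit 557067) (nat_lit 9) (.e (nat_lit 214) (nat_lit 19) (.e (nat_lit 319492) (nat_lit 0) (.e (nat_lit 5626) (nat_lit 312) .nil)))))))) (.g (nat_lit 0) .nil .nil))) 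
(.lf (nat_lit 95410) (.g (nat_lit 2071) (.e (nat_lit 2668) (nat_lit 167) (.e (nat_lit 196666) (nat_lit 13) (.e (nat_lit 65617) (nat_lit 10) (.e (nat_lit 344117) (nat_lit 21) (.e (nat_lit 516142) (nat_lit 8) .nil))))) .nil)))) (.nd (nat_lit 4) (.nd (nat_lit 5) 
(.lf (nat_lit 95370) (.g (nat_lit 3182) (.e (nat_lit 2668) (nat_lit 167) (.e (nat_lit 196666) (nat_lit 13) (.e (nat_lit 65610) (nat_lit 10) (.e (nat_lit 344129) (nat_lit 26) (.e (nat_lit 557066) (nat_lit 9) (.e (nat_lit 305) (nat_lit 22) (.e (nat_lit 352000) (nat_lit 0) .nil))))))) (.g (nat_lit 5) .nil .nil))) 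
(.lf (nat_lit 95402) (.g (nat_lit 3739) (.e (nat_lit 2668) (nat_lit 167) (.e (nat_lit 196666) (nat_lit 13) (.e (nat_lit 65610) (nat_lit 10) (.e (nat_lit 344129) (nat_lit 26) (.e (nat_lit 557074) (nat_lit 9) (.e (nat_lit 7936) (nat_lit 25) (.e (nat_lit 376576) (nat_lit 0) .nil))))))) (.g (nat_lit 5) .nil .nil)))) (.nd (nat_lit 5) 
(.lf (nat_lit 95386) (.g (nat_lit 4512) (.e (nat_lit 2668) (nat_lit 167) (.e (nat_lit 196666) (nat_lit 13) (.e (nat_lit 65610) (nat_lit 10) (.e (nat_lit 344129) (nat_lit 26) (.e (nat_lit 557067) (nat_lit 9) (.e (nat_lit 290) (nat_lit 21) (.e (nat_lit 335895) (nat_lit 0) (.e (nat_lit 6619) (nat_lit 357) .nil)))))))) (.g (nat_lit 0) .nil .nil))) 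
(.lf (nat_lit 95418) (.g (nat_lit 3194) (.e (nat_lit 2668) (nat_lit 167) (.e (nat_lit 196666) (nat_lit 13) (.e (nat_lit 65617) (nat_lit 10) (.e (nat_lit 344127) (nat_lit 26) (.e (nat_lit 557067) (nat_lit 9) (.e (nat_lit 214) (nat_lit 19) (.e (nat_lit 319492) (nat_lit 0) (.e (nat_lit 5626) (nat_lit 312) .nil)))))))) (.g (nat_lit 5) .nil .nil)))))) (.nd (nat_lit 3) (.nd (nat_lit 4) (.nd (nat_lit 5) 
(.lf (nat_lit 95366) (.g (nat_lit 2494) (.e (nat_lit 2668) (nat_lit 167) (.e (nat_lit 196666) (nat_lit 13) (.e (nat_lit 65610) (nat_lit 10) (.e (nat_lit 344129) (nat_lit 26) (.e (nat_lit 557065) (nat_lit 9) (.e (nat_lit 328) (nat_lit 25) (.e (nat_lit 376576) (nat_lit 0) .nil))))))) (.g (nat_lit 4) .nil .nil))) 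
(.lf (nat_lit 95398) (.g (nat_lit 3143) (.e (nat_lit 2668) (nat_lit 167) (.e (nat_lit 196666) (nat_lit 13) (.e (nat_lit 65610) (nat_lit 10) (.e (nat_lit 344129) (nat_lit 26) (.e (nat_lit 557074) (nat_lit 9) (.e (nat_lit 7936) (nat_lit 21) (.e (nat_lit 335872) (nat_lit 0) (.e (nat_lit 6618) (nat_lit 357) .nil)))))))) (.g (nat_lit 4) .nil .nil)))) (.nd (nat_lit 5) 
(.lf (nat_lit 95382) (.g (nat_lit 3775) (.e (nat_lit 2668) (nat_lit 167) (.e (nat_lit 196666) (nat_lit 13) (.e (nat_lit 65610) (nat_lit 10) (.e (nat_lit 344129) (nat_lit 26) (.e (nat_lit 557067) (nat_lit 9) (.e (nat_lit 220) (nat_lit 20) (.e (nat_lit 327684) (nat_lit 0) (.e (nat_lit 5616) (nat_lit 312) .nil)))))))) (.g (nat_lit 5) .nil .nil))) 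
(.lf (nat_lit 95414) (.g (nat_lit 2569) (.e (nat_lit 2668) (nat_lit 167) (.e (nat_lit 196666) (nat_lit 13) (.e (nat_lit 65617) (nat_lit 10) (.e (nat_lit 344127) (nat_lit 26) (.e (nat_lit 557066) (nat_lit 9) (.e (nat_lit 293) (nat_lit 21) (.e (nat_lit 335874) (nat_lit 0) (.e (nat_lit 6618) (nat_lit 357) .nil)))))))) (.g (nat_lit 5) .nil .nil))))) (.nd (nat_lit 4) (.nd (nat_lit 5) 
(.lf (nat_lit 95374) (.g (nat_lit 2370) (.e (nat_lit 2668) (nat_lit 167) (.e (nat_lit 196666) (nat_lit 13) (.e (nat_lit 65610) (nat_lit 10) (.e (nat_lit 344129) (nat_lit 26) (.e (nat_lit 557066) (nat_lit 9) (.e (nat_lit 330) (nat_lit 25) (.e (nat_lit 376576) (nat_lit 0) .nil))))))) (.g (nat_lit 4) .nil .nil))) 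
(.lf (nat_lit 95406) (.g (nat_lit 2576) (.e (nat_lit 2668) (nat_lit 167) (.e (nat_lit 196666) (nat_lit 13) (.e (nat_lit 65617) (nat_lit 10) (.e (nat_lit 344096) (nat_lit 18) (.e (nat_lit 3928) (nat_lit 239) (.e (nat_lit 1207) (nat_lit 89) (.e (nat_lit 81664) (nat_lit 32) .nil))))))) (.g (nat_lit 6) .nil .nil)))) (.nd (nat_lit 5) 
(.lf (nat_lit 95390) (.g (nat_lit 3486) (.e (nat_lit 2668) (nat_lit 167) (.e (nat_lit 196666) (nat_lit 13) (.e (nat_lit 65610) (nat_lit 10) (.e (nat_lit 344129) (nat_lit 26) (.e (nat_lit 557067) (nat_lit 9) (.e (nat_lit 7936) (nat_lit 22) (.e (nat_lit 352000) (nat_lit 0) .nil))))))) (.g (nat_lit 5) .nil .nil))) 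
(.lf (nat_lit 95422) (.g (nat_lit 2674) (.e (nat_lit 2668) (nat_lit 167) (.e (nat_lit 196666) (nat_lit 13) (.e (nat_lit 65617) (nat_lit 10) (.e (nat_lit 344130) (nat_lit 26) (.e (nat_lit 557064) (nat_lit 9) (.e (nat_lit 328) (nat_lit 25) (.e (nat_lit 376576) (nat_lit 0) .nil))))))) (.g (nat_lit 6) .nil .nil)))))))) 
(.nd (nat_lit 1) (.nd (nat_lit 2) (.nd (nat_lit 3) (.nd (nat_lit 4) (.nd (nat_lit 5) 
(.lf (nat_lit 95361) (.g (nat_lit 2132) (.e (nat_lit 2668) (nat_lit 167) (.e (nat_lit 196666) (nat_lit 13) (.e (nat_lit 65610) (nat_lit 10) (.e (nat_lit 344117) (nat_lit 21) (.e (nat_lit 516151) (nat_lit 9) (.e (nat_lit 426412) (nat_lit 15) (.e (nat_lit 982) (nat_lit 81) (.e (nat_lit 5981) (nat_lit 326) (.e (nat_lit 2433) (nat_lit 157) .nil))))))))) (.g (nat_lit 4) .nil .nil))) 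
(.lf (nat_lit 95393) (.g (nat_lit 3742) (.e (nat_lit 2668) (nat_lit 167) (.e (nat_lit 196666) (nat_lit 13) (.e (nat_lit 65610) (nat_lit 10) (.e (nat_lit 344129) (nat_lit 26) (.e (nat_lit 557074) (nat_lit 9) (.e (nat_lit 278) (nat_lit 21) (.e (nat_lit 335872) (nat_lit 0) (.e (nat_lit 6618) (nat_lit 357) .nil)))))))) (.g (nat_lit 5) .nil .nil)))) (.nd (nat_lit 5) 
(.lf (nat_lit 95377) (.g (nat_lit 5607) (.e (nat_lit 2668) (nat_lit 167) (.e (nat_lit 196666) (nat_lit 13) (.e (nat_lit 65610) (nat_lit 10) (.e (nat_lit 344129) (nat_lit 26) (.e (nat_lit 557067) (nat_lit 9) (.e (nat_lit 214) (nat_lit 19) (.e (nat_lit 319491) (nat_lit 0) (.e (nat_lit 5626) (nat_lit 312) .nil)))))))) (.g (nat_lit 0) .nil .nil))) 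
(.lf (nat_lit 95409) (.g (nat_lit 2092) (.e (nat_lit 2668) (nat_lit 167) (.e (nat_lit 196666) (nat_lit 13) (.e (nat_lit 65617) (nat_lit 10) (.e (nat_lit 344117) (nat_lit 21) (.e (nat_lit 516106) (nat_lit 0) .nil))))) .nil)))) (.nd (nat_lit 4) (.nd (nat_lit 5) 
(.lf (nat_lit 95369) (.g (nat_lit 3882) (.e (nat_lit 2668) (nat_lit 167) (.e (nat_lit 196666) (nat_lit 13) (.e (nat_lit 65610) (nat_lit 10) (.e (nat_lit 344129) (nat_lit 26) (.e (nat_lit 557066) (nat_lit 9) (.e (nat_lit 304) (nat_lit 22) (.e (nat_lit 352000) (nat_lit 0) .nil))))))) (.g (nat_lit 5) .nil .nil))) 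
(.lf (nat_lit 95401) (.g (nat_lit 3229) (.e (nat_lit 2668) (nat_lit 167) (.e (nat_lit 196666) (nat_lit 13) (.e (nat_lit 65610) (nat_lit 10) (.e (nat_lit 344129) (nat_lit 26) (.e (nat_lit 557074) (nat_lit 9) (.e (nat_lit 7936) (nat_lit 22) (.e (nat_lit 352000) (nat_lit 0) .nil))))))) (.g (nat_lit 5) .nil .nil)))) (.nd (nat_lit 5) 
(.lf (nat_lit 95385) (.g (nat_lit 4773) (.e (nat_lit 2668) (nat_lit 167) (.e (nat_lit 196666) (nat_lit 13) (.e (nat_lit 65610) (nat_lit 10) (.e (nat_lit 344129) (nat_lit 26) (.e (nat_lit 557067) (nat_lit 9) (.e (nat_lit 290) (nat_lit 21) (.e (nat_lit 335894) (nat_lit 0) (.e (nat_lit 6619) (nat_lit 357) .nil)))))))) (.g (nat_lit 0) .nil .nil))) 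
(.lf (nat_lit 95417) (.g (nat_lit 3237) (.e (nat_lit 2668) (nat_lit 167) (.e (nat_lit 196666) (nat_lit 13) (.e (nat_lit 65617) (nat_lit 10) (.e (nat_lit 344127) (nat_lit 26) (.e (nat_lit 557067) (nat_lit 9) (.e (nat_lit 214) (nat_lit 19) (.e (nat_lit 319491) (nat_lit 0) (.e (nat_lit 5626) (nat_lit 312) .nil)))))))) (.g (nat_lit 5) .nil .nil)))))) (.nd (nat_lit 3) (.nd (nat_lit 4) (.nd (nat_lit 5) 
(.lf (nat_lit 95365) (.g (nat_lit 2173) (.e (nat_lit 2668) (nat_lit 167) (.e (nat_lit 196666) (nat_lit 13) (.e (nat_lit 65610) (nat_lit 10) (.e (nat_lit 344129) (nat_lit 26) (.e (nat_lit 557065) (nat_lit 9) (.e (nat_lit 304) (nat_lit 22) (.e (nat_lit 352000) (nat_lit 0) .nil))))))) (.g (nat_lit 4) .nil .nil))) 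
(.lf (nat_lit 95397) (.g (nat_lit 3537) (.e (nat_lit 2668) (nat_lit 167) (.e (nat_lit 196666) (nat_lit 13) (.e (nat_lit 65610) (nat_lit 10) (.e (nat_lit 344129) (nat_lit 26) (.e (nat_lit 557074) (nat_lit 9) (.e (nat_lit 284) (nat_lit 21) (.e (nat_lit 335893) (nat_lit 0) (.e (nat_lit 6619) (nat_lit 357) .nil)))))))) (.g (nat_lit 6) .nil .nil)))) (.nd (nat_lit 5) 
(.lf (nat_lit 95381) (.g (nat_lit 4604) (.e (nat_lit 2668) (nat_lit 167) (.e (nat_lit 196666) (nat_lit 13) (.e (nat_lit 65610) (nat_lit 10) (.e (nat_lit 344129) (nat_lit 26) (.e (nat_lit 557067) (nat_lit 9) (.e (nat_lit 220) (nat_lit 20) (.e (nat_lit 327683) (nat_lit 0) (.e (nat_lit 5627) (nat_lit 312) .nil)))))))) (.g (nat_lit 0) .nil .nil))) 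
(.lf (nat_lit 95413) (.g (nat_lit 2697) (.e (nat_lit 2668) (nat_lit 167) (.e (nat_lit 196666) (nat_lit 13) (.e (nat_lit 65617) (nat_lit 10) (.e (nat_lit 344127) (nat_lit 26) (.e (nat_lit 557066) (nat_lit 9) (.e (nat_lit 293) (nat_lit 21) (.e (nat_lit 335872) (nat_lit 0) (.e (nat_lit 6618) (nat_lit 357) .nil)))))))) (.g (nat_lit 5) .nil .nil))))) (.nd (nat_lit 4) (.nd (nat_lit 5) 
(.lf (nat_lit 95373) (.g (nat_lit 4351) (.e (nat_lit 2668) (nat_lit 167) (.e (nat_lit 196666) (nat_lit 13) (.e (nat_lit 65610) (nat_lit 10) (.e (nat_lit 344129) (nat_lit 26) (.e (nat_lit 557066) (nat_lit 9) (.e (nat_lit 328) (nat_lit 25) (.e (nat_lit 376576) (nat_lit 0) .nil))))))) (.g (nat_lit 6) .nil .nil))) 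
(.lf (nat_lit 95405) (.g (nat_lit 2348) (.e (nat_lit 2668) (nat_lit 167) (.e (nat_lit 196666) (nat_lit 13) (.e (nat_lit 65617) (nat_lit 10) (.e (nat_lit 344096) (nat_lit 18) (.e (nat_lit 3928) (nat_lit 239) (.e (nat_lit 1206) (nat_lit 89) (.e (nat_lit 81664) (nat_lit 32) .nil))))))) (.g (nat_lit 5) .nil .nil)))) (.nd (nat_lit 5) 
(.lf (nat_lit 95389) (.g (nat_lit 2601) (.e (nat_lit 2668) (nat_lit 167) (.e (nat_lit 196666) (nat_lit 13) (.e (nat_lit 65610) (nat_lit 10) (.e (nat_lit 344129) (nat_lit 26) (.e (nat_lit 557067) (nat_lit 9) (.e (nat_lit 7936) (nat_lit 21) (.e (nat_lit 335877) (nat_lit 0) (.e (nat_lit 6618) (nat_lit 357) .nil)))))))) (.g (nat_lit 4) .nil .nil))) 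
(.lf (nat_lit 95421) (.g (nat_lit 1991) (.e (nat_lit 2668) (nat_lit 167) (.e (nat_lit 196666) (nat_lit 13) (.e (nat_lit 65617) (nat_lit 10) (.e (nat_lit 344130) (nat_lit 26) (.e (nat_lit 557064) (nat_lit 9) (.e (nat_lit 327) (nat_lit 25) (.e (nat_lit 376576) (nat_lit 0) .nil))))))) (.g (nat_lit 4) .nil .nil))))))) (.nd (nat_lit 2) (.nd (nat_lit 3) (.nd (nat_lit 4) (.nd (nat_lit 5) 
(.lf (nat_lit 95363) (.g (nat_lit 2012) (.e (nat_lit 2668) (nat_lit 167) (.e (nat_lit 196666) (nat_lit 13) (.e (nat_lit 65610) (nat_lit 10) (.e (nat_lit 344120) (nat_lit 21) .nil)))) .nil)) 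
(.lf (nat_lit 95395) (.g (nat_lit 3101) (.e (nat_lit 2668) (nat_lit 167) (.e (nat_lit 196666) (nat_lit 13) (.e (nat_lit 65610) (nat_lit 10) (.e (nat_lit 344129) (nat_lit 26) (.e (nat_lit 557074) (nat_lit 9) (.e (nat_lit 278) (nat_lit 21) (.e (nat_lit 335876) (nat_lit 0) (.e (nat_lit 6618) (nat_lit 357) .nil)))))))) (.g (nat_lit 4) .nil .nil)))) (.nd (nat_lit 5) 
(.lf (nat_lit 95379) (.g (nat_lit 4422) (.e (nat_lit 2668) (nat_lit 167) (.e (nat_lit 196666) (nat_lit 13) (.e (nat_lit 65610) (nat_lit 10) (.e (nat_lit 344129) (nat_lit 26) (.e (nat_lit 557067) (nat_lit 9) (.e (nat_lit 220) (nat_lit 20) (.e (nat_lit 327681) (nat_lit 0) (.e (nat_lit 5627) (nat_lit 312) .nil)))))))) (.g (nat_lit 0) .nil .nil))) 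
(.lf (nat_lit 95411) (.g (nat_lit 1399) (.e (nat_lit 2668) (nat_lit 167) (.e (nat_lit 196666) (nat_lit 13) (.e (nat_lit 65617) (nat_lit 10) (.e (nat_lit 344119) (nat_lit 21) .nil)))) .nil)))) (.nd (nat_lit 4) (.nd (nat_lit 5) 
(.lf (nat_lit 95371) (.g (nat_lit 3456) (.e (nat_lit 2668) (nat_lit 167) (.e (nat_lit 196666) (nat_lit 13) (.e (nat_lit 65610) (nat_lit 10) (.e (nat_lit 344129) (nat_lit 26) (.e (nat_lit 557066) (nat_lit 9) (.e (nat_lit 307) (nat_lit 22) (.e (nat_lit 352000) (nat_lit 0) .nil))))))) (.g (nat_lit 6) .nil .nil))) 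
(.lf (nat_lit 95403) (.g (nat_lit 2174) (.e (nat_lit 2668) (nat_lit 167) (.e (nat_lit 196666) (nat_lit 13) (.e (nat_lit 65617) (nat_lit 10) (.e (nat_lit 344091) (nat_lit 18) (.e (nat_lit 3928) (nat_lit 239) (.e (nat_lit 1206) (nat_lit 89) (.e (nat_lit 81664) (nat_lit 32) .nil))))))) (.g (nat_lit 4) .nil .nil)))) (.nd (nat_lit 5) 
(.lf (nat_lit 95387) (.g (nat_lit 2691) (.e (nat_lit 2668) (nat_lit 167) (.e (nat_lit 196666) (nat_lit 13) (.e (nat_lit 65610) (nat_lit 10) (.e (nat_lit 344129) (nat_lit 26) (.e (nat_lit 557067) (nat_lit 9) (.e (nat_lit 7936) (nat_lit 21) (.e (nat_lit 335872) (nat_lit 0) (.e (nat_lit 6618) (nat_lit 357) .nil)))))))) (.g (nat_lit 4) .nil .nil))) 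
(.lf (nat_lit 95419) (.g (nat_lit 2196) (.e (nat_lit 2668) (nat_lit 167) (.e (nat_lit 196666) (nat_lit 13) (.e (nat_lit 65617) (nat_lit 10) (.e (nat_lit 344127) (nat_lit 26) (.e (nat_lit 557072) (nat_lit 9) (.e (nat_lit 290) (nat_lit 21) (.e (nat_lit 335895) (nat_lit 0) (.e (nat_lit 6619) (nat_lit 357) .nil)))))))) (.g (nat_lit 4) .nil .nil)))))) (.nd (nat_lit 3) (.nd (nat_lit 4) (.nd (nat_lit 5) 
(.lf (nat_lit 95367) (.g (nat_lit 4364) (.e (nat_lit 2668) (nat_lit 167) (.e (nat_lit 196666) (nat_lit 13) (.e (nat_lit 65610) (nat_lit 10) (.e (nat_lit 344129) (nat_lit 26) (.e (nat_lit 557066) (nat_lit 9) (.e (nat_lit 232) (nat_lit 21) (.e (nat_lit 335907) (nat_lit 0) (.e (nat_lit 7936) (nat_lit 357) .nil)))))))) (.g (nat_lit 7) .nil .nil))) 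
(.lf (nat_lit 95399) (.g (nat_lit 3051) (.e (nat_lit 2668) (nat_lit 167) (.e (nat_lit 196666) (nat_lit 13) (.e (nat_lit 65610) (nat_lit 10) (.e (nat_lit 344129) (nat_lit 26) (.e (nat_lit 557074) (nat_lit 9) (.e (nat_lit 7936) (nat_lit 21) (.e (nat_lit 335876) (nat_lit 0) (.e (nat_lit 6618) (nat_lit 357) .nil)))))))) (.g (nat_lit 4) .nil .nil)))) (.nd (nat_lit 5) 
(.lf (nat_lit 95383) (.g (nat_lit 4459) (.e (nat_lit 2668) (nat_lit 167) (.e (nat_lit 196666) (nat_lit 13) (.e (nat_lit 65610) (nat_lit 10) (.e (nat_lit 344129) (nat_lit 26) (.e (nat_lit 557067) (nat_lit 9) (.e (nat_lit 288) (nat_lit 21) (.e (nat_lit 335877) (nat_lit 0) (.e (nat_lit 6618) (nat_lit 357) .nil)))))))) (.g (nat_lit 0) .nil .nil))) 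
(.lf (nat_lit 95415) (.g (nat_lit 2680) (.e (nat_lit 2668) (nat_lit 167) (.e (nat_lit 196666) (nat_lit 13) (.e (nat_lit 65617) (nat_lit 10) (.e (nat_lit 344127) (nat_lit 26) (.e (nat_lit 557066) (nat_lit 9) (.e (nat_lit 297) (nat_lit 22) (.e (nat_lit 352000) (nat_lit 0) .nil))))))) (.g (nat_lit 5) .nil .nil))))) (.nd (nat_lit 4) (.nd (nat_lit 5) 
(.lf (nat_lit 95375) (.g (nat_lit 5888) (.e (nat_lit 2668) (nat_lit 167) (.e (nat_lit 196666) (nat_lit 13) (.e (nat_lit 65610) (nat_lit 10) (.e (nat_lit 344129) (nat_lit 26) (.e (nat_lit 557067) (nat_lit 9) (.e (nat_lit 214) (nat_lit 19) (.e (nat_lit 319490) (nat_lit 0) (.e (nat_lit 5626) (nat_lit 312) .nil)))))))) (.g (nat_lit 0) .nil .nil))) 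
(.lf (nat_lit 95407) (.g (nat_lit 1338) (.e (nat_lit 2668) (nat_lit 167) (.e (nat_lit 196666) (nat_lit 13) (.e (nat_lit 65617) (nat_lit 10) (.e (nat_lit 344116) (nat_lit 21) .nil)))) .nil))) (.nd (nat_lit 5) 
(.lf (nat_lit 95391) (.g (nat_lit 3486) (.e (nat_lit 2668) (nat_lit 167) (.e (nat_lit 196666) (nat_lit 13) (.e (nat_lit 65610) (nat_lit 10) (.e (nat_lit 344129) (nat_lit 26) (.e (nat_lit 557067) (nat_lit 9) (.e (nat_lit 7936) (nat_lit 25) (.e (nat_lit 376576) (nat_lit 0) .nil))))))) (.g (nat_lit 5) .nil .nil))) 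
(.lf (nat_lit 95423) (.g (nat_lit 3134) (.e (nat_lit 2668) (nat_lit 167) (.e (nat_lit 196666) (nat_lit 13) (.e (nat_lit 65617) (nat_lit 10) (.e (nat_lit 344130) (nat_lit 26) (.e (nat_lit 557065) (nat_lit 9) (.e (nat_lit 304) (nat_lit 22) (.e (nat_lit 352000) (nat_lit 0) .nil))))))) (.g (nat_lit 6) .nil .nil)))))))))

noncomputable def tv1310 : DT := (.nd (nat_lit 0) (.nd (nat_lit 1) (.nd (nat_lit 2) (.nd (nat_lit 3) (.nd (nat_lit 4) (.nd (nat_lit 5) 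
(.lf (nat_lit 95424) (.g (nat_lit 3230) (.e (nat_lit 2668) (nat_lit 167) (.e (nat_lit 196666) (nat_lit 13) (.e (nat_lit 65617) (nat_lit 10) (.e (nat_lit 344130) (nat_lit 26) (.e (nat_lit 557065) (nat_lit 9) (.e (nat_lit 328) (nat_lit 25) (.e (nat_lit 376576) (nat_lit 0) .nil))))))) (.g (nat_lit 6) .nil .nil))) 
(.lf (nat_lit 95456) (.g (nat_lit 3126) (.e (nat_lit 2668) (nat_lit 167) (.e (nat_lit 196666) (nat_lit 13) (.e (nat_lit 65617) (nat_lit 10) (.e (nat_lit 344132) (nat_lit 26) (.e (nat_lit 557072) (nat_lit 9) (.e (nat_lit 288) (nat_lit 21) (.e (nat_lit 335877) (nat_lit 0) (.e (nat_lit 6618) (nat_lit 357) .nil)))))))) (.g (nat_lit 5) .nil .nil)))) (.nd (nat_lit 5) 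
(.lf (nat_lit 95440) (.g (nat_lit 2920) (.e (nat_lit 2668) (nat_lit 167) (.e (nat_lit 196666) (nat_lit 13) (.e (nat_lit 65617) (nat_lit 10) (.e (nat_lit 344130) (nat_lit 26) (.e (nat_lit 557067) (nat_lit 9) (.e (nat_lit 7936) (nat_lit 22) (.e (nat_lit 352000) (nat_lit 0) .nil))))))) (.g (nat_lit 5) .nil .nil))) 
(.lf (nat_lit 95472) (.g (nat_lit 1948) (.e (nat_lit 2668) (nat_lit 167) (.e (nat_lit 196666) (nat_lit 13) (.e (nat_lit 65617) (nat_lit 10) (.e (nat_lit 344133) (nat_lit 26) (.e (nat_lit 557064) (nat_lit 9) .nil))))) .nil)))) (.nd (nat_lit 4) (.nd (nat_lit 5) 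
(.lf (nat_lit 95432) (.g (nat_lit 2573) (.e (nat_lit 2668) (nat_lit 167) (.e (nat_lit 196666) (nat_lit 13) (.e (nat_lit 65617) (nat_lit 10) (.e (nat_lit 344130) (nat_lit 26) (.e (nat_lit 557067) (nat_lit 9) (.e (nat_lit 214) (nat_lit 19) (.e (nat_lit 319491) (nat_lit 0) (.e (nat_lit 5612) (nat_lit 312) .nil)))))))) (.g (nat_lit 4) .nil .nil))) 
(.lf (nat_lit 95464) (.g (nat_lit 3250) (.e (nat_lit 2668) (nat_lit 167) (.e (nat_lit 196666) (nat_lit 13) (.e (nat_lit 65617) (nat_lit 10) (.e (nat_lit 344132) (nat_lit 26) (.e (nat_lit 557073) (nat_lit 9) (.e (nat_lit 220) (nat_lit 20) (.e (nat_lit 327684) (nat_lit 0) (.e (nat_lit 5616) (nat_lit 312) .nil)))))))) (.g (nat_lit 4) .nil .nil)))) (.nd (nat_lit 5) 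
(.lf (nat_lit 95448) (.g (nat_lit 1790) (.e (nat_lit 2668) (nat_lit 167) (.e (nat_lit 196666) (nat_lit 13) (.e (nat_lit 65617) (nat_lit 10) (.e (nat_lit 344130) (nat_lit 26) (.e (nat_lit 557086) (nat_lit 11) .nil))))) .nil)) 
(.lf (nat_lit 95480) (.g (nat_lit 3223) (.e (nat_lit 2668) (nat_lit 167) (.e (nat_lit 196666) (nat_lit 13) (.e (nat_lit 65617) (nat_lit 10) (.e (nat_lit 344133) (nat_lit 26) (.e (nat_lit 557066) (nat_lit 9) (.e (nat_lit 297) (nat_lit 22) (.e (nat_lit 352000) (nat_lit 0) .nil))))))) (.g (nat_lit 6) .nil .nil)))))) (.nd (nat_lit 3) (.nd (nat_lit 4) (.nd (nat_lit 5) 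
(.lf (nat_lit 95428) (.g (nat_lit 3552) (.e (nat_lit 2668) (nat_lit 167) (.e (nat_lit 196666) (nat_lit 13) (.e (nat_lit 65617) (nat_lit 10) (.e (nat_lit 344130) (nat_lit 26) (.e (nat_lit 557066) (nat_lit 9) (.e (nat_lit 304) (nat_lit 22) (.e (nat_lit 352000) (nat_lit 0) .nil))))))) (.g (nat_lit 6) .nil .nil))) 
(.lf (nat_lit 95460) (.g (nat_lit 2658) (.e (nat_lit 2668) (nat_lit 167) (.e (nat_lit 196666) (nat_lit 13) (.e (nat_lit 65617) (nat_lit 10) (.e (nat_lit 344132) (nat_lit 26) (.e (nat_lit 557073) (nat_lit 9) (.e (nat_lit 214) (nat_lit 19) (.e (nat_lit 319490) (nat_lit 0) (.e (nat_lit 5612) (nat_lit 312) .nil)))))))) (.g (nat_lit 4) .nil .nil)))) (.nd (nat_lit 5) 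
(.lf (nat_lit 95444) (.g (nat_lit 3175) (.e (nat_lit 2668) (nat_lit 167) (.e (nat_lit 196666) (nat_lit 13) (.e (nat_lit 65617) (nat_lit 10) (.e (nat_lit 344130) (nat_lit 26) (.e (nat_lit 557074) (nat_lit 9) (.e (nat_lit 278) (nat_lit 21) (.e (nat_lit 335874) (nat_lit 0) (.e (nat_lit 6618) (nat_lit 357) .nil)))))))) (.g (nat_lit 6) .nil .nil))) 
(.lf (nat_lit 95476) (.g (nat_lit 3365) (.e (nat_lit 2668) (nat_lit 167) (.e (nat_lit 196666) (nat_lit 13) (.e (nat_lit 65617) (nat_lit 10) (.e (nat_lit 344133) (nat_lit 26) (.e (nat_lit 557065) (nat_lit 9) (.e (nat_lit 328) (nat_lit 25) (.e (nat_lit 376576) (nat_lit 0) .nil))))))) (.g (nat_lit 6) .nil .nil))))) (.nd (nat_lit 4) (.nd (nat_lit 5) 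
(.lf (nat_lit 95436) (.g (nat_lit 3504) (.e (nat_lit 2668) (nat_lit 167) (.e (nat_lit 196666) (nat_lit 13) (.e (nat_lit 65617) (nat_lit 10) (.e (nat_lit 344130) (nat_lit 26) (.e (nat_lit 557067) (nat_lit 9) (.e (nat_lit 288) (nat_lit 21) (.e (nat_lit 335876) (nat_lit 0) (.e (nat_lit 6618) (nat_lit 357) .nil)))))))) (.g (nat_lit 0) .nil .nil))) 
(.lf (nat_lit 95468) (.g (nat_lit 3836) (.e (nat_lit 2668) (nat_lit 167) (.e (nat_lit 196666) (nat_lit 13) (.e (nat_lit 65617) (nat_lit 10) (.e (nat_lit 344132) (nat_lit 26) (.e (nat_lit 557073) (nat_lit 9) (.e (nat_lit 290) (nat_lit 21) (.e (nat_lit 335892) (nat_lit 0) (.e (nat_lit 6619) (nat_lit 357) .nil)))))))) (.g (nat_lit 0) .nil .nil)))) (.nd (nat_lit 5) 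
(.lf (nat_lit 95452) (.g (nat_lit 3584) (.e (nat_lit 2668) (nat_lit 167) (.e (nat_lit 196666) (nat_lit 13) (.e (nat_lit 65617) (nat_lit 10) (.e (nat_lit 344132) (nat_lit 26) (.e (nat_lit 557072) (nat_lit 9) (.e (nat_lit 220) (nat_lit 20) (.e (nat_lit 327684) (nat_lit 0) (.e (nat_lit 5616) (nat_lit 312) .nil)))))))) (.g (nat_lit 4) .nil .nil))) 
(.lf (nat_lit 95484) (.g (nat_lit 3466) (.e (nat_lit 2668) (nat_lit 167) (.e (nat_lit 196666) (nat_lit 13) (.e (nat_lit 65617) (nat_lit 10) (.e (nat_lit 344133) (nat_lit 26) (.e (nat_lit 557067) (nat_lit 9) (.e (nat_lit 214) (nat_lit 19) (.e (nat_lit 319492) (nat_lit 0) (.e (nat_lit 5626) (nat_lit 312) .nil)))))))) (.g (nat_lit 4) .nil .nil))))))) 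
(.nd (nat_lit 2) (.nd (nat_lit 3) (.nd (nat_lit 4) (.nd (nat_lit 5) 
(.lf (nat_lit 95426) (.g (nat_lit 3665) (.e (nat_lit 2668) (nat_lit 167) (.e (nat_lit 196666) (nat_lit 13) (.e (nat_lit 65617) (nat_lit 10) (.e (nat_lit 344130) (nat_lit 26) (.e (nat_lit 557066) (nat_lit 9) (.e (nat_lit 293) (nat_lit 21) (.e (nat_lit 335874) (nat_lit 0) (.e (nat_lit 6618) (nat_lit 357) .nil)))))))) (.g (nat_lit 0) .nil .nil))) 
(.lf (nat_lit 95458) (.g (nat_lit 3021) (.e (nat_lit 2668) (nat_lit 167) (.e (nat_lit 196666) (nat_lit 13) (.e (nat_lit 65617) (nat_lit 10) (.e (nat_lit 344132) (nat_lit 26) (.e (nat_lit 557072) (nat_lit 9) (.e (nat_lit 7936) (nat_lit 22) (.e (nat_lit 352000) (nat_lit 0) .nil))))))) (.g (nat_lit 5) .nil .nil)))) (.nd (nat_lit 5) 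
(.lf (nat_lit 95442) (.g (nat_lit 1992) (.e (nat_lit 2668) (nat_lit 167) (.e (nat_lit 196666) (nat_lit 13) (.e (nat_lit 65617) (nat_lit 10) (.e (nat_lit 344130) (nat_lit 26) (.e (nat_lit 557070) (nat_lit 9) (.e (nat_lit 296) (nat_lit 22) (.e (nat_lit 352000) (nat_lit 0) .nil))))))) (.g (nat_lit 4) .nil .nil))) 
(.lf (nat_lit 95474) (.g (nat_lit 3052) (.e (nat_lit 2668) (nat_lit 167) (.e (nat_lit 196666) (nat_lit 13) (.e (nat_lit 65617) (nat_lit 10) (.e (nat_lit 344133) (nat_lit 26) (.e (nat_lit 557065) (nat_lit 9) (.e (nat_lit 304) (nat_lit 22) (.e (nat_lit 352000) (nat_lit 0) .nil))))))) (.g (nat_lit 5) .nil .nil))))) (.nd (nat_lit 4) (.nd (nat_lit 5) 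
(.lf (nat_lit 95434) (.g (nat_lit 4272) (.e (nat_lit 2668) (nat_lit 167) (.e (nat_lit 196666) (nat_lit 13) (.e (nat_lit 65617) (nat_lit 10) (.e (nat_lit 344130) (nat_lit 26) (.e (nat_lit 557067) (nat_lit 9) (.e (nat_lit 220) (nat_lit 20) (.e (nat_lit 327684) (nat_lit 0) (.e (nat_lit 5627) (nat_lit 312) .nil)))))))) (.g (nat_lit 0) .nil .nil))) 
(.lf (nat_lit 95466) (.g (nat_lit 3043) (.e (nat_lit 2668) (nat_lit 167) (.e (nat_lit 196666) (nat_lit 13) (.e (nat_lit 65617) (nat_lit 10) (.e (nat_lit 344132) (nat_lit 26) (.e (nat_lit 557073) (nat_lit 9) (.e (nat_lit 288) (nat_lit 21) (.e (nat_lit 335872) (nat_lit 0) (.e (nat_lit 6618) (nat_lit 357) .nil)))))))) (.g (nat_lit 0) .nil .nil)))) (.nd (nat_lit 5) 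
(.lf (nat_lit 95450) (.g (nat_lit 3059) (.e (nat_lit 2668) (nat_lit 167) (.e (nat_lit 196666) (nat_lit 13) (.e (nat_lit 65617) (nat_lit 10) (.e (nat_lit 344132) (nat_lit 26) (.e (nat_lit 557072) (nat_lit 9) (.e (nat_lit 214) (nat_lit 19) (.e (nat_lit 319493) (nat_lit 0) (.e (nat_lit 5626) (nat_lit 312) .nil)))))))) (.g (nat_lit 4) .nil .nil))) 
(.lf (nat_lit 95482) (.g (nat_lit 3778) (.e (nat_lit 2668) (nat_lit 167) (.e (nat_lit 196666) (nat_lit 13) (.e (nat_lit 65617) (nat_lit 10) (.e (nat_lit 344133) (nat_lit 26) (.e (nat_lit 557067) (nat_lit 9) (.e (nat_lit 214) (nat_lit 19) (.e (nat_lit 319490) (nat_lit 0) (.e (nat_lit 5626) (nat_lit 312) .nil)))))))) (.g (nat_lit 4) .nil .nil)))))) (.nd (nat_lit 3) (.nd (nat_lit 4) (.nd (nat_lit 5) 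
(.lf (nat_lit 95430) (.g (nat_lit 3480) (.e (nat_lit 2668) (nat_lit 167) (.e (nat_lit 196666) (nat_lit 13) (.e (nat_lit 65617) (nat_lit 10) (.e (nat_lit 344130) (nat_lit 26) (.e (nat_lit 557066) (nat_lit 9) (.e (nat_lit 328) (nat_lit 25) (.e (nat_lit 376576) (nat_lit 0) .nil))))))) (.g (nat_lit 6) .nil .nil))) 
(.lf (nat_lit 95462) (.g (nat_lit 3091) (.e (nat_lit 2668) (nat_lit 167) (.e (nat_lit 196666) (nat_lit 13) (.e (nat_lit 65617) (nat_lit 10) (.e (nat_lit 344132) (nat_lit 26) (.e (nat_lit 557073) (nat_lit 9) (.e (nat_lit 220) (nat_lit 20) (.e (nat_lit 327683) (nat_lit 0) (.e (nat_lit 5616) (nat_lit 312) .nil)))))))) (.g (nat_lit 4) .nil .nil)))) (.nd (nat_lit 5) 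
(.lf (nat_lit 95446) (.g (nat_lit 2705) (.e (nat_lit 2668) (nat_lit 167) (.e (nat_lit 196666) (nat_lit 13) (.e (nat_lit 65617) (nat_lit 10) (.e (nat_lit 344130) (nat_lit 26) (.e (nat_lit 557074) (nat_lit 9) (.e (nat_lit 284) (nat_lit 21) (.e (nat_lit 335893) (nat_lit 0) (.e (nat_lit 6619) (nat_lit 357) .nil)))))))) (.g (nat_lit 4) .nil .nil))) 
(.lf (nat_lit 95478) (.g (nat_lit 1937) (.e (nat_lit 2668) (nat_lit 167) (.e (nat_lit 196666) (nat_lit 13) (.e (nat_lit 65617) (nat_lit 10) (.e (nat_lit 344133) (nat_lit 26) (.e (nat_lit 557066) (nat_lit 9) .nil))))) .nil)))) (.nd (nat_lit 4) (.nd (nat_lit 5) 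
(.lf (nat_lit 95438) (.g (nat_lit 2141) (.e (nat_lit 2668) (nat_lit 167) (.e (nat_lit 196666) (nat_lit 13) (.e (nat_lit 65617) (nat_lit 10) (.e (nat_lit 344130) (nat_lit 26) (.e (nat_lit 557067) (nat_lit 9) (.e (nat_lit 7936) (nat_lit 21) (.e (nat_lit 335874) (nat_lit 0) (.e (nat_lit 6618) (nat_lit 357) .nil)))))))) (.g (nat_lit 4) .nil .nil))) 
(.lf (nat_lit 95470) (.g (nat_lit 2711) (.e (nat_lit 2668) (nat_lit 167) (.e (nat_lit 196666) (nat_lit 13) (.e (nat_lit 65617) (nat_lit 10) (.e (nat_lit 344132) (nat_lit 26) (.e (nat_lit 557073) (nat_lit 9) (.e (nat_lit 7936) (nat_lit 22) (.e (nat_lit 352000) (nat_lit 0) .nil))))))) (.g (nat_lit 5) .nil .nil)))) (.nd (nat_lit 5) 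
(.lf (nat_lit 95454) (.g (nat_lit 3142) (.e (nat_lit 2668) (nat_lit 167) (.e (nat_lit 196666) (nat_lit 13) (.e (nat_lit 65617) (nat_lit 10) (.e (nat_lit 344132) (nat_lit 26) (.e (nat_lit 557072) (nat_lit 9) (.e (nat_lit 288) (nat_lit 21) (.e (nat_lit 335874) (nat_lit 0) (.e (nat_lit 6618) (nat_lit 357) .nil)))))))) (.g (nat_lit 5) .nil .nil))) 
(.lf (nat_lit 95486) (.g (nat_lit 3911) (.e (nat_lit 2668) (nat_lit 167) (.e (nat_lit 196666) (nat_lit 13) (.e (nat_lit 65617) (nat_lit 10) (.e (nat_lit 344133) (nat_lit 26) (.e (nat_lit 557068) (nat_lit 9) (.e (nat_lit 220) (nat_lit 20) (.e (nat_lit 327681) (nat_lit 0) (.e (nat_lit 5627) (nat_lit 312) .nil)))))))) (.g (nat_lit 0) .nil .nil)))))))) 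
(.nd (nat_lit 1) (.nd (nat_lit 2) (.nd (nat_lit 3) (.nd (nat_lit 4) (.nd (nat_lit 5) 
(.lf (nat_lit 95425) (.g (nat_lit 3793) (.e (nat_lit 2668) (nat_lit 167) (.e (nat_lit 196666) (nat_lit 13) (.e (nat_lit 65617) (nat_lit 10) (.e (nat_lit 344130) (nat_lit 26) (.e (nat_lit 557066) (nat_lit 9) (.e (nat_lit 293) (nat_lit 21) (.e (nat_lit 335872) (nat_lit 0) (.e (nat_lit 6618) (nat_lit 357) .nil)))))))) (.g (nat_lit 0) .nil .nil))) 
(.lf (nat_lit 95457) (.g (nat_lit 3443) (.e (nat_lit 2668) (nat_lit 167) (.e (nat_lit 196666) (nat_lit 13) (.e (nat_lit 65617) (nat_lit 10) (.e (nat_lit 344132) (nat_lit 26) (.e (nat_lit 557072) (nat_lit 9) (.e (nat_lit 290) (nat_lit 21) (.e (nat_lit 335894) (nat_lit 0) (.e (nat_lit 6617) (nat_lit 357) .nil)))))))) (.g (nat_lit 4) .nil .nil)))) (.nd (nat_lit 5) 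
(.lf (nat_lit 95441) (.g (nat_lit 2920) (.e (nat_lit 2668) (nat_lit 167) (.e (nat_lit 196666) (nat_lit 13) (.e (nat_lit 65617) (nat_lit 10) (.e (nat_lit 344130) (nat_lit 26) (.e (nat_lit 557067) (nat_lit 9) (.e (nat_lit 7936) (nat_lit 25) (.e (nat_lit 376576) (nat_lit 0) .nil))))))) (.g (nat_lit 5) .nil .nil))) 
(.lf (nat_lit 95473) (.g (nat_lit 1984) (.e (nat_lit 2668) (nat_lit 167) (.e (nat_lit 196666) (nat_lit 13) (.e (nat_lit 65617) (nat_lit 10) (.e (nat_lit 344133) (nat_lit 26) (.e (nat_lit 557065) (nat_lit 9) .nil))))) .nil)))) (.nd (nat_lit 4) (.nd (nat_lit 5) 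
(.lf (nat_lit 95433) (.g (nat_lit 3695) (.e (nat_lit 2668) (nat_lit 167) (.e (nat_lit 196666) (nat_lit 13) (.e (nat_lit 65617) (nat_lit 10) (.e (nat_lit 344130) (nat_lit 26) (.e (nat_lit 557067) (nat_lit 9) (.e (nat_lit 220) (nat_lit 20) (.e (nat_lit 327684) (nat_lit 0) (.e (nat_lit 5616) (nat_lit 312) .nil)))))))) (.g (nat_lit 5) .nil .nil))) 
(.lf (nat_lit 95465) (.g (nat_lit 3832) (.e (nat_lit 2668) (nat_lit 167) (.e (nat_lit 196666) (nat_lit 13) (.e (nat_lit 65617) (nat_lit 10) (.e (nat_lit 344132) (nat_lit 26) (.e (nat_lit 557073) (nat_lit 9) (.e (nat_lit 220) (nat_lit 20) (.e (nat_lit 327684) (nat_lit 0) (.e (nat_lit 5627) (nat_lit 312) .nil)))))))) (.g (nat_lit 0) .nil .nil)))) (.nd (nat_lit 5) 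
(.lf (nat_lit 95449) (.g (nat_lit 3248) (.e (nat_lit 2668) (nat_lit 167) (.e (nat_lit 196666) (nat_lit 13) (.e (nat_lit 65617) (nat_lit 10) (.e (nat_lit 344132) (nat_lit 26) (.e (nat_lit 557072) (nat_lit 9) (.e (nat_lit 214) (nat_lit 19) (.e (nat_lit 319491) (nat_lit 0) (.e (nat_lit 5626) (nat_lit 312) .nil)))))))) (.g (nat_lit 4) .nil .nil))) 
(.lf (nat_lit 95481) (.g (nat_lit 3136) (.e (nat_lit 2668) (nat_lit 167) (.e (nat_lit 196666) (nat_lit 13) (.e (nat_lit 65617) (nat_lit 10) (.e (nat_lit 344133) (nat_lit 26) (.e (nat_lit 557066) (nat_lit 9) (.e (nat_lit 328) (nat_lit 25) (.e (nat_lit 376576) (nat_lit 0) .nil))))))) (.g (nat_lit 6) .nil .nil)))))) (.nd (nat_lit 3) (.nd (nat_lit 4) (.nd (nat_lit 5) 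
(.lf (nat_lit 95429) (.g (nat_lit 2739) (.e (nat_lit 2668) (nat_lit 167) (.e (nat_lit 196666) (nat_lit 13) (.e (nat_lit 65617) (nat_lit 10) (.e (nat_lit 344130) (nat_lit 26) (.e (nat_lit 557066) (nat_lit 9) (.e (nat_lit 307) (nat_lit 22) (.e (nat_lit 352000) (nat_lit 0) .nil))))))) (.g (nat_lit 5) .nil .nil))) 
(.lf (nat_lit 95461) (.g (nat_lit 3501) (.e (nat_lit 2668) (nat_lit 167) (.e (nat_lit 196666) (nat_lit 13) (.e (nat_lit 65617) (nat_lit 10) (.e (nat_lit 344132) (nat_lit 26) (.e (nat_lit 557073) (nat_lit 9) (.e (nat_lit 220) (nat_lit 20) (.e (nat_lit 327681) (nat_lit 0) (.e (nat_lit 5627) (nat_lit 312) .nil)))))))) (.g (nat_lit 0) .nil .nil)))) (.nd (nat_lit 5) 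
(.lf (nat_lit 95445) (.g (nat_lit 2127) (.e (nat_lit 2668) (nat_lit 167) (.e (nat_lit 196666) (nat_lit 13) (.e (nat_lit 65617) (nat_lit 10) (.e (nat_lit 344130) (nat_lit 26) (.e (nat_lit 557074) (nat_lit 9) (.e (nat_lit 278) (nat_lit 21) (.e (nat_lit 335877) (nat_lit 0) (.e (nat_lit 6618) (nat_lit 357) .nil)))))))) (.g (nat_lit 4) .nil .nil))) 
(.lf (nat_lit 95477) (.g (nat_lit 2327) (.e (nat_lit 2668) (nat_lit 167) (.e (nat_lit 196666) (nat_lit 13) (.e (nat_lit 65617) (nat_lit 10) (.e (nat_lit 344133) (nat_lit 26) (.e (nat_lit 557065) (nat_lit 9) (.e (nat_lit 330) (nat_lit 25) (.e (nat_lit 376576) (nat_lit 0) .nil))))))) (.g (nat_lit 4) .nil .nil))))) (.nd (nat_lit 4) (.nd (nat_lit 5) 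
(.lf (nat_lit 95437) (.g (nat_lit 2036) (.e (nat_lit 2668) (nat_lit 167) (.e (nat_lit 196666) (nat_lit 13) (.e (nat_lit 65617) (nat_lit 10) (.e (nat_lit 344130) (nat_lit 26) (.e (nat_lit 557067) (nat_lit 9) (.e (nat_lit 7936) (nat_lit 21) (.e (nat_lit 335872) (nat_lit 0) (.e (nat_lit 6618) (nat_lit 357) .nil)))))))) (.g (nat_lit 4) .nil .nil))) 
(.lf (nat_lit 95469) (.g (nat_lit 3119) (.e (nat_lit 2668) (nat_lit 167) (.e (nat_lit 196666) (nat_lit 13) (.e (nat_lit 65617) (nat_lit 10) (.e (nat_lit 344132) (nat_lit 26) (.e (nat_lit 557073) (nat_lit 9) (.e (nat_lit 290) (nat_lit 21) (.e (nat_lit 335894) (nat_lit 0) (.e (nat_lit 6617) (nat_lit 357) .nil)))))))) (.g (nat_lit 4) .nil .nil)))) (.nd (nat_lit 5) 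
(.lf (nat_lit 95453) (.g (nat_lit 4170) (.e (nat_lit 2668) (nat_lit 167) (.e (nat_lit 196666) (nat_lit 13) (.e (nat_lit 65617) (nat_lit 10) (.e (nat_lit 344132) (nat_lit 26) (.e (nat_lit 557072) (nat_lit 9) (.e (nat_lit 220) (nat_lit 20) (.e (nat_lit 327684) (nat_lit 0) (.e (nat_lit 5627) (nat_lit 312) .nil)))))))) (.g (nat_lit 0) .nil .nil))) 
(.lf (nat_lit 95485) (.g (nat_lit 2456) (.e (nat_lit 2668) (nat_lit 167) (.e (nat_lit 196666) (nat_lit 13) (.e (nat_lit 65617) (nat_lit 10) (.e (nat_lit 344133) (nat_lit 26) (.e (nat_lit 557068) (nat_lit 9) (.e (nat_lit 214) (nat_lit 19) (.e (nat_lit 319491) (nat_lit 0) (.e (nat_lit 5612) (nat_lit 312) .nil)))))))) (.g (nat_lit 4) .nil .nil))))))) 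
(.nd (nat_lit 2) (.nd (nat_lit 3) (.nd (nat_lit 4) (.nd (nat_lit 5) 
(.lf (nat_lit 95427) (.g (nat_lit 3610) (.e (nat_lit 2668) (nat_lit 167) (.e (nat_lit 196666) (nat_lit 13) (.e (nat_lit 65617) (nat_lit 10) (.e (nat_lit 344130) (nat_lit 26) (.e (nat_lit 557066) (nat_lit 9) (.e (nat_lit 297) (nat_lit 22) (.e (nat_lit 352000) (nat_lit 0) .nil))))))) (.g (nat_lit 6) .nil .nil))) 
(.lf (nat_lit 95459) (.g (nat_lit 2646) (.e (nat_lit 2668) (nat_lit 167) (.e (nat_lit 196666) (nat_lit 13) (.e (nat_lit 65617) (nat_lit 10) (.e (nat_lit 344132) (nat_lit 26) (.e (nat_lit 557072) (nat_lit 9) (.e (nat_lit 7936) (nat_lit 25) (.e (nat_lit 376576) (nat_lit 0) .nil))))))) (.g (nat_lit 5) .nil .nil)))) (.nd (nat_lit 5) 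
(.lf (nat_lit 95443) (.g (nat_lit 3141) (.e (nat_lit 2668) (nat_lit 167) (.e (nat_lit 196666) (nat_lit 13) (.e (nat_lit 65617) (nat_lit 10) (.e (nat_lit 344130) (nat_lit 26) (.e (nat_lit 557074) (nat_lit 9) (.e (nat_lit 278) (nat_lit 21) (.e (nat_lit 335872) (nat_lit 0) (.e (nat_lit 6618) (nat_lit 357) .nil)))))))) (.g (nat_lit 6) .nil .nil))) 
(.lf (nat_lit 95475) (.g (nat_lit 2284) (.e (nat_lit 2668) (nat_lit 167) (.e (nat_lit 196666) (nat_lit 13) (.e (nat_lit 65617) (nat_lit 10) (.e (nat_lit 344133) (nat_lit 26) (.e (nat_lit 557065) (nat_lit 9) (.e (nat_lit 307) (nat_lit 22) (.e (nat_lit 352000) (nat_lit 0) .nil))))))) (.g (nat_lit 4) .nil .nil))))) (.nd (nat_lit 4) (.nd (nat_lit 5) 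
(.lf (nat_lit 95435) (.g (nat_lit 3552) (.e (nat_lit 2668) (nat_lit 167) (.e (nat_lit 196666) (nat_lit 13) (.e (nat_lit 65617) (nat_lit 10) (.e (nat_lit 344130) (nat_lit 26) (.e (nat_lit 557067) (nat_lit 9) (.e (nat_lit 288) (nat_lit 21) (.e (nat_lit 335872) (nat_lit 0) (.e (nat_lit 6618) (nat_lit 357) .nil)))))))) (.g (nat_lit 0) .nil .nil))) 
(.lf (nat_lit 95467) (.g (nat_lit 3001) (.e (nat_lit 2668) (nat_lit 167) (.e (nat_lit 196666) (nat_lit 13) (.e (nat_lit 65617) (nat_lit 10) (.e (nat_lit 344132) (nat_lit 26) (.e (nat_lit 557073) (nat_lit 9) (.e (nat_lit 288) (nat_lit 21) (.e (nat_lit 335876) (nat_lit 0) (.e (nat_lit 6618) (nat_lit 357) .nil)))))))) (.g (nat_lit 0) .nil .nil)))) (.nd (nat_lit 5) 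
(.lf (nat_lit 95451) (.g (nat_lit 3398) (.e (nat_lit 2668) (nat_lit 167) (.e (nat_lit 196666) (nat_lit 13) (.e (nat_lit 65617) (nat_lit 10) (.e (nat_lit 344132) (nat_lit 26) (.e (nat_lit 557072) (nat_lit 9) (.e (nat_lit 220) (nat_lit 20) (.e (nat_lit 327683) (nat_lit 0) (.e (nat_lit 5616) (nat_lit 312) .nil)))))))) (.g (nat_lit 4) .nil .nil))) 
(.lf (nat_lit 95483) (.g (nat_lit 3509) (.e (nat_lit 2668) (nat_lit 167) (.e (nat_lit 196666) (nat_lit 13) (.e (nat_lit 65617) (nat_lit 10) (.e (nat_lit 344133) (nat_lit 26) (.e (nat_lit 557067) (nat_lit 9) (.e (nat_lit 214) (nat_lit 19) (.e (nat_lit 319491) (nat_lit 0) (.e (nat_lit 5626) (nat_lit 312) .nil)))))))) (.g (nat_lit 4) .nil .nil)))))) (.nd (nat_lit 3) (.nd (nat_lit 4) (.nd (nat_lit 5) 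
(.lf (nat_lit 95431) (.g (nat_lit 3153) (.e (nat_lit 2668) (nat_lit 167) (.e (nat_lit 196666) (nat_lit 13) (.e (nat_lit 65617) (nat_lit 10) (.e (nat_lit 344130) (nat_lit 26) (.e (nat_lit 557067) (nat_lit 9) (.e (nat_lit 214) (nat_lit 19) (.e (nat_lit 319490) (nat_lit 0) (.e (nat_lit 5612) (nat_lit 312) .nil)))))))) (.g (nat_lit 5) .nil .nil))) 
(.lf (nat_lit 95463) (.g (nat_lit 3676) (.e (nat_lit 2668) (nat_lit 167) (.e (nat_lit 196666) (nat_lit 13) (.e (nat_lit 65617) (nat_lit 10) (.e (nat_lit 344132) (nat_lit 26) (.e (nat_lit 557073) (nat_lit 9) (.e (nat_lit 220) (nat_lit 20) (.e (nat_lit 327683) (nat_lit 0) (.e (nat_lit 5627) (nat_lit 312) .nil)))))))) (.g (nat_lit 0) .nil .nil)))) (.nd (nat_lit 5) 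
(.lf (nat_lit 95447) (.g (nat_lit 3037) (.e (nat_lit 2668) (nat_lit 167) (.e (nat_lit 196666) (nat_lit 13) (.e (nat_lit 65617) (nat_lit 10) (.e (nat_lit 344130) (nat_lit 26) (.e (nat_lit 557074) (nat_lit 9) (.e (nat_lit 7936) (nat_lit 25) (.e (nat_lit 376576) (nat_lit 0) .nil))))))) (.g (nat_lit 5) .nil .nil))) 
(.lf (nat_lit 95479) (.g (nat_lit 3112) (.e (nat_lit 2668) (nat_lit 167) (.e (nat_lit 196666) (nat_lit 13) (.e (nat_lit 65617) (nat_lit 10) (.e (nat_lit 344133) (nat_lit 26) (.e (nat_lit 557066) (nat_lit 9) (.e (nat_lit 293) (nat_lit 21) (.e (nat_lit 335874) (nat_lit 0) (.e (nat_lit 6618) (nat_lit 357) .nil)))))))) (.g (nat_lit 6) .nil .nil))))) (.nd (nat_lit 4) (.nd (nat_lit 5) 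
(.lf (nat_lit 95439) (.g (nat_lit 1946) (.e (nat_lit 2668) (nat_lit 167) (.e (nat_lit 196666) (nat_lit 13) (.e (nat_lit 65617) (nat_lit 10) (.e (nat_lit 344130) (nat_lit 26) (.e (nat_lit 557067) (nat_lit 9) (.e (nat_lit 7936) (nat_lit 21) (.e (nat_lit 335877) (nat_lit 0) (.e (nat_lit 6618) (nat_lit 357) .nil)))))))) (.g (nat_lit 4) .nil .nil))) 
(.lf (nat_lit 95471) (.g (nat_lit 2711) (.e (nat_lit 2668) (nat_lit 167) (.e (nat_lit 196666) (nat_lit 13) (.e (nat_lit 65617) (nat_lit 10) (.e (nat_lit 344132) (nat_lit 26) (.e (nat_lit 557073) (nat_lit 9) (.e (nat_lit 7936) (nat_lit 25) (.e (nat_lit 376576) (nat_lit 0) .nil))))))) (.g (nat_lit 5) .nil .nil)))) (.nd (nat_lit 5) 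
(.lf (nat_lit 95455) (.g (nat_lit 3129) (.e (nat_lit 2668) (nat_lit 167) (.e (nat_lit 196666) (nat_lit 13) (.e (nat_lit 65617) (nat_lit 10) (.e (nat_lit 344132) (nat_lit 26) (.e (nat_lit 557072) (nat_lit 9) (.e (nat_lit 288) (nat_lit 21) (.e (nat_lit 335876) (nat_lit 0) (.e (nat_lit 6618) (nat_lit 357) .nil)))))))) (.g (nat_lit 5) .nil .nil))) 
(.lf (nat_lit 95487) (.g (nat_lit 3505) (.e (nat_lit 2668) (nat_lit 167) (.e (nat_lit 196666) (nat_lit 13) (.e (nat_lit 65617) (nat_lit 10) (.e (nat_lit 344133) (nat_lit 26) (.e (nat_lit 557068) (nat_lit 9) (.e (nat_lit 220) (nat_lit 20) (.e (nat_lit 327683) (nat_lit 0) (.e (nat_lit 5616) (nat_lit 312) .nil)))))))) (.g (nat_lit 4) .nil .nil)))))))))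

noncomputable def tv1311 : DT := (.nd (nat_lit 0) (.nd (nat_lit 1) (.nd (nat_lit 2) (.nd (nat_lit 3) (.nd (nat_lit 4) (.nd (nat_lit 5) 
(.lf (nat_lit 95488) (.g (nat_lit 4092) (.e (nat_lit 2668) (nat_lit 167) (.e (nat_lit 196666) (nat_lit 13) (.e (nat_lit 65617) (nat_lit 10) (.e (nat_lit 344133) (nat_lit 26) (.e (nat_lit 557068) (nat_lit 9) (.e (nat_lit 220) (nat_lit 20) (.e (nat_lit 327683) (nat_lit 0) (.e (nat_lit 5627) (nat_lit 312) .nil)))))))) (.g (nat_lit 0) .nil .nil))) 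
(.lf (nat_lit 95520) (.g (nat_lit 1595) (.e (nat_lit 2671) (nat_lit 167) (.e (nat_lit 196672) (nat_lit 15) (.e (nat_lit 81954) (nat_lit 23) (.e (nat_lit 98320) (nat_lit 17) .nil)))) .nil))) (.nd (nat_lit 5) 
(.lf (nat_lit 95504) (.g (nat_lit 2853) (.e (nat_lit 2668) (nat_lit 167) (.e (nat_lit 196666) (nat_lit 13) (.e (nat_lit 65617) (nat_lit 10) (.e (nat_lit 344133) (nat_lit 26) (.e (nat_lit 557073) (nat_lit 9) (.e (nat_lit 290) (nat_lit 21) (.e (nat_lit 335895) (nat_lit 0) (.e (nat_lit 6619) (nat_lit 357) .nil)))))))) (.g (nat_lit 4) .nil .nil))) 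
(.lf (nat_lit 95536) (.g (nat_lit 2262) (.e (nat_lit 2675) (nat_lit 168) (.e (nat_lit 204830) (nat_lit 18) (.e (nat_lit 57927) (nat_lit 282) (.e (nat_lit 163868) (nat_lit 2) (.e (nat_lit 196670) (nat_lit 14) .nil))))) .nil)))) (.nd (nat_lit 4) (.nd (nat_lit 5) 
(.lf (nat_lit 95496) (.g (nat_lit 2940) (.e (nat_lit 2668) (nat_lit 167) (.e (nat_lit 196666) (nat_lit 13) (.e (nat_lit 65617) (nat_lit 10) (.e (nat_lit 344133) (nat_lit 26) (.e (nat_lit 557068) (nat_lit 9) (.e (nat_lit 7936) (nat_lit 22) (.e (nat_lit 352000) (nat_lit 0) .nil))))))) (.g (nat_lit 5) .nil .nil))) 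
(.lf (nat_lit 95528) (.g (nat_lit 3115) (.e (nat_lit 2674) (nat_lit 168) (.e (nat_lit 204869) (nat_lit 29) (.e (nat_lit 360475) (nat_lit 8) (.e (nat_lit 557087) (nat_lit 11) .nil)))) .nil))) (.nd (nat_lit 5) 
(.lf (nat_lit 95512) (.g (nat_lit 826) (.e (nat_lit 2668) (nat_lit 167) (.e (nat_lit 196672) (nat_lit 15) (.e (nat_lit 81956) (nat_lit 23) .nil))) .nil)) 
(.lf (nat_lit 95544) (.g (nat_lit 2893) (.e (nat_lit 2676) (nat_lit 168) (.e (nat_lit 204829) (nat_lit 18) (.e (nat_lit 57927) (nat_lit 282) (.e (nat_lit 163867) (nat_lit 2) (.e (nat_lit 196670) (nat_lit 14) .nil))))) .nil))))) (.nd (nat_lit 3) (.nd (nat_lit 4) (.nd (nat_lit 5) 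
(.lf (nat_lit 95492) (.g (nat_lit 3309) (.e (nat_lit 2668) (nat_lit 167) (.e (nat_lit 196666) (nat_lit 13) (.e (nat_lit 65617) (nat_lit 10) (.e (nat_lit 344133) (nat_lit 26) (.e (nat_lit 557068) (nat_lit 9) (.e (nat_lit 288) (nat_lit 21) (.e (nat_lit 335876) (nat_lit 0) (.e (nat_lit 6618) (nat_lit 357) .nil)))))))) (.g (nat_lit 0) .nil .nil))) 
(.lf (nat_lit 95524) (.g (nat_lit 2651) (.e (nat_lit 7936) (nat_lit 167) (.e (nat_lit 196666) (nat_lit 13) (.e (nat_lit 65610) (nat_lit 10) (.e (nat_lit 344117) (nat_lit 21) (.e (nat_lit 516106) (nat_lit 0) .nil))))) .nil))) (.nd (nat_lit 5) 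
(.lf (nat_lit 95508) (.g (nat_lit 3013) (.e (nat_lit 2668) (nat_lit 167) (.e (nat_lit 196670) (nat_lit 14) (.e (nat_lit 73792) (nat_lit 45) (.e (nat_lit 1140) (nat_lit 84) (.e (nat_lit 32788) (nat_lit 10) (.e (nat_lit 81664) (nat_lit 32) .nil)))))) (.g (nat_lit 5) .nil .nil))) 
(.lf (nat_lit 95540) (.g (nat_lit 3821) (.e (nat_lit 2675) (nat_lit 168) (.e (nat_lit 204869) (nat_lit 29) (.e (nat_lit 360475) (nat_lit 8) (.e (nat_lit 557068) (nat_lit 9) (.e (nat_lit 214) (nat_lit 19) (.e (nat_lit 319490) (nat_lit 0) (.e (nat_lit 5664) (nat_lit 312) .nil))))))) (.g (nat_lit 4) .nil .nil))))) (.nd (nat_lit 4) (.nd (nat_lit 5) 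
(.lf (nat_lit 95500) (.g (nat_lit 2346) (.e (nat_lit 2668) (nat_lit 167) (.e (nat_lit 196666) (nat_lit 13) (.e (nat_lit 65617) (nat_lit 10) (.e (nat_lit 344133) (nat_lit 26) (.e (nat_lit 557073) (nat_lit 9) (.e (nat_lit 220) (nat_lit 20) (.e (nat_lit 327684) (nat_lit 0) (.e (nat_lit 5627) (nat_lit 312) .nil)))))))) (.g (nat_lit 4) .nil .nil))) 
(.lf (nat_lit 95532) (.g (nat_lit 3010) (.e (nat_lit 2675) (nat_lit 168) (.e (nat_lit 204829) (nat_lit 18) (.e (nat_lit 57931) (nat_lit 282) (.e (nat_lit 163869) (nat_lit 2) (.e (nat_lit 196670) (nat_lit 14) .nil))))) .nil))) (.nd (nat_lit 5) 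
(.lf (nat_lit 95516) (.g (nat_lit 656) (.e (nat_lit 2670) (nat_lit 167) (.e (nat_lit 196672) (nat_lit 15) (.e (nat_lit 81954) (nat_lit 23) .nil))) .nil)) 
(.lf (nat_lit 95548) (.g (nat_lit 2134) (.e (nat_lit 2676) (nat_lit 168) (.e (nat_lit 204863) (nat_lit 27) (.e (nat_lit 344132) (nat_lit 26) (.e (nat_lit 557105) (nat_lit 14) (.e (nat_lit 180252) (nat_lit 10) .nil))))) .nil)))))) (.nd (nat_lit 2) (.nd (nat_lit 3) (.nd (nat_lit 4) (.nd (nat_lit 5) 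
(.lf (nat_lit 95490) (.g (nat_lit 4260) (.e (nat_lit 2668) (nat_lit 167) (.e (nat_lit 196666) (nat_lit 13) (.e (nat_lit 65617) (nat_lit 10) (.e (nat_lit 344133) (nat_lit 26) (.e (nat_lit 557068) (nat_lit 9) (.e (nat_lit 220) (nat_lit 20) (.e (nat_lit 327684) (nat_lit 0) (.e (nat_lit 5627) (nat_lit 312) .nil)))))))) (.g (nat_lit 0) .nil .nil))) 
(.lf (nat_lit 95522) (.g (nat_lit 3185) (.e (nat_lit 7936) (nat_lit 167) (.e (nat_lit 196666) (nat_lit 13) (.e (nat_lit 65610) (nat_lit 10) (.e (nat_lit 344117) (nat_lit 21) (.e (nat_lit 516098) (nat_lit 0) .nil))))) .nil))) (.nd (nat_lit 5) 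
(.lf (nat_lit 95506) (.g (nat_lit 1205) (.e (nat_lit 2668) (nat_lit 167) (.e (nat_lit 196666) (nat_lit 13) (.e (nat_lit 65619) (nat_lit 10) (.e (nat_lit 344117) (nat_lit 21) .nil)))) .nil)) 
(.lf (nat_lit 95538) (.g (nat_lit 2095) (.e (nat_lit 2675) (nat_lit 168) (.e (nat_lit 204868) (nat_lit 29) (.e (nat_lit 360466) (nat_lit 3) (.e (nat_lit 516139) (nat_lit 7) .nil)))) .nil)))) (.nd (nat_lit 4) (.nd (nat_lit 5) 
(.lf (nat_lit 95498) (.g (nat_lit 2698) (.e (nat_lit 2668) (nat_lit 167) (.e (nat_lit 196666) (nat_lit 13) (.e (nat_lit 65617) (nat_lit 10) (.e (nat_lit 344133) (nat_lit 26) (.e (nat_lit 557072) (nat_lit 9) .nil))))) .nil)) 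
(.lf (nat_lit 95530) (.g (nat_lit 2470) (.e (nat_lit 2675) (nat_lit 168) (.e (nat_lit 204829) (nat_lit 18) (.e (nat_lit 57927) (nat_lit 282) (.e (nat_lit 163868) (nat_lit 2) (.e (nat_lit 196668) (nat_lit 14) .nil))))) .nil))) (.nd (nat_lit 5) 
(.lf (nat_lit 95514) (.g (nat_lit 2679) (.e (nat_lit 2670) (nat_lit 167) (.e (nat_lit 196666) (nat_lit 13) (.e (nat_lit 65610) (nat_lit 10) (.e (nat_lit 344117) (nat_lit 21) .nil)))) .nil)) 
(.lf (nat_lit 95546) (.g (nat_lit 2404) (.e (nat_lit 2676) (nat_lit 168) (.e (nat_lit 204829) (nat_lit 18) (.e (nat_lit 57927) (nat_lit 282) (.e (nat_lit 163871) (nat_lit 2) (.e (nat_lit 196668) (nat_lit 14) .nil))))) .nil))))) (.nd (nat_lit 3) (.nd (nat_lit 4) (.nd (nat_lit 5) 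
(.lf (nat_lit 95494) (.g (nat_lit 3456) (.e (nat_lit 2668) (nat_lit 167) (.e (nat_lit 196666) (nat_lit 13) (.e (nat_lit 65617) (nat_lit 10) (.e (nat_lit 344133) (nat_lit 26) (.e (nat_lit 557068) (nat_lit 9) (.e (nat_lit 290) (nat_lit 21) (.e (nat_lit 335894) (nat_lit 0) (.e (nat_lit 6617) (nat_lit 357) .nil)))))))) (.g (nat_lit 4) .nil .nil))) 
(.lf (nat_lit 95526) (.g (nat_lit 2391) (.e (nat_lit 2672) (nat_lit 168) (.e (nat_lit 204830) (nat_lit 18) (.e (nat_lit 57926) (nat_lit 282) (.e (nat_lit 163869) (nat_lit 2) (.e (nat_lit 196670) (nat_lit 14) .nil))))) .nil))) (.nd (nat_lit 5) 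
(.lf (nat_lit 95510) (.g (nat_lit 639) (.e (nat_lit 2668) (nat_lit 167) (.e (nat_lit 196672) (nat_lit 15) (.e (nat_lit 81954) (nat_lit 23) .nil))) .nil)) 
(.lf (nat_lit 95542) (.g (nat_lit 2781) (.e (nat_lit 2675) (nat_lit 168) (.e (nat_lit 204869) (nat_lit 29) (.e (nat_lit 360475) (nat_lit 8) (.e (nat_lit 557086) (nat_lit 11) .nil)))) .nil)))) (.nd (nat_lit 4) (.nd (nat_lit 5) 
(.lf (nat_lit 95502) (.g (nat_lit 2614) (.e (nat_lit 2668) (nat_lit 167) (.e (nat_lit 196666) (nat_lit 13) (.e (nat_lit 65617) (nat_lit 10) (.e (nat_lit 344133) (nat_lit 26) (.e (nat_lit 557073) (nat_lit 9) (.e (nat_lit 290) (nat_lit 21) (.e (nat_lit 335893) (nat_lit 0) (.e (nat_lit 6619) (nat_lit 357) .nil)))))))) (.g (nat_lit 4) .nil .nil))) 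
(.lf (nat_lit 95534) (.g (nat_lit 3094) (.e (nat_lit 2675) (nat_lit 168) (.e (nat_lit 204830) (nat_lit 18) (.e (nat_lit 57926) (nat_lit 282) (.e (nat_lit 163868) (nat_lit 2) (.e (nat_lit 196670) (nat_lit 14) .nil))))) .nil))) (.nd (nat_lit 5) 
(.lf (nat_lit 95518) (.g (nat_lit 2877) (.e (nat_lit 2671) (nat_lit 167) (.e (nat_lit 196671) (nat_lit 15) (.e (nat_lit 81956) (nat_lit 23) (.e (nat_lit 98350) (nat_lit 24) (.e (nat_lit 409616) (nat_lit 10) .nil))))) .nil)) 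
(.lf (nat_lit 95550) (.g (nat_lit 863) (.e (nat_lit 2677) (nat_lit 168) (.e (nat_lit 204869) (nat_lit 29) (.e (nat_lit 360474) (nat_lit 8) .nil))) .nil))))))) (.nd (nat_lit 1) (.nd (nat_lit 2) (.nd (nat_lit 3) (.nd (nat_lit 4) (.nd (nat_lit 5) 
(.lf (nat_lit 95489) (.g (nat_lit 3675) (.e (nat_lit 2668) (nat_lit 167) (.e (nat_lit 196666) (nat_lit 13) (.e (nat_lit 65617) (nat_lit 10) (.e (nat_lit 344133) (nat_lit 26) (.e (nat_lit 557068) (nat_lit 9) (.e (nat_lit 220) (nat_lit 20) (.e (nat_lit 327684) (nat_lit 0) (.e (nat_lit 5616) (nat_lit 312) .nil)))))))) (.g (nat_lit 5) .nil .nil))) 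
(.lf (nat_lit 95521) (.g (nat_lit 2454) (.e (nat_lit 2671) (nat_lit 167) (.e (nat_lit 196672) (nat_lit 15) (.e (nat_lit 81956) (nat_lit 23) (.e (nat_lit 98350) (nat_lit 24) .nil)))) .nil))) (.nd (nat_lit 5) 
(.lf (nat_lit 95505) (.g (nat_lit 1865) (.e (nat_lit 2668) (nat_lit 167) (.e (nat_lit 196666) (nat_lit 13) (.e (nat_lit 65617) (nat_lit 10) (.e (nat_lit 344133) (nat_lit 26) (.e (nat_lit 557086) (nat_lit 11) .nil))))) .nil)) 
(.lf (nat_lit 95537) (.g (nat_lit 3273) (.e (nat_lit 2675) (nat_lit 168) (.e (nat_lit 204862) (nat_lit 27) (.e (nat_lit 344129) (nat_lit 26) (.e (nat_lit 557067) (nat_lit 9) (.e (nat_lit 2878) (nat_lit 184) .nil))))) .nil)))) (.nd (nat_lit 4) (.nd (nat_lit 5) 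
(.lf (nat_lit 95497) (.g (nat_lit 2940) (.e (nat_lit 2668) (nat_lit 167) (.e (nat_lit 196666) (nat_lit 13) (.e (nat_lit 65617) (nat_lit 10) (.e (nat_lit 344133) (nat_lit 26) (.e (nat_lit 557068) (nat_lit 9) (.e (nat_lit 7936) (nat_lit 25) (.e (nat_lit 376576) (nat_lit 0) .nil))))))) (.g (nat_lit 5) .nil .nil))) 
(.lf (nat_lit 95529) (.g (nat_lit 912) (.e (nat_lit 2675) (nat_lit 168) (.e (nat_lit 204829) (nat_lit 18) (.e (nat_lit 57927) (nat_lit 282) .nil))) .nil))) (.nd (nat_lit 5) 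
(.lf (nat_lit 95513) (.g (nat_lit 4608) (.e (nat_lit 2668) (nat_lit 167) (.e (nat_lit 196672) (nat_lit 15) (.e (nat_lit 81956) (nat_lit 23) (.e (nat_lit 98350) (nat_lit 24) (.e (nat_lit 409616) (nat_lit 10) .nil))))) .nil)) 
(.lf (nat_lit 95545) (.g (nat_lit 2470) (.e (nat_lit 2676) (nat_lit 168) (.e (nat_lit 204829) (nat_lit 18) (.e (nat_lit 57927) (nat_lit 282) (.e (nat_lit 163868) (nat_lit 2) (.e (nat_lit 196668) (nat_lit 14) .nil))))) .nil))))) (.nd (nat_lit 3) (.nd (nat_lit 4) (.nd (nat_lit 5) 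
(.lf (nat_lit 95493) (.g (nat_lit 4154) (.e (nat_lit 2668) (nat_lit 167) (.e (nat_lit 196666) (nat_lit 13) (.e (nat_lit 65617) (nat_lit 10) (.e (nat_lit 344133) (nat_lit 26) (.e (nat_lit 557068) (nat_lit 9) (.e (nat_lit 290) (nat_lit 21) (.e (nat_lit 335892) (nat_lit 0) (.e (nat_lit 6619) (nat_lit 357) .nil)))))))) (.g (nat_lit 0) .nil .nil))) 
(.lf (nat_lit 95525) (.g (nat_lit 2424) (.e (nat_lit 2672) (nat_lit 168) (.e (nat_lit 204829) (nat_lit 18) (.e (nat_lit 57927) (nat_lit 282) (.e (nat_lit 163869) (nat_lit 2) (.e (nat_lit 196670) (nat_lit 14) .nil))))) .nil))) (.nd (nat_lit 5) 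
(.lf (nat_lit 95509) (.g (nat_lit 3081) (.e (nat_lit 2668) (nat_lit 167) (.e (nat_lit 196670) (nat_lit 14) (.e (nat_lit 73792) (nat_lit 45) (.e (nat_lit 1141) (nat_lit 84) (.e (nat_lit 32788) (nat_lit 10) (.e (nat_lit 81664) (nat_lit 32) .nil)))))) (.g (nat_lit 5) .nil .nil))) 
(.lf (nat_lit 95541) (.g (nat_lit 3979) (.e (nat_lit 2675) (nat_lit 168) (.e (nat_lit 204869) (nat_lit 29) (.e (nat_lit 360475) (nat_lit 8) (.e (nat_lit 557085) (nat_lit 11) (.e (nat_lit 24580) (nat_lit 0) .nil))))) .nil)))) (.nd (nat_lit 4) (.nd (nat_lit 5) 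
(.lf (nat_lit 95501) (.g (nat_lit 2501) (.e (nat_lit 2668) (nat_lit 167) (.e (nat_lit 196666) (nat_lit 13) (.e (nat_lit 65617) (nat_lit 10) (.e (nat_lit 344133) (nat_lit 26) (.e (nat_lit 557073) (nat_lit 9) (.e (nat_lit 290) (nat_lit 21) (.e (nat_lit 335892) (nat_lit 0) (.e (nat_lit 6619) (nat_lit 357) .nil)))))))) (.g (nat_lit 4) .nil .nil))) 
(.lf (nat_lit 95533) (.g (nat_lit 3053) (.e (nat_lit 2675) (nat_lit 168) (.e (nat_lit 204830) (nat_lit 18) (.e (nat_lit 57926) (nat_lit 282) (.e (nat_lit 163868) (nat_lit 2) (.e (nat_lit 196668) (nat_lit 14) .nil))))) .nil))) (.nd (nat_lit 5) 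
(.lf (nat_lit 95517) (.g (nat_lit 1684) (.e (nat_lit 2670) (nat_lit 167) (.e (nat_lit 196672) (nat_lit 15) (.e (nat_lit 81954) (nat_lit 23) (.e (nat_lit 98353) (nat_lit 25) .nil)))) .nil)) 
(.lf (nat_lit 95549) (.g (nat_lit 3115) (.e (nat_lit 2676) (nat_lit 168) (.e (nat_lit 204869) (nat_lit 29) (.e (nat_lit 360475) (nat_lit 8) (.e (nat_lit 557087) (nat_lit 11) .nil)))) .nil)))))) (.nd (nat_lit 2) (.nd (nat_lit 3) (.nd (nat_lit 4) (.nd (nat_lit 5) 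
(.lf (nat_lit 95491) (.g (nat_lit 3355) (.e (nat_lit 2668) (nat_lit 167) (.e (nat_lit 196666) (nat_lit 13) (.e (nat_lit 65617) (nat_lit 10) (.e (nat_lit 344133) (nat_lit 26) (.e (nat_lit 557068) (nat_lit 9) (.e (nat_lit 288) (nat_lit 21) (.e (nat_lit 335872) (nat_lit 0) (.e (nat_lit 6618) (nat_lit 357) .nil)))))))) (.g (nat_lit 0) .nil .nil))) 
(.lf (nat_lit 95523) (.g (nat_lit 2628) (.e (nat_lit 7936) (nat_lit 167) (.e (nat_lit 196666) (nat_lit 13) (.e (nat_lit 65610) (nat_lit 10) (.e (nat_lit 344117) (nat_lit 21) (.e (nat_lit 516102) (nat_lit 0) .nil))))) .nil))) (.nd (nat_lit 5) 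
(.lf (nat_lit 95507) (.g (nat_lit 818) (.e (nat_lit 2668) (nat_lit 167) (.e (nat_lit 196668) (nat_lit 14) (.e (nat_lit 73782) (nat_lit 32) .nil))) .nil)) 
(.lf (nat_lit 95539) (.g (nat_lit 2634) (.e (nat_lit 2675) (nat_lit 168) (.e (nat_lit 204869) (nat_lit 29) (.e (nat_lit 360474) (nat_lit 8) (.e (nat_lit 557085) (nat_lit 11) .nil)))) .nil)))) (.nd (nat_lit 4) (.nd (nat_lit 5) 
(.lf (nat_lit 95499) (.g (nat_lit 3208) (.e (nat_lit 2668) (nat_lit 167) (.e (nat_lit 196666) (nat_lit 13) (.e (nat_lit 65617) (nat_lit 10) (.e (nat_lit 344133) (nat_lit 26) (.e (nat_lit 557073) (nat_lit 9) (.e (nat_lit 214) (nat_lit 19) (.e (nat_lit 319493) (nat_lit 0) (.e (nat_lit 5626) (nat_lit 312) .nil)))))))) (.g (nat_lit 4) .nil .nil))) 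
(.lf (nat_lit 95531) (.g (nat_lit 2404) (.e (nat_lit 2675) (nat_lit 168) (.e (nat_lit 204829) (nat_lit 18) (.e (nat_lit 57927) (nat_lit 282) (.e (nat_lit 163871) (nat_lit 2) (.e (nat_lit 196668) (nat_lit 14) .nil))))) .nil))) (.nd (nat_lit 5) 
(.lf (nat_lit 95515) (.g (nat_lit 2877) (.e (nat_lit 2670) (nat_lit 167) (.e (nat_lit 196671) (nat_lit 15) (.e (nat_lit 81956) (nat_lit 23) (.e (nat_lit 98350) (nat_lit 24) (.e (nat_lit 409616) (nat_lit 10) .nil))))) .nil)) 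
(.lf (nat_lit 95547) (.g (nat_lit 3010) (.e (nat_lit 2676) (nat_lit 168) (.e (nat_lit 204829) (nat_lit 18) (.e (nat_lit 57931) (nat_lit 282) (.e (nat_lit 163869) (nat_lit 2) (.e (nat_lit 196670) (nat_lit 14) .nil))))) .nil))))) (.nd (nat_lit 3) (.nd (nat_lit 4) (.nd (nat_lit 5) 
(.lf (nat_lit 95495) (.g (nat_lit 2062) (.e (nat_lit 2668) (nat_lit 167) (.e (nat_lit 196666) (nat_lit 13) (.e (nat_lit 65617) (nat_lit 10) (.e (nat_lit 344133) (nat_lit 26) (.e (nat_lit 557068) (nat_lit 9) (.e (nat_lit 7936) (nat_lit 21) (.e (nat_lit 335872) (nat_lit 0) (.e (nat_lit 6618) (nat_lit 357) .nil)))))))) (.g (nat_lit 4) .nil .nil))) 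
(.lf (nat_lit 95527) (.g (nat_lit 1966) (.e (nat_lit 2672) (nat_lit 168) (.e (nat_lit 204846) (nat_lit 24) (.e (nat_lit 319531) (nat_lit 16) (.e (nat_lit 286733) (nat_lit 2) .nil)))) .nil))) (.nd (nat_lit 5) 
(.lf (nat_lit 95511) (.g (nat_lit 2044) (.e (nat_lit 2668) (nat_lit 167) (.e (nat_lit 196672) (nat_lit 15) (.e (nat_lit 81954) (nat_lit 23) (.e (nat_lit 98350) (nat_lit 24) .nil)))) .nil)) 
(.lf (nat_lit 95543) (.g (nat_lit 1763) (.e (nat_lit 2675) (nat_lit 168) (.e (nat_lit 204869) (nat_lit 29) (.e (nat_lit 360475) (nat_lit 8) (.e (nat_lit 557087) (nat_lit 11) .nil)))) .nil)))) (.nd (nat_lit 4) (.nd (nat_lit 5) 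
(.lf (nat_lit 95503) (.g (nat_lit 3097) (.e (nat_lit 2668) (nat_lit 167) (.e (nat_lit 196666) (nat_lit 13) (.e (nat_lit 65617) (nat_lit 10) (.e (nat_lit 344133) (nat_lit 26) (.e (nat_lit 557073) (nat_lit 9) (.e (nat_lit 290) (nat_lit 21) (.e (nat_lit 335894) (nat_lit 0) (.e (nat_lit 6619) (nat_lit 357) .nil)))))))) (.g (nat_lit 4) .nil .nil))) 
(.lf (nat_lit 95535) (.g (nat_lit 3184) (.e (nat_lit 2675) (nat_lit 168) (.e (nat_lit 204830) (nat_lit 18) (.e (nat_lit 57926) (nat_lit 282) (.e (nat_lit 163870) (nat_lit 2) (.e (nat_lit 196670) (nat_lit 14) .nil))))) .nil))) (.nd (nat_lit 5) 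
(.lf (nat_lit 95519) (.g (nat_lit 656) (.e (nat_lit 2671) (nat_lit 167) (.e (nat_lit 196672) (nat_lit 15) (.e (nat_lit 81954) (nat_lit 23) .nil))) .nil)) 
(.lf (nat_lit 95551) (.g (nat_lit 2605) (.e (nat_lit 2678) (nat_lit 168) (.e (nat_lit 204868) (nat_lit 29) (.e (nat_lit 360466) (nat_lit 3) (.e (nat_lit 516139) (nat_lit 7) (.e (nat_lit 409616) (nat_lit 10) .nil))))) .nil))))))))

noncomputable def tv1312 : DT := (.nd (nat_lit 0) (.nd (nat_lit 1) (.nd (nat_lit 2) (.nd (nat_lit 3) (.nd (nat_lit 4) (.nd (nat_lit 5) 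
(.lf (nat_lit 95552) (.g (nat_lit 4354) (.e (nat_lit 2678) (nat_lit 168) (.e (nat_lit 204869) (nat_lit 29) (.e (nat_lit 360475) (nat_lit 8) (.e (nat_lit 557086) (nat_lit 11) .nil)))) .nil)) 
(.lf (nat_lit 95584) (.g (nat_lit 3186) (.e (nat_lit 2679) (nat_lit 168) (.e (nat_lit 204846) (nat_lit 24) (.e (nat_lit 319534) (nat_lit 16) (.e (nat_lit 286733) (nat_lit 2) (.e (nat_lit 90172) (nat_lit 14) (.e (nat_lit 188160) (nat_lit 40) .nil)))))) (.g (nat_lit 5) .nil .nil)))) (.nd (nat_lit 5) 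
(.lf (nat_lit 95568) (.g (nat_lit 3952) (.e (nat_lit 2679) (nat_lit 168) (.e (nat_lit 204846) (nat_lit 24) (.e (nat_lit 319529) (nat_lit 16) (.e (nat_lit 286735) (nat_lit 3) (.e (nat_lit 98350) (nat_lit 24) (.e (nat_lit 409602) (nat_lit 0) (.e (nat_lit 5664) (nat_lit 312) .nil))))))) (.g (nat_lit 0) .nil .nil))) 
(.lf (nat_lit 95600) (.g (nat_lit 2169) (.e (nat_lit 2679) (nat_lit 168) (.e (nat_lit 204868) (nat_lit 29) (.e (nat_lit 360473) (nat_lit 8) (.e (nat_lit 557065) (nat_lit 9) (.e (nat_lit 214) (nat_lit 19) .nil))))) .nil)))) (.nd (nat_lit 4) (.nd (nat_lit 5) 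
(.lf (nat_lit 95560) (.g (nat_lit 3070) (.e (nat_lit 2679) (nat_lit 168) (.e (nat_lit 204845) (nat_lit 24) (.e (nat_lit 319531) (nat_lit 16) (.e (nat_lit 286733) (nat_lit 2) (.e (nat_lit 90173) (nat_lit 14) .nil))))) .nil)) 
(.lf (nat_lit 95592) (.g (nat_lit 3980) (.e (nat_lit 2679) (nat_lit 168) (.e (nat_lit 204863) (nat_lit 27) (.e (nat_lit 344169) (nat_lit 40) (.e (nat_lit 671759) (nat_lit 3) (.e (nat_lit 57479) (nat_lit 28) (.e (nat_lit 557103) (nat_lit 14) (.e (nat_lit 188160) (nat_lit 40) .nil))))))) (.g (nat_lit 5) .nil .nil)))) (.nd (nat_lit 5) 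
(.lf (nat_lit 95576) (.g (nat_lit 2118) (.e (nat_lit 2679) (nat_lit 168) (.e (nat_lit 204846) (nat_lit 24) (.e (nat_lit 319531) (nat_lit 16) (.e (nat_lit 286735) (nat_lit 3) (.e (nat_lit 98350) (nat_lit 24) (.e (nat_lit 409602) (nat_lit 0) (.e (nat_lit 5642) (nat_lit 312) .nil))))))) (.g (nat_lit 4) .nil .nil))) 
(.lf (nat_lit 95608) (.g (nat_lit 705) (.e (nat_lit 2679) (nat_lit 168) (.e (nat_lit 204869) (nat_lit 29) (.e (nat_lit 360472) (nat_lit 8) .nil))) .nil))))) (.nd (nat_lit 3) (.nd (nat_lit 4) (.nd (nat_lit 5) 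
(.lf (nat_lit 95556) (.g (nat_lit 3224) (.e (nat_lit 2679) (nat_lit 168) (.e (nat_lit 204819) (nat_lit 17) (.e (nat_lit 6113) (nat_lit 332) (.e (nat_lit 2406) (nat_lit 157) (.e (nat_lit 5293) (nat_lit 298) (.e (nat_lit 1250) (nat_lit 92) (.e (nat_lit 98350) (nat_lit 24) (.e (nat_lit 409623) (nat_lit 10) (.e (nat_lit 5664) (nat_lit 312) .nil))))))))) (.g (nat_lit 6) .nil .nil))) 
(.lf (nat_lit 95588) (.g (nat_lit 3385) (.e (nat_lit 2679) (nat_lit 168) (.e (nat_lit 204862) (nat_lit 27) (.e (nat_lit 344129) (nat_lit 26) (.e (nat_lit 557067) (nat_lit 9) (.e (nat_lit 2878) (nat_lit 184) (.e (nat_lit 426125) (nat_lit 2) (.e (nat_lit 196686) (nat_lit 18) (.e (nat_lit 1162) (nat_lit 86) (.e (nat_lit 49156) (nat_lit 0) .nil))))))))) (.g (nat_lit 4) .nil .nil)))) (.nd (nat_lit 5) 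
(.lf (nat_lit 95572) (.g (nat_lit 4351) (.e (nat_lit 2679) (nat_lit 168) (.e (nat_lit 204846) (nat_lit 24) (.e (nat_lit 319530) (nat_lit 16) (.e (nat_lit 286735) (nat_lit 3) (.e (nat_lit 98350) (nat_lit 24) (.e (nat_lit 409602) (nat_lit 0) (.e (nat_lit 5664) (nat_lit 312) .nil))))))) (.g (nat_lit 0) .nil .nil))) 
(.lf (nat_lit 95604) (.g (nat_lit 4515) (.e (nat_lit 2679) (nat_lit 168) (.e (nat_lit 204868) (nat_lit 29) (.e (nat_lit 360475) (nat_lit 8) (.e (nat_lit 557067) (nat_lit 9) (.e (nat_lit 214) (nat_lit 19) (.e (nat_lit 319490) (nat_lit 0) (.e (nat_lit 5664) (nat_lit 312) .nil))))))) (.g (nat_lit 4) .nil .nil))))) (.nd (nat_lit 4) (.nd (nat_lit 5) 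
(.lf (nat_lit 95564) (.g (nat_lit 2170) (.e (nat_lit 2679) (nat_lit 168) (.e (nat_lit 204846) (nat_lit 24) (.e (nat_lit 319511) (nat_lit 10) (.e (nat_lit 5293) (nat_lit 298) (.e (nat_lit 1232) (nat_lit 91) (.e (nat_lit 90174) (nat_lit 14) (.e (nat_lit 188160) (nat_lit 40) .nil))))))) (.g (nat_lit 5) .nil .nil))) 
(.lf (nat_lit 95596) (.g (nat_lit 1948) (.e (nat_lit 2679) (nat_lit 168) (.e (nat_lit 204866) (nat_lit 28) (.e (nat_lit 352315) (nat_lit 23) (.e (nat_lit 98350) (nat_lit 24) .nil)))) .nil))) (.nd (nat_lit 5) 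
(.lf (nat_lit 95580) (.g (nat_lit 2732) (.e (nat_lit 2679) (nat_lit 168) (.e (nat_lit 204846) (nat_lit 24) (.e (nat_lit 319533) (nat_lit 16) (.e (nat_lit 286733) (nat_lit 2) (.e (nat_lit 90173) (nat_lit 14) (.e (nat_lit 188160) (nat_lit 40) .nil)))))) (.g (nat_lit 4) .nil .nil))) 
(.lf (nat_lit 95612) (.g (nat_lit 3589) (.e (nat_lit 2679) (nat_lit 168) (.e (nat_lit 204869) (nat_lit 29) (.e (nat_lit 360474) (nat_lit 8) (.e (nat_lit 557068) (nat_lit 9) .nil)))) .nil)))))) (.nd (nat_lit 2) (.nd (nat_lit 3) (.nd (nat_lit 4) (.nd (nat_lit 5) 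
(.lf (nat_lit 95554) (.g (nat_lit 1633) (.e (nat_lit 2679) (nat_lit 168) (.e (nat_lit 204817) (nat_lit 17) (.e (nat_lit 2198) (nat_lit 144) (.e (nat_lit 720941) (nat_lit 22) (.e (nat_lit 90172) (nat_lit 14) (.e (nat_lit 180241) (nat_lit 4) (.e (nat_lit 524291) (nat_lit 0) (.e (nat_lit 3459) (nat_lit 216) (.e (nat_lit 688138) (nat_lit 5) .nil))))))))) (.g (nat_lit 5) .nil .nil))) 
(.lf (nat_lit 95586) (.g (nat_lit 3572) (.e (nat_lit 2679) (nat_lit 168) (.e (nat_lit 204846) (nat_lit 24) (.e (nat_lit 319534) (nat_lit 16) (.e (nat_lit 286733) (nat_lit 2) (.e (nat_lit 90174) (nat_lit 14) (.e (nat_lit 188160) (nat_lit 40) .nil)))))) (.g (nat_lit 5) .nil .nil)))) (.nd (nat_lit 5) 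
(.lf (nat_lit 95570) (.g (nat_lit 2705) (.e (nat_lit 2679) (nat_lit 168) (.e (nat_lit 204846) (nat_lit 24) (.e (nat_lit 319530) (nat_lit 16) (.e (nat_lit 286733) (nat_lit 2) (.e (nat_lit 90173) (nat_lit 14) .nil))))) .nil)) 
(.lf (nat_lit 95602) (.g (nat_lit 3374) (.e (nat_lit 2679) (nat_lit 168) (.e (nat_lit 204868) (nat_lit 29) (.e (nat_lit 360475) (nat_lit 8) (.e (nat_lit 557065) (nat_lit 9) (.e (nat_lit 214) (nat_lit 19) .nil))))) .nil)))) (.nd (nat_lit 4) (.nd (nat_lit 5) 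
(.lf (nat_lit 95562) (.g (nat_lit 2707) (.e (nat_lit 2679) (nat_lit 168) (.e (nat_lit 204846) (nat_lit 24) (.e (nat_lit 319511) (nat_lit 10) (.e (nat_lit 5293) (nat_lit 298) (.e (nat_lit 1232) (nat_lit 91) (.e (nat_lit 90172) (nat_lit 14) (.e (nat_lit 188160) (nat_lit 40) .nil))))))) (.g (nat_lit 6) .nil .nil))) 
(.lf (nat_lit 95594) (.g (nat_lit 2157) (.e (nat_lit 2679) (nat_lit 168) (.e (nat_lit 204864) (nat_lit 27) (.e (nat_lit 344130) (nat_lit 26) (.e (nat_lit 557067) (nat_lit 9) (.e (nat_lit 2878) (nat_lit 184) .nil))))) .nil))) (.nd (nat_lit 5) 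
(.lf (nat_lit 95578) (.g (nat_lit 3871) (.e (nat_lit 2679) (nat_lit 168) (.e (nat_lit 204846) (nat_lit 24) (.e (nat_lit 319532) (nat_lit 16) (.e (nat_lit 286735) (nat_lit 3) (.e (nat_lit 98350) (nat_lit 24) (.e (nat_lit 409602) (nat_lit 0) (.e (nat_lit 5664) (nat_lit 312) .nil))))))) (.g (nat_lit 0) .nil .nil))) 
(.lf (nat_lit 95610) (.g (nat_lit 2944) (.e (nat_lit 2679) (nat_lit 168) (.e (nat_lit 204869) (nat_lit 29) (.e (nat_lit 360474) (nat_lit 8) (.e (nat_lit 557064) (nat_lit 9) (.e (nat_lit 214) (nat_lit 19) .nil))))) .nil))))) (.nd (nat_lit 3) (.nd (nat_lit 4) (.nd (nat_lit 5) 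
(.lf (nat_lit 95558) (.g (nat_lit 3867) (.e (nat_lit 2679) (nat_lit 168) (.e (nat_lit 204845) (nat_lit 24) (.e (nat_lit 319530) (nat_lit 16) (.e (nat_lit 286735) (nat_lit 3) (.e (nat_lit 98350) (nat_lit 24) (.e (nat_lit 409602) (nat_lit 0) (.e (nat_lit 5664) (nat_lit 312) .nil))))))) (.g (nat_lit 7) .nil .nil))) 
(.lf (nat_lit 95590) (.g (nat_lit 3377) (.e (nat_lit 2679) (nat_lit 168) (.e (nat_lit 204863) (nat_lit 27) (.e (nat_lit 344129) (nat_lit 26) (.e (nat_lit 557067) (nat_lit 9) (.e (nat_lit 2878) (nat_lit 184) .nil))))) .nil))) (.nd (nat_lit 5) 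
(.lf (nat_lit 95574) (.g (nat_lit 3023) (.e (nat_lit 2679) (nat_lit 168) (.e (nat_lit 204846) (nat_lit 24) (.e (nat_lit 319531) (nat_lit 16) (.e (nat_lit 286733) (nat_lit 2) (.e (nat_lit 90173) (nat_lit 14) .nil))))) .nil)) 
(.lf (nat_lit 95606) (.g (nat_lit 2823) (.e (nat_lit 2679) (nat_lit 168) (.e (nat_lit 204868) (nat_lit 29) (.e (nat_lit 360475) (nat_lit 8) (.e (nat_lit 557073) (nat_lit 9) (.e (nat_lit 214) (nat_lit 19) .nil))))) .nil)))) (.nd (nat_lit 4) (.nd (nat_lit 5) 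
(.lf (nat_lit 95566) (.g (nat_lit 2917) (.e (nat_lit 2679) (nat_lit 168) (.e (nat_lit 204846) (nat_lit 24) (.e (nat_lit 319528) (nat_lit 16) (.e (nat_lit 286733) (nat_lit 2) (.e (nat_lit 90174) (nat_lit 14) (.e (nat_lit 188160) (nat_lit 40) .nil)))))) (.g (nat_lit 5) .nil .nil))) 
(.lf (nat_lit 95598) (.g (nat_lit 1209) (.e (nat_lit 2679) (nat_lit 168) (.e (nat_lit 204868) (nat_lit 29) (.e (nat_lit 360466) (nat_lit 3) (.e (nat_lit 516141) (nat_lit 8) .nil)))) .nil))) (.nd (nat_lit 5) 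
(.lf (nat_lit 95582) (.g (nat_lit 3563) (.e (nat_lit 2679) (nat_lit 168) (.e (nat_lit 204846) (nat_lit 24) (.e (nat_lit 319533) (nat_lit 16) (.e (nat_lit 286735) (nat_lit 3) (.e (nat_lit 98350) (nat_lit 24) (.e (nat_lit 409602) (nat_lit 0) (.e (nat_lit 5664) (nat_lit 312) .nil))))))) (.g (nat_lit 7) .nil .nil))) 
(.lf (nat_lit 95614) (.g (nat_lit 2533) (.e (nat_lit 2679) (nat_lit 168) (.e (nat_lit 204869) (nat_lit 29) (.e (nat_lit 360474) (nat_lit 8) (.e (nat_lit 557070) (nat_lit 9) (.e (nat_lit 296) (nat_lit 22) (.e (nat_lit 352000) (nat_lit 0) .nil)))))) (.g (nat_lit 4) .nil .nil)))))))) (.nd (nat_lit 1) (.nd (nat_lit 2) (.nd (nat_lit 3) (.nd (nat_lit 4) (.nd (nat_lit 5) 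
(.lf (nat_lit 95553) (.g (nat_lit 3052) (.e (nat_lit 2678) (nat_lit 168) (.e (nat_lit 204869) (nat_lit 29) (.e (nat_lit 360475) (nat_lit 8) (.e (nat_lit 557087) (nat_lit 11) .nil)))) .nil)) 
(.lf (nat_lit 95585) (.g (nat_lit 2672) (.e (nat_lit 2679) (nat_lit 168) (.e (nat_lit 204846) (nat_lit 24) (.e (nat_lit 319534) (nat_lit 16) (.e (nat_lit 286733) (nat_lit 2) (.e (nat_lit 90173) (nat_lit 14) (.e (nat_lit 188160) (nat_lit 40) .nil)))))) (.g (nat_lit 4) .nil .nil)))) (.nd (nat_lit 5) 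
(.lf (nat_lit 95569) (.g (nat_lit 3059) (.e (nat_lit 2679) (nat_lit 168) (.e (nat_lit 204846) (nat_lit 24) (.e (nat_lit 319530) (nat_lit 16) (.e (nat_lit 286733) (nat_lit 2) (.e (nat_lit 90172) (nat_lit 14) (.e (nat_lit 188160) (nat_lit 40) .nil)))))) (.g (nat_lit 4) .nil .nil))) 
(.lf (nat_lit 95601) (.g (nat_lit 4579) (.e (nat_lit 2679) (nat_lit 168) (.e (nat_lit 204868) (nat_lit 29) (.e (nat_lit 360473) (nat_lit 8) (.e (nat_lit 557067) (nat_lit 9) (.e (nat_lit 214) (nat_lit 19) (.e (nat_lit 319490) (nat_lit 0) (.e (nat_lit 5664) (nat_lit 312) .nil))))))) (.g (nat_lit 5) .nil .nil))))) (.nd (nat_lit 4) (.nd (nat_lit 5) 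
(.lf (nat_lit 95561) (.g (nat_lit 2927) (.e (nat_lit 2679) (nat_lit 168) (.e (nat_lit 204845) (nat_lit 24) (.e (nat_lit 319531) (nat_lit 16) (.e (nat_lit 286733) (nat_lit 2) (.e (nat_lit 90174) (nat_lit 14) .nil))))) .nil)) 
(.lf (nat_lit 95593) (.g (nat_lit 3479) (.e (nat_lit 2679) (nat_lit 168) (.e (nat_lit 204863) (nat_lit 27) (.e (nat_lit 344169) (nat_lit 40) (.e (nat_lit 671759) (nat_lit 3) (.e (nat_lit 57479) (nat_lit 28) (.e (nat_lit 557105) (nat_lit 14) (.e (nat_lit 188160) (nat_lit 40) .nil))))))) (.g (nat_lit 4) .nil .nil)))) (.nd (nat_lit 5) 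
(.lf (nat_lit 95577) (.g (nat_lit 4229) (.e (nat_lit 2679) (nat_lit 168) (.e (nat_lit 204846) (nat_lit 24) (.e (nat_lit 319531) (nat_lit 16) (.e (nat_lit 286735) (nat_lit 3) (.e (nat_lit 98350) (nat_lit 24) (.e (nat_lit 409602) (nat_lit 0) (.e (nat_lit 5664) (nat_lit 312) .nil))))))) (.g (nat_lit 0) .nil .nil))) 
(.lf (nat_lit 95609) (.g (nat_lit 772) (.e (nat_lit 2679) (nat_lit 168) (.e (nat_lit 204869) (nat_lit 29) (.e (nat_lit 360473) (nat_lit 8) .nil))) .nil))))) (.nd (nat_lit 3) (.nd (nat_lit 4) (.nd (nat_lit 5) 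
(.lf (nat_lit 95557) (.g (nat_lit 2694) (.e (nat_lit 2679) (nat_lit 168) (.e (nat_lit 204845) (nat_lit 24) (.e (nat_lit 319530) (nat_lit 16) (.e (nat_lit 286733) (nat_lit 2) (.e (nat_lit 90172) (nat_lit 14) .nil))))) .nil)) 
(.lf (nat_lit 95589) (.g (nat_lit 1035) (.e (nat_lit 2679) (nat_lit 168) (.e (nat_lit 204863) (nat_lit 27) (.e (nat_lit 344118) (nat_lit 21) .nil))) .nil))) (.nd (nat_lit 5) 
(.lf (nat_lit 95573) (.g (nat_lit 3172) (.e (nat_lit 2679) (nat_lit 168) (.e (nat_lit 204846) (nat_lit 24) (.e (nat_lit 319531) (nat_lit 16) (.e (nat_lit 286733) (nat_lit 2) (.e (nat_lit 90172) (nat_lit 14) (.e (nat_lit 188160) (nat_lit 40) .nil)))))) (.g (nat_lit 4) .nil .nil))) 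
(.lf (nat_lit 95605) (.g (nat_lit 2904) (.e (nat_lit 2679) (nat_lit 168) (.e (nat_lit 204868) (nat_lit 29) (.e (nat_lit 360475) (nat_lit 8) (.e (nat_lit 557068) (nat_lit 9) (.e (nat_lit 7936) (nat_lit 19) .nil))))) .nil)))) (.nd (nat_lit 4) (.nd (nat_lit 5) 
(.lf (nat_lit 95565) (.g (nat_lit 1750) (.e (nat_lit 2679) (nat_lit 168) (.e (nat_lit 204846) (nat_lit 24) (.e (nat_lit 319528) (nat_lit 16) (.e (nat_lit 286733) (nat_lit 2) (.e (nat_lit 90173) (nat_lit 14) (.e (nat_lit 188160) (nat_lit 40) .nil)))))) (.g (nat_lit 4) .nil .nil))) 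
(.lf (nat_lit 95597) (.g (nat_lit 1185) (.e (nat_lit 2679) (nat_lit 168) (.e (nat_lit 204868) (nat_lit 29) (.e (nat_lit 360466) (nat_lit 3) (.e (nat_lit 516139) (nat_lit 7) .nil)))) .nil))) (.nd (nat_lit 5) 
(.lf (nat_lit 95581) (.g (nat_lit 3734) (.e (nat_lit 2679) (nat_lit 168) (.e (nat_lit 204846) (nat_lit 24) (.e (nat_lit 319533) (nat_lit 16) (.e (nat_lit 286733) (nat_lit 2) (.e (nat_lit 90174) (nat_lit 14) (.e (nat_lit 188160) (nat_lit 40) .nil)))))) (.g (nat_lit 5) .nil .nil))) 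
(.lf (nat_lit 95613) (.g (nat_lit 2495) (.e (nat_lit 2679) (nat_lit 168) (.e (nat_lit 204869) (nat_lit 29) (.e (nat_lit 360474) (nat_lit 8) (.e (nat_lit 557070) (nat_lit 9) (.e (nat_lit 7936) (nat_lit 19) .nil))))) .nil)))))) (.nd (nat_lit 2) (.nd (nat_lit 3) (.nd (nat_lit 4) (.nd (nat_lit 5) 
(.lf (nat_lit 95555) (.g (nat_lit 3178) (.e (nat_lit 2679) (nat_lit 168) (.e (nat_lit 204819) (nat_lit 17) (.e (nat_lit 6113) (nat_lit 332) (.e (nat_lit 1361) (nat_lit 102) (.e (nat_lit 286735) (nat_lit 3) (.e (nat_lit 98350) (nat_lit 24) (.e (nat_lit 409602) (nat_lit 0) (.e (nat_lit 5664) (nat_lit 312) .nil)))))))) (.g (nat_lit 7) .nil .nil))) 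
(.lf (nat_lit 95587) (.g (nat_lit 5361) (.e (nat_lit 2679) (nat_lit 168) (.e (nat_lit 204862) (nat_lit 27) (.e (nat_lit 344129) (nat_lit 26) (.e (nat_lit 557067) (nat_lit 9) (.e (nat_lit 2878) (nat_lit 184) (.e (nat_lit 426125) (nat_lit 2) (.e (nat_lit 196686) (nat_lit 18) (.e (nat_lit 1162) (nat_lit 86) (.e (nat_lit 49155) (nat_lit 0) .nil))))))))) (.g (nat_lit 6) .nil .nil)))) (.nd (nat_lit 5) 
(.lf (nat_lit 95571) (.g (nat_lit 3209) (.e (nat_lit 2679) (nat_lit 168) (.e (nat_lit 204846) (nat_lit 24) (.e (nat_lit 319530) (nat_lit 16) (.e (nat_lit 286733) (nat_lit 2) (.e (nat_lit 90174) (nat_lit 14) (.e (nat_lit 188160) (nat_lit 40) .nil)))))) (.g (nat_lit 5) .nil .nil))) 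
(.lf (nat_lit 95603) (.g (nat_lit 4167) (.e (nat_lit 2679) (nat_lit 168) (.e (nat_lit 204868) (nat_lit 29) (.e (nat_lit 360475) (nat_lit 8) (.e (nat_lit 557067) (nat_lit 9) (.e (nat_lit 214) (nat_lit 19) .nil))))) .nil)))) (.nd (nat_lit 4) (.nd (nat_lit 5) 
(.lf (nat_lit 95563) (.g (nat_lit 1410) (.e (nat_lit 2679) (nat_lit 168) (.e (nat_lit 204846) (nat_lit 24) (.e (nat_lit 319511) (nat_lit 10) (.e (nat_lit 5293) (nat_lit 298) (.e (nat_lit 1232) (nat_lit 91) (.e (nat_lit 90173) (nat_lit 14) (.e (nat_lit 188160) (nat_lit 40) .nil))))))) (.g (nat_lit 4) .nil .nil))) 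
(.lf (nat_lit 95595) (.g (nat_lit 2043) (.e (nat_lit 2679) (nat_lit 168) (.e (nat_lit 204864) (nat_lit 27) (.e (nat_lit 344130) (nat_lit 26) (.e (nat_lit 557097) (nat_lit 13) (.e (nat_lit 172064) (nat_lit 2) (.e (nat_lit 196686) (nat_lit 18) (.e (nat_lit 1162) (nat_lit 86) (.e (nat_lit 49155) (nat_lit 0) .nil)))))))) (.g (nat_lit 4) .nil .nil)))) (.nd (nat_lit 5) 
(.lf (nat_lit 95579) (.g (nat_lit 2777) (.e (nat_lit 2679) (nat_lit 168) (.e (nat_lit 204846) (nat_lit 24) (.e (nat_lit 319533) (nat_lit 16) (.e (nat_lit 286732) (nat_lit 2) (.e (nat_lit 90174) (nat_lit 14) (.e (nat_lit 188160) (nat_lit 40) .nil)))))) (.g (nat_lit 4) .nil .nil))) 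
(.lf (nat_lit 95611) (.g (nat_lit 3493) (.e (nat_lit 2679) (nat_lit 168) (.e (nat_lit 204869) (nat_lit 29) (.e (nat_lit 360474) (nat_lit 8) (.e (nat_lit 557065) (nat_lit 9) .nil)))) .nil))))) (.nd (nat_lit 3) (.nd (nat_lit 4) (.nd (nat_lit 5) 
(.lf (nat_lit 95559) (.g (nat_lit 3099) (.e (nat_lit 2679) (nat_lit 168) (.e (nat_lit 204845) (nat_lit 24) (.e (nat_lit 319531) (nat_lit 16) (.e (nat_lit 286733) (nat_lit 2) (.e (nat_lit 90172) (nat_lit 14) .nil))))) .nil)) 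
(.lf (nat_lit 95591) (.g (nat_lit 3501) (.e (nat_lit 2679) (nat_lit 168) (.e (nat_lit 204863) (nat_lit 27) (.e (nat_lit 344129) (nat_lit 26) (.e (nat_lit 557067) (nat_lit 9) (.e (nat_lit 2878) (nat_lit 184) (.e (nat_lit 426125) (nat_lit 2) (.e (nat_lit 196686) (nat_lit 18) (.e (nat_lit 1162) (nat_lit 86) (.e (nat_lit 49155) (nat_lit 0) .nil))))))))) (.g (nat_lit 4) .nil .nil)))) (.nd (nat_lit 5) 
(.lf (nat_lit 95575) (.g (nat_lit 3703) (.e (nat_lit 2679) (nat_lit 168) (.e (nat_lit 204846) (nat_lit 24) (.e (nat_lit 319531) (nat_lit 16) (.e (nat_lit 286733) (nat_lit 2) (.e (nat_lit 90174) (nat_lit 14) (.e (nat_lit 188160) (nat_lit 40) .nil)))))) (.g (nat_lit 5) .nil .nil))) 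
(.lf (nat_lit 95607) (.g (nat_lit 691) (.e (nat_lit 2679) (nat_lit 168) (.e (nat_lit 204869) (nat_lit 29) (.e (nat_lit 360467) (nat_lit 3) .nil))) .nil)))) (.nd (nat_lit 4) (.nd (nat_lit 5) 
(.lf (nat_lit 95567) (.g (nat_lit 3505) (.e (nat_lit 2679) (nat_lit 168) (.e (nat_lit 204846) (nat_lit 24) (.e (nat_lit 319528) (nat_lit 16) (.e (nat_lit 286735) (nat_lit 3) (.e (nat_lit 98350) (nat_lit 24) (.e (nat_lit 409602) (nat_lit 0) (.e (nat_lit 5664) (nat_lit 312) .nil))))))) (.g (nat_lit 0) .nil .nil))) 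
(.lf (nat_lit 95599) (.g (nat_lit 1175) (.e (nat_lit 2679) (nat_lit 168) (.e (nat_lit 204868) (nat_lit 29) (.e (nat_lit 360466) (nat_lit 3) (.e (nat_lit 516142) (nat_lit 8) .nil)))) .nil))) (.nd (nat_lit 5) 
(.lf (nat_lit 95583) (.g (nat_lit 2397) (.e (nat_lit 2679) (nat_lit 168) (.e (nat_lit 204846) (nat_lit 24) (.e (nat_lit 319534) (nat_lit 16) (.e (nat_lit 286732) (nat_lit 2) (.e (nat_lit 90174) (nat_lit 14) .nil))))) .nil)) 
(.lf (nat_lit 95615) (.g (nat_lit 4454) (.e (nat_lit 2679) (nat_lit 168) (.e (nat_lit 204869) (nat_lit 29) (.e (nat_lit 360474) (nat_lit 8) (.e (nat_lit 557071) (nat_lit 9) .nil)))) .nil))))))))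

noncomputable def tv1313 : DT := (.nd (nat_lit 0) (.nd (nat_lit 1) (.nd (nat_lit 2) (.nd (nat_lit 3) (.nd (nat_lit 4) (.nd (nat_lit 5) (.nd (nat_lit 6) 
(.lf (nat_lit 95616) (.g (nat_lit 2592) (.e (nat_lit 2679) (nat_lit 168) (.e (nat_lit 204869) (nat_lit 29) (.e (nat_lit 360474) (nat_lit 8) (.e (nat_lit 557072) (nat_lit 9) (.e (nat_lit 214) (nat_lit 19) .nil))))) .nil)) 
(.lf (nat_lit 95680) (.g (nat_lit 2083) (.e (nat_lit 2681) (nat_lit 168) (.e (nat_lit 204830) (nat_lit 18) (.e (nat_lit 57927) (nat_lit 282) (.e (nat_lit 163871) (nat_lit 2) (.e (nat_lit 196670) (nat_lit 14) .nil))))) .nil))) (.nd (nat_lit 6) 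
(.lf (nat_lit 95648) (.g (nat_lit 3193) (.e (nat_lit 2681) (nat_lit 168) (.e (nat_lit 204829) (nat_lit 18) (.e (nat_lit 57847) (nat_lit 252) (.e (nat_lit 57377) (nat_lit 3) .nil)))) .nil)) 
(.lf (nat_lit 95712) (.g (nat_lit 2663) (.e (nat_lit 2681) (nat_lit 168) (.e (nat_lit 204869) (nat_lit 29) (.e (nat_lit 360475) (nat_lit 8) (.e (nat_lit 557087) (nat_lit 11) (.e (nat_lit 24581) (nat_lit 0) .nil))))) .nil)))) (.nd (nat_lit 5) (.nd (nat_lit 6) 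
(.lf (nat_lit 95632) (.g (nat_lit 2256) (.e (nat_lit 2680) (nat_lit 168) (.e (nat_lit 204829) (nat_lit 18) (.e (nat_lit 57927) (nat_lit 282) (.e (nat_lit 163869) (nat_lit 2) (.e (nat_lit 196670) (nat_lit 14) .nil))))) .nil)) 
(.lf (nat_lit 95696) (.g (nat_lit 3480) (.e (nat_lit 2681) (nat_lit 168) (.e (nat_lit 204863) (nat_lit 27) (.e (nat_lit 344129) (nat_lit 26) (.e (nat_lit 557067) (nat_lit 9) (.e (nat_lit 2878) (nat_lit 184) (.e (nat_lit 426125) (nat_lit 2) (.e (nat_lit 196686) (nat_lit 18) (.e (nat_lit 1162) (nat_lit 86) (.e (nat_lit 49159) (nat_lit 0) .nil))))))))) (.g (nat_lit 4) .nil .nil)))) (.nd (nat_lit 6) 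
(.lf (nat_lit 95664) (.g (nat_lit 2193) (.e (nat_lit 2681) (nat_lit 168) (.e (nat_lit 204829) (nat_lit 18) (.e (nat_lit 57927) (nat_lit 282) (.e (nat_lit 163869) (nat_lit 2) (.e (nat_lit 196670) (nat_lit 14) .nil))))) .nil)) 
(.lf (nat_lit 95728) (.g (nat_lit 3056) (.e (nat_lit 2682) (nat_lit 168) (.e (nat_lit 204846) (nat_lit 24) (.e (nat_lit 319531) (nat_lit 16) (.e (nat_lit 286733) (nat_lit 2) (.e (nat_lit 90174) (nat_lit 14) (.e (nat_lit 180280) (nat_lit 40) .nil)))))) (.g (nat_lit 4) .nil .nil)))))) (.nd (nat_lit 4) (.nd (nat_lit 5) (.nd (nat_lit 6) 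
(.lf (nat_lit 95624) (.g (nat_lit 2780) (.e (nat_lit 2679) (nat_lit 168) (.e (nat_lit 204869) (nat_lit 29) (.e (nat_lit 360475) (nat_lit 8) (.e (nat_lit 557068) (nat_lit 9) (.e (nat_lit 7936) (nat_lit 22) (.e (nat_lit 352000) (nat_lit 0) .nil)))))) (.g (nat_lit 4) .nil .nil))) 
(.lf (nat_lit 95688) (.g (nat_lit 2725) (.e (nat_lit 2681) (nat_lit 168) (.e (nat_lit 204845) (nat_lit 24) (.e (nat_lit 319530) (nat_lit 16) (.e (nat_lit 286735) (nat_lit 3) (.e (nat_lit 98367) (nat_lit 27) .nil))))) .nil))) (.nd (nat_lit 6) 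
(.lf (nat_lit 95656) (.g (nat_lit 2104) (.e (nat_lit 2681) (nat_lit 168) (.e (nat_lit 204829) (nat_lit 18) (.e (nat_lit 57926) (nat_lit 282) (.e (nat_lit 163869) (nat_lit 2) (.e (nat_lit 196670) (nat_lit 14) .nil))))) .nil)) 
(.lf (nat_lit 95720) (.g (nat_lit 886) (.e (nat_lit 2682) (nat_lit 168) (.e (nat_lit 204837) (nat_lit 20) (.e (nat_lit 114721) (nat_lit 24) .nil))) .nil)))) (.nd (nat_lit 5) (.nd (nat_lit 6) 
(.lf (nat_lit 95640) (.g (nat_lit 3094) (.e (nat_lit 2680) (nat_lit 168) (.e (nat_lit 204830) (nat_lit 18) (.e (nat_lit 57926) (nat_lit 282) (.e (nat_lit 163868) (nat_lit 2) (.e (nat_lit 196670) (nat_lit 14) .nil))))) .nil)) 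
(.lf (nat_lit 95704) (.g (nat_lit 2888) (.e (nat_lit 2681) (nat_lit 168) (.e (nat_lit 204869) (nat_lit 29) (.e (nat_lit 360474) (nat_lit 8) (.e (nat_lit 557070) (nat_lit 9) (.e (nat_lit 7936) (nat_lit 22) (.e (nat_lit 344068) (nat_lit 0) .nil)))))) (.g (nat_lit 4) .nil .nil)))) (.nd (nat_lit 6) 
(.lf (nat_lit 95672) (.g (nat_lit 2055) (.e (nat_lit 2681) (nat_lit 168) (.e (nat_lit 204830) (nat_lit 18) (.e (nat_lit 57926) (nat_lit 282) (.e (nat_lit 163868) (nat_lit 2) .nil)))) .nil)) 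
(.lf (nat_lit 95736) (.g (nat_lit 3216) (.e (nat_lit 2682) (nat_lit 168) (.e (nat_lit 204863) (nat_lit 27) (.e (nat_lit 344129) (nat_lit 26) (.e (nat_lit 557067) (nat_lit 9) (.e (nat_lit 2878) (nat_lit 184) (.e (nat_lit 426125) (nat_lit 2) (.e (nat_lit 196686) (nat_lit 18) (.e (nat_lit 1162) (nat_lit 86) (.e (nat_lit 49158) (nat_lit 0) .nil))))))))) (.g (nat_lit 4) .nil .nil))))))) 
(.nd (nat_lit 3) (.nd (nat_lit 4) (.nd (nat_lit 5) (.nd (nat_lit 6) 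
(.lf (nat_lit 95620) (.g (nat_lit 1801) (.e (nat_lit 2679) (nat_lit 168) (.e (nat_lit 204869) (nat_lit 29) (.e (nat_lit 360474) (nat_lit 8) (.e (nat_lit 557073) (nat_lit 9) (.e (nat_lit 7936) (nat_lit 22) (.e (nat_lit 352000) (nat_lit 0) .nil)))))) (.g (nat_lit 4) .nil .nil))) 
(.lf (nat_lit 95684) (.g (nat_lit 2674) (.e (nat_lit 2681) (nat_lit 168) (.e (nat_lit 204831) (nat_lit 18) (.e (nat_lit 57849) (nat_lit 252) (.e (nat_lit 57379) (nat_lit 3) (.e (nat_lit 98313) (nat_lit 9) .nil))))) .nil))) (.nd (nat_lit 6) 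
(.lf (nat_lit 95652) (.g (nat_lit 2802) (.e (nat_lit 2681) (nat_lit 168) (.e (nat_lit 204829) (nat_lit 18) (.e (nat_lit 57849) (nat_lit 252) (.e (nat_lit 57372) (nat_lit 2) (.e (nat_lit 90160) (nat_lit 11) (.e (nat_lit 24608) (nat_lit 3) (.e (nat_lit 98338) (nat_lit 19) (.e (nat_lit 213013) (nat_lit 9) .nil)))))))) (.g (nat_lit 4) .nil .nil))) 
(.lf (nat_lit 95716) (.g (nat_lit 3595) (.e (nat_lit 2682) (nat_lit 168) (.e (nat_lit 204813) (nat_lit 9) (.e (nat_lit 426100) (nat_lit 1) (.e (nat_lit 164398) (nat_lit 256) (.e (nat_lit 57447) (nat_lit 19) (.e (nat_lit 393238) (nat_lit 17) (.e (nat_lit 7349) (nat_lit 388) .nil))))))) (.g (nat_lit 5) .nil .nil))))) (.nd (nat_lit 5) (.nd (nat_lit 6) 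
(.lf (nat_lit 95636) (.g (nat_lit 2757) (.e (nat_lit 2680) (nat_lit 168) (.e (nat_lit 204829) (nat_lit 18) (.e (nat_lit 57931) (nat_lit 282) (.e (nat_lit 163867) (nat_lit 2) (.e (nat_lit 196670) (nat_lit 14) .nil))))) .nil)) 
(.lf (nat_lit 95700) (.g (nat_lit 1517) (.e (nat_lit 2681) (nat_lit 168) (.e (nat_lit 204866) (nat_lit 28) (.e (nat_lit 352318) (nat_lit 24) (.e (nat_lit 130816) (nat_lit 140) .nil)))) .nil))) (.nd (nat_lit 6) 
(.lf (nat_lit 95668) (.g (nat_lit 3014) (.e (nat_lit 2681) (nat_lit 168) (.e (nat_lit 204829) (nat_lit 18) (.e (nat_lit 57931) (nat_lit 282) (.e (nat_lit 163869) (nat_lit 2) (.e (nat_lit 196670) (nat_lit 14) .nil))))) .nil)) 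
(.lf (nat_lit 95732) (.g (nat_lit 1137) (.e (nat_lit 2682) (nat_lit 168) (.e (nat_lit 204854) (nat_lit 26) (.e (nat_lit 336310) (nat_lit 16) .nil))) .nil))))) (.nd (nat_lit 4) (.nd (nat_lit 5) (.nd (nat_lit 6) 
(.lf (nat_lit 95628) (.g (nat_lit 3600) (.e (nat_lit 2680) (nat_lit 168) (.e (nat_lit 204829) (nat_lit 18) (.e (nat_lit 57847) (nat_lit 252) (.e (nat_lit 57370) (nat_lit 2) .nil)))) .nil)) 
(.lf (nat_lit 95692) (.g (nat_lit 893) (.e (nat_lit 2681) (nat_lit 168) (.e (nat_lit 204855) (nat_lit 26) (.e (nat_lit 336061) (nat_lit 7) .nil))) .nil))) (.nd (nat_lit 6) 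
(.lf (nat_lit 95660) (.g (nat_lit 2663) (.e (nat_lit 2681) (nat_lit 168) (.e (nat_lit 204829) (nat_lit 18) (.e (nat_lit 57927) (nat_lit 282) (.e (nat_lit 163867) (nat_lit 2) (.e (nat_lit 196670) (nat_lit 14) .nil))))) .nil)) 
(.lf (nat_lit 95724) (.g (nat_lit 1770) (.e (nat_lit 2682) (nat_lit 168) (.e (nat_lit 204845) (nat_lit 24) (.e (nat_lit 319531) (nat_lit 16) (.e (nat_lit 286733) (nat_lit 2) .nil)))) .nil)))) (.nd (nat_lit 5) (.nd (nat_lit 6) 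
(.lf (nat_lit 95644) (.g (nat_lit 2619) (.e (nat_lit 2680) (nat_lit 168) (.e (nat_lit 204862) (nat_lit 27) (.e (nat_lit 344129) (nat_lit 26) (.e (nat_lit 557097) (nat_lit 13) (.e (nat_lit 172133) (nat_lit 15) .nil))))) .nil)) 
(.lf (nat_lit 95708) (.g (nat_lit 4298) (.e (nat_lit 2681) (nat_lit 168) (.e (nat_lit 204869) (nat_lit 29) (.e (nat_lit 360475) (nat_lit 8) (.e (nat_lit 557064) (nat_lit 9) .nil)))) .nil))) (.nd (nat_lit 6) 
(.lf (nat_lit 95676) (.g (nat_lit 2644) (.e (nat_lit 2681) (nat_lit 168) (.e (nat_lit 204830) (nat_lit 18) (.e (nat_lit 57926) (nat_lit 282) (.e (nat_lit 163871) (nat_lit 2) (.e (nat_lit 196668) (nat_lit 14) .nil))))) .nil)) 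
(.lf (nat_lit 95740) (.g (nat_lit 2895) (.e (nat_lit 2682) (nat_lit 168) (.e (nat_lit 204863) (nat_lit 27) (.e (nat_lit 344133) (nat_lit 26) (.e (nat_lit 557098) (nat_lit 13) (.e (nat_lit 172064) (nat_lit 2) (.e (nat_lit 196686) (nat_lit 18) (.e (nat_lit 1162) (nat_lit 86) (.e (nat_lit 49159) (nat_lit 0) .nil)))))))) (.g (nat_lit 4) .nil .nil)))))))) 
(.nd (nat_lit 2) (.nd (nat_lit 3) (.nd (nat_lit 4) (.nd (nat_lit 5) (.nd (nat_lit 6) 
(.lf (nat_lit 95618) (.g (nat_lit 2298) (.e (nat_lit 2679) (nat_lit 168) (.e (nat_lit 204869) (nat_lit 29) (.e (nat_lit 360474) (nat_lit 8) (.e (nat_lit 557072) (nat_lit 9) (.e (nat_lit 7936) (nat_lit 22) (.e (nat_lit 352000) (nat_lit 0) .nil)))))) (.g (nat_lit 4) .nil .nil))) 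
(.lf (nat_lit 95682) (.g (nat_lit 2504) (.e (nat_lit 2681) (nat_lit 168) (.e (nat_lit 204831) (nat_lit 18) (.e (nat_lit 57849) (nat_lit 252) (.e (nat_lit 57375) (nat_lit 2) (.e (nat_lit 90158) (nat_lit 11) .nil))))) .nil))) (.nd (nat_lit 6) 
(.lf (nat_lit 95650) (.g (nat_lit 2548) (.e (nat_lit 2681) (nat_lit 168) (.e (nat_lit 204829) (nat_lit 18) (.e (nat_lit 57847) (nat_lit 252) (.e (nat_lit 57378) (nat_lit 3) .nil)))) .nil)) 
(.lf (nat_lit 95714) (.g (nat_lit 1639) (.e (nat_lit 2681) (nat_lit 168) (.e (nat_lit 204880) (nat_lit 32) (.e (nat_lit 385094) (nat_lit 49) .nil))) .nil)))) (.nd (nat_lit 5) (.nd (nat_lit 6) 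
(.lf (nat_lit 95634) (.g (nat_lit 2093) (.e (nat_lit 2680) (nat_lit 168) (.e (nat_lit 204829) (nat_lit 18) (.e (nat_lit 57927) (nat_lit 282) (.e (nat_lit 163871) (nat_lit 2) (.e (nat_lit 196670) (nat_lit 14) .nil))))) .nil)) 
(.lf (nat_lit 95698) (.g (nat_lit 3311) (.e (nat_lit 2681) (nat_lit 168) (.e (nat_lit 204864) (nat_lit 27) (.e (nat_lit 344133) (nat_lit 26) (.e (nat_lit 557105) (nat_lit 14) (.e (nat_lit 180252) (nat_lit 10) (.e (nat_lit 573474) (nat_lit 12) (.e (nat_lit 57508) (nat_lit 39) (.e (nat_lit 647176) (nat_lit 0) .nil)))))))) (.g (nat_lit 5) .nil .nil)))) (.nd (nat_lit 6) 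
(.lf (nat_lit 95666) (.g (nat_lit 2713) (.e (nat_lit 2681) (nat_lit 168) (.e (nat_lit 204829) (nat_lit 18) (.e (nat_lit 57927) (nat_lit 282) (.e (nat_lit 163873) (nat_lit 3) (.e (nat_lit 204862) (nat_lit 27) .nil))))) .nil)) 
(.lf (nat_lit 95730) (.g (nat_lit 2404) (.e (nat_lit 2682) (nat_lit 168) (.e (nat_lit 204846) (nat_lit 24) (.e (nat_lit 319534) (nat_lit 16) (.e (nat_lit 286733) (nat_lit 2) (.e (nat_lit 90173) (nat_lit 14) .nil))))) .nil))))) (.nd (nat_lit 4) (.nd (nat_lit 5) (.nd (nat_lit 6) 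
(.lf (nat_lit 95626) (.g (nat_lit 3239) (.e (nat_lit 2679) (nat_lit 168) (.e (nat_lit 204869) (nat_lit 29) (.e (nat_lit 360475) (nat_lit 8) (.e (nat_lit 557073) (nat_lit 9) (.e (nat_lit 22) (nat_lit 0) .nil))))) .nil)) 
(.lf (nat_lit 95690) (.g (nat_lit 726) (.e (nat_lit 2681) (nat_lit 168) (.e (nat_lit 204846) (nat_lit 24) (.e (nat_lit 319531) (nat_lit 16) .nil))) .nil))) (.nd (nat_lit 6) 
(.lf (nat_lit 95658) (.g (nat_lit 2206) (.e (nat_lit 2681) (nat_lit 168) (.e (nat_lit 204829) (nat_lit 18) (.e (nat_lit 57926) (nat_lit 282) (.e (nat_lit 163871) (nat_lit 2) (.e (nat_lit 196670) (nat_lit 14) .nil))))) .nil)) 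
(.lf (nat_lit 95722) (.g (nat_lit 2980) (.e (nat_lit 2682) (nat_lit 168) (.e (nat_lit 204845) (nat_lit 24) (.e (nat_lit 319530) (nat_lit 16) (.e (nat_lit 286733) (nat_lit 2) (.e (nat_lit 90173) (nat_lit 14) .nil))))) .nil)))) (.nd (nat_lit 5) (.nd (nat_lit 6) 
(.lf (nat_lit 95642) (.g (nat_lit 2643) (.e (nat_lit 2680) (nat_lit 168) (.e (nat_lit 204830) (nat_lit 18) (.e (nat_lit 57926) (nat_lit 282) (.e (nat_lit 163871) (nat_lit 2) (.e (nat_lit 196668) (nat_lit 14) .nil))))) .nil)) 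
(.lf (nat_lit 95706) (.g (nat_lit 3703) (.e (nat_lit 2681) (nat_lit 168) (.e (nat_lit 204869) (nat_lit 29) (.e (nat_lit 360474) (nat_lit 8) (.e (nat_lit 557074) (nat_lit 9) .nil)))) .nil))) (.nd (nat_lit 6) 
(.lf (nat_lit 95674) (.g (nat_lit 2393) (.e (nat_lit 2681) (nat_lit 168) (.e (nat_lit 204830) (nat_lit 18) (.e (nat_lit 57926) (nat_lit 282) (.e (nat_lit 163869) (nat_lit 2) (.e (nat_lit 196670) (nat_lit 14) .nil))))) .nil)) 
(.lf (nat_lit 95738) (.g (nat_lit 2876) (.e (nat_lit 2682) (nat_lit 168) (.e (nat_lit 204863) (nat_lit 27) (.e (nat_lit 344129) (nat_lit 26) (.e (nat_lit 557067) (nat_lit 9) (.e (nat_lit 2878) (nat_lit 184) (.e (nat_lit 426125) (nat_lit 2) (.e (nat_lit 196686) (nat_lit 18) (.e (nat_lit 1163) (nat_lit 86) (.e (nat_lit 49159) (nat_lit 0) .nil))))))))) (.g (nat_lit 4) .nil .nil))))))) 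
(.nd (nat_lit 3) (.nd (nat_lit 4) (.nd (nat_lit 5) (.nd (nat_lit 6) 
(.lf (nat_lit 95622) (.g (nat_lit 3938) (.e (nat_lit 2679) (nat_lit 168) (.e (nat_lit 204869) (nat_lit 29) (.e (nat_lit 360475) (nat_lit 8) (.e (nat_lit 557067) (nat_lit 9) (.e (nat_lit 22) (nat_lit 0) .nil))))) .nil)) 
(.lf (nat_lit 95686) (.g (nat_lit 2154) (.e (nat_lit 2681) (nat_lit 168) (.e (nat_lit 204831) (nat_lit 18) (.e (nat_lit 57931) (nat_lit 282) (.e (nat_lit 163867) (nat_lit 2) (.e (nat_lit 196670) (nat_lit 14) .nil))))) .nil))) (.nd (nat_lit 6) 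
(.lf (nat_lit 95654) (.g (nat_lit 2490) (.e (nat_lit 2681) (nat_lit 168) (.e (nat_lit 204829) (nat_lit 18) (.e (nat_lit 57849) (nat_lit 252) (.e (nat_lit 57377) (nat_lit 3) (.e (nat_lit 98313) (nat_lit 9) (.e (nat_lit 336027) (nat_lit 3) (.e (nat_lit 98337) (nat_lit 19) (.e (nat_lit 213022) (nat_lit 9) .nil)))))))) (.g (nat_lit 4) .nil .nil))) 
(.lf (nat_lit 95718) (.g (nat_lit 3214) (.e (nat_lit 2682) (nat_lit 168) (.e (nat_lit 204813) (nat_lit 9) (.e (nat_lit 426107) (nat_lit 1) (.e (nat_lit 164403) (nat_lit 256) (.e (nat_lit 57447) (nat_lit 19) (.e (nat_lit 393238) (nat_lit 17) (.e (nat_lit 7349) (nat_lit 388) .nil))))))) (.g (nat_lit 5) .nil .nil))))) (.nd (nat_lit 5) (.nd (nat_lit 6) 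
(.lf (nat_lit 95638) (.g (nat_lit 3300) (.e (nat_lit 2680) (nat_lit 168) (.e (nat_lit 204829) (nat_lit 18) (.e (nat_lit 57931) (nat_lit 282) (.e (nat_lit 163874) (nat_lit 3) (.e (nat_lit 204862) (nat_lit 27) .nil))))) .nil)) 
(.lf (nat_lit 95702) (.g (nat_lit 907) (.e (nat_lit 2681) (nat_lit 168) (.e (nat_lit 204869) (nat_lit 29) (.e (nat_lit 368384) (nat_lit 0) .nil))) .nil))) (.nd (nat_lit 6) 
(.lf (nat_lit 95670) (.g (nat_lit 2597) (.e (nat_lit 2681) (nat_lit 168) (.e (nat_lit 204830) (nat_lit 18) (.e (nat_lit 57852) (nat_lit 252) (.e (nat_lit 57378) (nat_lit 3) (.e (nat_lit 98313) (nat_lit 9) (.e (nat_lit 336027) (nat_lit 3) (.e (nat_lit 98338) (nat_lit 19) (.e (nat_lit 213013) (nat_lit 9) .nil)))))))) (.g (nat_lit 4) .nil .nil))) 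
(.lf (nat_lit 95734) (.g (nat_lit 3234) (.e (nat_lit 2682) (nat_lit 168) (.e (nat_lit 204862) (nat_lit 27) (.e (nat_lit 344129) (nat_lit 26) (.e (nat_lit 557067) (nat_lit 9) (.e (nat_lit 2878) (nat_lit 184) .nil))))) .nil))))) (.nd (nat_lit 4) (.nd (nat_lit 5) (.nd (nat_lit 6) 
(.lf (nat_lit 95630) (.g (nat_lit 2083) (.e (nat_lit 2680) (nat_lit 168) (.e (nat_lit 204829) (nat_lit 18) (.e (nat_lit 57927) (nat_lit 282) (.e (nat_lit 163866) (nat_lit 2) (.e (nat_lit 196670) (nat_lit 14) .nil))))) .nil)) 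
(.lf (nat_lit 95694) (.g (nat_lit 1230) (.e (nat_lit 2681) (nat_lit 168) (.e (nat_lit 204861) (nat_lit 26) (.e (nat_lit 336076) (nat_lit 9) (.e (nat_lit 336314) (nat_lit 16) .nil)))) .nil))) (.nd (nat_lit 6) 
(.lf (nat_lit 95662) (.g (nat_lit 2087) (.e (nat_lit 2681) (nat_lit 168) (.e (nat_lit 204829) (nat_lit 18) (.e (nat_lit 57927) (nat_lit 282) (.e (nat_lit 163868) (nat_lit 2) (.e (nat_lit 196668) (nat_lit 14) .nil))))) .nil)) 
(.lf (nat_lit 95726) (.g (nat_lit 3014) (.e (nat_lit 2682) (nat_lit 168) (.e (nat_lit 204845) (nat_lit 24) (.e (nat_lit 319531) (nat_lit 16) (.e (nat_lit 286733) (nat_lit 2) (.e (nat_lit 90174) (nat_lit 14) .nil))))) .nil)))) (.nd (nat_lit 5) (.nd (nat_lit 6) 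
(.lf (nat_lit 95646) (.g (nat_lit 1221) (.e (nat_lit 2681) (nat_lit 168) (.e (nat_lit 204829) (nat_lit 18) (.e (nat_lit 57847) (nat_lit 252) .nil))) .nil)) 
(.lf (nat_lit 95710) (.g (nat_lit 3655) (.e (nat_lit 2681) (nat_lit 168) (.e (nat_lit 204869) (nat_lit 29) (.e (nat_lit 360475) (nat_lit 8) (.e (nat_lit 557066) (nat_lit 9) (.e (nat_lit 297) (nat_lit 22) (.e (nat_lit 344069) (nat_lit 0) .nil)))))) (.g (nat_lit 0) .nil .nil)))) (.nd (nat_lit 6) 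
(.lf (nat_lit 95678) (.g (nat_lit 2780) (.e (nat_lit 2681) (nat_lit 168) (.e (nat_lit 204830) (nat_lit 18) (.e (nat_lit 57926) (nat_lit 282) (.e (nat_lit 163875) (nat_lit 3) (.e (nat_lit 204862) (nat_lit 27) .nil))))) .nil)) 
(.lf (nat_lit 95742) (.g (nat_lit 4209) (.e (nat_lit 2682) (nat_lit 168) (.e (nat_lit 204863) (nat_lit 27) (.e (nat_lit 344169) (nat_lit 40) (.e (nat_lit 671759) (nat_lit 3) (.e (nat_lit 57479) (nat_lit 28) (.e (nat_lit 557105) (nat_lit 14) (.e (nat_lit 180280) (nat_lit 40) .nil))))))) (.g (nat_lit 0) .nil .nil))))))))) 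
(.nd (nat_lit 1) (.nd (nat_lit 2) (.nd (nat_lit 3) (.nd (nat_lit 4) (.nd (nat_lit 5) 
(.nd (nat_lit 6) 
(.lf (nat_lit 95617) (.g (nat_lit 3045) (.e (nat_lit 2679) (nat_lit 168) (.e (nat_lit 204869) (nat_lit 29) (.e (nat_lit 360474) (nat_lit 8) (.e (nat_lit 557072) (nat_lit 9) (.e (nat_lit 214) (nat_lit 19) (.e (nat_lit 319490) (nat_lit 0) (.e (nat_lit 5664) (nat_lit 312) .nil))))))) (.g (nat_lit 4) .nil .nil))) 
(.lf (nat_lit 95681) (.g (nat_lit 2628) (.e (nat_lit 2681) (nat_lit 168) (.e (nat_lit 204831) (nat_lit 18) (.e (nat_lit 57847) (nat_lit 252) (.e (nat_lit 57377) (nat_lit 3) .nil)))) .nil))) (.nd (nat_lit 6) 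
(.lf (nat_lit 95649) (.g (nat_lit 4099) (.e (nat_lit 2681) (nat_lit 168) (.e (nat_lit 204829) (nat_lit 18) (.e (nat_lit 57847) (nat_lit 252) (.e (nat_lit 57377) (nat_lit 3) (.e (nat_lit 98313) (nat_lit 9) (.e (nat_lit 336027) (nat_lit 3) (.e (nat_lit 98338) (nat_lit 19) (.e (nat_lit 213013) (nat_lit 9) .nil)))))))) (.g (nat_lit 4) .nil .nil))) 
(.lf (nat_lit 95713) (.g (nat_lit 2597) (.e (nat_lit 2681) (nat_lit 168) (.e (nat_lit 204869) (nat_lit 29) (.e (nat_lit 360475) (nat_lit 8) (.e (nat_lit 557087) (nat_lit 11) (.e (nat_lit 24584) (nat_lit 0) .nil))))) .nil)))) (.nd (nat_lit 5) (.nd (nat_lit 6) 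
(.lf (nat_lit 95633) (.g (nat_lit 2237) (.e (nat_lit 2680) (nat_lit 168) (.e (nat_lit 204829) (nat_lit 18) (.e (nat_lit 57927) (nat_lit 282) (.e (nat_lit 163871) (nat_lit 2) (.e (nat_lit 196668) (nat_lit 14) .nil))))) .nil)) 
(.lf (nat_lit 95697) (.g (nat_lit 3182) (.e (nat_lit 2681) (nat_lit 168) (.e (nat_lit 204864) (nat_lit 27) (.e (nat_lit 344132) (nat_lit 26) (.e (nat_lit 557105) (nat_lit 14) (.e (nat_lit 180252) (nat_lit 10) (.e (nat_lit 573473) (nat_lit 12) (.e (nat_lit 57508) (nat_lit 39) (.e (nat_lit 647176) (nat_lit 0) .nil)))))))) (.g (nat_lit 6) .nil .nil)))) (.nd (nat_lit 6) 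
(.lf (nat_lit 95665) (.g (nat_lit 2174) (.e (nat_lit 2681) (nat_lit 168) (.e (nat_lit 204829) (nat_lit 18) (.e (nat_lit 57927) (nat_lit 282) (.e (nat_lit 163871) (nat_lit 2) (.e (nat_lit 196668) (nat_lit 14) .nil))))) .nil)) 
(.lf (nat_lit 95729) (.g (nat_lit 1383) (.e (nat_lit 2682) (nat_lit 168) (.e (nat_lit 204846) (nat_lit 24) (.e (nat_lit 319533) (nat_lit 16) (.e (nat_lit 286733) (nat_lit 2) .nil)))) .nil))))) (.nd (nat_lit 4) (.nd (nat_lit 5) (.nd (nat_lit 6) 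
(.lf (nat_lit 95625) (.g (nat_lit 3360) (.e (nat_lit 2679) (nat_lit 168) (.e (nat_lit 204869) (nat_lit 29) (.e (nat_lit 360475) (nat_lit 8) (.e (nat_lit 557071) (nat_lit 9) .nil)))) .nil)) 
(.lf (nat_lit 95689) (.g (nat_lit 1760) (.e (nat_lit 2681) (nat_lit 168) (.e (nat_lit 204845) (nat_lit 24) (.e (nat_lit 319531) (nat_lit 16) (.e (nat_lit 286733) (nat_lit 2) .nil)))) .nil))) (.nd (nat_lit 6) 
(.lf (nat_lit 95657) (.g (nat_lit 2401) (.e (nat_lit 2681) (nat_lit 168) (.e (nat_lit 204829) (nat_lit 18) (.e (nat_lit 57926) (nat_lit 282) (.e (nat_lit 163871) (nat_lit 2) (.e (nat_lit 196668) (nat_lit 14) .nil))))) .nil)) 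
(.lf (nat_lit 95721) (.g (nat_lit 816) (.e (nat_lit 2682) (nat_lit 168) (.e (nat_lit 204838) (nat_lit 20) (.e (nat_lit 114723) (nat_lit 24) .nil))) .nil)))) (.nd (nat_lit 5) (.nd (nat_lit 6) 
(.lf (nat_lit 95641) (.g (nat_lit 2391) (.e (nat_lit 2680) (nat_lit 168) (.e (nat_lit 204830) (nat_lit 18) (.e (nat_lit 57926) (nat_lit 282) (.e (nat_lit 163869) (nat_lit 2) (.e (nat_lit 196670) (nat_lit 14) .nil))))) .nil)) 
(.lf (nat_lit 95705) (.g (nat_lit 2866) (.e (nat_lit 2681) (nat_lit 168) (.e (nat_lit 204869) (nat_lit 29) (.e (nat_lit 360474) (nat_lit 8) (.e (nat_lit 557070) (nat_lit 9) (.e (nat_lit 7936) (nat_lit 22) (.e (nat_lit 344069) (nat_lit 0) .nil)))))) (.g (nat_lit 4) .nil .nil)))) (.nd (nat_lit 6) 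
(.lf (nat_lit 95673) (.g (nat_lit 3055) (.e (nat_lit 2681) (nat_lit 168) (.e (nat_lit 204830) (nat_lit 18) (.e (nat_lit 57926) (nat_lit 282) (.e (nat_lit 163868) (nat_lit 2) (.e (nat_lit 196668) (nat_lit 14) .nil))))) .nil)) 
(.lf (nat_lit 95737) (.g (nat_lit 4656) (.e (nat_lit 2682) (nat_lit 168) (.e (nat_lit 204863) (nat_lit 27) (.e (nat_lit 344129) (nat_lit 26) (.e (nat_lit 557067) (nat_lit 9) (.e (nat_lit 2878) (nat_lit 184) (.e (nat_lit 426125) (nat_lit 2) (.e (nat_lit 196686) (nat_lit 18) (.e (nat_lit 1162) (nat_lit 86) (.e (nat_lit 49159) (nat_lit 0) .nil))))))))) (.g (nat_lit 6) .nil .nil))))))) 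
(.nd (nat_lit 3) (.nd (nat_lit 4) (.nd (nat_lit 5) (.nd (nat_lit 6) 
(.lf (nat_lit 95621) (.g (nat_lit 3166) (.e (nat_lit 2679) (nat_lit 168) (.e (nat_lit 204869) (nat_lit 29) (.e (nat_lit 360475) (nat_lit 8) (.e (nat_lit 557064) (nat_lit 9) .nil)))) .nil)) 
(.lf (nat_lit 95685) (.g (nat_lit 2577) (.e (nat_lit 2681) (nat_lit 168) (.e (nat_lit 204831) (nat_lit 18) (.e (nat_lit 57852) (nat_lit 252) (.e (nat_lit 57377) (nat_lit 3) (.e (nat_lit 98313) (nat_lit 9) (.e (nat_lit 336027) (nat_lit 3) (.e (nat_lit 98338) (nat_lit 19) (.e (nat_lit 213013) (nat_lit 9) .nil)))))))) (.g (nat_lit 4) .nil .nil)))) (.nd (nat_lit 6) 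
(.lf (nat_lit 95653) (.g (nat_lit 2404) (.e (nat_lit 2681) (nat_lit 168) (.e (nat_lit 204829) (nat_lit 18) (.e (nat_lit 57849) (nat_lit 252) (.e (nat_lit 57377) (nat_lit 3) (.e (nat_lit 98313) (nat_lit 9) .nil))))) .nil)) 
(.lf (nat_lit 95717) (.g (nat_lit 3035) (.e (nat_lit 2682) (nat_lit 168) (.e (nat_lit 204813) (nat_lit 9) (.e (nat_lit 426100) (nat_lit 1) (.e (nat_lit 164399) (nat_lit 256) (.e (nat_lit 57447) (nat_lit 19) (.e (nat_lit 393238) (nat_lit 17) (.e (nat_lit 7349) (nat_lit 388) .nil))))))) (.g (nat_lit 5) .nil .nil))))) (.nd (nat_lit 5) (.nd (nat_lit 6) 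
(.lf (nat_lit 95637) (.g (nat_lit 3010) (.e (nat_lit 2680) (nat_lit 168) (.e (nat_lit 204829) (nat_lit 18) (.e (nat_lit 57931) (nat_lit 282) (.e (nat_lit 163869) (nat_lit 2) (.e (nat_lit 196670) (nat_lit 14) .nil))))) .nil)) 
(.lf (nat_lit 95701) (.g (nat_lit 1088) (.e (nat_lit 2681) (nat_lit 168) (.e (nat_lit 204868) (nat_lit 29) (.e (nat_lit 360466) (nat_lit 3) (.e (nat_lit 516139) (nat_lit 7) .nil)))) .nil))) (.nd (nat_lit 6) 
(.lf (nat_lit 95669) (.g (nat_lit 3303) (.e (nat_lit 2681) (nat_lit 168) (.e (nat_lit 204829) (nat_lit 18) (.e (nat_lit 57931) (nat_lit 282) (.e (nat_lit 163874) (nat_lit 3) (.e (nat_lit 204862) (nat_lit 27) .nil))))) .nil)) 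
(.lf (nat_lit 95733) (.g (nat_lit 2186) (.e (nat_lit 2682) (nat_lit 168) (.e (nat_lit 204857) (nat_lit 26) (.e (nat_lit 336228) (nat_lit 14) (.e (nat_lit 401425) (nat_lit 2) (.e (nat_lit 196668) (nat_lit 14) (.e (nat_lit 73782) (nat_lit 32) .nil)))))) (.g (nat_lit 5) .nil .nil)))))) (.nd (nat_lit 4) (.nd (nat_lit 5) (.nd (nat_lit 6) 
(.lf (nat_lit 95629) (.g (nat_lit 2100) (.e (nat_lit 2680) (nat_lit 168) (.e (nat_lit 204829) (nat_lit 18) (.e (nat_lit 57926) (nat_lit 282) (.e (nat_lit 163869) (nat_lit 2) (.e (nat_lit 196670) (nat_lit 14) .nil))))) .nil)) 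
(.lf (nat_lit 95693) (.g (nat_lit 1575) (.e (nat_lit 2681) (nat_lit 168) (.e (nat_lit 204855) (nat_lit 26) (.e (nat_lit 336061) (nat_lit 7) (.e (nat_lit 319517) (nat_lit 12) .nil)))) .nil))) (.nd (nat_lit 6) 
(.lf (nat_lit 95661) (.g (nat_lit 2077) (.e (nat_lit 2681) (nat_lit 168) (.e (nat_lit 204829) (nat_lit 18) (.e (nat_lit 57927) (nat_lit 282) (.e (nat_lit 163868) (nat_lit 2) (.e (nat_lit 196663) (nat_lit 13) .nil))))) .nil)) 
(.lf (nat_lit 95725) (.g (nat_lit 3157) (.e (nat_lit 2682) (nat_lit 168) (.e (nat_lit 204845) (nat_lit 24) (.e (nat_lit 319531) (nat_lit 16) (.e (nat_lit 286733) (nat_lit 2) (.e (nat_lit 90173) (nat_lit 14) .nil))))) .nil)))) (.nd (nat_lit 5) (.nd (nat_lit 6) 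
(.lf (nat_lit 95645) (.g (nat_lit 2693) (.e (nat_lit 2680) (nat_lit 168) (.e (nat_lit 204863) (nat_lit 27) (.e (nat_lit 344133) (nat_lit 26) (.e (nat_lit 557098) (nat_lit 13) (.e (nat_lit 172133) (nat_lit 15) .nil))))) .nil)) 
(.lf (nat_lit 95709) (.g (nat_lit 3974) (.e (nat_lit 2681) (nat_lit 168) (.e (nat_lit 204869) (nat_lit 29) (.e (nat_lit 360475) (nat_lit 8) (.e (nat_lit 557065) (nat_lit 9) (.e (nat_lit 7936) (nat_lit 22) .nil))))) .nil))) (.nd (nat_lit 6) 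
(.lf (nat_lit 95677) (.g (nat_lit 2443) (.e (nat_lit 2681) (nat_lit 168) (.e (nat_lit 204830) (nat_lit 18) (.e (nat_lit 57926) (nat_lit 282) (.e (nat_lit 163871) (nat_lit 2) (.e (nat_lit 196670) (nat_lit 14) .nil))))) .nil)) 
(.lf (nat_lit 95741) (.g (nat_lit 4188) (.e (nat_lit 2682) (nat_lit 168) (.e (nat_lit 204863) (nat_lit 27) (.e (nat_lit 344169) (nat_lit 40) (.e (nat_lit 671759) (nat_lit 3) (.e (nat_lit 57479) (nat_lit 28) (.e (nat_lit 557103) (nat_lit 14) (.e (nat_lit 180281) (nat_lit 40) .nil))))))) (.g (nat_lit 0) .nil .nil)))))))) 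
(.nd (nat_lit 2) (.nd (nat_lit 3) (.nd (nat_lit 4) (.nd (nat_lit 5) (.nd (nat_lit 6) 
(.lf (nat_lit 95619) (.g (nat_lit 1929) (.e (nat_lit 2679) (nat_lit 168) (.e (nat_lit 204869) (nat_lit 29) (.e (nat_lit 360474) (nat_lit 8) (.e (nat_lit 557073) (nat_lit 9) (.e (nat_lit 20) (nat_lit 0) .nil))))) .nil)) 
(.lf (nat_lit 95683) (.g (nat_lit 2968) (.e (nat_lit 2681) (nat_lit 168) (.e (nat_lit 204831) (nat_lit 18) (.e (nat_lit 57849) (nat_lit 252) (.e (nat_lit 57377) (nat_lit 3) (.e (nat_lit 98313) (nat_lit 9) (.e (nat_lit 336027) (nat_lit 3) (.e (nat_lit 98338) (nat_lit 19) (.e (nat_lit 213013) (nat_lit 9) .nil)))))))) (.g (nat_lit 4) .nil .nil)))) (.nd (nat_lit 6) 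
(.lf (nat_lit 95651) (.g (nat_lit 2086) (.e (nat_lit 2681) (nat_lit 168) (.e (nat_lit 204829) (nat_lit 18) (.e (nat_lit 57849) (nat_lit 252) (.e (nat_lit 57372) (nat_lit 2) (.e (nat_lit 90158) (nat_lit 11) (.e (nat_lit 24608) (nat_lit 3) (.e (nat_lit 98337) (nat_lit 19) (.e (nat_lit 213022) (nat_lit 9) .nil)))))))) (.g (nat_lit 4) .nil .nil))) 
(.lf (nat_lit 95715) (.g (nat_lit 2744) (.e (nat_lit 2682) (nat_lit 168) (.e (nat_lit 204813) (nat_lit 9) (.e (nat_lit 426098) (nat_lit 1) (.e (nat_lit 164399) (nat_lit 256) (.e (nat_lit 57447) (nat_lit 19) (.e (nat_lit 393238) (nat_lit 17) (.e (nat_lit 7349) (nat_lit 388) .nil))))))) (.g (nat_lit 5) .nil .nil))))) (.nd (nat_lit 5) (.nd (nat_lit 6) 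
(.lf (nat_lit 95635) (.g (nat_lit 2776) (.e (nat_lit 2680) (nat_lit 168) (.e (nat_lit 204829) (nat_lit 18) (.e (nat_lit 57927) (nat_lit 282) (.e (nat_lit 163873) (nat_lit 3) (.e (nat_lit 204862) (nat_lit 27) .nil))))) .nil)) 
(.lf (nat_lit 95699) (.g (nat_lit 1758) (.e (nat_lit 2681) (nat_lit 168) (.e (nat_lit 204866) (nat_lit 28) (.e (nat_lit 352318) (nat_lit 24) (.e (nat_lit 123041) (nat_lit 140) .nil)))) .nil))) (.nd (nat_lit 6) 
(.lf (nat_lit 95667) (.g (nat_lit 2760) (.e (nat_lit 2681) (nat_lit 168) (.e (nat_lit 204829) (nat_lit 18) (.e (nat_lit 57931) (nat_lit 282) (.e (nat_lit 163867) (nat_lit 2) (.e (nat_lit 196670) (nat_lit 14) .nil))))) .nil)) 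
(.lf (nat_lit 95731) (.g (nat_lit 2002) (.e (nat_lit 2682) (nat_lit 168) (.e (nat_lit 204852) (nat_lit 26) (.e (nat_lit 336310) (nat_lit 16) (.e (nat_lit 164183) (nat_lit 154) (.e (nat_lit 57373) (nat_lit 2) .nil))))) .nil))))) (.nd (nat_lit 4) (.nd (nat_lit 5) (.nd (nat_lit 6) 
(.lf (nat_lit 95627) (.g (nat_lit 1415) (.e (nat_lit 2679) (nat_lit 168) (.e (nat_lit 204869) (nat_lit 29) (.e (nat_lit 360475) (nat_lit 8) (.e (nat_lit 557087) (nat_lit 11) .nil)))) .nil)) 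
(.lf (nat_lit 95691) (.g (nat_lit 905) (.e (nat_lit 2681) (nat_lit 168) (.e (nat_lit 204852) (nat_lit 26) (.e (nat_lit 336310) (nat_lit 16) .nil))) .nil))) (.nd (nat_lit 6) 
(.lf (nat_lit 95659) (.g (nat_lit 2020) (.e (nat_lit 2681) (nat_lit 168) (.e (nat_lit 204829) (nat_lit 18) (.e (nat_lit 57927) (nat_lit 282) (.e (nat_lit 163866) (nat_lit 2) (.e (nat_lit 196670) (nat_lit 14) .nil))))) .nil)) 
(.lf (nat_lit 95723) (.g (nat_lit 2723) (.e (nat_lit 2682) (nat_lit 168) (.e (nat_lit 204845) (nat_lit 24) (.e (nat_lit 319530) (nat_lit 16) (.e (nat_lit 286733) (nat_lit 2) (.e (nat_lit 90174) (nat_lit 14) (.e (nat_lit 180280) (nat_lit 40) .nil)))))) (.g (nat_lit 4) .nil .nil))))) (.nd (nat_lit 5) (.nd (nat_lit 6) 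
(.lf (nat_lit 95643) (.g (nat_lit 2715) (.e (nat_lit 2680) (nat_lit 168) (.e (nat_lit 204830) (nat_lit 18) (.e (nat_lit 57926) (nat_lit 282) (.e (nat_lit 163874) (nat_lit 3) (.e (nat_lit 204863) (nat_lit 27) .nil))))) .nil)) 
(.lf (nat_lit 95707) (.g (nat_lit 2430) (.e (nat_lit 2681) (nat_lit 168) (.e (nat_lit 204869) (nat_lit 29) (.e (nat_lit 360474) (nat_lit 8) (.e (nat_lit 557087) (nat_lit 11) .nil)))) .nil))) (.nd (nat_lit 6) 
(.lf (nat_lit 95675) (.g (nat_lit 3186) (.e (nat_lit 2681) (nat_lit 168) (.e (nat_lit 204830) (nat_lit 18) (.e (nat_lit 57926) (nat_lit 282) (.e (nat_lit 163870) (nat_lit 2) (.e (nat_lit 196670) (nat_lit 14) .nil))))) .nil)) 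
(.lf (nat_lit 95739) (.g (nat_lit 2299) (.e (nat_lit 2682) (nat_lit 168) (.e (nat_lit 204863) (nat_lit 27) (.e (nat_lit 344129) (nat_lit 26) (.e (nat_lit 557097) (nat_lit 13) (.e (nat_lit 172064) (nat_lit 2) (.e (nat_lit 196686) (nat_lit 18) (.e (nat_lit 1162) (nat_lit 86) (.e (nat_lit 49159) (nat_lit 0) .nil)))))))) (.g (nat_lit 4) .nil .nil))))))) 
(.nd (nat_lit 3) (.nd (nat_lit 4) (.nd (nat_lit 5) (.nd (nat_lit 6) 
(.lf (nat_lit 95623) (.g (nat_lit 5104) (.e (nat_lit 2679) (nat_lit 168) (.e (nat_lit 204869) (nat_lit 29) (.e (nat_lit 360475) (nat_lit 8) (.e (nat_lit 557067) (nat_lit 9) (.e (nat_lit 214) (nat_lit 19) (.e (nat_lit 319490) (nat_lit 0) (.e (nat_lit 5664) (nat_lit 312) .nil))))))) (.g (nat_lit 5) .nil .nil))) 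
(.lf (nat_lit 95687) (.g (nat_lit 2684) (.e (nat_lit 2681) (nat_lit 168) (.e (nat_lit 204831) (nat_lit 18) (.e (nat_lit 57931) (nat_lit 282) (.e (nat_lit 163873) (nat_lit 3) (.e (nat_lit 204862) (nat_lit 27) .nil))))) .nil))) (.nd (nat_lit 6) 
(.lf (nat_lit 95655) (.g (nat_lit 2633) (.e (nat_lit 2681) (nat_lit 168) (.e (nat_lit 204829) (nat_lit 18) (.e (nat_lit 57849) (nat_lit 252) (.e (nat_lit 57379) (nat_lit 3) (.e (nat_lit 98313) (nat_lit 9) (.e (nat_lit 336027) (nat_lit 3) (.e (nat_lit 98337) (nat_lit 19) (.e (nat_lit 213022) (nat_lit 9) .nil)))))))) (.g (nat_lit 4) .nil .nil))) 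
(.lf (nat_lit 95719) (.g (nat_lit 3262) (.e (nat_lit 2682) (nat_lit 168) (.e (nat_lit 204813) (nat_lit 9) (.e (nat_lit 426108) (nat_lit 1) (.e (nat_lit 164403) (nat_lit 256) (.e (nat_lit 57447) (nat_lit 19) (.e (nat_lit 393238) (nat_lit 17) (.e (nat_lit 7349) (nat_lit 388) .nil))))))) (.g (nat_lit 5) .nil .nil))))) (.nd (nat_lit 5) (.nd (nat_lit 6) 
(.lf (nat_lit 95639) (.g (nat_lit 3053) (.e (nat_lit 2680) (nat_lit 168) (.e (nat_lit 204830) (nat_lit 18) (.e (nat_lit 57926) (nat_lit 282) (.e (nat_lit 163868) (nat_lit 2) (.e (nat_lit 196668) (nat_lit 14) .nil))))) .nil)) 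
(.lf (nat_lit 95703) (.g (nat_lit 3329) (.e (nat_lit 2681) (nat_lit 168) (.e (nat_lit 204869) (nat_lit 29) (.e (nat_lit 360474) (nat_lit 8) (.e (nat_lit 557064) (nat_lit 9) .nil)))) .nil))) (.nd (nat_lit 6) 
(.lf (nat_lit 95671) (.g (nat_lit 3038) (.e (nat_lit 2681) (nat_lit 168) (.e (nat_lit 204830) (nat_lit 18) (.e (nat_lit 57926) (nat_lit 282) (.e (nat_lit 163867) (nat_lit 2) (.e (nat_lit 196670) (nat_lit 14) .nil))))) .nil)) 
(.lf (nat_lit 95735) (.g (nat_lit 1120) (.e (nat_lit 2682) (nat_lit 168) (.e (nat_lit 204863) (nat_lit 27) (.e (nat_lit 344066) (nat_lit 0) .nil))) .nil))))) (.nd (nat_lit 4) (.nd (nat_lit 5) (.nd (nat_lit 6) 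
(.lf (nat_lit 95631) (.g (nat_lit 2302) (.e (nat_lit 2680) (nat_lit 168) (.e (nat_lit 204829) (nat_lit 18) (.e (nat_lit 57927) (nat_lit 282) (.e (nat_lit 163868) (nat_lit 2) (.e (nat_lit 196668) (nat_lit 14) .nil))))) .nil)) 
(.lf (nat_lit 95695) (.g (nat_lit 2329) (.e (nat_lit 2681) (nat_lit 168) (.e (nat_lit 204863) (nat_lit 27) (.e (nat_lit 344081) (nat_lit 13) (.e (nat_lit 1140) (nat_lit 84) (.e (nat_lit 32788) (nat_lit 10) (.e (nat_lit 73782) (nat_lit 32) .nil)))))) (.g (nat_lit 6) .nil .nil)))) (.nd (nat_lit 6) 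
(.lf (nat_lit 95663) (.g (nat_lit 2079) (.e (nat_lit 2681) (nat_lit 168) (.e (nat_lit 204829) (nat_lit 18) (.e (nat_lit 57927) (nat_lit 282) (.e (nat_lit 163868) (nat_lit 2) (.e (nat_lit 196670) (nat_lit 14) .nil))))) .nil)) 
(.lf (nat_lit 95727) (.g (nat_lit 2770) (.e (nat_lit 2682) (nat_lit 168) (.e (nat_lit 204846) (nat_lit 24) (.e (nat_lit 319531) (nat_lit 16) (.e (nat_lit 286733) (nat_lit 2) (.e (nat_lit 90173) (nat_lit 14) .nil))))) .nil)))) (.nd (nat_lit 5) (.nd (nat_lit 6) 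
(.lf (nat_lit 95647) (.g (nat_lit 3618) (.e (nat_lit 2681) (nat_lit 168) (.e (nat_lit 204829) (nat_lit 18) (.e (nat_lit 57847) (nat_lit 252) (.e (nat_lit 57370) (nat_lit 2) .nil)))) .nil)) 
(.lf (nat_lit 95711) (.g (nat_lit 3947) (.e (nat_lit 2681) (nat_lit 168) (.e (nat_lit 204869) (nat_lit 29) (.e (nat_lit 360475) (nat_lit 8) (.e (nat_lit 557085) (nat_lit 11) .nil)))) .nil))) (.nd (nat_lit 6) 
(.lf (nat_lit 95679) (.g (nat_lit 2300) (.e (nat_lit 2681) (nat_lit 168) (.e (nat_lit 204830) (nat_lit 18) (.e (nat_lit 57927) (nat_lit 282) (.e (nat_lit 163868) (nat_lit 2) (.e (nat_lit 196668) (nat_lit 14) .nil))))) .nil)) 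
(.lf (nat_lit 95743) (.g (nat_lit 4030) (.e (nat_lit 2682) (nat_lit 168) (.e (nat_lit 204863) (nat_lit 27) (.e (nat_lit 344169) (nat_lit 40) (.e (nat_lit 671759) (nat_lit 3) (.e (nat_lit 57479) (nat_lit 28) (.e (nat_lit 557105) (nat_lit 14) (.e (nat_lit 180281) (nat_lit 40) .nil))))))) (.g (nat_lit 0) .nil .nil))))))))))

noncomputable def tv1314 : DT := (.nd (nat_lit 0) (.nd (nat_lit 1) (.nd (nat_lit 2) (.nd (nat_lit 3) (.nd (nat_lit 4) (.nd (nat_lit 5) 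
(.lf (nat_lit 95744) (.g (nat_lit 1738) (.e (nat_lit 2682) (nat_lit 168) (.e (nat_lit 204866) (nat_lit 28) (.e (nat_lit 352318) (nat_lit 24) (.e (nat_lit 123041) (nat_lit 140) .nil)))) .nil)) 
(.lf (nat_lit 95776) (.g (nat_lit 5134) (.e (nat_lit 2682) (nat_lit 168) (.e (nat_lit 204869) (nat_lit 29) (.e (nat_lit 360475) (nat_lit 8) (.e (nat_lit 557070) (nat_lit 9) (.e (nat_lit 296) (nat_lit 22) (.e (nat_lit 344068) (nat_lit 0) .nil)))))) (.g (nat_lit 4) .nil .nil)))) (.nd (nat_lit 5) 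
(.lf (nat_lit 95760) (.g (nat_lit 3674) (.e (nat_lit 2682) (nat_lit 168) (.e (nat_lit 204869) (nat_lit 29) (.e (nat_lit 360474) (nat_lit 8) (.e (nat_lit 557065) (nat_lit 9) (.e (nat_lit 304) (nat_lit 22) .nil))))) .nil)) 
(.lf (nat_lit 95792) (.g (nat_lit 2102) (.e (nat_lit 2683) (nat_lit 168) (.e (nat_lit 204829) (nat_lit 18) (.e (nat_lit 57926) (nat_lit 282) (.e (nat_lit 163869) (nat_lit 2) (.e (nat_lit 196670) (nat_lit 14) .nil))))) .nil)))) (.nd (nat_lit 4) (.nd (nat_lit 5) 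
(.lf (nat_lit 95752) (.g (nat_lit 934) (.e (nat_lit 2682) (nat_lit 168) (.e (nat_lit 204869) (nat_lit 29) (.e (nat_lit 360454) (nat_lit 0) .nil))) .nil)) 
(.lf (nat_lit 95784) (.g (nat_lit 1219) (.e (nat_lit 2683) (nat_lit 168) (.e (nat_lit 204829) (nat_lit 18) (.e (nat_lit 57847) (nat_lit 252) .nil))) .nil))) (.nd (nat_lit 5) 
(.lf (nat_lit 95768) (.g (nat_lit 4674) (.e (nat_lit 2682) (nat_lit 168) (.e (nat_lit 204869) (nat_lit 29) (.e (nat_lit 360475) (nat_lit 8) (.e (nat_lit 557065) (nat_lit 9) (.e (nat_lit 297) (nat_lit 22) (.e (nat_lit 344068) (nat_lit 0) .nil)))))) (.g (nat_lit 5) .nil .nil))) 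
(.lf (nat_lit 95800) (.g (nat_lit 2251) (.e (nat_lit 2683) (nat_lit 168) (.e (nat_lit 204829) (nat_lit 18) (.e (nat_lit 57928) (nat_lit 282) (.e (nat_lit 163871) (nat_lit 2) (.e (nat_lit 196670) (nat_lit 14) .nil))))) .nil))))) (.nd (nat_lit 3) (.nd (nat_lit 4) (.nd (nat_lit 5) 
(.lf (nat_lit 95748) (.g (nat_lit 3538) (.e (nat_lit 2682) (nat_lit 168) (.e (nat_lit 204868) (nat_lit 29) (.e (nat_lit 360475) (nat_lit 8) (.e (nat_lit 557087) (nat_lit 11) (.e (nat_lit 24588) (nat_lit 0) .nil))))) .nil)) 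
(.lf (nat_lit 95780) (.g (nat_lit 3689) (.e (nat_lit 2682) (nat_lit 168) (.e (nat_lit 204869) (nat_lit 29) (.e (nat_lit 360475) (nat_lit 8) (.e (nat_lit 557086) (nat_lit 11) (.e (nat_lit 24580) (nat_lit 0) .nil))))) .nil))) (.nd (nat_lit 5) 
(.lf (nat_lit 95764) (.g (nat_lit 4065) (.e (nat_lit 2682) (nat_lit 168) (.e (nat_lit 204869) (nat_lit 29) (.e (nat_lit 360474) (nat_lit 8) (.e (nat_lit 557081) (nat_lit 9) (.e (nat_lit 7936) (nat_lit 22) .nil))))) .nil)) 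
(.lf (nat_lit 95796) (.g (nat_lit 2127) (.e (nat_lit 2683) (nat_lit 168) (.e (nat_lit 204829) (nat_lit 18) (.e (nat_lit 57927) (nat_lit 282) (.e (nat_lit 163868) (nat_lit 2) (.e (nat_lit 196670) (nat_lit 14) .nil))))) .nil)))) (.nd (nat_lit 4) (.nd (nat_lit 5) 
(.lf (nat_lit 95756) (.g (nat_lit 3734) (.e (nat_lit 2682) (nat_lit 168) (.e (nat_lit 204869) (nat_lit 29) (.e (nat_lit 360473) (nat_lit 8) (.e (nat_lit 557066) (nat_lit 9) (.e (nat_lit 297) (nat_lit 22) (.e (nat_lit 344068) (nat_lit 0) .nil)))))) (.g (nat_lit 4) .nil .nil))) 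
(.lf (nat_lit 95788) (.g (nat_lit 2402) (.e (nat_lit 2683) (nat_lit 168) (.e (nat_lit 204829) (nat_lit 18) (.e (nat_lit 57849) (nat_lit 252) (.e (nat_lit 57377) (nat_lit 3) (.e (nat_lit 98313) (nat_lit 9) .nil))))) .nil))) (.nd (nat_lit 5) 
(.lf (nat_lit 95772) (.g (nat_lit 4140) (.e (nat_lit 2682) (nat_lit 168) (.e (nat_lit 204869) (nat_lit 29) (.e (nat_lit 360475) (nat_lit 8) (.e (nat_lit 557065) (nat_lit 9) (.e (nat_lit 7936) (nat_lit 22) (.e (nat_lit 344068) (nat_lit 0) .nil)))))) (.g (nat_lit 4) .nil .nil))) 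
(.lf (nat_lit 95804) (.g (nat_lit 2328) (.e (nat_lit 2683) (nat_lit 168) (.e (nat_lit 204830) (nat_lit 18) (.e (nat_lit 57852) (nat_lit 252) (.e (nat_lit 57377) (nat_lit 3) (.e (nat_lit 98313) (nat_lit 9) .nil))))) .nil)))))) (.nd (nat_lit 2) (.nd (nat_lit 3) (.nd (nat_lit 4) (.nd (nat_lit 5) 
(.lf (nat_lit 95746) (.g (nat_lit 1639) (.e (nat_lit 2682) (nat_lit 168) (.e (nat_lit 204868) (nat_lit 29) (.e (nat_lit 360473) (nat_lit 8) (.e (nat_lit 557087) (nat_lit 11) (.e (nat_lit 24581) (nat_lit 0) .nil))))) .nil)) 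
(.lf (nat_lit 95778) (.g (nat_lit 5747) (.e (nat_lit 2682) (nat_lit 168) (.e (nat_lit 204869) (nat_lit 29) (.e (nat_lit 360475) (nat_lit 8) (.e (nat_lit 557085) (nat_lit 11) (.e (nat_lit 24584) (nat_lit 0) .nil))))) .nil))) (.nd (nat_lit 5) 
(.lf (nat_lit 95762) (.g (nat_lit 3676) (.e (nat_lit 2682) (nat_lit 168) (.e (nat_lit 204869) (nat_lit 29) (.e (nat_lit 360474) (nat_lit 8) (.e (nat_lit 557065) (nat_lit 9) (.e (nat_lit 307) (nat_lit 22) .nil))))) .nil)) 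
(.lf (nat_lit 95794) (.g (nat_lit 2058) (.e (nat_lit 2683) (nat_lit 168) (.e (nat_lit 204829) (nat_lit 18) (.e (nat_lit 57927) (nat_lit 282) (.e (nat_lit 163866) (nat_lit 2) (.e (nat_lit 196670) (nat_lit 14) .nil))))) .nil)))) (.nd (nat_lit 4) (.nd (nat_lit 5) 
(.lf (nat_lit 95754) (.g (nat_lit 2450) (.e (nat_lit 2682) (nat_lit 168) (.e (nat_lit 204869) (nat_lit 29) (.e (nat_lit 360456) (nat_lit 0) (.e (nat_lit 3982) (nat_lit 239) .nil)))) .nil)) 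
(.lf (nat_lit 95786) (.g (nat_lit 3191) (.e (nat_lit 2683) (nat_lit 168) (.e (nat_lit 204829) (nat_lit 18) (.e (nat_lit 57847) (nat_lit 252) (.e (nat_lit 57377) (nat_lit 3) .nil)))) .nil))) (.nd (nat_lit 5) 
(.lf (nat_lit 95770) (.g (nat_lit 3828) (.e (nat_lit 2682) (nat_lit 168) (.e (nat_lit 204869) (nat_lit 29) (.e (nat_lit 360475) (nat_lit 8) (.e (nat_lit 557065) (nat_lit 9) (.e (nat_lit 304) (nat_lit 22) .nil))))) .nil)) 
(.lf (nat_lit 95802) (.g (nat_lit 3012) (.e (nat_lit 2683) (nat_lit 168) (.e (nat_lit 204829) (nat_lit 18) (.e (nat_lit 57931) (nat_lit 282) (.e (nat_lit 163869) (nat_lit 2) (.e (nat_lit 196670) (nat_lit 14) .nil))))) .nil))))) (.nd (nat_lit 3) (.nd (nat_lit 4) (.nd (nat_lit 5) 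
(.lf (nat_lit 95750) (.g (nat_lit 2724) (.e (nat_lit 2682) (nat_lit 168) (.e (nat_lit 204869) (nat_lit 29) (.e (nat_lit 360449) (nat_lit 0) (.e (nat_lit 3950) (nat_lit 239) .nil)))) .nil)) 
(.lf (nat_lit 95782) (.g (nat_lit 4220) (.e (nat_lit 2682) (nat_lit 168) (.e (nat_lit 204869) (nat_lit 29) (.e (nat_lit 360475) (nat_lit 8) (.e (nat_lit 557086) (nat_lit 11) (.e (nat_lit 24588) (nat_lit 0) .nil))))) .nil))) (.nd (nat_lit 5) 
(.lf (nat_lit 95766) (.g (nat_lit 5901) (.e (nat_lit 2682) (nat_lit 168) (.e (nat_lit 204869) (nat_lit 29) (.e (nat_lit 360474) (nat_lit 8) (.e (nat_lit 557085) (nat_lit 11) (.e (nat_lit 24584) (nat_lit 0) .nil))))) .nil)) 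
(.lf (nat_lit 95798) (.g (nat_lit 2212) (.e (nat_lit 2683) (nat_lit 168) (.e (nat_lit 204829) (nat_lit 18) (.e (nat_lit 57927) (nat_lit 282) (.e (nat_lit 163871) (nat_lit 2) (.e (nat_lit 196668) (nat_lit 14) .nil))))) .nil)))) (.nd (nat_lit 4) (.nd (nat_lit 5) 
(.lf (nat_lit 95758) (.g (nat_lit 2824) (.e (nat_lit 2682) (nat_lit 168) (.e (nat_lit 204869) (nat_lit 29) (.e (nat_lit 360473) (nat_lit 8) (.e (nat_lit 557072) (nat_lit 9) (.e (nat_lit 7936) (nat_lit 22) .nil))))) .nil)) 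
(.lf (nat_lit 95790) (.g (nat_lit 2464) (.e (nat_lit 2683) (nat_lit 168) (.e (nat_lit 204829) (nat_lit 18) (.e (nat_lit 57849) (nat_lit 252) (.e (nat_lit 57379) (nat_lit 3) (.e (nat_lit 98313) (nat_lit 9) (.e (nat_lit 336027) (nat_lit 3) (.e (nat_lit 98338) (nat_lit 19) (.e (nat_lit 213022) (nat_lit 9) .nil)))))))) (.g (nat_lit 4) .nil .nil)))) (.nd (nat_lit 5) 
(.lf (nat_lit 95774) (.g (nat_lit 4165) (.e (nat_lit 2682) (nat_lit 168) (.e (nat_lit 204869) (nat_lit 29) (.e (nat_lit 360475) (nat_lit 8) (.e (nat_lit 557066) (nat_lit 9) (.e (nat_lit 297) (nat_lit 22) (.e (nat_lit 344069) (nat_lit 0) .nil)))))) (.g (nat_lit 0) .nil .nil))) 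
(.lf (nat_lit 95806) (.g (nat_lit 3038) (.e (nat_lit 2683) (nat_lit 168) (.e (nat_lit 204830) (nat_lit 18) (.e (nat_lit 57926) (nat_lit 282) (.e (nat_lit 163867) (nat_lit 2) (.e (nat_lit 196670) (nat_lit 14) .nil))))) .nil))))))) (.nd (nat_lit 1) (.nd (nat_lit 2) (.nd (nat_lit 3) (.nd (nat_lit 4) (.nd (nat_lit 5) 
(.lf (nat_lit 95745) (.g (nat_lit 1497) (.e (nat_lit 2682) (nat_lit 168) (.e (nat_lit 204866) (nat_lit 28) (.e (nat_lit 352318) (nat_lit 24) (.e (nat_lit 130816) (nat_lit 140) .nil)))) .nil)) 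
(.lf (nat_lit 95777) (.g (nat_lit 5108) (.e (nat_lit 2682) (nat_lit 168) (.e (nat_lit 204869) (nat_lit 29) (.e (nat_lit 360475) (nat_lit 8) (.e (nat_lit 557070) (nat_lit 9) (.e (nat_lit 296) (nat_lit 22) (.e (nat_lit 344069) (nat_lit 0) .nil)))))) (.g (nat_lit 4) .nil .nil)))) (.nd (nat_lit 5) 
(.lf (nat_lit 95761) (.g (nat_lit 3803) (.e (nat_lit 2682) (nat_lit 168) (.e (nat_lit 204869) (nat_lit 29) (.e (nat_lit 360474) (nat_lit 8) (.e (nat_lit 557065) (nat_lit 9) (.e (nat_lit 304) (nat_lit 22) (.e (nat_lit 344069) (nat_lit 0) .nil)))))) (.g (nat_lit 4) .nil .nil))) 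
(.lf (nat_lit 95793) (.g (nat_lit 1661) (.e (nat_lit 2683) (nat_lit 168) (.e (nat_lit 204829) (nat_lit 18) (.e (nat_lit 57926) (nat_lit 282) (.e (nat_lit 163871) (nat_lit 2) .nil)))) .nil)))) (.nd (nat_lit 4) (.nd (nat_lit 5) 
(.lf (nat_lit 95753) (.g (nat_lit 2344) (.e (nat_lit 2682) (nat_lit 168) (.e (nat_lit 204869) (nat_lit 29) (.e (nat_lit 360455) (nat_lit 0) (.e (nat_lit 3966) (nat_lit 239) .nil)))) .nil)) 
(.lf (nat_lit 95785) (.g (nat_lit 3616) (.e (nat_lit 2683) (nat_lit 168) (.e (nat_lit 204829) (nat_lit 18) (.e (nat_lit 57847) (nat_lit 252) (.e (nat_lit 57370) (nat_lit 2) .nil)))) .nil))) (.nd (nat_lit 5) 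
(.lf (nat_lit 95769) (.g (nat_lit 3861) (.e (nat_lit 2682) (nat_lit 168) (.e (nat_lit 204869) (nat_lit 29) (.e (nat_lit 360475) (nat_lit 8) (.e (nat_lit 557065) (nat_lit 9) (.e (nat_lit 298) (nat_lit 22) .nil))))) .nil)) 
(.lf (nat_lit 95801) (.g (nat_lit 2758) (.e (nat_lit 2683) (nat_lit 168) (.e (nat_lit 204829) (nat_lit 18) (.e (nat_lit 57931) (nat_lit 282) (.e (nat_lit 163867) (nat_lit 2) (.e (nat_lit 196670) (nat_lit 14) .nil))))) .nil))))) (.nd (nat_lit 3) (.nd (nat_lit 4) (.nd (nat_lit 5) 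
(.lf (nat_lit 95749) (.g (nat_lit 2729) (.e (nat_lit 2682) (nat_lit 168) (.e (nat_lit 204869) (nat_lit 29) (.e (nat_lit 360449) (nat_lit 0) (.e (nat_lit 3928) (nat_lit 239) .nil)))) .nil)) 
(.lf (nat_lit 95781) (.g (nat_lit 4551) (.e (nat_lit 2682) (nat_lit 168) (.e (nat_lit 204869) (nat_lit 29) (.e (nat_lit 360475) (nat_lit 8) (.e (nat_lit 557086) (nat_lit 11) (.e (nat_lit 24583) (nat_lit 0) .nil))))) .nil))) (.nd (nat_lit 5) 
(.lf (nat_lit 95765) (.g (nat_lit 5117) (.e (nat_lit 2682) (nat_lit 168) (.e (nat_lit 204869) (nat_lit 29) (.e (nat_lit 360474) (nat_lit 8) (.e (nat_lit 557085) (nat_lit 11) (.e (nat_lit 24580) (nat_lit 0) .nil))))) .nil)) 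
(.lf (nat_lit 95797) (.g (nat_lit 2543) (.e (nat_lit 2683) (nat_lit 168) (.e (nat_lit 204829) (nat_lit 18) (.e (nat_lit 57927) (nat_lit 282) (.e (nat_lit 163870) (nat_lit 2) (.e (nat_lit 196670) (nat_lit 14) .nil))))) .nil)))) (.nd (nat_lit 4) (.nd (nat_lit 5) 
(.lf (nat_lit 95757) (.g (nat_lit 3688) (.e (nat_lit 2682) (nat_lit 168) (.e (nat_lit 204869) (nat_lit 29) (.e (nat_lit 360473) (nat_lit 8) (.e (nat_lit 557066) (nat_lit 9) (.e (nat_lit 297) (nat_lit 22) (.e (nat_lit 344069) (nat_lit 0) .nil)))))) (.g (nat_lit 4) .nil .nil))) 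
(.lf (nat_lit 95789) (.g (nat_lit 2379) (.e (nat_lit 2683) (nat_lit 168) (.e (nat_lit 204829) (nat_lit 18) (.e (nat_lit 57849) (nat_lit 252) (.e (nat_lit 57379) (nat_lit 3) (.e (nat_lit 98313) (nat_lit 9) .nil))))) .nil))) (.nd (nat_lit 5) 
(.lf (nat_lit 95773) (.g (nat_lit 4204) (.e (nat_lit 2682) (nat_lit 168) (.e (nat_lit 204869) (nat_lit 29) (.e (nat_lit 360475) (nat_lit 8) (.e (nat_lit 557066) (nat_lit 9) (.e (nat_lit 297) (nat_lit 22) (.e (nat_lit 344068) (nat_lit 0) .nil)))))) (.g (nat_lit 0) .nil .nil))) 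
(.lf (nat_lit 95805) (.g (nat_lit 2366) (.e (nat_lit 2683) (nat_lit 168) (.e (nat_lit 204830) (nat_lit 18) (.e (nat_lit 57852) (nat_lit 252) (.e (nat_lit 57378) (nat_lit 3) (.e (nat_lit 98313) (nat_lit 9) .nil))))) .nil)))))) (.nd (nat_lit 2) (.nd (nat_lit 3) (.nd (nat_lit 4) (.nd (nat_lit 5) 
(.lf (nat_lit 95747) (.g (nat_lit 3735) (.e (nat_lit 2682) (nat_lit 168) (.e (nat_lit 204868) (nat_lit 29) (.e (nat_lit 360475) (nat_lit 8) (.e (nat_lit 557087) (nat_lit 11) (.e (nat_lit 24584) (nat_lit 0) .nil))))) .nil)) 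
(.lf (nat_lit 95779) (.g (nat_lit 4387) (.e (nat_lit 2682) (nat_lit 168) (.e (nat_lit 204869) (nat_lit 29) (.e (nat_lit 360475) (nat_lit 8) (.e (nat_lit 557086) (nat_lit 11) (.e (nat_lit 24578) (nat_lit 0) .nil))))) .nil))) (.nd (nat_lit 5) 
(.lf (nat_lit 95763) (.g (nat_lit 5251) (.e (nat_lit 2682) (nat_lit 168) (.e (nat_lit 204869) (nat_lit 29) (.e (nat_lit 360474) (nat_lit 8) (.e (nat_lit 557074) (nat_lit 9) (.e (nat_lit 7936) (nat_lit 22) .nil))))) .nil)) 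
(.lf (nat_lit 95795) (.g (nat_lit 2135) (.e (nat_lit 2683) (nat_lit 168) (.e (nat_lit 204829) (nat_lit 18) (.e (nat_lit 57927) (nat_lit 282) (.e (nat_lit 163868) (nat_lit 2) (.e (nat_lit 196668) (nat_lit 14) .nil))))) .nil)))) (.nd (nat_lit 4) (.nd (nat_lit 5) 
(.lf (nat_lit 95755) (.g (nat_lit 2684) (.e (nat_lit 2682) (nat_lit 168) (.e (nat_lit 204869) (nat_lit 29) (.e (nat_lit 360472) (nat_lit 8) (.e (nat_lit 557071) (nat_lit 9) .nil)))) .nil)) 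
(.lf (nat_lit 95787) (.g (nat_lit 2453) (.e (nat_lit 2683) (nat_lit 168) (.e (nat_lit 204829) (nat_lit 18) (.e (nat_lit 57847) (nat_lit 252) (.e (nat_lit 57379) (nat_lit 3) .nil)))) .nil))) (.nd (nat_lit 5) 
(.lf (nat_lit 95771) (.g (nat_lit 3827) (.e (nat_lit 2682) (nat_lit 168) (.e (nat_lit 204869) (nat_lit 29) (.e (nat_lit 360475) (nat_lit 8) (.e (nat_lit 557065) (nat_lit 9) (.e (nat_lit 307) (nat_lit 22) .nil))))) .nil)) 
(.lf (nat_lit 95803) (.g (nat_lit 3301) (.e (nat_lit 2683) (nat_lit 168) (.e (nat_lit 204829) (nat_lit 18) (.e (nat_lit 57931) (nat_lit 282) (.e (nat_lit 163874) (nat_lit 3) (.e (nat_lit 204862) (nat_lit 27) .nil))))) .nil))))) (.nd (nat_lit 3) (.nd (nat_lit 4) (.nd (nat_lit 5) 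
(.lf (nat_lit 95751) (.g (nat_lit 3435) (.e (nat_lit 2682) (nat_lit 168) (.e (nat_lit 204869) (nat_lit 29) (.e (nat_lit 360451) (nat_lit 0) (.e (nat_lit 3933) (nat_lit 239) .nil)))) .nil)) 
(.lf (nat_lit 95783) (.g (nat_lit 1638) (.e (nat_lit 2682) (nat_lit 168) (.e (nat_lit 204880) (nat_lit 32) (.e (nat_lit 385094) (nat_lit 49) .nil))) .nil))) (.nd (nat_lit 5) 
(.lf (nat_lit 95767) (.g (nat_lit 5866) (.e (nat_lit 2682) (nat_lit 168) (.e (nat_lit 204869) (nat_lit 29) (.e (nat_lit 360474) (nat_lit 8) (.e (nat_lit 557085) (nat_lit 11) (.e (nat_lit 24588) (nat_lit 0) .nil))))) .nil)) 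
(.lf (nat_lit 95799) (.g (nat_lit 2068) (.e (nat_lit 2683) (nat_lit 168) (.e (nat_lit 204829) (nat_lit 18) (.e (nat_lit 57927) (nat_lit 282) (.e (nat_lit 163871) (nat_lit 2) (.e (nat_lit 196670) (nat_lit 14) .nil))))) .nil)))) (.nd (nat_lit 4) (.nd (nat_lit 5) 
(.lf (nat_lit 95759) (.g (nat_lit 3643) (.e (nat_lit 2682) (nat_lit 168) (.e (nat_lit 204869) (nat_lit 29) (.e (nat_lit 360474) (nat_lit 8) (.e (nat_lit 557065) (nat_lit 9) (.e (nat_lit 298) (nat_lit 22) .nil))))) .nil)) 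
(.lf (nat_lit 95791) (.g (nat_lit 2698) (.e (nat_lit 2683) (nat_lit 168) (.e (nat_lit 204829) (nat_lit 18) (.e (nat_lit 57926) (nat_lit 282) (.e (nat_lit 163868) (nat_lit 2) (.e (nat_lit 196670) (nat_lit 14) .nil))))) .nil))) (.nd (nat_lit 5) 
(.lf (nat_lit 95775) (.g (nat_lit 5427) (.e (nat_lit 2682) (nat_lit 168) (.e (nat_lit 204869) (nat_lit 29) (.e (nat_lit 360475) (nat_lit 8) (.e (nat_lit 557069) (nat_lit 9) .nil)))) .nil)) 
(.lf (nat_lit 95807) (.g (nat_lit 3055) (.e (nat_lit 2683) (nat_lit 168) (.e (nat_lit 204830) (nat_lit 18) (.e (nat_lit 57926) (nat_lit 282) (.e (nat_lit 163868) (nat_lit 2) (.e (nat_lit 196668) (nat_lit 14) .nil))))) .nil))))))))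

noncomputable def tv1315 : DT := (.nd (nat_lit 0) (.nd (nat_lit 1) (.nd (nat_lit 2) (.nd (nat_lit 3) (.nd (nat_lit 4) (.nd (nat_lit 5) 
(.lf (nat_lit 95808) (.g (nat_lit 3096) (.e (nat_lit 2683) (nat_lit 168) (.e (nat_lit 204830) (nat_lit 18) (.e (nat_lit 57926) (nat_lit 282) (.e (nat_lit 163868) (nat_lit 2) (.e (nat_lit 196670) (nat_lit 14) .nil))))) .nil)) 
(.lf (nat_lit 95840) (.g (nat_lit 2807) (.e (nat_lit 2684) (nat_lit 168) (.e (nat_lit 204829) (nat_lit 18) (.e (nat_lit 57927) (nat_lit 282) (.e (nat_lit 163873) (nat_lit 3) (.e (nat_lit 204862) (nat_lit 27) (.e (nat_lit 344117) (nat_lit 21) (.e (nat_lit 516123) (nat_lit 2) (.e (nat_lit 213013) (nat_lit 9) .nil)))))))) (.g (nat_lit 4) .nil .nil)))) (.nd (nat_lit 5) 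
(.lf (nat_lit 95824) (.g (nat_lit 3577) (.e (nat_lit 2684) (nat_lit 168) (.e (nat_lit 204817) (nat_lit 17) (.e (nat_lit 2198) (nat_lit 144) (.e (nat_lit 720945) (nat_lit 23) (.e (nat_lit 98366) (nat_lit 27) (.e (nat_lit 434231) (nat_lit 23) (.e (nat_lit 532500) (nat_lit 1) (.e (nat_lit 57661) (nat_lit 152) (.e (nat_lit 2461) (nat_lit 157) .nil))))))))) (.g (nat_lit 7) .nil .nil))) 
(.lf (nat_lit 95856) (.g (nat_lit 2794) (.e (nat_lit 2684) (nat_lit 168) (.e (nat_lit 204831) (nat_lit 18) (.e (nat_lit 57849) (nat_lit 252) (.e (nat_lit 57372) (nat_lit 2) (.e (nat_lit 90160) (nat_lit 11) .nil))))) .nil)))) (.nd (nat_lit 4) (.nd (nat_lit 5) 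
(.lf (nat_lit 95816) (.g (nat_lit 2750) (.e (nat_lit 2683) (nat_lit 168) (.e (nat_lit 204830) (nat_lit 18) (.e (nat_lit 57926) (nat_lit 282) (.e (nat_lit 163875) (nat_lit 3) (.e (nat_lit 204863) (nat_lit 27) .nil))))) .nil)) 
(.lf (nat_lit 95848) (.g (nat_lit 2298) (.e (nat_lit 2684) (nat_lit 168) (.e (nat_lit 204830) (nat_lit 18) (.e (nat_lit 57925) (nat_lit 282) (.e (nat_lit 163868) (nat_lit 2) (.e (nat_lit 196668) (nat_lit 14) .nil))))) .nil))) (.nd (nat_lit 5) 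
(.lf (nat_lit 95832) (.g (nat_lit 3832) (.e (nat_lit 2684) (nat_lit 168) (.e (nat_lit 204829) (nat_lit 18) (.e (nat_lit 57847) (nat_lit 252) (.e (nat_lit 57377) (nat_lit 3) (.e (nat_lit 98317) (nat_lit 9) (.e (nat_lit 336027) (nat_lit 3) (.e (nat_lit 98338) (nat_lit 19) (.e (nat_lit 213013) (nat_lit 9) .nil)))))))) (.g (nat_lit 4) .nil .nil))) 
(.lf (nat_lit 95864) (.g (nat_lit 3267) (.e (nat_lit 2684) (nat_lit 168) (.e (nat_lit 204840) (nat_lit 21) (.e (nat_lit 123194) (nat_lit 266) (.e (nat_lit 57372) (nat_lit 2) (.e (nat_lit 90172) (nat_lit 14) (.e (nat_lit 180244) (nat_lit 5) (.e (nat_lit 532508) (nat_lit 2) (.e (nat_lit 114432) (nat_lit 0) .nil)))))))) (.g (nat_lit 7) .nil .nil)))))) 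
(.nd (nat_lit 3) (.nd (nat_lit 4) (.nd (nat_lit 5) 
(.lf (nat_lit 95812) (.g (nat_lit 2444) (.e (nat_lit 2683) (nat_lit 168) (.e (nat_lit 204830) (nat_lit 18) (.e (nat_lit 57926) (nat_lit 282) (.e (nat_lit 163871) (nat_lit 2) (.e (nat_lit 196670) (nat_lit 14) .nil))))) .nil)) 
(.lf (nat_lit 95844) (.g (nat_lit 4813) (.e (nat_lit 2684) (nat_lit 168) (.e (nat_lit 204830) (nat_lit 18) (.e (nat_lit 57852) (nat_lit 252) (.e (nat_lit 57377) (nat_lit 3) (.e (nat_lit 98313) (nat_lit 9) (.e (nat_lit 336027) (nat_lit 3) (.e (nat_lit 98338) (nat_lit 19) (.e (nat_lit 213013) (nat_lit 9) .nil)))))))) (.g (nat_lit 7) .nil .nil)))) (.nd (nat_lit 5) 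
(.lf (nat_lit 95828) (.g (nat_lit 4350) (.e (nat_lit 2684) (nat_lit 168) (.e (nat_lit 204828) (nat_lit 18) (.e (nat_lit 57849) (nat_lit 252) (.e (nat_lit 57377) (nat_lit 3) (.e (nat_lit 98313) (nat_lit 9) (.e (nat_lit 336027) (nat_lit 3) (.e (nat_lit 98338) (nat_lit 19) (.e (nat_lit 213013) (nat_lit 9) .nil)))))))) (.g (nat_lit 8) .nil .nil))) 
(.lf (nat_lit 95860) (.g (nat_lit 3065) (.e (nat_lit 2684) (nat_lit 168) (.e (nat_lit 204831) (nat_lit 18) (.e (nat_lit 57852) (nat_lit 252) (.e (nat_lit 57378) (nat_lit 3) (.e (nat_lit 98313) (nat_lit 9) (.e (nat_lit 336027) (nat_lit 3) (.e (nat_lit 98338) (nat_lit 19) (.e (nat_lit 213013) (nat_lit 9) .nil)))))))) (.g (nat_lit 5) .nil .nil))))) (.nd (nat_lit 4) (.nd (nat_lit 5) 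
(.lf (nat_lit 95820) (.g (nat_lit 2083) (.e (nat_lit 2683) (nat_lit 168) (.e (nat_lit 204830) (nat_lit 18) (.e (nat_lit 57927) (nat_lit 282) (.e (nat_lit 163871) (nat_lit 2) (.e (nat_lit 196670) (nat_lit 14) .nil))))) .nil)) 
(.lf (nat_lit 95852) (.g (nat_lit 2110) (.e (nat_lit 2684) (nat_lit 168) (.e (nat_lit 204830) (nat_lit 18) (.e (nat_lit 57927) (nat_lit 282) (.e (nat_lit 163871) (nat_lit 2) (.e (nat_lit 196670) (nat_lit 14) .nil))))) .nil))) (.nd (nat_lit 5) 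
(.lf (nat_lit 95836) (.g (nat_lit 2231) (.e (nat_lit 2684) (nat_lit 168) (.e (nat_lit 204829) (nat_lit 18) (.e (nat_lit 57925) (nat_lit 282) (.e (nat_lit 163871) (nat_lit 2) (.e (nat_lit 196668) (nat_lit 14) .nil))))) .nil)) 
(.lf (nat_lit 95868) (.g (nat_lit 4193) (.e (nat_lit 2684) (nat_lit 168) (.e (nat_lit 204840) (nat_lit 21) (.e (nat_lit 123195) (nat_lit 266) (.e (nat_lit 57371) (nat_lit 2) (.e (nat_lit 90174) (nat_lit 14) (.e (nat_lit 180243) (nat_lit 5) (.e (nat_lit 532511) (nat_lit 2) (.e (nat_lit 114432) (nat_lit 0) .nil)))))))) (.g (nat_lit 7) .nil .nil))))))) 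
(.nd (nat_lit 2) (.nd (nat_lit 3) (.nd (nat_lit 4) (.nd (nat_lit 5) 
(.lf (nat_lit 95810) (.g (nat_lit 3186) (.e (nat_lit 2683) (nat_lit 168) (.e (nat_lit 204830) (nat_lit 18) (.e (nat_lit 57926) (nat_lit 282) (.e (nat_lit 163870) (nat_lit 2) (.e (nat_lit 196670) (nat_lit 14) .nil))))) .nil)) 
(.lf (nat_lit 95842) (.g (nat_lit 3231) (.e (nat_lit 2684) (nat_lit 168) (.e (nat_lit 204830) (nat_lit 18) (.e (nat_lit 57852) (nat_lit 252) (.e (nat_lit 57370) (nat_lit 2) (.e (nat_lit 90158) (nat_lit 11) (.e (nat_lit 24608) (nat_lit 3) (.e (nat_lit 98338) (nat_lit 19) (.e (nat_lit 213013) (nat_lit 9) .nil)))))))) (.g (nat_lit 5) .nil .nil)))) (.nd (nat_lit 5) 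
(.lf (nat_lit 95826) (.g (nat_lit 1633) (.e (nat_lit 2684) (nat_lit 168) (.e (nat_lit 204819) (nat_lit 17) (.e (nat_lit 1994) (nat_lit 137) (.e (nat_lit 663554) (nat_lit 0) (.e (nat_lit 1304) (nat_lit 97) (.e (nat_lit 139281) (nat_lit 5) (.e (nat_lit 73746) (nat_lit 3) (.e (nat_lit 516124) (nat_lit 2) (.e (nat_lit 213013) (nat_lit 9) .nil))))))))) (.g (nat_lit 5) .nil .nil))) 
(.lf (nat_lit 95858) (.g (nat_lit 2756) (.e (nat_lit 2684) (nat_lit 168) (.e (nat_lit 204831) (nat_lit 18) (.e (nat_lit 57852) (nat_lit 252) (.e (nat_lit 57371) (nat_lit 2) (.e (nat_lit 90158) (nat_lit 11) (.e (nat_lit 24608) (nat_lit 3) (.e (nat_lit 98338) (nat_lit 19) (.e (nat_lit 213013) (nat_lit 9) .nil)))))))) (.g (nat_lit 4) .nil .nil))))) (.nd (nat_lit 4) (.nd (nat_lit 5) 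
(.lf (nat_lit 95818) (.g (nat_lit 2264) (.e (nat_lit 2683) (nat_lit 168) (.e (nat_lit 204830) (nat_lit 18) (.e (nat_lit 57927) (nat_lit 282) (.e (nat_lit 163868) (nat_lit 2) (.e (nat_lit 196670) (nat_lit 14) .nil))))) .nil)) 
(.lf (nat_lit 95850) (.g (nat_lit 2846) (.e (nat_lit 2684) (nat_lit 168) (.e (nat_lit 204830) (nat_lit 18) (.e (nat_lit 57926) (nat_lit 282) (.e (nat_lit 163870) (nat_lit 2) (.e (nat_lit 196670) (nat_lit 14) .nil))))) .nil))) (.nd (nat_lit 5) 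
(.lf (nat_lit 95834) (.g (nat_lit 4331) (.e (nat_lit 2684) (nat_lit 168) (.e (nat_lit 204829) (nat_lit 18) (.e (nat_lit 57849) (nat_lit 252) (.e (nat_lit 57377) (nat_lit 3) (.e (nat_lit 98313) (nat_lit 9) (.e (nat_lit 336027) (nat_lit 3) (.e (nat_lit 98338) (nat_lit 19) (.e (nat_lit 213013) (nat_lit 9) .nil)))))))) (.g (nat_lit 7) .nil .nil))) 
(.lf (nat_lit 95866) (.g (nat_lit 2136) (.e (nat_lit 2684) (nat_lit 168) (.e (nat_lit 204840) (nat_lit 21) (.e (nat_lit 123195) (nat_lit 266) (.e (nat_lit 57370) (nat_lit 2) (.e (nat_lit 98048) (nat_lit 5) (.e (nat_lit 73746) (nat_lit 3) (.e (nat_lit 516124) (nat_lit 2) (.e (nat_lit 213013) (nat_lit 9) .nil)))))))) (.g (nat_lit 6) .nil .nil)))))) (.nd (nat_lit 3) (.nd (nat_lit 4) (.nd (nat_lit 5) 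
(.lf (nat_lit 95814) (.g (nat_lit 2717) (.e (nat_lit 2683) (nat_lit 168) (.e (nat_lit 204830) (nat_lit 18) (.e (nat_lit 57926) (nat_lit 282) (.e (nat_lit 163874) (nat_lit 3) (.e (nat_lit 204863) (nat_lit 27) .nil))))) .nil)) 
(.lf (nat_lit 95846) (.g (nat_lit 2432) (.e (nat_lit 2684) (nat_lit 168) (.e (nat_lit 204830) (nat_lit 18) (.e (nat_lit 57854) (nat_lit 252) (.e (nat_lit 57377) (nat_lit 3) (.e (nat_lit 98313) (nat_lit 9) (.e (nat_lit 336027) (nat_lit 3) (.e (nat_lit 98338) (nat_lit 19) (.e (nat_lit 213013) (nat_lit 9) .nil)))))))) (.g (nat_lit 4) .nil .nil)))) (.nd (nat_lit 5) 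
(.lf (nat_lit 95830) (.g (nat_lit 4725) (.e (nat_lit 2684) (nat_lit 168) (.e (nat_lit 204829) (nat_lit 18) (.e (nat_lit 57847) (nat_lit 252) (.e (nat_lit 57370) (nat_lit 2) (.e (nat_lit 90158) (nat_lit 11) (.e (nat_lit 24608) (nat_lit 3) (.e (nat_lit 98338) (nat_lit 19) (.e (nat_lit 213013) (nat_lit 9) .nil)))))))) (.g (nat_lit 5) .nil .nil))) 
(.lf (nat_lit 95862) (.g (nat_lit 2906) (.e (nat_lit 2684) (nat_lit 168) (.e (nat_lit 204831) (nat_lit 18) (.e (nat_lit 57931) (nat_lit 282) (.e (nat_lit 163873) (nat_lit 3) (.e (nat_lit 204862) (nat_lit 27) (.e (nat_lit 344117) (nat_lit 21) (.e (nat_lit 516123) (nat_lit 2) (.e (nat_lit 213013) (nat_lit 9) .nil)))))))) (.g (nat_lit 4) .nil .nil))))) (.nd (nat_lit 4) (.nd (nat_lit 5) 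
(.lf (nat_lit 95822) (.g (nat_lit 2149) (.e (nat_lit 2683) (nat_lit 168) (.e (nat_lit 204877) (nat_lit 31) (.e (nat_lit 376865) (nat_lit 22) (.e (nat_lit 90172) (nat_lit 14) (.e (nat_lit 180258) (nat_lit 16) .nil))))) .nil)) 
(.lf (nat_lit 95854) (.g (nat_lit 3559) (.e (nat_lit 2684) (nat_lit 168) (.e (nat_lit 204831) (nat_lit 18) (.e (nat_lit 57847) (nat_lit 252) (.e (nat_lit 57377) (nat_lit 3) (.e (nat_lit 98313) (nat_lit 9) (.e (nat_lit 336027) (nat_lit 3) (.e (nat_lit 98338) (nat_lit 19) (.e (nat_lit 213013) (nat_lit 9) .nil)))))))) (.g (nat_lit 4) .nil .nil)))) (.nd (nat_lit 5) 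
(.lf (nat_lit 95838) (.g (nat_lit 2135) (.e (nat_lit 2684) (nat_lit 168) (.e (nat_lit 204829) (nat_lit 18) (.e (nat_lit 57926) (nat_lit 282) (.e (nat_lit 163871) (nat_lit 2) (.e (nat_lit 196670) (nat_lit 14) .nil))))) .nil)) 
(.lf (nat_lit 95870) (.g (nat_lit 1916) (.e (nat_lit 2684) (nat_lit 168) (.e (nat_lit 204852) (nat_lit 26) (.e (nat_lit 336324) (nat_lit 18) (.e (nat_lit 204830) (nat_lit 18) (.e (nat_lit 57830) (nat_lit 250) .nil))))) .nil))))))) (.nd (nat_lit 1) (.nd (nat_lit 2) (.nd (nat_lit 3) (.nd (nat_lit 4) (.nd (nat_lit 5) 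
(.lf (nat_lit 95809) (.g (nat_lit 2393) (.e (nat_lit 2683) (nat_lit 168) (.e (nat_lit 204830) (nat_lit 18) (.e (nat_lit 57926) (nat_lit 282) (.e (nat_lit 163869) (nat_lit 2) (.e (nat_lit 196670) (nat_lit 14) .nil))))) .nil)) 
(.lf (nat_lit 95841) (.g (nat_lit 814) (.e (nat_lit 2684) (nat_lit 168) (.e (nat_lit 204830) (nat_lit 18) (.e (nat_lit 57830) (nat_lit 250) .nil))) .nil))) (.nd (nat_lit 5) 
(.lf (nat_lit 95825) (.g (nat_lit 3654) (.e (nat_lit 2684) (nat_lit 168) (.e (nat_lit 204817) (nat_lit 17) (.e (nat_lit 2198) (nat_lit 144) (.e (nat_lit 720945) (nat_lit 23) (.e (nat_lit 98367) (nat_lit 27) (.e (nat_lit 434231) (nat_lit 23) (.e (nat_lit 532500) (nat_lit 1) (.e (nat_lit 57661) (nat_lit 152) (.e (nat_lit 2461) (nat_lit 157) .nil))))))))) (.g (nat_lit 7) .nil .nil))) 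
(.lf (nat_lit 95857) (.g (nat_lit 2066) (.e (nat_lit 2684) (nat_lit 168) (.e (nat_lit 204831) (nat_lit 18) (.e (nat_lit 57852) (nat_lit 252) (.e (nat_lit 57370) (nat_lit 2) .nil)))) .nil)))) (.nd (nat_lit 4) (.nd (nat_lit 5) 
(.lf (nat_lit 95817) (.g (nat_lit 2301) (.e (nat_lit 2683) (nat_lit 168) (.e (nat_lit 204830) (nat_lit 18) (.e (nat_lit 57927) (nat_lit 282) (.e (nat_lit 163868) (nat_lit 2) (.e (nat_lit 196668) (nat_lit 14) .nil))))) .nil)) 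
(.lf (nat_lit 95849) (.g (nat_lit 2650) (.e (nat_lit 2684) (nat_lit 168) (.e (nat_lit 204830) (nat_lit 18) (.e (nat_lit 57926) (nat_lit 282) (.e (nat_lit 163868) (nat_lit 2) (.e (nat_lit 196668) (nat_lit 14) .nil))))) .nil))) (.nd (nat_lit 5) 
(.lf (nat_lit 95833) (.g (nat_lit 3939) (.e (nat_lit 2684) (nat_lit 168) (.e (nat_lit 204829) (nat_lit 18) (.e (nat_lit 57847) (nat_lit 252) (.e (nat_lit 57378) (nat_lit 3) (.e (nat_lit 98313) (nat_lit 9) .nil))))) .nil)) 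
(.lf (nat_lit 95865) (.g (nat_lit 3310) (.e (nat_lit 2684) (nat_lit 168) (.e (nat_lit 204840) (nat_lit 21) (.e (nat_lit 123194) (nat_lit 266) (.e (nat_lit 57375) (nat_lit 2) (.e (nat_lit 90172) (nat_lit 14) (.e (nat_lit 180244) (nat_lit 5) (.e (nat_lit 532508) (nat_lit 2) (.e (nat_lit 114432) (nat_lit 0) .nil)))))))) (.g (nat_lit 7) .nil .nil)))))) 
(.nd (nat_lit 3) (.nd (nat_lit 4) (.nd (nat_lit 5) 
(.lf (nat_lit 95813) (.g (nat_lit 3037) (.e (nat_lit 2683) (nat_lit 168) (.e (nat_lit 204830) (nat_lit 18) (.e (nat_lit 57926) (nat_lit 282) (.e (nat_lit 163874) (nat_lit 3) (.e (nat_lit 204862) (nat_lit 27) .nil))))) .nil)) 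
(.lf (nat_lit 95845) (.g (nat_lit 4527) (.e (nat_lit 2684) (nat_lit 168) (.e (nat_lit 204830) (nat_lit 18) (.e (nat_lit 57852) (nat_lit 252) (.e (nat_lit 57378) (nat_lit 3) (.e (nat_lit 98313) (nat_lit 9) (.e (nat_lit 336027) (nat_lit 3) (.e (nat_lit 98338) (nat_lit 19) (.e (nat_lit 213013) (nat_lit 9) .nil)))))))) (.g (nat_lit 7) .nil .nil)))) (.nd (nat_lit 5) 
(.lf (nat_lit 95829) (.g (nat_lit 4633) (.e (nat_lit 2684) (nat_lit 168) (.e (nat_lit 204828) (nat_lit 18) (.e (nat_lit 57849) (nat_lit 252) (.e (nat_lit 57379) (nat_lit 3) (.e (nat_lit 98313) (nat_lit 9) (.e (nat_lit 336027) (nat_lit 3) (.e (nat_lit 98338) (nat_lit 19) (.e (nat_lit 213013) (nat_lit 9) .nil)))))))) (.g (nat_lit 0) .nil .nil))) 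
(.lf (nat_lit 95861) (.g (nat_lit 2442) (.e (nat_lit 2684) (nat_lit 168) (.e (nat_lit 204831) (nat_lit 18) (.e (nat_lit 57930) (nat_lit 282) (.e (nat_lit 163867) (nat_lit 2) (.e (nat_lit 196670) (nat_lit 14) .nil))))) .nil)))) (.nd (nat_lit 4) (.nd (nat_lit 5) 
(.lf (nat_lit 95821) (.g (nat_lit 2159) (.e (nat_lit 2683) (nat_lit 168) (.e (nat_lit 204831) (nat_lit 18) (.e (nat_lit 57931) (nat_lit 282) (.e (nat_lit 163867) (nat_lit 2) (.e (nat_lit 196670) (nat_lit 14) .nil))))) .nil)) 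
(.lf (nat_lit 95853) (.g (nat_lit 2983) (.e (nat_lit 2684) (nat_lit 168) (.e (nat_lit 204830) (nat_lit 18) (.e (nat_lit 57927) (nat_lit 282) (.e (nat_lit 163873) (nat_lit 3) (.e (nat_lit 204862) (nat_lit 27) (.e (nat_lit 344117) (nat_lit 21) (.e (nat_lit 516123) (nat_lit 2) (.e (nat_lit 213013) (nat_lit 9) .nil)))))))) (.g (nat_lit 4) .nil .nil)))) (.nd (nat_lit 5) 
(.lf (nat_lit 95837) (.g (nat_lit 2606) (.e (nat_lit 2684) (nat_lit 168) (.e (nat_lit 204829) (nat_lit 18) (.e (nat_lit 57926) (nat_lit 282) (.e (nat_lit 163867) (nat_lit 2) (.e (nat_lit 196670) (nat_lit 14) .nil))))) .nil)) 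
(.lf (nat_lit 95869) (.g (nat_lit 1747) (.e (nat_lit 2684) (nat_lit 168) (.e (nat_lit 204852) (nat_lit 26) (.e (nat_lit 336316) (nat_lit 17) (.e (nat_lit 196661) (nat_lit 12) .nil)))) .nil)))))) (.nd (nat_lit 2) (.nd (nat_lit 3) (.nd (nat_lit 4) (.nd (nat_lit 5) 
(.lf (nat_lit 95811) (.g (nat_lit 2645) (.e (nat_lit 2683) (nat_lit 168) (.e (nat_lit 204830) (nat_lit 18) (.e (nat_lit 57926) (nat_lit 282) (.e (nat_lit 163871) (nat_lit 2) (.e (nat_lit 196668) (nat_lit 14) .nil))))) .nil)) 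
(.lf (nat_lit 95843) (.g (nat_lit 3005) (.e (nat_lit 2684) (nat_lit 168) (.e (nat_lit 204830) (nat_lit 18) (.e (nat_lit 57852) (nat_lit 252) (.e (nat_lit 57371) (nat_lit 2) (.e (nat_lit 90160) (nat_lit 11) (.e (nat_lit 24608) (nat_lit 3) (.e (nat_lit 98338) (nat_lit 19) (.e (nat_lit 213013) (nat_lit 9) .nil)))))))) (.g (nat_lit 4) .nil .nil)))) (.nd (nat_lit 5) 
(.lf (nat_lit 95827) (.g (nat_lit 2884) (.e (nat_lit 2684) (nat_lit 168) (.e (nat_lit 204828) (nat_lit 18) (.e (nat_lit 57847) (nat_lit 252) (.e (nat_lit 57377) (nat_lit 3) (.e (nat_lit 98313) (nat_lit 9) (.e (nat_lit 336027) (nat_lit 3) (.e (nat_lit 98338) (nat_lit 19) (.e (nat_lit 213013) (nat_lit 9) .nil)))))))) (.g (nat_lit 4) .nil .nil))) 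
(.lf (nat_lit 95859) (.g (nat_lit 2803) (.e (nat_lit 2684) (nat_lit 168) (.e (nat_lit 204831) (nat_lit 18) (.e (nat_lit 57852) (nat_lit 252) (.e (nat_lit 57373) (nat_lit 2) (.e (nat_lit 90158) (nat_lit 11) (.e (nat_lit 24608) (nat_lit 3) (.e (nat_lit 98338) (nat_lit 19) (.e (nat_lit 213013) (nat_lit 9) .nil)))))))) (.g (nat_lit 4) .nil .nil))))) (.nd (nat_lit 4) (.nd (nat_lit 5) 
(.lf (nat_lit 95819) (.g (nat_lit 2170) (.e (nat_lit 2683) (nat_lit 168) (.e (nat_lit 204830) (nat_lit 18) (.e (nat_lit 57927) (nat_lit 282) (.e (nat_lit 163869) (nat_lit 2) (.e (nat_lit 196670) (nat_lit 14) .nil))))) .nil)) 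
(.lf (nat_lit 95851) (.g (nat_lit 2521) (.e (nat_lit 2684) (nat_lit 168) (.e (nat_lit 204830) (nat_lit 18) (.e (nat_lit 57927) (nat_lit 282) (.e (nat_lit 163870) (nat_lit 2) (.e (nat_lit 196670) (nat_lit 14) .nil))))) .nil))) (.nd (nat_lit 5) 
(.lf (nat_lit 95835) (.g (nat_lit 4264) (.e (nat_lit 2684) (nat_lit 168) (.e (nat_lit 204829) (nat_lit 18) (.e (nat_lit 57849) (nat_lit 252) (.e (nat_lit 57379) (nat_lit 3) (.e (nat_lit 98313) (nat_lit 9) (.e (nat_lit 336027) (nat_lit 3) (.e (nat_lit 98338) (nat_lit 19) (.e (nat_lit 213013) (nat_lit 9) .nil)))))))) (.g (nat_lit 7) .nil .nil))) 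
(.lf (nat_lit 95867) (.g (nat_lit 4147) (.e (nat_lit 2684) (nat_lit 168) (.e (nat_lit 204840) (nat_lit 21) (.e (nat_lit 123195) (nat_lit 266) (.e (nat_lit 57371) (nat_lit 2) (.e (nat_lit 90174) (nat_lit 14) (.e (nat_lit 180243) (nat_lit 5) (.e (nat_lit 532508) (nat_lit 2) (.e (nat_lit 114432) (nat_lit 0) .nil)))))))) (.g (nat_lit 7) .nil .nil)))))) 
(.nd (nat_lit 3) (.nd (nat_lit 4) (.nd (nat_lit 5) 
(.lf (nat_lit 95815) (.g (nat_lit 2780) (.e (nat_lit 2683) (nat_lit 168) (.e (nat_lit 204830) (nat_lit 18) (.e (nat_lit 57926) (nat_lit 282) (.e (nat_lit 163875) (nat_lit 3) (.e (nat_lit 204862) (nat_lit 27) .nil))))) .nil)) 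
(.lf (nat_lit 95847) (.g (nat_lit 2779) (.e (nat_lit 2684) (nat_lit 168) (.e (nat_lit 204830) (nat_lit 18) (.e (nat_lit 57854) (nat_lit 252) (.e (nat_lit 57378) (nat_lit 3) (.e (nat_lit 98313) (nat_lit 9) (.e (nat_lit 336027) (nat_lit 3) (.e (nat_lit 98338) (nat_lit 19) (.e (nat_lit 213013) (nat_lit 9) .nil)))))))) (.g (nat_lit 4) .nil .nil)))) (.nd (nat_lit 5) 
(.lf (nat_lit 95831) (.g (nat_lit 5494) (.e (nat_lit 2684) (nat_lit 168) (.e (nat_lit 204829) (nat_lit 18) (.e (nat_lit 57847) (nat_lit 252) (.e (nat_lit 57377) (nat_lit 3) (.e (nat_lit 98313) (nat_lit 9) (.e (nat_lit 336027) (nat_lit 3) (.e (nat_lit 98338) (nat_lit 19) (.e (nat_lit 213013) (nat_lit 9) .nil)))))))) (.g (nat_lit 6) .nil .nil))) 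
(.lf (nat_lit 95863) (.g (nat_lit 2583) (.e (nat_lit 2684) (nat_lit 168) (.e (nat_lit 204831) (nat_lit 18) (.e (nat_lit 57931) (nat_lit 282) (.e (nat_lit 163873) (nat_lit 3) (.e (nat_lit 204863) (nat_lit 27) .nil))))) .nil)))) (.nd (nat_lit 4) (.nd (nat_lit 5) 
(.lf (nat_lit 95823) (.g (nat_lit 3642) (.e (nat_lit 2684) (nat_lit 168) (.e (nat_lit 204817) (nat_lit 17) (.e (nat_lit 2198) (nat_lit 144) (.e (nat_lit 720940) (nat_lit 22) (.e (nat_lit 90170) (nat_lit 13) (.e (nat_lit 172065) (nat_lit 3) (.e (nat_lit 204830) (nat_lit 18) (.e (nat_lit 57663) (nat_lit 152) (.e (nat_lit 2461) (nat_lit 157) .nil))))))))) (.g (nat_lit 8) .nil .nil))) 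
(.lf (nat_lit 95855) (.g (nat_lit 2538) (.e (nat_lit 2684) (nat_lit 168) (.e (nat_lit 204831) (nat_lit 18) (.e (nat_lit 57849) (nat_lit 252) (.e (nat_lit 57372) (nat_lit 2) (.e (nat_lit 90158) (nat_lit 11) (.e (nat_lit 24608) (nat_lit 3) (.e (nat_lit 98338) (nat_lit 19) (.e (nat_lit 213013) (nat_lit 9) .nil)))))))) (.g (nat_lit 4) .nil .nil)))) (.nd (nat_lit 5) 
(.lf (nat_lit 95839) (.g (nat_lit 2391) (.e (nat_lit 2684) (nat_lit 168) (.e (nat_lit 204829) (nat_lit 18) (.e (nat_lit 57927) (nat_lit 282) (.e (nat_lit 163870) (nat_lit 2) (.e (nat_lit 196670) (nat_lit 14) .nil))))) .nil)) 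
(.lf (nat_lit 95871) (.g (nat_lit 3118) (.e (nat_lit 2684) (nat_lit 168) (.e (nat_lit 204852) (nat_lit 26) (.e (nat_lit 336324) (nat_lit 18) (.e (nat_lit 204831) (nat_lit 18) (.e (nat_lit 57830) (nat_lit 250) .nil))))) .nil))))))))

noncomputable def tv1316 : DT := (.nd (nat_lit 0) (.nd (nat_lit 1) (.nd (nat_lit 2) (.nd (nat_lit 3) (.nd (nat_lit 4) (.nd (nat_lit 5) 
(.lf (nat_lit 95872) (.g (nat_lit 3212) (.e (nat_lit 2684) (nat_lit 168) (.e (nat_lit 204852) (nat_lit 26) (.e (nat_lit 336324) (nat_lit 18) (.e (nat_lit 204831) (nat_lit 18) (.e (nat_lit 57830) (nat_lit 250) (.e (nat_lit 999) (nat_lit 81) (.e (nat_lit 1256) (nat_lit 92) (.e (nat_lit 98338) (nat_lit 19) (.e (nat_lit 213013) (nat_lit 9) .nil))))))))) (.g (nat_lit 4) .nil .nil))) 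
(.lf (nat_lit 95904) (.g (nat_lit 2897) (.e (nat_lit 2684) (nat_lit 168) (.e (nat_lit 204869) (nat_lit 29) (.e (nat_lit 360475) (nat_lit 8) (.e (nat_lit 557086) (nat_lit 11) (.e (nat_lit 24579) (nat_lit 0) .nil))))) .nil))) (.nd (nat_lit 5) 
(.lf (nat_lit 95888) (.g (nat_lit 3721) (.e (nat_lit 2684) (nat_lit 168) (.e (nat_lit 204864) (nat_lit 27) (.e (nat_lit 344132) (nat_lit 26) (.e (nat_lit 557105) (nat_lit 14) (.e (nat_lit 180252) (nat_lit 10) (.e (nat_lit 573473) (nat_lit 12) (.e (nat_lit 57508) (nat_lit 39) (.e (nat_lit 647175) (nat_lit 0) .nil)))))))) (.g (nat_lit 7) .nil .nil))) 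
(.lf (nat_lit 95920) (.g (nat_lit 2652) (.e (nat_lit 2684) (nat_lit 168) (.e (nat_lit 204880) (nat_lit 32) (.e (nat_lit 385068) (nat_lit 26) (.e (nat_lit 532503) (nat_lit 1) (.e (nat_lit 57847) (nat_lit 252) .nil))))) .nil)))) (.nd (nat_lit 4) (.nd (nat_lit 5) 
(.lf (nat_lit 95880) (.g (nat_lit 2492) (.e (nat_lit 2684) (nat_lit 168) (.e (nat_lit 204863) (nat_lit 27) (.e (nat_lit 344117) (nat_lit 21) (.e (nat_lit 516116) (nat_lit 1) (.e (nat_lit 164183) (nat_lit 154) .nil))))) .nil)) 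
(.lf (nat_lit 95912) (.g (nat_lit 3114) (.e (nat_lit 2684) (nat_lit 168) (.e (nat_lit 204880) (nat_lit 32) (.e (nat_lit 385066) (nat_lit 26) (.e (nat_lit 532501) (nat_lit 1) (.e (nat_lit 57830) (nat_lit 250) (.e (nat_lit 999) (nat_lit 81) (.e (nat_lit 1256) (nat_lit 92) (.e (nat_lit 98338) (nat_lit 19) (.e (nat_lit 213013) (nat_lit 9) .nil))))))))) (.g (nat_lit 5) .nil .nil)))) (.nd (nat_lit 5) 
(.lf (nat_lit 95896) (.g (nat_lit 3060) (.e (nat_lit 2684) (nat_lit 168) (.e (nat_lit 204864) (nat_lit 27) (.e (nat_lit 344133) (nat_lit 26) (.e (nat_lit 557103) (nat_lit 14) (.e (nat_lit 180250) (nat_lit 10) (.e (nat_lit 573473) (nat_lit 12) (.e (nat_lit 57507) (nat_lit 39) (.e (nat_lit 655104) (nat_lit 0) .nil)))))))) (.g (nat_lit 5) .nil .nil))) 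
(.lf (nat_lit 95928) (.g (nat_lit 2470) (.e (nat_lit 2685) (nat_lit 168) (.e (nat_lit 204829) (nat_lit 18) (.e (nat_lit 57927) (nat_lit 282) (.e (nat_lit 163868) (nat_lit 2) (.e (nat_lit 196668) (nat_lit 14) .nil))))) .nil))))) (.nd (nat_lit 3) (.nd (nat_lit 4) (.nd (nat_lit 5) 
(.lf (nat_lit 95876) (.g (nat_lit 4358) (.e (nat_lit 2684) (nat_lit 168) (.e (nat_lit 204853) (nat_lit 26) (.e (nat_lit 336324) (nat_lit 18) (.e (nat_lit 204831) (nat_lit 18) (.e (nat_lit 57849) (nat_lit 252) (.e (nat_lit 57379) (nat_lit 3) (.e (nat_lit 98338) (nat_lit 19) (.e (nat_lit 213013) (nat_lit 9) .nil)))))))) (.g (nat_lit 4) .nil .nil))) 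
(.lf (nat_lit 95908) (.g (nat_lit 5079) (.e (nat_lit 2684) (nat_lit 168) (.e (nat_lit 204880) (nat_lit 32) (.e (nat_lit 385066) (nat_lit 26) (.e (nat_lit 532499) (nat_lit 1) (.e (nat_lit 57849) (nat_lit 252) (.e (nat_lit 57379) (nat_lit 3) (.e (nat_lit 98338) (nat_lit 19) (.e (nat_lit 213013) (nat_lit 9) .nil)))))))) (.g (nat_lit 6) .nil .nil)))) (.nd (nat_lit 5) 
(.lf (nat_lit 95892) (.g (nat_lit 3502) (.e (nat_lit 2684) (nat_lit 168) (.e (nat_lit 204864) (nat_lit 27) (.e (nat_lit 344132) (nat_lit 26) (.e (nat_lit 557105) (nat_lit 14) (.e (nat_lit 180252) (nat_lit 10) (.e (nat_lit 573475) (nat_lit 12) (.e (nat_lit 57506) (nat_lit 39) (.e (nat_lit 655104) (nat_lit 0) .nil)))))))) (.g (nat_lit 6) .nil .nil))) 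
(.lf (nat_lit 95924) (.g (nat_lit 1338) (.e (nat_lit 2684) (nat_lit 168) (.e (nat_lit 204883) (nat_lit 33) (.e (nat_lit 401459) (nat_lit 13) (.e (nat_lit 491264) (nat_lit 10) .nil)))) .nil)))) (.nd (nat_lit 4) (.nd (nat_lit 5) 
(.lf (nat_lit 95884) (.g (nat_lit 3062) (.e (nat_lit 2684) (nat_lit 168) (.e (nat_lit 204864) (nat_lit 27) (.e (nat_lit 344130) (nat_lit 26) (.e (nat_lit 557103) (nat_lit 14) (.e (nat_lit 180250) (nat_lit 10) (.e (nat_lit 573473) (nat_lit 12) (.e (nat_lit 57507) (nat_lit 39) (.e (nat_lit 655104) (nat_lit 0) .nil)))))))) (.g (nat_lit 5) .nil .nil))) 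
(.lf (nat_lit 95916) (.g (nat_lit 3191) (.e (nat_lit 2684) (nat_lit 168) (.e (nat_lit 204880) (nat_lit 32) (.e (nat_lit 385066) (nat_lit 26) (.e (nat_lit 532504) (nat_lit 1) (.e (nat_lit 57830) (nat_lit 250) (.e (nat_lit 999) (nat_lit 81) (.e (nat_lit 1256) (nat_lit 92) (.e (nat_lit 98338) (nat_lit 19) (.e (nat_lit 213013) (nat_lit 9) .nil))))))))) (.g (nat_lit 6) .nil .nil)))) (.nd (nat_lit 5) 
(.lf (nat_lit 95900) (.g (nat_lit 3395) (.e (nat_lit 2684) (nat_lit 168) (.e (nat_lit 204864) (nat_lit 27) (.e (nat_lit 344133) (nat_lit 26) (.e (nat_lit 557105) (nat_lit 14) (.e (nat_lit 180252) (nat_lit 10) (.e (nat_lit 573474) (nat_lit 12) (.e (nat_lit 57508) (nat_lit 39) (.e (nat_lit 655104) (nat_lit 0) .nil)))))))) (.g (nat_lit 5) .nil .nil))) 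
(.lf (nat_lit 95932) (.g (nat_lit 2260) (.e (nat_lit 2685) (nat_lit 168) (.e (nat_lit 204829) (nat_lit 18) (.e (nat_lit 57927) (nat_lit 282) (.e (nat_lit 163871) (nat_lit 2) (.e (nat_lit 196670) (nat_lit 14) .nil))))) .nil)))))) (.nd (nat_lit 2) (.nd (nat_lit 3) (.nd (nat_lit 4) (.nd (nat_lit 5) 
(.lf (nat_lit 95874) (.g (nat_lit 3060) (.e (nat_lit 2684) (nat_lit 168) (.e (nat_lit 204852) (nat_lit 26) (.e (nat_lit 336326) (nat_lit 18) (.e (nat_lit 204831) (nat_lit 18) (.e (nat_lit 57830) (nat_lit 250) (.e (nat_lit 999) (nat_lit 81) (.e (nat_lit 1256) (nat_lit 92) (.e (nat_lit 98338) (nat_lit 19) (.e (nat_lit 213013) (nat_lit 9) .nil))))))))) (.g (nat_lit 7) .nil .nil))) 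
(.lf (nat_lit 95906) (.g (nat_lit 2483) (.e (nat_lit 2684) (nat_lit 168) (.e (nat_lit 204869) (nat_lit 29) (.e (nat_lit 360475) (nat_lit 8) (.e (nat_lit 557087) (nat_lit 11) (.e (nat_lit 24579) (nat_lit 0) .nil))))) .nil))) (.nd (nat_lit 5) 
(.lf (nat_lit 95890) (.g (nat_lit 3731) (.e (nat_lit 2684) (nat_lit 168) (.e (nat_lit 204864) (nat_lit 27) (.e (nat_lit 344132) (nat_lit 26) (.e (nat_lit 557105) (nat_lit 14) (.e (nat_lit 180252) (nat_lit 10) (.e (nat_lit 573473) (nat_lit 12) (.e (nat_lit 57511) (nat_lit 39) (.e (nat_lit 655104) (nat_lit 0) .nil)))))))) (.g (nat_lit 6) .nil .nil))) 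
(.lf (nat_lit 95922) (.g (nat_lit 1638) (.e (nat_lit 2684) (nat_lit 168) (.e (nat_lit 204880) (nat_lit 32) (.e (nat_lit 385094) (nat_lit 49) .nil))) .nil)))) (.nd (nat_lit 4) (.nd (nat_lit 5) 
(.lf (nat_lit 95882) (.g (nat_lit 4801) (.e (nat_lit 2684) (nat_lit 168) (.e (nat_lit 204863) (nat_lit 27) (.e (nat_lit 344169) (nat_lit 40) (.e (nat_lit 671759) (nat_lit 3) (.e (nat_lit 57479) (nat_lit 28) (.e (nat_lit 557103) (nat_lit 14) (.e (nat_lit 188160) (nat_lit 40) .nil))))))) (.g (nat_lit 6) .nil .nil))) 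
(.lf (nat_lit 95914) (.g (nat_lit 4394) (.e (nat_lit 2684) (nat_lit 168) (.e (nat_lit 204880) (nat_lit 32) (.e (nat_lit 385066) (nat_lit 26) (.e (nat_lit 532503) (nat_lit 1) (.e (nat_lit 57849) (nat_lit 252) (.e (nat_lit 57379) (nat_lit 3) (.e (nat_lit 98338) (nat_lit 19) (.e (nat_lit 213013) (nat_lit 9) .nil)))))))) (.g (nat_lit 6) .nil .nil)))) (.nd (nat_lit 5) 
(.lf (nat_lit 95898) (.g (nat_lit 2458) (.e (nat_lit 2684) (nat_lit 168) (.e (nat_lit 204864) (nat_lit 27) (.e (nat_lit 344133) (nat_lit 26) (.e (nat_lit 557103) (nat_lit 14) (.e (nat_lit 180250) (nat_lit 10) (.e (nat_lit 573475) (nat_lit 12) (.e (nat_lit 57508) (nat_lit 39) (.e (nat_lit 647175) (nat_lit 0) .nil)))))))) (.g (nat_lit 4) .nil .nil))) 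
(.lf (nat_lit 95930) (.g (nat_lit 2424) (.e (nat_lit 2685) (nat_lit 168) (.e (nat_lit 204829) (nat_lit 18) (.e (nat_lit 57927) (nat_lit 282) (.e (nat_lit 163869) (nat_lit 2) (.e (nat_lit 196670) (nat_lit 14) .nil))))) .nil))))) (.nd (nat_lit 3) (.nd (nat_lit 4) (.nd (nat_lit 5) 
(.lf (nat_lit 95878) (.g (nat_lit 1374) (.e (nat_lit 2684) (nat_lit 168) (.e (nat_lit 204863) (nat_lit 27) (.e (nat_lit 344117) (nat_lit 21) (.e (nat_lit 516115) (nat_lit 1) .nil)))) .nil)) 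
(.lf (nat_lit 95910) (.g (nat_lit 2202) (.e (nat_lit 2684) (nat_lit 168) (.e (nat_lit 204880) (nat_lit 32) (.e (nat_lit 385066) (nat_lit 26) (.e (nat_lit 532501) (nat_lit 1) .nil)))) .nil))) (.nd (nat_lit 5) 
(.lf (nat_lit 95894) (.g (nat_lit 3500) (.e (nat_lit 2684) (nat_lit 168) (.e (nat_lit 204864) (nat_lit 27) (.e (nat_lit 344132) (nat_lit 26) (.e (nat_lit 557105) (nat_lit 14) (.e (nat_lit 180252) (nat_lit 10) (.e (nat_lit 573475) (nat_lit 12) (.e (nat_lit 57508) (nat_lit 39) (.e (nat_lit 647175) (nat_lit 0) .nil)))))))) (.g (nat_lit 6) .nil .nil))) 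
(.lf (nat_lit 95926) (.g (nat_lit 4010) (.e (nat_lit 2685) (nat_lit 168) (.e (nat_lit 204817) (nat_lit 17) (.e (nat_lit 2198) (nat_lit 144) (.e (nat_lit 720945) (nat_lit 23) (.e (nat_lit 98356) (nat_lit 26) (.e (nat_lit 426438) (nat_lit 18) (.e (nat_lit 98334) (nat_lit 18) (.e (nat_lit 164305) (nat_lit 226) (.e (nat_lit 2433) (nat_lit 157) .nil))))))))) (.g (nat_lit 9) .nil .nil))))) 
(.nd (nat_lit 4) (.nd (nat_lit 5) 
(.lf (nat_lit 95886) (.g (nat_lit 2119) (.e (nat_lit 2684) (nat_lit 168) (.e (nat_lit 204864) (nat_lit 27) (.e (nat_lit 344132) (nat_lit 26) (.e (nat_lit 557105) (nat_lit 14) (.e (nat_lit 180251) (nat_lit 10) (.e (nat_lit 573478) (nat_lit 12) (.e (nat_lit 57509) (nat_lit 39) (.e (nat_lit 655104) (nat_lit 0) .nil)))))))) (.g (nat_lit 5) .nil .nil))) 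
(.lf (nat_lit 95918) (.g (nat_lit 3024) (.e (nat_lit 2684) (nat_lit 168) (.e (nat_lit 204880) (nat_lit 32) (.e (nat_lit 385068) (nat_lit 26) (.e (nat_lit 532499) (nat_lit 1) (.e (nat_lit 57849) (nat_lit 252) .nil))))) .nil))) (.nd (nat_lit 5) 
(.lf (nat_lit 95902) (.g (nat_lit 4678) (.e (nat_lit 2684) (nat_lit 168) (.e (nat_lit 204869) (nat_lit 29) (.e (nat_lit 360475) (nat_lit 8) (.e (nat_lit 557085) (nat_lit 11) (.e (nat_lit 24580) (nat_lit 0) .nil))))) .nil)) 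
(.lf (nat_lit 95934) (.g (nat_lit 3010) (.e (nat_lit 2685) (nat_lit 168) (.e (nat_lit 204829) (nat_lit 18) (.e (nat_lit 57931) (nat_lit 282) (.e (nat_lit 163869) (nat_lit 2) (.e (nat_lit 196670) (nat_lit 14) .nil))))) .nil))))))) (.nd (nat_lit 1) (.nd (nat_lit 2) (.nd (nat_lit 3) (.nd (nat_lit 4) (.nd (nat_lit 5) 
(.lf (nat_lit 95873) (.g (nat_lit 2511) (.e (nat_lit 2684) (nat_lit 168) (.e (nat_lit 204852) (nat_lit 26) (.e (nat_lit 336326) (nat_lit 18) (.e (nat_lit 204830) (nat_lit 18) (.e (nat_lit 57830) (nat_lit 250) (.e (nat_lit 1183) (nat_lit 87) (.e (nat_lit 57466) (nat_lit 23) (.e (nat_lit 516124) (nat_lit 2) (.e (nat_lit 213013) (nat_lit 9) .nil))))))))) (.g (nat_lit 5) .nil .nil))) 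
(.lf (nat_lit 95905) (.g (nat_lit 2121) (.e (nat_lit 2684) (nat_lit 168) (.e (nat_lit 204869) (nat_lit 29) (.e (nat_lit 360475) (nat_lit 8) (.e (nat_lit 557087) (nat_lit 11) (.e (nat_lit 24578) (nat_lit 0) .nil))))) .nil))) (.nd (nat_lit 5) 
(.lf (nat_lit 95889) (.g (nat_lit 3554) (.e (nat_lit 2684) (nat_lit 168) (.e (nat_lit 204864) (nat_lit 27) (.e (nat_lit 344132) (nat_lit 26) (.e (nat_lit 557105) (nat_lit 14) (.e (nat_lit 180252) (nat_lit 10) (.e (nat_lit 573473) (nat_lit 12) (.e (nat_lit 57508) (nat_lit 39) (.e (nat_lit 655104) (nat_lit 0) .nil)))))))) (.g (nat_lit 7) .nil .nil))) 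
(.lf (nat_lit 95921) (.g (nat_lit 3930) (.e (nat_lit 2684) (nat_lit 168) (.e (nat_lit 204880) (nat_lit 32) (.e (nat_lit 385068) (nat_lit 26) (.e (nat_lit 532503) (nat_lit 1) (.e (nat_lit 57849) (nat_lit 252) (.e (nat_lit 57379) (nat_lit 3) (.e (nat_lit 98338) (nat_lit 19) (.e (nat_lit 213013) (nat_lit 9) .nil)))))))) (.g (nat_lit 5) .nil .nil))))) (.nd (nat_lit 4) (.nd (nat_lit 5) 
(.lf (nat_lit 95881) (.g (nat_lit 831) (.e (nat_lit 2684) (nat_lit 168) (.e (nat_lit 204863) (nat_lit 27) (.e (nat_lit 344118) (nat_lit 21) .nil))) .nil)) 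
(.lf (nat_lit 95913) (.g (nat_lit 3083) (.e (nat_lit 2684) (nat_lit 168) (.e (nat_lit 204880) (nat_lit 32) (.e (nat_lit 385066) (nat_lit 26) (.e (nat_lit 532501) (nat_lit 1) (.e (nat_lit 57830) (nat_lit 250) (.e (nat_lit 1175) (nat_lit 87) (.e (nat_lit 57464) (nat_lit 23) (.e (nat_lit 516123) (nat_lit 2) (.e (nat_lit 213013) (nat_lit 9) .nil))))))))) (.g (nat_lit 5) .nil .nil)))) (.nd (nat_lit 5) 
(.lf (nat_lit 95897) (.g (nat_lit 2329) (.e (nat_lit 2684) (nat_lit 168) (.e (nat_lit 204864) (nat_lit 27) (.e (nat_lit 344133) (nat_lit 26) (.e (nat_lit 557103) (nat_lit 14) (.e (nat_lit 180250) (nat_lit 10) (.e (nat_lit 573474) (nat_lit 12) (.e (nat_lit 57508) (nat_lit 39) (.e (nat_lit 647175) (nat_lit 0) .nil)))))))) (.g (nat_lit 4) .nil .nil))) 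
(.lf (nat_lit 95929) (.g (nat_lit 2461) (.e (nat_lit 2685) (nat_lit 168) (.e (nat_lit 204829) (nat_lit 18) (.e (nat_lit 57927) (nat_lit 282) (.e (nat_lit 163868) (nat_lit 2) (.e (nat_lit 196670) (nat_lit 14) .nil))))) .nil))))) (.nd (nat_lit 3) (.nd (nat_lit 4) (.nd (nat_lit 5) 
(.lf (nat_lit 95877) (.g (nat_lit 1096) (.e (nat_lit 2684) (nat_lit 168) (.e (nat_lit 204861) (nat_lit 26) (.e (nat_lit 336213) (nat_lit 13) (.e (nat_lit 401152) (nat_lit 10) .nil)))) .nil)) 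
(.lf (nat_lit 95909) (.g (nat_lit 2978) (.e (nat_lit 2684) (nat_lit 168) (.e (nat_lit 204880) (nat_lit 32) (.e (nat_lit 385066) (nat_lit 26) (.e (nat_lit 532499) (nat_lit 1) (.e (nat_lit 57854) (nat_lit 252) .nil))))) .nil))) (.nd (nat_lit 5) 
(.lf (nat_lit 95893) (.g (nat_lit 3995) (.e (nat_lit 2684) (nat_lit 168) (.e (nat_lit 204864) (nat_lit 27) (.e (nat_lit 344132) (nat_lit 26) (.e (nat_lit 557105) (nat_lit 14) (.e (nat_lit 180252) (nat_lit 10) (.e (nat_lit 573475) (nat_lit 12) (.e (nat_lit 57507) (nat_lit 39) (.e (nat_lit 655104) (nat_lit 0) .nil)))))))) (.g (nat_lit 7) .nil .nil))) 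
(.lf (nat_lit 95925) (.g (nat_lit 3550) (.e (nat_lit 2685) (nat_lit 168) (.e (nat_lit 204817) (nat_lit 17) (.e (nat_lit 2198) (nat_lit 144) (.e (nat_lit 720941) (nat_lit 22) (.e (nat_lit 90172) (nat_lit 14) (.e (nat_lit 180244) (nat_lit 5) (.e (nat_lit 532503) (nat_lit 1) (.e (nat_lit 57653) (nat_lit 152) (.e (nat_lit 2399) (nat_lit 157) .nil))))))))) (.g (nat_lit 8) .nil .nil))))) 
(.nd (nat_lit 4) (.nd (nat_lit 5) 
(.lf (nat_lit 95885) (.g (nat_lit 2542) (.e (nat_lit 2684) (nat_lit 168) (.e (nat_lit 204864) (nat_lit 27) (.e (nat_lit 344130) (nat_lit 26) (.e (nat_lit 557104) (nat_lit 14) (.e (nat_lit 180252) (nat_lit 10) (.e (nat_lit 573474) (nat_lit 12) (.e (nat_lit 57508) (nat_lit 39) (.e (nat_lit 655104) (nat_lit 0) .nil)))))))) (.g (nat_lit 5) .nil .nil))) 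
(.lf (nat_lit 95917) (.g (nat_lit 1939) (.e (nat_lit 2684) (nat_lit 168) (.e (nat_lit 204880) (nat_lit 32) (.e (nat_lit 385068) (nat_lit 26) (.e (nat_lit 532499) (nat_lit 1) .nil)))) .nil))) (.nd (nat_lit 5) 
(.lf (nat_lit 95901) (.g (nat_lit 2291) (.e (nat_lit 2684) (nat_lit 168) (.e (nat_lit 204869) (nat_lit 29) (.e (nat_lit 360474) (nat_lit 8) (.e (nat_lit 557087) (nat_lit 11) .nil)))) .nil)) 
(.lf (nat_lit 95933) (.g (nat_lit 2741) (.e (nat_lit 2685) (nat_lit 168) (.e (nat_lit 204829) (nat_lit 18) (.e (nat_lit 57927) (nat_lit 282) (.e (nat_lit 163874) (nat_lit 3) (.e (nat_lit 204863) (nat_lit 27) .nil))))) .nil)))))) (.nd (nat_lit 2) (.nd (nat_lit 3) (.nd (nat_lit 4) (.nd (nat_lit 5) 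
(.lf (nat_lit 95875) (.g (nat_lit 2111) (.e (nat_lit 2684) (nat_lit 168) (.e (nat_lit 204852) (nat_lit 26) (.e (nat_lit 336326) (nat_lit 18) (.e (nat_lit 204831) (nat_lit 18) (.e (nat_lit 57830) (nat_lit 250) (.e (nat_lit 1183) (nat_lit 87) (.e (nat_lit 57466) (nat_lit 23) (.e (nat_lit 516124) (nat_lit 2) (.e (nat_lit 213013) (nat_lit 9) .nil))))))))) (.g (nat_lit 5) .nil .nil))) 
(.lf (nat_lit 95907) (.g (nat_lit 3163) (.e (nat_lit 2684) (nat_lit 168) (.e (nat_lit 204880) (nat_lit 32) (.e (nat_lit 385066) (nat_lit 26) (.e (nat_lit 532499) (nat_lit 1) (.e (nat_lit 57849) (nat_lit 252) (.e (nat_lit 57377) (nat_lit 3) (.e (nat_lit 98338) (nat_lit 19) (.e (nat_lit 213013) (nat_lit 9) .nil)))))))) (.g (nat_lit 4) .nil .nil)))) (.nd (nat_lit 5) 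
(.lf (nat_lit 95891) (.g (nat_lit 3623) (.e (nat_lit 2684) (nat_lit 168) (.e (nat_lit 204864) (nat_lit 27) (.e (nat_lit 344132) (nat_lit 26) (.e (nat_lit 557105) (nat_lit 14) (.e (nat_lit 180252) (nat_lit 10) (.e (nat_lit 573474) (nat_lit 12) (.e (nat_lit 57508) (nat_lit 39) (.e (nat_lit 647175) (nat_lit 0) .nil)))))))) (.g (nat_lit 5) .nil .nil))) 
(.lf (nat_lit 95923) (.g (nat_lit 1790) (.e (nat_lit 2684) (nat_lit 168) (.e (nat_lit 204882) (nat_lit 32) (.e (nat_lit 385106) (nat_lit 50) (.e (nat_lit 786473) (nat_lit 27) .nil)))) .nil)))) (.nd (nat_lit 4) (.nd (nat_lit 5) 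
(.lf (nat_lit 95883) (.g (nat_lit 4300) (.e (nat_lit 2684) (nat_lit 168) (.e (nat_lit 204863) (nat_lit 27) (.e (nat_lit 344169) (nat_lit 40) (.e (nat_lit 671759) (nat_lit 3) (.e (nat_lit 57479) (nat_lit 28) (.e (nat_lit 557105) (nat_lit 14) (.e (nat_lit 188160) (nat_lit 40) .nil))))))) (.g (nat_lit 6) .nil .nil))) 
(.lf (nat_lit 95915) (.g (nat_lit 2420) (.e (nat_lit 2684) (nat_lit 168) (.e (nat_lit 204880) (nat_lit 32) (.e (nat_lit 385066) (nat_lit 26) (.e (nat_lit 532504) (nat_lit 1) (.e (nat_lit 57830) (nat_lit 250) .nil))))) .nil))) (.nd (nat_lit 5) 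
(.lf (nat_lit 95899) (.g (nat_lit 2368) (.e (nat_lit 2684) (nat_lit 168) (.e (nat_lit 204864) (nat_lit 27) (.e (nat_lit 344133) (nat_lit 26) (.e (nat_lit 557103) (nat_lit 14) (.e (nat_lit 180250) (nat_lit 10) (.e (nat_lit 573477) (nat_lit 12) (.e (nat_lit 57511) (nat_lit 39) (.e (nat_lit 655104) (nat_lit 0) .nil)))))))) (.g (nat_lit 4) .nil .nil))) 
(.lf (nat_lit 95931) (.g (nat_lit 2404) (.e (nat_lit 2685) (nat_lit 168) (.e (nat_lit 204829) (nat_lit 18) (.e (nat_lit 57927) (nat_lit 282) (.e (nat_lit 163871) (nat_lit 2) (.e (nat_lit 196668) (nat_lit 14) .nil))))) .nil))))) (.nd (nat_lit 3) (.nd (nat_lit 4) (.nd (nat_lit 5) 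
(.lf (nat_lit 95879) (.g (nat_lit 2277) (.e (nat_lit 2684) (nat_lit 168) (.e (nat_lit 204863) (nat_lit 27) (.e (nat_lit 344117) (nat_lit 21) (.e (nat_lit 516115) (nat_lit 1) (.e (nat_lit 164183) (nat_lit 154) (.e (nat_lit 57378) (nat_lit 3) (.e (nat_lit 98338) (nat_lit 19) (.e (nat_lit 213013) (nat_lit 9) .nil)))))))) (.g (nat_lit 4) .nil .nil))) 
(.lf (nat_lit 95911) (.g (nat_lit 2593) (.e (nat_lit 2684) (nat_lit 168) (.e (nat_lit 204880) (nat_lit 32) (.e (nat_lit 385066) (nat_lit 26) (.e (nat_lit 532501) (nat_lit 1) (.e (nat_lit 57830) (nat_lit 250) .nil))))) .nil))) (.nd (nat_lit 5) 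
(.lf (nat_lit 95895) (.g (nat_lit 3279) (.e (nat_lit 2684) (nat_lit 168) (.e (nat_lit 204864) (nat_lit 27) (.e (nat_lit 344132) (nat_lit 26) (.e (nat_lit 557105) (nat_lit 14) (.e (nat_lit 180252) (nat_lit 10) (.e (nat_lit 573475) (nat_lit 12) (.e (nat_lit 57509) (nat_lit 39) (.e (nat_lit 655104) (nat_lit 0) .nil)))))))) (.g (nat_lit 6) .nil .nil))) 
(.lf (nat_lit 95927) (.g (nat_lit 2250) (.e (nat_lit 2685) (nat_lit 168) (.e (nat_lit 204829) (nat_lit 18) (.e (nat_lit 57927) (nat_lit 282) (.e (nat_lit 163866) (nat_lit 2) (.e (nat_lit 196670) (nat_lit 14) .nil))))) .nil)))) (.nd (nat_lit 4) (.nd (nat_lit 5) 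
(.lf (nat_lit 95887) (.g (nat_lit 4077) (.e (nat_lit 2684) (nat_lit 168) (.e (nat_lit 204864) (nat_lit 27) (.e (nat_lit 344132) (nat_lit 26) (.e (nat_lit 557105) (nat_lit 14) (.e (nat_lit 180252) (nat_lit 10) (.e (nat_lit 573473) (nat_lit 12) (.e (nat_lit 57507) (nat_lit 39) (.e (nat_lit 655104) (nat_lit 0) .nil)))))))) (.g (nat_lit 7) .nil .nil))) 
(.lf (nat_lit 95919) (.g (nat_lit 3216) (.e (nat_lit 2684) (nat_lit 168) (.e (nat_lit 204880) (nat_lit 32) (.e (nat_lit 385068) (nat_lit 26) (.e (nat_lit 532501) (nat_lit 1) (.e (nat_lit 57830) (nat_lit 250) .nil))))) .nil))) (.nd (nat_lit 5) 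
(.lf (nat_lit 95903) (.g (nat_lit 3370) (.e (nat_lit 2684) (nat_lit 168) (.e (nat_lit 204869) (nat_lit 29) (.e (nat_lit 360475) (nat_lit 8) (.e (nat_lit 557086) (nat_lit 11) (.e (nat_lit 24578) (nat_lit 0) .nil))))) .nil)) 
(.lf (nat_lit 95935) (.g (nat_lit 3053) (.e (nat_lit 2685) (nat_lit 168) (.e (nat_lit 204830) (nat_lit 18) (.e (nat_lit 57926) (nat_lit 282) (.e (nat_lit 163868) (nat_lit 2) (.e (nat_lit 196668) (nat_lit 14) .nil))))) .nil))))))))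

noncomputable def tv1317 : DT := (.nd (nat_lit 0) (.nd (nat_lit 1) (.nd (nat_lit 2) (.nd (nat_lit 3) (.nd (nat_lit 4) (.nd (nat_lit 5) 
(.lf (nat_lit 95936) (.g (nat_lit 3094) (.e (nat_lit 2685) (nat_lit 168) (.e (nat_lit 204830) (nat_lit 18) (.e (nat_lit 57926) (nat_lit 282) (.e (nat_lit 163868) (nat_lit 2) (.e (nat_lit 196670) (nat_lit 14) .nil))))) .nil)) 
(.lf (nat_lit 95968) (.g (nat_lit 2121) (.e (nat_lit 2685) (nat_lit 168) (.e (nat_lit 204855) (nat_lit 26) (.e (nat_lit 336226) (nat_lit 14) (.e (nat_lit 401414) (nat_lit 0) (.e (nat_lit 3124) (nat_lit 193) .nil))))) .nil))) (.nd (nat_lit 5) 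
(.lf (nat_lit 95952) (.g (nat_lit 2961) (.e (nat_lit 2685) (nat_lit 168) (.e (nat_lit 204846) (nat_lit 24) (.e (nat_lit 319530) (nat_lit 16) (.e (nat_lit 286733) (nat_lit 2) (.e (nat_lit 90173) (nat_lit 14) .nil))))) .nil)) 
(.lf (nat_lit 95984) (.g (nat_lit 2081) (.e (nat_lit 2685) (nat_lit 168) (.e (nat_lit 204866) (nat_lit 28) (.e (nat_lit 352318) (nat_lit 24) (.e (nat_lit 123041) (nat_lit 140) (.e (nat_lit 7936) (nat_lit 89) (.e (nat_lit 81664) (nat_lit 32) .nil)))))) (.g (nat_lit 4) .nil .nil))))) (.nd (nat_lit 4) (.nd (nat_lit 5) 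
(.lf (nat_lit 95944) (.g (nat_lit 1737) (.e (nat_lit 2685) (nat_lit 168) (.e (nat_lit 204845) (nat_lit 24) (.e (nat_lit 319531) (nat_lit 16) (.e (nat_lit 286733) (nat_lit 2) .nil)))) .nil)) 
(.lf (nat_lit 95976) (.g (nat_lit 2285) (.e (nat_lit 2685) (nat_lit 168) (.e (nat_lit 204863) (nat_lit 27) (.e (nat_lit 344132) (nat_lit 26) (.e (nat_lit 557101) (nat_lit 13) (.e (nat_lit 172066) (nat_lit 3) .nil))))) .nil))) (.nd (nat_lit 5) 
(.lf (nat_lit 95960) (.g (nat_lit 3527) (.e (nat_lit 2685) (nat_lit 168) (.e (nat_lit 204846) (nat_lit 24) (.e (nat_lit 319534) (nat_lit 16) (.e (nat_lit 286733) (nat_lit 2) (.e (nat_lit 90174) (nat_lit 14) (.e (nat_lit 188160) (nat_lit 40) .nil)))))) (.g (nat_lit 5) .nil .nil))) 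
(.lf (nat_lit 95992) (.g (nat_lit 2300) (.e (nat_lit 2685) (nat_lit 168) (.e (nat_lit 204869) (nat_lit 29) (.e (nat_lit 360474) (nat_lit 8) (.e (nat_lit 557072) (nat_lit 9) (.e (nat_lit 290) (nat_lit 21) (.e (nat_lit 335892) (nat_lit 0) (.e (nat_lit 6617) (nat_lit 357) .nil))))))) (.g (nat_lit 4) .nil .nil)))))) (.nd (nat_lit 3) (.nd (nat_lit 4) (.nd (nat_lit 5) 
(.lf (nat_lit 95940) (.g (nat_lit 1899) (.e (nat_lit 2685) (nat_lit 168) (.e (nat_lit 204837) (nat_lit 20) (.e (nat_lit 114716) (nat_lit 22) (.e (nat_lit 90172) (nat_lit 14) (.e (nat_lit 180244) (nat_lit 5) .nil))))) .nil)) 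
(.lf (nat_lit 95972) (.g (nat_lit 668) (.e (nat_lit 2685) (nat_lit 168) (.e (nat_lit 204863) (nat_lit 27) (.e (nat_lit 352000) (nat_lit 3) .nil))) .nil))) (.nd (nat_lit 5) 
(.lf (nat_lit 95956) (.g (nat_lit 2859) (.e (nat_lit 2685) (nat_lit 168) (.e (nat_lit 204846) (nat_lit 24) (.e (nat_lit 319533) (nat_lit 16) (.e (nat_lit 286733) (nat_lit 2) (.e (nat_lit 90173) (nat_lit 14) (.e (nat_lit 188160) (nat_lit 40) .nil)))))) (.g (nat_lit 4) .nil .nil))) 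
(.lf (nat_lit 95988) (.g (nat_lit 1920) (.e (nat_lit 2685) (nat_lit 168) (.e (nat_lit 204868) (nat_lit 29) (.e (nat_lit 360475) (nat_lit 8) (.e (nat_lit 557086) (nat_lit 11) .nil)))) .nil)))) (.nd (nat_lit 4) (.nd (nat_lit 5) 
(.lf (nat_lit 95948) (.g (nat_lit 1909) (.e (nat_lit 2685) (nat_lit 168) (.e (nat_lit 204846) (nat_lit 24) (.e (nat_lit 319528) (nat_lit 16) (.e (nat_lit 286733) (nat_lit 2) (.e (nat_lit 90173) (nat_lit 14) (.e (nat_lit 188160) (nat_lit 40) .nil)))))) (.g (nat_lit 4) .nil .nil))) 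
(.lf (nat_lit 95980) (.g (nat_lit 919) (.e (nat_lit 2685) (nat_lit 168) (.e (nat_lit 204865) (nat_lit 28) (.e (nat_lit 352268) (nat_lit 6) (.e (nat_lit 229524) (nat_lit 128) (.e (nat_lit 1210) (nat_lit 89) (.e (nat_lit 81664) (nat_lit 32) .nil)))))) (.g (nat_lit 5) .nil .nil)))) (.nd (nat_lit 5) 
(.lf (nat_lit 95964) (.g (nat_lit 1852) (.e (nat_lit 2685) (nat_lit 168) (.e (nat_lit 204855) (nat_lit 26) (.e (nat_lit 336176) (nat_lit 10) (.e (nat_lit 344091) (nat_lit 18) (.e (nat_lit 3928) (nat_lit 239) .nil))))) .nil)) 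
(.lf (nat_lit 95996) (.g (nat_lit 2097) (.e (nat_lit 2685) (nat_lit 168) (.e (nat_lit 204869) (nat_lit 29) (.e (nat_lit 360474) (nat_lit 8) (.e (nat_lit 557073) (nat_lit 9) (.e (nat_lit 7936) (nat_lit 22) (.e (nat_lit 352000) (nat_lit 0) .nil)))))) (.g (nat_lit 4) .nil .nil))))))) (.nd (nat_lit 2) (.nd (nat_lit 3) (.nd (nat_lit 4) (.nd (nat_lit 5) 
(.lf (nat_lit 95938) (.g (nat_lit 2442) (.e (nat_lit 2685) (nat_lit 168) (.e (nat_lit 204830) (nat_lit 18) (.e (nat_lit 57926) (nat_lit 282) (.e (nat_lit 163871) (nat_lit 2) (.e (nat_lit 196670) (nat_lit 14) .nil))))) .nil)) 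
(.lf (nat_lit 95970) (.g (nat_lit 1621) (.e (nat_lit 2685) (nat_lit 168) (.e (nat_lit 204862) (nat_lit 27) (.e (nat_lit 344132) (nat_lit 26) (.e (nat_lit 557101) (nat_lit 13) (.e (nat_lit 172066) (nat_lit 3) .nil))))) .nil))) (.nd (nat_lit 5) 
(.lf (nat_lit 95954) (.g (nat_lit 2888) (.e (nat_lit 2685) (nat_lit 168) (.e (nat_lit 204846) (nat_lit 24) (.e (nat_lit 319531) (nat_lit 16) (.e (nat_lit 286733) (nat_lit 2) (.e (nat_lit 90173) (nat_lit 14) (.e (nat_lit 188160) (nat_lit 40) .nil)))))) (.g (nat_lit 4) .nil .nil))) 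
(.lf (nat_lit 95986) (.g (nat_lit 2961) (.e (nat_lit 2685) (nat_lit 168) (.e (nat_lit 204868) (nat_lit 29) (.e (nat_lit 360473) (nat_lit 8) (.e (nat_lit 557067) (nat_lit 9) (.e (nat_lit 214) (nat_lit 19) .nil))))) .nil)))) (.nd (nat_lit 4) (.nd (nat_lit 5) 
(.lf (nat_lit 95946) (.g (nat_lit 2302) (.e (nat_lit 2685) (nat_lit 168) (.e (nat_lit 204846) (nat_lit 24) (.e (nat_lit 319504) (nat_lit 10) (.e (nat_lit 7936) (nat_lit 313) (.e (nat_lit 8326) (nat_lit 69) (.e (nat_lit 557105) (nat_lit 14) (.e (nat_lit 188160) (nat_lit 40) .nil))))))) (.g (nat_lit 6) .nil .nil))) 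
(.lf (nat_lit 95978) (.g (nat_lit 4753) (.e (nat_lit 2685) (nat_lit 168) (.e (nat_lit 204863) (nat_lit 27) (.e (nat_lit 344169) (nat_lit 40) (.e (nat_lit 671759) (nat_lit 3) (.e (nat_lit 57479) (nat_lit 28) (.e (nat_lit 557105) (nat_lit 14) (.e (nat_lit 188160) (nat_lit 40) .nil))))))) (.g (nat_lit 6) .nil .nil)))) (.nd (nat_lit 5) 
(.lf (nat_lit 95962) (.g (nat_lit 984) (.e (nat_lit 2685) (nat_lit 168) (.e (nat_lit 204855) (nat_lit 26) (.e (nat_lit 336061) (nat_lit 7) (.e (nat_lit 327424) (nat_lit 10) .nil)))) .nil)) 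
(.lf (nat_lit 95994) (.g (nat_lit 2201) (.e (nat_lit 2685) (nat_lit 168) (.e (nat_lit 204869) (nat_lit 29) (.e (nat_lit 360474) (nat_lit 8) (.e (nat_lit 557073) (nat_lit 9) (.e (nat_lit 214) (nat_lit 19) (.e (nat_lit 319491) (nat_lit 0) (.e (nat_lit 5612) (nat_lit 312) .nil))))))) (.g (nat_lit 5) .nil .nil)))))) (.nd (nat_lit 3) (.nd (nat_lit 4) (.nd (nat_lit 5) 
(.lf (nat_lit 95942) (.g (nat_lit 3039) (.e (nat_lit 2685) (nat_lit 168) (.e (nat_lit 204840) (nat_lit 21) (.e (nat_lit 123194) (nat_lit 266) (.e (nat_lit 57372) (nat_lit 2) (.e (nat_lit 90172) (nat_lit 14) (.e (nat_lit 180244) (nat_lit 5) (.e (nat_lit 532508) (nat_lit 2) (.e (nat_lit 114432) (nat_lit 0) .nil)))))))) (.g (nat_lit 7) .nil .nil))) 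
(.lf (nat_lit 95974) (.g (nat_lit 2276) (.e (nat_lit 2685) (nat_lit 168) (.e (nat_lit 204863) (nat_lit 27) (.e (nat_lit 344132) (nat_lit 26) (.e (nat_lit 557101) (nat_lit 13) (.e (nat_lit 172064) (nat_lit 2) .nil))))) .nil))) (.nd (nat_lit 5) 
(.lf (nat_lit 95958) (.g (nat_lit 3510) (.e (nat_lit 2685) (nat_lit 168) (.e (nat_lit 204846) (nat_lit 24) (.e (nat_lit 319534) (nat_lit 16) (.e (nat_lit 286733) (nat_lit 2) (.e (nat_lit 90172) (nat_lit 14) (.e (nat_lit 188160) (nat_lit 40) .nil)))))) (.g (nat_lit 5) .nil .nil))) 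
(.lf (nat_lit 95990) (.g (nat_lit 1375) (.e (nat_lit 2685) (nat_lit 168) (.e (nat_lit 204869) (nat_lit 29) (.e (nat_lit 360473) (nat_lit 8) (.e (nat_lit 557087) (nat_lit 11) .nil)))) .nil)))) (.nd (nat_lit 4) (.nd (nat_lit 5) 
(.lf (nat_lit 95950) (.g (nat_lit 4756) (.e (nat_lit 2685) (nat_lit 168) (.e (nat_lit 204846) (nat_lit 24) (.e (nat_lit 319530) (nat_lit 16) (.e (nat_lit 286733) (nat_lit 2) (.e (nat_lit 90165) (nat_lit 12) (.e (nat_lit 164217) (nat_lit 178) (.e (nat_lit 123162) (nat_lit 256) .nil))))))) (.g (nat_lit 5) .nil .nil))) 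
(.lf (nat_lit 95982) (.g (nat_lit 2635) (.e (nat_lit 2685) (nat_lit 168) (.e (nat_lit 204866) (nat_lit 28) (.e (nat_lit 352318) (nat_lit 24) (.e (nat_lit 123040) (nat_lit 140) (.e (nat_lit 1209) (nat_lit 89) (.e (nat_lit 81664) (nat_lit 32) .nil)))))) (.g (nat_lit 5) .nil .nil)))) (.nd (nat_lit 5) 
(.lf (nat_lit 95966) (.g (nat_lit 1641) (.e (nat_lit 2685) (nat_lit 168) (.e (nat_lit 204855) (nat_lit 26) (.e (nat_lit 336176) (nat_lit 10) (.e (nat_lit 344096) (nat_lit 18) (.e (nat_lit 3928) (nat_lit 239) .nil))))) .nil)) 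
(.lf (nat_lit 95998) (.g (nat_lit 2816) (.e (nat_lit 2685) (nat_lit 168) (.e (nat_lit 204869) (nat_lit 29) (.e (nat_lit 360475) (nat_lit 8) (.e (nat_lit 557065) (nat_lit 9) (.e (nat_lit 214) (nat_lit 19) .nil))))) .nil))))))) (.nd (nat_lit 1) (.nd (nat_lit 2) (.nd (nat_lit 3) (.nd (nat_lit 4) (.nd (nat_lit 5) 
(.lf (nat_lit 95937) (.g (nat_lit 2391) (.e (nat_lit 2685) (nat_lit 168) (.e (nat_lit 204830) (nat_lit 18) (.e (nat_lit 57926) (nat_lit 282) (.e (nat_lit 163869) (nat_lit 2) (.e (nat_lit 196670) (nat_lit 14) .nil))))) .nil)) 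
(.lf (nat_lit 95969) (.g (nat_lit 2591) (.e (nat_lit 2685) (nat_lit 168) (.e (nat_lit 204862) (nat_lit 27) (.e (nat_lit 344129) (nat_lit 26) (.e (nat_lit 557096) (nat_lit 13) (.e (nat_lit 172067) (nat_lit 3) .nil))))) .nil))) (.nd (nat_lit 5) 
(.lf (nat_lit 95953) (.g (nat_lit 3348) (.e (nat_lit 2685) (nat_lit 168) (.e (nat_lit 204846) (nat_lit 24) (.e (nat_lit 319530) (nat_lit 16) (.e (nat_lit 286733) (nat_lit 2) (.e (nat_lit 90174) (nat_lit 14) (.e (nat_lit 188160) (nat_lit 40) .nil)))))) (.g (nat_lit 5) .nil .nil))) 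
(.lf (nat_lit 95985) (.g (nat_lit 1105) (.e (nat_lit 2685) (nat_lit 168) (.e (nat_lit 204868) (nat_lit 29) (.e (nat_lit 360466) (nat_lit 3) (.e (nat_lit 516141) (nat_lit 8) .nil)))) .nil)))) (.nd (nat_lit 4) (.nd (nat_lit 5) 
(.lf (nat_lit 95945) (.g (nat_lit 2559) (.e (nat_lit 2685) (nat_lit 168) (.e (nat_lit 204846) (nat_lit 24) (.e (nat_lit 319504) (nat_lit 10) (.e (nat_lit 7936) (nat_lit 313) (.e (nat_lit 8326) (nat_lit 69) (.e (nat_lit 557103) (nat_lit 14) (.e (nat_lit 188160) (nat_lit 40) .nil))))))) (.g (nat_lit 6) .nil .nil))) 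
(.lf (nat_lit 95977) (.g (nat_lit 2409) (.e (nat_lit 2685) (nat_lit 168) (.e (nat_lit 204863) (nat_lit 27) (.e (nat_lit 344133) (nat_lit 26) (.e (nat_lit 557098) (nat_lit 13) (.e (nat_lit 172067) (nat_lit 3) .nil))))) .nil))) (.nd (nat_lit 5) 
(.lf (nat_lit 95961) (.g (nat_lit 1672) (.e (nat_lit 2685) (nat_lit 168) (.e (nat_lit 204855) (nat_lit 26) (.e (nat_lit 336061) (nat_lit 7) (.e (nat_lit 319500) (nat_lit 10) (.e (nat_lit 511) (nat_lit 41) .nil))))) .nil)) 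
(.lf (nat_lit 95993) (.g (nat_lit 2381) (.e (nat_lit 2685) (nat_lit 168) (.e (nat_lit 204869) (nat_lit 29) (.e (nat_lit 360474) (nat_lit 8) (.e (nat_lit 557072) (nat_lit 9) (.e (nat_lit 7936) (nat_lit 22) (.e (nat_lit 352000) (nat_lit 0) .nil)))))) (.g (nat_lit 4) .nil .nil)))))) (.nd (nat_lit 3) (.nd (nat_lit 4) (.nd (nat_lit 5) 
(.lf (nat_lit 95941) (.g (nat_lit 1739) (.e (nat_lit 2685) (nat_lit 168) (.e (nat_lit 204837) (nat_lit 20) (.e (nat_lit 114716) (nat_lit 22) (.e (nat_lit 90174) (nat_lit 14) (.e (nat_lit 180243) (nat_lit 5) .nil))))) .nil)) 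
(.lf (nat_lit 95973) (.g (nat_lit 2214) (.e (nat_lit 2685) (nat_lit 168) (.e (nat_lit 204863) (nat_lit 27) (.e (nat_lit 344129) (nat_lit 26) (.e (nat_lit 557097) (nat_lit 13) (.e (nat_lit 172065) (nat_lit 3) .nil))))) .nil))) (.nd (nat_lit 5) 
(.lf (nat_lit 95957) (.g (nat_lit 2502) (.e (nat_lit 2685) (nat_lit 168) (.e (nat_lit 204846) (nat_lit 24) (.e (nat_lit 319534) (nat_lit 16) (.e (nat_lit 286732) (nat_lit 2) (.e (nat_lit 90174) (nat_lit 14) .nil))))) .nil)) 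
(.lf (nat_lit 95989) (.g (nat_lit 1358) (.e (nat_lit 2685) (nat_lit 168) (.e (nat_lit 204869) (nat_lit 29) (.e (nat_lit 360456) (nat_lit 0) (.e (nat_lit 3962) (nat_lit 239) .nil)))) .nil)))) (.nd (nat_lit 4) (.nd (nat_lit 5) 
(.lf (nat_lit 95949) (.g (nat_lit 2617) (.e (nat_lit 2685) (nat_lit 168) (.e (nat_lit 204846) (nat_lit 24) (.e (nat_lit 319528) (nat_lit 16) (.e (nat_lit 286733) (nat_lit 2) (.e (nat_lit 90174) (nat_lit 14) (.e (nat_lit 188160) (nat_lit 40) .nil)))))) (.g (nat_lit 5) .nil .nil))) 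
(.lf (nat_lit 95981) (.g (nat_lit 1468) (.e (nat_lit 2685) (nat_lit 168) (.e (nat_lit 204866) (nat_lit 28) (.e (nat_lit 360192) (nat_lit 1) (.e (nat_lit 164119) (nat_lit 128) (.e (nat_lit 1209) (nat_lit 89) (.e (nat_lit 81664) (nat_lit 32) .nil)))))) (.g (nat_lit 5) .nil .nil)))) (.nd (nat_lit 5) 
(.lf (nat_lit 95965) (.g (nat_lit 1131) (.e (nat_lit 2685) (nat_lit 168) (.e (nat_lit 204855) (nat_lit 26) (.e (nat_lit 336176) (nat_lit 10) (.e (nat_lit 344096) (nat_lit 18) .nil)))) .nil)) 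
(.lf (nat_lit 95997) (.g (nat_lit 3563) (.e (nat_lit 2685) (nat_lit 168) (.e (nat_lit 204869) (nat_lit 29) (.e (nat_lit 360474) (nat_lit 8) (.e (nat_lit 557089) (nat_lit 12) .nil)))) .nil)))))) (.nd (nat_lit 2) (.nd (nat_lit 3) (.nd (nat_lit 4) (.nd (nat_lit 5) 
(.lf (nat_lit 95939) (.g (nat_lit 2376) (.e (nat_lit 2685) (nat_lit 168) (.e (nat_lit 204837) (nat_lit 20) (.e (nat_lit 114714) (nat_lit 22) (.e (nat_lit 90172) (nat_lit 14) (.e (nat_lit 180243) (nat_lit 5) .nil))))) .nil)) 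
(.lf (nat_lit 95971) (.g (nat_lit 1796) (.e (nat_lit 2685) (nat_lit 168) (.e (nat_lit 204862) (nat_lit 27) (.e (nat_lit 344169) (nat_lit 40) (.e (nat_lit 671759) (nat_lit 3) (.e (nat_lit 57479) (nat_lit 28) .nil))))) .nil))) (.nd (nat_lit 5) 
(.lf (nat_lit 95955) (.g (nat_lit 3506) (.e (nat_lit 2685) (nat_lit 168) (.e (nat_lit 204846) (nat_lit 24) (.e (nat_lit 319531) (nat_lit 16) (.e (nat_lit 286733) (nat_lit 2) (.e (nat_lit 90174) (nat_lit 14) (.e (nat_lit 188160) (nat_lit 40) .nil)))))) (.g (nat_lit 5) .nil .nil))) 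
(.lf (nat_lit 95987) (.g (nat_lit 953) (.e (nat_lit 2685) (nat_lit 168) (.e (nat_lit 204868) (nat_lit 29) (.e (nat_lit 360473) (nat_lit 8) (.e (nat_lit 557086) (nat_lit 11) .nil)))) .nil)))) (.nd (nat_lit 4) (.nd (nat_lit 5) 
(.lf (nat_lit 95947) (.g (nat_lit 3356) (.e (nat_lit 2685) (nat_lit 168) (.e (nat_lit 204846) (nat_lit 24) (.e (nat_lit 319528) (nat_lit 16) (.e (nat_lit 286733) (nat_lit 2) (.e (nat_lit 90165) (nat_lit 12) (.e (nat_lit 164217) (nat_lit 178) (.e (nat_lit 123162) (nat_lit 256) .nil))))))) (.g (nat_lit 5) .nil .nil))) 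
(.lf (nat_lit 95979) (.g (nat_lit 1303) (.e (nat_lit 2685) (nat_lit 168) (.e (nat_lit 204865) (nat_lit 28) (.e (nat_lit 352268) (nat_lit 6) (.e (nat_lit 229524) (nat_lit 128) (.e (nat_lit 1209) (nat_lit 89) (.e (nat_lit 81664) (nat_lit 32) .nil)))))) (.g (nat_lit 5) .nil .nil)))) (.nd (nat_lit 5) 
(.lf (nat_lit 95963) (.g (nat_lit 1123) (.e (nat_lit 2685) (nat_lit 168) (.e (nat_lit 204855) (nat_lit 26) (.e (nat_lit 336176) (nat_lit 10) (.e (nat_lit 344091) (nat_lit 18) .nil)))) .nil)) 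
(.lf (nat_lit 95995) (.g (nat_lit 3426) (.e (nat_lit 2685) (nat_lit 168) (.e (nat_lit 204869) (nat_lit 29) (.e (nat_lit 360474) (nat_lit 8) (.e (nat_lit 557073) (nat_lit 9) (.e (nat_lit 290) (nat_lit 21) (.e (nat_lit 335894) (nat_lit 0) (.e (nat_lit 6619) (nat_lit 357) .nil))))))) (.g (nat_lit 0) .nil .nil)))))) (.nd (nat_lit 3) (.nd (nat_lit 4) (.nd (nat_lit 5) 
(.lf (nat_lit 95943) (.g (nat_lit 3082) (.e (nat_lit 2685) (nat_lit 168) (.e (nat_lit 204840) (nat_lit 21) (.e (nat_lit 123194) (nat_lit 266) (.e (nat_lit 57375) (nat_lit 2) (.e (nat_lit 90172) (nat_lit 14) (.e (nat_lit 180244) (nat_lit 5) (.e (nat_lit 532508) (nat_lit 2) (.e (nat_lit 114432) (nat_lit 0) .nil)))))))) (.g (nat_lit 7) .nil .nil))) 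
(.lf (nat_lit 95975) (.g (nat_lit 2258) (.e (nat_lit 2685) (nat_lit 168) (.e (nat_lit 204863) (nat_lit 27) (.e (nat_lit 344132) (nat_lit 26) (.e (nat_lit 557101) (nat_lit 13) (.e (nat_lit 172065) (nat_lit 3) .nil))))) .nil))) (.nd (nat_lit 5) 
(.lf (nat_lit 95959) (.g (nat_lit 3086) (.e (nat_lit 2685) (nat_lit 168) (.e (nat_lit 204846) (nat_lit 24) (.e (nat_lit 319534) (nat_lit 16) (.e (nat_lit 286733) (nat_lit 2) (.e (nat_lit 90173) (nat_lit 14) (.e (nat_lit 188160) (nat_lit 40) .nil)))))) (.g (nat_lit 5) .nil .nil))) 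
(.lf (nat_lit 95991) (.g (nat_lit 2794) (.e (nat_lit 2685) (nat_lit 168) (.e (nat_lit 204869) (nat_lit 29) (.e (nat_lit 360474) (nat_lit 8) (.e (nat_lit 557070) (nat_lit 9) (.e (nat_lit 296) (nat_lit 22) (.e (nat_lit 352000) (nat_lit 0) .nil)))))) (.g (nat_lit 4) .nil .nil))))) (.nd (nat_lit 4) (.nd (nat_lit 5) 
(.lf (nat_lit 95951) (.g (nat_lit 3567) (.e (nat_lit 2685) (nat_lit 168) (.e (nat_lit 204846) (nat_lit 24) (.e (nat_lit 319530) (nat_lit 16) (.e (nat_lit 286733) (nat_lit 2) (.e (nat_lit 90172) (nat_lit 14) (.e (nat_lit 188160) (nat_lit 40) .nil)))))) (.g (nat_lit 4) .nil .nil))) 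
(.lf (nat_lit 95983) (.g (nat_lit 2233) (.e (nat_lit 2685) (nat_lit 168) (.e (nat_lit 204866) (nat_lit 28) (.e (nat_lit 352318) (nat_lit 24) (.e (nat_lit 123040) (nat_lit 140) (.e (nat_lit 1210) (nat_lit 89) (.e (nat_lit 81664) (nat_lit 32) .nil)))))) (.g (nat_lit 5) .nil .nil)))) (.nd (nat_lit 5) 
(.lf (nat_lit 95967) (.g (nat_lit 2269) (.e (nat_lit 2685) (nat_lit 168) (.e (nat_lit 204855) (nat_lit 26) (.e (nat_lit 336226) (nat_lit 14) (.e (nat_lit 401414) (nat_lit 0) (.e (nat_lit 3115) (nat_lit 193) .nil))))) .nil)) 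
(.lf (nat_lit 95999) (.g (nat_lit 3283) (.e (nat_lit 2685) (nat_lit 168) (.e (nat_lit 204869) (nat_lit 29) (.e (nat_lit 360475) (nat_lit 8) (.e (nat_lit 557065) (nat_lit 9) (.e (nat_lit 304) (nat_lit 22) (.e (nat_lit 352000) (nat_lit 0) .nil)))))) (.g (nat_lit 4) .nil .nil)))))))))

noncomputable def tv1318 : DT := (.nd (nat_lit 0) (.nd (nat_lit 1) (.nd (nat_lit 2) (.nd (nat_lit 3) (.nd (nat_lit 4) (.nd (nat_lit 5) (.nd (nat_lit 6) 
(.lf (nat_lit 96000) (.g (nat_lit 3065) (.e (nat_lit 2685) (nat_lit 168) (.e (nat_lit 204869) (nat_lit 29) (.e (nat_lit 360475) (nat_lit 8) (.e (nat_lit 557065) (nat_lit 9) (.e (nat_lit 307) (nat_lit 22) (.e (nat_lit 352000) (nat_lit 0) .nil)))))) (.g (nat_lit 4) .nil .nil))) 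
(.lf (nat_lit 96064) (.g (nat_lit 2888) (.e (nat_lit 2707) (nat_lit 170) (.e (nat_lit 221194) (nat_lit 11) (.e (nat_lit 336027) (nat_lit 3) (.e (nat_lit 98365) (nat_lit 26) .nil)))) .nil))) (.nd (nat_lit 6) 
(.lf (nat_lit 96032) (.g (nat_lit 1549) (.e (nat_lit 2699) (nat_lit 169) (.e (nat_lit 213001) (nat_lit 9) (.e (nat_lit 232) (nat_lit 21) (.e (nat_lit 336060) (nat_lit 7) (.e (nat_lit 319533) (nat_lit 16) .nil))))) .nil)) 
(.lf (nat_lit 96096) (.g (nat_lit 1659) (.e (nat_lit 2710) (nat_lit 170) (.e (nat_lit 221207) (nat_lit 21) (.e (nat_lit 164322) (nat_lit 230) (.e (nat_lit 163885) (nat_lit 5) (.e (nat_lit 229120) (nat_lit 12) .nil))))) .nil)))) (.nd (nat_lit 5) (.nd (nat_lit 6) 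
(.lf (nat_lit 96016) (.g (nat_lit 3275) (.e (nat_lit 2686) (nat_lit 169) (.e (nat_lit 213030) (nat_lit 11) (.e (nat_lit 24617) (nat_lit 7) (.e (nat_lit 319533) (nat_lit 16) (.e (nat_lit 286754) (nat_lit 10) .nil))))) .nil)) 
(.lf (nat_lit 96080) (.g (nat_lit 2213) (.e (nat_lit 2709) (nat_lit 170) (.e (nat_lit 221194) (nat_lit 11) (.e (nat_lit 336027) (nat_lit 3) (.e (nat_lit 98370) (nat_lit 28) .nil)))) .nil))) (.nd (nat_lit 6) 
(.lf (nat_lit 96048) (.g (nat_lit 2701) (.e (nat_lit 2705) (nat_lit 170) (.e (nat_lit 221194) (nat_lit 11) (.e (nat_lit 336027) (nat_lit 3) (.e (nat_lit 98372) (nat_lit 29) .nil)))) .nil)) 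
(.lf (nat_lit 96112) (.g (nat_lit 3476) (.e (nat_lit 2711) (nat_lit 170) (.e (nat_lit 221194) (nat_lit 11) (.e (nat_lit 336012) (nat_lit 2) (.e (nat_lit 90176) (nat_lit 15) (.e (nat_lit 188430) (nat_lit 20) .nil))))) .nil))))) (.nd (nat_lit 4) (.nd (nat_lit 5) (.nd (nat_lit 6) 
(.lf (nat_lit 96008) (.g (nat_lit 3969) (.e (nat_lit 2685) (nat_lit 168) (.e (nat_lit 204869) (nat_lit 29) (.e (nat_lit 360475) (nat_lit 8) (.e (nat_lit 557068) (nat_lit 9) (.e (nat_lit 290) (nat_lit 21) (.e (nat_lit 335894) (nat_lit 0) (.e (nat_lit 6619) (nat_lit 357) .nil))))))) (.g (nat_lit 0) .nil .nil))) 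
(.lf (nat_lit 96072) (.g (nat_lit 2140) (.e (nat_lit 2708) (nat_lit 170) (.e (nat_lit 221194) (nat_lit 11) (.e (nat_lit 336027) (nat_lit 3) (.e (nat_lit 98369) (nat_lit 28) .nil)))) .nil))) (.nd (nat_lit 6) 
(.lf (nat_lit 96040) (.g (nat_lit 1549) (.e (nat_lit 2704) (nat_lit 170) (.e (nat_lit 221194) (nat_lit 11) (.e (nat_lit 336027) (nat_lit 3) .nil))) .nil)) 
(.lf (nat_lit 96104) (.g (nat_lit 4443) (.e (nat_lit 2710) (nat_lit 170) (.e (nat_lit 221207) (nat_lit 21) (.e (nat_lit 164401) (nat_lit 256) (.e (nat_lit 57427) (nat_lit 15) (.e (nat_lit 360474) (nat_lit 8) (.e (nat_lit 557091) (nat_lit 12) (.e (nat_lit 164003) (nat_lit 40) (.e (nat_lit 655360) (nat_lit 0) .nil)))))))) (.g (nat_lit 0) .nil .nil))))) (.nd (nat_lit 5) (.nd (nat_lit 6) 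
(.lf (nat_lit 96024) (.g (nat_lit 2573) (.e (nat_lit 2690) (nat_lit 169) (.e (nat_lit 213030) (nat_lit 11) (.e (nat_lit 24617) (nat_lit 7) (.e (nat_lit 319534) (nat_lit 16) (.e (nat_lit 286759) (nat_lit 12) .nil))))) .nil)) 
(.lf (nat_lit 96088) (.g (nat_lit 2843) (.e (nat_lit 2710) (nat_lit 170) (.e (nat_lit 221194) (nat_lit 11) (.e (nat_lit 336012) (nat_lit 2) (.e (nat_lit 90178) (nat_lit 15) .nil)))) .nil))) (.nd (nat_lit 6) 
(.lf (nat_lit 96056) (.g (nat_lit 2531) (.e (nat_lit 2707) (nat_lit 170) (.e (nat_lit 221190) (nat_lit 11) (.e (nat_lit 336059) (nat_lit 7) (.e (nat_lit 319533) (nat_lit 16) (.e (nat_lit 286753) (nat_lit 10) (.e (nat_lit 344168) (nat_lit 40) (.e (nat_lit 671771) (nat_lit 9) .nil))))))) (.g (nat_lit 7) .nil .nil))) 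
(.lf (nat_lit 96120) (.g (nat_lit 1416) (.e (nat_lit 2712) (nat_lit 170) (.e (nat_lit 221190) (nat_lit 11) (.e (nat_lit 336059) (nat_lit 7) (.e (nat_lit 319533) (nat_lit 16) (.e (nat_lit 286753) (nat_lit 10) .nil))))) .nil)))))) (.nd (nat_lit 3) (.nd (nat_lit 4) (.nd (nat_lit 5) (.nd (nat_lit 6) 
(.lf (nat_lit 96004) (.g (nat_lit 3354) (.e (nat_lit 2685) (nat_lit 168) (.e (nat_lit 204869) (nat_lit 29) (.e (nat_lit 360475) (nat_lit 8) (.e (nat_lit 557068) (nat_lit 9) (.e (nat_lit 214) (nat_lit 19) (.e (nat_lit 319490) (nat_lit 0) (.e (nat_lit 5612) (nat_lit 312) .nil))))))) (.g (nat_lit 6) .nil .nil))) 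
(.lf (nat_lit 96068) (.g (nat_lit 1198) (.e (nat_lit 2708) (nat_lit 170) (.e (nat_lit 221194) (nat_lit 11) (.e (nat_lit 336011) (nat_lit 2) .nil))) .nil))) (.nd (nat_lit 6) 
(.lf (nat_lit 96036) (.g (nat_lit 844) (.e (nat_lit 2700) (nat_lit 169) (.e (nat_lit 213032) (nat_lit 11) (.e (nat_lit 24603) (nat_lit 2) .nil))) .nil)) 
(.lf (nat_lit 96100) (.g (nat_lit 1403) (.e (nat_lit 2710) (nat_lit 170) (.e (nat_lit 221207) (nat_lit 21) (.e (nat_lit 164325) (nat_lit 230) (.e (nat_lit 163886) (nat_lit 5) (.e (nat_lit 229120) (nat_lit 12) (.e (nat_lit 344117) (nat_lit 21) (.e (nat_lit 516123) (nat_lit 2) (.e (nat_lit 213000) (nat_lit 9) .nil)))))))) (.g (nat_lit 4) .nil .nil))))) (.nd (nat_lit 5) (.nd (nat_lit 6) 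
(.lf (nat_lit 96020) (.g (nat_lit 577) (.e (nat_lit 2688) (nat_lit 169) (.e (nat_lit 213030) (nat_lit 11) (.e (nat_lit 24605) (nat_lit 2) .nil))) .nil)) 
(.lf (nat_lit 96084) (.g (nat_lit 2376) (.e (nat_lit 2710) (nat_lit 170) (.e (nat_lit 221194) (nat_lit 11) (.e (nat_lit 336011) (nat_lit 2) (.e (nat_lit 90170) (nat_lit 13) .nil)))) .nil))) (.nd (nat_lit 6) 
(.lf (nat_lit 96052) (.g (nat_lit 1703) (.e (nat_lit 2706) (nat_lit 170) (.e (nat_lit 221214) (nat_lit 23) (.e (nat_lit 204863) (nat_lit 27) (.e (nat_lit 344120) (nat_lit 21) .nil)))) .nil)) 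
(.lf (nat_lit 96116) (.g (nat_lit 3383) (.e (nat_lit 2711) (nat_lit 170) (.e (nat_lit 221194) (nat_lit 11) (.e (nat_lit 336027) (nat_lit 3) (.e (nat_lit 98372) (nat_lit 29) (.e (nat_lit 458496) (nat_lit 8) .nil))))) .nil))))) (.nd (nat_lit 4) (.nd (nat_lit 5) (.nd (nat_lit 6) 
(.lf (nat_lit 96012) (.g (nat_lit 1638) (.e (nat_lit 2685) (nat_lit 168) (.e (nat_lit 204880) (nat_lit 32) (.e (nat_lit 385094) (nat_lit 49) .nil))) .nil)) 
(.lf (nat_lit 96076) (.g (nat_lit 968) (.e (nat_lit 2709) (nat_lit 170) (.e (nat_lit 221194) (nat_lit 11) (.e (nat_lit 336010) (nat_lit 2) .nil))) .nil))) (.nd (nat_lit 6) 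
(.lf (nat_lit 96044) (.g (nat_lit 1698) (.e (nat_lit 2704) (nat_lit 170) (.e (nat_lit 221194) (nat_lit 11) (.e (nat_lit 336223) (nat_lit 13) .nil))) .nil)) 
(.lf (nat_lit 96108) (.g (nat_lit 1364) (.e (nat_lit 2710) (nat_lit 170) (.e (nat_lit 221208) (nat_lit 21) (.e (nat_lit 164332) (nat_lit 230) (.e (nat_lit 163885) (nat_lit 5) (.e (nat_lit 229120) (nat_lit 12) .nil))))) .nil)))) (.nd (nat_lit 5) (.nd (nat_lit 6) 
(.lf (nat_lit 96028) (.g (nat_lit 2541) (.e (nat_lit 2696) (nat_lit 169) (.e (nat_lit 213030) (nat_lit 11) (.e (nat_lit 24617) (nat_lit 7) (.e (nat_lit 319533) (nat_lit 16) (.e (nat_lit 286753) (nat_lit 10) .nil))))) .nil)) 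
(.lf (nat_lit 96092) (.g (nat_lit 1400) (.e (nat_lit 2710) (nat_lit 170) (.e (nat_lit 221194) (nat_lit 11) (.e (nat_lit 336222) (nat_lit 13) (.e (nat_lit 393283) (nat_lit 24) (.e (nat_lit 434268) (nat_lit 36) (.e (nat_lit 638982) (nat_lit 5) .nil)))))) (.g (nat_lit 4) .nil .nil)))) (.nd (nat_lit 6) 
(.lf (nat_lit 96060) (.g (nat_lit 2788) (.e (nat_lit 2707) (nat_lit 170) (.e (nat_lit 221194) (nat_lit 11) (.e (nat_lit 336012) (nat_lit 2) (.e (nat_lit 90176) (nat_lit 15) .nil)))) .nil)) 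
(.lf (nat_lit 96124) (.g (nat_lit 1722) (.e (nat_lit 7936) (nat_lit 170) (.e (nat_lit 221194) (nat_lit 11) (.e (nat_lit 336027) (nat_lit 3) (.e (nat_lit 98373) (nat_lit 29) (.e (nat_lit 458496) (nat_lit 8) .nil))))) .nil))))))) (.nd (nat_lit 2) (.nd (nat_lit 3) (.nd (nat_lit 4) (.nd (nat_lit 5) (.nd (nat_lit 6) 
(.lf (nat_lit 96002) (.g (nat_lit 4014) (.e (nat_lit 2685) (nat_lit 168) (.e (nat_lit 204869) (nat_lit 29) (.e (nat_lit 360475) (nat_lit 8) (.e (nat_lit 557067) (nat_lit 9) (.e (nat_lit 214) (nat_lit 19) .nil))))) .nil)) 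
(.lf (nat_lit 96066) (.g (nat_lit 2508) (.e (nat_lit 2707) (nat_lit 170) (.e (nat_lit 221194) (nat_lit 11) (.e (nat_lit 336027) (nat_lit 3) (.e (nat_lit 98373) (nat_lit 29) .nil)))) .nil))) (.nd (nat_lit 6) 
(.lf (nat_lit 96034) (.g (nat_lit 3020) (.e (nat_lit 2700) (nat_lit 169) (.e (nat_lit 213000) (nat_lit 9) (.e (nat_lit 232) (nat_lit 21) (.e (nat_lit 336060) (nat_lit 7) (.e (nat_lit 319534) (nat_lit 16) (.e (nat_lit 286756) (nat_lit 10) (.e (nat_lit 344169) (nat_lit 40) (.e (nat_lit 671770) (nat_lit 9) .nil)))))))) (.g (nat_lit 8) .nil .nil))) 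
(.lf (nat_lit 96098) (.g (nat_lit 2692) (.e (nat_lit 2710) (nat_lit 170) (.e (nat_lit 221207) (nat_lit 21) (.e (nat_lit 164325) (nat_lit 230) (.e (nat_lit 163884) (nat_lit 5) (.e (nat_lit 229120) (nat_lit 12) (.e (nat_lit 344117) (nat_lit 21) (.e (nat_lit 516122) (nat_lit 2) (.e (nat_lit 213016) (nat_lit 9) .nil)))))))) (.g (nat_lit 7) .nil .nil))))) (.nd (nat_lit 5) (.nd (nat_lit 6) 
(.lf (nat_lit 96018) (.g (nat_lit 1982) (.e (nat_lit 2686) (nat_lit 169) (.e (nat_lit 213032) (nat_lit 11) (.e (nat_lit 24608) (nat_lit 3) (.e (nat_lit 98373) (nat_lit 29) .nil)))) .nil)) 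
(.lf (nat_lit 96082) (.g (nat_lit 3274) (.e (nat_lit 2710) (nat_lit 170) (.e (nat_lit 221190) (nat_lit 11) (.e (nat_lit 336059) (nat_lit 7) (.e (nat_lit 319534) (nat_lit 16) (.e (nat_lit 286756) (nat_lit 10) (.e (nat_lit 344168) (nat_lit 40) (.e (nat_lit 671767) (nat_lit 9) .nil))))))) (.g (nat_lit 6) .nil .nil)))) (.nd (nat_lit 6) 
(.lf (nat_lit 96050) (.g (nat_lit 1851) (.e (nat_lit 2705) (nat_lit 170) (.e (nat_lit 221214) (nat_lit 23) (.e (nat_lit 204863) (nat_lit 27) (.e (nat_lit 344118) (nat_lit 21) .nil)))) .nil)) 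
(.lf (nat_lit 96114) (.g (nat_lit 588) (.e (nat_lit 2711) (nat_lit 170) (.e (nat_lit 221194) (nat_lit 11) (.e (nat_lit 336026) (nat_lit 3) .nil))) .nil))))) (.nd (nat_lit 4) (.nd (nat_lit 5) (.nd (nat_lit 6) 
(.lf (nat_lit 96010) (.g (nat_lit 3758) (.e (nat_lit 2685) (nat_lit 168) (.e (nat_lit 204869) (nat_lit 29) (.e (nat_lit 360475) (nat_lit 8) (.e (nat_lit 557073) (nat_lit 9) (.e (nat_lit 290) (nat_lit 21) (.e (nat_lit 335895) (nat_lit 0) (.e (nat_lit 6617) (nat_lit 357) .nil))))))) (.g (nat_lit 6) .nil .nil))) 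
(.lf (nat_lit 96074) (.g (nat_lit 400) (.e (nat_lit 2709) (nat_lit 170) (.e (nat_lit 221193) (nat_lit 11) (.e (nat_lit 336012) (nat_lit 2) .nil))) .nil))) (.nd (nat_lit 6) 
(.lf (nat_lit 96042) (.g (nat_lit 2753) (.e (nat_lit 2704) (nat_lit 170) (.e (nat_lit 221194) (nat_lit 11) (.e (nat_lit 336027) (nat_lit 3) (.e (nat_lit 98372) (nat_lit 29) .nil)))) .nil)) 
(.lf (nat_lit 96106) (.g (nat_lit 1459) (.e (nat_lit 2710) (nat_lit 170) (.e (nat_lit 221208) (nat_lit 21) (.e (nat_lit 164329) (nat_lit 230) (.e (nat_lit 163884) (nat_lit 5) (.e (nat_lit 229120) (nat_lit 12) .nil))))) .nil)))) (.nd (nat_lit 5) (.nd (nat_lit 6) 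
(.lf (nat_lit 96026) (.g (nat_lit 2470) (.e (nat_lit 2694) (nat_lit 169) (.e (nat_lit 213030) (nat_lit 11) (.e (nat_lit 24617) (nat_lit 7) (.e (nat_lit 319534) (nat_lit 16) (.e (nat_lit 286756) (nat_lit 10) .nil))))) .nil)) 
(.lf (nat_lit 96090) (.g (nat_lit 1279) (.e (nat_lit 2710) (nat_lit 170) (.e (nat_lit 221194) (nat_lit 11) (.e (nat_lit 336027) (nat_lit 3) .nil))) .nil))) (.nd (nat_lit 6) 
(.lf (nat_lit 96058) (.g (nat_lit 3197) (.e (nat_lit 2707) (nat_lit 170) (.e (nat_lit 221190) (nat_lit 11) (.e (nat_lit 336059) (nat_lit 7) (.e (nat_lit 319534) (nat_lit 16) (.e (nat_lit 286756) (nat_lit 10) (.e (nat_lit 344168) (nat_lit 40) (.e (nat_lit 671771) (nat_lit 9) .nil))))))) (.g (nat_lit 6) .nil .nil))) 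
(.lf (nat_lit 96122) (.g (nat_lit 1751) (.e (nat_lit 2712) (nat_lit 170) (.e (nat_lit 221194) (nat_lit 11) (.e (nat_lit 336027) (nat_lit 3) .nil))) .nil)))))) (.nd (nat_lit 3) (.nd (nat_lit 4) (.nd (nat_lit 5) (.nd (nat_lit 6) 
(.lf (nat_lit 96006) (.g (nat_lit 2276) (.e (nat_lit 2685) (nat_lit 168) (.e (nat_lit 204869) (nat_lit 29) (.e (nat_lit 360475) (nat_lit 8) (.e (nat_lit 557068) (nat_lit 9) (.e (nat_lit 214) (nat_lit 19) (.e (nat_lit 319495) (nat_lit 0) (.e (nat_lit 5612) (nat_lit 312) .nil))))))) (.g (nat_lit 4) .nil .nil))) 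
(.lf (nat_lit 96070) (.g (nat_lit 2115) (.e (nat_lit 2708) (nat_lit 170) (.e (nat_lit 221194) (nat_lit 11) (.e (nat_lit 336012) (nat_lit 2) (.e (nat_lit 90176) (nat_lit 15) (.e (nat_lit 196352) (nat_lit 7) .nil))))) .nil))) (.nd (nat_lit 6) 
(.lf (nat_lit 96038) (.g (nat_lit 2761) (.e (nat_lit 2704) (nat_lit 170) (.e (nat_lit 221194) (nat_lit 11) (.e (nat_lit 336012) (nat_lit 2) (.e (nat_lit 90176) (nat_lit 15) .nil)))) .nil)) 
(.lf (nat_lit 96102) (.g (nat_lit 1570) (.e (nat_lit 2710) (nat_lit 170) (.e (nat_lit 221207) (nat_lit 21) (.e (nat_lit 164326) (nat_lit 230) (.e (nat_lit 163886) (nat_lit 5) (.e (nat_lit 229120) (nat_lit 12) .nil))))) .nil)))) (.nd (nat_lit 5) (.nd (nat_lit 6) 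
(.lf (nat_lit 96022) (.g (nat_lit 1912) (.e (nat_lit 2690) (nat_lit 169) (.e (nat_lit 213030) (nat_lit 11) (.e (nat_lit 24617) (nat_lit 7) (.e (nat_lit 319532) (nat_lit 16) .nil)))) .nil)) 
(.lf (nat_lit 96086) (.g (nat_lit 2810) (.e (nat_lit 2710) (nat_lit 170) (.e (nat_lit 221194) (nat_lit 11) (.e (nat_lit 336012) (nat_lit 2) (.e (nat_lit 90176) (nat_lit 15) .nil)))) .nil))) (.nd (nat_lit 6) 
(.lf (nat_lit 96054) (.g (nat_lit 1939) (.e (nat_lit 2706) (nat_lit 170) (.e (nat_lit 221215) (nat_lit 23) (.e (nat_lit 204862) (nat_lit 27) (.e (nat_lit 344119) (nat_lit 21) (.e (nat_lit 516119) (nat_lit 1) .nil))))) .nil)) 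
(.lf (nat_lit 96118) (.g (nat_lit 1589) (.e (nat_lit 2711) (nat_lit 170) (.e (nat_lit 221194) (nat_lit 11) (.e (nat_lit 336088) (nat_lit 9) .nil))) .nil))))) (.nd (nat_lit 4) (.nd (nat_lit 5) (.nd (nat_lit 6) 
(.lf (nat_lit 96014) (.g (nat_lit 3205) (.e (nat_lit 2686) (nat_lit 169) (.e (nat_lit 213030) (nat_lit 11) (.e (nat_lit 24617) (nat_lit 7) (.e (nat_lit 319533) (nat_lit 16) (.e (nat_lit 286752) (nat_lit 10) .nil))))) .nil)) 
(.lf (nat_lit 96078) (.g (nat_lit 2287) (.e (nat_lit 2709) (nat_lit 170) (.e (nat_lit 221194) (nat_lit 11) (.e (nat_lit 336012) (nat_lit 2) (.e (nat_lit 90178) (nat_lit 15) (.e (nat_lit 196352) (nat_lit 7) .nil))))) .nil))) (.nd (nat_lit 6) 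
(.lf (nat_lit 96046) (.g (nat_lit 2776) (.e (nat_lit 2705) (nat_lit 170) (.e (nat_lit 221194) (nat_lit 11) (.e (nat_lit 336012) (nat_lit 2) (.e (nat_lit 90178) (nat_lit 15) .nil)))) .nil)) 
(.lf (nat_lit 96110) (.g (nat_lit 1551) (.e (nat_lit 2711) (nat_lit 170) (.e (nat_lit 221194) (nat_lit 11) (.e (nat_lit 336012) (nat_lit 2) .nil))) .nil)))) (.nd (nat_lit 5) (.nd (nat_lit 6) 
(.lf (nat_lit 96030) (.g (nat_lit 1465) (.e (nat_lit 2696) (nat_lit 169) (.e (nat_lit 213032) (nat_lit 11) (.e (nat_lit 24616) (nat_lit 7) (.e (nat_lit 319530) (nat_lit 16) .nil)))) .nil)) 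
(.lf (nat_lit 96094) (.g (nat_lit 3783) (.e (nat_lit 2710) (nat_lit 170) (.e (nat_lit 221194) (nat_lit 11) (.e (nat_lit 336223) (nat_lit 13) (.e (nat_lit 393283) (nat_lit 24) .nil)))) .nil))) (.nd (nat_lit 6) 
(.lf (nat_lit 96062) (.g (nat_lit 2823) (.e (nat_lit 2707) (nat_lit 170) (.e (nat_lit 221194) (nat_lit 11) (.e (nat_lit 336012) (nat_lit 2) (.e (nat_lit 90178) (nat_lit 15) .nil)))) .nil)) 
(.lf (nat_lit 96126) (.g (nat_lit 808) (.e (nat_lit 7936) (nat_lit 170) (.e (nat_lit 221194) (nat_lit 11) (.e (nat_lit 336223) (nat_lit 13) (.e (nat_lit 393281) (nat_lit 23) .nil)))) .nil)))))))) (.nd (nat_lit 1) (.nd (nat_lit 2) (.nd (nat_lit 3) (.nd (nat_lit 4) (.nd (nat_lit 5) (.nd (nat_lit 6) 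
(.lf (nat_lit 96001) (.g (nat_lit 3190) (.e (nat_lit 2685) (nat_lit 168) (.e (nat_lit 204869) (nat_lit 29) (.e (nat_lit 360475) (nat_lit 8) (.e (nat_lit 557066) (nat_lit 9) (.e (nat_lit 297) (nat_lit 22) (.e (nat_lit 352000) (nat_lit 0) .nil)))))) (.g (nat_lit 5) .nil .nil))) 
(.lf (nat_lit 96065) (.g (nat_lit 2696) (.e (nat_lit 2707) (nat_lit 170) (.e (nat_lit 221194) (nat_lit 11) (.e (nat_lit 336027) (nat_lit 3) (.e (nat_lit 98372) (nat_lit 29) .nil)))) .nil))) (.nd (nat_lit 6) 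
(.lf (nat_lit 96033) (.g (nat_lit 1268) (.e (nat_lit 2699) (nat_lit 169) (.e (nat_lit 213030) (nat_lit 11) (.e (nat_lit 24616) (nat_lit 7) (.e (nat_lit 319533) (nat_lit 16) .nil)))) .nil)) 
(.lf (nat_lit 96097) (.g (nat_lit 1477) (.e (nat_lit 2710) (nat_lit 170) (.e (nat_lit 221207) (nat_lit 21) (.e (nat_lit 164325) (nat_lit 230) (.e (nat_lit 163884) (nat_lit 5) (.e (nat_lit 229120) (nat_lit 12) .nil))))) .nil)))) (.nd (nat_lit 5) (.nd (nat_lit 6) 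
(.lf (nat_lit 96017) (.g (nat_lit 2482) (.e (nat_lit 2686) (nat_lit 169) (.e (nat_lit 213030) (nat_lit 11) (.e (nat_lit 24617) (nat_lit 7) (.e (nat_lit 319534) (nat_lit 16) (.e (nat_lit 286756) (nat_lit 10) .nil))))) .nil)) 
(.lf (nat_lit 96081) (.g (nat_lit 2816) (.e (nat_lit 2710) (nat_lit 170) (.e (nat_lit 221190) (nat_lit 11) (.e (nat_lit 336059) (nat_lit 7) (.e (nat_lit 319533) (nat_lit 16) (.e (nat_lit 286753) (nat_lit 10) (.e (nat_lit 344169) (nat_lit 40) (.e (nat_lit 671767) (nat_lit 9) .nil))))))) (.g (nat_lit 0) .nil .nil)))) (.nd (nat_lit 6) 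
(.lf (nat_lit 96049) (.g (nat_lit 2674) (.e (nat_lit 2705) (nat_lit 170) (.e (nat_lit 221194) (nat_lit 11) (.e (nat_lit 336027) (nat_lit 3) (.e (nat_lit 98373) (nat_lit 29) .nil)))) .nil)) 
(.lf (nat_lit 96113) (.g (nat_lit 3090) (.e (nat_lit 2711) (nat_lit 170) (.e (nat_lit 221194) (nat_lit 11) (.e (nat_lit 336012) (nat_lit 2) (.e (nat_lit 90178) (nat_lit 15) (.e (nat_lit 188441) (nat_lit 20) .nil))))) .nil))))) (.nd (nat_lit 4) (.nd (nat_lit 5) (.nd (nat_lit 6) 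
(.lf (nat_lit 96009) (.g (nat_lit 2769) (.e (nat_lit 2685) (nat_lit 168) (.e (nat_lit 204869) (nat_lit 29) (.e (nat_lit 360475) (nat_lit 8) (.e (nat_lit 557068) (nat_lit 9) (.e (nat_lit 7936) (nat_lit 22) (.e (nat_lit 352000) (nat_lit 0) .nil)))))) (.g (nat_lit 4) .nil .nil))) 
(.lf (nat_lit 96073) (.g (nat_lit 2176) (.e (nat_lit 2708) (nat_lit 170) (.e (nat_lit 221194) (nat_lit 11) (.e (nat_lit 336027) (nat_lit 3) (.e (nat_lit 98370) (nat_lit 28) .nil)))) .nil))) (.nd (nat_lit 6) 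
(.lf (nat_lit 96041) (.g (nat_lit 2846) (.e (nat_lit 2704) (nat_lit 170) (.e (nat_lit 221194) (nat_lit 11) (.e (nat_lit 336027) (nat_lit 3) (.e (nat_lit 98365) (nat_lit 26) .nil)))) .nil)) 
(.lf (nat_lit 96105) (.g (nat_lit 1886) (.e (nat_lit 2710) (nat_lit 170) (.e (nat_lit 221207) (nat_lit 21) (.e (nat_lit 164403) (nat_lit 256) (.e (nat_lit 57427) (nat_lit 15) .nil)))) .nil)))) (.nd (nat_lit 5) (.nd (nat_lit 6) 
(.lf (nat_lit 96025) (.g (nat_lit 2776) (.e (nat_lit 2694) (nat_lit 169) (.e (nat_lit 213030) (nat_lit 11) (.e (nat_lit 24617) (nat_lit 7) (.e (nat_lit 319533) (nat_lit 16) (.e (nat_lit 286753) (nat_lit 10) .nil))))) .nil)) 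
(.lf (nat_lit 96089) (.g (nat_lit 2944) (.e (nat_lit 2710) (nat_lit 170) (.e (nat_lit 221194) (nat_lit 11) (.e (nat_lit 336012) (nat_lit 2) (.e (nat_lit 90185) (nat_lit 17) .nil)))) .nil))) (.nd (nat_lit 6) 
(.lf (nat_lit 96057) (.g (nat_lit 2899) (.e (nat_lit 2707) (nat_lit 170) (.e (nat_lit 221190) (nat_lit 11) (.e (nat_lit 336059) (nat_lit 7) (.e (nat_lit 319533) (nat_lit 16) (.e (nat_lit 286753) (nat_lit 10) (.e (nat_lit 344169) (nat_lit 40) (.e (nat_lit 671770) (nat_lit 9) .nil))))))) (.g (nat_lit 0) .nil .nil))) 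
(.lf (nat_lit 96121) (.g (nat_lit 1741) (.e (nat_lit 2712) (nat_lit 170) (.e (nat_lit 221194) (nat_lit 11) (.e (nat_lit 336012) (nat_lit 2) .nil))) .nil)))))) (.nd (nat_lit 3) (.nd (nat_lit 4) (.nd (nat_lit 5) (.nd (nat_lit 6) 
(.lf (nat_lit 96005) (.g (nat_lit 2817) (.e (nat_lit 2685) (nat_lit 168) (.e (nat_lit 204869) (nat_lit 29) (.e (nat_lit 360475) (nat_lit 8) (.e (nat_lit 557068) (nat_lit 9) (.e (nat_lit 214) (nat_lit 19) (.e (nat_lit 319491) (nat_lit 0) (.e (nat_lit 5612) (nat_lit 312) .nil))))))) (.g (nat_lit 5) .nil .nil))) 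
(.lf (nat_lit 96069) (.g (nat_lit 2421) (.e (nat_lit 2708) (nat_lit 170) (.e (nat_lit 221194) (nat_lit 11) (.e (nat_lit 336011) (nat_lit 2) (.e (nat_lit 90170) (nat_lit 13) .nil)))) .nil))) (.nd (nat_lit 6) 
(.lf (nat_lit 96037) (.g (nat_lit 1699) (.e (nat_lit 2704) (nat_lit 170) (.e (nat_lit 221194) (nat_lit 11) (.e (nat_lit 336012) (nat_lit 2) .nil))) .nil)) 
(.lf (nat_lit 96101) (.g (nat_lit 1624) (.e (nat_lit 2710) (nat_lit 170) (.e (nat_lit 221207) (nat_lit 21) (.e (nat_lit 164326) (nat_lit 230) (.e (nat_lit 163884) (nat_lit 5) (.e (nat_lit 229120) (nat_lit 12) .nil))))) .nil)))) (.nd (nat_lit 5) (.nd (nat_lit 6) 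
(.lf (nat_lit 96021) (.g (nat_lit 963) (.e (nat_lit 2688) (nat_lit 169) (.e (nat_lit 213032) (nat_lit 11) (.e (nat_lit 24605) (nat_lit 2) .nil))) .nil)) 
(.lf (nat_lit 96085) (.g (nat_lit 1733) (.e (nat_lit 2710) (nat_lit 170) (.e (nat_lit 221194) (nat_lit 11) (.e (nat_lit 336012) (nat_lit 2) .nil))) .nil))) (.nd (nat_lit 6) 
(.lf (nat_lit 96053) (.g (nat_lit 2396) (.e (nat_lit 2706) (nat_lit 170) (.e (nat_lit 221215) (nat_lit 23) (.e (nat_lit 204862) (nat_lit 27) (.e (nat_lit 344117) (nat_lit 21) (.e (nat_lit 516118) (nat_lit 1) .nil))))) .nil)) 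
(.lf (nat_lit 96117) (.g (nat_lit 3296) (.e (nat_lit 2711) (nat_lit 170) (.e (nat_lit 221194) (nat_lit 11) (.e (nat_lit 336027) (nat_lit 3) (.e (nat_lit 98373) (nat_lit 29) (.e (nat_lit 458496) (nat_lit 8) .nil))))) .nil))))) (.nd (nat_lit 4) (.nd (nat_lit 5) (.nd (nat_lit 6) 
(.lf (nat_lit 96013) (.g (nat_lit 855) (.e (nat_lit 7936) (nat_lit 168) (.e (nat_lit 204869) (nat_lit 29) (.e (nat_lit 360473) (nat_lit 8) .nil))) .nil)) 
(.lf (nat_lit 96077) (.g (nat_lit 1471) (.e (nat_lit 2709) (nat_lit 170) (.e (nat_lit 221194) (nat_lit 11) (.e (nat_lit 336011) (nat_lit 2) .nil))) .nil))) (.nd (nat_lit 6) 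
(.lf (nat_lit 96045) (.g (nat_lit 2733) (.e (nat_lit 2705) (nat_lit 170) (.e (nat_lit 221194) (nat_lit 11) (.e (nat_lit 336012) (nat_lit 2) (.e (nat_lit 90176) (nat_lit 15) .nil)))) .nil)) 
(.lf (nat_lit 96109) (.g (nat_lit 3210) (.e (nat_lit 2710) (nat_lit 170) (.e (nat_lit 221215) (nat_lit 23) (.e (nat_lit 204846) (nat_lit 24) (.e (nat_lit 319504) (nat_lit 10) (.e (nat_lit 618) (nat_lit 48) (.e (nat_lit 557105) (nat_lit 14) (.e (nat_lit 180238) (nat_lit 1) (.e (nat_lit 499846) (nat_lit 5) .nil)))))))) (.g (nat_lit 4) .nil .nil))))) (.nd (nat_lit 5) (.nd (nat_lit 6) 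
(.lf (nat_lit 96029) (.g (nat_lit 1656) (.e (nat_lit 2696) (nat_lit 169) (.e (nat_lit 213030) (nat_lit 11) (.e (nat_lit 24617) (nat_lit 7) (.e (nat_lit 319534) (nat_lit 16) .nil)))) .nil)) 
(.lf (nat_lit 96093) (.g (nat_lit 1619) (.e (nat_lit 2710) (nat_lit 170) (.e (nat_lit 221194) (nat_lit 11) (.e (nat_lit 336223) (nat_lit 13) .nil))) .nil))) (.nd (nat_lit 6) 
(.lf (nat_lit 96061) (.g (nat_lit 3439) (.e (nat_lit 2707) (nat_lit 170) (.e (nat_lit 221194) (nat_lit 11) (.e (nat_lit 336012) (nat_lit 2) (.e (nat_lit 90176) (nat_lit 15) (.e (nat_lit 188439) (nat_lit 20) .nil))))) .nil)) 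
(.lf (nat_lit 96125) (.g (nat_lit 766) (.e (nat_lit 7936) (nat_lit 170) (.e (nat_lit 221194) (nat_lit 11) (.e (nat_lit 336027) (nat_lit 3) (.e (nat_lit 98381) (nat_lit 31) .nil)))) .nil))))))) (.nd (nat_lit 2) (.nd (nat_lit 3) (.nd (nat_lit 4) (.nd (nat_lit 5) (.nd (nat_lit 6) 
(.lf (nat_lit 96003) (.g (nat_lit 2117) (.e (nat_lit 2685) (nat_lit 168) (.e (nat_lit 204869) (nat_lit 29) (.e (nat_lit 360475) (nat_lit 8) (.e (nat_lit 557068) (nat_lit 9) (.e (nat_lit 214) (nat_lit 19) .nil))))) .nil)) 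
(.lf (nat_lit 96067) (.g (nat_lit 1707) (.e (nat_lit 2708) (nat_lit 170) (.e (nat_lit 221194) (nat_lit 11) (.e (nat_lit 336004) (nat_lit 2) (.e (nat_lit 90176) (nat_lit 15) .nil)))) .nil))) (.nd (nat_lit 6) 
(.lf (nat_lit 96035) (.g (nat_lit 737) (.e (nat_lit 2700) (nat_lit 169) (.e (nat_lit 213030) (nat_lit 11) (.e (nat_lit 24616) (nat_lit 7) .nil))) .nil)) 
(.lf (nat_lit 96099) (.g (nat_lit 1377) (.e (nat_lit 2710) (nat_lit 170) (.e (nat_lit 221207) (nat_lit 21) (.e (nat_lit 164325) (nat_lit 230) (.e (nat_lit 163886) (nat_lit 5) (.e (nat_lit 229120) (nat_lit 12) .nil))))) .nil)))) (.nd (nat_lit 5) (.nd (nat_lit 6) 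
(.lf (nat_lit 96019) (.g (nat_lit 1167) (.e (nat_lit 2688) (nat_lit 169) (.e (nat_lit 213030) (nat_lit 11) (.e (nat_lit 24604) (nat_lit 2) (.e (nat_lit 90176) (nat_lit 15) .nil)))) .nil)) 
(.lf (nat_lit 96083) (.g (nat_lit 3142) (.e (nat_lit 2710) (nat_lit 170) (.e (nat_lit 221190) (nat_lit 11) (.e (nat_lit 336059) (nat_lit 7) (.e (nat_lit 319534) (nat_lit 16) (.e (nat_lit 286756) (nat_lit 10) (.e (nat_lit 344169) (nat_lit 40) (.e (nat_lit 671767) (nat_lit 9) .nil))))))) (.g (nat_lit 6) .nil .nil)))) (.nd (nat_lit 6) 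
(.lf (nat_lit 96051) (.g (nat_lit 2228) (.e (nat_lit 2705) (nat_lit 170) (.e (nat_lit 221215) (nat_lit 23) (.e (nat_lit 204863) (nat_lit 27) (.e (nat_lit 344117) (nat_lit 21) (.e (nat_lit 516115) (nat_lit 1) .nil))))) .nil)) 
(.lf (nat_lit 96115) (.g (nat_lit 1282) (.e (nat_lit 2711) (nat_lit 170) (.e (nat_lit 221194) (nat_lit 11) (.e (nat_lit 336027) (nat_lit 3) .nil))) .nil))))) (.nd (nat_lit 4) (.nd (nat_lit 5) (.nd (nat_lit 6) 
(.lf (nat_lit 96011) (.g (nat_lit 2055) (.e (nat_lit 2685) (nat_lit 168) (.e (nat_lit 204869) (nat_lit 29) (.e (nat_lit 360475) (nat_lit 8) (.e (nat_lit 557085) (nat_lit 11) .nil)))) .nil)) 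
(.lf (nat_lit 96075) (.g (nat_lit 2451) (.e (nat_lit 2709) (nat_lit 170) (.e (nat_lit 221194) (nat_lit 11) (.e (nat_lit 336004) (nat_lit 2) (.e (nat_lit 90176) (nat_lit 15) (.e (nat_lit 196352) (nat_lit 7) .nil))))) .nil))) (.nd (nat_lit 6) 
(.lf (nat_lit 96043) (.g (nat_lit 1662) (.e (nat_lit 2704) (nat_lit 170) (.e (nat_lit 221194) (nat_lit 11) (.e (nat_lit 336088) (nat_lit 9) .nil))) .nil)) 
(.lf (nat_lit 96107) (.g (nat_lit 1471) (.e (nat_lit 2710) (nat_lit 170) (.e (nat_lit 221208) (nat_lit 21) (.e (nat_lit 164329) (nat_lit 230) (.e (nat_lit 163885) (nat_lit 5) (.e (nat_lit 229120) (nat_lit 12) .nil))))) .nil)))) (.nd (nat_lit 5) (.nd (nat_lit 6) 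
(.lf (nat_lit 96027) (.g (nat_lit 2052) (.e (nat_lit 2696) (nat_lit 169) (.e (nat_lit 213030) (nat_lit 11) (.e (nat_lit 24617) (nat_lit 7) (.e (nat_lit 319531) (nat_lit 16) (.e (nat_lit 286759) (nat_lit 12) .nil))))) .nil)) 
(.lf (nat_lit 96091) (.g (nat_lit 862) (.e (nat_lit 2710) (nat_lit 170) (.e (nat_lit 221194) (nat_lit 11) (.e (nat_lit 336221) (nat_lit 13) (.e (nat_lit 393283) (nat_lit 24) .nil)))) .nil))) (.nd (nat_lit 6) 
(.lf (nat_lit 96059) (.g (nat_lit 1713) (.e (nat_lit 2707) (nat_lit 170) (.e (nat_lit 221194) (nat_lit 11) (.e (nat_lit 336012) (nat_lit 2) .nil))) .nil)) 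
(.lf (nat_lit 96123) (.g (nat_lit 1504) (.e (nat_lit 7936) (nat_lit 170) (.e (nat_lit 221194) (nat_lit 11) (.e (nat_lit 336012) (nat_lit 2) (.e (nat_lit 90176) (nat_lit 15) (.e (nat_lit 188430) (nat_lit 20) .nil))))) .nil)))))) (.nd (nat_lit 3) (.nd (nat_lit 4) (.nd (nat_lit 5) (.nd (nat_lit 6) 
(.lf (nat_lit 96007) (.g (nat_lit 2550) (.e (nat_lit 2685) (nat_lit 168) (.e (nat_lit 204869) (nat_lit 29) (.e (nat_lit 360475) (nat_lit 8) (.e (nat_lit 557068) (nat_lit 9) (.e (nat_lit 290) (nat_lit 21) (.e (nat_lit 335892) (nat_lit 0) (.e (nat_lit 6617) (nat_lit 357) .nil))))))) (.g (nat_lit 4) .nil .nil))) 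
(.lf (nat_lit 96071) (.g (nat_lit 2293) (.e (nat_lit 2708) (nat_lit 170) (.e (nat_lit 221194) (nat_lit 11) (.e (nat_lit 336012) (nat_lit 2) (.e (nat_lit 90178) (nat_lit 15) (.e (nat_lit 196352) (nat_lit 7) .nil))))) .nil))) (.nd (nat_lit 6) 
(.lf (nat_lit 96039) (.g (nat_lit 2784) (.e (nat_lit 2704) (nat_lit 170) (.e (nat_lit 221194) (nat_lit 11) (.e (nat_lit 336012) (nat_lit 2) (.e (nat_lit 90178) (nat_lit 15) .nil)))) .nil)) 
(.lf (nat_lit 96103) (.g (nat_lit 1372) (.e (nat_lit 2710) (nat_lit 170) (.e (nat_lit 221207) (nat_lit 21) (.e (nat_lit 164347) (nat_lit 240) (.e (nat_lit 2640) (nat_lit 165) (.e (nat_lit 188160) (nat_lit 35) .nil))))) .nil)))) (.nd (nat_lit 5) (.nd (nat_lit 6) 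
(.lf (nat_lit 96023) (.g (nat_lit 1895) (.e (nat_lit 2690) (nat_lit 169) (.e (nat_lit 213030) (nat_lit 11) (.e (nat_lit 24617) (nat_lit 7) (.e (nat_lit 319533) (nat_lit 16) .nil)))) .nil)) 
(.lf (nat_lit 96087) (.g (nat_lit 3570) (.e (nat_lit 2710) (nat_lit 170) (.e (nat_lit 221194) (nat_lit 11) (.e (nat_lit 336012) (nat_lit 2) (.e (nat_lit 90176) (nat_lit 15) (.e (nat_lit 188453) (nat_lit 24) .nil))))) .nil))) (.nd (nat_lit 6) 
(.lf (nat_lit 96055) (.g (nat_lit 2690) (.e (nat_lit 2706) (nat_lit 170) (.e (nat_lit 221215) (nat_lit 23) (.e (nat_lit 204863) (nat_lit 27) (.e (nat_lit 344117) (nat_lit 21) (.e (nat_lit 516118) (nat_lit 1) .nil))))) .nil)) 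
(.lf (nat_lit 96119) (.g (nat_lit 1610) (.e (nat_lit 2711) (nat_lit 170) (.e (nat_lit 221194) (nat_lit 11) (.e (nat_lit 336223) (nat_lit 13) .nil))) .nil))))) (.nd (nat_lit 4) (.nd (nat_lit 5) (.nd (nat_lit 6) 
(.lf (nat_lit 96015) (.g (nat_lit 2804) (.e (nat_lit 2686) (nat_lit 169) (.e (nat_lit 213030) (nat_lit 11) (.e (nat_lit 24617) (nat_lit 7) (.e (nat_lit 319533) (nat_lit 16) (.e (nat_lit 286753) (nat_lit 10) .nil))))) .nil)) 
(.lf (nat_lit 96079) (.g (nat_lit 2619) (.e (nat_lit 2709) (nat_lit 170) (.e (nat_lit 221194) (nat_lit 11) (.e (nat_lit 336027) (nat_lit 3) (.e (nat_lit 98369) (nat_lit 28) (.e (nat_lit 442381) (nat_lit 7) (.e (nat_lit 139289) (nat_lit 9) .nil)))))) (.g (nat_lit 5) .nil .nil)))) (.nd (nat_lit 6) 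
(.lf (nat_lit 96047) (.g (nat_lit 1529) (.e (nat_lit 2705) (nat_lit 170) (.e (nat_lit 221194) (nat_lit 11) (.e (nat_lit 336027) (nat_lit 3) .nil))) .nil)) 
(.lf (nat_lit 96111) (.g (nat_lit 2584) (.e (nat_lit 2711) (nat_lit 170) (.e (nat_lit 221194) (nat_lit 11) (.e (nat_lit 336012) (nat_lit 2) (.e (nat_lit 90176) (nat_lit 15) .nil)))) .nil)))) (.nd (nat_lit 5) (.nd (nat_lit 6) 
(.lf (nat_lit 96031) (.g (nat_lit 2804) (.e (nat_lit 2697) (nat_lit 169) (.e (nat_lit 213030) (nat_lit 11) (.e (nat_lit 24617) (nat_lit 7) (.e (nat_lit 319533) (nat_lit 16) (.e (nat_lit 286753) (nat_lit 10) .nil))))) .nil)) 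
(.lf (nat_lit 96095) (.g (nat_lit 1640) (.e (nat_lit 2710) (nat_lit 170) (.e (nat_lit 221207) (nat_lit 21) (.e (nat_lit 164322) (nat_lit 230) (.e (nat_lit 163884) (nat_lit 5) (.e (nat_lit 229120) (nat_lit 12) .nil))))) .nil))) (.nd (nat_lit 6) 
(.lf (nat_lit 96063) (.g (nat_lit 1558) (.e (nat_lit 2707) (nat_lit 170) (.e (nat_lit 221194) (nat_lit 11) (.e (nat_lit 336027) (nat_lit 3) .nil))) .nil)) 
(.lf (nat_lit 96127) (.g (nat_lit 1321) (.e (nat_lit 7936) (nat_lit 170) (.e (nat_lit 221194) (nat_lit 11) (.e (nat_lit 336223) (nat_lit 13) (.e (nat_lit 393281) (nat_lit 23) (.e (nat_lit 426100) (nat_lit 1) .nil))))) .nil)))))))))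

noncomputable def tv1319 : DT := (.nd (nat_lit 0) (.nd (nat_lit 1) (.nd (nat_lit 2) (.nd (nat_lit 3) (.nd (nat_lit 4) (.nd (nat_lit 5) 
(.lf (nat_lit 96128) (.g (nat_lit 2027) (.e (nat_lit 2715) (nat_lit 171) (.e (nat_lit 229707) (nat_lit 256) (.e (nat_lit 57371) (nat_lit 2) (.e (nat_lit 90172) (nat_lit 14) (.e (nat_lit 180244) (nat_lit 5) (.e (nat_lit 532515) (nat_lit 3) (.e (nat_lit 114716) (nat_lit 22) (.e (nat_lit 90129) (nat_lit 9) .nil)))))))) (.g (nat_lit 4) .nil .nil))) 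
(.lf (nat_lit 96160) (.g (nat_lit 1792) (.e (nat_lit 2739) (nat_lit 174) (.e (nat_lit 253992) (nat_lit 11) (.e (nat_lit 16425) (nat_lit 7) (.e (nat_lit 409647) (nat_lit 18) .nil)))) .nil))) (.nd (nat_lit 5) 
(.lf (nat_lit 96144) (.g (nat_lit 2379) (.e (nat_lit 2725) (nat_lit 172) (.e (nat_lit 237618) (nat_lit 12) (.e (nat_lit 475207) (nat_lit 41) (.e (nat_lit 712752) (nat_lit 29) (.e (nat_lit 442430) (nat_lit 24) (.e (nat_lit 229666) (nat_lit 240) .nil)))))) (.g (nat_lit 5) .nil .nil))) 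
(.lf (nat_lit 96176) (.g (nat_lit 2457) (.e (nat_lit 2749) (nat_lit 175) (.e (nat_lit 262144) (nat_lit 0) (.e (nat_lit 1661) (nat_lit 115) (.e (nat_lit 393268) (nat_lit 23) (.e (nat_lit 426438) (nat_lit 18) (.e (nat_lit 98323) (nat_lit 17) (.e (nat_lit 3430) (nat_lit 213) (.e (nat_lit 663574) (nat_lit 9) .nil)))))))) (.g (nat_lit 6) .nil .nil))))) (.nd (nat_lit 4) (.nd (nat_lit 5) 
(.lf (nat_lit 96136) (.g (nat_lit 1832) (.e (nat_lit 2725) (nat_lit 172) (.e (nat_lit 237605) (nat_lit 9) (.e (nat_lit 426364) (nat_lit 15) (.e (nat_lit 2160) (nat_lit 143) (.e (nat_lit 712753) (nat_lit 30) (.e (nat_lit 450568) (nat_lit 0) (.e (nat_lit 5448) (nat_lit 306) .nil))))))) (.g (nat_lit 5) .nil .nil))) 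
(.lf (nat_lit 96168) (.g (nat_lit 2632) (.e (nat_lit 2742) (nat_lit 174) (.e (nat_lit 253992) (nat_lit 11) (.e (nat_lit 16425) (nat_lit 7) (.e (nat_lit 409648) (nat_lit 18) (.e (nat_lit 303137) (nat_lit 10) .nil))))) .nil))) (.nd (nat_lit 5) 
(.lf (nat_lit 96152) (.g (nat_lit 2305) (.e (nat_lit 2726) (nat_lit 172) (.e (nat_lit 237636) (nat_lit 27) (.e (nat_lit 335986) (nat_lit 1) (.e (nat_lit 57655) (nat_lit 152) (.e (nat_lit 1207) (nat_lit 89) .nil))))) .nil)) 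
(.lf (nat_lit 96184) (.g (nat_lit 1530) (.e (nat_lit 2768) (nat_lit 177) (.e (nat_lit 278561) (nat_lit 12) (.e (nat_lit 32789) (nat_lit 11) (.e (nat_lit 81951) (nat_lit 22) (.e (nat_lit 90165) (nat_lit 12) (.e (nat_lit 164210) (nat_lit 176) .nil)))))) (.g (nat_lit 6) .nil .nil)))))) (.nd (nat_lit 3) (.nd (nat_lit 4) (.nd (nat_lit 5) 
(.lf (nat_lit 96132) (.g (nat_lit 1957) (.e (nat_lit 2725) (nat_lit 172) (.e (nat_lit 237585) (nat_lit 1) (.e (nat_lit 164403) (nat_lit 256) (.e (nat_lit 57400) (nat_lit 10) (.e (nat_lit 319533) (nat_lit 16) (.e (nat_lit 286753) (nat_lit 10) (.e (nat_lit 344088) (nat_lit 18) (.e (nat_lit 6853) (nat_lit 371) .nil)))))))) (.g (nat_lit 4) .nil .nil))) 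
(.lf (nat_lit 96164) (.g (nat_lit 774) (.e (nat_lit 2741) (nat_lit 174) (.e (nat_lit 253991) (nat_lit 11) (.e (nat_lit 16414) (nat_lit 3) .nil))) .nil))) (.nd (nat_lit 5) 
(.lf (nat_lit 96148) (.g (nat_lit 1342) (.e (nat_lit 2725) (nat_lit 172) (.e (nat_lit 237619) (nat_lit 12) (.e (nat_lit 475207) (nat_lit 41) (.e (nat_lit 712753) (nat_lit 30) (.e (nat_lit 450569) (nat_lit 0) (.e (nat_lit 5448) (nat_lit 306) .nil)))))) (.g (nat_lit 4) .nil .nil))) 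
(.lf (nat_lit 96180) (.g (nat_lit 2736) (.e (nat_lit 2757) (nat_lit 176) (.e (nat_lit 270373) (nat_lit 16) (.e (nat_lit 286734) (nat_lit 3) (.e (nat_lit 98359) (nat_lit 26) (.e (nat_lit 426211) (nat_lit 9) (.e (nat_lit 426125) (nat_lit 2) (.e (nat_lit 204544) (nat_lit 18) .nil))))))) (.g (nat_lit 6) .nil .nil))))) (.nd (nat_lit 4) (.nd (nat_lit 5) 
(.lf (nat_lit 96140) (.g (nat_lit 662) (.e (nat_lit 2725) (nat_lit 172) (.e (nat_lit 237605) (nat_lit 9) (.e (nat_lit 426402) (nat_lit 15) (.e (nat_lit 2162) (nat_lit 143) .nil)))) .nil)) 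
(.lf (nat_lit 96172) (.g (nat_lit 1802) (.e (nat_lit 2744) (nat_lit 174) (.e (nat_lit 253991) (nat_lit 11) (.e (nat_lit 16388) (nat_lit 0) (.e (nat_lit 3461) (nat_lit 216) (.e (nat_lit 688185) (nat_lit 18) .nil))))) .nil))) (.nd (nat_lit 5) 
(.lf (nat_lit 96156) (.g (nat_lit 4177) (.e (nat_lit 2739) (nat_lit 174) (.e (nat_lit 253991) (nat_lit 11) (.e (nat_lit 16412) (nat_lit 2) (.e (nat_lit 196666) (nat_lit 13) (.e (nat_lit 65610) (nat_lit 10) (.e (nat_lit 344129) (nat_lit 26) (.e (nat_lit 557074) (nat_lit 9) .nil))))))) (.g (nat_lit 7) .nil .nil))) 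
(.lf (nat_lit 96188) (.g (nat_lit 2704) (.e (nat_lit 2769) (nat_lit 177) (.e (nat_lit 278553) (nat_lit 10) (.e (nat_lit 5271) (nat_lit 298) (.e (nat_lit 1256) (nat_lit 92) (.e (nat_lit 98359) (nat_lit 26) (.e (nat_lit 426211) (nat_lit 9) (.e (nat_lit 426125) (nat_lit 2) (.e (nat_lit 204544) (nat_lit 18) .nil)))))))) (.g (nat_lit 7) .nil .nil))))))) 
(.nd (nat_lit 2) (.nd (nat_lit 3) (.nd (nat_lit 4) (.nd (nat_lit 5) 
(.lf (nat_lit 96130) (.g (nat_lit 3372) (.e (nat_lit 2717) (nat_lit 171) (.e (nat_lit 229707) (nat_lit 256) (.e (nat_lit 57372) (nat_lit 2) (.e (nat_lit 90172) (nat_lit 14) (.e (nat_lit 180244) (nat_lit 5) (.e (nat_lit 532515) (nat_lit 3) (.e (nat_lit 114716) (nat_lit 22) (.e (nat_lit 90130) (nat_lit 9) .nil)))))))) (.g (nat_lit 7) .nil .nil))) 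
(.lf (nat_lit 96162) (.g (nat_lit 2406) (.e (nat_lit 2740) (nat_lit 174) (.e (nat_lit 253992) (nat_lit 11) (.e (nat_lit 16412) (nat_lit 2) (.e (nat_lit 196666) (nat_lit 13) (.e (nat_lit 65610) (nat_lit 10) .nil))))) .nil))) (.nd (nat_lit 5) 
(.lf (nat_lit 96146) (.g (nat_lit 1295) (.e (nat_lit 2725) (nat_lit 172) (.e (nat_lit 237618) (nat_lit 12) (.e (nat_lit 475207) (nat_lit 41) (.e (nat_lit 712755) (nat_lit 30) (.e (nat_lit 450567) (nat_lit 0) (.e (nat_lit 5443) (nat_lit 306) .nil)))))) (.g (nat_lit 4) .nil .nil))) 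
(.lf (nat_lit 96178) (.g (nat_lit 1841) (.e (nat_lit 2749) (nat_lit 175) (.e (nat_lit 262170) (nat_lit 12) (.e (nat_lit 164058) (nat_lit 56) (.e (nat_lit 786489) (nat_lit 34) (.e (nat_lit 393260) (nat_lit 21) (.e (nat_lit 409631) (nat_lit 12) (.e (nat_lit 32794) (nat_lit 14) .nil))))))) (.g (nat_lit 7) .nil .nil))))) (.nd (nat_lit 4) (.nd (nat_lit 5) 
(.lf (nat_lit 96138) (.g (nat_lit 2554) (.e (nat_lit 2725) (nat_lit 172) (.e (nat_lit 237605) (nat_lit 9) (.e (nat_lit 426364) (nat_lit 15) (.e (nat_lit 2160) (nat_lit 143) (.e (nat_lit 712755) (nat_lit 30) (.e (nat_lit 450568) (nat_lit 0) (.e (nat_lit 5448) (nat_lit 306) .nil))))))) (.g (nat_lit 7) .nil .nil))) 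
(.lf (nat_lit 96170) (.g (nat_lit 2389) (.e (nat_lit 2743) (nat_lit 174) (.e (nat_lit 253992) (nat_lit 11) (.e (nat_lit 16412) (nat_lit 2) (.e (nat_lit 196666) (nat_lit 13) (.e (nat_lit 65610) (nat_lit 10) .nil))))) .nil))) (.nd (nat_lit 5) 
(.lf (nat_lit 96154) (.g (nat_lit 2373) (.e (nat_lit 2739) (nat_lit 174) (.e (nat_lit 253991) (nat_lit 11) (.e (nat_lit 16412) (nat_lit 2) (.e (nat_lit 196666) (nat_lit 13) (.e (nat_lit 65610) (nat_lit 10) (.e (nat_lit 344129) (nat_lit 26) (.e (nat_lit 557065) (nat_lit 9) .nil))))))) (.g (nat_lit 4) .nil .nil))) 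
(.lf (nat_lit 96186) (.g (nat_lit 1590) (.e (nat_lit 2768) (nat_lit 177) (.e (nat_lit 278561) (nat_lit 12) (.e (nat_lit 32789) (nat_lit 11) (.e (nat_lit 81954) (nat_lit 23) (.e (nat_lit 98325) (nat_lit 17) (.e (nat_lit 7008) (nat_lit 377) .nil)))))) (.g (nat_lit 5) .nil .nil)))))) (.nd (nat_lit 3) (.nd (nat_lit 4) (.nd (nat_lit 5) 
(.lf (nat_lit 96134) (.g (nat_lit 2575) (.e (nat_lit 2725) (nat_lit 172) (.e (nat_lit 237603) (nat_lit 9) (.e (nat_lit 426364) (nat_lit 15) (.e (nat_lit 2160) (nat_lit 143) (.e (nat_lit 712755) (nat_lit 30) (.e (nat_lit 450568) (nat_lit 0) (.e (nat_lit 5448) (nat_lit 306) .nil))))))) (.g (nat_lit 7) .nil .nil))) 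
(.lf (nat_lit 96166) (.g (nat_lit 2049) (.e (nat_lit 2741) (nat_lit 174) (.e (nat_lit 253992) (nat_lit 11) (.e (nat_lit 16425) (nat_lit 7) (.e (nat_lit 409648) (nat_lit 18) (.e (nat_lit 303137) (nat_lit 10) .nil))))) .nil))) (.nd (nat_lit 5) 
(.lf (nat_lit 96150) (.g (nat_lit 2088) (.e (nat_lit 2725) (nat_lit 172) (.e (nat_lit 237625) (nat_lit 14) (.e (nat_lit 491549) (nat_lit 9) (.e (nat_lit 336434) (nat_lit 30) (.e (nat_lit 450568) (nat_lit 0) (.e (nat_lit 5448) (nat_lit 306) .nil)))))) (.g (nat_lit 5) .nil .nil))) 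
(.lf (nat_lit 96182) (.g (nat_lit 741) (.e (nat_lit 2762) (nat_lit 176) (.e (nat_lit 270372) (nat_lit 16) (.e (nat_lit 286733) (nat_lit 2) (.e (nat_lit 90170) (nat_lit 13) .nil)))) .nil)))) (.nd (nat_lit 4) (.nd (nat_lit 5) 
(.lf (nat_lit 96142) (.g (nat_lit 1587) (.e (nat_lit 2725) (nat_lit 172) (.e (nat_lit 237616) (nat_lit 12) (.e (nat_lit 475207) (nat_lit 41) (.e (nat_lit 712753) (nat_lit 30) (.e (nat_lit 450569) (nat_lit 0) (.e (nat_lit 5448) (nat_lit 306) .nil)))))) (.g (nat_lit 5) .nil .nil))) 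
(.lf (nat_lit 96174) (.g (nat_lit 731) (.e (nat_lit 2744) (nat_lit 174) (.e (nat_lit 253991) (nat_lit 11) (.e (nat_lit 16409) (nat_lit 2) .nil))) .nil))) (.nd (nat_lit 5) 
(.lf (nat_lit 96158) (.g (nat_lit 2387) (.e (nat_lit 2739) (nat_lit 174) (.e (nat_lit 253992) (nat_lit 11) (.e (nat_lit 16412) (nat_lit 2) (.e (nat_lit 196666) (nat_lit 13) (.e (nat_lit 65610) (nat_lit 10) (.e (nat_lit 344129) (nat_lit 26) (.e (nat_lit 557069) (nat_lit 9) .nil))))))) (.g (nat_lit 4) .nil .nil))) 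
(.lf (nat_lit 96190) (.g (nat_lit 2724) (.e (nat_lit 2770) (nat_lit 177) (.e (nat_lit 278550) (nat_lit 10) (.e (nat_lit 5271) (nat_lit 298) (.e (nat_lit 1256) (nat_lit 92) (.e (nat_lit 98359) (nat_lit 26) (.e (nat_lit 426211) (nat_lit 9) (.e (nat_lit 426125) (nat_lit 2) (.e (nat_lit 204544) (nat_lit 18) .nil)))))))) (.g (nat_lit 7) .nil .nil)))))))) 
(.nd (nat_lit 1) (.nd (nat_lit 2) (.nd (nat_lit 3) (.nd (nat_lit 4) (.nd (nat_lit 5) 
(.lf (nat_lit 96129) (.g (nat_lit 3271) (.e (nat_lit 2717) (nat_lit 171) (.e (nat_lit 229707) (nat_lit 256) (.e (nat_lit 57371) (nat_lit 2) (.e (nat_lit 90172) (nat_lit 14) (.e (nat_lit 180244) (nat_lit 5) (.e (nat_lit 532515) (nat_lit 3) (.e (nat_lit 114716) (nat_lit 22) (.e (nat_lit 90130) (nat_lit 9) .nil)))))))) (.g (nat_lit 7) .nil .nil))) 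
(.lf (nat_lit 96161) (.g (nat_lit 2440) (.e (nat_lit 2740) (nat_lit 174) (.e (nat_lit 253991) (nat_lit 11) (.e (nat_lit 16412) (nat_lit 2) (.e (nat_lit 196666) (nat_lit 13) (.e (nat_lit 65610) (nat_lit 10) .nil))))) .nil))) (.nd (nat_lit 5) 
(.lf (nat_lit 96145) (.g (nat_lit 1191) (.e (nat_lit 2725) (nat_lit 172) (.e (nat_lit 237618) (nat_lit 12) (.e (nat_lit 475207) (nat_lit 41) (.e (nat_lit 712753) (nat_lit 30) (.e (nat_lit 450567) (nat_lit 0) (.e (nat_lit 5443) (nat_lit 306) .nil)))))) (.g (nat_lit 4) .nil .nil))) 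
(.lf (nat_lit 96177) (.g (nat_lit 1426) (.e (nat_lit 2749) (nat_lit 175) (.e (nat_lit 262170) (nat_lit 12) (.e (nat_lit 164058) (nat_lit 56) (.e (nat_lit 786489) (nat_lit 34) (.e (nat_lit 393259) (nat_lit 21) (.e (nat_lit 409631) (nat_lit 12) (.e (nat_lit 32794) (nat_lit 14) .nil))))))) (.g (nat_lit 7) .nil .nil))))) (.nd (nat_lit 4) (.nd (nat_lit 5) 
(.lf (nat_lit 96137) (.g (nat_lit 2237) (.e (nat_lit 2725) (nat_lit 172) (.e (nat_lit 237605) (nat_lit 9) (.e (nat_lit 426364) (nat_lit 15) (.e (nat_lit 2160) (nat_lit 143) (.e (nat_lit 712753) (nat_lit 30) (.e (nat_lit 450569) (nat_lit 0) (.e (nat_lit 5448) (nat_lit 306) .nil))))))) (.g (nat_lit 6) .nil .nil))) 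
(.lf (nat_lit 96169) (.g (nat_lit 3240) (.e (nat_lit 2743) (nat_lit 174) (.e (nat_lit 253991) (nat_lit 11) (.e (nat_lit 16412) (nat_lit 2) (.e (nat_lit 196666) (nat_lit 13) (.e (nat_lit 65610) (nat_lit 10) (.e (nat_lit 344129) (nat_lit 26) (.e (nat_lit 557067) (nat_lit 9) .nil))))))) (.g (nat_lit 5) .nil .nil)))) (.nd (nat_lit 5) 
(.lf (nat_lit 96153) (.g (nat_lit 4249) (.e (nat_lit 2733) (nat_lit 173) (.e (nat_lit 245792) (nat_lit 15) (.e (nat_lit 81956) (nat_lit 23) (.e (nat_lit 98350) (nat_lit 24) (.e (nat_lit 409616) (nat_lit 10) .nil))))) .nil)) 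
(.lf (nat_lit 96185) (.g (nat_lit 1931) (.e (nat_lit 2768) (nat_lit 177) (.e (nat_lit 278561) (nat_lit 12) (.e (nat_lit 32789) (nat_lit 11) (.e (nat_lit 81953) (nat_lit 22) (.e (nat_lit 90165) (nat_lit 12) (.e (nat_lit 164210) (nat_lit 176) .nil)))))) (.g (nat_lit 0) .nil .nil)))))) (.nd (nat_lit 3) (.nd (nat_lit 4) (.nd (nat_lit 5) 
(.lf (nat_lit 96133) (.g (nat_lit 1073) (.e (nat_lit 2725) (nat_lit 172) (.e (nat_lit 237601) (nat_lit 9) (.e (nat_lit 426364) (nat_lit 15) (.e (nat_lit 2160) (nat_lit 143) (.e (nat_lit 712753) (nat_lit 30) (.e (nat_lit 450569) (nat_lit 0) (.e (nat_lit 5448) (nat_lit 306) .nil))))))) (.g (nat_lit 4) .nil .nil))) 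
(.lf (nat_lit 96165) (.g (nat_lit 1804) (.e (nat_lit 2741) (nat_lit 174) (.e (nat_lit 253992) (nat_lit 11) (.e (nat_lit 16425) (nat_lit 7) (.e (nat_lit 409647) (nat_lit 18) .nil)))) .nil))) (.nd (nat_lit 5) 
(.lf (nat_lit 96149) (.g (nat_lit 1466) (.e (nat_lit 2725) (nat_lit 172) (.e (nat_lit 237619) (nat_lit 12) (.e (nat_lit 475207) (nat_lit 41) (.e (nat_lit 712755) (nat_lit 30) (.e (nat_lit 450568) (nat_lit 0) (.e (nat_lit 5448) (nat_lit 306) .nil)))))) (.g (nat_lit 4) .nil .nil))) 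
(.lf (nat_lit 96181) (.g (nat_lit 2134) (.e (nat_lit 2761) (nat_lit 176) (.e (nat_lit 270374) (nat_lit 17) (.e (nat_lit 294959) (nat_lit 13) (.e (nat_lit 393283) (nat_lit 24) (.e (nat_lit 434275) (nat_lit 39) (.e (nat_lit 663589) (nat_lit 14) .nil)))))) (.g (nat_lit 6) .nil .nil))))) (.nd (nat_lit 4) (.nd (nat_lit 5) 
(.lf (nat_lit 96141) (.g (nat_lit 1378) (.e (nat_lit 2725) (nat_lit 172) (.e (nat_lit 237616) (nat_lit 12) (.e (nat_lit 475207) (nat_lit 41) (.e (nat_lit 712753) (nat_lit 30) (.e (nat_lit 450568) (nat_lit 0) (.e (nat_lit 5448) (nat_lit 306) .nil)))))) (.g (nat_lit 5) .nil .nil))) 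
(.lf (nat_lit 96173) (.g (nat_lit 2908) (.e (nat_lit 2744) (nat_lit 174) (.e (nat_lit 253991) (nat_lit 11) (.e (nat_lit 16388) (nat_lit 0) (.e (nat_lit 3461) (nat_lit 216) (.e (nat_lit 688186) (nat_lit 18) (.e (nat_lit 81965) (nat_lit 26) (.e (nat_lit 147463) (nat_lit 9) .nil))))))) (.g (nat_lit 5) .nil .nil)))) (.nd (nat_lit 5) 
(.lf (nat_lit 96157) (.g (nat_lit 636) (.e (nat_lit 2739) (nat_lit 174) (.e (nat_lit 253991) (nat_lit 11) (.e (nat_lit 16414) (nat_lit 3) .nil))) .nil)) 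
(.lf (nat_lit 96189) (.g (nat_lit 1104) (.e (nat_lit 2769) (nat_lit 177) (.e (nat_lit 278553) (nat_lit 10) (.e (nat_lit 5396) (nat_lit 301) (.e (nat_lit 65280) (nat_lit 23) (.e (nat_lit 516151) (nat_lit 9) (.e (nat_lit 426211) (nat_lit 9) (.e (nat_lit 426125) (nat_lit 2) (.e (nat_lit 204544) (nat_lit 18) .nil)))))))) (.g (nat_lit 7) .nil .nil))))))) 
(.nd (nat_lit 2) (.nd (nat_lit 3) (.nd (nat_lit 4) (.nd (nat_lit 5) 
(.lf (nat_lit 96131) (.g (nat_lit 2147) (.e (nat_lit 2725) (nat_lit 172) (.e (nat_lit 237585) (nat_lit 1) (.e (nat_lit 164403) (nat_lit 256) (.e (nat_lit 57400) (nat_lit 10) (.e (nat_lit 319533) (nat_lit 16) (.e (nat_lit 286753) (nat_lit 10) (.e (nat_lit 344088) (nat_lit 18) (.e (nat_lit 6850) (nat_lit 371) .nil)))))))) (.g (nat_lit 4) .nil .nil))) 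
(.lf (nat_lit 96163) (.g (nat_lit 1381) (.e (nat_lit 2741) (nat_lit 174) (.e (nat_lit 253990) (nat_lit 11) (.e (nat_lit 16388) (nat_lit 0) (.e (nat_lit 3461) (nat_lit 216) (.e (nat_lit 688186) (nat_lit 18) (.e (nat_lit 81965) (nat_lit 26) (.e (nat_lit 147463) (nat_lit 9) .nil))))))) (.g (nat_lit 4) .nil .nil)))) (.nd (nat_lit 5) 
(.lf (nat_lit 96147) (.g (nat_lit 1136) (.e (nat_lit 2725) (nat_lit 172) (.e (nat_lit 237619) (nat_lit 12) (.e (nat_lit 475207) (nat_lit 41) (.e (nat_lit 712753) (nat_lit 30) (.e (nat_lit 450568) (nat_lit 0) (.e (nat_lit 5448) (nat_lit 306) .nil)))))) (.g (nat_lit 4) .nil .nil))) 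
(.lf (nat_lit 96179) (.g (nat_lit 2844) (.e (nat_lit 2749) (nat_lit 175) (.e (nat_lit 262170) (nat_lit 12) (.e (nat_lit 164058) (nat_lit 56) (.e (nat_lit 786489) (nat_lit 34) (.e (nat_lit 393283) (nat_lit 24) (.e (nat_lit 434238) (nat_lit 25) (.e (nat_lit 548898) (nat_lit 14) .nil))))))) (.g (nat_lit 0) .nil .nil))))) (.nd (nat_lit 4) (.nd (nat_lit 5) 
(.lf (nat_lit 96139) (.g (nat_lit 3003) (.e (nat_lit 2725) (nat_lit 172) (.e (nat_lit 237605) (nat_lit 9) (.e (nat_lit 426364) (nat_lit 15) (.e (nat_lit 2160) (nat_lit 143) (.e (nat_lit 712755) (nat_lit 30) (.e (nat_lit 450569) (nat_lit 0) (.e (nat_lit 5448) (nat_lit 306) .nil))))))) (.g (nat_lit 0) .nil .nil))) 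
(.lf (nat_lit 96171) (.g (nat_lit 4673) (.e (nat_lit 2744) (nat_lit 174) (.e (nat_lit 253962) (nat_lit 9) (.e (nat_lit 1277) (nat_lit 94) (.e (nat_lit 114711) (nat_lit 21) (.e (nat_lit 57872) (nat_lit 264) (.e (nat_lit 1221) (nat_lit 90) (.e (nat_lit 81953) (nat_lit 22) (.e (nat_lit 90133) (nat_lit 9) .nil)))))))) (.g (nat_lit 7) .nil .nil)))) (.nd (nat_lit 5) 
(.lf (nat_lit 96155) (.g (nat_lit 4817) (.e (nat_lit 2739) (nat_lit 174) (.e (nat_lit 253991) (nat_lit 11) (.e (nat_lit 16412) (nat_lit 2) (.e (nat_lit 196666) (nat_lit 13) (.e (nat_lit 65610) (nat_lit 10) (.e (nat_lit 344129) (nat_lit 26) (.e (nat_lit 557067) (nat_lit 9) .nil))))))) (.g (nat_lit 7) .nil .nil))) 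
(.lf (nat_lit 96187) (.g (nat_lit 2727) (.e (nat_lit 2769) (nat_lit 177) (.e (nat_lit 278552) (nat_lit 10) (.e (nat_lit 5271) (nat_lit 298) (.e (nat_lit 1256) (nat_lit 92) (.e (nat_lit 98359) (nat_lit 26) (.e (nat_lit 426211) (nat_lit 9) (.e (nat_lit 426125) (nat_lit 2) (.e (nat_lit 204544) (nat_lit 18) .nil)))))))) (.g (nat_lit 7) .nil .nil)))))) 
(.nd (nat_lit 3) (.nd (nat_lit 4) (.nd (nat_lit 5) 
(.lf (nat_lit 96135) (.g (nat_lit 3025) (.e (nat_lit 2725) (nat_lit 172) (.e (nat_lit 237603) (nat_lit 9) (.e (nat_lit 426364) (nat_lit 15) (.e (nat_lit 2160) (nat_lit 143) (.e (nat_lit 712755) (nat_lit 30) (.e (nat_lit 450569) (nat_lit 0) (.e (nat_lit 5448) (nat_lit 306) .nil))))))) (.g (nat_lit 0) .nil .nil))) 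
(.lf (nat_lit 96167) (.g (nat_lit 3324) (.e (nat_lit 2742) (nat_lit 174) (.e (nat_lit 253992) (nat_lit 11) (.e (nat_lit 16412) (nat_lit 2) (.e (nat_lit 196666) (nat_lit 13) (.e (nat_lit 65610) (nat_lit 10) (.e (nat_lit 344129) (nat_lit 26) (.e (nat_lit 557074) (nat_lit 9) .nil))))))) (.g (nat_lit 5) .nil .nil)))) (.nd (nat_lit 5) 
(.lf (nat_lit 96151) (.g (nat_lit 1557) (.e (nat_lit 2726) (nat_lit 172) (.e (nat_lit 237636) (nat_lit 27) (.e (nat_lit 335986) (nat_lit 1) (.e (nat_lit 57655) (nat_lit 152) .nil)))) .nil)) 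
(.lf (nat_lit 96183) (.g (nat_lit 2778) (.e (nat_lit 2768) (nat_lit 177) (.e (nat_lit 278550) (nat_lit 10) (.e (nat_lit 5271) (nat_lit 298) (.e (nat_lit 1256) (nat_lit 92) (.e (nat_lit 98359) (nat_lit 26) (.e (nat_lit 426211) (nat_lit 9) (.e (nat_lit 426125) (nat_lit 2) (.e (nat_lit 204544) (nat_lit 18) .nil)))))))) (.g (nat_lit 7) .nil .nil))))) (.nd (nat_lit 4) (.nd (nat_lit 5) 
(.lf (nat_lit 96143) (.g (nat_lit 2009) (.e (nat_lit 2725) (nat_lit 172) (.e (nat_lit 237616) (nat_lit 12) (.e (nat_lit 475207) (nat_lit 41) (.e (nat_lit 712755) (nat_lit 30) (.e (nat_lit 450569) (nat_lit 0) (.e (nat_lit 5448) (nat_lit 306) .nil)))))) (.g (nat_lit 5) .nil .nil))) 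
(.lf (nat_lit 96175) (.g (nat_lit 3158) (.e (nat_lit 2745) (nat_lit 174) (.e (nat_lit 253992) (nat_lit 11) (.e (nat_lit 16412) (nat_lit 2) (.e (nat_lit 196666) (nat_lit 13) (.e (nat_lit 65610) (nat_lit 10) (.e (nat_lit 344129) (nat_lit 26) (.e (nat_lit 557066) (nat_lit 9) .nil))))))) (.g (nat_lit 5) .nil .nil)))) (.nd (nat_lit 5) 
(.lf (nat_lit 96159) (.g (nat_lit 3523) (.e (nat_lit 2739) (nat_lit 174) (.e (nat_lit 253992) (nat_lit 11) (.e (nat_lit 16412) (nat_lit 2) (.e (nat_lit 196666) (nat_lit 13) (.e (nat_lit 65610) (nat_lit 10) (.e (nat_lit 344129) (nat_lit 26) (.e (nat_lit 557074) (nat_lit 9) .nil))))))) (.g (nat_lit 6) .nil .nil))) 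
(.lf (nat_lit 96191) (.g (nat_lit 2667) (.e (nat_lit 2770) (nat_lit 177) (.e (nat_lit 278552) (nat_lit 10) (.e (nat_lit 5271) (nat_lit 298) (.e (nat_lit 1256) (nat_lit 92) (.e (nat_lit 98359) (nat_lit 26) (.e (nat_lit 426211) (nat_lit 9) (.e (nat_lit 426125) (nat_lit 2) (.e (nat_lit 204544) (nat_lit 18) .nil)))))))) (.g (nat_lit 7) .nil .nil)))))))))

noncomputable def tv1320 : DT := (.nd (nat_lit 0) (.nd (nat_lit 1) (.nd (nat_lit 2) (.nd (nat_lit 3) (.nd (nat_lit 4) (.nd (nat_lit 5) 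
(.lf (nat_lit 96192) (.g (nat_lit 1695) (.e (nat_lit 2771) (nat_lit 177) (.e (nat_lit 278551) (nat_lit 10) (.e (nat_lit 618) (nat_lit 48) (.e (nat_lit 557109) (nat_lit 15) (.e (nat_lit 188461) (nat_lit 26) .nil))))) .nil)) 
(.lf (nat_lit 96224) (.g (nat_lit 2162) (.e (nat_lit 2777) (nat_lit 178) (.e (nat_lit 286731) (nat_lit 1) (.e (nat_lit 57681) (nat_lit 155) (.e (nat_lit 122914) (nat_lit 14) (.e (nat_lit 352273) (nat_lit 11) (.e (nat_lit 426024) (nat_lit 0) (.e (nat_lit 6989) (nat_lit 377) .nil))))))) (.g (nat_lit 4) .nil .nil)))) (.nd (nat_lit 5) 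
(.lf (nat_lit 96208) (.g (nat_lit 1020) (.e (nat_lit 2776) (nat_lit 178) (.e (nat_lit 286735) (nat_lit 3) (.e (nat_lit 98350) (nat_lit 24) .nil))) .nil)) 
(.lf (nat_lit 96240) (.g (nat_lit 3597) (.e (nat_lit 2777) (nat_lit 178) (.e (nat_lit 286733) (nat_lit 2) (.e (nat_lit 90160) (nat_lit 11) (.e (nat_lit 24584) (nat_lit 0) (.e (nat_lit 1996) (nat_lit 137) (.e (nat_lit 663554) (nat_lit 0) (.e (nat_lit 1642) (nat_lit 114) (.e (nat_lit 385032) (nat_lit 16) .nil)))))))) (.g (nat_lit 4) .nil .nil))))) (.nd (nat_lit 4) (.nd (nat_lit 5) 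
(.lf (nat_lit 96200) (.g (nat_lit 1930) (.e (nat_lit 2775) (nat_lit 178) (.e (nat_lit 286759) (nat_lit 12) (.e (nat_lit 385094) (nat_lit 49) (.e (nat_lit 778326) (nat_lit 6) .nil)))) .nil)) 
(.lf (nat_lit 96232) (.g (nat_lit 4137) (.e (nat_lit 2777) (nat_lit 178) (.e (nat_lit 286731) (nat_lit 1) (.e (nat_lit 57681) (nat_lit 155) (.e (nat_lit 122919) (nat_lit 15) (.e (nat_lit 360451) (nat_lit 0) (.e (nat_lit 7263) (nat_lit 384) (.e (nat_lit 57354) (nat_lit 0) (.e (nat_lit 6114) (nat_lit 332) .nil)))))))) (.g (nat_lit 6) .nil .nil)))) (.nd (nat_lit 5) 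
(.lf (nat_lit 96216) (.g (nat_lit 4914) (.e (nat_lit 2776) (nat_lit 178) (.e (nat_lit 286761) (nat_lit 13) (.e (nat_lit 393301) (nat_lit 27) (.e (nat_lit 491559) (nat_lit 10) .nil)))) .nil)) 
(.lf (nat_lit 96248) (.g (nat_lit 1955) (.e (nat_lit 2777) (nat_lit 178) (.e (nat_lit 286734) (nat_lit 3) (.e (nat_lit 98350) (nat_lit 24) (.e (nat_lit 409641) (nat_lit 17) .nil)))) .nil))))) (.nd (nat_lit 3) (.nd (nat_lit 4) (.nd (nat_lit 5) 
(.lf (nat_lit 96196) (.g (nat_lit 2386) (.e (nat_lit 2775) (nat_lit 178) (.e (nat_lit 286735) (nat_lit 3) (.e (nat_lit 98350) (nat_lit 24) (.e (nat_lit 409617) (nat_lit 10) .nil)))) .nil)) 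
(.lf (nat_lit 96228) (.g (nat_lit 3553) (.e (nat_lit 2777) (nat_lit 178) (.e (nat_lit 286731) (nat_lit 1) (.e (nat_lit 57681) (nat_lit 155) (.e (nat_lit 122919) (nat_lit 15) (.e (nat_lit 360451) (nat_lit 0) (.e (nat_lit 6850) (nat_lit 371) (.e (nat_lit 2612) (nat_lit 163) (.e (nat_lit 164208) (nat_lit 176) .nil)))))))) (.g (nat_lit 5) .nil .nil)))) (.nd (nat_lit 5) 
(.lf (nat_lit 96212) (.g (nat_lit 2471) (.e (nat_lit 2776) (nat_lit 178) (.e (nat_lit 286759) (nat_lit 12) (.e (nat_lit 385094) (nat_lit 49) (.e (nat_lit 778326) (nat_lit 6) .nil)))) .nil)) 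
(.lf (nat_lit 96244) (.g (nat_lit 3146) (.e (nat_lit 2777) (nat_lit 178) (.e (nat_lit 286733) (nat_lit 2) (.e (nat_lit 90165) (nat_lit 12) (.e (nat_lit 164207) (nat_lit 176) (.e (nat_lit 2777) (nat_lit 178) (.e (nat_lit 286735) (nat_lit 3) (.e (nat_lit 98325) (nat_lit 17) (.e (nat_lit 6986) (nat_lit 377) .nil)))))))) (.g (nat_lit 4) .nil .nil))))) (.nd (nat_lit 4) (.nd (nat_lit 5) 
(.lf (nat_lit 96204) (.g (nat_lit 2293) (.e (nat_lit 2775) (nat_lit 178) (.e (nat_lit 286761) (nat_lit 13) (.e (nat_lit 393234) (nat_lit 17) (.e (nat_lit 7593) (nat_lit 407) .nil)))) .nil)) 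
(.lf (nat_lit 96236) (.g (nat_lit 2386) (.e (nat_lit 2777) (nat_lit 178) (.e (nat_lit 286731) (nat_lit 1) (.e (nat_lit 57681) (nat_lit 155) (.e (nat_lit 122919) (nat_lit 15) (.e (nat_lit 360492) (nat_lit 22) .nil))))) .nil))) (.nd (nat_lit 5) 
(.lf (nat_lit 96220) (.g (nat_lit 3343) (.e (nat_lit 2777) (nat_lit 178) (.e (nat_lit 286731) (nat_lit 1) (.e (nat_lit 57655) (nat_lit 152) (.e (nat_lit 1217) (nat_lit 90) (.e (nat_lit 81925) (nat_lit 11) (.e (nat_lit 426024) (nat_lit 0) (.e (nat_lit 6989) (nat_lit 377) .nil))))))) (.g (nat_lit 0) .nil .nil))) 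
(.lf (nat_lit 96252) (.g (nat_lit 4229) (.e (nat_lit 2777) (nat_lit 178) (.e (nat_lit 286734) (nat_lit 3) (.e (nat_lit 98389) (nat_lit 33) (.e (nat_lit 491546) (nat_lit 9) (.e (nat_lit 336013) (nat_lit 2) (.e (nat_lit 90165) (nat_lit 12) (.e (nat_lit 164208) (nat_lit 176) .nil))))))) (.g (nat_lit 6) .nil .nil))))))) (.nd (nat_lit 2) (.nd (nat_lit 3) (.nd (nat_lit 4) (.nd (nat_lit 5) 
(.lf (nat_lit 96194) (.g (nat_lit 1066) (.e (nat_lit 2771) (nat_lit 177) (.e (nat_lit 278553) (nat_lit 10) (.e (nat_lit 5396) (nat_lit 301) (.e (nat_lit 65280) (nat_lit 23) (.e (nat_lit 516151) (nat_lit 9) (.e (nat_lit 426211) (nat_lit 9) (.e (nat_lit 426125) (nat_lit 2) (.e (nat_lit 204544) (nat_lit 18) .nil)))))))) (.g (nat_lit 7) .nil .nil))) 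
(.lf (nat_lit 96226) (.g (nat_lit 4164) (.e (nat_lit 2777) (nat_lit 178) (.e (nat_lit 286731) (nat_lit 1) (.e (nat_lit 57681) (nat_lit 155) (.e (nat_lit 122916) (nat_lit 14) (.e (nat_lit 352273) (nat_lit 11) (.e (nat_lit 426024) (nat_lit 0) (.e (nat_lit 6989) (nat_lit 377) .nil))))))) (.g (nat_lit 0) .nil .nil)))) (.nd (nat_lit 5) 
(.lf (nat_lit 96210) (.g (nat_lit 3302) (.e (nat_lit 2776) (nat_lit 178) (.e (nat_lit 286735) (nat_lit 3) (.e (nat_lit 98350) (nat_lit 24) (.e (nat_lit 409617) (nat_lit 10) (.e (nat_lit 5355) (nat_lit 298) .nil))))) .nil)) 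
(.lf (nat_lit 96242) (.g (nat_lit 687) (.e (nat_lit 2777) (nat_lit 178) (.e (nat_lit 286733) (nat_lit 2) (.e (nat_lit 90165) (nat_lit 12) .nil))) .nil)))) (.nd (nat_lit 4) (.nd (nat_lit 5) 
(.lf (nat_lit 96202) (.g (nat_lit 2259) (.e (nat_lit 2775) (nat_lit 178) (.e (nat_lit 286759) (nat_lit 12) (.e (nat_lit 385106) (nat_lit 50) (.e (nat_lit 786483) (nat_lit 30) .nil)))) .nil)) 
(.lf (nat_lit 96234) (.g (nat_lit 2658) (.e (nat_lit 2777) (nat_lit 178) (.e (nat_lit 286731) (nat_lit 1) (.e (nat_lit 57681) (nat_lit 155) (.e (nat_lit 122919) (nat_lit 15) (.e (nat_lit 360487) (nat_lit 19) (.e (nat_lit 753686) (nat_lit 8) (.e (nat_lit 164207) (nat_lit 176) .nil))))))) (.g (nat_lit 4) .nil .nil)))) (.nd (nat_lit 5) 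
(.lf (nat_lit 96218) (.g (nat_lit 2368) (.e (nat_lit 2777) (nat_lit 178) (.e (nat_lit 286728) (nat_lit 0) (.e (nat_lit 1842) (nat_lit 123) (.e (nat_lit 548889) (nat_lit 9) (.e (nat_lit 65610) (nat_lit 10) (.e (nat_lit 344117) (nat_lit 21) (.e (nat_lit 516106) (nat_lit 0) (.e (nat_lit 6986) (nat_lit 377) .nil)))))))) (.g (nat_lit 4) .nil .nil))) 
(.lf (nat_lit 96250) (.g (nat_lit 3669) (.e (nat_lit 2777) (nat_lit 178) (.e (nat_lit 286734) (nat_lit 3) (.e (nat_lit 98350) (nat_lit 24) (.e (nat_lit 409641) (nat_lit 17) (.e (nat_lit 294931) (nat_lit 3) (.e (nat_lit 98323) (nat_lit 17) (.e (nat_lit 6989) (nat_lit 377) .nil))))))) (.g (nat_lit 4) .nil .nil)))))) (.nd (nat_lit 3) (.nd (nat_lit 4) (.nd (nat_lit 5) 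
(.lf (nat_lit 96198) (.g (nat_lit 1104) (.e (nat_lit 2775) (nat_lit 178) (.e (nat_lit 286759) (nat_lit 12) (.e (nat_lit 385074) (nat_lit 31) .nil))) .nil)) 
(.lf (nat_lit 96230) (.g (nat_lit 3882) (.e (nat_lit 2777) (nat_lit 178) (.e (nat_lit 286731) (nat_lit 1) (.e (nat_lit 57681) (nat_lit 155) (.e (nat_lit 122919) (nat_lit 15) (.e (nat_lit 360451) (nat_lit 0) (.e (nat_lit 6940) (nat_lit 375) (.e (nat_lit 163850) (nat_lit 0) (.e (nat_lit 6986) (nat_lit 377) .nil)))))))) (.g (nat_lit 6) .nil .nil)))) (.nd (nat_lit 5) 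
(.lf (nat_lit 96214) (.g (nat_lit 2486) (.e (nat_lit 2776) (nat_lit 178) (.e (nat_lit 286761) (nat_lit 13) (.e (nat_lit 393234) (nat_lit 17) (.e (nat_lit 7591) (nat_lit 407) .nil)))) .nil)) 
(.lf (nat_lit 96246) (.g (nat_lit 574) (.e (nat_lit 2777) (nat_lit 178) (.e (nat_lit 286734) (nat_lit 3) (.e (nat_lit 98350) (nat_lit 24) .nil))) .nil)))) (.nd (nat_lit 4) (.nd (nat_lit 5) 
(.lf (nat_lit 96206) (.g (nat_lit 4875) (.e (nat_lit 2775) (nat_lit 178) (.e (nat_lit 286761) (nat_lit 13) (.e (nat_lit 393301) (nat_lit 27) (.e (nat_lit 491559) (nat_lit 10) .nil)))) .nil)) 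
(.lf (nat_lit 96238) (.g (nat_lit 4335) (.e (nat_lit 2777) (nat_lit 178) (.e (nat_lit 286733) (nat_lit 2) (.e (nat_lit 90160) (nat_lit 11) (.e (nat_lit 24584) (nat_lit 0) (.e (nat_lit 970) (nat_lit 81) (.e (nat_lit 5954) (nat_lit 322) (.e (nat_lit 57440) (nat_lit 18) (.e (nat_lit 385032) (nat_lit 16) .nil)))))))) (.g (nat_lit 4) .nil .nil)))) (.nd (nat_lit 5) 
(.lf (nat_lit 96222) (.g (nat_lit 2238) (.e (nat_lit 2777) (nat_lit 178) (.e (nat_lit 286731) (nat_lit 1) (.e (nat_lit 57681) (nat_lit 155) (.e (nat_lit 122905) (nat_lit 12) (.e (nat_lit 336219) (nat_lit 13) (.e (nat_lit 393238) (nat_lit 17) (.e (nat_lit 6989) (nat_lit 377) .nil))))))) (.g (nat_lit 5) .nil .nil))) 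
(.lf (nat_lit 96254) (.g (nat_lit 3940) (.e (nat_lit 2777) (nat_lit 178) (.e (nat_lit 286735) (nat_lit 3) (.e (nat_lit 98323) (nat_lit 17) (.e (nat_lit 6989) (nat_lit 377) (.e (nat_lit 2777) (nat_lit 178) (.e (nat_lit 286733) (nat_lit 2) (.e (nat_lit 90165) (nat_lit 12) (.e (nat_lit 164207) (nat_lit 176) .nil)))))))) (.g (nat_lit 5) .nil .nil)))))))) 
(.nd (nat_lit 1) (.nd (nat_lit 2) (.nd (nat_lit 3) (.nd (nat_lit 4) (.nd (nat_lit 5) 
(.lf (nat_lit 96193) (.g (nat_lit 2674) (.e (nat_lit 2771) (nat_lit 177) (.e (nat_lit 278553) (nat_lit 10) (.e (nat_lit 5271) (nat_lit 298) (.e (nat_lit 1256) (nat_lit 92) (.e (nat_lit 98359) (nat_lit 26) (.e (nat_lit 426211) (nat_lit 9) (.e (nat_lit 426125) (nat_lit 2) (.e (nat_lit 204544) (nat_lit 18) .nil)))))))) (.g (nat_lit 7) .nil .nil))) 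
(.lf (nat_lit 96225) (.g (nat_lit 1081) (.e (nat_lit 2777) (nat_lit 178) (.e (nat_lit 286731) (nat_lit 1) (.e (nat_lit 57681) (nat_lit 155) (.e (nat_lit 122915) (nat_lit 14) .nil)))) .nil))) (.nd (nat_lit 5) 
(.lf (nat_lit 96209) (.g (nat_lit 3643) (.e (nat_lit 2776) (nat_lit 178) (.e (nat_lit 286735) (nat_lit 3) (.e (nat_lit 98350) (nat_lit 24) (.e (nat_lit 409616) (nat_lit 10) (.e (nat_lit 5355) (nat_lit 298) .nil))))) .nil)) 
(.lf (nat_lit 96241) (.g (nat_lit 2286) (.e (nat_lit 2777) (nat_lit 178) (.e (nat_lit 286733) (nat_lit 2) (.e (nat_lit 90160) (nat_lit 11) (.e (nat_lit 24669) (nat_lit 15) .nil)))) .nil)))) (.nd (nat_lit 4) (.nd (nat_lit 5) 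
(.lf (nat_lit 96201) (.g (nat_lit 2267) (.e (nat_lit 2775) (nat_lit 178) (.e (nat_lit 286759) (nat_lit 12) (.e (nat_lit 385106) (nat_lit 50) (.e (nat_lit 786481) (nat_lit 30) .nil)))) .nil)) 
(.lf (nat_lit 96233) (.g (nat_lit 2397) (.e (nat_lit 2777) (nat_lit 178) (.e (nat_lit 286731) (nat_lit 1) (.e (nat_lit 57681) (nat_lit 155) (.e (nat_lit 122919) (nat_lit 15) (.e (nat_lit 360451) (nat_lit 0) (.e (nat_lit 7454) (nat_lit 396) (.e (nat_lit 1112) (nat_lit 82) (.e (nat_lit 8490) (nat_lit 180) .nil)))))))) (.g (nat_lit 4) .nil .nil)))) (.nd (nat_lit 5) 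
(.lf (nat_lit 96217) (.g (nat_lit 4223) (.e (nat_lit 2776) (nat_lit 178) (.e (nat_lit 286761) (nat_lit 13) (.e (nat_lit 393301) (nat_lit 27) (.e (nat_lit 491560) (nat_lit 10) .nil)))) .nil)) 
(.lf (nat_lit 96249) (.g (nat_lit 3135) (.e (nat_lit 2777) (nat_lit 178) (.e (nat_lit 286734) (nat_lit 3) (.e (nat_lit 98350) (nat_lit 24) (.e (nat_lit 409641) (nat_lit 17) (.e (nat_lit 294928) (nat_lit 2) .nil))))) .nil))))) (.nd (nat_lit 3) (.nd (nat_lit 4) (.nd (nat_lit 5) 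
(.lf (nat_lit 96197) (.g (nat_lit 1955) (.e (nat_lit 2775) (nat_lit 178) (.e (nat_lit 286735) (nat_lit 3) (.e (nat_lit 98350) (nat_lit 24) (.e (nat_lit 409649) (nat_lit 18) .nil)))) .nil)) 
(.lf (nat_lit 96229) (.g (nat_lit 2965) (.e (nat_lit 2777) (nat_lit 178) (.e (nat_lit 286731) (nat_lit 1) (.e (nat_lit 57681) (nat_lit 155) (.e (nat_lit 122919) (nat_lit 15) (.e (nat_lit 360451) (nat_lit 0) (.e (nat_lit 6869) (nat_lit 371) (.e (nat_lit 2608) (nat_lit 163) (.e (nat_lit 164208) (nat_lit 176) .nil)))))))) (.g (nat_lit 5) .nil .nil)))) (.nd (nat_lit 5) 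
(.lf (nat_lit 96213) (.g (nat_lit 1121) (.e (nat_lit 2776) (nat_lit 178) (.e (nat_lit 286761) (nat_lit 13) (.e (nat_lit 393234) (nat_lit 17) .nil))) .nil)) 
(.lf (nat_lit 96245) (.g (nat_lit 4736) (.e (nat_lit 2777) (nat_lit 178) (.e (nat_lit 286733) (nat_lit 2) (.e (nat_lit 90165) (nat_lit 12) (.e (nat_lit 164208) (nat_lit 176) (.e (nat_lit 2777) (nat_lit 178) (.e (nat_lit 286733) (nat_lit 2) (.e (nat_lit 90165) (nat_lit 12) (.e (nat_lit 164208) (nat_lit 176) .nil)))))))) (.g (nat_lit 7) .nil .nil))))) (.nd (nat_lit 4) (.nd (nat_lit 5) 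
(.lf (nat_lit 96205) (.g (nat_lit 4541) (.e (nat_lit 2775) (nat_lit 178) (.e (nat_lit 286761) (nat_lit 13) (.e (nat_lit 393301) (nat_lit 27) (.e (nat_lit 491558) (nat_lit 10) .nil)))) .nil)) 
(.lf (nat_lit 96237) (.g (nat_lit 1933) (.e (nat_lit 2777) (nat_lit 178) (.e (nat_lit 286733) (nat_lit 2) (.e (nat_lit 90134) (nat_lit 9) (.e (nat_lit 353) (nat_lit 29) .nil)))) .nil))) (.nd (nat_lit 5) 
(.lf (nat_lit 96221) (.g (nat_lit 348) (.e (nat_lit 2777) (nat_lit 178) (.e (nat_lit 286731) (nat_lit 1) (.e (nat_lit 57681) (nat_lit 155) .nil))) .nil)) 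
(.lf (nat_lit 96253) (.g (nat_lit 3488) (.e (nat_lit 2777) (nat_lit 178) (.e (nat_lit 286734) (nat_lit 3) (.e (nat_lit 98389) (nat_lit 33) (.e (nat_lit 491546) (nat_lit 9) (.e (nat_lit 336028) (nat_lit 3) (.e (nat_lit 98325) (nat_lit 17) (.e (nat_lit 6966) (nat_lit 377) .nil))))))) (.g (nat_lit 5) .nil .nil))))))) (.nd (nat_lit 2) (.nd (nat_lit 3) (.nd (nat_lit 4) (.nd (nat_lit 5) 
(.lf (nat_lit 96195) (.g (nat_lit 3638) (.e (nat_lit 2775) (nat_lit 178) (.e (nat_lit 286735) (nat_lit 3) (.e (nat_lit 98350) (nat_lit 24) (.e (nat_lit 409616) (nat_lit 10) (.e (nat_lit 5355) (nat_lit 298) .nil))))) .nil)) 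
(.lf (nat_lit 96227) (.g (nat_lit 3443) (.e (nat_lit 2777) (nat_lit 178) (.e (nat_lit 286731) (nat_lit 1) (.e (nat_lit 57681) (nat_lit 155) (.e (nat_lit 122919) (nat_lit 15) (.e (nat_lit 360451) (nat_lit 0) (.e (nat_lit 6850) (nat_lit 371) (.e (nat_lit 2612) (nat_lit 163) (.e (nat_lit 164207) (nat_lit 176) .nil)))))))) (.g (nat_lit 5) .nil .nil)))) (.nd (nat_lit 5) 
(.lf (nat_lit 96211) (.g (nat_lit 2968) (.e (nat_lit 2776) (nat_lit 178) (.e (nat_lit 286735) (nat_lit 3) (.e (nat_lit 98350) (nat_lit 24) (.e (nat_lit 409649) (nat_lit 18) (.e (nat_lit 303117) (nat_lit 2) .nil))))) .nil)) 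
(.lf (nat_lit 96243) (.g (nat_lit 3576) (.e (nat_lit 2777) (nat_lit 178) (.e (nat_lit 286733) (nat_lit 2) (.e (nat_lit 90165) (nat_lit 12) (.e (nat_lit 164207) (nat_lit 176) (.e (nat_lit 2777) (nat_lit 178) (.e (nat_lit 286733) (nat_lit 2) (.e (nat_lit 90165) (nat_lit 12) (.e (nat_lit 164208) (nat_lit 176) .nil)))))))) (.g (nat_lit 5) .nil .nil))))) (.nd (nat_lit 4) (.nd (nat_lit 5) 
(.lf (nat_lit 96203) (.g (nat_lit 2346) (.e (nat_lit 2775) (nat_lit 178) (.e (nat_lit 286761) (nat_lit 13) (.e (nat_lit 393234) (nat_lit 17) (.e (nat_lit 7591) (nat_lit 407) .nil)))) .nil)) 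
(.lf (nat_lit 96235) (.g (nat_lit 2726) (.e (nat_lit 2777) (nat_lit 178) (.e (nat_lit 286731) (nat_lit 1) (.e (nat_lit 57681) (nat_lit 155) (.e (nat_lit 122919) (nat_lit 15) (.e (nat_lit 360487) (nat_lit 19) (.e (nat_lit 753686) (nat_lit 8) (.e (nat_lit 164208) (nat_lit 176) .nil))))))) (.g (nat_lit 4) .nil .nil)))) (.nd (nat_lit 5) 
(.lf (nat_lit 96219) (.g (nat_lit 2525) (.e (nat_lit 2777) (nat_lit 178) (.e (nat_lit 286728) (nat_lit 0) (.e (nat_lit 1842) (nat_lit 123) (.e (nat_lit 548889) (nat_lit 9) (.e (nat_lit 65619) (nat_lit 10) (.e (nat_lit 344117) (nat_lit 21) (.e (nat_lit 516106) (nat_lit 0) (.e (nat_lit 6986) (nat_lit 377) .nil)))))))) (.g (nat_lit 4) .nil .nil))) 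
(.lf (nat_lit 96251) (.g (nat_lit 3645) (.e (nat_lit 2777) (nat_lit 178) (.e (nat_lit 286734) (nat_lit 3) (.e (nat_lit 98389) (nat_lit 33) (.e (nat_lit 491546) (nat_lit 9) (.e (nat_lit 336013) (nat_lit 2) (.e (nat_lit 90165) (nat_lit 12) (.e (nat_lit 164207) (nat_lit 176) .nil))))))) (.g (nat_lit 5) .nil .nil)))))) (.nd (nat_lit 3) (.nd (nat_lit 4) (.nd (nat_lit 5) 
(.lf (nat_lit 96199) (.g (nat_lit 646) (.e (nat_lit 2775) (nat_lit 178) (.e (nat_lit 286759) (nat_lit 12) (.e (nat_lit 385094) (nat_lit 49) .nil))) .nil)) 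
(.lf (nat_lit 96231) (.g (nat_lit 2813) (.e (nat_lit 2777) (nat_lit 178) (.e (nat_lit 286731) (nat_lit 1) (.e (nat_lit 57681) (nat_lit 155) (.e (nat_lit 122919) (nat_lit 15) (.e (nat_lit 360451) (nat_lit 0) (.e (nat_lit 7247) (nat_lit 383) (.e (nat_lit 8194) (nat_lit 0) (.e (nat_lit 4926) (nat_lit 287) .nil)))))))) (.g (nat_lit 5) .nil .nil)))) (.nd (nat_lit 5) 
(.lf (nat_lit 96215) (.g (nat_lit 4658) (.e (nat_lit 2776) (nat_lit 178) (.e (nat_lit 286761) (nat_lit 13) (.e (nat_lit 393301) (nat_lit 27) (.e (nat_lit 491558) (nat_lit 10) .nil)))) .nil)) 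
(.lf (nat_lit 96247) (.g (nat_lit 2755) (.e (nat_lit 2777) (nat_lit 178) (.e (nat_lit 286734) (nat_lit 3) (.e (nat_lit 98350) (nat_lit 24) (.e (nat_lit 409616) (nat_lit 10) (.e (nat_lit 5355) (nat_lit 298) .nil))))) .nil)))) (.nd (nat_lit 4) (.nd (nat_lit 5) 
(.lf (nat_lit 96207) (.g (nat_lit 4113) (.e (nat_lit 2775) (nat_lit 178) (.e (nat_lit 286761) (nat_lit 13) (.e (nat_lit 393301) (nat_lit 27) (.e (nat_lit 491560) (nat_lit 10) .nil)))) .nil)) 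
(.lf (nat_lit 96239) (.g (nat_lit 3955) (.e (nat_lit 2777) (nat_lit 178) (.e (nat_lit 286733) (nat_lit 2) (.e (nat_lit 90160) (nat_lit 11) (.e (nat_lit 24584) (nat_lit 0) (.e (nat_lit 970) (nat_lit 81) (.e (nat_lit 5954) (nat_lit 322) (.e (nat_lit 57442) (nat_lit 18) (.e (nat_lit 385032) (nat_lit 16) .nil)))))))) (.g (nat_lit 4) .nil .nil)))) (.nd (nat_lit 5) 
(.lf (nat_lit 96223) (.g (nat_lit 3516) (.e (nat_lit 2777) (nat_lit 178) (.e (nat_lit 286731) (nat_lit 1) (.e (nat_lit 57681) (nat_lit 155) (.e (nat_lit 122906) (nat_lit 12) (.e (nat_lit 336219) (nat_lit 13) (.e (nat_lit 393238) (nat_lit 17) (.e (nat_lit 6989) (nat_lit 377) .nil))))))) (.g (nat_lit 0) .nil .nil))) 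
(.lf (nat_lit 96255) (.g (nat_lit 896) (.e (nat_lit 2777) (nat_lit 178) (.e (nat_lit 286735) (nat_lit 3) (.e (nat_lit 98325) (nat_lit 17) .nil))) .nil))))))))

noncomputable def tv1321 : DT := (.nd (nat_lit 0) (.nd (nat_lit 1) (.nd (nat_lit 2) (.nd (nat_lit 3) (.nd (nat_lit 4) (.nd (nat_lit 5) (.nd (nat_lit 6) 
(.lf (nat_lit 96256) (.g (nat_lit 2312) (.e (nat_lit 2777) (nat_lit 178) (.e (nat_lit 286735) (nat_lit 3) (.e (nat_lit 98325) (nat_lit 17) (.e (nat_lit 6986) (nat_lit 377) (.e (nat_lit 2781) (nat_lit 178) (.e (nat_lit 286733) (nat_lit 2) (.e (nat_lit 90165) (nat_lit 12) (.e (nat_lit 164208) (nat_lit 176) .nil)))))))) (.g (nat_lit 4) .nil .nil))) 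
(.lf (nat_lit 96320) (.g (nat_lit 4181) (.e (nat_lit 2777) (nat_lit 178) (.e (nat_lit 286761) (nat_lit 13) (.e (nat_lit 393301) (nat_lit 27) (.e (nat_lit 491558) (nat_lit 10) (.e (nat_lit 344177) (nat_lit 43) .nil))))) .nil))) (.nd (nat_lit 6) 
(.lf (nat_lit 96288) (.g (nat_lit 1700) (.e (nat_lit 2777) (nat_lit 178) (.e (nat_lit 286735) (nat_lit 3) (.e (nat_lit 98350) (nat_lit 24) (.e (nat_lit 409649) (nat_lit 18) (.e (nat_lit 303111) (nat_lit 0) (.e (nat_lit 3272) (nat_lit 199) (.e (nat_lit 548910) (nat_lit 17) (.e (nat_lit 164207) (nat_lit 176) .nil)))))))) (.g (nat_lit 4) .nil .nil))) 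
(.lf (nat_lit 96352) (.g (nat_lit 1426) (.e (nat_lit 2778) (nat_lit 178) (.e (nat_lit 286759) (nat_lit 12) (.e (nat_lit 385094) (nat_lit 49) (.e (nat_lit 778327) (nat_lit 6) .nil)))) .nil)))) (.nd (nat_lit 5) (.nd (nat_lit 6) 
(.lf (nat_lit 96272) (.g (nat_lit 4489) (.e (nat_lit 2777) (nat_lit 178) (.e (nat_lit 286735) (nat_lit 3) (.e (nat_lit 98350) (nat_lit 24) (.e (nat_lit 409641) (nat_lit 17) (.e (nat_lit 294928) (nat_lit 2) (.e (nat_lit 90165) (nat_lit 12) (.e (nat_lit 164207) (nat_lit 176) .nil))))))) (.g (nat_lit 5) .nil .nil))) 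
(.lf (nat_lit 96336) (.g (nat_lit 5320) (.e (nat_lit 2777) (nat_lit 178) (.e (nat_lit 286761) (nat_lit 13) (.e (nat_lit 393301) (nat_lit 27) (.e (nat_lit 491560) (nat_lit 10) (.e (nat_lit 344177) (nat_lit 43) (.e (nat_lit 777984) (nat_lit 0) .nil)))))) (.g (nat_lit 5) .nil .nil)))) (.nd (nat_lit 6) 
(.lf (nat_lit 96304) (.g (nat_lit 3196) (.e (nat_lit 2777) (nat_lit 178) (.e (nat_lit 286761) (nat_lit 13) (.e (nat_lit 393225) (nat_lit 9) (.e (nat_lit 335995) (nat_lit 1) (.e (nat_lit 57872) (nat_lit 264) (.e (nat_lit 7936) (nat_lit 81) (.e (nat_lit 1239) (nat_lit 91) (.e (nat_lit 90187) (nat_lit 18) .nil)))))))) (.g (nat_lit 5) .nil .nil))) 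
(.lf (nat_lit 96368) (.g (nat_lit 4659) (.e (nat_lit 2778) (nat_lit 178) (.e (nat_lit 286761) (nat_lit 13) (.e (nat_lit 393301) (nat_lit 27) (.e (nat_lit 491559) (nat_lit 10) .nil)))) .nil))))) (.nd (nat_lit 4) (.nd (nat_lit 5) (.nd (nat_lit 6) 
(.lf (nat_lit 96264) (.g (nat_lit 3674) (.e (nat_lit 2777) (nat_lit 178) (.e (nat_lit 286735) (nat_lit 3) (.e (nat_lit 98350) (nat_lit 24) (.e (nat_lit 409616) (nat_lit 10) (.e (nat_lit 5355) (nat_lit 298) (.e (nat_lit 1234) (nat_lit 91) (.e (nat_lit 90165) (nat_lit 12) (.e (nat_lit 164207) (nat_lit 176) .nil)))))))) (.g (nat_lit 5) .nil .nil))) 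
(.lf (nat_lit 96328) (.g (nat_lit 4334) (.e (nat_lit 2777) (nat_lit 178) (.e (nat_lit 286761) (nat_lit 13) (.e (nat_lit 393301) (nat_lit 27) (.e (nat_lit 491560) (nat_lit 10) (.e (nat_lit 344094) (nat_lit 18) .nil))))) .nil))) (.nd (nat_lit 6) 
(.lf (nat_lit 96296) (.g (nat_lit 4133) (.e (nat_lit 2777) (nat_lit 178) (.e (nat_lit 286735) (nat_lit 3) (.e (nat_lit 98389) (nat_lit 33) (.e (nat_lit 491546) (nat_lit 9) (.e (nat_lit 336028) (nat_lit 3) (.e (nat_lit 98325) (nat_lit 17) (.e (nat_lit 6966) (nat_lit 377) .nil))))))) (.g (nat_lit 0) .nil .nil))) 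
(.lf (nat_lit 96360) (.g (nat_lit 1821) (.e (nat_lit 2778) (nat_lit 178) (.e (nat_lit 286761) (nat_lit 13) (.e (nat_lit 393234) (nat_lit 17) (.e (nat_lit 7593) (nat_lit 407) .nil)))) .nil)))) (.nd (nat_lit 5) (.nd (nat_lit 6) 
(.lf (nat_lit 96280) (.g (nat_lit 2748) (.e (nat_lit 2777) (nat_lit 178) (.e (nat_lit 286735) (nat_lit 3) (.e (nat_lit 98350) (nat_lit 24) (.e (nat_lit 409645) (nat_lit 18) (.e (nat_lit 303119) (nat_lit 3) (.e (nat_lit 204821) (nat_lit 17) (.e (nat_lit 6114) (nat_lit 332) .nil))))))) (.g (nat_lit 5) .nil .nil))) 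
(.lf (nat_lit 96344) (.g (nat_lit 3244) (.e (nat_lit 2778) (nat_lit 178) (.e (nat_lit 286735) (nat_lit 3) (.e (nat_lit 98350) (nat_lit 24) (.e (nat_lit 409617) (nat_lit 10) (.e (nat_lit 5355) (nat_lit 298) .nil))))) .nil))) (.nd (nat_lit 6) 
(.lf (nat_lit 96312) (.g (nat_lit 4236) (.e (nat_lit 2777) (nat_lit 178) (.e (nat_lit 286761) (nat_lit 13) (.e (nat_lit 393301) (nat_lit 27) (.e (nat_lit 491552) (nat_lit 9) .nil)))) .nil)) 
(.lf (nat_lit 96376) (.g (nat_lit 356) (.e (nat_lit 2779) (nat_lit 178) (.e (nat_lit 286731) (nat_lit 1) (.e (nat_lit 57681) (nat_lit 155) .nil))) .nil)))))) (.nd (nat_lit 3) (.nd (nat_lit 4) (.nd (nat_lit 5) (.nd (nat_lit 6) 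
(.lf (nat_lit 96260) (.g (nat_lit 2173) (.e (nat_lit 2777) (nat_lit 178) (.e (nat_lit 286735) (nat_lit 3) (.e (nat_lit 98349) (nat_lit 24) (.e (nat_lit 409642) (nat_lit 17) (.e (nat_lit 294931) (nat_lit 3) (.e (nat_lit 98323) (nat_lit 17) (.e (nat_lit 6989) (nat_lit 377) .nil))))))) (.g (nat_lit 4) .nil .nil))) 
(.lf (nat_lit 96324) (.g (nat_lit 5392) (.e (nat_lit 2777) (nat_lit 178) (.e (nat_lit 286761) (nat_lit 13) (.e (nat_lit 393301) (nat_lit 27) (.e (nat_lit 491559) (nat_lit 10) (.e (nat_lit 344174) (nat_lit 42) .nil))))) .nil))) (.nd (nat_lit 6) 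
(.lf (nat_lit 96292) (.g (nat_lit 4229) (.e (nat_lit 2777) (nat_lit 178) (.e (nat_lit 286735) (nat_lit 3) (.e (nat_lit 98350) (nat_lit 24) (.e (nat_lit 409649) (nat_lit 18) (.e (nat_lit 303119) (nat_lit 3) (.e (nat_lit 204819) (nat_lit 17) (.e (nat_lit 6113) (nat_lit 332) .nil))))))) (.g (nat_lit 0) .nil .nil))) 
(.lf (nat_lit 96356) (.g (nat_lit 2440) (.e (nat_lit 2778) (nat_lit 178) (.e (nat_lit 286759) (nat_lit 12) (.e (nat_lit 385106) (nat_lit 50) (.e (nat_lit 786483) (nat_lit 30) (.e (nat_lit 368384) (nat_lit 0) .nil))))) .nil)))) (.nd (nat_lit 5) (.nd (nat_lit 6) 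
(.lf (nat_lit 96276) (.g (nat_lit 4249) (.e (nat_lit 2777) (nat_lit 178) (.e (nat_lit 286735) (nat_lit 3) (.e (nat_lit 98350) (nat_lit 24) (.e (nat_lit 409642) (nat_lit 17) (.e (nat_lit 294928) (nat_lit 2) (.e (nat_lit 90165) (nat_lit 12) (.e (nat_lit 164207) (nat_lit 176) .nil))))))) (.g (nat_lit 4) .nil .nil))) 
(.lf (nat_lit 96340) (.g (nat_lit 2321) (.e (nat_lit 2777) (nat_lit 178) (.e (nat_lit 286770) (nat_lit 28) (.e (nat_lit 434181) (nat_lit 0) (.e (nat_lit 1661) (nat_lit 115) (.e (nat_lit 393238) (nat_lit 17) (.e (nat_lit 6970) (nat_lit 377) .nil)))))) (.g (nat_lit 5) .nil .nil)))) (.nd (nat_lit 6) 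
(.lf (nat_lit 96308) (.g (nat_lit 2134) (.e (nat_lit 2777) (nat_lit 178) (.e (nat_lit 286761) (nat_lit 13) (.e (nat_lit 393251) (nat_lit 18) (.e (nat_lit 164179) (nat_lit 154) .nil)))) .nil)) 
(.lf (nat_lit 96372) (.g (nat_lit 5817) (.e (nat_lit 2778) (nat_lit 178) (.e (nat_lit 286761) (nat_lit 13) (.e (nat_lit 393301) (nat_lit 27) (.e (nat_lit 491560) (nat_lit 10) (.e (nat_lit 344094) (nat_lit 18) .nil))))) .nil))))) (.nd (nat_lit 4) (.nd (nat_lit 5) (.nd (nat_lit 6) 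
(.lf (nat_lit 96268) (.g (nat_lit 2597) (.e (nat_lit 2777) (nat_lit 178) (.e (nat_lit 286735) (nat_lit 3) (.e (nat_lit 98350) (nat_lit 24) (.e (nat_lit 409617) (nat_lit 10) (.e (nat_lit 5355) (nat_lit 298) (.e (nat_lit 1253) (nat_lit 92) (.e (nat_lit 98325) (nat_lit 17) (.e (nat_lit 6986) (nat_lit 377) .nil)))))))) (.g (nat_lit 4) .nil .nil))) 
(.lf (nat_lit 96332) (.g (nat_lit 4874) (.e (nat_lit 2777) (nat_lit 178) (.e (nat_lit 286761) (nat_lit 13) (.e (nat_lit 393301) (nat_lit 27) (.e (nat_lit 491560) (nat_lit 10) (.e (nat_lit 344097) (nat_lit 18) (.e (nat_lit 7148) (nat_lit 382) (.e (nat_lit 20) (nat_lit 0) .nil))))))) (.g (nat_lit 4) .nil .nil)))) (.nd (nat_lit 6) 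
(.lf (nat_lit 96300) (.g (nat_lit 2355) (.e (nat_lit 2777) (nat_lit 178) (.e (nat_lit 286759) (nat_lit 12) (.e (nat_lit 385074) (nat_lit 31) (.e (nat_lit 573489) (nat_lit 14) .nil)))) .nil)) 
(.lf (nat_lit 96364) (.g (nat_lit 5505) (.e (nat_lit 2778) (nat_lit 178) (.e (nat_lit 286761) (nat_lit 13) (.e (nat_lit 393301) (nat_lit 27) (.e (nat_lit 491558) (nat_lit 10) (.e (nat_lit 344090) (nat_lit 18) .nil))))) .nil)))) (.nd (nat_lit 5) (.nd (nat_lit 6) 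
(.lf (nat_lit 96284) (.g (nat_lit 3526) (.e (nat_lit 2777) (nat_lit 178) (.e (nat_lit 286735) (nat_lit 3) (.e (nat_lit 98350) (nat_lit 24) (.e (nat_lit 409647) (nat_lit 18) (.e (nat_lit 303119) (nat_lit 3) (.e (nat_lit 204821) (nat_lit 17) (.e (nat_lit 6114) (nat_lit 332) .nil))))))) (.g (nat_lit 6) .nil .nil))) 
(.lf (nat_lit 96348) (.g (nat_lit 2103) (.e (nat_lit 2778) (nat_lit 178) (.e (nat_lit 286759) (nat_lit 12) (.e (nat_lit 385074) (nat_lit 31) (.e (nat_lit 573485) (nat_lit 13) .nil)))) .nil))) (.nd (nat_lit 6) 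
(.lf (nat_lit 96316) (.g (nat_lit 4339) (.e (nat_lit 2777) (nat_lit 178) (.e (nat_lit 286761) (nat_lit 13) (.e (nat_lit 393301) (nat_lit 27) (.e (nat_lit 491558) (nat_lit 10) (.e (nat_lit 344093) (nat_lit 18) .nil))))) .nil)) 
(.lf (nat_lit 96380) (.g (nat_lit 2210) (.e (nat_lit 2779) (nat_lit 178) (.e (nat_lit 286733) (nat_lit 2) (.e (nat_lit 90165) (nat_lit 12) (.e (nat_lit 164207) (nat_lit 176) (.e (nat_lit 2777) (nat_lit 178) .nil))))) .nil))))))) (.nd (nat_lit 2) (.nd (nat_lit 3) (.nd (nat_lit 4) (.nd (nat_lit 5) (.nd (nat_lit 6) 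
(.lf (nat_lit 96258) (.g (nat_lit 2604) (.e (nat_lit 2777) (nat_lit 178) (.e (nat_lit 286735) (nat_lit 3) (.e (nat_lit 98349) (nat_lit 24) (.e (nat_lit 409641) (nat_lit 17) (.e (nat_lit 294928) (nat_lit 2) (.e (nat_lit 90165) (nat_lit 12) (.e (nat_lit 164208) (nat_lit 176) .nil))))))) (.g (nat_lit 4) .nil .nil))) 
(.lf (nat_lit 96322) (.g (nat_lit 4850) (.e (nat_lit 2777) (nat_lit 178) (.e (nat_lit 286761) (nat_lit 13) (.e (nat_lit 393301) (nat_lit 27) (.e (nat_lit 491559) (nat_lit 10) (.e (nat_lit 344091) (nat_lit 18) .nil))))) .nil))) (.nd (nat_lit 6) 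
(.lf (nat_lit 96290) (.g (nat_lit 2174) (.e (nat_lit 2777) (nat_lit 178) (.e (nat_lit 286735) (nat_lit 3) (.e (nat_lit 98350) (nat_lit 24) (.e (nat_lit 409649) (nat_lit 18) (.e (nat_lit 303111) (nat_lit 0) (.e (nat_lit 3308) (nat_lit 202) (.e (nat_lit 573468) (nat_lit 10) (.e (nat_lit 8490) (nat_lit 180) .nil)))))))) (.g (nat_lit 4) .nil .nil))) 
(.lf (nat_lit 96354) (.g (nat_lit 2477) (.e (nat_lit 2778) (nat_lit 178) (.e (nat_lit 286759) (nat_lit 12) (.e (nat_lit 385106) (nat_lit 50) (.e (nat_lit 786481) (nat_lit 30) (.e (nat_lit 360455) (nat_lit 0) .nil))))) .nil)))) (.nd (nat_lit 5) (.nd (nat_lit 6) 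
(.lf (nat_lit 96274) (.g (nat_lit 3753) (.e (nat_lit 2777) (nat_lit 178) (.e (nat_lit 286735) (nat_lit 3) (.e (nat_lit 98350) (nat_lit 24) (.e (nat_lit 409641) (nat_lit 17) (.e (nat_lit 294930) (nat_lit 3) (.e (nat_lit 106240) (nat_lit 17) (.e (nat_lit 6988) (nat_lit 377) .nil))))))) (.g (nat_lit 4) .nil .nil))) 
(.lf (nat_lit 96338) (.g (nat_lit 1881) (.e (nat_lit 2777) (nat_lit 178) (.e (nat_lit 286765) (nat_lit 15) (.e (nat_lit 3307) (nat_lit 202) (.e (nat_lit 573491) (nat_lit 15) .nil)))) .nil))) (.nd (nat_lit 6) 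
(.lf (nat_lit 96306) (.g (nat_lit 1378) (.e (nat_lit 2777) (nat_lit 178) (.e (nat_lit 286761) (nat_lit 13) (.e (nat_lit 393234) (nat_lit 17) (.e (nat_lit 7591) (nat_lit 407) .nil)))) .nil)) 
(.lf (nat_lit 96370) (.g (nat_lit 4426) (.e (nat_lit 2778) (nat_lit 178) (.e (nat_lit 286761) (nat_lit 13) (.e (nat_lit 393301) (nat_lit 27) (.e (nat_lit 491560) (nat_lit 10) .nil)))) .nil))))) (.nd (nat_lit 4) (.nd (nat_lit 5) (.nd (nat_lit 6) 
(.lf (nat_lit 96266) (.g (nat_lit 2667) (.e (nat_lit 2777) (nat_lit 178) (.e (nat_lit 286735) (nat_lit 3) (.e (nat_lit 98350) (nat_lit 24) (.e (nat_lit 409616) (nat_lit 10) (.e (nat_lit 7936) (nat_lit 298) (.e (nat_lit 1239) (nat_lit 91) (.e (nat_lit 90165) (nat_lit 12) (.e (nat_lit 164207) (nat_lit 176) .nil)))))))) (.g (nat_lit 4) .nil .nil))) 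
(.lf (nat_lit 96330) (.g (nat_lit 3987) (.e (nat_lit 2777) (nat_lit 178) (.e (nat_lit 286761) (nat_lit 13) (.e (nat_lit 393301) (nat_lit 27) (.e (nat_lit 491560) (nat_lit 10) (.e (nat_lit 344097) (nat_lit 18) .nil))))) .nil))) (.nd (nat_lit 6) 
(.lf (nat_lit 96298) (.g (nat_lit 1904) (.e (nat_lit 2777) (nat_lit 178) (.e (nat_lit 286759) (nat_lit 12) (.e (nat_lit 385074) (nat_lit 31) (.e (nat_lit 573485) (nat_lit 13) .nil)))) .nil)) 
(.lf (nat_lit 96362) (.g (nat_lit 4442) (.e (nat_lit 2778) (nat_lit 178) (.e (nat_lit 286761) (nat_lit 13) (.e (nat_lit 393301) (nat_lit 27) (.e (nat_lit 491546) (nat_lit 9) .nil)))) .nil)))) (.nd (nat_lit 5) (.nd (nat_lit 6) 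
(.lf (nat_lit 96282) (.g (nat_lit 2723) (.e (nat_lit 2777) (nat_lit 178) (.e (nat_lit 286735) (nat_lit 3) (.e (nat_lit 98350) (nat_lit 24) (.e (nat_lit 409647) (nat_lit 18) (.e (nat_lit 303118) (nat_lit 3) (.e (nat_lit 204819) (nat_lit 17) (.e (nat_lit 6113) (nat_lit 332) .nil))))))) (.g (nat_lit 5) .nil .nil))) 
(.lf (nat_lit 96346) (.g (nat_lit 2857) (.e (nat_lit 2778) (nat_lit 178) (.e (nat_lit 286735) (nat_lit 3) (.e (nat_lit 98350) (nat_lit 24) (.e (nat_lit 409649) (nat_lit 18) (.e (nat_lit 303117) (nat_lit 2) .nil))))) .nil))) (.nd (nat_lit 6) 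
(.lf (nat_lit 96314) (.g (nat_lit 4678) (.e (nat_lit 2777) (nat_lit 178) (.e (nat_lit 286761) (nat_lit 13) (.e (nat_lit 393301) (nat_lit 27) (.e (nat_lit 491558) (nat_lit 10) (.e (nat_lit 344090) (nat_lit 18) (.e (nat_lit 7119) (nat_lit 382) (.e (nat_lit 20) (nat_lit 0) .nil))))))) (.g (nat_lit 4) .nil .nil))) 
(.lf (nat_lit 96378) (.g (nat_lit 2389) (.e (nat_lit 2779) (nat_lit 178) (.e (nat_lit 286733) (nat_lit 2) (.e (nat_lit 90160) (nat_lit 11) (.e (nat_lit 24584) (nat_lit 0) .nil)))) .nil)))))) (.nd (nat_lit 3) (.nd (nat_lit 4) (.nd (nat_lit 5) (.nd (nat_lit 6) 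
(.lf (nat_lit 96262) (.g (nat_lit 2489) (.e (nat_lit 2777) (nat_lit 178) (.e (nat_lit 286735) (nat_lit 3) (.e (nat_lit 98350) (nat_lit 24) (.e (nat_lit 409612) (nat_lit 10) .nil)))) .nil)) 
(.lf (nat_lit 96326) (.g (nat_lit 2908) (.e (nat_lit 2777) (nat_lit 178) (.e (nat_lit 286761) (nat_lit 13) (.e (nat_lit 393301) (nat_lit 27) (.e (nat_lit 491560) (nat_lit 10) .nil)))) .nil))) (.nd (nat_lit 6) 
(.lf (nat_lit 96294) (.g (nat_lit 4519) (.e (nat_lit 2777) (nat_lit 178) (.e (nat_lit 286735) (nat_lit 3) (.e (nat_lit 98389) (nat_lit 33) (.e (nat_lit 491546) (nat_lit 9) (.e (nat_lit 336013) (nat_lit 2) (.e (nat_lit 90165) (nat_lit 12) (.e (nat_lit 164207) (nat_lit 176) .nil))))))) (.g (nat_lit 7) .nil .nil))) 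
(.lf (nat_lit 96358) (.g (nat_lit 2544) (.e (nat_lit 2778) (nat_lit 178) (.e (nat_lit 286761) (nat_lit 13) (.e (nat_lit 393234) (nat_lit 17) (.e (nat_lit 7591) (nat_lit 407) (.e (nat_lit 73729) (nat_lit 0) .nil))))) .nil)))) (.nd (nat_lit 5) (.nd (nat_lit 6) 
(.lf (nat_lit 96278) (.g (nat_lit 3505) (.e (nat_lit 2777) (nat_lit 178) (.e (nat_lit 286735) (nat_lit 3) (.e (nat_lit 98350) (nat_lit 24) (.e (nat_lit 409643) (nat_lit 18) (.e (nat_lit 303119) (nat_lit 3) (.e (nat_lit 204819) (nat_lit 17) (.e (nat_lit 6113) (nat_lit 332) .nil))))))) (.g (nat_lit 0) .nil .nil))) 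
(.lf (nat_lit 96342) (.g (nat_lit 925) (.e (nat_lit 2778) (nat_lit 178) (.e (nat_lit 286735) (nat_lit 3) (.e (nat_lit 98350) (nat_lit 24) .nil))) .nil))) (.nd (nat_lit 6) 
(.lf (nat_lit 96310) (.g (nat_lit 2857) (.e (nat_lit 2777) (nat_lit 178) (.e (nat_lit 286761) (nat_lit 13) (.e (nat_lit 393300) (nat_lit 27) (.e (nat_lit 491560) (nat_lit 10) (.e (nat_lit 344097) (nat_lit 18) .nil))))) .nil)) 
(.lf (nat_lit 96374) (.g (nat_lit 6106) (.e (nat_lit 2778) (nat_lit 178) (.e (nat_lit 286761) (nat_lit 13) (.e (nat_lit 393301) (nat_lit 27) (.e (nat_lit 491560) (nat_lit 10) (.e (nat_lit 344096) (nat_lit 18) .nil))))) .nil))))) (.nd (nat_lit 4) (.nd (nat_lit 5) (.nd (nat_lit 6) 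
(.lf (nat_lit 96270) (.g (nat_lit 2282) (.e (nat_lit 2777) (nat_lit 178) (.e (nat_lit 286735) (nat_lit 3) (.e (nat_lit 98350) (nat_lit 24) (.e (nat_lit 409640) (nat_lit 17) (.e (nat_lit 294928) (nat_lit 2) (.e (nat_lit 90165) (nat_lit 12) (.e (nat_lit 164208) (nat_lit 176) .nil))))))) (.g (nat_lit 5) .nil .nil))) 
(.lf (nat_lit 96334) (.g (nat_lit 4386) (.e (nat_lit 2777) (nat_lit 178) (.e (nat_lit 286761) (nat_lit 13) (.e (nat_lit 393301) (nat_lit 27) (.e (nat_lit 491560) (nat_lit 10) (.e (nat_lit 344174) (nat_lit 42) .nil))))) .nil))) (.nd (nat_lit 6) 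
(.lf (nat_lit 96302) (.g (nat_lit 2014) (.e (nat_lit 2777) (nat_lit 178) (.e (nat_lit 286759) (nat_lit 12) (.e (nat_lit 385106) (nat_lit 50) (.e (nat_lit 786483) (nat_lit 30) (.e (nat_lit 368384) (nat_lit 17) (.e (nat_lit 671488) (nat_lit 14) .nil)))))) (.g (nat_lit 4) .nil .nil))) 
(.lf (nat_lit 96366) (.g (nat_lit 5344) (.e (nat_lit 2778) (nat_lit 178) (.e (nat_lit 286761) (nat_lit 13) (.e (nat_lit 393301) (nat_lit 27) (.e (nat_lit 491558) (nat_lit 10) (.e (nat_lit 344095) (nat_lit 18) .nil))))) .nil)))) (.nd (nat_lit 5) (.nd (nat_lit 6) 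
(.lf (nat_lit 96286) (.g (nat_lit 3867) (.e (nat_lit 2777) (nat_lit 178) (.e (nat_lit 286735) (nat_lit 3) (.e (nat_lit 98350) (nat_lit 24) (.e (nat_lit 409648) (nat_lit 18) (.e (nat_lit 303118) (nat_lit 3) (.e (nat_lit 204819) (nat_lit 17) (.e (nat_lit 6113) (nat_lit 332) .nil))))))) (.g (nat_lit 7) .nil .nil))) 
(.lf (nat_lit 96350) (.g (nat_lit 3373) (.e (nat_lit 2778) (nat_lit 178) (.e (nat_lit 286759) (nat_lit 12) (.e (nat_lit 385074) (nat_lit 31) (.e (nat_lit 573489) (nat_lit 14) .nil)))) .nil))) (.nd (nat_lit 6) 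
(.lf (nat_lit 96318) (.g (nat_lit 4843) (.e (nat_lit 2777) (nat_lit 178) (.e (nat_lit 286761) (nat_lit 13) (.e (nat_lit 393301) (nat_lit 27) (.e (nat_lit 491558) (nat_lit 10) (.e (nat_lit 344096) (nat_lit 18) (.e (nat_lit 7119) (nat_lit 382) (.e (nat_lit 20) (nat_lit 0) .nil))))))) (.g (nat_lit 4) .nil .nil))) 
(.lf (nat_lit 96382) (.g (nat_lit 1856) (.e (nat_lit 2779) (nat_lit 178) (.e (nat_lit 286733) (nat_lit 2) (.e (nat_lit 90165) (nat_lit 12) (.e (nat_lit 164210) (nat_lit 176) .nil)))) .nil)))))))) (.nd (nat_lit 1) (.nd (nat_lit 2) (.nd (nat_lit 3) (.nd (nat_lit 4) (.nd (nat_lit 5) (.nd (nat_lit 6) 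
(.lf (nat_lit 96257) (.g (nat_lit 2649) (.e (nat_lit 2777) (nat_lit 178) (.e (nat_lit 286735) (nat_lit 3) (.e (nat_lit 98349) (nat_lit 24) (.e (nat_lit 409641) (nat_lit 17) (.e (nat_lit 294928) (nat_lit 2) (.e (nat_lit 90165) (nat_lit 12) (.e (nat_lit 164207) (nat_lit 176) .nil))))))) (.g (nat_lit 4) .nil .nil))) 
(.lf (nat_lit 96321) (.g (nat_lit 3394) (.e (nat_lit 2777) (nat_lit 178) (.e (nat_lit 286761) (nat_lit 13) (.e (nat_lit 393301) (nat_lit 27) (.e (nat_lit 491559) (nat_lit 10) .nil)))) .nil))) (.nd (nat_lit 6) 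
(.lf (nat_lit 96289) (.g (nat_lit 2482) (.e (nat_lit 2777) (nat_lit 178) (.e (nat_lit 286735) (nat_lit 3) (.e (nat_lit 98350) (nat_lit 24) (.e (nat_lit 409649) (nat_lit 18) (.e (nat_lit 303111) (nat_lit 0) (.e (nat_lit 3308) (nat_lit 202) (.e (nat_lit 573466) (nat_lit 10) (.e (nat_lit 8490) (nat_lit 180) .nil)))))))) (.g (nat_lit 4) .nil .nil))) 
(.lf (nat_lit 96353) (.g (nat_lit 1501) (.e (nat_lit 2778) (nat_lit 178) (.e (nat_lit 286759) (nat_lit 12) (.e (nat_lit 385106) (nat_lit 50) (.e (nat_lit 786481) (nat_lit 30) .nil)))) .nil)))) (.nd (nat_lit 5) (.nd (nat_lit 6) 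
(.lf (nat_lit 96273) (.g (nat_lit 4415) (.e (nat_lit 2777) (nat_lit 178) (.e (nat_lit 286735) (nat_lit 3) (.e (nat_lit 98350) (nat_lit 24) (.e (nat_lit 409641) (nat_lit 17) (.e (nat_lit 294928) (nat_lit 2) (.e (nat_lit 90165) (nat_lit 12) (.e (nat_lit 164208) (nat_lit 176) .nil))))))) (.g (nat_lit 5) .nil .nil))) 
(.lf (nat_lit 96337) (.g (nat_lit 3506) (.e (nat_lit 2777) (nat_lit 178) (.e (nat_lit 286765) (nat_lit 15) (.e (nat_lit 3307) (nat_lit 202) (.e (nat_lit 573479) (nat_lit 13) (.e (nat_lit 65619) (nat_lit 10) (.e (nat_lit 344117) (nat_lit 21) (.e (nat_lit 516106) (nat_lit 0) (.e (nat_lit 6986) (nat_lit 377) .nil)))))))) (.g (nat_lit 6) .nil .nil)))) (.nd (nat_lit 6) 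
(.lf (nat_lit 96305) (.g (nat_lit 2598) (.e (nat_lit 2777) (nat_lit 178) (.e (nat_lit 286761) (nat_lit 13) (.e (nat_lit 393225) (nat_lit 9) (.e (nat_lit 335995) (nat_lit 1) (.e (nat_lit 57873) (nat_lit 264) (.e (nat_lit 7936) (nat_lit 81) (.e (nat_lit 1239) (nat_lit 91) (.e (nat_lit 90187) (nat_lit 18) .nil)))))))) (.g (nat_lit 4) .nil .nil))) 
(.lf (nat_lit 96369) (.g (nat_lit 6062) (.e (nat_lit 2778) (nat_lit 178) (.e (nat_lit 286761) (nat_lit 13) (.e (nat_lit 393301) (nat_lit 27) (.e (nat_lit 491559) (nat_lit 10) (.e (nat_lit 344177) (nat_lit 43) .nil))))) .nil))))) (.nd (nat_lit 4) (.nd (nat_lit 5) (.nd (nat_lit 6) 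
(.lf (nat_lit 96265) (.g (nat_lit 2667) (.e (nat_lit 2777) (nat_lit 178) (.e (nat_lit 286735) (nat_lit 3) (.e (nat_lit 98350) (nat_lit 24) (.e (nat_lit 409616) (nat_lit 10) (.e (nat_lit 5355) (nat_lit 298) (.e (nat_lit 1253) (nat_lit 92) (.e (nat_lit 98325) (nat_lit 17) (.e (nat_lit 6986) (nat_lit 377) .nil)))))))) (.g (nat_lit 4) .nil .nil))) 
(.lf (nat_lit 96329) (.g (nat_lit 4588) (.e (nat_lit 2777) (nat_lit 178) (.e (nat_lit 286761) (nat_lit 13) (.e (nat_lit 393301) (nat_lit 27) (.e (nat_lit 491560) (nat_lit 10) (.e (nat_lit 344096) (nat_lit 18) .nil))))) .nil))) (.nd (nat_lit 6) 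
(.lf (nat_lit 96297) (.g (nat_lit 2529) (.e (nat_lit 2777) (nat_lit 178) (.e (nat_lit 286735) (nat_lit 3) (.e (nat_lit 98389) (nat_lit 33) (.e (nat_lit 491558) (nat_lit 10) (.e (nat_lit 344117) (nat_lit 21) (.e (nat_lit 516106) (nat_lit 0) (.e (nat_lit 6966) (nat_lit 377) .nil))))))) (.g (nat_lit 4) .nil .nil))) 
(.lf (nat_lit 96361) (.g (nat_lit 2381) (.e (nat_lit 2778) (nat_lit 178) (.e (nat_lit 286761) (nat_lit 13) (.e (nat_lit 393234) (nat_lit 17) (.e (nat_lit 7593) (nat_lit 407) (.e (nat_lit 73729) (nat_lit 0) .nil))))) .nil)))) (.nd (nat_lit 5) (.nd (nat_lit 6) 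
(.lf (nat_lit 96281) (.g (nat_lit 3030) (.e (nat_lit 2777) (nat_lit 178) (.e (nat_lit 286735) (nat_lit 3) (.e (nat_lit 98350) (nat_lit 24) (.e (nat_lit 409646) (nat_lit 18) (.e (nat_lit 303119) (nat_lit 3) (.e (nat_lit 204821) (nat_lit 17) (.e (nat_lit 6114) (nat_lit 332) .nil))))))) (.g (nat_lit 5) .nil .nil))) 
(.lf (nat_lit 96345) (.g (nat_lit 3194) (.e (nat_lit 2778) (nat_lit 178) (.e (nat_lit 286735) (nat_lit 3) (.e (nat_lit 98350) (nat_lit 24) (.e (nat_lit 409641) (nat_lit 17) .nil)))) .nil))) (.nd (nat_lit 6) 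
(.lf (nat_lit 96313) (.g (nat_lit 3073) (.e (nat_lit 2777) (nat_lit 178) (.e (nat_lit 286761) (nat_lit 13) (.e (nat_lit 393301) (nat_lit 27) (.e (nat_lit 491558) (nat_lit 10) .nil)))) .nil)) 
(.lf (nat_lit 96377) (.g (nat_lit 881) (.e (nat_lit 2779) (nat_lit 178) (.e (nat_lit 286733) (nat_lit 2) (.e (nat_lit 90134) (nat_lit 9) .nil))) .nil)))))) (.nd (nat_lit 3) (.nd (nat_lit 4) (.nd (nat_lit 5) (.nd (nat_lit 6) 
(.lf (nat_lit 96261) (.g (nat_lit 382) (.e (nat_lit 2777) (nat_lit 178) (.e (nat_lit 286735) (nat_lit 3) (.e (nat_lit 98350) (nat_lit 24) .nil))) .nil)) 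
(.lf (nat_lit 96325) (.g (nat_lit 5879) (.e (nat_lit 2777) (nat_lit 178) (.e (nat_lit 286761) (nat_lit 13) (.e (nat_lit 393301) (nat_lit 27) (.e (nat_lit 491559) (nat_lit 10) (.e (nat_lit 344177) (nat_lit 43) (.e (nat_lit 777984) (nat_lit 0) .nil)))))) (.g (nat_lit 5) .nil .nil)))) (.nd (nat_lit 6) 
(.lf (nat_lit 96293) (.g (nat_lit 4823) (.e (nat_lit 2777) (nat_lit 178) (.e (nat_lit 286735) (nat_lit 3) (.e (nat_lit 98350) (nat_lit 24) (.e (nat_lit 409649) (nat_lit 18) (.e (nat_lit 303119) (nat_lit 3) (.e (nat_lit 204821) (nat_lit 17) (.e (nat_lit 6114) (nat_lit 332) .nil))))))) (.g (nat_lit 0) .nil .nil))) 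
(.lf (nat_lit 96357) (.g (nat_lit 1875) (.e (nat_lit 2778) (nat_lit 178) (.e (nat_lit 286761) (nat_lit 13) (.e (nat_lit 393234) (nat_lit 17) (.e (nat_lit 7591) (nat_lit 407) .nil)))) .nil)))) (.nd (nat_lit 5) (.nd (nat_lit 6) 
(.lf (nat_lit 96277) (.g (nat_lit 4178) (.e (nat_lit 2777) (nat_lit 178) (.e (nat_lit 286735) (nat_lit 3) (.e (nat_lit 98350) (nat_lit 24) (.e (nat_lit 409642) (nat_lit 17) (.e (nat_lit 294928) (nat_lit 2) (.e (nat_lit 90165) (nat_lit 12) (.e (nat_lit 164208) (nat_lit 176) .nil))))))) (.g (nat_lit 4) .nil .nil))) 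
(.lf (nat_lit 96341) (.g (nat_lit 1868) (.e (nat_lit 2777) (nat_lit 178) (.e (nat_lit 286770) (nat_lit 28) (.e (nat_lit 434181) (nat_lit 0) (.e (nat_lit 1661) (nat_lit 115) (.e (nat_lit 393242) (nat_lit 17) (.e (nat_lit 6966) (nat_lit 377) .nil)))))) (.g (nat_lit 6) .nil .nil)))) (.nd (nat_lit 6) 
(.lf (nat_lit 96309) (.g (nat_lit 2344) (.e (nat_lit 2777) (nat_lit 178) (.e (nat_lit 286761) (nat_lit 13) (.e (nat_lit 393300) (nat_lit 27) (.e (nat_lit 491546) (nat_lit 9) (.e (nat_lit 335997) (nat_lit 1) .nil))))) .nil)) 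
(.lf (nat_lit 96373) (.g (nat_lit 6598) (.e (nat_lit 2778) (nat_lit 178) (.e (nat_lit 286761) (nat_lit 13) (.e (nat_lit 393301) (nat_lit 27) (.e (nat_lit 491560) (nat_lit 10) (.e (nat_lit 344095) (nat_lit 18) .nil))))) .nil))))) (.nd (nat_lit 4) (.nd (nat_lit 5) (.nd (nat_lit 6) 
(.lf (nat_lit 96269) (.g (nat_lit 2354) (.e (nat_lit 2777) (nat_lit 178) (.e (nat_lit 286735) (nat_lit 3) (.e (nat_lit 98350) (nat_lit 24) (.e (nat_lit 409640) (nat_lit 17) (.e (nat_lit 294928) (nat_lit 2) (.e (nat_lit 90165) (nat_lit 12) (.e (nat_lit 164207) (nat_lit 176) .nil))))))) (.g (nat_lit 4) .nil .nil))) 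
(.lf (nat_lit 96333) (.g (nat_lit 4232) (.e (nat_lit 2777) (nat_lit 178) (.e (nat_lit 286761) (nat_lit 13) (.e (nat_lit 393301) (nat_lit 27) (.e (nat_lit 491560) (nat_lit 10) (.e (nat_lit 344173) (nat_lit 42) .nil))))) .nil))) (.nd (nat_lit 6) 
(.lf (nat_lit 96301) (.g (nat_lit 1668) (.e (nat_lit 2777) (nat_lit 178) (.e (nat_lit 286759) (nat_lit 12) (.e (nat_lit 385106) (nat_lit 50) (.e (nat_lit 786481) (nat_lit 30) (.e (nat_lit 368384) (nat_lit 17) (.e (nat_lit 671488) (nat_lit 14) .nil)))))) (.g (nat_lit 4) .nil .nil))) 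
(.lf (nat_lit 96365) (.g (nat_lit 5309) (.e (nat_lit 2778) (nat_lit 178) (.e (nat_lit 286761) (nat_lit 13) (.e (nat_lit 393301) (nat_lit 27) (.e (nat_lit 491558) (nat_lit 10) (.e (nat_lit 344091) (nat_lit 18) .nil))))) .nil)))) (.nd (nat_lit 5) (.nd (nat_lit 6) 
(.lf (nat_lit 96285) (.g (nat_lit 2441) (.e (nat_lit 2777) (nat_lit 178) (.e (nat_lit 286735) (nat_lit 3) (.e (nat_lit 98350) (nat_lit 24) (.e (nat_lit 409648) (nat_lit 18) (.e (nat_lit 303108) (nat_lit 0) (.e (nat_lit 3272) (nat_lit 199) (.e (nat_lit 548910) (nat_lit 17) (.e (nat_lit 164207) (nat_lit 176) .nil)))))))) (.g (nat_lit 4) .nil .nil))) 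
(.lf (nat_lit 96349) (.g (nat_lit 3522) (.e (nat_lit 2778) (nat_lit 178) (.e (nat_lit 286759) (nat_lit 12) (.e (nat_lit 385074) (nat_lit 31) (.e (nat_lit 573487) (nat_lit 14) .nil)))) .nil))) (.nd (nat_lit 6) 
(.lf (nat_lit 96317) (.g (nat_lit 4607) (.e (nat_lit 2777) (nat_lit 178) (.e (nat_lit 286761) (nat_lit 13) (.e (nat_lit 393301) (nat_lit 27) (.e (nat_lit 491558) (nat_lit 10) (.e (nat_lit 344093) (nat_lit 18) (.e (nat_lit 7162) (nat_lit 382) (.e (nat_lit 20) (nat_lit 0) .nil))))))) (.g (nat_lit 4) .nil .nil))) 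
(.lf (nat_lit 96381) (.g (nat_lit 1863) (.e (nat_lit 2779) (nat_lit 178) (.e (nat_lit 286733) (nat_lit 2) (.e (nat_lit 90165) (nat_lit 12) (.e (nat_lit 164208) (nat_lit 176) .nil)))) .nil))))))) (.nd (nat_lit 2) (.nd (nat_lit 3) (.nd (nat_lit 4) (.nd (nat_lit 5) (.nd (nat_lit 6) 
(.lf (nat_lit 96259) (.g (nat_lit 2414) (.e (nat_lit 2777) (nat_lit 178) (.e (nat_lit 286735) (nat_lit 3) (.e (nat_lit 98349) (nat_lit 24) (.e (nat_lit 409641) (nat_lit 17) (.e (nat_lit 294930) (nat_lit 3) (.e (nat_lit 106240) (nat_lit 17) (.e (nat_lit 6989) (nat_lit 377) .nil))))))) (.g (nat_lit 4) .nil .nil))) 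
(.lf (nat_lit 96323) (.g (nat_lit 5409) (.e (nat_lit 2777) (nat_lit 178) (.e (nat_lit 286761) (nat_lit 13) (.e (nat_lit 393301) (nat_lit 27) (.e (nat_lit 491559) (nat_lit 10) (.e (nat_lit 344097) (nat_lit 18) .nil))))) .nil))) (.nd (nat_lit 6) 
(.lf (nat_lit 96291) (.g (nat_lit 4112) (.e (nat_lit 2777) (nat_lit 178) (.e (nat_lit 286735) (nat_lit 3) (.e (nat_lit 98350) (nat_lit 24) (.e (nat_lit 409649) (nat_lit 18) (.e (nat_lit 303118) (nat_lit 3) (.e (nat_lit 204819) (nat_lit 17) (.e (nat_lit 6113) (nat_lit 332) .nil))))))) (.g (nat_lit 7) .nil .nil))) 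
(.lf (nat_lit 96355) (.g (nat_lit 2756) (.e (nat_lit 2778) (nat_lit 178) (.e (nat_lit 286759) (nat_lit 12) (.e (nat_lit 385106) (nat_lit 50) (.e (nat_lit 786483) (nat_lit 30) (.e (nat_lit 360455) (nat_lit 0) .nil))))) .nil)))) (.nd (nat_lit 5) (.nd (nat_lit 6) 
(.lf (nat_lit 96275) (.g (nat_lit 2701) (.e (nat_lit 2777) (nat_lit 178) (.e (nat_lit 286735) (nat_lit 3) (.e (nat_lit 98350) (nat_lit 24) (.e (nat_lit 409642) (nat_lit 17) .nil)))) .nil)) 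
(.lf (nat_lit 96339) (.g (nat_lit 1770) (.e (nat_lit 2777) (nat_lit 178) (.e (nat_lit 286770) (nat_lit 28) (.e (nat_lit 434180) (nat_lit 0) (.e (nat_lit 1661) (nat_lit 115) (.e (nat_lit 393230) (nat_lit 17) (.e (nat_lit 6989) (nat_lit 377) .nil)))))) (.g (nat_lit 4) .nil .nil)))) (.nd (nat_lit 6) 
(.lf (nat_lit 96307) (.g (nat_lit 2284) (.e (nat_lit 2777) (nat_lit 178) (.e (nat_lit 286761) (nat_lit 13) (.e (nat_lit 393234) (nat_lit 17) (.e (nat_lit 7591) (nat_lit 407) (.e (nat_lit 73772) (nat_lit 24) (.e (nat_lit 769792) (nat_lit 0) .nil)))))) (.g (nat_lit 4) .nil .nil))) 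
(.lf (nat_lit 96371) (.g (nat_lit 5731) (.e (nat_lit 2778) (nat_lit 178) (.e (nat_lit 286761) (nat_lit 13) (.e (nat_lit 393301) (nat_lit 27) (.e (nat_lit 491560) (nat_lit 10) (.e (nat_lit 344090) (nat_lit 18) .nil))))) .nil))))) (.nd (nat_lit 4) (.nd (nat_lit 5) (.nd (nat_lit 6) 
(.lf (nat_lit 96267) (.g (nat_lit 3507) (.e (nat_lit 2777) (nat_lit 178) (.e (nat_lit 286735) (nat_lit 3) (.e (nat_lit 98350) (nat_lit 24) (.e (nat_lit 409617) (nat_lit 10) (.e (nat_lit 5355) (nat_lit 298) (.e (nat_lit 1234) (nat_lit 91) (.e (nat_lit 90165) (nat_lit 12) (.e (nat_lit 164207) (nat_lit 176) .nil)))))))) (.g (nat_lit 5) .nil .nil))) 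
(.lf (nat_lit 96331) (.g (nat_lit 4619) (.e (nat_lit 2777) (nat_lit 178) (.e (nat_lit 286761) (nat_lit 13) (.e (nat_lit 393301) (nat_lit 27) (.e (nat_lit 491560) (nat_lit 10) (.e (nat_lit 344097) (nat_lit 18) (.e (nat_lit 7146) (nat_lit 382) (.e (nat_lit 12) (nat_lit 0) .nil))))))) (.g (nat_lit 4) .nil .nil)))) (.nd (nat_lit 6) 
(.lf (nat_lit 96299) (.g (nat_lit 2472) (.e (nat_lit 2777) (nat_lit 178) (.e (nat_lit 286759) (nat_lit 12) (.e (nat_lit 385074) (nat_lit 31) (.e (nat_lit 573487) (nat_lit 14) .nil)))) .nil)) 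
(.lf (nat_lit 96363) (.g (nat_lit 4435) (.e (nat_lit 2778) (nat_lit 178) (.e (nat_lit 286761) (nat_lit 13) (.e (nat_lit 393301) (nat_lit 27) (.e (nat_lit 491558) (nat_lit 10) .nil)))) .nil)))) (.nd (nat_lit 5) (.nd (nat_lit 6) 
(.lf (nat_lit 96283) (.g (nat_lit 3952) (.e (nat_lit 2777) (nat_lit 178) (.e (nat_lit 286735) (nat_lit 3) (.e (nat_lit 98350) (nat_lit 24) (.e (nat_lit 409647) (nat_lit 18) (.e (nat_lit 303119) (nat_lit 3) (.e (nat_lit 204819) (nat_lit 17) (.e (nat_lit 6113) (nat_lit 332) .nil))))))) (.g (nat_lit 0) .nil .nil))) 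
(.lf (nat_lit 96347) (.g (nat_lit 2763) (.e (nat_lit 2778) (nat_lit 178) (.e (nat_lit 286735) (nat_lit 3) (.e (nat_lit 98350) (nat_lit 24) (.e (nat_lit 409649) (nat_lit 18) (.e (nat_lit 303119) (nat_lit 3) .nil))))) .nil))) (.nd (nat_lit 6) 
(.lf (nat_lit 96315) (.g (nat_lit 4654) (.e (nat_lit 2777) (nat_lit 178) (.e (nat_lit 286761) (nat_lit 13) (.e (nat_lit 393301) (nat_lit 27) (.e (nat_lit 491558) (nat_lit 10) (.e (nat_lit 344091) (nat_lit 18) (.e (nat_lit 7119) (nat_lit 382) (.e (nat_lit 21) (nat_lit 0) .nil))))))) (.g (nat_lit 4) .nil .nil))) 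
(.lf (nat_lit 96379) (.g (nat_lit 858) (.e (nat_lit 2779) (nat_lit 178) (.e (nat_lit 286733) (nat_lit 2) (.e (nat_lit 90165) (nat_lit 12) .nil))) .nil)))))) (.nd (nat_lit 3) (.nd (nat_lit 4) (.nd (nat_lit 5) (.nd (nat_lit 6) 
(.lf (nat_lit 96263) (.g (nat_lit 2259) (.e (nat_lit 2777) (nat_lit 178) (.e (nat_lit 286735) (nat_lit 3) (.e (nat_lit 98350) (nat_lit 24) (.e (nat_lit 409616) (nat_lit 10) (.e (nat_lit 5355) (nat_lit 298) .nil))))) .nil)) 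
(.lf (nat_lit 96327) (.g (nat_lit 4404) (.e (nat_lit 2777) (nat_lit 178) (.e (nat_lit 286761) (nat_lit 13) (.e (nat_lit 393301) (nat_lit 27) (.e (nat_lit 491560) (nat_lit 10) (.e (nat_lit 344090) (nat_lit 18) .nil))))) .nil))) (.nd (nat_lit 6) 
(.lf (nat_lit 96295) (.g (nat_lit 3682) (.e (nat_lit 2777) (nat_lit 178) (.e (nat_lit 286735) (nat_lit 3) (.e (nat_lit 98389) (nat_lit 33) (.e (nat_lit 491546) (nat_lit 9) (.e (nat_lit 336013) (nat_lit 2) (.e (nat_lit 90165) (nat_lit 12) (.e (nat_lit 164208) (nat_lit 176) .nil))))))) (.g (nat_lit 6) .nil .nil))) 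
(.lf (nat_lit 96359) (.g (nat_lit 2392) (.e (nat_lit 2778) (nat_lit 178) (.e (nat_lit 286761) (nat_lit 13) (.e (nat_lit 393234) (nat_lit 17) (.e (nat_lit 7591) (nat_lit 407) (.e (nat_lit 73731) (nat_lit 0) .nil))))) .nil)))) (.nd (nat_lit 5) (.nd (nat_lit 6) 
(.lf (nat_lit 96279) (.g (nat_lit 3871) (.e (nat_lit 2777) (nat_lit 178) (.e (nat_lit 286735) (nat_lit 3) (.e (nat_lit 98350) (nat_lit 24) (.e (nat_lit 409644) (nat_lit 18) (.e (nat_lit 303119) (nat_lit 3) (.e (nat_lit 204819) (nat_lit 17) (.e (nat_lit 6113) (nat_lit 332) .nil))))))) (.g (nat_lit 0) .nil .nil))) 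
(.lf (nat_lit 96343) (.g (nat_lit 3585) (.e (nat_lit 2778) (nat_lit 178) (.e (nat_lit 286735) (nat_lit 3) (.e (nat_lit 98350) (nat_lit 24) (.e (nat_lit 409616) (nat_lit 10) (.e (nat_lit 5355) (nat_lit 298) .nil))))) .nil))) (.nd (nat_lit 6) 
(.lf (nat_lit 96311) (.g (nat_lit 4614) (.e (nat_lit 2777) (nat_lit 178) (.e (nat_lit 286761) (nat_lit 13) (.e (nat_lit 393301) (nat_lit 27) (.e (nat_lit 491546) (nat_lit 9) (.e (nat_lit 335997) (nat_lit 1) .nil))))) .nil)) 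
(.lf (nat_lit 96375) (.g (nat_lit 2566) (.e (nat_lit 2778) (nat_lit 178) (.e (nat_lit 286765) (nat_lit 15) (.e (nat_lit 3308) (nat_lit 202) (.e (nat_lit 573482) (nat_lit 13) (.e (nat_lit 65604) (nat_lit 9) .nil))))) .nil))))) (.nd (nat_lit 4) (.nd (nat_lit 5) (.nd (nat_lit 6) 
(.lf (nat_lit 96271) (.g (nat_lit 2027) (.e (nat_lit 2777) (nat_lit 178) (.e (nat_lit 286735) (nat_lit 3) (.e (nat_lit 98350) (nat_lit 24) (.e (nat_lit 409641) (nat_lit 17) .nil)))) .nil)) 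
(.lf (nat_lit 96335) (.g (nat_lit 4065) (.e (nat_lit 2777) (nat_lit 178) (.e (nat_lit 286761) (nat_lit 13) (.e (nat_lit 393301) (nat_lit 27) (.e (nat_lit 491560) (nat_lit 10) (.e (nat_lit 344176) (nat_lit 43) .nil))))) .nil))) (.nd (nat_lit 6) 
(.lf (nat_lit 96303) (.g (nat_lit 2140) (.e (nat_lit 2777) (nat_lit 178) (.e (nat_lit 286759) (nat_lit 12) (.e (nat_lit 385106) (nat_lit 50) (.e (nat_lit 786483) (nat_lit 30) (.e (nat_lit 360486) (nat_lit 18) (.e (nat_lit 679680) (nat_lit 14) .nil)))))) (.g (nat_lit 4) .nil .nil))) 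
(.lf (nat_lit 96367) (.g (nat_lit 5353) (.e (nat_lit 2778) (nat_lit 178) (.e (nat_lit 286761) (nat_lit 13) (.e (nat_lit 393301) (nat_lit 27) (.e (nat_lit 491558) (nat_lit 10) (.e (nat_lit 344096) (nat_lit 18) .nil))))) .nil)))) (.nd (nat_lit 5) (.nd (nat_lit 6) 
(.lf (nat_lit 96287) (.g (nat_lit 4351) (.e (nat_lit 2777) (nat_lit 178) (.e (nat_lit 286735) (nat_lit 3) (.e (nat_lit 98350) (nat_lit 24) (.e (nat_lit 409648) (nat_lit 18) (.e (nat_lit 303119) (nat_lit 3) (.e (nat_lit 204819) (nat_lit 17) (.e (nat_lit 6113) (nat_lit 332) .nil))))))) (.g (nat_lit 0) .nil .nil))) 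
(.lf (nat_lit 96351) (.g (nat_lit 1337) (.e (nat_lit 2778) (nat_lit 178) (.e (nat_lit 286759) (nat_lit 12) (.e (nat_lit 385094) (nat_lit 49) (.e (nat_lit 778326) (nat_lit 6) .nil)))) .nil))) (.nd (nat_lit 6) 
(.lf (nat_lit 96319) (.g (nat_lit 4720) (.e (nat_lit 2777) (nat_lit 178) (.e (nat_lit 286761) (nat_lit 13) (.e (nat_lit 393301) (nat_lit 27) (.e (nat_lit 491558) (nat_lit 10) (.e (nat_lit 344174) (nat_lit 42) (.e (nat_lit 769792) (nat_lit 0) .nil)))))) (.g (nat_lit 5) .nil .nil))) 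
(.lf (nat_lit 96383) (.g (nat_lit 1625) (.e (nat_lit 2779) (nat_lit 178) (.e (nat_lit 286733) (nat_lit 2) (.e (nat_lit 90165) (nat_lit 12) (.e (nat_lit 171776) (nat_lit 191) .nil)))) .nil)))))))))

noncomputable def tv1322 : DT := (.nd (nat_lit 0) (.nd (nat_lit 1) (.nd (nat_lit 2) (.nd (nat_lit 3) (.nd (nat_lit 4) (.nd (nat_lit 5) (.nd (nat_lit 6) 
(.lf (nat_lit 96384) (.g (nat_lit 1625) (.e (nat_lit 2779) (nat_lit 178) (.e (nat_lit 286733) (nat_lit 2) (.e (nat_lit 90165) (nat_lit 12) (.e (nat_lit 171776) (nat_lit 194) .nil)))) .nil)) 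
(.lf (nat_lit 96448) (.g (nat_lit 2463) (.e (nat_lit 2780) (nat_lit 178) (.e (nat_lit 286735) (nat_lit 3) (.e (nat_lit 98350) (nat_lit 24) (.e (nat_lit 409616) (nat_lit 10) .nil)))) .nil))) (.nd (nat_lit 6) 
(.lf (nat_lit 96416) (.g (nat_lit 2135) (.e (nat_lit 2779) (nat_lit 178) (.e (nat_lit 286735) (nat_lit 3) (.e (nat_lit 98350) (nat_lit 24) (.e (nat_lit 409649) (nat_lit 18) (.e (nat_lit 303116) (nat_lit 2) (.e (nat_lit 196661) (nat_lit 12) (.e (nat_lit 57712) (nat_lit 176) .nil))))))) (.g (nat_lit 4) .nil .nil))) 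
(.lf (nat_lit 96480) (.g (nat_lit 2621) (.e (nat_lit 2781) (nat_lit 178) (.e (nat_lit 286735) (nat_lit 3) (.e (nat_lit 98350) (nat_lit 24) (.e (nat_lit 409648) (nat_lit 18) (.e (nat_lit 303108) (nat_lit 0) .nil))))) .nil)))) (.nd (nat_lit 5) (.nd (nat_lit 6) 
(.lf (nat_lit 96400) (.g (nat_lit 2169) (.e (nat_lit 2779) (nat_lit 178) (.e (nat_lit 286735) (nat_lit 3) (.e (nat_lit 98350) (nat_lit 24) (.e (nat_lit 409623) (nat_lit 10) .nil)))) .nil)) 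
(.lf (nat_lit 96464) (.g (nat_lit 2363) (.e (nat_lit 2781) (nat_lit 178) (.e (nat_lit 286733) (nat_lit 2) (.e (nat_lit 90165) (nat_lit 12) (.e (nat_lit 164210) (nat_lit 176) (.e (nat_lit 2788) (nat_lit 179) (.e (nat_lit 294928) (nat_lit 2) (.e (nat_lit 90165) (nat_lit 12) (.e (nat_lit 164208) (nat_lit 176) .nil)))))))) (.g (nat_lit 5) .nil .nil)))) (.nd (nat_lit 6) 
(.lf (nat_lit 96432) (.g (nat_lit 2075) (.e (nat_lit 2779) (nat_lit 178) (.e (nat_lit 286761) (nat_lit 13) (.e (nat_lit 393225) (nat_lit 9) (.e (nat_lit 335995) (nat_lit 1) .nil)))) .nil)) 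
(.lf (nat_lit 96496) (.g (nat_lit 4230) (.e (nat_lit 2781) (nat_lit 178) (.e (nat_lit 286761) (nat_lit 13) (.e (nat_lit 393301) (nat_lit 27) (.e (nat_lit 491546) (nat_lit 9) .nil)))) .nil))))) (.nd (nat_lit 4) (.nd (nat_lit 5) (.nd (nat_lit 6) 
(.lf (nat_lit 96392) (.g (nat_lit 2655) (.e (nat_lit 2779) (nat_lit 178) (.e (nat_lit 286735) (nat_lit 3) (.e (nat_lit 98349) (nat_lit 24) (.e (nat_lit 409641) (nat_lit 17) (.e (nat_lit 294931) (nat_lit 3) .nil))))) .nil)) 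
(.lf (nat_lit 96456) (.g (nat_lit 4868) (.e (nat_lit 2780) (nat_lit 178) (.e (nat_lit 286761) (nat_lit 13) (.e (nat_lit 393301) (nat_lit 27) (.e (nat_lit 491559) (nat_lit 10) .nil)))) .nil))) (.nd (nat_lit 6) 
(.lf (nat_lit 96424) (.g (nat_lit 2256) (.e (nat_lit 2779) (nat_lit 178) (.e (nat_lit 286735) (nat_lit 3) (.e (nat_lit 98389) (nat_lit 33) (.e (nat_lit 491558) (nat_lit 10) (.e (nat_lit 344117) (nat_lit 21) (.e (nat_lit 516102) (nat_lit 0) (.e (nat_lit 6989) (nat_lit 377) .nil))))))) (.g (nat_lit 4) .nil .nil))) 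
(.lf (nat_lit 96488) (.g (nat_lit 2311) (.e (nat_lit 2781) (nat_lit 178) (.e (nat_lit 286759) (nat_lit 12) (.e (nat_lit 385094) (nat_lit 49) (.e (nat_lit 778326) (nat_lit 6) (.e (nat_lit 89856) (nat_lit 0) .nil))))) .nil)))) (.nd (nat_lit 5) (.nd (nat_lit 6) 
(.lf (nat_lit 96408) (.g (nat_lit 2195) (.e (nat_lit 2779) (nat_lit 178) (.e (nat_lit 286735) (nat_lit 3) (.e (nat_lit 98350) (nat_lit 24) (.e (nat_lit 409644) (nat_lit 18) .nil)))) .nil)) 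
(.lf (nat_lit 96472) (.g (nat_lit 1877) (.e (nat_lit 2781) (nat_lit 178) (.e (nat_lit 286735) (nat_lit 3) (.e (nat_lit 98349) (nat_lit 24) (.e (nat_lit 409642) (nat_lit 17) .nil)))) .nil))) (.nd (nat_lit 6) 
(.lf (nat_lit 96440) (.g (nat_lit 3876) (.e (nat_lit 2779) (nat_lit 178) (.e (nat_lit 286761) (nat_lit 13) (.e (nat_lit 393301) (nat_lit 27) (.e (nat_lit 491558) (nat_lit 10) .nil)))) .nil)) 
(.lf (nat_lit 96504) (.g (nat_lit 4945) (.e (nat_lit 2781) (nat_lit 178) (.e (nat_lit 286761) (nat_lit 13) (.e (nat_lit 393301) (nat_lit 27) (.e (nat_lit 491560) (nat_lit 10) (.e (nat_lit 344097) (nat_lit 18) .nil))))) .nil)))))) (.nd (nat_lit 3) (.nd (nat_lit 4) (.nd (nat_lit 5) (.nd (nat_lit 6) 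
(.lf (nat_lit 96388) (.g (nat_lit 892) (.e (nat_lit 2779) (nat_lit 178) (.e (nat_lit 286735) (nat_lit 3) (.e (nat_lit 98323) (nat_lit 17) .nil))) .nil)) 
(.lf (nat_lit 96452) (.g (nat_lit 2471) (.e (nat_lit 2780) (nat_lit 178) (.e (nat_lit 286759) (nat_lit 12) (.e (nat_lit 385094) (nat_lit 49) (.e (nat_lit 778326) (nat_lit 6) .nil)))) .nil))) (.nd (nat_lit 6) 
(.lf (nat_lit 96420) (.g (nat_lit 2278) (.e (nat_lit 2779) (nat_lit 178) (.e (nat_lit 286735) (nat_lit 3) (.e (nat_lit 98350) (nat_lit 24) (.e (nat_lit 417536) (nat_lit 18) .nil)))) .nil)) 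
(.lf (nat_lit 96484) (.g (nat_lit 1260) (.e (nat_lit 2781) (nat_lit 178) (.e (nat_lit 286759) (nat_lit 12) (.e (nat_lit 385074) (nat_lit 31) .nil))) .nil)))) (.nd (nat_lit 5) (.nd (nat_lit 6) 
(.lf (nat_lit 96404) (.g (nat_lit 4251) (.e (nat_lit 2779) (nat_lit 178) (.e (nat_lit 286735) (nat_lit 3) (.e (nat_lit 98350) (nat_lit 24) (.e (nat_lit 409641) (nat_lit 17) (.e (nat_lit 294928) (nat_lit 2) .nil))))) .nil)) 
(.lf (nat_lit 96468) (.g (nat_lit 1955) (.e (nat_lit 2781) (nat_lit 178) (.e (nat_lit 286734) (nat_lit 3) (.e (nat_lit 98350) (nat_lit 24) (.e (nat_lit 409641) (nat_lit 17) .nil)))) .nil))) (.nd (nat_lit 6) 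
(.lf (nat_lit 96436) (.g (nat_lit 2470) (.e (nat_lit 2779) (nat_lit 178) (.e (nat_lit 286761) (nat_lit 13) (.e (nat_lit 393234) (nat_lit 17) (.e (nat_lit 7593) (nat_lit 407) .nil)))) .nil)) 
(.lf (nat_lit 96500) (.g (nat_lit 4861) (.e (nat_lit 2781) (nat_lit 178) (.e (nat_lit 286761) (nat_lit 13) (.e (nat_lit 393301) (nat_lit 27) (.e (nat_lit 491558) (nat_lit 10) (.e (nat_lit 344097) (nat_lit 18) .nil))))) .nil))))) (.nd (nat_lit 4) (.nd (nat_lit 5) (.nd (nat_lit 6) 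
(.lf (nat_lit 96396) (.g (nat_lit 4656) (.e (nat_lit 2779) (nat_lit 178) (.e (nat_lit 286735) (nat_lit 3) (.e (nat_lit 98350) (nat_lit 24) (.e (nat_lit 409616) (nat_lit 10) (.e (nat_lit 5355) (nat_lit 298) (.e (nat_lit 1235) (nat_lit 91) (.e (nat_lit 90165) (nat_lit 12) (.e (nat_lit 164208) (nat_lit 176) .nil)))))))) (.g (nat_lit 6) .nil .nil))) 
(.lf (nat_lit 96460) (.g (nat_lit 887) (.e (nat_lit 2781) (nat_lit 178) (.e (nat_lit 286733) (nat_lit 2) (.e (nat_lit 90165) (nat_lit 12) .nil))) .nil))) (.nd (nat_lit 6) 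
(.lf (nat_lit 96428) (.g (nat_lit 1315) (.e (nat_lit 2779) (nat_lit 178) (.e (nat_lit 286759) (nat_lit 12) (.e (nat_lit 385074) (nat_lit 31) .nil))) .nil)) 
(.lf (nat_lit 96492) (.g (nat_lit 1655) (.e (nat_lit 2781) (nat_lit 178) (.e (nat_lit 286759) (nat_lit 12) (.e (nat_lit 385106) (nat_lit 50) (.e (nat_lit 786483) (nat_lit 30) .nil)))) .nil)))) (.nd (nat_lit 5) (.nd (nat_lit 6) 
(.lf (nat_lit 96412) (.g (nat_lit 2965) (.e (nat_lit 2779) (nat_lit 178) (.e (nat_lit 286735) (nat_lit 3) (.e (nat_lit 98350) (nat_lit 24) (.e (nat_lit 409647) (nat_lit 18) (.e (nat_lit 303117) (nat_lit 2) .nil))))) .nil)) 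
(.lf (nat_lit 96476) (.g (nat_lit 1687) (.e (nat_lit 2781) (nat_lit 178) (.e (nat_lit 286735) (nat_lit 3) (.e (nat_lit 98350) (nat_lit 24) (.e (nat_lit 417536) (nat_lit 16) .nil)))) .nil))) (.nd (nat_lit 6) 
(.lf (nat_lit 96444) (.g (nat_lit 3225) (.e (nat_lit 2779) (nat_lit 178) (.e (nat_lit 286761) (nat_lit 13) (.e (nat_lit 393301) (nat_lit 27) (.e (nat_lit 491560) (nat_lit 10) .nil)))) .nil)) 
(.lf (nat_lit 96508) (.g (nat_lit 3693) (.e (nat_lit 2782) (nat_lit 178) (.e (nat_lit 286725) (nat_lit 0) (.e (nat_lit 1842) (nat_lit 123) (.e (nat_lit 548889) (nat_lit 9) (.e (nat_lit 65604) (nat_lit 9) (.e (nat_lit 336013) (nat_lit 2) (.e (nat_lit 90165) (nat_lit 12) (.e (nat_lit 164208) (nat_lit 176) .nil)))))))) (.g (nat_lit 0) .nil .nil)))))))) 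
(.nd (nat_lit 2) (.nd (nat_lit 3) (.nd (nat_lit 4) (.nd (nat_lit 5) (.nd (nat_lit 6) 
(.lf (nat_lit 96386) (.g (nat_lit 2014) (.e (nat_lit 2779) (nat_lit 178) (.e (nat_lit 286735) (nat_lit 3) (.e (nat_lit 98320) (nat_lit 17) (.e (nat_lit 7591) (nat_lit 407) (.e (nat_lit 73747) (nat_lit 3) (.e (nat_lit 516102) (nat_lit 0) (.e (nat_lit 6989) (nat_lit 377) .nil))))))) (.g (nat_lit 4) .nil .nil))) 
(.lf (nat_lit 96450) (.g (nat_lit 2962) (.e (nat_lit 2780) (nat_lit 178) (.e (nat_lit 286735) (nat_lit 3) (.e (nat_lit 98350) (nat_lit 24) (.e (nat_lit 409649) (nat_lit 18) (.e (nat_lit 303117) (nat_lit 2) .nil))))) .nil))) (.nd (nat_lit 6) 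
(.lf (nat_lit 96418) (.g (nat_lit 2284) (.e (nat_lit 2779) (nat_lit 178) (.e (nat_lit 286735) (nat_lit 3) (.e (nat_lit 98350) (nat_lit 24) (.e (nat_lit 409649) (nat_lit 18) (.e (nat_lit 303119) (nat_lit 3) .nil))))) .nil)) 
(.lf (nat_lit 96482) (.g (nat_lit 3848) (.e (nat_lit 2781) (nat_lit 178) (.e (nat_lit 286735) (nat_lit 3) (.e (nat_lit 98389) (nat_lit 33) (.e (nat_lit 491546) (nat_lit 9) (.e (nat_lit 336013) (nat_lit 2) (.e (nat_lit 90165) (nat_lit 12) (.e (nat_lit 164208) (nat_lit 176) .nil))))))) (.g (nat_lit 0) .nil .nil))))) (.nd (nat_lit 5) (.nd (nat_lit 6) 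
(.lf (nat_lit 96402) (.g (nat_lit 2375) (.e (nat_lit 2779) (nat_lit 178) (.e (nat_lit 286735) (nat_lit 3) (.e (nat_lit 98350) (nat_lit 24) (.e (nat_lit 409640) (nat_lit 17) .nil)))) .nil)) 
(.lf (nat_lit 96466) (.g (nat_lit 2306) (.e (nat_lit 2781) (nat_lit 178) (.e (nat_lit 286733) (nat_lit 2) (.e (nat_lit 90165) (nat_lit 12) (.e (nat_lit 171776) (nat_lit 191) (.e (nat_lit 65567) (nat_lit 2) (.e (nat_lit 90165) (nat_lit 12) (.e (nat_lit 164208) (nat_lit 176) .nil))))))) (.g (nat_lit 6) .nil .nil)))) (.nd (nat_lit 6) 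
(.lf (nat_lit 96434) (.g (nat_lit 3192) (.e (nat_lit 2779) (nat_lit 178) (.e (nat_lit 286761) (nat_lit 13) (.e (nat_lit 393234) (nat_lit 17) (.e (nat_lit 7591) (nat_lit 407) (.e (nat_lit 73729) (nat_lit 0) .nil))))) .nil)) 
(.lf (nat_lit 96498) (.g (nat_lit 4854) (.e (nat_lit 2781) (nat_lit 178) (.e (nat_lit 286761) (nat_lit 13) (.e (nat_lit 393301) (nat_lit 27) (.e (nat_lit 491558) (nat_lit 10) (.e (nat_lit 344091) (nat_lit 18) .nil))))) .nil))))) (.nd (nat_lit 4) (.nd (nat_lit 5) (.nd (nat_lit 6) 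
(.lf (nat_lit 96394) (.g (nat_lit 2111) (.e (nat_lit 2779) (nat_lit 178) (.e (nat_lit 286735) (nat_lit 3) (.e (nat_lit 98350) (nat_lit 24) (.e (nat_lit 409616) (nat_lit 10) .nil)))) .nil)) 
(.lf (nat_lit 96458) (.g (nat_lit 1468) (.e (nat_lit 2781) (nat_lit 178) (.e (nat_lit 286731) (nat_lit 1) (.e (nat_lit 57681) (nat_lit 155) (.e (nat_lit 122914) (nat_lit 14) (.e (nat_lit 360192) (nat_lit 12) .nil))))) .nil))) (.nd (nat_lit 6) 
(.lf (nat_lit 96426) (.g (nat_lit 3122) (.e (nat_lit 2779) (nat_lit 178) (.e (nat_lit 286735) (nat_lit 3) (.e (nat_lit 98389) (nat_lit 33) (.e (nat_lit 491560) (nat_lit 10) (.e (nat_lit 344117) (nat_lit 21) (.e (nat_lit 516102) (nat_lit 0) (.e (nat_lit 6989) (nat_lit 377) .nil))))))) (.g (nat_lit 5) .nil .nil))) 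
(.lf (nat_lit 96490) (.g (nat_lit 586) (.e (nat_lit 2781) (nat_lit 178) (.e (nat_lit 286759) (nat_lit 12) (.e (nat_lit 385106) (nat_lit 50) .nil))) .nil)))) (.nd (nat_lit 5) (.nd (nat_lit 6) 
(.lf (nat_lit 96410) (.g (nat_lit 3204) (.e (nat_lit 2779) (nat_lit 178) (.e (nat_lit 286735) (nat_lit 3) (.e (nat_lit 98350) (nat_lit 24) (.e (nat_lit 409645) (nat_lit 18) (.e (nat_lit 303119) (nat_lit 3) .nil))))) .nil)) 
(.lf (nat_lit 96474) (.g (nat_lit 2226) (.e (nat_lit 2781) (nat_lit 178) (.e (nat_lit 286735) (nat_lit 3) (.e (nat_lit 98350) (nat_lit 24) (.e (nat_lit 409616) (nat_lit 10) (.e (nat_lit 7936) (nat_lit 298) (.e (nat_lit 1239) (nat_lit 91) (.e (nat_lit 90165) (nat_lit 12) (.e (nat_lit 164208) (nat_lit 176) .nil)))))))) (.g (nat_lit 4) .nil .nil)))) (.nd (nat_lit 6) 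
(.lf (nat_lit 96442) (.g (nat_lit 4551) (.e (nat_lit 2779) (nat_lit 178) (.e (nat_lit 286761) (nat_lit 13) (.e (nat_lit 393301) (nat_lit 27) (.e (nat_lit 491559) (nat_lit 10) .nil)))) .nil)) 
(.lf (nat_lit 96506) (.g (nat_lit 2327) (.e (nat_lit 2781) (nat_lit 178) (.e (nat_lit 286770) (nat_lit 28) (.e (nat_lit 434181) (nat_lit 0) (.e (nat_lit 1661) (nat_lit 115) (.e (nat_lit 393238) (nat_lit 17) (.e (nat_lit 6970) (nat_lit 377) .nil)))))) (.g (nat_lit 5) .nil .nil))))))) (.nd (nat_lit 3) (.nd (nat_lit 4) (.nd (nat_lit 5) (.nd (nat_lit 6) 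
(.lf (nat_lit 96390) (.g (nat_lit 1408) (.e (nat_lit 2779) (nat_lit 178) (.e (nat_lit 286735) (nat_lit 3) (.e (nat_lit 98325) (nat_lit 17) (.e (nat_lit 7936) (nat_lit 407) .nil)))) .nil)) 
(.lf (nat_lit 96454) (.g (nat_lit 2436) (.e (nat_lit 2780) (nat_lit 178) (.e (nat_lit 286761) (nat_lit 13) (.e (nat_lit 393234) (nat_lit 17) (.e (nat_lit 7593) (nat_lit 407) .nil)))) .nil))) (.nd (nat_lit 6) 
(.lf (nat_lit 96422) (.g (nat_lit 1353) (.e (nat_lit 2779) (nat_lit 178) (.e (nat_lit 286735) (nat_lit 3) (.e (nat_lit 98389) (nat_lit 33) (.e (nat_lit 491546) (nat_lit 9) .nil)))) .nil)) 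
(.lf (nat_lit 96486) (.g (nat_lit 3545) (.e (nat_lit 2781) (nat_lit 178) (.e (nat_lit 286759) (nat_lit 12) (.e (nat_lit 385074) (nat_lit 31) (.e (nat_lit 573487) (nat_lit 14) .nil)))) .nil)))) (.nd (nat_lit 5) (.nd (nat_lit 6) 
(.lf (nat_lit 96406) (.g (nat_lit 3407) (.e (nat_lit 2779) (nat_lit 178) (.e (nat_lit 286735) (nat_lit 3) (.e (nat_lit 98350) (nat_lit 24) (.e (nat_lit 409642) (nat_lit 17) .nil)))) .nil)) 
(.lf (nat_lit 96470) (.g (nat_lit 994) (.e (nat_lit 2781) (nat_lit 178) (.e (nat_lit 286735) (nat_lit 3) (.e (nat_lit 98325) (nat_lit 17) .nil))) .nil))) (.nd (nat_lit 6) 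
(.lf (nat_lit 96438) (.g (nat_lit 3020) (.e (nat_lit 2779) (nat_lit 178) (.e (nat_lit 286761) (nat_lit 13) (.e (nat_lit 393234) (nat_lit 17) (.e (nat_lit 7593) (nat_lit 407) (.e (nat_lit 73772) (nat_lit 24) .nil))))) .nil)) 
(.lf (nat_lit 96502) (.g (nat_lit 5768) (.e (nat_lit 2781) (nat_lit 178) (.e (nat_lit 286761) (nat_lit 13) (.e (nat_lit 393301) (nat_lit 27) (.e (nat_lit 491559) (nat_lit 10) (.e (nat_lit 344177) (nat_lit 43) .nil))))) .nil))))) (.nd (nat_lit 4) (.nd (nat_lit 5) (.nd (nat_lit 6) 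
(.lf (nat_lit 96398) (.g (nat_lit 1970) (.e (nat_lit 2779) (nat_lit 178) (.e (nat_lit 286735) (nat_lit 3) (.e (nat_lit 98350) (nat_lit 24) (.e (nat_lit 409617) (nat_lit 10) .nil)))) .nil)) 
(.lf (nat_lit 96462) (.g (nat_lit 1892) (.e (nat_lit 2781) (nat_lit 178) (.e (nat_lit 286733) (nat_lit 2) (.e (nat_lit 90165) (nat_lit 12) (.e (nat_lit 164210) (nat_lit 176) .nil)))) .nil))) (.nd (nat_lit 6) 
(.lf (nat_lit 96430) (.g (nat_lit 2249) (.e (nat_lit 2779) (nat_lit 178) (.e (nat_lit 286759) (nat_lit 12) (.e (nat_lit 385106) (nat_lit 50) (.e (nat_lit 786478) (nat_lit 29) .nil)))) .nil)) 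
(.lf (nat_lit 96494) (.g (nat_lit 2499) (.e (nat_lit 2781) (nat_lit 178) (.e (nat_lit 286761) (nat_lit 13) (.e (nat_lit 393234) (nat_lit 17) (.e (nat_lit 7591) (nat_lit 407) .nil)))) .nil)))) (.nd (nat_lit 5) (.nd (nat_lit 6) 
(.lf (nat_lit 96414) (.g (nat_lit 2403) (.e (nat_lit 2779) (nat_lit 178) (.e (nat_lit 286735) (nat_lit 3) (.e (nat_lit 98350) (nat_lit 24) (.e (nat_lit 409648) (nat_lit 18) (.e (nat_lit 303118) (nat_lit 3) .nil))))) .nil)) 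
(.lf (nat_lit 96478) (.g (nat_lit 2120) (.e (nat_lit 2781) (nat_lit 178) (.e (nat_lit 286735) (nat_lit 3) (.e (nat_lit 98350) (nat_lit 24) (.e (nat_lit 409640) (nat_lit 17) (.e (nat_lit 294928) (nat_lit 2) .nil))))) .nil))) (.nd (nat_lit 6) 
(.lf (nat_lit 96446) (.g (nat_lit 4862) (.e (nat_lit 2779) (nat_lit 178) (.e (nat_lit 286761) (nat_lit 13) (.e (nat_lit 393301) (nat_lit 27) (.e (nat_lit 491560) (nat_lit 10) (.e (nat_lit 344174) (nat_lit 42) .nil))))) .nil)) 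
(.lf (nat_lit 96510) (.g (nat_lit 2724) (.e (nat_lit 2782) (nat_lit 178) (.e (nat_lit 286734) (nat_lit 3) (.e (nat_lit 98350) (nat_lit 24) (.e (nat_lit 409616) (nat_lit 10) (.e (nat_lit 5355) (nat_lit 298) .nil))))) .nil)))))))) (.nd (nat_lit 1) (.nd (nat_lit 2) (.nd (nat_lit 3) (.nd (nat_lit 4) (.nd (nat_lit 5) (.nd (nat_lit 6) 
(.lf (nat_lit 96385) (.g (nat_lit 1955) (.e (nat_lit 2779) (nat_lit 178) (.e (nat_lit 286734) (nat_lit 3) (.e (nat_lit 98350) (nat_lit 24) (.e (nat_lit 409641) (nat_lit 17) .nil)))) .nil)) 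
(.lf (nat_lit 96449) (.g (nat_lit 2386) (.e (nat_lit 2780) (nat_lit 178) (.e (nat_lit 286735) (nat_lit 3) (.e (nat_lit 98350) (nat_lit 24) (.e (nat_lit 409617) (nat_lit 10) .nil)))) .nil))) (.nd (nat_lit 6) 
(.lf (nat_lit 96417) (.g (nat_lit 2367) (.e (nat_lit 2779) (nat_lit 178) (.e (nat_lit 286735) (nat_lit 3) (.e (nat_lit 98350) (nat_lit 24) (.e (nat_lit 409649) (nat_lit 18) (.e (nat_lit 303118) (nat_lit 3) .nil))))) .nil)) 
(.lf (nat_lit 96481) (.g (nat_lit 1855) (.e (nat_lit 2781) (nat_lit 178) (.e (nat_lit 286735) (nat_lit 3) (.e (nat_lit 98388) (nat_lit 33) (.e (nat_lit 491546) (nat_lit 9) .nil)))) .nil)))) (.nd (nat_lit 5) (.nd (nat_lit 6) 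
(.lf (nat_lit 96401) (.g (nat_lit 2278) (.e (nat_lit 2779) (nat_lit 178) (.e (nat_lit 286735) (nat_lit 3) (.e (nat_lit 98350) (nat_lit 24) (.e (nat_lit 417536) (nat_lit 16) .nil)))) .nil)) 
(.lf (nat_lit 96465) (.g (nat_lit 1669) (.e (nat_lit 2781) (nat_lit 178) (.e (nat_lit 286733) (nat_lit 2) (.e (nat_lit 90165) (nat_lit 12) (.e (nat_lit 171776) (nat_lit 191) .nil)))) .nil))) (.nd (nat_lit 6) 
(.lf (nat_lit 96433) (.g (nat_lit 2523) (.e (nat_lit 2779) (nat_lit 178) (.e (nat_lit 286761) (nat_lit 13) (.e (nat_lit 393234) (nat_lit 17) (.e (nat_lit 7591) (nat_lit 407) .nil)))) .nil)) 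
(.lf (nat_lit 96497) (.g (nat_lit 3979) (.e (nat_lit 2781) (nat_lit 178) (.e (nat_lit 286761) (nat_lit 13) (.e (nat_lit 393301) (nat_lit 27) (.e (nat_lit 491558) (nat_lit 10) .nil)))) .nil))))) (.nd (nat_lit 4) (.nd (nat_lit 5) (.nd (nat_lit 6) 
(.lf (nat_lit 96393) (.g (nat_lit 739) (.e (nat_lit 2779) (nat_lit 178) (.e (nat_lit 286735) (nat_lit 3) (.e (nat_lit 98350) (nat_lit 24) .nil))) .nil)) 
(.lf (nat_lit 96457) (.g (nat_lit 4318) (.e (nat_lit 2780) (nat_lit 178) (.e (nat_lit 286761) (nat_lit 13) (.e (nat_lit 393301) (nat_lit 27) (.e (nat_lit 491560) (nat_lit 10) .nil)))) .nil))) (.nd (nat_lit 6) 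
(.lf (nat_lit 96425) (.g (nat_lit 2474) (.e (nat_lit 2779) (nat_lit 178) (.e (nat_lit 286735) (nat_lit 3) (.e (nat_lit 98389) (nat_lit 33) (.e (nat_lit 491558) (nat_lit 10) (.e (nat_lit 344119) (nat_lit 21) .nil))))) .nil)) 
(.lf (nat_lit 96489) (.g (nat_lit 1742) (.e (nat_lit 2781) (nat_lit 178) (.e (nat_lit 286759) (nat_lit 12) (.e (nat_lit 385094) (nat_lit 49) (.e (nat_lit 778327) (nat_lit 6) .nil)))) .nil)))) (.nd (nat_lit 5) (.nd (nat_lit 6) 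
(.lf (nat_lit 96409) (.g (nat_lit 2669) (.e (nat_lit 2779) (nat_lit 178) (.e (nat_lit 286735) (nat_lit 3) (.e (nat_lit 98350) (nat_lit 24) (.e (nat_lit 409644) (nat_lit 18) (.e (nat_lit 303119) (nat_lit 3) (.e (nat_lit 204819) (nat_lit 17) (.e (nat_lit 6113) (nat_lit 332) .nil))))))) (.g (nat_lit 4) .nil .nil))) 
(.lf (nat_lit 96473) (.g (nat_lit 4286) (.e (nat_lit 2781) (nat_lit 178) (.e (nat_lit 286735) (nat_lit 3) (.e (nat_lit 98350) (nat_lit 24) (.e (nat_lit 409616) (nat_lit 10) (.e (nat_lit 5355) (nat_lit 298) (.e (nat_lit 1235) (nat_lit 91) (.e (nat_lit 90165) (nat_lit 12) (.e (nat_lit 164208) (nat_lit 176) .nil)))))))) (.g (nat_lit 7) .nil .nil)))) (.nd (nat_lit 6) 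
(.lf (nat_lit 96441) (.g (nat_lit 4965) (.e (nat_lit 2779) (nat_lit 178) (.e (nat_lit 286761) (nat_lit 13) (.e (nat_lit 393301) (nat_lit 27) (.e (nat_lit 491558) (nat_lit 10) (.e (nat_lit 344174) (nat_lit 42) .nil))))) .nil)) 
(.lf (nat_lit 96505) (.g (nat_lit 4965) (.e (nat_lit 2781) (nat_lit 178) (.e (nat_lit 286761) (nat_lit 13) (.e (nat_lit 393301) (nat_lit 27) (.e (nat_lit 491560) (nat_lit 10) (.e (nat_lit 344097) (nat_lit 18) (.e (nat_lit 7144) (nat_lit 382) (.e (nat_lit 12) (nat_lit 0) .nil))))))) (.g (nat_lit 4) .nil .nil))))))) (.nd (nat_lit 3) (.nd (nat_lit 4) (.nd (nat_lit 5) (.nd (nat_lit 6) 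
(.lf (nat_lit 96389) (.g (nat_lit 1867) (.e (nat_lit 2779) (nat_lit 178) (.e (nat_lit 286735) (nat_lit 3) (.e (nat_lit 98323) (nat_lit 17) (.e (nat_lit 7936) (nat_lit 407) .nil)))) .nil)) 
(.lf (nat_lit 96453) (.g (nat_lit 2489) (.e (nat_lit 2780) (nat_lit 178) (.e (nat_lit 286761) (nat_lit 13) (.e (nat_lit 393234) (nat_lit 17) (.e (nat_lit 7591) (nat_lit 407) .nil)))) .nil))) (.nd (nat_lit 6) 
(.lf (nat_lit 96421) (.g (nat_lit 2510) (.e (nat_lit 2779) (nat_lit 178) (.e (nat_lit 286735) (nat_lit 3) (.e (nat_lit 98388) (nat_lit 33) (.e (nat_lit 491560) (nat_lit 10) (.e (nat_lit 344117) (nat_lit 21) .nil))))) .nil)) 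
(.lf (nat_lit 96485) (.g (nat_lit 3033) (.e (nat_lit 2781) (nat_lit 178) (.e (nat_lit 286759) (nat_lit 12) (.e (nat_lit 385074) (nat_lit 31) (.e (nat_lit 573484) (nat_lit 13) .nil)))) .nil)))) (.nd (nat_lit 5) (.nd (nat_lit 6) 
(.lf (nat_lit 96405) (.g (nat_lit 4332) (.e (nat_lit 2779) (nat_lit 178) (.e (nat_lit 286735) (nat_lit 3) (.e (nat_lit 98350) (nat_lit 24) (.e (nat_lit 409641) (nat_lit 17) (.e (nat_lit 294931) (nat_lit 3) .nil))))) .nil)) 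
(.lf (nat_lit 96469) (.g (nat_lit 870) (.e (nat_lit 2781) (nat_lit 178) (.e (nat_lit 286735) (nat_lit 3) (.e (nat_lit 98320) (nat_lit 17) .nil))) .nil))) (.nd (nat_lit 6) 
(.lf (nat_lit 96437) (.g (nat_lit 3029) (.e (nat_lit 2779) (nat_lit 178) (.e (nat_lit 286761) (nat_lit 13) (.e (nat_lit 393234) (nat_lit 17) (.e (nat_lit 7593) (nat_lit 407) (.e (nat_lit 73729) (nat_lit 0) .nil))))) .nil)) 
(.lf (nat_lit 96501) (.g (nat_lit 4365) (.e (nat_lit 2781) (nat_lit 178) (.e (nat_lit 286761) (nat_lit 13) (.e (nat_lit 393301) (nat_lit 27) (.e (nat_lit 491559) (nat_lit 10) .nil)))) .nil))))) (.nd (nat_lit 4) (.nd (nat_lit 5) (.nd (nat_lit 6) 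
(.lf (nat_lit 96397) (.g (nat_lit 2817) (.e (nat_lit 2779) (nat_lit 178) (.e (nat_lit 286735) (nat_lit 3) (.e (nat_lit 98350) (nat_lit 24) (.e (nat_lit 409616) (nat_lit 10) (.e (nat_lit 7936) (nat_lit 298) .nil))))) .nil)) 
(.lf (nat_lit 96461) (.g (nat_lit 1920) (.e (nat_lit 2781) (nat_lit 178) (.e (nat_lit 286733) (nat_lit 2) (.e (nat_lit 90165) (nat_lit 12) (.e (nat_lit 164208) (nat_lit 176) .nil)))) .nil))) (.nd (nat_lit 6) 
(.lf (nat_lit 96429) (.g (nat_lit 1426) (.e (nat_lit 2779) (nat_lit 178) (.e (nat_lit 286759) (nat_lit 12) (.e (nat_lit 385094) (nat_lit 49) (.e (nat_lit 778327) (nat_lit 6) .nil)))) .nil)) 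
(.lf (nat_lit 96493) (.g (nat_lit 1649) (.e (nat_lit 2781) (nat_lit 178) (.e (nat_lit 286761) (nat_lit 13) (.e (nat_lit 393225) (nat_lit 9) (.e (nat_lit 335995) (nat_lit 1) .nil)))) .nil)))) (.nd (nat_lit 5) (.nd (nat_lit 6) 
(.lf (nat_lit 96413) (.g (nat_lit 2794) (.e (nat_lit 2779) (nat_lit 178) (.e (nat_lit 286735) (nat_lit 3) (.e (nat_lit 98350) (nat_lit 24) (.e (nat_lit 409647) (nat_lit 18) (.e (nat_lit 303119) (nat_lit 3) .nil))))) .nil)) 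
(.lf (nat_lit 96477) (.g (nat_lit 2396) (.e (nat_lit 2781) (nat_lit 178) (.e (nat_lit 286735) (nat_lit 3) (.e (nat_lit 98350) (nat_lit 24) (.e (nat_lit 417536) (nat_lit 16) (.e (nat_lit 286733) (nat_lit 2) (.e (nat_lit 90165) (nat_lit 12) (.e (nat_lit 164208) (nat_lit 176) .nil))))))) (.g (nat_lit 5) .nil .nil)))) (.nd (nat_lit 6) 
(.lf (nat_lit 96445) (.g (nat_lit 4770) (.e (nat_lit 2779) (nat_lit 178) (.e (nat_lit 286761) (nat_lit 13) (.e (nat_lit 393301) (nat_lit 27) (.e (nat_lit 491560) (nat_lit 10) (.e (nat_lit 344097) (nat_lit 18) .nil))))) .nil)) 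
(.lf (nat_lit 96509) (.g (nat_lit 948) (.e (nat_lit 2782) (nat_lit 178) (.e (nat_lit 286732) (nat_lit 2) (.e (nat_lit 90165) (nat_lit 12) .nil))) .nil))))))) (.nd (nat_lit 2) (.nd (nat_lit 3) (.nd (nat_lit 4) (.nd (nat_lit 5) (.nd (nat_lit 6) 
(.lf (nat_lit 96387) (.g (nat_lit 1919) (.e (nat_lit 2779) (nat_lit 178) (.e (nat_lit 286735) (nat_lit 3) (.e (nat_lit 98320) (nat_lit 17) (.e (nat_lit 7591) (nat_lit 407) (.e (nat_lit 73748) (nat_lit 3) .nil))))) .nil)) 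
(.lf (nat_lit 96451) (.g (nat_lit 915) (.e (nat_lit 2780) (nat_lit 178) (.e (nat_lit 286759) (nat_lit 12) (.e (nat_lit 385094) (nat_lit 49) .nil))) .nil))) (.nd (nat_lit 6) 
(.lf (nat_lit 96419) (.g (nat_lit 4677) (.e (nat_lit 2779) (nat_lit 178) (.e (nat_lit 286735) (nat_lit 3) (.e (nat_lit 98350) (nat_lit 24) (.e (nat_lit 409649) (nat_lit 18) (.e (nat_lit 303119) (nat_lit 3) (.e (nat_lit 204821) (nat_lit 17) (.e (nat_lit 6114) (nat_lit 332) .nil))))))) (.g (nat_lit 7) .nil .nil))) 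
(.lf (nat_lit 96483) (.g (nat_lit 3926) (.e (nat_lit 2781) (nat_lit 178) (.e (nat_lit 286735) (nat_lit 3) (.e (nat_lit 98389) (nat_lit 33) (.e (nat_lit 491546) (nat_lit 9) (.e (nat_lit 336028) (nat_lit 3) (.e (nat_lit 98325) (nat_lit 17) (.e (nat_lit 6986) (nat_lit 377) .nil))))))) (.g (nat_lit 7) .nil .nil))))) (.nd (nat_lit 5) (.nd (nat_lit 6) 
(.lf (nat_lit 96403) (.g (nat_lit 2857) (.e (nat_lit 2779) (nat_lit 178) (.e (nat_lit 286735) (nat_lit 3) (.e (nat_lit 98350) (nat_lit 24) (.e (nat_lit 409640) (nat_lit 17) (.e (nat_lit 294931) (nat_lit 3) .nil))))) .nil)) 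
(.lf (nat_lit 96467) (.g (nat_lit 1669) (.e (nat_lit 2781) (nat_lit 178) (.e (nat_lit 286733) (nat_lit 2) (.e (nat_lit 90165) (nat_lit 12) (.e (nat_lit 171776) (nat_lit 194) .nil)))) .nil))) (.nd (nat_lit 6) 
(.lf (nat_lit 96435) (.g (nat_lit 3191) (.e (nat_lit 2779) (nat_lit 178) (.e (nat_lit 286761) (nat_lit 13) (.e (nat_lit 393234) (nat_lit 17) (.e (nat_lit 7591) (nat_lit 407) (.e (nat_lit 73772) (nat_lit 24) .nil))))) .nil)) 
(.lf (nat_lit 96499) (.g (nat_lit 4897) (.e (nat_lit 2781) (nat_lit 178) (.e (nat_lit 286761) (nat_lit 13) (.e (nat_lit 393301) (nat_lit 27) (.e (nat_lit 491558) (nat_lit 10) (.e (nat_lit 344096) (nat_lit 18) .nil))))) .nil))))) (.nd (nat_lit 4) (.nd (nat_lit 5) (.nd (nat_lit 6) 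
(.lf (nat_lit 96395) (.g (nat_lit 3286) (.e (nat_lit 2779) (nat_lit 178) (.e (nat_lit 286735) (nat_lit 3) (.e (nat_lit 98350) (nat_lit 24) (.e (nat_lit 409616) (nat_lit 10) (.e (nat_lit 5355) (nat_lit 298) .nil))))) .nil)) 
(.lf (nat_lit 96459) (.g (nat_lit 1280) (.e (nat_lit 2781) (nat_lit 178) (.e (nat_lit 286731) (nat_lit 1) (.e (nat_lit 57681) (nat_lit 155) (.e (nat_lit 122916) (nat_lit 14) (.e (nat_lit 360192) (nat_lit 12) .nil))))) .nil))) (.nd (nat_lit 6) 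
(.lf (nat_lit 96427) (.g (nat_lit 2397) (.e (nat_lit 2779) (nat_lit 178) (.e (nat_lit 286735) (nat_lit 3) (.e (nat_lit 98389) (nat_lit 33) (.e (nat_lit 491560) (nat_lit 10) (.e (nat_lit 344118) (nat_lit 21) .nil))))) .nil)) 
(.lf (nat_lit 96491) (.g (nat_lit 1667) (.e (nat_lit 2781) (nat_lit 178) (.e (nat_lit 286759) (nat_lit 12) (.e (nat_lit 385106) (nat_lit 50) (.e (nat_lit 786481) (nat_lit 30) .nil)))) .nil)))) (.nd (nat_lit 5) (.nd (nat_lit 6) 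
(.lf (nat_lit 96411) (.g (nat_lit 3135) (.e (nat_lit 2779) (nat_lit 178) (.e (nat_lit 286735) (nat_lit 3) (.e (nat_lit 98350) (nat_lit 24) (.e (nat_lit 409646) (nat_lit 18) (.e (nat_lit 303119) (nat_lit 3) .nil))))) .nil)) 
(.lf (nat_lit 96475) (.g (nat_lit 3154) (.e (nat_lit 2781) (nat_lit 178) (.e (nat_lit 286735) (nat_lit 3) (.e (nat_lit 98350) (nat_lit 24) (.e (nat_lit 409617) (nat_lit 10) (.e (nat_lit 5355) (nat_lit 298) (.e (nat_lit 1234) (nat_lit 91) (.e (nat_lit 90165) (nat_lit 12) (.e (nat_lit 164208) (nat_lit 176) .nil)))))))) (.g (nat_lit 5) .nil .nil)))) (.nd (nat_lit 6) 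
(.lf (nat_lit 96443) (.g (nat_lit 5951) (.e (nat_lit 2779) (nat_lit 178) (.e (nat_lit 286761) (nat_lit 13) (.e (nat_lit 393301) (nat_lit 27) (.e (nat_lit 491559) (nat_lit 10) (.e (nat_lit 344177) (nat_lit 43) .nil))))) .nil)) 
(.lf (nat_lit 96507) (.g (nat_lit 3302) (.e (nat_lit 2782) (nat_lit 178) (.e (nat_lit 286723) (nat_lit 0) (.e (nat_lit 1774) (nat_lit 118) (.e (nat_lit 507923) (nat_lit 6) (.e (nat_lit 286747) (nat_lit 9) (.e (nat_lit 336013) (nat_lit 2) (.e (nat_lit 90165) (nat_lit 12) (.e (nat_lit 164208) (nat_lit 176) .nil)))))))) (.g (nat_lit 7) .nil .nil))))))) 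
(.nd (nat_lit 3) (.nd (nat_lit 4) (.nd (nat_lit 5) (.nd (nat_lit 6) 
(.lf (nat_lit 96391) (.g (nat_lit 1995) (.e (nat_lit 2779) (nat_lit 178) (.e (nat_lit 286735) (nat_lit 3) (.e (nat_lit 98349) (nat_lit 24) (.e (nat_lit 409640) (nat_lit 17) .nil)))) .nil)) 
(.lf (nat_lit 96455) (.g (nat_lit 4611) (.e (nat_lit 2780) (nat_lit 178) (.e (nat_lit 286761) (nat_lit 13) (.e (nat_lit 393301) (nat_lit 27) (.e (nat_lit 491558) (nat_lit 10) .nil)))) .nil))) (.nd (nat_lit 6) 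
(.lf (nat_lit 96423) (.g (nat_lit 3858) (.e (nat_lit 2779) (nat_lit 178) (.e (nat_lit 286735) (nat_lit 3) (.e (nat_lit 98389) (nat_lit 33) (.e (nat_lit 491546) (nat_lit 9) (.e (nat_lit 336013) (nat_lit 2) (.e (nat_lit 90165) (nat_lit 12) (.e (nat_lit 164208) (nat_lit 176) .nil))))))) (.g (nat_lit 7) .nil .nil))) 
(.lf (nat_lit 96487) (.g (nat_lit 2037) (.e (nat_lit 2781) (nat_lit 178) (.e (nat_lit 286759) (nat_lit 12) (.e (nat_lit 385094) (nat_lit 49) (.e (nat_lit 778326) (nat_lit 6) .nil)))) .nil)))) (.nd (nat_lit 5) (.nd (nat_lit 6) 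
(.lf (nat_lit 96407) (.g (nat_lit 2344) (.e (nat_lit 2779) (nat_lit 178) (.e (nat_lit 286735) (nat_lit 3) (.e (nat_lit 98350) (nat_lit 24) (.e (nat_lit 409643) (nat_lit 18) (.e (nat_lit 303119) (nat_lit 3) .nil))))) .nil)) 
(.lf (nat_lit 96471) (.g (nat_lit 2477) (.e (nat_lit 2781) (nat_lit 178) (.e (nat_lit 286735) (nat_lit 3) (.e (nat_lit 98325) (nat_lit 17) (.e (nat_lit 6986) (nat_lit 377) (.e (nat_lit 2781) (nat_lit 178) .nil))))) .nil))) (.nd (nat_lit 6) 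
(.lf (nat_lit 96439) (.g (nat_lit 4056) (.e (nat_lit 2779) (nat_lit 178) (.e (nat_lit 286761) (nat_lit 13) (.e (nat_lit 393301) (nat_lit 27) (.e (nat_lit 491546) (nat_lit 9) .nil)))) .nil)) 
(.lf (nat_lit 96503) (.g (nat_lit 3866) (.e (nat_lit 2781) (nat_lit 178) (.e (nat_lit 286761) (nat_lit 13) (.e (nat_lit 393301) (nat_lit 27) (.e (nat_lit 491560) (nat_lit 10) .nil)))) .nil))))) (.nd (nat_lit 4) (.nd (nat_lit 5) (.nd (nat_lit 6) 
(.lf (nat_lit 96399) (.g (nat_lit 2881) (.e (nat_lit 2779) (nat_lit 178) (.e (nat_lit 286735) (nat_lit 3) (.e (nat_lit 98350) (nat_lit 24) (.e (nat_lit 409617) (nat_lit 10) (.e (nat_lit 5355) (nat_lit 298) .nil))))) .nil)) 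
(.lf (nat_lit 96463) (.g (nat_lit 2804) (.e (nat_lit 2781) (nat_lit 178) (.e (nat_lit 286733) (nat_lit 2) (.e (nat_lit 90165) (nat_lit 12) (.e (nat_lit 164210) (nat_lit 176) (.e (nat_lit 2787) (nat_lit 179) (.e (nat_lit 294928) (nat_lit 2) (.e (nat_lit 90165) (nat_lit 12) (.e (nat_lit 164208) (nat_lit 176) .nil)))))))) (.g (nat_lit 6) .nil .nil)))) (.nd (nat_lit 6) 
(.lf (nat_lit 96431) (.g (nat_lit 2238) (.e (nat_lit 2779) (nat_lit 178) (.e (nat_lit 286759) (nat_lit 12) (.e (nat_lit 385106) (nat_lit 50) (.e (nat_lit 786480) (nat_lit 29) .nil)))) .nil)) 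
(.lf (nat_lit 96495) (.g (nat_lit 2445) (.e (nat_lit 2781) (nat_lit 178) (.e (nat_lit 286761) (nat_lit 13) (.e (nat_lit 393234) (nat_lit 17) (.e (nat_lit 7593) (nat_lit 407) .nil)))) .nil)))) (.nd (nat_lit 5) (.nd (nat_lit 6) 
(.lf (nat_lit 96415) (.g (nat_lit 2458) (.e (nat_lit 2779) (nat_lit 178) (.e (nat_lit 286735) (nat_lit 3) (.e (nat_lit 98350) (nat_lit 24) (.e (nat_lit 409648) (nat_lit 18) (.e (nat_lit 303119) (nat_lit 3) .nil))))) .nil)) 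
(.lf (nat_lit 96479) (.g (nat_lit 4192) (.e (nat_lit 2781) (nat_lit 178) (.e (nat_lit 286735) (nat_lit 3) (.e (nat_lit 98350) (nat_lit 24) (.e (nat_lit 409642) (nat_lit 17) (.e (nat_lit 294928) (nat_lit 2) .nil))))) .nil))) (.nd (nat_lit 6) 
(.lf (nat_lit 96447) (.g (nat_lit 3180) (.e (nat_lit 2779) (nat_lit 178) (.e (nat_lit 286765) (nat_lit 15) (.e (nat_lit 3307) (nat_lit 202) (.e (nat_lit 573491) (nat_lit 15) (.e (nat_lit 81951) (nat_lit 22) .nil))))) .nil)) 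
(.lf (nat_lit 96511) (.g (nat_lit 2629) (.e (nat_lit 2782) (nat_lit 178) (.e (nat_lit 286734) (nat_lit 3) (.e (nat_lit 98350) (nat_lit 24) (.e (nat_lit 409617) (nat_lit 10) (.e (nat_lit 5355) (nat_lit 298) .nil))))) .nil)))))))))

noncomputable def tv1323 : DT := (.nd (nat_lit 0) (.nd (nat_lit 1) (.nd (nat_lit 2) (.nd (nat_lit 3) (.nd (nat_lit 4) (.nd (nat_lit 5) (.nd (nat_lit 6) 
(.lf (nat_lit 96512) (.g (nat_lit 3104) (.e (nat_lit 2782) (nat_lit 178) (.e (nat_lit 286734) (nat_lit 3) (.e (nat_lit 98350) (nat_lit 24) (.e (nat_lit 409641) (nat_lit 17) (.e (nat_lit 294928) (nat_lit 2) .nil))))) .nil)) 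
(.lf (nat_lit 96576) (.g (nat_lit 2271) (.e (nat_lit 2783) (nat_lit 179) (.e (nat_lit 294930) (nat_lit 3) (.e (nat_lit 98373) (nat_lit 29) (.e (nat_lit 450587) (nat_lit 10) (.e (nat_lit 573475) (nat_lit 12) .nil))))) .nil))) (.nd (nat_lit 6) 
(.lf (nat_lit 96544) (.g (nat_lit 2283) (.e (nat_lit 7936) (nat_lit 178) (.e (nat_lit 286761) (nat_lit 13) (.e (nat_lit 393301) (nat_lit 27) (.e (nat_lit 491558) (nat_lit 10) .nil)))) .nil)) 
(.lf (nat_lit 96608) (.g (nat_lit 1218) (.e (nat_lit 2783) (nat_lit 179) (.e (nat_lit 294960) (nat_lit 13) (.e (nat_lit 393260) (nat_lit 21) (.e (nat_lit 409644) (nat_lit 18) .nil)))) .nil)))) (.nd (nat_lit 5) (.nd (nat_lit 6) 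
(.lf (nat_lit 96528) (.g (nat_lit 1419) (.e (nat_lit 7936) (nat_lit 178) (.e (nat_lit 286759) (nat_lit 12) (.e (nat_lit 385074) (nat_lit 31) (.e (nat_lit 573485) (nat_lit 13) .nil)))) .nil)) 
(.lf (nat_lit 96592) (.g (nat_lit 4119) (.e (nat_lit 2783) (nat_lit 179) (.e (nat_lit 294958) (nat_lit 13) (.e (nat_lit 393301) (nat_lit 27) (.e (nat_lit 491559) (nat_lit 10) (.e (nat_lit 344177) (nat_lit 43) (.e (nat_lit 770052) (nat_lit 0) .nil)))))) (.g (nat_lit 5) .nil .nil)))) (.nd (nat_lit 6) 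
(.lf (nat_lit 96560) (.g (nat_lit 1934) (.e (nat_lit 7936) (nat_lit 178) (.e (nat_lit 286761) (nat_lit 13) (.e (nat_lit 393301) (nat_lit 27) (.e (nat_lit 491560) (nat_lit 10) .nil)))) .nil)) 
(.lf (nat_lit 96624) (.g (nat_lit 2267) (.e (nat_lit 2783) (nat_lit 179) (.e (nat_lit 294960) (nat_lit 13) (.e (nat_lit 393260) (nat_lit 21) (.e (nat_lit 409649) (nat_lit 18) (.e (nat_lit 303114) (nat_lit 1) (.e (nat_lit 164151) (nat_lit 152) (.e (nat_lit 26) (nat_lit 0) .nil))))))) (.g (nat_lit 4) .nil .nil)))))) (.nd (nat_lit 4) (.nd (nat_lit 5) (.nd (nat_lit 6) 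
(.lf (nat_lit 96520) (.g (nat_lit 365) (.e (nat_lit 7936) (nat_lit 178) (.e (nat_lit 286731) (nat_lit 1) (.e (nat_lit 57684) (nat_lit 155) .nil))) .nil)) 
(.lf (nat_lit 96584) (.g (nat_lit 2367) (.e (nat_lit 2783) (nat_lit 179) (.e (nat_lit 294957) (nat_lit 13) (.e (nat_lit 393301) (nat_lit 27) (.e (nat_lit 491560) (nat_lit 10) (.e (nat_lit 344173) (nat_lit 42) (.e (nat_lit 761857) (nat_lit 0) .nil)))))) (.g (nat_lit 5) .nil .nil)))) (.nd (nat_lit 6) 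
(.lf (nat_lit 96552) (.g (nat_lit 3678) (.e (nat_lit 7936) (nat_lit 178) (.e (nat_lit 286761) (nat_lit 13) (.e (nat_lit 393301) (nat_lit 27) (.e (nat_lit 491558) (nat_lit 10) (.e (nat_lit 344176) (nat_lit 43) .nil))))) .nil)) 
(.lf (nat_lit 96616) (.g (nat_lit 2283) (.e (nat_lit 2783) (nat_lit 179) (.e (nat_lit 294960) (nat_lit 13) (.e (nat_lit 393260) (nat_lit 21) (.e (nat_lit 409648) (nat_lit 18) (.e (nat_lit 303107) (nat_lit 0) (.e (nat_lit 3459) (nat_lit 216) (.e (nat_lit 688129) (nat_lit 0) .nil))))))) (.g (nat_lit 5) .nil .nil))))) (.nd (nat_lit 5) (.nd (nat_lit 6) 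
(.lf (nat_lit 96536) (.g (nat_lit 2107) (.e (nat_lit 7936) (nat_lit 178) (.e (nat_lit 286759) (nat_lit 12) (.e (nat_lit 385106) (nat_lit 50) (.e (nat_lit 786478) (nat_lit 29) (.e (nat_lit 360192) (nat_lit 4) .nil))))) .nil)) 
(.lf (nat_lit 96600) (.g (nat_lit 800) (.e (nat_lit 2783) (nat_lit 179) (.e (nat_lit 294960) (nat_lit 13) (.e (nat_lit 393221) (nat_lit 0) (.e (nat_lit 6209) (nat_lit 333) .nil)))) .nil))) (.nd (nat_lit 6) 
(.lf (nat_lit 96568) (.g (nat_lit 3442) (.e (nat_lit 7936) (nat_lit 178) (.e (nat_lit 286761) (nat_lit 13) (.e (nat_lit 393301) (nat_lit 27) (.e (nat_lit 491560) (nat_lit 10) (.e (nat_lit 344099) (nat_lit 18) .nil))))) .nil)) 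
(.lf (nat_lit 96632) (.g (nat_lit 2262) (.e (nat_lit 2786) (nat_lit 179) (.e (nat_lit 294928) (nat_lit 2) (.e (nat_lit 90165) (nat_lit 12) (.e (nat_lit 164210) (nat_lit 176) (.e (nat_lit 2786) (nat_lit 179) (.e (nat_lit 294928) (nat_lit 2) (.e (nat_lit 90165) (nat_lit 12) (.e (nat_lit 164210) (nat_lit 176) .nil)))))))) (.g (nat_lit 7) .nil .nil))))))) 
(.nd (nat_lit 3) (.nd (nat_lit 4) (.nd (nat_lit 5) (.nd (nat_lit 6) 
(.lf (nat_lit 96516) (.g (nat_lit 331) (.e (nat_lit 7936) (nat_lit 178) (.e (nat_lit 286731) (nat_lit 1) (.e (nat_lit 57655) (nat_lit 152) .nil))) .nil)) 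
(.lf (nat_lit 96580) (.g (nat_lit 2274) (.e (nat_lit 2783) (nat_lit 179) (.e (nat_lit 294941) (nat_lit 9) (.e (nat_lit 336369) (nat_lit 27) (.e (nat_lit 426173) (nat_lit 7) (.e (nat_lit 409649) (nat_lit 18) (.e (nat_lit 303111) (nat_lit 0) (.e (nat_lit 3469) (nat_lit 217) (.e (nat_lit 696320) (nat_lit 0) .nil)))))))) (.g (nat_lit 5) .nil .nil)))) (.nd (nat_lit 6) 
(.lf (nat_lit 96548) (.g (nat_lit 3192) (.e (nat_lit 7936) (nat_lit 178) (.e (nat_lit 286761) (nat_lit 13) (.e (nat_lit 393301) (nat_lit 27) (.e (nat_lit 491558) (nat_lit 10) (.e (nat_lit 344095) (nat_lit 18) .nil))))) .nil)) 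
(.lf (nat_lit 96612) (.g (nat_lit 3020) (.e (nat_lit 2783) (nat_lit 179) (.e (nat_lit 294960) (nat_lit 13) (.e (nat_lit 393260) (nat_lit 21) (.e (nat_lit 409646) (nat_lit 18) (.e (nat_lit 303115) (nat_lit 1) (.e (nat_lit 164151) (nat_lit 152) (.e (nat_lit 26) (nat_lit 0) .nil))))))) (.g (nat_lit 6) .nil .nil))))) (.nd (nat_lit 5) (.nd (nat_lit 6) 
(.lf (nat_lit 96532) (.g (nat_lit 1126) (.e (nat_lit 7936) (nat_lit 178) (.e (nat_lit 286759) (nat_lit 12) (.e (nat_lit 385094) (nat_lit 49) (.e (nat_lit 778327) (nat_lit 6) .nil)))) .nil)) 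
(.lf (nat_lit 96596) (.g (nat_lit 1551) (.e (nat_lit 2783) (nat_lit 179) (.e (nat_lit 294959) (nat_lit 13) (.e (nat_lit 393260) (nat_lit 21) (.e (nat_lit 409648) (nat_lit 18) (.e (nat_lit 303104) (nat_lit 0) (.e (nat_lit 3459) (nat_lit 216) (.e (nat_lit 688129) (nat_lit 0) .nil))))))) (.g (nat_lit 4) .nil .nil)))) (.nd (nat_lit 6) 
(.lf (nat_lit 96564) (.g (nat_lit 4068) (.e (nat_lit 7936) (nat_lit 178) (.e (nat_lit 286761) (nat_lit 13) (.e (nat_lit 393301) (nat_lit 27) (.e (nat_lit 491560) (nat_lit 10) (.e (nat_lit 344093) (nat_lit 18) .nil))))) .nil)) 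
(.lf (nat_lit 96628) (.g (nat_lit 3727) (.e (nat_lit 2784) (nat_lit 179) (.e (nat_lit 294957) (nat_lit 13) (.e (nat_lit 393301) (nat_lit 27) (.e (nat_lit 491560) (nat_lit 10) (.e (nat_lit 344097) (nat_lit 18) (.e (nat_lit 7144) (nat_lit 382) (.e (nat_lit 23) (nat_lit 0) .nil))))))) (.g (nat_lit 6) .nil .nil)))))) (.nd (nat_lit 4) (.nd (nat_lit 5) (.nd (nat_lit 6) 
(.lf (nat_lit 96524) (.g (nat_lit 3035) (.e (nat_lit 7936) (nat_lit 178) (.e (nat_lit 286735) (nat_lit 3) (.e (nat_lit 98373) (nat_lit 29) (.e (nat_lit 450588) (nat_lit 10) (.e (nat_lit 573473) (nat_lit 12) .nil))))) .nil)) 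
(.lf (nat_lit 96588) (.g (nat_lit 2915) (.e (nat_lit 2783) (nat_lit 179) (.e (nat_lit 294958) (nat_lit 13) (.e (nat_lit 393301) (nat_lit 27) (.e (nat_lit 491558) (nat_lit 10) (.e (nat_lit 344174) (nat_lit 42) (.e (nat_lit 761860) (nat_lit 0) .nil)))))) (.g (nat_lit 4) .nil .nil)))) (.nd (nat_lit 6) 
(.lf (nat_lit 96556) (.g (nat_lit 5139) (.e (nat_lit 7936) (nat_lit 178) (.e (nat_lit 286761) (nat_lit 13) (.e (nat_lit 393301) (nat_lit 27) (.e (nat_lit 491559) (nat_lit 10) (.e (nat_lit 344097) (nat_lit 18) .nil))))) .nil)) 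
(.lf (nat_lit 96620) (.g (nat_lit 1263) (.e (nat_lit 2783) (nat_lit 179) (.e (nat_lit 294960) (nat_lit 13) (.e (nat_lit 393260) (nat_lit 21) (.e (nat_lit 409649) (nat_lit 18) .nil)))) .nil)))) (.nd (nat_lit 5) (.nd (nat_lit 6) 
(.lf (nat_lit 96540) (.g (nat_lit 1077) (.e (nat_lit 7936) (nat_lit 178) (.e (nat_lit 286761) (nat_lit 13) (.e (nat_lit 393234) (nat_lit 17) (.e (nat_lit 7591) (nat_lit 407) .nil)))) .nil)) 
(.lf (nat_lit 96604) (.g (nat_lit 349) (.e (nat_lit 2783) (nat_lit 179) (.e (nat_lit 294960) (nat_lit 13) (.e (nat_lit 393260) (nat_lit 21) .nil))) .nil))) (.nd (nat_lit 6) 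
(.lf (nat_lit 96572) (.g (nat_lit 1569) (.e (nat_lit 7936) (nat_lit 178) (.e (nat_lit 286762) (nat_lit 14) (.e (nat_lit 401459) (nat_lit 13) (.e (nat_lit 483380) (nat_lit 23) .nil)))) .nil)) 
(.lf (nat_lit 96636) (.g (nat_lit 2260) (.e (nat_lit 2786) (nat_lit 179) (.e (nat_lit 294957) (nat_lit 13) (.e (nat_lit 393301) (nat_lit 27) (.e (nat_lit 491560) (nat_lit 10) (.e (nat_lit 344173) (nat_lit 42) .nil))))) .nil))))))) (.nd (nat_lit 2) (.nd (nat_lit 3) (.nd (nat_lit 4) (.nd (nat_lit 5) (.nd (nat_lit 6) 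
(.lf (nat_lit 96514) (.g (nat_lit 3729) (.e (nat_lit 2782) (nat_lit 178) (.e (nat_lit 286734) (nat_lit 3) (.e (nat_lit 98389) (nat_lit 33) (.e (nat_lit 491546) (nat_lit 9) (.e (nat_lit 336028) (nat_lit 3) (.e (nat_lit 98325) (nat_lit 17) (.e (nat_lit 6986) (nat_lit 377) .nil))))))) (.g (nat_lit 7) .nil .nil))) 
(.lf (nat_lit 96578) (.g (nat_lit 2380) (.e (nat_lit 2783) (nat_lit 179) (.e (nat_lit 294931) (nat_lit 3) (.e (nat_lit 98373) (nat_lit 29) (.e (nat_lit 450587) (nat_lit 10) (.e (nat_lit 573475) (nat_lit 12) (.e (nat_lit 57572) (nat_lit 54) (.e (nat_lit 770048) (nat_lit 0) .nil))))))) (.g (nat_lit 4) .nil .nil)))) (.nd (nat_lit 6) 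
(.lf (nat_lit 96546) (.g (nat_lit 3157) (.e (nat_lit 7936) (nat_lit 178) (.e (nat_lit 286761) (nat_lit 13) (.e (nat_lit 393301) (nat_lit 27) (.e (nat_lit 491558) (nat_lit 10) (.e (nat_lit 344091) (nat_lit 18) .nil))))) .nil)) 
(.lf (nat_lit 96610) (.g (nat_lit 1252) (.e (nat_lit 2783) (nat_lit 179) (.e (nat_lit 294960) (nat_lit 13) (.e (nat_lit 393260) (nat_lit 21) (.e (nat_lit 409646) (nat_lit 18) .nil)))) .nil)))) (.nd (nat_lit 5) (.nd (nat_lit 6) 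
(.lf (nat_lit 96530) (.g (nat_lit 1273) (.e (nat_lit 7936) (nat_lit 178) (.e (nat_lit 286759) (nat_lit 12) (.e (nat_lit 385094) (nat_lit 49) (.e (nat_lit 778326) (nat_lit 6) .nil)))) .nil)) 
(.lf (nat_lit 96594) (.g (nat_lit 2652) (.e (nat_lit 2783) (nat_lit 179) (.e (nat_lit 294958) (nat_lit 13) (.e (nat_lit 393301) (nat_lit 27) (.e (nat_lit 491560) (nat_lit 10) (.e (nat_lit 344174) (nat_lit 42) .nil))))) .nil))) (.nd (nat_lit 6) 
(.lf (nat_lit 96562) (.g (nat_lit 3431) (.e (nat_lit 7936) (nat_lit 178) (.e (nat_lit 286761) (nat_lit 13) (.e (nat_lit 393301) (nat_lit 27) (.e (nat_lit 491560) (nat_lit 10) (.e (nat_lit 344090) (nat_lit 18) .nil))))) .nil)) 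
(.lf (nat_lit 96626) (.g (nat_lit 1340) (.e (nat_lit 2783) (nat_lit 179) (.e (nat_lit 294960) (nat_lit 13) (.e (nat_lit 393260) (nat_lit 21) (.e (nat_lit 417536) (nat_lit 18) (.e (nat_lit 303112) (nat_lit 0) (.e (nat_lit 2478) (nat_lit 157) (.e (nat_lit 6273) (nat_lit 337) (.e (nat_lit 26) (nat_lit 0) .nil)))))))) (.g (nat_lit 5) .nil .nil)))))) (.nd (nat_lit 4) (.nd (nat_lit 5) (.nd (nat_lit 6) 
(.lf (nat_lit 96522) (.g (nat_lit 456) (.e (nat_lit 7936) (nat_lit 178) (.e (nat_lit 286735) (nat_lit 3) (.e (nat_lit 98350) (nat_lit 24) .nil))) .nil)) 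
(.lf (nat_lit 96586) (.g (nat_lit 1720) (.e (nat_lit 2783) (nat_lit 179) (.e (nat_lit 294958) (nat_lit 13) (.e (nat_lit 393301) (nat_lit 27) (.e (nat_lit 491546) (nat_lit 9) .nil)))) .nil))) (.nd (nat_lit 6) 
(.lf (nat_lit 96554) (.g (nat_lit 5125) (.e (nat_lit 7936) (nat_lit 178) (.e (nat_lit 286761) (nat_lit 13) (.e (nat_lit 393301) (nat_lit 27) (.e (nat_lit 491559) (nat_lit 10) (.e (nat_lit 344093) (nat_lit 18) .nil))))) .nil)) 
(.lf (nat_lit 96618) (.g (nat_lit 2568) (.e (nat_lit 2783) (nat_lit 179) (.e (nat_lit 294960) (nat_lit 13) (.e (nat_lit 393260) (nat_lit 21) (.e (nat_lit 409648) (nat_lit 18) (.e (nat_lit 303114) (nat_lit 1) (.e (nat_lit 164151) (nat_lit 152) (.e (nat_lit 26) (nat_lit 0) .nil))))))) (.g (nat_lit 6) .nil .nil))))) (.nd (nat_lit 5) (.nd (nat_lit 6) 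
(.lf (nat_lit 96538) (.g (nat_lit 1603) (.e (nat_lit 7936) (nat_lit 178) (.e (nat_lit 286759) (nat_lit 12) (.e (nat_lit 385106) (nat_lit 50) (.e (nat_lit 786481) (nat_lit 30) (.e (nat_lit 360486) (nat_lit 18) .nil))))) .nil)) 
(.lf (nat_lit 96602) (.g (nat_lit 362) (.e (nat_lit 2783) (nat_lit 179) (.e (nat_lit 294960) (nat_lit 13) (.e (nat_lit 393232) (nat_lit 17) .nil))) .nil))) (.nd (nat_lit 6) 
(.lf (nat_lit 96570) (.g (nat_lit 3413) (.e (nat_lit 7936) (nat_lit 178) (.e (nat_lit 286761) (nat_lit 13) (.e (nat_lit 393301) (nat_lit 27) (.e (nat_lit 491560) (nat_lit 10) (.e (nat_lit 344174) (nat_lit 42) .nil))))) .nil)) 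
(.lf (nat_lit 96634) (.g (nat_lit 2297) (.e (nat_lit 2786) (nat_lit 179) (.e (nat_lit 294931) (nat_lit 3) (.e (nat_lit 98350) (nat_lit 24) (.e (nat_lit 409616) (nat_lit 10) (.e (nat_lit 7936) (nat_lit 298) .nil))))) .nil)))))) (.nd (nat_lit 3) (.nd (nat_lit 4) (.nd (nat_lit 5) (.nd (nat_lit 6) 
(.lf (nat_lit 96518) (.g (nat_lit 1552) (.e (nat_lit 7936) (nat_lit 178) (.e (nat_lit 286731) (nat_lit 1) (.e (nat_lit 57681) (nat_lit 155) (.e (nat_lit 122914) (nat_lit 14) (.e (nat_lit 360192) (nat_lit 12) .nil))))) .nil)) 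
(.lf (nat_lit 96582) (.g (nat_lit 1453) (.e (nat_lit 2783) (nat_lit 179) (.e (nat_lit 294955) (nat_lit 12) (.e (nat_lit 385105) (nat_lit 50) (.e (nat_lit 786480) (nat_lit 29) (.e (nat_lit 352270) (nat_lit 8) (.e (nat_lit 262175) (nat_lit 14) .nil)))))) (.g (nat_lit 5) .nil .nil)))) (.nd (nat_lit 6) 
(.lf (nat_lit 96550) (.g (nat_lit 3165) (.e (nat_lit 7936) (nat_lit 178) (.e (nat_lit 286761) (nat_lit 13) (.e (nat_lit 393301) (nat_lit 27) (.e (nat_lit 491558) (nat_lit 10) (.e (nat_lit 344097) (nat_lit 18) .nil))))) .nil)) 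
(.lf (nat_lit 96614) (.g (nat_lit 1283) (.e (nat_lit 2783) (nat_lit 179) (.e (nat_lit 294960) (nat_lit 13) (.e (nat_lit 393260) (nat_lit 21) (.e (nat_lit 409648) (nat_lit 18) .nil)))) .nil)))) (.nd (nat_lit 5) (.nd (nat_lit 6) 
(.lf (nat_lit 96534) (.g (nat_lit 294) (.e (nat_lit 7936) (nat_lit 178) (.e (nat_lit 286759) (nat_lit 12) (.e (nat_lit 385106) (nat_lit 50) .nil))) .nil)) 
(.lf (nat_lit 96598) (.g (nat_lit 2090) (.e (nat_lit 2783) (nat_lit 179) (.e (nat_lit 294959) (nat_lit 13) (.e (nat_lit 393260) (nat_lit 21) (.e (nat_lit 409649) (nat_lit 18) (.e (nat_lit 303107) (nat_lit 0) (.e (nat_lit 3459) (nat_lit 216) (.e (nat_lit 688131) (nat_lit 0) .nil))))))) (.g (nat_lit 4) .nil .nil)))) (.nd (nat_lit 6) 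
(.lf (nat_lit 96566) (.g (nat_lit 3614) (.e (nat_lit 7936) (nat_lit 178) (.e (nat_lit 286761) (nat_lit 13) (.e (nat_lit 393301) (nat_lit 27) (.e (nat_lit 491560) (nat_lit 10) (.e (nat_lit 344096) (nat_lit 18) .nil))))) .nil)) 
(.lf (nat_lit 96630) (.g (nat_lit 1599) (.e (nat_lit 2786) (nat_lit 179) (.e (nat_lit 294927) (nat_lit 2) (.e (nat_lit 90165) (nat_lit 12) (.e (nat_lit 164210) (nat_lit 176) (.e (nat_lit 2786) (nat_lit 179) (.e (nat_lit 294928) (nat_lit 2) (.e (nat_lit 90165) (nat_lit 12) (.e (nat_lit 164210) (nat_lit 176) .nil)))))))) (.g (nat_lit 6) .nil .nil)))))) 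
(.nd (nat_lit 4) (.nd (nat_lit 5) (.nd (nat_lit 6) 
(.lf (nat_lit 96526) (.g (nat_lit 486) (.e (nat_lit 7936) (nat_lit 178) (.e (nat_lit 286759) (nat_lit 12) (.e (nat_lit 392960) (nat_lit 24) .nil))) .nil)) 
(.lf (nat_lit 96590) (.g (nat_lit 4345) (.e (nat_lit 2783) (nat_lit 179) (.e (nat_lit 294958) (nat_lit 13) (.e (nat_lit 393301) (nat_lit 27) (.e (nat_lit 491559) (nat_lit 10) (.e (nat_lit 344177) (nat_lit 43) (.e (nat_lit 770048) (nat_lit 0) .nil)))))) (.g (nat_lit 6) .nil .nil)))) (.nd (nat_lit 6) 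
(.lf (nat_lit 96558) (.g (nat_lit 5122) (.e (nat_lit 7936) (nat_lit 178) (.e (nat_lit 286761) (nat_lit 13) (.e (nat_lit 393301) (nat_lit 27) (.e (nat_lit 491559) (nat_lit 10) (.e (nat_lit 344174) (nat_lit 42) .nil))))) .nil)) 
(.lf (nat_lit 96622) (.g (nat_lit 2460) (.e (nat_lit 2783) (nat_lit 179) (.e (nat_lit 294960) (nat_lit 13) (.e (nat_lit 393260) (nat_lit 21) (.e (nat_lit 409649) (nat_lit 18) (.e (nat_lit 303111) (nat_lit 0) .nil))))) .nil)))) (.nd (nat_lit 5) (.nd (nat_lit 6) 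
(.lf (nat_lit 96542) (.g (nat_lit 1660) (.e (nat_lit 7936) (nat_lit 178) (.e (nat_lit 286761) (nat_lit 13) (.e (nat_lit 393234) (nat_lit 17) (.e (nat_lit 7593) (nat_lit 407) (.e (nat_lit 73772) (nat_lit 24) .nil))))) .nil)) 
(.lf (nat_lit 96606) (.g (nat_lit 1386) (.e (nat_lit 2783) (nat_lit 179) (.e (nat_lit 294960) (nat_lit 13) (.e (nat_lit 393260) (nat_lit 21) (.e (nat_lit 409643) (nat_lit 18) .nil)))) .nil))) (.nd (nat_lit 6) 
(.lf (nat_lit 96574) (.g (nat_lit 1470) (.e (nat_lit 2783) (nat_lit 179) (.e (nat_lit 294930) (nat_lit 3) (.e (nat_lit 106240) (nat_lit 16) (.e (nat_lit 401459) (nat_lit 13) (.e (nat_lit 483333) (nat_lit 0) (.e (nat_lit 6977) (nat_lit 377) .nil)))))) (.g (nat_lit 5) .nil .nil))) 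
(.lf (nat_lit 96638) (.g (nat_lit 2823) (.e (nat_lit 2786) (nat_lit 179) (.e (nat_lit 294958) (nat_lit 13) (.e (nat_lit 393301) (nat_lit 27) (.e (nat_lit 491558) (nat_lit 10) (.e (nat_lit 344174) (nat_lit 42) .nil))))) .nil)))))))) (.nd (nat_lit 1) (.nd (nat_lit 2) (.nd (nat_lit 3) (.nd (nat_lit 4) (.nd (nat_lit 5) (.nd (nat_lit 6) 
(.lf (nat_lit 96513) (.g (nat_lit 3760) (.e (nat_lit 2782) (nat_lit 178) (.e (nat_lit 286734) (nat_lit 3) (.e (nat_lit 98389) (nat_lit 33) (.e (nat_lit 491546) (nat_lit 9) (.e (nat_lit 336013) (nat_lit 2) (.e (nat_lit 90165) (nat_lit 12) (.e (nat_lit 164208) (nat_lit 176) .nil))))))) (.g (nat_lit 7) .nil .nil))) 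
(.lf (nat_lit 96577) (.g (nat_lit 3508) (.e (nat_lit 2783) (nat_lit 179) (.e (nat_lit 294931) (nat_lit 3) (.e (nat_lit 98373) (nat_lit 29) (.e (nat_lit 450587) (nat_lit 10) (.e (nat_lit 573475) (nat_lit 12) (.e (nat_lit 57571) (nat_lit 54) (.e (nat_lit 770052) (nat_lit 0) .nil))))))) (.g (nat_lit 7) .nil .nil)))) (.nd (nat_lit 6) 
(.lf (nat_lit 96545) (.g (nat_lit 3353) (.e (nat_lit 7936) (nat_lit 178) (.e (nat_lit 286761) (nat_lit 13) (.e (nat_lit 393301) (nat_lit 27) (.e (nat_lit 491558) (nat_lit 10) (.e (nat_lit 344090) (nat_lit 18) .nil))))) .nil)) 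
(.lf (nat_lit 96609) (.g (nat_lit 1781) (.e (nat_lit 2783) (nat_lit 179) (.e (nat_lit 294960) (nat_lit 13) (.e (nat_lit 393260) (nat_lit 21) (.e (nat_lit 409645) (nat_lit 18) (.e (nat_lit 303115) (nat_lit 1) .nil))))) .nil)))) (.nd (nat_lit 5) (.nd (nat_lit 6) 
(.lf (nat_lit 96529) (.g (nat_lit 1711) (.e (nat_lit 7936) (nat_lit 178) (.e (nat_lit 286759) (nat_lit 12) (.e (nat_lit 385074) (nat_lit 31) (.e (nat_lit 573491) (nat_lit 15) .nil)))) .nil)) 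
(.lf (nat_lit 96593) (.g (nat_lit 2249) (.e (nat_lit 2783) (nat_lit 179) (.e (nat_lit 294958) (nat_lit 13) (.e (nat_lit 393301) (nat_lit 27) (.e (nat_lit 491560) (nat_lit 10) (.e (nat_lit 344173) (nat_lit 42) .nil))))) .nil))) (.nd (nat_lit 6) 
(.lf (nat_lit 96561) (.g (nat_lit 3663) (.e (nat_lit 7936) (nat_lit 178) (.e (nat_lit 286761) (nat_lit 13) (.e (nat_lit 393301) (nat_lit 27) (.e (nat_lit 491560) (nat_lit 10) (.e (nat_lit 344087) (nat_lit 18) .nil))))) .nil)) 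
(.lf (nat_lit 96625) (.g (nat_lit 885) (.e (nat_lit 2783) (nat_lit 179) (.e (nat_lit 294960) (nat_lit 13) (.e (nat_lit 393260) (nat_lit 21) (.e (nat_lit 417536) (nat_lit 18) .nil)))) .nil))))) (.nd (nat_lit 4) (.nd (nat_lit 5) (.nd (nat_lit 6) 
(.lf (nat_lit 96521) (.g (nat_lit 620) (.e (nat_lit 7936) (nat_lit 178) (.e (nat_lit 286733) (nat_lit 2) (.e (nat_lit 90134) (nat_lit 9) .nil))) .nil)) 
(.lf (nat_lit 96585) (.g (nat_lit 3201) (.e (nat_lit 2783) (nat_lit 179) (.e (nat_lit 294957) (nat_lit 13) (.e (nat_lit 393301) (nat_lit 27) (.e (nat_lit 491560) (nat_lit 10) (.e (nat_lit 344174) (nat_lit 42) (.e (nat_lit 761857) (nat_lit 0) .nil)))))) (.g (nat_lit 5) .nil .nil)))) (.nd (nat_lit 6) 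
(.lf (nat_lit 96553) (.g (nat_lit 3123) (.e (nat_lit 7936) (nat_lit 178) (.e (nat_lit 286761) (nat_lit 13) (.e (nat_lit 393301) (nat_lit 27) (.e (nat_lit 491559) (nat_lit 10) .nil)))) .nil)) 
(.lf (nat_lit 96617) (.g (nat_lit 2653) (.e (nat_lit 2783) (nat_lit 179) (.e (nat_lit 294960) (nat_lit 13) (.e (nat_lit 393260) (nat_lit 21) (.e (nat_lit 409648) (nat_lit 18) (.e (nat_lit 303108) (nat_lit 0) .nil))))) .nil)))) (.nd (nat_lit 5) (.nd (nat_lit 6) 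
(.lf (nat_lit 96537) (.g (nat_lit 1872) (.e (nat_lit 7936) (nat_lit 178) (.e (nat_lit 286759) (nat_lit 12) (.e (nat_lit 385106) (nat_lit 50) (.e (nat_lit 786480) (nat_lit 29) (.e (nat_lit 360192) (nat_lit 4) .nil))))) .nil)) 
(.lf (nat_lit 96601) (.g (nat_lit 807) (.e (nat_lit 2783) (nat_lit 179) (.e (nat_lit 294960) (nat_lit 13) (.e (nat_lit 393221) (nat_lit 0) (.e (nat_lit 6217) (nat_lit 333) .nil)))) .nil))) (.nd (nat_lit 6) 
(.lf (nat_lit 96569) (.g (nat_lit 3259) (.e (nat_lit 7936) (nat_lit 178) (.e (nat_lit 286761) (nat_lit 13) (.e (nat_lit 393301) (nat_lit 27) (.e (nat_lit 491560) (nat_lit 10) (.e (nat_lit 344173) (nat_lit 42) .nil))))) .nil)) 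
(.lf (nat_lit 96633) (.g (nat_lit 825) (.e (nat_lit 2786) (nat_lit 179) (.e (nat_lit 294928) (nat_lit 2) (.e (nat_lit 90165) (nat_lit 12) (.e (nat_lit 171776) (nat_lit 194) .nil)))) .nil)))))) (.nd (nat_lit 3) (.nd (nat_lit 4) (.nd (nat_lit 5) (.nd (nat_lit 6) 
(.lf (nat_lit 96517) (.g (nat_lit 1104) (.e (nat_lit 7936) (nat_lit 178) (.e (nat_lit 286731) (nat_lit 1) (.e (nat_lit 57681) (nat_lit 155) (.e (nat_lit 122913) (nat_lit 13) .nil)))) .nil)) 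
(.lf (nat_lit 96581) (.g (nat_lit 1842) (.e (nat_lit 2783) (nat_lit 179) (.e (nat_lit 294955) (nat_lit 12) (.e (nat_lit 385105) (nat_lit 50) (.e (nat_lit 786478) (nat_lit 29) (.e (nat_lit 352270) (nat_lit 8) (.e (nat_lit 262175) (nat_lit 14) .nil)))))) (.g (nat_lit 6) .nil .nil)))) (.nd (nat_lit 6) 
(.lf (nat_lit 96549) (.g (nat_lit 3200) (.e (nat_lit 7936) (nat_lit 178) (.e (nat_lit 286761) (nat_lit 13) (.e (nat_lit 393301) (nat_lit 27) (.e (nat_lit 491558) (nat_lit 10) (.e (nat_lit 344096) (nat_lit 18) .nil))))) .nil)) 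
(.lf (nat_lit 96613) (.g (nat_lit 1696) (.e (nat_lit 2783) (nat_lit 179) (.e (nat_lit 294960) (nat_lit 13) (.e (nat_lit 393260) (nat_lit 21) (.e (nat_lit 409647) (nat_lit 18) (.e (nat_lit 303111) (nat_lit 0) .nil))))) .nil)))) (.nd (nat_lit 5) (.nd (nat_lit 6) 
(.lf (nat_lit 96533) (.g (nat_lit 1351) (.e (nat_lit 7936) (nat_lit 178) (.e (nat_lit 286759) (nat_lit 12) (.e (nat_lit 385094) (nat_lit 49) (.e (nat_lit 778327) (nat_lit 6) (.e (nat_lit 89856) (nat_lit 8) .nil))))) .nil)) 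
(.lf (nat_lit 96597) (.g (nat_lit 1836) (.e (nat_lit 2783) (nat_lit 179) (.e (nat_lit 294959) (nat_lit 13) (.e (nat_lit 393260) (nat_lit 21) (.e (nat_lit 409648) (nat_lit 18) (.e (nat_lit 303114) (nat_lit 1) (.e (nat_lit 164150) (nat_lit 152) (.e (nat_lit 26) (nat_lit 0) .nil))))))) (.g (nat_lit 6) .nil .nil)))) (.nd (nat_lit 6) 
(.lf (nat_lit 96565) (.g (nat_lit 3361) (.e (nat_lit 7936) (nat_lit 178) (.e (nat_lit 286761) (nat_lit 13) (.e (nat_lit 393301) (nat_lit 27) (.e (nat_lit 491560) (nat_lit 10) (.e (nat_lit 344094) (nat_lit 18) .nil))))) .nil)) 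
(.lf (nat_lit 96629) (.g (nat_lit 936) (.e (nat_lit 2786) (nat_lit 179) (.e (nat_lit 294927) (nat_lit 2) (.e (nat_lit 90165) (nat_lit 12) (.e (nat_lit 164210) (nat_lit 176) (.e (nat_lit 2786) (nat_lit 179) (.e (nat_lit 294927) (nat_lit 2) (.e (nat_lit 90165) (nat_lit 12) (.e (nat_lit 164210) (nat_lit 176) .nil)))))))) (.g (nat_lit 4) .nil .nil)))))) 
(.nd (nat_lit 4) (.nd (nat_lit 5) (.nd (nat_lit 6) 
(.lf (nat_lit 96525) (.g (nat_lit 2896) (.e (nat_lit 7936) (nat_lit 178) (.e (nat_lit 286735) (nat_lit 3) (.e (nat_lit 98373) (nat_lit 29) (.e (nat_lit 450588) (nat_lit 10) (.e (nat_lit 573475) (nat_lit 12) .nil))))) .nil)) 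
(.lf (nat_lit 96589) (.g (nat_lit 1118) (.e (nat_lit 2783) (nat_lit 179) (.e (nat_lit 294958) (nat_lit 13) (.e (nat_lit 393301) (nat_lit 27) (.e (nat_lit 491559) (nat_lit 10) .nil)))) .nil))) (.nd (nat_lit 6) 
(.lf (nat_lit 96557) (.g (nat_lit 5132) (.e (nat_lit 7936) (nat_lit 178) (.e (nat_lit 286761) (nat_lit 13) (.e (nat_lit 393301) (nat_lit 27) (.e (nat_lit 491559) (nat_lit 10) (.e (nat_lit 344098) (nat_lit 18) .nil))))) .nil)) 
(.lf (nat_lit 96621) (.g (nat_lit 2678) (.e (nat_lit 2783) (nat_lit 179) (.e (nat_lit 294960) (nat_lit 13) (.e (nat_lit 393260) (nat_lit 21) (.e (nat_lit 409649) (nat_lit 18) (.e (nat_lit 303107) (nat_lit 0) .nil))))) .nil)))) (.nd (nat_lit 5) (.nd (nat_lit 6) 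
(.lf (nat_lit 96541) (.g (nat_lit 1744) (.e (nat_lit 7936) (nat_lit 178) (.e (nat_lit 286761) (nat_lit 13) (.e (nat_lit 393234) (nat_lit 17) (.e (nat_lit 7591) (nat_lit 407) (.e (nat_lit 73772) (nat_lit 24) .nil))))) .nil)) 
(.lf (nat_lit 96605) (.g (nat_lit 1490) (.e (nat_lit 2783) (nat_lit 179) (.e (nat_lit 294960) (nat_lit 13) (.e (nat_lit 393260) (nat_lit 21) (.e (nat_lit 409623) (nat_lit 10) (.e (nat_lit 5293) (nat_lit 298) .nil))))) .nil))) (.nd (nat_lit 6) 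
(.lf (nat_lit 96573) (.g (nat_lit 1408) (.e (nat_lit 7936) (nat_lit 178) (.e (nat_lit 286765) (nat_lit 15) (.e (nat_lit 6986) (nat_lit 377) (.e (nat_lit 1370) (nat_lit 103) (.e (nat_lit 294960) (nat_lit 13) .nil))))) .nil)) 
(.lf (nat_lit 96637) (.g (nat_lit 2265) (.e (nat_lit 2786) (nat_lit 179) (.e (nat_lit 294957) (nat_lit 13) (.e (nat_lit 393301) (nat_lit 27) (.e (nat_lit 491560) (nat_lit 10) (.e (nat_lit 344173) (nat_lit 42) (.e (nat_lit 761861) (nat_lit 0) .nil)))))) (.g (nat_lit 4) .nil .nil)))))))) (.nd (nat_lit 2) (.nd (nat_lit 3) (.nd (nat_lit 4) (.nd (nat_lit 5) (.nd (nat_lit 6) 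
(.lf (nat_lit 96515) (.g (nat_lit 1594) (.e (nat_lit 7936) (nat_lit 178) (.e (nat_lit 286728) (nat_lit 0) (.e (nat_lit 2281) (nat_lit 150) (.e (nat_lit 770076) (nat_lit 12) (.e (nat_lit 131127) (nat_lit 13) .nil))))) .nil)) 
(.lf (nat_lit 96579) (.g (nat_lit 2348) (.e (nat_lit 2783) (nat_lit 179) (.e (nat_lit 294941) (nat_lit 9) (.e (nat_lit 336369) (nat_lit 27) (.e (nat_lit 426173) (nat_lit 7) (.e (nat_lit 409649) (nat_lit 18) (.e (nat_lit 303111) (nat_lit 0) (.e (nat_lit 3468) (nat_lit 217) (.e (nat_lit 696320) (nat_lit 0) .nil)))))))) (.g (nat_lit 5) .nil .nil)))) (.nd (nat_lit 6) 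
(.lf (nat_lit 96547) (.g (nat_lit 3549) (.e (nat_lit 7936) (nat_lit 178) (.e (nat_lit 286761) (nat_lit 13) (.e (nat_lit 393301) (nat_lit 27) (.e (nat_lit 491558) (nat_lit 10) (.e (nat_lit 344093) (nat_lit 18) .nil))))) .nil)) 
(.lf (nat_lit 96611) (.g (nat_lit 2386) (.e (nat_lit 2783) (nat_lit 179) (.e (nat_lit 294960) (nat_lit 13) (.e (nat_lit 393260) (nat_lit 21) (.e (nat_lit 409646) (nat_lit 18) (.e (nat_lit 303114) (nat_lit 1) .nil))))) .nil)))) (.nd (nat_lit 5) (.nd (nat_lit 6) 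
(.lf (nat_lit 96531) (.g (nat_lit 1599) (.e (nat_lit 7936) (nat_lit 178) (.e (nat_lit 286759) (nat_lit 12) (.e (nat_lit 385094) (nat_lit 49) (.e (nat_lit 778326) (nat_lit 6) (.e (nat_lit 89856) (nat_lit 8) .nil))))) .nil)) 
(.lf (nat_lit 96595) (.g (nat_lit 2504) (.e (nat_lit 2783) (nat_lit 179) (.e (nat_lit 294959) (nat_lit 13) (.e (nat_lit 393260) (nat_lit 21) (.e (nat_lit 409646) (nat_lit 18) (.e (nat_lit 303115) (nat_lit 1) (.e (nat_lit 164151) (nat_lit 152) (.e (nat_lit 26) (nat_lit 0) .nil))))))) (.g (nat_lit 6) .nil .nil)))) (.nd (nat_lit 6) 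
(.lf (nat_lit 96563) (.g (nat_lit 3274) (.e (nat_lit 7936) (nat_lit 178) (.e (nat_lit 286761) (nat_lit 13) (.e (nat_lit 393301) (nat_lit 27) (.e (nat_lit 491560) (nat_lit 10) (.e (nat_lit 344091) (nat_lit 18) .nil))))) .nil)) 
(.lf (nat_lit 96627) (.g (nat_lit 2053) (.e (nat_lit 2783) (nat_lit 179) (.e (nat_lit 294960) (nat_lit 13) (.e (nat_lit 393299) (nat_lit 27) (.e (nat_lit 491560) (nat_lit 10) (.e (nat_lit 344177) (nat_lit 43) .nil))))) .nil))))) (.nd (nat_lit 4) (.nd (nat_lit 5) (.nd (nat_lit 6) 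
(.lf (nat_lit 96523) (.g (nat_lit 2224) (.e (nat_lit 7936) (nat_lit 178) (.e (nat_lit 286735) (nat_lit 3) (.e (nat_lit 98350) (nat_lit 24) (.e (nat_lit 409641) (nat_lit 17) .nil)))) .nil)) 
(.lf (nat_lit 96587) (.g (nat_lit 1689) (.e (nat_lit 2783) (nat_lit 179) (.e (nat_lit 294958) (nat_lit 13) (.e (nat_lit 393301) (nat_lit 27) (.e (nat_lit 491558) (nat_lit 10) .nil)))) .nil))) (.nd (nat_lit 6) 
(.lf (nat_lit 96555) (.g (nat_lit 5157) (.e (nat_lit 7936) (nat_lit 178) (.e (nat_lit 286761) (nat_lit 13) (.e (nat_lit 393301) (nat_lit 27) (.e (nat_lit 491559) (nat_lit 10) (.e (nat_lit 344095) (nat_lit 18) .nil))))) .nil)) 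
(.lf (nat_lit 96619) (.g (nat_lit 2765) (.e (nat_lit 2783) (nat_lit 179) (.e (nat_lit 294960) (nat_lit 13) (.e (nat_lit 393260) (nat_lit 21) (.e (nat_lit 409648) (nat_lit 18) (.e (nat_lit 303115) (nat_lit 1) (.e (nat_lit 164151) (nat_lit 152) (.e (nat_lit 26) (nat_lit 0) .nil))))))) (.g (nat_lit 6) .nil .nil))))) (.nd (nat_lit 5) (.nd (nat_lit 6) 
(.lf (nat_lit 96539) (.g (nat_lit 1294) (.e (nat_lit 7936) (nat_lit 178) (.e (nat_lit 286760) (nat_lit 13) (.e (nat_lit 393301) (nat_lit 27) (.e (nat_lit 491560) (nat_lit 10) .nil)))) .nil)) 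
(.lf (nat_lit 96603) (.g (nat_lit 1275) (.e (nat_lit 2783) (nat_lit 179) (.e (nat_lit 294960) (nat_lit 13) (.e (nat_lit 393238) (nat_lit 17) (.e (nat_lit 6989) (nat_lit 377) (.e (nat_lit 2810) (nat_lit 180) .nil))))) .nil))) (.nd (nat_lit 6) 
(.lf (nat_lit 96571) (.g (nat_lit 3091) (.e (nat_lit 7936) (nat_lit 178) (.e (nat_lit 286761) (nat_lit 13) (.e (nat_lit 393301) (nat_lit 27) (.e (nat_lit 491560) (nat_lit 10) (.e (nat_lit 344176) (nat_lit 43) .nil))))) .nil)) 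
(.lf (nat_lit 96635) (.g (nat_lit 1093) (.e (nat_lit 2786) (nat_lit 179) (.e (nat_lit 294955) (nat_lit 12) (.e (nat_lit 385102) (nat_lit 50) (.e (nat_lit 786483) (nat_lit 30) (.e (nat_lit 368384) (nat_lit 17) (.e (nat_lit 663589) (nat_lit 14) .nil)))))) (.g (nat_lit 4) .nil .nil))))))) (.nd (nat_lit 3) (.nd (nat_lit 4) (.nd (nat_lit 5) (.nd (nat_lit 6) 
(.lf (nat_lit 96519) (.g (nat_lit 1386) (.e (nat_lit 7936) (nat_lit 178) (.e (nat_lit 286731) (nat_lit 1) (.e (nat_lit 57681) (nat_lit 155) (.e (nat_lit 122916) (nat_lit 14) (.e (nat_lit 360192) (nat_lit 12) .nil))))) .nil)) 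
(.lf (nat_lit 96583) (.g (nat_lit 2334) (.e (nat_lit 2783) (nat_lit 179) (.e (nat_lit 294957) (nat_lit 13) (.e (nat_lit 393301) (nat_lit 27) (.e (nat_lit 491560) (nat_lit 10) (.e (nat_lit 344173) (nat_lit 42) (.e (nat_lit 761856) (nat_lit 0) .nil)))))) (.g (nat_lit 4) .nil .nil)))) (.nd (nat_lit 6) 
(.lf (nat_lit 96551) (.g (nat_lit 3197) (.e (nat_lit 7936) (nat_lit 178) (.e (nat_lit 286761) (nat_lit 13) (.e (nat_lit 393301) (nat_lit 27) (.e (nat_lit 491558) (nat_lit 10) (.e (nat_lit 344174) (nat_lit 42) .nil))))) .nil)) 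
(.lf (nat_lit 96615) (.g (nat_lit 2111) (.e (nat_lit 2783) (nat_lit 179) (.e (nat_lit 294960) (nat_lit 13) (.e (nat_lit 393260) (nat_lit 21) (.e (nat_lit 409648) (nat_lit 18) (.e (nat_lit 303104) (nat_lit 0) .nil))))) .nil)))) (.nd (nat_lit 5) (.nd (nat_lit 6) 
(.lf (nat_lit 96535) (.g (nat_lit 2363) (.e (nat_lit 7936) (nat_lit 178) (.e (nat_lit 286759) (nat_lit 12) (.e (nat_lit 385106) (nat_lit 50) (.e (nat_lit 786478) (nat_lit 29) (.e (nat_lit 352257) (nat_lit 0) .nil))))) .nil)) 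
(.lf (nat_lit 96599) (.g (nat_lit 1693) (.e (nat_lit 2783) (nat_lit 179) (.e (nat_lit 294959) (nat_lit 13) (.e (nat_lit 393260) (nat_lit 21) (.e (nat_lit 409649) (nat_lit 18) (.e (nat_lit 303114) (nat_lit 1) .nil))))) .nil))) (.nd (nat_lit 6) 
(.lf (nat_lit 96567) (.g (nat_lit 3014) (.e (nat_lit 7936) (nat_lit 178) (.e (nat_lit 286761) (nat_lit 13) (.e (nat_lit 393301) (nat_lit 27) (.e (nat_lit 491560) (nat_lit 10) (.e (nat_lit 344097) (nat_lit 18) .nil))))) .nil)) 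
(.lf (nat_lit 96631) (.g (nat_lit 521) (.e (nat_lit 2786) (nat_lit 179) (.e (nat_lit 294928) (nat_lit 2) (.e (nat_lit 90165) (nat_lit 12) .nil))) .nil))))) (.nd (nat_lit 4) (.nd (nat_lit 5) (.nd (nat_lit 6) 
(.lf (nat_lit 96527) (.g (nat_lit 1492) (.e (nat_lit 7936) (nat_lit 178) (.e (nat_lit 286759) (nat_lit 12) (.e (nat_lit 385074) (nat_lit 31) (.e (nat_lit 573484) (nat_lit 13) .nil)))) .nil)) 
(.lf (nat_lit 96591) (.g (nat_lit 4328) (.e (nat_lit 2783) (nat_lit 179) (.e (nat_lit 294958) (nat_lit 13) (.e (nat_lit 393301) (nat_lit 27) (.e (nat_lit 491559) (nat_lit 10) (.e (nat_lit 344177) (nat_lit 43) (.e (nat_lit 770051) (nat_lit 0) .nil)))))) (.g (nat_lit 0) .nil .nil)))) (.nd (nat_lit 6) 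
(.lf (nat_lit 96559) (.g (nat_lit 5122) (.e (nat_lit 7936) (nat_lit 178) (.e (nat_lit 286761) (nat_lit 13) (.e (nat_lit 393301) (nat_lit 27) (.e (nat_lit 491559) (nat_lit 10) (.e (nat_lit 344176) (nat_lit 43) .nil))))) .nil)) 
(.lf (nat_lit 96623) (.g (nat_lit 2223) (.e (nat_lit 2783) (nat_lit 179) (.e (nat_lit 294960) (nat_lit 13) (.e (nat_lit 393260) (nat_lit 21) (.e (nat_lit 409649) (nat_lit 18) (.e (nat_lit 303114) (nat_lit 1) .nil))))) .nil)))) (.nd (nat_lit 5) (.nd (nat_lit 6) 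
(.lf (nat_lit 96543) (.g (nat_lit 2854) (.e (nat_lit 7936) (nat_lit 178) (.e (nat_lit 286761) (nat_lit 13) (.e (nat_lit 393301) (nat_lit 27) (.e (nat_lit 491546) (nat_lit 9) .nil)))) .nil)) 
(.lf (nat_lit 96607) (.g (nat_lit 2520) (.e (nat_lit 2783) (nat_lit 179) (.e (nat_lit 294960) (nat_lit 13) (.e (nat_lit 393260) (nat_lit 21) (.e (nat_lit 409643) (nat_lit 18) (.e (nat_lit 303115) (nat_lit 1) (.e (nat_lit 164151) (nat_lit 152) (.e (nat_lit 26) (nat_lit 0) .nil))))))) (.g (nat_lit 6) .nil .nil)))) (.nd (nat_lit 6) 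
(.lf (nat_lit 96575) (.g (nat_lit 1078) (.e (nat_lit 2783) (nat_lit 179) (.e (nat_lit 294930) (nat_lit 3) (.e (nat_lit 106240) (nat_lit 16) (.e (nat_lit 401459) (nat_lit 13) (.e (nat_lit 483334) (nat_lit 0) .nil))))) .nil)) 
(.lf (nat_lit 96639) (.g (nat_lit 4229) (.e (nat_lit 2786) (nat_lit 179) (.e (nat_lit 294958) (nat_lit 13) (.e (nat_lit 393301) (nat_lit 27) (.e (nat_lit 491559) (nat_lit 10) (.e (nat_lit 344177) (nat_lit 43) (.e (nat_lit 770052) (nat_lit 0) .nil)))))) (.g (nat_lit 6) .nil .nil))))))))))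

noncomputable def tv1324 : DT := (.nd (nat_lit 0) (.nd (nat_lit 1) (.nd (nat_lit 2) (.nd (nat_lit 3) (.nd (nat_lit 4) (.nd (nat_lit 5) (.nd (nat_lit 6) 
(.lf (nat_lit 96640) (.g (nat_lit 2215) (.e (nat_lit 2786) (nat_lit 179) (.e (nat_lit 294958) (nat_lit 13) (.e (nat_lit 393301) (nat_lit 27) (.e (nat_lit 491560) (nat_lit 10) (.e (nat_lit 344173) (nat_lit 42) .nil))))) .nil)) 
(.lf (nat_lit 96704) (.g (nat_lit 1297) (.e (nat_lit 2789) (nat_lit 179) (.e (nat_lit 294973) (nat_lit 28) (.e (nat_lit 434180) (nat_lit 0) (.e (nat_lit 1426) (nat_lit 108) (.e (nat_lit 336421) (nat_lit 28) (.e (nat_lit 434186) (nat_lit 13) .nil)))))) (.g (nat_lit 5) .nil .nil)))) (.nd (nat_lit 6) 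
(.lf (nat_lit 96672) (.g (nat_lit 1486) (.e (nat_lit 2788) (nat_lit 179) (.e (nat_lit 294959) (nat_lit 13) (.e (nat_lit 393260) (nat_lit 21) (.e (nat_lit 409648) (nat_lit 18) (.e (nat_lit 303114) (nat_lit 1) (.e (nat_lit 164150) (nat_lit 152) (.e (nat_lit 24) (nat_lit 0) .nil))))))) (.g (nat_lit 4) .nil .nil))) 
(.lf (nat_lit 96736) (.g (nat_lit 3115) (.e (nat_lit 2795) (nat_lit 180) (.e (nat_lit 303143) (nat_lit 12) (.e (nat_lit 475185) (nat_lit 29) (.e (nat_lit 557098) (nat_lit 13) .nil)))) .nil)))) (.nd (nat_lit 5) (.nd (nat_lit 6) 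
(.lf (nat_lit 96656) (.g (nat_lit 2657) (.e (nat_lit 2787) (nat_lit 179) (.e (nat_lit 294959) (nat_lit 13) (.e (nat_lit 393260) (nat_lit 21) (.e (nat_lit 409649) (nat_lit 18) (.e (nat_lit 303111) (nat_lit 0) (.e (nat_lit 3469) (nat_lit 217) (.e (nat_lit 696324) (nat_lit 0) .nil))))))) (.g (nat_lit 6) .nil .nil))) 
(.lf (nat_lit 96720) (.g (nat_lit 1712) (.e (nat_lit 2789) (nat_lit 179) (.e (nat_lit 294974) (nat_lit 29) (.e (nat_lit 442379) (nat_lit 0) (.e (nat_lit 2175) (nat_lit 143) (.e (nat_lit 712749) (nat_lit 28) (.e (nat_lit 434192) (nat_lit 13) .nil)))))) (.g (nat_lit 5) .nil .nil)))) (.nd (nat_lit 6) 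
(.lf (nat_lit 96688) (.g (nat_lit 2313) (.e (nat_lit 2789) (nat_lit 179) (.e (nat_lit 294957) (nat_lit 13) (.e (nat_lit 393301) (nat_lit 27) (.e (nat_lit 491558) (nat_lit 10) (.e (nat_lit 344090) (nat_lit 18) .nil))))) .nil)) 
(.lf (nat_lit 96752) (.g (nat_lit 1369) (.e (nat_lit 2797) (nat_lit 180) (.e (nat_lit 303115) (nat_lit 1) (.e (nat_lit 164178) (nat_lit 154) (.e (nat_lit 57437) (nat_lit 17) (.e (nat_lit 384768) (nat_lit 15) (.e (nat_lit 466688) (nat_lit 13) .nil)))))) (.g (nat_lit 4) .nil .nil)))))) (.nd (nat_lit 4) (.nd (nat_lit 5) (.nd (nat_lit 6) 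
(.lf (nat_lit 96648) (.g (nat_lit 2639) (.e (nat_lit 2787) (nat_lit 179) (.e (nat_lit 294931) (nat_lit 3) (.e (nat_lit 98350) (nat_lit 24) (.e (nat_lit 409616) (nat_lit 10) (.e (nat_lit 5355) (nat_lit 298) .nil))))) .nil)) 
(.lf (nat_lit 96712) (.g (nat_lit 1353) (.e (nat_lit 2789) (nat_lit 179) (.e (nat_lit 294973) (nat_lit 28) (.e (nat_lit 434181) (nat_lit 0) (.e (nat_lit 1426) (nat_lit 108) (.e (nat_lit 336421) (nat_lit 28) (.e (nat_lit 434186) (nat_lit 13) .nil)))))) (.g (nat_lit 5) .nil .nil)))) (.nd (nat_lit 6) 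
(.lf (nat_lit 96680) (.g (nat_lit 1775) (.e (nat_lit 2788) (nat_lit 179) (.e (nat_lit 294959) (nat_lit 13) (.e (nat_lit 393260) (nat_lit 21) (.e (nat_lit 409649) (nat_lit 18) (.e (nat_lit 303115) (nat_lit 1) (.e (nat_lit 164150) (nat_lit 152) (.e (nat_lit 24) (nat_lit 0) .nil))))))) (.g (nat_lit 5) .nil .nil))) 
(.lf (nat_lit 96744) (.g (nat_lit 3138) (.e (nat_lit 2796) (nat_lit 180) (.e (nat_lit 303117) (nat_lit 2) (.e (nat_lit 196672) (nat_lit 15) (.e (nat_lit 81951) (nat_lit 22) (.e (nat_lit 90165) (nat_lit 12) .nil))))) .nil)))) (.nd (nat_lit 5) (.nd (nat_lit 6) 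
(.lf (nat_lit 96664) (.g (nat_lit 2100) (.e (nat_lit 2788) (nat_lit 179) (.e (nat_lit 294959) (nat_lit 13) (.e (nat_lit 393225) (nat_lit 9) (.e (nat_lit 335995) (nat_lit 1) (.e (nat_lit 57872) (nat_lit 264) (.e (nat_lit 1170) (nat_lit 87) (.e (nat_lit 57454) (nat_lit 21) (.e (nat_lit 499732) (nat_lit 0) .nil)))))))) (.g (nat_lit 5) .nil .nil))) 
(.lf (nat_lit 96728) (.g (nat_lit 2019) (.e (nat_lit 2793) (nat_lit 179) (.e (nat_lit 294960) (nat_lit 13) (.e (nat_lit 393260) (nat_lit 21) (.e (nat_lit 409649) (nat_lit 18) (.e (nat_lit 303115) (nat_lit 1) .nil))))) .nil))) (.nd (nat_lit 6) 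
(.lf (nat_lit 96696) (.g (nat_lit 3864) (.e (nat_lit 2789) (nat_lit 179) (.e (nat_lit 294957) (nat_lit 13) (.e (nat_lit 393301) (nat_lit 27) (.e (nat_lit 491559) (nat_lit 10) (.e (nat_lit 344177) (nat_lit 43) (.e (nat_lit 777984) (nat_lit 0) .nil)))))) (.g (nat_lit 5) .nil .nil))) 
(.lf (nat_lit 96760) (.g (nat_lit 160) (.e (nat_lit 2797) (nat_lit 180) (.e (nat_lit 303117) (nat_lit 2) (.e (nat_lit 196630) (nat_lit 9) .nil))) .nil)))))) (.nd (nat_lit 3) (.nd (nat_lit 4) (.nd (nat_lit 5) (.nd (nat_lit 6) 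
(.lf (nat_lit 96644) (.g (nat_lit 2077) (.e (nat_lit 2786) (nat_lit 179) (.e (nat_lit 294960) (nat_lit 13) (.e (nat_lit 393260) (nat_lit 21) (.e (nat_lit 409648) (nat_lit 18) (.e (nat_lit 303114) (nat_lit 1) .nil))))) .nil)) 
(.lf (nat_lit 96708) (.g (nat_lit 2299) (.e (nat_lit 2789) (nat_lit 179) (.e (nat_lit 294973) (nat_lit 28) (.e (nat_lit 434180) (nat_lit 0) (.e (nat_lit 1661) (nat_lit 115) (.e (nat_lit 393238) (nat_lit 17) (.e (nat_lit 7011) (nat_lit 377) .nil)))))) (.g (nat_lit 5) .nil .nil)))) (.nd (nat_lit 6) 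
(.lf (nat_lit 96676) (.g (nat_lit 2285) (.e (nat_lit 2788) (nat_lit 179) (.e (nat_lit 294959) (nat_lit 13) (.e (nat_lit 393260) (nat_lit 21) (.e (nat_lit 409648) (nat_lit 18) (.e (nat_lit 303115) (nat_lit 1) (.e (nat_lit 164151) (nat_lit 152) (.e (nat_lit 21) (nat_lit 0) .nil))))))) (.g (nat_lit 6) .nil .nil))) 
(.lf (nat_lit 96740) (.g (nat_lit 1985) (.e (nat_lit 2796) (nat_lit 180) (.e (nat_lit 303116) (nat_lit 2) (.e (nat_lit 196672) (nat_lit 15) (.e (nat_lit 81954) (nat_lit 23) (.e (nat_lit 98325) (nat_lit 17) .nil))))) .nil)))) (.nd (nat_lit 5) (.nd (nat_lit 6) 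
(.lf (nat_lit 96660) (.g (nat_lit 518) (.e (nat_lit 2788) (nat_lit 179) (.e (nat_lit 294928) (nat_lit 2) (.e (nat_lit 90165) (nat_lit 12) .nil))) .nil)) 
(.lf (nat_lit 96724) (.g (nat_lit 1410) (.e (nat_lit 2793) (nat_lit 179) (.e (nat_lit 294960) (nat_lit 13) (.e (nat_lit 393260) (nat_lit 21) (.e (nat_lit 409643) (nat_lit 18) .nil)))) .nil))) (.nd (nat_lit 6) 
(.lf (nat_lit 96692) (.g (nat_lit 2214) (.e (nat_lit 2789) (nat_lit 179) (.e (nat_lit 294957) (nat_lit 13) (.e (nat_lit 393301) (nat_lit 27) (.e (nat_lit 491558) (nat_lit 10) (.e (nat_lit 344095) (nat_lit 18) .nil))))) .nil)) 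
(.lf (nat_lit 96756) (.g (nat_lit 1434) (.e (nat_lit 2797) (nat_lit 180) (.e (nat_lit 303117) (nat_lit 2) (.e (nat_lit 196624) (nat_lit 9) (.e (nat_lit 1615) (nat_lit 113) (.e (nat_lit 376862) (nat_lit 22) (.e (nat_lit 90181) (nat_lit 16) (.e (nat_lit 237312) (nat_lit 176) .nil))))))) (.g (nat_lit 4) .nil .nil)))))) (.nd (nat_lit 4) (.nd (nat_lit 5) (.nd (nat_lit 6) 
(.lf (nat_lit 96652) (.g (nat_lit 2721) (.e (nat_lit 2787) (nat_lit 179) (.e (nat_lit 294958) (nat_lit 13) (.e (nat_lit 393301) (nat_lit 27) (.e (nat_lit 491560) (nat_lit 10) (.e (nat_lit 344174) (nat_lit 42) .nil))))) .nil)) 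
(.lf (nat_lit 96716) (.g (nat_lit 2097) (.e (nat_lit 2789) (nat_lit 179) (.e (nat_lit 294973) (nat_lit 28) (.e (nat_lit 434181) (nat_lit 0) (.e (nat_lit 1661) (nat_lit 115) (.e (nat_lit 393238) (nat_lit 17) (.e (nat_lit 7013) (nat_lit 377) .nil)))))) (.g (nat_lit 5) .nil .nil)))) (.nd (nat_lit 6) 
(.lf (nat_lit 96684) (.g (nat_lit 1242) (.e (nat_lit 2788) (nat_lit 179) (.e (nat_lit 294973) (nat_lit 28) (.e (nat_lit 434180) (nat_lit 0) (.e (nat_lit 1661) (nat_lit 115) (.e (nat_lit 393242) (nat_lit 17) (.e (nat_lit 7016) (nat_lit 377) .nil)))))) (.g (nat_lit 5) .nil .nil))) 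
(.lf (nat_lit 96748) (.g (nat_lit 619) (.e (nat_lit 2796) (nat_lit 180) (.e (nat_lit 303143) (nat_lit 12) (.e (nat_lit 475183) (nat_lit 29) .nil))) .nil)))) (.nd (nat_lit 5) (.nd (nat_lit 6) 
(.lf (nat_lit 96668) (.g (nat_lit 1549) (.e (nat_lit 2788) (nat_lit 179) (.e (nat_lit 294959) (nat_lit 13) (.e (nat_lit 393260) (nat_lit 21) (.e (nat_lit 409644) (nat_lit 18) (.e (nat_lit 303115) (nat_lit 1) .nil))))) .nil)) 
(.lf (nat_lit 96732) (.g (nat_lit 3430) (.e (nat_lit 2795) (nat_lit 180) (.e (nat_lit 303117) (nat_lit 2) (.e (nat_lit 196666) (nat_lit 13) (.e (nat_lit 65619) (nat_lit 10) .nil)))) .nil))) (.nd (nat_lit 6) 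
(.lf (nat_lit 96700) (.g (nat_lit 4114) (.e (nat_lit 2789) (nat_lit 179) (.e (nat_lit 294957) (nat_lit 13) (.e (nat_lit 393301) (nat_lit 27) (.e (nat_lit 491560) (nat_lit 10) (.e (nat_lit 344097) (nat_lit 18) (.e (nat_lit 7144) (nat_lit 382) (.e (nat_lit 24) (nat_lit 0) .nil))))))) (.g (nat_lit 5) .nil .nil))) 
(.lf (nat_lit 96764) (.g (nat_lit 1763) (.e (nat_lit 2797) (nat_lit 180) (.e (nat_lit 303117) (nat_lit 2) (.e (nat_lit 196630) (nat_lit 9) (.e (nat_lit 1563) (nat_lit 110) (.e (nat_lit 352311) (nat_lit 22) .nil))))) .nil))))))) (.nd (nat_lit 2) (.nd (nat_lit 3) (.nd (nat_lit 4) (.nd (nat_lit 5) (.nd (nat_lit 6) 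
(.lf (nat_lit 96642) (.g (nat_lit 1280) (.e (nat_lit 2786) (nat_lit 179) (.e (nat_lit 294960) (nat_lit 13) (.e (nat_lit 393238) (nat_lit 17) (.e (nat_lit 6989) (nat_lit 377) (.e (nat_lit 2810) (nat_lit 180) .nil))))) .nil)) 
(.lf (nat_lit 96706) (.g (nat_lit 2306) (.e (nat_lit 2789) (nat_lit 179) (.e (nat_lit 294973) (nat_lit 28) (.e (nat_lit 434180) (nat_lit 0) (.e (nat_lit 1661) (nat_lit 115) (.e (nat_lit 393238) (nat_lit 17) (.e (nat_lit 7001) (nat_lit 377) .nil)))))) (.g (nat_lit 5) .nil .nil)))) (.nd (nat_lit 6) 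
(.lf (nat_lit 96674) (.g (nat_lit 2072) (.e (nat_lit 2788) (nat_lit 179) (.e (nat_lit 294959) (nat_lit 13) (.e (nat_lit 393260) (nat_lit 21) (.e (nat_lit 409648) (nat_lit 18) (.e (nat_lit 303114) (nat_lit 1) (.e (nat_lit 164151) (nat_lit 152) (.e (nat_lit 21) (nat_lit 0) .nil))))))) (.g (nat_lit 6) .nil .nil))) 
(.lf (nat_lit 96738) (.g (nat_lit 1239) (.e (nat_lit 2795) (nat_lit 180) (.e (nat_lit 303143) (nat_lit 12) (.e (nat_lit 475185) (nat_lit 29) (.e (nat_lit 557101) (nat_lit 13) .nil)))) .nil)))) (.nd (nat_lit 5) (.nd (nat_lit 6) 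
(.lf (nat_lit 96658) (.g (nat_lit 1577) (.e (nat_lit 2787) (nat_lit 179) (.e (nat_lit 294973) (nat_lit 28) (.e (nat_lit 434180) (nat_lit 0) (.e (nat_lit 1661) (nat_lit 115) (.e (nat_lit 393242) (nat_lit 17) (.e (nat_lit 7008) (nat_lit 377) .nil)))))) (.g (nat_lit 0) .nil .nil))) 
(.lf (nat_lit 96722) (.g (nat_lit 1808) (.e (nat_lit 2791) (nat_lit 179) (.e (nat_lit 294959) (nat_lit 13) (.e (nat_lit 393238) (nat_lit 17) (.e (nat_lit 6989) (nat_lit 377) (.e (nat_lit 2777) (nat_lit 178) .nil))))) .nil))) (.nd (nat_lit 6) 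
(.lf (nat_lit 96690) (.g (nat_lit 2801) (.e (nat_lit 2789) (nat_lit 179) (.e (nat_lit 294957) (nat_lit 13) (.e (nat_lit 393301) (nat_lit 27) (.e (nat_lit 491558) (nat_lit 10) (.e (nat_lit 344091) (nat_lit 18) (.e (nat_lit 7119) (nat_lit 382) (.e (nat_lit 26) (nat_lit 0) .nil))))))) (.g (nat_lit 4) .nil .nil))) 
(.lf (nat_lit 96754) (.g (nat_lit 1897) (.e (nat_lit 2797) (nat_lit 180) (.e (nat_lit 303116) (nat_lit 2) (.e (nat_lit 196672) (nat_lit 15) (.e (nat_lit 81954) (nat_lit 23) (.e (nat_lit 98325) (nat_lit 17) .nil))))) .nil))))) (.nd (nat_lit 4) (.nd (nat_lit 5) (.nd (nat_lit 6) 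
(.lf (nat_lit 96650) (.g (nat_lit 2800) (.e (nat_lit 2787) (nat_lit 179) (.e (nat_lit 294958) (nat_lit 13) (.e (nat_lit 393301) (nat_lit 27) (.e (nat_lit 491558) (nat_lit 10) (.e (nat_lit 344174) (nat_lit 42) .nil))))) .nil)) 
(.lf (nat_lit 96714) (.g (nat_lit 2212) (.e (nat_lit 2789) (nat_lit 179) (.e (nat_lit 294973) (nat_lit 28) (.e (nat_lit 434181) (nat_lit 0) (.e (nat_lit 1661) (nat_lit 115) (.e (nat_lit 393238) (nat_lit 17) (.e (nat_lit 7001) (nat_lit 377) .nil)))))) (.g (nat_lit 5) .nil .nil)))) (.nd (nat_lit 6) 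
(.lf (nat_lit 96682) (.g (nat_lit 1981) (.e (nat_lit 2788) (nat_lit 179) (.e (nat_lit 294959) (nat_lit 13) (.e (nat_lit 393260) (nat_lit 21) (.e (nat_lit 409649) (nat_lit 18) (.e (nat_lit 303115) (nat_lit 1) (.e (nat_lit 164151) (nat_lit 152) (.e (nat_lit 26) (nat_lit 0) .nil))))))) (.g (nat_lit 5) .nil .nil))) 
(.lf (nat_lit 96746) (.g (nat_lit 819) (.e (nat_lit 2796) (nat_lit 180) (.e (nat_lit 303117) (nat_lit 2) (.e (nat_lit 196674) (nat_lit 15) .nil))) .nil)))) (.nd (nat_lit 5) (.nd (nat_lit 6) 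
(.lf (nat_lit 96666) (.g (nat_lit 2323) (.e (nat_lit 2788) (nat_lit 179) (.e (nat_lit 294959) (nat_lit 13) (.e (nat_lit 393227) (nat_lit 9) (.e (nat_lit 336035) (nat_lit 4) (.e (nat_lit 123185) (nat_lit 264) (.e (nat_lit 999) (nat_lit 81) (.e (nat_lit 1239) (nat_lit 91) (.e (nat_lit 90189) (nat_lit 18) .nil)))))))) (.g (nat_lit 8) .nil .nil))) 
(.lf (nat_lit 96730) (.g (nat_lit 2019) (.e (nat_lit 2795) (nat_lit 180) (.e (nat_lit 303116) (nat_lit 2) (.e (nat_lit 196666) (nat_lit 13) (.e (nat_lit 65610) (nat_lit 10) (.e (nat_lit 344117) (nat_lit 21) .nil))))) .nil))) (.nd (nat_lit 6) 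
(.lf (nat_lit 96698) (.g (nat_lit 3770) (.e (nat_lit 2789) (nat_lit 179) (.e (nat_lit 294957) (nat_lit 13) (.e (nat_lit 393301) (nat_lit 27) (.e (nat_lit 491560) (nat_lit 10) (.e (nat_lit 344090) (nat_lit 18) (.e (nat_lit 7119) (nat_lit 382) (.e (nat_lit 26) (nat_lit 0) .nil))))))) (.g (nat_lit 5) .nil .nil))) 
(.lf (nat_lit 96762) (.g (nat_lit 1413) (.e (nat_lit 2797) (nat_lit 180) (.e (nat_lit 303117) (nat_lit 2) (.e (nat_lit 196630) (nat_lit 9) (.e (nat_lit 1553) (nat_lit 110) (.e (nat_lit 352312) (nat_lit 22) .nil))))) .nil)))))) (.nd (nat_lit 3) (.nd (nat_lit 4) (.nd (nat_lit 5) (.nd (nat_lit 6) 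
(.lf (nat_lit 96646) (.g (nat_lit 1533) (.e (nat_lit 2786) (nat_lit 179) (.e (nat_lit 294973) (nat_lit 28) (.e (nat_lit 434180) (nat_lit 0) (.e (nat_lit 1661) (nat_lit 115) (.e (nat_lit 393242) (nat_lit 17) (.e (nat_lit 7008) (nat_lit 377) .nil)))))) (.g (nat_lit 0) .nil .nil))) 
(.lf (nat_lit 96710) (.g (nat_lit 1383) (.e (nat_lit 2789) (nat_lit 179) (.e (nat_lit 294973) (nat_lit 28) (.e (nat_lit 434180) (nat_lit 0) (.e (nat_lit 1661) (nat_lit 115) (.e (nat_lit 393242) (nat_lit 17) (.e (nat_lit 6966) (nat_lit 377) .nil)))))) (.g (nat_lit 4) .nil .nil)))) (.nd (nat_lit 6) 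
(.lf (nat_lit 96678) (.g (nat_lit 1884) (.e (nat_lit 2788) (nat_lit 179) (.e (nat_lit 294959) (nat_lit 13) (.e (nat_lit 393260) (nat_lit 21) (.e (nat_lit 409649) (nat_lit 18) (.e (nat_lit 303114) (nat_lit 1) (.e (nat_lit 164151) (nat_lit 152) (.e (nat_lit 21) (nat_lit 0) .nil))))))) (.g (nat_lit 4) .nil .nil))) 
(.lf (nat_lit 96742) (.g (nat_lit 4292) (.e (nat_lit 2796) (nat_lit 180) (.e (nat_lit 303117) (nat_lit 2) (.e (nat_lit 196666) (nat_lit 13) (.e (nat_lit 65617) (nat_lit 10) (.e (nat_lit 344117) (nat_lit 21) .nil))))) .nil)))) (.nd (nat_lit 5) (.nd (nat_lit 6) 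
(.lf (nat_lit 96662) (.g (nat_lit 3638) (.e (nat_lit 2788) (nat_lit 179) (.e (nat_lit 294957) (nat_lit 13) (.e (nat_lit 393301) (nat_lit 27) (.e (nat_lit 491559) (nat_lit 10) (.e (nat_lit 344177) (nat_lit 43) (.e (nat_lit 777984) (nat_lit 0) .nil)))))) (.g (nat_lit 5) .nil .nil))) 
(.lf (nat_lit 96726) (.g (nat_lit 1839) (.e (nat_lit 2793) (nat_lit 179) (.e (nat_lit 294960) (nat_lit 13) (.e (nat_lit 393260) (nat_lit 21) (.e (nat_lit 409646) (nat_lit 18) (.e (nat_lit 303115) (nat_lit 1) .nil))))) .nil))) (.nd (nat_lit 6) 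
(.lf (nat_lit 96694) (.g (nat_lit 3019) (.e (nat_lit 2789) (nat_lit 179) (.e (nat_lit 294957) (nat_lit 13) (.e (nat_lit 393301) (nat_lit 27) (.e (nat_lit 491559) (nat_lit 10) (.e (nat_lit 344091) (nat_lit 18) (.e (nat_lit 7119) (nat_lit 382) (.e (nat_lit 26) (nat_lit 0) .nil))))))) (.g (nat_lit 4) .nil .nil))) 
(.lf (nat_lit 96758) (.g (nat_lit 2075) (.e (nat_lit 2797) (nat_lit 180) (.e (nat_lit 303117) (nat_lit 2) (.e (nat_lit 196624) (nat_lit 9) (.e (nat_lit 1615) (nat_lit 113) (.e (nat_lit 376869) (nat_lit 23) (.e (nat_lit 98329) (nat_lit 17) (.e (nat_lit 7936) (nat_lit 377) .nil))))))) (.g (nat_lit 5) .nil .nil)))))) (.nd (nat_lit 4) (.nd (nat_lit 5) (.nd (nat_lit 6) 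
(.lf (nat_lit 96654) (.g (nat_lit 1496) (.e (nat_lit 2787) (nat_lit 179) (.e (nat_lit 294959) (nat_lit 13) (.e (nat_lit 393260) (nat_lit 21) (.e (nat_lit 409647) (nat_lit 18) (.e (nat_lit 303115) (nat_lit 1) .nil))))) .nil)) 
(.lf (nat_lit 96718) (.g (nat_lit 1747) (.e (nat_lit 2789) (nat_lit 179) (.e (nat_lit 294973) (nat_lit 28) (.e (nat_lit 434181) (nat_lit 0) (.e (nat_lit 1661) (nat_lit 115) (.e (nat_lit 393242) (nat_lit 17) (.e (nat_lit 7016) (nat_lit 377) .nil)))))) (.g (nat_lit 5) .nil .nil)))) (.nd (nat_lit 6) 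
(.lf (nat_lit 96686) (.g (nat_lit 1004) (.e (nat_lit 2789) (nat_lit 179) (.e (nat_lit 294930) (nat_lit 3) (.e (nat_lit 106240) (nat_lit 16) (.e (nat_lit 401459) (nat_lit 13) (.e (nat_lit 483332) (nat_lit 0) (.e (nat_lit 7010) (nat_lit 377) .nil)))))) (.g (nat_lit 4) .nil .nil))) 
(.lf (nat_lit 96750) (.g (nat_lit 1352) (.e (nat_lit 2796) (nat_lit 180) (.e (nat_lit 303143) (nat_lit 12) (.e (nat_lit 475184) (nat_lit 29) (.e (nat_lit 557109) (nat_lit 15) .nil)))) .nil)))) (.nd (nat_lit 5) (.nd (nat_lit 6) 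
(.lf (nat_lit 96670) (.g (nat_lit 2776) (.e (nat_lit 2788) (nat_lit 179) (.e (nat_lit 294959) (nat_lit 13) (.e (nat_lit 393260) (nat_lit 21) (.e (nat_lit 409645) (nat_lit 18) (.e (nat_lit 303115) (nat_lit 1) (.e (nat_lit 164151) (nat_lit 152) (.e (nat_lit 21) (nat_lit 0) .nil))))))) (.g (nat_lit 5) .nil .nil))) 
(.lf (nat_lit 96734) (.g (nat_lit 1872) (.e (nat_lit 2795) (nat_lit 180) (.e (nat_lit 303117) (nat_lit 2) (.e (nat_lit 196673) (nat_lit 15) (.e (nat_lit 81956) (nat_lit 23) .nil)))) .nil))) (.nd (nat_lit 6) 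
(.lf (nat_lit 96702) (.g (nat_lit 2954) (.e (nat_lit 2789) (nat_lit 179) (.e (nat_lit 294957) (nat_lit 13) (.e (nat_lit 393301) (nat_lit 27) (.e (nat_lit 491560) (nat_lit 10) (.e (nat_lit 344099) (nat_lit 18) (.e (nat_lit 7144) (nat_lit 382) (.e (nat_lit 26) (nat_lit 0) .nil))))))) (.g (nat_lit 4) .nil .nil))) 
(.lf (nat_lit 96766) (.g (nat_lit 1092) (.e (nat_lit 2797) (nat_lit 180) (.e (nat_lit 303117) (nat_lit 2) (.e (nat_lit 196630) (nat_lit 9) (.e (nat_lit 1573) (nat_lit 110) .nil)))) .nil)))))))) (.nd (nat_lit 1) (.nd (nat_lit 2) (.nd (nat_lit 3) (.nd (nat_lit 4) (.nd (nat_lit 5) (.nd (nat_lit 6) 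
(.lf (nat_lit 96641) (.g (nat_lit 2659) (.e (nat_lit 2786) (nat_lit 179) (.e (nat_lit 294958) (nat_lit 13) (.e (nat_lit 393301) (nat_lit 27) (.e (nat_lit 491560) (nat_lit 10) (.e (nat_lit 344174) (nat_lit 42) (.e (nat_lit 761860) (nat_lit 0) .nil)))))) (.g (nat_lit 4) .nil .nil))) 
(.lf (nat_lit 96705) (.g (nat_lit 2367) (.e (nat_lit 2789) (nat_lit 179) (.e (nat_lit 294973) (nat_lit 28) (.e (nat_lit 434180) (nat_lit 0) (.e (nat_lit 1661) (nat_lit 115) (.e (nat_lit 393238) (nat_lit 17) (.e (nat_lit 6997) (nat_lit 377) .nil)))))) (.g (nat_lit 5) .nil .nil)))) (.nd (nat_lit 6) 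
(.lf (nat_lit 96673) (.g (nat_lit 1335) (.e (nat_lit 2788) (nat_lit 179) (.e (nat_lit 294959) (nat_lit 13) (.e (nat_lit 393260) (nat_lit 21) (.e (nat_lit 409648) (nat_lit 18) (.e (nat_lit 303114) (nat_lit 1) (.e (nat_lit 164150) (nat_lit 152) (.e (nat_lit 26) (nat_lit 0) .nil))))))) (.g (nat_lit 4) .nil .nil))) 
(.lf (nat_lit 96737) (.g (nat_lit 1237) (.e (nat_lit 2795) (nat_lit 180) (.e (nat_lit 303143) (nat_lit 12) (.e (nat_lit 475185) (nat_lit 29) (.e (nat_lit 557100) (nat_lit 13) .nil)))) .nil)))) (.nd (nat_lit 5) (.nd (nat_lit 6) 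
(.lf (nat_lit 96657) (.g (nat_lit 1716) (.e (nat_lit 2787) (nat_lit 179) (.e (nat_lit 294966) (nat_lit 15) (.e (nat_lit 3307) (nat_lit 202) (.e (nat_lit 573479) (nat_lit 13) (.e (nat_lit 65619) (nat_lit 10) (.e (nat_lit 344117) (nat_lit 21) (.e (nat_lit 516106) (nat_lit 0) (.e (nat_lit 7008) (nat_lit 377) .nil)))))))) (.g (nat_lit 4) .nil .nil))) 
(.lf (nat_lit 96721) (.g (nat_lit 2573) (.e (nat_lit 2791) (nat_lit 179) (.e (nat_lit 294958) (nat_lit 13) (.e (nat_lit 393301) (nat_lit 27) (.e (nat_lit 491560) (nat_lit 10) (.e (nat_lit 344097) (nat_lit 18) .nil))))) .nil))) (.nd (nat_lit 6) 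
(.lf (nat_lit 96689) (.g (nat_lit 2173) (.e (nat_lit 2789) (nat_lit 179) (.e (nat_lit 294957) (nat_lit 13) (.e (nat_lit 393301) (nat_lit 27) (.e (nat_lit 491558) (nat_lit 10) (.e (nat_lit 344091) (nat_lit 18) .nil))))) .nil)) 
(.lf (nat_lit 96753) (.g (nat_lit 1019) (.e (nat_lit 2797) (nat_lit 180) (.e (nat_lit 303115) (nat_lit 1) (.e (nat_lit 164179) (nat_lit 154) (.e (nat_lit 57437) (nat_lit 17) .nil)))) .nil))))) (.nd (nat_lit 4) (.nd (nat_lit 5) (.nd (nat_lit 6) 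
(.lf (nat_lit 96649) (.g (nat_lit 2251) (.e (nat_lit 2787) (nat_lit 179) (.e (nat_lit 294931) (nat_lit 3) (.e (nat_lit 98350) (nat_lit 24) (.e (nat_lit 409617) (nat_lit 10) (.e (nat_lit 5355) (nat_lit 298) .nil))))) .nil)) 
(.lf (nat_lit 96713) (.g (nat_lit 2262) (.e (nat_lit 2789) (nat_lit 179) (.e (nat_lit 294973) (nat_lit 28) (.e (nat_lit 434181) (nat_lit 0) (.e (nat_lit 1661) (nat_lit 115) (.e (nat_lit 393238) (nat_lit 17) (.e (nat_lit 6997) (nat_lit 377) .nil)))))) (.g (nat_lit 5) .nil .nil)))) (.nd (nat_lit 6) 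
(.lf (nat_lit 96681) (.g (nat_lit 2370) (.e (nat_lit 2788) (nat_lit 179) (.e (nat_lit 294959) (nat_lit 13) (.e (nat_lit 393260) (nat_lit 21) (.e (nat_lit 409649) (nat_lit 18) (.e (nat_lit 303115) (nat_lit 1) (.e (nat_lit 164151) (nat_lit 152) (.e (nat_lit 21) (nat_lit 0) .nil))))))) (.g (nat_lit 6) .nil .nil))) 
(.lf (nat_lit 96745) (.g (nat_lit 651) (.e (nat_lit 2796) (nat_lit 180) (.e (nat_lit 303117) (nat_lit 2) (.e (nat_lit 196673) (nat_lit 15) .nil))) .nil)))) (.nd (nat_lit 5) (.nd (nat_lit 6) 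
(.lf (nat_lit 96665) (.g (nat_lit 2948) (.e (nat_lit 2788) (nat_lit 179) (.e (nat_lit 294959) (nat_lit 13) (.e (nat_lit 393225) (nat_lit 9) (.e (nat_lit 335995) (nat_lit 1) (.e (nat_lit 57872) (nat_lit 264) (.e (nat_lit 1172) (nat_lit 87) (.e (nat_lit 57454) (nat_lit 21) (.e (nat_lit 499732) (nat_lit 0) .nil)))))))) (.g (nat_lit 7) .nil .nil))) 
(.lf (nat_lit 96729) (.g (nat_lit 2662) (.e (nat_lit 2793) (nat_lit 179) (.e (nat_lit 294973) (nat_lit 28) (.e (nat_lit 434180) (nat_lit 0) (.e (nat_lit 1661) (nat_lit 115) (.e (nat_lit 393238) (nat_lit 17) (.e (nat_lit 6989) (nat_lit 377) .nil)))))) (.g (nat_lit 0) .nil .nil)))) (.nd (nat_lit 6) 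
(.lf (nat_lit 96697) (.g (nat_lit 2869) (.e (nat_lit 2789) (nat_lit 179) (.e (nat_lit 294957) (nat_lit 13) (.e (nat_lit 393301) (nat_lit 27) (.e (nat_lit 491560) (nat_lit 10) (.e (nat_lit 344087) (nat_lit 18) (.e (nat_lit 7140) (nat_lit 382) (.e (nat_lit 26) (nat_lit 0) .nil))))))) (.g (nat_lit 4) .nil .nil))) 
(.lf (nat_lit 96761) (.g (nat_lit 1095) (.e (nat_lit 2797) (nat_lit 180) (.e (nat_lit 303117) (nat_lit 2) (.e (nat_lit 196630) (nat_lit 9) (.e (nat_lit 1462) (nat_lit 108) .nil)))) .nil)))))) (.nd (nat_lit 3) (.nd (nat_lit 4) (.nd (nat_lit 5) (.nd (nat_lit 6) 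
(.lf (nat_lit 96645) (.g (nat_lit 2326) (.e (nat_lit 2786) (nat_lit 179) (.e (nat_lit 294960) (nat_lit 13) (.e (nat_lit 393260) (nat_lit 21) (.e (nat_lit 409649) (nat_lit 18) (.e (nat_lit 303114) (nat_lit 1) .nil))))) .nil)) 
(.lf (nat_lit 96709) (.g (nat_lit 2238) (.e (nat_lit 2789) (nat_lit 179) (.e (nat_lit 294973) (nat_lit 28) (.e (nat_lit 434180) (nat_lit 0) (.e (nat_lit 1661) (nat_lit 115) (.e (nat_lit 393238) (nat_lit 17) (.e (nat_lit 7013) (nat_lit 377) .nil)))))) (.g (nat_lit 5) .nil .nil)))) (.nd (nat_lit 6) 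
(.lf (nat_lit 96677) (.g (nat_lit 1568) (.e (nat_lit 2788) (nat_lit 179) (.e (nat_lit 294959) (nat_lit 13) (.e (nat_lit 393260) (nat_lit 21) (.e (nat_lit 409649) (nat_lit 18) (.e (nat_lit 303114) (nat_lit 1) .nil))))) .nil)) 
(.lf (nat_lit 96741) (.g (nat_lit 2600) (.e (nat_lit 2796) (nat_lit 180) (.e (nat_lit 303117) (nat_lit 2) (.e (nat_lit 196666) (nat_lit 13) (.e (nat_lit 65610) (nat_lit 10) (.e (nat_lit 344117) (nat_lit 21) .nil))))) .nil)))) (.nd (nat_lit 5) (.nd (nat_lit 6) 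
(.lf (nat_lit 96661) (.g (nat_lit 888) (.e (nat_lit 2788) (nat_lit 179) (.e (nat_lit 294928) (nat_lit 2) (.e (nat_lit 90165) (nat_lit 12) (.e (nat_lit 164210) (nat_lit 176) .nil)))) .nil)) 
(.lf (nat_lit 96725) (.g (nat_lit 1242) (.e (nat_lit 2793) (nat_lit 179) (.e (nat_lit 294960) (nat_lit 13) (.e (nat_lit 393260) (nat_lit 21) (.e (nat_lit 409644) (nat_lit 18) .nil)))) .nil))) (.nd (nat_lit 6) 
(.lf (nat_lit 96693) (.g (nat_lit 2885) (.e (nat_lit 2789) (nat_lit 179) (.e (nat_lit 294957) (nat_lit 13) (.e (nat_lit 393301) (nat_lit 27) (.e (nat_lit 491558) (nat_lit 10) (.e (nat_lit 344097) (nat_lit 18) (.e (nat_lit 7144) (nat_lit 382) (.e (nat_lit 26) (nat_lit 0) .nil))))))) (.g (nat_lit 4) .nil .nil))) 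
(.lf (nat_lit 96757) (.g (nat_lit 2641) (.e (nat_lit 2797) (nat_lit 180) (.e (nat_lit 303117) (nat_lit 2) (.e (nat_lit 196624) (nat_lit 9) (.e (nat_lit 1615) (nat_lit 113) (.e (nat_lit 376865) (nat_lit 22) (.e (nat_lit 90181) (nat_lit 16) (.e (nat_lit 237312) (nat_lit 176) .nil))))))) (.g (nat_lit 6) .nil .nil)))))) (.nd (nat_lit 4) (.nd (nat_lit 5) (.nd (nat_lit 6) 
(.lf (nat_lit 96653) (.g (nat_lit 1242) (.e (nat_lit 2787) (nat_lit 179) (.e (nat_lit 294959) (nat_lit 13) (.e (nat_lit 393260) (nat_lit 21) (.e (nat_lit 409646) (nat_lit 18) (.e (nat_lit 303115) (nat_lit 1) .nil))))) .nil)) 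
(.lf (nat_lit 96717) (.g (nat_lit 1451) (.e (nat_lit 2789) (nat_lit 179) (.e (nat_lit 294973) (nat_lit 28) (.e (nat_lit 434181) (nat_lit 0) (.e (nat_lit 1661) (nat_lit 115) (.e (nat_lit 393242) (nat_lit 17) (.e (nat_lit 6966) (nat_lit 377) .nil)))))) (.g (nat_lit 4) .nil .nil)))) (.nd (nat_lit 6) 
(.lf (nat_lit 96685) (.g (nat_lit 1438) (.e (nat_lit 2788) (nat_lit 179) (.e (nat_lit 294973) (nat_lit 28) (.e (nat_lit 434181) (nat_lit 0) (.e (nat_lit 1661) (nat_lit 115) (.e (nat_lit 393242) (nat_lit 17) (.e (nat_lit 7016) (nat_lit 377) .nil)))))) (.g (nat_lit 5) .nil .nil))) 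
(.lf (nat_lit 96749) (.g (nat_lit 2546) (.e (nat_lit 2796) (nat_lit 180) (.e (nat_lit 303143) (nat_lit 12) (.e (nat_lit 475183) (nat_lit 29) (.e (nat_lit 557108) (nat_lit 15) (.e (nat_lit 188449) (nat_lit 22) .nil))))) .nil)))) (.nd (nat_lit 5) (.nd (nat_lit 6) 
(.lf (nat_lit 96669) (.g (nat_lit 1724) (.e (nat_lit 2788) (nat_lit 179) (.e (nat_lit 294959) (nat_lit 13) (.e (nat_lit 393260) (nat_lit 21) (.e (nat_lit 409644) (nat_lit 18) (.e (nat_lit 303115) (nat_lit 1) (.e (nat_lit 164151) (nat_lit 152) (.e (nat_lit 21) (nat_lit 0) .nil))))))) (.g (nat_lit 4) .nil .nil))) 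
(.lf (nat_lit 96733) (.g (nat_lit 1872) (.e (nat_lit 2795) (nat_lit 180) (.e (nat_lit 303117) (nat_lit 2) (.e (nat_lit 196672) (nat_lit 15) (.e (nat_lit 81954) (nat_lit 23) .nil)))) .nil))) (.nd (nat_lit 6) 
(.lf (nat_lit 96701) (.g (nat_lit 2487) (.e (nat_lit 2789) (nat_lit 179) (.e (nat_lit 294957) (nat_lit 13) (.e (nat_lit 393301) (nat_lit 27) (.e (nat_lit 491560) (nat_lit 10) (.e (nat_lit 344099) (nat_lit 18) .nil))))) .nil)) 
(.lf (nat_lit 96765) (.g (nat_lit 1143) (.e (nat_lit 2797) (nat_lit 180) (.e (nat_lit 303117) (nat_lit 2) (.e (nat_lit 196630) (nat_lit 9) (.e (nat_lit 1566) (nat_lit 110) .nil)))) .nil))))))) (.nd (nat_lit 2) (.nd (nat_lit 3) (.nd (nat_lit 4) (.nd (nat_lit 5) (.nd (nat_lit 6) 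
(.lf (nat_lit 96643) (.g (nat_lit 1501) (.e (nat_lit 2786) (nat_lit 179) (.e (nat_lit 294960) (nat_lit 13) (.e (nat_lit 393260) (nat_lit 21) (.e (nat_lit 409623) (nat_lit 10) (.e (nat_lit 5664) (nat_lit 312) .nil))))) .nil)) 
(.lf (nat_lit 96707) (.g (nat_lit 2073) (.e (nat_lit 2789) (nat_lit 179) (.e (nat_lit 294973) (nat_lit 28) (.e (nat_lit 434180) (nat_lit 0) (.e (nat_lit 1661) (nat_lit 115) (.e (nat_lit 393238) (nat_lit 17) (.e (nat_lit 7007) (nat_lit 377) .nil)))))) (.g (nat_lit 5) .nil .nil)))) (.nd (nat_lit 6) 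
(.lf (nat_lit 96675) (.g (nat_lit 1773) (.e (nat_lit 2788) (nat_lit 179) (.e (nat_lit 294959) (nat_lit 13) (.e (nat_lit 393260) (nat_lit 21) (.e (nat_lit 409648) (nat_lit 18) (.e (nat_lit 303115) (nat_lit 1) (.e (nat_lit 164150) (nat_lit 152) (.e (nat_lit 24) (nat_lit 0) .nil))))))) (.g (nat_lit 4) .nil .nil))) 
(.lf (nat_lit 96739) (.g (nat_lit 2296) (.e (nat_lit 2796) (nat_lit 180) (.e (nat_lit 303116) (nat_lit 2) (.e (nat_lit 196672) (nat_lit 15) (.e (nat_lit 81951) (nat_lit 22) (.e (nat_lit 90165) (nat_lit 12) .nil))))) .nil)))) (.nd (nat_lit 5) (.nd (nat_lit 6) 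
(.lf (nat_lit 96659) (.g (nat_lit 1099) (.e (nat_lit 2787) (nat_lit 179) (.e (nat_lit 294973) (nat_lit 28) (.e (nat_lit 434181) (nat_lit 0) (.e (nat_lit 1426) (nat_lit 108) (.e (nat_lit 336421) (nat_lit 28) (.e (nat_lit 434189) (nat_lit 13) .nil)))))) (.g (nat_lit 0) .nil .nil))) 
(.lf (nat_lit 96723) (.g (nat_lit 184) (.e (nat_lit 2793) (nat_lit 179) (.e (nat_lit 294955) (nat_lit 12) (.e (nat_lit 385102) (nat_lit 50) .nil))) .nil))) (.nd (nat_lit 6) 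
(.lf (nat_lit 96691) (.g (nat_lit 2798) (.e (nat_lit 2789) (nat_lit 179) (.e (nat_lit 294957) (nat_lit 13) (.e (nat_lit 393301) (nat_lit 27) (.e (nat_lit 491558) (nat_lit 10) (.e (nat_lit 344093) (nat_lit 18) (.e (nat_lit 7140) (nat_lit 382) (.e (nat_lit 26) (nat_lit 0) .nil))))))) (.g (nat_lit 4) .nil .nil))) 
(.lf (nat_lit 96755) (.g (nat_lit 858) (.e (nat_lit 2797) (nat_lit 180) (.e (nat_lit 303117) (nat_lit 2) (.e (nat_lit 196624) (nat_lit 9) (.e (nat_lit 1615) (nat_lit 113) .nil)))) .nil))))) (.nd (nat_lit 4) (.nd (nat_lit 5) (.nd (nat_lit 6) 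
(.lf (nat_lit 96651) (.g (nat_lit 4227) (.e (nat_lit 2787) (nat_lit 179) (.e (nat_lit 294958) (nat_lit 13) (.e (nat_lit 393301) (nat_lit 27) (.e (nat_lit 491559) (nat_lit 10) (.e (nat_lit 344177) (nat_lit 43) (.e (nat_lit 770052) (nat_lit 0) .nil)))))) (.g (nat_lit 6) .nil .nil))) 
(.lf (nat_lit 96715) (.g (nat_lit 2160) (.e (nat_lit 2789) (nat_lit 179) (.e (nat_lit 294973) (nat_lit 28) (.e (nat_lit 434181) (nat_lit 0) (.e (nat_lit 1661) (nat_lit 115) (.e (nat_lit 393238) (nat_lit 17) (.e (nat_lit 7011) (nat_lit 377) .nil)))))) (.g (nat_lit 5) .nil .nil)))) (.nd (nat_lit 6) 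
(.lf (nat_lit 96683) (.g (nat_lit 1843) (.e (nat_lit 2788) (nat_lit 179) (.e (nat_lit 294966) (nat_lit 15) (.e (nat_lit 3307) (nat_lit 202) (.e (nat_lit 573479) (nat_lit 13) (.e (nat_lit 65619) (nat_lit 10) (.e (nat_lit 344117) (nat_lit 21) (.e (nat_lit 516106) (nat_lit 0) (.e (nat_lit 7008) (nat_lit 377) .nil)))))))) (.g (nat_lit 4) .nil .nil))) 
(.lf (nat_lit 96747) (.g (nat_lit 2169) (.e (nat_lit 2796) (nat_lit 180) (.e (nat_lit 303133) (nat_lit 9) (.e (nat_lit 426412) (nat_lit 15) (.e (nat_lit 1846) (nat_lit 124) .nil)))) .nil)))) (.nd (nat_lit 5) (.nd (nat_lit 6) 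
(.lf (nat_lit 96667) (.g (nat_lit 1337) (.e (nat_lit 2788) (nat_lit 179) (.e (nat_lit 294959) (nat_lit 13) (.e (nat_lit 393260) (nat_lit 21) (.e (nat_lit 409643) (nat_lit 18) (.e (nat_lit 303115) (nat_lit 1) (.e (nat_lit 164150) (nat_lit 152) (.e (nat_lit 24) (nat_lit 0) .nil))))))) (.g (nat_lit 4) .nil .nil))) 
(.lf (nat_lit 96731) (.g (nat_lit 3531) (.e (nat_lit 2795) (nat_lit 180) (.e (nat_lit 303117) (nat_lit 2) (.e (nat_lit 196666) (nat_lit 13) (.e (nat_lit 65617) (nat_lit 10) .nil)))) .nil))) (.nd (nat_lit 6) 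
(.lf (nat_lit 96699) (.g (nat_lit 3105) (.e (nat_lit 2789) (nat_lit 179) (.e (nat_lit 294957) (nat_lit 13) (.e (nat_lit 393301) (nat_lit 27) (.e (nat_lit 491560) (nat_lit 10) (.e (nat_lit 344093) (nat_lit 18) .nil))))) .nil)) 
(.lf (nat_lit 96763) (.g (nat_lit 1147) (.e (nat_lit 2797) (nat_lit 180) (.e (nat_lit 303117) (nat_lit 2) (.e (nat_lit 196630) (nat_lit 9) (.e (nat_lit 1563) (nat_lit 110) .nil)))) .nil)))))) (.nd (nat_lit 3) (.nd (nat_lit 4) (.nd (nat_lit 5) (.nd (nat_lit 6) 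
(.lf (nat_lit 96647) (.g (nat_lit 811) (.e (nat_lit 2787) (nat_lit 179) (.e (nat_lit 294928) (nat_lit 2) (.e (nat_lit 90165) (nat_lit 12) (.e (nat_lit 171776) (nat_lit 194) .nil)))) .nil)) 
(.lf (nat_lit 96711) (.g (nat_lit 1539) (.e (nat_lit 2789) (nat_lit 179) (.e (nat_lit 294973) (nat_lit 28) (.e (nat_lit 434180) (nat_lit 0) (.e (nat_lit 1661) (nat_lit 115) (.e (nat_lit 393242) (nat_lit 17) (.e (nat_lit 7016) (nat_lit 377) .nil)))))) (.g (nat_lit 5) .nil .nil)))) (.nd (nat_lit 6) 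
(.lf (nat_lit 96679) (.g (nat_lit 1806) (.e (nat_lit 2788) (nat_lit 179) (.e (nat_lit 294959) (nat_lit 13) (.e (nat_lit 393260) (nat_lit 21) (.e (nat_lit 409649) (nat_lit 18) (.e (nat_lit 303115) (nat_lit 1) (.e (nat_lit 164150) (nat_lit 152) (.e (nat_lit 21) (nat_lit 0) .nil))))))) (.g (nat_lit 5) .nil .nil))) 
(.lf (nat_lit 96743) (.g (nat_lit 3339) (.e (nat_lit 2796) (nat_lit 180) (.e (nat_lit 303117) (nat_lit 2) (.e (nat_lit 196666) (nat_lit 13) (.e (nat_lit 65619) (nat_lit 10) .nil)))) .nil)))) (.nd (nat_lit 5) (.nd (nat_lit 6) 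
(.lf (nat_lit 96663) (.g (nat_lit 917) (.e (nat_lit 2788) (nat_lit 179) (.e (nat_lit 294959) (nat_lit 13) (.e (nat_lit 393221) (nat_lit 0) (.e (nat_lit 6216) (nat_lit 333) (.e (nat_lit 57864) (nat_lit 256) (.e (nat_lit 7936) (nat_lit 2) (.e (nat_lit 90187) (nat_lit 18) .nil))))))) (.g (nat_lit 4) .nil .nil))) 
(.lf (nat_lit 96727) (.g (nat_lit 1381) (.e (nat_lit 2793) (nat_lit 179) (.e (nat_lit 294960) (nat_lit 13) (.e (nat_lit 393260) (nat_lit 21) (.e (nat_lit 409648) (nat_lit 18) .nil)))) .nil))) (.nd (nat_lit 6) 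
(.lf (nat_lit 96695) (.g (nat_lit 2638) (.e (nat_lit 2789) (nat_lit 179) (.e (nat_lit 294957) (nat_lit 13) (.e (nat_lit 393301) (nat_lit 27) (.e (nat_lit 491559) (nat_lit 10) (.e (nat_lit 344093) (nat_lit 18) .nil))))) .nil)) 
(.lf (nat_lit 96759) (.g (nat_lit 2168) (.e (nat_lit 2797) (nat_lit 180) (.e (nat_lit 303117) (nat_lit 2) (.e (nat_lit 196624) (nat_lit 9) (.e (nat_lit 1615) (nat_lit 113) (.e (nat_lit 376869) (nat_lit 23) (.e (nat_lit 98331) (nat_lit 17) (.e (nat_lit 7936) (nat_lit 377) .nil))))))) (.g (nat_lit 5) .nil .nil)))))) (.nd (nat_lit 4) (.nd (nat_lit 5) (.nd (nat_lit 6) 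
(.lf (nat_lit 96655) (.g (nat_lit 1629) (.e (nat_lit 2787) (nat_lit 179) (.e (nat_lit 294959) (nat_lit 13) (.e (nat_lit 393260) (nat_lit 21) (.e (nat_lit 409648) (nat_lit 18) (.e (nat_lit 303108) (nat_lit 0) .nil))))) .nil)) 
(.lf (nat_lit 96719) (.g (nat_lit 2235) (.e (nat_lit 2789) (nat_lit 179) (.e (nat_lit 294973) (nat_lit 28) (.e (nat_lit 434212) (nat_lit 18) (.e (nat_lit 6273) (nat_lit 337) (.e (nat_lit 1207) (nat_lit 89) (.e (nat_lit 73754) (nat_lit 8) (.e (nat_lit 557094) (nat_lit 12) (.e (nat_lit 164213) (nat_lit 176) .nil)))))))) (.g (nat_lit 6) .nil .nil)))) (.nd (nat_lit 6) 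
(.lf (nat_lit 96687) (.g (nat_lit 2439) (.e (nat_lit 2789) (nat_lit 179) (.e (nat_lit 294957) (nat_lit 13) (.e (nat_lit 393301) (nat_lit 27) (.e (nat_lit 491546) (nat_lit 9) (.e (nat_lit 335997) (nat_lit 1) (.e (nat_lit 57652) (nat_lit 152) (.e (nat_lit 26) (nat_lit 0) .nil))))))) (.g (nat_lit 4) .nil .nil))) 
(.lf (nat_lit 96751) (.g (nat_lit 1570) (.e (nat_lit 2797) (nat_lit 180) (.e (nat_lit 303115) (nat_lit 1) (.e (nat_lit 164178) (nat_lit 154) (.e (nat_lit 57437) (nat_lit 17) (.e (nat_lit 384768) (nat_lit 12) (.e (nat_lit 442112) (nat_lit 13) .nil)))))) (.g (nat_lit 4) .nil .nil))))) (.nd (nat_lit 5) (.nd (nat_lit 6) 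
(.lf (nat_lit 96671) (.g (nat_lit 1517) (.e (nat_lit 2788) (nat_lit 179) (.e (nat_lit 294959) (nat_lit 13) (.e (nat_lit 393260) (nat_lit 21) (.e (nat_lit 409648) (nat_lit 18) (.e (nat_lit 303114) (nat_lit 1) (.e (nat_lit 164150) (nat_lit 152) (.e (nat_lit 21) (nat_lit 0) .nil))))))) (.g (nat_lit 4) .nil .nil))) 
(.lf (nat_lit 96735) (.g (nat_lit 864) (.e (nat_lit 2795) (nat_lit 180) (.e (nat_lit 303117) (nat_lit 2) (.e (nat_lit 196674) (nat_lit 15) .nil))) .nil))) (.nd (nat_lit 6) 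
(.lf (nat_lit 96703) (.g (nat_lit 2012) (.e (nat_lit 2789) (nat_lit 179) (.e (nat_lit 294966) (nat_lit 15) (.e (nat_lit 3307) (nat_lit 202) (.e (nat_lit 573479) (nat_lit 13) (.e (nat_lit 65619) (nat_lit 10) (.e (nat_lit 344117) (nat_lit 21) (.e (nat_lit 516106) (nat_lit 0) (.e (nat_lit 7008) (nat_lit 377) .nil)))))))) (.g (nat_lit 4) .nil .nil))) 
(.lf (nat_lit 96767) (.g (nat_lit 2153) (.e (nat_lit 2797) (nat_lit 180) (.e (nat_lit 303117) (nat_lit 2) (.e (nat_lit 196630) (nat_lit 9) (.e (nat_lit 1573) (nat_lit 110) (.e (nat_lit 352311) (nat_lit 22) (.e (nat_lit 90165) (nat_lit 12) (.e (nat_lit 164207) (nat_lit 176) .nil))))))) (.g (nat_lit 4) .nil .nil))))))))))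

noncomputable def tv1325 : DT := (.nd (nat_lit 0) (.nd (nat_lit 1) (.nd (nat_lit 2) (.nd (nat_lit 3) (.nd (nat_lit 4) (.nd (nat_lit 5) 
(.lf (nat_lit 96768) (.g (nat_lit 2140) (.e (nat_lit 2797) (nat_lit 180) (.e (nat_lit 303117) (nat_lit 2) (.e (nat_lit 196630) (nat_lit 9) (.e (nat_lit 1573) (nat_lit 110) (.e (nat_lit 352311) (nat_lit 22) (.e (nat_lit 90165) (nat_lit 12) (.e (nat_lit 164209) (nat_lit 176) .nil))))))) (.g (nat_lit 4) .nil .nil))) 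
(.lf (nat_lit 96800) (.g (nat_lit 2533) (.e (nat_lit 2797) (nat_lit 180) (.e (nat_lit 303127) (nat_lit 9) (.e (nat_lit 426402) (nat_lit 15) (.e (nat_lit 1859) (nat_lit 124) (.e (nat_lit 557109) (nat_lit 15) (.e (nat_lit 188449) (nat_lit 22) (.e (nat_lit 204544) (nat_lit 18) .nil))))))) (.g (nat_lit 6) .nil .nil)))) (.nd (nat_lit 5) 
(.lf (nat_lit 96784) (.g (nat_lit 1340) (.e (nat_lit 2797) (nat_lit 180) (.e (nat_lit 303119) (nat_lit 3) (.e (nat_lit 204850) (nat_lit 26) (.e (nat_lit 336110) (nat_lit 9) .nil)))) .nil)) 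
(.lf (nat_lit 96816) (.g (nat_lit 2400) (.e (nat_lit 2798) (nat_lit 180) (.e (nat_lit 303116) (nat_lit 2) (.e (nat_lit 196672) (nat_lit 15) (.e (nat_lit 81954) (nat_lit 23) (.e (nat_lit 98325) (nat_lit 17) (.e (nat_lit 7936) (nat_lit 377) .nil)))))) (.g (nat_lit 4) .nil .nil))))) (.nd (nat_lit 4) (.nd (nat_lit 5) 
(.lf (nat_lit 96776) (.g (nat_lit 1672) (.e (nat_lit 2797) (nat_lit 180) (.e (nat_lit 303117) (nat_lit 2) (.e (nat_lit 196671) (nat_lit 15) (.e (nat_lit 81956) (nat_lit 23) (.e (nat_lit 98325) (nat_lit 17) .nil))))) .nil)) 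
(.lf (nat_lit 96808) (.g (nat_lit 1731) (.e (nat_lit 2797) (nat_lit 180) (.e (nat_lit 311040) (nat_lit 18) (.e (nat_lit 98359) (nat_lit 26) (.e (nat_lit 426132) (nat_lit 3) (.e (nat_lit 204838) (nat_lit 20) (.e (nat_lit 114716) (nat_lit 22) (.e (nat_lit 90196) (nat_lit 18) .nil))))))) (.g (nat_lit 4) .nil .nil)))) (.nd (nat_lit 5) 
(.lf (nat_lit 96792) (.g (nat_lit 3092) (.e (nat_lit 2797) (nat_lit 180) (.e (nat_lit 303119) (nat_lit 3) (.e (nat_lit 204863) (nat_lit 27) (.e (nat_lit 344068) (nat_lit 0) (.e (nat_lit 2664) (nat_lit 167) (.e (nat_lit 196628) (nat_lit 9) (.e (nat_lit 970) (nat_lit 81) (.e (nat_lit 6202) (nat_lit 332) .nil)))))))) (.g (nat_lit 4) .nil .nil))) 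
(.lf (nat_lit 96824) (.g (nat_lit 1832) (.e (nat_lit 2798) (nat_lit 180) (.e (nat_lit 303117) (nat_lit 2) (.e (nat_lit 196664) (nat_lit 13) (.e (nat_lit 65619) (nat_lit 10) (.e (nat_lit 344117) (nat_lit 21) (.e (nat_lit 516106) (nat_lit 0) (.e (nat_lit 7008) (nat_lit 377) .nil))))))) (.g (nat_lit 4) .nil .nil)))))) (.nd (nat_lit 3) (.nd (nat_lit 4) (.nd (nat_lit 5) 
(.lf (nat_lit 96772) (.g (nat_lit 4177) (.e (nat_lit 2797) (nat_lit 180) (.e (nat_lit 303117) (nat_lit 2) (.e (nat_lit 196662) (nat_lit 13) (.e (nat_lit 65610) (nat_lit 10) (.e (nat_lit 344117) (nat_lit 21) (.e (nat_lit 516099) (nat_lit 0) (.e (nat_lit 7936) (nat_lit 377) .nil))))))) (.g (nat_lit 5) .nil .nil))) 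
(.lf (nat_lit 96804) (.g (nat_lit 2583) (.e (nat_lit 2797) (nat_lit 180) (.e (nat_lit 303145) (nat_lit 13) (.e (nat_lit 483346) (nat_lit 17) (.e (nat_lit 1049) (nat_lit 81) .nil)))) .nil))) (.nd (nat_lit 5) 
(.lf (nat_lit 96788) (.g (nat_lit 647) (.e (nat_lit 2797) (nat_lit 180) (.e (nat_lit 303119) (nat_lit 3) (.e (nat_lit 204857) (nat_lit 26) .nil))) .nil)) 
(.lf (nat_lit 96820) (.g (nat_lit 1725) (.e (nat_lit 2798) (nat_lit 180) (.e (nat_lit 303117) (nat_lit 2) (.e (nat_lit 196630) (nat_lit 9) (.e (nat_lit 1573) (nat_lit 110) (.e (nat_lit 352310) (nat_lit 22) (.e (nat_lit 90165) (nat_lit 12) (.e (nat_lit 164210) (nat_lit 176) .nil))))))) (.g (nat_lit 4) .nil .nil))))) (.nd (nat_lit 4) (.nd (nat_lit 5) 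
(.lf (nat_lit 96780) (.g (nat_lit 1741) (.e (nat_lit 2797) (nat_lit 180) (.e (nat_lit 303119) (nat_lit 3) (.e (nat_lit 204838) (nat_lit 20) (.e (nat_lit 122624) (nat_lit 1) .nil)))) .nil)) 
(.lf (nat_lit 96812) (.g (nat_lit 2247) (.e (nat_lit 2798) (nat_lit 180) (.e (nat_lit 303116) (nat_lit 2) (.e (nat_lit 196672) (nat_lit 15) (.e (nat_lit 81951) (nat_lit 22) (.e (nat_lit 90165) (nat_lit 12) .nil))))) .nil))) (.nd (nat_lit 5) 
(.lf (nat_lit 96796) (.g (nat_lit 2526) (.e (nat_lit 2797) (nat_lit 180) (.e (nat_lit 303127) (nat_lit 9) (.e (nat_lit 426360) (nat_lit 15) (.e (nat_lit 1859) (nat_lit 124) (.e (nat_lit 557109) (nat_lit 15) (.e (nat_lit 188449) (nat_lit 22) (.e (nat_lit 204544) (nat_lit 18) .nil))))))) (.g (nat_lit 6) .nil .nil))) 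
(.lf (nat_lit 96828) (.g (nat_lit 5030) (.e (nat_lit 2798) (nat_lit 180) (.e (nat_lit 303117) (nat_lit 2) (.e (nat_lit 196666) (nat_lit 13) (.e (nat_lit 65628) (nat_lit 14) (.e (nat_lit 401425) (nat_lit 2) (.e (nat_lit 196628) (nat_lit 9) (.e (nat_lit 970) (nat_lit 81) (.e (nat_lit 6202) (nat_lit 332) .nil)))))))) (.g (nat_lit 5) .nil .nil))))))) 
(.nd (nat_lit 2) (.nd (nat_lit 3) (.nd (nat_lit 4) (.nd (nat_lit 5) 
(.lf (nat_lit 96770) (.g (nat_lit 1121) (.e (nat_lit 2797) (nat_lit 180) (.e (nat_lit 303117) (nat_lit 2) (.e (nat_lit 196630) (nat_lit 9) (.e (nat_lit 1596) (nat_lit 111) .nil)))) .nil)) 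
(.lf (nat_lit 96802) (.g (nat_lit 1310) (.e (nat_lit 2797) (nat_lit 180) (.e (nat_lit 303133) (nat_lit 9) (.e (nat_lit 426412) (nat_lit 15) (.e (nat_lit 6659) (nat_lit 357) .nil)))) .nil))) (.nd (nat_lit 5) 
(.lf (nat_lit 96786) (.g (nat_lit 1083) (.e (nat_lit 2797) (nat_lit 180) (.e (nat_lit 303119) (nat_lit 3) (.e (nat_lit 204856) (nat_lit 26) (.e (nat_lit 336110) (nat_lit 9) .nil)))) .nil)) 
(.lf (nat_lit 96818) (.g (nat_lit 1252) (.e (nat_lit 2798) (nat_lit 180) (.e (nat_lit 303117) (nat_lit 2) (.e (nat_lit 196624) (nat_lit 9) (.e (nat_lit 1615) (nat_lit 113) .nil)))) .nil)))) (.nd (nat_lit 4) (.nd (nat_lit 5) 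
(.lf (nat_lit 96778) (.g (nat_lit 894) (.e (nat_lit 2797) (nat_lit 180) (.e (nat_lit 303117) (nat_lit 2) (.e (nat_lit 204544) (nat_lit 15) (.e (nat_lit 81954) (nat_lit 23) (.e (nat_lit 98325) (nat_lit 17) .nil))))) .nil)) 
(.lf (nat_lit 96810) (.g (nat_lit 837) (.e (nat_lit 2798) (nat_lit 180) (.e (nat_lit 303116) (nat_lit 2) (.e (nat_lit 196663) (nat_lit 13) .nil))) .nil))) (.nd (nat_lit 5) 
(.lf (nat_lit 96794) (.g (nat_lit 1258) (.e (nat_lit 2797) (nat_lit 180) (.e (nat_lit 303126) (nat_lit 9) (.e (nat_lit 426509) (nat_lit 27) (.e (nat_lit 336228) (nat_lit 14) (.e (nat_lit 401454) (nat_lit 12) (.e (nat_lit 483072) (nat_lit 16) .nil)))))) (.g (nat_lit 4) .nil .nil))) 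
(.lf (nat_lit 96826) (.g (nat_lit 2872) (.e (nat_lit 2798) (nat_lit 180) (.e (nat_lit 303117) (nat_lit 2) (.e (nat_lit 196664) (nat_lit 13) (.e (nat_lit 65630) (nat_lit 14) (.e (nat_lit 401428) (nat_lit 3) (.e (nat_lit 204816) (nat_lit 17) (.e (nat_lit 6203) (nat_lit 332) .nil))))))) (.g (nat_lit 5) .nil .nil)))))) (.nd (nat_lit 3) (.nd (nat_lit 4) (.nd (nat_lit 5) 
(.lf (nat_lit 96774) (.g (nat_lit 2034) (.e (nat_lit 2797) (nat_lit 180) (.e (nat_lit 303117) (nat_lit 2) (.e (nat_lit 196671) (nat_lit 15) (.e (nat_lit 81953) (nat_lit 22) (.e (nat_lit 90165) (nat_lit 12) (.e (nat_lit 164207) (nat_lit 176) .nil)))))) (.g (nat_lit 4) .nil .nil))) 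
(.lf (nat_lit 96806) (.g (nat_lit 2847) (.e (nat_lit 2797) (nat_lit 180) (.e (nat_lit 303146) (nat_lit 14) (.e (nat_lit 491540) (nat_lit 3) (.e (nat_lit 98370) (nat_lit 28) (.e (nat_lit 442424) (nat_lit 22) (.e (nat_lit 204544) (nat_lit 18) .nil)))))) (.g (nat_lit 5) .nil .nil)))) (.nd (nat_lit 5) 
(.lf (nat_lit 96790) (.g (nat_lit 3497) (.e (nat_lit 2797) (nat_lit 180) (.e (nat_lit 303119) (nat_lit 3) (.e (nat_lit 204859) (nat_lit 26) (.e (nat_lit 336235) (nat_lit 14) (.e (nat_lit 401425) (nat_lit 2) (.e (nat_lit 196628) (nat_lit 9) (.e (nat_lit 970) (nat_lit 81) (.e (nat_lit 6202) (nat_lit 332) .nil)))))))) (.g (nat_lit 5) .nil .nil))) 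
(.lf (nat_lit 96822) (.g (nat_lit 1649) (.e (nat_lit 2798) (nat_lit 180) (.e (nat_lit 303117) (nat_lit 2) (.e (nat_lit 196630) (nat_lit 9) (.e (nat_lit 1573) (nat_lit 110) (.e (nat_lit 352311) (nat_lit 22) (.e (nat_lit 90165) (nat_lit 12) (.e (nat_lit 171776) (nat_lit 176) .nil))))))) (.g (nat_lit 4) .nil .nil))))) (.nd (nat_lit 4) (.nd (nat_lit 5) 
(.lf (nat_lit 96782) (.g (nat_lit 3419) (.e (nat_lit 2797) (nat_lit 180) (.e (nat_lit 303119) (nat_lit 3) (.e (nat_lit 204849) (nat_lit 25) (.e (nat_lit 327698) (nat_lit 8) (.e (nat_lit 303117) (nat_lit 2) (.e (nat_lit 196628) (nat_lit 9) (.e (nat_lit 970) (nat_lit 81) (.e (nat_lit 6202) (nat_lit 332) .nil)))))))) (.g (nat_lit 5) .nil .nil))) 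
(.lf (nat_lit 96814) (.g (nat_lit 2107) (.e (nat_lit 2798) (nat_lit 180) (.e (nat_lit 303116) (nat_lit 2) (.e (nat_lit 196672) (nat_lit 15) (.e (nat_lit 81954) (nat_lit 23) (.e (nat_lit 98321) (nat_lit 17) .nil))))) .nil))) (.nd (nat_lit 5) 
(.lf (nat_lit 96798) (.g (nat_lit 3074) (.e (nat_lit 2797) (nat_lit 180) (.e (nat_lit 303127) (nat_lit 9) (.e (nat_lit 426402) (nat_lit 15) (.e (nat_lit 1848) (nat_lit 124) (.e (nat_lit 557108) (nat_lit 15) (.e (nat_lit 188449) (nat_lit 22) (.e (nat_lit 204544) (nat_lit 18) .nil))))))) (.g (nat_lit 6) .nil .nil))) 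
(.lf (nat_lit 96830) (.g (nat_lit 1502) (.e (nat_lit 2798) (nat_lit 180) (.e (nat_lit 303117) (nat_lit 2) (.e (nat_lit 196671) (nat_lit 15) (.e (nat_lit 81953) (nat_lit 22) (.e (nat_lit 90165) (nat_lit 12) .nil))))) .nil))))))) (.nd (nat_lit 1) (.nd (nat_lit 2) (.nd (nat_lit 3) (.nd (nat_lit 4) (.nd (nat_lit 5) 
(.lf (nat_lit 96769) (.g (nat_lit 2240) (.e (nat_lit 2797) (nat_lit 180) (.e (nat_lit 303117) (nat_lit 2) (.e (nat_lit 196630) (nat_lit 9) (.e (nat_lit 1573) (nat_lit 110) (.e (nat_lit 352311) (nat_lit 22) (.e (nat_lit 90165) (nat_lit 12) (.e (nat_lit 164210) (nat_lit 176) .nil))))))) (.g (nat_lit 4) .nil .nil))) 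
(.lf (nat_lit 96801) (.g (nat_lit 3417) (.e (nat_lit 2797) (nat_lit 180) (.e (nat_lit 303133) (nat_lit 9) (.e (nat_lit 426412) (nat_lit 15) (.e (nat_lit 7936) (nat_lit 124) (.e (nat_lit 557108) (nat_lit 15) (.e (nat_lit 188449) (nat_lit 22) (.e (nat_lit 204544) (nat_lit 18) .nil))))))) (.g (nat_lit 6) .nil .nil)))) (.nd (nat_lit 5) 
(.lf (nat_lit 96785) (.g (nat_lit 3917) (.e (nat_lit 2797) (nat_lit 180) (.e (nat_lit 303119) (nat_lit 3) (.e (nat_lit 204855) (nat_lit 26) (.e (nat_lit 336226) (nat_lit 14) (.e (nat_lit 401425) (nat_lit 2) (.e (nat_lit 196628) (nat_lit 9) (.e (nat_lit 970) (nat_lit 81) (.e (nat_lit 6202) (nat_lit 332) .nil)))))))) (.g (nat_lit 5) .nil .nil))) 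
(.lf (nat_lit 96817) (.g (nat_lit 899) (.e (nat_lit 2798) (nat_lit 180) (.e (nat_lit 303116) (nat_lit 2) (.e (nat_lit 196674) (nat_lit 15) .nil))) .nil)))) (.nd (nat_lit 4) (.nd (nat_lit 5) 
(.lf (nat_lit 96777) (.g (nat_lit 359) (.e (nat_lit 2797) (nat_lit 180) (.e (nat_lit 303117) (nat_lit 2) (.e (nat_lit 204544) (nat_lit 15) .nil))) .nil)) 
(.lf (nat_lit 96809) (.g (nat_lit 1233) (.e (nat_lit 2798) (nat_lit 180) (.e (nat_lit 303115) (nat_lit 1) (.e (nat_lit 164178) (nat_lit 154) (.e (nat_lit 57437) (nat_lit 17) (.e (nat_lit 384768) (nat_lit 12) .nil))))) .nil))) (.nd (nat_lit 5) 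
(.lf (nat_lit 96793) (.g (nat_lit 1312) (.e (nat_lit 2797) (nat_lit 180) (.e (nat_lit 303126) (nat_lit 9) (.e (nat_lit 426402) (nat_lit 15) (.e (nat_lit 1848) (nat_lit 124) (.e (nat_lit 557108) (nat_lit 15) (.e (nat_lit 188449) (nat_lit 22) (.e (nat_lit 204544) (nat_lit 18) .nil))))))) (.g (nat_lit 4) .nil .nil))) 
(.lf (nat_lit 96825) (.g (nat_lit 3570) (.e (nat_lit 2798) (nat_lit 180) (.e (nat_lit 303117) (nat_lit 2) (.e (nat_lit 196664) (nat_lit 13) (.e (nat_lit 65630) (nat_lit 14) (.e (nat_lit 401425) (nat_lit 2) (.e (nat_lit 196628) (nat_lit 9) (.e (nat_lit 968) (nat_lit 81) (.e (nat_lit 6202) (nat_lit 332) .nil)))))))) (.g (nat_lit 5) .nil .nil)))))) (.nd (nat_lit 3) (.nd (nat_lit 4) (.nd (nat_lit 5) 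
(.lf (nat_lit 96773) (.g (nat_lit 1495) (.e (nat_lit 2797) (nat_lit 180) (.e (nat_lit 303117) (nat_lit 2) (.e (nat_lit 196671) (nat_lit 15) (.e (nat_lit 81953) (nat_lit 22) (.e (nat_lit 90165) (nat_lit 12) .nil))))) .nil)) 
(.lf (nat_lit 96805) (.g (nat_lit 1759) (.e (nat_lit 2797) (nat_lit 180) (.e (nat_lit 303145) (nat_lit 13) (.e (nat_lit 483364) (nat_lit 18) (.e (nat_lit 65280) (nat_lit 146) .nil)))) .nil))) (.nd (nat_lit 5) 
(.lf (nat_lit 96789) (.g (nat_lit 3258) (.e (nat_lit 2797) (nat_lit 180) (.e (nat_lit 303119) (nat_lit 3) (.e (nat_lit 204859) (nat_lit 26) (.e (nat_lit 336206) (nat_lit 12) (.e (nat_lit 385074) (nat_lit 31) (.e (nat_lit 573454) (nat_lit 9) (.e (nat_lit 970) (nat_lit 81) (.e (nat_lit 6202) (nat_lit 332) .nil)))))))) (.g (nat_lit 5) .nil .nil))) 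
(.lf (nat_lit 96821) (.g (nat_lit 2223) (.e (nat_lit 2798) (nat_lit 180) (.e (nat_lit 303117) (nat_lit 2) (.e (nat_lit 196630) (nat_lit 9) (.e (nat_lit 1573) (nat_lit 110) (.e (nat_lit 352311) (nat_lit 22) (.e (nat_lit 90165) (nat_lit 12) (.e (nat_lit 164210) (nat_lit 176) .nil))))))) (.g (nat_lit 6) .nil .nil))))) (.nd (nat_lit 4) (.nd (nat_lit 5) 
(.lf (nat_lit 96781) (.g (nat_lit 3079) (.e (nat_lit 2797) (nat_lit 180) (.e (nat_lit 303119) (nat_lit 3) (.e (nat_lit 204846) (nat_lit 24) (.e (nat_lit 319490) (nat_lit 0) (.e (nat_lit 5664) (nat_lit 312) (.e (nat_lit 2661) (nat_lit 167) (.e (nat_lit 196628) (nat_lit 9) (.e (nat_lit 970) (nat_lit 81) (.e (nat_lit 6202) (nat_lit 332) .nil))))))))) (.g (nat_lit 5) .nil .nil))) 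
(.lf (nat_lit 96813) (.g (nat_lit 2595) (.e (nat_lit 2798) (nat_lit 180) (.e (nat_lit 303116) (nat_lit 2) (.e (nat_lit 196672) (nat_lit 15) (.e (nat_lit 81951) (nat_lit 22) (.e (nat_lit 90165) (nat_lit 12) (.e (nat_lit 164210) (nat_lit 176) .nil)))))) (.g (nat_lit 4) .nil .nil)))) (.nd (nat_lit 5) 
(.lf (nat_lit 96797) (.g (nat_lit 2867) (.e (nat_lit 2797) (nat_lit 180) (.e (nat_lit 303127) (nat_lit 9) (.e (nat_lit 426363) (nat_lit 15) (.e (nat_lit 1859) (nat_lit 124) (.e (nat_lit 557109) (nat_lit 15) (.e (nat_lit 188449) (nat_lit 22) (.e (nat_lit 204544) (nat_lit 18) .nil))))))) (.g (nat_lit 6) .nil .nil))) 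
(.lf (nat_lit 96829) (.g (nat_lit 4262) (.e (nat_lit 2798) (nat_lit 180) (.e (nat_lit 303117) (nat_lit 2) (.e (nat_lit 196666) (nat_lit 13) (.e (nat_lit 65630) (nat_lit 14) (.e (nat_lit 401425) (nat_lit 2) (.e (nat_lit 196628) (nat_lit 9) (.e (nat_lit 968) (nat_lit 81) (.e (nat_lit 6202) (nat_lit 332) .nil)))))))) (.g (nat_lit 4) .nil .nil))))))) 
(.nd (nat_lit 2) (.nd (nat_lit 3) (.nd (nat_lit 4) (.nd (nat_lit 5) 
(.lf (nat_lit 96771) (.g (nat_lit 1721) (.e (nat_lit 2797) (nat_lit 180) (.e (nat_lit 303117) (nat_lit 2) (.e (nat_lit 196630) (nat_lit 9) (.e (nat_lit 1596) (nat_lit 111) (.e (nat_lit 368384) (nat_lit 1) (.e (nat_lit 499910) (nat_lit 8) (.e (nat_lit 171776) (nat_lit 176) .nil))))))) (.g (nat_lit 4) .nil .nil))) 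
(.lf (nat_lit 96803) (.g (nat_lit 2595) (.e (nat_lit 2797) (nat_lit 180) (.e (nat_lit 303145) (nat_lit 13) (.e (nat_lit 483346) (nat_lit 17) (.e (nat_lit 969) (nat_lit 81) .nil)))) .nil))) (.nd (nat_lit 5) 
(.lf (nat_lit 96787) (.g (nat_lit 3409) (.e (nat_lit 2797) (nat_lit 180) (.e (nat_lit 303119) (nat_lit 3) (.e (nat_lit 204856) (nat_lit 26) (.e (nat_lit 336228) (nat_lit 14) (.e (nat_lit 401425) (nat_lit 2) (.e (nat_lit 196628) (nat_lit 9) (.e (nat_lit 970) (nat_lit 81) (.e (nat_lit 6202) (nat_lit 332) .nil)))))))) (.g (nat_lit 5) .nil .nil))) 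
(.lf (nat_lit 96819) (.g (nat_lit 1721) (.e (nat_lit 2798) (nat_lit 180) (.e (nat_lit 303117) (nat_lit 2) (.e (nat_lit 196630) (nat_lit 9) (.e (nat_lit 1553) (nat_lit 110) (.e (nat_lit 352315) (nat_lit 23) (.e (nat_lit 98325) (nat_lit 17) (.e (nat_lit 7008) (nat_lit 377) .nil))))))) (.g (nat_lit 4) .nil .nil))))) (.nd (nat_lit 4) (.nd (nat_lit 5) 
(.lf (nat_lit 96779) (.g (nat_lit 647) (.e (nat_lit 2797) (nat_lit 180) (.e (nat_lit 303119) (nat_lit 3) (.e (nat_lit 204834) (nat_lit 19) .nil))) .nil)) 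
(.lf (nat_lit 96811) (.g (nat_lit 2379) (.e (nat_lit 2798) (nat_lit 180) (.e (nat_lit 303116) (nat_lit 2) (.e (nat_lit 196663) (nat_lit 13) (.e (nat_lit 65630) (nat_lit 14) (.e (nat_lit 401425) (nat_lit 2) (.e (nat_lit 196628) (nat_lit 9) (.e (nat_lit 968) (nat_lit 81) (.e (nat_lit 6202) (nat_lit 332) .nil)))))))) (.g (nat_lit 4) .nil .nil)))) (.nd (nat_lit 5) 
(.lf (nat_lit 96795) (.g (nat_lit 2230) (.e (nat_lit 2797) (nat_lit 180) (.e (nat_lit 303127) (nat_lit 9) (.e (nat_lit 426360) (nat_lit 15) (.e (nat_lit 1849) (nat_lit 124) (.e (nat_lit 557108) (nat_lit 15) (.e (nat_lit 188449) (nat_lit 22) (.e (nat_lit 204544) (nat_lit 18) .nil))))))) (.g (nat_lit 5) .nil .nil))) 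
(.lf (nat_lit 96827) (.g (nat_lit 4595) (.e (nat_lit 2798) (nat_lit 180) (.e (nat_lit 303117) (nat_lit 2) (.e (nat_lit 196666) (nat_lit 13) (.e (nat_lit 65628) (nat_lit 14) (.e (nat_lit 401425) (nat_lit 2) (.e (nat_lit 196628) (nat_lit 9) (.e (nat_lit 968) (nat_lit 81) (.e (nat_lit 6202) (nat_lit 332) .nil)))))))) (.g (nat_lit 5) .nil .nil)))))) (.nd (nat_lit 3) (.nd (nat_lit 4) (.nd (nat_lit 5) 
(.lf (nat_lit 96775) (.g (nat_lit 1858) (.e (nat_lit 2797) (nat_lit 180) (.e (nat_lit 303117) (nat_lit 2) (.e (nat_lit 196671) (nat_lit 15) (.e (nat_lit 81953) (nat_lit 22) (.e (nat_lit 90165) (nat_lit 12) (.e (nat_lit 164209) (nat_lit 176) .nil)))))) (.g (nat_lit 4) .nil .nil))) 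
(.lf (nat_lit 96807) (.g (nat_lit 2193) (.e (nat_lit 2797) (nat_lit 180) (.e (nat_lit 311040) (nat_lit 17) (.e (nat_lit 90172) (nat_lit 14) (.e (nat_lit 180244) (nat_lit 5) (.e (nat_lit 532515) (nat_lit 3) (.e (nat_lit 114716) (nat_lit 22) (.e (nat_lit 90196) (nat_lit 18) .nil))))))) (.g (nat_lit 5) .nil .nil)))) (.nd (nat_lit 5) 
(.lf (nat_lit 96791) (.g (nat_lit 1599) (.e (nat_lit 2797) (nat_lit 180) (.e (nat_lit 303119) (nat_lit 3) (.e (nat_lit 204861) (nat_lit 26) (.e (nat_lit 336185) (nat_lit 11) .nil)))) .nil)) 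
(.lf (nat_lit 96823) (.g (nat_lit 3094) (.e (nat_lit 2798) (nat_lit 180) (.e (nat_lit 303117) (nat_lit 2) (.e (nat_lit 196663) (nat_lit 13) (.e (nat_lit 65630) (nat_lit 14) (.e (nat_lit 401428) (nat_lit 3) (.e (nat_lit 204816) (nat_lit 17) (.e (nat_lit 6203) (nat_lit 332) .nil))))))) (.g (nat_lit 5) .nil .nil))))) (.nd (nat_lit 4) (.nd (nat_lit 5) 
(.lf (nat_lit 96783) (.g (nat_lit 3902) (.e (nat_lit 2797) (nat_lit 180) (.e (nat_lit 303119) (nat_lit 3) (.e (nat_lit 204849) (nat_lit 25) (.e (nat_lit 327699) (nat_lit 8) (.e (nat_lit 303117) (nat_lit 2) (.e (nat_lit 196628) (nat_lit 9) (.e (nat_lit 970) (nat_lit 81) (.e (nat_lit 6202) (nat_lit 332) .nil)))))))) (.g (nat_lit 5) .nil .nil))) 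
(.lf (nat_lit 96815) (.g (nat_lit 2643) (.e (nat_lit 2798) (nat_lit 180) (.e (nat_lit 303116) (nat_lit 2) (.e (nat_lit 196672) (nat_lit 15) (.e (nat_lit 81954) (nat_lit 23) (.e (nat_lit 98325) (nat_lit 17) (.e (nat_lit 7008) (nat_lit 377) .nil)))))) (.g (nat_lit 5) .nil .nil)))) (.nd (nat_lit 5) 
(.lf (nat_lit 96799) (.g (nat_lit 2655) (.e (nat_lit 2797) (nat_lit 180) (.e (nat_lit 303127) (nat_lit 9) (.e (nat_lit 426402) (nat_lit 15) (.e (nat_lit 1849) (nat_lit 124) (.e (nat_lit 557108) (nat_lit 15) (.e (nat_lit 188449) (nat_lit 22) (.e (nat_lit 204544) (nat_lit 18) .nil))))))) (.g (nat_lit 6) .nil .nil))) 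
(.lf (nat_lit 96831) (.g (nat_lit 1655) (.e (nat_lit 2798) (nat_lit 180) (.e (nat_lit 303117) (nat_lit 2) (.e (nat_lit 196671) (nat_lit 15) (.e (nat_lit 81953) (nat_lit 22) (.e (nat_lit 90165) (nat_lit 12) (.e (nat_lit 164210) (nat_lit 176) .nil)))))) (.g (nat_lit 4) .nil .nil)))))))))

noncomputable def tv1326 : DT := (.nd (nat_lit 0) (.nd (nat_lit 1) (.nd (nat_lit 2) (.nd (nat_lit 3) (.nd (nat_lit 4) (.nd (nat_lit 5) 
(.lf (nat_lit 96832) (.g (nat_lit 361) (.e (nat_lit 2798) (nat_lit 180) (.e (nat_lit 303117) (nat_lit 2) (.e (nat_lit 204544) (nat_lit 15) .nil))) .nil)) 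
(.lf (nat_lit 96864) (.g (nat_lit 3001) (.e (nat_lit 2798) (nat_lit 180) (.e (nat_lit 303147) (nat_lit 15) (.e (nat_lit 1799) (nat_lit 119) (.e (nat_lit 516170) (nat_lit 13) (.e (nat_lit 458789) (nat_lit 23) (.e (nat_lit 532515) (nat_lit 3) (.e (nat_lit 114716) (nat_lit 22) (.e (nat_lit 90196) (nat_lit 18) .nil)))))))) (.g (nat_lit 5) .nil .nil)))) (.nd (nat_lit 5) 
(.lf (nat_lit 96848) (.g (nat_lit 3842) (.e (nat_lit 2798) (nat_lit 180) (.e (nat_lit 303133) (nat_lit 9) (.e (nat_lit 426042) (nat_lit 0) (.e (nat_lit 3579) (nat_lit 223) (.e (nat_lit 745476) (nat_lit 0) (.e (nat_lit 1598) (nat_lit 111) (.e (nat_lit 360473) (nat_lit 8) (.e (nat_lit 557119) (nat_lit 18) .nil)))))))) (.g (nat_lit 0) .nil .nil))) 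
(.lf (nat_lit 96880) (.g (nat_lit 3253) (.e (nat_lit 2804) (nat_lit 180) (.e (nat_lit 303117) (nat_lit 2) (.e (nat_lit 196672) (nat_lit 15) (.e (nat_lit 81951) (nat_lit 22) (.e (nat_lit 90165) (nat_lit 12) .nil))))) .nil)))) (.nd (nat_lit 4) (.nd (nat_lit 5) 
(.lf (nat_lit 96840) (.g (nat_lit 2828) (.e (nat_lit 2798) (nat_lit 180) (.e (nat_lit 303119) (nat_lit 3) (.e (nat_lit 204850) (nat_lit 26) (.e (nat_lit 336228) (nat_lit 14) (.e (nat_lit 401425) (nat_lit 2) (.e (nat_lit 196628) (nat_lit 9) (.e (nat_lit 968) (nat_lit 81) (.e (nat_lit 6202) (nat_lit 332) .nil)))))))) (.g (nat_lit 5) .nil .nil))) 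
(.lf (nat_lit 96872) (.g (nat_lit 2268) (.e (nat_lit 2802) (nat_lit 180) (.e (nat_lit 303146) (nat_lit 14) (.e (nat_lit 491537) (nat_lit 2) (.e (nat_lit 90185) (nat_lit 17) .nil)))) .nil))) (.nd (nat_lit 5) 
(.lf (nat_lit 96856) (.g (nat_lit 1885) (.e (nat_lit 2798) (nat_lit 180) (.e (nat_lit 303140) (nat_lit 10) (.e (nat_lit 434202) (nat_lit 18) (.e (nat_lit 6830) (nat_lit 367) (.e (nat_lit 57412) (nat_lit 12) .nil))))) .nil)) 
(.lf (nat_lit 96888) (.g (nat_lit 3458) (.e (nat_lit 2807) (nat_lit 180) (.e (nat_lit 303117) (nat_lit 2) (.e (nat_lit 196666) (nat_lit 13) (.e (nat_lit 65619) (nat_lit 10) .nil)))) .nil))))) (.nd (nat_lit 3) (.nd (nat_lit 4) (.nd (nat_lit 5) 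
(.lf (nat_lit 96836) (.g (nat_lit 2210) (.e (nat_lit 2798) (nat_lit 180) (.e (nat_lit 303119) (nat_lit 3) (.e (nat_lit 204846) (nat_lit 24) (.e (nat_lit 327424) (nat_lit 8) (.e (nat_lit 303117) (nat_lit 2) (.e (nat_lit 196628) (nat_lit 9) (.e (nat_lit 968) (nat_lit 81) (.e (nat_lit 6202) (nat_lit 332) .nil)))))))) (.g (nat_lit 5) .nil .nil))) 
(.lf (nat_lit 96868) (.g (nat_lit 3571) (.e (nat_lit 2801) (nat_lit 180) (.e (nat_lit 303117) (nat_lit 2) (.e (nat_lit 196666) (nat_lit 13) (.e (nat_lit 65610) (nat_lit 10) (.e (nat_lit 344117) (nat_lit 21) .nil))))) .nil))) (.nd (nat_lit 5) 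
(.lf (nat_lit 96852) (.g (nat_lit 1208) (.e (nat_lit 2798) (nat_lit 180) (.e (nat_lit 303133) (nat_lit 9) (.e (nat_lit 426412) (nat_lit 15) (.e (nat_lit 982) (nat_lit 81) .nil)))) .nil)) 
(.lf (nat_lit 96884) (.g (nat_lit 3423) (.e (nat_lit 2805) (nat_lit 180) (.e (nat_lit 303117) (nat_lit 2) (.e (nat_lit 196666) (nat_lit 13) (.e (nat_lit 65619) (nat_lit 10) .nil)))) .nil)))) (.nd (nat_lit 4) (.nd (nat_lit 5) 
(.lf (nat_lit 96844) (.g (nat_lit 1340) (.e (nat_lit 2798) (nat_lit 180) (.e (nat_lit 303119) (nat_lit 3) (.e (nat_lit 204877) (nat_lit 31) (.e (nat_lit 376865) (nat_lit 22) .nil)))) .nil)) 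
(.lf (nat_lit 96876) (.g (nat_lit 2330) (.e (nat_lit 2804) (nat_lit 180) (.e (nat_lit 303116) (nat_lit 2) (.e (nat_lit 196672) (nat_lit 15) (.e (nat_lit 81951) (nat_lit 22) (.e (nat_lit 90165) (nat_lit 12) .nil))))) .nil))) (.nd (nat_lit 5) 
(.lf (nat_lit 96860) (.g (nat_lit 5246) (.e (nat_lit 2798) (nat_lit 180) (.e (nat_lit 303147) (nat_lit 15) (.e (nat_lit 1788) (nat_lit 119) (.e (nat_lit 516151) (nat_lit 9) (.e (nat_lit 426042) (nat_lit 0) (.e (nat_lit 3307) (nat_lit 202) (.e (nat_lit 573489) (nat_lit 14) (.e (nat_lit 73755) (nat_lit 8) (.e (nat_lit 557119) (nat_lit 18) .nil))))))))) (.g (nat_lit 5) .nil .nil))) 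
(.lf (nat_lit 96892) (.g (nat_lit 4217) (.e (nat_lit 2807) (nat_lit 180) (.e (nat_lit 303137) (nat_lit 10) (.e (nat_lit 434202) (nat_lit 18) (.e (nat_lit 6830) (nat_lit 367) (.e (nat_lit 57427) (nat_lit 15) (.e (nat_lit 360474) (nat_lit 8) (.e (nat_lit 557118) (nat_lit 18) .nil))))))) (.g (nat_lit 7) .nil .nil))))))) (.nd (nat_lit 2) (.nd (nat_lit 3) (.nd (nat_lit 4) (.nd (nat_lit 5) 
(.lf (nat_lit 96834) (.g (nat_lit 3168) (.e (nat_lit 2798) (nat_lit 180) (.e (nat_lit 303119) (nat_lit 3) (.e (nat_lit 204846) (nat_lit 24) (.e (nat_lit 319490) (nat_lit 0) (.e (nat_lit 5664) (nat_lit 312) (.e (nat_lit 2661) (nat_lit 167) (.e (nat_lit 196628) (nat_lit 9) (.e (nat_lit 968) (nat_lit 81) (.e (nat_lit 6202) (nat_lit 332) .nil))))))))) (.g (nat_lit 5) .nil .nil))) 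
(.lf (nat_lit 96866) (.g (nat_lit 3652) (.e (nat_lit 2799) (nat_lit 180) (.e (nat_lit 303117) (nat_lit 2) (.e (nat_lit 196666) (nat_lit 13) (.e (nat_lit 65610) (nat_lit 10) (.e (nat_lit 344117) (nat_lit 21) .nil))))) .nil))) (.nd (nat_lit 5) 
(.lf (nat_lit 96850) (.g (nat_lit 3370) (.e (nat_lit 2798) (nat_lit 180) (.e (nat_lit 303133) (nat_lit 9) (.e (nat_lit 426043) (nat_lit 0) (.e (nat_lit 3579) (nat_lit 223) (.e (nat_lit 745475) (nat_lit 0) (.e (nat_lit 1598) (nat_lit 111) (.e (nat_lit 360473) (nat_lit 8) (.e (nat_lit 557119) (nat_lit 18) .nil)))))))) (.g (nat_lit 0) .nil .nil))) 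
(.lf (nat_lit 96882) (.g (nat_lit 2882) (.e (nat_lit 2804) (nat_lit 180) (.e (nat_lit 303143) (nat_lit 12) (.e (nat_lit 475185) (nat_lit 29) (.e (nat_lit 557107) (nat_lit 15) (.e (nat_lit 188447) (nat_lit 22) .nil))))) .nil)))) (.nd (nat_lit 4) (.nd (nat_lit 5) 
(.lf (nat_lit 96842) (.g (nat_lit 4024) (.e (nat_lit 2798) (nat_lit 180) (.e (nat_lit 303119) (nat_lit 3) (.e (nat_lit 204856) (nat_lit 26) (.e (nat_lit 336228) (nat_lit 14) (.e (nat_lit 401425) (nat_lit 2) (.e (nat_lit 196628) (nat_lit 9) (.e (nat_lit 968) (nat_lit 81) (.e (nat_lit 6202) (nat_lit 332) .nil)))))))) (.g (nat_lit 7) .nil .nil))) 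
(.lf (nat_lit 96874) (.g (nat_lit 2005) (.e (nat_lit 2802) (nat_lit 180) (.e (nat_lit 303146) (nat_lit 14) (.e (nat_lit 491540) (nat_lit 3) (.e (nat_lit 98370) (nat_lit 28) (.e (nat_lit 442424) (nat_lit 22) .nil))))) .nil))) (.nd (nat_lit 5) 
(.lf (nat_lit 96858) (.g (nat_lit 2603) (.e (nat_lit 2798) (nat_lit 180) (.e (nat_lit 303146) (nat_lit 14) (.e (nat_lit 491568) (nat_lit 13) (.e (nat_lit 393283) (nat_lit 24) (.e (nat_lit 434275) (nat_lit 39) (.e (nat_lit 663589) (nat_lit 14) .nil)))))) (.g (nat_lit 4) .nil .nil))) 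
(.lf (nat_lit 96890) (.g (nat_lit 300) (.e (nat_lit 2807) (nat_lit 180) (.e (nat_lit 303137) (nat_lit 10) (.e (nat_lit 434200) (nat_lit 18) .nil))) .nil))))) (.nd (nat_lit 3) (.nd (nat_lit 4) (.nd (nat_lit 5) 
(.lf (nat_lit 96838) (.g (nat_lit 4413) (.e (nat_lit 2798) (nat_lit 180) (.e (nat_lit 303119) (nat_lit 3) (.e (nat_lit 204849) (nat_lit 25) (.e (nat_lit 327699) (nat_lit 8) (.e (nat_lit 303117) (nat_lit 2) (.e (nat_lit 196628) (nat_lit 9) (.e (nat_lit 970) (nat_lit 81) (.e (nat_lit 6202) (nat_lit 332) .nil)))))))) (.g (nat_lit 6) .nil .nil))) 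
(.lf (nat_lit 96870) (.g (nat_lit 848) (.e (nat_lit 2802) (nat_lit 180) (.e (nat_lit 303117) (nat_lit 2) (.e (nat_lit 196624) (nat_lit 9) .nil))) .nil))) (.nd (nat_lit 5) 
(.lf (nat_lit 96854) (.g (nat_lit 1453) (.e (nat_lit 2798) (nat_lit 180) (.e (nat_lit 303133) (nat_lit 9) (.e (nat_lit 426412) (nat_lit 15) (.e (nat_lit 1915) (nat_lit 130) .nil)))) .nil)) 
(.lf (nat_lit 96886) (.g (nat_lit 3600) (.e (nat_lit 2806) (nat_lit 180) (.e (nat_lit 303117) (nat_lit 2) (.e (nat_lit 196666) (nat_lit 13) (.e (nat_lit 65619) (nat_lit 10) .nil)))) .nil)))) (.nd (nat_lit 4) (.nd (nat_lit 5) 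
(.lf (nat_lit 96846) (.g (nat_lit 359) (.e (nat_lit 2798) (nat_lit 180) (.e (nat_lit 303127) (nat_lit 9) (.e (nat_lit 426545) (nat_lit 30) .nil))) .nil)) 
(.lf (nat_lit 96878) (.g (nat_lit 3348) (.e (nat_lit 2804) (nat_lit 180) (.e (nat_lit 303117) (nat_lit 2) (.e (nat_lit 196666) (nat_lit 13) (.e (nat_lit 65617) (nat_lit 10) .nil)))) .nil))) (.nd (nat_lit 5) 
(.lf (nat_lit 96862) (.g (nat_lit 1109) (.e (nat_lit 2798) (nat_lit 180) (.e (nat_lit 303147) (nat_lit 15) (.e (nat_lit 1798) (nat_lit 119) .nil))) .nil)) 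
(.lf (nat_lit 96894) (.g (nat_lit 177) (.e (nat_lit 2807) (nat_lit 180) (.e (nat_lit 303137) (nat_lit 10) (.e (nat_lit 434295) (nat_lit 49) .nil))) .nil))))))) (.nd (nat_lit 1) (.nd (nat_lit 2) (.nd (nat_lit 3) (.nd (nat_lit 4) (.nd (nat_lit 5) 
(.lf (nat_lit 96833) (.g (nat_lit 2654) (.e (nat_lit 2798) (nat_lit 180) (.e (nat_lit 303119) (nat_lit 3) (.e (nat_lit 204816) (nat_lit 17) (.e (nat_lit 6203) (nat_lit 332) (.e (nat_lit 2798) (nat_lit 180) (.e (nat_lit 303117) (nat_lit 2) (.e (nat_lit 196628) (nat_lit 9) (.e (nat_lit 970) (nat_lit 81) (.e (nat_lit 6202) (nat_lit 332) .nil))))))))) (.g (nat_lit 5) .nil .nil))) 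
(.lf (nat_lit 96865) (.g (nat_lit 2543) (.e (nat_lit 2798) (nat_lit 180) (.e (nat_lit 311040) (nat_lit 18) (.e (nat_lit 98359) (nat_lit 26) (.e (nat_lit 426132) (nat_lit 3) (.e (nat_lit 204838) (nat_lit 20) (.e (nat_lit 114716) (nat_lit 22) (.e (nat_lit 90196) (nat_lit 18) .nil))))))) (.g (nat_lit 6) .nil .nil)))) (.nd (nat_lit 5) 
(.lf (nat_lit 96849) (.g (nat_lit 4651) (.e (nat_lit 2798) (nat_lit 180) (.e (nat_lit 303133) (nat_lit 9) (.e (nat_lit 426043) (nat_lit 0) (.e (nat_lit 3579) (nat_lit 223) (.e (nat_lit 745475) (nat_lit 0) (.e (nat_lit 1586) (nat_lit 111) (.e (nat_lit 360475) (nat_lit 8) (.e (nat_lit 557119) (nat_lit 18) .nil)))))))) (.g (nat_lit 0) .nil .nil))) 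
(.lf (nat_lit 96881) (.g (nat_lit 1870) (.e (nat_lit 2804) (nat_lit 180) (.e (nat_lit 303117) (nat_lit 2) (.e (nat_lit 196673) (nat_lit 15) (.e (nat_lit 81956) (nat_lit 23) .nil)))) .nil)))) (.nd (nat_lit 4) (.nd (nat_lit 5) 
(.lf (nat_lit 96841) (.g (nat_lit 1846) (.e (nat_lit 2798) (nat_lit 180) (.e (nat_lit 303119) (nat_lit 3) (.e (nat_lit 204854) (nat_lit 26) (.e (nat_lit 336182) (nat_lit 11) .nil)))) .nil)) 
(.lf (nat_lit 96873) (.g (nat_lit 487) (.e (nat_lit 2802) (nat_lit 180) (.e (nat_lit 303146) (nat_lit 14) (.e (nat_lit 491540) (nat_lit 3) .nil))) .nil))) (.nd (nat_lit 5) 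
(.lf (nat_lit 96857) (.g (nat_lit 4513) (.e (nat_lit 2798) (nat_lit 180) (.e (nat_lit 303143) (nat_lit 12) (.e (nat_lit 475185) (nat_lit 29) (.e (nat_lit 557096) (nat_lit 13) (.e (nat_lit 172096) (nat_lit 9) .nil))))) .nil)) 
(.lf (nat_lit 96889) (.g (nat_lit 825) (.e (nat_lit 2807) (nat_lit 180) (.e (nat_lit 303119) (nat_lit 3) (.e (nat_lit 204877) (nat_lit 31) .nil))) .nil))))) (.nd (nat_lit 3) (.nd (nat_lit 4) (.nd (nat_lit 5) 
(.lf (nat_lit 96837) (.g (nat_lit 3740) (.e (nat_lit 2798) (nat_lit 180) (.e (nat_lit 303119) (nat_lit 3) (.e (nat_lit 204849) (nat_lit 25) (.e (nat_lit 327699) (nat_lit 8) (.e (nat_lit 303117) (nat_lit 2) (.e (nat_lit 196628) (nat_lit 9) (.e (nat_lit 968) (nat_lit 81) (.e (nat_lit 6202) (nat_lit 332) .nil)))))))) (.g (nat_lit 5) .nil .nil))) 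
(.lf (nat_lit 96869) (.g (nat_lit 1882) (.e (nat_lit 2801) (nat_lit 180) (.e (nat_lit 303147) (nat_lit 15) (.e (nat_lit 6114) (nat_lit 332) (.e (nat_lit 1370) (nat_lit 103) (.e (nat_lit 294960) (nat_lit 13) .nil))))) .nil))) (.nd (nat_lit 5) 
(.lf (nat_lit 96853) (.g (nat_lit 1039) (.e (nat_lit 2798) (nat_lit 180) (.e (nat_lit 303133) (nat_lit 9) (.e (nat_lit 426412) (nat_lit 15) (.e (nat_lit 1009) (nat_lit 81) (.e (nat_lit 4584) (nat_lit 269) .nil))))) .nil)) 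
(.lf (nat_lit 96885) (.g (nat_lit 1879) (.e (nat_lit 2805) (nat_lit 180) (.e (nat_lit 303117) (nat_lit 2) (.e (nat_lit 196673) (nat_lit 15) (.e (nat_lit 81956) (nat_lit 23) .nil)))) .nil)))) (.nd (nat_lit 4) (.nd (nat_lit 5) 
(.lf (nat_lit 96845) (.g (nat_lit 896) (.e (nat_lit 2798) (nat_lit 180) (.e (nat_lit 303119) (nat_lit 3) (.e (nat_lit 204878) (nat_lit 31) (.e (nat_lit 376865) (nat_lit 22) .nil)))) .nil)) 
(.lf (nat_lit 96877) (.g (nat_lit 3801) (.e (nat_lit 2804) (nat_lit 180) (.e (nat_lit 303117) (nat_lit 2) (.e (nat_lit 196666) (nat_lit 13) (.e (nat_lit 65604) (nat_lit 9) (.e (nat_lit 336013) (nat_lit 2) .nil))))) .nil))) (.nd (nat_lit 5) 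
(.lf (nat_lit 96861) (.g (nat_lit 2723) (.e (nat_lit 2798) (nat_lit 180) (.e (nat_lit 303147) (nat_lit 15) (.e (nat_lit 1788) (nat_lit 119) (.e (nat_lit 516170) (nat_lit 13) (.e (nat_lit 458789) (nat_lit 23) (.e (nat_lit 532515) (nat_lit 3) (.e (nat_lit 114716) (nat_lit 22) (.e (nat_lit 90196) (nat_lit 18) .nil)))))))) (.g (nat_lit 4) .nil .nil))) 
(.lf (nat_lit 96893) (.g (nat_lit 4326) (.e (nat_lit 2807) (nat_lit 180) (.e (nat_lit 303137) (nat_lit 10) (.e (nat_lit 434202) (nat_lit 18) (.e (nat_lit 6830) (nat_lit 367) (.e (nat_lit 57427) (nat_lit 15) (.e (nat_lit 360475) (nat_lit 8) (.e (nat_lit 557119) (nat_lit 18) .nil))))))) (.g (nat_lit 0) .nil .nil))))))) (.nd (nat_lit 2) (.nd (nat_lit 3) (.nd (nat_lit 4) (.nd (nat_lit 5) 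
(.lf (nat_lit 96835) (.g (nat_lit 3829) (.e (nat_lit 2798) (nat_lit 180) (.e (nat_lit 303119) (nat_lit 3) (.e (nat_lit 204846) (nat_lit 24) (.e (nat_lit 319490) (nat_lit 0) (.e (nat_lit 5664) (nat_lit 312) (.e (nat_lit 2661) (nat_lit 167) (.e (nat_lit 196628) (nat_lit 9) (.e (nat_lit 970) (nat_lit 81) (.e (nat_lit 6202) (nat_lit 332) .nil))))))))) (.g (nat_lit 6) .nil .nil))) 
(.lf (nat_lit 96867) (.g (nat_lit 3351) (.e (nat_lit 2800) (nat_lit 180) (.e (nat_lit 303117) (nat_lit 2) (.e (nat_lit 196666) (nat_lit 13) (.e (nat_lit 65610) (nat_lit 10) (.e (nat_lit 344117) (nat_lit 21) .nil))))) .nil))) (.nd (nat_lit 5) 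
(.lf (nat_lit 96851) (.g (nat_lit 3781) (.e (nat_lit 2798) (nat_lit 180) (.e (nat_lit 303133) (nat_lit 9) (.e (nat_lit 426043) (nat_lit 0) (.e (nat_lit 3579) (nat_lit 223) (.e (nat_lit 745476) (nat_lit 0) (.e (nat_lit 1598) (nat_lit 111) (.e (nat_lit 360473) (nat_lit 8) (.e (nat_lit 557119) (nat_lit 18) .nil)))))))) (.g (nat_lit 0) .nil .nil))) 
(.lf (nat_lit 96883) (.g (nat_lit 3437) (.e (nat_lit 2805) (nat_lit 180) (.e (nat_lit 303117) (nat_lit 2) (.e (nat_lit 196666) (nat_lit 13) (.e (nat_lit 65617) (nat_lit 10) .nil)))) .nil)))) (.nd (nat_lit 4) (.nd (nat_lit 5) 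
(.lf (nat_lit 96843) (.g (nat_lit 4145) (.e (nat_lit 2798) (nat_lit 180) (.e (nat_lit 303119) (nat_lit 3) (.e (nat_lit 204859) (nat_lit 26) (.e (nat_lit 336235) (nat_lit 14) (.e (nat_lit 401425) (nat_lit 2) (.e (nat_lit 196628) (nat_lit 9) (.e (nat_lit 968) (nat_lit 81) (.e (nat_lit 6202) (nat_lit 332) .nil)))))))) (.g (nat_lit 7) .nil .nil))) 
(.lf (nat_lit 96875) (.g (nat_lit 3586) (.e (nat_lit 2803) (nat_lit 180) (.e (nat_lit 303117) (nat_lit 2) (.e (nat_lit 196666) (nat_lit 13) (.e (nat_lit 65610) (nat_lit 10) (.e (nat_lit 344117) (nat_lit 21) .nil))))) .nil))) (.nd (nat_lit 5) 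
(.lf (nat_lit 96859) (.g (nat_lit 3092) (.e (nat_lit 2798) (nat_lit 180) (.e (nat_lit 303147) (nat_lit 15) (.e (nat_lit 1781) (nat_lit 119) (.e (nat_lit 516151) (nat_lit 9) (.e (nat_lit 426042) (nat_lit 0) (.e (nat_lit 3307) (nat_lit 202) (.e (nat_lit 573489) (nat_lit 14) (.e (nat_lit 73755) (nat_lit 8) (.e (nat_lit 557119) (nat_lit 18) .nil))))))))) (.g (nat_lit 4) .nil .nil))) 
(.lf (nat_lit 96891) (.g (nat_lit 4248) (.e (nat_lit 2807) (nat_lit 180) (.e (nat_lit 303137) (nat_lit 10) (.e (nat_lit 434200) (nat_lit 18) (.e (nat_lit 6834) (nat_lit 368) (.e (nat_lit 122919) (nat_lit 15) (.e (nat_lit 360475) (nat_lit 8) (.e (nat_lit 557119) (nat_lit 18) .nil))))))) (.g (nat_lit 0) .nil .nil)))))) (.nd (nat_lit 3) (.nd (nat_lit 4) (.nd (nat_lit 5) 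
(.lf (nat_lit 96839) (.g (nat_lit 752) (.e (nat_lit 2798) (nat_lit 180) (.e (nat_lit 303119) (nat_lit 3) (.e (nat_lit 204850) (nat_lit 26) .nil))) .nil)) 
(.lf (nat_lit 96871) (.g (nat_lit 815) (.e (nat_lit 2802) (nat_lit 180) (.e (nat_lit 303143) (nat_lit 12) (.e (nat_lit 475212) (nat_lit 42) .nil))) .nil))) (.nd (nat_lit 5) 
(.lf (nat_lit 96855) (.g (nat_lit 2128) (.e (nat_lit 2798) (nat_lit 180) (.e (nat_lit 303137) (nat_lit 10) (.e (nat_lit 434295) (nat_lit 49) (.e (nat_lit 745476) (nat_lit 0) (.e (nat_lit 1598) (nat_lit 111) (.e (nat_lit 360473) (nat_lit 8) (.e (nat_lit 557119) (nat_lit 18) .nil))))))) (.g (nat_lit 4) .nil .nil))) 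
(.lf (nat_lit 96887) (.g (nat_lit 2719) (.e (nat_lit 2807) (nat_lit 180) (.e (nat_lit 303117) (nat_lit 2) (.e (nat_lit 196666) (nat_lit 13) (.e (nat_lit 65596) (nat_lit 9) .nil)))) .nil)))) (.nd (nat_lit 4) (.nd (nat_lit 5) 
(.lf (nat_lit 96847) (.g (nat_lit 437) (.e (nat_lit 2798) (nat_lit 180) (.e (nat_lit 303133) (nat_lit 9) (.e (nat_lit 426025) (nat_lit 0) .nil))) .nil)) 
(.lf (nat_lit 96879) (.g (nat_lit 3443) (.e (nat_lit 2804) (nat_lit 180) (.e (nat_lit 303117) (nat_lit 2) (.e (nat_lit 196666) (nat_lit 13) (.e (nat_lit 65619) (nat_lit 10) .nil)))) .nil))) (.nd (nat_lit 5) 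
(.lf (nat_lit 96863) (.g (nat_lit 2330) (.e (nat_lit 2798) (nat_lit 180) (.e (nat_lit 303147) (nat_lit 15) (.e (nat_lit 1799) (nat_lit 119) (.e (nat_lit 516169) (nat_lit 13) (.e (nat_lit 458789) (nat_lit 23) (.e (nat_lit 532515) (nat_lit 3) (.e (nat_lit 114716) (nat_lit 22) (.e (nat_lit 90196) (nat_lit 18) .nil)))))))) (.g (nat_lit 4) .nil .nil))) 
(.lf (nat_lit 96895) (.g (nat_lit 3017) (.e (nat_lit 2807) (nat_lit 180) (.e (nat_lit 303137) (nat_lit 10) (.e (nat_lit 434295) (nat_lit 49) (.e (nat_lit 745475) (nat_lit 0) (.e (nat_lit 1586) (nat_lit 111) (.e (nat_lit 360474) (nat_lit 8) (.e (nat_lit 557118) (nat_lit 18) .nil))))))) (.g (nat_lit 7) .nil .nil)))))))))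

noncomputable def tv1327 : DT := (.nd (nat_lit 0) (.nd (nat_lit 1) (.nd (nat_lit 2) (.nd (nat_lit 3) (.nd (nat_lit 4) (.nd (nat_lit 5) 
(.lf (nat_lit 96896) (.g (nat_lit 4133) (.e (nat_lit 2807) (nat_lit 180) (.e (nat_lit 303137) (nat_lit 10) (.e (nat_lit 434295) (nat_lit 49) (.e (nat_lit 745475) (nat_lit 0) (.e (nat_lit 1586) (nat_lit 111) (.e (nat_lit 360475) (nat_lit 8) (.e (nat_lit 557119) (nat_lit 18) .nil))))))) (.g (nat_lit 0) .nil .nil))) 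
(.lf (nat_lit 96928) (.g (nat_lit 914) (.e (nat_lit 2808) (nat_lit 180) (.e (nat_lit 303119) (nat_lit 3) (.e (nat_lit 204877) (nat_lit 31) .nil))) .nil))) (.nd (nat_lit 5) 
(.lf (nat_lit 96912) (.g (nat_lit 3210) (.e (nat_lit 2808) (nat_lit 180) (.e (nat_lit 303116) (nat_lit 2) (.e (nat_lit 196672) (nat_lit 15) (.e (nat_lit 81951) (nat_lit 22) (.e (nat_lit 90165) (nat_lit 12) (.e (nat_lit 164207) (nat_lit 176) .nil)))))) (.g (nat_lit 0) .nil .nil))) 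
(.lf (nat_lit 96944) (.g (nat_lit 787) (.e (nat_lit 2808) (nat_lit 180) (.e (nat_lit 303140) (nat_lit 10) (.e (nat_lit 434295) (nat_lit 49) (.e (nat_lit 745472) (nat_lit 0) .nil)))) .nil)))) (.nd (nat_lit 4) (.nd (nat_lit 5) 
(.lf (nat_lit 96904) (.g (nat_lit 3562) (.e (nat_lit 2807) (nat_lit 180) (.e (nat_lit 303137) (nat_lit 10) (.e (nat_lit 434295) (nat_lit 49) (.e (nat_lit 745476) (nat_lit 0) (.e (nat_lit 1595) (nat_lit 111) (.e (nat_lit 360473) (nat_lit 8) (.e (nat_lit 557119) (nat_lit 18) .nil))))))) (.g (nat_lit 0) .nil .nil))) 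
(.lf (nat_lit 96936) (.g (nat_lit 4883) (.e (nat_lit 2808) (nat_lit 180) (.e (nat_lit 303140) (nat_lit 10) (.e (nat_lit 434202) (nat_lit 18) (.e (nat_lit 6830) (nat_lit 367) (.e (nat_lit 57426) (nat_lit 15) (.e (nat_lit 360475) (nat_lit 8) (.e (nat_lit 557119) (nat_lit 18) .nil))))))) (.g (nat_lit 7) .nil .nil)))) (.nd (nat_lit 5) 
(.lf (nat_lit 96920) (.g (nat_lit 3193) (.e (nat_lit 2808) (nat_lit 180) (.e (nat_lit 303117) (nat_lit 2) (.e (nat_lit 196666) (nat_lit 13) (.e (nat_lit 65610) (nat_lit 10) (.e (nat_lit 344117) (nat_lit 21) .nil))))) .nil)) 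
(.lf (nat_lit 96952) (.g (nat_lit 2843) (.e (nat_lit 2808) (nat_lit 180) (.e (nat_lit 303140) (nat_lit 10) (.e (nat_lit 434295) (nat_lit 49) (.e (nat_lit 745476) (nat_lit 0) (.e (nat_lit 1589) (nat_lit 111) (.e (nat_lit 360473) (nat_lit 8) (.e (nat_lit 557118) (nat_lit 18) .nil))))))) (.g (nat_lit 7) .nil .nil)))))) (.nd (nat_lit 3) (.nd (nat_lit 4) (.nd (nat_lit 5) 
(.lf (nat_lit 96900) (.g (nat_lit 2674) (.e (nat_lit 2807) (nat_lit 180) (.e (nat_lit 303137) (nat_lit 10) (.e (nat_lit 434295) (nat_lit 49) (.e (nat_lit 745476) (nat_lit 0) (.e (nat_lit 1589) (nat_lit 111) (.e (nat_lit 360473) (nat_lit 8) (.e (nat_lit 557118) (nat_lit 18) .nil))))))) (.g (nat_lit 7) .nil .nil))) 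
(.lf (nat_lit 96932) (.g (nat_lit 885) (.e (nat_lit 2808) (nat_lit 180) (.e (nat_lit 303140) (nat_lit 10) (.e (nat_lit 434200) (nat_lit 18) (.e (nat_lit 4120) (nat_lit 245) .nil)))) .nil))) (.nd (nat_lit 5) 
(.lf (nat_lit 96916) (.g (nat_lit 2376) (.e (nat_lit 2808) (nat_lit 180) (.e (nat_lit 303116) (nat_lit 2) (.e (nat_lit 196672) (nat_lit 15) (.e (nat_lit 81954) (nat_lit 23) (.e (nat_lit 98325) (nat_lit 17) (.e (nat_lit 6966) (nat_lit 377) .nil)))))) (.g (nat_lit 5) .nil .nil))) 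
(.lf (nat_lit 96948) (.g (nat_lit 4468) (.e (nat_lit 2808) (nat_lit 180) (.e (nat_lit 303140) (nat_lit 10) (.e (nat_lit 434295) (nat_lit 49) (.e (nat_lit 745475) (nat_lit 0) (.e (nat_lit 1586) (nat_lit 111) (.e (nat_lit 360475) (nat_lit 8) (.e (nat_lit 557119) (nat_lit 18) .nil))))))) (.g (nat_lit 0) .nil .nil))))) (.nd (nat_lit 4) (.nd (nat_lit 5) 
(.lf (nat_lit 96908) (.g (nat_lit 2037) (.e (nat_lit 2807) (nat_lit 180) (.e (nat_lit 303140) (nat_lit 10) (.e (nat_lit 434202) (nat_lit 18) (.e (nat_lit 6830) (nat_lit 367) (.e (nat_lit 57427) (nat_lit 15) .nil))))) .nil)) 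
(.lf (nat_lit 96940) (.g (nat_lit 1558) (.e (nat_lit 2808) (nat_lit 180) (.e (nat_lit 303140) (nat_lit 10) (.e (nat_lit 434241) (nat_lit 27) (.e (nat_lit 565269) (nat_lit 6) (.e (nat_lit 81963) (nat_lit 26) (.e (nat_lit 147511) (nat_lit 14) .nil)))))) (.g (nat_lit 4) .nil .nil)))) (.nd (nat_lit 5) 
(.lf (nat_lit 96924) (.g (nat_lit 816) (.e (nat_lit 2808) (nat_lit 180) (.e (nat_lit 303117) (nat_lit 2) (.e (nat_lit 196673) (nat_lit 15) .nil))) .nil)) 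
(.lf (nat_lit 96956) (.g (nat_lit 2871) (.e (nat_lit 2808) (nat_lit 180) (.e (nat_lit 303140) (nat_lit 10) (.e (nat_lit 434295) (nat_lit 49) (.e (nat_lit 745476) (nat_lit 0) (.e (nat_lit 1598) (nat_lit 111) (.e (nat_lit 360473) (nat_lit 8) (.e (nat_lit 557118) (nat_lit 18) .nil))))))) (.g (nat_lit 0) .nil .nil))))))) (.nd (nat_lit 2) (.nd (nat_lit 3) (.nd (nat_lit 4) (.nd (nat_lit 5) 
(.lf (nat_lit 96898) (.g (nat_lit 3381) (.e (nat_lit 2807) (nat_lit 180) (.e (nat_lit 303137) (nat_lit 10) (.e (nat_lit 434295) (nat_lit 49) (.e (nat_lit 745476) (nat_lit 0) (.e (nat_lit 1586) (nat_lit 111) (.e (nat_lit 360474) (nat_lit 8) (.e (nat_lit 557118) (nat_lit 18) .nil))))))) (.g (nat_lit 0) .nil .nil))) 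
(.lf (nat_lit 96930) (.g (nat_lit 1864) (.e (nat_lit 2808) (nat_lit 180) (.e (nat_lit 303133) (nat_lit 9) (.e (nat_lit 426412) (nat_lit 15) (.e (nat_lit 2175) (nat_lit 143) .nil)))) .nil))) (.nd (nat_lit 5) 
(.lf (nat_lit 96914) (.g (nat_lit 921) (.e (nat_lit 2808) (nat_lit 180) (.e (nat_lit 303116) (nat_lit 2) (.e (nat_lit 196672) (nat_lit 15) (.e (nat_lit 81954) (nat_lit 23) .nil)))) .nil)) 
(.lf (nat_lit 96946) (.g (nat_lit 2690) (.e (nat_lit 2808) (nat_lit 180) (.e (nat_lit 303140) (nat_lit 10) (.e (nat_lit 434295) (nat_lit 49) (.e (nat_lit 745474) (nat_lit 0) (.e (nat_lit 1586) (nat_lit 111) (.e (nat_lit 360474) (nat_lit 8) (.e (nat_lit 557118) (nat_lit 18) .nil))))))) (.g (nat_lit 6) .nil .nil))))) (.nd (nat_lit 4) (.nd (nat_lit 5) 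
(.lf (nat_lit 96906) (.g (nat_lit 3545) (.e (nat_lit 2807) (nat_lit 180) (.e (nat_lit 303137) (nat_lit 10) (.e (nat_lit 434295) (nat_lit 49) (.e (nat_lit 745476) (nat_lit 0) (.e (nat_lit 1598) (nat_lit 111) (.e (nat_lit 360473) (nat_lit 8) (.e (nat_lit 557119) (nat_lit 18) .nil))))))) (.g (nat_lit 0) .nil .nil))) 
(.lf (nat_lit 96938) (.g (nat_lit 4897) (.e (nat_lit 2808) (nat_lit 180) (.e (nat_lit 303140) (nat_lit 10) (.e (nat_lit 434202) (nat_lit 18) (.e (nat_lit 6830) (nat_lit 367) (.e (nat_lit 57427) (nat_lit 15) (.e (nat_lit 360474) (nat_lit 8) (.e (nat_lit 557118) (nat_lit 18) .nil))))))) (.g (nat_lit 7) .nil .nil)))) (.nd (nat_lit 5) 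
(.lf (nat_lit 96922) (.g (nat_lit 3258) (.e (nat_lit 2808) (nat_lit 180) (.e (nat_lit 303117) (nat_lit 2) (.e (nat_lit 196666) (nat_lit 13) (.e (nat_lit 65619) (nat_lit 10) .nil)))) .nil)) 
(.lf (nat_lit 96954) (.g (nat_lit 2815) (.e (nat_lit 2808) (nat_lit 180) (.e (nat_lit 303140) (nat_lit 10) (.e (nat_lit 434295) (nat_lit 49) (.e (nat_lit 745476) (nat_lit 0) (.e (nat_lit 1595) (nat_lit 111) (.e (nat_lit 360473) (nat_lit 8) (.e (nat_lit 557118) (nat_lit 18) .nil))))))) (.g (nat_lit 6) .nil .nil)))))) (.nd (nat_lit 3) (.nd (nat_lit 4) (.nd (nat_lit 5) 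
(.lf (nat_lit 96902) (.g (nat_lit 4093) (.e (nat_lit 2807) (nat_lit 180) (.e (nat_lit 303137) (nat_lit 10) (.e (nat_lit 434295) (nat_lit 49) (.e (nat_lit 745476) (nat_lit 0) (.e (nat_lit 1589) (nat_lit 111) (.e (nat_lit 360475) (nat_lit 8) (.e (nat_lit 557119) (nat_lit 18) .nil))))))) (.g (nat_lit 0) .nil .nil))) 
(.lf (nat_lit 96934) (.g (nat_lit 1918) (.e (nat_lit 2808) (nat_lit 180) (.e (nat_lit 303140) (nat_lit 10) (.e (nat_lit 434202) (nat_lit 18) (.e (nat_lit 6830) (nat_lit 367) (.e (nat_lit 57412) (nat_lit 12) .nil))))) .nil))) (.nd (nat_lit 5) 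
(.lf (nat_lit 96918) (.g (nat_lit 880) (.e (nat_lit 2808) (nat_lit 180) (.e (nat_lit 303116) (nat_lit 2) (.e (nat_lit 196674) (nat_lit 15) .nil))) .nil)) 
(.lf (nat_lit 96950) (.g (nat_lit 2911) (.e (nat_lit 2808) (nat_lit 180) (.e (nat_lit 303140) (nat_lit 10) (.e (nat_lit 434295) (nat_lit 49) (.e (nat_lit 745475) (nat_lit 0) (.e (nat_lit 1598) (nat_lit 111) (.e (nat_lit 360473) (nat_lit 8) (.e (nat_lit 557119) (nat_lit 18) .nil))))))) (.g (nat_lit 7) .nil .nil))))) (.nd (nat_lit 4) (.nd (nat_lit 5) 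
(.lf (nat_lit 96910) (.g (nat_lit 2184) (.e (nat_lit 2808) (nat_lit 180) (.e (nat_lit 303116) (nat_lit 2) (.e (nat_lit 196663) (nat_lit 13) (.e (nat_lit 65630) (nat_lit 14) (.e (nat_lit 401425) (nat_lit 2) (.e (nat_lit 196628) (nat_lit 9) (.e (nat_lit 970) (nat_lit 81) (.e (nat_lit 6202) (nat_lit 332) .nil)))))))) (.g (nat_lit 4) .nil .nil))) 
(.lf (nat_lit 96942) (.g (nat_lit 1531) (.e (nat_lit 2808) (nat_lit 180) (.e (nat_lit 303140) (nat_lit 10) (.e (nat_lit 434241) (nat_lit 27) (.e (nat_lit 565269) (nat_lit 6) (.e (nat_lit 81964) (nat_lit 26) .nil))))) .nil))) (.nd (nat_lit 5) 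
(.lf (nat_lit 96926) (.g (nat_lit 927) (.e (nat_lit 2808) (nat_lit 180) (.e (nat_lit 303119) (nat_lit 3) (.e (nat_lit 204849) (nat_lit 25) .nil))) .nil)) 
(.lf (nat_lit 96958) (.g (nat_lit 2261) (.e (nat_lit 2808) (nat_lit 180) (.e (nat_lit 303146) (nat_lit 14) (.e (nat_lit 491568) (nat_lit 13) (.e (nat_lit 393283) (nat_lit 24) (.e (nat_lit 434275) (nat_lit 39) (.e (nat_lit 663589) (nat_lit 14) .nil)))))) (.g (nat_lit 4) .nil .nil)))))))) (.nd (nat_lit 1) (.nd (nat_lit 2) (.nd (nat_lit 3) (.nd (nat_lit 4) (.nd (nat_lit 5) 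
(.lf (nat_lit 96897) (.g (nat_lit 3628) (.e (nat_lit 2807) (nat_lit 180) (.e (nat_lit 303137) (nat_lit 10) (.e (nat_lit 434295) (nat_lit 49) (.e (nat_lit 745475) (nat_lit 0) (.e (nat_lit 1589) (nat_lit 111) (.e (nat_lit 360475) (nat_lit 8) (.e (nat_lit 557119) (nat_lit 18) .nil))))))) (.g (nat_lit 0) .nil .nil))) 
(.lf (nat_lit 96929) (.g (nat_lit 1830) (.e (nat_lit 2808) (nat_lit 180) (.e (nat_lit 303133) (nat_lit 9) (.e (nat_lit 426412) (nat_lit 15) (.e (nat_lit 2160) (nat_lit 143) .nil)))) .nil))) (.nd (nat_lit 5) 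
(.lf (nat_lit 96913) (.g (nat_lit 1686) (.e (nat_lit 2808) (nat_lit 180) (.e (nat_lit 303116) (nat_lit 2) (.e (nat_lit 196672) (nat_lit 15) (.e (nat_lit 81953) (nat_lit 22) .nil)))) .nil)) 
(.lf (nat_lit 96945) (.g (nat_lit 787) (.e (nat_lit 2808) (nat_lit 180) (.e (nat_lit 303140) (nat_lit 10) (.e (nat_lit 434295) (nat_lit 49) (.e (nat_lit 745473) (nat_lit 0) .nil)))) .nil)))) (.nd (nat_lit 4) (.nd (nat_lit 5) 
(.lf (nat_lit 96905) (.g (nat_lit 2694) (.e (nat_lit 2807) (nat_lit 180) (.e (nat_lit 303137) (nat_lit 10) (.e (nat_lit 434295) (nat_lit 49) (.e (nat_lit 745476) (nat_lit 0) (.e (nat_lit 1598) (nat_lit 111) (.e (nat_lit 360473) (nat_lit 8) (.e (nat_lit 557118) (nat_lit 18) .nil))))))) (.g (nat_lit 0) .nil .nil))) 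
(.lf (nat_lit 96937) (.g (nat_lit 2288) (.e (nat_lit 2808) (nat_lit 180) (.e (nat_lit 303140) (nat_lit 10) (.e (nat_lit 434202) (nat_lit 18) (.e (nat_lit 6830) (nat_lit 367) (.e (nat_lit 57427) (nat_lit 15) (.e (nat_lit 360472) (nat_lit 8) (.e (nat_lit 557119) (nat_lit 18) .nil))))))) (.g (nat_lit 4) .nil .nil)))) (.nd (nat_lit 5) 
(.lf (nat_lit 96921) (.g (nat_lit 3409) (.e (nat_lit 2808) (nat_lit 180) (.e (nat_lit 303117) (nat_lit 2) (.e (nat_lit 196666) (nat_lit 13) (.e (nat_lit 65617) (nat_lit 10) .nil)))) .nil)) 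
(.lf (nat_lit 96953) (.g (nat_lit 4275) (.e (nat_lit 2808) (nat_lit 180) (.e (nat_lit 303140) (nat_lit 10) (.e (nat_lit 434295) (nat_lit 49) (.e (nat_lit 745476) (nat_lit 0) (.e (nat_lit 1589) (nat_lit 111) (.e (nat_lit 360475) (nat_lit 8) (.e (nat_lit 557119) (nat_lit 18) .nil))))))) (.g (nat_lit 7) .nil .nil)))))) (.nd (nat_lit 3) (.nd (nat_lit 4) (.nd (nat_lit 5) 
(.lf (nat_lit 96901) (.g (nat_lit 3499) (.e (nat_lit 2807) (nat_lit 180) (.e (nat_lit 303137) (nat_lit 10) (.e (nat_lit 434295) (nat_lit 49) (.e (nat_lit 745476) (nat_lit 0) (.e (nat_lit 1589) (nat_lit 111) (.e (nat_lit 360473) (nat_lit 8) (.e (nat_lit 557119) (nat_lit 18) .nil))))))) (.g (nat_lit 0) .nil .nil))) 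
(.lf (nat_lit 96933) (.g (nat_lit 4222) (.e (nat_lit 2808) (nat_lit 180) (.e (nat_lit 303140) (nat_lit 10) (.e (nat_lit 434202) (nat_lit 18) (.e (nat_lit 6828) (nat_lit 367) (.e (nat_lit 57427) (nat_lit 15) (.e (nat_lit 360474) (nat_lit 8) (.e (nat_lit 557118) (nat_lit 18) .nil))))))) (.g (nat_lit 7) .nil .nil)))) (.nd (nat_lit 5) 
(.lf (nat_lit 96917) (.g (nat_lit 2245) (.e (nat_lit 2808) (nat_lit 180) (.e (nat_lit 303116) (nat_lit 2) (.e (nat_lit 196672) (nat_lit 15) (.e (nat_lit 81954) (nat_lit 23) (.e (nat_lit 98325) (nat_lit 17) (.e (nat_lit 7008) (nat_lit 377) .nil)))))) (.g (nat_lit 5) .nil .nil))) 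
(.lf (nat_lit 96949) (.g (nat_lit 3891) (.e (nat_lit 2808) (nat_lit 180) (.e (nat_lit 303140) (nat_lit 10) (.e (nat_lit 434295) (nat_lit 49) (.e (nat_lit 745475) (nat_lit 0) (.e (nat_lit 1589) (nat_lit 111) (.e (nat_lit 360475) (nat_lit 8) (.e (nat_lit 557119) (nat_lit 18) .nil))))))) (.g (nat_lit 7) .nil .nil))))) (.nd (nat_lit 4) (.nd (nat_lit 5) 
(.lf (nat_lit 96909) (.g (nat_lit 1725) (.e (nat_lit 2808) (nat_lit 180) (.e (nat_lit 303116) (nat_lit 2) (.e (nat_lit 196663) (nat_lit 13) (.e (nat_lit 65630) (nat_lit 14) (.e (nat_lit 401425) (nat_lit 2) .nil))))) .nil)) 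
(.lf (nat_lit 96941) (.g (nat_lit 2590) (.e (nat_lit 2808) (nat_lit 180) (.e (nat_lit 303140) (nat_lit 10) (.e (nat_lit 434241) (nat_lit 27) (.e (nat_lit 565269) (nat_lit 6) (.e (nat_lit 81963) (nat_lit 26) (.e (nat_lit 147512) (nat_lit 14) .nil)))))) (.g (nat_lit 6) .nil .nil)))) (.nd (nat_lit 5) 
(.lf (nat_lit 96925) (.g (nat_lit 2189) (.e (nat_lit 2808) (nat_lit 180) (.e (nat_lit 303117) (nat_lit 2) (.e (nat_lit 196674) (nat_lit 15) (.e (nat_lit 81953) (nat_lit 22) .nil)))) .nil)) 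
(.lf (nat_lit 96957) (.g (nat_lit 1806) (.e (nat_lit 2808) (nat_lit 180) (.e (nat_lit 303146) (nat_lit 14) (.e (nat_lit 491568) (nat_lit 13) (.e (nat_lit 393282) (nat_lit 24) .nil)))) .nil)))))) (.nd (nat_lit 2) (.nd (nat_lit 3) (.nd (nat_lit 4) (.nd (nat_lit 5) 
(.lf (nat_lit 96899) (.g (nat_lit 4482) (.e (nat_lit 2807) (nat_lit 180) (.e (nat_lit 303137) (nat_lit 10) (.e (nat_lit 434295) (nat_lit 49) (.e (nat_lit 745476) (nat_lit 0) (.e (nat_lit 1586) (nat_lit 111) (.e (nat_lit 360475) (nat_lit 8) (.e (nat_lit 557119) (nat_lit 18) .nil))))))) (.g (nat_lit 0) .nil .nil))) 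
(.lf (nat_lit 96931) (.g (nat_lit 448) (.e (nat_lit 2808) (nat_lit 180) (.e (nat_lit 303140) (nat_lit 10) (.e (nat_lit 434200) (nat_lit 18) .nil))) .nil))) (.nd (nat_lit 5) 
(.lf (nat_lit 96915) (.g (nat_lit 1719) (.e (nat_lit 2808) (nat_lit 180) (.e (nat_lit 303116) (nat_lit 2) (.e (nat_lit 196672) (nat_lit 15) (.e (nat_lit 81954) (nat_lit 23) (.e (nat_lit 98323) (nat_lit 17) (.e (nat_lit 7019) (nat_lit 377) .nil)))))) (.g (nat_lit 4) .nil .nil))) 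
(.lf (nat_lit 96947) (.g (nat_lit 3200) (.e (nat_lit 2808) (nat_lit 180) (.e (nat_lit 303140) (nat_lit 10) (.e (nat_lit 434295) (nat_lit 49) (.e (nat_lit 745475) (nat_lit 0) (.e (nat_lit 1586) (nat_lit 111) (.e (nat_lit 360474) (nat_lit 8) (.e (nat_lit 557118) (nat_lit 18) .nil))))))) (.g (nat_lit 7) .nil .nil))))) (.nd (nat_lit 4) (.nd (nat_lit 5) 
(.lf (nat_lit 96907) (.g (nat_lit 222) (.e (nat_lit 2807) (nat_lit 180) (.e (nat_lit 303138) (nat_lit 10) (.e (nat_lit 434241) (nat_lit 27) .nil))) .nil)) 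
(.lf (nat_lit 96939) (.g (nat_lit 4973) (.e (nat_lit 2808) (nat_lit 180) (.e (nat_lit 303140) (nat_lit 10) (.e (nat_lit 434202) (nat_lit 18) (.e (nat_lit 6830) (nat_lit 367) (.e (nat_lit 57427) (nat_lit 15) (.e (nat_lit 360475) (nat_lit 8) (.e (nat_lit 557119) (nat_lit 18) .nil))))))) (.g (nat_lit 0) .nil .nil)))) (.nd (nat_lit 5) 
(.lf (nat_lit 96923) (.g (nat_lit 3161) (.e (nat_lit 2808) (nat_lit 180) (.e (nat_lit 303117) (nat_lit 2) (.e (nat_lit 196672) (nat_lit 15) (.e (nat_lit 81951) (nat_lit 22) (.e (nat_lit 90165) (nat_lit 12) .nil))))) .nil)) 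
(.lf (nat_lit 96955) (.g (nat_lit 3939) (.e (nat_lit 2808) (nat_lit 180) (.e (nat_lit 303140) (nat_lit 10) (.e (nat_lit 434295) (nat_lit 49) (.e (nat_lit 745476) (nat_lit 0) (.e (nat_lit 1595) (nat_lit 111) (.e (nat_lit 360473) (nat_lit 8) (.e (nat_lit 557119) (nat_lit 18) .nil))))))) (.g (nat_lit 7) .nil .nil)))))) (.nd (nat_lit 3) (.nd (nat_lit 4) (.nd (nat_lit 5) 
(.lf (nat_lit 96903) (.g (nat_lit 2647) (.e (nat_lit 2807) (nat_lit 180) (.e (nat_lit 303137) (nat_lit 10) (.e (nat_lit 434295) (nat_lit 49) (.e (nat_lit 745476) (nat_lit 0) (.e (nat_lit 1595) (nat_lit 111) (.e (nat_lit 360473) (nat_lit 8) (.e (nat_lit 557118) (nat_lit 18) .nil))))))) (.g (nat_lit 7) .nil .nil))) 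
(.lf (nat_lit 96935) (.g (nat_lit 1926) (.e (nat_lit 2808) (nat_lit 180) (.e (nat_lit 303140) (nat_lit 10) (.e (nat_lit 434202) (nat_lit 18) (.e (nat_lit 6830) (nat_lit 367) (.e (nat_lit 57426) (nat_lit 15) .nil))))) .nil))) (.nd (nat_lit 5) 
(.lf (nat_lit 96919) (.g (nat_lit 2463) (.e (nat_lit 2808) (nat_lit 180) (.e (nat_lit 303117) (nat_lit 2) (.e (nat_lit 196666) (nat_lit 13) (.e (nat_lit 65596) (nat_lit 9) .nil)))) .nil)) 
(.lf (nat_lit 96951) (.g (nat_lit 3487) (.e (nat_lit 2808) (nat_lit 180) (.e (nat_lit 303140) (nat_lit 10) (.e (nat_lit 434295) (nat_lit 49) (.e (nat_lit 745476) (nat_lit 0) (.e (nat_lit 1586) (nat_lit 111) (.e (nat_lit 360474) (nat_lit 8) (.e (nat_lit 557118) (nat_lit 18) .nil))))))) (.g (nat_lit 7) .nil .nil))))) (.nd (nat_lit 4) (.nd (nat_lit 5) 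
(.lf (nat_lit 96911) (.g (nat_lit 2048) (.e (nat_lit 2808) (nat_lit 180) (.e (nat_lit 303116) (nat_lit 2) (.e (nat_lit 196672) (nat_lit 15) (.e (nat_lit 81951) (nat_lit 22) (.e (nat_lit 90165) (nat_lit 12) .nil))))) .nil)) 
(.lf (nat_lit 96943) (.g (nat_lit 1616) (.e (nat_lit 2808) (nat_lit 180) (.e (nat_lit 303140) (nat_lit 10) (.e (nat_lit 434241) (nat_lit 27) (.e (nat_lit 565269) (nat_lit 6) (.e (nat_lit 81965) (nat_lit 26) (.e (nat_lit 147511) (nat_lit 14) .nil)))))) (.g (nat_lit 4) .nil .nil)))) (.nd (nat_lit 5) 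
(.lf (nat_lit 96927) (.g (nat_lit 2721) (.e (nat_lit 2808) (nat_lit 180) (.e (nat_lit 303119) (nat_lit 3) (.e (nat_lit 204868) (nat_lit 29) (.e (nat_lit 360466) (nat_lit 3) .nil)))) .nil)) 
(.lf (nat_lit 96959) (.g (nat_lit 2125) (.e (nat_lit 2809) (nat_lit 180) (.e (nat_lit 303147) (nat_lit 15) (.e (nat_lit 6114) (nat_lit 332) (.e (nat_lit 1370) (nat_lit 103) (.e (nat_lit 294960) (nat_lit 13) (.e (nat_lit 393238) (nat_lit 17) (.e (nat_lit 6983) (nat_lit 377) .nil))))))) (.g (nat_lit 4) .nil .nil)))))))))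

noncomputable def tv1328 : DT := (.nd (nat_lit 0) (.nd (nat_lit 1) (.nd (nat_lit 2) (.nd (nat_lit 3) (.nd (nat_lit 4) (.nd (nat_lit 5) 
(.lf (nat_lit 96960) (.g (nat_lit 2038) (.e (nat_lit 2809) (nat_lit 180) (.e (nat_lit 311040) (nat_lit 25) (.e (nat_lit 319531) (nat_lit 16) (.e (nat_lit 286748) (nat_lit 9) (.e (nat_lit 336389) (nat_lit 27) (.e (nat_lit 426012) (nat_lit 0) (.e (nat_lit 6949) (nat_lit 377) .nil))))))) (.g (nat_lit 6) .nil .nil))) 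
(.lf (nat_lit 96992) (.g (nat_lit 1339) (.e (nat_lit 2810) (nat_lit 180) (.e (nat_lit 303143) (nat_lit 12) (.e (nat_lit 475198) (nat_lit 40) (.e (nat_lit 704790) (nat_lit 14) .nil)))) .nil))) (.nd (nat_lit 5) 
(.lf (nat_lit 96976) (.g (nat_lit 2063) (.e (nat_lit 2810) (nat_lit 180) (.e (nat_lit 303117) (nat_lit 2) (.e (nat_lit 196630) (nat_lit 9) (.e (nat_lit 1564) (nat_lit 110) (.e (nat_lit 352313) (nat_lit 23) (.e (nat_lit 98323) (nat_lit 17) (.e (nat_lit 6989) (nat_lit 377) .nil))))))) (.g (nat_lit 4) .nil .nil))) 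
(.lf (nat_lit 97008) (.g (nat_lit 619) (.e (nat_lit 7936) (nat_lit 180) (.e (nat_lit 303117) (nat_lit 2) (.e (nat_lit 196671) (nat_lit 15) .nil))) .nil)))) (.nd (nat_lit 4) (.nd (nat_lit 5) 
(.lf (nat_lit 96968) (.g (nat_lit 2418) (.e (nat_lit 2810) (nat_lit 180) (.e (nat_lit 303115) (nat_lit 1) (.e (nat_lit 164178) (nat_lit 154) (.e (nat_lit 57437) (nat_lit 17) (.e (nat_lit 376838) (nat_lit 11) (.e (nat_lit 426024) (nat_lit 0) (.e (nat_lit 6989) (nat_lit 377) .nil))))))) (.g (nat_lit 7) .nil .nil))) 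
(.lf (nat_lit 97000) (.g (nat_lit 3404) (.e (nat_lit 2812) (nat_lit 180) (.e (nat_lit 303117) (nat_lit 2) (.e (nat_lit 196666) (nat_lit 13) (.e (nat_lit 65617) (nat_lit 10) .nil)))) .nil))) (.nd (nat_lit 5) 
(.lf (nat_lit 96984) (.g (nat_lit 742) (.e (nat_lit 2810) (nat_lit 180) (.e (nat_lit 303119) (nat_lit 3) (.e (nat_lit 204851) (nat_lit 26) .nil))) .nil)) 
(.lf (nat_lit 97016) (.g (nat_lit 1038) (.e (nat_lit 2815) (nat_lit 181) (.e (nat_lit 311324) (nat_lit 9) (.e (nat_lit 426402) (nat_lit 15) (.e (nat_lit 1849) (nat_lit 124) (.e (nat_lit 557108) (nat_lit 15) (.e (nat_lit 188449) (nat_lit 22) (.e (nat_lit 204544) (nat_lit 18) .nil))))))) (.g (nat_lit 4) .nil .nil)))))) (.nd (nat_lit 3) (.nd (nat_lit 4) (.nd (nat_lit 5) 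
(.lf (nat_lit 96964) (.g (nat_lit 1115) (.e (nat_lit 2810) (nat_lit 180) (.e (nat_lit 303115) (nat_lit 1) (.e (nat_lit 164149) (nat_lit 152) (.e (nat_lit 1217) (nat_lit 90) (.e (nat_lit 81926) (nat_lit 11) .nil))))) .nil)) 
(.lf (nat_lit 96996) (.g (nat_lit 3289) (.e (nat_lit 2811) (nat_lit 180) (.e (nat_lit 303117) (nat_lit 2) (.e (nat_lit 196666) (nat_lit 13) (.e (nat_lit 65610) (nat_lit 10) (.e (nat_lit 344117) (nat_lit 21) .nil))))) .nil))) (.nd (nat_lit 5) 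
(.lf (nat_lit 96980) (.g (nat_lit 2574) (.e (nat_lit 2810) (nat_lit 180) (.e (nat_lit 303117) (nat_lit 2) (.e (nat_lit 196666) (nat_lit 13) (.e (nat_lit 65598) (nat_lit 9) .nil)))) .nil)) 
(.lf (nat_lit 97012) (.g (nat_lit 3239) (.e (nat_lit 7936) (nat_lit 180) (.e (nat_lit 303143) (nat_lit 12) (.e (nat_lit 475185) (nat_lit 29) (.e (nat_lit 557107) (nat_lit 15) (.e (nat_lit 188456) (nat_lit 25) .nil))))) .nil)))) (.nd (nat_lit 4) (.nd (nat_lit 5) 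
(.lf (nat_lit 96972) (.g (nat_lit 1816) (.e (nat_lit 2810) (nat_lit 180) (.e (nat_lit 303115) (nat_lit 1) (.e (nat_lit 164183) (nat_lit 154) (.e (nat_lit 57411) (nat_lit 12) (.e (nat_lit 336211) (nat_lit 13) (.e (nat_lit 393238) (nat_lit 17) (.e (nat_lit 6989) (nat_lit 377) .nil))))))) (.g (nat_lit 4) .nil .nil))) 
(.lf (nat_lit 97004) (.g (nat_lit 2267) (.e (nat_lit 7936) (nat_lit 180) (.e (nat_lit 303116) (nat_lit 2) (.e (nat_lit 196672) (nat_lit 15) (.e (nat_lit 81951) (nat_lit 22) (.e (nat_lit 90165) (nat_lit 12) .nil))))) .nil))) (.nd (nat_lit 5) 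
(.lf (nat_lit 96988) (.g (nat_lit 3342) (.e (nat_lit 2810) (nat_lit 180) (.e (nat_lit 303119) (nat_lit 3) (.e (nat_lit 204869) (nat_lit 29) (.e (nat_lit 360450) (nat_lit 0) (.e (nat_lit 4150) (nat_lit 249) .nil))))) .nil)) 
(.lf (nat_lit 97020) (.g (nat_lit 2235) (.e (nat_lit 2816) (nat_lit 181) (.e (nat_lit 311322) (nat_lit 9) (.e (nat_lit 426402) (nat_lit 15) (.e (nat_lit 1849) (nat_lit 124) (.e (nat_lit 557108) (nat_lit 15) (.e (nat_lit 188449) (nat_lit 22) (.e (nat_lit 204544) (nat_lit 18) .nil))))))) (.g (nat_lit 6) .nil .nil))))))) (.nd (nat_lit 2) (.nd (nat_lit 3) (.nd (nat_lit 4) (.nd (nat_lit 5) 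
(.lf (nat_lit 96962) (.g (nat_lit 1284) (.e (nat_lit 2809) (nat_lit 180) (.e (nat_lit 311040) (nat_lit 34) (.e (nat_lit 393294) (nat_lit 26) (.e (nat_lit 475169) (nat_lit 22) (.e (nat_lit 499791) (nat_lit 3) (.e (nat_lit 164268) (nat_lit 221) .nil)))))) (.g (nat_lit 4) .nil .nil))) 
(.lf (nat_lit 96994) (.g (nat_lit 2467) (.e (nat_lit 2810) (nat_lit 180) (.e (nat_lit 303143) (nat_lit 12) (.e (nat_lit 475199) (nat_lit 40) (.e (nat_lit 704836) (nat_lit 14) .nil)))) .nil))) (.nd (nat_lit 5) 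
(.lf (nat_lit 96978) (.g (nat_lit 493) (.e (nat_lit 2810) (nat_lit 180) (.e (nat_lit 303117) (nat_lit 2) (.e (nat_lit 196661) (nat_lit 12) .nil))) .nil)) 
(.lf (nat_lit 97010) (.g (nat_lit 2170) (.e (nat_lit 7936) (nat_lit 180) (.e (nat_lit 303133) (nat_lit 9) (.e (nat_lit 426412) (nat_lit 15) (.e (nat_lit 1856) (nat_lit 124) (.e (nat_lit 557109) (nat_lit 15) .nil))))) .nil)))) (.nd (nat_lit 4) (.nd (nat_lit 5) 
(.lf (nat_lit 96970) (.g (nat_lit 2647) (.e (nat_lit 2810) (nat_lit 180) (.e (nat_lit 303115) (nat_lit 1) (.e (nat_lit 164179) (nat_lit 154) (.e (nat_lit 57436) (nat_lit 17) (.e (nat_lit 376838) (nat_lit 11) (.e (nat_lit 426024) (nat_lit 0) (.e (nat_lit 6989) (nat_lit 377) .nil))))))) (.g (nat_lit 7) .nil .nil))) 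
(.lf (nat_lit 97002) (.g (nat_lit 1903) (.e (nat_lit 2812) (nat_lit 180) (.e (nat_lit 311040) (nat_lit 34) (.e (nat_lit 393289) (nat_lit 25) (.e (nat_lit 458789) (nat_lit 23) (.e (nat_lit 532575) (nat_lit 17) (.e (nat_lit 6972) (nat_lit 377) .nil)))))) (.g (nat_lit 5) .nil .nil)))) (.nd (nat_lit 5) 
(.lf (nat_lit 96986) (.g (nat_lit 1887) (.e (nat_lit 2810) (nat_lit 180) (.e (nat_lit 303119) (nat_lit 3) (.e (nat_lit 204855) (nat_lit 26) (.e (nat_lit 336111) (nat_lit 9) .nil)))) .nil)) 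
(.lf (nat_lit 97018) (.g (nat_lit 418) (.e (nat_lit 2816) (nat_lit 181) (.e (nat_lit 311312) (nat_lit 2) (.e (nat_lit 196672) (nat_lit 15) .nil))) .nil))))) (.nd (nat_lit 3) (.nd (nat_lit 4) (.nd (nat_lit 5) 
(.lf (nat_lit 96966) (.g (nat_lit 758) (.e (nat_lit 2810) (nat_lit 180) (.e (nat_lit 303115) (nat_lit 1) (.e (nat_lit 164151) (nat_lit 152) (.e (nat_lit 1216) (nat_lit 90) .nil)))) .nil)) 
(.lf (nat_lit 96998) (.g (nat_lit 1506) (.e (nat_lit 2811) (nat_lit 180) (.e (nat_lit 303143) (nat_lit 12) (.e (nat_lit 475185) (nat_lit 29) (.e (nat_lit 557100) (nat_lit 13) .nil)))) .nil))) (.nd (nat_lit 5) 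
(.lf (nat_lit 96982) (.g (nat_lit 2073) (.e (nat_lit 2810) (nat_lit 180) (.e (nat_lit 303119) (nat_lit 3) (.e (nat_lit 204821) (nat_lit 17) (.e (nat_lit 6114) (nat_lit 332) (.e (nat_lit 2507) (nat_lit 157) .nil))))) .nil)) 
(.lf (nat_lit 97014) (.g (nat_lit 930) (.e (nat_lit 2814) (nat_lit 181) (.e (nat_lit 311312) (nat_lit 2) (.e (nat_lit 196672) (nat_lit 15) (.e (nat_lit 81954) (nat_lit 23) .nil)))) .nil)))) (.nd (nat_lit 4) (.nd (nat_lit 5) 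
(.lf (nat_lit 96974) (.g (nat_lit 1337) (.e (nat_lit 2810) (nat_lit 180) (.e (nat_lit 303117) (nat_lit 2) (.e (nat_lit 196630) (nat_lit 9) (.e (nat_lit 1553) (nat_lit 110) .nil)))) .nil)) 
(.lf (nat_lit 97006) (.g (nat_lit 1463) (.e (nat_lit 7936) (nat_lit 180) (.e (nat_lit 303117) (nat_lit 2) (.e (nat_lit 196630) (nat_lit 9) (.e (nat_lit 1573) (nat_lit 110) .nil)))) .nil))) (.nd (nat_lit 5) 
(.lf (nat_lit 96990) (.g (nat_lit 697) (.e (nat_lit 2810) (nat_lit 180) (.e (nat_lit 303119) (nat_lit 3) (.e (nat_lit 204875) (nat_lit 31) .nil))) .nil)) 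
(.lf (nat_lit 97022) (.g (nat_lit 2401) (.e (nat_lit 2816) (nat_lit 181) (.e (nat_lit 311324) (nat_lit 9) (.e (nat_lit 426402) (nat_lit 15) (.e (nat_lit 1848) (nat_lit 124) (.e (nat_lit 557108) (nat_lit 15) (.e (nat_lit 188449) (nat_lit 22) (.e (nat_lit 204544) (nat_lit 18) .nil))))))) (.g (nat_lit 6) .nil .nil)))))))) 
(.nd (nat_lit 1) (.nd (nat_lit 2) (.nd (nat_lit 3) (.nd (nat_lit 4) (.nd (nat_lit 5) 
(.lf (nat_lit 96961) (.g (nat_lit 1600) (.e (nat_lit 2809) (nat_lit 180) (.e (nat_lit 311040) (nat_lit 34) (.e (nat_lit 393291) (nat_lit 26) (.e (nat_lit 475169) (nat_lit 22) (.e (nat_lit 499791) (nat_lit 3) (.e (nat_lit 164268) (nat_lit 221) .nil)))))) (.g (nat_lit 4) .nil .nil))) 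
(.lf (nat_lit 96993) (.g (nat_lit 2466) (.e (nat_lit 2810) (nat_lit 180) (.e (nat_lit 303143) (nat_lit 12) (.e (nat_lit 475199) (nat_lit 40) (.e (nat_lit 704790) (nat_lit 14) .nil)))) .nil))) (.nd (nat_lit 5) 
(.lf (nat_lit 96977) (.g (nat_lit 2190) (.e (nat_lit 2810) (nat_lit 180) (.e (nat_lit 303117) (nat_lit 2) (.e (nat_lit 196630) (nat_lit 9) (.e (nat_lit 1596) (nat_lit 111) (.e (nat_lit 360468) (nat_lit 3) (.e (nat_lit 516102) (nat_lit 0) (.e (nat_lit 6989) (nat_lit 377) .nil))))))) (.g (nat_lit 4) .nil .nil))) 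
(.lf (nat_lit 97009) (.g (nat_lit 520) (.e (nat_lit 7936) (nat_lit 180) (.e (nat_lit 303119) (nat_lit 3) (.e (nat_lit 204877) (nat_lit 31) .nil))) .nil)))) (.nd (nat_lit 4) (.nd (nat_lit 5) 
(.lf (nat_lit 96969) (.g (nat_lit 3501) (.e (nat_lit 2810) (nat_lit 180) (.e (nat_lit 303115) (nat_lit 1) (.e (nat_lit 164179) (nat_lit 154) (.e (nat_lit 57411) (nat_lit 12) (.e (nat_lit 336211) (nat_lit 13) (.e (nat_lit 393238) (nat_lit 17) (.e (nat_lit 6989) (nat_lit 377) .nil))))))) (.g (nat_lit 7) .nil .nil))) 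
(.lf (nat_lit 97001) (.g (nat_lit 2483) (.e (nat_lit 2812) (nat_lit 180) (.e (nat_lit 303143) (nat_lit 12) (.e (nat_lit 475185) (nat_lit 29) (.e (nat_lit 557109) (nat_lit 15) .nil)))) .nil))) (.nd (nat_lit 5) 
(.lf (nat_lit 96985) (.g (nat_lit 2398) (.e (nat_lit 2810) (nat_lit 180) (.e (nat_lit 303119) (nat_lit 3) (.e (nat_lit 204855) (nat_lit 26) (.e (nat_lit 336103) (nat_lit 9) .nil)))) .nil)) 
(.lf (nat_lit 97017) (.g (nat_lit 1412) (.e (nat_lit 2816) (nat_lit 181) (.e (nat_lit 311311) (nat_lit 2) (.e (nat_lit 196666) (nat_lit 13) (.e (nat_lit 65619) (nat_lit 10) .nil)))) .nil))))) (.nd (nat_lit 3) (.nd (nat_lit 4) (.nd (nat_lit 5) 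
(.lf (nat_lit 96965) (.g (nat_lit 1271) (.e (nat_lit 2810) (nat_lit 180) (.e (nat_lit 303115) (nat_lit 1) (.e (nat_lit 164150) (nat_lit 152) (.e (nat_lit 1217) (nat_lit 90) (.e (nat_lit 81926) (nat_lit 11) (.e (nat_lit 426024) (nat_lit 0) (.e (nat_lit 6989) (nat_lit 377) .nil))))))) (.g (nat_lit 4) .nil .nil))) 
(.lf (nat_lit 96997) (.g (nat_lit 3552) (.e (nat_lit 2811) (nat_lit 180) (.e (nat_lit 303117) (nat_lit 2) (.e (nat_lit 196666) (nat_lit 13) (.e (nat_lit 65617) (nat_lit 10) .nil)))) .nil))) (.nd (nat_lit 5) 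
(.lf (nat_lit 96981) (.g (nat_lit 3008) (.e (nat_lit 2810) (nat_lit 180) (.e (nat_lit 303117) (nat_lit 2) (.e (nat_lit 196666) (nat_lit 13) (.e (nat_lit 65619) (nat_lit 10) (.e (nat_lit 344117) (nat_lit 21) .nil))))) .nil)) 
(.lf (nat_lit 97013) (.g (nat_lit 487) (.e (nat_lit 7936) (nat_lit 180) (.e (nat_lit 303146) (nat_lit 14) (.e (nat_lit 491540) (nat_lit 3) .nil))) .nil)))) (.nd (nat_lit 4) (.nd (nat_lit 5) 
(.lf (nat_lit 96973) (.g (nat_lit 1004) (.e (nat_lit 2810) (nat_lit 180) (.e (nat_lit 303116) (nat_lit 2) (.e (nat_lit 196672) (nat_lit 15) (.e (nat_lit 81954) (nat_lit 23) .nil)))) .nil)) 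
(.lf (nat_lit 97005) (.g (nat_lit 1822) (.e (nat_lit 7936) (nat_lit 180) (.e (nat_lit 303116) (nat_lit 2) (.e (nat_lit 196672) (nat_lit 15) (.e (nat_lit 81954) (nat_lit 23) (.e (nat_lit 98325) (nat_lit 17) .nil))))) .nil))) (.nd (nat_lit 5) 
(.lf (nat_lit 96989) (.g (nat_lit 2183) (.e (nat_lit 2810) (nat_lit 180) (.e (nat_lit 303119) (nat_lit 3) (.e (nat_lit 204869) (nat_lit 29) (.e (nat_lit 360451) (nat_lit 0) .nil)))) .nil)) 
(.lf (nat_lit 97021) (.g (nat_lit 1991) (.e (nat_lit 2816) (nat_lit 181) (.e (nat_lit 311322) (nat_lit 9) (.e (nat_lit 426402) (nat_lit 15) (.e (nat_lit 1859) (nat_lit 124) (.e (nat_lit 557109) (nat_lit 15) (.e (nat_lit 188449) (nat_lit 22) (.e (nat_lit 204544) (nat_lit 18) .nil))))))) (.g (nat_lit 6) .nil .nil))))))) (.nd (nat_lit 2) (.nd (nat_lit 3) (.nd (nat_lit 4) (.nd (nat_lit 5) 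
(.lf (nat_lit 96963) (.g (nat_lit 1311) (.e (nat_lit 2810) (nat_lit 180) (.e (nat_lit 303115) (nat_lit 1) (.e (nat_lit 164148) (nat_lit 152) (.e (nat_lit 1296) (nat_lit 96) (.e (nat_lit 131127) (nat_lit 13) .nil))))) .nil)) 
(.lf (nat_lit 96995) (.g (nat_lit 3377) (.e (nat_lit 2810) (nat_lit 180) (.e (nat_lit 303147) (nat_lit 15) (.e (nat_lit 6114) (nat_lit 332) (.e (nat_lit 1370) (nat_lit 103) (.e (nat_lit 294960) (nat_lit 13) (.e (nat_lit 393238) (nat_lit 17) (.e (nat_lit 6989) (nat_lit 377) .nil))))))) (.g (nat_lit 0) .nil .nil)))) (.nd (nat_lit 5) 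
(.lf (nat_lit 96979) (.g (nat_lit 2867) (.e (nat_lit 2810) (nat_lit 180) (.e (nat_lit 303117) (nat_lit 2) (.e (nat_lit 196663) (nat_lit 13) (.e (nat_lit 65630) (nat_lit 14) (.e (nat_lit 401428) (nat_lit 3) (.e (nat_lit 204819) (nat_lit 17) (.e (nat_lit 6113) (nat_lit 332) .nil))))))) (.g (nat_lit 5) .nil .nil))) 
(.lf (nat_lit 97011) (.g (nat_lit 1046) (.e (nat_lit 7936) (nat_lit 180) (.e (nat_lit 303143) (nat_lit 12) (.e (nat_lit 475183) (nat_lit 29) (.e (nat_lit 557109) (nat_lit 15) .nil)))) .nil)))) (.nd (nat_lit 4) (.nd (nat_lit 5) 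
(.lf (nat_lit 96971) (.g (nat_lit 2917) (.e (nat_lit 2810) (nat_lit 180) (.e (nat_lit 303115) (nat_lit 1) (.e (nat_lit 164179) (nat_lit 154) (.e (nat_lit 57437) (nat_lit 17) (.e (nat_lit 376842) (nat_lit 11) (.e (nat_lit 426024) (nat_lit 0) (.e (nat_lit 6989) (nat_lit 377) .nil))))))) (.g (nat_lit 6) .nil .nil))) 
(.lf (nat_lit 97003) (.g (nat_lit 1970) (.e (nat_lit 2812) (nat_lit 180) (.e (nat_lit 311040) (nat_lit 34) (.e (nat_lit 393289) (nat_lit 25) (.e (nat_lit 458789) (nat_lit 23) (.e (nat_lit 532575) (nat_lit 17) (.e (nat_lit 6973) (nat_lit 377) .nil)))))) (.g (nat_lit 5) .nil .nil)))) (.nd (nat_lit 5) 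
(.lf (nat_lit 96987) (.g (nat_lit 2263) (.e (nat_lit 2810) (nat_lit 180) (.e (nat_lit 303119) (nat_lit 3) (.e (nat_lit 204863) (nat_lit 27) (.e (nat_lit 344072) (nat_lit 8) .nil)))) .nil)) 
(.lf (nat_lit 97019) (.g (nat_lit 2495) (.e (nat_lit 2816) (nat_lit 181) (.e (nat_lit 311322) (nat_lit 9) (.e (nat_lit 426402) (nat_lit 15) (.e (nat_lit 1848) (nat_lit 124) (.e (nat_lit 557108) (nat_lit 15) (.e (nat_lit 188449) (nat_lit 22) (.e (nat_lit 204544) (nat_lit 18) .nil))))))) (.g (nat_lit 6) .nil .nil)))))) (.nd (nat_lit 3) (.nd (nat_lit 4) (.nd (nat_lit 5) 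
(.lf (nat_lit 96967) (.g (nat_lit 1285) (.e (nat_lit 2810) (nat_lit 180) (.e (nat_lit 303115) (nat_lit 1) (.e (nat_lit 164151) (nat_lit 152) (.e (nat_lit 1217) (nat_lit 90) (.e (nat_lit 81926) (nat_lit 11) (.e (nat_lit 426024) (nat_lit 0) (.e (nat_lit 6989) (nat_lit 377) .nil))))))) (.g (nat_lit 4) .nil .nil))) 
(.lf (nat_lit 96999) (.g (nat_lit 2954) (.e (nat_lit 2812) (nat_lit 180) (.e (nat_lit 303117) (nat_lit 2) (.e (nat_lit 196666) (nat_lit 13) (.e (nat_lit 65610) (nat_lit 10) (.e (nat_lit 344117) (nat_lit 21) .nil))))) .nil))) (.nd (nat_lit 5) 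
(.lf (nat_lit 96983) (.g (nat_lit 750) (.e (nat_lit 2810) (nat_lit 180) (.e (nat_lit 303119) (nat_lit 3) (.e (nat_lit 204850) (nat_lit 26) .nil))) .nil)) 
(.lf (nat_lit 97015) (.g (nat_lit 1704) (.e (nat_lit 2814) (nat_lit 181) (.e (nat_lit 311325) (nat_lit 9) (.e (nat_lit 426402) (nat_lit 15) (.e (nat_lit 1849) (nat_lit 124) (.e (nat_lit 557108) (nat_lit 15) (.e (nat_lit 188449) (nat_lit 22) (.e (nat_lit 204544) (nat_lit 18) .nil))))))) (.g (nat_lit 5) .nil .nil))))) (.nd (nat_lit 4) (.nd (nat_lit 5) 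
(.lf (nat_lit 96975) (.g (nat_lit 2570) (.e (nat_lit 2810) (nat_lit 180) (.e (nat_lit 303117) (nat_lit 2) (.e (nat_lit 196630) (nat_lit 9) (.e (nat_lit 1563) (nat_lit 110) (.e (nat_lit 352313) (nat_lit 23) (.e (nat_lit 98323) (nat_lit 17) (.e (nat_lit 6989) (nat_lit 377) .nil))))))) (.g (nat_lit 4) .nil .nil))) 
(.lf (nat_lit 97007) (.g (nat_lit 3371) (.e (nat_lit 7936) (nat_lit 180) (.e (nat_lit 303117) (nat_lit 2) (.e (nat_lit 196666) (nat_lit 13) (.e (nat_lit 65604) (nat_lit 9) (.e (nat_lit 336013) (nat_lit 2) .nil))))) .nil))) (.nd (nat_lit 5) 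
(.lf (nat_lit 96991) (.g (nat_lit 3306) (.e (nat_lit 2810) (nat_lit 180) (.e (nat_lit 303143) (nat_lit 12) (.e (nat_lit 475185) (nat_lit 29) (.e (nat_lit 557096) (nat_lit 13) .nil)))) .nil)) 
(.lf (nat_lit 97023) (.g (nat_lit 2244) (.e (nat_lit 2816) (nat_lit 181) (.e (nat_lit 311324) (nat_lit 9) (.e (nat_lit 426402) (nat_lit 15) (.e (nat_lit 1849) (nat_lit 124) (.e (nat_lit 557108) (nat_lit 15) (.e (nat_lit 188449) (nat_lit 22) (.e (nat_lit 204544) (nat_lit 18) .nil))))))) (.g (nat_lit 6) .nil .nil)))))))))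

noncomputable def tv1329 : DT := (.nd (nat_lit 0) (.nd (nat_lit 1) (.nd (nat_lit 2) (.nd (nat_lit 3) (.nd (nat_lit 4) (.nd (nat_lit 5) 
(.lf (nat_lit 97024) (.g (nat_lit 1964) (.e (nat_lit 2816) (nat_lit 181) (.e (nat_lit 311324) (nat_lit 9) (.e (nat_lit 426402) (nat_lit 15) (.e (nat_lit 1859) (nat_lit 124) (.e (nat_lit 557109) (nat_lit 15) (.e (nat_lit 188449) (nat_lit 22) (.e (nat_lit 204544) (nat_lit 18) .nil))))))) (.g (nat_lit 6) .nil .nil))) 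
(.lf (nat_lit 97056) (.g (nat_lit 2137) (.e (nat_lit 2822) (nat_lit 182) (.e (nat_lit 409645) (nat_lit 18) (.e (nat_lit 303117) (nat_lit 2) (.e (nat_lit 196624) (nat_lit 9) (.e (nat_lit 1615) (nat_lit 113) (.e (nat_lit 376865) (nat_lit 22) (.e (nat_lit 90134) (nat_lit 9) .nil))))))) (.g (nat_lit 4) .nil .nil)))) (.nd (nat_lit 5) 
(.lf (nat_lit 97040) (.g (nat_lit 1282) (.e (nat_lit 2817) (nat_lit 181) (.e (nat_lit 311324) (nat_lit 9) (.e (nat_lit 426402) (nat_lit 15) (.e (nat_lit 1859) (nat_lit 124) (.e (nat_lit 557109) (nat_lit 15) (.e (nat_lit 188449) (nat_lit 22) (.e (nat_lit 204544) (nat_lit 18) .nil))))))) (.g (nat_lit 5) .nil .nil))) 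
(.lf (nat_lit 97072) (.g (nat_lit 4704) (.e (nat_lit 2824) (nat_lit 182) (.e (nat_lit 409641) (nat_lit 17) (.e (nat_lit 294931) (nat_lit 3) (.e (nat_lit 98350) (nat_lit 24) (.e (nat_lit 409649) (nat_lit 18) (.e (nat_lit 303111) (nat_lit 0) (.e (nat_lit 3271) (nat_lit 199) (.e (nat_lit 548898) (nat_lit 14) .nil)))))))) (.g (nat_lit 0) .nil .nil))))) (.nd (nat_lit 4) (.nd (nat_lit 5) 
(.lf (nat_lit 97032) (.g (nat_lit 1631) (.e (nat_lit 2817) (nat_lit 181) (.e (nat_lit 311312) (nat_lit 2) (.e (nat_lit 196666) (nat_lit 13) (.e (nat_lit 65619) (nat_lit 10) .nil)))) .nil)) 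
(.lf (nat_lit 97064) (.g (nat_lit 2276) (.e (nat_lit 2824) (nat_lit 182) (.e (nat_lit 409602) (nat_lit 0) (.e (nat_lit 5245) (nat_lit 298) (.e (nat_lit 1400) (nat_lit 106) (.e (nat_lit 319533) (nat_lit 16) .nil))))) .nil))) (.nd (nat_lit 5) 
(.lf (nat_lit 97048) (.g (nat_lit 3661) (.e (nat_lit 2819) (nat_lit 181) (.e (nat_lit 311325) (nat_lit 9) (.e (nat_lit 426402) (nat_lit 15) (.e (nat_lit 1848) (nat_lit 124) (.e (nat_lit 557108) (nat_lit 15) (.e (nat_lit 188449) (nat_lit 22) (.e (nat_lit 196683) (nat_lit 18) .nil))))))) (.g (nat_lit 6) .nil .nil))) 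
(.lf (nat_lit 97080) (.g (nat_lit 3693) (.e (nat_lit 2825) (nat_lit 182) (.e (nat_lit 409605) (nat_lit 0) (.e (nat_lit 5394) (nat_lit 301) (.e (nat_lit 57464) (nat_lit 23) (.e (nat_lit 516151) (nat_lit 9) (.e (nat_lit 426286) (nat_lit 10) (.e (nat_lit 434238) (nat_lit 25) (.e (nat_lit 548898) (nat_lit 14) .nil)))))))) (.g (nat_lit 0) .nil .nil)))))) 
(.nd (nat_lit 3) (.nd (nat_lit 4) (.nd (nat_lit 5) 
(.lf (nat_lit 97028) (.g (nat_lit 2190) (.e (nat_lit 2816) (nat_lit 181) (.e (nat_lit 311336) (nat_lit 12) (.e (nat_lit 475184) (nat_lit 29) (.e (nat_lit 557109) (nat_lit 15) (.e (nat_lit 188449) (nat_lit 22) (.e (nat_lit 204544) (nat_lit 18) .nil)))))) (.g (nat_lit 5) .nil .nil))) 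
(.lf (nat_lit 97060) (.g (nat_lit 2382) (.e (nat_lit 2822) (nat_lit 182) (.e (nat_lit 409646) (nat_lit 18) (.e (nat_lit 303117) (nat_lit 2) (.e (nat_lit 196624) (nat_lit 9) (.e (nat_lit 1615) (nat_lit 113) (.e (nat_lit 376865) (nat_lit 22) (.e (nat_lit 90134) (nat_lit 9) .nil))))))) (.g (nat_lit 4) .nil .nil)))) (.nd (nat_lit 5) 
(.lf (nat_lit 97044) (.g (nat_lit 1863) (.e (nat_lit 2817) (nat_lit 181) (.e (nat_lit 311336) (nat_lit 12) (.e (nat_lit 475184) (nat_lit 29) (.e (nat_lit 557109) (nat_lit 15) (.e (nat_lit 188449) (nat_lit 22) (.e (nat_lit 204544) (nat_lit 18) .nil)))))) (.g (nat_lit 4) .nil .nil))) 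
(.lf (nat_lit 97076) (.g (nat_lit 2389) (.e (nat_lit 2824) (nat_lit 182) (.e (nat_lit 409645) (nat_lit 18) (.e (nat_lit 303115) (nat_lit 1) (.e (nat_lit 164185) (nat_lit 155) (.e (nat_lit 122919) (nat_lit 15) (.e (nat_lit 360451) (nat_lit 0) (.e (nat_lit 6869) (nat_lit 371) (.e (nat_lit 2444) (nat_lit 157) .nil)))))))) (.g (nat_lit 5) .nil .nil))))) (.nd (nat_lit 4) (.nd (nat_lit 5) 
(.lf (nat_lit 97036) (.g (nat_lit 1190) (.e (nat_lit 2817) (nat_lit 181) (.e (nat_lit 311322) (nat_lit 9) (.e (nat_lit 426402) (nat_lit 15) (.e (nat_lit 1859) (nat_lit 124) (.e (nat_lit 557109) (nat_lit 15) (.e (nat_lit 188449) (nat_lit 22) (.e (nat_lit 204544) (nat_lit 18) .nil))))))) (.g (nat_lit 4) .nil .nil))) 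
(.lf (nat_lit 97068) (.g (nat_lit 2907) (.e (nat_lit 2824) (nat_lit 182) (.e (nat_lit 409602) (nat_lit 0) (.e (nat_lit 5293) (nat_lit 298) (.e (nat_lit 1397) (nat_lit 106) .nil)))) .nil))) (.nd (nat_lit 5) 
(.lf (nat_lit 97052) (.g (nat_lit 4533) (.e (nat_lit 2819) (nat_lit 181) (.e (nat_lit 311325) (nat_lit 9) (.e (nat_lit 426402) (nat_lit 15) (.e (nat_lit 1859) (nat_lit 124) (.e (nat_lit 557109) (nat_lit 15) (.e (nat_lit 188449) (nat_lit 22) (.e (nat_lit 196683) (nat_lit 18) .nil))))))) (.g (nat_lit 6) .nil .nil))) 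
(.lf (nat_lit 97084) (.g (nat_lit 2934) (.e (nat_lit 2826) (nat_lit 182) (.e (nat_lit 409602) (nat_lit 0) (.e (nat_lit 5293) (nat_lit 298) (.e (nat_lit 1656) (nat_lit 115) .nil)))) .nil)))))) (.nd (nat_lit 2) (.nd (nat_lit 3) (.nd (nat_lit 4) (.nd (nat_lit 5) 
(.lf (nat_lit 97026) (.g (nat_lit 2923) (.e (nat_lit 2816) (nat_lit 181) (.e (nat_lit 311325) (nat_lit 9) (.e (nat_lit 426402) (nat_lit 15) (.e (nat_lit 1849) (nat_lit 124) (.e (nat_lit 557108) (nat_lit 15) (.e (nat_lit 188449) (nat_lit 22) (.e (nat_lit 204544) (nat_lit 18) .nil))))))) (.g (nat_lit 6) .nil .nil))) 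
(.lf (nat_lit 97058) (.g (nat_lit 946) (.e (nat_lit 2822) (nat_lit 182) (.e (nat_lit 409646) (nat_lit 18) (.e (nat_lit 303112) (nat_lit 0) .nil))) .nil))) (.nd (nat_lit 5) 
(.lf (nat_lit 97042) (.g (nat_lit 1926) (.e (nat_lit 2817) (nat_lit 181) (.e (nat_lit 311325) (nat_lit 9) (.e (nat_lit 426402) (nat_lit 15) (.e (nat_lit 1849) (nat_lit 124) (.e (nat_lit 557108) (nat_lit 15) (.e (nat_lit 188449) (nat_lit 22) (.e (nat_lit 204544) (nat_lit 18) .nil))))))) (.g (nat_lit 5) .nil .nil))) 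
(.lf (nat_lit 97074) (.g (nat_lit 4500) (.e (nat_lit 2824) (nat_lit 182) (.e (nat_lit 409642) (nat_lit 17) (.e (nat_lit 294931) (nat_lit 3) (.e (nat_lit 98350) (nat_lit 24) (.e (nat_lit 409649) (nat_lit 18) (.e (nat_lit 303111) (nat_lit 0) (.e (nat_lit 3272) (nat_lit 199) (.e (nat_lit 548898) (nat_lit 14) .nil)))))))) (.g (nat_lit 8) .nil .nil))))) (.nd (nat_lit 4) (.nd (nat_lit 5) 
(.lf (nat_lit 97034) (.g (nat_lit 1694) (.e (nat_lit 2817) (nat_lit 181) (.e (nat_lit 311322) (nat_lit 9) (.e (nat_lit 426402) (nat_lit 15) (.e (nat_lit 1848) (nat_lit 124) (.e (nat_lit 557108) (nat_lit 15) (.e (nat_lit 188449) (nat_lit 22) (.e (nat_lit 204544) (nat_lit 18) .nil))))))) (.g (nat_lit 5) .nil .nil))) 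
(.lf (nat_lit 97066) (.g (nat_lit 2384) (.e (nat_lit 2824) (nat_lit 182) (.e (nat_lit 409602) (nat_lit 0) (.e (nat_lit 5270) (nat_lit 298) (.e (nat_lit 1400) (nat_lit 106) .nil)))) .nil))) (.nd (nat_lit 5) 
(.lf (nat_lit 97050) (.g (nat_lit 3463) (.e (nat_lit 2819) (nat_lit 181) (.e (nat_lit 311325) (nat_lit 9) (.e (nat_lit 426402) (nat_lit 15) (.e (nat_lit 1849) (nat_lit 124) (.e (nat_lit 557108) (nat_lit 15) (.e (nat_lit 188449) (nat_lit 22) (.e (nat_lit 196683) (nat_lit 18) .nil))))))) (.g (nat_lit 6) .nil .nil))) 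
(.lf (nat_lit 97082) (.g (nat_lit 1711) (.e (nat_lit 2825) (nat_lit 182) (.e (nat_lit 409645) (nat_lit 18) (.e (nat_lit 303117) (nat_lit 2) (.e (nat_lit 196624) (nat_lit 9) .nil)))) .nil))))) (.nd (nat_lit 3) (.nd (nat_lit 4) (.nd (nat_lit 5) 
(.lf (nat_lit 97030) (.g (nat_lit 2605) (.e (nat_lit 2816) (nat_lit 181) (.e (nat_lit 311339) (nat_lit 12) (.e (nat_lit 475184) (nat_lit 29) (.e (nat_lit 557109) (nat_lit 15) (.e (nat_lit 188449) (nat_lit 22) (.e (nat_lit 204544) (nat_lit 18) .nil)))))) (.g (nat_lit 5) .nil .nil))) 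
(.lf (nat_lit 97062) (.g (nat_lit 2319) (.e (nat_lit 2823) (nat_lit 182) (.e (nat_lit 409602) (nat_lit 0) (.e (nat_lit 5293) (nat_lit 298) (.e (nat_lit 1232) (nat_lit 91) .nil)))) .nil))) (.nd (nat_lit 5) 
(.lf (nat_lit 97046) (.g (nat_lit 2124) (.e (nat_lit 2817) (nat_lit 181) (.e (nat_lit 311339) (nat_lit 12) (.e (nat_lit 475183) (nat_lit 29) (.e (nat_lit 557108) (nat_lit 15) (.e (nat_lit 188449) (nat_lit 22) .nil))))) .nil)) 
(.lf (nat_lit 97078) (.g (nat_lit 2884) (.e (nat_lit 2825) (nat_lit 182) (.e (nat_lit 409605) (nat_lit 0) (.e (nat_lit 5245) (nat_lit 298) (.e (nat_lit 1400) (nat_lit 106) (.e (nat_lit 319534) (nat_lit 16) (.e (nat_lit 286756) (nat_lit 10) (.e (nat_lit 344157) (nat_lit 36) (.e (nat_lit 638986) (nat_lit 5) .nil)))))))) (.g (nat_lit 8) .nil .nil))))) (.nd (nat_lit 4) (.nd (nat_lit 5) 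
(.lf (nat_lit 97038) (.g (nat_lit 1719) (.e (nat_lit 2817) (nat_lit 181) (.e (nat_lit 311324) (nat_lit 9) (.e (nat_lit 426402) (nat_lit 15) (.e (nat_lit 1848) (nat_lit 124) (.e (nat_lit 557108) (nat_lit 15) (.e (nat_lit 188449) (nat_lit 22) (.e (nat_lit 204544) (nat_lit 18) .nil))))))) (.g (nat_lit 5) .nil .nil))) 
(.lf (nat_lit 97070) (.g (nat_lit 1265) (.e (nat_lit 2824) (nat_lit 182) (.e (nat_lit 417536) (nat_lit 6) (.e (nat_lit 286740) (nat_lit 7) (.e (nat_lit 319533) (nat_lit 16) (.e (nat_lit 286753) (nat_lit 10) (.e (nat_lit 344157) (nat_lit 36) (.e (nat_lit 638986) (nat_lit 5) .nil))))))) (.g (nat_lit 5) .nil .nil)))) (.nd (nat_lit 5) 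
(.lf (nat_lit 97054) (.g (nat_lit 2412) (.e (nat_lit 2821) (nat_lit 182) (.e (nat_lit 409645) (nat_lit 18) (.e (nat_lit 303117) (nat_lit 2) (.e (nat_lit 196624) (nat_lit 9) (.e (nat_lit 1615) (nat_lit 113) .nil))))) .nil)) 
(.lf (nat_lit 97086) (.g (nat_lit 1374) (.e (nat_lit 2826) (nat_lit 182) (.e (nat_lit 409639) (nat_lit 15) (.e (nat_lit 278567) (nat_lit 16) (.e (nat_lit 286721) (nat_lit 0) (.e (nat_lit 6218) (nat_lit 333) (.e (nat_lit 57819) (nat_lit 248) (.e (nat_lit 164359) (nat_lit 246) .nil))))))) (.g (nat_lit 0) .nil .nil)))))))) 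
(.nd (nat_lit 1) (.nd (nat_lit 2) (.nd (nat_lit 3) (.nd (nat_lit 4) (.nd (nat_lit 5) 
(.lf (nat_lit 97025) (.g (nat_lit 3145) (.e (nat_lit 2816) (nat_lit 181) (.e (nat_lit 311325) (nat_lit 9) (.e (nat_lit 426402) (nat_lit 15) (.e (nat_lit 1848) (nat_lit 124) (.e (nat_lit 557108) (nat_lit 15) (.e (nat_lit 188449) (nat_lit 22) (.e (nat_lit 204544) (nat_lit 18) .nil))))))) (.g (nat_lit 6) .nil .nil))) 
(.lf (nat_lit 97057) (.g (nat_lit 1411) (.e (nat_lit 2822) (nat_lit 182) (.e (nat_lit 409645) (nat_lit 18) (.e (nat_lit 303117) (nat_lit 2) (.e (nat_lit 196630) (nat_lit 9) .nil)))) .nil))) (.nd (nat_lit 5) 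
(.lf (nat_lit 97041) (.g (nat_lit 2147) (.e (nat_lit 2817) (nat_lit 181) (.e (nat_lit 311325) (nat_lit 9) (.e (nat_lit 426402) (nat_lit 15) (.e (nat_lit 1848) (nat_lit 124) (.e (nat_lit 557108) (nat_lit 15) (.e (nat_lit 188449) (nat_lit 22) (.e (nat_lit 204544) (nat_lit 18) .nil))))))) (.g (nat_lit 5) .nil .nil))) 
(.lf (nat_lit 97073) (.g (nat_lit 4944) (.e (nat_lit 2824) (nat_lit 182) (.e (nat_lit 409641) (nat_lit 17) (.e (nat_lit 294931) (nat_lit 3) (.e (nat_lit 98350) (nat_lit 24) (.e (nat_lit 409649) (nat_lit 18) (.e (nat_lit 303111) (nat_lit 0) (.e (nat_lit 3272) (nat_lit 199) (.e (nat_lit 548898) (nat_lit 14) .nil)))))))) (.g (nat_lit 8) .nil .nil))))) (.nd (nat_lit 4) (.nd (nat_lit 5) 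
(.lf (nat_lit 97033) (.g (nat_lit 1189) (.e (nat_lit 2817) (nat_lit 181) (.e (nat_lit 311312) (nat_lit 2) (.e (nat_lit 196674) (nat_lit 15) (.e (nat_lit 81952) (nat_lit 22) .nil)))) .nil)) 
(.lf (nat_lit 97065) (.g (nat_lit 2313) (.e (nat_lit 2824) (nat_lit 182) (.e (nat_lit 409602) (nat_lit 0) (.e (nat_lit 5245) (nat_lit 298) (.e (nat_lit 1400) (nat_lit 106) (.e (nat_lit 319534) (nat_lit 16) .nil))))) .nil))) (.nd (nat_lit 5) 
(.lf (nat_lit 97049) (.g (nat_lit 1711) (.e (nat_lit 2819) (nat_lit 181) (.e (nat_lit 311325) (nat_lit 9) (.e (nat_lit 426402) (nat_lit 15) (.e (nat_lit 1848) (nat_lit 124) (.e (nat_lit 557108) (nat_lit 15) (.e (nat_lit 188449) (nat_lit 22) (.e (nat_lit 204544) (nat_lit 18) .nil))))))) (.g (nat_lit 4) .nil .nil))) 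
(.lf (nat_lit 97081) (.g (nat_lit 1804) (.e (nat_lit 2825) (nat_lit 182) (.e (nat_lit 409645) (nat_lit 18) (.e (nat_lit 303115) (nat_lit 1) (.e (nat_lit 164185) (nat_lit 155) (.e (nat_lit 122919) (nat_lit 15) .nil))))) .nil))))) (.nd (nat_lit 3) (.nd (nat_lit 4) (.nd (nat_lit 5) 
(.lf (nat_lit 97029) (.g (nat_lit 2090) (.e (nat_lit 2816) (nat_lit 181) (.e (nat_lit 311338) (nat_lit 12) (.e (nat_lit 475184) (nat_lit 29) (.e (nat_lit 557109) (nat_lit 15) (.e (nat_lit 188449) (nat_lit 22) (.e (nat_lit 204544) (nat_lit 18) .nil)))))) (.g (nat_lit 4) .nil .nil))) 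
(.lf (nat_lit 97061) (.g (nat_lit 1408) (.e (nat_lit 2822) (nat_lit 182) (.e (nat_lit 409646) (nat_lit 18) (.e (nat_lit 303117) (nat_lit 2) (.e (nat_lit 204544) (nat_lit 15) .nil)))) .nil))) (.nd (nat_lit 5) 
(.lf (nat_lit 97045) (.g (nat_lit 1824) (.e (nat_lit 2817) (nat_lit 181) (.e (nat_lit 311337) (nat_lit 12) (.e (nat_lit 475184) (nat_lit 29) (.e (nat_lit 557109) (nat_lit 15) (.e (nat_lit 188449) (nat_lit 22) (.e (nat_lit 204544) (nat_lit 18) .nil)))))) (.g (nat_lit 4) .nil .nil))) 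
(.lf (nat_lit 97077) (.g (nat_lit 3010) (.e (nat_lit 2824) (nat_lit 182) (.e (nat_lit 409645) (nat_lit 18) (.e (nat_lit 303115) (nat_lit 1) (.e (nat_lit 164185) (nat_lit 155) (.e (nat_lit 122919) (nat_lit 15) (.e (nat_lit 360487) (nat_lit 19) (.e (nat_lit 753674) (nat_lit 5) .nil))))))) (.g (nat_lit 6) .nil .nil))))) (.nd (nat_lit 4) (.nd (nat_lit 5) 
(.lf (nat_lit 97037) (.g (nat_lit 781) (.e (nat_lit 2817) (nat_lit 181) (.e (nat_lit 311323) (nat_lit 9) (.e (nat_lit 426402) (nat_lit 15) (.e (nat_lit 1859) (nat_lit 124) (.e (nat_lit 557109) (nat_lit 15) (.e (nat_lit 188449) (nat_lit 22) (.e (nat_lit 204544) (nat_lit 18) .nil))))))) (.g (nat_lit 4) .nil .nil))) 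
(.lf (nat_lit 97069) (.g (nat_lit 4207) (.e (nat_lit 2824) (nat_lit 182) (.e (nat_lit 409602) (nat_lit 0) (.e (nat_lit 5293) (nat_lit 298) (.e (nat_lit 1397) (nat_lit 106) (.e (nat_lit 319534) (nat_lit 16) (.e (nat_lit 286756) (nat_lit 10) (.e (nat_lit 344157) (nat_lit 36) (.e (nat_lit 638986) (nat_lit 5) .nil)))))))) (.g (nat_lit 5) .nil .nil)))) (.nd (nat_lit 5) 
(.lf (nat_lit 97053) (.g (nat_lit 1632) (.e (nat_lit 2820) (nat_lit 181) (.e (nat_lit 311339) (nat_lit 12) (.e (nat_lit 475184) (nat_lit 29) (.e (nat_lit 557109) (nat_lit 15) (.e (nat_lit 188449) (nat_lit 22) .nil))))) .nil)) 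
(.lf (nat_lit 97085) (.g (nat_lit 1325) (.e (nat_lit 2826) (nat_lit 182) (.e (nat_lit 409636) (nat_lit 14) (.e (nat_lit 270373) (nat_lit 16) (.e (nat_lit 286721) (nat_lit 0) (.e (nat_lit 6218) (nat_lit 333) (.e (nat_lit 57819) (nat_lit 248) (.e (nat_lit 164359) (nat_lit 246) .nil))))))) (.g (nat_lit 0) .nil .nil))))))) (.nd (nat_lit 2) (.nd (nat_lit 3) (.nd (nat_lit 4) (.nd (nat_lit 5) 
(.lf (nat_lit 97027) (.g (nat_lit 2646) (.e (nat_lit 2816) (nat_lit 181) (.e (nat_lit 311325) (nat_lit 9) (.e (nat_lit 426402) (nat_lit 15) (.e (nat_lit 1859) (nat_lit 124) (.e (nat_lit 557109) (nat_lit 15) (.e (nat_lit 188449) (nat_lit 22) (.e (nat_lit 204544) (nat_lit 18) .nil))))))) (.g (nat_lit 6) .nil .nil))) 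
(.lf (nat_lit 97059) (.g (nat_lit 1858) (.e (nat_lit 2822) (nat_lit 182) (.e (nat_lit 409646) (nat_lit 18) (.e (nat_lit 303117) (nat_lit 2) (.e (nat_lit 196624) (nat_lit 9) .nil)))) .nil))) (.nd (nat_lit 5) 
(.lf (nat_lit 97043) (.g (nat_lit 1648) (.e (nat_lit 2817) (nat_lit 181) (.e (nat_lit 311325) (nat_lit 9) (.e (nat_lit 426402) (nat_lit 15) (.e (nat_lit 1859) (nat_lit 124) (.e (nat_lit 557109) (nat_lit 15) (.e (nat_lit 188449) (nat_lit 22) (.e (nat_lit 204544) (nat_lit 18) .nil))))))) (.g (nat_lit 4) .nil .nil))) 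
(.lf (nat_lit 97075) (.g (nat_lit 1466) (.e (nat_lit 2824) (nat_lit 182) (.e (nat_lit 409645) (nat_lit 18) (.e (nat_lit 303115) (nat_lit 1) (.e (nat_lit 164185) (nat_lit 155) .nil)))) .nil)))) (.nd (nat_lit 4) (.nd (nat_lit 5) 
(.lf (nat_lit 97035) (.g (nat_lit 1434) (.e (nat_lit 2817) (nat_lit 181) (.e (nat_lit 311322) (nat_lit 9) (.e (nat_lit 426402) (nat_lit 15) (.e (nat_lit 1849) (nat_lit 124) (.e (nat_lit 557108) (nat_lit 15) (.e (nat_lit 188449) (nat_lit 22) (.e (nat_lit 204544) (nat_lit 18) .nil))))))) (.g (nat_lit 5) .nil .nil))) 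
(.lf (nat_lit 97067) (.g (nat_lit 3584) (.e (nat_lit 2824) (nat_lit 182) (.e (nat_lit 409602) (nat_lit 0) (.e (nat_lit 5293) (nat_lit 298) (.e (nat_lit 1393) (nat_lit 106) .nil)))) .nil))) (.nd (nat_lit 5) 
(.lf (nat_lit 97051) (.g (nat_lit 1490) (.e (nat_lit 2819) (nat_lit 181) (.e (nat_lit 311325) (nat_lit 9) (.e (nat_lit 426402) (nat_lit 15) (.e (nat_lit 1849) (nat_lit 124) (.e (nat_lit 557108) (nat_lit 15) (.e (nat_lit 188449) (nat_lit 22) (.e (nat_lit 204544) (nat_lit 18) .nil))))))) (.g (nat_lit 4) .nil .nil))) 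
(.lf (nat_lit 97083) (.g (nat_lit 2209) (.e (nat_lit 2825) (nat_lit 182) (.e (nat_lit 409645) (nat_lit 18) (.e (nat_lit 303117) (nat_lit 2) (.e (nat_lit 196624) (nat_lit 9) (.e (nat_lit 1615) (nat_lit 113) (.e (nat_lit 376865) (nat_lit 22) (.e (nat_lit 90130) (nat_lit 9) .nil))))))) (.g (nat_lit 4) .nil .nil)))))) (.nd (nat_lit 3) (.nd (nat_lit 4) (.nd (nat_lit 5) 
(.lf (nat_lit 97031) (.g (nat_lit 1417) (.e (nat_lit 2817) (nat_lit 181) (.e (nat_lit 311311) (nat_lit 2) (.e (nat_lit 196666) (nat_lit 13) (.e (nat_lit 65619) (nat_lit 10) .nil)))) .nil)) 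
(.lf (nat_lit 97063) (.g (nat_lit 2346) (.e (nat_lit 2823) (nat_lit 182) (.e (nat_lit 409646) (nat_lit 18) (.e (nat_lit 303117) (nat_lit 2) (.e (nat_lit 196624) (nat_lit 9) .nil)))) .nil))) (.nd (nat_lit 5) 
(.lf (nat_lit 97047) (.g (nat_lit 2007) (.e (nat_lit 2817) (nat_lit 181) (.e (nat_lit 311339) (nat_lit 12) (.e (nat_lit 475184) (nat_lit 29) (.e (nat_lit 557109) (nat_lit 15) (.e (nat_lit 188449) (nat_lit 22) (.e (nat_lit 204544) (nat_lit 18) .nil)))))) (.g (nat_lit 4) .nil .nil))) 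
(.lf (nat_lit 97079) (.g (nat_lit 3421) (.e (nat_lit 2825) (nat_lit 182) (.e (nat_lit 409605) (nat_lit 0) (.e (nat_lit 5270) (nat_lit 298) (.e (nat_lit 1400) (nat_lit 106) (.e (nat_lit 319533) (nat_lit 16) (.e (nat_lit 286753) (nat_lit 10) (.e (nat_lit 344157) (nat_lit 36) (.e (nat_lit 638986) (nat_lit 5) .nil)))))))) (.g (nat_lit 0) .nil .nil))))) (.nd (nat_lit 4) (.nd (nat_lit 5) 
(.lf (nat_lit 97039) (.g (nat_lit 1518) (.e (nat_lit 2817) (nat_lit 181) (.e (nat_lit 311324) (nat_lit 9) (.e (nat_lit 426402) (nat_lit 15) (.e (nat_lit 1849) (nat_lit 124) (.e (nat_lit 557108) (nat_lit 15) (.e (nat_lit 188449) (nat_lit 22) (.e (nat_lit 204544) (nat_lit 18) .nil))))))) (.g (nat_lit 5) .nil .nil))) 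
(.lf (nat_lit 97071) (.g (nat_lit 4016) (.e (nat_lit 2824) (nat_lit 182) (.e (nat_lit 409640) (nat_lit 17) (.e (nat_lit 294931) (nat_lit 3) (.e (nat_lit 98350) (nat_lit 24) (.e (nat_lit 409649) (nat_lit 18) (.e (nat_lit 303111) (nat_lit 0) (.e (nat_lit 3271) (nat_lit 199) (.e (nat_lit 548898) (nat_lit 14) .nil)))))))) (.g (nat_lit 8) .nil .nil)))) (.nd (nat_lit 5) 
(.lf (nat_lit 97055) (.g (nat_lit 2587) (.e (nat_lit 2821) (nat_lit 182) (.e (nat_lit 409646) (nat_lit 18) (.e (nat_lit 303117) (nat_lit 2) (.e (nat_lit 196624) (nat_lit 9) .nil)))) .nil)) 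
(.lf (nat_lit 97087) (.g (nat_lit 802) (.e (nat_lit 2826) (nat_lit 182) (.e (nat_lit 409646) (nat_lit 18) (.e (nat_lit 311040) (nat_lit 18) .nil))) .nil))))))))

noncomputable def tv1330 : DT := (.nd (nat_lit 0) (.nd (nat_lit 1) (.nd (nat_lit 2) (.nd (nat_lit 3) (.nd (nat_lit 4) (.nd (nat_lit 5) 
(.lf (nat_lit 97088) (.g (nat_lit 2564) (.e (nat_lit 2827) (nat_lit 182) (.e (nat_lit 409602) (nat_lit 0) (.e (nat_lit 5293) (nat_lit 298) (.e (nat_lit 1232) (nat_lit 91) (.e (nat_lit 90170) (nat_lit 13) .nil))))) .nil)) 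
(.lf (nat_lit 97120) (.g (nat_lit 684) (.e (nat_lit 2828) (nat_lit 182) (.e (nat_lit 409646) (nat_lit 18) (.e (nat_lit 303154) (nat_lit 28) .nil))) .nil))) (.nd (nat_lit 5) 
(.lf (nat_lit 97104) (.g (nat_lit 1717) (.e (nat_lit 2828) (nat_lit 182) (.e (nat_lit 417536) (nat_lit 7) (.e (nat_lit 294935) (nat_lit 7) (.e (nat_lit 319533) (nat_lit 16) (.e (nat_lit 286753) (nat_lit 10) (.e (nat_lit 344157) (nat_lit 36) (.e (nat_lit 638986) (nat_lit 5) .nil))))))) (.g (nat_lit 5) .nil .nil))) 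
(.lf (nat_lit 97136) (.g (nat_lit 1669) (.e (nat_lit 2830) (nat_lit 182) (.e (nat_lit 409643) (nat_lit 18) (.e (nat_lit 303117) (nat_lit 2) (.e (nat_lit 196624) (nat_lit 9) (.e (nat_lit 1615) (nat_lit 113) (.e (nat_lit 376863) (nat_lit 22) (.e (nat_lit 90130) (nat_lit 9) .nil))))))) (.g (nat_lit 4) .nil .nil))))) (.nd (nat_lit 4) (.nd (nat_lit 5) 
(.lf (nat_lit 97096) (.g (nat_lit 2907) (.e (nat_lit 2828) (nat_lit 182) (.e (nat_lit 409602) (nat_lit 0) (.e (nat_lit 5293) (nat_lit 298) (.e (nat_lit 1397) (nat_lit 106) .nil)))) .nil)) 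
(.lf (nat_lit 97128) (.g (nat_lit 1363) (.e (nat_lit 2829) (nat_lit 182) (.e (nat_lit 409649) (nat_lit 18) (.e (nat_lit 303117) (nat_lit 2) (.e (nat_lit 196627) (nat_lit 9) .nil)))) .nil))) (.nd (nat_lit 5) 
(.lf (nat_lit 97112) (.g (nat_lit 4510) (.e (nat_lit 2828) (nat_lit 182) (.e (nat_lit 409642) (nat_lit 17) (.e (nat_lit 294931) (nat_lit 3) (.e (nat_lit 98350) (nat_lit 24) (.e (nat_lit 409649) (nat_lit 18) (.e (nat_lit 303111) (nat_lit 0) (.e (nat_lit 3272) (nat_lit 199) (.e (nat_lit 548897) (nat_lit 14) .nil)))))))) (.g (nat_lit 8) .nil .nil))) 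
(.lf (nat_lit 97144) (.g (nat_lit 3253) (.e (nat_lit 2830) (nat_lit 182) (.e (nat_lit 409648) (nat_lit 18) (.e (nat_lit 303116) (nat_lit 2) (.e (nat_lit 196624) (nat_lit 9) (.e (nat_lit 1615) (nat_lit 113) (.e (nat_lit 376863) (nat_lit 22) (.e (nat_lit 90130) (nat_lit 9) .nil))))))) (.g (nat_lit 4) .nil .nil)))))) (.nd (nat_lit 3) (.nd (nat_lit 4) (.nd (nat_lit 5) 
(.lf (nat_lit 97092) (.g (nat_lit 2384) (.e (nat_lit 2828) (nat_lit 182) (.e (nat_lit 409602) (nat_lit 0) (.e (nat_lit 5270) (nat_lit 298) (.e (nat_lit 1400) (nat_lit 106) .nil)))) .nil)) 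
(.lf (nat_lit 97124) (.g (nat_lit 3927) (.e (nat_lit 2829) (nat_lit 182) (.e (nat_lit 409602) (nat_lit 0) (.e (nat_lit 5293) (nat_lit 298) (.e (nat_lit 1397) (nat_lit 106) (.e (nat_lit 319534) (nat_lit 16) (.e (nat_lit 286756) (nat_lit 10) (.e (nat_lit 344154) (nat_lit 35) (.e (nat_lit 630793) (nat_lit 5) .nil)))))))) (.g (nat_lit 5) .nil .nil)))) (.nd (nat_lit 5) 
(.lf (nat_lit 97108) (.g (nat_lit 4520) (.e (nat_lit 2828) (nat_lit 182) (.e (nat_lit 409640) (nat_lit 17) (.e (nat_lit 294931) (nat_lit 3) (.e (nat_lit 98350) (nat_lit 24) (.e (nat_lit 409649) (nat_lit 18) (.e (nat_lit 303111) (nat_lit 0) (.e (nat_lit 3272) (nat_lit 199) (.e (nat_lit 548897) (nat_lit 14) .nil)))))))) (.g (nat_lit 8) .nil .nil))) 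
(.lf (nat_lit 97140) (.g (nat_lit 3295) (.e (nat_lit 2830) (nat_lit 182) (.e (nat_lit 409646) (nat_lit 18) (.e (nat_lit 303117) (nat_lit 2) (.e (nat_lit 196624) (nat_lit 9) (.e (nat_lit 1615) (nat_lit 113) (.e (nat_lit 376863) (nat_lit 22) (.e (nat_lit 90130) (nat_lit 9) .nil))))))) (.g (nat_lit 5) .nil .nil))))) (.nd (nat_lit 4) (.nd (nat_lit 5) 
(.lf (nat_lit 97100) (.g (nat_lit 2014) (.e (nat_lit 2828) (nat_lit 182) (.e (nat_lit 409603) (nat_lit 0) (.e (nat_lit 5293) (nat_lit 298) (.e (nat_lit 1397) (nat_lit 106) (.e (nat_lit 319533) (nat_lit 16) (.e (nat_lit 286753) (nat_lit 10) (.e (nat_lit 344157) (nat_lit 36) (.e (nat_lit 638986) (nat_lit 5) .nil)))))))) (.g (nat_lit 5) .nil .nil))) 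
(.lf (nat_lit 97132) (.g (nat_lit 2321) (.e (nat_lit 2830) (nat_lit 182) (.e (nat_lit 409602) (nat_lit 0) (.e (nat_lit 5293) (nat_lit 298) (.e (nat_lit 1232) (nat_lit 91) .nil)))) .nil))) (.nd (nat_lit 5) 
(.lf (nat_lit 97116) (.g (nat_lit 2085) (.e (nat_lit 2828) (nat_lit 182) (.e (nat_lit 409646) (nat_lit 18) (.e (nat_lit 303117) (nat_lit 2) (.e (nat_lit 196624) (nat_lit 9) (.e (nat_lit 1615) (nat_lit 113) .nil))))) .nil)) 
(.lf (nat_lit 97148) (.g (nat_lit 3591) (.e (nat_lit 2830) (nat_lit 182) (.e (nat_lit 409648) (nat_lit 18) (.e (nat_lit 303117) (nat_lit 2) (.e (nat_lit 204544) (nat_lit 15) (.e (nat_lit 81953) (nat_lit 22) (.e (nat_lit 90130) (nat_lit 9) .nil)))))) (.g (nat_lit 5) .nil .nil))))))) (.nd (nat_lit 2) (.nd (nat_lit 3) (.nd (nat_lit 4) (.nd (nat_lit 5) 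
(.lf (nat_lit 97090) (.g (nat_lit 2684) (.e (nat_lit 2828) (nat_lit 182) (.e (nat_lit 409602) (nat_lit 0) (.e (nat_lit 5245) (nat_lit 298) (.e (nat_lit 1400) (nat_lit 106) (.e (nat_lit 319533) (nat_lit 16) (.e (nat_lit 286753) (nat_lit 10) (.e (nat_lit 344157) (nat_lit 36) (.e (nat_lit 638985) (nat_lit 5) .nil)))))))) (.g (nat_lit 4) .nil .nil))) 
(.lf (nat_lit 97122) (.g (nat_lit 2385) (.e (nat_lit 2829) (nat_lit 182) (.e (nat_lit 409602) (nat_lit 0) (.e (nat_lit 5270) (nat_lit 298) (.e (nat_lit 1400) (nat_lit 106) .nil)))) .nil))) (.nd (nat_lit 5) 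
(.lf (nat_lit 97106) (.g (nat_lit 5133) (.e (nat_lit 2828) (nat_lit 182) (.e (nat_lit 409640) (nat_lit 17) (.e (nat_lit 294931) (nat_lit 3) (.e (nat_lit 98350) (nat_lit 24) (.e (nat_lit 409648) (nat_lit 18) (.e (nat_lit 303108) (nat_lit 0) (.e (nat_lit 3272) (nat_lit 199) (.e (nat_lit 548898) (nat_lit 14) .nil)))))))) (.g (nat_lit 0) .nil .nil))) 
(.lf (nat_lit 97138) (.g (nat_lit 3341) (.e (nat_lit 2830) (nat_lit 182) (.e (nat_lit 409645) (nat_lit 18) (.e (nat_lit 303117) (nat_lit 2) (.e (nat_lit 196624) (nat_lit 9) (.e (nat_lit 1615) (nat_lit 113) (.e (nat_lit 376863) (nat_lit 22) (.e (nat_lit 90130) (nat_lit 9) .nil))))))) (.g (nat_lit 5) .nil .nil))))) (.nd (nat_lit 4) (.nd (nat_lit 5) 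
(.lf (nat_lit 97098) (.g (nat_lit 2980) (.e (nat_lit 2828) (nat_lit 182) (.e (nat_lit 409602) (nat_lit 0) (.e (nat_lit 5293) (nat_lit 298) (.e (nat_lit 1656) (nat_lit 115) .nil)))) .nil)) 
(.lf (nat_lit 97130) (.g (nat_lit 1285) (.e (nat_lit 2829) (nat_lit 182) (.e (nat_lit 409649) (nat_lit 18) (.e (nat_lit 303117) (nat_lit 2) (.e (nat_lit 196671) (nat_lit 15) .nil)))) .nil))) (.nd (nat_lit 5) 
(.lf (nat_lit 97114) (.g (nat_lit 3733) (.e (nat_lit 2828) (nat_lit 182) (.e (nat_lit 409646) (nat_lit 18) (.e (nat_lit 303115) (nat_lit 1) (.e (nat_lit 164185) (nat_lit 155) (.e (nat_lit 122919) (nat_lit 15) (.e (nat_lit 360451) (nat_lit 0) (.e (nat_lit 6869) (nat_lit 371) (.e (nat_lit 2445) (nat_lit 157) .nil)))))))) (.g (nat_lit 6) .nil .nil))) 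
(.lf (nat_lit 97146) (.g (nat_lit 2748) (.e (nat_lit 2830) (nat_lit 182) (.e (nat_lit 409648) (nat_lit 18) (.e (nat_lit 303117) (nat_lit 2) (.e (nat_lit 196624) (nat_lit 9) (.e (nat_lit 1615) (nat_lit 113) (.e (nat_lit 376865) (nat_lit 22) (.e (nat_lit 90130) (nat_lit 9) .nil))))))) (.g (nat_lit 4) .nil .nil)))))) (.nd (nat_lit 3) (.nd (nat_lit 4) (.nd (nat_lit 5) 
(.lf (nat_lit 97094) (.g (nat_lit 629) (.e (nat_lit 2828) (nat_lit 182) (.e (nat_lit 409602) (nat_lit 0) (.e (nat_lit 5293) (nat_lit 298) .nil))) .nil)) 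
(.lf (nat_lit 97126) (.g (nat_lit 1729) (.e (nat_lit 2829) (nat_lit 182) (.e (nat_lit 409645) (nat_lit 18) (.e (nat_lit 303112) (nat_lit 0) (.e (nat_lit 3144) (nat_lit 193) .nil)))) .nil))) (.nd (nat_lit 5) 
(.lf (nat_lit 97110) (.g (nat_lit 2926) (.e (nat_lit 2828) (nat_lit 182) (.e (nat_lit 409642) (nat_lit 17) (.e (nat_lit 294925) (nat_lit 1) (.e (nat_lit 57681) (nat_lit 155) (.e (nat_lit 122919) (nat_lit 15) (.e (nat_lit 360487) (nat_lit 19) (.e (nat_lit 753673) (nat_lit 5) .nil))))))) (.g (nat_lit 6) .nil .nil))) 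
(.lf (nat_lit 97142) (.g (nat_lit 1922) (.e (nat_lit 2830) (nat_lit 182) (.e (nat_lit 409646) (nat_lit 18) (.e (nat_lit 303117) (nat_lit 2) (.e (nat_lit 204544) (nat_lit 15) .nil)))) .nil)))) (.nd (nat_lit 4) (.nd (nat_lit 5) 
(.lf (nat_lit 97102) (.g (nat_lit 3060) (.e (nat_lit 2828) (nat_lit 182) (.e (nat_lit 409604) (nat_lit 0) (.e (nat_lit 5270) (nat_lit 298) (.e (nat_lit 1400) (nat_lit 106) (.e (nat_lit 319533) (nat_lit 16) (.e (nat_lit 286753) (nat_lit 10) (.e (nat_lit 344157) (nat_lit 36) (.e (nat_lit 638985) (nat_lit 5) .nil)))))))) (.g (nat_lit 5) .nil .nil))) 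
(.lf (nat_lit 97134) (.g (nat_lit 1292) (.e (nat_lit 2830) (nat_lit 182) (.e (nat_lit 409617) (nat_lit 10) (.e (nat_lit 5756) (nat_lit 315) (.e (nat_lit 163950) (nat_lit 21) (.e (nat_lit 507648) (nat_lit 20) (.e (nat_lit 81953) (nat_lit 22) (.e (nat_lit 90130) (nat_lit 9) .nil))))))) (.g (nat_lit 4) .nil .nil)))) (.nd (nat_lit 5) 
(.lf (nat_lit 97118) (.g (nat_lit 726) (.e (nat_lit 2828) (nat_lit 182) (.e (nat_lit 409646) (nat_lit 18) (.e (nat_lit 303151) (nat_lit 27) .nil))) .nil)) 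
(.lf (nat_lit 97150) (.g (nat_lit 1595) (.e (nat_lit 2830) (nat_lit 182) (.e (nat_lit 409648) (nat_lit 18) (.e (nat_lit 303118) (nat_lit 3) (.e (nat_lit 212736) (nat_lit 31) .nil)))) .nil))))))) (.nd (nat_lit 1) (.nd (nat_lit 2) (.nd (nat_lit 3) (.nd (nat_lit 4) (.nd (nat_lit 5) 
(.lf (nat_lit 97089) (.g (nat_lit 2907) (.e (nat_lit 2827) (nat_lit 182) (.e (nat_lit 409602) (nat_lit 0) (.e (nat_lit 5293) (nat_lit 298) (.e (nat_lit 1397) (nat_lit 106) .nil)))) .nil)) 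
(.lf (nat_lit 97121) (.g (nat_lit 2313) (.e (nat_lit 2829) (nat_lit 182) (.e (nat_lit 409602) (nat_lit 0) (.e (nat_lit 5245) (nat_lit 298) (.e (nat_lit 1400) (nat_lit 106) (.e (nat_lit 319534) (nat_lit 16) .nil))))) .nil))) (.nd (nat_lit 5) 
(.lf (nat_lit 97105) (.g (nat_lit 4875) (.e (nat_lit 2828) (nat_lit 182) (.e (nat_lit 409640) (nat_lit 17) (.e (nat_lit 294931) (nat_lit 3) (.e (nat_lit 98350) (nat_lit 24) (.e (nat_lit 409648) (nat_lit 18) (.e (nat_lit 303108) (nat_lit 0) (.e (nat_lit 3272) (nat_lit 199) (.e (nat_lit 548897) (nat_lit 14) .nil)))))))) (.g (nat_lit 0) .nil .nil))) 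
(.lf (nat_lit 97137) (.g (nat_lit 1309) (.e (nat_lit 2830) (nat_lit 182) (.e (nat_lit 409644) (nat_lit 18) (.e (nat_lit 303117) (nat_lit 2) (.e (nat_lit 196624) (nat_lit 9) .nil)))) .nil)))) (.nd (nat_lit 4) (.nd (nat_lit 5) 
(.lf (nat_lit 97097) (.g (nat_lit 4319) (.e (nat_lit 2828) (nat_lit 182) (.e (nat_lit 409602) (nat_lit 0) (.e (nat_lit 5293) (nat_lit 298) (.e (nat_lit 1397) (nat_lit 106) (.e (nat_lit 319534) (nat_lit 16) (.e (nat_lit 286756) (nat_lit 10) (.e (nat_lit 344157) (nat_lit 36) (.e (nat_lit 638986) (nat_lit 5) .nil)))))))) (.g (nat_lit 5) .nil .nil))) 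
(.lf (nat_lit 97129) (.g (nat_lit 1529) (.e (nat_lit 2829) (nat_lit 182) (.e (nat_lit 409649) (nat_lit 18) (.e (nat_lit 303117) (nat_lit 2) (.e (nat_lit 196630) (nat_lit 9) .nil)))) .nil))) (.nd (nat_lit 5) 
(.lf (nat_lit 97113) (.g (nat_lit 1676) (.e (nat_lit 2828) (nat_lit 182) (.e (nat_lit 409646) (nat_lit 18) (.e (nat_lit 303115) (nat_lit 1) (.e (nat_lit 164185) (nat_lit 155) (.e (nat_lit 122919) (nat_lit 15) .nil))))) .nil)) 
(.lf (nat_lit 97145) (.g (nat_lit 3996) (.e (nat_lit 2830) (nat_lit 182) (.e (nat_lit 409648) (nat_lit 18) (.e (nat_lit 303116) (nat_lit 2) (.e (nat_lit 204544) (nat_lit 15) (.e (nat_lit 81953) (nat_lit 22) (.e (nat_lit 90130) (nat_lit 9) .nil)))))) (.g (nat_lit 5) .nil .nil)))))) (.nd (nat_lit 3) (.nd (nat_lit 4) (.nd (nat_lit 5) 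
(.lf (nat_lit 97093) (.g (nat_lit 2870) (.e (nat_lit 2828) (nat_lit 182) (.e (nat_lit 409602) (nat_lit 0) (.e (nat_lit 5270) (nat_lit 298) (.e (nat_lit 1400) (nat_lit 106) (.e (nat_lit 319534) (nat_lit 16) .nil))))) .nil)) 
(.lf (nat_lit 97125) (.g (nat_lit 3499) (.e (nat_lit 2829) (nat_lit 182) (.e (nat_lit 409602) (nat_lit 0) (.e (nat_lit 5394) (nat_lit 301) (.e (nat_lit 57464) (nat_lit 23) (.e (nat_lit 516151) (nat_lit 9) (.e (nat_lit 426170) (nat_lit 7) (.e (nat_lit 409631) (nat_lit 12) (.e (nat_lit 32799) (nat_lit 14) .nil)))))))) (.g (nat_lit 5) .nil .nil)))) (.nd (nat_lit 5) 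
(.lf (nat_lit 97109) (.g (nat_lit 4222) (.e (nat_lit 2828) (nat_lit 182) (.e (nat_lit 409641) (nat_lit 17) (.e (nat_lit 294931) (nat_lit 3) (.e (nat_lit 98350) (nat_lit 24) (.e (nat_lit 409649) (nat_lit 18) (.e (nat_lit 303111) (nat_lit 0) (.e (nat_lit 3272) (nat_lit 199) (.e (nat_lit 548897) (nat_lit 14) .nil)))))))) (.g (nat_lit 7) .nil .nil))) 
(.lf (nat_lit 97141) (.g (nat_lit 3058) (.e (nat_lit 2830) (nat_lit 182) (.e (nat_lit 409646) (nat_lit 18) (.e (nat_lit 303117) (nat_lit 2) (.e (nat_lit 196630) (nat_lit 9) (.e (nat_lit 1573) (nat_lit 110) (.e (nat_lit 352311) (nat_lit 22) (.e (nat_lit 90130) (nat_lit 9) .nil))))))) (.g (nat_lit 4) .nil .nil))))) (.nd (nat_lit 4) (.nd (nat_lit 5) 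
(.lf (nat_lit 97101) (.g (nat_lit 3138) (.e (nat_lit 2828) (nat_lit 182) (.e (nat_lit 409603) (nat_lit 0) (.e (nat_lit 5293) (nat_lit 298) (.e (nat_lit 1656) (nat_lit 115) .nil)))) .nil)) 
(.lf (nat_lit 97133) (.g (nat_lit 1728) (.e (nat_lit 2830) (nat_lit 182) (.e (nat_lit 409617) (nat_lit 10) (.e (nat_lit 5355) (nat_lit 298) (.e (nat_lit 1235) (nat_lit 91) (.e (nat_lit 90165) (nat_lit 12) .nil))))) .nil))) (.nd (nat_lit 5) 
(.lf (nat_lit 97117) (.g (nat_lit 1526) (.e (nat_lit 2828) (nat_lit 182) (.e (nat_lit 409646) (nat_lit 18) (.e (nat_lit 303117) (nat_lit 2) (.e (nat_lit 196662) (nat_lit 13) .nil)))) .nil)) 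
(.lf (nat_lit 97149) (.g (nat_lit 1606) (.e (nat_lit 2830) (nat_lit 182) (.e (nat_lit 409648) (nat_lit 18) (.e (nat_lit 303118) (nat_lit 3) (.e (nat_lit 204875) (nat_lit 31) .nil)))) .nil)))))) (.nd (nat_lit 2) (.nd (nat_lit 3) (.nd (nat_lit 4) (.nd (nat_lit 5) 
(.lf (nat_lit 97091) (.g (nat_lit 1879) (.e (nat_lit 2828) (nat_lit 182) (.e (nat_lit 409602) (nat_lit 0) (.e (nat_lit 5270) (nat_lit 298) (.e (nat_lit 1256) (nat_lit 92) .nil)))) .nil)) 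
(.lf (nat_lit 97123) (.g (nat_lit 3127) (.e (nat_lit 2829) (nat_lit 182) (.e (nat_lit 409602) (nat_lit 0) (.e (nat_lit 5293) (nat_lit 298) (.e (nat_lit 1393) (nat_lit 106) .nil)))) .nil))) (.nd (nat_lit 5) 
(.lf (nat_lit 97107) (.g (nat_lit 4548) (.e (nat_lit 2828) (nat_lit 182) (.e (nat_lit 409640) (nat_lit 17) (.e (nat_lit 294931) (nat_lit 3) (.e (nat_lit 98350) (nat_lit 24) (.e (nat_lit 409649) (nat_lit 18) (.e (nat_lit 303111) (nat_lit 0) (.e (nat_lit 3271) (nat_lit 199) (.e (nat_lit 548898) (nat_lit 14) .nil)))))))) (.g (nat_lit 8) .nil .nil))) 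
(.lf (nat_lit 97139) (.g (nat_lit 2004) (.e (nat_lit 2830) (nat_lit 182) (.e (nat_lit 409645) (nat_lit 18) (.e (nat_lit 303119) (nat_lit 3) (.e (nat_lit 204877) (nat_lit 31) .nil)))) .nil)))) (.nd (nat_lit 4) (.nd (nat_lit 5) 
(.lf (nat_lit 97099) (.g (nat_lit 1861) (.e (nat_lit 2828) (nat_lit 182) (.e (nat_lit 409603) (nat_lit 0) (.e (nat_lit 5293) (nat_lit 298) (.e (nat_lit 1393) (nat_lit 106) .nil)))) .nil)) 
(.lf (nat_lit 97131) (.g (nat_lit 879) (.e (nat_lit 2829) (nat_lit 182) (.e (nat_lit 409649) (nat_lit 18) (.e (nat_lit 303121) (nat_lit 5) .nil))) .nil))) (.nd (nat_lit 5) 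
(.lf (nat_lit 97115) (.g (nat_lit 3850) (.e (nat_lit 2828) (nat_lit 182) (.e (nat_lit 409646) (nat_lit 18) (.e (nat_lit 303115) (nat_lit 1) (.e (nat_lit 164185) (nat_lit 155) (.e (nat_lit 122919) (nat_lit 15) (.e (nat_lit 360487) (nat_lit 19) (.e (nat_lit 753673) (nat_lit 5) .nil))))))) (.g (nat_lit 0) .nil .nil))) 
(.lf (nat_lit 97147) (.g (nat_lit 4466) (.e (nat_lit 2830) (nat_lit 182) (.e (nat_lit 409648) (nat_lit 18) (.e (nat_lit 303117) (nat_lit 2) (.e (nat_lit 196630) (nat_lit 9) (.e (nat_lit 1573) (nat_lit 110) (.e (nat_lit 352311) (nat_lit 22) (.e (nat_lit 90130) (nat_lit 9) .nil))))))) (.g (nat_lit 7) .nil .nil)))))) (.nd (nat_lit 3) (.nd (nat_lit 4) (.nd (nat_lit 5) 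
(.lf (nat_lit 97095) (.g (nat_lit 3584) (.e (nat_lit 2828) (nat_lit 182) (.e (nat_lit 409602) (nat_lit 0) (.e (nat_lit 5293) (nat_lit 298) (.e (nat_lit 1393) (nat_lit 106) .nil)))) .nil)) 
(.lf (nat_lit 97127) (.g (nat_lit 1953) (.e (nat_lit 2829) (nat_lit 182) (.e (nat_lit 409646) (nat_lit 18) (.e (nat_lit 303112) (nat_lit 0) (.e (nat_lit 3144) (nat_lit 193) .nil)))) .nil))) (.nd (nat_lit 5) 
(.lf (nat_lit 97111) (.g (nat_lit 4444) (.e (nat_lit 2828) (nat_lit 182) (.e (nat_lit 409642) (nat_lit 17) (.e (nat_lit 294931) (nat_lit 3) (.e (nat_lit 98350) (nat_lit 24) (.e (nat_lit 409649) (nat_lit 18) (.e (nat_lit 303111) (nat_lit 0) (.e (nat_lit 3271) (nat_lit 199) (.e (nat_lit 548898) (nat_lit 14) .nil)))))))) (.g (nat_lit 8) .nil .nil))) 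
(.lf (nat_lit 97143) (.g (nat_lit 2070) (.e (nat_lit 2830) (nat_lit 182) (.e (nat_lit 409646) (nat_lit 18) (.e (nat_lit 303119) (nat_lit 3) (.e (nat_lit 204877) (nat_lit 31) .nil)))) .nil)))) (.nd (nat_lit 4) (.nd (nat_lit 5) 
(.lf (nat_lit 97103) (.g (nat_lit 1959) (.e (nat_lit 2828) (nat_lit 182) (.e (nat_lit 417536) (nat_lit 6) (.e (nat_lit 286740) (nat_lit 7) (.e (nat_lit 319531) (nat_lit 16) (.e (nat_lit 286756) (nat_lit 10) (.e (nat_lit 344157) (nat_lit 36) (.e (nat_lit 638986) (nat_lit 5) .nil))))))) (.g (nat_lit 5) .nil .nil))) 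
(.lf (nat_lit 97135) (.g (nat_lit 1398) (.e (nat_lit 2830) (nat_lit 182) (.e (nat_lit 417536) (nat_lit 16) (.e (nat_lit 286733) (nat_lit 2) (.e (nat_lit 90165) (nat_lit 12) (.e (nat_lit 171776) (nat_lit 194) (.e (nat_lit 131092) (nat_lit 2) (.e (nat_lit 90130) (nat_lit 9) .nil))))))) (.g (nat_lit 4) .nil .nil)))) (.nd (nat_lit 5) 
(.lf (nat_lit 97119) (.g (nat_lit 2423) (.e (nat_lit 2828) (nat_lit 182) (.e (nat_lit 409646) (nat_lit 18) (.e (nat_lit 303151) (nat_lit 27) (.e (nat_lit 335995) (nat_lit 1) (.e (nat_lit 57683) (nat_lit 155) (.e (nat_lit 122911) (nat_lit 13) (.e (nat_lit 344130) (nat_lit 26) (.e (nat_lit 557067) (nat_lit 9) .nil)))))))) (.g (nat_lit 4) .nil .nil))) 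
(.lf (nat_lit 97151) (.g (nat_lit 2393) (.e (nat_lit 2830) (nat_lit 182) (.e (nat_lit 409648) (nat_lit 18) (.e (nat_lit 303119) (nat_lit 3) (.e (nat_lit 204877) (nat_lit 31) (.e (nat_lit 376865) (nat_lit 22) .nil))))) .nil))))))))

noncomputable def tv1331 : DT := (.nd (nat_lit 0) (.nd (nat_lit 1) (.nd (nat_lit 2) (.nd (nat_lit 3) (.nd (nat_lit 4) (.nd (nat_lit 5) 
(.lf (nat_lit 97152) (.g (nat_lit 890) (.e (nat_lit 2830) (nat_lit 182) (.e (nat_lit 409648) (nat_lit 18) (.e (nat_lit 303121) (nat_lit 5) .nil))) .nil)) 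
(.lf (nat_lit 97184) (.g (nat_lit 468) (.e (nat_lit 2845) (nat_lit 184) (.e (nat_lit 426432) (nat_lit 17) (.e (nat_lit 98048) (nat_lit 5) .nil))) .nil))) (.nd (nat_lit 5) 
(.lf (nat_lit 97168) (.g (nat_lit 2054) (.e (nat_lit 2838) (nat_lit 183) (.e (nat_lit 417811) (nat_lit 6) (.e (nat_lit 286739) (nat_lit 7) (.e (nat_lit 319533) (nat_lit 16) (.e (nat_lit 286753) (nat_lit 10) (.e (nat_lit 344154) (nat_lit 35) (.e (nat_lit 630792) (nat_lit 5) .nil))))))) (.g (nat_lit 0) .nil .nil))) 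
(.lf (nat_lit 97200) (.g (nat_lit 1328) (.e (nat_lit 2848) (nat_lit 184) (.e (nat_lit 426354) (nat_lit 15) (.e (nat_lit 2031) (nat_lit 140) (.e (nat_lit 688171) (nat_lit 15) (.e (nat_lit 57478) (nat_lit 28) .nil))))) .nil)))) (.nd (nat_lit 4) (.nd (nat_lit 5) 
(.lf (nat_lit 97160) (.g (nat_lit 1834) (.e (nat_lit 2830) (nat_lit 182) (.e (nat_lit 409649) (nat_lit 18) (.e (nat_lit 303119) (nat_lit 3) (.e (nat_lit 204858) (nat_lit 26) .nil)))) .nil)) 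
(.lf (nat_lit 97192) (.g (nat_lit 3951) (.e (nat_lit 2845) (nat_lit 184) (.e (nat_lit 426566) (nat_lit 34) (.e (nat_lit 393253) (nat_lit 18) (.e (nat_lit 164324) (nat_lit 230) .nil)))) .nil))) (.nd (nat_lit 5) 
(.lf (nat_lit 97176) (.g (nat_lit 882) (.e (nat_lit 2842) (nat_lit 184) (.e (nat_lit 426542) (nat_lit 29) (.e (nat_lit 352267) (nat_lit 0) .nil))) .nil)) 
(.lf (nat_lit 97208) (.g (nat_lit 329) (.e (nat_lit 2850) (nat_lit 184) (.e (nat_lit 426544) (nat_lit 30) (.e (nat_lit 360486) (nat_lit 18) .nil))) .nil))))) (.nd (nat_lit 3) (.nd (nat_lit 4) (.nd (nat_lit 5) 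
(.lf (nat_lit 97156) (.g (nat_lit 2729) (.e (nat_lit 2830) (nat_lit 182) (.e (nat_lit 409649) (nat_lit 18) (.e (nat_lit 303117) (nat_lit 2) (.e (nat_lit 196624) (nat_lit 9) (.e (nat_lit 1615) (nat_lit 113) (.e (nat_lit 376863) (nat_lit 22) (.e (nat_lit 90130) (nat_lit 9) .nil))))))) (.g (nat_lit 4) .nil .nil))) 
(.lf (nat_lit 97188) (.g (nat_lit 2711) (.e (nat_lit 2845) (nat_lit 184) (.e (nat_lit 426432) (nat_lit 17) (.e (nat_lit 98048) (nat_lit 5) (.e (nat_lit 73755) (nat_lit 8) (.e (nat_lit 557105) (nat_lit 14) (.e (nat_lit 180252) (nat_lit 10) (.e (nat_lit 581376) (nat_lit 0) .nil))))))) (.g (nat_lit 6) .nil .nil)))) (.nd (nat_lit 5) 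
(.lf (nat_lit 97172) (.g (nat_lit 2176) (.e (nat_lit 2839) (nat_lit 183) (.e (nat_lit 417810) (nat_lit 6) (.e (nat_lit 286739) (nat_lit 7) (.e (nat_lit 319533) (nat_lit 16) (.e (nat_lit 286753) (nat_lit 10) (.e (nat_lit 344154) (nat_lit 35) (.e (nat_lit 630792) (nat_lit 5) .nil))))))) (.g (nat_lit 7) .nil .nil))) 
(.lf (nat_lit 97204) (.g (nat_lit 3431) (.e (nat_lit 2849) (nat_lit 184) (.e (nat_lit 426432) (nat_lit 17) (.e (nat_lit 98048) (nat_lit 5) (.e (nat_lit 73754) (nat_lit 8) (.e (nat_lit 557105) (nat_lit 14) (.e (nat_lit 180252) (nat_lit 10) (.e (nat_lit 581376) (nat_lit 0) .nil))))))) (.g (nat_lit 6) .nil .nil))))) (.nd (nat_lit 4) (.nd (nat_lit 5) 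
(.lf (nat_lit 97164) (.g (nat_lit 1398) (.e (nat_lit 7936) (nat_lit 182) (.e (nat_lit 409646) (nat_lit 18) (.e (nat_lit 303117) (nat_lit 2) (.e (nat_lit 196624) (nat_lit 9) .nil)))) .nil)) 
(.lf (nat_lit 97196) (.g (nat_lit 2241) (.e (nat_lit 2846) (nat_lit 184) (.e (nat_lit 426566) (nat_lit 34) (.e (nat_lit 393271) (nat_lit 23) (.e (nat_lit 426131) (nat_lit 3) (.e (nat_lit 204830) (nat_lit 18) .nil))))) .nil))) (.nd (nat_lit 5) 
(.lf (nat_lit 97180) (.g (nat_lit 1650) (.e (nat_lit 2844) (nat_lit 184) (.e (nat_lit 426448) (nat_lit 20) (.e (nat_lit 114718) (nat_lit 23) (.e (nat_lit 106240) (nat_lit 11) .nil)))) .nil)) 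
(.lf (nat_lit 97212) (.g (nat_lit 2413) (.e (nat_lit 2851) (nat_lit 184) (.e (nat_lit 426432) (nat_lit 17) (.e (nat_lit 98048) (nat_lit 5) (.e (nat_lit 73753) (nat_lit 8) (.e (nat_lit 557105) (nat_lit 14) (.e (nat_lit 180252) (nat_lit 10) (.e (nat_lit 581376) (nat_lit 0) .nil))))))) (.g (nat_lit 6) .nil .nil))))))) (.nd (nat_lit 2) (.nd (nat_lit 3) (.nd (nat_lit 4) (.nd (nat_lit 5) 
(.lf (nat_lit 97154) (.g (nat_lit 3398) (.e (nat_lit 2830) (nat_lit 182) (.e (nat_lit 409649) (nat_lit 18) (.e (nat_lit 303116) (nat_lit 2) (.e (nat_lit 204544) (nat_lit 15) (.e (nat_lit 81953) (nat_lit 22) (.e (nat_lit 90130) (nat_lit 9) .nil)))))) (.g (nat_lit 5) .nil .nil))) 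
(.lf (nat_lit 97186) (.g (nat_lit 2506) (.e (nat_lit 2845) (nat_lit 184) (.e (nat_lit 426432) (nat_lit 17) (.e (nat_lit 98048) (nat_lit 5) (.e (nat_lit 73753) (nat_lit 8) (.e (nat_lit 557105) (nat_lit 14) (.e (nat_lit 180252) (nat_lit 10) (.e (nat_lit 581376) (nat_lit 0) .nil))))))) (.g (nat_lit 6) .nil .nil)))) (.nd (nat_lit 5) 
(.lf (nat_lit 97170) (.g (nat_lit 1958) (.e (nat_lit 2839) (nat_lit 183) (.e (nat_lit 417809) (nat_lit 6) (.e (nat_lit 286739) (nat_lit 7) (.e (nat_lit 319533) (nat_lit 16) (.e (nat_lit 286753) (nat_lit 10) (.e (nat_lit 344154) (nat_lit 35) (.e (nat_lit 630792) (nat_lit 5) .nil))))))) (.g (nat_lit 7) .nil .nil))) 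
(.lf (nat_lit 97202) (.g (nat_lit 1529) (.e (nat_lit 2849) (nat_lit 184) (.e (nat_lit 426354) (nat_lit 15) (.e (nat_lit 1860) (nat_lit 124) (.e (nat_lit 557101) (nat_lit 13) (.e (nat_lit 172115) (nat_lit 10) (.e (nat_lit 434227) (nat_lit 20) (.e (nat_lit 507930) (nat_lit 10) (.e (nat_lit 5616) (nat_lit 312) .nil)))))))) (.g (nat_lit 4) .nil .nil))))) (.nd (nat_lit 4) (.nd (nat_lit 5) 
(.lf (nat_lit 97162) (.g (nat_lit 1665) (.e (nat_lit 2830) (nat_lit 182) (.e (nat_lit 409649) (nat_lit 18) (.e (nat_lit 303119) (nat_lit 3) (.e (nat_lit 212736) (nat_lit 31) .nil)))) .nil)) 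
(.lf (nat_lit 97194) (.g (nat_lit 1981) (.e (nat_lit 2845) (nat_lit 184) (.e (nat_lit 426566) (nat_lit 34) (.e (nat_lit 393294) (nat_lit 26) (.e (nat_lit 475177) (nat_lit 24) .nil)))) .nil))) (.nd (nat_lit 5) 
(.lf (nat_lit 97178) (.g (nat_lit 1724) (.e (nat_lit 2842) (nat_lit 184) (.e (nat_lit 426568) (nat_lit 34) (.e (nat_lit 393271) (nat_lit 23) (.e (nat_lit 426131) (nat_lit 3) .nil)))) .nil)) 
(.lf (nat_lit 97210) (.g (nat_lit 1596) (.e (nat_lit 2851) (nat_lit 184) (.e (nat_lit 426354) (nat_lit 15) (.e (nat_lit 1860) (nat_lit 124) (.e (nat_lit 557101) (nat_lit 13) (.e (nat_lit 172115) (nat_lit 10) (.e (nat_lit 434227) (nat_lit 20) (.e (nat_lit 507929) (nat_lit 10) (.e (nat_lit 5616) (nat_lit 312) .nil)))))))) (.g (nat_lit 4) .nil .nil)))))) 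
(.nd (nat_lit 3) (.nd (nat_lit 4) (.nd (nat_lit 5) 
(.lf (nat_lit 97158) (.g (nat_lit 3090) (.e (nat_lit 2830) (nat_lit 182) (.e (nat_lit 409649) (nat_lit 18) (.e (nat_lit 303117) (nat_lit 2) (.e (nat_lit 204544) (nat_lit 15) (.e (nat_lit 81953) (nat_lit 22) (.e (nat_lit 90130) (nat_lit 9) .nil)))))) (.g (nat_lit 5) .nil .nil))) 
(.lf (nat_lit 97190) (.g (nat_lit 1534) (.e (nat_lit 2845) (nat_lit 184) (.e (nat_lit 426436) (nat_lit 18) (.e (nat_lit 98358) (nat_lit 26) (.e (nat_lit 426438) (nat_lit 18) .nil)))) .nil))) (.nd (nat_lit 5) 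
(.lf (nat_lit 97174) (.g (nat_lit 2175) (.e (nat_lit 2842) (nat_lit 184) (.e (nat_lit 426436) (nat_lit 18) (.e (nat_lit 98358) (nat_lit 26) (.e (nat_lit 426438) (nat_lit 18) (.e (nat_lit 98356) (nat_lit 26) .nil))))) .nil)) 
(.lf (nat_lit 97206) (.g (nat_lit 2383) (.e (nat_lit 2850) (nat_lit 184) (.e (nat_lit 426428) (nat_lit 17) (.e (nat_lit 98048) (nat_lit 5) (.e (nat_lit 73753) (nat_lit 8) (.e (nat_lit 557105) (nat_lit 14) (.e (nat_lit 180252) (nat_lit 10) (.e (nat_lit 581376) (nat_lit 0) .nil))))))) (.g (nat_lit 6) .nil .nil))))) (.nd (nat_lit 4) (.nd (nat_lit 5) 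
(.lf (nat_lit 97166) (.g (nat_lit 1276) (.e (nat_lit 2837) (nat_lit 183) (.e (nat_lit 417811) (nat_lit 6) (.e (nat_lit 286739) (nat_lit 7) (.e (nat_lit 319533) (nat_lit 16) (.e (nat_lit 286753) (nat_lit 10) .nil))))) .nil)) 
(.lf (nat_lit 97198) (.g (nat_lit 610) (.e (nat_lit 2847) (nat_lit 184) (.e (nat_lit 426566) (nat_lit 34) (.e (nat_lit 393291) (nat_lit 26) .nil))) .nil))) (.nd (nat_lit 5) 
(.lf (nat_lit 97182) (.g (nat_lit 2030) (.e (nat_lit 2844) (nat_lit 184) (.e (nat_lit 426566) (nat_lit 34) (.e (nat_lit 393271) (nat_lit 23) (.e (nat_lit 426131) (nat_lit 3) .nil)))) .nil)) 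
(.lf (nat_lit 97214) (.g (nat_lit 2618) (.e (nat_lit 2851) (nat_lit 184) (.e (nat_lit 426432) (nat_lit 17) (.e (nat_lit 98048) (nat_lit 5) (.e (nat_lit 73755) (nat_lit 8) (.e (nat_lit 557105) (nat_lit 14) (.e (nat_lit 180252) (nat_lit 10) (.e (nat_lit 581376) (nat_lit 0) .nil))))))) (.g (nat_lit 6) .nil .nil)))))))) 
(.nd (nat_lit 1) (.nd (nat_lit 2) (.nd (nat_lit 3) (.nd (nat_lit 4) (.nd (nat_lit 5) 
(.lf (nat_lit 97153) (.g (nat_lit 452) (.e (nat_lit 2830) (nat_lit 182) (.e (nat_lit 409648) (nat_lit 18) (.e (nat_lit 303151) (nat_lit 27) .nil))) .nil)) 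
(.lf (nat_lit 97185) (.g (nat_lit 1939) (.e (nat_lit 2845) (nat_lit 184) (.e (nat_lit 426432) (nat_lit 17) (.e (nat_lit 98048) (nat_lit 5) (.e (nat_lit 73746) (nat_lit 3) (.e (nat_lit 516131) (nat_lit 3) (.e (nat_lit 221212) (nat_lit 22) (.e (nat_lit 204544) (nat_lit 0) .nil))))))) (.g (nat_lit 6) .nil .nil)))) (.nd (nat_lit 5) 
(.lf (nat_lit 97169) (.g (nat_lit 431) (.e (nat_lit 2839) (nat_lit 183) (.e (nat_lit 417809) (nat_lit 6) (.e (nat_lit 286739) (nat_lit 7) .nil))) .nil)) 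
(.lf (nat_lit 97201) (.g (nat_lit 1603) (.e (nat_lit 2849) (nat_lit 184) (.e (nat_lit 426354) (nat_lit 15) (.e (nat_lit 1860) (nat_lit 124) (.e (nat_lit 557101) (nat_lit 13) (.e (nat_lit 172115) (nat_lit 10) (.e (nat_lit 434227) (nat_lit 20) (.e (nat_lit 507929) (nat_lit 10) (.e (nat_lit 5616) (nat_lit 312) .nil)))))))) (.g (nat_lit 4) .nil .nil))))) (.nd (nat_lit 4) (.nd (nat_lit 5) 
(.lf (nat_lit 97161) (.g (nat_lit 1665) (.e (nat_lit 2830) (nat_lit 182) (.e (nat_lit 409649) (nat_lit 18) (.e (nat_lit 303119) (nat_lit 3) (.e (nat_lit 212736) (nat_lit 26) .nil)))) .nil)) 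
(.lf (nat_lit 97193) (.g (nat_lit 3950) (.e (nat_lit 2845) (nat_lit 184) (.e (nat_lit 426566) (nat_lit 34) (.e (nat_lit 393253) (nat_lit 18) (.e (nat_lit 164332) (nat_lit 230) .nil)))) .nil))) (.nd (nat_lit 5) 
(.lf (nat_lit 97177) (.g (nat_lit 1539) (.e (nat_lit 2842) (nat_lit 184) (.e (nat_lit 426566) (nat_lit 34) (.e (nat_lit 393268) (nat_lit 23) (.e (nat_lit 426438) (nat_lit 18) .nil)))) .nil)) 
(.lf (nat_lit 97209) (.g (nat_lit 1204) (.e (nat_lit 2850) (nat_lit 184) (.e (nat_lit 426546) (nat_lit 30) (.e (nat_lit 360452) (nat_lit 0) (.e (nat_lit 5907) (nat_lit 320) (.e (nat_lit 1209) (nat_lit 89) (.e (nat_lit 81664) (nat_lit 32) .nil)))))) (.g (nat_lit 5) .nil .nil)))))) (.nd (nat_lit 3) (.nd (nat_lit 4) (.nd (nat_lit 5) 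
(.lf (nat_lit 97157) (.g (nat_lit 1578) (.e (nat_lit 2830) (nat_lit 182) (.e (nat_lit 409649) (nat_lit 18) (.e (nat_lit 303117) (nat_lit 2) (.e (nat_lit 196628) (nat_lit 9) .nil)))) .nil)) 
(.lf (nat_lit 97189) (.g (nat_lit 1797) (.e (nat_lit 2845) (nat_lit 184) (.e (nat_lit 426436) (nat_lit 18) (.e (nat_lit 98358) (nat_lit 26) (.e (nat_lit 426323) (nat_lit 13) .nil)))) .nil))) (.nd (nat_lit 5) 
(.lf (nat_lit 97173) (.g (nat_lit 1494) (.e (nat_lit 2839) (nat_lit 183) (.e (nat_lit 417810) (nat_lit 6) (.e (nat_lit 286740) (nat_lit 7) (.e (nat_lit 319533) (nat_lit 16) (.e (nat_lit 286753) (nat_lit 10) (.e (nat_lit 344154) (nat_lit 35) (.e (nat_lit 630792) (nat_lit 5) .nil))))))) (.g (nat_lit 4) .nil .nil))) 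
(.lf (nat_lit 97205) (.g (nat_lit 2609) (.e (nat_lit 2849) (nat_lit 184) (.e (nat_lit 426432) (nat_lit 17) (.e (nat_lit 98048) (nat_lit 5) (.e (nat_lit 73755) (nat_lit 8) (.e (nat_lit 557105) (nat_lit 14) (.e (nat_lit 180252) (nat_lit 10) (.e (nat_lit 581376) (nat_lit 0) .nil))))))) (.g (nat_lit 6) .nil .nil))))) (.nd (nat_lit 4) (.nd (nat_lit 5) 
(.lf (nat_lit 97165) (.g (nat_lit 2795) (.e (nat_lit 2835) (nat_lit 183) (.e (nat_lit 417811) (nat_lit 6) (.e (nat_lit 286733) (nat_lit 2) (.e (nat_lit 90170) (nat_lit 13) (.e (nat_lit 172079) (nat_lit 7) .nil))))) .nil)) 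
(.lf (nat_lit 97197) (.g (nat_lit 790) (.e (nat_lit 2846) (nat_lit 184) (.e (nat_lit 426566) (nat_lit 34) (.e (nat_lit 393296) (nat_lit 26) .nil))) .nil))) (.nd (nat_lit 5) 
(.lf (nat_lit 97181) (.g (nat_lit 1404) (.e (nat_lit 2844) (nat_lit 184) (.e (nat_lit 426448) (nat_lit 20) (.e (nat_lit 114719) (nat_lit 23) (.e (nat_lit 106240) (nat_lit 11) .nil)))) .nil)) 
(.lf (nat_lit 97213) (.g (nat_lit 3440) (.e (nat_lit 2851) (nat_lit 184) (.e (nat_lit 426432) (nat_lit 17) (.e (nat_lit 98048) (nat_lit 5) (.e (nat_lit 73754) (nat_lit 8) (.e (nat_lit 557105) (nat_lit 14) (.e (nat_lit 180252) (nat_lit 10) (.e (nat_lit 581376) (nat_lit 0) .nil))))))) (.g (nat_lit 6) .nil .nil))))))) (.nd (nat_lit 2) (.nd (nat_lit 3) (.nd (nat_lit 4) (.nd (nat_lit 5) 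
(.lf (nat_lit 97155) (.g (nat_lit 1629) (.e (nat_lit 2830) (nat_lit 182) (.e (nat_lit 409649) (nat_lit 18) (.e (nat_lit 303117) (nat_lit 2) (.e (nat_lit 196622) (nat_lit 9) .nil)))) .nil)) 
(.lf (nat_lit 97187) (.g (nat_lit 3533) (.e (nat_lit 2845) (nat_lit 184) (.e (nat_lit 426432) (nat_lit 17) (.e (nat_lit 98048) (nat_lit 5) (.e (nat_lit 73754) (nat_lit 8) (.e (nat_lit 557105) (nat_lit 14) (.e (nat_lit 180252) (nat_lit 10) (.e (nat_lit 581376) (nat_lit 0) .nil))))))) (.g (nat_lit 6) .nil .nil)))) (.nd (nat_lit 5) 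
(.lf (nat_lit 97171) (.g (nat_lit 466) (.e (nat_lit 2839) (nat_lit 183) (.e (nat_lit 417810) (nat_lit 6) (.e (nat_lit 286739) (nat_lit 7) .nil))) .nil)) 
(.lf (nat_lit 97203) (.g (nat_lit 2404) (.e (nat_lit 2849) (nat_lit 184) (.e (nat_lit 426432) (nat_lit 17) (.e (nat_lit 98048) (nat_lit 5) (.e (nat_lit 73753) (nat_lit 8) (.e (nat_lit 557105) (nat_lit 14) (.e (nat_lit 180252) (nat_lit 10) (.e (nat_lit 581376) (nat_lit 0) .nil))))))) (.g (nat_lit 6) .nil .nil))))) (.nd (nat_lit 4) (.nd (nat_lit 5) 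
(.lf (nat_lit 97163) (.g (nat_lit 2026) (.e (nat_lit 2830) (nat_lit 182) (.e (nat_lit 417536) (nat_lit 18) (.e (nat_lit 303117) (nat_lit 2) (.e (nat_lit 196630) (nat_lit 9) (.e (nat_lit 1573) (nat_lit 110) (.e (nat_lit 352311) (nat_lit 22) (.e (nat_lit 90130) (nat_lit 9) .nil))))))) (.g (nat_lit 5) .nil .nil))) 
(.lf (nat_lit 97195) (.g (nat_lit 490) (.e (nat_lit 2845) (nat_lit 184) (.e (nat_lit 426566) (nat_lit 34) (.e (nat_lit 393296) (nat_lit 26) .nil))) .nil))) (.nd (nat_lit 5) 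
(.lf (nat_lit 97179) (.g (nat_lit 903) (.e (nat_lit 2842) (nat_lit 184) (.e (nat_lit 426568) (nat_lit 34) (.e (nat_lit 393284) (nat_lit 24) .nil))) .nil)) 
(.lf (nat_lit 97211) (.g (nat_lit 1522) (.e (nat_lit 2851) (nat_lit 184) (.e (nat_lit 426354) (nat_lit 15) (.e (nat_lit 1860) (nat_lit 124) (.e (nat_lit 557101) (nat_lit 13) (.e (nat_lit 172115) (nat_lit 10) (.e (nat_lit 434227) (nat_lit 20) (.e (nat_lit 507930) (nat_lit 10) (.e (nat_lit 5616) (nat_lit 312) .nil)))))))) (.g (nat_lit 4) .nil .nil)))))) 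
(.nd (nat_lit 3) (.nd (nat_lit 4) (.nd (nat_lit 5) 
(.lf (nat_lit 97159) (.g (nat_lit 1548) (.e (nat_lit 2830) (nat_lit 182) (.e (nat_lit 409649) (nat_lit 18) (.e (nat_lit 303118) (nat_lit 3) (.e (nat_lit 212736) (nat_lit 26) .nil)))) .nil)) 
(.lf (nat_lit 97191) (.g (nat_lit 820) (.e (nat_lit 2845) (nat_lit 184) (.e (nat_lit 426438) (nat_lit 18) (.e (nat_lit 98380) (nat_lit 31) (.e (nat_lit 466954) (nat_lit 11) .nil)))) .nil))) (.nd (nat_lit 5) 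
(.lf (nat_lit 97175) (.g (nat_lit 1739) (.e (nat_lit 2842) (nat_lit 184) (.e (nat_lit 426540) (nat_lit 29) (.e (nat_lit 352262) (nat_lit 0) (.e (nat_lit 3631) (nat_lit 227) (.e (nat_lit 778323) (nat_lit 5) .nil))))) .nil)) 
(.lf (nat_lit 97207) (.g (nat_lit 459) (.e (nat_lit 2850) (nat_lit 184) (.e (nat_lit 426540) (nat_lit 29) (.e (nat_lit 352270) (nat_lit 8) .nil))) .nil)))) (.nd (nat_lit 4) (.nd (nat_lit 5) 
(.lf (nat_lit 97167) (.g (nat_lit 372) (.e (nat_lit 2837) (nat_lit 183) (.e (nat_lit 417820) (nat_lit 10) (.e (nat_lit 5761) (nat_lit 315) .nil))) .nil)) 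
(.lf (nat_lit 97199) (.g (nat_lit 1748) (.e (nat_lit 2847) (nat_lit 184) (.e (nat_lit 426566) (nat_lit 34) (.e (nat_lit 393296) (nat_lit 26) (.e (nat_lit 475178) (nat_lit 24) .nil)))) .nil))) (.nd (nat_lit 5) 
(.lf (nat_lit 97183) (.g (nat_lit 1627) (.e (nat_lit 2844) (nat_lit 184) (.e (nat_lit 426568) (nat_lit 34) (.e (nat_lit 393271) (nat_lit 23) (.e (nat_lit 426131) (nat_lit 3) .nil)))) .nil)) 
(.lf (nat_lit 97215) (.g (nat_lit 1755) (.e (nat_lit 2851) (nat_lit 184) (.e (nat_lit 426436) (nat_lit 18) (.e (nat_lit 98358) (nat_lit 26) (.e (nat_lit 426436) (nat_lit 18) .nil)))) .nil))))))))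

noncomputable def tv1332 : DT := (.nd (nat_lit 0) (.nd (nat_lit 1) (.nd (nat_lit 2) (.nd (nat_lit 3) (.nd (nat_lit 4) (.nd (nat_lit 5) 
(.lf (nat_lit 97216) (.g (nat_lit 4894) (.e (nat_lit 2852) (nat_lit 184) (.e (nat_lit 426131) (nat_lit 3) (.e (nat_lit 204869) (nat_lit 29) (.e (nat_lit 360475) (nat_lit 8) (.e (nat_lit 557091) (nat_lit 12) .nil))))) .nil)) 
(.lf (nat_lit 97248) (.g (nat_lit 2942) (.e (nat_lit 2854) (nat_lit 184) (.e (nat_lit 426354) (nat_lit 15) (.e (nat_lit 2031) (nat_lit 140) (.e (nat_lit 688171) (nat_lit 15) (.e (nat_lit 57478) (nat_lit 28) (.e (nat_lit 557107) (nat_lit 15) (.e (nat_lit 188459) (nat_lit 26) (.e (nat_lit 253953) (nat_lit 0) .nil)))))))) (.g (nat_lit 0) .nil .nil)))) (.nd (nat_lit 5) 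
(.lf (nat_lit 97232) (.g (nat_lit 2127) (.e (nat_lit 2852) (nat_lit 184) (.e (nat_lit 426479) (nat_lit 27) (.e (nat_lit 336208) (nat_lit 12) (.e (nat_lit 385094) (nat_lit 49) (.e (nat_lit 778323) (nat_lit 5) (.e (nat_lit 81664) (nat_lit 32) .nil)))))) (.g (nat_lit 5) .nil .nil))) 
(.lf (nat_lit 97264) (.g (nat_lit 1750) (.e (nat_lit 2854) (nat_lit 184) (.e (nat_lit 426542) (nat_lit 29) (.e (nat_lit 352265) (nat_lit 0) (.e (nat_lit 3631) (nat_lit 227) (.e (nat_lit 778323) (nat_lit 5) (.e (nat_lit 73781) (nat_lit 32) .nil)))))) (.g (nat_lit 5) .nil .nil))))) (.nd (nat_lit 4) (.nd (nat_lit 5) 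
(.lf (nat_lit 97224) (.g (nat_lit 3493) (.e (nat_lit 2852) (nat_lit 184) (.e (nat_lit 426428) (nat_lit 17) (.e (nat_lit 98048) (nat_lit 5) (.e (nat_lit 73754) (nat_lit 8) (.e (nat_lit 557105) (nat_lit 14) (.e (nat_lit 180252) (nat_lit 10) (.e (nat_lit 573442) (nat_lit 0) .nil))))))) (.g (nat_lit 6) .nil .nil))) 
(.lf (nat_lit 97256) (.g (nat_lit 2267) (.e (nat_lit 2854) (nat_lit 184) (.e (nat_lit 426438) (nat_lit 18) (.e (nat_lit 98367) (nat_lit 27) (.e (nat_lit 434247) (nat_lit 28) (.e (nat_lit 573485) (nat_lit 13) .nil))))) .nil))) (.nd (nat_lit 5) 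
(.lf (nat_lit 97240) (.g (nat_lit 3396) (.e (nat_lit 2853) (nat_lit 184) (.e (nat_lit 426432) (nat_lit 17) (.e (nat_lit 98048) (nat_lit 5) (.e (nat_lit 73754) (nat_lit 8) (.e (nat_lit 557105) (nat_lit 14) (.e (nat_lit 180252) (nat_lit 10) (.e (nat_lit 581376) (nat_lit 0) .nil))))))) (.g (nat_lit 6) .nil .nil))) 
(.lf (nat_lit 97272) (.g (nat_lit 2536) (.e (nat_lit 2854) (nat_lit 184) (.e (nat_lit 426542) (nat_lit 29) (.e (nat_lit 352307) (nat_lit 21) (.e (nat_lit 57870) (nat_lit 264) (.e (nat_lit 1209) (nat_lit 89) (.e (nat_lit 73782) (nat_lit 32) .nil)))))) (.g (nat_lit 0) .nil .nil)))))) (.nd (nat_lit 3) (.nd (nat_lit 4) (.nd (nat_lit 5) 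
(.lf (nat_lit 97220) (.g (nat_lit 2981) (.e (nat_lit 2852) (nat_lit 184) (.e (nat_lit 426402) (nat_lit 15) (.e (nat_lit 1849) (nat_lit 124) (.e (nat_lit 557108) (nat_lit 15) (.e (nat_lit 188452) (nat_lit 23) (.e (nat_lit 204817) (nat_lit 17) (.e (nat_lit 7936) (nat_lit 357) .nil))))))) (.g (nat_lit 6) .nil .nil))) 
(.lf (nat_lit 97252) (.g (nat_lit 1825) (.e (nat_lit 2854) (nat_lit 184) (.e (nat_lit 426428) (nat_lit 17) (.e (nat_lit 90174) (nat_lit 14) (.e (nat_lit 180250) (nat_lit 10) (.e (nat_lit 573480) (nat_lit 13) (.e (nat_lit 65644) (nat_lit 22) (.e (nat_lit 245769) (nat_lit 0) .nil))))))) (.g (nat_lit 4) .nil .nil)))) (.nd (nat_lit 5) 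
(.lf (nat_lit 97236) (.g (nat_lit 4091) (.e (nat_lit 2852) (nat_lit 184) (.e (nat_lit 426566) (nat_lit 34) (.e (nat_lit 393253) (nat_lit 18) (.e (nat_lit 164332) (nat_lit 230) .nil)))) .nil)) 
(.lf (nat_lit 97268) (.g (nat_lit 1583) (.e (nat_lit 2854) (nat_lit 184) (.e (nat_lit 426542) (nat_lit 29) (.e (nat_lit 352283) (nat_lit 20) (.e (nat_lit 1998) (nat_lit 137) (.e (nat_lit 663568) (nat_lit 5) (.e (nat_lit 73782) (nat_lit 32) .nil)))))) (.g (nat_lit 0) .nil .nil))))) (.nd (nat_lit 4) (.nd (nat_lit 5) 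
(.lf (nat_lit 97228) (.g (nat_lit 4810) (.e (nat_lit 2852) (nat_lit 184) (.e (nat_lit 426436) (nat_lit 18) (.e (nat_lit 98335) (nat_lit 18) (.e (nat_lit 164327) (nat_lit 230) .nil)))) .nil)) 
(.lf (nat_lit 97260) (.g (nat_lit 879) (.e (nat_lit 2854) (nat_lit 184) (.e (nat_lit 426533) (nat_lit 28) (.e (nat_lit 344081) (nat_lit 13) (.e (nat_lit 1386) (nat_lit 105) (.e (nat_lit 311357) (nat_lit 28) (.e (nat_lit 344068) (nat_lit 0) .nil)))))) (.g (nat_lit 4) .nil .nil)))) (.nd (nat_lit 5) 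
(.lf (nat_lit 97244) (.g (nat_lit 744) (.e (nat_lit 2853) (nat_lit 184) (.e (nat_lit 426566) (nat_lit 34) (.e (nat_lit 393268) (nat_lit 23) .nil))) .nil)) 
(.lf (nat_lit 97276) (.g (nat_lit 1973) (.e (nat_lit 2854) (nat_lit 184) (.e (nat_lit 426542) (nat_lit 29) (.e (nat_lit 352307) (nat_lit 21) (.e (nat_lit 57873) (nat_lit 264) (.e (nat_lit 1210) (nat_lit 89) (.e (nat_lit 73782) (nat_lit 32) .nil)))))) (.g (nat_lit 4) .nil .nil))))))) (.nd (nat_lit 2) (.nd (nat_lit 3) (.nd (nat_lit 4) (.nd (nat_lit 5) 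
(.lf (nat_lit 97218) (.g (nat_lit 3120) (.e (nat_lit 2852) (nat_lit 184) (.e (nat_lit 426402) (nat_lit 15) (.e (nat_lit 1848) (nat_lit 124) (.e (nat_lit 557108) (nat_lit 15) (.e (nat_lit 188452) (nat_lit 23) (.e (nat_lit 204817) (nat_lit 17) (.e (nat_lit 7936) (nat_lit 357) .nil))))))) (.g (nat_lit 6) .nil .nil))) 
(.lf (nat_lit 97250) (.g (nat_lit 2293) (.e (nat_lit 2854) (nat_lit 184) (.e (nat_lit 426354) (nat_lit 15) (.e (nat_lit 2031) (nat_lit 140) (.e (nat_lit 688177) (nat_lit 16) (.e (nat_lit 65583) (nat_lit 7) (.e (nat_lit 319530) (nat_lit 16) (.e (nat_lit 286727) (nat_lit 0) (.e (nat_lit 6680) (nat_lit 357) .nil)))))))) (.g (nat_lit 5) .nil .nil)))) (.nd (nat_lit 5) 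
(.lf (nat_lit 97234) (.g (nat_lit 1293) (.e (nat_lit 2852) (nat_lit 184) (.e (nat_lit 426545) (nat_lit 30) (.e (nat_lit 368384) (nat_lit 0) (.e (nat_lit 5906) (nat_lit 320) (.e (nat_lit 1209) (nat_lit 89) (.e (nat_lit 81664) (nat_lit 32) .nil)))))) (.g (nat_lit 5) .nil .nil))) 
(.lf (nat_lit 97266) (.g (nat_lit 2374) (.e (nat_lit 2854) (nat_lit 184) (.e (nat_lit 426542) (nat_lit 29) (.e (nat_lit 352267) (nat_lit 0) (.e (nat_lit 3631) (nat_lit 227) (.e (nat_lit 778323) (nat_lit 5) (.e (nat_lit 73781) (nat_lit 32) .nil)))))) (.g (nat_lit 6) .nil .nil))))) (.nd (nat_lit 4) (.nd (nat_lit 5) 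
(.lf (nat_lit 97226) (.g (nat_lit 2540) (.e (nat_lit 2852) (nat_lit 184) (.e (nat_lit 426428) (nat_lit 17) (.e (nat_lit 98048) (nat_lit 5) (.e (nat_lit 73755) (nat_lit 8) (.e (nat_lit 557105) (nat_lit 14) (.e (nat_lit 180252) (nat_lit 10) (.e (nat_lit 581376) (nat_lit 0) .nil))))))) (.g (nat_lit 6) .nil .nil))) 
(.lf (nat_lit 97258) (.g (nat_lit 917) (.e (nat_lit 2854) (nat_lit 184) (.e (nat_lit 426533) (nat_lit 28) (.e (nat_lit 344076) (nat_lit 13) (.e (nat_lit 1386) (nat_lit 105) (.e (nat_lit 311357) (nat_lit 28) (.e (nat_lit 344068) (nat_lit 0) .nil)))))) (.g (nat_lit 4) .nil .nil)))) (.nd (nat_lit 5) 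
(.lf (nat_lit 97242) (.g (nat_lit 1737) (.e (nat_lit 2853) (nat_lit 184) (.e (nat_lit 426436) (nat_lit 18) (.e (nat_lit 98358) (nat_lit 26) (.e (nat_lit 426438) (nat_lit 18) .nil)))) .nil)) 
(.lf (nat_lit 97274) (.g (nat_lit 2947) (.e (nat_lit 2854) (nat_lit 184) (.e (nat_lit 426542) (nat_lit 29) (.e (nat_lit 352307) (nat_lit 21) (.e (nat_lit 57872) (nat_lit 264) (.e (nat_lit 1209) (nat_lit 89) (.e (nat_lit 73782) (nat_lit 32) .nil)))))) (.g (nat_lit 0) .nil .nil)))))) (.nd (nat_lit 3) (.nd (nat_lit 4) (.nd (nat_lit 5) 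
(.lf (nat_lit 97222) (.g (nat_lit 3827) (.e (nat_lit 2852) (nat_lit 184) (.e (nat_lit 426402) (nat_lit 15) (.e (nat_lit 1859) (nat_lit 124) (.e (nat_lit 557109) (nat_lit 15) (.e (nat_lit 188452) (nat_lit 23) (.e (nat_lit 204817) (nat_lit 17) (.e (nat_lit 7936) (nat_lit 357) .nil))))))) (.g (nat_lit 6) .nil .nil))) 
(.lf (nat_lit 97254) (.g (nat_lit 3407) (.e (nat_lit 2854) (nat_lit 184) (.e (nat_lit 426428) (nat_lit 17) (.e (nat_lit 90174) (nat_lit 14) (.e (nat_lit 180250) (nat_lit 10) (.e (nat_lit 573482) (nat_lit 13) (.e (nat_lit 65644) (nat_lit 22) (.e (nat_lit 245769) (nat_lit 0) .nil))))))) (.g (nat_lit 0) .nil .nil)))) (.nd (nat_lit 5) 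
(.lf (nat_lit 97238) (.g (nat_lit 5216) (.e (nat_lit 2853) (nat_lit 184) (.e (nat_lit 426131) (nat_lit 3) (.e (nat_lit 204869) (nat_lit 29) (.e (nat_lit 360474) (nat_lit 8) (.e (nat_lit 557091) (nat_lit 12) .nil))))) .nil)) 
(.lf (nat_lit 97270) (.g (nat_lit 1301) (.e (nat_lit 2854) (nat_lit 184) (.e (nat_lit 426542) (nat_lit 29) (.e (nat_lit 352287) (nat_lit 20) (.e (nat_lit 1994) (nat_lit 137) (.e (nat_lit 663568) (nat_lit 5) (.e (nat_lit 73781) (nat_lit 32) .nil)))))) (.g (nat_lit 5) .nil .nil))))) (.nd (nat_lit 4) (.nd (nat_lit 5) 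
(.lf (nat_lit 97230) (.g (nat_lit 2432) (.e (nat_lit 2852) (nat_lit 184) (.e (nat_lit 426449) (nat_lit 20) (.e (nat_lit 114723) (nat_lit 24) (.e (nat_lit 106534) (nat_lit 11) (.e (nat_lit 16425) (nat_lit 7) (.e (nat_lit 409623) (nat_lit 10) (.e (nat_lit 5664) (nat_lit 312) .nil))))))) (.g (nat_lit 0) .nil .nil))) 
(.lf (nat_lit 97262) (.g (nat_lit 1028) (.e (nat_lit 2854) (nat_lit 184) (.e (nat_lit 426542) (nat_lit 29) (.e (nat_lit 352264) (nat_lit 0) (.e (nat_lit 3711) (nat_lit 227) (.e (nat_lit 786176) (nat_lit 5) (.e (nat_lit 73781) (nat_lit 32) .nil)))))) (.g (nat_lit 4) .nil .nil)))) (.nd (nat_lit 5) 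
(.lf (nat_lit 97246) (.g (nat_lit 2197) (.e (nat_lit 2854) (nat_lit 184) (.e (nat_lit 426131) (nat_lit 3) (.e (nat_lit 204885) (nat_lit 33) (.e (nat_lit 401448) (nat_lit 10) (.e (nat_lit 434232) (nat_lit 23) .nil))))) .nil)) 
(.lf (nat_lit 97278) (.g (nat_lit 2477) (.e (nat_lit 2854) (nat_lit 184) (.e (nat_lit 426542) (nat_lit 29) (.e (nat_lit 352309) (nat_lit 21) (.e (nat_lit 57872) (nat_lit 264) (.e (nat_lit 1209) (nat_lit 89) (.e (nat_lit 73781) (nat_lit 32) .nil)))))) (.g (nat_lit 5) .nil .nil)))))))) (.nd (nat_lit 1) (.nd (nat_lit 2) (.nd (nat_lit 3) (.nd (nat_lit 4) (.nd (nat_lit 5) 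
(.lf (nat_lit 97217) (.g (nat_lit 2143) (.e (nat_lit 2852) (nat_lit 184) (.e (nat_lit 426402) (nat_lit 15) (.e (nat_lit 1848) (nat_lit 124) (.e (nat_lit 557107) (nat_lit 15) (.e (nat_lit 188450) (nat_lit 23) (.e (nat_lit 204817) (nat_lit 17) (.e (nat_lit 7936) (nat_lit 357) .nil))))))) (.g (nat_lit 6) .nil .nil))) 
(.lf (nat_lit 97249) (.g (nat_lit 1777) (.e (nat_lit 2854) (nat_lit 184) (.e (nat_lit 426354) (nat_lit 15) (.e (nat_lit 2031) (nat_lit 140) (.e (nat_lit 688177) (nat_lit 16) (.e (nat_lit 65583) (nat_lit 7) (.e (nat_lit 319530) (nat_lit 16) (.e (nat_lit 286727) (nat_lit 0) (.e (nat_lit 6676) (nat_lit 357) .nil)))))))) (.g (nat_lit 4) .nil .nil)))) (.nd (nat_lit 5) 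
(.lf (nat_lit 97233) (.g (nat_lit 2044) (.e (nat_lit 2852) (nat_lit 184) (.e (nat_lit 426509) (nat_lit 27) (.e (nat_lit 336228) (nat_lit 14) (.e (nat_lit 401459) (nat_lit 13) (.e (nat_lit 483347) (nat_lit 17) (.e (nat_lit 7936) (nat_lit 357) .nil)))))) (.g (nat_lit 5) .nil .nil))) 
(.lf (nat_lit 97265) (.g (nat_lit 1539) (.e (nat_lit 2854) (nat_lit 184) (.e (nat_lit 426542) (nat_lit 29) (.e (nat_lit 352266) (nat_lit 0) (.e (nat_lit 3631) (nat_lit 227) (.e (nat_lit 778323) (nat_lit 5) (.e (nat_lit 73781) (nat_lit 32) .nil)))))) (.g (nat_lit 4) .nil .nil))))) (.nd (nat_lit 4) (.nd (nat_lit 5) 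
(.lf (nat_lit 97225) (.g (nat_lit 3364) (.e (nat_lit 2852) (nat_lit 184) (.e (nat_lit 426428) (nat_lit 17) (.e (nat_lit 98048) (nat_lit 5) (.e (nat_lit 73754) (nat_lit 8) (.e (nat_lit 557105) (nat_lit 14) (.e (nat_lit 180252) (nat_lit 10) (.e (nat_lit 581376) (nat_lit 0) .nil))))))) (.g (nat_lit 6) .nil .nil))) 
(.lf (nat_lit 97257) (.g (nat_lit 2487) (.e (nat_lit 2854) (nat_lit 184) (.e (nat_lit 426479) (nat_lit 27) (.e (nat_lit 336208) (nat_lit 12) (.e (nat_lit 385094) (nat_lit 49) (.e (nat_lit 778323) (nat_lit 5) (.e (nat_lit 73782) (nat_lit 32) .nil)))))) (.g (nat_lit 0) .nil .nil)))) (.nd (nat_lit 5) 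
(.lf (nat_lit 97241) (.g (nat_lit 2574) (.e (nat_lit 2853) (nat_lit 184) (.e (nat_lit 426432) (nat_lit 17) (.e (nat_lit 98048) (nat_lit 5) (.e (nat_lit 73755) (nat_lit 8) (.e (nat_lit 557105) (nat_lit 14) (.e (nat_lit 180252) (nat_lit 10) (.e (nat_lit 581376) (nat_lit 0) .nil))))))) (.g (nat_lit 6) .nil .nil))) 
(.lf (nat_lit 97273) (.g (nat_lit 2454) (.e (nat_lit 2854) (nat_lit 184) (.e (nat_lit 426542) (nat_lit 29) (.e (nat_lit 352307) (nat_lit 21) (.e (nat_lit 57872) (nat_lit 264) (.e (nat_lit 1209) (nat_lit 89) (.e (nat_lit 73781) (nat_lit 32) .nil)))))) (.g (nat_lit 5) .nil .nil)))))) (.nd (nat_lit 3) (.nd (nat_lit 4) (.nd (nat_lit 5) 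
(.lf (nat_lit 97221) (.g (nat_lit 2083) (.e (nat_lit 2852) (nat_lit 184) (.e (nat_lit 426402) (nat_lit 15) (.e (nat_lit 1859) (nat_lit 124) (.e (nat_lit 557107) (nat_lit 15) (.e (nat_lit 188450) (nat_lit 23) (.e (nat_lit 204817) (nat_lit 17) (.e (nat_lit 7936) (nat_lit 357) .nil))))))) (.g (nat_lit 6) .nil .nil))) 
(.lf (nat_lit 97253) (.g (nat_lit 3416) (.e (nat_lit 2854) (nat_lit 184) (.e (nat_lit 426428) (nat_lit 17) (.e (nat_lit 90174) (nat_lit 14) (.e (nat_lit 180250) (nat_lit 10) (.e (nat_lit 573482) (nat_lit 13) (.e (nat_lit 65644) (nat_lit 22) (.e (nat_lit 245766) (nat_lit 0) .nil))))))) (.g (nat_lit 7) .nil .nil)))) (.nd (nat_lit 5) 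
(.lf (nat_lit 97237) (.g (nat_lit 2212) (.e (nat_lit 2852) (nat_lit 184) (.e (nat_lit 426568) (nat_lit 34) (.e (nat_lit 393271) (nat_lit 23) (.e (nat_lit 426131) (nat_lit 3) (.e (nat_lit 204829) (nat_lit 18) .nil))))) .nil)) 
(.lf (nat_lit 97269) (.g (nat_lit 1822) (.e (nat_lit 2854) (nat_lit 184) (.e (nat_lit 426542) (nat_lit 29) (.e (nat_lit 352283) (nat_lit 20) (.e (nat_lit 1999) (nat_lit 137) (.e (nat_lit 663568) (nat_lit 5) (.e (nat_lit 73782) (nat_lit 32) .nil)))))) (.g (nat_lit 0) .nil .nil))))) (.nd (nat_lit 4) (.nd (nat_lit 5) 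
(.lf (nat_lit 97229) (.g (nat_lit 1141) (.e (nat_lit 2852) (nat_lit 184) (.e (nat_lit 426438) (nat_lit 18) (.e (nat_lit 98370) (nat_lit 28) (.e (nat_lit 442391) (nat_lit 19) .nil)))) .nil)) 
(.lf (nat_lit 97261) (.g (nat_lit 887) (.e (nat_lit 2854) (nat_lit 184) (.e (nat_lit 426533) (nat_lit 28) (.e (nat_lit 344081) (nat_lit 13) (.e (nat_lit 1386) (nat_lit 105) (.e (nat_lit 311357) (nat_lit 28) (.e (nat_lit 344069) (nat_lit 0) .nil)))))) (.g (nat_lit 4) .nil .nil)))) (.nd (nat_lit 5) 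
(.lf (nat_lit 97245) (.g (nat_lit 2205) (.e (nat_lit 2853) (nat_lit 184) (.e (nat_lit 426568) (nat_lit 34) (.e (nat_lit 393271) (nat_lit 23) (.e (nat_lit 426131) (nat_lit 3) (.e (nat_lit 204830) (nat_lit 18) .nil))))) .nil)) 
(.lf (nat_lit 97277) (.g (nat_lit 1943) (.e (nat_lit 2854) (nat_lit 184) (.e (nat_lit 426542) (nat_lit 29) (.e (nat_lit 352309) (nat_lit 21) (.e (nat_lit 57870) (nat_lit 264) (.e (nat_lit 1209) (nat_lit 89) (.e (nat_lit 73781) (nat_lit 32) .nil)))))) (.g (nat_lit 5) .nil .nil))))))) (.nd (nat_lit 2) (.nd (nat_lit 3) (.nd (nat_lit 4) (.nd (nat_lit 5) 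
(.lf (nat_lit 97219) (.g (nat_lit 2016) (.e (nat_lit 2852) (nat_lit 184) (.e (nat_lit 426402) (nat_lit 15) (.e (nat_lit 1849) (nat_lit 124) (.e (nat_lit 557107) (nat_lit 15) (.e (nat_lit 188450) (nat_lit 23) (.e (nat_lit 204817) (nat_lit 17) (.e (nat_lit 7936) (nat_lit 357) .nil))))))) (.g (nat_lit 6) .nil .nil))) 
(.lf (nat_lit 97251) (.g (nat_lit 1873) (.e (nat_lit 2854) (nat_lit 184) (.e (nat_lit 426428) (nat_lit 17) (.e (nat_lit 90174) (nat_lit 14) (.e (nat_lit 180250) (nat_lit 10) (.e (nat_lit 573480) (nat_lit 13) (.e (nat_lit 65644) (nat_lit 22) (.e (nat_lit 245766) (nat_lit 0) .nil))))))) (.g (nat_lit 4) .nil .nil)))) (.nd (nat_lit 5) 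
(.lf (nat_lit 97235) (.g (nat_lit 760) (.e (nat_lit 2852) (nat_lit 184) (.e (nat_lit 426566) (nat_lit 34) (.e (nat_lit 393253) (nat_lit 18) .nil))) .nil)) 
(.lf (nat_lit 97267) (.g (nat_lit 1692) (.e (nat_lit 2854) (nat_lit 184) (.e (nat_lit 426542) (nat_lit 29) (.e (nat_lit 352283) (nat_lit 20) (.e (nat_lit 1994) (nat_lit 137) (.e (nat_lit 663568) (nat_lit 5) (.e (nat_lit 73782) (nat_lit 32) .nil)))))) (.g (nat_lit 0) .nil .nil))))) (.nd (nat_lit 4) (.nd (nat_lit 5) 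
(.lf (nat_lit 97227) (.g (nat_lit 430) (.e (nat_lit 2852) (nat_lit 184) (.e (nat_lit 426428) (nat_lit 17) (.e (nat_lit 98048) (nat_lit 6) .nil))) .nil)) 
(.lf (nat_lit 97259) (.g (nat_lit 926) (.e (nat_lit 2854) (nat_lit 184) (.e (nat_lit 426533) (nat_lit 28) (.e (nat_lit 344076) (nat_lit 13) (.e (nat_lit 1386) (nat_lit 105) (.e (nat_lit 311357) (nat_lit 28) (.e (nat_lit 344069) (nat_lit 0) .nil)))))) (.g (nat_lit 4) .nil .nil)))) (.nd (nat_lit 5) 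
(.lf (nat_lit 97243) (.g (nat_lit 1902) (.e (nat_lit 2853) (nat_lit 184) (.e (nat_lit 426436) (nat_lit 18) (.e (nat_lit 98386) (nat_lit 32) (.e (nat_lit 475176) (nat_lit 24) (.e (nat_lit 516146) (nat_lit 9) .nil))))) .nil)) 
(.lf (nat_lit 97275) (.g (nat_lit 1989) (.e (nat_lit 2854) (nat_lit 184) (.e (nat_lit 426542) (nat_lit 29) (.e (nat_lit 352307) (nat_lit 21) (.e (nat_lit 57873) (nat_lit 264) (.e (nat_lit 1210) (nat_lit 89) (.e (nat_lit 73781) (nat_lit 32) .nil)))))) (.g (nat_lit 4) .nil .nil)))))) (.nd (nat_lit 3) (.nd (nat_lit 4) (.nd (nat_lit 5) 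
(.lf (nat_lit 97223) (.g (nat_lit 2387) (.e (nat_lit 2852) (nat_lit 184) (.e (nat_lit 426428) (nat_lit 17) (.e (nat_lit 98048) (nat_lit 5) (.e (nat_lit 73753) (nat_lit 8) (.e (nat_lit 557105) (nat_lit 14) (.e (nat_lit 180252) (nat_lit 10) (.e (nat_lit 581376) (nat_lit 0) .nil))))))) (.g (nat_lit 6) .nil .nil))) 
(.lf (nat_lit 97255) (.g (nat_lit 2363) (.e (nat_lit 2854) (nat_lit 184) (.e (nat_lit 426436) (nat_lit 18) (.e (nat_lit 98358) (nat_lit 26) (.e (nat_lit 426428) (nat_lit 17) (.e (nat_lit 90172) (nat_lit 14) .nil))))) .nil))) (.nd (nat_lit 5) 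
(.lf (nat_lit 97239) (.g (nat_lit 2369) (.e (nat_lit 2853) (nat_lit 184) (.e (nat_lit 426432) (nat_lit 17) (.e (nat_lit 98048) (nat_lit 5) (.e (nat_lit 73753) (nat_lit 8) (.e (nat_lit 557105) (nat_lit 14) (.e (nat_lit 180252) (nat_lit 10) (.e (nat_lit 581376) (nat_lit 0) .nil))))))) (.g (nat_lit 6) .nil .nil))) 
(.lf (nat_lit 97271) (.g (nat_lit 2000) (.e (nat_lit 2854) (nat_lit 184) (.e (nat_lit 426542) (nat_lit 29) (.e (nat_lit 352307) (nat_lit 21) (.e (nat_lit 57870) (nat_lit 264) (.e (nat_lit 1209) (nat_lit 89) (.e (nat_lit 73781) (nat_lit 32) .nil)))))) (.g (nat_lit 5) .nil .nil))))) (.nd (nat_lit 4) (.nd (nat_lit 5) 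
(.lf (nat_lit 97231) (.g (nat_lit 1566) (.e (nat_lit 2852) (nat_lit 184) (.e (nat_lit 426479) (nat_lit 27) (.e (nat_lit 336208) (nat_lit 12) (.e (nat_lit 385093) (nat_lit 49) (.e (nat_lit 778323) (nat_lit 5) .nil))))) .nil)) 
(.lf (nat_lit 97263) (.g (nat_lit 1084) (.e (nat_lit 2854) (nat_lit 184) (.e (nat_lit 426542) (nat_lit 29) (.e (nat_lit 352264) (nat_lit 0) (.e (nat_lit 3714) (nat_lit 227) (.e (nat_lit 786176) (nat_lit 5) (.e (nat_lit 73781) (nat_lit 32) .nil)))))) (.g (nat_lit 4) .nil .nil)))) (.nd (nat_lit 5) 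
(.lf (nat_lit 97247) (.g (nat_lit 2224) (.e (nat_lit 2854) (nat_lit 184) (.e (nat_lit 426354) (nat_lit 15) (.e (nat_lit 2031) (nat_lit 140) (.e (nat_lit 688171) (nat_lit 15) (.e (nat_lit 57478) (nat_lit 28) (.e (nat_lit 557107) (nat_lit 15) (.e (nat_lit 188459) (nat_lit 26) (.e (nat_lit 253952) (nat_lit 0) .nil)))))))) (.g (nat_lit 6) .nil .nil))) 
(.lf (nat_lit 97279) (.g (nat_lit 2274) (.e (nat_lit 2854) (nat_lit 184) (.e (nat_lit 426544) (nat_lit 30) (.e (nat_lit 360453) (nat_lit 0) (.e (nat_lit 5907) (nat_lit 320) (.e (nat_lit 1209) (nat_lit 89) (.e (nat_lit 73781) (nat_lit 32) .nil)))))) (.g (nat_lit 5) .nil .nil)))))))))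

noncomputable def tv1333 : DT := (.nd (nat_lit 0) (.nd (nat_lit 1) (.nd (nat_lit 2) (.nd (nat_lit 3) (.nd (nat_lit 4) (.nd (nat_lit 5) 
(.lf (nat_lit 97280) (.g (nat_lit 1439) (.e (nat_lit 2854) (nat_lit 184) (.e (nat_lit 426544) (nat_lit 30) (.e (nat_lit 360486) (nat_lit 18) (.e (nat_lit 671763) (nat_lit 5) (.e (nat_lit 73782) (nat_lit 32) .nil))))) (.g (nat_lit 5) .nil .nil))) 
(.lf (nat_lit 97312) (.g (nat_lit 1835) (.e (nat_lit 2855) (nat_lit 184) (.e (nat_lit 426542) (nat_lit 29) (.e (nat_lit 352265) (nat_lit 0) (.e (nat_lit 3631) (nat_lit 227) (.e (nat_lit 778323) (nat_lit 5) (.e (nat_lit 73781) (nat_lit 32) .nil)))))) (.g (nat_lit 5) .nil .nil)))) (.nd (nat_lit 5) 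
(.lf (nat_lit 97296) (.g (nat_lit 2624) (.e (nat_lit 2854) (nat_lit 184) (.e (nat_lit 426566) (nat_lit 34) (.e (nat_lit 393294) (nat_lit 26) (.e (nat_lit 475177) (nat_lit 24) (.e (nat_lit 516117) (nat_lit 1) .nil))))) .nil)) 
(.lf (nat_lit 97328) (.g (nat_lit 2388) (.e (nat_lit 2855) (nat_lit 184) (.e (nat_lit 426542) (nat_lit 29) (.e (nat_lit 352307) (nat_lit 21) (.e (nat_lit 57871) (nat_lit 264) (.e (nat_lit 1210) (nat_lit 89) (.e (nat_lit 73781) (nat_lit 32) .nil)))))) (.g (nat_lit 0) .nil .nil))))) (.nd (nat_lit 4) (.nd (nat_lit 5) 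
(.lf (nat_lit 97288) (.g (nat_lit 2021) (.e (nat_lit 2854) (nat_lit 184) (.e (nat_lit 426555) (nat_lit 32) (.e (nat_lit 376859) (nat_lit 21) (.e (nat_lit 57873) (nat_lit 264) (.e (nat_lit 1210) (nat_lit 89) (.e (nat_lit 73781) (nat_lit 32) .nil)))))) (.g (nat_lit 4) .nil .nil))) 
(.lf (nat_lit 97320) (.g (nat_lit 1497) (.e (nat_lit 2855) (nat_lit 184) (.e (nat_lit 426542) (nat_lit 29) (.e (nat_lit 352283) (nat_lit 20) (.e (nat_lit 1998) (nat_lit 137) (.e (nat_lit 663568) (nat_lit 5) (.e (nat_lit 73781) (nat_lit 32) .nil)))))) (.g (nat_lit 6) .nil .nil)))) (.nd (nat_lit 5) 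
(.lf (nat_lit 97304) (.g (nat_lit 2416) (.e (nat_lit 2855) (nat_lit 184) (.e (nat_lit 426402) (nat_lit 15) (.e (nat_lit 1849) (nat_lit 124) (.e (nat_lit 557108) (nat_lit 15) (.e (nat_lit 188452) (nat_lit 23) (.e (nat_lit 204821) (nat_lit 17) (.e (nat_lit 6676) (nat_lit 357) .nil))))))) (.g (nat_lit 6) .nil .nil))) 
(.lf (nat_lit 97336) (.g (nat_lit 2385) (.e (nat_lit 2855) (nat_lit 184) (.e (nat_lit 426542) (nat_lit 29) (.e (nat_lit 352309) (nat_lit 21) (.e (nat_lit 57871) (nat_lit 264) (.e (nat_lit 1209) (nat_lit 89) (.e (nat_lit 73781) (nat_lit 32) .nil)))))) (.g (nat_lit 5) .nil .nil)))))) (.nd (nat_lit 3) (.nd (nat_lit 4) (.nd (nat_lit 5) 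
(.lf (nat_lit 97284) (.g (nat_lit 1604) (.e (nat_lit 2854) (nat_lit 184) (.e (nat_lit 426546) (nat_lit 30) (.e (nat_lit 360486) (nat_lit 18) (.e (nat_lit 671763) (nat_lit 5) (.e (nat_lit 73782) (nat_lit 32) .nil))))) (.g (nat_lit 0) .nil .nil))) 
(.lf (nat_lit 97316) (.g (nat_lit 2557) (.e (nat_lit 2855) (nat_lit 184) (.e (nat_lit 426542) (nat_lit 29) (.e (nat_lit 352267) (nat_lit 0) (.e (nat_lit 3631) (nat_lit 227) (.e (nat_lit 778323) (nat_lit 5) (.e (nat_lit 73781) (nat_lit 32) .nil)))))) (.g (nat_lit 6) .nil .nil)))) (.nd (nat_lit 5) 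
(.lf (nat_lit 97300) (.g (nat_lit 2288) (.e (nat_lit 2855) (nat_lit 184) (.e (nat_lit 426354) (nat_lit 15) (.e (nat_lit 2031) (nat_lit 140) (.e (nat_lit 688171) (nat_lit 15) (.e (nat_lit 57478) (nat_lit 28) (.e (nat_lit 557107) (nat_lit 15) (.e (nat_lit 188459) (nat_lit 26) (.e (nat_lit 253953) (nat_lit 0) .nil)))))))) (.g (nat_lit 6) .nil .nil))) 
(.lf (nat_lit 97332) (.g (nat_lit 2158) (.e (nat_lit 2855) (nat_lit 184) (.e (nat_lit 426542) (nat_lit 29) (.e (nat_lit 352307) (nat_lit 21) (.e (nat_lit 57873) (nat_lit 264) (.e (nat_lit 1210) (nat_lit 89) (.e (nat_lit 73782) (nat_lit 32) .nil)))))) (.g (nat_lit 4) .nil .nil))))) (.nd (nat_lit 4) (.nd (nat_lit 5) 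
(.lf (nat_lit 97292) (.g (nat_lit 3744) (.e (nat_lit 2854) (nat_lit 184) (.e (nat_lit 426566) (nat_lit 34) (.e (nat_lit 393253) (nat_lit 18) (.e (nat_lit 164329) (nat_lit 230) .nil)))) .nil)) 
(.lf (nat_lit 97324) (.g (nat_lit 1586) (.e (nat_lit 2855) (nat_lit 184) (.e (nat_lit 426542) (nat_lit 29) (.e (nat_lit 352287) (nat_lit 20) (.e (nat_lit 1998) (nat_lit 137) (.e (nat_lit 663568) (nat_lit 5) (.e (nat_lit 73781) (nat_lit 32) .nil)))))) (.g (nat_lit 6) .nil .nil)))) (.nd (nat_lit 5) 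
(.lf (nat_lit 97308) (.g (nat_lit 2357) (.e (nat_lit 2855) (nat_lit 184) (.e (nat_lit 426479) (nat_lit 27) (.e (nat_lit 336208) (nat_lit 12) (.e (nat_lit 385094) (nat_lit 49) (.e (nat_lit 778323) (nat_lit 5) (.e (nat_lit 73782) (nat_lit 32) .nil)))))) (.g (nat_lit 6) .nil .nil))) 
(.lf (nat_lit 97340) (.g (nat_lit 1982) (.e (nat_lit 2855) (nat_lit 184) (.e (nat_lit 426542) (nat_lit 29) (.e (nat_lit 352309) (nat_lit 21) (.e (nat_lit 57873) (nat_lit 264) (.e (nat_lit 1210) (nat_lit 89) (.e (nat_lit 73781) (nat_lit 32) .nil)))))) (.g (nat_lit 4) .nil .nil))))))) (.nd (nat_lit 2) (.nd (nat_lit 3) (.nd (nat_lit 4) (.nd (nat_lit 5) 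
(.lf (nat_lit 97282) (.g (nat_lit 187) (.e (nat_lit 2854) (nat_lit 184) (.e (nat_lit 426546) (nat_lit 30) (.e (nat_lit 360455) (nat_lit 0) .nil))) .nil)) 
(.lf (nat_lit 97314) (.g (nat_lit 1896) (.e (nat_lit 2855) (nat_lit 184) (.e (nat_lit 426542) (nat_lit 29) (.e (nat_lit 352266) (nat_lit 0) (.e (nat_lit 3631) (nat_lit 227) (.e (nat_lit 778323) (nat_lit 5) (.e (nat_lit 73782) (nat_lit 32) .nil)))))) (.g (nat_lit 5) .nil .nil)))) (.nd (nat_lit 5) 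
(.lf (nat_lit 97298) (.g (nat_lit 1601) (.e (nat_lit 2854) (nat_lit 184) (.e (nat_lit 426566) (nat_lit 34) (.e (nat_lit 393296) (nat_lit 26) (.e (nat_lit 475178) (nat_lit 24) .nil)))) .nil)) 
(.lf (nat_lit 97330) (.g (nat_lit 3292) (.e (nat_lit 2855) (nat_lit 184) (.e (nat_lit 426542) (nat_lit 29) (.e (nat_lit 352307) (nat_lit 21) (.e (nat_lit 57873) (nat_lit 264) (.e (nat_lit 1209) (nat_lit 89) (.e (nat_lit 73781) (nat_lit 32) .nil)))))) (.g (nat_lit 6) .nil .nil))))) (.nd (nat_lit 4) (.nd (nat_lit 5) 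
(.lf (nat_lit 97290) (.g (nat_lit 1011) (.e (nat_lit 2854) (nat_lit 184) (.e (nat_lit 426555) (nat_lit 32) (.e (nat_lit 376870) (nat_lit 24) .nil))) .nil)) 
(.lf (nat_lit 97322) (.g (nat_lit 1781) (.e (nat_lit 2855) (nat_lit 184) (.e (nat_lit 426542) (nat_lit 29) (.e (nat_lit 352283) (nat_lit 20) (.e (nat_lit 1999) (nat_lit 137) (.e (nat_lit 663568) (nat_lit 5) (.e (nat_lit 73781) (nat_lit 32) .nil)))))) (.g (nat_lit 0) .nil .nil)))) (.nd (nat_lit 5) 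
(.lf (nat_lit 97306) (.g (nat_lit 2911) (.e (nat_lit 2855) (nat_lit 184) (.e (nat_lit 426402) (nat_lit 15) (.e (nat_lit 1859) (nat_lit 124) (.e (nat_lit 557109) (nat_lit 15) (.e (nat_lit 188452) (nat_lit 23) (.e (nat_lit 204821) (nat_lit 17) (.e (nat_lit 6676) (nat_lit 357) .nil))))))) (.g (nat_lit 6) .nil .nil))) 
(.lf (nat_lit 97338) (.g (nat_lit 2363) (.e (nat_lit 2855) (nat_lit 184) (.e (nat_lit 426542) (nat_lit 29) (.e (nat_lit 352309) (nat_lit 21) (.e (nat_lit 57872) (nat_lit 264) (.e (nat_lit 1211) (nat_lit 89) (.e (nat_lit 73781) (nat_lit 32) .nil)))))) (.g (nat_lit 0) .nil .nil)))))) (.nd (nat_lit 3) (.nd (nat_lit 4) (.nd (nat_lit 5) 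
(.lf (nat_lit 97286) (.g (nat_lit 691) (.e (nat_lit 2854) (nat_lit 184) (.e (nat_lit 426555) (nat_lit 32) (.e (nat_lit 384768) (nat_lit 8) .nil))) .nil)) 
(.lf (nat_lit 97318) (.g (nat_lit 1584) (.e (nat_lit 2855) (nat_lit 184) (.e (nat_lit 426542) (nat_lit 29) (.e (nat_lit 352283) (nat_lit 20) (.e (nat_lit 1994) (nat_lit 137) (.e (nat_lit 663568) (nat_lit 5) (.e (nat_lit 73781) (nat_lit 32) .nil)))))) (.g (nat_lit 6) .nil .nil)))) (.nd (nat_lit 5) 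
(.lf (nat_lit 97302) (.g (nat_lit 2482) (.e (nat_lit 2855) (nat_lit 184) (.e (nat_lit 426354) (nat_lit 15) (.e (nat_lit 2031) (nat_lit 140) (.e (nat_lit 688177) (nat_lit 16) (.e (nat_lit 65586) (nat_lit 7) (.e (nat_lit 319531) (nat_lit 16) (.e (nat_lit 286727) (nat_lit 0) (.e (nat_lit 6680) (nat_lit 357) .nil)))))))) (.g (nat_lit 5) .nil .nil))) 
(.lf (nat_lit 97334) (.g (nat_lit 2006) (.e (nat_lit 2855) (nat_lit 184) (.e (nat_lit 426542) (nat_lit 29) (.e (nat_lit 352309) (nat_lit 21) (.e (nat_lit 57870) (nat_lit 264) (.e (nat_lit 1210) (nat_lit 89) (.e (nat_lit 73781) (nat_lit 32) .nil)))))) (.g (nat_lit 0) .nil .nil))))) (.nd (nat_lit 4) (.nd (nat_lit 5) 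
(.lf (nat_lit 97294) (.g (nat_lit 748) (.e (nat_lit 2854) (nat_lit 184) (.e (nat_lit 426566) (nat_lit 34) (.e (nat_lit 393291) (nat_lit 26) .nil))) .nil)) 
(.lf (nat_lit 97326) (.g (nat_lit 2128) (.e (nat_lit 2855) (nat_lit 184) (.e (nat_lit 426542) (nat_lit 29) (.e (nat_lit 352307) (nat_lit 21) (.e (nat_lit 57870) (nat_lit 264) (.e (nat_lit 1211) (nat_lit 89) (.e (nat_lit 73781) (nat_lit 32) .nil)))))) (.g (nat_lit 0) .nil .nil)))) (.nd (nat_lit 5) 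
(.lf (nat_lit 97310) (.g (nat_lit 1595) (.e (nat_lit 2855) (nat_lit 184) (.e (nat_lit 426533) (nat_lit 28) (.e (nat_lit 344075) (nat_lit 13) (.e (nat_lit 1374) (nat_lit 104) (.e (nat_lit 303154) (nat_lit 28) (.e (nat_lit 344069) (nat_lit 0) .nil)))))) (.g (nat_lit 0) .nil .nil))) 
(.lf (nat_lit 97342) (.g (nat_lit 2845) (.e (nat_lit 2855) (nat_lit 184) (.e (nat_lit 426542) (nat_lit 29) (.e (nat_lit 352309) (nat_lit 21) (.e (nat_lit 57873) (nat_lit 264) (.e (nat_lit 1211) (nat_lit 89) (.e (nat_lit 73781) (nat_lit 32) .nil)))))) (.g (nat_lit 0) .nil .nil)))))))) (.nd (nat_lit 1) (.nd (nat_lit 2) (.nd (nat_lit 3) (.nd (nat_lit 4) (.nd (nat_lit 5) 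
(.lf (nat_lit 97281) (.g (nat_lit 2807) (.e (nat_lit 2854) (nat_lit 184) (.e (nat_lit 426546) (nat_lit 30) (.e (nat_lit 360452) (nat_lit 0) (.e (nat_lit 5907) (nat_lit 320) (.e (nat_lit 1209) (nat_lit 89) (.e (nat_lit 73782) (nat_lit 32) .nil)))))) (.g (nat_lit 6) .nil .nil))) 
(.lf (nat_lit 97313) (.g (nat_lit 1623) (.e (nat_lit 2855) (nat_lit 184) (.e (nat_lit 426542) (nat_lit 29) (.e (nat_lit 352266) (nat_lit 0) (.e (nat_lit 3631) (nat_lit 227) (.e (nat_lit 778323) (nat_lit 5) (.e (nat_lit 73781) (nat_lit 32) .nil)))))) (.g (nat_lit 4) .nil .nil)))) (.nd (nat_lit 5) 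
(.lf (nat_lit 97297) (.g (nat_lit 2550) (.e (nat_lit 2854) (nat_lit 184) (.e (nat_lit 426566) (nat_lit 34) (.e (nat_lit 393294) (nat_lit 26) (.e (nat_lit 475177) (nat_lit 24) (.e (nat_lit 516120) (nat_lit 1) .nil))))) .nil)) 
(.lf (nat_lit 97329) (.g (nat_lit 2353) (.e (nat_lit 2855) (nat_lit 184) (.e (nat_lit 426542) (nat_lit 29) (.e (nat_lit 352307) (nat_lit 21) (.e (nat_lit 57872) (nat_lit 264) (.e (nat_lit 1211) (nat_lit 89) (.e (nat_lit 73781) (nat_lit 32) .nil)))))) (.g (nat_lit 0) .nil .nil))))) (.nd (nat_lit 4) (.nd (nat_lit 5) 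
(.lf (nat_lit 97289) (.g (nat_lit 2017) (.e (nat_lit 2854) (nat_lit 184) (.e (nat_lit 426555) (nat_lit 32) (.e (nat_lit 376859) (nat_lit 21) (.e (nat_lit 57873) (nat_lit 264) (.e (nat_lit 1210) (nat_lit 89) (.e (nat_lit 73782) (nat_lit 32) .nil)))))) (.g (nat_lit 4) .nil .nil))) 
(.lf (nat_lit 97321) (.g (nat_lit 1734) (.e (nat_lit 2855) (nat_lit 184) (.e (nat_lit 426542) (nat_lit 29) (.e (nat_lit 352283) (nat_lit 20) (.e (nat_lit 1998) (nat_lit 137) (.e (nat_lit 663568) (nat_lit 5) (.e (nat_lit 73782) (nat_lit 32) .nil)))))) (.g (nat_lit 0) .nil .nil)))) (.nd (nat_lit 5) 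
(.lf (nat_lit 97305) (.g (nat_lit 3585) (.e (nat_lit 2855) (nat_lit 184) (.e (nat_lit 426402) (nat_lit 15) (.e (nat_lit 1849) (nat_lit 124) (.e (nat_lit 557109) (nat_lit 15) (.e (nat_lit 188452) (nat_lit 23) (.e (nat_lit 204821) (nat_lit 17) (.e (nat_lit 6680) (nat_lit 357) .nil))))))) (.g (nat_lit 7) .nil .nil))) 
(.lf (nat_lit 97337) (.g (nat_lit 2194) (.e (nat_lit 2855) (nat_lit 184) (.e (nat_lit 426542) (nat_lit 29) (.e (nat_lit 352309) (nat_lit 21) (.e (nat_lit 57871) (nat_lit 264) (.e (nat_lit 1210) (nat_lit 89) (.e (nat_lit 73781) (nat_lit 32) .nil)))))) (.g (nat_lit 0) .nil .nil)))))) (.nd (nat_lit 3) (.nd (nat_lit 4) (.nd (nat_lit 5) 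
(.lf (nat_lit 97285) (.g (nat_lit 691) (.e (nat_lit 2854) (nat_lit 184) (.e (nat_lit 426555) (nat_lit 32) (.e (nat_lit 384768) (nat_lit 4) .nil))) .nil)) 
(.lf (nat_lit 97317) (.g (nat_lit 2696) (.e (nat_lit 2855) (nat_lit 184) (.e (nat_lit 426542) (nat_lit 29) (.e (nat_lit 352267) (nat_lit 0) (.e (nat_lit 3631) (nat_lit 227) (.e (nat_lit 778323) (nat_lit 5) (.e (nat_lit 73782) (nat_lit 32) .nil)))))) (.g (nat_lit 0) .nil .nil)))) (.nd (nat_lit 5) 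
(.lf (nat_lit 97301) (.g (nat_lit 1990) (.e (nat_lit 2855) (nat_lit 184) (.e (nat_lit 426354) (nat_lit 15) (.e (nat_lit 2031) (nat_lit 140) (.e (nat_lit 688171) (nat_lit 15) (.e (nat_lit 57478) (nat_lit 28) (.e (nat_lit 557107) (nat_lit 15) (.e (nat_lit 188459) (nat_lit 26) (.e (nat_lit 253958) (nat_lit 0) .nil)))))))) (.g (nat_lit 5) .nil .nil))) 
(.lf (nat_lit 97333) (.g (nat_lit 3062) (.e (nat_lit 2855) (nat_lit 184) (.e (nat_lit 426542) (nat_lit 29) (.e (nat_lit 352307) (nat_lit 21) (.e (nat_lit 57873) (nat_lit 264) (.e (nat_lit 1211) (nat_lit 89) (.e (nat_lit 73781) (nat_lit 32) .nil)))))) (.g (nat_lit 0) .nil .nil))))) (.nd (nat_lit 4) (.nd (nat_lit 5) 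
(.lf (nat_lit 97293) (.g (nat_lit 4101) (.e (nat_lit 2854) (nat_lit 184) (.e (nat_lit 426566) (nat_lit 34) (.e (nat_lit 393253) (nat_lit 18) (.e (nat_lit 164332) (nat_lit 230) .nil)))) .nil)) 
(.lf (nat_lit 97325) (.g (nat_lit 2073) (.e (nat_lit 2855) (nat_lit 184) (.e (nat_lit 426542) (nat_lit 29) (.e (nat_lit 352307) (nat_lit 21) (.e (nat_lit 57870) (nat_lit 264) (.e (nat_lit 1210) (nat_lit 89) (.e (nat_lit 73781) (nat_lit 32) .nil)))))) (.g (nat_lit 0) .nil .nil)))) (.nd (nat_lit 5) 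
(.lf (nat_lit 97309) (.g (nat_lit 1968) (.e (nat_lit 2855) (nat_lit 184) (.e (nat_lit 426479) (nat_lit 27) (.e (nat_lit 336208) (nat_lit 12) (.e (nat_lit 385094) (nat_lit 49) (.e (nat_lit 778324) (nat_lit 5) (.e (nat_lit 73781) (nat_lit 32) .nil)))))) (.g (nat_lit 5) .nil .nil))) 
(.lf (nat_lit 97341) (.g (nat_lit 1994) (.e (nat_lit 2855) (nat_lit 184) (.e (nat_lit 426542) (nat_lit 29) (.e (nat_lit 352309) (nat_lit 21) (.e (nat_lit 57873) (nat_lit 264) (.e (nat_lit 1210) (nat_lit 89) (.e (nat_lit 73782) (nat_lit 32) .nil)))))) (.g (nat_lit 4) .nil .nil))))))) (.nd (nat_lit 2) (.nd (nat_lit 3) (.nd (nat_lit 4) (.nd (nat_lit 5) 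
(.lf (nat_lit 97283) (.g (nat_lit 1441) (.e (nat_lit 2854) (nat_lit 184) (.e (nat_lit 426546) (nat_lit 30) (.e (nat_lit 360486) (nat_lit 18) (.e (nat_lit 671763) (nat_lit 5) (.e (nat_lit 73781) (nat_lit 32) .nil))))) (.g (nat_lit 5) .nil .nil))) 
(.lf (nat_lit 97315) (.g (nat_lit 2264) (.e (nat_lit 2855) (nat_lit 184) (.e (nat_lit 426542) (nat_lit 29) (.e (nat_lit 352267) (nat_lit 0) (.e (nat_lit 3630) (nat_lit 227) (.e (nat_lit 778323) (nat_lit 5) (.e (nat_lit 73782) (nat_lit 32) .nil)))))) (.g (nat_lit 0) .nil .nil)))) (.nd (nat_lit 5) 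
(.lf (nat_lit 97299) (.g (nat_lit 3537) (.e (nat_lit 2855) (nat_lit 184) (.e (nat_lit 426354) (nat_lit 15) (.e (nat_lit 1860) (nat_lit 124) (.e (nat_lit 557100) (nat_lit 13) (.e (nat_lit 172106) (nat_lit 10) (.e (nat_lit 434231) (nat_lit 23) (.e (nat_lit 532490) (nat_lit 0) (.e (nat_lit 6680) (nat_lit 357) .nil)))))))) (.g (nat_lit 6) .nil .nil))) 
(.lf (nat_lit 97331) (.g (nat_lit 2145) (.e (nat_lit 2855) (nat_lit 184) (.e (nat_lit 426542) (nat_lit 29) (.e (nat_lit 352307) (nat_lit 21) (.e (nat_lit 57873) (nat_lit 264) (.e (nat_lit 1210) (nat_lit 89) (.e (nat_lit 73781) (nat_lit 32) .nil)))))) (.g (nat_lit 4) .nil .nil))))) (.nd (nat_lit 4) (.nd (nat_lit 5) 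
(.lf (nat_lit 97291) (.g (nat_lit 3741) (.e (nat_lit 2854) (nat_lit 184) (.e (nat_lit 426566) (nat_lit 34) (.e (nat_lit 393253) (nat_lit 18) (.e (nat_lit 164326) (nat_lit 230) .nil)))) .nil)) 
(.lf (nat_lit 97323) (.g (nat_lit 1658) (.e (nat_lit 2855) (nat_lit 184) (.e (nat_lit 426542) (nat_lit 29) (.e (nat_lit 352287) (nat_lit 20) (.e (nat_lit 1994) (nat_lit 137) (.e (nat_lit 663568) (nat_lit 5) (.e (nat_lit 73781) (nat_lit 32) .nil)))))) (.g (nat_lit 6) .nil .nil)))) (.nd (nat_lit 5) 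
(.lf (nat_lit 97307) (.g (nat_lit 2101) (.e (nat_lit 2855) (nat_lit 184) (.e (nat_lit 426479) (nat_lit 27) (.e (nat_lit 336208) (nat_lit 12) (.e (nat_lit 385094) (nat_lit 49) (.e (nat_lit 778323) (nat_lit 5) (.e (nat_lit 73781) (nat_lit 32) .nil)))))) (.g (nat_lit 5) .nil .nil))) 
(.lf (nat_lit 97339) (.g (nat_lit 3045) (.e (nat_lit 2855) (nat_lit 184) (.e (nat_lit 426542) (nat_lit 29) (.e (nat_lit 352309) (nat_lit 21) (.e (nat_lit 57873) (nat_lit 264) (.e (nat_lit 1209) (nat_lit 89) (.e (nat_lit 73781) (nat_lit 32) .nil)))))) (.g (nat_lit 6) .nil .nil)))))) (.nd (nat_lit 3) (.nd (nat_lit 4) (.nd (nat_lit 5) 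
(.lf (nat_lit 97287) (.g (nat_lit 1039) (.e (nat_lit 2854) (nat_lit 184) (.e (nat_lit 426555) (nat_lit 32) (.e (nat_lit 376843) (nat_lit 20) .nil))) .nil)) 
(.lf (nat_lit 97319) (.g (nat_lit 1845) (.e (nat_lit 2855) (nat_lit 184) (.e (nat_lit 426542) (nat_lit 29) (.e (nat_lit 352283) (nat_lit 20) (.e (nat_lit 1994) (nat_lit 137) (.e (nat_lit 663568) (nat_lit 5) (.e (nat_lit 73782) (nat_lit 32) .nil)))))) (.g (nat_lit 0) .nil .nil)))) (.nd (nat_lit 5) 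
(.lf (nat_lit 97303) (.g (nat_lit 2493) (.e (nat_lit 2855) (nat_lit 184) (.e (nat_lit 426402) (nat_lit 15) (.e (nat_lit 1849) (nat_lit 124) (.e (nat_lit 557097) (nat_lit 13) (.e (nat_lit 172097) (nat_lit 9) (.e (nat_lit 426140) (nat_lit 3) (.e (nat_lit 204821) (nat_lit 17) (.e (nat_lit 6676) (nat_lit 357) .nil)))))))) (.g (nat_lit 7) .nil .nil))) 
(.lf (nat_lit 97335) (.g (nat_lit 2064) (.e (nat_lit 2855) (nat_lit 184) (.e (nat_lit 426542) (nat_lit 29) (.e (nat_lit 352309) (nat_lit 21) (.e (nat_lit 57870) (nat_lit 264) (.e (nat_lit 1211) (nat_lit 89) (.e (nat_lit 73781) (nat_lit 32) .nil)))))) (.g (nat_lit 0) .nil .nil))))) (.nd (nat_lit 4) (.nd (nat_lit 5) 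
(.lf (nat_lit 97295) (.g (nat_lit 1250) (.e (nat_lit 2854) (nat_lit 184) (.e (nat_lit 426566) (nat_lit 34) (.e (nat_lit 393291) (nat_lit 26) (.e (nat_lit 475177) (nat_lit 24) .nil)))) .nil)) 
(.lf (nat_lit 97327) (.g (nat_lit 2489) (.e (nat_lit 2855) (nat_lit 184) (.e (nat_lit 426542) (nat_lit 29) (.e (nat_lit 352307) (nat_lit 21) (.e (nat_lit 57871) (nat_lit 264) (.e (nat_lit 1209) (nat_lit 89) (.e (nat_lit 73781) (nat_lit 32) .nil)))))) (.g (nat_lit 5) .nil .nil)))) (.nd (nat_lit 5) 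
(.lf (nat_lit 97311) (.g (nat_lit 1135) (.e (nat_lit 2855) (nat_lit 184) (.e (nat_lit 426533) (nat_lit 28) (.e (nat_lit 344075) (nat_lit 13) (.e (nat_lit 1378) (nat_lit 104) (.e (nat_lit 303154) (nat_lit 28) (.e (nat_lit 344069) (nat_lit 0) .nil)))))) (.g (nat_lit 0) .nil .nil))) 
(.lf (nat_lit 97343) (.g (nat_lit 2727) (.e (nat_lit 2855) (nat_lit 184) (.e (nat_lit 426542) (nat_lit 29) (.e (nat_lit 352316) (nat_lit 24) (.e (nat_lit 123182) (nat_lit 264) (.e (nat_lit 1212) (nat_lit 89) (.e (nat_lit 73782) (nat_lit 32) .nil)))))) (.g (nat_lit 0) .nil .nil)))))))))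

noncomputable def tv1334 : DT := (.nd (nat_lit 0) (.nd (nat_lit 1) (.nd (nat_lit 2) (.nd (nat_lit 3) (.nd (nat_lit 4) (.nd (nat_lit 5) 
(.lf (nat_lit 97344) (.g (nat_lit 2780) (.e (nat_lit 2855) (nat_lit 184) (.e (nat_lit 426542) (nat_lit 29) (.e (nat_lit 352316) (nat_lit 24) (.e (nat_lit 123182) (nat_lit 264) (.e (nat_lit 1214) (nat_lit 89) (.e (nat_lit 73781) (nat_lit 32) .nil)))))) (.g (nat_lit 6) .nil .nil))) 
(.lf (nat_lit 97376) (.g (nat_lit 4370) (.e (nat_lit 2856) (nat_lit 184) (.e (nat_lit 426354) (nat_lit 15) (.e (nat_lit 2031) (nat_lit 140) (.e (nat_lit 688171) (nat_lit 15) (.e (nat_lit 57478) (nat_lit 28) (.e (nat_lit 557109) (nat_lit 15) (.e (nat_lit 188461) (nat_lit 26) (.e (nat_lit 253953) (nat_lit 0) .nil)))))))) (.g (nat_lit 7) .nil .nil)))) (.nd (nat_lit 5) 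
(.lf (nat_lit 97360) (.g (nat_lit 2216) (.e (nat_lit 2855) (nat_lit 184) (.e (nat_lit 426555) (nat_lit 32) (.e (nat_lit 376859) (nat_lit 21) (.e (nat_lit 57873) (nat_lit 264) (.e (nat_lit 1210) (nat_lit 89) (.e (nat_lit 73781) (nat_lit 32) .nil)))))) (.g (nat_lit 4) .nil .nil))) 
(.lf (nat_lit 97392) (.g (nat_lit 2024) (.e (nat_lit 2856) (nat_lit 184) (.e (nat_lit 426402) (nat_lit 15) (.e (nat_lit 1858) (nat_lit 124) (.e (nat_lit 557101) (nat_lit 13) (.e (nat_lit 172115) (nat_lit 10) (.e (nat_lit 434227) (nat_lit 20) (.e (nat_lit 507928) (nat_lit 10) (.e (nat_lit 5710) (nat_lit 312) .nil)))))))) (.g (nat_lit 4) .nil .nil))))) (.nd (nat_lit 4) (.nd (nat_lit 5) 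
(.lf (nat_lit 97352) (.g (nat_lit 1114) (.e (nat_lit 2855) (nat_lit 184) (.e (nat_lit 426555) (nat_lit 32) (.e (nat_lit 376843) (nat_lit 20) .nil))) .nil)) 
(.lf (nat_lit 97384) (.g (nat_lit 4217) (.e (nat_lit 2856) (nat_lit 184) (.e (nat_lit 426354) (nat_lit 15) (.e (nat_lit 2031) (nat_lit 140) (.e (nat_lit 688177) (nat_lit 16) (.e (nat_lit 65586) (nat_lit 7) (.e (nat_lit 319531) (nat_lit 16) (.e (nat_lit 286727) (nat_lit 0) (.e (nat_lit 6680) (nat_lit 357) .nil)))))))) (.g (nat_lit 7) .nil .nil)))) (.nd (nat_lit 5) 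
(.lf (nat_lit 97368) (.g (nat_lit 2687) (.e (nat_lit 2856) (nat_lit 184) (.e (nat_lit 426354) (nat_lit 15) (.e (nat_lit 2031) (nat_lit 140) (.e (nat_lit 688170) (nat_lit 15) (.e (nat_lit 57478) (nat_lit 28) (.e (nat_lit 557107) (nat_lit 15) (.e (nat_lit 188459) (nat_lit 26) (.e (nat_lit 253958) (nat_lit 0) .nil)))))))) (.g (nat_lit 5) .nil .nil))) 
(.lf (nat_lit 97400) (.g (nat_lit 2431) (.e (nat_lit 2856) (nat_lit 184) (.e (nat_lit 426432) (nat_lit 17) (.e (nat_lit 98048) (nat_lit 5) (.e (nat_lit 73746) (nat_lit 3) (.e (nat_lit 516129) (nat_lit 3) (.e (nat_lit 221210) (nat_lit 22) (.e (nat_lit 196616) (nat_lit 0) .nil))))))) (.g (nat_lit 5) .nil .nil)))))) (.nd (nat_lit 3) (.nd (nat_lit 4) (.nd (nat_lit 5) 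
(.lf (nat_lit 97348) (.g (nat_lit 899) (.e (nat_lit 2855) (nat_lit 184) (.e (nat_lit 426542) (nat_lit 29) (.e (nat_lit 352318) (nat_lit 24) (.e (nat_lit 123185) (nat_lit 264) .nil)))) .nil)) 
(.lf (nat_lit 97380) (.g (nat_lit 4479) (.e (nat_lit 2856) (nat_lit 184) (.e (nat_lit 426354) (nat_lit 15) (.e (nat_lit 2031) (nat_lit 140) (.e (nat_lit 688177) (nat_lit 16) (.e (nat_lit 65583) (nat_lit 7) (.e (nat_lit 319530) (nat_lit 16) (.e (nat_lit 286727) (nat_lit 0) (.e (nat_lit 6680) (nat_lit 357) .nil)))))))) (.g (nat_lit 8) .nil .nil)))) (.nd (nat_lit 5) 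
(.lf (nat_lit 97364) (.g (nat_lit 2910) (.e (nat_lit 2856) (nat_lit 184) (.e (nat_lit 426354) (nat_lit 15) (.e (nat_lit 1860) (nat_lit 124) (.e (nat_lit 557101) (nat_lit 13) (.e (nat_lit 172097) (nat_lit 9) (.e (nat_lit 426140) (nat_lit 3) (.e (nat_lit 204821) (nat_lit 17) (.e (nat_lit 6676) (nat_lit 357) .nil)))))))) (.g (nat_lit 5) .nil .nil))) 
(.lf (nat_lit 97396) (.g (nat_lit 1930) (.e (nat_lit 2856) (nat_lit 184) (.e (nat_lit 426402) (nat_lit 15) (.e (nat_lit 2030) (nat_lit 140) (.e (nat_lit 688170) (nat_lit 15) (.e (nat_lit 57478) (nat_lit 28) (.e (nat_lit 557107) (nat_lit 15) (.e (nat_lit 188459) (nat_lit 26) (.e (nat_lit 253958) (nat_lit 0) .nil)))))))) (.g (nat_lit 4) .nil .nil))))) (.nd (nat_lit 4) (.nd (nat_lit 5) 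
(.lf (nat_lit 97356) (.g (nat_lit 2156) (.e (nat_lit 2855) (nat_lit 184) (.e (nat_lit 426555) (nat_lit 32) (.e (nat_lit 376857) (nat_lit 21) (.e (nat_lit 57873) (nat_lit 264) (.e (nat_lit 1210) (nat_lit 89) (.e (nat_lit 73782) (nat_lit 32) .nil)))))) (.g (nat_lit 4) .nil .nil))) 
(.lf (nat_lit 97388) (.g (nat_lit 3430) (.e (nat_lit 2856) (nat_lit 184) (.e (nat_lit 426392) (nat_lit 15) (.e (nat_lit 1853) (nat_lit 124) (.e (nat_lit 557108) (nat_lit 15) (.e (nat_lit 188452) (nat_lit 23) (.e (nat_lit 204821) (nat_lit 17) (.e (nat_lit 6680) (nat_lit 357) .nil))))))) (.g (nat_lit 6) .nil .nil)))) (.nd (nat_lit 5) 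
(.lf (nat_lit 97372) (.g (nat_lit 3722) (.e (nat_lit 2856) (nat_lit 184) (.e (nat_lit 426354) (nat_lit 15) (.e (nat_lit 2031) (nat_lit 140) (.e (nat_lit 688171) (nat_lit 15) (.e (nat_lit 57478) (nat_lit 28) (.e (nat_lit 557107) (nat_lit 15) (.e (nat_lit 188459) (nat_lit 26) (.e (nat_lit 253953) (nat_lit 0) .nil)))))))) (.g (nat_lit 8) .nil .nil))) 
(.lf (nat_lit 97404) (.g (nat_lit 3125) (.e (nat_lit 2856) (nat_lit 184) (.e (nat_lit 426472) (nat_lit 25) (.e (nat_lit 319530) (nat_lit 16) (.e (nat_lit 286761) (nat_lit 13) (.e (nat_lit 393234) (nat_lit 17) (.e (nat_lit 2398) (nat_lit 157) (.e (nat_lit 4460) (nat_lit 263) (.e (nat_lit 2515) (nat_lit 157) .nil)))))))) (.g (nat_lit 5) .nil .nil))))))) 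
(.nd (nat_lit 2) (.nd (nat_lit 3) (.nd (nat_lit 4) (.nd (nat_lit 5) 
(.lf (nat_lit 97346) (.g (nat_lit 2583) (.e (nat_lit 2855) (nat_lit 184) (.e (nat_lit 426542) (nat_lit 29) (.e (nat_lit 352316) (nat_lit 24) (.e (nat_lit 123184) (nat_lit 264) (.e (nat_lit 1212) (nat_lit 89) (.e (nat_lit 73782) (nat_lit 32) .nil)))))) (.g (nat_lit 0) .nil .nil))) 
(.lf (nat_lit 97378) (.g (nat_lit 3176) (.e (nat_lit 2856) (nat_lit 184) (.e (nat_lit 426354) (nat_lit 15) (.e (nat_lit 2031) (nat_lit 140) (.e (nat_lit 688171) (nat_lit 15) (.e (nat_lit 57480) (nat_lit 28) (.e (nat_lit 557107) (nat_lit 15) (.e (nat_lit 188459) (nat_lit 26) (.e (nat_lit 253957) (nat_lit 0) .nil)))))))) (.g (nat_lit 5) .nil .nil)))) (.nd (nat_lit 5) 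
(.lf (nat_lit 97362) (.g (nat_lit 760) (.e (nat_lit 2855) (nat_lit 184) (.e (nat_lit 426566) (nat_lit 34) (.e (nat_lit 393253) (nat_lit 18) .nil))) .nil)) 
(.lf (nat_lit 97394) (.g (nat_lit 3608) (.e (nat_lit 2856) (nat_lit 184) (.e (nat_lit 426402) (nat_lit 15) (.e (nat_lit 1859) (nat_lit 124) (.e (nat_lit 557109) (nat_lit 15) (.e (nat_lit 188450) (nat_lit 23) (.e (nat_lit 204821) (nat_lit 17) (.e (nat_lit 6680) (nat_lit 357) .nil))))))) (.g (nat_lit 5) .nil .nil))))) (.nd (nat_lit 4) (.nd (nat_lit 5) 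
(.lf (nat_lit 97354) (.g (nat_lit 2837) (.e (nat_lit 2855) (nat_lit 184) (.e (nat_lit 426555) (nat_lit 32) (.e (nat_lit 376857) (nat_lit 21) (.e (nat_lit 57872) (nat_lit 264) (.e (nat_lit 1209) (nat_lit 89) (.e (nat_lit 73781) (nat_lit 32) .nil)))))) (.g (nat_lit 5) .nil .nil))) 
(.lf (nat_lit 97386) (.g (nat_lit 2986) (.e (nat_lit 2856) (nat_lit 184) (.e (nat_lit 426392) (nat_lit 15) (.e (nat_lit 1853) (nat_lit 124) (.e (nat_lit 557108) (nat_lit 15) (.e (nat_lit 188449) (nat_lit 22) (.e (nat_lit 196661) (nat_lit 12) (.e (nat_lit 57751) (nat_lit 201) .nil))))))) (.g (nat_lit 6) .nil .nil)))) (.nd (nat_lit 5) 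
(.lf (nat_lit 97370) (.g (nat_lit 2714) (.e (nat_lit 2856) (nat_lit 184) (.e (nat_lit 426354) (nat_lit 15) (.e (nat_lit 2031) (nat_lit 140) (.e (nat_lit 688170) (nat_lit 15) (.e (nat_lit 57480) (nat_lit 28) (.e (nat_lit 557107) (nat_lit 15) (.e (nat_lit 188459) (nat_lit 26) (.e (nat_lit 253957) (nat_lit 0) .nil)))))))) (.g (nat_lit 5) .nil .nil))) 
(.lf (nat_lit 97402) (.g (nat_lit 2930) (.e (nat_lit 2856) (nat_lit 184) (.e (nat_lit 426432) (nat_lit 17) (.e (nat_lit 98048) (nat_lit 5) (.e (nat_lit 73753) (nat_lit 8) (.e (nat_lit 557103) (nat_lit 14) (.e (nat_lit 180250) (nat_lit 10) (.e (nat_lit 573441) (nat_lit 0) .nil))))))) (.g (nat_lit 5) .nil .nil)))))) (.nd (nat_lit 3) (.nd (nat_lit 4) (.nd (nat_lit 5) 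
(.lf (nat_lit 97350) (.g (nat_lit 2876) (.e (nat_lit 2855) (nat_lit 184) (.e (nat_lit 426546) (nat_lit 30) (.e (nat_lit 360452) (nat_lit 0) (.e (nat_lit 5907) (nat_lit 320) (.e (nat_lit 1209) (nat_lit 89) (.e (nat_lit 73782) (nat_lit 32) .nil)))))) (.g (nat_lit 6) .nil .nil))) 
(.lf (nat_lit 97382) (.g (nat_lit 2326) (.e (nat_lit 2856) (nat_lit 184) (.e (nat_lit 426354) (nat_lit 15) (.e (nat_lit 2031) (nat_lit 140) (.e (nat_lit 688177) (nat_lit 16) (.e (nat_lit 65586) (nat_lit 7) (.e (nat_lit 319531) (nat_lit 16) (.e (nat_lit 286720) (nat_lit 0) (.e (nat_lit 6676) (nat_lit 357) .nil)))))))) (.g (nat_lit 4) .nil .nil)))) (.nd (nat_lit 5) 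
(.lf (nat_lit 97366) (.g (nat_lit 2795) (.e (nat_lit 2856) (nat_lit 184) (.e (nat_lit 426354) (nat_lit 15) (.e (nat_lit 2031) (nat_lit 140) (.e (nat_lit 688170) (nat_lit 15) (.e (nat_lit 57478) (nat_lit 28) (.e (nat_lit 557107) (nat_lit 15) (.e (nat_lit 188459) (nat_lit 26) (.e (nat_lit 253953) (nat_lit 0) .nil)))))))) (.g (nat_lit 5) .nil .nil))) 
(.lf (nat_lit 97398) (.g (nat_lit 1978) (.e (nat_lit 2856) (nat_lit 184) (.e (nat_lit 426402) (nat_lit 15) (.e (nat_lit 2030) (nat_lit 140) (.e (nat_lit 688171) (nat_lit 15) (.e (nat_lit 57478) (nat_lit 28) (.e (nat_lit 557107) (nat_lit 15) (.e (nat_lit 188459) (nat_lit 26) (.e (nat_lit 253958) (nat_lit 0) .nil)))))))) (.g (nat_lit 4) .nil .nil))))) (.nd (nat_lit 4) (.nd (nat_lit 5) 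
(.lf (nat_lit 97358) (.g (nat_lit 3009) (.e (nat_lit 2855) (nat_lit 184) (.e (nat_lit 426555) (nat_lit 32) (.e (nat_lit 376859) (nat_lit 21) (.e (nat_lit 57870) (nat_lit 264) (.e (nat_lit 1209) (nat_lit 89) (.e (nat_lit 73782) (nat_lit 32) .nil)))))) (.g (nat_lit 6) .nil .nil))) 
(.lf (nat_lit 97390) (.g (nat_lit 3932) (.e (nat_lit 2856) (nat_lit 184) (.e (nat_lit 426402) (nat_lit 15) (.e (nat_lit 1849) (nat_lit 124) (.e (nat_lit 557109) (nat_lit 15) (.e (nat_lit 188452) (nat_lit 23) (.e (nat_lit 204821) (nat_lit 17) (.e (nat_lit 6676) (nat_lit 357) .nil))))))) (.g (nat_lit 7) .nil .nil)))) (.nd (nat_lit 5) 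
(.lf (nat_lit 97374) (.g (nat_lit 3692) (.e (nat_lit 2856) (nat_lit 184) (.e (nat_lit 426354) (nat_lit 15) (.e (nat_lit 2031) (nat_lit 140) (.e (nat_lit 688171) (nat_lit 15) (.e (nat_lit 57478) (nat_lit 28) (.e (nat_lit 557109) (nat_lit 15) (.e (nat_lit 188460) (nat_lit 26) (.e (nat_lit 253957) (nat_lit 0) .nil)))))))) (.g (nat_lit 6) .nil .nil))) 
(.lf (nat_lit 97406) (.g (nat_lit 3001) (.e (nat_lit 2856) (nat_lit 184) (.e (nat_lit 426472) (nat_lit 25) (.e (nat_lit 319530) (nat_lit 16) (.e (nat_lit 286761) (nat_lit 13) (.e (nat_lit 393234) (nat_lit 17) (.e (nat_lit 2398) (nat_lit 157) (.e (nat_lit 4464) (nat_lit 263) (.e (nat_lit 2515) (nat_lit 157) .nil)))))))) (.g (nat_lit 5) .nil .nil)))))))) 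
(.nd (nat_lit 1) (.nd (nat_lit 2) (.nd (nat_lit 3) (.nd (nat_lit 4) (.nd (nat_lit 5) 
(.lf (nat_lit 97345) (.g (nat_lit 2659) (.e (nat_lit 2855) (nat_lit 184) (.e (nat_lit 426542) (nat_lit 29) (.e (nat_lit 352316) (nat_lit 24) (.e (nat_lit 123183) (nat_lit 264) (.e (nat_lit 1212) (nat_lit 89) (.e (nat_lit 73782) (nat_lit 32) .nil)))))) (.g (nat_lit 0) .nil .nil))) 
(.lf (nat_lit 97377) (.g (nat_lit 3030) (.e (nat_lit 2856) (nat_lit 184) (.e (nat_lit 426354) (nat_lit 15) (.e (nat_lit 2031) (nat_lit 140) (.e (nat_lit 688171) (nat_lit 15) (.e (nat_lit 57480) (nat_lit 28) (.e (nat_lit 557107) (nat_lit 15) (.e (nat_lit 188459) (nat_lit 26) (.e (nat_lit 253953) (nat_lit 0) .nil)))))))) (.g (nat_lit 5) .nil .nil)))) (.nd (nat_lit 5) 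
(.lf (nat_lit 97361) (.g (nat_lit 2207) (.e (nat_lit 2855) (nat_lit 184) (.e (nat_lit 426555) (nat_lit 32) (.e (nat_lit 376859) (nat_lit 21) (.e (nat_lit 57873) (nat_lit 264) (.e (nat_lit 1210) (nat_lit 89) (.e (nat_lit 73782) (nat_lit 32) .nil)))))) (.g (nat_lit 4) .nil .nil))) 
(.lf (nat_lit 97393) (.g (nat_lit 2025) (.e (nat_lit 2856) (nat_lit 184) (.e (nat_lit 426402) (nat_lit 15) (.e (nat_lit 1859) (nat_lit 124) (.e (nat_lit 557098) (nat_lit 13) (.e (nat_lit 172115) (nat_lit 10) (.e (nat_lit 434227) (nat_lit 20) (.e (nat_lit 507928) (nat_lit 10) (.e (nat_lit 5710) (nat_lit 312) .nil)))))))) (.g (nat_lit 4) .nil .nil))))) (.nd (nat_lit 4) (.nd (nat_lit 5) 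
(.lf (nat_lit 97353) (.g (nat_lit 2715) (.e (nat_lit 2855) (nat_lit 184) (.e (nat_lit 426555) (nat_lit 32) (.e (nat_lit 376857) (nat_lit 21) (.e (nat_lit 57870) (nat_lit 264) (.e (nat_lit 1209) (nat_lit 89) (.e (nat_lit 73781) (nat_lit 32) .nil)))))) (.g (nat_lit 5) .nil .nil))) 
(.lf (nat_lit 97385) (.g (nat_lit 2343) (.e (nat_lit 2856) (nat_lit 184) (.e (nat_lit 426392) (nat_lit 15) (.e (nat_lit 1853) (nat_lit 124) (.e (nat_lit 557100) (nat_lit 13) (.e (nat_lit 172106) (nat_lit 10) (.e (nat_lit 434231) (nat_lit 23) (.e (nat_lit 532490) (nat_lit 0) (.e (nat_lit 6680) (nat_lit 357) .nil)))))))) (.g (nat_lit 4) .nil .nil)))) (.nd (nat_lit 5) 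
(.lf (nat_lit 97369) (.g (nat_lit 2568) (.e (nat_lit 2856) (nat_lit 184) (.e (nat_lit 426354) (nat_lit 15) (.e (nat_lit 2031) (nat_lit 140) (.e (nat_lit 688170) (nat_lit 15) (.e (nat_lit 57480) (nat_lit 28) (.e (nat_lit 557107) (nat_lit 15) (.e (nat_lit 188459) (nat_lit 26) (.e (nat_lit 253953) (nat_lit 0) .nil)))))))) (.g (nat_lit 5) .nil .nil))) 
(.lf (nat_lit 97401) (.g (nat_lit 2203) (.e (nat_lit 2856) (nat_lit 184) (.e (nat_lit 426432) (nat_lit 17) (.e (nat_lit 98048) (nat_lit 5) (.e (nat_lit 73746) (nat_lit 3) (.e (nat_lit 516131) (nat_lit 3) (.e (nat_lit 221212) (nat_lit 22) (.e (nat_lit 196610) (nat_lit 0) .nil))))))) (.g (nat_lit 5) .nil .nil)))))) (.nd (nat_lit 3) (.nd (nat_lit 4) (.nd (nat_lit 5) 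
(.lf (nat_lit 97349) (.g (nat_lit 2409) (.e (nat_lit 2855) (nat_lit 184) (.e (nat_lit 426544) (nat_lit 30) (.e (nat_lit 360453) (nat_lit 0) (.e (nat_lit 5907) (nat_lit 320) (.e (nat_lit 1209) (nat_lit 89) (.e (nat_lit 73781) (nat_lit 32) .nil)))))) (.g (nat_lit 5) .nil .nil))) 
(.lf (nat_lit 97381) (.g (nat_lit 2461) (.e (nat_lit 2856) (nat_lit 184) (.e (nat_lit 426354) (nat_lit 15) (.e (nat_lit 2031) (nat_lit 140) (.e (nat_lit 688177) (nat_lit 16) (.e (nat_lit 65583) (nat_lit 7) (.e (nat_lit 319530) (nat_lit 16) (.e (nat_lit 286728) (nat_lit 0) (.e (nat_lit 6676) (nat_lit 357) .nil)))))))) (.g (nat_lit 4) .nil .nil)))) (.nd (nat_lit 5) 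
(.lf (nat_lit 97365) (.g (nat_lit 3184) (.e (nat_lit 2856) (nat_lit 184) (.e (nat_lit 426354) (nat_lit 15) (.e (nat_lit 1860) (nat_lit 124) (.e (nat_lit 557101) (nat_lit 13) (.e (nat_lit 172097) (nat_lit 9) (.e (nat_lit 426140) (nat_lit 3) (.e (nat_lit 204821) (nat_lit 17) (.e (nat_lit 6680) (nat_lit 357) .nil)))))))) (.g (nat_lit 6) .nil .nil))) 
(.lf (nat_lit 97397) (.g (nat_lit 2086) (.e (nat_lit 2856) (nat_lit 184) (.e (nat_lit 426402) (nat_lit 15) (.e (nat_lit 2030) (nat_lit 140) (.e (nat_lit 688171) (nat_lit 15) (.e (nat_lit 57478) (nat_lit 28) (.e (nat_lit 557107) (nat_lit 15) (.e (nat_lit 188459) (nat_lit 26) (.e (nat_lit 253953) (nat_lit 0) .nil)))))))) (.g (nat_lit 4) .nil .nil))))) (.nd (nat_lit 4) (.nd (nat_lit 5) 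
(.lf (nat_lit 97357) (.g (nat_lit 2612) (.e (nat_lit 2855) (nat_lit 184) (.e (nat_lit 426555) (nat_lit 32) (.e (nat_lit 376859) (nat_lit 21) (.e (nat_lit 57870) (nat_lit 264) (.e (nat_lit 1209) (nat_lit 89) (.e (nat_lit 73781) (nat_lit 32) .nil)))))) (.g (nat_lit 5) .nil .nil))) 
(.lf (nat_lit 97389) (.g (nat_lit 1925) (.e (nat_lit 2856) (nat_lit 184) (.e (nat_lit 426402) (nat_lit 15) (.e (nat_lit 1848) (nat_lit 124) (.e (nat_lit 557097) (nat_lit 13) (.e (nat_lit 172115) (nat_lit 10) (.e (nat_lit 434227) (nat_lit 20) (.e (nat_lit 507928) (nat_lit 10) (.e (nat_lit 5710) (nat_lit 312) .nil)))))))) (.g (nat_lit 4) .nil .nil)))) (.nd (nat_lit 5) 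
(.lf (nat_lit 97373) (.g (nat_lit 3614) (.e (nat_lit 2856) (nat_lit 184) (.e (nat_lit 426354) (nat_lit 15) (.e (nat_lit 2031) (nat_lit 140) (.e (nat_lit 688171) (nat_lit 15) (.e (nat_lit 57478) (nat_lit 28) (.e (nat_lit 557107) (nat_lit 15) (.e (nat_lit 188459) (nat_lit 26) (.e (nat_lit 253958) (nat_lit 0) .nil)))))))) (.g (nat_lit 7) .nil .nil))) 
(.lf (nat_lit 97405) (.g (nat_lit 2969) (.e (nat_lit 2856) (nat_lit 184) (.e (nat_lit 426472) (nat_lit 25) (.e (nat_lit 319530) (nat_lit 16) (.e (nat_lit 286761) (nat_lit 13) (.e (nat_lit 393234) (nat_lit 17) (.e (nat_lit 2398) (nat_lit 157) (.e (nat_lit 4462) (nat_lit 263) (.e (nat_lit 2515) (nat_lit 157) .nil)))))))) (.g (nat_lit 5) .nil .nil))))))) 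
(.nd (nat_lit 2) (.nd (nat_lit 3) (.nd (nat_lit 4) (.nd (nat_lit 5) 
(.lf (nat_lit 97347) (.g (nat_lit 1708) (.e (nat_lit 2855) (nat_lit 184) (.e (nat_lit 426542) (nat_lit 29) (.e (nat_lit 352318) (nat_lit 24) (.e (nat_lit 123183) (nat_lit 264) (.e (nat_lit 1214) (nat_lit 89) (.e (nat_lit 73781) (nat_lit 32) .nil)))))) (.g (nat_lit 4) .nil .nil))) 
(.lf (nat_lit 97379) (.g (nat_lit 2920) (.e (nat_lit 2856) (nat_lit 184) (.e (nat_lit 426354) (nat_lit 15) (.e (nat_lit 2031) (nat_lit 140) (.e (nat_lit 688171) (nat_lit 15) (.e (nat_lit 57480) (nat_lit 28) (.e (nat_lit 557107) (nat_lit 15) (.e (nat_lit 188459) (nat_lit 26) (.e (nat_lit 253958) (nat_lit 0) .nil)))))))) (.g (nat_lit 5) .nil .nil)))) (.nd (nat_lit 5) 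
(.lf (nat_lit 97363) (.g (nat_lit 3084) (.e (nat_lit 2856) (nat_lit 184) (.e (nat_lit 426354) (nat_lit 15) (.e (nat_lit 1860) (nat_lit 124) (.e (nat_lit 557100) (nat_lit 13) (.e (nat_lit 172106) (nat_lit 10) (.e (nat_lit 434231) (nat_lit 23) (.e (nat_lit 532483) (nat_lit 0) (.e (nat_lit 6684) (nat_lit 357) .nil)))))))) (.g (nat_lit 5) .nil .nil))) 
(.lf (nat_lit 97395) (.g (nat_lit 2038) (.e (nat_lit 2856) (nat_lit 184) (.e (nat_lit 426402) (nat_lit 15) (.e (nat_lit 2030) (nat_lit 140) (.e (nat_lit 688170) (nat_lit 15) (.e (nat_lit 57478) (nat_lit 28) (.e (nat_lit 557107) (nat_lit 15) (.e (nat_lit 188459) (nat_lit 26) (.e (nat_lit 253953) (nat_lit 0) .nil)))))))) (.g (nat_lit 4) .nil .nil))))) (.nd (nat_lit 4) (.nd (nat_lit 5) 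
(.lf (nat_lit 97355) (.g (nat_lit 3234) (.e (nat_lit 2855) (nat_lit 184) (.e (nat_lit 426555) (nat_lit 32) (.e (nat_lit 376857) (nat_lit 21) (.e (nat_lit 57872) (nat_lit 264) (.e (nat_lit 1209) (nat_lit 89) (.e (nat_lit 73782) (nat_lit 32) .nil)))))) (.g (nat_lit 6) .nil .nil))) 
(.lf (nat_lit 97387) (.g (nat_lit 2992) (.e (nat_lit 2856) (nat_lit 184) (.e (nat_lit 426392) (nat_lit 15) (.e (nat_lit 1853) (nat_lit 124) (.e (nat_lit 557108) (nat_lit 15) (.e (nat_lit 188452) (nat_lit 23) (.e (nat_lit 204821) (nat_lit 17) (.e (nat_lit 6676) (nat_lit 357) .nil))))))) (.g (nat_lit 5) .nil .nil)))) (.nd (nat_lit 5) 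
(.lf (nat_lit 97371) (.g (nat_lit 2697) (.e (nat_lit 2856) (nat_lit 184) (.e (nat_lit 426354) (nat_lit 15) (.e (nat_lit 2031) (nat_lit 140) (.e (nat_lit 688171) (nat_lit 15) (.e (nat_lit 57478) (nat_lit 28) (.e (nat_lit 557107) (nat_lit 15) (.e (nat_lit 188459) (nat_lit 26) (.e (nat_lit 253952) (nat_lit 0) .nil)))))))) (.g (nat_lit 5) .nil .nil))) 
(.lf (nat_lit 97403) (.g (nat_lit 3003) (.e (nat_lit 2856) (nat_lit 184) (.e (nat_lit 426472) (nat_lit 25) (.e (nat_lit 319530) (nat_lit 16) (.e (nat_lit 286761) (nat_lit 13) (.e (nat_lit 393234) (nat_lit 17) (.e (nat_lit 2398) (nat_lit 157) (.e (nat_lit 4458) (nat_lit 263) (.e (nat_lit 2515) (nat_lit 157) .nil)))))))) (.g (nat_lit 5) .nil .nil)))))) 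
(.nd (nat_lit 3) (.nd (nat_lit 4) (.nd (nat_lit 5) 
(.lf (nat_lit 97351) (.g (nat_lit 187) (.e (nat_lit 2855) (nat_lit 184) (.e (nat_lit 426546) (nat_lit 30) (.e (nat_lit 360455) (nat_lit 0) .nil))) .nil)) 
(.lf (nat_lit 97383) (.g (nat_lit 4282) (.e (nat_lit 2856) (nat_lit 184) (.e (nat_lit 426354) (nat_lit 15) (.e (nat_lit 2031) (nat_lit 140) (.e (nat_lit 688177) (nat_lit 16) (.e (nat_lit 65586) (nat_lit 7) (.e (nat_lit 319531) (nat_lit 16) (.e (nat_lit 286727) (nat_lit 0) (.e (nat_lit 6676) (nat_lit 357) .nil)))))))) (.g (nat_lit 7) .nil .nil)))) (.nd (nat_lit 5) 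
(.lf (nat_lit 97367) (.g (nat_lit 2943) (.e (nat_lit 2856) (nat_lit 184) (.e (nat_lit 426354) (nat_lit 15) (.e (nat_lit 2031) (nat_lit 140) (.e (nat_lit 688170) (nat_lit 15) (.e (nat_lit 57478) (nat_lit 28) (.e (nat_lit 557107) (nat_lit 15) (.e (nat_lit 188459) (nat_lit 26) (.e (nat_lit 253957) (nat_lit 0) .nil)))))))) (.g (nat_lit 5) .nil .nil))) 
(.lf (nat_lit 97399) (.g (nat_lit 1884) (.e (nat_lit 2856) (nat_lit 184) (.e (nat_lit 426402) (nat_lit 15) (.e (nat_lit 2030) (nat_lit 140) (.e (nat_lit 688177) (nat_lit 16) (.e (nat_lit 65583) (nat_lit 7) (.e (nat_lit 319530) (nat_lit 16) (.e (nat_lit 286727) (nat_lit 0) (.e (nat_lit 6676) (nat_lit 357) .nil)))))))) (.g (nat_lit 4) .nil .nil))))) (.nd (nat_lit 4) (.nd (nat_lit 5) 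
(.lf (nat_lit 97359) (.g (nat_lit 2907) (.e (nat_lit 2855) (nat_lit 184) (.e (nat_lit 426555) (nat_lit 32) (.e (nat_lit 376859) (nat_lit 21) (.e (nat_lit 57872) (nat_lit 264) (.e (nat_lit 1209) (nat_lit 89) (.e (nat_lit 73781) (nat_lit 32) .nil)))))) (.g (nat_lit 5) .nil .nil))) 
(.lf (nat_lit 97391) (.g (nat_lit 4038) (.e (nat_lit 2856) (nat_lit 184) (.e (nat_lit 426402) (nat_lit 15) (.e (nat_lit 1849) (nat_lit 124) (.e (nat_lit 557109) (nat_lit 15) (.e (nat_lit 188452) (nat_lit 23) (.e (nat_lit 204821) (nat_lit 17) (.e (nat_lit 6680) (nat_lit 357) .nil))))))) (.g (nat_lit 7) .nil .nil)))) (.nd (nat_lit 5) 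
(.lf (nat_lit 97375) (.g (nat_lit 3714) (.e (nat_lit 2856) (nat_lit 184) (.e (nat_lit 426354) (nat_lit 15) (.e (nat_lit 2031) (nat_lit 140) (.e (nat_lit 688171) (nat_lit 15) (.e (nat_lit 57478) (nat_lit 28) (.e (nat_lit 557109) (nat_lit 15) (.e (nat_lit 188460) (nat_lit 26) (.e (nat_lit 253958) (nat_lit 0) .nil)))))))) (.g (nat_lit 6) .nil .nil))) 
(.lf (nat_lit 97407) (.g (nat_lit 2925) (.e (nat_lit 2856) (nat_lit 184) (.e (nat_lit 426472) (nat_lit 25) (.e (nat_lit 319530) (nat_lit 16) (.e (nat_lit 286761) (nat_lit 13) (.e (nat_lit 393234) (nat_lit 17) (.e (nat_lit 2399) (nat_lit 157) (.e (nat_lit 4439) (nat_lit 263) (.e (nat_lit 2516) (nat_lit 157) .nil)))))))) (.g (nat_lit 5) .nil .nil)))))))))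

noncomputable def tv1335 : DT := (.nd (nat_lit 0) (.nd (nat_lit 1) (.nd (nat_lit 2) (.nd (nat_lit 3) (.nd (nat_lit 4) (.nd (nat_lit 5) 
(.lf (nat_lit 97408) (.g (nat_lit 3104) (.e (nat_lit 2856) (nat_lit 184) (.e (nat_lit 426472) (nat_lit 25) (.e (nat_lit 319530) (nat_lit 16) (.e (nat_lit 286761) (nat_lit 13) (.e (nat_lit 393234) (nat_lit 17) (.e (nat_lit 2399) (nat_lit 157) (.e (nat_lit 4439) (nat_lit 263) (.e (nat_lit 2518) (nat_lit 157) .nil)))))))) (.g (nat_lit 5) .nil .nil))) 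
(.lf (nat_lit 97440) (.g (nat_lit 3790) (.e (nat_lit 2856) (nat_lit 184) (.e (nat_lit 426472) (nat_lit 25) (.e (nat_lit 319531) (nat_lit 16) (.e (nat_lit 286761) (nat_lit 13) (.e (nat_lit 393234) (nat_lit 17) (.e (nat_lit 2409) (nat_lit 157) (.e (nat_lit 4506) (nat_lit 263) (.e (nat_lit 2515) (nat_lit 157) .nil)))))))) (.g (nat_lit 5) .nil .nil)))) (.nd (nat_lit 5) 
(.lf (nat_lit 97424) (.g (nat_lit 2637) (.e (nat_lit 2856) (nat_lit 184) (.e (nat_lit 426472) (nat_lit 25) (.e (nat_lit 319530) (nat_lit 16) (.e (nat_lit 286761) (nat_lit 13) (.e (nat_lit 393234) (nat_lit 17) (.e (nat_lit 3334) (nat_lit 205) (.e (nat_lit 598054) (nat_lit 13) .nil))))))) (.g (nat_lit 5) .nil .nil))) 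
(.lf (nat_lit 97456) (.g (nat_lit 2079) (.e (nat_lit 2856) (nat_lit 184) (.e (nat_lit 426479) (nat_lit 27) (.e (nat_lit 336208) (nat_lit 12) (.e (nat_lit 385093) (nat_lit 49) (.e (nat_lit 778323) (nat_lit 5) (.e (nat_lit 73782) (nat_lit 32) .nil)))))) (.g (nat_lit 4) .nil .nil))))) (.nd (nat_lit 4) (.nd (nat_lit 5) 
(.lf (nat_lit 97416) (.g (nat_lit 3316) (.e (nat_lit 2856) (nat_lit 184) (.e (nat_lit 426472) (nat_lit 25) (.e (nat_lit 319530) (nat_lit 16) (.e (nat_lit 286761) (nat_lit 13) (.e (nat_lit 393234) (nat_lit 17) (.e (nat_lit 2411) (nat_lit 157) (.e (nat_lit 4462) (nat_lit 263) (.e (nat_lit 2515) (nat_lit 157) .nil)))))))) (.g (nat_lit 5) .nil .nil))) 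
(.lf (nat_lit 97448) (.g (nat_lit 3349) (.e (nat_lit 2856) (nat_lit 184) (.e (nat_lit 426472) (nat_lit 25) (.e (nat_lit 319531) (nat_lit 16) (.e (nat_lit 286761) (nat_lit 13) (.e (nat_lit 393234) (nat_lit 17) (.e (nat_lit 3333) (nat_lit 205) (.e (nat_lit 598052) (nat_lit 13) .nil))))))) (.g (nat_lit 5) .nil .nil)))) (.nd (nat_lit 5) 
(.lf (nat_lit 97432) (.g (nat_lit 3742) (.e (nat_lit 2856) (nat_lit 184) (.e (nat_lit 426472) (nat_lit 25) (.e (nat_lit 319531) (nat_lit 16) (.e (nat_lit 286761) (nat_lit 13) (.e (nat_lit 393234) (nat_lit 17) (.e (nat_lit 2399) (nat_lit 157) (.e (nat_lit 4439) (nat_lit 263) (.e (nat_lit 2516) (nat_lit 157) .nil)))))))) (.g (nat_lit 5) .nil .nil))) 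
(.lf (nat_lit 97464) (.g (nat_lit 1919) (.e (nat_lit 2856) (nat_lit 184) (.e (nat_lit 426509) (nat_lit 27) (.e (nat_lit 336110) (nat_lit 9) (.e (nat_lit 335907) (nat_lit 0) (.e (nat_lit 1994) (nat_lit 137) (.e (nat_lit 663568) (nat_lit 5) (.e (nat_lit 73782) (nat_lit 32) .nil))))))) (.g (nat_lit 5) .nil .nil)))))) (.nd (nat_lit 3) (.nd (nat_lit 4) (.nd (nat_lit 5) 
(.lf (nat_lit 97412) (.g (nat_lit 3401) (.e (nat_lit 2856) (nat_lit 184) (.e (nat_lit 426472) (nat_lit 25) (.e (nat_lit 319530) (nat_lit 16) (.e (nat_lit 286761) (nat_lit 13) (.e (nat_lit 393234) (nat_lit 17) (.e (nat_lit 2407) (nat_lit 157) (.e (nat_lit 4506) (nat_lit 263) (.e (nat_lit 2515) (nat_lit 157) .nil)))))))) (.g (nat_lit 5) .nil .nil))) 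
(.lf (nat_lit 97444) (.g (nat_lit 3901) (.e (nat_lit 2856) (nat_lit 184) (.e (nat_lit 426472) (nat_lit 25) (.e (nat_lit 319531) (nat_lit 16) (.e (nat_lit 286761) (nat_lit 13) (.e (nat_lit 393234) (nat_lit 17) (.e (nat_lit 2412) (nat_lit 157) (.e (nat_lit 4460) (nat_lit 263) (.e (nat_lit 2515) (nat_lit 157) .nil)))))))) (.g (nat_lit 5) .nil .nil)))) (.nd (nat_lit 5) 
(.lf (nat_lit 97428) (.g (nat_lit 3793) (.e (nat_lit 2856) (nat_lit 184) (.e (nat_lit 426472) (nat_lit 25) (.e (nat_lit 319531) (nat_lit 16) (.e (nat_lit 286761) (nat_lit 13) (.e (nat_lit 393234) (nat_lit 17) (.e (nat_lit 2398) (nat_lit 157) (.e (nat_lit 4458) (nat_lit 263) (.e (nat_lit 2515) (nat_lit 157) .nil)))))))) (.g (nat_lit 5) .nil .nil))) 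
(.lf (nat_lit 97460) (.g (nat_lit 2753) (.e (nat_lit 2856) (nat_lit 184) (.e (nat_lit 426495) (nat_lit 27) (.e (nat_lit 336193) (nat_lit 12) (.e (nat_lit 385093) (nat_lit 49) (.e (nat_lit 778323) (nat_lit 5) (.e (nat_lit 73782) (nat_lit 32) .nil)))))) (.g (nat_lit 5) .nil .nil))))) (.nd (nat_lit 4) (.nd (nat_lit 5) 
(.lf (nat_lit 97420) (.g (nat_lit 2726) (.e (nat_lit 2856) (nat_lit 184) (.e (nat_lit 426472) (nat_lit 25) (.e (nat_lit 319530) (nat_lit 16) (.e (nat_lit 286761) (nat_lit 13) (.e (nat_lit 393234) (nat_lit 17) (.e (nat_lit 2412) (nat_lit 157) (.e (nat_lit 4464) (nat_lit 263) (.e (nat_lit 2515) (nat_lit 157) .nil)))))))) (.g (nat_lit 5) .nil .nil))) 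
(.lf (nat_lit 97452) (.g (nat_lit 2375) (.e (nat_lit 2856) (nat_lit 184) (.e (nat_lit 426472) (nat_lit 25) (.e (nat_lit 319531) (nat_lit 16) (.e (nat_lit 286761) (nat_lit 13) (.e (nat_lit 393237) (nat_lit 17) (.e (nat_lit 3335) (nat_lit 205) (.e (nat_lit 598054) (nat_lit 13) .nil))))))) (.g (nat_lit 4) .nil .nil)))) (.nd (nat_lit 5) 
(.lf (nat_lit 97436) (.g (nat_lit 3555) (.e (nat_lit 2856) (nat_lit 184) (.e (nat_lit 426472) (nat_lit 25) (.e (nat_lit 319531) (nat_lit 16) (.e (nat_lit 286761) (nat_lit 13) (.e (nat_lit 393234) (nat_lit 17) (.e (nat_lit 2401) (nat_lit 157) (.e (nat_lit 4462) (nat_lit 263) (.e (nat_lit 2515) (nat_lit 157) .nil)))))))) (.g (nat_lit 5) .nil .nil))) 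
(.lf (nat_lit 97468) (.g (nat_lit 1359) (.e (nat_lit 2856) (nat_lit 184) (.e (nat_lit 426509) (nat_lit 27) (.e (nat_lit 336111) (nat_lit 9) (.e (nat_lit 335907) (nat_lit 0) (.e (nat_lit 1996) (nat_lit 137) (.e (nat_lit 663568) (nat_lit 5) (.e (nat_lit 73781) (nat_lit 32) .nil))))))) (.g (nat_lit 4) .nil .nil))))))) (.nd (nat_lit 2) (.nd (nat_lit 3) (.nd (nat_lit 4) (.nd (nat_lit 5) 
(.lf (nat_lit 97410) (.g (nat_lit 2780) (.e (nat_lit 2856) (nat_lit 184) (.e (nat_lit 426472) (nat_lit 25) (.e (nat_lit 319530) (nat_lit 16) (.e (nat_lit 286761) (nat_lit 13) (.e (nat_lit 393234) (nat_lit 17) (.e (nat_lit 2405) (nat_lit 157) (.e (nat_lit 4490) (nat_lit 263) (.e (nat_lit 2513) (nat_lit 157) .nil)))))))) (.g (nat_lit 5) .nil .nil))) 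
(.lf (nat_lit 97442) (.g (nat_lit 4237) (.e (nat_lit 2856) (nat_lit 184) (.e (nat_lit 426472) (nat_lit 25) (.e (nat_lit 319531) (nat_lit 16) (.e (nat_lit 286761) (nat_lit 13) (.e (nat_lit 393234) (nat_lit 17) (.e (nat_lit 2411) (nat_lit 157) (.e (nat_lit 4462) (nat_lit 263) (.e (nat_lit 2515) (nat_lit 157) .nil)))))))) (.g (nat_lit 5) .nil .nil)))) (.nd (nat_lit 5) 
(.lf (nat_lit 97426) (.g (nat_lit 2447) (.e (nat_lit 2856) (nat_lit 184) (.e (nat_lit 426472) (nat_lit 25) (.e (nat_lit 319531) (nat_lit 16) (.e (nat_lit 286748) (nat_lit 9) (.e (nat_lit 336389) (nat_lit 27) (.e (nat_lit 426012) (nat_lit 0) (.e (nat_lit 3334) (nat_lit 205) (.e (nat_lit 598052) (nat_lit 13) .nil)))))))) (.g (nat_lit 6) .nil .nil))) 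
(.lf (nat_lit 97458) (.g (nat_lit 2666) (.e (nat_lit 2856) (nat_lit 184) (.e (nat_lit 426493) (nat_lit 27) (.e (nat_lit 336193) (nat_lit 12) (.e (nat_lit 385093) (nat_lit 49) (.e (nat_lit 778323) (nat_lit 5) (.e (nat_lit 73781) (nat_lit 32) .nil)))))) (.g (nat_lit 5) .nil .nil))))) (.nd (nat_lit 4) (.nd (nat_lit 5) 
(.lf (nat_lit 97418) (.g (nat_lit 2987) (.e (nat_lit 2856) (nat_lit 184) (.e (nat_lit 426472) (nat_lit 25) (.e (nat_lit 319530) (nat_lit 16) (.e (nat_lit 286761) (nat_lit 13) (.e (nat_lit 393234) (nat_lit 17) (.e (nat_lit 2412) (nat_lit 157) (.e (nat_lit 4460) (nat_lit 263) (.e (nat_lit 2515) (nat_lit 157) .nil)))))))) (.g (nat_lit 5) .nil .nil))) 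
(.lf (nat_lit 97450) (.g (nat_lit 3763) (.e (nat_lit 2856) (nat_lit 184) (.e (nat_lit 426472) (nat_lit 25) (.e (nat_lit 319531) (nat_lit 16) (.e (nat_lit 286761) (nat_lit 13) (.e (nat_lit 393234) (nat_lit 17) (.e (nat_lit 3334) (nat_lit 205) (.e (nat_lit 598052) (nat_lit 13) .nil))))))) (.g (nat_lit 5) .nil .nil)))) (.nd (nat_lit 5) 
(.lf (nat_lit 97434) (.g (nat_lit 3576) (.e (nat_lit 2856) (nat_lit 184) (.e (nat_lit 426472) (nat_lit 25) (.e (nat_lit 319531) (nat_lit 16) (.e (nat_lit 286761) (nat_lit 13) (.e (nat_lit 393234) (nat_lit 17) (.e (nat_lit 2401) (nat_lit 157) (.e (nat_lit 4458) (nat_lit 263) (.e (nat_lit 2515) (nat_lit 157) .nil)))))))) (.g (nat_lit 5) .nil .nil))) 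
(.lf (nat_lit 97466) (.g (nat_lit 1768) (.e (nat_lit 2856) (nat_lit 184) (.e (nat_lit 426509) (nat_lit 27) (.e (nat_lit 336110) (nat_lit 9) (.e (nat_lit 335907) (nat_lit 0) (.e (nat_lit 1996) (nat_lit 137) (.e (nat_lit 663568) (nat_lit 5) (.e (nat_lit 73782) (nat_lit 32) .nil))))))) (.g (nat_lit 5) .nil .nil)))))) (.nd (nat_lit 3) (.nd (nat_lit 4) (.nd (nat_lit 5) 
(.lf (nat_lit 97414) (.g (nat_lit 3372) (.e (nat_lit 2856) (nat_lit 184) (.e (nat_lit 426472) (nat_lit 25) (.e (nat_lit 319530) (nat_lit 16) (.e (nat_lit 286761) (nat_lit 13) (.e (nat_lit 393234) (nat_lit 17) (.e (nat_lit 2411) (nat_lit 157) (.e (nat_lit 4458) (nat_lit 263) (.e (nat_lit 2515) (nat_lit 157) .nil)))))))) (.g (nat_lit 5) .nil .nil))) 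
(.lf (nat_lit 97446) (.g (nat_lit 3640) (.e (nat_lit 2856) (nat_lit 184) (.e (nat_lit 426472) (nat_lit 25) (.e (nat_lit 319531) (nat_lit 16) (.e (nat_lit 286761) (nat_lit 13) (.e (nat_lit 393234) (nat_lit 17) (.e (nat_lit 2412) (nat_lit 157) (.e (nat_lit 4464) (nat_lit 263) (.e (nat_lit 2515) (nat_lit 157) .nil)))))))) (.g (nat_lit 5) .nil .nil)))) (.nd (nat_lit 5) 
(.lf (nat_lit 97430) (.g (nat_lit 3759) (.e (nat_lit 2856) (nat_lit 184) (.e (nat_lit 426472) (nat_lit 25) (.e (nat_lit 319531) (nat_lit 16) (.e (nat_lit 286761) (nat_lit 13) (.e (nat_lit 393234) (nat_lit 17) (.e (nat_lit 2398) (nat_lit 157) (.e (nat_lit 4462) (nat_lit 263) (.e (nat_lit 2515) (nat_lit 157) .nil)))))))) (.g (nat_lit 5) .nil .nil))) 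
(.lf (nat_lit 97462) (.g (nat_lit 1681) (.e (nat_lit 2856) (nat_lit 184) (.e (nat_lit 426509) (nat_lit 27) (.e (nat_lit 336093) (nat_lit 9) (.e (nat_lit 335907) (nat_lit 0) (.e (nat_lit 1996) (nat_lit 137) (.e (nat_lit 663568) (nat_lit 5) (.e (nat_lit 73781) (nat_lit 32) .nil))))))) (.g (nat_lit 5) .nil .nil))))) (.nd (nat_lit 4) (.nd (nat_lit 5) 
(.lf (nat_lit 97422) (.g (nat_lit 2762) (.e (nat_lit 2856) (nat_lit 184) (.e (nat_lit 426472) (nat_lit 25) (.e (nat_lit 319530) (nat_lit 16) (.e (nat_lit 286761) (nat_lit 13) (.e (nat_lit 393234) (nat_lit 17) (.e (nat_lit 3333) (nat_lit 205) (.e (nat_lit 598054) (nat_lit 13) .nil))))))) (.g (nat_lit 5) .nil .nil))) 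
(.lf (nat_lit 97454) (.g (nat_lit 2158) (.e (nat_lit 2856) (nat_lit 184) (.e (nat_lit 426472) (nat_lit 25) (.e (nat_lit 319531) (nat_lit 16) (.e (nat_lit 286761) (nat_lit 13) (.e (nat_lit 393237) (nat_lit 17) (.e (nat_lit 3342) (nat_lit 205) (.e (nat_lit 598052) (nat_lit 13) .nil))))))) (.g (nat_lit 4) .nil .nil)))) (.nd (nat_lit 5) 
(.lf (nat_lit 97438) (.g (nat_lit 3368) (.e (nat_lit 2856) (nat_lit 184) (.e (nat_lit 426472) (nat_lit 25) (.e (nat_lit 319531) (nat_lit 16) (.e (nat_lit 286761) (nat_lit 13) (.e (nat_lit 393234) (nat_lit 17) (.e (nat_lit 2405) (nat_lit 157) (.e (nat_lit 4490) (nat_lit 263) (.e (nat_lit 2517) (nat_lit 157) .nil)))))))) (.g (nat_lit 5) .nil .nil))) 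
(.lf (nat_lit 97470) (.g (nat_lit 1400) (.e (nat_lit 2856) (nat_lit 184) (.e (nat_lit 426509) (nat_lit 27) (.e (nat_lit 336173) (nat_lit 10) (.e (nat_lit 344169) (nat_lit 40) (.e (nat_lit 671763) (nat_lit 5) .nil))))) .nil))))))) (.nd (nat_lit 1) (.nd (nat_lit 2) (.nd (nat_lit 3) (.nd (nat_lit 4) (.nd (nat_lit 5) 
(.lf (nat_lit 97409) (.g (nat_lit 2872) (.e (nat_lit 2856) (nat_lit 184) (.e (nat_lit 426472) (nat_lit 25) (.e (nat_lit 319530) (nat_lit 16) (.e (nat_lit 286761) (nat_lit 13) (.e (nat_lit 393234) (nat_lit 17) (.e (nat_lit 2401) (nat_lit 157) (.e (nat_lit 4460) (nat_lit 263) (.e (nat_lit 2515) (nat_lit 157) .nil)))))))) (.g (nat_lit 5) .nil .nil))) 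
(.lf (nat_lit 97441) (.g (nat_lit 3541) (.e (nat_lit 2856) (nat_lit 184) (.e (nat_lit 426472) (nat_lit 25) (.e (nat_lit 319531) (nat_lit 16) (.e (nat_lit 286761) (nat_lit 13) (.e (nat_lit 393234) (nat_lit 17) (.e (nat_lit 2411) (nat_lit 157) (.e (nat_lit 4452) (nat_lit 263) (.e (nat_lit 2515) (nat_lit 157) .nil)))))))) (.g (nat_lit 5) .nil .nil)))) (.nd (nat_lit 5) 
(.lf (nat_lit 97425) (.g (nat_lit 2040) (.e (nat_lit 2856) (nat_lit 184) (.e (nat_lit 426472) (nat_lit 25) (.e (nat_lit 319530) (nat_lit 16) (.e (nat_lit 286761) (nat_lit 13) (.e (nat_lit 393237) (nat_lit 17) (.e (nat_lit 3342) (nat_lit 205) (.e (nat_lit 598054) (nat_lit 13) .nil))))))) (.g (nat_lit 4) .nil .nil))) 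
(.lf (nat_lit 97457) (.g (nat_lit 2159) (.e (nat_lit 2856) (nat_lit 184) (.e (nat_lit 426481) (nat_lit 27) (.e (nat_lit 336205) (nat_lit 12) (.e (nat_lit 385094) (nat_lit 49) (.e (nat_lit 778324) (nat_lit 5) (.e (nat_lit 73781) (nat_lit 32) .nil)))))) (.g (nat_lit 4) .nil .nil))))) (.nd (nat_lit 4) (.nd (nat_lit 5) 
(.lf (nat_lit 97417) (.g (nat_lit 3360) (.e (nat_lit 2856) (nat_lit 184) (.e (nat_lit 426472) (nat_lit 25) (.e (nat_lit 319530) (nat_lit 16) (.e (nat_lit 286761) (nat_lit 13) (.e (nat_lit 393234) (nat_lit 17) (.e (nat_lit 2411) (nat_lit 157) (.e (nat_lit 4464) (nat_lit 263) (.e (nat_lit 2515) (nat_lit 157) .nil)))))))) (.g (nat_lit 5) .nil .nil))) 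
(.lf (nat_lit 97449) (.g (nat_lit 3692) (.e (nat_lit 2856) (nat_lit 184) (.e (nat_lit 426472) (nat_lit 25) (.e (nat_lit 319531) (nat_lit 16) (.e (nat_lit 286761) (nat_lit 13) (.e (nat_lit 393234) (nat_lit 17) (.e (nat_lit 3333) (nat_lit 205) (.e (nat_lit 598054) (nat_lit 13) .nil))))))) (.g (nat_lit 5) .nil .nil)))) (.nd (nat_lit 5) 
(.lf (nat_lit 97433) (.g (nat_lit 3921) (.e (nat_lit 2856) (nat_lit 184) (.e (nat_lit 426472) (nat_lit 25) (.e (nat_lit 319531) (nat_lit 16) (.e (nat_lit 286761) (nat_lit 13) (.e (nat_lit 393234) (nat_lit 17) (.e (nat_lit 2399) (nat_lit 157) (.e (nat_lit 4439) (nat_lit 263) (.e (nat_lit 2518) (nat_lit 157) .nil)))))))) (.g (nat_lit 5) .nil .nil))) 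
(.lf (nat_lit 97465) (.g (nat_lit 1532) (.e (nat_lit 2856) (nat_lit 184) (.e (nat_lit 426509) (nat_lit 27) (.e (nat_lit 336110) (nat_lit 9) (.e (nat_lit 335907) (nat_lit 0) (.e (nat_lit 1996) (nat_lit 137) (.e (nat_lit 663568) (nat_lit 5) (.e (nat_lit 73781) (nat_lit 32) .nil))))))) (.g (nat_lit 4) .nil .nil)))))) (.nd (nat_lit 3) (.nd (nat_lit 4) (.nd (nat_lit 5) 
(.lf (nat_lit 97413) (.g (nat_lit 3136) (.e (nat_lit 2856) (nat_lit 184) (.e (nat_lit 426472) (nat_lit 25) (.e (nat_lit 319530) (nat_lit 16) (.e (nat_lit 286761) (nat_lit 13) (.e (nat_lit 393234) (nat_lit 17) (.e (nat_lit 2409) (nat_lit 157) (.e (nat_lit 4506) (nat_lit 263) (.e (nat_lit 2515) (nat_lit 157) .nil)))))))) (.g (nat_lit 5) .nil .nil))) 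
(.lf (nat_lit 97445) (.g (nat_lit 3666) (.e (nat_lit 2856) (nat_lit 184) (.e (nat_lit 426472) (nat_lit 25) (.e (nat_lit 319531) (nat_lit 16) (.e (nat_lit 286761) (nat_lit 13) (.e (nat_lit 393234) (nat_lit 17) (.e (nat_lit 2412) (nat_lit 157) (.e (nat_lit 4462) (nat_lit 263) (.e (nat_lit 2515) (nat_lit 157) .nil)))))))) (.g (nat_lit 5) .nil .nil)))) (.nd (nat_lit 5) 
(.lf (nat_lit 97429) (.g (nat_lit 3915) (.e (nat_lit 2856) (nat_lit 184) (.e (nat_lit 426472) (nat_lit 25) (.e (nat_lit 319531) (nat_lit 16) (.e (nat_lit 286761) (nat_lit 13) (.e (nat_lit 393234) (nat_lit 17) (.e (nat_lit 2398) (nat_lit 157) (.e (nat_lit 4460) (nat_lit 263) (.e (nat_lit 2515) (nat_lit 157) .nil)))))))) (.g (nat_lit 5) .nil .nil))) 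
(.lf (nat_lit 97461) (.g (nat_lit 1816) (.e (nat_lit 2856) (nat_lit 184) (.e (nat_lit 426509) (nat_lit 27) (.e (nat_lit 336093) (nat_lit 9) (.e (nat_lit 335907) (nat_lit 0) (.e (nat_lit 1994) (nat_lit 137) (.e (nat_lit 663568) (nat_lit 5) (.e (nat_lit 73781) (nat_lit 32) .nil))))))) (.g (nat_lit 5) .nil .nil))))) (.nd (nat_lit 4) (.nd (nat_lit 5) 
(.lf (nat_lit 97421) (.g (nat_lit 3181) (.e (nat_lit 2856) (nat_lit 184) (.e (nat_lit 426472) (nat_lit 25) (.e (nat_lit 319530) (nat_lit 16) (.e (nat_lit 286761) (nat_lit 13) (.e (nat_lit 393234) (nat_lit 17) (.e (nat_lit 2415) (nat_lit 157) (.e (nat_lit 4506) (nat_lit 263) (.e (nat_lit 2515) (nat_lit 157) .nil)))))))) (.g (nat_lit 5) .nil .nil))) 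
(.lf (nat_lit 97453) (.g (nat_lit 2102) (.e (nat_lit 2856) (nat_lit 184) (.e (nat_lit 426472) (nat_lit 25) (.e (nat_lit 319531) (nat_lit 16) (.e (nat_lit 286761) (nat_lit 13) (.e (nat_lit 393237) (nat_lit 17) (.e (nat_lit 3336) (nat_lit 205) (.e (nat_lit 598054) (nat_lit 13) .nil))))))) (.g (nat_lit 4) .nil .nil)))) (.nd (nat_lit 5) 
(.lf (nat_lit 97437) (.g (nat_lit 3728) (.e (nat_lit 2856) (nat_lit 184) (.e (nat_lit 426472) (nat_lit 25) (.e (nat_lit 319531) (nat_lit 16) (.e (nat_lit 286761) (nat_lit 13) (.e (nat_lit 393234) (nat_lit 17) (.e (nat_lit 2405) (nat_lit 157) (.e (nat_lit 4490) (nat_lit 263) (.e (nat_lit 2513) (nat_lit 157) .nil)))))))) (.g (nat_lit 5) .nil .nil))) 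
(.lf (nat_lit 97469) (.g (nat_lit 1595) (.e (nat_lit 2856) (nat_lit 184) (.e (nat_lit 426509) (nat_lit 27) (.e (nat_lit 336111) (nat_lit 9) (.e (nat_lit 335907) (nat_lit 0) (.e (nat_lit 1996) (nat_lit 137) (.e (nat_lit 663568) (nat_lit 5) (.e (nat_lit 73782) (nat_lit 32) .nil))))))) (.g (nat_lit 4) .nil .nil))))))) (.nd (nat_lit 2) (.nd (nat_lit 3) (.nd (nat_lit 4) (.nd (nat_lit 5) 
(.lf (nat_lit 97411) (.g (nat_lit 3620) (.e (nat_lit 2856) (nat_lit 184) (.e (nat_lit 426472) (nat_lit 25) (.e (nat_lit 319530) (nat_lit 16) (.e (nat_lit 286761) (nat_lit 13) (.e (nat_lit 393234) (nat_lit 17) (.e (nat_lit 2405) (nat_lit 157) (.e (nat_lit 4506) (nat_lit 263) (.e (nat_lit 2515) (nat_lit 157) .nil)))))))) (.g (nat_lit 5) .nil .nil))) 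
(.lf (nat_lit 97443) (.g (nat_lit 3606) (.e (nat_lit 2856) (nat_lit 184) (.e (nat_lit 426472) (nat_lit 25) (.e (nat_lit 319531) (nat_lit 16) (.e (nat_lit 286761) (nat_lit 13) (.e (nat_lit 393234) (nat_lit 17) (.e (nat_lit 2412) (nat_lit 157) (.e (nat_lit 4458) (nat_lit 263) (.e (nat_lit 2515) (nat_lit 157) .nil)))))))) (.g (nat_lit 5) .nil .nil)))) (.nd (nat_lit 5) 
(.lf (nat_lit 97427) (.g (nat_lit 2367) (.e (nat_lit 2856) (nat_lit 184) (.e (nat_lit 426472) (nat_lit 25) (.e (nat_lit 319531) (nat_lit 16) (.e (nat_lit 286748) (nat_lit 9) (.e (nat_lit 336389) (nat_lit 27) (.e (nat_lit 426016) (nat_lit 0) (.e (nat_lit 3336) (nat_lit 205) (.e (nat_lit 598054) (nat_lit 13) .nil)))))))) (.g (nat_lit 5) .nil .nil))) 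
(.lf (nat_lit 97459) (.g (nat_lit 2296) (.e (nat_lit 2856) (nat_lit 184) (.e (nat_lit 426495) (nat_lit 27) (.e (nat_lit 336193) (nat_lit 12) (.e (nat_lit 385093) (nat_lit 49) (.e (nat_lit 778323) (nat_lit 5) (.e (nat_lit 73781) (nat_lit 32) .nil)))))) (.g (nat_lit 4) .nil .nil))))) (.nd (nat_lit 4) (.nd (nat_lit 5) 
(.lf (nat_lit 97419) (.g (nat_lit 2752) (.e (nat_lit 2856) (nat_lit 184) (.e (nat_lit 426472) (nat_lit 25) (.e (nat_lit 319530) (nat_lit 16) (.e (nat_lit 286761) (nat_lit 13) (.e (nat_lit 393234) (nat_lit 17) (.e (nat_lit 2412) (nat_lit 157) (.e (nat_lit 4462) (nat_lit 263) (.e (nat_lit 2515) (nat_lit 157) .nil)))))))) (.g (nat_lit 5) .nil .nil))) 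
(.lf (nat_lit 97451) (.g (nat_lit 3642) (.e (nat_lit 2856) (nat_lit 184) (.e (nat_lit 426472) (nat_lit 25) (.e (nat_lit 319531) (nat_lit 16) (.e (nat_lit 286761) (nat_lit 13) (.e (nat_lit 393234) (nat_lit 17) (.e (nat_lit 3334) (nat_lit 205) (.e (nat_lit 598054) (nat_lit 13) .nil))))))) (.g (nat_lit 5) .nil .nil)))) (.nd (nat_lit 5) 
(.lf (nat_lit 97435) (.g (nat_lit 3709) (.e (nat_lit 2856) (nat_lit 184) (.e (nat_lit 426472) (nat_lit 25) (.e (nat_lit 319531) (nat_lit 16) (.e (nat_lit 286761) (nat_lit 13) (.e (nat_lit 393234) (nat_lit 17) (.e (nat_lit 2401) (nat_lit 157) (.e (nat_lit 4460) (nat_lit 263) (.e (nat_lit 2515) (nat_lit 157) .nil)))))))) (.g (nat_lit 5) .nil .nil))) 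
(.lf (nat_lit 97467) (.g (nat_lit 1447) (.e (nat_lit 2856) (nat_lit 184) (.e (nat_lit 426509) (nat_lit 27) (.e (nat_lit 336111) (nat_lit 9) (.e (nat_lit 335907) (nat_lit 0) (.e (nat_lit 1994) (nat_lit 137) (.e (nat_lit 663568) (nat_lit 5) (.e (nat_lit 73781) (nat_lit 32) .nil))))))) (.g (nat_lit 4) .nil .nil)))))) (.nd (nat_lit 3) (.nd (nat_lit 4) (.nd (nat_lit 5) 
(.lf (nat_lit 97415) (.g (nat_lit 3511) (.e (nat_lit 2856) (nat_lit 184) (.e (nat_lit 426472) (nat_lit 25) (.e (nat_lit 319530) (nat_lit 16) (.e (nat_lit 286761) (nat_lit 13) (.e (nat_lit 393234) (nat_lit 17) (.e (nat_lit 2411) (nat_lit 157) (.e (nat_lit 4460) (nat_lit 263) (.e (nat_lit 2515) (nat_lit 157) .nil)))))))) (.g (nat_lit 5) .nil .nil))) 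
(.lf (nat_lit 97447) (.g (nat_lit 3925) (.e (nat_lit 2856) (nat_lit 184) (.e (nat_lit 426472) (nat_lit 25) (.e (nat_lit 319531) (nat_lit 16) (.e (nat_lit 286761) (nat_lit 13) (.e (nat_lit 393234) (nat_lit 17) (.e (nat_lit 2415) (nat_lit 157) (.e (nat_lit 4506) (nat_lit 263) (.e (nat_lit 2515) (nat_lit 157) .nil)))))))) (.g (nat_lit 5) .nil .nil)))) (.nd (nat_lit 5) 
(.lf (nat_lit 97431) (.g (nat_lit 3791) (.e (nat_lit 2856) (nat_lit 184) (.e (nat_lit 426472) (nat_lit 25) (.e (nat_lit 319531) (nat_lit 16) (.e (nat_lit 286761) (nat_lit 13) (.e (nat_lit 393234) (nat_lit 17) (.e (nat_lit 2398) (nat_lit 157) (.e (nat_lit 4464) (nat_lit 263) (.e (nat_lit 2515) (nat_lit 157) .nil)))))))) (.g (nat_lit 5) .nil .nil))) 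
(.lf (nat_lit 97463) (.g (nat_lit 1669) (.e (nat_lit 2856) (nat_lit 184) (.e (nat_lit 426509) (nat_lit 27) (.e (nat_lit 336110) (nat_lit 9) (.e (nat_lit 335907) (nat_lit 0) (.e (nat_lit 1994) (nat_lit 137) (.e (nat_lit 663568) (nat_lit 5) (.e (nat_lit 73781) (nat_lit 32) .nil))))))) (.g (nat_lit 5) .nil .nil))))) (.nd (nat_lit 4) (.nd (nat_lit 5) 
(.lf (nat_lit 97423) (.g (nat_lit 2766) (.e (nat_lit 2856) (nat_lit 184) (.e (nat_lit 426472) (nat_lit 25) (.e (nat_lit 319530) (nat_lit 16) (.e (nat_lit 286761) (nat_lit 13) (.e (nat_lit 393234) (nat_lit 17) (.e (nat_lit 3334) (nat_lit 205) (.e (nat_lit 598052) (nat_lit 13) .nil))))))) (.g (nat_lit 5) .nil .nil))) 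
(.lf (nat_lit 97455) (.g (nat_lit 2793) (.e (nat_lit 2856) (nat_lit 184) (.e (nat_lit 426472) (nat_lit 25) (.e (nat_lit 319531) (nat_lit 16) (.e (nat_lit 286761) (nat_lit 13) (.e (nat_lit 393237) (nat_lit 17) (.e (nat_lit 3342) (nat_lit 205) (.e (nat_lit 598054) (nat_lit 13) .nil))))))) (.g (nat_lit 4) .nil .nil)))) (.nd (nat_lit 5) 
(.lf (nat_lit 97439) (.g (nat_lit 4069) (.e (nat_lit 2856) (nat_lit 184) (.e (nat_lit 426472) (nat_lit 25) (.e (nat_lit 319531) (nat_lit 16) (.e (nat_lit 286761) (nat_lit 13) (.e (nat_lit 393234) (nat_lit 17) (.e (nat_lit 2407) (nat_lit 157) (.e (nat_lit 4506) (nat_lit 263) (.e (nat_lit 2515) (nat_lit 157) .nil)))))))) (.g (nat_lit 5) .nil .nil))) 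
(.lf (nat_lit 97471) (.g (nat_lit 1403) (.e (nat_lit 2856) (nat_lit 184) (.e (nat_lit 426509) (nat_lit 27) (.e (nat_lit 336177) (nat_lit 10) (.e (nat_lit 344169) (nat_lit 40) (.e (nat_lit 671763) (nat_lit 5) (.e (nat_lit 73781) (nat_lit 32) .nil)))))) (.g (nat_lit 4) .nil .nil)))))))))

noncomputable def tv1336 : DT := (.nd (nat_lit 0) (.nd (nat_lit 1) (.nd (nat_lit 2) (.nd (nat_lit 3) (.nd (nat_lit 4) 
(.lf (nat_lit 97472) (.g (nat_lit 1438) (.e (nat_lit 2856) (nat_lit 184) (.e (nat_lit 426509) (nat_lit 27) (.e (nat_lit 336177) (nat_lit 10) (.e (nat_lit 344169) (nat_lit 40) (.e (nat_lit 671763) (nat_lit 5) (.e (nat_lit 73782) (nat_lit 32) .nil)))))) (.g (nat_lit 4) .nil .nil))) 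
(.lf (nat_lit 97488) (.g (nat_lit 1992) (.e (nat_lit 2857) (nat_lit 184) (.e (nat_lit 426354) (nat_lit 15) (.e (nat_lit 2031) (nat_lit 140) (.e (nat_lit 688171) (nat_lit 15) (.e (nat_lit 57478) (nat_lit 28) (.e (nat_lit 557107) (nat_lit 15) (.e (nat_lit 188459) (nat_lit 26) (.e (nat_lit 253952) (nat_lit 0) .nil)))))))) (.g (nat_lit 5) .nil .nil)))) (.nd (nat_lit 4) 
(.lf (nat_lit 97480) (.g (nat_lit 3442) (.e (nat_lit 2856) (nat_lit 184) (.e (nat_lit 426544) (nat_lit 30) (.e (nat_lit 360453) (nat_lit 0) (.e (nat_lit 5907) (nat_lit 320) (.e (nat_lit 1209) (nat_lit 89) (.e (nat_lit 73781) (nat_lit 32) .nil)))))) (.g (nat_lit 0) .nil .nil))) 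
(.lf (nat_lit 97496) (.g (nat_lit 2766) (.e (nat_lit 2857) (nat_lit 184) (.e (nat_lit 426402) (nat_lit 15) (.e (nat_lit 1848) (nat_lit 124) (.e (nat_lit 557107) (nat_lit 15) (.e (nat_lit 188450) (nat_lit 23) (.e (nat_lit 204821) (nat_lit 17) (.e (nat_lit 6676) (nat_lit 357) .nil))))))) (.g (nat_lit 7) .nil .nil))))) (.nd (nat_lit 3) (.nd (nat_lit 4) 
(.lf (nat_lit 97476) (.g (nat_lit 2609) (.e (nat_lit 2856) (nat_lit 184) (.e (nat_lit 426539) (nat_lit 29) (.e (nat_lit 352262) (nat_lit 0) (.e (nat_lit 3632) (nat_lit 227) (.e (nat_lit 778324) (nat_lit 5) (.e (nat_lit 73781) (nat_lit 32) .nil)))))) (.g (nat_lit 5) .nil .nil))) 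
(.lf (nat_lit 97492) (.g (nat_lit 2246) (.e (nat_lit 2857) (nat_lit 184) (.e (nat_lit 426354) (nat_lit 15) (.e (nat_lit 2031) (nat_lit 140) (.e (nat_lit 688177) (nat_lit 16) (.e (nat_lit 65583) (nat_lit 7) (.e (nat_lit 319530) (nat_lit 16) (.e (nat_lit 286727) (nat_lit 0) (.e (nat_lit 6680) (nat_lit 357) .nil)))))))) (.g (nat_lit 4) .nil .nil)))) (.nd (nat_lit 4) 
(.lf (nat_lit 97484) (.g (nat_lit 3954) (.e (nat_lit 2856) (nat_lit 184) (.e (nat_lit 426566) (nat_lit 34) (.e (nat_lit 393253) (nat_lit 18) (.e (nat_lit 164332) (nat_lit 230) .nil)))) .nil)) 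
(.lf (nat_lit 97500) (.g (nat_lit 2660) (.e (nat_lit 2857) (nat_lit 184) (.e (nat_lit 426402) (nat_lit 15) (.e (nat_lit 1859) (nat_lit 124) (.e (nat_lit 557107) (nat_lit 15) (.e (nat_lit 188450) (nat_lit 23) (.e (nat_lit 204821) (nat_lit 17) (.e (nat_lit 6676) (nat_lit 357) .nil))))))) (.g (nat_lit 7) .nil .nil)))))) (.nd (nat_lit 2) (.nd (nat_lit 3) (.nd (nat_lit 4) 
(.lf (nat_lit 97474) (.g (nat_lit 437) (.e (nat_lit 2856) (nat_lit 184) (.e (nat_lit 426530) (nat_lit 27) (.e (nat_lit 336116) (nat_lit 9) .nil))) .nil)) 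
(.lf (nat_lit 97490) (.g (nat_lit 2768) (.e (nat_lit 2857) (nat_lit 184) (.e (nat_lit 426354) (nat_lit 15) (.e (nat_lit 2031) (nat_lit 140) (.e (nat_lit 688171) (nat_lit 15) (.e (nat_lit 57478) (nat_lit 28) (.e (nat_lit 557107) (nat_lit 15) (.e (nat_lit 188459) (nat_lit 26) (.e (nat_lit 253957) (nat_lit 0) .nil)))))))) (.g (nat_lit 6) .nil .nil)))) (.nd (nat_lit 4) 
(.lf (nat_lit 97482) (.g (nat_lit 858) (.e (nat_lit 2856) (nat_lit 184) (.e (nat_lit 426555) (nat_lit 32) (.e (nat_lit 376853) (nat_lit 20) .nil))) .nil)) 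
(.lf (nat_lit 97498) (.g (nat_lit 3758) (.e (nat_lit 2857) (nat_lit 184) (.e (nat_lit 426402) (nat_lit 15) (.e (nat_lit 1849) (nat_lit 124) (.e (nat_lit 557109) (nat_lit 15) (.e (nat_lit 188452) (nat_lit 23) (.e (nat_lit 204821) (nat_lit 17) (.e (nat_lit 6676) (nat_lit 357) .nil))))))) (.g (nat_lit 6) .nil .nil))))) (.nd (nat_lit 3) (.nd (nat_lit 4) 
(.lf (nat_lit 97478) (.g (nat_lit 2307) (.e (nat_lit 2856) (nat_lit 184) (.e (nat_lit 426542) (nat_lit 29) (.e (nat_lit 352266) (nat_lit 0) (.e (nat_lit 3631) (nat_lit 227) (.e (nat_lit 778323) (nat_lit 5) (.e (nat_lit 73781) (nat_lit 32) .nil)))))) (.g (nat_lit 4) .nil .nil))) 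
(.lf (nat_lit 97494) (.g (nat_lit 1744) (.e (nat_lit 2857) (nat_lit 184) (.e (nat_lit 426364) (nat_lit 15) (.e (nat_lit 2030) (nat_lit 140) (.e (nat_lit 688171) (nat_lit 15) (.e (nat_lit 57478) (nat_lit 28) (.e (nat_lit 557107) (nat_lit 15) (.e (nat_lit 188459) (nat_lit 26) (.e (nat_lit 253953) (nat_lit 0) .nil)))))))) (.g (nat_lit 4) .nil .nil)))) (.nd (nat_lit 4) 
(.lf (nat_lit 97486) (.g (nat_lit 1900) (.e (nat_lit 2857) (nat_lit 184) (.e (nat_lit 426350) (nat_lit 15) (.e (nat_lit 2031) (nat_lit 140) (.e (nat_lit 688177) (nat_lit 16) (.e (nat_lit 65583) (nat_lit 7) (.e (nat_lit 319530) (nat_lit 16) (.e (nat_lit 286727) (nat_lit 0) (.e (nat_lit 6680) (nat_lit 357) .nil)))))))) (.g (nat_lit 4) .nil .nil))) 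
(.lf (nat_lit 97502) (.g (nat_lit 2091) (.e (nat_lit 2857) (nat_lit 184) (.e (nat_lit 426432) (nat_lit 17) (.e (nat_lit 98048) (nat_lit 5) (.e (nat_lit 73746) (nat_lit 3) (.e (nat_lit 516131) (nat_lit 3) (.e (nat_lit 221212) (nat_lit 22) (.e (nat_lit 196610) (nat_lit 0) .nil))))))) (.g (nat_lit 5) .nil .nil))))))) (.nd (nat_lit 1) (.nd (nat_lit 2) (.nd (nat_lit 3) (.nd (nat_lit 4) 
(.lf (nat_lit 97473) (.g (nat_lit 2069) (.e (nat_lit 2856) (nat_lit 184) (.e (nat_lit 426509) (nat_lit 27) (.e (nat_lit 336228) (nat_lit 14) (.e (nat_lit 401459) (nat_lit 13) (.e (nat_lit 483347) (nat_lit 17) (.e (nat_lit 6649) (nat_lit 357) .nil)))))) (.g (nat_lit 4) .nil .nil))) 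
(.lf (nat_lit 97489) (.g (nat_lit 2484) (.e (nat_lit 2857) (nat_lit 184) (.e (nat_lit 426354) (nat_lit 15) (.e (nat_lit 2031) (nat_lit 140) (.e (nat_lit 688171) (nat_lit 15) (.e (nat_lit 57478) (nat_lit 28) (.e (nat_lit 557107) (nat_lit 15) (.e (nat_lit 188459) (nat_lit 26) (.e (nat_lit 253953) (nat_lit 0) .nil)))))))) (.g (nat_lit 6) .nil .nil)))) (.nd (nat_lit 4) 
(.lf (nat_lit 97481) (.g (nat_lit 2840) (.e (nat_lit 2856) (nat_lit 184) (.e (nat_lit 426555) (nat_lit 32) (.e (nat_lit 376834) (nat_lit 0) (.e (nat_lit 3632) (nat_lit 227) (.e (nat_lit 778324) (nat_lit 5) (.e (nat_lit 73781) (nat_lit 32) .nil)))))) (.g (nat_lit 5) .nil .nil))) 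
(.lf (nat_lit 97497) (.g (nat_lit 2591) (.e (nat_lit 2857) (nat_lit 184) (.e (nat_lit 426402) (nat_lit 15) (.e (nat_lit 1849) (nat_lit 124) (.e (nat_lit 557107) (nat_lit 15) (.e (nat_lit 188450) (nat_lit 23) (.e (nat_lit 204821) (nat_lit 17) (.e (nat_lit 6676) (nat_lit 357) .nil))))))) (.g (nat_lit 7) .nil .nil))))) (.nd (nat_lit 3) (.nd (nat_lit 4) 
(.lf (nat_lit 97477) (.g (nat_lit 2178) (.e (nat_lit 2856) (nat_lit 184) (.e (nat_lit 426542) (nat_lit 29) (.e (nat_lit 352265) (nat_lit 0) (.e (nat_lit 3631) (nat_lit 227) (.e (nat_lit 778323) (nat_lit 5) (.e (nat_lit 73781) (nat_lit 32) .nil)))))) (.g (nat_lit 5) .nil .nil))) 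
(.lf (nat_lit 97493) (.g (nat_lit 1984) (.e (nat_lit 2857) (nat_lit 184) (.e (nat_lit 426354) (nat_lit 15) (.e (nat_lit 2031) (nat_lit 140) (.e (nat_lit 688177) (nat_lit 16) (.e (nat_lit 65586) (nat_lit 7) (.e (nat_lit 319531) (nat_lit 16) (.e (nat_lit 286727) (nat_lit 0) (.e (nat_lit 6680) (nat_lit 357) .nil)))))))) (.g (nat_lit 4) .nil .nil)))) (.nd (nat_lit 4) 
(.lf (nat_lit 97485) (.g (nat_lit 1558) (.e (nat_lit 2857) (nat_lit 184) (.e (nat_lit 426350) (nat_lit 15) (.e (nat_lit 2031) (nat_lit 140) (.e (nat_lit 688171) (nat_lit 15) (.e (nat_lit 57478) (nat_lit 28) (.e (nat_lit 557107) (nat_lit 15) (.e (nat_lit 188459) (nat_lit 26) (.e (nat_lit 253952) (nat_lit 0) .nil)))))))) (.g (nat_lit 4) .nil .nil))) 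
(.lf (nat_lit 97501) (.g (nat_lit 1986) (.e (nat_lit 2857) (nat_lit 184) (.e (nat_lit 426428) (nat_lit 17) (.e (nat_lit 98048) (nat_lit 5) (.e (nat_lit 73746) (nat_lit 3) (.e (nat_lit 516131) (nat_lit 3) (.e (nat_lit 221212) (nat_lit 22) (.e (nat_lit 196610) (nat_lit 0) .nil))))))) (.g (nat_lit 5) .nil .nil)))))) (.nd (nat_lit 2) (.nd (nat_lit 3) (.nd (nat_lit 4) 
(.lf (nat_lit 97475) (.g (nat_lit 435) (.e (nat_lit 2856) (nat_lit 184) (.e (nat_lit 426530) (nat_lit 27) (.e (nat_lit 336119) (nat_lit 9) .nil))) .nil)) 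
(.lf (nat_lit 97491) (.g (nat_lit 2069) (.e (nat_lit 2857) (nat_lit 184) (.e (nat_lit 426354) (nat_lit 15) (.e (nat_lit 2031) (nat_lit 140) (.e (nat_lit 688171) (nat_lit 15) (.e (nat_lit 57478) (nat_lit 28) (.e (nat_lit 557107) (nat_lit 15) (.e (nat_lit 188459) (nat_lit 26) (.e (nat_lit 253958) (nat_lit 0) .nil)))))))) (.g (nat_lit 5) .nil .nil)))) (.nd (nat_lit 4) 
(.lf (nat_lit 97483) (.g (nat_lit 3907) (.e (nat_lit 2856) (nat_lit 184) (.e (nat_lit 426566) (nat_lit 34) (.e (nat_lit 393253) (nat_lit 18) (.e (nat_lit 164326) (nat_lit 230) .nil)))) .nil)) 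
(.lf (nat_lit 97499) (.g (nat_lit 3820) (.e (nat_lit 2857) (nat_lit 184) (.e (nat_lit 426402) (nat_lit 15) (.e (nat_lit 1849) (nat_lit 124) (.e (nat_lit 557109) (nat_lit 15) (.e (nat_lit 188452) (nat_lit 23) (.e (nat_lit 204821) (nat_lit 17) (.e (nat_lit 6680) (nat_lit 357) .nil))))))) (.g (nat_lit 7) .nil .nil))))) (.nd (nat_lit 3) (.nd (nat_lit 4) 
(.lf (nat_lit 97479) (.g (nat_lit 1382) (.e (nat_lit 2856) (nat_lit 184) (.e (nat_lit 426544) (nat_lit 30) (.e (nat_lit 360453) (nat_lit 0) (.e (nat_lit 5905) (nat_lit 320) (.e (nat_lit 1210) (nat_lit 89) .nil))))) .nil)) 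
(.lf (nat_lit 97495) (.g (nat_lit 2028) (.e (nat_lit 2857) (nat_lit 184) (.e (nat_lit 426364) (nat_lit 15) (.e (nat_lit 2030) (nat_lit 140) (.e (nat_lit 688171) (nat_lit 15) (.e (nat_lit 57478) (nat_lit 28) (.e (nat_lit 557107) (nat_lit 15) (.e (nat_lit 188459) (nat_lit 26) (.e (nat_lit 253957) (nat_lit 0) .nil)))))))) (.g (nat_lit 5) .nil .nil)))) (.nd (nat_lit 4) 
(.lf (nat_lit 97487) (.g (nat_lit 1997) (.e (nat_lit 2857) (nat_lit 184) (.e (nat_lit 426354) (nat_lit 15) (.e (nat_lit 1860) (nat_lit 124) (.e (nat_lit 557100) (nat_lit 13) (.e (nat_lit 172106) (nat_lit 10) (.e (nat_lit 434231) (nat_lit 23) (.e (nat_lit 532483) (nat_lit 0) (.e (nat_lit 6684) (nat_lit 357) .nil)))))))) (.g (nat_lit 4) .nil .nil))) 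
(.lf (nat_lit 97503) (.g (nat_lit 578) (.e (nat_lit 2857) (nat_lit 184) (.e (nat_lit 426436) (nat_lit 18) (.e (nat_lit 98335) (nat_lit 18) .nil))) .nil)))))))

noncomputable def tv1337 : DT := (.nd (nat_lit 0) (.nd (nat_lit 1) (.nd (nat_lit 2) (.nd (nat_lit 3) (.nd (nat_lit 4) 
(.lf (nat_lit 97504) (.g (nat_lit 4718) (.e (nat_lit 2857) (nat_lit 184) (.e (nat_lit 426436) (nat_lit 18) (.e (nat_lit 98335) (nat_lit 18) (.e (nat_lit 164322) (nat_lit 230) .nil)))) .nil)) 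
(.lf (nat_lit 97520) (.g (nat_lit 460) (.e (nat_lit 2857) (nat_lit 184) (.e (nat_lit 426542) (nat_lit 29) (.e (nat_lit 352265) (nat_lit 0) .nil))) .nil))) (.nd (nat_lit 4) 
(.lf (nat_lit 97512) (.g (nat_lit 2352) (.e (nat_lit 2857) (nat_lit 184) (.e (nat_lit 426479) (nat_lit 27) (.e (nat_lit 336208) (nat_lit 12) (.e (nat_lit 385093) (nat_lit 49) (.e (nat_lit 778323) (nat_lit 5) (.e (nat_lit 73782) (nat_lit 32) .nil)))))) (.g (nat_lit 5) .nil .nil))) 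
(.lf (nat_lit 97528) (.g (nat_lit 2057) (.e (nat_lit 2857) (nat_lit 184) (.e (nat_lit 426544) (nat_lit 30) (.e (nat_lit 360453) (nat_lit 0) (.e (nat_lit 5907) (nat_lit 320) (.e (nat_lit 1210) (nat_lit 89) (.e (nat_lit 73781) (nat_lit 32) .nil)))))) (.g (nat_lit 4) .nil .nil))))) (.nd (nat_lit 3) (.nd (nat_lit 4) 
(.lf (nat_lit 97508) (.g (nat_lit 4456) (.e (nat_lit 2857) (nat_lit 184) (.e (nat_lit 426436) (nat_lit 18) (.e (nat_lit 98335) (nat_lit 18) (.e (nat_lit 164327) (nat_lit 230) .nil)))) .nil)) 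
(.lf (nat_lit 97524) (.g (nat_lit 1605) (.e (nat_lit 2857) (nat_lit 184) (.e (nat_lit 426542) (nat_lit 29) (.e (nat_lit 352316) (nat_lit 24) (.e (nat_lit 123182) (nat_lit 264) (.e (nat_lit 1213) (nat_lit 89) .nil))))) .nil))) (.nd (nat_lit 4) 
(.lf (nat_lit 97516) (.g (nat_lit 584) (.e (nat_lit 2857) (nat_lit 184) (.e (nat_lit 426482) (nat_lit 27) (.e (nat_lit 336101) (nat_lit 9) .nil))) .nil)) 
(.lf (nat_lit 97532) (.g (nat_lit 3355) (.e (nat_lit 2857) (nat_lit 184) (.e (nat_lit 426546) (nat_lit 30) (.e (nat_lit 360452) (nat_lit 0) (.e (nat_lit 5907) (nat_lit 320) (.e (nat_lit 1209) (nat_lit 89) (.e (nat_lit 73782) (nat_lit 32) .nil)))))) (.g (nat_lit 0) .nil .nil)))))) (.nd (nat_lit 2) (.nd (nat_lit 3) (.nd (nat_lit 4) 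
(.lf (nat_lit 97506) (.g (nat_lit 4148) (.e (nat_lit 2857) (nat_lit 184) (.e (nat_lit 426436) (nat_lit 18) (.e (nat_lit 98335) (nat_lit 18) (.e (nat_lit 164325) (nat_lit 230) .nil)))) .nil)) 
(.lf (nat_lit 97522) (.g (nat_lit 2243) (.e (nat_lit 2857) (nat_lit 184) (.e (nat_lit 426542) (nat_lit 29) (.e (nat_lit 352283) (nat_lit 20) (.e (nat_lit 1999) (nat_lit 137) (.e (nat_lit 663568) (nat_lit 5) (.e (nat_lit 73781) (nat_lit 32) .nil)))))) (.g (nat_lit 0) .nil .nil)))) (.nd (nat_lit 4) 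
(.lf (nat_lit 97514) (.g (nat_lit 573) (.e (nat_lit 2857) (nat_lit 184) (.e (nat_lit 426482) (nat_lit 27) (.e (nat_lit 336089) (nat_lit 9) .nil))) .nil)) 
(.lf (nat_lit 97530) (.g (nat_lit 279) (.e (nat_lit 2857) (nat_lit 184) (.e (nat_lit 426544) (nat_lit 30) (.e (nat_lit 368384) (nat_lit 0) .nil))) .nil)))) (.nd (nat_lit 3) (.nd (nat_lit 4) 
(.lf (nat_lit 97510) (.g (nat_lit 4107) (.e (nat_lit 2857) (nat_lit 184) (.e (nat_lit 426436) (nat_lit 18) (.e (nat_lit 98335) (nat_lit 18) (.e (nat_lit 164330) (nat_lit 230) .nil)))) .nil)) 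
(.lf (nat_lit 97526) (.g (nat_lit 1829) (.e (nat_lit 2857) (nat_lit 184) (.e (nat_lit 426542) (nat_lit 29) (.e (nat_lit 352318) (nat_lit 24) (.e (nat_lit 123182) (nat_lit 264) (.e (nat_lit 1213) (nat_lit 89) .nil))))) .nil))) (.nd (nat_lit 4) 
(.lf (nat_lit 97518) (.g (nat_lit 1109) (.e (nat_lit 2857) (nat_lit 184) (.e (nat_lit 426533) (nat_lit 28) (.e (nat_lit 344075) (nat_lit 13) (.e (nat_lit 1374) (nat_lit 104) (.e (nat_lit 303154) (nat_lit 28) (.e (nat_lit 352000) (nat_lit 0) .nil)))))) (.g (nat_lit 4) .nil .nil))) 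
(.lf (nat_lit 97534) (.g (nat_lit 1507) (.e (nat_lit 2857) (nat_lit 184) (.e (nat_lit 426553) (nat_lit 32) (.e (nat_lit 376835) (nat_lit 0) (.e (nat_lit 3632) (nat_lit 227) (.e (nat_lit 778324) (nat_lit 5) (.e (nat_lit 73781) (nat_lit 32) .nil)))))) (.g (nat_lit 4) .nil .nil))))))) (.nd (nat_lit 1) (.nd (nat_lit 2) (.nd (nat_lit 3) (.nd (nat_lit 4) 
(.lf (nat_lit 97505) (.g (nat_lit 4171) (.e (nat_lit 2857) (nat_lit 184) (.e (nat_lit 426436) (nat_lit 18) (.e (nat_lit 98335) (nat_lit 18) (.e (nat_lit 164324) (nat_lit 230) .nil)))) .nil)) 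
(.lf (nat_lit 97521) (.g (nat_lit 2111) (.e (nat_lit 2857) (nat_lit 184) (.e (nat_lit 426542) (nat_lit 29) (.e (nat_lit 352266) (nat_lit 0) (.e (nat_lit 3631) (nat_lit 227) (.e (nat_lit 778323) (nat_lit 5) (.e (nat_lit 73782) (nat_lit 32) .nil)))))) (.g (nat_lit 5) .nil .nil)))) (.nd (nat_lit 4) 
(.lf (nat_lit 97513) (.g (nat_lit 2707) (.e (nat_lit 2857) (nat_lit 184) (.e (nat_lit 426479) (nat_lit 27) (.e (nat_lit 336208) (nat_lit 12) (.e (nat_lit 385094) (nat_lit 49) (.e (nat_lit 778323) (nat_lit 5) (.e (nat_lit 73781) (nat_lit 32) .nil)))))) (.g (nat_lit 6) .nil .nil))) 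
(.lf (nat_lit 97529) (.g (nat_lit 2058) (.e (nat_lit 2857) (nat_lit 184) (.e (nat_lit 426544) (nat_lit 30) (.e (nat_lit 360453) (nat_lit 0) (.e (nat_lit 5907) (nat_lit 320) (.e (nat_lit 1210) (nat_lit 89) (.e (nat_lit 73782) (nat_lit 32) .nil)))))) (.g (nat_lit 4) .nil .nil))))) (.nd (nat_lit 3) (.nd (nat_lit 4) 
(.lf (nat_lit 97509) (.g (nat_lit 3977) (.e (nat_lit 2857) (nat_lit 184) (.e (nat_lit 426436) (nat_lit 18) (.e (nat_lit 98335) (nat_lit 18) (.e (nat_lit 164329) (nat_lit 230) .nil)))) .nil)) 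
(.lf (nat_lit 97525) (.g (nat_lit 2275) (.e (nat_lit 2857) (nat_lit 184) (.e (nat_lit 426542) (nat_lit 29) (.e (nat_lit 352317) (nat_lit 24) (.e (nat_lit 123184) (nat_lit 264) (.e (nat_lit 1214) (nat_lit 89) (.e (nat_lit 73781) (nat_lit 32) .nil)))))) (.g (nat_lit 5) .nil .nil)))) (.nd (nat_lit 4) 
(.lf (nat_lit 97517) (.g (nat_lit 551) (.e (nat_lit 2857) (nat_lit 184) (.e (nat_lit 426489) (nat_lit 27) (.e (nat_lit 336118) (nat_lit 9) (.e (nat_lit 336331) (nat_lit 19) (.e (nat_lit 220928) (nat_lit 5) .nil))))) .nil)) 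
(.lf (nat_lit 97533) (.g (nat_lit 3030) (.e (nat_lit 2857) (nat_lit 184) (.e (nat_lit 426546) (nat_lit 30) (.e (nat_lit 360452) (nat_lit 0) (.e (nat_lit 5907) (nat_lit 320) (.e (nat_lit 1211) (nat_lit 89) (.e (nat_lit 73781) (nat_lit 32) .nil)))))) (.g (nat_lit 0) .nil .nil)))))) (.nd (nat_lit 2) (.nd (nat_lit 3) (.nd (nat_lit 4) 
(.lf (nat_lit 97507) (.g (nat_lit 4687) (.e (nat_lit 2857) (nat_lit 184) (.e (nat_lit 426436) (nat_lit 18) (.e (nat_lit 98335) (nat_lit 18) (.e (nat_lit 164326) (nat_lit 230) .nil)))) .nil)) 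
(.lf (nat_lit 97523) (.g (nat_lit 2228) (.e (nat_lit 2857) (nat_lit 184) (.e (nat_lit 426542) (nat_lit 29) (.e (nat_lit 352287) (nat_lit 20) (.e (nat_lit 1998) (nat_lit 137) (.e (nat_lit 663568) (nat_lit 5) (.e (nat_lit 73782) (nat_lit 32) .nil)))))) (.g (nat_lit 0) .nil .nil)))) (.nd (nat_lit 4) 
(.lf (nat_lit 97515) (.g (nat_lit 584) (.e (nat_lit 2857) (nat_lit 184) (.e (nat_lit 426482) (nat_lit 27) (.e (nat_lit 336093) (nat_lit 9) .nil))) .nil)) 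
(.lf (nat_lit 97531) (.g (nat_lit 3222) (.e (nat_lit 2857) (nat_lit 184) (.e (nat_lit 426546) (nat_lit 30) (.e (nat_lit 360452) (nat_lit 0) (.e (nat_lit 5907) (nat_lit 320) (.e (nat_lit 1209) (nat_lit 89) (.e (nat_lit 73781) (nat_lit 32) .nil)))))) (.g (nat_lit 0) .nil .nil))))) (.nd (nat_lit 3) (.nd (nat_lit 4) 
(.lf (nat_lit 97511) (.g (nat_lit 4140) (.e (nat_lit 2857) (nat_lit 184) (.e (nat_lit 426436) (nat_lit 18) (.e (nat_lit 98335) (nat_lit 18) (.e (nat_lit 164332) (nat_lit 230) .nil)))) .nil)) 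
(.lf (nat_lit 97527) (.g (nat_lit 2092) (.e (nat_lit 2857) (nat_lit 184) (.e (nat_lit 426542) (nat_lit 29) (.e (nat_lit 352318) (nat_lit 24) (.e (nat_lit 123183) (nat_lit 264) (.e (nat_lit 1214) (nat_lit 89) (.e (nat_lit 73781) (nat_lit 32) .nil)))))) (.g (nat_lit 4) .nil .nil)))) (.nd (nat_lit 4) 
(.lf (nat_lit 97519) (.g (nat_lit 379) (.e (nat_lit 2857) (nat_lit 184) (.e (nat_lit 426533) (nat_lit 28) (.e (nat_lit 344076) (nat_lit 13) (.e (nat_lit 1384) (nat_lit 105) .nil)))) .nil)) 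
(.lf (nat_lit 97535) (.g (nat_lit 1174) (.e (nat_lit 2857) (nat_lit 184) (.e (nat_lit 426555) (nat_lit 32) (.e (nat_lit 376837) (nat_lit 0) .nil))) .nil)))))))

noncomputable def tv1338 : DT := (.nd (nat_lit 0) (.nd (nat_lit 1) (.nd (nat_lit 2) (.nd (nat_lit 3) (.nd (nat_lit 4) (.nd (nat_lit 5) 
(.lf (nat_lit 97536) (.g (nat_lit 1174) (.e (nat_lit 2857) (nat_lit 184) (.e (nat_lit 426555) (nat_lit 32) (.e (nat_lit 376843) (nat_lit 20) .nil))) .nil)) 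
(.lf (nat_lit 97568) (.g (nat_lit 2789) (.e (nat_lit 2862) (nat_lit 184) (.e (nat_lit 426428) (nat_lit 17) (.e (nat_lit 90174) (nat_lit 14) (.e (nat_lit 180250) (nat_lit 10) (.e (nat_lit 573489) (nat_lit 14) (.e (nat_lit 73757) (nat_lit 11) (.e (nat_lit 581636) (nat_lit 0) .nil))))))) (.g (nat_lit 5) .nil .nil)))) (.nd (nat_lit 5) 
(.lf (nat_lit 97552) (.g (nat_lit 3224) (.e (nat_lit 2861) (nat_lit 184) (.e (nat_lit 426428) (nat_lit 17) (.e (nat_lit 90174) (nat_lit 14) (.e (nat_lit 180250) (nat_lit 10) (.e (nat_lit 573482) (nat_lit 13) (.e (nat_lit 65644) (nat_lit 22) (.e (nat_lit 245769) (nat_lit 0) .nil))))))) (.g (nat_lit 7) .nil .nil))) 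
(.lf (nat_lit 97584) (.g (nat_lit 1925) (.e (nat_lit 2862) (nat_lit 184) (.e (nat_lit 426543) (nat_lit 29) (.e (nat_lit 352318) (nat_lit 24) (.e (nat_lit 123184) (nat_lit 264) (.e (nat_lit 1212) (nat_lit 89) (.e (nat_lit 81664) (nat_lit 32) .nil)))))) (.g (nat_lit 5) .nil .nil))))) (.nd (nat_lit 4) (.nd (nat_lit 5) 
(.lf (nat_lit 97544) (.g (nat_lit 2374) (.e (nat_lit 2859) (nat_lit 184) (.e (nat_lit 426432) (nat_lit 17) (.e (nat_lit 98048) (nat_lit 5) (.e (nat_lit 73753) (nat_lit 8) (.e (nat_lit 557105) (nat_lit 14) (.e (nat_lit 180252) (nat_lit 10) (.e (nat_lit 581376) (nat_lit 0) .nil))))))) (.g (nat_lit 6) .nil .nil))) 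
(.lf (nat_lit 97576) (.g (nat_lit 2229) (.e (nat_lit 2862) (nat_lit 184) (.e (nat_lit 426506) (nat_lit 27) (.e (nat_lit 336178) (nat_lit 10) (.e (nat_lit 344097) (nat_lit 18) (.e (nat_lit 5907) (nat_lit 320) (.e (nat_lit 1209) (nat_lit 89) (.e (nat_lit 81664) (nat_lit 32) .nil))))))) (.g (nat_lit 6) .nil .nil)))) (.nd (nat_lit 5) 
(.lf (nat_lit 97560) (.g (nat_lit 3051) (.e (nat_lit 2862) (nat_lit 184) (.e (nat_lit 426320) (nat_lit 12) (.e (nat_lit 475185) (nat_lit 29) (.e (nat_lit 557107) (nat_lit 15) (.e (nat_lit 188440) (nat_lit 20) .nil))))) .nil)) 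
(.lf (nat_lit 97592) (.g (nat_lit 2599) (.e (nat_lit 2868) (nat_lit 184) (.e (nat_lit 426310) (nat_lit 12) (.e (nat_lit 475185) (nat_lit 29) (.e (nat_lit 557107) (nat_lit 15) (.e (nat_lit 188439) (nat_lit 20) .nil))))) .nil))))) (.nd (nat_lit 3) (.nd (nat_lit 4) (.nd (nat_lit 5) 
(.lf (nat_lit 97540) (.g (nat_lit 760) (.e (nat_lit 2857) (nat_lit 184) (.e (nat_lit 426566) (nat_lit 34) (.e (nat_lit 393253) (nat_lit 18) .nil))) .nil)) 
(.lf (nat_lit 97572) (.g (nat_lit 2608) (.e (nat_lit 2862) (nat_lit 184) (.e (nat_lit 426432) (nat_lit 17) (.e (nat_lit 98048) (nat_lit 5) (.e (nat_lit 73755) (nat_lit 8) (.e (nat_lit 557105) (nat_lit 14) (.e (nat_lit 180252) (nat_lit 10) (.e (nat_lit 581376) (nat_lit 0) .nil))))))) (.g (nat_lit 6) .nil .nil)))) (.nd (nat_lit 5) 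
(.lf (nat_lit 97556) (.g (nat_lit 2711) (.e (nat_lit 2862) (nat_lit 184) (.e (nat_lit 426319) (nat_lit 12) (.e (nat_lit 475185) (nat_lit 29) (.e (nat_lit 557107) (nat_lit 15) (.e (nat_lit 188439) (nat_lit 20) .nil))))) .nil)) 
(.lf (nat_lit 97588) (.g (nat_lit 2216) (.e (nat_lit 2862) (nat_lit 184) (.e (nat_lit 426568) (nat_lit 34) (.e (nat_lit 393271) (nat_lit 23) (.e (nat_lit 426131) (nat_lit 3) (.e (nat_lit 204829) (nat_lit 18) .nil))))) .nil)))) (.nd (nat_lit 4) (.nd (nat_lit 5) 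
(.lf (nat_lit 97548) (.g (nat_lit 1653) (.e (nat_lit 2859) (nat_lit 184) (.e (nat_lit 426568) (nat_lit 34) (.e (nat_lit 393271) (nat_lit 23) (.e (nat_lit 426131) (nat_lit 3) .nil)))) .nil)) 
(.lf (nat_lit 97580) (.g (nat_lit 1630) (.e (nat_lit 2862) (nat_lit 184) (.e (nat_lit 426542) (nat_lit 29) (.e (nat_lit 352309) (nat_lit 21) (.e (nat_lit 57873) (nat_lit 264) (.e (nat_lit 1209) (nat_lit 89) .nil))))) .nil))) (.nd (nat_lit 5) 
(.lf (nat_lit 97564) (.g (nat_lit 3925) (.e (nat_lit 2862) (nat_lit 184) (.e (nat_lit 426354) (nat_lit 15) (.e (nat_lit 2031) (nat_lit 140) (.e (nat_lit 688171) (nat_lit 15) (.e (nat_lit 57478) (nat_lit 28) (.e (nat_lit 557109) (nat_lit 15) (.e (nat_lit 188461) (nat_lit 26) (.e (nat_lit 261888) (nat_lit 0) .nil)))))))) (.g (nat_lit 7) .nil .nil))) 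
(.lf (nat_lit 97596) (.g (nat_lit 1656) (.e (nat_lit 2869) (nat_lit 184) (.e (nat_lit 426309) (nat_lit 12) (.e (nat_lit 475185) (nat_lit 29) (.e (nat_lit 557107) (nat_lit 15) .nil)))) .nil)))))) (.nd (nat_lit 2) (.nd (nat_lit 3) (.nd (nat_lit 4) (.nd (nat_lit 5) 
(.lf (nat_lit 97538) (.g (nat_lit 1174) (.e (nat_lit 2857) (nat_lit 184) (.e (nat_lit 426555) (nat_lit 32) (.e (nat_lit 376870) (nat_lit 24) .nil))) .nil)) 
(.lf (nat_lit 97570) (.g (nat_lit 2403) (.e (nat_lit 2862) (nat_lit 184) (.e (nat_lit 426432) (nat_lit 17) (.e (nat_lit 98048) (nat_lit 5) (.e (nat_lit 73753) (nat_lit 8) (.e (nat_lit 557105) (nat_lit 14) (.e (nat_lit 180252) (nat_lit 10) (.e (nat_lit 581376) (nat_lit 0) .nil))))))) (.g (nat_lit 6) .nil .nil)))) (.nd (nat_lit 5) 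
(.lf (nat_lit 97554) (.g (nat_lit 1724) (.e (nat_lit 2861) (nat_lit 184) (.e (nat_lit 426568) (nat_lit 34) (.e (nat_lit 393271) (nat_lit 23) (.e (nat_lit 426131) (nat_lit 3) .nil)))) .nil)) 
(.lf (nat_lit 97586) (.g (nat_lit 1325) (.e (nat_lit 2862) (nat_lit 184) (.e (nat_lit 426546) (nat_lit 30) (.e (nat_lit 360452) (nat_lit 0) (.e (nat_lit 5907) (nat_lit 320) (.e (nat_lit 1209) (nat_lit 89) (.e (nat_lit 81664) (nat_lit 32) .nil)))))) (.g (nat_lit 5) .nil .nil))))) (.nd (nat_lit 4) (.nd (nat_lit 5) 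
(.lf (nat_lit 97546) (.g (nat_lit 2579) (.e (nat_lit 2859) (nat_lit 184) (.e (nat_lit 426432) (nat_lit 17) (.e (nat_lit 98048) (nat_lit 5) (.e (nat_lit 73755) (nat_lit 8) (.e (nat_lit 557105) (nat_lit 14) (.e (nat_lit 180252) (nat_lit 10) (.e (nat_lit 581376) (nat_lit 0) .nil))))))) (.g (nat_lit 6) .nil .nil))) 
(.lf (nat_lit 97578) (.g (nat_lit 885) (.e (nat_lit 2862) (nat_lit 184) (.e (nat_lit 426542) (nat_lit 29) (.e (nat_lit 352267) (nat_lit 0) .nil))) .nil))) (.nd (nat_lit 5) 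
(.lf (nat_lit 97562) (.g (nat_lit 2979) (.e (nat_lit 2862) (nat_lit 184) (.e (nat_lit 426320) (nat_lit 12) (.e (nat_lit 475185) (nat_lit 29) (.e (nat_lit 557109) (nat_lit 15) (.e (nat_lit 188434) (nat_lit 20) (.e (nat_lit 3272) (nat_lit 199) (.e (nat_lit 548898) (nat_lit 14) .nil))))))) (.g (nat_lit 4) .nil .nil))) 
(.lf (nat_lit 97594) (.g (nat_lit 2265) (.e (nat_lit 2868) (nat_lit 184) (.e (nat_lit 426312) (nat_lit 12) (.e (nat_lit 475185) (nat_lit 29) (.e (nat_lit 557109) (nat_lit 15) .nil)))) .nil))))) (.nd (nat_lit 3) (.nd (nat_lit 4) (.nd (nat_lit 5) 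
(.lf (nat_lit 97542) (.g (nat_lit 3394) (.e (nat_lit 2858) (nat_lit 184) (.e (nat_lit 426432) (nat_lit 17) (.e (nat_lit 98048) (nat_lit 5) (.e (nat_lit 73754) (nat_lit 8) (.e (nat_lit 557105) (nat_lit 14) (.e (nat_lit 180252) (nat_lit 10) (.e (nat_lit 581376) (nat_lit 0) .nil))))))) (.g (nat_lit 6) .nil .nil))) 
(.lf (nat_lit 97574) (.g (nat_lit 1847) (.e (nat_lit 2862) (nat_lit 184) (.e (nat_lit 426436) (nat_lit 18) (.e (nat_lit 98358) (nat_lit 26) (.e (nat_lit 426437) (nat_lit 18) .nil)))) .nil))) (.nd (nat_lit 5) 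
(.lf (nat_lit 97558) (.g (nat_lit 2103) (.e (nat_lit 2862) (nat_lit 184) (.e (nat_lit 426320) (nat_lit 12) (.e (nat_lit 475185) (nat_lit 29) (.e (nat_lit 557107) (nat_lit 15) .nil)))) .nil)) 
(.lf (nat_lit 97590) (.g (nat_lit 951) (.e (nat_lit 2862) (nat_lit 184) (.e (nat_lit 426568) (nat_lit 34) (.e (nat_lit 393294) (nat_lit 26) .nil))) .nil)))) (.nd (nat_lit 4) (.nd (nat_lit 5) 
(.lf (nat_lit 97550) (.g (nat_lit 2160) (.e (nat_lit 2861) (nat_lit 184) (.e (nat_lit 426320) (nat_lit 12) (.e (nat_lit 475185) (nat_lit 29) (.e (nat_lit 557100) (nat_lit 13) (.e (nat_lit 172113) (nat_lit 10) .nil))))) .nil)) 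
(.lf (nat_lit 97582) (.g (nat_lit 2058) (.e (nat_lit 2862) (nat_lit 184) (.e (nat_lit 426543) (nat_lit 29) (.e (nat_lit 352318) (nat_lit 24) (.e (nat_lit 123182) (nat_lit 264) (.e (nat_lit 1212) (nat_lit 89) (.e (nat_lit 81664) (nat_lit 32) .nil)))))) (.g (nat_lit 5) .nil .nil)))) (.nd (nat_lit 5) 
(.lf (nat_lit 97566) (.g (nat_lit 2541) (.e (nat_lit 2862) (nat_lit 184) (.e (nat_lit 426428) (nat_lit 17) (.e (nat_lit 90174) (nat_lit 14) (.e (nat_lit 180250) (nat_lit 10) (.e (nat_lit 573485) (nat_lit 13) (.e (nat_lit 65558) (nat_lit 0) (.e (nat_lit 1886) (nat_lit 127) (.e (nat_lit 581636) (nat_lit 0) .nil)))))))) (.g (nat_lit 5) .nil .nil))) 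
(.lf (nat_lit 97598) (.g (nat_lit 3105) (.e (nat_lit 2872) (nat_lit 184) (.e (nat_lit 426211) (nat_lit 9) (.e (nat_lit 426125) (nat_lit 2) (.e (nat_lit 196627) (nat_lit 9) .nil)))) .nil))))))) (.nd (nat_lit 1) (.nd (nat_lit 2) (.nd (nat_lit 3) (.nd (nat_lit 4) (.nd (nat_lit 5) 
(.lf (nat_lit 97537) (.g (nat_lit 764) (.e (nat_lit 2857) (nat_lit 184) (.e (nat_lit 426555) (nat_lit 32) (.e (nat_lit 376857) (nat_lit 21) .nil))) .nil)) 
(.lf (nat_lit 97569) (.g (nat_lit 2130) (.e (nat_lit 2862) (nat_lit 184) (.e (nat_lit 426428) (nat_lit 17) (.e (nat_lit 90174) (nat_lit 14) (.e (nat_lit 180251) (nat_lit 10) (.e (nat_lit 573485) (nat_lit 13) .nil))))) .nil))) (.nd (nat_lit 5) 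
(.lf (nat_lit 97553) (.g (nat_lit 2030) (.e (nat_lit 2861) (nat_lit 184) (.e (nat_lit 426566) (nat_lit 34) (.e (nat_lit 393271) (nat_lit 23) (.e (nat_lit 426131) (nat_lit 3) .nil)))) .nil)) 
(.lf (nat_lit 97585) (.g (nat_lit 2119) (.e (nat_lit 2862) (nat_lit 184) (.e (nat_lit 426544) (nat_lit 30) (.e (nat_lit 360453) (nat_lit 0) (.e (nat_lit 5907) (nat_lit 320) (.e (nat_lit 1209) (nat_lit 89) (.e (nat_lit 81664) (nat_lit 32) .nil)))))) (.g (nat_lit 5) .nil .nil))))) (.nd (nat_lit 4) (.nd (nat_lit 5) 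
(.lf (nat_lit 97545) (.g (nat_lit 3401) (.e (nat_lit 2859) (nat_lit 184) (.e (nat_lit 426432) (nat_lit 17) (.e (nat_lit 98048) (nat_lit 5) (.e (nat_lit 73754) (nat_lit 8) (.e (nat_lit 557105) (nat_lit 14) (.e (nat_lit 180252) (nat_lit 10) (.e (nat_lit 581376) (nat_lit 0) .nil))))))) (.g (nat_lit 6) .nil .nil))) 
(.lf (nat_lit 97577) (.g (nat_lit 459) (.e (nat_lit 2862) (nat_lit 184) (.e (nat_lit 426540) (nat_lit 29) (.e (nat_lit 352270) (nat_lit 8) .nil))) .nil))) (.nd (nat_lit 5) 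
(.lf (nat_lit 97561) (.g (nat_lit 2970) (.e (nat_lit 2862) (nat_lit 184) (.e (nat_lit 426320) (nat_lit 12) (.e (nat_lit 475185) (nat_lit 29) (.e (nat_lit 557109) (nat_lit 15) (.e (nat_lit 188434) (nat_lit 20) .nil))))) .nil)) 
(.lf (nat_lit 97593) (.g (nat_lit 2400) (.e (nat_lit 2868) (nat_lit 184) (.e (nat_lit 426310) (nat_lit 12) (.e (nat_lit 475185) (nat_lit 29) (.e (nat_lit 557107) (nat_lit 15) (.e (nat_lit 188440) (nat_lit 20) .nil))))) .nil))))) (.nd (nat_lit 3) (.nd (nat_lit 4) (.nd (nat_lit 5) 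
(.lf (nat_lit 97541) (.g (nat_lit 2367) (.e (nat_lit 2858) (nat_lit 184) (.e (nat_lit 426432) (nat_lit 17) (.e (nat_lit 98048) (nat_lit 5) (.e (nat_lit 73753) (nat_lit 8) (.e (nat_lit 557105) (nat_lit 14) (.e (nat_lit 180252) (nat_lit 10) (.e (nat_lit 581376) (nat_lit 0) .nil))))))) (.g (nat_lit 6) .nil .nil))) 
(.lf (nat_lit 97573) (.g (nat_lit 3074) (.e (nat_lit 2862) (nat_lit 184) (.e (nat_lit 426436) (nat_lit 18) (.e (nat_lit 98358) (nat_lit 26) (.e (nat_lit 426436) (nat_lit 18) (.e (nat_lit 98358) (nat_lit 26) (.e (nat_lit 426428) (nat_lit 17) (.e (nat_lit 90134) (nat_lit 9) .nil))))))) (.g (nat_lit 5) .nil .nil)))) (.nd (nat_lit 5) 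
(.lf (nat_lit 97557) (.g (nat_lit 2414) (.e (nat_lit 2862) (nat_lit 184) (.e (nat_lit 426320) (nat_lit 12) (.e (nat_lit 475185) (nat_lit 29) (.e (nat_lit 557100) (nat_lit 13) (.e (nat_lit 172113) (nat_lit 10) .nil))))) .nil)) 
(.lf (nat_lit 97589) (.g (nat_lit 2201) (.e (nat_lit 2862) (nat_lit 184) (.e (nat_lit 426568) (nat_lit 34) (.e (nat_lit 393271) (nat_lit 23) (.e (nat_lit 426131) (nat_lit 3) (.e (nat_lit 204831) (nat_lit 18) .nil))))) .nil)))) (.nd (nat_lit 4) (.nd (nat_lit 5) 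
(.lf (nat_lit 97549) (.g (nat_lit 1528) (.e (nat_lit 2861) (nat_lit 184) (.e (nat_lit 426131) (nat_lit 3) (.e (nat_lit 204868) (nat_lit 29) (.e (nat_lit 360473) (nat_lit 8) .nil)))) .nil)) 
(.lf (nat_lit 97581) (.g (nat_lit 2800) (.e (nat_lit 2862) (nat_lit 184) (.e (nat_lit 426543) (nat_lit 29) (.e (nat_lit 352309) (nat_lit 21) (.e (nat_lit 57872) (nat_lit 264) (.e (nat_lit 1209) (nat_lit 89) (.e (nat_lit 81664) (nat_lit 32) .nil)))))) (.g (nat_lit 5) .nil .nil)))) (.nd (nat_lit 5) 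
(.lf (nat_lit 97565) (.g (nat_lit 3331) (.e (nat_lit 2862) (nat_lit 184) (.e (nat_lit 426428) (nat_lit 17) (.e (nat_lit 90174) (nat_lit 14) (.e (nat_lit 180250) (nat_lit 10) (.e (nat_lit 573482) (nat_lit 13) (.e (nat_lit 65644) (nat_lit 22) (.e (nat_lit 245762) (nat_lit 0) .nil))))))) (.g (nat_lit 7) .nil .nil))) 
(.lf (nat_lit 97597) (.g (nat_lit 2599) (.e (nat_lit 2869) (nat_lit 184) (.e (nat_lit 426310) (nat_lit 12) (.e (nat_lit 475185) (nat_lit 29) (.e (nat_lit 557107) (nat_lit 15) (.e (nat_lit 188439) (nat_lit 20) .nil))))) .nil)))))) (.nd (nat_lit 2) (.nd (nat_lit 3) (.nd (nat_lit 4) (.nd (nat_lit 5) 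
(.lf (nat_lit 97539) (.g (nat_lit 2073) (.e (nat_lit 2857) (nat_lit 184) (.e (nat_lit 426555) (nat_lit 32) (.e (nat_lit 376870) (nat_lit 24) (.e (nat_lit 123182) (nat_lit 264) (.e (nat_lit 1214) (nat_lit 89) .nil))))) .nil)) 
(.lf (nat_lit 97571) (.g (nat_lit 3430) (.e (nat_lit 2862) (nat_lit 184) (.e (nat_lit 426432) (nat_lit 17) (.e (nat_lit 98048) (nat_lit 5) (.e (nat_lit 73754) (nat_lit 8) (.e (nat_lit 557105) (nat_lit 14) (.e (nat_lit 180252) (nat_lit 10) (.e (nat_lit 581376) (nat_lit 0) .nil))))))) (.g (nat_lit 6) .nil .nil)))) (.nd (nat_lit 5) 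
(.lf (nat_lit 97555) (.g (nat_lit 5301) (.e (nat_lit 2862) (nat_lit 184) (.e (nat_lit 426131) (nat_lit 3) (.e (nat_lit 204869) (nat_lit 29) (.e (nat_lit 360474) (nat_lit 8) (.e (nat_lit 557091) (nat_lit 12) .nil))))) .nil)) 
(.lf (nat_lit 97587) (.g (nat_lit 786) (.e (nat_lit 2862) (nat_lit 184) (.e (nat_lit 426566) (nat_lit 34) (.e (nat_lit 393296) (nat_lit 26) .nil))) .nil)))) (.nd (nat_lit 4) (.nd (nat_lit 5) 
(.lf (nat_lit 97547) (.g (nat_lit 2030) (.e (nat_lit 2859) (nat_lit 184) (.e (nat_lit 426566) (nat_lit 34) (.e (nat_lit 393271) (nat_lit 23) (.e (nat_lit 426131) (nat_lit 3) .nil)))) .nil)) 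
(.lf (nat_lit 97579) (.g (nat_lit 1845) (.e (nat_lit 2862) (nat_lit 184) (.e (nat_lit 426542) (nat_lit 29) (.e (nat_lit 352307) (nat_lit 21) (.e (nat_lit 57873) (nat_lit 264) (.e (nat_lit 1209) (nat_lit 89) (.e (nat_lit 81664) (nat_lit 32) .nil)))))) (.g (nat_lit 5) .nil .nil)))) (.nd (nat_lit 5) 
(.lf (nat_lit 97563) (.g (nat_lit 3109) (.e (nat_lit 2862) (nat_lit 184) (.e (nat_lit 426320) (nat_lit 12) (.e (nat_lit 475185) (nat_lit 29) (.e (nat_lit 557109) (nat_lit 15) (.e (nat_lit 188441) (nat_lit 20) .nil))))) .nil)) 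
(.lf (nat_lit 97595) (.g (nat_lit 1092) (.e (nat_lit 2869) (nat_lit 184) (.e (nat_lit 426173) (nat_lit 7) (.e (nat_lit 409616) (nat_lit 10) (.e (nat_lit 7936) (nat_lit 43) .nil)))) .nil))))) (.nd (nat_lit 3) (.nd (nat_lit 4) (.nd (nat_lit 5) 
(.lf (nat_lit 97543) (.g (nat_lit 2572) (.e (nat_lit 2858) (nat_lit 184) (.e (nat_lit 426432) (nat_lit 17) (.e (nat_lit 98048) (nat_lit 5) (.e (nat_lit 73755) (nat_lit 8) (.e (nat_lit 557105) (nat_lit 14) (.e (nat_lit 180252) (nat_lit 10) (.e (nat_lit 581376) (nat_lit 0) .nil))))))) (.g (nat_lit 6) .nil .nil))) 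
(.lf (nat_lit 97575) (.g (nat_lit 2175) (.e (nat_lit 2862) (nat_lit 184) (.e (nat_lit 426436) (nat_lit 18) (.e (nat_lit 98358) (nat_lit 26) (.e (nat_lit 426438) (nat_lit 18) (.e (nat_lit 98356) (nat_lit 26) .nil))))) .nil))) (.nd (nat_lit 5) 
(.lf (nat_lit 97559) (.g (nat_lit 3206) (.e (nat_lit 2862) (nat_lit 184) (.e (nat_lit 426320) (nat_lit 12) (.e (nat_lit 475185) (nat_lit 29) (.e (nat_lit 557107) (nat_lit 15) (.e (nat_lit 188439) (nat_lit 20) .nil))))) .nil)) 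
(.lf (nat_lit 97591) (.g (nat_lit 1656) (.e (nat_lit 2868) (nat_lit 184) (.e (nat_lit 426309) (nat_lit 12) (.e (nat_lit 475185) (nat_lit 29) (.e (nat_lit 557107) (nat_lit 15) .nil)))) .nil)))) (.nd (nat_lit 4) (.nd (nat_lit 5) 
(.lf (nat_lit 97551) (.g (nat_lit 433) (.e (nat_lit 2861) (nat_lit 184) (.e (nat_lit 426320) (nat_lit 12) (.e (nat_lit 475207) (nat_lit 41) .nil))) .nil)) 
(.lf (nat_lit 97583) (.g (nat_lit 1938) (.e (nat_lit 2862) (nat_lit 184) (.e (nat_lit 426543) (nat_lit 29) (.e (nat_lit 352318) (nat_lit 24) (.e (nat_lit 123183) (nat_lit 264) (.e (nat_lit 1212) (nat_lit 89) (.e (nat_lit 81664) (nat_lit 32) .nil)))))) (.g (nat_lit 5) .nil .nil)))) (.nd (nat_lit 5) 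
(.lf (nat_lit 97567) (.g (nat_lit 3164) (.e (nat_lit 2862) (nat_lit 184) (.e (nat_lit 426428) (nat_lit 17) (.e (nat_lit 90174) (nat_lit 14) (.e (nat_lit 180250) (nat_lit 10) (.e (nat_lit 573487) (nat_lit 14) (.e (nat_lit 73757) (nat_lit 11) (.e (nat_lit 581636) (nat_lit 0) .nil))))))) (.g (nat_lit 6) .nil .nil))) 
(.lf (nat_lit 97599) (.g (nat_lit 4160) (.e (nat_lit 2872) (nat_lit 184) (.e (nat_lit 426211) (nat_lit 9) (.e (nat_lit 426125) (nat_lit 2) (.e (nat_lit 196630) (nat_lit 9) (.e (nat_lit 1395) (nat_lit 106) .nil))))) .nil))))))))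

noncomputable def tv1339 : DT := (.nd (nat_lit 0) (.nd (nat_lit 1) (.nd (nat_lit 2) (.nd (nat_lit 3) (.nd (nat_lit 4) (.nd (nat_lit 5) 
(.lf (nat_lit 97600) (.g (nat_lit 4482) (.e (nat_lit 2872) (nat_lit 184) (.e (nat_lit 426211) (nat_lit 9) (.e (nat_lit 426125) (nat_lit 2) (.e (nat_lit 196630) (nat_lit 9) (.e (nat_lit 1401) (nat_lit 106) (.e (nat_lit 319531) (nat_lit 16) (.e (nat_lit 286733) (nat_lit 2) (.e (nat_lit 90134) (nat_lit 9) .nil)))))))) (.g (nat_lit 4) .nil .nil))) 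
(.lf (nat_lit 97632) (.g (nat_lit 383) (.e (nat_lit 2887) (nat_lit 184) (.e (nat_lit 426125) (nat_lit 2) (.e (nat_lit 196666) (nat_lit 13) .nil))) .nil))) (.nd (nat_lit 5) 
(.lf (nat_lit 97616) (.g (nat_lit 3109) (.e (nat_lit 2878) (nat_lit 184) (.e (nat_lit 426125) (nat_lit 2) (.e (nat_lit 196656) (nat_lit 11) (.e (nat_lit 16392) (nat_lit 0) (.e (nat_lit 3279) (nat_lit 200) .nil))))) .nil)) 
(.lf (nat_lit 97648) (.g (nat_lit 4458) (.e (nat_lit 2887) (nat_lit 184) (.e (nat_lit 426134) (nat_lit 3) (.e (nat_lit 204869) (nat_lit 29) (.e (nat_lit 360474) (nat_lit 8) (.e (nat_lit 557091) (nat_lit 12) .nil))))) .nil)))) (.nd (nat_lit 4) (.nd (nat_lit 5) 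
(.lf (nat_lit 97608) (.g (nat_lit 885) (.e (nat_lit 2878) (nat_lit 184) (.e (nat_lit 426125) (nat_lit 2) (.e (nat_lit 196630) (nat_lit 9) .nil))) .nil)) 
(.lf (nat_lit 97640) (.g (nat_lit 4409) (.e (nat_lit 2887) (nat_lit 184) (.e (nat_lit 426125) (nat_lit 2) (.e (nat_lit 196666) (nat_lit 13) (.e (nat_lit 65617) (nat_lit 10) (.e (nat_lit 344130) (nat_lit 26) (.e (nat_lit 557089) (nat_lit 12) (.e (nat_lit 164017) (nat_lit 44) (.e (nat_lit 688139) (nat_lit 5) .nil)))))))) (.g (nat_lit 7) .nil .nil)))) (.nd (nat_lit 5) 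
(.lf (nat_lit 97624) (.g (nat_lit 2365) (.e (nat_lit 2884) (nat_lit 184) (.e (nat_lit 426125) (nat_lit 2) (.e (nat_lit 196630) (nat_lit 9) (.e (nat_lit 1580) (nat_lit 111) .nil)))) .nil)) 
(.lf (nat_lit 97656) (.g (nat_lit 2870) (.e (nat_lit 2887) (nat_lit 184) (.e (nat_lit 426338) (nat_lit 14) (.e (nat_lit 491549) (nat_lit 9) (.e (nat_lit 336428) (nat_lit 29) (.e (nat_lit 442371) (nat_lit 0) .nil))))) .nil))))) (.nd (nat_lit 3) (.nd (nat_lit 4) (.nd (nat_lit 5) 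
(.lf (nat_lit 97604) (.g (nat_lit 1001) (.e (nat_lit 2877) (nat_lit 184) (.e (nat_lit 426501) (nat_lit 27) (.e (nat_lit 336204) (nat_lit 12) (.e (nat_lit 385094) (nat_lit 49) .nil)))) .nil)) 
(.lf (nat_lit 97636) (.g (nat_lit 4494) (.e (nat_lit 2887) (nat_lit 184) (.e (nat_lit 426125) (nat_lit 2) (.e (nat_lit 196666) (nat_lit 13) (.e (nat_lit 65610) (nat_lit 10) (.e (nat_lit 344129) (nat_lit 26) (.e (nat_lit 557090) (nat_lit 12) (.e (nat_lit 164017) (nat_lit 44) (.e (nat_lit 688139) (nat_lit 5) .nil)))))))) (.g (nat_lit 6) .nil .nil)))) (.nd (nat_lit 5) 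
(.lf (nat_lit 97620) (.g (nat_lit 2311) (.e (nat_lit 2878) (nat_lit 184) (.e (nat_lit 426125) (nat_lit 2) (.e (nat_lit 196661) (nat_lit 12) (.e (nat_lit 57575) (nat_lit 55) .nil)))) .nil)) 
(.lf (nat_lit 97652) (.g (nat_lit 4639) (.e (nat_lit 2887) (nat_lit 184) (.e (nat_lit 426286) (nat_lit 10) (.e (nat_lit 434276) (nat_lit 39) (.e (nat_lit 663554) (nat_lit 0) (.e (nat_lit 1669) (nat_lit 116) (.e (nat_lit 401454) (nat_lit 12) (.e (nat_lit 475204) (nat_lit 40) (.e (nat_lit 704554) (nat_lit 0) .nil)))))))) (.g (nat_lit 6) .nil .nil))))) (.nd (nat_lit 4) (.nd (nat_lit 5) 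
(.lf (nat_lit 97612) (.g (nat_lit 1365) (.e (nat_lit 2878) (nat_lit 184) (.e (nat_lit 426125) (nat_lit 2) (.e (nat_lit 196652) (nat_lit 11) .nil))) .nil)) 
(.lf (nat_lit 97644) (.g (nat_lit 4497) (.e (nat_lit 2887) (nat_lit 184) (.e (nat_lit 426125) (nat_lit 2) (.e (nat_lit 196666) (nat_lit 13) (.e (nat_lit 65617) (nat_lit 10) (.e (nat_lit 344133) (nat_lit 26) (.e (nat_lit 557089) (nat_lit 12) (.e (nat_lit 164017) (nat_lit 44) (.e (nat_lit 688139) (nat_lit 5) .nil)))))))) (.g (nat_lit 7) .nil .nil)))) (.nd (nat_lit 5) 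
(.lf (nat_lit 97628) (.g (nat_lit 2384) (.e (nat_lit 2884) (nat_lit 184) (.e (nat_lit 426339) (nat_lit 14) (.e (nat_lit 491536) (nat_lit 2) (.e (nat_lit 90178) (nat_lit 15) (.e (nat_lit 188441) (nat_lit 20) (.e (nat_lit 3272) (nat_lit 199) (.e (nat_lit 548898) (nat_lit 14) .nil))))))) (.g (nat_lit 5) .nil .nil))) 
(.lf (nat_lit 97660) (.g (nat_lit 1895) (.e (nat_lit 2887) (nat_lit 184) (.e (nat_lit 426412) (nat_lit 15) (.e (nat_lit 1856) (nat_lit 124) (.e (nat_lit 557100) (nat_lit 13) (.e (nat_lit 172106) (nat_lit 10) (.e (nat_lit 434227) (nat_lit 20) (.e (nat_lit 507928) (nat_lit 10) (.e (nat_lit 5612) (nat_lit 312) .nil)))))))) (.g (nat_lit 5) .nil .nil))))))) 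
(.nd (nat_lit 2) (.nd (nat_lit 3) (.nd (nat_lit 4) (.nd (nat_lit 5) 
(.lf (nat_lit 97602) (.g (nat_lit 2383) (.e (nat_lit 2877) (nat_lit 184) (.e (nat_lit 426109) (nat_lit 1) (.e (nat_lit 164319) (nat_lit 228) (.e (nat_lit 57412) (nat_lit 12) (.e (nat_lit 335905) (nat_lit 0) (.e (nat_lit 6218) (nat_lit 333) (.e (nat_lit 57819) (nat_lit 248) (.e (nat_lit 164359) (nat_lit 246) .nil)))))))) (.g (nat_lit 0) .nil .nil))) 
(.lf (nat_lit 97634) (.g (nat_lit 4792) (.e (nat_lit 2887) (nat_lit 184) (.e (nat_lit 426125) (nat_lit 2) (.e (nat_lit 196666) (nat_lit 13) (.e (nat_lit 65610) (nat_lit 10) (.e (nat_lit 344129) (nat_lit 26) (.e (nat_lit 557089) (nat_lit 12) (.e (nat_lit 164017) (nat_lit 44) (.e (nat_lit 688139) (nat_lit 5) .nil)))))))) (.g (nat_lit 7) .nil .nil)))) (.nd (nat_lit 5) 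
(.lf (nat_lit 97618) (.g (nat_lit 2765) (.e (nat_lit 2878) (nat_lit 184) (.e (nat_lit 426125) (nat_lit 2) (.e (nat_lit 196656) (nat_lit 11) (.e (nat_lit 16479) (nat_lit 15) .nil)))) .nil)) 
(.lf (nat_lit 97650) (.g (nat_lit 4252) (.e (nat_lit 2887) (nat_lit 184) (.e (nat_lit 426286) (nat_lit 10) (.e (nat_lit 434276) (nat_lit 39) (.e (nat_lit 663554) (nat_lit 0) (.e (nat_lit 1669) (nat_lit 116) (.e (nat_lit 401454) (nat_lit 12) (.e (nat_lit 475197) (nat_lit 40) (.e (nat_lit 704520) (nat_lit 0) .nil)))))))) (.g (nat_lit 6) .nil .nil))))) (.nd (nat_lit 4) (.nd (nat_lit 5) 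
(.lf (nat_lit 97610) (.g (nat_lit 5000) (.e (nat_lit 2878) (nat_lit 184) (.e (nat_lit 426125) (nat_lit 2) (.e (nat_lit 196630) (nat_lit 9) (.e (nat_lit 1596) (nat_lit 111) (.e (nat_lit 360473) (nat_lit 8) (.e (nat_lit 557090) (nat_lit 12) (.e (nat_lit 164020) (nat_lit 45) (.e (nat_lit 696330) (nat_lit 5) .nil)))))))) (.g (nat_lit 5) .nil .nil))) 
(.lf (nat_lit 97642) (.g (nat_lit 4302) (.e (nat_lit 2887) (nat_lit 184) (.e (nat_lit 426125) (nat_lit 2) (.e (nat_lit 196666) (nat_lit 13) (.e (nat_lit 65617) (nat_lit 10) (.e (nat_lit 344130) (nat_lit 26) (.e (nat_lit 557090) (nat_lit 12) (.e (nat_lit 164017) (nat_lit 44) (.e (nat_lit 688139) (nat_lit 5) .nil)))))))) (.g (nat_lit 6) .nil .nil)))) (.nd (nat_lit 5) 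
(.lf (nat_lit 97626) (.g (nat_lit 2393) (.e (nat_lit 2884) (nat_lit 184) (.e (nat_lit 426317) (nat_lit 12) (.e (nat_lit 475184) (nat_lit 29) (.e (nat_lit 557109) (nat_lit 15) (.e (nat_lit 188434) (nat_lit 20) .nil))))) .nil)) 
(.lf (nat_lit 97658) (.g (nat_lit 533) (.e (nat_lit 2887) (nat_lit 184) (.e (nat_lit 426412) (nat_lit 15) (.e (nat_lit 1856) (nat_lit 124) .nil))) .nil))))) (.nd (nat_lit 3) (.nd (nat_lit 4) (.nd (nat_lit 5) 
(.lf (nat_lit 97606) (.g (nat_lit 2178) (.e (nat_lit 2878) (nat_lit 184) (.e (nat_lit 426125) (nat_lit 2) (.e (nat_lit 196624) (nat_lit 9) (.e (nat_lit 7936) (nat_lit 111) .nil)))) .nil)) 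
(.lf (nat_lit 97638) (.g (nat_lit 2138) (.e (nat_lit 2887) (nat_lit 184) (.e (nat_lit 426125) (nat_lit 2) (.e (nat_lit 196666) (nat_lit 13) (.e (nat_lit 65617) (nat_lit 10) (.e (nat_lit 344127) (nat_lit 26) (.e (nat_lit 557089) (nat_lit 12) (.e (nat_lit 164017) (nat_lit 44) (.e (nat_lit 688139) (nat_lit 5) .nil)))))))) (.g (nat_lit 4) .nil .nil)))) (.nd (nat_lit 5) 
(.lf (nat_lit 97622) (.g (nat_lit 2094) (.e (nat_lit 2883) (nat_lit 184) (.e (nat_lit 426470) (nat_lit 25) (.e (nat_lit 319530) (nat_lit 16) (.e (nat_lit 286761) (nat_lit 13) (.e (nat_lit 393237) (nat_lit 17) (.e (nat_lit 3342) (nat_lit 205) (.e (nat_lit 605952) (nat_lit 13) .nil))))))) (.g (nat_lit 6) .nil .nil))) 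
(.lf (nat_lit 97654) (.g (nat_lit 2300) (.e (nat_lit 2887) (nat_lit 184) (.e (nat_lit 426317) (nat_lit 12) (.e (nat_lit 475207) (nat_lit 41) (.e (nat_lit 712755) (nat_lit 30) (.e (nat_lit 450563) (nat_lit 0) (.e (nat_lit 5529) (nat_lit 306) (.e (nat_lit 2508) (nat_lit 157) .nil))))))) (.g (nat_lit 5) .nil .nil))))) (.nd (nat_lit 4) (.nd (nat_lit 5) 
(.lf (nat_lit 97614) (.g (nat_lit 1365) (.e (nat_lit 2878) (nat_lit 184) (.e (nat_lit 426125) (nat_lit 2) (.e (nat_lit 196654) (nat_lit 11) .nil))) .nil)) 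
(.lf (nat_lit 97646) (.g (nat_lit 4336) (.e (nat_lit 2887) (nat_lit 184) (.e (nat_lit 426125) (nat_lit 2) (.e (nat_lit 196666) (nat_lit 13) (.e (nat_lit 65617) (nat_lit 10) (.e (nat_lit 344133) (nat_lit 26) (.e (nat_lit 557091) (nat_lit 12) (.e (nat_lit 164017) (nat_lit 44) (.e (nat_lit 688139) (nat_lit 5) .nil)))))))) (.g (nat_lit 6) .nil .nil)))) (.nd (nat_lit 5) 
(.lf (nat_lit 97630) (.g (nat_lit 4386) (.e (nat_lit 2887) (nat_lit 184) (.e (nat_lit 426043) (nat_lit 0) (.e (nat_lit 3390) (nat_lit 210) (.e (nat_lit 639017) (nat_lit 15) (.e (nat_lit 57480) (nat_lit 28) (.e (nat_lit 557108) (nat_lit 15) (.e (nat_lit 188461) (nat_lit 26) (.e (nat_lit 261888) (nat_lit 0) .nil)))))))) (.g (nat_lit 7) .nil .nil))) 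
(.lf (nat_lit 97662) (.g (nat_lit 2271) (.e (nat_lit 2887) (nat_lit 184) (.e (nat_lit 426412) (nat_lit 15) (.e (nat_lit 1856) (nat_lit 124) (.e (nat_lit 557100) (nat_lit 13) (.e (nat_lit 172106) (nat_lit 10) (.e (nat_lit 434227) (nat_lit 20) (.e (nat_lit 507928) (nat_lit 10) (.e (nat_lit 5649) (nat_lit 312) .nil)))))))) (.g (nat_lit 5) .nil .nil)))))))) 
(.nd (nat_lit 1) (.nd (nat_lit 2) (.nd (nat_lit 3) (.nd (nat_lit 4) (.nd (nat_lit 5) 
(.lf (nat_lit 97601) (.g (nat_lit 1882) (.e (nat_lit 2877) (nat_lit 184) (.e (nat_lit 426109) (nat_lit 1) (.e (nat_lit 164319) (nat_lit 228) (.e (nat_lit 57412) (nat_lit 12) (.e (nat_lit 335886) (nat_lit 0) (.e (nat_lit 6218) (nat_lit 333) (.e (nat_lit 57819) (nat_lit 248) (.e (nat_lit 164359) (nat_lit 246) .nil)))))))) (.g (nat_lit 6) .nil .nil))) 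
(.lf (nat_lit 97633) (.g (nat_lit 5224) (.e (nat_lit 2887) (nat_lit 184) (.e (nat_lit 426125) (nat_lit 2) (.e (nat_lit 196666) (nat_lit 13) (.e (nat_lit 65610) (nat_lit 10) (.e (nat_lit 344129) (nat_lit 26) (.e (nat_lit 557089) (nat_lit 12) (.e (nat_lit 164017) (nat_lit 44) (.e (nat_lit 688138) (nat_lit 5) .nil)))))))) (.g (nat_lit 8) .nil .nil)))) (.nd (nat_lit 5) 
(.lf (nat_lit 97617) (.g (nat_lit 3594) (.e (nat_lit 2878) (nat_lit 184) (.e (nat_lit 426125) (nat_lit 2) (.e (nat_lit 196656) (nat_lit 11) (.e (nat_lit 16397) (nat_lit 0) (.e (nat_lit 3289) (nat_lit 201) (.e (nat_lit 565268) (nat_lit 5) (.e (nat_lit 73755) (nat_lit 8) (.e (nat_lit 557067) (nat_lit 9) .nil)))))))) (.g (nat_lit 4) .nil .nil))) 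
(.lf (nat_lit 97649) (.g (nat_lit 1693) (.e (nat_lit 2887) (nat_lit 184) (.e (nat_lit 426285) (nat_lit 10) (.e (nat_lit 434241) (nat_lit 27) (.e (nat_lit 565268) (nat_lit 5) (.e (nat_lit 73789) (nat_lit 45) (.e (nat_lit 1162) (nat_lit 86) (.e (nat_lit 49155) (nat_lit 0) .nil))))))) (.g (nat_lit 4) .nil .nil))))) (.nd (nat_lit 4) (.nd (nat_lit 5) 
(.lf (nat_lit 97609) (.g (nat_lit 2499) (.e (nat_lit 2878) (nat_lit 184) (.e (nat_lit 426125) (nat_lit 2) (.e (nat_lit 196630) (nat_lit 9) (.e (nat_lit 1596) (nat_lit 111) .nil)))) .nil)) 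
(.lf (nat_lit 97641) (.g (nat_lit 4848) (.e (nat_lit 2887) (nat_lit 184) (.e (nat_lit 426125) (nat_lit 2) (.e (nat_lit 196666) (nat_lit 13) (.e (nat_lit 65617) (nat_lit 10) (.e (nat_lit 344130) (nat_lit 26) (.e (nat_lit 557090) (nat_lit 12) (.e (nat_lit 164017) (nat_lit 44) (.e (nat_lit 688138) (nat_lit 5) .nil)))))))) (.g (nat_lit 7) .nil .nil)))) (.nd (nat_lit 5) 
(.lf (nat_lit 97625) (.g (nat_lit 2957) (.e (nat_lit 2884) (nat_lit 184) (.e (nat_lit 426125) (nat_lit 2) (.e (nat_lit 204544) (nat_lit 9) (.e (nat_lit 1583) (nat_lit 111) (.e (nat_lit 360475) (nat_lit 8) (.e (nat_lit 557090) (nat_lit 12) (.e (nat_lit 164020) (nat_lit 45) (.e (nat_lit 696329) (nat_lit 5) .nil)))))))) (.g (nat_lit 6) .nil .nil))) 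
(.lf (nat_lit 97657) (.g (nat_lit 1617) (.e (nat_lit 2887) (nat_lit 184) (.e (nat_lit 426412) (nat_lit 15) (.e (nat_lit 1855) (nat_lit 124) (.e (nat_lit 557107) (nat_lit 15) .nil)))) .nil))))) (.nd (nat_lit 3) (.nd (nat_lit 4) (.nd (nat_lit 5) 
(.lf (nat_lit 97605) (.g (nat_lit 1533) (.e (nat_lit 2878) (nat_lit 184) (.e (nat_lit 426125) (nat_lit 2) (.e (nat_lit 196619) (nat_lit 9) (.e (nat_lit 7936) (nat_lit 111) .nil)))) .nil)) 
(.lf (nat_lit 97637) (.g (nat_lit 2578) (.e (nat_lit 2887) (nat_lit 184) (.e (nat_lit 426125) (nat_lit 2) (.e (nat_lit 196666) (nat_lit 13) (.e (nat_lit 65617) (nat_lit 10) (.e (nat_lit 344127) (nat_lit 26) (.e (nat_lit 557089) (nat_lit 12) (.e (nat_lit 164017) (nat_lit 44) (.e (nat_lit 688138) (nat_lit 5) .nil)))))))) (.g (nat_lit 5) .nil .nil)))) (.nd (nat_lit 5) 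
(.lf (nat_lit 97621) (.g (nat_lit 2848) (.e (nat_lit 2882) (nat_lit 184) (.e (nat_lit 426215) (nat_lit 9) (.e (nat_lit 426125) (nat_lit 2) (.e (nat_lit 196630) (nat_lit 9) (.e (nat_lit 1401) (nat_lit 106) .nil))))) .nil)) 
(.lf (nat_lit 97653) (.g (nat_lit 532) (.e (nat_lit 2887) (nat_lit 184) (.e (nat_lit 426305) (nat_lit 12) (.e (nat_lit 475207) (nat_lit 41) .nil))) .nil)))) (.nd (nat_lit 4) (.nd (nat_lit 5) 
(.lf (nat_lit 97613) (.g (nat_lit 1356) (.e (nat_lit 2878) (nat_lit 184) (.e (nat_lit 426125) (nat_lit 2) (.e (nat_lit 196653) (nat_lit 11) .nil))) .nil)) 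
(.lf (nat_lit 97645) (.g (nat_lit 4843) (.e (nat_lit 2887) (nat_lit 184) (.e (nat_lit 426125) (nat_lit 2) (.e (nat_lit 196666) (nat_lit 13) (.e (nat_lit 65617) (nat_lit 10) (.e (nat_lit 344133) (nat_lit 26) (.e (nat_lit 557091) (nat_lit 12) (.e (nat_lit 164017) (nat_lit 44) (.e (nat_lit 688138) (nat_lit 5) .nil)))))))) (.g (nat_lit 7) .nil .nil)))) (.nd (nat_lit 5) 
(.lf (nat_lit 97629) (.g (nat_lit 4676) (.e (nat_lit 2887) (nat_lit 184) (.e (nat_lit 426043) (nat_lit 0) (.e (nat_lit 3390) (nat_lit 210) (.e (nat_lit 639017) (nat_lit 15) (.e (nat_lit 57480) (nat_lit 28) (.e (nat_lit 557108) (nat_lit 15) (.e (nat_lit 188461) (nat_lit 26) (.e (nat_lit 253954) (nat_lit 0) .nil)))))))) (.g (nat_lit 7) .nil .nil))) 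
(.lf (nat_lit 97661) (.g (nat_lit 1882) (.e (nat_lit 2887) (nat_lit 184) (.e (nat_lit 426412) (nat_lit 15) (.e (nat_lit 1856) (nat_lit 124) (.e (nat_lit 557100) (nat_lit 13) (.e (nat_lit 172106) (nat_lit 10) (.e (nat_lit 434227) (nat_lit 20) (.e (nat_lit 507928) (nat_lit 10) (.e (nat_lit 5646) (nat_lit 312) .nil)))))))) (.g (nat_lit 5) .nil .nil))))))) 
(.nd (nat_lit 2) (.nd (nat_lit 3) (.nd (nat_lit 4) (.nd (nat_lit 5) 
(.lf (nat_lit 97603) (.g (nat_lit 1079) (.e (nat_lit 2877) (nat_lit 184) (.e (nat_lit 426125) (nat_lit 2) (.e (nat_lit 196615) (nat_lit 0) .nil))) .nil)) 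
(.lf (nat_lit 97635) (.g (nat_lit 5040) (.e (nat_lit 2887) (nat_lit 184) (.e (nat_lit 426125) (nat_lit 2) (.e (nat_lit 196666) (nat_lit 13) (.e (nat_lit 65610) (nat_lit 10) (.e (nat_lit 344129) (nat_lit 26) (.e (nat_lit 557090) (nat_lit 12) (.e (nat_lit 164017) (nat_lit 44) (.e (nat_lit 688138) (nat_lit 5) .nil)))))))) (.g (nat_lit 7) .nil .nil)))) (.nd (nat_lit 5) 
(.lf (nat_lit 97619) (.g (nat_lit 2370) (.e (nat_lit 2878) (nat_lit 184) (.e (nat_lit 426125) (nat_lit 2) (.e (nat_lit 196661) (nat_lit 12) (.e (nat_lit 57573) (nat_lit 55) .nil)))) .nil)) 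
(.lf (nat_lit 97651) (.g (nat_lit 3867) (.e (nat_lit 2887) (nat_lit 184) (.e (nat_lit 426286) (nat_lit 10) (.e (nat_lit 434276) (nat_lit 39) (.e (nat_lit 663554) (nat_lit 0) (.e (nat_lit 1669) (nat_lit 116) (.e (nat_lit 401454) (nat_lit 12) (.e (nat_lit 475197) (nat_lit 40) (.e (nat_lit 704524) (nat_lit 0) .nil)))))))) (.g (nat_lit 6) .nil .nil))))) (.nd (nat_lit 4) (.nd (nat_lit 5) 
(.lf (nat_lit 97611) (.g (nat_lit 1898) (.e (nat_lit 2878) (nat_lit 184) (.e (nat_lit 426125) (nat_lit 2) (.e (nat_lit 196630) (nat_lit 9) (.e (nat_lit 7936) (nat_lit 111) .nil)))) .nil)) 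
(.lf (nat_lit 97643) (.g (nat_lit 4936) (.e (nat_lit 2887) (nat_lit 184) (.e (nat_lit 426125) (nat_lit 2) (.e (nat_lit 196666) (nat_lit 13) (.e (nat_lit 65617) (nat_lit 10) (.e (nat_lit 344133) (nat_lit 26) (.e (nat_lit 557089) (nat_lit 12) (.e (nat_lit 164017) (nat_lit 44) (.e (nat_lit 688138) (nat_lit 5) .nil)))))))) (.g (nat_lit 8) .nil .nil)))) (.nd (nat_lit 5) 
(.lf (nat_lit 97627) (.g (nat_lit 1600) (.e (nat_lit 2884) (nat_lit 184) (.e (nat_lit 426339) (nat_lit 14) (.e (nat_lit 491536) (nat_lit 2) (.e (nat_lit 90176) (nat_lit 15) (.e (nat_lit 188439) (nat_lit 20) .nil))))) .nil)) 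
(.lf (nat_lit 97659) (.g (nat_lit 1856) (.e (nat_lit 2887) (nat_lit 184) (.e (nat_lit 426412) (nat_lit 15) (.e (nat_lit 1856) (nat_lit 124) (.e (nat_lit 557100) (nat_lit 13) (.e (nat_lit 172097) (nat_lit 9) .nil))))) .nil))))) (.nd (nat_lit 3) (.nd (nat_lit 4) (.nd (nat_lit 5) 
(.lf (nat_lit 97607) (.g (nat_lit 1554) (.e (nat_lit 2878) (nat_lit 184) (.e (nat_lit 426125) (nat_lit 2) (.e (nat_lit 196625) (nat_lit 9) (.e (nat_lit 1595) (nat_lit 111) .nil)))) .nil)) 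
(.lf (nat_lit 97639) (.g (nat_lit 4846) (.e (nat_lit 2887) (nat_lit 184) (.e (nat_lit 426125) (nat_lit 2) (.e (nat_lit 196666) (nat_lit 13) (.e (nat_lit 65617) (nat_lit 10) (.e (nat_lit 344130) (nat_lit 26) (.e (nat_lit 557089) (nat_lit 12) (.e (nat_lit 164017) (nat_lit 44) (.e (nat_lit 688138) (nat_lit 5) .nil)))))))) (.g (nat_lit 8) .nil .nil)))) (.nd (nat_lit 5) 
(.lf (nat_lit 97623) (.g (nat_lit 2163) (.e (nat_lit 2884) (nat_lit 184) (.e (nat_lit 426125) (nat_lit 2) (.e (nat_lit 196624) (nat_lit 9) (.e (nat_lit 7936) (nat_lit 111) .nil)))) .nil)) 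
(.lf (nat_lit 97655) (.g (nat_lit 2261) (.e (nat_lit 2887) (nat_lit 184) (.e (nat_lit 426317) (nat_lit 12) (.e (nat_lit 475207) (nat_lit 41) (.e (nat_lit 712755) (nat_lit 30) (.e (nat_lit 450563) (nat_lit 0) (.e (nat_lit 5539) (nat_lit 306) (.e (nat_lit 2505) (nat_lit 157) .nil))))))) (.g (nat_lit 5) .nil .nil))))) (.nd (nat_lit 4) (.nd (nat_lit 5) 
(.lf (nat_lit 97615) (.g (nat_lit 1365) (.e (nat_lit 2878) (nat_lit 184) (.e (nat_lit 426125) (nat_lit 2) (.e (nat_lit 196655) (nat_lit 11) .nil))) .nil)) 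
(.lf (nat_lit 97647) (.g (nat_lit 4489) (.e (nat_lit 2887) (nat_lit 184) (.e (nat_lit 426125) (nat_lit 2) (.e (nat_lit 196666) (nat_lit 13) (.e (nat_lit 65619) (nat_lit 10) .nil)))) .nil))) (.nd (nat_lit 5) 
(.lf (nat_lit 97631) (.g (nat_lit 3976) (.e (nat_lit 2887) (nat_lit 184) (.e (nat_lit 426043) (nat_lit 0) (.e (nat_lit 3390) (nat_lit 210) (.e (nat_lit 639017) (nat_lit 15) (.e (nat_lit 57480) (nat_lit 28) (.e (nat_lit 557109) (nat_lit 15) (.e (nat_lit 188461) (nat_lit 26) (.e (nat_lit 261888) (nat_lit 0) .nil)))))))) (.g (nat_lit 7) .nil .nil))) 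
(.lf (nat_lit 97663) (.g (nat_lit 2341) (.e (nat_lit 2887) (nat_lit 184) (.e (nat_lit 426412) (nat_lit 15) (.e (nat_lit 1856) (nat_lit 124) (.e (nat_lit 557100) (nat_lit 13) (.e (nat_lit 172106) (nat_lit 10) (.e (nat_lit 434227) (nat_lit 20) (.e (nat_lit 507928) (nat_lit 10) (.e (nat_lit 5650) (nat_lit 312) .nil)))))))) (.g (nat_lit 5) .nil .nil)))))))))

noncomputable def tv1340 : DT := (.nd (nat_lit 0) (.nd (nat_lit 1) (.nd (nat_lit 2) (.nd (nat_lit 3) (.nd (nat_lit 4) (.nd (nat_lit 5) 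
(.lf (nat_lit 97664) (.g (nat_lit 1883) (.e (nat_lit 2887) (nat_lit 184) (.e (nat_lit 426412) (nat_lit 15) (.e (nat_lit 1856) (nat_lit 124) (.e (nat_lit 557100) (nat_lit 13) (.e (nat_lit 172106) (nat_lit 10) (.e (nat_lit 434227) (nat_lit 20) (.e (nat_lit 507928) (nat_lit 10) (.e (nat_lit 5651) (nat_lit 312) .nil)))))))) (.g (nat_lit 5) .nil .nil))) 
(.lf (nat_lit 97696) (.g (nat_lit 2861) (.e (nat_lit 2888) (nat_lit 184) (.e (nat_lit 426310) (nat_lit 12) (.e (nat_lit 475185) (nat_lit 29) (.e (nat_lit 557109) (nat_lit 15) (.e (nat_lit 188441) (nat_lit 20) .nil))))) .nil))) (.nd (nat_lit 5) 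
(.lf (nat_lit 97680) (.g (nat_lit 2896) (.e (nat_lit 2887) (nat_lit 184) (.e (nat_lit 426412) (nat_lit 15) (.e (nat_lit 1856) (nat_lit 124) (.e (nat_lit 557100) (nat_lit 13) (.e (nat_lit 172106) (nat_lit 10) (.e (nat_lit 434227) (nat_lit 20) (.e (nat_lit 507930) (nat_lit 10) (.e (nat_lit 5671) (nat_lit 312) .nil)))))))) (.g (nat_lit 6) .nil .nil))) 
(.lf (nat_lit 97712) (.g (nat_lit 1458) (.e (nat_lit 2900) (nat_lit 184) (.e (nat_lit 426554) (nat_lit 32) (.e (nat_lit 376857) (nat_lit 21) (.e (nat_lit 57873) (nat_lit 264) (.e (nat_lit 1211) (nat_lit 89) (.e (nat_lit 81664) (nat_lit 32) .nil)))))) (.g (nat_lit 5) .nil .nil))))) (.nd (nat_lit 4) (.nd (nat_lit 5) 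
(.lf (nat_lit 97672) (.g (nat_lit 2204) (.e (nat_lit 2887) (nat_lit 184) (.e (nat_lit 426412) (nat_lit 15) (.e (nat_lit 1856) (nat_lit 124) (.e (nat_lit 557100) (nat_lit 13) (.e (nat_lit 172106) (nat_lit 10) (.e (nat_lit 434227) (nat_lit 20) (.e (nat_lit 507929) (nat_lit 10) (.e (nat_lit 5646) (nat_lit 312) .nil)))))))) (.g (nat_lit 5) .nil .nil))) 
(.lf (nat_lit 97704) (.g (nat_lit 795) (.e (nat_lit 2896) (nat_lit 184) (.e (nat_lit 426555) (nat_lit 32) (.e (nat_lit 376857) (nat_lit 21) .nil))) .nil))) (.nd (nat_lit 5) 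
(.lf (nat_lit 97688) (.g (nat_lit 2010) (.e (nat_lit 2887) (nat_lit 184) (.e (nat_lit 426412) (nat_lit 15) (.e (nat_lit 1856) (nat_lit 124) (.e (nat_lit 557109) (nat_lit 15) .nil)))) .nil)) 
(.lf (nat_lit 97720) (.g (nat_lit 4270) (.e (nat_lit 2936) (nat_lit 184) (.e (nat_lit 425984) (nat_lit 0) (.e (nat_lit 7580) (nat_lit 405) (.e (nat_lit 57464) (nat_lit 23) (.e (nat_lit 516151) (nat_lit 9) (.e (nat_lit 426338) (nat_lit 14) (.e (nat_lit 491537) (nat_lit 2) (.e (nat_lit 90133) (nat_lit 9) .nil)))))))) (.g (nat_lit 8) .nil .nil)))))) (.nd (nat_lit 3) (.nd (nat_lit 4) (.nd (nat_lit 5) 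
(.lf (nat_lit 97668) (.g (nat_lit 2278) (.e (nat_lit 2887) (nat_lit 184) (.e (nat_lit 426412) (nat_lit 15) (.e (nat_lit 1856) (nat_lit 124) (.e (nat_lit 557100) (nat_lit 13) (.e (nat_lit 172106) (nat_lit 10) (.e (nat_lit 434227) (nat_lit 20) (.e (nat_lit 507928) (nat_lit 10) (.e (nat_lit 5663) (nat_lit 312) .nil)))))))) (.g (nat_lit 5) .nil .nil))) 
(.lf (nat_lit 97700) (.g (nat_lit 3109) (.e (nat_lit 2888) (nat_lit 184) (.e (nat_lit 426317) (nat_lit 12) (.e (nat_lit 475185) (nat_lit 29) (.e (nat_lit 557109) (nat_lit 15) (.e (nat_lit 188441) (nat_lit 20) .nil))))) .nil))) (.nd (nat_lit 5) 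
(.lf (nat_lit 97684) (.g (nat_lit 1726) (.e (nat_lit 2887) (nat_lit 184) (.e (nat_lit 426412) (nat_lit 15) (.e (nat_lit 1856) (nat_lit 124) (.e (nat_lit 557100) (nat_lit 13) (.e (nat_lit 172113) (nat_lit 10) (.e (nat_lit 434227) (nat_lit 20) (.e (nat_lit 507930) (nat_lit 10) (.e (nat_lit 5656) (nat_lit 312) .nil)))))))) (.g (nat_lit 4) .nil .nil))) 
(.lf (nat_lit 97716) (.g (nat_lit 1923) (.e (nat_lit 2914) (nat_lit 184) (.e (nat_lit 426316) (nat_lit 12) (.e (nat_lit 475185) (nat_lit 29) (.e (nat_lit 557107) (nat_lit 15) .nil)))) .nil)))) (.nd (nat_lit 4) (.nd (nat_lit 5) 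
(.lf (nat_lit 97676) (.g (nat_lit 3141) (.e (nat_lit 2887) (nat_lit 184) (.e (nat_lit 426412) (nat_lit 15) (.e (nat_lit 1856) (nat_lit 124) (.e (nat_lit 557100) (nat_lit 13) (.e (nat_lit 172106) (nat_lit 10) (.e (nat_lit 434227) (nat_lit 20) (.e (nat_lit 507930) (nat_lit 10) (.e (nat_lit 5646) (nat_lit 312) .nil)))))))) (.g (nat_lit 7) .nil .nil))) 
(.lf (nat_lit 97708) (.g (nat_lit 2703) (.e (nat_lit 2898) (nat_lit 184) (.e (nat_lit 426447) (nat_lit 20) (.e (nat_lit 114714) (nat_lit 22) (.e (nat_lit 90160) (nat_lit 11) (.e (nat_lit 24639) (nat_lit 10) (.e (nat_lit 344107) (nat_lit 19) (.e (nat_lit 499825) (nat_lit 5) .nil))))))) (.g (nat_lit 6) .nil .nil)))) (.nd (nat_lit 5) 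
(.lf (nat_lit 97692) (.g (nat_lit 1137) (.e (nat_lit 2887) (nat_lit 184) (.e (nat_lit 426499) (nat_lit 27) (.e (nat_lit 336229) (nat_lit 14) (.e (nat_lit 401458) (nat_lit 13) .nil)))) .nil)) 
(.lf (nat_lit 97724) (.g (nat_lit 3191) (.e (nat_lit 2936) (nat_lit 184) (.e (nat_lit 425987) (nat_lit 0) (.e (nat_lit 7580) (nat_lit 405) (.e (nat_lit 57464) (nat_lit 23) (.e (nat_lit 516151) (nat_lit 9) (.e (nat_lit 426170) (nat_lit 7) (.e (nat_lit 409631) (nat_lit 12) (.e (nat_lit 32800) (nat_lit 14) .nil)))))))) (.g (nat_lit 7) .nil .nil))))))) 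
(.nd (nat_lit 2) (.nd (nat_lit 3) (.nd (nat_lit 4) (.nd (nat_lit 5) 
(.lf (nat_lit 97666) (.g (nat_lit 1765) (.e (nat_lit 2887) (nat_lit 184) (.e (nat_lit 426412) (nat_lit 15) (.e (nat_lit 1856) (nat_lit 124) (.e (nat_lit 557100) (nat_lit 13) (.e (nat_lit 172106) (nat_lit 10) (.e (nat_lit 434227) (nat_lit 20) (.e (nat_lit 507928) (nat_lit 10) (.e (nat_lit 5655) (nat_lit 312) .nil)))))))) (.g (nat_lit 4) .nil .nil))) 
(.lf (nat_lit 97698) (.g (nat_lit 2226) (.e (nat_lit 2888) (nat_lit 184) (.e (nat_lit 426317) (nat_lit 12) (.e (nat_lit 475185) (nat_lit 29) (.e (nat_lit 557107) (nat_lit 15) (.e (nat_lit 188440) (nat_lit 20) .nil))))) .nil))) (.nd (nat_lit 5) 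
(.lf (nat_lit 97682) (.g (nat_lit 1561) (.e (nat_lit 2887) (nat_lit 184) (.e (nat_lit 426412) (nat_lit 15) (.e (nat_lit 1856) (nat_lit 124) (.e (nat_lit 557100) (nat_lit 13) (.e (nat_lit 172113) (nat_lit 10) (.e (nat_lit 434227) (nat_lit 20) (.e (nat_lit 507929) (nat_lit 10) (.e (nat_lit 5656) (nat_lit 312) .nil)))))))) (.g (nat_lit 4) .nil .nil))) 
(.lf (nat_lit 97714) (.g (nat_lit 1576) (.e (nat_lit 2900) (nat_lit 184) (.e (nat_lit 426554) (nat_lit 32) (.e (nat_lit 376859) (nat_lit 21) (.e (nat_lit 57873) (nat_lit 264) (.e (nat_lit 1211) (nat_lit 89) (.e (nat_lit 81664) (nat_lit 32) .nil)))))) (.g (nat_lit 5) .nil .nil))))) (.nd (nat_lit 4) (.nd (nat_lit 5) 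
(.lf (nat_lit 97674) (.g (nat_lit 2312) (.e (nat_lit 2887) (nat_lit 184) (.e (nat_lit 426412) (nat_lit 15) (.e (nat_lit 1856) (nat_lit 124) (.e (nat_lit 557100) (nat_lit 13) (.e (nat_lit 172106) (nat_lit 10) (.e (nat_lit 434227) (nat_lit 20) (.e (nat_lit 507930) (nat_lit 10) (.e (nat_lit 5612) (nat_lit 312) .nil)))))))) (.g (nat_lit 5) .nil .nil))) 
(.lf (nat_lit 97706) (.g (nat_lit 1830) (.e (nat_lit 2896) (nat_lit 184) (.e (nat_lit 426555) (nat_lit 32) (.e (nat_lit 376859) (nat_lit 21) (.e (nat_lit 57873) (nat_lit 264) (.e (nat_lit 1211) (nat_lit 89) .nil))))) .nil))) (.nd (nat_lit 5) 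
(.lf (nat_lit 97690) (.g (nat_lit 3913) (.e (nat_lit 2887) (nat_lit 184) (.e (nat_lit 426412) (nat_lit 15) (.e (nat_lit 2059) (nat_lit 142) (.e (nat_lit 704595) (nat_lit 5) (.e (nat_lit 180277) (nat_lit 32) (.e (nat_lit 1638) (nat_lit 114) (.e (nat_lit 392960) (nat_lit 8) .nil))))))) (.g (nat_lit 6) .nil .nil))) 
(.lf (nat_lit 97722) (.g (nat_lit 4101) (.e (nat_lit 2936) (nat_lit 184) (.e (nat_lit 425984) (nat_lit 0) (.e (nat_lit 7582) (nat_lit 405) (.e (nat_lit 57464) (nat_lit 23) (.e (nat_lit 516151) (nat_lit 9) (.e (nat_lit 426338) (nat_lit 14) (.e (nat_lit 491537) (nat_lit 2) (.e (nat_lit 90133) (nat_lit 9) .nil)))))))) (.g (nat_lit 8) .nil .nil)))))) (.nd (nat_lit 3) (.nd (nat_lit 4) (.nd (nat_lit 5) 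
(.lf (nat_lit 97670) (.g (nat_lit 2097) (.e (nat_lit 2887) (nat_lit 184) (.e (nat_lit 426412) (nat_lit 15) (.e (nat_lit 1856) (nat_lit 124) (.e (nat_lit 557100) (nat_lit 13) (.e (nat_lit 172106) (nat_lit 10) (.e (nat_lit 434227) (nat_lit 20) (.e (nat_lit 507929) (nat_lit 10) (.e (nat_lit 5612) (nat_lit 312) .nil)))))))) (.g (nat_lit 5) .nil .nil))) 
(.lf (nat_lit 97702) (.g (nat_lit 1450) (.e (nat_lit 2896) (nat_lit 184) (.e (nat_lit 426546) (nat_lit 30) (.e (nat_lit 360452) (nat_lit 0) (.e (nat_lit 5907) (nat_lit 320) (.e (nat_lit 1211) (nat_lit 89) .nil))))) .nil))) (.nd (nat_lit 5) 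
(.lf (nat_lit 97686) (.g (nat_lit 1729) (.e (nat_lit 2887) (nat_lit 184) (.e (nat_lit 426412) (nat_lit 15) (.e (nat_lit 1856) (nat_lit 124) (.e (nat_lit 557101) (nat_lit 13) .nil)))) .nil)) 
(.lf (nat_lit 97718) (.g (nat_lit 3179) (.e (nat_lit 2936) (nat_lit 184) (.e (nat_lit 425984) (nat_lit 0) (.e (nat_lit 3377) (nat_lit 209) (.e (nat_lit 630821) (nat_lit 16) (.e (nat_lit 65586) (nat_lit 7) (.e (nat_lit 319531) (nat_lit 16) (.e (nat_lit 286727) (nat_lit 0) (.e (nat_lit 6674) (nat_lit 357) .nil)))))))) (.g (nat_lit 7) .nil .nil))))) (.nd (nat_lit 4) (.nd (nat_lit 5) 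
(.lf (nat_lit 97678) (.g (nat_lit 2316) (.e (nat_lit 2887) (nat_lit 184) (.e (nat_lit 426412) (nat_lit 15) (.e (nat_lit 1856) (nat_lit 124) (.e (nat_lit 557100) (nat_lit 13) (.e (nat_lit 172106) (nat_lit 10) (.e (nat_lit 434227) (nat_lit 20) (.e (nat_lit 507930) (nat_lit 10) (.e (nat_lit 5651) (nat_lit 312) .nil)))))))) (.g (nat_lit 5) .nil .nil))) 
(.lf (nat_lit 97710) (.g (nat_lit 2156) (.e (nat_lit 2900) (nat_lit 184) (.e (nat_lit 426318) (nat_lit 12) (.e (nat_lit 475185) (nat_lit 29) (.e (nat_lit 557107) (nat_lit 15) .nil)))) .nil))) (.nd (nat_lit 5) 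
(.lf (nat_lit 97694) (.g (nat_lit 2400) (.e (nat_lit 2888) (nat_lit 184) (.e (nat_lit 426310) (nat_lit 12) (.e (nat_lit 475185) (nat_lit 29) (.e (nat_lit 557107) (nat_lit 15) (.e (nat_lit 188440) (nat_lit 20) .nil))))) .nil)) 
(.lf (nat_lit 97726) (.g (nat_lit 3220) (.e (nat_lit 2936) (nat_lit 184) (.e (nat_lit 425987) (nat_lit 0) (.e (nat_lit 7582) (nat_lit 405) (.e (nat_lit 57464) (nat_lit 23) (.e (nat_lit 516151) (nat_lit 9) (.e (nat_lit 426170) (nat_lit 7) (.e (nat_lit 409631) (nat_lit 12) (.e (nat_lit 32800) (nat_lit 14) .nil)))))))) (.g (nat_lit 7) .nil .nil)))))))) 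
(.nd (nat_lit 1) (.nd (nat_lit 2) (.nd (nat_lit 3) (.nd (nat_lit 4) (.nd (nat_lit 5) 
(.lf (nat_lit 97665) (.g (nat_lit 2268) (.e (nat_lit 2887) (nat_lit 184) (.e (nat_lit 426412) (nat_lit 15) (.e (nat_lit 1856) (nat_lit 124) (.e (nat_lit 557100) (nat_lit 13) (.e (nat_lit 172106) (nat_lit 10) (.e (nat_lit 434227) (nat_lit 20) (.e (nat_lit 507928) (nat_lit 10) (.e (nat_lit 5653) (nat_lit 312) .nil)))))))) (.g (nat_lit 5) .nil .nil))) 
(.lf (nat_lit 97697) (.g (nat_lit 2277) (.e (nat_lit 2888) (nat_lit 184) (.e (nat_lit 426317) (nat_lit 12) (.e (nat_lit 475185) (nat_lit 29) (.e (nat_lit 557107) (nat_lit 15) (.e (nat_lit 188439) (nat_lit 20) .nil))))) .nil))) (.nd (nat_lit 5) 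
(.lf (nat_lit 97681) (.g (nat_lit 3488) (.e (nat_lit 2887) (nat_lit 184) (.e (nat_lit 426412) (nat_lit 15) (.e (nat_lit 1856) (nat_lit 124) (.e (nat_lit 557100) (nat_lit 13) (.e (nat_lit 172106) (nat_lit 10) (.e (nat_lit 434244) (nat_lit 28) (.e (nat_lit 573468) (nat_lit 10) (.e (nat_lit 16128) (nat_lit 205) .nil)))))))) (.g (nat_lit 7) .nil .nil))) 
(.lf (nat_lit 97713) (.g (nat_lit 1818) (.e (nat_lit 2900) (nat_lit 184) (.e (nat_lit 426554) (nat_lit 32) (.e (nat_lit 376859) (nat_lit 21) (.e (nat_lit 57873) (nat_lit 264) (.e (nat_lit 1209) (nat_lit 89) (.e (nat_lit 81664) (nat_lit 32) .nil)))))) (.g (nat_lit 5) .nil .nil))))) (.nd (nat_lit 4) (.nd (nat_lit 5) 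
(.lf (nat_lit 97673) (.g (nat_lit 3230) (.e (nat_lit 2887) (nat_lit 184) (.e (nat_lit 426412) (nat_lit 15) (.e (nat_lit 1856) (nat_lit 124) (.e (nat_lit 557100) (nat_lit 13) (.e (nat_lit 172106) (nat_lit 10) (.e (nat_lit 434227) (nat_lit 20) (.e (nat_lit 507929) (nat_lit 10) (.e (nat_lit 5656) (nat_lit 312) .nil)))))))) (.g (nat_lit 7) .nil .nil))) 
(.lf (nat_lit 97705) (.g (nat_lit 1946) (.e (nat_lit 2896) (nat_lit 184) (.e (nat_lit 426555) (nat_lit 32) (.e (nat_lit 376857) (nat_lit 21) (.e (nat_lit 57873) (nat_lit 264) (.e (nat_lit 1211) (nat_lit 89) .nil))))) .nil))) (.nd (nat_lit 5) 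
(.lf (nat_lit 97689) (.g (nat_lit 659) (.e (nat_lit 2887) (nat_lit 184) (.e (nat_lit 426412) (nat_lit 15) (.e (nat_lit 2024) (nat_lit 140) .nil))) .nil)) 
(.lf (nat_lit 97721) (.g (nat_lit 3244) (.e (nat_lit 2936) (nat_lit 184) (.e (nat_lit 425984) (nat_lit 0) (.e (nat_lit 7582) (nat_lit 405) (.e (nat_lit 57464) (nat_lit 23) (.e (nat_lit 516151) (nat_lit 9) (.e (nat_lit 426170) (nat_lit 7) (.e (nat_lit 409631) (nat_lit 12) (.e (nat_lit 32800) (nat_lit 14) .nil)))))))) (.g (nat_lit 7) .nil .nil)))))) 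
(.nd (nat_lit 3) (.nd (nat_lit 4) (.nd (nat_lit 5) 
(.lf (nat_lit 97669) (.g (nat_lit 2323) (.e (nat_lit 2887) (nat_lit 184) (.e (nat_lit 426412) (nat_lit 15) (.e (nat_lit 1856) (nat_lit 124) (.e (nat_lit 557100) (nat_lit 13) (.e (nat_lit 172106) (nat_lit 10) (.e (nat_lit 434227) (nat_lit 20) (.e (nat_lit 507928) (nat_lit 10) (.e (nat_lit 5671) (nat_lit 312) .nil)))))))) (.g (nat_lit 5) .nil .nil))) 
(.lf (nat_lit 97701) (.g (nat_lit 1286) (.e (nat_lit 2896) (nat_lit 184) (.e (nat_lit 426546) (nat_lit 30) (.e (nat_lit 360452) (nat_lit 0) (.e (nat_lit 5907) (nat_lit 320) (.e (nat_lit 1209) (nat_lit 89) (.e (nat_lit 81664) (nat_lit 32) .nil)))))) (.g (nat_lit 5) .nil .nil)))) (.nd (nat_lit 5) 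
(.lf (nat_lit 97685) (.g (nat_lit 3306) (.e (nat_lit 2887) (nat_lit 184) (.e (nat_lit 426412) (nat_lit 15) (.e (nat_lit 1856) (nat_lit 124) (.e (nat_lit 557100) (nat_lit 13) (.e (nat_lit 172113) (nat_lit 10) (.e (nat_lit 434245) (nat_lit 28) (.e (nat_lit 573468) (nat_lit 10) (.e (nat_lit 16128) (nat_lit 205) .nil)))))))) (.g (nat_lit 7) .nil .nil))) 
(.lf (nat_lit 97717) (.g (nat_lit 1728) (.e (nat_lit 2928) (nat_lit 184) (.e (nat_lit 426316) (nat_lit 12) (.e (nat_lit 475185) (nat_lit 29) (.e (nat_lit 557107) (nat_lit 15) .nil)))) .nil)))) (.nd (nat_lit 4) (.nd (nat_lit 5) 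
(.lf (nat_lit 97677) (.g (nat_lit 2403) (.e (nat_lit 2887) (nat_lit 184) (.e (nat_lit 426412) (nat_lit 15) (.e (nat_lit 1856) (nat_lit 124) (.e (nat_lit 557100) (nat_lit 13) (.e (nat_lit 172106) (nat_lit 10) (.e (nat_lit 434227) (nat_lit 20) (.e (nat_lit 507930) (nat_lit 10) (.e (nat_lit 5650) (nat_lit 312) .nil)))))))) (.g (nat_lit 5) .nil .nil))) 
(.lf (nat_lit 97709) (.g (nat_lit 2494) (.e (nat_lit 2900) (nat_lit 184) (.e (nat_lit 426318) (nat_lit 12) (.e (nat_lit 475185) (nat_lit 29) (.e (nat_lit 557098) (nat_lit 13) (.e (nat_lit 172126) (nat_lit 14) .nil))))) .nil))) (.nd (nat_lit 5) 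
(.lf (nat_lit 97693) (.g (nat_lit 2599) (.e (nat_lit 2888) (nat_lit 184) (.e (nat_lit 426310) (nat_lit 12) (.e (nat_lit 475185) (nat_lit 29) (.e (nat_lit 557107) (nat_lit 15) (.e (nat_lit 188439) (nat_lit 20) .nil))))) .nil)) 
(.lf (nat_lit 97725) (.g (nat_lit 4226) (.e (nat_lit 2936) (nat_lit 184) (.e (nat_lit 425987) (nat_lit 0) (.e (nat_lit 7580) (nat_lit 405) (.e (nat_lit 57464) (nat_lit 23) (.e (nat_lit 516151) (nat_lit 9) (.e (nat_lit 426338) (nat_lit 14) (.e (nat_lit 491537) (nat_lit 2) (.e (nat_lit 90133) (nat_lit 9) .nil)))))))) (.g (nat_lit 8) .nil .nil))))))) 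
(.nd (nat_lit 2) (.nd (nat_lit 3) (.nd (nat_lit 4) (.nd (nat_lit 5) 
(.lf (nat_lit 97667) (.g (nat_lit 1885) (.e (nat_lit 2887) (nat_lit 184) (.e (nat_lit 426412) (nat_lit 15) (.e (nat_lit 1856) (nat_lit 124) (.e (nat_lit 557100) (nat_lit 13) (.e (nat_lit 172106) (nat_lit 10) (.e (nat_lit 434227) (nat_lit 20) (.e (nat_lit 507928) (nat_lit 10) (.e (nat_lit 5656) (nat_lit 312) .nil)))))))) (.g (nat_lit 5) .nil .nil))) 
(.lf (nat_lit 97699) (.g (nat_lit 2398) (.e (nat_lit 2888) (nat_lit 184) (.e (nat_lit 426317) (nat_lit 12) (.e (nat_lit 475185) (nat_lit 29) (.e (nat_lit 557109) (nat_lit 15) (.e (nat_lit 188434) (nat_lit 20) .nil))))) .nil))) (.nd (nat_lit 5) 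
(.lf (nat_lit 97683) (.g (nat_lit 1627) (.e (nat_lit 2887) (nat_lit 184) (.e (nat_lit 426412) (nat_lit 15) (.e (nat_lit 1856) (nat_lit 124) (.e (nat_lit 557100) (nat_lit 13) (.e (nat_lit 172113) (nat_lit 10) (.e (nat_lit 434227) (nat_lit 20) (.e (nat_lit 507930) (nat_lit 10) (.e (nat_lit 5645) (nat_lit 312) .nil)))))))) (.g (nat_lit 4) .nil .nil))) 
(.lf (nat_lit 97715) (.g (nat_lit 617) (.e (nat_lit 2900) (nat_lit 184) (.e (nat_lit 426565) (nat_lit 34) (.e (nat_lit 393291) (nat_lit 26) (.e (nat_lit 475177) (nat_lit 24) .nil)))) .nil)))) (.nd (nat_lit 4) (.nd (nat_lit 5) 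
(.lf (nat_lit 97675) (.g (nat_lit 3335) (.e (nat_lit 2887) (nat_lit 184) (.e (nat_lit 426412) (nat_lit 15) (.e (nat_lit 1856) (nat_lit 124) (.e (nat_lit 557100) (nat_lit 13) (.e (nat_lit 172106) (nat_lit 10) (.e (nat_lit 434227) (nat_lit 20) (.e (nat_lit 507930) (nat_lit 10) (.e (nat_lit 5645) (nat_lit 312) .nil)))))))) (.g (nat_lit 7) .nil .nil))) 
(.lf (nat_lit 97707) (.g (nat_lit 1239) (.e (nat_lit 2897) (nat_lit 184) (.e (nat_lit 426546) (nat_lit 30) (.e (nat_lit 360452) (nat_lit 0) (.e (nat_lit 5907) (nat_lit 320) (.e (nat_lit 1209) (nat_lit 89) (.e (nat_lit 81664) (nat_lit 32) .nil)))))) (.g (nat_lit 5) .nil .nil)))) (.nd (nat_lit 5) 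
(.lf (nat_lit 97691) (.g (nat_lit 3775) (.e (nat_lit 2887) (nat_lit 184) (.e (nat_lit 426412) (nat_lit 15) (.e (nat_lit 2059) (nat_lit 142) (.e (nat_lit 704595) (nat_lit 5) (.e (nat_lit 180278) (nat_lit 32) (.e (nat_lit 1638) (nat_lit 114) (.e (nat_lit 392960) (nat_lit 8) .nil))))))) (.g (nat_lit 6) .nil .nil))) 
(.lf (nat_lit 97723) (.g (nat_lit 3129) (.e (nat_lit 2936) (nat_lit 184) (.e (nat_lit 425987) (nat_lit 0) (.e (nat_lit 7489) (nat_lit 402) (.e (nat_lit 1400) (nat_lit 106) (.e (nat_lit 319534) (nat_lit 16) (.e (nat_lit 286756) (nat_lit 10) (.e (nat_lit 344154) (nat_lit 35) (.e (nat_lit 630793) (nat_lit 5) .nil)))))))) (.g (nat_lit 6) .nil .nil)))))) 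
(.nd (nat_lit 3) (.nd (nat_lit 4) (.nd (nat_lit 5) 
(.lf (nat_lit 97671) (.g (nat_lit 2224) (.e (nat_lit 2887) (nat_lit 184) (.e (nat_lit 426412) (nat_lit 15) (.e (nat_lit 1856) (nat_lit 124) (.e (nat_lit 557100) (nat_lit 13) (.e (nat_lit 172106) (nat_lit 10) (.e (nat_lit 434227) (nat_lit 20) (.e (nat_lit 507929) (nat_lit 10) (.e (nat_lit 5645) (nat_lit 312) .nil)))))))) (.g (nat_lit 5) .nil .nil))) 
(.lf (nat_lit 97703) (.g (nat_lit 379) (.e (nat_lit 2896) (nat_lit 184) (.e (nat_lit 426550) (nat_lit 31) (.e (nat_lit 368656) (nat_lit 14) .nil))) .nil))) (.nd (nat_lit 5) 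
(.lf (nat_lit 97687) (.g (nat_lit 2020) (.e (nat_lit 2887) (nat_lit 184) (.e (nat_lit 426412) (nat_lit 15) (.e (nat_lit 1856) (nat_lit 124) (.e (nat_lit 557107) (nat_lit 15) .nil)))) .nil)) 
(.lf (nat_lit 97719) (.g (nat_lit 3197) (.e (nat_lit 2936) (nat_lit 184) (.e (nat_lit 425984) (nat_lit 0) (.e (nat_lit 7545) (nat_lit 402) (.e (nat_lit 1228) (nat_lit 91) (.e (nat_lit 90167) (nat_lit 13) (.e (nat_lit 172126) (nat_lit 14) (.e (nat_lit 491537) (nat_lit 2) (.e (nat_lit 90133) (nat_lit 9) .nil)))))))) (.g (nat_lit 8) .nil .nil))))) (.nd (nat_lit 4) (.nd (nat_lit 5) 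
(.lf (nat_lit 97679) (.g (nat_lit 3086) (.e (nat_lit 2887) (nat_lit 184) (.e (nat_lit 426412) (nat_lit 15) (.e (nat_lit 1856) (nat_lit 124) (.e (nat_lit 557100) (nat_lit 13) (.e (nat_lit 172106) (nat_lit 10) (.e (nat_lit 434227) (nat_lit 20) (.e (nat_lit 507930) (nat_lit 10) (.e (nat_lit 5655) (nat_lit 312) .nil)))))))) (.g (nat_lit 6) .nil .nil))) 
(.lf (nat_lit 97711) (.g (nat_lit 1711) (.e (nat_lit 2900) (nat_lit 184) (.e (nat_lit 426554) (nat_lit 32) (.e (nat_lit 376857) (nat_lit 21) (.e (nat_lit 57873) (nat_lit 264) (.e (nat_lit 1209) (nat_lit 89) (.e (nat_lit 81664) (nat_lit 32) .nil)))))) (.g (nat_lit 5) .nil .nil)))) (.nd (nat_lit 5) 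
(.lf (nat_lit 97695) (.g (nat_lit 2485) (.e (nat_lit 2888) (nat_lit 184) (.e (nat_lit 426310) (nat_lit 12) (.e (nat_lit 475185) (nat_lit 29) (.e (nat_lit 557107) (nat_lit 15) (.e (nat_lit 188441) (nat_lit 20) .nil))))) .nil)) 
(.lf (nat_lit 97727) (.g (nat_lit 4056) (.e (nat_lit 2936) (nat_lit 184) (.e (nat_lit 425987) (nat_lit 0) (.e (nat_lit 7582) (nat_lit 405) (.e (nat_lit 57464) (nat_lit 23) (.e (nat_lit 516151) (nat_lit 9) (.e (nat_lit 426338) (nat_lit 14) (.e (nat_lit 491537) (nat_lit 2) (.e (nat_lit 90133) (nat_lit 9) .nil)))))))) (.g (nat_lit 8) .nil .nil)))))))))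

noncomputable def tv1341 : DT := (.nd (nat_lit 0) (.nd (nat_lit 1) (.nd (nat_lit 2) (.nd (nat_lit 3) (.nd (nat_lit 4) (.nd (nat_lit 5) 
(.lf (nat_lit 97728) (.g (nat_lit 1122) (.e (nat_lit 2936) (nat_lit 184) (.e (nat_lit 426163) (nat_lit 6) (.e (nat_lit 253963) (nat_lit 9) (.e (nat_lit 433) (nat_lit 32) (.e (nat_lit 426262) (nat_lit 9) .nil))))) .nil)) 
(.lf (nat_lit 97760) (.g (nat_lit 1979) (.e (nat_lit 2936) (nat_lit 184) (.e (nat_lit 426503) (nat_lit 27) (.e (nat_lit 336204) (nat_lit 12) (.e (nat_lit 385092) (nat_lit 49) (.e (nat_lit 778323) (nat_lit 5) .nil))))) .nil))) (.nd (nat_lit 5) 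
(.lf (nat_lit 97744) (.g (nat_lit 3111) (.e (nat_lit 2936) (nat_lit 184) (.e (nat_lit 426431) (nat_lit 17) (.e (nat_lit 98048) (nat_lit 5) (.e (nat_lit 73754) (nat_lit 8) (.e (nat_lit 557105) (nat_lit 14) (.e (nat_lit 180252) (nat_lit 10) (.e (nat_lit 581376) (nat_lit 0) .nil))))))) (.g (nat_lit 6) .nil .nil))) 
(.lf (nat_lit 97776) (.g (nat_lit 2071) (.e (nat_lit 2936) (nat_lit 184) (.e (nat_lit 426503) (nat_lit 27) (.e (nat_lit 336232) (nat_lit 14) (.e (nat_lit 401444) (nat_lit 9) (.e (nat_lit 433920) (nat_lit 28) .nil))))) .nil)))) (.nd (nat_lit 4) (.nd (nat_lit 5) 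
(.lf (nat_lit 97736) (.g (nat_lit 2394) (.e (nat_lit 2936) (nat_lit 184) (.e (nat_lit 426347) (nat_lit 14) (.e (nat_lit 491537) (nat_lit 2) (.e (nat_lit 90169) (nat_lit 13) (.e (nat_lit 172124) (nat_lit 14) .nil))))) .nil)) 
(.lf (nat_lit 97768) (.g (nat_lit 1655) (.e (nat_lit 2936) (nat_lit 184) (.e (nat_lit 426503) (nat_lit 27) (.e (nat_lit 336231) (nat_lit 14) (.e (nat_lit 401440) (nat_lit 9) (.e (nat_lit 433920) (nat_lit 28) .nil))))) .nil))) (.nd (nat_lit 5) 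
(.lf (nat_lit 97752) (.g (nat_lit 1590) (.e (nat_lit 2936) (nat_lit 184) (.e (nat_lit 426503) (nat_lit 27) (.e (nat_lit 335895) (nat_lit 0) (.e (nat_lit 6720) (nat_lit 361) (.e (nat_lit 179968) (nat_lit 28) (.e (nat_lit 344066) (nat_lit 0) .nil)))))) (.g (nat_lit 4) .nil .nil))) 
(.lf (nat_lit 97784) (.g (nat_lit 474) (.e (nat_lit 2936) (nat_lit 184) (.e (nat_lit 426541) (nat_lit 29) (.e (nat_lit 352264) (nat_lit 0) (.e (nat_lit 3714) (nat_lit 227) (.e (nat_lit 786176) (nat_lit 5) (.e (nat_lit 73779) (nat_lit 32) .nil)))))) (.g (nat_lit 4) .nil .nil)))))) (.nd (nat_lit 3) (.nd (nat_lit 4) (.nd (nat_lit 5) 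
(.lf (nat_lit 97732) (.g (nat_lit 2777) (.e (nat_lit 2936) (nat_lit 184) (.e (nat_lit 426163) (nat_lit 6) (.e (nat_lit 253991) (nat_lit 11) (.e (nat_lit 16444) (nat_lit 9) (.e (nat_lit 426532) (nat_lit 28) (.e (nat_lit 344067) (nat_lit 0) .nil)))))) (.g (nat_lit 4) .nil .nil))) 
(.lf (nat_lit 97764) (.g (nat_lit 2870) (.e (nat_lit 2936) (nat_lit 184) (.e (nat_lit 426503) (nat_lit 27) (.e (nat_lit 336231) (nat_lit 14) (.e (nat_lit 401435) (nat_lit 9) (.e (nat_lit 426533) (nat_lit 28) (.e (nat_lit 344066) (nat_lit 0) .nil)))))) (.g (nat_lit 6) .nil .nil)))) (.nd (nat_lit 5) 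
(.lf (nat_lit 97748) (.g (nat_lit 1750) (.e (nat_lit 2936) (nat_lit 184) (.e (nat_lit 426488) (nat_lit 27) (.e (nat_lit 336206) (nat_lit 12) (.e (nat_lit 385094) (nat_lit 49) (.e (nat_lit 778323) (nat_lit 5) (.e (nat_lit 73780) (nat_lit 32) .nil)))))) (.g (nat_lit 5) .nil .nil))) 
(.lf (nat_lit 97780) (.g (nat_lit 39) (.e (nat_lit 2936) (nat_lit 184) (.e (nat_lit 426532) (nat_lit 28) (.e (nat_lit 344067) (nat_lit 0) .nil))) .nil)))) (.nd (nat_lit 4) (.nd (nat_lit 5) 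
(.lf (nat_lit 97740) (.g (nat_lit 2858) (.e (nat_lit 2936) (nat_lit 184) (.e (nat_lit 426401) (nat_lit 15) (.e (nat_lit 1848) (nat_lit 124) (.e (nat_lit 557108) (nat_lit 15) (.e (nat_lit 188452) (nat_lit 23) (.e (nat_lit 204821) (nat_lit 17) (.e (nat_lit 6674) (nat_lit 357) .nil))))))) (.g (nat_lit 6) .nil .nil))) 
(.lf (nat_lit 97772) (.g (nat_lit 2804) (.e (nat_lit 2936) (nat_lit 184) (.e (nat_lit 426503) (nat_lit 27) (.e (nat_lit 336232) (nat_lit 14) (.e (nat_lit 401435) (nat_lit 9) (.e (nat_lit 426533) (nat_lit 28) (.e (nat_lit 344066) (nat_lit 0) .nil)))))) (.g (nat_lit 6) .nil .nil)))) (.nd (nat_lit 5) 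
(.lf (nat_lit 97756) (.g (nat_lit 2405) (.e (nat_lit 2936) (nat_lit 184) (.e (nat_lit 426503) (nat_lit 27) (.e (nat_lit 336194) (nat_lit 12) (.e (nat_lit 385094) (nat_lit 49) (.e (nat_lit 778323) (nat_lit 5) (.e (nat_lit 73780) (nat_lit 32) .nil)))))) (.g (nat_lit 5) .nil .nil))) 
(.lf (nat_lit 97788) (.g (nat_lit 718) (.e (nat_lit 2936) (nat_lit 184) (.e (nat_lit 426541) (nat_lit 29) (.e (nat_lit 352285) (nat_lit 20) (.e (nat_lit 1998) (nat_lit 137) (.e (nat_lit 663568) (nat_lit 5) (.e (nat_lit 73779) (nat_lit 32) .nil)))))) (.g (nat_lit 5) .nil .nil))))))) (.nd (nat_lit 2) (.nd (nat_lit 3) (.nd (nat_lit 4) (.nd (nat_lit 5) 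
(.lf (nat_lit 97730) (.g (nat_lit 1812) (.e (nat_lit 2936) (nat_lit 184) (.e (nat_lit 426163) (nat_lit 6) (.e (nat_lit 253991) (nat_lit 11) (.e (nat_lit 16388) (nat_lit 0) .nil)))) .nil)) 
(.lf (nat_lit 97762) (.g (nat_lit 1957) (.e (nat_lit 2936) (nat_lit 184) (.e (nat_lit 426503) (nat_lit 27) (.e (nat_lit 336229) (nat_lit 14) (.e (nat_lit 401436) (nat_lit 9) (.e (nat_lit 426533) (nat_lit 28) (.e (nat_lit 344066) (nat_lit 0) .nil)))))) (.g (nat_lit 4) .nil .nil)))) (.nd (nat_lit 5) 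
(.lf (nat_lit 97746) (.g (nat_lit 610) (.e (nat_lit 2936) (nat_lit 184) (.e (nat_lit 426488) (nat_lit 27) (.e (nat_lit 336121) (nat_lit 9) (.e (nat_lit 336331) (nat_lit 19) (.e (nat_lit 220928) (nat_lit 5) .nil))))) .nil)) 
(.lf (nat_lit 97778) (.g (nat_lit 2010) (.e (nat_lit 2936) (nat_lit 184) (.e (nat_lit 426508) (nat_lit 27) (.e (nat_lit 336200) (nat_lit 12) (.e (nat_lit 385094) (nat_lit 49) (.e (nat_lit 778323) (nat_lit 5) (.e (nat_lit 73780) (nat_lit 32) .nil)))))) (.g (nat_lit 5) .nil .nil))))) (.nd (nat_lit 4) (.nd (nat_lit 5) 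
(.lf (nat_lit 97738) (.g (nat_lit 2474) (.e (nat_lit 2936) (nat_lit 184) (.e (nat_lit 426356) (nat_lit 15) (.e (nat_lit 1853) (nat_lit 124) (.e (nat_lit 557108) (nat_lit 15) (.e (nat_lit 188449) (nat_lit 22) (.e (nat_lit 196661) (nat_lit 12) (.e (nat_lit 57749) (nat_lit 201) .nil))))))) (.g (nat_lit 6) .nil .nil))) 
(.lf (nat_lit 97770) (.g (nat_lit 2570) (.e (nat_lit 2936) (nat_lit 184) (.e (nat_lit 426503) (nat_lit 27) (.e (nat_lit 336231) (nat_lit 14) (.e (nat_lit 401444) (nat_lit 9) (.e (nat_lit 426532) (nat_lit 28) (.e (nat_lit 344067) (nat_lit 0) .nil)))))) (.g (nat_lit 6) .nil .nil)))) (.nd (nat_lit 5) 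
(.lf (nat_lit 97754) (.g (nat_lit 3045) (.e (nat_lit 2936) (nat_lit 184) (.e (nat_lit 426503) (nat_lit 27) (.e (nat_lit 336193) (nat_lit 12) (.e (nat_lit 385093) (nat_lit 49) (.e (nat_lit 778323) (nat_lit 5) (.e (nat_lit 73780) (nat_lit 32) .nil)))))) (.g (nat_lit 6) .nil .nil))) 
(.lf (nat_lit 97786) (.g (nat_lit 1096) (.e (nat_lit 2936) (nat_lit 184) (.e (nat_lit 426541) (nat_lit 29) (.e (nat_lit 352267) (nat_lit 0) (.e (nat_lit 3629) (nat_lit 227) (.e (nat_lit 778323) (nat_lit 5) (.e (nat_lit 73780) (nat_lit 32) .nil)))))) (.g (nat_lit 0) .nil .nil)))))) (.nd (nat_lit 3) (.nd (nat_lit 4) (.nd (nat_lit 5) 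
(.lf (nat_lit 97734) (.g (nat_lit 2275) (.e (nat_lit 2936) (nat_lit 184) (.e (nat_lit 426163) (nat_lit 6) (.e (nat_lit 253992) (nat_lit 11) (.e (nat_lit 16436) (nat_lit 9) (.e (nat_lit 433920) (nat_lit 28) .nil))))) .nil)) 
(.lf (nat_lit 97766) (.g (nat_lit 2624) (.e (nat_lit 2936) (nat_lit 184) (.e (nat_lit 426503) (nat_lit 27) (.e (nat_lit 336231) (nat_lit 14) (.e (nat_lit 401436) (nat_lit 9) (.e (nat_lit 426533) (nat_lit 28) (.e (nat_lit 344066) (nat_lit 0) .nil)))))) (.g (nat_lit 6) .nil .nil)))) (.nd (nat_lit 5) 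
(.lf (nat_lit 97750) (.g (nat_lit 2138) (.e (nat_lit 2936) (nat_lit 184) (.e (nat_lit 426503) (nat_lit 27) (.e (nat_lit 335894) (nat_lit 0) (.e (nat_lit 6718) (nat_lit 361) (.e (nat_lit 179968) (nat_lit 28) .nil))))) .nil)) 
(.lf (nat_lit 97782) (.g (nat_lit 460) (.e (nat_lit 2936) (nat_lit 184) (.e (nat_lit 426541) (nat_lit 29) (.e (nat_lit 352264) (nat_lit 0) (.e (nat_lit 3711) (nat_lit 227) (.e (nat_lit 786176) (nat_lit 5) (.e (nat_lit 73779) (nat_lit 32) .nil)))))) (.g (nat_lit 4) .nil .nil))))) (.nd (nat_lit 4) (.nd (nat_lit 5) 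
(.lf (nat_lit 97742) (.g (nat_lit 2908) (.e (nat_lit 2936) (nat_lit 184) (.e (nat_lit 426419) (nat_lit 15) (.e (nat_lit 1856) (nat_lit 124) (.e (nat_lit 557107) (nat_lit 15) (.e (nat_lit 188447) (nat_lit 22) (.e (nat_lit 196661) (nat_lit 12) (.e (nat_lit 57748) (nat_lit 201) .nil))))))) (.g (nat_lit 0) .nil .nil))) 
(.lf (nat_lit 97774) (.g (nat_lit 1117) (.e (nat_lit 2936) (nat_lit 184) (.e (nat_lit 426503) (nat_lit 27) (.e (nat_lit 336232) (nat_lit 14) (.e (nat_lit 401440) (nat_lit 9) .nil)))) .nil))) (.nd (nat_lit 5) 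
(.lf (nat_lit 97758) (.g (nat_lit 397) (.e (nat_lit 2936) (nat_lit 184) (.e (nat_lit 426503) (nat_lit 27) (.e (nat_lit 336196) (nat_lit 12) .nil))) .nil)) 
(.lf (nat_lit 97790) (.g (nat_lit 778) (.e (nat_lit 2936) (nat_lit 184) (.e (nat_lit 426541) (nat_lit 29) (.e (nat_lit 352285) (nat_lit 20) (.e (nat_lit 1999) (nat_lit 137) (.e (nat_lit 663568) (nat_lit 5) (.e (nat_lit 73780) (nat_lit 32) .nil)))))) (.g (nat_lit 5) .nil .nil)))))))) (.nd (nat_lit 1) (.nd (nat_lit 2) (.nd (nat_lit 3) (.nd (nat_lit 4) (.nd (nat_lit 5) 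
(.lf (nat_lit 97729) (.g (nat_lit 1606) (.e (nat_lit 2936) (nat_lit 184) (.e (nat_lit 426163) (nat_lit 6) (.e (nat_lit 253989) (nat_lit 11) (.e (nat_lit 16438) (nat_lit 9) (.e (nat_lit 426533) (nat_lit 28) (.e (nat_lit 344067) (nat_lit 0) .nil)))))) (.g (nat_lit 5) .nil .nil))) 
(.lf (nat_lit 97761) (.g (nat_lit 2412) (.e (nat_lit 2936) (nat_lit 184) (.e (nat_lit 426503) (nat_lit 27) (.e (nat_lit 336204) (nat_lit 12) (.e (nat_lit 385093) (nat_lit 49) (.e (nat_lit 778323) (nat_lit 5) .nil))))) .nil))) (.nd (nat_lit 5) 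
(.lf (nat_lit 97745) (.g (nat_lit 597) (.e (nat_lit 2936) (nat_lit 184) (.e (nat_lit 426488) (nat_lit 27) (.e (nat_lit 336118) (nat_lit 9) (.e (nat_lit 336331) (nat_lit 19) (.e (nat_lit 220928) (nat_lit 5) .nil))))) .nil)) 
(.lf (nat_lit 97777) (.g (nat_lit 2067) (.e (nat_lit 2936) (nat_lit 184) (.e (nat_lit 426508) (nat_lit 27) (.e (nat_lit 336200) (nat_lit 12) (.e (nat_lit 385094) (nat_lit 49) (.e (nat_lit 778323) (nat_lit 5) (.e (nat_lit 73779) (nat_lit 32) .nil)))))) (.g (nat_lit 6) .nil .nil))))) (.nd (nat_lit 4) (.nd (nat_lit 5) 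
(.lf (nat_lit 97737) (.g (nat_lit 127) (.e (nat_lit 2936) (nat_lit 184) (.e (nat_lit 426351) (nat_lit 15) (.e (nat_lit 6236) (nat_lit 335) .nil))) .nil)) 
(.lf (nat_lit 97769) (.g (nat_lit 2252) (.e (nat_lit 2936) (nat_lit 184) (.e (nat_lit 426503) (nat_lit 27) (.e (nat_lit 336231) (nat_lit 14) (.e (nat_lit 401444) (nat_lit 9) (.e (nat_lit 426532) (nat_lit 28) .nil))))) .nil))) (.nd (nat_lit 5) 
(.lf (nat_lit 97753) (.g (nat_lit 3184) (.e (nat_lit 2936) (nat_lit 184) (.e (nat_lit 426503) (nat_lit 27) (.e (nat_lit 336193) (nat_lit 12) (.e (nat_lit 385093) (nat_lit 49) (.e (nat_lit 778323) (nat_lit 5) (.e (nat_lit 73779) (nat_lit 32) .nil)))))) (.g (nat_lit 6) .nil .nil))) 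
(.lf (nat_lit 97785) (.g (nat_lit 427) (.e (nat_lit 2936) (nat_lit 184) (.e (nat_lit 426541) (nat_lit 29) (.e (nat_lit 352264) (nat_lit 0) (.e (nat_lit 3716) (nat_lit 227) (.e (nat_lit 778322) (nat_lit 5) (.e (nat_lit 73780) (nat_lit 32) .nil)))))) (.g (nat_lit 0) .nil .nil)))))) (.nd (nat_lit 3) (.nd (nat_lit 4) (.nd (nat_lit 5) 
(.lf (nat_lit 97733) (.g (nat_lit 2400) (.e (nat_lit 2936) (nat_lit 184) (.e (nat_lit 426163) (nat_lit 6) (.e (nat_lit 253992) (nat_lit 11) (.e (nat_lit 16433) (nat_lit 9) (.e (nat_lit 433920) (nat_lit 28) .nil))))) .nil)) 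
(.lf (nat_lit 97765) (.g (nat_lit 2732) (.e (nat_lit 2936) (nat_lit 184) (.e (nat_lit 426503) (nat_lit 27) (.e (nat_lit 336231) (nat_lit 14) (.e (nat_lit 401435) (nat_lit 9) (.e (nat_lit 426533) (nat_lit 28) (.e (nat_lit 344067) (nat_lit 0) .nil)))))) (.g (nat_lit 6) .nil .nil)))) (.nd (nat_lit 5) 
(.lf (nat_lit 97749) (.g (nat_lit 389) (.e (nat_lit 2936) (nat_lit 184) (.e (nat_lit 426503) (nat_lit 27) (.e (nat_lit 335892) (nat_lit 0) .nil))) .nil)) 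
(.lf (nat_lit 97781) (.g (nat_lit 383) (.e (nat_lit 2936) (nat_lit 184) (.e (nat_lit 426541) (nat_lit 29) (.e (nat_lit 352264) (nat_lit 0) (.e (nat_lit 3711) (nat_lit 227) (.e (nat_lit 786176) (nat_lit 5) .nil))))) .nil)))) (.nd (nat_lit 4) (.nd (nat_lit 5) 
(.lf (nat_lit 97741) (.g (nat_lit 3297) (.e (nat_lit 2936) (nat_lit 184) (.e (nat_lit 426401) (nat_lit 15) (.e (nat_lit 1849) (nat_lit 124) (.e (nat_lit 557109) (nat_lit 15) (.e (nat_lit 188452) (nat_lit 23) (.e (nat_lit 204821) (nat_lit 17) (.e (nat_lit 6674) (nat_lit 357) .nil))))))) (.g (nat_lit 6) .nil .nil))) 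
(.lf (nat_lit 97773) (.g (nat_lit 2583) (.e (nat_lit 2936) (nat_lit 184) (.e (nat_lit 426503) (nat_lit 27) (.e (nat_lit 336232) (nat_lit 14) (.e (nat_lit 401435) (nat_lit 9) (.e (nat_lit 426533) (nat_lit 28) (.e (nat_lit 344067) (nat_lit 0) .nil)))))) (.g (nat_lit 0) .nil .nil)))) (.nd (nat_lit 5) 
(.lf (nat_lit 97757) (.g (nat_lit 1936) (.e (nat_lit 2936) (nat_lit 184) (.e (nat_lit 426503) (nat_lit 27) (.e (nat_lit 336194) (nat_lit 12) (.e (nat_lit 385096) (nat_lit 49) (.e (nat_lit 786176) (nat_lit 5) .nil))))) .nil)) 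
(.lf (nat_lit 97789) (.g (nat_lit 560) (.e (nat_lit 2936) (nat_lit 184) (.e (nat_lit 426541) (nat_lit 29) (.e (nat_lit 352285) (nat_lit 20) (.e (nat_lit 1998) (nat_lit 137) (.e (nat_lit 663568) (nat_lit 5) (.e (nat_lit 73780) (nat_lit 32) .nil)))))) (.g (nat_lit 5) .nil .nil))))))) (.nd (nat_lit 2) (.nd (nat_lit 3) (.nd (nat_lit 4) (.nd (nat_lit 5) 
(.lf (nat_lit 97731) (.g (nat_lit 2322) (.e (nat_lit 2936) (nat_lit 184) (.e (nat_lit 426163) (nat_lit 6) (.e (nat_lit 253991) (nat_lit 11) (.e (nat_lit 16442) (nat_lit 9) .nil)))) .nil)) 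
(.lf (nat_lit 97763) (.g (nat_lit 1807) (.e (nat_lit 2936) (nat_lit 184) (.e (nat_lit 426503) (nat_lit 27) (.e (nat_lit 336229) (nat_lit 14) (.e (nat_lit 401436) (nat_lit 9) (.e (nat_lit 426533) (nat_lit 28) (.e (nat_lit 344067) (nat_lit 0) .nil)))))) (.g (nat_lit 4) .nil .nil)))) (.nd (nat_lit 5) 
(.lf (nat_lit 97747) (.g (nat_lit 1955) (.e (nat_lit 2936) (nat_lit 184) (.e (nat_lit 426488) (nat_lit 27) (.e (nat_lit 336206) (nat_lit 12) (.e (nat_lit 385094) (nat_lit 49) (.e (nat_lit 778323) (nat_lit 5) (.e (nat_lit 73779) (nat_lit 32) .nil)))))) (.g (nat_lit 5) .nil .nil))) 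
(.lf (nat_lit 97779) (.g (nat_lit 1129) (.e (nat_lit 2936) (nat_lit 184) (.e (nat_lit 426508) (nat_lit 27) (.e (nat_lit 336205) (nat_lit 12) (.e (nat_lit 385094) (nat_lit 49) (.e (nat_lit 778323) (nat_lit 5) .nil))))) .nil)))) (.nd (nat_lit 4) (.nd (nat_lit 5) 
(.lf (nat_lit 97739) (.g (nat_lit 3011) (.e (nat_lit 2936) (nat_lit 184) (.e (nat_lit 426356) (nat_lit 15) (.e (nat_lit 1853) (nat_lit 124) (.e (nat_lit 557108) (nat_lit 15) (.e (nat_lit 188452) (nat_lit 23) (.e (nat_lit 204821) (nat_lit 17) (.e (nat_lit 6674) (nat_lit 357) .nil))))))) (.g (nat_lit 6) .nil .nil))) 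
(.lf (nat_lit 97771) (.g (nat_lit 2197) (.e (nat_lit 2936) (nat_lit 184) (.e (nat_lit 426503) (nat_lit 27) (.e (nat_lit 336231) (nat_lit 14) (.e (nat_lit 401444) (nat_lit 9) (.e (nat_lit 433920) (nat_lit 28) .nil))))) .nil))) (.nd (nat_lit 5) 
(.lf (nat_lit 97755) (.g (nat_lit 2717) (.e (nat_lit 2936) (nat_lit 184) (.e (nat_lit 426503) (nat_lit 27) (.e (nat_lit 336194) (nat_lit 12) (.e (nat_lit 385094) (nat_lit 49) (.e (nat_lit 778323) (nat_lit 5) (.e (nat_lit 73779) (nat_lit 32) .nil)))))) (.g (nat_lit 5) .nil .nil))) 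
(.lf (nat_lit 97787) (.g (nat_lit 1534) (.e (nat_lit 2936) (nat_lit 184) (.e (nat_lit 426541) (nat_lit 29) (.e (nat_lit 352267) (nat_lit 0) (.e (nat_lit 3631) (nat_lit 227) (.e (nat_lit 778323) (nat_lit 5) (.e (nat_lit 73780) (nat_lit 32) .nil)))))) (.g (nat_lit 0) .nil .nil)))))) (.nd (nat_lit 3) (.nd (nat_lit 4) (.nd (nat_lit 5) 
(.lf (nat_lit 97735) (.g (nat_lit 1664) (.e (nat_lit 2936) (nat_lit 184) (.e (nat_lit 426163) (nat_lit 6) (.e (nat_lit 253992) (nat_lit 11) (.e (nat_lit 16444) (nat_lit 9) (.e (nat_lit 426532) (nat_lit 28) .nil))))) .nil)) 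
(.lf (nat_lit 97767) (.g (nat_lit 2439) (.e (nat_lit 2936) (nat_lit 184) (.e (nat_lit 426503) (nat_lit 27) (.e (nat_lit 336231) (nat_lit 14) (.e (nat_lit 401436) (nat_lit 9) (.e (nat_lit 426533) (nat_lit 28) (.e (nat_lit 344067) (nat_lit 0) .nil)))))) (.g (nat_lit 6) .nil .nil)))) (.nd (nat_lit 5) 
(.lf (nat_lit 97751) (.g (nat_lit 1997) (.e (nat_lit 2936) (nat_lit 184) (.e (nat_lit 426503) (nat_lit 27) (.e (nat_lit 335894) (nat_lit 0) (.e (nat_lit 6720) (nat_lit 361) (.e (nat_lit 179968) (nat_lit 28) .nil))))) .nil)) 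
(.lf (nat_lit 97783) (.g (nat_lit 393) (.e (nat_lit 2936) (nat_lit 184) (.e (nat_lit 426541) (nat_lit 29) (.e (nat_lit 352264) (nat_lit 0) (.e (nat_lit 3714) (nat_lit 227) (.e (nat_lit 786176) (nat_lit 5) .nil))))) .nil)))) (.nd (nat_lit 4) (.nd (nat_lit 5) 
(.lf (nat_lit 97743) (.g (nat_lit 3379) (.e (nat_lit 2936) (nat_lit 184) (.e (nat_lit 426419) (nat_lit 15) (.e (nat_lit 1856) (nat_lit 124) (.e (nat_lit 557109) (nat_lit 15) (.e (nat_lit 188449) (nat_lit 22) (.e (nat_lit 196661) (nat_lit 12) (.e (nat_lit 57748) (nat_lit 201) .nil))))))) (.g (nat_lit 0) .nil .nil))) 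
(.lf (nat_lit 97775) (.g (nat_lit 2220) (.e (nat_lit 2936) (nat_lit 184) (.e (nat_lit 426503) (nat_lit 27) (.e (nat_lit 336232) (nat_lit 14) (.e (nat_lit 401444) (nat_lit 9) (.e (nat_lit 426532) (nat_lit 28) (.e (nat_lit 344066) (nat_lit 0) .nil)))))) (.g (nat_lit 4) .nil .nil)))) (.nd (nat_lit 5) 
(.lf (nat_lit 97759) (.g (nat_lit 1395) (.e (nat_lit 2936) (nat_lit 184) (.e (nat_lit 426503) (nat_lit 27) (.e (nat_lit 336196) (nat_lit 12) (.e (nat_lit 385100) (nat_lit 49) (.e (nat_lit 778322) (nat_lit 5) (.e (nat_lit 73780) (nat_lit 32) .nil)))))) (.g (nat_lit 4) .nil .nil))) 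
(.lf (nat_lit 97791) (.g (nat_lit 855) (.e (nat_lit 2936) (nat_lit 184) (.e (nat_lit 426541) (nat_lit 29) (.e (nat_lit 352287) (nat_lit 20) (.e (nat_lit 1996) (nat_lit 137) (.e (nat_lit 663568) (nat_lit 5) (.e (nat_lit 73779) (nat_lit 32) .nil)))))) (.g (nat_lit 6) .nil .nil)))))))))

noncomputable def tv1342 : DT := (.nd (nat_lit 0) (.nd (nat_lit 1) (.nd (nat_lit 2) (.nd (nat_lit 3) (.nd (nat_lit 4) (.nd (nat_lit 5) 
(.lf (nat_lit 97792) (.g (nat_lit 767) (.e (nat_lit 2936) (nat_lit 184) (.e (nat_lit 426541) (nat_lit 29) (.e (nat_lit 352297) (nat_lit 20) (.e (nat_lit 2003) (nat_lit 138) (.e (nat_lit 671763) (nat_lit 5) (.e (nat_lit 73780) (nat_lit 32) .nil)))))) (.g (nat_lit 0) .nil .nil))) 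
(.lf (nat_lit 97824) (.g (nat_lit 3048) (.e (nat_lit 2939) (nat_lit 184) (.e (nat_lit 426419) (nat_lit 15) (.e (nat_lit 1856) (nat_lit 124) (.e (nat_lit 557109) (nat_lit 15) (.e (nat_lit 188449) (nat_lit 22) (.e (nat_lit 196661) (nat_lit 12) (.e (nat_lit 57749) (nat_lit 201) .nil))))))) (.g (nat_lit 0) .nil .nil)))) (.nd (nat_lit 5) 
(.lf (nat_lit 97808) (.g (nat_lit 3601) (.e (nat_lit 2939) (nat_lit 184) (.e (nat_lit 425987) (nat_lit 0) (.e (nat_lit 7489) (nat_lit 402) (.e (nat_lit 1400) (nat_lit 106) (.e (nat_lit 319534) (nat_lit 16) (.e (nat_lit 286756) (nat_lit 10) (.e (nat_lit 344157) (nat_lit 36) (.e (nat_lit 646912) (nat_lit 5) .nil)))))))) (.g (nat_lit 7) .nil .nil))) 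
(.lf (nat_lit 97840) (.g (nat_lit 1321) (.e (nat_lit 2939) (nat_lit 184) (.e (nat_lit 426503) (nat_lit 27) (.e (nat_lit 336196) (nat_lit 12) (.e (nat_lit 385100) (nat_lit 49) (.e (nat_lit 778322) (nat_lit 5) .nil))))) .nil)))) (.nd (nat_lit 4) (.nd (nat_lit 5) 
(.lf (nat_lit 97800) (.g (nat_lit 1686) (.e (nat_lit 2936) (nat_lit 184) (.e (nat_lit 426554) (nat_lit 32) (.e (nat_lit 376857) (nat_lit 21) (.e (nat_lit 57870) (nat_lit 264) (.e (nat_lit 1209) (nat_lit 89) (.e (nat_lit 73780) (nat_lit 32) .nil)))))) (.g (nat_lit 5) .nil .nil))) 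
(.lf (nat_lit 97832) (.g (nat_lit 398) (.e (nat_lit 2939) (nat_lit 184) (.e (nat_lit 426503) (nat_lit 27) (.e (nat_lit 335892) (nat_lit 0) .nil))) .nil))) (.nd (nat_lit 5) 
(.lf (nat_lit 97816) (.g (nat_lit 378) (.e (nat_lit 2939) (nat_lit 184) (.e (nat_lit 426351) (nat_lit 15) (.e (nat_lit 6234) (nat_lit 335) (.e (nat_lit 164372) (nat_lit 250) (.e (nat_lit 179968) (nat_lit 28) (.e (nat_lit 344067) (nat_lit 0) .nil)))))) (.g (nat_lit 4) .nil .nil))) 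
(.lf (nat_lit 97848) (.g (nat_lit 1788) (.e (nat_lit 2939) (nat_lit 184) (.e (nat_lit 426503) (nat_lit 27) (.e (nat_lit 336231) (nat_lit 14) (.e (nat_lit 401440) (nat_lit 9) (.e (nat_lit 433920) (nat_lit 28) .nil))))) .nil))))) (.nd (nat_lit 3) (.nd (nat_lit 4) (.nd (nat_lit 5) 
(.lf (nat_lit 97796) (.g (nat_lit 1226) (.e (nat_lit 2936) (nat_lit 184) (.e (nat_lit 426541) (nat_lit 29) (.e (nat_lit 352309) (nat_lit 21) (.e (nat_lit 57870) (nat_lit 264) (.e (nat_lit 1211) (nat_lit 89) (.e (nat_lit 73779) (nat_lit 32) .nil)))))) (.g (nat_lit 5) .nil .nil))) 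
(.lf (nat_lit 97828) (.g (nat_lit 2010) (.e (nat_lit 2939) (nat_lit 184) (.e (nat_lit 426488) (nat_lit 27) (.e (nat_lit 336206) (nat_lit 12) (.e (nat_lit 385094) (nat_lit 49) (.e (nat_lit 778323) (nat_lit 5) (.e (nat_lit 73779) (nat_lit 32) .nil)))))) (.g (nat_lit 5) .nil .nil)))) (.nd (nat_lit 5) 
(.lf (nat_lit 97812) (.g (nat_lit 1740) (.e (nat_lit 2939) (nat_lit 184) (.e (nat_lit 426163) (nat_lit 6) (.e (nat_lit 253991) (nat_lit 11) (.e (nat_lit 16437) (nat_lit 9) .nil)))) .nil)) 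
(.lf (nat_lit 97844) (.g (nat_lit 2766) (.e (nat_lit 2939) (nat_lit 184) (.e (nat_lit 426503) (nat_lit 27) (.e (nat_lit 336231) (nat_lit 14) (.e (nat_lit 401435) (nat_lit 9) (.e (nat_lit 426533) (nat_lit 28) (.e (nat_lit 344066) (nat_lit 0) .nil)))))) (.g (nat_lit 5) .nil .nil))))) (.nd (nat_lit 4) (.nd (nat_lit 5) 
(.lf (nat_lit 97804) (.g (nat_lit 1342) (.e (nat_lit 2937) (nat_lit 184) (.e (nat_lit 426347) (nat_lit 14) (.e (nat_lit 491535) (nat_lit 2) (.e (nat_lit 90172) (nat_lit 14) .nil)))) .nil)) 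
(.lf (nat_lit 97836) (.g (nat_lit 1557) (.e (nat_lit 2939) (nat_lit 184) (.e (nat_lit 426503) (nat_lit 27) (.e (nat_lit 335895) (nat_lit 0) (.e (nat_lit 6720) (nat_lit 361) (.e (nat_lit 179968) (nat_lit 28) (.e (nat_lit 344066) (nat_lit 0) .nil)))))) (.g (nat_lit 4) .nil .nil)))) (.nd (nat_lit 5) 
(.lf (nat_lit 97820) (.g (nat_lit 3256) (.e (nat_lit 2939) (nat_lit 184) (.e (nat_lit 426401) (nat_lit 15) (.e (nat_lit 1849) (nat_lit 124) (.e (nat_lit 557109) (nat_lit 15) (.e (nat_lit 188452) (nat_lit 23) (.e (nat_lit 204821) (nat_lit 17) (.e (nat_lit 6674) (nat_lit 357) .nil))))))) (.g (nat_lit 6) .nil .nil))) 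
(.lf (nat_lit 97852) (.g (nat_lit 2259) (.e (nat_lit 2939) (nat_lit 184) (.e (nat_lit 426503) (nat_lit 27) (.e (nat_lit 336231) (nat_lit 14) (.e (nat_lit 401444) (nat_lit 9) (.e (nat_lit 433920) (nat_lit 28) (.e (nat_lit 344067) (nat_lit 0) .nil)))))) (.g (nat_lit 4) .nil .nil))))))) (.nd (nat_lit 2) (.nd (nat_lit 3) (.nd (nat_lit 4) (.nd (nat_lit 5) 
(.lf (nat_lit 97794) (.g (nat_lit 671) (.e (nat_lit 2936) (nat_lit 184) (.e (nat_lit 426541) (nat_lit 29) (.e (nat_lit 352297) (nat_lit 20) (.e (nat_lit 2005) (nat_lit 138) (.e (nat_lit 671763) (nat_lit 5) (.e (nat_lit 73780) (nat_lit 32) .nil)))))) (.g (nat_lit 0) .nil .nil))) 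
(.lf (nat_lit 97826) (.g (nat_lit 662) (.e (nat_lit 2939) (nat_lit 184) (.e (nat_lit 426488) (nat_lit 27) (.e (nat_lit 336118) (nat_lit 9) (.e (nat_lit 336331) (nat_lit 19) (.e (nat_lit 220928) (nat_lit 5) (.e (nat_lit 73780) (nat_lit 32) .nil)))))) (.g (nat_lit 4) .nil .nil)))) (.nd (nat_lit 5) 
(.lf (nat_lit 97810) (.g (nat_lit 1738) (.e (nat_lit 2939) (nat_lit 184) (.e (nat_lit 426163) (nat_lit 6) (.e (nat_lit 253991) (nat_lit 11) (.e (nat_lit 16435) (nat_lit 9) .nil)))) .nil)) 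
(.lf (nat_lit 97842) (.g (nat_lit 1760) (.e (nat_lit 2939) (nat_lit 184) (.e (nat_lit 426503) (nat_lit 27) (.e (nat_lit 336229) (nat_lit 14) (.e (nat_lit 401436) (nat_lit 9) (.e (nat_lit 426533) (nat_lit 28) .nil))))) .nil)))) (.nd (nat_lit 4) (.nd (nat_lit 5) 
(.lf (nat_lit 97802) (.g (nat_lit 1026) (.e (nat_lit 2936) (nat_lit 184) (.e (nat_lit 426554) (nat_lit 32) (.e (nat_lit 376859) (nat_lit 21) (.e (nat_lit 57870) (nat_lit 264) (.e (nat_lit 1210) (nat_lit 89) (.e (nat_lit 73779) (nat_lit 32) .nil)))))) (.g (nat_lit 4) .nil .nil))) 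
(.lf (nat_lit 97834) (.g (nat_lit 1859) (.e (nat_lit 2939) (nat_lit 184) (.e (nat_lit 426503) (nat_lit 27) (.e (nat_lit 335894) (nat_lit 0) (.e (nat_lit 6720) (nat_lit 361) (.e (nat_lit 179968) (nat_lit 28) .nil))))) .nil))) (.nd (nat_lit 5) 
(.lf (nat_lit 97818) (.g (nat_lit 2535) (.e (nat_lit 2939) (nat_lit 184) (.e (nat_lit 426356) (nat_lit 15) (.e (nat_lit 1853) (nat_lit 124) (.e (nat_lit 557108) (nat_lit 15) (.e (nat_lit 188449) (nat_lit 22) (.e (nat_lit 196661) (nat_lit 12) (.e (nat_lit 57749) (nat_lit 201) .nil))))))) (.g (nat_lit 6) .nil .nil))) 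
(.lf (nat_lit 97850) (.g (nat_lit 2411) (.e (nat_lit 2939) (nat_lit 184) (.e (nat_lit 426503) (nat_lit 27) (.e (nat_lit 336231) (nat_lit 14) (.e (nat_lit 401444) (nat_lit 9) (.e (nat_lit 426532) (nat_lit 28) (.e (nat_lit 344067) (nat_lit 0) .nil)))))) (.g (nat_lit 5) .nil .nil)))))) (.nd (nat_lit 3) (.nd (nat_lit 4) (.nd (nat_lit 5) 
(.lf (nat_lit 97798) (.g (nat_lit 2233) (.e (nat_lit 2936) (nat_lit 184) (.e (nat_lit 426541) (nat_lit 29) (.e (nat_lit 352309) (nat_lit 21) (.e (nat_lit 57872) (nat_lit 264) (.e (nat_lit 1209) (nat_lit 89) (.e (nat_lit 73780) (nat_lit 32) .nil)))))) (.g (nat_lit 6) .nil .nil))) 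
(.lf (nat_lit 97830) (.g (nat_lit 1902) (.e (nat_lit 2939) (nat_lit 184) (.e (nat_lit 426488) (nat_lit 27) (.e (nat_lit 336235) (nat_lit 14) (.e (nat_lit 401437) (nat_lit 9) (.e (nat_lit 426533) (nat_lit 28) (.e (nat_lit 344066) (nat_lit 0) .nil)))))) (.g (nat_lit 5) .nil .nil)))) (.nd (nat_lit 5) 
(.lf (nat_lit 97814) (.g (nat_lit 1973) (.e (nat_lit 2939) (nat_lit 184) (.e (nat_lit 426163) (nat_lit 6) (.e (nat_lit 253991) (nat_lit 11) (.e (nat_lit 16444) (nat_lit 9) .nil)))) .nil)) 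
(.lf (nat_lit 97846) (.g (nat_lit 2518) (.e (nat_lit 2939) (nat_lit 184) (.e (nat_lit 426503) (nat_lit 27) (.e (nat_lit 336231) (nat_lit 14) (.e (nat_lit 401436) (nat_lit 9) (.e (nat_lit 426533) (nat_lit 28) (.e (nat_lit 344066) (nat_lit 0) .nil)))))) (.g (nat_lit 5) .nil .nil))))) (.nd (nat_lit 4) (.nd (nat_lit 5) 
(.lf (nat_lit 97806) (.g (nat_lit 3650) (.e (nat_lit 2939) (nat_lit 184) (.e (nat_lit 425987) (nat_lit 0) (.e (nat_lit 7485) (nat_lit 402) (.e (nat_lit 1400) (nat_lit 106) (.e (nat_lit 319533) (nat_lit 16) (.e (nat_lit 286753) (nat_lit 10) (.e (nat_lit 344157) (nat_lit 36) (.e (nat_lit 646912) (nat_lit 5) .nil)))))))) (.g (nat_lit 7) .nil .nil))) 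
(.lf (nat_lit 97838) (.g (nat_lit 2887) (.e (nat_lit 2939) (nat_lit 184) (.e (nat_lit 426503) (nat_lit 27) (.e (nat_lit 336193) (nat_lit 12) (.e (nat_lit 385093) (nat_lit 49) (.e (nat_lit 778323) (nat_lit 5) (.e (nat_lit 73780) (nat_lit 32) .nil)))))) (.g (nat_lit 5) .nil .nil)))) (.nd (nat_lit 5) 
(.lf (nat_lit 97822) (.g (nat_lit 2539) (.e (nat_lit 2939) (nat_lit 184) (.e (nat_lit 426419) (nat_lit 15) (.e (nat_lit 1856) (nat_lit 124) (.e (nat_lit 557107) (nat_lit 15) (.e (nat_lit 188447) (nat_lit 22) (.e (nat_lit 196661) (nat_lit 12) (.e (nat_lit 57749) (nat_lit 201) .nil))))))) (.g (nat_lit 0) .nil .nil))) 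
(.lf (nat_lit 97854) (.g (nat_lit 2454) (.e (nat_lit 2939) (nat_lit 184) (.e (nat_lit 426503) (nat_lit 27) (.e (nat_lit 336232) (nat_lit 14) (.e (nat_lit 401435) (nat_lit 9) (.e (nat_lit 426533) (nat_lit 28) (.e (nat_lit 344067) (nat_lit 0) .nil)))))) (.g (nat_lit 0) .nil .nil)))))))) (.nd (nat_lit 1) (.nd (nat_lit 2) (.nd (nat_lit 3) (.nd (nat_lit 4) (.nd (nat_lit 5) 
(.lf (nat_lit 97793) (.g (nat_lit 802) (.e (nat_lit 2936) (nat_lit 184) (.e (nat_lit 426541) (nat_lit 29) (.e (nat_lit 352297) (nat_lit 20) (.e (nat_lit 2004) (nat_lit 138) (.e (nat_lit 671763) (nat_lit 5) (.e (nat_lit 73779) (nat_lit 32) .nil)))))) (.g (nat_lit 6) .nil .nil))) 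
(.lf (nat_lit 97825) (.g (nat_lit 616) (.e (nat_lit 2939) (nat_lit 184) (.e (nat_lit 426488) (nat_lit 27) (.e (nat_lit 336118) (nat_lit 9) (.e (nat_lit 336331) (nat_lit 19) (.e (nat_lit 220928) (nat_lit 5) (.e (nat_lit 73779) (nat_lit 32) .nil)))))) (.g (nat_lit 4) .nil .nil)))) (.nd (nat_lit 5) 
(.lf (nat_lit 97809) (.g (nat_lit 2234) (.e (nat_lit 2939) (nat_lit 184) (.e (nat_lit 426163) (nat_lit 6) (.e (nat_lit 253991) (nat_lit 11) (.e (nat_lit 16432) (nat_lit 9) .nil)))) .nil)) 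
(.lf (nat_lit 97841) (.g (nat_lit 1440) (.e (nat_lit 2939) (nat_lit 184) (.e (nat_lit 426503) (nat_lit 27) (.e (nat_lit 336204) (nat_lit 12) (.e (nat_lit 385092) (nat_lit 49) .nil)))) .nil)))) (.nd (nat_lit 4) (.nd (nat_lit 5) 
(.lf (nat_lit 97801) (.g (nat_lit 1779) (.e (nat_lit 2936) (nat_lit 184) (.e (nat_lit 426554) (nat_lit 32) (.e (nat_lit 376857) (nat_lit 21) (.e (nat_lit 57872) (nat_lit 264) (.e (nat_lit 1209) (nat_lit 89) (.e (nat_lit 73780) (nat_lit 32) .nil)))))) (.g (nat_lit 6) .nil .nil))) 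
(.lf (nat_lit 97833) (.g (nat_lit 2261) (.e (nat_lit 2939) (nat_lit 184) (.e (nat_lit 426503) (nat_lit 27) (.e (nat_lit 335894) (nat_lit 0) (.e (nat_lit 6718) (nat_lit 361) (.e (nat_lit 179968) (nat_lit 28) .nil))))) .nil))) (.nd (nat_lit 5) 
(.lf (nat_lit 97817) (.g (nat_lit 3034) (.e (nat_lit 2939) (nat_lit 184) (.e (nat_lit 426353) (nat_lit 15) (.e (nat_lit 1860) (nat_lit 124) (.e (nat_lit 557101) (nat_lit 13) (.e (nat_lit 172097) (nat_lit 9) (.e (nat_lit 426140) (nat_lit 3) (.e (nat_lit 204821) (nat_lit 17) (.e (nat_lit 6674) (nat_lit 357) .nil)))))))) (.g (nat_lit 7) .nil .nil))) 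
(.lf (nat_lit 97849) (.g (nat_lit 2174) (.e (nat_lit 2939) (nat_lit 184) (.e (nat_lit 426503) (nat_lit 27) (.e (nat_lit 336231) (nat_lit 14) (.e (nat_lit 401444) (nat_lit 9) (.e (nat_lit 426532) (nat_lit 28) .nil))))) .nil))))) (.nd (nat_lit 3) (.nd (nat_lit 4) (.nd (nat_lit 5) 
(.lf (nat_lit 97797) (.g (nat_lit 1879) (.e (nat_lit 2936) (nat_lit 184) (.e (nat_lit 426541) (nat_lit 29) (.e (nat_lit 352309) (nat_lit 21) (.e (nat_lit 57871) (nat_lit 264) (.e (nat_lit 1209) (nat_lit 89) (.e (nat_lit 73780) (nat_lit 32) .nil)))))) (.g (nat_lit 6) .nil .nil))) 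
(.lf (nat_lit 97829) (.g (nat_lit 1867) (.e (nat_lit 2939) (nat_lit 184) (.e (nat_lit 426488) (nat_lit 27) (.e (nat_lit 336206) (nat_lit 12) (.e (nat_lit 385094) (nat_lit 49) (.e (nat_lit 778323) (nat_lit 5) (.e (nat_lit 73780) (nat_lit 32) .nil)))))) (.g (nat_lit 6) .nil .nil)))) (.nd (nat_lit 5) 
(.lf (nat_lit 97813) (.g (nat_lit 2600) (.e (nat_lit 2939) (nat_lit 184) (.e (nat_lit 426163) (nat_lit 6) (.e (nat_lit 253991) (nat_lit 11) (.e (nat_lit 16438) (nat_lit 9) (.e (nat_lit 426533) (nat_lit 28) .nil))))) .nil)) 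
(.lf (nat_lit 97845) (.g (nat_lit 2591) (.e (nat_lit 2939) (nat_lit 184) (.e (nat_lit 426503) (nat_lit 27) (.e (nat_lit 336231) (nat_lit 14) (.e (nat_lit 401435) (nat_lit 9) (.e (nat_lit 426533) (nat_lit 28) (.e (nat_lit 344067) (nat_lit 0) .nil)))))) (.g (nat_lit 5) .nil .nil))))) (.nd (nat_lit 4) (.nd (nat_lit 5) 
(.lf (nat_lit 97805) (.g (nat_lit 2775) (.e (nat_lit 2937) (nat_lit 184) (.e (nat_lit 426347) (nat_lit 14) (.e (nat_lit 491537) (nat_lit 2) (.e (nat_lit 90170) (nat_lit 13) (.e (nat_lit 172124) (nat_lit 14) .nil))))) .nil)) 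
(.lf (nat_lit 97837) (.g (nat_lit 2858) (.e (nat_lit 2939) (nat_lit 184) (.e (nat_lit 426503) (nat_lit 27) (.e (nat_lit 336193) (nat_lit 12) (.e (nat_lit 385093) (nat_lit 49) (.e (nat_lit 778323) (nat_lit 5) (.e (nat_lit 73779) (nat_lit 32) .nil)))))) (.g (nat_lit 5) .nil .nil)))) (.nd (nat_lit 5) 
(.lf (nat_lit 97821) (.g (nat_lit 2719) (.e (nat_lit 2939) (nat_lit 184) (.e (nat_lit 426419) (nat_lit 15) (.e (nat_lit 1856) (nat_lit 124) (.e (nat_lit 557107) (nat_lit 15) (.e (nat_lit 188447) (nat_lit 22) (.e (nat_lit 196661) (nat_lit 12) (.e (nat_lit 57748) (nat_lit 201) .nil))))))) (.g (nat_lit 7) .nil .nil))) 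
(.lf (nat_lit 97853) (.g (nat_lit 2703) (.e (nat_lit 2939) (nat_lit 184) (.e (nat_lit 426503) (nat_lit 27) (.e (nat_lit 336232) (nat_lit 14) (.e (nat_lit 401435) (nat_lit 9) (.e (nat_lit 426533) (nat_lit 28) (.e (nat_lit 344066) (nat_lit 0) .nil)))))) (.g (nat_lit 0) .nil .nil))))))) (.nd (nat_lit 2) (.nd (nat_lit 3) (.nd (nat_lit 4) (.nd (nat_lit 5) 
(.lf (nat_lit 97795) (.g (nat_lit 1111) (.e (nat_lit 2936) (nat_lit 184) (.e (nat_lit 426541) (nat_lit 29) (.e (nat_lit 352309) (nat_lit 21) (.e (nat_lit 57870) (nat_lit 264) (.e (nat_lit 1210) (nat_lit 89) (.e (nat_lit 73779) (nat_lit 32) .nil)))))) (.g (nat_lit 5) .nil .nil))) 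
(.lf (nat_lit 97827) (.g (nat_lit 642) (.e (nat_lit 2939) (nat_lit 184) (.e (nat_lit 426488) (nat_lit 27) (.e (nat_lit 336121) (nat_lit 9) (.e (nat_lit 336331) (nat_lit 19) (.e (nat_lit 220928) (nat_lit 5) (.e (nat_lit 73780) (nat_lit 32) .nil)))))) (.g (nat_lit 4) .nil .nil)))) (.nd (nat_lit 5) 
(.lf (nat_lit 97811) (.g (nat_lit 2748) (.e (nat_lit 2939) (nat_lit 184) (.e (nat_lit 426163) (nat_lit 6) (.e (nat_lit 253991) (nat_lit 11) (.e (nat_lit 16436) (nat_lit 9) (.e (nat_lit 426533) (nat_lit 28) .nil))))) .nil)) 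
(.lf (nat_lit 97843) (.g (nat_lit 1830) (.e (nat_lit 2939) (nat_lit 184) (.e (nat_lit 426503) (nat_lit 27) (.e (nat_lit 336229) (nat_lit 14) (.e (nat_lit 401436) (nat_lit 9) (.e (nat_lit 426533) (nat_lit 28) (.e (nat_lit 344066) (nat_lit 0) .nil)))))) (.g (nat_lit 4) .nil .nil))))) (.nd (nat_lit 4) (.nd (nat_lit 5) 
(.lf (nat_lit 97803) (.g (nat_lit 1186) (.e (nat_lit 2936) (nat_lit 184) (.e (nat_lit 426554) (nat_lit 32) (.e (nat_lit 376859) (nat_lit 21) (.e (nat_lit 57870) (nat_lit 264) (.e (nat_lit 1211) (nat_lit 89) (.e (nat_lit 73779) (nat_lit 32) .nil)))))) (.g (nat_lit 4) .nil .nil))) 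
(.lf (nat_lit 97835) (.g (nat_lit 1346) (.e (nat_lit 2939) (nat_lit 184) (.e (nat_lit 426503) (nat_lit 27) (.e (nat_lit 335895) (nat_lit 0) (.e (nat_lit 6718) (nat_lit 361) (.e (nat_lit 179968) (nat_lit 28) .nil))))) .nil))) (.nd (nat_lit 5) 
(.lf (nat_lit 97819) (.g (nat_lit 3116) (.e (nat_lit 2939) (nat_lit 184) (.e (nat_lit 426356) (nat_lit 15) (.e (nat_lit 1853) (nat_lit 124) (.e (nat_lit 557108) (nat_lit 15) (.e (nat_lit 188452) (nat_lit 23) (.e (nat_lit 204821) (nat_lit 17) (.e (nat_lit 6674) (nat_lit 357) .nil))))))) (.g (nat_lit 6) .nil .nil))) 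
(.lf (nat_lit 97851) (.g (nat_lit 2241) (.e (nat_lit 2939) (nat_lit 184) (.e (nat_lit 426503) (nat_lit 27) (.e (nat_lit 336231) (nat_lit 14) (.e (nat_lit 401444) (nat_lit 9) (.e (nat_lit 433920) (nat_lit 28) .nil))))) .nil))))) (.nd (nat_lit 3) (.nd (nat_lit 4) (.nd (nat_lit 5) 
(.lf (nat_lit 97799) (.g (nat_lit 2130) (.e (nat_lit 2936) (nat_lit 184) (.e (nat_lit 426541) (nat_lit 29) (.e (nat_lit 352309) (nat_lit 21) (.e (nat_lit 57873) (nat_lit 264) (.e (nat_lit 1209) (nat_lit 89) (.e (nat_lit 73780) (nat_lit 32) .nil)))))) (.g (nat_lit 6) .nil .nil))) 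
(.lf (nat_lit 97831) (.g (nat_lit 1688) (.e (nat_lit 2939) (nat_lit 184) (.e (nat_lit 426488) (nat_lit 27) (.e (nat_lit 336235) (nat_lit 14) (.e (nat_lit 401437) (nat_lit 9) (.e (nat_lit 426533) (nat_lit 28) (.e (nat_lit 344067) (nat_lit 0) .nil)))))) (.g (nat_lit 5) .nil .nil)))) (.nd (nat_lit 5) 
(.lf (nat_lit 97815) (.g (nat_lit 1571) (.e (nat_lit 2939) (nat_lit 184) (.e (nat_lit 426163) (nat_lit 6) (.e (nat_lit 253991) (nat_lit 11) (.e (nat_lit 24320) (nat_lit 9) .nil)))) .nil)) 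
(.lf (nat_lit 97847) (.g (nat_lit 2305) (.e (nat_lit 2939) (nat_lit 184) (.e (nat_lit 426503) (nat_lit 27) (.e (nat_lit 336231) (nat_lit 14) (.e (nat_lit 401436) (nat_lit 9) (.e (nat_lit 426533) (nat_lit 28) (.e (nat_lit 344067) (nat_lit 0) .nil)))))) (.g (nat_lit 5) .nil .nil))))) (.nd (nat_lit 4) (.nd (nat_lit 5) 
(.lf (nat_lit 97807) (.g (nat_lit 3680) (.e (nat_lit 2939) (nat_lit 184) (.e (nat_lit 425987) (nat_lit 0) (.e (nat_lit 7485) (nat_lit 402) (.e (nat_lit 1400) (nat_lit 106) (.e (nat_lit 319534) (nat_lit 16) (.e (nat_lit 286756) (nat_lit 10) (.e (nat_lit 344157) (nat_lit 36) (.e (nat_lit 646912) (nat_lit 5) .nil)))))))) (.g (nat_lit 7) .nil .nil))) 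
(.lf (nat_lit 97839) (.g (nat_lit 1359) (.e (nat_lit 2939) (nat_lit 184) (.e (nat_lit 426503) (nat_lit 27) (.e (nat_lit 336194) (nat_lit 12) (.e (nat_lit 385096) (nat_lit 49) .nil)))) .nil))) (.nd (nat_lit 5) 
(.lf (nat_lit 97823) (.g (nat_lit 3200) (.e (nat_lit 2939) (nat_lit 184) (.e (nat_lit 426419) (nat_lit 15) (.e (nat_lit 1856) (nat_lit 124) (.e (nat_lit 557109) (nat_lit 15) (.e (nat_lit 188449) (nat_lit 22) (.e (nat_lit 196661) (nat_lit 12) (.e (nat_lit 57748) (nat_lit 201) .nil))))))) (.g (nat_lit 7) .nil .nil))) 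
(.lf (nat_lit 97855) (.g (nat_lit 1108) (.e (nat_lit 2939) (nat_lit 184) (.e (nat_lit 426503) (nat_lit 27) (.e (nat_lit 336232) (nat_lit 14) (.e (nat_lit 401440) (nat_lit 9) .nil)))) .nil))))))))

noncomputable def tv1343 : DT := (.nd (nat_lit 0) (.nd (nat_lit 1) (.nd (nat_lit 2) (.nd (nat_lit 3) (.nd (nat_lit 4) (.nd (nat_lit 5) 
(.lf (nat_lit 97856) (.g (nat_lit 2122) (.e (nat_lit 2939) (nat_lit 184) (.e (nat_lit 426503) (nat_lit 27) (.e (nat_lit 336232) (nat_lit 14) (.e (nat_lit 401444) (nat_lit 9) (.e (nat_lit 426532) (nat_lit 28) (.e (nat_lit 344066) (nat_lit 0) .nil)))))) (.g (nat_lit 4) .nil .nil))) 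
(.lf (nat_lit 97888) (.g (nat_lit 829) (.e (nat_lit 2939) (nat_lit 184) (.e (nat_lit 426541) (nat_lit 29) (.e (nat_lit 352287) (nat_lit 20) (.e (nat_lit 1998) (nat_lit 137) (.e (nat_lit 663568) (nat_lit 5) (.e (nat_lit 73779) (nat_lit 32) .nil)))))) (.g (nat_lit 6) .nil .nil)))) (.nd (nat_lit 5) 
(.lf (nat_lit 97872) (.g (nat_lit 739) (.e (nat_lit 2939) (nat_lit 184) (.e (nat_lit 426532) (nat_lit 28) (.e (nat_lit 344085) (nat_lit 15) (.e (nat_lit 123163) (nat_lit 256) (.e (nat_lit 301) (nat_lit 22) (.e (nat_lit 344067) (nat_lit 0) .nil)))))) (.g (nat_lit 0) .nil .nil))) 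
(.lf (nat_lit 97904) (.g (nat_lit 1262) (.e (nat_lit 2939) (nat_lit 184) (.e (nat_lit 426541) (nat_lit 29) (.e (nat_lit 352309) (nat_lit 21) (.e (nat_lit 57871) (nat_lit 264) (.e (nat_lit 1210) (nat_lit 89) (.e (nat_lit 73779) (nat_lit 32) .nil)))))) (.g (nat_lit 5) .nil .nil))))) (.nd (nat_lit 4) (.nd (nat_lit 5) 
(.lf (nat_lit 97864) (.g (nat_lit 506) (.e (nat_lit 2939) (nat_lit 184) (.e (nat_lit 426532) (nat_lit 28) (.e (nat_lit 344075) (nat_lit 13) (.e (nat_lit 1378) (nat_lit 104) (.e (nat_lit 303154) (nat_lit 28) (.e (nat_lit 344067) (nat_lit 0) .nil)))))) (.g (nat_lit 0) .nil .nil))) 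
(.lf (nat_lit 97896) (.g (nat_lit 829) (.e (nat_lit 2939) (nat_lit 184) (.e (nat_lit 426541) (nat_lit 29) (.e (nat_lit 352297) (nat_lit 20) (.e (nat_lit 2006) (nat_lit 138) (.e (nat_lit 671763) (nat_lit 5) (.e (nat_lit 73780) (nat_lit 32) .nil)))))) (.g (nat_lit 0) .nil .nil)))) (.nd (nat_lit 5) 
(.lf (nat_lit 97880) (.g (nat_lit 1050) (.e (nat_lit 2939) (nat_lit 184) (.e (nat_lit 426541) (nat_lit 29) (.e (nat_lit 352267) (nat_lit 0) (.e (nat_lit 3630) (nat_lit 227) (.e (nat_lit 778323) (nat_lit 5) (.e (nat_lit 73780) (nat_lit 32) .nil)))))) (.g (nat_lit 0) .nil .nil))) 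
(.lf (nat_lit 97912) (.g (nat_lit 1194) (.e (nat_lit 2939) (nat_lit 184) (.e (nat_lit 426554) (nat_lit 32) (.e (nat_lit 376859) (nat_lit 21) (.e (nat_lit 57870) (nat_lit 264) (.e (nat_lit 1211) (nat_lit 89) (.e (nat_lit 73779) (nat_lit 32) .nil)))))) (.g (nat_lit 4) .nil .nil)))))) (.nd (nat_lit 3) (.nd (nat_lit 4) (.nd (nat_lit 5) 
(.lf (nat_lit 97860) (.g (nat_lit 440) (.e (nat_lit 2939) (nat_lit 184) (.e (nat_lit 426532) (nat_lit 28) (.e (nat_lit 344067) (nat_lit 0) (.e (nat_lit 2941) (nat_lit 184) (.e (nat_lit 426532) (nat_lit 28) (.e (nat_lit 344067) (nat_lit 0) .nil)))))) (.g (nat_lit 0) .nil .nil))) 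
(.lf (nat_lit 97892) (.g (nat_lit 739) (.e (nat_lit 2939) (nat_lit 184) (.e (nat_lit 426541) (nat_lit 29) (.e (nat_lit 352297) (nat_lit 20) (.e (nat_lit 2004) (nat_lit 138) (.e (nat_lit 671763) (nat_lit 5) (.e (nat_lit 73779) (nat_lit 32) .nil)))))) (.g (nat_lit 6) .nil .nil)))) (.nd (nat_lit 5) 
(.lf (nat_lit 97876) (.g (nat_lit 385) (.e (nat_lit 2939) (nat_lit 184) (.e (nat_lit 426541) (nat_lit 29) (.e (nat_lit 352264) (nat_lit 0) (.e (nat_lit 3714) (nat_lit 227) (.e (nat_lit 786176) (nat_lit 5) .nil))))) .nil)) 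
(.lf (nat_lit 97908) (.g (nat_lit 1665) (.e (nat_lit 2939) (nat_lit 184) (.e (nat_lit 426541) (nat_lit 29) (.e (nat_lit 352316) (nat_lit 24) (.e (nat_lit 123183) (nat_lit 264) (.e (nat_lit 1212) (nat_lit 89) (.e (nat_lit 73780) (nat_lit 32) .nil)))))) (.g (nat_lit 0) .nil .nil))))) (.nd (nat_lit 4) (.nd (nat_lit 5) 
(.lf (nat_lit 97868) (.g (nat_lit 963) (.e (nat_lit 2939) (nat_lit 184) (.e (nat_lit 426532) (nat_lit 28) (.e (nat_lit 344077) (nat_lit 13) (.e (nat_lit 1386) (nat_lit 105) (.e (nat_lit 311357) (nat_lit 28) (.e (nat_lit 344067) (nat_lit 0) .nil)))))) (.g (nat_lit 0) .nil .nil))) 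
(.lf (nat_lit 97900) (.g (nat_lit 2309) (.e (nat_lit 2939) (nat_lit 184) (.e (nat_lit 426541) (nat_lit 29) (.e (nat_lit 352307) (nat_lit 21) (.e (nat_lit 57873) (nat_lit 264) (.e (nat_lit 1209) (nat_lit 89) (.e (nat_lit 73780) (nat_lit 32) .nil)))))) (.g (nat_lit 0) .nil .nil)))) (.nd (nat_lit 5) 
(.lf (nat_lit 97884) (.g (nat_lit 521) (.e (nat_lit 2939) (nat_lit 184) (.e (nat_lit 426541) (nat_lit 29) (.e (nat_lit 352285) (nat_lit 20) (.e (nat_lit 1998) (nat_lit 137) (.e (nat_lit 663568) (nat_lit 5) (.e (nat_lit 73780) (nat_lit 32) .nil)))))) (.g (nat_lit 5) .nil .nil))) 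
(.lf (nat_lit 97916) (.g (nat_lit 3024) (.e (nat_lit 2940) (nat_lit 184) (.e (nat_lit 426431) (nat_lit 17) (.e (nat_lit 98048) (nat_lit 5) (.e (nat_lit 73754) (nat_lit 8) (.e (nat_lit 557105) (nat_lit 14) (.e (nat_lit 180252) (nat_lit 10) (.e (nat_lit 581376) (nat_lit 0) .nil))))))) (.g (nat_lit 6) .nil .nil))))))) (.nd (nat_lit 2) (.nd (nat_lit 3) (.nd (nat_lit 4) (.nd (nat_lit 5) 
(.lf (nat_lit 97858) (.g (nat_lit 1829) (.e (nat_lit 2939) (nat_lit 184) (.e (nat_lit 426508) (nat_lit 27) (.e (nat_lit 336200) (nat_lit 12) (.e (nat_lit 385094) (nat_lit 49) (.e (nat_lit 778323) (nat_lit 5) (.e (nat_lit 73779) (nat_lit 32) .nil)))))) (.g (nat_lit 5) .nil .nil))) 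
(.lf (nat_lit 97890) (.g (nat_lit 826) (.e (nat_lit 2939) (nat_lit 184) (.e (nat_lit 426541) (nat_lit 29) (.e (nat_lit 352297) (nat_lit 20) (.e (nat_lit 2003) (nat_lit 138) (.e (nat_lit 671763) (nat_lit 5) (.e (nat_lit 73779) (nat_lit 32) .nil)))))) (.g (nat_lit 6) .nil .nil)))) (.nd (nat_lit 5) 
(.lf (nat_lit 97874) (.g (nat_lit 845) (.e (nat_lit 2939) (nat_lit 184) (.e (nat_lit 426532) (nat_lit 28) (.e (nat_lit 344085) (nat_lit 15) (.e (nat_lit 123166) (nat_lit 256) (.e (nat_lit 301) (nat_lit 22) (.e (nat_lit 344067) (nat_lit 0) .nil)))))) (.g (nat_lit 0) .nil .nil))) 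
(.lf (nat_lit 97906) (.g (nat_lit 2101) (.e (nat_lit 2939) (nat_lit 184) (.e (nat_lit 426541) (nat_lit 29) (.e (nat_lit 352309) (nat_lit 21) (.e (nat_lit 57873) (nat_lit 264) (.e (nat_lit 1209) (nat_lit 89) (.e (nat_lit 73780) (nat_lit 32) .nil)))))) (.g (nat_lit 6) .nil .nil))))) (.nd (nat_lit 4) (.nd (nat_lit 5) 
(.lf (nat_lit 97866) (.g (nat_lit 489) (.e (nat_lit 2939) (nat_lit 184) (.e (nat_lit 426532) (nat_lit 28) (.e (nat_lit 344077) (nat_lit 13) (.e (nat_lit 1383) (nat_lit 105) (.e (nat_lit 311357) (nat_lit 28) (.e (nat_lit 344067) (nat_lit 0) .nil)))))) (.g (nat_lit 0) .nil .nil))) 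
(.lf (nat_lit 97898) (.g (nat_lit 1929) (.e (nat_lit 2939) (nat_lit 184) (.e (nat_lit 426541) (nat_lit 29) (.e (nat_lit 352307) (nat_lit 21) (.e (nat_lit 57871) (nat_lit 264) (.e (nat_lit 1209) (nat_lit 89) (.e (nat_lit 73780) (nat_lit 32) .nil)))))) (.g (nat_lit 0) .nil .nil)))) (.nd (nat_lit 5) 
(.lf (nat_lit 97882) (.g (nat_lit 1487) (.e (nat_lit 2939) (nat_lit 184) (.e (nat_lit 426541) (nat_lit 29) (.e (nat_lit 352267) (nat_lit 0) (.e (nat_lit 3631) (nat_lit 227) (.e (nat_lit 778323) (nat_lit 5) (.e (nat_lit 73780) (nat_lit 32) .nil)))))) (.g (nat_lit 0) .nil .nil))) 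
(.lf (nat_lit 97914) (.g (nat_lit 1585) (.e (nat_lit 2939) (nat_lit 184) (.e (nat_lit 426554) (nat_lit 32) (.e (nat_lit 376859) (nat_lit 21) (.e (nat_lit 57872) (nat_lit 264) (.e (nat_lit 1211) (nat_lit 89) (.e (nat_lit 73779) (nat_lit 32) .nil)))))) (.g (nat_lit 5) .nil .nil)))))) (.nd (nat_lit 3) (.nd (nat_lit 4) (.nd (nat_lit 5) 
(.lf (nat_lit 97862) (.g (nat_lit 1876) (.e (nat_lit 2939) (nat_lit 184) (.e (nat_lit 426532) (nat_lit 28) (.e (nat_lit 344069) (nat_lit 0) (.e (nat_lit 2856) (nat_lit 184) (.e (nat_lit 426533) (nat_lit 28) (.e (nat_lit 344067) (nat_lit 0) .nil)))))) (.g (nat_lit 0) .nil .nil))) 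
(.lf (nat_lit 97894) (.g (nat_lit 708) (.e (nat_lit 2939) (nat_lit 184) (.e (nat_lit 426541) (nat_lit 29) (.e (nat_lit 352297) (nat_lit 20) (.e (nat_lit 2005) (nat_lit 138) (.e (nat_lit 671763) (nat_lit 5) (.e (nat_lit 73779) (nat_lit 32) .nil)))))) (.g (nat_lit 6) .nil .nil)))) (.nd (nat_lit 5) 
(.lf (nat_lit 97878) (.g (nat_lit 1060) (.e (nat_lit 2939) (nat_lit 184) (.e (nat_lit 426541) (nat_lit 29) (.e (nat_lit 352267) (nat_lit 0) (.e (nat_lit 3629) (nat_lit 227) (.e (nat_lit 778323) (nat_lit 5) (.e (nat_lit 73780) (nat_lit 32) .nil)))))) (.g (nat_lit 0) .nil .nil))) 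
(.lf (nat_lit 97910) (.g (nat_lit 762) (.e (nat_lit 2939) (nat_lit 184) (.e (nat_lit 426549) (nat_lit 31) (.e (nat_lit 368656) (nat_lit 14) (.e (nat_lit 57862) (nat_lit 256) (.e (nat_lit 300) (nat_lit 22) (.e (nat_lit 344067) (nat_lit 0) .nil)))))) (.g (nat_lit 5) .nil .nil))))) (.nd (nat_lit 4) (.nd (nat_lit 5) 
(.lf (nat_lit 97870) (.g (nat_lit 546) (.e (nat_lit 2939) (nat_lit 184) (.e (nat_lit 426532) (nat_lit 28) (.e (nat_lit 344084) (nat_lit 14) (.e (nat_lit 57864) (nat_lit 256) (.e (nat_lit 300) (nat_lit 22) (.e (nat_lit 344067) (nat_lit 0) .nil)))))) (.g (nat_lit 0) .nil .nil))) 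
(.lf (nat_lit 97902) (.g (nat_lit 1170) (.e (nat_lit 2939) (nat_lit 184) (.e (nat_lit 426541) (nat_lit 29) (.e (nat_lit 352309) (nat_lit 21) (.e (nat_lit 57870) (nat_lit 264) (.e (nat_lit 1211) (nat_lit 89) (.e (nat_lit 73779) (nat_lit 32) .nil)))))) (.g (nat_lit 5) .nil .nil)))) (.nd (nat_lit 5) 
(.lf (nat_lit 97886) (.g (nat_lit 738) (.e (nat_lit 2939) (nat_lit 184) (.e (nat_lit 426541) (nat_lit 29) (.e (nat_lit 352285) (nat_lit 20) (.e (nat_lit 1999) (nat_lit 137) (.e (nat_lit 663568) (nat_lit 5) (.e (nat_lit 73780) (nat_lit 32) .nil)))))) (.g (nat_lit 5) .nil .nil))) 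
(.lf (nat_lit 97918) (.g (nat_lit 2394) (.e (nat_lit 2940) (nat_lit 184) (.e (nat_lit 426532) (nat_lit 28) (.e (nat_lit 344068) (nat_lit 0) (.e (nat_lit 2856) (nat_lit 184) (.e (nat_lit 426533) (nat_lit 28) (.e (nat_lit 344066) (nat_lit 0) .nil)))))) (.g (nat_lit 6) .nil .nil)))))))) (.nd (nat_lit 1) (.nd (nat_lit 2) (.nd (nat_lit 3) (.nd (nat_lit 4) (.nd (nat_lit 5) 
(.lf (nat_lit 97857) (.g (nat_lit 2039) (.e (nat_lit 2939) (nat_lit 184) (.e (nat_lit 426503) (nat_lit 27) (.e (nat_lit 336232) (nat_lit 14) (.e (nat_lit 401444) (nat_lit 9) (.e (nat_lit 433920) (nat_lit 28) .nil))))) .nil)) 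
(.lf (nat_lit 97889) (.g (nat_lit 1189) (.e (nat_lit 2939) (nat_lit 184) (.e (nat_lit 426541) (nat_lit 29) (.e (nat_lit 352287) (nat_lit 20) (.e (nat_lit 1999) (nat_lit 137) (.e (nat_lit 663568) (nat_lit 5) (.e (nat_lit 73779) (nat_lit 32) .nil)))))) (.g (nat_lit 6) .nil .nil)))) (.nd (nat_lit 5) 
(.lf (nat_lit 97873) (.g (nat_lit 852) (.e (nat_lit 2939) (nat_lit 184) (.e (nat_lit 426532) (nat_lit 28) (.e (nat_lit 344085) (nat_lit 15) (.e (nat_lit 123165) (nat_lit 256) (.e (nat_lit 301) (nat_lit 22) (.e (nat_lit 344067) (nat_lit 0) .nil)))))) (.g (nat_lit 0) .nil .nil))) 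
(.lf (nat_lit 97905) (.g (nat_lit 2203) (.e (nat_lit 2939) (nat_lit 184) (.e (nat_lit 426541) (nat_lit 29) (.e (nat_lit 352309) (nat_lit 21) (.e (nat_lit 57872) (nat_lit 264) (.e (nat_lit 1209) (nat_lit 89) (.e (nat_lit 73780) (nat_lit 32) .nil)))))) (.g (nat_lit 6) .nil .nil))))) (.nd (nat_lit 4) (.nd (nat_lit 5) 
(.lf (nat_lit 97865) (.g (nat_lit 450) (.e (nat_lit 2939) (nat_lit 184) (.e (nat_lit 426532) (nat_lit 28) (.e (nat_lit 344075) (nat_lit 13) (.e (nat_lit 1379) (nat_lit 104) (.e (nat_lit 303154) (nat_lit 28) (.e (nat_lit 344067) (nat_lit 0) .nil)))))) (.g (nat_lit 0) .nil .nil))) 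
(.lf (nat_lit 97897) (.g (nat_lit 1650) (.e (nat_lit 2939) (nat_lit 184) (.e (nat_lit 426541) (nat_lit 29) (.e (nat_lit 352307) (nat_lit 21) (.e (nat_lit 57870) (nat_lit 264) (.e (nat_lit 1209) (nat_lit 89) (.e (nat_lit 73780) (nat_lit 32) .nil)))))) (.g (nat_lit 0) .nil .nil)))) (.nd (nat_lit 5) 
(.lf (nat_lit 97881) (.g (nat_lit 1656) (.e (nat_lit 2939) (nat_lit 184) (.e (nat_lit 426541) (nat_lit 29) (.e (nat_lit 352267) (nat_lit 0) (.e (nat_lit 3631) (nat_lit 227) (.e (nat_lit 778323) (nat_lit 5) (.e (nat_lit 73779) (nat_lit 32) .nil)))))) (.g (nat_lit 6) .nil .nil))) 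
(.lf (nat_lit 97913) (.g (nat_lit 2159) (.e (nat_lit 2939) (nat_lit 184) (.e (nat_lit 426554) (nat_lit 32) (.e (nat_lit 376859) (nat_lit 21) (.e (nat_lit 57872) (nat_lit 264) (.e (nat_lit 1209) (nat_lit 89) (.e (nat_lit 73780) (nat_lit 32) .nil)))))) (.g (nat_lit 6) .nil .nil)))))) (.nd (nat_lit 3) (.nd (nat_lit 4) (.nd (nat_lit 5) 
(.lf (nat_lit 97861) (.g (nat_lit 2349) (.e (nat_lit 2939) (nat_lit 184) (.e (nat_lit 426532) (nat_lit 28) (.e (nat_lit 344068) (nat_lit 0) (.e (nat_lit 2856) (nat_lit 184) (.e (nat_lit 426533) (nat_lit 28) (.e (nat_lit 344066) (nat_lit 0) .nil)))))) (.g (nat_lit 6) .nil .nil))) 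
(.lf (nat_lit 97893) (.g (nat_lit 624) (.e (nat_lit 2939) (nat_lit 184) (.e (nat_lit 426541) (nat_lit 29) (.e (nat_lit 352297) (nat_lit 20) (.e (nat_lit 2004) (nat_lit 138) (.e (nat_lit 671763) (nat_lit 5) (.e (nat_lit 73780) (nat_lit 32) .nil)))))) (.g (nat_lit 0) .nil .nil)))) (.nd (nat_lit 5) 
(.lf (nat_lit 97877) (.g (nat_lit 1126) (.e (nat_lit 2939) (nat_lit 184) (.e (nat_lit 426541) (nat_lit 29) (.e (nat_lit 352267) (nat_lit 0) (.e (nat_lit 3629) (nat_lit 227) (.e (nat_lit 778323) (nat_lit 5) (.e (nat_lit 73779) (nat_lit 32) .nil)))))) (.g (nat_lit 5) .nil .nil))) 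
(.lf (nat_lit 97909) (.g (nat_lit 1582) (.e (nat_lit 2939) (nat_lit 184) (.e (nat_lit 426541) (nat_lit 29) (.e (nat_lit 352316) (nat_lit 24) (.e (nat_lit 123184) (nat_lit 264) (.e (nat_lit 1212) (nat_lit 89) (.e (nat_lit 73780) (nat_lit 32) .nil)))))) (.g (nat_lit 0) .nil .nil))))) (.nd (nat_lit 4) (.nd (nat_lit 5) 
(.lf (nat_lit 97869) (.g (nat_lit 516) (.e (nat_lit 2939) (nat_lit 184) (.e (nat_lit 426532) (nat_lit 28) (.e (nat_lit 344084) (nat_lit 14) (.e (nat_lit 57862) (nat_lit 256) (.e (nat_lit 300) (nat_lit 22) (.e (nat_lit 344067) (nat_lit 0) .nil)))))) (.g (nat_lit 0) .nil .nil))) 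
(.lf (nat_lit 97901) (.g (nat_lit 1025) (.e (nat_lit 2939) (nat_lit 184) (.e (nat_lit 426541) (nat_lit 29) (.e (nat_lit 352309) (nat_lit 21) (.e (nat_lit 57870) (nat_lit 264) (.e (nat_lit 1210) (nat_lit 89) (.e (nat_lit 73779) (nat_lit 32) .nil)))))) (.g (nat_lit 5) .nil .nil)))) (.nd (nat_lit 5) 
(.lf (nat_lit 97885) (.g (nat_lit 867) (.e (nat_lit 2939) (nat_lit 184) (.e (nat_lit 426541) (nat_lit 29) (.e (nat_lit 352285) (nat_lit 20) (.e (nat_lit 1999) (nat_lit 137) (.e (nat_lit 663568) (nat_lit 5) (.e (nat_lit 73779) (nat_lit 32) .nil)))))) (.g (nat_lit 5) .nil .nil))) 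
(.lf (nat_lit 97917) (.g (nat_lit 47) (.e (nat_lit 2940) (nat_lit 184) (.e (nat_lit 426532) (nat_lit 28) (.e (nat_lit 344066) (nat_lit 0) .nil))) .nil)))))) (.nd (nat_lit 2) (.nd (nat_lit 3) (.nd (nat_lit 4) (.nd (nat_lit 5) 
(.lf (nat_lit 97859) (.g (nat_lit 1823) (.e (nat_lit 2939) (nat_lit 184) (.e (nat_lit 426508) (nat_lit 27) (.e (nat_lit 336200) (nat_lit 12) (.e (nat_lit 385094) (nat_lit 49) (.e (nat_lit 778323) (nat_lit 5) (.e (nat_lit 73780) (nat_lit 32) .nil)))))) (.g (nat_lit 5) .nil .nil))) 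
(.lf (nat_lit 97891) (.g (nat_lit 717) (.e (nat_lit 2939) (nat_lit 184) (.e (nat_lit 426541) (nat_lit 29) (.e (nat_lit 352297) (nat_lit 20) (.e (nat_lit 2003) (nat_lit 138) (.e (nat_lit 671763) (nat_lit 5) (.e (nat_lit 73780) (nat_lit 32) .nil)))))) (.g (nat_lit 0) .nil .nil)))) (.nd (nat_lit 5) 
(.lf (nat_lit 97875) (.g (nat_lit 379) (.e (nat_lit 2939) (nat_lit 184) (.e (nat_lit 426541) (nat_lit 29) (.e (nat_lit 352264) (nat_lit 0) (.e (nat_lit 3711) (nat_lit 227) (.e (nat_lit 786176) (nat_lit 5) .nil))))) .nil)) 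
(.lf (nat_lit 97907) (.g (nat_lit 1710) (.e (nat_lit 2939) (nat_lit 184) (.e (nat_lit 426541) (nat_lit 29) (.e (nat_lit 352316) (nat_lit 24) (.e (nat_lit 123182) (nat_lit 264) (.e (nat_lit 1212) (nat_lit 89) (.e (nat_lit 73780) (nat_lit 32) .nil)))))) (.g (nat_lit 0) .nil .nil))))) (.nd (nat_lit 4) (.nd (nat_lit 5) 
(.lf (nat_lit 97867) (.g (nat_lit 637) (.e (nat_lit 2939) (nat_lit 184) (.e (nat_lit 426532) (nat_lit 28) (.e (nat_lit 344077) (nat_lit 13) (.e (nat_lit 1385) (nat_lit 105) (.e (nat_lit 311357) (nat_lit 28) (.e (nat_lit 344067) (nat_lit 0) .nil)))))) (.g (nat_lit 0) .nil .nil))) 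
(.lf (nat_lit 97899) (.g (nat_lit 2031) (.e (nat_lit 2939) (nat_lit 184) (.e (nat_lit 426541) (nat_lit 29) (.e (nat_lit 352307) (nat_lit 21) (.e (nat_lit 57872) (nat_lit 264) (.e (nat_lit 1209) (nat_lit 89) (.e (nat_lit 73780) (nat_lit 32) .nil)))))) (.g (nat_lit 0) .nil .nil)))) (.nd (nat_lit 5) 
(.lf (nat_lit 97883) (.g (nat_lit 648) (.e (nat_lit 2939) (nat_lit 184) (.e (nat_lit 426541) (nat_lit 29) (.e (nat_lit 352285) (nat_lit 20) (.e (nat_lit 1998) (nat_lit 137) (.e (nat_lit 663568) (nat_lit 5) (.e (nat_lit 73779) (nat_lit 32) .nil)))))) (.g (nat_lit 5) .nil .nil))) 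
(.lf (nat_lit 97915) (.g (nat_lit 3222) (.e (nat_lit 2940) (nat_lit 184) (.e (nat_lit 426401) (nat_lit 15) (.e (nat_lit 1849) (nat_lit 124) (.e (nat_lit 557109) (nat_lit 15) (.e (nat_lit 188452) (nat_lit 23) (.e (nat_lit 204821) (nat_lit 17) (.e (nat_lit 6674) (nat_lit 357) .nil))))))) (.g (nat_lit 6) .nil .nil)))))) (.nd (nat_lit 3) (.nd (nat_lit 4) (.nd (nat_lit 5) 
(.lf (nat_lit 97863) (.g (nat_lit 967) (.e (nat_lit 2939) (nat_lit 184) (.e (nat_lit 426532) (nat_lit 28) (.e (nat_lit 344075) (nat_lit 13) (.e (nat_lit 1374) (nat_lit 104) (.e (nat_lit 303154) (nat_lit 28) (.e (nat_lit 344067) (nat_lit 0) .nil)))))) (.g (nat_lit 0) .nil .nil))) 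
(.lf (nat_lit 97895) (.g (nat_lit 628) (.e (nat_lit 2939) (nat_lit 184) (.e (nat_lit 426541) (nat_lit 29) (.e (nat_lit 352297) (nat_lit 20) (.e (nat_lit 2005) (nat_lit 138) (.e (nat_lit 671763) (nat_lit 5) (.e (nat_lit 73780) (nat_lit 32) .nil)))))) (.g (nat_lit 0) .nil .nil)))) (.nd (nat_lit 5) 
(.lf (nat_lit 97879) (.g (nat_lit 1094) (.e (nat_lit 2939) (nat_lit 184) (.e (nat_lit 426541) (nat_lit 29) (.e (nat_lit 352267) (nat_lit 0) (.e (nat_lit 3630) (nat_lit 227) (.e (nat_lit 778323) (nat_lit 5) (.e (nat_lit 73779) (nat_lit 32) .nil)))))) (.g (nat_lit 5) .nil .nil))) 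
(.lf (nat_lit 97911) (.g (nat_lit 1653) (.e (nat_lit 2939) (nat_lit 184) (.e (nat_lit 426554) (nat_lit 32) (.e (nat_lit 376857) (nat_lit 21) (.e (nat_lit 57870) (nat_lit 264) (.e (nat_lit 1209) (nat_lit 89) (.e (nat_lit 73780) (nat_lit 32) .nil)))))) (.g (nat_lit 5) .nil .nil))))) (.nd (nat_lit 4) (.nd (nat_lit 5) 
(.lf (nat_lit 97871) (.g (nat_lit 489) (.e (nat_lit 2939) (nat_lit 184) (.e (nat_lit 426532) (nat_lit 28) (.e (nat_lit 344084) (nat_lit 14) (.e (nat_lit 57865) (nat_lit 256) (.e (nat_lit 300) (nat_lit 22) (.e (nat_lit 344067) (nat_lit 0) .nil)))))) (.g (nat_lit 0) .nil .nil))) 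
(.lf (nat_lit 97903) (.g (nat_lit 1845) (.e (nat_lit 2939) (nat_lit 184) (.e (nat_lit 426541) (nat_lit 29) (.e (nat_lit 352309) (nat_lit 21) (.e (nat_lit 57871) (nat_lit 264) (.e (nat_lit 1209) (nat_lit 89) (.e (nat_lit 73780) (nat_lit 32) .nil)))))) (.g (nat_lit 6) .nil .nil)))) (.nd (nat_lit 5) 
(.lf (nat_lit 97887) (.g (nat_lit 941) (.e (nat_lit 2939) (nat_lit 184) (.e (nat_lit 426541) (nat_lit 29) (.e (nat_lit 352287) (nat_lit 20) (.e (nat_lit 1994) (nat_lit 137) (.e (nat_lit 663568) (nat_lit 5) (.e (nat_lit 73779) (nat_lit 32) .nil)))))) (.g (nat_lit 6) .nil .nil))) 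
(.lf (nat_lit 97919) (.g (nat_lit 382) (.e (nat_lit 2940) (nat_lit 184) (.e (nat_lit 426541) (nat_lit 29) (.e (nat_lit 352264) (nat_lit 0) (.e (nat_lit 3711) (nat_lit 227) (.e (nat_lit 786176) (nat_lit 5) .nil))))) .nil))))))))

noncomputable def tv1344 : DT := (.nd (nat_lit 0) (.nd (nat_lit 1) (.nd (nat_lit 2) (.nd (nat_lit 3) (.nd (nat_lit 4) (.nd (nat_lit 5) 
(.lf (nat_lit 97920) (.g (nat_lit 384) (.e (nat_lit 2940) (nat_lit 184) (.e (nat_lit 426541) (nat_lit 29) (.e (nat_lit 352264) (nat_lit 0) (.e (nat_lit 3714) (nat_lit 227) (.e (nat_lit 786176) (nat_lit 5) .nil))))) .nil)) 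
(.lf (nat_lit 97952) (.g (nat_lit 2046) (.e (nat_lit 2941) (nat_lit 184) (.e (nat_lit 426541) (nat_lit 29) (.e (nat_lit 352309) (nat_lit 21) (.e (nat_lit 57873) (nat_lit 264) (.e (nat_lit 1209) (nat_lit 89) (.e (nat_lit 73780) (nat_lit 32) .nil)))))) (.g (nat_lit 6) .nil .nil)))) (.nd (nat_lit 5) 
(.lf (nat_lit 97936) (.g (nat_lit 437) (.e (nat_lit 2941) (nat_lit 184) (.e (nat_lit 426532) (nat_lit 28) (.e (nat_lit 344067) (nat_lit 0) (.e (nat_lit 2940) (nat_lit 184) (.e (nat_lit 426532) (nat_lit 28) (.e (nat_lit 344067) (nat_lit 0) .nil)))))) (.g (nat_lit 0) .nil .nil))) 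
(.lf (nat_lit 97968) (.g (nat_lit 597) (.e (nat_lit 2946) (nat_lit 184) (.e (nat_lit 426116) (nat_lit 2) (.e (nat_lit 196624) (nat_lit 9) .nil))) .nil)))) (.nd (nat_lit 4) (.nd (nat_lit 5) 
(.lf (nat_lit 97928) (.g (nat_lit 1121) (.e (nat_lit 2940) (nat_lit 184) (.e (nat_lit 426541) (nat_lit 29) (.e (nat_lit 352309) (nat_lit 21) (.e (nat_lit 57870) (nat_lit 264) (.e (nat_lit 1211) (nat_lit 89) (.e (nat_lit 73779) (nat_lit 32) .nil)))))) (.g (nat_lit 5) .nil .nil))) 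
(.lf (nat_lit 97960) (.g (nat_lit 1563) (.e (nat_lit 2946) (nat_lit 184) (.e (nat_lit 426100) (nat_lit 1) (.e (nat_lit 164398) (nat_lit 256) (.e (nat_lit 57447) (nat_lit 19) .nil)))) .nil))) (.nd (nat_lit 5) 
(.lf (nat_lit 97944) (.g (nat_lit 461) (.e (nat_lit 2941) (nat_lit 184) (.e (nat_lit 426541) (nat_lit 29) (.e (nat_lit 352285) (nat_lit 20) (.e (nat_lit 1998) (nat_lit 137) (.e (nat_lit 663568) (nat_lit 5) (.e (nat_lit 73780) (nat_lit 32) .nil)))))) (.g (nat_lit 5) .nil .nil))) 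
(.lf (nat_lit 97976) (.g (nat_lit 1924) (.e (nat_lit 2946) (nat_lit 184) (.e (nat_lit 426343) (nat_lit 14) (.e (nat_lit 491568) (nat_lit 13) (.e (nat_lit 393283) (nat_lit 24) .nil)))) .nil))))) (.nd (nat_lit 3) (.nd (nat_lit 4) (.nd (nat_lit 5) 
(.lf (nat_lit 97924) (.g (nat_lit 736) (.e (nat_lit 2940) (nat_lit 184) (.e (nat_lit 426541) (nat_lit 29) (.e (nat_lit 352285) (nat_lit 20) (.e (nat_lit 1999) (nat_lit 137) (.e (nat_lit 663568) (nat_lit 5) (.e (nat_lit 73780) (nat_lit 32) .nil)))))) (.g (nat_lit 5) .nil .nil))) 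
(.lf (nat_lit 97956) (.g (nat_lit 3145) (.e (nat_lit 2946) (nat_lit 184) (.e (nat_lit 426100) (nat_lit 1) (.e (nat_lit 164398) (nat_lit 256) (.e (nat_lit 57378) (nat_lit 3) (.e (nat_lit 98372) (nat_lit 29) .nil))))) .nil))) (.nd (nat_lit 5) 
(.lf (nat_lit 97940) (.g (nat_lit 595) (.e (nat_lit 2941) (nat_lit 184) (.e (nat_lit 426532) (nat_lit 28) (.e (nat_lit 344077) (nat_lit 13) (.e (nat_lit 1383) (nat_lit 105) (.e (nat_lit 311357) (nat_lit 28) (.e (nat_lit 344066) (nat_lit 0) .nil)))))) (.g (nat_lit 6) .nil .nil))) 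
(.lf (nat_lit 97972) (.g (nat_lit 1841) (.e (nat_lit 2946) (nat_lit 184) (.e (nat_lit 426338) (nat_lit 14) (.e (nat_lit 491568) (nat_lit 13) (.e (nat_lit 393283) (nat_lit 24) (.e (nat_lit 434271) (nat_lit 38) .nil))))) .nil)))) (.nd (nat_lit 4) (.nd (nat_lit 5) 
(.lf (nat_lit 97932) (.g (nat_lit 2090) (.e (nat_lit 2940) (nat_lit 184) (.e (nat_lit 426541) (nat_lit 29) (.e (nat_lit 352309) (nat_lit 21) (.e (nat_lit 57873) (nat_lit 264) (.e (nat_lit 1209) (nat_lit 89) (.e (nat_lit 73780) (nat_lit 32) .nil)))))) (.g (nat_lit 6) .nil .nil))) 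
(.lf (nat_lit 97964) (.g (nat_lit 5442) (.e (nat_lit 2946) (nat_lit 184) (.e (nat_lit 426100) (nat_lit 1) (.e (nat_lit 164399) (nat_lit 256) (.e (nat_lit 57447) (nat_lit 19) (.e (nat_lit 393301) (nat_lit 27) (.e (nat_lit 491526) (nat_lit 0) (.e (nat_lit 1848) (nat_lit 124) (.e (nat_lit 557074) (nat_lit 9) .nil)))))))) (.g (nat_lit 8) .nil .nil)))) (.nd (nat_lit 5) 
(.lf (nat_lit 97948) (.g (nat_lit 1200) (.e (nat_lit 2941) (nat_lit 184) (.e (nat_lit 426541) (nat_lit 29) (.e (nat_lit 352307) (nat_lit 21) (.e (nat_lit 57870) (nat_lit 264) (.e (nat_lit 1211) (nat_lit 89) (.e (nat_lit 73779) (nat_lit 32) .nil)))))) (.g (nat_lit 5) .nil .nil))) 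
(.lf (nat_lit 97980) (.g (nat_lit 3921) (.e (nat_lit 2959) (nat_lit 185) (.e (nat_lit 434268) (nat_lit 36) (.e (nat_lit 639017) (nat_lit 15) (.e (nat_lit 57480) (nat_lit 28) (.e (nat_lit 557109) (nat_lit 15) (.e (nat_lit 188461) (nat_lit 26) (.e (nat_lit 261888) (nat_lit 0) .nil))))))) (.g (nat_lit 6) .nil .nil))))))) (.nd (nat_lit 2) (.nd (nat_lit 3) (.nd (nat_lit 4) (.nd (nat_lit 5) 
(.lf (nat_lit 97922) (.g (nat_lit 516) (.e (nat_lit 2940) (nat_lit 184) (.e (nat_lit 426541) (nat_lit 29) (.e (nat_lit 352285) (nat_lit 20) (.e (nat_lit 1998) (nat_lit 137) (.e (nat_lit 663568) (nat_lit 5) (.e (nat_lit 73780) (nat_lit 32) .nil)))))) (.g (nat_lit 5) .nil .nil))) 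
(.lf (nat_lit 97954) (.g (nat_lit 651) (.e (nat_lit 2946) (nat_lit 184) (.e (nat_lit 426100) (nat_lit 1) (.e (nat_lit 164398) (nat_lit 256) .nil))) .nil))) (.nd (nat_lit 5) 
(.lf (nat_lit 97938) (.g (nat_lit 2017) (.e (nat_lit 2941) (nat_lit 184) (.e (nat_lit 426532) (nat_lit 28) (.e (nat_lit 344069) (nat_lit 0) (.e (nat_lit 2856) (nat_lit 184) (.e (nat_lit 426533) (nat_lit 28) (.e (nat_lit 344066) (nat_lit 0) .nil)))))) (.g (nat_lit 6) .nil .nil))) 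
(.lf (nat_lit 97970) (.g (nat_lit 666) (.e (nat_lit 2946) (nat_lit 184) (.e (nat_lit 426188) (nat_lit 9) (.e (nat_lit 426364) (nat_lit 15) .nil))) .nil)))) (.nd (nat_lit 4) (.nd (nat_lit 5) 
(.lf (nat_lit 97930) (.g (nat_lit 2192) (.e (nat_lit 2940) (nat_lit 184) (.e (nat_lit 426541) (nat_lit 29) (.e (nat_lit 352309) (nat_lit 21) (.e (nat_lit 57872) (nat_lit 264) (.e (nat_lit 1209) (nat_lit 89) (.e (nat_lit 73780) (nat_lit 32) .nil)))))) (.g (nat_lit 6) .nil .nil))) 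
(.lf (nat_lit 97962) (.g (nat_lit 1258) (.e (nat_lit 2946) (nat_lit 184) (.e (nat_lit 426100) (nat_lit 1) (.e (nat_lit 164399) (nat_lit 256) (.e (nat_lit 57409) (nat_lit 12) .nil)))) .nil))) (.nd (nat_lit 5) 
(.lf (nat_lit 97946) (.g (nat_lit 856) (.e (nat_lit 2941) (nat_lit 184) (.e (nat_lit 426541) (nat_lit 29) (.e (nat_lit 352297) (nat_lit 20) (.e (nat_lit 2006) (nat_lit 138) (.e (nat_lit 671763) (nat_lit 5) (.e (nat_lit 73779) (nat_lit 32) .nil)))))) (.g (nat_lit 6) .nil .nil))) 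
(.lf (nat_lit 97978) (.g (nat_lit 2667) (.e (nat_lit 2946) (nat_lit 184) (.e (nat_lit 426343) (nat_lit 14) (.e (nat_lit 491570) (nat_lit 13) (.e (nat_lit 393283) (nat_lit 24) (.e (nat_lit 434271) (nat_lit 38) .nil))))) .nil))))) (.nd (nat_lit 3) (.nd (nat_lit 4) (.nd (nat_lit 5) 
(.lf (nat_lit 97926) (.g (nat_lit 707) (.e (nat_lit 2940) (nat_lit 184) (.e (nat_lit 426541) (nat_lit 29) (.e (nat_lit 352297) (nat_lit 20) (.e (nat_lit 2004) (nat_lit 138) (.e (nat_lit 671763) (nat_lit 5) (.e (nat_lit 73779) (nat_lit 32) .nil)))))) (.g (nat_lit 6) .nil .nil))) 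
(.lf (nat_lit 97958) (.g (nat_lit 2819) (.e (nat_lit 2946) (nat_lit 184) (.e (nat_lit 426100) (nat_lit 1) (.e (nat_lit 164398) (nat_lit 256) (.e (nat_lit 57379) (nat_lit 3) (.e (nat_lit 98372) (nat_lit 29) .nil))))) .nil))) (.nd (nat_lit 5) 
(.lf (nat_lit 97942) (.g (nat_lit 753) (.e (nat_lit 2941) (nat_lit 184) (.e (nat_lit 426532) (nat_lit 28) (.e (nat_lit 344077) (nat_lit 13) (.e (nat_lit 1385) (nat_lit 105) (.e (nat_lit 311357) (nat_lit 28) (.e (nat_lit 344066) (nat_lit 0) .nil)))))) (.g (nat_lit 6) .nil .nil))) 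
(.lf (nat_lit 97974) (.g (nat_lit 2235) (.e (nat_lit 2946) (nat_lit 184) (.e (nat_lit 426338) (nat_lit 14) (.e (nat_lit 491569) (nat_lit 13) (.e (nat_lit 393283) (nat_lit 24) (.e (nat_lit 434271) (nat_lit 38) (.e (nat_lit 655367) (nat_lit 0) .nil)))))) (.g (nat_lit 4) .nil .nil))))) (.nd (nat_lit 4) (.nd (nat_lit 5) 
(.lf (nat_lit 97934) (.g (nat_lit 1990) (.e (nat_lit 2941) (nat_lit 184) (.e (nat_lit 426508) (nat_lit 27) (.e (nat_lit 336200) (nat_lit 12) (.e (nat_lit 385094) (nat_lit 49) (.e (nat_lit 778323) (nat_lit 5) (.e (nat_lit 73779) (nat_lit 32) .nil)))))) (.g (nat_lit 6) .nil .nil))) 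
(.lf (nat_lit 97966) (.g (nat_lit 593) (.e (nat_lit 2946) (nat_lit 184) (.e (nat_lit 426100) (nat_lit 1) (.e (nat_lit 164403) (nat_lit 256) .nil))) .nil))) (.nd (nat_lit 5) 
(.lf (nat_lit 97950) (.g (nat_lit 2148) (.e (nat_lit 2941) (nat_lit 184) (.e (nat_lit 426541) (nat_lit 29) (.e (nat_lit 352309) (nat_lit 21) (.e (nat_lit 57872) (nat_lit 264) (.e (nat_lit 1209) (nat_lit 89) (.e (nat_lit 73780) (nat_lit 32) .nil)))))) (.g (nat_lit 6) .nil .nil))) 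
(.lf (nat_lit 97982) (.g (nat_lit 762) (.e (nat_lit 2960) (nat_lit 185) (.e (nat_lit 434209) (nat_lit 18) (.e (nat_lit 6270) (nat_lit 337) .nil))) .nil))))))) (.nd (nat_lit 1) (.nd (nat_lit 2) (.nd (nat_lit 3) (.nd (nat_lit 4) (.nd (nat_lit 5) 
(.lf (nat_lit 97921) (.g (nat_lit 627) (.e (nat_lit 2940) (nat_lit 184) (.e (nat_lit 426541) (nat_lit 29) (.e (nat_lit 352285) (nat_lit 20) (.e (nat_lit 1998) (nat_lit 137) (.e (nat_lit 663568) (nat_lit 5) (.e (nat_lit 73779) (nat_lit 32) .nil)))))) (.g (nat_lit 5) .nil .nil))) 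
(.lf (nat_lit 97953) (.g (nat_lit 812) (.e (nat_lit 2944) (nat_lit 184) (.e (nat_lit 426344) (nat_lit 14) (.e (nat_lit 491544) (nat_lit 7) .nil))) .nil))) (.nd (nat_lit 5) 
(.lf (nat_lit 97937) (.g (nat_lit 2329) (.e (nat_lit 2941) (nat_lit 184) (.e (nat_lit 426532) (nat_lit 28) (.e (nat_lit 344068) (nat_lit 0) (.e (nat_lit 2856) (nat_lit 184) (.e (nat_lit 426533) (nat_lit 28) (.e (nat_lit 344066) (nat_lit 0) .nil)))))) (.g (nat_lit 6) .nil .nil))) 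
(.lf (nat_lit 97969) (.g (nat_lit 1835) (.e (nat_lit 2946) (nat_lit 184) (.e (nat_lit 426188) (nat_lit 9) (.e (nat_lit 426354) (nat_lit 15) (.e (nat_lit 2031) (nat_lit 140) (.e (nat_lit 688178) (nat_lit 16) .nil))))) .nil)))) (.nd (nat_lit 4) (.nd (nat_lit 5) 
(.lf (nat_lit 97929) (.g (nat_lit 1835) (.e (nat_lit 2940) (nat_lit 184) (.e (nat_lit 426541) (nat_lit 29) (.e (nat_lit 352309) (nat_lit 21) (.e (nat_lit 57871) (nat_lit 264) (.e (nat_lit 1209) (nat_lit 89) (.e (nat_lit 73780) (nat_lit 32) .nil)))))) (.g (nat_lit 6) .nil .nil))) 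
(.lf (nat_lit 97961) (.g (nat_lit 631) (.e (nat_lit 2946) (nat_lit 184) (.e (nat_lit 426100) (nat_lit 1) (.e (nat_lit 164399) (nat_lit 256) .nil))) .nil))) (.nd (nat_lit 5) 
(.lf (nat_lit 97945) (.g (nat_lit 679) (.e (nat_lit 2941) (nat_lit 184) (.e (nat_lit 426541) (nat_lit 29) (.e (nat_lit 352285) (nat_lit 20) (.e (nat_lit 1999) (nat_lit 137) (.e (nat_lit 663568) (nat_lit 5) (.e (nat_lit 73780) (nat_lit 32) .nil)))))) (.g (nat_lit 5) .nil .nil))) 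
(.lf (nat_lit 97977) (.g (nat_lit 812) (.e (nat_lit 2946) (nat_lit 184) (.e (nat_lit 426343) (nat_lit 14) (.e (nat_lit 491570) (nat_lit 13) .nil))) .nil))))) (.nd (nat_lit 3) (.nd (nat_lit 4) (.nd (nat_lit 5) 
(.lf (nat_lit 97925) (.g (nat_lit 764) (.e (nat_lit 2940) (nat_lit 184) (.e (nat_lit 426541) (nat_lit 29) (.e (nat_lit 352287) (nat_lit 20) (.e (nat_lit 1996) (nat_lit 137) (.e (nat_lit 663568) (nat_lit 5) (.e (nat_lit 73779) (nat_lit 32) .nil)))))) (.g (nat_lit 6) .nil .nil))) 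
(.lf (nat_lit 97957) (.g (nat_lit 4036) (.e (nat_lit 2946) (nat_lit 184) (.e (nat_lit 426100) (nat_lit 1) (.e (nat_lit 164398) (nat_lit 256) (.e (nat_lit 57378) (nat_lit 3) (.e (nat_lit 98372) (nat_lit 29) (.e (nat_lit 450561) (nat_lit 0) (.e (nat_lit 6595) (nat_lit 351) (.e (nat_lit 2458) (nat_lit 157) .nil)))))))) (.g (nat_lit 5) .nil .nil)))) (.nd (nat_lit 5) 
(.lf (nat_lit 97941) (.g (nat_lit 630) (.e (nat_lit 2941) (nat_lit 184) (.e (nat_lit 426532) (nat_lit 28) (.e (nat_lit 344077) (nat_lit 13) (.e (nat_lit 1384) (nat_lit 105) (.e (nat_lit 311357) (nat_lit 28) (.e (nat_lit 344066) (nat_lit 0) .nil)))))) (.g (nat_lit 6) .nil .nil))) 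
(.lf (nat_lit 97973) (.g (nat_lit 1329) (.e (nat_lit 2946) (nat_lit 184) (.e (nat_lit 426338) (nat_lit 14) (.e (nat_lit 491569) (nat_lit 13) (.e (nat_lit 393283) (nat_lit 24) .nil)))) .nil)))) (.nd (nat_lit 4) (.nd (nat_lit 5) 
(.lf (nat_lit 97933) (.g (nat_lit 1091) (.e (nat_lit 2940) (nat_lit 184) (.e (nat_lit 426554) (nat_lit 32) (.e (nat_lit 376857) (nat_lit 21) (.e (nat_lit 57870) (nat_lit 264) (.e (nat_lit 1210) (nat_lit 89) (.e (nat_lit 73779) (nat_lit 32) .nil)))))) (.g (nat_lit 5) .nil .nil))) 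
(.lf (nat_lit 97965) (.g (nat_lit 2921) (.e (nat_lit 2946) (nat_lit 184) (.e (nat_lit 426100) (nat_lit 1) (.e (nat_lit 164399) (nat_lit 256) (.e (nat_lit 57448) (nat_lit 19) (.e (nat_lit 393301) (nat_lit 27) (.e (nat_lit 491526) (nat_lit 0) (.e (nat_lit 1848) (nat_lit 124) (.e (nat_lit 557076) (nat_lit 9) .nil)))))))) (.g (nat_lit 5) .nil .nil)))) (.nd (nat_lit 5) 
(.lf (nat_lit 97949) (.g (nat_lit 1163) (.e (nat_lit 2941) (nat_lit 184) (.e (nat_lit 426541) (nat_lit 29) (.e (nat_lit 352309) (nat_lit 21) (.e (nat_lit 57871) (nat_lit 264) (.e (nat_lit 1210) (nat_lit 89) (.e (nat_lit 73779) (nat_lit 32) .nil)))))) (.g (nat_lit 5) .nil .nil))) 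
(.lf (nat_lit 97981) (.g (nat_lit 2029) (.e (nat_lit 2960) (nat_lit 185) (.e (nat_lit 434209) (nat_lit 18) (.e (nat_lit 5939) (nat_lit 322) (.e (nat_lit 57375) (nat_lit 2) (.e (nat_lit 90176) (nat_lit 15) (.e (nat_lit 188459) (nat_lit 26) (.e (nat_lit 253956) (nat_lit 0) .nil))))))) (.g (nat_lit 4) .nil .nil))))))) (.nd (nat_lit 2) (.nd (nat_lit 3) (.nd (nat_lit 4) (.nd (nat_lit 5) 
(.lf (nat_lit 97923) (.g (nat_lit 848) (.e (nat_lit 2940) (nat_lit 184) (.e (nat_lit 426541) (nat_lit 29) (.e (nat_lit 352285) (nat_lit 20) (.e (nat_lit 1999) (nat_lit 137) (.e (nat_lit 663568) (nat_lit 5) (.e (nat_lit 73779) (nat_lit 32) .nil)))))) (.g (nat_lit 5) .nil .nil))) 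
(.lf (nat_lit 97955) (.g (nat_lit 1545) (.e (nat_lit 2946) (nat_lit 184) (.e (nat_lit 426100) (nat_lit 1) (.e (nat_lit 164398) (nat_lit 256) (.e (nat_lit 57373) (nat_lit 2) .nil)))) .nil))) (.nd (nat_lit 5) 
(.lf (nat_lit 97939) (.g (nat_lit 1021) (.e (nat_lit 2941) (nat_lit 184) (.e (nat_lit 426532) (nat_lit 28) (.e (nat_lit 344076) (nat_lit 13) (.e (nat_lit 1386) (nat_lit 105) (.e (nat_lit 311357) (nat_lit 28) (.e (nat_lit 344066) (nat_lit 0) .nil)))))) (.g (nat_lit 6) .nil .nil))) 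
(.lf (nat_lit 97971) (.g (nat_lit 587) (.e (nat_lit 2946) (nat_lit 184) (.e (nat_lit 426315) (nat_lit 12) (.e (nat_lit 475207) (nat_lit 41) .nil))) .nil)))) (.nd (nat_lit 4) (.nd (nat_lit 5) 
(.lf (nat_lit 97931) (.g (nat_lit 1620) (.e (nat_lit 2940) (nat_lit 184) (.e (nat_lit 426541) (nat_lit 29) (.e (nat_lit 352309) (nat_lit 21) (.e (nat_lit 57872) (nat_lit 264) (.e (nat_lit 1211) (nat_lit 89) (.e (nat_lit 73779) (nat_lit 32) .nil)))))) (.g (nat_lit 5) .nil .nil))) 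
(.lf (nat_lit 97963) (.g (nat_lit 1238) (.e (nat_lit 2946) (nat_lit 184) (.e (nat_lit 426100) (nat_lit 1) (.e (nat_lit 164399) (nat_lit 256) (.e (nat_lit 57447) (nat_lit 19) .nil)))) .nil))) (.nd (nat_lit 5) 
(.lf (nat_lit 97947) (.g (nat_lit 1047) (.e (nat_lit 2941) (nat_lit 184) (.e (nat_lit 426541) (nat_lit 29) (.e (nat_lit 352307) (nat_lit 21) (.e (nat_lit 57870) (nat_lit 264) (.e (nat_lit 1210) (nat_lit 89) (.e (nat_lit 73779) (nat_lit 32) .nil)))))) (.g (nat_lit 5) .nil .nil))) 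
(.lf (nat_lit 97979) (.g (nat_lit 4224) (.e (nat_lit 2959) (nat_lit 185) (.e (nat_lit 434268) (nat_lit 36) (.e (nat_lit 639017) (nat_lit 15) (.e (nat_lit 57480) (nat_lit 28) (.e (nat_lit 557108) (nat_lit 15) (.e (nat_lit 188461) (nat_lit 26) (.e (nat_lit 261888) (nat_lit 0) .nil))))))) (.g (nat_lit 6) .nil .nil)))))) (.nd (nat_lit 3) (.nd (nat_lit 4) (.nd (nat_lit 5) 
(.lf (nat_lit 97927) (.g (nat_lit 1031) (.e (nat_lit 2940) (nat_lit 184) (.e (nat_lit 426541) (nat_lit 29) (.e (nat_lit 352309) (nat_lit 21) (.e (nat_lit 57870) (nat_lit 264) (.e (nat_lit 1210) (nat_lit 89) (.e (nat_lit 73779) (nat_lit 32) .nil)))))) (.g (nat_lit 5) .nil .nil))) 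
(.lf (nat_lit 97959) (.g (nat_lit 1559) (.e (nat_lit 2946) (nat_lit 184) (.e (nat_lit 426100) (nat_lit 1) (.e (nat_lit 164398) (nat_lit 256) (.e (nat_lit 57409) (nat_lit 12) .nil)))) .nil))) (.nd (nat_lit 5) 
(.lf (nat_lit 97943) (.g (nat_lit 1075) (.e (nat_lit 2941) (nat_lit 184) (.e (nat_lit 426532) (nat_lit 28) (.e (nat_lit 344077) (nat_lit 13) (.e (nat_lit 1386) (nat_lit 105) (.e (nat_lit 311357) (nat_lit 28) (.e (nat_lit 344066) (nat_lit 0) .nil)))))) (.g (nat_lit 6) .nil .nil))) 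
(.lf (nat_lit 97975) (.g (nat_lit 474) (.e (nat_lit 2946) (nat_lit 184) (.e (nat_lit 426338) (nat_lit 14) (.e (nat_lit 491570) (nat_lit 13) .nil))) .nil)))) (.nd (nat_lit 4) (.nd (nat_lit 5) 
(.lf (nat_lit 97935) (.g (nat_lit 1947) (.e (nat_lit 2941) (nat_lit 184) (.e (nat_lit 426508) (nat_lit 27) (.e (nat_lit 336200) (nat_lit 12) (.e (nat_lit 385094) (nat_lit 49) (.e (nat_lit 778323) (nat_lit 5) (.e (nat_lit 73780) (nat_lit 32) .nil)))))) (.g (nat_lit 6) .nil .nil))) 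
(.lf (nat_lit 97967) (.g (nat_lit 2939) (.e (nat_lit 2946) (nat_lit 184) (.e (nat_lit 426100) (nat_lit 1) (.e (nat_lit 164403) (nat_lit 256) (.e (nat_lit 57447) (nat_lit 19) (.e (nat_lit 393301) (nat_lit 27) .nil))))) .nil))) (.nd (nat_lit 5) 
(.lf (nat_lit 97951) (.g (nat_lit 1574) (.e (nat_lit 2941) (nat_lit 184) (.e (nat_lit 426541) (nat_lit 29) (.e (nat_lit 352309) (nat_lit 21) (.e (nat_lit 57872) (nat_lit 264) (.e (nat_lit 1211) (nat_lit 89) (.e (nat_lit 73779) (nat_lit 32) .nil)))))) (.g (nat_lit 5) .nil .nil))) 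
(.lf (nat_lit 97983) (.g (nat_lit 1131) (.e (nat_lit 2960) (nat_lit 185) (.e (nat_lit 434209) (nat_lit 18) (.e (nat_lit 6277) (nat_lit 337) (.e (nat_lit 1214) (nat_lit 89) .nil)))) .nil))))))))

noncomputable def tv1345 : DT := (.nd (nat_lit 0) (.nd (nat_lit 1) (.nd (nat_lit 2) (.nd (nat_lit 3) (.nd (nat_lit 4) (.nd (nat_lit 5) 
(.lf (nat_lit 97984) (.g (nat_lit 762) (.e (nat_lit 2960) (nat_lit 185) (.e (nat_lit 434209) (nat_lit 18) (.e (nat_lit 6306) (nat_lit 337) .nil))) .nil)) 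
(.lf (nat_lit 98016) (.g (nat_lit 3958) (.e (nat_lit 2966) (nat_lit 185) (.e (nat_lit 434268) (nat_lit 36) (.e (nat_lit 639017) (nat_lit 15) (.e (nat_lit 57480) (nat_lit 28) (.e (nat_lit 557109) (nat_lit 15) (.e (nat_lit 188461) (nat_lit 26) (.e (nat_lit 261888) (nat_lit 0) .nil))))))) (.g (nat_lit 6) .nil .nil)))) (.nd (nat_lit 5) 
(.lf (nat_lit 98000) (.g (nat_lit 1380) (.e (nat_lit 2963) (nat_lit 185) (.e (nat_lit 434180) (nat_lit 0) (.e (nat_lit 1661) (nat_lit 115) (.e (nat_lit 393291) (nat_lit 26) .nil)))) .nil)) 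
(.lf (nat_lit 98032) (.g (nat_lit 2261) (.e (nat_lit 2980) (nat_lit 185) (.e (nat_lit 434209) (nat_lit 18) (.e (nat_lit 5939) (nat_lit 322) (.e (nat_lit 57375) (nat_lit 2) (.e (nat_lit 90177) (nat_lit 15) .nil))))) .nil)))) (.nd (nat_lit 4) (.nd (nat_lit 5) 
(.lf (nat_lit 97992) (.g (nat_lit 746) (.e (nat_lit 2961) (nat_lit 185) (.e (nat_lit 434289) (nat_lit 43) (.e (nat_lit 696350) (nat_lit 13) .nil))) .nil)) 
(.lf (nat_lit 98024) (.g (nat_lit 1812) (.e (nat_lit 2979) (nat_lit 185) (.e (nat_lit 434209) (nat_lit 18) (.e (nat_lit 5939) (nat_lit 322) (.e (nat_lit 57375) (nat_lit 2) (.e (nat_lit 90176) (nat_lit 15) .nil))))) .nil))) (.nd (nat_lit 5) 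
(.lf (nat_lit 98008) (.g (nat_lit 3210) (.e (nat_lit 2964) (nat_lit 185) (.e (nat_lit 434209) (nat_lit 18) (.e (nat_lit 6410) (nat_lit 340) (.e (nat_lit 122913) (nat_lit 13) (.e (nat_lit 344130) (nat_lit 26) (.e (nat_lit 557104) (nat_lit 14) (.e (nat_lit 180261) (nat_lit 20) (.e (nat_lit 655364) (nat_lit 0) .nil)))))))) (.g (nat_lit 6) .nil .nil))) 
(.lf (nat_lit 98040) (.g (nat_lit 4191) (.e (nat_lit 2980) (nat_lit 185) (.e (nat_lit 434269) (nat_lit 36) (.e (nat_lit 639017) (nat_lit 15) (.e (nat_lit 57480) (nat_lit 28) (.e (nat_lit 557108) (nat_lit 15) (.e (nat_lit 188461) (nat_lit 26) (.e (nat_lit 261888) (nat_lit 0) .nil))))))) (.g (nat_lit 6) .nil .nil)))))) (.nd (nat_lit 3) (.nd (nat_lit 4) (.nd (nat_lit 5) 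
(.lf (nat_lit 97988) (.g (nat_lit 3894) (.e (nat_lit 2960) (nat_lit 185) (.e (nat_lit 434268) (nat_lit 36) (.e (nat_lit 639017) (nat_lit 15) (.e (nat_lit 57480) (nat_lit 28) (.e (nat_lit 557109) (nat_lit 15) (.e (nat_lit 188461) (nat_lit 26) (.e (nat_lit 253954) (nat_lit 0) .nil))))))) (.g (nat_lit 6) .nil .nil))) 
(.lf (nat_lit 98020) (.g (nat_lit 2368) (.e (nat_lit 2975) (nat_lit 185) (.e (nat_lit 434203) (nat_lit 18) (.e (nat_lit 5943) (nat_lit 322) (.e (nat_lit 57375) (nat_lit 2) (.e (nat_lit 90176) (nat_lit 15) (.e (nat_lit 188459) (nat_lit 26) (.e (nat_lit 261888) (nat_lit 0) .nil))))))) (.g (nat_lit 6) .nil .nil)))) (.nd (nat_lit 5) 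
(.lf (nat_lit 98004) (.g (nat_lit 723) (.e (nat_lit 2964) (nat_lit 185) (.e (nat_lit 434209) (nat_lit 18) (.e (nat_lit 4607) (nat_lit 269) .nil))) .nil)) 
(.lf (nat_lit 98036) (.g (nat_lit 2853) (.e (nat_lit 2980) (nat_lit 185) (.e (nat_lit 434241) (nat_lit 27) (.e (nat_lit 565268) (nat_lit 5) (.e (nat_lit 73755) (nat_lit 8) (.e (nat_lit 557105) (nat_lit 14) (.e (nat_lit 180252) (nat_lit 10) (.e (nat_lit 581376) (nat_lit 0) .nil))))))) (.g (nat_lit 6) .nil .nil))))) (.nd (nat_lit 4) (.nd (nat_lit 5) 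
(.lf (nat_lit 97996) (.g (nat_lit 762) (.e (nat_lit 2962) (nat_lit 185) (.e (nat_lit 434209) (nat_lit 18) (.e (nat_lit 5938) (nat_lit 322) .nil))) .nil)) 
(.lf (nat_lit 98028) (.g (nat_lit 591) (.e (nat_lit 2979) (nat_lit 185) (.e (nat_lit 434275) (nat_lit 39) (.e (nat_lit 671488) (nat_lit 0) .nil))) .nil))) (.nd (nat_lit 5) 
(.lf (nat_lit 98012) (.g (nat_lit 2787) (.e (nat_lit 2964) (nat_lit 185) (.e (nat_lit 434289) (nat_lit 43) (.e (nat_lit 696362) (nat_lit 17) (.e (nat_lit 73755) (nat_lit 8) (.e (nat_lit 557104) (nat_lit 14) (.e (nat_lit 180261) (nat_lit 20) (.e (nat_lit 655364) (nat_lit 0) .nil))))))) (.g (nat_lit 5) .nil .nil))) 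
(.lf (nat_lit 98044) (.g (nat_lit 3786) (.e (nat_lit 2980) (nat_lit 185) (.e (nat_lit 434269) (nat_lit 36) (.e (nat_lit 639018) (nat_lit 15) (.e (nat_lit 57480) (nat_lit 28) (.e (nat_lit 557109) (nat_lit 15) (.e (nat_lit 188461) (nat_lit 26) (.e (nat_lit 261888) (nat_lit 0) .nil))))))) (.g (nat_lit 6) .nil .nil))))))) (.nd (nat_lit 2) (.nd (nat_lit 3) (.nd (nat_lit 4) (.nd (nat_lit 5) 
(.lf (nat_lit 97986) (.g (nat_lit 4488) (.e (nat_lit 2960) (nat_lit 185) (.e (nat_lit 434268) (nat_lit 36) (.e (nat_lit 639017) (nat_lit 15) (.e (nat_lit 57480) (nat_lit 28) (.e (nat_lit 557108) (nat_lit 15) (.e (nat_lit 188461) (nat_lit 26) (.e (nat_lit 253954) (nat_lit 0) .nil))))))) (.g (nat_lit 6) .nil .nil))) 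
(.lf (nat_lit 98018) (.g (nat_lit 3238) (.e (nat_lit 2973) (nat_lit 185) (.e (nat_lit 434229) (nat_lit 22) (.e (nat_lit 524339) (nat_lit 27) (.e (nat_lit 344133) (nat_lit 26) (.e (nat_lit 557105) (nat_lit 14) (.e (nat_lit 180252) (nat_lit 10) (.e (nat_lit 581376) (nat_lit 0) .nil))))))) (.g (nat_lit 6) .nil .nil)))) (.nd (nat_lit 5) 
(.lf (nat_lit 98002) (.g (nat_lit 3186) (.e (nat_lit 2963) (nat_lit 185) (.e (nat_lit 434229) (nat_lit 22) (.e (nat_lit 524339) (nat_lit 27) (.e (nat_lit 344133) (nat_lit 26) (.e (nat_lit 557105) (nat_lit 14) (.e (nat_lit 180252) (nat_lit 10) (.e (nat_lit 581376) (nat_lit 0) .nil))))))) (.g (nat_lit 6) .nil .nil))) 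
(.lf (nat_lit 98034) (.g (nat_lit 507) (.e (nat_lit 2980) (nat_lit 185) (.e (nat_lit 434219) (nat_lit 19) (.e (nat_lit 499965) (nat_lit 14) .nil))) .nil)))) (.nd (nat_lit 4) (.nd (nat_lit 5) 
(.lf (nat_lit 97994) (.g (nat_lit 1739) (.e (nat_lit 2961) (nat_lit 185) (.e (nat_lit 434289) (nat_lit 43) (.e (nat_lit 696362) (nat_lit 17) (.e (nat_lit 73755) (nat_lit 8) (.e (nat_lit 557096) (nat_lit 13) .nil))))) .nil)) 
(.lf (nat_lit 98026) (.g (nat_lit 1858) (.e (nat_lit 2979) (nat_lit 185) (.e (nat_lit 434209) (nat_lit 18) (.e (nat_lit 5939) (nat_lit 322) (.e (nat_lit 57379) (nat_lit 3) (.e (nat_lit 98372) (nat_lit 29) .nil))))) .nil))) (.nd (nat_lit 5) 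
(.lf (nat_lit 98010) (.g (nat_lit 4042) (.e (nat_lit 2964) (nat_lit 185) (.e (nat_lit 434268) (nat_lit 36) (.e (nat_lit 639017) (nat_lit 15) (.e (nat_lit 57480) (nat_lit 28) (.e (nat_lit 557109) (nat_lit 15) (.e (nat_lit 188461) (nat_lit 26) (.e (nat_lit 261888) (nat_lit 0) .nil))))))) (.g (nat_lit 6) .nil .nil))) 
(.lf (nat_lit 98042) (.g (nat_lit 2426) (.e (nat_lit 2980) (nat_lit 185) (.e (nat_lit 434269) (nat_lit 36) (.e (nat_lit 639018) (nat_lit 15) (.e (nat_lit 57478) (nat_lit 28) (.e (nat_lit 557107) (nat_lit 15) (.e (nat_lit 188459) (nat_lit 26) (.e (nat_lit 261888) (nat_lit 0) .nil))))))) (.g (nat_lit 6) .nil .nil)))))) (.nd (nat_lit 3) (.nd (nat_lit 4) (.nd (nat_lit 5) 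
(.lf (nat_lit 97990) (.g (nat_lit 2919) (.e (nat_lit 2960) (nat_lit 185) (.e (nat_lit 434269) (nat_lit 36) (.e (nat_lit 639018) (nat_lit 15) (.e (nat_lit 57480) (nat_lit 28) (.e (nat_lit 557107) (nat_lit 15) (.e (nat_lit 188459) (nat_lit 26) (.e (nat_lit 253956) (nat_lit 0) .nil))))))) (.g (nat_lit 5) .nil .nil))) 
(.lf (nat_lit 98022) (.g (nat_lit 478) (.e (nat_lit 2978) (nat_lit 185) (.e (nat_lit 434275) (nat_lit 39) (.e (nat_lit 663574) (nat_lit 9) .nil))) .nil))) (.nd (nat_lit 5) 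
(.lf (nat_lit 98006) (.g (nat_lit 1913) (.e (nat_lit 2964) (nat_lit 185) (.e (nat_lit 434209) (nat_lit 18) (.e (nat_lit 5939) (nat_lit 322) (.e (nat_lit 57379) (nat_lit 3) (.e (nat_lit 98372) (nat_lit 29) (.e (nat_lit 450602) (nat_lit 22) (.e (nat_lit 704512) (nat_lit 0) .nil))))))) (.g (nat_lit 4) .nil .nil))) 
(.lf (nat_lit 98038) (.g (nat_lit 3690) (.e (nat_lit 2980) (nat_lit 185) (.e (nat_lit 434268) (nat_lit 36) (.e (nat_lit 639017) (nat_lit 15) (.e (nat_lit 57480) (nat_lit 28) (.e (nat_lit 557109) (nat_lit 15) (.e (nat_lit 188461) (nat_lit 26) (.e (nat_lit 261888) (nat_lit 0) .nil))))))) (.g (nat_lit 6) .nil .nil))))) (.nd (nat_lit 4) (.nd (nat_lit 5) 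
(.lf (nat_lit 97998) (.g (nat_lit 2011) (.e (nat_lit 2962) (nat_lit 185) (.e (nat_lit 434248) (nat_lit 28) (.e (nat_lit 573503) (nat_lit 18) (.e (nat_lit 1349) (nat_lit 102) .nil)))) .nil)) 
(.lf (nat_lit 98030) (.g (nat_lit 763) (.e (nat_lit 2980) (nat_lit 185) (.e (nat_lit 434209) (nat_lit 18) (.e (nat_lit 5938) (nat_lit 322) .nil))) .nil))) (.nd (nat_lit 5) 
(.lf (nat_lit 98014) (.g (nat_lit 901) (.e (nat_lit 2965) (nat_lit 185) (.e (nat_lit 434241) (nat_lit 27) (.e (nat_lit 565269) (nat_lit 6) (.e (nat_lit 81934) (nat_lit 20) .nil)))) .nil)) 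
(.lf (nat_lit 98046) (.g (nat_lit 1823) (.e (nat_lit 2980) (nat_lit 185) (.e (nat_lit 434275) (nat_lit 39) (.e (nat_lit 663580) (nat_lit 9) (.e (nat_lit 46) (nat_lit 0) .nil)))) .nil))))))) (.nd (nat_lit 1) (.nd (nat_lit 2) (.nd (nat_lit 3) (.nd (nat_lit 4) (.nd (nat_lit 5) 
(.lf (nat_lit 97985) (.g (nat_lit 3504) (.e (nat_lit 2960) (nat_lit 185) (.e (nat_lit 434229) (nat_lit 22) (.e (nat_lit 524339) (nat_lit 27) (.e (nat_lit 344133) (nat_lit 26) (.e (nat_lit 557103) (nat_lit 14) (.e (nat_lit 180250) (nat_lit 10) (.e (nat_lit 573442) (nat_lit 0) .nil))))))) (.g (nat_lit 0) .nil .nil))) 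
(.lf (nat_lit 98017) (.g (nat_lit 2385) (.e (nat_lit 2973) (nat_lit 185) (.e (nat_lit 434229) (nat_lit 22) (.e (nat_lit 524339) (nat_lit 27) (.e (nat_lit 344131) (nat_lit 26) (.e (nat_lit 557105) (nat_lit 14) (.e (nat_lit 180252) (nat_lit 10) (.e (nat_lit 581376) (nat_lit 0) .nil))))))) (.g (nat_lit 6) .nil .nil)))) (.nd (nat_lit 5) 
(.lf (nat_lit 98001) (.g (nat_lit 2354) (.e (nat_lit 2963) (nat_lit 185) (.e (nat_lit 434229) (nat_lit 22) (.e (nat_lit 524339) (nat_lit 27) (.e (nat_lit 344131) (nat_lit 26) (.e (nat_lit 557105) (nat_lit 14) (.e (nat_lit 180252) (nat_lit 10) (.e (nat_lit 581376) (nat_lit 0) .nil))))))) (.g (nat_lit 6) .nil .nil))) 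
(.lf (nat_lit 98033) (.g (nat_lit 1421) (.e (nat_lit 2980) (nat_lit 185) (.e (nat_lit 434209) (nat_lit 18) (.e (nat_lit 6272) (nat_lit 337) (.e (nat_lit 1207) (nat_lit 89) (.e (nat_lit 73754) (nat_lit 8) .nil))))) .nil)))) (.nd (nat_lit 4) (.nd (nat_lit 5) 
(.lf (nat_lit 97993) (.g (nat_lit 1743) (.e (nat_lit 2961) (nat_lit 185) (.e (nat_lit 434289) (nat_lit 43) (.e (nat_lit 696362) (nat_lit 17) (.e (nat_lit 73753) (nat_lit 8) (.e (nat_lit 557096) (nat_lit 13) .nil))))) .nil)) 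
(.lf (nat_lit 98025) (.g (nat_lit 1127) (.e (nat_lit 2979) (nat_lit 185) (.e (nat_lit 434209) (nat_lit 18) (.e (nat_lit 5939) (nat_lit 322) (.e (nat_lit 57379) (nat_lit 3) .nil)))) .nil))) (.nd (nat_lit 5) 
(.lf (nat_lit 98009) (.g (nat_lit 4345) (.e (nat_lit 2964) (nat_lit 185) (.e (nat_lit 434268) (nat_lit 36) (.e (nat_lit 639017) (nat_lit 15) (.e (nat_lit 57480) (nat_lit 28) (.e (nat_lit 557108) (nat_lit 15) (.e (nat_lit 188461) (nat_lit 26) (.e (nat_lit 261888) (nat_lit 0) .nil))))))) (.g (nat_lit 6) .nil .nil))) 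
(.lf (nat_lit 98041) (.g (nat_lit 3719) (.e (nat_lit 2980) (nat_lit 185) (.e (nat_lit 434269) (nat_lit 36) (.e (nat_lit 639017) (nat_lit 15) (.e (nat_lit 57480) (nat_lit 28) (.e (nat_lit 557109) (nat_lit 15) (.e (nat_lit 188461) (nat_lit 26) (.e (nat_lit 261888) (nat_lit 0) .nil))))))) (.g (nat_lit 6) .nil .nil)))))) (.nd (nat_lit 3) (.nd (nat_lit 4) (.nd (nat_lit 5) 
(.lf (nat_lit 97989) (.g (nat_lit 3859) (.e (nat_lit 2960) (nat_lit 185) (.e (nat_lit 434268) (nat_lit 36) (.e (nat_lit 639017) (nat_lit 15) (.e (nat_lit 57480) (nat_lit 28) (.e (nat_lit 557109) (nat_lit 15) (.e (nat_lit 188461) (nat_lit 26) (.e (nat_lit 261888) (nat_lit 0) .nil))))))) (.g (nat_lit 6) .nil .nil))) 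
(.lf (nat_lit 98021) (.g (nat_lit 2532) (.e (nat_lit 2978) (nat_lit 185) (.e (nat_lit 434231) (nat_lit 23) (.e (nat_lit 532500) (nat_lit 1) (.e (nat_lit 57754) (nat_lit 209) .nil)))) .nil))) (.nd (nat_lit 5) 
(.lf (nat_lit 98005) (.g (nat_lit 1826) (.e (nat_lit 2964) (nat_lit 185) (.e (nat_lit 434209) (nat_lit 18) (.e (nat_lit 5939) (nat_lit 322) (.e (nat_lit 57375) (nat_lit 2) (.e (nat_lit 90176) (nat_lit 15) .nil))))) .nil)) 
(.lf (nat_lit 98037) (.g (nat_lit 3103) (.e (nat_lit 2980) (nat_lit 185) (.e (nat_lit 434266) (nat_lit 35) (.e (nat_lit 630818) (nat_lit 15) (.e (nat_lit 57480) (nat_lit 28) (.e (nat_lit 557109) (nat_lit 15) (.e (nat_lit 188461) (nat_lit 26) (.e (nat_lit 261888) (nat_lit 0) .nil))))))) (.g (nat_lit 6) .nil .nil))))) (.nd (nat_lit 4) (.nd (nat_lit 5) 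
(.lf (nat_lit 97997) (.g (nat_lit 3609) (.e (nat_lit 2962) (nat_lit 185) (.e (nat_lit 434229) (nat_lit 22) (.e (nat_lit 524339) (nat_lit 27) (.e (nat_lit 344133) (nat_lit 26) (.e (nat_lit 557103) (nat_lit 14) (.e (nat_lit 180250) (nat_lit 10) (.e (nat_lit 573441) (nat_lit 0) .nil))))))) (.g (nat_lit 0) .nil .nil))) 
(.lf (nat_lit 98029) (.g (nat_lit 1703) (.e (nat_lit 2979) (nat_lit 185) (.e (nat_lit 434275) (nat_lit 39) (.e (nat_lit 663580) (nat_lit 9) (.e (nat_lit 284) (nat_lit 21) .nil)))) .nil))) (.nd (nat_lit 5) 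
(.lf (nat_lit 98013) (.g (nat_lit 1176) (.e (nat_lit 2965) (nat_lit 185) (.e (nat_lit 434241) (nat_lit 27) (.e (nat_lit 565269) (nat_lit 6) (.e (nat_lit 81931) (nat_lit 20) (.e (nat_lit 2383) (nat_lit 155) .nil))))) .nil)) 
(.lf (nat_lit 98045) (.g (nat_lit 601) (.e (nat_lit 2980) (nat_lit 185) (.e (nat_lit 434275) (nat_lit 39) (.e (nat_lit 671488) (nat_lit 0) .nil))) .nil)))))) (.nd (nat_lit 2) (.nd (nat_lit 3) (.nd (nat_lit 4) (.nd (nat_lit 5) 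
(.lf (nat_lit 97987) (.g (nat_lit 4162) (.e (nat_lit 2960) (nat_lit 185) (.e (nat_lit 434268) (nat_lit 36) (.e (nat_lit 639017) (nat_lit 15) (.e (nat_lit 57480) (nat_lit 28) (.e (nat_lit 557108) (nat_lit 15) (.e (nat_lit 188461) (nat_lit 26) (.e (nat_lit 261888) (nat_lit 0) .nil))))))) (.g (nat_lit 6) .nil .nil))) 
(.lf (nat_lit 98019) (.g (nat_lit 2359) (.e (nat_lit 2975) (nat_lit 185) (.e (nat_lit 434203) (nat_lit 18) (.e (nat_lit 5943) (nat_lit 322) (.e (nat_lit 57372) (nat_lit 2) (.e (nat_lit 90176) (nat_lit 15) (.e (nat_lit 188459) (nat_lit 26) (.e (nat_lit 261888) (nat_lit 0) .nil))))))) (.g (nat_lit 6) .nil .nil)))) (.nd (nat_lit 5) 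
(.lf (nat_lit 98003) (.g (nat_lit 723) (.e (nat_lit 2964) (nat_lit 185) (.e (nat_lit 434209) (nat_lit 18) (.e (nat_lit 4605) (nat_lit 269) .nil))) .nil)) 
(.lf (nat_lit 98035) (.g (nat_lit 1012) (.e (nat_lit 2980) (nat_lit 185) (.e (nat_lit 434231) (nat_lit 23) (.e (nat_lit 540416) (nat_lit 12) .nil))) .nil)))) (.nd (nat_lit 4) (.nd (nat_lit 5) 
(.lf (nat_lit 97995) (.g (nat_lit 2854) (.e (nat_lit 2961) (nat_lit 185) (.e (nat_lit 434289) (nat_lit 43) (.e (nat_lit 696362) (nat_lit 17) (.e (nat_lit 73755) (nat_lit 8) (.e (nat_lit 557098) (nat_lit 13) (.e (nat_lit 172142) (nat_lit 24) (.e (nat_lit 155652) (nat_lit 0) .nil))))))) (.g (nat_lit 5) .nil .nil))) 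
(.lf (nat_lit 98027) (.g (nat_lit 2089) (.e (nat_lit 2979) (nat_lit 185) (.e (nat_lit 434212) (nat_lit 18) (.e (nat_lit 6425) (nat_lit 342) (.e (nat_lit 229412) (nat_lit 14) (.e (nat_lit 442383) (nat_lit 9) .nil))))) .nil))) (.nd (nat_lit 5) 
(.lf (nat_lit 98011) (.g (nat_lit 2655) (.e (nat_lit 2964) (nat_lit 185) (.e (nat_lit 434285) (nat_lit 42) (.e (nat_lit 688182) (nat_lit 17) (.e (nat_lit 73755) (nat_lit 8) (.e (nat_lit 557104) (nat_lit 14) (.e (nat_lit 180261) (nat_lit 20) (.e (nat_lit 655364) (nat_lit 0) .nil))))))) (.g (nat_lit 5) .nil .nil))) 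
(.lf (nat_lit 98043) (.g (nat_lit 3952) (.e (nat_lit 2980) (nat_lit 185) (.e (nat_lit 434269) (nat_lit 36) (.e (nat_lit 639018) (nat_lit 15) (.e (nat_lit 57478) (nat_lit 28) (.e (nat_lit 557109) (nat_lit 15) (.e (nat_lit 188461) (nat_lit 26) (.e (nat_lit 261888) (nat_lit 0) .nil))))))) (.g (nat_lit 6) .nil .nil)))))) (.nd (nat_lit 3) (.nd (nat_lit 4) (.nd (nat_lit 5) 
(.lf (nat_lit 97991) (.g (nat_lit 638) (.e (nat_lit 2960) (nat_lit 185) (.e (nat_lit 434289) (nat_lit 43) (.e (nat_lit 696362) (nat_lit 17) .nil))) .nil)) 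
(.lf (nat_lit 98023) (.g (nat_lit 762) (.e (nat_lit 2979) (nat_lit 185) (.e (nat_lit 434209) (nat_lit 18) (.e (nat_lit 5938) (nat_lit 322) .nil))) .nil))) (.nd (nat_lit 5) 
(.lf (nat_lit 98007) (.g (nat_lit 637) (.e (nat_lit 2964) (nat_lit 185) (.e (nat_lit 434209) (nat_lit 18) (.e (nat_lit 6270) (nat_lit 337) .nil))) .nil)) 
(.lf (nat_lit 98039) (.g (nat_lit 3113) (.e (nat_lit 2980) (nat_lit 185) (.e (nat_lit 434269) (nat_lit 36) (.e (nat_lit 639017) (nat_lit 15) (.e (nat_lit 57480) (nat_lit 28) (.e (nat_lit 557107) (nat_lit 15) (.e (nat_lit 188459) (nat_lit 26) (.e (nat_lit 261888) (nat_lit 0) .nil))))))) (.g (nat_lit 5) .nil .nil))))) (.nd (nat_lit 4) (.nd (nat_lit 5) 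
(.lf (nat_lit 97999) (.g (nat_lit 1822) (.e (nat_lit 2962) (nat_lit 185) (.e (nat_lit 434275) (nat_lit 39) (.e (nat_lit 663580) (nat_lit 9) (.e (nat_lit 46) (nat_lit 0) .nil)))) .nil)) 
(.lf (nat_lit 98031) (.g (nat_lit 3141) (.e (nat_lit 2980) (nat_lit 185) (.e (nat_lit 434209) (nat_lit 18) (.e (nat_lit 5939) (nat_lit 322) (.e (nat_lit 57375) (nat_lit 2) (.e (nat_lit 90176) (nat_lit 15) (.e (nat_lit 188459) (nat_lit 26) (.e (nat_lit 261888) (nat_lit 0) .nil))))))) (.g (nat_lit 6) .nil .nil)))) (.nd (nat_lit 5) 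
(.lf (nat_lit 98015) (.g (nat_lit 4261) (.e (nat_lit 2966) (nat_lit 185) (.e (nat_lit 434268) (nat_lit 36) (.e (nat_lit 639017) (nat_lit 15) (.e (nat_lit 57480) (nat_lit 28) (.e (nat_lit 557108) (nat_lit 15) (.e (nat_lit 188461) (nat_lit 26) (.e (nat_lit 261888) (nat_lit 0) .nil))))))) (.g (nat_lit 6) .nil .nil))) 
(.lf (nat_lit 98047) (.g (nat_lit 633) (.e (nat_lit 2980) (nat_lit 185) (.e (nat_lit 434289) (nat_lit 43) (.e (nat_lit 696362) (nat_lit 17) .nil))) .nil))))))))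

noncomputable def tv1346 : DT := (.nd (nat_lit 0) (.nd (nat_lit 1) (.nd (nat_lit 2) (.nd (nat_lit 3) (.nd (nat_lit 4) (.nd (nat_lit 5) 
(.lf (nat_lit 98048) (.g (nat_lit 1488) (.e (nat_lit 2982) (nat_lit 186) (.e (nat_lit 442424) (nat_lit 22) (.e (nat_lit 196630) (nat_lit 9) (.e (nat_lit 1395) (nat_lit 106) (.e (nat_lit 319530) (nat_lit 16) .nil))))) .nil)) 
(.lf (nat_lit 98080) (.g (nat_lit 1439) (.e (nat_lit 3001) (nat_lit 186) (.e (nat_lit 442424) (nat_lit 22) (.e (nat_lit 196630) (nat_lit 9) (.e (nat_lit 1401) (nat_lit 106) .nil)))) .nil))) (.nd (nat_lit 5) 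
(.lf (nat_lit 98064) (.g (nat_lit 1587) (.e (nat_lit 2989) (nat_lit 186) (.e (nat_lit 442374) (nat_lit 0) (.e (nat_lit 2059) (nat_lit 142) (.e (nat_lit 704599) (nat_lit 6) .nil)))) .nil)) 
(.lf (nat_lit 98096) (.g (nat_lit 1763) (.e (nat_lit 3004) (nat_lit 186) (.e (nat_lit 450304) (nat_lit 0) (.e (nat_lit 2030) (nat_lit 140) (.e (nat_lit 688175) (nat_lit 16) (.e (nat_lit 65619) (nat_lit 10) (.e (nat_lit 344157) (nat_lit 36) (.e (nat_lit 638985) (nat_lit 5) .nil))))))) (.g (nat_lit 6) .nil .nil))))) (.nd (nat_lit 4) (.nd (nat_lit 5) 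
(.lf (nat_lit 98056) (.g (nat_lit 2777) (.e (nat_lit 2988) (nat_lit 186) (.e (nat_lit 442374) (nat_lit 0) (.e (nat_lit 2160) (nat_lit 143) (.e (nat_lit 712755) (nat_lit 30) (.e (nat_lit 450593) (nat_lit 16) (.e (nat_lit 655364) (nat_lit 0) .nil)))))) (.g (nat_lit 6) .nil .nil))) 
(.lf (nat_lit 98088) (.g (nat_lit 3219) (.e (nat_lit 3004) (nat_lit 186) (.e (nat_lit 442374) (nat_lit 0) (.e (nat_lit 1856) (nat_lit 124) (.e (nat_lit 557109) (nat_lit 15) (.e (nat_lit 188434) (nat_lit 20) (.e (nat_lit 3272) (nat_lit 199) (.e (nat_lit 548897) (nat_lit 14) .nil))))))) (.g (nat_lit 0) .nil .nil)))) (.nd (nat_lit 5) 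
(.lf (nat_lit 98072) (.g (nat_lit 1402) (.e (nat_lit 2993) (nat_lit 186) (.e (nat_lit 442379) (nat_lit 0) (.e (nat_lit 1856) (nat_lit 124) (.e (nat_lit 557107) (nat_lit 15) .nil)))) .nil)) 
(.lf (nat_lit 98104) (.g (nat_lit 1242) (.e (nat_lit 3011) (nat_lit 187) (.e (nat_lit 450563) (nat_lit 0) (.e (nat_lit 6740) (nat_lit 365) (.e (nat_lit 1222) (nat_lit 90) (.e (nat_lit 81935) (nat_lit 20) (.e (nat_lit 1879) (nat_lit 126) (.e (nat_lit 573444) (nat_lit 0) .nil))))))) (.g (nat_lit 4) .nil .nil)))))) (.nd (nat_lit 3) (.nd (nat_lit 4) (.nd (nat_lit 5) 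
(.lf (nat_lit 98052) (.g (nat_lit 2435) (.e (nat_lit 2988) (nat_lit 186) (.e (nat_lit 442373) (nat_lit 0) (.e (nat_lit 1853) (nat_lit 124) (.e (nat_lit 557109) (nat_lit 15) (.e (nat_lit 188434) (nat_lit 20) (.e (nat_lit 3271) (nat_lit 199) (.e (nat_lit 548898) (nat_lit 14) .nil))))))) (.g (nat_lit 5) .nil .nil))) 
(.lf (nat_lit 98084) (.g (nat_lit 3246) (.e (nat_lit 3004) (nat_lit 186) (.e (nat_lit 442373) (nat_lit 0) (.e (nat_lit 1853) (nat_lit 124) (.e (nat_lit 557108) (nat_lit 15) (.e (nat_lit 188434) (nat_lit 20) (.e (nat_lit 3272) (nat_lit 199) (.e (nat_lit 548896) (nat_lit 14) .nil))))))) (.g (nat_lit 7) .nil .nil)))) (.nd (nat_lit 5) 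
(.lf (nat_lit 98068) (.g (nat_lit 826) (.e (nat_lit 2989) (nat_lit 186) (.e (nat_lit 442421) (nat_lit 21) (.e (nat_lit 164309) (nat_lit 226) .nil))) .nil)) 
(.lf (nat_lit 98100) (.g (nat_lit 1965) (.e (nat_lit 3005) (nat_lit 186) (.e (nat_lit 442374) (nat_lit 0) (.e (nat_lit 1856) (nat_lit 124) (.e (nat_lit 557109) (nat_lit 15) (.e (nat_lit 188434) (nat_lit 20) .nil))))) .nil)))) (.nd (nat_lit 4) (.nd (nat_lit 5) 
(.lf (nat_lit 98060) (.g (nat_lit 2582) (.e (nat_lit 2989) (nat_lit 186) (.e (nat_lit 442374) (nat_lit 0) (.e (nat_lit 1856) (nat_lit 124) (.e (nat_lit 557100) (nat_lit 13) (.e (nat_lit 172113) (nat_lit 10) .nil))))) .nil)) 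
(.lf (nat_lit 98092) (.g (nat_lit 1396) (.e (nat_lit 3004) (nat_lit 186) (.e (nat_lit 442374) (nat_lit 0) (.e (nat_lit 2160) (nat_lit 143) (.e (nat_lit 712755) (nat_lit 30) (.e (nat_lit 450593) (nat_lit 16) .nil))))) .nil))) (.nd (nat_lit 5) 
(.lf (nat_lit 98076) (.g (nat_lit 2121) (.e (nat_lit 2999) (nat_lit 186) (.e (nat_lit 442390) (nat_lit 11) (.e (nat_lit 336231) (nat_lit 14) (.e (nat_lit 401446) (nat_lit 10) (.e (nat_lit 434289) (nat_lit 43) .nil))))) .nil)) 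
(.lf (nat_lit 98108) (.g (nat_lit 1307) (.e (nat_lit 3011) (nat_lit 187) (.e (nat_lit 450563) (nat_lit 0) (.e (nat_lit 6740) (nat_lit 365) (.e (nat_lit 7936) (nat_lit 90) (.e (nat_lit 81935) (nat_lit 20) (.e (nat_lit 1879) (nat_lit 126) (.e (nat_lit 573445) (nat_lit 0) .nil))))))) (.g (nat_lit 5) .nil .nil))))))) (.nd (nat_lit 2) (.nd (nat_lit 3) (.nd (nat_lit 4) (.nd (nat_lit 5) 
(.lf (nat_lit 98050) (.g (nat_lit 1442) (.e (nat_lit 2983) (nat_lit 186) (.e (nat_lit 442374) (nat_lit 0) (.e (nat_lit 2059) (nat_lit 142) (.e (nat_lit 704598) (nat_lit 6) .nil)))) .nil)) 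
(.lf (nat_lit 98082) (.g (nat_lit 2255) (.e (nat_lit 3004) (nat_lit 186) (.e (nat_lit 442368) (nat_lit 0) (.e (nat_lit 1863) (nat_lit 124) (.e (nat_lit 557107) (nat_lit 15) (.e (nat_lit 188440) (nat_lit 20) (.e (nat_lit 3271) (nat_lit 199) (.e (nat_lit 548898) (nat_lit 14) .nil))))))) (.g (nat_lit 5) .nil .nil)))) (.nd (nat_lit 5) 
(.lf (nat_lit 98066) (.g (nat_lit 1738) (.e (nat_lit 2989) (nat_lit 186) (.e (nat_lit 450304) (nat_lit 0) (.e (nat_lit 2030) (nat_lit 140) (.e (nat_lit 688175) (nat_lit 16) (.e (nat_lit 65619) (nat_lit 10) (.e (nat_lit 344157) (nat_lit 36) (.e (nat_lit 638985) (nat_lit 5) .nil))))))) (.g (nat_lit 6) .nil .nil))) 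
(.lf (nat_lit 98098) (.g (nat_lit 1355) (.e (nat_lit 3005) (nat_lit 186) (.e (nat_lit 442374) (nat_lit 0) (.e (nat_lit 1856) (nat_lit 124) (.e (nat_lit 557107) (nat_lit 15) .nil)))) .nil)))) (.nd (nat_lit 4) (.nd (nat_lit 5) 
(.lf (nat_lit 98058) (.g (nat_lit 1690) (.e (nat_lit 2989) (nat_lit 186) (.e (nat_lit 442368) (nat_lit 0) (.e (nat_lit 1863) (nat_lit 124) (.e (nat_lit 557107) (nat_lit 15) (.e (nat_lit 188439) (nat_lit 20) .nil))))) .nil)) 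
(.lf (nat_lit 98090) (.g (nat_lit 3623) (.e (nat_lit 3004) (nat_lit 186) (.e (nat_lit 442374) (nat_lit 0) (.e (nat_lit 1856) (nat_lit 124) (.e (nat_lit 557109) (nat_lit 15) (.e (nat_lit 188441) (nat_lit 20) (.e (nat_lit 3272) (nat_lit 199) (.e (nat_lit 548898) (nat_lit 14) .nil))))))) (.g (nat_lit 7) .nil .nil)))) (.nd (nat_lit 5) 
(.lf (nat_lit 98074) (.g (nat_lit 1392) (.e (nat_lit 2997) (nat_lit 186) (.e (nat_lit 442374) (nat_lit 0) (.e (nat_lit 2175) (nat_lit 143) (.e (nat_lit 712752) (nat_lit 29) .nil)))) .nil)) 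
(.lf (nat_lit 98106) (.g (nat_lit 1346) (.e (nat_lit 3011) (nat_lit 187) (.e (nat_lit 450563) (nat_lit 0) (.e (nat_lit 6740) (nat_lit 365) (.e (nat_lit 7936) (nat_lit 90) (.e (nat_lit 81935) (nat_lit 20) (.e (nat_lit 1878) (nat_lit 126) (.e (nat_lit 573445) (nat_lit 0) .nil))))))) (.g (nat_lit 5) .nil .nil)))))) (.nd (nat_lit 3) (.nd (nat_lit 4) (.nd (nat_lit 5) 
(.lf (nat_lit 98054) (.g (nat_lit 3653) (.e (nat_lit 2988) (nat_lit 186) (.e (nat_lit 442374) (nat_lit 0) (.e (nat_lit 1856) (nat_lit 124) (.e (nat_lit 557109) (nat_lit 15) (.e (nat_lit 188441) (nat_lit 20) (.e (nat_lit 3272) (nat_lit 199) (.e (nat_lit 548898) (nat_lit 14) .nil))))))) (.g (nat_lit 0) .nil .nil))) 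
(.lf (nat_lit 98086) (.g (nat_lit 3996) (.e (nat_lit 3004) (nat_lit 186) (.e (nat_lit 442374) (nat_lit 0) (.e (nat_lit 1856) (nat_lit 124) (.e (nat_lit 557100) (nat_lit 13) (.e (nat_lit 172113) (nat_lit 10) (.e (nat_lit 434238) (nat_lit 25) (.e (nat_lit 548897) (nat_lit 14) .nil))))))) (.g (nat_lit 7) .nil .nil)))) (.nd (nat_lit 5) 
(.lf (nat_lit 98070) (.g (nat_lit 1334) (.e (nat_lit 2993) (nat_lit 186) (.e (nat_lit 442379) (nat_lit 0) (.e (nat_lit 1855) (nat_lit 124) (.e (nat_lit 557101) (nat_lit 13) .nil)))) .nil)) 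
(.lf (nat_lit 98102) (.g (nat_lit 2839) (.e (nat_lit 3009) (nat_lit 187) (.e (nat_lit 450588) (nat_lit 10) (.e (nat_lit 573475) (nat_lit 12) (.e (nat_lit 57574) (nat_lit 55) (.e (nat_lit 778360) (nat_lit 9) .nil))))) .nil)))) (.nd (nat_lit 4) (.nd (nat_lit 5) 
(.lf (nat_lit 98062) (.g (nat_lit 2236) (.e (nat_lit 2989) (nat_lit 186) (.e (nat_lit 442374) (nat_lit 0) (.e (nat_lit 1856) (nat_lit 124) (.e (nat_lit 557109) (nat_lit 15) (.e (nat_lit 188441) (nat_lit 20) .nil))))) .nil)) 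
(.lf (nat_lit 98094) (.g (nat_lit 2088) (.e (nat_lit 3004) (nat_lit 186) (.e (nat_lit 442374) (nat_lit 0) (.e (nat_lit 2175) (nat_lit 143) (.e (nat_lit 712752) (nat_lit 29) (.e (nat_lit 442411) (nat_lit 20) .nil))))) .nil))) (.nd (nat_lit 5) 
(.lf (nat_lit 98078) (.g (nat_lit 940) (.e (nat_lit 2999) (nat_lit 186) (.e (nat_lit 442421) (nat_lit 21) (.e (nat_lit 164309) (nat_lit 226) .nil))) .nil)) 
(.lf (nat_lit 98110) (.g (nat_lit 699) (.e (nat_lit 3011) (nat_lit 187) (.e (nat_lit 450605) (nat_lit 27) (.e (nat_lit 745475) (nat_lit 0) (.e (nat_lit 1589) (nat_lit 111) (.e (nat_lit 368384) (nat_lit 10) .nil))))) .nil))))))) (.nd (nat_lit 1) (.nd (nat_lit 2) (.nd (nat_lit 3) (.nd (nat_lit 4) (.nd (nat_lit 5) 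
(.lf (nat_lit 98049) (.g (nat_lit 483) (.e (nat_lit 2983) (nat_lit 186) (.e (nat_lit 442374) (nat_lit 0) (.e (nat_lit 2059) (nat_lit 142) .nil))) .nil)) 
(.lf (nat_lit 98081) (.g (nat_lit 1194) (.e (nat_lit 3003) (nat_lit 186) (.e (nat_lit 442373) (nat_lit 0) (.e (nat_lit 2160) (nat_lit 143) (.e (nat_lit 712750) (nat_lit 29) (.e (nat_lit 442382) (nat_lit 8) (.e (nat_lit 155652) (nat_lit 0) .nil)))))) (.g (nat_lit 4) .nil .nil)))) (.nd (nat_lit 5) 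
(.lf (nat_lit 98065) (.g (nat_lit 1498) (.e (nat_lit 2989) (nat_lit 186) (.e (nat_lit 442377) (nat_lit 0) (.e (nat_lit 1856) (nat_lit 124) (.e (nat_lit 557100) (nat_lit 13) (.e (nat_lit 172113) (nat_lit 10) .nil))))) .nil)) 
(.lf (nat_lit 98097) (.g (nat_lit 493) (.e (nat_lit 3005) (nat_lit 186) (.e (nat_lit 442374) (nat_lit 0) (.e (nat_lit 1856) (nat_lit 124) .nil))) .nil)))) (.nd (nat_lit 4) (.nd (nat_lit 5) 
(.lf (nat_lit 98057) (.g (nat_lit 1768) (.e (nat_lit 2988) (nat_lit 186) (.e (nat_lit 450304) (nat_lit 0) (.e (nat_lit 2030) (nat_lit 140) (.e (nat_lit 688175) (nat_lit 16) (.e (nat_lit 65619) (nat_lit 10) (.e (nat_lit 344157) (nat_lit 36) (.e (nat_lit 638985) (nat_lit 5) .nil))))))) (.g (nat_lit 6) .nil .nil))) 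
(.lf (nat_lit 98089) (.g (nat_lit 3213) (.e (nat_lit 3004) (nat_lit 186) (.e (nat_lit 442374) (nat_lit 0) (.e (nat_lit 1856) (nat_lit 124) (.e (nat_lit 557109) (nat_lit 15) (.e (nat_lit 188441) (nat_lit 20) (.e (nat_lit 3272) (nat_lit 199) (.e (nat_lit 548897) (nat_lit 14) .nil))))))) (.g (nat_lit 7) .nil .nil)))) (.nd (nat_lit 5) 
(.lf (nat_lit 98073) (.g (nat_lit 3771) (.e (nat_lit 2993) (nat_lit 186) (.e (nat_lit 442387) (nat_lit 11) (.e (nat_lit 336231) (nat_lit 14) (.e (nat_lit 401448) (nat_lit 10) (.e (nat_lit 434289) (nat_lit 43) .nil))))) .nil)) 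
(.lf (nat_lit 98105) (.g (nat_lit 1266) (.e (nat_lit 3011) (nat_lit 187) (.e (nat_lit 450563) (nat_lit 0) (.e (nat_lit 6740) (nat_lit 365) (.e (nat_lit 1222) (nat_lit 90) (.e (nat_lit 81935) (nat_lit 20) (.e (nat_lit 1879) (nat_lit 126) (.e (nat_lit 573445) (nat_lit 0) .nil))))))) (.g (nat_lit 4) .nil .nil)))))) (.nd (nat_lit 3) (.nd (nat_lit 4) (.nd (nat_lit 5) 
(.lf (nat_lit 98053) (.g (nat_lit 3307) (.e (nat_lit 2988) (nat_lit 186) (.e (nat_lit 442374) (nat_lit 0) (.e (nat_lit 1856) (nat_lit 124) (.e (nat_lit 557109) (nat_lit 15) (.e (nat_lit 188441) (nat_lit 20) (.e (nat_lit 3272) (nat_lit 199) (.e (nat_lit 548897) (nat_lit 14) .nil))))))) (.g (nat_lit 7) .nil .nil))) 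
(.lf (nat_lit 98085) (.g (nat_lit 2827) (.e (nat_lit 3004) (nat_lit 186) (.e (nat_lit 442373) (nat_lit 0) (.e (nat_lit 1853) (nat_lit 124) (.e (nat_lit 557109) (nat_lit 15) (.e (nat_lit 188434) (nat_lit 20) (.e (nat_lit 3272) (nat_lit 199) (.e (nat_lit 548896) (nat_lit 14) .nil))))))) (.g (nat_lit 6) .nil .nil)))) (.nd (nat_lit 5) 
(.lf (nat_lit 98069) (.g (nat_lit 1583) (.e (nat_lit 2992) (nat_lit 186) (.e (nat_lit 442424) (nat_lit 22) (.e (nat_lit 196630) (nat_lit 9) (.e (nat_lit 1395) (nat_lit 106) (.e (nat_lit 319530) (nat_lit 16) .nil))))) .nil)) 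
(.lf (nat_lit 98101) (.g (nat_lit 1582) (.e (nat_lit 3005) (nat_lit 186) (.e (nat_lit 442374) (nat_lit 0) (.e (nat_lit 2059) (nat_lit 142) (.e (nat_lit 704599) (nat_lit 6) .nil)))) .nil)))) (.nd (nat_lit 4) (.nd (nat_lit 5) 
(.lf (nat_lit 98061) (.g (nat_lit 1960) (.e (nat_lit 2989) (nat_lit 186) (.e (nat_lit 442374) (nat_lit 0) (.e (nat_lit 1856) (nat_lit 124) (.e (nat_lit 557109) (nat_lit 15) (.e (nat_lit 188434) (nat_lit 20) .nil))))) .nil)) 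
(.lf (nat_lit 98093) (.g (nat_lit 2961) (.e (nat_lit 3004) (nat_lit 186) (.e (nat_lit 442374) (nat_lit 0) (.e (nat_lit 2160) (nat_lit 143) (.e (nat_lit 712755) (nat_lit 30) (.e (nat_lit 450593) (nat_lit 16) (.e (nat_lit 655364) (nat_lit 0) .nil)))))) (.g (nat_lit 0) .nil .nil)))) (.nd (nat_lit 5) 
(.lf (nat_lit 98077) (.g (nat_lit 1375) (.e (nat_lit 2999) (nat_lit 186) (.e (nat_lit 442390) (nat_lit 11) (.e (nat_lit 336231) (nat_lit 14) (.e (nat_lit 401448) (nat_lit 10) .nil)))) .nil)) 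
(.lf (nat_lit 98109) (.g (nat_lit 481) (.e (nat_lit 3011) (nat_lit 187) (.e (nat_lit 450563) (nat_lit 0) (.e (nat_lit 6745) (nat_lit 365) .nil))) .nil)))))) (.nd (nat_lit 2) (.nd (nat_lit 3) (.nd (nat_lit 4) (.nd (nat_lit 5) 
(.lf (nat_lit 98051) (.g (nat_lit 1079) (.e (nat_lit 2984) (nat_lit 186) (.e (nat_lit 450304) (nat_lit 0) (.e (nat_lit 2162) (nat_lit 143) (.e (nat_lit 712752) (nat_lit 29) (.e (nat_lit 442382) (nat_lit 8) (.e (nat_lit 155652) (nat_lit 0) .nil)))))) (.g (nat_lit 5) .nil .nil))) 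
(.lf (nat_lit 98083) (.g (nat_lit 2113) (.e (nat_lit 3004) (nat_lit 186) (.e (nat_lit 442368) (nat_lit 0) (.e (nat_lit 1863) (nat_lit 124) (.e (nat_lit 557108) (nat_lit 15) (.e (nat_lit 188435) (nat_lit 20) .nil))))) .nil))) (.nd (nat_lit 5) 
(.lf (nat_lit 98067) (.g (nat_lit 2121) (.e (nat_lit 2989) (nat_lit 186) (.e (nat_lit 442390) (nat_lit 11) (.e (nat_lit 336231) (nat_lit 14) (.e (nat_lit 401446) (nat_lit 10) (.e (nat_lit 434289) (nat_lit 43) .nil))))) .nil)) 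
(.lf (nat_lit 98099) (.g (nat_lit 1923) (.e (nat_lit 3005) (nat_lit 186) (.e (nat_lit 442374) (nat_lit 0) (.e (nat_lit 1856) (nat_lit 124) (.e (nat_lit 557107) (nat_lit 15) (.e (nat_lit 188440) (nat_lit 20) .nil))))) .nil)))) (.nd (nat_lit 4) (.nd (nat_lit 5) 
(.lf (nat_lit 98059) (.g (nat_lit 2322) (.e (nat_lit 2989) (nat_lit 186) (.e (nat_lit 442374) (nat_lit 0) (.e (nat_lit 1856) (nat_lit 124) (.e (nat_lit 557100) (nat_lit 13) (.e (nat_lit 172106) (nat_lit 10) (.e (nat_lit 434238) (nat_lit 25) (.e (nat_lit 548898) (nat_lit 14) .nil))))))) (.g (nat_lit 4) .nil .nil))) 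
(.lf (nat_lit 98091) (.g (nat_lit 1064) (.e (nat_lit 3004) (nat_lit 186) (.e (nat_lit 442374) (nat_lit 0) (.e (nat_lit 2024) (nat_lit 140) (.e (nat_lit 688175) (nat_lit 16) (.e (nat_lit 65619) (nat_lit 10) .nil))))) .nil))) (.nd (nat_lit 5) 
(.lf (nat_lit 98075) (.g (nat_lit 2157) (.e (nat_lit 2999) (nat_lit 186) (.e (nat_lit 450304) (nat_lit 0) (.e (nat_lit 2031) (nat_lit 140) (.e (nat_lit 688177) (nat_lit 16) (.e (nat_lit 65610) (nat_lit 10) (.e (nat_lit 344157) (nat_lit 36) (.e (nat_lit 638986) (nat_lit 5) .nil))))))) (.g (nat_lit 5) .nil .nil))) 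
(.lf (nat_lit 98107) (.g (nat_lit 1283) (.e (nat_lit 3011) (nat_lit 187) (.e (nat_lit 450563) (nat_lit 0) (.e (nat_lit 6740) (nat_lit 365) (.e (nat_lit 7936) (nat_lit 90) (.e (nat_lit 81935) (nat_lit 20) (.e (nat_lit 1879) (nat_lit 126) (.e (nat_lit 573444) (nat_lit 0) .nil))))))) (.g (nat_lit 5) .nil .nil)))))) (.nd (nat_lit 3) (.nd (nat_lit 4) (.nd (nat_lit 5) 
(.lf (nat_lit 98055) (.g (nat_lit 1533) (.e (nat_lit 2988) (nat_lit 186) (.e (nat_lit 442374) (nat_lit 0) (.e (nat_lit 2059) (nat_lit 142) (.e (nat_lit 704598) (nat_lit 6) (.e (nat_lit 188441) (nat_lit 20) .nil))))) .nil)) 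
(.lf (nat_lit 98087) (.g (nat_lit 3237) (.e (nat_lit 3004) (nat_lit 186) (.e (nat_lit 442374) (nat_lit 0) (.e (nat_lit 1856) (nat_lit 124) (.e (nat_lit 557109) (nat_lit 15) (.e (nat_lit 188434) (nat_lit 20) (.e (nat_lit 3271) (nat_lit 199) (.e (nat_lit 548898) (nat_lit 14) .nil))))))) (.g (nat_lit 0) .nil .nil)))) (.nd (nat_lit 5) 
(.lf (nat_lit 98071) (.g (nat_lit 2911) (.e (nat_lit 2993) (nat_lit 186) (.e (nat_lit 442379) (nat_lit 0) (.e (nat_lit 1856) (nat_lit 124) (.e (nat_lit 557100) (nat_lit 13) (.e (nat_lit 172113) (nat_lit 10) (.e (nat_lit 434238) (nat_lit 25) (.e (nat_lit 548896) (nat_lit 14) .nil))))))) (.g (nat_lit 5) .nil .nil))) 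
(.lf (nat_lit 98103) (.g (nat_lit 1317) (.e (nat_lit 3011) (nat_lit 187) (.e (nat_lit 450563) (nat_lit 0) (.e (nat_lit 6740) (nat_lit 365) (.e (nat_lit 1222) (nat_lit 90) (.e (nat_lit 81935) (nat_lit 20) (.e (nat_lit 1878) (nat_lit 126) (.e (nat_lit 573445) (nat_lit 0) .nil))))))) (.g (nat_lit 4) .nil .nil))))) (.nd (nat_lit 4) (.nd (nat_lit 5) 
(.lf (nat_lit 98063) (.g (nat_lit 1570) (.e (nat_lit 2989) (nat_lit 186) (.e (nat_lit 442374) (nat_lit 0) (.e (nat_lit 2059) (nat_lit 142) (.e (nat_lit 704598) (nat_lit 6) .nil)))) .nil)) 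
(.lf (nat_lit 98095) (.g (nat_lit 2140) (.e (nat_lit 3004) (nat_lit 186) (.e (nat_lit 442379) (nat_lit 0) (.e (nat_lit 1856) (nat_lit 124) (.e (nat_lit 557100) (nat_lit 13) (.e (nat_lit 172113) (nat_lit 10) (.e (nat_lit 434238) (nat_lit 25) (.e (nat_lit 548898) (nat_lit 14) .nil))))))) (.g (nat_lit 4) .nil .nil)))) (.nd (nat_lit 5) 
(.lf (nat_lit 98079) (.g (nat_lit 1452) (.e (nat_lit 3001) (nat_lit 186) (.e (nat_lit 442424) (nat_lit 22) (.e (nat_lit 196630) (nat_lit 9) (.e (nat_lit 1395) (nat_lit 106) .nil)))) .nil)) 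
(.lf (nat_lit 98111) (.g (nat_lit 795) (.e (nat_lit 3011) (nat_lit 187) (.e (nat_lit 450605) (nat_lit 27) (.e (nat_lit 745476) (nat_lit 0) (.e (nat_lit 1592) (nat_lit 111) (.e (nat_lit 368384) (nat_lit 10) (.e (nat_lit 573443) (nat_lit 0) .nil)))))) (.g (nat_lit 4) .nil .nil)))))))))

noncomputable def tv1347 : DT := (.nd (nat_lit 0) (.nd (nat_lit 1) (.nd (nat_lit 2) (.nd (nat_lit 3) (.nd (nat_lit 4) (.nd (nat_lit 5) 
(.lf (nat_lit 98112) (.g (nat_lit 549) (.e (nat_lit 3011) (nat_lit 187) (.e (nat_lit 450605) (nat_lit 27) (.e (nat_lit 745476) (nat_lit 0) (.e (nat_lit 1599) (nat_lit 111) .nil)))) .nil)) 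
(.lf (nat_lit 98144) (.g (nat_lit 470) (.e (nat_lit 3016) (nat_lit 187) (.e (nat_lit 450563) (nat_lit 0) (.e (nat_lit 5172) (nat_lit 292) .nil))) .nil))) (.nd (nat_lit 5) 
(.lf (nat_lit 98128) (.g (nat_lit 543) (.e (nat_lit 3015) (nat_lit 187) (.e (nat_lit 450562) (nat_lit 0) (.e (nat_lit 5170) (nat_lit 292) .nil))) .nil)) 
(.lf (nat_lit 98160) (.g (nat_lit 2747) (.e (nat_lit 3017) (nat_lit 187) (.e (nat_lit 450587) (nat_lit 10) (.e (nat_lit 573478) (nat_lit 12) (.e (nat_lit 57574) (nat_lit 55) (.e (nat_lit 778362) (nat_lit 9) (.e (nat_lit 307) (nat_lit 22) (.e (nat_lit 344107) (nat_lit 19) (.e (nat_lit 499844) (nat_lit 5) .nil)))))))) (.g (nat_lit 5) .nil .nil))))) (.nd (nat_lit 4) (.nd (nat_lit 5) 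
(.lf (nat_lit 98120) (.g (nat_lit 2703) (.e (nat_lit 3015) (nat_lit 187) (.e (nat_lit 450560) (nat_lit 0) (.e (nat_lit 5071) (nat_lit 292) (.e (nat_lit 1201) (nat_lit 88) (.e (nat_lit 65610) (nat_lit 10) (.e (nat_lit 344157) (nat_lit 36) (.e (nat_lit 638986) (nat_lit 5) .nil))))))) (.g (nat_lit 6) .nil .nil))) 
(.lf (nat_lit 98152) (.g (nat_lit 3917) (.e (nat_lit 3017) (nat_lit 187) (.e (nat_lit 450587) (nat_lit 10) (.e (nat_lit 573477) (nat_lit 12) (.e (nat_lit 57574) (nat_lit 55) (.e (nat_lit 778362) (nat_lit 9) (.e (nat_lit 307) (nat_lit 22) (.e (nat_lit 344107) (nat_lit 19) (.e (nat_lit 499840) (nat_lit 5) .nil)))))))) (.g (nat_lit 6) .nil .nil)))) (.nd (nat_lit 5) 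
(.lf (nat_lit 98136) (.g (nat_lit 2716) (.e (nat_lit 3015) (nat_lit 187) (.e (nat_lit 450563) (nat_lit 0) (.e (nat_lit 6740) (nat_lit 365) (.e (nat_lit 1201) (nat_lit 88) (.e (nat_lit 65617) (nat_lit 10) (.e (nat_lit 344138) (nat_lit 29) (.e (nat_lit 581636) (nat_lit 0) .nil))))))) (.g (nat_lit 5) .nil .nil))) 
(.lf (nat_lit 98168) (.g (nat_lit 3405) (.e (nat_lit 3017) (nat_lit 187) (.e (nat_lit 450588) (nat_lit 10) (.e (nat_lit 573475) (nat_lit 12) (.e (nat_lit 57574) (nat_lit 55) (.e (nat_lit 778362) (nat_lit 9) (.e (nat_lit 307) (nat_lit 22) (.e (nat_lit 344107) (nat_lit 19) (.e (nat_lit 499838) (nat_lit 5) .nil)))))))) (.g (nat_lit 4) .nil .nil)))))) 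
(.nd (nat_lit 3) (.nd (nat_lit 4) (.nd (nat_lit 5) 
(.lf (nat_lit 98116) (.g (nat_lit 3454) (.e (nat_lit 3013) (nat_lit 187) (.e (nat_lit 450588) (nat_lit 10) (.e (nat_lit 573474) (nat_lit 12) (.e (nat_lit 57572) (nat_lit 54) (.e (nat_lit 770058) (nat_lit 5) (.e (nat_lit 1449) (nat_lit 108) (.e (nat_lit 336013) (nat_lit 2) (.e (nat_lit 98048) (nat_lit 9) .nil)))))))) (.g (nat_lit 5) .nil .nil))) 
(.lf (nat_lit 98148) (.g (nat_lit 3401) (.e (nat_lit 3016) (nat_lit 187) (.e (nat_lit 450588) (nat_lit 10) (.e (nat_lit 573475) (nat_lit 12) (.e (nat_lit 57574) (nat_lit 55) (.e (nat_lit 778362) (nat_lit 9) (.e (nat_lit 307) (nat_lit 22) (.e (nat_lit 344107) (nat_lit 19) (.e (nat_lit 499811) (nat_lit 5) .nil)))))))) (.g (nat_lit 4) .nil .nil)))) (.nd (nat_lit 5) 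
(.lf (nat_lit 98132) (.g (nat_lit 1778) (.e (nat_lit 3015) (nat_lit 187) (.e (nat_lit 450563) (nat_lit 0) (.e (nat_lit 5117) (nat_lit 292) (.e (nat_lit 1217) (nat_lit 90) (.e (nat_lit 81946) (nat_lit 20) (.e (nat_lit 1963) (nat_lit 134) (.e (nat_lit 638986) (nat_lit 5) .nil))))))) (.g (nat_lit 4) .nil .nil))) 
(.lf (nat_lit 98164) (.g (nat_lit 3324) (.e (nat_lit 3017) (nat_lit 187) (.e (nat_lit 450588) (nat_lit 10) (.e (nat_lit 573475) (nat_lit 12) (.e (nat_lit 57574) (nat_lit 55) (.e (nat_lit 778362) (nat_lit 9) (.e (nat_lit 307) (nat_lit 22) (.e (nat_lit 344107) (nat_lit 19) (.e (nat_lit 499834) (nat_lit 5) .nil)))))))) (.g (nat_lit 4) .nil .nil))))) (.nd (nat_lit 4) (.nd (nat_lit 5) 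
(.lf (nat_lit 98124) (.g (nat_lit 542) (.e (nat_lit 3015) (nat_lit 187) (.e (nat_lit 450562) (nat_lit 0) (.e (nat_lit 5120) (nat_lit 292) .nil))) .nil)) 
(.lf (nat_lit 98156) (.g (nat_lit 2229) (.e (nat_lit 3017) (nat_lit 187) (.e (nat_lit 450587) (nat_lit 10) (.e (nat_lit 573478) (nat_lit 12) (.e (nat_lit 57574) (nat_lit 55) (.e (nat_lit 778362) (nat_lit 9) (.e (nat_lit 307) (nat_lit 22) (.e (nat_lit 344107) (nat_lit 19) (.e (nat_lit 499834) (nat_lit 5) .nil)))))))) (.g (nat_lit 4) .nil .nil)))) (.nd (nat_lit 5) 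
(.lf (nat_lit 98140) (.g (nat_lit 1617) (.e (nat_lit 3015) (nat_lit 187) (.e (nat_lit 458496) (nat_lit 0) (.e (nat_lit 4139) (nat_lit 247) (.e (nat_lit 57427) (nat_lit 15) (.e (nat_lit 360493) (nat_lit 27) (.e (nat_lit 819204) (nat_lit 0) .nil)))))) (.g (nat_lit 4) .nil .nil))) 
(.lf (nat_lit 98172) (.g (nat_lit 3272) (.e (nat_lit 3017) (nat_lit 187) (.e (nat_lit 450588) (nat_lit 10) (.e (nat_lit 573475) (nat_lit 12) (.e (nat_lit 57574) (nat_lit 55) (.e (nat_lit 778362) (nat_lit 9) (.e (nat_lit 307) (nat_lit 22) (.e (nat_lit 344107) (nat_lit 19) (.e (nat_lit 499843) (nat_lit 5) .nil)))))))) (.g (nat_lit 4) .nil .nil))))))) 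
(.nd (nat_lit 2) (.nd (nat_lit 3) (.nd (nat_lit 4) (.nd (nat_lit 5) 
(.lf (nat_lit 98114) (.g (nat_lit 2847) (.e (nat_lit 3013) (nat_lit 187) (.e (nat_lit 450588) (nat_lit 10) (.e (nat_lit 573474) (nat_lit 12) (.e (nat_lit 57572) (nat_lit 54) (.e (nat_lit 770056) (nat_lit 5) (.e (nat_lit 1449) (nat_lit 108) (.e (nat_lit 336013) (nat_lit 2) (.e (nat_lit 98048) (nat_lit 9) .nil)))))))) (.g (nat_lit 6) .nil .nil))) 
(.lf (nat_lit 98146) (.g (nat_lit 2498) (.e (nat_lit 3016) (nat_lit 187) (.e (nat_lit 450563) (nat_lit 0) (.e (nat_lit 6740) (nat_lit 365) (.e (nat_lit 1222) (nat_lit 90) (.e (nat_lit 81943) (nat_lit 20) (.e (nat_lit 1885) (nat_lit 127) (.e (nat_lit 581636) (nat_lit 0) .nil))))))) (.g (nat_lit 5) .nil .nil)))) (.nd (nat_lit 5) 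
(.lf (nat_lit 98130) (.g (nat_lit 750) (.e (nat_lit 3015) (nat_lit 187) (.e (nat_lit 450563) (nat_lit 0) (.e (nat_lit 4093) (nat_lit 245) (.e (nat_lit 7936) (nat_lit 90) .nil)))) .nil)) 
(.lf (nat_lit 98162) (.g (nat_lit 2052) (.e (nat_lit 3017) (nat_lit 187) (.e (nat_lit 450587) (nat_lit 10) (.e (nat_lit 573478) (nat_lit 12) (.e (nat_lit 57574) (nat_lit 55) (.e (nat_lit 778362) (nat_lit 9) (.e (nat_lit 307) (nat_lit 22) (.e (nat_lit 344107) (nat_lit 19) (.e (nat_lit 499847) (nat_lit 5) .nil)))))))) (.g (nat_lit 4) .nil .nil))))) (.nd (nat_lit 4) (.nd (nat_lit 5) 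
(.lf (nat_lit 98122) (.g (nat_lit 2182) (.e (nat_lit 3015) (nat_lit 187) (.e (nat_lit 450560) (nat_lit 0) (.e (nat_lit 5077) (nat_lit 292) (.e (nat_lit 1201) (nat_lit 88) (.e (nat_lit 65617) (nat_lit 10) (.e (nat_lit 344157) (nat_lit 36) (.e (nat_lit 638986) (nat_lit 5) .nil))))))) (.g (nat_lit 5) .nil .nil))) 
(.lf (nat_lit 98154) (.g (nat_lit 3283) (.e (nat_lit 3017) (nat_lit 187) (.e (nat_lit 450587) (nat_lit 10) (.e (nat_lit 573477) (nat_lit 12) (.e (nat_lit 57574) (nat_lit 55) (.e (nat_lit 778362) (nat_lit 9) (.e (nat_lit 307) (nat_lit 22) (.e (nat_lit 344107) (nat_lit 19) (.e (nat_lit 499845) (nat_lit 5) .nil)))))))) (.g (nat_lit 5) .nil .nil)))) (.nd (nat_lit 5) 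
(.lf (nat_lit 98138) (.g (nat_lit 1996) (.e (nat_lit 3015) (nat_lit 187) (.e (nat_lit 450563) (nat_lit 0) (.e (nat_lit 6740) (nat_lit 365) (.e (nat_lit 1224) (nat_lit 90) (.e (nat_lit 81946) (nat_lit 20) (.e (nat_lit 1886) (nat_lit 127) (.e (nat_lit 581636) (nat_lit 0) .nil))))))) (.g (nat_lit 4) .nil .nil))) 
(.lf (nat_lit 98170) (.g (nat_lit 4488) (.e (nat_lit 3017) (nat_lit 187) (.e (nat_lit 450588) (nat_lit 10) (.e (nat_lit 573475) (nat_lit 12) (.e (nat_lit 57574) (nat_lit 55) (.e (nat_lit 778362) (nat_lit 9) (.e (nat_lit 307) (nat_lit 22) (.e (nat_lit 344107) (nat_lit 19) (.e (nat_lit 499840) (nat_lit 5) .nil)))))))) (.g (nat_lit 6) .nil .nil)))))) 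
(.nd (nat_lit 3) (.nd (nat_lit 4) (.nd (nat_lit 5) 
(.lf (nat_lit 98118) (.g (nat_lit 2590) (.e (nat_lit 3015) (nat_lit 187) (.e (nat_lit 450560) (nat_lit 0) (.e (nat_lit 5062) (nat_lit 292) (.e (nat_lit 1201) (nat_lit 88) (.e (nat_lit 65610) (nat_lit 10) (.e (nat_lit 344157) (nat_lit 36) (.e (nat_lit 638986) (nat_lit 5) .nil))))))) (.g (nat_lit 5) .nil .nil))) 
(.lf (nat_lit 98150) (.g (nat_lit 3078) (.e (nat_lit 3017) (nat_lit 187) (.e (nat_lit 450587) (nat_lit 10) (.e (nat_lit 573477) (nat_lit 12) (.e (nat_lit 57574) (nat_lit 55) (.e (nat_lit 778362) (nat_lit 9) (.e (nat_lit 307) (nat_lit 22) (.e (nat_lit 344107) (nat_lit 19) (.e (nat_lit 499811) (nat_lit 5) .nil)))))))) (.g (nat_lit 5) .nil .nil)))) (.nd (nat_lit 5) 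
(.lf (nat_lit 98134) (.g (nat_lit 532) (.e (nat_lit 3015) (nat_lit 187) (.e (nat_lit 450563) (nat_lit 0) (.e (nat_lit 5168) (nat_lit 292) .nil))) .nil)) 
(.lf (nat_lit 98166) (.g (nat_lit 3589) (.e (nat_lit 3017) (nat_lit 187) (.e (nat_lit 450588) (nat_lit 10) (.e (nat_lit 573475) (nat_lit 12) (.e (nat_lit 57574) (nat_lit 55) (.e (nat_lit 778362) (nat_lit 9) (.e (nat_lit 307) (nat_lit 22) (.e (nat_lit 344107) (nat_lit 19) (.e (nat_lit 499836) (nat_lit 5) .nil)))))))) (.g (nat_lit 5) .nil .nil))))) (.nd (nat_lit 4) (.nd (nat_lit 5) 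
(.lf (nat_lit 98126) (.g (nat_lit 555) (.e (nat_lit 3015) (nat_lit 187) (.e (nat_lit 450562) (nat_lit 0) (.e (nat_lit 5122) (nat_lit 292) .nil))) .nil)) 
(.lf (nat_lit 98158) (.g (nat_lit 2206) (.e (nat_lit 3017) (nat_lit 187) (.e (nat_lit 450587) (nat_lit 10) (.e (nat_lit 573478) (nat_lit 12) (.e (nat_lit 57574) (nat_lit 55) (.e (nat_lit 778362) (nat_lit 9) (.e (nat_lit 307) (nat_lit 22) (.e (nat_lit 344107) (nat_lit 19) (.e (nat_lit 499842) (nat_lit 5) .nil)))))))) (.g (nat_lit 4) .nil .nil)))) (.nd (nat_lit 5) 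
(.lf (nat_lit 98142) (.g (nat_lit 1642) (.e (nat_lit 3016) (nat_lit 187) (.e (nat_lit 450561) (nat_lit 0) (.e (nat_lit 6740) (nat_lit 365) (.e (nat_lit 1222) (nat_lit 90) (.e (nat_lit 81943) (nat_lit 20) (.e (nat_lit 1886) (nat_lit 127) (.e (nat_lit 581636) (nat_lit 0) .nil))))))) (.g (nat_lit 4) .nil .nil))) 
(.lf (nat_lit 98174) (.g (nat_lit 3854) (.e (nat_lit 3017) (nat_lit 187) (.e (nat_lit 450588) (nat_lit 10) (.e (nat_lit 573475) (nat_lit 12) (.e (nat_lit 57574) (nat_lit 55) (.e (nat_lit 778362) (nat_lit 9) (.e (nat_lit 307) (nat_lit 22) (.e (nat_lit 344107) (nat_lit 19) (.e (nat_lit 499845) (nat_lit 5) .nil)))))))) (.g (nat_lit 5) .nil .nil)))))))) 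
(.nd (nat_lit 1) (.nd (nat_lit 2) (.nd (nat_lit 3) (.nd (nat_lit 4) (.nd (nat_lit 5) 
(.lf (nat_lit 98113) (.g (nat_lit 667) (.e (nat_lit 3012) (nat_lit 187) (.e (nat_lit 450563) (nat_lit 0) (.e (nat_lit 6808) (nat_lit 365) .nil))) .nil)) 
(.lf (nat_lit 98145) (.g (nat_lit 2212) (.e (nat_lit 3016) (nat_lit 187) (.e (nat_lit 450563) (nat_lit 0) (.e (nat_lit 6740) (nat_lit 365) (.e (nat_lit 1201) (nat_lit 88) (.e (nat_lit 65617) (nat_lit 10) (.e (nat_lit 344138) (nat_lit 29) (.e (nat_lit 581636) (nat_lit 0) .nil))))))) (.g (nat_lit 4) .nil .nil)))) (.nd (nat_lit 5) 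
(.lf (nat_lit 98129) (.g (nat_lit 2223) (.e (nat_lit 3015) (nat_lit 187) (.e (nat_lit 450562) (nat_lit 0) (.e (nat_lit 7936) (nat_lit 368) (.e (nat_lit 122919) (nat_lit 15) (.e (nat_lit 360477) (nat_lit 11) (.e (nat_lit 581636) (nat_lit 0) .nil)))))) (.g (nat_lit 5) .nil .nil))) 
(.lf (nat_lit 98161) (.g (nat_lit 2759) (.e (nat_lit 3017) (nat_lit 187) (.e (nat_lit 450587) (nat_lit 10) (.e (nat_lit 573478) (nat_lit 12) (.e (nat_lit 57574) (nat_lit 55) (.e (nat_lit 778362) (nat_lit 9) (.e (nat_lit 307) (nat_lit 22) (.e (nat_lit 344107) (nat_lit 19) (.e (nat_lit 499845) (nat_lit 5) .nil)))))))) (.g (nat_lit 5) .nil .nil))))) (.nd (nat_lit 4) (.nd (nat_lit 5) 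
(.lf (nat_lit 98121) (.g (nat_lit 2187) (.e (nat_lit 3015) (nat_lit 187) (.e (nat_lit 450560) (nat_lit 0) (.e (nat_lit 5077) (nat_lit 292) (.e (nat_lit 1201) (nat_lit 88) (.e (nat_lit 65617) (nat_lit 10) (.e (nat_lit 344157) (nat_lit 36) (.e (nat_lit 638985) (nat_lit 5) .nil))))))) (.g (nat_lit 5) .nil .nil))) 
(.lf (nat_lit 98153) (.g (nat_lit 3271) (.e (nat_lit 3017) (nat_lit 187) (.e (nat_lit 450587) (nat_lit 10) (.e (nat_lit 573477) (nat_lit 12) (.e (nat_lit 57574) (nat_lit 55) (.e (nat_lit 778362) (nat_lit 9) (.e (nat_lit 307) (nat_lit 22) (.e (nat_lit 344107) (nat_lit 19) (.e (nat_lit 499844) (nat_lit 5) .nil)))))))) (.g (nat_lit 5) .nil .nil)))) (.nd (nat_lit 5) 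
(.lf (nat_lit 98137) (.g (nat_lit 2848) (.e (nat_lit 3015) (nat_lit 187) (.e (nat_lit 450563) (nat_lit 0) (.e (nat_lit 6740) (nat_lit 365) (.e (nat_lit 1222) (nat_lit 90) (.e (nat_lit 81943) (nat_lit 20) (.e (nat_lit 1886) (nat_lit 127) (.e (nat_lit 581635) (nat_lit 0) .nil))))))) (.g (nat_lit 6) .nil .nil))) 
(.lf (nat_lit 98169) (.g (nat_lit 3391) (.e (nat_lit 3017) (nat_lit 187) (.e (nat_lit 450588) (nat_lit 10) (.e (nat_lit 573475) (nat_lit 12) (.e (nat_lit 57574) (nat_lit 55) (.e (nat_lit 778362) (nat_lit 9) (.e (nat_lit 307) (nat_lit 22) (.e (nat_lit 344107) (nat_lit 19) (.e (nat_lit 499839) (nat_lit 5) .nil)))))))) (.g (nat_lit 4) .nil .nil)))))) 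
(.nd (nat_lit 3) (.nd (nat_lit 4) (.nd (nat_lit 5) 
(.lf (nat_lit 98117) (.g (nat_lit 2582) (.e (nat_lit 3015) (nat_lit 187) (.e (nat_lit 450560) (nat_lit 0) (.e (nat_lit 5062) (nat_lit 292) (.e (nat_lit 1201) (nat_lit 88) (.e (nat_lit 65610) (nat_lit 10) (.e (nat_lit 344157) (nat_lit 36) (.e (nat_lit 638985) (nat_lit 5) .nil))))))) (.g (nat_lit 5) .nil .nil))) 
(.lf (nat_lit 98149) (.g (nat_lit 472) (.e (nat_lit 3017) (nat_lit 187) (.e (nat_lit 450562) (nat_lit 0) (.e (nat_lit 6808) (nat_lit 365) .nil))) .nil))) (.nd (nat_lit 5) 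
(.lf (nat_lit 98133) (.g (nat_lit 532) (.e (nat_lit 3015) (nat_lit 187) (.e (nat_lit 450563) (nat_lit 0) (.e (nat_lit 5120) (nat_lit 292) .nil))) .nil)) 
(.lf (nat_lit 98165) (.g (nat_lit 3382) (.e (nat_lit 3017) (nat_lit 187) (.e (nat_lit 450588) (nat_lit 10) (.e (nat_lit 573475) (nat_lit 12) (.e (nat_lit 57574) (nat_lit 55) (.e (nat_lit 778362) (nat_lit 9) (.e (nat_lit 307) (nat_lit 22) (.e (nat_lit 344107) (nat_lit 19) (.e (nat_lit 499835) (nat_lit 5) .nil)))))))) (.g (nat_lit 4) .nil .nil))))) (.nd (nat_lit 4) (.nd (nat_lit 5) 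
(.lf (nat_lit 98125) (.g (nat_lit 736) (.e (nat_lit 3015) (nat_lit 187) (.e (nat_lit 450562) (nat_lit 0) (.e (nat_lit 5120) (nat_lit 292) (.e (nat_lit 7936) (nat_lit 90) .nil)))) .nil)) 
(.lf (nat_lit 98157) (.g (nat_lit 3393) (.e (nat_lit 3017) (nat_lit 187) (.e (nat_lit 450587) (nat_lit 10) (.e (nat_lit 573478) (nat_lit 12) (.e (nat_lit 57574) (nat_lit 55) (.e (nat_lit 778362) (nat_lit 9) (.e (nat_lit 307) (nat_lit 22) (.e (nat_lit 344107) (nat_lit 19) (.e (nat_lit 499840) (nat_lit 5) .nil)))))))) (.g (nat_lit 6) .nil .nil)))) (.nd (nat_lit 5) 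
(.lf (nat_lit 98141) (.g (nat_lit 1523) (.e (nat_lit 3016) (nat_lit 187) (.e (nat_lit 450561) (nat_lit 0) (.e (nat_lit 6740) (nat_lit 365) (.e (nat_lit 1222) (nat_lit 90) (.e (nat_lit 81943) (nat_lit 20) (.e (nat_lit 1885) (nat_lit 127) (.e (nat_lit 581636) (nat_lit 0) .nil))))))) (.g (nat_lit 4) .nil .nil))) 
(.lf (nat_lit 98173) (.g (nat_lit 3842) (.e (nat_lit 3017) (nat_lit 187) (.e (nat_lit 450588) (nat_lit 10) (.e (nat_lit 573475) (nat_lit 12) (.e (nat_lit 57574) (nat_lit 55) (.e (nat_lit 778362) (nat_lit 9) (.e (nat_lit 307) (nat_lit 22) (.e (nat_lit 344107) (nat_lit 19) (.e (nat_lit 499844) (nat_lit 5) .nil)))))))) (.g (nat_lit 5) .nil .nil))))))) 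
(.nd (nat_lit 2) (.nd (nat_lit 3) (.nd (nat_lit 4) (.nd (nat_lit 5) 
(.lf (nat_lit 98115) (.g (nat_lit 2857) (.e (nat_lit 3013) (nat_lit 187) (.e (nat_lit 450588) (nat_lit 10) (.e (nat_lit 573474) (nat_lit 12) (.e (nat_lit 57572) (nat_lit 54) (.e (nat_lit 770057) (nat_lit 5) (.e (nat_lit 1449) (nat_lit 108) (.e (nat_lit 336013) (nat_lit 2) (.e (nat_lit 98048) (nat_lit 9) .nil)))))))) (.g (nat_lit 5) .nil .nil))) 
(.lf (nat_lit 98147) (.g (nat_lit 2617) (.e (nat_lit 3016) (nat_lit 187) (.e (nat_lit 450563) (nat_lit 0) (.e (nat_lit 6740) (nat_lit 365) (.e (nat_lit 1222) (nat_lit 90) (.e (nat_lit 81943) (nat_lit 20) (.e (nat_lit 1886) (nat_lit 127) (.e (nat_lit 581636) (nat_lit 0) .nil))))))) (.g (nat_lit 5) .nil .nil)))) (.nd (nat_lit 5) 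
(.lf (nat_lit 98131) (.g (nat_lit 1714) (.e (nat_lit 3015) (nat_lit 187) (.e (nat_lit 450563) (nat_lit 0) (.e (nat_lit 5117) (nat_lit 292) (.e (nat_lit 1216) (nat_lit 90) (.e (nat_lit 81938) (nat_lit 20) (.e (nat_lit 1963) (nat_lit 134) (.e (nat_lit 638986) (nat_lit 5) .nil))))))) (.g (nat_lit 4) .nil .nil))) 
(.lf (nat_lit 98163) (.g (nat_lit 3177) (.e (nat_lit 3017) (nat_lit 187) (.e (nat_lit 450588) (nat_lit 10) (.e (nat_lit 573475) (nat_lit 12) (.e (nat_lit 57574) (nat_lit 55) (.e (nat_lit 778361) (nat_lit 9) (.e (nat_lit 307) (nat_lit 22) (.e (nat_lit 344107) (nat_lit 19) (.e (nat_lit 499840) (nat_lit 5) .nil)))))))) (.g (nat_lit 4) .nil .nil))))) (.nd (nat_lit 4) (.nd (nat_lit 5) 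
(.lf (nat_lit 98123) (.g (nat_lit 825) (.e (nat_lit 3015) (nat_lit 187) (.e (nat_lit 450562) (nat_lit 0) (.e (nat_lit 4093) (nat_lit 245) (.e (nat_lit 7936) (nat_lit 90) .nil)))) .nil)) 
(.lf (nat_lit 98155) (.g (nat_lit 2576) (.e (nat_lit 3017) (nat_lit 187) (.e (nat_lit 450587) (nat_lit 10) (.e (nat_lit 573477) (nat_lit 12) (.e (nat_lit 57574) (nat_lit 55) (.e (nat_lit 778362) (nat_lit 9) (.e (nat_lit 307) (nat_lit 22) (.e (nat_lit 344107) (nat_lit 19) (.e (nat_lit 499847) (nat_lit 5) .nil)))))))) (.g (nat_lit 4) .nil .nil)))) (.nd (nat_lit 5) 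
(.lf (nat_lit 98139) (.g (nat_lit 1815) (.e (nat_lit 3015) (nat_lit 187) (.e (nat_lit 450563) (nat_lit 0) (.e (nat_lit 7936) (nat_lit 368) (.e (nat_lit 122919) (nat_lit 15) (.e (nat_lit 360477) (nat_lit 11) (.e (nat_lit 581636) (nat_lit 0) .nil)))))) (.g (nat_lit 4) .nil .nil))) 
(.lf (nat_lit 98171) (.g (nat_lit 3301) (.e (nat_lit 3017) (nat_lit 187) (.e (nat_lit 450588) (nat_lit 10) (.e (nat_lit 573475) (nat_lit 12) (.e (nat_lit 57574) (nat_lit 55) (.e (nat_lit 778362) (nat_lit 9) (.e (nat_lit 307) (nat_lit 22) (.e (nat_lit 344107) (nat_lit 19) (.e (nat_lit 499842) (nat_lit 5) .nil)))))))) (.g (nat_lit 4) .nil .nil)))))) 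
(.nd (nat_lit 3) (.nd (nat_lit 4) (.nd (nat_lit 5) 
(.lf (nat_lit 98119) (.g (nat_lit 2695) (.e (nat_lit 3015) (nat_lit 187) (.e (nat_lit 450560) (nat_lit 0) (.e (nat_lit 5071) (nat_lit 292) (.e (nat_lit 1201) (nat_lit 88) (.e (nat_lit 65610) (nat_lit 10) (.e (nat_lit 344157) (nat_lit 36) (.e (nat_lit 638985) (nat_lit 5) .nil))))))) (.g (nat_lit 6) .nil .nil))) 
(.lf (nat_lit 98151) (.g (nat_lit 3018) (.e (nat_lit 3017) (nat_lit 187) (.e (nat_lit 450587) (nat_lit 10) (.e (nat_lit 573477) (nat_lit 12) (.e (nat_lit 57574) (nat_lit 55) (.e (nat_lit 778362) (nat_lit 9) (.e (nat_lit 307) (nat_lit 22) (.e (nat_lit 344107) (nat_lit 19) (.e (nat_lit 499836) (nat_lit 5) .nil)))))))) (.g (nat_lit 5) .nil .nil)))) (.nd (nat_lit 5) 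
(.lf (nat_lit 98135) (.g (nat_lit 2877) (.e (nat_lit 3015) (nat_lit 187) (.e (nat_lit 450563) (nat_lit 0) (.e (nat_lit 6740) (nat_lit 365) (.e (nat_lit 1201) (nat_lit 88) (.e (nat_lit 65610) (nat_lit 10) (.e (nat_lit 344138) (nat_lit 29) (.e (nat_lit 581636) (nat_lit 0) .nil))))))) (.g (nat_lit 5) .nil .nil))) 
(.lf (nat_lit 98167) (.g (nat_lit 3411) (.e (nat_lit 3017) (nat_lit 187) (.e (nat_lit 450588) (nat_lit 10) (.e (nat_lit 573475) (nat_lit 12) (.e (nat_lit 57574) (nat_lit 55) (.e (nat_lit 778362) (nat_lit 9) (.e (nat_lit 307) (nat_lit 22) (.e (nat_lit 344107) (nat_lit 19) (.e (nat_lit 499837) (nat_lit 5) .nil)))))))) (.g (nat_lit 4) .nil .nil))))) (.nd (nat_lit 4) (.nd (nat_lit 5) 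
(.lf (nat_lit 98127) (.g (nat_lit 992) (.e (nat_lit 3015) (nat_lit 187) (.e (nat_lit 450562) (nat_lit 0) (.e (nat_lit 5130) (nat_lit 292) (.e (nat_lit 1197) (nat_lit 88) .nil)))) .nil)) 
(.lf (nat_lit 98159) (.g (nat_lit 2177) (.e (nat_lit 3017) (nat_lit 187) (.e (nat_lit 450587) (nat_lit 10) (.e (nat_lit 573478) (nat_lit 12) (.e (nat_lit 57574) (nat_lit 55) (.e (nat_lit 778362) (nat_lit 9) (.e (nat_lit 307) (nat_lit 22) (.e (nat_lit 344107) (nat_lit 19) (.e (nat_lit 499843) (nat_lit 5) .nil)))))))) (.g (nat_lit 4) .nil .nil)))) (.nd (nat_lit 5) 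
(.lf (nat_lit 98143) (.g (nat_lit 471) (.e (nat_lit 3016) (nat_lit 187) (.e (nat_lit 450563) (nat_lit 0) (.e (nat_lit 5117) (nat_lit 292) .nil))) .nil)) 
(.lf (nat_lit 98175) (.g (nat_lit 3147) (.e (nat_lit 3017) (nat_lit 187) (.e (nat_lit 450588) (nat_lit 10) (.e (nat_lit 573475) (nat_lit 12) (.e (nat_lit 57574) (nat_lit 55) (.e (nat_lit 778362) (nat_lit 9) (.e (nat_lit 307) (nat_lit 22) (.e (nat_lit 344107) (nat_lit 19) (.e (nat_lit 499847) (nat_lit 5) .nil)))))))) (.g (nat_lit 4) .nil .nil)))))))))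

noncomputable def tv1348 : DT := (.nd (nat_lit 0) (.nd (nat_lit 1) (.nd (nat_lit 2) (.nd (nat_lit 3) (.nd (nat_lit 4) (.nd (nat_lit 5) (.nd (nat_lit 6) 
(.lf (nat_lit 98176) (.g (nat_lit 848) (.e (nat_lit 3020) (nat_lit 187) (.e (nat_lit 450605) (nat_lit 27) (.e (nat_lit 745475) (nat_lit 0) (.e (nat_lit 1586) (nat_lit 111) (.e (nat_lit 368384) (nat_lit 10) .nil))))) .nil)) 
(.lf (nat_lit 98240) (.g (nat_lit 3402) (.e (nat_lit 3060) (nat_lit 190) (.e (nat_lit 475185) (nat_lit 29) (.e (nat_lit 557109) (nat_lit 15) (.e (nat_lit 188450) (nat_lit 23) (.e (nat_lit 204821) (nat_lit 17) .nil))))) .nil))) (.nd (nat_lit 6) 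
(.lf (nat_lit 98208) (.g (nat_lit 2227) (.e (nat_lit 3029) (nat_lit 188) (.e (nat_lit 458774) (nat_lit 18) (.e (nat_lit 5939) (nat_lit 322) (.e (nat_lit 57375) (nat_lit 2) (.e (nat_lit 90178) (nat_lit 15) .nil))))) .nil)) 
(.lf (nat_lit 98272) (.g (nat_lit 1361) (.e (nat_lit 3062) (nat_lit 190) (.e (nat_lit 475214) (nat_lit 42) (.e (nat_lit 720947) (nat_lit 24) .nil))) .nil)))) (.nd (nat_lit 5) (.nd (nat_lit 6) 
(.lf (nat_lit 98192) (.g (nat_lit 1444) (.e (nat_lit 3026) (nat_lit 187) (.e (nat_lit 450605) (nat_lit 27) (.e (nat_lit 745476) (nat_lit 0) (.e (nat_lit 1595) (nat_lit 111) (.e (nat_lit 368384) (nat_lit 10) (.e (nat_lit 573444) (nat_lit 0) .nil)))))) (.g (nat_lit 4) .nil .nil))) 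
(.lf (nat_lit 98256) (.g (nat_lit 5073) (.e (nat_lit 3062) (nat_lit 190) (.e (nat_lit 475183) (nat_lit 29) (.e (nat_lit 557108) (nat_lit 15) (.e (nat_lit 188449) (nat_lit 22) (.e (nat_lit 196700) (nat_lit 22) .nil))))) .nil))) (.nd (nat_lit 6) 
(.lf (nat_lit 98224) (.g (nat_lit 2148) (.e (nat_lit 3055) (nat_lit 190) (.e (nat_lit 475185) (nat_lit 29) (.e (nat_lit 557101) (nat_lit 13) (.e (nat_lit 172097) (nat_lit 9) (.e (nat_lit 426140) (nat_lit 3) (.e (nat_lit 204821) (nat_lit 17) (.e (nat_lit 7936) (nat_lit 357) .nil))))))) (.g (nat_lit 4) .nil .nil))) 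
(.lf (nat_lit 98288) (.g (nat_lit 2073) (.e (nat_lit 3065) (nat_lit 190) (.e (nat_lit 475184) (nat_lit 29) (.e (nat_lit 557109) (nat_lit 15) (.e (nat_lit 188458) (nat_lit 25) (.e (nat_lit 245784) (nat_lit 9) .nil))))) .nil))))) (.nd (nat_lit 4) (.nd (nat_lit 5) (.nd (nat_lit 6) 
(.lf (nat_lit 98184) (.g (nat_lit 809) (.e (nat_lit 3026) (nat_lit 187) (.e (nat_lit 450561) (nat_lit 0) (.e (nat_lit 6740) (nat_lit 365) (.e (nat_lit 7936) (nat_lit 90) .nil)))) .nil)) 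
(.lf (nat_lit 98248) (.g (nat_lit 1632) (.e (nat_lit 3061) (nat_lit 190) (.e (nat_lit 475185) (nat_lit 29) (.e (nat_lit 557109) (nat_lit 15) (.e (nat_lit 188449) (nat_lit 22) .nil)))) .nil))) (.nd (nat_lit 6) 
(.lf (nat_lit 98216) (.g (nat_lit 2250) (.e (nat_lit 3038) (nat_lit 188) (.e (nat_lit 458774) (nat_lit 18) (.e (nat_lit 5939) (nat_lit 322) (.e (nat_lit 57375) (nat_lit 2) (.e (nat_lit 90178) (nat_lit 15) .nil))))) .nil)) 
(.lf (nat_lit 98280) (.g (nat_lit 3464) (.e (nat_lit 3064) (nat_lit 190) (.e (nat_lit 475185) (nat_lit 29) (.e (nat_lit 557100) (nat_lit 13) (.e (nat_lit 172113) (nat_lit 10) (.e (nat_lit 434245) (nat_lit 28) (.e (nat_lit 573468) (nat_lit 10) (.e (nat_lit 8525) (nat_lit 205) .nil))))))) (.g (nat_lit 4) .nil .nil))))) (.nd (nat_lit 5) (.nd (nat_lit 6) 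
(.lf (nat_lit 98200) (.g (nat_lit 1838) (.e (nat_lit 3027) (nat_lit 187) (.e (nat_lit 450564) (nat_lit 0) (.e (nat_lit 6792) (nat_lit 365) (.e (nat_lit 1219) (nat_lit 90) (.e (nat_lit 81946) (nat_lit 20) (.e (nat_lit 1886) (nat_lit 127) (.e (nat_lit 581636) (nat_lit 0) .nil))))))) (.g (nat_lit 5) .nil .nil))) 
(.lf (nat_lit 98264) (.g (nat_lit 3313) (.e (nat_lit 3062) (nat_lit 190) (.e (nat_lit 475193) (nat_lit 38) (.e (nat_lit 688168) (nat_lit 15) (.e (nat_lit 57478) (nat_lit 28) (.e (nat_lit 557109) (nat_lit 15) (.e (nat_lit 188461) (nat_lit 26) (.e (nat_lit 253954) (nat_lit 0) .nil))))))) (.g (nat_lit 5) .nil .nil)))) (.nd (nat_lit 6) 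
(.lf (nat_lit 98232) (.g (nat_lit 3241) (.e (nat_lit 3055) (nat_lit 190) (.e (nat_lit 475185) (nat_lit 29) (.e (nat_lit 557109) (nat_lit 15) (.e (nat_lit 188452) (nat_lit 23) (.e (nat_lit 204817) (nat_lit 17) (.e (nat_lit 7936) (nat_lit 357) .nil)))))) (.g (nat_lit 4) .nil .nil))) 
(.lf (nat_lit 98296) (.g (nat_lit 1353) (.e (nat_lit 3065) (nat_lit 190) (.e (nat_lit 475193) (nat_lit 38) (.e (nat_lit 688171) (nat_lit 15) (.e (nat_lit 57478) (nat_lit 28) (.e (nat_lit 557107) (nat_lit 15) (.e (nat_lit 188459) (nat_lit 26) (.e (nat_lit 253952) (nat_lit 0) .nil))))))) (.g (nat_lit 4) .nil .nil))))))) (.nd (nat_lit 3) (.nd (nat_lit 4) (.nd (nat_lit 5) (.nd (nat_lit 6) 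
(.lf (nat_lit 98180) (.g (nat_lit 1838) (.e (nat_lit 3022) (nat_lit 187) (.e (nat_lit 450561) (nat_lit 0) (.e (nat_lit 6740) (nat_lit 365) (.e (nat_lit 1222) (nat_lit 90) (.e (nat_lit 81943) (nat_lit 20) (.e (nat_lit 1886) (nat_lit 127) (.e (nat_lit 581636) (nat_lit 0) .nil))))))) (.g (nat_lit 5) .nil .nil))) 
(.lf (nat_lit 98244) (.g (nat_lit 2281) (.e (nat_lit 3060) (nat_lit 190) (.e (nat_lit 475210) (nat_lit 41) (.e (nat_lit 712745) (nat_lit 27) (.e (nat_lit 425984) (nat_lit 0) .nil)))) .nil))) (.nd (nat_lit 6) 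
(.lf (nat_lit 98212) (.g (nat_lit 3605) (.e (nat_lit 3033) (nat_lit 188) (.e (nat_lit 458789) (nat_lit 23) (.e (nat_lit 532569) (nat_lit 16) (.e (nat_lit 401448) (nat_lit 10) (.e (nat_lit 434232) (nat_lit 23) .nil))))) .nil)) 
(.lf (nat_lit 98276) (.g (nat_lit 2305) (.e (nat_lit 3063) (nat_lit 190) (.e (nat_lit 475210) (nat_lit 41) (.e (nat_lit 712745) (nat_lit 27) (.e (nat_lit 425984) (nat_lit 0) .nil)))) .nil)))) (.nd (nat_lit 5) (.nd (nat_lit 6) 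
(.lf (nat_lit 98196) (.g (nat_lit 421) (.e (nat_lit 3027) (nat_lit 187) (.e (nat_lit 450564) (nat_lit 0) (.e (nat_lit 5050) (nat_lit 292) .nil))) .nil)) 
(.lf (nat_lit 98260) (.g (nat_lit 3034) (.e (nat_lit 3062) (nat_lit 190) (.e (nat_lit 475185) (nat_lit 29) (.e (nat_lit 557100) (nat_lit 13) (.e (nat_lit 172113) (nat_lit 10) (.e (nat_lit 434245) (nat_lit 28) (.e (nat_lit 573451) (nat_lit 9) (.e (nat_lit 11) (nat_lit 0) (.e (nat_lit 7343) (nat_lit 388) .nil)))))))) (.g (nat_lit 4) .nil .nil)))) (.nd (nat_lit 6) 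
(.lf (nat_lit 98228) (.g (nat_lit 2655) (.e (nat_lit 3055) (nat_lit 190) (.e (nat_lit 475185) (nat_lit 29) (.e (nat_lit 557109) (nat_lit 15) (.e (nat_lit 188449) (nat_lit 22) (.e (nat_lit 196661) (nat_lit 12) .nil))))) .nil)) 
(.lf (nat_lit 98292) (.g (nat_lit 3594) (.e (nat_lit 3065) (nat_lit 190) (.e (nat_lit 475185) (nat_lit 29) (.e (nat_lit 557100) (nat_lit 13) (.e (nat_lit 172113) (nat_lit 10) (.e (nat_lit 434245) (nat_lit 28) (.e (nat_lit 573468) (nat_lit 10) (.e (nat_lit 8525) (nat_lit 205) .nil))))))) (.g (nat_lit 4) .nil .nil)))))) (.nd (nat_lit 4) (.nd (nat_lit 5) (.nd (nat_lit 6) 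
(.lf (nat_lit 98188) (.g (nat_lit 1307) (.e (nat_lit 3026) (nat_lit 187) (.e (nat_lit 458496) (nat_lit 0) (.e (nat_lit 6792) (nat_lit 365) (.e (nat_lit 1221) (nat_lit 90) (.e (nat_lit 81931) (nat_lit 20) (.e (nat_lit 1879) (nat_lit 126) (.e (nat_lit 573445) (nat_lit 0) .nil))))))) (.g (nat_lit 5) .nil .nil))) 
(.lf (nat_lit 98252) (.g (nat_lit 3573) (.e (nat_lit 3062) (nat_lit 190) (.e (nat_lit 475175) (nat_lit 24) (.e (nat_lit 516151) (nat_lit 9) (.e (nat_lit 426211) (nat_lit 9) (.e (nat_lit 426569) (nat_lit 35) (.e (nat_lit 401413) (nat_lit 0) (.e (nat_lit 3459) (nat_lit 216) (.e (nat_lit 688139) (nat_lit 5) .nil)))))))) (.g (nat_lit 4) .nil .nil)))) (.nd (nat_lit 6) 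
(.lf (nat_lit 98220) (.g (nat_lit 519) (.e (nat_lit 3048) (nat_lit 189) (.e (nat_lit 466971) (nat_lit 21) (.e (nat_lit 164321) (nat_lit 229) .nil))) .nil)) 
(.lf (nat_lit 98284) (.g (nat_lit 2897) (.e (nat_lit 3064) (nat_lit 190) (.e (nat_lit 475185) (nat_lit 29) (.e (nat_lit 557109) (nat_lit 15) (.e (nat_lit 188452) (nat_lit 23) (.e (nat_lit 204817) (nat_lit 17) (.e (nat_lit 7936) (nat_lit 357) .nil)))))) (.g (nat_lit 4) .nil .nil))))) (.nd (nat_lit 5) (.nd (nat_lit 6) 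
(.lf (nat_lit 98204) (.g (nat_lit 607) (.e (nat_lit 3028) (nat_lit 187) (.e (nat_lit 450563) (nat_lit 0) (.e (nat_lit 6740) (nat_lit 365) .nil))) .nil)) 
(.lf (nat_lit 98268) (.g (nat_lit 3400) (.e (nat_lit 3062) (nat_lit 190) (.e (nat_lit 475193) (nat_lit 38) (.e (nat_lit 688171) (nat_lit 15) (.e (nat_lit 57480) (nat_lit 28) (.e (nat_lit 557109) (nat_lit 15) (.e (nat_lit 188461) (nat_lit 26) (.e (nat_lit 253954) (nat_lit 0) .nil))))))) (.g (nat_lit 5) .nil .nil)))) (.nd (nat_lit 6) 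
(.lf (nat_lit 98236) (.g (nat_lit 2105) (.e (nat_lit 3058) (nat_lit 190) (.e (nat_lit 475185) (nat_lit 29) (.e (nat_lit 557107) (nat_lit 15) (.e (nat_lit 188447) (nat_lit 22) .nil)))) .nil)) 
(.lf (nat_lit 98300) (.g (nat_lit 2949) (.e (nat_lit 3066) (nat_lit 190) (.e (nat_lit 475185) (nat_lit 29) (.e (nat_lit 557100) (nat_lit 13) (.e (nat_lit 172113) (nat_lit 10) .nil)))) .nil))))))) (.nd (nat_lit 2) (.nd (nat_lit 3) (.nd (nat_lit 4) (.nd (nat_lit 5) (.nd (nat_lit 6) 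
(.lf (nat_lit 98178) (.g (nat_lit 1252) (.e (nat_lit 3020) (nat_lit 187) (.e (nat_lit 450605) (nat_lit 27) (.e (nat_lit 745476) (nat_lit 0) (.e (nat_lit 1586) (nat_lit 111) (.e (nat_lit 368384) (nat_lit 10) (.e (nat_lit 573445) (nat_lit 0) .nil)))))) (.g (nat_lit 4) .nil .nil))) 
(.lf (nat_lit 98242) (.g (nat_lit 3553) (.e (nat_lit 3060) (nat_lit 190) (.e (nat_lit 475185) (nat_lit 29) (.e (nat_lit 557109) (nat_lit 15) (.e (nat_lit 188452) (nat_lit 23) (.e (nat_lit 204821) (nat_lit 17) (.e (nat_lit 7936) (nat_lit 357) .nil)))))) (.g (nat_lit 4) .nil .nil)))) (.nd (nat_lit 6) 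
(.lf (nat_lit 98210) (.g (nat_lit 2439) (.e (nat_lit 3033) (nat_lit 188) (.e (nat_lit 458774) (nat_lit 18) (.e (nat_lit 5939) (nat_lit 322) (.e (nat_lit 57375) (nat_lit 2) (.e (nat_lit 90177) (nat_lit 15) .nil))))) .nil)) 
(.lf (nat_lit 98274) (.g (nat_lit 1361) (.e (nat_lit 3062) (nat_lit 190) (.e (nat_lit 475214) (nat_lit 42) (.e (nat_lit 720950) (nat_lit 24) .nil))) .nil)))) (.nd (nat_lit 5) (.nd (nat_lit 6) 
(.lf (nat_lit 98194) (.g (nat_lit 1793) (.e (nat_lit 3027) (nat_lit 187) (.e (nat_lit 450561) (nat_lit 0) (.e (nat_lit 6740) (nat_lit 365) (.e (nat_lit 1222) (nat_lit 90) (.e (nat_lit 81943) (nat_lit 20) (.e (nat_lit 1886) (nat_lit 127) (.e (nat_lit 581635) (nat_lit 0) .nil))))))) (.g (nat_lit 5) .nil .nil))) 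
(.lf (nat_lit 98258) (.g (nat_lit 3051) (.e (nat_lit 3062) (nat_lit 190) (.e (nat_lit 475185) (nat_lit 29) (.e (nat_lit 557100) (nat_lit 13) (.e (nat_lit 172106) (nat_lit 10) (.e (nat_lit 434244) (nat_lit 28) (.e (nat_lit 573451) (nat_lit 9) (.e (nat_lit 11) (nat_lit 0) (.e (nat_lit 7343) (nat_lit 388) .nil)))))))) (.g (nat_lit 5) .nil .nil)))) (.nd (nat_lit 6) 
(.lf (nat_lit 98226) (.g (nat_lit 1934) (.e (nat_lit 3055) (nat_lit 190) (.e (nat_lit 475185) (nat_lit 29) (.e (nat_lit 557107) (nat_lit 15) (.e (nat_lit 188447) (nat_lit 22) .nil)))) .nil)) 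
(.lf (nat_lit 98290) (.g (nat_lit 3002) (.e (nat_lit 3065) (nat_lit 190) (.e (nat_lit 475185) (nat_lit 29) (.e (nat_lit 557100) (nat_lit 13) (.e (nat_lit 172113) (nat_lit 10) .nil)))) .nil))))) (.nd (nat_lit 4) (.nd (nat_lit 5) (.nd (nat_lit 6) 
(.lf (nat_lit 98186) (.g (nat_lit 1283) (.e (nat_lit 3026) (nat_lit 187) (.e (nat_lit 458496) (nat_lit 0) (.e (nat_lit 6792) (nat_lit 365) (.e (nat_lit 1221) (nat_lit 90) (.e (nat_lit 81931) (nat_lit 20) (.e (nat_lit 1878) (nat_lit 126) (.e (nat_lit 573445) (nat_lit 0) .nil))))))) (.g (nat_lit 5) .nil .nil))) 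
(.lf (nat_lit 98250) (.g (nat_lit 2281) (.e (nat_lit 3061) (nat_lit 190) (.e (nat_lit 475210) (nat_lit 41) (.e (nat_lit 712745) (nat_lit 27) (.e (nat_lit 425984) (nat_lit 0) .nil)))) .nil))) (.nd (nat_lit 6) 
(.lf (nat_lit 98218) (.g (nat_lit 1360) (.e (nat_lit 3044) (nat_lit 189) (.e (nat_lit 466972) (nat_lit 21) (.e (nat_lit 171776) (nat_lit 229) (.e (nat_lit 122919) (nat_lit 15) (.e (nat_lit 360480) (nat_lit 14) .nil))))) .nil)) 
(.lf (nat_lit 98282) (.g (nat_lit 3286) (.e (nat_lit 3064) (nat_lit 190) (.e (nat_lit 475185) (nat_lit 29) (.e (nat_lit 557109) (nat_lit 15) (.e (nat_lit 188450) (nat_lit 23) (.e (nat_lit 204821) (nat_lit 17) .nil))))) .nil)))) (.nd (nat_lit 5) (.nd (nat_lit 6) 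
(.lf (nat_lit 98202) (.g (nat_lit 2498) (.e (nat_lit 3027) (nat_lit 187) (.e (nat_lit 450564) (nat_lit 0) (.e (nat_lit 6792) (nat_lit 365) (.e (nat_lit 1221) (nat_lit 90) (.e (nat_lit 81947) (nat_lit 20) (.e (nat_lit 1886) (nat_lit 127) (.e (nat_lit 581635) (nat_lit 0) .nil))))))) (.g (nat_lit 5) .nil .nil))) 
(.lf (nat_lit 98266) (.g (nat_lit 3664) (.e (nat_lit 3062) (nat_lit 190) (.e (nat_lit 475193) (nat_lit 38) (.e (nat_lit 688171) (nat_lit 15) (.e (nat_lit 57478) (nat_lit 28) (.e (nat_lit 557109) (nat_lit 15) (.e (nat_lit 188461) (nat_lit 26) (.e (nat_lit 253954) (nat_lit 0) .nil))))))) (.g (nat_lit 6) .nil .nil)))) (.nd (nat_lit 6) 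
(.lf (nat_lit 98234) (.g (nat_lit 1628) (.e (nat_lit 3056) (nat_lit 190) (.e (nat_lit 475185) (nat_lit 29) (.e (nat_lit 557109) (nat_lit 15) (.e (nat_lit 188449) (nat_lit 22) .nil)))) .nil)) 
(.lf (nat_lit 98298) (.g (nat_lit 1828) (.e (nat_lit 3066) (nat_lit 190) (.e (nat_lit 475184) (nat_lit 29) (.e (nat_lit 557109) (nat_lit 15) (.e (nat_lit 188458) (nat_lit 25) (.e (nat_lit 245784) (nat_lit 9) .nil))))) .nil)))))) (.nd (nat_lit 3) (.nd (nat_lit 4) (.nd (nat_lit 5) (.nd (nat_lit 6) 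
(.lf (nat_lit 98182) (.g (nat_lit 2647) (.e (nat_lit 3022) (nat_lit 187) (.e (nat_lit 450569) (nat_lit 0) (.e (nat_lit 5072) (nat_lit 292) (.e (nat_lit 1201) (nat_lit 88) (.e (nat_lit 65610) (nat_lit 10) (.e (nat_lit 344157) (nat_lit 36) (.e (nat_lit 638985) (nat_lit 5) .nil))))))) (.g (nat_lit 5) .nil .nil))) 
(.lf (nat_lit 98246) (.g (nat_lit 2295) (.e (nat_lit 3061) (nat_lit 190) (.e (nat_lit 475185) (nat_lit 29) (.e (nat_lit 557100) (nat_lit 13) (.e (nat_lit 172106) (nat_lit 10) .nil)))) .nil))) (.nd (nat_lit 6) 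
(.lf (nat_lit 98214) (.g (nat_lit 743) (.e (nat_lit 3035) (nat_lit 188) (.e (nat_lit 458774) (nat_lit 18) (.e (nat_lit 5939) (nat_lit 322) .nil))) .nil)) 
(.lf (nat_lit 98278) (.g (nat_lit 2722) (.e (nat_lit 3064) (nat_lit 190) (.e (nat_lit 475185) (nat_lit 29) (.e (nat_lit 557100) (nat_lit 13) (.e (nat_lit 172106) (nat_lit 10) (.e (nat_lit 434244) (nat_lit 28) .nil))))) .nil)))) (.nd (nat_lit 5) (.nd (nat_lit 6) 
(.lf (nat_lit 98198) (.g (nat_lit 1567) (.e (nat_lit 3027) (nat_lit 187) (.e (nat_lit 450564) (nat_lit 0) (.e (nat_lit 5211) (nat_lit 295) (.e (nat_lit 122919) (nat_lit 15) (.e (nat_lit 360480) (nat_lit 14) (.e (nat_lit 638986) (nat_lit 5) .nil)))))) (.g (nat_lit 4) .nil .nil))) 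
(.lf (nat_lit 98262) (.g (nat_lit 3298) (.e (nat_lit 3062) (nat_lit 190) (.e (nat_lit 475185) (nat_lit 29) (.e (nat_lit 557100) (nat_lit 13) (.e (nat_lit 172113) (nat_lit 10) (.e (nat_lit 434248) (nat_lit 28) (.e (nat_lit 573452) (nat_lit 9) (.e (nat_lit 11) (nat_lit 0) (.e (nat_lit 7342) (nat_lit 388) .nil)))))))) (.g (nat_lit 4) .nil .nil)))) (.nd (nat_lit 6) 
(.lf (nat_lit 98230) (.g (nat_lit 1693) (.e (nat_lit 3055) (nat_lit 190) (.e (nat_lit 475185) (nat_lit 29) (.e (nat_lit 557109) (nat_lit 15) (.e (nat_lit 188452) (nat_lit 23) .nil)))) .nil)) 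
(.lf (nat_lit 98294) (.g (nat_lit 1643) (.e (nat_lit 3065) (nat_lit 190) (.e (nat_lit 475185) (nat_lit 29) (.e (nat_lit 557101) (nat_lit 13) (.e (nat_lit 172115) (nat_lit 10) (.e (nat_lit 434231) (nat_lit 23) .nil))))) .nil))))) (.nd (nat_lit 4) (.nd (nat_lit 5) (.nd (nat_lit 6) 
(.lf (nat_lit 98190) (.g (nat_lit 1187) (.e (nat_lit 3026) (nat_lit 187) (.e (nat_lit 450605) (nat_lit 27) (.e (nat_lit 745475) (nat_lit 0) (.e (nat_lit 1586) (nat_lit 111) (.e (nat_lit 368384) (nat_lit 10) (.e (nat_lit 573445) (nat_lit 0) .nil)))))) (.g (nat_lit 4) .nil .nil))) 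
(.lf (nat_lit 98254) (.g (nat_lit 679) (.e (nat_lit 3062) (nat_lit 190) (.e (nat_lit 475179) (nat_lit 24) (.e (nat_lit 524032) (nat_lit 20) .nil))) .nil))) (.nd (nat_lit 6) 
(.lf (nat_lit 98222) (.g (nat_lit 580) (.e (nat_lit 3055) (nat_lit 190) (.e (nat_lit 475185) (nat_lit 29) (.e (nat_lit 557101) (nat_lit 13) .nil))) .nil)) 
(.lf (nat_lit 98286) (.g (nat_lit 2669) (.e (nat_lit 3064) (nat_lit 190) (.e (nat_lit 475185) (nat_lit 29) (.e (nat_lit 557109) (nat_lit 15) (.e (nat_lit 188452) (nat_lit 23) (.e (nat_lit 204821) (nat_lit 17) (.e (nat_lit 7936) (nat_lit 357) .nil)))))) (.g (nat_lit 4) .nil .nil))))) (.nd (nat_lit 5) (.nd (nat_lit 6) 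
(.lf (nat_lit 98206) (.g (nat_lit 2661) (.e (nat_lit 3029) (nat_lit 188) (.e (nat_lit 458774) (nat_lit 18) (.e (nat_lit 5939) (nat_lit 322) (.e (nat_lit 57375) (nat_lit 2) (.e (nat_lit 90176) (nat_lit 15) (.e (nat_lit 188459) (nat_lit 26) (.e (nat_lit 261888) (nat_lit 0) .nil))))))) (.g (nat_lit 5) .nil .nil))) 
(.lf (nat_lit 98270) (.g (nat_lit 2144) (.e (nat_lit 3062) (nat_lit 190) (.e (nat_lit 475212) (nat_lit 42) (.e (nat_lit 720951) (nat_lit 24) (.e (nat_lit 106534) (nat_lit 11) (.e (nat_lit 16425) (nat_lit 7) (.e (nat_lit 409623) (nat_lit 10) (.e (nat_lit 5664) (nat_lit 312) .nil))))))) (.g (nat_lit 5) .nil .nil)))) (.nd (nat_lit 6) 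
(.lf (nat_lit 98238) (.g (nat_lit 1964) (.e (nat_lit 3060) (nat_lit 190) (.e (nat_lit 475185) (nat_lit 29) (.e (nat_lit 557100) (nat_lit 13) (.e (nat_lit 172106) (nat_lit 10) .nil)))) .nil)) 
(.lf (nat_lit 98302) (.g (nat_lit 891) (.e (nat_lit 3066) (nat_lit 190) (.e (nat_lit 475214) (nat_lit 42) (.e (nat_lit 720956) (nat_lit 25) .nil))) .nil)))))))) (.nd (nat_lit 1) (.nd (nat_lit 2) (.nd (nat_lit 3) (.nd (nat_lit 4) (.nd (nat_lit 5) (.nd (nat_lit 6) 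
(.lf (nat_lit 98177) (.g (nat_lit 580) (.e (nat_lit 3020) (nat_lit 187) (.e (nat_lit 450605) (nat_lit 27) (.e (nat_lit 745476) (nat_lit 0) (.e (nat_lit 1586) (nat_lit 111) .nil)))) .nil)) 
(.lf (nat_lit 98241) (.g (nat_lit 3018) (.e (nat_lit 3060) (nat_lit 190) (.e (nat_lit 475185) (nat_lit 29) (.e (nat_lit 557109) (nat_lit 15) (.e (nat_lit 188452) (nat_lit 23) (.e (nat_lit 204817) (nat_lit 17) .nil))))) .nil))) (.nd (nat_lit 6) 
(.lf (nat_lit 98209) (.g (nat_lit 1903) (.e (nat_lit 3030) (nat_lit 188) (.e (nat_lit 458774) (nat_lit 18) (.e (nat_lit 5939) (nat_lit 322) (.e (nat_lit 57375) (nat_lit 2) (.e (nat_lit 90176) (nat_lit 15) .nil))))) .nil)) 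
(.lf (nat_lit 98273) (.g (nat_lit 2531) (.e (nat_lit 3062) (nat_lit 190) (.e (nat_lit 475214) (nat_lit 42) (.e (nat_lit 720948) (nat_lit 24) (.e (nat_lit 106534) (nat_lit 11) (.e (nat_lit 16425) (nat_lit 7) (.e (nat_lit 409623) (nat_lit 10) (.e (nat_lit 5664) (nat_lit 312) .nil))))))) (.g (nat_lit 4) .nil .nil))))) (.nd (nat_lit 5) (.nd (nat_lit 6) 
(.lf (nat_lit 98193) (.g (nat_lit 1759) (.e (nat_lit 3027) (nat_lit 187) (.e (nat_lit 450561) (nat_lit 0) (.e (nat_lit 6740) (nat_lit 365) (.e (nat_lit 1222) (nat_lit 90) (.e (nat_lit 81943) (nat_lit 20) (.e (nat_lit 1885) (nat_lit 127) (.e (nat_lit 581636) (nat_lit 0) .nil))))))) (.g (nat_lit 5) .nil .nil))) 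
(.lf (nat_lit 98257) (.g (nat_lit 3799) (.e (nat_lit 3062) (nat_lit 190) (.e (nat_lit 475185) (nat_lit 29) (.e (nat_lit 557100) (nat_lit 13) (.e (nat_lit 172106) (nat_lit 10) (.e (nat_lit 434244) (nat_lit 28) (.e (nat_lit 573451) (nat_lit 9) (.e (nat_lit 11) (nat_lit 0) (.e (nat_lit 7342) (nat_lit 388) .nil)))))))) (.g (nat_lit 6) .nil .nil)))) (.nd (nat_lit 6) 
(.lf (nat_lit 98225) (.g (nat_lit 2092) (.e (nat_lit 3055) (nat_lit 190) (.e (nat_lit 475185) (nat_lit 29) (.e (nat_lit 557101) (nat_lit 13) (.e (nat_lit 172115) (nat_lit 10) (.e (nat_lit 434231) (nat_lit 23) .nil))))) .nil)) 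
(.lf (nat_lit 98289) (.g (nat_lit 2376) (.e (nat_lit 3065) (nat_lit 190) (.e (nat_lit 475184) (nat_lit 29) (.e (nat_lit 557109) (nat_lit 15) (.e (nat_lit 188458) (nat_lit 25) (.e (nat_lit 245784) (nat_lit 9) (.e (nat_lit 989) (nat_lit 81) (.e (nat_lit 6654) (nat_lit 357) .nil))))))) (.g (nat_lit 4) .nil .nil)))))) (.nd (nat_lit 4) (.nd (nat_lit 5) (.nd (nat_lit 6) 
(.lf (nat_lit 98185) (.g (nat_lit 1266) (.e (nat_lit 3026) (nat_lit 187) (.e (nat_lit 450564) (nat_lit 0) (.e (nat_lit 6792) (nat_lit 365) (.e (nat_lit 1221) (nat_lit 90) (.e (nat_lit 81931) (nat_lit 20) (.e (nat_lit 1879) (nat_lit 126) (.e (nat_lit 573445) (nat_lit 0) .nil))))))) (.g (nat_lit 4) .nil .nil))) 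
(.lf (nat_lit 98249) (.g (nat_lit 873) (.e (nat_lit 3061) (nat_lit 190) (.e (nat_lit 475210) (nat_lit 41) (.e (nat_lit 712745) (nat_lit 27) .nil))) .nil))) (.nd (nat_lit 6) 
(.lf (nat_lit 98217) (.g (nat_lit 1996) (.e (nat_lit 3044) (nat_lit 189) (.e (nat_lit 474880) (nat_lit 0) (.e (nat_lit 2031) (nat_lit 140) (.e (nat_lit 688177) (nat_lit 16) (.e (nat_lit 65617) (nat_lit 10) (.e (nat_lit 344157) (nat_lit 36) (.e (nat_lit 638982) (nat_lit 5) .nil))))))) (.g (nat_lit 6) .nil .nil))) 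
(.lf (nat_lit 98281) (.g (nat_lit 1782) (.e (nat_lit 3064) (nat_lit 190) (.e (nat_lit 475185) (nat_lit 29) (.e (nat_lit 557101) (nat_lit 13) (.e (nat_lit 172115) (nat_lit 10) (.e (nat_lit 434231) (nat_lit 23) .nil))))) .nil)))) (.nd (nat_lit 5) (.nd (nat_lit 6) 
(.lf (nat_lit 98201) (.g (nat_lit 1523) (.e (nat_lit 3027) (nat_lit 187) (.e (nat_lit 450564) (nat_lit 0) (.e (nat_lit 6792) (nat_lit 365) (.e (nat_lit 1219) (nat_lit 90) (.e (nat_lit 81947) (nat_lit 20) (.e (nat_lit 1886) (nat_lit 127) (.e (nat_lit 581635) (nat_lit 0) .nil))))))) (.g (nat_lit 4) .nil .nil))) 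
(.lf (nat_lit 98265) (.g (nat_lit 3237) (.e (nat_lit 3062) (nat_lit 190) (.e (nat_lit 475193) (nat_lit 38) (.e (nat_lit 688170) (nat_lit 15) (.e (nat_lit 57480) (nat_lit 28) (.e (nat_lit 557109) (nat_lit 15) (.e (nat_lit 188461) (nat_lit 26) (.e (nat_lit 253954) (nat_lit 0) .nil))))))) (.g (nat_lit 5) .nil .nil)))) (.nd (nat_lit 6) 
(.lf (nat_lit 98233) (.g (nat_lit 3015) (.e (nat_lit 3055) (nat_lit 190) (.e (nat_lit 475185) (nat_lit 29) (.e (nat_lit 557109) (nat_lit 15) (.e (nat_lit 188452) (nat_lit 23) (.e (nat_lit 204821) (nat_lit 17) .nil))))) .nil)) 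
(.lf (nat_lit 98297) (.g (nat_lit 892) (.e (nat_lit 3065) (nat_lit 190) (.e (nat_lit 475214) (nat_lit 42) (.e (nat_lit 720956) (nat_lit 25) .nil))) .nil)))))) (.nd (nat_lit 3) (.nd (nat_lit 4) (.nd (nat_lit 5) (.nd (nat_lit 6) 
(.lf (nat_lit 98181) (.g (nat_lit 646) (.e (nat_lit 3022) (nat_lit 187) (.e (nat_lit 450569) (nat_lit 0) (.e (nat_lit 5065) (nat_lit 292) (.e (nat_lit 7936) (nat_lit 90) .nil)))) .nil)) 
(.lf (nat_lit 98245) (.g (nat_lit 632) (.e (nat_lit 3060) (nat_lit 190) (.e (nat_lit 475211) (nat_lit 41) (.e (nat_lit 712745) (nat_lit 27) .nil))) .nil))) (.nd (nat_lit 6) 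
(.lf (nat_lit 98213) (.g (nat_lit 3605) (.e (nat_lit 3034) (nat_lit 188) (.e (nat_lit 458789) (nat_lit 23) (.e (nat_lit 532569) (nat_lit 16) (.e (nat_lit 401448) (nat_lit 10) (.e (nat_lit 434232) (nat_lit 23) .nil))))) .nil)) 
(.lf (nat_lit 98277) (.g (nat_lit 2407) (.e (nat_lit 3064) (nat_lit 190) (.e (nat_lit 475183) (nat_lit 29) (.e (nat_lit 557097) (nat_lit 13) (.e (nat_lit 172115) (nat_lit 10) (.e (nat_lit 434231) (nat_lit 23) .nil))))) .nil)))) (.nd (nat_lit 5) (.nd (nat_lit 6) 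
(.lf (nat_lit 98197) (.g (nat_lit 793) (.e (nat_lit 3027) (nat_lit 187) (.e (nat_lit 450564) (nat_lit 0) (.e (nat_lit 5065) (nat_lit 292) (.e (nat_lit 7936) (nat_lit 90) .nil)))) .nil)) 
(.lf (nat_lit 98261) (.g (nat_lit 3496) (.e (nat_lit 3062) (nat_lit 190) (.e (nat_lit 475185) (nat_lit 29) (.e (nat_lit 557100) (nat_lit 13) (.e (nat_lit 172113) (nat_lit 10) (.e (nat_lit 434248) (nat_lit 28) (.e (nat_lit 573452) (nat_lit 9) (.e (nat_lit 11) (nat_lit 0) (.e (nat_lit 7306) (nat_lit 388) .nil)))))))) (.g (nat_lit 5) .nil .nil)))) (.nd (nat_lit 6) 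
(.lf (nat_lit 98229) (.g (nat_lit 1997) (.e (nat_lit 3055) (nat_lit 190) (.e (nat_lit 475185) (nat_lit 29) (.e (nat_lit 557109) (nat_lit 15) (.e (nat_lit 188450) (nat_lit 23) .nil)))) .nil)) 
(.lf (nat_lit 98293) (.g (nat_lit 3369) (.e (nat_lit 3065) (nat_lit 190) (.e (nat_lit 475185) (nat_lit 29) (.e (nat_lit 557100) (nat_lit 13) (.e (nat_lit 172113) (nat_lit 10) (.e (nat_lit 434248) (nat_lit 28) .nil))))) .nil))))) (.nd (nat_lit 4) (.nd (nat_lit 5) (.nd (nat_lit 6) 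
(.lf (nat_lit 98189) (.g (nat_lit 1209) (.e (nat_lit 3026) (nat_lit 187) (.e (nat_lit 450605) (nat_lit 27) (.e (nat_lit 745475) (nat_lit 0) (.e (nat_lit 1586) (nat_lit 111) (.e (nat_lit 368384) (nat_lit 10) (.e (nat_lit 573444) (nat_lit 0) .nil)))))) (.g (nat_lit 4) .nil .nil))) 
(.lf (nat_lit 98253) (.g (nat_lit 3896) (.e (nat_lit 3062) (nat_lit 190) (.e (nat_lit 475175) (nat_lit 24) (.e (nat_lit 516151) (nat_lit 9) (.e (nat_lit 426211) (nat_lit 9) (.e (nat_lit 426569) (nat_lit 35) (.e (nat_lit 401414) (nat_lit 0) (.e (nat_lit 3459) (nat_lit 216) (.e (nat_lit 688139) (nat_lit 5) .nil)))))))) (.g (nat_lit 4) .nil .nil)))) (.nd (nat_lit 6) 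
(.lf (nat_lit 98221) (.g (nat_lit 3010) (.e (nat_lit 3055) (nat_lit 190) (.e (nat_lit 475185) (nat_lit 29) (.e (nat_lit 557100) (nat_lit 13) (.e (nat_lit 172106) (nat_lit 10) (.e (nat_lit 434231) (nat_lit 23) (.e (nat_lit 532483) (nat_lit 0) (.e (nat_lit 6684) (nat_lit 357) .nil))))))) (.g (nat_lit 7) .nil .nil))) 
(.lf (nat_lit 98285) (.g (nat_lit 3950) (.e (nat_lit 3064) (nat_lit 190) (.e (nat_lit 475185) (nat_lit 29) (.e (nat_lit 557109) (nat_lit 15) (.e (nat_lit 188452) (nat_lit 23) (.e (nat_lit 204821) (nat_lit 17) (.e (nat_lit 6676) (nat_lit 357) .nil)))))) (.g (nat_lit 6) .nil .nil))))) (.nd (nat_lit 5) (.nd (nat_lit 6) 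
(.lf (nat_lit 98205) (.g (nat_lit 338) (.e (nat_lit 3028) (nat_lit 187) (.e (nat_lit 450566) (nat_lit 0) (.e (nat_lit 5069) (nat_lit 292) (.e (nat_lit 7936) (nat_lit 90) .nil)))) .nil)) 
(.lf (nat_lit 98269) (.g (nat_lit 2431) (.e (nat_lit 3062) (nat_lit 190) (.e (nat_lit 475212) (nat_lit 42) (.e (nat_lit 720949) (nat_lit 24) (.e (nat_lit 106534) (nat_lit 11) (.e (nat_lit 16425) (nat_lit 7) (.e (nat_lit 409623) (nat_lit 10) (.e (nat_lit 5664) (nat_lit 312) .nil))))))) (.g (nat_lit 6) .nil .nil)))) (.nd (nat_lit 6) 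
(.lf (nat_lit 98237) (.g (nat_lit 3199) (.e (nat_lit 3058) (nat_lit 190) (.e (nat_lit 475185) (nat_lit 29) (.e (nat_lit 557109) (nat_lit 15) (.e (nat_lit 188452) (nat_lit 23) (.e (nat_lit 204821) (nat_lit 17) .nil))))) .nil)) 
(.lf (nat_lit 98301) (.g (nat_lit 1731) (.e (nat_lit 3066) (nat_lit 190) (.e (nat_lit 475193) (nat_lit 38) (.e (nat_lit 688171) (nat_lit 15) (.e (nat_lit 57478) (nat_lit 28) (.e (nat_lit 557107) (nat_lit 15) (.e (nat_lit 188459) (nat_lit 26) (.e (nat_lit 253958) (nat_lit 0) .nil))))))) (.g (nat_lit 5) .nil .nil)))))))) 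
(.nd (nat_lit 2) (.nd (nat_lit 3) (.nd (nat_lit 4) (.nd (nat_lit 5) (.nd (nat_lit 6) 
(.lf (nat_lit 98179) (.g (nat_lit 1778) (.e (nat_lit 3021) (nat_lit 187) (.e (nat_lit 450605) (nat_lit 27) (.e (nat_lit 745475) (nat_lit 0) (.e (nat_lit 1586) (nat_lit 111) (.e (nat_lit 360477) (nat_lit 11) (.e (nat_lit 581636) (nat_lit 0) .nil)))))) (.g (nat_lit 6) .nil .nil))) 
(.lf (nat_lit 98243) (.g (nat_lit 874) (.e (nat_lit 3060) (nat_lit 190) (.e (nat_lit 475210) (nat_lit 41) (.e (nat_lit 712745) (nat_lit 27) .nil))) .nil))) (.nd (nat_lit 6) 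
(.lf (nat_lit 98211) (.g (nat_lit 2250) (.e (nat_lit 3033) (nat_lit 188) (.e (nat_lit 458774) (nat_lit 18) (.e (nat_lit 5939) (nat_lit 322) (.e (nat_lit 57375) (nat_lit 2) (.e (nat_lit 90178) (nat_lit 15) .nil))))) .nil)) 
(.lf (nat_lit 98275) (.g (nat_lit 1361) (.e (nat_lit 3062) (nat_lit 190) (.e (nat_lit 475214) (nat_lit 42) (.e (nat_lit 720952) (nat_lit 24) .nil))) .nil)))) (.nd (nat_lit 5) (.nd (nat_lit 6) 
(.lf (nat_lit 98195) (.g (nat_lit 425) (.e (nat_lit 3027) (nat_lit 187) (.e (nat_lit 450564) (nat_lit 0) (.e (nat_lit 5048) (nat_lit 292) .nil))) .nil)) 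
(.lf (nat_lit 98259) (.g (nat_lit 3782) (.e (nat_lit 3062) (nat_lit 190) (.e (nat_lit 475185) (nat_lit 29) (.e (nat_lit 557100) (nat_lit 13) (.e (nat_lit 172113) (nat_lit 10) (.e (nat_lit 434245) (nat_lit 28) (.e (nat_lit 573451) (nat_lit 9) (.e (nat_lit 11) (nat_lit 0) (.e (nat_lit 7342) (nat_lit 388) .nil)))))))) (.g (nat_lit 5) .nil .nil)))) (.nd (nat_lit 6) 
(.lf (nat_lit 98227) (.g (nat_lit 1521) (.e (nat_lit 3055) (nat_lit 190) (.e (nat_lit 475185) (nat_lit 29) (.e (nat_lit 557107) (nat_lit 15) (.e (nat_lit 188450) (nat_lit 23) .nil)))) .nil)) 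
(.lf (nat_lit 98291) (.g (nat_lit 3615) (.e (nat_lit 3065) (nat_lit 190) (.e (nat_lit 475185) (nat_lit 29) (.e (nat_lit 557100) (nat_lit 13) (.e (nat_lit 172113) (nat_lit 10) (.e (nat_lit 434245) (nat_lit 28) (.e (nat_lit 573468) (nat_lit 10) (.e (nat_lit 8524) (nat_lit 205) .nil))))))) (.g (nat_lit 4) .nil .nil)))))) (.nd (nat_lit 4) (.nd (nat_lit 5) (.nd (nat_lit 6) 
(.lf (nat_lit 98187) (.g (nat_lit 1346) (.e (nat_lit 3026) (nat_lit 187) (.e (nat_lit 458496) (nat_lit 0) (.e (nat_lit 6792) (nat_lit 365) (.e (nat_lit 1221) (nat_lit 90) (.e (nat_lit 81931) (nat_lit 20) (.e (nat_lit 1879) (nat_lit 126) (.e (nat_lit 573444) (nat_lit 0) .nil))))))) (.g (nat_lit 5) .nil .nil))) 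
(.lf (nat_lit 98251) (.g (nat_lit 1374) (.e (nat_lit 3062) (nat_lit 190) (.e (nat_lit 475157) (nat_lit 21) (.e (nat_lit 7454) (nat_lit 396) (.e (nat_lit 1209) (nat_lit 89) (.e (nat_lit 81664) (nat_lit 37) (.e (nat_lit 180268) (nat_lit 24) (.e (nat_lit 688139) (nat_lit 5) .nil))))))) (.g (nat_lit 4) .nil .nil)))) (.nd (nat_lit 6) 
(.lf (nat_lit 98219) (.g (nat_lit 3889) (.e (nat_lit 3044) (nat_lit 189) (.e (nat_lit 466977) (nat_lit 22) (.e (nat_lit 196630) (nat_lit 9) (.e (nat_lit 1401) (nat_lit 106) (.e (nat_lit 319531) (nat_lit 16) (.e (nat_lit 286733) (nat_lit 2) (.e (nat_lit 90128) (nat_lit 9) .nil))))))) (.g (nat_lit 6) .nil .nil))) 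
(.lf (nat_lit 98283) (.g (nat_lit 2164) (.e (nat_lit 3064) (nat_lit 190) (.e (nat_lit 475185) (nat_lit 29) (.e (nat_lit 557109) (nat_lit 15) (.e (nat_lit 188452) (nat_lit 23) (.e (nat_lit 204817) (nat_lit 17) .nil))))) .nil)))) (.nd (nat_lit 5) (.nd (nat_lit 6) 
(.lf (nat_lit 98203) (.g (nat_lit 2617) (.e (nat_lit 3027) (nat_lit 187) (.e (nat_lit 450564) (nat_lit 0) (.e (nat_lit 6792) (nat_lit 365) (.e (nat_lit 1221) (nat_lit 90) (.e (nat_lit 81947) (nat_lit 20) (.e (nat_lit 1886) (nat_lit 127) (.e (nat_lit 581636) (nat_lit 0) .nil))))))) (.g (nat_lit 5) .nil .nil))) 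
(.lf (nat_lit 98267) (.g (nat_lit 3391) (.e (nat_lit 3062) (nat_lit 190) (.e (nat_lit 475193) (nat_lit 38) (.e (nat_lit 688171) (nat_lit 15) (.e (nat_lit 57478) (nat_lit 28) (.e (nat_lit 557109) (nat_lit 15) (.e (nat_lit 188461) (nat_lit 26) (.e (nat_lit 261888) (nat_lit 0) .nil))))))) (.g (nat_lit 6) .nil .nil)))) (.nd (nat_lit 6) 
(.lf (nat_lit 98235) (.g (nat_lit 839) (.e (nat_lit 3057) (nat_lit 190) (.e (nat_lit 475185) (nat_lit 29) (.e (nat_lit 557107) (nat_lit 15) .nil))) .nil)) 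
(.lf (nat_lit 98299) (.g (nat_lit 1943) (.e (nat_lit 3066) (nat_lit 190) (.e (nat_lit 475184) (nat_lit 29) (.e (nat_lit 557109) (nat_lit 15) (.e (nat_lit 188458) (nat_lit 25) (.e (nat_lit 245789) (nat_lit 12) .nil))))) .nil)))))) (.nd (nat_lit 3) (.nd (nat_lit 4) (.nd (nat_lit 5) (.nd (nat_lit 6) 
(.lf (nat_lit 98183) (.g (nat_lit 304) (.e (nat_lit 3022) (nat_lit 187) (.e (nat_lit 450569) (nat_lit 0) (.e (nat_lit 5095) (nat_lit 292) .nil))) .nil)) 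
(.lf (nat_lit 98247) (.g (nat_lit 3120) (.e (nat_lit 3061) (nat_lit 190) (.e (nat_lit 475185) (nat_lit 29) (.e (nat_lit 557100) (nat_lit 13) (.e (nat_lit 172113) (nat_lit 10) .nil)))) .nil))) (.nd (nat_lit 6) 
(.lf (nat_lit 98215) (.g (nat_lit 2438) (.e (nat_lit 3038) (nat_lit 188) (.e (nat_lit 458774) (nat_lit 18) (.e (nat_lit 5939) (nat_lit 322) (.e (nat_lit 57375) (nat_lit 2) (.e (nat_lit 90177) (nat_lit 15) .nil))))) .nil)) 
(.lf (nat_lit 98279) (.g (nat_lit 2853) (.e (nat_lit 3064) (nat_lit 190) (.e (nat_lit 475185) (nat_lit 29) (.e (nat_lit 557100) (nat_lit 13) (.e (nat_lit 172113) (nat_lit 10) .nil)))) .nil)))) (.nd (nat_lit 5) (.nd (nat_lit 6) 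
(.lf (nat_lit 98199) (.g (nat_lit 1793) (.e (nat_lit 3027) (nat_lit 187) (.e (nat_lit 450564) (nat_lit 0) (.e (nat_lit 6792) (nat_lit 365) (.e (nat_lit 1219) (nat_lit 90) (.e (nat_lit 81943) (nat_lit 20) (.e (nat_lit 1885) (nat_lit 127) (.e (nat_lit 581636) (nat_lit 0) .nil))))))) (.g (nat_lit 5) .nil .nil))) 
(.lf (nat_lit 98263) (.g (nat_lit 3248) (.e (nat_lit 3062) (nat_lit 190) (.e (nat_lit 475193) (nat_lit 38) (.e (nat_lit 688166) (nat_lit 15) (.e (nat_lit 57480) (nat_lit 28) (.e (nat_lit 557109) (nat_lit 15) (.e (nat_lit 188461) (nat_lit 26) (.e (nat_lit 261888) (nat_lit 0) .nil))))))) (.g (nat_lit 6) .nil .nil)))) (.nd (nat_lit 6) 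
(.lf (nat_lit 98231) (.g (nat_lit 3403) (.e (nat_lit 3055) (nat_lit 190) (.e (nat_lit 475185) (nat_lit 29) (.e (nat_lit 557109) (nat_lit 15) (.e (nat_lit 188452) (nat_lit 23) (.e (nat_lit 204816) (nat_lit 17) .nil))))) .nil)) 
(.lf (nat_lit 98295) (.g (nat_lit 395) (.e (nat_lit 3065) (nat_lit 190) (.e (nat_lit 475185) (nat_lit 29) (.e (nat_lit 557109) (nat_lit 15) .nil))) .nil))))) (.nd (nat_lit 4) (.nd (nat_lit 5) (.nd (nat_lit 6) 
(.lf (nat_lit 98191) (.g (nat_lit 1174) (.e (nat_lit 3026) (nat_lit 187) (.e (nat_lit 450605) (nat_lit 27) (.e (nat_lit 745476) (nat_lit 0) (.e (nat_lit 1589) (nat_lit 111) (.e (nat_lit 368384) (nat_lit 10) (.e (nat_lit 573444) (nat_lit 0) .nil)))))) (.g (nat_lit 4) .nil .nil))) 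
(.lf (nat_lit 98255) (.g (nat_lit 1671) (.e (nat_lit 3062) (nat_lit 190) (.e (nat_lit 475183) (nat_lit 29) (.e (nat_lit 557108) (nat_lit 15) (.e (nat_lit 188449) (nat_lit 22) .nil)))) .nil))) (.nd (nat_lit 6) 
(.lf (nat_lit 98223) (.g (nat_lit 2078) (.e (nat_lit 3055) (nat_lit 190) (.e (nat_lit 475185) (nat_lit 29) (.e (nat_lit 557101) (nat_lit 13) (.e (nat_lit 172097) (nat_lit 9) (.e (nat_lit 426140) (nat_lit 3) .nil))))) .nil)) 
(.lf (nat_lit 98287) (.g (nat_lit 2934) (.e (nat_lit 3064) (nat_lit 190) (.e (nat_lit 475185) (nat_lit 29) (.e (nat_lit 557109) (nat_lit 15) (.e (nat_lit 188452) (nat_lit 23) (.e (nat_lit 204830) (nat_lit 18) .nil))))) .nil)))) (.nd (nat_lit 5) (.nd (nat_lit 6) 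
(.lf (nat_lit 98207) (.g (nat_lit 2416) (.e (nat_lit 3029) (nat_lit 188) (.e (nat_lit 458774) (nat_lit 18) (.e (nat_lit 5939) (nat_lit 322) (.e (nat_lit 57375) (nat_lit 2) (.e (nat_lit 90177) (nat_lit 15) .nil))))) .nil)) 
(.lf (nat_lit 98271) (.g (nat_lit 2334) (.e (nat_lit 3062) (nat_lit 190) (.e (nat_lit 475212) (nat_lit 42) (.e (nat_lit 720952) (nat_lit 24) (.e (nat_lit 106534) (nat_lit 11) (.e (nat_lit 16425) (nat_lit 7) (.e (nat_lit 409623) (nat_lit 10) (.e (nat_lit 5664) (nat_lit 312) .nil))))))) (.g (nat_lit 6) .nil .nil)))) (.nd (nat_lit 6) 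
(.lf (nat_lit 98239) (.g (nat_lit 3008) (.e (nat_lit 3060) (nat_lit 190) (.e (nat_lit 475185) (nat_lit 29) (.e (nat_lit 557100) (nat_lit 13) (.e (nat_lit 172113) (nat_lit 10) .nil)))) .nil)) 
(.lf (nat_lit 98303) (.g (nat_lit 1789) (.e (nat_lit 3067) (nat_lit 190) (.e (nat_lit 475142) (nat_lit 8) (.e (nat_lit 1638) (nat_lit 114) (.e (nat_lit 385093) (nat_lit 49) (.e (nat_lit 778323) (nat_lit 5) (.e (nat_lit 73782) (nat_lit 32) .nil)))))) (.g (nat_lit 4) .nil .nil))))))))))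

noncomputable def tv1349 : DT := (.nd (nat_lit 0) (.nd (nat_lit 1) (.nd (nat_lit 2) (.nd (nat_lit 3) (.nd (nat_lit 4) (.nd (nat_lit 5) 
(.lf (nat_lit 98304) (.g (nat_lit 2415) (.e (nat_lit 3067) (nat_lit 190) (.e (nat_lit 475143) (nat_lit 8) (.e (nat_lit 1638) (nat_lit 114) (.e (nat_lit 385093) (nat_lit 49) (.e (nat_lit 778323) (nat_lit 5) (.e (nat_lit 73781) (nat_lit 32) .nil)))))) (.g (nat_lit 5) .nil .nil))) 
(.lf (nat_lit 98336) (.g (nat_lit 2097) (.e (nat_lit 3067) (nat_lit 190) (.e (nat_lit 475193) (nat_lit 38) (.e (nat_lit 688166) (nat_lit 15) (.e (nat_lit 57477) (nat_lit 28) (.e (nat_lit 557107) (nat_lit 15) (.e (nat_lit 188459) (nat_lit 26) (.e (nat_lit 253953) (nat_lit 0) .nil))))))) (.g (nat_lit 6) .nil .nil)))) (.nd (nat_lit 5) 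
(.lf (nat_lit 98320) (.g (nat_lit 1705) (.e (nat_lit 3067) (nat_lit 190) (.e (nat_lit 475184) (nat_lit 29) (.e (nat_lit 557109) (nat_lit 15) (.e (nat_lit 188458) (nat_lit 25) (.e (nat_lit 245784) (nat_lit 9) .nil))))) .nil)) 
(.lf (nat_lit 98352) (.g (nat_lit 2251) (.e (nat_lit 3067) (nat_lit 190) (.e (nat_lit 475193) (nat_lit 38) (.e (nat_lit 688168) (nat_lit 15) (.e (nat_lit 57476) (nat_lit 28) (.e (nat_lit 557107) (nat_lit 15) (.e (nat_lit 188459) (nat_lit 26) (.e (nat_lit 253957) (nat_lit 0) .nil))))))) (.g (nat_lit 5) .nil .nil))))) (.nd (nat_lit 4) (.nd (nat_lit 5) 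
(.lf (nat_lit 98312) (.g (nat_lit 2005) (.e (nat_lit 3067) (nat_lit 190) (.e (nat_lit 475179) (nat_lit 24) (.e (nat_lit 516176) (nat_lit 14) (.e (nat_lit 466954) (nat_lit 11) (.e (nat_lit 335986) (nat_lit 1) .nil))))) .nil)) 
(.lf (nat_lit 98344) (.g (nat_lit 2074) (.e (nat_lit 3067) (nat_lit 190) (.e (nat_lit 475193) (nat_lit 38) (.e (nat_lit 688167) (nat_lit 15) (.e (nat_lit 57476) (nat_lit 28) (.e (nat_lit 557107) (nat_lit 15) (.e (nat_lit 188459) (nat_lit 26) (.e (nat_lit 253952) (nat_lit 0) .nil))))))) (.g (nat_lit 5) .nil .nil)))) (.nd (nat_lit 5) 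
(.lf (nat_lit 98328) (.g (nat_lit 4688) (.e (nat_lit 3067) (nat_lit 190) (.e (nat_lit 475185) (nat_lit 29) (.e (nat_lit 557100) (nat_lit 13) (.e (nat_lit 172113) (nat_lit 10) (.e (nat_lit 434245) (nat_lit 28) (.e (nat_lit 573468) (nat_lit 10) (.e (nat_lit 8525) (nat_lit 205) .nil))))))) (.g (nat_lit 5) .nil .nil))) 
(.lf (nat_lit 98360) (.g (nat_lit 2661) (.e (nat_lit 3067) (nat_lit 190) (.e (nat_lit 475193) (nat_lit 38) (.e (nat_lit 688171) (nat_lit 15) (.e (nat_lit 57478) (nat_lit 28) (.e (nat_lit 557107) (nat_lit 15) (.e (nat_lit 188459) (nat_lit 26) (.e (nat_lit 253953) (nat_lit 0) .nil))))))) (.g (nat_lit 6) .nil .nil)))))) (.nd (nat_lit 3) (.nd (nat_lit 4) (.nd (nat_lit 5) 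
(.lf (nat_lit 98308) (.g (nat_lit 1845) (.e (nat_lit 3067) (nat_lit 190) (.e (nat_lit 475177) (nat_lit 24) (.e (nat_lit 516176) (nat_lit 14) (.e (nat_lit 466954) (nat_lit 11) (.e (nat_lit 335995) (nat_lit 1) .nil))))) .nil)) 
(.lf (nat_lit 98340) (.g (nat_lit 3045) (.e (nat_lit 3067) (nat_lit 190) (.e (nat_lit 475193) (nat_lit 38) (.e (nat_lit 688166) (nat_lit 15) (.e (nat_lit 57480) (nat_lit 28) (.e (nat_lit 557107) (nat_lit 15) (.e (nat_lit 188459) (nat_lit 26) (.e (nat_lit 253957) (nat_lit 0) .nil))))))) (.g (nat_lit 6) .nil .nil)))) (.nd (nat_lit 5) 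
(.lf (nat_lit 98324) (.g (nat_lit 2546) (.e (nat_lit 3067) (nat_lit 190) (.e (nat_lit 475185) (nat_lit 29) (.e (nat_lit 557100) (nat_lit 13) (.e (nat_lit 172097) (nat_lit 9) .nil)))) .nil)) 
(.lf (nat_lit 98356) (.g (nat_lit 2041) (.e (nat_lit 3067) (nat_lit 190) (.e (nat_lit 475193) (nat_lit 38) (.e (nat_lit 688170) (nat_lit 15) (.e (nat_lit 57478) (nat_lit 28) (.e (nat_lit 557107) (nat_lit 15) (.e (nat_lit 188459) (nat_lit 26) (.e (nat_lit 253952) (nat_lit 0) .nil))))))) (.g (nat_lit 4) .nil .nil))))) (.nd (nat_lit 4) (.nd (nat_lit 5) 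
(.lf (nat_lit 98316) (.g (nat_lit 2785) (.e (nat_lit 3067) (nat_lit 190) (.e (nat_lit 483072) (nat_lit 26) (.e (nat_lit 532543) (nat_lit 10) (.e (nat_lit 344117) (nat_lit 21) (.e (nat_lit 516130) (nat_lit 3) (.e (nat_lit 221211) (nat_lit 22) (.e (nat_lit 196614) (nat_lit 0) .nil))))))) (.g (nat_lit 6) .nil .nil))) 
(.lf (nat_lit 98348) (.g (nat_lit 1769) (.e (nat_lit 3067) (nat_lit 190) (.e (nat_lit 475193) (nat_lit 38) (.e (nat_lit 688167) (nat_lit 15) (.e (nat_lit 57478) (nat_lit 28) (.e (nat_lit 557107) (nat_lit 15) (.e (nat_lit 188459) (nat_lit 26) (.e (nat_lit 253953) (nat_lit 0) .nil))))))) (.g (nat_lit 4) .nil .nil)))) (.nd (nat_lit 5) 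
(.lf (nat_lit 98332) (.g (nat_lit 1732) (.e (nat_lit 3067) (nat_lit 190) (.e (nat_lit 475185) (nat_lit 29) (.e (nat_lit 557101) (nat_lit 13) (.e (nat_lit 172115) (nat_lit 10) (.e (nat_lit 434231) (nat_lit 23) .nil))))) .nil)) 
(.lf (nat_lit 98364) (.g (nat_lit 2648) (.e (nat_lit 3067) (nat_lit 190) (.e (nat_lit 475193) (nat_lit 38) (.e (nat_lit 688171) (nat_lit 15) (.e (nat_lit 57480) (nat_lit 28) (.e (nat_lit 557107) (nat_lit 15) (.e (nat_lit 188459) (nat_lit 26) (.e (nat_lit 253957) (nat_lit 0) .nil))))))) (.g (nat_lit 5) .nil .nil))))))) (.nd (nat_lit 2) (.nd (nat_lit 3) (.nd (nat_lit 4) (.nd (nat_lit 5) 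
(.lf (nat_lit 98306) (.g (nat_lit 1781) (.e (nat_lit 3067) (nat_lit 190) (.e (nat_lit 475177) (nat_lit 24) (.e (nat_lit 516174) (nat_lit 14) (.e (nat_lit 466954) (nat_lit 11) (.e (nat_lit 335988) (nat_lit 1) .nil))))) .nil)) 
(.lf (nat_lit 98338) (.g (nat_lit 2625) (.e (nat_lit 3067) (nat_lit 190) (.e (nat_lit 475193) (nat_lit 38) (.e (nat_lit 688166) (nat_lit 15) (.e (nat_lit 57480) (nat_lit 28) (.e (nat_lit 557107) (nat_lit 15) (.e (nat_lit 188459) (nat_lit 26) (.e (nat_lit 253952) (nat_lit 0) .nil))))))) (.g (nat_lit 6) .nil .nil)))) (.nd (nat_lit 5) 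
(.lf (nat_lit 98322) (.g (nat_lit 1899) (.e (nat_lit 3067) (nat_lit 190) (.e (nat_lit 475184) (nat_lit 29) (.e (nat_lit 557109) (nat_lit 15) (.e (nat_lit 188458) (nat_lit 25) (.e (nat_lit 245789) (nat_lit 12) (.e (nat_lit 57751) (nat_lit 201) .nil)))))) (.g (nat_lit 4) .nil .nil))) 
(.lf (nat_lit 98354) (.g (nat_lit 2605) (.e (nat_lit 3067) (nat_lit 190) (.e (nat_lit 475193) (nat_lit 38) (.e (nat_lit 688168) (nat_lit 15) (.e (nat_lit 57478) (nat_lit 28) (.e (nat_lit 557107) (nat_lit 15) (.e (nat_lit 188459) (nat_lit 26) (.e (nat_lit 253958) (nat_lit 0) .nil))))))) (.g (nat_lit 6) .nil .nil))))) (.nd (nat_lit 4) (.nd (nat_lit 5) 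
(.lf (nat_lit 98314) (.g (nat_lit 2101) (.e (nat_lit 3067) (nat_lit 190) (.e (nat_lit 475179) (nat_lit 24) (.e (nat_lit 516176) (nat_lit 14) (.e (nat_lit 466954) (nat_lit 11) (.e (nat_lit 335995) (nat_lit 1) .nil))))) .nil)) 
(.lf (nat_lit 98346) (.g (nat_lit 1640) (.e (nat_lit 3067) (nat_lit 190) (.e (nat_lit 475193) (nat_lit 38) (.e (nat_lit 688167) (nat_lit 15) (.e (nat_lit 57476) (nat_lit 28) (.e (nat_lit 557107) (nat_lit 15) (.e (nat_lit 188459) (nat_lit 26) (.e (nat_lit 253958) (nat_lit 0) .nil))))))) (.g (nat_lit 5) .nil .nil)))) (.nd (nat_lit 5) 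
(.lf (nat_lit 98330) (.g (nat_lit 4463) (.e (nat_lit 3067) (nat_lit 190) (.e (nat_lit 475185) (nat_lit 29) (.e (nat_lit 557100) (nat_lit 13) (.e (nat_lit 172113) (nat_lit 10) (.e (nat_lit 434248) (nat_lit 28) (.e (nat_lit 573468) (nat_lit 10) (.e (nat_lit 8525) (nat_lit 205) .nil))))))) (.g (nat_lit 5) .nil .nil))) 
(.lf (nat_lit 98362) (.g (nat_lit 3040) (.e (nat_lit 3067) (nat_lit 190) (.e (nat_lit 475193) (nat_lit 38) (.e (nat_lit 688171) (nat_lit 15) (.e (nat_lit 57478) (nat_lit 28) (.e (nat_lit 557109) (nat_lit 15) (.e (nat_lit 188460) (nat_lit 26) (.e (nat_lit 253952) (nat_lit 0) .nil))))))) (.g (nat_lit 5) .nil .nil)))))) (.nd (nat_lit 3) (.nd (nat_lit 4) (.nd (nat_lit 5) 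
(.lf (nat_lit 98310) (.g (nat_lit 2259) (.e (nat_lit 3067) (nat_lit 190) (.e (nat_lit 475179) (nat_lit 24) (.e (nat_lit 516174) (nat_lit 14) (.e (nat_lit 466954) (nat_lit 11) (.e (nat_lit 335986) (nat_lit 1) .nil))))) .nil)) 
(.lf (nat_lit 98342) (.g (nat_lit 3220) (.e (nat_lit 3067) (nat_lit 190) (.e (nat_lit 475193) (nat_lit 38) (.e (nat_lit 688166) (nat_lit 15) (.e (nat_lit 57480) (nat_lit 28) (.e (nat_lit 557109) (nat_lit 15) (.e (nat_lit 188460) (nat_lit 26) (.e (nat_lit 253952) (nat_lit 0) .nil))))))) (.g (nat_lit 5) .nil .nil)))) (.nd (nat_lit 5) 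
(.lf (nat_lit 98326) (.g (nat_lit 2308) (.e (nat_lit 3067) (nat_lit 190) (.e (nat_lit 475185) (nat_lit 29) (.e (nat_lit 557100) (nat_lit 13) (.e (nat_lit 172113) (nat_lit 10) .nil)))) .nil)) 
(.lf (nat_lit 98358) (.g (nat_lit 2463) (.e (nat_lit 3067) (nat_lit 190) (.e (nat_lit 475193) (nat_lit 38) (.e (nat_lit 688170) (nat_lit 15) (.e (nat_lit 57478) (nat_lit 28) (.e (nat_lit 557107) (nat_lit 15) (.e (nat_lit 188459) (nat_lit 26) (.e (nat_lit 253957) (nat_lit 0) .nil))))))) (.g (nat_lit 5) .nil .nil))))) (.nd (nat_lit 4) (.nd (nat_lit 5) 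
(.lf (nat_lit 98318) (.g (nat_lit 2874) (.e (nat_lit 3067) (nat_lit 190) (.e (nat_lit 483072) (nat_lit 26) (.e (nat_lit 532543) (nat_lit 10) (.e (nat_lit 344117) (nat_lit 21) (.e (nat_lit 516130) (nat_lit 3) (.e (nat_lit 221212) (nat_lit 22) (.e (nat_lit 196608) (nat_lit 0) .nil))))))) (.g (nat_lit 6) .nil .nil))) 
(.lf (nat_lit 98350) (.g (nat_lit 1831) (.e (nat_lit 3067) (nat_lit 190) (.e (nat_lit 475193) (nat_lit 38) (.e (nat_lit 688168) (nat_lit 15) (.e (nat_lit 57476) (nat_lit 28) (.e (nat_lit 557107) (nat_lit 15) (.e (nat_lit 188459) (nat_lit 26) (.e (nat_lit 253952) (nat_lit 0) .nil))))))) (.g (nat_lit 5) .nil .nil)))) (.nd (nat_lit 5) 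
(.lf (nat_lit 98334) (.g (nat_lit 3033) (.e (nat_lit 3067) (nat_lit 190) (.e (nat_lit 475185) (nat_lit 29) (.e (nat_lit 557109) (nat_lit 15) (.e (nat_lit 188452) (nat_lit 23) (.e (nat_lit 212736) (nat_lit 17) .nil))))) .nil)) 
(.lf (nat_lit 98366) (.g (nat_lit 1863) (.e (nat_lit 3067) (nat_lit 190) (.e (nat_lit 475193) (nat_lit 38) (.e (nat_lit 688177) (nat_lit 16) (.e (nat_lit 65583) (nat_lit 7) (.e (nat_lit 319530) (nat_lit 16) (.e (nat_lit 286728) (nat_lit 0) (.e (nat_lit 6676) (nat_lit 357) .nil))))))) (.g (nat_lit 4) .nil .nil)))))))) 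
(.nd (nat_lit 1) (.nd (nat_lit 2) (.nd (nat_lit 3) (.nd (nat_lit 4) (.nd (nat_lit 5) 
(.lf (nat_lit 98305) (.g (nat_lit 1645) (.e (nat_lit 3067) (nat_lit 190) (.e (nat_lit 475177) (nat_lit 24) (.e (nat_lit 516174) (nat_lit 14) (.e (nat_lit 466954) (nat_lit 11) (.e (nat_lit 335986) (nat_lit 1) .nil))))) .nil)) 
(.lf (nat_lit 98337) (.g (nat_lit 1774) (.e (nat_lit 3067) (nat_lit 190) (.e (nat_lit 475193) (nat_lit 38) (.e (nat_lit 688166) (nat_lit 15) (.e (nat_lit 57477) (nat_lit 28) (.e (nat_lit 557107) (nat_lit 15) (.e (nat_lit 188459) (nat_lit 26) (.e (nat_lit 253958) (nat_lit 0) .nil))))))) (.g (nat_lit 5) .nil .nil)))) (.nd (nat_lit 5) 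
(.lf (nat_lit 98321) (.g (nat_lit 2042) (.e (nat_lit 3067) (nat_lit 190) (.e (nat_lit 475184) (nat_lit 29) (.e (nat_lit 557109) (nat_lit 15) (.e (nat_lit 188458) (nat_lit 25) (.e (nat_lit 245784) (nat_lit 9) (.e (nat_lit 982) (nat_lit 81) (.e (nat_lit 6681) (nat_lit 357) .nil))))))) (.g (nat_lit 4) .nil .nil))) 
(.lf (nat_lit 98353) (.g (nat_lit 2926) (.e (nat_lit 3067) (nat_lit 190) (.e (nat_lit 475193) (nat_lit 38) (.e (nat_lit 688168) (nat_lit 15) (.e (nat_lit 57478) (nat_lit 28) (.e (nat_lit 557107) (nat_lit 15) (.e (nat_lit 188459) (nat_lit 26) (.e (nat_lit 253953) (nat_lit 0) .nil))))))) (.g (nat_lit 6) .nil .nil))))) (.nd (nat_lit 4) (.nd (nat_lit 5) 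
(.lf (nat_lit 98313) (.g (nat_lit 2121) (.e (nat_lit 3067) (nat_lit 190) (.e (nat_lit 475179) (nat_lit 24) (.e (nat_lit 516176) (nat_lit 14) (.e (nat_lit 466954) (nat_lit 11) (.e (nat_lit 335988) (nat_lit 1) .nil))))) .nil)) 
(.lf (nat_lit 98345) (.g (nat_lit 1963) (.e (nat_lit 3067) (nat_lit 190) (.e (nat_lit 475193) (nat_lit 38) (.e (nat_lit 688167) (nat_lit 15) (.e (nat_lit 57476) (nat_lit 28) (.e (nat_lit 557107) (nat_lit 15) (.e (nat_lit 188459) (nat_lit 26) (.e (nat_lit 253953) (nat_lit 0) .nil))))))) (.g (nat_lit 5) .nil .nil)))) (.nd (nat_lit 5) 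
(.lf (nat_lit 98329) (.g (nat_lit 4770) (.e (nat_lit 3067) (nat_lit 190) (.e (nat_lit 475185) (nat_lit 29) (.e (nat_lit 557100) (nat_lit 13) (.e (nat_lit 172113) (nat_lit 10) (.e (nat_lit 434248) (nat_lit 28) (.e (nat_lit 573468) (nat_lit 10) (.e (nat_lit 8524) (nat_lit 205) .nil))))))) (.g (nat_lit 5) .nil .nil))) 
(.lf (nat_lit 98361) (.g (nat_lit 2340) (.e (nat_lit 3067) (nat_lit 190) (.e (nat_lit 475193) (nat_lit 38) (.e (nat_lit 688171) (nat_lit 15) (.e (nat_lit 57478) (nat_lit 28) (.e (nat_lit 557107) (nat_lit 15) (.e (nat_lit 188459) (nat_lit 26) (.e (nat_lit 253958) (nat_lit 0) .nil))))))) (.g (nat_lit 6) .nil .nil)))))) (.nd (nat_lit 3) (.nd (nat_lit 4) (.nd (nat_lit 5) 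
(.lf (nat_lit 98309) (.g (nat_lit 1998) (.e (nat_lit 3067) (nat_lit 190) (.e (nat_lit 475178) (nat_lit 24) (.e (nat_lit 516176) (nat_lit 14) (.e (nat_lit 466954) (nat_lit 11) (.e (nat_lit 335986) (nat_lit 1) .nil))))) .nil)) 
(.lf (nat_lit 98341) (.g (nat_lit 2191) (.e (nat_lit 3067) (nat_lit 190) (.e (nat_lit 475193) (nat_lit 38) (.e (nat_lit 688166) (nat_lit 15) (.e (nat_lit 57480) (nat_lit 28) (.e (nat_lit 557107) (nat_lit 15) (.e (nat_lit 188459) (nat_lit 26) (.e (nat_lit 253958) (nat_lit 0) .nil))))))) (.g (nat_lit 5) .nil .nil)))) (.nd (nat_lit 5) 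
(.lf (nat_lit 98325) (.g (nat_lit 3024) (.e (nat_lit 3067) (nat_lit 190) (.e (nat_lit 475185) (nat_lit 29) (.e (nat_lit 557100) (nat_lit 13) (.e (nat_lit 172106) (nat_lit 10) (.e (nat_lit 434244) (nat_lit 28) (.e (nat_lit 573468) (nat_lit 10) (.e (nat_lit 8524) (nat_lit 205) .nil))))))) (.g (nat_lit 4) .nil .nil))) 
(.lf (nat_lit 98357) (.g (nat_lit 1930) (.e (nat_lit 3067) (nat_lit 190) (.e (nat_lit 475193) (nat_lit 38) (.e (nat_lit 688170) (nat_lit 15) (.e (nat_lit 57478) (nat_lit 28) (.e (nat_lit 557107) (nat_lit 15) (.e (nat_lit 188459) (nat_lit 26) (.e (nat_lit 253953) (nat_lit 0) .nil))))))) (.g (nat_lit 4) .nil .nil))))) (.nd (nat_lit 4) (.nd (nat_lit 5) 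
(.lf (nat_lit 98317) (.g (nat_lit 2946) (.e (nat_lit 3067) (nat_lit 190) (.e (nat_lit 483072) (nat_lit 26) (.e (nat_lit 532543) (nat_lit 10) (.e (nat_lit 344117) (nat_lit 21) (.e (nat_lit 516130) (nat_lit 3) (.e (nat_lit 221211) (nat_lit 22) (.e (nat_lit 196616) (nat_lit 0) .nil))))))) (.g (nat_lit 6) .nil .nil))) 
(.lf (nat_lit 98349) (.g (nat_lit 2302) (.e (nat_lit 3067) (nat_lit 190) (.e (nat_lit 475193) (nat_lit 38) (.e (nat_lit 688167) (nat_lit 15) (.e (nat_lit 57478) (nat_lit 28) (.e (nat_lit 557107) (nat_lit 15) (.e (nat_lit 188459) (nat_lit 26) (.e (nat_lit 253957) (nat_lit 0) .nil))))))) (.g (nat_lit 5) .nil .nil)))) (.nd (nat_lit 5) 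
(.lf (nat_lit 98333) (.g (nat_lit 907) (.e (nat_lit 3067) (nat_lit 190) (.e (nat_lit 475185) (nat_lit 29) (.e (nat_lit 557105) (nat_lit 14) (.e (nat_lit 188160) (nat_lit 32) .nil)))) .nil)) 
(.lf (nat_lit 98365) (.g (nat_lit 1115) (.e (nat_lit 3067) (nat_lit 190) (.e (nat_lit 475193) (nat_lit 38) (.e (nat_lit 688177) (nat_lit 16) (.e (nat_lit 65583) (nat_lit 7) .nil)))) .nil)))))) (.nd (nat_lit 2) (.nd (nat_lit 3) (.nd (nat_lit 4) (.nd (nat_lit 5) 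
(.lf (nat_lit 98307) (.g (nat_lit 1742) (.e (nat_lit 3067) (nat_lit 190) (.e (nat_lit 475177) (nat_lit 24) (.e (nat_lit 516174) (nat_lit 14) (.e (nat_lit 466954) (nat_lit 11) (.e (nat_lit 335995) (nat_lit 1) .nil))))) .nil)) 
(.lf (nat_lit 98339) (.g (nat_lit 2514) (.e (nat_lit 3067) (nat_lit 190) (.e (nat_lit 475193) (nat_lit 38) (.e (nat_lit 688166) (nat_lit 15) (.e (nat_lit 57480) (nat_lit 28) (.e (nat_lit 557107) (nat_lit 15) (.e (nat_lit 188459) (nat_lit 26) (.e (nat_lit 253953) (nat_lit 0) .nil))))))) (.g (nat_lit 5) .nil .nil)))) (.nd (nat_lit 5) 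
(.lf (nat_lit 98323) (.g (nat_lit 2242) (.e (nat_lit 3067) (nat_lit 190) (.e (nat_lit 475185) (nat_lit 29) (.e (nat_lit 557098) (nat_lit 13) (.e (nat_lit 172097) (nat_lit 9) (.e (nat_lit 426140) (nat_lit 3) .nil))))) .nil)) 
(.lf (nat_lit 98355) (.g (nat_lit 2815) (.e (nat_lit 3067) (nat_lit 190) (.e (nat_lit 475193) (nat_lit 38) (.e (nat_lit 688168) (nat_lit 15) (.e (nat_lit 57478) (nat_lit 28) (.e (nat_lit 557109) (nat_lit 15) (.e (nat_lit 188460) (nat_lit 26) (.e (nat_lit 253952) (nat_lit 0) .nil))))))) (.g (nat_lit 5) .nil .nil))))) (.nd (nat_lit 4) (.nd (nat_lit 5) 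
(.lf (nat_lit 98315) (.g (nat_lit 2392) (.e (nat_lit 3067) (nat_lit 190) (.e (nat_lit 483072) (nat_lit 26) (.e (nat_lit 532543) (nat_lit 10) (.e (nat_lit 344117) (nat_lit 21) (.e (nat_lit 516123) (nat_lit 2) (.e (nat_lit 213013) (nat_lit 9) (.e (nat_lit 2666) (nat_lit 167) (.e (nat_lit 196614) (nat_lit 0) .nil)))))))) (.g (nat_lit 5) .nil .nil))) 
(.lf (nat_lit 98347) (.g (nat_lit 1880) (.e (nat_lit 3067) (nat_lit 190) (.e (nat_lit 475193) (nat_lit 38) (.e (nat_lit 688167) (nat_lit 15) (.e (nat_lit 57478) (nat_lit 28) (.e (nat_lit 557107) (nat_lit 15) (.e (nat_lit 188459) (nat_lit 26) (.e (nat_lit 253952) (nat_lit 0) .nil))))))) (.g (nat_lit 5) .nil .nil)))) (.nd (nat_lit 5) 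
(.lf (nat_lit 98331) (.g (nat_lit 2596) (.e (nat_lit 3067) (nat_lit 190) (.e (nat_lit 475185) (nat_lit 29) (.e (nat_lit 557100) (nat_lit 13) (.e (nat_lit 172115) (nat_lit 10) .nil)))) .nil)) 
(.lf (nat_lit 98363) (.g (nat_lit 2959) (.e (nat_lit 3067) (nat_lit 190) (.e (nat_lit 475193) (nat_lit 38) (.e (nat_lit 688171) (nat_lit 15) (.e (nat_lit 57478) (nat_lit 28) (.e (nat_lit 557109) (nat_lit 15) (.e (nat_lit 188460) (nat_lit 26) (.e (nat_lit 253957) (nat_lit 0) .nil))))))) (.g (nat_lit 5) .nil .nil)))))) (.nd (nat_lit 3) (.nd (nat_lit 4) (.nd (nat_lit 5) 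
(.lf (nat_lit 98311) (.g (nat_lit 2351) (.e (nat_lit 3067) (nat_lit 190) (.e (nat_lit 475179) (nat_lit 24) (.e (nat_lit 516174) (nat_lit 14) (.e (nat_lit 466954) (nat_lit 11) (.e (nat_lit 335995) (nat_lit 1) .nil))))) .nil)) 
(.lf (nat_lit 98343) (.g (nat_lit 3570) (.e (nat_lit 3067) (nat_lit 190) (.e (nat_lit 475193) (nat_lit 38) (.e (nat_lit 688166) (nat_lit 15) (.e (nat_lit 57480) (nat_lit 28) (.e (nat_lit 557109) (nat_lit 15) (.e (nat_lit 188461) (nat_lit 26) (.e (nat_lit 253952) (nat_lit 0) .nil))))))) (.g (nat_lit 6) .nil .nil)))) (.nd (nat_lit 5) 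
(.lf (nat_lit 98327) (.g (nat_lit 4995) (.e (nat_lit 3067) (nat_lit 190) (.e (nat_lit 475185) (nat_lit 29) (.e (nat_lit 557100) (nat_lit 13) (.e (nat_lit 172113) (nat_lit 10) (.e (nat_lit 434245) (nat_lit 28) (.e (nat_lit 573468) (nat_lit 10) (.e (nat_lit 8524) (nat_lit 205) .nil))))))) (.g (nat_lit 6) .nil .nil))) 
(.lf (nat_lit 98359) (.g (nat_lit 2548) (.e (nat_lit 3067) (nat_lit 190) (.e (nat_lit 475193) (nat_lit 38) (.e (nat_lit 688170) (nat_lit 15) (.e (nat_lit 57480) (nat_lit 28) (.e (nat_lit 557107) (nat_lit 15) (.e (nat_lit 188459) (nat_lit 26) (.e (nat_lit 253957) (nat_lit 0) .nil))))))) (.g (nat_lit 5) .nil .nil))))) (.nd (nat_lit 4) (.nd (nat_lit 5) 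
(.lf (nat_lit 98319) (.g (nat_lit 1190) (.e (nat_lit 3067) (nat_lit 190) (.e (nat_lit 475183) (nat_lit 29) (.e (nat_lit 557109) (nat_lit 15) (.e (nat_lit 188452) (nat_lit 23) .nil)))) .nil)) 
(.lf (nat_lit 98351) (.g (nat_lit 1720) (.e (nat_lit 3067) (nat_lit 190) (.e (nat_lit 475193) (nat_lit 38) (.e (nat_lit 688168) (nat_lit 15) (.e (nat_lit 57476) (nat_lit 28) (.e (nat_lit 557107) (nat_lit 15) (.e (nat_lit 188459) (nat_lit 26) (.e (nat_lit 253953) (nat_lit 0) .nil))))))) (.g (nat_lit 5) .nil .nil)))) (.nd (nat_lit 5) 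
(.lf (nat_lit 98335) (.g (nat_lit 2208) (.e (nat_lit 3067) (nat_lit 190) (.e (nat_lit 475193) (nat_lit 38) (.e (nat_lit 688166) (nat_lit 15) (.e (nat_lit 57477) (nat_lit 28) (.e (nat_lit 557107) (nat_lit 15) (.e (nat_lit 188459) (nat_lit 26) (.e (nat_lit 253952) (nat_lit 0) .nil))))))) (.g (nat_lit 6) .nil .nil))) 
(.lf (nat_lit 98367) (.g (nat_lit 2413) (.e (nat_lit 3067) (nat_lit 190) (.e (nat_lit 475193) (nat_lit 38) (.e (nat_lit 688177) (nat_lit 16) (.e (nat_lit 65586) (nat_lit 7) (.e (nat_lit 319531) (nat_lit 16) (.e (nat_lit 286720) (nat_lit 0) (.e (nat_lit 6681) (nat_lit 357) .nil))))))) (.g (nat_lit 5) .nil .nil)))))))))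

noncomputable def tv1350 : DT := (.nd (nat_lit 0) (.nd (nat_lit 1) (.nd (nat_lit 2) (.nd (nat_lit 3) (.nd (nat_lit 4) (.nd (nat_lit 5) 
(.lf (nat_lit 98368) (.g (nat_lit 3216) (.e (nat_lit 3067) (nat_lit 190) (.e (nat_lit 475193) (nat_lit 38) (.e (nat_lit 688177) (nat_lit 16) (.e (nat_lit 65586) (nat_lit 7) (.e (nat_lit 319531) (nat_lit 16) (.e (nat_lit 286727) (nat_lit 0) (.e (nat_lit 6676) (nat_lit 357) .nil))))))) (.g (nat_lit 6) .nil .nil))) 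
(.lf (nat_lit 98400) (.g (nat_lit 1524) (.e (nat_lit 3071) (nat_lit 190) (.e (nat_lit 475185) (nat_lit 29) (.e (nat_lit 557109) (nat_lit 15) (.e (nat_lit 188450) (nat_lit 23) .nil)))) .nil))) (.nd (nat_lit 5) 
(.lf (nat_lit 98384) (.g (nat_lit 897) (.e (nat_lit 3069) (nat_lit 190) (.e (nat_lit 475210) (nat_lit 41) (.e (nat_lit 712745) (nat_lit 27) .nil))) .nil)) 
(.lf (nat_lit 98416) (.g (nat_lit 3274) (.e (nat_lit 3072) (nat_lit 190) (.e (nat_lit 475193) (nat_lit 38) (.e (nat_lit 688171) (nat_lit 15) (.e (nat_lit 57478) (nat_lit 28) (.e (nat_lit 557109) (nat_lit 15) (.e (nat_lit 188461) (nat_lit 26) (.e (nat_lit 261888) (nat_lit 0) .nil))))))) (.g (nat_lit 6) .nil .nil))))) (.nd (nat_lit 4) (.nd (nat_lit 5) 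
(.lf (nat_lit 98376) (.g (nat_lit 3281) (.e (nat_lit 3068) (nat_lit 190) (.e (nat_lit 475185) (nat_lit 29) (.e (nat_lit 557101) (nat_lit 13) (.e (nat_lit 172097) (nat_lit 9) (.e (nat_lit 426140) (nat_lit 3) (.e (nat_lit 204821) (nat_lit 17) (.e (nat_lit 7936) (nat_lit 357) .nil))))))) (.g (nat_lit 6) .nil .nil))) 
(.lf (nat_lit 98408) (.g (nat_lit 2313) (.e (nat_lit 3072) (nat_lit 190) (.e (nat_lit 475179) (nat_lit 24) (.e (nat_lit 516176) (nat_lit 14) (.e (nat_lit 466954) (nat_lit 11) (.e (nat_lit 335988) (nat_lit 1) .nil))))) .nil))) (.nd (nat_lit 5) 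
(.lf (nat_lit 98392) (.g (nat_lit 3259) (.e (nat_lit 3071) (nat_lit 190) (.e (nat_lit 475185) (nat_lit 29) (.e (nat_lit 557098) (nat_lit 13) (.e (nat_lit 172115) (nat_lit 10) (.e (nat_lit 434227) (nat_lit 20) .nil))))) .nil)) 
(.lf (nat_lit 98424) (.g (nat_lit 3100) (.e (nat_lit 3074) (nat_lit 190) (.e (nat_lit 475185) (nat_lit 29) (.e (nat_lit 557109) (nat_lit 15) (.e (nat_lit 188452) (nat_lit 23) (.e (nat_lit 204821) (nat_lit 17) .nil))))) .nil))))) (.nd (nat_lit 3) (.nd (nat_lit 4) (.nd (nat_lit 5) 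
(.lf (nat_lit 98372) (.g (nat_lit 1210) (.e (nat_lit 3067) (nat_lit 190) (.e (nat_lit 475214) (nat_lit 42) (.e (nat_lit 720955) (nat_lit 25) .nil))) .nil)) 
(.lf (nat_lit 98404) (.g (nat_lit 1555) (.e (nat_lit 3071) (nat_lit 190) (.e (nat_lit 475193) (nat_lit 38) (.e (nat_lit 688171) (nat_lit 15) (.e (nat_lit 57478) (nat_lit 28) (.e (nat_lit 557107) (nat_lit 15) (.e (nat_lit 188459) (nat_lit 26) (.e (nat_lit 261888) (nat_lit 0) .nil))))))) (.g (nat_lit 4) .nil .nil)))) (.nd (nat_lit 5) 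
(.lf (nat_lit 98388) (.g (nat_lit 2171) (.e (nat_lit 3071) (nat_lit 190) (.e (nat_lit 475179) (nat_lit 24) (.e (nat_lit 516176) (nat_lit 14) (.e (nat_lit 466954) (nat_lit 11) (.e (nat_lit 335986) (nat_lit 1) .nil))))) .nil)) 
(.lf (nat_lit 98420) (.g (nat_lit 2678) (.e (nat_lit 3074) (nat_lit 190) (.e (nat_lit 475185) (nat_lit 29) (.e (nat_lit 557100) (nat_lit 13) (.e (nat_lit 172113) (nat_lit 10) .nil)))) .nil)))) (.nd (nat_lit 4) (.nd (nat_lit 5) 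
(.lf (nat_lit 98380) (.g (nat_lit 2735) (.e (nat_lit 3069) (nat_lit 190) (.e (nat_lit 475185) (nat_lit 29) (.e (nat_lit 557109) (nat_lit 15) (.e (nat_lit 188449) (nat_lit 22) (.e (nat_lit 196661) (nat_lit 12) .nil))))) .nil)) 
(.lf (nat_lit 98412) (.g (nat_lit 2743) (.e (nat_lit 3072) (nat_lit 190) (.e (nat_lit 475185) (nat_lit 29) (.e (nat_lit 557109) (nat_lit 15) (.e (nat_lit 188449) (nat_lit 22) (.e (nat_lit 196661) (nat_lit 12) .nil))))) .nil))) (.nd (nat_lit 5) 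
(.lf (nat_lit 98396) (.g (nat_lit 2605) (.e (nat_lit 3071) (nat_lit 190) (.e (nat_lit 475185) (nat_lit 29) (.e (nat_lit 557107) (nat_lit 15) (.e (nat_lit 188447) (nat_lit 22) (.e (nat_lit 196628) (nat_lit 9) (.e (nat_lit 970) (nat_lit 81) (.e (nat_lit 6618) (nat_lit 357) .nil))))))) (.g (nat_lit 4) .nil .nil))) 
(.lf (nat_lit 98428) (.g (nat_lit 1652) (.e (nat_lit 3077) (nat_lit 191) (.e (nat_lit 483365) (nat_lit 18) (.e (nat_lit 57655) (nat_lit 152) (.e (nat_lit 1206) (nat_lit 89) .nil)))) .nil)))))) (.nd (nat_lit 2) (.nd (nat_lit 3) (.nd (nat_lit 4) (.nd (nat_lit 5) 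
(.lf (nat_lit 98370) (.g (nat_lit 673) (.e (nat_lit 3067) (nat_lit 190) (.e (nat_lit 475212) (nat_lit 42) (.e (nat_lit 720956) (nat_lit 25) .nil))) .nil)) 
(.lf (nat_lit 98402) (.g (nat_lit 3409) (.e (nat_lit 3071) (nat_lit 190) (.e (nat_lit 475193) (nat_lit 38) (.e (nat_lit 688168) (nat_lit 15) (.e (nat_lit 57478) (nat_lit 28) (.e (nat_lit 557109) (nat_lit 15) (.e (nat_lit 188461) (nat_lit 26) (.e (nat_lit 261888) (nat_lit 0) .nil))))))) (.g (nat_lit 6) .nil .nil)))) (.nd (nat_lit 5) 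
(.lf (nat_lit 98386) (.g (nat_lit 2414) (.e (nat_lit 3070) (nat_lit 190) (.e (nat_lit 475179) (nat_lit 24) (.e (nat_lit 516176) (nat_lit 14) (.e (nat_lit 466954) (nat_lit 11) (.e (nat_lit 335988) (nat_lit 1) .nil))))) .nil)) 
(.lf (nat_lit 98418) (.g (nat_lit 3580) (.e (nat_lit 3074) (nat_lit 190) (.e (nat_lit 475184) (nat_lit 29) (.e (nat_lit 557109) (nat_lit 15) (.e (nat_lit 188452) (nat_lit 23) (.e (nat_lit 204817) (nat_lit 17) .nil))))) .nil)))) (.nd (nat_lit 4) (.nd (nat_lit 5) 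
(.lf (nat_lit 98378) (.g (nat_lit 3155) (.e (nat_lit 3068) (nat_lit 190) (.e (nat_lit 475185) (nat_lit 29) (.e (nat_lit 557109) (nat_lit 15) (.e (nat_lit 188452) (nat_lit 23) (.e (nat_lit 204821) (nat_lit 17) .nil))))) .nil)) 
(.lf (nat_lit 98410) (.g (nat_lit 1960) (.e (nat_lit 3072) (nat_lit 190) (.e (nat_lit 475185) (nat_lit 29) (.e (nat_lit 557101) (nat_lit 13) (.e (nat_lit 172115) (nat_lit 10) .nil)))) .nil))) (.nd (nat_lit 5) 
(.lf (nat_lit 98394) (.g (nat_lit 2405) (.e (nat_lit 3071) (nat_lit 190) (.e (nat_lit 475185) (nat_lit 29) (.e (nat_lit 557100) (nat_lit 13) (.e (nat_lit 172115) (nat_lit 10) .nil)))) .nil)) 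
(.lf (nat_lit 98426) (.g (nat_lit 1476) (.e (nat_lit 7936) (nat_lit 190) (.e (nat_lit 475185) (nat_lit 29) (.e (nat_lit 557107) (nat_lit 15) (.e (nat_lit 188450) (nat_lit 23) .nil)))) .nil))))) (.nd (nat_lit 3) (.nd (nat_lit 4) (.nd (nat_lit 5) 
(.lf (nat_lit 98374) (.g (nat_lit 2090) (.e (nat_lit 3067) (nat_lit 190) (.e (nat_lit 475214) (nat_lit 42) (.e (nat_lit 720956) (nat_lit 25) (.e (nat_lit 114711) (nat_lit 21) (.e (nat_lit 57653) (nat_lit 152) .nil))))) .nil)) 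
(.lf (nat_lit 98406) (.g (nat_lit 2442) (.e (nat_lit 3072) (nat_lit 190) (.e (nat_lit 475179) (nat_lit 24) (.e (nat_lit 516146) (nat_lit 9) (.e (nat_lit 426438) (nat_lit 18) .nil)))) .nil))) (.nd (nat_lit 5) 
(.lf (nat_lit 98390) (.g (nat_lit 2267) (.e (nat_lit 3071) (nat_lit 190) (.e (nat_lit 475179) (nat_lit 24) (.e (nat_lit 516176) (nat_lit 14) (.e (nat_lit 466954) (nat_lit 11) (.e (nat_lit 335995) (nat_lit 1) .nil))))) .nil)) 
(.lf (nat_lit 98422) (.g (nat_lit 2739) (.e (nat_lit 3074) (nat_lit 190) (.e (nat_lit 475185) (nat_lit 29) (.e (nat_lit 557109) (nat_lit 15) (.e (nat_lit 188449) (nat_lit 22) (.e (nat_lit 196661) (nat_lit 12) .nil))))) .nil)))) (.nd (nat_lit 4) (.nd (nat_lit 5) 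
(.lf (nat_lit 98382) (.g (nat_lit 3029) (.e (nat_lit 3069) (nat_lit 190) (.e (nat_lit 475185) (nat_lit 29) (.e (nat_lit 557109) (nat_lit 15) (.e (nat_lit 188452) (nat_lit 23) (.e (nat_lit 204817) (nat_lit 17) .nil))))) .nil)) 
(.lf (nat_lit 98414) (.g (nat_lit 3038) (.e (nat_lit 3072) (nat_lit 190) (.e (nat_lit 475185) (nat_lit 29) (.e (nat_lit 557109) (nat_lit 15) (.e (nat_lit 188452) (nat_lit 23) (.e (nat_lit 204817) (nat_lit 17) .nil))))) .nil))) (.nd (nat_lit 5) 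
(.lf (nat_lit 98398) (.g (nat_lit 3837) (.e (nat_lit 3071) (nat_lit 190) (.e (nat_lit 475185) (nat_lit 29) (.e (nat_lit 557109) (nat_lit 15) (.e (nat_lit 188449) (nat_lit 22) (.e (nat_lit 196628) (nat_lit 9) (.e (nat_lit 968) (nat_lit 81) (.e (nat_lit 6618) (nat_lit 357) .nil))))))) (.g (nat_lit 6) .nil .nil))) 
(.lf (nat_lit 98430) (.g (nat_lit 1991) (.e (nat_lit 3077) (nat_lit 191) (.e (nat_lit 483365) (nat_lit 18) (.e (nat_lit 57655) (nat_lit 152) (.e (nat_lit 1207) (nat_lit 89) (.e (nat_lit 73746) (nat_lit 3) (.e (nat_lit 516117) (nat_lit 1) (.e (nat_lit 164226) (nat_lit 181) (.e (nat_lit 2424) (nat_lit 157) .nil)))))))) (.g (nat_lit 4) .nil .nil)))))))) 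
(.nd (nat_lit 1) (.nd (nat_lit 2) (.nd (nat_lit 3) (.nd (nat_lit 4) (.nd (nat_lit 5) 
(.lf (nat_lit 98369) (.g (nat_lit 667) (.e (nat_lit 3067) (nat_lit 190) (.e (nat_lit 475212) (nat_lit 42) (.e (nat_lit 720955) (nat_lit 25) .nil))) .nil)) 
(.lf (nat_lit 98401) (.g (nat_lit 3582) (.e (nat_lit 3071) (nat_lit 190) (.e (nat_lit 475193) (nat_lit 38) (.e (nat_lit 688166) (nat_lit 15) (.e (nat_lit 57480) (nat_lit 28) (.e (nat_lit 557109) (nat_lit 15) (.e (nat_lit 188461) (nat_lit 26) (.e (nat_lit 261888) (nat_lit 0) .nil))))))) (.g (nat_lit 6) .nil .nil)))) (.nd (nat_lit 5) 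
(.lf (nat_lit 98385) (.g (nat_lit 2305) (.e (nat_lit 3069) (nat_lit 190) (.e (nat_lit 475210) (nat_lit 41) (.e (nat_lit 712745) (nat_lit 27) (.e (nat_lit 425984) (nat_lit 0) .nil)))) .nil)) 
(.lf (nat_lit 98417) (.g (nat_lit 2691) (.e (nat_lit 3073) (nat_lit 190) (.e (nat_lit 475185) (nat_lit 29) (.e (nat_lit 557100) (nat_lit 13) (.e (nat_lit 172113) (nat_lit 10) .nil)))) .nil)))) (.nd (nat_lit 4) (.nd (nat_lit 5) 
(.lf (nat_lit 98377) (.g (nat_lit 2082) (.e (nat_lit 3068) (nat_lit 190) (.e (nat_lit 475185) (nat_lit 29) (.e (nat_lit 557107) (nat_lit 15) (.e (nat_lit 188447) (nat_lit 22) .nil)))) .nil)) 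
(.lf (nat_lit 98409) (.g (nat_lit 2997) (.e (nat_lit 3072) (nat_lit 190) (.e (nat_lit 475185) (nat_lit 29) (.e (nat_lit 557100) (nat_lit 13) (.e (nat_lit 172113) (nat_lit 10) .nil)))) .nil))) (.nd (nat_lit 5) 
(.lf (nat_lit 98393) (.g (nat_lit 2385) (.e (nat_lit 3071) (nat_lit 190) (.e (nat_lit 475185) (nat_lit 29) (.e (nat_lit 557100) (nat_lit 13) (.e (nat_lit 172106) (nat_lit 10) (.e (nat_lit 434244) (nat_lit 28) (.e (nat_lit 573451) (nat_lit 9) (.e (nat_lit 11) (nat_lit 0) (.e (nat_lit 7304) (nat_lit 388) .nil)))))))) (.g (nat_lit 4) .nil .nil))) 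
(.lf (nat_lit 98425) (.g (nat_lit 1856) (.e (nat_lit 3074) (nat_lit 190) (.e (nat_lit 475210) (nat_lit 41) (.e (nat_lit 712722) (nat_lit 15) (.e (nat_lit 3302) (nat_lit 202) .nil)))) .nil))))) (.nd (nat_lit 3) (.nd (nat_lit 4) (.nd (nat_lit 5) 
(.lf (nat_lit 98373) (.g (nat_lit 912) (.e (nat_lit 3067) (nat_lit 190) (.e (nat_lit 475214) (nat_lit 42) (.e (nat_lit 720956) (nat_lit 25) .nil))) .nil)) 
(.lf (nat_lit 98405) (.g (nat_lit 3715) (.e (nat_lit 3071) (nat_lit 190) (.e (nat_lit 475193) (nat_lit 38) (.e (nat_lit 688171) (nat_lit 15) (.e (nat_lit 57478) (nat_lit 28) (.e (nat_lit 557109) (nat_lit 15) (.e (nat_lit 188461) (nat_lit 26) (.e (nat_lit 261888) (nat_lit 0) .nil))))))) (.g (nat_lit 6) .nil .nil)))) (.nd (nat_lit 5) 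
(.lf (nat_lit 98389) (.g (nat_lit 2287) (.e (nat_lit 3071) (nat_lit 190) (.e (nat_lit 475179) (nat_lit 24) (.e (nat_lit 516176) (nat_lit 14) (.e (nat_lit 466954) (nat_lit 11) (.e (nat_lit 335994) (nat_lit 1) .nil))))) .nil)) 
(.lf (nat_lit 98421) (.g (nat_lit 2382) (.e (nat_lit 3074) (nat_lit 190) (.e (nat_lit 475185) (nat_lit 29) (.e (nat_lit 557107) (nat_lit 15) (.e (nat_lit 188450) (nat_lit 23) (.e (nat_lit 204821) (nat_lit 17) (.e (nat_lit 7936) (nat_lit 357) .nil)))))) (.g (nat_lit 4) .nil .nil))))) (.nd (nat_lit 4) (.nd (nat_lit 5) 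
(.lf (nat_lit 98381) (.g (nat_lit 2155) (.e (nat_lit 3069) (nat_lit 190) (.e (nat_lit 475185) (nat_lit 29) (.e (nat_lit 557109) (nat_lit 15) (.e (nat_lit 188450) (nat_lit 23) .nil)))) .nil)) 
(.lf (nat_lit 98413) (.g (nat_lit 3414) (.e (nat_lit 3072) (nat_lit 190) (.e (nat_lit 475185) (nat_lit 29) (.e (nat_lit 557109) (nat_lit 15) (.e (nat_lit 188450) (nat_lit 23) (.e (nat_lit 204821) (nat_lit 17) .nil))))) .nil))) (.nd (nat_lit 5) 
(.lf (nat_lit 98397) (.g (nat_lit 3683) (.e (nat_lit 3071) (nat_lit 190) (.e (nat_lit 475185) (nat_lit 29) (.e (nat_lit 557109) (nat_lit 15) (.e (nat_lit 188447) (nat_lit 22) (.e (nat_lit 196628) (nat_lit 9) .nil))))) .nil)) 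
(.lf (nat_lit 98429) (.g (nat_lit 1650) (.e (nat_lit 3077) (nat_lit 191) (.e (nat_lit 483365) (nat_lit 18) (.e (nat_lit 57655) (nat_lit 152) (.e (nat_lit 1207) (nat_lit 89) .nil)))) .nil)))))) (.nd (nat_lit 2) (.nd (nat_lit 3) (.nd (nat_lit 4) (.nd (nat_lit 5) 
(.lf (nat_lit 98371) (.g (nat_lit 2321) (.e (nat_lit 3067) (nat_lit 190) (.e (nat_lit 475212) (nat_lit 42) (.e (nat_lit 720956) (nat_lit 25) (.e (nat_lit 114711) (nat_lit 21) (.e (nat_lit 57681) (nat_lit 155) (.e (nat_lit 122913) (nat_lit 13) (.e (nat_lit 344068) (nat_lit 0) .nil))))))) (.g (nat_lit 4) .nil .nil))) 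
(.lf (nat_lit 98403) (.g (nat_lit 3103) (.e (nat_lit 3071) (nat_lit 190) (.e (nat_lit 475193) (nat_lit 38) (.e (nat_lit 688170) (nat_lit 15) (.e (nat_lit 57480) (nat_lit 28) (.e (nat_lit 557109) (nat_lit 15) (.e (nat_lit 188461) (nat_lit 26) (.e (nat_lit 261888) (nat_lit 0) .nil))))))) (.g (nat_lit 5) .nil .nil)))) (.nd (nat_lit 5) 
(.lf (nat_lit 98387) (.g (nat_lit 2270) (.e (nat_lit 3071) (nat_lit 190) (.e (nat_lit 475179) (nat_lit 24) (.e (nat_lit 516174) (nat_lit 14) (.e (nat_lit 466954) (nat_lit 11) (.e (nat_lit 335986) (nat_lit 1) .nil))))) .nil)) 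
(.lf (nat_lit 98419) (.g (nat_lit 2093) (.e (nat_lit 3074) (nat_lit 190) (.e (nat_lit 475184) (nat_lit 29) (.e (nat_lit 557109) (nat_lit 15) (.e (nat_lit 188458) (nat_lit 25) (.e (nat_lit 245784) (nat_lit 9) .nil))))) .nil)))) (.nd (nat_lit 4) (.nd (nat_lit 5) 
(.lf (nat_lit 98379) (.g (nat_lit 2009) (.e (nat_lit 3069) (nat_lit 190) (.e (nat_lit 475185) (nat_lit 29) (.e (nat_lit 557100) (nat_lit 13) (.e (nat_lit 172106) (nat_lit 10) .nil)))) .nil)) 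
(.lf (nat_lit 98411) (.g (nat_lit 828) (.e (nat_lit 3072) (nat_lit 190) (.e (nat_lit 475185) (nat_lit 29) (.e (nat_lit 557107) (nat_lit 15) .nil))) .nil))) (.nd (nat_lit 5) 
(.lf (nat_lit 98395) (.g (nat_lit 2851) (.e (nat_lit 3071) (nat_lit 190) (.e (nat_lit 475185) (nat_lit 29) (.e (nat_lit 557107) (nat_lit 15) (.e (nat_lit 188447) (nat_lit 22) (.e (nat_lit 196628) (nat_lit 9) (.e (nat_lit 968) (nat_lit 81) (.e (nat_lit 6618) (nat_lit 357) .nil))))))) (.g (nat_lit 4) .nil .nil))) 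
(.lf (nat_lit 98427) (.g (nat_lit 1141) (.e (nat_lit 3077) (nat_lit 191) (.e (nat_lit 483363) (nat_lit 18) (.e (nat_lit 57655) (nat_lit 152) .nil))) .nil))))) (.nd (nat_lit 3) (.nd (nat_lit 4) (.nd (nat_lit 5) 
(.lf (nat_lit 98375) (.g (nat_lit 2548) (.e (nat_lit 3068) (nat_lit 190) (.e (nat_lit 475185) (nat_lit 29) (.e (nat_lit 557100) (nat_lit 13) (.e (nat_lit 172113) (nat_lit 10) .nil)))) .nil)) 
(.lf (nat_lit 98407) (.g (nat_lit 2197) (.e (nat_lit 3072) (nat_lit 190) (.e (nat_lit 475179) (nat_lit 24) (.e (nat_lit 516176) (nat_lit 14) (.e (nat_lit 466954) (nat_lit 11) (.e (nat_lit 335986) (nat_lit 1) .nil))))) .nil))) (.nd (nat_lit 5) 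
(.lf (nat_lit 98391) (.g (nat_lit 5866) (.e (nat_lit 3071) (nat_lit 190) (.e (nat_lit 475183) (nat_lit 29) (.e (nat_lit 557108) (nat_lit 15) (.e (nat_lit 188452) (nat_lit 23) (.e (nat_lit 204816) (nat_lit 17) .nil))))) .nil)) 
(.lf (nat_lit 98423) (.g (nat_lit 2992) (.e (nat_lit 3074) (nat_lit 190) (.e (nat_lit 475185) (nat_lit 29) (.e (nat_lit 557109) (nat_lit 15) (.e (nat_lit 188452) (nat_lit 23) (.e (nat_lit 204817) (nat_lit 17) .nil))))) .nil)))) (.nd (nat_lit 4) (.nd (nat_lit 5) 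
(.lf (nat_lit 98383) (.g (nat_lit 3201) (.e (nat_lit 3069) (nat_lit 190) (.e (nat_lit 475185) (nat_lit 29) (.e (nat_lit 557109) (nat_lit 15) (.e (nat_lit 188452) (nat_lit 23) (.e (nat_lit 204821) (nat_lit 17) (.e (nat_lit 7936) (nat_lit 357) .nil)))))) (.g (nat_lit 4) .nil .nil))) 
(.lf (nat_lit 98415) (.g (nat_lit 3498) (.e (nat_lit 3072) (nat_lit 190) (.e (nat_lit 475185) (nat_lit 29) (.e (nat_lit 557109) (nat_lit 15) (.e (nat_lit 188452) (nat_lit 23) (.e (nat_lit 204821) (nat_lit 17) (.e (nat_lit 7936) (nat_lit 357) .nil)))))) (.g (nat_lit 4) .nil .nil)))) (.nd (nat_lit 5) 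
(.lf (nat_lit 98399) (.g (nat_lit 3803) (.e (nat_lit 3071) (nat_lit 190) (.e (nat_lit 475185) (nat_lit 29) (.e (nat_lit 557109) (nat_lit 15) (.e (nat_lit 188449) (nat_lit 22) (.e (nat_lit 196628) (nat_lit 9) (.e (nat_lit 970) (nat_lit 81) (.e (nat_lit 6618) (nat_lit 357) .nil))))))) (.g (nat_lit 6) .nil .nil))) 
(.lf (nat_lit 98431) (.g (nat_lit 962) (.e (nat_lit 3077) (nat_lit 191) (.e (nat_lit 483383) (nat_lit 23) (.e (nat_lit 335878) (nat_lit 0) .nil))) .nil))))))))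

noncomputable def tv1351 : DT := (.nd (nat_lit 0) (.nd (nat_lit 1) (.nd (nat_lit 2) (.nd (nat_lit 3) (.nd (nat_lit 4) (.nd (nat_lit 5) (.nd (nat_lit 6) 
(.lf (nat_lit 98432) (.g (nat_lit 2012) (.e (nat_lit 3077) (nat_lit 191) (.e (nat_lit 483383) (nat_lit 23) (.e (nat_lit 336000) (nat_lit 1) (.e (nat_lit 57873) (nat_lit 264) (.e (nat_lit 1209) (nat_lit 89) (.e (nat_lit 81664) (nat_lit 32) .nil)))))) (.g (nat_lit 4) .nil .nil))) 
(.lf (nat_lit 98496) (.g (nat_lit 804) (.e (nat_lit 3088) (nat_lit 191) (.e (nat_lit 483406) (nat_lit 26) (.e (nat_lit 385100) (nat_lit 49) .nil))) .nil))) (.nd (nat_lit 6) 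
(.lf (nat_lit 98464) (.g (nat_lit 1451) (.e (nat_lit 3088) (nat_lit 191) (.e (nat_lit 483382) (nat_lit 23) (.e (nat_lit 336306) (nat_lit 15) (.e (nat_lit 3619) (nat_lit 227) (.e (nat_lit 778324) (nat_lit 5) (.e (nat_lit 73781) (nat_lit 32) .nil)))))) (.g (nat_lit 4) .nil .nil))) 
(.lf (nat_lit 98528) (.g (nat_lit 443) (.e (nat_lit 3089) (nat_lit 191) (.e (nat_lit 483393) (nat_lit 23) (.e (nat_lit 336293) (nat_lit 15) .nil))) .nil)))) (.nd (nat_lit 5) (.nd (nat_lit 6) 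
(.lf (nat_lit 98448) (.g (nat_lit 988) (.e (nat_lit 3087) (nat_lit 191) (.e (nat_lit 483393) (nat_lit 23) (.e (nat_lit 335987) (nat_lit 1) (.e (nat_lit 57870) (nat_lit 264) (.e (nat_lit 1211) (nat_lit 89) .nil))))) .nil)) 
(.lf (nat_lit 98512) (.g (nat_lit 871) (.e (nat_lit 3089) (nat_lit 191) (.e (nat_lit 483383) (nat_lit 23) (.e (nat_lit 336036) (nat_lit 4) .nil))) .nil))) (.nd (nat_lit 6) 
(.lf (nat_lit 98480) (.g (nat_lit 1653) (.e (nat_lit 3088) (nat_lit 191) (.e (nat_lit 483393) (nat_lit 23) (.e (nat_lit 335894) (nat_lit 0) (.e (nat_lit 1997) (nat_lit 137) .nil)))) .nil)) 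
(.lf (nat_lit 98544) (.g (nat_lit 1341) (.e (nat_lit 3090) (nat_lit 191) (.e (nat_lit 483372) (nat_lit 21) (.e (nat_lit 319505) (nat_lit 10) (.e (nat_lit 11) (nat_lit 0) .nil)))) .nil))))) (.nd (nat_lit 4) (.nd (nat_lit 5) (.nd (nat_lit 6) 
(.lf (nat_lit 98440) (.g (nat_lit 1984) (.e (nat_lit 3087) (nat_lit 191) (.e (nat_lit 483383) (nat_lit 23) (.e (nat_lit 336240) (nat_lit 15) (.e (nat_lit 3624) (nat_lit 227) .nil)))) .nil)) 
(.lf (nat_lit 98504) (.g (nat_lit 1002) (.e (nat_lit 3088) (nat_lit 191) (.e (nat_lit 483413) (nat_lit 27) (.e (nat_lit 401463) (nat_lit 15) .nil))) .nil))) (.nd (nat_lit 6) 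
(.lf (nat_lit 98472) (.g (nat_lit 1950) (.e (nat_lit 3088) (nat_lit 191) (.e (nat_lit 483383) (nat_lit 23) (.e (nat_lit 336306) (nat_lit 15) (.e (nat_lit 3619) (nat_lit 227) (.e (nat_lit 778324) (nat_lit 5) .nil))))) .nil)) 
(.lf (nat_lit 98536) (.g (nat_lit 1472) (.e (nat_lit 3090) (nat_lit 191) (.e (nat_lit 483350) (nat_lit 17) (.e (nat_lit 6113) (nat_lit 332) (.e (nat_lit 2397) (nat_lit 157) (.e (nat_lit 705) (nat_lit 61) .nil))))) .nil)))) (.nd (nat_lit 5) (.nd (nat_lit 6) 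
(.lf (nat_lit 98456) (.g (nat_lit 1783) (.e (nat_lit 3087) (nat_lit 191) (.e (nat_lit 483395) (nat_lit 24) (.e (nat_lit 344097) (nat_lit 18) (.e (nat_lit 5907) (nat_lit 320) (.e (nat_lit 1210) (nat_lit 89) (.e (nat_lit 73781) (nat_lit 32) .nil)))))) (.g (nat_lit 4) .nil .nil))) 
(.lf (nat_lit 98520) (.g (nat_lit 979) (.e (nat_lit 3089) (nat_lit 191) (.e (nat_lit 483386) (nat_lit 23) (.e (nat_lit 336295) (nat_lit 15) (.e (nat_lit 3629) (nat_lit 227) .nil)))) .nil))) (.nd (nat_lit 6) 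
(.lf (nat_lit 98488) (.g (nat_lit 2262) (.e (nat_lit 3088) (nat_lit 191) (.e (nat_lit 483393) (nat_lit 23) (.e (nat_lit 336293) (nat_lit 15) (.e (nat_lit 3632) (nat_lit 227) (.e (nat_lit 778324) (nat_lit 5) (.e (nat_lit 73781) (nat_lit 32) .nil)))))) (.g (nat_lit 5) .nil .nil))) 
(.lf (nat_lit 98552) (.g (nat_lit 940) (.e (nat_lit 3090) (nat_lit 191) (.e (nat_lit 483380) (nat_lit 23) (.e (nat_lit 335980) (nat_lit 0) .nil))) .nil)))))) (.nd (nat_lit 3) (.nd (nat_lit 4) (.nd (nat_lit 5) (.nd (nat_lit 6) 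
(.lf (nat_lit 98436) (.g (nat_lit 1660) (.e (nat_lit 3085) (nat_lit 191) (.e (nat_lit 483401) (nat_lit 25) (.e (nat_lit 368662) (nat_lit 18) (.e (nat_lit 5907) (nat_lit 320) (.e (nat_lit 1209) (nat_lit 89) (.e (nat_lit 81664) (nat_lit 32) .nil)))))) (.g (nat_lit 4) .nil .nil))) 
(.lf (nat_lit 98500) (.g (nat_lit 1559) (.e (nat_lit 3088) (nat_lit 191) (.e (nat_lit 483413) (nat_lit 27) (.e (nat_lit 401414) (nat_lit 0) (.e (nat_lit 2438) (nat_lit 157) (.e (nat_lit 4604) (nat_lit 269) .nil))))) .nil))) (.nd (nat_lit 6) 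
(.lf (nat_lit 98468) (.g (nat_lit 1256) (.e (nat_lit 3088) (nat_lit 191) (.e (nat_lit 483383) (nat_lit 23) (.e (nat_lit 336000) (nat_lit 1) (.e (nat_lit 57870) (nat_lit 264) .nil)))) .nil)) 
(.lf (nat_lit 98532) (.g (nat_lit 442) (.e (nat_lit 3090) (nat_lit 191) (.e (nat_lit 483350) (nat_lit 17) (.e (nat_lit 6093) (nat_lit 332) (.e (nat_lit 2538) (nat_lit 158) .nil)))) .nil)))) (.nd (nat_lit 5) (.nd (nat_lit 6) 
(.lf (nat_lit 98452) (.g (nat_lit 1357) (.e (nat_lit 3087) (nat_lit 191) (.e (nat_lit 483393) (nat_lit 23) (.e (nat_lit 335996) (nat_lit 1) (.e (nat_lit 57870) (nat_lit 264) .nil)))) .nil)) 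
(.lf (nat_lit 98516) (.g (nat_lit 699) (.e (nat_lit 3089) (nat_lit 191) (.e (nat_lit 483386) (nat_lit 23) (.e (nat_lit 335905) (nat_lit 0) (.e (nat_lit 1999) (nat_lit 137) .nil)))) .nil))) (.nd (nat_lit 6) 
(.lf (nat_lit 98484) (.g (nat_lit 2022) (.e (nat_lit 3088) (nat_lit 191) (.e (nat_lit 483393) (nat_lit 23) (.e (nat_lit 335995) (nat_lit 1) (.e (nat_lit 57873) (nat_lit 264) (.e (nat_lit 1211) (nat_lit 89) .nil))))) .nil)) 
(.lf (nat_lit 98548) (.g (nat_lit 1380) (.e (nat_lit 3090) (nat_lit 191) (.e (nat_lit 483372) (nat_lit 21) (.e (nat_lit 319505) (nat_lit 10) (.e (nat_lit 59) (nat_lit 0) .nil)))) .nil))))) (.nd (nat_lit 4) (.nd (nat_lit 5) (.nd (nat_lit 6) 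
(.lf (nat_lit 98444) (.g (nat_lit 1150) (.e (nat_lit 3087) (nat_lit 191) (.e (nat_lit 483387) (nat_lit 23) (.e (nat_lit 335907) (nat_lit 0) (.e (nat_lit 1994) (nat_lit 137) (.e (nat_lit 663568) (nat_lit 5) .nil))))) .nil)) 
(.lf (nat_lit 98508) (.g (nat_lit 930) (.e (nat_lit 3089) (nat_lit 191) (.e (nat_lit 483383) (nat_lit 23) (.e (nat_lit 336000) (nat_lit 1) (.e (nat_lit 57870) (nat_lit 264) .nil)))) .nil))) (.nd (nat_lit 6) 
(.lf (nat_lit 98476) (.g (nat_lit 1566) (.e (nat_lit 3088) (nat_lit 191) (.e (nat_lit 483390) (nat_lit 23) (.e (nat_lit 335907) (nat_lit 0) (.e (nat_lit 1994) (nat_lit 137) (.e (nat_lit 663568) (nat_lit 5) (.e (nat_lit 73781) (nat_lit 32) .nil)))))) (.g (nat_lit 4) .nil .nil))) 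
(.lf (nat_lit 98540) (.g (nat_lit 1121) (.e (nat_lit 3090) (nat_lit 191) (.e (nat_lit 483372) (nat_lit 21) (.e (nat_lit 319489) (nat_lit 0) .nil))) .nil)))) (.nd (nat_lit 5) (.nd (nat_lit 6) 
(.lf (nat_lit 98460) (.g (nat_lit 615) (.e (nat_lit 3088) (nat_lit 191) (.e (nat_lit 483346) (nat_lit 17) (.e (nat_lit 6506) (nat_lit 344) .nil))) .nil)) 
(.lf (nat_lit 98524) (.g (nat_lit 977) (.e (nat_lit 3089) (nat_lit 191) (.e (nat_lit 483392) (nat_lit 23) (.e (nat_lit 335995) (nat_lit 1) (.e (nat_lit 57870) (nat_lit 264) .nil)))) .nil))) (.nd (nat_lit 6) 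
(.lf (nat_lit 98492) (.g (nat_lit 1399) (.e (nat_lit 3088) (nat_lit 191) (.e (nat_lit 483403) (nat_lit 26) (.e (nat_lit 385096) (nat_lit 49) (.e (nat_lit 786176) (nat_lit 5) .nil)))) .nil)) 
(.lf (nat_lit 98556) (.g (nat_lit 672) (.e (nat_lit 3090) (nat_lit 191) (.e (nat_lit 483383) (nat_lit 23) (.e (nat_lit 335878) (nat_lit 0) .nil))) .nil))))))) (.nd (nat_lit 2) (.nd (nat_lit 3) (.nd (nat_lit 4) (.nd (nat_lit 5) (.nd (nat_lit 6) 
(.lf (nat_lit 98434) (.g (nat_lit 935) (.e (nat_lit 3077) (nat_lit 191) (.e (nat_lit 483383) (nat_lit 23) (.e (nat_lit 336357) (nat_lit 24) .nil))) .nil)) 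
(.lf (nat_lit 98498) (.g (nat_lit 1443) (.e (nat_lit 3088) (nat_lit 191) (.e (nat_lit 483413) (nat_lit 27) (.e (nat_lit 401414) (nat_lit 0) (.e (nat_lit 2424) (nat_lit 157) .nil)))) .nil))) (.nd (nat_lit 6) 
(.lf (nat_lit 98466) (.g (nat_lit 967) (.e (nat_lit 3088) (nat_lit 191) (.e (nat_lit 483383) (nat_lit 23) (.e (nat_lit 335878) (nat_lit 0) .nil))) .nil)) 
(.lf (nat_lit 98530) (.g (nat_lit 2267) (.e (nat_lit 3089) (nat_lit 191) (.e (nat_lit 483394) (nat_lit 24) (.e (nat_lit 344097) (nat_lit 18) (.e (nat_lit 5907) (nat_lit 320) (.e (nat_lit 1210) (nat_lit 89) (.e (nat_lit 73781) (nat_lit 32) .nil)))))) (.g (nat_lit 4) .nil .nil))))) (.nd (nat_lit 5) (.nd (nat_lit 6) 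
(.lf (nat_lit 98450) (.g (nat_lit 1324) (.e (nat_lit 3087) (nat_lit 191) (.e (nat_lit 483393) (nat_lit 23) (.e (nat_lit 335995) (nat_lit 1) (.e (nat_lit 57870) (nat_lit 264) .nil)))) .nil)) 
(.lf (nat_lit 98514) (.g (nat_lit 1536) (.e (nat_lit 3089) (nat_lit 191) (.e (nat_lit 483383) (nat_lit 23) (.e (nat_lit 336306) (nat_lit 15) (.e (nat_lit 3629) (nat_lit 227) .nil)))) .nil))) (.nd (nat_lit 6) 
(.lf (nat_lit 98482) (.g (nat_lit 2247) (.e (nat_lit 3088) (nat_lit 191) (.e (nat_lit 483393) (nat_lit 23) (.e (nat_lit 335986) (nat_lit 1) (.e (nat_lit 57873) (nat_lit 264) (.e (nat_lit 1210) (nat_lit 89) (.e (nat_lit 73781) (nat_lit 32) .nil)))))) (.g (nat_lit 4) .nil .nil))) 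
(.lf (nat_lit 98546) (.g (nat_lit 1652) (.e (nat_lit 3090) (nat_lit 191) (.e (nat_lit 483372) (nat_lit 21) (.e (nat_lit 319505) (nat_lit 10) (.e (nat_lit 11) (nat_lit 0) (.e (nat_lit 4616) (nat_lit 269) .nil))))) .nil))))) (.nd (nat_lit 4) (.nd (nat_lit 5) (.nd (nat_lit 6) 
(.lf (nat_lit 98442) (.g (nat_lit 1339) (.e (nat_lit 3087) (nat_lit 191) (.e (nat_lit 483386) (nat_lit 23) (.e (nat_lit 335907) (nat_lit 0) (.e (nat_lit 1994) (nat_lit 137) (.e (nat_lit 663568) (nat_lit 5) (.e (nat_lit 73782) (nat_lit 32) .nil)))))) (.g (nat_lit 4) .nil .nil))) 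
(.lf (nat_lit 98506) (.g (nat_lit 811) (.e (nat_lit 3089) (nat_lit 191) (.e (nat_lit 483383) (nat_lit 23) (.e (nat_lit 335878) (nat_lit 0) (.e (nat_lit 999) (nat_lit 81) .nil)))) .nil))) (.nd (nat_lit 6) 
(.lf (nat_lit 98474) (.g (nat_lit 1308) (.e (nat_lit 3088) (nat_lit 191) (.e (nat_lit 483385) (nat_lit 23) (.e (nat_lit 336260) (nat_lit 15) (.e (nat_lit 3629) (nat_lit 227) .nil)))) .nil)) 
(.lf (nat_lit 98538) (.g (nat_lit 513) (.e (nat_lit 3090) (nat_lit 191) (.e (nat_lit 483363) (nat_lit 18) (.e (nat_lit 57773) (nat_lit 227) .nil))) .nil)))) (.nd (nat_lit 5) (.nd (nat_lit 6) 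
(.lf (nat_lit 98458) (.g (nat_lit 1424) (.e (nat_lit 3087) (nat_lit 191) (.e (nat_lit 483405) (nat_lit 26) (.e (nat_lit 385100) (nat_lit 49) (.e (nat_lit 778322) (nat_lit 5) (.e (nat_lit 73782) (nat_lit 32) .nil))))) (.g (nat_lit 0) .nil .nil))) 
(.lf (nat_lit 98522) (.g (nat_lit 2119) (.e (nat_lit 3089) (nat_lit 191) (.e (nat_lit 483389) (nat_lit 23) (.e (nat_lit 335907) (nat_lit 0) (.e (nat_lit 1994) (nat_lit 137) (.e (nat_lit 663568) (nat_lit 5) (.e (nat_lit 73782) (nat_lit 32) .nil)))))) (.g (nat_lit 0) .nil .nil)))) (.nd (nat_lit 6) 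
(.lf (nat_lit 98490) (.g (nat_lit 1287) (.e (nat_lit 3088) (nat_lit 191) (.e (nat_lit 483394) (nat_lit 24) (.e (nat_lit 344097) (nat_lit 18) (.e (nat_lit 5906) (nat_lit 320) .nil)))) .nil)) 
(.lf (nat_lit 98554) (.g (nat_lit 2511) (.e (nat_lit 3090) (nat_lit 191) (.e (nat_lit 483380) (nat_lit 23) (.e (nat_lit 336261) (nat_lit 15) (.e (nat_lit 3629) (nat_lit 227) (.e (nat_lit 778323) (nat_lit 5) (.e (nat_lit 73782) (nat_lit 32) .nil)))))) (.g (nat_lit 0) .nil .nil))))))) (.nd (nat_lit 3) (.nd (nat_lit 4) (.nd (nat_lit 5) (.nd (nat_lit 6) 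
(.lf (nat_lit 98438) (.g (nat_lit 945) (.e (nat_lit 3087) (nat_lit 191) (.e (nat_lit 483383) (nat_lit 23) (.e (nat_lit 335878) (nat_lit 0) .nil))) .nil)) 
(.lf (nat_lit 98502) (.g (nat_lit 1453) (.e (nat_lit 3088) (nat_lit 191) (.e (nat_lit 483413) (nat_lit 27) (.e (nat_lit 401414) (nat_lit 0) (.e (nat_lit 3347) (nat_lit 206) .nil)))) .nil))) (.nd (nat_lit 6) 
(.lf (nat_lit 98470) (.g (nat_lit 2958) (.e (nat_lit 3088) (nat_lit 191) (.e (nat_lit 483383) (nat_lit 23) (.e (nat_lit 336240) (nat_lit 15) (.e (nat_lit 3637) (nat_lit 227) (.e (nat_lit 778324) (nat_lit 5) (.e (nat_lit 73781) (nat_lit 32) .nil)))))) (.g (nat_lit 5) .nil .nil))) 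
(.lf (nat_lit 98534) (.g (nat_lit 2770) (.e (nat_lit 3090) (nat_lit 191) (.e (nat_lit 483350) (nat_lit 17) (.e (nat_lit 6113) (nat_lit 332) (.e (nat_lit 1374) (nat_lit 104) (.e (nat_lit 303154) (nat_lit 28) (.e (nat_lit 352000) (nat_lit 0) .nil)))))) (.g (nat_lit 5) .nil .nil))))) (.nd (nat_lit 5) (.nd (nat_lit 6) 
(.lf (nat_lit 98454) (.g (nat_lit 2186) (.e (nat_lit 3087) (nat_lit 191) (.e (nat_lit 483394) (nat_lit 24) (.e (nat_lit 344097) (nat_lit 18) (.e (nat_lit 5907) (nat_lit 320) (.e (nat_lit 1210) (nat_lit 89) (.e (nat_lit 73782) (nat_lit 32) .nil)))))) (.g (nat_lit 4) .nil .nil))) 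
(.lf (nat_lit 98518) (.g (nat_lit 957) (.e (nat_lit 3089) (nat_lit 191) (.e (nat_lit 483386) (nat_lit 23) (.e (nat_lit 335985) (nat_lit 1) (.e (nat_lit 57873) (nat_lit 264) (.e (nat_lit 1211) (nat_lit 89) .nil))))) .nil))) (.nd (nat_lit 6) 
(.lf (nat_lit 98486) (.g (nat_lit 1601) (.e (nat_lit 3088) (nat_lit 191) (.e (nat_lit 483393) (nat_lit 23) (.e (nat_lit 336288) (nat_lit 15) (.e (nat_lit 3716) (nat_lit 227) .nil)))) .nil)) 
(.lf (nat_lit 98550) (.g (nat_lit 1101) (.e (nat_lit 3090) (nat_lit 191) (.e (nat_lit 483372) (nat_lit 21) (.e (nat_lit 319515) (nat_lit 11) .nil))) .nil))))) (.nd (nat_lit 4) (.nd (nat_lit 5) (.nd (nat_lit 6) 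
(.lf (nat_lit 98446) (.g (nat_lit 1161) (.e (nat_lit 3087) (nat_lit 191) (.e (nat_lit 483390) (nat_lit 23) (.e (nat_lit 335907) (nat_lit 0) (.e (nat_lit 1996) (nat_lit 137) (.e (nat_lit 663568) (nat_lit 5) (.e (nat_lit 73782) (nat_lit 32) .nil)))))) (.g (nat_lit 4) .nil .nil))) 
(.lf (nat_lit 98510) (.g (nat_lit 871) (.e (nat_lit 3089) (nat_lit 191) (.e (nat_lit 483383) (nat_lit 23) (.e (nat_lit 343808) (nat_lit 1) .nil))) .nil))) (.nd (nat_lit 6) 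
(.lf (nat_lit 98478) (.g (nat_lit 1824) (.e (nat_lit 3088) (nat_lit 191) (.e (nat_lit 483391) (nat_lit 23) (.e (nat_lit 335998) (nat_lit 1) (.e (nat_lit 57873) (nat_lit 264) (.e (nat_lit 1210) (nat_lit 89) (.e (nat_lit 73781) (nat_lit 32) .nil)))))) (.g (nat_lit 4) .nil .nil))) 
(.lf (nat_lit 98542) (.g (nat_lit 1452) (.e (nat_lit 3090) (nat_lit 191) (.e (nat_lit 483372) (nat_lit 21) (.e (nat_lit 319490) (nat_lit 0) (.e (nat_lit 79) (nat_lit 0) .nil)))) .nil)))) (.nd (nat_lit 5) (.nd (nat_lit 6) 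
(.lf (nat_lit 98462) (.g (nat_lit 1545) (.e (nat_lit 3088) (nat_lit 191) (.e (nat_lit 483378) (nat_lit 23) (.e (nat_lit 335907) (nat_lit 0) (.e (nat_lit 1996) (nat_lit 137) (.e (nat_lit 663568) (nat_lit 5) (.e (nat_lit 73782) (nat_lit 32) .nil)))))) (.g (nat_lit 4) .nil .nil))) 
(.lf (nat_lit 98526) (.g (nat_lit 1120) (.e (nat_lit 3089) (nat_lit 191) (.e (nat_lit 483393) (nat_lit 23) (.e (nat_lit 335988) (nat_lit 1) (.e (nat_lit 65280) (nat_lit 264) .nil)))) .nil))) (.nd (nat_lit 6) 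
(.lf (nat_lit 98494) (.g (nat_lit 604) (.e (nat_lit 3088) (nat_lit 191) (.e (nat_lit 483405) (nat_lit 26) (.e (nat_lit 385100) (nat_lit 49) (.e (nat_lit 786176) (nat_lit 5) .nil)))) .nil)) 
(.lf (nat_lit 98558) (.g (nat_lit 1600) (.e (nat_lit 3090) (nat_lit 191) (.e (nat_lit 483383) (nat_lit 23) (.e (nat_lit 336357) (nat_lit 24) (.e (nat_lit 270080) (nat_lit 5) .nil)))) .nil)))))))) (.nd (nat_lit 1) (.nd (nat_lit 2) (.nd (nat_lit 3) (.nd (nat_lit 4) (.nd (nat_lit 5) (.nd (nat_lit 6) 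
(.lf (nat_lit 98433) (.g (nat_lit 2100) (.e (nat_lit 3077) (nat_lit 191) (.e (nat_lit 483383) (nat_lit 23) (.e (nat_lit 336000) (nat_lit 1) (.e (nat_lit 57873) (nat_lit 264) (.e (nat_lit 1211) (nat_lit 89) (.e (nat_lit 81664) (nat_lit 32) .nil)))))) (.g (nat_lit 4) .nil .nil))) 
(.lf (nat_lit 98497) (.g (nat_lit 874) (.e (nat_lit 3088) (nat_lit 191) (.e (nat_lit 483408) (nat_lit 26) (.e (nat_lit 385100) (nat_lit 49) .nil))) .nil))) (.nd (nat_lit 6) 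
(.lf (nat_lit 98465) (.g (nat_lit 746) (.e (nat_lit 3088) (nat_lit 191) (.e (nat_lit 483382) (nat_lit 23) (.e (nat_lit 336357) (nat_lit 24) (.e (nat_lit 270080) (nat_lit 5) .nil)))) .nil)) 
(.lf (nat_lit 98529) (.g (nat_lit 1663) (.e (nat_lit 3089) (nat_lit 191) (.e (nat_lit 483394) (nat_lit 24) (.e (nat_lit 344090) (nat_lit 18) (.e (nat_lit 5896) (nat_lit 320) (.e (nat_lit 7936) (nat_lit 89) .nil))))) .nil)))) (.nd (nat_lit 5) (.nd (nat_lit 6) 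
(.lf (nat_lit 98449) (.g (nat_lit 1135) (.e (nat_lit 3087) (nat_lit 191) (.e (nat_lit 483393) (nat_lit 23) (.e (nat_lit 335988) (nat_lit 1) (.e (nat_lit 57870) (nat_lit 264) .nil)))) .nil)) 
(.lf (nat_lit 98513) (.g (nat_lit 871) (.e (nat_lit 3089) (nat_lit 191) (.e (nat_lit 483383) (nat_lit 23) (.e (nat_lit 336299) (nat_lit 15) .nil))) .nil))) (.nd (nat_lit 6) 
(.lf (nat_lit 98481) (.g (nat_lit 2651) (.e (nat_lit 3088) (nat_lit 191) (.e (nat_lit 483393) (nat_lit 23) (.e (nat_lit 335986) (nat_lit 1) (.e (nat_lit 57871) (nat_lit 264) (.e (nat_lit 1209) (nat_lit 89) (.e (nat_lit 73781) (nat_lit 32) .nil)))))) (.g (nat_lit 5) .nil .nil))) 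
(.lf (nat_lit 98545) (.g (nat_lit 1651) (.e (nat_lit 3090) (nat_lit 191) (.e (nat_lit 483372) (nat_lit 21) (.e (nat_lit 319505) (nat_lit 10) (.e (nat_lit 11) (nat_lit 0) (.e (nat_lit 4553) (nat_lit 269) .nil))))) .nil))))) (.nd (nat_lit 4) (.nd (nat_lit 5) (.nd (nat_lit 6) 
(.lf (nat_lit 98441) (.g (nat_lit 1149) (.e (nat_lit 3087) (nat_lit 191) (.e (nat_lit 483383) (nat_lit 23) (.e (nat_lit 336357) (nat_lit 24) .nil))) .nil)) 
(.lf (nat_lit 98505) (.g (nat_lit 440) (.e (nat_lit 3089) (nat_lit 191) (.e (nat_lit 483383) (nat_lit 23) (.e (nat_lit 335878) (nat_lit 0) .nil))) .nil))) (.nd (nat_lit 6) 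
(.lf (nat_lit 98473) (.g (nat_lit 622) (.e (nat_lit 3088) (nat_lit 191) (.e (nat_lit 483385) (nat_lit 23) (.e (nat_lit 336260) (nat_lit 15) .nil))) .nil)) 
(.lf (nat_lit 98537) (.g (nat_lit 377) (.e (nat_lit 3090) (nat_lit 191) (.e (nat_lit 483350) (nat_lit 17) (.e (nat_lit 7936) (nat_lit 344) .nil))) .nil)))) (.nd (nat_lit 5) (.nd (nat_lit 6) 
(.lf (nat_lit 98457) (.g (nat_lit 1277) (.e (nat_lit 3087) (nat_lit 191) (.e (nat_lit 483399) (nat_lit 25) (.e (nat_lit 368662) (nat_lit 18) (.e (nat_lit 5906) (nat_lit 320) (.e (nat_lit 1211) (nat_lit 89) .nil))))) .nil)) 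
(.lf (nat_lit 98521) (.g (nat_lit 1560) (.e (nat_lit 3089) (nat_lit 191) (.e (nat_lit 483388) (nat_lit 23) (.e (nat_lit 335907) (nat_lit 0) (.e (nat_lit 1994) (nat_lit 137) (.e (nat_lit 663568) (nat_lit 5) (.e (nat_lit 73781) (nat_lit 32) .nil)))))) (.g (nat_lit 4) .nil .nil)))) (.nd (nat_lit 6) 
(.lf (nat_lit 98489) (.g (nat_lit 1709) (.e (nat_lit 3088) (nat_lit 191) (.e (nat_lit 483394) (nat_lit 24) (.e (nat_lit 344090) (nat_lit 18) (.e (nat_lit 5896) (nat_lit 320) (.e (nat_lit 7936) (nat_lit 89) .nil))))) .nil)) 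
(.lf (nat_lit 98553) (.g (nat_lit 672) (.e (nat_lit 3090) (nat_lit 191) (.e (nat_lit 483380) (nat_lit 23) (.e (nat_lit 336036) (nat_lit 4) .nil))) .nil)))))) (.nd (nat_lit 3) (.nd (nat_lit 4) (.nd (nat_lit 5) (.nd (nat_lit 6) 
(.lf (nat_lit 98437) (.g (nat_lit 3548) (.e (nat_lit 3085) (nat_lit 191) (.e (nat_lit 483413) (nat_lit 27) (.e (nat_lit 401447) (nat_lit 10) (.e (nat_lit 434203) (nat_lit 18) (.e (nat_lit 6250) (nat_lit 337) .nil))))) .nil)) 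
(.lf (nat_lit 98501) (.g (nat_lit 1373) (.e (nat_lit 3088) (nat_lit 191) (.e (nat_lit 483413) (nat_lit 27) (.e (nat_lit 401414) (nat_lit 0) (.e (nat_lit 3346) (nat_lit 206) .nil)))) .nil))) (.nd (nat_lit 6) 
(.lf (nat_lit 98469) (.g (nat_lit 2493) (.e (nat_lit 3088) (nat_lit 191) (.e (nat_lit 483383) (nat_lit 23) (.e (nat_lit 336240) (nat_lit 15) (.e (nat_lit 3624) (nat_lit 227) (.e (nat_lit 778324) (nat_lit 5) .nil))))) .nil)) 
(.lf (nat_lit 98533) (.g (nat_lit 383) (.e (nat_lit 3090) (nat_lit 191) (.e (nat_lit 483350) (nat_lit 17) (.e (nat_lit 6097) (nat_lit 332) .nil))) .nil)))) (.nd (nat_lit 5) (.nd (nat_lit 6) 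
(.lf (nat_lit 98453) (.g (nat_lit 1675) (.e (nat_lit 3087) (nat_lit 191) (.e (nat_lit 483394) (nat_lit 24) (.e (nat_lit 344090) (nat_lit 18) (.e (nat_lit 5896) (nat_lit 320) (.e (nat_lit 7936) (nat_lit 89) .nil))))) .nil)) 
(.lf (nat_lit 98517) (.g (nat_lit 465) (.e (nat_lit 3089) (nat_lit 191) (.e (nat_lit 483386) (nat_lit 23) (.e (nat_lit 335908) (nat_lit 0) .nil))) .nil))) (.nd (nat_lit 6) 
(.lf (nat_lit 98485) (.g (nat_lit 1636) (.e (nat_lit 3088) (nat_lit 191) (.e (nat_lit 483393) (nat_lit 23) (.e (nat_lit 336275) (nat_lit 15) (.e (nat_lit 3632) (nat_lit 227) (.e (nat_lit 778324) (nat_lit 5) (.e (nat_lit 73781) (nat_lit 32) .nil)))))) (.g (nat_lit 4) .nil .nil))) 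
(.lf (nat_lit 98549) (.g (nat_lit 1310) (.e (nat_lit 3090) (nat_lit 191) (.e (nat_lit 483372) (nat_lit 21) (.e (nat_lit 319505) (nat_lit 10) (.e (nat_lit 658) (nat_lit 54) .nil)))) .nil))))) (.nd (nat_lit 4) (.nd (nat_lit 5) (.nd (nat_lit 6) 
(.lf (nat_lit 98445) (.g (nat_lit 1311) (.e (nat_lit 3087) (nat_lit 191) (.e (nat_lit 483390) (nat_lit 23) (.e (nat_lit 335907) (nat_lit 0) (.e (nat_lit 1994) (nat_lit 137) (.e (nat_lit 663568) (nat_lit 5) (.e (nat_lit 73782) (nat_lit 32) .nil)))))) (.g (nat_lit 4) .nil .nil))) 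
(.lf (nat_lit 98509) (.g (nat_lit 924) (.e (nat_lit 3089) (nat_lit 191) (.e (nat_lit 483383) (nat_lit 23) (.e (nat_lit 336000) (nat_lit 1) (.e (nat_lit 57872) (nat_lit 264) .nil)))) .nil))) (.nd (nat_lit 6) 
(.lf (nat_lit 98477) (.g (nat_lit 1431) (.e (nat_lit 3088) (nat_lit 191) (.e (nat_lit 483390) (nat_lit 23) (.e (nat_lit 335907) (nat_lit 0) (.e (nat_lit 1996) (nat_lit 137) (.e (nat_lit 663568) (nat_lit 5) (.e (nat_lit 73781) (nat_lit 32) .nil)))))) (.g (nat_lit 4) .nil .nil))) 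
(.lf (nat_lit 98541) (.g (nat_lit 1233) (.e (nat_lit 3090) (nat_lit 191) (.e (nat_lit 483372) (nat_lit 21) (.e (nat_lit 319489) (nat_lit 0) (.e (nat_lit 59) (nat_lit 0) .nil)))) .nil)))) (.nd (nat_lit 5) (.nd (nat_lit 6) 
(.lf (nat_lit 98461) (.g (nat_lit 1726) (.e (nat_lit 3088) (nat_lit 191) (.e (nat_lit 483378) (nat_lit 23) (.e (nat_lit 335907) (nat_lit 0) (.e (nat_lit 1994) (nat_lit 137) (.e (nat_lit 663568) (nat_lit 5) (.e (nat_lit 73782) (nat_lit 32) .nil)))))) (.g (nat_lit 4) .nil .nil))) 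
(.lf (nat_lit 98525) (.g (nat_lit 1459) (.e (nat_lit 3089) (nat_lit 191) (.e (nat_lit 483393) (nat_lit 23) (.e (nat_lit 335894) (nat_lit 0) (.e (nat_lit 1997) (nat_lit 137) .nil)))) .nil))) (.nd (nat_lit 6) 
(.lf (nat_lit 98493) (.g (nat_lit 550) (.e (nat_lit 3088) (nat_lit 191) (.e (nat_lit 483405) (nat_lit 26) (.e (nat_lit 385099) (nat_lit 49) .nil))) .nil)) 
(.lf (nat_lit 98557) (.g (nat_lit 648) (.e (nat_lit 3090) (nat_lit 191) (.e (nat_lit 483383) (nat_lit 23) (.e (nat_lit 336000) (nat_lit 1) .nil))) .nil))))))) (.nd (nat_lit 2) (.nd (nat_lit 3) (.nd (nat_lit 4) (.nd (nat_lit 5) (.nd (nat_lit 6) 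
(.lf (nat_lit 98435) (.g (nat_lit 1717) (.e (nat_lit 3078) (nat_lit 191) (.e (nat_lit 483350) (nat_lit 17) (.e (nat_lit 6113) (nat_lit 332) (.e (nat_lit 1374) (nat_lit 104) .nil)))) .nil)) 
(.lf (nat_lit 98499) (.g (nat_lit 1424) (.e (nat_lit 3088) (nat_lit 191) (.e (nat_lit 483413) (nat_lit 27) (.e (nat_lit 401414) (nat_lit 0) (.e (nat_lit 2425) (nat_lit 157) .nil)))) .nil))) (.nd (nat_lit 6) 
(.lf (nat_lit 98467) (.g (nat_lit 1404) (.e (nat_lit 3088) (nat_lit 191) (.e (nat_lit 483383) (nat_lit 23) (.e (nat_lit 335878) (nat_lit 0) (.e (nat_lit 2008) (nat_lit 138) .nil)))) .nil)) 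
(.lf (nat_lit 98531) (.g (nat_lit 1977) (.e (nat_lit 3089) (nat_lit 191) (.e (nat_lit 483396) (nat_lit 24) (.e (nat_lit 344097) (nat_lit 18) (.e (nat_lit 5907) (nat_lit 320) (.e (nat_lit 1211) (nat_lit 89) .nil))))) .nil)))) (.nd (nat_lit 5) (.nd (nat_lit 6) 
(.lf (nat_lit 98451) (.g (nat_lit 2557) (.e (nat_lit 3087) (nat_lit 191) (.e (nat_lit 483393) (nat_lit 23) (.e (nat_lit 335995) (nat_lit 1) (.e (nat_lit 57872) (nat_lit 264) (.e (nat_lit 1209) (nat_lit 89) (.e (nat_lit 73782) (nat_lit 32) .nil)))))) (.g (nat_lit 5) .nil .nil))) 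
(.lf (nat_lit 98515) (.g (nat_lit 478) (.e (nat_lit 3089) (nat_lit 191) (.e (nat_lit 483386) (nat_lit 23) (.e (nat_lit 335905) (nat_lit 0) .nil))) .nil))) (.nd (nat_lit 6) 
(.lf (nat_lit 98483) (.g (nat_lit 1207) (.e (nat_lit 3088) (nat_lit 191) (.e (nat_lit 483393) (nat_lit 23) (.e (nat_lit 335988) (nat_lit 1) (.e (nat_lit 65280) (nat_lit 264) .nil)))) .nil)) 
(.lf (nat_lit 98547) (.g (nat_lit 1380) (.e (nat_lit 3090) (nat_lit 191) (.e (nat_lit 483372) (nat_lit 21) (.e (nat_lit 319505) (nat_lit 10) (.e (nat_lit 18) (nat_lit 0) .nil)))) .nil))))) (.nd (nat_lit 4) (.nd (nat_lit 5) (.nd (nat_lit 6) 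
(.lf (nat_lit 98443) (.g (nat_lit 1190) (.e (nat_lit 3087) (nat_lit 191) (.e (nat_lit 483386) (nat_lit 23) (.e (nat_lit 335907) (nat_lit 0) (.e (nat_lit 1996) (nat_lit 137) (.e (nat_lit 663568) (nat_lit 5) (.e (nat_lit 73782) (nat_lit 32) .nil)))))) (.g (nat_lit 4) .nil .nil))) 
(.lf (nat_lit 98507) (.g (nat_lit 856) (.e (nat_lit 3089) (nat_lit 191) (.e (nat_lit 483383) (nat_lit 23) (.e (nat_lit 335999) (nat_lit 1) .nil))) .nil))) (.nd (nat_lit 6) 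
(.lf (nat_lit 98475) (.g (nat_lit 2014) (.e (nat_lit 3088) (nat_lit 191) (.e (nat_lit 483386) (nat_lit 23) (.e (nat_lit 336295) (nat_lit 15) (.e (nat_lit 3632) (nat_lit 227) (.e (nat_lit 778324) (nat_lit 5) (.e (nat_lit 73781) (nat_lit 32) .nil)))))) (.g (nat_lit 4) .nil .nil))) 
(.lf (nat_lit 98539) (.g (nat_lit 576) (.e (nat_lit 3090) (nat_lit 191) (.e (nat_lit 483364) (nat_lit 18) (.e (nat_lit 65280) (nat_lit 217) .nil))) .nil)))) (.nd (nat_lit 5) (.nd (nat_lit 6) 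
(.lf (nat_lit 98459) (.g (nat_lit 1411) (.e (nat_lit 3088) (nat_lit 191) (.e (nat_lit 483346) (nat_lit 17) (.e (nat_lit 6203) (nat_lit 332) (.e (nat_lit 2544) (nat_lit 158) .nil)))) .nil)) 
(.lf (nat_lit 98523) (.g (nat_lit 1097) (.e (nat_lit 3089) (nat_lit 191) (.e (nat_lit 483389) (nat_lit 23) (.e (nat_lit 335991) (nat_lit 1) (.e (nat_lit 57873) (nat_lit 264) (.e (nat_lit 1210) (nat_lit 89) (.e (nat_lit 73781) (nat_lit 32) .nil)))))) (.g (nat_lit 4) .nil .nil)))) (.nd (nat_lit 6) 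
(.lf (nat_lit 98491) (.g (nat_lit 2479) (.e (nat_lit 3088) (nat_lit 191) (.e (nat_lit 483394) (nat_lit 24) (.e (nat_lit 344097) (nat_lit 18) (.e (nat_lit 5907) (nat_lit 320) (.e (nat_lit 1210) (nat_lit 89) (.e (nat_lit 73781) (nat_lit 32) .nil)))))) (.g (nat_lit 4) .nil .nil))) 
(.lf (nat_lit 98555) (.g (nat_lit 2245) (.e (nat_lit 3090) (nat_lit 191) (.e (nat_lit 483380) (nat_lit 23) (.e (nat_lit 336297) (nat_lit 15) (.e (nat_lit 3629) (nat_lit 227) (.e (nat_lit 778323) (nat_lit 5) (.e (nat_lit 73782) (nat_lit 32) .nil)))))) (.g (nat_lit 0) .nil .nil))))))) (.nd (nat_lit 3) (.nd (nat_lit 4) (.nd (nat_lit 5) (.nd (nat_lit 6) 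
(.lf (nat_lit 98439) (.g (nat_lit 1873) (.e (nat_lit 3087) (nat_lit 191) (.e (nat_lit 483383) (nat_lit 23) (.e (nat_lit 336000) (nat_lit 1) (.e (nat_lit 57873) (nat_lit 264) (.e (nat_lit 1211) (nat_lit 89) .nil))))) .nil)) 
(.lf (nat_lit 98503) (.g (nat_lit 1013) (.e (nat_lit 3088) (nat_lit 191) (.e (nat_lit 483413) (nat_lit 27) (.e (nat_lit 401420) (nat_lit 1) .nil))) .nil))) (.nd (nat_lit 6) 
(.lf (nat_lit 98471) (.g (nat_lit 1176) (.e (nat_lit 3088) (nat_lit 191) (.e (nat_lit 483383) (nat_lit 23) (.e (nat_lit 336286) (nat_lit 15) .nil))) .nil)) 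
(.lf (nat_lit 98535) (.g (nat_lit 2093) (.e (nat_lit 3090) (nat_lit 191) (.e (nat_lit 483350) (nat_lit 17) (.e (nat_lit 6113) (nat_lit 332) (.e (nat_lit 1376) (nat_lit 104) (.e (nat_lit 303154) (nat_lit 28) (.e (nat_lit 352000) (nat_lit 0) .nil)))))) (.g (nat_lit 5) .nil .nil))))) (.nd (nat_lit 5) (.nd (nat_lit 6) 
(.lf (nat_lit 98455) (.g (nat_lit 1928) (.e (nat_lit 3087) (nat_lit 191) (.e (nat_lit 483395) (nat_lit 24) (.e (nat_lit 344090) (nat_lit 18) (.e (nat_lit 5896) (nat_lit 320) (.e (nat_lit 7936) (nat_lit 89) (.e (nat_lit 73781) (nat_lit 32) .nil)))))) (.g (nat_lit 4) .nil .nil))) 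
(.lf (nat_lit 98519) (.g (nat_lit 408) (.e (nat_lit 3089) (nat_lit 191) (.e (nat_lit 483386) (nat_lit 23) (.e (nat_lit 336290) (nat_lit 15) .nil))) .nil))) (.nd (nat_lit 6) 
(.lf (nat_lit 98487) (.g (nat_lit 561) (.e (nat_lit 3088) (nat_lit 191) (.e (nat_lit 483393) (nat_lit 23) (.e (nat_lit 336293) (nat_lit 15) .nil))) .nil)) 
(.lf (nat_lit 98551) (.g (nat_lit 947) (.e (nat_lit 3090) (nat_lit 191) (.e (nat_lit 483380) (nat_lit 23) (.e (nat_lit 335885) (nat_lit 0) .nil))) .nil))))) (.nd (nat_lit 4) (.nd (nat_lit 5) (.nd (nat_lit 6) 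
(.lf (nat_lit 98447) (.g (nat_lit 1039) (.e (nat_lit 3087) (nat_lit 191) (.e (nat_lit 483393) (nat_lit 23) (.e (nat_lit 335986) (nat_lit 1) (.e (nat_lit 57870) (nat_lit 264) .nil)))) .nil)) 
(.lf (nat_lit 98511) (.g (nat_lit 871) (.e (nat_lit 3089) (nat_lit 191) (.e (nat_lit 483383) (nat_lit 23) (.e (nat_lit 336029) (nat_lit 4) .nil))) .nil))) (.nd (nat_lit 6) 
(.lf (nat_lit 98479) (.g (nat_lit 2539) (.e (nat_lit 3088) (nat_lit 191) (.e (nat_lit 483391) (nat_lit 23) (.e (nat_lit 336300) (nat_lit 15) (.e (nat_lit 3632) (nat_lit 227) (.e (nat_lit 778324) (nat_lit 5) (.e (nat_lit 73781) (nat_lit 32) .nil)))))) (.g (nat_lit 6) .nil .nil))) 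
(.lf (nat_lit 98543) (.g (nat_lit 1134) (.e (nat_lit 3090) (nat_lit 191) (.e (nat_lit 483372) (nat_lit 21) (.e (nat_lit 319499) (nat_lit 10) .nil))) .nil)))) (.nd (nat_lit 5) (.nd (nat_lit 6) 
(.lf (nat_lit 98463) (.g (nat_lit 230) (.e (nat_lit 3088) (nat_lit 191) (.e (nat_lit 483378) (nat_lit 23) (.e (nat_lit 336032) (nat_lit 4) .nil))) .nil)) 
(.lf (nat_lit 98527) (.g (nat_lit 1483) (.e (nat_lit 3089) (nat_lit 191) (.e (nat_lit 483393) (nat_lit 23) (.e (nat_lit 336288) (nat_lit 15) (.e (nat_lit 3715) (nat_lit 227) .nil)))) .nil))) (.nd (nat_lit 6) 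
(.lf (nat_lit 98495) (.g (nat_lit 1208) (.e (nat_lit 3088) (nat_lit 191) (.e (nat_lit 483406) (nat_lit 26) (.e (nat_lit 385095) (nat_lit 49) (.e (nat_lit 786176) (nat_lit 5) .nil)))) .nil)) 
(.lf (nat_lit 98559) (.g (nat_lit 2096) (.e (nat_lit 3090) (nat_lit 191) (.e (nat_lit 483386) (nat_lit 23) (.e (nat_lit 335905) (nat_lit 0) (.e (nat_lit 1999) (nat_lit 137) (.e (nat_lit 663568) (nat_lit 5) (.e (nat_lit 73782) (nat_lit 32) .nil)))))) (.g (nat_lit 0) .nil .nil))))))))))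

noncomputable def tv1352 : DT := (.nd (nat_lit 0) (.nd (nat_lit 1) (.nd (nat_lit 2) (.nd (nat_lit 3) (.nd (nat_lit 4) (.nd (nat_lit 5) 
(.lf (nat_lit 98560) (.g (nat_lit 2350) (.e (nat_lit 3090) (nat_lit 191) (.e (nat_lit 483386) (nat_lit 23) (.e (nat_lit 335907) (nat_lit 0) (.e (nat_lit 1994) (nat_lit 137) (.e (nat_lit 663568) (nat_lit 5) (.e (nat_lit 73782) (nat_lit 32) .nil)))))) (.g (nat_lit 0) .nil .nil))) 
(.lf (nat_lit 98592) (.g (nat_lit 1560) (.e (nat_lit 3090) (nat_lit 191) (.e (nat_lit 483393) (nat_lit 23) (.e (nat_lit 336288) (nat_lit 15) (.e (nat_lit 3716) (nat_lit 227) .nil)))) .nil))) (.nd (nat_lit 5) 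
(.lf (nat_lit 98576) (.g (nat_lit 1809) (.e (nat_lit 3090) (nat_lit 191) (.e (nat_lit 483386) (nat_lit 23) (.e (nat_lit 335985) (nat_lit 1) (.e (nat_lit 57871) (nat_lit 264) (.e (nat_lit 1210) (nat_lit 89) (.e (nat_lit 73781) (nat_lit 32) .nil)))))) (.g (nat_lit 0) .nil .nil))) 
(.lf (nat_lit 98608) (.g (nat_lit 1547) (.e (nat_lit 3090) (nat_lit 191) (.e (nat_lit 483403) (nat_lit 26) (.e (nat_lit 385097) (nat_lit 49) .nil))) .nil)))) (.nd (nat_lit 4) (.nd (nat_lit 5) 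
(.lf (nat_lit 98568) (.g (nat_lit 1863) (.e (nat_lit 3090) (nat_lit 191) (.e (nat_lit 483386) (nat_lit 23) (.e (nat_lit 335928) (nat_lit 0) (.e (nat_lit 2004) (nat_lit 138) (.e (nat_lit 671763) (nat_lit 5) (.e (nat_lit 73781) (nat_lit 32) .nil)))))) (.g (nat_lit 0) .nil .nil))) 
(.lf (nat_lit 98600) (.g (nat_lit 1705) (.e (nat_lit 3090) (nat_lit 191) (.e (nat_lit 483396) (nat_lit 24) (.e (nat_lit 344100) (nat_lit 18) (.e (nat_lit 5907) (nat_lit 320) (.e (nat_lit 1210) (nat_lit 89) .nil))))) .nil))) (.nd (nat_lit 5) 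
(.lf (nat_lit 98584) (.g (nat_lit 1695) (.e (nat_lit 3090) (nat_lit 191) (.e (nat_lit 483386) (nat_lit 23) (.e (nat_lit 336290) (nat_lit 15) (.e (nat_lit 3715) (nat_lit 227) (.e (nat_lit 778322) (nat_lit 5) (.e (nat_lit 73782) (nat_lit 32) .nil)))))) (.g (nat_lit 0) .nil .nil))) 
(.lf (nat_lit 98616) (.g (nat_lit 2506) (.e (nat_lit 3095) (nat_lit 192) (.e (nat_lit 491566) (nat_lit 12) (.e (nat_lit 385074) (nat_lit 31) (.e (nat_lit 573497) (nat_lit 17) .nil)))) .nil))))) (.nd (nat_lit 3) (.nd (nat_lit 4) (.nd (nat_lit 5) 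
(.lf (nat_lit 98564) (.g (nat_lit 1695) (.e (nat_lit 3090) (nat_lit 191) (.e (nat_lit 483386) (nat_lit 23) (.e (nat_lit 335908) (nat_lit 0) (.e (nat_lit 1998) (nat_lit 137) (.e (nat_lit 663568) (nat_lit 5) (.e (nat_lit 73782) (nat_lit 32) .nil)))))) (.g (nat_lit 0) .nil .nil))) 
(.lf (nat_lit 98596) (.g (nat_lit 1614) (.e (nat_lit 3090) (nat_lit 191) (.e (nat_lit 483395) (nat_lit 24) (.e (nat_lit 344096) (nat_lit 18) (.e (nat_lit 5898) (nat_lit 320) (.e (nat_lit 7936) (nat_lit 89) .nil))))) .nil))) (.nd (nat_lit 5) 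
(.lf (nat_lit 98580) (.g (nat_lit 2549) (.e (nat_lit 3090) (nat_lit 191) (.e (nat_lit 483386) (nat_lit 23) (.e (nat_lit 336030) (nat_lit 4) (.e (nat_lit 123182) (nat_lit 264) (.e (nat_lit 1212) (nat_lit 89) (.e (nat_lit 73782) (nat_lit 32) .nil)))))) (.g (nat_lit 0) .nil .nil))) 
(.lf (nat_lit 98612) (.g (nat_lit 3698) (.e (nat_lit 3095) (nat_lit 192) (.e (nat_lit 491563) (nat_lit 12) (.e (nat_lit 385074) (nat_lit 31) (.e (nat_lit 573493) (nat_lit 15) .nil)))) .nil)))) (.nd (nat_lit 4) (.nd (nat_lit 5) 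
(.lf (nat_lit 98572) (.g (nat_lit 2138) (.e (nat_lit 3090) (nat_lit 191) (.e (nat_lit 483386) (nat_lit 23) (.e (nat_lit 335928) (nat_lit 0) (.e (nat_lit 2006) (nat_lit 138) (.e (nat_lit 671763) (nat_lit 5) (.e (nat_lit 73781) (nat_lit 32) .nil)))))) (.g (nat_lit 0) .nil .nil))) 
(.lf (nat_lit 98604) (.g (nat_lit 1237) (.e (nat_lit 3090) (nat_lit 191) (.e (nat_lit 483403) (nat_lit 26) (.e (nat_lit 385043) (nat_lit 21) .nil))) .nil))) (.nd (nat_lit 5) 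
(.lf (nat_lit 98588) (.g (nat_lit 2112) (.e (nat_lit 3090) (nat_lit 191) (.e (nat_lit 483387) (nat_lit 23) (.e (nat_lit 335907) (nat_lit 0) (.e (nat_lit 1996) (nat_lit 137) (.e (nat_lit 663568) (nat_lit 5) (.e (nat_lit 73782) (nat_lit 32) .nil)))))) (.g (nat_lit 6) .nil .nil))) 
(.lf (nat_lit 98620) (.g (nat_lit 2203) (.e (nat_lit 3096) (nat_lit 192) (.e (nat_lit 491540) (nat_lit 3) (.e (nat_lit 98372) (nat_lit 29) (.e (nat_lit 450579) (nat_lit 5) (.e (nat_lit 532489) (nat_lit 0) (.e (nat_lit 6684) (nat_lit 357) .nil)))))) (.g (nat_lit 0) .nil .nil))))))) (.nd (nat_lit 2) (.nd (nat_lit 3) (.nd (nat_lit 4) (.nd (nat_lit 5) 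
(.lf (nat_lit 98562) (.g (nat_lit 1803) (.e (nat_lit 3090) (nat_lit 191) (.e (nat_lit 483386) (nat_lit 23) (.e (nat_lit 335908) (nat_lit 0) (.e (nat_lit 1994) (nat_lit 137) (.e (nat_lit 663568) (nat_lit 5) (.e (nat_lit 73782) (nat_lit 32) .nil)))))) (.g (nat_lit 0) .nil .nil))) 
(.lf (nat_lit 98594) (.g (nat_lit 2537) (.e (nat_lit 3090) (nat_lit 191) (.e (nat_lit 483394) (nat_lit 24) (.e (nat_lit 344097) (nat_lit 18) (.e (nat_lit 5907) (nat_lit 320) (.e (nat_lit 1210) (nat_lit 89) (.e (nat_lit 73781) (nat_lit 32) .nil)))))) (.g (nat_lit 4) .nil .nil)))) (.nd (nat_lit 5) 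
(.lf (nat_lit 98578) (.g (nat_lit 2742) (.e (nat_lit 3090) (nat_lit 191) (.e (nat_lit 483386) (nat_lit 23) (.e (nat_lit 335985) (nat_lit 1) (.e (nat_lit 57873) (nat_lit 264) (.e (nat_lit 1209) (nat_lit 89) (.e (nat_lit 73782) (nat_lit 32) .nil)))))) (.g (nat_lit 0) .nil .nil))) 
(.lf (nat_lit 98610) (.g (nat_lit 1249) (.e (nat_lit 3094) (nat_lit 191) (.e (nat_lit 483363) (nat_lit 18) (.e (nat_lit 57923) (nat_lit 281) .nil))) .nil)))) (.nd (nat_lit 4) (.nd (nat_lit 5) 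
(.lf (nat_lit 98570) (.g (nat_lit 1948) (.e (nat_lit 3090) (nat_lit 191) (.e (nat_lit 483386) (nat_lit 23) (.e (nat_lit 335928) (nat_lit 0) (.e (nat_lit 2005) (nat_lit 138) (.e (nat_lit 671763) (nat_lit 5) (.e (nat_lit 73781) (nat_lit 32) .nil)))))) (.g (nat_lit 0) .nil .nil))) 
(.lf (nat_lit 98602) (.g (nat_lit 633) (.e (nat_lit 3090) (nat_lit 191) (.e (nat_lit 483398) (nat_lit 25) (.e (nat_lit 368695) (nat_lit 40) (.e (nat_lit 671763) (nat_lit 5) .nil)))) .nil))) (.nd (nat_lit 5) 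
(.lf (nat_lit 98586) (.g (nat_lit 2162) (.e (nat_lit 3090) (nat_lit 191) (.e (nat_lit 483386) (nat_lit 23) (.e (nat_lit 336295) (nat_lit 15) (.e (nat_lit 3629) (nat_lit 227) (.e (nat_lit 778323) (nat_lit 5) (.e (nat_lit 73782) (nat_lit 32) .nil)))))) (.g (nat_lit 0) .nil .nil))) 
(.lf (nat_lit 98618) (.g (nat_lit 2222) (.e (nat_lit 3096) (nat_lit 192) (.e (nat_lit 491540) (nat_lit 3) (.e (nat_lit 98372) (nat_lit 29) (.e (nat_lit 450579) (nat_lit 5) (.e (nat_lit 532484) (nat_lit 0) (.e (nat_lit 6684) (nat_lit 357) .nil)))))) (.g (nat_lit 6) .nil .nil)))))) (.nd (nat_lit 3) (.nd (nat_lit 4) (.nd (nat_lit 5) 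
(.lf (nat_lit 98566) (.g (nat_lit 1965) (.e (nat_lit 3090) (nat_lit 191) (.e (nat_lit 483386) (nat_lit 23) (.e (nat_lit 335928) (nat_lit 0) (.e (nat_lit 2003) (nat_lit 138) (.e (nat_lit 671763) (nat_lit 5) (.e (nat_lit 73781) (nat_lit 32) .nil)))))) (.g (nat_lit 0) .nil .nil))) 
(.lf (nat_lit 98598) (.g (nat_lit 1500) (.e (nat_lit 3090) (nat_lit 191) (.e (nat_lit 483396) (nat_lit 24) (.e (nat_lit 344091) (nat_lit 18) (.e (nat_lit 5896) (nat_lit 320) (.e (nat_lit 7936) (nat_lit 89) .nil))))) .nil))) (.nd (nat_lit 5) 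
(.lf (nat_lit 98582) (.g (nat_lit 1708) (.e (nat_lit 3090) (nat_lit 191) (.e (nat_lit 483386) (nat_lit 23) (.e (nat_lit 336290) (nat_lit 15) (.e (nat_lit 3711) (nat_lit 227) (.e (nat_lit 778322) (nat_lit 5) (.e (nat_lit 73782) (nat_lit 32) .nil)))))) (.g (nat_lit 0) .nil .nil))) 
(.lf (nat_lit 98614) (.g (nat_lit 1172) (.e (nat_lit 3095) (nat_lit 192) (.e (nat_lit 491566) (nat_lit 12) (.e (nat_lit 385072) (nat_lit 31) .nil))) .nil)))) (.nd (nat_lit 4) (.nd (nat_lit 5) 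
(.lf (nat_lit 98574) (.g (nat_lit 2339) (.e (nat_lit 3090) (nat_lit 191) (.e (nat_lit 483386) (nat_lit 23) (.e (nat_lit 335985) (nat_lit 1) (.e (nat_lit 57870) (nat_lit 264) (.e (nat_lit 1209) (nat_lit 89) (.e (nat_lit 73782) (nat_lit 32) .nil)))))) (.g (nat_lit 0) .nil .nil))) 
(.lf (nat_lit 98606) (.g (nat_lit 1547) (.e (nat_lit 3090) (nat_lit 191) (.e (nat_lit 483403) (nat_lit 26) (.e (nat_lit 385045) (nat_lit 21) .nil))) .nil))) (.nd (nat_lit 5) 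
(.lf (nat_lit 98590) (.g (nat_lit 1216) (.e (nat_lit 3090) (nat_lit 191) (.e (nat_lit 483393) (nat_lit 23) (.e (nat_lit 335988) (nat_lit 1) (.e (nat_lit 65280) (nat_lit 264) .nil)))) .nil)) 
(.lf (nat_lit 98622) (.g (nat_lit 1032) (.e (nat_lit 3096) (nat_lit 192) (.e (nat_lit 491560) (nat_lit 10) (.e (nat_lit 344123) (nat_lit 24) .nil))) .nil))))))) (.nd (nat_lit 1) (.nd (nat_lit 2) (.nd (nat_lit 3) (.nd (nat_lit 4) (.nd (nat_lit 5) 
(.lf (nat_lit 98561) (.g (nat_lit 2200) (.e (nat_lit 3090) (nat_lit 191) (.e (nat_lit 483386) (nat_lit 23) (.e (nat_lit 335907) (nat_lit 0) (.e (nat_lit 1996) (nat_lit 137) (.e (nat_lit 663568) (nat_lit 5) (.e (nat_lit 73782) (nat_lit 32) .nil)))))) (.g (nat_lit 0) .nil .nil))) 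
(.lf (nat_lit 98593) (.g (nat_lit 1604) (.e (nat_lit 3090) (nat_lit 191) (.e (nat_lit 483394) (nat_lit 24) (.e (nat_lit 344097) (nat_lit 18) (.e (nat_lit 5906) (nat_lit 320) (.e (nat_lit 1210) (nat_lit 89) .nil))))) .nil))) (.nd (nat_lit 5) 
(.lf (nat_lit 98577) (.g (nat_lit 2463) (.e (nat_lit 3090) (nat_lit 191) (.e (nat_lit 483386) (nat_lit 23) (.e (nat_lit 335985) (nat_lit 1) (.e (nat_lit 57872) (nat_lit 264) (.e (nat_lit 1209) (nat_lit 89) (.e (nat_lit 73782) (nat_lit 32) .nil)))))) (.g (nat_lit 0) .nil .nil))) 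
(.lf (nat_lit 98609) (.g (nat_lit 1193) (.e (nat_lit 3090) (nat_lit 191) (.e (nat_lit 483403) (nat_lit 26) (.e (nat_lit 385099) (nat_lit 49) .nil))) .nil)))) (.nd (nat_lit 4) (.nd (nat_lit 5) 
(.lf (nat_lit 98569) (.g (nat_lit 1793) (.e (nat_lit 3090) (nat_lit 191) (.e (nat_lit 483386) (nat_lit 23) (.e (nat_lit 335928) (nat_lit 0) (.e (nat_lit 2004) (nat_lit 138) (.e (nat_lit 671763) (nat_lit 5) (.e (nat_lit 73782) (nat_lit 32) .nil)))))) (.g (nat_lit 0) .nil .nil))) 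
(.lf (nat_lit 98601) (.g (nat_lit 3006) (.e (nat_lit 3090) (nat_lit 191) (.e (nat_lit 483398) (nat_lit 25) (.e (nat_lit 368662) (nat_lit 18) (.e (nat_lit 5907) (nat_lit 320) (.e (nat_lit 1209) (nat_lit 89) (.e (nat_lit 73782) (nat_lit 32) .nil)))))) (.g (nat_lit 0) .nil .nil)))) (.nd (nat_lit 5) 
(.lf (nat_lit 98585) (.g (nat_lit 1477) (.e (nat_lit 3090) (nat_lit 191) (.e (nat_lit 483386) (nat_lit 23) (.e (nat_lit 336290) (nat_lit 15) (.e (nat_lit 3716) (nat_lit 227) (.e (nat_lit 778322) (nat_lit 5) (.e (nat_lit 73782) (nat_lit 32) .nil)))))) (.g (nat_lit 0) .nil .nil))) 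
(.lf (nat_lit 98617) (.g (nat_lit 1942) (.e (nat_lit 3096) (nat_lit 192) (.e (nat_lit 491540) (nat_lit 3) (.e (nat_lit 98372) (nat_lit 29) (.e (nat_lit 450579) (nat_lit 5) (.e (nat_lit 532484) (nat_lit 0) (.e (nat_lit 6650) (nat_lit 357) .nil)))))) (.g (nat_lit 5) .nil .nil)))))) (.nd (nat_lit 3) (.nd (nat_lit 4) (.nd (nat_lit 5) 
(.lf (nat_lit 98565) (.g (nat_lit 1861) (.e (nat_lit 3090) (nat_lit 191) (.e (nat_lit 483386) (nat_lit 23) (.e (nat_lit 335908) (nat_lit 0) (.e (nat_lit 1999) (nat_lit 137) (.e (nat_lit 663568) (nat_lit 5) (.e (nat_lit 73782) (nat_lit 32) .nil)))))) (.g (nat_lit 0) .nil .nil))) 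
(.lf (nat_lit 98597) (.g (nat_lit 769) (.e (nat_lit 3090) (nat_lit 191) (.e (nat_lit 483396) (nat_lit 24) (.e (nat_lit 344088) (nat_lit 18) (.e (nat_lit 5896) (nat_lit 320) .nil)))) .nil))) (.nd (nat_lit 5) 
(.lf (nat_lit 98581) (.g (nat_lit 696) (.e (nat_lit 3090) (nat_lit 191) (.e (nat_lit 483386) (nat_lit 23) (.e (nat_lit 336253) (nat_lit 15) (.e (nat_lit 3716) (nat_lit 227) .nil)))) .nil)) 
(.lf (nat_lit 98613) (.g (nat_lit 1364) (.e (nat_lit 3095) (nat_lit 192) (.e (nat_lit 491563) (nat_lit 12) (.e (nat_lit 385102) (nat_lit 50) .nil))) .nil)))) (.nd (nat_lit 4) (.nd (nat_lit 5) 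
(.lf (nat_lit 98573) (.g (nat_lit 2039) (.e (nat_lit 3090) (nat_lit 191) (.e (nat_lit 483386) (nat_lit 23) (.e (nat_lit 335928) (nat_lit 0) (.e (nat_lit 2006) (nat_lit 138) (.e (nat_lit 671763) (nat_lit 5) (.e (nat_lit 73782) (nat_lit 32) .nil)))))) (.g (nat_lit 0) .nil .nil))) 
(.lf (nat_lit 98605) (.g (nat_lit 1547) (.e (nat_lit 3090) (nat_lit 191) (.e (nat_lit 483403) (nat_lit 26) (.e (nat_lit 385044) (nat_lit 21) .nil))) .nil))) (.nd (nat_lit 5) 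
(.lf (nat_lit 98589) (.g (nat_lit 595) (.e (nat_lit 3090) (nat_lit 191) (.e (nat_lit 483387) (nat_lit 23) (.e (nat_lit 336253) (nat_lit 15) (.e (nat_lit 3716) (nat_lit 227) .nil)))) .nil)) 
(.lf (nat_lit 98621) (.g (nat_lit 2079) (.e (nat_lit 3096) (nat_lit 192) (.e (nat_lit 491540) (nat_lit 3) (.e (nat_lit 98373) (nat_lit 29) (.e (nat_lit 450587) (nat_lit 10) (.e (nat_lit 573473) (nat_lit 12) .nil))))) .nil)))))) (.nd (nat_lit 2) (.nd (nat_lit 3) (.nd (nat_lit 4) (.nd (nat_lit 5) 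
(.lf (nat_lit 98563) (.g (nat_lit 1658) (.e (nat_lit 3090) (nat_lit 191) (.e (nat_lit 483386) (nat_lit 23) (.e (nat_lit 335908) (nat_lit 0) (.e (nat_lit 1996) (nat_lit 137) (.e (nat_lit 663568) (nat_lit 5) (.e (nat_lit 73782) (nat_lit 32) .nil)))))) (.g (nat_lit 0) .nil .nil))) 
(.lf (nat_lit 98595) (.g (nat_lit 2557) (.e (nat_lit 3090) (nat_lit 191) (.e (nat_lit 483394) (nat_lit 24) (.e (nat_lit 344097) (nat_lit 18) (.e (nat_lit 5907) (nat_lit 320) (.e (nat_lit 1210) (nat_lit 89) (.e (nat_lit 73782) (nat_lit 32) .nil)))))) (.g (nat_lit 4) .nil .nil)))) (.nd (nat_lit 5) 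
(.lf (nat_lit 98579) (.g (nat_lit 2554) (.e (nat_lit 3090) (nat_lit 191) (.e (nat_lit 483386) (nat_lit 23) (.e (nat_lit 335985) (nat_lit 1) (.e (nat_lit 57873) (nat_lit 264) (.e (nat_lit 1211) (nat_lit 89) (.e (nat_lit 73781) (nat_lit 32) .nil)))))) (.g (nat_lit 0) .nil .nil))) 
(.lf (nat_lit 98611) (.g (nat_lit 625) (.e (nat_lit 3094) (nat_lit 191) (.e (nat_lit 483413) (nat_lit 27) (.e (nat_lit 401414) (nat_lit 0) .nil))) .nil)))) (.nd (nat_lit 4) (.nd (nat_lit 5) 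
(.lf (nat_lit 98571) (.g (nat_lit 1832) (.e (nat_lit 3090) (nat_lit 191) (.e (nat_lit 483386) (nat_lit 23) (.e (nat_lit 335928) (nat_lit 0) (.e (nat_lit 2005) (nat_lit 138) (.e (nat_lit 671763) (nat_lit 5) (.e (nat_lit 73782) (nat_lit 32) .nil)))))) (.g (nat_lit 0) .nil .nil))) 
(.lf (nat_lit 98603) (.g (nat_lit 1299) (.e (nat_lit 3090) (nat_lit 191) (.e (nat_lit 483400) (nat_lit 25) (.e (nat_lit 368662) (nat_lit 18) (.e (nat_lit 5905) (nat_lit 320) (.e (nat_lit 1211) (nat_lit 89) .nil))))) .nil))) (.nd (nat_lit 5) 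
(.lf (nat_lit 98587) (.g (nat_lit 2263) (.e (nat_lit 3090) (nat_lit 191) (.e (nat_lit 483387) (nat_lit 23) (.e (nat_lit 335907) (nat_lit 0) (.e (nat_lit 1994) (nat_lit 137) (.e (nat_lit 663568) (nat_lit 5) (.e (nat_lit 73782) (nat_lit 32) .nil)))))) (.g (nat_lit 6) .nil .nil))) 
(.lf (nat_lit 98619) (.g (nat_lit 1673) (.e (nat_lit 3096) (nat_lit 192) (.e (nat_lit 491540) (nat_lit 3) (.e (nat_lit 98372) (nat_lit 29) (.e (nat_lit 450579) (nat_lit 5) (.e (nat_lit 532488) (nat_lit 0) (.e (nat_lit 6684) (nat_lit 357) .nil)))))) (.g (nat_lit 5) .nil .nil)))))) (.nd (nat_lit 3) (.nd (nat_lit 4) (.nd (nat_lit 5) 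
(.lf (nat_lit 98567) (.g (nat_lit 1900) (.e (nat_lit 3090) (nat_lit 191) (.e (nat_lit 483386) (nat_lit 23) (.e (nat_lit 335928) (nat_lit 0) (.e (nat_lit 2003) (nat_lit 138) (.e (nat_lit 671763) (nat_lit 5) (.e (nat_lit 73782) (nat_lit 32) .nil)))))) (.g (nat_lit 0) .nil .nil))) 
(.lf (nat_lit 98599) (.g (nat_lit 1427) (.e (nat_lit 3090) (nat_lit 191) (.e (nat_lit 483396) (nat_lit 24) (.e (nat_lit 344100) (nat_lit 18) (.e (nat_lit 5905) (nat_lit 320) (.e (nat_lit 1210) (nat_lit 89) .nil))))) .nil))) (.nd (nat_lit 5) 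
(.lf (nat_lit 98583) (.g (nat_lit 1639) (.e (nat_lit 3090) (nat_lit 191) (.e (nat_lit 483386) (nat_lit 23) (.e (nat_lit 336290) (nat_lit 15) (.e (nat_lit 3714) (nat_lit 227) (.e (nat_lit 778322) (nat_lit 5) (.e (nat_lit 73782) (nat_lit 32) .nil)))))) (.g (nat_lit 0) .nil .nil))) 
(.lf (nat_lit 98615) (.g (nat_lit 2506) (.e (nat_lit 3095) (nat_lit 192) (.e (nat_lit 491566) (nat_lit 12) (.e (nat_lit 385074) (nat_lit 31) (.e (nat_lit 573449) (nat_lit 9) .nil)))) .nil)))) (.nd (nat_lit 4) (.nd (nat_lit 5) 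
(.lf (nat_lit 98575) (.g (nat_lit 2312) (.e (nat_lit 3090) (nat_lit 191) (.e (nat_lit 483386) (nat_lit 23) (.e (nat_lit 335985) (nat_lit 1) (.e (nat_lit 57871) (nat_lit 264) (.e (nat_lit 1209) (nat_lit 89) (.e (nat_lit 73782) (nat_lit 32) .nil)))))) (.g (nat_lit 0) .nil .nil))) 
(.lf (nat_lit 98607) (.g (nat_lit 1037) (.e (nat_lit 3090) (nat_lit 191) (.e (nat_lit 483403) (nat_lit 26) (.e (nat_lit 385049) (nat_lit 21) .nil))) .nil))) (.nd (nat_lit 5) 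
(.lf (nat_lit 98591) (.g (nat_lit 2103) (.e (nat_lit 3090) (nat_lit 191) (.e (nat_lit 483393) (nat_lit 23) (.e (nat_lit 335995) (nat_lit 1) (.e (nat_lit 57872) (nat_lit 264) (.e (nat_lit 1210) (nat_lit 89) .nil))))) .nil)) 
(.lf (nat_lit 98623) (.g (nat_lit 1252) (.e (nat_lit 3096) (nat_lit 192) (.e (nat_lit 491560) (nat_lit 10) (.e (nat_lit 344126) (nat_lit 25) .nil))) .nil))))))))

noncomputable def tv1353 : DT := (.nd (nat_lit 0) (.nd (nat_lit 1) (.nd (nat_lit 2) (.nd (nat_lit 3) (.nd (nat_lit 4) (.nd (nat_lit 5) 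
(.lf (nat_lit 98624) (.g (nat_lit 2663) (.e (nat_lit 3096) (nat_lit 192) (.e (nat_lit 491560) (nat_lit 10) (.e (nat_lit 344126) (nat_lit 25) (.e (nat_lit 548874) (nat_lit 5) .nil)))) .nil)) 
(.lf (nat_lit 98656) (.g (nat_lit 3130) (.e (nat_lit 3098) (nat_lit 192) (.e (nat_lit 491540) (nat_lit 3) (.e (nat_lit 98373) (nat_lit 29) (.e (nat_lit 450576) (nat_lit 2) (.e (nat_lit 507928) (nat_lit 10) (.e (nat_lit 5628) (nat_lit 312) .nil)))))) (.g (nat_lit 4) .nil .nil)))) (.nd (nat_lit 5) 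
(.lf (nat_lit 98640) (.g (nat_lit 2672) (.e (nat_lit 3098) (nat_lit 192) (.e (nat_lit 491540) (nat_lit 3) (.e (nat_lit 98370) (nat_lit 28) (.e (nat_lit 442424) (nat_lit 22) (.e (nat_lit 196628) (nat_lit 9) (.e (nat_lit 970) (nat_lit 81) (.e (nat_lit 6618) (nat_lit 357) .nil))))))) (.g (nat_lit 4) .nil .nil))) 
(.lf (nat_lit 98672) (.g (nat_lit 3240) (.e (nat_lit 3098) (nat_lit 192) (.e (nat_lit 491540) (nat_lit 3) (.e (nat_lit 98373) (nat_lit 29) (.e (nat_lit 450587) (nat_lit 10) (.e (nat_lit 573473) (nat_lit 12) (.e (nat_lit 57566) (nat_lit 52) (.e (nat_lit 753673) (nat_lit 5) .nil))))))) (.g (nat_lit 5) .nil .nil))))) (.nd (nat_lit 4) (.nd (nat_lit 5) 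
(.lf (nat_lit 98632) (.g (nat_lit 2745) (.e (nat_lit 3096) (nat_lit 192) (.e (nat_lit 491571) (nat_lit 13) (.e (nat_lit 393251) (nat_lit 18) (.e (nat_lit 164179) (nat_lit 154) (.e (nat_lit 57421) (nat_lit 13) .nil))))) .nil)) 
(.lf (nat_lit 98664) (.g (nat_lit 2378) (.e (nat_lit 3098) (nat_lit 192) (.e (nat_lit 491540) (nat_lit 3) (.e (nat_lit 98373) (nat_lit 29) (.e (nat_lit 450587) (nat_lit 10) (.e (nat_lit 573473) (nat_lit 12) (.e (nat_lit 57348) (nat_lit 0) (.e (nat_lit 6853) (nat_lit 371) (.e (nat_lit 2433) (nat_lit 157) .nil)))))))) (.g (nat_lit 4) .nil .nil)))) (.nd (nat_lit 5) 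
(.lf (nat_lit 98648) (.g (nat_lit 2095) (.e (nat_lit 3098) (nat_lit 192) (.e (nat_lit 491540) (nat_lit 3) (.e (nat_lit 98372) (nat_lit 29) (.e (nat_lit 450579) (nat_lit 5) (.e (nat_lit 532488) (nat_lit 0) (.e (nat_lit 7936) (nat_lit 357) .nil)))))) (.g (nat_lit 5) .nil .nil))) 
(.lf (nat_lit 98680) (.g (nat_lit 2984) (.e (nat_lit 3098) (nat_lit 192) (.e (nat_lit 491540) (nat_lit 3) (.e (nat_lit 98373) (nat_lit 29) (.e (nat_lit 450587) (nat_lit 10) (.e (nat_lit 573475) (nat_lit 12) (.e (nat_lit 57345) (nat_lit 0) (.e (nat_lit 6848) (nat_lit 371) (.e (nat_lit 2430) (nat_lit 157) .nil)))))))) (.g (nat_lit 5) .nil .nil)))))) 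
(.nd (nat_lit 3) (.nd (nat_lit 4) (.nd (nat_lit 5) 
(.lf (nat_lit 98628) (.g (nat_lit 3943) (.e (nat_lit 3096) (nat_lit 192) (.e (nat_lit 491563) (nat_lit 12) (.e (nat_lit 385074) (nat_lit 31) (.e (nat_lit 573482) (nat_lit 13) .nil)))) .nil)) 
(.lf (nat_lit 98660) (.g (nat_lit 3014) (.e (nat_lit 3098) (nat_lit 192) (.e (nat_lit 491540) (nat_lit 3) (.e (nat_lit 98373) (nat_lit 29) (.e (nat_lit 450581) (nat_lit 5) (.e (nat_lit 532482) (nat_lit 0) .nil))))) .nil))) (.nd (nat_lit 5) 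
(.lf (nat_lit 98644) (.g (nat_lit 771) (.e (nat_lit 3098) (nat_lit 192) (.e (nat_lit 491540) (nat_lit 3) (.e (nat_lit 98372) (nat_lit 29) (.e (nat_lit 450579) (nat_lit 5) .nil)))) .nil)) 
(.lf (nat_lit 98676) (.g (nat_lit 4355) (.e (nat_lit 3098) (nat_lit 192) (.e (nat_lit 491540) (nat_lit 3) (.e (nat_lit 98373) (nat_lit 29) (.e (nat_lit 450587) (nat_lit 10) (.e (nat_lit 573473) (nat_lit 12) (.e (nat_lit 57567) (nat_lit 52) (.e (nat_lit 753672) (nat_lit 5) .nil))))))) (.g (nat_lit 7) .nil .nil))))) (.nd (nat_lit 4) (.nd (nat_lit 5) 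
(.lf (nat_lit 98636) (.g (nat_lit 2448) (.e (nat_lit 3097) (nat_lit 192) (.e (nat_lit 491566) (nat_lit 12) (.e (nat_lit 385074) (nat_lit 31) (.e (nat_lit 573479) (nat_lit 13) (.e (nat_lit 65604) (nat_lit 9) (.e (nat_lit 336013) (nat_lit 2) (.e (nat_lit 90134) (nat_lit 9) .nil))))))) (.g (nat_lit 4) .nil .nil))) 
(.lf (nat_lit 98668) (.g (nat_lit 2167) (.e (nat_lit 3098) (nat_lit 192) (.e (nat_lit 491540) (nat_lit 3) (.e (nat_lit 98373) (nat_lit 29) (.e (nat_lit 450587) (nat_lit 10) (.e (nat_lit 573473) (nat_lit 12) (.e (nat_lit 57348) (nat_lit 0) (.e (nat_lit 6923) (nat_lit 371) (.e (nat_lit 2448) (nat_lit 157) .nil)))))))) (.g (nat_lit 4) .nil .nil)))) (.nd (nat_lit 5) 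
(.lf (nat_lit 98652) (.g (nat_lit 3014) (.e (nat_lit 3098) (nat_lit 192) (.e (nat_lit 491540) (nat_lit 3) (.e (nat_lit 98372) (nat_lit 29) (.e (nat_lit 450579) (nat_lit 5) (.e (nat_lit 532501) (nat_lit 1) (.e (nat_lit 57764) (nat_lit 215) (.e (nat_lit 2444) (nat_lit 157) .nil))))))) (.g (nat_lit 5) .nil .nil))) 
(.lf (nat_lit 98684) (.g (nat_lit 3279) (.e (nat_lit 3098) (nat_lit 192) (.e (nat_lit 491540) (nat_lit 3) (.e (nat_lit 98373) (nat_lit 29) (.e (nat_lit 450587) (nat_lit 10) (.e (nat_lit 573475) (nat_lit 12) (.e (nat_lit 57345) (nat_lit 0) (.e (nat_lit 6850) (nat_lit 371) (.e (nat_lit 2433) (nat_lit 157) .nil)))))))) (.g (nat_lit 5) .nil .nil))))))) 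
(.nd (nat_lit 2) (.nd (nat_lit 3) (.nd (nat_lit 4) (.nd (nat_lit 5) 
(.lf (nat_lit 98626) (.g (nat_lit 4873) (.e (nat_lit 3096) (nat_lit 192) (.e (nat_lit 491560) (nat_lit 10) (.e (nat_lit 344126) (nat_lit 25) (.e (nat_lit 548889) (nat_lit 9) (.e (nat_lit 65604) (nat_lit 9) .nil))))) .nil)) 
(.lf (nat_lit 98658) (.g (nat_lit 2812) (.e (nat_lit 3098) (nat_lit 192) (.e (nat_lit 491540) (nat_lit 3) (.e (nat_lit 98373) (nat_lit 29) (.e (nat_lit 450576) (nat_lit 2) (.e (nat_lit 507930) (nat_lit 10) .nil))))) .nil))) (.nd (nat_lit 5) 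
(.lf (nat_lit 98642) (.g (nat_lit 1893) (.e (nat_lit 3098) (nat_lit 192) (.e (nat_lit 491540) (nat_lit 3) (.e (nat_lit 98372) (nat_lit 29) (.e (nat_lit 458496) (nat_lit 1) (.e (nat_lit 500056) (nat_lit 17) (.e (nat_lit 65280) (nat_lit 201) .nil)))))) (.g (nat_lit 5) .nil .nil))) 
(.lf (nat_lit 98674) (.g (nat_lit 3856) (.e (nat_lit 3098) (nat_lit 192) (.e (nat_lit 491540) (nat_lit 3) (.e (nat_lit 98373) (nat_lit 29) (.e (nat_lit 450587) (nat_lit 10) (.e (nat_lit 573473) (nat_lit 12) (.e (nat_lit 57567) (nat_lit 52) (.e (nat_lit 753670) (nat_lit 5) .nil))))))) (.g (nat_lit 5) .nil .nil))))) (.nd (nat_lit 4) (.nd (nat_lit 5) 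
(.lf (nat_lit 98634) (.g (nat_lit 4167) (.e (nat_lit 3097) (nat_lit 192) (.e (nat_lit 491563) (nat_lit 12) (.e (nat_lit 385074) (nat_lit 31) (.e (nat_lit 573491) (nat_lit 15) .nil)))) .nil)) 
(.lf (nat_lit 98666) (.g (nat_lit 2334) (.e (nat_lit 3098) (nat_lit 192) (.e (nat_lit 491540) (nat_lit 3) (.e (nat_lit 98373) (nat_lit 29) (.e (nat_lit 450587) (nat_lit 10) (.e (nat_lit 573473) (nat_lit 12) (.e (nat_lit 57348) (nat_lit 0) (.e (nat_lit 6869) (nat_lit 371) (.e (nat_lit 2444) (nat_lit 157) .nil)))))))) (.g (nat_lit 4) .nil .nil)))) (.nd (nat_lit 5) 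
(.lf (nat_lit 98650) (.g (nat_lit 2316) (.e (nat_lit 3098) (nat_lit 192) (.e (nat_lit 491540) (nat_lit 3) (.e (nat_lit 98372) (nat_lit 29) (.e (nat_lit 450579) (nat_lit 5) (.e (nat_lit 532501) (nat_lit 1) (.e (nat_lit 57758) (nat_lit 215) (.e (nat_lit 2443) (nat_lit 157) .nil))))))) (.g (nat_lit 4) .nil .nil))) 
(.lf (nat_lit 98682) (.g (nat_lit 3228) (.e (nat_lit 3098) (nat_lit 192) (.e (nat_lit 491540) (nat_lit 3) (.e (nat_lit 98373) (nat_lit 29) (.e (nat_lit 450587) (nat_lit 10) (.e (nat_lit 573475) (nat_lit 12) (.e (nat_lit 57345) (nat_lit 0) (.e (nat_lit 6848) (nat_lit 371) (.e (nat_lit 2441) (nat_lit 157) .nil)))))))) (.g (nat_lit 5) .nil .nil)))))) 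
(.nd (nat_lit 3) (.nd (nat_lit 4) (.nd (nat_lit 5) 
(.lf (nat_lit 98630) (.g (nat_lit 4010) (.e (nat_lit 3096) (nat_lit 192) (.e (nat_lit 491563) (nat_lit 12) (.e (nat_lit 385074) (nat_lit 31) (.e (nat_lit 573493) (nat_lit 15) .nil)))) .nil)) 
(.lf (nat_lit 98662) (.g (nat_lit 2637) (.e (nat_lit 3098) (nat_lit 192) (.e (nat_lit 491540) (nat_lit 3) (.e (nat_lit 98373) (nat_lit 29) (.e (nat_lit 450587) (nat_lit 10) (.e (nat_lit 573473) (nat_lit 12) (.e (nat_lit 57348) (nat_lit 0) (.e (nat_lit 6850) (nat_lit 371) (.e (nat_lit 2450) (nat_lit 157) .nil)))))))) (.g (nat_lit 4) .nil .nil)))) (.nd (nat_lit 5) 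
(.lf (nat_lit 98646) (.g (nat_lit 2769) (.e (nat_lit 3098) (nat_lit 192) (.e (nat_lit 491540) (nat_lit 3) (.e (nat_lit 98372) (nat_lit 29) (.e (nat_lit 450579) (nat_lit 5) (.e (nat_lit 532482) (nat_lit 0) (.e (nat_lit 6619) (nat_lit 357) .nil)))))) (.g (nat_lit 0) .nil .nil))) 
(.lf (nat_lit 98678) (.g (nat_lit 4379) (.e (nat_lit 3098) (nat_lit 192) (.e (nat_lit 491540) (nat_lit 3) (.e (nat_lit 98373) (nat_lit 29) (.e (nat_lit 450587) (nat_lit 10) (.e (nat_lit 573473) (nat_lit 12) (.e (nat_lit 57567) (nat_lit 52) (.e (nat_lit 753674) (nat_lit 5) .nil))))))) (.g (nat_lit 0) .nil .nil))))) (.nd (nat_lit 4) (.nd (nat_lit 5) 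
(.lf (nat_lit 98638) (.g (nat_lit 2843) (.e (nat_lit 3098) (nat_lit 192) (.e (nat_lit 491540) (nat_lit 3) (.e (nat_lit 98370) (nat_lit 28) (.e (nat_lit 442424) (nat_lit 22) (.e (nat_lit 196628) (nat_lit 9) (.e (nat_lit 968) (nat_lit 81) (.e (nat_lit 6618) (nat_lit 357) .nil))))))) (.g (nat_lit 4) .nil .nil))) 
(.lf (nat_lit 98670) (.g (nat_lit 3323) (.e (nat_lit 3098) (nat_lit 192) (.e (nat_lit 491540) (nat_lit 3) (.e (nat_lit 98373) (nat_lit 29) (.e (nat_lit 450587) (nat_lit 10) (.e (nat_lit 573473) (nat_lit 12) (.e (nat_lit 57566) (nat_lit 52) (.e (nat_lit 753671) (nat_lit 5) .nil))))))) (.g (nat_lit 5) .nil .nil)))) (.nd (nat_lit 5) 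
(.lf (nat_lit 98654) (.g (nat_lit 2172) (.e (nat_lit 3098) (nat_lit 192) (.e (nat_lit 491540) (nat_lit 3) (.e (nat_lit 98373) (nat_lit 29) (.e (nat_lit 458496) (nat_lit 1) (.e (nat_lit 500056) (nat_lit 17) (.e (nat_lit 65280) (nat_lit 201) .nil)))))) (.g (nat_lit 5) .nil .nil))) 
(.lf (nat_lit 98686) (.g (nat_lit 1946) (.e (nat_lit 3098) (nat_lit 192) (.e (nat_lit 491540) (nat_lit 3) (.e (nat_lit 98373) (nat_lit 29) (.e (nat_lit 450587) (nat_lit 10) (.e (nat_lit 573475) (nat_lit 12) (.e (nat_lit 57345) (nat_lit 0) (.e (nat_lit 6852) (nat_lit 371) (.e (nat_lit 2430) (nat_lit 157) .nil)))))))) (.g (nat_lit 4) .nil .nil)))))))) 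
(.nd (nat_lit 1) (.nd (nat_lit 2) (.nd (nat_lit 3) (.nd (nat_lit 4) (.nd (nat_lit 5) 
(.lf (nat_lit 98625) (.g (nat_lit 3082) (.e (nat_lit 3096) (nat_lit 192) (.e (nat_lit 491560) (nat_lit 10) (.e (nat_lit 344126) (nat_lit 25) (.e (nat_lit 548889) (nat_lit 9) .nil)))) .nil)) 
(.lf (nat_lit 98657) (.g (nat_lit 2798) (.e (nat_lit 3098) (nat_lit 192) (.e (nat_lit 491540) (nat_lit 3) (.e (nat_lit 98373) (nat_lit 29) (.e (nat_lit 450576) (nat_lit 2) (.e (nat_lit 507929) (nat_lit 10) .nil))))) .nil))) (.nd (nat_lit 5) 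
(.lf (nat_lit 98641) (.g (nat_lit 874) (.e (nat_lit 3098) (nat_lit 192) (.e (nat_lit 491540) (nat_lit 3) (.e (nat_lit 98370) (nat_lit 28) (.e (nat_lit 442427) (nat_lit 23) .nil)))) .nil)) 
(.lf (nat_lit 98673) (.g (nat_lit 3277) (.e (nat_lit 3098) (nat_lit 192) (.e (nat_lit 491540) (nat_lit 3) (.e (nat_lit 98373) (nat_lit 29) (.e (nat_lit 450587) (nat_lit 10) (.e (nat_lit 573473) (nat_lit 12) (.e (nat_lit 57566) (nat_lit 52) (.e (nat_lit 753674) (nat_lit 5) .nil))))))) (.g (nat_lit 5) .nil .nil))))) (.nd (nat_lit 4) (.nd (nat_lit 5) 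
(.lf (nat_lit 98633) (.g (nat_lit 3292) (.e (nat_lit 3097) (nat_lit 192) (.e (nat_lit 491563) (nat_lit 12) (.e (nat_lit 385074) (nat_lit 31) (.e (nat_lit 573485) (nat_lit 13) .nil)))) .nil)) 
(.lf (nat_lit 98665) (.g (nat_lit 2360) (.e (nat_lit 3098) (nat_lit 192) (.e (nat_lit 491540) (nat_lit 3) (.e (nat_lit 98373) (nat_lit 29) (.e (nat_lit 450587) (nat_lit 10) (.e (nat_lit 573473) (nat_lit 12) (.e (nat_lit 57348) (nat_lit 0) (.e (nat_lit 6853) (nat_lit 371) (.e (nat_lit 2450) (nat_lit 157) .nil)))))))) (.g (nat_lit 4) .nil .nil)))) (.nd (nat_lit 5) 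
(.lf (nat_lit 98649) (.g (nat_lit 2149) (.e (nat_lit 3098) (nat_lit 192) (.e (nat_lit 491540) (nat_lit 3) (.e (nat_lit 98372) (nat_lit 29) (.e (nat_lit 450579) (nat_lit 5) (.e (nat_lit 532489) (nat_lit 0) (.e (nat_lit 7936) (nat_lit 357) .nil)))))) (.g (nat_lit 5) .nil .nil))) 
(.lf (nat_lit 98681) (.g (nat_lit 2679) (.e (nat_lit 3098) (nat_lit 192) (.e (nat_lit 491540) (nat_lit 3) (.e (nat_lit 98373) (nat_lit 29) (.e (nat_lit 450587) (nat_lit 10) (.e (nat_lit 573475) (nat_lit 12) (.e (nat_lit 57345) (nat_lit 0) (.e (nat_lit 6848) (nat_lit 371) (.e (nat_lit 2434) (nat_lit 157) .nil)))))))) (.g (nat_lit 5) .nil .nil)))))) 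
(.nd (nat_lit 3) (.nd (nat_lit 4) (.nd (nat_lit 5) 
(.lf (nat_lit 98629) (.g (nat_lit 4077) (.e (nat_lit 3096) (nat_lit 192) (.e (nat_lit 491563) (nat_lit 12) (.e (nat_lit 385074) (nat_lit 31) (.e (nat_lit 573491) (nat_lit 15) .nil)))) .nil)) 
(.lf (nat_lit 98661) (.g (nat_lit 2096) (.e (nat_lit 3098) (nat_lit 192) (.e (nat_lit 491540) (nat_lit 3) (.e (nat_lit 98373) (nat_lit 29) (.e (nat_lit 450587) (nat_lit 10) (.e (nat_lit 573473) (nat_lit 12) .nil))))) .nil))) (.nd (nat_lit 5) 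
(.lf (nat_lit 98645) (.g (nat_lit 3124) (.e (nat_lit 3098) (nat_lit 192) (.e (nat_lit 491540) (nat_lit 3) (.e (nat_lit 98372) (nat_lit 29) (.e (nat_lit 450579) (nat_lit 5) (.e (nat_lit 532481) (nat_lit 0) (.e (nat_lit 6619) (nat_lit 357) .nil)))))) (.g (nat_lit 0) .nil .nil))) 
(.lf (nat_lit 98677) (.g (nat_lit 4391) (.e (nat_lit 3098) (nat_lit 192) (.e (nat_lit 491540) (nat_lit 3) (.e (nat_lit 98373) (nat_lit 29) (.e (nat_lit 450587) (nat_lit 10) (.e (nat_lit 573473) (nat_lit 12) (.e (nat_lit 57567) (nat_lit 52) (.e (nat_lit 753673) (nat_lit 5) .nil))))))) (.g (nat_lit 0) .nil .nil))))) (.nd (nat_lit 4) (.nd (nat_lit 5) 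
(.lf (nat_lit 98637) (.g (nat_lit 2175) (.e (nat_lit 3097) (nat_lit 192) (.e (nat_lit 491566) (nat_lit 12) (.e (nat_lit 385104) (nat_lit 50) (.e (nat_lit 786483) (nat_lit 30) (.e (nat_lit 360451) (nat_lit 0) .nil))))) .nil)) 
(.lf (nat_lit 98669) (.g (nat_lit 2761) (.e (nat_lit 3098) (nat_lit 192) (.e (nat_lit 491540) (nat_lit 3) (.e (nat_lit 98373) (nat_lit 29) (.e (nat_lit 450587) (nat_lit 10) (.e (nat_lit 573473) (nat_lit 12) (.e (nat_lit 57566) (nat_lit 52) (.e (nat_lit 753670) (nat_lit 5) .nil))))))) (.g (nat_lit 4) .nil .nil)))) (.nd (nat_lit 5) 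
(.lf (nat_lit 98653) (.g (nat_lit 2368) (.e (nat_lit 3098) (nat_lit 192) (.e (nat_lit 491540) (nat_lit 3) (.e (nat_lit 98372) (nat_lit 29) (.e (nat_lit 450579) (nat_lit 5) (.e (nat_lit 532503) (nat_lit 1) (.e (nat_lit 57758) (nat_lit 215) (.e (nat_lit 2444) (nat_lit 157) .nil))))))) (.g (nat_lit 4) .nil .nil))) 
(.lf (nat_lit 98685) (.g (nat_lit 1855) (.e (nat_lit 3098) (nat_lit 192) (.e (nat_lit 491540) (nat_lit 3) (.e (nat_lit 98373) (nat_lit 29) (.e (nat_lit 450587) (nat_lit 10) (.e (nat_lit 573475) (nat_lit 12) (.e (nat_lit 57345) (nat_lit 0) (.e (nat_lit 6850) (nat_lit 371) (.e (nat_lit 2434) (nat_lit 157) .nil)))))))) (.g (nat_lit 4) .nil .nil))))))) 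
(.nd (nat_lit 2) (.nd (nat_lit 3) (.nd (nat_lit 4) (.nd (nat_lit 5) 
(.lf (nat_lit 98627) (.g (nat_lit 2046) (.e (nat_lit 3096) (nat_lit 192) (.e (nat_lit 491560) (nat_lit 10) (.e (nat_lit 344126) (nat_lit 25) (.e (nat_lit 548891) (nat_lit 11) .nil)))) .nil)) 
(.lf (nat_lit 98659) (.g (nat_lit 1700) (.e (nat_lit 3098) (nat_lit 192) (.e (nat_lit 491540) (nat_lit 3) (.e (nat_lit 98373) (nat_lit 29) (.e (nat_lit 450578) (nat_lit 5) .nil)))) .nil))) (.nd (nat_lit 5) 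
(.lf (nat_lit 98643) (.g (nat_lit 1088) (.e (nat_lit 3098) (nat_lit 192) (.e (nat_lit 491540) (nat_lit 3) (.e (nat_lit 98372) (nat_lit 29) (.e (nat_lit 450576) (nat_lit 2) .nil)))) .nil)) 
(.lf (nat_lit 98675) (.g (nat_lit 4479) (.e (nat_lit 3098) (nat_lit 192) (.e (nat_lit 491540) (nat_lit 3) (.e (nat_lit 98373) (nat_lit 29) (.e (nat_lit 450587) (nat_lit 10) (.e (nat_lit 573473) (nat_lit 12) (.e (nat_lit 57567) (nat_lit 52) (.e (nat_lit 753671) (nat_lit 5) .nil))))))) (.g (nat_lit 0) .nil .nil))))) (.nd (nat_lit 4) (.nd (nat_lit 5) 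
(.lf (nat_lit 98635) (.g (nat_lit 4096) (.e (nat_lit 3097) (nat_lit 192) (.e (nat_lit 491563) (nat_lit 12) (.e (nat_lit 385074) (nat_lit 31) (.e (nat_lit 573493) (nat_lit 15) .nil)))) .nil)) 
(.lf (nat_lit 98667) (.g (nat_lit 2345) (.e (nat_lit 3098) (nat_lit 192) (.e (nat_lit 491540) (nat_lit 3) (.e (nat_lit 98373) (nat_lit 29) (.e (nat_lit 450587) (nat_lit 10) (.e (nat_lit 573473) (nat_lit 12) (.e (nat_lit 57348) (nat_lit 0) (.e (nat_lit 6869) (nat_lit 371) (.e (nat_lit 2445) (nat_lit 157) .nil)))))))) (.g (nat_lit 4) .nil .nil)))) (.nd (nat_lit 5) 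
(.lf (nat_lit 98651) (.g (nat_lit 3067) (.e (nat_lit 3098) (nat_lit 192) (.e (nat_lit 491540) (nat_lit 3) (.e (nat_lit 98372) (nat_lit 29) (.e (nat_lit 450579) (nat_lit 5) (.e (nat_lit 532501) (nat_lit 1) (.e (nat_lit 57758) (nat_lit 215) (.e (nat_lit 2445) (nat_lit 157) .nil))))))) (.g (nat_lit 5) .nil .nil))) 
(.lf (nat_lit 98683) (.g (nat_lit 2320) (.e (nat_lit 3098) (nat_lit 192) (.e (nat_lit 491540) (nat_lit 3) (.e (nat_lit 98373) (nat_lit 29) (.e (nat_lit 450587) (nat_lit 10) (.e (nat_lit 573475) (nat_lit 12) (.e (nat_lit 57345) (nat_lit 0) (.e (nat_lit 6850) (nat_lit 371) (.e (nat_lit 2430) (nat_lit 157) .nil)))))))) (.g (nat_lit 4) .nil .nil)))))) 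
(.nd (nat_lit 3) (.nd (nat_lit 4) (.nd (nat_lit 5) 
(.lf (nat_lit 98631) (.g (nat_lit 1133) (.e (nat_lit 3096) (nat_lit 192) (.e (nat_lit 491566) (nat_lit 12) (.e (nat_lit 385063) (nat_lit 25) .nil))) .nil)) 
(.lf (nat_lit 98663) (.g (nat_lit 2273) (.e (nat_lit 3098) (nat_lit 192) (.e (nat_lit 491540) (nat_lit 3) (.e (nat_lit 98373) (nat_lit 29) (.e (nat_lit 450587) (nat_lit 10) (.e (nat_lit 573473) (nat_lit 12) (.e (nat_lit 57348) (nat_lit 0) (.e (nat_lit 6852) (nat_lit 371) (.e (nat_lit 2450) (nat_lit 157) .nil)))))))) (.g (nat_lit 4) .nil .nil)))) (.nd (nat_lit 5) 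
(.lf (nat_lit 98647) (.g (nat_lit 2258) (.e (nat_lit 3098) (nat_lit 192) (.e (nat_lit 491540) (nat_lit 3) (.e (nat_lit 98372) (nat_lit 29) (.e (nat_lit 450579) (nat_lit 5) (.e (nat_lit 532484) (nat_lit 0) (.e (nat_lit 7936) (nat_lit 357) .nil)))))) (.g (nat_lit 5) .nil .nil))) 
(.lf (nat_lit 98679) (.g (nat_lit 1872) (.e (nat_lit 3098) (nat_lit 192) (.e (nat_lit 491540) (nat_lit 3) (.e (nat_lit 98373) (nat_lit 29) (.e (nat_lit 450587) (nat_lit 10) (.e (nat_lit 573475) (nat_lit 12) (.e (nat_lit 57345) (nat_lit 0) (.e (nat_lit 6848) (nat_lit 371) (.e (nat_lit 2416) (nat_lit 157) .nil)))))))) (.g (nat_lit 4) .nil .nil))))) (.nd (nat_lit 4) (.nd (nat_lit 5) 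
(.lf (nat_lit 98639) (.g (nat_lit 2559) (.e (nat_lit 3098) (nat_lit 192) (.e (nat_lit 491540) (nat_lit 3) (.e (nat_lit 98370) (nat_lit 28) (.e (nat_lit 442424) (nat_lit 22) (.e (nat_lit 196628) (nat_lit 9) (.e (nat_lit 968) (nat_lit 81) (.e (nat_lit 6619) (nat_lit 357) .nil))))))) (.g (nat_lit 4) .nil .nil))) 
(.lf (nat_lit 98671) (.g (nat_lit 3240) (.e (nat_lit 3098) (nat_lit 192) (.e (nat_lit 491540) (nat_lit 3) (.e (nat_lit 98373) (nat_lit 29) (.e (nat_lit 450587) (nat_lit 10) (.e (nat_lit 573473) (nat_lit 12) (.e (nat_lit 57566) (nat_lit 52) (.e (nat_lit 753672) (nat_lit 5) .nil))))))) (.g (nat_lit 5) .nil .nil)))) (.nd (nat_lit 5) 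
(.lf (nat_lit 98655) (.g (nat_lit 2870) (.e (nat_lit 3098) (nat_lit 192) (.e (nat_lit 491540) (nat_lit 3) (.e (nat_lit 98373) (nat_lit 29) (.e (nat_lit 450576) (nat_lit 2) (.e (nat_lit 507928) (nat_lit 10) .nil))))) .nil)) 
(.lf (nat_lit 98687) (.g (nat_lit 2805) (.e (nat_lit 3098) (nat_lit 192) (.e (nat_lit 491540) (nat_lit 3) (.e (nat_lit 98373) (nat_lit 29) (.e (nat_lit 450587) (nat_lit 10) (.e (nat_lit 573475) (nat_lit 12) (.e (nat_lit 57345) (nat_lit 0) (.e (nat_lit 6852) (nat_lit 371) (.e (nat_lit 2433) (nat_lit 157) .nil)))))))) (.g (nat_lit 5) .nil .nil)))))))))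

noncomputable def tv1354 : DT := (.nd (nat_lit 0) (.nd (nat_lit 1) (.nd (nat_lit 2) (.nd (nat_lit 3) (.nd (nat_lit 4) (.nd (nat_lit 5) 
(.lf (nat_lit 98688) (.g (nat_lit 2544) (.e (nat_lit 3098) (nat_lit 192) (.e (nat_lit 491540) (nat_lit 3) (.e (nat_lit 98373) (nat_lit 29) (.e (nat_lit 450587) (nat_lit 10) (.e (nat_lit 573475) (nat_lit 12) (.e (nat_lit 57345) (nat_lit 0) (.e (nat_lit 6869) (nat_lit 371) (.e (nat_lit 2443) (nat_lit 157) .nil)))))))) (.g (nat_lit 5) .nil .nil))) 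
(.lf (nat_lit 98720) (.g (nat_lit 2605) (.e (nat_lit 3098) (nat_lit 192) (.e (nat_lit 491540) (nat_lit 3) (.e (nat_lit 98373) (nat_lit 29) (.e (nat_lit 450587) (nat_lit 10) (.e (nat_lit 573475) (nat_lit 12) (.e (nat_lit 57349) (nat_lit 0) (.e (nat_lit 6901) (nat_lit 371) (.e (nat_lit 2444) (nat_lit 157) .nil)))))))) (.g (nat_lit 5) .nil .nil)))) (.nd (nat_lit 5) 
(.lf (nat_lit 98704) (.g (nat_lit 3008) (.e (nat_lit 3098) (nat_lit 192) (.e (nat_lit 491540) (nat_lit 3) (.e (nat_lit 98373) (nat_lit 29) (.e (nat_lit 450587) (nat_lit 10) (.e (nat_lit 573475) (nat_lit 12) (.e (nat_lit 57346) (nat_lit 0) (.e (nat_lit 6866) (nat_lit 371) (.e (nat_lit 2448) (nat_lit 157) .nil)))))))) (.g (nat_lit 5) .nil .nil))) 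
(.lf (nat_lit 98736) (.g (nat_lit 3798) (.e (nat_lit 3098) (nat_lit 192) (.e (nat_lit 491540) (nat_lit 3) (.e (nat_lit 98373) (nat_lit 29) (.e (nat_lit 450587) (nat_lit 10) (.e (nat_lit 573475) (nat_lit 12) (.e (nat_lit 57567) (nat_lit 52) (.e (nat_lit 753673) (nat_lit 5) .nil))))))) (.g (nat_lit 0) .nil .nil))))) (.nd (nat_lit 4) (.nd (nat_lit 5) 
(.lf (nat_lit 98696) (.g (nat_lit 2304) (.e (nat_lit 3098) (nat_lit 192) (.e (nat_lit 491540) (nat_lit 3) (.e (nat_lit 98373) (nat_lit 29) (.e (nat_lit 450587) (nat_lit 10) (.e (nat_lit 573475) (nat_lit 12) (.e (nat_lit 57345) (nat_lit 0) (.e (nat_lit 6916) (nat_lit 371) (.e (nat_lit 2448) (nat_lit 157) .nil)))))))) (.g (nat_lit 4) .nil .nil))) 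
(.lf (nat_lit 98728) (.g (nat_lit 3172) (.e (nat_lit 3098) (nat_lit 192) (.e (nat_lit 491540) (nat_lit 3) (.e (nat_lit 98373) (nat_lit 29) (.e (nat_lit 450587) (nat_lit 10) (.e (nat_lit 573475) (nat_lit 12) (.e (nat_lit 57566) (nat_lit 52) (.e (nat_lit 753670) (nat_lit 5) .nil))))))) (.g (nat_lit 5) .nil .nil)))) (.nd (nat_lit 5) 
(.lf (nat_lit 98712) (.g (nat_lit 2349) (.e (nat_lit 3098) (nat_lit 192) (.e (nat_lit 491540) (nat_lit 3) (.e (nat_lit 98373) (nat_lit 29) (.e (nat_lit 450587) (nat_lit 10) (.e (nat_lit 573475) (nat_lit 12) (.e (nat_lit 57348) (nat_lit 0) (.e (nat_lit 6853) (nat_lit 371) (.e (nat_lit 2433) (nat_lit 157) .nil)))))))) (.g (nat_lit 4) .nil .nil))) 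
(.lf (nat_lit 98744) (.g (nat_lit 4284) (.e (nat_lit 3098) (nat_lit 192) (.e (nat_lit 491540) (nat_lit 3) (.e (nat_lit 98373) (nat_lit 29) (.e (nat_lit 450588) (nat_lit 10) (.e (nat_lit 573474) (nat_lit 12) (.e (nat_lit 57348) (nat_lit 0) (.e (nat_lit 6923) (nat_lit 371) (.e (nat_lit 2448) (nat_lit 157) .nil)))))))) (.g (nat_lit 5) .nil .nil)))))) 
(.nd (nat_lit 3) (.nd (nat_lit 4) (.nd (nat_lit 5) 
(.lf (nat_lit 98692) (.g (nat_lit 3195) (.e (nat_lit 3098) (nat_lit 192) (.e (nat_lit 491540) (nat_lit 3) (.e (nat_lit 98373) (nat_lit 29) (.e (nat_lit 450587) (nat_lit 10) (.e (nat_lit 573475) (nat_lit 12) (.e (nat_lit 57345) (nat_lit 0) (.e (nat_lit 6900) (nat_lit 371) (.e (nat_lit 2444) (nat_lit 157) .nil)))))))) (.g (nat_lit 5) .nil .nil))) 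
(.lf (nat_lit 98724) (.g (nat_lit 2611) (.e (nat_lit 3098) (nat_lit 192) (.e (nat_lit 491540) (nat_lit 3) (.e (nat_lit 98373) (nat_lit 29) (.e (nat_lit 450587) (nat_lit 10) (.e (nat_lit 573475) (nat_lit 12) (.e (nat_lit 57349) (nat_lit 0) (.e (nat_lit 6904) (nat_lit 371) (.e (nat_lit 2444) (nat_lit 157) .nil)))))))) (.g (nat_lit 5) .nil .nil)))) (.nd (nat_lit 5) 
(.lf (nat_lit 98708) (.g (nat_lit 1953) (.e (nat_lit 3098) (nat_lit 192) (.e (nat_lit 491540) (nat_lit 3) (.e (nat_lit 98373) (nat_lit 29) (.e (nat_lit 450587) (nat_lit 10) (.e (nat_lit 573475) (nat_lit 12) (.e (nat_lit 57346) (nat_lit 0) (.e (nat_lit 6920) (nat_lit 371) (.e (nat_lit 2442) (nat_lit 157) .nil)))))))) (.g (nat_lit 4) .nil .nil))) 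
(.lf (nat_lit 98740) (.g (nat_lit 4466) (.e (nat_lit 3098) (nat_lit 192) (.e (nat_lit 491540) (nat_lit 3) (.e (nat_lit 98373) (nat_lit 29) (.e (nat_lit 450588) (nat_lit 10) (.e (nat_lit 573474) (nat_lit 12) (.e (nat_lit 57348) (nat_lit 0) (.e (nat_lit 6853) (nat_lit 371) (.e (nat_lit 2433) (nat_lit 157) .nil)))))))) (.g (nat_lit 5) .nil .nil))))) (.nd (nat_lit 4) (.nd (nat_lit 5) 
(.lf (nat_lit 98700) (.g (nat_lit 2050) (.e (nat_lit 3098) (nat_lit 192) (.e (nat_lit 491540) (nat_lit 3) (.e (nat_lit 98373) (nat_lit 29) (.e (nat_lit 450587) (nat_lit 10) (.e (nat_lit 573475) (nat_lit 12) (.e (nat_lit 57346) (nat_lit 0) (.e (nat_lit 6864) (nat_lit 371) (.e (nat_lit 2442) (nat_lit 157) .nil)))))))) (.g (nat_lit 4) .nil .nil))) 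
(.lf (nat_lit 98732) (.g (nat_lit 3688) (.e (nat_lit 3098) (nat_lit 192) (.e (nat_lit 491540) (nat_lit 3) (.e (nat_lit 98373) (nat_lit 29) (.e (nat_lit 450587) (nat_lit 10) (.e (nat_lit 573475) (nat_lit 12) (.e (nat_lit 57566) (nat_lit 52) (.e (nat_lit 753674) (nat_lit 5) .nil))))))) (.g (nat_lit 0) .nil .nil)))) (.nd (nat_lit 5) 
(.lf (nat_lit 98716) (.g (nat_lit 2167) (.e (nat_lit 3098) (nat_lit 192) (.e (nat_lit 491540) (nat_lit 3) (.e (nat_lit 98373) (nat_lit 29) (.e (nat_lit 450587) (nat_lit 10) (.e (nat_lit 573475) (nat_lit 12) (.e (nat_lit 57348) (nat_lit 0) (.e (nat_lit 6923) (nat_lit 371) (.e (nat_lit 2448) (nat_lit 157) .nil)))))))) (.g (nat_lit 4) .nil .nil))) 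
(.lf (nat_lit 98748) (.g (nat_lit 1802) (.e (nat_lit 3098) (nat_lit 192) (.e (nat_lit 491558) (nat_lit 10) (.e (nat_lit 344115) (nat_lit 20) (.e (nat_lit 507906) (nat_lit 0) (.e (nat_lit 5412) (nat_lit 303) (.e (nat_lit 73739) (nat_lit 1) (.e (nat_lit 499828) (nat_lit 5) .nil))))))) (.g (nat_lit 4) .nil .nil))))))) (.nd (nat_lit 2) (.nd (nat_lit 3) (.nd (nat_lit 4) (.nd (nat_lit 5) 
(.lf (nat_lit 98690) (.g (nat_lit 2765) (.e (nat_lit 3098) (nat_lit 192) (.e (nat_lit 491540) (nat_lit 3) (.e (nat_lit 98373) (nat_lit 29) (.e (nat_lit 450587) (nat_lit 10) (.e (nat_lit 573475) (nat_lit 12) (.e (nat_lit 57345) (nat_lit 0) (.e (nat_lit 6893) (nat_lit 371) (.e (nat_lit 2440) (nat_lit 157) .nil)))))))) (.g (nat_lit 5) .nil .nil))) 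
(.lf (nat_lit 98722) (.g (nat_lit 2635) (.e (nat_lit 3098) (nat_lit 192) (.e (nat_lit 491540) (nat_lit 3) (.e (nat_lit 98373) (nat_lit 29) (.e (nat_lit 450587) (nat_lit 10) (.e (nat_lit 573475) (nat_lit 12) (.e (nat_lit 57349) (nat_lit 0) (.e (nat_lit 6903) (nat_lit 371) (.e (nat_lit 2444) (nat_lit 157) .nil)))))))) (.g (nat_lit 5) .nil .nil)))) (.nd (nat_lit 5) 
(.lf (nat_lit 98706) (.g (nat_lit 2158) (.e (nat_lit 3098) (nat_lit 192) (.e (nat_lit 491540) (nat_lit 3) (.e (nat_lit 98373) (nat_lit 29) (.e (nat_lit 450587) (nat_lit 10) (.e (nat_lit 573475) (nat_lit 12) (.e (nat_lit 57346) (nat_lit 0) (.e (nat_lit 6916) (nat_lit 371) (.e (nat_lit 2442) (nat_lit 157) .nil)))))))) (.g (nat_lit 4) .nil .nil))) 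
(.lf (nat_lit 98738) (.g (nat_lit 5497) (.e (nat_lit 3098) (nat_lit 192) (.e (nat_lit 491540) (nat_lit 3) (.e (nat_lit 98373) (nat_lit 29) (.e (nat_lit 450588) (nat_lit 10) (.e (nat_lit 573473) (nat_lit 12) .nil))))) .nil)))) (.nd (nat_lit 4) (.nd (nat_lit 5) 
(.lf (nat_lit 98698) (.g (nat_lit 2034) (.e (nat_lit 3098) (nat_lit 192) (.e (nat_lit 491540) (nat_lit 3) (.e (nat_lit 98373) (nat_lit 29) (.e (nat_lit 450587) (nat_lit 10) (.e (nat_lit 573475) (nat_lit 12) (.e (nat_lit 57346) (nat_lit 0) (.e (nat_lit 6863) (nat_lit 371) (.e (nat_lit 2450) (nat_lit 157) .nil)))))))) (.g (nat_lit 4) .nil .nil))) 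
(.lf (nat_lit 98730) (.g (nat_lit 3651) (.e (nat_lit 3098) (nat_lit 192) (.e (nat_lit 491540) (nat_lit 3) (.e (nat_lit 98373) (nat_lit 29) (.e (nat_lit 450587) (nat_lit 10) (.e (nat_lit 573475) (nat_lit 12) (.e (nat_lit 57566) (nat_lit 52) (.e (nat_lit 753672) (nat_lit 5) .nil))))))) (.g (nat_lit 0) .nil .nil)))) (.nd (nat_lit 5) 
(.lf (nat_lit 98714) (.g (nat_lit 2305) (.e (nat_lit 3098) (nat_lit 192) (.e (nat_lit 491540) (nat_lit 3) (.e (nat_lit 98373) (nat_lit 29) (.e (nat_lit 450587) (nat_lit 10) (.e (nat_lit 573475) (nat_lit 12) (.e (nat_lit 57348) (nat_lit 0) (.e (nat_lit 6869) (nat_lit 371) (.e (nat_lit 2444) (nat_lit 157) .nil)))))))) (.g (nat_lit 4) .nil .nil))) 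
(.lf (nat_lit 98746) (.g (nat_lit 820) (.e (nat_lit 3098) (nat_lit 192) (.e (nat_lit 491550) (nat_lit 9) (.e (nat_lit 336018) (nat_lit 3) .nil))) .nil))))) (.nd (nat_lit 3) (.nd (nat_lit 4) (.nd (nat_lit 5) 
(.lf (nat_lit 98694) (.g (nat_lit 3404) (.e (nat_lit 3098) (nat_lit 192) (.e (nat_lit 491540) (nat_lit 3) (.e (nat_lit 98373) (nat_lit 29) (.e (nat_lit 450587) (nat_lit 10) (.e (nat_lit 573475) (nat_lit 12) (.e (nat_lit 57345) (nat_lit 0) (.e (nat_lit 6903) (nat_lit 371) (.e (nat_lit 2444) (nat_lit 157) .nil)))))))) (.g (nat_lit 5) .nil .nil))) 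
(.lf (nat_lit 98726) (.g (nat_lit 3861) (.e (nat_lit 3098) (nat_lit 192) (.e (nat_lit 491540) (nat_lit 3) (.e (nat_lit 98373) (nat_lit 29) (.e (nat_lit 450587) (nat_lit 10) (.e (nat_lit 573475) (nat_lit 12) (.e (nat_lit 57565) (nat_lit 52) (.e (nat_lit 753671) (nat_lit 5) .nil))))))) (.g (nat_lit 5) .nil .nil)))) (.nd (nat_lit 5) 
(.lf (nat_lit 98710) (.g (nat_lit 2610) (.e (nat_lit 3098) (nat_lit 192) (.e (nat_lit 491540) (nat_lit 3) (.e (nat_lit 98373) (nat_lit 29) (.e (nat_lit 450587) (nat_lit 10) (.e (nat_lit 573475) (nat_lit 12) (.e (nat_lit 57348) (nat_lit 0) (.e (nat_lit 6850) (nat_lit 371) (.e (nat_lit 2450) (nat_lit 157) .nil)))))))) (.g (nat_lit 5) .nil .nil))) 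
(.lf (nat_lit 98742) (.g (nat_lit 4422) (.e (nat_lit 3098) (nat_lit 192) (.e (nat_lit 491540) (nat_lit 3) (.e (nat_lit 98373) (nat_lit 29) (.e (nat_lit 450588) (nat_lit 10) (.e (nat_lit 573474) (nat_lit 12) (.e (nat_lit 57348) (nat_lit 0) (.e (nat_lit 6869) (nat_lit 371) (.e (nat_lit 2444) (nat_lit 157) .nil)))))))) (.g (nat_lit 5) .nil .nil))))) (.nd (nat_lit 4) (.nd (nat_lit 5) 
(.lf (nat_lit 98702) (.g (nat_lit 3332) (.e (nat_lit 3098) (nat_lit 192) (.e (nat_lit 491540) (nat_lit 3) (.e (nat_lit 98373) (nat_lit 29) (.e (nat_lit 450587) (nat_lit 10) (.e (nat_lit 573475) (nat_lit 12) (.e (nat_lit 57346) (nat_lit 0) (.e (nat_lit 6864) (nat_lit 371) (.e (nat_lit 2447) (nat_lit 157) .nil)))))))) (.g (nat_lit 5) .nil .nil))) 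
(.lf (nat_lit 98734) (.g (nat_lit 3889) (.e (nat_lit 3098) (nat_lit 192) (.e (nat_lit 491540) (nat_lit 3) (.e (nat_lit 98373) (nat_lit 29) (.e (nat_lit 450587) (nat_lit 10) (.e (nat_lit 573475) (nat_lit 12) (.e (nat_lit 57567) (nat_lit 52) (.e (nat_lit 753671) (nat_lit 5) .nil))))))) (.g (nat_lit 0) .nil .nil)))) (.nd (nat_lit 5) 
(.lf (nat_lit 98718) (.g (nat_lit 2082) (.e (nat_lit 3098) (nat_lit 192) (.e (nat_lit 491540) (nat_lit 3) (.e (nat_lit 98373) (nat_lit 29) (.e (nat_lit 450587) (nat_lit 10) (.e (nat_lit 573475) (nat_lit 12) (.e (nat_lit 57349) (nat_lit 0) (.e (nat_lit 6898) (nat_lit 371) (.e (nat_lit 2440) (nat_lit 157) .nil)))))))) (.g (nat_lit 4) .nil .nil))) 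
(.lf (nat_lit 98750) (.g (nat_lit 669) (.e (nat_lit 3098) (nat_lit 192) (.e (nat_lit 491563) (nat_lit 12) (.e (nat_lit 385074) (nat_lit 31) .nil))) .nil))))))) (.nd (nat_lit 1) (.nd (nat_lit 2) (.nd (nat_lit 3) (.nd (nat_lit 4) (.nd (nat_lit 5) 
(.lf (nat_lit 98689) (.g (nat_lit 2198) (.e (nat_lit 3098) (nat_lit 192) (.e (nat_lit 491540) (nat_lit 3) (.e (nat_lit 98373) (nat_lit 29) (.e (nat_lit 450587) (nat_lit 10) (.e (nat_lit 573475) (nat_lit 12) (.e (nat_lit 57345) (nat_lit 0) (.e (nat_lit 6892) (nat_lit 371) (.e (nat_lit 2440) (nat_lit 157) .nil)))))))) (.g (nat_lit 4) .nil .nil))) 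
(.lf (nat_lit 98721) (.g (nat_lit 3050) (.e (nat_lit 3098) (nat_lit 192) (.e (nat_lit 491540) (nat_lit 3) (.e (nat_lit 98373) (nat_lit 29) (.e (nat_lit 450587) (nat_lit 10) (.e (nat_lit 573475) (nat_lit 12) (.e (nat_lit 57349) (nat_lit 0) (.e (nat_lit 6901) (nat_lit 371) (.e (nat_lit 2445) (nat_lit 157) .nil)))))))) (.g (nat_lit 5) .nil .nil)))) (.nd (nat_lit 5) 
(.lf (nat_lit 98705) (.g (nat_lit 2041) (.e (nat_lit 3098) (nat_lit 192) (.e (nat_lit 491540) (nat_lit 3) (.e (nat_lit 98373) (nat_lit 29) (.e (nat_lit 450587) (nat_lit 10) (.e (nat_lit 573475) (nat_lit 12) (.e (nat_lit 57346) (nat_lit 0) (.e (nat_lit 6891) (nat_lit 371) (.e (nat_lit 2445) (nat_lit 157) .nil)))))))) (.g (nat_lit 4) .nil .nil))) 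
(.lf (nat_lit 98737) (.g (nat_lit 3811) (.e (nat_lit 3098) (nat_lit 192) (.e (nat_lit 491540) (nat_lit 3) (.e (nat_lit 98373) (nat_lit 29) (.e (nat_lit 450587) (nat_lit 10) (.e (nat_lit 573475) (nat_lit 12) (.e (nat_lit 57567) (nat_lit 52) (.e (nat_lit 753674) (nat_lit 5) .nil))))))) (.g (nat_lit 0) .nil .nil))))) (.nd (nat_lit 4) (.nd (nat_lit 5) 
(.lf (nat_lit 98697) (.g (nat_lit 1919) (.e (nat_lit 3098) (nat_lit 192) (.e (nat_lit 491540) (nat_lit 3) (.e (nat_lit 98373) (nat_lit 29) (.e (nat_lit 450587) (nat_lit 10) (.e (nat_lit 573475) (nat_lit 12) (.e (nat_lit 57345) (nat_lit 0) (.e (nat_lit 6923) (nat_lit 371) (.e (nat_lit 2448) (nat_lit 157) .nil)))))))) (.g (nat_lit 4) .nil .nil))) 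
(.lf (nat_lit 98729) (.g (nat_lit 3734) (.e (nat_lit 3098) (nat_lit 192) (.e (nat_lit 491540) (nat_lit 3) (.e (nat_lit 98373) (nat_lit 29) (.e (nat_lit 450587) (nat_lit 10) (.e (nat_lit 573475) (nat_lit 12) (.e (nat_lit 57566) (nat_lit 52) (.e (nat_lit 753671) (nat_lit 5) .nil))))))) (.g (nat_lit 0) .nil .nil)))) (.nd (nat_lit 5) 
(.lf (nat_lit 98713) (.g (nat_lit 2331) (.e (nat_lit 3098) (nat_lit 192) (.e (nat_lit 491540) (nat_lit 3) (.e (nat_lit 98373) (nat_lit 29) (.e (nat_lit 450587) (nat_lit 10) (.e (nat_lit 573475) (nat_lit 12) (.e (nat_lit 57348) (nat_lit 0) (.e (nat_lit 6853) (nat_lit 371) (.e (nat_lit 2450) (nat_lit 157) .nil)))))))) (.g (nat_lit 4) .nil .nil))) 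
(.lf (nat_lit 98745) (.g (nat_lit 2569) (.e (nat_lit 3098) (nat_lit 192) (.e (nat_lit 491546) (nat_lit 9) (.e (nat_lit 336013) (nat_lit 2) (.e (nat_lit 90189) (nat_lit 18) .nil)))) .nil))))) (.nd (nat_lit 3) (.nd (nat_lit 4) (.nd (nat_lit 5) 
(.lf (nat_lit 98693) (.g (nat_lit 3397) (.e (nat_lit 3098) (nat_lit 192) (.e (nat_lit 491540) (nat_lit 3) (.e (nat_lit 98373) (nat_lit 29) (.e (nat_lit 450587) (nat_lit 10) (.e (nat_lit 573475) (nat_lit 12) (.e (nat_lit 57345) (nat_lit 0) (.e (nat_lit 6901) (nat_lit 371) (.e (nat_lit 2444) (nat_lit 157) .nil)))))))) (.g (nat_lit 5) .nil .nil))) 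
(.lf (nat_lit 98725) (.g (nat_lit 2818) (.e (nat_lit 3098) (nat_lit 192) (.e (nat_lit 491540) (nat_lit 3) (.e (nat_lit 98373) (nat_lit 29) (.e (nat_lit 450587) (nat_lit 10) (.e (nat_lit 573475) (nat_lit 12) (.e (nat_lit 57349) (nat_lit 0) (.e (nat_lit 6904) (nat_lit 371) (.e (nat_lit 2445) (nat_lit 157) .nil)))))))) (.g (nat_lit 5) .nil .nil)))) (.nd (nat_lit 5) 
(.lf (nat_lit 98709) (.g (nat_lit 3617) (.e (nat_lit 3098) (nat_lit 192) (.e (nat_lit 491540) (nat_lit 3) (.e (nat_lit 98373) (nat_lit 29) (.e (nat_lit 450587) (nat_lit 10) (.e (nat_lit 573475) (nat_lit 12) (.e (nat_lit 57346) (nat_lit 0) (.e (nat_lit 6920) (nat_lit 371) (.e (nat_lit 2448) (nat_lit 157) .nil)))))))) (.g (nat_lit 6) .nil .nil))) 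
(.lf (nat_lit 98741) (.g (nat_lit 4448) (.e (nat_lit 3098) (nat_lit 192) (.e (nat_lit 491540) (nat_lit 3) (.e (nat_lit 98373) (nat_lit 29) (.e (nat_lit 450588) (nat_lit 10) (.e (nat_lit 573474) (nat_lit 12) (.e (nat_lit 57348) (nat_lit 0) (.e (nat_lit 6853) (nat_lit 371) (.e (nat_lit 2450) (nat_lit 157) .nil)))))))) (.g (nat_lit 5) .nil .nil))))) (.nd (nat_lit 4) (.nd (nat_lit 5) 
(.lf (nat_lit 98701) (.g (nat_lit 2256) (.e (nat_lit 3098) (nat_lit 192) (.e (nat_lit 491540) (nat_lit 3) (.e (nat_lit 98373) (nat_lit 29) (.e (nat_lit 450587) (nat_lit 10) (.e (nat_lit 573475) (nat_lit 12) (.e (nat_lit 57346) (nat_lit 0) (.e (nat_lit 6864) (nat_lit 371) (.e (nat_lit 2446) (nat_lit 157) .nil)))))))) (.g (nat_lit 4) .nil .nil))) 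
(.lf (nat_lit 98733) (.g (nat_lit 3263) (.e (nat_lit 3098) (nat_lit 192) (.e (nat_lit 491540) (nat_lit 3) (.e (nat_lit 98373) (nat_lit 29) (.e (nat_lit 450587) (nat_lit 10) (.e (nat_lit 573475) (nat_lit 12) (.e (nat_lit 57567) (nat_lit 52) (.e (nat_lit 753670) (nat_lit 5) .nil))))))) (.g (nat_lit 5) .nil .nil)))) (.nd (nat_lit 5) 
(.lf (nat_lit 98717) (.g (nat_lit 2294) (.e (nat_lit 3098) (nat_lit 192) (.e (nat_lit 491540) (nat_lit 3) (.e (nat_lit 98373) (nat_lit 29) (.e (nat_lit 450587) (nat_lit 10) (.e (nat_lit 573475) (nat_lit 12) (.e (nat_lit 57349) (nat_lit 0) (.e (nat_lit 6893) (nat_lit 371) (.e (nat_lit 2440) (nat_lit 157) .nil)))))))) (.g (nat_lit 4) .nil .nil))) 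
(.lf (nat_lit 98749) (.g (nat_lit 4561) (.e (nat_lit 3098) (nat_lit 192) (.e (nat_lit 491560) (nat_lit 10) (.e (nat_lit 344126) (nat_lit 25) (.e (nat_lit 548889) (nat_lit 9) (.e (nat_lit 65598) (nat_lit 9) .nil))))) .nil)))))) (.nd (nat_lit 2) (.nd (nat_lit 3) (.nd (nat_lit 4) (.nd (nat_lit 5) 
(.lf (nat_lit 98691) (.g (nat_lit 2561) (.e (nat_lit 3098) (nat_lit 192) (.e (nat_lit 491540) (nat_lit 3) (.e (nat_lit 98373) (nat_lit 29) (.e (nat_lit 450587) (nat_lit 10) (.e (nat_lit 573475) (nat_lit 12) (.e (nat_lit 57345) (nat_lit 0) (.e (nat_lit 6898) (nat_lit 371) (.e (nat_lit 2440) (nat_lit 157) .nil)))))))) (.g (nat_lit 5) .nil .nil))) 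
(.lf (nat_lit 98723) (.g (nat_lit 3036) (.e (nat_lit 3098) (nat_lit 192) (.e (nat_lit 491540) (nat_lit 3) (.e (nat_lit 98373) (nat_lit 29) (.e (nat_lit 450587) (nat_lit 10) (.e (nat_lit 573475) (nat_lit 12) (.e (nat_lit 57349) (nat_lit 0) (.e (nat_lit 6903) (nat_lit 371) (.e (nat_lit 2445) (nat_lit 157) .nil)))))))) (.g (nat_lit 5) .nil .nil)))) (.nd (nat_lit 5) 
(.lf (nat_lit 98707) (.g (nat_lit 3585) (.e (nat_lit 3098) (nat_lit 192) (.e (nat_lit 491540) (nat_lit 3) (.e (nat_lit 98373) (nat_lit 29) (.e (nat_lit 450587) (nat_lit 10) (.e (nat_lit 573475) (nat_lit 12) (.e (nat_lit 57346) (nat_lit 0) (.e (nat_lit 6916) (nat_lit 371) (.e (nat_lit 2448) (nat_lit 157) .nil)))))))) (.g (nat_lit 6) .nil .nil))) 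
(.lf (nat_lit 98739) (.g (nat_lit 4361) (.e (nat_lit 3098) (nat_lit 192) (.e (nat_lit 491540) (nat_lit 3) (.e (nat_lit 98373) (nat_lit 29) (.e (nat_lit 450588) (nat_lit 10) (.e (nat_lit 573474) (nat_lit 12) (.e (nat_lit 57348) (nat_lit 0) (.e (nat_lit 6852) (nat_lit 371) (.e (nat_lit 2450) (nat_lit 157) .nil)))))))) (.g (nat_lit 5) .nil .nil))))) (.nd (nat_lit 4) (.nd (nat_lit 5) 
(.lf (nat_lit 98699) (.g (nat_lit 2296) (.e (nat_lit 3098) (nat_lit 192) (.e (nat_lit 491540) (nat_lit 3) (.e (nat_lit 98373) (nat_lit 29) (.e (nat_lit 450587) (nat_lit 10) (.e (nat_lit 573475) (nat_lit 12) (.e (nat_lit 57346) (nat_lit 0) (.e (nat_lit 6864) (nat_lit 371) (.e (nat_lit 2429) (nat_lit 157) .nil)))))))) (.g (nat_lit 4) .nil .nil))) 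
(.lf (nat_lit 98731) (.g (nat_lit 3651) (.e (nat_lit 3098) (nat_lit 192) (.e (nat_lit 491540) (nat_lit 3) (.e (nat_lit 98373) (nat_lit 29) (.e (nat_lit 450587) (nat_lit 10) (.e (nat_lit 573475) (nat_lit 12) (.e (nat_lit 57566) (nat_lit 52) (.e (nat_lit 753673) (nat_lit 5) .nil))))))) (.g (nat_lit 0) .nil .nil)))) (.nd (nat_lit 5) 
(.lf (nat_lit 98715) (.g (nat_lit 2316) (.e (nat_lit 3098) (nat_lit 192) (.e (nat_lit 491540) (nat_lit 3) (.e (nat_lit 98373) (nat_lit 29) (.e (nat_lit 450587) (nat_lit 10) (.e (nat_lit 573475) (nat_lit 12) (.e (nat_lit 57348) (nat_lit 0) (.e (nat_lit 6869) (nat_lit 371) (.e (nat_lit 2445) (nat_lit 157) .nil)))))))) (.g (nat_lit 4) .nil .nil))) 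
(.lf (nat_lit 98747) (.g (nat_lit 585) (.e (nat_lit 3098) (nat_lit 192) (.e (nat_lit 491558) (nat_lit 10) (.e (nat_lit 344115) (nat_lit 20) .nil))) .nil))))) (.nd (nat_lit 3) (.nd (nat_lit 4) (.nd (nat_lit 5) 
(.lf (nat_lit 98695) (.g (nat_lit 3430) (.e (nat_lit 3098) (nat_lit 192) (.e (nat_lit 491540) (nat_lit 3) (.e (nat_lit 98373) (nat_lit 29) (.e (nat_lit 450587) (nat_lit 10) (.e (nat_lit 573475) (nat_lit 12) (.e (nat_lit 57345) (nat_lit 0) (.e (nat_lit 6904) (nat_lit 371) (.e (nat_lit 2444) (nat_lit 157) .nil)))))))) (.g (nat_lit 5) .nil .nil))) 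
(.lf (nat_lit 98727) (.g (nat_lit 3537) (.e (nat_lit 3098) (nat_lit 192) (.e (nat_lit 491540) (nat_lit 3) (.e (nat_lit 98373) (nat_lit 29) (.e (nat_lit 450587) (nat_lit 10) (.e (nat_lit 573475) (nat_lit 12) (.e (nat_lit 57565) (nat_lit 52) (.e (nat_lit 753672) (nat_lit 5) .nil))))))) (.g (nat_lit 5) .nil .nil)))) (.nd (nat_lit 5) 
(.lf (nat_lit 98711) (.g (nat_lit 2244) (.e (nat_lit 3098) (nat_lit 192) (.e (nat_lit 491540) (nat_lit 3) (.e (nat_lit 98373) (nat_lit 29) (.e (nat_lit 450587) (nat_lit 10) (.e (nat_lit 573475) (nat_lit 12) (.e (nat_lit 57348) (nat_lit 0) (.e (nat_lit 6852) (nat_lit 371) (.e (nat_lit 2450) (nat_lit 157) .nil)))))))) (.g (nat_lit 4) .nil .nil))) 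
(.lf (nat_lit 98743) (.g (nat_lit 4433) (.e (nat_lit 3098) (nat_lit 192) (.e (nat_lit 491540) (nat_lit 3) (.e (nat_lit 98373) (nat_lit 29) (.e (nat_lit 450588) (nat_lit 10) (.e (nat_lit 573474) (nat_lit 12) (.e (nat_lit 57348) (nat_lit 0) (.e (nat_lit 6869) (nat_lit 371) (.e (nat_lit 2445) (nat_lit 157) .nil)))))))) (.g (nat_lit 5) .nil .nil))))) (.nd (nat_lit 4) (.nd (nat_lit 5) 
(.lf (nat_lit 98703) (.g (nat_lit 2241) (.e (nat_lit 3098) (nat_lit 192) (.e (nat_lit 491540) (nat_lit 3) (.e (nat_lit 98373) (nat_lit 29) (.e (nat_lit 450587) (nat_lit 10) (.e (nat_lit 573475) (nat_lit 12) (.e (nat_lit 57346) (nat_lit 0) (.e (nat_lit 6865) (nat_lit 371) (.e (nat_lit 2448) (nat_lit 157) .nil)))))))) (.g (nat_lit 4) .nil .nil))) 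
(.lf (nat_lit 98735) (.g (nat_lit 3762) (.e (nat_lit 3098) (nat_lit 192) (.e (nat_lit 491540) (nat_lit 3) (.e (nat_lit 98373) (nat_lit 29) (.e (nat_lit 450587) (nat_lit 10) (.e (nat_lit 573475) (nat_lit 12) (.e (nat_lit 57567) (nat_lit 52) (.e (nat_lit 753672) (nat_lit 5) .nil))))))) (.g (nat_lit 7) .nil .nil)))) (.nd (nat_lit 5) 
(.lf (nat_lit 98719) (.g (nat_lit 2651) (.e (nat_lit 3098) (nat_lit 192) (.e (nat_lit 491540) (nat_lit 3) (.e (nat_lit 98373) (nat_lit 29) (.e (nat_lit 450587) (nat_lit 10) (.e (nat_lit 573475) (nat_lit 12) (.e (nat_lit 57349) (nat_lit 0) (.e (nat_lit 6900) (nat_lit 371) (.e (nat_lit 2445) (nat_lit 157) .nil)))))))) (.g (nat_lit 5) .nil .nil))) 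
(.lf (nat_lit 98751) (.g (nat_lit 4029) (.e (nat_lit 3098) (nat_lit 192) (.e (nat_lit 491563) (nat_lit 12) (.e (nat_lit 385074) (nat_lit 31) (.e (nat_lit 573479) (nat_lit 13) .nil)))) .nil))))))))

noncomputable def tv1355 : DT := (.nd (nat_lit 0) (.nd (nat_lit 1) (.nd (nat_lit 2) (.nd (nat_lit 3) (.nd (nat_lit 4) (.nd (nat_lit 5) 
(.lf (nat_lit 98752) (.g (nat_lit 4039) (.e (nat_lit 3098) (nat_lit 192) (.e (nat_lit 491563) (nat_lit 12) (.e (nat_lit 385074) (nat_lit 31) (.e (nat_lit 573481) (nat_lit 13) .nil)))) .nil)) 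
(.lf (nat_lit 98784) (.g (nat_lit 1062) (.e (nat_lit 3098) (nat_lit 192) (.e (nat_lit 491566) (nat_lit 12) (.e (nat_lit 385104) (nat_lit 50) (.e (nat_lit 786483) (nat_lit 30) .nil)))) .nil))) (.nd (nat_lit 5) 
(.lf (nat_lit 98768) (.g (nat_lit 6193) (.e (nat_lit 3098) (nat_lit 192) (.e (nat_lit 491566) (nat_lit 12) (.e (nat_lit 385049) (nat_lit 21) (.e (nat_lit 4194) (nat_lit 251) (.e (nat_lit 1220) (nat_lit 90) (.e (nat_lit 81953) (nat_lit 22) (.e (nat_lit 90134) (nat_lit 9) .nil))))))) (.g (nat_lit 7) .nil .nil))) 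
(.lf (nat_lit 98800) (.g (nat_lit 1696) (.e (nat_lit 3099) (nat_lit 192) (.e (nat_lit 491540) (nat_lit 3) (.e (nat_lit 98372) (nat_lit 29) (.e (nat_lit 450579) (nat_lit 5) (.e (nat_lit 532489) (nat_lit 0) (.e (nat_lit 6691) (nat_lit 357) .nil)))))) (.g (nat_lit 4) .nil .nil))))) (.nd (nat_lit 4) (.nd (nat_lit 5) 
(.lf (nat_lit 98760) (.g (nat_lit 542) (.e (nat_lit 3098) (nat_lit 192) (.e (nat_lit 491565) (nat_lit 12) (.e (nat_lit 385102) (nat_lit 50) .nil))) .nil)) 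
(.lf (nat_lit 98792) (.g (nat_lit 2813) (.e (nat_lit 3098) (nat_lit 192) (.e (nat_lit 491569) (nat_lit 13) (.e (nat_lit 393253) (nat_lit 18) (.e (nat_lit 164162) (nat_lit 152) (.e (nat_lit 1209) (nat_lit 89) .nil))))) .nil))) (.nd (nat_lit 5) 
(.lf (nat_lit 98776) (.g (nat_lit 2336) (.e (nat_lit 3098) (nat_lit 192) (.e (nat_lit 491566) (nat_lit 12) (.e (nat_lit 392960) (nat_lit 24) (.e (nat_lit 516163) (nat_lit 11) (.e (nat_lit 442434) (nat_lit 26) (.e (nat_lit 261888) (nat_lit 0) .nil)))))) (.g (nat_lit 5) .nil .nil))) 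
(.lf (nat_lit 98808) (.g (nat_lit 721) (.e (nat_lit 3099) (nat_lit 192) (.e (nat_lit 491568) (nat_lit 13) (.e (nat_lit 393301) (nat_lit 27) .nil))) .nil))))) (.nd (nat_lit 3) (.nd (nat_lit 4) (.nd (nat_lit 5) 
(.lf (nat_lit 98756) (.g (nat_lit 5505) (.e (nat_lit 3098) (nat_lit 192) (.e (nat_lit 491563) (nat_lit 12) (.e (nat_lit 385074) (nat_lit 31) (.e (nat_lit 573485) (nat_lit 13) (.e (nat_lit 65604) (nat_lit 9) (.e (nat_lit 336013) (nat_lit 2) (.e (nat_lit 90134) (nat_lit 9) .nil))))))) (.g (nat_lit 6) .nil .nil))) 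
(.lf (nat_lit 98788) (.g (nat_lit 3075) (.e (nat_lit 3098) (nat_lit 192) (.e (nat_lit 491568) (nat_lit 13) (.e (nat_lit 393301) (nat_lit 27) (.e (nat_lit 491560) (nat_lit 10) (.e (nat_lit 344089) (nat_lit 18) .nil))))) .nil))) (.nd (nat_lit 5) 
(.lf (nat_lit 98772) (.g (nat_lit 5568) (.e (nat_lit 3098) (nat_lit 192) (.e (nat_lit 491566) (nat_lit 12) (.e (nat_lit 385053) (nat_lit 21) (.e (nat_lit 4211) (nat_lit 251) (.e (nat_lit 1221) (nat_lit 90) (.e (nat_lit 81953) (nat_lit 22) (.e (nat_lit 90134) (nat_lit 9) .nil))))))) (.g (nat_lit 7) .nil .nil))) 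
(.lf (nat_lit 98804) (.g (nat_lit 4691) (.e (nat_lit 3099) (nat_lit 192) (.e (nat_lit 491560) (nat_lit 10) (.e (nat_lit 344126) (nat_lit 25) (.e (nat_lit 548889) (nat_lit 9) (.e (nat_lit 65598) (nat_lit 9) (.e (nat_lit 336013) (nat_lit 2) (.e (nat_lit 90141) (nat_lit 9) .nil))))))) (.g (nat_lit 4) .nil .nil))))) (.nd (nat_lit 4) (.nd (nat_lit 5) 
(.lf (nat_lit 98764) (.g (nat_lit 897) (.e (nat_lit 3098) (nat_lit 192) (.e (nat_lit 491566) (nat_lit 12) (.e (nat_lit 385046) (nat_lit 21) .nil))) .nil)) 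
(.lf (nat_lit 98796) (.g (nat_lit 772) (.e (nat_lit 3098) (nat_lit 192) (.e (nat_lit 491571) (nat_lit 13) (.e (nat_lit 393256) (nat_lit 19) .nil))) .nil))) (.nd (nat_lit 5) 
(.lf (nat_lit 98780) (.g (nat_lit 2242) (.e (nat_lit 3098) (nat_lit 192) (.e (nat_lit 491566) (nat_lit 12) (.e (nat_lit 392960) (nat_lit 24) (.e (nat_lit 516166) (nat_lit 12) (.e (nat_lit 450563) (nat_lit 0) (.e (nat_lit 6595) (nat_lit 351) (.e (nat_lit 2442) (nat_lit 157) .nil))))))) (.g (nat_lit 5) .nil .nil))) 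
(.lf (nat_lit 98812) (.g (nat_lit 519) (.e (nat_lit 3100) (nat_lit 192) (.e (nat_lit 491558) (nat_lit 10) (.e (nat_lit 344115) (nat_lit 20) .nil))) .nil)))))) (.nd (nat_lit 2) (.nd (nat_lit 3) (.nd (nat_lit 4) (.nd (nat_lit 5) 
(.lf (nat_lit 98754) (.g (nat_lit 5174) (.e (nat_lit 3098) (nat_lit 192) (.e (nat_lit 491563) (nat_lit 12) (.e (nat_lit 385074) (nat_lit 31) (.e (nat_lit 573482) (nat_lit 13) (.e (nat_lit 65598) (nat_lit 9) .nil))))) .nil)) 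
(.lf (nat_lit 98786) (.g (nat_lit 3239) (.e (nat_lit 3098) (nat_lit 192) (.e (nat_lit 491568) (nat_lit 13) (.e (nat_lit 393251) (nat_lit 18) (.e (nat_lit 164179) (nat_lit 154) (.e (nat_lit 57421) (nat_lit 13) .nil))))) .nil))) (.nd (nat_lit 5) 
(.lf (nat_lit 98770) (.g (nat_lit 1039) (.e (nat_lit 3098) (nat_lit 192) (.e (nat_lit 491566) (nat_lit 12) (.e (nat_lit 385051) (nat_lit 21) .nil))) .nil)) 
(.lf (nat_lit 98802) (.g (nat_lit 2739) (.e (nat_lit 3099) (nat_lit 192) (.e (nat_lit 491560) (nat_lit 10) (.e (nat_lit 344126) (nat_lit 25) (.e (nat_lit 548874) (nat_lit 5) .nil)))) .nil)))) (.nd (nat_lit 4) (.nd (nat_lit 5) 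
(.lf (nat_lit 98762) (.g (nat_lit 910) (.e (nat_lit 3098) (nat_lit 192) (.e (nat_lit 491566) (nat_lit 12) (.e (nat_lit 385043) (nat_lit 21) .nil))) .nil)) 
(.lf (nat_lit 98794) (.g (nat_lit 1595) (.e (nat_lit 3098) (nat_lit 192) (.e (nat_lit 491571) (nat_lit 13) (.e (nat_lit 393232) (nat_lit 17) (.e (nat_lit 3555) (nat_lit 220) .nil)))) .nil))) (.nd (nat_lit 5) 
(.lf (nat_lit 98778) (.g (nat_lit 2464) (.e (nat_lit 3098) (nat_lit 192) (.e (nat_lit 491566) (nat_lit 12) (.e (nat_lit 392960) (nat_lit 24) (.e (nat_lit 516163) (nat_lit 11) (.e (nat_lit 442436) (nat_lit 26) (.e (nat_lit 261888) (nat_lit 0) .nil)))))) (.g (nat_lit 5) .nil .nil))) 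
(.lf (nat_lit 98810) (.g (nat_lit 2289) (.e (nat_lit 3099) (nat_lit 192) (.e (nat_lit 491569) (nat_lit 13) (.e (nat_lit 393301) (nat_lit 27) (.e (nat_lit 491560) (nat_lit 10) .nil)))) .nil))))) (.nd (nat_lit 3) (.nd (nat_lit 4) (.nd (nat_lit 5) 
(.lf (nat_lit 98758) (.g (nat_lit 3728) (.e (nat_lit 3098) (nat_lit 192) (.e (nat_lit 491563) (nat_lit 12) (.e (nat_lit 385074) (nat_lit 31) (.e (nat_lit 573493) (nat_lit 15) (.e (nat_lit 81951) (nat_lit 22) (.e (nat_lit 90134) (nat_lit 9) .nil)))))) (.g (nat_lit 4) .nil .nil))) 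
(.lf (nat_lit 98790) (.g (nat_lit 2341) (.e (nat_lit 3098) (nat_lit 192) (.e (nat_lit 491569) (nat_lit 13) (.e (nat_lit 393253) (nat_lit 18) (.e (nat_lit 164150) (nat_lit 152) (.e (nat_lit 1207) (nat_lit 89) .nil))))) .nil))) (.nd (nat_lit 5) 
(.lf (nat_lit 98774) (.g (nat_lit 151) (.e (nat_lit 3098) (nat_lit 192) (.e (nat_lit 491566) (nat_lit 12) (.e (nat_lit 392960) (nat_lit 24) .nil))) .nil)) 
(.lf (nat_lit 98806) (.g (nat_lit 1390) (.e (nat_lit 3099) (nat_lit 192) (.e (nat_lit 491563) (nat_lit 12) (.e (nat_lit 385105) (nat_lit 50) .nil))) .nil)))) (.nd (nat_lit 4) (.nd (nat_lit 5) 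
(.lf (nat_lit 98766) (.g (nat_lit 4957) (.e (nat_lit 3098) (nat_lit 192) (.e (nat_lit 491566) (nat_lit 12) (.e (nat_lit 385046) (nat_lit 21) (.e (nat_lit 4197) (nat_lit 251) (.e (nat_lit 1221) (nat_lit 90) (.e (nat_lit 81953) (nat_lit 22) (.e (nat_lit 90134) (nat_lit 9) .nil))))))) (.g (nat_lit 7) .nil .nil))) 
(.lf (nat_lit 98798) (.g (nat_lit 2144) (.e (nat_lit 3099) (nat_lit 192) (.e (nat_lit 491540) (nat_lit 3) (.e (nat_lit 98372) (nat_lit 29) (.e (nat_lit 450579) (nat_lit 5) (.e (nat_lit 532484) (nat_lit 0) (.e (nat_lit 6691) (nat_lit 357) .nil)))))) (.g (nat_lit 5) .nil .nil)))) (.nd (nat_lit 5) 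
(.lf (nat_lit 98782) (.g (nat_lit 2972) (.e (nat_lit 3098) (nat_lit 192) (.e (nat_lit 491566) (nat_lit 12) (.e (nat_lit 392960) (nat_lit 24) (.e (nat_lit 516166) (nat_lit 12) (.e (nat_lit 450603) (nat_lit 22) (.e (nat_lit 712448) (nat_lit 0) .nil)))))) (.g (nat_lit 5) .nil .nil))) 
(.lf (nat_lit 98814) (.g (nat_lit 810) (.e (nat_lit 3100) (nat_lit 192) (.e (nat_lit 491560) (nat_lit 10) (.e (nat_lit 344115) (nat_lit 20) .nil))) .nil))))))) (.nd (nat_lit 1) (.nd (nat_lit 2) (.nd (nat_lit 3) (.nd (nat_lit 4) (.nd (nat_lit 5) 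
(.lf (nat_lit 98753) (.g (nat_lit 3794) (.e (nat_lit 3098) (nat_lit 192) (.e (nat_lit 491563) (nat_lit 12) (.e (nat_lit 385074) (nat_lit 31) (.e (nat_lit 573482) (nat_lit 13) .nil)))) .nil)) 
(.lf (nat_lit 98785) (.g (nat_lit 1905) (.e (nat_lit 3098) (nat_lit 192) (.e (nat_lit 491566) (nat_lit 12) (.e (nat_lit 385104) (nat_lit 50) (.e (nat_lit 786483) (nat_lit 30) (.e (nat_lit 360451) (nat_lit 0) .nil))))) .nil))) (.nd (nat_lit 5) 
(.lf (nat_lit 98769) (.g (nat_lit 1293) (.e (nat_lit 3098) (nat_lit 192) (.e (nat_lit 491566) (nat_lit 12) (.e (nat_lit 385050) (nat_lit 21) .nil))) .nil)) 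
(.lf (nat_lit 98801) (.g (nat_lit 2753) (.e (nat_lit 3099) (nat_lit 192) (.e (nat_lit 491560) (nat_lit 10) (.e (nat_lit 344126) (nat_lit 25) (.e (nat_lit 548873) (nat_lit 5) .nil)))) .nil)))) (.nd (nat_lit 4) (.nd (nat_lit 5) 
(.lf (nat_lit 98761) (.g (nat_lit 2169) (.e (nat_lit 3098) (nat_lit 192) (.e (nat_lit 491565) (nat_lit 12) (.e (nat_lit 385102) (nat_lit 50) (.e (nat_lit 786483) (nat_lit 30) (.e (nat_lit 360451) (nat_lit 0) (.e (nat_lit 5444) (nat_lit 306) (.e (nat_lit 2450) (nat_lit 157) .nil))))))) (.g (nat_lit 4) .nil .nil))) 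
(.lf (nat_lit 98793) (.g (nat_lit 2417) (.e (nat_lit 3098) (nat_lit 192) (.e (nat_lit 491569) (nat_lit 13) (.e (nat_lit 393301) (nat_lit 27) (.e (nat_lit 491558) (nat_lit 10) (.e (nat_lit 344096) (nat_lit 18) .nil))))) .nil))) (.nd (nat_lit 5) 
(.lf (nat_lit 98777) (.g (nat_lit 1761) (.e (nat_lit 3098) (nat_lit 192) (.e (nat_lit 491566) (nat_lit 12) (.e (nat_lit 392960) (nat_lit 24) (.e (nat_lit 516163) (nat_lit 11) (.e (nat_lit 442435) (nat_lit 26) (.e (nat_lit 261888) (nat_lit 0) .nil)))))) (.g (nat_lit 5) .nil .nil))) 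
(.lf (nat_lit 98809) (.g (nat_lit 1159) (.e (nat_lit 3099) (nat_lit 192) (.e (nat_lit 491569) (nat_lit 13) (.e (nat_lit 393301) (nat_lit 27) .nil))) .nil))))) (.nd (nat_lit 3) (.nd (nat_lit 4) (.nd (nat_lit 5) 
(.lf (nat_lit 98757) (.g (nat_lit 3565) (.e (nat_lit 3098) (nat_lit 192) (.e (nat_lit 491563) (nat_lit 12) (.e (nat_lit 385074) (nat_lit 31) (.e (nat_lit 573491) (nat_lit 15) (.e (nat_lit 81951) (nat_lit 22) (.e (nat_lit 90134) (nat_lit 9) .nil)))))) (.g (nat_lit 4) .nil .nil))) 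
(.lf (nat_lit 98789) (.g (nat_lit 2383) (.e (nat_lit 3098) (nat_lit 192) (.e (nat_lit 491568) (nat_lit 13) (.e (nat_lit 393301) (nat_lit 27) (.e (nat_lit 491560) (nat_lit 10) (.e (nat_lit 344094) (nat_lit 18) .nil))))) .nil))) (.nd (nat_lit 5) 
(.lf (nat_lit 98773) (.g (nat_lit 1271) (.e (nat_lit 3098) (nat_lit 192) (.e (nat_lit 491566) (nat_lit 12) (.e (nat_lit 385054) (nat_lit 21) .nil))) .nil)) 
(.lf (nat_lit 98805) (.g (nat_lit 3306) (.e (nat_lit 3099) (nat_lit 192) (.e (nat_lit 491563) (nat_lit 12) (.e (nat_lit 385074) (nat_lit 31) (.e (nat_lit 573493) (nat_lit 15) .nil)))) .nil)))) (.nd (nat_lit 4) (.nd (nat_lit 5) 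
(.lf (nat_lit 98765) (.g (nat_lit 4193) (.e (nat_lit 3098) (nat_lit 192) (.e (nat_lit 491566) (nat_lit 12) (.e (nat_lit 385046) (nat_lit 21) (.e (nat_lit 4181) (nat_lit 251) (.e (nat_lit 1215) (nat_lit 90) (.e (nat_lit 81953) (nat_lit 22) (.e (nat_lit 90134) (nat_lit 9) .nil))))))) (.g (nat_lit 7) .nil .nil))) 
(.lf (nat_lit 98797) (.g (nat_lit 4419) (.e (nat_lit 3098) (nat_lit 192) (.e (nat_lit 491571) (nat_lit 13) (.e (nat_lit 393260) (nat_lit 21) (.e (nat_lit 409649) (nat_lit 18) (.e (nat_lit 303111) (nat_lit 0) .nil))))) .nil))) (.nd (nat_lit 5) 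
(.lf (nat_lit 98781) (.g (nat_lit 2674) (.e (nat_lit 3098) (nat_lit 192) (.e (nat_lit 491566) (nat_lit 12) (.e (nat_lit 392960) (nat_lit 24) (.e (nat_lit 516166) (nat_lit 12) (.e (nat_lit 450602) (nat_lit 22) (.e (nat_lit 712448) (nat_lit 0) .nil)))))) (.g (nat_lit 5) .nil .nil))) 
(.lf (nat_lit 98813) (.g (nat_lit 1029) (.e (nat_lit 3100) (nat_lit 192) (.e (nat_lit 491560) (nat_lit 10) (.e (nat_lit 344089) (nat_lit 18) .nil))) .nil)))))) (.nd (nat_lit 2) (.nd (nat_lit 3) (.nd (nat_lit 4) (.nd (nat_lit 5) 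
(.lf (nat_lit 98755) (.g (nat_lit 5937) (.e (nat_lit 3098) (nat_lit 192) (.e (nat_lit 491563) (nat_lit 12) (.e (nat_lit 385074) (nat_lit 31) (.e (nat_lit 573482) (nat_lit 13) (.e (nat_lit 65604) (nat_lit 9) (.e (nat_lit 336013) (nat_lit 2) (.e (nat_lit 90134) (nat_lit 9) .nil))))))) (.g (nat_lit 4) .nil .nil))) 
(.lf (nat_lit 98787) (.g (nat_lit 2297) (.e (nat_lit 3098) (nat_lit 192) (.e (nat_lit 491568) (nat_lit 13) (.e (nat_lit 393251) (nat_lit 18) (.e (nat_lit 164182) (nat_lit 154) .nil)))) .nil))) (.nd (nat_lit 5) 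
(.lf (nat_lit 98771) (.g (nat_lit 1349) (.e (nat_lit 3098) (nat_lit 192) (.e (nat_lit 491566) (nat_lit 12) (.e (nat_lit 385053) (nat_lit 21) .nil))) .nil)) 
(.lf (nat_lit 98803) (.g (nat_lit 4561) (.e (nat_lit 3099) (nat_lit 192) (.e (nat_lit 491560) (nat_lit 10) (.e (nat_lit 344126) (nat_lit 25) (.e (nat_lit 548889) (nat_lit 9) (.e (nat_lit 65598) (nat_lit 9) .nil))))) .nil)))) (.nd (nat_lit 4) (.nd (nat_lit 5) 
(.lf (nat_lit 98763) (.g (nat_lit 1203) (.e (nat_lit 3098) (nat_lit 192) (.e (nat_lit 491566) (nat_lit 12) (.e (nat_lit 385044) (nat_lit 21) .nil))) .nil)) 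
(.lf (nat_lit 98795) (.g (nat_lit 2791) (.e (nat_lit 3098) (nat_lit 192) (.e (nat_lit 491571) (nat_lit 13) (.e (nat_lit 393253) (nat_lit 18) (.e (nat_lit 164151) (nat_lit 152) (.e (nat_lit 1207) (nat_lit 89) .nil))))) .nil))) (.nd (nat_lit 5) 
(.lf (nat_lit 98779) (.g (nat_lit 2557) (.e (nat_lit 3098) (nat_lit 192) (.e (nat_lit 491566) (nat_lit 12) (.e (nat_lit 392960) (nat_lit 24) (.e (nat_lit 516166) (nat_lit 12) (.e (nat_lit 450562) (nat_lit 0) (.e (nat_lit 6595) (nat_lit 351) (.e (nat_lit 2442) (nat_lit 157) .nil))))))) (.g (nat_lit 5) .nil .nil))) 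
(.lf (nat_lit 98811) (.g (nat_lit 1014) (.e (nat_lit 3099) (nat_lit 192) (.e (nat_lit 491571) (nat_lit 13) (.e (nat_lit 393232) (nat_lit 17) .nil))) .nil))))) (.nd (nat_lit 3) (.nd (nat_lit 4) (.nd (nat_lit 5) 
(.lf (nat_lit 98759) (.g (nat_lit 1364) (.e (nat_lit 3098) (nat_lit 192) (.e (nat_lit 491563) (nat_lit 12) (.e (nat_lit 385102) (nat_lit 50) .nil))) .nil)) 
(.lf (nat_lit 98791) (.g (nat_lit 3319) (.e (nat_lit 3098) (nat_lit 192) (.e (nat_lit 491569) (nat_lit 13) (.e (nat_lit 393253) (nat_lit 18) (.e (nat_lit 164150) (nat_lit 152) (.e (nat_lit 1207) (nat_lit 89) (.e (nat_lit 73754) (nat_lit 8) (.e (nat_lit 557072) (nat_lit 9) .nil))))))) (.g (nat_lit 4) .nil .nil)))) (.nd (nat_lit 5) 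
(.lf (nat_lit 98775) (.g (nat_lit 2712) (.e (nat_lit 3098) (nat_lit 192) (.e (nat_lit 491566) (nat_lit 12) (.e (nat_lit 392960) (nat_lit 24) (.e (nat_lit 516151) (nat_lit 9) (.e (nat_lit 426211) (nat_lit 9) (.e (nat_lit 426025) (nat_lit 0) (.e (nat_lit 3478) (nat_lit 218) (.e (nat_lit 704514) (nat_lit 0) .nil)))))))) (.g (nat_lit 6) .nil .nil))) 
(.lf (nat_lit 98807) (.g (nat_lit 776) (.e (nat_lit 3099) (nat_lit 192) (.e (nat_lit 491566) (nat_lit 12) (.e (nat_lit 385104) (nat_lit 50) .nil))) .nil)))) (.nd (nat_lit 4) (.nd (nat_lit 5) 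
(.lf (nat_lit 98767) (.g (nat_lit 1373) (.e (nat_lit 3098) (nat_lit 192) (.e (nat_lit 491566) (nat_lit 12) (.e (nat_lit 385048) (nat_lit 21) .nil))) .nil)) 
(.lf (nat_lit 98799) (.g (nat_lit 1666) (.e (nat_lit 3099) (nat_lit 192) (.e (nat_lit 491540) (nat_lit 3) (.e (nat_lit 98372) (nat_lit 29) (.e (nat_lit 450579) (nat_lit 5) (.e (nat_lit 532488) (nat_lit 0) .nil))))) .nil))) (.nd (nat_lit 5) 
(.lf (nat_lit 98783) (.g (nat_lit 2678) (.e (nat_lit 3098) (nat_lit 192) (.e (nat_lit 491566) (nat_lit 12) (.e (nat_lit 392960) (nat_lit 24) (.e (nat_lit 516166) (nat_lit 12) (.e (nat_lit 450604) (nat_lit 22) (.e (nat_lit 712448) (nat_lit 0) .nil)))))) (.g (nat_lit 5) .nil .nil))) 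
(.lf (nat_lit 98815) (.g (nat_lit 1980) (.e (nat_lit 3100) (nat_lit 192) (.e (nat_lit 491560) (nat_lit 10) (.e (nat_lit 344115) (nat_lit 20) (.e (nat_lit 507907) (nat_lit 0) (.e (nat_lit 5401) (nat_lit 302) (.e (nat_lit 65577) (nat_lit 5) (.e (nat_lit 139289) (nat_lit 9) .nil))))))) (.g (nat_lit 4) .nil .nil)))))))))

noncomputable def tv1356 : DT := (.nd (nat_lit 0) (.nd (nat_lit 1) (.nd (nat_lit 2) (.nd (nat_lit 3) (.nd (nat_lit 4) (.nd (nat_lit 5) (.nd (nat_lit 6) 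
(.lf (nat_lit 98816) (.g (nat_lit 1859) (.e (nat_lit 3100) (nat_lit 192) (.e (nat_lit 491560) (nat_lit 10) (.e (nat_lit 344115) (nat_lit 20) (.e (nat_lit 507907) (nat_lit 0) (.e (nat_lit 5410) (nat_lit 303) (.e (nat_lit 73743) (nat_lit 1) (.e (nat_lit 499846) (nat_lit 5) .nil))))))) (.g (nat_lit 4) .nil .nil))) 
(.lf (nat_lit 98880) (.g (nat_lit 1496) (.e (nat_lit 3102) (nat_lit 192) (.e (nat_lit 491560) (nat_lit 10) (.e (nat_lit 344115) (nat_lit 20) (.e (nat_lit 507907) (nat_lit 0) .nil)))) .nil))) (.nd (nat_lit 6) 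
(.lf (nat_lit 98848) (.g (nat_lit 4456) (.e (nat_lit 3101) (nat_lit 192) (.e (nat_lit 491560) (nat_lit 10) (.e (nat_lit 344126) (nat_lit 25) (.e (nat_lit 548889) (nat_lit 9) (.e (nat_lit 65598) (nat_lit 9) (.e (nat_lit 336013) (nat_lit 2) (.e (nat_lit 90144) (nat_lit 9) .nil))))))) (.g (nat_lit 4) .nil .nil))) 
(.lf (nat_lit 98912) (.g (nat_lit 571) (.e (nat_lit 3102) (nat_lit 192) (.e (nat_lit 491560) (nat_lit 10) (.e (nat_lit 344169) (nat_lit 40) .nil))) .nil)))) (.nd (nat_lit 5) (.nd (nat_lit 6) 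
(.lf (nat_lit 98832) (.g (nat_lit 2130) (.e (nat_lit 3100) (nat_lit 192) (.e (nat_lit 491563) (nat_lit 12) (.e (nat_lit 385106) (nat_lit 50) .nil))) .nil)) 
(.lf (nat_lit 98896) (.g (nat_lit 6354) (.e (nat_lit 3102) (nat_lit 192) (.e (nat_lit 491560) (nat_lit 10) (.e (nat_lit 344126) (nat_lit 25) (.e (nat_lit 548889) (nat_lit 9) (.e (nat_lit 65598) (nat_lit 9) (.e (nat_lit 336013) (nat_lit 2) (.e (nat_lit 90144) (nat_lit 9) .nil))))))) (.g (nat_lit 6) .nil .nil)))) (.nd (nat_lit 6) 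
(.lf (nat_lit 98864) (.g (nat_lit 556) (.e (nat_lit 3102) (nat_lit 192) (.e (nat_lit 491558) (nat_lit 10) (.e (nat_lit 344129) (nat_lit 26) .nil))) .nil)) 
(.lf (nat_lit 98928) (.g (nat_lit 2411) (.e (nat_lit 3103) (nat_lit 192) (.e (nat_lit 491569) (nat_lit 13) (.e (nat_lit 393234) (nat_lit 17) (.e (nat_lit 3555) (nat_lit 220) .nil)))) .nil))))) (.nd (nat_lit 4) (.nd (nat_lit 5) (.nd (nat_lit 6) 
(.lf (nat_lit 98824) (.g (nat_lit 822) (.e (nat_lit 3100) (nat_lit 192) (.e (nat_lit 491560) (nat_lit 10) (.e (nat_lit 344129) (nat_lit 26) .nil))) .nil)) 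
(.lf (nat_lit 98888) (.g (nat_lit 2853) (.e (nat_lit 3102) (nat_lit 192) (.e (nat_lit 491560) (nat_lit 10) (.e (nat_lit 344126) (nat_lit 25) (.e (nat_lit 548874) (nat_lit 5) (.e (nat_lit 1595) (nat_lit 111) .nil))))) .nil))) (.nd (nat_lit 6) 
(.lf (nat_lit 98856) (.g (nat_lit 595) (.e (nat_lit 3102) (nat_lit 192) (.e (nat_lit 491558) (nat_lit 10) (.e (nat_lit 344126) (nat_lit 25) .nil))) .nil)) 
(.lf (nat_lit 98920) (.g (nat_lit 3726) (.e (nat_lit 3102) (nat_lit 192) (.e (nat_lit 491560) (nat_lit 10) (.e (nat_lit 344169) (nat_lit 40) (.e (nat_lit 671762) (nat_lit 4) (.e (nat_lit 65617) (nat_lit 10) (.e (nat_lit 344164) (nat_lit 37) (.e (nat_lit 647172) (nat_lit 0) .nil))))))) (.g (nat_lit 5) .nil .nil))))) (.nd (nat_lit 5) (.nd (nat_lit 6) 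
(.lf (nat_lit 98840) (.g (nat_lit 583) (.e (nat_lit 3101) (nat_lit 192) (.e (nat_lit 491558) (nat_lit 10) (.e (nat_lit 344129) (nat_lit 26) .nil))) .nil)) 
(.lf (nat_lit 98904) (.g (nat_lit 2347) (.e (nat_lit 3102) (nat_lit 192) (.e (nat_lit 491560) (nat_lit 10) (.e (nat_lit 344129) (nat_lit 26) (.e (nat_lit 557067) (nat_lit 9) (.e (nat_lit 7936) (nat_lit 23) .nil))))) .nil))) (.nd (nat_lit 6) 
(.lf (nat_lit 98872) (.g (nat_lit 5263) (.e (nat_lit 3102) (nat_lit 192) (.e (nat_lit 491559) (nat_lit 10) (.e (nat_lit 344126) (nat_lit 25) (.e (nat_lit 548889) (nat_lit 9) (.e (nat_lit 65598) (nat_lit 9) (.e (nat_lit 336013) (nat_lit 2) (.e (nat_lit 90141) (nat_lit 9) .nil))))))) (.g (nat_lit 6) .nil .nil))) 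
(.lf (nat_lit 98936) (.g (nat_lit 2053) (.e (nat_lit 3104) (nat_lit 192) (.e (nat_lit 491540) (nat_lit 3) (.e (nat_lit 98372) (nat_lit 29) (.e (nat_lit 450579) (nat_lit 5) (.e (nat_lit 532481) (nat_lit 0) (.e (nat_lit 6619) (nat_lit 357) .nil)))))) (.g (nat_lit 4) .nil .nil))))))) (.nd (nat_lit 3) (.nd (nat_lit 4) (.nd (nat_lit 5) (.nd (nat_lit 6) 
(.lf (nat_lit 98820) (.g (nat_lit 1900) (.e (nat_lit 3100) (nat_lit 192) (.e (nat_lit 491560) (nat_lit 10) (.e (nat_lit 344126) (nat_lit 25) (.e (nat_lit 548873) (nat_lit 5) .nil)))) .nil)) 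
(.lf (nat_lit 98884) (.g (nat_lit 2234) (.e (nat_lit 3102) (nat_lit 192) (.e (nat_lit 491560) (nat_lit 10) (.e (nat_lit 344126) (nat_lit 25) (.e (nat_lit 548873) (nat_lit 5) .nil)))) .nil))) (.nd (nat_lit 6) 
(.lf (nat_lit 98852) (.g (nat_lit 1159) (.e (nat_lit 3101) (nat_lit 192) (.e (nat_lit 491569) (nat_lit 13) (.e (nat_lit 393301) (nat_lit 27) .nil))) .nil)) 
(.lf (nat_lit 98916) (.g (nat_lit 2325) (.e (nat_lit 3102) (nat_lit 192) (.e (nat_lit 491560) (nat_lit 10) (.e (nat_lit 344169) (nat_lit 40) (.e (nat_lit 671748) (nat_lit 0) (.e (nat_lit 1586) (nat_lit 111) (.e (nat_lit 360483) (nat_lit 15) (.e (nat_lit 647172) (nat_lit 0) .nil))))))) (.g (nat_lit 4) .nil .nil))))) (.nd (nat_lit 5) (.nd (nat_lit 6) 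
(.lf (nat_lit 98836) (.g (nat_lit 1163) (.e (nat_lit 3101) (nat_lit 192) (.e (nat_lit 491558) (nat_lit 10) (.e (nat_lit 344115) (nat_lit 20) (.e (nat_lit 507908) (nat_lit 0) (.e (nat_lit 5410) (nat_lit 303) .nil))))) .nil)) 
(.lf (nat_lit 98900) (.g (nat_lit 4325) (.e (nat_lit 3102) (nat_lit 192) (.e (nat_lit 491560) (nat_lit 10) (.e (nat_lit 344126) (nat_lit 25) (.e (nat_lit 548891) (nat_lit 11) (.e (nat_lit 81960) (nat_lit 25) (.e (nat_lit 139289) (nat_lit 9) .nil)))))) (.g (nat_lit 0) .nil .nil)))) (.nd (nat_lit 6) 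
(.lf (nat_lit 98868) (.g (nat_lit 813) (.e (nat_lit 3102) (nat_lit 192) (.e (nat_lit 491559) (nat_lit 10) (.e (nat_lit 344126) (nat_lit 25) (.e (nat_lit 548873) (nat_lit 5) .nil)))) .nil)) 
(.lf (nat_lit 98932) (.g (nat_lit 1082) (.e (nat_lit 3103) (nat_lit 192) (.e (nat_lit 491571) (nat_lit 13) (.e (nat_lit 393252) (nat_lit 18) .nil))) .nil))))) (.nd (nat_lit 4) (.nd (nat_lit 5) (.nd (nat_lit 6) 
(.lf (nat_lit 98828) (.g (nat_lit 5426) (.e (nat_lit 3100) (nat_lit 192) (.e (nat_lit 491563) (nat_lit 12) (.e (nat_lit 385074) (nat_lit 31) (.e (nat_lit 573493) (nat_lit 15) (.e (nat_lit 81962) (nat_lit 25) (.e (nat_lit 139289) (nat_lit 9) .nil)))))) (.g (nat_lit 6) .nil .nil))) 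
(.lf (nat_lit 98892) (.g (nat_lit 6185) (.e (nat_lit 3102) (nat_lit 192) (.e (nat_lit 491560) (nat_lit 10) (.e (nat_lit 344126) (nat_lit 25) (.e (nat_lit 548889) (nat_lit 9) (.e (nat_lit 65598) (nat_lit 9) (.e (nat_lit 336013) (nat_lit 2) (.e (nat_lit 90121) (nat_lit 9) .nil))))))) (.g (nat_lit 6) .nil .nil)))) (.nd (nat_lit 6) 
(.lf (nat_lit 98860) (.g (nat_lit 3342) (.e (nat_lit 3102) (nat_lit 192) (.e (nat_lit 491558) (nat_lit 10) (.e (nat_lit 344126) (nat_lit 25) (.e (nat_lit 548889) (nat_lit 9) (.e (nat_lit 65598) (nat_lit 9) .nil))))) .nil)) 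
(.lf (nat_lit 98924) (.g (nat_lit 1428) (.e (nat_lit 3102) (nat_lit 192) (.e (nat_lit 491563) (nat_lit 12) (.e (nat_lit 385105) (nat_lit 50) .nil))) .nil)))) (.nd (nat_lit 5) (.nd (nat_lit 6) 
(.lf (nat_lit 98844) (.g (nat_lit 2108) (.e (nat_lit 3101) (nat_lit 192) (.e (nat_lit 491560) (nat_lit 10) (.e (nat_lit 344126) (nat_lit 25) (.e (nat_lit 548874) (nat_lit 5) .nil)))) .nil)) 
(.lf (nat_lit 98908) (.g (nat_lit 997) (.e (nat_lit 3102) (nat_lit 192) (.e (nat_lit 491560) (nat_lit 10) (.e (nat_lit 344133) (nat_lit 26) .nil))) .nil))) (.nd (nat_lit 6) 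
(.lf (nat_lit 98876) (.g (nat_lit 2321) (.e (nat_lit 3102) (nat_lit 192) (.e (nat_lit 491559) (nat_lit 10) (.e (nat_lit 344169) (nat_lit 40) (.e (nat_lit 671748) (nat_lit 0) (.e (nat_lit 1586) (nat_lit 111) (.e (nat_lit 360484) (nat_lit 15) (.e (nat_lit 647171) (nat_lit 0) .nil))))))) (.g (nat_lit 4) .nil .nil))) 
(.lf (nat_lit 98940) (.g (nat_lit 1660) (.e (nat_lit 3104) (nat_lit 192) (.e (nat_lit 491540) (nat_lit 3) (.e (nat_lit 98372) (nat_lit 29) (.e (nat_lit 450579) (nat_lit 5) (.e (nat_lit 532489) (nat_lit 0) .nil))))) .nil))))))) (.nd (nat_lit 2) (.nd (nat_lit 3) (.nd (nat_lit 4) (.nd (nat_lit 5) (.nd (nat_lit 6) 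
(.lf (nat_lit 98818) (.g (nat_lit 2348) (.e (nat_lit 3100) (nat_lit 192) (.e (nat_lit 491560) (nat_lit 10) (.e (nat_lit 344115) (nat_lit 20) (.e (nat_lit 507908) (nat_lit 0) (.e (nat_lit 5403) (nat_lit 302) (.e (nat_lit 65577) (nat_lit 5) (.e (nat_lit 139289) (nat_lit 9) .nil))))))) (.g (nat_lit 5) .nil .nil))) 
(.lf (nat_lit 98882) (.g (nat_lit 1589) (.e (nat_lit 3102) (nat_lit 192) (.e (nat_lit 491560) (nat_lit 10) (.e (nat_lit 344126) (nat_lit 25) (.e (nat_lit 548870) (nat_lit 5) .nil)))) .nil))) (.nd (nat_lit 6) 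
(.lf (nat_lit 98850) (.g (nat_lit 1361) (.e (nat_lit 3101) (nat_lit 192) (.e (nat_lit 491563) (nat_lit 12) (.e (nat_lit 385105) (nat_lit 50) .nil))) .nil)) 
(.lf (nat_lit 98914) (.g (nat_lit 1159) (.e (nat_lit 3102) (nat_lit 192) (.e (nat_lit 491560) (nat_lit 10) (.e (nat_lit 344169) (nat_lit 40) (.e (nat_lit 671748) (nat_lit 0) .nil)))) .nil)))) (.nd (nat_lit 5) (.nd (nat_lit 6) 
(.lf (nat_lit 98834) (.g (nat_lit 1159) (.e (nat_lit 3100) (nat_lit 192) (.e (nat_lit 491569) (nat_lit 13) (.e (nat_lit 393301) (nat_lit 27) .nil))) .nil)) 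
(.lf (nat_lit 98898) (.g (nat_lit 2562) (.e (nat_lit 3102) (nat_lit 192) (.e (nat_lit 491560) (nat_lit 10) (.e (nat_lit 344126) (nat_lit 25) (.e (nat_lit 548891) (nat_lit 11) (.e (nat_lit 81953) (nat_lit 22) .nil))))) .nil))) (.nd (nat_lit 6) 
(.lf (nat_lit 98866) (.g (nat_lit 742) (.e (nat_lit 3102) (nat_lit 192) (.e (nat_lit 491558) (nat_lit 10) (.e (nat_lit 344133) (nat_lit 26) .nil))) .nil)) 
(.lf (nat_lit 98930) (.g (nat_lit 2147) (.e (nat_lit 3103) (nat_lit 192) (.e (nat_lit 491571) (nat_lit 13) (.e (nat_lit 393232) (nat_lit 17) (.e (nat_lit 3555) (nat_lit 220) .nil)))) .nil))))) (.nd (nat_lit 4) (.nd (nat_lit 5) (.nd (nat_lit 6) 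
(.lf (nat_lit 98826) (.g (nat_lit 1814) (.e (nat_lit 3100) (nat_lit 192) (.e (nat_lit 491560) (nat_lit 10) (.e (nat_lit 344129) (nat_lit 26) (.e (nat_lit 557067) (nat_lit 9) .nil)))) .nil)) 
(.lf (nat_lit 98890) (.g (nat_lit 2714) (.e (nat_lit 3102) (nat_lit 192) (.e (nat_lit 491560) (nat_lit 10) (.e (nat_lit 344126) (nat_lit 25) (.e (nat_lit 548874) (nat_lit 5) (.e (nat_lit 1598) (nat_lit 111) (.e (nat_lit 360458) (nat_lit 1) (.e (nat_lit 499843) (nat_lit 5) .nil))))))) (.g (nat_lit 4) .nil .nil)))) (.nd (nat_lit 6) 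
(.lf (nat_lit 98858) (.g (nat_lit 1693) (.e (nat_lit 3102) (nat_lit 192) (.e (nat_lit 491558) (nat_lit 10) (.e (nat_lit 344126) (nat_lit 25) (.e (nat_lit 548874) (nat_lit 5) .nil)))) .nil)) 
(.lf (nat_lit 98922) (.g (nat_lit 3792) (.e (nat_lit 3102) (nat_lit 192) (.e (nat_lit 491563) (nat_lit 12) (.e (nat_lit 385074) (nat_lit 31) (.e (nat_lit 573493) (nat_lit 15) (.e (nat_lit 81962) (nat_lit 25) (.e (nat_lit 139289) (nat_lit 9) .nil)))))) (.g (nat_lit 4) .nil .nil))))) (.nd (nat_lit 5) (.nd (nat_lit 6) 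
(.lf (nat_lit 98842) (.g (nat_lit 1537) (.e (nat_lit 3101) (nat_lit 192) (.e (nat_lit 491560) (nat_lit 10) (.e (nat_lit 344117) (nat_lit 21) (.e (nat_lit 516106) (nat_lit 0) .nil)))) .nil)) 
(.lf (nat_lit 98906) (.g (nat_lit 841) (.e (nat_lit 3102) (nat_lit 192) (.e (nat_lit 491560) (nat_lit 10) (.e (nat_lit 344130) (nat_lit 26) .nil))) .nil))) (.nd (nat_lit 6) 
(.lf (nat_lit 98874) (.g (nat_lit 1892) (.e (nat_lit 3102) (nat_lit 192) (.e (nat_lit 491559) (nat_lit 10) (.e (nat_lit 344169) (nat_lit 40) (.e (nat_lit 671748) (nat_lit 0) (.e (nat_lit 1586) (nat_lit 111) .nil))))) .nil)) 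
(.lf (nat_lit 98938) (.g (nat_lit 1701) (.e (nat_lit 3104) (nat_lit 192) (.e (nat_lit 491540) (nat_lit 3) (.e (nat_lit 98372) (nat_lit 29) (.e (nat_lit 450579) (nat_lit 5) (.e (nat_lit 532484) (nat_lit 0) .nil))))) .nil)))))) (.nd (nat_lit 3) (.nd (nat_lit 4) (.nd (nat_lit 5) (.nd (nat_lit 6) 
(.lf (nat_lit 98822) (.g (nat_lit 3465) (.e (nat_lit 3100) (nat_lit 192) (.e (nat_lit 491560) (nat_lit 10) (.e (nat_lit 344126) (nat_lit 25) (.e (nat_lit 548889) (nat_lit 9) (.e (nat_lit 65598) (nat_lit 9) .nil))))) .nil)) 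
(.lf (nat_lit 98886) (.g (nat_lit 3128) (.e (nat_lit 3102) (nat_lit 192) (.e (nat_lit 491560) (nat_lit 10) (.e (nat_lit 344126) (nat_lit 25) (.e (nat_lit 548874) (nat_lit 5) (.e (nat_lit 1572) (nat_lit 110) (.e (nat_lit 352321) (nat_lit 25) (.e (nat_lit 139287) (nat_lit 9) .nil))))))) (.g (nat_lit 4) .nil .nil)))) (.nd (nat_lit 6) 
(.lf (nat_lit 98854) (.g (nat_lit 3423) (.e (nat_lit 3101) (nat_lit 192) (.e (nat_lit 491569) (nat_lit 13) (.e (nat_lit 393301) (nat_lit 27) (.e (nat_lit 491558) (nat_lit 10) (.e (nat_lit 344172) (nat_lit 41) .nil))))) .nil)) 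
(.lf (nat_lit 98918) (.g (nat_lit 2259) (.e (nat_lit 3102) (nat_lit 192) (.e (nat_lit 491560) (nat_lit 10) (.e (nat_lit 344169) (nat_lit 40) (.e (nat_lit 671762) (nat_lit 4) (.e (nat_lit 65617) (nat_lit 10) .nil))))) .nil)))) (.nd (nat_lit 5) (.nd (nat_lit 6) 
(.lf (nat_lit 98838) (.g (nat_lit 1783) (.e (nat_lit 3101) (nat_lit 192) (.e (nat_lit 491558) (nat_lit 10) (.e (nat_lit 344126) (nat_lit 25) (.e (nat_lit 548874) (nat_lit 5) .nil)))) .nil)) 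
(.lf (nat_lit 98902) (.g (nat_lit 3719) (.e (nat_lit 3102) (nat_lit 192) (.e (nat_lit 491560) (nat_lit 10) (.e (nat_lit 344126) (nat_lit 25) (.e (nat_lit 548891) (nat_lit 11) (.e (nat_lit 81962) (nat_lit 25) (.e (nat_lit 139289) (nat_lit 9) .nil)))))) (.g (nat_lit 0) .nil .nil)))) (.nd (nat_lit 6) 
(.lf (nat_lit 98870) (.g (nat_lit 2381) (.e (nat_lit 3102) (nat_lit 192) (.e (nat_lit 491559) (nat_lit 10) (.e (nat_lit 344126) (nat_lit 25) (.e (nat_lit 548874) (nat_lit 5) (.e (nat_lit 1572) (nat_lit 110) (.e (nat_lit 352321) (nat_lit 25) (.e (nat_lit 139289) (nat_lit 9) .nil))))))) (.g (nat_lit 4) .nil .nil))) 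
(.lf (nat_lit 98934) (.g (nat_lit 2076) (.e (nat_lit 3104) (nat_lit 192) (.e (nat_lit 491535) (nat_lit 2) (.e (nat_lit 90176) (nat_lit 15) (.e (nat_lit 188450) (nat_lit 23) (.e (nat_lit 204816) (nat_lit 17) (.e (nat_lit 6619) (nat_lit 357) .nil)))))) (.g (nat_lit 4) .nil .nil)))))) (.nd (nat_lit 4) (.nd (nat_lit 5) (.nd (nat_lit 6) 
(.lf (nat_lit 98830) (.g (nat_lit 1872) (.e (nat_lit 3100) (nat_lit 192) (.e (nat_lit 491563) (nat_lit 12) (.e (nat_lit 385104) (nat_lit 50) .nil))) .nil)) 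
(.lf (nat_lit 98894) (.g (nat_lit 7172) (.e (nat_lit 3102) (nat_lit 192) (.e (nat_lit 491560) (nat_lit 10) (.e (nat_lit 344126) (nat_lit 25) (.e (nat_lit 548889) (nat_lit 9) (.e (nat_lit 65598) (nat_lit 9) (.e (nat_lit 336013) (nat_lit 2) (.e (nat_lit 90141) (nat_lit 9) .nil))))))) (.g (nat_lit 7) .nil .nil)))) (.nd (nat_lit 6) 
(.lf (nat_lit 98862) (.g (nat_lit 3554) (.e (nat_lit 3102) (nat_lit 192) (.e (nat_lit 491558) (nat_lit 10) (.e (nat_lit 344126) (nat_lit 25) (.e (nat_lit 548889) (nat_lit 9) (.e (nat_lit 65598) (nat_lit 9) (.e (nat_lit 336013) (nat_lit 2) (.e (nat_lit 90143) (nat_lit 9) .nil))))))) (.g (nat_lit 4) .nil .nil))) 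
(.lf (nat_lit 98926) (.g (nat_lit 1506) (.e (nat_lit 3102) (nat_lit 192) (.e (nat_lit 491563) (nat_lit 12) (.e (nat_lit 385106) (nat_lit 50) .nil))) .nil)))) (.nd (nat_lit 5) (.nd (nat_lit 6) 
(.lf (nat_lit 98846) (.g (nat_lit 2801) (.e (nat_lit 3101) (nat_lit 192) (.e (nat_lit 491560) (nat_lit 10) (.e (nat_lit 344126) (nat_lit 25) (.e (nat_lit 548874) (nat_lit 5) (.e (nat_lit 1595) (nat_lit 111) (.e (nat_lit 360463) (nat_lit 1) (.e (nat_lit 499846) (nat_lit 5) .nil))))))) (.g (nat_lit 4) .nil .nil))) 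
(.lf (nat_lit 98910) (.g (nat_lit 3896) (.e (nat_lit 3102) (nat_lit 192) (.e (nat_lit 491560) (nat_lit 10) (.e (nat_lit 344168) (nat_lit 40) (.e (nat_lit 671762) (nat_lit 4) (.e (nat_lit 65617) (nat_lit 10) (.e (nat_lit 344164) (nat_lit 37) (.e (nat_lit 647171) (nat_lit 0) .nil))))))) (.g (nat_lit 0) .nil .nil)))) (.nd (nat_lit 6) 
(.lf (nat_lit 98878) (.g (nat_lit 2999) (.e (nat_lit 3102) (nat_lit 192) (.e (nat_lit 491559) (nat_lit 10) (.e (nat_lit 344169) (nat_lit 40) (.e (nat_lit 671762) (nat_lit 4) (.e (nat_lit 65617) (nat_lit 10) (.e (nat_lit 344164) (nat_lit 37) (.e (nat_lit 647172) (nat_lit 0) .nil))))))) (.g (nat_lit 5) .nil .nil))) 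
(.lf (nat_lit 98942) (.g (nat_lit 4149) (.e (nat_lit 3104) (nat_lit 192) (.e (nat_lit 491563) (nat_lit 12) (.e (nat_lit 385074) (nat_lit 31) (.e (nat_lit 573491) (nat_lit 15) .nil)))) .nil)))))))) (.nd (nat_lit 1) (.nd (nat_lit 2) (.nd (nat_lit 3) (.nd (nat_lit 4) (.nd (nat_lit 5) (.nd (nat_lit 6) 
(.lf (nat_lit 98817) (.g (nat_lit 2007) (.e (nat_lit 3100) (nat_lit 192) (.e (nat_lit 491560) (nat_lit 10) (.e (nat_lit 344115) (nat_lit 20) (.e (nat_lit 507908) (nat_lit 0) (.e (nat_lit 5401) (nat_lit 302) (.e (nat_lit 65577) (nat_lit 5) (.e (nat_lit 139289) (nat_lit 9) .nil))))))) (.g (nat_lit 4) .nil .nil))) 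
(.lf (nat_lit 98881) (.g (nat_lit 373) (.e (nat_lit 3102) (nat_lit 192) (.e (nat_lit 491560) (nat_lit 10) (.e (nat_lit 344126) (nat_lit 25) .nil))) .nil))) (.nd (nat_lit 6) 
(.lf (nat_lit 98849) (.g (nat_lit 4139) (.e (nat_lit 3101) (nat_lit 192) (.e (nat_lit 491563) (nat_lit 12) (.e (nat_lit 385074) (nat_lit 31) (.e (nat_lit 573493) (nat_lit 15) .nil)))) .nil)) 
(.lf (nat_lit 98913) (.g (nat_lit 1288) (.e (nat_lit 3102) (nat_lit 192) (.e (nat_lit 491560) (nat_lit 10) (.e (nat_lit 344169) (nat_lit 40) (.e (nat_lit 671747) (nat_lit 0) .nil)))) .nil)))) (.nd (nat_lit 5) (.nd (nat_lit 6) 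
(.lf (nat_lit 98833) (.g (nat_lit 1745) (.e (nat_lit 3100) (nat_lit 192) (.e (nat_lit 491568) (nat_lit 13) (.e (nat_lit 393301) (nat_lit 27) (.e (nat_lit 491563) (nat_lit 12) .nil)))) .nil)) 
(.lf (nat_lit 98897) (.g (nat_lit 3546) (.e (nat_lit 3102) (nat_lit 192) (.e (nat_lit 491560) (nat_lit 10) (.e (nat_lit 344126) (nat_lit 25) (.e (nat_lit 548889) (nat_lit 9) (.e (nat_lit 65604) (nat_lit 9) .nil))))) .nil))) (.nd (nat_lit 6) 
(.lf (nat_lit 98865) (.g (nat_lit 1724) (.e (nat_lit 3102) (nat_lit 192) (.e (nat_lit 491558) (nat_lit 10) (.e (nat_lit 344129) (nat_lit 26) (.e (nat_lit 557066) (nat_lit 9) (.e (nat_lit 321) (nat_lit 24) .nil))))) .nil)) 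
(.lf (nat_lit 98929) (.g (nat_lit 1011) (.e (nat_lit 3103) (nat_lit 192) (.e (nat_lit 491571) (nat_lit 13) (.e (nat_lit 393232) (nat_lit 17) .nil))) .nil))))) (.nd (nat_lit 4) (.nd (nat_lit 5) (.nd (nat_lit 6) 
(.lf (nat_lit 98825) (.g (nat_lit 1761) (.e (nat_lit 3100) (nat_lit 192) (.e (nat_lit 491560) (nat_lit 10) (.e (nat_lit 344129) (nat_lit 26) (.e (nat_lit 557066) (nat_lit 9) .nil)))) .nil)) 
(.lf (nat_lit 98889) (.g (nat_lit 2077) (.e (nat_lit 3102) (nat_lit 192) (.e (nat_lit 491560) (nat_lit 10) (.e (nat_lit 344126) (nat_lit 25) (.e (nat_lit 548874) (nat_lit 5) (.e (nat_lit 1598) (nat_lit 111) .nil))))) .nil))) (.nd (nat_lit 6) 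
(.lf (nat_lit 98857) (.g (nat_lit 1735) (.e (nat_lit 3102) (nat_lit 192) (.e (nat_lit 491558) (nat_lit 10) (.e (nat_lit 344126) (nat_lit 25) (.e (nat_lit 548873) (nat_lit 5) (.e (nat_lit 1595) (nat_lit 111) .nil))))) .nil)) 
(.lf (nat_lit 98921) (.g (nat_lit 3894) (.e (nat_lit 3102) (nat_lit 192) (.e (nat_lit 491563) (nat_lit 12) (.e (nat_lit 385074) (nat_lit 31) (.e (nat_lit 573491) (nat_lit 15) .nil)))) .nil)))) (.nd (nat_lit 5) (.nd (nat_lit 6) 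
(.lf (nat_lit 98841) (.g (nat_lit 669) (.e (nat_lit 3101) (nat_lit 192) (.e (nat_lit 491560) (nat_lit 10) (.e (nat_lit 344115) (nat_lit 20) .nil))) .nil)) 
(.lf (nat_lit 98905) (.g (nat_lit 1721) (.e (nat_lit 3102) (nat_lit 192) (.e (nat_lit 491560) (nat_lit 10) (.e (nat_lit 344129) (nat_lit 26) (.e (nat_lit 557074) (nat_lit 9) .nil)))) .nil))) (.nd (nat_lit 6) 
(.lf (nat_lit 98873) (.g (nat_lit 500) (.e (nat_lit 3102) (nat_lit 192) (.e (nat_lit 491559) (nat_lit 10) (.e (nat_lit 344169) (nat_lit 40) .nil))) .nil)) 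
(.lf (nat_lit 98937) (.g (nat_lit 1727) (.e (nat_lit 3104) (nat_lit 192) (.e (nat_lit 491540) (nat_lit 3) (.e (nat_lit 98372) (nat_lit 29) (.e (nat_lit 450579) (nat_lit 5) (.e (nat_lit 532482) (nat_lit 0) (.e (nat_lit 6619) (nat_lit 357) .nil)))))) (.g (nat_lit 4) .nil .nil))))))) (.nd (nat_lit 3) (.nd (nat_lit 4) (.nd (nat_lit 5) (.nd (nat_lit 6) 
(.lf (nat_lit 98821) (.g (nat_lit 1681) (.e (nat_lit 3100) (nat_lit 192) (.e (nat_lit 491560) (nat_lit 10) (.e (nat_lit 344126) (nat_lit 25) (.e (nat_lit 548874) (nat_lit 5) .nil)))) .nil)) 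
(.lf (nat_lit 98885) (.g (nat_lit 1593) (.e (nat_lit 3102) (nat_lit 192) (.e (nat_lit 491560) (nat_lit 10) (.e (nat_lit 344126) (nat_lit 25) (.e (nat_lit 548874) (nat_lit 5) .nil)))) .nil))) (.nd (nat_lit 6) 
(.lf (nat_lit 98853) (.g (nat_lit 1947) (.e (nat_lit 3101) (nat_lit 192) (.e (nat_lit 491569) (nat_lit 13) (.e (nat_lit 393301) (nat_lit 27) (.e (nat_lit 491558) (nat_lit 10) .nil)))) .nil)) 
(.lf (nat_lit 98917) (.g (nat_lit 2645) (.e (nat_lit 3102) (nat_lit 192) (.e (nat_lit 491560) (nat_lit 10) (.e (nat_lit 344169) (nat_lit 40) (.e (nat_lit 671748) (nat_lit 0) (.e (nat_lit 1586) (nat_lit 111) (.e (nat_lit 360484) (nat_lit 15) (.e (nat_lit 647171) (nat_lit 0) .nil))))))) (.g (nat_lit 4) .nil .nil))))) (.nd (nat_lit 5) (.nd (nat_lit 6) 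
(.lf (nat_lit 98837) (.g (nat_lit 1665) (.e (nat_lit 3101) (nat_lit 192) (.e (nat_lit 491558) (nat_lit 10) (.e (nat_lit 344126) (nat_lit 25) (.e (nat_lit 548873) (nat_lit 5) .nil)))) .nil)) 
(.lf (nat_lit 98901) (.g (nat_lit 3385) (.e (nat_lit 3102) (nat_lit 192) (.e (nat_lit 491560) (nat_lit 10) (.e (nat_lit 344126) (nat_lit 25) (.e (nat_lit 548891) (nat_lit 11) (.e (nat_lit 81961) (nat_lit 25) (.e (nat_lit 139289) (nat_lit 9) .nil)))))) (.g (nat_lit 4) .nil .nil)))) (.nd (nat_lit 6) 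
(.lf (nat_lit 98869) (.g (nat_lit 856) (.e (nat_lit 3102) (nat_lit 192) (.e (nat_lit 491559) (nat_lit 10) (.e (nat_lit 344126) (nat_lit 25) (.e (nat_lit 548874) (nat_lit 5) .nil)))) .nil)) 
(.lf (nat_lit 98933) (.g (nat_lit 1871) (.e (nat_lit 3104) (nat_lit 192) (.e (nat_lit 491535) (nat_lit 2) (.e (nat_lit 90176) (nat_lit 15) (.e (nat_lit 188450) (nat_lit 23) (.e (nat_lit 204815) (nat_lit 17) .nil))))) .nil))))) (.nd (nat_lit 4) (.nd (nat_lit 5) (.nd (nat_lit 6) 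
(.lf (nat_lit 98829) (.g (nat_lit 2162) (.e (nat_lit 3100) (nat_lit 192) (.e (nat_lit 491563) (nat_lit 12) (.e (nat_lit 385102) (nat_lit 50) .nil))) .nil)) 
(.lf (nat_lit 98893) (.g (nat_lit 6472) (.e (nat_lit 3102) (nat_lit 192) (.e (nat_lit 491560) (nat_lit 10) (.e (nat_lit 344126) (nat_lit 25) (.e (nat_lit 548889) (nat_lit 9) (.e (nat_lit 65598) (nat_lit 9) (.e (nat_lit 336013) (nat_lit 2) (.e (nat_lit 90137) (nat_lit 9) .nil))))))) (.g (nat_lit 6) .nil .nil)))) (.nd (nat_lit 6) 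
(.lf (nat_lit 98861) (.g (nat_lit 3562) (.e (nat_lit 3102) (nat_lit 192) (.e (nat_lit 491558) (nat_lit 10) (.e (nat_lit 344126) (nat_lit 25) (.e (nat_lit 548889) (nat_lit 9) (.e (nat_lit 65598) (nat_lit 9) (.e (nat_lit 336013) (nat_lit 2) (.e (nat_lit 90137) (nat_lit 9) .nil))))))) (.g (nat_lit 4) .nil .nil))) 
(.lf (nat_lit 98925) (.g (nat_lit 2818) (.e (nat_lit 3102) (nat_lit 192) (.e (nat_lit 491563) (nat_lit 12) (.e (nat_lit 385105) (nat_lit 50) (.e (nat_lit 786483) (nat_lit 30) (.e (nat_lit 360484) (nat_lit 15) .nil))))) .nil)))) (.nd (nat_lit 5) (.nd (nat_lit 6) 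
(.lf (nat_lit 98845) (.g (nat_lit 3014) (.e (nat_lit 3101) (nat_lit 192) (.e (nat_lit 491560) (nat_lit 10) (.e (nat_lit 344126) (nat_lit 25) (.e (nat_lit 548874) (nat_lit 5) (.e (nat_lit 1586) (nat_lit 111) .nil))))) .nil)) 
(.lf (nat_lit 98909) (.g (nat_lit 1481) (.e (nat_lit 3102) (nat_lit 192) (.e (nat_lit 491560) (nat_lit 10) (.e (nat_lit 344168) (nat_lit 40) (.e (nat_lit 671747) (nat_lit 0) (.e (nat_lit 1586) (nat_lit 111) .nil))))) .nil))) (.nd (nat_lit 6) 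
(.lf (nat_lit 98877) (.g (nat_lit 3478) (.e (nat_lit 3102) (nat_lit 192) (.e (nat_lit 491559) (nat_lit 10) (.e (nat_lit 344169) (nat_lit 40) (.e (nat_lit 671762) (nat_lit 4) (.e (nat_lit 65617) (nat_lit 10) (.e (nat_lit 344164) (nat_lit 37) (.e (nat_lit 647171) (nat_lit 0) .nil))))))) (.g (nat_lit 7) .nil .nil))) 
(.lf (nat_lit 98941) (.g (nat_lit 4561) (.e (nat_lit 3104) (nat_lit 192) (.e (nat_lit 491560) (nat_lit 10) (.e (nat_lit 344126) (nat_lit 25) (.e (nat_lit 548889) (nat_lit 9) (.e (nat_lit 65598) (nat_lit 9) .nil))))) .nil))))))) (.nd (nat_lit 2) (.nd (nat_lit 3) (.nd (nat_lit 4) (.nd (nat_lit 5) (.nd (nat_lit 6) 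
(.lf (nat_lit 98819) (.g (nat_lit 1831) (.e (nat_lit 3100) (nat_lit 192) (.e (nat_lit 491560) (nat_lit 10) (.e (nat_lit 344115) (nat_lit 20) (.e (nat_lit 507908) (nat_lit 0) (.e (nat_lit 5410) (nat_lit 303) (.e (nat_lit 73743) (nat_lit 1) (.e (nat_lit 499846) (nat_lit 5) .nil))))))) (.g (nat_lit 4) .nil .nil))) 
(.lf (nat_lit 98883) (.g (nat_lit 1875) (.e (nat_lit 3102) (nat_lit 192) (.e (nat_lit 491560) (nat_lit 10) (.e (nat_lit 344126) (nat_lit 25) (.e (nat_lit 548872) (nat_lit 5) .nil)))) .nil))) (.nd (nat_lit 6) 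
(.lf (nat_lit 98851) (.g (nat_lit 721) (.e (nat_lit 3101) (nat_lit 192) (.e (nat_lit 491568) (nat_lit 13) (.e (nat_lit 393301) (nat_lit 27) .nil))) .nil)) 
(.lf (nat_lit 98915) (.g (nat_lit 2067) (.e (nat_lit 3102) (nat_lit 192) (.e (nat_lit 491560) (nat_lit 10) (.e (nat_lit 344169) (nat_lit 40) (.e (nat_lit 671748) (nat_lit 0) (.e (nat_lit 1586) (nat_lit 111) .nil))))) .nil)))) (.nd (nat_lit 5) (.nd (nat_lit 6) 
(.lf (nat_lit 98835) (.g (nat_lit 1175) (.e (nat_lit 3101) (nat_lit 192) (.e (nat_lit 491558) (nat_lit 10) (.e (nat_lit 344115) (nat_lit 20) (.e (nat_lit 507907) (nat_lit 0) (.e (nat_lit 5410) (nat_lit 303) (.e (nat_lit 73743) (nat_lit 1) (.e (nat_lit 499846) (nat_lit 5) .nil))))))) (.g (nat_lit 4) .nil .nil))) 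
(.lf (nat_lit 98899) (.g (nat_lit 2880) (.e (nat_lit 3102) (nat_lit 192) (.e (nat_lit 491560) (nat_lit 10) (.e (nat_lit 344126) (nat_lit 25) (.e (nat_lit 548891) (nat_lit 11) (.e (nat_lit 81960) (nat_lit 25) .nil))))) .nil))) (.nd (nat_lit 6) 
(.lf (nat_lit 98867) (.g (nat_lit 978) (.e (nat_lit 3102) (nat_lit 192) (.e (nat_lit 491559) (nat_lit 10) (.e (nat_lit 344126) (nat_lit 25) (.e (nat_lit 548872) (nat_lit 5) .nil)))) .nil)) 
(.lf (nat_lit 98931) (.g (nat_lit 1178) (.e (nat_lit 3103) (nat_lit 192) (.e (nat_lit 491571) (nat_lit 13) (.e (nat_lit 393251) (nat_lit 18) .nil))) .nil))))) (.nd (nat_lit 4) (.nd (nat_lit 5) (.nd (nat_lit 6) 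
(.lf (nat_lit 98827) (.g (nat_lit 4231) (.e (nat_lit 3100) (nat_lit 192) (.e (nat_lit 491563) (nat_lit 12) (.e (nat_lit 385074) (nat_lit 31) (.e (nat_lit 573491) (nat_lit 15) .nil)))) .nil)) 
(.lf (nat_lit 98891) (.g (nat_lit 3544) (.e (nat_lit 3102) (nat_lit 192) (.e (nat_lit 491560) (nat_lit 10) (.e (nat_lit 344126) (nat_lit 25) (.e (nat_lit 548874) (nat_lit 5) (.e (nat_lit 1598) (nat_lit 111) (.e (nat_lit 360462) (nat_lit 1) (.e (nat_lit 499846) (nat_lit 5) .nil))))))) (.g (nat_lit 5) .nil .nil)))) (.nd (nat_lit 6) 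
(.lf (nat_lit 98859) (.g (nat_lit 2276) (.e (nat_lit 3102) (nat_lit 192) (.e (nat_lit 491558) (nat_lit 10) (.e (nat_lit 344126) (nat_lit 25) (.e (nat_lit 548874) (nat_lit 5) (.e (nat_lit 1595) (nat_lit 111) .nil))))) .nil)) 
(.lf (nat_lit 98923) (.g (nat_lit 1548) (.e (nat_lit 3102) (nat_lit 192) (.e (nat_lit 491563) (nat_lit 12) (.e (nat_lit 385104) (nat_lit 50) .nil))) .nil)))) (.nd (nat_lit 5) (.nd (nat_lit 6) 
(.lf (nat_lit 98843) (.g (nat_lit 1062) (.e (nat_lit 3101) (nat_lit 192) (.e (nat_lit 491560) (nat_lit 10) (.e (nat_lit 344126) (nat_lit 25) .nil))) .nil)) 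
(.lf (nat_lit 98907) (.g (nat_lit 921) (.e (nat_lit 3102) (nat_lit 192) (.e (nat_lit 491560) (nat_lit 10) (.e (nat_lit 344132) (nat_lit 26) .nil))) .nil))) (.nd (nat_lit 6) 
(.lf (nat_lit 98875) (.g (nat_lit 2001) (.e (nat_lit 3102) (nat_lit 192) (.e (nat_lit 491559) (nat_lit 10) (.e (nat_lit 344169) (nat_lit 40) (.e (nat_lit 671748) (nat_lit 0) (.e (nat_lit 1586) (nat_lit 111) (.e (nat_lit 360483) (nat_lit 15) (.e (nat_lit 647172) (nat_lit 0) .nil))))))) (.g (nat_lit 4) .nil .nil))) 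
(.lf (nat_lit 98939) (.g (nat_lit 1666) (.e (nat_lit 3104) (nat_lit 192) (.e (nat_lit 491540) (nat_lit 3) (.e (nat_lit 98372) (nat_lit 29) (.e (nat_lit 450579) (nat_lit 5) (.e (nat_lit 532488) (nat_lit 0) .nil))))) .nil)))))) (.nd (nat_lit 3) (.nd (nat_lit 4) (.nd (nat_lit 5) (.nd (nat_lit 6) 
(.lf (nat_lit 98823) (.g (nat_lit 4053) (.e (nat_lit 3100) (nat_lit 192) (.e (nat_lit 491560) (nat_lit 10) (.e (nat_lit 344126) (nat_lit 25) (.e (nat_lit 548889) (nat_lit 9) (.e (nat_lit 65598) (nat_lit 9) (.e (nat_lit 336013) (nat_lit 2) (.e (nat_lit 90141) (nat_lit 9) .nil))))))) (.g (nat_lit 4) .nil .nil))) 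
(.lf (nat_lit 98887) (.g (nat_lit 2406) (.e (nat_lit 3102) (nat_lit 192) (.e (nat_lit 491560) (nat_lit 10) (.e (nat_lit 344126) (nat_lit 25) (.e (nat_lit 548874) (nat_lit 5) (.e (nat_lit 1589) (nat_lit 111) .nil))))) .nil))) (.nd (nat_lit 6) 
(.lf (nat_lit 98855) (.g (nat_lit 2289) (.e (nat_lit 3101) (nat_lit 192) (.e (nat_lit 491569) (nat_lit 13) (.e (nat_lit 393301) (nat_lit 27) (.e (nat_lit 491560) (nat_lit 10) .nil)))) .nil)) 
(.lf (nat_lit 98919) (.g (nat_lit 4205) (.e (nat_lit 3102) (nat_lit 192) (.e (nat_lit 491560) (nat_lit 10) (.e (nat_lit 344169) (nat_lit 40) (.e (nat_lit 671762) (nat_lit 4) (.e (nat_lit 65617) (nat_lit 10) (.e (nat_lit 344164) (nat_lit 37) (.e (nat_lit 647171) (nat_lit 0) .nil))))))) (.g (nat_lit 0) .nil .nil))))) (.nd (nat_lit 5) (.nd (nat_lit 6) 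
(.lf (nat_lit 98839) (.g (nat_lit 3433) (.e (nat_lit 3101) (nat_lit 192) (.e (nat_lit 491558) (nat_lit 10) (.e (nat_lit 344126) (nat_lit 25) (.e (nat_lit 548889) (nat_lit 9) (.e (nat_lit 65598) (nat_lit 9) .nil))))) .nil)) 
(.lf (nat_lit 98903) (.g (nat_lit 704) (.e (nat_lit 3102) (nat_lit 192) (.e (nat_lit 491560) (nat_lit 10) (.e (nat_lit 344129) (nat_lit 26) .nil))) .nil))) (.nd (nat_lit 6) 
(.lf (nat_lit 98871) (.g (nat_lit 1848) (.e (nat_lit 3102) (nat_lit 192) (.e (nat_lit 491559) (nat_lit 10) (.e (nat_lit 344126) (nat_lit 25) (.e (nat_lit 548874) (nat_lit 5) (.e (nat_lit 1598) (nat_lit 111) .nil))))) .nil)) 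
(.lf (nat_lit 98935) (.g (nat_lit 1716) (.e (nat_lit 3104) (nat_lit 192) (.e (nat_lit 491537) (nat_lit 2) (.e (nat_lit 90185) (nat_lit 17) (.e (nat_lit 237605) (nat_lit 9) .nil)))) .nil))))) (.nd (nat_lit 4) (.nd (nat_lit 5) (.nd (nat_lit 6) 
(.lf (nat_lit 98831) (.g (nat_lit 2166) (.e (nat_lit 3100) (nat_lit 192) (.e (nat_lit 491563) (nat_lit 12) (.e (nat_lit 385105) (nat_lit 50) .nil))) .nil)) 
(.lf (nat_lit 98895) (.g (nat_lit 6464) (.e (nat_lit 3102) (nat_lit 192) (.e (nat_lit 491560) (nat_lit 10) (.e (nat_lit 344126) (nat_lit 25) (.e (nat_lit 548889) (nat_lit 9) (.e (nat_lit 65598) (nat_lit 9) (.e (nat_lit 336013) (nat_lit 2) (.e (nat_lit 90143) (nat_lit 9) .nil))))))) (.g (nat_lit 6) .nil .nil)))) (.nd (nat_lit 6) 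
(.lf (nat_lit 98863) (.g (nat_lit 3444) (.e (nat_lit 3102) (nat_lit 192) (.e (nat_lit 491558) (nat_lit 10) (.e (nat_lit 344126) (nat_lit 25) (.e (nat_lit 548889) (nat_lit 9) (.e (nat_lit 65598) (nat_lit 9) (.e (nat_lit 336013) (nat_lit 2) (.e (nat_lit 90144) (nat_lit 9) .nil))))))) (.g (nat_lit 4) .nil .nil))) 
(.lf (nat_lit 98927) (.g (nat_lit 4205) (.e (nat_lit 3103) (nat_lit 192) (.e (nat_lit 491563) (nat_lit 12) (.e (nat_lit 385074) (nat_lit 31) (.e (nat_lit 573493) (nat_lit 15) .nil)))) .nil)))) (.nd (nat_lit 5) (.nd (nat_lit 6) 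
(.lf (nat_lit 98847) (.g (nat_lit 4267) (.e (nat_lit 3101) (nat_lit 192) (.e (nat_lit 491560) (nat_lit 10) (.e (nat_lit 344126) (nat_lit 25) (.e (nat_lit 548889) (nat_lit 9) (.e (nat_lit 65598) (nat_lit 9) .nil))))) .nil)) 
(.lf (nat_lit 98911) (.g (nat_lit 3417) (.e (nat_lit 3102) (nat_lit 192) (.e (nat_lit 491560) (nat_lit 10) (.e (nat_lit 344168) (nat_lit 40) (.e (nat_lit 671762) (nat_lit 4) (.e (nat_lit 65617) (nat_lit 10) (.e (nat_lit 344164) (nat_lit 37) (.e (nat_lit 647172) (nat_lit 0) .nil))))))) (.g (nat_lit 5) .nil .nil)))) (.nd (nat_lit 6) 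
(.lf (nat_lit 98879) (.g (nat_lit 878) (.e (nat_lit 3102) (nat_lit 192) (.e (nat_lit 491560) (nat_lit 10) (.e (nat_lit 344088) (nat_lit 18) .nil))) .nil)) 
(.lf (nat_lit 98943) (.g (nat_lit 3800) (.e (nat_lit 3104) (nat_lit 192) (.e (nat_lit 491563) (nat_lit 12) (.e (nat_lit 385074) (nat_lit 31) (.e (nat_lit 573493) (nat_lit 15) .nil)))) .nil)))))))))

noncomputable def tv1357 : DT := (.nd (nat_lit 0) (.nd (nat_lit 1) (.nd (nat_lit 2) (.nd (nat_lit 3) (.nd (nat_lit 4) (.nd (nat_lit 5) (.nd (nat_lit 6) 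
(.lf (nat_lit 98944) (.g (nat_lit 908) (.e (nat_lit 3104) (nat_lit 192) (.e (nat_lit 491568) (nat_lit 13) (.e (nat_lit 393251) (nat_lit 18) .nil))) .nil)) 
(.lf (nat_lit 99008) (.g (nat_lit 2111) (.e (nat_lit 3114) (nat_lit 193) (.e (nat_lit 500075) (nat_lit 20) (.e (nat_lit 81953) (nat_lit 22) (.e (nat_lit 90130) (nat_lit 9) (.e (nat_lit 2830) (nat_lit 182) .nil))))) .nil))) (.nd (nat_lit 6) 
(.lf (nat_lit 98976) (.g (nat_lit 4456) (.e (nat_lit 3105) (nat_lit 192) (.e (nat_lit 491560) (nat_lit 10) (.e (nat_lit 344126) (nat_lit 25) (.e (nat_lit 548889) (nat_lit 9) (.e (nat_lit 65598) (nat_lit 9) .nil))))) .nil)) 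
(.lf (nat_lit 99040) (.g (nat_lit 1517) (.e (nat_lit 3144) (nat_lit 193) (.e (nat_lit 500079) (nat_lit 20) (.e (nat_lit 81956) (nat_lit 23) (.e (nat_lit 98350) (nat_lit 24) .nil)))) .nil)))) (.nd (nat_lit 5) (.nd (nat_lit 6) 
(.lf (nat_lit 98960) (.g (nat_lit 2744) (.e (nat_lit 3105) (nat_lit 192) (.e (nat_lit 491540) (nat_lit 3) (.e (nat_lit 98373) (nat_lit 29) (.e (nat_lit 450587) (nat_lit 10) (.e (nat_lit 573475) (nat_lit 12) (.e (nat_lit 57345) (nat_lit 0) (.e (nat_lit 6850) (nat_lit 371) (.e (nat_lit 2419) (nat_lit 157) .nil)))))))) (.g (nat_lit 5) .nil .nil))) 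
(.lf (nat_lit 99024) (.g (nat_lit 2026) (.e (nat_lit 3141) (nat_lit 193) (.e (nat_lit 500065) (nat_lit 18) (.e (nat_lit 65553) (nat_lit 0) (.e (nat_lit 2005) (nat_lit 138) (.e (nat_lit 671759) (nat_lit 3) (.e (nat_lit 57479) (nat_lit 28) (.e (nat_lit 557109) (nat_lit 15) (.e (nat_lit 196352) (nat_lit 20) .nil)))))))) (.g (nat_lit 7) .nil .nil)))) (.nd (nat_lit 6) 
(.lf (nat_lit 98992) (.g (nat_lit 1161) (.e (nat_lit 3106) (nat_lit 192) (.e (nat_lit 491566) (nat_lit 12) (.e (nat_lit 385074) (nat_lit 31) .nil))) .nil)) 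
(.lf (nat_lit 99056) (.g (nat_lit 3567) (.e (nat_lit 7936) (nat_lit 193) (.e (nat_lit 500077) (nat_lit 20) (.e (nat_lit 81956) (nat_lit 23) (.e (nat_lit 98350) (nat_lit 24) (.e (nat_lit 409648) (nat_lit 18) .nil))))) .nil))))) (.nd (nat_lit 4) (.nd (nat_lit 5) (.nd (nat_lit 6) 
(.lf (nat_lit 98952) (.g (nat_lit 1056) (.e (nat_lit 3104) (nat_lit 192) (.e (nat_lit 491569) (nat_lit 13) (.e (nat_lit 393234) (nat_lit 17) .nil))) .nil)) 
(.lf (nat_lit 99016) (.g (nat_lit 3397) (.e (nat_lit 3134) (nat_lit 193) (.e (nat_lit 500078) (nat_lit 20) (.e (nat_lit 81956) (nat_lit 23) (.e (nat_lit 98350) (nat_lit 24) (.e (nat_lit 409648) (nat_lit 18) (.e (nat_lit 303108) (nat_lit 0) .nil)))))) (.g (nat_lit 4) .nil .nil)))) (.nd (nat_lit 6) 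
(.lf (nat_lit 98984) (.g (nat_lit 959) (.e (nat_lit 3105) (nat_lit 192) (.e (nat_lit 491566) (nat_lit 12) (.e (nat_lit 385105) (nat_lit 50) .nil))) .nil)) 
(.lf (nat_lit 99048) (.g (nat_lit 3671) (.e (nat_lit 3146) (nat_lit 193) (.e (nat_lit 500079) (nat_lit 20) (.e (nat_lit 81956) (nat_lit 23) (.e (nat_lit 98350) (nat_lit 24) (.e (nat_lit 409649) (nat_lit 18) .nil))))) .nil)))) (.nd (nat_lit 5) (.nd (nat_lit 6) 
(.lf (nat_lit 98968) (.g (nat_lit 1389) (.e (nat_lit 3105) (nat_lit 192) (.e (nat_lit 491558) (nat_lit 10) (.e (nat_lit 344117) (nat_lit 21) (.e (nat_lit 516185) (nat_lit 16) .nil)))) .nil)) 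
(.lf (nat_lit 99032) (.g (nat_lit 1514) (.e (nat_lit 3144) (nat_lit 193) (.e (nat_lit 500076) (nat_lit 20) (.e (nat_lit 81956) (nat_lit 23) (.e (nat_lit 98350) (nat_lit 24) .nil)))) .nil))) (.nd (nat_lit 6) 
(.lf (nat_lit 99000) (.g (nat_lit 3705) (.e (nat_lit 3107) (nat_lit 193) (.e (nat_lit 500077) (nat_lit 20) (.e (nat_lit 81954) (nat_lit 23) (.e (nat_lit 98350) (nat_lit 24) (.e (nat_lit 409645) (nat_lit 18) (.e (nat_lit 303112) (nat_lit 0) .nil)))))) (.g (nat_lit 6) .nil .nil))) 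
(.lf (nat_lit 99064) (.g (nat_lit 539) (.e (nat_lit 3207) (nat_lit 195) (.e (nat_lit 516129) (nat_lit 3) (.e (nat_lit 221210) (nat_lit 22) .nil))) .nil)))))) (.nd (nat_lit 3) (.nd (nat_lit 4) (.nd (nat_lit 5) (.nd (nat_lit 6) 
(.lf (nat_lit 98948) (.g (nat_lit 2537) (.e (nat_lit 3104) (nat_lit 192) (.e (nat_lit 491568) (nat_lit 13) (.e (nat_lit 393253) (nat_lit 18) (.e (nat_lit 164147) (nat_lit 152) (.e (nat_lit 1211) (nat_lit 89) .nil))))) .nil)) 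
(.lf (nat_lit 99012) (.g (nat_lit 3482) (.e (nat_lit 3124) (nat_lit 193) (.e (nat_lit 500078) (nat_lit 20) (.e (nat_lit 81956) (nat_lit 23) (.e (nat_lit 98350) (nat_lit 24) (.e (nat_lit 409648) (nat_lit 18) .nil))))) .nil))) (.nd (nat_lit 6) 
(.lf (nat_lit 98980) (.g (nat_lit 1077) (.e (nat_lit 3105) (nat_lit 192) (.e (nat_lit 491566) (nat_lit 12) (.e (nat_lit 385045) (nat_lit 21) .nil))) .nil)) 
(.lf (nat_lit 99044) (.g (nat_lit 1098) (.e (nat_lit 3145) (nat_lit 193) (.e (nat_lit 500065) (nat_lit 18) (.e (nat_lit 65546) (nat_lit 0) (.e (nat_lit 2005) (nat_lit 138) .nil)))) .nil)))) (.nd (nat_lit 5) (.nd (nat_lit 6) 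
(.lf (nat_lit 98964) (.g (nat_lit 2746) (.e (nat_lit 3105) (nat_lit 192) (.e (nat_lit 491540) (nat_lit 3) (.e (nat_lit 98373) (nat_lit 29) (.e (nat_lit 450587) (nat_lit 10) (.e (nat_lit 573475) (nat_lit 12) (.e (nat_lit 57566) (nat_lit 52) (.e (nat_lit 753670) (nat_lit 5) .nil))))))) (.g (nat_lit 5) .nil .nil))) 
(.lf (nat_lit 99028) (.g (nat_lit 3112) (.e (nat_lit 3143) (nat_lit 193) (.e (nat_lit 500076) (nat_lit 20) (.e (nat_lit 81956) (nat_lit 23) (.e (nat_lit 98350) (nat_lit 24) (.e (nat_lit 409648) (nat_lit 18) (.e (nat_lit 303108) (nat_lit 0) .nil)))))) (.g (nat_lit 4) .nil .nil)))) (.nd (nat_lit 6) 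
(.lf (nat_lit 98996) (.g (nat_lit 1879) (.e (nat_lit 3107) (nat_lit 193) (.e (nat_lit 500065) (nat_lit 18) (.e (nat_lit 65642) (nat_lit 15) (.e (nat_lit 3632) (nat_lit 227) (.e (nat_lit 778317) (nat_lit 3) (.e (nat_lit 57477) (nat_lit 28) (.e (nat_lit 557107) (nat_lit 15) (.e (nat_lit 188439) (nat_lit 20) .nil)))))))) (.g (nat_lit 4) .nil .nil))) 
(.lf (nat_lit 99060) (.g (nat_lit 2318) (.e (nat_lit 3200) (nat_lit 194) (.e (nat_lit 507907) (nat_lit 0) (.e (nat_lit 5412) (nat_lit 303) (.e (nat_lit 73746) (nat_lit 3) (.e (nat_lit 516146) (nat_lit 9) (.e (nat_lit 426448) (nat_lit 20) (.e (nat_lit 122624) (nat_lit 0) .nil))))))) (.g (nat_lit 6) .nil .nil)))))) (.nd (nat_lit 4) (.nd (nat_lit 5) (.nd (nat_lit 6) 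
(.lf (nat_lit 98956) (.g (nat_lit 1983) (.e (nat_lit 3104) (nat_lit 192) (.e (nat_lit 491569) (nat_lit 13) (.e (nat_lit 393253) (nat_lit 18) (.e (nat_lit 164162) (nat_lit 152) .nil)))) .nil)) 
(.lf (nat_lit 99020) (.g (nat_lit 1342) (.e (nat_lit 3141) (nat_lit 193) (.e (nat_lit 500056) (nat_lit 17) (.e (nat_lit 57525) (nat_lit 46) (.e (nat_lit 704734) (nat_lit 11) (.e (nat_lit 16416) (nat_lit 3) (.e (nat_lit 204876) (nat_lit 31) (.e (nat_lit 376833) (nat_lit 0) .nil))))))) (.g (nat_lit 5) .nil .nil)))) (.nd (nat_lit 6) 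
(.lf (nat_lit 98988) (.g (nat_lit 4114) (.e (nat_lit 3106) (nat_lit 192) (.e (nat_lit 491563) (nat_lit 12) (.e (nat_lit 385074) (nat_lit 31) (.e (nat_lit 573493) (nat_lit 15) .nil)))) .nil)) 
(.lf (nat_lit 99052) (.g (nat_lit 2030) (.e (nat_lit 3147) (nat_lit 193) (.e (nat_lit 500079) (nat_lit 20) (.e (nat_lit 81953) (nat_lit 22) (.e (nat_lit 90130) (nat_lit 9) .nil)))) .nil)))) (.nd (nat_lit 5) (.nd (nat_lit 6) 
(.lf (nat_lit 98972) (.g (nat_lit 2111) (.e (nat_lit 3105) (nat_lit 192) (.e (nat_lit 491559) (nat_lit 10) (.e (nat_lit 344126) (nat_lit 25) (.e (nat_lit 548874) (nat_lit 5) (.e (nat_lit 1595) (nat_lit 111) .nil))))) .nil)) 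
(.lf (nat_lit 99036) (.g (nat_lit 3743) (.e (nat_lit 3144) (nat_lit 193) (.e (nat_lit 500077) (nat_lit 20) (.e (nat_lit 81954) (nat_lit 23) (.e (nat_lit 98350) (nat_lit 24) (.e (nat_lit 409645) (nat_lit 18) (.e (nat_lit 303112) (nat_lit 0) .nil)))))) (.g (nat_lit 0) .nil .nil)))) (.nd (nat_lit 6) 
(.lf (nat_lit 99004) (.g (nat_lit 1777) (.e (nat_lit 3111) (nat_lit 193) (.e (nat_lit 500074) (nat_lit 20) (.e (nat_lit 81956) (nat_lit 23) (.e (nat_lit 98350) (nat_lit 24) .nil)))) .nil)) 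
(.lf (nat_lit 99068) (.g (nat_lit 1244) (.e (nat_lit 3207) (nat_lit 195) (.e (nat_lit 516166) (nat_lit 12) (.e (nat_lit 450562) (nat_lit 0) .nil))) .nil))))))) (.nd (nat_lit 2) (.nd (nat_lit 3) (.nd (nat_lit 4) (.nd (nat_lit 5) (.nd (nat_lit 6) 
(.lf (nat_lit 98946) (.g (nat_lit 878) (.e (nat_lit 3104) (nat_lit 192) (.e (nat_lit 491568) (nat_lit 13) (.e (nat_lit 393252) (nat_lit 18) .nil))) .nil)) 
(.lf (nat_lit 99010) (.g (nat_lit 4055) (.e (nat_lit 3115) (nat_lit 193) (.e (nat_lit 500075) (nat_lit 20) (.e (nat_lit 81956) (nat_lit 23) (.e (nat_lit 98350) (nat_lit 24) (.e (nat_lit 409648) (nat_lit 18) .nil))))) .nil))) (.nd (nat_lit 6) 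
(.lf (nat_lit 98978) (.g (nat_lit 3178) (.e (nat_lit 3105) (nat_lit 192) (.e (nat_lit 491563) (nat_lit 12) (.e (nat_lit 385074) (nat_lit 31) (.e (nat_lit 573491) (nat_lit 15) .nil)))) .nil)) 
(.lf (nat_lit 99042) (.g (nat_lit 3661) (.e (nat_lit 3144) (nat_lit 193) (.e (nat_lit 500079) (nat_lit 20) (.e (nat_lit 81956) (nat_lit 23) (.e (nat_lit 98350) (nat_lit 24) (.e (nat_lit 409649) (nat_lit 18) .nil))))) .nil)))) (.nd (nat_lit 5) (.nd (nat_lit 6) 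
(.lf (nat_lit 98962) (.g (nat_lit 2623) (.e (nat_lit 3105) (nat_lit 192) (.e (nat_lit 491540) (nat_lit 3) (.e (nat_lit 98373) (nat_lit 29) (.e (nat_lit 450587) (nat_lit 10) (.e (nat_lit 573475) (nat_lit 12) (.e (nat_lit 57345) (nat_lit 0) (.e (nat_lit 6852) (nat_lit 371) (.e (nat_lit 2439) (nat_lit 157) .nil)))))))) (.g (nat_lit 5) .nil .nil))) 
(.lf (nat_lit 99026) (.g (nat_lit 1188) (.e (nat_lit 3141) (nat_lit 193) (.e (nat_lit 500073) (nat_lit 19) (.e (nat_lit 73746) (nat_lit 3) (.e (nat_lit 516124) (nat_lit 2) (.e (nat_lit 220928) (nat_lit 0) .nil))))) .nil))) (.nd (nat_lit 6) 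
(.lf (nat_lit 98994) (.g (nat_lit 2171) (.e (nat_lit 3107) (nat_lit 193) (.e (nat_lit 500065) (nat_lit 18) (.e (nat_lit 65617) (nat_lit 10) (.e (nat_lit 344132) (nat_lit 26) (.e (nat_lit 557093) (nat_lit 12) .nil))))) .nil)) 
(.lf (nat_lit 99058) (.g (nat_lit 3712) (.e (nat_lit 7936) (nat_lit 193) (.e (nat_lit 500079) (nat_lit 20) (.e (nat_lit 81956) (nat_lit 23) (.e (nat_lit 98350) (nat_lit 24) (.e (nat_lit 409648) (nat_lit 18) .nil))))) .nil))))) (.nd (nat_lit 4) (.nd (nat_lit 5) (.nd (nat_lit 6) 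
(.lf (nat_lit 98954) (.g (nat_lit 1001) (.e (nat_lit 3104) (nat_lit 192) (.e (nat_lit 491569) (nat_lit 13) (.e (nat_lit 393253) (nat_lit 18) .nil))) .nil)) 
(.lf (nat_lit 99018) (.g (nat_lit 1751) (.e (nat_lit 3137) (nat_lit 193) (.e (nat_lit 500046) (nat_lit 16) (.e (nat_lit 16416) (nat_lit 3) (.e (nat_lit 204809) (nat_lit 9) (.e (nat_lit 426133) (nat_lit 3) .nil))))) .nil))) (.nd (nat_lit 6) 
(.lf (nat_lit 98986) (.g (nat_lit 2115) (.e (nat_lit 3105) (nat_lit 192) (.e (nat_lit 491571) (nat_lit 13) (.e (nat_lit 393232) (nat_lit 17) (.e (nat_lit 3555) (nat_lit 220) .nil)))) .nil)) 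
(.lf (nat_lit 99050) (.g (nat_lit 3949) (.e (nat_lit 3147) (nat_lit 193) (.e (nat_lit 500076) (nat_lit 20) (.e (nat_lit 81956) (nat_lit 23) (.e (nat_lit 98350) (nat_lit 24) (.e (nat_lit 409649) (nat_lit 18) (.e (nat_lit 303111) (nat_lit 0) .nil)))))) (.g (nat_lit 6) .nil .nil))))) (.nd (nat_lit 5) (.nd (nat_lit 6) 
(.lf (nat_lit 98970) (.g (nat_lit 1783) (.e (nat_lit 3105) (nat_lit 192) (.e (nat_lit 491558) (nat_lit 10) (.e (nat_lit 344126) (nat_lit 25) (.e (nat_lit 548874) (nat_lit 5) .nil)))) .nil)) 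
(.lf (nat_lit 99034) (.g (nat_lit 3741) (.e (nat_lit 3144) (nat_lit 193) (.e (nat_lit 500076) (nat_lit 20) (.e (nat_lit 81956) (nat_lit 23) (.e (nat_lit 98350) (nat_lit 24) (.e (nat_lit 409646) (nat_lit 18) .nil))))) .nil))) (.nd (nat_lit 6) 
(.lf (nat_lit 99002) (.g (nat_lit 3617) (.e (nat_lit 3107) (nat_lit 193) (.e (nat_lit 500078) (nat_lit 20) (.e (nat_lit 81956) (nat_lit 23) (.e (nat_lit 98350) (nat_lit 24) (.e (nat_lit 409648) (nat_lit 18) .nil))))) .nil)) 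
(.lf (nat_lit 99066) (.g (nat_lit 3261) (.e (nat_lit 3207) (nat_lit 195) (.e (nat_lit 516145) (nat_lit 9) (.e (nat_lit 426428) (nat_lit 17) (.e (nat_lit 90174) (nat_lit 14) (.e (nat_lit 180250) (nat_lit 10) (.e (nat_lit 573485) (nat_lit 13) (.e (nat_lit 73472) (nat_lit 15) .nil))))))) (.g (nat_lit 5) .nil .nil))))))) (.nd (nat_lit 3) (.nd (nat_lit 4) (.nd (nat_lit 5) (.nd (nat_lit 6) 
(.lf (nat_lit 98950) (.g (nat_lit 1961) (.e (nat_lit 3104) (nat_lit 192) (.e (nat_lit 491568) (nat_lit 13) (.e (nat_lit 393253) (nat_lit 18) (.e (nat_lit 164162) (nat_lit 152) .nil)))) .nil)) 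
(.lf (nat_lit 99014) (.g (nat_lit 2061) (.e (nat_lit 3129) (nat_lit 193) (.e (nat_lit 500046) (nat_lit 16) (.e (nat_lit 16416) (nat_lit 3) (.e (nat_lit 204813) (nat_lit 9) (.e (nat_lit 426133) (nat_lit 3) .nil))))) .nil))) (.nd (nat_lit 6) 
(.lf (nat_lit 98982) (.g (nat_lit 1077) (.e (nat_lit 3105) (nat_lit 192) (.e (nat_lit 491566) (nat_lit 12) (.e (nat_lit 385051) (nat_lit 21) .nil))) .nil)) 
(.lf (nat_lit 99046) (.g (nat_lit 3504) (.e (nat_lit 3146) (nat_lit 193) (.e (nat_lit 500077) (nat_lit 20) (.e (nat_lit 81956) (nat_lit 23) (.e (nat_lit 98350) (nat_lit 24) (.e (nat_lit 409649) (nat_lit 18) .nil))))) .nil)))) (.nd (nat_lit 5) (.nd (nat_lit 6) 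
(.lf (nat_lit 98966) (.g (nat_lit 2497) (.e (nat_lit 3105) (nat_lit 192) (.e (nat_lit 491544) (nat_lit 7) (.e (nat_lit 319504) (nat_lit 10) (.e (nat_lit 618) (nat_lit 48) (.e (nat_lit 557109) (nat_lit 15) .nil))))) .nil)) 
(.lf (nat_lit 99030) (.g (nat_lit 3568) (.e (nat_lit 3143) (nat_lit 193) (.e (nat_lit 500078) (nat_lit 20) (.e (nat_lit 81956) (nat_lit 23) (.e (nat_lit 98350) (nat_lit 24) (.e (nat_lit 409648) (nat_lit 18) .nil))))) .nil))) (.nd (nat_lit 6) 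
(.lf (nat_lit 98998) (.g (nat_lit 3740) (.e (nat_lit 3107) (nat_lit 193) (.e (nat_lit 500074) (nat_lit 20) (.e (nat_lit 81956) (nat_lit 23) (.e (nat_lit 98350) (nat_lit 24) (.e (nat_lit 409649) (nat_lit 18) .nil))))) .nil)) 
(.lf (nat_lit 99062) (.g (nat_lit 1361) (.e (nat_lit 3205) (nat_lit 194) (.e (nat_lit 507946) (nat_lit 18) (.e (nat_lit 303146) (nat_lit 14) (.e (nat_lit 491540) (nat_lit 3) (.e (nat_lit 98370) (nat_lit 28) .nil))))) .nil))))) (.nd (nat_lit 4) (.nd (nat_lit 5) (.nd (nat_lit 6) 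
(.lf (nat_lit 98958) (.g (nat_lit 903) (.e (nat_lit 3105) (nat_lit 192) (.e (nat_lit 491536) (nat_lit 2) (.e (nat_lit 90176) (nat_lit 15) (.e (nat_lit 188450) (nat_lit 23) .nil)))) .nil)) 
(.lf (nat_lit 99022) (.g (nat_lit 1352) (.e (nat_lit 3141) (nat_lit 193) (.e (nat_lit 500056) (nat_lit 17) (.e (nat_lit 57537) (nat_lit 46) (.e (nat_lit 704734) (nat_lit 11) (.e (nat_lit 16416) (nat_lit 3) (.e (nat_lit 204877) (nat_lit 31) (.e (nat_lit 376833) (nat_lit 0) .nil))))))) (.g (nat_lit 5) .nil .nil)))) (.nd (nat_lit 6) 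
(.lf (nat_lit 98990) (.g (nat_lit 2366) (.e (nat_lit 3106) (nat_lit 192) (.e (nat_lit 491566) (nat_lit 12) (.e (nat_lit 385072) (nat_lit 31) (.e (nat_lit 573492) (nat_lit 15) (.e (nat_lit 81953) (nat_lit 22) .nil))))) .nil)) 
(.lf (nat_lit 99054) (.g (nat_lit 641) (.e (nat_lit 7936) (nat_lit 193) (.e (nat_lit 499969) (nat_lit 14) (.e (nat_lit 1669) (nat_lit 116) (.e (nat_lit 401453) (nat_lit 12) .nil)))) .nil)))) (.nd (nat_lit 5) (.nd (nat_lit 6) 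
(.lf (nat_lit 98974) (.g (nat_lit 2648) (.e (nat_lit 3105) (nat_lit 192) (.e (nat_lit 491560) (nat_lit 10) (.e (nat_lit 344126) (nat_lit 25) (.e (nat_lit 548873) (nat_lit 5) .nil)))) .nil)) 
(.lf (nat_lit 99038) (.g (nat_lit 3823) (.e (nat_lit 3144) (nat_lit 193) (.e (nat_lit 500078) (nat_lit 20) (.e (nat_lit 81956) (nat_lit 23) (.e (nat_lit 98350) (nat_lit 24) (.e (nat_lit 409645) (nat_lit 18) .nil))))) .nil))) (.nd (nat_lit 6) 
(.lf (nat_lit 99006) (.g (nat_lit 225) (.e (nat_lit 3114) (nat_lit 193) (.e (nat_lit 499929) (nat_lit 11) (.e (nat_lit 196352) (nat_lit 19) (.e (nat_lit 401473) (nat_lit 29) (.e (nat_lit 360192) (nat_lit 0) .nil))))) (.g (nat_lit 4) .nil .nil))) 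
(.lf (nat_lit 99070) (.g (nat_lit 1189) (.e (nat_lit 3207) (nat_lit 195) (.e (nat_lit 516166) (nat_lit 12) (.e (nat_lit 450563) (nat_lit 0) .nil))) .nil)))))))) (.nd (nat_lit 1) (.nd (nat_lit 2) (.nd (nat_lit 3) (.nd (nat_lit 4) (.nd (nat_lit 5) (.nd (nat_lit 6) 
(.lf (nat_lit 98945) (.g (nat_lit 3134) (.e (nat_lit 3104) (nat_lit 192) (.e (nat_lit 491568) (nat_lit 13) (.e (nat_lit 393251) (nat_lit 18) (.e (nat_lit 164179) (nat_lit 154) (.e (nat_lit 57421) (nat_lit 13) .nil))))) .nil)) 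
(.lf (nat_lit 99009) (.g (nat_lit 2058) (.e (nat_lit 3115) (nat_lit 193) (.e (nat_lit 500074) (nat_lit 20) (.e (nat_lit 81953) (nat_lit 22) (.e (nat_lit 90130) (nat_lit 9) .nil)))) .nil))) (.nd (nat_lit 6) 
(.lf (nat_lit 98977) (.g (nat_lit 3469) (.e (nat_lit 3105) (nat_lit 192) (.e (nat_lit 491560) (nat_lit 10) (.e (nat_lit 344126) (nat_lit 25) (.e (nat_lit 548891) (nat_lit 11) (.e (nat_lit 81953) (nat_lit 22) .nil))))) .nil)) 
(.lf (nat_lit 99041) (.g (nat_lit 4581) (.e (nat_lit 3144) (nat_lit 193) (.e (nat_lit 500079) (nat_lit 20) (.e (nat_lit 81956) (nat_lit 23) (.e (nat_lit 98350) (nat_lit 24) (.e (nat_lit 409645) (nat_lit 18) .nil))))) .nil)))) (.nd (nat_lit 5) (.nd (nat_lit 6) 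
(.lf (nat_lit 98961) (.g (nat_lit 2696) (.e (nat_lit 3105) (nat_lit 192) (.e (nat_lit 491540) (nat_lit 3) (.e (nat_lit 98373) (nat_lit 29) (.e (nat_lit 450587) (nat_lit 10) (.e (nat_lit 573475) (nat_lit 12) (.e (nat_lit 57345) (nat_lit 0) (.e (nat_lit 6852) (nat_lit 371) (.e (nat_lit 2437) (nat_lit 157) .nil)))))))) (.g (nat_lit 5) .nil .nil))) 
(.lf (nat_lit 99025) (.g (nat_lit 1162) (.e (nat_lit 3141) (nat_lit 193) (.e (nat_lit 500065) (nat_lit 18) (.e (nat_lit 65617) (nat_lit 10) (.e (nat_lit 344133) (nat_lit 26) .nil)))) .nil))) (.nd (nat_lit 6) 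
(.lf (nat_lit 98993) (.g (nat_lit 2427) (.e (nat_lit 7936) (nat_lit 192) (.e (nat_lit 491563) (nat_lit 12) (.e (nat_lit 385074) (nat_lit 31) (.e (nat_lit 573493) (nat_lit 15) .nil)))) .nil)) 
(.lf (nat_lit 99057) (.g (nat_lit 3617) (.e (nat_lit 7936) (nat_lit 193) (.e (nat_lit 500078) (nat_lit 20) (.e (nat_lit 81956) (nat_lit 23) (.e (nat_lit 98350) (nat_lit 24) (.e (nat_lit 409648) (nat_lit 18) .nil))))) .nil))))) (.nd (nat_lit 4) (.nd (nat_lit 5) (.nd (nat_lit 6) 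
(.lf (nat_lit 98953) (.g (nat_lit 1060) (.e (nat_lit 3104) (nat_lit 192) (.e (nat_lit 491569) (nat_lit 13) (.e (nat_lit 393237) (nat_lit 17) .nil))) .nil)) 
(.lf (nat_lit 99017) (.g (nat_lit 3661) (.e (nat_lit 3134) (nat_lit 193) (.e (nat_lit 500079) (nat_lit 20) (.e (nat_lit 81956) (nat_lit 23) (.e (nat_lit 98350) (nat_lit 24) (.e (nat_lit 409649) (nat_lit 18) .nil))))) .nil))) (.nd (nat_lit 6) 
(.lf (nat_lit 98985) (.g (nat_lit 2721) (.e (nat_lit 3105) (nat_lit 192) (.e (nat_lit 491568) (nat_lit 13) (.e (nat_lit 393301) (nat_lit 27) (.e (nat_lit 491560) (nat_lit 10) (.e (nat_lit 344094) (nat_lit 18) .nil))))) .nil)) 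
(.lf (nat_lit 99049) (.g (nat_lit 2097) (.e (nat_lit 3147) (nat_lit 193) (.e (nat_lit 500065) (nat_lit 18) (.e (nat_lit 65617) (nat_lit 10) (.e (nat_lit 344132) (nat_lit 26) (.e (nat_lit 557094) (nat_lit 12) .nil))))) .nil)))) (.nd (nat_lit 5) (.nd (nat_lit 6) 
(.lf (nat_lit 98969) (.g (nat_lit 606) (.e (nat_lit 3105) (nat_lit 192) (.e (nat_lit 491558) (nat_lit 10) (.e (nat_lit 344126) (nat_lit 25) .nil))) .nil)) 
(.lf (nat_lit 99033) (.g (nat_lit 4578) (.e (nat_lit 3144) (nat_lit 193) (.e (nat_lit 500076) (nat_lit 20) (.e (nat_lit 81956) (nat_lit 23) (.e (nat_lit 98350) (nat_lit 24) (.e (nat_lit 409645) (nat_lit 18) .nil))))) .nil))) (.nd (nat_lit 6) 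
(.lf (nat_lit 99001) (.g (nat_lit 3470) (.e (nat_lit 3107) (nat_lit 193) (.e (nat_lit 500077) (nat_lit 20) (.e (nat_lit 81956) (nat_lit 23) (.e (nat_lit 98350) (nat_lit 24) (.e (nat_lit 409649) (nat_lit 18) .nil))))) .nil)) 
(.lf (nat_lit 99065) (.g (nat_lit 4616) (.e (nat_lit 3207) (nat_lit 195) (.e (nat_lit 516145) (nat_lit 9) (.e (nat_lit 426428) (nat_lit 17) (.e (nat_lit 90174) (nat_lit 14) (.e (nat_lit 180250) (nat_lit 10) (.e (nat_lit 573482) (nat_lit 13) (.e (nat_lit 65631) (nat_lit 15) .nil))))))) (.g (nat_lit 0) .nil .nil))))))) (.nd (nat_lit 3) (.nd (nat_lit 4) (.nd (nat_lit 5) (.nd (nat_lit 6) 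
(.lf (nat_lit 98949) (.g (nat_lit 2297) (.e (nat_lit 3104) (nat_lit 192) (.e (nat_lit 491568) (nat_lit 13) (.e (nat_lit 393253) (nat_lit 18) (.e (nat_lit 164150) (nat_lit 152) (.e (nat_lit 1207) (nat_lit 89) .nil))))) .nil)) 
(.lf (nat_lit 99013) (.g (nat_lit 1806) (.e (nat_lit 3127) (nat_lit 193) (.e (nat_lit 500065) (nat_lit 18) (.e (nat_lit 65642) (nat_lit 15) (.e (nat_lit 3632) (nat_lit 227) (.e (nat_lit 778318) (nat_lit 3) .nil))))) .nil))) (.nd (nat_lit 6) 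
(.lf (nat_lit 98981) (.g (nat_lit 1077) (.e (nat_lit 3105) (nat_lit 192) (.e (nat_lit 491566) (nat_lit 12) (.e (nat_lit 385046) (nat_lit 21) .nil))) .nil)) 
(.lf (nat_lit 99045) (.g (nat_lit 3116) (.e (nat_lit 3146) (nat_lit 193) (.e (nat_lit 500076) (nat_lit 20) (.e (nat_lit 81956) (nat_lit 23) (.e (nat_lit 98350) (nat_lit 24) (.e (nat_lit 409648) (nat_lit 18) .nil))))) .nil)))) (.nd (nat_lit 5) (.nd (nat_lit 6) 
(.lf (nat_lit 98965) (.g (nat_lit 2837) (.e (nat_lit 3105) (nat_lit 192) (.e (nat_lit 491540) (nat_lit 3) (.e (nat_lit 98373) (nat_lit 29) (.e (nat_lit 450587) (nat_lit 10) (.e (nat_lit 573475) (nat_lit 12) (.e (nat_lit 57567) (nat_lit 52) (.e (nat_lit 753670) (nat_lit 5) .nil))))))) (.g (nat_lit 5) .nil .nil))) 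
(.lf (nat_lit 99029) (.g (nat_lit 3353) (.e (nat_lit 3143) (nat_lit 193) (.e (nat_lit 500077) (nat_lit 20) (.e (nat_lit 81956) (nat_lit 23) (.e (nat_lit 98350) (nat_lit 24) (.e (nat_lit 409649) (nat_lit 18) .nil))))) .nil))) (.nd (nat_lit 6) 
(.lf (nat_lit 98997) (.g (nat_lit 3667) (.e (nat_lit 3107) (nat_lit 193) (.e (nat_lit 500074) (nat_lit 20) (.e (nat_lit 81956) (nat_lit 23) (.e (nat_lit 98350) (nat_lit 24) (.e (nat_lit 409648) (nat_lit 18) .nil))))) .nil)) 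
(.lf (nat_lit 99061) (.g (nat_lit 75) (.e (nat_lit 3204) (nat_lit 194) (.e (nat_lit 507910) (nat_lit 0) (.e (nat_lit 5399) (nat_lit 302) (.e (nat_lit 73472) (nat_lit 34) .nil)))) .nil))))) (.nd (nat_lit 4) (.nd (nat_lit 5) (.nd (nat_lit 6) 
(.lf (nat_lit 98957) (.g (nat_lit 825) (.e (nat_lit 3104) (nat_lit 192) (.e (nat_lit 491570) (nat_lit 13) (.e (nat_lit 393253) (nat_lit 18) .nil))) .nil)) 
(.lf (nat_lit 99021) (.g (nat_lit 1357) (.e (nat_lit 3141) (nat_lit 193) (.e (nat_lit 500056) (nat_lit 17) (.e (nat_lit 57525) (nat_lit 46) (.e (nat_lit 704734) (nat_lit 11) (.e (nat_lit 16416) (nat_lit 3) (.e (nat_lit 204877) (nat_lit 31) (.e (nat_lit 376833) (nat_lit 0) .nil))))))) (.g (nat_lit 5) .nil .nil)))) (.nd (nat_lit 6) 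
(.lf (nat_lit 98989) (.g (nat_lit 1180) (.e (nat_lit 3106) (nat_lit 192) (.e (nat_lit 491566) (nat_lit 12) (.e (nat_lit 385072) (nat_lit 31) .nil))) .nil)) 
(.lf (nat_lit 99053) (.g (nat_lit 349) (.e (nat_lit 3192) (nat_lit 193) (.e (nat_lit 499900) (nat_lit 7) (.e (nat_lit 24653) (nat_lit 12) .nil))) .nil)))) (.nd (nat_lit 5) (.nd (nat_lit 6) 
(.lf (nat_lit 98973) (.g (nat_lit 1191) (.e (nat_lit 3105) (nat_lit 192) (.e (nat_lit 491560) (nat_lit 10) (.e (nat_lit 344126) (nat_lit 25) .nil))) .nil)) 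
(.lf (nat_lit 99037) (.g (nat_lit 1988) (.e (nat_lit 3144) (nat_lit 193) (.e (nat_lit 500078) (nat_lit 20) (.e (nat_lit 81953) (nat_lit 22) (.e (nat_lit 90130) (nat_lit 9) .nil)))) .nil))) (.nd (nat_lit 6) 
(.lf (nat_lit 99005) (.g (nat_lit 1968) (.e (nat_lit 3111) (nat_lit 193) (.e (nat_lit 500075) (nat_lit 20) (.e (nat_lit 81953) (nat_lit 22) (.e (nat_lit 90130) (nat_lit 9) .nil)))) .nil)) 
(.lf (nat_lit 99069) (.g (nat_lit 4030) (.e (nat_lit 3207) (nat_lit 195) (.e (nat_lit 516166) (nat_lit 12) (.e (nat_lit 450562) (nat_lit 0) (.e (nat_lit 6830) (nat_lit 367) .nil)))) .nil))))))) (.nd (nat_lit 2) (.nd (nat_lit 3) (.nd (nat_lit 4) (.nd (nat_lit 5) (.nd (nat_lit 6) 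
(.lf (nat_lit 98947) (.g (nat_lit 949) (.e (nat_lit 3104) (nat_lit 192) (.e (nat_lit 491568) (nat_lit 13) (.e (nat_lit 393253) (nat_lit 18) .nil))) .nil)) 
(.lf (nat_lit 99011) (.g (nat_lit 3504) (.e (nat_lit 3124) (nat_lit 193) (.e (nat_lit 500077) (nat_lit 20) (.e (nat_lit 81956) (nat_lit 23) (.e (nat_lit 98350) (nat_lit 24) (.e (nat_lit 409649) (nat_lit 18) .nil))))) .nil))) (.nd (nat_lit 6) 
(.lf (nat_lit 98979) (.g (nat_lit 3761) (.e (nat_lit 3105) (nat_lit 192) (.e (nat_lit 491563) (nat_lit 12) (.e (nat_lit 385074) (nat_lit 31) (.e (nat_lit 573493) (nat_lit 15) (.e (nat_lit 81953) (nat_lit 22) (.e (nat_lit 90133) (nat_lit 9) .nil)))))) (.g (nat_lit 4) .nil .nil))) 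
(.lf (nat_lit 99043) (.g (nat_lit 558) (.e (nat_lit 3145) (nat_lit 193) (.e (nat_lit 500056) (nat_lit 17) (.e (nat_lit 57536) (nat_lit 46) (.e (nat_lit 704734) (nat_lit 11) (.e (nat_lit 16416) (nat_lit 3) .nil))))) .nil)))) (.nd (nat_lit 5) (.nd (nat_lit 6) 
(.lf (nat_lit 98963) (.g (nat_lit 2689) (.e (nat_lit 3105) (nat_lit 192) (.e (nat_lit 491540) (nat_lit 3) (.e (nat_lit 98373) (nat_lit 29) (.e (nat_lit 450587) (nat_lit 10) (.e (nat_lit 573475) (nat_lit 12) (.e (nat_lit 57345) (nat_lit 0) (.e (nat_lit 6853) (nat_lit 371) (.e (nat_lit 2419) (nat_lit 157) .nil)))))))) (.g (nat_lit 5) .nil .nil))) 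
(.lf (nat_lit 99027) (.g (nat_lit 2117) (.e (nat_lit 3141) (nat_lit 193) (.e (nat_lit 500073) (nat_lit 19) (.e (nat_lit 73746) (nat_lit 3) (.e (nat_lit 516129) (nat_lit 3) (.e (nat_lit 229120) (nat_lit 3) (.e (nat_lit 98313) (nat_lit 9) (.e (nat_lit 336271) (nat_lit 15) .nil))))))) (.g (nat_lit 6) .nil .nil)))) (.nd (nat_lit 6) 
(.lf (nat_lit 98995) (.g (nat_lit 526) (.e (nat_lit 3107) (nat_lit 193) (.e (nat_lit 500065) (nat_lit 18) (.e (nat_lit 65642) (nat_lit 15) .nil))) .nil)) 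
(.lf (nat_lit 99059) (.g (nat_lit 3647) (.e (nat_lit 7936) (nat_lit 193) (.e (nat_lit 500079) (nat_lit 20) (.e (nat_lit 81956) (nat_lit 23) (.e (nat_lit 98350) (nat_lit 24) (.e (nat_lit 409649) (nat_lit 18) .nil))))) .nil))))) (.nd (nat_lit 4) (.nd (nat_lit 5) (.nd (nat_lit 6) 
(.lf (nat_lit 98955) (.g (nat_lit 2319) (.e (nat_lit 3104) (nat_lit 192) (.e (nat_lit 491569) (nat_lit 13) (.e (nat_lit 393253) (nat_lit 18) (.e (nat_lit 164150) (nat_lit 152) (.e (nat_lit 1207) (nat_lit 89) .nil))))) .nil)) 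
(.lf (nat_lit 99019) (.g (nat_lit 2042) (.e (nat_lit 3137) (nat_lit 193) (.e (nat_lit 500046) (nat_lit 16) (.e (nat_lit 16416) (nat_lit 3) (.e (nat_lit 204813) (nat_lit 9) (.e (nat_lit 426139) (nat_lit 3) .nil))))) .nil))) (.nd (nat_lit 6) 
(.lf (nat_lit 98987) (.g (nat_lit 839) (.e (nat_lit 3106) (nat_lit 192) (.e (nat_lit 491563) (nat_lit 12) (.e (nat_lit 385074) (nat_lit 31) .nil))) .nil)) 
(.lf (nat_lit 99051) (.g (nat_lit 3504) (.e (nat_lit 3147) (nat_lit 193) (.e (nat_lit 500077) (nat_lit 20) (.e (nat_lit 81956) (nat_lit 23) (.e (nat_lit 98350) (nat_lit 24) (.e (nat_lit 409649) (nat_lit 18) .nil))))) .nil)))) (.nd (nat_lit 5) (.nd (nat_lit 6) 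
(.lf (nat_lit 98971) (.g (nat_lit 1629) (.e (nat_lit 3105) (nat_lit 192) (.e (nat_lit 491559) (nat_lit 10) (.e (nat_lit 344126) (nat_lit 25) (.e (nat_lit 548873) (nat_lit 5) (.e (nat_lit 1595) (nat_lit 111) .nil))))) .nil)) 
(.lf (nat_lit 99035) (.g (nat_lit 3111) (.e (nat_lit 3144) (nat_lit 193) (.e (nat_lit 500076) (nat_lit 20) (.e (nat_lit 81956) (nat_lit 23) (.e (nat_lit 98350) (nat_lit 24) (.e (nat_lit 409648) (nat_lit 18) .nil))))) .nil))) (.nd (nat_lit 6) 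
(.lf (nat_lit 99003) (.g (nat_lit 3480) (.e (nat_lit 3107) (nat_lit 193) (.e (nat_lit 500078) (nat_lit 20) (.e (nat_lit 81956) (nat_lit 23) (.e (nat_lit 98350) (nat_lit 24) (.e (nat_lit 409649) (nat_lit 18) .nil))))) .nil)) 
(.lf (nat_lit 99067) (.g (nat_lit 2496) (.e (nat_lit 3207) (nat_lit 195) (.e (nat_lit 516145) (nat_lit 9) (.e (nat_lit 426428) (nat_lit 17) (.e (nat_lit 90174) (nat_lit 14) (.e (nat_lit 180251) (nat_lit 10) .nil))))) .nil)))))) (.nd (nat_lit 3) (.nd (nat_lit 4) (.nd (nat_lit 5) (.nd (nat_lit 6) 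
(.lf (nat_lit 98951) (.g (nat_lit 2399) (.e (nat_lit 3104) (nat_lit 192) (.e (nat_lit 491568) (nat_lit 13) (.e (nat_lit 393253) (nat_lit 18) (.e (nat_lit 164163) (nat_lit 152) (.e (nat_lit 1211) (nat_lit 89) .nil))))) .nil)) 
(.lf (nat_lit 99015) (.g (nat_lit 3504) (.e (nat_lit 3134) (nat_lit 193) (.e (nat_lit 500077) (nat_lit 20) (.e (nat_lit 81956) (nat_lit 23) (.e (nat_lit 98350) (nat_lit 24) (.e (nat_lit 409649) (nat_lit 18) .nil))))) .nil))) (.nd (nat_lit 6) 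
(.lf (nat_lit 98983) (.g (nat_lit 1670) (.e (nat_lit 3105) (nat_lit 192) (.e (nat_lit 491566) (nat_lit 12) (.e (nat_lit 385104) (nat_lit 50) (.e (nat_lit 786483) (nat_lit 30) .nil)))) .nil)) 
(.lf (nat_lit 99047) (.g (nat_lit 3563) (.e (nat_lit 3146) (nat_lit 193) (.e (nat_lit 500078) (nat_lit 20) (.e (nat_lit 81956) (nat_lit 23) (.e (nat_lit 98350) (nat_lit 24) (.e (nat_lit 409648) (nat_lit 18) .nil))))) .nil)))) (.nd (nat_lit 5) (.nd (nat_lit 6) 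
(.lf (nat_lit 98967) (.g (nat_lit 1542) (.e (nat_lit 3105) (nat_lit 192) (.e (nat_lit 491544) (nat_lit 7) (.e (nat_lit 319505) (nat_lit 10) (.e (nat_lit 618) (nat_lit 48) .nil)))) .nil)) 
(.lf (nat_lit 99031) (.g (nat_lit 3671) (.e (nat_lit 3143) (nat_lit 193) (.e (nat_lit 500079) (nat_lit 20) (.e (nat_lit 81956) (nat_lit 23) (.e (nat_lit 98350) (nat_lit 24) (.e (nat_lit 409649) (nat_lit 18) .nil))))) .nil))) (.nd (nat_lit 6) 
(.lf (nat_lit 98999) (.g (nat_lit 3006) (.e (nat_lit 3107) (nat_lit 193) (.e (nat_lit 500076) (nat_lit 20) (.e (nat_lit 81956) (nat_lit 23) (.e (nat_lit 98350) (nat_lit 24) (.e (nat_lit 409649) (nat_lit 18) .nil))))) .nil)) 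
(.lf (nat_lit 99063) (.g (nat_lit 2905) (.e (nat_lit 3205) (nat_lit 194) (.e (nat_lit 507946) (nat_lit 18) (.e (nat_lit 303146) (nat_lit 14) (.e (nat_lit 491540) (nat_lit 3) (.e (nat_lit 98370) (nat_lit 28) (.e (nat_lit 442411) (nat_lit 20) .nil)))))) (.g (nat_lit 0) .nil .nil)))))) (.nd (nat_lit 4) (.nd (nat_lit 5) (.nd (nat_lit 6) 
(.lf (nat_lit 98959) (.g (nat_lit 3430) (.e (nat_lit 3105) (nat_lit 192) (.e (nat_lit 491540) (nat_lit 3) (.e (nat_lit 98373) (nat_lit 29) (.e (nat_lit 450587) (nat_lit 10) (.e (nat_lit 573473) (nat_lit 12) (.e (nat_lit 57567) (nat_lit 52) (.e (nat_lit 753670) (nat_lit 5) .nil))))))) (.g (nat_lit 5) .nil .nil))) 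
(.lf (nat_lit 99023) (.g (nat_lit 507) (.e (nat_lit 3141) (nat_lit 193) (.e (nat_lit 500065) (nat_lit 18) (.e (nat_lit 65553) (nat_lit 0) .nil))) .nil))) (.nd (nat_lit 6) 
(.lf (nat_lit 98991) (.g (nat_lit 1203) (.e (nat_lit 3106) (nat_lit 192) (.e (nat_lit 491566) (nat_lit 12) (.e (nat_lit 385073) (nat_lit 31) .nil))) .nil)) 
(.lf (nat_lit 99055) (.g (nat_lit 2364) (.e (nat_lit 7936) (nat_lit 193) (.e (nat_lit 500077) (nat_lit 20) (.e (nat_lit 81953) (nat_lit 22) (.e (nat_lit 90130) (nat_lit 9) (.e (nat_lit 2830) (nat_lit 182) .nil))))) .nil)))) (.nd (nat_lit 5) (.nd (nat_lit 6) 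
(.lf (nat_lit 98975) (.g (nat_lit 2634) (.e (nat_lit 3105) (nat_lit 192) (.e (nat_lit 491560) (nat_lit 10) (.e (nat_lit 344126) (nat_lit 25) (.e (nat_lit 548874) (nat_lit 5) .nil)))) .nil)) 
(.lf (nat_lit 99039) (.g (nat_lit 2798) (.e (nat_lit 3144) (nat_lit 193) (.e (nat_lit 500078) (nat_lit 20) (.e (nat_lit 81956) (nat_lit 23) (.e (nat_lit 98350) (nat_lit 24) (.e (nat_lit 409646) (nat_lit 18) .nil))))) .nil))) (.nd (nat_lit 6) 
(.lf (nat_lit 99007) (.g (nat_lit 1550) (.e (nat_lit 3114) (nat_lit 193) (.e (nat_lit 500069) (nat_lit 19) (.e (nat_lit 73746) (nat_lit 3) (.e (nat_lit 516129) (nat_lit 3) (.e (nat_lit 221215) (nat_lit 23) .nil))))) .nil)) 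
(.lf (nat_lit 99071) (.g (nat_lit 3538) (.e (nat_lit 3207) (nat_lit 195) (.e (nat_lit 516166) (nat_lit 12) (.e (nat_lit 450563) (nat_lit 0) (.e (nat_lit 6828) (nat_lit 367) .nil)))) .nil)))))))))

noncomputable def tv1358 : DT := (.nd (nat_lit 0) (.nd (nat_lit 1) (.nd (nat_lit 2) (.nd (nat_lit 3) (.nd (nat_lit 4) (.nd (nat_lit 5) (.nd (nat_lit 6) 
(.lf (nat_lit 99072) (.g (nat_lit 4426) (.e (nat_lit 3207) (nat_lit 195) (.e (nat_lit 516166) (nat_lit 12) (.e (nat_lit 450563) (nat_lit 0) (.e (nat_lit 6830) (nat_lit 367) (.e (nat_lit 57424) (nat_lit 14) (.e (nat_lit 352256) (nat_lit 0) .nil)))))) (.g (nat_lit 4) .nil .nil))) 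
(.lf (nat_lit 99136) (.g (nat_lit 3656) (.e (nat_lit 3210) (nat_lit 195) (.e (nat_lit 516151) (nat_lit 9) (.e (nat_lit 426211) (nat_lit 9) (.e (nat_lit 426140) (nat_lit 3) (.e (nat_lit 204862) (nat_lit 27) .nil))))) .nil))) (.nd (nat_lit 6) 
(.lf (nat_lit 99104) (.g (nat_lit 3018) (.e (nat_lit 3209) (nat_lit 195) (.e (nat_lit 516166) (nat_lit 12) (.e (nat_lit 450563) (nat_lit 0) (.e (nat_lit 6808) (nat_lit 365) (.e (nat_lit 7936) (nat_lit 90) (.e (nat_lit 89856) (nat_lit 0) .nil)))))) (.g (nat_lit 4) .nil .nil))) 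
(.lf (nat_lit 99168) (.g (nat_lit 981) (.e (nat_lit 3211) (nat_lit 195) (.e (nat_lit 516151) (nat_lit 9) (.e (nat_lit 426022) (nat_lit 0) .nil))) .nil)))) (.nd (nat_lit 5) (.nd (nat_lit 6) 
(.lf (nat_lit 99088) (.g (nat_lit 2728) (.e (nat_lit 3209) (nat_lit 195) (.e (nat_lit 516151) (nat_lit 9) (.e (nat_lit 426285) (nat_lit 10) (.e (nat_lit 434295) (nat_lit 49) .nil)))) .nil)) 
(.lf (nat_lit 99152) (.g (nat_lit 925) (.e (nat_lit 3210) (nat_lit 195) (.e (nat_lit 516151) (nat_lit 9) (.e (nat_lit 426338) (nat_lit 14) .nil))) .nil))) (.nd (nat_lit 6) 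
(.lf (nat_lit 99120) (.g (nat_lit 1852) (.e (nat_lit 3210) (nat_lit 195) (.e (nat_lit 516151) (nat_lit 9) (.e (nat_lit 426132) (nat_lit 3) (.e (nat_lit 204838) (nat_lit 20) .nil)))) .nil)) 
(.lf (nat_lit 99184) (.g (nat_lit 2844) (.e (nat_lit 3211) (nat_lit 195) (.e (nat_lit 516151) (nat_lit 9) (.e (nat_lit 426285) (nat_lit 10) (.e (nat_lit 434295) (nat_lit 49) (.e (nat_lit 745493) (nat_lit 6) .nil))))) .nil))))) (.nd (nat_lit 4) (.nd (nat_lit 5) (.nd (nat_lit 6) 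
(.lf (nat_lit 99080) (.g (nat_lit 1189) (.e (nat_lit 3208) (nat_lit 195) (.e (nat_lit 516166) (nat_lit 12) (.e (nat_lit 450563) (nat_lit 0) .nil))) .nil)) 
(.lf (nat_lit 99144) (.g (nat_lit 3788) (.e (nat_lit 3210) (nat_lit 195) (.e (nat_lit 516151) (nat_lit 9) (.e (nat_lit 426211) (nat_lit 9) (.e (nat_lit 426140) (nat_lit 3) (.e (nat_lit 204864) (nat_lit 27) .nil))))) .nil))) (.nd (nat_lit 6) 
(.lf (nat_lit 99112) (.g (nat_lit 821) (.e (nat_lit 3209) (nat_lit 195) (.e (nat_lit 516166) (nat_lit 12) (.e (nat_lit 450605) (nat_lit 27) .nil))) .nil)) 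
(.lf (nat_lit 99176) (.g (nat_lit 5097) (.e (nat_lit 3211) (nat_lit 195) (.e (nat_lit 516151) (nat_lit 9) (.e (nat_lit 426211) (nat_lit 9) (.e (nat_lit 426125) (nat_lit 2) (.e (nat_lit 196670) (nat_lit 14) .nil))))) .nil)))) (.nd (nat_lit 5) (.nd (nat_lit 6) 
(.lf (nat_lit 99096) (.g (nat_lit 3090) (.e (nat_lit 3209) (nat_lit 195) (.e (nat_lit 516166) (nat_lit 12) (.e (nat_lit 450562) (nat_lit 0) (.e (nat_lit 6815) (nat_lit 365) .nil)))) .nil)) 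
(.lf (nat_lit 99160) (.g (nat_lit 2913) (.e (nat_lit 3210) (nat_lit 195) (.e (nat_lit 516166) (nat_lit 12) (.e (nat_lit 450563) (nat_lit 0) (.e (nat_lit 6828) (nat_lit 367) .nil)))) .nil))) (.nd (nat_lit 6) 
(.lf (nat_lit 99128) (.g (nat_lit 4826) (.e (nat_lit 3210) (nat_lit 195) (.e (nat_lit 516151) (nat_lit 9) (.e (nat_lit 426211) (nat_lit 9) (.e (nat_lit 426125) (nat_lit 2) (.e (nat_lit 196617) (nat_lit 9) .nil))))) .nil)) 
(.lf (nat_lit 99192) (.g (nat_lit 3805) (.e (nat_lit 3211) (nat_lit 195) (.e (nat_lit 516166) (nat_lit 12) (.e (nat_lit 450563) (nat_lit 0) (.e (nat_lit 6830) (nat_lit 367) .nil)))) .nil)))))) (.nd (nat_lit 3) (.nd (nat_lit 4) (.nd (nat_lit 5) (.nd (nat_lit 6) 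
(.lf (nat_lit 99076) (.g (nat_lit 2226) (.e (nat_lit 3208) (nat_lit 195) (.e (nat_lit 516145) (nat_lit 9) (.e (nat_lit 426428) (nat_lit 17) (.e (nat_lit 90174) (nat_lit 14) (.e (nat_lit 180251) (nat_lit 10) (.e (nat_lit 573485) (nat_lit 13) (.e (nat_lit 73472) (nat_lit 15) .nil))))))) (.g (nat_lit 4) .nil .nil))) 
(.lf (nat_lit 99140) (.g (nat_lit 3728) (.e (nat_lit 3210) (nat_lit 195) (.e (nat_lit 516151) (nat_lit 9) (.e (nat_lit 426211) (nat_lit 9) (.e (nat_lit 426140) (nat_lit 3) (.e (nat_lit 204863) (nat_lit 27) .nil))))) .nil))) (.nd (nat_lit 6) 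
(.lf (nat_lit 99108) (.g (nat_lit 2757) (.e (nat_lit 3209) (nat_lit 195) (.e (nat_lit 516166) (nat_lit 12) (.e (nat_lit 450563) (nat_lit 0) (.e (nat_lit 6830) (nat_lit 367) (.e (nat_lit 57423) (nat_lit 14) (.e (nat_lit 360192) (nat_lit 0) .nil)))))) (.g (nat_lit 4) .nil .nil))) 
(.lf (nat_lit 99172) (.g (nat_lit 2477) (.e (nat_lit 3211) (nat_lit 195) (.e (nat_lit 516151) (nat_lit 9) (.e (nat_lit 426211) (nat_lit 9) (.e (nat_lit 426125) (nat_lit 2) .nil)))) .nil)))) (.nd (nat_lit 5) (.nd (nat_lit 6) 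
(.lf (nat_lit 99092) (.g (nat_lit 3090) (.e (nat_lit 3209) (nat_lit 195) (.e (nat_lit 516166) (nat_lit 12) (.e (nat_lit 450562) (nat_lit 0) (.e (nat_lit 6738) (nat_lit 365) .nil)))) .nil)) 
(.lf (nat_lit 99156) (.g (nat_lit 778) (.e (nat_lit 3210) (nat_lit 195) (.e (nat_lit 516166) (nat_lit 12) (.e (nat_lit 450562) (nat_lit 0) .nil))) .nil))) (.nd (nat_lit 6) 
(.lf (nat_lit 99124) (.g (nat_lit 2721) (.e (nat_lit 3210) (nat_lit 195) (.e (nat_lit 516151) (nat_lit 9) (.e (nat_lit 426171) (nat_lit 7) (.e (nat_lit 409634) (nat_lit 13) (.e (nat_lit 48896) (nat_lit 6) .nil))))) .nil)) 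
(.lf (nat_lit 99188) (.g (nat_lit 1030) (.e (nat_lit 3211) (nat_lit 195) (.e (nat_lit 516166) (nat_lit 12) (.e (nat_lit 450562) (nat_lit 0) .nil))) .nil))))) (.nd (nat_lit 4) (.nd (nat_lit 5) (.nd (nat_lit 6) 
(.lf (nat_lit 99084) (.g (nat_lit 4613) (.e (nat_lit 3208) (nat_lit 195) (.e (nat_lit 516166) (nat_lit 12) (.e (nat_lit 450563) (nat_lit 0) (.e (nat_lit 6830) (nat_lit 367) (.e (nat_lit 57424) (nat_lit 14) .nil))))) .nil)) 
(.lf (nat_lit 99148) (.g (nat_lit 2920) (.e (nat_lit 3210) (nat_lit 195) (.e (nat_lit 516151) (nat_lit 9) (.e (nat_lit 426285) (nat_lit 10) (.e (nat_lit 434295) (nat_lit 49) (.e (nat_lit 745493) (nat_lit 6) (.e (nat_lit 89856) (nat_lit 0) .nil)))))) (.g (nat_lit 4) .nil .nil)))) (.nd (nat_lit 6) 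
(.lf (nat_lit 99116) (.g (nat_lit 3276) (.e (nat_lit 3210) (nat_lit 195) (.e (nat_lit 516145) (nat_lit 9) (.e (nat_lit 426428) (nat_lit 17) (.e (nat_lit 90174) (nat_lit 14) (.e (nat_lit 180250) (nat_lit 10) (.e (nat_lit 573482) (nat_lit 13) (.e (nat_lit 65632) (nat_lit 15) .nil))))))) (.g (nat_lit 5) .nil .nil))) 
(.lf (nat_lit 99180) (.g (nat_lit 3808) (.e (nat_lit 3211) (nat_lit 195) (.e (nat_lit 516151) (nat_lit 9) (.e (nat_lit 426211) (nat_lit 9) (.e (nat_lit 426140) (nat_lit 3) (.e (nat_lit 204863) (nat_lit 27) (.e (nat_lit 344161) (nat_lit 37) (.e (nat_lit 647190) (nat_lit 9) (.e (nat_lit 11) (nat_lit 0) .nil)))))))) (.g (nat_lit 4) .nil .nil))))) (.nd (nat_lit 5) (.nd (nat_lit 6) 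
(.lf (nat_lit 99100) (.g (nat_lit 2289) (.e (nat_lit 3209) (nat_lit 195) (.e (nat_lit 516166) (nat_lit 12) (.e (nat_lit 450563) (nat_lit 0) (.e (nat_lit 6740) (nat_lit 365) .nil)))) .nil)) 
(.lf (nat_lit 99164) (.g (nat_lit 525) (.e (nat_lit 3211) (nat_lit 195) (.e (nat_lit 516106) (nat_lit 0) (.e (nat_lit 7936) (nat_lit 221) .nil))) .nil))) (.nd (nat_lit 6) 
(.lf (nat_lit 99132) (.g (nat_lit 5186) (.e (nat_lit 3210) (nat_lit 195) (.e (nat_lit 516151) (nat_lit 9) (.e (nat_lit 426211) (nat_lit 9) (.e (nat_lit 426125) (nat_lit 2) (.e (nat_lit 196668) (nat_lit 14) .nil))))) .nil)) 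
(.lf (nat_lit 99196) (.g (nat_lit 516) (.e (nat_lit 3212) (nat_lit 195) (.e (nat_lit 516131) (nat_lit 3) (.e (nat_lit 221212) (nat_lit 22) .nil))) .nil))))))) (.nd (nat_lit 2) (.nd (nat_lit 3) (.nd (nat_lit 4) (.nd (nat_lit 5) (.nd (nat_lit 6) 
(.lf (nat_lit 99074) (.g (nat_lit 1566) (.e (nat_lit 3208) (nat_lit 195) (.e (nat_lit 516145) (nat_lit 9) (.e (nat_lit 426428) (nat_lit 17) (.e (nat_lit 90174) (nat_lit 14) .nil)))) .nil)) 
(.lf (nat_lit 99138) (.g (nat_lit 6582) (.e (nat_lit 3210) (nat_lit 195) (.e (nat_lit 516151) (nat_lit 9) (.e (nat_lit 426211) (nat_lit 9) (.e (nat_lit 426140) (nat_lit 3) (.e (nat_lit 204862) (nat_lit 27) (.e (nat_lit 344160) (nat_lit 37) (.e (nat_lit 647190) (nat_lit 9) (.e (nat_lit 13) (nat_lit 0) .nil)))))))) (.g (nat_lit 8) .nil .nil)))) (.nd (nat_lit 6) 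
(.lf (nat_lit 99106) (.g (nat_lit 2319) (.e (nat_lit 3209) (nat_lit 195) (.e (nat_lit 516166) (nat_lit 12) (.e (nat_lit 450563) (nat_lit 0) (.e (nat_lit 6828) (nat_lit 367) .nil)))) .nil)) 
(.lf (nat_lit 99170) (.g (nat_lit 2195) (.e (nat_lit 3211) (nat_lit 195) (.e (nat_lit 516151) (nat_lit 9) (.e (nat_lit 426171) (nat_lit 7) (.e (nat_lit 409634) (nat_lit 13) .nil)))) .nil)))) (.nd (nat_lit 5) (.nd (nat_lit 6) 
(.lf (nat_lit 99090) (.g (nat_lit 1748) (.e (nat_lit 3209) (nat_lit 195) (.e (nat_lit 516163) (nat_lit 11) (.e (nat_lit 442427) (nat_lit 23) (.e (nat_lit 204862) (nat_lit 27) .nil)))) .nil)) 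
(.lf (nat_lit 99154) (.g (nat_lit 2429) (.e (nat_lit 3210) (nat_lit 195) (.e (nat_lit 516163) (nat_lit 11) (.e (nat_lit 442427) (nat_lit 23) (.e (nat_lit 204863) (nat_lit 27) (.e (nat_lit 344160) (nat_lit 37) .nil))))) .nil))) (.nd (nat_lit 6) 
(.lf (nat_lit 99122) (.g (nat_lit 2092) (.e (nat_lit 3210) (nat_lit 195) (.e (nat_lit 516151) (nat_lit 9) (.e (nat_lit 426170) (nat_lit 7) (.e (nat_lit 409634) (nat_lit 13) (.e (nat_lit 48896) (nat_lit 6) .nil))))) .nil)) 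
(.lf (nat_lit 99186) (.g (nat_lit 773) (.e (nat_lit 3211) (nat_lit 195) (.e (nat_lit 516163) (nat_lit 11) (.e (nat_lit 450304) (nat_lit 18) .nil))) .nil))))) (.nd (nat_lit 4) (.nd (nat_lit 5) (.nd (nat_lit 6) 
(.lf (nat_lit 99082) (.g (nat_lit 3986) (.e (nat_lit 3208) (nat_lit 195) (.e (nat_lit 516166) (nat_lit 12) (.e (nat_lit 450563) (nat_lit 0) (.e (nat_lit 6808) (nat_lit 365) .nil)))) .nil)) 
(.lf (nat_lit 99146) (.g (nat_lit 2336) (.e (nat_lit 3210) (nat_lit 195) (.e (nat_lit 516151) (nat_lit 9) (.e (nat_lit 426285) (nat_lit 10) (.e (nat_lit 434231) (nat_lit 23) .nil)))) .nil))) (.nd (nat_lit 6) 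
(.lf (nat_lit 99114) (.g (nat_lit 876) (.e (nat_lit 3210) (nat_lit 195) (.e (nat_lit 516106) (nat_lit 0) (.e (nat_lit 3459) (nat_lit 216) .nil))) .nil)) 
(.lf (nat_lit 99178) (.g (nat_lit 3592) (.e (nat_lit 3211) (nat_lit 195) (.e (nat_lit 516151) (nat_lit 9) (.e (nat_lit 426211) (nat_lit 9) (.e (nat_lit 426140) (nat_lit 3) (.e (nat_lit 204862) (nat_lit 27) .nil))))) .nil)))) (.nd (nat_lit 5) (.nd (nat_lit 6) 
(.lf (nat_lit 99098) (.g (nat_lit 823) (.e (nat_lit 3209) (nat_lit 195) (.e (nat_lit 516166) (nat_lit 12) (.e (nat_lit 450563) (nat_lit 0) .nil))) .nil)) 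
(.lf (nat_lit 99162) (.g (nat_lit 3890) (.e (nat_lit 3210) (nat_lit 195) (.e (nat_lit 516166) (nat_lit 12) (.e (nat_lit 450563) (nat_lit 0) (.e (nat_lit 6830) (nat_lit 367) (.e (nat_lit 57424) (nat_lit 14) .nil))))) .nil))) (.nd (nat_lit 6) 
(.lf (nat_lit 99130) (.g (nat_lit 6493) (.e (nat_lit 3210) (nat_lit 195) (.e (nat_lit 516151) (nat_lit 9) (.e (nat_lit 426211) (nat_lit 9) (.e (nat_lit 426125) (nat_lit 2) (.e (nat_lit 196630) (nat_lit 9) (.e (nat_lit 1549) (nat_lit 109) (.e (nat_lit 344160) (nat_lit 37) (.e (nat_lit 647190) (nat_lit 9) (.e (nat_lit 13) (nat_lit 0) .nil))))))))) (.g (nat_lit 5) .nil .nil))) 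
(.lf (nat_lit 99194) (.g (nat_lit 1152) (.e (nat_lit 3211) (nat_lit 195) (.e (nat_lit 516166) (nat_lit 12) (.e (nat_lit 450605) (nat_lit 27) .nil))) .nil)))))) (.nd (nat_lit 3) (.nd (nat_lit 4) (.nd (nat_lit 5) (.nd (nat_lit 6) 
(.lf (nat_lit 99078) (.g (nat_lit 4001) (.e (nat_lit 3208) (nat_lit 195) (.e (nat_lit 516166) (nat_lit 12) (.e (nat_lit 450562) (nat_lit 0) (.e (nat_lit 6808) (nat_lit 365) .nil)))) .nil)) 
(.lf (nat_lit 99142) (.g (nat_lit 3821) (.e (nat_lit 3210) (nat_lit 195) (.e (nat_lit 516151) (nat_lit 9) (.e (nat_lit 426211) (nat_lit 9) (.e (nat_lit 426140) (nat_lit 3) (.e (nat_lit 204863) (nat_lit 27) (.e (nat_lit 344163) (nat_lit 37) (.e (nat_lit 647190) (nat_lit 9) (.e (nat_lit 11) (nat_lit 0) .nil)))))))) (.g (nat_lit 4) .nil .nil)))) (.nd (nat_lit 6) 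
(.lf (nat_lit 99110) (.g (nat_lit 2169) (.e (nat_lit 3209) (nat_lit 195) (.e (nat_lit 516166) (nat_lit 12) (.e (nat_lit 450566) (nat_lit 0) (.e (nat_lit 6792) (nat_lit 365) .nil)))) .nil)) 
(.lf (nat_lit 99174) (.g (nat_lit 5097) (.e (nat_lit 3211) (nat_lit 195) (.e (nat_lit 516151) (nat_lit 9) (.e (nat_lit 426211) (nat_lit 9) (.e (nat_lit 426125) (nat_lit 2) (.e (nat_lit 196668) (nat_lit 14) .nil))))) .nil)))) (.nd (nat_lit 5) (.nd (nat_lit 6) 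
(.lf (nat_lit 99094) (.g (nat_lit 3090) (.e (nat_lit 3209) (nat_lit 195) (.e (nat_lit 516166) (nat_lit 12) (.e (nat_lit 450562) (nat_lit 0) (.e (nat_lit 6745) (nat_lit 365) .nil)))) .nil)) 
(.lf (nat_lit 99158) (.g (nat_lit 2882) (.e (nat_lit 3210) (nat_lit 195) (.e (nat_lit 516166) (nat_lit 12) (.e (nat_lit 450563) (nat_lit 0) (.e (nat_lit 6740) (nat_lit 365) .nil)))) .nil))) (.nd (nat_lit 6) 
(.lf (nat_lit 99126) (.g (nat_lit 2621) (.e (nat_lit 3210) (nat_lit 195) (.e (nat_lit 516151) (nat_lit 9) (.e (nat_lit 426211) (nat_lit 9) (.e (nat_lit 426025) (nat_lit 0) .nil)))) .nil)) 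
(.lf (nat_lit 99190) (.g (nat_lit 975) (.e (nat_lit 3211) (nat_lit 195) (.e (nat_lit 516166) (nat_lit 12) (.e (nat_lit 450563) (nat_lit 0) .nil))) .nil))))) (.nd (nat_lit 4) (.nd (nat_lit 5) (.nd (nat_lit 6) 
(.lf (nat_lit 99086) (.g (nat_lit 3901) (.e (nat_lit 3209) (nat_lit 195) (.e (nat_lit 516151) (nat_lit 9) (.e (nat_lit 426211) (nat_lit 9) (.e (nat_lit 426140) (nat_lit 3) (.e (nat_lit 204862) (nat_lit 27) .nil))))) .nil)) 
(.lf (nat_lit 99150) (.g (nat_lit 3959) (.e (nat_lit 3210) (nat_lit 195) (.e (nat_lit 516151) (nat_lit 9) (.e (nat_lit 426286) (nat_lit 10) (.e (nat_lit 434203) (nat_lit 18) .nil)))) .nil))) (.nd (nat_lit 6) 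
(.lf (nat_lit 99118) (.g (nat_lit 1118) (.e (nat_lit 3210) (nat_lit 195) (.e (nat_lit 516151) (nat_lit 9) (.e (nat_lit 426042) (nat_lit 0) .nil))) .nil)) 
(.lf (nat_lit 99182) (.g (nat_lit 806) (.e (nat_lit 3211) (nat_lit 195) (.e (nat_lit 516151) (nat_lit 9) (.e (nat_lit 426285) (nat_lit 10) .nil))) .nil)))) (.nd (nat_lit 5) (.nd (nat_lit 6) 
(.lf (nat_lit 99102) (.g (nat_lit 2795) (.e (nat_lit 3209) (nat_lit 195) (.e (nat_lit 516166) (nat_lit 12) (.e (nat_lit 450563) (nat_lit 0) (.e (nat_lit 6740) (nat_lit 365) (.e (nat_lit 7936) (nat_lit 90) .nil))))) .nil)) 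
(.lf (nat_lit 99166) (.g (nat_lit 2272) (.e (nat_lit 3211) (nat_lit 195) (.e (nat_lit 516145) (nat_lit 9) (.e (nat_lit 426428) (nat_lit 17) (.e (nat_lit 90174) (nat_lit 14) (.e (nat_lit 180251) (nat_lit 10) (.e (nat_lit 573479) (nat_lit 13) (.e (nat_lit 65631) (nat_lit 15) .nil))))))) (.g (nat_lit 4) .nil .nil)))) (.nd (nat_lit 6) 
(.lf (nat_lit 99134) (.g (nat_lit 5186) (.e (nat_lit 3210) (nat_lit 195) (.e (nat_lit 516151) (nat_lit 9) (.e (nat_lit 426211) (nat_lit 9) (.e (nat_lit 426125) (nat_lit 2) (.e (nat_lit 196669) (nat_lit 14) .nil))))) .nil)) 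
(.lf (nat_lit 99198) (.g (nat_lit 2324) (.e (nat_lit 3212) (nat_lit 195) (.e (nat_lit 516131) (nat_lit 3) (.e (nat_lit 221212) (nat_lit 22) (.e (nat_lit 196681) (nat_lit 17) (.e (nat_lit 131093) (nat_lit 2) .nil))))) .nil)))))))) (.nd (nat_lit 1) (.nd (nat_lit 2) (.nd (nat_lit 3) (.nd (nat_lit 4) (.nd (nat_lit 5) (.nd (nat_lit 6) 
(.lf (nat_lit 99073) (.g (nat_lit 1324) (.e (nat_lit 3207) (nat_lit 195) (.e (nat_lit 516166) (nat_lit 12) (.e (nat_lit 450605) (nat_lit 27) .nil))) .nil)) 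
(.lf (nat_lit 99137) (.g (nat_lit 3865) (.e (nat_lit 3210) (nat_lit 195) (.e (nat_lit 516151) (nat_lit 9) (.e (nat_lit 426211) (nat_lit 9) (.e (nat_lit 426140) (nat_lit 3) (.e (nat_lit 204862) (nat_lit 27) (.e (nat_lit 344160) (nat_lit 37) (.e (nat_lit 647188) (nat_lit 9) (.e (nat_lit 4) (nat_lit 0) .nil)))))))) (.g (nat_lit 4) .nil .nil)))) (.nd (nat_lit 6) 
(.lf (nat_lit 99105) (.g (nat_lit 2586) (.e (nat_lit 3209) (nat_lit 195) (.e (nat_lit 516166) (nat_lit 12) (.e (nat_lit 450563) (nat_lit 0) (.e (nat_lit 6815) (nat_lit 365) .nil)))) .nil)) 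
(.lf (nat_lit 99169) (.g (nat_lit 754) (.e (nat_lit 3211) (nat_lit 195) (.e (nat_lit 516151) (nat_lit 9) (.e (nat_lit 426170) (nat_lit 7) .nil))) .nil)))) (.nd (nat_lit 5) (.nd (nat_lit 6) 
(.lf (nat_lit 99089) (.g (nat_lit 2145) (.e (nat_lit 3209) (nat_lit 195) (.e (nat_lit 516151) (nat_lit 9) (.e (nat_lit 426286) (nat_lit 10) .nil))) .nil)) 
(.lf (nat_lit 99153) (.g (nat_lit 2536) (.e (nat_lit 3210) (nat_lit 195) (.e (nat_lit 516163) (nat_lit 11) (.e (nat_lit 442427) (nat_lit 23) (.e (nat_lit 204862) (nat_lit 27) (.e (nat_lit 344160) (nat_lit 37) .nil))))) .nil))) (.nd (nat_lit 6) 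
(.lf (nat_lit 99121) (.g (nat_lit 794) (.e (nat_lit 3210) (nat_lit 195) (.e (nat_lit 516151) (nat_lit 9) (.e (nat_lit 426170) (nat_lit 7) .nil))) .nil)) 
(.lf (nat_lit 99185) (.g (nat_lit 2105) (.e (nat_lit 3211) (nat_lit 195) (.e (nat_lit 516151) (nat_lit 9) (.e (nat_lit 426286) (nat_lit 10) .nil))) .nil))))) (.nd (nat_lit 4) (.nd (nat_lit 5) (.nd (nat_lit 6) 
(.lf (nat_lit 99081) (.g (nat_lit 3821) (.e (nat_lit 3208) (nat_lit 195) (.e (nat_lit 516166) (nat_lit 12) (.e (nat_lit 450563) (nat_lit 0) (.e (nat_lit 6740) (nat_lit 365) .nil)))) .nil)) 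
(.lf (nat_lit 99145) (.g (nat_lit 847) (.e (nat_lit 3210) (nat_lit 195) (.e (nat_lit 516151) (nat_lit 9) (.e (nat_lit 426285) (nat_lit 10) .nil))) .nil))) (.nd (nat_lit 6) 
(.lf (nat_lit 99113) (.g (nat_lit 1808) (.e (nat_lit 3209) (nat_lit 195) (.e (nat_lit 516166) (nat_lit 12) (.e (nat_lit 450605) (nat_lit 27) (.e (nat_lit 745493) (nat_lit 6) .nil)))) .nil)) 
(.lf (nat_lit 99177) (.g (nat_lit 2454) (.e (nat_lit 3211) (nat_lit 195) (.e (nat_lit 516151) (nat_lit 9) (.e (nat_lit 426211) (nat_lit 9) (.e (nat_lit 426140) (nat_lit 3) .nil)))) .nil)))) (.nd (nat_lit 5) (.nd (nat_lit 6) 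
(.lf (nat_lit 99097) (.g (nat_lit 2957) (.e (nat_lit 3209) (nat_lit 195) (.e (nat_lit 516166) (nat_lit 12) (.e (nat_lit 450562) (nat_lit 0) (.e (nat_lit 6830) (nat_lit 367) .nil)))) .nil)) 
(.lf (nat_lit 99161) (.g (nat_lit 3034) (.e (nat_lit 3210) (nat_lit 195) (.e (nat_lit 516166) (nat_lit 12) (.e (nat_lit 450563) (nat_lit 0) (.e (nat_lit 6830) (nat_lit 367) .nil)))) .nil))) (.nd (nat_lit 6) 
(.lf (nat_lit 99129) (.g (nat_lit 4152) (.e (nat_lit 3210) (nat_lit 195) (.e (nat_lit 516151) (nat_lit 9) (.e (nat_lit 426211) (nat_lit 9) (.e (nat_lit 426125) (nat_lit 2) (.e (nat_lit 196630) (nat_lit 9) .nil))))) .nil)) 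
(.lf (nat_lit 99193) (.g (nat_lit 4234) (.e (nat_lit 3211) (nat_lit 195) (.e (nat_lit 516166) (nat_lit 12) (.e (nat_lit 450563) (nat_lit 0) (.e (nat_lit 6830) (nat_lit 367) (.e (nat_lit 57423) (nat_lit 14) .nil))))) .nil)))))) (.nd (nat_lit 3) (.nd (nat_lit 4) (.nd (nat_lit 5) (.nd (nat_lit 6) 
(.lf (nat_lit 99077) (.g (nat_lit 3055) (.e (nat_lit 3208) (nat_lit 195) (.e (nat_lit 516145) (nat_lit 9) (.e (nat_lit 426438) (nat_lit 18) (.e (nat_lit 98367) (nat_lit 27) (.e (nat_lit 434248) (nat_lit 28) (.e (nat_lit 573482) (nat_lit 13) (.e (nat_lit 73472) (nat_lit 15) .nil))))))) (.g (nat_lit 5) .nil .nil))) 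
(.lf (nat_lit 99141) (.g (nat_lit 3850) (.e (nat_lit 3210) (nat_lit 195) (.e (nat_lit 516151) (nat_lit 9) (.e (nat_lit 426211) (nat_lit 9) (.e (nat_lit 426140) (nat_lit 3) (.e (nat_lit 204863) (nat_lit 27) (.e (nat_lit 344161) (nat_lit 37) (.e (nat_lit 647190) (nat_lit 9) (.e (nat_lit 11) (nat_lit 0) .nil)))))))) (.g (nat_lit 4) .nil .nil)))) (.nd (nat_lit 6) 
(.lf (nat_lit 99109) (.g (nat_lit 963) (.e (nat_lit 3209) (nat_lit 195) (.e (nat_lit 516166) (nat_lit 12) (.e (nat_lit 450566) (nat_lit 0) .nil))) .nil)) 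
(.lf (nat_lit 99173) (.g (nat_lit 4858) (.e (nat_lit 3211) (nat_lit 195) (.e (nat_lit 516151) (nat_lit 9) (.e (nat_lit 426211) (nat_lit 9) (.e (nat_lit 426125) (nat_lit 2) (.e (nat_lit 196667) (nat_lit 14) .nil))))) .nil)))) (.nd (nat_lit 5) (.nd (nat_lit 6) 
(.lf (nat_lit 99093) (.g (nat_lit 3010) (.e (nat_lit 3209) (nat_lit 195) (.e (nat_lit 516166) (nat_lit 12) (.e (nat_lit 450562) (nat_lit 0) (.e (nat_lit 6740) (nat_lit 365) .nil)))) .nil)) 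
(.lf (nat_lit 99157) (.g (nat_lit 3087) (.e (nat_lit 3210) (nat_lit 195) (.e (nat_lit 516166) (nat_lit 12) (.e (nat_lit 450562) (nat_lit 0) (.e (nat_lit 6830) (nat_lit 367) .nil)))) .nil))) (.nd (nat_lit 6) 
(.lf (nat_lit 99125) (.g (nat_lit 1092) (.e (nat_lit 3210) (nat_lit 195) (.e (nat_lit 516151) (nat_lit 9) (.e (nat_lit 426211) (nat_lit 9) .nil))) .nil)) 
(.lf (nat_lit 99189) (.g (nat_lit 3824) (.e (nat_lit 3211) (nat_lit 195) (.e (nat_lit 516166) (nat_lit 12) (.e (nat_lit 450562) (nat_lit 0) (.e (nat_lit 6830) (nat_lit 367) .nil)))) .nil))))) (.nd (nat_lit 4) (.nd (nat_lit 5) (.nd (nat_lit 6) 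
(.lf (nat_lit 99085) (.g (nat_lit 1324) (.e (nat_lit 3208) (nat_lit 195) (.e (nat_lit 516166) (nat_lit 12) (.e (nat_lit 450605) (nat_lit 27) .nil))) .nil)) 
(.lf (nat_lit 99149) (.g (nat_lit 2035) (.e (nat_lit 3210) (nat_lit 195) (.e (nat_lit 516151) (nat_lit 9) (.e (nat_lit 426286) (nat_lit 10) .nil))) .nil))) (.nd (nat_lit 6) 
(.lf (nat_lit 99117) (.g (nat_lit 1079) (.e (nat_lit 3210) (nat_lit 195) (.e (nat_lit 516151) (nat_lit 9) (.e (nat_lit 426022) (nat_lit 0) .nil))) .nil)) 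
(.lf (nat_lit 99181) (.g (nat_lit 3779) (.e (nat_lit 3211) (nat_lit 195) (.e (nat_lit 516151) (nat_lit 9) (.e (nat_lit 426211) (nat_lit 9) (.e (nat_lit 426140) (nat_lit 3) (.e (nat_lit 204863) (nat_lit 27) (.e (nat_lit 344163) (nat_lit 37) (.e (nat_lit 647190) (nat_lit 9) (.e (nat_lit 11) (nat_lit 0) .nil)))))))) (.g (nat_lit 4) .nil .nil))))) (.nd (nat_lit 5) (.nd (nat_lit 6) 
(.lf (nat_lit 99101) (.g (nat_lit 2676) (.e (nat_lit 3209) (nat_lit 195) (.e (nat_lit 516166) (nat_lit 12) (.e (nat_lit 450563) (nat_lit 0) (.e (nat_lit 6740) (nat_lit 365) (.e (nat_lit 1222) (nat_lit 90) (.e (nat_lit 89856) (nat_lit 0) .nil)))))) (.g (nat_lit 4) .nil .nil))) 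
(.lf (nat_lit 99165) (.g (nat_lit 4118) (.e (nat_lit 3211) (nat_lit 195) (.e (nat_lit 516145) (nat_lit 9) (.e (nat_lit 426428) (nat_lit 17) (.e (nat_lit 90174) (nat_lit 14) (.e (nat_lit 180250) (nat_lit 10) (.e (nat_lit 573482) (nat_lit 13) (.e (nat_lit 65631) (nat_lit 15) .nil))))))) (.g (nat_lit 6) .nil .nil)))) (.nd (nat_lit 6) 
(.lf (nat_lit 99133) (.g (nat_lit 5202) (.e (nat_lit 3210) (nat_lit 195) (.e (nat_lit 516151) (nat_lit 9) (.e (nat_lit 426211) (nat_lit 9) (.e (nat_lit 426125) (nat_lit 2) (.e (nat_lit 196668) (nat_lit 14) (.e (nat_lit 73766) (nat_lit 19) (.e (nat_lit 647190) (nat_lit 9) (.e (nat_lit 13) (nat_lit 0) .nil)))))))) (.g (nat_lit 4) .nil .nil))) 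
(.lf (nat_lit 99197) (.g (nat_lit 2134) (.e (nat_lit 3212) (nat_lit 195) (.e (nat_lit 516131) (nat_lit 3) (.e (nat_lit 221212) (nat_lit 22) (.e (nat_lit 196668) (nat_lit 14) (.e (nat_lit 81664) (nat_lit 5) .nil))))) .nil))))))) (.nd (nat_lit 2) (.nd (nat_lit 3) (.nd (nat_lit 4) (.nd (nat_lit 5) (.nd (nat_lit 6) 
(.lf (nat_lit 99075) (.g (nat_lit 4229) (.e (nat_lit 3208) (nat_lit 195) (.e (nat_lit 516145) (nat_lit 9) (.e (nat_lit 426428) (nat_lit 17) (.e (nat_lit 90174) (nat_lit 14) (.e (nat_lit 180250) (nat_lit 10) (.e (nat_lit 573482) (nat_lit 13) (.e (nat_lit 65631) (nat_lit 15) .nil))))))) (.g (nat_lit 7) .nil .nil))) 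
(.lf (nat_lit 99139) (.g (nat_lit 5230) (.e (nat_lit 3210) (nat_lit 195) (.e (nat_lit 516151) (nat_lit 9) (.e (nat_lit 426211) (nat_lit 9) (.e (nat_lit 426140) (nat_lit 3) (.e (nat_lit 204862) (nat_lit 27) (.e (nat_lit 344161) (nat_lit 37) (.e (nat_lit 647190) (nat_lit 9) (.e (nat_lit 13) (nat_lit 0) .nil)))))))) (.g (nat_lit 6) .nil .nil)))) (.nd (nat_lit 6) 
(.lf (nat_lit 99107) (.g (nat_lit 2220) (.e (nat_lit 3209) (nat_lit 195) (.e (nat_lit 516166) (nat_lit 12) (.e (nat_lit 450563) (nat_lit 0) (.e (nat_lit 6830) (nat_lit 367) .nil)))) .nil)) 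
(.lf (nat_lit 99171) (.g (nat_lit 1036) (.e (nat_lit 3211) (nat_lit 195) (.e (nat_lit 516151) (nat_lit 9) (.e (nat_lit 426211) (nat_lit 9) .nil))) .nil)))) (.nd (nat_lit 5) (.nd (nat_lit 6) 
(.lf (nat_lit 99091) (.g (nat_lit 986) (.e (nat_lit 3209) (nat_lit 195) (.e (nat_lit 516166) (nat_lit 12) (.e (nat_lit 450562) (nat_lit 0) .nil))) .nil)) 
(.lf (nat_lit 99155) (.g (nat_lit 2608) (.e (nat_lit 3210) (nat_lit 195) (.e (nat_lit 516163) (nat_lit 11) (.e (nat_lit 442427) (nat_lit 23) (.e (nat_lit 204863) (nat_lit 27) (.e (nat_lit 344163) (nat_lit 37) .nil))))) .nil))) (.nd (nat_lit 6) 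
(.lf (nat_lit 99123) (.g (nat_lit 1143) (.e (nat_lit 3210) (nat_lit 195) (.e (nat_lit 516151) (nat_lit 9) (.e (nat_lit 426171) (nat_lit 7) .nil))) .nil)) 
(.lf (nat_lit 99187) (.g (nat_lit 2526) (.e (nat_lit 3211) (nat_lit 195) (.e (nat_lit 516163) (nat_lit 11) (.e (nat_lit 442427) (nat_lit 23) (.e (nat_lit 204862) (nat_lit 27) (.e (nat_lit 344160) (nat_lit 37) .nil))))) .nil))))) (.nd (nat_lit 4) (.nd (nat_lit 5) (.nd (nat_lit 6) 
(.lf (nat_lit 99083) (.g (nat_lit 4416) (.e (nat_lit 3208) (nat_lit 195) (.e (nat_lit 516166) (nat_lit 12) (.e (nat_lit 450563) (nat_lit 0) (.e (nat_lit 6830) (nat_lit 367) (.e (nat_lit 57423) (nat_lit 14) (.e (nat_lit 352256) (nat_lit 0) .nil)))))) (.g (nat_lit 4) .nil .nil))) 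
(.lf (nat_lit 99147) (.g (nat_lit 2492) (.e (nat_lit 3210) (nat_lit 195) (.e (nat_lit 516151) (nat_lit 9) (.e (nat_lit 426285) (nat_lit 10) (.e (nat_lit 434295) (nat_lit 49) .nil)))) .nil))) (.nd (nat_lit 6) 
(.lf (nat_lit 99115) (.g (nat_lit 1603) (.e (nat_lit 3210) (nat_lit 195) (.e (nat_lit 516106) (nat_lit 0) (.e (nat_lit 7936) (nat_lit 220) (.e (nat_lit 720941) (nat_lit 22) (.e (nat_lit 90185) (nat_lit 17) (.e (nat_lit 237592) (nat_lit 3) (.e (nat_lit 204811) (nat_lit 9) (.e (nat_lit 425989) (nat_lit 0) .nil)))))))) (.g (nat_lit 5) .nil .nil))) 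
(.lf (nat_lit 99179) (.g (nat_lit 3664) (.e (nat_lit 3211) (nat_lit 195) (.e (nat_lit 516151) (nat_lit 9) (.e (nat_lit 426211) (nat_lit 9) (.e (nat_lit 426140) (nat_lit 3) (.e (nat_lit 204863) (nat_lit 27) .nil))))) .nil)))) (.nd (nat_lit 5) (.nd (nat_lit 6) 
(.lf (nat_lit 99099) (.g (nat_lit 2586) (.e (nat_lit 3209) (nat_lit 195) (.e (nat_lit 516166) (nat_lit 12) (.e (nat_lit 450563) (nat_lit 0) (.e (nat_lit 6738) (nat_lit 365) .nil)))) .nil)) 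
(.lf (nat_lit 99163) (.g (nat_lit 901) (.e (nat_lit 3210) (nat_lit 195) (.e (nat_lit 516166) (nat_lit 12) (.e (nat_lit 450605) (nat_lit 27) .nil))) .nil))) (.nd (nat_lit 6) 
(.lf (nat_lit 99131) (.g (nat_lit 4947) (.e (nat_lit 3210) (nat_lit 195) (.e (nat_lit 516151) (nat_lit 9) (.e (nat_lit 426211) (nat_lit 9) (.e (nat_lit 426125) (nat_lit 2) (.e (nat_lit 196667) (nat_lit 14) .nil))))) .nil)) 
(.lf (nat_lit 99195) (.g (nat_lit 1352) (.e (nat_lit 3212) (nat_lit 195) (.e (nat_lit 516129) (nat_lit 3) (.e (nat_lit 221210) (nat_lit 22) (.e (nat_lit 196668) (nat_lit 14) .nil)))) .nil)))))) (.nd (nat_lit 3) (.nd (nat_lit 4) (.nd (nat_lit 5) (.nd (nat_lit 6) 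
(.lf (nat_lit 99079) (.g (nat_lit 4344) (.e (nat_lit 3208) (nat_lit 195) (.e (nat_lit 516166) (nat_lit 12) (.e (nat_lit 450562) (nat_lit 0) (.e (nat_lit 6830) (nat_lit 367) .nil)))) .nil)) 
(.lf (nat_lit 99143) (.g (nat_lit 3909) (.e (nat_lit 3210) (nat_lit 195) (.e (nat_lit 516151) (nat_lit 9) (.e (nat_lit 426211) (nat_lit 9) (.e (nat_lit 426140) (nat_lit 3) (.e (nat_lit 204863) (nat_lit 27) (.e (nat_lit 344164) (nat_lit 37) (.e (nat_lit 647190) (nat_lit 9) (.e (nat_lit 13) (nat_lit 0) .nil)))))))) (.g (nat_lit 4) .nil .nil)))) (.nd (nat_lit 6) 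
(.lf (nat_lit 99111) (.g (nat_lit 847) (.e (nat_lit 3209) (nat_lit 195) (.e (nat_lit 516166) (nat_lit 12) (.e (nat_lit 458496) (nat_lit 26) .nil))) .nil)) 
(.lf (nat_lit 99175) (.g (nat_lit 5097) (.e (nat_lit 3211) (nat_lit 195) (.e (nat_lit 516151) (nat_lit 9) (.e (nat_lit 426211) (nat_lit 9) (.e (nat_lit 426125) (nat_lit 2) (.e (nat_lit 196669) (nat_lit 14) .nil))))) .nil)))) (.nd (nat_lit 5) (.nd (nat_lit 6) 
(.lf (nat_lit 99095) (.g (nat_lit 3272) (.e (nat_lit 3209) (nat_lit 195) (.e (nat_lit 516166) (nat_lit 12) (.e (nat_lit 450562) (nat_lit 0) (.e (nat_lit 6808) (nat_lit 365) (.e (nat_lit 7936) (nat_lit 90) (.e (nat_lit 89856) (nat_lit 0) .nil)))))) (.g (nat_lit 4) .nil .nil))) 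
(.lf (nat_lit 99159) (.g (nat_lit 2831) (.e (nat_lit 3210) (nat_lit 195) (.e (nat_lit 516166) (nat_lit 12) (.e (nat_lit 450563) (nat_lit 0) (.e (nat_lit 6808) (nat_lit 365) .nil)))) .nil))) (.nd (nat_lit 6) 
(.lf (nat_lit 99127) (.g (nat_lit 2562) (.e (nat_lit 3210) (nat_lit 195) (.e (nat_lit 516151) (nat_lit 9) (.e (nat_lit 426211) (nat_lit 9) (.e (nat_lit 426125) (nat_lit 2) .nil)))) .nil)) 
(.lf (nat_lit 99191) (.g (nat_lit 3602) (.e (nat_lit 3211) (nat_lit 195) (.e (nat_lit 516166) (nat_lit 12) (.e (nat_lit 450563) (nat_lit 0) (.e (nat_lit 6808) (nat_lit 365) .nil)))) .nil))))) (.nd (nat_lit 4) (.nd (nat_lit 5) (.nd (nat_lit 6) 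
(.lf (nat_lit 99087) (.g (nat_lit 3992) (.e (nat_lit 3209) (nat_lit 195) (.e (nat_lit 516151) (nat_lit 9) (.e (nat_lit 426211) (nat_lit 9) (.e (nat_lit 426140) (nat_lit 3) (.e (nat_lit 204863) (nat_lit 27) (.e (nat_lit 344160) (nat_lit 37) (.e (nat_lit 647190) (nat_lit 9) (.e (nat_lit 11) (nat_lit 0) .nil)))))))) (.g (nat_lit 4) .nil .nil))) 
(.lf (nat_lit 99151) (.g (nat_lit 2377) (.e (nat_lit 3210) (nat_lit 195) (.e (nat_lit 516151) (nat_lit 9) (.e (nat_lit 426305) (nat_lit 12) (.e (nat_lit 483072) (nat_lit 2) .nil)))) .nil))) (.nd (nat_lit 6) 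
(.lf (nat_lit 99119) (.g (nat_lit 1160) (.e (nat_lit 3210) (nat_lit 195) (.e (nat_lit 516151) (nat_lit 9) (.e (nat_lit 426132) (nat_lit 3) .nil))) .nil)) 
(.lf (nat_lit 99183) (.g (nat_lit 2423) (.e (nat_lit 3211) (nat_lit 195) (.e (nat_lit 516151) (nat_lit 9) (.e (nat_lit 426285) (nat_lit 10) (.e (nat_lit 434295) (nat_lit 49) .nil)))) .nil)))) (.nd (nat_lit 5) (.nd (nat_lit 6) 
(.lf (nat_lit 99103) (.g (nat_lit 2466) (.e (nat_lit 3209) (nat_lit 195) (.e (nat_lit 516166) (nat_lit 12) (.e (nat_lit 450563) (nat_lit 0) (.e (nat_lit 6745) (nat_lit 365) .nil)))) .nil)) 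
(.lf (nat_lit 99167) (.g (nat_lit 3075) (.e (nat_lit 3211) (nat_lit 195) (.e (nat_lit 516145) (nat_lit 9) (.e (nat_lit 426438) (nat_lit 18) (.e (nat_lit 98367) (nat_lit 27) (.e (nat_lit 434248) (nat_lit 28) (.e (nat_lit 573482) (nat_lit 13) (.e (nat_lit 73472) (nat_lit 15) .nil))))))) (.g (nat_lit 5) .nil .nil)))) (.nd (nat_lit 6) 
(.lf (nat_lit 99135) (.g (nat_lit 5186) (.e (nat_lit 3210) (nat_lit 195) (.e (nat_lit 516151) (nat_lit 9) (.e (nat_lit 426211) (nat_lit 9) (.e (nat_lit 426125) (nat_lit 2) (.e (nat_lit 196670) (nat_lit 14) .nil))))) .nil)) 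
(.lf (nat_lit 99199) (.g (nat_lit 2738) (.e (nat_lit 3212) (nat_lit 195) (.e (nat_lit 516146) (nat_lit 9) (.e (nat_lit 426428) (nat_lit 17) (.e (nat_lit 90174) (nat_lit 14) (.e (nat_lit 180250) (nat_lit 10) (.e (nat_lit 573480) (nat_lit 13) (.e (nat_lit 65631) (nat_lit 15) .nil))))))) (.g (nat_lit 5) .nil .nil))))))))))

noncomputable def tv1359 : DT := (.nd (nat_lit 0) (.nd (nat_lit 1) (.nd (nat_lit 2) (.nd (nat_lit 3) (.nd (nat_lit 4) (.nd (nat_lit 5) (.nd (nat_lit 6) 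
(.lf (nat_lit 99200) (.g (nat_lit 3052) (.e (nat_lit 3212) (nat_lit 195) (.e (nat_lit 516151) (nat_lit 9) (.e (nat_lit 426211) (nat_lit 9) (.e (nat_lit 426140) (nat_lit 3) .nil)))) .nil)) 
(.lf (nat_lit 99264) (.g (nat_lit 1619) (.e (nat_lit 7936) (nat_lit 195) (.e (nat_lit 516151) (nat_lit 9) (.e (nat_lit 426285) (nat_lit 10) (.e (nat_lit 434295) (nat_lit 49) (.e (nat_lit 745474) (nat_lit 0) .nil))))) .nil))) (.nd (nat_lit 6) 
(.lf (nat_lit 99232) (.g (nat_lit 950) (.e (nat_lit 7936) (nat_lit 195) (.e (nat_lit 516120) (nat_lit 1) (.e (nat_lit 164312) (nat_lit 226) .nil))) .nil)) 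
(.lf (nat_lit 99296) (.g (nat_lit 2346) (.e (nat_lit 7936) (nat_lit 195) (.e (nat_lit 516160) (nat_lit 10) (.e (nat_lit 434248) (nat_lit 28) (.e (nat_lit 573482) (nat_lit 13) (.e (nat_lit 65571) (nat_lit 3) .nil))))) .nil)))) (.nd (nat_lit 5) (.nd (nat_lit 6) 
(.lf (nat_lit 99216) (.g (nat_lit 539) (.e (nat_lit 3214) (nat_lit 195) (.e (nat_lit 516129) (nat_lit 3) (.e (nat_lit 229120) (nat_lit 18) .nil))) .nil)) 
(.lf (nat_lit 99280) (.g (nat_lit 2181) (.e (nat_lit 7936) (nat_lit 195) (.e (nat_lit 516160) (nat_lit 10) (.e (nat_lit 434244) (nat_lit 28) (.e (nat_lit 573481) (nat_lit 13) (.e (nat_lit 65568) (nat_lit 2) .nil))))) .nil))) (.nd (nat_lit 6) 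
(.lf (nat_lit 99248) (.g (nat_lit 984) (.e (nat_lit 7936) (nat_lit 195) (.e (nat_lit 516151) (nat_lit 9) (.e (nat_lit 426170) (nat_lit 7) (.e (nat_lit 409634) (nat_lit 13) (.e (nat_lit 40962) (nat_lit 0) .nil))))) .nil)) 
(.lf (nat_lit 99312) (.g (nat_lit 1615) (.e (nat_lit 7936) (nat_lit 195) (.e (nat_lit 516166) (nat_lit 12) (.e (nat_lit 450562) (nat_lit 0) (.e (nat_lit 6828) (nat_lit 367) .nil)))) .nil))))) (.nd (nat_lit 4) (.nd (nat_lit 5) (.nd (nat_lit 6) 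
(.lf (nat_lit 99208) (.g (nat_lit 1244) (.e (nat_lit 3213) (nat_lit 195) (.e (nat_lit 516166) (nat_lit 12) (.e (nat_lit 450562) (nat_lit 0) .nil))) .nil)) 
(.lf (nat_lit 99272) (.g (nat_lit 1388) (.e (nat_lit 7936) (nat_lit 195) (.e (nat_lit 516151) (nat_lit 9) (.e (nat_lit 426455) (nat_lit 22) (.e (nat_lit 139280) (nat_lit 4) (.e (nat_lit 65569) (nat_lit 3) .nil))))) .nil))) (.nd (nat_lit 6) 
(.lf (nat_lit 99240) (.g (nat_lit 1128) (.e (nat_lit 7936) (nat_lit 195) (.e (nat_lit 516145) (nat_lit 9) (.e (nat_lit 426432) (nat_lit 17) (.e (nat_lit 98048) (nat_lit 5) .nil)))) .nil)) 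
(.lf (nat_lit 99304) (.g (nat_lit 973) (.e (nat_lit 7936) (nat_lit 195) (.e (nat_lit 516163) (nat_lit 11) (.e (nat_lit 442427) (nat_lit 23) (.e (nat_lit 204863) (nat_lit 27) .nil)))) .nil)))) (.nd (nat_lit 5) (.nd (nat_lit 6) 
(.lf (nat_lit 99224) (.g (nat_lit 3674) (.e (nat_lit 3214) (nat_lit 195) (.e (nat_lit 516146) (nat_lit 9) (.e (nat_lit 426428) (nat_lit 17) (.e (nat_lit 90174) (nat_lit 14) (.e (nat_lit 180250) (nat_lit 10) (.e (nat_lit 573482) (nat_lit 13) (.e (nat_lit 73472) (nat_lit 15) .nil))))))) (.g (nat_lit 6) .nil .nil))) 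
(.lf (nat_lit 99288) (.g (nat_lit 816) (.e (nat_lit 7936) (nat_lit 195) (.e (nat_lit 516160) (nat_lit 10) (.e (nat_lit 434247) (nat_lit 28) (.e (nat_lit 573489) (nat_lit 14) .nil)))) .nil))) (.nd (nat_lit 6) 
(.lf (nat_lit 99256) (.g (nat_lit 3204) (.e (nat_lit 7936) (nat_lit 195) (.e (nat_lit 516151) (nat_lit 9) (.e (nat_lit 426211) (nat_lit 9) (.e (nat_lit 426125) (nat_lit 2) (.e (nat_lit 196668) (nat_lit 14) .nil))))) .nil)) 
(.lf (nat_lit 99320) (.g (nat_lit 1627) (.e (nat_lit 7936) (nat_lit 195) (.e (nat_lit 516166) (nat_lit 12) (.e (nat_lit 450563) (nat_lit 0) (.e (nat_lit 6745) (nat_lit 365) (.e (nat_lit 1218) (nat_lit 90) .nil))))) .nil)))))) (.nd (nat_lit 3) (.nd (nat_lit 4) (.nd (nat_lit 5) (.nd (nat_lit 6) 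
(.lf (nat_lit 99204) (.g (nat_lit 2036) (.e (nat_lit 3213) (nat_lit 195) (.e (nat_lit 516131) (nat_lit 3) (.e (nat_lit 221212) (nat_lit 22) (.e (nat_lit 196668) (nat_lit 14) (.e (nat_lit 81664) (nat_lit 5) .nil))))) .nil)) 
(.lf (nat_lit 99268) (.g (nat_lit 1937) (.e (nat_lit 7936) (nat_lit 195) (.e (nat_lit 516151) (nat_lit 9) (.e (nat_lit 426412) (nat_lit 15) (.e (nat_lit 7936) (nat_lit 117) .nil)))) .nil))) (.nd (nat_lit 6) 
(.lf (nat_lit 99236) (.g (nat_lit 1602) (.e (nat_lit 7936) (nat_lit 195) (.e (nat_lit 516145) (nat_lit 9) (.e (nat_lit 426428) (nat_lit 17) (.e (nat_lit 90173) (nat_lit 14) .nil)))) .nil)) 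
(.lf (nat_lit 99300) (.g (nat_lit 446) (.e (nat_lit 7936) (nat_lit 195) (.e (nat_lit 516163) (nat_lit 11) (.e (nat_lit 442391) (nat_lit 19) .nil))) .nil)))) (.nd (nat_lit 5) (.nd (nat_lit 6) 
(.lf (nat_lit 99220) (.g (nat_lit 2166) (.e (nat_lit 3214) (nat_lit 195) (.e (nat_lit 516131) (nat_lit 3) (.e (nat_lit 221212) (nat_lit 22) (.e (nat_lit 196681) (nat_lit 17) (.e (nat_lit 131091) (nat_lit 2) (.e (nat_lit 98048) (nat_lit 2) (.e (nat_lit 16388) (nat_lit 0) .nil))))))) (.g (nat_lit 5) .nil .nil))) 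
(.lf (nat_lit 99284) (.g (nat_lit 503) (.e (nat_lit 7936) (nat_lit 195) (.e (nat_lit 516160) (nat_lit 10) (.e (nat_lit 434246) (nat_lit 28) .nil))) .nil))) (.nd (nat_lit 6) 
(.lf (nat_lit 99252) (.g (nat_lit 840) (.e (nat_lit 7936) (nat_lit 195) (.e (nat_lit 516151) (nat_lit 9) (.e (nat_lit 426211) (nat_lit 9) (.e (nat_lit 426025) (nat_lit 0) .nil)))) .nil)) 
(.lf (nat_lit 99316) (.g (nat_lit 1912) (.e (nat_lit 7936) (nat_lit 195) (.e (nat_lit 516166) (nat_lit 12) (.e (nat_lit 450563) (nat_lit 0) (.e (nat_lit 6736) (nat_lit 365) (.e (nat_lit 1218) (nat_lit 90) .nil))))) .nil))))) (.nd (nat_lit 4) (.nd (nat_lit 5) (.nd (nat_lit 6) 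
(.lf (nat_lit 99212) (.g (nat_lit 3995) (.e (nat_lit 3213) (nat_lit 195) (.e (nat_lit 516166) (nat_lit 12) (.e (nat_lit 450563) (nat_lit 0) (.e (nat_lit 6830) (nat_lit 367) .nil)))) .nil)) 
(.lf (nat_lit 99276) (.g (nat_lit 1266) (.e (nat_lit 7936) (nat_lit 195) (.e (nat_lit 516160) (nat_lit 10) (.e (nat_lit 434231) (nat_lit 23) (.e (nat_lit 532514) (nat_lit 3) .nil)))) .nil))) (.nd (nat_lit 6) 
(.lf (nat_lit 99244) (.g (nat_lit 1292) (.e (nat_lit 7936) (nat_lit 195) (.e (nat_lit 516146) (nat_lit 9) (.e (nat_lit 426428) (nat_lit 17) (.e (nat_lit 98048) (nat_lit 5) .nil)))) .nil)) 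
(.lf (nat_lit 99308) (.g (nat_lit 693) (.e (nat_lit 7936) (nat_lit 195) (.e (nat_lit 516166) (nat_lit 12) (.e (nat_lit 450561) (nat_lit 0) .nil))) .nil)))) (.nd (nat_lit 5) (.nd (nat_lit 6) 
(.lf (nat_lit 99228) (.g (nat_lit 2735) (.e (nat_lit 3214) (nat_lit 195) (.e (nat_lit 516176) (nat_lit 14) (.e (nat_lit 466981) (nat_lit 23) (.e (nat_lit 204862) (nat_lit 27) (.e (nat_lit 344160) (nat_lit 37) (.e (nat_lit 647190) (nat_lit 9) (.e (nat_lit 11) (nat_lit 0) .nil))))))) (.g (nat_lit 5) .nil .nil))) 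
(.lf (nat_lit 99292) (.g (nat_lit 2371) (.e (nat_lit 7936) (nat_lit 195) (.e (nat_lit 516160) (nat_lit 10) (.e (nat_lit 434248) (nat_lit 28) (.e (nat_lit 573482) (nat_lit 13) (.e (nat_lit 65567) (nat_lit 2) .nil))))) .nil))) (.nd (nat_lit 6) 
(.lf (nat_lit 99260) (.g (nat_lit 969) (.e (nat_lit 7936) (nat_lit 195) (.e (nat_lit 516151) (nat_lit 9) (.e (nat_lit 426211) (nat_lit 9) (.e (nat_lit 433920) (nat_lit 27) .nil)))) .nil)) 
(.lf (nat_lit 99324) (.g (nat_lit 2519) (.e (nat_lit 7936) (nat_lit 195) (.e (nat_lit 516166) (nat_lit 12) (.e (nat_lit 450563) (nat_lit 0) (.e (nat_lit 6830) (nat_lit 367) (.e (nat_lit 57424) (nat_lit 14) .nil))))) .nil))))))) (.nd (nat_lit 2) (.nd (nat_lit 3) (.nd (nat_lit 4) (.nd (nat_lit 5) (.nd (nat_lit 6) 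
(.lf (nat_lit 99202) (.g (nat_lit 1202) (.e (nat_lit 3213) (nat_lit 195) (.e (nat_lit 516120) (nat_lit 1) (.e (nat_lit 164304) (nat_lit 226) .nil))) .nil)) 
(.lf (nat_lit 99266) (.g (nat_lit 1552) (.e (nat_lit 7936) (nat_lit 195) (.e (nat_lit 516151) (nat_lit 9) (.e (nat_lit 426285) (nat_lit 10) (.e (nat_lit 434295) (nat_lit 49) (.e (nat_lit 745476) (nat_lit 0) .nil))))) .nil))) (.nd (nat_lit 6) 
(.lf (nat_lit 99234) (.g (nat_lit 1415) (.e (nat_lit 7936) (nat_lit 195) (.e (nat_lit 516131) (nat_lit 3) (.e (nat_lit 221212) (nat_lit 22) (.e (nat_lit 196668) (nat_lit 14) (.e (nat_lit 81664) (nat_lit 5) .nil))))) .nil)) 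
(.lf (nat_lit 99298) (.g (nat_lit 2247) (.e (nat_lit 7936) (nat_lit 195) (.e (nat_lit 516160) (nat_lit 10) (.e (nat_lit 434248) (nat_lit 28) (.e (nat_lit 573487) (nat_lit 14) (.e (nat_lit 73753) (nat_lit 8) .nil))))) .nil)))) (.nd (nat_lit 5) (.nd (nat_lit 6) 
(.lf (nat_lit 99218) (.g (nat_lit 1568) (.e (nat_lit 3214) (nat_lit 195) (.e (nat_lit 516131) (nat_lit 3) (.e (nat_lit 221212) (nat_lit 22) (.e (nat_lit 196668) (nat_lit 14) (.e (nat_lit 81664) (nat_lit 5) (.e (nat_lit 532583) (nat_lit 26) (.e (nat_lit 426010) (nat_lit 0) .nil))))))) (.g (nat_lit 4) .nil .nil))) 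
(.lf (nat_lit 99282) (.g (nat_lit 1113) (.e (nat_lit 7936) (nat_lit 195) (.e (nat_lit 516160) (nat_lit 10) (.e (nat_lit 434244) (nat_lit 28) (.e (nat_lit 573487) (nat_lit 14) .nil)))) .nil))) (.nd (nat_lit 6) 
(.lf (nat_lit 99250) (.g (nat_lit 802) (.e (nat_lit 7936) (nat_lit 195) (.e (nat_lit 516151) (nat_lit 9) (.e (nat_lit 426171) (nat_lit 7) .nil))) .nil)) 
(.lf (nat_lit 99314) (.g (nat_lit 1434) (.e (nat_lit 7936) (nat_lit 195) (.e (nat_lit 516166) (nat_lit 12) (.e (nat_lit 450563) (nat_lit 0) (.e (nat_lit 6736) (nat_lit 365) .nil)))) .nil))))) (.nd (nat_lit 4) (.nd (nat_lit 5) (.nd (nat_lit 6) 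
(.lf (nat_lit 99210) (.g (nat_lit 1189) (.e (nat_lit 3213) (nat_lit 195) (.e (nat_lit 516166) (nat_lit 12) (.e (nat_lit 450563) (nat_lit 0) .nil))) .nil)) 
(.lf (nat_lit 99274) (.g (nat_lit 529) (.e (nat_lit 7936) (nat_lit 195) (.e (nat_lit 516160) (nat_lit 10) (.e (nat_lit 434229) (nat_lit 22) .nil))) .nil))) (.nd (nat_lit 6) 
(.lf (nat_lit 99242) (.g (nat_lit 1086) (.e (nat_lit 7936) (nat_lit 195) (.e (nat_lit 516145) (nat_lit 9) (.e (nat_lit 426438) (nat_lit 18) (.e (nat_lit 98367) (nat_lit 27) .nil)))) .nil)) 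
(.lf (nat_lit 99306) (.g (nat_lit 1919) (.e (nat_lit 7936) (nat_lit 195) (.e (nat_lit 516163) (nat_lit 11) (.e (nat_lit 442427) (nat_lit 23) (.e (nat_lit 204863) (nat_lit 27) (.e (nat_lit 344163) (nat_lit 37) .nil))))) .nil)))) (.nd (nat_lit 5) (.nd (nat_lit 6) 
(.lf (nat_lit 99226) (.g (nat_lit 1189) (.e (nat_lit 3214) (nat_lit 195) (.e (nat_lit 516166) (nat_lit 12) (.e (nat_lit 450563) (nat_lit 0) .nil))) .nil)) 
(.lf (nat_lit 99290) (.g (nat_lit 2252) (.e (nat_lit 7936) (nat_lit 195) (.e (nat_lit 516160) (nat_lit 10) (.e (nat_lit 434248) (nat_lit 28) (.e (nat_lit 573482) (nat_lit 13) (.e (nat_lit 65558) (nat_lit 0) .nil))))) .nil))) (.nd (nat_lit 6) 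
(.lf (nat_lit 99258) (.g (nat_lit 1800) (.e (nat_lit 7936) (nat_lit 195) (.e (nat_lit 516151) (nat_lit 9) (.e (nat_lit 426211) (nat_lit 9) (.e (nat_lit 426140) (nat_lit 3) (.e (nat_lit 204863) (nat_lit 27) .nil))))) .nil)) 
(.lf (nat_lit 99322) (.g (nat_lit 1521) (.e (nat_lit 7936) (nat_lit 195) (.e (nat_lit 516166) (nat_lit 12) (.e (nat_lit 450563) (nat_lit 0) (.e (nat_lit 6828) (nat_lit 367) .nil)))) .nil)))))) (.nd (nat_lit 3) (.nd (nat_lit 4) (.nd (nat_lit 5) (.nd (nat_lit 6) 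
(.lf (nat_lit 99206) (.g (nat_lit 2314) (.e (nat_lit 3213) (nat_lit 195) (.e (nat_lit 516145) (nat_lit 9) (.e (nat_lit 426428) (nat_lit 17) (.e (nat_lit 90174) (nat_lit 14) (.e (nat_lit 180250) (nat_lit 10) .nil))))) .nil)) 
(.lf (nat_lit 99270) (.g (nat_lit 1275) (.e (nat_lit 7936) (nat_lit 195) (.e (nat_lit 516151) (nat_lit 9) (.e (nat_lit 433920) (nat_lit 17) .nil))) .nil))) (.nd (nat_lit 6) 
(.lf (nat_lit 99238) (.g (nat_lit 1850) (.e (nat_lit 7936) (nat_lit 195) (.e (nat_lit 516145) (nat_lit 9) (.e (nat_lit 426428) (nat_lit 17) (.e (nat_lit 90174) (nat_lit 14) (.e (nat_lit 180250) (nat_lit 10) .nil))))) .nil)) 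
(.lf (nat_lit 99302) (.g (nat_lit 551) (.e (nat_lit 7936) (nat_lit 195) (.e (nat_lit 516163) (nat_lit 11) (.e (nat_lit 442391) (nat_lit 19) (.e (nat_lit 409344) (nat_lit 32) .nil)))) .nil)))) (.nd (nat_lit 5) (.nd (nat_lit 6) 
(.lf (nat_lit 99222) (.g (nat_lit 3383) (.e (nat_lit 3214) (nat_lit 195) (.e (nat_lit 516146) (nat_lit 9) (.e (nat_lit 426428) (nat_lit 17) (.e (nat_lit 90174) (nat_lit 14) (.e (nat_lit 180250) (nat_lit 10) (.e (nat_lit 573480) (nat_lit 13) (.e (nat_lit 65631) (nat_lit 15) .nil))))))) (.g (nat_lit 7) .nil .nil))) 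
(.lf (nat_lit 99286) (.g (nat_lit 2252) (.e (nat_lit 7936) (nat_lit 195) (.e (nat_lit 516160) (nat_lit 10) (.e (nat_lit 434247) (nat_lit 28) (.e (nat_lit 573484) (nat_lit 13) (.e (nat_lit 65569) (nat_lit 3) .nil))))) .nil))) (.nd (nat_lit 6) 
(.lf (nat_lit 99254) (.g (nat_lit 806) (.e (nat_lit 7936) (nat_lit 195) (.e (nat_lit 516151) (nat_lit 9) (.e (nat_lit 426211) (nat_lit 9) (.e (nat_lit 426125) (nat_lit 2) (.e (nat_lit 204544) (nat_lit 0) .nil))))) .nil)) 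
(.lf (nat_lit 99318) (.g (nat_lit 2028) (.e (nat_lit 7936) (nat_lit 195) (.e (nat_lit 516166) (nat_lit 12) (.e (nat_lit 450563) (nat_lit 0) (.e (nat_lit 6740) (nat_lit 365) (.e (nat_lit 1224) (nat_lit 90) .nil))))) .nil))))) (.nd (nat_lit 4) (.nd (nat_lit 5) (.nd (nat_lit 6) 
(.lf (nat_lit 99214) (.g (nat_lit 1202) (.e (nat_lit 3214) (nat_lit 195) (.e (nat_lit 516120) (nat_lit 1) (.e (nat_lit 164304) (nat_lit 226) .nil))) .nil)) 
(.lf (nat_lit 99278) (.g (nat_lit 498) (.e (nat_lit 7936) (nat_lit 195) (.e (nat_lit 516160) (nat_lit 10) (.e (nat_lit 434244) (nat_lit 28) .nil))) .nil))) (.nd (nat_lit 6) 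
(.lf (nat_lit 99246) (.g (nat_lit 1360) (.e (nat_lit 7936) (nat_lit 195) (.e (nat_lit 516146) (nat_lit 9) (.e (nat_lit 426432) (nat_lit 17) (.e (nat_lit 98048) (nat_lit 5) .nil)))) .nil)) 
(.lf (nat_lit 99310) (.g (nat_lit 1616) (.e (nat_lit 7936) (nat_lit 195) (.e (nat_lit 516166) (nat_lit 12) (.e (nat_lit 450562) (nat_lit 0) (.e (nat_lit 6740) (nat_lit 365) .nil)))) .nil)))) (.nd (nat_lit 5) (.nd (nat_lit 6) 
(.lf (nat_lit 99230) (.g (nat_lit 1583) (.e (nat_lit 3215) (nat_lit 195) (.e (nat_lit 516119) (nat_lit 1) (.e (nat_lit 164403) (nat_lit 256) (.e (nat_lit 57389) (nat_lit 5) .nil)))) .nil)) 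
(.lf (nat_lit 99294) (.g (nat_lit 2146) (.e (nat_lit 7936) (nat_lit 195) (.e (nat_lit 516160) (nat_lit 10) (.e (nat_lit 434248) (nat_lit 28) (.e (nat_lit 573482) (nat_lit 13) (.e (nat_lit 73472) (nat_lit 2) .nil))))) .nil))) (.nd (nat_lit 6) 
(.lf (nat_lit 99262) (.g (nat_lit 961) (.e (nat_lit 7936) (nat_lit 195) (.e (nat_lit 516151) (nat_lit 9) (.e (nat_lit 426285) (nat_lit 10) (.e (nat_lit 442112) (nat_lit 44) .nil)))) .nil)) 
(.lf (nat_lit 99326) (.g (nat_lit 1667) (.e (nat_lit 7936) (nat_lit 195) (.e (nat_lit 516166) (nat_lit 12) (.e (nat_lit 450602) (nat_lit 22) (.e (nat_lit 704845) (nat_lit 15) .nil)))) .nil)))))))) (.nd (nat_lit 1) (.nd (nat_lit 2) (.nd (nat_lit 3) (.nd (nat_lit 4) (.nd (nat_lit 5) (.nd (nat_lit 6) 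
(.lf (nat_lit 99201) (.g (nat_lit 4016) (.e (nat_lit 3212) (nat_lit 195) (.e (nat_lit 516166) (nat_lit 12) (.e (nat_lit 450563) (nat_lit 0) (.e (nat_lit 6830) (nat_lit 367) .nil)))) .nil)) 
(.lf (nat_lit 99265) (.g (nat_lit 1567) (.e (nat_lit 7936) (nat_lit 195) (.e (nat_lit 516151) (nat_lit 9) (.e (nat_lit 426285) (nat_lit 10) (.e (nat_lit 434295) (nat_lit 49) (.e (nat_lit 745475) (nat_lit 0) .nil))))) .nil))) (.nd (nat_lit 6) 
(.lf (nat_lit 99233) (.g (nat_lit 415) (.e (nat_lit 7936) (nat_lit 195) (.e (nat_lit 516129) (nat_lit 3) (.e (nat_lit 229120) (nat_lit 18) .nil))) .nil)) 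
(.lf (nat_lit 99297) (.g (nat_lit 1269) (.e (nat_lit 7936) (nat_lit 195) (.e (nat_lit 516160) (nat_lit 10) (.e (nat_lit 434248) (nat_lit 28) (.e (nat_lit 573487) (nat_lit 14) .nil)))) .nil)))) (.nd (nat_lit 5) (.nd (nat_lit 6) 
(.lf (nat_lit 99217) (.g (nat_lit 1555) (.e (nat_lit 3214) (nat_lit 195) (.e (nat_lit 516131) (nat_lit 3) (.e (nat_lit 221212) (nat_lit 22) (.e (nat_lit 196668) (nat_lit 14) (.e (nat_lit 81664) (nat_lit 5) .nil))))) .nil)) 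
(.lf (nat_lit 99281) (.g (nat_lit 2174) (.e (nat_lit 7936) (nat_lit 195) (.e (nat_lit 516160) (nat_lit 10) (.e (nat_lit 434244) (nat_lit 28) (.e (nat_lit 573481) (nat_lit 13) (.e (nat_lit 65571) (nat_lit 3) .nil))))) .nil))) (.nd (nat_lit 6) 
(.lf (nat_lit 99249) (.g (nat_lit 910) (.e (nat_lit 7936) (nat_lit 195) (.e (nat_lit 516151) (nat_lit 9) (.e (nat_lit 426170) (nat_lit 7) (.e (nat_lit 409634) (nat_lit 13) (.e (nat_lit 48896) (nat_lit 6) .nil))))) .nil)) 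
(.lf (nat_lit 99313) (.g (nat_lit 1618) (.e (nat_lit 7936) (nat_lit 195) (.e (nat_lit 516166) (nat_lit 12) (.e (nat_lit 450562) (nat_lit 0) (.e (nat_lit 6830) (nat_lit 367) .nil)))) .nil))))) (.nd (nat_lit 4) (.nd (nat_lit 5) (.nd (nat_lit 6) 
(.lf (nat_lit 99209) (.g (nat_lit 4538) (.e (nat_lit 3213) (nat_lit 195) (.e (nat_lit 516166) (nat_lit 12) (.e (nat_lit 450562) (nat_lit 0) (.e (nat_lit 6830) (nat_lit 367) .nil)))) .nil)) 
(.lf (nat_lit 99273) (.g (nat_lit 1275) (.e (nat_lit 7936) (nat_lit 195) (.e (nat_lit 516151) (nat_lit 9) (.e (nat_lit 433920) (nat_lit 22) .nil))) .nil))) (.nd (nat_lit 6) 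
(.lf (nat_lit 99241) (.g (nat_lit 416) (.e (nat_lit 7936) (nat_lit 195) (.e (nat_lit 516145) (nat_lit 9) (.e (nat_lit 426438) (nat_lit 18) .nil))) .nil)) 
(.lf (nat_lit 99305) (.g (nat_lit 1740) (.e (nat_lit 7936) (nat_lit 195) (.e (nat_lit 516163) (nat_lit 11) (.e (nat_lit 442427) (nat_lit 23) (.e (nat_lit 204863) (nat_lit 27) (.e (nat_lit 344160) (nat_lit 37) .nil))))) .nil)))) (.nd (nat_lit 5) (.nd (nat_lit 6) 
(.lf (nat_lit 99225) (.g (nat_lit 2716) (.e (nat_lit 3214) (nat_lit 195) (.e (nat_lit 516146) (nat_lit 9) (.e (nat_lit 426428) (nat_lit 17) (.e (nat_lit 90174) (nat_lit 14) (.e (nat_lit 180250) (nat_lit 10) (.e (nat_lit 573485) (nat_lit 13) (.e (nat_lit 73472) (nat_lit 15) .nil))))))) (.g (nat_lit 5) .nil .nil))) 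
(.lf (nat_lit 99289) (.g (nat_lit 1520) (.e (nat_lit 7936) (nat_lit 195) (.e (nat_lit 516160) (nat_lit 10) (.e (nat_lit 434248) (nat_lit 28) (.e (nat_lit 573480) (nat_lit 13) .nil)))) .nil))) (.nd (nat_lit 6) 
(.lf (nat_lit 99257) (.g (nat_lit 1716) (.e (nat_lit 7936) (nat_lit 195) (.e (nat_lit 516151) (nat_lit 9) (.e (nat_lit 426211) (nat_lit 9) (.e (nat_lit 426140) (nat_lit 3) (.e (nat_lit 204850) (nat_lit 26) .nil))))) .nil)) 
(.lf (nat_lit 99321) (.g (nat_lit 1790) (.e (nat_lit 7936) (nat_lit 195) (.e (nat_lit 516166) (nat_lit 12) (.e (nat_lit 450563) (nat_lit 0) (.e (nat_lit 6808) (nat_lit 365) (.e (nat_lit 7936) (nat_lit 90) .nil))))) .nil)))))) (.nd (nat_lit 3) (.nd (nat_lit 4) (.nd (nat_lit 5) (.nd (nat_lit 6) 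
(.lf (nat_lit 99205) (.g (nat_lit 2247) (.e (nat_lit 3213) (nat_lit 195) (.e (nat_lit 516131) (nat_lit 3) (.e (nat_lit 221212) (nat_lit 22) (.e (nat_lit 196681) (nat_lit 17) (.e (nat_lit 131093) (nat_lit 2) (.e (nat_lit 98048) (nat_lit 2) (.e (nat_lit 16388) (nat_lit 0) .nil))))))) (.g (nat_lit 4) .nil .nil))) 
(.lf (nat_lit 99269) (.g (nat_lit 1937) (.e (nat_lit 7936) (nat_lit 195) (.e (nat_lit 516151) (nat_lit 9) (.e (nat_lit 426412) (nat_lit 15) (.e (nat_lit 7936) (nat_lit 121) .nil)))) .nil))) (.nd (nat_lit 6) 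
(.lf (nat_lit 99237) (.g (nat_lit 1359) (.e (nat_lit 7936) (nat_lit 195) (.e (nat_lit 516145) (nat_lit 9) (.e (nat_lit 426428) (nat_lit 17) (.e (nat_lit 90174) (nat_lit 14) .nil)))) .nil)) 
(.lf (nat_lit 99301) (.g (nat_lit 551) (.e (nat_lit 7936) (nat_lit 195) (.e (nat_lit 516163) (nat_lit 11) (.e (nat_lit 442391) (nat_lit 19) (.e (nat_lit 409344) (nat_lit 29) .nil)))) .nil)))) (.nd (nat_lit 5) (.nd (nat_lit 6) 
(.lf (nat_lit 99221) (.g (nat_lit 2511) (.e (nat_lit 3214) (nat_lit 195) (.e (nat_lit 516145) (nat_lit 9) (.e (nat_lit 426428) (nat_lit 17) (.e (nat_lit 90174) (nat_lit 14) (.e (nat_lit 180250) (nat_lit 10) (.e (nat_lit 573480) (nat_lit 13) (.e (nat_lit 65631) (nat_lit 15) .nil))))))) (.g (nat_lit 4) .nil .nil))) 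
(.lf (nat_lit 99285) (.g (nat_lit 2474) (.e (nat_lit 7936) (nat_lit 195) (.e (nat_lit 516160) (nat_lit 10) (.e (nat_lit 434247) (nat_lit 28) (.e (nat_lit 573484) (nat_lit 13) (.e (nat_lit 65566) (nat_lit 2) .nil))))) .nil))) (.nd (nat_lit 6) 
(.lf (nat_lit 99253) (.g (nat_lit 1465) (.e (nat_lit 7936) (nat_lit 195) (.e (nat_lit 516151) (nat_lit 9) (.e (nat_lit 426211) (nat_lit 9) (.e (nat_lit 426025) (nat_lit 0) (.e (nat_lit 3484) (nat_lit 218) .nil))))) .nil)) 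
(.lf (nat_lit 99317) (.g (nat_lit 1518) (.e (nat_lit 7936) (nat_lit 195) (.e (nat_lit 516166) (nat_lit 12) (.e (nat_lit 450563) (nat_lit 0) (.e (nat_lit 6740) (nat_lit 365) .nil)))) .nil))))) (.nd (nat_lit 4) (.nd (nat_lit 5) (.nd (nat_lit 6) 
(.lf (nat_lit 99213) (.g (nat_lit 739) (.e (nat_lit 3214) (nat_lit 195) (.e (nat_lit 516119) (nat_lit 1) (.e (nat_lit 164403) (nat_lit 256) .nil))) .nil)) 
(.lf (nat_lit 99277) (.g (nat_lit 540) (.e (nat_lit 7936) (nat_lit 195) (.e (nat_lit 516160) (nat_lit 10) (.e (nat_lit 434242) (nat_lit 28) .nil))) .nil))) (.nd (nat_lit 6) 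
(.lf (nat_lit 99245) (.g (nat_lit 1497) (.e (nat_lit 7936) (nat_lit 195) (.e (nat_lit 516146) (nat_lit 9) (.e (nat_lit 426428) (nat_lit 17) (.e (nat_lit 90174) (nat_lit 14) (.e (nat_lit 180250) (nat_lit 10) .nil))))) .nil)) 
(.lf (nat_lit 99309) (.g (nat_lit 2177) (.e (nat_lit 7936) (nat_lit 195) (.e (nat_lit 516166) (nat_lit 12) (.e (nat_lit 450561) (nat_lit 0) (.e (nat_lit 6830) (nat_lit 367) .nil)))) .nil)))) (.nd (nat_lit 5) (.nd (nat_lit 6) 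
(.lf (nat_lit 99229) (.g (nat_lit 1648) (.e (nat_lit 3215) (nat_lit 195) (.e (nat_lit 516119) (nat_lit 1) (.e (nat_lit 164403) (nat_lit 256) (.e (nat_lit 57388) (nat_lit 5) .nil)))) .nil)) 
(.lf (nat_lit 99293) (.g (nat_lit 2240) (.e (nat_lit 7936) (nat_lit 195) (.e (nat_lit 516160) (nat_lit 10) (.e (nat_lit 434248) (nat_lit 28) (.e (nat_lit 573482) (nat_lit 13) (.e (nat_lit 65568) (nat_lit 2) .nil))))) .nil))) (.nd (nat_lit 6) 
(.lf (nat_lit 99261) (.g (nat_lit 907) (.e (nat_lit 7936) (nat_lit 195) (.e (nat_lit 516151) (nat_lit 9) (.e (nat_lit 426285) (nat_lit 10) (.e (nat_lit 434202) (nat_lit 18) .nil)))) .nil)) 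
(.lf (nat_lit 99325) (.g (nat_lit 1683) (.e (nat_lit 7936) (nat_lit 195) (.e (nat_lit 516166) (nat_lit 12) (.e (nat_lit 450602) (nat_lit 22) (.e (nat_lit 704828) (nat_lit 14) .nil)))) .nil))))))) (.nd (nat_lit 2) (.nd (nat_lit 3) (.nd (nat_lit 4) (.nd (nat_lit 5) (.nd (nat_lit 6) 
(.lf (nat_lit 99203) (.g (nat_lit 1336) (.e (nat_lit 3213) (nat_lit 195) (.e (nat_lit 516131) (nat_lit 3) (.e (nat_lit 221212) (nat_lit 22) (.e (nat_lit 196668) (nat_lit 14) .nil)))) .nil)) 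
(.lf (nat_lit 99267) (.g (nat_lit 1539) (.e (nat_lit 7936) (nat_lit 195) (.e (nat_lit 516151) (nat_lit 9) (.e (nat_lit 426285) (nat_lit 10) (.e (nat_lit 434295) (nat_lit 49) (.e (nat_lit 745493) (nat_lit 6) .nil))))) .nil))) (.nd (nat_lit 6) 
(.lf (nat_lit 99235) (.g (nat_lit 1441) (.e (nat_lit 7936) (nat_lit 195) (.e (nat_lit 516145) (nat_lit 9) (.e (nat_lit 426428) (nat_lit 17) (.e (nat_lit 98048) (nat_lit 5) .nil)))) .nil)) 
(.lf (nat_lit 99299) (.g (nat_lit 1219) (.e (nat_lit 7936) (nat_lit 195) (.e (nat_lit 516160) (nat_lit 10) (.e (nat_lit 434248) (nat_lit 28) (.e (nat_lit 573489) (nat_lit 14) .nil)))) .nil)))) (.nd (nat_lit 5) (.nd (nat_lit 6) 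
(.lf (nat_lit 99219) (.g (nat_lit 791) (.e (nat_lit 3214) (nat_lit 195) (.e (nat_lit 516131) (nat_lit 3) (.e (nat_lit 221212) (nat_lit 22) (.e (nat_lit 196669) (nat_lit 14) .nil)))) .nil)) 
(.lf (nat_lit 99283) (.g (nat_lit 526) (.e (nat_lit 7936) (nat_lit 195) (.e (nat_lit 516160) (nat_lit 10) (.e (nat_lit 434245) (nat_lit 28) .nil))) .nil))) (.nd (nat_lit 6) 
(.lf (nat_lit 99251) (.g (nat_lit 1612) (.e (nat_lit 7936) (nat_lit 195) (.e (nat_lit 516151) (nat_lit 9) (.e (nat_lit 426171) (nat_lit 7) (.e (nat_lit 409634) (nat_lit 13) .nil)))) .nil)) 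
(.lf (nat_lit 99315) (.g (nat_lit 1912) (.e (nat_lit 7936) (nat_lit 195) (.e (nat_lit 516166) (nat_lit 12) (.e (nat_lit 450563) (nat_lit 0) (.e (nat_lit 6736) (nat_lit 365) (.e (nat_lit 1032) (nat_lit 81) .nil))))) .nil))))) (.nd (nat_lit 4) (.nd (nat_lit 5) (.nd (nat_lit 6) 
(.lf (nat_lit 99211) (.g (nat_lit 4180) (.e (nat_lit 3213) (nat_lit 195) (.e (nat_lit 516166) (nat_lit 12) (.e (nat_lit 450563) (nat_lit 0) (.e (nat_lit 6808) (nat_lit 365) .nil)))) .nil)) 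
(.lf (nat_lit 99275) (.g (nat_lit 940) (.e (nat_lit 7936) (nat_lit 195) (.e (nat_lit 516160) (nat_lit 10) (.e (nat_lit 434229) (nat_lit 22) (.e (nat_lit 524339) (nat_lit 27) (.e (nat_lit 344119) (nat_lit 21) .nil))))) .nil))) (.nd (nat_lit 6) 
(.lf (nat_lit 99243) (.g (nat_lit 2186) (.e (nat_lit 7936) (nat_lit 195) (.e (nat_lit 516145) (nat_lit 9) (.e (nat_lit 426438) (nat_lit 18) (.e (nat_lit 98367) (nat_lit 27) (.e (nat_lit 434245) (nat_lit 28) .nil))))) .nil)) 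
(.lf (nat_lit 99307) (.g (nat_lit 348) (.e (nat_lit 7936) (nat_lit 195) (.e (nat_lit 516163) (nat_lit 11) (.e (nat_lit 442436) (nat_lit 26) .nil))) .nil)))) (.nd (nat_lit 5) (.nd (nat_lit 6) 
(.lf (nat_lit 99227) (.g (nat_lit 603) (.e (nat_lit 3214) (nat_lit 195) (.e (nat_lit 516176) (nat_lit 14) (.e (nat_lit 474880) (nat_lit 18) .nil))) .nil)) 
(.lf (nat_lit 99291) (.g (nat_lit 2433) (.e (nat_lit 7936) (nat_lit 195) (.e (nat_lit 516160) (nat_lit 10) (.e (nat_lit 434248) (nat_lit 28) (.e (nat_lit 573482) (nat_lit 13) (.e (nat_lit 65566) (nat_lit 2) .nil))))) .nil))) (.nd (nat_lit 6) 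
(.lf (nat_lit 99259) (.g (nat_lit 1368) (.e (nat_lit 7936) (nat_lit 195) (.e (nat_lit 516151) (nat_lit 9) (.e (nat_lit 426211) (nat_lit 9) (.e (nat_lit 426365) (nat_lit 15) (.e (nat_lit 6620) (nat_lit 357) .nil))))) .nil)) 
(.lf (nat_lit 99323) (.g (nat_lit 1665) (.e (nat_lit 7936) (nat_lit 195) (.e (nat_lit 516166) (nat_lit 12) (.e (nat_lit 450563) (nat_lit 0) (.e (nat_lit 6830) (nat_lit 367) .nil)))) .nil)))))) (.nd (nat_lit 3) (.nd (nat_lit 4) (.nd (nat_lit 5) (.nd (nat_lit 6) 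
(.lf (nat_lit 99207) (.g (nat_lit 2697) (.e (nat_lit 3213) (nat_lit 195) (.e (nat_lit 516146) (nat_lit 9) (.e (nat_lit 426428) (nat_lit 17) (.e (nat_lit 90174) (nat_lit 14) (.e (nat_lit 180250) (nat_lit 10) (.e (nat_lit 573480) (nat_lit 13) (.e (nat_lit 65631) (nat_lit 15) .nil))))))) (.g (nat_lit 5) .nil .nil))) 
(.lf (nat_lit 99271) (.g (nat_lit 765) (.e (nat_lit 7936) (nat_lit 195) (.e (nat_lit 516151) (nat_lit 9) (.e (nat_lit 426455) (nat_lit 22) .nil))) .nil))) (.nd (nat_lit 6) 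
(.lf (nat_lit 99239) (.g (nat_lit 1547) (.e (nat_lit 7936) (nat_lit 195) (.e (nat_lit 516145) (nat_lit 9) (.e (nat_lit 426428) (nat_lit 17) (.e (nat_lit 90185) (nat_lit 17) .nil)))) .nil)) 
(.lf (nat_lit 99303) (.g (nat_lit 1148) (.e (nat_lit 7936) (nat_lit 195) (.e (nat_lit 516163) (nat_lit 11) (.e (nat_lit 442421) (nat_lit 21) (.e (nat_lit 164196) (nat_lit 158) .nil)))) .nil)))) (.nd (nat_lit 5) (.nd (nat_lit 6) 
(.lf (nat_lit 99223) (.g (nat_lit 4023) (.e (nat_lit 3214) (nat_lit 195) (.e (nat_lit 516146) (nat_lit 9) (.e (nat_lit 426428) (nat_lit 17) (.e (nat_lit 90174) (nat_lit 14) (.e (nat_lit 180250) (nat_lit 10) (.e (nat_lit 573482) (nat_lit 13) (.e (nat_lit 65631) (nat_lit 15) .nil))))))) (.g (nat_lit 7) .nil .nil))) 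
(.lf (nat_lit 99287) (.g (nat_lit 1094) (.e (nat_lit 7936) (nat_lit 195) (.e (nat_lit 516160) (nat_lit 10) (.e (nat_lit 434247) (nat_lit 28) (.e (nat_lit 573485) (nat_lit 13) .nil)))) .nil))) (.nd (nat_lit 6) 
(.lf (nat_lit 99255) (.g (nat_lit 806) (.e (nat_lit 7936) (nat_lit 195) (.e (nat_lit 516151) (nat_lit 9) (.e (nat_lit 426211) (nat_lit 9) (.e (nat_lit 426125) (nat_lit 2) (.e (nat_lit 204544) (nat_lit 1) .nil))))) .nil)) 
(.lf (nat_lit 99319) (.g (nat_lit 1461) (.e (nat_lit 7936) (nat_lit 195) (.e (nat_lit 516166) (nat_lit 12) (.e (nat_lit 450563) (nat_lit 0) (.e (nat_lit 6745) (nat_lit 365) .nil)))) .nil))))) (.nd (nat_lit 4) (.nd (nat_lit 5) (.nd (nat_lit 6) 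
(.lf (nat_lit 99215) (.g (nat_lit 1206) (.e (nat_lit 3214) (nat_lit 195) (.e (nat_lit 516120) (nat_lit 1) (.e (nat_lit 164312) (nat_lit 226) .nil))) .nil)) 
(.lf (nat_lit 99279) (.g (nat_lit 2781) (.e (nat_lit 7936) (nat_lit 195) (.e (nat_lit 516160) (nat_lit 10) (.e (nat_lit 434244) (nat_lit 28) (.e (nat_lit 573451) (nat_lit 9) (.e (nat_lit 1449) (nat_lit 108) .nil))))) .nil))) (.nd (nat_lit 6) 
(.lf (nat_lit 99247) (.g (nat_lit 557) (.e (nat_lit 7936) (nat_lit 195) (.e (nat_lit 516151) (nat_lit 9) (.e (nat_lit 426170) (nat_lit 7) (.e (nat_lit 409633) (nat_lit 13) .nil)))) .nil)) 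
(.lf (nat_lit 99311) (.g (nat_lit 1645) (.e (nat_lit 7936) (nat_lit 195) (.e (nat_lit 516166) (nat_lit 12) (.e (nat_lit 450562) (nat_lit 0) (.e (nat_lit 6808) (nat_lit 365) .nil)))) .nil)))) (.nd (nat_lit 5) (.nd (nat_lit 6) 
(.lf (nat_lit 99231) (.g (nat_lit 1572) (.e (nat_lit 7936) (nat_lit 195) (.e (nat_lit 516120) (nat_lit 1) (.e (nat_lit 164304) (nat_lit 226) (.e (nat_lit 7936) (nat_lit 89) .nil)))) .nil)) 
(.lf (nat_lit 99295) (.g (nat_lit 2473) (.e (nat_lit 7936) (nat_lit 195) (.e (nat_lit 516160) (nat_lit 10) (.e (nat_lit 434248) (nat_lit 28) (.e (nat_lit 573482) (nat_lit 13) (.e (nat_lit 65570) (nat_lit 3) .nil))))) .nil))) (.nd (nat_lit 6) 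
(.lf (nat_lit 99263) (.g (nat_lit 1101) (.e (nat_lit 7936) (nat_lit 195) (.e (nat_lit 516151) (nat_lit 9) (.e (nat_lit 426285) (nat_lit 10) (.e (nat_lit 434295) (nat_lit 49) .nil)))) .nil)) 
(.lf (nat_lit 99327) (.g (nat_lit 606) (.e (nat_lit 7936) (nat_lit 195) (.e (nat_lit 516166) (nat_lit 12) (.e (nat_lit 458496) (nat_lit 22) .nil))) .nil)))))))))

noncomputable def tv1360 : DT := (.nd (nat_lit 0) (.nd (nat_lit 1) (.nd (nat_lit 2) (.nd (nat_lit 3) (.nd (nat_lit 4) (.nd (nat_lit 5) (.nd (nat_lit 6) 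
(.lf (nat_lit 99328) (.g (nat_lit 606) (.e (nat_lit 7936) (nat_lit 195) (.e (nat_lit 516166) (nat_lit 12) (.e (nat_lit 458496) (nat_lit 26) .nil))) .nil)) 
(.lf (nat_lit 99392) (.g (nat_lit 2674) (.e (nat_lit 3229) (nat_lit 197) (.e (nat_lit 532550) (nat_lit 12) (.e (nat_lit 360474) (nat_lit 8) (.e (nat_lit 557093) (nat_lit 12) .nil)))) .nil))) (.nd (nat_lit 6) 
(.lf (nat_lit 99360) (.g (nat_lit 1586) (.e (nat_lit 3223) (nat_lit 196) (.e (nat_lit 524322) (nat_lit 12) (.e (nat_lit 450563) (nat_lit 0) (.e (nat_lit 6740) (nat_lit 365) (.e (nat_lit 7936) (nat_lit 90) (.e (nat_lit 89856) (nat_lit 0) .nil)))))) (.g (nat_lit 4) .nil .nil))) 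
(.lf (nat_lit 99424) (.g (nat_lit 1025) (.e (nat_lit 3230) (nat_lit 197) (.e (nat_lit 532504) (nat_lit 1) (.e (nat_lit 57851) (nat_lit 252) (.e (nat_lit 57445) (nat_lit 19) .nil)))) .nil)))) (.nd (nat_lit 5) (.nd (nat_lit 6) 
(.lf (nat_lit 99344) (.g (nat_lit 960) (.e (nat_lit 3218) (nat_lit 196) (.e (nat_lit 524322) (nat_lit 12) (.e (nat_lit 450563) (nat_lit 0) (.e (nat_lit 6745) (nat_lit 365) .nil)))) .nil)) 
(.lf (nat_lit 99408) (.g (nat_lit 1536) (.e (nat_lit 3230) (nat_lit 197) (.e (nat_lit 532501) (nat_lit 1) (.e (nat_lit 57851) (nat_lit 252) (.e (nat_lit 57445) (nat_lit 19) .nil)))) .nil))) (.nd (nat_lit 6) 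
(.lf (nat_lit 99376) (.g (nat_lit 2768) (.e (nat_lit 3227) (nat_lit 197) (.e (nat_lit 532523) (nat_lit 7) (.e (nat_lit 319530) (nat_lit 16) (.e (nat_lit 286733) (nat_lit 2) (.e (nat_lit 90169) (nat_lit 13) .nil))))) .nil)) 
(.lf (nat_lit 99440) (.g (nat_lit 2751) (.e (nat_lit 3230) (nat_lit 197) (.e (nat_lit 532523) (nat_lit 7) (.e (nat_lit 319530) (nat_lit 16) (.e (nat_lit 286733) (nat_lit 2) (.e (nat_lit 90178) (nat_lit 15) (.e (nat_lit 188440) (nat_lit 20) .nil)))))) (.g (nat_lit 4) .nil .nil)))))) (.nd (nat_lit 4) (.nd (nat_lit 5) (.nd (nat_lit 6) 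
(.lf (nat_lit 99336) (.g (nat_lit 2133) (.e (nat_lit 7936) (nat_lit 195) (.e (nat_lit 516179) (nat_lit 15) (.e (nat_lit 475179) (nat_lit 24) (.e (nat_lit 516159) (nat_lit 10) .nil)))) .nil)) 
(.lf (nat_lit 99400) (.g (nat_lit 2182) (.e (nat_lit 3230) (nat_lit 197) (.e (nat_lit 532499) (nat_lit 1) (.e (nat_lit 57927) (nat_lit 282) (.e (nat_lit 163869) (nat_lit 2) (.e (nat_lit 196668) (nat_lit 14) .nil))))) .nil))) (.nd (nat_lit 6) 
(.lf (nat_lit 99368) (.g (nat_lit 224) (.e (nat_lit 3225) (nat_lit 196) (.e (nat_lit 524319) (nat_lit 11) (.e (nat_lit 442391) (nat_lit 19) .nil))) .nil)) 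
(.lf (nat_lit 99432) (.g (nat_lit 2626) (.e (nat_lit 3230) (nat_lit 197) (.e (nat_lit 532514) (nat_lit 3) (.e (nat_lit 114712) (nat_lit 21) (.e (nat_lit 57691) (nat_lit 156) (.e (nat_lit 163871) (nat_lit 2) (.e (nat_lit 196691) (nat_lit 18) (.e (nat_lit 1349) (nat_lit 102) (.e (nat_lit 286748) (nat_lit 9) (.e (nat_lit 336295) (nat_lit 15) .nil))))))))) (.g (nat_lit 5) .nil .nil))))) 
(.nd (nat_lit 5) (.nd (nat_lit 6) 
(.lf (nat_lit 99352) (.g (nat_lit 1007) (.e (nat_lit 3222) (nat_lit 196) (.e (nat_lit 524322) (nat_lit 12) (.e (nat_lit 450563) (nat_lit 0) (.e (nat_lit 6740) (nat_lit 365) .nil)))) .nil)) 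
(.lf (nat_lit 99416) (.g (nat_lit 2838) (.e (nat_lit 3230) (nat_lit 197) (.e (nat_lit 532503) (nat_lit 1) (.e (nat_lit 57931) (nat_lit 282) (.e (nat_lit 163869) (nat_lit 2) (.e (nat_lit 196663) (nat_lit 13) .nil))))) .nil))) (.nd (nat_lit 6) 
(.lf (nat_lit 99384) (.g (nat_lit 4334) (.e (nat_lit 3227) (nat_lit 197) (.e (nat_lit 532550) (nat_lit 12) (.e (nat_lit 360474) (nat_lit 8) (.e (nat_lit 557093) (nat_lit 12) (.e (nat_lit 164022) (nat_lit 46) .nil))))) .nil)) 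
(.lf (nat_lit 99448) (.g (nat_lit 4882) (.e (nat_lit 3230) (nat_lit 197) (.e (nat_lit 532535) (nat_lit 9) (.e (nat_lit 336099) (nat_lit 9) (.e (nat_lit 336013) (nat_lit 2) (.e (nat_lit 90121) (nat_lit 9) .nil))))) .nil)))))) (.nd (nat_lit 3) (.nd (nat_lit 4) (.nd (nat_lit 5) (.nd (nat_lit 6) 
(.lf (nat_lit 99332) (.g (nat_lit 1364) (.e (nat_lit 7936) (nat_lit 195) (.e (nat_lit 516179) (nat_lit 15) (.e (nat_lit 475169) (nat_lit 22) (.e (nat_lit 499927) (nat_lit 10) .nil)))) .nil)) 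
(.lf (nat_lit 99396) (.g (nat_lit 2985) (.e (nat_lit 3230) (nat_lit 197) (.e (nat_lit 532499) (nat_lit 1) (.e (nat_lit 57847) (nat_lit 252) (.e (nat_lit 57446) (nat_lit 19) .nil)))) .nil))) (.nd (nat_lit 6) 
(.lf (nat_lit 99364) (.g (nat_lit 966) (.e (nat_lit 3224) (nat_lit 196) (.e (nat_lit 524322) (nat_lit 12) (.e (nat_lit 450563) (nat_lit 0) (.e (nat_lit 6745) (nat_lit 365) .nil)))) .nil)) 
(.lf (nat_lit 99428) (.g (nat_lit 1535) (.e (nat_lit 3230) (nat_lit 197) (.e (nat_lit 532504) (nat_lit 1) (.e (nat_lit 57851) (nat_lit 252) (.e (nat_lit 57445) (nat_lit 19) (.e (nat_lit 393229) (nat_lit 9) (.e (nat_lit 336088) (nat_lit 9) (.e (nat_lit 336243) (nat_lit 15) .nil))))))) (.g (nat_lit 4) .nil .nil))))) (.nd (nat_lit 5) (.nd (nat_lit 6) 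
(.lf (nat_lit 99348) (.g (nat_lit 1479) (.e (nat_lit 3221) (nat_lit 196) (.e (nat_lit 524322) (nat_lit 12) (.e (nat_lit 450563) (nat_lit 0) (.e (nat_lit 6740) (nat_lit 365) (.e (nat_lit 7936) (nat_lit 90) (.e (nat_lit 89856) (nat_lit 0) .nil)))))) (.g (nat_lit 4) .nil .nil))) 
(.lf (nat_lit 99412) (.g (nat_lit 2159) (.e (nat_lit 3230) (nat_lit 197) (.e (nat_lit 532503) (nat_lit 1) (.e (nat_lit 57931) (nat_lit 282) (.e (nat_lit 163866) (nat_lit 2) (.e (nat_lit 196668) (nat_lit 14) .nil))))) .nil))) (.nd (nat_lit 6) 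
(.lf (nat_lit 99380) (.g (nat_lit 468) (.e (nat_lit 3227) (nat_lit 197) (.e (nat_lit 532523) (nat_lit 7) (.e (nat_lit 319534) (nat_lit 16) .nil))) .nil)) 
(.lf (nat_lit 99444) (.g (nat_lit 1718) (.e (nat_lit 3230) (nat_lit 197) (.e (nat_lit 532523) (nat_lit 7) (.e (nat_lit 319533) (nat_lit 16) (.e (nat_lit 286734) (nat_lit 3) .nil)))) .nil))))) (.nd (nat_lit 4) (.nd (nat_lit 5) (.nd (nat_lit 6) 
(.lf (nat_lit 99340) (.g (nat_lit 2036) (.e (nat_lit 7936) (nat_lit 195) (.e (nat_lit 516185) (nat_lit 16) (.e (nat_lit 491556) (nat_lit 9) (.e (nat_lit 336453) (nat_lit 34) .nil)))) .nil)) 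
(.lf (nat_lit 99404) (.g (nat_lit 1634) (.e (nat_lit 3230) (nat_lit 197) (.e (nat_lit 532500) (nat_lit 1) (.e (nat_lit 57851) (nat_lit 252) (.e (nat_lit 57445) (nat_lit 19) .nil)))) .nil))) (.nd (nat_lit 6) 
(.lf (nat_lit 99372) (.g (nat_lit 3407) (.e (nat_lit 3225) (nat_lit 196) (.e (nat_lit 524339) (nat_lit 27) (.e (nat_lit 344133) (nat_lit 26) (.e (nat_lit 557103) (nat_lit 14) (.e (nat_lit 180244) (nat_lit 5) (.e (nat_lit 532579) (nat_lit 26) (.e (nat_lit 426009) (nat_lit 0) .nil))))))) (.g (nat_lit 0) .nil .nil))) 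
(.lf (nat_lit 99436) (.g (nat_lit 2930) (.e (nat_lit 3230) (nat_lit 197) (.e (nat_lit 532522) (nat_lit 7) (.e (nat_lit 319530) (nat_lit 16) (.e (nat_lit 286733) (nat_lit 2) (.e (nat_lit 90178) (nat_lit 15) (.e (nat_lit 188432) (nat_lit 20) .nil)))))) (.g (nat_lit 4) .nil .nil))))) (.nd (nat_lit 5) (.nd (nat_lit 6) 
(.lf (nat_lit 99356) (.g (nat_lit 301) (.e (nat_lit 3223) (nat_lit 196) (.e (nat_lit 524317) (nat_lit 11) (.e (nat_lit 442391) (nat_lit 19) (.e (nat_lit 401473) (nat_lit 29) (.e (nat_lit 360192) (nat_lit 0) .nil))))) (.g (nat_lit 4) .nil .nil))) 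
(.lf (nat_lit 99420) (.g (nat_lit 2411) (.e (nat_lit 3230) (nat_lit 197) (.e (nat_lit 532503) (nat_lit 1) (.e (nat_lit 57931) (nat_lit 282) (.e (nat_lit 163874) (nat_lit 3) (.e (nat_lit 204863) (nat_lit 27) .nil))))) .nil))) (.nd (nat_lit 6) 
(.lf (nat_lit 99388) (.g (nat_lit 3358) (.e (nat_lit 3227) (nat_lit 197) (.e (nat_lit 532563) (nat_lit 15) (.e (nat_lit 385094) (nat_lit 49) (.e (nat_lit 778317) (nat_lit 3) (.e (nat_lit 57480) (nat_lit 28) (.e (nat_lit 557109) (nat_lit 15) (.e (nat_lit 188425) (nat_lit 20) .nil))))))) (.g (nat_lit 5) .nil .nil))) 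
(.lf (nat_lit 99452) (.g (nat_lit 5242) (.e (nat_lit 3230) (nat_lit 197) (.e (nat_lit 532535) (nat_lit 9) (.e (nat_lit 336099) (nat_lit 9) (.e (nat_lit 336013) (nat_lit 2) (.e (nat_lit 90131) (nat_lit 9) .nil))))) .nil))))))) (.nd (nat_lit 2) (.nd (nat_lit 3) (.nd (nat_lit 4) (.nd (nat_lit 5) (.nd (nat_lit 6) 
(.lf (nat_lit 99330) (.g (nat_lit 1364) (.e (nat_lit 7936) (nat_lit 195) (.e (nat_lit 516179) (nat_lit 15) (.e (nat_lit 475169) (nat_lit 22) (.e (nat_lit 499925) (nat_lit 10) .nil)))) .nil)) 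
(.lf (nat_lit 99394) (.g (nat_lit 3339) (.e (nat_lit 3230) (nat_lit 197) (.e (nat_lit 532499) (nat_lit 1) (.e (nat_lit 57847) (nat_lit 252) (.e (nat_lit 57408) (nat_lit 12) .nil)))) .nil))) (.nd (nat_lit 6) 
(.lf (nat_lit 99362) (.g (nat_lit 1450) (.e (nat_lit 3223) (nat_lit 196) (.e (nat_lit 524322) (nat_lit 12) (.e (nat_lit 450563) (nat_lit 0) (.e (nat_lit 6808) (nat_lit 365) (.e (nat_lit 7936) (nat_lit 90) (.e (nat_lit 89856) (nat_lit 0) .nil)))))) (.g (nat_lit 4) .nil .nil))) 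
(.lf (nat_lit 99426) (.g (nat_lit 1493) (.e (nat_lit 3230) (nat_lit 197) (.e (nat_lit 532504) (nat_lit 1) (.e (nat_lit 57851) (nat_lit 252) (.e (nat_lit 57445) (nat_lit 19) (.e (nat_lit 393229) (nat_lit 9) .nil))))) .nil)))) (.nd (nat_lit 5) (.nd (nat_lit 6) 
(.lf (nat_lit 99346) (.g (nat_lit 3416) (.e (nat_lit 3220) (nat_lit 196) (.e (nat_lit 524339) (nat_lit 27) (.e (nat_lit 344133) (nat_lit 26) (.e (nat_lit 557103) (nat_lit 14) (.e (nat_lit 180244) (nat_lit 5) (.e (nat_lit 532579) (nat_lit 26) (.e (nat_lit 426009) (nat_lit 0) .nil))))))) (.g (nat_lit 7) .nil .nil))) 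
(.lf (nat_lit 99410) (.g (nat_lit 1219) (.e (nat_lit 3230) (nat_lit 197) (.e (nat_lit 532503) (nat_lit 1) (.e (nat_lit 57848) (nat_lit 252) (.e (nat_lit 57445) (nat_lit 19) .nil)))) .nil))) (.nd (nat_lit 6) 
(.lf (nat_lit 99378) (.g (nat_lit 2991) (.e (nat_lit 3227) (nat_lit 197) (.e (nat_lit 532523) (nat_lit 7) (.e (nat_lit 319531) (nat_lit 16) (.e (nat_lit 286733) (nat_lit 2) (.e (nat_lit 90169) (nat_lit 13) .nil))))) .nil)) 
(.lf (nat_lit 99442) (.g (nat_lit 2677) (.e (nat_lit 3230) (nat_lit 197) (.e (nat_lit 532523) (nat_lit 7) (.e (nat_lit 319531) (nat_lit 16) (.e (nat_lit 286733) (nat_lit 2) (.e (nat_lit 90178) (nat_lit 15) (.e (nat_lit 188440) (nat_lit 20) .nil)))))) (.g (nat_lit 4) .nil .nil)))))) (.nd (nat_lit 4) (.nd (nat_lit 5) (.nd (nat_lit 6) 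
(.lf (nat_lit 99338) (.g (nat_lit 1983) (.e (nat_lit 7936) (nat_lit 195) (.e (nat_lit 516179) (nat_lit 15) (.e (nat_lit 475179) (nat_lit 24) (.e (nat_lit 516161) (nat_lit 10) .nil)))) .nil)) 
(.lf (nat_lit 99402) (.g (nat_lit 1767) (.e (nat_lit 3230) (nat_lit 197) (.e (nat_lit 532500) (nat_lit 1) (.e (nat_lit 57851) (nat_lit 252) (.e (nat_lit 57406) (nat_lit 12) .nil)))) .nil))) (.nd (nat_lit 6) 
(.lf (nat_lit 99370) (.g (nat_lit 975) (.e (nat_lit 3225) (nat_lit 196) (.e (nat_lit 524322) (nat_lit 12) (.e (nat_lit 450563) (nat_lit 0) (.e (nat_lit 6745) (nat_lit 365) .nil)))) .nil)) 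
(.lf (nat_lit 99434) (.g (nat_lit 2679) (.e (nat_lit 3230) (nat_lit 197) (.e (nat_lit 532522) (nat_lit 7) (.e (nat_lit 319530) (nat_lit 16) (.e (nat_lit 286733) (nat_lit 2) (.e (nat_lit 90169) (nat_lit 13) .nil))))) .nil)))) (.nd (nat_lit 5) (.nd (nat_lit 6) 
(.lf (nat_lit 99354) (.g (nat_lit 1651) (.e (nat_lit 3222) (nat_lit 196) (.e (nat_lit 524322) (nat_lit 12) (.e (nat_lit 450563) (nat_lit 0) (.e (nat_lit 6830) (nat_lit 367) (.e (nat_lit 57424) (nat_lit 14) .nil))))) .nil)) 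
(.lf (nat_lit 99418) (.g (nat_lit 2995) (.e (nat_lit 3230) (nat_lit 197) (.e (nat_lit 532503) (nat_lit 1) (.e (nat_lit 57931) (nat_lit 282) (.e (nat_lit 163874) (nat_lit 3) (.e (nat_lit 204853) (nat_lit 26) .nil))))) .nil))) (.nd (nat_lit 6) 
(.lf (nat_lit 99386) (.g (nat_lit 6917) (.e (nat_lit 3227) (nat_lit 197) (.e (nat_lit 532550) (nat_lit 12) (.e (nat_lit 360475) (nat_lit 8) (.e (nat_lit 557093) (nat_lit 12) .nil)))) .nil)) 
(.lf (nat_lit 99450) (.g (nat_lit 5242) (.e (nat_lit 3230) (nat_lit 197) (.e (nat_lit 532535) (nat_lit 9) (.e (nat_lit 336099) (nat_lit 9) (.e (nat_lit 336013) (nat_lit 2) (.e (nat_lit 90129) (nat_lit 9) .nil))))) .nil)))))) (.nd (nat_lit 3) (.nd (nat_lit 4) (.nd (nat_lit 5) (.nd (nat_lit 6) 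
(.lf (nat_lit 99334) (.g (nat_lit 528) (.e (nat_lit 7936) (nat_lit 195) (.e (nat_lit 516179) (nat_lit 15) (.e (nat_lit 475177) (nat_lit 24) .nil))) .nil)) 
(.lf (nat_lit 99398) (.g (nat_lit 2163) (.e (nat_lit 3230) (nat_lit 197) (.e (nat_lit 532499) (nat_lit 1) (.e (nat_lit 57927) (nat_lit 282) (.e (nat_lit 163868) (nat_lit 2) (.e (nat_lit 196668) (nat_lit 14) .nil))))) .nil))) (.nd (nat_lit 6) 
(.lf (nat_lit 99366) (.g (nat_lit 2576) (.e (nat_lit 3224) (nat_lit 196) (.e (nat_lit 524322) (nat_lit 12) (.e (nat_lit 450588) (nat_lit 10) (.e (nat_lit 573475) (nat_lit 12) .nil)))) .nil)) 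
(.lf (nat_lit 99430) (.g (nat_lit 1428) (.e (nat_lit 3230) (nat_lit 197) (.e (nat_lit 532504) (nat_lit 1) (.e (nat_lit 57851) (nat_lit 252) (.e (nat_lit 57445) (nat_lit 19) (.e (nat_lit 401152) (nat_lit 11) (.e (nat_lit 352266) (nat_lit 0) .nil)))))) (.g (nat_lit 4) .nil .nil))))) (.nd (nat_lit 5) (.nd (nat_lit 6) 
(.lf (nat_lit 99350) (.g (nat_lit 1348) (.e (nat_lit 3221) (nat_lit 196) (.e (nat_lit 524322) (nat_lit 12) (.e (nat_lit 450563) (nat_lit 0) (.e (nat_lit 6808) (nat_lit 365) (.e (nat_lit 7936) (nat_lit 90) (.e (nat_lit 89856) (nat_lit 0) .nil)))))) (.g (nat_lit 4) .nil .nil))) 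
(.lf (nat_lit 99414) (.g (nat_lit 2196) (.e (nat_lit 3230) (nat_lit 197) (.e (nat_lit 532503) (nat_lit 1) (.e (nat_lit 57931) (nat_lit 282) (.e (nat_lit 163867) (nat_lit 2) (.e (nat_lit 196663) (nat_lit 13) .nil))))) .nil))) (.nd (nat_lit 6) 
(.lf (nat_lit 99382) (.g (nat_lit 2152) (.e (nat_lit 3227) (nat_lit 197) (.e (nat_lit 532535) (nat_lit 9) (.e (nat_lit 336176) (nat_lit 10) .nil))) .nil)) 
(.lf (nat_lit 99446) (.g (nat_lit 2634) (.e (nat_lit 3230) (nat_lit 197) (.e (nat_lit 532523) (nat_lit 7) (.e (nat_lit 319534) (nat_lit 16) (.e (nat_lit 286734) (nat_lit 3) (.e (nat_lit 98370) (nat_lit 28) .nil))))) .nil))))) (.nd (nat_lit 4) (.nd (nat_lit 5) (.nd (nat_lit 6) 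
(.lf (nat_lit 99342) (.g (nat_lit 392) (.e (nat_lit 3218) (nat_lit 196) (.e (nat_lit 524319) (nat_lit 11) (.e (nat_lit 442391) (nat_lit 19) (.e (nat_lit 401473) (nat_lit 29) .nil)))) .nil)) 
(.lf (nat_lit 99406) (.g (nat_lit 989) (.e (nat_lit 3230) (nat_lit 197) (.e (nat_lit 532501) (nat_lit 1) (.e (nat_lit 57851) (nat_lit 252) .nil))) .nil))) (.nd (nat_lit 6) 
(.lf (nat_lit 99374) (.g (nat_lit 4035) (.e (nat_lit 3227) (nat_lit 197) (.e (nat_lit 532499) (nat_lit 1) (.e (nat_lit 57847) (nat_lit 252) (.e (nat_lit 57446) (nat_lit 19) .nil)))) .nil)) 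
(.lf (nat_lit 99438) (.g (nat_lit 1828) (.e (nat_lit 3230) (nat_lit 197) (.e (nat_lit 532523) (nat_lit 7) (.e (nat_lit 319530) (nat_lit 16) (.e (nat_lit 286733) (nat_lit 2) .nil)))) .nil)))) (.nd (nat_lit 5) (.nd (nat_lit 6) 
(.lf (nat_lit 99358) (.g (nat_lit 1634) (.e (nat_lit 3223) (nat_lit 196) (.e (nat_lit 524320) (nat_lit 12) (.e (nat_lit 450561) (nat_lit 0) (.e (nat_lit 6830) (nat_lit 367) (.e (nat_lit 57424) (nat_lit 14) .nil))))) .nil)) 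
(.lf (nat_lit 99422) (.g (nat_lit 499) (.e (nat_lit 3230) (nat_lit 197) (.e (nat_lit 532504) (nat_lit 1) (.e (nat_lit 57851) (nat_lit 252) .nil))) .nil))) (.nd (nat_lit 6) 
(.lf (nat_lit 99390) (.g (nat_lit 4035) (.e (nat_lit 3229) (nat_lit 197) (.e (nat_lit 532499) (nat_lit 1) (.e (nat_lit 57847) (nat_lit 252) (.e (nat_lit 57446) (nat_lit 19) .nil)))) .nil)) 
(.lf (nat_lit 99454) (.g (nat_lit 2712) (.e (nat_lit 3230) (nat_lit 197) (.e (nat_lit 532535) (nat_lit 9) (.e (nat_lit 336099) (nat_lit 9) (.e (nat_lit 336020) (nat_lit 3) .nil)))) .nil)))))))) (.nd (nat_lit 1) (.nd (nat_lit 2) (.nd (nat_lit 3) (.nd (nat_lit 4) (.nd (nat_lit 5) (.nd (nat_lit 6) 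
(.lf (nat_lit 99329) (.g (nat_lit 1364) (.e (nat_lit 7936) (nat_lit 195) (.e (nat_lit 516179) (nat_lit 15) (.e (nat_lit 475169) (nat_lit 22) (.e (nat_lit 499924) (nat_lit 10) .nil)))) .nil)) 
(.lf (nat_lit 99393) (.g (nat_lit 558) (.e (nat_lit 3230) (nat_lit 197) (.e (nat_lit 532490) (nat_lit 0) (.e (nat_lit 7936) (nat_lit 332) .nil))) .nil))) (.nd (nat_lit 6) 
(.lf (nat_lit 99361) (.g (nat_lit 1057) (.e (nat_lit 3223) (nat_lit 196) (.e (nat_lit 524322) (nat_lit 12) (.e (nat_lit 450563) (nat_lit 0) (.e (nat_lit 6745) (nat_lit 365) (.e (nat_lit 7936) (nat_lit 90) .nil))))) .nil)) 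
(.lf (nat_lit 99425) (.g (nat_lit 1561) (.e (nat_lit 3230) (nat_lit 197) (.e (nat_lit 532504) (nat_lit 1) (.e (nat_lit 57851) (nat_lit 252) (.e (nat_lit 57445) (nat_lit 19) (.e (nat_lit 393227) (nat_lit 9) (.e (nat_lit 336152) (nat_lit 9) (.e (nat_lit 336246) (nat_lit 15) .nil))))))) (.g (nat_lit 4) .nil .nil))))) (.nd (nat_lit 5) (.nd (nat_lit 6) 
(.lf (nat_lit 99345) (.g (nat_lit 1380) (.e (nat_lit 3218) (nat_lit 196) (.e (nat_lit 524322) (nat_lit 12) (.e (nat_lit 450563) (nat_lit 0) (.e (nat_lit 6808) (nat_lit 365) (.e (nat_lit 7936) (nat_lit 90) (.e (nat_lit 89856) (nat_lit 0) .nil)))))) (.g (nat_lit 4) .nil .nil))) 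
(.lf (nat_lit 99409) (.g (nat_lit 2354) (.e (nat_lit 3230) (nat_lit 197) (.e (nat_lit 532503) (nat_lit 1) (.e (nat_lit 57847) (nat_lit 252) (.e (nat_lit 57446) (nat_lit 19) .nil)))) .nil))) (.nd (nat_lit 6) 
(.lf (nat_lit 99377) (.g (nat_lit 1784) (.e (nat_lit 3227) (nat_lit 197) (.e (nat_lit 532523) (nat_lit 7) (.e (nat_lit 319531) (nat_lit 16) (.e (nat_lit 286733) (nat_lit 2) .nil)))) .nil)) 
(.lf (nat_lit 99441) (.g (nat_lit 2807) (.e (nat_lit 3230) (nat_lit 197) (.e (nat_lit 532523) (nat_lit 7) (.e (nat_lit 319531) (nat_lit 16) (.e (nat_lit 286733) (nat_lit 2) (.e (nat_lit 90169) (nat_lit 13) (.e (nat_lit 172103) (nat_lit 9) (.e (nat_lit 426009) (nat_lit 0) .nil))))))) (.g (nat_lit 4) .nil .nil)))))) (.nd (nat_lit 4) (.nd (nat_lit 5) (.nd (nat_lit 6) 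
(.lf (nat_lit 99337) (.g (nat_lit 2021) (.e (nat_lit 7936) (nat_lit 195) (.e (nat_lit 516179) (nat_lit 15) (.e (nat_lit 475179) (nat_lit 24) (.e (nat_lit 516160) (nat_lit 10) .nil)))) .nil)) 
(.lf (nat_lit 99401) (.g (nat_lit 1651) (.e (nat_lit 3230) (nat_lit 197) (.e (nat_lit 532500) (nat_lit 1) (.e (nat_lit 57851) (nat_lit 252) (.e (nat_lit 57354) (nat_lit 0) .nil)))) .nil))) (.nd (nat_lit 6) 
(.lf (nat_lit 99369) (.g (nat_lit 1493) (.e (nat_lit 3225) (nat_lit 196) (.e (nat_lit 524322) (nat_lit 12) (.e (nat_lit 450563) (nat_lit 0) (.e (nat_lit 6740) (nat_lit 365) (.e (nat_lit 7936) (nat_lit 90) (.e (nat_lit 89856) (nat_lit 0) .nil)))))) (.g (nat_lit 4) .nil .nil))) 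
(.lf (nat_lit 99433) (.g (nat_lit 1644) (.e (nat_lit 3230) (nat_lit 197) (.e (nat_lit 532522) (nat_lit 7) (.e (nat_lit 319530) (nat_lit 16) (.e (nat_lit 286733) (nat_lit 2) .nil)))) .nil)))) (.nd (nat_lit 5) (.nd (nat_lit 6) 
(.lf (nat_lit 99353) (.g (nat_lit 1067) (.e (nat_lit 3222) (nat_lit 196) (.e (nat_lit 524322) (nat_lit 12) (.e (nat_lit 450563) (nat_lit 0) (.e (nat_lit 6808) (nat_lit 365) .nil)))) .nil)) 
(.lf (nat_lit 99417) (.g (nat_lit 2736) (.e (nat_lit 3230) (nat_lit 197) (.e (nat_lit 532503) (nat_lit 1) (.e (nat_lit 57931) (nat_lit 282) (.e (nat_lit 163869) (nat_lit 2) (.e (nat_lit 196664) (nat_lit 13) .nil))))) .nil))) (.nd (nat_lit 6) 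
(.lf (nat_lit 99385) (.g (nat_lit 7436) (.e (nat_lit 3227) (nat_lit 197) (.e (nat_lit 532550) (nat_lit 12) (.e (nat_lit 360475) (nat_lit 8) (.e (nat_lit 557090) (nat_lit 12) .nil)))) .nil)) 
(.lf (nat_lit 99449) (.g (nat_lit 5242) (.e (nat_lit 3230) (nat_lit 197) (.e (nat_lit 532535) (nat_lit 9) (.e (nat_lit 336099) (nat_lit 9) (.e (nat_lit 336013) (nat_lit 2) (.e (nat_lit 90127) (nat_lit 9) .nil))))) .nil)))))) (.nd (nat_lit 3) (.nd (nat_lit 4) (.nd (nat_lit 5) (.nd (nat_lit 6) 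
(.lf (nat_lit 99333) (.g (nat_lit 1271) (.e (nat_lit 7936) (nat_lit 195) (.e (nat_lit 516179) (nat_lit 15) (.e (nat_lit 475169) (nat_lit 22) (.e (nat_lit 507648) (nat_lit 19) .nil)))) .nil)) 
(.lf (nat_lit 99397) (.g (nat_lit 2073) (.e (nat_lit 3230) (nat_lit 197) (.e (nat_lit 532499) (nat_lit 1) (.e (nat_lit 57849) (nat_lit 252) (.e (nat_lit 57407) (nat_lit 12) (.e (nat_lit 336454) (nat_lit 34) .nil))))) .nil))) (.nd (nat_lit 6) 
(.lf (nat_lit 99365) (.g (nat_lit 1398) (.e (nat_lit 3224) (nat_lit 196) (.e (nat_lit 524322) (nat_lit 12) (.e (nat_lit 450563) (nat_lit 0) (.e (nat_lit 6808) (nat_lit 365) (.e (nat_lit 7936) (nat_lit 90) (.e (nat_lit 89856) (nat_lit 0) .nil)))))) (.g (nat_lit 4) .nil .nil))) 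
(.lf (nat_lit 99429) (.g (nat_lit 1688) (.e (nat_lit 3230) (nat_lit 197) (.e (nat_lit 532504) (nat_lit 1) (.e (nat_lit 57851) (nat_lit 252) (.e (nat_lit 57445) (nat_lit 19) (.e (nat_lit 393229) (nat_lit 9) (.e (nat_lit 336088) (nat_lit 9) (.e (nat_lit 336245) (nat_lit 15) .nil))))))) (.g (nat_lit 4) .nil .nil))))) (.nd (nat_lit 5) (.nd (nat_lit 6) 
(.lf (nat_lit 99349) (.g (nat_lit 965) (.e (nat_lit 3221) (nat_lit 196) (.e (nat_lit 524322) (nat_lit 12) (.e (nat_lit 450563) (nat_lit 0) (.e (nat_lit 6745) (nat_lit 365) .nil)))) .nil)) 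
(.lf (nat_lit 99413) (.g (nat_lit 2159) (.e (nat_lit 3230) (nat_lit 197) (.e (nat_lit 532503) (nat_lit 1) (.e (nat_lit 57931) (nat_lit 282) (.e (nat_lit 163866) (nat_lit 2) (.e (nat_lit 196670) (nat_lit 14) .nil))))) .nil))) (.nd (nat_lit 6) 
(.lf (nat_lit 99381) (.g (nat_lit 2783) (.e (nat_lit 3227) (nat_lit 197) (.e (nat_lit 532523) (nat_lit 7) (.e (nat_lit 319534) (nat_lit 16) (.e (nat_lit 286733) (nat_lit 2) (.e (nat_lit 90169) (nat_lit 13) .nil))))) .nil)) 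
(.lf (nat_lit 99445) (.g (nat_lit 2726) (.e (nat_lit 3230) (nat_lit 197) (.e (nat_lit 532523) (nat_lit 7) (.e (nat_lit 319534) (nat_lit 16) (.e (nat_lit 286733) (nat_lit 2) (.e (nat_lit 90169) (nat_lit 13) .nil))))) .nil))))) (.nd (nat_lit 4) (.nd (nat_lit 5) (.nd (nat_lit 6) 
(.lf (nat_lit 99341) (.g (nat_lit 1525) (.e (nat_lit 3216) (nat_lit 196) (.e (nat_lit 524322) (nat_lit 12) (.e (nat_lit 450563) (nat_lit 0) (.e (nat_lit 6830) (nat_lit 367) (.e (nat_lit 57424) (nat_lit 14) .nil))))) .nil)) 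
(.lf (nat_lit 99405) (.g (nat_lit 1635) (.e (nat_lit 3230) (nat_lit 197) (.e (nat_lit 532500) (nat_lit 1) (.e (nat_lit 57851) (nat_lit 252) (.e (nat_lit 57446) (nat_lit 19) .nil)))) .nil))) (.nd (nat_lit 6) 
(.lf (nat_lit 99373) (.g (nat_lit 3224) (.e (nat_lit 3225) (nat_lit 196) (.e (nat_lit 524339) (nat_lit 27) (.e (nat_lit 344133) (nat_lit 26) (.e (nat_lit 557103) (nat_lit 14) (.e (nat_lit 180244) (nat_lit 5) (.e (nat_lit 532579) (nat_lit 26) (.e (nat_lit 426014) (nat_lit 0) .nil))))))) (.g (nat_lit 7) .nil .nil))) 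
(.lf (nat_lit 99437) (.g (nat_lit 2841) (.e (nat_lit 3230) (nat_lit 197) (.e (nat_lit 532522) (nat_lit 7) (.e (nat_lit 319531) (nat_lit 16) (.e (nat_lit 286733) (nat_lit 2) (.e (nat_lit 90178) (nat_lit 15) .nil))))) .nil)))) (.nd (nat_lit 5) (.nd (nat_lit 6) 
(.lf (nat_lit 99357) (.g (nat_lit 223) (.e (nat_lit 3223) (nat_lit 196) (.e (nat_lit 524319) (nat_lit 11) (.e (nat_lit 442391) (nat_lit 19) .nil))) .nil)) 
(.lf (nat_lit 99421) (.g (nat_lit 2388) (.e (nat_lit 3230) (nat_lit 197) (.e (nat_lit 532503) (nat_lit 1) (.e (nat_lit 57931) (nat_lit 282) (.e (nat_lit 163874) (nat_lit 3) (.e (nat_lit 204872) (nat_lit 30) .nil))))) .nil))) (.nd (nat_lit 6) 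
(.lf (nat_lit 99389) (.g (nat_lit 4035) (.e (nat_lit 3228) (nat_lit 197) (.e (nat_lit 532499) (nat_lit 1) (.e (nat_lit 57847) (nat_lit 252) (.e (nat_lit 57446) (nat_lit 19) .nil)))) .nil)) 
(.lf (nat_lit 99453) (.g (nat_lit 4207) (.e (nat_lit 3230) (nat_lit 197) (.e (nat_lit 532535) (nat_lit 9) (.e (nat_lit 336099) (nat_lit 9) (.e (nat_lit 336013) (nat_lit 2) (.e (nat_lit 90134) (nat_lit 9) .nil))))) .nil))))))) (.nd (nat_lit 2) (.nd (nat_lit 3) (.nd (nat_lit 4) (.nd (nat_lit 5) (.nd (nat_lit 6) 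
(.lf (nat_lit 99331) (.g (nat_lit 1366) (.e (nat_lit 7936) (nat_lit 195) (.e (nat_lit 516179) (nat_lit 15) (.e (nat_lit 475169) (nat_lit 22) (.e (nat_lit 499926) (nat_lit 10) .nil)))) .nil)) 
(.lf (nat_lit 99395) (.g (nat_lit 2991) (.e (nat_lit 3230) (nat_lit 197) (.e (nat_lit 532499) (nat_lit 1) (.e (nat_lit 57847) (nat_lit 252) (.e (nat_lit 57411) (nat_lit 12) (.e (nat_lit 336454) (nat_lit 34) (.e (nat_lit 483385) (nat_lit 23) (.e (nat_lit 336260) (nat_lit 15) .nil))))))) (.g (nat_lit 4) .nil .nil)))) (.nd (nat_lit 6) 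
(.lf (nat_lit 99363) (.g (nat_lit 1532) (.e (nat_lit 3224) (nat_lit 196) (.e (nat_lit 524322) (nat_lit 12) (.e (nat_lit 450563) (nat_lit 0) (.e (nat_lit 6740) (nat_lit 365) (.e (nat_lit 7936) (nat_lit 90) (.e (nat_lit 89856) (nat_lit 0) .nil)))))) (.g (nat_lit 4) .nil .nil))) 
(.lf (nat_lit 99427) (.g (nat_lit 2084) (.e (nat_lit 3230) (nat_lit 197) (.e (nat_lit 532504) (nat_lit 1) (.e (nat_lit 57851) (nat_lit 252) (.e (nat_lit 57445) (nat_lit 19) (.e (nat_lit 393229) (nat_lit 9) (.e (nat_lit 336088) (nat_lit 9) (.e (nat_lit 336240) (nat_lit 15) .nil))))))) (.g (nat_lit 5) .nil .nil))))) (.nd (nat_lit 5) (.nd (nat_lit 6) 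
(.lf (nat_lit 99347) (.g (nat_lit 881) (.e (nat_lit 3221) (nat_lit 196) (.e (nat_lit 524320) (nat_lit 12) (.e (nat_lit 450579) (nat_lit 5) (.e (nat_lit 532543) (nat_lit 10) .nil)))) .nil)) 
(.lf (nat_lit 99411) (.g (nat_lit 2119) (.e (nat_lit 3230) (nat_lit 197) (.e (nat_lit 532503) (nat_lit 1) (.e (nat_lit 57929) (nat_lit 282) (.e (nat_lit 163869) (nat_lit 2) (.e (nat_lit 196668) (nat_lit 14) .nil))))) .nil))) (.nd (nat_lit 6) 
(.lf (nat_lit 99379) (.g (nat_lit 1539) (.e (nat_lit 3227) (nat_lit 197) (.e (nat_lit 532523) (nat_lit 7) (.e (nat_lit 319533) (nat_lit 16) (.e (nat_lit 286733) (nat_lit 2) .nil)))) .nil)) 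
(.lf (nat_lit 99443) (.g (nat_lit 2986) (.e (nat_lit 3230) (nat_lit 197) (.e (nat_lit 532523) (nat_lit 7) (.e (nat_lit 319533) (nat_lit 16) (.e (nat_lit 286733) (nat_lit 2) (.e (nat_lit 90169) (nat_lit 13) .nil))))) .nil))))) (.nd (nat_lit 4) (.nd (nat_lit 5) (.nd (nat_lit 6) 
(.lf (nat_lit 99339) (.g (nat_lit 2025) (.e (nat_lit 7936) (nat_lit 195) (.e (nat_lit 516179) (nat_lit 15) (.e (nat_lit 475185) (nat_lit 29) (.e (nat_lit 557087) (nat_lit 11) .nil)))) .nil)) 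
(.lf (nat_lit 99403) (.g (nat_lit 2422) (.e (nat_lit 3230) (nat_lit 197) (.e (nat_lit 532500) (nat_lit 1) (.e (nat_lit 57851) (nat_lit 252) (.e (nat_lit 57406) (nat_lit 12) (.e (nat_lit 336456) (nat_lit 34) .nil))))) .nil))) (.nd (nat_lit 6) 
(.lf (nat_lit 99371) (.g (nat_lit 1359) (.e (nat_lit 3225) (nat_lit 196) (.e (nat_lit 524322) (nat_lit 12) (.e (nat_lit 450563) (nat_lit 0) (.e (nat_lit 6808) (nat_lit 365) (.e (nat_lit 7936) (nat_lit 90) (.e (nat_lit 89856) (nat_lit 0) .nil)))))) (.g (nat_lit 4) .nil .nil))) 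
(.lf (nat_lit 99435) (.g (nat_lit 2672) (.e (nat_lit 3230) (nat_lit 197) (.e (nat_lit 532522) (nat_lit 7) (.e (nat_lit 319530) (nat_lit 16) (.e (nat_lit 286733) (nat_lit 2) (.e (nat_lit 90178) (nat_lit 15) .nil))))) .nil)))) (.nd (nat_lit 5) (.nd (nat_lit 6) 
(.lf (nat_lit 99355) (.g (nat_lit 2197) (.e (nat_lit 3222) (nat_lit 196) (.e (nat_lit 524322) (nat_lit 12) (.e (nat_lit 450588) (nat_lit 10) (.e (nat_lit 573470) (nat_lit 11) .nil)))) .nil)) 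
(.lf (nat_lit 99419) (.g (nat_lit 2741) (.e (nat_lit 3230) (nat_lit 197) (.e (nat_lit 532503) (nat_lit 1) (.e (nat_lit 57931) (nat_lit 282) (.e (nat_lit 163874) (nat_lit 3) (.e (nat_lit 204862) (nat_lit 27) .nil))))) .nil))) (.nd (nat_lit 6) 
(.lf (nat_lit 99387) (.g (nat_lit 6349) (.e (nat_lit 3227) (nat_lit 197) (.e (nat_lit 532550) (nat_lit 12) (.e (nat_lit 360475) (nat_lit 8) (.e (nat_lit 557094) (nat_lit 12) .nil)))) .nil)) 
(.lf (nat_lit 99451) (.g (nat_lit 5087) (.e (nat_lit 3230) (nat_lit 197) (.e (nat_lit 532535) (nat_lit 9) (.e (nat_lit 336099) (nat_lit 9) (.e (nat_lit 336013) (nat_lit 2) (.e (nat_lit 90130) (nat_lit 9) .nil))))) .nil)))))) (.nd (nat_lit 3) (.nd (nat_lit 4) (.nd (nat_lit 5) (.nd (nat_lit 6) 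
(.lf (nat_lit 99335) (.g (nat_lit 1468) (.e (nat_lit 7936) (nat_lit 195) (.e (nat_lit 516179) (nat_lit 15) (.e (nat_lit 475177) (nat_lit 24) (.e (nat_lit 516159) (nat_lit 10) .nil)))) .nil)) 
(.lf (nat_lit 99399) (.g (nat_lit 2093) (.e (nat_lit 3230) (nat_lit 197) (.e (nat_lit 532499) (nat_lit 1) (.e (nat_lit 57927) (nat_lit 282) (.e (nat_lit 163868) (nat_lit 2) (.e (nat_lit 196670) (nat_lit 14) .nil))))) .nil))) (.nd (nat_lit 6) 
(.lf (nat_lit 99367) (.g (nat_lit 3331) (.e (nat_lit 3224) (nat_lit 196) (.e (nat_lit 524339) (nat_lit 27) (.e (nat_lit 344133) (nat_lit 26) (.e (nat_lit 557103) (nat_lit 14) (.e (nat_lit 180244) (nat_lit 5) (.e (nat_lit 532579) (nat_lit 26) (.e (nat_lit 426035) (nat_lit 0) .nil))))))) (.g (nat_lit 7) .nil .nil))) 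
(.lf (nat_lit 99431) (.g (nat_lit 1550) (.e (nat_lit 3230) (nat_lit 197) (.e (nat_lit 532504) (nat_lit 1) (.e (nat_lit 57852) (nat_lit 252) (.e (nat_lit 57445) (nat_lit 19) .nil)))) .nil)))) (.nd (nat_lit 5) (.nd (nat_lit 6) 
(.lf (nat_lit 99351) (.g (nat_lit 200) (.e (nat_lit 3222) (nat_lit 196) (.e (nat_lit 524320) (nat_lit 12) (.e (nat_lit 450579) (nat_lit 5) .nil))) .nil)) 
(.lf (nat_lit 99415) (.g (nat_lit 2247) (.e (nat_lit 3230) (nat_lit 197) (.e (nat_lit 532503) (nat_lit 1) (.e (nat_lit 57931) (nat_lit 282) (.e (nat_lit 163867) (nat_lit 2) (.e (nat_lit 196668) (nat_lit 14) .nil))))) .nil))) (.nd (nat_lit 6) 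
(.lf (nat_lit 99383) (.g (nat_lit 5408) (.e (nat_lit 3227) (nat_lit 197) (.e (nat_lit 532550) (nat_lit 12) (.e (nat_lit 360474) (nat_lit 8) (.e (nat_lit 557091) (nat_lit 12) .nil)))) .nil)) 
(.lf (nat_lit 99447) (.g (nat_lit 1719) (.e (nat_lit 3230) (nat_lit 197) (.e (nat_lit 532523) (nat_lit 7) (.e (nat_lit 319534) (nat_lit 16) (.e (nat_lit 286735) (nat_lit 3) .nil)))) .nil))))) (.nd (nat_lit 4) (.nd (nat_lit 5) (.nd (nat_lit 6) 
(.lf (nat_lit 99343) (.g (nat_lit 1514) (.e (nat_lit 3218) (nat_lit 196) (.e (nat_lit 524322) (nat_lit 12) (.e (nat_lit 450563) (nat_lit 0) (.e (nat_lit 6740) (nat_lit 365) (.e (nat_lit 7936) (nat_lit 90) (.e (nat_lit 89856) (nat_lit 0) .nil)))))) (.g (nat_lit 4) .nil .nil))) 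
(.lf (nat_lit 99407) (.g (nat_lit 2296) (.e (nat_lit 3230) (nat_lit 197) (.e (nat_lit 532501) (nat_lit 1) (.e (nat_lit 57851) (nat_lit 252) (.e (nat_lit 57354) (nat_lit 0) (.e (nat_lit 1799) (nat_lit 119) .nil))))) .nil))) (.nd (nat_lit 6) 
(.lf (nat_lit 99375) (.g (nat_lit 1838) (.e (nat_lit 3227) (nat_lit 197) (.e (nat_lit 532523) (nat_lit 7) (.e (nat_lit 319530) (nat_lit 16) (.e (nat_lit 286733) (nat_lit 2) .nil)))) .nil)) 
(.lf (nat_lit 99439) (.g (nat_lit 3014) (.e (nat_lit 3230) (nat_lit 197) (.e (nat_lit 532523) (nat_lit 7) (.e (nat_lit 319530) (nat_lit 16) (.e (nat_lit 286733) (nat_lit 2) (.e (nat_lit 90169) (nat_lit 13) (.e (nat_lit 172103) (nat_lit 9) (.e (nat_lit 426009) (nat_lit 0) .nil))))))) (.g (nat_lit 4) .nil .nil))))) (.nd (nat_lit 5) (.nd (nat_lit 6) 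
(.lf (nat_lit 99359) (.g (nat_lit 1325) (.e (nat_lit 3223) (nat_lit 196) (.e (nat_lit 524320) (nat_lit 12) (.e (nat_lit 450564) (nat_lit 0) (.e (nat_lit 6792) (nat_lit 365) (.e (nat_lit 1219) (nat_lit 90) .nil))))) .nil)) 
(.lf (nat_lit 99423) (.g (nat_lit 2242) (.e (nat_lit 3230) (nat_lit 197) (.e (nat_lit 532504) (nat_lit 1) (.e (nat_lit 57851) (nat_lit 252) (.e (nat_lit 57354) (nat_lit 0) (.e (nat_lit 1799) (nat_lit 119) (.e (nat_lit 516131) (nat_lit 3) (.e (nat_lit 221212) (nat_lit 22) (.e (nat_lit 196665) (nat_lit 13) (.e (nat_lit 65636) (nat_lit 15) .nil))))))))) (.g (nat_lit 5) .nil .nil)))) (.nd (nat_lit 6) 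
(.lf (nat_lit 99391) (.g (nat_lit 5493) (.e (nat_lit 3229) (nat_lit 197) (.e (nat_lit 532550) (nat_lit 12) (.e (nat_lit 360474) (nat_lit 8) (.e (nat_lit 557091) (nat_lit 12) .nil)))) .nil)) 
(.lf (nat_lit 99455) (.g (nat_lit 2712) (.e (nat_lit 3230) (nat_lit 197) (.e (nat_lit 532535) (nat_lit 9) (.e (nat_lit 336099) (nat_lit 9) (.e (nat_lit 336023) (nat_lit 3) .nil)))) .nil)))))))))

noncomputable def tv1361 : DT := (.nd (nat_lit 0) (.nd (nat_lit 1) (.nd (nat_lit 2) (.nd (nat_lit 3) (.nd (nat_lit 4) (.nd (nat_lit 5) (.nd (nat_lit 6) 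
(.lf (nat_lit 99456) (.g (nat_lit 2712) (.e (nat_lit 3230) (nat_lit 197) (.e (nat_lit 532535) (nat_lit 9) (.e (nat_lit 336099) (nat_lit 9) (.e (nat_lit 336024) (nat_lit 3) .nil)))) .nil)) 
(.lf (nat_lit 99520) (.g (nat_lit 4953) (.e (nat_lit 3231) (nat_lit 197) (.e (nat_lit 532550) (nat_lit 12) (.e (nat_lit 360475) (nat_lit 8) (.e (nat_lit 557087) (nat_lit 11) .nil)))) .nil))) (.nd (nat_lit 6) 
(.lf (nat_lit 99488) (.g (nat_lit 2198) (.e (nat_lit 3230) (nat_lit 197) (.e (nat_lit 532566) (nat_lit 15) (.e (nat_lit 385094) (nat_lit 49) (.e (nat_lit 778317) (nat_lit 3) (.e (nat_lit 57477) (nat_lit 28) (.e (nat_lit 557107) (nat_lit 15) (.e (nat_lit 188439) (nat_lit 20) .nil))))))) (.g (nat_lit 6) .nil .nil))) 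
(.lf (nat_lit 99552) (.g (nat_lit 2135) (.e (nat_lit 3233) (nat_lit 197) (.e (nat_lit 532499) (nat_lit 1) (.e (nat_lit 57847) (nat_lit 252) (.e (nat_lit 57445) (nat_lit 19) .nil)))) .nil)))) (.nd (nat_lit 5) (.nd (nat_lit 6) 
(.lf (nat_lit 99472) (.g (nat_lit 1281) (.e (nat_lit 3230) (nat_lit 197) (.e (nat_lit 532560) (nat_lit 14) (.e (nat_lit 376869) (nat_lit 23) (.e (nat_lit 98349) (nat_lit 24) .nil)))) .nil)) 
(.lf (nat_lit 99536) (.g (nat_lit 2040) (.e (nat_lit 3232) (nat_lit 197) (.e (nat_lit 532504) (nat_lit 1) (.e (nat_lit 57851) (nat_lit 252) (.e (nat_lit 57446) (nat_lit 19) .nil)))) .nil))) (.nd (nat_lit 6) 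
(.lf (nat_lit 99504) (.g (nat_lit 2447) (.e (nat_lit 3231) (nat_lit 197) (.e (nat_lit 532503) (nat_lit 1) (.e (nat_lit 57847) (nat_lit 252) (.e (nat_lit 57446) (nat_lit 19) .nil)))) .nil)) 
(.lf (nat_lit 99568) (.g (nat_lit 1844) (.e (nat_lit 3233) (nat_lit 197) (.e (nat_lit 532501) (nat_lit 1) (.e (nat_lit 57852) (nat_lit 252) (.e (nat_lit 57445) (nat_lit 19) .nil)))) .nil))))) (.nd (nat_lit 4) (.nd (nat_lit 5) (.nd (nat_lit 6) 
(.lf (nat_lit 99464) (.g (nat_lit 5370) (.e (nat_lit 3230) (nat_lit 197) (.e (nat_lit 532550) (nat_lit 12) (.e (nat_lit 360474) (nat_lit 8) (.e (nat_lit 557091) (nat_lit 12) .nil)))) .nil)) 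
(.lf (nat_lit 99528) (.g (nat_lit 2119) (.e (nat_lit 3232) (nat_lit 197) (.e (nat_lit 532499) (nat_lit 1) (.e (nat_lit 57847) (nat_lit 252) (.e (nat_lit 57448) (nat_lit 19) .nil)))) .nil))) (.nd (nat_lit 6) 
(.lf (nat_lit 99496) (.g (nat_lit 1784) (.e (nat_lit 3231) (nat_lit 197) (.e (nat_lit 532500) (nat_lit 1) (.e (nat_lit 57851) (nat_lit 252) (.e (nat_lit 57406) (nat_lit 12) .nil)))) .nil)) 
(.lf (nat_lit 99560) (.g (nat_lit 1338) (.e (nat_lit 3233) (nat_lit 197) (.e (nat_lit 532500) (nat_lit 1) (.e (nat_lit 57851) (nat_lit 252) (.e (nat_lit 57445) (nat_lit 19) .nil)))) .nil)))) (.nd (nat_lit 5) (.nd (nat_lit 6) 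
(.lf (nat_lit 99480) (.g (nat_lit 3547) (.e (nat_lit 3230) (nat_lit 197) (.e (nat_lit 532563) (nat_lit 15) (.e (nat_lit 385094) (nat_lit 49) (.e (nat_lit 778317) (nat_lit 3) (.e (nat_lit 57477) (nat_lit 28) (.e (nat_lit 557108) (nat_lit 15) (.e (nat_lit 188433) (nat_lit 20) .nil))))))) (.g (nat_lit 6) .nil .nil))) 
(.lf (nat_lit 99544) (.g (nat_lit 2074) (.e (nat_lit 3233) (nat_lit 197) (.e (nat_lit 532481) (nat_lit 0) (.e (nat_lit 2044) (nat_lit 142) (.e (nat_lit 704734) (nat_lit 11) (.e (nat_lit 16416) (nat_lit 3) (.e (nat_lit 204876) (nat_lit 31) (.e (nat_lit 376833) (nat_lit 0) .nil))))))) (.g (nat_lit 5) .nil .nil)))) (.nd (nat_lit 6) 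
(.lf (nat_lit 99512) (.g (nat_lit 1687) (.e (nat_lit 3231) (nat_lit 197) (.e (nat_lit 532506) (nat_lit 2) (.e (nat_lit 106536) (nat_lit 11) (.e (nat_lit 16416) (nat_lit 3) (.e (nat_lit 204877) (nat_lit 31) (.e (nat_lit 376833) (nat_lit 0) .nil)))))) (.g (nat_lit 6) .nil .nil))) 
(.lf (nat_lit 99576) (.g (nat_lit 962) (.e (nat_lit 3233) (nat_lit 197) (.e (nat_lit 532504) (nat_lit 1) (.e (nat_lit 57851) (nat_lit 252) (.e (nat_lit 57445) (nat_lit 19) .nil)))) .nil)))))) (.nd (nat_lit 3) (.nd (nat_lit 4) (.nd (nat_lit 5) (.nd (nat_lit 6) 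
(.lf (nat_lit 99460) (.g (nat_lit 1115) (.e (nat_lit 3230) (nat_lit 197) (.e (nat_lit 532535) (nat_lit 9) (.e (nat_lit 336295) (nat_lit 15) .nil))) .nil)) 
(.lf (nat_lit 99524) (.g (nat_lit 2232) (.e (nat_lit 3232) (nat_lit 197) (.e (nat_lit 532499) (nat_lit 1) (.e (nat_lit 57847) (nat_lit 252) (.e (nat_lit 57407) (nat_lit 12) .nil)))) .nil))) (.nd (nat_lit 6) 
(.lf (nat_lit 99492) (.g (nat_lit 2130) (.e (nat_lit 3231) (nat_lit 197) (.e (nat_lit 532499) (nat_lit 1) (.e (nat_lit 57847) (nat_lit 252) (.e (nat_lit 57446) (nat_lit 19) .nil)))) .nil)) 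
(.lf (nat_lit 99556) (.g (nat_lit 616) (.e (nat_lit 3233) (nat_lit 197) (.e (nat_lit 532499) (nat_lit 1) (.e (nat_lit 57849) (nat_lit 252) .nil))) .nil)))) (.nd (nat_lit 5) (.nd (nat_lit 6) 
(.lf (nat_lit 99476) (.g (nat_lit 2764) (.e (nat_lit 3230) (nat_lit 197) (.e (nat_lit 532563) (nat_lit 15) (.e (nat_lit 385094) (nat_lit 49) (.e (nat_lit 778317) (nat_lit 3) (.e (nat_lit 57476) (nat_lit 28) (.e (nat_lit 557107) (nat_lit 15) (.e (nat_lit 188439) (nat_lit 20) .nil))))))) (.g (nat_lit 4) .nil .nil))) 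
(.lf (nat_lit 99540) (.g (nat_lit 1924) (.e (nat_lit 3232) (nat_lit 197) (.e (nat_lit 532559) (nat_lit 14) (.e (nat_lit 376865) (nat_lit 22) (.e (nat_lit 90185) (nat_lit 17) (.e (nat_lit 237585) (nat_lit 1) .nil))))) .nil))) (.nd (nat_lit 6) 
(.lf (nat_lit 99508) (.g (nat_lit 1620) (.e (nat_lit 3231) (nat_lit 197) (.e (nat_lit 532504) (nat_lit 1) (.e (nat_lit 57851) (nat_lit 252) (.e (nat_lit 57445) (nat_lit 19) (.e (nat_lit 401152) (nat_lit 14) .nil))))) .nil)) 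
(.lf (nat_lit 99572) (.g (nat_lit 2444) (.e (nat_lit 3233) (nat_lit 197) (.e (nat_lit 532503) (nat_lit 1) (.e (nat_lit 57847) (nat_lit 252) (.e (nat_lit 57446) (nat_lit 19) .nil)))) .nil))))) (.nd (nat_lit 4) (.nd (nat_lit 5) (.nd (nat_lit 6) 
(.lf (nat_lit 99468) (.g (nat_lit 3999) (.e (nat_lit 3230) (nat_lit 197) (.e (nat_lit 532550) (nat_lit 12) (.e (nat_lit 360475) (nat_lit 8) (.e (nat_lit 557086) (nat_lit 11) .nil)))) .nil)) 
(.lf (nat_lit 99532) (.g (nat_lit 1910) (.e (nat_lit 3232) (nat_lit 197) (.e (nat_lit 532501) (nat_lit 1) (.e (nat_lit 57851) (nat_lit 252) (.e (nat_lit 57446) (nat_lit 19) .nil)))) .nil))) (.nd (nat_lit 6) 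
(.lf (nat_lit 99500) (.g (nat_lit 2096) (.e (nat_lit 3231) (nat_lit 197) (.e (nat_lit 532501) (nat_lit 1) (.e (nat_lit 57851) (nat_lit 252) (.e (nat_lit 57445) (nat_lit 19) (.e (nat_lit 401152) (nat_lit 11) (.e (nat_lit 352267) (nat_lit 0) .nil)))))) (.g (nat_lit 4) .nil .nil))) 
(.lf (nat_lit 99564) (.g (nat_lit 1305) (.e (nat_lit 3233) (nat_lit 197) (.e (nat_lit 532500) (nat_lit 1) (.e (nat_lit 57854) (nat_lit 252) (.e (nat_lit 57447) (nat_lit 19) .nil)))) .nil)))) (.nd (nat_lit 5) (.nd (nat_lit 6) 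
(.lf (nat_lit 99484) (.g (nat_lit 2409) (.e (nat_lit 3230) (nat_lit 197) (.e (nat_lit 532563) (nat_lit 15) (.e (nat_lit 385094) (nat_lit 49) (.e (nat_lit 778317) (nat_lit 3) (.e (nat_lit 57480) (nat_lit 28) (.e (nat_lit 557107) (nat_lit 15) (.e (nat_lit 188441) (nat_lit 20) .nil))))))) (.g (nat_lit 4) .nil .nil))) 
(.lf (nat_lit 99548) (.g (nat_lit 1799) (.e (nat_lit 3233) (nat_lit 197) (.e (nat_lit 532483) (nat_lit 0) (.e (nat_lit 2078) (nat_lit 142) (.e (nat_lit 704734) (nat_lit 11) (.e (nat_lit 16416) (nat_lit 3) (.e (nat_lit 204877) (nat_lit 31) (.e (nat_lit 376833) (nat_lit 0) .nil))))))) (.g (nat_lit 6) .nil .nil)))) (.nd (nat_lit 6) 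
(.lf (nat_lit 99516) (.g (nat_lit 1443) (.e (nat_lit 3231) (nat_lit 197) (.e (nat_lit 532511) (nat_lit 2) (.e (nat_lit 106536) (nat_lit 11) (.e (nat_lit 16417) (nat_lit 3) (.e (nat_lit 204877) (nat_lit 31) (.e (nat_lit 376833) (nat_lit 0) .nil)))))) (.g (nat_lit 0) .nil .nil))) 
(.lf (nat_lit 99580) (.g (nat_lit 662) (.e (nat_lit 3233) (nat_lit 197) (.e (nat_lit 532504) (nat_lit 1) (.e (nat_lit 57853) (nat_lit 252) .nil))) .nil))))))) (.nd (nat_lit 2) (.nd (nat_lit 3) (.nd (nat_lit 4) (.nd (nat_lit 5) (.nd (nat_lit 6) 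
(.lf (nat_lit 99458) (.g (nat_lit 3283) (.e (nat_lit 3230) (nat_lit 197) (.e (nat_lit 532535) (nat_lit 9) (.e (nat_lit 336099) (nat_lit 9) (.e (nat_lit 336028) (nat_lit 3) (.e (nat_lit 98350) (nat_lit 24) .nil))))) .nil)) 
(.lf (nat_lit 99522) (.g (nat_lit 2382) (.e (nat_lit 3231) (nat_lit 197) (.e (nat_lit 532563) (nat_lit 15) (.e (nat_lit 385066) (nat_lit 26) (.e (nat_lit 532530) (nat_lit 9) (.e (nat_lit 336326) (nat_lit 18) .nil))))) .nil))) (.nd (nat_lit 6) 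
(.lf (nat_lit 99490) (.g (nat_lit 2227) (.e (nat_lit 3231) (nat_lit 197) (.e (nat_lit 532499) (nat_lit 1) (.e (nat_lit 57847) (nat_lit 252) (.e (nat_lit 57407) (nat_lit 12) .nil)))) .nil)) 
(.lf (nat_lit 99554) (.g (nat_lit 1918) (.e (nat_lit 3233) (nat_lit 197) (.e (nat_lit 532499) (nat_lit 1) (.e (nat_lit 57847) (nat_lit 252) (.e (nat_lit 57448) (nat_lit 19) .nil)))) .nil)))) (.nd (nat_lit 5) (.nd (nat_lit 6) 
(.lf (nat_lit 99474) (.g (nat_lit 2514) (.e (nat_lit 3230) (nat_lit 197) (.e (nat_lit 532563) (nat_lit 15) (.e (nat_lit 385066) (nat_lit 26) (.e (nat_lit 532534) (nat_lit 9) (.e (nat_lit 336326) (nat_lit 18) .nil))))) .nil)) 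
(.lf (nat_lit 99538) (.g (nat_lit 1309) (.e (nat_lit 3232) (nat_lit 197) (.e (nat_lit 532506) (nat_lit 2) (.e (nat_lit 106536) (nat_lit 11) (.e (nat_lit 16416) (nat_lit 3) (.e (nat_lit 204877) (nat_lit 31) .nil))))) .nil))) (.nd (nat_lit 6) 
(.lf (nat_lit 99506) (.g (nat_lit 2400) (.e (nat_lit 3231) (nat_lit 197) (.e (nat_lit 532503) (nat_lit 1) (.e (nat_lit 57931) (nat_lit 282) (.e (nat_lit 163867) (nat_lit 2) (.e (nat_lit 196668) (nat_lit 14) .nil))))) .nil)) 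
(.lf (nat_lit 99570) (.g (nat_lit 692) (.e (nat_lit 3233) (nat_lit 197) (.e (nat_lit 532503) (nat_lit 1) (.e (nat_lit 57844) (nat_lit 252) .nil))) .nil))))) (.nd (nat_lit 4) (.nd (nat_lit 5) (.nd (nat_lit 6) 
(.lf (nat_lit 99466) (.g (nat_lit 2730) (.e (nat_lit 3230) (nat_lit 197) (.e (nat_lit 532550) (nat_lit 12) (.e (nat_lit 360474) (nat_lit 8) (.e (nat_lit 557094) (nat_lit 12) .nil)))) .nil)) 
(.lf (nat_lit 99530) (.g (nat_lit 650) (.e (nat_lit 3232) (nat_lit 197) (.e (nat_lit 532500) (nat_lit 1) (.e (nat_lit 57851) (nat_lit 252) .nil))) .nil))) (.nd (nat_lit 6) 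
(.lf (nat_lit 99498) (.g (nat_lit 1654) (.e (nat_lit 3231) (nat_lit 197) (.e (nat_lit 532500) (nat_lit 1) (.e (nat_lit 57851) (nat_lit 252) (.e (nat_lit 57446) (nat_lit 19) .nil)))) .nil)) 
(.lf (nat_lit 99562) (.g (nat_lit 1381) (.e (nat_lit 3233) (nat_lit 197) (.e (nat_lit 532500) (nat_lit 1) (.e (nat_lit 57851) (nat_lit 252) (.e (nat_lit 57446) (nat_lit 19) .nil)))) .nil)))) (.nd (nat_lit 5) (.nd (nat_lit 6) 
(.lf (nat_lit 99482) (.g (nat_lit 2220) (.e (nat_lit 3230) (nat_lit 197) (.e (nat_lit 532563) (nat_lit 15) (.e (nat_lit 385094) (nat_lit 49) (.e (nat_lit 778317) (nat_lit 3) (.e (nat_lit 57480) (nat_lit 28) .nil))))) .nil)) 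
(.lf (nat_lit 99546) (.g (nat_lit 1780) (.e (nat_lit 3233) (nat_lit 197) (.e (nat_lit 532483) (nat_lit 0) (.e (nat_lit 2044) (nat_lit 142) (.e (nat_lit 704734) (nat_lit 11) (.e (nat_lit 16416) (nat_lit 3) (.e (nat_lit 204876) (nat_lit 31) (.e (nat_lit 376833) (nat_lit 0) .nil))))))) (.g (nat_lit 6) .nil .nil)))) (.nd (nat_lit 6) 
(.lf (nat_lit 99514) (.g (nat_lit 1889) (.e (nat_lit 3231) (nat_lit 197) (.e (nat_lit 532511) (nat_lit 2) (.e (nat_lit 106536) (nat_lit 11) (.e (nat_lit 16416) (nat_lit 3) (.e (nat_lit 204877) (nat_lit 31) (.e (nat_lit 376833) (nat_lit 0) .nil)))))) (.g (nat_lit 5) .nil .nil))) 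
(.lf (nat_lit 99578) (.g (nat_lit 1530) (.e (nat_lit 3233) (nat_lit 197) (.e (nat_lit 532504) (nat_lit 1) (.e (nat_lit 57852) (nat_lit 252) (.e (nat_lit 57445) (nat_lit 19) .nil)))) .nil)))))) (.nd (nat_lit 3) (.nd (nat_lit 4) (.nd (nat_lit 5) (.nd (nat_lit 6) 
(.lf (nat_lit 99462) (.g (nat_lit 4885) (.e (nat_lit 3230) (nat_lit 197) (.e (nat_lit 532550) (nat_lit 12) (.e (nat_lit 360474) (nat_lit 8) (.e (nat_lit 557088) (nat_lit 12) .nil)))) .nil)) 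
(.lf (nat_lit 99526) (.g (nat_lit 2100) (.e (nat_lit 3232) (nat_lit 197) (.e (nat_lit 532499) (nat_lit 1) (.e (nat_lit 57847) (nat_lit 252) (.e (nat_lit 57446) (nat_lit 19) .nil)))) .nil))) (.nd (nat_lit 6) 
(.lf (nat_lit 99494) (.g (nat_lit 2113) (.e (nat_lit 3231) (nat_lit 197) (.e (nat_lit 532499) (nat_lit 1) (.e (nat_lit 57847) (nat_lit 252) (.e (nat_lit 57448) (nat_lit 19) .nil)))) .nil)) 
(.lf (nat_lit 99558) (.g (nat_lit 2346) (.e (nat_lit 3233) (nat_lit 197) (.e (nat_lit 532500) (nat_lit 1) (.e (nat_lit 57851) (nat_lit 252) (.e (nat_lit 57406) (nat_lit 12) (.e (nat_lit 336367) (nat_lit 27) (.e (nat_lit 426542) (nat_lit 29) (.e (nat_lit 360192) (nat_lit 0) .nil))))))) (.g (nat_lit 5) .nil .nil))))) (.nd (nat_lit 5) (.nd (nat_lit 6) 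
(.lf (nat_lit 99478) (.g (nat_lit 3504) (.e (nat_lit 3230) (nat_lit 197) (.e (nat_lit 532563) (nat_lit 15) (.e (nat_lit 385094) (nat_lit 49) (.e (nat_lit 778317) (nat_lit 3) (.e (nat_lit 57476) (nat_lit 28) (.e (nat_lit 557108) (nat_lit 15) (.e (nat_lit 188434) (nat_lit 20) .nil))))))) (.g (nat_lit 5) .nil .nil))) 
(.lf (nat_lit 99542) (.g (nat_lit 2413) (.e (nat_lit 3232) (nat_lit 197) (.e (nat_lit 532563) (nat_lit 15) (.e (nat_lit 385066) (nat_lit 26) (.e (nat_lit 532534) (nat_lit 9) (.e (nat_lit 336326) (nat_lit 18) .nil))))) .nil))) (.nd (nat_lit 6) 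
(.lf (nat_lit 99510) (.g (nat_lit 536) (.e (nat_lit 3231) (nat_lit 197) (.e (nat_lit 532504) (nat_lit 1) (.e (nat_lit 57852) (nat_lit 252) .nil))) .nil)) 
(.lf (nat_lit 99574) (.g (nat_lit 1711) (.e (nat_lit 3233) (nat_lit 197) (.e (nat_lit 532503) (nat_lit 1) (.e (nat_lit 57848) (nat_lit 252) (.e (nat_lit 57445) (nat_lit 19) (.e (nat_lit 401152) (nat_lit 14) .nil))))) .nil))))) (.nd (nat_lit 4) (.nd (nat_lit 5) (.nd (nat_lit 6) 
(.lf (nat_lit 99470) (.g (nat_lit 6450) (.e (nat_lit 3230) (nat_lit 197) (.e (nat_lit 532550) (nat_lit 12) (.e (nat_lit 360475) (nat_lit 8) (.e (nat_lit 557093) (nat_lit 12) .nil)))) .nil)) 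
(.lf (nat_lit 99534) (.g (nat_lit 2779) (.e (nat_lit 3232) (nat_lit 197) (.e (nat_lit 532503) (nat_lit 1) (.e (nat_lit 57931) (nat_lit 282) (.e (nat_lit 163869) (nat_lit 2) (.e (nat_lit 196668) (nat_lit 14) .nil))))) .nil))) (.nd (nat_lit 6) 
(.lf (nat_lit 99502) (.g (nat_lit 2031) (.e (nat_lit 3231) (nat_lit 197) (.e (nat_lit 532501) (nat_lit 1) (.e (nat_lit 57851) (nat_lit 252) (.e (nat_lit 57446) (nat_lit 19) (.e (nat_lit 401152) (nat_lit 11) (.e (nat_lit 352267) (nat_lit 0) .nil)))))) (.g (nat_lit 4) .nil .nil))) 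
(.lf (nat_lit 99566) (.g (nat_lit 1712) (.e (nat_lit 3233) (nat_lit 197) (.e (nat_lit 532501) (nat_lit 1) (.e (nat_lit 57851) (nat_lit 252) (.e (nat_lit 57445) (nat_lit 19) (.e (nat_lit 401152) (nat_lit 14) (.e (nat_lit 376832) (nat_lit 0) .nil)))))) (.g (nat_lit 4) .nil .nil))))) (.nd (nat_lit 5) (.nd (nat_lit 6) 
(.lf (nat_lit 99486) (.g (nat_lit 4627) (.e (nat_lit 3230) (nat_lit 197) (.e (nat_lit 532563) (nat_lit 15) (.e (nat_lit 385094) (nat_lit 49) (.e (nat_lit 778317) (nat_lit 3) (.e (nat_lit 57480) (nat_lit 28) (.e (nat_lit 557109) (nat_lit 15) (.e (nat_lit 188433) (nat_lit 20) .nil))))))) (.g (nat_lit 6) .nil .nil))) 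
(.lf (nat_lit 99550) (.g (nat_lit 2722) (.e (nat_lit 3233) (nat_lit 197) (.e (nat_lit 532499) (nat_lit 1) (.e (nat_lit 57847) (nat_lit 252) (.e (nat_lit 57407) (nat_lit 12) (.e (nat_lit 336367) (nat_lit 27) .nil))))) .nil))) (.nd (nat_lit 6) 
(.lf (nat_lit 99518) (.g (nat_lit 4739) (.e (nat_lit 3231) (nat_lit 197) (.e (nat_lit 532550) (nat_lit 12) (.e (nat_lit 360474) (nat_lit 8) (.e (nat_lit 557093) (nat_lit 12) (.e (nat_lit 164023) (nat_lit 46) .nil))))) .nil)) 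
(.lf (nat_lit 99582) (.g (nat_lit 1807) (.e (nat_lit 3233) (nat_lit 197) (.e (nat_lit 532506) (nat_lit 2) (.e (nat_lit 106536) (nat_lit 11) (.e (nat_lit 16416) (nat_lit 3) (.e (nat_lit 204877) (nat_lit 31) (.e (nat_lit 376833) (nat_lit 0) .nil)))))) (.g (nat_lit 6) .nil .nil))))))))) (.nd (nat_lit 1) (.nd (nat_lit 2) (.nd (nat_lit 3) (.nd (nat_lit 4) (.nd (nat_lit 5) (.nd (nat_lit 6) 
(.lf (nat_lit 99457) (.g (nat_lit 3303) (.e (nat_lit 3230) (nat_lit 197) (.e (nat_lit 532535) (nat_lit 9) (.e (nat_lit 336099) (nat_lit 9) (.e (nat_lit 336028) (nat_lit 3) (.e (nat_lit 98349) (nat_lit 24) .nil))))) .nil)) 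
(.lf (nat_lit 99521) (.g (nat_lit 914) (.e (nat_lit 3231) (nat_lit 197) (.e (nat_lit 532563) (nat_lit 15) (.e (nat_lit 385066) (nat_lit 26) .nil))) .nil))) (.nd (nat_lit 6) 
(.lf (nat_lit 99489) (.g (nat_lit 4390) (.e (nat_lit 3230) (nat_lit 197) (.e (nat_lit 532566) (nat_lit 15) (.e (nat_lit 385094) (nat_lit 49) (.e (nat_lit 778317) (nat_lit 3) (.e (nat_lit 57480) (nat_lit 28) (.e (nat_lit 557109) (nat_lit 15) (.e (nat_lit 188434) (nat_lit 20) .nil))))))) (.g (nat_lit 7) .nil .nil))) 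
(.lf (nat_lit 99553) (.g (nat_lit 2107) (.e (nat_lit 3233) (nat_lit 197) (.e (nat_lit 532499) (nat_lit 1) (.e (nat_lit 57847) (nat_lit 252) (.e (nat_lit 57447) (nat_lit 19) .nil)))) .nil)))) (.nd (nat_lit 5) (.nd (nat_lit 6) 
(.lf (nat_lit 99473) (.g (nat_lit 2522) (.e (nat_lit 3230) (nat_lit 197) (.e (nat_lit 532563) (nat_lit 15) (.e (nat_lit 385066) (nat_lit 26) (.e (nat_lit 532530) (nat_lit 9) (.e (nat_lit 336326) (nat_lit 18) .nil))))) .nil)) 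
(.lf (nat_lit 99537) (.g (nat_lit 1251) (.e (nat_lit 3232) (nat_lit 197) (.e (nat_lit 532506) (nat_lit 2) (.e (nat_lit 106536) (nat_lit 11) (.e (nat_lit 16416) (nat_lit 3) (.e (nat_lit 204876) (nat_lit 31) .nil))))) .nil))) (.nd (nat_lit 6) 
(.lf (nat_lit 99505) (.g (nat_lit 602) (.e (nat_lit 3231) (nat_lit 197) (.e (nat_lit 532503) (nat_lit 1) (.e (nat_lit 57848) (nat_lit 252) .nil))) .nil)) 
(.lf (nat_lit 99569) (.g (nat_lit 695) (.e (nat_lit 3233) (nat_lit 197) (.e (nat_lit 532501) (nat_lit 1) (.e (nat_lit 57854) (nat_lit 252) .nil))) .nil))))) (.nd (nat_lit 4) (.nd (nat_lit 5) (.nd (nat_lit 6) 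
(.lf (nat_lit 99465) (.g (nat_lit 3662) (.e (nat_lit 3230) (nat_lit 197) (.e (nat_lit 532550) (nat_lit 12) (.e (nat_lit 360474) (nat_lit 8) (.e (nat_lit 557093) (nat_lit 12) (.e (nat_lit 164023) (nat_lit 46) .nil))))) .nil)) 
(.lf (nat_lit 99529) (.g (nat_lit 2008) (.e (nat_lit 3232) (nat_lit 197) (.e (nat_lit 532499) (nat_lit 1) (.e (nat_lit 57927) (nat_lit 282) (.e (nat_lit 163871) (nat_lit 2) (.e (nat_lit 196670) (nat_lit 14) .nil))))) .nil))) (.nd (nat_lit 6) 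
(.lf (nat_lit 99497) (.g (nat_lit 1639) (.e (nat_lit 3231) (nat_lit 197) (.e (nat_lit 532500) (nat_lit 1) (.e (nat_lit 57851) (nat_lit 252) (.e (nat_lit 57445) (nat_lit 19) .nil)))) .nil)) 
(.lf (nat_lit 99561) (.g (nat_lit 1761) (.e (nat_lit 3233) (nat_lit 197) (.e (nat_lit 532500) (nat_lit 1) (.e (nat_lit 57851) (nat_lit 252) (.e (nat_lit 57445) (nat_lit 19) (.e (nat_lit 401152) (nat_lit 14) .nil))))) .nil)))) (.nd (nat_lit 5) (.nd (nat_lit 6) 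
(.lf (nat_lit 99481) (.g (nat_lit 3341) (.e (nat_lit 3230) (nat_lit 197) (.e (nat_lit 532563) (nat_lit 15) (.e (nat_lit 385094) (nat_lit 49) (.e (nat_lit 778317) (nat_lit 3) (.e (nat_lit 57477) (nat_lit 28) (.e (nat_lit 557108) (nat_lit 15) (.e (nat_lit 188434) (nat_lit 20) .nil))))))) (.g (nat_lit 5) .nil .nil))) 
(.lf (nat_lit 99545) (.g (nat_lit 2097) (.e (nat_lit 3233) (nat_lit 197) (.e (nat_lit 532481) (nat_lit 0) (.e (nat_lit 2044) (nat_lit 142) (.e (nat_lit 704734) (nat_lit 11) (.e (nat_lit 16416) (nat_lit 3) (.e (nat_lit 204877) (nat_lit 31) (.e (nat_lit 376833) (nat_lit 0) .nil))))))) (.g (nat_lit 5) .nil .nil)))) (.nd (nat_lit 6) 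
(.lf (nat_lit 99513) (.g (nat_lit 1875) (.e (nat_lit 3231) (nat_lit 197) (.e (nat_lit 532511) (nat_lit 2) (.e (nat_lit 106536) (nat_lit 11) (.e (nat_lit 16416) (nat_lit 3) (.e (nat_lit 204876) (nat_lit 31) (.e (nat_lit 376833) (nat_lit 0) .nil)))))) (.g (nat_lit 5) .nil .nil))) 
(.lf (nat_lit 99577) (.g (nat_lit 1286) (.e (nat_lit 3233) (nat_lit 197) (.e (nat_lit 532504) (nat_lit 1) (.e (nat_lit 57851) (nat_lit 252) (.e (nat_lit 57446) (nat_lit 19) .nil)))) .nil)))))) (.nd (nat_lit 3) (.nd (nat_lit 4) (.nd (nat_lit 5) (.nd (nat_lit 6) 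
(.lf (nat_lit 99461) (.g (nat_lit 1545) (.e (nat_lit 3230) (nat_lit 197) (.e (nat_lit 532544) (nat_lit 10) (.e (nat_lit 344169) (nat_lit 40) (.e (nat_lit 671759) (nat_lit 3) .nil)))) .nil)) 
(.lf (nat_lit 99525) (.g (nat_lit 2192) (.e (nat_lit 3232) (nat_lit 197) (.e (nat_lit 532499) (nat_lit 1) (.e (nat_lit 57847) (nat_lit 252) (.e (nat_lit 57445) (nat_lit 19) .nil)))) .nil))) (.nd (nat_lit 6) 
(.lf (nat_lit 99493) (.g (nat_lit 2408) (.e (nat_lit 3231) (nat_lit 197) (.e (nat_lit 532499) (nat_lit 1) (.e (nat_lit 57847) (nat_lit 252) (.e (nat_lit 57447) (nat_lit 19) .nil)))) .nil)) 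
(.lf (nat_lit 99557) (.g (nat_lit 765) (.e (nat_lit 3233) (nat_lit 197) (.e (nat_lit 532499) (nat_lit 1) (.e (nat_lit 57854) (nat_lit 252) .nil))) .nil)))) (.nd (nat_lit 5) (.nd (nat_lit 6) 
(.lf (nat_lit 99477) (.g (nat_lit 3791) (.e (nat_lit 3230) (nat_lit 197) (.e (nat_lit 532563) (nat_lit 15) (.e (nat_lit 385094) (nat_lit 49) (.e (nat_lit 778317) (nat_lit 3) (.e (nat_lit 57476) (nat_lit 28) (.e (nat_lit 557108) (nat_lit 15) (.e (nat_lit 188433) (nat_lit 20) .nil))))))) (.g (nat_lit 5) .nil .nil))) 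
(.lf (nat_lit 99541) (.g (nat_lit 2322) (.e (nat_lit 3232) (nat_lit 197) (.e (nat_lit 532563) (nat_lit 15) (.e (nat_lit 385066) (nat_lit 26) (.e (nat_lit 532530) (nat_lit 9) (.e (nat_lit 336326) (nat_lit 18) .nil))))) .nil))) (.nd (nat_lit 6) 
(.lf (nat_lit 99509) (.g (nat_lit 1351) (.e (nat_lit 3231) (nat_lit 197) (.e (nat_lit 532504) (nat_lit 1) (.e (nat_lit 57851) (nat_lit 252) (.e (nat_lit 57446) (nat_lit 19) .nil)))) .nil)) 
(.lf (nat_lit 99573) (.g (nat_lit 1802) (.e (nat_lit 3233) (nat_lit 197) (.e (nat_lit 532503) (nat_lit 1) (.e (nat_lit 57848) (nat_lit 252) (.e (nat_lit 57407) (nat_lit 12) (.e (nat_lit 336367) (nat_lit 27) .nil))))) .nil))))) (.nd (nat_lit 4) (.nd (nat_lit 5) (.nd (nat_lit 6) 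
(.lf (nat_lit 99469) (.g (nat_lit 3343) (.e (nat_lit 3230) (nat_lit 197) (.e (nat_lit 532550) (nat_lit 12) (.e (nat_lit 360475) (nat_lit 8) (.e (nat_lit 557091) (nat_lit 12) (.e (nat_lit 164022) (nat_lit 46) .nil))))) .nil)) 
(.lf (nat_lit 99533) (.g (nat_lit 2437) (.e (nat_lit 3232) (nat_lit 197) (.e (nat_lit 532503) (nat_lit 1) (.e (nat_lit 57931) (nat_lit 282) (.e (nat_lit 163867) (nat_lit 2) (.e (nat_lit 196670) (nat_lit 14) .nil))))) .nil))) (.nd (nat_lit 6) 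
(.lf (nat_lit 99501) (.g (nat_lit 1579) (.e (nat_lit 3231) (nat_lit 197) (.e (nat_lit 532501) (nat_lit 1) (.e (nat_lit 57851) (nat_lit 252) (.e (nat_lit 57446) (nat_lit 19) .nil)))) .nil)) 
(.lf (nat_lit 99565) (.g (nat_lit 1320) (.e (nat_lit 3233) (nat_lit 197) (.e (nat_lit 532501) (nat_lit 1) (.e (nat_lit 57851) (nat_lit 252) (.e (nat_lit 57445) (nat_lit 19) .nil)))) .nil)))) (.nd (nat_lit 5) (.nd (nat_lit 6) 
(.lf (nat_lit 99485) (.g (nat_lit 3040) (.e (nat_lit 3230) (nat_lit 197) (.e (nat_lit 532563) (nat_lit 15) (.e (nat_lit 385094) (nat_lit 49) (.e (nat_lit 778317) (nat_lit 3) (.e (nat_lit 57480) (nat_lit 28) (.e (nat_lit 557109) (nat_lit 15) (.e (nat_lit 188424) (nat_lit 20) .nil))))))) (.g (nat_lit 4) .nil .nil))) 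
(.lf (nat_lit 99549) (.g (nat_lit 850) (.e (nat_lit 3233) (nat_lit 197) (.e (nat_lit 532490) (nat_lit 0) (.e (nat_lit 2087) (nat_lit 142) .nil))) .nil))) (.nd (nat_lit 6) 
(.lf (nat_lit 99517) (.g (nat_lit 2104) (.e (nat_lit 3231) (nat_lit 197) (.e (nat_lit 532544) (nat_lit 10) (.e (nat_lit 344169) (nat_lit 40) (.e (nat_lit 671759) (nat_lit 3) (.e (nat_lit 57479) (nat_lit 28) .nil))))) .nil)) 
(.lf (nat_lit 99581) (.g (nat_lit 1770) (.e (nat_lit 3233) (nat_lit 197) (.e (nat_lit 532506) (nat_lit 2) (.e (nat_lit 106536) (nat_lit 11) (.e (nat_lit 16416) (nat_lit 3) (.e (nat_lit 204876) (nat_lit 31) (.e (nat_lit 376833) (nat_lit 0) .nil)))))) (.g (nat_lit 6) .nil .nil)))))))) (.nd (nat_lit 2) (.nd (nat_lit 3) (.nd (nat_lit 4) (.nd (nat_lit 5) (.nd (nat_lit 6) 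
(.lf (nat_lit 99459) (.g (nat_lit 2701) (.e (nat_lit 3230) (nat_lit 197) (.e (nat_lit 532535) (nat_lit 9) (.e (nat_lit 336099) (nat_lit 9) (.e (nat_lit 343808) (nat_lit 3) .nil)))) .nil)) 
(.lf (nat_lit 99523) (.g (nat_lit 2372) (.e (nat_lit 3231) (nat_lit 197) (.e (nat_lit 532563) (nat_lit 15) (.e (nat_lit 385066) (nat_lit 26) (.e (nat_lit 532534) (nat_lit 9) (.e (nat_lit 336326) (nat_lit 18) .nil))))) .nil))) (.nd (nat_lit 6) 
(.lf (nat_lit 99491) (.g (nat_lit 2079) (.e (nat_lit 3231) (nat_lit 197) (.e (nat_lit 532499) (nat_lit 1) (.e (nat_lit 57847) (nat_lit 252) (.e (nat_lit 57411) (nat_lit 12) .nil)))) .nil)) 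
(.lf (nat_lit 99555) (.g (nat_lit 2263) (.e (nat_lit 3233) (nat_lit 197) (.e (nat_lit 532499) (nat_lit 1) (.e (nat_lit 57847) (nat_lit 252) (.e (nat_lit 57448) (nat_lit 19) (.e (nat_lit 401152) (nat_lit 14) (.e (nat_lit 376833) (nat_lit 0) .nil)))))) (.g (nat_lit 4) .nil .nil))))) (.nd (nat_lit 5) (.nd (nat_lit 6) 
(.lf (nat_lit 99475) (.g (nat_lit 1502) (.e (nat_lit 3230) (nat_lit 197) (.e (nat_lit 532563) (nat_lit 15) (.e (nat_lit 385094) (nat_lit 49) (.e (nat_lit 778317) (nat_lit 3) .nil)))) .nil)) 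
(.lf (nat_lit 99539) (.g (nat_lit 4665) (.e (nat_lit 3232) (nat_lit 197) (.e (nat_lit 532550) (nat_lit 12) (.e (nat_lit 360474) (nat_lit 8) (.e (nat_lit 557093) (nat_lit 12) (.e (nat_lit 164023) (nat_lit 46) .nil))))) .nil))) (.nd (nat_lit 6) 
(.lf (nat_lit 99507) (.g (nat_lit 1620) (.e (nat_lit 3231) (nat_lit 197) (.e (nat_lit 532504) (nat_lit 1) (.e (nat_lit 57851) (nat_lit 252) (.e (nat_lit 57445) (nat_lit 19) (.e (nat_lit 401152) (nat_lit 11) .nil))))) .nil)) 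
(.lf (nat_lit 99571) (.g (nat_lit 554) (.e (nat_lit 3233) (nat_lit 197) (.e (nat_lit 532503) (nat_lit 1) (.e (nat_lit 57847) (nat_lit 252) .nil))) .nil))))) (.nd (nat_lit 4) (.nd (nat_lit 5) (.nd (nat_lit 6) 
(.lf (nat_lit 99467) (.g (nat_lit 3200) (.e (nat_lit 3230) (nat_lit 197) (.e (nat_lit 532550) (nat_lit 12) (.e (nat_lit 360474) (nat_lit 8) (.e (nat_lit 557094) (nat_lit 12) (.e (nat_lit 164022) (nat_lit 46) .nil))))) .nil)) 
(.lf (nat_lit 99531) (.g (nat_lit 1956) (.e (nat_lit 3232) (nat_lit 197) (.e (nat_lit 532501) (nat_lit 1) (.e (nat_lit 57851) (nat_lit 252) (.e (nat_lit 57445) (nat_lit 19) .nil)))) .nil))) (.nd (nat_lit 6) 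
(.lf (nat_lit 99499) (.g (nat_lit 1579) (.e (nat_lit 3231) (nat_lit 197) (.e (nat_lit 532501) (nat_lit 1) (.e (nat_lit 57851) (nat_lit 252) (.e (nat_lit 57445) (nat_lit 19) .nil)))) .nil)) 
(.lf (nat_lit 99563) (.g (nat_lit 1652) (.e (nat_lit 3233) (nat_lit 197) (.e (nat_lit 532500) (nat_lit 1) (.e (nat_lit 57851) (nat_lit 252) (.e (nat_lit 57446) (nat_lit 19) (.e (nat_lit 401152) (nat_lit 14) (.e (nat_lit 376833) (nat_lit 0) .nil)))))) (.g (nat_lit 4) .nil .nil))))) (.nd (nat_lit 5) (.nd (nat_lit 6) 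
(.lf (nat_lit 99483) (.g (nat_lit 3183) (.e (nat_lit 3230) (nat_lit 197) (.e (nat_lit 532563) (nat_lit 15) (.e (nat_lit 385094) (nat_lit 49) (.e (nat_lit 778317) (nat_lit 3) (.e (nat_lit 57480) (nat_lit 28) (.e (nat_lit 557107) (nat_lit 15) (.e (nat_lit 188439) (nat_lit 20) .nil))))))) (.g (nat_lit 5) .nil .nil))) 
(.lf (nat_lit 99547) (.g (nat_lit 1803) (.e (nat_lit 3233) (nat_lit 197) (.e (nat_lit 532483) (nat_lit 0) (.e (nat_lit 2044) (nat_lit 142) (.e (nat_lit 704734) (nat_lit 11) (.e (nat_lit 16416) (nat_lit 3) (.e (nat_lit 204877) (nat_lit 31) (.e (nat_lit 376833) (nat_lit 0) .nil))))))) (.g (nat_lit 6) .nil .nil)))) (.nd (nat_lit 6) 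
(.lf (nat_lit 99515) (.g (nat_lit 1440) (.e (nat_lit 3231) (nat_lit 197) (.e (nat_lit 532511) (nat_lit 2) (.e (nat_lit 106536) (nat_lit 11) (.e (nat_lit 16417) (nat_lit 3) (.e (nat_lit 204876) (nat_lit 31) (.e (nat_lit 376833) (nat_lit 0) .nil)))))) (.g (nat_lit 0) .nil .nil))) 
(.lf (nat_lit 99579) (.g (nat_lit 1804) (.e (nat_lit 3233) (nat_lit 197) (.e (nat_lit 532504) (nat_lit 1) (.e (nat_lit 57852) (nat_lit 252) (.e (nat_lit 57447) (nat_lit 19) .nil)))) .nil)))))) (.nd (nat_lit 3) (.nd (nat_lit 4) (.nd (nat_lit 5) (.nd (nat_lit 6) 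
(.lf (nat_lit 99463) (.g (nat_lit 5350) (.e (nat_lit 3230) (nat_lit 197) (.e (nat_lit 532550) (nat_lit 12) (.e (nat_lit 360474) (nat_lit 8) (.e (nat_lit 557089) (nat_lit 12) .nil)))) .nil)) 
(.lf (nat_lit 99527) (.g (nat_lit 2414) (.e (nat_lit 3232) (nat_lit 197) (.e (nat_lit 532499) (nat_lit 1) (.e (nat_lit 57847) (nat_lit 252) (.e (nat_lit 57447) (nat_lit 19) .nil)))) .nil))) (.nd (nat_lit 6) 
(.lf (nat_lit 99495) (.g (nat_lit 2093) (.e (nat_lit 3231) (nat_lit 197) (.e (nat_lit 532499) (nat_lit 1) (.e (nat_lit 57927) (nat_lit 282) (.e (nat_lit 163868) (nat_lit 2) (.e (nat_lit 196670) (nat_lit 14) .nil))))) .nil)) 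
(.lf (nat_lit 99559) (.g (nat_lit 2601) (.e (nat_lit 3233) (nat_lit 197) (.e (nat_lit 532500) (nat_lit 1) (.e (nat_lit 57851) (nat_lit 252) (.e (nat_lit 57406) (nat_lit 12) (.e (nat_lit 336367) (nat_lit 27) (.e (nat_lit 426555) (nat_lit 32) (.e (nat_lit 376832) (nat_lit 0) .nil))))))) (.g (nat_lit 5) .nil .nil))))) (.nd (nat_lit 5) (.nd (nat_lit 6) 
(.lf (nat_lit 99479) (.g (nat_lit 2736) (.e (nat_lit 3230) (nat_lit 197) (.e (nat_lit 532563) (nat_lit 15) (.e (nat_lit 385094) (nat_lit 49) (.e (nat_lit 778317) (nat_lit 3) (.e (nat_lit 57477) (nat_lit 28) (.e (nat_lit 557107) (nat_lit 15) (.e (nat_lit 188439) (nat_lit 20) .nil))))))) (.g (nat_lit 4) .nil .nil))) 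
(.lf (nat_lit 99543) (.g (nat_lit 530) (.e (nat_lit 3233) (nat_lit 197) (.e (nat_lit 532481) (nat_lit 0) (.e (nat_lit 2044) (nat_lit 142) .nil))) .nil))) (.nd (nat_lit 6) 
(.lf (nat_lit 99511) (.g (nat_lit 1653) (.e (nat_lit 3231) (nat_lit 197) (.e (nat_lit 532506) (nat_lit 2) (.e (nat_lit 106536) (nat_lit 11) (.e (nat_lit 16416) (nat_lit 3) (.e (nat_lit 204876) (nat_lit 31) (.e (nat_lit 376833) (nat_lit 0) .nil)))))) (.g (nat_lit 6) .nil .nil))) 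
(.lf (nat_lit 99575) (.g (nat_lit 1238) (.e (nat_lit 3233) (nat_lit 197) (.e (nat_lit 532503) (nat_lit 1) (.e (nat_lit 57848) (nat_lit 252) (.e (nat_lit 57446) (nat_lit 19) .nil)))) .nil))))) (.nd (nat_lit 4) (.nd (nat_lit 5) (.nd (nat_lit 6) 
(.lf (nat_lit 99471) (.g (nat_lit 5959) (.e (nat_lit 3230) (nat_lit 197) (.e (nat_lit 532550) (nat_lit 12) (.e (nat_lit 360475) (nat_lit 8) (.e (nat_lit 557094) (nat_lit 12) .nil)))) .nil)) 
(.lf (nat_lit 99535) (.g (nat_lit 1583) (.e (nat_lit 3232) (nat_lit 197) (.e (nat_lit 532504) (nat_lit 1) (.e (nat_lit 57851) (nat_lit 252) (.e (nat_lit 57445) (nat_lit 19) .nil)))) .nil))) (.nd (nat_lit 6) 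
(.lf (nat_lit 99503) (.g (nat_lit 554) (.e (nat_lit 3231) (nat_lit 197) (.e (nat_lit 532503) (nat_lit 1) (.e (nat_lit 57847) (nat_lit 252) .nil))) .nil)) 
(.lf (nat_lit 99567) (.g (nat_lit 1268) (.e (nat_lit 3233) (nat_lit 197) (.e (nat_lit 532501) (nat_lit 1) (.e (nat_lit 57851) (nat_lit 252) (.e (nat_lit 57446) (nat_lit 19) .nil)))) .nil)))) (.nd (nat_lit 5) (.nd (nat_lit 6) 
(.lf (nat_lit 99487) (.g (nat_lit 3013) (.e (nat_lit 3230) (nat_lit 197) (.e (nat_lit 532563) (nat_lit 15) (.e (nat_lit 385094) (nat_lit 49) (.e (nat_lit 778317) (nat_lit 3) (.e (nat_lit 57480) (nat_lit 28) (.e (nat_lit 557109) (nat_lit 15) (.e (nat_lit 188435) (nat_lit 20) .nil))))))) (.g (nat_lit 4) .nil .nil))) 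
(.lf (nat_lit 99551) (.g (nat_lit 2027) (.e (nat_lit 3233) (nat_lit 197) (.e (nat_lit 532499) (nat_lit 1) (.e (nat_lit 57847) (nat_lit 252) (.e (nat_lit 57411) (nat_lit 12) .nil)))) .nil))) (.nd (nat_lit 6) 
(.lf (nat_lit 99519) (.g (nat_lit 4928) (.e (nat_lit 3231) (nat_lit 197) (.e (nat_lit 532550) (nat_lit 12) (.e (nat_lit 360475) (nat_lit 8) (.e (nat_lit 557086) (nat_lit 11) .nil)))) .nil)) 
(.lf (nat_lit 99583) (.g (nat_lit 894) (.e (nat_lit 3233) (nat_lit 197) (.e (nat_lit 532508) (nat_lit 2) (.e (nat_lit 106534) (nat_lit 11) (.e (nat_lit 16417) (nat_lit 3) (.e (nat_lit 204876) (nat_lit 31) .nil))))) .nil)))))))))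

noncomputable def tv1362 : DT := (.nd (nat_lit 0) (.nd (nat_lit 1) (.nd (nat_lit 2) (.nd (nat_lit 3) (.nd (nat_lit 4) (.nd (nat_lit 5) (.nd (nat_lit 6) 
(.lf (nat_lit 99584) (.g (nat_lit 545) (.e (nat_lit 3233) (nat_lit 197) (.e (nat_lit 532509) (nat_lit 2) (.e (nat_lit 106534) (nat_lit 11) (.e (nat_lit 16416) (nat_lit 3) .nil)))) .nil)) 
(.lf (nat_lit 99648) (.g (nat_lit 2561) (.e (nat_lit 3234) (nat_lit 197) (.e (nat_lit 532545) (nat_lit 10) (.e (nat_lit 344169) (nat_lit 40) (.e (nat_lit 671759) (nat_lit 3) (.e (nat_lit 57479) (nat_lit 28) (.e (nat_lit 557109) (nat_lit 15) (.e (nat_lit 196352) (nat_lit 20) .nil))))))) (.g (nat_lit 6) .nil .nil)))) (.nd (nat_lit 6) 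
(.lf (nat_lit 99616) (.g (nat_lit 2241) (.e (nat_lit 3234) (nat_lit 197) (.e (nat_lit 532499) (nat_lit 1) (.e (nat_lit 57847) (nat_lit 252) (.e (nat_lit 57446) (nat_lit 19) (.e (nat_lit 401152) (nat_lit 11) (.e (nat_lit 352266) (nat_lit 0) .nil)))))) (.g (nat_lit 4) .nil .nil))) 
(.lf (nat_lit 99680) (.g (nat_lit 2159) (.e (nat_lit 3236) (nat_lit 197) (.e (nat_lit 532504) (nat_lit 1) (.e (nat_lit 57851) (nat_lit 252) (.e (nat_lit 57445) (nat_lit 19) .nil)))) .nil)))) (.nd (nat_lit 5) (.nd (nat_lit 6) 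
(.lf (nat_lit 99600) (.g (nat_lit 2314) (.e (nat_lit 3233) (nat_lit 197) (.e (nat_lit 532544) (nat_lit 10) (.e (nat_lit 344133) (nat_lit 26) (.e (nat_lit 557096) (nat_lit 13) (.e (nat_lit 172064) (nat_lit 2) .nil))))) .nil)) 
(.lf (nat_lit 99664) (.g (nat_lit 2269) (.e (nat_lit 3235) (nat_lit 197) (.e (nat_lit 532504) (nat_lit 1) (.e (nat_lit 57851) (nat_lit 252) (.e (nat_lit 57446) (nat_lit 19) .nil)))) .nil))) (.nd (nat_lit 6) 
(.lf (nat_lit 99632) (.g (nat_lit 602) (.e (nat_lit 3234) (nat_lit 197) (.e (nat_lit 532503) (nat_lit 1) (.e (nat_lit 57848) (nat_lit 252) .nil))) .nil)) 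
(.lf (nat_lit 99696) (.g (nat_lit 2001) (.e (nat_lit 3237) (nat_lit 197) (.e (nat_lit 532499) (nat_lit 1) (.e (nat_lit 57927) (nat_lit 282) (.e (nat_lit 163871) (nat_lit 2) (.e (nat_lit 196670) (nat_lit 14) .nil))))) .nil))))) (.nd (nat_lit 4) (.nd (nat_lit 5) (.nd (nat_lit 6) 
(.lf (nat_lit 99592) (.g (nat_lit 1694) (.e (nat_lit 3233) (nat_lit 197) (.e (nat_lit 532523) (nat_lit 7) (.e (nat_lit 319534) (nat_lit 16) (.e (nat_lit 286735) (nat_lit 3) .nil)))) .nil)) 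
(.lf (nat_lit 99656) (.g (nat_lit 552) (.e (nat_lit 3234) (nat_lit 197) (.e (nat_lit 532563) (nat_lit 15) (.e (nat_lit 385068) (nat_lit 26) .nil))) .nil))) (.nd (nat_lit 6) 
(.lf (nat_lit 99624) (.g (nat_lit 1491) (.e (nat_lit 3234) (nat_lit 197) (.e (nat_lit 532501) (nat_lit 1) (.e (nat_lit 57851) (nat_lit 252) (.e (nat_lit 57446) (nat_lit 19) (.e (nat_lit 401152) (nat_lit 11) .nil))))) .nil)) 
(.lf (nat_lit 99688) (.g (nat_lit 5264) (.e (nat_lit 3236) (nat_lit 197) (.e (nat_lit 532550) (nat_lit 12) (.e (nat_lit 360475) (nat_lit 8) (.e (nat_lit 557091) (nat_lit 12) (.e (nat_lit 164022) (nat_lit 46) .nil))))) .nil)))) (.nd (nat_lit 5) (.nd (nat_lit 6) 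
(.lf (nat_lit 99608) (.g (nat_lit 2078) (.e (nat_lit 3234) (nat_lit 197) (.e (nat_lit 532499) (nat_lit 1) (.e (nat_lit 57847) (nat_lit 252) (.e (nat_lit 57407) (nat_lit 12) .nil)))) .nil)) 
(.lf (nat_lit 99672) (.g (nat_lit 2093) (.e (nat_lit 3236) (nat_lit 197) (.e (nat_lit 532499) (nat_lit 1) (.e (nat_lit 57927) (nat_lit 282) (.e (nat_lit 163868) (nat_lit 2) (.e (nat_lit 196670) (nat_lit 14) .nil))))) .nil))) (.nd (nat_lit 6) 
(.lf (nat_lit 99640) (.g (nat_lit 1644) (.e (nat_lit 3234) (nat_lit 197) (.e (nat_lit 532522) (nat_lit 7) (.e (nat_lit 319530) (nat_lit 16) (.e (nat_lit 286733) (nat_lit 2) .nil)))) .nil)) 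
(.lf (nat_lit 99704) (.g (nat_lit 2566) (.e (nat_lit 3237) (nat_lit 197) (.e (nat_lit 532503) (nat_lit 1) (.e (nat_lit 57931) (nat_lit 282) (.e (nat_lit 163874) (nat_lit 3) (.e (nat_lit 204872) (nat_lit 30) .nil))))) .nil)))))) (.nd (nat_lit 3) (.nd (nat_lit 4) (.nd (nat_lit 5) (.nd (nat_lit 6) 
(.lf (nat_lit 99588) (.g (nat_lit 1633) (.e (nat_lit 3233) (nat_lit 197) (.e (nat_lit 532511) (nat_lit 2) (.e (nat_lit 106536) (nat_lit 11) (.e (nat_lit 16416) (nat_lit 3) (.e (nat_lit 204877) (nat_lit 31) (.e (nat_lit 376833) (nat_lit 0) .nil)))))) (.g (nat_lit 4) .nil .nil))) 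
(.lf (nat_lit 99652) (.g (nat_lit 4215) (.e (nat_lit 3234) (nat_lit 197) (.e (nat_lit 532550) (nat_lit 12) (.e (nat_lit 360474) (nat_lit 8) (.e (nat_lit 557094) (nat_lit 12) .nil)))) .nil))) (.nd (nat_lit 6) 
(.lf (nat_lit 99620) (.g (nat_lit 1796) (.e (nat_lit 3234) (nat_lit 197) (.e (nat_lit 532500) (nat_lit 1) (.e (nat_lit 57851) (nat_lit 252) (.e (nat_lit 57406) (nat_lit 12) .nil)))) .nil)) 
(.lf (nat_lit 99684) (.g (nat_lit 2841) (.e (nat_lit 3236) (nat_lit 197) (.e (nat_lit 532522) (nat_lit 7) (.e (nat_lit 319531) (nat_lit 16) (.e (nat_lit 286733) (nat_lit 2) (.e (nat_lit 90178) (nat_lit 15) .nil))))) .nil)))) (.nd (nat_lit 5) (.nd (nat_lit 6) 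
(.lf (nat_lit 99604) (.g (nat_lit 4539) (.e (nat_lit 3233) (nat_lit 197) (.e (nat_lit 532550) (nat_lit 12) (.e (nat_lit 360475) (nat_lit 8) (.e (nat_lit 557085) (nat_lit 11) .nil)))) .nil)) 
(.lf (nat_lit 99668) (.g (nat_lit 5895) (.e (nat_lit 3235) (nat_lit 197) (.e (nat_lit 532550) (nat_lit 12) (.e (nat_lit 360475) (nat_lit 8) (.e (nat_lit 557091) (nat_lit 12) (.e (nat_lit 163844) (nat_lit 0) .nil))))) .nil))) (.nd (nat_lit 6) 
(.lf (nat_lit 99636) (.g (nat_lit 2122) (.e (nat_lit 3234) (nat_lit 197) (.e (nat_lit 532504) (nat_lit 1) (.e (nat_lit 57851) (nat_lit 252) (.e (nat_lit 57446) (nat_lit 19) (.e (nat_lit 401152) (nat_lit 11) (.e (nat_lit 352267) (nat_lit 0) .nil)))))) (.g (nat_lit 4) .nil .nil))) 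
(.lf (nat_lit 99700) (.g (nat_lit 2486) (.e (nat_lit 3237) (nat_lit 197) (.e (nat_lit 532500) (nat_lit 1) (.e (nat_lit 57851) (nat_lit 252) (.e (nat_lit 57406) (nat_lit 12) (.e (nat_lit 336456) (nat_lit 34) .nil))))) .nil))))) (.nd (nat_lit 4) (.nd (nat_lit 5) (.nd (nat_lit 6) 
(.lf (nat_lit 99596) (.g (nat_lit 2875) (.e (nat_lit 3233) (nat_lit 197) (.e (nat_lit 532543) (nat_lit 10) (.e (nat_lit 344133) (nat_lit 26) (.e (nat_lit 557098) (nat_lit 13) (.e (nat_lit 172064) (nat_lit 2) (.e (nat_lit 204544) (nat_lit 2) (.e (nat_lit 24667) (nat_lit 15) .nil))))))) (.g (nat_lit 5) .nil .nil))) 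
(.lf (nat_lit 99660) (.g (nat_lit 3634) (.e (nat_lit 3235) (nat_lit 197) (.e (nat_lit 532499) (nat_lit 1) (.e (nat_lit 57847) (nat_lit 252) (.e (nat_lit 57446) (nat_lit 19) .nil)))) .nil))) (.nd (nat_lit 6) 
(.lf (nat_lit 99628) (.g (nat_lit 1695) (.e (nat_lit 3234) (nat_lit 197) (.e (nat_lit 532501) (nat_lit 1) (.e (nat_lit 57852) (nat_lit 252) (.e (nat_lit 57446) (nat_lit 19) .nil)))) .nil)) 
(.lf (nat_lit 99692) (.g (nat_lit 3734) (.e (nat_lit 3237) (nat_lit 197) (.e (nat_lit 532499) (nat_lit 1) (.e (nat_lit 57847) (nat_lit 252) (.e (nat_lit 57408) (nat_lit 12) .nil)))) .nil)))) (.nd (nat_lit 5) (.nd (nat_lit 6) 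
(.lf (nat_lit 99612) (.g (nat_lit 1930) (.e (nat_lit 3234) (nat_lit 197) (.e (nat_lit 532499) (nat_lit 1) (.e (nat_lit 57847) (nat_lit 252) (.e (nat_lit 57411) (nat_lit 12) .nil)))) .nil)) 
(.lf (nat_lit 99676) (.g (nat_lit 2486) (.e (nat_lit 3236) (nat_lit 197) (.e (nat_lit 532500) (nat_lit 1) (.e (nat_lit 57851) (nat_lit 252) (.e (nat_lit 57406) (nat_lit 12) (.e (nat_lit 336456) (nat_lit 34) .nil))))) .nil))) (.nd (nat_lit 6) 
(.lf (nat_lit 99644) (.g (nat_lit 3826) (.e (nat_lit 3234) (nat_lit 197) (.e (nat_lit 532535) (nat_lit 9) (.e (nat_lit 336176) (nat_lit 10) (.e (nat_lit 344132) (nat_lit 26) .nil)))) .nil)) 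
(.lf (nat_lit 99708) (.g (nat_lit 3296) (.e (nat_lit 3237) (nat_lit 197) (.e (nat_lit 532504) (nat_lit 1) (.e (nat_lit 57931) (nat_lit 282) (.e (nat_lit 163869) (nat_lit 2) (.e (nat_lit 196670) (nat_lit 14) .nil))))) .nil))))))) (.nd (nat_lit 2) (.nd (nat_lit 3) (.nd (nat_lit 4) (.nd (nat_lit 5) (.nd (nat_lit 6) 
(.lf (nat_lit 99586) (.g (nat_lit 928) (.e (nat_lit 3233) (nat_lit 197) (.e (nat_lit 532511) (nat_lit 2) (.e (nat_lit 106534) (nat_lit 11) (.e (nat_lit 16417) (nat_lit 3) (.e (nat_lit 204877) (nat_lit 31) .nil))))) .nil)) 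
(.lf (nat_lit 99650) (.g (nat_lit 4064) (.e (nat_lit 3234) (nat_lit 197) (.e (nat_lit 532550) (nat_lit 12) (.e (nat_lit 360474) (nat_lit 8) (.e (nat_lit 557073) (nat_lit 9) .nil)))) .nil))) (.nd (nat_lit 6) 
(.lf (nat_lit 99618) (.g (nat_lit 1964) (.e (nat_lit 3234) (nat_lit 197) (.e (nat_lit 532499) (nat_lit 1) (.e (nat_lit 57847) (nat_lit 252) (.e (nat_lit 57448) (nat_lit 19) .nil)))) .nil)) 
(.lf (nat_lit 99682) (.g (nat_lit 3296) (.e (nat_lit 3236) (nat_lit 197) (.e (nat_lit 532504) (nat_lit 1) (.e (nat_lit 57931) (nat_lit 282) (.e (nat_lit 163869) (nat_lit 2) (.e (nat_lit 196670) (nat_lit 14) .nil))))) .nil)))) (.nd (nat_lit 5) (.nd (nat_lit 6) 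
(.lf (nat_lit 99602) (.g (nat_lit 2644) (.e (nat_lit 3233) (nat_lit 197) (.e (nat_lit 532545) (nat_lit 10) (.e (nat_lit 344133) (nat_lit 26) (.e (nat_lit 557098) (nat_lit 13) (.e (nat_lit 172064) (nat_lit 2) (.e (nat_lit 204544) (nat_lit 2) (.e (nat_lit 24666) (nat_lit 15) .nil))))))) (.g (nat_lit 5) .nil .nil))) 
(.lf (nat_lit 99666) (.g (nat_lit 5551) (.e (nat_lit 3235) (nat_lit 197) (.e (nat_lit 532550) (nat_lit 12) (.e (nat_lit 360475) (nat_lit 8) (.e (nat_lit 557089) (nat_lit 12) (.e (nat_lit 163849) (nat_lit 0) .nil))))) .nil))) (.nd (nat_lit 6) 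
(.lf (nat_lit 99634) (.g (nat_lit 2246) (.e (nat_lit 3234) (nat_lit 197) (.e (nat_lit 532504) (nat_lit 1) (.e (nat_lit 57851) (nat_lit 252) (.e (nat_lit 57445) (nat_lit 19) (.e (nat_lit 401152) (nat_lit 11) (.e (nat_lit 352267) (nat_lit 0) .nil)))))) (.g (nat_lit 4) .nil .nil))) 
(.lf (nat_lit 99698) (.g (nat_lit 2202) (.e (nat_lit 3237) (nat_lit 197) (.e (nat_lit 532499) (nat_lit 1) (.e (nat_lit 57927) (nat_lit 282) (.e (nat_lit 163874) (nat_lit 3) (.e (nat_lit 204872) (nat_lit 30) .nil))))) .nil))))) (.nd (nat_lit 4) (.nd (nat_lit 5) (.nd (nat_lit 6) 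
(.lf (nat_lit 99594) (.g (nat_lit 3063) (.e (nat_lit 3233) (nat_lit 197) (.e (nat_lit 532543) (nat_lit 10) (.e (nat_lit 344129) (nat_lit 26) (.e (nat_lit 557097) (nat_lit 13) (.e (nat_lit 172064) (nat_lit 2) (.e (nat_lit 204544) (nat_lit 2) (.e (nat_lit 24667) (nat_lit 15) .nil))))))) (.g (nat_lit 5) .nil .nil))) 
(.lf (nat_lit 99658) (.g (nat_lit 585) (.e (nat_lit 3234) (nat_lit 197) (.e (nat_lit 532569) (nat_lit 16) (.e (nat_lit 401451) (nat_lit 12) .nil))) .nil))) (.nd (nat_lit 6) 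
(.lf (nat_lit 99626) (.g (nat_lit 496) (.e (nat_lit 3234) (nat_lit 197) (.e (nat_lit 532501) (nat_lit 1) (.e (nat_lit 57852) (nat_lit 252) .nil))) .nil)) 
(.lf (nat_lit 99690) (.g (nat_lit 2560) (.e (nat_lit 3236) (nat_lit 197) (.e (nat_lit 532563) (nat_lit 15) (.e (nat_lit 385066) (nat_lit 26) (.e (nat_lit 532534) (nat_lit 9) (.e (nat_lit 336326) (nat_lit 18) .nil))))) .nil)))) (.nd (nat_lit 5) (.nd (nat_lit 6) 
(.lf (nat_lit 99610) (.g (nat_lit 2850) (.e (nat_lit 3234) (nat_lit 197) (.e (nat_lit 532499) (nat_lit 1) (.e (nat_lit 57847) (nat_lit 252) (.e (nat_lit 57407) (nat_lit 12) (.e (nat_lit 336456) (nat_lit 34) .nil))))) .nil)) 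
(.lf (nat_lit 99674) (.g (nat_lit 2003) (.e (nat_lit 3236) (nat_lit 197) (.e (nat_lit 532499) (nat_lit 1) (.e (nat_lit 57927) (nat_lit 282) (.e (nat_lit 163871) (nat_lit 2) (.e (nat_lit 196670) (nat_lit 14) .nil))))) .nil))) (.nd (nat_lit 6) 
(.lf (nat_lit 99642) (.g (nat_lit 1832) (.e (nat_lit 3234) (nat_lit 197) (.e (nat_lit 532523) (nat_lit 7) (.e (nat_lit 319531) (nat_lit 16) (.e (nat_lit 286733) (nat_lit 2) .nil)))) .nil)) 
(.lf (nat_lit 99706) (.g (nat_lit 2174) (.e (nat_lit 3237) (nat_lit 197) (.e (nat_lit 532504) (nat_lit 1) (.e (nat_lit 57851) (nat_lit 252) (.e (nat_lit 57445) (nat_lit 19) .nil)))) .nil)))))) (.nd (nat_lit 3) (.nd (nat_lit 4) (.nd (nat_lit 5) (.nd (nat_lit 6) 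
(.lf (nat_lit 99590) (.g (nat_lit 2776) (.e (nat_lit 3233) (nat_lit 197) (.e (nat_lit 532523) (nat_lit 7) (.e (nat_lit 319530) (nat_lit 16) (.e (nat_lit 286727) (nat_lit 0) (.e (nat_lit 1799) (nat_lit 119) .nil))))) .nil)) 
(.lf (nat_lit 99654) (.g (nat_lit 7358) (.e (nat_lit 3234) (nat_lit 197) (.e (nat_lit 532550) (nat_lit 12) (.e (nat_lit 360475) (nat_lit 8) (.e (nat_lit 557090) (nat_lit 12) .nil)))) .nil))) (.nd (nat_lit 6) 
(.lf (nat_lit 99622) (.g (nat_lit 1477) (.e (nat_lit 3234) (nat_lit 197) (.e (nat_lit 532501) (nat_lit 1) (.e (nat_lit 57851) (nat_lit 252) (.e (nat_lit 57445) (nat_lit 19) .nil)))) .nil)) 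
(.lf (nat_lit 99686) (.g (nat_lit 5175) (.e (nat_lit 3236) (nat_lit 197) (.e (nat_lit 532550) (nat_lit 12) (.e (nat_lit 360474) (nat_lit 8) (.e (nat_lit 557093) (nat_lit 12) (.e (nat_lit 164023) (nat_lit 46) .nil))))) .nil)))) (.nd (nat_lit 5) (.nd (nat_lit 6) 
(.lf (nat_lit 99606) (.g (nat_lit 4368) (.e (nat_lit 3233) (nat_lit 197) (.e (nat_lit 532550) (nat_lit 12) (.e (nat_lit 360475) (nat_lit 8) (.e (nat_lit 557091) (nat_lit 12) (.e (nat_lit 163847) (nat_lit 0) .nil))))) .nil)) 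
(.lf (nat_lit 99670) (.g (nat_lit 3544) (.e (nat_lit 3236) (nat_lit 197) (.e (nat_lit 532499) (nat_lit 1) (.e (nat_lit 57847) (nat_lit 252) (.e (nat_lit 57446) (nat_lit 19) .nil)))) .nil))) (.nd (nat_lit 6) 
(.lf (nat_lit 99638) (.g (nat_lit 1501) (.e (nat_lit 3234) (nat_lit 197) (.e (nat_lit 532510) (nat_lit 2) (.e (nat_lit 106536) (nat_lit 11) (.e (nat_lit 16412) (nat_lit 2) (.e (nat_lit 196674) (nat_lit 15) (.e (nat_lit 81922) (nat_lit 0) .nil)))))) (.g (nat_lit 4) .nil .nil))) 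
(.lf (nat_lit 99702) (.g (nat_lit 2654) (.e (nat_lit 3237) (nat_lit 197) (.e (nat_lit 532503) (nat_lit 1) (.e (nat_lit 57931) (nat_lit 282) (.e (nat_lit 163869) (nat_lit 2) (.e (nat_lit 196668) (nat_lit 14) .nil))))) .nil))))) (.nd (nat_lit 4) (.nd (nat_lit 5) (.nd (nat_lit 6) 
(.lf (nat_lit 99598) (.g (nat_lit 1977) (.e (nat_lit 3233) (nat_lit 197) (.e (nat_lit 532544) (nat_lit 10) (.e (nat_lit 344130) (nat_lit 26) (.e (nat_lit 557097) (nat_lit 13) (.e (nat_lit 172064) (nat_lit 2) (.e (nat_lit 204544) (nat_lit 2) (.e (nat_lit 24667) (nat_lit 15) .nil))))))) (.g (nat_lit 4) .nil .nil))) 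
(.lf (nat_lit 99662) (.g (nat_lit 1344) (.e (nat_lit 3235) (nat_lit 197) (.e (nat_lit 532504) (nat_lit 1) (.e (nat_lit 57851) (nat_lit 252) .nil))) .nil))) (.nd (nat_lit 6) 
(.lf (nat_lit 99630) (.g (nat_lit 1749) (.e (nat_lit 3234) (nat_lit 197) (.e (nat_lit 532501) (nat_lit 1) (.e (nat_lit 57854) (nat_lit 252) (.e (nat_lit 57406) (nat_lit 12) (.e (nat_lit 336367) (nat_lit 27) (.e (nat_lit 426542) (nat_lit 29) (.e (nat_lit 352267) (nat_lit 0) .nil))))))) (.g (nat_lit 4) .nil .nil))) 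
(.lf (nat_lit 99694) (.g (nat_lit 1900) (.e (nat_lit 3237) (nat_lit 197) (.e (nat_lit 532499) (nat_lit 1) (.e (nat_lit 57927) (nat_lit 282) (.e (nat_lit 163866) (nat_lit 2) (.e (nat_lit 196668) (nat_lit 14) .nil))))) .nil)))) (.nd (nat_lit 5) (.nd (nat_lit 6) 
(.lf (nat_lit 99614) (.g (nat_lit 2699) (.e (nat_lit 3234) (nat_lit 197) (.e (nat_lit 532499) (nat_lit 1) (.e (nat_lit 57847) (nat_lit 252) (.e (nat_lit 57445) (nat_lit 19) (.e (nat_lit 393229) (nat_lit 9) .nil))))) .nil)) 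
(.lf (nat_lit 99678) (.g (nat_lit 2779) (.e (nat_lit 3236) (nat_lit 197) (.e (nat_lit 532503) (nat_lit 1) (.e (nat_lit 57931) (nat_lit 282) (.e (nat_lit 163869) (nat_lit 2) (.e (nat_lit 196668) (nat_lit 14) .nil))))) .nil))) (.nd (nat_lit 6) 
(.lf (nat_lit 99646) (.g (nat_lit 2302) (.e (nat_lit 3234) (nat_lit 197) (.e (nat_lit 532544) (nat_lit 10) (.e (nat_lit 344169) (nat_lit 40) (.e (nat_lit 671759) (nat_lit 3) (.e (nat_lit 57479) (nat_lit 28) .nil))))) .nil)) 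
(.lf (nat_lit 99710) (.g (nat_lit 3154) (.e (nat_lit 3237) (nat_lit 197) (.e (nat_lit 532522) (nat_lit 7) (.e (nat_lit 319531) (nat_lit 16) (.e (nat_lit 286733) (nat_lit 2) (.e (nat_lit 90169) (nat_lit 13) .nil))))) .nil)))))))) (.nd (nat_lit 1) (.nd (nat_lit 2) (.nd (nat_lit 3) (.nd (nat_lit 4) (.nd (nat_lit 5) (.nd (nat_lit 6) 
(.lf (nat_lit 99585) (.g (nat_lit 932) (.e (nat_lit 3233) (nat_lit 197) (.e (nat_lit 532511) (nat_lit 2) (.e (nat_lit 106534) (nat_lit 11) (.e (nat_lit 16417) (nat_lit 3) (.e (nat_lit 204876) (nat_lit 31) .nil))))) .nil)) 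
(.lf (nat_lit 99649) (.g (nat_lit 4090) (.e (nat_lit 3234) (nat_lit 197) (.e (nat_lit 532550) (nat_lit 12) (.e (nat_lit 360474) (nat_lit 8) (.e (nat_lit 557072) (nat_lit 9) .nil)))) .nil))) (.nd (nat_lit 6) 
(.lf (nat_lit 99617) (.g (nat_lit 2259) (.e (nat_lit 3234) (nat_lit 197) (.e (nat_lit 532499) (nat_lit 1) (.e (nat_lit 57847) (nat_lit 252) (.e (nat_lit 57447) (nat_lit 19) .nil)))) .nil)) 
(.lf (nat_lit 99681) (.g (nat_lit 2231) (.e (nat_lit 3236) (nat_lit 197) (.e (nat_lit 532504) (nat_lit 1) (.e (nat_lit 57851) (nat_lit 252) (.e (nat_lit 57446) (nat_lit 19) .nil)))) .nil)))) (.nd (nat_lit 5) (.nd (nat_lit 6) 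
(.lf (nat_lit 99601) (.g (nat_lit 2152) (.e (nat_lit 3233) (nat_lit 197) (.e (nat_lit 532545) (nat_lit 10) (.e (nat_lit 344130) (nat_lit 26) (.e (nat_lit 557097) (nat_lit 13) (.e (nat_lit 172064) (nat_lit 2) (.e (nat_lit 204544) (nat_lit 2) (.e (nat_lit 24666) (nat_lit 15) .nil))))))) (.g (nat_lit 5) .nil .nil))) 
(.lf (nat_lit 99665) (.g (nat_lit 5554) (.e (nat_lit 3235) (nat_lit 197) (.e (nat_lit 532550) (nat_lit 12) (.e (nat_lit 360475) (nat_lit 8) (.e (nat_lit 557089) (nat_lit 12) (.e (nat_lit 163844) (nat_lit 0) .nil))))) .nil))) (.nd (nat_lit 6) 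
(.lf (nat_lit 99633) (.g (nat_lit 1788) (.e (nat_lit 3234) (nat_lit 197) (.e (nat_lit 532504) (nat_lit 1) (.e (nat_lit 57851) (nat_lit 252) (.e (nat_lit 57445) (nat_lit 19) .nil)))) .nil)) 
(.lf (nat_lit 99697) (.g (nat_lit 2608) (.e (nat_lit 3237) (nat_lit 197) (.e (nat_lit 532499) (nat_lit 1) (.e (nat_lit 57927) (nat_lit 282) (.e (nat_lit 163873) (nat_lit 3) (.e (nat_lit 204853) (nat_lit 26) .nil))))) .nil))))) (.nd (nat_lit 4) (.nd (nat_lit 5) (.nd (nat_lit 6) 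
(.lf (nat_lit 99593) (.g (nat_lit 3000) (.e (nat_lit 3233) (nat_lit 197) (.e (nat_lit 532543) (nat_lit 10) (.e (nat_lit 344129) (nat_lit 26) (.e (nat_lit 557097) (nat_lit 13) (.e (nat_lit 172064) (nat_lit 2) (.e (nat_lit 204544) (nat_lit 2) (.e (nat_lit 24666) (nat_lit 15) .nil))))))) (.g (nat_lit 5) .nil .nil))) 
(.lf (nat_lit 99657) (.g (nat_lit 2721) (.e (nat_lit 3234) (nat_lit 197) (.e (nat_lit 532563) (nat_lit 15) (.e (nat_lit 385094) (nat_lit 49) (.e (nat_lit 778317) (nat_lit 3) (.e (nat_lit 57476) (nat_lit 28) (.e (nat_lit 557107) (nat_lit 15) (.e (nat_lit 196352) (nat_lit 20) .nil))))))) (.g (nat_lit 5) .nil .nil)))) (.nd (nat_lit 6) 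
(.lf (nat_lit 99625) (.g (nat_lit 1791) (.e (nat_lit 3234) (nat_lit 197) (.e (nat_lit 532501) (nat_lit 1) (.e (nat_lit 57851) (nat_lit 252) (.e (nat_lit 57446) (nat_lit 19) (.e (nat_lit 401152) (nat_lit 11) (.e (nat_lit 352266) (nat_lit 0) .nil)))))) (.g (nat_lit 4) .nil .nil))) 
(.lf (nat_lit 99689) (.g (nat_lit 2550) (.e (nat_lit 3236) (nat_lit 197) (.e (nat_lit 532563) (nat_lit 15) (.e (nat_lit 385066) (nat_lit 26) (.e (nat_lit 532530) (nat_lit 9) (.e (nat_lit 336326) (nat_lit 18) .nil))))) .nil)))) (.nd (nat_lit 5) (.nd (nat_lit 6) 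
(.lf (nat_lit 99609) (.g (nat_lit 2809) (.e (nat_lit 3234) (nat_lit 197) (.e (nat_lit 532499) (nat_lit 1) (.e (nat_lit 57847) (nat_lit 252) (.e (nat_lit 57407) (nat_lit 12) (.e (nat_lit 336367) (nat_lit 27) (.e (nat_lit 426542) (nat_lit 29) (.e (nat_lit 352267) (nat_lit 0) .nil))))))) (.g (nat_lit 4) .nil .nil))) 
(.lf (nat_lit 99673) (.g (nat_lit 2182) (.e (nat_lit 3236) (nat_lit 197) (.e (nat_lit 532499) (nat_lit 1) (.e (nat_lit 57927) (nat_lit 282) (.e (nat_lit 163869) (nat_lit 2) (.e (nat_lit 196668) (nat_lit 14) .nil))))) .nil))) (.nd (nat_lit 6) 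
(.lf (nat_lit 99641) (.g (nat_lit 1843) (.e (nat_lit 3234) (nat_lit 197) (.e (nat_lit 532523) (nat_lit 7) (.e (nat_lit 319530) (nat_lit 16) (.e (nat_lit 286733) (nat_lit 2) .nil)))) .nil)) 
(.lf (nat_lit 99705) (.g (nat_lit 1318) (.e (nat_lit 3237) (nat_lit 197) (.e (nat_lit 532504) (nat_lit 1) (.e (nat_lit 57851) (nat_lit 252) .nil))) .nil)))))) (.nd (nat_lit 3) (.nd (nat_lit 4) (.nd (nat_lit 5) (.nd (nat_lit 6) 
(.lf (nat_lit 99589) (.g (nat_lit 788) (.e (nat_lit 3233) (nat_lit 197) (.e (nat_lit 532522) (nat_lit 7) (.e (nat_lit 319530) (nat_lit 16) .nil))) .nil)) 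
(.lf (nat_lit 99653) (.g (nat_lit 4758) (.e (nat_lit 3234) (nat_lit 197) (.e (nat_lit 532550) (nat_lit 12) (.e (nat_lit 360475) (nat_lit 8) (.e (nat_lit 557089) (nat_lit 12) .nil)))) .nil))) (.nd (nat_lit 6) 
(.lf (nat_lit 99621) (.g (nat_lit 2417) (.e (nat_lit 3234) (nat_lit 197) (.e (nat_lit 532500) (nat_lit 1) (.e (nat_lit 57851) (nat_lit 252) (.e (nat_lit 57406) (nat_lit 12) (.e (nat_lit 336367) (nat_lit 27) (.e (nat_lit 426542) (nat_lit 29) (.e (nat_lit 352267) (nat_lit 0) .nil))))))) (.g (nat_lit 4) .nil .nil))) 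
(.lf (nat_lit 99685) (.g (nat_lit 4912) (.e (nat_lit 3236) (nat_lit 197) (.e (nat_lit 532550) (nat_lit 12) (.e (nat_lit 360474) (nat_lit 8) (.e (nat_lit 557093) (nat_lit 12) (.e (nat_lit 164022) (nat_lit 46) .nil))))) .nil)))) (.nd (nat_lit 5) (.nd (nat_lit 6) 
(.lf (nat_lit 99605) (.g (nat_lit 4819) (.e (nat_lit 3233) (nat_lit 197) (.e (nat_lit 532550) (nat_lit 12) (.e (nat_lit 360475) (nat_lit 8) (.e (nat_lit 557086) (nat_lit 11) .nil)))) .nil)) 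
(.lf (nat_lit 99669) (.g (nat_lit 3713) (.e (nat_lit 3236) (nat_lit 197) (.e (nat_lit 532499) (nat_lit 1) (.e (nat_lit 57847) (nat_lit 252) (.e (nat_lit 57408) (nat_lit 12) .nil)))) .nil))) (.nd (nat_lit 6) 
(.lf (nat_lit 99637) (.g (nat_lit 1689) (.e (nat_lit 3234) (nat_lit 197) (.e (nat_lit 532508) (nat_lit 2) (.e (nat_lit 106536) (nat_lit 11) (.e (nat_lit 16412) (nat_lit 2) (.e (nat_lit 196672) (nat_lit 15) .nil))))) .nil)) 
(.lf (nat_lit 99701) (.g (nat_lit 1416) (.e (nat_lit 3237) (nat_lit 197) (.e (nat_lit 532501) (nat_lit 1) (.e (nat_lit 57851) (nat_lit 252) .nil))) .nil))))) (.nd (nat_lit 4) (.nd (nat_lit 5) (.nd (nat_lit 6) 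
(.lf (nat_lit 99597) (.g (nat_lit 1944) (.e (nat_lit 3233) (nat_lit 197) (.e (nat_lit 532544) (nat_lit 10) (.e (nat_lit 344130) (nat_lit 26) (.e (nat_lit 557097) (nat_lit 13) (.e (nat_lit 172064) (nat_lit 2) .nil))))) .nil)) 
(.lf (nat_lit 99661) (.g (nat_lit 1423) (.e (nat_lit 3235) (nat_lit 197) (.e (nat_lit 532501) (nat_lit 1) (.e (nat_lit 57851) (nat_lit 252) .nil))) .nil))) (.nd (nat_lit 6) 
(.lf (nat_lit 99629) (.g (nat_lit 514) (.e (nat_lit 3234) (nat_lit 197) (.e (nat_lit 532501) (nat_lit 1) (.e (nat_lit 57854) (nat_lit 252) .nil))) .nil)) 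
(.lf (nat_lit 99693) (.g (nat_lit 3574) (.e (nat_lit 3237) (nat_lit 197) (.e (nat_lit 532499) (nat_lit 1) (.e (nat_lit 57847) (nat_lit 252) (.e (nat_lit 57446) (nat_lit 19) .nil)))) .nil)))) (.nd (nat_lit 5) (.nd (nat_lit 6) 
(.lf (nat_lit 99613) (.g (nat_lit 2038) (.e (nat_lit 3234) (nat_lit 197) (.e (nat_lit 532499) (nat_lit 1) (.e (nat_lit 57847) (nat_lit 252) (.e (nat_lit 57445) (nat_lit 19) .nil)))) .nil)) 
(.lf (nat_lit 99677) (.g (nat_lit 1428) (.e (nat_lit 3236) (nat_lit 197) (.e (nat_lit 532501) (nat_lit 1) (.e (nat_lit 57851) (nat_lit 252) .nil))) .nil))) (.nd (nat_lit 6) 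
(.lf (nat_lit 99645) (.g (nat_lit 2375) (.e (nat_lit 3234) (nat_lit 197) (.e (nat_lit 532543) (nat_lit 10) (.e (nat_lit 344169) (nat_lit 40) (.e (nat_lit 671759) (nat_lit 3) (.e (nat_lit 57479) (nat_lit 28) (.e (nat_lit 557109) (nat_lit 15) (.e (nat_lit 196352) (nat_lit 20) .nil))))))) (.g (nat_lit 6) .nil .nil))) 
(.lf (nat_lit 99709) (.g (nat_lit 2679) (.e (nat_lit 3237) (nat_lit 197) (.e (nat_lit 532522) (nat_lit 7) (.e (nat_lit 319530) (nat_lit 16) (.e (nat_lit 286733) (nat_lit 2) (.e (nat_lit 90169) (nat_lit 13) .nil))))) .nil))))))) (.nd (nat_lit 2) (.nd (nat_lit 3) (.nd (nat_lit 4) (.nd (nat_lit 5) (.nd (nat_lit 6) 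
(.lf (nat_lit 99587) (.g (nat_lit 1614) (.e (nat_lit 3233) (nat_lit 197) (.e (nat_lit 532511) (nat_lit 2) (.e (nat_lit 106536) (nat_lit 11) (.e (nat_lit 16416) (nat_lit 3) (.e (nat_lit 204876) (nat_lit 31) (.e (nat_lit 376833) (nat_lit 0) .nil)))))) (.g (nat_lit 4) .nil .nil))) 
(.lf (nat_lit 99651) (.g (nat_lit 4277) (.e (nat_lit 3234) (nat_lit 197) (.e (nat_lit 532550) (nat_lit 12) (.e (nat_lit 360474) (nat_lit 8) (.e (nat_lit 557093) (nat_lit 12) .nil)))) .nil))) (.nd (nat_lit 6) 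
(.lf (nat_lit 99619) (.g (nat_lit 650) (.e (nat_lit 3234) (nat_lit 197) (.e (nat_lit 532500) (nat_lit 1) (.e (nat_lit 57851) (nat_lit 252) .nil))) .nil)) 
(.lf (nat_lit 99683) (.g (nat_lit 2677) (.e (nat_lit 3236) (nat_lit 197) (.e (nat_lit 532522) (nat_lit 7) (.e (nat_lit 319530) (nat_lit 16) (.e (nat_lit 286733) (nat_lit 2) (.e (nat_lit 90169) (nat_lit 13) .nil))))) .nil)))) (.nd (nat_lit 5) (.nd (nat_lit 6) 
(.lf (nat_lit 99603) (.g (nat_lit 3891) (.e (nat_lit 3233) (nat_lit 197) (.e (nat_lit 532550) (nat_lit 12) (.e (nat_lit 360474) (nat_lit 8) (.e (nat_lit 557085) (nat_lit 11) .nil)))) .nil)) 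
(.lf (nat_lit 99667) (.g (nat_lit 7510) (.e (nat_lit 3235) (nat_lit 197) (.e (nat_lit 532550) (nat_lit 12) (.e (nat_lit 360475) (nat_lit 8) (.e (nat_lit 557090) (nat_lit 12) .nil)))) .nil))) (.nd (nat_lit 6) 
(.lf (nat_lit 99635) (.g (nat_lit 1752) (.e (nat_lit 3234) (nat_lit 197) (.e (nat_lit 532504) (nat_lit 1) (.e (nat_lit 57851) (nat_lit 252) (.e (nat_lit 57446) (nat_lit 19) .nil)))) .nil)) 
(.lf (nat_lit 99699) (.g (nat_lit 1953) (.e (nat_lit 3237) (nat_lit 197) (.e (nat_lit 532499) (nat_lit 1) (.e (nat_lit 57927) (nat_lit 282) (.e (nat_lit 163875) (nat_lit 3) (.e (nat_lit 204872) (nat_lit 30) .nil))))) .nil))))) (.nd (nat_lit 4) (.nd (nat_lit 5) (.nd (nat_lit 6) 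
(.lf (nat_lit 99595) (.g (nat_lit 2810) (.e (nat_lit 3233) (nat_lit 197) (.e (nat_lit 532543) (nat_lit 10) (.e (nat_lit 344133) (nat_lit 26) (.e (nat_lit 557098) (nat_lit 13) (.e (nat_lit 172064) (nat_lit 2) (.e (nat_lit 204544) (nat_lit 2) (.e (nat_lit 24666) (nat_lit 15) .nil))))))) (.g (nat_lit 5) .nil .nil))) 
(.lf (nat_lit 99659) (.g (nat_lit 2479) (.e (nat_lit 3235) (nat_lit 197) (.e (nat_lit 532499) (nat_lit 1) (.e (nat_lit 57847) (nat_lit 252) (.e (nat_lit 57445) (nat_lit 19) .nil)))) .nil))) (.nd (nat_lit 6) 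
(.lf (nat_lit 99627) (.g (nat_lit 2344) (.e (nat_lit 3234) (nat_lit 197) (.e (nat_lit 532501) (nat_lit 1) (.e (nat_lit 57852) (nat_lit 252) (.e (nat_lit 57445) (nat_lit 19) (.e (nat_lit 401152) (nat_lit 11) .nil))))) .nil)) 
(.lf (nat_lit 99691) (.g (nat_lit 4437) (.e (nat_lit 3236) (nat_lit 197) (.e (nat_lit 532563) (nat_lit 15) (.e (nat_lit 385094) (nat_lit 49) (.e (nat_lit 778317) (nat_lit 3) (.e (nat_lit 57480) (nat_lit 28) (.e (nat_lit 557109) (nat_lit 15) (.e (nat_lit 188433) (nat_lit 20) .nil))))))) (.g (nat_lit 6) .nil .nil))))) (.nd (nat_lit 5) (.nd (nat_lit 6) 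
(.lf (nat_lit 99611) (.g (nat_lit 3639) (.e (nat_lit 3234) (nat_lit 197) (.e (nat_lit 532499) (nat_lit 1) (.e (nat_lit 57847) (nat_lit 252) (.e (nat_lit 57408) (nat_lit 12) .nil)))) .nil)) 
(.lf (nat_lit 99675) (.g (nat_lit 2843) (.e (nat_lit 3236) (nat_lit 197) (.e (nat_lit 532499) (nat_lit 1) (.e (nat_lit 57931) (nat_lit 282) (.e (nat_lit 163869) (nat_lit 2) (.e (nat_lit 196670) (nat_lit 14) .nil))))) .nil))) (.nd (nat_lit 6) 
(.lf (nat_lit 99643) (.g (nat_lit 2020) (.e (nat_lit 3234) (nat_lit 197) (.e (nat_lit 532535) (nat_lit 9) (.e (nat_lit 335928) (nat_lit 0) (.e (nat_lit 2005) (nat_lit 138) .nil)))) .nil)) 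
(.lf (nat_lit 99707) (.g (nat_lit 2243) (.e (nat_lit 3237) (nat_lit 197) (.e (nat_lit 532504) (nat_lit 1) (.e (nat_lit 57851) (nat_lit 252) (.e (nat_lit 57446) (nat_lit 19) .nil)))) .nil)))))) (.nd (nat_lit 3) (.nd (nat_lit 4) (.nd (nat_lit 5) (.nd (nat_lit 6) 
(.lf (nat_lit 99591) (.g (nat_lit 1629) (.e (nat_lit 3233) (nat_lit 197) (.e (nat_lit 532523) (nat_lit 7) (.e (nat_lit 319531) (nat_lit 16) (.e (nat_lit 286727) (nat_lit 0) .nil)))) .nil)) 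
(.lf (nat_lit 99655) (.g (nat_lit 4830) (.e (nat_lit 3234) (nat_lit 197) (.e (nat_lit 532550) (nat_lit 12) (.e (nat_lit 360475) (nat_lit 8) (.e (nat_lit 557091) (nat_lit 12) .nil)))) .nil))) (.nd (nat_lit 6) 
(.lf (nat_lit 99623) (.g (nat_lit 1942) (.e (nat_lit 3234) (nat_lit 197) (.e (nat_lit 532501) (nat_lit 1) (.e (nat_lit 57851) (nat_lit 252) (.e (nat_lit 57445) (nat_lit 19) (.e (nat_lit 401152) (nat_lit 11) (.e (nat_lit 352265) (nat_lit 0) .nil)))))) (.g (nat_lit 4) .nil .nil))) 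
(.lf (nat_lit 99687) (.g (nat_lit 4712) (.e (nat_lit 3236) (nat_lit 197) (.e (nat_lit 532550) (nat_lit 12) (.e (nat_lit 360474) (nat_lit 8) (.e (nat_lit 557094) (nat_lit 12) (.e (nat_lit 164022) (nat_lit 46) .nil))))) .nil)))) (.nd (nat_lit 5) (.nd (nat_lit 6) 
(.lf (nat_lit 99607) (.g (nat_lit 2472) (.e (nat_lit 3233) (nat_lit 197) (.e (nat_lit 532560) (nat_lit 14) (.e (nat_lit 376865) (nat_lit 22) (.e (nat_lit 90185) (nat_lit 17) (.e (nat_lit 237584) (nat_lit 1) .nil))))) .nil)) 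
(.lf (nat_lit 99671) (.g (nat_lit 2163) (.e (nat_lit 3236) (nat_lit 197) (.e (nat_lit 532499) (nat_lit 1) (.e (nat_lit 57927) (nat_lit 282) (.e (nat_lit 163868) (nat_lit 2) (.e (nat_lit 196668) (nat_lit 14) .nil))))) .nil))) (.nd (nat_lit 6) 
(.lf (nat_lit 99639) (.g (nat_lit 1547) (.e (nat_lit 3234) (nat_lit 197) (.e (nat_lit 532511) (nat_lit 2) (.e (nat_lit 106536) (nat_lit 11) (.e (nat_lit 16412) (nat_lit 2) (.e (nat_lit 196672) (nat_lit 15) .nil))))) .nil)) 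
(.lf (nat_lit 99703) (.g (nat_lit 2458) (.e (nat_lit 3237) (nat_lit 197) (.e (nat_lit 532503) (nat_lit 1) (.e (nat_lit 57931) (nat_lit 282) (.e (nat_lit 163869) (nat_lit 2) (.e (nat_lit 196670) (nat_lit 14) .nil))))) .nil))))) (.nd (nat_lit 4) (.nd (nat_lit 5) (.nd (nat_lit 6) 
(.lf (nat_lit 99599) (.g (nat_lit 2311) (.e (nat_lit 3233) (nat_lit 197) (.e (nat_lit 532544) (nat_lit 10) (.e (nat_lit 344132) (nat_lit 26) (.e (nat_lit 557100) (nat_lit 13) (.e (nat_lit 172064) (nat_lit 2) (.e (nat_lit 204544) (nat_lit 2) (.e (nat_lit 24667) (nat_lit 15) .nil))))))) (.g (nat_lit 4) .nil .nil))) 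
(.lf (nat_lit 99663) (.g (nat_lit 2204) (.e (nat_lit 3235) (nat_lit 197) (.e (nat_lit 532504) (nat_lit 1) (.e (nat_lit 57851) (nat_lit 252) (.e (nat_lit 57445) (nat_lit 19) .nil)))) .nil))) (.nd (nat_lit 6) 
(.lf (nat_lit 99631) (.g (nat_lit 2447) (.e (nat_lit 3234) (nat_lit 197) (.e (nat_lit 532503) (nat_lit 1) (.e (nat_lit 57847) (nat_lit 252) (.e (nat_lit 57446) (nat_lit 19) .nil)))) .nil)) 
(.lf (nat_lit 99695) (.g (nat_lit 2104) (.e (nat_lit 3237) (nat_lit 197) (.e (nat_lit 532499) (nat_lit 1) (.e (nat_lit 57927) (nat_lit 282) (.e (nat_lit 163868) (nat_lit 2) (.e (nat_lit 196663) (nat_lit 13) .nil))))) .nil)))) (.nd (nat_lit 5) (.nd (nat_lit 6) 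
(.lf (nat_lit 99615) (.g (nat_lit 2014) (.e (nat_lit 3234) (nat_lit 197) (.e (nat_lit 532499) (nat_lit 1) (.e (nat_lit 57847) (nat_lit 252) (.e (nat_lit 57446) (nat_lit 19) (.e (nat_lit 401152) (nat_lit 11) .nil))))) .nil)) 
(.lf (nat_lit 99679) (.g (nat_lit 1306) (.e (nat_lit 3236) (nat_lit 197) (.e (nat_lit 532504) (nat_lit 1) (.e (nat_lit 57851) (nat_lit 252) .nil))) .nil))) (.nd (nat_lit 6) 
(.lf (nat_lit 99647) (.g (nat_lit 3529) (.e (nat_lit 3234) (nat_lit 197) (.e (nat_lit 532544) (nat_lit 10) (.e (nat_lit 344169) (nat_lit 40) (.e (nat_lit 671759) (nat_lit 3) (.e (nat_lit 57479) (nat_lit 28) (.e (nat_lit 557109) (nat_lit 15) (.e (nat_lit 196352) (nat_lit 20) .nil))))))) (.g (nat_lit 6) .nil .nil))) 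
(.lf (nat_lit 99711) (.g (nat_lit 2837) (.e (nat_lit 3237) (nat_lit 197) (.e (nat_lit 532522) (nat_lit 7) (.e (nat_lit 319531) (nat_lit 16) (.e (nat_lit 286733) (nat_lit 2) (.e (nat_lit 90178) (nat_lit 15) .nil))))) .nil)))))))))

noncomputable def tv1363 : DT := (.nd (nat_lit 0) (.nd (nat_lit 1) (.nd (nat_lit 2) (.nd (nat_lit 3) (.nd (nat_lit 4) (.nd (nat_lit 5) 
(.lf (nat_lit 99712) (.g (nat_lit 3664) (.e (nat_lit 3237) (nat_lit 197) (.e (nat_lit 532535) (nat_lit 9) (.e (nat_lit 336099) (nat_lit 9) (.e (nat_lit 336028) (nat_lit 3) (.e (nat_lit 98349) (nat_lit 24) .nil))))) .nil)) 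
(.lf (nat_lit 99744) (.g (nat_lit 3831) (.e (nat_lit 3238) (nat_lit 197) (.e (nat_lit 532499) (nat_lit 1) (.e (nat_lit 57849) (nat_lit 252) (.e (nat_lit 57448) (nat_lit 19) (.e (nat_lit 393229) (nat_lit 9) (.e (nat_lit 336086) (nat_lit 9) (.e (nat_lit 336306) (nat_lit 15) .nil))))))) (.g (nat_lit 0) .nil .nil)))) (.nd (nat_lit 5) 
(.lf (nat_lit 99728) (.g (nat_lit 5387) (.e (nat_lit 3238) (nat_lit 197) (.e (nat_lit 532499) (nat_lit 1) (.e (nat_lit 57847) (nat_lit 252) (.e (nat_lit 57407) (nat_lit 12) (.e (nat_lit 336454) (nat_lit 34) (.e (nat_lit 483385) (nat_lit 23) (.e (nat_lit 336306) (nat_lit 15) .nil))))))) (.g (nat_lit 0) .nil .nil))) 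
(.lf (nat_lit 99760) (.g (nat_lit 2861) (.e (nat_lit 3238) (nat_lit 197) (.e (nat_lit 532500) (nat_lit 1) (.e (nat_lit 57854) (nat_lit 252) (.e (nat_lit 57445) (nat_lit 19) (.e (nat_lit 393229) (nat_lit 9) (.e (nat_lit 336085) (nat_lit 9) (.e (nat_lit 336306) (nat_lit 15) .nil))))))) (.g (nat_lit 5) .nil .nil))))) (.nd (nat_lit 4) (.nd (nat_lit 5) 
(.lf (nat_lit 99720) (.g (nat_lit 2785) (.e (nat_lit 3238) (nat_lit 197) (.e (nat_lit 532484) (nat_lit 0) (.e (nat_lit 2031) (nat_lit 140) (.e (nat_lit 688177) (nat_lit 16) (.e (nat_lit 65569) (nat_lit 3) (.e (nat_lit 98359) (nat_lit 26) (.e (nat_lit 426338) (nat_lit 14) (.e (nat_lit 491577) (nat_lit 15) .nil)))))))) (.g (nat_lit 4) .nil .nil))) 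
(.lf (nat_lit 99752) (.g (nat_lit 2159) (.e (nat_lit 3238) (nat_lit 197) (.e (nat_lit 532500) (nat_lit 1) (.e (nat_lit 57851) (nat_lit 252) (.e (nat_lit 57445) (nat_lit 19) (.e (nat_lit 401152) (nat_lit 11) (.e (nat_lit 360192) (nat_lit 0) .nil)))))) (.g (nat_lit 4) .nil .nil)))) (.nd (nat_lit 5) 
(.lf (nat_lit 99736) (.g (nat_lit 3612) (.e (nat_lit 3238) (nat_lit 197) (.e (nat_lit 532499) (nat_lit 1) (.e (nat_lit 57847) (nat_lit 252) (.e (nat_lit 57446) (nat_lit 19) (.e (nat_lit 393229) (nat_lit 9) (.e (nat_lit 336085) (nat_lit 9) (.e (nat_lit 336306) (nat_lit 15) .nil))))))) (.g (nat_lit 5) .nil .nil))) 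
(.lf (nat_lit 99768) (.g (nat_lit 1759) (.e (nat_lit 3238) (nat_lit 197) (.e (nat_lit 532502) (nat_lit 1) (.e (nat_lit 57847) (nat_lit 252) (.e (nat_lit 57448) (nat_lit 19) (.e (nat_lit 393229) (nat_lit 9) (.e (nat_lit 336086) (nat_lit 9) (.e (nat_lit 336306) (nat_lit 15) .nil))))))) (.g (nat_lit 4) .nil .nil)))))) (.nd (nat_lit 3) (.nd (nat_lit 4) (.nd (nat_lit 5) 
(.lf (nat_lit 99716) (.g (nat_lit 2825) (.e (nat_lit 3237) (nat_lit 197) (.e (nat_lit 532563) (nat_lit 15) (.e (nat_lit 385094) (nat_lit 49) (.e (nat_lit 778317) (nat_lit 3) (.e (nat_lit 57480) (nat_lit 28) (.e (nat_lit 557109) (nat_lit 15) (.e (nat_lit 188424) (nat_lit 20) .nil))))))) (.g (nat_lit 4) .nil .nil))) 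
(.lf (nat_lit 99748) (.g (nat_lit 3880) (.e (nat_lit 3238) (nat_lit 197) (.e (nat_lit 532500) (nat_lit 1) (.e (nat_lit 57851) (nat_lit 252) (.e (nat_lit 57445) (nat_lit 19) (.e (nat_lit 393229) (nat_lit 9) (.e (nat_lit 336085) (nat_lit 9) (.e (nat_lit 336306) (nat_lit 15) .nil))))))) (.g (nat_lit 0) .nil .nil)))) (.nd (nat_lit 5) 
(.lf (nat_lit 99732) (.g (nat_lit 3976) (.e (nat_lit 3238) (nat_lit 197) (.e (nat_lit 532499) (nat_lit 1) (.e (nat_lit 57847) (nat_lit 252) (.e (nat_lit 57411) (nat_lit 12) (.e (nat_lit 336454) (nat_lit 34) (.e (nat_lit 483385) (nat_lit 23) (.e (nat_lit 336260) (nat_lit 15) .nil))))))) (.g (nat_lit 6) .nil .nil))) 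
(.lf (nat_lit 99764) (.g (nat_lit 2421) (.e (nat_lit 3238) (nat_lit 197) (.e (nat_lit 532501) (nat_lit 1) (.e (nat_lit 57851) (nat_lit 252) (.e (nat_lit 57446) (nat_lit 19) .nil)))) .nil)))) (.nd (nat_lit 4) (.nd (nat_lit 5) 
(.lf (nat_lit 99724) (.g (nat_lit 2251) (.e (nat_lit 3238) (nat_lit 197) (.e (nat_lit 532499) (nat_lit 1) (.e (nat_lit 57688) (nat_lit 156) (.e (nat_lit 163868) (nat_lit 2) (.e (nat_lit 196624) (nat_lit 9) .nil))))) .nil)) 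
(.lf (nat_lit 99756) (.g (nat_lit 2010) (.e (nat_lit 3238) (nat_lit 197) (.e (nat_lit 532500) (nat_lit 1) (.e (nat_lit 57851) (nat_lit 252) (.e (nat_lit 57446) (nat_lit 19) (.e (nat_lit 401152) (nat_lit 11) (.e (nat_lit 360192) (nat_lit 0) .nil)))))) (.g (nat_lit 4) .nil .nil)))) (.nd (nat_lit 5) 
(.lf (nat_lit 99740) (.g (nat_lit 3532) (.e (nat_lit 3238) (nat_lit 197) (.e (nat_lit 532499) (nat_lit 1) (.e (nat_lit 57849) (nat_lit 252) (.e (nat_lit 57407) (nat_lit 12) (.e (nat_lit 336454) (nat_lit 34) (.e (nat_lit 483385) (nat_lit 23) (.e (nat_lit 336260) (nat_lit 15) .nil))))))) (.g (nat_lit 6) .nil .nil))) 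
(.lf (nat_lit 99772) (.g (nat_lit 2494) (.e (nat_lit 3238) (nat_lit 197) (.e (nat_lit 532502) (nat_lit 1) (.e (nat_lit 57854) (nat_lit 252) (.e (nat_lit 57409) (nat_lit 12) (.e (nat_lit 336454) (nat_lit 34) (.e (nat_lit 483385) (nat_lit 23) (.e (nat_lit 336306) (nat_lit 15) .nil))))))) (.g (nat_lit 5) .nil .nil))))))) (.nd (nat_lit 2) (.nd (nat_lit 3) (.nd (nat_lit 4) (.nd (nat_lit 5) 
(.lf (nat_lit 99714) (.g (nat_lit 3415) (.e (nat_lit 3237) (nat_lit 197) (.e (nat_lit 532563) (nat_lit 15) (.e (nat_lit 385094) (nat_lit 49) (.e (nat_lit 778317) (nat_lit 3) (.e (nat_lit 57476) (nat_lit 28) (.e (nat_lit 557108) (nat_lit 15) (.e (nat_lit 188433) (nat_lit 20) .nil))))))) (.g (nat_lit 5) .nil .nil))) 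
(.lf (nat_lit 99746) (.g (nat_lit 3658) (.e (nat_lit 3238) (nat_lit 197) (.e (nat_lit 532499) (nat_lit 1) (.e (nat_lit 57854) (nat_lit 252) (.e (nat_lit 57447) (nat_lit 19) (.e (nat_lit 393229) (nat_lit 9) (.e (nat_lit 336086) (nat_lit 9) (.e (nat_lit 336306) (nat_lit 15) .nil))))))) (.g (nat_lit 5) .nil .nil)))) (.nd (nat_lit 5) 
(.lf (nat_lit 99730) (.g (nat_lit 3896) (.e (nat_lit 3238) (nat_lit 197) (.e (nat_lit 532499) (nat_lit 1) (.e (nat_lit 57847) (nat_lit 252) (.e (nat_lit 57409) (nat_lit 12) (.e (nat_lit 336454) (nat_lit 34) (.e (nat_lit 483385) (nat_lit 23) (.e (nat_lit 336260) (nat_lit 15) .nil))))))) (.g (nat_lit 5) .nil .nil))) 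
(.lf (nat_lit 99762) (.g (nat_lit 2467) (.e (nat_lit 3238) (nat_lit 197) (.e (nat_lit 532501) (nat_lit 1) (.e (nat_lit 57851) (nat_lit 252) (.e (nat_lit 57445) (nat_lit 19) .nil)))) .nil)))) (.nd (nat_lit 4) (.nd (nat_lit 5) 
(.lf (nat_lit 99722) (.g (nat_lit 1963) (.e (nat_lit 3238) (nat_lit 197) (.e (nat_lit 532490) (nat_lit 0) (.e (nat_lit 2391) (nat_lit 156) (.e (nat_lit 819204) (nat_lit 0) (.e (nat_lit 2685) (nat_lit 168) .nil))))) .nil)) 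
(.lf (nat_lit 99754) (.g (nat_lit 2033) (.e (nat_lit 3238) (nat_lit 197) (.e (nat_lit 532500) (nat_lit 1) (.e (nat_lit 57851) (nat_lit 252) (.e (nat_lit 57446) (nat_lit 19) (.e (nat_lit 393229) (nat_lit 9) (.e (nat_lit 336087) (nat_lit 9) (.e (nat_lit 336303) (nat_lit 15) .nil))))))) (.g (nat_lit 5) .nil .nil)))) (.nd (nat_lit 5) 
(.lf (nat_lit 99738) (.g (nat_lit 4794) (.e (nat_lit 3238) (nat_lit 197) (.e (nat_lit 532499) (nat_lit 1) (.e (nat_lit 57847) (nat_lit 252) (.e (nat_lit 57447) (nat_lit 19) (.e (nat_lit 393229) (nat_lit 9) (.e (nat_lit 336086) (nat_lit 9) (.e (nat_lit 336306) (nat_lit 15) .nil))))))) (.g (nat_lit 7) .nil .nil))) 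
(.lf (nat_lit 99770) (.g (nat_lit 1905) (.e (nat_lit 3238) (nat_lit 197) (.e (nat_lit 532502) (nat_lit 1) (.e (nat_lit 57849) (nat_lit 252) (.e (nat_lit 57448) (nat_lit 19) (.e (nat_lit 393229) (nat_lit 9) (.e (nat_lit 336086) (nat_lit 9) (.e (nat_lit 336306) (nat_lit 15) .nil))))))) (.g (nat_lit 4) .nil .nil)))))) (.nd (nat_lit 3) (.nd (nat_lit 4) (.nd (nat_lit 5) 
(.lf (nat_lit 99718) (.g (nat_lit 3699) (.e (nat_lit 3238) (nat_lit 197) (.e (nat_lit 532481) (nat_lit 0) (.e (nat_lit 2031) (nat_lit 140) (.e (nat_lit 688177) (nat_lit 16) (.e (nat_lit 65571) (nat_lit 3) (.e (nat_lit 98359) (nat_lit 26) (.e (nat_lit 426338) (nat_lit 14) (.e (nat_lit 491577) (nat_lit 15) .nil)))))))) (.g (nat_lit 5) .nil .nil))) 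
(.lf (nat_lit 99750) (.g (nat_lit 2110) (.e (nat_lit 3238) (nat_lit 197) (.e (nat_lit 532500) (nat_lit 1) (.e (nat_lit 57851) (nat_lit 252) (.e (nat_lit 57445) (nat_lit 19) (.e (nat_lit 393229) (nat_lit 9) (.e (nat_lit 336088) (nat_lit 9) (.e (nat_lit 336257) (nat_lit 15) .nil))))))) (.g (nat_lit 4) .nil .nil)))) (.nd (nat_lit 5) 
(.lf (nat_lit 99734) (.g (nat_lit 4495) (.e (nat_lit 3238) (nat_lit 197) (.e (nat_lit 532499) (nat_lit 1) (.e (nat_lit 57847) (nat_lit 252) (.e (nat_lit 57445) (nat_lit 19) (.e (nat_lit 393229) (nat_lit 9) (.e (nat_lit 336086) (nat_lit 9) (.e (nat_lit 336306) (nat_lit 15) .nil))))))) (.g (nat_lit 0) .nil .nil))) 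
(.lf (nat_lit 99766) (.g (nat_lit 3000) (.e (nat_lit 3238) (nat_lit 197) (.e (nat_lit 532501) (nat_lit 1) (.e (nat_lit 57852) (nat_lit 252) (.e (nat_lit 57445) (nat_lit 19) (.e (nat_lit 393229) (nat_lit 9) (.e (nat_lit 336086) (nat_lit 9) (.e (nat_lit 336306) (nat_lit 15) .nil))))))) (.g (nat_lit 4) .nil .nil))))) (.nd (nat_lit 4) (.nd (nat_lit 5) 
(.lf (nat_lit 99726) (.g (nat_lit 2834) (.e (nat_lit 3238) (nat_lit 197) (.e (nat_lit 532499) (nat_lit 1) (.e (nat_lit 57847) (nat_lit 252) (.e (nat_lit 57407) (nat_lit 12) (.e (nat_lit 336454) (nat_lit 34) (.e (nat_lit 483384) (nat_lit 23) (.e (nat_lit 336306) (nat_lit 15) .nil))))))) (.g (nat_lit 4) .nil .nil))) 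
(.lf (nat_lit 99758) (.g (nat_lit 2677) (.e (nat_lit 3238) (nat_lit 197) (.e (nat_lit 532500) (nat_lit 1) (.e (nat_lit 57852) (nat_lit 252) (.e (nat_lit 57447) (nat_lit 19) (.e (nat_lit 393229) (nat_lit 9) (.e (nat_lit 336086) (nat_lit 9) (.e (nat_lit 336306) (nat_lit 15) .nil))))))) (.g (nat_lit 4) .nil .nil)))) (.nd (nat_lit 5) 
(.lf (nat_lit 99742) (.g (nat_lit 4234) (.e (nat_lit 3238) (nat_lit 197) (.e (nat_lit 532499) (nat_lit 1) (.e (nat_lit 57849) (nat_lit 252) (.e (nat_lit 57411) (nat_lit 12) (.e (nat_lit 336454) (nat_lit 34) (.e (nat_lit 483385) (nat_lit 23) (.e (nat_lit 336306) (nat_lit 15) .nil))))))) (.g (nat_lit 0) .nil .nil))) 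
(.lf (nat_lit 99774) (.g (nat_lit 2588) (.e (nat_lit 3238) (nat_lit 197) (.e (nat_lit 532502) (nat_lit 1) (.e (nat_lit 57854) (nat_lit 252) (.e (nat_lit 57447) (nat_lit 19) (.e (nat_lit 393229) (nat_lit 9) (.e (nat_lit 336086) (nat_lit 9) (.e (nat_lit 336306) (nat_lit 15) .nil))))))) (.g (nat_lit 5) .nil .nil)))))))) 
(.nd (nat_lit 1) (.nd (nat_lit 2) (.nd (nat_lit 3) (.nd (nat_lit 4) (.nd (nat_lit 5) 
(.lf (nat_lit 99713) (.g (nat_lit 4938) (.e (nat_lit 3237) (nat_lit 197) (.e (nat_lit 532550) (nat_lit 12) (.e (nat_lit 360474) (nat_lit 8) (.e (nat_lit 557093) (nat_lit 12) (.e (nat_lit 164023) (nat_lit 46) .nil))))) .nil)) 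
(.lf (nat_lit 99745) (.g (nat_lit 3408) (.e (nat_lit 3238) (nat_lit 197) (.e (nat_lit 532499) (nat_lit 1) (.e (nat_lit 57854) (nat_lit 252) (.e (nat_lit 57445) (nat_lit 19) (.e (nat_lit 393229) (nat_lit 9) (.e (nat_lit 336086) (nat_lit 9) (.e (nat_lit 336306) (nat_lit 15) .nil))))))) (.g (nat_lit 5) .nil .nil)))) (.nd (nat_lit 5) 
(.lf (nat_lit 99729) (.g (nat_lit 3029) (.e (nat_lit 3238) (nat_lit 197) (.e (nat_lit 532499) (nat_lit 1) (.e (nat_lit 57847) (nat_lit 252) (.e (nat_lit 57409) (nat_lit 12) (.e (nat_lit 336454) (nat_lit 34) (.e (nat_lit 483384) (nat_lit 23) (.e (nat_lit 336306) (nat_lit 15) .nil))))))) (.g (nat_lit 4) .nil .nil))) 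
(.lf (nat_lit 99761) (.g (nat_lit 2390) (.e (nat_lit 3238) (nat_lit 197) (.e (nat_lit 532500) (nat_lit 1) (.e (nat_lit 57854) (nat_lit 252) (.e (nat_lit 57447) (nat_lit 19) (.e (nat_lit 393229) (nat_lit 9) (.e (nat_lit 336085) (nat_lit 9) (.e (nat_lit 336306) (nat_lit 15) .nil))))))) (.g (nat_lit 4) .nil .nil))))) (.nd (nat_lit 4) (.nd (nat_lit 5) 
(.lf (nat_lit 99721) (.g (nat_lit 599) (.e (nat_lit 3238) (nat_lit 197) (.e (nat_lit 532490) (nat_lit 0) (.e (nat_lit 1040) (nat_lit 81) .nil))) .nil)) 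
(.lf (nat_lit 99753) (.g (nat_lit 1903) (.e (nat_lit 3238) (nat_lit 197) (.e (nat_lit 532500) (nat_lit 1) (.e (nat_lit 57851) (nat_lit 252) (.e (nat_lit 57446) (nat_lit 19) (.e (nat_lit 393227) (nat_lit 9) (.e (nat_lit 336154) (nat_lit 9) (.e (nat_lit 336305) (nat_lit 15) .nil))))))) (.g (nat_lit 4) .nil .nil)))) (.nd (nat_lit 5) 
(.lf (nat_lit 99737) (.g (nat_lit 3164) (.e (nat_lit 3238) (nat_lit 197) (.e (nat_lit 532499) (nat_lit 1) (.e (nat_lit 57847) (nat_lit 252) (.e (nat_lit 57447) (nat_lit 19) (.e (nat_lit 393229) (nat_lit 9) (.e (nat_lit 336085) (nat_lit 9) (.e (nat_lit 336306) (nat_lit 15) .nil))))))) (.g (nat_lit 4) .nil .nil))) 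
(.lf (nat_lit 99769) (.g (nat_lit 1934) (.e (nat_lit 3238) (nat_lit 197) (.e (nat_lit 532502) (nat_lit 1) (.e (nat_lit 57849) (nat_lit 252) (.e (nat_lit 57445) (nat_lit 19) (.e (nat_lit 393229) (nat_lit 9) (.e (nat_lit 336086) (nat_lit 9) (.e (nat_lit 336306) (nat_lit 15) .nil))))))) (.g (nat_lit 5) .nil .nil)))))) (.nd (nat_lit 3) (.nd (nat_lit 4) (.nd (nat_lit 5) 
(.lf (nat_lit 99717) (.g (nat_lit 3828) (.e (nat_lit 3238) (nat_lit 197) (.e (nat_lit 532481) (nat_lit 0) (.e (nat_lit 2031) (nat_lit 140) (.e (nat_lit 688177) (nat_lit 16) (.e (nat_lit 65569) (nat_lit 3) (.e (nat_lit 98359) (nat_lit 26) (.e (nat_lit 426338) (nat_lit 14) (.e (nat_lit 491577) (nat_lit 15) .nil)))))))) (.g (nat_lit 5) .nil .nil))) 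
(.lf (nat_lit 99749) (.g (nat_lit 3631) (.e (nat_lit 3238) (nat_lit 197) (.e (nat_lit 532500) (nat_lit 1) (.e (nat_lit 57851) (nat_lit 252) (.e (nat_lit 57445) (nat_lit 19) (.e (nat_lit 393229) (nat_lit 9) (.e (nat_lit 336087) (nat_lit 9) (.e (nat_lit 336303) (nat_lit 15) .nil))))))) (.g (nat_lit 5) .nil .nil)))) (.nd (nat_lit 5) 
(.lf (nat_lit 99733) (.g (nat_lit 4906) (.e (nat_lit 3238) (nat_lit 197) (.e (nat_lit 532499) (nat_lit 1) (.e (nat_lit 57847) (nat_lit 252) (.e (nat_lit 57411) (nat_lit 12) (.e (nat_lit 336454) (nat_lit 34) (.e (nat_lit 483385) (nat_lit 23) (.e (nat_lit 336306) (nat_lit 15) .nil))))))) (.g (nat_lit 0) .nil .nil))) 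
(.lf (nat_lit 99765) (.g (nat_lit 1906) (.e (nat_lit 3238) (nat_lit 197) (.e (nat_lit 532501) (nat_lit 1) (.e (nat_lit 57852) (nat_lit 252) (.e (nat_lit 57445) (nat_lit 19) .nil)))) .nil)))) (.nd (nat_lit 4) (.nd (nat_lit 5) 
(.lf (nat_lit 99725) (.g (nat_lit 2540) (.e (nat_lit 3238) (nat_lit 197) (.e (nat_lit 532499) (nat_lit 1) (.e (nat_lit 57847) (nat_lit 252) (.e (nat_lit 57405) (nat_lit 12) .nil)))) .nil)) 
(.lf (nat_lit 99757) (.g (nat_lit 2918) (.e (nat_lit 3238) (nat_lit 197) (.e (nat_lit 532500) (nat_lit 1) (.e (nat_lit 57852) (nat_lit 252) (.e (nat_lit 57446) (nat_lit 19) (.e (nat_lit 393229) (nat_lit 9) (.e (nat_lit 336085) (nat_lit 9) (.e (nat_lit 336306) (nat_lit 15) .nil))))))) (.g (nat_lit 4) .nil .nil)))) (.nd (nat_lit 5) 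
(.lf (nat_lit 99741) (.g (nat_lit 4703) (.e (nat_lit 3238) (nat_lit 197) (.e (nat_lit 532499) (nat_lit 1) (.e (nat_lit 57849) (nat_lit 252) (.e (nat_lit 57407) (nat_lit 12) (.e (nat_lit 336454) (nat_lit 34) (.e (nat_lit 483385) (nat_lit 23) (.e (nat_lit 336306) (nat_lit 15) .nil))))))) (.g (nat_lit 0) .nil .nil))) 
(.lf (nat_lit 99773) (.g (nat_lit 2371) (.e (nat_lit 3238) (nat_lit 197) (.e (nat_lit 532502) (nat_lit 1) (.e (nat_lit 57854) (nat_lit 252) (.e (nat_lit 57445) (nat_lit 19) (.e (nat_lit 393229) (nat_lit 9) (.e (nat_lit 336086) (nat_lit 9) (.e (nat_lit 336306) (nat_lit 15) .nil))))))) (.g (nat_lit 5) .nil .nil))))))) (.nd (nat_lit 2) (.nd (nat_lit 3) (.nd (nat_lit 4) (.nd (nat_lit 5) 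
(.lf (nat_lit 99715) (.g (nat_lit 3171) (.e (nat_lit 3237) (nat_lit 197) (.e (nat_lit 532563) (nat_lit 15) (.e (nat_lit 385094) (nat_lit 49) (.e (nat_lit 778317) (nat_lit 3) (.e (nat_lit 57477) (nat_lit 28) (.e (nat_lit 557108) (nat_lit 15) (.e (nat_lit 188433) (nat_lit 20) .nil))))))) (.g (nat_lit 5) .nil .nil))) 
(.lf (nat_lit 99747) (.g (nat_lit 2085) (.e (nat_lit 3238) (nat_lit 197) (.e (nat_lit 532500) (nat_lit 1) (.e (nat_lit 57851) (nat_lit 252) (.e (nat_lit 57445) (nat_lit 19) (.e (nat_lit 393227) (nat_lit 9) (.e (nat_lit 336154) (nat_lit 9) (.e (nat_lit 336305) (nat_lit 15) .nil))))))) (.g (nat_lit 5) .nil .nil)))) (.nd (nat_lit 5) 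
(.lf (nat_lit 99731) (.g (nat_lit 4757) (.e (nat_lit 3238) (nat_lit 197) (.e (nat_lit 532499) (nat_lit 1) (.e (nat_lit 57847) (nat_lit 252) (.e (nat_lit 57409) (nat_lit 12) (.e (nat_lit 336454) (nat_lit 34) (.e (nat_lit 483385) (nat_lit 23) (.e (nat_lit 336306) (nat_lit 15) .nil))))))) (.g (nat_lit 6) .nil .nil))) 
(.lf (nat_lit 99763) (.g (nat_lit 2936) (.e (nat_lit 3238) (nat_lit 197) (.e (nat_lit 532501) (nat_lit 1) (.e (nat_lit 57851) (nat_lit 252) (.e (nat_lit 57445) (nat_lit 19) (.e (nat_lit 393229) (nat_lit 9) .nil))))) .nil)))) (.nd (nat_lit 4) (.nd (nat_lit 5) 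
(.lf (nat_lit 99723) (.g (nat_lit 559) (.e (nat_lit 3238) (nat_lit 197) (.e (nat_lit 532490) (nat_lit 0) (.e (nat_lit 7936) (nat_lit 332) .nil))) .nil)) 
(.lf (nat_lit 99755) (.g (nat_lit 1896) (.e (nat_lit 3238) (nat_lit 197) (.e (nat_lit 532500) (nat_lit 1) (.e (nat_lit 57851) (nat_lit 252) (.e (nat_lit 57446) (nat_lit 19) (.e (nat_lit 393229) (nat_lit 9) (.e (nat_lit 336088) (nat_lit 9) (.e (nat_lit 336257) (nat_lit 15) .nil))))))) (.g (nat_lit 4) .nil .nil)))) (.nd (nat_lit 5) 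
(.lf (nat_lit 99739) (.g (nat_lit 2189) (.e (nat_lit 3238) (nat_lit 197) (.e (nat_lit 532499) (nat_lit 1) (.e (nat_lit 57849) (nat_lit 252) (.e (nat_lit 57407) (nat_lit 12) (.e (nat_lit 336454) (nat_lit 34) (.e (nat_lit 483384) (nat_lit 23) (.e (nat_lit 336306) (nat_lit 15) .nil))))))) (.g (nat_lit 4) .nil .nil))) 
(.lf (nat_lit 99771) (.g (nat_lit 2569) (.e (nat_lit 3238) (nat_lit 197) (.e (nat_lit 532502) (nat_lit 1) (.e (nat_lit 57852) (nat_lit 252) (.e (nat_lit 57445) (nat_lit 19) (.e (nat_lit 393229) (nat_lit 9) (.e (nat_lit 336086) (nat_lit 9) (.e (nat_lit 336306) (nat_lit 15) .nil))))))) (.g (nat_lit 6) .nil .nil)))))) (.nd (nat_lit 3) (.nd (nat_lit 4) (.nd (nat_lit 5) 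
(.lf (nat_lit 99719) (.g (nat_lit 586) (.e (nat_lit 3238) (nat_lit 197) (.e (nat_lit 532482) (nat_lit 0) (.e (nat_lit 2382) (nat_lit 155) (.e (nat_lit 811011) (nat_lit 0) .nil)))) .nil)) 
(.lf (nat_lit 99751) (.g (nat_lit 2147) (.e (nat_lit 3238) (nat_lit 197) (.e (nat_lit 532500) (nat_lit 1) (.e (nat_lit 57851) (nat_lit 252) (.e (nat_lit 57445) (nat_lit 19) (.e (nat_lit 393229) (nat_lit 9) (.e (nat_lit 336088) (nat_lit 9) (.e (nat_lit 336303) (nat_lit 15) .nil))))))) (.g (nat_lit 4) .nil .nil)))) (.nd (nat_lit 5) 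
(.lf (nat_lit 99735) (.g (nat_lit 1988) (.e (nat_lit 3238) (nat_lit 197) (.e (nat_lit 532499) (nat_lit 1) (.e (nat_lit 57847) (nat_lit 252) (.e (nat_lit 57446) (nat_lit 19) .nil)))) .nil)) 
(.lf (nat_lit 99767) (.g (nat_lit 2273) (.e (nat_lit 3238) (nat_lit 197) (.e (nat_lit 532502) (nat_lit 1) (.e (nat_lit 57847) (nat_lit 252) (.e (nat_lit 57445) (nat_lit 19) (.e (nat_lit 393229) (nat_lit 9) (.e (nat_lit 336086) (nat_lit 9) (.e (nat_lit 336306) (nat_lit 15) .nil))))))) (.g (nat_lit 5) .nil .nil))))) (.nd (nat_lit 4) (.nd (nat_lit 5) 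
(.lf (nat_lit 99727) (.g (nat_lit 4467) (.e (nat_lit 3238) (nat_lit 197) (.e (nat_lit 532499) (nat_lit 1) (.e (nat_lit 57847) (nat_lit 252) (.e (nat_lit 57407) (nat_lit 12) (.e (nat_lit 336454) (nat_lit 34) (.e (nat_lit 483385) (nat_lit 23) (.e (nat_lit 336260) (nat_lit 15) .nil))))))) (.g (nat_lit 6) .nil .nil))) 
(.lf (nat_lit 99759) (.g (nat_lit 3331) (.e (nat_lit 3238) (nat_lit 197) (.e (nat_lit 532500) (nat_lit 1) (.e (nat_lit 57853) (nat_lit 252) (.e (nat_lit 57445) (nat_lit 19) (.e (nat_lit 393229) (nat_lit 9) (.e (nat_lit 336086) (nat_lit 9) (.e (nat_lit 336306) (nat_lit 15) .nil))))))) (.g (nat_lit 4) .nil .nil)))) (.nd (nat_lit 5) 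
(.lf (nat_lit 99743) (.g (nat_lit 3860) (.e (nat_lit 3238) (nat_lit 197) (.e (nat_lit 532499) (nat_lit 1) (.e (nat_lit 57849) (nat_lit 252) (.e (nat_lit 57445) (nat_lit 19) (.e (nat_lit 393229) (nat_lit 9) (.e (nat_lit 336086) (nat_lit 9) (.e (nat_lit 336306) (nat_lit 15) .nil))))))) (.g (nat_lit 0) .nil .nil))) 
(.lf (nat_lit 99775) (.g (nat_lit 2106) (.e (nat_lit 3238) (nat_lit 197) (.e (nat_lit 532503) (nat_lit 1) (.e (nat_lit 57688) (nat_lit 156) (.e (nat_lit 163867) (nat_lit 2) (.e (nat_lit 196624) (nat_lit 9) .nil))))) .nil))))))))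

noncomputable def tv1364 : DT := (.nd (nat_lit 0) (.nd (nat_lit 1) (.nd (nat_lit 2) (.nd (nat_lit 3) (.nd (nat_lit 4) (.nd (nat_lit 5) 
(.lf (nat_lit 99776) (.g (nat_lit 2570) (.e (nat_lit 3238) (nat_lit 197) (.e (nat_lit 532503) (nat_lit 1) (.e (nat_lit 57846) (nat_lit 252) (.e (nat_lit 57445) (nat_lit 19) (.e (nat_lit 393229) (nat_lit 9) (.e (nat_lit 336086) (nat_lit 9) (.e (nat_lit 336306) (nat_lit 15) .nil))))))) (.g (nat_lit 5) .nil .nil))) 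
(.lf (nat_lit 99808) (.g (nat_lit 1473) (.e (nat_lit 3238) (nat_lit 197) (.e (nat_lit 532523) (nat_lit 7) (.e (nat_lit 319504) (nat_lit 10) (.e (nat_lit 5390) (nat_lit 301) .nil)))) .nil))) (.nd (nat_lit 5) 
(.lf (nat_lit 99792) (.g (nat_lit 4245) (.e (nat_lit 3238) (nat_lit 197) (.e (nat_lit 532522) (nat_lit 7) (.e (nat_lit 319530) (nat_lit 16) (.e (nat_lit 286733) (nat_lit 2) (.e (nat_lit 90178) (nat_lit 15) (.e (nat_lit 188441) (nat_lit 20) .nil)))))) (.g (nat_lit 5) .nil .nil))) 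
(.lf (nat_lit 99824) (.g (nat_lit 2986) (.e (nat_lit 3238) (nat_lit 197) (.e (nat_lit 532523) (nat_lit 7) (.e (nat_lit 319530) (nat_lit 16) (.e (nat_lit 286733) (nat_lit 2) (.e (nat_lit 90176) (nat_lit 15) .nil))))) .nil)))) (.nd (nat_lit 4) (.nd (nat_lit 5) 
(.lf (nat_lit 99784) (.g (nat_lit 3237) (.e (nat_lit 3238) (nat_lit 197) (.e (nat_lit 532522) (nat_lit 7) (.e (nat_lit 319530) (nat_lit 16) (.e (nat_lit 286727) (nat_lit 0) (.e (nat_lit 1799) (nat_lit 119) .nil))))) .nil)) 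
(.lf (nat_lit 99816) (.g (nat_lit 875) (.e (nat_lit 3238) (nat_lit 197) (.e (nat_lit 532523) (nat_lit 7) (.e (nat_lit 319524) (nat_lit 14) .nil))) .nil))) (.nd (nat_lit 5) 
(.lf (nat_lit 99800) (.g (nat_lit 3159) (.e (nat_lit 3238) (nat_lit 197) (.e (nat_lit 532522) (nat_lit 7) (.e (nat_lit 319531) (nat_lit 16) (.e (nat_lit 286733) (nat_lit 2) (.e (nat_lit 90177) (nat_lit 15) (.e (nat_lit 188437) (nat_lit 20) .nil)))))) (.g (nat_lit 4) .nil .nil))) 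
(.lf (nat_lit 99832) (.g (nat_lit 1567) (.e (nat_lit 3238) (nat_lit 197) (.e (nat_lit 532523) (nat_lit 7) (.e (nat_lit 319532) (nat_lit 16) (.e (nat_lit 286733) (nat_lit 2) .nil)))) .nil))))) (.nd (nat_lit 3) (.nd (nat_lit 4) (.nd (nat_lit 5) 
(.lf (nat_lit 99780) (.g (nat_lit 2251) (.e (nat_lit 3238) (nat_lit 197) (.e (nat_lit 532504) (nat_lit 1) (.e (nat_lit 57851) (nat_lit 252) (.e (nat_lit 57445) (nat_lit 19) .nil)))) .nil)) 
(.lf (nat_lit 99812) (.g (nat_lit 1557) (.e (nat_lit 3238) (nat_lit 197) (.e (nat_lit 532523) (nat_lit 7) (.e (nat_lit 319511) (nat_lit 10) (.e (nat_lit 5293) (nat_lit 298) (.e (nat_lit 1232) (nat_lit 91) .nil))))) .nil))) (.nd (nat_lit 5) 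
(.lf (nat_lit 99796) (.g (nat_lit 2593) (.e (nat_lit 3238) (nat_lit 197) (.e (nat_lit 532522) (nat_lit 7) (.e (nat_lit 319531) (nat_lit 16) (.e (nat_lit 286727) (nat_lit 0) (.e (nat_lit 1799) (nat_lit 119) .nil))))) .nil)) 
(.lf (nat_lit 99828) (.g (nat_lit 3221) (.e (nat_lit 3238) (nat_lit 197) (.e (nat_lit 532523) (nat_lit 7) (.e (nat_lit 319530) (nat_lit 16) (.e (nat_lit 286735) (nat_lit 3) (.e (nat_lit 98370) (nat_lit 28) (.e (nat_lit 442410) (nat_lit 20) .nil)))))) (.g (nat_lit 4) .nil .nil))))) (.nd (nat_lit 4) (.nd (nat_lit 5) 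
(.lf (nat_lit 99788) (.g (nat_lit 2771) (.e (nat_lit 3238) (nat_lit 197) (.e (nat_lit 532522) (nat_lit 7) (.e (nat_lit 319530) (nat_lit 16) (.e (nat_lit 286733) (nat_lit 2) (.e (nat_lit 90177) (nat_lit 15) .nil))))) .nil)) 
(.lf (nat_lit 99820) (.g (nat_lit 1997) (.e (nat_lit 3238) (nat_lit 197) (.e (nat_lit 532523) (nat_lit 7) (.e (nat_lit 319528) (nat_lit 16) (.e (nat_lit 286735) (nat_lit 3) (.e (nat_lit 98370) (nat_lit 28) .nil))))) .nil))) (.nd (nat_lit 5) 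
(.lf (nat_lit 99804) (.g (nat_lit 1283) (.e (nat_lit 3238) (nat_lit 197) (.e (nat_lit 532522) (nat_lit 7) (.e (nat_lit 319531) (nat_lit 16) (.e (nat_lit 286735) (nat_lit 3) .nil)))) .nil)) 
(.lf (nat_lit 99836) (.g (nat_lit 2437) (.e (nat_lit 3238) (nat_lit 197) (.e (nat_lit 532523) (nat_lit 7) (.e (nat_lit 319532) (nat_lit 16) (.e (nat_lit 286734) (nat_lit 3) (.e (nat_lit 98369) (nat_lit 28) (.e (nat_lit 442404) (nat_lit 20) .nil)))))) (.g (nat_lit 4) .nil .nil))))))) (.nd (nat_lit 2) (.nd (nat_lit 3) (.nd (nat_lit 4) (.nd (nat_lit 5) 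
(.lf (nat_lit 99778) (.g (nat_lit 2558) (.e (nat_lit 3238) (nat_lit 197) (.e (nat_lit 532503) (nat_lit 1) (.e (nat_lit 57849) (nat_lit 252) (.e (nat_lit 57448) (nat_lit 19) (.e (nat_lit 393229) (nat_lit 9) (.e (nat_lit 336086) (nat_lit 9) (.e (nat_lit 336306) (nat_lit 15) .nil))))))) (.g (nat_lit 5) .nil .nil))) 
(.lf (nat_lit 99810) (.g (nat_lit 963) (.e (nat_lit 3238) (nat_lit 197) (.e (nat_lit 532523) (nat_lit 7) (.e (nat_lit 319505) (nat_lit 10) (.e (nat_lit 5389) (nat_lit 301) .nil)))) .nil))) (.nd (nat_lit 5) 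
(.lf (nat_lit 99794) (.g (nat_lit 2470) (.e (nat_lit 3238) (nat_lit 197) (.e (nat_lit 532522) (nat_lit 7) (.e (nat_lit 319530) (nat_lit 16) (.e (nat_lit 286735) (nat_lit 3) (.e (nat_lit 98370) (nat_lit 28) .nil))))) .nil)) 
(.lf (nat_lit 99826) (.g (nat_lit 2904) (.e (nat_lit 3238) (nat_lit 197) (.e (nat_lit 532523) (nat_lit 7) (.e (nat_lit 319530) (nat_lit 16) (.e (nat_lit 286735) (nat_lit 3) (.e (nat_lit 98370) (nat_lit 28) .nil))))) .nil)))) (.nd (nat_lit 4) (.nd (nat_lit 5) 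
(.lf (nat_lit 99786) (.g (nat_lit 2686) (.e (nat_lit 3238) (nat_lit 197) (.e (nat_lit 532522) (nat_lit 7) (.e (nat_lit 319530) (nat_lit 16) (.e (nat_lit 286733) (nat_lit 2) (.e (nat_lit 90176) (nat_lit 15) (.e (nat_lit 188437) (nat_lit 20) .nil)))))) (.g (nat_lit 4) .nil .nil))) 
(.lf (nat_lit 99818) (.g (nat_lit 1139) (.e (nat_lit 3238) (nat_lit 197) (.e (nat_lit 532523) (nat_lit 7) (.e (nat_lit 319528) (nat_lit 16) (.e (nat_lit 286734) (nat_lit 3) .nil)))) .nil))) (.nd (nat_lit 5) 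
(.lf (nat_lit 99802) (.g (nat_lit 2930) (.e (nat_lit 3238) (nat_lit 197) (.e (nat_lit 532522) (nat_lit 7) (.e (nat_lit 319531) (nat_lit 16) (.e (nat_lit 286733) (nat_lit 2) (.e (nat_lit 90178) (nat_lit 15) (.e (nat_lit 188436) (nat_lit 20) .nil)))))) (.g (nat_lit 4) .nil .nil))) 
(.lf (nat_lit 99834) (.g (nat_lit 1516) (.e (nat_lit 3238) (nat_lit 197) (.e (nat_lit 532523) (nat_lit 7) (.e (nat_lit 319532) (nat_lit 16) (.e (nat_lit 286734) (nat_lit 3) .nil)))) .nil))))) (.nd (nat_lit 3) (.nd (nat_lit 4) (.nd (nat_lit 5) 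
(.lf (nat_lit 99782) (.g (nat_lit 4058) (.e (nat_lit 3238) (nat_lit 197) (.e (nat_lit 532504) (nat_lit 1) (.e (nat_lit 57851) (nat_lit 252) (.e (nat_lit 57446) (nat_lit 19) (.e (nat_lit 393229) (nat_lit 9) (.e (nat_lit 336085) (nat_lit 9) (.e (nat_lit 336306) (nat_lit 15) .nil))))))) (.g (nat_lit 5) .nil .nil))) 
(.lf (nat_lit 99814) (.g (nat_lit 3026) (.e (nat_lit 3238) (nat_lit 197) (.e (nat_lit 532523) (nat_lit 7) (.e (nat_lit 319511) (nat_lit 10) (.e (nat_lit 5293) (nat_lit 298) (.e (nat_lit 1250) (nat_lit 92) (.e (nat_lit 98369) (nat_lit 28) (.e (nat_lit 442406) (nat_lit 20) .nil))))))) (.g (nat_lit 5) .nil .nil)))) (.nd (nat_lit 5) 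
(.lf (nat_lit 99798) (.g (nat_lit 2657) (.e (nat_lit 3238) (nat_lit 197) (.e (nat_lit 532522) (nat_lit 7) (.e (nat_lit 319531) (nat_lit 16) (.e (nat_lit 286733) (nat_lit 2) (.e (nat_lit 90177) (nat_lit 15) .nil))))) .nil)) 
(.lf (nat_lit 99830) (.g (nat_lit 2967) (.e (nat_lit 3238) (nat_lit 197) (.e (nat_lit 532523) (nat_lit 7) (.e (nat_lit 319531) (nat_lit 16) (.e (nat_lit 286733) (nat_lit 2) (.e (nat_lit 90176) (nat_lit 15) .nil))))) .nil)))) (.nd (nat_lit 4) (.nd (nat_lit 5) 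
(.lf (nat_lit 99790) (.g (nat_lit 3511) (.e (nat_lit 3238) (nat_lit 197) (.e (nat_lit 532522) (nat_lit 7) (.e (nat_lit 319530) (nat_lit 16) (.e (nat_lit 286733) (nat_lit 2) (.e (nat_lit 90177) (nat_lit 15) (.e (nat_lit 188437) (nat_lit 20) .nil)))))) (.g (nat_lit 5) .nil .nil))) 
(.lf (nat_lit 99822) (.g (nat_lit 3132) (.e (nat_lit 3238) (nat_lit 197) (.e (nat_lit 532523) (nat_lit 7) (.e (nat_lit 319529) (nat_lit 16) (.e (nat_lit 286735) (nat_lit 3) (.e (nat_lit 98370) (nat_lit 28) (.e (nat_lit 442392) (nat_lit 20) .nil)))))) (.g (nat_lit 4) .nil .nil)))) (.nd (nat_lit 5) 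
(.lf (nat_lit 99806) (.g (nat_lit 3293) (.e (nat_lit 3238) (nat_lit 197) (.e (nat_lit 532523) (nat_lit 7) (.e (nat_lit 319490) (nat_lit 0) (.e (nat_lit 5629) (nat_lit 312) (.e (nat_lit 351) (nat_lit 28) (.e (nat_lit 393300) (nat_lit 27) (.e (nat_lit 491577) (nat_lit 15) .nil))))))) (.g (nat_lit 4) .nil .nil))) 
(.lf (nat_lit 99838) (.g (nat_lit 2569) (.e (nat_lit 3238) (nat_lit 197) (.e (nat_lit 532523) (nat_lit 7) (.e (nat_lit 319532) (nat_lit 16) (.e (nat_lit 286734) (nat_lit 3) (.e (nat_lit 98370) (nat_lit 28) (.e (nat_lit 442402) (nat_lit 20) .nil)))))) (.g (nat_lit 4) .nil .nil)))))))) (.nd (nat_lit 1) (.nd (nat_lit 2) (.nd (nat_lit 3) (.nd (nat_lit 4) (.nd (nat_lit 5) 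
(.lf (nat_lit 99777) (.g (nat_lit 2582) (.e (nat_lit 3238) (nat_lit 197) (.e (nat_lit 532503) (nat_lit 1) (.e (nat_lit 57849) (nat_lit 252) (.e (nat_lit 57445) (nat_lit 19) (.e (nat_lit 393229) (nat_lit 9) (.e (nat_lit 336086) (nat_lit 9) (.e (nat_lit 336306) (nat_lit 15) .nil))))))) (.g (nat_lit 5) .nil .nil))) 
(.lf (nat_lit 99809) (.g (nat_lit 1168) (.e (nat_lit 3238) (nat_lit 197) (.e (nat_lit 532523) (nat_lit 7) (.e (nat_lit 319504) (nat_lit 10) (.e (nat_lit 5396) (nat_lit 301) .nil)))) .nil))) (.nd (nat_lit 5) 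
(.lf (nat_lit 99793) (.g (nat_lit 2823) (.e (nat_lit 3238) (nat_lit 197) (.e (nat_lit 532522) (nat_lit 7) (.e (nat_lit 319530) (nat_lit 16) (.e (nat_lit 286735) (nat_lit 3) (.e (nat_lit 98369) (nat_lit 28) .nil))))) .nil)) 
(.lf (nat_lit 99825) (.g (nat_lit 1851) (.e (nat_lit 3238) (nat_lit 197) (.e (nat_lit 532523) (nat_lit 7) (.e (nat_lit 319530) (nat_lit 16) (.e (nat_lit 286734) (nat_lit 3) .nil)))) .nil)))) (.nd (nat_lit 4) (.nd (nat_lit 5) 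
(.lf (nat_lit 99785) (.g (nat_lit 2499) (.e (nat_lit 3238) (nat_lit 197) (.e (nat_lit 532522) (nat_lit 7) (.e (nat_lit 319530) (nat_lit 16) (.e (nat_lit 286733) (nat_lit 2) (.e (nat_lit 90176) (nat_lit 15) (.e (nat_lit 188424) (nat_lit 20) .nil)))))) (.g (nat_lit 4) .nil .nil))) 
(.lf (nat_lit 99817) (.g (nat_lit 1136) (.e (nat_lit 3238) (nat_lit 197) (.e (nat_lit 532523) (nat_lit 7) (.e (nat_lit 319528) (nat_lit 16) (.e (nat_lit 286732) (nat_lit 2) .nil)))) .nil))) (.nd (nat_lit 5) 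
(.lf (nat_lit 99801) (.g (nat_lit 3187) (.e (nat_lit 3238) (nat_lit 197) (.e (nat_lit 532522) (nat_lit 7) (.e (nat_lit 319531) (nat_lit 16) (.e (nat_lit 286733) (nat_lit 2) (.e (nat_lit 90178) (nat_lit 15) (.e (nat_lit 188424) (nat_lit 20) .nil)))))) (.g (nat_lit 4) .nil .nil))) 
(.lf (nat_lit 99833) (.g (nat_lit 2484) (.e (nat_lit 3238) (nat_lit 197) (.e (nat_lit 532523) (nat_lit 7) (.e (nat_lit 319532) (nat_lit 16) (.e (nat_lit 286733) (nat_lit 2) (.e (nat_lit 90170) (nat_lit 13) (.e (nat_lit 172092) (nat_lit 9) (.e (nat_lit 426039) (nat_lit 0) .nil))))))) (.g (nat_lit 4) .nil .nil)))))) (.nd (nat_lit 3) (.nd (nat_lit 4) (.nd (nat_lit 5) 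
(.lf (nat_lit 99781) (.g (nat_lit 3225) (.e (nat_lit 3238) (nat_lit 197) (.e (nat_lit 532504) (nat_lit 1) (.e (nat_lit 57851) (nat_lit 252) (.e (nat_lit 57445) (nat_lit 19) (.e (nat_lit 393229) (nat_lit 9) (.e (nat_lit 336085) (nat_lit 9) (.e (nat_lit 336306) (nat_lit 15) .nil))))))) (.g (nat_lit 4) .nil .nil))) 
(.lf (nat_lit 99813) (.g (nat_lit 1693) (.e (nat_lit 3238) (nat_lit 197) (.e (nat_lit 532523) (nat_lit 7) (.e (nat_lit 319511) (nat_lit 10) (.e (nat_lit 5293) (nat_lit 298) (.e (nat_lit 1250) (nat_lit 92) .nil))))) .nil))) (.nd (nat_lit 5) 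
(.lf (nat_lit 99797) (.g (nat_lit 3028) (.e (nat_lit 3238) (nat_lit 197) (.e (nat_lit 532522) (nat_lit 7) (.e (nat_lit 319531) (nat_lit 16) (.e (nat_lit 286733) (nat_lit 2) (.e (nat_lit 90176) (nat_lit 15) .nil))))) .nil)) 
(.lf (nat_lit 99829) (.g (nat_lit 3292) (.e (nat_lit 3238) (nat_lit 197) (.e (nat_lit 532523) (nat_lit 7) (.e (nat_lit 319530) (nat_lit 16) (.e (nat_lit 286735) (nat_lit 3) (.e (nat_lit 98370) (nat_lit 28) (.e (nat_lit 442411) (nat_lit 20) .nil)))))) (.g (nat_lit 4) .nil .nil))))) (.nd (nat_lit 4) (.nd (nat_lit 5) 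
(.lf (nat_lit 99789) (.g (nat_lit 3114) (.e (nat_lit 3238) (nat_lit 197) (.e (nat_lit 532522) (nat_lit 7) (.e (nat_lit 319530) (nat_lit 16) (.e (nat_lit 286733) (nat_lit 2) (.e (nat_lit 90177) (nat_lit 15) (.e (nat_lit 188434) (nat_lit 20) .nil)))))) (.g (nat_lit 4) .nil .nil))) 
(.lf (nat_lit 99821) (.g (nat_lit 2573) (.e (nat_lit 3238) (nat_lit 197) (.e (nat_lit 532523) (nat_lit 7) (.e (nat_lit 319529) (nat_lit 16) (.e (nat_lit 286735) (nat_lit 3) (.e (nat_lit 98370) (nat_lit 28) .nil))))) .nil))) (.nd (nat_lit 5) 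
(.lf (nat_lit 99805) (.g (nat_lit 1807) (.e (nat_lit 3238) (nat_lit 197) (.e (nat_lit 532523) (nat_lit 7) (.e (nat_lit 319490) (nat_lit 0) (.e (nat_lit 5629) (nat_lit 312) .nil)))) .nil)) 
(.lf (nat_lit 99837) (.g (nat_lit 2893) (.e (nat_lit 3238) (nat_lit 197) (.e (nat_lit 532523) (nat_lit 7) (.e (nat_lit 319532) (nat_lit 16) (.e (nat_lit 286734) (nat_lit 3) (.e (nat_lit 98369) (nat_lit 28) (.e (nat_lit 442406) (nat_lit 20) .nil)))))) (.g (nat_lit 4) .nil .nil))))))) (.nd (nat_lit 2) (.nd (nat_lit 3) (.nd (nat_lit 4) (.nd (nat_lit 5) 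
(.lf (nat_lit 99779) (.g (nat_lit 1290) (.e (nat_lit 3238) (nat_lit 197) (.e (nat_lit 532504) (nat_lit 1) (.e (nat_lit 57851) (nat_lit 252) .nil))) .nil)) 
(.lf (nat_lit 99811) (.g (nat_lit 1395) (.e (nat_lit 3238) (nat_lit 197) (.e (nat_lit 532523) (nat_lit 7) (.e (nat_lit 319511) (nat_lit 10) (.e (nat_lit 5270) (nat_lit 298) .nil)))) .nil))) (.nd (nat_lit 5) 
(.lf (nat_lit 99795) (.g (nat_lit 2740) (.e (nat_lit 3238) (nat_lit 197) (.e (nat_lit 532522) (nat_lit 7) (.e (nat_lit 319530) (nat_lit 16) (.e (nat_lit 286735) (nat_lit 3) (.e (nat_lit 98371) (nat_lit 28) .nil))))) .nil)) 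
(.lf (nat_lit 99827) (.g (nat_lit 3624) (.e (nat_lit 3238) (nat_lit 197) (.e (nat_lit 532523) (nat_lit 7) (.e (nat_lit 319530) (nat_lit 16) (.e (nat_lit 286735) (nat_lit 3) (.e (nat_lit 98370) (nat_lit 28) (.e (nat_lit 442392) (nat_lit 20) .nil)))))) (.g (nat_lit 4) .nil .nil))))) (.nd (nat_lit 4) (.nd (nat_lit 5) 
(.lf (nat_lit 99787) (.g (nat_lit 2641) (.e (nat_lit 3238) (nat_lit 197) (.e (nat_lit 532522) (nat_lit 7) (.e (nat_lit 319530) (nat_lit 16) (.e (nat_lit 286733) (nat_lit 2) (.e (nat_lit 90176) (nat_lit 15) (.e (nat_lit 188439) (nat_lit 20) .nil)))))) (.g (nat_lit 4) .nil .nil))) 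
(.lf (nat_lit 99819) (.g (nat_lit 1909) (.e (nat_lit 3238) (nat_lit 197) (.e (nat_lit 532523) (nat_lit 7) (.e (nat_lit 319528) (nat_lit 16) (.e (nat_lit 286734) (nat_lit 3) (.e (nat_lit 98370) (nat_lit 28) .nil))))) .nil))) (.nd (nat_lit 5) 
(.lf (nat_lit 99803) (.g (nat_lit 3842) (.e (nat_lit 3238) (nat_lit 197) (.e (nat_lit 532522) (nat_lit 7) (.e (nat_lit 319531) (nat_lit 16) (.e (nat_lit 286733) (nat_lit 2) (.e (nat_lit 90178) (nat_lit 15) (.e (nat_lit 188440) (nat_lit 20) .nil)))))) (.g (nat_lit 5) .nil .nil))) 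
(.lf (nat_lit 99835) (.g (nat_lit 2572) (.e (nat_lit 3238) (nat_lit 197) (.e (nat_lit 532523) (nat_lit 7) (.e (nat_lit 319532) (nat_lit 16) (.e (nat_lit 286734) (nat_lit 3) (.e (nat_lit 98359) (nat_lit 26) (.e (nat_lit 426208) (nat_lit 9) (.e (nat_lit 426039) (nat_lit 0) .nil))))))) (.g (nat_lit 4) .nil .nil)))))) (.nd (nat_lit 3) (.nd (nat_lit 4) (.nd (nat_lit 5) 
(.lf (nat_lit 99783) (.g (nat_lit 3973) (.e (nat_lit 3238) (nat_lit 197) (.e (nat_lit 532504) (nat_lit 1) (.e (nat_lit 57852) (nat_lit 252) (.e (nat_lit 57445) (nat_lit 19) (.e (nat_lit 393229) (nat_lit 9) (.e (nat_lit 336086) (nat_lit 9) (.e (nat_lit 336306) (nat_lit 15) .nil))))))) (.g (nat_lit 0) .nil .nil))) 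
(.lf (nat_lit 99815) (.g (nat_lit 1376) (.e (nat_lit 3238) (nat_lit 197) (.e (nat_lit 532523) (nat_lit 7) (.e (nat_lit 319511) (nat_lit 10) (.e (nat_lit 5394) (nat_lit 301) .nil)))) .nil))) (.nd (nat_lit 5) 
(.lf (nat_lit 99799) (.g (nat_lit 3017) (.e (nat_lit 3238) (nat_lit 197) (.e (nat_lit 532522) (nat_lit 7) (.e (nat_lit 319531) (nat_lit 16) (.e (nat_lit 286733) (nat_lit 2) (.e (nat_lit 90177) (nat_lit 15) (.e (nat_lit 188434) (nat_lit 20) .nil)))))) (.g (nat_lit 4) .nil .nil))) 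
(.lf (nat_lit 99831) (.g (nat_lit 2301) (.e (nat_lit 3238) (nat_lit 197) (.e (nat_lit 532523) (nat_lit 7) (.e (nat_lit 319531) (nat_lit 16) (.e (nat_lit 286734) (nat_lit 3) (.e (nat_lit 98370) (nat_lit 28) .nil))))) .nil)))) (.nd (nat_lit 4) (.nd (nat_lit 5) 
(.lf (nat_lit 99791) (.g (nat_lit 3715) (.e (nat_lit 3238) (nat_lit 197) (.e (nat_lit 532522) (nat_lit 7) (.e (nat_lit 319530) (nat_lit 16) (.e (nat_lit 286733) (nat_lit 2) (.e (nat_lit 90178) (nat_lit 15) (.e (nat_lit 188424) (nat_lit 20) .nil)))))) (.g (nat_lit 5) .nil .nil))) 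
(.lf (nat_lit 99823) (.g (nat_lit 3469) (.e (nat_lit 3238) (nat_lit 197) (.e (nat_lit 532523) (nat_lit 7) (.e (nat_lit 319529) (nat_lit 16) (.e (nat_lit 286735) (nat_lit 3) (.e (nat_lit 98370) (nat_lit 28) (.e (nat_lit 442404) (nat_lit 20) .nil)))))) (.g (nat_lit 4) .nil .nil)))) (.nd (nat_lit 5) 
(.lf (nat_lit 99807) (.g (nat_lit 160) (.e (nat_lit 3238) (nat_lit 197) (.e (nat_lit 532523) (nat_lit 7) (.e (nat_lit 319504) (nat_lit 10) .nil))) .nil)) 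
(.lf (nat_lit 99839) (.g (nat_lit 2497) (.e (nat_lit 3238) (nat_lit 197) (.e (nat_lit 532523) (nat_lit 7) (.e (nat_lit 319532) (nat_lit 16) (.e (nat_lit 286734) (nat_lit 3) (.e (nat_lit 98370) (nat_lit 28) (.e (nat_lit 442405) (nat_lit 20) .nil)))))) (.g (nat_lit 4) .nil .nil)))))))))

noncomputable def tv1365 : DT := (.nd (nat_lit 0) (.nd (nat_lit 1) (.nd (nat_lit 2) (.nd (nat_lit 3) (.nd (nat_lit 4) (.nd (nat_lit 5) 
(.lf (nat_lit 99840) (.g (nat_lit 2965) (.e (nat_lit 3238) (nat_lit 197) (.e (nat_lit 532523) (nat_lit 7) (.e (nat_lit 319532) (nat_lit 16) (.e (nat_lit 286734) (nat_lit 3) (.e (nat_lit 98370) (nat_lit 28) (.e (nat_lit 442410) (nat_lit 20) .nil)))))) (.g (nat_lit 4) .nil .nil))) 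
(.lf (nat_lit 99872) (.g (nat_lit 2683) (.e (nat_lit 3238) (nat_lit 197) (.e (nat_lit 532523) (nat_lit 7) (.e (nat_lit 319533) (nat_lit 16) (.e (nat_lit 286734) (nat_lit 3) (.e (nat_lit 98359) (nat_lit 26) (.e (nat_lit 426211) (nat_lit 9) (.e (nat_lit 426003) (nat_lit 0) .nil))))))) (.g (nat_lit 4) .nil .nil)))) (.nd (nat_lit 5) 
(.lf (nat_lit 99856) (.g (nat_lit 2529) (.e (nat_lit 3238) (nat_lit 197) (.e (nat_lit 532523) (nat_lit 7) (.e (nat_lit 319533) (nat_lit 16) (.e (nat_lit 286733) (nat_lit 2) (.e (nat_lit 90170) (nat_lit 13) (.e (nat_lit 172085) (nat_lit 9) (.e (nat_lit 426039) (nat_lit 0) .nil))))))) (.g (nat_lit 4) .nil .nil))) 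
(.lf (nat_lit 99888) (.g (nat_lit 2493) (.e (nat_lit 3238) (nat_lit 197) (.e (nat_lit 532523) (nat_lit 7) (.e (nat_lit 319534) (nat_lit 16) (.e (nat_lit 286728) (nat_lit 0) (.e (nat_lit 1788) (nat_lit 119) (.e (nat_lit 516163) (nat_lit 11) (.e (nat_lit 442392) (nat_lit 20) .nil))))))) (.g (nat_lit 4) .nil .nil))))) (.nd (nat_lit 4) (.nd (nat_lit 5) 
(.lf (nat_lit 99848) (.g (nat_lit 3270) (.e (nat_lit 3238) (nat_lit 197) (.e (nat_lit 532523) (nat_lit 7) (.e (nat_lit 319533) (nat_lit 16) (.e (nat_lit 286732) (nat_lit 2) (.e (nat_lit 90170) (nat_lit 13) (.e (nat_lit 172092) (nat_lit 9) (.e (nat_lit 426003) (nat_lit 0) .nil))))))) (.g (nat_lit 5) .nil .nil))) 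
(.lf (nat_lit 99880) (.g (nat_lit 4616) (.e (nat_lit 3238) (nat_lit 197) (.e (nat_lit 532523) (nat_lit 7) (.e (nat_lit 319533) (nat_lit 16) (.e (nat_lit 286734) (nat_lit 3) (.e (nat_lit 98370) (nat_lit 28) (.e (nat_lit 442410) (nat_lit 20) .nil)))))) (.g (nat_lit 6) .nil .nil)))) (.nd (nat_lit 5) 
(.lf (nat_lit 99864) (.g (nat_lit 2646) (.e (nat_lit 3238) (nat_lit 197) (.e (nat_lit 532523) (nat_lit 7) (.e (nat_lit 319533) (nat_lit 16) (.e (nat_lit 286733) (nat_lit 2) (.e (nat_lit 90170) (nat_lit 13) (.e (nat_lit 172092) (nat_lit 9) (.e (nat_lit 426046) (nat_lit 0) .nil))))))) (.g (nat_lit 4) .nil .nil))) 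
(.lf (nat_lit 99896) (.g (nat_lit 2805) (.e (nat_lit 3238) (nat_lit 197) (.e (nat_lit 532523) (nat_lit 7) (.e (nat_lit 319534) (nat_lit 16) (.e (nat_lit 286732) (nat_lit 2) (.e (nat_lit 90170) (nat_lit 13) (.e (nat_lit 172095) (nat_lit 9) (.e (nat_lit 426040) (nat_lit 0) .nil))))))) (.g (nat_lit 4) .nil .nil)))))) (.nd (nat_lit 3) (.nd (nat_lit 4) (.nd (nat_lit 5) 
(.lf (nat_lit 99844) (.g (nat_lit 1411) (.e (nat_lit 3238) (nat_lit 197) (.e (nat_lit 532523) (nat_lit 7) (.e (nat_lit 319533) (nat_lit 16) (.e (nat_lit 286720) (nat_lit 0) .nil)))) .nil)) 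
(.lf (nat_lit 99876) (.g (nat_lit 4220) (.e (nat_lit 3238) (nat_lit 197) (.e (nat_lit 532523) (nat_lit 7) (.e (nat_lit 319533) (nat_lit 16) (.e (nat_lit 286734) (nat_lit 3) (.e (nat_lit 98370) (nat_lit 28) (.e (nat_lit 442402) (nat_lit 20) .nil)))))) (.g (nat_lit 5) .nil .nil)))) (.nd (nat_lit 5) 
(.lf (nat_lit 99860) (.g (nat_lit 3770) (.e (nat_lit 3238) (nat_lit 197) (.e (nat_lit 532523) (nat_lit 7) (.e (nat_lit 319533) (nat_lit 16) (.e (nat_lit 286733) (nat_lit 2) (.e (nat_lit 90170) (nat_lit 13) (.e (nat_lit 172092) (nat_lit 9) (.e (nat_lit 426037) (nat_lit 0) .nil))))))) (.g (nat_lit 5) .nil .nil))) 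
(.lf (nat_lit 99892) (.g (nat_lit 3014) (.e (nat_lit 3238) (nat_lit 197) (.e (nat_lit 532523) (nat_lit 7) (.e (nat_lit 319534) (nat_lit 16) (.e (nat_lit 286732) (nat_lit 2) (.e (nat_lit 90170) (nat_lit 13) (.e (nat_lit 172092) (nat_lit 9) (.e (nat_lit 426037) (nat_lit 0) .nil))))))) (.g (nat_lit 4) .nil .nil))))) (.nd (nat_lit 4) (.nd (nat_lit 5) 
(.lf (nat_lit 99852) (.g (nat_lit 2751) (.e (nat_lit 3238) (nat_lit 197) (.e (nat_lit 532523) (nat_lit 7) (.e (nat_lit 319533) (nat_lit 16) (.e (nat_lit 286732) (nat_lit 2) (.e (nat_lit 90170) (nat_lit 13) (.e (nat_lit 172095) (nat_lit 9) (.e (nat_lit 426037) (nat_lit 0) .nil))))))) (.g (nat_lit 4) .nil .nil))) 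
(.lf (nat_lit 99884) (.g (nat_lit 1499) (.e (nat_lit 3238) (nat_lit 197) (.e (nat_lit 532523) (nat_lit 7) (.e (nat_lit 319534) (nat_lit 16) (.e (nat_lit 286720) (nat_lit 0) .nil)))) .nil))) (.nd (nat_lit 5) 
(.lf (nat_lit 99868) (.g (nat_lit 2962) (.e (nat_lit 3238) (nat_lit 197) (.e (nat_lit 532523) (nat_lit 7) (.e (nat_lit 319533) (nat_lit 16) (.e (nat_lit 286733) (nat_lit 2) (.e (nat_lit 90170) (nat_lit 13) (.e (nat_lit 172095) (nat_lit 9) (.e (nat_lit 426040) (nat_lit 0) .nil))))))) (.g (nat_lit 4) .nil .nil))) 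
(.lf (nat_lit 99900) (.g (nat_lit 3005) (.e (nat_lit 3238) (nat_lit 197) (.e (nat_lit 532523) (nat_lit 7) (.e (nat_lit 319534) (nat_lit 16) (.e (nat_lit 286733) (nat_lit 2) (.e (nat_lit 90170) (nat_lit 13) (.e (nat_lit 172088) (nat_lit 9) (.e (nat_lit 426003) (nat_lit 0) .nil))))))) (.g (nat_lit 4) .nil .nil))))))) (.nd (nat_lit 2) (.nd (nat_lit 3) (.nd (nat_lit 4) (.nd (nat_lit 5) 
(.lf (nat_lit 99842) (.g (nat_lit 2589) (.e (nat_lit 3238) (nat_lit 197) (.e (nat_lit 532523) (nat_lit 7) (.e (nat_lit 319532) (nat_lit 16) (.e (nat_lit 286735) (nat_lit 3) (.e (nat_lit 98370) (nat_lit 28) (.e (nat_lit 442392) (nat_lit 20) .nil)))))) (.g (nat_lit 4) .nil .nil))) 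
(.lf (nat_lit 99874) (.g (nat_lit 2493) (.e (nat_lit 3238) (nat_lit 197) (.e (nat_lit 532523) (nat_lit 7) (.e (nat_lit 319533) (nat_lit 16) (.e (nat_lit 286734) (nat_lit 3) (.e (nat_lit 98359) (nat_lit 26) (.e (nat_lit 426212) (nat_lit 9) (.e (nat_lit 426040) (nat_lit 0) .nil))))))) (.g (nat_lit 4) .nil .nil)))) (.nd (nat_lit 5) 
(.lf (nat_lit 99858) (.g (nat_lit 3956) (.e (nat_lit 3238) (nat_lit 197) (.e (nat_lit 532523) (nat_lit 7) (.e (nat_lit 319533) (nat_lit 16) (.e (nat_lit 286733) (nat_lit 2) (.e (nat_lit 90170) (nat_lit 13) (.e (nat_lit 172092) (nat_lit 9) (.e (nat_lit 426003) (nat_lit 0) .nil))))))) (.g (nat_lit 5) .nil .nil))) 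
(.lf (nat_lit 99890) (.g (nat_lit 2282) (.e (nat_lit 3238) (nat_lit 197) (.e (nat_lit 532523) (nat_lit 7) (.e (nat_lit 319534) (nat_lit 16) (.e (nat_lit 286728) (nat_lit 0) (.e (nat_lit 7936) (nat_lit 119) .nil))))) .nil)))) (.nd (nat_lit 4) (.nd (nat_lit 5) 
(.lf (nat_lit 99850) (.g (nat_lit 3795) (.e (nat_lit 3238) (nat_lit 197) (.e (nat_lit 532523) (nat_lit 7) (.e (nat_lit 319533) (nat_lit 16) (.e (nat_lit 286732) (nat_lit 2) (.e (nat_lit 90170) (nat_lit 13) (.e (nat_lit 172092) (nat_lit 9) (.e (nat_lit 426039) (nat_lit 0) .nil))))))) (.g (nat_lit 5) .nil .nil))) 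
(.lf (nat_lit 99882) (.g (nat_lit 3833) (.e (nat_lit 3238) (nat_lit 197) (.e (nat_lit 532523) (nat_lit 7) (.e (nat_lit 319533) (nat_lit 16) (.e (nat_lit 286734) (nat_lit 3) (.e (nat_lit 98370) (nat_lit 28) (.e (nat_lit 442412) (nat_lit 20) .nil)))))) (.g (nat_lit 5) .nil .nil)))) (.nd (nat_lit 5) 
(.lf (nat_lit 99866) (.g (nat_lit 2926) (.e (nat_lit 3238) (nat_lit 197) (.e (nat_lit 532523) (nat_lit 7) (.e (nat_lit 319533) (nat_lit 16) (.e (nat_lit 286733) (nat_lit 2) (.e (nat_lit 90170) (nat_lit 13) (.e (nat_lit 172095) (nat_lit 9) (.e (nat_lit 426003) (nat_lit 0) .nil))))))) (.g (nat_lit 4) .nil .nil))) 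
(.lf (nat_lit 99898) (.g (nat_lit 2257) (.e (nat_lit 3238) (nat_lit 197) (.e (nat_lit 532523) (nat_lit 7) (.e (nat_lit 319534) (nat_lit 16) (.e (nat_lit 286733) (nat_lit 2) (.e (nat_lit 90170) (nat_lit 13) .nil))))) .nil))))) (.nd (nat_lit 3) (.nd (nat_lit 4) (.nd (nat_lit 5) 
(.lf (nat_lit 99846) (.g (nat_lit 2038) (.e (nat_lit 3238) (nat_lit 197) (.e (nat_lit 532523) (nat_lit 7) (.e (nat_lit 319533) (nat_lit 16) (.e (nat_lit 286732) (nat_lit 2) (.e (nat_lit 90170) (nat_lit 13) .nil))))) .nil)) 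
(.lf (nat_lit 99878) (.g (nat_lit 4148) (.e (nat_lit 3238) (nat_lit 197) (.e (nat_lit 532523) (nat_lit 7) (.e (nat_lit 319533) (nat_lit 16) (.e (nat_lit 286734) (nat_lit 3) (.e (nat_lit 98370) (nat_lit 28) (.e (nat_lit 442405) (nat_lit 20) .nil)))))) (.g (nat_lit 5) .nil .nil)))) (.nd (nat_lit 5) 
(.lf (nat_lit 99862) (.g (nat_lit 2670) (.e (nat_lit 3238) (nat_lit 197) (.e (nat_lit 532523) (nat_lit 7) (.e (nat_lit 319533) (nat_lit 16) (.e (nat_lit 286733) (nat_lit 2) (.e (nat_lit 90170) (nat_lit 13) (.e (nat_lit 172092) (nat_lit 9) (.e (nat_lit 426041) (nat_lit 0) .nil))))))) (.g (nat_lit 4) .nil .nil))) 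
(.lf (nat_lit 99894) (.g (nat_lit 2769) (.e (nat_lit 3238) (nat_lit 197) (.e (nat_lit 532523) (nat_lit 7) (.e (nat_lit 319534) (nat_lit 16) (.e (nat_lit 286732) (nat_lit 2) (.e (nat_lit 90170) (nat_lit 13) (.e (nat_lit 172095) (nat_lit 9) (.e (nat_lit 426003) (nat_lit 0) .nil))))))) (.g (nat_lit 4) .nil .nil))))) (.nd (nat_lit 4) (.nd (nat_lit 5) 
(.lf (nat_lit 99854) (.g (nat_lit 1584) (.e (nat_lit 3238) (nat_lit 197) (.e (nat_lit 532523) (nat_lit 7) (.e (nat_lit 319533) (nat_lit 16) (.e (nat_lit 286733) (nat_lit 2) .nil)))) .nil)) 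
(.lf (nat_lit 99886) (.g (nat_lit 2184) (.e (nat_lit 3238) (nat_lit 197) (.e (nat_lit 532523) (nat_lit 7) (.e (nat_lit 319534) (nat_lit 16) (.e (nat_lit 286728) (nat_lit 0) (.e (nat_lit 1781) (nat_lit 119) .nil))))) .nil))) (.nd (nat_lit 5) 
(.lf (nat_lit 99870) (.g (nat_lit 2877) (.e (nat_lit 3238) (nat_lit 197) (.e (nat_lit 532523) (nat_lit 7) (.e (nat_lit 319533) (nat_lit 16) (.e (nat_lit 286734) (nat_lit 3) (.e (nat_lit 98359) (nat_lit 26) (.e (nat_lit 426208) (nat_lit 9) (.e (nat_lit 426003) (nat_lit 0) .nil))))))) (.g (nat_lit 4) .nil .nil))) 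
(.lf (nat_lit 99902) (.g (nat_lit 3039) (.e (nat_lit 3238) (nat_lit 197) (.e (nat_lit 532523) (nat_lit 7) (.e (nat_lit 319534) (nat_lit 16) (.e (nat_lit 286733) (nat_lit 2) (.e (nat_lit 90170) (nat_lit 13) (.e (nat_lit 172088) (nat_lit 9) (.e (nat_lit 426040) (nat_lit 0) .nil))))))) (.g (nat_lit 4) .nil .nil)))))))) 
(.nd (nat_lit 1) (.nd (nat_lit 2) (.nd (nat_lit 3) (.nd (nat_lit 4) (.nd (nat_lit 5) 
(.lf (nat_lit 99841) (.g (nat_lit 1540) (.e (nat_lit 3238) (nat_lit 197) (.e (nat_lit 532523) (nat_lit 7) (.e (nat_lit 319532) (nat_lit 16) (.e (nat_lit 286735) (nat_lit 3) .nil)))) .nil)) 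
(.lf (nat_lit 99873) (.g (nat_lit 2813) (.e (nat_lit 3238) (nat_lit 197) (.e (nat_lit 532523) (nat_lit 7) (.e (nat_lit 319533) (nat_lit 16) (.e (nat_lit 286734) (nat_lit 3) (.e (nat_lit 98359) (nat_lit 26) (.e (nat_lit 426212) (nat_lit 9) (.e (nat_lit 426003) (nat_lit 0) .nil))))))) (.g (nat_lit 4) .nil .nil)))) (.nd (nat_lit 5) 
(.lf (nat_lit 99857) (.g (nat_lit 4861) (.e (nat_lit 3238) (nat_lit 197) (.e (nat_lit 532523) (nat_lit 7) (.e (nat_lit 319533) (nat_lit 16) (.e (nat_lit 286733) (nat_lit 2) (.e (nat_lit 90170) (nat_lit 13) (.e (nat_lit 172088) (nat_lit 9) (.e (nat_lit 426039) (nat_lit 0) .nil))))))) (.g (nat_lit 6) .nil .nil))) 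
(.lf (nat_lit 99889) (.g (nat_lit 2541) (.e (nat_lit 3238) (nat_lit 197) (.e (nat_lit 532523) (nat_lit 7) (.e (nat_lit 319534) (nat_lit 16) (.e (nat_lit 286728) (nat_lit 0) (.e (nat_lit 1788) (nat_lit 119) (.e (nat_lit 516163) (nat_lit 11) (.e (nat_lit 442404) (nat_lit 20) .nil))))))) (.g (nat_lit 4) .nil .nil))))) (.nd (nat_lit 4) (.nd (nat_lit 5) 
(.lf (nat_lit 99849) (.g (nat_lit 3084) (.e (nat_lit 3238) (nat_lit 197) (.e (nat_lit 532523) (nat_lit 7) (.e (nat_lit 319533) (nat_lit 16) (.e (nat_lit 286732) (nat_lit 2) (.e (nat_lit 90170) (nat_lit 13) (.e (nat_lit 172092) (nat_lit 9) (.e (nat_lit 426037) (nat_lit 0) .nil))))))) (.g (nat_lit 5) .nil .nil))) 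
(.lf (nat_lit 99881) (.g (nat_lit 4721) (.e (nat_lit 3238) (nat_lit 197) (.e (nat_lit 532523) (nat_lit 7) (.e (nat_lit 319533) (nat_lit 16) (.e (nat_lit 286734) (nat_lit 3) (.e (nat_lit 98370) (nat_lit 28) (.e (nat_lit 442411) (nat_lit 20) .nil)))))) (.g (nat_lit 6) .nil .nil)))) (.nd (nat_lit 5) 
(.lf (nat_lit 99865) (.g (nat_lit 2573) (.e (nat_lit 3238) (nat_lit 197) (.e (nat_lit 532523) (nat_lit 7) (.e (nat_lit 319533) (nat_lit 16) (.e (nat_lit 286733) (nat_lit 2) (.e (nat_lit 90170) (nat_lit 13) (.e (nat_lit 172092) (nat_lit 9) (.e (nat_lit 426047) (nat_lit 0) .nil))))))) (.g (nat_lit 4) .nil .nil))) 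
(.lf (nat_lit 99897) (.g (nat_lit 1533) (.e (nat_lit 3238) (nat_lit 197) (.e (nat_lit 532523) (nat_lit 7) (.e (nat_lit 319534) (nat_lit 16) (.e (nat_lit 286733) (nat_lit 2) .nil)))) .nil))))) (.nd (nat_lit 3) (.nd (nat_lit 4) (.nd (nat_lit 5) 
(.lf (nat_lit 99845) (.g (nat_lit 1069) (.e (nat_lit 3238) (nat_lit 197) (.e (nat_lit 532523) (nat_lit 7) (.e (nat_lit 319533) (nat_lit 16) (.e (nat_lit 286724) (nat_lit 0) .nil)))) .nil)) 
(.lf (nat_lit 99877) (.g (nat_lit 4920) (.e (nat_lit 3238) (nat_lit 197) (.e (nat_lit 532523) (nat_lit 7) (.e (nat_lit 319533) (nat_lit 16) (.e (nat_lit 286734) (nat_lit 3) (.e (nat_lit 98370) (nat_lit 28) (.e (nat_lit 442404) (nat_lit 20) .nil)))))) (.g (nat_lit 6) .nil .nil)))) (.nd (nat_lit 5) 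
(.lf (nat_lit 99861) (.g (nat_lit 2869) (.e (nat_lit 3238) (nat_lit 197) (.e (nat_lit 532523) (nat_lit 7) (.e (nat_lit 319533) (nat_lit 16) (.e (nat_lit 286733) (nat_lit 2) (.e (nat_lit 90170) (nat_lit 13) (.e (nat_lit 172092) (nat_lit 9) (.e (nat_lit 426038) (nat_lit 0) .nil))))))) (.g (nat_lit 4) .nil .nil))) 
(.lf (nat_lit 99893) (.g (nat_lit 3767) (.e (nat_lit 3238) (nat_lit 197) (.e (nat_lit 532523) (nat_lit 7) (.e (nat_lit 319534) (nat_lit 16) (.e (nat_lit 286732) (nat_lit 2) (.e (nat_lit 90170) (nat_lit 13) (.e (nat_lit 172092) (nat_lit 9) (.e (nat_lit 426039) (nat_lit 0) .nil))))))) (.g (nat_lit 5) .nil .nil))))) (.nd (nat_lit 4) (.nd (nat_lit 5) 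
(.lf (nat_lit 99853) (.g (nat_lit 2898) (.e (nat_lit 3238) (nat_lit 197) (.e (nat_lit 532523) (nat_lit 7) (.e (nat_lit 319533) (nat_lit 16) (.e (nat_lit 286732) (nat_lit 2) (.e (nat_lit 90170) (nat_lit 13) (.e (nat_lit 172095) (nat_lit 9) (.e (nat_lit 426040) (nat_lit 0) .nil))))))) (.g (nat_lit 4) .nil .nil))) 
(.lf (nat_lit 99885) (.g (nat_lit 1366) (.e (nat_lit 3238) (nat_lit 197) (.e (nat_lit 532523) (nat_lit 7) (.e (nat_lit 319534) (nat_lit 16) (.e (nat_lit 286728) (nat_lit 0) .nil)))) .nil))) (.nd (nat_lit 5) 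
(.lf (nat_lit 99869) (.g (nat_lit 2326) (.e (nat_lit 3238) (nat_lit 197) (.e (nat_lit 532523) (nat_lit 7) (.e (nat_lit 319533) (nat_lit 16) (.e (nat_lit 286734) (nat_lit 3) (.e (nat_lit 98359) (nat_lit 26) .nil))))) .nil)) 
(.lf (nat_lit 99901) (.g (nat_lit 4264) (.e (nat_lit 3238) (nat_lit 197) (.e (nat_lit 532523) (nat_lit 7) (.e (nat_lit 319534) (nat_lit 16) (.e (nat_lit 286733) (nat_lit 2) (.e (nat_lit 90170) (nat_lit 13) (.e (nat_lit 172088) (nat_lit 9) (.e (nat_lit 426039) (nat_lit 0) .nil))))))) (.g (nat_lit 5) .nil .nil))))))) (.nd (nat_lit 2) (.nd (nat_lit 3) (.nd (nat_lit 4) (.nd (nat_lit 5) 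
(.lf (nat_lit 99843) (.g (nat_lit 260) (.e (nat_lit 3238) (nat_lit 197) (.e (nat_lit 532523) (nat_lit 7) (.e (nat_lit 319533) (nat_lit 16) .nil))) .nil)) 
(.lf (nat_lit 99875) (.g (nat_lit 4706) (.e (nat_lit 3238) (nat_lit 197) (.e (nat_lit 532523) (nat_lit 7) (.e (nat_lit 319533) (nat_lit 16) (.e (nat_lit 286734) (nat_lit 3) (.e (nat_lit 98370) (nat_lit 28) (.e (nat_lit 442392) (nat_lit 20) .nil)))))) (.g (nat_lit 6) .nil .nil)))) (.nd (nat_lit 5) 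
(.lf (nat_lit 99859) (.g (nat_lit 2566) (.e (nat_lit 3238) (nat_lit 197) (.e (nat_lit 532523) (nat_lit 7) (.e (nat_lit 319533) (nat_lit 16) (.e (nat_lit 286733) (nat_lit 2) (.e (nat_lit 90170) (nat_lit 13) (.e (nat_lit 172092) (nat_lit 9) (.e (nat_lit 426034) (nat_lit 0) .nil))))))) (.g (nat_lit 4) .nil .nil))) 
(.lf (nat_lit 99891) (.g (nat_lit 2152) (.e (nat_lit 3238) (nat_lit 197) (.e (nat_lit 532523) (nat_lit 7) (.e (nat_lit 319534) (nat_lit 16) (.e (nat_lit 286732) (nat_lit 2) (.e (nat_lit 90170) (nat_lit 13) .nil))))) .nil)))) (.nd (nat_lit 4) (.nd (nat_lit 5) 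
(.lf (nat_lit 99851) (.g (nat_lit 2862) (.e (nat_lit 3238) (nat_lit 197) (.e (nat_lit 532523) (nat_lit 7) (.e (nat_lit 319533) (nat_lit 16) (.e (nat_lit 286732) (nat_lit 2) (.e (nat_lit 90170) (nat_lit 13) (.e (nat_lit 172095) (nat_lit 9) (.e (nat_lit 426003) (nat_lit 0) .nil))))))) (.g (nat_lit 4) .nil .nil))) 
(.lf (nat_lit 99883) (.g (nat_lit 2538) (.e (nat_lit 3238) (nat_lit 197) (.e (nat_lit 532523) (nat_lit 7) (.e (nat_lit 319533) (nat_lit 16) (.e (nat_lit 286734) (nat_lit 3) (.e (nat_lit 98370) (nat_lit 28) (.e (nat_lit 450304) (nat_lit 20) .nil)))))) (.g (nat_lit 4) .nil .nil)))) (.nd (nat_lit 5) 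
(.lf (nat_lit 99867) (.g (nat_lit 2815) (.e (nat_lit 3238) (nat_lit 197) (.e (nat_lit 532523) (nat_lit 7) (.e (nat_lit 319533) (nat_lit 16) (.e (nat_lit 286733) (nat_lit 2) (.e (nat_lit 90170) (nat_lit 13) (.e (nat_lit 172095) (nat_lit 9) (.e (nat_lit 426037) (nat_lit 0) .nil))))))) (.g (nat_lit 4) .nil .nil))) 
(.lf (nat_lit 99899) (.g (nat_lit 2433) (.e (nat_lit 3238) (nat_lit 197) (.e (nat_lit 532523) (nat_lit 7) (.e (nat_lit 319534) (nat_lit 16) (.e (nat_lit 286733) (nat_lit 2) (.e (nat_lit 90170) (nat_lit 13) (.e (nat_lit 172085) (nat_lit 9) (.e (nat_lit 426039) (nat_lit 0) .nil))))))) (.g (nat_lit 4) .nil .nil)))))) (.nd (nat_lit 3) (.nd (nat_lit 4) (.nd (nat_lit 5) 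
(.lf (nat_lit 99847) (.g (nat_lit 3842) (.e (nat_lit 3238) (nat_lit 197) (.e (nat_lit 532523) (nat_lit 7) (.e (nat_lit 319533) (nat_lit 16) (.e (nat_lit 286732) (nat_lit 2) (.e (nat_lit 90170) (nat_lit 13) (.e (nat_lit 172088) (nat_lit 9) (.e (nat_lit 426039) (nat_lit 0) .nil))))))) (.g (nat_lit 5) .nil .nil))) 
(.lf (nat_lit 99879) (.g (nat_lit 3854) (.e (nat_lit 3238) (nat_lit 197) (.e (nat_lit 532523) (nat_lit 7) (.e (nat_lit 319533) (nat_lit 16) (.e (nat_lit 286734) (nat_lit 3) (.e (nat_lit 98370) (nat_lit 28) (.e (nat_lit 442407) (nat_lit 20) .nil)))))) (.g (nat_lit 5) .nil .nil)))) (.nd (nat_lit 5) 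
(.lf (nat_lit 99863) (.g (nat_lit 2554) (.e (nat_lit 3238) (nat_lit 197) (.e (nat_lit 532523) (nat_lit 7) (.e (nat_lit 319533) (nat_lit 16) (.e (nat_lit 286733) (nat_lit 2) (.e (nat_lit 90170) (nat_lit 13) (.e (nat_lit 172092) (nat_lit 9) (.e (nat_lit 426042) (nat_lit 0) .nil))))))) (.g (nat_lit 4) .nil .nil))) 
(.lf (nat_lit 99895) (.g (nat_lit 2658) (.e (nat_lit 3238) (nat_lit 197) (.e (nat_lit 532523) (nat_lit 7) (.e (nat_lit 319534) (nat_lit 16) (.e (nat_lit 286732) (nat_lit 2) (.e (nat_lit 90170) (nat_lit 13) (.e (nat_lit 172095) (nat_lit 9) (.e (nat_lit 426037) (nat_lit 0) .nil))))))) (.g (nat_lit 4) .nil .nil))))) (.nd (nat_lit 4) (.nd (nat_lit 5) 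
(.lf (nat_lit 99855) (.g (nat_lit 2122) (.e (nat_lit 3238) (nat_lit 197) (.e (nat_lit 532523) (nat_lit 7) (.e (nat_lit 319533) (nat_lit 16) (.e (nat_lit 286733) (nat_lit 2) (.e (nat_lit 90170) (nat_lit 13) .nil))))) .nil)) 
(.lf (nat_lit 99887) (.g (nat_lit 2082) (.e (nat_lit 3238) (nat_lit 197) (.e (nat_lit 532523) (nat_lit 7) (.e (nat_lit 319534) (nat_lit 16) (.e (nat_lit 286728) (nat_lit 0) (.e (nat_lit 1788) (nat_lit 119) .nil))))) .nil))) (.nd (nat_lit 5) 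
(.lf (nat_lit 99871) (.g (nat_lit 3803) (.e (nat_lit 3238) (nat_lit 197) (.e (nat_lit 532523) (nat_lit 7) (.e (nat_lit 319533) (nat_lit 16) (.e (nat_lit 286734) (nat_lit 3) (.e (nat_lit 98359) (nat_lit 26) (.e (nat_lit 426208) (nat_lit 9) (.e (nat_lit 426039) (nat_lit 0) .nil))))))) (.g (nat_lit 5) .nil .nil))) 
(.lf (nat_lit 99903) (.g (nat_lit 3815) (.e (nat_lit 3238) (nat_lit 197) (.e (nat_lit 532523) (nat_lit 7) (.e (nat_lit 319534) (nat_lit 16) (.e (nat_lit 286733) (nat_lit 2) (.e (nat_lit 90170) (nat_lit 13) (.e (nat_lit 172092) (nat_lit 9) (.e (nat_lit 426003) (nat_lit 0) .nil))))))) (.g (nat_lit 5) .nil .nil)))))))))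

noncomputable def tv1366 : DT := (.nd (nat_lit 0) (.nd (nat_lit 1) (.nd (nat_lit 2) (.nd (nat_lit 3) (.nd (nat_lit 4) (.nd (nat_lit 5) 
(.lf (nat_lit 99904) (.g (nat_lit 3629) (.e (nat_lit 3238) (nat_lit 197) (.e (nat_lit 532523) (nat_lit 7) (.e (nat_lit 319534) (nat_lit 16) (.e (nat_lit 286733) (nat_lit 2) (.e (nat_lit 90170) (nat_lit 13) (.e (nat_lit 172092) (nat_lit 9) (.e (nat_lit 426037) (nat_lit 0) .nil))))))) (.g (nat_lit 5) .nil .nil))) 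
(.lf (nat_lit 99936) (.g (nat_lit 2392) (.e (nat_lit 3238) (nat_lit 197) (.e (nat_lit 532523) (nat_lit 7) (.e (nat_lit 319536) (nat_lit 17) (.e (nat_lit 294928) (nat_lit 2) (.e (nat_lit 90178) (nat_lit 15) .nil))))) .nil))) (.nd (nat_lit 5) 
(.lf (nat_lit 99920) (.g (nat_lit 2884) (.e (nat_lit 3238) (nat_lit 197) (.e (nat_lit 532523) (nat_lit 7) (.e (nat_lit 319534) (nat_lit 16) (.e (nat_lit 286734) (nat_lit 3) (.e (nat_lit 98359) (nat_lit 26) (.e (nat_lit 426212) (nat_lit 9) (.e (nat_lit 426037) (nat_lit 0) .nil))))))) (.g (nat_lit 4) .nil .nil))) 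
(.lf (nat_lit 99952) (.g (nat_lit 4949) (.e (nat_lit 3238) (nat_lit 197) (.e (nat_lit 532535) (nat_lit 9) (.e (nat_lit 336176) (nat_lit 10) (.e (nat_lit 344130) (nat_lit 26) (.e (nat_lit 557087) (nat_lit 11) (.e (nat_lit 24665) (nat_lit 14) (.e (nat_lit 401408) (nat_lit 0) .nil))))))) (.g (nat_lit 0) .nil .nil))))) (.nd (nat_lit 4) (.nd (nat_lit 5) 
(.lf (nat_lit 99912) (.g (nat_lit 1406) (.e (nat_lit 3238) (nat_lit 197) (.e (nat_lit 532523) (nat_lit 7) (.e (nat_lit 319534) (nat_lit 16) (.e (nat_lit 286734) (nat_lit 3) .nil)))) .nil)) 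
(.lf (nat_lit 99944) (.g (nat_lit 4637) (.e (nat_lit 3238) (nat_lit 197) (.e (nat_lit 532535) (nat_lit 9) (.e (nat_lit 336176) (nat_lit 10) (.e (nat_lit 344130) (nat_lit 26) (.e (nat_lit 557085) (nat_lit 11) (.e (nat_lit 24664) (nat_lit 14) (.e (nat_lit 401414) (nat_lit 0) .nil))))))) (.g (nat_lit 7) .nil .nil)))) (.nd (nat_lit 5) 
(.lf (nat_lit 99928) (.g (nat_lit 4909) (.e (nat_lit 3238) (nat_lit 197) (.e (nat_lit 532523) (nat_lit 7) (.e (nat_lit 319534) (nat_lit 16) (.e (nat_lit 286734) (nat_lit 3) (.e (nat_lit 98370) (nat_lit 28) (.e (nat_lit 442410) (nat_lit 20) .nil)))))) (.g (nat_lit 0) .nil .nil))) 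
(.lf (nat_lit 99960) (.g (nat_lit 4920) (.e (nat_lit 3238) (nat_lit 197) (.e (nat_lit 532535) (nat_lit 9) (.e (nat_lit 336176) (nat_lit 10) (.e (nat_lit 344133) (nat_lit 26) (.e (nat_lit 557085) (nat_lit 11) (.e (nat_lit 24665) (nat_lit 14) (.e (nat_lit 401408) (nat_lit 0) .nil))))))) (.g (nat_lit 6) .nil .nil)))))) (.nd (nat_lit 3) (.nd (nat_lit 4) (.nd (nat_lit 5) 
(.lf (nat_lit 99908) (.g (nat_lit 2432) (.e (nat_lit 3238) (nat_lit 197) (.e (nat_lit 532523) (nat_lit 7) (.e (nat_lit 319534) (nat_lit 16) (.e (nat_lit 286733) (nat_lit 2) (.e (nat_lit 90170) (nat_lit 13) (.e (nat_lit 172092) (nat_lit 9) (.e (nat_lit 426047) (nat_lit 0) .nil))))))) (.g (nat_lit 4) .nil .nil))) 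
(.lf (nat_lit 99940) (.g (nat_lit 2731) (.e (nat_lit 3238) (nat_lit 197) (.e (nat_lit 532535) (nat_lit 9) (.e (nat_lit 336173) (nat_lit 10) (.e (nat_lit 344132) (nat_lit 26) (.e (nat_lit 557085) (nat_lit 11) .nil))))) .nil))) (.nd (nat_lit 5) 
(.lf (nat_lit 99924) (.g (nat_lit 5439) (.e (nat_lit 3238) (nat_lit 197) (.e (nat_lit 532523) (nat_lit 7) (.e (nat_lit 319534) (nat_lit 16) (.e (nat_lit 286734) (nat_lit 3) (.e (nat_lit 98370) (nat_lit 28) (.e (nat_lit 442404) (nat_lit 20) .nil)))))) (.g (nat_lit 0) .nil .nil))) 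
(.lf (nat_lit 99956) (.g (nat_lit 4534) (.e (nat_lit 3238) (nat_lit 197) (.e (nat_lit 532535) (nat_lit 9) (.e (nat_lit 336176) (nat_lit 10) (.e (nat_lit 344132) (nat_lit 26) (.e (nat_lit 557085) (nat_lit 11) (.e (nat_lit 24665) (nat_lit 14) (.e (nat_lit 401413) (nat_lit 0) .nil))))))) (.g (nat_lit 7) .nil .nil))))) (.nd (nat_lit 4) (.nd (nat_lit 5) 
(.lf (nat_lit 99916) (.g (nat_lit 3301) (.e (nat_lit 3238) (nat_lit 197) (.e (nat_lit 532523) (nat_lit 7) (.e (nat_lit 319534) (nat_lit 16) (.e (nat_lit 286734) (nat_lit 3) (.e (nat_lit 98359) (nat_lit 26) (.e (nat_lit 426211) (nat_lit 9) (.e (nat_lit 426003) (nat_lit 0) .nil))))))) (.g (nat_lit 5) .nil .nil))) 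
(.lf (nat_lit 99948) (.g (nat_lit 4344) (.e (nat_lit 3238) (nat_lit 197) (.e (nat_lit 532535) (nat_lit 9) (.e (nat_lit 336176) (nat_lit 10) (.e (nat_lit 344130) (nat_lit 26) (.e (nat_lit 557086) (nat_lit 11) (.e (nat_lit 24664) (nat_lit 14) (.e (nat_lit 401414) (nat_lit 0) .nil))))))) (.g (nat_lit 7) .nil .nil)))) (.nd (nat_lit 5) 
(.lf (nat_lit 99932) (.g (nat_lit 2309) (.e (nat_lit 3238) (nat_lit 197) (.e (nat_lit 532523) (nat_lit 7) (.e (nat_lit 319535) (nat_lit 17) (.e (nat_lit 294928) (nat_lit 2) (.e (nat_lit 90178) (nat_lit 15) (.e (nat_lit 188424) (nat_lit 20) .nil)))))) (.g (nat_lit 4) .nil .nil))) 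
(.lf (nat_lit 99964) (.g (nat_lit 4465) (.e (nat_lit 3238) (nat_lit 197) (.e (nat_lit 532535) (nat_lit 9) (.e (nat_lit 336176) (nat_lit 10) (.e (nat_lit 344133) (nat_lit 26) (.e (nat_lit 557086) (nat_lit 11) (.e (nat_lit 24664) (nat_lit 14) (.e (nat_lit 401414) (nat_lit 0) .nil))))))) (.g (nat_lit 7) .nil .nil))))))) (.nd (nat_lit 2) (.nd (nat_lit 3) (.nd (nat_lit 4) (.nd (nat_lit 5) 
(.lf (nat_lit 99906) (.g (nat_lit 2529) (.e (nat_lit 3238) (nat_lit 197) (.e (nat_lit 532523) (nat_lit 7) (.e (nat_lit 319534) (nat_lit 16) (.e (nat_lit 286733) (nat_lit 2) (.e (nat_lit 90170) (nat_lit 13) (.e (nat_lit 172092) (nat_lit 9) (.e (nat_lit 426041) (nat_lit 0) .nil))))))) (.g (nat_lit 4) .nil .nil))) 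
(.lf (nat_lit 99938) (.g (nat_lit 2936) (.e (nat_lit 3238) (nat_lit 197) (.e (nat_lit 532531) (nat_lit 9) (.e (nat_lit 336324) (nat_lit 18) (.e (nat_lit 204853) (nat_lit 26) (.e (nat_lit 336324) (nat_lit 18) (.e (nat_lit 204854) (nat_lit 26) (.e (nat_lit 336306) (nat_lit 15) .nil))))))) (.g (nat_lit 6) .nil .nil)))) (.nd (nat_lit 5) 
(.lf (nat_lit 99922) (.g (nat_lit 5081) (.e (nat_lit 3238) (nat_lit 197) (.e (nat_lit 532523) (nat_lit 7) (.e (nat_lit 319534) (nat_lit 16) (.e (nat_lit 286734) (nat_lit 3) (.e (nat_lit 98370) (nat_lit 28) (.e (nat_lit 442392) (nat_lit 20) .nil)))))) (.g (nat_lit 0) .nil .nil))) 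
(.lf (nat_lit 99954) (.g (nat_lit 4606) (.e (nat_lit 3238) (nat_lit 197) (.e (nat_lit 532535) (nat_lit 9) (.e (nat_lit 336176) (nat_lit 10) (.e (nat_lit 344132) (nat_lit 26) (.e (nat_lit 557085) (nat_lit 11) (.e (nat_lit 24664) (nat_lit 14) (.e (nat_lit 401414) (nat_lit 0) .nil))))))) (.g (nat_lit 7) .nil .nil))))) (.nd (nat_lit 4) (.nd (nat_lit 5) 
(.lf (nat_lit 99914) (.g (nat_lit 3492) (.e (nat_lit 3238) (nat_lit 197) (.e (nat_lit 532523) (nat_lit 7) (.e (nat_lit 319534) (nat_lit 16) (.e (nat_lit 286734) (nat_lit 3) (.e (nat_lit 98359) (nat_lit 26) (.e (nat_lit 426208) (nat_lit 9) (.e (nat_lit 426003) (nat_lit 0) .nil))))))) (.g (nat_lit 5) .nil .nil))) 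
(.lf (nat_lit 99946) (.g (nat_lit 4516) (.e (nat_lit 3238) (nat_lit 197) (.e (nat_lit 532535) (nat_lit 9) (.e (nat_lit 336176) (nat_lit 10) (.e (nat_lit 344130) (nat_lit 26) (.e (nat_lit 557085) (nat_lit 11) (.e (nat_lit 24665) (nat_lit 14) (.e (nat_lit 401413) (nat_lit 0) .nil))))))) (.g (nat_lit 6) .nil .nil)))) (.nd (nat_lit 5) 
(.lf (nat_lit 99930) (.g (nat_lit 2722) (.e (nat_lit 3238) (nat_lit 197) (.e (nat_lit 532523) (nat_lit 7) (.e (nat_lit 319535) (nat_lit 17) (.e (nat_lit 294928) (nat_lit 2) (.e (nat_lit 90176) (nat_lit 15) (.e (nat_lit 188437) (nat_lit 20) .nil)))))) (.g (nat_lit 5) .nil .nil))) 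
(.lf (nat_lit 99962) (.g (nat_lit 5392) (.e (nat_lit 3238) (nat_lit 197) (.e (nat_lit 532535) (nat_lit 9) (.e (nat_lit 336176) (nat_lit 10) (.e (nat_lit 344133) (nat_lit 26) (.e (nat_lit 557085) (nat_lit 11) (.e (nat_lit 24665) (nat_lit 14) (.e (nat_lit 401414) (nat_lit 0) .nil))))))) (.g (nat_lit 7) .nil .nil)))))) (.nd (nat_lit 3) (.nd (nat_lit 4) (.nd (nat_lit 5) 
(.lf (nat_lit 99910) (.g (nat_lit 2653) (.e (nat_lit 3238) (nat_lit 197) (.e (nat_lit 532523) (nat_lit 7) (.e (nat_lit 319534) (nat_lit 16) (.e (nat_lit 286733) (nat_lit 2) (.e (nat_lit 90170) (nat_lit 13) (.e (nat_lit 172095) (nat_lit 9) (.e (nat_lit 426037) (nat_lit 0) .nil))))))) (.g (nat_lit 4) .nil .nil))) 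
(.lf (nat_lit 99942) (.g (nat_lit 2448) (.e (nat_lit 3238) (nat_lit 197) (.e (nat_lit 532535) (nat_lit 9) (.e (nat_lit 336176) (nat_lit 10) (.e (nat_lit 344127) (nat_lit 26) (.e (nat_lit 557087) (nat_lit 11) (.e (nat_lit 24665) (nat_lit 14) (.e (nat_lit 401413) (nat_lit 0) .nil))))))) (.g (nat_lit 4) .nil .nil)))) (.nd (nat_lit 5) 
(.lf (nat_lit 99926) (.g (nat_lit 4147) (.e (nat_lit 3238) (nat_lit 197) (.e (nat_lit 532523) (nat_lit 7) (.e (nat_lit 319534) (nat_lit 16) (.e (nat_lit 286734) (nat_lit 3) (.e (nat_lit 98370) (nat_lit 28) (.e (nat_lit 442407) (nat_lit 20) .nil)))))) (.g (nat_lit 5) .nil .nil))) 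
(.lf (nat_lit 99958) (.g (nat_lit 2763) (.e (nat_lit 3238) (nat_lit 197) (.e (nat_lit 532535) (nat_lit 9) (.e (nat_lit 336176) (nat_lit 10) (.e (nat_lit 344132) (nat_lit 26) (.e (nat_lit 557087) (nat_lit 11) (.e (nat_lit 24665) (nat_lit 14) (.e (nat_lit 401413) (nat_lit 0) .nil))))))) (.g (nat_lit 4) .nil .nil))))) (.nd (nat_lit 4) (.nd (nat_lit 5) 
(.lf (nat_lit 99918) (.g (nat_lit 2803) (.e (nat_lit 3238) (nat_lit 197) (.e (nat_lit 532523) (nat_lit 7) (.e (nat_lit 319534) (nat_lit 16) (.e (nat_lit 286734) (nat_lit 3) (.e (nat_lit 98359) (nat_lit 26) (.e (nat_lit 426211) (nat_lit 9) (.e (nat_lit 426040) (nat_lit 0) .nil))))))) (.g (nat_lit 4) .nil .nil))) 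
(.lf (nat_lit 99950) (.g (nat_lit 5079) (.e (nat_lit 3238) (nat_lit 197) (.e (nat_lit 532535) (nat_lit 9) (.e (nat_lit 336176) (nat_lit 10) (.e (nat_lit 344130) (nat_lit 26) (.e (nat_lit 557087) (nat_lit 11) (.e (nat_lit 24661) (nat_lit 14) (.e (nat_lit 401414) (nat_lit 0) .nil))))))) (.g (nat_lit 0) .nil .nil)))) (.nd (nat_lit 5) 
(.lf (nat_lit 99934) (.g (nat_lit 1981) (.e (nat_lit 3238) (nat_lit 197) (.e (nat_lit 532523) (nat_lit 7) (.e (nat_lit 319536) (nat_lit 17) (.e (nat_lit 294928) (nat_lit 2) (.e (nat_lit 90176) (nat_lit 15) .nil))))) .nil)) 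
(.lf (nat_lit 99966) (.g (nat_lit 1594) (.e (nat_lit 3238) (nat_lit 197) (.e (nat_lit 532535) (nat_lit 9) (.e (nat_lit 336176) (nat_lit 10) (.e (nat_lit 344133) (nat_lit 26) (.e (nat_lit 557087) (nat_lit 11) .nil))))) .nil))))))) (.nd (nat_lit 1) (.nd (nat_lit 2) (.nd (nat_lit 3) (.nd (nat_lit 4) (.nd (nat_lit 5) 
(.lf (nat_lit 99905) (.g (nat_lit 2728) (.e (nat_lit 3238) (nat_lit 197) (.e (nat_lit 532523) (nat_lit 7) (.e (nat_lit 319534) (nat_lit 16) (.e (nat_lit 286733) (nat_lit 2) (.e (nat_lit 90170) (nat_lit 13) (.e (nat_lit 172092) (nat_lit 9) (.e (nat_lit 426038) (nat_lit 0) .nil))))))) (.g (nat_lit 4) .nil .nil))) 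
(.lf (nat_lit 99937) (.g (nat_lit 2641) (.e (nat_lit 3238) (nat_lit 197) (.e (nat_lit 532523) (nat_lit 7) (.e (nat_lit 319536) (nat_lit 17) (.e (nat_lit 294928) (nat_lit 2) (.e (nat_lit 90178) (nat_lit 15) (.e (nat_lit 188440) (nat_lit 20) .nil)))))) (.g (nat_lit 4) .nil .nil)))) (.nd (nat_lit 5) 
(.lf (nat_lit 99921) (.g (nat_lit 2588) (.e (nat_lit 3238) (nat_lit 197) (.e (nat_lit 532523) (nat_lit 7) (.e (nat_lit 319534) (nat_lit 16) (.e (nat_lit 286734) (nat_lit 3) (.e (nat_lit 98359) (nat_lit 26) (.e (nat_lit 426219) (nat_lit 9) (.e (nat_lit 426039) (nat_lit 0) .nil))))))) (.g (nat_lit 4) .nil .nil))) 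
(.lf (nat_lit 99953) (.g (nat_lit 5054) (.e (nat_lit 3238) (nat_lit 197) (.e (nat_lit 532535) (nat_lit 9) (.e (nat_lit 336176) (nat_lit 10) (.e (nat_lit 344130) (nat_lit 26) (.e (nat_lit 557087) (nat_lit 11) (.e (nat_lit 24665) (nat_lit 14) (.e (nat_lit 401413) (nat_lit 0) .nil))))))) (.g (nat_lit 0) .nil .nil))))) (.nd (nat_lit 4) (.nd (nat_lit 5) 
(.lf (nat_lit 99913) (.g (nat_lit 2095) (.e (nat_lit 3238) (nat_lit 197) (.e (nat_lit 532523) (nat_lit 7) (.e (nat_lit 319534) (nat_lit 16) (.e (nat_lit 286734) (nat_lit 3) (.e (nat_lit 98359) (nat_lit 26) .nil))))) .nil)) 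
(.lf (nat_lit 99945) (.g (nat_lit 4706) (.e (nat_lit 3238) (nat_lit 197) (.e (nat_lit 532535) (nat_lit 9) (.e (nat_lit 336176) (nat_lit 10) (.e (nat_lit 344130) (nat_lit 26) (.e (nat_lit 557085) (nat_lit 11) (.e (nat_lit 24665) (nat_lit 14) (.e (nat_lit 401408) (nat_lit 0) .nil))))))) (.g (nat_lit 6) .nil .nil)))) (.nd (nat_lit 5) 
(.lf (nat_lit 99929) (.g (nat_lit 2434) (.e (nat_lit 3238) (nat_lit 197) (.e (nat_lit 532523) (nat_lit 7) (.e (nat_lit 319534) (nat_lit 16) (.e (nat_lit 286735) (nat_lit 3) (.e (nat_lit 98359) (nat_lit 26) .nil))))) .nil)) 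
(.lf (nat_lit 99961) (.g (nat_lit 4730) (.e (nat_lit 3238) (nat_lit 197) (.e (nat_lit 532535) (nat_lit 9) (.e (nat_lit 336176) (nat_lit 10) (.e (nat_lit 344133) (nat_lit 26) (.e (nat_lit 557085) (nat_lit 11) (.e (nat_lit 24665) (nat_lit 14) (.e (nat_lit 401413) (nat_lit 0) .nil))))))) (.g (nat_lit 6) .nil .nil)))))) (.nd (nat_lit 3) (.nd (nat_lit 4) (.nd (nat_lit 5) 
(.lf (nat_lit 99909) (.g (nat_lit 2764) (.e (nat_lit 3238) (nat_lit 197) (.e (nat_lit 532523) (nat_lit 7) (.e (nat_lit 319534) (nat_lit 16) (.e (nat_lit 286733) (nat_lit 2) (.e (nat_lit 90170) (nat_lit 13) (.e (nat_lit 172095) (nat_lit 9) (.e (nat_lit 426003) (nat_lit 0) .nil))))))) (.g (nat_lit 4) .nil .nil))) 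
(.lf (nat_lit 99941) (.g (nat_lit 4290) (.e (nat_lit 3238) (nat_lit 197) (.e (nat_lit 532535) (nat_lit 9) (.e (nat_lit 336173) (nat_lit 10) (.e (nat_lit 344133) (nat_lit 26) (.e (nat_lit 557087) (nat_lit 11) (.e (nat_lit 24665) (nat_lit 14) (.e (nat_lit 401414) (nat_lit 0) .nil))))))) (.g (nat_lit 4) .nil .nil)))) (.nd (nat_lit 5) 
(.lf (nat_lit 99925) (.g (nat_lit 4441) (.e (nat_lit 3238) (nat_lit 197) (.e (nat_lit 532523) (nat_lit 7) (.e (nat_lit 319534) (nat_lit 16) (.e (nat_lit 286734) (nat_lit 3) (.e (nat_lit 98370) (nat_lit 28) (.e (nat_lit 442405) (nat_lit 20) .nil)))))) (.g (nat_lit 5) .nil .nil))) 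
(.lf (nat_lit 99957) (.g (nat_lit 2001) (.e (nat_lit 3238) (nat_lit 197) (.e (nat_lit 532535) (nat_lit 9) (.e (nat_lit 336176) (nat_lit 10) (.e (nat_lit 344132) (nat_lit 26) (.e (nat_lit 557086) (nat_lit 11) (.e (nat_lit 24665) (nat_lit 14) (.e (nat_lit 401414) (nat_lit 0) .nil))))))) (.g (nat_lit 4) .nil .nil))))) (.nd (nat_lit 4) (.nd (nat_lit 5) 
(.lf (nat_lit 99917) (.g (nat_lit 2673) (.e (nat_lit 3238) (nat_lit 197) (.e (nat_lit 532523) (nat_lit 7) (.e (nat_lit 319534) (nat_lit 16) (.e (nat_lit 286734) (nat_lit 3) (.e (nat_lit 98359) (nat_lit 26) (.e (nat_lit 426211) (nat_lit 9) (.e (nat_lit 426037) (nat_lit 0) .nil))))))) (.g (nat_lit 4) .nil .nil))) 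
(.lf (nat_lit 99949) (.g (nat_lit 2302) (.e (nat_lit 3238) (nat_lit 197) (.e (nat_lit 532535) (nat_lit 9) (.e (nat_lit 336176) (nat_lit 10) (.e (nat_lit 344130) (nat_lit 26) (.e (nat_lit 557086) (nat_lit 11) (.e (nat_lit 24665) (nat_lit 14) (.e (nat_lit 401413) (nat_lit 0) .nil))))))) (.g (nat_lit 4) .nil .nil)))) (.nd (nat_lit 5) 
(.lf (nat_lit 99933) (.g (nat_lit 2487) (.e (nat_lit 3238) (nat_lit 197) (.e (nat_lit 532523) (nat_lit 7) (.e (nat_lit 319535) (nat_lit 17) (.e (nat_lit 294928) (nat_lit 2) (.e (nat_lit 90178) (nat_lit 15) (.e (nat_lit 188441) (nat_lit 20) .nil)))))) (.g (nat_lit 4) .nil .nil))) 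
(.lf (nat_lit 99965) (.g (nat_lit 2433) (.e (nat_lit 3238) (nat_lit 197) (.e (nat_lit 532535) (nat_lit 9) (.e (nat_lit 336176) (nat_lit 10) (.e (nat_lit 344133) (nat_lit 26) (.e (nat_lit 557086) (nat_lit 11) (.e (nat_lit 24665) (nat_lit 14) (.e (nat_lit 401413) (nat_lit 0) .nil))))))) (.g (nat_lit 4) .nil .nil))))))) (.nd (nat_lit 2) (.nd (nat_lit 3) (.nd (nat_lit 4) (.nd (nat_lit 5) 
(.lf (nat_lit 99907) (.g (nat_lit 2505) (.e (nat_lit 3238) (nat_lit 197) (.e (nat_lit 532523) (nat_lit 7) (.e (nat_lit 319534) (nat_lit 16) (.e (nat_lit 286733) (nat_lit 2) (.e (nat_lit 90170) (nat_lit 13) (.e (nat_lit 172092) (nat_lit 9) (.e (nat_lit 426046) (nat_lit 0) .nil))))))) (.g (nat_lit 4) .nil .nil))) 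
(.lf (nat_lit 99939) (.g (nat_lit 885) (.e (nat_lit 3238) (nat_lit 197) (.e (nat_lit 532535) (nat_lit 9) (.e (nat_lit 335925) (nat_lit 0) .nil))) .nil))) (.nd (nat_lit 5) 
(.lf (nat_lit 99923) (.g (nat_lit 4513) (.e (nat_lit 3238) (nat_lit 197) (.e (nat_lit 532523) (nat_lit 7) (.e (nat_lit 319534) (nat_lit 16) (.e (nat_lit 286734) (nat_lit 3) (.e (nat_lit 98370) (nat_lit 28) (.e (nat_lit 442402) (nat_lit 20) .nil)))))) (.g (nat_lit 5) .nil .nil))) 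
(.lf (nat_lit 99955) (.g (nat_lit 4706) (.e (nat_lit 3238) (nat_lit 197) (.e (nat_lit 532535) (nat_lit 9) (.e (nat_lit 336176) (nat_lit 10) (.e (nat_lit 344132) (nat_lit 26) (.e (nat_lit 557085) (nat_lit 11) (.e (nat_lit 24665) (nat_lit 14) (.e (nat_lit 401408) (nat_lit 0) .nil))))))) (.g (nat_lit 0) .nil .nil))))) (.nd (nat_lit 4) (.nd (nat_lit 5) 
(.lf (nat_lit 99915) (.g (nat_lit 2808) (.e (nat_lit 3238) (nat_lit 197) (.e (nat_lit 532523) (nat_lit 7) (.e (nat_lit 319534) (nat_lit 16) (.e (nat_lit 286734) (nat_lit 3) (.e (nat_lit 98359) (nat_lit 26) (.e (nat_lit 426208) (nat_lit 9) (.e (nat_lit 426037) (nat_lit 0) .nil))))))) (.g (nat_lit 4) .nil .nil))) 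
(.lf (nat_lit 99947) (.g (nat_lit 5058) (.e (nat_lit 3238) (nat_lit 197) (.e (nat_lit 532535) (nat_lit 9) (.e (nat_lit 336176) (nat_lit 10) (.e (nat_lit 344130) (nat_lit 26) (.e (nat_lit 557085) (nat_lit 11) (.e (nat_lit 24665) (nat_lit 14) (.e (nat_lit 401414) (nat_lit 0) .nil))))))) (.g (nat_lit 7) .nil .nil)))) (.nd (nat_lit 5) 
(.lf (nat_lit 99931) (.g (nat_lit 2068) (.e (nat_lit 3238) (nat_lit 197) (.e (nat_lit 532523) (nat_lit 7) (.e (nat_lit 319535) (nat_lit 17) (.e (nat_lit 294928) (nat_lit 2) (.e (nat_lit 90176) (nat_lit 15) (.e (nat_lit 188439) (nat_lit 20) .nil)))))) (.g (nat_lit 4) .nil .nil))) 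
(.lf (nat_lit 99963) (.g (nat_lit 2953) (.e (nat_lit 3238) (nat_lit 197) (.e (nat_lit 532535) (nat_lit 9) (.e (nat_lit 336176) (nat_lit 10) (.e (nat_lit 344133) (nat_lit 26) (.e (nat_lit 557086) (nat_lit 11) (.e (nat_lit 24663) (nat_lit 14) (.e (nat_lit 401414) (nat_lit 0) .nil))))))) (.g (nat_lit 5) .nil .nil)))))) (.nd (nat_lit 3) (.nd (nat_lit 4) (.nd (nat_lit 5) 
(.lf (nat_lit 99911) (.g (nat_lit 2800) (.e (nat_lit 3238) (nat_lit 197) (.e (nat_lit 532523) (nat_lit 7) (.e (nat_lit 319534) (nat_lit 16) (.e (nat_lit 286733) (nat_lit 2) (.e (nat_lit 90170) (nat_lit 13) (.e (nat_lit 172095) (nat_lit 9) (.e (nat_lit 426040) (nat_lit 0) .nil))))))) (.g (nat_lit 4) .nil .nil))) 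
(.lf (nat_lit 99943) (.g (nat_lit 2592) (.e (nat_lit 3238) (nat_lit 197) (.e (nat_lit 532535) (nat_lit 9) (.e (nat_lit 336176) (nat_lit 10) (.e (nat_lit 344130) (nat_lit 26) (.e (nat_lit 557085) (nat_lit 11) (.e (nat_lit 24663) (nat_lit 14) (.e (nat_lit 401414) (nat_lit 0) .nil))))))) (.g (nat_lit 4) .nil .nil)))) (.nd (nat_lit 5) 
(.lf (nat_lit 99927) (.g (nat_lit 2639) (.e (nat_lit 3238) (nat_lit 197) (.e (nat_lit 532523) (nat_lit 7) (.e (nat_lit 319534) (nat_lit 16) (.e (nat_lit 286734) (nat_lit 3) (.e (nat_lit 98370) (nat_lit 28) (.e (nat_lit 442408) (nat_lit 20) .nil)))))) (.g (nat_lit 4) .nil .nil))) 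
(.lf (nat_lit 99959) (.g (nat_lit 5025) (.e (nat_lit 3238) (nat_lit 197) (.e (nat_lit 532535) (nat_lit 9) (.e (nat_lit 336176) (nat_lit 10) (.e (nat_lit 344133) (nat_lit 26) (.e (nat_lit 557085) (nat_lit 11) (.e (nat_lit 24664) (nat_lit 14) (.e (nat_lit 401414) (nat_lit 0) .nil))))))) (.g (nat_lit 7) .nil .nil))))) (.nd (nat_lit 4) (.nd (nat_lit 5) 
(.lf (nat_lit 99919) (.g (nat_lit 3353) (.e (nat_lit 3238) (nat_lit 197) (.e (nat_lit 532523) (nat_lit 7) (.e (nat_lit 319534) (nat_lit 16) (.e (nat_lit 286734) (nat_lit 3) (.e (nat_lit 98359) (nat_lit 26) (.e (nat_lit 426212) (nat_lit 9) (.e (nat_lit 426003) (nat_lit 0) .nil))))))) (.g (nat_lit 5) .nil .nil))) 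
(.lf (nat_lit 99951) (.g (nat_lit 4436) (.e (nat_lit 3238) (nat_lit 197) (.e (nat_lit 532535) (nat_lit 9) (.e (nat_lit 336176) (nat_lit 10) (.e (nat_lit 344130) (nat_lit 26) (.e (nat_lit 557087) (nat_lit 11) (.e (nat_lit 24664) (nat_lit 14) (.e (nat_lit 401414) (nat_lit 0) .nil))))))) (.g (nat_lit 6) .nil .nil)))) (.nd (nat_lit 5) 
(.lf (nat_lit 99935) (.g (nat_lit 2443) (.e (nat_lit 3238) (nat_lit 197) (.e (nat_lit 532523) (nat_lit 7) (.e (nat_lit 319536) (nat_lit 17) (.e (nat_lit 294928) (nat_lit 2) (.e (nat_lit 90176) (nat_lit 15) (.e (nat_lit 188437) (nat_lit 20) .nil)))))) (.g (nat_lit 4) .nil .nil))) 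
(.lf (nat_lit 99967) (.g (nat_lit 4352) (.e (nat_lit 3238) (nat_lit 197) (.e (nat_lit 532535) (nat_lit 9) (.e (nat_lit 336176) (nat_lit 10) (.e (nat_lit 344133) (nat_lit 26) (.e (nat_lit 557087) (nat_lit 11) (.e (nat_lit 24664) (nat_lit 14) (.e (nat_lit 401414) (nat_lit 0) .nil))))))) (.g (nat_lit 6) .nil .nil)))))))))

noncomputable def tv1367 : DT := (.nd (nat_lit 0) (.nd (nat_lit 1) (.nd (nat_lit 2) (.nd (nat_lit 3) (.nd (nat_lit 4) (.nd (nat_lit 5) (.nd (nat_lit 6) 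
(.lf (nat_lit 99968) (.g (nat_lit 4910) (.e (nat_lit 3238) (nat_lit 197) (.e (nat_lit 532535) (nat_lit 9) (.e (nat_lit 336176) (nat_lit 10) (.e (nat_lit 344133) (nat_lit 26) (.e (nat_lit 557087) (nat_lit 11) (.e (nat_lit 24665) (nat_lit 14) (.e (nat_lit 401408) (nat_lit 0) .nil))))))) (.g (nat_lit 6) .nil .nil))) 
(.lf (nat_lit 100032) (.g (nat_lit 4609) (.e (nat_lit 3238) (nat_lit 197) (.e (nat_lit 532563) (nat_lit 15) (.e (nat_lit 385094) (nat_lit 49) (.e (nat_lit 778317) (nat_lit 3) (.e (nat_lit 57476) (nat_lit 28) (.e (nat_lit 557108) (nat_lit 15) (.e (nat_lit 188437) (nat_lit 20) .nil))))))) (.g (nat_lit 6) .nil .nil)))) (.nd (nat_lit 6) 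
(.lf (nat_lit 100000) (.g (nat_lit 1266) (.e (nat_lit 3238) (nat_lit 197) (.e (nat_lit 532550) (nat_lit 12) (.e (nat_lit 360474) (nat_lit 8) (.e (nat_lit 557093) (nat_lit 12) .nil)))) .nil)) 
(.lf (nat_lit 100064) (.g (nat_lit 1449) (.e (nat_lit 3239) (nat_lit 197) (.e (nat_lit 532501) (nat_lit 1) (.e (nat_lit 57851) (nat_lit 252) .nil))) .nil)))) (.nd (nat_lit 5) (.nd (nat_lit 6) 
(.lf (nat_lit 99984) (.g (nat_lit 3339) (.e (nat_lit 3238) (nat_lit 197) (.e (nat_lit 532544) (nat_lit 10) (.e (nat_lit 344169) (nat_lit 40) (.e (nat_lit 671759) (nat_lit 3) (.e (nat_lit 57479) (nat_lit 28) (.e (nat_lit 557109) (nat_lit 15) (.e (nat_lit 196352) (nat_lit 20) .nil))))))) (.g (nat_lit 6) .nil .nil))) 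
(.lf (nat_lit 100048) (.g (nat_lit 2053) (.e (nat_lit 3238) (nat_lit 197) (.e (nat_lit 532565) (nat_lit 15) (.e (nat_lit 385094) (nat_lit 49) (.e (nat_lit 778317) (nat_lit 3) (.e (nat_lit 57476) (nat_lit 28) (.e (nat_lit 557108) (nat_lit 15) (.e (nat_lit 188434) (nat_lit 20) .nil))))))) (.g (nat_lit 4) .nil .nil)))) (.nd (nat_lit 6) 
(.lf (nat_lit 100016) (.g (nat_lit 3163) (.e (nat_lit 3238) (nat_lit 197) (.e (nat_lit 532550) (nat_lit 12) (.e (nat_lit 360475) (nat_lit 8) (.e (nat_lit 557089) (nat_lit 12) (.e (nat_lit 164020) (nat_lit 45) .nil))))) .nil)) 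
(.lf (nat_lit 100080) (.g (nat_lit 2594) (.e (nat_lit 3240) (nat_lit 197) (.e (nat_lit 532499) (nat_lit 1) (.e (nat_lit 57927) (nat_lit 282) (.e (nat_lit 163873) (nat_lit 3) (.e (nat_lit 204853) (nat_lit 26) .nil))))) .nil))))) (.nd (nat_lit 4) (.nd (nat_lit 5) (.nd (nat_lit 6) 
(.lf (nat_lit 99976) (.g (nat_lit 3297) (.e (nat_lit 3238) (nat_lit 197) (.e (nat_lit 532535) (nat_lit 9) (.e (nat_lit 336295) (nat_lit 15) (.e (nat_lit 3632) (nat_lit 227) (.e (nat_lit 778317) (nat_lit 3) (.e (nat_lit 57477) (nat_lit 28) (.e (nat_lit 557108) (nat_lit 15) (.e (nat_lit 188437) (nat_lit 20) .nil)))))))) (.g (nat_lit 4) .nil .nil))) 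
(.lf (nat_lit 100040) (.g (nat_lit 5106) (.e (nat_lit 3238) (nat_lit 197) (.e (nat_lit 532563) (nat_lit 15) (.e (nat_lit 385094) (nat_lit 49) (.e (nat_lit 778317) (nat_lit 3) (.e (nat_lit 57480) (nat_lit 28) (.e (nat_lit 557109) (nat_lit 15) (.e (nat_lit 188424) (nat_lit 20) .nil))))))) (.g (nat_lit 6) .nil .nil)))) (.nd (nat_lit 6) 
(.lf (nat_lit 100008) (.g (nat_lit 3653) (.e (nat_lit 3238) (nat_lit 197) (.e (nat_lit 532550) (nat_lit 12) (.e (nat_lit 360475) (nat_lit 8) (.e (nat_lit 557070) (nat_lit 9) (.e (nat_lit 253) (nat_lit 21) .nil))))) .nil)) 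
(.lf (nat_lit 100072) (.g (nat_lit 1742) (.e (nat_lit 3239) (nat_lit 197) (.e (nat_lit 532523) (nat_lit 7) (.e (nat_lit 319534) (nat_lit 16) (.e (nat_lit 286733) (nat_lit 2) .nil)))) .nil)))) (.nd (nat_lit 5) (.nd (nat_lit 6) 
(.lf (nat_lit 99992) (.g (nat_lit 2960) (.e (nat_lit 3238) (nat_lit 197) (.e (nat_lit 532549) (nat_lit 12) (.e (nat_lit 360475) (nat_lit 8) (.e (nat_lit 557073) (nat_lit 9) (.e (nat_lit 290) (nat_lit 21) .nil))))) .nil)) 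
(.lf (nat_lit 100056) (.g (nat_lit 1907) (.e (nat_lit 3238) (nat_lit 197) (.e (nat_lit 532579) (nat_lit 26) (.e (nat_lit 426123) (nat_lit 2) (.e (nat_lit 196613) (nat_lit 0) .nil)))) .nil))) (.nd (nat_lit 6) 
(.lf (nat_lit 100024) (.g (nat_lit 2556) (.e (nat_lit 3238) (nat_lit 197) (.e (nat_lit 532563) (nat_lit 15) (.e (nat_lit 385068) (nat_lit 26) (.e (nat_lit 532563) (nat_lit 15) (.e (nat_lit 385066) (nat_lit 26) (.e (nat_lit 532532) (nat_lit 9) (.e (nat_lit 336306) (nat_lit 15) .nil))))))) (.g (nat_lit 4) .nil .nil))) 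
(.lf (nat_lit 100088) (.g (nat_lit 3664) (.e (nat_lit 3240) (nat_lit 197) (.e (nat_lit 532535) (nat_lit 9) (.e (nat_lit 336099) (nat_lit 9) (.e (nat_lit 336028) (nat_lit 3) (.e (nat_lit 98349) (nat_lit 24) .nil))))) .nil)))))) (.nd (nat_lit 3) (.nd (nat_lit 4) (.nd (nat_lit 5) (.nd (nat_lit 6) 
(.lf (nat_lit 99972) (.g (nat_lit 3363) (.e (nat_lit 3238) (nat_lit 197) (.e (nat_lit 532535) (nat_lit 9) (.e (nat_lit 336295) (nat_lit 15) (.e (nat_lit 3631) (nat_lit 227) (.e (nat_lit 778317) (nat_lit 3) (.e (nat_lit 57480) (nat_lit 28) (.e (nat_lit 557109) (nat_lit 15) (.e (nat_lit 188424) (nat_lit 20) .nil)))))))) (.g (nat_lit 4) .nil .nil))) 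
(.lf (nat_lit 100036) (.g (nat_lit 3017) (.e (nat_lit 3238) (nat_lit 197) (.e (nat_lit 532563) (nat_lit 15) (.e (nat_lit 385094) (nat_lit 49) (.e (nat_lit 778317) (nat_lit 3) (.e (nat_lit 57477) (nat_lit 28) (.e (nat_lit 557108) (nat_lit 15) (.e (nat_lit 188435) (nat_lit 20) .nil))))))) (.g (nat_lit 4) .nil .nil)))) (.nd (nat_lit 6) 
(.lf (nat_lit 100004) (.g (nat_lit 4566) (.e (nat_lit 3238) (nat_lit 197) (.e (nat_lit 532550) (nat_lit 12) (.e (nat_lit 360475) (nat_lit 8) (.e (nat_lit 557067) (nat_lit 9) (.e (nat_lit 249) (nat_lit 21) .nil))))) .nil)) 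
(.lf (nat_lit 100068) (.g (nat_lit 2212) (.e (nat_lit 3239) (nat_lit 197) (.e (nat_lit 532504) (nat_lit 1) (.e (nat_lit 57851) (nat_lit 252) (.e (nat_lit 57446) (nat_lit 19) .nil)))) .nil)))) (.nd (nat_lit 5) (.nd (nat_lit 6) 
(.lf (nat_lit 99988) (.g (nat_lit 1225) (.e (nat_lit 3238) (nat_lit 197) (.e (nat_lit 532549) (nat_lit 12) (.e (nat_lit 360473) (nat_lit 8) (.e (nat_lit 557091) (nat_lit 12) .nil)))) .nil)) 
(.lf (nat_lit 100052) (.g (nat_lit 1516) (.e (nat_lit 3238) (nat_lit 197) (.e (nat_lit 532566) (nat_lit 15) (.e (nat_lit 385094) (nat_lit 49) (.e (nat_lit 778317) (nat_lit 3) (.e (nat_lit 57477) (nat_lit 28) (.e (nat_lit 557107) (nat_lit 15) (.e (nat_lit 188424) (nat_lit 20) .nil))))))) (.g (nat_lit 4) .nil .nil)))) (.nd (nat_lit 6) 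
(.lf (nat_lit 100020) (.g (nat_lit 3460) (.e (nat_lit 3238) (nat_lit 197) (.e (nat_lit 532550) (nat_lit 12) (.e (nat_lit 360475) (nat_lit 8) (.e (nat_lit 557094) (nat_lit 12) .nil)))) .nil)) 
(.lf (nat_lit 100084) (.g (nat_lit 649) (.e (nat_lit 3240) (nat_lit 197) (.e (nat_lit 532500) (nat_lit 1) (.e (nat_lit 57851) (nat_lit 252) .nil))) .nil))))) (.nd (nat_lit 4) (.nd (nat_lit 5) (.nd (nat_lit 6) 
(.lf (nat_lit 99980) (.g (nat_lit 2240) (.e (nat_lit 3238) (nat_lit 197) (.e (nat_lit 532543) (nat_lit 10) (.e (nat_lit 344169) (nat_lit 40) (.e (nat_lit 671759) (nat_lit 3) (.e (nat_lit 57479) (nat_lit 28) (.e (nat_lit 557109) (nat_lit 15) (.e (nat_lit 196352) (nat_lit 20) .nil))))))) (.g (nat_lit 6) .nil .nil))) 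
(.lf (nat_lit 100044) (.g (nat_lit 3361) (.e (nat_lit 3238) (nat_lit 197) (.e (nat_lit 532563) (nat_lit 15) (.e (nat_lit 385094) (nat_lit 49) (.e (nat_lit 778317) (nat_lit 3) (.e (nat_lit 57480) (nat_lit 28) (.e (nat_lit 557109) (nat_lit 15) (.e (nat_lit 188441) (nat_lit 20) .nil))))))) (.g (nat_lit 4) .nil .nil)))) (.nd (nat_lit 6) 
(.lf (nat_lit 100012) (.g (nat_lit 3093) (.e (nat_lit 3238) (nat_lit 197) (.e (nat_lit 532550) (nat_lit 12) (.e (nat_lit 360475) (nat_lit 8) (.e (nat_lit 557089) (nat_lit 12) (.e (nat_lit 163844) (nat_lit 0) .nil))))) .nil)) 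
(.lf (nat_lit 100076) (.g (nat_lit 1885) (.e (nat_lit 3240) (nat_lit 197) (.e (nat_lit 532499) (nat_lit 1) (.e (nat_lit 57927) (nat_lit 282) (.e (nat_lit 163866) (nat_lit 2) (.e (nat_lit 196668) (nat_lit 14) .nil))))) .nil)))) (.nd (nat_lit 5) (.nd (nat_lit 6) 
(.lf (nat_lit 99996) (.g (nat_lit 2888) (.e (nat_lit 3238) (nat_lit 197) (.e (nat_lit 532550) (nat_lit 12) (.e (nat_lit 360474) (nat_lit 8) (.e (nat_lit 557072) (nat_lit 9) (.e (nat_lit 290) (nat_lit 21) (.e (nat_lit 336231) (nat_lit 14) (.e (nat_lit 401408) (nat_lit 0) .nil))))))) (.g (nat_lit 4) .nil .nil))) 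
(.lf (nat_lit 100060) (.g (nat_lit 3777) (.e (nat_lit 3239) (nat_lit 197) (.e (nat_lit 532499) (nat_lit 1) (.e (nat_lit 57847) (nat_lit 252) (.e (nat_lit 57408) (nat_lit 12) .nil)))) .nil))) (.nd (nat_lit 6) 
(.lf (nat_lit 100028) (.g (nat_lit 2811) (.e (nat_lit 3238) (nat_lit 197) (.e (nat_lit 532563) (nat_lit 15) (.e (nat_lit 385094) (nat_lit 49) (.e (nat_lit 778317) (nat_lit 3) (.e (nat_lit 57476) (nat_lit 28) (.e (nat_lit 557107) (nat_lit 15) (.e (nat_lit 188437) (nat_lit 20) .nil))))))) (.g (nat_lit 4) .nil .nil))) 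
(.lf (nat_lit 100092) (.g (nat_lit 5121) (.e (nat_lit 3240) (nat_lit 197) (.e (nat_lit 532550) (nat_lit 12) (.e (nat_lit 360475) (nat_lit 8) (.e (nat_lit 557091) (nat_lit 12) (.e (nat_lit 164022) (nat_lit 46) .nil))))) .nil))))))) (.nd (nat_lit 2) (.nd (nat_lit 3) (.nd (nat_lit 4) (.nd (nat_lit 5) (.nd (nat_lit 6) 
(.lf (nat_lit 99970) (.g (nat_lit 2841) (.e (nat_lit 3238) (nat_lit 197) (.e (nat_lit 532535) (nat_lit 9) (.e (nat_lit 336295) (nat_lit 15) (.e (nat_lit 3629) (nat_lit 227) (.e (nat_lit 778317) (nat_lit 3) (.e (nat_lit 57480) (nat_lit 28) (.e (nat_lit 557109) (nat_lit 15) (.e (nat_lit 188424) (nat_lit 20) .nil)))))))) (.g (nat_lit 4) .nil .nil))) 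
(.lf (nat_lit 100034) (.g (nat_lit 2787) (.e (nat_lit 3238) (nat_lit 197) (.e (nat_lit 532563) (nat_lit 15) (.e (nat_lit 385094) (nat_lit 49) (.e (nat_lit 778317) (nat_lit 3) (.e (nat_lit 57477) (nat_lit 28) (.e (nat_lit 557107) (nat_lit 15) (.e (nat_lit 188437) (nat_lit 20) .nil))))))) (.g (nat_lit 4) .nil .nil)))) (.nd (nat_lit 6) 
(.lf (nat_lit 100002) (.g (nat_lit 3279) (.e (nat_lit 3238) (nat_lit 197) (.e (nat_lit 532550) (nat_lit 12) (.e (nat_lit 360475) (nat_lit 8) (.e (nat_lit 557064) (nat_lit 9) .nil)))) .nil)) 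
(.lf (nat_lit 100066) (.g (nat_lit 1287) (.e (nat_lit 3239) (nat_lit 197) (.e (nat_lit 532504) (nat_lit 1) (.e (nat_lit 57851) (nat_lit 252) .nil))) .nil)))) (.nd (nat_lit 5) (.nd (nat_lit 6) 
(.lf (nat_lit 99986) (.g (nat_lit 3008) (.e (nat_lit 3238) (nat_lit 197) (.e (nat_lit 532549) (nat_lit 12) (.e (nat_lit 360473) (nat_lit 8) (.e (nat_lit 557067) (nat_lit 9) (.e (nat_lit 290) (nat_lit 21) .nil))))) .nil)) 
(.lf (nat_lit 100050) (.g (nat_lit 4258) (.e (nat_lit 3238) (nat_lit 197) (.e (nat_lit 532565) (nat_lit 15) (.e (nat_lit 385094) (nat_lit 49) (.e (nat_lit 778317) (nat_lit 3) (.e (nat_lit 57480) (nat_lit 28) (.e (nat_lit 557109) (nat_lit 15) (.e (nat_lit 188437) (nat_lit 20) .nil))))))) (.g (nat_lit 6) .nil .nil)))) (.nd (nat_lit 6) 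
(.lf (nat_lit 100018) (.g (nat_lit 1316) (.e (nat_lit 3238) (nat_lit 197) (.e (nat_lit 532550) (nat_lit 12) (.e (nat_lit 360475) (nat_lit 8) (.e (nat_lit 557091) (nat_lit 12) .nil)))) .nil)) 
(.lf (nat_lit 100082) (.g (nat_lit 2187) (.e (nat_lit 3240) (nat_lit 197) (.e (nat_lit 532499) (nat_lit 1) (.e (nat_lit 57927) (nat_lit 282) (.e (nat_lit 163874) (nat_lit 3) (.e (nat_lit 204872) (nat_lit 30) .nil))))) .nil))))) (.nd (nat_lit 4) (.nd (nat_lit 5) (.nd (nat_lit 6) 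
(.lf (nat_lit 99978) (.g (nat_lit 4003) (.e (nat_lit 3238) (nat_lit 197) (.e (nat_lit 532535) (nat_lit 9) (.e (nat_lit 336295) (nat_lit 15) (.e (nat_lit 3632) (nat_lit 227) (.e (nat_lit 778317) (nat_lit 3) (.e (nat_lit 57480) (nat_lit 28) (.e (nat_lit 557109) (nat_lit 15) (.e (nat_lit 188424) (nat_lit 20) .nil)))))))) (.g (nat_lit 5) .nil .nil))) 
(.lf (nat_lit 100042) (.g (nat_lit 3779) (.e (nat_lit 3238) (nat_lit 197) (.e (nat_lit 532563) (nat_lit 15) (.e (nat_lit 385094) (nat_lit 49) (.e (nat_lit 778317) (nat_lit 3) (.e (nat_lit 57480) (nat_lit 28) (.e (nat_lit 557109) (nat_lit 15) (.e (nat_lit 188435) (nat_lit 20) .nil))))))) (.g (nat_lit 5) .nil .nil)))) (.nd (nat_lit 6) 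
(.lf (nat_lit 100010) (.g (nat_lit 2240) (.e (nat_lit 3238) (nat_lit 197) (.e (nat_lit 532550) (nat_lit 12) (.e (nat_lit 360475) (nat_lit 8) (.e (nat_lit 557085) (nat_lit 11) .nil)))) .nil)) 
(.lf (nat_lit 100074) (.g (nat_lit 3695) (.e (nat_lit 3240) (nat_lit 197) (.e (nat_lit 532499) (nat_lit 1) (.e (nat_lit 57847) (nat_lit 252) (.e (nat_lit 57408) (nat_lit 12) .nil)))) .nil)))) (.nd (nat_lit 5) (.nd (nat_lit 6) 
(.lf (nat_lit 99994) (.g (nat_lit 3153) (.e (nat_lit 3238) (nat_lit 197) (.e (nat_lit 532549) (nat_lit 12) (.e (nat_lit 360475) (nat_lit 8) (.e (nat_lit 557091) (nat_lit 12) (.e (nat_lit 164022) (nat_lit 46) .nil))))) .nil)) 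
(.lf (nat_lit 100058) (.g (nat_lit 1473) (.e (nat_lit 3238) (nat_lit 197) (.e (nat_lit 532579) (nat_lit 26) (.e (nat_lit 426123) (nat_lit 2) (.e (nat_lit 204544) (nat_lit 0) .nil)))) .nil))) (.nd (nat_lit 6) 
(.lf (nat_lit 100026) (.g (nat_lit 1505) (.e (nat_lit 3238) (nat_lit 197) (.e (nat_lit 532563) (nat_lit 15) (.e (nat_lit 385094) (nat_lit 49) (.e (nat_lit 778317) (nat_lit 3) .nil)))) .nil)) 
(.lf (nat_lit 100090) (.g (nat_lit 5175) (.e (nat_lit 3240) (nat_lit 197) (.e (nat_lit 532550) (nat_lit 12) (.e (nat_lit 360474) (nat_lit 8) (.e (nat_lit 557093) (nat_lit 12) (.e (nat_lit 164023) (nat_lit 46) .nil))))) .nil)))))) (.nd (nat_lit 3) (.nd (nat_lit 4) (.nd (nat_lit 5) (.nd (nat_lit 6) 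
(.lf (nat_lit 99974) (.g (nat_lit 1309) (.e (nat_lit 3238) (nat_lit 197) (.e (nat_lit 532535) (nat_lit 9) (.e (nat_lit 336295) (nat_lit 15) (.e (nat_lit 3632) (nat_lit 227) .nil)))) .nil)) 
(.lf (nat_lit 100038) (.g (nat_lit 3991) (.e (nat_lit 3238) (nat_lit 197) (.e (nat_lit 532563) (nat_lit 15) (.e (nat_lit 385094) (nat_lit 49) (.e (nat_lit 778317) (nat_lit 3) (.e (nat_lit 57480) (nat_lit 28) (.e (nat_lit 557107) (nat_lit 15) (.e (nat_lit 188424) (nat_lit 20) .nil))))))) (.g (nat_lit 6) .nil .nil)))) (.nd (nat_lit 6) 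
(.lf (nat_lit 100006) (.g (nat_lit 4828) (.e (nat_lit 3238) (nat_lit 197) (.e (nat_lit 532550) (nat_lit 12) (.e (nat_lit 360475) (nat_lit 8) (.e (nat_lit 557067) (nat_lit 9) (.e (nat_lit 290) (nat_lit 21) (.e (nat_lit 336231) (nat_lit 14) (.e (nat_lit 401414) (nat_lit 0) .nil))))))) (.g (nat_lit 4) .nil .nil))) 
(.lf (nat_lit 100070) (.g (nat_lit 2764) (.e (nat_lit 3239) (nat_lit 197) (.e (nat_lit 532523) (nat_lit 7) (.e (nat_lit 319530) (nat_lit 16) (.e (nat_lit 286733) (nat_lit 2) (.e (nat_lit 90169) (nat_lit 13) .nil))))) .nil)))) (.nd (nat_lit 5) (.nd (nat_lit 6) 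
(.lf (nat_lit 99990) (.g (nat_lit 2037) (.e (nat_lit 3238) (nat_lit 197) (.e (nat_lit 532549) (nat_lit 12) (.e (nat_lit 360475) (nat_lit 8) (.e (nat_lit 557068) (nat_lit 9) .nil)))) .nil)) 
(.lf (nat_lit 100054) (.g (nat_lit 633) (.e (nat_lit 3238) (nat_lit 197) (.e (nat_lit 532569) (nat_lit 16) (.e (nat_lit 401453) (nat_lit 12) .nil))) .nil))) (.nd (nat_lit 6) 
(.lf (nat_lit 100022) (.g (nat_lit 3785) (.e (nat_lit 3238) (nat_lit 197) (.e (nat_lit 532563) (nat_lit 15) (.e (nat_lit 385066) (nat_lit 26) (.e (nat_lit 532532) (nat_lit 9) (.e (nat_lit 336324) (nat_lit 18) (.e (nat_lit 204854) (nat_lit 26) (.e (nat_lit 336306) (nat_lit 15) .nil))))))) (.g (nat_lit 6) .nil .nil))) 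
(.lf (nat_lit 100086) (.g (nat_lit 2679) (.e (nat_lit 3240) (nat_lit 197) (.e (nat_lit 532522) (nat_lit 7) (.e (nat_lit 319530) (nat_lit 16) (.e (nat_lit 286733) (nat_lit 2) (.e (nat_lit 90169) (nat_lit 13) .nil))))) .nil))))) (.nd (nat_lit 4) (.nd (nat_lit 5) (.nd (nat_lit 6) 
(.lf (nat_lit 99982) (.g (nat_lit 1452) (.e (nat_lit 3238) (nat_lit 197) (.e (nat_lit 532544) (nat_lit 10) (.e (nat_lit 344169) (nat_lit 40) (.e (nat_lit 671759) (nat_lit 3) .nil)))) .nil)) 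
(.lf (nat_lit 100046) (.g (nat_lit 2659) (.e (nat_lit 3238) (nat_lit 197) (.e (nat_lit 532564) (nat_lit 15) (.e (nat_lit 385066) (nat_lit 26) (.e (nat_lit 532563) (nat_lit 15) (.e (nat_lit 385066) (nat_lit 26) (.e (nat_lit 532532) (nat_lit 9) (.e (nat_lit 336306) (nat_lit 15) .nil))))))) (.g (nat_lit 6) .nil .nil)))) (.nd (nat_lit 6) 
(.lf (nat_lit 100014) (.g (nat_lit 3090) (.e (nat_lit 3238) (nat_lit 197) (.e (nat_lit 532550) (nat_lit 12) (.e (nat_lit 360475) (nat_lit 8) (.e (nat_lit 557089) (nat_lit 12) (.e (nat_lit 163849) (nat_lit 0) .nil))))) .nil)) 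
(.lf (nat_lit 100078) (.g (nat_lit 2156) (.e (nat_lit 3240) (nat_lit 197) (.e (nat_lit 532499) (nat_lit 1) (.e (nat_lit 57927) (nat_lit 282) (.e (nat_lit 163869) (nat_lit 2) (.e (nat_lit 196668) (nat_lit 14) .nil))))) .nil)))) (.nd (nat_lit 5) (.nd (nat_lit 6) 
(.lf (nat_lit 99998) (.g (nat_lit 3276) (.e (nat_lit 3238) (nat_lit 197) (.e (nat_lit 532550) (nat_lit 12) (.e (nat_lit 360474) (nat_lit 8) (.e (nat_lit 557089) (nat_lit 12) .nil)))) .nil)) 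
(.lf (nat_lit 100062) (.g (nat_lit 650) (.e (nat_lit 3239) (nat_lit 197) (.e (nat_lit 532500) (nat_lit 1) (.e (nat_lit 57851) (nat_lit 252) .nil))) .nil))) (.nd (nat_lit 6) 
(.lf (nat_lit 100030) (.g (nat_lit 3340) (.e (nat_lit 3238) (nat_lit 197) (.e (nat_lit 532563) (nat_lit 15) (.e (nat_lit 385094) (nat_lit 49) (.e (nat_lit 778317) (nat_lit 3) (.e (nat_lit 57476) (nat_lit 28) (.e (nat_lit 557108) (nat_lit 15) (.e (nat_lit 188434) (nat_lit 20) .nil))))))) (.g (nat_lit 4) .nil .nil))) 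
(.lf (nat_lit 100094) (.g (nat_lit 2568) (.e (nat_lit 3240) (nat_lit 197) (.e (nat_lit 532563) (nat_lit 15) (.e (nat_lit 385094) (nat_lit 49) (.e (nat_lit 778317) (nat_lit 3) (.e (nat_lit 57477) (nat_lit 28) (.e (nat_lit 557108) (nat_lit 15) (.e (nat_lit 188433) (nat_lit 20) .nil))))))) (.g (nat_lit 4) .nil .nil))))))))) 
(.nd (nat_lit 1) (.nd (nat_lit 2) (.nd (nat_lit 3) (.nd (nat_lit 4) (.nd (nat_lit 5) 
(.nd (nat_lit 6) 
(.lf (nat_lit 99969) (.g (nat_lit 5363) (.e (nat_lit 3238) (nat_lit 197) (.e (nat_lit 532535) (nat_lit 9) (.e (nat_lit 336176) (nat_lit 10) (.e (nat_lit 344133) (nat_lit 26) (.e (nat_lit 557087) (nat_lit 11) (.e (nat_lit 24665) (nat_lit 14) (.e (nat_lit 401413) (nat_lit 0) .nil))))))) (.g (nat_lit 7) .nil .nil))) 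
(.lf (nat_lit 100033) (.g (nat_lit 3297) (.e (nat_lit 3238) (nat_lit 197) (.e (nat_lit 532563) (nat_lit 15) (.e (nat_lit 385094) (nat_lit 49) (.e (nat_lit 778317) (nat_lit 3) (.e (nat_lit 57477) (nat_lit 28) (.e (nat_lit 557107) (nat_lit 15) (.e (nat_lit 188424) (nat_lit 20) .nil))))))) (.g (nat_lit 4) .nil .nil)))) (.nd (nat_lit 6) 
(.lf (nat_lit 100001) (.g (nat_lit 1185) (.e (nat_lit 3238) (nat_lit 197) (.e (nat_lit 532550) (nat_lit 12) (.e (nat_lit 360474) (nat_lit 8) (.e (nat_lit 557094) (nat_lit 12) .nil)))) .nil)) 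
(.lf (nat_lit 100065) (.g (nat_lit 2376) (.e (nat_lit 3239) (nat_lit 197) (.e (nat_lit 532501) (nat_lit 1) (.e (nat_lit 57851) (nat_lit 252) (.e (nat_lit 57445) (nat_lit 19) .nil)))) .nil)))) (.nd (nat_lit 5) (.nd (nat_lit 6) 
(.lf (nat_lit 99985) (.g (nat_lit 340) (.e (nat_lit 3238) (nat_lit 197) (.e (nat_lit 532549) (nat_lit 12) (.e (nat_lit 360473) (nat_lit 8) .nil))) .nil)) 
(.lf (nat_lit 100049) (.g (nat_lit 1810) (.e (nat_lit 3238) (nat_lit 197) (.e (nat_lit 532565) (nat_lit 15) (.e (nat_lit 385094) (nat_lit 49) (.e (nat_lit 778317) (nat_lit 3) (.e (nat_lit 57477) (nat_lit 28) (.e (nat_lit 557107) (nat_lit 15) (.e (nat_lit 188424) (nat_lit 20) .nil))))))) (.g (nat_lit 4) .nil .nil)))) (.nd (nat_lit 6) 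
(.lf (nat_lit 100017) (.g (nat_lit 4311) (.e (nat_lit 3238) (nat_lit 197) (.e (nat_lit 532550) (nat_lit 12) (.e (nat_lit 360475) (nat_lit 8) (.e (nat_lit 557090) (nat_lit 12) .nil)))) .nil)) 
(.lf (nat_lit 100081) (.g (nat_lit 2678) (.e (nat_lit 3240) (nat_lit 197) (.e (nat_lit 532499) (nat_lit 1) (.e (nat_lit 57927) (nat_lit 282) (.e (nat_lit 163874) (nat_lit 3) (.e (nat_lit 204851) (nat_lit 26) .nil))))) .nil))))) (.nd (nat_lit 4) (.nd (nat_lit 5) (.nd (nat_lit 6) 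
(.lf (nat_lit 99977) (.g (nat_lit 2883) (.e (nat_lit 3238) (nat_lit 197) (.e (nat_lit 532535) (nat_lit 9) (.e (nat_lit 336295) (nat_lit 15) (.e (nat_lit 3632) (nat_lit 227) (.e (nat_lit 778317) (nat_lit 3) (.e (nat_lit 57480) (nat_lit 28) (.e (nat_lit 557107) (nat_lit 15) (.e (nat_lit 188424) (nat_lit 20) .nil)))))))) (.g (nat_lit 4) .nil .nil))) 
(.lf (nat_lit 100041) (.g (nat_lit 5136) (.e (nat_lit 3238) (nat_lit 197) (.e (nat_lit 532563) (nat_lit 15) (.e (nat_lit 385094) (nat_lit 49) (.e (nat_lit 778317) (nat_lit 3) (.e (nat_lit 57480) (nat_lit 28) (.e (nat_lit 557109) (nat_lit 15) (.e (nat_lit 188434) (nat_lit 20) .nil))))))) (.g (nat_lit 6) .nil .nil)))) (.nd (nat_lit 6) 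
(.lf (nat_lit 100009) (.g (nat_lit 3468) (.e (nat_lit 3238) (nat_lit 197) (.e (nat_lit 532550) (nat_lit 12) (.e (nat_lit 360475) (nat_lit 8) (.e (nat_lit 557073) (nat_lit 9) (.e (nat_lit 290) (nat_lit 21) (.e (nat_lit 336231) (nat_lit 14) (.e (nat_lit 401408) (nat_lit 0) .nil))))))) (.g (nat_lit 4) .nil .nil))) 
(.lf (nat_lit 100073) (.g (nat_lit 4900) (.e (nat_lit 3239) (nat_lit 197) (.e (nat_lit 532550) (nat_lit 12) (.e (nat_lit 360475) (nat_lit 8) (.e (nat_lit 557091) (nat_lit 12) (.e (nat_lit 164022) (nat_lit 46) .nil))))) .nil)))) (.nd (nat_lit 5) (.nd (nat_lit 6) 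
(.lf (nat_lit 99993) (.g (nat_lit 2046) (.e (nat_lit 3238) (nat_lit 197) (.e (nat_lit 532549) (nat_lit 12) (.e (nat_lit 360475) (nat_lit 8) (.e (nat_lit 557091) (nat_lit 12) .nil)))) .nil)) 
(.lf (nat_lit 100057) (.g (nat_lit 1691) (.e (nat_lit 3238) (nat_lit 197) (.e (nat_lit 532579) (nat_lit 26) (.e (nat_lit 426123) (nat_lit 2) (.e (nat_lit 196614) (nat_lit 0) .nil)))) .nil))) (.nd (nat_lit 6) 
(.lf (nat_lit 100025) (.g (nat_lit 3040) (.e (nat_lit 3238) (nat_lit 197) (.e (nat_lit 532563) (nat_lit 15) (.e (nat_lit 385093) (nat_lit 49) (.e (nat_lit 778317) (nat_lit 3) (.e (nat_lit 57480) (nat_lit 28) (.e (nat_lit 557109) (nat_lit 15) (.e (nat_lit 188437) (nat_lit 20) .nil))))))) (.g (nat_lit 4) .nil .nil))) 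
(.lf (nat_lit 100089) (.g (nat_lit 4912) (.e (nat_lit 3240) (nat_lit 197) (.e (nat_lit 532550) (nat_lit 12) (.e (nat_lit 360474) (nat_lit 8) (.e (nat_lit 557093) (nat_lit 12) (.e (nat_lit 164022) (nat_lit 46) .nil))))) .nil)))))) (.nd (nat_lit 3) (.nd (nat_lit 4) (.nd (nat_lit 5) (.nd (nat_lit 6) 
(.lf (nat_lit 99973) (.g (nat_lit 3393) (.e (nat_lit 3238) (nat_lit 197) (.e (nat_lit 532535) (nat_lit 9) (.e (nat_lit 336295) (nat_lit 15) (.e (nat_lit 3631) (nat_lit 227) (.e (nat_lit 778317) (nat_lit 3) (.e (nat_lit 57480) (nat_lit 28) (.e (nat_lit 557109) (nat_lit 15) (.e (nat_lit 188434) (nat_lit 20) .nil)))))))) (.g (nat_lit 4) .nil .nil))) 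
(.lf (nat_lit 100037) (.g (nat_lit 4426) (.e (nat_lit 3238) (nat_lit 197) (.e (nat_lit 532563) (nat_lit 15) (.e (nat_lit 385094) (nat_lit 49) (.e (nat_lit 778317) (nat_lit 3) (.e (nat_lit 57477) (nat_lit 28) (.e (nat_lit 557108) (nat_lit 15) (.e (nat_lit 188437) (nat_lit 20) .nil))))))) (.g (nat_lit 6) .nil .nil)))) (.nd (nat_lit 6) 
(.lf (nat_lit 100005) (.g (nat_lit 4449) (.e (nat_lit 3238) (nat_lit 197) (.e (nat_lit 532550) (nat_lit 12) (.e (nat_lit 360475) (nat_lit 8) (.e (nat_lit 557067) (nat_lit 9) (.e (nat_lit 290) (nat_lit 21) .nil))))) .nil)) 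
(.lf (nat_lit 100069) (.g (nat_lit 3155) (.e (nat_lit 3239) (nat_lit 197) (.e (nat_lit 532522) (nat_lit 7) (.e (nat_lit 319531) (nat_lit 16) (.e (nat_lit 286733) (nat_lit 2) (.e (nat_lit 90169) (nat_lit 13) .nil))))) .nil)))) (.nd (nat_lit 5) (.nd (nat_lit 6) 
(.lf (nat_lit 99989) (.g (nat_lit 2870) (.e (nat_lit 3238) (nat_lit 197) (.e (nat_lit 532549) (nat_lit 12) (.e (nat_lit 360475) (nat_lit 8) (.e (nat_lit 557067) (nat_lit 9) .nil)))) .nil)) 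
(.lf (nat_lit 100053) (.g (nat_lit 3995) (.e (nat_lit 3238) (nat_lit 197) (.e (nat_lit 532566) (nat_lit 15) (.e (nat_lit 385094) (nat_lit 49) (.e (nat_lit 778317) (nat_lit 3) (.e (nat_lit 57480) (nat_lit 28) (.e (nat_lit 557109) (nat_lit 15) (.e (nat_lit 188437) (nat_lit 20) .nil))))))) (.g (nat_lit 6) .nil .nil)))) (.nd (nat_lit 6) 
(.lf (nat_lit 100021) (.g (nat_lit 3686) (.e (nat_lit 3238) (nat_lit 197) (.e (nat_lit 532563) (nat_lit 15) (.e (nat_lit 385066) (nat_lit 26) (.e (nat_lit 532531) (nat_lit 9) (.e (nat_lit 336324) (nat_lit 18) (.e (nat_lit 204854) (nat_lit 26) (.e (nat_lit 336306) (nat_lit 15) .nil))))))) (.g (nat_lit 6) .nil .nil))) 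
(.lf (nat_lit 100085) (.g (nat_lit 2478) (.e (nat_lit 3240) (nat_lit 197) (.e (nat_lit 532500) (nat_lit 1) (.e (nat_lit 57851) (nat_lit 252) (.e (nat_lit 57406) (nat_lit 12) (.e (nat_lit 336456) (nat_lit 34) .nil))))) .nil))))) (.nd (nat_lit 4) (.nd (nat_lit 5) (.nd (nat_lit 6) 
(.lf (nat_lit 99981) (.g (nat_lit 2690) (.e (nat_lit 3238) (nat_lit 197) (.e (nat_lit 532544) (nat_lit 10) (.e (nat_lit 344133) (nat_lit 26) (.e (nat_lit 557103) (nat_lit 14) (.e (nat_lit 188160) (nat_lit 3) (.e (nat_lit 516106) (nat_lit 0) (.e (nat_lit 7936) (nat_lit 219) (.e (nat_lit 712719) (nat_lit 15) .nil)))))))) (.g (nat_lit 4) .nil .nil))) 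
(.lf (nat_lit 100045) (.g (nat_lit 2911) (.e (nat_lit 3238) (nat_lit 197) (.e (nat_lit 532564) (nat_lit 15) (.e (nat_lit 385066) (nat_lit 26) (.e (nat_lit 532531) (nat_lit 9) (.e (nat_lit 336324) (nat_lit 18) (.e (nat_lit 204854) (nat_lit 26) (.e (nat_lit 336306) (nat_lit 15) .nil))))))) (.g (nat_lit 6) .nil .nil)))) (.nd (nat_lit 6) 
(.lf (nat_lit 100013) (.g (nat_lit 3106) (.e (nat_lit 3238) (nat_lit 197) (.e (nat_lit 532550) (nat_lit 12) (.e (nat_lit 360475) (nat_lit 8) (.e (nat_lit 557089) (nat_lit 12) (.e (nat_lit 163848) (nat_lit 0) .nil))))) .nil)) 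
(.lf (nat_lit 100077) (.g (nat_lit 2076) (.e (nat_lit 3240) (nat_lit 197) (.e (nat_lit 532499) (nat_lit 1) (.e (nat_lit 57927) (nat_lit 282) (.e (nat_lit 163868) (nat_lit 2) (.e (nat_lit 196670) (nat_lit 14) .nil))))) .nil)))) (.nd (nat_lit 5) (.nd (nat_lit 6) 
(.lf (nat_lit 99997) (.g (nat_lit 1272) (.e (nat_lit 3238) (nat_lit 197) (.e (nat_lit 532550) (nat_lit 12) (.e (nat_lit 360474) (nat_lit 8) (.e (nat_lit 557085) (nat_lit 11) .nil)))) .nil)) 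
(.lf (nat_lit 100061) (.g (nat_lit 3549) (.e (nat_lit 3239) (nat_lit 197) (.e (nat_lit 532499) (nat_lit 1) (.e (nat_lit 57847) (nat_lit 252) (.e (nat_lit 57446) (nat_lit 19) .nil)))) .nil))) (.nd (nat_lit 6) 
(.lf (nat_lit 100029) (.g (nat_lit 2863) (.e (nat_lit 3238) (nat_lit 197) (.e (nat_lit 532563) (nat_lit 15) (.e (nat_lit 385094) (nat_lit 49) (.e (nat_lit 778317) (nat_lit 3) (.e (nat_lit 57476) (nat_lit 28) (.e (nat_lit 557108) (nat_lit 15) (.e (nat_lit 188424) (nat_lit 20) .nil))))))) (.g (nat_lit 4) .nil .nil))) 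
(.lf (nat_lit 100093) (.g (nat_lit 2812) (.e (nat_lit 3240) (nat_lit 197) (.e (nat_lit 532563) (nat_lit 15) (.e (nat_lit 385094) (nat_lit 49) (.e (nat_lit 778317) (nat_lit 3) (.e (nat_lit 57476) (nat_lit 28) (.e (nat_lit 557108) (nat_lit 15) (.e (nat_lit 188433) (nat_lit 20) .nil))))))) (.g (nat_lit 4) .nil .nil)))))))) 
(.nd (nat_lit 2) (.nd (nat_lit 3) (.nd (nat_lit 4) (.nd (nat_lit 5) (.nd (nat_lit 6) 
(.lf (nat_lit 99971) (.g (nat_lit 3020) (.e (nat_lit 3238) (nat_lit 197) (.e (nat_lit 532535) (nat_lit 9) (.e (nat_lit 336295) (nat_lit 15) (.e (nat_lit 3631) (nat_lit 227) (.e (nat_lit 778317) (nat_lit 3) (.e (nat_lit 57476) (nat_lit 28) (.e (nat_lit 557108) (nat_lit 15) (.e (nat_lit 188437) (nat_lit 20) .nil)))))))) (.g (nat_lit 4) .nil .nil))) 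
(.lf (nat_lit 100035) (.g (nat_lit 3177) (.e (nat_lit 3238) (nat_lit 197) (.e (nat_lit 532563) (nat_lit 15) (.e (nat_lit 385094) (nat_lit 49) (.e (nat_lit 778317) (nat_lit 3) (.e (nat_lit 57477) (nat_lit 28) (.e (nat_lit 557108) (nat_lit 15) (.e (nat_lit 188434) (nat_lit 20) .nil))))))) (.g (nat_lit 4) .nil .nil)))) (.nd (nat_lit 6) 
(.lf (nat_lit 100003) (.g (nat_lit 3666) (.e (nat_lit 3238) (nat_lit 197) (.e (nat_lit 532550) (nat_lit 12) (.e (nat_lit 360475) (nat_lit 8) (.e (nat_lit 557065) (nat_lit 9) (.e (nat_lit 290) (nat_lit 21) .nil))))) .nil)) 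
(.lf (nat_lit 100067) (.g (nat_lit 2594) (.e (nat_lit 3239) (nat_lit 197) (.e (nat_lit 532504) (nat_lit 1) (.e (nat_lit 57851) (nat_lit 252) (.e (nat_lit 57445) (nat_lit 19) (.e (nat_lit 393229) (nat_lit 9) .nil))))) .nil)))) (.nd (nat_lit 5) (.nd (nat_lit 6) 
(.lf (nat_lit 99987) (.g (nat_lit 1149) (.e (nat_lit 3238) (nat_lit 197) (.e (nat_lit 532549) (nat_lit 12) (.e (nat_lit 360473) (nat_lit 8) (.e (nat_lit 557086) (nat_lit 11) .nil)))) .nil)) 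
(.lf (nat_lit 100051) (.g (nat_lit 1649) (.e (nat_lit 3238) (nat_lit 197) (.e (nat_lit 532566) (nat_lit 15) (.e (nat_lit 385094) (nat_lit 49) (.e (nat_lit 778317) (nat_lit 3) (.e (nat_lit 57476) (nat_lit 28) (.e (nat_lit 557107) (nat_lit 15) (.e (nat_lit 188424) (nat_lit 20) .nil))))))) (.g (nat_lit 4) .nil .nil)))) (.nd (nat_lit 6) 
(.lf (nat_lit 100019) (.g (nat_lit 3619) (.e (nat_lit 3238) (nat_lit 197) (.e (nat_lit 532550) (nat_lit 12) (.e (nat_lit 360475) (nat_lit 8) (.e (nat_lit 557093) (nat_lit 12) .nil)))) .nil)) 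
(.lf (nat_lit 100083) (.g (nat_lit 1938) (.e (nat_lit 3240) (nat_lit 197) (.e (nat_lit 532499) (nat_lit 1) (.e (nat_lit 57927) (nat_lit 282) (.e (nat_lit 163875) (nat_lit 3) (.e (nat_lit 204872) (nat_lit 30) .nil))))) .nil))))) (.nd (nat_lit 4) (.nd (nat_lit 5) (.nd (nat_lit 6) 
(.lf (nat_lit 99979) (.g (nat_lit 4639) (.e (nat_lit 3238) (nat_lit 197) (.e (nat_lit 532535) (nat_lit 9) (.e (nat_lit 336295) (nat_lit 15) (.e (nat_lit 3632) (nat_lit 227) (.e (nat_lit 778317) (nat_lit 3) (.e (nat_lit 57480) (nat_lit 28) (.e (nat_lit 557109) (nat_lit 15) (.e (nat_lit 188437) (nat_lit 20) .nil)))))))) (.g (nat_lit 6) .nil .nil))) 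
(.lf (nat_lit 100043) (.g (nat_lit 5742) (.e (nat_lit 3238) (nat_lit 197) (.e (nat_lit 532563) (nat_lit 15) (.e (nat_lit 385094) (nat_lit 49) (.e (nat_lit 778317) (nat_lit 3) (.e (nat_lit 57480) (nat_lit 28) (.e (nat_lit 557109) (nat_lit 15) (.e (nat_lit 188437) (nat_lit 20) .nil))))))) (.g (nat_lit 6) .nil .nil)))) (.nd (nat_lit 6) 
(.lf (nat_lit 100011) (.g (nat_lit 3194) (.e (nat_lit 3238) (nat_lit 197) (.e (nat_lit 532550) (nat_lit 12) (.e (nat_lit 360475) (nat_lit 8) (.e (nat_lit 557089) (nat_lit 12) (.e (nat_lit 163843) (nat_lit 0) .nil))))) .nil)) 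
(.lf (nat_lit 100075) (.g (nat_lit 3495) (.e (nat_lit 3240) (nat_lit 197) (.e (nat_lit 532499) (nat_lit 1) (.e (nat_lit 57847) (nat_lit 252) (.e (nat_lit 57446) (nat_lit 19) .nil)))) .nil)))) (.nd (nat_lit 5) (.nd (nat_lit 6) 
(.lf (nat_lit 99995) (.g (nat_lit 2062) (.e (nat_lit 3238) (nat_lit 197) (.e (nat_lit 532550) (nat_lit 12) (.e (nat_lit 360466) (nat_lit 3) (.e (nat_lit 516139) (nat_lit 7) (.e (nat_lit 409648) (nat_lit 18) .nil))))) .nil)) 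
(.lf (nat_lit 100059) (.g (nat_lit 424) (.e (nat_lit 3238) (nat_lit 197) (.e (nat_lit 532579) (nat_lit 26) (.e (nat_lit 426124) (nat_lit 2) .nil))) .nil))) (.nd (nat_lit 6) 
(.lf (nat_lit 100027) (.g (nat_lit 3366) (.e (nat_lit 3238) (nat_lit 197) (.e (nat_lit 532563) (nat_lit 15) (.e (nat_lit 385094) (nat_lit 49) (.e (nat_lit 778317) (nat_lit 3) (.e (nat_lit 57476) (nat_lit 28) (.e (nat_lit 557107) (nat_lit 15) (.e (nat_lit 188424) (nat_lit 20) .nil))))))) (.g (nat_lit 4) .nil .nil))) 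
(.lf (nat_lit 100091) (.g (nat_lit 4712) (.e (nat_lit 3240) (nat_lit 197) (.e (nat_lit 532550) (nat_lit 12) (.e (nat_lit 360474) (nat_lit 8) (.e (nat_lit 557094) (nat_lit 12) (.e (nat_lit 164022) (nat_lit 46) .nil))))) .nil)))))) (.nd (nat_lit 3) (.nd (nat_lit 4) (.nd (nat_lit 5) (.nd (nat_lit 6) 
(.lf (nat_lit 99975) (.g (nat_lit 3765) (.e (nat_lit 3238) (nat_lit 197) (.e (nat_lit 532535) (nat_lit 9) (.e (nat_lit 336295) (nat_lit 15) (.e (nat_lit 3632) (nat_lit 227) (.e (nat_lit 778317) (nat_lit 3) (.e (nat_lit 57476) (nat_lit 28) (.e (nat_lit 557108) (nat_lit 15) (.e (nat_lit 188437) (nat_lit 20) .nil)))))))) (.g (nat_lit 5) .nil .nil))) 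
(.lf (nat_lit 100039) (.g (nat_lit 3436) (.e (nat_lit 3238) (nat_lit 197) (.e (nat_lit 532563) (nat_lit 15) (.e (nat_lit 385094) (nat_lit 49) (.e (nat_lit 778317) (nat_lit 3) (.e (nat_lit 57480) (nat_lit 28) (.e (nat_lit 557107) (nat_lit 15) (.e (nat_lit 188437) (nat_lit 20) .nil))))))) (.g (nat_lit 5) .nil .nil)))) (.nd (nat_lit 6) 
(.lf (nat_lit 100007) (.g (nat_lit 4480) (.e (nat_lit 3238) (nat_lit 197) (.e (nat_lit 532550) (nat_lit 12) (.e (nat_lit 360475) (nat_lit 8) (.e (nat_lit 557067) (nat_lit 9) (.e (nat_lit 290) (nat_lit 21) (.e (nat_lit 336232) (nat_lit 14) (.e (nat_lit 401414) (nat_lit 0) .nil))))))) (.g (nat_lit 4) .nil .nil))) 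
(.lf (nat_lit 100071) (.g (nat_lit 3038) (.e (nat_lit 3239) (nat_lit 197) (.e (nat_lit 532523) (nat_lit 7) (.e (nat_lit 319531) (nat_lit 16) (.e (nat_lit 286733) (nat_lit 2) (.e (nat_lit 90169) (nat_lit 13) .nil))))) .nil)))) (.nd (nat_lit 5) (.nd (nat_lit 6) 
(.lf (nat_lit 99991) (.g (nat_lit 3289) (.e (nat_lit 3238) (nat_lit 197) (.e (nat_lit 532549) (nat_lit 12) (.e (nat_lit 360475) (nat_lit 8) (.e (nat_lit 557068) (nat_lit 9) (.e (nat_lit 290) (nat_lit 21) (.e (nat_lit 336230) (nat_lit 14) (.e (nat_lit 401414) (nat_lit 0) .nil))))))) (.g (nat_lit 4) .nil .nil))) 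
(.lf (nat_lit 100055) (.g (nat_lit 1185) (.e (nat_lit 3238) (nat_lit 197) (.e (nat_lit 532579) (nat_lit 26) (.e (nat_lit 426108) (nat_lit 1) (.e (nat_lit 164403) (nat_lit 256) .nil)))) .nil))) (.nd (nat_lit 6) 
(.lf (nat_lit 100023) (.g (nat_lit 3555) (.e (nat_lit 3238) (nat_lit 197) (.e (nat_lit 532563) (nat_lit 15) (.e (nat_lit 385066) (nat_lit 26) (.e (nat_lit 532563) (nat_lit 15) (.e (nat_lit 385066) (nat_lit 26) (.e (nat_lit 532532) (nat_lit 9) (.e (nat_lit 336306) (nat_lit 15) .nil))))))) (.g (nat_lit 7) .nil .nil))) 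
(.lf (nat_lit 100087) (.g (nat_lit 2918) (.e (nat_lit 3240) (nat_lit 197) (.e (nat_lit 532522) (nat_lit 7) (.e (nat_lit 319530) (nat_lit 16) (.e (nat_lit 286733) (nat_lit 2) (.e (nat_lit 90178) (nat_lit 15) (.e (nat_lit 188432) (nat_lit 20) .nil)))))) (.g (nat_lit 4) .nil .nil)))))) (.nd (nat_lit 4) (.nd (nat_lit 5) (.nd (nat_lit 6) 
(.lf (nat_lit 99983) (.g (nat_lit 5686) (.e (nat_lit 3238) (nat_lit 197) (.e (nat_lit 532544) (nat_lit 10) (.e (nat_lit 344169) (nat_lit 40) (.e (nat_lit 671759) (nat_lit 3) (.e (nat_lit 57479) (nat_lit 28) (.e (nat_lit 557107) (nat_lit 15) (.e (nat_lit 188437) (nat_lit 20) .nil))))))) (.g (nat_lit 6) .nil .nil))) 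
(.lf (nat_lit 100047) (.g (nat_lit 2079) (.e (nat_lit 3238) (nat_lit 197) (.e (nat_lit 532565) (nat_lit 15) (.e (nat_lit 385094) (nat_lit 49) (.e (nat_lit 778317) (nat_lit 3) (.e (nat_lit 57476) (nat_lit 28) (.e (nat_lit 557107) (nat_lit 15) (.e (nat_lit 188424) (nat_lit 20) .nil))))))) (.g (nat_lit 4) .nil .nil)))) (.nd (nat_lit 6) 
(.lf (nat_lit 100015) (.g (nat_lit 3270) (.e (nat_lit 3238) (nat_lit 197) (.e (nat_lit 532550) (nat_lit 12) (.e (nat_lit 360475) (nat_lit 8) (.e (nat_lit 557089) (nat_lit 12) (.e (nat_lit 163850) (nat_lit 0) .nil))))) .nil)) 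
(.lf (nat_lit 100079) (.g (nat_lit 1986) (.e (nat_lit 3240) (nat_lit 197) (.e (nat_lit 532499) (nat_lit 1) (.e (nat_lit 57927) (nat_lit 282) (.e (nat_lit 163871) (nat_lit 2) (.e (nat_lit 196670) (nat_lit 14) .nil))))) .nil)))) (.nd (nat_lit 5) (.nd (nat_lit 6) 
(.lf (nat_lit 99999) (.g (nat_lit 3295) (.e (nat_lit 3238) (nat_lit 197) (.e (nat_lit 532550) (nat_lit 12) (.e (nat_lit 360474) (nat_lit 8) (.e (nat_lit 557091) (nat_lit 12) .nil)))) .nil)) 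
(.lf (nat_lit 100063) (.g (nat_lit 1796) (.e (nat_lit 3239) (nat_lit 197) (.e (nat_lit 532500) (nat_lit 1) (.e (nat_lit 57851) (nat_lit 252) (.e (nat_lit 57406) (nat_lit 12) .nil)))) .nil))) (.nd (nat_lit 6) 
(.lf (nat_lit 100031) (.g (nat_lit 3190) (.e (nat_lit 3238) (nat_lit 197) (.e (nat_lit 532563) (nat_lit 15) (.e (nat_lit 385094) (nat_lit 49) (.e (nat_lit 778317) (nat_lit 3) (.e (nat_lit 57476) (nat_lit 28) (.e (nat_lit 557108) (nat_lit 15) (.e (nat_lit 188435) (nat_lit 20) .nil))))))) (.g (nat_lit 4) .nil .nil))) 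
(.lf (nat_lit 100095) (.g (nat_lit 3608) (.e (nat_lit 3241) (nat_lit 197) (.e (nat_lit 532499) (nat_lit 1) (.e (nat_lit 57847) (nat_lit 252) (.e (nat_lit 57408) (nat_lit 12) .nil)))) .nil)))))))))

noncomputable def tv1368 : DT := (.nd (nat_lit 0) (.nd (nat_lit 1) (.nd (nat_lit 2) (.nd (nat_lit 3) (.nd (nat_lit 4) (.nd (nat_lit 5) (.nd (nat_lit 6) 
(.lf (nat_lit 100096) (.g (nat_lit 2430) (.e (nat_lit 3241) (nat_lit 197) (.e (nat_lit 532499) (nat_lit 1) (.e (nat_lit 57847) (nat_lit 252) (.e (nat_lit 57445) (nat_lit 19) .nil)))) .nil)) 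
(.lf (nat_lit 100160) (.g (nat_lit 2695) (.e (nat_lit 3244) (nat_lit 197) (.e (nat_lit 532503) (nat_lit 1) (.e (nat_lit 57931) (nat_lit 282) (.e (nat_lit 163869) (nat_lit 2) (.e (nat_lit 196668) (nat_lit 14) .nil))))) .nil))) (.nd (nat_lit 6) 
(.lf (nat_lit 100128) (.g (nat_lit 2084) (.e (nat_lit 3242) (nat_lit 197) (.e (nat_lit 532499) (nat_lit 1) (.e (nat_lit 57927) (nat_lit 282) (.e (nat_lit 163868) (nat_lit 2) (.e (nat_lit 196670) (nat_lit 14) .nil))))) .nil)) 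
(.lf (nat_lit 100192) (.g (nat_lit 3155) (.e (nat_lit 3247) (nat_lit 197) (.e (nat_lit 532522) (nat_lit 7) (.e (nat_lit 319531) (nat_lit 16) (.e (nat_lit 286733) (nat_lit 2) (.e (nat_lit 90169) (nat_lit 13) .nil))))) .nil)))) (.nd (nat_lit 5) (.nd (nat_lit 6) 
(.lf (nat_lit 100112) (.g (nat_lit 3701) (.e (nat_lit 3241) (nat_lit 197) (.e (nat_lit 532522) (nat_lit 7) (.e (nat_lit 319530) (nat_lit 16) (.e (nat_lit 286733) (nat_lit 2) (.e (nat_lit 90178) (nat_lit 15) (.e (nat_lit 188432) (nat_lit 20) .nil)))))) (.g (nat_lit 6) .nil .nil))) 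
(.lf (nat_lit 100176) (.g (nat_lit 2007) (.e (nat_lit 3245) (nat_lit 197) (.e (nat_lit 532504) (nat_lit 1) (.e (nat_lit 57851) (nat_lit 252) (.e (nat_lit 57445) (nat_lit 19) .nil)))) .nil))) (.nd (nat_lit 6) 
(.lf (nat_lit 100144) (.g (nat_lit 3405) (.e (nat_lit 3243) (nat_lit 197) (.e (nat_lit 532499) (nat_lit 1) (.e (nat_lit 57847) (nat_lit 252) (.e (nat_lit 57408) (nat_lit 12) .nil)))) .nil)) 
(.lf (nat_lit 100208) (.g (nat_lit 2151) (.e (nat_lit 3248) (nat_lit 197) (.e (nat_lit 532503) (nat_lit 1) (.e (nat_lit 57930) (nat_lit 282) (.e (nat_lit 163869) (nat_lit 2) (.e (nat_lit 196668) (nat_lit 14) .nil))))) .nil))))) (.nd (nat_lit 4) (.nd (nat_lit 5) (.nd (nat_lit 6) 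
(.lf (nat_lit 100104) (.g (nat_lit 2261) (.e (nat_lit 3241) (nat_lit 197) (.e (nat_lit 532500) (nat_lit 1) (.e (nat_lit 57851) (nat_lit 252) (.e (nat_lit 57445) (nat_lit 19) (.e (nat_lit 393229) (nat_lit 9) (.e (nat_lit 336088) (nat_lit 9) (.e (nat_lit 336258) (nat_lit 15) .nil))))))) (.g (nat_lit 4) .nil .nil))) 
(.lf (nat_lit 100168) (.g (nat_lit 2679) (.e (nat_lit 3244) (nat_lit 197) (.e (nat_lit 532522) (nat_lit 7) (.e (nat_lit 319530) (nat_lit 16) (.e (nat_lit 286733) (nat_lit 2) (.e (nat_lit 90169) (nat_lit 13) .nil))))) .nil))) (.nd (nat_lit 6) 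
(.lf (nat_lit 100136) (.g (nat_lit 4469) (.e (nat_lit 3242) (nat_lit 197) (.e (nat_lit 532550) (nat_lit 12) (.e (nat_lit 360474) (nat_lit 8) (.e (nat_lit 557093) (nat_lit 12) (.e (nat_lit 164023) (nat_lit 46) .nil))))) .nil)) 
(.lf (nat_lit 100200) (.g (nat_lit 1743) (.e (nat_lit 3248) (nat_lit 197) (.e (nat_lit 532501) (nat_lit 1) (.e (nat_lit 57851) (nat_lit 252) (.e (nat_lit 57445) (nat_lit 19) (.e (nat_lit 393229) (nat_lit 9) .nil))))) .nil)))) (.nd (nat_lit 5) (.nd (nat_lit 6) 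
(.lf (nat_lit 100120) (.g (nat_lit 3888) (.e (nat_lit 3241) (nat_lit 197) (.e (nat_lit 532550) (nat_lit 12) (.e (nat_lit 360474) (nat_lit 8) (.e (nat_lit 557093) (nat_lit 12) (.e (nat_lit 164023) (nat_lit 46) .nil))))) .nil)) 
(.lf (nat_lit 100184) (.g (nat_lit 2679) (.e (nat_lit 3246) (nat_lit 197) (.e (nat_lit 532522) (nat_lit 7) (.e (nat_lit 319530) (nat_lit 16) (.e (nat_lit 286733) (nat_lit 2) (.e (nat_lit 90169) (nat_lit 13) .nil))))) .nil))) (.nd (nat_lit 6) 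
(.lf (nat_lit 100152) (.g (nat_lit 2784) (.e (nat_lit 3243) (nat_lit 197) (.e (nat_lit 532523) (nat_lit 7) (.e (nat_lit 319534) (nat_lit 16) (.e (nat_lit 286733) (nat_lit 2) (.e (nat_lit 90169) (nat_lit 13) .nil))))) .nil)) 
(.lf (nat_lit 100216) (.g (nat_lit 1396) (.e (nat_lit 3248) (nat_lit 197) (.e (nat_lit 532504) (nat_lit 1) (.e (nat_lit 57851) (nat_lit 252) (.e (nat_lit 57445) (nat_lit 19) .nil)))) .nil)))))) (.nd (nat_lit 3) (.nd (nat_lit 4) (.nd (nat_lit 5) (.nd (nat_lit 6) 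
(.lf (nat_lit 100100) (.g (nat_lit 2602) (.e (nat_lit 3241) (nat_lit 197) (.e (nat_lit 532499) (nat_lit 1) (.e (nat_lit 57927) (nat_lit 282) (.e (nat_lit 163873) (nat_lit 3) (.e (nat_lit 204853) (nat_lit 26) .nil))))) .nil)) 
(.lf (nat_lit 100164) (.g (nat_lit 2055) (.e (nat_lit 3244) (nat_lit 197) (.e (nat_lit 532504) (nat_lit 1) (.e (nat_lit 57851) (nat_lit 252) (.e (nat_lit 57445) (nat_lit 19) .nil)))) .nil))) (.nd (nat_lit 6) 
(.lf (nat_lit 100132) (.g (nat_lit 1796) (.e (nat_lit 3242) (nat_lit 197) (.e (nat_lit 532500) (nat_lit 1) (.e (nat_lit 57851) (nat_lit 252) (.e (nat_lit 57406) (nat_lit 12) .nil)))) .nil)) 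
(.lf (nat_lit 100196) (.g (nat_lit 2182) (.e (nat_lit 3248) (nat_lit 197) (.e (nat_lit 532499) (nat_lit 1) (.e (nat_lit 57927) (nat_lit 282) (.e (nat_lit 163869) (nat_lit 2) (.e (nat_lit 196668) (nat_lit 14) .nil))))) .nil)))) (.nd (nat_lit 5) (.nd (nat_lit 6) 
(.lf (nat_lit 100116) (.g (nat_lit 1733) (.e (nat_lit 3241) (nat_lit 197) (.e (nat_lit 532523) (nat_lit 7) (.e (nat_lit 319533) (nat_lit 16) (.e (nat_lit 286734) (nat_lit 3) .nil)))) .nil)) 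
(.lf (nat_lit 100180) (.g (nat_lit 1304) (.e (nat_lit 3246) (nat_lit 197) (.e (nat_lit 532504) (nat_lit 1) (.e (nat_lit 57851) (nat_lit 252) .nil))) .nil))) (.nd (nat_lit 6) 
(.lf (nat_lit 100148) (.g (nat_lit 1684) (.e (nat_lit 3243) (nat_lit 197) (.e (nat_lit 532500) (nat_lit 1) (.e (nat_lit 57851) (nat_lit 252) (.e (nat_lit 57446) (nat_lit 19) .nil)))) .nil)) 
(.lf (nat_lit 100212) (.g (nat_lit 2743) (.e (nat_lit 3248) (nat_lit 197) (.e (nat_lit 532503) (nat_lit 1) (.e (nat_lit 57931) (nat_lit 282) (.e (nat_lit 163869) (nat_lit 2) (.e (nat_lit 196664) (nat_lit 13) .nil))))) .nil))))) (.nd (nat_lit 4) (.nd (nat_lit 5) (.nd (nat_lit 6) 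
(.lf (nat_lit 100108) (.g (nat_lit 2196) (.e (nat_lit 3241) (nat_lit 197) (.e (nat_lit 532500) (nat_lit 1) (.e (nat_lit 57926) (nat_lit 282) (.e (nat_lit 163869) (nat_lit 2) (.e (nat_lit 196668) (nat_lit 14) .nil))))) .nil)) 
(.lf (nat_lit 100172) (.g (nat_lit 2923) (.e (nat_lit 3245) (nat_lit 197) (.e (nat_lit 532503) (nat_lit 1) (.e (nat_lit 57931) (nat_lit 282) (.e (nat_lit 163874) (nat_lit 3) (.e (nat_lit 204862) (nat_lit 27) .nil))))) .nil))) (.nd (nat_lit 6) 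
(.lf (nat_lit 100140) (.g (nat_lit 2796) (.e (nat_lit 3242) (nat_lit 197) (.e (nat_lit 532563) (nat_lit 15) (.e (nat_lit 385094) (nat_lit 49) (.e (nat_lit 778317) (nat_lit 3) (.e (nat_lit 57477) (nat_lit 28) (.e (nat_lit 557108) (nat_lit 15) (.e (nat_lit 188433) (nat_lit 20) .nil))))))) (.g (nat_lit 4) .nil .nil))) 
(.lf (nat_lit 100204) (.g (nat_lit 1966) (.e (nat_lit 3248) (nat_lit 197) (.e (nat_lit 532503) (nat_lit 1) (.e (nat_lit 57924) (nat_lit 282) (.e (nat_lit 163867) (nat_lit 2) (.e (nat_lit 196668) (nat_lit 14) .nil))))) .nil)))) (.nd (nat_lit 5) (.nd (nat_lit 6) 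
(.lf (nat_lit 100124) (.g (nat_lit 2988) (.e (nat_lit 3241) (nat_lit 197) (.e (nat_lit 532563) (nat_lit 15) (.e (nat_lit 385094) (nat_lit 49) (.e (nat_lit 778317) (nat_lit 3) (.e (nat_lit 57476) (nat_lit 28) (.e (nat_lit 557108) (nat_lit 15) (.e (nat_lit 188433) (nat_lit 20) .nil))))))) (.g (nat_lit 4) .nil .nil))) 
(.lf (nat_lit 100188) (.g (nat_lit 2437) (.e (nat_lit 3247) (nat_lit 197) (.e (nat_lit 532503) (nat_lit 1) (.e (nat_lit 57931) (nat_lit 282) (.e (nat_lit 163867) (nat_lit 2) (.e (nat_lit 196670) (nat_lit 14) .nil))))) .nil))) (.nd (nat_lit 6) 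
(.lf (nat_lit 100156) (.g (nat_lit 2583) (.e (nat_lit 3243) (nat_lit 197) (.e (nat_lit 532563) (nat_lit 15) (.e (nat_lit 385066) (nat_lit 26) (.e (nat_lit 532534) (nat_lit 9) (.e (nat_lit 336326) (nat_lit 18) .nil))))) .nil)) 
(.lf (nat_lit 100220) (.g (nat_lit 1406) (.e (nat_lit 3248) (nat_lit 197) (.e (nat_lit 532504) (nat_lit 1) (.e (nat_lit 57851) (nat_lit 252) (.e (nat_lit 57446) (nat_lit 19) .nil)))) .nil))))))) (.nd (nat_lit 2) (.nd (nat_lit 3) (.nd (nat_lit 4) (.nd (nat_lit 5) (.nd (nat_lit 6) 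
(.lf (nat_lit 100098) (.g (nat_lit 2098) (.e (nat_lit 3241) (nat_lit 197) (.e (nat_lit 532499) (nat_lit 1) (.e (nat_lit 57927) (nat_lit 282) (.e (nat_lit 163868) (nat_lit 2) (.e (nat_lit 196663) (nat_lit 13) .nil))))) .nil)) 
(.lf (nat_lit 100162) (.g (nat_lit 2462) (.e (nat_lit 3244) (nat_lit 197) (.e (nat_lit 532503) (nat_lit 1) (.e (nat_lit 57931) (nat_lit 282) (.e (nat_lit 163874) (nat_lit 3) (.e (nat_lit 204873) (nat_lit 30) .nil))))) .nil))) (.nd (nat_lit 6) 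
(.lf (nat_lit 100130) (.g (nat_lit 2602) (.e (nat_lit 3242) (nat_lit 197) (.e (nat_lit 532499) (nat_lit 1) (.e (nat_lit 57927) (nat_lit 282) (.e (nat_lit 163873) (nat_lit 3) (.e (nat_lit 204853) (nat_lit 26) .nil))))) .nil)) 
(.lf (nat_lit 100194) (.g (nat_lit 3655) (.e (nat_lit 3248) (nat_lit 197) (.e (nat_lit 532499) (nat_lit 1) (.e (nat_lit 57847) (nat_lit 252) (.e (nat_lit 57446) (nat_lit 19) .nil)))) .nil)))) (.nd (nat_lit 5) (.nd (nat_lit 6) 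
(.lf (nat_lit 100114) (.g (nat_lit 579) (.e (nat_lit 3241) (nat_lit 197) (.e (nat_lit 532523) (nat_lit 7) (.e (nat_lit 319531) (nat_lit 16) .nil))) .nil)) 
(.lf (nat_lit 100178) (.g (nat_lit 2421) (.e (nat_lit 3246) (nat_lit 197) (.e (nat_lit 532503) (nat_lit 1) (.e (nat_lit 57931) (nat_lit 282) (.e (nat_lit 163867) (nat_lit 2) (.e (nat_lit 196670) (nat_lit 14) .nil))))) .nil))) (.nd (nat_lit 6) 
(.lf (nat_lit 100146) (.g (nat_lit 1753) (.e (nat_lit 3243) (nat_lit 197) (.e (nat_lit 532500) (nat_lit 1) (.e (nat_lit 57851) (nat_lit 252) (.e (nat_lit 57406) (nat_lit 12) .nil)))) .nil)) 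
(.lf (nat_lit 100210) (.g (nat_lit 2164) (.e (nat_lit 3248) (nat_lit 197) (.e (nat_lit 532503) (nat_lit 1) (.e (nat_lit 57931) (nat_lit 282) (.e (nat_lit 163867) (nat_lit 2) (.e (nat_lit 196663) (nat_lit 13) .nil))))) .nil))))) (.nd (nat_lit 4) (.nd (nat_lit 5) (.nd (nat_lit 6) 
(.lf (nat_lit 100106) (.g (nat_lit 1753) (.e (nat_lit 3241) (nat_lit 197) (.e (nat_lit 532500) (nat_lit 1) (.e (nat_lit 57851) (nat_lit 252) (.e (nat_lit 57446) (nat_lit 19) (.e (nat_lit 393229) (nat_lit 9) (.e (nat_lit 336088) (nat_lit 9) (.e (nat_lit 336258) (nat_lit 15) .nil))))))) (.g (nat_lit 4) .nil .nil))) 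
(.lf (nat_lit 100170) (.g (nat_lit 2274) (.e (nat_lit 3245) (nat_lit 197) (.e (nat_lit 532503) (nat_lit 1) (.e (nat_lit 57931) (nat_lit 282) (.e (nat_lit 163866) (nat_lit 2) (.e (nat_lit 196668) (nat_lit 14) .nil))))) .nil))) (.nd (nat_lit 6) 
(.lf (nat_lit 100138) (.g (nat_lit 2563) (.e (nat_lit 3242) (nat_lit 197) (.e (nat_lit 532563) (nat_lit 15) (.e (nat_lit 385066) (nat_lit 26) (.e (nat_lit 532534) (nat_lit 9) (.e (nat_lit 336326) (nat_lit 18) .nil))))) .nil)) 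
(.lf (nat_lit 100202) (.g (nat_lit 2436) (.e (nat_lit 3248) (nat_lit 197) (.e (nat_lit 532501) (nat_lit 1) (.e (nat_lit 57927) (nat_lit 282) (.e (nat_lit 163868) (nat_lit 2) (.e (nat_lit 196670) (nat_lit 14) .nil))))) .nil)))) (.nd (nat_lit 5) (.nd (nat_lit 6) 
(.lf (nat_lit 100122) (.g (nat_lit 4260) (.e (nat_lit 3241) (nat_lit 197) (.e (nat_lit 532550) (nat_lit 12) (.e (nat_lit 360475) (nat_lit 8) (.e (nat_lit 557091) (nat_lit 12) (.e (nat_lit 164022) (nat_lit 46) .nil))))) .nil)) 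
(.lf (nat_lit 100186) (.g (nat_lit 2274) (.e (nat_lit 3247) (nat_lit 197) (.e (nat_lit 532503) (nat_lit 1) (.e (nat_lit 57931) (nat_lit 282) (.e (nat_lit 163866) (nat_lit 2) (.e (nat_lit 196668) (nat_lit 14) .nil))))) .nil))) (.nd (nat_lit 6) 
(.lf (nat_lit 100154) (.g (nat_lit 3878) (.e (nat_lit 3243) (nat_lit 197) (.e (nat_lit 532550) (nat_lit 12) (.e (nat_lit 360474) (nat_lit 8) (.e (nat_lit 557094) (nat_lit 12) (.e (nat_lit 164022) (nat_lit 46) .nil))))) .nil)) 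
(.lf (nat_lit 100218) (.g (nat_lit 1962) (.e (nat_lit 3248) (nat_lit 197) (.e (nat_lit 532504) (nat_lit 1) (.e (nat_lit 57851) (nat_lit 252) (.e (nat_lit 57445) (nat_lit 19) (.e (nat_lit 393229) (nat_lit 9) (.e (nat_lit 336088) (nat_lit 9) (.e (nat_lit 336238) (nat_lit 15) .nil))))))) (.g (nat_lit 4) .nil .nil))))))) (.nd (nat_lit 3) (.nd (nat_lit 4) (.nd (nat_lit 5) (.nd (nat_lit 6) 
(.lf (nat_lit 100102) (.g (nat_lit 1946) (.e (nat_lit 3241) (nat_lit 197) (.e (nat_lit 532499) (nat_lit 1) (.e (nat_lit 57927) (nat_lit 282) (.e (nat_lit 163875) (nat_lit 3) (.e (nat_lit 204872) (nat_lit 30) .nil))))) .nil)) 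
(.lf (nat_lit 100166) (.g (nat_lit 3448) (.e (nat_lit 3244) (nat_lit 197) (.e (nat_lit 532504) (nat_lit 1) (.e (nat_lit 57931) (nat_lit 282) (.e (nat_lit 163869) (nat_lit 2) (.e (nat_lit 196668) (nat_lit 14) .nil))))) .nil))) (.nd (nat_lit 6) 
(.lf (nat_lit 100134) (.g (nat_lit 1843) (.e (nat_lit 3242) (nat_lit 197) (.e (nat_lit 532523) (nat_lit 7) (.e (nat_lit 319530) (nat_lit 16) (.e (nat_lit 286733) (nat_lit 2) .nil)))) .nil)) 
(.lf (nat_lit 100198) (.g (nat_lit 770) (.e (nat_lit 3248) (nat_lit 197) (.e (nat_lit 532501) (nat_lit 1) (.e (nat_lit 57851) (nat_lit 252) .nil))) .nil)))) (.nd (nat_lit 5) (.nd (nat_lit 6) 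
(.lf (nat_lit 100118) (.g (nat_lit 3076) (.e (nat_lit 3241) (nat_lit 197) (.e (nat_lit 532535) (nat_lit 9) (.e (nat_lit 336099) (nat_lit 9) (.e (nat_lit 336028) (nat_lit 3) (.e (nat_lit 98349) (nat_lit 24) .nil))))) .nil)) 
(.lf (nat_lit 100182) (.g (nat_lit 2141) (.e (nat_lit 3246) (nat_lit 197) (.e (nat_lit 532504) (nat_lit 1) (.e (nat_lit 57851) (nat_lit 252) (.e (nat_lit 57445) (nat_lit 19) .nil)))) .nil))) (.nd (nat_lit 6) 
(.lf (nat_lit 100150) (.g (nat_lit 3253) (.e (nat_lit 3243) (nat_lit 197) (.e (nat_lit 532523) (nat_lit 7) (.e (nat_lit 319530) (nat_lit 16) (.e (nat_lit 286733) (nat_lit 2) (.e (nat_lit 90169) (nat_lit 13) (.e (nat_lit 172103) (nat_lit 9) (.e (nat_lit 426009) (nat_lit 0) .nil))))))) (.g (nat_lit 5) .nil .nil))) 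
(.lf (nat_lit 100214) (.g (nat_lit 932) (.e (nat_lit 3248) (nat_lit 197) (.e (nat_lit 532504) (nat_lit 1) (.e (nat_lit 57692) (nat_lit 156) .nil))) .nil))))) (.nd (nat_lit 4) (.nd (nat_lit 5) (.nd (nat_lit 6) 
(.lf (nat_lit 100110) (.g (nat_lit 2267) (.e (nat_lit 3241) (nat_lit 197) (.e (nat_lit 532500) (nat_lit 1) (.e (nat_lit 57927) (nat_lit 282) (.e (nat_lit 163869) (nat_lit 2) (.e (nat_lit 196668) (nat_lit 14) .nil))))) .nil)) 
(.lf (nat_lit 100174) (.g (nat_lit 2200) (.e (nat_lit 3245) (nat_lit 197) (.e (nat_lit 532504) (nat_lit 1) (.e (nat_lit 57851) (nat_lit 252) (.e (nat_lit 57354) (nat_lit 0) .nil)))) .nil))) (.nd (nat_lit 6) 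
(.lf (nat_lit 100142) (.g (nat_lit 3876) (.e (nat_lit 3242) (nat_lit 197) (.e (nat_lit 532563) (nat_lit 15) (.e (nat_lit 385094) (nat_lit 49) (.e (nat_lit 778317) (nat_lit 3) (.e (nat_lit 57480) (nat_lit 28) (.e (nat_lit 557109) (nat_lit 15) (.e (nat_lit 188433) (nat_lit 20) .nil))))))) (.g (nat_lit 5) .nil .nil))) 
(.lf (nat_lit 100206) (.g (nat_lit 2294) (.e (nat_lit 3248) (nat_lit 197) (.e (nat_lit 532503) (nat_lit 1) (.e (nat_lit 57930) (nat_lit 282) (.e (nat_lit 163867) (nat_lit 2) (.e (nat_lit 196668) (nat_lit 14) .nil))))) .nil)))) (.nd (nat_lit 5) (.nd (nat_lit 6) 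
(.lf (nat_lit 100126) (.g (nat_lit 3562) (.e (nat_lit 3242) (nat_lit 197) (.e (nat_lit 532499) (nat_lit 1) (.e (nat_lit 57847) (nat_lit 252) (.e (nat_lit 57408) (nat_lit 12) .nil)))) .nil)) 
(.lf (nat_lit 100190) (.g (nat_lit 2046) (.e (nat_lit 3247) (nat_lit 197) (.e (nat_lit 532504) (nat_lit 1) (.e (nat_lit 57851) (nat_lit 252) (.e (nat_lit 57445) (nat_lit 19) .nil)))) .nil))) (.nd (nat_lit 6) 
(.lf (nat_lit 100158) (.g (nat_lit 2326) (.e (nat_lit 3244) (nat_lit 197) (.e (nat_lit 532503) (nat_lit 1) (.e (nat_lit 57931) (nat_lit 282) (.e (nat_lit 163867) (nat_lit 2) (.e (nat_lit 196663) (nat_lit 13) .nil))))) .nil)) 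
(.lf (nat_lit 100222) (.g (nat_lit 2596) (.e (nat_lit 3248) (nat_lit 197) (.e (nat_lit 532504) (nat_lit 1) (.e (nat_lit 57929) (nat_lit 282) (.e (nat_lit 163869) (nat_lit 2) (.e (nat_lit 196668) (nat_lit 14) .nil))))) .nil)))))))) (.nd (nat_lit 1) (.nd (nat_lit 2) (.nd (nat_lit 3) (.nd (nat_lit 4) (.nd (nat_lit 5) (.nd (nat_lit 6) 
(.lf (nat_lit 100097) (.g (nat_lit 3581) (.e (nat_lit 3241) (nat_lit 197) (.e (nat_lit 532499) (nat_lit 1) (.e (nat_lit 57847) (nat_lit 252) (.e (nat_lit 57446) (nat_lit 19) .nil)))) .nil)) 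
(.lf (nat_lit 100161) (.g (nat_lit 2526) (.e (nat_lit 3244) (nat_lit 197) (.e (nat_lit 532503) (nat_lit 1) (.e (nat_lit 57931) (nat_lit 282) (.e (nat_lit 163874) (nat_lit 3) (.e (nat_lit 204872) (nat_lit 30) .nil))))) .nil))) (.nd (nat_lit 6) 
(.lf (nat_lit 100129) (.g (nat_lit 1994) (.e (nat_lit 3242) (nat_lit 197) (.e (nat_lit 532499) (nat_lit 1) (.e (nat_lit 57927) (nat_lit 282) (.e (nat_lit 163871) (nat_lit 2) (.e (nat_lit 196670) (nat_lit 14) .nil))))) .nil)) 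
(.lf (nat_lit 100193) (.g (nat_lit 3824) (.e (nat_lit 3248) (nat_lit 197) (.e (nat_lit 532499) (nat_lit 1) (.e (nat_lit 57847) (nat_lit 252) (.e (nat_lit 57408) (nat_lit 12) .nil)))) .nil)))) (.nd (nat_lit 5) (.nd (nat_lit 6) 
(.lf (nat_lit 100113) (.g (nat_lit 3139) (.e (nat_lit 3241) (nat_lit 197) (.e (nat_lit 532522) (nat_lit 7) (.e (nat_lit 319531) (nat_lit 16) (.e (nat_lit 286733) (nat_lit 2) (.e (nat_lit 90169) (nat_lit 13) .nil))))) .nil)) 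
(.lf (nat_lit 100177) (.g (nat_lit 2384) (.e (nat_lit 3246) (nat_lit 197) (.e (nat_lit 532503) (nat_lit 1) (.e (nat_lit 57931) (nat_lit 282) (.e (nat_lit 163867) (nat_lit 2) (.e (nat_lit 196668) (nat_lit 14) .nil))))) .nil))) (.nd (nat_lit 6) 
(.lf (nat_lit 100145) (.g (nat_lit 3626) (.e (nat_lit 3243) (nat_lit 197) (.e (nat_lit 532499) (nat_lit 1) (.e (nat_lit 57847) (nat_lit 252) (.e (nat_lit 57446) (nat_lit 19) .nil)))) .nil)) 
(.lf (nat_lit 100209) (.g (nat_lit 2139) (.e (nat_lit 3248) (nat_lit 197) (.e (nat_lit 532503) (nat_lit 1) (.e (nat_lit 57931) (nat_lit 282) (.e (nat_lit 163866) (nat_lit 2) (.e (nat_lit 196668) (nat_lit 14) .nil))))) .nil))))) (.nd (nat_lit 4) (.nd (nat_lit 5) (.nd (nat_lit 6) 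
(.lf (nat_lit 100105) (.g (nat_lit 1605) (.e (nat_lit 3241) (nat_lit 197) (.e (nat_lit 532500) (nat_lit 1) (.e (nat_lit 57851) (nat_lit 252) (.e (nat_lit 57446) (nat_lit 19) .nil)))) .nil)) 
(.lf (nat_lit 100169) (.g (nat_lit 2714) (.e (nat_lit 3244) (nat_lit 197) (.e (nat_lit 532522) (nat_lit 7) (.e (nat_lit 319530) (nat_lit 16) (.e (nat_lit 286733) (nat_lit 2) (.e (nat_lit 90178) (nat_lit 15) (.e (nat_lit 188432) (nat_lit 20) .nil)))))) (.g (nat_lit 4) .nil .nil)))) (.nd (nat_lit 6) 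
(.lf (nat_lit 100137) (.g (nat_lit 2552) (.e (nat_lit 3242) (nat_lit 197) (.e (nat_lit 532563) (nat_lit 15) (.e (nat_lit 385066) (nat_lit 26) (.e (nat_lit 532530) (nat_lit 9) (.e (nat_lit 336326) (nat_lit 18) .nil))))) .nil)) 
(.lf (nat_lit 100201) (.g (nat_lit 1947) (.e (nat_lit 3248) (nat_lit 197) (.e (nat_lit 532501) (nat_lit 1) (.e (nat_lit 57851) (nat_lit 252) (.e (nat_lit 57445) (nat_lit 19) (.e (nat_lit 393229) (nat_lit 9) (.e (nat_lit 336088) (nat_lit 9) (.e (nat_lit 336240) (nat_lit 15) .nil))))))) (.g (nat_lit 4) .nil .nil))))) (.nd (nat_lit 5) (.nd (nat_lit 6) 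
(.lf (nat_lit 100121) (.g (nat_lit 3434) (.e (nat_lit 3241) (nat_lit 197) (.e (nat_lit 532550) (nat_lit 12) (.e (nat_lit 360474) (nat_lit 8) (.e (nat_lit 557094) (nat_lit 12) (.e (nat_lit 164022) (nat_lit 46) .nil))))) .nil)) 
(.lf (nat_lit 100185) (.g (nat_lit 2695) (.e (nat_lit 3246) (nat_lit 197) (.e (nat_lit 532522) (nat_lit 7) (.e (nat_lit 319530) (nat_lit 16) (.e (nat_lit 286733) (nat_lit 2) (.e (nat_lit 90178) (nat_lit 15) (.e (nat_lit 188432) (nat_lit 20) .nil)))))) (.g (nat_lit 4) .nil .nil)))) (.nd (nat_lit 6) 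
(.lf (nat_lit 100153) (.g (nat_lit 4047) (.e (nat_lit 3243) (nat_lit 197) (.e (nat_lit 532550) (nat_lit 12) (.e (nat_lit 360474) (nat_lit 8) (.e (nat_lit 557093) (nat_lit 12) (.e (nat_lit 164022) (nat_lit 46) .nil))))) .nil)) 
(.lf (nat_lit 100217) (.g (nat_lit 1658) (.e (nat_lit 3248) (nat_lit 197) (.e (nat_lit 532504) (nat_lit 1) (.e (nat_lit 57851) (nat_lit 252) (.e (nat_lit 57445) (nat_lit 19) (.e (nat_lit 393227) (nat_lit 9) (.e (nat_lit 336152) (nat_lit 9) (.e (nat_lit 336237) (nat_lit 15) .nil))))))) (.g (nat_lit 4) .nil .nil))))))) (.nd (nat_lit 3) (.nd (nat_lit 4) (.nd (nat_lit 5) (.nd (nat_lit 6) 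
(.lf (nat_lit 100101) (.g (nat_lit 2195) (.e (nat_lit 3241) (nat_lit 197) (.e (nat_lit 532499) (nat_lit 1) (.e (nat_lit 57927) (nat_lit 282) (.e (nat_lit 163874) (nat_lit 3) (.e (nat_lit 204872) (nat_lit 30) .nil))))) .nil)) 
(.lf (nat_lit 100165) (.g (nat_lit 2148) (.e (nat_lit 3244) (nat_lit 197) (.e (nat_lit 532504) (nat_lit 1) (.e (nat_lit 57851) (nat_lit 252) (.e (nat_lit 57446) (nat_lit 19) .nil)))) .nil))) (.nd (nat_lit 6) 
(.lf (nat_lit 100133) (.g (nat_lit 2854) (.e (nat_lit 3242) (nat_lit 197) (.e (nat_lit 532522) (nat_lit 7) (.e (nat_lit 319530) (nat_lit 16) (.e (nat_lit 286733) (nat_lit 2) (.e (nat_lit 90178) (nat_lit 15) (.e (nat_lit 188432) (nat_lit 20) .nil)))))) (.g (nat_lit 4) .nil .nil))) 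
(.lf (nat_lit 100197) (.g (nat_lit 1796) (.e (nat_lit 3248) (nat_lit 197) (.e (nat_lit 532500) (nat_lit 1) (.e (nat_lit 57851) (nat_lit 252) (.e (nat_lit 57406) (nat_lit 12) .nil)))) .nil)))) (.nd (nat_lit 5) (.nd (nat_lit 6) 
(.lf (nat_lit 100117) (.g (nat_lit 2782) (.e (nat_lit 3241) (nat_lit 197) (.e (nat_lit 532523) (nat_lit 7) (.e (nat_lit 319534) (nat_lit 16) (.e (nat_lit 286733) (nat_lit 2) (.e (nat_lit 90169) (nat_lit 13) .nil))))) .nil)) 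
(.lf (nat_lit 100181) (.g (nat_lit 2435) (.e (nat_lit 3246) (nat_lit 197) (.e (nat_lit 532504) (nat_lit 1) (.e (nat_lit 57851) (nat_lit 252) (.e (nat_lit 57406) (nat_lit 12) (.e (nat_lit 336456) (nat_lit 34) .nil))))) .nil))) (.nd (nat_lit 6) 
(.lf (nat_lit 100149) (.g (nat_lit 3156) (.e (nat_lit 3243) (nat_lit 197) (.e (nat_lit 532522) (nat_lit 7) (.e (nat_lit 319531) (nat_lit 16) (.e (nat_lit 286733) (nat_lit 2) (.e (nat_lit 90169) (nat_lit 13) .nil))))) .nil)) 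
(.lf (nat_lit 100213) (.g (nat_lit 2495) (.e (nat_lit 3248) (nat_lit 197) (.e (nat_lit 532503) (nat_lit 1) (.e (nat_lit 57931) (nat_lit 282) (.e (nat_lit 163869) (nat_lit 2) (.e (nat_lit 196668) (nat_lit 14) .nil))))) .nil))))) (.nd (nat_lit 4) (.nd (nat_lit 5) (.nd (nat_lit 6) 
(.lf (nat_lit 100109) (.g (nat_lit 2087) (.e (nat_lit 3241) (nat_lit 197) (.e (nat_lit 532500) (nat_lit 1) (.e (nat_lit 57927) (nat_lit 282) (.e (nat_lit 163868) (nat_lit 2) (.e (nat_lit 196670) (nat_lit 14) .nil))))) .nil)) 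
(.lf (nat_lit 100173) (.g (nat_lit 2593) (.e (nat_lit 3245) (nat_lit 197) (.e (nat_lit 532503) (nat_lit 1) (.e (nat_lit 57931) (nat_lit 282) (.e (nat_lit 163874) (nat_lit 3) (.e (nat_lit 204863) (nat_lit 27) .nil))))) .nil))) (.nd (nat_lit 6) 
(.lf (nat_lit 100141) (.g (nat_lit 2867) (.e (nat_lit 3242) (nat_lit 197) (.e (nat_lit 532563) (nat_lit 15) (.e (nat_lit 385094) (nat_lit 49) (.e (nat_lit 778317) (nat_lit 3) (.e (nat_lit 57480) (nat_lit 28) (.e (nat_lit 557109) (nat_lit 15) (.e (nat_lit 188424) (nat_lit 20) .nil))))))) (.g (nat_lit 4) .nil .nil))) 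
(.lf (nat_lit 100205) (.g (nat_lit 2036) (.e (nat_lit 3248) (nat_lit 197) (.e (nat_lit 532503) (nat_lit 1) (.e (nat_lit 57929) (nat_lit 282) (.e (nat_lit 163869) (nat_lit 2) (.e (nat_lit 196668) (nat_lit 14) .nil))))) .nil)))) (.nd (nat_lit 5) (.nd (nat_lit 6) 
(.lf (nat_lit 100125) (.g (nat_lit 2744) (.e (nat_lit 3241) (nat_lit 197) (.e (nat_lit 532563) (nat_lit 15) (.e (nat_lit 385094) (nat_lit 49) (.e (nat_lit 778317) (nat_lit 3) (.e (nat_lit 57477) (nat_lit 28) (.e (nat_lit 557108) (nat_lit 15) (.e (nat_lit 188433) (nat_lit 20) .nil))))))) (.g (nat_lit 4) .nil .nil))) 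
(.lf (nat_lit 100189) (.g (nat_lit 2779) (.e (nat_lit 3247) (nat_lit 197) (.e (nat_lit 532503) (nat_lit 1) (.e (nat_lit 57931) (nat_lit 282) (.e (nat_lit 163869) (nat_lit 2) (.e (nat_lit 196668) (nat_lit 14) .nil))))) .nil))) (.nd (nat_lit 6) 
(.lf (nat_lit 100157) (.g (nat_lit 2269) (.e (nat_lit 3244) (nat_lit 197) (.e (nat_lit 532503) (nat_lit 1) (.e (nat_lit 57931) (nat_lit 282) (.e (nat_lit 163866) (nat_lit 2) (.e (nat_lit 196668) (nat_lit 14) .nil))))) .nil)) 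
(.lf (nat_lit 100221) (.g (nat_lit 1531) (.e (nat_lit 3248) (nat_lit 197) (.e (nat_lit 532504) (nat_lit 1) (.e (nat_lit 57852) (nat_lit 252) (.e (nat_lit 57445) (nat_lit 19) .nil)))) .nil))))))) (.nd (nat_lit 2) (.nd (nat_lit 3) (.nd (nat_lit 4) (.nd (nat_lit 5) (.nd (nat_lit 6) 
(.lf (nat_lit 100099) (.g (nat_lit 2084) (.e (nat_lit 3241) (nat_lit 197) (.e (nat_lit 532499) (nat_lit 1) (.e (nat_lit 57927) (nat_lit 282) (.e (nat_lit 163868) (nat_lit 2) (.e (nat_lit 196670) (nat_lit 14) .nil))))) .nil)) 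
(.lf (nat_lit 100163) (.g (nat_lit 1899) (.e (nat_lit 3244) (nat_lit 197) (.e (nat_lit 532504) (nat_lit 1) (.e (nat_lit 57851) (nat_lit 252) (.e (nat_lit 57406) (nat_lit 12) .nil)))) .nil))) (.nd (nat_lit 6) 
(.lf (nat_lit 100131) (.g (nat_lit 2195) (.e (nat_lit 3242) (nat_lit 197) (.e (nat_lit 532499) (nat_lit 1) (.e (nat_lit 57927) (nat_lit 282) (.e (nat_lit 163874) (nat_lit 3) (.e (nat_lit 204872) (nat_lit 30) .nil))))) .nil)) 
(.lf (nat_lit 100195) (.g (nat_lit 2093) (.e (nat_lit 3248) (nat_lit 197) (.e (nat_lit 532499) (nat_lit 1) (.e (nat_lit 57927) (nat_lit 282) (.e (nat_lit 163868) (nat_lit 2) (.e (nat_lit 196670) (nat_lit 14) .nil))))) .nil)))) (.nd (nat_lit 5) (.nd (nat_lit 6) 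
(.lf (nat_lit 100115) (.g (nat_lit 2972) (.e (nat_lit 3241) (nat_lit 197) (.e (nat_lit 532523) (nat_lit 7) (.e (nat_lit 319533) (nat_lit 16) (.e (nat_lit 286733) (nat_lit 2) (.e (nat_lit 90169) (nat_lit 13) .nil))))) .nil)) 
(.lf (nat_lit 100179) (.g (nat_lit 2473) (.e (nat_lit 3246) (nat_lit 197) (.e (nat_lit 532503) (nat_lit 1) (.e (nat_lit 57931) (nat_lit 282) (.e (nat_lit 163869) (nat_lit 2) (.e (nat_lit 196670) (nat_lit 14) .nil))))) .nil))) (.nd (nat_lit 6) 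
(.lf (nat_lit 100147) (.g (nat_lit 1684) (.e (nat_lit 3243) (nat_lit 197) (.e (nat_lit 532500) (nat_lit 1) (.e (nat_lit 57851) (nat_lit 252) (.e (nat_lit 57445) (nat_lit 19) .nil)))) .nil)) 
(.lf (nat_lit 100211) (.g (nat_lit 2845) (.e (nat_lit 3248) (nat_lit 197) (.e (nat_lit 532503) (nat_lit 1) (.e (nat_lit 57931) (nat_lit 282) (.e (nat_lit 163869) (nat_lit 2) (.e (nat_lit 196663) (nat_lit 13) .nil))))) .nil))))) (.nd (nat_lit 4) (.nd (nat_lit 5) (.nd (nat_lit 6) 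
(.lf (nat_lit 100107) (.g (nat_lit 2525) (.e (nat_lit 3241) (nat_lit 197) (.e (nat_lit 532500) (nat_lit 1) (.e (nat_lit 57926) (nat_lit 282) (.e (nat_lit 163868) (nat_lit 2) (.e (nat_lit 196670) (nat_lit 14) .nil))))) .nil)) 
(.lf (nat_lit 100171) (.g (nat_lit 2779) (.e (nat_lit 3245) (nat_lit 197) (.e (nat_lit 532503) (nat_lit 1) (.e (nat_lit 57931) (nat_lit 282) (.e (nat_lit 163869) (nat_lit 2) (.e (nat_lit 196668) (nat_lit 14) .nil))))) .nil))) (.nd (nat_lit 6) 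
(.lf (nat_lit 100139) (.g (nat_lit 3040) (.e (nat_lit 3242) (nat_lit 197) (.e (nat_lit 532563) (nat_lit 15) (.e (nat_lit 385094) (nat_lit 49) (.e (nat_lit 778317) (nat_lit 3) (.e (nat_lit 57476) (nat_lit 28) (.e (nat_lit 557108) (nat_lit 15) (.e (nat_lit 188433) (nat_lit 20) .nil))))))) (.g (nat_lit 4) .nil .nil))) 
(.lf (nat_lit 100203) (.g (nat_lit 1417) (.e (nat_lit 3248) (nat_lit 197) (.e (nat_lit 532503) (nat_lit 1) (.e (nat_lit 57688) (nat_lit 156) (.e (nat_lit 163903) (nat_lit 12) .nil)))) .nil)))) (.nd (nat_lit 5) (.nd (nat_lit 6) 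
(.lf (nat_lit 100123) (.g (nat_lit 1490) (.e (nat_lit 3241) (nat_lit 197) (.e (nat_lit 532563) (nat_lit 15) (.e (nat_lit 385066) (nat_lit 26) (.e (nat_lit 532534) (nat_lit 9) .nil)))) .nil)) 
(.lf (nat_lit 100187) (.g (nat_lit 2400) (.e (nat_lit 3247) (nat_lit 197) (.e (nat_lit 532503) (nat_lit 1) (.e (nat_lit 57931) (nat_lit 282) (.e (nat_lit 163867) (nat_lit 2) (.e (nat_lit 196668) (nat_lit 14) .nil))))) .nil))) (.nd (nat_lit 6) 
(.lf (nat_lit 100155) (.g (nat_lit 6885) (.e (nat_lit 3243) (nat_lit 197) (.e (nat_lit 532550) (nat_lit 12) (.e (nat_lit 360475) (nat_lit 8) (.e (nat_lit 557090) (nat_lit 12) .nil)))) .nil)) 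
(.lf (nat_lit 100219) (.g (nat_lit 1968) (.e (nat_lit 3248) (nat_lit 197) (.e (nat_lit 532504) (nat_lit 1) (.e (nat_lit 57851) (nat_lit 252) (.e (nat_lit 57445) (nat_lit 19) (.e (nat_lit 393229) (nat_lit 9) (.e (nat_lit 336088) (nat_lit 9) (.e (nat_lit 336257) (nat_lit 15) .nil))))))) (.g (nat_lit 4) .nil .nil))))))) (.nd (nat_lit 3) (.nd (nat_lit 4) (.nd (nat_lit 5) (.nd (nat_lit 6) 
(.lf (nat_lit 100103) (.g (nat_lit 557) (.e (nat_lit 3241) (nat_lit 197) (.e (nat_lit 532500) (nat_lit 1) (.e (nat_lit 57851) (nat_lit 252) .nil))) .nil)) 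
(.lf (nat_lit 100167) (.g (nat_lit 3296) (.e (nat_lit 3244) (nat_lit 197) (.e (nat_lit 532504) (nat_lit 1) (.e (nat_lit 57931) (nat_lit 282) (.e (nat_lit 163869) (nat_lit 2) (.e (nat_lit 196670) (nat_lit 14) .nil))))) .nil))) (.nd (nat_lit 6) 
(.lf (nat_lit 100135) (.g (nat_lit 3137) (.e (nat_lit 3242) (nat_lit 197) (.e (nat_lit 532535) (nat_lit 9) (.e (nat_lit 336099) (nat_lit 9) (.e (nat_lit 336028) (nat_lit 3) (.e (nat_lit 98349) (nat_lit 24) .nil))))) .nil)) 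
(.lf (nat_lit 100199) (.g (nat_lit 1274) (.e (nat_lit 3248) (nat_lit 197) (.e (nat_lit 532501) (nat_lit 1) (.e (nat_lit 57851) (nat_lit 252) (.e (nat_lit 57445) (nat_lit 19) .nil)))) .nil)))) (.nd (nat_lit 5) (.nd (nat_lit 6) 
(.lf (nat_lit 100119) (.g (nat_lit 2068) (.e (nat_lit 3241) (nat_lit 197) (.e (nat_lit 532535) (nat_lit 9) (.e (nat_lit 336295) (nat_lit 15) (.e (nat_lit 3632) (nat_lit 227) .nil)))) .nil)) 
(.lf (nat_lit 100183) (.g (nat_lit 3296) (.e (nat_lit 3246) (nat_lit 197) (.e (nat_lit 532504) (nat_lit 1) (.e (nat_lit 57931) (nat_lit 282) (.e (nat_lit 163869) (nat_lit 2) (.e (nat_lit 196670) (nat_lit 14) .nil))))) .nil))) (.nd (nat_lit 6) 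
(.lf (nat_lit 100151) (.g (nat_lit 2974) (.e (nat_lit 3243) (nat_lit 197) (.e (nat_lit 532523) (nat_lit 7) (.e (nat_lit 319533) (nat_lit 16) (.e (nat_lit 286733) (nat_lit 2) (.e (nat_lit 90169) (nat_lit 13) .nil))))) .nil)) 
(.lf (nat_lit 100215) (.g (nat_lit 1210) (.e (nat_lit 3248) (nat_lit 197) (.e (nat_lit 532504) (nat_lit 1) (.e (nat_lit 57730) (nat_lit 181) .nil))) .nil))))) (.nd (nat_lit 4) (.nd (nat_lit 5) (.nd (nat_lit 6) 
(.lf (nat_lit 100111) (.g (nat_lit 778) (.e (nat_lit 3241) (nat_lit 197) (.e (nat_lit 532522) (nat_lit 7) (.e (nat_lit 319530) (nat_lit 16) .nil))) .nil)) 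
(.lf (nat_lit 100175) (.g (nat_lit 2306) (.e (nat_lit 3245) (nat_lit 197) (.e (nat_lit 532504) (nat_lit 1) (.e (nat_lit 57851) (nat_lit 252) (.e (nat_lit 57406) (nat_lit 12) (.e (nat_lit 336456) (nat_lit 34) .nil))))) .nil))) (.nd (nat_lit 6) 
(.lf (nat_lit 100143) (.g (nat_lit 2095) (.e (nat_lit 3242) (nat_lit 197) (.e (nat_lit 532565) (nat_lit 15) (.e (nat_lit 385094) (nat_lit 49) (.e (nat_lit 778317) (nat_lit 3) (.e (nat_lit 57477) (nat_lit 28) (.e (nat_lit 557108) (nat_lit 15) (.e (nat_lit 188433) (nat_lit 20) .nil))))))) (.g (nat_lit 4) .nil .nil))) 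
(.lf (nat_lit 100207) (.g (nat_lit 2285) (.e (nat_lit 3248) (nat_lit 197) (.e (nat_lit 532503) (nat_lit 1) (.e (nat_lit 57930) (nat_lit 282) (.e (nat_lit 163867) (nat_lit 2) (.e (nat_lit 196670) (nat_lit 14) .nil))))) .nil)))) (.nd (nat_lit 5) (.nd (nat_lit 6) 
(.lf (nat_lit 100127) (.g (nat_lit 3558) (.e (nat_lit 3242) (nat_lit 197) (.e (nat_lit 532499) (nat_lit 1) (.e (nat_lit 57847) (nat_lit 252) (.e (nat_lit 57446) (nat_lit 19) .nil)))) .nil)) 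
(.lf (nat_lit 100191) (.g (nat_lit 2150) (.e (nat_lit 3247) (nat_lit 197) (.e (nat_lit 532504) (nat_lit 1) (.e (nat_lit 57851) (nat_lit 252) (.e (nat_lit 57446) (nat_lit 19) .nil)))) .nil))) (.nd (nat_lit 6) 
(.lf (nat_lit 100159) (.g (nat_lit 2232) (.e (nat_lit 3244) (nat_lit 197) (.e (nat_lit 532503) (nat_lit 1) (.e (nat_lit 57931) (nat_lit 282) (.e (nat_lit 163869) (nat_lit 2) (.e (nat_lit 196666) (nat_lit 13) .nil))))) .nil)) 
(.lf (nat_lit 100223) (.g (nat_lit 2899) (.e (nat_lit 3248) (nat_lit 197) (.e (nat_lit 532504) (nat_lit 1) (.e (nat_lit 57931) (nat_lit 282) (.e (nat_lit 163867) (nat_lit 2) (.e (nat_lit 196668) (nat_lit 14) .nil))))) .nil)))))))))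

noncomputable def tv1369 : DT := (.nd (nat_lit 0) (.nd (nat_lit 1) (.nd (nat_lit 2) (.nd (nat_lit 3) (.nd (nat_lit 4) (.nd (nat_lit 5) (.nd (nat_lit 6) 
(.lf (nat_lit 100224) (.g (nat_lit 2935) (.e (nat_lit 3248) (nat_lit 197) (.e (nat_lit 532504) (nat_lit 1) (.e (nat_lit 57931) (nat_lit 282) (.e (nat_lit 163867) (nat_lit 2) (.e (nat_lit 196670) (nat_lit 14) .nil))))) .nil)) 
(.lf (nat_lit 100288) (.g (nat_lit 2214) (.e (nat_lit 3249) (nat_lit 197) (.e (nat_lit 532500) (nat_lit 1) (.e (nat_lit 57851) (nat_lit 252) (.e (nat_lit 57445) (nat_lit 19) (.e (nat_lit 401152) (nat_lit 14) (.e (nat_lit 376832) (nat_lit 0) .nil)))))) (.g (nat_lit 4) .nil .nil)))) (.nd (nat_lit 6) 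
(.lf (nat_lit 100256) (.g (nat_lit 2642) (.e (nat_lit 3249) (nat_lit 197) (.e (nat_lit 532499) (nat_lit 1) (.e (nat_lit 57847) (nat_lit 252) (.e (nat_lit 57345) (nat_lit 0) .nil)))) .nil)) 
(.lf (nat_lit 100320) (.g (nat_lit 1186) (.e (nat_lit 3249) (nat_lit 197) (.e (nat_lit 532511) (nat_lit 2) (.e (nat_lit 106536) (nat_lit 11) (.e (nat_lit 16417) (nat_lit 3) (.e (nat_lit 204866) (nat_lit 28) (.e (nat_lit 352261) (nat_lit 0) .nil)))))) (.g (nat_lit 4) .nil .nil))))) (.nd (nat_lit 5) (.nd (nat_lit 6) 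
(.lf (nat_lit 100240) (.g (nat_lit 2574) (.e (nat_lit 3248) (nat_lit 197) (.e (nat_lit 532563) (nat_lit 15) (.e (nat_lit 385094) (nat_lit 49) (.e (nat_lit 778317) (nat_lit 3) (.e (nat_lit 57476) (nat_lit 28) (.e (nat_lit 557108) (nat_lit 15) (.e (nat_lit 188433) (nat_lit 20) .nil))))))) (.g (nat_lit 4) .nil .nil))) 
(.lf (nat_lit 100304) (.g (nat_lit 1238) (.e (nat_lit 3249) (nat_lit 197) (.e (nat_lit 532503) (nat_lit 1) (.e (nat_lit 57848) (nat_lit 252) (.e (nat_lit 57446) (nat_lit 19) .nil)))) .nil))) (.nd (nat_lit 6) 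
(.lf (nat_lit 100272) (.g (nat_lit 2745) (.e (nat_lit 3249) (nat_lit 197) (.e (nat_lit 532499) (nat_lit 1) (.e (nat_lit 57847) (nat_lit 252) (.e (nat_lit 57447) (nat_lit 19) (.e (nat_lit 393229) (nat_lit 9) .nil))))) .nil)) 
(.lf (nat_lit 100336) (.g (nat_lit 2319) (.e (nat_lit 3249) (nat_lit 197) (.e (nat_lit 532543) (nat_lit 10) (.e (nat_lit 344129) (nat_lit 26) (.e (nat_lit 557104) (nat_lit 14) (.e (nat_lit 188160) (nat_lit 3) .nil))))) .nil))))) (.nd (nat_lit 4) (.nd (nat_lit 5) (.nd (nat_lit 6) 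
(.lf (nat_lit 100232) (.g (nat_lit 2679) (.e (nat_lit 3248) (nat_lit 197) (.e (nat_lit 532522) (nat_lit 7) (.e (nat_lit 319530) (nat_lit 16) (.e (nat_lit 286733) (nat_lit 2) (.e (nat_lit 90169) (nat_lit 13) .nil))))) .nil)) 
(.lf (nat_lit 100296) (.g (nat_lit 2555) (.e (nat_lit 3249) (nat_lit 197) (.e (nat_lit 532500) (nat_lit 1) (.e (nat_lit 57854) (nat_lit 252) (.e (nat_lit 57409) (nat_lit 12) (.e (nat_lit 336454) (nat_lit 34) (.e (nat_lit 483385) (nat_lit 23) (.e (nat_lit 336284) (nat_lit 15) .nil))))))) (.g (nat_lit 5) .nil .nil)))) (.nd (nat_lit 6) 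
(.lf (nat_lit 100264) (.g (nat_lit 2814) (.e (nat_lit 3249) (nat_lit 197) (.e (nat_lit 532499) (nat_lit 1) (.e (nat_lit 57847) (nat_lit 252) (.e (nat_lit 57408) (nat_lit 12) .nil)))) .nil)) 
(.lf (nat_lit 100328) (.g (nat_lit 2743) (.e (nat_lit 3249) (nat_lit 197) (.e (nat_lit 532523) (nat_lit 7) (.e (nat_lit 319530) (nat_lit 16) (.e (nat_lit 286727) (nat_lit 0) (.e (nat_lit 1799) (nat_lit 119) .nil))))) .nil)))) (.nd (nat_lit 5) (.nd (nat_lit 6) 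
(.lf (nat_lit 100248) (.g (nat_lit 1882) (.e (nat_lit 3249) (nat_lit 197) (.e (nat_lit 532481) (nat_lit 0) (.e (nat_lit 2044) (nat_lit 142) (.e (nat_lit 704734) (nat_lit 11) (.e (nat_lit 16416) (nat_lit 3) (.e (nat_lit 204877) (nat_lit 31) (.e (nat_lit 376833) (nat_lit 0) .nil))))))) (.g (nat_lit 5) .nil .nil))) 
(.lf (nat_lit 100312) (.g (nat_lit 2065) (.e (nat_lit 3249) (nat_lit 197) (.e (nat_lit 532504) (nat_lit 1) (.e (nat_lit 57852) (nat_lit 252) (.e (nat_lit 57361) (nat_lit 0) .nil)))) .nil))) (.nd (nat_lit 6) 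
(.lf (nat_lit 100280) (.g (nat_lit 2848) (.e (nat_lit 3249) (nat_lit 197) (.e (nat_lit 532499) (nat_lit 1) (.e (nat_lit 57931) (nat_lit 282) (.e (nat_lit 163869) (nat_lit 2) (.e (nat_lit 196670) (nat_lit 14) .nil))))) .nil)) 
(.lf (nat_lit 100344) (.g (nat_lit 1908) (.e (nat_lit 3249) (nat_lit 197) (.e (nat_lit 532544) (nat_lit 10) (.e (nat_lit 344132) (nat_lit 26) (.e (nat_lit 557101) (nat_lit 13) (.e (nat_lit 172064) (nat_lit 2) (.e (nat_lit 204544) (nat_lit 2) (.e (nat_lit 24666) (nat_lit 15) .nil))))))) (.g (nat_lit 4) .nil .nil))))))) (.nd (nat_lit 3) (.nd (nat_lit 4) (.nd (nat_lit 5) (.nd (nat_lit 6) 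
(.lf (nat_lit 100228) (.g (nat_lit 2871) (.e (nat_lit 3248) (nat_lit 197) (.e (nat_lit 532515) (nat_lit 3) (.e (nat_lit 114719) (nat_lit 23) (.e (nat_lit 98365) (nat_lit 26) (.e (nat_lit 426137) (nat_lit 3) .nil))))) .nil)) 
(.lf (nat_lit 100292) (.g (nat_lit 1964) (.e (nat_lit 3249) (nat_lit 197) (.e (nat_lit 532500) (nat_lit 1) (.e (nat_lit 57852) (nat_lit 252) (.e (nat_lit 57445) (nat_lit 19) .nil)))) .nil))) (.nd (nat_lit 6) 
(.lf (nat_lit 100260) (.g (nat_lit 2762) (.e (nat_lit 3249) (nat_lit 197) (.e (nat_lit 532499) (nat_lit 1) (.e (nat_lit 57847) (nat_lit 252) (.e (nat_lit 57379) (nat_lit 3) (.e (nat_lit 98342) (nat_lit 20) .nil))))) .nil)) 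
(.lf (nat_lit 100324) (.g (nat_lit 1452) (.e (nat_lit 3249) (nat_lit 197) (.e (nat_lit 532522) (nat_lit 7) (.e (nat_lit 319531) (nat_lit 16) (.e (nat_lit 286735) (nat_lit 3) .nil)))) .nil)))) (.nd (nat_lit 5) (.nd (nat_lit 6) 
(.lf (nat_lit 100244) (.g (nat_lit 1443) (.e (nat_lit 3248) (nat_lit 197) (.e (nat_lit 532566) (nat_lit 15) (.e (nat_lit 385094) (nat_lit 49) (.e (nat_lit 778317) (nat_lit 3) (.e (nat_lit 57477) (nat_lit 28) (.e (nat_lit 557107) (nat_lit 15) (.e (nat_lit 188424) (nat_lit 20) .nil))))))) (.g (nat_lit 4) .nil .nil))) 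
(.lf (nat_lit 100308) (.g (nat_lit 2156) (.e (nat_lit 3249) (nat_lit 197) (.e (nat_lit 532504) (nat_lit 1) (.e (nat_lit 57851) (nat_lit 252) (.e (nat_lit 57406) (nat_lit 12) (.e (nat_lit 336367) (nat_lit 27) (.e (nat_lit 426539) (nat_lit 29) (.e (nat_lit 352261) (nat_lit 0) .nil))))))) (.g (nat_lit 6) .nil .nil)))) (.nd (nat_lit 6) 
(.lf (nat_lit 100276) (.g (nat_lit 3466) (.e (nat_lit 3249) (nat_lit 197) (.e (nat_lit 532499) (nat_lit 1) (.e (nat_lit 57849) (nat_lit 252) (.e (nat_lit 57407) (nat_lit 12) (.e (nat_lit 336454) (nat_lit 34) (.e (nat_lit 483385) (nat_lit 23) (.e (nat_lit 336284) (nat_lit 15) .nil))))))) (.g (nat_lit 6) .nil .nil))) 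
(.lf (nat_lit 100340) (.g (nat_lit 2066) (.e (nat_lit 3249) (nat_lit 197) (.e (nat_lit 532544) (nat_lit 10) (.e (nat_lit 344129) (nat_lit 26) (.e (nat_lit 557097) (nat_lit 13) (.e (nat_lit 172064) (nat_lit 2) .nil))))) .nil))))) (.nd (nat_lit 4) (.nd (nat_lit 5) (.nd (nat_lit 6) 
(.lf (nat_lit 100236) (.g (nat_lit 3039) (.e (nat_lit 3248) (nat_lit 197) (.e (nat_lit 532523) (nat_lit 7) (.e (nat_lit 319531) (nat_lit 16) (.e (nat_lit 286733) (nat_lit 2) (.e (nat_lit 90169) (nat_lit 13) .nil))))) .nil)) 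
(.lf (nat_lit 100300) (.g (nat_lit 554) (.e (nat_lit 3249) (nat_lit 197) (.e (nat_lit 532503) (nat_lit 1) (.e (nat_lit 57847) (nat_lit 252) .nil))) .nil))) (.nd (nat_lit 6) 
(.lf (nat_lit 100268) (.g (nat_lit 2726) (.e (nat_lit 3249) (nat_lit 197) (.e (nat_lit 532499) (nat_lit 1) (.e (nat_lit 57847) (nat_lit 252) (.e (nat_lit 57445) (nat_lit 19) (.e (nat_lit 393229) (nat_lit 9) (.e (nat_lit 336086) (nat_lit 9) (.e (nat_lit 336247) (nat_lit 15) .nil))))))) (.g (nat_lit 4) .nil .nil))) 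
(.lf (nat_lit 100332) (.g (nat_lit 1069) (.e (nat_lit 3249) (nat_lit 197) (.e (nat_lit 532542) (nat_lit 9) (.e (nat_lit 336076) (nat_lit 9) (.e (nat_lit 336324) (nat_lit 18) .nil)))) .nil)))) (.nd (nat_lit 5) (.nd (nat_lit 6) 
(.lf (nat_lit 100252) (.g (nat_lit 1641) (.e (nat_lit 3249) (nat_lit 197) (.e (nat_lit 532483) (nat_lit 0) (.e (nat_lit 2078) (nat_lit 142) (.e (nat_lit 704734) (nat_lit 11) (.e (nat_lit 16416) (nat_lit 3) (.e (nat_lit 204877) (nat_lit 31) (.e (nat_lit 376833) (nat_lit 0) .nil))))))) (.g (nat_lit 5) .nil .nil))) 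
(.lf (nat_lit 100316) (.g (nat_lit 3311) (.e (nat_lit 3249) (nat_lit 197) (.e (nat_lit 532504) (nat_lit 1) (.e (nat_lit 57931) (nat_lit 282) (.e (nat_lit 163869) (nat_lit 2) (.e (nat_lit 196670) (nat_lit 14) .nil))))) .nil))) (.nd (nat_lit 6) 
(.lf (nat_lit 100284) (.g (nat_lit 2156) (.e (nat_lit 3249) (nat_lit 197) (.e (nat_lit 532500) (nat_lit 1) (.e (nat_lit 57851) (nat_lit 252) (.e (nat_lit 57406) (nat_lit 12) (.e (nat_lit 336367) (nat_lit 27) (.e (nat_lit 426542) (nat_lit 29) (.e (nat_lit 360192) (nat_lit 0) .nil))))))) (.g (nat_lit 4) .nil .nil))) 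
(.lf (nat_lit 100348) (.g (nat_lit 2313) (.e (nat_lit 3249) (nat_lit 197) (.e (nat_lit 532544) (nat_lit 10) (.e (nat_lit 344169) (nat_lit 40) (.e (nat_lit 671759) (nat_lit 3) (.e (nat_lit 57479) (nat_lit 28) (.e (nat_lit 557107) (nat_lit 15) (.e (nat_lit 196352) (nat_lit 20) .nil))))))) (.g (nat_lit 4) .nil .nil)))))))) 
(.nd (nat_lit 2) (.nd (nat_lit 3) (.nd (nat_lit 4) (.nd (nat_lit 5) (.nd (nat_lit 6) 
(.lf (nat_lit 100226) (.g (nat_lit 3300) (.e (nat_lit 3248) (nat_lit 197) (.e (nat_lit 532504) (nat_lit 1) (.e (nat_lit 57931) (nat_lit 282) (.e (nat_lit 163869) (nat_lit 2) (.e (nat_lit 196670) (nat_lit 14) .nil))))) .nil)) 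
(.lf (nat_lit 100290) (.g (nat_lit 1445) (.e (nat_lit 3249) (nat_lit 197) (.e (nat_lit 532500) (nat_lit 1) (.e (nat_lit 57851) (nat_lit 252) (.e (nat_lit 57446) (nat_lit 19) .nil)))) .nil))) (.nd (nat_lit 6) 
(.lf (nat_lit 100258) (.g (nat_lit 2636) (.e (nat_lit 3249) (nat_lit 197) (.e (nat_lit 532499) (nat_lit 1) (.e (nat_lit 57847) (nat_lit 252) (.e (nat_lit 57349) (nat_lit 0) .nil)))) .nil)) 
(.lf (nat_lit 100322) (.g (nat_lit 2484) (.e (nat_lit 3249) (nat_lit 197) (.e (nat_lit 532522) (nat_lit 7) (.e (nat_lit 319530) (nat_lit 16) (.e (nat_lit 286733) (nat_lit 2) (.e (nat_lit 90178) (nat_lit 15) .nil))))) .nil)))) (.nd (nat_lit 5) (.nd (nat_lit 6) 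
(.lf (nat_lit 100242) (.g (nat_lit 3410) (.e (nat_lit 3248) (nat_lit 197) (.e (nat_lit 532563) (nat_lit 15) (.e (nat_lit 385094) (nat_lit 49) (.e (nat_lit 778317) (nat_lit 3) (.e (nat_lit 57480) (nat_lit 28) (.e (nat_lit 557109) (nat_lit 15) (.e (nat_lit 188433) (nat_lit 20) .nil))))))) (.g (nat_lit 5) .nil .nil))) 
(.lf (nat_lit 100306) (.g (nat_lit 1820) (.e (nat_lit 3249) (nat_lit 197) (.e (nat_lit 532504) (nat_lit 1) (.e (nat_lit 57830) (nat_lit 250) (.e (nat_lit 1183) (nat_lit 87) (.e (nat_lit 57466) (nat_lit 23) .nil))))) .nil))) (.nd (nat_lit 6) 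
(.lf (nat_lit 100274) (.g (nat_lit 1675) (.e (nat_lit 3249) (nat_lit 197) (.e (nat_lit 532499) (nat_lit 1) (.e (nat_lit 57847) (nat_lit 252) (.e (nat_lit 57448) (nat_lit 19) .nil)))) .nil)) 
(.lf (nat_lit 100338) (.g (nat_lit 2870) (.e (nat_lit 3249) (nat_lit 197) (.e (nat_lit 532543) (nat_lit 10) (.e (nat_lit 344133) (nat_lit 26) (.e (nat_lit 557098) (nat_lit 13) (.e (nat_lit 172064) (nat_lit 2) (.e (nat_lit 204544) (nat_lit 2) (.e (nat_lit 24667) (nat_lit 15) .nil))))))) (.g (nat_lit 5) .nil .nil)))))) (.nd (nat_lit 4) (.nd (nat_lit 5) (.nd (nat_lit 6) 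
(.lf (nat_lit 100234) (.g (nat_lit 2774) (.e (nat_lit 3248) (nat_lit 197) (.e (nat_lit 532523) (nat_lit 7) (.e (nat_lit 319530) (nat_lit 16) (.e (nat_lit 286733) (nat_lit 2) (.e (nat_lit 90169) (nat_lit 13) .nil))))) .nil)) 
(.lf (nat_lit 100298) (.g (nat_lit 1144) (.e (nat_lit 3249) (nat_lit 197) (.e (nat_lit 532501) (nat_lit 1) (.e (nat_lit 57851) (nat_lit 252) .nil))) .nil))) (.nd (nat_lit 6) 
(.lf (nat_lit 100266) (.g (nat_lit 4071) (.e (nat_lit 3249) (nat_lit 197) (.e (nat_lit 532499) (nat_lit 1) (.e (nat_lit 57847) (nat_lit 252) (.e (nat_lit 57411) (nat_lit 12) (.e (nat_lit 336454) (nat_lit 34) (.e (nat_lit 483385) (nat_lit 23) (.e (nat_lit 336284) (nat_lit 15) .nil))))))) (.g (nat_lit 6) .nil .nil))) 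
(.lf (nat_lit 100330) (.g (nat_lit 2037) (.e (nat_lit 3249) (nat_lit 197) (.e (nat_lit 532523) (nat_lit 7) (.e (nat_lit 319532) (nat_lit 16) (.e (nat_lit 286734) (nat_lit 3) (.e (nat_lit 98370) (nat_lit 28) .nil))))) .nil)))) (.nd (nat_lit 5) (.nd (nat_lit 6) 
(.lf (nat_lit 100250) (.g (nat_lit 1645) (.e (nat_lit 3249) (nat_lit 197) (.e (nat_lit 532483) (nat_lit 0) (.e (nat_lit 2044) (nat_lit 142) (.e (nat_lit 704734) (nat_lit 11) (.e (nat_lit 16416) (nat_lit 3) (.e (nat_lit 204877) (nat_lit 31) (.e (nat_lit 376833) (nat_lit 0) .nil))))))) (.g (nat_lit 5) .nil .nil))) 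
(.lf (nat_lit 100314) (.g (nat_lit 1793) (.e (nat_lit 3249) (nat_lit 197) (.e (nat_lit 532504) (nat_lit 1) (.e (nat_lit 57852) (nat_lit 252) (.e (nat_lit 57447) (nat_lit 19) .nil)))) .nil))) (.nd (nat_lit 6) 
(.lf (nat_lit 100282) (.g (nat_lit 2578) (.e (nat_lit 3249) (nat_lit 197) (.e (nat_lit 532500) (nat_lit 1) (.e (nat_lit 57851) (nat_lit 252) (.e (nat_lit 57406) (nat_lit 12) (.e (nat_lit 336367) (nat_lit 27) (.e (nat_lit 426539) (nat_lit 29) (.e (nat_lit 352261) (nat_lit 0) .nil))))))) (.g (nat_lit 5) .nil .nil))) 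
(.lf (nat_lit 100346) (.g (nat_lit 2834) (.e (nat_lit 3249) (nat_lit 197) (.e (nat_lit 532544) (nat_lit 10) (.e (nat_lit 344133) (nat_lit 26) (.e (nat_lit 557098) (nat_lit 13) (.e (nat_lit 172064) (nat_lit 2) (.e (nat_lit 204544) (nat_lit 2) (.e (nat_lit 24666) (nat_lit 15) .nil))))))) (.g (nat_lit 4) .nil .nil))))))) (.nd (nat_lit 3) (.nd (nat_lit 4) (.nd (nat_lit 5) (.nd (nat_lit 6) 
(.lf (nat_lit 100230) (.g (nat_lit 2067) (.e (nat_lit 3248) (nat_lit 197) (.e (nat_lit 532515) (nat_lit 3) (.e (nat_lit 114719) (nat_lit 23) (.e (nat_lit 98385) (nat_lit 32) .nil)))) .nil)) 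
(.lf (nat_lit 100294) (.g (nat_lit 2307) (.e (nat_lit 3249) (nat_lit 197) (.e (nat_lit 532500) (nat_lit 1) (.e (nat_lit 57852) (nat_lit 252) (.e (nat_lit 57446) (nat_lit 19) .nil)))) .nil))) (.nd (nat_lit 6) 
(.lf (nat_lit 100262) (.g (nat_lit 2646) (.e (nat_lit 3249) (nat_lit 197) (.e (nat_lit 532499) (nat_lit 1) (.e (nat_lit 57847) (nat_lit 252) (.e (nat_lit 57407) (nat_lit 12) (.e (nat_lit 336454) (nat_lit 34) .nil))))) .nil)) 
(.lf (nat_lit 100326) (.g (nat_lit 1382) (.e (nat_lit 3249) (nat_lit 197) (.e (nat_lit 532522) (nat_lit 7) (.e (nat_lit 319538) (nat_lit 19) (.e (nat_lit 311315) (nat_lit 3) .nil)))) .nil)))) (.nd (nat_lit 5) (.nd (nat_lit 6) 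
(.lf (nat_lit 100246) (.g (nat_lit 4413) (.e (nat_lit 3248) (nat_lit 197) (.e (nat_lit 532566) (nat_lit 15) (.e (nat_lit 385094) (nat_lit 49) (.e (nat_lit 778317) (nat_lit 3) (.e (nat_lit 57480) (nat_lit 28) (.e (nat_lit 557109) (nat_lit 15) (.e (nat_lit 188433) (nat_lit 20) .nil))))))) (.g (nat_lit 7) .nil .nil))) 
(.lf (nat_lit 100310) (.g (nat_lit 1608) (.e (nat_lit 3249) (nat_lit 197) (.e (nat_lit 532504) (nat_lit 1) (.e (nat_lit 57851) (nat_lit 252) (.e (nat_lit 57445) (nat_lit 19) (.e (nat_lit 401152) (nat_lit 14) (.e (nat_lit 376833) (nat_lit 0) .nil)))))) (.g (nat_lit 4) .nil .nil)))) (.nd (nat_lit 6) 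
(.lf (nat_lit 100278) (.g (nat_lit 2670) (.e (nat_lit 3249) (nat_lit 197) (.e (nat_lit 532499) (nat_lit 1) (.e (nat_lit 57926) (nat_lit 282) (.e (nat_lit 163868) (nat_lit 2) (.e (nat_lit 196670) (nat_lit 14) .nil))))) .nil)) 
(.lf (nat_lit 100342) (.g (nat_lit 2108) (.e (nat_lit 3249) (nat_lit 197) (.e (nat_lit 532544) (nat_lit 10) (.e (nat_lit 344131) (nat_lit 26) (.e (nat_lit 557098) (nat_lit 13) (.e (nat_lit 172064) (nat_lit 2) (.e (nat_lit 204544) (nat_lit 2) (.e (nat_lit 24667) (nat_lit 15) .nil))))))) (.g (nat_lit 4) .nil .nil)))))) (.nd (nat_lit 4) (.nd (nat_lit 5) (.nd (nat_lit 6) 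
(.lf (nat_lit 100238) (.g (nat_lit 3664) (.e (nat_lit 3248) (nat_lit 197) (.e (nat_lit 532535) (nat_lit 9) (.e (nat_lit 336099) (nat_lit 9) (.e (nat_lit 336028) (nat_lit 3) (.e (nat_lit 98349) (nat_lit 24) .nil))))) .nil)) 
(.lf (nat_lit 100302) (.g (nat_lit 1999) (.e (nat_lit 3249) (nat_lit 197) (.e (nat_lit 532503) (nat_lit 1) (.e (nat_lit 57848) (nat_lit 252) (.e (nat_lit 57407) (nat_lit 12) (.e (nat_lit 336367) (nat_lit 27) (.e (nat_lit 426539) (nat_lit 29) (.e (nat_lit 352261) (nat_lit 0) .nil))))))) (.g (nat_lit 4) .nil .nil)))) (.nd (nat_lit 6) 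
(.lf (nat_lit 100270) (.g (nat_lit 1817) (.e (nat_lit 3249) (nat_lit 197) (.e (nat_lit 532499) (nat_lit 1) (.e (nat_lit 57847) (nat_lit 252) (.e (nat_lit 57446) (nat_lit 19) (.e (nat_lit 401152) (nat_lit 11) (.e (nat_lit 360192) (nat_lit 0) .nil)))))) (.g (nat_lit 4) .nil .nil))) 
(.lf (nat_lit 100334) (.g (nat_lit 2724) (.e (nat_lit 3249) (nat_lit 197) (.e (nat_lit 532543) (nat_lit 10) (.e (nat_lit 344129) (nat_lit 26) (.e (nat_lit 557097) (nat_lit 13) (.e (nat_lit 172064) (nat_lit 2) (.e (nat_lit 204544) (nat_lit 2) (.e (nat_lit 24666) (nat_lit 15) .nil))))))) (.g (nat_lit 4) .nil .nil))))) (.nd (nat_lit 5) (.nd (nat_lit 6) 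
(.lf (nat_lit 100254) (.g (nat_lit 850) (.e (nat_lit 3249) (nat_lit 197) (.e (nat_lit 532490) (nat_lit 0) (.e (nat_lit 2081) (nat_lit 142) .nil))) .nil)) 
(.lf (nat_lit 100318) (.g (nat_lit 1065) (.e (nat_lit 3249) (nat_lit 197) (.e (nat_lit 532511) (nat_lit 2) (.e (nat_lit 106534) (nat_lit 11) (.e (nat_lit 16417) (nat_lit 3) (.e (nat_lit 204865) (nat_lit 28) (.e (nat_lit 352261) (nat_lit 0) .nil)))))) (.g (nat_lit 4) .nil .nil)))) (.nd (nat_lit 6) 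
(.lf (nat_lit 100286) (.g (nat_lit 1411) (.e (nat_lit 3249) (nat_lit 197) (.e (nat_lit 532500) (nat_lit 1) (.e (nat_lit 57851) (nat_lit 252) (.e (nat_lit 57445) (nat_lit 19) .nil)))) .nil)) 
(.lf (nat_lit 100350) (.g (nat_lit 679) (.e (nat_lit 3249) (nat_lit 197) (.e (nat_lit 532545) (nat_lit 10) (.e (nat_lit 344133) (nat_lit 26) (.e (nat_lit 557105) (nat_lit 14) .nil)))) .nil)))))))) (.nd (nat_lit 1) (.nd (nat_lit 2) (.nd (nat_lit 3) (.nd (nat_lit 4) (.nd (nat_lit 5) (.nd (nat_lit 6) 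
(.lf (nat_lit 100225) (.g (nat_lit 3452) (.e (nat_lit 3248) (nat_lit 197) (.e (nat_lit 532504) (nat_lit 1) (.e (nat_lit 57931) (nat_lit 282) (.e (nat_lit 163869) (nat_lit 2) (.e (nat_lit 196668) (nat_lit 14) .nil))))) .nil)) 
(.lf (nat_lit 100289) (.g (nat_lit 2038) (.e (nat_lit 3249) (nat_lit 197) (.e (nat_lit 532500) (nat_lit 1) (.e (nat_lit 57851) (nat_lit 252) (.e (nat_lit 57445) (nat_lit 19) (.e (nat_lit 401152) (nat_lit 14) (.e (nat_lit 376833) (nat_lit 0) .nil)))))) (.g (nat_lit 4) .nil .nil)))) (.nd (nat_lit 6) 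
(.lf (nat_lit 100257) (.g (nat_lit 2649) (.e (nat_lit 3249) (nat_lit 197) (.e (nat_lit 532499) (nat_lit 1) (.e (nat_lit 57847) (nat_lit 252) (.e (nat_lit 57348) (nat_lit 0) .nil)))) .nil)) 
(.lf (nat_lit 100321) (.g (nat_lit 1144) (.e (nat_lit 3249) (nat_lit 197) (.e (nat_lit 532511) (nat_lit 2) (.e (nat_lit 106536) (nat_lit 11) (.e (nat_lit 16417) (nat_lit 3) (.e (nat_lit 204877) (nat_lit 31) (.e (nat_lit 376833) (nat_lit 0) .nil)))))) (.g (nat_lit 4) .nil .nil))))) (.nd (nat_lit 5) (.nd (nat_lit 6) 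
(.lf (nat_lit 100241) (.g (nat_lit 2330) (.e (nat_lit 3248) (nat_lit 197) (.e (nat_lit 532563) (nat_lit 15) (.e (nat_lit 385094) (nat_lit 49) (.e (nat_lit 778317) (nat_lit 3) (.e (nat_lit 57477) (nat_lit 28) (.e (nat_lit 557108) (nat_lit 15) (.e (nat_lit 188433) (nat_lit 20) .nil))))))) (.g (nat_lit 4) .nil .nil))) 
(.lf (nat_lit 100305) (.g (nat_lit 1930) (.e (nat_lit 3249) (nat_lit 197) (.e (nat_lit 532503) (nat_lit 1) (.e (nat_lit 57849) (nat_lit 252) (.e (nat_lit 57445) (nat_lit 19) (.e (nat_lit 393229) (nat_lit 9) (.e (nat_lit 336086) (nat_lit 9) (.e (nat_lit 336284) (nat_lit 15) .nil))))))) (.g (nat_lit 4) .nil .nil)))) (.nd (nat_lit 6) 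
(.lf (nat_lit 100273) (.g (nat_lit 3880) (.e (nat_lit 3249) (nat_lit 197) (.e (nat_lit 532499) (nat_lit 1) (.e (nat_lit 57847) (nat_lit 252) (.e (nat_lit 57447) (nat_lit 19) (.e (nat_lit 393229) (nat_lit 9) (.e (nat_lit 336086) (nat_lit 9) (.e (nat_lit 336284) (nat_lit 15) .nil))))))) (.g (nat_lit 5) .nil .nil))) 
(.lf (nat_lit 100337) (.g (nat_lit 1851) (.e (nat_lit 3249) (nat_lit 197) (.e (nat_lit 532543) (nat_lit 10) (.e (nat_lit 344130) (nat_lit 26) (.e (nat_lit 557097) (nat_lit 13) (.e (nat_lit 172064) (nat_lit 2) (.e (nat_lit 204544) (nat_lit 2) (.e (nat_lit 24667) (nat_lit 15) .nil))))))) (.g (nat_lit 4) .nil .nil)))))) (.nd (nat_lit 4) (.nd (nat_lit 5) (.nd (nat_lit 6) 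
(.lf (nat_lit 100233) (.g (nat_lit 2827) (.e (nat_lit 3248) (nat_lit 197) (.e (nat_lit 532522) (nat_lit 7) (.e (nat_lit 319530) (nat_lit 16) (.e (nat_lit 286733) (nat_lit 2) (.e (nat_lit 90178) (nat_lit 15) (.e (nat_lit 188432) (nat_lit 20) .nil)))))) (.g (nat_lit 4) .nil .nil))) 
(.lf (nat_lit 100297) (.g (nat_lit 2458) (.e (nat_lit 3249) (nat_lit 197) (.e (nat_lit 532500) (nat_lit 1) (.e (nat_lit 57854) (nat_lit 252) (.e (nat_lit 57445) (nat_lit 19) (.e (nat_lit 393229) (nat_lit 9) (.e (nat_lit 336086) (nat_lit 9) (.e (nat_lit 336284) (nat_lit 15) .nil))))))) (.g (nat_lit 5) .nil .nil)))) (.nd (nat_lit 6) 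
(.lf (nat_lit 100265) (.g (nat_lit 1850) (.e (nat_lit 3249) (nat_lit 197) (.e (nat_lit 532499) (nat_lit 1) (.e (nat_lit 57847) (nat_lit 252) (.e (nat_lit 57411) (nat_lit 12) .nil)))) .nil)) 
(.lf (nat_lit 100329) (.g (nat_lit 2530) (.e (nat_lit 3249) (nat_lit 197) (.e (nat_lit 532523) (nat_lit 7) (.e (nat_lit 319530) (nat_lit 16) (.e (nat_lit 286735) (nat_lit 3) (.e (nat_lit 98363) (nat_lit 26) .nil))))) .nil)))) (.nd (nat_lit 5) (.nd (nat_lit 6) 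
(.lf (nat_lit 100249) (.g (nat_lit 1617) (.e (nat_lit 3249) (nat_lit 197) (.e (nat_lit 532483) (nat_lit 0) (.e (nat_lit 2044) (nat_lit 142) (.e (nat_lit 704734) (nat_lit 11) (.e (nat_lit 16416) (nat_lit 3) (.e (nat_lit 204876) (nat_lit 31) (.e (nat_lit 376833) (nat_lit 0) .nil))))))) (.g (nat_lit 5) .nil .nil))) 
(.lf (nat_lit 100313) (.g (nat_lit 3706) (.e (nat_lit 3249) (nat_lit 197) (.e (nat_lit 532504) (nat_lit 1) (.e (nat_lit 57852) (nat_lit 252) (.e (nat_lit 57445) (nat_lit 19) (.e (nat_lit 393229) (nat_lit 9) (.e (nat_lit 336086) (nat_lit 9) (.e (nat_lit 336284) (nat_lit 15) .nil))))))) (.g (nat_lit 0) .nil .nil)))) (.nd (nat_lit 6) 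
(.lf (nat_lit 100281) (.g (nat_lit 1454) (.e (nat_lit 3249) (nat_lit 197) (.e (nat_lit 532500) (nat_lit 1) (.e (nat_lit 57851) (nat_lit 252) (.e (nat_lit 57406) (nat_lit 12) .nil)))) .nil)) 
(.lf (nat_lit 100345) (.g (nat_lit 2297) (.e (nat_lit 3249) (nat_lit 197) (.e (nat_lit 532544) (nat_lit 10) (.e (nat_lit 344133) (nat_lit 26) (.e (nat_lit 557096) (nat_lit 13) (.e (nat_lit 172064) (nat_lit 2) (.e (nat_lit 204544) (nat_lit 2) (.e (nat_lit 24667) (nat_lit 15) .nil))))))) (.g (nat_lit 4) .nil .nil))))))) (.nd (nat_lit 3) (.nd (nat_lit 4) (.nd (nat_lit 5) (.nd (nat_lit 6) 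
(.lf (nat_lit 100229) (.g (nat_lit 2871) (.e (nat_lit 3248) (nat_lit 197) (.e (nat_lit 532515) (nat_lit 3) (.e (nat_lit 114719) (nat_lit 23) (.e (nat_lit 98365) (nat_lit 26) (.e (nat_lit 426138) (nat_lit 3) .nil))))) .nil)) 
(.lf (nat_lit 100293) (.g (nat_lit 3269) (.e (nat_lit 3249) (nat_lit 197) (.e (nat_lit 532500) (nat_lit 1) (.e (nat_lit 57852) (nat_lit 252) (.e (nat_lit 57445) (nat_lit 19) (.e (nat_lit 393229) (nat_lit 9) (.e (nat_lit 336086) (nat_lit 9) (.e (nat_lit 336284) (nat_lit 15) .nil))))))) (.g (nat_lit 4) .nil .nil)))) (.nd (nat_lit 6) 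
(.lf (nat_lit 100261) (.g (nat_lit 1825) (.e (nat_lit 3249) (nat_lit 197) (.e (nat_lit 532499) (nat_lit 1) (.e (nat_lit 57847) (nat_lit 252) (.e (nat_lit 57407) (nat_lit 12) .nil)))) .nil)) 
(.lf (nat_lit 100325) (.g (nat_lit 1253) (.e (nat_lit 3249) (nat_lit 197) (.e (nat_lit 532522) (nat_lit 7) (.e (nat_lit 319537) (nat_lit 19) (.e (nat_lit 311315) (nat_lit 3) .nil)))) .nil)))) (.nd (nat_lit 5) (.nd (nat_lit 6) 
(.lf (nat_lit 100245) (.g (nat_lit 3299) (.e (nat_lit 3248) (nat_lit 197) (.e (nat_lit 532566) (nat_lit 15) (.e (nat_lit 385094) (nat_lit 49) (.e (nat_lit 778317) (nat_lit 3) (.e (nat_lit 57477) (nat_lit 28) (.e (nat_lit 557108) (nat_lit 15) (.e (nat_lit 188433) (nat_lit 20) .nil))))))) (.g (nat_lit 0) .nil .nil))) 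
(.lf (nat_lit 100309) (.g (nat_lit 1757) (.e (nat_lit 3249) (nat_lit 197) (.e (nat_lit 532504) (nat_lit 1) (.e (nat_lit 57851) (nat_lit 252) (.e (nat_lit 57445) (nat_lit 19) (.e (nat_lit 401152) (nat_lit 14) (.e (nat_lit 376832) (nat_lit 0) .nil)))))) (.g (nat_lit 4) .nil .nil)))) (.nd (nat_lit 6) 
(.lf (nat_lit 100277) (.g (nat_lit 2646) (.e (nat_lit 3249) (nat_lit 197) (.e (nat_lit 532499) (nat_lit 1) (.e (nat_lit 57849) (nat_lit 252) (.e (nat_lit 57445) (nat_lit 19) (.e (nat_lit 393229) (nat_lit 9) (.e (nat_lit 336086) (nat_lit 9) (.e (nat_lit 336284) (nat_lit 15) .nil))))))) (.g (nat_lit 6) .nil .nil))) 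
(.lf (nat_lit 100341) (.g (nat_lit 2033) (.e (nat_lit 3249) (nat_lit 197) (.e (nat_lit 532544) (nat_lit 10) (.e (nat_lit 344130) (nat_lit 26) (.e (nat_lit 557097) (nat_lit 13) (.e (nat_lit 172064) (nat_lit 2) (.e (nat_lit 204544) (nat_lit 2) (.e (nat_lit 24667) (nat_lit 15) .nil))))))) (.g (nat_lit 4) .nil .nil)))))) (.nd (nat_lit 4) (.nd (nat_lit 5) (.nd (nat_lit 6) 
(.lf (nat_lit 100237) (.g (nat_lit 2781) (.e (nat_lit 3248) (nat_lit 197) (.e (nat_lit 532523) (nat_lit 7) (.e (nat_lit 319534) (nat_lit 16) (.e (nat_lit 286733) (nat_lit 2) (.e (nat_lit 90169) (nat_lit 13) .nil))))) .nil)) 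
(.lf (nat_lit 100301) (.g (nat_lit 602) (.e (nat_lit 3249) (nat_lit 197) (.e (nat_lit 532503) (nat_lit 1) (.e (nat_lit 57848) (nat_lit 252) .nil))) .nil))) (.nd (nat_lit 6) 
(.lf (nat_lit 100269) (.g (nat_lit 3977) (.e (nat_lit 3249) (nat_lit 197) (.e (nat_lit 532499) (nat_lit 1) (.e (nat_lit 57847) (nat_lit 252) (.e (nat_lit 57445) (nat_lit 19) (.e (nat_lit 393229) (nat_lit 9) (.e (nat_lit 336086) (nat_lit 9) (.e (nat_lit 336284) (nat_lit 15) .nil))))))) (.g (nat_lit 7) .nil .nil))) 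
(.lf (nat_lit 100333) (.g (nat_lit 783) (.e (nat_lit 3249) (nat_lit 197) (.e (nat_lit 532542) (nat_lit 9) (.e (nat_lit 336194) (nat_lit 12) (.e (nat_lit 385068) (nat_lit 26) .nil)))) .nil)))) (.nd (nat_lit 5) (.nd (nat_lit 6) 
(.lf (nat_lit 100253) (.g (nat_lit 787) (.e (nat_lit 3249) (nat_lit 197) (.e (nat_lit 532490) (nat_lit 0) (.e (nat_lit 1023) (nat_lit 81) .nil))) .nil)) 
(.lf (nat_lit 100317) (.g (nat_lit 1092) (.e (nat_lit 3249) (nat_lit 197) (.e (nat_lit 532508) (nat_lit 2) (.e (nat_lit 106534) (nat_lit 11) (.e (nat_lit 16417) (nat_lit 3) (.e (nat_lit 204865) (nat_lit 28) (.e (nat_lit 352261) (nat_lit 0) .nil)))))) (.g (nat_lit 4) .nil .nil)))) (.nd (nat_lit 6) 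
(.lf (nat_lit 100285) (.g (nat_lit 2708) (.e (nat_lit 3249) (nat_lit 197) (.e (nat_lit 532500) (nat_lit 1) (.e (nat_lit 57851) (nat_lit 252) (.e (nat_lit 57406) (nat_lit 12) (.e (nat_lit 336367) (nat_lit 27) (.e (nat_lit 426555) (nat_lit 32) (.e (nat_lit 376832) (nat_lit 0) .nil))))))) (.g (nat_lit 5) .nil .nil))) 
(.lf (nat_lit 100349) (.g (nat_lit 3463) (.e (nat_lit 3249) (nat_lit 197) (.e (nat_lit 532544) (nat_lit 10) (.e (nat_lit 344169) (nat_lit 40) (.e (nat_lit 671759) (nat_lit 3) (.e (nat_lit 57479) (nat_lit 28) (.e (nat_lit 557109) (nat_lit 15) (.e (nat_lit 196352) (nat_lit 20) .nil))))))) (.g (nat_lit 6) .nil .nil)))))))) 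
(.nd (nat_lit 2) (.nd (nat_lit 3) (.nd (nat_lit 4) (.nd (nat_lit 5) (.nd (nat_lit 6) 
(.lf (nat_lit 100227) (.g (nat_lit 1243) (.e (nat_lit 3248) (nat_lit 197) (.e (nat_lit 532515) (nat_lit 3) (.e (nat_lit 114716) (nat_lit 22) (.e (nat_lit 90173) (nat_lit 14) .nil)))) .nil)) 
(.lf (nat_lit 100291) (.g (nat_lit 1711) (.e (nat_lit 3249) (nat_lit 197) (.e (nat_lit 532500) (nat_lit 1) (.e (nat_lit 57851) (nat_lit 252) (.e (nat_lit 57446) (nat_lit 19) (.e (nat_lit 401152) (nat_lit 14) .nil))))) .nil))) (.nd (nat_lit 6) 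
(.lf (nat_lit 100259) (.g (nat_lit 2449) (.e (nat_lit 3249) (nat_lit 197) (.e (nat_lit 532499) (nat_lit 1) (.e (nat_lit 57847) (nat_lit 252) (.e (nat_lit 57379) (nat_lit 3) .nil)))) .nil)) 
(.lf (nat_lit 100323) (.g (nat_lit 1410) (.e (nat_lit 3249) (nat_lit 197) (.e (nat_lit 532522) (nat_lit 7) (.e (nat_lit 319530) (nat_lit 16) (.e (nat_lit 286735) (nat_lit 3) .nil)))) .nil)))) (.nd (nat_lit 5) (.nd (nat_lit 6) 
(.lf (nat_lit 100243) (.g (nat_lit 3607) (.e (nat_lit 3248) (nat_lit 197) (.e (nat_lit 532566) (nat_lit 15) (.e (nat_lit 385094) (nat_lit 49) (.e (nat_lit 778317) (nat_lit 3) (.e (nat_lit 57476) (nat_lit 28) (.e (nat_lit 557108) (nat_lit 15) (.e (nat_lit 188433) (nat_lit 20) .nil))))))) (.g (nat_lit 0) .nil .nil))) 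
(.lf (nat_lit 100307) (.g (nat_lit 436) (.e (nat_lit 3249) (nat_lit 197) (.e (nat_lit 532504) (nat_lit 1) (.e (nat_lit 57851) (nat_lit 252) .nil))) .nil))) (.nd (nat_lit 6) 
(.lf (nat_lit 100275) (.g (nat_lit 3212) (.e (nat_lit 3249) (nat_lit 197) (.e (nat_lit 532499) (nat_lit 1) (.e (nat_lit 57847) (nat_lit 252) (.e (nat_lit 57448) (nat_lit 19) (.e (nat_lit 393229) (nat_lit 9) (.e (nat_lit 336086) (nat_lit 9) (.e (nat_lit 336284) (nat_lit 15) .nil))))))) (.g (nat_lit 6) .nil .nil))) 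
(.lf (nat_lit 100339) (.g (nat_lit 2381) (.e (nat_lit 3249) (nat_lit 197) (.e (nat_lit 532543) (nat_lit 10) (.e (nat_lit 344169) (nat_lit 40) (.e (nat_lit 671759) (nat_lit 3) (.e (nat_lit 57479) (nat_lit 28) (.e (nat_lit 557109) (nat_lit 15) (.e (nat_lit 196352) (nat_lit 20) .nil))))))) (.g (nat_lit 6) .nil .nil)))))) (.nd (nat_lit 4) (.nd (nat_lit 5) (.nd (nat_lit 6) 
(.lf (nat_lit 100235) (.g (nat_lit 2975) (.e (nat_lit 3248) (nat_lit 197) (.e (nat_lit 532523) (nat_lit 7) (.e (nat_lit 319530) (nat_lit 16) (.e (nat_lit 286733) (nat_lit 2) (.e (nat_lit 90178) (nat_lit 15) (.e (nat_lit 188432) (nat_lit 20) .nil)))))) (.g (nat_lit 4) .nil .nil))) 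
(.lf (nat_lit 100299) (.g (nat_lit 1931) (.e (nat_lit 3249) (nat_lit 197) (.e (nat_lit 532503) (nat_lit 1) (.e (nat_lit 57846) (nat_lit 252) (.e (nat_lit 57445) (nat_lit 19) (.e (nat_lit 393229) (nat_lit 9) .nil))))) .nil))) (.nd (nat_lit 6) 
(.lf (nat_lit 100267) (.g (nat_lit 2478) (.e (nat_lit 3249) (nat_lit 197) (.e (nat_lit 532499) (nat_lit 1) (.e (nat_lit 57847) (nat_lit 252) (.e (nat_lit 57445) (nat_lit 19) (.e (nat_lit 393229) (nat_lit 9) .nil))))) .nil)) 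
(.lf (nat_lit 100331) (.g (nat_lit 2983) (.e (nat_lit 3249) (nat_lit 197) (.e (nat_lit 532523) (nat_lit 7) (.e (nat_lit 319534) (nat_lit 16) (.e (nat_lit 286735) (nat_lit 3) (.e (nat_lit 98363) (nat_lit 26) .nil))))) .nil)))) (.nd (nat_lit 5) (.nd (nat_lit 6) 
(.lf (nat_lit 100251) (.g (nat_lit 1500) (.e (nat_lit 3249) (nat_lit 197) (.e (nat_lit 532483) (nat_lit 0) (.e (nat_lit 2078) (nat_lit 142) (.e (nat_lit 704734) (nat_lit 11) (.e (nat_lit 16416) (nat_lit 3) (.e (nat_lit 204876) (nat_lit 31) (.e (nat_lit 376833) (nat_lit 0) .nil))))))) (.g (nat_lit 5) .nil .nil))) 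
(.lf (nat_lit 100315) (.g (nat_lit 1916) (.e (nat_lit 3249) (nat_lit 197) (.e (nat_lit 532504) (nat_lit 1) (.e (nat_lit 57854) (nat_lit 252) (.e (nat_lit 57447) (nat_lit 19) .nil)))) .nil))) (.nd (nat_lit 6) 
(.lf (nat_lit 100283) (.g (nat_lit 3231) (.e (nat_lit 3249) (nat_lit 197) (.e (nat_lit 532500) (nat_lit 1) (.e (nat_lit 57851) (nat_lit 252) (.e (nat_lit 57406) (nat_lit 12) (.e (nat_lit 336367) (nat_lit 27) (.e (nat_lit 426540) (nat_lit 29) (.e (nat_lit 352261) (nat_lit 0) .nil))))))) (.g (nat_lit 6) .nil .nil))) 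
(.lf (nat_lit 100347) (.g (nat_lit 2403) (.e (nat_lit 3249) (nat_lit 197) (.e (nat_lit 532544) (nat_lit 10) (.e (nat_lit 344133) (nat_lit 26) (.e (nat_lit 557098) (nat_lit 13) (.e (nat_lit 172140) (nat_lit 22) .nil))))) .nil)))))) (.nd (nat_lit 3) (.nd (nat_lit 4) (.nd (nat_lit 5) (.nd (nat_lit 6) 
(.lf (nat_lit 100231) (.g (nat_lit 2067) (.e (nat_lit 3248) (nat_lit 197) (.e (nat_lit 532515) (nat_lit 3) (.e (nat_lit 114719) (nat_lit 23) (.e (nat_lit 98386) (nat_lit 32) .nil)))) .nil)) 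
(.lf (nat_lit 100295) (.g (nat_lit 590) (.e (nat_lit 3249) (nat_lit 197) (.e (nat_lit 532500) (nat_lit 1) (.e (nat_lit 57854) (nat_lit 252) .nil))) .nil))) (.nd (nat_lit 6) 
(.lf (nat_lit 100263) (.g (nat_lit 4460) (.e (nat_lit 3249) (nat_lit 197) (.e (nat_lit 532499) (nat_lit 1) (.e (nat_lit 57847) (nat_lit 252) (.e (nat_lit 57407) (nat_lit 12) (.e (nat_lit 336454) (nat_lit 34) (.e (nat_lit 483385) (nat_lit 23) (.e (nat_lit 336284) (nat_lit 15) .nil))))))) (.g (nat_lit 6) .nil .nil))) 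
(.lf (nat_lit 100327) (.g (nat_lit 1094) (.e (nat_lit 3249) (nat_lit 197) (.e (nat_lit 532523) (nat_lit 7) (.e (nat_lit 319511) (nat_lit 10) (.e (nat_lit 5293) (nat_lit 298) .nil)))) .nil)))) (.nd (nat_lit 5) (.nd (nat_lit 6) 
(.lf (nat_lit 100247) (.g (nat_lit 1854) (.e (nat_lit 3249) (nat_lit 197) (.e (nat_lit 532481) (nat_lit 0) (.e (nat_lit 2044) (nat_lit 142) (.e (nat_lit 704734) (nat_lit 11) (.e (nat_lit 16416) (nat_lit 3) (.e (nat_lit 204876) (nat_lit 31) (.e (nat_lit 376833) (nat_lit 0) .nil))))))) (.g (nat_lit 5) .nil .nil))) 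
(.lf (nat_lit 100311) (.g (nat_lit 525) (.e (nat_lit 3249) (nat_lit 197) (.e (nat_lit 532504) (nat_lit 1) (.e (nat_lit 57852) (nat_lit 252) .nil))) .nil))) (.nd (nat_lit 6) 
(.lf (nat_lit 100279) (.g (nat_lit 2530) (.e (nat_lit 3249) (nat_lit 197) (.e (nat_lit 532499) (nat_lit 1) (.e (nat_lit 57927) (nat_lit 282) (.e (nat_lit 163873) (nat_lit 3) (.e (nat_lit 204853) (nat_lit 26) .nil))))) .nil)) 
(.lf (nat_lit 100343) (.g (nat_lit 2367) (.e (nat_lit 3249) (nat_lit 197) (.e (nat_lit 532544) (nat_lit 10) (.e (nat_lit 344132) (nat_lit 26) (.e (nat_lit 557100) (nat_lit 13) (.e (nat_lit 172064) (nat_lit 2) (.e (nat_lit 204544) (nat_lit 2) (.e (nat_lit 24667) (nat_lit 15) .nil))))))) (.g (nat_lit 4) .nil .nil)))))) (.nd (nat_lit 4) (.nd (nat_lit 5) (.nd (nat_lit 6) 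
(.lf (nat_lit 100239) (.g (nat_lit 4905) (.e (nat_lit 3248) (nat_lit 197) (.e (nat_lit 532550) (nat_lit 12) (.e (nat_lit 360475) (nat_lit 8) (.e (nat_lit 557091) (nat_lit 12) (.e (nat_lit 164022) (nat_lit 46) .nil))))) .nil)) 
(.lf (nat_lit 100303) (.g (nat_lit 1676) (.e (nat_lit 3249) (nat_lit 197) (.e (nat_lit 532503) (nat_lit 1) (.e (nat_lit 57848) (nat_lit 252) (.e (nat_lit 57407) (nat_lit 12) (.e (nat_lit 336456) (nat_lit 34) .nil))))) .nil))) (.nd (nat_lit 6) 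
(.lf (nat_lit 100271) (.g (nat_lit 2194) (.e (nat_lit 3249) (nat_lit 197) (.e (nat_lit 532499) (nat_lit 1) (.e (nat_lit 57847) (nat_lit 252) (.e (nat_lit 57447) (nat_lit 19) .nil)))) .nil)) 
(.lf (nat_lit 100335) (.g (nat_lit 3130) (.e (nat_lit 3249) (nat_lit 197) (.e (nat_lit 532543) (nat_lit 10) (.e (nat_lit 344129) (nat_lit 26) (.e (nat_lit 557097) (nat_lit 13) (.e (nat_lit 172064) (nat_lit 2) (.e (nat_lit 204544) (nat_lit 2) (.e (nat_lit 24667) (nat_lit 15) .nil))))))) (.g (nat_lit 5) .nil .nil))))) (.nd (nat_lit 5) (.nd (nat_lit 6) 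
(.lf (nat_lit 100255) (.g (nat_lit 419) (.e (nat_lit 3249) (nat_lit 197) (.e (nat_lit 532499) (nat_lit 1) (.e (nat_lit 57847) (nat_lit 252) .nil))) .nil)) 
(.lf (nat_lit 100319) (.g (nat_lit 1300) (.e (nat_lit 3249) (nat_lit 197) (.e (nat_lit 532511) (nat_lit 2) (.e (nat_lit 106536) (nat_lit 11) (.e (nat_lit 16417) (nat_lit 3) (.e (nat_lit 204865) (nat_lit 28) (.e (nat_lit 352261) (nat_lit 0) .nil)))))) (.g (nat_lit 4) .nil .nil)))) (.nd (nat_lit 6) 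
(.lf (nat_lit 100287) (.g (nat_lit 1998) (.e (nat_lit 3249) (nat_lit 197) (.e (nat_lit 532500) (nat_lit 1) (.e (nat_lit 57851) (nat_lit 252) (.e (nat_lit 57445) (nat_lit 19) (.e (nat_lit 393229) (nat_lit 9) (.e (nat_lit 336088) (nat_lit 9) (.e (nat_lit 336284) (nat_lit 15) .nil))))))) (.g (nat_lit 4) .nil .nil))) 
(.lf (nat_lit 100351) (.g (nat_lit 2274) (.e (nat_lit 3249) (nat_lit 197) (.e (nat_lit 532549) (nat_lit 12) (.e (nat_lit 360473) (nat_lit 8) (.e (nat_lit 557091) (nat_lit 12) (.e (nat_lit 164022) (nat_lit 46) .nil))))) .nil)))))))))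

noncomputable def tv1370 : DT := (.nd (nat_lit 0) (.nd (nat_lit 1) (.nd (nat_lit 2) (.nd (nat_lit 3) (.nd (nat_lit 4) (.nd (nat_lit 5) (.nd (nat_lit 6) 
(.lf (nat_lit 100352) (.g (nat_lit 3397) (.e (nat_lit 3249) (nat_lit 197) (.e (nat_lit 532549) (nat_lit 12) (.e (nat_lit 360475) (nat_lit 8) (.e (nat_lit 557091) (nat_lit 12) (.e (nat_lit 164022) (nat_lit 46) .nil))))) .nil)) 
(.lf (nat_lit 100416) (.g (nat_lit 1352) (.e (nat_lit 3251) (nat_lit 197) (.e (nat_lit 532501) (nat_lit 1) (.e (nat_lit 57851) (nat_lit 252) (.e (nat_lit 57406) (nat_lit 12) (.e (nat_lit 336456) (nat_lit 34) .nil))))) .nil))) (.nd (nat_lit 6) 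
(.lf (nat_lit 100384) (.g (nat_lit 2653) (.e (nat_lit 3250) (nat_lit 197) (.e (nat_lit 532503) (nat_lit 1) (.e (nat_lit 57931) (nat_lit 282) (.e (nat_lit 163869) (nat_lit 2) (.e (nat_lit 196668) (nat_lit 14) .nil))))) .nil)) 
(.lf (nat_lit 100448) (.g (nat_lit 2471) (.e (nat_lit 3251) (nat_lit 197) (.e (nat_lit 532563) (nat_lit 15) (.e (nat_lit 385094) (nat_lit 49) (.e (nat_lit 778317) (nat_lit 3) (.e (nat_lit 57476) (nat_lit 28) .nil))))) .nil)))) (.nd (nat_lit 5) (.nd (nat_lit 6) 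
(.lf (nat_lit 100368) (.g (nat_lit 2266) (.e (nat_lit 3249) (nat_lit 197) (.e (nat_lit 532569) (nat_lit 16) (.e (nat_lit 401448) (nat_lit 10) (.e (nat_lit 434245) (nat_lit 28) (.e (nat_lit 573471) (nat_lit 11) .nil))))) .nil)) 
(.lf (nat_lit 100432) (.g (nat_lit 1631) (.e (nat_lit 3251) (nat_lit 197) (.e (nat_lit 532523) (nat_lit 7) (.e (nat_lit 319533) (nat_lit 16) (.e (nat_lit 286734) (nat_lit 3) .nil)))) .nil))) (.nd (nat_lit 6) 
(.lf (nat_lit 100400) (.g (nat_lit 2877) (.e (nat_lit 3250) (nat_lit 197) (.e (nat_lit 532523) (nat_lit 7) (.e (nat_lit 319531) (nat_lit 16) (.e (nat_lit 286733) (nat_lit 2) (.e (nat_lit 90178) (nat_lit 15) .nil))))) .nil)) 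
(.lf (nat_lit 100464) (.g (nat_lit 2106) (.e (nat_lit 3251) (nat_lit 197) (.e (nat_lit 532566) (nat_lit 15) (.e (nat_lit 385094) (nat_lit 49) (.e (nat_lit 778317) (nat_lit 3) (.e (nat_lit 57476) (nat_lit 28) (.e (nat_lit 557107) (nat_lit 15) (.e (nat_lit 188439) (nat_lit 20) .nil))))))) (.g (nat_lit 5) .nil .nil)))))) (.nd (nat_lit 4) (.nd (nat_lit 5) (.nd (nat_lit 6) 
(.lf (nat_lit 100360) (.g (nat_lit 2938) (.e (nat_lit 3249) (nat_lit 197) (.e (nat_lit 532550) (nat_lit 12) (.e (nat_lit 360475) (nat_lit 8) (.e (nat_lit 557089) (nat_lit 12) (.e (nat_lit 163849) (nat_lit 0) .nil))))) .nil)) 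
(.lf (nat_lit 100424) (.g (nat_lit 1159) (.e (nat_lit 3251) (nat_lit 197) (.e (nat_lit 532511) (nat_lit 2) (.e (nat_lit 106536) (nat_lit 11) (.e (nat_lit 16417) (nat_lit 3) (.e (nat_lit 204876) (nat_lit 31) (.e (nat_lit 376835) (nat_lit 0) .nil)))))) (.g (nat_lit 4) .nil .nil)))) (.nd (nat_lit 6) 
(.lf (nat_lit 100392) (.g (nat_lit 3296) (.e (nat_lit 3250) (nat_lit 197) (.e (nat_lit 532504) (nat_lit 1) (.e (nat_lit 57931) (nat_lit 282) (.e (nat_lit 163869) (nat_lit 2) (.e (nat_lit 196670) (nat_lit 14) .nil))))) .nil)) 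
(.lf (nat_lit 100456) (.g (nat_lit 2220) (.e (nat_lit 3251) (nat_lit 197) (.e (nat_lit 532563) (nat_lit 15) (.e (nat_lit 385094) (nat_lit 49) (.e (nat_lit 778317) (nat_lit 3) (.e (nat_lit 57480) (nat_lit 28) .nil))))) .nil)))) (.nd (nat_lit 5) (.nd (nat_lit 6) 
(.lf (nat_lit 100376) (.g (nat_lit 2685) (.e (nat_lit 3250) (nat_lit 197) (.e (nat_lit 532499) (nat_lit 1) (.e (nat_lit 57927) (nat_lit 282) (.e (nat_lit 163874) (nat_lit 3) (.e (nat_lit 204851) (nat_lit 26) .nil))))) .nil)) 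
(.lf (nat_lit 100440) (.g (nat_lit 2453) (.e (nat_lit 3251) (nat_lit 197) (.e (nat_lit 532549) (nat_lit 12) (.e (nat_lit 360475) (nat_lit 8) (.e (nat_lit 557091) (nat_lit 12) .nil)))) .nil))) (.nd (nat_lit 6) 
(.lf (nat_lit 100408) (.g (nat_lit 4298) (.e (nat_lit 3251) (nat_lit 197) (.e (nat_lit 532499) (nat_lit 1) (.e (nat_lit 57847) (nat_lit 252) (.e (nat_lit 57411) (nat_lit 12) (.e (nat_lit 336454) (nat_lit 34) (.e (nat_lit 483385) (nat_lit 23) (.e (nat_lit 336260) (nat_lit 15) .nil))))))) (.g (nat_lit 6) .nil .nil))) 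
(.lf (nat_lit 100472) (.g (nat_lit 1796) (.e (nat_lit 3252) (nat_lit 197) (.e (nat_lit 532500) (nat_lit 1) (.e (nat_lit 57851) (nat_lit 252) (.e (nat_lit 57406) (nat_lit 12) .nil)))) .nil)))))) (.nd (nat_lit 3) (.nd (nat_lit 4) (.nd (nat_lit 5) (.nd (nat_lit 6) 
(.lf (nat_lit 100356) (.g (nat_lit 1494) (.e (nat_lit 3249) (nat_lit 197) (.e (nat_lit 532550) (nat_lit 12) (.e (nat_lit 360474) (nat_lit 8) (.e (nat_lit 557072) (nat_lit 9) .nil)))) .nil)) 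
(.lf (nat_lit 100420) (.g (nat_lit 1882) (.e (nat_lit 3251) (nat_lit 197) (.e (nat_lit 532504) (nat_lit 1) (.e (nat_lit 57852) (nat_lit 252) (.e (nat_lit 57445) (nat_lit 19) (.e (nat_lit 393229) (nat_lit 9) .nil))))) .nil))) (.nd (nat_lit 6) 
(.lf (nat_lit 100388) (.g (nat_lit 2117) (.e (nat_lit 3250) (nat_lit 197) (.e (nat_lit 532504) (nat_lit 1) (.e (nat_lit 57851) (nat_lit 252) (.e (nat_lit 57445) (nat_lit 19) .nil)))) .nil)) 
(.lf (nat_lit 100452) (.g (nat_lit 2246) (.e (nat_lit 3251) (nat_lit 197) (.e (nat_lit 532563) (nat_lit 15) (.e (nat_lit 385094) (nat_lit 49) (.e (nat_lit 778317) (nat_lit 3) (.e (nat_lit 57477) (nat_lit 28) .nil))))) .nil)))) (.nd (nat_lit 5) (.nd (nat_lit 6) 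
(.lf (nat_lit 100372) (.g (nat_lit 2385) (.e (nat_lit 3250) (nat_lit 197) (.e (nat_lit 532499) (nat_lit 1) (.e (nat_lit 57926) (nat_lit 282) (.e (nat_lit 163869) (nat_lit 2) (.e (nat_lit 196668) (nat_lit 14) .nil))))) .nil)) 
(.lf (nat_lit 100436) (.g (nat_lit 2152) (.e (nat_lit 3251) (nat_lit 197) (.e (nat_lit 532535) (nat_lit 9) (.e (nat_lit 336176) (nat_lit 10) .nil))) .nil))) (.nd (nat_lit 6) 
(.lf (nat_lit 100404) (.g (nat_lit 4494) (.e (nat_lit 3250) (nat_lit 197) (.e (nat_lit 532563) (nat_lit 15) (.e (nat_lit 385094) (nat_lit 49) (.e (nat_lit 778317) (nat_lit 3) (.e (nat_lit 57480) (nat_lit 28) (.e (nat_lit 557109) (nat_lit 15) (.e (nat_lit 188433) (nat_lit 20) .nil))))))) (.g (nat_lit 6) .nil .nil))) 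
(.lf (nat_lit 100468) (.g (nat_lit 1859) (.e (nat_lit 3252) (nat_lit 197) (.e (nat_lit 532499) (nat_lit 1) (.e (nat_lit 57847) (nat_lit 252) (.e (nat_lit 57446) (nat_lit 19) (.e (nat_lit 393229) (nat_lit 9) (.e (nat_lit 336087) (nat_lit 9) (.e (nat_lit 336303) (nat_lit 15) .nil))))))) (.g (nat_lit 4) .nil .nil)))))) (.nd (nat_lit 4) (.nd (nat_lit 5) (.nd (nat_lit 6) 
(.lf (nat_lit 100364) (.g (nat_lit 3874) (.e (nat_lit 3249) (nat_lit 197) (.e (nat_lit 532550) (nat_lit 12) (.e (nat_lit 360475) (nat_lit 8) (.e (nat_lit 557094) (nat_lit 12) .nil)))) .nil)) 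
(.lf (nat_lit 100428) (.g (nat_lit 2750) (.e (nat_lit 3251) (nat_lit 197) (.e (nat_lit 532523) (nat_lit 7) (.e (nat_lit 319530) (nat_lit 16) (.e (nat_lit 286733) (nat_lit 2) (.e (nat_lit 90178) (nat_lit 15) .nil))))) .nil))) (.nd (nat_lit 6) 
(.lf (nat_lit 100396) (.g (nat_lit 2832) (.e (nat_lit 3250) (nat_lit 197) (.e (nat_lit 532522) (nat_lit 7) (.e (nat_lit 319531) (nat_lit 16) (.e (nat_lit 286733) (nat_lit 2) (.e (nat_lit 90178) (nat_lit 15) .nil))))) .nil)) 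
(.lf (nat_lit 100460) (.g (nat_lit 3081) (.e (nat_lit 3251) (nat_lit 197) (.e (nat_lit 532563) (nat_lit 15) (.e (nat_lit 385094) (nat_lit 49) (.e (nat_lit 778317) (nat_lit 3) (.e (nat_lit 57480) (nat_lit 28) (.e (nat_lit 557109) (nat_lit 15) (.e (nat_lit 188424) (nat_lit 20) .nil))))))) (.g (nat_lit 4) .nil .nil))))) (.nd (nat_lit 5) (.nd (nat_lit 6) 
(.lf (nat_lit 100380) (.g (nat_lit 2376) (.e (nat_lit 3250) (nat_lit 197) (.e (nat_lit 532501) (nat_lit 1) (.e (nat_lit 57927) (nat_lit 282) (.e (nat_lit 163869) (nat_lit 2) (.e (nat_lit 196670) (nat_lit 14) .nil))))) .nil)) 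
(.lf (nat_lit 100444) (.g (nat_lit 4661) (.e (nat_lit 3251) (nat_lit 197) (.e (nat_lit 532550) (nat_lit 12) (.e (nat_lit 360475) (nat_lit 8) (.e (nat_lit 557085) (nat_lit 11) .nil)))) .nil))) (.nd (nat_lit 6) 
(.lf (nat_lit 100412) (.g (nat_lit 2345) (.e (nat_lit 3251) (nat_lit 197) (.e (nat_lit 532499) (nat_lit 1) (.e (nat_lit 57849) (nat_lit 252) (.e (nat_lit 57407) (nat_lit 12) (.e (nat_lit 336454) (nat_lit 34) (.e (nat_lit 483385) (nat_lit 23) (.e (nat_lit 336260) (nat_lit 15) .nil))))))) (.g (nat_lit 4) .nil .nil))) 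
(.lf (nat_lit 100476) (.g (nat_lit 1628) (.e (nat_lit 3252) (nat_lit 197) (.e (nat_lit 532501) (nat_lit 1) (.e (nat_lit 57851) (nat_lit 252) (.e (nat_lit 57445) (nat_lit 19) (.e (nat_lit 393229) (nat_lit 9) (.e (nat_lit 336088) (nat_lit 9) (.e (nat_lit 336259) (nat_lit 15) .nil))))))) (.g (nat_lit 4) .nil .nil)))))))) 
(.nd (nat_lit 2) (.nd (nat_lit 3) (.nd (nat_lit 4) (.nd (nat_lit 5) (.nd (nat_lit 6) 
(.lf (nat_lit 100354) (.g (nat_lit 2478) (.e (nat_lit 3249) (nat_lit 197) (.e (nat_lit 532550) (nat_lit 12) (.e (nat_lit 360474) (nat_lit 8) (.e (nat_lit 557070) (nat_lit 9) (.e (nat_lit 7936) (nat_lit 22) (.e (nat_lit 344066) (nat_lit 0) (.e (nat_lit 2508) (nat_lit 157) .nil))))))) (.g (nat_lit 4) .nil .nil))) 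
(.lf (nat_lit 100418) (.g (nat_lit 2779) (.e (nat_lit 3251) (nat_lit 197) (.e (nat_lit 532503) (nat_lit 1) (.e (nat_lit 57931) (nat_lit 282) (.e (nat_lit 163869) (nat_lit 2) (.e (nat_lit 196668) (nat_lit 14) .nil))))) .nil))) (.nd (nat_lit 6) 
(.lf (nat_lit 100386) (.g (nat_lit 2501) (.e (nat_lit 3250) (nat_lit 197) (.e (nat_lit 532503) (nat_lit 1) (.e (nat_lit 57931) (nat_lit 282) (.e (nat_lit 163874) (nat_lit 3) (.e (nat_lit 204873) (nat_lit 30) .nil))))) .nil)) 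
(.lf (nat_lit 100450) (.g (nat_lit 3378) (.e (nat_lit 3251) (nat_lit 197) (.e (nat_lit 532563) (nat_lit 15) (.e (nat_lit 385094) (nat_lit 49) (.e (nat_lit 778317) (nat_lit 3) (.e (nat_lit 57476) (nat_lit 28) (.e (nat_lit 557108) (nat_lit 15) (.e (nat_lit 188434) (nat_lit 20) .nil))))))) (.g (nat_lit 5) .nil .nil))))) (.nd (nat_lit 5) (.nd (nat_lit 6) 
(.lf (nat_lit 100370) (.g (nat_lit 2482) (.e (nat_lit 3250) (nat_lit 197) (.e (nat_lit 532499) (nat_lit 1) (.e (nat_lit 57847) (nat_lit 252) (.e (nat_lit 57445) (nat_lit 19) .nil)))) .nil)) 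
(.lf (nat_lit 100434) (.g (nat_lit 3006) (.e (nat_lit 3251) (nat_lit 197) (.e (nat_lit 532535) (nat_lit 9) (.e (nat_lit 336099) (nat_lit 9) (.e (nat_lit 336013) (nat_lit 2) .nil)))) .nil))) (.nd (nat_lit 6) 
(.lf (nat_lit 100402) (.g (nat_lit 5116) (.e (nat_lit 3250) (nat_lit 197) (.e (nat_lit 532550) (nat_lit 12) (.e (nat_lit 360474) (nat_lit 8) (.e (nat_lit 557093) (nat_lit 12) (.e (nat_lit 164023) (nat_lit 46) .nil))))) .nil)) 
(.lf (nat_lit 100466) (.g (nat_lit 2594) (.e (nat_lit 3252) (nat_lit 197) (.e (nat_lit 532499) (nat_lit 1) (.e (nat_lit 57847) (nat_lit 252) (.e (nat_lit 57445) (nat_lit 19) (.e (nat_lit 393229) (nat_lit 9) .nil))))) .nil))))) (.nd (nat_lit 4) (.nd (nat_lit 5) (.nd (nat_lit 6) 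
(.lf (nat_lit 100362) (.g (nat_lit 2837) (.e (nat_lit 3249) (nat_lit 197) (.e (nat_lit 532550) (nat_lit 12) (.e (nat_lit 360475) (nat_lit 8) (.e (nat_lit 557091) (nat_lit 12) (.e (nat_lit 171776) (nat_lit 48) .nil))))) .nil)) 
(.lf (nat_lit 100426) (.g (nat_lit 1548) (.e (nat_lit 3251) (nat_lit 197) (.e (nat_lit 532515) (nat_lit 3) (.e (nat_lit 114712) (nat_lit 21) (.e (nat_lit 57692) (nat_lit 156) (.e (nat_lit 163869) (nat_lit 2) .nil))))) .nil))) (.nd (nat_lit 6) 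
(.lf (nat_lit 100394) (.g (nat_lit 3352) (.e (nat_lit 3250) (nat_lit 197) (.e (nat_lit 532522) (nat_lit 7) (.e (nat_lit 319530) (nat_lit 16) (.e (nat_lit 286733) (nat_lit 2) (.e (nat_lit 90169) (nat_lit 13) (.e (nat_lit 172103) (nat_lit 9) (.e (nat_lit 426009) (nat_lit 0) .nil))))))) (.g (nat_lit 6) .nil .nil))) 
(.lf (nat_lit 100458) (.g (nat_lit 2456) (.e (nat_lit 3251) (nat_lit 197) (.e (nat_lit 532563) (nat_lit 15) (.e (nat_lit 385094) (nat_lit 49) (.e (nat_lit 778317) (nat_lit 3) (.e (nat_lit 57480) (nat_lit 28) (.e (nat_lit 557107) (nat_lit 15) (.e (nat_lit 188440) (nat_lit 20) .nil))))))) (.g (nat_lit 4) .nil .nil))))) (.nd (nat_lit 5) (.nd (nat_lit 6) 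
(.lf (nat_lit 100378) (.g (nat_lit 1442) (.e (nat_lit 3250) (nat_lit 197) (.e (nat_lit 532501) (nat_lit 1) (.e (nat_lit 57851) (nat_lit 252) .nil))) .nil)) 
(.lf (nat_lit 100442) (.g (nat_lit 5617) (.e (nat_lit 3251) (nat_lit 197) (.e (nat_lit 532550) (nat_lit 12) (.e (nat_lit 360474) (nat_lit 8) (.e (nat_lit 557091) (nat_lit 12) .nil)))) .nil))) (.nd (nat_lit 6) 
(.lf (nat_lit 100410) (.g (nat_lit 1191) (.e (nat_lit 3251) (nat_lit 197) (.e (nat_lit 532499) (nat_lit 1) (.e (nat_lit 57847) (nat_lit 252) (.e (nat_lit 57446) (nat_lit 19) .nil)))) .nil)) 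
(.lf (nat_lit 100474) (.g (nat_lit 1553) (.e (nat_lit 3252) (nat_lit 197) (.e (nat_lit 532501) (nat_lit 1) (.e (nat_lit 57851) (nat_lit 252) (.e (nat_lit 57406) (nat_lit 12) (.e (nat_lit 336456) (nat_lit 34) .nil))))) .nil)))))) (.nd (nat_lit 3) (.nd (nat_lit 4) (.nd (nat_lit 5) (.nd (nat_lit 6) 
(.lf (nat_lit 100358) (.g (nat_lit 1474) (.e (nat_lit 3249) (nat_lit 197) (.e (nat_lit 532550) (nat_lit 12) (.e (nat_lit 360474) (nat_lit 8) (.e (nat_lit 557073) (nat_lit 9) .nil)))) .nil)) 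
(.lf (nat_lit 100422) (.g (nat_lit 1115) (.e (nat_lit 3251) (nat_lit 197) (.e (nat_lit 532510) (nat_lit 2) (.e (nat_lit 106536) (nat_lit 11) (.e (nat_lit 16417) (nat_lit 3) (.e (nat_lit 204876) (nat_lit 31) (.e (nat_lit 376835) (nat_lit 0) .nil)))))) (.g (nat_lit 4) .nil .nil)))) (.nd (nat_lit 6) 
(.lf (nat_lit 100390) (.g (nat_lit 3035) (.e (nat_lit 3250) (nat_lit 197) (.e (nat_lit 532504) (nat_lit 1) (.e (nat_lit 57931) (nat_lit 282) (.e (nat_lit 163869) (nat_lit 2) (.e (nat_lit 196666) (nat_lit 13) .nil))))) .nil)) 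
(.lf (nat_lit 100454) (.g (nat_lit 3215) (.e (nat_lit 3251) (nat_lit 197) (.e (nat_lit 532563) (nat_lit 15) (.e (nat_lit 385094) (nat_lit 49) (.e (nat_lit 778317) (nat_lit 3) (.e (nat_lit 57477) (nat_lit 28) (.e (nat_lit 557108) (nat_lit 15) (.e (nat_lit 188434) (nat_lit 20) .nil))))))) (.g (nat_lit 5) .nil .nil))))) (.nd (nat_lit 5) (.nd (nat_lit 6) 
(.lf (nat_lit 100374) (.g (nat_lit 2163) (.e (nat_lit 3250) (nat_lit 197) (.e (nat_lit 532499) (nat_lit 1) (.e (nat_lit 57927) (nat_lit 282) (.e (nat_lit 163869) (nat_lit 2) (.e (nat_lit 196668) (nat_lit 14) .nil))))) .nil)) 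
(.lf (nat_lit 100438) (.g (nat_lit 2527) (.e (nat_lit 3251) (nat_lit 197) (.e (nat_lit 532549) (nat_lit 12) (.e (nat_lit 360473) (nat_lit 8) (.e (nat_lit 557091) (nat_lit 12) (.e (nat_lit 164022) (nat_lit 46) .nil))))) .nil))) (.nd (nat_lit 6) 
(.lf (nat_lit 100406) (.g (nat_lit 2372) (.e (nat_lit 3251) (nat_lit 197) (.e (nat_lit 532499) (nat_lit 1) (.e (nat_lit 57847) (nat_lit 252) (.e (nat_lit 57408) (nat_lit 12) .nil)))) .nil)) 
(.lf (nat_lit 100470) (.g (nat_lit 2943) (.e (nat_lit 3252) (nat_lit 197) (.e (nat_lit 532499) (nat_lit 1) (.e (nat_lit 57847) (nat_lit 252) (.e (nat_lit 57447) (nat_lit 19) (.e (nat_lit 393229) (nat_lit 9) .nil))))) .nil))))) (.nd (nat_lit 4) (.nd (nat_lit 5) (.nd (nat_lit 6) 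
(.lf (nat_lit 100366) (.g (nat_lit 1499) (.e (nat_lit 3249) (nat_lit 197) (.e (nat_lit 532563) (nat_lit 15) (.e (nat_lit 385066) (nat_lit 26) (.e (nat_lit 532532) (nat_lit 9) .nil)))) .nil)) 
(.lf (nat_lit 100430) (.g (nat_lit 1738) (.e (nat_lit 3251) (nat_lit 197) (.e (nat_lit 532523) (nat_lit 7) (.e (nat_lit 319531) (nat_lit 16) (.e (nat_lit 286733) (nat_lit 2) .nil)))) .nil))) (.nd (nat_lit 6) 
(.lf (nat_lit 100398) (.g (nat_lit 2723) (.e (nat_lit 3250) (nat_lit 197) (.e (nat_lit 532523) (nat_lit 7) (.e (nat_lit 319530) (nat_lit 16) (.e (nat_lit 286733) (nat_lit 2) (.e (nat_lit 90178) (nat_lit 15) .nil))))) .nil)) 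
(.lf (nat_lit 100462) (.g (nat_lit 3441) (.e (nat_lit 3251) (nat_lit 197) (.e (nat_lit 532563) (nat_lit 15) (.e (nat_lit 385094) (nat_lit 49) (.e (nat_lit 778317) (nat_lit 3) (.e (nat_lit 57480) (nat_lit 28) (.e (nat_lit 557109) (nat_lit 15) (.e (nat_lit 188443) (nat_lit 20) .nil))))))) (.g (nat_lit 5) .nil .nil))))) (.nd (nat_lit 5) (.nd (nat_lit 6) 
(.lf (nat_lit 100382) (.g (nat_lit 2309) (.e (nat_lit 3250) (nat_lit 197) (.e (nat_lit 532503) (nat_lit 1) (.e (nat_lit 57931) (nat_lit 282) (.e (nat_lit 163867) (nat_lit 2) (.e (nat_lit 196663) (nat_lit 13) .nil))))) .nil)) 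
(.lf (nat_lit 100446) (.g (nat_lit 4308) (.e (nat_lit 3251) (nat_lit 197) (.e (nat_lit 532550) (nat_lit 12) (.e (nat_lit 360475) (nat_lit 8) (.e (nat_lit 557091) (nat_lit 12) .nil)))) .nil))) (.nd (nat_lit 6) 
(.lf (nat_lit 100414) (.g (nat_lit 650) (.e (nat_lit 3251) (nat_lit 197) (.e (nat_lit 532500) (nat_lit 1) (.e (nat_lit 57851) (nat_lit 252) .nil))) .nil)) 
(.lf (nat_lit 100478) (.g (nat_lit 743) (.e (nat_lit 3252) (nat_lit 197) (.e (nat_lit 532504) (nat_lit 1) (.e (nat_lit 57851) (nat_lit 252) .nil))) .nil)))))))) (.nd (nat_lit 1) (.nd (nat_lit 2) (.nd (nat_lit 3) (.nd (nat_lit 4) (.nd (nat_lit 5) (.nd (nat_lit 6) 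
(.lf (nat_lit 100353) (.g (nat_lit 2551) (.e (nat_lit 3249) (nat_lit 197) (.e (nat_lit 532550) (nat_lit 12) (.e (nat_lit 360474) (nat_lit 8) (.e (nat_lit 557070) (nat_lit 9) (.e (nat_lit 296) (nat_lit 22) (.e (nat_lit 344067) (nat_lit 0) (.e (nat_lit 2508) (nat_lit 157) .nil))))))) (.g (nat_lit 4) .nil .nil))) 
(.lf (nat_lit 100417) (.g (nat_lit 1619) (.e (nat_lit 3251) (nat_lit 197) (.e (nat_lit 532501) (nat_lit 1) (.e (nat_lit 57851) (nat_lit 252) (.e (nat_lit 57445) (nat_lit 19) (.e (nat_lit 393229) (nat_lit 9) (.e (nat_lit 336088) (nat_lit 9) (.e (nat_lit 336257) (nat_lit 15) .nil))))))) (.g (nat_lit 4) .nil .nil)))) (.nd (nat_lit 6) 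
(.lf (nat_lit 100385) (.g (nat_lit 2566) (.e (nat_lit 3250) (nat_lit 197) (.e (nat_lit 532503) (nat_lit 1) (.e (nat_lit 57931) (nat_lit 282) (.e (nat_lit 163874) (nat_lit 3) (.e (nat_lit 204872) (nat_lit 30) .nil))))) .nil)) 
(.lf (nat_lit 100449) (.g (nat_lit 2780) (.e (nat_lit 3251) (nat_lit 197) (.e (nat_lit 532563) (nat_lit 15) (.e (nat_lit 385094) (nat_lit 49) (.e (nat_lit 778317) (nat_lit 3) (.e (nat_lit 57476) (nat_lit 28) (.e (nat_lit 557107) (nat_lit 15) (.e (nat_lit 188439) (nat_lit 20) .nil))))))) (.g (nat_lit 4) .nil .nil))))) (.nd (nat_lit 5) (.nd (nat_lit 6) 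
(.lf (nat_lit 100369) (.g (nat_lit 3910) (.e (nat_lit 3250) (nat_lit 197) (.e (nat_lit 532499) (nat_lit 1) (.e (nat_lit 57847) (nat_lit 252) (.e (nat_lit 57408) (nat_lit 12) .nil)))) .nil)) 
(.lf (nat_lit 100433) (.g (nat_lit 1690) (.e (nat_lit 3251) (nat_lit 197) (.e (nat_lit 532523) (nat_lit 7) (.e (nat_lit 319534) (nat_lit 16) (.e (nat_lit 286734) (nat_lit 3) .nil)))) .nil))) (.nd (nat_lit 6) 
(.lf (nat_lit 100401) (.g (nat_lit 2783) (.e (nat_lit 3250) (nat_lit 197) (.e (nat_lit 532523) (nat_lit 7) (.e (nat_lit 319534) (nat_lit 16) (.e (nat_lit 286733) (nat_lit 2) (.e (nat_lit 90169) (nat_lit 13) .nil))))) .nil)) 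
(.lf (nat_lit 100465) (.g (nat_lit 1976) (.e (nat_lit 3252) (nat_lit 197) (.e (nat_lit 532484) (nat_lit 0) (.e (nat_lit 2031) (nat_lit 140) (.e (nat_lit 688177) (nat_lit 16) (.e (nat_lit 65571) (nat_lit 3) .nil))))) .nil))))) (.nd (nat_lit 4) (.nd (nat_lit 5) (.nd (nat_lit 6) 
(.lf (nat_lit 100361) (.g (nat_lit 3116) (.e (nat_lit 3249) (nat_lit 197) (.e (nat_lit 532550) (nat_lit 12) (.e (nat_lit 360475) (nat_lit 8) (.e (nat_lit 557089) (nat_lit 12) (.e (nat_lit 171776) (nat_lit 48) .nil))))) .nil)) 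
(.lf (nat_lit 100425) (.g (nat_lit 1153) (.e (nat_lit 3251) (nat_lit 197) (.e (nat_lit 532511) (nat_lit 2) (.e (nat_lit 106536) (nat_lit 11) (.e (nat_lit 16417) (nat_lit 3) (.e (nat_lit 204877) (nat_lit 31) (.e (nat_lit 376835) (nat_lit 0) .nil)))))) (.g (nat_lit 4) .nil .nil)))) (.nd (nat_lit 6) 
(.lf (nat_lit 100393) (.g (nat_lit 2768) (.e (nat_lit 3250) (nat_lit 197) (.e (nat_lit 532504) (nat_lit 1) (.e (nat_lit 57931) (nat_lit 282) (.e (nat_lit 163874) (nat_lit 3) (.e (nat_lit 204854) (nat_lit 26) .nil))))) .nil)) 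
(.lf (nat_lit 100457) (.g (nat_lit 3199) (.e (nat_lit 3251) (nat_lit 197) (.e (nat_lit 532563) (nat_lit 15) (.e (nat_lit 385094) (nat_lit 49) (.e (nat_lit 778317) (nat_lit 3) (.e (nat_lit 57480) (nat_lit 28) (.e (nat_lit 557107) (nat_lit 15) (.e (nat_lit 188439) (nat_lit 20) .nil))))))) (.g (nat_lit 5) .nil .nil))))) (.nd (nat_lit 5) (.nd (nat_lit 6) 
(.lf (nat_lit 100377) (.g (nat_lit 2803) (.e (nat_lit 3250) (nat_lit 197) (.e (nat_lit 532499) (nat_lit 1) (.e (nat_lit 57927) (nat_lit 282) (.e (nat_lit 163874) (nat_lit 3) (.e (nat_lit 204853) (nat_lit 26) .nil))))) .nil)) 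
(.lf (nat_lit 100441) (.g (nat_lit 4280) (.e (nat_lit 3251) (nat_lit 197) (.e (nat_lit 532550) (nat_lit 12) (.e (nat_lit 360474) (nat_lit 8) (.e (nat_lit 557085) (nat_lit 11) .nil)))) .nil))) (.nd (nat_lit 6) 
(.lf (nat_lit 100409) (.g (nat_lit 2408) (.e (nat_lit 3251) (nat_lit 197) (.e (nat_lit 532499) (nat_lit 1) (.e (nat_lit 57847) (nat_lit 252) (.e (nat_lit 57445) (nat_lit 19) .nil)))) .nil)) 
(.lf (nat_lit 100473) (.g (nat_lit 930) (.e (nat_lit 3252) (nat_lit 197) (.e (nat_lit 532501) (nat_lit 1) (.e (nat_lit 57730) (nat_lit 181) .nil))) .nil)))))) (.nd (nat_lit 3) (.nd (nat_lit 4) (.nd (nat_lit 5) (.nd (nat_lit 6) 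
(.lf (nat_lit 100357) (.g (nat_lit 2444) (.e (nat_lit 3249) (nat_lit 197) (.e (nat_lit 532550) (nat_lit 12) (.e (nat_lit 360474) (nat_lit 8) (.e (nat_lit 557072) (nat_lit 9) (.e (nat_lit 290) (nat_lit 21) (.e (nat_lit 336231) (nat_lit 14) (.e (nat_lit 401418) (nat_lit 0) .nil))))))) (.g (nat_lit 4) .nil .nil))) 
(.lf (nat_lit 100421) (.g (nat_lit 2062) (.e (nat_lit 3251) (nat_lit 197) (.e (nat_lit 532504) (nat_lit 1) (.e (nat_lit 57852) (nat_lit 252) (.e (nat_lit 57445) (nat_lit 19) (.e (nat_lit 393229) (nat_lit 9) (.e (nat_lit 336086) (nat_lit 9) (.e (nat_lit 336260) (nat_lit 15) .nil))))))) (.g (nat_lit 4) .nil .nil)))) (.nd (nat_lit 6) 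
(.lf (nat_lit 100389) (.g (nat_lit 2592) (.e (nat_lit 3250) (nat_lit 197) (.e (nat_lit 532504) (nat_lit 1) (.e (nat_lit 57929) (nat_lit 282) (.e (nat_lit 163869) (nat_lit 2) (.e (nat_lit 196668) (nat_lit 14) .nil))))) .nil)) 
(.lf (nat_lit 100453) (.g (nat_lit 2752) (.e (nat_lit 3251) (nat_lit 197) (.e (nat_lit 532563) (nat_lit 15) (.e (nat_lit 385094) (nat_lit 49) (.e (nat_lit 778317) (nat_lit 3) (.e (nat_lit 57477) (nat_lit 28) (.e (nat_lit 557107) (nat_lit 15) (.e (nat_lit 188439) (nat_lit 20) .nil))))))) (.g (nat_lit 4) .nil .nil))))) (.nd (nat_lit 5) (.nd (nat_lit 6) 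
(.lf (nat_lit 100373) (.g (nat_lit 2097) (.e (nat_lit 3250) (nat_lit 197) (.e (nat_lit 532499) (nat_lit 1) (.e (nat_lit 57927) (nat_lit 282) (.e (nat_lit 163868) (nat_lit 2) (.e (nat_lit 196663) (nat_lit 13) .nil))))) .nil)) 
(.lf (nat_lit 100437) (.g (nat_lit 1683) (.e (nat_lit 3251) (nat_lit 197) (.e (nat_lit 532547) (nat_lit 11) (.e (nat_lit 352315) (nat_lit 23) (.e (nat_lit 98350) (nat_lit 24) .nil)))) .nil))) (.nd (nat_lit 6) 
(.lf (nat_lit 100405) (.g (nat_lit 4862) (.e (nat_lit 3251) (nat_lit 197) (.e (nat_lit 532499) (nat_lit 1) (.e (nat_lit 57847) (nat_lit 252) (.e (nat_lit 57407) (nat_lit 12) (.e (nat_lit 336454) (nat_lit 34) (.e (nat_lit 483385) (nat_lit 23) (.e (nat_lit 336260) (nat_lit 15) .nil))))))) (.g (nat_lit 6) .nil .nil))) 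
(.lf (nat_lit 100469) (.g (nat_lit 1685) (.e (nat_lit 3252) (nat_lit 197) (.e (nat_lit 532499) (nat_lit 1) (.e (nat_lit 57847) (nat_lit 252) (.e (nat_lit 57446) (nat_lit 19) (.e (nat_lit 401152) (nat_lit 11) (.e (nat_lit 360192) (nat_lit 0) .nil)))))) (.g (nat_lit 4) .nil .nil)))))) (.nd (nat_lit 4) (.nd (nat_lit 5) (.nd (nat_lit 6) 
(.lf (nat_lit 100365) (.g (nat_lit 2132) (.e (nat_lit 3249) (nat_lit 197) (.e (nat_lit 532561) (nat_lit 14) (.e (nat_lit 376865) (nat_lit 22) (.e (nat_lit 90185) (nat_lit 17) (.e (nat_lit 237585) (nat_lit 1) .nil))))) .nil)) 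
(.lf (nat_lit 100429) (.g (nat_lit 3257) (.e (nat_lit 3251) (nat_lit 197) (.e (nat_lit 532523) (nat_lit 7) (.e (nat_lit 319530) (nat_lit 16) (.e (nat_lit 286733) (nat_lit 2) (.e (nat_lit 90178) (nat_lit 15) (.e (nat_lit 188441) (nat_lit 20) .nil)))))) (.g (nat_lit 4) .nil .nil)))) (.nd (nat_lit 6) 
(.lf (nat_lit 100397) (.g (nat_lit 2758) (.e (nat_lit 3250) (nat_lit 197) (.e (nat_lit 532523) (nat_lit 7) (.e (nat_lit 319530) (nat_lit 16) (.e (nat_lit 286733) (nat_lit 2) (.e (nat_lit 90169) (nat_lit 13) .nil))))) .nil)) 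
(.lf (nat_lit 100461) (.g (nat_lit 4780) (.e (nat_lit 3251) (nat_lit 197) (.e (nat_lit 532563) (nat_lit 15) (.e (nat_lit 385094) (nat_lit 49) (.e (nat_lit 778317) (nat_lit 3) (.e (nat_lit 57480) (nat_lit 28) (.e (nat_lit 557109) (nat_lit 15) (.e (nat_lit 188434) (nat_lit 20) .nil))))))) (.g (nat_lit 6) .nil .nil))))) (.nd (nat_lit 5) (.nd (nat_lit 6) 
(.lf (nat_lit 100381) (.g (nat_lit 2269) (.e (nat_lit 3250) (nat_lit 197) (.e (nat_lit 532503) (nat_lit 1) (.e (nat_lit 57931) (nat_lit 282) (.e (nat_lit 163866) (nat_lit 2) (.e (nat_lit 196668) (nat_lit 14) .nil))))) .nil)) 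
(.lf (nat_lit 100445) (.g (nat_lit 4701) (.e (nat_lit 3251) (nat_lit 197) (.e (nat_lit 532550) (nat_lit 12) (.e (nat_lit 360475) (nat_lit 8) (.e (nat_lit 557089) (nat_lit 12) .nil)))) .nil))) (.nd (nat_lit 6) 
(.lf (nat_lit 100413) (.g (nat_lit 1866) (.e (nat_lit 3251) (nat_lit 197) (.e (nat_lit 532499) (nat_lit 1) (.e (nat_lit 57849) (nat_lit 252) (.e (nat_lit 57411) (nat_lit 12) (.e (nat_lit 336454) (nat_lit 34) (.e (nat_lit 483385) (nat_lit 23) (.e (nat_lit 336260) (nat_lit 15) .nil))))))) (.g (nat_lit 4) .nil .nil))) 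
(.lf (nat_lit 100477) (.g (nat_lit 1615) (.e (nat_lit 3252) (nat_lit 197) (.e (nat_lit 532501) (nat_lit 1) (.e (nat_lit 57851) (nat_lit 252) (.e (nat_lit 57445) (nat_lit 19) (.e (nat_lit 393229) (nat_lit 9) (.e (nat_lit 336088) (nat_lit 9) (.e (nat_lit 336261) (nat_lit 15) .nil))))))) (.g (nat_lit 4) .nil .nil)))))))) 
(.nd (nat_lit 2) (.nd (nat_lit 3) (.nd (nat_lit 4) (.nd (nat_lit 5) (.nd (nat_lit 6) 
(.lf (nat_lit 100355) (.g (nat_lit 2655) (.e (nat_lit 3249) (nat_lit 197) (.e (nat_lit 532550) (nat_lit 12) (.e (nat_lit 360474) (nat_lit 8) (.e (nat_lit 557070) (nat_lit 9) (.e (nat_lit 7936) (nat_lit 22) (.e (nat_lit 344067) (nat_lit 0) (.e (nat_lit 2508) (nat_lit 157) .nil))))))) (.g (nat_lit 4) .nil .nil))) 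
(.lf (nat_lit 100419) (.g (nat_lit 1417) (.e (nat_lit 3251) (nat_lit 197) (.e (nat_lit 532504) (nat_lit 1) (.e (nat_lit 57851) (nat_lit 252) (.e (nat_lit 57406) (nat_lit 12) (.e (nat_lit 336456) (nat_lit 34) .nil))))) .nil))) (.nd (nat_lit 6) 
(.lf (nat_lit 100387) (.g (nat_lit 1308) (.e (nat_lit 3250) (nat_lit 197) (.e (nat_lit 532504) (nat_lit 1) (.e (nat_lit 57851) (nat_lit 252) .nil))) .nil)) 
(.lf (nat_lit 100451) (.g (nat_lit 2723) (.e (nat_lit 3251) (nat_lit 197) (.e (nat_lit 532563) (nat_lit 15) (.e (nat_lit 385094) (nat_lit 49) (.e (nat_lit 778317) (nat_lit 3) (.e (nat_lit 57476) (nat_lit 28) (.e (nat_lit 557108) (nat_lit 15) (.e (nat_lit 188435) (nat_lit 20) .nil))))))) (.g (nat_lit 4) .nil .nil))))) (.nd (nat_lit 5) (.nd (nat_lit 6) 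
(.lf (nat_lit 100371) (.g (nat_lit 3810) (.e (nat_lit 3250) (nat_lit 197) (.e (nat_lit 532499) (nat_lit 1) (.e (nat_lit 57847) (nat_lit 252) (.e (nat_lit 57446) (nat_lit 19) .nil)))) .nil)) 
(.lf (nat_lit 100435) (.g (nat_lit 5447) (.e (nat_lit 3251) (nat_lit 197) (.e (nat_lit 532535) (nat_lit 9) (.e (nat_lit 336099) (nat_lit 9) (.e (nat_lit 336013) (nat_lit 2) (.e (nat_lit 90130) (nat_lit 9) .nil))))) .nil))) (.nd (nat_lit 6) 
(.lf (nat_lit 100403) (.g (nat_lit 3658) (.e (nat_lit 3250) (nat_lit 197) (.e (nat_lit 532563) (nat_lit 15) (.e (nat_lit 385094) (nat_lit 49) (.e (nat_lit 778317) (nat_lit 3) (.e (nat_lit 57476) (nat_lit 28) (.e (nat_lit 557108) (nat_lit 15) (.e (nat_lit 188433) (nat_lit 20) .nil))))))) (.g (nat_lit 5) .nil .nil))) 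
(.lf (nat_lit 100467) (.g (nat_lit 2627) (.e (nat_lit 3252) (nat_lit 197) (.e (nat_lit 532499) (nat_lit 1) (.e (nat_lit 57847) (nat_lit 252) (.e (nat_lit 57445) (nat_lit 19) (.e (nat_lit 393229) (nat_lit 9) (.e (nat_lit 336086) (nat_lit 9) (.e (nat_lit 336260) (nat_lit 15) .nil))))))) (.g (nat_lit 4) .nil .nil)))))) (.nd (nat_lit 4) (.nd (nat_lit 5) (.nd (nat_lit 6) 
(.lf (nat_lit 100363) (.g (nat_lit 4042) (.e (nat_lit 3249) (nat_lit 197) (.e (nat_lit 532550) (nat_lit 12) (.e (nat_lit 360475) (nat_lit 8) (.e (nat_lit 557093) (nat_lit 12) .nil)))) .nil)) 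
(.lf (nat_lit 100427) (.g (nat_lit 651) (.e (nat_lit 3251) (nat_lit 197) (.e (nat_lit 532523) (nat_lit 7) (.e (nat_lit 319530) (nat_lit 16) .nil))) .nil))) (.nd (nat_lit 6) 
(.lf (nat_lit 100395) (.g (nat_lit 3148) (.e (nat_lit 3250) (nat_lit 197) (.e (nat_lit 532522) (nat_lit 7) (.e (nat_lit 319531) (nat_lit 16) (.e (nat_lit 286733) (nat_lit 2) (.e (nat_lit 90169) (nat_lit 13) .nil))))) .nil)) 
(.lf (nat_lit 100459) (.g (nat_lit 2756) (.e (nat_lit 3251) (nat_lit 197) (.e (nat_lit 532563) (nat_lit 15) (.e (nat_lit 385094) (nat_lit 49) (.e (nat_lit 778317) (nat_lit 3) (.e (nat_lit 57480) (nat_lit 28) (.e (nat_lit 557107) (nat_lit 15) (.e (nat_lit 188441) (nat_lit 20) .nil))))))) (.g (nat_lit 4) .nil .nil))))) (.nd (nat_lit 5) (.nd (nat_lit 6) 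
(.lf (nat_lit 100379) (.g (nat_lit 2290) (.e (nat_lit 3250) (nat_lit 197) (.e (nat_lit 532501) (nat_lit 1) (.e (nat_lit 57926) (nat_lit 282) (.e (nat_lit 163869) (nat_lit 2) (.e (nat_lit 196670) (nat_lit 14) .nil))))) .nil)) 
(.lf (nat_lit 100443) (.g (nat_lit 4093) (.e (nat_lit 3251) (nat_lit 197) (.e (nat_lit 532550) (nat_lit 12) (.e (nat_lit 360474) (nat_lit 8) (.e (nat_lit 557094) (nat_lit 12) .nil)))) .nil))) (.nd (nat_lit 6) 
(.lf (nat_lit 100411) (.g (nat_lit 2400) (.e (nat_lit 3251) (nat_lit 197) (.e (nat_lit 532499) (nat_lit 1) (.e (nat_lit 57847) (nat_lit 252) (.e (nat_lit 57448) (nat_lit 19) .nil)))) .nil)) 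
(.lf (nat_lit 100475) (.g (nat_lit 1884) (.e (nat_lit 3252) (nat_lit 197) (.e (nat_lit 532501) (nat_lit 1) (.e (nat_lit 57851) (nat_lit 252) (.e (nat_lit 57445) (nat_lit 19) (.e (nat_lit 393229) (nat_lit 9) (.e (nat_lit 336088) (nat_lit 9) (.e (nat_lit 336257) (nat_lit 15) .nil))))))) (.g (nat_lit 4) .nil .nil))))))) (.nd (nat_lit 3) (.nd (nat_lit 4) (.nd (nat_lit 5) (.nd (nat_lit 6) 
(.lf (nat_lit 100359) (.g (nat_lit 2129) (.e (nat_lit 3249) (nat_lit 197) (.e (nat_lit 532550) (nat_lit 12) (.e (nat_lit 360474) (nat_lit 8) (.e (nat_lit 557073) (nat_lit 9) (.e (nat_lit 290) (nat_lit 21) (.e (nat_lit 336231) (nat_lit 14) (.e (nat_lit 401418) (nat_lit 0) .nil))))))) (.g (nat_lit 4) .nil .nil))) 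
(.lf (nat_lit 100423) (.g (nat_lit 1109) (.e (nat_lit 3251) (nat_lit 197) (.e (nat_lit 532510) (nat_lit 2) (.e (nat_lit 106536) (nat_lit 11) (.e (nat_lit 16417) (nat_lit 3) (.e (nat_lit 204877) (nat_lit 31) (.e (nat_lit 376835) (nat_lit 0) .nil)))))) (.g (nat_lit 4) .nil .nil)))) (.nd (nat_lit 6) 
(.lf (nat_lit 100391) (.g (nat_lit 3448) (.e (nat_lit 3250) (nat_lit 197) (.e (nat_lit 532504) (nat_lit 1) (.e (nat_lit 57931) (nat_lit 282) (.e (nat_lit 163869) (nat_lit 2) (.e (nat_lit 196668) (nat_lit 14) .nil))))) .nil)) 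
(.lf (nat_lit 100455) (.g (nat_lit 2550) (.e (nat_lit 3251) (nat_lit 197) (.e (nat_lit 532563) (nat_lit 15) (.e (nat_lit 385094) (nat_lit 49) (.e (nat_lit 778317) (nat_lit 3) (.e (nat_lit 57477) (nat_lit 28) (.e (nat_lit 557108) (nat_lit 15) (.e (nat_lit 188435) (nat_lit 20) .nil))))))) (.g (nat_lit 4) .nil .nil))))) (.nd (nat_lit 5) (.nd (nat_lit 6) 
(.lf (nat_lit 100375) (.g (nat_lit 1993) (.e (nat_lit 3250) (nat_lit 197) (.e (nat_lit 532499) (nat_lit 1) (.e (nat_lit 57927) (nat_lit 282) (.e (nat_lit 163871) (nat_lit 2) (.e (nat_lit 196670) (nat_lit 14) .nil))))) .nil)) 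
(.lf (nat_lit 100439) (.g (nat_lit 1698) (.e (nat_lit 3251) (nat_lit 197) (.e (nat_lit 532549) (nat_lit 12) (.e (nat_lit 360473) (nat_lit 8) (.e (nat_lit 557094) (nat_lit 12) .nil)))) .nil))) (.nd (nat_lit 6) 
(.lf (nat_lit 100407) (.g (nat_lit 2366) (.e (nat_lit 3251) (nat_lit 197) (.e (nat_lit 532499) (nat_lit 1) (.e (nat_lit 57847) (nat_lit 252) (.e (nat_lit 57411) (nat_lit 12) .nil)))) .nil)) 
(.lf (nat_lit 100471) (.g (nat_lit 1288) (.e (nat_lit 3252) (nat_lit 197) (.e (nat_lit 532499) (nat_lit 1) (.e (nat_lit 57849) (nat_lit 252) (.e (nat_lit 57445) (nat_lit 19) .nil)))) .nil))))) (.nd (nat_lit 4) (.nd (nat_lit 5) (.nd (nat_lit 6) 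
(.lf (nat_lit 100367) (.g (nat_lit 2320) (.e (nat_lit 3249) (nat_lit 197) (.e (nat_lit 532569) (nat_lit 16) (.e (nat_lit 401448) (nat_lit 10) (.e (nat_lit 434244) (nat_lit 28) (.e (nat_lit 573471) (nat_lit 11) .nil))))) .nil)) 
(.lf (nat_lit 100431) (.g (nat_lit 2791) (.e (nat_lit 3251) (nat_lit 197) (.e (nat_lit 532523) (nat_lit 7) (.e (nat_lit 319531) (nat_lit 16) (.e (nat_lit 286733) (nat_lit 2) (.e (nat_lit 90178) (nat_lit 15) (.e (nat_lit 188440) (nat_lit 20) .nil)))))) (.g (nat_lit 4) .nil .nil)))) (.nd (nat_lit 6) 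
(.lf (nat_lit 100399) (.g (nat_lit 3034) (.e (nat_lit 3250) (nat_lit 197) (.e (nat_lit 532523) (nat_lit 7) (.e (nat_lit 319531) (nat_lit 16) (.e (nat_lit 286733) (nat_lit 2) (.e (nat_lit 90169) (nat_lit 13) .nil))))) .nil)) 
(.lf (nat_lit 100463) (.g (nat_lit 1576) (.e (nat_lit 3251) (nat_lit 197) (.e (nat_lit 532566) (nat_lit 15) (.e (nat_lit 385093) (nat_lit 49) (.e (nat_lit 778317) (nat_lit 3) (.e (nat_lit 57477) (nat_lit 28) (.e (nat_lit 557107) (nat_lit 15) (.e (nat_lit 188439) (nat_lit 20) .nil))))))) (.g (nat_lit 4) .nil .nil))))) (.nd (nat_lit 5) (.nd (nat_lit 6) 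
(.lf (nat_lit 100383) (.g (nat_lit 2397) (.e (nat_lit 3250) (nat_lit 197) (.e (nat_lit 532503) (nat_lit 1) (.e (nat_lit 57931) (nat_lit 282) (.e (nat_lit 163867) (nat_lit 2) (.e (nat_lit 196670) (nat_lit 14) .nil))))) .nil)) 
(.lf (nat_lit 100447) (.g (nat_lit 6214) (.e (nat_lit 3251) (nat_lit 197) (.e (nat_lit 532550) (nat_lit 12) (.e (nat_lit 360475) (nat_lit 8) (.e (nat_lit 557094) (nat_lit 12) .nil)))) .nil))) (.nd (nat_lit 6) 
(.lf (nat_lit 100415) (.g (nat_lit 1796) (.e (nat_lit 3251) (nat_lit 197) (.e (nat_lit 532500) (nat_lit 1) (.e (nat_lit 57851) (nat_lit 252) (.e (nat_lit 57406) (nat_lit 12) .nil)))) .nil)) 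
(.lf (nat_lit 100479) (.g (nat_lit 2343) (.e (nat_lit 3252) (nat_lit 197) (.e (nat_lit 532504) (nat_lit 1) (.e (nat_lit 57851) (nat_lit 252) (.e (nat_lit 57445) (nat_lit 19) (.e (nat_lit 393229) (nat_lit 9) (.e (nat_lit 336088) (nat_lit 9) (.e (nat_lit 336257) (nat_lit 15) .nil))))))) (.g (nat_lit 5) .nil .nil))))))))))

noncomputable def tv1371 : DT := (.nd (nat_lit 0) (.nd (nat_lit 1) (.nd (nat_lit 2) (.nd (nat_lit 3) (.nd (nat_lit 4) (.nd (nat_lit 5) (.nd (nat_lit 6) 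
(.lf (nat_lit 100480) (.g (nat_lit 2088) (.e (nat_lit 3252) (nat_lit 197) (.e (nat_lit 532504) (nat_lit 1) (.e (nat_lit 57851) (nat_lit 252) (.e (nat_lit 57445) (nat_lit 19) (.e (nat_lit 393229) (nat_lit 9) (.e (nat_lit 336088) (nat_lit 9) (.e (nat_lit 336259) (nat_lit 15) .nil))))))) (.g (nat_lit 4) .nil .nil))) 
(.lf (nat_lit 100544) (.g (nat_lit 3135) (.e (nat_lit 3253) (nat_lit 197) (.e (nat_lit 532499) (nat_lit 1) (.e (nat_lit 57847) (nat_lit 252) (.e (nat_lit 57370) (nat_lit 2) .nil)))) .nil))) (.nd (nat_lit 6) 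
(.lf (nat_lit 100512) (.g (nat_lit 3502) (.e (nat_lit 3252) (nat_lit 197) (.e (nat_lit 532535) (nat_lit 9) (.e (nat_lit 336099) (nat_lit 9) (.e (nat_lit 336013) (nat_lit 2) (.e (nat_lit 90165) (nat_lit 12) .nil))))) .nil)) 
(.lf (nat_lit 100576) (.g (nat_lit 2045) (.e (nat_lit 3253) (nat_lit 197) (.e (nat_lit 532499) (nat_lit 1) (.e (nat_lit 57847) (nat_lit 252) (.e (nat_lit 57411) (nat_lit 12) (.e (nat_lit 336367) (nat_lit 27) (.e (nat_lit 426555) (nat_lit 32) (.e (nat_lit 384768) (nat_lit 0) .nil))))))) (.g (nat_lit 4) .nil .nil))))) (.nd (nat_lit 5) (.nd (nat_lit 6) 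
(.lf (nat_lit 100496) (.g (nat_lit 2708) (.e (nat_lit 3252) (nat_lit 197) (.e (nat_lit 532523) (nat_lit 7) (.e (nat_lit 319531) (nat_lit 16) (.e (nat_lit 286733) (nat_lit 2) (.e (nat_lit 90177) (nat_lit 15) .nil))))) .nil)) 
(.lf (nat_lit 100560) (.g (nat_lit 2323) (.e (nat_lit 3253) (nat_lit 197) (.e (nat_lit 532499) (nat_lit 1) (.e (nat_lit 57847) (nat_lit 252) (.e (nat_lit 57407) (nat_lit 12) (.e (nat_lit 336367) (nat_lit 27) (.e (nat_lit 426555) (nat_lit 32) (.e (nat_lit 376837) (nat_lit 0) .nil))))))) (.g (nat_lit 4) .nil .nil)))) (.nd (nat_lit 6) 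
(.lf (nat_lit 100528) (.g (nat_lit 2854) (.e (nat_lit 3252) (nat_lit 197) (.e (nat_lit 532563) (nat_lit 15) (.e (nat_lit 385094) (nat_lit 49) (.e (nat_lit 778317) (nat_lit 3) (.e (nat_lit 57477) (nat_lit 28) (.e (nat_lit 557108) (nat_lit 15) (.e (nat_lit 188435) (nat_lit 20) .nil))))))) (.g (nat_lit 4) .nil .nil))) 
(.lf (nat_lit 100592) (.g (nat_lit 2584) (.e (nat_lit 3253) (nat_lit 197) (.e (nat_lit 532499) (nat_lit 1) (.e (nat_lit 57847) (nat_lit 252) (.e (nat_lit 57446) (nat_lit 19) (.e (nat_lit 401152) (nat_lit 11) (.e (nat_lit 352266) (nat_lit 0) .nil)))))) (.g (nat_lit 4) .nil .nil)))))) (.nd (nat_lit 4) (.nd (nat_lit 5) (.nd (nat_lit 6) 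
(.lf (nat_lit 100488) (.g (nat_lit 2776) (.e (nat_lit 3252) (nat_lit 197) (.e (nat_lit 532522) (nat_lit 7) (.e (nat_lit 319530) (nat_lit 16) (.e (nat_lit 286733) (nat_lit 2) (.e (nat_lit 90178) (nat_lit 15) (.e (nat_lit 188436) (nat_lit 20) .nil)))))) (.g (nat_lit 4) .nil .nil))) 
(.lf (nat_lit 100552) (.g (nat_lit 2736) (.e (nat_lit 3253) (nat_lit 197) (.e (nat_lit 532499) (nat_lit 1) (.e (nat_lit 57847) (nat_lit 252) (.e (nat_lit 57379) (nat_lit 3) (.e (nat_lit 98342) (nat_lit 20) (.e (nat_lit 221210) (nat_lit 22) (.e (nat_lit 196666) (nat_lit 13) (.e (nat_lit 65642) (nat_lit 15) .nil)))))))) (.g (nat_lit 4) .nil .nil)))) (.nd (nat_lit 6) 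
(.lf (nat_lit 100520) (.g (nat_lit 791) (.e (nat_lit 3252) (nat_lit 197) (.e (nat_lit 532563) (nat_lit 15) (.e (nat_lit 385066) (nat_lit 26) .nil))) .nil)) 
(.lf (nat_lit 100584) (.g (nat_lit 2570) (.e (nat_lit 3253) (nat_lit 197) (.e (nat_lit 532499) (nat_lit 1) (.e (nat_lit 57847) (nat_lit 252) (.e (nat_lit 57445) (nat_lit 19) (.e (nat_lit 393227) (nat_lit 9) (.e (nat_lit 336151) (nat_lit 9) (.e (nat_lit 336300) (nat_lit 15) .nil))))))) (.g (nat_lit 4) .nil .nil))))) (.nd (nat_lit 5) (.nd (nat_lit 6) 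
(.lf (nat_lit 100504) (.g (nat_lit 2617) (.e (nat_lit 3252) (nat_lit 197) (.e (nat_lit 532523) (nat_lit 7) (.e (nat_lit 319534) (nat_lit 16) (.e (nat_lit 286734) (nat_lit 3) (.e (nat_lit 98370) (nat_lit 28) .nil))))) .nil)) 
(.lf (nat_lit 100568) (.g (nat_lit 2346) (.e (nat_lit 3253) (nat_lit 197) (.e (nat_lit 532499) (nat_lit 1) (.e (nat_lit 57847) (nat_lit 252) (.e (nat_lit 57407) (nat_lit 12) (.e (nat_lit 336456) (nat_lit 34) (.e (nat_lit 483393) (nat_lit 23) (.e (nat_lit 336275) (nat_lit 15) .nil))))))) (.g (nat_lit 4) .nil .nil)))) (.nd (nat_lit 6) 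
(.lf (nat_lit 100536) (.g (nat_lit 2011) (.e (nat_lit 3253) (nat_lit 197) (.e (nat_lit 532483) (nat_lit 0) (.e (nat_lit 2078) (nat_lit 142) (.e (nat_lit 704734) (nat_lit 11) (.e (nat_lit 16416) (nat_lit 3) (.e (nat_lit 204876) (nat_lit 31) (.e (nat_lit 376835) (nat_lit 0) .nil))))))) (.g (nat_lit 5) .nil .nil))) 
(.lf (nat_lit 100600) (.g (nat_lit 2343) (.e (nat_lit 3253) (nat_lit 197) (.e (nat_lit 532499) (nat_lit 1) (.e (nat_lit 57847) (nat_lit 252) (.e (nat_lit 57448) (nat_lit 19) (.e (nat_lit 393227) (nat_lit 9) (.e (nat_lit 336151) (nat_lit 9) (.e (nat_lit 336300) (nat_lit 15) .nil))))))) (.g (nat_lit 4) .nil .nil))))))) (.nd (nat_lit 3) (.nd (nat_lit 4) (.nd (nat_lit 5) (.nd (nat_lit 6) 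
(.lf (nat_lit 100484) (.g (nat_lit 2120) (.e (nat_lit 3252) (nat_lit 197) (.e (nat_lit 532515) (nat_lit 3) (.e (nat_lit 114719) (nat_lit 23) (.e (nat_lit 98384) (nat_lit 32) (.e (nat_lit 475177) (nat_lit 24) .nil))))) .nil)) 
(.lf (nat_lit 100548) (.g (nat_lit 1730) (.e (nat_lit 3253) (nat_lit 197) (.e (nat_lit 532499) (nat_lit 1) (.e (nat_lit 57847) (nat_lit 252) (.e (nat_lit 57379) (nat_lit 3) .nil)))) .nil))) (.nd (nat_lit 6) 
(.lf (nat_lit 100516) (.g (nat_lit 4741) (.e (nat_lit 3252) (nat_lit 197) (.e (nat_lit 532550) (nat_lit 12) (.e (nat_lit 360475) (nat_lit 8) (.e (nat_lit 557086) (nat_lit 11) .nil)))) .nil)) 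
(.lf (nat_lit 100580) (.g (nat_lit 2436) (.e (nat_lit 3253) (nat_lit 197) (.e (nat_lit 532499) (nat_lit 1) (.e (nat_lit 57847) (nat_lit 252) (.e (nat_lit 57411) (nat_lit 12) (.e (nat_lit 336456) (nat_lit 34) (.e (nat_lit 483391) (nat_lit 23) (.e (nat_lit 336300) (nat_lit 15) .nil))))))) (.g (nat_lit 4) .nil .nil))))) (.nd (nat_lit 5) (.nd (nat_lit 6) 
(.lf (nat_lit 100500) (.g (nat_lit 2438) (.e (nat_lit 3252) (nat_lit 197) (.e (nat_lit 532523) (nat_lit 7) (.e (nat_lit 319533) (nat_lit 16) (.e (nat_lit 286734) (nat_lit 3) (.e (nat_lit 98370) (nat_lit 28) .nil))))) .nil)) 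
(.lf (nat_lit 100564) (.g (nat_lit 2335) (.e (nat_lit 3253) (nat_lit 197) (.e (nat_lit 532499) (nat_lit 1) (.e (nat_lit 57847) (nat_lit 252) (.e (nat_lit 57407) (nat_lit 12) (.e (nat_lit 336456) (nat_lit 34) (.e (nat_lit 483379) (nat_lit 23) (.e (nat_lit 336270) (nat_lit 15) .nil))))))) (.g (nat_lit 4) .nil .nil)))) (.nd (nat_lit 6) 
(.lf (nat_lit 100532) (.g (nat_lit 2815) (.e (nat_lit 3252) (nat_lit 197) (.e (nat_lit 532563) (nat_lit 15) (.e (nat_lit 385094) (nat_lit 49) (.e (nat_lit 778317) (nat_lit 3) (.e (nat_lit 57480) (nat_lit 28) (.e (nat_lit 557107) (nat_lit 15) (.e (nat_lit 188441) (nat_lit 20) .nil))))))) (.g (nat_lit 4) .nil .nil))) 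
(.lf (nat_lit 100596) (.g (nat_lit 2430) (.e (nat_lit 3253) (nat_lit 197) (.e (nat_lit 532499) (nat_lit 1) (.e (nat_lit 57847) (nat_lit 252) (.e (nat_lit 57447) (nat_lit 19) (.e (nat_lit 393227) (nat_lit 9) (.e (nat_lit 336151) (nat_lit 9) (.e (nat_lit 336300) (nat_lit 15) .nil))))))) (.g (nat_lit 4) .nil .nil)))))) (.nd (nat_lit 4) (.nd (nat_lit 5) (.nd (nat_lit 6) 
(.lf (nat_lit 100492) (.g (nat_lit 638) (.e (nat_lit 3252) (nat_lit 197) (.e (nat_lit 532523) (nat_lit 7) (.e (nat_lit 319528) (nat_lit 16) .nil))) .nil)) 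
(.lf (nat_lit 100556) (.g (nat_lit 1811) (.e (nat_lit 3253) (nat_lit 197) (.e (nat_lit 532499) (nat_lit 1) (.e (nat_lit 57847) (nat_lit 252) (.e (nat_lit 57407) (nat_lit 12) (.e (nat_lit 336367) (nat_lit 27) .nil))))) .nil))) (.nd (nat_lit 6) 
(.lf (nat_lit 100524) (.g (nat_lit 3027) (.e (nat_lit 3252) (nat_lit 197) (.e (nat_lit 532563) (nat_lit 15) (.e (nat_lit 385094) (nat_lit 49) (.e (nat_lit 778317) (nat_lit 3) (.e (nat_lit 57476) (nat_lit 28) (.e (nat_lit 557108) (nat_lit 15) (.e (nat_lit 188435) (nat_lit 20) .nil))))))) (.g (nat_lit 4) .nil .nil))) 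
(.lf (nat_lit 100588) (.g (nat_lit 2684) (.e (nat_lit 3253) (nat_lit 197) (.e (nat_lit 532499) (nat_lit 1) (.e (nat_lit 57847) (nat_lit 252) (.e (nat_lit 57445) (nat_lit 19) (.e (nat_lit 401152) (nat_lit 11) (.e (nat_lit 352265) (nat_lit 0) .nil)))))) (.g (nat_lit 4) .nil .nil))))) (.nd (nat_lit 5) (.nd (nat_lit 6) 
(.lf (nat_lit 100508) (.g (nat_lit 1798) (.e (nat_lit 3252) (nat_lit 197) (.e (nat_lit 532526) (nat_lit 8) (.e (nat_lit 327697) (nat_lit 7) (.e (nat_lit 294931) (nat_lit 3) (.e (nat_lit 98350) (nat_lit 24) (.e (nat_lit 417536) (nat_lit 18) (.e (nat_lit 303112) (nat_lit 0) .nil))))))) (.g (nat_lit 5) .nil .nil))) 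
(.lf (nat_lit 100572) (.g (nat_lit 1760) (.e (nat_lit 3253) (nat_lit 197) (.e (nat_lit 532499) (nat_lit 1) (.e (nat_lit 57847) (nat_lit 252) (.e (nat_lit 57409) (nat_lit 12) .nil)))) .nil))) (.nd (nat_lit 6) 
(.lf (nat_lit 100540) (.g (nat_lit 2088) (.e (nat_lit 3253) (nat_lit 197) (.e (nat_lit 532499) (nat_lit 1) (.e (nat_lit 57847) (nat_lit 252) (.e (nat_lit 57345) (nat_lit 0) .nil)))) .nil)) 
(.lf (nat_lit 100604) (.g (nat_lit 664) (.e (nat_lit 3253) (nat_lit 197) (.e (nat_lit 532499) (nat_lit 1) (.e (nat_lit 57849) (nat_lit 252) .nil))) .nil))))))) (.nd (nat_lit 2) (.nd (nat_lit 3) (.nd (nat_lit 4) (.nd (nat_lit 5) (.nd (nat_lit 6) 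
(.lf (nat_lit 100482) (.g (nat_lit 3015) (.e (nat_lit 3252) (nat_lit 197) (.e (nat_lit 532513) (nat_lit 3) (.e (nat_lit 114714) (nat_lit 22) (.e (nat_lit 90170) (nat_lit 13) (.e (nat_lit 172138) (nat_lit 15) .nil))))) .nil)) 
(.lf (nat_lit 100546) (.g (nat_lit 4388) (.e (nat_lit 3253) (nat_lit 197) (.e (nat_lit 532499) (nat_lit 1) (.e (nat_lit 57847) (nat_lit 252) (.e (nat_lit 57377) (nat_lit 3) (.e (nat_lit 98313) (nat_lit 9) (.e (nat_lit 336027) (nat_lit 3) (.e (nat_lit 98341) (nat_lit 20) (.e (nat_lit 221204) (nat_lit 20) .nil)))))))) (.g (nat_lit 5) .nil .nil)))) (.nd (nat_lit 6) 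
(.lf (nat_lit 100514) (.g (nat_lit 4466) (.e (nat_lit 3252) (nat_lit 197) (.e (nat_lit 532548) (nat_lit 11) (.e (nat_lit 352294) (nat_lit 20) (.e (nat_lit 1788) (nat_lit 119) (.e (nat_lit 516139) (nat_lit 7) (.e (nat_lit 409645) (nat_lit 18) (.e (nat_lit 303112) (nat_lit 0) .nil))))))) (.g (nat_lit 7) .nil .nil))) 
(.lf (nat_lit 100578) (.g (nat_lit 1606) (.e (nat_lit 3253) (nat_lit 197) (.e (nat_lit 532499) (nat_lit 1) (.e (nat_lit 57847) (nat_lit 252) (.e (nat_lit 57411) (nat_lit 12) (.e (nat_lit 336456) (nat_lit 34) .nil))))) .nil)))) (.nd (nat_lit 5) (.nd (nat_lit 6) 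
(.lf (nat_lit 100498) (.g (nat_lit 2689) (.e (nat_lit 3252) (nat_lit 197) (.e (nat_lit 532523) (nat_lit 7) (.e (nat_lit 319531) (nat_lit 16) (.e (nat_lit 286733) (nat_lit 2) (.e (nat_lit 90178) (nat_lit 15) (.e (nat_lit 188442) (nat_lit 20) .nil)))))) (.g (nat_lit 4) .nil .nil))) 
(.lf (nat_lit 100562) (.g (nat_lit 2828) (.e (nat_lit 3253) (nat_lit 197) (.e (nat_lit 532499) (nat_lit 1) (.e (nat_lit 57847) (nat_lit 252) (.e (nat_lit 57407) (nat_lit 12) (.e (nat_lit 336454) (nat_lit 34) (.e (nat_lit 483385) (nat_lit 23) (.e (nat_lit 336270) (nat_lit 15) .nil))))))) (.g (nat_lit 4) .nil .nil)))) (.nd (nat_lit 6) 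
(.lf (nat_lit 100530) (.g (nat_lit 2566) (.e (nat_lit 3252) (nat_lit 197) (.e (nat_lit 532563) (nat_lit 15) (.e (nat_lit 385094) (nat_lit 49) (.e (nat_lit 778317) (nat_lit 3) (.e (nat_lit 57480) (nat_lit 28) (.e (nat_lit 557107) (nat_lit 15) (.e (nat_lit 188424) (nat_lit 20) .nil))))))) (.g (nat_lit 4) .nil .nil))) 
(.lf (nat_lit 100594) (.g (nat_lit 1257) (.e (nat_lit 3253) (nat_lit 197) (.e (nat_lit 532499) (nat_lit 1) (.e (nat_lit 57847) (nat_lit 252) (.e (nat_lit 57447) (nat_lit 19) .nil)))) .nil))))) (.nd (nat_lit 4) (.nd (nat_lit 5) (.nd (nat_lit 6) 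
(.lf (nat_lit 100490) (.g (nat_lit 2877) (.e (nat_lit 3252) (nat_lit 197) (.e (nat_lit 532522) (nat_lit 7) (.e (nat_lit 319531) (nat_lit 16) (.e (nat_lit 286733) (nat_lit 2) (.e (nat_lit 90178) (nat_lit 15) .nil))))) .nil)) 
(.lf (nat_lit 100554) (.g (nat_lit 1957) (.e (nat_lit 3253) (nat_lit 197) (.e (nat_lit 532499) (nat_lit 1) (.e (nat_lit 57847) (nat_lit 252) (.e (nat_lit 57405) (nat_lit 12) .nil)))) .nil))) (.nd (nat_lit 6) 
(.lf (nat_lit 100522) (.g (nat_lit 2446) (.e (nat_lit 3252) (nat_lit 197) (.e (nat_lit 532563) (nat_lit 15) (.e (nat_lit 385094) (nat_lit 49) (.e (nat_lit 778317) (nat_lit 3) (.e (nat_lit 57476) (nat_lit 28) .nil))))) .nil)) 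
(.lf (nat_lit 100586) (.g (nat_lit 2304) (.e (nat_lit 3253) (nat_lit 197) (.e (nat_lit 532499) (nat_lit 1) (.e (nat_lit 57847) (nat_lit 252) (.e (nat_lit 57445) (nat_lit 19) (.e (nat_lit 393229) (nat_lit 9) (.e (nat_lit 336086) (nat_lit 9) (.e (nat_lit 336265) (nat_lit 15) .nil))))))) (.g (nat_lit 4) .nil .nil))))) (.nd (nat_lit 5) (.nd (nat_lit 6) 
(.lf (nat_lit 100506) (.g (nat_lit 1695) (.e (nat_lit 3252) (nat_lit 197) (.e (nat_lit 532523) (nat_lit 7) (.e (nat_lit 319534) (nat_lit 16) (.e (nat_lit 286735) (nat_lit 3) .nil)))) .nil)) 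
(.lf (nat_lit 100570) (.g (nat_lit 2674) (.e (nat_lit 3253) (nat_lit 197) (.e (nat_lit 532499) (nat_lit 1) (.e (nat_lit 57847) (nat_lit 252) (.e (nat_lit 57407) (nat_lit 12) (.e (nat_lit 336456) (nat_lit 34) (.e (nat_lit 483393) (nat_lit 23) (.e (nat_lit 336293) (nat_lit 15) .nil))))))) (.g (nat_lit 4) .nil .nil)))) (.nd (nat_lit 6) 
(.lf (nat_lit 100538) (.g (nat_lit 2720) (.e (nat_lit 3253) (nat_lit 197) (.e (nat_lit 532486) (nat_lit 0) (.e (nat_lit 6212) (nat_lit 333) (.e (nat_lit 57900) (nat_lit 276) (.e (nat_lit 122936) (nat_lit 23) (.e (nat_lit 516176) (nat_lit 14) (.e (nat_lit 466967) (nat_lit 20) .nil))))))) (.g (nat_lit 7) .nil .nil))) 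
(.lf (nat_lit 100602) (.g (nat_lit 2552) (.e (nat_lit 3253) (nat_lit 197) (.e (nat_lit 532499) (nat_lit 1) (.e (nat_lit 57847) (nat_lit 252) (.e (nat_lit 57448) (nat_lit 19) (.e (nat_lit 393229) (nat_lit 9) (.e (nat_lit 336086) (nat_lit 9) (.e (nat_lit 336270) (nat_lit 15) .nil))))))) (.g (nat_lit 4) .nil .nil))))))) (.nd (nat_lit 3) (.nd (nat_lit 4) (.nd (nat_lit 5) (.nd (nat_lit 6) 
(.lf (nat_lit 100486) (.g (nat_lit 811) (.e (nat_lit 3252) (nat_lit 197) (.e (nat_lit 532522) (nat_lit 7) (.e (nat_lit 319530) (nat_lit 16) .nil))) .nil)) 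
(.lf (nat_lit 100550) (.g (nat_lit 3231) (.e (nat_lit 3253) (nat_lit 197) (.e (nat_lit 532499) (nat_lit 1) (.e (nat_lit 57847) (nat_lit 252) (.e (nat_lit 57379) (nat_lit 3) (.e (nat_lit 98341) (nat_lit 20) (.e (nat_lit 221212) (nat_lit 22) (.e (nat_lit 196665) (nat_lit 13) (.e (nat_lit 65637) (nat_lit 15) .nil)))))))) (.g (nat_lit 5) .nil .nil)))) (.nd (nat_lit 6) 
(.lf (nat_lit 100518) (.g (nat_lit 5134) (.e (nat_lit 3252) (nat_lit 197) (.e (nat_lit 532550) (nat_lit 12) (.e (nat_lit 360475) (nat_lit 8) (.e (nat_lit 557093) (nat_lit 12) .nil)))) .nil)) 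
(.lf (nat_lit 100582) (.g (nat_lit 2247) (.e (nat_lit 3253) (nat_lit 197) (.e (nat_lit 532499) (nat_lit 1) (.e (nat_lit 57847) (nat_lit 252) (.e (nat_lit 57411) (nat_lit 12) (.e (nat_lit 336456) (nat_lit 34) (.e (nat_lit 483393) (nat_lit 23) (.e (nat_lit 336293) (nat_lit 15) .nil))))))) (.g (nat_lit 4) .nil .nil))))) (.nd (nat_lit 5) (.nd (nat_lit 6) 
(.lf (nat_lit 100502) (.g (nat_lit 1607) (.e (nat_lit 3252) (nat_lit 197) (.e (nat_lit 532523) (nat_lit 7) (.e (nat_lit 319533) (nat_lit 16) (.e (nat_lit 286735) (nat_lit 3) .nil)))) .nil)) 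
(.lf (nat_lit 100566) (.g (nat_lit 3416) (.e (nat_lit 3253) (nat_lit 197) (.e (nat_lit 532499) (nat_lit 1) (.e (nat_lit 57847) (nat_lit 252) (.e (nat_lit 57407) (nat_lit 12) (.e (nat_lit 336456) (nat_lit 34) (.e (nat_lit 483387) (nat_lit 23) (.e (nat_lit 336282) (nat_lit 15) .nil))))))) (.g (nat_lit 5) .nil .nil)))) (.nd (nat_lit 6) 
(.lf (nat_lit 100534) (.g (nat_lit 2128) (.e (nat_lit 3253) (nat_lit 197) (.e (nat_lit 532483) (nat_lit 0) (.e (nat_lit 2044) (nat_lit 142) (.e (nat_lit 704734) (nat_lit 11) (.e (nat_lit 16416) (nat_lit 3) (.e (nat_lit 204876) (nat_lit 31) (.e (nat_lit 376835) (nat_lit 0) .nil))))))) (.g (nat_lit 5) .nil .nil))) 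
(.lf (nat_lit 100598) (.g (nat_lit 2747) (.e (nat_lit 3253) (nat_lit 197) (.e (nat_lit 532499) (nat_lit 1) (.e (nat_lit 57847) (nat_lit 252) (.e (nat_lit 57447) (nat_lit 19) (.e (nat_lit 401152) (nat_lit 11) (.e (nat_lit 352266) (nat_lit 0) .nil)))))) (.g (nat_lit 4) .nil .nil)))))) (.nd (nat_lit 4) (.nd (nat_lit 5) (.nd (nat_lit 6) 
(.lf (nat_lit 100494) (.g (nat_lit 2583) (.e (nat_lit 3252) (nat_lit 197) (.e (nat_lit 532523) (nat_lit 7) (.e (nat_lit 319530) (nat_lit 16) (.e (nat_lit 286733) (nat_lit 2) (.e (nat_lit 90178) (nat_lit 15) .nil))))) .nil)) 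
(.lf (nat_lit 100558) (.g (nat_lit 3282) (.e (nat_lit 3253) (nat_lit 197) (.e (nat_lit 532499) (nat_lit 1) (.e (nat_lit 57847) (nat_lit 252) (.e (nat_lit 57407) (nat_lit 12) (.e (nat_lit 336367) (nat_lit 27) (.e (nat_lit 426542) (nat_lit 29) (.e (nat_lit 352267) (nat_lit 0) .nil))))))) (.g (nat_lit 0) .nil .nil)))) (.nd (nat_lit 6) 
(.lf (nat_lit 100526) (.g (nat_lit 2221) (.e (nat_lit 3252) (nat_lit 197) (.e (nat_lit 532563) (nat_lit 15) (.e (nat_lit 385094) (nat_lit 49) (.e (nat_lit 778317) (nat_lit 3) (.e (nat_lit 57477) (nat_lit 28) .nil))))) .nil)) 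
(.lf (nat_lit 100590) (.g (nat_lit 2523) (.e (nat_lit 3253) (nat_lit 197) (.e (nat_lit 532499) (nat_lit 1) (.e (nat_lit 57847) (nat_lit 252) (.e (nat_lit 57445) (nat_lit 19) (.e (nat_lit 401152) (nat_lit 11) (.e (nat_lit 360192) (nat_lit 0) .nil)))))) (.g (nat_lit 4) .nil .nil))))) (.nd (nat_lit 5) (.nd (nat_lit 6) 
(.lf (nat_lit 100510) (.g (nat_lit 5176) (.e (nat_lit 3252) (nat_lit 197) (.e (nat_lit 532535) (nat_lit 9) (.e (nat_lit 336099) (nat_lit 9) (.e (nat_lit 336013) (nat_lit 2) (.e (nat_lit 90161) (nat_lit 12) .nil))))) .nil)) 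
(.lf (nat_lit 100574) (.g (nat_lit 2796) (.e (nat_lit 3253) (nat_lit 197) (.e (nat_lit 532499) (nat_lit 1) (.e (nat_lit 57847) (nat_lit 252) (.e (nat_lit 57411) (nat_lit 12) (.e (nat_lit 336367) (nat_lit 27) (.e (nat_lit 426542) (nat_lit 29) (.e (nat_lit 352267) (nat_lit 0) .nil))))))) (.g (nat_lit 0) .nil .nil)))) (.nd (nat_lit 6) 
(.lf (nat_lit 100542) (.g (nat_lit 3296) (.e (nat_lit 3253) (nat_lit 197) (.e (nat_lit 532499) (nat_lit 1) (.e (nat_lit 57847) (nat_lit 252) (.e (nat_lit 57348) (nat_lit 0) (.e (nat_lit 1795) (nat_lit 119) (.e (nat_lit 516131) (nat_lit 3) (.e (nat_lit 221212) (nat_lit 22) (.e (nat_lit 196665) (nat_lit 13) (.e (nat_lit 65637) (nat_lit 15) .nil))))))))) (.g (nat_lit 4) .nil .nil))) 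
(.lf (nat_lit 100606) (.g (nat_lit 2689) (.e (nat_lit 3253) (nat_lit 197) (.e (nat_lit 532499) (nat_lit 1) (.e (nat_lit 57849) (nat_lit 252) (.e (nat_lit 57379) (nat_lit 3) (.e (nat_lit 98341) (nat_lit 20) .nil))))) .nil)))))))) (.nd (nat_lit 1) (.nd (nat_lit 2) (.nd (nat_lit 3) (.nd (nat_lit 4) (.nd (nat_lit 5) (.nd (nat_lit 6) 
(.lf (nat_lit 100481) (.g (nat_lit 2075) (.e (nat_lit 3252) (nat_lit 197) (.e (nat_lit 532504) (nat_lit 1) (.e (nat_lit 57851) (nat_lit 252) (.e (nat_lit 57445) (nat_lit 19) (.e (nat_lit 393229) (nat_lit 9) (.e (nat_lit 336088) (nat_lit 9) (.e (nat_lit 336261) (nat_lit 15) .nil))))))) (.g (nat_lit 4) .nil .nil))) 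
(.lf (nat_lit 100545) (.g (nat_lit 2989) (.e (nat_lit 3253) (nat_lit 197) (.e (nat_lit 532499) (nat_lit 1) (.e (nat_lit 57847) (nat_lit 252) (.e (nat_lit 57377) (nat_lit 3) .nil)))) .nil))) (.nd (nat_lit 6) 
(.lf (nat_lit 100513) (.g (nat_lit 3589) (.e (nat_lit 3252) (nat_lit 197) (.e (nat_lit 532535) (nat_lit 9) (.e (nat_lit 336099) (nat_lit 9) (.e (nat_lit 336028) (nat_lit 3) (.e (nat_lit 98349) (nat_lit 24) .nil))))) .nil)) 
(.lf (nat_lit 100577) (.g (nat_lit 2259) (.e (nat_lit 3253) (nat_lit 197) (.e (nat_lit 532499) (nat_lit 1) (.e (nat_lit 57847) (nat_lit 252) (.e (nat_lit 57411) (nat_lit 12) (.e (nat_lit 336454) (nat_lit 34) (.e (nat_lit 483385) (nat_lit 23) (.e (nat_lit 336270) (nat_lit 15) .nil))))))) (.g (nat_lit 4) .nil .nil))))) (.nd (nat_lit 5) (.nd (nat_lit 6) 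
(.lf (nat_lit 100497) (.g (nat_lit 2522) (.e (nat_lit 3252) (nat_lit 197) (.e (nat_lit 532523) (nat_lit 7) (.e (nat_lit 319531) (nat_lit 16) (.e (nat_lit 286733) (nat_lit 2) (.e (nat_lit 90178) (nat_lit 15) (.e (nat_lit 188440) (nat_lit 20) .nil)))))) (.g (nat_lit 4) .nil .nil))) 
(.lf (nat_lit 100561) (.g (nat_lit 2533) (.e (nat_lit 3253) (nat_lit 197) (.e (nat_lit 532499) (nat_lit 1) (.e (nat_lit 57847) (nat_lit 252) (.e (nat_lit 57407) (nat_lit 12) (.e (nat_lit 336367) (nat_lit 27) (.e (nat_lit 426555) (nat_lit 32) (.e (nat_lit 384768) (nat_lit 0) .nil))))))) (.g (nat_lit 4) .nil .nil)))) (.nd (nat_lit 6) 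
(.lf (nat_lit 100529) (.g (nat_lit 2407) (.e (nat_lit 3252) (nat_lit 197) (.e (nat_lit 532563) (nat_lit 15) (.e (nat_lit 385094) (nat_lit 49) (.e (nat_lit 778317) (nat_lit 3) (.e (nat_lit 57477) (nat_lit 28) (.e (nat_lit 557108) (nat_lit 15) (.e (nat_lit 188437) (nat_lit 20) .nil))))))) (.g (nat_lit 4) .nil .nil))) 
(.lf (nat_lit 100593) (.g (nat_lit 2341) (.e (nat_lit 3253) (nat_lit 197) (.e (nat_lit 532499) (nat_lit 1) (.e (nat_lit 57847) (nat_lit 252) (.e (nat_lit 57446) (nat_lit 19) (.e (nat_lit 401152) (nat_lit 11) (.e (nat_lit 360192) (nat_lit 0) .nil)))))) (.g (nat_lit 4) .nil .nil)))))) (.nd (nat_lit 4) (.nd (nat_lit 5) (.nd (nat_lit 6) 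
(.lf (nat_lit 100489) (.g (nat_lit 1816) (.e (nat_lit 3252) (nat_lit 197) (.e (nat_lit 532522) (nat_lit 7) (.e (nat_lit 319531) (nat_lit 16) (.e (nat_lit 286733) (nat_lit 2) .nil)))) .nil)) 
(.lf (nat_lit 100553) (.g (nat_lit 3890) (.e (nat_lit 3253) (nat_lit 197) (.e (nat_lit 532499) (nat_lit 1) (.e (nat_lit 57847) (nat_lit 252) (.e (nat_lit 57379) (nat_lit 3) (.e (nat_lit 98342) (nat_lit 20) (.e (nat_lit 221212) (nat_lit 22) (.e (nat_lit 196665) (nat_lit 13) (.e (nat_lit 65637) (nat_lit 15) .nil)))))))) (.g (nat_lit 6) .nil .nil)))) (.nd (nat_lit 6) 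
(.lf (nat_lit 100521) (.g (nat_lit 1477) (.e (nat_lit 3252) (nat_lit 197) (.e (nat_lit 532563) (nat_lit 15) (.e (nat_lit 385094) (nat_lit 49) (.e (nat_lit 778317) (nat_lit 3) .nil)))) .nil)) 
(.lf (nat_lit 100585) (.g (nat_lit 2186) (.e (nat_lit 3253) (nat_lit 197) (.e (nat_lit 532499) (nat_lit 1) (.e (nat_lit 57847) (nat_lit 252) (.e (nat_lit 57445) (nat_lit 19) (.e (nat_lit 393229) (nat_lit 9) (.e (nat_lit 336086) (nat_lit 9) (.e (nat_lit 336263) (nat_lit 15) .nil))))))) (.g (nat_lit 4) .nil .nil))))) (.nd (nat_lit 5) (.nd (nat_lit 6) 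
(.lf (nat_lit 100505) (.g (nat_lit 2810) (.e (nat_lit 3252) (nat_lit 197) (.e (nat_lit 532523) (nat_lit 7) (.e (nat_lit 319534) (nat_lit 16) (.e (nat_lit 286734) (nat_lit 3) (.e (nat_lit 98370) (nat_lit 28) (.e (nat_lit 442414) (nat_lit 20) .nil)))))) (.g (nat_lit 4) .nil .nil))) 
(.lf (nat_lit 100569) (.g (nat_lit 3103) (.e (nat_lit 3253) (nat_lit 197) (.e (nat_lit 532499) (nat_lit 1) (.e (nat_lit 57847) (nat_lit 252) (.e (nat_lit 57407) (nat_lit 12) (.e (nat_lit 336456) (nat_lit 34) (.e (nat_lit 483393) (nat_lit 23) (.e (nat_lit 336291) (nat_lit 15) .nil))))))) (.g (nat_lit 5) .nil .nil)))) (.nd (nat_lit 6) 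
(.lf (nat_lit 100537) (.g (nat_lit 2190) (.e (nat_lit 3253) (nat_lit 197) (.e (nat_lit 532483) (nat_lit 0) (.e (nat_lit 2078) (nat_lit 142) (.e (nat_lit 704734) (nat_lit 11) (.e (nat_lit 16416) (nat_lit 3) (.e (nat_lit 204877) (nat_lit 31) (.e (nat_lit 376835) (nat_lit 0) .nil))))))) (.g (nat_lit 5) .nil .nil))) 
(.lf (nat_lit 100601) (.g (nat_lit 1679) (.e (nat_lit 3253) (nat_lit 197) (.e (nat_lit 532499) (nat_lit 1) (.e (nat_lit 57847) (nat_lit 252) (.e (nat_lit 57448) (nat_lit 19) (.e (nat_lit 393229) (nat_lit 9) .nil))))) .nil)))))) (.nd (nat_lit 3) (.nd (nat_lit 4) (.nd (nat_lit 5) (.nd (nat_lit 6) 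
(.lf (nat_lit 100485) (.g (nat_lit 1966) (.e (nat_lit 3252) (nat_lit 197) (.e (nat_lit 532515) (nat_lit 3) (.e (nat_lit 114719) (nat_lit 23) (.e (nat_lit 98385) (nat_lit 32) .nil)))) .nil)) 
(.lf (nat_lit 100549) (.g (nat_lit 3930) (.e (nat_lit 3253) (nat_lit 197) (.e (nat_lit 532499) (nat_lit 1) (.e (nat_lit 57847) (nat_lit 252) (.e (nat_lit 57379) (nat_lit 3) (.e (nat_lit 98341) (nat_lit 20) (.e (nat_lit 221210) (nat_lit 22) (.e (nat_lit 196665) (nat_lit 13) (.e (nat_lit 65637) (nat_lit 15) .nil)))))))) (.g (nat_lit 6) .nil .nil)))) (.nd (nat_lit 6) 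
(.lf (nat_lit 100517) (.g (nat_lit 3755) (.e (nat_lit 3252) (nat_lit 197) (.e (nat_lit 532550) (nat_lit 12) (.e (nat_lit 360475) (nat_lit 8) (.e (nat_lit 557087) (nat_lit 11) .nil)))) .nil)) 
(.lf (nat_lit 100581) (.g (nat_lit 2676) (.e (nat_lit 3253) (nat_lit 197) (.e (nat_lit 532499) (nat_lit 1) (.e (nat_lit 57847) (nat_lit 252) (.e (nat_lit 57411) (nat_lit 12) (.e (nat_lit 336456) (nat_lit 34) (.e (nat_lit 483393) (nat_lit 23) (.e (nat_lit 336291) (nat_lit 15) .nil))))))) (.g (nat_lit 5) .nil .nil))))) (.nd (nat_lit 5) (.nd (nat_lit 6) 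
(.lf (nat_lit 100501) (.g (nat_lit 2623) (.e (nat_lit 3252) (nat_lit 197) (.e (nat_lit 532523) (nat_lit 7) (.e (nat_lit 319533) (nat_lit 16) (.e (nat_lit 286734) (nat_lit 3) (.e (nat_lit 98370) (nat_lit 28) (.e (nat_lit 442414) (nat_lit 20) .nil)))))) (.g (nat_lit 4) .nil .nil))) 
(.lf (nat_lit 100565) (.g (nat_lit 2302) (.e (nat_lit 3253) (nat_lit 197) (.e (nat_lit 532499) (nat_lit 1) (.e (nat_lit 57847) (nat_lit 252) (.e (nat_lit 57407) (nat_lit 12) (.e (nat_lit 336456) (nat_lit 34) (.e (nat_lit 483387) (nat_lit 23) (.e (nat_lit 336267) (nat_lit 15) .nil))))))) (.g (nat_lit 4) .nil .nil)))) (.nd (nat_lit 6) 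
(.lf (nat_lit 100533) (.g (nat_lit 5407) (.e (nat_lit 3252) (nat_lit 197) (.e (nat_lit 532563) (nat_lit 15) (.e (nat_lit 385094) (nat_lit 49) (.e (nat_lit 778317) (nat_lit 3) (.e (nat_lit 57480) (nat_lit 28) (.e (nat_lit 557109) (nat_lit 15) (.e (nat_lit 188434) (nat_lit 20) .nil))))))) (.g (nat_lit 7) .nil .nil))) 
(.lf (nat_lit 100597) (.g (nat_lit 2681) (.e (nat_lit 3253) (nat_lit 197) (.e (nat_lit 532499) (nat_lit 1) (.e (nat_lit 57847) (nat_lit 252) (.e (nat_lit 57447) (nat_lit 19) (.e (nat_lit 401152) (nat_lit 11) (.e (nat_lit 352265) (nat_lit 0) .nil)))))) (.g (nat_lit 4) .nil .nil)))))) (.nd (nat_lit 4) (.nd (nat_lit 5) (.nd (nat_lit 6) 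
(.lf (nat_lit 100493) (.g (nat_lit 626) (.e (nat_lit 3252) (nat_lit 197) (.e (nat_lit 532523) (nat_lit 7) (.e (nat_lit 319530) (nat_lit 16) .nil))) .nil)) 
(.lf (nat_lit 100557) (.g (nat_lit 3307) (.e (nat_lit 3253) (nat_lit 197) (.e (nat_lit 532499) (nat_lit 1) (.e (nat_lit 57847) (nat_lit 252) (.e (nat_lit 57407) (nat_lit 12) (.e (nat_lit 336367) (nat_lit 27) (.e (nat_lit 426542) (nat_lit 29) (.e (nat_lit 352266) (nat_lit 0) .nil))))))) (.g (nat_lit 6) .nil .nil)))) (.nd (nat_lit 6) 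
(.lf (nat_lit 100525) (.g (nat_lit 2590) (.e (nat_lit 3252) (nat_lit 197) (.e (nat_lit 532563) (nat_lit 15) (.e (nat_lit 385094) (nat_lit 49) (.e (nat_lit 778317) (nat_lit 3) (.e (nat_lit 57476) (nat_lit 28) (.e (nat_lit 557108) (nat_lit 15) (.e (nat_lit 188437) (nat_lit 20) .nil))))))) (.g (nat_lit 4) .nil .nil))) 
(.lf (nat_lit 100589) (.g (nat_lit 2765) (.e (nat_lit 3253) (nat_lit 197) (.e (nat_lit 532499) (nat_lit 1) (.e (nat_lit 57847) (nat_lit 252) (.e (nat_lit 57445) (nat_lit 19) (.e (nat_lit 401152) (nat_lit 11) (.e (nat_lit 352266) (nat_lit 0) .nil)))))) (.g (nat_lit 4) .nil .nil))))) (.nd (nat_lit 5) (.nd (nat_lit 6) 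
(.lf (nat_lit 100509) (.g (nat_lit 588) (.e (nat_lit 3252) (nat_lit 197) (.e (nat_lit 532534) (nat_lit 9) (.e (nat_lit 336115) (nat_lit 9) .nil))) .nil)) 
(.lf (nat_lit 100573) (.g (nat_lit 1131) (.e (nat_lit 3253) (nat_lit 197) (.e (nat_lit 532499) (nat_lit 1) (.e (nat_lit 57847) (nat_lit 252) (.e (nat_lit 57411) (nat_lit 12) .nil)))) .nil))) (.nd (nat_lit 6) 
(.lf (nat_lit 100541) (.g (nat_lit 2095) (.e (nat_lit 3253) (nat_lit 197) (.e (nat_lit 532499) (nat_lit 1) (.e (nat_lit 57847) (nat_lit 252) (.e (nat_lit 57348) (nat_lit 0) .nil)))) .nil)) 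
(.lf (nat_lit 100605) (.g (nat_lit 1595) (.e (nat_lit 3253) (nat_lit 197) (.e (nat_lit 532499) (nat_lit 1) (.e (nat_lit 57849) (nat_lit 252) (.e (nat_lit 57379) (nat_lit 3) .nil)))) .nil))))))) (.nd (nat_lit 2) (.nd (nat_lit 3) (.nd (nat_lit 4) (.nd (nat_lit 5) (.nd (nat_lit 6) 
(.lf (nat_lit 100483) (.g (nat_lit 2146) (.e (nat_lit 3252) (nat_lit 197) (.e (nat_lit 532515) (nat_lit 3) (.e (nat_lit 114718) (nat_lit 23) (.e (nat_lit 98384) (nat_lit 32) (.e (nat_lit 475177) (nat_lit 24) .nil))))) .nil)) 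
(.lf (nat_lit 100547) (.g (nat_lit 2026) (.e (nat_lit 3253) (nat_lit 197) (.e (nat_lit 532499) (nat_lit 1) (.e (nat_lit 57847) (nat_lit 252) (.e (nat_lit 57378) (nat_lit 3) .nil)))) .nil))) (.nd (nat_lit 6) 
(.lf (nat_lit 100515) (.g (nat_lit 4505) (.e (nat_lit 3252) (nat_lit 197) (.e (nat_lit 532550) (nat_lit 12) (.e (nat_lit 360474) (nat_lit 8) (.e (nat_lit 557091) (nat_lit 12) .nil)))) .nil)) 
(.lf (nat_lit 100579) (.g (nat_lit 2932) (.e (nat_lit 3253) (nat_lit 197) (.e (nat_lit 532499) (nat_lit 1) (.e (nat_lit 57847) (nat_lit 252) (.e (nat_lit 57411) (nat_lit 12) (.e (nat_lit 336456) (nat_lit 34) (.e (nat_lit 483387) (nat_lit 23) (.e (nat_lit 336282) (nat_lit 15) .nil))))))) (.g (nat_lit 5) .nil .nil))))) (.nd (nat_lit 5) (.nd (nat_lit 6) 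
(.lf (nat_lit 100499) (.g (nat_lit 1730) (.e (nat_lit 3252) (nat_lit 197) (.e (nat_lit 532523) (nat_lit 7) (.e (nat_lit 319531) (nat_lit 16) (.e (nat_lit 286735) (nat_lit 3) .nil)))) .nil)) 
(.lf (nat_lit 100563) (.g (nat_lit 2037) (.e (nat_lit 3253) (nat_lit 197) (.e (nat_lit 532499) (nat_lit 1) (.e (nat_lit 57847) (nat_lit 252) (.e (nat_lit 57407) (nat_lit 12) (.e (nat_lit 336456) (nat_lit 34) .nil))))) .nil))) (.nd (nat_lit 6) 
(.lf (nat_lit 100531) (.g (nat_lit 2722) (.e (nat_lit 3252) (nat_lit 197) (.e (nat_lit 532563) (nat_lit 15) (.e (nat_lit 385094) (nat_lit 49) (.e (nat_lit 778317) (nat_lit 3) (.e (nat_lit 57480) (nat_lit 28) (.e (nat_lit 557107) (nat_lit 15) (.e (nat_lit 188436) (nat_lit 20) .nil))))))) (.g (nat_lit 4) .nil .nil))) 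
(.lf (nat_lit 100595) (.g (nat_lit 2054) (.e (nat_lit 3253) (nat_lit 197) (.e (nat_lit 532499) (nat_lit 1) (.e (nat_lit 57847) (nat_lit 252) (.e (nat_lit 57447) (nat_lit 19) (.e (nat_lit 393225) (nat_lit 9) .nil))))) .nil))))) (.nd (nat_lit 4) (.nd (nat_lit 5) (.nd (nat_lit 6) 
(.lf (nat_lit 100491) (.g (nat_lit 2889) (.e (nat_lit 3252) (nat_lit 197) (.e (nat_lit 532522) (nat_lit 7) (.e (nat_lit 319531) (nat_lit 16) (.e (nat_lit 286733) (nat_lit 2) (.e (nat_lit 90178) (nat_lit 15) (.e (nat_lit 188441) (nat_lit 20) .nil)))))) (.g (nat_lit 4) .nil .nil))) 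
(.lf (nat_lit 100555) (.g (nat_lit 2030) (.e (nat_lit 3253) (nat_lit 197) (.e (nat_lit 532499) (nat_lit 1) (.e (nat_lit 57847) (nat_lit 252) (.e (nat_lit 57406) (nat_lit 12) .nil)))) .nil))) (.nd (nat_lit 6) 
(.lf (nat_lit 100523) (.g (nat_lit 4046) (.e (nat_lit 3252) (nat_lit 197) (.e (nat_lit 532563) (nat_lit 15) (.e (nat_lit 385094) (nat_lit 49) (.e (nat_lit 778317) (nat_lit 3) (.e (nat_lit 57476) (nat_lit 28) (.e (nat_lit 557108) (nat_lit 15) (.e (nat_lit 188434) (nat_lit 20) .nil))))))) (.g (nat_lit 6) .nil .nil))) 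
(.lf (nat_lit 100587) (.g (nat_lit 2330) (.e (nat_lit 3253) (nat_lit 197) (.e (nat_lit 532499) (nat_lit 1) (.e (nat_lit 57847) (nat_lit 252) (.e (nat_lit 57445) (nat_lit 19) (.e (nat_lit 393229) (nat_lit 9) (.e (nat_lit 336086) (nat_lit 9) (.e (nat_lit 336286) (nat_lit 15) .nil))))))) (.g (nat_lit 4) .nil .nil))))) (.nd (nat_lit 5) (.nd (nat_lit 6) 
(.lf (nat_lit 100507) (.g (nat_lit 2594) (.e (nat_lit 3252) (nat_lit 197) (.e (nat_lit 532523) (nat_lit 7) (.e (nat_lit 319534) (nat_lit 16) (.e (nat_lit 286735) (nat_lit 3) (.e (nat_lit 98370) (nat_lit 28) .nil))))) .nil)) 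
(.lf (nat_lit 100571) (.g (nat_lit 3177) (.e (nat_lit 3253) (nat_lit 197) (.e (nat_lit 532499) (nat_lit 1) (.e (nat_lit 57847) (nat_lit 252) (.e (nat_lit 57408) (nat_lit 12) .nil)))) .nil))) (.nd (nat_lit 6) 
(.lf (nat_lit 100539) (.g (nat_lit 323) (.e (nat_lit 3253) (nat_lit 197) (.e (nat_lit 532499) (nat_lit 1) (.e (nat_lit 57847) (nat_lit 252) .nil))) .nil)) 
(.lf (nat_lit 100603) (.g (nat_lit 2060) (.e (nat_lit 3253) (nat_lit 197) (.e (nat_lit 532499) (nat_lit 1) (.e (nat_lit 57847) (nat_lit 252) (.e (nat_lit 57448) (nat_lit 19) (.e (nat_lit 401152) (nat_lit 11) (.e (nat_lit 360192) (nat_lit 0) .nil)))))) (.g (nat_lit 4) .nil .nil))))))) (.nd (nat_lit 3) (.nd (nat_lit 4) (.nd (nat_lit 5) (.nd (nat_lit 6) 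
(.lf (nat_lit 100487) (.g (nat_lit 2708) (.e (nat_lit 3252) (nat_lit 197) (.e (nat_lit 532522) (nat_lit 7) (.e (nat_lit 319530) (nat_lit 16) (.e (nat_lit 286733) (nat_lit 2) (.e (nat_lit 90178) (nat_lit 15) .nil))))) .nil)) 
(.lf (nat_lit 100551) (.g (nat_lit 3677) (.e (nat_lit 3253) (nat_lit 197) (.e (nat_lit 532499) (nat_lit 1) (.e (nat_lit 57847) (nat_lit 252) (.e (nat_lit 57379) (nat_lit 3) (.e (nat_lit 98342) (nat_lit 20) (.e (nat_lit 221210) (nat_lit 22) (.e (nat_lit 196665) (nat_lit 13) (.e (nat_lit 65637) (nat_lit 15) .nil)))))))) (.g (nat_lit 6) .nil .nil)))) (.nd (nat_lit 6) 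
(.lf (nat_lit 100519) (.g (nat_lit 5120) (.e (nat_lit 3252) (nat_lit 197) (.e (nat_lit 532550) (nat_lit 12) (.e (nat_lit 360475) (nat_lit 8) (.e (nat_lit 557094) (nat_lit 12) .nil)))) .nil)) 
(.lf (nat_lit 100583) (.g (nat_lit 2353) (.e (nat_lit 3253) (nat_lit 197) (.e (nat_lit 532499) (nat_lit 1) (.e (nat_lit 57847) (nat_lit 252) (.e (nat_lit 57445) (nat_lit 19) (.e (nat_lit 393225) (nat_lit 9) (.e (nat_lit 336091) (nat_lit 9) (.e (nat_lit 336295) (nat_lit 15) .nil))))))) (.g (nat_lit 4) .nil .nil))))) (.nd (nat_lit 5) (.nd (nat_lit 6) 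
(.lf (nat_lit 100503) (.g (nat_lit 458) (.e (nat_lit 3252) (nat_lit 197) (.e (nat_lit 532523) (nat_lit 7) (.e (nat_lit 319534) (nat_lit 16) .nil))) .nil)) 
(.lf (nat_lit 100567) (.g (nat_lit 2896) (.e (nat_lit 3253) (nat_lit 197) (.e (nat_lit 532499) (nat_lit 1) (.e (nat_lit 57847) (nat_lit 252) (.e (nat_lit 57407) (nat_lit 12) (.e (nat_lit 336456) (nat_lit 34) (.e (nat_lit 483391) (nat_lit 23) (.e (nat_lit 336300) (nat_lit 15) .nil))))))) (.g (nat_lit 4) .nil .nil)))) (.nd (nat_lit 6) 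
(.lf (nat_lit 100535) (.g (nat_lit 2194) (.e (nat_lit 3253) (nat_lit 197) (.e (nat_lit 532483) (nat_lit 0) (.e (nat_lit 2044) (nat_lit 142) (.e (nat_lit 704734) (nat_lit 11) (.e (nat_lit 16416) (nat_lit 3) (.e (nat_lit 204877) (nat_lit 31) (.e (nat_lit 376835) (nat_lit 0) .nil))))))) (.g (nat_lit 5) .nil .nil))) 
(.lf (nat_lit 100599) (.g (nat_lit 2262) (.e (nat_lit 3253) (nat_lit 197) (.e (nat_lit 532499) (nat_lit 1) (.e (nat_lit 57847) (nat_lit 252) (.e (nat_lit 57447) (nat_lit 19) (.e (nat_lit 401152) (nat_lit 11) (.e (nat_lit 360192) (nat_lit 0) .nil)))))) (.g (nat_lit 4) .nil .nil)))))) (.nd (nat_lit 4) (.nd (nat_lit 5) (.nd (nat_lit 6) 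
(.lf (nat_lit 100495) (.g (nat_lit 2763) (.e (nat_lit 3252) (nat_lit 197) (.e (nat_lit 532523) (nat_lit 7) (.e (nat_lit 319530) (nat_lit 16) (.e (nat_lit 286733) (nat_lit 2) (.e (nat_lit 90178) (nat_lit 15) (.e (nat_lit 188442) (nat_lit 20) .nil)))))) (.g (nat_lit 4) .nil .nil))) 
(.lf (nat_lit 100559) (.g (nat_lit 3491) (.e (nat_lit 3253) (nat_lit 197) (.e (nat_lit 532499) (nat_lit 1) (.e (nat_lit 57847) (nat_lit 252) (.e (nat_lit 57407) (nat_lit 12) (.e (nat_lit 336367) (nat_lit 27) (.e (nat_lit 426542) (nat_lit 29) (.e (nat_lit 360192) (nat_lit 0) .nil))))))) (.g (nat_lit 6) .nil .nil)))) (.nd (nat_lit 6) 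
(.lf (nat_lit 100527) (.g (nat_lit 3883) (.e (nat_lit 3252) (nat_lit 197) (.e (nat_lit 532563) (nat_lit 15) (.e (nat_lit 385094) (nat_lit 49) (.e (nat_lit 778317) (nat_lit 3) (.e (nat_lit 57477) (nat_lit 28) (.e (nat_lit 557108) (nat_lit 15) (.e (nat_lit 188434) (nat_lit 20) .nil))))))) (.g (nat_lit 6) .nil .nil))) 
(.lf (nat_lit 100591) (.g (nat_lit 2502) (.e (nat_lit 3253) (nat_lit 197) (.e (nat_lit 532499) (nat_lit 1) (.e (nat_lit 57847) (nat_lit 252) (.e (nat_lit 57446) (nat_lit 19) (.e (nat_lit 401152) (nat_lit 11) (.e (nat_lit 352265) (nat_lit 0) .nil)))))) (.g (nat_lit 4) .nil .nil))))) (.nd (nat_lit 5) (.nd (nat_lit 6) 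
(.lf (nat_lit 100511) (.g (nat_lit 5447) (.e (nat_lit 3252) (nat_lit 197) (.e (nat_lit 532535) (nat_lit 9) (.e (nat_lit 336099) (nat_lit 9) (.e (nat_lit 336013) (nat_lit 2) (.e (nat_lit 90164) (nat_lit 12) .nil))))) .nil)) 
(.lf (nat_lit 100575) (.g (nat_lit 3002) (.e (nat_lit 3253) (nat_lit 197) (.e (nat_lit 532499) (nat_lit 1) (.e (nat_lit 57847) (nat_lit 252) (.e (nat_lit 57411) (nat_lit 12) (.e (nat_lit 336367) (nat_lit 27) (.e (nat_lit 426542) (nat_lit 29) (.e (nat_lit 360192) (nat_lit 0) .nil))))))) (.g (nat_lit 6) .nil .nil)))) (.nd (nat_lit 6) 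
(.lf (nat_lit 100543) (.g (nat_lit 2082) (.e (nat_lit 3253) (nat_lit 197) (.e (nat_lit 532499) (nat_lit 1) (.e (nat_lit 57847) (nat_lit 252) (.e (nat_lit 57355) (nat_lit 0) .nil)))) .nil)) 
(.lf (nat_lit 100607) (.g (nat_lit 3208) (.e (nat_lit 3253) (nat_lit 197) (.e (nat_lit 532499) (nat_lit 1) (.e (nat_lit 57849) (nat_lit 252) (.e (nat_lit 57379) (nat_lit 3) (.e (nat_lit 98341) (nat_lit 20) (.e (nat_lit 221210) (nat_lit 22) (.e (nat_lit 196665) (nat_lit 13) (.e (nat_lit 65637) (nat_lit 15) .nil)))))))) (.g (nat_lit 4) .nil .nil))))))))))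

noncomputable def tv1372 : DT := (.nd (nat_lit 0) (.nd (nat_lit 1) (.nd (nat_lit 2) (.nd (nat_lit 3) (.nd (nat_lit 4) (.nd (nat_lit 5) (.nd (nat_lit 6) 
(.lf (nat_lit 100608) (.g (nat_lit 3292) (.e (nat_lit 3253) (nat_lit 197) (.e (nat_lit 532499) (nat_lit 1) (.e (nat_lit 57849) (nat_lit 252) (.e (nat_lit 57379) (nat_lit 3) (.e (nat_lit 98341) (nat_lit 20) (.e (nat_lit 221211) (nat_lit 22) (.e (nat_lit 196666) (nat_lit 13) (.e (nat_lit 65642) (nat_lit 15) .nil)))))))) (.g (nat_lit 4) .nil .nil))) 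
(.lf (nat_lit 100672) (.g (nat_lit 4103) (.e (nat_lit 3253) (nat_lit 197) (.e (nat_lit 532501) (nat_lit 1) (.e (nat_lit 57931) (nat_lit 282) (.e (nat_lit 163874) (nat_lit 3) (.e (nat_lit 204863) (nat_lit 27) (.e (nat_lit 344117) (nat_lit 21) (.e (nat_lit 516130) (nat_lit 3) (.e (nat_lit 221204) (nat_lit 20) .nil)))))))) (.g (nat_lit 6) .nil .nil)))) (.nd (nat_lit 6) 
(.lf (nat_lit 100640) (.g (nat_lit 2968) (.e (nat_lit 3253) (nat_lit 197) (.e (nat_lit 532501) (nat_lit 1) (.e (nat_lit 57852) (nat_lit 252) (.e (nat_lit 57445) (nat_lit 19) (.e (nat_lit 401152) (nat_lit 11) (.e (nat_lit 352262) (nat_lit 0) .nil)))))) (.g (nat_lit 4) .nil .nil))) 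
(.lf (nat_lit 100704) (.g (nat_lit 2477) (.e (nat_lit 3253) (nat_lit 197) (.e (nat_lit 532503) (nat_lit 1) (.e (nat_lit 57931) (nat_lit 282) (.e (nat_lit 163869) (nat_lit 2) (.e (nat_lit 196664) (nat_lit 13) .nil))))) .nil)))) (.nd (nat_lit 5) (.nd (nat_lit 6) 
(.lf (nat_lit 100624) (.g (nat_lit 2691) (.e (nat_lit 3253) (nat_lit 197) (.e (nat_lit 532499) (nat_lit 1) (.e (nat_lit 57931) (nat_lit 282) (.e (nat_lit 163873) (nat_lit 3) (.e (nat_lit 204862) (nat_lit 27) (.e (nat_lit 344117) (nat_lit 21) (.e (nat_lit 516130) (nat_lit 3) (.e (nat_lit 221204) (nat_lit 20) .nil)))))))) (.g (nat_lit 4) .nil .nil))) 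
(.lf (nat_lit 100688) (.g (nat_lit 778) (.e (nat_lit 3253) (nat_lit 197) (.e (nat_lit 532503) (nat_lit 1) (.e (nat_lit 57850) (nat_lit 252) .nil))) .nil))) (.nd (nat_lit 6) 
(.lf (nat_lit 100656) (.g (nat_lit 2461) (.e (nat_lit 3253) (nat_lit 197) (.e (nat_lit 532501) (nat_lit 1) (.e (nat_lit 57926) (nat_lit 282) (.e (nat_lit 163875) (nat_lit 3) (.e (nat_lit 204850) (nat_lit 26) .nil))))) .nil)) 
(.lf (nat_lit 100720) (.g (nat_lit 1948) (.e (nat_lit 3253) (nat_lit 197) (.e (nat_lit 532504) (nat_lit 1) (.e (nat_lit 57852) (nat_lit 252) (.e (nat_lit 57349) (nat_lit 0) .nil)))) .nil))))) (.nd (nat_lit 4) (.nd (nat_lit 5) (.nd (nat_lit 6) 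
(.lf (nat_lit 100616) (.g (nat_lit 2263) (.e (nat_lit 3253) (nat_lit 197) (.e (nat_lit 532499) (nat_lit 1) (.e (nat_lit 57927) (nat_lit 282) (.e (nat_lit 163867) (nat_lit 2) (.e (nat_lit 196668) (nat_lit 14) .nil))))) .nil)) 
(.lf (nat_lit 100680) (.g (nat_lit 1455) (.e (nat_lit 3253) (nat_lit 197) (.e (nat_lit 532503) (nat_lit 1) (.e (nat_lit 57846) (nat_lit 252) (.e (nat_lit 57446) (nat_lit 19) .nil)))) .nil))) (.nd (nat_lit 6) 
(.lf (nat_lit 100648) (.g (nat_lit 2434) (.e (nat_lit 3253) (nat_lit 197) (.e (nat_lit 532501) (nat_lit 1) (.e (nat_lit 57926) (nat_lit 282) (.e (nat_lit 163871) (nat_lit 2) (.e (nat_lit 196663) (nat_lit 13) .nil))))) .nil)) 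
(.lf (nat_lit 100712) (.g (nat_lit 4286) (.e (nat_lit 3253) (nat_lit 197) (.e (nat_lit 532504) (nat_lit 1) (.e (nat_lit 57830) (nat_lit 250) (.e (nat_lit 1183) (nat_lit 87) (.e (nat_lit 57480) (nat_lit 28) (.e (nat_lit 557105) (nat_lit 14) (.e (nat_lit 180252) (nat_lit 10) (.e (nat_lit 573481) (nat_lit 13) (.e (nat_lit 65637) (nat_lit 15) .nil))))))))) (.g (nat_lit 6) .nil .nil))))) 
(.nd (nat_lit 5) (.nd (nat_lit 6) 
(.lf (nat_lit 100632) (.g (nat_lit 4671) (.e (nat_lit 3253) (nat_lit 197) (.e (nat_lit 532501) (nat_lit 1) (.e (nat_lit 57830) (nat_lit 250) (.e (nat_lit 1183) (nat_lit 87) (.e (nat_lit 57479) (nat_lit 28) (.e (nat_lit 557105) (nat_lit 14) (.e (nat_lit 180252) (nat_lit 10) (.e (nat_lit 573482) (nat_lit 13) (.e (nat_lit 65640) (nat_lit 15) .nil))))))))) (.g (nat_lit 6) .nil .nil))) 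
(.lf (nat_lit 100696) (.g (nat_lit 2379) (.e (nat_lit 3253) (nat_lit 197) (.e (nat_lit 532503) (nat_lit 1) (.e (nat_lit 57929) (nat_lit 282) (.e (nat_lit 163874) (nat_lit 3) (.e (nat_lit 204862) (nat_lit 27) (.e (nat_lit 344117) (nat_lit 21) (.e (nat_lit 516129) (nat_lit 3) (.e (nat_lit 221204) (nat_lit 20) .nil)))))))) (.g (nat_lit 4) .nil .nil)))) (.nd (nat_lit 6) 
(.lf (nat_lit 100664) (.g (nat_lit 2337) (.e (nat_lit 3253) (nat_lit 197) (.e (nat_lit 532501) (nat_lit 1) (.e (nat_lit 57927) (nat_lit 282) (.e (nat_lit 163875) (nat_lit 3) (.e (nat_lit 204850) (nat_lit 26) .nil))))) .nil)) 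
(.lf (nat_lit 100728) (.g (nat_lit 2710) (.e (nat_lit 3253) (nat_lit 197) (.e (nat_lit 532504) (nat_lit 1) (.e (nat_lit 57852) (nat_lit 252) (.e (nat_lit 57406) (nat_lit 12) (.e (nat_lit 336366) (nat_lit 27) (.e (nat_lit 426538) (nat_lit 29) (.e (nat_lit 352262) (nat_lit 0) .nil))))))) (.g (nat_lit 4) .nil .nil))))))) (.nd (nat_lit 3) (.nd (nat_lit 4) (.nd (nat_lit 5) (.nd (nat_lit 6) 
(.lf (nat_lit 100612) (.g (nat_lit 1395) (.e (nat_lit 3253) (nat_lit 197) (.e (nat_lit 532499) (nat_lit 1) (.e (nat_lit 57849) (nat_lit 252) (.e (nat_lit 57445) (nat_lit 19) .nil)))) .nil)) 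
(.lf (nat_lit 100676) (.g (nat_lit 2423) (.e (nat_lit 3253) (nat_lit 197) (.e (nat_lit 532503) (nat_lit 1) (.e (nat_lit 57844) (nat_lit 252) (.e (nat_lit 57354) (nat_lit 0) (.e (nat_lit 1799) (nat_lit 119) (.e (nat_lit 516131) (nat_lit 3) (.e (nat_lit 221212) (nat_lit 22) (.e (nat_lit 196665) (nat_lit 13) (.e (nat_lit 65637) (nat_lit 15) .nil))))))))) (.g (nat_lit 4) .nil .nil)))) 
(.nd (nat_lit 6) 
(.lf (nat_lit 100644) (.g (nat_lit 1433) (.e (nat_lit 3253) (nat_lit 197) (.e (nat_lit 532501) (nat_lit 1) (.e (nat_lit 57852) (nat_lit 252) (.e (nat_lit 57447) (nat_lit 19) .nil)))) .nil)) 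
(.lf (nat_lit 100708) (.g (nat_lit 3236) (.e (nat_lit 3253) (nat_lit 197) (.e (nat_lit 532503) (nat_lit 1) (.e (nat_lit 57931) (nat_lit 282) (.e (nat_lit 163874) (nat_lit 3) (.e (nat_lit 204863) (nat_lit 27) (.e (nat_lit 344117) (nat_lit 21) (.e (nat_lit 516129) (nat_lit 3) (.e (nat_lit 221204) (nat_lit 20) .nil)))))))) (.g (nat_lit 5) .nil .nil))))) (.nd (nat_lit 5) (.nd (nat_lit 6) 
(.lf (nat_lit 100628) (.g (nat_lit 2077) (.e (nat_lit 3253) (nat_lit 197) (.e (nat_lit 532501) (nat_lit 1) (.e (nat_lit 57830) (nat_lit 250) (.e (nat_lit 1183) (nat_lit 87) (.e (nat_lit 57466) (nat_lit 23) (.e (nat_lit 516131) (nat_lit 3) (.e (nat_lit 221212) (nat_lit 22) (.e (nat_lit 196664) (nat_lit 13) (.e (nat_lit 65637) (nat_lit 15) .nil))))))))) (.g (nat_lit 4) .nil .nil))) 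
(.lf (nat_lit 100692) (.g (nat_lit 2495) (.e (nat_lit 3253) (nat_lit 197) (.e (nat_lit 532503) (nat_lit 1) (.e (nat_lit 57872) (nat_lit 264) (.e (nat_lit 1172) (nat_lit 87) (.e (nat_lit 57464) (nat_lit 23) (.e (nat_lit 516160) (nat_lit 10) (.e (nat_lit 434247) (nat_lit 28) (.e (nat_lit 573485) (nat_lit 13) (.e (nat_lit 65640) (nat_lit 15) .nil))))))))) (.g (nat_lit 4) .nil .nil)))) 
(.nd (nat_lit 6) 
(.lf (nat_lit 100660) (.g (nat_lit 2829) (.e (nat_lit 3253) (nat_lit 197) (.e (nat_lit 532501) (nat_lit 1) (.e (nat_lit 57927) (nat_lit 282) (.e (nat_lit 163874) (nat_lit 3) (.e (nat_lit 204862) (nat_lit 27) (.e (nat_lit 344117) (nat_lit 21) (.e (nat_lit 516129) (nat_lit 3) (.e (nat_lit 221204) (nat_lit 20) .nil)))))))) (.g (nat_lit 4) .nil .nil))) 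
(.lf (nat_lit 100724) (.g (nat_lit 1718) (.e (nat_lit 3253) (nat_lit 197) (.e (nat_lit 532504) (nat_lit 1) (.e (nat_lit 57852) (nat_lit 252) (.e (nat_lit 57361) (nat_lit 0) .nil)))) .nil))))) (.nd (nat_lit 4) (.nd (nat_lit 5) (.nd (nat_lit 6) 
(.lf (nat_lit 100620) (.g (nat_lit 3863) (.e (nat_lit 3253) (nat_lit 197) (.e (nat_lit 532499) (nat_lit 1) (.e (nat_lit 57927) (nat_lit 282) (.e (nat_lit 163873) (nat_lit 3) (.e (nat_lit 204863) (nat_lit 27) (.e (nat_lit 344117) (nat_lit 21) (.e (nat_lit 516130) (nat_lit 3) (.e (nat_lit 221204) (nat_lit 20) .nil)))))))) (.g (nat_lit 5) .nil .nil))) 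
(.lf (nat_lit 100684) (.g (nat_lit 1728) (.e (nat_lit 3253) (nat_lit 197) (.e (nat_lit 532503) (nat_lit 1) (.e (nat_lit 57848) (nat_lit 252) (.e (nat_lit 57407) (nat_lit 12) (.e (nat_lit 336367) (nat_lit 27) (.e (nat_lit 426539) (nat_lit 29) (.e (nat_lit 352262) (nat_lit 0) .nil))))))) (.g (nat_lit 4) .nil .nil)))) (.nd (nat_lit 6) 
(.lf (nat_lit 100652) (.g (nat_lit 2704) (.e (nat_lit 3253) (nat_lit 197) (.e (nat_lit 532501) (nat_lit 1) (.e (nat_lit 57926) (nat_lit 282) (.e (nat_lit 163874) (nat_lit 3) (.e (nat_lit 204853) (nat_lit 26) .nil))))) .nil)) 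
(.lf (nat_lit 100716) (.g (nat_lit 260) (.e (nat_lit 3253) (nat_lit 197) (.e (nat_lit 532504) (nat_lit 1) (.e (nat_lit 57852) (nat_lit 252) .nil))) .nil)))) (.nd (nat_lit 5) (.nd (nat_lit 6) 
(.lf (nat_lit 100636) (.g (nat_lit 2479) (.e (nat_lit 3253) (nat_lit 197) (.e (nat_lit 532501) (nat_lit 1) (.e (nat_lit 57851) (nat_lit 252) (.e (nat_lit 57445) (nat_lit 19) (.e (nat_lit 401152) (nat_lit 11) (.e (nat_lit 352265) (nat_lit 0) .nil)))))) (.g (nat_lit 4) .nil .nil))) 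
(.lf (nat_lit 100700) (.g (nat_lit 2130) (.e (nat_lit 3253) (nat_lit 197) (.e (nat_lit 532503) (nat_lit 1) (.e (nat_lit 57930) (nat_lit 282) (.e (nat_lit 163874) (nat_lit 3) (.e (nat_lit 204862) (nat_lit 27) .nil))))) .nil))) (.nd (nat_lit 6) 
(.lf (nat_lit 100668) (.g (nat_lit 2252) (.e (nat_lit 3253) (nat_lit 197) (.e (nat_lit 532501) (nat_lit 1) (.e (nat_lit 57931) (nat_lit 282) (.e (nat_lit 163867) (nat_lit 2) (.e (nat_lit 196664) (nat_lit 13) .nil))))) .nil)) 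
(.lf (nat_lit 100732) (.g (nat_lit 2573) (.e (nat_lit 3253) (nat_lit 197) (.e (nat_lit 532504) (nat_lit 1) (.e (nat_lit 57852) (nat_lit 252) (.e (nat_lit 57406) (nat_lit 12) (.e (nat_lit 336367) (nat_lit 27) (.e (nat_lit 426539) (nat_lit 29) (.e (nat_lit 352262) (nat_lit 0) .nil))))))) (.g (nat_lit 4) .nil .nil)))))))) 
(.nd (nat_lit 2) (.nd (nat_lit 3) (.nd (nat_lit 4) (.nd (nat_lit 5) (.nd (nat_lit 6) 
(.lf (nat_lit 100610) (.g (nat_lit 3212) (.e (nat_lit 3253) (nat_lit 197) (.e (nat_lit 532499) (nat_lit 1) (.e (nat_lit 57849) (nat_lit 252) (.e (nat_lit 57379) (nat_lit 3) (.e (nat_lit 98342) (nat_lit 20) (.e (nat_lit 221211) (nat_lit 22) (.e (nat_lit 196666) (nat_lit 13) (.e (nat_lit 65642) (nat_lit 15) .nil)))))))) (.g (nat_lit 4) .nil .nil))) 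
(.lf (nat_lit 100674) (.g (nat_lit 778) (.e (nat_lit 3253) (nat_lit 197) (.e (nat_lit 532503) (nat_lit 1) (.e (nat_lit 57684) (nat_lit 155) .nil))) .nil))) (.nd (nat_lit 6) 
(.lf (nat_lit 100642) (.g (nat_lit 2935) (.e (nat_lit 3253) (nat_lit 197) (.e (nat_lit 532501) (nat_lit 1) (.e (nat_lit 57852) (nat_lit 252) (.e (nat_lit 57445) (nat_lit 19) (.e (nat_lit 401152) (nat_lit 14) (.e (nat_lit 376835) (nat_lit 0) .nil)))))) (.g (nat_lit 4) .nil .nil))) 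
(.lf (nat_lit 100706) (.g (nat_lit 3434) (.e (nat_lit 3253) (nat_lit 197) (.e (nat_lit 532503) (nat_lit 1) (.e (nat_lit 57931) (nat_lit 282) (.e (nat_lit 163874) (nat_lit 3) (.e (nat_lit 204862) (nat_lit 27) (.e (nat_lit 344117) (nat_lit 21) (.e (nat_lit 516129) (nat_lit 3) (.e (nat_lit 221204) (nat_lit 20) .nil)))))))) (.g (nat_lit 5) .nil .nil))))) (.nd (nat_lit 5) (.nd (nat_lit 6) 
(.lf (nat_lit 100626) (.g (nat_lit 1796) (.e (nat_lit 3253) (nat_lit 197) (.e (nat_lit 532500) (nat_lit 1) (.e (nat_lit 57851) (nat_lit 252) (.e (nat_lit 57406) (nat_lit 12) .nil)))) .nil)) 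
(.lf (nat_lit 100690) (.g (nat_lit 1527) (.e (nat_lit 3253) (nat_lit 197) (.e (nat_lit 532503) (nat_lit 1) (.e (nat_lit 57853) (nat_lit 252) (.e (nat_lit 57446) (nat_lit 19) .nil)))) .nil))) (.nd (nat_lit 6) 
(.lf (nat_lit 100658) (.g (nat_lit 2330) (.e (nat_lit 3253) (nat_lit 197) (.e (nat_lit 532501) (nat_lit 1) (.e (nat_lit 57927) (nat_lit 282) (.e (nat_lit 163871) (nat_lit 2) (.e (nat_lit 196664) (nat_lit 13) .nil))))) .nil)) 
(.lf (nat_lit 100722) (.g (nat_lit 1933) (.e (nat_lit 3253) (nat_lit 197) (.e (nat_lit 532504) (nat_lit 1) (.e (nat_lit 57852) (nat_lit 252) (.e (nat_lit 57355) (nat_lit 0) .nil)))) .nil))))) (.nd (nat_lit 4) (.nd (nat_lit 5) (.nd (nat_lit 6) 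
(.lf (nat_lit 100618) (.g (nat_lit 2523) (.e (nat_lit 3253) (nat_lit 197) (.e (nat_lit 532499) (nat_lit 1) (.e (nat_lit 57927) (nat_lit 282) (.e (nat_lit 163873) (nat_lit 3) (.e (nat_lit 204853) (nat_lit 26) .nil))))) .nil)) 
(.lf (nat_lit 100682) (.g (nat_lit 1514) (.e (nat_lit 3253) (nat_lit 197) (.e (nat_lit 532503) (nat_lit 1) (.e (nat_lit 57847) (nat_lit 252) (.e (nat_lit 57407) (nat_lit 12) (.e (nat_lit 336367) (nat_lit 27) .nil))))) .nil))) (.nd (nat_lit 6) 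
(.lf (nat_lit 100650) (.g (nat_lit 2433) (.e (nat_lit 3253) (nat_lit 197) (.e (nat_lit 532501) (nat_lit 1) (.e (nat_lit 57926) (nat_lit 282) (.e (nat_lit 163873) (nat_lit 3) (.e (nat_lit 204853) (nat_lit 26) .nil))))) .nil)) 
(.lf (nat_lit 100714) (.g (nat_lit 1106) (.e (nat_lit 3253) (nat_lit 197) (.e (nat_lit 532504) (nat_lit 1) (.e (nat_lit 57851) (nat_lit 252) (.e (nat_lit 57354) (nat_lit 0) .nil)))) .nil)))) (.nd (nat_lit 5) (.nd (nat_lit 6) 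
(.lf (nat_lit 100634) (.g (nat_lit 957) (.e (nat_lit 3253) (nat_lit 197) (.e (nat_lit 532501) (nat_lit 1) (.e (nat_lit 57851) (nat_lit 252) (.e (nat_lit 57445) (nat_lit 19) .nil)))) .nil)) 
(.lf (nat_lit 100698) (.g (nat_lit 4173) (.e (nat_lit 3253) (nat_lit 197) (.e (nat_lit 532503) (nat_lit 1) (.e (nat_lit 57929) (nat_lit 282) (.e (nat_lit 163874) (nat_lit 3) (.e (nat_lit 204863) (nat_lit 27) (.e (nat_lit 344117) (nat_lit 21) (.e (nat_lit 516130) (nat_lit 3) (.e (nat_lit 221204) (nat_lit 20) .nil)))))))) (.g (nat_lit 6) .nil .nil)))) (.nd (nat_lit 6) 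
(.lf (nat_lit 100666) (.g (nat_lit 4024) (.e (nat_lit 3253) (nat_lit 197) (.e (nat_lit 532501) (nat_lit 1) (.e (nat_lit 57929) (nat_lit 282) (.e (nat_lit 163874) (nat_lit 3) (.e (nat_lit 204862) (nat_lit 27) (.e (nat_lit 344117) (nat_lit 21) (.e (nat_lit 516130) (nat_lit 3) (.e (nat_lit 221204) (nat_lit 20) .nil)))))))) (.g (nat_lit 6) .nil .nil))) 
(.lf (nat_lit 100730) (.g (nat_lit 2398) (.e (nat_lit 3253) (nat_lit 197) (.e (nat_lit 532504) (nat_lit 1) (.e (nat_lit 57852) (nat_lit 252) (.e (nat_lit 57406) (nat_lit 12) (.e (nat_lit 336367) (nat_lit 27) .nil))))) .nil)))))) (.nd (nat_lit 3) (.nd (nat_lit 4) (.nd (nat_lit 5) (.nd (nat_lit 6) 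
(.lf (nat_lit 100614) (.g (nat_lit 2406) (.e (nat_lit 3253) (nat_lit 197) (.e (nat_lit 532499) (nat_lit 1) (.e (nat_lit 57926) (nat_lit 282) (.e (nat_lit 163868) (nat_lit 2) (.e (nat_lit 196670) (nat_lit 14) .nil))))) .nil)) 
(.lf (nat_lit 100678) (.g (nat_lit 1211) (.e (nat_lit 3253) (nat_lit 197) (.e (nat_lit 532503) (nat_lit 1) (.e (nat_lit 57844) (nat_lit 252) (.e (nat_lit 57445) (nat_lit 19) .nil)))) .nil))) (.nd (nat_lit 6) 
(.lf (nat_lit 100646) (.g (nat_lit 2345) (.e (nat_lit 3253) (nat_lit 197) (.e (nat_lit 532501) (nat_lit 1) (.e (nat_lit 57926) (nat_lit 282) (.e (nat_lit 163868) (nat_lit 2) (.e (nat_lit 196663) (nat_lit 13) .nil))))) .nil)) 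
(.lf (nat_lit 100710) (.g (nat_lit 4606) (.e (nat_lit 3253) (nat_lit 197) (.e (nat_lit 532504) (nat_lit 1) (.e (nat_lit 57829) (nat_lit 250) (.e (nat_lit 1183) (nat_lit 87) (.e (nat_lit 57478) (nat_lit 28) (.e (nat_lit 557105) (nat_lit 14) (.e (nat_lit 180252) (nat_lit 10) (.e (nat_lit 573481) (nat_lit 13) (.e (nat_lit 65637) (nat_lit 15) .nil))))))))) (.g (nat_lit 7) .nil .nil))))) 
(.nd (nat_lit 5) (.nd (nat_lit 6) 
(.lf (nat_lit 100630) (.g (nat_lit 5190) (.e (nat_lit 3253) (nat_lit 197) (.e (nat_lit 532501) (nat_lit 1) (.e (nat_lit 57830) (nat_lit 250) (.e (nat_lit 1183) (nat_lit 87) (.e (nat_lit 57479) (nat_lit 28) (.e (nat_lit 557105) (nat_lit 14) (.e (nat_lit 180252) (nat_lit 10) (.e (nat_lit 573480) (nat_lit 13) (.e (nat_lit 65637) (nat_lit 15) .nil))))))))) (.g (nat_lit 7) .nil .nil))) 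
(.lf (nat_lit 100694) (.g (nat_lit 2251) (.e (nat_lit 3253) (nat_lit 197) (.e (nat_lit 532503) (nat_lit 1) (.e (nat_lit 57929) (nat_lit 282) (.e (nat_lit 163873) (nat_lit 3) (.e (nat_lit 204853) (nat_lit 26) .nil))))) .nil))) (.nd (nat_lit 6) 
(.lf (nat_lit 100662) (.g (nat_lit 4961) (.e (nat_lit 3253) (nat_lit 197) (.e (nat_lit 532501) (nat_lit 1) (.e (nat_lit 57927) (nat_lit 282) (.e (nat_lit 163874) (nat_lit 3) (.e (nat_lit 204863) (nat_lit 27) (.e (nat_lit 344117) (nat_lit 21) (.e (nat_lit 516130) (nat_lit 3) (.e (nat_lit 221204) (nat_lit 20) .nil)))))))) (.g (nat_lit 8) .nil .nil))) 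
(.lf (nat_lit 100726) (.g (nat_lit 4098) (.e (nat_lit 3253) (nat_lit 197) (.e (nat_lit 532504) (nat_lit 1) (.e (nat_lit 57852) (nat_lit 252) (.e (nat_lit 57361) (nat_lit 0) (.e (nat_lit 1800) (nat_lit 119) (.e (nat_lit 516131) (nat_lit 3) (.e (nat_lit 221212) (nat_lit 22) (.e (nat_lit 196665) (nat_lit 13) (.e (nat_lit 65637) (nat_lit 15) .nil))))))))) (.g (nat_lit 7) .nil .nil)))))) 
(.nd (nat_lit 4) (.nd (nat_lit 5) (.nd (nat_lit 6) 
(.lf (nat_lit 100622) (.g (nat_lit 2421) (.e (nat_lit 3253) (nat_lit 197) (.e (nat_lit 532499) (nat_lit 1) (.e (nat_lit 57927) (nat_lit 282) (.e (nat_lit 163875) (nat_lit 3) (.e (nat_lit 204850) (nat_lit 26) .nil))))) .nil)) 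
(.lf (nat_lit 100686) (.g (nat_lit 2576) (.e (nat_lit 3253) (nat_lit 197) (.e (nat_lit 532503) (nat_lit 1) (.e (nat_lit 57849) (nat_lit 252) (.e (nat_lit 57379) (nat_lit 3) (.e (nat_lit 98313) (nat_lit 9) .nil))))) .nil))) (.nd (nat_lit 6) 
(.lf (nat_lit 100654) (.g (nat_lit 4319) (.e (nat_lit 3253) (nat_lit 197) (.e (nat_lit 532501) (nat_lit 1) (.e (nat_lit 57926) (nat_lit 282) (.e (nat_lit 163874) (nat_lit 3) (.e (nat_lit 204863) (nat_lit 27) (.e (nat_lit 344117) (nat_lit 21) (.e (nat_lit 516130) (nat_lit 3) (.e (nat_lit 221204) (nat_lit 20) .nil)))))))) (.g (nat_lit 7) .nil .nil))) 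
(.lf (nat_lit 100718) (.g (nat_lit 1960) (.e (nat_lit 3253) (nat_lit 197) (.e (nat_lit 532504) (nat_lit 1) (.e (nat_lit 57852) (nat_lit 252) (.e (nat_lit 57347) (nat_lit 0) .nil)))) .nil)))) (.nd (nat_lit 5) (.nd (nat_lit 6) 
(.lf (nat_lit 100638) (.g (nat_lit 1666) (.e (nat_lit 3253) (nat_lit 197) (.e (nat_lit 532501) (nat_lit 1) (.e (nat_lit 57852) (nat_lit 252) (.e (nat_lit 57445) (nat_lit 19) .nil)))) .nil)) 
(.lf (nat_lit 100702) (.g (nat_lit 2403) (.e (nat_lit 3253) (nat_lit 197) (.e (nat_lit 532503) (nat_lit 1) (.e (nat_lit 57931) (nat_lit 282) (.e (nat_lit 163869) (nat_lit 2) (.e (nat_lit 196630) (nat_lit 9) (.e (nat_lit 1549) (nat_lit 109) (.e (nat_lit 344117) (nat_lit 21) (.e (nat_lit 516130) (nat_lit 3) (.e (nat_lit 221204) (nat_lit 20) .nil))))))))) (.g (nat_lit 4) .nil .nil)))) 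
(.nd (nat_lit 6) 
(.lf (nat_lit 100670) (.g (nat_lit 2629) (.e (nat_lit 3253) (nat_lit 197) (.e (nat_lit 532501) (nat_lit 1) (.e (nat_lit 57931) (nat_lit 282) (.e (nat_lit 163874) (nat_lit 3) (.e (nat_lit 204862) (nat_lit 27) .nil))))) .nil)) 
(.lf (nat_lit 100734) (.g (nat_lit 2326) (.e (nat_lit 3253) (nat_lit 197) (.e (nat_lit 532504) (nat_lit 1) (.e (nat_lit 57852) (nat_lit 252) (.e (nat_lit 57409) (nat_lit 12) (.e (nat_lit 336366) (nat_lit 27) .nil))))) .nil)))))))) (.nd (nat_lit 1) (.nd (nat_lit 2) (.nd (nat_lit 3) (.nd (nat_lit 4) (.nd (nat_lit 5) (.nd (nat_lit 6) 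
(.lf (nat_lit 100609) (.g (nat_lit 2956) (.e (nat_lit 3253) (nat_lit 197) (.e (nat_lit 532499) (nat_lit 1) (.e (nat_lit 57849) (nat_lit 252) (.e (nat_lit 57379) (nat_lit 3) (.e (nat_lit 98342) (nat_lit 20) (.e (nat_lit 221210) (nat_lit 22) (.e (nat_lit 196665) (nat_lit 13) (.e (nat_lit 65637) (nat_lit 15) .nil)))))))) (.g (nat_lit 4) .nil .nil))) 
(.lf (nat_lit 100673) (.g (nat_lit 2183) (.e (nat_lit 3253) (nat_lit 197) (.e (nat_lit 532501) (nat_lit 1) (.e (nat_lit 57931) (nat_lit 282) (.e (nat_lit 163874) (nat_lit 3) (.e (nat_lit 204872) (nat_lit 30) .nil))))) .nil))) (.nd (nat_lit 6) 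
(.lf (nat_lit 100641) (.g (nat_lit 2843) (.e (nat_lit 3253) (nat_lit 197) (.e (nat_lit 532501) (nat_lit 1) (.e (nat_lit 57852) (nat_lit 252) (.e (nat_lit 57445) (nat_lit 19) (.e (nat_lit 401152) (nat_lit 11) (.e (nat_lit 352267) (nat_lit 0) .nil)))))) (.g (nat_lit 4) .nil .nil))) 
(.lf (nat_lit 100705) (.g (nat_lit 4119) (.e (nat_lit 3253) (nat_lit 197) (.e (nat_lit 532503) (nat_lit 1) (.e (nat_lit 57931) (nat_lit 282) (.e (nat_lit 163873) (nat_lit 3) (.e (nat_lit 204862) (nat_lit 27) (.e (nat_lit 344117) (nat_lit 21) (.e (nat_lit 516130) (nat_lit 3) (.e (nat_lit 221204) (nat_lit 20) .nil)))))))) (.g (nat_lit 6) .nil .nil))))) (.nd (nat_lit 5) (.nd (nat_lit 6) 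
(.lf (nat_lit 100625) (.g (nat_lit 650) (.e (nat_lit 3253) (nat_lit 197) (.e (nat_lit 532500) (nat_lit 1) (.e (nat_lit 57851) (nat_lit 252) .nil))) .nil)) 
(.lf (nat_lit 100689) (.g (nat_lit 1495) (.e (nat_lit 3253) (nat_lit 197) (.e (nat_lit 532503) (nat_lit 1) (.e (nat_lit 57853) (nat_lit 252) (.e (nat_lit 57445) (nat_lit 19) .nil)))) .nil))) (.nd (nat_lit 6) 
(.lf (nat_lit 100657) (.g (nat_lit 2126) (.e (nat_lit 3253) (nat_lit 197) (.e (nat_lit 532501) (nat_lit 1) (.e (nat_lit 57926) (nat_lit 282) (.e (nat_lit 163875) (nat_lit 3) (.e (nat_lit 204851) (nat_lit 26) .nil))))) .nil)) 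
(.lf (nat_lit 100721) (.g (nat_lit 1956) (.e (nat_lit 3253) (nat_lit 197) (.e (nat_lit 532504) (nat_lit 1) (.e (nat_lit 57852) (nat_lit 252) (.e (nat_lit 57350) (nat_lit 0) .nil)))) .nil))))) (.nd (nat_lit 4) (.nd (nat_lit 5) (.nd (nat_lit 6) 
(.lf (nat_lit 100617) (.g (nat_lit 2440) (.e (nat_lit 3253) (nat_lit 197) (.e (nat_lit 532499) (nat_lit 1) (.e (nat_lit 57927) (nat_lit 282) (.e (nat_lit 163871) (nat_lit 2) (.e (nat_lit 196664) (nat_lit 13) .nil))))) .nil)) 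
(.lf (nat_lit 100681) (.g (nat_lit 1478) (.e (nat_lit 3253) (nat_lit 197) (.e (nat_lit 532503) (nat_lit 1) (.e (nat_lit 57846) (nat_lit 252) (.e (nat_lit 57447) (nat_lit 19) .nil)))) .nil))) (.nd (nat_lit 6) 
(.lf (nat_lit 100649) (.g (nat_lit 1836) (.e (nat_lit 3253) (nat_lit 197) (.e (nat_lit 532501) (nat_lit 1) (.e (nat_lit 57926) (nat_lit 282) (.e (nat_lit 163871) (nat_lit 2) (.e (nat_lit 196670) (nat_lit 14) .nil))))) .nil)) 
(.lf (nat_lit 100713) (.g (nat_lit 1343) (.e (nat_lit 3253) (nat_lit 197) (.e (nat_lit 532504) (nat_lit 1) (.e (nat_lit 57844) (nat_lit 252) (.e (nat_lit 57446) (nat_lit 19) .nil)))) .nil)))) (.nd (nat_lit 5) (.nd (nat_lit 6) 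
(.lf (nat_lit 100633) (.g (nat_lit 452) (.e (nat_lit 3253) (nat_lit 197) (.e (nat_lit 532501) (nat_lit 1) (.e (nat_lit 57851) (nat_lit 252) .nil))) .nil)) 
(.lf (nat_lit 100697) (.g (nat_lit 4365) (.e (nat_lit 3253) (nat_lit 197) (.e (nat_lit 532503) (nat_lit 1) (.e (nat_lit 57929) (nat_lit 282) (.e (nat_lit 163874) (nat_lit 3) (.e (nat_lit 204862) (nat_lit 27) (.e (nat_lit 344117) (nat_lit 21) (.e (nat_lit 516130) (nat_lit 3) (.e (nat_lit 221204) (nat_lit 20) .nil)))))))) (.g (nat_lit 6) .nil .nil)))) (.nd (nat_lit 6) 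
(.lf (nat_lit 100665) (.g (nat_lit 2332) (.e (nat_lit 3253) (nat_lit 197) (.e (nat_lit 532501) (nat_lit 1) (.e (nat_lit 57929) (nat_lit 282) (.e (nat_lit 163874) (nat_lit 3) (.e (nat_lit 204853) (nat_lit 26) .nil))))) .nil)) 
(.lf (nat_lit 100729) (.g (nat_lit 2828) (.e (nat_lit 3253) (nat_lit 197) (.e (nat_lit 532504) (nat_lit 1) (.e (nat_lit 57852) (nat_lit 252) (.e (nat_lit 57406) (nat_lit 12) (.e (nat_lit 336366) (nat_lit 27) (.e (nat_lit 426540) (nat_lit 29) (.e (nat_lit 352262) (nat_lit 0) .nil))))))) (.g (nat_lit 4) .nil .nil))))))) (.nd (nat_lit 3) (.nd (nat_lit 4) (.nd (nat_lit 5) (.nd (nat_lit 6) 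
(.lf (nat_lit 100613) (.g (nat_lit 699) (.e (nat_lit 3253) (nat_lit 197) (.e (nat_lit 532499) (nat_lit 1) (.e (nat_lit 57854) (nat_lit 252) .nil))) .nil)) 
(.lf (nat_lit 100677) (.g (nat_lit 1961) (.e (nat_lit 3253) (nat_lit 197) (.e (nat_lit 532503) (nat_lit 1) (.e (nat_lit 57844) (nat_lit 252) (.e (nat_lit 57406) (nat_lit 12) (.e (nat_lit 336367) (nat_lit 27) .nil))))) .nil))) (.nd (nat_lit 6) 
(.lf (nat_lit 100645) (.g (nat_lit 2238) (.e (nat_lit 3253) (nat_lit 197) (.e (nat_lit 532501) (nat_lit 1) (.e (nat_lit 57926) (nat_lit 282) (.e (nat_lit 163867) (nat_lit 2) (.e (nat_lit 196668) (nat_lit 14) .nil))))) .nil)) 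
(.lf (nat_lit 100709) (.g (nat_lit 2060) (.e (nat_lit 3253) (nat_lit 197) (.e (nat_lit 532503) (nat_lit 1) (.e (nat_lit 57931) (nat_lit 282) (.e (nat_lit 163874) (nat_lit 3) (.e (nat_lit 204872) (nat_lit 30) .nil))))) .nil)))) (.nd (nat_lit 5) (.nd (nat_lit 6) 
(.lf (nat_lit 100629) (.g (nat_lit 4317) (.e (nat_lit 3253) (nat_lit 197) (.e (nat_lit 532501) (nat_lit 1) (.e (nat_lit 57830) (nat_lit 250) (.e (nat_lit 1183) (nat_lit 87) (.e (nat_lit 57478) (nat_lit 28) (.e (nat_lit 557105) (nat_lit 14) (.e (nat_lit 180252) (nat_lit 10) (.e (nat_lit 573481) (nat_lit 13) (.e (nat_lit 65637) (nat_lit 15) .nil))))))))) (.g (nat_lit 7) .nil .nil))) 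
(.lf (nat_lit 100693) (.g (nat_lit 2259) (.e (nat_lit 3253) (nat_lit 197) (.e (nat_lit 532503) (nat_lit 1) (.e (nat_lit 57924) (nat_lit 282) (.e (nat_lit 163873) (nat_lit 3) (.e (nat_lit 204862) (nat_lit 27) .nil))))) .nil))) (.nd (nat_lit 6) 
(.lf (nat_lit 100661) (.g (nat_lit 4806) (.e (nat_lit 3253) (nat_lit 197) (.e (nat_lit 532501) (nat_lit 1) (.e (nat_lit 57927) (nat_lit 282) (.e (nat_lit 163874) (nat_lit 3) (.e (nat_lit 204862) (nat_lit 27) (.e (nat_lit 344117) (nat_lit 21) (.e (nat_lit 516130) (nat_lit 3) (.e (nat_lit 221204) (nat_lit 20) .nil)))))))) (.g (nat_lit 7) .nil .nil))) 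
(.lf (nat_lit 100725) (.g (nat_lit 2254) (.e (nat_lit 3253) (nat_lit 197) (.e (nat_lit 532504) (nat_lit 1) (.e (nat_lit 57852) (nat_lit 252) (.e (nat_lit 57361) (nat_lit 0) (.e (nat_lit 1800) (nat_lit 119) (.e (nat_lit 516131) (nat_lit 3) (.e (nat_lit 221212) (nat_lit 22) (.e (nat_lit 196664) (nat_lit 13) (.e (nat_lit 65637) (nat_lit 15) .nil))))))))) (.g (nat_lit 4) .nil .nil)))))) 
(.nd (nat_lit 4) (.nd (nat_lit 5) (.nd (nat_lit 6) 
(.lf (nat_lit 100621) (.g (nat_lit 2555) (.e (nat_lit 3253) (nat_lit 197) (.e (nat_lit 532499) (nat_lit 1) (.e (nat_lit 57927) (nat_lit 282) (.e (nat_lit 163873) (nat_lit 3) (.e (nat_lit 204872) (nat_lit 30) .nil))))) .nil)) 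
(.lf (nat_lit 100685) (.g (nat_lit 895) (.e (nat_lit 3253) (nat_lit 197) (.e (nat_lit 532503) (nat_lit 1) (.e (nat_lit 57848) (nat_lit 252) (.e (nat_lit 57445) (nat_lit 19) .nil)))) .nil))) (.nd (nat_lit 6) 
(.lf (nat_lit 100653) (.g (nat_lit 2457) (.e (nat_lit 3253) (nat_lit 197) (.e (nat_lit 532501) (nat_lit 1) (.e (nat_lit 57926) (nat_lit 282) (.e (nat_lit 163874) (nat_lit 3) (.e (nat_lit 204862) (nat_lit 27) (.e (nat_lit 344117) (nat_lit 21) (.e (nat_lit 516129) (nat_lit 3) (.e (nat_lit 221204) (nat_lit 20) .nil)))))))) (.g (nat_lit 4) .nil .nil))) 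
(.lf (nat_lit 100717) (.g (nat_lit 1923) (.e (nat_lit 3253) (nat_lit 197) (.e (nat_lit 532504) (nat_lit 1) (.e (nat_lit 57852) (nat_lit 252) (.e (nat_lit 57345) (nat_lit 0) .nil)))) .nil)))) (.nd (nat_lit 5) (.nd (nat_lit 6) 
(.lf (nat_lit 100637) (.g (nat_lit 2140) (.e (nat_lit 3253) (nat_lit 197) (.e (nat_lit 532501) (nat_lit 1) (.e (nat_lit 57851) (nat_lit 252) (.e (nat_lit 57445) (nat_lit 19) (.e (nat_lit 401152) (nat_lit 11) (.e (nat_lit 360192) (nat_lit 0) .nil)))))) (.g (nat_lit 4) .nil .nil))) 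
(.lf (nat_lit 100701) (.g (nat_lit 2754) (.e (nat_lit 3253) (nat_lit 197) (.e (nat_lit 532503) (nat_lit 1) (.e (nat_lit 57930) (nat_lit 282) (.e (nat_lit 163874) (nat_lit 3) (.e (nat_lit 204863) (nat_lit 27) (.e (nat_lit 344117) (nat_lit 21) (.e (nat_lit 516130) (nat_lit 3) (.e (nat_lit 221204) (nat_lit 20) .nil)))))))) (.g (nat_lit 4) .nil .nil)))) (.nd (nat_lit 6) 
(.lf (nat_lit 100669) (.g (nat_lit 2802) (.e (nat_lit 3253) (nat_lit 197) (.e (nat_lit 532501) (nat_lit 1) (.e (nat_lit 57931) (nat_lit 282) (.e (nat_lit 163873) (nat_lit 3) (.e (nat_lit 204862) (nat_lit 27) (.e (nat_lit 344117) (nat_lit 21) (.e (nat_lit 516130) (nat_lit 3) (.e (nat_lit 221204) (nat_lit 20) .nil)))))))) (.g (nat_lit 4) .nil .nil))) 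
(.lf (nat_lit 100733) (.g (nat_lit 2659) (.e (nat_lit 3253) (nat_lit 197) (.e (nat_lit 532504) (nat_lit 1) (.e (nat_lit 57852) (nat_lit 252) (.e (nat_lit 57406) (nat_lit 12) (.e (nat_lit 336374) (nat_lit 27) .nil))))) .nil))))))) (.nd (nat_lit 2) (.nd (nat_lit 3) (.nd (nat_lit 4) (.nd (nat_lit 5) (.nd (nat_lit 6) 
(.lf (nat_lit 100611) (.g (nat_lit 2795) (.e (nat_lit 3253) (nat_lit 197) (.e (nat_lit 532499) (nat_lit 1) (.e (nat_lit 57849) (nat_lit 252) (.e (nat_lit 57379) (nat_lit 3) (.e (nat_lit 98342) (nat_lit 20) (.e (nat_lit 221212) (nat_lit 22) (.e (nat_lit 196665) (nat_lit 13) (.e (nat_lit 65637) (nat_lit 15) .nil)))))))) (.g (nat_lit 4) .nil .nil))) 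
(.lf (nat_lit 100675) (.g (nat_lit 1769) (.e (nat_lit 3253) (nat_lit 197) (.e (nat_lit 532503) (nat_lit 1) (.e (nat_lit 57688) (nat_lit 156) (.e (nat_lit 163874) (nat_lit 3) (.e (nat_lit 204838) (nat_lit 20) .nil))))) .nil))) (.nd (nat_lit 6) 
(.lf (nat_lit 100643) (.g (nat_lit 2636) (.e (nat_lit 3253) (nat_lit 197) (.e (nat_lit 532501) (nat_lit 1) (.e (nat_lit 57852) (nat_lit 252) (.e (nat_lit 57446) (nat_lit 19) (.e (nat_lit 401152) (nat_lit 11) .nil))))) .nil)) 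
(.lf (nat_lit 100707) (.g (nat_lit 5420) (.e (nat_lit 3253) (nat_lit 197) (.e (nat_lit 532503) (nat_lit 1) (.e (nat_lit 57931) (nat_lit 282) (.e (nat_lit 163874) (nat_lit 3) (.e (nat_lit 204862) (nat_lit 27) (.e (nat_lit 344117) (nat_lit 21) (.e (nat_lit 516130) (nat_lit 3) (.e (nat_lit 221204) (nat_lit 20) .nil)))))))) (.g (nat_lit 7) .nil .nil))))) (.nd (nat_lit 5) (.nd (nat_lit 6) 
(.lf (nat_lit 100627) (.g (nat_lit 471) (.e (nat_lit 3253) (nat_lit 197) (.e (nat_lit 532501) (nat_lit 1) (.e (nat_lit 57830) (nat_lit 250) .nil))) .nil)) 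
(.lf (nat_lit 100691) (.g (nat_lit 778) (.e (nat_lit 3253) (nat_lit 197) (.e (nat_lit 532503) (nat_lit 1) (.e (nat_lit 57872) (nat_lit 264) .nil))) .nil))) (.nd (nat_lit 6) 
(.lf (nat_lit 100659) (.g (nat_lit 2379) (.e (nat_lit 3253) (nat_lit 197) (.e (nat_lit 532501) (nat_lit 1) (.e (nat_lit 57927) (nat_lit 282) (.e (nat_lit 163873) (nat_lit 3) (.e (nat_lit 204853) (nat_lit 26) .nil))))) .nil)) 
(.lf (nat_lit 100723) (.g (nat_lit 1948) (.e (nat_lit 3253) (nat_lit 197) (.e (nat_lit 532504) (nat_lit 1) (.e (nat_lit 57852) (nat_lit 252) (.e (nat_lit 57357) (nat_lit 0) .nil)))) .nil))))) (.nd (nat_lit 4) (.nd (nat_lit 5) (.nd (nat_lit 6) 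
(.lf (nat_lit 100619) (.g (nat_lit 4239) (.e (nat_lit 3253) (nat_lit 197) (.e (nat_lit 532499) (nat_lit 1) (.e (nat_lit 57927) (nat_lit 282) (.e (nat_lit 163873) (nat_lit 3) (.e (nat_lit 204862) (nat_lit 27) (.e (nat_lit 344117) (nat_lit 21) (.e (nat_lit 516130) (nat_lit 3) (.e (nat_lit 221204) (nat_lit 20) .nil)))))))) (.g (nat_lit 6) .nil .nil))) 
(.lf (nat_lit 100683) (.g (nat_lit 1444) (.e (nat_lit 3253) (nat_lit 197) (.e (nat_lit 532503) (nat_lit 1) (.e (nat_lit 57848) (nat_lit 252) (.e (nat_lit 57407) (nat_lit 12) (.e (nat_lit 336367) (nat_lit 27) .nil))))) .nil))) (.nd (nat_lit 6) 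
(.lf (nat_lit 100651) (.g (nat_lit 2434) (.e (nat_lit 3253) (nat_lit 197) (.e (nat_lit 532501) (nat_lit 1) (.e (nat_lit 57926) (nat_lit 282) (.e (nat_lit 163873) (nat_lit 3) (.e (nat_lit 204862) (nat_lit 27) .nil))))) .nil)) 
(.lf (nat_lit 100715) (.g (nat_lit 1980) (.e (nat_lit 3253) (nat_lit 197) (.e (nat_lit 532504) (nat_lit 1) (.e (nat_lit 57851) (nat_lit 252) (.e (nat_lit 57445) (nat_lit 19) (.e (nat_lit 401152) (nat_lit 11) (.e (nat_lit 360192) (nat_lit 0) .nil)))))) (.g (nat_lit 4) .nil .nil))))) (.nd (nat_lit 5) (.nd (nat_lit 6) 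
(.lf (nat_lit 100635) (.g (nat_lit 2636) (.e (nat_lit 3253) (nat_lit 197) (.e (nat_lit 532501) (nat_lit 1) (.e (nat_lit 57851) (nat_lit 252) (.e (nat_lit 57445) (nat_lit 19) (.e (nat_lit 393227) (nat_lit 9) (.e (nat_lit 336151) (nat_lit 9) (.e (nat_lit 336300) (nat_lit 15) .nil))))))) (.g (nat_lit 6) .nil .nil))) 
(.lf (nat_lit 100699) (.g (nat_lit 2804) (.e (nat_lit 3253) (nat_lit 197) (.e (nat_lit 532503) (nat_lit 1) (.e (nat_lit 57930) (nat_lit 282) (.e (nat_lit 163873) (nat_lit 3) (.e (nat_lit 204862) (nat_lit 27) (.e (nat_lit 344117) (nat_lit 21) (.e (nat_lit 516130) (nat_lit 3) (.e (nat_lit 221204) (nat_lit 20) .nil)))))))) (.g (nat_lit 4) .nil .nil)))) (.nd (nat_lit 6) 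
(.lf (nat_lit 100667) (.g (nat_lit 3832) (.e (nat_lit 3253) (nat_lit 197) (.e (nat_lit 532501) (nat_lit 1) (.e (nat_lit 57929) (nat_lit 282) (.e (nat_lit 163874) (nat_lit 3) (.e (nat_lit 204863) (nat_lit 27) (.e (nat_lit 344117) (nat_lit 21) (.e (nat_lit 516130) (nat_lit 3) (.e (nat_lit 221204) (nat_lit 20) .nil)))))))) (.g (nat_lit 6) .nil .nil))) 
(.lf (nat_lit 100731) (.g (nat_lit 2487) (.e (nat_lit 3253) (nat_lit 197) (.e (nat_lit 532504) (nat_lit 1) (.e (nat_lit 57852) (nat_lit 252) (.e (nat_lit 57406) (nat_lit 12) (.e (nat_lit 336367) (nat_lit 27) (.e (nat_lit 426538) (nat_lit 29) (.e (nat_lit 352262) (nat_lit 0) .nil))))))) (.g (nat_lit 4) .nil .nil))))))) (.nd (nat_lit 3) (.nd (nat_lit 4) (.nd (nat_lit 5) (.nd (nat_lit 6) 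
(.lf (nat_lit 100615) (.g (nat_lit 2592) (.e (nat_lit 3253) (nat_lit 197) (.e (nat_lit 532499) (nat_lit 1) (.e (nat_lit 57926) (nat_lit 282) (.e (nat_lit 163874) (nat_lit 3) (.e (nat_lit 204851) (nat_lit 26) .nil))))) .nil)) 
(.lf (nat_lit 100679) (.g (nat_lit 1967) (.e (nat_lit 3253) (nat_lit 197) (.e (nat_lit 532503) (nat_lit 1) (.e (nat_lit 57846) (nat_lit 252) (.e (nat_lit 57445) (nat_lit 19) (.e (nat_lit 393229) (nat_lit 9) .nil))))) .nil))) (.nd (nat_lit 6) 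
(.lf (nat_lit 100647) (.g (nat_lit 2161) (.e (nat_lit 3253) (nat_lit 197) (.e (nat_lit 532501) (nat_lit 1) (.e (nat_lit 57926) (nat_lit 282) (.e (nat_lit 163869) (nat_lit 2) (.e (nat_lit 196663) (nat_lit 13) .nil))))) .nil)) 
(.lf (nat_lit 100711) (.g (nat_lit 4879) (.e (nat_lit 3253) (nat_lit 197) (.e (nat_lit 532504) (nat_lit 1) (.e (nat_lit 57829) (nat_lit 250) (.e (nat_lit 1183) (nat_lit 87) (.e (nat_lit 57480) (nat_lit 28) (.e (nat_lit 557105) (nat_lit 14) (.e (nat_lit 180252) (nat_lit 10) (.e (nat_lit 573481) (nat_lit 13) (.e (nat_lit 65637) (nat_lit 15) .nil))))))))) (.g (nat_lit 7) .nil .nil))))) 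
(.nd (nat_lit 5) (.nd (nat_lit 6) 
(.lf (nat_lit 100631) (.g (nat_lit 5681) (.e (nat_lit 3253) (nat_lit 197) (.e (nat_lit 532501) (nat_lit 1) (.e (nat_lit 57830) (nat_lit 250) (.e (nat_lit 1183) (nat_lit 87) (.e (nat_lit 57479) (nat_lit 28) (.e (nat_lit 557105) (nat_lit 14) (.e (nat_lit 180252) (nat_lit 10) (.e (nat_lit 573481) (nat_lit 13) (.e (nat_lit 65637) (nat_lit 15) .nil))))))))) (.g (nat_lit 7) .nil .nil))) 
(.lf (nat_lit 100695) (.g (nat_lit 2566) (.e (nat_lit 3253) (nat_lit 197) (.e (nat_lit 532503) (nat_lit 1) (.e (nat_lit 57929) (nat_lit 282) (.e (nat_lit 163874) (nat_lit 3) (.e (nat_lit 204853) (nat_lit 26) .nil))))) .nil))) (.nd (nat_lit 6) 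
(.lf (nat_lit 100663) (.g (nat_lit 2912) (.e (nat_lit 3253) (nat_lit 197) (.e (nat_lit 532501) (nat_lit 1) (.e (nat_lit 57927) (nat_lit 282) (.e (nat_lit 163874) (nat_lit 3) (.e (nat_lit 204864) (nat_lit 27) (.e (nat_lit 344117) (nat_lit 21) (.e (nat_lit 516130) (nat_lit 3) (.e (nat_lit 221204) (nat_lit 20) .nil)))))))) (.g (nat_lit 4) .nil .nil))) 
(.lf (nat_lit 100727) (.g (nat_lit 1697) (.e (nat_lit 3253) (nat_lit 197) (.e (nat_lit 532504) (nat_lit 1) (.e (nat_lit 57852) (nat_lit 252) (.e (nat_lit 57376) (nat_lit 3) .nil)))) .nil))))) (.nd (nat_lit 4) (.nd (nat_lit 5) (.nd (nat_lit 6) 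
(.lf (nat_lit 100623) (.g (nat_lit 2794) (.e (nat_lit 3253) (nat_lit 197) (.e (nat_lit 532499) (nat_lit 1) (.e (nat_lit 57931) (nat_lit 282) (.e (nat_lit 163869) (nat_lit 2) (.e (nat_lit 196664) (nat_lit 13) .nil))))) .nil)) 
(.lf (nat_lit 100687) (.g (nat_lit 1326) (.e (nat_lit 3253) (nat_lit 197) (.e (nat_lit 532503) (nat_lit 1) (.e (nat_lit 57849) (nat_lit 252) (.e (nat_lit 57445) (nat_lit 19) .nil)))) .nil))) (.nd (nat_lit 6) 
(.lf (nat_lit 100655) (.g (nat_lit 2714) (.e (nat_lit 3253) (nat_lit 197) (.e (nat_lit 532501) (nat_lit 1) (.e (nat_lit 57926) (nat_lit 282) (.e (nat_lit 163874) (nat_lit 3) (.e (nat_lit 204864) (nat_lit 27) .nil))))) .nil)) 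
(.lf (nat_lit 100719) (.g (nat_lit 2906) (.e (nat_lit 3253) (nat_lit 197) (.e (nat_lit 532504) (nat_lit 1) (.e (nat_lit 57852) (nat_lit 252) (.e (nat_lit 57347) (nat_lit 0) (.e (nat_lit 1795) (nat_lit 119) (.e (nat_lit 516131) (nat_lit 3) (.e (nat_lit 221212) (nat_lit 22) (.e (nat_lit 196665) (nat_lit 13) (.e (nat_lit 65637) (nat_lit 15) .nil))))))))) (.g (nat_lit 4) .nil .nil))))) 
(.nd (nat_lit 5) (.nd (nat_lit 6) 
(.lf (nat_lit 100639) (.g (nat_lit 2496) (.e (nat_lit 3253) (nat_lit 197) (.e (nat_lit 532501) (nat_lit 1) (.e (nat_lit 57852) (nat_lit 252) (.e (nat_lit 57445) (nat_lit 19) (.e (nat_lit 401152) (nat_lit 11) .nil))))) .nil)) 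
(.lf (nat_lit 100703) (.g (nat_lit 2579) (.e (nat_lit 3253) (nat_lit 197) (.e (nat_lit 532503) (nat_lit 1) (.e (nat_lit 57931) (nat_lit 282) (.e (nat_lit 163869) (nat_lit 2) (.e (nat_lit 196663) (nat_lit 13) .nil))))) .nil))) (.nd (nat_lit 6) 
(.lf (nat_lit 100671) (.g (nat_lit 4348) (.e (nat_lit 3253) (nat_lit 197) (.e (nat_lit 532501) (nat_lit 1) (.e (nat_lit 57931) (nat_lit 282) (.e (nat_lit 163874) (nat_lit 3) (.e (nat_lit 204862) (nat_lit 27) (.e (nat_lit 344117) (nat_lit 21) (.e (nat_lit 516130) (nat_lit 3) (.e (nat_lit 221204) (nat_lit 20) .nil)))))))) (.g (nat_lit 6) .nil .nil))) 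
(.lf (nat_lit 100735) (.g (nat_lit 1410) (.e (nat_lit 3253) (nat_lit 197) (.e (nat_lit 532504) (nat_lit 1) (.e (nat_lit 57852) (nat_lit 252) (.e (nat_lit 57417) (nat_lit 12) .nil)))) .nil)))))))))

noncomputable def tv1373 : DT := (.nd (nat_lit 0) (.nd (nat_lit 1) (.nd (nat_lit 2) (.nd (nat_lit 3) (.nd (nat_lit 4) (.nd (nat_lit 5) 
(.lf (nat_lit 100736) (.g (nat_lit 933) (.e (nat_lit 3253) (nat_lit 197) (.e (nat_lit 532504) (nat_lit 1) (.e (nat_lit 57852) (nat_lit 252) (.e (nat_lit 57445) (nat_lit 19) .nil)))) .nil)) 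
(.lf (nat_lit 100768) (.g (nat_lit 1863) (.e (nat_lit 3253) (nat_lit 197) (.e (nat_lit 532506) (nat_lit 2) (.e (nat_lit 106536) (nat_lit 11) (.e (nat_lit 16412) (nat_lit 2) (.e (nat_lit 196674) (nat_lit 15) (.e (nat_lit 81922) (nat_lit 0) .nil)))))) (.g (nat_lit 4) .nil .nil)))) (.nd (nat_lit 5) 
(.lf (nat_lit 100752) (.g (nat_lit 2432) (.e (nat_lit 3253) (nat_lit 197) (.e (nat_lit 532504) (nat_lit 1) (.e (nat_lit 57853) (nat_lit 252) (.e (nat_lit 57445) (nat_lit 19) (.e (nat_lit 401152) (nat_lit 11) (.e (nat_lit 352265) (nat_lit 0) .nil)))))) (.g (nat_lit 4) .nil .nil))) 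
(.lf (nat_lit 100784) (.g (nat_lit 2643) (.e (nat_lit 3253) (nat_lit 197) (.e (nat_lit 532515) (nat_lit 3) (.e (nat_lit 114711) (nat_lit 21) (.e (nat_lit 57688) (nat_lit 156) (.e (nat_lit 163868) (nat_lit 2) (.e (nat_lit 196691) (nat_lit 18) (.e (nat_lit 1349) (nat_lit 102) (.e (nat_lit 286748) (nat_lit 9) (.e (nat_lit 336295) (nat_lit 15) .nil))))))))) (.g (nat_lit 4) .nil .nil))))) 
(.nd (nat_lit 4) (.nd (nat_lit 5) 
(.lf (nat_lit 100744) (.g (nat_lit 2014) (.e (nat_lit 3253) (nat_lit 197) (.e (nat_lit 532504) (nat_lit 1) (.e (nat_lit 57852) (nat_lit 252) (.e (nat_lit 57445) (nat_lit 19) (.e (nat_lit 393229) (nat_lit 9) (.e (nat_lit 336086) (nat_lit 9) (.e (nat_lit 336301) (nat_lit 15) .nil))))))) (.g (nat_lit 4) .nil .nil))) 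
(.lf (nat_lit 100776) (.g (nat_lit 1649) (.e (nat_lit 3253) (nat_lit 197) (.e (nat_lit 532508) (nat_lit 2) (.e (nat_lit 106536) (nat_lit 11) (.e (nat_lit 16417) (nat_lit 3) (.e (nat_lit 204866) (nat_lit 28) (.e (nat_lit 352262) (nat_lit 0) .nil)))))) (.g (nat_lit 4) .nil .nil)))) (.nd (nat_lit 5) 
(.lf (nat_lit 100760) (.g (nat_lit 3319) (.e (nat_lit 3253) (nat_lit 197) (.e (nat_lit 532504) (nat_lit 1) (.e (nat_lit 57931) (nat_lit 282) (.e (nat_lit 163873) (nat_lit 3) (.e (nat_lit 204863) (nat_lit 27) (.e (nat_lit 344117) (nat_lit 21) (.e (nat_lit 516130) (nat_lit 3) (.e (nat_lit 221204) (nat_lit 20) .nil)))))))) (.g (nat_lit 4) .nil .nil))) 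
(.lf (nat_lit 100792) (.g (nat_lit 1669) (.e (nat_lit 3253) (nat_lit 197) (.e (nat_lit 532523) (nat_lit 7) (.e (nat_lit 319528) (nat_lit 16) (.e (nat_lit 286727) (nat_lit 0) (.e (nat_lit 1799) (nat_lit 119) (.e (nat_lit 516177) (nat_lit 14) (.e (nat_lit 466967) (nat_lit 20) .nil))))))) (.g (nat_lit 4) .nil .nil)))))) (.nd (nat_lit 3) (.nd (nat_lit 4) (.nd (nat_lit 5) 
(.lf (nat_lit 100740) (.g (nat_lit 2421) (.e (nat_lit 3253) (nat_lit 197) (.e (nat_lit 532504) (nat_lit 1) (.e (nat_lit 57852) (nat_lit 252) (.e (nat_lit 57445) (nat_lit 19) (.e (nat_lit 393229) (nat_lit 9) (.e (nat_lit 336086) (nat_lit 9) (.e (nat_lit 336265) (nat_lit 15) .nil))))))) (.g (nat_lit 5) .nil .nil))) 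
(.lf (nat_lit 100772) (.g (nat_lit 1846) (.e (nat_lit 3253) (nat_lit 197) (.e (nat_lit 532508) (nat_lit 2) (.e (nat_lit 106534) (nat_lit 11) (.e (nat_lit 16413) (nat_lit 2) (.e (nat_lit 196672) (nat_lit 15) (.e (nat_lit 81924) (nat_lit 0) .nil)))))) (.g (nat_lit 5) .nil .nil)))) (.nd (nat_lit 5) 
(.lf (nat_lit 100756) (.g (nat_lit 2571) (.e (nat_lit 3253) (nat_lit 197) (.e (nat_lit 532504) (nat_lit 1) (.e (nat_lit 57929) (nat_lit 282) (.e (nat_lit 163874) (nat_lit 3) (.e (nat_lit 204863) (nat_lit 27) (.e (nat_lit 344117) (nat_lit 21) (.e (nat_lit 516129) (nat_lit 3) (.e (nat_lit 221204) (nat_lit 20) .nil)))))))) (.g (nat_lit 4) .nil .nil))) 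
(.lf (nat_lit 100788) (.g (nat_lit 2504) (.e (nat_lit 3253) (nat_lit 197) (.e (nat_lit 532522) (nat_lit 7) (.e (nat_lit 319531) (nat_lit 16) (.e (nat_lit 286727) (nat_lit 0) (.e (nat_lit 1799) (nat_lit 119) .nil))))) .nil)))) (.nd (nat_lit 4) (.nd (nat_lit 5) 
(.lf (nat_lit 100748) (.g (nat_lit 1453) (.e (nat_lit 3253) (nat_lit 197) (.e (nat_lit 532504) (nat_lit 1) (.e (nat_lit 57852) (nat_lit 252) (.e (nat_lit 57447) (nat_lit 19) .nil)))) .nil)) 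
(.lf (nat_lit 100780) (.g (nat_lit 2078) (.e (nat_lit 3253) (nat_lit 197) (.e (nat_lit 532511) (nat_lit 2) (.e (nat_lit 106536) (nat_lit 11) (.e (nat_lit 16412) (nat_lit 2) (.e (nat_lit 196672) (nat_lit 15) (.e (nat_lit 89856) (nat_lit 0) .nil)))))) (.g (nat_lit 5) .nil .nil)))) (.nd (nat_lit 5) 
(.lf (nat_lit 100764) (.g (nat_lit 3067) (.e (nat_lit 3253) (nat_lit 197) (.e (nat_lit 532504) (nat_lit 1) (.e (nat_lit 57931) (nat_lit 282) (.e (nat_lit 163874) (nat_lit 3) (.e (nat_lit 204863) (nat_lit 27) (.e (nat_lit 344117) (nat_lit 21) (.e (nat_lit 516129) (nat_lit 3) (.e (nat_lit 221204) (nat_lit 20) .nil)))))))) (.g (nat_lit 4) .nil .nil))) 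
(.lf (nat_lit 100796) (.g (nat_lit 2748) (.e (nat_lit 3253) (nat_lit 197) (.e (nat_lit 532523) (nat_lit 7) (.e (nat_lit 319530) (nat_lit 16) (.e (nat_lit 286727) (nat_lit 0) (.e (nat_lit 1799) (nat_lit 119) (.e (nat_lit 516176) (nat_lit 14) (.e (nat_lit 466967) (nat_lit 20) .nil))))))) (.g (nat_lit 4) .nil .nil))))))) (.nd (nat_lit 2) (.nd (nat_lit 3) (.nd (nat_lit 4) (.nd (nat_lit 5) 
(.lf (nat_lit 100738) (.g (nat_lit 2506) (.e (nat_lit 3253) (nat_lit 197) (.e (nat_lit 532504) (nat_lit 1) (.e (nat_lit 57852) (nat_lit 252) (.e (nat_lit 57445) (nat_lit 19) (.e (nat_lit 393229) (nat_lit 9) (.e (nat_lit 336085) (nat_lit 9) (.e (nat_lit 336270) (nat_lit 15) .nil))))))) (.g (nat_lit 5) .nil .nil))) 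
(.lf (nat_lit 100770) (.g (nat_lit 2181) (.e (nat_lit 3253) (nat_lit 197) (.e (nat_lit 532506) (nat_lit 2) (.e (nat_lit 106536) (nat_lit 11) (.e (nat_lit 16416) (nat_lit 3) (.e (nat_lit 204866) (nat_lit 28) (.e (nat_lit 352262) (nat_lit 0) .nil)))))) (.g (nat_lit 5) .nil .nil)))) (.nd (nat_lit 5) 
(.lf (nat_lit 100754) (.g (nat_lit 2708) (.e (nat_lit 3253) (nat_lit 197) (.e (nat_lit 532504) (nat_lit 1) (.e (nat_lit 57929) (nat_lit 282) (.e (nat_lit 163874) (nat_lit 3) (.e (nat_lit 204862) (nat_lit 27) (.e (nat_lit 344117) (nat_lit 21) (.e (nat_lit 516129) (nat_lit 3) (.e (nat_lit 221204) (nat_lit 20) .nil)))))))) (.g (nat_lit 4) .nil .nil))) 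
(.lf (nat_lit 100786) (.g (nat_lit 3253) (.e (nat_lit 3253) (nat_lit 197) (.e (nat_lit 532522) (nat_lit 7) (.e (nat_lit 319530) (nat_lit 16) (.e (nat_lit 286727) (nat_lit 0) (.e (nat_lit 1799) (nat_lit 119) (.e (nat_lit 516177) (nat_lit 14) (.e (nat_lit 466967) (nat_lit 20) .nil))))))) (.g (nat_lit 4) .nil .nil))))) (.nd (nat_lit 4) (.nd (nat_lit 5) 
(.lf (nat_lit 100746) (.g (nat_lit 2942) (.e (nat_lit 3253) (nat_lit 197) (.e (nat_lit 532504) (nat_lit 1) (.e (nat_lit 57852) (nat_lit 252) (.e (nat_lit 57445) (nat_lit 19) (.e (nat_lit 401152) (nat_lit 11) (.e (nat_lit 352266) (nat_lit 0) .nil)))))) (.g (nat_lit 4) .nil .nil))) 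
(.lf (nat_lit 100778) (.g (nat_lit 2005) (.e (nat_lit 3253) (nat_lit 197) (.e (nat_lit 532510) (nat_lit 2) (.e (nat_lit 106536) (nat_lit 11) (.e (nat_lit 16412) (nat_lit 2) (.e (nat_lit 196672) (nat_lit 15) (.e (nat_lit 89856) (nat_lit 0) .nil)))))) (.g (nat_lit 5) .nil .nil)))) (.nd (nat_lit 5) 
(.lf (nat_lit 100762) (.g (nat_lit 3257) (.e (nat_lit 3253) (nat_lit 197) (.e (nat_lit 532504) (nat_lit 1) (.e (nat_lit 57931) (nat_lit 282) (.e (nat_lit 163874) (nat_lit 3) (.e (nat_lit 204862) (nat_lit 27) (.e (nat_lit 344117) (nat_lit 21) (.e (nat_lit 516129) (nat_lit 3) (.e (nat_lit 221204) (nat_lit 20) .nil)))))))) (.g (nat_lit 4) .nil .nil))) 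
(.lf (nat_lit 100794) (.g (nat_lit 3220) (.e (nat_lit 3253) (nat_lit 197) (.e (nat_lit 532523) (nat_lit 7) (.e (nat_lit 319529) (nat_lit 16) (.e (nat_lit 286735) (nat_lit 3) (.e (nat_lit 98382) (nat_lit 31) (.e (nat_lit 466967) (nat_lit 20) .nil)))))) (.g (nat_lit 0) .nil .nil)))))) (.nd (nat_lit 3) (.nd (nat_lit 4) (.nd (nat_lit 5) 
(.lf (nat_lit 100742) (.g (nat_lit 3386) (.e (nat_lit 3253) (nat_lit 197) (.e (nat_lit 532504) (nat_lit 1) (.e (nat_lit 57852) (nat_lit 252) (.e (nat_lit 57445) (nat_lit 19) (.e (nat_lit 393229) (nat_lit 9) (.e (nat_lit 336086) (nat_lit 9) (.e (nat_lit 336270) (nat_lit 15) .nil))))))) (.g (nat_lit 6) .nil .nil))) 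
(.lf (nat_lit 100774) (.g (nat_lit 2581) (.e (nat_lit 3253) (nat_lit 197) (.e (nat_lit 532508) (nat_lit 2) (.e (nat_lit 106536) (nat_lit 11) (.e (nat_lit 16412) (nat_lit 2) (.e (nat_lit 196672) (nat_lit 15) (.e (nat_lit 81924) (nat_lit 0) .nil)))))) (.g (nat_lit 5) .nil .nil)))) (.nd (nat_lit 5) 
(.lf (nat_lit 100758) (.g (nat_lit 3080) (.e (nat_lit 3253) (nat_lit 197) (.e (nat_lit 532504) (nat_lit 1) (.e (nat_lit 57929) (nat_lit 282) (.e (nat_lit 163874) (nat_lit 3) (.e (nat_lit 204864) (nat_lit 27) (.e (nat_lit 344117) (nat_lit 21) (.e (nat_lit 516130) (nat_lit 3) (.e (nat_lit 221204) (nat_lit 20) .nil)))))))) (.g (nat_lit 4) .nil .nil))) 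
(.lf (nat_lit 100790) (.g (nat_lit 1706) (.e (nat_lit 3253) (nat_lit 197) (.e (nat_lit 532523) (nat_lit 7) (.e (nat_lit 319504) (nat_lit 10) (.e (nat_lit 5392) (nat_lit 301) .nil)))) .nil)))) (.nd (nat_lit 4) (.nd (nat_lit 5) 
(.lf (nat_lit 100750) (.g (nat_lit 2419) (.e (nat_lit 3253) (nat_lit 197) (.e (nat_lit 532504) (nat_lit 1) (.e (nat_lit 57852) (nat_lit 252) (.e (nat_lit 57447) (nat_lit 19) (.e (nat_lit 401152) (nat_lit 14) (.e (nat_lit 376835) (nat_lit 0) .nil)))))) (.g (nat_lit 4) .nil .nil))) 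
(.lf (nat_lit 100782) (.g (nat_lit 1970) (.e (nat_lit 3253) (nat_lit 197) (.e (nat_lit 532513) (nat_lit 3) (.e (nat_lit 114710) (nat_lit 21) (.e (nat_lit 57691) (nat_lit 156) (.e (nat_lit 163871) (nat_lit 2) .nil))))) .nil))) (.nd (nat_lit 5) 
(.lf (nat_lit 100766) (.g (nat_lit 3402) (.e (nat_lit 3253) (nat_lit 197) (.e (nat_lit 532504) (nat_lit 1) (.e (nat_lit 57931) (nat_lit 282) (.e (nat_lit 163874) (nat_lit 3) (.e (nat_lit 204864) (nat_lit 27) (.e (nat_lit 344117) (nat_lit 21) (.e (nat_lit 516130) (nat_lit 3) (.e (nat_lit 221204) (nat_lit 20) .nil)))))))) (.g (nat_lit 4) .nil .nil))) 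
(.lf (nat_lit 100798) (.g (nat_lit 2434) (.e (nat_lit 3253) (nat_lit 197) (.e (nat_lit 532523) (nat_lit 7) (.e (nat_lit 319531) (nat_lit 16) (.e (nat_lit 286727) (nat_lit 0) (.e (nat_lit 1799) (nat_lit 119) .nil))))) .nil))))))) (.nd (nat_lit 1) (.nd (nat_lit 2) (.nd (nat_lit 3) (.nd (nat_lit 4) (.nd (nat_lit 5) 
(.lf (nat_lit 100737) (.g (nat_lit 1887) (.e (nat_lit 3253) (nat_lit 197) (.e (nat_lit 532504) (nat_lit 1) (.e (nat_lit 57852) (nat_lit 252) (.e (nat_lit 57445) (nat_lit 19) (.e (nat_lit 393227) (nat_lit 9) (.e (nat_lit 336153) (nat_lit 9) (.e (nat_lit 336300) (nat_lit 15) .nil))))))) (.g (nat_lit 4) .nil .nil))) 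
(.lf (nat_lit 100769) (.g (nat_lit 1964) (.e (nat_lit 3253) (nat_lit 197) (.e (nat_lit 532506) (nat_lit 2) (.e (nat_lit 106536) (nat_lit 11) (.e (nat_lit 16416) (nat_lit 3) (.e (nat_lit 204865) (nat_lit 28) (.e (nat_lit 352262) (nat_lit 0) .nil)))))) (.g (nat_lit 4) .nil .nil)))) (.nd (nat_lit 5) 
(.lf (nat_lit 100753) (.g (nat_lit 2591) (.e (nat_lit 3253) (nat_lit 197) (.e (nat_lit 532504) (nat_lit 1) (.e (nat_lit 57929) (nat_lit 282) (.e (nat_lit 163873) (nat_lit 3) (.e (nat_lit 204862) (nat_lit 27) (.e (nat_lit 344117) (nat_lit 21) (.e (nat_lit 516130) (nat_lit 3) (.e (nat_lit 221204) (nat_lit 20) .nil)))))))) (.g (nat_lit 4) .nil .nil))) 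
(.lf (nat_lit 100785) (.g (nat_lit 3121) (.e (nat_lit 3253) (nat_lit 197) (.e (nat_lit 532522) (nat_lit 7) (.e (nat_lit 319530) (nat_lit 16) (.e (nat_lit 286727) (nat_lit 0) (.e (nat_lit 1799) (nat_lit 119) .nil))))) .nil)))) (.nd (nat_lit 4) (.nd (nat_lit 5) 
(.lf (nat_lit 100745) (.g (nat_lit 2834) (.e (nat_lit 3253) (nat_lit 197) (.e (nat_lit 532504) (nat_lit 1) (.e (nat_lit 57852) (nat_lit 252) (.e (nat_lit 57445) (nat_lit 19) (.e (nat_lit 401152) (nat_lit 11) (.e (nat_lit 352265) (nat_lit 0) .nil)))))) (.g (nat_lit 4) .nil .nil))) 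
(.lf (nat_lit 100777) (.g (nat_lit 1563) (.e (nat_lit 3253) (nat_lit 197) (.e (nat_lit 532509) (nat_lit 2) (.e (nat_lit 106536) (nat_lit 11) (.e (nat_lit 16416) (nat_lit 3) (.e (nat_lit 204876) (nat_lit 31) .nil))))) .nil))) (.nd (nat_lit 5) 
(.lf (nat_lit 100761) (.g (nat_lit 2874) (.e (nat_lit 3253) (nat_lit 197) (.e (nat_lit 532504) (nat_lit 1) (.e (nat_lit 57931) (nat_lit 282) (.e (nat_lit 163874) (nat_lit 3) (.e (nat_lit 204853) (nat_lit 26) .nil))))) .nil)) 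
(.lf (nat_lit 100793) (.g (nat_lit 2020) (.e (nat_lit 3253) (nat_lit 197) (.e (nat_lit 532523) (nat_lit 7) (.e (nat_lit 319529) (nat_lit 16) (.e (nat_lit 286727) (nat_lit 0) (.e (nat_lit 1799) (nat_lit 119) .nil))))) .nil))))) (.nd (nat_lit 3) (.nd (nat_lit 4) (.nd (nat_lit 5) 
(.lf (nat_lit 100741) (.g (nat_lit 2129) (.e (nat_lit 3253) (nat_lit 197) (.e (nat_lit 532504) (nat_lit 1) (.e (nat_lit 57852) (nat_lit 252) (.e (nat_lit 57445) (nat_lit 19) (.e (nat_lit 393229) (nat_lit 9) (.e (nat_lit 336086) (nat_lit 9) (.e (nat_lit 336269) (nat_lit 15) .nil))))))) (.g (nat_lit 4) .nil .nil))) 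
(.lf (nat_lit 100773) (.g (nat_lit 1664) (.e (nat_lit 3253) (nat_lit 197) (.e (nat_lit 532508) (nat_lit 2) (.e (nat_lit 106536) (nat_lit 11) (.e (nat_lit 16412) (nat_lit 2) (.e (nat_lit 196672) (nat_lit 15) .nil))))) .nil))) (.nd (nat_lit 5) 
(.lf (nat_lit 100757) (.g (nat_lit 4493) (.e (nat_lit 3253) (nat_lit 197) (.e (nat_lit 532504) (nat_lit 1) (.e (nat_lit 57929) (nat_lit 282) (.e (nat_lit 163874) (nat_lit 3) (.e (nat_lit 204863) (nat_lit 27) (.e (nat_lit 344117) (nat_lit 21) (.e (nat_lit 516130) (nat_lit 3) (.e (nat_lit 221204) (nat_lit 20) .nil)))))))) (.g (nat_lit 7) .nil .nil))) 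
(.lf (nat_lit 100789) (.g (nat_lit 848) (.e (nat_lit 3253) (nat_lit 197) (.e (nat_lit 532523) (nat_lit 7) (.e (nat_lit 319502) (nat_lit 10) .nil))) .nil)))) (.nd (nat_lit 4) (.nd (nat_lit 5) 
(.lf (nat_lit 100749) (.g (nat_lit 2450) (.e (nat_lit 3253) (nat_lit 197) (.e (nat_lit 532504) (nat_lit 1) (.e (nat_lit 57852) (nat_lit 252) (.e (nat_lit 57447) (nat_lit 19) (.e (nat_lit 401152) (nat_lit 11) (.e (nat_lit 352262) (nat_lit 0) .nil)))))) (.g (nat_lit 4) .nil .nil))) 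
(.lf (nat_lit 100781) (.g (nat_lit 2051) (.e (nat_lit 3253) (nat_lit 197) (.e (nat_lit 532511) (nat_lit 2) (.e (nat_lit 106536) (nat_lit 11) (.e (nat_lit 16412) (nat_lit 2) (.e (nat_lit 196674) (nat_lit 15) (.e (nat_lit 89856) (nat_lit 0) .nil)))))) (.g (nat_lit 5) .nil .nil)))) (.nd (nat_lit 5) 
(.lf (nat_lit 100765) (.g (nat_lit 4989) (.e (nat_lit 3253) (nat_lit 197) (.e (nat_lit 532504) (nat_lit 1) (.e (nat_lit 57931) (nat_lit 282) (.e (nat_lit 163874) (nat_lit 3) (.e (nat_lit 204863) (nat_lit 27) (.e (nat_lit 344117) (nat_lit 21) (.e (nat_lit 516130) (nat_lit 3) (.e (nat_lit 221204) (nat_lit 20) .nil)))))))) (.g (nat_lit 7) .nil .nil))) 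
(.lf (nat_lit 100797) (.g (nat_lit 3890) (.e (nat_lit 3253) (nat_lit 197) (.e (nat_lit 532523) (nat_lit 7) (.e (nat_lit 319530) (nat_lit 16) (.e (nat_lit 286733) (nat_lit 2) (.e (nat_lit 90178) (nat_lit 15) (.e (nat_lit 196352) (nat_lit 20) .nil)))))) (.g (nat_lit 5) .nil .nil))))))) (.nd (nat_lit 2) (.nd (nat_lit 3) (.nd (nat_lit 4) (.nd (nat_lit 5) 
(.lf (nat_lit 100739) (.g (nat_lit 2404) (.e (nat_lit 3253) (nat_lit 197) (.e (nat_lit 532504) (nat_lit 1) (.e (nat_lit 57852) (nat_lit 252) (.e (nat_lit 57445) (nat_lit 19) (.e (nat_lit 393229) (nat_lit 9) (.e (nat_lit 336086) (nat_lit 9) (.e (nat_lit 336263) (nat_lit 15) .nil))))))) (.g (nat_lit 5) .nil .nil))) 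
(.lf (nat_lit 100771) (.g (nat_lit 2172) (.e (nat_lit 3253) (nat_lit 197) (.e (nat_lit 532508) (nat_lit 2) (.e (nat_lit 106534) (nat_lit 11) (.e (nat_lit 16412) (nat_lit 2) (.e (nat_lit 196672) (nat_lit 15) (.e (nat_lit 81924) (nat_lit 0) .nil)))))) (.g (nat_lit 5) .nil .nil)))) (.nd (nat_lit 5) 
(.lf (nat_lit 100755) (.g (nat_lit 4685) (.e (nat_lit 3253) (nat_lit 197) (.e (nat_lit 532504) (nat_lit 1) (.e (nat_lit 57929) (nat_lit 282) (.e (nat_lit 163874) (nat_lit 3) (.e (nat_lit 204862) (nat_lit 27) (.e (nat_lit 344117) (nat_lit 21) (.e (nat_lit 516130) (nat_lit 3) (.e (nat_lit 221204) (nat_lit 20) .nil)))))))) (.g (nat_lit 7) .nil .nil))) 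
(.lf (nat_lit 100787) (.g (nat_lit 2460) (.e (nat_lit 3253) (nat_lit 197) (.e (nat_lit 532522) (nat_lit 7) (.e (nat_lit 319530) (nat_lit 16) (.e (nat_lit 286733) (nat_lit 2) (.e (nat_lit 90178) (nat_lit 15) (.e (nat_lit 196352) (nat_lit 20) .nil)))))) (.g (nat_lit 4) .nil .nil))))) (.nd (nat_lit 4) (.nd (nat_lit 5) 
(.lf (nat_lit 100747) (.g (nat_lit 2423) (.e (nat_lit 3253) (nat_lit 197) (.e (nat_lit 532504) (nat_lit 1) (.e (nat_lit 57852) (nat_lit 252) (.e (nat_lit 57445) (nat_lit 19) (.e (nat_lit 401152) (nat_lit 11) (.e (nat_lit 360192) (nat_lit 0) .nil)))))) (.g (nat_lit 4) .nil .nil))) 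
(.lf (nat_lit 100779) (.g (nat_lit 1979) (.e (nat_lit 3253) (nat_lit 197) (.e (nat_lit 532510) (nat_lit 2) (.e (nat_lit 106536) (nat_lit 11) (.e (nat_lit 16412) (nat_lit 2) (.e (nat_lit 196674) (nat_lit 15) (.e (nat_lit 89856) (nat_lit 0) .nil)))))) (.g (nat_lit 5) .nil .nil)))) (.nd (nat_lit 5) 
(.lf (nat_lit 100763) (.g (nat_lit 5234) (.e (nat_lit 3253) (nat_lit 197) (.e (nat_lit 532504) (nat_lit 1) (.e (nat_lit 57931) (nat_lit 282) (.e (nat_lit 163874) (nat_lit 3) (.e (nat_lit 204862) (nat_lit 27) (.e (nat_lit 344117) (nat_lit 21) (.e (nat_lit 516130) (nat_lit 3) (.e (nat_lit 221204) (nat_lit 20) .nil)))))))) (.g (nat_lit 7) .nil .nil))) 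
(.lf (nat_lit 100795) (.g (nat_lit 2439) (.e (nat_lit 3253) (nat_lit 197) (.e (nat_lit 532523) (nat_lit 7) (.e (nat_lit 319530) (nat_lit 16) (.e (nat_lit 286727) (nat_lit 0) (.e (nat_lit 1799) (nat_lit 119) .nil))))) .nil))))) (.nd (nat_lit 3) (.nd (nat_lit 4) (.nd (nat_lit 5) 
(.lf (nat_lit 100743) (.g (nat_lit 2180) (.e (nat_lit 3253) (nat_lit 197) (.e (nat_lit 532504) (nat_lit 1) (.e (nat_lit 57852) (nat_lit 252) (.e (nat_lit 57445) (nat_lit 19) (.e (nat_lit 393229) (nat_lit 9) (.e (nat_lit 336086) (nat_lit 9) (.e (nat_lit 336285) (nat_lit 15) .nil))))))) (.g (nat_lit 4) .nil .nil))) 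
(.lf (nat_lit 100775) (.g (nat_lit 1784) (.e (nat_lit 3253) (nat_lit 197) (.e (nat_lit 532508) (nat_lit 2) (.e (nat_lit 106536) (nat_lit 11) (.e (nat_lit 16413) (nat_lit 2) (.e (nat_lit 196674) (nat_lit 15) (.e (nat_lit 81922) (nat_lit 0) .nil)))))) (.g (nat_lit 4) .nil .nil)))) (.nd (nat_lit 5) 
(.lf (nat_lit 100759) (.g (nat_lit 3824) (.e (nat_lit 3253) (nat_lit 197) (.e (nat_lit 532504) (nat_lit 1) (.e (nat_lit 57931) (nat_lit 282) (.e (nat_lit 163873) (nat_lit 3) (.e (nat_lit 204862) (nat_lit 27) (.e (nat_lit 344117) (nat_lit 21) (.e (nat_lit 516130) (nat_lit 3) (.e (nat_lit 221204) (nat_lit 20) .nil)))))))) (.g (nat_lit 5) .nil .nil))) 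
(.lf (nat_lit 100791) (.g (nat_lit 1058) (.e (nat_lit 3253) (nat_lit 197) (.e (nat_lit 532523) (nat_lit 7) (.e (nat_lit 319511) (nat_lit 10) (.e (nat_lit 5394) (nat_lit 301) .nil)))) .nil)))) (.nd (nat_lit 4) (.nd (nat_lit 5) 
(.lf (nat_lit 100751) (.g (nat_lit 2230) (.e (nat_lit 3253) (nat_lit 197) (.e (nat_lit 532504) (nat_lit 1) (.e (nat_lit 57853) (nat_lit 252) (.e (nat_lit 57445) (nat_lit 19) (.e (nat_lit 393227) (nat_lit 9) (.e (nat_lit 336151) (nat_lit 9) (.e (nat_lit 336300) (nat_lit 15) .nil))))))) (.g (nat_lit 4) .nil .nil))) 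
(.lf (nat_lit 100783) (.g (nat_lit 2489) (.e (nat_lit 3253) (nat_lit 197) (.e (nat_lit 532513) (nat_lit 3) (.e (nat_lit 114714) (nat_lit 22) (.e (nat_lit 90169) (nat_lit 13) (.e (nat_lit 172133) (nat_lit 15) (.e (nat_lit 1800) (nat_lit 119) (.e (nat_lit 516120) (nat_lit 1) (.e (nat_lit 164330) (nat_lit 230) (.e (nat_lit 163857) (nat_lit 0) .nil))))))))) (.g (nat_lit 4) .nil .nil)))) 
(.nd (nat_lit 5) 
(.lf (nat_lit 100767) (.g (nat_lit 1901) (.e (nat_lit 3253) (nat_lit 197) (.e (nat_lit 532506) (nat_lit 2) (.e (nat_lit 106536) (nat_lit 11) (.e (nat_lit 16412) (nat_lit 2) (.e (nat_lit 196672) (nat_lit 15) (.e (nat_lit 81924) (nat_lit 0) .nil)))))) (.g (nat_lit 4) .nil .nil))) 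
(.lf (nat_lit 100799) (.g (nat_lit 2729) (.e (nat_lit 3253) (nat_lit 197) (.e (nat_lit 532523) (nat_lit 7) (.e (nat_lit 319531) (nat_lit 16) (.e (nat_lit 286727) (nat_lit 0) (.e (nat_lit 1799) (nat_lit 119) (.e (nat_lit 516177) (nat_lit 14) (.e (nat_lit 466967) (nat_lit 20) .nil))))))) (.g (nat_lit 4) .nil .nil)))))))))

noncomputable def tv1374 : DT := (.nd (nat_lit 0) (.nd (nat_lit 1) (.nd (nat_lit 2) (.nd (nat_lit 3) (.nd (nat_lit 4) (.nd (nat_lit 5) 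
(.lf (nat_lit 100800) (.g (nat_lit 3983) (.e (nat_lit 3253) (nat_lit 197) (.e (nat_lit 532523) (nat_lit 7) (.e (nat_lit 319531) (nat_lit 16) (.e (nat_lit 286733) (nat_lit 2) (.e (nat_lit 90178) (nat_lit 15) (.e (nat_lit 196352) (nat_lit 20) .nil)))))) (.g (nat_lit 4) .nil .nil))) 
(.lf (nat_lit 100832) (.g (nat_lit 2124) (.e (nat_lit 3253) (nat_lit 197) (.e (nat_lit 532543) (nat_lit 10) (.e (nat_lit 344132) (nat_lit 26) (.e (nat_lit 557100) (nat_lit 13) (.e (nat_lit 172064) (nat_lit 2) (.e (nat_lit 204544) (nat_lit 2) (.e (nat_lit 24669) (nat_lit 15) .nil))))))) (.g (nat_lit 4) .nil .nil)))) (.nd (nat_lit 5) 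
(.lf (nat_lit 100816) (.g (nat_lit 2494) (.e (nat_lit 3253) (nat_lit 197) (.e (nat_lit 532523) (nat_lit 7) (.e (nat_lit 319534) (nat_lit 16) (.e (nat_lit 286728) (nat_lit 0) (.e (nat_lit 1788) (nat_lit 119) (.e (nat_lit 516177) (nat_lit 14) (.e (nat_lit 466967) (nat_lit 20) .nil))))))) (.g (nat_lit 4) .nil .nil))) 
(.lf (nat_lit 100848) (.g (nat_lit 1943) (.e (nat_lit 3253) (nat_lit 197) (.e (nat_lit 532563) (nat_lit 15) (.e (nat_lit 385066) (nat_lit 26) (.e (nat_lit 532530) (nat_lit 9) (.e (nat_lit 336326) (nat_lit 18) .nil))))) .nil)))) (.nd (nat_lit 4) (.nd (nat_lit 5) 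
(.lf (nat_lit 100808) (.g (nat_lit 2556) (.e (nat_lit 3253) (nat_lit 197) (.e (nat_lit 532523) (nat_lit 7) (.e (nat_lit 319533) (nat_lit 16) (.e (nat_lit 286732) (nat_lit 2) (.e (nat_lit 90178) (nat_lit 15) .nil))))) .nil)) 
(.lf (nat_lit 100840) (.g (nat_lit 4018) (.e (nat_lit 3253) (nat_lit 197) (.e (nat_lit 532544) (nat_lit 10) (.e (nat_lit 344169) (nat_lit 40) (.e (nat_lit 671759) (nat_lit 3) (.e (nat_lit 57479) (nat_lit 28) (.e (nat_lit 557109) (nat_lit 15) (.e (nat_lit 196352) (nat_lit 20) .nil))))))) (.g (nat_lit 6) .nil .nil)))) (.nd (nat_lit 5) 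
(.lf (nat_lit 100824) (.g (nat_lit 3927) (.e (nat_lit 3253) (nat_lit 197) (.e (nat_lit 532523) (nat_lit 7) (.e (nat_lit 319534) (nat_lit 16) (.e (nat_lit 286735) (nat_lit 3) (.e (nat_lit 98370) (nat_lit 28) (.e (nat_lit 442417) (nat_lit 20) .nil)))))) (.g (nat_lit 0) .nil .nil))) 
(.lf (nat_lit 100856) (.g (nat_lit 4001) (.e (nat_lit 3253) (nat_lit 197) (.e (nat_lit 532563) (nat_lit 15) (.e (nat_lit 385094) (nat_lit 49) (.e (nat_lit 778317) (nat_lit 3) (.e (nat_lit 57479) (nat_lit 28) (.e (nat_lit 557109) (nat_lit 15) (.e (nat_lit 196352) (nat_lit 20) .nil))))))) (.g (nat_lit 5) .nil .nil)))))) (.nd (nat_lit 3) (.nd (nat_lit 4) (.nd (nat_lit 5) 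
(.lf (nat_lit 100804) (.g (nat_lit 1487) (.e (nat_lit 3253) (nat_lit 197) (.e (nat_lit 532523) (nat_lit 7) (.e (nat_lit 319533) (nat_lit 16) (.e (nat_lit 286723) (nat_lit 0) .nil)))) .nil)) 
(.lf (nat_lit 100836) (.g (nat_lit 2655) (.e (nat_lit 3253) (nat_lit 197) (.e (nat_lit 532543) (nat_lit 10) (.e (nat_lit 344133) (nat_lit 26) (.e (nat_lit 557098) (nat_lit 13) (.e (nat_lit 172140) (nat_lit 22) (.e (nat_lit 139280) (nat_lit 4) (.e (nat_lit 65642) (nat_lit 15) .nil))))))) (.g (nat_lit 4) .nil .nil)))) (.nd (nat_lit 5) 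
(.lf (nat_lit 100820) (.g (nat_lit 1398) (.e (nat_lit 3253) (nat_lit 197) (.e (nat_lit 532523) (nat_lit 7) (.e (nat_lit 319534) (nat_lit 16) (.e (nat_lit 294656) (nat_lit 0) .nil)))) .nil)) 
(.lf (nat_lit 100852) (.g (nat_lit 4335) (.e (nat_lit 3253) (nat_lit 197) (.e (nat_lit 532563) (nat_lit 15) (.e (nat_lit 385094) (nat_lit 49) (.e (nat_lit 778317) (nat_lit 3) (.e (nat_lit 57476) (nat_lit 28) (.e (nat_lit 557108) (nat_lit 15) (.e (nat_lit 196352) (nat_lit 20) .nil))))))) (.g (nat_lit 6) .nil .nil))))) (.nd (nat_lit 4) (.nd (nat_lit 5) 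
(.lf (nat_lit 100812) (.g (nat_lit 2346) (.e (nat_lit 3253) (nat_lit 197) (.e (nat_lit 532523) (nat_lit 7) (.e (nat_lit 319534) (nat_lit 16) (.e (nat_lit 286723) (nat_lit 0) .nil)))) .nil)) 
(.lf (nat_lit 100844) (.g (nat_lit 2088) (.e (nat_lit 3253) (nat_lit 197) (.e (nat_lit 532545) (nat_lit 10) (.e (nat_lit 344133) (nat_lit 26) (.e (nat_lit 557098) (nat_lit 13) (.e (nat_lit 172140) (nat_lit 22) (.e (nat_lit 139280) (nat_lit 4) (.e (nat_lit 65642) (nat_lit 15) .nil))))))) (.g (nat_lit 4) .nil .nil)))) (.nd (nat_lit 5) 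
(.lf (nat_lit 100828) (.g (nat_lit 2135) (.e (nat_lit 3253) (nat_lit 197) (.e (nat_lit 532535) (nat_lit 9) (.e (nat_lit 336176) (nat_lit 10) .nil))) .nil)) 
(.lf (nat_lit 100860) (.g (nat_lit 1884) (.e (nat_lit 3253) (nat_lit 197) (.e (nat_lit 532566) (nat_lit 15) (.e (nat_lit 385092) (nat_lit 49) (.e (nat_lit 778317) (nat_lit 3) (.e (nat_lit 57476) (nat_lit 28) (.e (nat_lit 557107) (nat_lit 15) (.e (nat_lit 196352) (nat_lit 20) .nil))))))) (.g (nat_lit 5) .nil .nil))))))) (.nd (nat_lit 2) (.nd (nat_lit 3) (.nd (nat_lit 4) (.nd (nat_lit 5) 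
(.lf (nat_lit 100802) (.g (nat_lit 1276) (.e (nat_lit 3253) (nat_lit 197) (.e (nat_lit 532523) (nat_lit 7) (.e (nat_lit 319532) (nat_lit 16) (.e (nat_lit 286732) (nat_lit 2) .nil)))) .nil)) 
(.lf (nat_lit 100834) (.g (nat_lit 3165) (.e (nat_lit 3253) (nat_lit 197) (.e (nat_lit 532543) (nat_lit 10) (.e (nat_lit 344133) (nat_lit 26) (.e (nat_lit 557098) (nat_lit 13) (.e (nat_lit 172064) (nat_lit 2) (.e (nat_lit 204544) (nat_lit 2) (.e (nat_lit 24669) (nat_lit 15) .nil))))))) (.g (nat_lit 5) .nil .nil)))) (.nd (nat_lit 5) 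
(.lf (nat_lit 100818) (.g (nat_lit 3556) (.e (nat_lit 3253) (nat_lit 197) (.e (nat_lit 532523) (nat_lit 7) (.e (nat_lit 319534) (nat_lit 16) (.e (nat_lit 286728) (nat_lit 0) (.e (nat_lit 1802) (nat_lit 119) (.e (nat_lit 516176) (nat_lit 14) (.e (nat_lit 466967) (nat_lit 20) .nil))))))) (.g (nat_lit 6) .nil .nil))) 
(.lf (nat_lit 100850) (.g (nat_lit 656) (.e (nat_lit 3253) (nat_lit 197) (.e (nat_lit 532563) (nat_lit 15) (.e (nat_lit 385068) (nat_lit 26) .nil))) .nil)))) (.nd (nat_lit 4) (.nd (nat_lit 5) 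
(.lf (nat_lit 100810) (.g (nat_lit 2621) (.e (nat_lit 3253) (nat_lit 197) (.e (nat_lit 532523) (nat_lit 7) (.e (nat_lit 319533) (nat_lit 16) (.e (nat_lit 286734) (nat_lit 3) (.e (nat_lit 98369) (nat_lit 28) (.e (nat_lit 442417) (nat_lit 20) .nil)))))) (.g (nat_lit 4) .nil .nil))) 
(.lf (nat_lit 100842) (.g (nat_lit 2674) (.e (nat_lit 3253) (nat_lit 197) (.e (nat_lit 532545) (nat_lit 10) (.e (nat_lit 344133) (nat_lit 26) (.e (nat_lit 557098) (nat_lit 13) (.e (nat_lit 172064) (nat_lit 2) (.e (nat_lit 204544) (nat_lit 2) (.e (nat_lit 24669) (nat_lit 15) .nil))))))) (.g (nat_lit 4) .nil .nil)))) (.nd (nat_lit 5) 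
(.lf (nat_lit 100826) (.g (nat_lit 597) (.e (nat_lit 3253) (nat_lit 197) (.e (nat_lit 532534) (nat_lit 9) (.e (nat_lit 335878) (nat_lit 0) .nil))) .nil)) 
(.lf (nat_lit 100858) (.g (nat_lit 2874) (.e (nat_lit 3253) (nat_lit 197) (.e (nat_lit 532563) (nat_lit 15) (.e (nat_lit 385094) (nat_lit 49) (.e (nat_lit 778317) (nat_lit 3) (.e (nat_lit 57480) (nat_lit 28) (.e (nat_lit 557108) (nat_lit 15) (.e (nat_lit 196352) (nat_lit 20) .nil))))))) (.g (nat_lit 4) .nil .nil)))))) (.nd (nat_lit 3) (.nd (nat_lit 4) (.nd (nat_lit 5) 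
(.lf (nat_lit 100806) (.g (nat_lit 2207) (.e (nat_lit 3253) (nat_lit 197) (.e (nat_lit 532523) (nat_lit 7) (.e (nat_lit 319533) (nat_lit 16) (.e (nat_lit 286726) (nat_lit 0) .nil)))) .nil)) 
(.lf (nat_lit 100838) (.g (nat_lit 2742) (.e (nat_lit 3253) (nat_lit 197) (.e (nat_lit 532544) (nat_lit 10) (.e (nat_lit 344133) (nat_lit 26) (.e (nat_lit 557098) (nat_lit 13) (.e (nat_lit 172064) (nat_lit 2) (.e (nat_lit 204544) (nat_lit 2) (.e (nat_lit 24669) (nat_lit 15) .nil))))))) (.g (nat_lit 4) .nil .nil)))) (.nd (nat_lit 5) 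
(.lf (nat_lit 100822) (.g (nat_lit 4467) (.e (nat_lit 3253) (nat_lit 197) (.e (nat_lit 532523) (nat_lit 7) (.e (nat_lit 319534) (nat_lit 16) (.e (nat_lit 286733) (nat_lit 2) (.e (nat_lit 90176) (nat_lit 15) (.e (nat_lit 196352) (nat_lit 20) .nil)))))) (.g (nat_lit 5) .nil .nil))) 
(.lf (nat_lit 100854) (.g (nat_lit 3964) (.e (nat_lit 3253) (nat_lit 197) (.e (nat_lit 532563) (nat_lit 15) (.e (nat_lit 385094) (nat_lit 49) (.e (nat_lit 778317) (nat_lit 3) (.e (nat_lit 57477) (nat_lit 28) (.e (nat_lit 557108) (nat_lit 15) (.e (nat_lit 196352) (nat_lit 20) .nil))))))) (.g (nat_lit 6) .nil .nil))))) (.nd (nat_lit 4) (.nd (nat_lit 5) 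
(.lf (nat_lit 100814) (.g (nat_lit 2763) (.e (nat_lit 3253) (nat_lit 197) (.e (nat_lit 532523) (nat_lit 7) (.e (nat_lit 319534) (nat_lit 16) (.e (nat_lit 286728) (nat_lit 0) (.e (nat_lit 1788) (nat_lit 119) (.e (nat_lit 516175) (nat_lit 14) (.e (nat_lit 466967) (nat_lit 20) .nil))))))) (.g (nat_lit 4) .nil .nil))) 
(.lf (nat_lit 100846) (.g (nat_lit 6132) (.e (nat_lit 3253) (nat_lit 197) (.e (nat_lit 532550) (nat_lit 12) (.e (nat_lit 360475) (nat_lit 8) (.e (nat_lit 557093) (nat_lit 12) .nil)))) .nil))) (.nd (nat_lit 5) 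
(.lf (nat_lit 100830) (.g (nat_lit 3369) (.e (nat_lit 3253) (nat_lit 197) (.e (nat_lit 532543) (nat_lit 10) (.e (nat_lit 344129) (nat_lit 26) (.e (nat_lit 557097) (nat_lit 13) (.e (nat_lit 172064) (nat_lit 2) (.e (nat_lit 204544) (nat_lit 2) (.e (nat_lit 24669) (nat_lit 15) .nil))))))) (.g (nat_lit 4) .nil .nil))) 
(.lf (nat_lit 100862) (.g (nat_lit 3189) (.e (nat_lit 3253) (nat_lit 197) (.e (nat_lit 532566) (nat_lit 15) (.e (nat_lit 385092) (nat_lit 49) (.e (nat_lit 778317) (nat_lit 3) (.e (nat_lit 57479) (nat_lit 28) (.e (nat_lit 557107) (nat_lit 15) (.e (nat_lit 196352) (nat_lit 20) .nil))))))) (.g (nat_lit 5) .nil .nil)))))))) 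
(.nd (nat_lit 1) (.nd (nat_lit 2) (.nd (nat_lit 3) (.nd (nat_lit 4) (.nd (nat_lit 5) 
(.lf (nat_lit 100801) (.g (nat_lit 1309) (.e (nat_lit 3253) (nat_lit 197) (.e (nat_lit 532523) (nat_lit 7) (.e (nat_lit 319532) (nat_lit 16) (.e (nat_lit 286727) (nat_lit 0) .nil)))) .nil)) 
(.lf (nat_lit 100833) (.g (nat_lit 1894) (.e (nat_lit 3253) (nat_lit 197) (.e (nat_lit 532543) (nat_lit 10) (.e (nat_lit 344132) (nat_lit 26) (.e (nat_lit 557101) (nat_lit 13) (.e (nat_lit 172064) (nat_lit 2) (.e (nat_lit 204544) (nat_lit 2) (.e (nat_lit 24669) (nat_lit 15) .nil))))))) (.g (nat_lit 4) .nil .nil)))) (.nd (nat_lit 5) 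
(.lf (nat_lit 100817) (.g (nat_lit 2526) (.e (nat_lit 3253) (nat_lit 197) (.e (nat_lit 532523) (nat_lit 7) (.e (nat_lit 319534) (nat_lit 16) (.e (nat_lit 286728) (nat_lit 0) (.e (nat_lit 1799) (nat_lit 119) .nil))))) .nil)) 
(.lf (nat_lit 100849) (.g (nat_lit 1979) (.e (nat_lit 3253) (nat_lit 197) (.e (nat_lit 532563) (nat_lit 15) (.e (nat_lit 385066) (nat_lit 26) (.e (nat_lit 532534) (nat_lit 9) (.e (nat_lit 336326) (nat_lit 18) .nil))))) .nil)))) (.nd (nat_lit 4) (.nd (nat_lit 5) 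
(.lf (nat_lit 100809) (.g (nat_lit 3201) (.e (nat_lit 3253) (nat_lit 197) (.e (nat_lit 532523) (nat_lit 7) (.e (nat_lit 319533) (nat_lit 16) (.e (nat_lit 286733) (nat_lit 2) (.e (nat_lit 90178) (nat_lit 15) (.e (nat_lit 196352) (nat_lit 20) .nil)))))) (.g (nat_lit 4) .nil .nil))) 
(.lf (nat_lit 100841) (.g (nat_lit 2195) (.e (nat_lit 3253) (nat_lit 197) (.e (nat_lit 532545) (nat_lit 10) (.e (nat_lit 344130) (nat_lit 26) (.e (nat_lit 557097) (nat_lit 13) (.e (nat_lit 172064) (nat_lit 2) (.e (nat_lit 204544) (nat_lit 2) (.e (nat_lit 24669) (nat_lit 15) .nil))))))) (.g (nat_lit 4) .nil .nil)))) (.nd (nat_lit 5) 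
(.lf (nat_lit 100825) (.g (nat_lit 1954) (.e (nat_lit 3253) (nat_lit 197) (.e (nat_lit 532533) (nat_lit 9) (.e (nat_lit 336211) (nat_lit 13) (.e (nat_lit 393251) (nat_lit 18) (.e (nat_lit 164148) (nat_lit 152) (.e (nat_lit 1204) (nat_lit 88) (.e (nat_lit 65637) (nat_lit 15) .nil))))))) (.g (nat_lit 4) .nil .nil))) 
(.lf (nat_lit 100857) (.g (nat_lit 3816) (.e (nat_lit 3253) (nat_lit 197) (.e (nat_lit 532563) (nat_lit 15) (.e (nat_lit 385094) (nat_lit 49) (.e (nat_lit 778317) (nat_lit 3) (.e (nat_lit 57480) (nat_lit 28) (.e (nat_lit 557107) (nat_lit 15) (.e (nat_lit 196352) (nat_lit 20) .nil))))))) (.g (nat_lit 5) .nil .nil)))))) (.nd (nat_lit 3) (.nd (nat_lit 4) (.nd (nat_lit 5) 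
(.lf (nat_lit 100805) (.g (nat_lit 1711) (.e (nat_lit 3253) (nat_lit 197) (.e (nat_lit 532523) (nat_lit 7) (.e (nat_lit 319533) (nat_lit 16) (.e (nat_lit 286725) (nat_lit 0) .nil)))) .nil)) 
(.lf (nat_lit 100837) (.g (nat_lit 3039) (.e (nat_lit 3253) (nat_lit 197) (.e (nat_lit 532543) (nat_lit 10) (.e (nat_lit 344169) (nat_lit 40) (.e (nat_lit 671759) (nat_lit 3) (.e (nat_lit 57479) (nat_lit 28) (.e (nat_lit 557109) (nat_lit 15) (.e (nat_lit 196352) (nat_lit 20) .nil))))))) (.g (nat_lit 6) .nil .nil)))) (.nd (nat_lit 5) 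
(.lf (nat_lit 100821) (.g (nat_lit 2717) (.e (nat_lit 3253) (nat_lit 197) (.e (nat_lit 532523) (nat_lit 7) (.e (nat_lit 319534) (nat_lit 16) (.e (nat_lit 286732) (nat_lit 2) (.e (nat_lit 90178) (nat_lit 15) .nil))))) .nil)) 
(.lf (nat_lit 100853) (.g (nat_lit 3169) (.e (nat_lit 3253) (nat_lit 197) (.e (nat_lit 532563) (nat_lit 15) (.e (nat_lit 385094) (nat_lit 49) (.e (nat_lit 778317) (nat_lit 3) (.e (nat_lit 57477) (nat_lit 28) (.e (nat_lit 557107) (nat_lit 15) (.e (nat_lit 196352) (nat_lit 20) .nil))))))) (.g (nat_lit 4) .nil .nil))))) (.nd (nat_lit 4) (.nd (nat_lit 5) 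
(.lf (nat_lit 100813) (.g (nat_lit 2765) (.e (nat_lit 3253) (nat_lit 197) (.e (nat_lit 532523) (nat_lit 7) (.e (nat_lit 319534) (nat_lit 16) (.e (nat_lit 286727) (nat_lit 0) (.e (nat_lit 1799) (nat_lit 119) .nil))))) .nil)) 
(.lf (nat_lit 100845) (.g (nat_lit 2883) (.e (nat_lit 3253) (nat_lit 197) (.e (nat_lit 532545) (nat_lit 10) (.e (nat_lit 344169) (nat_lit 40) (.e (nat_lit 671759) (nat_lit 3) (.e (nat_lit 57479) (nat_lit 28) (.e (nat_lit 557109) (nat_lit 15) (.e (nat_lit 196352) (nat_lit 20) .nil))))))) (.g (nat_lit 6) .nil .nil)))) (.nd (nat_lit 5) 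
(.lf (nat_lit 100829) (.g (nat_lit 2630) (.e (nat_lit 3253) (nat_lit 197) (.e (nat_lit 532543) (nat_lit 10) (.e (nat_lit 344129) (nat_lit 26) (.e (nat_lit 557096) (nat_lit 13) (.e (nat_lit 172064) (nat_lit 2) (.e (nat_lit 204544) (nat_lit 2) (.e (nat_lit 24669) (nat_lit 15) .nil))))))) (.g (nat_lit 4) .nil .nil))) 
(.lf (nat_lit 100861) (.g (nat_lit 1497) (.e (nat_lit 3253) (nat_lit 197) (.e (nat_lit 532566) (nat_lit 15) (.e (nat_lit 385092) (nat_lit 49) (.e (nat_lit 778317) (nat_lit 3) (.e (nat_lit 57477) (nat_lit 28) (.e (nat_lit 557107) (nat_lit 15) (.e (nat_lit 196352) (nat_lit 20) .nil))))))) (.g (nat_lit 4) .nil .nil))))))) (.nd (nat_lit 2) (.nd (nat_lit 3) (.nd (nat_lit 4) (.nd (nat_lit 5) 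
(.lf (nat_lit 100803) (.g (nat_lit 2003) (.e (nat_lit 3253) (nat_lit 197) (.e (nat_lit 532523) (nat_lit 7) (.e (nat_lit 319532) (nat_lit 16) (.e (nat_lit 286735) (nat_lit 3) (.e (nat_lit 98370) (nat_lit 28) (.e (nat_lit 442417) (nat_lit 20) .nil)))))) (.g (nat_lit 4) .nil .nil))) 
(.lf (nat_lit 100835) (.g (nat_lit 2814) (.e (nat_lit 3253) (nat_lit 197) (.e (nat_lit 532543) (nat_lit 10) (.e (nat_lit 344133) (nat_lit 26) (.e (nat_lit 557098) (nat_lit 13) (.e (nat_lit 172140) (nat_lit 22) (.e (nat_lit 139279) (nat_lit 4) (.e (nat_lit 65637) (nat_lit 15) .nil))))))) (.g (nat_lit 4) .nil .nil)))) (.nd (nat_lit 5) 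
(.lf (nat_lit 100819) (.g (nat_lit 2587) (.e (nat_lit 3253) (nat_lit 197) (.e (nat_lit 532523) (nat_lit 7) (.e (nat_lit 319534) (nat_lit 16) (.e (nat_lit 286729) (nat_lit 0) .nil)))) .nil)) 
(.lf (nat_lit 100851) (.g (nat_lit 3487) (.e (nat_lit 3253) (nat_lit 197) (.e (nat_lit 532563) (nat_lit 15) (.e (nat_lit 385094) (nat_lit 49) (.e (nat_lit 778317) (nat_lit 3) (.e (nat_lit 57476) (nat_lit 28) (.e (nat_lit 557107) (nat_lit 15) (.e (nat_lit 196352) (nat_lit 20) .nil))))))) (.g (nat_lit 4) .nil .nil))))) (.nd (nat_lit 4) (.nd (nat_lit 5) 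
(.lf (nat_lit 100811) (.g (nat_lit 4269) (.e (nat_lit 3253) (nat_lit 197) (.e (nat_lit 532523) (nat_lit 7) (.e (nat_lit 319533) (nat_lit 16) (.e (nat_lit 286734) (nat_lit 3) (.e (nat_lit 98370) (nat_lit 28) (.e (nat_lit 442417) (nat_lit 20) .nil)))))) (.g (nat_lit 6) .nil .nil))) 
(.lf (nat_lit 100843) (.g (nat_lit 2247) (.e (nat_lit 3253) (nat_lit 197) (.e (nat_lit 532545) (nat_lit 10) (.e (nat_lit 344133) (nat_lit 26) (.e (nat_lit 557098) (nat_lit 13) (.e (nat_lit 172140) (nat_lit 22) (.e (nat_lit 139279) (nat_lit 4) (.e (nat_lit 65637) (nat_lit 15) .nil))))))) (.g (nat_lit 4) .nil .nil)))) (.nd (nat_lit 5) 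
(.lf (nat_lit 100827) (.g (nat_lit 2583) (.e (nat_lit 3253) (nat_lit 197) (.e (nat_lit 532534) (nat_lit 9) (.e (nat_lit 336019) (nat_lit 3) (.e (nat_lit 98341) (nat_lit 20) (.e (nat_lit 221196) (nat_lit 20) .nil))))) .nil)) 
(.lf (nat_lit 100859) (.g (nat_lit 4327) (.e (nat_lit 3253) (nat_lit 197) (.e (nat_lit 532563) (nat_lit 15) (.e (nat_lit 385094) (nat_lit 49) (.e (nat_lit 778317) (nat_lit 3) (.e (nat_lit 57480) (nat_lit 28) (.e (nat_lit 557109) (nat_lit 15) (.e (nat_lit 196352) (nat_lit 20) .nil))))))) (.g (nat_lit 6) .nil .nil)))))) (.nd (nat_lit 3) (.nd (nat_lit 4) (.nd (nat_lit 5) 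
(.lf (nat_lit 100807) (.g (nat_lit 2820) (.e (nat_lit 3253) (nat_lit 197) (.e (nat_lit 532523) (nat_lit 7) (.e (nat_lit 319533) (nat_lit 16) (.e (nat_lit 286727) (nat_lit 0) (.e (nat_lit 1799) (nat_lit 119) .nil))))) .nil)) 
(.lf (nat_lit 100839) (.g (nat_lit 2529) (.e (nat_lit 3253) (nat_lit 197) (.e (nat_lit 532544) (nat_lit 10) (.e (nat_lit 344133) (nat_lit 26) (.e (nat_lit 557098) (nat_lit 13) (.e (nat_lit 172140) (nat_lit 22) (.e (nat_lit 139279) (nat_lit 4) (.e (nat_lit 65637) (nat_lit 15) .nil))))))) (.g (nat_lit 4) .nil .nil)))) (.nd (nat_lit 5) 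
(.lf (nat_lit 100823) (.g (nat_lit 3960) (.e (nat_lit 3253) (nat_lit 197) (.e (nat_lit 532523) (nat_lit 7) (.e (nat_lit 319534) (nat_lit 16) (.e (nat_lit 286734) (nat_lit 3) (.e (nat_lit 98370) (nat_lit 28) (.e (nat_lit 442417) (nat_lit 20) .nil)))))) (.g (nat_lit 5) .nil .nil))) 
(.lf (nat_lit 100855) (.g (nat_lit 4850) (.e (nat_lit 3253) (nat_lit 197) (.e (nat_lit 532563) (nat_lit 15) (.e (nat_lit 385094) (nat_lit 49) (.e (nat_lit 778317) (nat_lit 3) (.e (nat_lit 57479) (nat_lit 28) (.e (nat_lit 557107) (nat_lit 15) (.e (nat_lit 196352) (nat_lit 20) .nil))))))) (.g (nat_lit 5) .nil .nil))))) (.nd (nat_lit 4) (.nd (nat_lit 5) 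
(.lf (nat_lit 100815) (.g (nat_lit 3889) (.e (nat_lit 3253) (nat_lit 197) (.e (nat_lit 532523) (nat_lit 7) (.e (nat_lit 319534) (nat_lit 16) (.e (nat_lit 286728) (nat_lit 0) (.e (nat_lit 1788) (nat_lit 119) (.e (nat_lit 516176) (nat_lit 14) (.e (nat_lit 466967) (nat_lit 20) .nil))))))) (.g (nat_lit 6) .nil .nil))) 
(.lf (nat_lit 100847) (.g (nat_lit 5582) (.e (nat_lit 3253) (nat_lit 197) (.e (nat_lit 532550) (nat_lit 12) (.e (nat_lit 360475) (nat_lit 8) (.e (nat_lit 557094) (nat_lit 12) .nil)))) .nil))) (.nd (nat_lit 5) 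
(.lf (nat_lit 100831) (.g (nat_lit 2167) (.e (nat_lit 3253) (nat_lit 197) (.e (nat_lit 532543) (nat_lit 10) (.e (nat_lit 344130) (nat_lit 26) (.e (nat_lit 557097) (nat_lit 13) (.e (nat_lit 172064) (nat_lit 2) (.e (nat_lit 204544) (nat_lit 2) (.e (nat_lit 24669) (nat_lit 15) .nil))))))) (.g (nat_lit 4) .nil .nil))) 
(.lf (nat_lit 100863) (.g (nat_lit 3111) (.e (nat_lit 3253) (nat_lit 197) (.e (nat_lit 532566) (nat_lit 15) (.e (nat_lit 385093) (nat_lit 49) (.e (nat_lit 778317) (nat_lit 3) (.e (nat_lit 57476) (nat_lit 28) (.e (nat_lit 557107) (nat_lit 15) (.e (nat_lit 196352) (nat_lit 20) .nil))))))) (.g (nat_lit 6) .nil .nil)))))))))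

noncomputable def tv1375 : DT := (.nd (nat_lit 0) (.nd (nat_lit 1) (.nd (nat_lit 2) (.nd (nat_lit 3) (.nd (nat_lit 4) (.nd (nat_lit 5) (.nd (nat_lit 6) 
(.lf (nat_lit 100864) (.g (nat_lit 3971) (.e (nat_lit 3253) (nat_lit 197) (.e (nat_lit 532566) (nat_lit 15) (.e (nat_lit 385093) (nat_lit 49) (.e (nat_lit 778317) (nat_lit 3) (.e (nat_lit 57476) (nat_lit 28) (.e (nat_lit 557108) (nat_lit 15) (.e (nat_lit 196352) (nat_lit 20) .nil))))))) (.g (nat_lit 6) .nil .nil))) 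
(.lf (nat_lit 100928) (.g (nat_lit 3141) (.e (nat_lit 3254) (nat_lit 197) (.e (nat_lit 532535) (nat_lit 9) (.e (nat_lit 336099) (nat_lit 9) (.e (nat_lit 343808) (nat_lit 3) .nil)))) .nil))) (.nd (nat_lit 6) 
(.lf (nat_lit 100896) (.g (nat_lit 1509) (.e (nat_lit 3254) (nat_lit 197) (.e (nat_lit 532523) (nat_lit 7) (.e (nat_lit 319504) (nat_lit 10) (.e (nat_lit 5245) (nat_lit 298) .nil)))) .nil)) 
(.lf (nat_lit 100960) (.g (nat_lit 1317) (.e (nat_lit 3255) (nat_lit 197) (.e (nat_lit 532504) (nat_lit 1) (.e (nat_lit 57851) (nat_lit 252) .nil))) .nil)))) (.nd (nat_lit 5) (.nd (nat_lit 6) 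
(.lf (nat_lit 100880) (.g (nat_lit 3394) (.e (nat_lit 3254) (nat_lit 197) (.e (nat_lit 532499) (nat_lit 1) (.e (nat_lit 57847) (nat_lit 252) (.e (nat_lit 57446) (nat_lit 19) .nil)))) .nil)) 
(.lf (nat_lit 100944) (.g (nat_lit 2220) (.e (nat_lit 3254) (nat_lit 197) (.e (nat_lit 532563) (nat_lit 15) (.e (nat_lit 385094) (nat_lit 49) (.e (nat_lit 778317) (nat_lit 3) (.e (nat_lit 57480) (nat_lit 28) .nil))))) .nil))) (.nd (nat_lit 6) 
(.lf (nat_lit 100912) (.g (nat_lit 1454) (.e (nat_lit 3254) (nat_lit 197) (.e (nat_lit 532523) (nat_lit 7) (.e (nat_lit 319532) (nat_lit 16) (.e (nat_lit 286735) (nat_lit 3) .nil)))) .nil)) 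
(.lf (nat_lit 100976) (.g (nat_lit 4812) (.e (nat_lit 3255) (nat_lit 197) (.e (nat_lit 532550) (nat_lit 12) (.e (nat_lit 360475) (nat_lit 8) (.e (nat_lit 557091) (nat_lit 12) .nil)))) .nil))))) (.nd (nat_lit 4) (.nd (nat_lit 5) (.nd (nat_lit 6) 
(.lf (nat_lit 100872) (.g (nat_lit 2703) (.e (nat_lit 3253) (nat_lit 197) (.e (nat_lit 532566) (nat_lit 15) (.e (nat_lit 385094) (nat_lit 49) (.e (nat_lit 778317) (nat_lit 3) (.e (nat_lit 57477) (nat_lit 28) (.e (nat_lit 557107) (nat_lit 15) (.e (nat_lit 196352) (nat_lit 20) .nil))))))) (.g (nat_lit 6) .nil .nil))) 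
(.lf (nat_lit 100936) (.g (nat_lit 4751) (.e (nat_lit 3254) (nat_lit 197) (.e (nat_lit 532550) (nat_lit 12) (.e (nat_lit 360475) (nat_lit 8) (.e (nat_lit 557089) (nat_lit 12) .nil)))) .nil))) (.nd (nat_lit 6) 
(.lf (nat_lit 100904) (.g (nat_lit 2717) (.e (nat_lit 3254) (nat_lit 197) (.e (nat_lit 532523) (nat_lit 7) (.e (nat_lit 319530) (nat_lit 16) (.e (nat_lit 286733) (nat_lit 2) (.e (nat_lit 90177) (nat_lit 15) .nil))))) .nil)) 
(.lf (nat_lit 100968) (.g (nat_lit 2773) (.e (nat_lit 3255) (nat_lit 197) (.e (nat_lit 532523) (nat_lit 7) (.e (nat_lit 319534) (nat_lit 16) (.e (nat_lit 286732) (nat_lit 2) (.e (nat_lit 90178) (nat_lit 15) .nil))))) .nil)))) (.nd (nat_lit 5) (.nd (nat_lit 6) 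
(.lf (nat_lit 100888) (.g (nat_lit 2333) (.e (nat_lit 3254) (nat_lit 197) (.e (nat_lit 532504) (nat_lit 1) (.e (nat_lit 57851) (nat_lit 252) (.e (nat_lit 57445) (nat_lit 19) (.e (nat_lit 393229) (nat_lit 9) .nil))))) .nil)) 
(.lf (nat_lit 100952) (.g (nat_lit 2861) (.e (nat_lit 3255) (nat_lit 197) (.e (nat_lit 532499) (nat_lit 1) (.e (nat_lit 57847) (nat_lit 252) (.e (nat_lit 57446) (nat_lit 19) .nil)))) .nil))) (.nd (nat_lit 6) 
(.lf (nat_lit 100920) (.g (nat_lit 2644) (.e (nat_lit 3254) (nat_lit 197) (.e (nat_lit 532523) (nat_lit 7) (.e (nat_lit 319534) (nat_lit 16) (.e (nat_lit 286734) (nat_lit 3) (.e (nat_lit 98370) (nat_lit 28) .nil))))) .nil)) 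
(.lf (nat_lit 100984) (.g (nat_lit 2487) (.e (nat_lit 3255) (nat_lit 197) (.e (nat_lit 532563) (nat_lit 15) (.e (nat_lit 385094) (nat_lit 49) (.e (nat_lit 778317) (nat_lit 3) (.e (nat_lit 57480) (nat_lit 28) (.e (nat_lit 557107) (nat_lit 15) (.e (nat_lit 188439) (nat_lit 20) .nil))))))) (.g (nat_lit 4) .nil .nil))))))) (.nd (nat_lit 3) (.nd (nat_lit 4) (.nd (nat_lit 5) (.nd (nat_lit 6) 
(.lf (nat_lit 100868) (.g (nat_lit 3147) (.e (nat_lit 3253) (nat_lit 197) (.e (nat_lit 532566) (nat_lit 15) (.e (nat_lit 385093) (nat_lit 49) (.e (nat_lit 778317) (nat_lit 3) (.e (nat_lit 57480) (nat_lit 28) (.e (nat_lit 557107) (nat_lit 15) (.e (nat_lit 196352) (nat_lit 20) .nil))))))) (.g (nat_lit 6) .nil .nil))) 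
(.lf (nat_lit 100932) (.g (nat_lit 2527) (.e (nat_lit 3254) (nat_lit 197) (.e (nat_lit 532549) (nat_lit 12) (.e (nat_lit 360473) (nat_lit 8) (.e (nat_lit 557091) (nat_lit 12) (.e (nat_lit 164022) (nat_lit 46) .nil))))) .nil))) (.nd (nat_lit 6) 
(.lf (nat_lit 100900) (.g (nat_lit 1584) (.e (nat_lit 3254) (nat_lit 197) (.e (nat_lit 532523) (nat_lit 7) (.e (nat_lit 319505) (nat_lit 10) (.e (nat_lit 5245) (nat_lit 298) .nil)))) .nil)) 
(.lf (nat_lit 100964) (.g (nat_lit 3844) (.e (nat_lit 3255) (nat_lit 197) (.e (nat_lit 532522) (nat_lit 7) (.e (nat_lit 319531) (nat_lit 16) (.e (nat_lit 286733) (nat_lit 2) (.e (nat_lit 90178) (nat_lit 15) (.e (nat_lit 188440) (nat_lit 20) .nil)))))) (.g (nat_lit 5) .nil .nil))))) (.nd (nat_lit 5) (.nd (nat_lit 6) 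
(.lf (nat_lit 100884) (.g (nat_lit 1394) (.e (nat_lit 3254) (nat_lit 197) (.e (nat_lit 532501) (nat_lit 1) (.e (nat_lit 57851) (nat_lit 252) .nil))) .nil)) 
(.lf (nat_lit 100948) (.g (nat_lit 1308) (.e (nat_lit 3254) (nat_lit 197) (.e (nat_lit 532566) (nat_lit 15) (.e (nat_lit 385093) (nat_lit 49) (.e (nat_lit 778317) (nat_lit 3) (.e (nat_lit 57477) (nat_lit 28) (.e (nat_lit 557107) (nat_lit 15) (.e (nat_lit 188439) (nat_lit 20) .nil))))))) (.g (nat_lit 4) .nil .nil)))) (.nd (nat_lit 6) 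
(.lf (nat_lit 100916) (.g (nat_lit 2377) (.e (nat_lit 3254) (nat_lit 197) (.e (nat_lit 532523) (nat_lit 7) (.e (nat_lit 319533) (nat_lit 16) (.e (nat_lit 286734) (nat_lit 3) (.e (nat_lit 98370) (nat_lit 28) .nil))))) .nil)) 
(.lf (nat_lit 100980) (.g (nat_lit 3105) (.e (nat_lit 3255) (nat_lit 197) (.e (nat_lit 532563) (nat_lit 15) (.e (nat_lit 385094) (nat_lit 49) (.e (nat_lit 778317) (nat_lit 3) (.e (nat_lit 57477) (nat_lit 28) (.e (nat_lit 557107) (nat_lit 15) (.e (nat_lit 188438) (nat_lit 20) .nil))))))) (.g (nat_lit 6) .nil .nil)))))) (.nd (nat_lit 4) (.nd (nat_lit 5) (.nd (nat_lit 6) 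
(.lf (nat_lit 100876) (.g (nat_lit 3895) (.e (nat_lit 3253) (nat_lit 197) (.e (nat_lit 532566) (nat_lit 15) (.e (nat_lit 385094) (nat_lit 49) (.e (nat_lit 778317) (nat_lit 3) (.e (nat_lit 57480) (nat_lit 28) (.e (nat_lit 557109) (nat_lit 15) (.e (nat_lit 196352) (nat_lit 20) .nil))))))) (.g (nat_lit 6) .nil .nil))) 
(.lf (nat_lit 100940) (.g (nat_lit 2602) (.e (nat_lit 3254) (nat_lit 197) (.e (nat_lit 532563) (nat_lit 15) (.e (nat_lit 385094) (nat_lit 49) (.e (nat_lit 778317) (nat_lit 3) (.e (nat_lit 57476) (nat_lit 28) (.e (nat_lit 557107) (nat_lit 15) (.e (nat_lit 188439) (nat_lit 20) .nil))))))) (.g (nat_lit 4) .nil .nil)))) (.nd (nat_lit 6) 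
(.lf (nat_lit 100908) (.g (nat_lit 3801) (.e (nat_lit 3254) (nat_lit 197) (.e (nat_lit 532523) (nat_lit 7) (.e (nat_lit 319531) (nat_lit 16) (.e (nat_lit 286733) (nat_lit 2) (.e (nat_lit 90178) (nat_lit 15) (.e (nat_lit 188442) (nat_lit 20) .nil)))))) (.g (nat_lit 0) .nil .nil))) 
(.lf (nat_lit 100972) (.g (nat_lit 1824) (.e (nat_lit 3255) (nat_lit 197) (.e (nat_lit 532548) (nat_lit 11) (.e (nat_lit 352315) (nat_lit 23) (.e (nat_lit 98350) (nat_lit 24) (.e (nat_lit 409649) (nat_lit 18) .nil))))) .nil)))) (.nd (nat_lit 5) (.nd (nat_lit 6) 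
(.lf (nat_lit 100892) (.g (nat_lit 1964) (.e (nat_lit 3254) (nat_lit 197) (.e (nat_lit 532504) (nat_lit 1) (.e (nat_lit 57852) (nat_lit 252) (.e (nat_lit 57445) (nat_lit 19) (.e (nat_lit 393229) (nat_lit 9) (.e (nat_lit 336086) (nat_lit 9) (.e (nat_lit 336260) (nat_lit 15) .nil))))))) (.g (nat_lit 4) .nil .nil))) 
(.lf (nat_lit 100956) (.g (nat_lit 1271) (.e (nat_lit 3255) (nat_lit 197) (.e (nat_lit 532501) (nat_lit 1) (.e (nat_lit 57851) (nat_lit 252) .nil))) .nil))) (.nd (nat_lit 6) 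
(.lf (nat_lit 100924) (.g (nat_lit 3006) (.e (nat_lit 3254) (nat_lit 197) (.e (nat_lit 532535) (nat_lit 9) (.e (nat_lit 336099) (nat_lit 9) (.e (nat_lit 336013) (nat_lit 2) .nil)))) .nil)) 
(.lf (nat_lit 100988) (.g (nat_lit 3551) (.e (nat_lit 3256) (nat_lit 197) (.e (nat_lit 532499) (nat_lit 1) (.e (nat_lit 57847) (nat_lit 252) (.e (nat_lit 57446) (nat_lit 19) .nil)))) .nil))))))) (.nd (nat_lit 2) (.nd (nat_lit 3) (.nd (nat_lit 4) (.nd (nat_lit 5) (.nd (nat_lit 6) 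
(.lf (nat_lit 100866) (.g (nat_lit 3335) (.e (nat_lit 3253) (nat_lit 197) (.e (nat_lit 532566) (nat_lit 15) (.e (nat_lit 385093) (nat_lit 49) (.e (nat_lit 778317) (nat_lit 3) (.e (nat_lit 57477) (nat_lit 28) (.e (nat_lit 557108) (nat_lit 15) (.e (nat_lit 196352) (nat_lit 20) .nil))))))) (.g (nat_lit 6) .nil .nil))) 
(.lf (nat_lit 100930) (.g (nat_lit 3826) (.e (nat_lit 3254) (nat_lit 197) (.e (nat_lit 532535) (nat_lit 9) (.e (nat_lit 336176) (nat_lit 10) (.e (nat_lit 344132) (nat_lit 26) .nil)))) .nil))) (.nd (nat_lit 6) 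
(.lf (nat_lit 100898) (.g (nat_lit 1475) (.e (nat_lit 3254) (nat_lit 197) (.e (nat_lit 532523) (nat_lit 7) (.e (nat_lit 319504) (nat_lit 10) (.e (nat_lit 5271) (nat_lit 298) .nil)))) .nil)) 
(.lf (nat_lit 100962) (.g (nat_lit 2101) (.e (nat_lit 3255) (nat_lit 197) (.e (nat_lit 532504) (nat_lit 1) (.e (nat_lit 57851) (nat_lit 252) (.e (nat_lit 57446) (nat_lit 19) .nil)))) .nil)))) (.nd (nat_lit 5) (.nd (nat_lit 6) 
(.lf (nat_lit 100882) (.g (nat_lit 2132) (.e (nat_lit 3254) (nat_lit 197) (.e (nat_lit 532499) (nat_lit 1) (.e (nat_lit 57849) (nat_lit 252) (.e (nat_lit 57407) (nat_lit 12) (.e (nat_lit 336454) (nat_lit 34) (.e (nat_lit 483385) (nat_lit 23) (.e (nat_lit 336260) (nat_lit 15) .nil))))))) (.g (nat_lit 4) .nil .nil))) 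
(.lf (nat_lit 100946) (.g (nat_lit 2362) (.e (nat_lit 3254) (nat_lit 197) (.e (nat_lit 532563) (nat_lit 15) (.e (nat_lit 385094) (nat_lit 49) (.e (nat_lit 778317) (nat_lit 3) (.e (nat_lit 57480) (nat_lit 28) (.e (nat_lit 557107) (nat_lit 15) (.e (nat_lit 188441) (nat_lit 20) .nil))))))) (.g (nat_lit 4) .nil .nil)))) (.nd (nat_lit 6) 
(.lf (nat_lit 100914) (.g (nat_lit 2579) (.e (nat_lit 3254) (nat_lit 197) (.e (nat_lit 532523) (nat_lit 7) (.e (nat_lit 319533) (nat_lit 16) (.e (nat_lit 286733) (nat_lit 2) (.e (nat_lit 90178) (nat_lit 15) .nil))))) .nil)) 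
(.lf (nat_lit 100978) (.g (nat_lit 3129) (.e (nat_lit 3255) (nat_lit 197) (.e (nat_lit 532563) (nat_lit 15) (.e (nat_lit 385094) (nat_lit 49) (.e (nat_lit 778317) (nat_lit 3) (.e (nat_lit 57476) (nat_lit 28) (.e (nat_lit 557107) (nat_lit 15) (.e (nat_lit 188438) (nat_lit 20) .nil))))))) (.g (nat_lit 5) .nil .nil)))))) (.nd (nat_lit 4) (.nd (nat_lit 5) (.nd (nat_lit 6) 
(.lf (nat_lit 100874) (.g (nat_lit 4453) (.e (nat_lit 3253) (nat_lit 197) (.e (nat_lit 532566) (nat_lit 15) (.e (nat_lit 385094) (nat_lit 49) (.e (nat_lit 778317) (nat_lit 3) (.e (nat_lit 57479) (nat_lit 28) (.e (nat_lit 557107) (nat_lit 15) (.e (nat_lit 196352) (nat_lit 20) .nil))))))) (.g (nat_lit 6) .nil .nil))) 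
(.lf (nat_lit 100938) (.g (nat_lit 1502) (.e (nat_lit 3254) (nat_lit 197) (.e (nat_lit 532563) (nat_lit 15) (.e (nat_lit 385094) (nat_lit 49) (.e (nat_lit 778317) (nat_lit 3) .nil)))) .nil))) (.nd (nat_lit 6) 
(.lf (nat_lit 100906) (.g (nat_lit 2806) (.e (nat_lit 3254) (nat_lit 197) (.e (nat_lit 532523) (nat_lit 7) (.e (nat_lit 319530) (nat_lit 16) (.e (nat_lit 286735) (nat_lit 3) (.e (nat_lit 98370) (nat_lit 28) (.e (nat_lit 442414) (nat_lit 20) .nil)))))) (.g (nat_lit 4) .nil .nil))) 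
(.lf (nat_lit 100970) (.g (nat_lit 5100) (.e (nat_lit 3255) (nat_lit 197) (.e (nat_lit 532544) (nat_lit 10) (.e (nat_lit 344169) (nat_lit 40) (.e (nat_lit 671759) (nat_lit 3) (.e (nat_lit 57479) (nat_lit 28) (.e (nat_lit 557107) (nat_lit 15) (.e (nat_lit 188440) (nat_lit 20) .nil))))))) (.g (nat_lit 0) .nil .nil))))) (.nd (nat_lit 5) (.nd (nat_lit 6) 
(.lf (nat_lit 100890) (.g (nat_lit 1988) (.e (nat_lit 3254) (nat_lit 197) (.e (nat_lit 532504) (nat_lit 1) (.e (nat_lit 57852) (nat_lit 252) (.e (nat_lit 57445) (nat_lit 19) (.e (nat_lit 393229) (nat_lit 9) (.e (nat_lit 336086) (nat_lit 9) (.e (nat_lit 336257) (nat_lit 15) .nil))))))) (.g (nat_lit 4) .nil .nil))) 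
(.lf (nat_lit 100954) (.g (nat_lit 2816) (.e (nat_lit 3255) (nat_lit 197) (.e (nat_lit 532499) (nat_lit 1) (.e (nat_lit 57849) (nat_lit 252) (.e (nat_lit 57407) (nat_lit 12) (.e (nat_lit 336454) (nat_lit 34) (.e (nat_lit 483385) (nat_lit 23) (.e (nat_lit 336260) (nat_lit 15) .nil))))))) (.g (nat_lit 5) .nil .nil)))) (.nd (nat_lit 6) 
(.lf (nat_lit 100922) (.g (nat_lit 1607) (.e (nat_lit 3254) (nat_lit 197) (.e (nat_lit 532523) (nat_lit 7) (.e (nat_lit 319534) (nat_lit 16) (.e (nat_lit 286735) (nat_lit 3) .nil)))) .nil)) 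
(.lf (nat_lit 100986) (.g (nat_lit 2338) (.e (nat_lit 3255) (nat_lit 197) (.e (nat_lit 532563) (nat_lit 15) (.e (nat_lit 385094) (nat_lit 49) (.e (nat_lit 778317) (nat_lit 3) (.e (nat_lit 57480) (nat_lit 28) (.e (nat_lit 557107) (nat_lit 15) (.e (nat_lit 188441) (nat_lit 20) .nil))))))) (.g (nat_lit 4) .nil .nil))))))) (.nd (nat_lit 3) (.nd (nat_lit 4) (.nd (nat_lit 5) (.nd (nat_lit 6) 
(.lf (nat_lit 100870) (.g (nat_lit 3085) (.e (nat_lit 3253) (nat_lit 197) (.e (nat_lit 532566) (nat_lit 15) (.e (nat_lit 385094) (nat_lit 49) (.e (nat_lit 778317) (nat_lit 3) (.e (nat_lit 57476) (nat_lit 28) (.e (nat_lit 557107) (nat_lit 15) (.e (nat_lit 196352) (nat_lit 20) .nil))))))) (.g (nat_lit 6) .nil .nil))) 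
(.lf (nat_lit 100934) (.g (nat_lit 5748) (.e (nat_lit 3254) (nat_lit 197) (.e (nat_lit 532550) (nat_lit 12) (.e (nat_lit 360474) (nat_lit 8) (.e (nat_lit 557091) (nat_lit 12) .nil)))) .nil))) (.nd (nat_lit 6) 
(.lf (nat_lit 100902) (.g (nat_lit 2188) (.e (nat_lit 3254) (nat_lit 197) (.e (nat_lit 532523) (nat_lit 7) (.e (nat_lit 319529) (nat_lit 16) (.e (nat_lit 286733) (nat_lit 2) (.e (nat_lit 90178) (nat_lit 15) .nil))))) .nil)) 
(.lf (nat_lit 100966) (.g (nat_lit 1467) (.e (nat_lit 3255) (nat_lit 197) (.e (nat_lit 532523) (nat_lit 7) (.e (nat_lit 319532) (nat_lit 16) (.e (nat_lit 286732) (nat_lit 2) .nil)))) .nil)))) (.nd (nat_lit 5) (.nd (nat_lit 6) 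
(.lf (nat_lit 100886) (.g (nat_lit 2582) (.e (nat_lit 3254) (nat_lit 197) (.e (nat_lit 532503) (nat_lit 1) (.e (nat_lit 57931) (nat_lit 282) (.e (nat_lit 163869) (nat_lit 2) (.e (nat_lit 196670) (nat_lit 14) .nil))))) .nil)) 
(.lf (nat_lit 100950) (.g (nat_lit 2279) (.e (nat_lit 3255) (nat_lit 197) (.e (nat_lit 532499) (nat_lit 1) (.e (nat_lit 57847) (nat_lit 252) (.e (nat_lit 57411) (nat_lit 12) .nil)))) .nil))) (.nd (nat_lit 6) 
(.lf (nat_lit 100918) (.g (nat_lit 1437) (.e (nat_lit 3254) (nat_lit 197) (.e (nat_lit 532523) (nat_lit 7) (.e (nat_lit 319533) (nat_lit 16) (.e (nat_lit 286735) (nat_lit 3) .nil)))) .nil)) 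
(.lf (nat_lit 100982) (.g (nat_lit 4158) (.e (nat_lit 3255) (nat_lit 197) (.e (nat_lit 532563) (nat_lit 15) (.e (nat_lit 385094) (nat_lit 49) (.e (nat_lit 778317) (nat_lit 3) (.e (nat_lit 57477) (nat_lit 28) (.e (nat_lit 557107) (nat_lit 15) (.e (nat_lit 188440) (nat_lit 20) .nil))))))) (.g (nat_lit 0) .nil .nil)))))) (.nd (nat_lit 4) (.nd (nat_lit 5) (.nd (nat_lit 6) 
(.lf (nat_lit 100878) (.g (nat_lit 3863) (.e (nat_lit 3254) (nat_lit 197) (.e (nat_lit 532499) (nat_lit 1) (.e (nat_lit 57847) (nat_lit 252) (.e (nat_lit 57408) (nat_lit 12) .nil)))) .nil)) 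
(.lf (nat_lit 100942) (.g (nat_lit 3484) (.e (nat_lit 3254) (nat_lit 197) (.e (nat_lit 532563) (nat_lit 15) (.e (nat_lit 385094) (nat_lit 49) (.e (nat_lit 778317) (nat_lit 3) (.e (nat_lit 57477) (nat_lit 28) (.e (nat_lit 557108) (nat_lit 15) (.e (nat_lit 188434) (nat_lit 20) .nil))))))) (.g (nat_lit 6) .nil .nil)))) (.nd (nat_lit 6) 
(.lf (nat_lit 100910) (.g (nat_lit 1662) (.e (nat_lit 3254) (nat_lit 197) (.e (nat_lit 532523) (nat_lit 7) (.e (nat_lit 319531) (nat_lit 16) (.e (nat_lit 286735) (nat_lit 3) .nil)))) .nil)) 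
(.lf (nat_lit 100974) (.g (nat_lit 1174) (.e (nat_lit 3255) (nat_lit 197) (.e (nat_lit 532550) (nat_lit 12) (.e (nat_lit 360474) (nat_lit 8) .nil))) .nil)))) (.nd (nat_lit 5) (.nd (nat_lit 6) 
(.lf (nat_lit 100894) (.g (nat_lit 786) (.e (nat_lit 3254) (nat_lit 197) (.e (nat_lit 532522) (nat_lit 7) (.e (nat_lit 319530) (nat_lit 16) .nil))) .nil)) 
(.lf (nat_lit 100958) (.g (nat_lit 2152) (.e (nat_lit 3255) (nat_lit 197) (.e (nat_lit 532501) (nat_lit 1) (.e (nat_lit 57851) (nat_lit 252) (.e (nat_lit 57446) (nat_lit 19) .nil)))) .nil))) (.nd (nat_lit 6) 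
(.lf (nat_lit 100926) (.g (nat_lit 5603) (.e (nat_lit 3254) (nat_lit 197) (.e (nat_lit 532535) (nat_lit 9) (.e (nat_lit 336099) (nat_lit 9) (.e (nat_lit 336013) (nat_lit 2) (.e (nat_lit 90129) (nat_lit 9) .nil))))) .nil)) 
(.lf (nat_lit 100990) (.g (nat_lit 1371) (.e (nat_lit 3256) (nat_lit 197) (.e (nat_lit 532501) (nat_lit 1) (.e (nat_lit 57851) (nat_lit 252) .nil))) .nil)))))))) (.nd (nat_lit 1) (.nd (nat_lit 2) (.nd (nat_lit 3) (.nd (nat_lit 4) (.nd (nat_lit 5) (.nd (nat_lit 6) 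
(.lf (nat_lit 100865) (.g (nat_lit 2512) (.e (nat_lit 3253) (nat_lit 197) (.e (nat_lit 532566) (nat_lit 15) (.e (nat_lit 385093) (nat_lit 49) (.e (nat_lit 778317) (nat_lit 3) (.e (nat_lit 57477) (nat_lit 28) (.e (nat_lit 557107) (nat_lit 15) (.e (nat_lit 196352) (nat_lit 20) .nil))))))) (.g (nat_lit 6) .nil .nil))) 
(.lf (nat_lit 100929) (.g (nat_lit 4063) (.e (nat_lit 3254) (nat_lit 197) (.e (nat_lit 532535) (nat_lit 9) (.e (nat_lit 336176) (nat_lit 10) (.e (nat_lit 344130) (nat_lit 26) .nil)))) .nil))) (.nd (nat_lit 6) 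
(.lf (nat_lit 100897) (.g (nat_lit 1797) (.e (nat_lit 3254) (nat_lit 197) (.e (nat_lit 532523) (nat_lit 7) (.e (nat_lit 319504) (nat_lit 10) (.e (nat_lit 5258) (nat_lit 298) .nil)))) .nil)) 
(.lf (nat_lit 100961) (.g (nat_lit 2136) (.e (nat_lit 3255) (nat_lit 197) (.e (nat_lit 532504) (nat_lit 1) (.e (nat_lit 57851) (nat_lit 252) (.e (nat_lit 57445) (nat_lit 19) .nil)))) .nil)))) (.nd (nat_lit 5) (.nd (nat_lit 6) 
(.lf (nat_lit 100881) (.g (nat_lit 2202) (.e (nat_lit 3254) (nat_lit 197) (.e (nat_lit 532499) (nat_lit 1) (.e (nat_lit 57847) (nat_lit 252) (.e (nat_lit 57448) (nat_lit 19) .nil)))) .nil)) 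
(.lf (nat_lit 100945) (.g (nat_lit 3021) (.e (nat_lit 3254) (nat_lit 197) (.e (nat_lit 532563) (nat_lit 15) (.e (nat_lit 385094) (nat_lit 49) (.e (nat_lit 778317) (nat_lit 3) (.e (nat_lit 57480) (nat_lit 28) (.e (nat_lit 557107) (nat_lit 15) (.e (nat_lit 188439) (nat_lit 20) .nil))))))) (.g (nat_lit 5) .nil .nil)))) (.nd (nat_lit 6) 
(.lf (nat_lit 100913) (.g (nat_lit 2519) (.e (nat_lit 3254) (nat_lit 197) (.e (nat_lit 532523) (nat_lit 7) (.e (nat_lit 319533) (nat_lit 16) (.e (nat_lit 286732) (nat_lit 2) (.e (nat_lit 90178) (nat_lit 15) .nil))))) .nil)) 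
(.lf (nat_lit 100977) (.g (nat_lit 2104) (.e (nat_lit 3255) (nat_lit 197) (.e (nat_lit 532563) (nat_lit 15) (.e (nat_lit 385094) (nat_lit 49) (.e (nat_lit 778317) (nat_lit 3) (.e (nat_lit 57476) (nat_lit 28) .nil))))) .nil))))) (.nd (nat_lit 4) (.nd (nat_lit 5) (.nd (nat_lit 6) 
(.lf (nat_lit 100873) (.g (nat_lit 3498) (.e (nat_lit 3253) (nat_lit 197) (.e (nat_lit 532566) (nat_lit 15) (.e (nat_lit 385094) (nat_lit 49) (.e (nat_lit 778317) (nat_lit 3) (.e (nat_lit 57477) (nat_lit 28) (.e (nat_lit 557108) (nat_lit 15) (.e (nat_lit 196352) (nat_lit 20) .nil))))))) (.g (nat_lit 6) .nil .nil))) 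
(.lf (nat_lit 100937) (.g (nat_lit 4314) (.e (nat_lit 3254) (nat_lit 197) (.e (nat_lit 532550) (nat_lit 12) (.e (nat_lit 360475) (nat_lit 8) (.e (nat_lit 557091) (nat_lit 12) .nil)))) .nil))) (.nd (nat_lit 6) 
(.lf (nat_lit 100905) (.g (nat_lit 3620) (.e (nat_lit 3254) (nat_lit 197) (.e (nat_lit 532523) (nat_lit 7) (.e (nat_lit 319530) (nat_lit 16) (.e (nat_lit 286733) (nat_lit 2) (.e (nat_lit 90178) (nat_lit 15) (.e (nat_lit 188442) (nat_lit 20) .nil)))))) (.g (nat_lit 6) .nil .nil))) 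
(.lf (nat_lit 100969) (.g (nat_lit 3664) (.e (nat_lit 3255) (nat_lit 197) (.e (nat_lit 532535) (nat_lit 9) (.e (nat_lit 336099) (nat_lit 9) (.e (nat_lit 336028) (nat_lit 3) (.e (nat_lit 98349) (nat_lit 24) .nil))))) .nil)))) (.nd (nat_lit 5) (.nd (nat_lit 6) 
(.lf (nat_lit 100889) (.g (nat_lit 1902) (.e (nat_lit 3254) (nat_lit 197) (.e (nat_lit 532504) (nat_lit 1) (.e (nat_lit 57851) (nat_lit 252) (.e (nat_lit 57446) (nat_lit 19) .nil)))) .nil)) 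
(.lf (nat_lit 100953) (.g (nat_lit 2331) (.e (nat_lit 3255) (nat_lit 197) (.e (nat_lit 532499) (nat_lit 1) (.e (nat_lit 57847) (nat_lit 252) (.e (nat_lit 57448) (nat_lit 19) .nil)))) .nil))) (.nd (nat_lit 6) 
(.lf (nat_lit 100921) (.g (nat_lit 4138) (.e (nat_lit 3254) (nat_lit 197) (.e (nat_lit 532523) (nat_lit 7) (.e (nat_lit 319534) (nat_lit 16) (.e (nat_lit 286734) (nat_lit 3) (.e (nat_lit 98370) (nat_lit 28) (.e (nat_lit 442414) (nat_lit 20) .nil)))))) (.g (nat_lit 0) .nil .nil))) 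
(.lf (nat_lit 100985) (.g (nat_lit 4680) (.e (nat_lit 3255) (nat_lit 197) (.e (nat_lit 532563) (nat_lit 15) (.e (nat_lit 385094) (nat_lit 49) (.e (nat_lit 778317) (nat_lit 3) (.e (nat_lit 57480) (nat_lit 28) (.e (nat_lit 557107) (nat_lit 15) (.e (nat_lit 188440) (nat_lit 20) .nil))))))) (.g (nat_lit 0) .nil .nil))))))) (.nd (nat_lit 3) (.nd (nat_lit 4) (.nd (nat_lit 5) (.nd (nat_lit 6) 
(.lf (nat_lit 100869) (.g (nat_lit 3667) (.e (nat_lit 3253) (nat_lit 197) (.e (nat_lit 532566) (nat_lit 15) (.e (nat_lit 385093) (nat_lit 49) (.e (nat_lit 778317) (nat_lit 3) (.e (nat_lit 57480) (nat_lit 28) (.e (nat_lit 557109) (nat_lit 15) (.e (nat_lit 196352) (nat_lit 20) .nil))))))) (.g (nat_lit 6) .nil .nil))) 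
(.lf (nat_lit 100933) (.g (nat_lit 4098) (.e (nat_lit 3254) (nat_lit 197) (.e (nat_lit 532550) (nat_lit 12) (.e (nat_lit 360474) (nat_lit 8) (.e (nat_lit 557072) (nat_lit 9) .nil)))) .nil))) (.nd (nat_lit 6) 
(.lf (nat_lit 100901) (.g (nat_lit 1451) (.e (nat_lit 3254) (nat_lit 197) (.e (nat_lit 532523) (nat_lit 7) (.e (nat_lit 319505) (nat_lit 10) (.e (nat_lit 5271) (nat_lit 298) .nil)))) .nil)) 
(.lf (nat_lit 100965) (.g (nat_lit 4542) (.e (nat_lit 3255) (nat_lit 197) (.e (nat_lit 532523) (nat_lit 7) (.e (nat_lit 319530) (nat_lit 16) (.e (nat_lit 286733) (nat_lit 2) (.e (nat_lit 90178) (nat_lit 15) (.e (nat_lit 188440) (nat_lit 20) .nil)))))) (.g (nat_lit 6) .nil .nil))))) (.nd (nat_lit 5) (.nd (nat_lit 6) 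
(.lf (nat_lit 100885) (.g (nat_lit 2193) (.e (nat_lit 3254) (nat_lit 197) (.e (nat_lit 532501) (nat_lit 1) (.e (nat_lit 57851) (nat_lit 252) (.e (nat_lit 57445) (nat_lit 19) .nil)))) .nil)) 
(.lf (nat_lit 100949) (.g (nat_lit 4277) (.e (nat_lit 3254) (nat_lit 197) (.e (nat_lit 532566) (nat_lit 15) (.e (nat_lit 385094) (nat_lit 49) (.e (nat_lit 778317) (nat_lit 3) (.e (nat_lit 57480) (nat_lit 28) (.e (nat_lit 557109) (nat_lit 15) (.e (nat_lit 188434) (nat_lit 20) .nil))))))) (.g (nat_lit 0) .nil .nil)))) (.nd (nat_lit 6) 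
(.lf (nat_lit 100917) (.g (nat_lit 3908) (.e (nat_lit 3254) (nat_lit 197) (.e (nat_lit 532523) (nat_lit 7) (.e (nat_lit 319533) (nat_lit 16) (.e (nat_lit 286734) (nat_lit 3) (.e (nat_lit 98370) (nat_lit 28) (.e (nat_lit 442414) (nat_lit 20) .nil)))))) (.g (nat_lit 0) .nil .nil))) 
(.lf (nat_lit 100981) (.g (nat_lit 2040) (.e (nat_lit 3255) (nat_lit 197) (.e (nat_lit 532563) (nat_lit 15) (.e (nat_lit 385094) (nat_lit 49) (.e (nat_lit 778317) (nat_lit 3) (.e (nat_lit 57477) (nat_lit 28) (.e (nat_lit 557107) (nat_lit 15) (.e (nat_lit 188439) (nat_lit 20) .nil))))))) (.g (nat_lit 4) .nil .nil)))))) (.nd (nat_lit 4) (.nd (nat_lit 5) (.nd (nat_lit 6) 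
(.lf (nat_lit 100877) (.g (nat_lit 4510) (.e (nat_lit 3254) (nat_lit 197) (.e (nat_lit 532499) (nat_lit 1) (.e (nat_lit 57847) (nat_lit 252) (.e (nat_lit 57407) (nat_lit 12) (.e (nat_lit 336454) (nat_lit 34) (.e (nat_lit 483385) (nat_lit 23) (.e (nat_lit 336260) (nat_lit 15) .nil))))))) (.g (nat_lit 6) .nil .nil))) 
(.lf (nat_lit 100941) (.g (nat_lit 2574) (.e (nat_lit 3254) (nat_lit 197) (.e (nat_lit 532563) (nat_lit 15) (.e (nat_lit 385094) (nat_lit 49) (.e (nat_lit 778317) (nat_lit 3) (.e (nat_lit 57477) (nat_lit 28) (.e (nat_lit 557107) (nat_lit 15) (.e (nat_lit 188439) (nat_lit 20) .nil))))))) (.g (nat_lit 4) .nil .nil)))) (.nd (nat_lit 6) 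
(.lf (nat_lit 100909) (.g (nat_lit 1432) (.e (nat_lit 3254) (nat_lit 197) (.e (nat_lit 532523) (nat_lit 7) (.e (nat_lit 319531) (nat_lit 16) (.e (nat_lit 286734) (nat_lit 3) .nil)))) .nil)) 
(.lf (nat_lit 100973) (.g (nat_lit 1763) (.e (nat_lit 3255) (nat_lit 197) (.e (nat_lit 532549) (nat_lit 12) (.e (nat_lit 360466) (nat_lit 3) (.e (nat_lit 516138) (nat_lit 7) .nil)))) .nil)))) (.nd (nat_lit 5) (.nd (nat_lit 6) 
(.lf (nat_lit 100893) (.g (nat_lit 1945) (.e (nat_lit 3254) (nat_lit 197) (.e (nat_lit 532504) (nat_lit 1) (.e (nat_lit 57852) (nat_lit 252) (.e (nat_lit 57445) (nat_lit 19) (.e (nat_lit 393229) (nat_lit 9) (.e (nat_lit 336086) (nat_lit 9) (.e (nat_lit 336261) (nat_lit 15) .nil))))))) (.g (nat_lit 4) .nil .nil))) 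
(.lf (nat_lit 100957) (.g (nat_lit 2133) (.e (nat_lit 3255) (nat_lit 197) (.e (nat_lit 532501) (nat_lit 1) (.e (nat_lit 57851) (nat_lit 252) (.e (nat_lit 57445) (nat_lit 19) .nil)))) .nil))) (.nd (nat_lit 6) 
(.lf (nat_lit 100925) (.g (nat_lit 5242) (.e (nat_lit 3254) (nat_lit 197) (.e (nat_lit 532535) (nat_lit 9) (.e (nat_lit 336099) (nat_lit 9) (.e (nat_lit 336013) (nat_lit 2) (.e (nat_lit 90121) (nat_lit 9) .nil))))) .nil)) 
(.lf (nat_lit 100989) (.g (nat_lit 1796) (.e (nat_lit 3256) (nat_lit 197) (.e (nat_lit 532500) (nat_lit 1) (.e (nat_lit 57851) (nat_lit 252) (.e (nat_lit 57406) (nat_lit 12) .nil)))) .nil))))))) (.nd (nat_lit 2) (.nd (nat_lit 3) (.nd (nat_lit 4) (.nd (nat_lit 5) (.nd (nat_lit 6) 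
(.lf (nat_lit 100867) (.g (nat_lit 4313) (.e (nat_lit 3253) (nat_lit 197) (.e (nat_lit 532566) (nat_lit 15) (.e (nat_lit 385093) (nat_lit 49) (.e (nat_lit 778317) (nat_lit 3) (.e (nat_lit 57479) (nat_lit 28) (.e (nat_lit 557107) (nat_lit 15) (.e (nat_lit 196352) (nat_lit 20) .nil))))))) (.g (nat_lit 6) .nil .nil))) 
(.lf (nat_lit 100931) (.g (nat_lit 3822) (.e (nat_lit 3254) (nat_lit 197) (.e (nat_lit 532535) (nat_lit 9) (.e (nat_lit 336176) (nat_lit 10) (.e (nat_lit 344133) (nat_lit 26) .nil)))) .nil))) (.nd (nat_lit 6) 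
(.lf (nat_lit 100899) (.g (nat_lit 1468) (.e (nat_lit 3254) (nat_lit 197) (.e (nat_lit 532523) (nat_lit 7) (.e (nat_lit 319504) (nat_lit 10) (.e (nat_lit 5272) (nat_lit 298) .nil)))) .nil)) 
(.lf (nat_lit 100963) (.g (nat_lit 4316) (.e (nat_lit 3255) (nat_lit 197) (.e (nat_lit 532522) (nat_lit 7) (.e (nat_lit 319530) (nat_lit 16) (.e (nat_lit 286733) (nat_lit 2) (.e (nat_lit 90178) (nat_lit 15) (.e (nat_lit 188440) (nat_lit 20) .nil)))))) (.g (nat_lit 6) .nil .nil))))) (.nd (nat_lit 5) (.nd (nat_lit 6) 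
(.lf (nat_lit 100883) (.g (nat_lit 1772) (.e (nat_lit 3254) (nat_lit 197) (.e (nat_lit 532499) (nat_lit 1) (.e (nat_lit 57849) (nat_lit 252) (.e (nat_lit 57411) (nat_lit 12) (.e (nat_lit 336454) (nat_lit 34) .nil))))) .nil)) 
(.lf (nat_lit 100947) (.g (nat_lit 5026) (.e (nat_lit 3254) (nat_lit 197) (.e (nat_lit 532563) (nat_lit 15) (.e (nat_lit 385094) (nat_lit 49) (.e (nat_lit 778317) (nat_lit 3) (.e (nat_lit 57480) (nat_lit 28) (.e (nat_lit 557109) (nat_lit 15) (.e (nat_lit 188434) (nat_lit 20) .nil))))))) (.g (nat_lit 7) .nil .nil)))) (.nd (nat_lit 6) 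
(.lf (nat_lit 100915) (.g (nat_lit 1337) (.e (nat_lit 3254) (nat_lit 197) (.e (nat_lit 532523) (nat_lit 7) (.e (nat_lit 319533) (nat_lit 16) (.e (nat_lit 286734) (nat_lit 3) .nil)))) .nil)) 
(.lf (nat_lit 100979) (.g (nat_lit 4272) (.e (nat_lit 3255) (nat_lit 197) (.e (nat_lit 532563) (nat_lit 15) (.e (nat_lit 385094) (nat_lit 49) (.e (nat_lit 778317) (nat_lit 3) (.e (nat_lit 57476) (nat_lit 28) (.e (nat_lit 557107) (nat_lit 15) (.e (nat_lit 188440) (nat_lit 20) .nil))))))) (.g (nat_lit 7) .nil .nil)))))) (.nd (nat_lit 4) (.nd (nat_lit 5) (.nd (nat_lit 6) 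
(.lf (nat_lit 100875) (.g (nat_lit 3384) (.e (nat_lit 3253) (nat_lit 197) (.e (nat_lit 532566) (nat_lit 15) (.e (nat_lit 385094) (nat_lit 49) (.e (nat_lit 778317) (nat_lit 3) (.e (nat_lit 57480) (nat_lit 28) (.e (nat_lit 557107) (nat_lit 15) (.e (nat_lit 196352) (nat_lit 20) .nil))))))) (.g (nat_lit 6) .nil .nil))) 
(.lf (nat_lit 100939) (.g (nat_lit 2471) (.e (nat_lit 3254) (nat_lit 197) (.e (nat_lit 532563) (nat_lit 15) (.e (nat_lit 385094) (nat_lit 49) (.e (nat_lit 778317) (nat_lit 3) (.e (nat_lit 57476) (nat_lit 28) .nil))))) .nil))) (.nd (nat_lit 6) 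
(.lf (nat_lit 100907) (.g (nat_lit 2741) (.e (nat_lit 3254) (nat_lit 197) (.e (nat_lit 532523) (nat_lit 7) (.e (nat_lit 319531) (nat_lit 16) (.e (nat_lit 286733) (nat_lit 2) (.e (nat_lit 90177) (nat_lit 15) .nil))))) .nil)) 
(.lf (nat_lit 100971) (.g (nat_lit 1286) (.e (nat_lit 3255) (nat_lit 197) (.e (nat_lit 532547) (nat_lit 11) (.e (nat_lit 352315) (nat_lit 23) (.e (nat_lit 98349) (nat_lit 24) .nil)))) .nil)))) (.nd (nat_lit 5) (.nd (nat_lit 6) 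
(.lf (nat_lit 100891) (.g (nat_lit 1847) (.e (nat_lit 3254) (nat_lit 197) (.e (nat_lit 532504) (nat_lit 1) (.e (nat_lit 57852) (nat_lit 252) (.e (nat_lit 57445) (nat_lit 19) (.e (nat_lit 393229) (nat_lit 9) (.e (nat_lit 336086) (nat_lit 9) (.e (nat_lit 336259) (nat_lit 15) .nil))))))) (.g (nat_lit 4) .nil .nil))) 
(.lf (nat_lit 100955) (.g (nat_lit 2337) (.e (nat_lit 3255) (nat_lit 197) (.e (nat_lit 532499) (nat_lit 1) (.e (nat_lit 57849) (nat_lit 252) (.e (nat_lit 57411) (nat_lit 12) (.e (nat_lit 336454) (nat_lit 34) (.e (nat_lit 483385) (nat_lit 23) (.e (nat_lit 336260) (nat_lit 15) .nil))))))) (.g (nat_lit 5) .nil .nil)))) (.nd (nat_lit 6) 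
(.lf (nat_lit 100923) (.g (nat_lit 624) (.e (nat_lit 3254) (nat_lit 197) (.e (nat_lit 532523) (nat_lit 7) (.e (nat_lit 327424) (nat_lit 16) .nil))) .nil)) 
(.lf (nat_lit 100987) (.g (nat_lit 3789) (.e (nat_lit 3256) (nat_lit 197) (.e (nat_lit 532499) (nat_lit 1) (.e (nat_lit 57847) (nat_lit 252) (.e (nat_lit 57408) (nat_lit 12) .nil)))) .nil)))))) (.nd (nat_lit 3) (.nd (nat_lit 4) (.nd (nat_lit 5) (.nd (nat_lit 6) 
(.lf (nat_lit 100871) (.g (nat_lit 3933) (.e (nat_lit 3253) (nat_lit 197) (.e (nat_lit 532566) (nat_lit 15) (.e (nat_lit 385094) (nat_lit 49) (.e (nat_lit 778317) (nat_lit 3) (.e (nat_lit 57476) (nat_lit 28) (.e (nat_lit 557108) (nat_lit 15) (.e (nat_lit 196352) (nat_lit 20) .nil))))))) (.g (nat_lit 6) .nil .nil))) 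
(.lf (nat_lit 100935) (.g (nat_lit 5143) (.e (nat_lit 3254) (nat_lit 197) (.e (nat_lit 532550) (nat_lit 12) (.e (nat_lit 360474) (nat_lit 8) (.e (nat_lit 557093) (nat_lit 12) (.e (nat_lit 164023) (nat_lit 46) .nil))))) .nil))) (.nd (nat_lit 6) 
(.lf (nat_lit 100903) (.g (nat_lit 615) (.e (nat_lit 3254) (nat_lit 197) (.e (nat_lit 532523) (nat_lit 7) (.e (nat_lit 319530) (nat_lit 16) .nil))) .nil)) 
(.lf (nat_lit 100967) (.g (nat_lit 2763) (.e (nat_lit 3255) (nat_lit 197) (.e (nat_lit 532523) (nat_lit 7) (.e (nat_lit 319533) (nat_lit 16) (.e (nat_lit 286732) (nat_lit 2) (.e (nat_lit 90178) (nat_lit 15) (.e (nat_lit 188440) (nat_lit 20) .nil)))))) (.g (nat_lit 4) .nil .nil))))) (.nd (nat_lit 5) (.nd (nat_lit 6) 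
(.lf (nat_lit 100887) (.g (nat_lit 2348) (.e (nat_lit 3254) (nat_lit 197) (.e (nat_lit 532504) (nat_lit 1) (.e (nat_lit 57851) (nat_lit 252) (.e (nat_lit 57406) (nat_lit 12) (.e (nat_lit 336456) (nat_lit 34) .nil))))) .nil)) 
(.lf (nat_lit 100951) (.g (nat_lit 2355) (.e (nat_lit 3255) (nat_lit 197) (.e (nat_lit 532499) (nat_lit 1) (.e (nat_lit 57847) (nat_lit 252) (.e (nat_lit 57445) (nat_lit 19) .nil)))) .nil))) (.nd (nat_lit 6) 
(.lf (nat_lit 100919) (.g (nat_lit 1643) (.e (nat_lit 3254) (nat_lit 197) (.e (nat_lit 532523) (nat_lit 7) (.e (nat_lit 319534) (nat_lit 16) (.e (nat_lit 286732) (nat_lit 2) .nil)))) .nil)) 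
(.lf (nat_lit 100983) (.g (nat_lit 3644) (.e (nat_lit 3255) (nat_lit 197) (.e (nat_lit 532563) (nat_lit 15) (.e (nat_lit 385094) (nat_lit 49) (.e (nat_lit 778317) (nat_lit 3) (.e (nat_lit 57480) (nat_lit 28) (.e (nat_lit 557107) (nat_lit 15) (.e (nat_lit 188438) (nat_lit 20) .nil))))))) (.g (nat_lit 6) .nil .nil)))))) (.nd (nat_lit 4) (.nd (nat_lit 5) (.nd (nat_lit 6) 
(.lf (nat_lit 100879) (.g (nat_lit 2184) (.e (nat_lit 3254) (nat_lit 197) (.e (nat_lit 532499) (nat_lit 1) (.e (nat_lit 57847) (nat_lit 252) (.e (nat_lit 57445) (nat_lit 19) .nil)))) .nil)) 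
(.lf (nat_lit 100943) (.g (nat_lit 2266) (.e (nat_lit 3254) (nat_lit 197) (.e (nat_lit 532563) (nat_lit 15) (.e (nat_lit 385094) (nat_lit 49) (.e (nat_lit 778317) (nat_lit 3) (.e (nat_lit 57477) (nat_lit 28) (.e (nat_lit 557108) (nat_lit 15) (.e (nat_lit 188435) (nat_lit 20) .nil))))))) (.g (nat_lit 4) .nil .nil)))) (.nd (nat_lit 6) 
(.lf (nat_lit 100911) (.g (nat_lit 496) (.e (nat_lit 3254) (nat_lit 197) (.e (nat_lit 532523) (nat_lit 7) (.e (nat_lit 319532) (nat_lit 16) .nil))) .nil)) 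
(.lf (nat_lit 100975) (.g (nat_lit 4775) (.e (nat_lit 3255) (nat_lit 197) (.e (nat_lit 532550) (nat_lit 12) (.e (nat_lit 360475) (nat_lit 8) (.e (nat_lit 557089) (nat_lit 12) .nil)))) .nil)))) (.nd (nat_lit 5) (.nd (nat_lit 6) 
(.lf (nat_lit 100895) (.g (nat_lit 1644) (.e (nat_lit 3254) (nat_lit 197) (.e (nat_lit 532522) (nat_lit 7) (.e (nat_lit 319530) (nat_lit 16) (.e (nat_lit 286733) (nat_lit 2) .nil)))) .nil)) 
(.lf (nat_lit 100959) (.g (nat_lit 1906) (.e (nat_lit 3255) (nat_lit 197) (.e (nat_lit 532501) (nat_lit 1) (.e (nat_lit 57852) (nat_lit 252) (.e (nat_lit 57445) (nat_lit 19) .nil)))) .nil))) (.nd (nat_lit 6) 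
(.lf (nat_lit 100927) (.g (nat_lit 5447) (.e (nat_lit 3254) (nat_lit 197) (.e (nat_lit 532535) (nat_lit 9) (.e (nat_lit 336099) (nat_lit 9) (.e (nat_lit 336013) (nat_lit 2) (.e (nat_lit 90130) (nat_lit 9) .nil))))) .nil)) 
(.lf (nat_lit 100991) (.g (nat_lit 2212) (.e (nat_lit 3256) (nat_lit 197) (.e (nat_lit 532501) (nat_lit 1) (.e (nat_lit 57851) (nat_lit 252) (.e (nat_lit 57445) (nat_lit 19) .nil)))) .nil)))))))))

noncomputable def tv1376 : DT := (.nd (nat_lit 0) (.nd (nat_lit 1) (.nd (nat_lit 2) (.nd (nat_lit 3) (.nd (nat_lit 4) (.nd (nat_lit 5) 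
(.lf (nat_lit 100992) (.g (nat_lit 2234) (.e (nat_lit 3256) (nat_lit 197) (.e (nat_lit 532501) (nat_lit 1) (.e (nat_lit 57851) (nat_lit 252) (.e (nat_lit 57446) (nat_lit 19) .nil)))) .nil)) 
(.lf (nat_lit 101024) (.g (nat_lit 2028) (.e (nat_lit 3256) (nat_lit 197) (.e (nat_lit 532565) (nat_lit 15) (.e (nat_lit 385093) (nat_lit 49) (.e (nat_lit 778317) (nat_lit 3) (.e (nat_lit 57477) (nat_lit 28) (.e (nat_lit 557108) (nat_lit 15) (.e (nat_lit 188433) (nat_lit 20) .nil))))))) (.g (nat_lit 4) .nil .nil)))) (.nd (nat_lit 5) 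
(.lf (nat_lit 101008) (.g (nat_lit 4005) (.e (nat_lit 3256) (nat_lit 197) (.e (nat_lit 532523) (nat_lit 7) (.e (nat_lit 319531) (nat_lit 16) (.e (nat_lit 286733) (nat_lit 2) (.e (nat_lit 90178) (nat_lit 15) (.e (nat_lit 188432) (nat_lit 20) .nil)))))) (.g (nat_lit 5) .nil .nil))) 
(.lf (nat_lit 101040) (.g (nat_lit 1722) (.e (nat_lit 3260) (nat_lit 198) (.e (nat_lit 540706) (nat_lit 12) (.e (nat_lit 360475) (nat_lit 8) (.e (nat_lit 557087) (nat_lit 11) .nil)))) .nil)))) (.nd (nat_lit 4) (.nd (nat_lit 5) 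
(.lf (nat_lit 101000) (.g (nat_lit 2329) (.e (nat_lit 3256) (nat_lit 197) (.e (nat_lit 532504) (nat_lit 1) (.e (nat_lit 57851) (nat_lit 252) (.e (nat_lit 57445) (nat_lit 19) .nil)))) .nil)) 
(.lf (nat_lit 101032) (.g (nat_lit 1798) (.e (nat_lit 7936) (nat_lit 197) (.e (nat_lit 532563) (nat_lit 15) (.e (nat_lit 385094) (nat_lit 49) (.e (nat_lit 778317) (nat_lit 3) (.e (nat_lit 57480) (nat_lit 28) .nil))))) .nil))) (.nd (nat_lit 5) 
(.lf (nat_lit 101016) (.g (nat_lit 4839) (.e (nat_lit 3256) (nat_lit 197) (.e (nat_lit 532550) (nat_lit 12) (.e (nat_lit 360475) (nat_lit 8) (.e (nat_lit 557086) (nat_lit 11) .nil)))) .nil)) 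
(.lf (nat_lit 101048) (.g (nat_lit 1406) (.e (nat_lit 3262) (nat_lit 198) (.e (nat_lit 540706) (nat_lit 12) (.e (nat_lit 360474) (nat_lit 8) (.e (nat_lit 557094) (nat_lit 12) (.e (nat_lit 163847) (nat_lit 0) .nil))))) .nil))))) (.nd (nat_lit 3) (.nd (nat_lit 4) (.nd (nat_lit 5) 
(.lf (nat_lit 100996) (.g (nat_lit 2437) (.e (nat_lit 3256) (nat_lit 197) (.e (nat_lit 532503) (nat_lit 1) (.e (nat_lit 57931) (nat_lit 282) (.e (nat_lit 163867) (nat_lit 2) (.e (nat_lit 196670) (nat_lit 14) .nil))))) .nil)) 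
(.lf (nat_lit 101028) (.g (nat_lit 1589) (.e (nat_lit 7936) (nat_lit 197) (.e (nat_lit 532550) (nat_lit 12) (.e (nat_lit 360474) (nat_lit 8) (.e (nat_lit 557093) (nat_lit 12) (.e (nat_lit 164023) (nat_lit 46) .nil))))) .nil))) (.nd (nat_lit 5) 
(.lf (nat_lit 101012) (.g (nat_lit 3859) (.e (nat_lit 3256) (nat_lit 197) (.e (nat_lit 532550) (nat_lit 12) (.e (nat_lit 360474) (nat_lit 8) (.e (nat_lit 557072) (nat_lit 9) .nil)))) .nil)) 
(.lf (nat_lit 101044) (.g (nat_lit 3167) (.e (nat_lit 3262) (nat_lit 198) (.e (nat_lit 540703) (nat_lit 11) (.e (nat_lit 352315) (nat_lit 23) (.e (nat_lit 98349) (nat_lit 24) (.e (nat_lit 409646) (nat_lit 18) (.e (nat_lit 303106) (nat_lit 0) .nil)))))) (.g (nat_lit 0) .nil .nil))))) (.nd (nat_lit 4) (.nd (nat_lit 5) 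
(.lf (nat_lit 101004) (.g (nat_lit 1220) (.e (nat_lit 3256) (nat_lit 197) (.e (nat_lit 532523) (nat_lit 7) (.e (nat_lit 319528) (nat_lit 16) (.e (nat_lit 286733) (nat_lit 2) .nil)))) .nil)) 
(.lf (nat_lit 101036) (.g (nat_lit 2555) (.e (nat_lit 3258) (nat_lit 198) (.e (nat_lit 540706) (nat_lit 12) (.e (nat_lit 360475) (nat_lit 8) (.e (nat_lit 557091) (nat_lit 12) (.e (nat_lit 164022) (nat_lit 46) .nil))))) .nil))) (.nd (nat_lit 5) 
(.lf (nat_lit 101020) (.g (nat_lit 4227) (.e (nat_lit 3256) (nat_lit 197) (.e (nat_lit 532563) (nat_lit 15) (.e (nat_lit 385094) (nat_lit 49) (.e (nat_lit 778317) (nat_lit 3) (.e (nat_lit 57476) (nat_lit 28) (.e (nat_lit 557108) (nat_lit 15) (.e (nat_lit 188433) (nat_lit 20) .nil))))))) (.g (nat_lit 6) .nil .nil))) 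
(.lf (nat_lit 101052) (.g (nat_lit 1589) (.e (nat_lit 3266) (nat_lit 199) (.e (nat_lit 548913) (nat_lit 18) (.e (nat_lit 172126) (nat_lit 14) (.e (nat_lit 491524) (nat_lit 0) .nil)))) .nil)))))) (.nd (nat_lit 2) (.nd (nat_lit 3) (.nd (nat_lit 4) (.nd (nat_lit 5) 
(.lf (nat_lit 100994) (.g (nat_lit 2377) (.e (nat_lit 3256) (nat_lit 197) (.e (nat_lit 532501) (nat_lit 1) (.e (nat_lit 57927) (nat_lit 282) (.e (nat_lit 163869) (nat_lit 2) (.e (nat_lit 196670) (nat_lit 14) .nil))))) .nil)) 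
(.lf (nat_lit 101026) (.g (nat_lit 826) (.e (nat_lit 7936) (nat_lit 197) (.e (nat_lit 532535) (nat_lit 9) (.e (nat_lit 336295) (nat_lit 15) .nil))) .nil))) (.nd (nat_lit 5) 
(.lf (nat_lit 101010) (.g (nat_lit 2780) (.e (nat_lit 3256) (nat_lit 197) (.e (nat_lit 532523) (nat_lit 7) (.e (nat_lit 319534) (nat_lit 16) (.e (nat_lit 286733) (nat_lit 2) (.e (nat_lit 90169) (nat_lit 13) (.e (nat_lit 172103) (nat_lit 9) (.e (nat_lit 426009) (nat_lit 0) .nil))))))) (.g (nat_lit 4) .nil .nil))) 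
(.lf (nat_lit 101042) (.g (nat_lit 4239) (.e (nat_lit 3262) (nat_lit 198) (.e (nat_lit 540703) (nat_lit 11) (.e (nat_lit 352302) (nat_lit 20) (.e (nat_lit 1842) (nat_lit 123) (.e (nat_lit 548889) (nat_lit 9) (.e (nat_lit 65630) (nat_lit 14) (.e (nat_lit 401412) (nat_lit 0) .nil))))))) (.g (nat_lit 0) .nil .nil))))) (.nd (nat_lit 4) (.nd (nat_lit 5) 
(.lf (nat_lit 101002) (.g (nat_lit 2679) (.e (nat_lit 3256) (nat_lit 197) (.e (nat_lit 532522) (nat_lit 7) (.e (nat_lit 319530) (nat_lit 16) (.e (nat_lit 286733) (nat_lit 2) (.e (nat_lit 90169) (nat_lit 13) .nil))))) .nil)) 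
(.lf (nat_lit 101034) (.g (nat_lit 2274) (.e (nat_lit 3258) (nat_lit 198) (.e (nat_lit 540706) (nat_lit 12) (.e (nat_lit 360475) (nat_lit 8) (.e (nat_lit 557085) (nat_lit 11) .nil)))) .nil))) (.nd (nat_lit 5) 
(.lf (nat_lit 101018) (.g (nat_lit 2578) (.e (nat_lit 3256) (nat_lit 197) (.e (nat_lit 532563) (nat_lit 15) (.e (nat_lit 385066) (nat_lit 26) (.e (nat_lit 532530) (nat_lit 9) (.e (nat_lit 336326) (nat_lit 18) .nil))))) .nil)) 
(.lf (nat_lit 101050) (.g (nat_lit 3151) (.e (nat_lit 3262) (nat_lit 198) (.e (nat_lit 540706) (nat_lit 12) (.e (nat_lit 360475) (nat_lit 8) (.e (nat_lit 557091) (nat_lit 12) (.e (nat_lit 164021) (nat_lit 46) .nil))))) .nil))))) (.nd (nat_lit 3) (.nd (nat_lit 4) (.nd (nat_lit 5) 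
(.lf (nat_lit 100998) (.g (nat_lit 2570) (.e (nat_lit 3256) (nat_lit 197) (.e (nat_lit 532503) (nat_lit 1) (.e (nat_lit 57931) (nat_lit 282) (.e (nat_lit 163874) (nat_lit 3) (.e (nat_lit 204872) (nat_lit 30) .nil))))) .nil)) 
(.lf (nat_lit 101030) (.g (nat_lit 1189) (.e (nat_lit 7936) (nat_lit 197) (.e (nat_lit 532550) (nat_lit 12) (.e (nat_lit 360475) (nat_lit 8) (.e (nat_lit 557091) (nat_lit 12) (.e (nat_lit 164022) (nat_lit 46) .nil))))) .nil))) (.nd (nat_lit 5) 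
(.lf (nat_lit 101014) (.g (nat_lit 4455) (.e (nat_lit 3256) (nat_lit 197) (.e (nat_lit 532550) (nat_lit 12) (.e (nat_lit 360474) (nat_lit 8) (.e (nat_lit 557094) (nat_lit 12) (.e (nat_lit 164022) (nat_lit 46) .nil))))) .nil)) 
(.lf (nat_lit 101046) (.g (nat_lit 3150) (.e (nat_lit 3262) (nat_lit 198) (.e (nat_lit 540703) (nat_lit 11) (.e (nat_lit 352315) (nat_lit 23) (.e (nat_lit 98350) (nat_lit 24) (.e (nat_lit 409646) (nat_lit 18) (.e (nat_lit 303106) (nat_lit 0) .nil)))))) (.g (nat_lit 0) .nil .nil))))) (.nd (nat_lit 4) (.nd (nat_lit 5) 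
(.lf (nat_lit 101006) (.g (nat_lit 3614) (.e (nat_lit 3256) (nat_lit 197) (.e (nat_lit 532523) (nat_lit 7) (.e (nat_lit 319530) (nat_lit 16) (.e (nat_lit 286733) (nat_lit 2) (.e (nat_lit 90178) (nat_lit 15) (.e (nat_lit 188432) (nat_lit 20) .nil)))))) (.g (nat_lit 5) .nil .nil))) 
(.lf (nat_lit 101038) (.g (nat_lit 2801) (.e (nat_lit 3259) (nat_lit 198) (.e (nat_lit 540706) (nat_lit 12) (.e (nat_lit 360475) (nat_lit 8) (.e (nat_lit 557091) (nat_lit 12) (.e (nat_lit 164022) (nat_lit 46) .nil))))) .nil))) (.nd (nat_lit 5) 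
(.lf (nat_lit 101022) (.g (nat_lit 2445) (.e (nat_lit 3256) (nat_lit 197) (.e (nat_lit 532563) (nat_lit 15) (.e (nat_lit 385094) (nat_lit 49) (.e (nat_lit 778317) (nat_lit 3) (.e (nat_lit 57480) (nat_lit 28) (.e (nat_lit 557107) (nat_lit 15) (.e (nat_lit 188424) (nat_lit 20) .nil))))))) (.g (nat_lit 4) .nil .nil))) 
(.lf (nat_lit 101054) (.g (nat_lit 2494) (.e (nat_lit 3268) (nat_lit 199) (.e (nat_lit 548891) (nat_lit 11) (.e (nat_lit 81956) (nat_lit 23) (.e (nat_lit 98356) (nat_lit 26) (.e (nat_lit 426448) (nat_lit 20) .nil))))) .nil))))))) (.nd (nat_lit 1) (.nd (nat_lit 2) (.nd (nat_lit 3) (.nd (nat_lit 4) (.nd (nat_lit 5) 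
(.lf (nat_lit 100993) (.g (nat_lit 2616) (.e (nat_lit 3256) (nat_lit 197) (.e (nat_lit 532501) (nat_lit 1) (.e (nat_lit 57927) (nat_lit 282) (.e (nat_lit 163869) (nat_lit 2) (.e (nat_lit 196668) (nat_lit 14) .nil))))) .nil)) 
(.lf (nat_lit 101025) (.g (nat_lit 3030) (.e (nat_lit 7936) (nat_lit 197) (.e (nat_lit 532499) (nat_lit 1) (.e (nat_lit 57847) (nat_lit 252) (.e (nat_lit 57446) (nat_lit 19) .nil)))) .nil))) (.nd (nat_lit 5) 
(.lf (nat_lit 101009) (.g (nat_lit 2821) (.e (nat_lit 3256) (nat_lit 197) (.e (nat_lit 532523) (nat_lit 7) (.e (nat_lit 319533) (nat_lit 16) (.e (nat_lit 286733) (nat_lit 2) (.e (nat_lit 90169) (nat_lit 13) .nil))))) .nil)) 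
(.lf (nat_lit 101041) (.g (nat_lit 2730) (.e (nat_lit 3260) (nat_lit 198) (.e (nat_lit 540706) (nat_lit 12) (.e (nat_lit 360475) (nat_lit 8) (.e (nat_lit 557091) (nat_lit 12) (.e (nat_lit 164022) (nat_lit 46) .nil))))) .nil)))) (.nd (nat_lit 4) (.nd (nat_lit 5) 
(.lf (nat_lit 101001) (.g (nat_lit 2272) (.e (nat_lit 3256) (nat_lit 197) (.e (nat_lit 532504) (nat_lit 1) (.e (nat_lit 57851) (nat_lit 252) (.e (nat_lit 57446) (nat_lit 19) .nil)))) .nil)) 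
(.lf (nat_lit 101033) (.g (nat_lit 1521) (.e (nat_lit 3258) (nat_lit 198) (.e (nat_lit 540706) (nat_lit 12) (.e (nat_lit 360474) (nat_lit 8) (.e (nat_lit 557094) (nat_lit 12) (.e (nat_lit 164022) (nat_lit 46) .nil))))) .nil))) (.nd (nat_lit 5) 
(.lf (nat_lit 101017) (.g (nat_lit 6583) (.e (nat_lit 3256) (nat_lit 197) (.e (nat_lit 532550) (nat_lit 12) (.e (nat_lit 360475) (nat_lit 8) (.e (nat_lit 557090) (nat_lit 12) .nil)))) .nil)) 
(.lf (nat_lit 101049) (.g (nat_lit 1484) (.e (nat_lit 3262) (nat_lit 198) (.e (nat_lit 540706) (nat_lit 12) (.e (nat_lit 360475) (nat_lit 8) (.e (nat_lit 557090) (nat_lit 12) (.e (nat_lit 164020) (nat_lit 45) .nil))))) .nil))))) (.nd (nat_lit 3) (.nd (nat_lit 4) (.nd (nat_lit 5) 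
(.lf (nat_lit 100997) (.g (nat_lit 2779) (.e (nat_lit 3256) (nat_lit 197) (.e (nat_lit 532503) (nat_lit 1) (.e (nat_lit 57931) (nat_lit 282) (.e (nat_lit 163869) (nat_lit 2) (.e (nat_lit 196668) (nat_lit 14) .nil))))) .nil)) 
(.lf (nat_lit 101029) (.g (nat_lit 844) (.e (nat_lit 7936) (nat_lit 197) (.e (nat_lit 532550) (nat_lit 12) (.e (nat_lit 360475) (nat_lit 8) (.e (nat_lit 557085) (nat_lit 11) .nil)))) .nil))) (.nd (nat_lit 5) 
(.lf (nat_lit 101013) (.g (nat_lit 4918) (.e (nat_lit 3256) (nat_lit 197) (.e (nat_lit 532550) (nat_lit 12) (.e (nat_lit 360474) (nat_lit 8) (.e (nat_lit 557093) (nat_lit 12) (.e (nat_lit 164023) (nat_lit 46) .nil))))) .nil)) 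
(.lf (nat_lit 101045) (.g (nat_lit 902) (.e (nat_lit 3262) (nat_lit 198) (.e (nat_lit 540703) (nat_lit 11) (.e (nat_lit 352315) (nat_lit 23) (.e (nat_lit 98350) (nat_lit 24) .nil)))) .nil)))) (.nd (nat_lit 4) (.nd (nat_lit 5) 
(.lf (nat_lit 101005) (.g (nat_lit 3219) (.e (nat_lit 3256) (nat_lit 197) (.e (nat_lit 532523) (nat_lit 7) (.e (nat_lit 319530) (nat_lit 16) (.e (nat_lit 286733) (nat_lit 2) (.e (nat_lit 90169) (nat_lit 13) (.e (nat_lit 172103) (nat_lit 9) (.e (nat_lit 426009) (nat_lit 0) .nil))))))) (.g (nat_lit 4) .nil .nil))) 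
(.lf (nat_lit 101037) (.g (nat_lit 1772) (.e (nat_lit 3259) (nat_lit 198) (.e (nat_lit 540706) (nat_lit 12) (.e (nat_lit 360475) (nat_lit 8) (.e (nat_lit 557086) (nat_lit 11) .nil)))) .nil))) (.nd (nat_lit 5) 
(.lf (nat_lit 101021) (.g (nat_lit 3983) (.e (nat_lit 3256) (nat_lit 197) (.e (nat_lit 532563) (nat_lit 15) (.e (nat_lit 385094) (nat_lit 49) (.e (nat_lit 778317) (nat_lit 3) (.e (nat_lit 57477) (nat_lit 28) (.e (nat_lit 557108) (nat_lit 15) (.e (nat_lit 188433) (nat_lit 20) .nil))))))) (.g (nat_lit 6) .nil .nil))) 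
(.lf (nat_lit 101053) (.g (nat_lit 2806) (.e (nat_lit 3268) (nat_lit 199) (.e (nat_lit 548889) (nat_lit 9) (.e (nat_lit 65610) (nat_lit 10) (.e (nat_lit 344117) (nat_lit 21) (.e (nat_lit 516145) (nat_lit 9) .nil))))) .nil)))))) (.nd (nat_lit 2) (.nd (nat_lit 3) (.nd (nat_lit 4) (.nd (nat_lit 5) 
(.lf (nat_lit 100995) (.g (nat_lit 2400) (.e (nat_lit 3256) (nat_lit 197) (.e (nat_lit 532503) (nat_lit 1) (.e (nat_lit 57931) (nat_lit 282) (.e (nat_lit 163867) (nat_lit 2) (.e (nat_lit 196668) (nat_lit 14) .nil))))) .nil)) 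
(.lf (nat_lit 101027) (.g (nat_lit 4219) (.e (nat_lit 7936) (nat_lit 197) (.e (nat_lit 532550) (nat_lit 12) (.e (nat_lit 360474) (nat_lit 8) (.e (nat_lit 557091) (nat_lit 12) .nil)))) .nil))) (.nd (nat_lit 5) 
(.lf (nat_lit 101011) (.g (nat_lit 2720) (.e (nat_lit 3256) (nat_lit 197) (.e (nat_lit 532523) (nat_lit 7) (.e (nat_lit 319534) (nat_lit 16) (.e (nat_lit 286734) (nat_lit 3) (.e (nat_lit 98370) (nat_lit 28) (.e (nat_lit 442400) (nat_lit 20) .nil)))))) (.g (nat_lit 4) .nil .nil))) 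
(.lf (nat_lit 101043) (.g (nat_lit 3423) (.e (nat_lit 3262) (nat_lit 198) (.e (nat_lit 540703) (nat_lit 11) (.e (nat_lit 352315) (nat_lit 23) (.e (nat_lit 98349) (nat_lit 24) (.e (nat_lit 409645) (nat_lit 18) (.e (nat_lit 303106) (nat_lit 0) .nil)))))) (.g (nat_lit 0) .nil .nil))))) (.nd (nat_lit 4) (.nd (nat_lit 5) 
(.lf (nat_lit 101003) (.g (nat_lit 2836) (.e (nat_lit 3256) (nat_lit 197) (.e (nat_lit 532522) (nat_lit 7) (.e (nat_lit 319530) (nat_lit 16) (.e (nat_lit 286733) (nat_lit 2) (.e (nat_lit 90178) (nat_lit 15) (.e (nat_lit 188432) (nat_lit 20) .nil)))))) (.g (nat_lit 4) .nil .nil))) 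
(.lf (nat_lit 101035) (.g (nat_lit 1057) (.e (nat_lit 3258) (nat_lit 198) (.e (nat_lit 540706) (nat_lit 12) (.e (nat_lit 360475) (nat_lit 8) (.e (nat_lit 557086) (nat_lit 11) .nil)))) .nil))) (.nd (nat_lit 5) 
(.lf (nat_lit 101019) (.g (nat_lit 2583) (.e (nat_lit 3256) (nat_lit 197) (.e (nat_lit 532563) (nat_lit 15) (.e (nat_lit 385066) (nat_lit 26) (.e (nat_lit 532534) (nat_lit 9) (.e (nat_lit 336326) (nat_lit 18) .nil))))) .nil)) 
(.lf (nat_lit 101051) (.g (nat_lit 744) (.e (nat_lit 3265) (nat_lit 199) (.e (nat_lit 548913) (nat_lit 18) (.e (nat_lit 172120) (nat_lit 12) .nil))) .nil))))) (.nd (nat_lit 3) (.nd (nat_lit 4) (.nd (nat_lit 5) 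
(.lf (nat_lit 100999) (.g (nat_lit 1370) (.e (nat_lit 3256) (nat_lit 197) (.e (nat_lit 532504) (nat_lit 1) (.e (nat_lit 57851) (nat_lit 252) .nil))) .nil)) 
(.lf (nat_lit 101031) (.g (nat_lit 1824) (.e (nat_lit 7936) (nat_lit 197) (.e (nat_lit 532563) (nat_lit 15) (.e (nat_lit 385094) (nat_lit 49) (.e (nat_lit 778317) (nat_lit 3) (.e (nat_lit 57477) (nat_lit 28) .nil))))) .nil))) (.nd (nat_lit 5) 
(.lf (nat_lit 101015) (.g (nat_lit 5471) (.e (nat_lit 3256) (nat_lit 197) (.e (nat_lit 532550) (nat_lit 12) (.e (nat_lit 360475) (nat_lit 8) (.e (nat_lit 557070) (nat_lit 9) .nil)))) .nil)) 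
(.lf (nat_lit 101047) (.g (nat_lit 1523) (.e (nat_lit 3262) (nat_lit 198) (.e (nat_lit 540706) (nat_lit 12) (.e (nat_lit 360474) (nat_lit 8) (.e (nat_lit 557093) (nat_lit 12) (.e (nat_lit 163848) (nat_lit 0) .nil))))) .nil)))) (.nd (nat_lit 4) (.nd (nat_lit 5) 
(.lf (nat_lit 101007) (.g (nat_lit 3474) (.e (nat_lit 3256) (nat_lit 197) (.e (nat_lit 532523) (nat_lit 7) (.e (nat_lit 319531) (nat_lit 16) (.e (nat_lit 286733) (nat_lit 2) (.e (nat_lit 90169) (nat_lit 13) (.e (nat_lit 172103) (nat_lit 9) (.e (nat_lit 426009) (nat_lit 0) .nil))))))) (.g (nat_lit 5) .nil .nil))) 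
(.lf (nat_lit 101039) (.g (nat_lit 2985) (.e (nat_lit 3260) (nat_lit 198) (.e (nat_lit 540688) (nat_lit 7) (.e (nat_lit 319531) (nat_lit 16) (.e (nat_lit 286733) (nat_lit 2) (.e (nat_lit 90169) (nat_lit 13) (.e (nat_lit 172103) (nat_lit 9) (.e (nat_lit 426009) (nat_lit 0) .nil))))))) (.g (nat_lit 6) .nil .nil)))) (.nd (nat_lit 5) 
(.lf (nat_lit 101023) (.g (nat_lit 3559) (.e (nat_lit 3256) (nat_lit 197) (.e (nat_lit 532563) (nat_lit 15) (.e (nat_lit 385094) (nat_lit 49) (.e (nat_lit 778317) (nat_lit 3) (.e (nat_lit 57480) (nat_lit 28) (.e (nat_lit 557109) (nat_lit 15) (.e (nat_lit 188424) (nat_lit 20) .nil))))))) (.g (nat_lit 5) .nil .nil))) 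
(.lf (nat_lit 101055) (.g (nat_lit 523) (.e (nat_lit 3270) (nat_lit 199) (.e (nat_lit 548898) (nat_lit 14) (.e (nat_lit 2982) (nat_lit 186) .nil))) .nil))))))))

noncomputable def tv1377 : DT := (.nd (nat_lit 0) (.nd (nat_lit 1) (.nd (nat_lit 2) (.nd (nat_lit 3) (.nd (nat_lit 4) (.nd (nat_lit 5) 
(.lf (nat_lit 101056) (.g (nat_lit 975) (.e (nat_lit 3270) (nat_lit 199) (.e (nat_lit 548913) (nat_lit 18) (.e (nat_lit 172032) (nat_lit 0) (.e (nat_lit 7545) (nat_lit 402) (.e (nat_lit 1227) (nat_lit 91) .nil))))) .nil)) 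
(.lf (nat_lit 101088) (.g (nat_lit 2812) (.e (nat_lit 3271) (nat_lit 199) (.e (nat_lit 548913) (nat_lit 18) (.e (nat_lit 172087) (nat_lit 9) (.e (nat_lit 426402) (nat_lit 15) (.e (nat_lit 1859) (nat_lit 124) (.e (nat_lit 557109) (nat_lit 15) (.e (nat_lit 188434) (nat_lit 20) .nil))))))) (.g (nat_lit 7) .nil .nil)))) (.nd (nat_lit 5) 
(.lf (nat_lit 101072) (.g (nat_lit 864) (.e (nat_lit 3271) (nat_lit 199) (.e (nat_lit 548913) (nat_lit 18) (.e (nat_lit 172042) (nat_lit 0) (.e (nat_lit 7936) (nat_lit 402) .nil)))) .nil)) 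
(.lf (nat_lit 101104) (.g (nat_lit 4502) (.e (nat_lit 3272) (nat_lit 199) (.e (nat_lit 548898) (nat_lit 14) (.e (nat_lit 2824) (nat_lit 182) (.e (nat_lit 409642) (nat_lit 17) (.e (nat_lit 294931) (nat_lit 3) (.e (nat_lit 98350) (nat_lit 24) (.e (nat_lit 409648) (nat_lit 18) (.e (nat_lit 303108) (nat_lit 0) .nil)))))))) (.g (nat_lit 7) .nil .nil))))) (.nd (nat_lit 4) (.nd (nat_lit 5) 
(.lf (nat_lit 101064) (.g (nat_lit 2263) (.e (nat_lit 3270) (nat_lit 199) (.e (nat_lit 548913) (nat_lit 18) (.e (nat_lit 172087) (nat_lit 9) (.e (nat_lit 426363) (nat_lit 15) (.e (nat_lit 1859) (nat_lit 124) (.e (nat_lit 557107) (nat_lit 15) (.e (nat_lit 188439) (nat_lit 20) .nil))))))) (.g (nat_lit 6) .nil .nil))) 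
(.lf (nat_lit 101096) (.g (nat_lit 2342) (.e (nat_lit 3271) (nat_lit 199) (.e (nat_lit 548914) (nat_lit 19) (.e (nat_lit 180277) (nat_lit 32) (.e (nat_lit 1234) (nat_lit 91) (.e (nat_lit 90176) (nat_lit 15) (.e (nat_lit 188439) (nat_lit 20) .nil)))))) (.g (nat_lit 0) .nil .nil)))) (.nd (nat_lit 5) 
(.lf (nat_lit 101080) (.g (nat_lit 950) (.e (nat_lit 3271) (nat_lit 199) (.e (nat_lit 548913) (nat_lit 18) (.e (nat_lit 172087) (nat_lit 9) (.e (nat_lit 426360) (nat_lit 15) (.e (nat_lit 1849) (nat_lit 124) (.e (nat_lit 557107) (nat_lit 15) (.e (nat_lit 188439) (nat_lit 20) .nil))))))) (.g (nat_lit 4) .nil .nil))) 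
(.lf (nat_lit 101112) (.g (nat_lit 1483) (.e (nat_lit 3272) (nat_lit 199) (.e (nat_lit 548913) (nat_lit 18) (.e (nat_lit 172041) (nat_lit 0) (.e (nat_lit 7540) (nat_lit 402) (.e (nat_lit 1238) (nat_lit 91) .nil))))) .nil))))) (.nd (nat_lit 3) (.nd (nat_lit 4) (.nd (nat_lit 5) 
(.lf (nat_lit 101060) (.g (nat_lit 991) (.e (nat_lit 3270) (nat_lit 199) (.e (nat_lit 548913) (nat_lit 18) (.e (nat_lit 172042) (nat_lit 0) (.e (nat_lit 7936) (nat_lit 402) .nil)))) .nil)) 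
(.lf (nat_lit 101092) (.g (nat_lit 1864) (.e (nat_lit 3271) (nat_lit 199) (.e (nat_lit 548913) (nat_lit 18) (.e (nat_lit 172095) (nat_lit 9) (.e (nat_lit 433920) (nat_lit 15) (.e (nat_lit 1848) (nat_lit 124) (.e (nat_lit 557107) (nat_lit 15) (.e (nat_lit 188439) (nat_lit 20) .nil))))))) (.g (nat_lit 6) .nil .nil)))) (.nd (nat_lit 5) 
(.lf (nat_lit 101076) (.g (nat_lit 880) (.e (nat_lit 3271) (nat_lit 199) (.e (nat_lit 548913) (nat_lit 18) (.e (nat_lit 172082) (nat_lit 7) (.e (nat_lit 409616) (nat_lit 10) .nil)))) .nil)) 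
(.lf (nat_lit 101108) (.g (nat_lit 4929) (.e (nat_lit 3272) (nat_lit 199) (.e (nat_lit 548898) (nat_lit 14) (.e (nat_lit 2828) (nat_lit 182) (.e (nat_lit 409642) (nat_lit 17) (.e (nat_lit 294931) (nat_lit 3) (.e (nat_lit 98350) (nat_lit 24) (.e (nat_lit 409648) (nat_lit 18) (.e (nat_lit 303108) (nat_lit 0) .nil)))))))) (.g (nat_lit 7) .nil .nil))))) (.nd (nat_lit 4) (.nd (nat_lit 5) 
(.lf (nat_lit 101068) (.g (nat_lit 2040) (.e (nat_lit 3270) (nat_lit 199) (.e (nat_lit 548913) (nat_lit 18) (.e (nat_lit 172087) (nat_lit 9) (.e (nat_lit 426402) (nat_lit 15) (.e (nat_lit 1859) (nat_lit 124) (.e (nat_lit 557107) (nat_lit 15) (.e (nat_lit 188439) (nat_lit 20) .nil))))))) (.g (nat_lit 6) .nil .nil))) 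
(.lf (nat_lit 101100) (.g (nat_lit 2823) (.e (nat_lit 3271) (nat_lit 199) (.e (nat_lit 548915) (nat_lit 20) (.e (nat_lit 188420) (nat_lit 0) (.e (nat_lit 1855) (nat_lit 124) (.e (nat_lit 557109) (nat_lit 15) (.e (nat_lit 188441) (nat_lit 20) .nil)))))) (.g (nat_lit 5) .nil .nil)))) (.nd (nat_lit 5) 
(.lf (nat_lit 101084) (.g (nat_lit 2532) (.e (nat_lit 3271) (nat_lit 199) (.e (nat_lit 548913) (nat_lit 18) (.e (nat_lit 172087) (nat_lit 9) (.e (nat_lit 426402) (nat_lit 15) (.e (nat_lit 1848) (nat_lit 124) (.e (nat_lit 557108) (nat_lit 15) (.e (nat_lit 188434) (nat_lit 20) .nil))))))) (.g (nat_lit 7) .nil .nil))) 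
(.lf (nat_lit 101116) (.g (nat_lit 2400) (.e (nat_lit 3272) (nat_lit 199) (.e (nat_lit 548913) (nat_lit 18) (.e (nat_lit 172085) (nat_lit 9) (.e (nat_lit 426402) (nat_lit 15) (.e (nat_lit 1848) (nat_lit 124) (.e (nat_lit 557107) (nat_lit 15) (.e (nat_lit 188439) (nat_lit 20) .nil))))))) (.g (nat_lit 5) .nil .nil))))))) (.nd (nat_lit 2) (.nd (nat_lit 3) (.nd (nat_lit 4) (.nd (nat_lit 5) 
(.lf (nat_lit 101058) (.g (nat_lit 819) (.e (nat_lit 3270) (nat_lit 199) (.e (nat_lit 548913) (nat_lit 18) (.e (nat_lit 172033) (nat_lit 0) (.e (nat_lit 7555) (nat_lit 402) .nil)))) .nil)) 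
(.lf (nat_lit 101090) (.g (nat_lit 931) (.e (nat_lit 3271) (nat_lit 199) (.e (nat_lit 548913) (nat_lit 18) (.e (nat_lit 172094) (nat_lit 9) (.e (nat_lit 426410) (nat_lit 15) .nil)))) .nil))) (.nd (nat_lit 5) 
(.lf (nat_lit 101074) (.g (nat_lit 1312) (.e (nat_lit 3271) (nat_lit 199) (.e (nat_lit 548913) (nat_lit 18) (.e (nat_lit 172082) (nat_lit 7) (.e (nat_lit 409612) (nat_lit 10) (.e (nat_lit 543) (nat_lit 41) .nil))))) .nil)) 
(.lf (nat_lit 101106) (.g (nat_lit 4646) (.e (nat_lit 3272) (nat_lit 199) (.e (nat_lit 548898) (nat_lit 14) (.e (nat_lit 2828) (nat_lit 182) (.e (nat_lit 409641) (nat_lit 17) (.e (nat_lit 294931) (nat_lit 3) (.e (nat_lit 98350) (nat_lit 24) (.e (nat_lit 409648) (nat_lit 18) (.e (nat_lit 303108) (nat_lit 0) .nil)))))))) (.g (nat_lit 7) .nil .nil))))) (.nd (nat_lit 4) (.nd (nat_lit 5) 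
(.lf (nat_lit 101066) (.g (nat_lit 1916) (.e (nat_lit 3270) (nat_lit 199) (.e (nat_lit 548913) (nat_lit 18) (.e (nat_lit 172087) (nat_lit 9) (.e (nat_lit 426402) (nat_lit 15) (.e (nat_lit 1848) (nat_lit 124) (.e (nat_lit 557107) (nat_lit 15) (.e (nat_lit 188439) (nat_lit 20) .nil))))))) (.g (nat_lit 6) .nil .nil))) 
(.lf (nat_lit 101098) (.g (nat_lit 2299) (.e (nat_lit 3271) (nat_lit 199) (.e (nat_lit 548915) (nat_lit 20) (.e (nat_lit 188418) (nat_lit 0) (.e (nat_lit 1856) (nat_lit 124) (.e (nat_lit 557109) (nat_lit 15) (.e (nat_lit 188441) (nat_lit 20) .nil)))))) (.g (nat_lit 5) .nil .nil)))) (.nd (nat_lit 5) 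
(.lf (nat_lit 101082) (.g (nat_lit 3000) (.e (nat_lit 3271) (nat_lit 199) (.e (nat_lit 548913) (nat_lit 18) (.e (nat_lit 172087) (nat_lit 9) (.e (nat_lit 426363) (nat_lit 15) (.e (nat_lit 1859) (nat_lit 124) (.e (nat_lit 557109) (nat_lit 15) (.e (nat_lit 188434) (nat_lit 20) .nil))))))) (.g (nat_lit 7) .nil .nil))) 
(.lf (nat_lit 101114) (.g (nat_lit 2566) (.e (nat_lit 3272) (nat_lit 199) (.e (nat_lit 548913) (nat_lit 18) (.e (nat_lit 172085) (nat_lit 9) (.e (nat_lit 426363) (nat_lit 15) (.e (nat_lit 1859) (nat_lit 124) (.e (nat_lit 557107) (nat_lit 15) (.e (nat_lit 188439) (nat_lit 20) .nil))))))) (.g (nat_lit 6) .nil .nil)))))) (.nd (nat_lit 3) (.nd (nat_lit 4) (.nd (nat_lit 5) 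
(.lf (nat_lit 101062) (.g (nat_lit 1509) (.e (nat_lit 3270) (nat_lit 199) (.e (nat_lit 548913) (nat_lit 18) (.e (nat_lit 172085) (nat_lit 9) (.e (nat_lit 426402) (nat_lit 15) (.e (nat_lit 1859) (nat_lit 124) (.e (nat_lit 557107) (nat_lit 15) (.e (nat_lit 188439) (nat_lit 20) .nil))))))) (.g (nat_lit 4) .nil .nil))) 
(.lf (nat_lit 101094) (.g (nat_lit 1288) (.e (nat_lit 3271) (nat_lit 199) (.e (nat_lit 548913) (nat_lit 18) (.e (nat_lit 172125) (nat_lit 14) (.e (nat_lit 491524) (nat_lit 0) (.e (nat_lit 1691) (nat_lit 117) .nil))))) .nil))) (.nd (nat_lit 5) 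
(.lf (nat_lit 101078) (.g (nat_lit 1344) (.e (nat_lit 3271) (nat_lit 199) (.e (nat_lit 548913) (nat_lit 18) (.e (nat_lit 172085) (nat_lit 9) (.e (nat_lit 426402) (nat_lit 15) (.e (nat_lit 1849) (nat_lit 124) (.e (nat_lit 557107) (nat_lit 15) (.e (nat_lit 188439) (nat_lit 20) .nil))))))) (.g (nat_lit 4) .nil .nil))) 
(.lf (nat_lit 101110) (.g (nat_lit 2380) (.e (nat_lit 3272) (nat_lit 199) (.e (nat_lit 548913) (nat_lit 18) (.e (nat_lit 172034) (nat_lit 0) (.e (nat_lit 7545) (nat_lit 402) (.e (nat_lit 1238) (nat_lit 91) (.e (nat_lit 90176) (nat_lit 15) (.e (nat_lit 188439) (nat_lit 20) .nil))))))) (.g (nat_lit 6) .nil .nil))))) (.nd (nat_lit 4) (.nd (nat_lit 5) 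
(.lf (nat_lit 101070) (.g (nat_lit 709) (.e (nat_lit 3271) (nat_lit 199) (.e (nat_lit 548898) (nat_lit 14) (.e (nat_lit 2982) (nat_lit 186) (.e (nat_lit 450304) (nat_lit 0) .nil)))) .nil)) 
(.lf (nat_lit 101102) (.g (nat_lit 4430) (.e (nat_lit 3272) (nat_lit 199) (.e (nat_lit 548897) (nat_lit 14) (.e (nat_lit 2828) (nat_lit 182) (.e (nat_lit 409641) (nat_lit 17) (.e (nat_lit 294931) (nat_lit 3) (.e (nat_lit 98350) (nat_lit 24) (.e (nat_lit 409648) (nat_lit 18) (.e (nat_lit 303108) (nat_lit 0) .nil)))))))) (.g (nat_lit 7) .nil .nil)))) (.nd (nat_lit 5) 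
(.lf (nat_lit 101086) (.g (nat_lit 2350) (.e (nat_lit 3271) (nat_lit 199) (.e (nat_lit 548913) (nat_lit 18) (.e (nat_lit 172087) (nat_lit 9) (.e (nat_lit 426402) (nat_lit 15) (.e (nat_lit 1849) (nat_lit 124) (.e (nat_lit 557108) (nat_lit 15) (.e (nat_lit 188434) (nat_lit 20) .nil))))))) (.g (nat_lit 7) .nil .nil))) 
(.lf (nat_lit 101118) (.g (nat_lit 2652) (.e (nat_lit 3272) (nat_lit 199) (.e (nat_lit 548913) (nat_lit 18) (.e (nat_lit 172085) (nat_lit 9) (.e (nat_lit 426402) (nat_lit 15) (.e (nat_lit 1849) (nat_lit 124) (.e (nat_lit 557108) (nat_lit 15) (.e (nat_lit 188434) (nat_lit 20) .nil))))))) (.g (nat_lit 6) .nil .nil)))))))) 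
(.nd (nat_lit 1) (.nd (nat_lit 2) (.nd (nat_lit 3) (.nd (nat_lit 4) (.nd (nat_lit 5) 
(.lf (nat_lit 101057) (.g (nat_lit 487) (.e (nat_lit 3270) (nat_lit 199) (.e (nat_lit 548913) (nat_lit 18) (.e (nat_lit 172033) (nat_lit 0) .nil))) .nil)) 
(.lf (nat_lit 101089) (.g (nat_lit 394) (.e (nat_lit 3271) (nat_lit 199) (.e (nat_lit 548913) (nat_lit 18) (.e (nat_lit 172089) (nat_lit 9) .nil))) .nil))) (.nd (nat_lit 5) 
(.lf (nat_lit 101073) (.g (nat_lit 835) (.e (nat_lit 3271) (nat_lit 199) (.e (nat_lit 548913) (nat_lit 18) (.e (nat_lit 172061) (nat_lit 1) (.e (nat_lit 164424) (nat_lit 272) .nil)))) .nil)) 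
(.lf (nat_lit 101105) (.g (nat_lit 5031) (.e (nat_lit 3272) (nat_lit 199) (.e (nat_lit 548898) (nat_lit 14) (.e (nat_lit 2828) (nat_lit 182) (.e (nat_lit 409640) (nat_lit 17) (.e (nat_lit 294931) (nat_lit 3) (.e (nat_lit 98350) (nat_lit 24) (.e (nat_lit 409649) (nat_lit 18) (.e (nat_lit 303111) (nat_lit 0) .nil)))))))) (.g (nat_lit 8) .nil .nil))))) (.nd (nat_lit 4) (.nd (nat_lit 5) 
(.lf (nat_lit 101065) (.g (nat_lit 1914) (.e (nat_lit 3270) (nat_lit 199) (.e (nat_lit 548913) (nat_lit 18) (.e (nat_lit 172087) (nat_lit 9) (.e (nat_lit 426399) (nat_lit 15) (.e (nat_lit 1855) (nat_lit 124) (.e (nat_lit 557107) (nat_lit 15) (.e (nat_lit 188439) (nat_lit 20) .nil))))))) (.g (nat_lit 5) .nil .nil))) 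
(.lf (nat_lit 101097) (.g (nat_lit 2256) (.e (nat_lit 3271) (nat_lit 199) (.e (nat_lit 548914) (nat_lit 19) (.e (nat_lit 180277) (nat_lit 32) (.e (nat_lit 1235) (nat_lit 91) (.e (nat_lit 90178) (nat_lit 15) (.e (nat_lit 188441) (nat_lit 20) .nil)))))) (.g (nat_lit 6) .nil .nil)))) (.nd (nat_lit 5) 
(.lf (nat_lit 101081) (.g (nat_lit 2246) (.e (nat_lit 3271) (nat_lit 199) (.e (nat_lit 548913) (nat_lit 18) (.e (nat_lit 172087) (nat_lit 9) (.e (nat_lit 426363) (nat_lit 15) (.e (nat_lit 1859) (nat_lit 124) (.e (nat_lit 557107) (nat_lit 15) (.e (nat_lit 188439) (nat_lit 20) .nil))))))) (.g (nat_lit 7) .nil .nil))) 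
(.lf (nat_lit 101113) (.g (nat_lit 3244) (.e (nat_lit 3272) (nat_lit 199) (.e (nat_lit 548913) (nat_lit 18) (.e (nat_lit 172041) (nat_lit 0) (.e (nat_lit 7562) (nat_lit 402) (.e (nat_lit 1235) (nat_lit 91) (.e (nat_lit 90176) (nat_lit 15) (.e (nat_lit 188439) (nat_lit 20) .nil))))))) (.g (nat_lit 6) .nil .nil)))))) (.nd (nat_lit 3) (.nd (nat_lit 4) (.nd (nat_lit 5) 
(.lf (nat_lit 101061) (.g (nat_lit 1452) (.e (nat_lit 3270) (nat_lit 199) (.e (nat_lit 548913) (nat_lit 18) (.e (nat_lit 172085) (nat_lit 9) (.e (nat_lit 426363) (nat_lit 15) (.e (nat_lit 1859) (nat_lit 124) (.e (nat_lit 557107) (nat_lit 15) (.e (nat_lit 188439) (nat_lit 20) .nil))))))) (.g (nat_lit 4) .nil .nil))) 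
(.lf (nat_lit 101093) (.g (nat_lit 1861) (.e (nat_lit 3271) (nat_lit 199) (.e (nat_lit 548913) (nat_lit 18) (.e (nat_lit 172095) (nat_lit 9) (.e (nat_lit 433920) (nat_lit 15) (.e (nat_lit 1859) (nat_lit 124) (.e (nat_lit 557107) (nat_lit 15) (.e (nat_lit 188439) (nat_lit 20) .nil))))))) (.g (nat_lit 6) .nil .nil)))) (.nd (nat_lit 5) 
(.lf (nat_lit 101077) (.g (nat_lit 1346) (.e (nat_lit 3271) (nat_lit 199) (.e (nat_lit 548913) (nat_lit 18) (.e (nat_lit 172085) (nat_lit 9) (.e (nat_lit 426402) (nat_lit 15) (.e (nat_lit 1848) (nat_lit 124) (.e (nat_lit 557107) (nat_lit 15) (.e (nat_lit 188439) (nat_lit 20) .nil))))))) (.g (nat_lit 4) .nil .nil))) 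
(.lf (nat_lit 101109) (.g (nat_lit 2274) (.e (nat_lit 3272) (nat_lit 199) (.e (nat_lit 548898) (nat_lit 14) (.e (nat_lit 2964) (nat_lit 185) (.e (nat_lit 434202) (nat_lit 18) (.e (nat_lit 4598) (nat_lit 269) (.e (nat_lit 1182) (nat_lit 87) (.e (nat_lit 57480) (nat_lit 28) (.e (nat_lit 557107) (nat_lit 15) (.e (nat_lit 188439) (nat_lit 20) .nil))))))))) (.g (nat_lit 4) .nil .nil))))) 
(.nd (nat_lit 4) (.nd (nat_lit 5) 
(.lf (nat_lit 101069) (.g (nat_lit 2606) (.e (nat_lit 3270) (nat_lit 199) (.e (nat_lit 548915) (nat_lit 20) (.e (nat_lit 188420) (nat_lit 0) (.e (nat_lit 1855) (nat_lit 124) (.e (nat_lit 557107) (nat_lit 15) (.e (nat_lit 188439) (nat_lit 20) .nil)))))) (.g (nat_lit 5) .nil .nil))) 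
(.lf (nat_lit 101101) (.g (nat_lit 2354) (.e (nat_lit 3271) (nat_lit 199) (.e (nat_lit 548915) (nat_lit 20) (.e (nat_lit 188420) (nat_lit 0) (.e (nat_lit 1856) (nat_lit 124) (.e (nat_lit 557109) (nat_lit 15) (.e (nat_lit 188441) (nat_lit 20) .nil)))))) (.g (nat_lit 5) .nil .nil)))) (.nd (nat_lit 5) 
(.lf (nat_lit 101085) (.g (nat_lit 1928) (.e (nat_lit 3271) (nat_lit 199) (.e (nat_lit 548913) (nat_lit 18) (.e (nat_lit 172087) (nat_lit 9) (.e (nat_lit 426402) (nat_lit 15) (.e (nat_lit 1849) (nat_lit 124) (.e (nat_lit 557107) (nat_lit 15) (.e (nat_lit 188439) (nat_lit 20) .nil))))))) (.g (nat_lit 7) .nil .nil))) 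
(.lf (nat_lit 101117) (.g (nat_lit 2875) (.e (nat_lit 3272) (nat_lit 199) (.e (nat_lit 548913) (nat_lit 18) (.e (nat_lit 172085) (nat_lit 9) (.e (nat_lit 426402) (nat_lit 15) (.e (nat_lit 1848) (nat_lit 124) (.e (nat_lit 557108) (nat_lit 15) (.e (nat_lit 188434) (nat_lit 20) .nil))))))) (.g (nat_lit 6) .nil .nil))))))) (.nd (nat_lit 2) (.nd (nat_lit 3) (.nd (nat_lit 4) (.nd (nat_lit 5) 
(.lf (nat_lit 101059) (.g (nat_lit 1137) (.e (nat_lit 3270) (nat_lit 199) (.e (nat_lit 548913) (nat_lit 18) (.e (nat_lit 172034) (nat_lit 0) (.e (nat_lit 7541) (nat_lit 402) (.e (nat_lit 1227) (nat_lit 91) .nil))))) .nil)) 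
(.lf (nat_lit 101091) (.g (nat_lit 928) (.e (nat_lit 3271) (nat_lit 199) (.e (nat_lit 548913) (nat_lit 18) (.e (nat_lit 172094) (nat_lit 9) (.e (nat_lit 433920) (nat_lit 15) .nil)))) .nil))) (.nd (nat_lit 5) 
(.lf (nat_lit 101075) (.g (nat_lit 1502) (.e (nat_lit 3271) (nat_lit 199) (.e (nat_lit 548913) (nat_lit 18) (.e (nat_lit 172082) (nat_lit 7) (.e (nat_lit 409612) (nat_lit 10) (.e (nat_lit 7936) (nat_lit 43) (.e (nat_lit 516163) (nat_lit 11) (.e (nat_lit 442412) (nat_lit 20) .nil))))))) (.g (nat_lit 4) .nil .nil))) 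
(.lf (nat_lit 101107) (.g (nat_lit 4691) (.e (nat_lit 3272) (nat_lit 199) (.e (nat_lit 548898) (nat_lit 14) (.e (nat_lit 2828) (nat_lit 182) (.e (nat_lit 409641) (nat_lit 17) (.e (nat_lit 294931) (nat_lit 3) (.e (nat_lit 98350) (nat_lit 24) (.e (nat_lit 409649) (nat_lit 18) (.e (nat_lit 303111) (nat_lit 0) .nil)))))))) (.g (nat_lit 7) .nil .nil))))) (.nd (nat_lit 4) (.nd (nat_lit 5) 
(.lf (nat_lit 101067) (.g (nat_lit 1952) (.e (nat_lit 3270) (nat_lit 199) (.e (nat_lit 548913) (nat_lit 18) (.e (nat_lit 172087) (nat_lit 9) (.e (nat_lit 426402) (nat_lit 15) (.e (nat_lit 1849) (nat_lit 124) (.e (nat_lit 557107) (nat_lit 15) (.e (nat_lit 188439) (nat_lit 20) .nil))))))) (.g (nat_lit 6) .nil .nil))) 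
(.lf (nat_lit 101099) (.g (nat_lit 2530) (.e (nat_lit 3271) (nat_lit 199) (.e (nat_lit 548915) (nat_lit 20) (.e (nat_lit 188420) (nat_lit 0) (.e (nat_lit 1855) (nat_lit 124) (.e (nat_lit 557107) (nat_lit 15) (.e (nat_lit 188439) (nat_lit 20) .nil)))))) (.g (nat_lit 6) .nil .nil)))) (.nd (nat_lit 5) 
(.lf (nat_lit 101083) (.g (nat_lit 1892) (.e (nat_lit 3271) (nat_lit 199) (.e (nat_lit 548913) (nat_lit 18) (.e (nat_lit 172087) (nat_lit 9) (.e (nat_lit 426402) (nat_lit 15) (.e (nat_lit 1848) (nat_lit 124) (.e (nat_lit 557107) (nat_lit 15) (.e (nat_lit 188439) (nat_lit 20) .nil))))))) (.g (nat_lit 6) .nil .nil))) 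
(.lf (nat_lit 101115) (.g (nat_lit 3157) (.e (nat_lit 3272) (nat_lit 199) (.e (nat_lit 548913) (nat_lit 18) (.e (nat_lit 172085) (nat_lit 9) (.e (nat_lit 426363) (nat_lit 15) (.e (nat_lit 1859) (nat_lit 124) (.e (nat_lit 557109) (nat_lit 15) (.e (nat_lit 188434) (nat_lit 20) .nil))))))) (.g (nat_lit 6) .nil .nil)))))) (.nd (nat_lit 3) (.nd (nat_lit 4) (.nd (nat_lit 5) 
(.lf (nat_lit 101063) (.g (nat_lit 448) (.e (nat_lit 3270) (nat_lit 199) (.e (nat_lit 548913) (nat_lit 18) (.e (nat_lit 172086) (nat_lit 9) .nil))) .nil)) 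
(.lf (nat_lit 101095) (.g (nat_lit 3272) (.e (nat_lit 3271) (nat_lit 199) (.e (nat_lit 548913) (nat_lit 18) (.e (nat_lit 172126) (nat_lit 14) (.e (nat_lit 491524) (nat_lit 0) (.e (nat_lit 1691) (nat_lit 117) .nil))))) .nil))) (.nd (nat_lit 5) 
(.lf (nat_lit 101079) (.g (nat_lit 1576) (.e (nat_lit 3271) (nat_lit 199) (.e (nat_lit 548913) (nat_lit 18) (.e (nat_lit 172085) (nat_lit 9) (.e (nat_lit 426402) (nat_lit 15) (.e (nat_lit 1859) (nat_lit 124) (.e (nat_lit 557107) (nat_lit 15) (.e (nat_lit 188439) (nat_lit 20) .nil))))))) (.g (nat_lit 5) .nil .nil))) 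
(.lf (nat_lit 101111) (.g (nat_lit 3223) (.e (nat_lit 3272) (nat_lit 199) (.e (nat_lit 548913) (nat_lit 18) (.e (nat_lit 172041) (nat_lit 0) (.e (nat_lit 7540) (nat_lit 402) (.e (nat_lit 1228) (nat_lit 91) (.e (nat_lit 90176) (nat_lit 15) (.e (nat_lit 188439) (nat_lit 20) .nil))))))) (.g (nat_lit 6) .nil .nil))))) (.nd (nat_lit 4) (.nd (nat_lit 5) 
(.lf (nat_lit 101071) (.g (nat_lit 805) (.e (nat_lit 3271) (nat_lit 199) (.e (nat_lit 548913) (nat_lit 18) (.e (nat_lit 172041) (nat_lit 0) (.e (nat_lit 7540) (nat_lit 402) .nil)))) .nil)) 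
(.lf (nat_lit 101103) (.g (nat_lit 4899) (.e (nat_lit 3272) (nat_lit 199) (.e (nat_lit 548898) (nat_lit 14) (.e (nat_lit 2824) (nat_lit 182) (.e (nat_lit 409641) (nat_lit 17) (.e (nat_lit 294931) (nat_lit 3) (.e (nat_lit 98350) (nat_lit 24) (.e (nat_lit 409648) (nat_lit 18) (.e (nat_lit 303108) (nat_lit 0) .nil)))))))) (.g (nat_lit 7) .nil .nil)))) (.nd (nat_lit 5) 
(.lf (nat_lit 101087) (.g (nat_lit 2023) (.e (nat_lit 3271) (nat_lit 199) (.e (nat_lit 548913) (nat_lit 18) (.e (nat_lit 172087) (nat_lit 9) (.e (nat_lit 426402) (nat_lit 15) (.e (nat_lit 1859) (nat_lit 124) (.e (nat_lit 557107) (nat_lit 15) (.e (nat_lit 188439) (nat_lit 20) .nil))))))) (.g (nat_lit 7) .nil .nil))) 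
(.lf (nat_lit 101119) (.g (nat_lit 2623) (.e (nat_lit 3272) (nat_lit 199) (.e (nat_lit 548913) (nat_lit 18) (.e (nat_lit 172085) (nat_lit 9) (.e (nat_lit 426402) (nat_lit 15) (.e (nat_lit 1859) (nat_lit 124) (.e (nat_lit 557107) (nat_lit 15) (.e (nat_lit 188439) (nat_lit 20) .nil))))))) (.g (nat_lit 6) .nil .nil)))))))))


end

end Pool.Agent.Lib.MP_5854e1_co.Cz
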