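import Pool.Agent.Lib.MP_5854e1_co.DtD

/-!
# Windows and cells of the rings
-/

set_option autoImplicit false
set_option maxRecDepth 100000
set_option deprecated.oldSectionVars true

namespace Pool.Agent.Lib.MP_5854e1_co.Cz

open Pool.Agent.Lib.MP_5854e1_co

noncomputable section

noncomputable def tv1378 : DT := (.nd (nat_lit 0) (.nd (nat_lit 1) (.nd (nat_lit 2) (.nd (nat_lit 3) (.nd (nat_lit 4) (.nd (nat_lit 5) (.nd (nat_lit 6) 
(.lf (nat_lit 101120) (.g (nat_lit 1871) (.e (nat_lit 3272) (nat_lit 199) (.e (nat_lit 548913) (nat_lit 18) (.e (nat_lit 172085) (nat_lit 9) (.e (nat_lit 426402) (nat_lit 15) (.e (nat_lit 1859) (nat_lit 124) (.e (nat_lit 557107) (nat_lit 15) (.e (nat_lit 188440) (nat_lit 20) .nil))))))) (.g (nat_lit 4) .nil .nil))) 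
(.lf (nat_lit 101184) (.g (nat_lit 1818) (.e (nat_lit 3276) (nat_lit 200) (.e (nat_lit 557103) (nat_lit 14) (.e (nat_lit 180250) (nat_lit 10) (.e (nat_lit 573488) (nat_lit 14) (.e (nat_lit 81664) (nat_lit 1) .nil))))) .nil))) (.nd (nat_lit 6) 
(.lf (nat_lit 101152) (.g (nat_lit 1148) (.e (nat_lit 3275) (nat_lit 200) (.e (nat_lit 557108) (nat_lit 15) (.e (nat_lit 188452) (nat_lit 23) .nil))) .nil)) 
(.lf (nat_lit 101216) (.g (nat_lit 2841) (.e (nat_lit 3276) (nat_lit 200) (.e (nat_lit 557109) (nat_lit 15) (.e (nat_lit 188446) (nat_lit 21) (.e (nat_lit 164182) (nat_lit 154) (.e (nat_lit 57386) (nat_lit 4) (.e (nat_lit 106536) (nat_lit 11) (.e (nat_lit 16387) (nat_lit 0) .nil))))))) (.g (nat_lit 5) .nil .nil))))) (.nd (nat_lit 5) (.nd (nat_lit 6) 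
(.lf (nat_lit 101136) (.g (nat_lit 2660) (.e (nat_lit 3272) (nat_lit 199) (.e (nat_lit 548913) (nat_lit 18) (.e (nat_lit 172126) (nat_lit 14) (.e (nat_lit 491524) (nat_lit 0) (.e (nat_lit 1691) (nat_lit 117) .nil))))) .nil)) 
(.lf (nat_lit 101200) (.g (nat_lit 2665) (.e (nat_lit 3276) (nat_lit 200) (.e (nat_lit 557105) (nat_lit 14) (.e (nat_lit 180252) (nat_lit 10) (.e (nat_lit 573488) (nat_lit 14) (.e (nat_lit 81664) (nat_lit 5) (.e (nat_lit 532583) (nat_lit 26) (.e (nat_lit 426003) (nat_lit 0) .nil))))))) (.g (nat_lit 4) .nil .nil)))) (.nd (nat_lit 6) 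
(.lf (nat_lit 101168) (.g (nat_lit 2553) (.e (nat_lit 3276) (nat_lit 200) (.e (nat_lit 557103) (nat_lit 14) (.e (nat_lit 180250) (nat_lit 10) (.e (nat_lit 573480) (nat_lit 13) (.e (nat_lit 65568) (nat_lit 2) (.e (nat_lit 98048) (nat_lit 2) (.e (nat_lit 16386) (nat_lit 0) .nil))))))) (.g (nat_lit 4) .nil .nil))) 
(.lf (nat_lit 101232) (.g (nat_lit 1272) (.e (nat_lit 3276) (nat_lit 200) (.e (nat_lit 557109) (nat_lit 15) (.e (nat_lit 188461) (nat_lit 26) (.e (nat_lit 253996) (nat_lit 12) .nil)))) .nil))))) (.nd (nat_lit 4) (.nd (nat_lit 5) (.nd (nat_lit 6) 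
(.lf (nat_lit 101128) (.g (nat_lit 3089) (.e (nat_lit 3272) (nat_lit 199) (.e (nat_lit 548913) (nat_lit 18) (.e (nat_lit 172087) (nat_lit 9) (.e (nat_lit 426402) (nat_lit 15) (.e (nat_lit 1848) (nat_lit 124) (.e (nat_lit 557108) (nat_lit 15) (.e (nat_lit 188434) (nat_lit 20) .nil))))))) (.g (nat_lit 7) .nil .nil))) 
(.lf (nat_lit 101192) (.g (nat_lit 2486) (.e (nat_lit 3276) (nat_lit 200) (.e (nat_lit 557105) (nat_lit 14) (.e (nat_lit 180252) (nat_lit 10) (.e (nat_lit 573487) (nat_lit 14) (.e (nat_lit 81664) (nat_lit 5) (.e (nat_lit 532579) (nat_lit 26) (.e (nat_lit 426012) (nat_lit 0) .nil))))))) (.g (nat_lit 4) .nil .nil)))) (.nd (nat_lit 6) 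
(.lf (nat_lit 101160) (.g (nat_lit 2390) (.e (nat_lit 3276) (nat_lit 200) (.e (nat_lit 557100) (nat_lit 13) (.e (nat_lit 172106) (nat_lit 10) (.e (nat_lit 434231) (nat_lit 23) (.e (nat_lit 532535) (nat_lit 9) .nil))))) .nil)) 
(.lf (nat_lit 101224) (.g (nat_lit 2615) (.e (nat_lit 3276) (nat_lit 200) (.e (nat_lit 557109) (nat_lit 15) (.e (nat_lit 188452) (nat_lit 23) (.e (nat_lit 204846) (nat_lit 24) .nil)))) .nil)))) (.nd (nat_lit 5) (.nd (nat_lit 6) 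
(.lf (nat_lit 101144) (.g (nat_lit 797) (.e (nat_lit 3275) (nat_lit 200) (.e (nat_lit 557104) (nat_lit 14) (.e (nat_lit 180252) (nat_lit 10) .nil))) .nil)) 
(.lf (nat_lit 101208) (.g (nat_lit 3800) (.e (nat_lit 3276) (nat_lit 200) (.e (nat_lit 557108) (nat_lit 15) (.e (nat_lit 188452) (nat_lit 23) (.e (nat_lit 204846) (nat_lit 24) .nil)))) .nil))) (.nd (nat_lit 6) 
(.lf (nat_lit 101176) (.g (nat_lit 2664) (.e (nat_lit 3276) (nat_lit 200) (.e (nat_lit 557103) (nat_lit 14) (.e (nat_lit 180250) (nat_lit 10) (.e (nat_lit 573484) (nat_lit 13) (.e (nat_lit 65568) (nat_lit 2) (.e (nat_lit 98048) (nat_lit 2) (.e (nat_lit 16387) (nat_lit 0) .nil))))))) (.g (nat_lit 4) .nil .nil))) 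
(.lf (nat_lit 101240) (.g (nat_lit 800) (.e (nat_lit 3277) (nat_lit 200) (.e (nat_lit 557103) (nat_lit 14) (.e (nat_lit 180244) (nat_lit 5) .nil))) .nil)))))) (.nd (nat_lit 3) (.nd (nat_lit 4) (.nd (nat_lit 5) (.nd (nat_lit 6) 
(.lf (nat_lit 101124) (.g (nat_lit 2961) (.e (nat_lit 3272) (nat_lit 199) (.e (nat_lit 548913) (nat_lit 18) (.e (nat_lit 172087) (nat_lit 9) (.e (nat_lit 426363) (nat_lit 15) (.e (nat_lit 1859) (nat_lit 124) (.e (nat_lit 557107) (nat_lit 15) (.e (nat_lit 188439) (nat_lit 20) .nil))))))) (.g (nat_lit 0) .nil .nil))) 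
(.lf (nat_lit 101188) (.g (nat_lit 1505) (.e (nat_lit 3276) (nat_lit 200) (.e (nat_lit 557105) (nat_lit 14) (.e (nat_lit 180252) (nat_lit 10) (.e (nat_lit 573482) (nat_lit 13) .nil)))) .nil))) (.nd (nat_lit 6) 
(.lf (nat_lit 101156) (.g (nat_lit 898) (.e (nat_lit 3276) (nat_lit 200) (.e (nat_lit 557091) (nat_lit 12) (.e (nat_lit 164065) (nat_lit 58) .nil))) .nil)) 
(.lf (nat_lit 101220) (.g (nat_lit 6117) (.e (nat_lit 3276) (nat_lit 200) (.e (nat_lit 557109) (nat_lit 15) (.e (nat_lit 188449) (nat_lit 22) (.e (nat_lit 196681) (nat_lit 17) .nil)))) .nil)))) (.nd (nat_lit 5) (.nd (nat_lit 6) 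
(.lf (nat_lit 101140) (.g (nat_lit 2681) (.e (nat_lit 3272) (nat_lit 199) (.e (nat_lit 548915) (nat_lit 20) (.e (nat_lit 188420) (nat_lit 0) (.e (nat_lit 1855) (nat_lit 124) (.e (nat_lit 557107) (nat_lit 15) (.e (nat_lit 188441) (nat_lit 20) .nil)))))) (.g (nat_lit 5) .nil .nil))) 
(.lf (nat_lit 101204) (.g (nat_lit 2406) (.e (nat_lit 3276) (nat_lit 200) (.e (nat_lit 557105) (nat_lit 14) (.e (nat_lit 180252) (nat_lit 10) (.e (nat_lit 573489) (nat_lit 14) (.e (nat_lit 81664) (nat_lit 5) (.e (nat_lit 532583) (nat_lit 26) (.e (nat_lit 426010) (nat_lit 0) .nil))))))) (.g (nat_lit 4) .nil .nil)))) (.nd (nat_lit 6) 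
(.lf (nat_lit 101172) (.g (nat_lit 2784) (.e (nat_lit 3276) (nat_lit 200) (.e (nat_lit 557103) (nat_lit 14) (.e (nat_lit 180250) (nat_lit 10) (.e (nat_lit 573482) (nat_lit 13) (.e (nat_lit 65568) (nat_lit 2) (.e (nat_lit 98048) (nat_lit 2) (.e (nat_lit 16385) (nat_lit 0) .nil))))))) (.g (nat_lit 4) .nil .nil))) 
(.lf (nat_lit 101236) (.g (nat_lit 1698) (.e (nat_lit 3277) (nat_lit 200) (.e (nat_lit 557090) (nat_lit 12) (.e (nat_lit 164065) (nat_lit 58) (.e (nat_lit 802822) (nat_lit 11) .nil)))) .nil))))) (.nd (nat_lit 4) (.nd (nat_lit 5) (.nd (nat_lit 6) 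
(.lf (nat_lit 101132) (.g (nat_lit 1862) (.e (nat_lit 3272) (nat_lit 199) (.e (nat_lit 548913) (nat_lit 18) (.e (nat_lit 172094) (nat_lit 9) (.e (nat_lit 426396) (nat_lit 15) (.e (nat_lit 1856) (nat_lit 124) (.e (nat_lit 557109) (nat_lit 15) (.e (nat_lit 188434) (nat_lit 20) .nil))))))) (.g (nat_lit 4) .nil .nil))) 
(.lf (nat_lit 101196) (.g (nat_lit 2748) (.e (nat_lit 3276) (nat_lit 200) (.e (nat_lit 557105) (nat_lit 14) (.e (nat_lit 180252) (nat_lit 10) (.e (nat_lit 573488) (nat_lit 14) (.e (nat_lit 81664) (nat_lit 1) (.e (nat_lit 500046) (nat_lit 16) (.e (nat_lit 16387) (nat_lit 0) .nil))))))) (.g (nat_lit 4) .nil .nil)))) (.nd (nat_lit 6) 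
(.lf (nat_lit 101164) (.g (nat_lit 682) (.e (nat_lit 3276) (nat_lit 200) (.e (nat_lit 557103) (nat_lit 14) (.e (nat_lit 180250) (nat_lit 10) .nil))) .nil)) 
(.lf (nat_lit 101228) (.g (nat_lit 798) (.e (nat_lit 3276) (nat_lit 200) (.e (nat_lit 557109) (nat_lit 15) (.e (nat_lit 188458) (nat_lit 25) .nil))) .nil)))) (.nd (nat_lit 5) (.nd (nat_lit 6) 
(.lf (nat_lit 101148) (.g (nat_lit 2604) (.e (nat_lit 3275) (nat_lit 200) (.e (nat_lit 557105) (nat_lit 14) (.e (nat_lit 180252) (nat_lit 10) (.e (nat_lit 573481) (nat_lit 13) .nil)))) .nil)) 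
(.lf (nat_lit 101212) (.g (nat_lit 1698) (.e (nat_lit 3276) (nat_lit 200) (.e (nat_lit 557109) (nat_lit 15) (.e (nat_lit 188446) (nat_lit 21) (.e (nat_lit 164182) (nat_lit 154) .nil)))) .nil))) (.nd (nat_lit 6) 
(.lf (nat_lit 101180) (.g (nat_lit 2416) (.e (nat_lit 3276) (nat_lit 200) (.e (nat_lit 557103) (nat_lit 14) (.e (nat_lit 180250) (nat_lit 10) (.e (nat_lit 573487) (nat_lit 14) (.e (nat_lit 81664) (nat_lit 1) .nil))))) .nil)) 
(.lf (nat_lit 101244) (.g (nat_lit 2370) (.e (nat_lit 3277) (nat_lit 200) (.e (nat_lit 557103) (nat_lit 14) (.e (nat_lit 180250) (nat_lit 10) (.e (nat_lit 573482) (nat_lit 13) (.e (nat_lit 65644) (nat_lit 22) .nil))))) .nil))))))) (.nd (nat_lit 2) (.nd (nat_lit 3) (.nd (nat_lit 4) (.nd (nat_lit 5) (.nd (nat_lit 6) 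
(.lf (nat_lit 101122) (.g (nat_lit 1822) (.e (nat_lit 3272) (nat_lit 199) (.e (nat_lit 548913) (nat_lit 18) (.e (nat_lit 172086) (nat_lit 9) (.e (nat_lit 426402) (nat_lit 15) (.e (nat_lit 1848) (nat_lit 124) (.e (nat_lit 557108) (nat_lit 15) (.e (nat_lit 188434) (nat_lit 20) .nil))))))) (.g (nat_lit 4) .nil .nil))) 
(.lf (nat_lit 101186) (.g (nat_lit 1727) (.e (nat_lit 3276) (nat_lit 200) (.e (nat_lit 557104) (nat_lit 14) (.e (nat_lit 180252) (nat_lit 10) (.e (nat_lit 573481) (nat_lit 13) .nil)))) .nil))) (.nd (nat_lit 6) 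
(.lf (nat_lit 101154) (.g (nat_lit 3396) (.e (nat_lit 3275) (nat_lit 200) (.e (nat_lit 557109) (nat_lit 15) (.e (nat_lit 188452) (nat_lit 23) (.e (nat_lit 204846) (nat_lit 24) .nil)))) .nil)) 
(.lf (nat_lit 101218) (.g (nat_lit 3698) (.e (nat_lit 3276) (nat_lit 200) (.e (nat_lit 557109) (nat_lit 15) (.e (nat_lit 188449) (nat_lit 22) (.e (nat_lit 196666) (nat_lit 13) .nil)))) .nil)))) (.nd (nat_lit 5) (.nd (nat_lit 6) 
(.lf (nat_lit 101138) (.g (nat_lit 2866) (.e (nat_lit 3272) (nat_lit 199) (.e (nat_lit 548915) (nat_lit 20) (.e (nat_lit 188420) (nat_lit 0) (.e (nat_lit 1855) (nat_lit 124) (.e (nat_lit 557107) (nat_lit 15) (.e (nat_lit 188439) (nat_lit 20) .nil)))))) (.g (nat_lit 6) .nil .nil))) 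
(.lf (nat_lit 101202) (.g (nat_lit 2312) (.e (nat_lit 3276) (nat_lit 200) (.e (nat_lit 557105) (nat_lit 14) (.e (nat_lit 180252) (nat_lit 10) (.e (nat_lit 573489) (nat_lit 14) (.e (nat_lit 81664) (nat_lit 5) .nil))))) .nil))) (.nd (nat_lit 6) 
(.lf (nat_lit 101170) (.g (nat_lit 2144) (.e (nat_lit 3276) (nat_lit 200) (.e (nat_lit 557103) (nat_lit 14) (.e (nat_lit 180250) (nat_lit 10) (.e (nat_lit 573482) (nat_lit 13) (.e (nat_lit 65566) (nat_lit 2) .nil))))) .nil)) 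
(.lf (nat_lit 101234) (.g (nat_lit 1363) (.e (nat_lit 3277) (nat_lit 200) (.e (nat_lit 557090) (nat_lit 12) (.e (nat_lit 164038) (nat_lit 55) .nil))) .nil))))) (.nd (nat_lit 4) (.nd (nat_lit 5) (.nd (nat_lit 6) 
(.lf (nat_lit 101130) (.g (nat_lit 2738) (.e (nat_lit 3272) (nat_lit 199) (.e (nat_lit 548913) (nat_lit 18) (.e (nat_lit 172087) (nat_lit 9) (.e (nat_lit 426402) (nat_lit 15) (.e (nat_lit 1859) (nat_lit 124) (.e (nat_lit 557107) (nat_lit 15) (.e (nat_lit 188439) (nat_lit 20) .nil))))))) (.g (nat_lit 7) .nil .nil))) 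
(.lf (nat_lit 101194) (.g (nat_lit 1530) (.e (nat_lit 3276) (nat_lit 200) (.e (nat_lit 557105) (nat_lit 14) (.e (nat_lit 180252) (nat_lit 10) (.e (nat_lit 573488) (nat_lit 14) .nil)))) .nil))) (.nd (nat_lit 6) 
(.lf (nat_lit 101162) (.g (nat_lit 2542) (.e (nat_lit 3276) (nat_lit 200) (.e (nat_lit 557101) (nat_lit 13) (.e (nat_lit 172097) (nat_lit 9) (.e (nat_lit 426140) (nat_lit 3) (.e (nat_lit 204861) (nat_lit 26) .nil))))) .nil)) 
(.lf (nat_lit 101226) (.g (nat_lit 3302) (.e (nat_lit 3276) (nat_lit 200) (.e (nat_lit 557109) (nat_lit 15) (.e (nat_lit 188452) (nat_lit 23) (.e (nat_lit 204846) (nat_lit 24) (.e (nat_lit 319533) (nat_lit 16) (.e (nat_lit 294656) (nat_lit 15) .nil)))))) (.g (nat_lit 5) .nil .nil))))) (.nd (nat_lit 5) (.nd (nat_lit 6) 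
(.lf (nat_lit 101146) (.g (nat_lit 1706) (.e (nat_lit 3275) (nat_lit 200) (.e (nat_lit 557104) (nat_lit 14) (.e (nat_lit 180252) (nat_lit 10) (.e (nat_lit 573488) (nat_lit 14) .nil)))) .nil)) 
(.lf (nat_lit 101210) (.g (nat_lit 2305) (.e (nat_lit 3276) (nat_lit 200) (.e (nat_lit 557109) (nat_lit 15) (.e (nat_lit 188444) (nat_lit 21) (.e (nat_lit 164182) (nat_lit 154) .nil)))) .nil))) (.nd (nat_lit 6) 
(.lf (nat_lit 101178) (.g (nat_lit 2402) (.e (nat_lit 3276) (nat_lit 200) (.e (nat_lit 557103) (nat_lit 14) (.e (nat_lit 180250) (nat_lit 10) (.e (nat_lit 573485) (nat_lit 13) (.e (nat_lit 65568) (nat_lit 2) .nil))))) .nil)) 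
(.lf (nat_lit 101242) (.g (nat_lit 2202) (.e (nat_lit 3277) (nat_lit 200) (.e (nat_lit 557103) (nat_lit 14) (.e (nat_lit 180250) (nat_lit 10) (.e (nat_lit 573480) (nat_lit 13) (.e (nat_lit 65644) (nat_lit 22) .nil))))) .nil)))))) (.nd (nat_lit 3) (.nd (nat_lit 4) (.nd (nat_lit 5) (.nd (nat_lit 6) 
(.lf (nat_lit 101126) (.g (nat_lit 2053) (.e (nat_lit 3272) (nat_lit 199) (.e (nat_lit 548913) (nat_lit 18) (.e (nat_lit 172087) (nat_lit 9) (.e (nat_lit 426399) (nat_lit 15) (.e (nat_lit 1848) (nat_lit 124) (.e (nat_lit 557107) (nat_lit 15) (.e (nat_lit 188439) (nat_lit 20) .nil))))))) (.g (nat_lit 5) .nil .nil))) 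
(.lf (nat_lit 101190) (.g (nat_lit 2334) (.e (nat_lit 3276) (nat_lit 200) (.e (nat_lit 557105) (nat_lit 14) (.e (nat_lit 180252) (nat_lit 10) (.e (nat_lit 573487) (nat_lit 14) (.e (nat_lit 81664) (nat_lit 1) (.e (nat_lit 500046) (nat_lit 16) (.e (nat_lit 16386) (nat_lit 0) .nil))))))) (.g (nat_lit 4) .nil .nil)))) (.nd (nat_lit 6) 
(.lf (nat_lit 101158) (.g (nat_lit 1065) (.e (nat_lit 3276) (nat_lit 200) (.e (nat_lit 557098) (nat_lit 13) (.e (nat_lit 172086) (nat_lit 9) .nil))) .nil)) 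
(.lf (nat_lit 101222) (.g (nat_lit 572) (.e (nat_lit 3276) (nat_lit 200) (.e (nat_lit 557109) (nat_lit 15) (.e (nat_lit 188452) (nat_lit 23) .nil))) .nil)))) (.nd (nat_lit 5) (.nd (nat_lit 6) 
(.lf (nat_lit 101142) (.g (nat_lit 478) (.e (nat_lit 3272) (nat_lit 199) (.e (nat_lit 548915) (nat_lit 20) (.e (nat_lit 196352) (nat_lit 0) .nil))) .nil)) 
(.lf (nat_lit 101206) (.g (nat_lit 3798) (.e (nat_lit 3276) (nat_lit 200) (.e (nat_lit 557108) (nat_lit 15) (.e (nat_lit 188446) (nat_lit 21) (.e (nat_lit 164182) (nat_lit 154) .nil)))) .nil))) (.nd (nat_lit 6) 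
(.lf (nat_lit 101174) (.g (nat_lit 3609) (.e (nat_lit 3276) (nat_lit 200) (.e (nat_lit 557103) (nat_lit 14) (.e (nat_lit 180250) (nat_lit 10) (.e (nat_lit 573482) (nat_lit 13) (.e (nat_lit 65644) (nat_lit 22) (.e (nat_lit 245776) (nat_lit 4) (.e (nat_lit 172034) (nat_lit 0) .nil))))))) (.g (nat_lit 0) .nil .nil))) 
(.lf (nat_lit 101238) (.g (nat_lit 1070) (.e (nat_lit 3277) (nat_lit 200) (.e (nat_lit 557098) (nat_lit 13) (.e (nat_lit 172085) (nat_lit 9) .nil))) .nil))))) (.nd (nat_lit 4) (.nd (nat_lit 5) (.nd (nat_lit 6) 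
(.lf (nat_lit 101134) (.g (nat_lit 405) (.e (nat_lit 3272) (nat_lit 199) (.e (nat_lit 548913) (nat_lit 18) (.e (nat_lit 172098) (nat_lit 9) .nil))) .nil)) 
(.lf (nat_lit 101198) (.g (nat_lit 2668) (.e (nat_lit 3276) (nat_lit 200) (.e (nat_lit 557105) (nat_lit 14) (.e (nat_lit 180252) (nat_lit 10) (.e (nat_lit 573488) (nat_lit 14) (.e (nat_lit 81664) (nat_lit 5) (.e (nat_lit 532579) (nat_lit 26) (.e (nat_lit 426010) (nat_lit 0) .nil))))))) (.g (nat_lit 4) .nil .nil)))) (.nd (nat_lit 6) 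
(.lf (nat_lit 101166) (.g (nat_lit 2223) (.e (nat_lit 3276) (nat_lit 200) (.e (nat_lit 557103) (nat_lit 14) (.e (nat_lit 180250) (nat_lit 10) (.e (nat_lit 573480) (nat_lit 13) (.e (nat_lit 65568) (nat_lit 2) .nil))))) .nil)) 
(.lf (nat_lit 101230) (.g (nat_lit 1111) (.e (nat_lit 3276) (nat_lit 200) (.e (nat_lit 557109) (nat_lit 15) (.e (nat_lit 188461) (nat_lit 26) (.e (nat_lit 253993) (nat_lit 12) .nil)))) .nil)))) (.nd (nat_lit 5) (.nd (nat_lit 6) 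
(.lf (nat_lit 101150) (.g (nat_lit 1239) (.e (nat_lit 3275) (nat_lit 200) (.e (nat_lit 557108) (nat_lit 15) (.e (nat_lit 188446) (nat_lit 21) .nil))) .nil)) 
(.lf (nat_lit 101214) (.g (nat_lit 2225) (.e (nat_lit 3276) (nat_lit 200) (.e (nat_lit 557109) (nat_lit 15) (.e (nat_lit 188446) (nat_lit 21) (.e (nat_lit 164182) (nat_lit 154) (.e (nat_lit 57386) (nat_lit 4) .nil))))) .nil))) (.nd (nat_lit 6) 
(.lf (nat_lit 101182) (.g (nat_lit 2430) (.e (nat_lit 3276) (nat_lit 200) (.e (nat_lit 557103) (nat_lit 14) (.e (nat_lit 180250) (nat_lit 10) (.e (nat_lit 573487) (nat_lit 14) (.e (nat_lit 81664) (nat_lit 5) (.e (nat_lit 532579) (nat_lit 26) (.e (nat_lit 426012) (nat_lit 0) .nil))))))) (.g (nat_lit 4) .nil .nil))) 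
(.lf (nat_lit 101246) (.g (nat_lit 2559) (.e (nat_lit 3277) (nat_lit 200) (.e (nat_lit 557103) (nat_lit 14) (.e (nat_lit 180250) (nat_lit 10) (.e (nat_lit 573484) (nat_lit 13) (.e (nat_lit 65568) (nat_lit 2) .nil))))) .nil)))))))) (.nd (nat_lit 1) (.nd (nat_lit 2) (.nd (nat_lit 3) (.nd (nat_lit 4) (.nd (nat_lit 5) (.nd (nat_lit 6) 
(.lf (nat_lit 101121) (.g (nat_lit 3259) (.e (nat_lit 3272) (nat_lit 199) (.e (nat_lit 548913) (nat_lit 18) (.e (nat_lit 172085) (nat_lit 9) (.e (nat_lit 426402) (nat_lit 15) (.e (nat_lit 1859) (nat_lit 124) (.e (nat_lit 557109) (nat_lit 15) (.e (nat_lit 188434) (nat_lit 20) .nil))))))) (.g (nat_lit 6) .nil .nil))) 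
(.lf (nat_lit 101185) (.g (nat_lit 1818) (.e (nat_lit 3276) (nat_lit 200) (.e (nat_lit 557103) (nat_lit 14) (.e (nat_lit 180250) (nat_lit 10) (.e (nat_lit 573488) (nat_lit 14) (.e (nat_lit 81664) (nat_lit 5) .nil))))) .nil))) (.nd (nat_lit 6) 
(.lf (nat_lit 101153) (.g (nat_lit 3646) (.e (nat_lit 3275) (nat_lit 200) (.e (nat_lit 557108) (nat_lit 15) (.e (nat_lit 188452) (nat_lit 23) (.e (nat_lit 204846) (nat_lit 24) .nil)))) .nil)) 
(.lf (nat_lit 101217) (.g (nat_lit 3594) (.e (nat_lit 3276) (nat_lit 200) (.e (nat_lit 557109) (nat_lit 15) (.e (nat_lit 188449) (nat_lit 22) (.e (nat_lit 196661) (nat_lit 12) .nil)))) .nil)))) (.nd (nat_lit 5) (.nd (nat_lit 6) 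
(.lf (nat_lit 101137) (.g (nat_lit 2634) (.e (nat_lit 3272) (nat_lit 199) (.e (nat_lit 548913) (nat_lit 18) (.e (nat_lit 172126) (nat_lit 14) (.e (nat_lit 491530) (nat_lit 0) .nil)))) .nil)) 
(.lf (nat_lit 101201) (.g (nat_lit 2312) (.e (nat_lit 3276) (nat_lit 200) (.e (nat_lit 557105) (nat_lit 14) (.e (nat_lit 180252) (nat_lit 10) (.e (nat_lit 573489) (nat_lit 14) (.e (nat_lit 81664) (nat_lit 1) .nil))))) .nil))) (.nd (nat_lit 6) 
(.lf (nat_lit 101169) (.g (nat_lit 1425) (.e (nat_lit 3276) (nat_lit 200) (.e (nat_lit 557103) (nat_lit 14) (.e (nat_lit 180250) (nat_lit 10) (.e (nat_lit 573481) (nat_lit 13) .nil)))) .nil)) 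
(.lf (nat_lit 101233) (.g (nat_lit 1395) (.e (nat_lit 3276) (nat_lit 200) (.e (nat_lit 557109) (nat_lit 15) (.e (nat_lit 188461) (nat_lit 26) (.e (nat_lit 253999) (nat_lit 12) .nil)))) .nil))))) (.nd (nat_lit 4) (.nd (nat_lit 5) (.nd (nat_lit 6) 
(.lf (nat_lit 101129) (.g (nat_lit 2904) (.e (nat_lit 3272) (nat_lit 199) (.e (nat_lit 548913) (nat_lit 18) (.e (nat_lit 172087) (nat_lit 9) (.e (nat_lit 426402) (nat_lit 15) (.e (nat_lit 1849) (nat_lit 124) (.e (nat_lit 557108) (nat_lit 15) (.e (nat_lit 188434) (nat_lit 20) .nil))))))) (.g (nat_lit 7) .nil .nil))) 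
(.lf (nat_lit 101193) (.g (nat_lit 2516) (.e (nat_lit 3276) (nat_lit 200) (.e (nat_lit 557105) (nat_lit 14) (.e (nat_lit 180252) (nat_lit 10) (.e (nat_lit 573487) (nat_lit 14) (.e (nat_lit 81664) (nat_lit 5) (.e (nat_lit 532583) (nat_lit 26) (.e (nat_lit 426012) (nat_lit 0) .nil))))))) (.g (nat_lit 4) .nil .nil)))) (.nd (nat_lit 6) 
(.lf (nat_lit 101161) (.g (nat_lit 547) (.e (nat_lit 3276) (nat_lit 200) (.e (nat_lit 557100) (nat_lit 13) (.e (nat_lit 172113) (nat_lit 10) .nil))) .nil)) 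
(.lf (nat_lit 101225) (.g (nat_lit 4210) (.e (nat_lit 3276) (nat_lit 200) (.e (nat_lit 557109) (nat_lit 15) (.e (nat_lit 188452) (nat_lit 23) (.e (nat_lit 204846) (nat_lit 24) (.e (nat_lit 319504) (nat_lit 10) (.e (nat_lit 5260) (nat_lit 298) (.e (nat_lit 20) (nat_lit 0) .nil))))))) (.g (nat_lit 5) .nil .nil))))) (.nd (nat_lit 5) (.nd (nat_lit 6) 
(.lf (nat_lit 101145) (.g (nat_lit 2700) (.e (nat_lit 3275) (nat_lit 200) (.e (nat_lit 557104) (nat_lit 14) (.e (nat_lit 180252) (nat_lit 10) (.e (nat_lit 573451) (nat_lit 9) (.e (nat_lit 1449) (nat_lit 108) .nil))))) .nil)) 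
(.lf (nat_lit 101209) (.g (nat_lit 491) (.e (nat_lit 3276) (nat_lit 200) (.e (nat_lit 557109) (nat_lit 15) (.e (nat_lit 196352) (nat_lit 9) .nil))) .nil))) (.nd (nat_lit 6) 
(.lf (nat_lit 101177) (.g (nat_lit 3340) (.e (nat_lit 3276) (nat_lit 200) (.e (nat_lit 557103) (nat_lit 14) (.e (nat_lit 180250) (nat_lit 10) (.e (nat_lit 573484) (nat_lit 13) (.e (nat_lit 65568) (nat_lit 2) (.e (nat_lit 98048) (nat_lit 2) (.e (nat_lit 16388) (nat_lit 0) .nil))))))) (.g (nat_lit 5) .nil .nil))) 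
(.lf (nat_lit 101241) (.g (nat_lit 669) (.e (nat_lit 3277) (nat_lit 200) (.e (nat_lit 557103) (nat_lit 14) (.e (nat_lit 180250) (nat_lit 10) .nil))) .nil)))))) (.nd (nat_lit 3) (.nd (nat_lit 4) (.nd (nat_lit 5) (.nd (nat_lit 6) 
(.lf (nat_lit 101125) (.g (nat_lit 3562) (.e (nat_lit 3272) (nat_lit 199) (.e (nat_lit 548913) (nat_lit 18) (.e (nat_lit 172087) (nat_lit 9) (.e (nat_lit 426363) (nat_lit 15) (.e (nat_lit 1859) (nat_lit 124) (.e (nat_lit 557109) (nat_lit 15) (.e (nat_lit 188434) (nat_lit 20) .nil))))))) (.g (nat_lit 7) .nil .nil))) 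
(.lf (nat_lit 101189) (.g (nat_lit 1624) (.e (nat_lit 3276) (nat_lit 200) (.e (nat_lit 557105) (nat_lit 14) (.e (nat_lit 180252) (nat_lit 10) (.e (nat_lit 573487) (nat_lit 14) .nil)))) .nil))) (.nd (nat_lit 6) 
(.lf (nat_lit 101157) (.g (nat_lit 1068) (.e (nat_lit 3276) (nat_lit 200) (.e (nat_lit 557098) (nat_lit 13) (.e (nat_lit 172085) (nat_lit 9) .nil))) .nil)) 
(.lf (nat_lit 101221) (.g (nat_lit 1117) (.e (nat_lit 3276) (nat_lit 200) (.e (nat_lit 557109) (nat_lit 15) (.e (nat_lit 188450) (nat_lit 23) .nil))) .nil)))) (.nd (nat_lit 5) (.nd (nat_lit 6) 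
(.lf (nat_lit 101141) (.g (nat_lit 3827) (.e (nat_lit 3272) (nat_lit 199) (.e (nat_lit 548915) (nat_lit 20) (.e (nat_lit 188420) (nat_lit 0) (.e (nat_lit 1855) (nat_lit 124) (.e (nat_lit 557109) (nat_lit 15) (.e (nat_lit 188434) (nat_lit 20) .nil)))))) (.g (nat_lit 6) .nil .nil))) 
(.lf (nat_lit 101205) (.g (nat_lit 2481) (.e (nat_lit 3276) (nat_lit 200) (.e (nat_lit 557105) (nat_lit 14) (.e (nat_lit 180252) (nat_lit 10) (.e (nat_lit 573489) (nat_lit 14) (.e (nat_lit 73755) (nat_lit 8) (.e (nat_lit 557119) (nat_lit 18) (.e (nat_lit 2808) (nat_lit 180) (.e (nat_lit 303104) (nat_lit 0) .nil)))))))) (.g (nat_lit 5) .nil .nil)))) (.nd (nat_lit 6) 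
(.lf (nat_lit 101173) (.g (nat_lit 2391) (.e (nat_lit 3276) (nat_lit 200) (.e (nat_lit 557103) (nat_lit 14) (.e (nat_lit 180250) (nat_lit 10) (.e (nat_lit 573482) (nat_lit 13) (.e (nat_lit 65644) (nat_lit 22) .nil))))) .nil)) 
(.lf (nat_lit 101237) (.g (nat_lit 898) (.e (nat_lit 3277) (nat_lit 200) (.e (nat_lit 557091) (nat_lit 12) (.e (nat_lit 164065) (nat_lit 58) .nil))) .nil))))) (.nd (nat_lit 4) (.nd (nat_lit 5) (.nd (nat_lit 6) 
(.lf (nat_lit 101133) (.g (nat_lit 2479) (.e (nat_lit 3272) (nat_lit 199) (.e (nat_lit 548913) (nat_lit 18) (.e (nat_lit 172095) (nat_lit 9) (.e (nat_lit 426380) (nat_lit 15) (.e (nat_lit 1855) (nat_lit 124) (.e (nat_lit 557107) (nat_lit 15) (.e (nat_lit 188439) (nat_lit 20) .nil))))))) (.g (nat_lit 5) .nil .nil))) 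
(.lf (nat_lit 101197) (.g (nat_lit 2474) (.e (nat_lit 3276) (nat_lit 200) (.e (nat_lit 557105) (nat_lit 14) (.e (nat_lit 180252) (nat_lit 10) (.e (nat_lit 573488) (nat_lit 14) (.e (nat_lit 81664) (nat_lit 5) .nil))))) .nil))) (.nd (nat_lit 6) 
(.lf (nat_lit 101165) (.g (nat_lit 1571) (.e (nat_lit 3276) (nat_lit 200) (.e (nat_lit 557103) (nat_lit 14) (.e (nat_lit 180250) (nat_lit 10) (.e (nat_lit 573480) (nat_lit 13) .nil)))) .nil)) 
(.lf (nat_lit 101229) (.g (nat_lit 1220) (.e (nat_lit 3276) (nat_lit 200) (.e (nat_lit 557109) (nat_lit 15) (.e (nat_lit 188461) (nat_lit 26) (.e (nat_lit 253987) (nat_lit 10) .nil)))) .nil)))) (.nd (nat_lit 5) (.nd (nat_lit 6) 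
(.lf (nat_lit 101149) (.g (nat_lit 2632) (.e (nat_lit 3275) (nat_lit 200) (.e (nat_lit 557105) (nat_lit 14) (.e (nat_lit 180252) (nat_lit 10) (.e (nat_lit 573488) (nat_lit 14) .nil)))) .nil)) 
(.lf (nat_lit 101213) (.g (nat_lit 2225) (.e (nat_lit 3276) (nat_lit 200) (.e (nat_lit 557109) (nat_lit 15) (.e (nat_lit 188446) (nat_lit 21) (.e (nat_lit 164182) (nat_lit 154) (.e (nat_lit 57385) (nat_lit 4) .nil))))) .nil))) (.nd (nat_lit 6) 
(.lf (nat_lit 101181) (.g (nat_lit 2416) (.e (nat_lit 3276) (nat_lit 200) (.e (nat_lit 557103) (nat_lit 14) (.e (nat_lit 180250) (nat_lit 10) (.e (nat_lit 573487) (nat_lit 14) (.e (nat_lit 81664) (nat_lit 5) .nil))))) .nil)) 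
(.lf (nat_lit 101245) (.g (nat_lit 3504) (.e (nat_lit 3277) (nat_lit 200) (.e (nat_lit 557103) (nat_lit 14) (.e (nat_lit 180250) (nat_lit 10) (.e (nat_lit 573482) (nat_lit 13) (.e (nat_lit 65644) (nat_lit 22) (.e (nat_lit 245776) (nat_lit 4) (.e (nat_lit 172035) (nat_lit 0) .nil))))))) (.g (nat_lit 0) .nil .nil)))))))) 
(.nd (nat_lit 2) (.nd (nat_lit 3) (.nd (nat_lit 4) (.nd (nat_lit 5) (.nd (nat_lit 6) 
(.lf (nat_lit 101123) (.g (nat_lit 1669) (.e (nat_lit 3272) (nat_lit 199) (.e (nat_lit 548913) (nat_lit 18) (.e (nat_lit 172087) (nat_lit 9) (.e (nat_lit 426360) (nat_lit 15) (.e (nat_lit 1849) (nat_lit 124) (.e (nat_lit 557107) (nat_lit 15) (.e (nat_lit 188439) (nat_lit 20) .nil))))))) (.g (nat_lit 4) .nil .nil))) 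
(.lf (nat_lit 101187) (.g (nat_lit 2670) (.e (nat_lit 3276) (nat_lit 200) (.e (nat_lit 557105) (nat_lit 14) (.e (nat_lit 180252) (nat_lit 10) (.e (nat_lit 573451) (nat_lit 9) (.e (nat_lit 1449) (nat_lit 108) .nil))))) .nil))) (.nd (nat_lit 6) 
(.lf (nat_lit 101155) (.g (nat_lit 1292) (.e (nat_lit 3276) (nat_lit 200) (.e (nat_lit 557090) (nat_lit 12) (.e (nat_lit 164065) (nat_lit 58) .nil))) .nil)) 
(.lf (nat_lit 101219) (.g (nat_lit 6572) (.e (nat_lit 3276) (nat_lit 200) (.e (nat_lit 557109) (nat_lit 15) (.e (nat_lit 188449) (nat_lit 22) (.e (nat_lit 196677) (nat_lit 16) .nil)))) .nil)))) (.nd (nat_lit 5) (.nd (nat_lit 6) 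
(.lf (nat_lit 101139) (.g (nat_lit 2797) (.e (nat_lit 3272) (nat_lit 199) (.e (nat_lit 548915) (nat_lit 20) (.e (nat_lit 188420) (nat_lit 0) (.e (nat_lit 1855) (nat_lit 124) (.e (nat_lit 557107) (nat_lit 15) (.e (nat_lit 188440) (nat_lit 20) .nil)))))) (.g (nat_lit 6) .nil .nil))) 
(.lf (nat_lit 101203) (.g (nat_lit 2555) (.e (nat_lit 3276) (nat_lit 200) (.e (nat_lit 557105) (nat_lit 14) (.e (nat_lit 180252) (nat_lit 10) (.e (nat_lit 573489) (nat_lit 14) (.e (nat_lit 81664) (nat_lit 5) (.e (nat_lit 532579) (nat_lit 26) (.e (nat_lit 426012) (nat_lit 0) .nil))))))) (.g (nat_lit 4) .nil .nil)))) (.nd (nat_lit 6) 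
(.lf (nat_lit 101171) (.g (nat_lit 2560) (.e (nat_lit 3276) (nat_lit 200) (.e (nat_lit 557103) (nat_lit 14) (.e (nat_lit 180250) (nat_lit 10) (.e (nat_lit 573482) (nat_lit 13) (.e (nat_lit 65568) (nat_lit 2) (.e (nat_lit 98048) (nat_lit 2) (.e (nat_lit 16384) (nat_lit 0) .nil))))))) (.g (nat_lit 4) .nil .nil))) 
(.lf (nat_lit 101235) (.g (nat_lit 1252) (.e (nat_lit 3277) (nat_lit 200) (.e (nat_lit 557090) (nat_lit 12) (.e (nat_lit 164065) (nat_lit 58) .nil))) .nil))))) (.nd (nat_lit 4) (.nd (nat_lit 5) (.nd (nat_lit 6) 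
(.lf (nat_lit 101131) (.g (nat_lit 3374) (.e (nat_lit 3272) (nat_lit 199) (.e (nat_lit 548913) (nat_lit 18) (.e (nat_lit 172087) (nat_lit 9) (.e (nat_lit 426402) (nat_lit 15) (.e (nat_lit 1859) (nat_lit 124) (.e (nat_lit 557109) (nat_lit 15) (.e (nat_lit 188434) (nat_lit 20) .nil))))))) (.g (nat_lit 7) .nil .nil))) 
(.lf (nat_lit 101195) (.g (nat_lit 2474) (.e (nat_lit 3276) (nat_lit 200) (.e (nat_lit 557105) (nat_lit 14) (.e (nat_lit 180252) (nat_lit 10) (.e (nat_lit 573488) (nat_lit 14) (.e (nat_lit 81664) (nat_lit 1) .nil))))) .nil))) (.nd (nat_lit 6) 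
(.lf (nat_lit 101163) (.g (nat_lit 1680) (.e (nat_lit 3276) (nat_lit 200) (.e (nat_lit 557103) (nat_lit 14) (.e (nat_lit 180243) (nat_lit 5) (.e (nat_lit 532513) (nat_lit 3) .nil)))) .nil)) 
(.lf (nat_lit 101227) (.g (nat_lit 4254) (.e (nat_lit 3276) (nat_lit 200) (.e (nat_lit 557109) (nat_lit 15) (.e (nat_lit 188452) (nat_lit 23) (.e (nat_lit 204861) (nat_lit 26) .nil)))) .nil)))) (.nd (nat_lit 5) (.nd (nat_lit 6) 
(.lf (nat_lit 101147) (.g (nat_lit 3573) (.e (nat_lit 3275) (nat_lit 200) (.e (nat_lit 557105) (nat_lit 14) (.e (nat_lit 180252) (nat_lit 10) (.e (nat_lit 573451) (nat_lit 9) (.e (nat_lit 1449) (nat_lit 108) .nil))))) .nil)) 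
(.lf (nat_lit 101211) (.g (nat_lit 808) (.e (nat_lit 3276) (nat_lit 200) (.e (nat_lit 557109) (nat_lit 15) (.e (nat_lit 188446) (nat_lit 21) .nil))) .nil))) (.nd (nat_lit 6) 
(.lf (nat_lit 101179) (.g (nat_lit 2516) (.e (nat_lit 3276) (nat_lit 200) (.e (nat_lit 557103) (nat_lit 14) (.e (nat_lit 180250) (nat_lit 10) (.e (nat_lit 573485) (nat_lit 13) (.e (nat_lit 65568) (nat_lit 2) (.e (nat_lit 98048) (nat_lit 2) (.e (nat_lit 16385) (nat_lit 0) .nil))))))) (.g (nat_lit 4) .nil .nil))) 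
(.lf (nat_lit 101243) (.g (nat_lit 1973) (.e (nat_lit 3277) (nat_lit 200) (.e (nat_lit 557103) (nat_lit 14) (.e (nat_lit 180250) (nat_lit 10) (.e (nat_lit 573481) (nat_lit 13) (.e (nat_lit 65568) (nat_lit 2) (.e (nat_lit 98048) (nat_lit 2) (.e (nat_lit 16392) (nat_lit 0) .nil))))))) (.g (nat_lit 4) .nil .nil))))))) (.nd (nat_lit 3) (.nd (nat_lit 4) (.nd (nat_lit 5) (.nd (nat_lit 6) 
(.lf (nat_lit 101127) (.g (nat_lit 2614) (.e (nat_lit 3272) (nat_lit 199) (.e (nat_lit 548913) (nat_lit 18) (.e (nat_lit 172087) (nat_lit 9) (.e (nat_lit 426402) (nat_lit 15) (.e (nat_lit 1848) (nat_lit 124) (.e (nat_lit 557107) (nat_lit 15) (.e (nat_lit 188439) (nat_lit 20) .nil))))))) (.g (nat_lit 7) .nil .nil))) 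
(.lf (nat_lit 101191) (.g (nat_lit 2296) (.e (nat_lit 3276) (nat_lit 200) (.e (nat_lit 557105) (nat_lit 14) (.e (nat_lit 180252) (nat_lit 10) (.e (nat_lit 573487) (nat_lit 14) (.e (nat_lit 81664) (nat_lit 5) .nil))))) .nil))) (.nd (nat_lit 6) 
(.lf (nat_lit 101159) (.g (nat_lit 2369) (.e (nat_lit 3276) (nat_lit 200) (.e (nat_lit 557100) (nat_lit 13) (.e (nat_lit 172106) (nat_lit 10) (.e (nat_lit 434231) (nat_lit 23) .nil)))) .nil)) 
(.lf (nat_lit 101223) (.g (nat_lit 3868) (.e (nat_lit 3276) (nat_lit 200) (.e (nat_lit 557109) (nat_lit 15) (.e (nat_lit 188452) (nat_lit 23) (.e (nat_lit 204816) (nat_lit 17) .nil)))) .nil)))) (.nd (nat_lit 5) (.nd (nat_lit 6) 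
(.lf (nat_lit 101143) (.g (nat_lit 2697) (.e (nat_lit 3272) (nat_lit 199) (.e (nat_lit 548915) (nat_lit 20) (.e (nat_lit 196352) (nat_lit 0) (.e (nat_lit 1853) (nat_lit 124) (.e (nat_lit 557108) (nat_lit 15) (.e (nat_lit 188435) (nat_lit 20) .nil)))))) (.g (nat_lit 5) .nil .nil))) 
(.lf (nat_lit 101207) (.g (nat_lit 1199) (.e (nat_lit 3276) (nat_lit 200) (.e (nat_lit 557108) (nat_lit 15) (.e (nat_lit 188452) (nat_lit 23) .nil))) .nil))) (.nd (nat_lit 6) 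
(.lf (nat_lit 101175) (.g (nat_lit 2573) (.e (nat_lit 3276) (nat_lit 200) (.e (nat_lit 557103) (nat_lit 14) (.e (nat_lit 180250) (nat_lit 10) (.e (nat_lit 573484) (nat_lit 13) (.e (nat_lit 65568) (nat_lit 2) .nil))))) .nil)) 
(.lf (nat_lit 101239) (.g (nat_lit 2596) (.e (nat_lit 3277) (nat_lit 200) (.e (nat_lit 557103) (nat_lit 14) (.e (nat_lit 180243) (nat_lit 5) (.e (nat_lit 532513) (nat_lit 3) (.e (nat_lit 122624) (nat_lit 2) .nil))))) .nil))))) (.nd (nat_lit 4) (.nd (nat_lit 5) (.nd (nat_lit 6) 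
(.lf (nat_lit 101135) (.g (nat_lit 1783) (.e (nat_lit 3272) (nat_lit 199) (.e (nat_lit 548913) (nat_lit 18) (.e (nat_lit 172124) (nat_lit 14) (.e (nat_lit 491530) (nat_lit 0) .nil)))) .nil)) 
(.lf (nat_lit 101199) (.g (nat_lit 2557) (.e (nat_lit 3276) (nat_lit 200) (.e (nat_lit 557105) (nat_lit 14) (.e (nat_lit 180252) (nat_lit 10) (.e (nat_lit 573488) (nat_lit 14) (.e (nat_lit 81664) (nat_lit 5) (.e (nat_lit 532579) (nat_lit 26) (.e (nat_lit 426011) (nat_lit 0) .nil))))))) (.g (nat_lit 4) .nil .nil)))) (.nd (nat_lit 6) 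
(.lf (nat_lit 101167) (.g (nat_lit 2310) (.e (nat_lit 3276) (nat_lit 200) (.e (nat_lit 557103) (nat_lit 14) (.e (nat_lit 180250) (nat_lit 10) (.e (nat_lit 573480) (nat_lit 13) (.e (nat_lit 65568) (nat_lit 2) (.e (nat_lit 98048) (nat_lit 2) (.e (nat_lit 16385) (nat_lit 0) .nil))))))) (.g (nat_lit 4) .nil .nil))) 
(.lf (nat_lit 101231) (.g (nat_lit 2219) (.e (nat_lit 3276) (nat_lit 200) (.e (nat_lit 557109) (nat_lit 15) (.e (nat_lit 188461) (nat_lit 26) (.e (nat_lit 253995) (nat_lit 12) (.e (nat_lit 57503) (nat_lit 38) (.e (nat_lit 638998) (nat_lit 8) (.e (nat_lit 172034) (nat_lit 0) .nil))))))) (.g (nat_lit 4) .nil .nil))))) (.nd (nat_lit 5) (.nd (nat_lit 6) 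
(.lf (nat_lit 101151) (.g (nat_lit 3809) (.e (nat_lit 3275) (nat_lit 200) (.e (nat_lit 557108) (nat_lit 15) (.e (nat_lit 188446) (nat_lit 21) (.e (nat_lit 164182) (nat_lit 154) .nil)))) .nil)) 
(.lf (nat_lit 101215) (.g (nat_lit 2711) (.e (nat_lit 3276) (nat_lit 200) (.e (nat_lit 557109) (nat_lit 15) (.e (nat_lit 188446) (nat_lit 21) (.e (nat_lit 164182) (nat_lit 154) (.e (nat_lit 57386) (nat_lit 4) (.e (nat_lit 106536) (nat_lit 11) (.e (nat_lit 16386) (nat_lit 0) .nil))))))) (.g (nat_lit 4) .nil .nil)))) (.nd (nat_lit 6) 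
(.lf (nat_lit 101183) (.g (nat_lit 2460) (.e (nat_lit 3276) (nat_lit 200) (.e (nat_lit 557103) (nat_lit 14) (.e (nat_lit 180250) (nat_lit 10) (.e (nat_lit 573487) (nat_lit 14) (.e (nat_lit 81664) (nat_lit 5) (.e (nat_lit 532583) (nat_lit 26) (.e (nat_lit 426012) (nat_lit 0) .nil))))))) (.g (nat_lit 4) .nil .nil))) 
(.lf (nat_lit 101247) (.g (nat_lit 2810) (.e (nat_lit 3277) (nat_lit 200) (.e (nat_lit 557103) (nat_lit 14) (.e (nat_lit 180250) (nat_lit 10) (.e (nat_lit 573487) (nat_lit 14) (.e (nat_lit 73757) (nat_lit 11) .nil))))) .nil)))))))))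

noncomputable def tv1379 : DT := (.nd (nat_lit 0) (.nd (nat_lit 1) (.nd (nat_lit 2) (.nd (nat_lit 3) (.nd (nat_lit 4) (.nd (nat_lit 5) (.nd (nat_lit 6) 
(.lf (nat_lit 101248) (.g (nat_lit 1804) (.e (nat_lit 3277) (nat_lit 200) (.e (nat_lit 557103) (nat_lit 14) (.e (nat_lit 180250) (nat_lit 10) (.e (nat_lit 573488) (nat_lit 14) (.e (nat_lit 81664) (nat_lit 5) .nil))))) .nil)) 
(.lf (nat_lit 101312) (.g (nat_lit 4749) (.e (nat_lit 3279) (nat_lit 200) (.e (nat_lit 557108) (nat_lit 15) (.e (nat_lit 188452) (nat_lit 23) (.e (nat_lit 204863) (nat_lit 27) .nil)))) .nil))) (.nd (nat_lit 6) 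
(.lf (nat_lit 101280) (.g (nat_lit 3573) (.e (nat_lit 3278) (nat_lit 200) (.e (nat_lit 557105) (nat_lit 14) (.e (nat_lit 180252) (nat_lit 10) (.e (nat_lit 573451) (nat_lit 9) (.e (nat_lit 1449) (nat_lit 108) .nil))))) .nil)) 
(.lf (nat_lit 101344) (.g (nat_lit 4352) (.e (nat_lit 3281) (nat_lit 200) (.e (nat_lit 557108) (nat_lit 15) (.e (nat_lit 188446) (nat_lit 21) (.e (nat_lit 164182) (nat_lit 154) (.e (nat_lit 57386) (nat_lit 4) (.e (nat_lit 106534) (nat_lit 11) (.e (nat_lit 16392) (nat_lit 0) .nil))))))) (.g (nat_lit 4) .nil .nil))))) (.nd (nat_lit 5) (.nd (nat_lit 6) 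
(.lf (nat_lit 101264) (.g (nat_lit 3457) (.e (nat_lit 3277) (nat_lit 200) (.e (nat_lit 557108) (nat_lit 15) (.e (nat_lit 188446) (nat_lit 21) (.e (nat_lit 164172) (nat_lit 153) .nil)))) .nil)) 
(.lf (nat_lit 101328) (.g (nat_lit 1321) (.e (nat_lit 3281) (nat_lit 200) (.e (nat_lit 557090) (nat_lit 12) (.e (nat_lit 164060) (nat_lit 57) .nil))) .nil))) (.nd (nat_lit 6) 
(.lf (nat_lit 101296) (.g (nat_lit 2161) (.e (nat_lit 3279) (nat_lit 200) (.e (nat_lit 557108) (nat_lit 15) (.e (nat_lit 188417) (nat_lit 0) (.e (nat_lit 6206) (nat_lit 333) .nil)))) .nil)) 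
(.lf (nat_lit 101360) (.g (nat_lit 188) (.e (nat_lit 3282) (nat_lit 200) (.e (nat_lit 557060) (nat_lit 0) (.e (nat_lit 1568) (nat_lit 110) (.e (nat_lit 352279) (nat_lit 19) (.e (nat_lit 491585) (nat_lit 29) .nil))))) .nil))))) (.nd (nat_lit 4) (.nd (nat_lit 5) (.nd (nat_lit 6) 
(.lf (nat_lit 101256) (.g (nat_lit 2891) (.e (nat_lit 3277) (nat_lit 200) (.e (nat_lit 557105) (nat_lit 14) (.e (nat_lit 180252) (nat_lit 10) (.e (nat_lit 573488) (nat_lit 14) (.e (nat_lit 81664) (nat_lit 5) .nil))))) .nil)) 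
(.lf (nat_lit 101320) (.g (nat_lit 2702) (.e (nat_lit 3280) (nat_lit 200) (.e (nat_lit 557104) (nat_lit 14) (.e (nat_lit 180252) (nat_lit 10) (.e (nat_lit 573488) (nat_lit 14) (.e (nat_lit 81664) (nat_lit 5) .nil))))) .nil))) (.nd (nat_lit 6) 
(.lf (nat_lit 101288) (.g (nat_lit 1537) (.e (nat_lit 3279) (nat_lit 200) (.e (nat_lit 557103) (nat_lit 14) (.e (nat_lit 180250) (nat_lit 10) (.e (nat_lit 573480) (nat_lit 13) .nil)))) .nil)) 
(.lf (nat_lit 101352) (.g (nat_lit 1014) (.e (nat_lit 3281) (nat_lit 200) (.e (nat_lit 557108) (nat_lit 15) (.e (nat_lit 188461) (nat_lit 26) .nil))) .nil)))) (.nd (nat_lit 5) (.nd (nat_lit 6) 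
(.lf (nat_lit 101272) (.g (nat_lit 2676) (.e (nat_lit 3277) (nat_lit 200) (.e (nat_lit 557108) (nat_lit 15) (.e (nat_lit 188452) (nat_lit 23) (.e (nat_lit 204846) (nat_lit 24) .nil)))) .nil)) 
(.lf (nat_lit 101336) (.g (nat_lit 741) (.e (nat_lit 3281) (nat_lit 200) (.e (nat_lit 557107) (nat_lit 15) (.e (nat_lit 188416) (nat_lit 0) .nil))) .nil))) (.nd (nat_lit 6) 
(.lf (nat_lit 101304) (.g (nat_lit 2497) (.e (nat_lit 3279) (nat_lit 200) (.e (nat_lit 557108) (nat_lit 15) (.e (nat_lit 188446) (nat_lit 21) (.e (nat_lit 164181) (nat_lit 154) .nil)))) .nil)) 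
(.lf (nat_lit 101368) (.g (nat_lit 1072) (.e (nat_lit 7936) (nat_lit 200) (.e (nat_lit 557090) (nat_lit 12) (.e (nat_lit 164038) (nat_lit 55) .nil))) .nil)))))) (.nd (nat_lit 3) (.nd (nat_lit 4) (.nd (nat_lit 5) (.nd (nat_lit 6) 
(.lf (nat_lit 101252) (.g (nat_lit 2938) (.e (nat_lit 3277) (nat_lit 200) (.e (nat_lit 557105) (nat_lit 14) (.e (nat_lit 180252) (nat_lit 10) (.e (nat_lit 573451) (nat_lit 9) (.e (nat_lit 1449) (nat_lit 108) .nil))))) .nil)) 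
(.lf (nat_lit 101316) (.g (nat_lit 2450) (.e (nat_lit 3280) (nat_lit 200) (.e (nat_lit 557103) (nat_lit 14) (.e (nat_lit 180250) (nat_lit 10) (.e (nat_lit 573487) (nat_lit 14) (.e (nat_lit 81664) (nat_lit 5) .nil))))) .nil))) (.nd (nat_lit 6) 
(.lf (nat_lit 101284) (.g (nat_lit 3192) (.e (nat_lit 3278) (nat_lit 200) (.e (nat_lit 557108) (nat_lit 15) (.e (nat_lit 188452) (nat_lit 23) (.e (nat_lit 204846) (nat_lit 24) .nil)))) .nil)) 
(.lf (nat_lit 101348) (.g (nat_lit 685) (.e (nat_lit 3281) (nat_lit 200) (.e (nat_lit 557108) (nat_lit 15) (.e (nat_lit 188452) (nat_lit 23) .nil))) .nil)))) (.nd (nat_lit 5) (.nd (nat_lit 6) 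
(.lf (nat_lit 101268) (.g (nat_lit 3966) (.e (nat_lit 3277) (nat_lit 200) (.e (nat_lit 557108) (nat_lit 15) (.e (nat_lit 188446) (nat_lit 21) (.e (nat_lit 164182) (nat_lit 154) (.e (nat_lit 57386) (nat_lit 4) .nil))))) .nil)) 
(.lf (nat_lit 101332) (.g (nat_lit 604) (.e (nat_lit 3281) (nat_lit 200) (.e (nat_lit 557097) (nat_lit 13) (.e (nat_lit 172085) (nat_lit 9) .nil))) .nil))) (.nd (nat_lit 6) 
(.lf (nat_lit 101300) (.g (nat_lit 644) (.e (nat_lit 3279) (nat_lit 200) (.e (nat_lit 557108) (nat_lit 15) (.e (nat_lit 188446) (nat_lit 21) .nil))) .nil)) 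
(.lf (nat_lit 101364) (.g (nat_lit 270) (.e (nat_lit 3282) (nat_lit 200) (.e (nat_lit 557061) (nat_lit 0) (.e (nat_lit 1574) (nat_lit 110) (.e (nat_lit 352279) (nat_lit 19) (.e (nat_lit 499456) (nat_lit 29) (.e (nat_lit 442398) (nat_lit 20) .nil)))))) (.g (nat_lit 4) .nil .nil)))))) (.nd (nat_lit 4) (.nd (nat_lit 5) (.nd (nat_lit 6) 
(.lf (nat_lit 101260) (.g (nat_lit 1163) (.e (nat_lit 3277) (nat_lit 200) (.e (nat_lit 557108) (nat_lit 15) (.e (nat_lit 188417) (nat_lit 0) .nil))) .nil)) 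
(.lf (nat_lit 101324) (.g (nat_lit 252) (.e (nat_lit 3281) (nat_lit 200) (.e (nat_lit 557061) (nat_lit 0) (.e (nat_lit 1555) (nat_lit 110) (.e (nat_lit 352279) (nat_lit 19) .nil)))) .nil))) (.nd (nat_lit 6) 
(.lf (nat_lit 101292) (.g (nat_lit 2453) (.e (nat_lit 3279) (nat_lit 200) (.e (nat_lit 557104) (nat_lit 14) (.e (nat_lit 180252) (nat_lit 10) (.e (nat_lit 573451) (nat_lit 9) (.e (nat_lit 1449) (nat_lit 108) .nil))))) .nil)) 
(.lf (nat_lit 101356) (.g (nat_lit 388) (.e (nat_lit 3282) (nat_lit 200) (.e (nat_lit 557059) (nat_lit 0) (.e (nat_lit 1582) (nat_lit 111) (.e (nat_lit 360493) (nat_lit 27) .nil)))) .nil)))) (.nd (nat_lit 5) (.nd (nat_lit 6) 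
(.lf (nat_lit 101276) (.g (nat_lit 2118) (.e (nat_lit 3277) (nat_lit 200) (.e (nat_lit 557109) (nat_lit 15) (.e (nat_lit 188461) (nat_lit 26) (.e (nat_lit 253987) (nat_lit 10) .nil)))) .nil)) 
(.lf (nat_lit 101340) (.g (nat_lit 934) (.e (nat_lit 3281) (nat_lit 200) (.e (nat_lit 557108) (nat_lit 15) (.e (nat_lit 196352) (nat_lit 19) .nil))) .nil))) (.nd (nat_lit 6) 
(.lf (nat_lit 101308) (.g (nat_lit 2235) (.e (nat_lit 3279) (nat_lit 200) (.e (nat_lit 557108) (nat_lit 15) (.e (nat_lit 188446) (nat_lit 21) (.e (nat_lit 164189) (nat_lit 157) .nil)))) .nil)) 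
(.lf (nat_lit 101372) (.g (nat_lit 1933) (.e (nat_lit 7936) (nat_lit 200) (.e (nat_lit 557100) (nat_lit 13) (.e (nat_lit 172106) (nat_lit 10) (.e (nat_lit 434244) (nat_lit 28) .nil)))) .nil))))))) (.nd (nat_lit 2) (.nd (nat_lit 3) (.nd (nat_lit 4) (.nd (nat_lit 5) (.nd (nat_lit 6) 
(.lf (nat_lit 101250) (.g (nat_lit 2497) (.e (nat_lit 3277) (nat_lit 200) (.e (nat_lit 557104) (nat_lit 14) (.e (nat_lit 180252) (nat_lit 10) (.e (nat_lit 573487) (nat_lit 14) (.e (nat_lit 81664) (nat_lit 5) .nil))))) .nil)) 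
(.lf (nat_lit 101314) (.g (nat_lit 2062) (.e (nat_lit 3280) (nat_lit 200) (.e (nat_lit 557067) (nat_lit 9) (.e (nat_lit 3022) (nat_lit 187) (.e (nat_lit 450580) (nat_lit 5) (.e (nat_lit 532542) (nat_lit 9) .nil))))) .nil))) (.nd (nat_lit 6) 
(.lf (nat_lit 101282) (.g (nat_lit 1247) (.e (nat_lit 3278) (nat_lit 200) (.e (nat_lit 557108) (nat_lit 15) (.e (nat_lit 188446) (nat_lit 21) .nil))) .nil)) 
(.lf (nat_lit 101346) (.g (nat_lit 4979) (.e (nat_lit 3281) (nat_lit 200) (.e (nat_lit 557108) (nat_lit 15) (.e (nat_lit 188446) (nat_lit 21) (.e (nat_lit 164187) (nat_lit 157) (.e (nat_lit 229379) (nat_lit 0) .nil))))) .nil)))) (.nd (nat_lit 5) (.nd (nat_lit 6) 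
(.lf (nat_lit 101266) (.g (nat_lit 3176) (.e (nat_lit 3277) (nat_lit 200) (.e (nat_lit 557108) (nat_lit 15) (.e (nat_lit 188446) (nat_lit 21) (.e (nat_lit 164175) (nat_lit 153) .nil)))) .nil)) 
(.lf (nat_lit 101330) (.g (nat_lit 1676) (.e (nat_lit 3281) (nat_lit 200) (.e (nat_lit 557090) (nat_lit 12) (.e (nat_lit 164065) (nat_lit 58) (.e (nat_lit 802822) (nat_lit 11) .nil)))) .nil))) (.nd (nat_lit 6) 
(.lf (nat_lit 101298) (.g (nat_lit 1706) (.e (nat_lit 3279) (nat_lit 200) (.e (nat_lit 557108) (nat_lit 15) (.e (nat_lit 196352) (nat_lit 0) (.e (nat_lit 6114) (nat_lit 332) (.e (nat_lit 1167) (nat_lit 86) .nil))))) .nil)) 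
(.lf (nat_lit 101362) (.g (nat_lit 185) (.e (nat_lit 3282) (nat_lit 200) (.e (nat_lit 557061) (nat_lit 0) (.e (nat_lit 1558) (nat_lit 110) (.e (nat_lit 352279) (nat_lit 19) (.e (nat_lit 499456) (nat_lit 29) .nil))))) .nil))))) (.nd (nat_lit 4) (.nd (nat_lit 5) (.nd (nat_lit 6) 
(.lf (nat_lit 101258) (.g (nat_lit 951) (.e (nat_lit 3277) (nat_lit 200) (.e (nat_lit 557107) (nat_lit 15) (.e (nat_lit 188417) (nat_lit 0) (.e (nat_lit 6217) (nat_lit 333) .nil)))) .nil)) 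
(.lf (nat_lit 101322) (.g (nat_lit 3119) (.e (nat_lit 3280) (nat_lit 200) (.e (nat_lit 557108) (nat_lit 15) (.e (nat_lit 188446) (nat_lit 21) (.e (nat_lit 164182) (nat_lit 154) .nil)))) .nil))) (.nd (nat_lit 6) 
(.lf (nat_lit 101290) (.g (nat_lit 2412) (.e (nat_lit 3279) (nat_lit 200) (.e (nat_lit 557103) (nat_lit 14) (.e (nat_lit 180250) (nat_lit 10) (.e (nat_lit 573482) (nat_lit 13) (.e (nat_lit 65644) (nat_lit 22) (.e (nat_lit 245776) (nat_lit 4) (.e (nat_lit 172035) (nat_lit 0) .nil))))))) (.g (nat_lit 4) .nil .nil))) 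
(.lf (nat_lit 101354) (.g (nat_lit 3135) (.e (nat_lit 3281) (nat_lit 200) (.e (nat_lit 557108) (nat_lit 15) (.e (nat_lit 188461) (nat_lit 26) (.e (nat_lit 253996) (nat_lit 12) .nil)))) .nil)))) (.nd (nat_lit 5) (.nd (nat_lit 6) 
(.lf (nat_lit 101274) (.g (nat_lit 2939) (.e (nat_lit 3277) (nat_lit 200) (.e (nat_lit 557109) (nat_lit 15) (.e (nat_lit 188452) (nat_lit 23) (.e (nat_lit 204846) (nat_lit 24) .nil)))) .nil)) 
(.lf (nat_lit 101338) (.g (nat_lit 3339) (.e (nat_lit 3281) (nat_lit 200) (.e (nat_lit 557108) (nat_lit 15) (.e (nat_lit 188417) (nat_lit 0) (.e (nat_lit 6216) (nat_lit 333) (.e (nat_lit 57608) (nat_lit 107) (.e (nat_lit 704738) (nat_lit 11) (.e (nat_lit 16392) (nat_lit 0) .nil))))))) (.g (nat_lit 4) .nil .nil)))) (.nd (nat_lit 6) 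
(.lf (nat_lit 101306) (.g (nat_lit 2497) (.e (nat_lit 3279) (nat_lit 200) (.e (nat_lit 557108) (nat_lit 15) (.e (nat_lit 188446) (nat_lit 21) (.e (nat_lit 164183) (nat_lit 154) .nil)))) .nil)) 
(.lf (nat_lit 101370) (.g (nat_lit 881) (.e (nat_lit 7936) (nat_lit 200) (.e (nat_lit 557098) (nat_lit 13) (.e (nat_lit 172086) (nat_lit 9) .nil))) .nil)))))) (.nd (nat_lit 3) (.nd (nat_lit 4) (.nd (nat_lit 5) (.nd (nat_lit 6) 
(.lf (nat_lit 101254) (.g (nat_lit 2611) (.e (nat_lit 3277) (nat_lit 200) (.e (nat_lit 557105) (nat_lit 14) (.e (nat_lit 180252) (nat_lit 10) (.e (nat_lit 573487) (nat_lit 14) (.e (nat_lit 81664) (nat_lit 5) .nil))))) .nil)) 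
(.lf (nat_lit 101318) (.g (nat_lit 773) (.e (nat_lit 3280) (nat_lit 200) (.e (nat_lit 557104) (nat_lit 14) (.e (nat_lit 180252) (nat_lit 10) .nil))) .nil))) (.nd (nat_lit 6) 
(.lf (nat_lit 101286) (.g (nat_lit 3612) (.e (nat_lit 3278) (nat_lit 200) (.e (nat_lit 557109) (nat_lit 15) (.e (nat_lit 188452) (nat_lit 23) (.e (nat_lit 204846) (nat_lit 24) .nil)))) .nil)) 
(.lf (nat_lit 101350) (.g (nat_lit 4345) (.e (nat_lit 3281) (nat_lit 200) (.e (nat_lit 557108) (nat_lit 15) (.e (nat_lit 188452) (nat_lit 23) (.e (nat_lit 204846) (nat_lit 24) (.e (nat_lit 319533) (nat_lit 16) (.e (nat_lit 294656) (nat_lit 15) .nil)))))) (.g (nat_lit 5) .nil .nil))))) (.nd (nat_lit 5) (.nd (nat_lit 6) 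
(.lf (nat_lit 101270) (.g (nat_lit 3195) (.e (nat_lit 3277) (nat_lit 200) (.e (nat_lit 557108) (nat_lit 15) (.e (nat_lit 188446) (nat_lit 21) (.e (nat_lit 164189) (nat_lit 157) .nil)))) .nil)) 
(.lf (nat_lit 101334) (.g (nat_lit 1693) (.e (nat_lit 3281) (nat_lit 200) (.e (nat_lit 557104) (nat_lit 14) (.e (nat_lit 180252) (nat_lit 10) (.e (nat_lit 573488) (nat_lit 14) .nil)))) .nil))) (.nd (nat_lit 6) 
(.lf (nat_lit 101302) (.g (nat_lit 2225) (.e (nat_lit 3279) (nat_lit 200) (.e (nat_lit 557108) (nat_lit 15) (.e (nat_lit 188446) (nat_lit 21) (.e (nat_lit 164175) (nat_lit 153) .nil)))) .nil)) 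
(.lf (nat_lit 101366) (.g (nat_lit 1799) (.e (nat_lit 7936) (nat_lit 200) (.e (nat_lit 557087) (nat_lit 11) (.e (nat_lit 24625) (nat_lit 9) (.e (nat_lit 336456) (nat_lit 34) .nil)))) .nil))))) (.nd (nat_lit 4) (.nd (nat_lit 5) (.nd (nat_lit 6) 
(.lf (nat_lit 101262) (.g (nat_lit 2778) (.e (nat_lit 3277) (nat_lit 200) (.e (nat_lit 557108) (nat_lit 15) (.e (nat_lit 188417) (nat_lit 0) (.e (nat_lit 6217) (nat_lit 333) .nil)))) .nil)) 
(.lf (nat_lit 101326) (.g (nat_lit 138) (.e (nat_lit 3281) (nat_lit 200) (.e (nat_lit 564992) (nat_lit 5) (.e (nat_lit 73788) (nat_lit 45) (.e (nat_lit 1162) (nat_lit 86) (.e (nat_lit 57088) (nat_lit 6) (.e (nat_lit 188428) (nat_lit 20) .nil)))))) (.g (nat_lit 4) .nil .nil)))) (.nd (nat_lit 6) 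
(.lf (nat_lit 101294) (.g (nat_lit 555) (.e (nat_lit 3279) (nat_lit 200) (.e (nat_lit 557104) (nat_lit 14) (.e (nat_lit 188160) (nat_lit 34) .nil))) .nil)) 
(.lf (nat_lit 101358) (.g (nat_lit 211) (.e (nat_lit 3282) (nat_lit 200) (.e (nat_lit 557060) (nat_lit 0) (.e (nat_lit 1558) (nat_lit 110) (.e (nat_lit 352279) (nat_lit 19) (.e (nat_lit 499456) (nat_lit 29) .nil))))) .nil)))) (.nd (nat_lit 5) (.nd (nat_lit 6) 
(.lf (nat_lit 101278) (.g (nat_lit 2171) (.e (nat_lit 3277) (nat_lit 200) (.e (nat_lit 557109) (nat_lit 15) (.e (nat_lit 188461) (nat_lit 26) (.e (nat_lit 253996) (nat_lit 12) .nil)))) .nil)) 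
(.lf (nat_lit 101342) (.g (nat_lit 2599) (.e (nat_lit 3281) (nat_lit 200) (.e (nat_lit 557108) (nat_lit 15) (.e (nat_lit 188446) (nat_lit 21) (.e (nat_lit 164175) (nat_lit 153) .nil)))) .nil))) (.nd (nat_lit 6) 
(.lf (nat_lit 101310) (.g (nat_lit 3598) (.e (nat_lit 3279) (nat_lit 200) (.e (nat_lit 557108) (nat_lit 15) (.e (nat_lit 188452) (nat_lit 23) (.e (nat_lit 204846) (nat_lit 24) (.e (nat_lit 319533) (nat_lit 16) (.e (nat_lit 294656) (nat_lit 15) .nil)))))) (.g (nat_lit 5) .nil .nil))) 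
(.lf (nat_lit 101374) (.g (nat_lit 1829) (.e (nat_lit 7936) (nat_lit 200) (.e (nat_lit 557100) (nat_lit 13) (.e (nat_lit 172113) (nat_lit 10) (.e (nat_lit 434245) (nat_lit 28) (.e (nat_lit 573470) (nat_lit 11) .nil))))) .nil)))))))) (.nd (nat_lit 1) (.nd (nat_lit 2) (.nd (nat_lit 3) (.nd (nat_lit 4) (.nd (nat_lit 5) (.nd (nat_lit 6) 
(.lf (nat_lit 101249) (.g (nat_lit 2462) (.e (nat_lit 3277) (nat_lit 200) (.e (nat_lit 557104) (nat_lit 14) (.e (nat_lit 180252) (nat_lit 10) (.e (nat_lit 573451) (nat_lit 9) (.e (nat_lit 1449) (nat_lit 108) .nil))))) .nil)) 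
(.lf (nat_lit 101313) (.g (nat_lit 987) (.e (nat_lit 3279) (nat_lit 200) (.e (nat_lit 557108) (nat_lit 15) (.e (nat_lit 188461) (nat_lit 26) .nil))) .nil))) (.nd (nat_lit 6) 
(.lf (nat_lit 101281) (.g (nat_lit 2632) (.e (nat_lit 3278) (nat_lit 200) (.e (nat_lit 557105) (nat_lit 14) (.e (nat_lit 180252) (nat_lit 10) (.e (nat_lit 573488) (nat_lit 14) .nil)))) .nil)) 
(.lf (nat_lit 101345) (.g (nat_lit 2880) (.e (nat_lit 3281) (nat_lit 200) (.e (nat_lit 557108) (nat_lit 15) (.e (nat_lit 188446) (nat_lit 21) (.e (nat_lit 164183) (nat_lit 154) .nil)))) .nil)))) (.nd (nat_lit 5) (.nd (nat_lit 6) 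
(.lf (nat_lit 101265) (.g (nat_lit 3420) (.e (nat_lit 3277) (nat_lit 200) (.e (nat_lit 557108) (nat_lit 15) (.e (nat_lit 188446) (nat_lit 21) (.e (nat_lit 164174) (nat_lit 153) .nil)))) .nil)) 
(.lf (nat_lit 101329) (.g (nat_lit 1233) (.e (nat_lit 3281) (nat_lit 200) (.e (nat_lit 557090) (nat_lit 12) (.e (nat_lit 164065) (nat_lit 58) .nil))) .nil))) (.nd (nat_lit 6) 
(.lf (nat_lit 101297) (.g (nat_lit 2947) (.e (nat_lit 3279) (nat_lit 200) (.e (nat_lit 557108) (nat_lit 15) (.e (nat_lit 188417) (nat_lit 0) (.e (nat_lit 6217) (nat_lit 333) (.e (nat_lit 57607) (nat_lit 107) (.e (nat_lit 704738) (nat_lit 11) (.e (nat_lit 16392) (nat_lit 0) .nil))))))) (.g (nat_lit 4) .nil .nil))) 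
(.lf (nat_lit 101361) (.g (nat_lit 285) (.e (nat_lit 3282) (nat_lit 200) (.e (nat_lit 557061) (nat_lit 0) (.e (nat_lit 1555) (nat_lit 110) (.e (nat_lit 352279) (nat_lit 19) (.e (nat_lit 499456) (nat_lit 29) .nil))))) .nil))))) (.nd (nat_lit 4) (.nd (nat_lit 5) (.nd (nat_lit 6) 
(.lf (nat_lit 101257) (.g (nat_lit 2661) (.e (nat_lit 3277) (nat_lit 200) (.e (nat_lit 557105) (nat_lit 14) (.e (nat_lit 180252) (nat_lit 10) (.e (nat_lit 573489) (nat_lit 14) (.e (nat_lit 81664) (nat_lit 5) .nil))))) .nil)) 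
(.lf (nat_lit 101321) (.g (nat_lit 987) (.e (nat_lit 3280) (nat_lit 200) (.e (nat_lit 557108) (nat_lit 15) (.e (nat_lit 188446) (nat_lit 21) .nil))) .nil))) (.nd (nat_lit 6) 
(.lf (nat_lit 101289) (.g (nat_lit 2363) (.e (nat_lit 3279) (nat_lit 200) (.e (nat_lit 557103) (nat_lit 14) (.e (nat_lit 180250) (nat_lit 10) (.e (nat_lit 573482) (nat_lit 13) (.e (nat_lit 65644) (nat_lit 22) .nil))))) .nil)) 
(.lf (nat_lit 101353) (.g (nat_lit 3069) (.e (nat_lit 3281) (nat_lit 200) (.e (nat_lit 557108) (nat_lit 15) (.e (nat_lit 188461) (nat_lit 26) (.e (nat_lit 253995) (nat_lit 12) .nil)))) .nil)))) (.nd (nat_lit 5) (.nd (nat_lit 6) 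
(.lf (nat_lit 101273) (.g (nat_lit 1177) (.e (nat_lit 3277) (nat_lit 200) (.e (nat_lit 557108) (nat_lit 15) (.e (nat_lit 188461) (nat_lit 26) .nil))) .nil)) 
(.lf (nat_lit 101337) (.g (nat_lit 2266) (.e (nat_lit 3281) (nat_lit 200) (.e (nat_lit 557108) (nat_lit 15) (.e (nat_lit 188416) (nat_lit 0) (.e (nat_lit 6112) (nat_lit 332) .nil)))) .nil))) (.nd (nat_lit 6) 
(.lf (nat_lit 101305) (.g (nat_lit 3267) (.e (nat_lit 3279) (nat_lit 200) (.e (nat_lit 557108) (nat_lit 15) (.e (nat_lit 188446) (nat_lit 21) (.e (nat_lit 164182) (nat_lit 154) (.e (nat_lit 57384) (nat_lit 4) (.e (nat_lit 106534) (nat_lit 11) (.e (nat_lit 16392) (nat_lit 0) .nil))))))) (.g (nat_lit 4) .nil .nil))) 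
(.lf (nat_lit 101369) (.g (nat_lit 923) (.e (nat_lit 7936) (nat_lit 200) (.e (nat_lit 557098) (nat_lit 13) (.e (nat_lit 172085) (nat_lit 9) .nil))) .nil)))))) (.nd (nat_lit 3) (.nd (nat_lit 4) (.nd (nat_lit 5) (.nd (nat_lit 6) 
(.lf (nat_lit 101253) (.g (nat_lit 1939) (.e (nat_lit 3277) (nat_lit 200) (.e (nat_lit 557105) (nat_lit 14) (.e (nat_lit 180252) (nat_lit 10) (.e (nat_lit 573487) (nat_lit 14) .nil)))) .nil)) 
(.lf (nat_lit 101317) (.g (nat_lit 1105) (.e (nat_lit 3280) (nat_lit 200) (.e (nat_lit 557103) (nat_lit 14) (.e (nat_lit 180250) (nat_lit 10) (.e (nat_lit 573488) (nat_lit 14) .nil)))) .nil))) (.nd (nat_lit 6) 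
(.lf (nat_lit 101285) (.g (nat_lit 3304) (.e (nat_lit 3278) (nat_lit 200) (.e (nat_lit 557108) (nat_lit 15) (.e (nat_lit 188452) (nat_lit 23) (.e (nat_lit 204846) (nat_lit 24) (.e (nat_lit 319533) (nat_lit 16) .nil))))) .nil)) 
(.lf (nat_lit 101349) (.g (nat_lit 3729) (.e (nat_lit 3281) (nat_lit 200) (.e (nat_lit 557108) (nat_lit 15) (.e (nat_lit 188452) (nat_lit 23) (.e (nat_lit 204846) (nat_lit 24) .nil)))) .nil)))) (.nd (nat_lit 5) (.nd (nat_lit 6) 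
(.lf (nat_lit 101269) (.g (nat_lit 3969) (.e (nat_lit 3277) (nat_lit 200) (.e (nat_lit 557108) (nat_lit 15) (.e (nat_lit 188446) (nat_lit 21) (.e (nat_lit 164187) (nat_lit 157) .nil)))) .nil)) 
(.lf (nat_lit 101333) (.g (nat_lit 1734) (.e (nat_lit 3281) (nat_lit 200) (.e (nat_lit 557104) (nat_lit 14) (.e (nat_lit 180252) (nat_lit 10) (.e (nat_lit 573451) (nat_lit 9) .nil)))) .nil))) (.nd (nat_lit 6) 
(.lf (nat_lit 101301) (.g (nat_lit 2497) (.e (nat_lit 3279) (nat_lit 200) (.e (nat_lit 557108) (nat_lit 15) (.e (nat_lit 188446) (nat_lit 21) (.e (nat_lit 164172) (nat_lit 153) .nil)))) .nil)) 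
(.lf (nat_lit 101365) (.g (nat_lit 4030) (.e (nat_lit 7936) (nat_lit 200) (.e (nat_lit 557087) (nat_lit 11) (.e (nat_lit 24625) (nat_lit 9) (.e (nat_lit 336367) (nat_lit 27) .nil)))) .nil))))) (.nd (nat_lit 4) (.nd (nat_lit 5) (.nd (nat_lit 6) 
(.lf (nat_lit 101261) (.g (nat_lit 2777) (.e (nat_lit 3277) (nat_lit 200) (.e (nat_lit 557108) (nat_lit 15) (.e (nat_lit 188417) (nat_lit 0) (.e (nat_lit 6216) (nat_lit 333) .nil)))) .nil)) 
(.lf (nat_lit 101325) (.g (nat_lit 224) (.e (nat_lit 3281) (nat_lit 200) (.e (nat_lit 557061) (nat_lit 0) (.e (nat_lit 1558) (nat_lit 110) (.e (nat_lit 352279) (nat_lit 19) (.e (nat_lit 499456) (nat_lit 29) .nil))))) .nil))) (.nd (nat_lit 6) 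
(.lf (nat_lit 101293) (.g (nat_lit 2485) (.e (nat_lit 3279) (nat_lit 200) (.e (nat_lit 557104) (nat_lit 14) (.e (nat_lit 180252) (nat_lit 10) (.e (nat_lit 573488) (nat_lit 14) (.e (nat_lit 81664) (nat_lit 5) .nil))))) .nil)) 
(.lf (nat_lit 101357) (.g (nat_lit 369) (.e (nat_lit 3282) (nat_lit 200) (.e (nat_lit 557060) (nat_lit 0) (.e (nat_lit 1555) (nat_lit 110) (.e (nat_lit 352279) (nat_lit 19) (.e (nat_lit 499456) (nat_lit 29) .nil))))) .nil)))) (.nd (nat_lit 5) (.nd (nat_lit 6) 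
(.lf (nat_lit 101277) (.g (nat_lit 2138) (.e (nat_lit 3277) (nat_lit 200) (.e (nat_lit 557109) (nat_lit 15) (.e (nat_lit 188461) (nat_lit 26) (.e (nat_lit 253995) (nat_lit 12) .nil)))) .nil)) 
(.lf (nat_lit 101341) (.g (nat_lit 1000) (.e (nat_lit 3281) (nat_lit 200) (.e (nat_lit 557108) (nat_lit 15) (.e (nat_lit 188446) (nat_lit 21) .nil))) .nil))) (.nd (nat_lit 6) 
(.lf (nat_lit 101309) (.g (nat_lit 2968) (.e (nat_lit 3279) (nat_lit 200) (.e (nat_lit 557108) (nat_lit 15) (.e (nat_lit 188452) (nat_lit 23) (.e (nat_lit 204846) (nat_lit 24) .nil)))) .nil)) 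
(.lf (nat_lit 101373) (.g (nat_lit 486) (.e (nat_lit 7936) (nat_lit 200) (.e (nat_lit 557100) (nat_lit 13) (.e (nat_lit 172113) (nat_lit 10) .nil))) .nil))))))) (.nd (nat_lit 2) (.nd (nat_lit 3) (.nd (nat_lit 4) (.nd (nat_lit 5) (.nd (nat_lit 6) 
(.lf (nat_lit 101251) (.g (nat_lit 2650) (.e (nat_lit 3277) (nat_lit 200) (.e (nat_lit 557104) (nat_lit 14) (.e (nat_lit 180252) (nat_lit 10) (.e (nat_lit 573488) (nat_lit 14) (.e (nat_lit 81664) (nat_lit 5) (.e (nat_lit 532579) (nat_lit 26) (.e (nat_lit 426024) (nat_lit 0) .nil))))))) (.g (nat_lit 4) .nil .nil))) 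
(.lf (nat_lit 101315) (.g (nat_lit 2510) (.e (nat_lit 3280) (nat_lit 200) (.e (nat_lit 557103) (nat_lit 14) (.e (nat_lit 180250) (nat_lit 10) (.e (nat_lit 573482) (nat_lit 13) (.e (nat_lit 65568) (nat_lit 2) .nil))))) .nil))) (.nd (nat_lit 6) 
(.lf (nat_lit 101283) (.g (nat_lit 3864) (.e (nat_lit 3278) (nat_lit 200) (.e (nat_lit 557108) (nat_lit 15) (.e (nat_lit 188446) (nat_lit 21) (.e (nat_lit 164182) (nat_lit 154) .nil)))) .nil)) 
(.lf (nat_lit 101347) (.g (nat_lit 3098) (.e (nat_lit 3281) (nat_lit 200) (.e (nat_lit 557108) (nat_lit 15) (.e (nat_lit 188446) (nat_lit 21) (.e (nat_lit 164189) (nat_lit 157) (.e (nat_lit 229379) (nat_lit 0) .nil))))) .nil)))) (.nd (nat_lit 5) (.nd (nat_lit 6) 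
(.lf (nat_lit 101267) (.g (nat_lit 3456) (.e (nat_lit 3277) (nat_lit 200) (.e (nat_lit 557108) (nat_lit 15) (.e (nat_lit 188446) (nat_lit 21) (.e (nat_lit 164182) (nat_lit 154) .nil)))) .nil)) 
(.lf (nat_lit 101331) (.g (nat_lit 3808) (.e (nat_lit 3281) (nat_lit 200) (.e (nat_lit 557090) (nat_lit 12) (.e (nat_lit 164065) (nat_lit 58) (.e (nat_lit 802822) (nat_lit 11) (.e (nat_lit 336012) (nat_lit 2) (.e (nat_lit 90176) (nat_lit 15) (.e (nat_lit 188431) (nat_lit 20) .nil))))))) (.g (nat_lit 0) .nil .nil)))) (.nd (nat_lit 6) 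
(.lf (nat_lit 101299) (.g (nat_lit 740) (.e (nat_lit 3279) (nat_lit 200) (.e (nat_lit 557108) (nat_lit 15) (.e (nat_lit 196352) (nat_lit 9) .nil))) .nil)) 
(.lf (nat_lit 101363) (.g (nat_lit 151) (.e (nat_lit 3282) (nat_lit 200) (.e (nat_lit 557061) (nat_lit 0) (.e (nat_lit 1568) (nat_lit 110) (.e (nat_lit 352279) (nat_lit 19) (.e (nat_lit 499456) (nat_lit 29) .nil))))) .nil))))) (.nd (nat_lit 4) (.nd (nat_lit 5) (.nd (nat_lit 6) 
(.lf (nat_lit 101259) (.g (nat_lit 669) (.e (nat_lit 3277) (nat_lit 200) (.e (nat_lit 557107) (nat_lit 15) (.e (nat_lit 196352) (nat_lit 9) .nil))) .nil)) 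
(.lf (nat_lit 101323) (.g (nat_lit 2762) (.e (nat_lit 3280) (nat_lit 200) (.e (nat_lit 557108) (nat_lit 15) (.e (nat_lit 188452) (nat_lit 23) (.e (nat_lit 204846) (nat_lit 24) .nil)))) .nil))) (.nd (nat_lit 6) 
(.lf (nat_lit 101291) (.g (nat_lit 2382) (.e (nat_lit 3279) (nat_lit 200) (.e (nat_lit 557103) (nat_lit 14) (.e (nat_lit 180250) (nat_lit 10) (.e (nat_lit 573487) (nat_lit 14) (.e (nat_lit 81664) (nat_lit 5) .nil))))) .nil)) 
(.lf (nat_lit 101355) (.g (nat_lit 403) (.e (nat_lit 3282) (nat_lit 200) (.e (nat_lit 557059) (nat_lit 0) (.e (nat_lit 1555) (nat_lit 110) (.e (nat_lit 352279) (nat_lit 19) (.e (nat_lit 491585) (nat_lit 29) .nil))))) .nil)))) (.nd (nat_lit 5) (.nd (nat_lit 6) 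
(.lf (nat_lit 101275) (.g (nat_lit 551) (.e (nat_lit 3277) (nat_lit 200) (.e (nat_lit 557109) (nat_lit 15) (.e (nat_lit 188461) (nat_lit 26) .nil))) .nil)) 
(.lf (nat_lit 101339) (.g (nat_lit 1900) (.e (nat_lit 3281) (nat_lit 200) (.e (nat_lit 557108) (nat_lit 15) (.e (nat_lit 196352) (nat_lit 0) (.e (nat_lit 6114) (nat_lit 332) (.e (nat_lit 1167) (nat_lit 86) .nil))))) .nil))) (.nd (nat_lit 6) 
(.lf (nat_lit 101307) (.g (nat_lit 3147) (.e (nat_lit 3279) (nat_lit 200) (.e (nat_lit 557108) (nat_lit 15) (.e (nat_lit 188446) (nat_lit 21) (.e (nat_lit 164187) (nat_lit 157) .nil)))) .nil)) 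
(.lf (nat_lit 101371) (.g (nat_lit 885) (.e (nat_lit 7936) (nat_lit 200) (.e (nat_lit 557098) (nat_lit 13) (.e (nat_lit 172122) (nat_lit 13) .nil))) .nil)))))) (.nd (nat_lit 3) (.nd (nat_lit 4) (.nd (nat_lit 5) (.nd (nat_lit 6) 
(.lf (nat_lit 101255) (.g (nat_lit 1946) (.e (nat_lit 3277) (nat_lit 200) (.e (nat_lit 557105) (nat_lit 14) (.e (nat_lit 180252) (nat_lit 10) (.e (nat_lit 573488) (nat_lit 14) .nil)))) .nil)) 
(.lf (nat_lit 101319) (.g (nat_lit 2669) (.e (nat_lit 3280) (nat_lit 200) (.e (nat_lit 557104) (nat_lit 14) (.e (nat_lit 180252) (nat_lit 10) (.e (nat_lit 573451) (nat_lit 9) (.e (nat_lit 1449) (nat_lit 108) .nil))))) .nil))) (.nd (nat_lit 6) 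
(.lf (nat_lit 101287) (.g (nat_lit 1292) (.e (nat_lit 3279) (nat_lit 200) (.e (nat_lit 557090) (nat_lit 12) (.e (nat_lit 164065) (nat_lit 58) .nil))) .nil)) 
(.lf (nat_lit 101351) (.g (nat_lit 3778) (.e (nat_lit 3281) (nat_lit 200) (.e (nat_lit 557108) (nat_lit 15) (.e (nat_lit 188452) (nat_lit 23) (.e (nat_lit 204863) (nat_lit 27) .nil)))) .nil)))) (.nd (nat_lit 5) (.nd (nat_lit 6) 
(.lf (nat_lit 101271) (.g (nat_lit 815) (.e (nat_lit 3277) (nat_lit 200) (.e (nat_lit 557108) (nat_lit 15) (.e (nat_lit 188452) (nat_lit 23) .nil))) .nil)) 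
(.lf (nat_lit 101335) (.g (nat_lit 582) (.e (nat_lit 3281) (nat_lit 200) (.e (nat_lit 557104) (nat_lit 14) (.e (nat_lit 188160) (nat_lit 34) .nil))) .nil))) (.nd (nat_lit 6) 
(.lf (nat_lit 101303) (.g (nat_lit 2304) (.e (nat_lit 3279) (nat_lit 200) (.e (nat_lit 557108) (nat_lit 15) (.e (nat_lit 188446) (nat_lit 21) (.e (nat_lit 164177) (nat_lit 154) .nil)))) .nil)) 
(.lf (nat_lit 101367) (.g (nat_lit 664) (.e (nat_lit 7936) (nat_lit 200) (.e (nat_lit 557087) (nat_lit 11) (.e (nat_lit 24655) (nat_lit 13) .nil))) .nil))))) (.nd (nat_lit 4) (.nd (nat_lit 5) (.nd (nat_lit 6) 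
(.lf (nat_lit 101263) (.g (nat_lit 1150) (.e (nat_lit 3277) (nat_lit 200) (.e (nat_lit 557108) (nat_lit 15) (.e (nat_lit 188446) (nat_lit 21) .nil))) .nil)) 
(.lf (nat_lit 101327) (.g (nat_lit 180) (.e (nat_lit 3281) (nat_lit 200) (.e (nat_lit 564992) (nat_lit 5) (.e (nat_lit 73791) (nat_lit 45) (.e (nat_lit 1162) (nat_lit 86) (.e (nat_lit 57088) (nat_lit 6) (.e (nat_lit 188428) (nat_lit 20) .nil)))))) (.g (nat_lit 4) .nil .nil)))) (.nd (nat_lit 6) 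
(.lf (nat_lit 101295) (.g (nat_lit 669) (.e (nat_lit 3279) (nat_lit 200) (.e (nat_lit 557107) (nat_lit 15) (.e (nat_lit 196352) (nat_lit 10) .nil))) .nil)) 
(.lf (nat_lit 101359) (.g (nat_lit 162) (.e (nat_lit 3282) (nat_lit 200) (.e (nat_lit 557060) (nat_lit 0) (.e (nat_lit 1558) (nat_lit 110) (.e (nat_lit 360192) (nat_lit 19) .nil)))) .nil)))) (.nd (nat_lit 5) (.nd (nat_lit 6) 
(.lf (nat_lit 101279) (.g (nat_lit 602) (.e (nat_lit 3278) (nat_lit 200) (.e (nat_lit 557070) (nat_lit 9) (.e (nat_lit 124) (nat_lit 5) .nil))) .nil)) 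
(.lf (nat_lit 101343) (.g (nat_lit 2687) (.e (nat_lit 3281) (nat_lit 200) (.e (nat_lit 557108) (nat_lit 15) (.e (nat_lit 188446) (nat_lit 21) (.e (nat_lit 164177) (nat_lit 154) .nil)))) .nil))) (.nd (nat_lit 6) 
(.lf (nat_lit 101311) (.g (nat_lit 4176) (.e (nat_lit 3279) (nat_lit 200) (.e (nat_lit 557108) (nat_lit 15) (.e (nat_lit 188452) (nat_lit 23) (.e (nat_lit 204861) (nat_lit 26) .nil)))) .nil)) 
(.lf (nat_lit 101375) (.g (nat_lit 1872) (.e (nat_lit 7936) (nat_lit 200) (.e (nat_lit 557100) (nat_lit 13) (.e (nat_lit 172113) (nat_lit 10) (.e (nat_lit 434245) (nat_lit 28) (.e (nat_lit 573474) (nat_lit 12) .nil))))) .nil)))))))))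

noncomputable def tv1380 : DT := (.nd (nat_lit 0) (.nd (nat_lit 1) (.nd (nat_lit 2) (.nd (nat_lit 3) (.nd (nat_lit 4) (.nd (nat_lit 5) (.nd (nat_lit 6) 
(.lf (nat_lit 101376) (.g (nat_lit 1995) (.e (nat_lit 7936) (nat_lit 200) (.e (nat_lit 557100) (nat_lit 13) (.e (nat_lit 172113) (nat_lit 10) (.e (nat_lit 434247) (nat_lit 28) (.e (nat_lit 573469) (nat_lit 11) .nil))))) .nil)) 
(.lf (nat_lit 101440) (.g (nat_lit 1655) (.e (nat_lit 7936) (nat_lit 200) (.e (nat_lit 557109) (nat_lit 15) (.e (nat_lit 188461) (nat_lit 26) (.e (nat_lit 253983) (nat_lit 10) .nil)))) .nil))) (.nd (nat_lit 6) 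
(.lf (nat_lit 101408) (.g (nat_lit 1849) (.e (nat_lit 7936) (nat_lit 200) (.e (nat_lit 557105) (nat_lit 14) (.e (nat_lit 180252) (nat_lit 10) (.e (nat_lit 573487) (nat_lit 14) (.e (nat_lit 81664) (nat_lit 5) .nil))))) .nil)) 
(.lf (nat_lit 101472) (.g (nat_lit 1277) (.e (nat_lit 3295) (nat_lit 202) (.e (nat_lit 573482) (nat_lit 13) (.e (nat_lit 65604) (nat_lit 9) (.e (nat_lit 336028) (nat_lit 3) .nil)))) .nil)))) (.nd (nat_lit 5) (.nd (nat_lit 6) 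
(.lf (nat_lit 101392) (.g (nat_lit 760) (.e (nat_lit 7936) (nat_lit 200) (.e (nat_lit 557103) (nat_lit 14) (.e (nat_lit 180252) (nat_lit 10) .nil))) .nil)) 
(.lf (nat_lit 101456) (.g (nat_lit 2287) (.e (nat_lit 3289) (nat_lit 201) (.e (nat_lit 565268) (nat_lit 5) (.e (nat_lit 73755) (nat_lit 8) (.e (nat_lit 557067) (nat_lit 9) (.e (nat_lit 2878) (nat_lit 184) .nil))))) .nil))) (.nd (nat_lit 6) 
(.lf (nat_lit 101424) (.g (nat_lit 1353) (.e (nat_lit 7936) (nat_lit 200) (.e (nat_lit 557109) (nat_lit 15) (.e (nat_lit 188422) (nat_lit 11) (.e (nat_lit 335988) (nat_lit 1) .nil)))) .nil)) 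
(.lf (nat_lit 101488) (.g (nat_lit 3414) (.e (nat_lit 3295) (nat_lit 202) (.e (nat_lit 573492) (nat_lit 15) (.e (nat_lit 81956) (nat_lit 23) (.e (nat_lit 98388) (nat_lit 33) .nil)))) .nil))))) (.nd (nat_lit 4) (.nd (nat_lit 5) (.nd (nat_lit 6) 
(.lf (nat_lit 101384) (.g (nat_lit 2057) (.e (nat_lit 7936) (nat_lit 200) (.e (nat_lit 557103) (nat_lit 14) (.e (nat_lit 180250) (nat_lit 10) (.e (nat_lit 573480) (nat_lit 13) (.e (nat_lit 65644) (nat_lit 22) .nil))))) .nil)) 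
(.lf (nat_lit 101448) (.g (nat_lit 689) (.e (nat_lit 3289) (nat_lit 201) (.e (nat_lit 565251) (nat_lit 0) (.e (nat_lit 1595) (nat_lit 111) (.e (nat_lit 360493) (nat_lit 27) (.e (nat_lit 819221) (nat_lit 6) .nil))))) .nil))) (.nd (nat_lit 6) 
(.lf (nat_lit 101416) (.g (nat_lit 686) (.e (nat_lit 7936) (nat_lit 200) (.e (nat_lit 557107) (nat_lit 15) (.e (nat_lit 188459) (nat_lit 26) .nil))) .nil)) 
(.lf (nat_lit 101480) (.g (nat_lit 1910) (.e (nat_lit 3295) (nat_lit 202) (.e (nat_lit 573485) (nat_lit 13) (.e (nat_lit 65619) (nat_lit 10) (.e (nat_lit 344126) (nat_lit 25) (.e (nat_lit 548874) (nat_lit 5) (.e (nat_lit 1575) (nat_lit 110) (.e (nat_lit 352261) (nat_lit 0) .nil))))))) (.g (nat_lit 4) .nil .nil))))) (.nd (nat_lit 5) (.nd (nat_lit 6) 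
(.lf (nat_lit 101400) (.g (nat_lit 1806) (.e (nat_lit 7936) (nat_lit 200) (.e (nat_lit 557105) (nat_lit 14) (.e (nat_lit 180252) (nat_lit 10) (.e (nat_lit 573480) (nat_lit 13) (.e (nat_lit 65644) (nat_lit 22) .nil))))) .nil)) 
(.lf (nat_lit 101464) (.g (nat_lit 1074) (.e (nat_lit 3289) (nat_lit 201) (.e (nat_lit 565268) (nat_lit 5) (.e (nat_lit 73755) (nat_lit 8) (.e (nat_lit 557105) (nat_lit 14) .nil)))) .nil))) (.nd (nat_lit 6) 
(.lf (nat_lit 101432) (.g (nat_lit 2723) (.e (nat_lit 7936) (nat_lit 200) (.e (nat_lit 557109) (nat_lit 15) (.e (nat_lit 188452) (nat_lit 23) (.e (nat_lit 204863) (nat_lit 27) (.e (nat_lit 344096) (nat_lit 18) .nil))))) .nil)) 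
(.lf (nat_lit 101496) (.g (nat_lit 384) (.e (nat_lit 3296) (nat_lit 202) (.e (nat_lit 573456) (nat_lit 9) (.e (nat_lit 1312) (nat_lit 98) .nil))) .nil)))))) (.nd (nat_lit 3) (.nd (nat_lit 4) (.nd (nat_lit 5) (.nd (nat_lit 6) 
(.lf (nat_lit 101380) (.g (nat_lit 2029) (.e (nat_lit 7936) (nat_lit 200) (.e (nat_lit 557100) (nat_lit 13) (.e (nat_lit 172113) (nat_lit 10) (.e (nat_lit 434248) (nat_lit 28) (.e (nat_lit 573475) (nat_lit 12) .nil))))) .nil)) 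
(.lf (nat_lit 101444) (.g (nat_lit 507) (.e (nat_lit 3288) (nat_lit 201) (.e (nat_lit 565252) (nat_lit 0) (.e (nat_lit 1595) (nat_lit 111) (.e (nat_lit 360493) (nat_lit 27) .nil)))) .nil))) (.nd (nat_lit 6) 
(.lf (nat_lit 101412) (.g (nat_lit 2918) (.e (nat_lit 7936) (nat_lit 200) (.e (nat_lit 557105) (nat_lit 14) (.e (nat_lit 180252) (nat_lit 10) (.e (nat_lit 573488) (nat_lit 14) (.e (nat_lit 81664) (nat_lit 5) .nil))))) .nil)) 
(.lf (nat_lit 101476) (.g (nat_lit 1154) (.e (nat_lit 3295) (nat_lit 202) (.e (nat_lit 573482) (nat_lit 13) (.e (nat_lit 65619) (nat_lit 10) (.e (nat_lit 344129) (nat_lit 26) .nil)))) .nil)))) (.nd (nat_lit 5) (.nd (nat_lit 6) 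
(.lf (nat_lit 101396) (.g (nat_lit 2197) (.e (nat_lit 7936) (nat_lit 200) (.e (nat_lit 557104) (nat_lit 14) (.e (nat_lit 180252) (nat_lit 10) (.e (nat_lit 573488) (nat_lit 14) (.e (nat_lit 81664) (nat_lit 5) .nil))))) .nil)) 
(.lf (nat_lit 101460) (.g (nat_lit 2299) (.e (nat_lit 3289) (nat_lit 201) (.e (nat_lit 565268) (nat_lit 5) (.e (nat_lit 73755) (nat_lit 8) (.e (nat_lit 557098) (nat_lit 13) (.e (nat_lit 172063) (nat_lit 2) .nil))))) .nil))) (.nd (nat_lit 6) 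
(.lf (nat_lit 101428) (.g (nat_lit 558) (.e (nat_lit 7936) (nat_lit 200) (.e (nat_lit 557109) (nat_lit 15) (.e (nat_lit 188452) (nat_lit 23) .nil))) .nil)) 
(.lf (nat_lit 101492) (.g (nat_lit 5164) (.e (nat_lit 3295) (nat_lit 202) (.e (nat_lit 573493) (nat_lit 15) (.e (nat_lit 81956) (nat_lit 23) (.e (nat_lit 98388) (nat_lit 33) .nil)))) .nil))))) (.nd (nat_lit 4) (.nd (nat_lit 5) (.nd (nat_lit 6) 
(.lf (nat_lit 101388) (.g (nat_lit 2290) (.e (nat_lit 7936) (nat_lit 200) (.e (nat_lit 557103) (nat_lit 14) (.e (nat_lit 180250) (nat_lit 10) (.e (nat_lit 573487) (nat_lit 14) (.e (nat_lit 81664) (nat_lit 5) .nil))))) .nil)) 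
(.lf (nat_lit 101452) (.g (nat_lit 798) (.e (nat_lit 3289) (nat_lit 201) (.e (nat_lit 565268) (nat_lit 5) (.e (nat_lit 73753) (nat_lit 8) (.e (nat_lit 557101) (nat_lit 13) .nil)))) .nil))) (.nd (nat_lit 6) 
(.lf (nat_lit 101420) (.g (nat_lit 1949) (.e (nat_lit 7936) (nat_lit 200) (.e (nat_lit 557108) (nat_lit 15) (.e (nat_lit 188446) (nat_lit 21) (.e (nat_lit 164178) (nat_lit 154) .nil)))) .nil)) 
(.lf (nat_lit 101484) (.g (nat_lit 843) (.e (nat_lit 3295) (nat_lit 202) (.e (nat_lit 573485) (nat_lit 13) (.e (nat_lit 65628) (nat_lit 14) (.e (nat_lit 401428) (nat_lit 3) .nil)))) .nil)))) (.nd (nat_lit 5) (.nd (nat_lit 6) 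
(.lf (nat_lit 101404) (.g (nat_lit 2851) (.e (nat_lit 7936) (nat_lit 200) (.e (nat_lit 557105) (nat_lit 14) (.e (nat_lit 180252) (nat_lit 10) (.e (nat_lit 573482) (nat_lit 13) (.e (nat_lit 65632) (nat_lit 15) .nil))))) .nil)) 
(.lf (nat_lit 101468) (.g (nat_lit 2089) (.e (nat_lit 3295) (nat_lit 202) (.e (nat_lit 573481) (nat_lit 13) (.e (nat_lit 65619) (nat_lit 10) (.e (nat_lit 344129) (nat_lit 26) (.e (nat_lit 557066) (nat_lit 9) .nil))))) .nil))) (.nd (nat_lit 6) 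
(.lf (nat_lit 101436) (.g (nat_lit 413) (.e (nat_lit 7936) (nat_lit 200) (.e (nat_lit 557109) (nat_lit 15) (.e (nat_lit 188461) (nat_lit 26) .nil))) .nil)) 
(.lf (nat_lit 101500) (.g (nat_lit 1687) (.e (nat_lit 3296) (nat_lit 202) (.e (nat_lit 573482) (nat_lit 13) (.e (nat_lit 65604) (nat_lit 9) (.e (nat_lit 336013) (nat_lit 2) (.e (nat_lit 90170) (nat_lit 13) .nil))))) .nil))))))) (.nd (nat_lit 2) (.nd (nat_lit 3) (.nd (nat_lit 4) (.nd (nat_lit 5) (.nd (nat_lit 6) 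
(.lf (nat_lit 101378) (.g (nat_lit 2042) (.e (nat_lit 7936) (nat_lit 200) (.e (nat_lit 557100) (nat_lit 13) (.e (nat_lit 172113) (nat_lit 10) (.e (nat_lit 434247) (nat_lit 28) (.e (nat_lit 573478) (nat_lit 12) .nil))))) .nil)) 
(.lf (nat_lit 101442) (.g (nat_lit 1830) (.e (nat_lit 7936) (nat_lit 200) (.e (nat_lit 557109) (nat_lit 15) (.e (nat_lit 188461) (nat_lit 26) (.e (nat_lit 253986) (nat_lit 10) .nil)))) .nil))) (.nd (nat_lit 6) 
(.lf (nat_lit 101410) (.g (nat_lit 1974) (.e (nat_lit 7936) (nat_lit 200) (.e (nat_lit 557105) (nat_lit 14) (.e (nat_lit 180252) (nat_lit 10) (.e (nat_lit 573488) (nat_lit 14) .nil)))) .nil)) 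
(.lf (nat_lit 101474) (.g (nat_lit 1850) (.e (nat_lit 3295) (nat_lit 202) (.e (nat_lit 573482) (nat_lit 13) (.e (nat_lit 65619) (nat_lit 10) (.e (nat_lit 344126) (nat_lit 25) (.e (nat_lit 548872) (nat_lit 5) .nil))))) .nil)))) (.nd (nat_lit 5) (.nd (nat_lit 6) 
(.lf (nat_lit 101394) (.g (nat_lit 2595) (.e (nat_lit 7936) (nat_lit 200) (.e (nat_lit 557104) (nat_lit 14) (.e (nat_lit 180252) (nat_lit 10) (.e (nat_lit 573482) (nat_lit 13) (.e (nat_lit 65644) (nat_lit 22) .nil))))) .nil)) 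
(.lf (nat_lit 101458) (.g (nat_lit 927) (.e (nat_lit 3289) (nat_lit 201) (.e (nat_lit 565268) (nat_lit 5) (.e (nat_lit 73755) (nat_lit 8) (.e (nat_lit 557098) (nat_lit 13) .nil)))) .nil))) (.nd (nat_lit 6) 
(.lf (nat_lit 101426) (.g (nat_lit 1117) (.e (nat_lit 7936) (nat_lit 200) (.e (nat_lit 557109) (nat_lit 15) (.e (nat_lit 188450) (nat_lit 23) .nil))) .nil)) 
(.lf (nat_lit 101490) (.g (nat_lit 4298) (.e (nat_lit 3295) (nat_lit 202) (.e (nat_lit 573493) (nat_lit 15) (.e (nat_lit 81956) (nat_lit 23) (.e (nat_lit 98319) (nat_lit 17) .nil)))) .nil))))) (.nd (nat_lit 4) (.nd (nat_lit 5) (.nd (nat_lit 6) 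
(.lf (nat_lit 101386) (.g (nat_lit 2167) (.e (nat_lit 7936) (nat_lit 200) (.e (nat_lit 557103) (nat_lit 14) (.e (nat_lit 180250) (nat_lit 10) (.e (nat_lit 573482) (nat_lit 13) (.e (nat_lit 65644) (nat_lit 22) .nil))))) .nil)) 
(.lf (nat_lit 101450) (.g (nat_lit 1768) (.e (nat_lit 3289) (nat_lit 201) (.e (nat_lit 565252) (nat_lit 0) (.e (nat_lit 1548) (nat_lit 109) (.e (nat_lit 344130) (nat_lit 26) (.e (nat_lit 557103) (nat_lit 14) (.e (nat_lit 180235) (nat_lit 1) (.e (nat_lit 500048) (nat_lit 16) (.e (nat_lit 16397) (nat_lit 0) .nil)))))))) (.g (nat_lit 5) .nil .nil)))) (.nd (nat_lit 6) 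
(.lf (nat_lit 101418) (.g (nat_lit 1330) (.e (nat_lit 7936) (nat_lit 200) (.e (nat_lit 557107) (nat_lit 15) (.e (nat_lit 188459) (nat_lit 26) (.e (nat_lit 253987) (nat_lit 10) .nil)))) .nil)) 
(.lf (nat_lit 101482) (.g (nat_lit 2033) (.e (nat_lit 3295) (nat_lit 202) (.e (nat_lit 573485) (nat_lit 13) (.e (nat_lit 65619) (nat_lit 10) (.e (nat_lit 344129) (nat_lit 26) (.e (nat_lit 557065) (nat_lit 9) (.e (nat_lit 312) (nat_lit 23) (.e (nat_lit 352261) (nat_lit 0) .nil))))))) (.g (nat_lit 4) .nil .nil))))) (.nd (nat_lit 5) (.nd (nat_lit 6) 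
(.lf (nat_lit 101402) (.g (nat_lit 1330) (.e (nat_lit 7936) (nat_lit 200) (.e (nat_lit 557105) (nat_lit 14) (.e (nat_lit 180252) (nat_lit 10) (.e (nat_lit 573482) (nat_lit 13) .nil)))) .nil)) 
(.lf (nat_lit 101466) (.g (nat_lit 3706) (.e (nat_lit 3295) (nat_lit 202) (.e (nat_lit 573471) (nat_lit 11) (.e (nat_lit 16425) (nat_lit 7) (.e (nat_lit 409616) (nat_lit 10) .nil)))) .nil))) (.nd (nat_lit 6) 
(.lf (nat_lit 101434) (.g (nat_lit 3898) (.e (nat_lit 7936) (nat_lit 200) (.e (nat_lit 557109) (nat_lit 15) (.e (nat_lit 188452) (nat_lit 23) (.e (nat_lit 204873) (nat_lit 30) .nil)))) .nil)) 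
(.lf (nat_lit 101498) (.g (nat_lit 3793) (.e (nat_lit 3296) (nat_lit 202) (.e (nat_lit 573471) (nat_lit 11) (.e (nat_lit 16425) (nat_lit 7) (.e (nat_lit 409616) (nat_lit 10) .nil)))) .nil)))))) (.nd (nat_lit 3) (.nd (nat_lit 4) (.nd (nat_lit 5) (.nd (nat_lit 6) 
(.lf (nat_lit 101382) (.g (nat_lit 1620) (.e (nat_lit 7936) (nat_lit 200) (.e (nat_lit 557103) (nat_lit 14) (.e (nat_lit 180244) (nat_lit 5) (.e (nat_lit 532513) (nat_lit 3) .nil)))) .nil)) 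
(.lf (nat_lit 101446) (.g (nat_lit 942) (.e (nat_lit 3288) (nat_lit 201) (.e (nat_lit 565269) (nat_lit 6) (.e (nat_lit 81943) (nat_lit 20) (.e (nat_lit 2390) (nat_lit 156) .nil)))) .nil))) (.nd (nat_lit 6) 
(.lf (nat_lit 101414) (.g (nat_lit 2061) (.e (nat_lit 7936) (nat_lit 200) (.e (nat_lit 557105) (nat_lit 14) (.e (nat_lit 180252) (nat_lit 10) (.e (nat_lit 573489) (nat_lit 14) (.e (nat_lit 81664) (nat_lit 1) .nil))))) .nil)) 
(.lf (nat_lit 101478) (.g (nat_lit 1698) (.e (nat_lit 3295) (nat_lit 202) (.e (nat_lit 573485) (nat_lit 13) (.e (nat_lit 65604) (nat_lit 9) (.e (nat_lit 336013) (nat_lit 2) (.e (nat_lit 90165) (nat_lit 12) .nil))))) .nil)))) (.nd (nat_lit 5) (.nd (nat_lit 6) 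
(.lf (nat_lit 101398) (.g (nat_lit 1232) (.e (nat_lit 7936) (nat_lit 200) (.e (nat_lit 557105) (nat_lit 14) (.e (nat_lit 180251) (nat_lit 10) (.e (nat_lit 573485) (nat_lit 13) .nil)))) .nil)) 
(.lf (nat_lit 101462) (.g (nat_lit 2191) (.e (nat_lit 3289) (nat_lit 201) (.e (nat_lit 565268) (nat_lit 5) (.e (nat_lit 73755) (nat_lit 8) (.e (nat_lit 557104) (nat_lit 14) (.e (nat_lit 180236) (nat_lit 1) .nil))))) .nil))) (.nd (nat_lit 6) 
(.lf (nat_lit 101430) (.g (nat_lit 3175) (.e (nat_lit 7936) (nat_lit 200) (.e (nat_lit 557109) (nat_lit 15) (.e (nat_lit 188452) (nat_lit 23) (.e (nat_lit 204846) (nat_lit 24) (.e (nat_lit 319535) (nat_lit 17) .nil))))) .nil)) 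
(.lf (nat_lit 101494) (.g (nat_lit 4333) (.e (nat_lit 3296) (nat_lit 202) (.e (nat_lit 573451) (nat_lit 9) (.e (nat_lit 1595) (nat_lit 111) (.e (nat_lit 360473) (nat_lit 8) (.e (nat_lit 557087) (nat_lit 11) (.e (nat_lit 24625) (nat_lit 9) (.e (nat_lit 336257) (nat_lit 15) .nil))))))) (.g (nat_lit 7) .nil .nil)))))) (.nd (nat_lit 4) (.nd (nat_lit 5) (.nd (nat_lit 6) 
(.lf (nat_lit 101390) (.g (nat_lit 1564) (.e (nat_lit 7936) (nat_lit 200) (.e (nat_lit 557103) (nat_lit 14) (.e (nat_lit 180250) (nat_lit 10) (.e (nat_lit 573488) (nat_lit 14) (.e (nat_lit 81664) (nat_lit 5) .nil))))) .nil)) 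
(.lf (nat_lit 101454) (.g (nat_lit 2229) (.e (nat_lit 3289) (nat_lit 201) (.e (nat_lit 565268) (nat_lit 5) (.e (nat_lit 73754) (nat_lit 8) (.e (nat_lit 557100) (nat_lit 13) (.e (nat_lit 172062) (nat_lit 2) .nil))))) .nil))) (.nd (nat_lit 6) 
(.lf (nat_lit 101422) (.g (nat_lit 2517) (.e (nat_lit 7936) (nat_lit 200) (.e (nat_lit 557108) (nat_lit 15) (.e (nat_lit 188452) (nat_lit 23) (.e (nat_lit 204863) (nat_lit 27) .nil)))) .nil)) 
(.lf (nat_lit 101486) (.g (nat_lit 3329) (.e (nat_lit 3295) (nat_lit 202) (.e (nat_lit 573492) (nat_lit 15) (.e (nat_lit 81956) (nat_lit 23) (.e (nat_lit 98319) (nat_lit 17) .nil)))) .nil)))) (.nd (nat_lit 5) (.nd (nat_lit 6) 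
(.lf (nat_lit 101406) (.g (nat_lit 2473) (.e (nat_lit 7936) (nat_lit 200) (.e (nat_lit 557105) (nat_lit 14) (.e (nat_lit 180252) (nat_lit 10) (.e (nat_lit 573482) (nat_lit 13) (.e (nat_lit 65644) (nat_lit 22) .nil))))) .nil)) 
(.lf (nat_lit 101470) (.g (nat_lit 590) (.e (nat_lit 3295) (nat_lit 202) (.e (nat_lit 573481) (nat_lit 13) (.e (nat_lit 65628) (nat_lit 14) .nil))) .nil))) (.nd (nat_lit 6) 
(.lf (nat_lit 101438) (.g (nat_lit 1573) (.e (nat_lit 7936) (nat_lit 200) (.e (nat_lit 557109) (nat_lit 15) (.e (nat_lit 188461) (nat_lit 26) (.e (nat_lit 253959) (nat_lit 9) .nil)))) .nil)) 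
(.lf (nat_lit 101502) (.g (nat_lit 1586) (.e (nat_lit 3296) (nat_lit 202) (.e (nat_lit 573482) (nat_lit 13) (.e (nat_lit 65624) (nat_lit 12) (.e (nat_lit 385074) (nat_lit 31) .nil)))) .nil)))))))) (.nd (nat_lit 1) (.nd (nat_lit 2) (.nd (nat_lit 3) (.nd (nat_lit 4) (.nd (nat_lit 5) (.nd (nat_lit 6) 
(.lf (nat_lit 101377) (.g (nat_lit 2191) (.e (nat_lit 7936) (nat_lit 200) (.e (nat_lit 557100) (nat_lit 13) (.e (nat_lit 172113) (nat_lit 10) (.e (nat_lit 434247) (nat_lit 28) (.e (nat_lit 573477) (nat_lit 12) .nil))))) .nil)) 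
(.lf (nat_lit 101441) (.g (nat_lit 1790) (.e (nat_lit 7936) (nat_lit 200) (.e (nat_lit 557109) (nat_lit 15) (.e (nat_lit 188461) (nat_lit 26) (.e (nat_lit 253985) (nat_lit 10) .nil)))) .nil))) (.nd (nat_lit 6) 
(.lf (nat_lit 101409) (.g (nat_lit 2368) (.e (nat_lit 7936) (nat_lit 200) (.e (nat_lit 557105) (nat_lit 14) (.e (nat_lit 180252) (nat_lit 10) (.e (nat_lit 573487) (nat_lit 14) (.e (nat_lit 73757) (nat_lit 11) .nil))))) .nil)) 
(.lf (nat_lit 101473) (.g (nat_lit 1948) (.e (nat_lit 3295) (nat_lit 202) (.e (nat_lit 573482) (nat_lit 13) (.e (nat_lit 65619) (nat_lit 10) (.e (nat_lit 344117) (nat_lit 21) (.e (nat_lit 516106) (nat_lit 0) .nil))))) .nil)))) (.nd (nat_lit 5) (.nd (nat_lit 6) 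
(.lf (nat_lit 101393) (.g (nat_lit 1681) (.e (nat_lit 7936) (nat_lit 200) (.e (nat_lit 557104) (nat_lit 14) (.e (nat_lit 180252) (nat_lit 10) (.e (nat_lit 573481) (nat_lit 13) (.e (nat_lit 65568) (nat_lit 2) .nil))))) .nil)) 
(.lf (nat_lit 101457) (.g (nat_lit 1233) (.e (nat_lit 3289) (nat_lit 201) (.e (nat_lit 565268) (nat_lit 5) (.e (nat_lit 73755) (nat_lit 8) (.e (nat_lit 557097) (nat_lit 13) .nil)))) .nil))) (.nd (nat_lit 6) 
(.lf (nat_lit 101425) (.g (nat_lit 1585) (.e (nat_lit 7936) (nat_lit 200) (.e (nat_lit 557109) (nat_lit 15) (.e (nat_lit 188446) (nat_lit 21) (.e (nat_lit 164177) (nat_lit 154) .nil)))) .nil)) 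
(.lf (nat_lit 101489) (.g (nat_lit 3178) (.e (nat_lit 3295) (nat_lit 202) (.e (nat_lit 573492) (nat_lit 15) (.e (nat_lit 81956) (nat_lit 23) (.e (nat_lit 98389) (nat_lit 33) .nil)))) .nil))))) (.nd (nat_lit 4) (.nd (nat_lit 5) (.nd (nat_lit 6) 
(.lf (nat_lit 101385) (.g (nat_lit 2246) (.e (nat_lit 7936) (nat_lit 200) (.e (nat_lit 557103) (nat_lit 14) (.e (nat_lit 180250) (nat_lit 10) (.e (nat_lit 573482) (nat_lit 13) (.e (nat_lit 65568) (nat_lit 2) .nil))))) .nil)) 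
(.lf (nat_lit 101449) (.g (nat_lit 941) (.e (nat_lit 3289) (nat_lit 201) (.e (nat_lit 565252) (nat_lit 0) (.e (nat_lit 1545) (nat_lit 109) (.e (nat_lit 344133) (nat_lit 26) (.e (nat_lit 557103) (nat_lit 14) .nil))))) .nil))) (.nd (nat_lit 6) 
(.lf (nat_lit 101417) (.g (nat_lit 1335) (.e (nat_lit 7936) (nat_lit 200) (.e (nat_lit 557107) (nat_lit 15) (.e (nat_lit 188459) (nat_lit 26) (.e (nat_lit 253986) (nat_lit 10) .nil)))) .nil)) 
(.lf (nat_lit 101481) (.g (nat_lit 1987) (.e (nat_lit 3295) (nat_lit 202) (.e (nat_lit 573485) (nat_lit 13) (.e (nat_lit 65619) (nat_lit 10) (.e (nat_lit 344129) (nat_lit 26) (.e (nat_lit 557065) (nat_lit 9) (.e (nat_lit 309) (nat_lit 23) (.e (nat_lit 352260) (nat_lit 0) .nil))))))) (.g (nat_lit 4) .nil .nil))))) (.nd (nat_lit 5) (.nd (nat_lit 6) 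
(.lf (nat_lit 101401) (.g (nat_lit 1663) (.e (nat_lit 7936) (nat_lit 200) (.e (nat_lit 557105) (nat_lit 14) (.e (nat_lit 180252) (nat_lit 10) (.e (nat_lit 573481) (nat_lit 13) .nil)))) .nil)) 
(.lf (nat_lit 101465) (.g (nat_lit 1951) (.e (nat_lit 3295) (nat_lit 202) (.e (nat_lit 573454) (nat_lit 9) (.e (nat_lit 1315) (nat_lit 98) (.e (nat_lit 147496) (nat_lit 11) (.e (nat_lit 24603) (nat_lit 2) .nil))))) .nil))) (.nd (nat_lit 6) 
(.lf (nat_lit 101433) (.g (nat_lit 3913) (.e (nat_lit 7936) (nat_lit 200) (.e (nat_lit 557109) (nat_lit 15) (.e (nat_lit 188452) (nat_lit 23) (.e (nat_lit 204872) (nat_lit 30) .nil)))) .nil)) 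
(.lf (nat_lit 101497) (.g (nat_lit 1270) (.e (nat_lit 3296) (nat_lit 202) (.e (nat_lit 573471) (nat_lit 11) (.e (nat_lit 16425) (nat_lit 7) .nil))) .nil)))))) (.nd (nat_lit 3) (.nd (nat_lit 4) (.nd (nat_lit 5) (.nd (nat_lit 6) 
(.lf (nat_lit 101381) (.g (nat_lit 1734) (.e (nat_lit 7936) (nat_lit 200) (.e (nat_lit 557103) (nat_lit 14) (.e (nat_lit 180243) (nat_lit 5) (.e (nat_lit 532513) (nat_lit 3) .nil)))) .nil)) 
(.lf (nat_lit 101445) (.g (nat_lit 478) (.e (nat_lit 3288) (nat_lit 201) (.e (nat_lit 565269) (nat_lit 6) (.e (nat_lit 89856) (nat_lit 19) .nil))) .nil))) (.nd (nat_lit 6) 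
(.lf (nat_lit 101413) (.g (nat_lit 2762) (.e (nat_lit 7936) (nat_lit 200) (.e (nat_lit 557105) (nat_lit 14) (.e (nat_lit 180252) (nat_lit 10) (.e (nat_lit 573488) (nat_lit 14) (.e (nat_lit 73757) (nat_lit 11) .nil))))) .nil)) 
(.lf (nat_lit 101477) (.g (nat_lit 1930) (.e (nat_lit 3295) (nat_lit 202) (.e (nat_lit 573484) (nat_lit 13) (.e (nat_lit 65617) (nat_lit 10) (.e (nat_lit 344130) (nat_lit 26) (.e (nat_lit 557087) (nat_lit 11) .nil))))) .nil)))) (.nd (nat_lit 5) (.nd (nat_lit 6) 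
(.lf (nat_lit 101397) (.g (nat_lit 1482) (.e (nat_lit 7936) (nat_lit 200) (.e (nat_lit 557105) (nat_lit 14) (.e (nat_lit 180251) (nat_lit 10) (.e (nat_lit 573479) (nat_lit 13) .nil)))) .nil)) 
(.lf (nat_lit 101461) (.g (nat_lit 1106) (.e (nat_lit 3289) (nat_lit 201) (.e (nat_lit 565268) (nat_lit 5) (.e (nat_lit 73755) (nat_lit 8) (.e (nat_lit 557103) (nat_lit 14) .nil)))) .nil))) (.nd (nat_lit 6) 
(.lf (nat_lit 101429) (.g (nat_lit 1874) (.e (nat_lit 7936) (nat_lit 200) (.e (nat_lit 557109) (nat_lit 15) (.e (nat_lit 188452) (nat_lit 23) (.e (nat_lit 204846) (nat_lit 24) .nil)))) .nil)) 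
(.lf (nat_lit 101493) (.g (nat_lit 2026) (.e (nat_lit 3296) (nat_lit 202) (.e (nat_lit 573451) (nat_lit 9) (.e (nat_lit 1595) (nat_lit 111) (.e (nat_lit 360467) (nat_lit 3) (.e (nat_lit 516183) (nat_lit 16) .nil))))) .nil))))) (.nd (nat_lit 4) (.nd (nat_lit 5) (.nd (nat_lit 6) 
(.lf (nat_lit 101389) (.g (nat_lit 2698) (.e (nat_lit 7936) (nat_lit 200) (.e (nat_lit 557103) (nat_lit 14) (.e (nat_lit 180250) (nat_lit 10) (.e (nat_lit 573487) (nat_lit 14) (.e (nat_lit 73757) (nat_lit 11) .nil))))) .nil)) 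
(.lf (nat_lit 101453) (.g (nat_lit 3164) (.e (nat_lit 3289) (nat_lit 201) (.e (nat_lit 565268) (nat_lit 5) (.e (nat_lit 73753) (nat_lit 8) (.e (nat_lit 557103) (nat_lit 14) (.e (nat_lit 180244) (nat_lit 5) (.e (nat_lit 532579) (nat_lit 26) (.e (nat_lit 426035) (nat_lit 0) .nil))))))) (.g (nat_lit 6) .nil .nil)))) (.nd (nat_lit 6) 
(.lf (nat_lit 101421) (.g (nat_lit 1911) (.e (nat_lit 7936) (nat_lit 200) (.e (nat_lit 557108) (nat_lit 15) (.e (nat_lit 188452) (nat_lit 23) (.e (nat_lit 204846) (nat_lit 24) .nil)))) .nil)) 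
(.lf (nat_lit 101485) (.g (nat_lit 1582) (.e (nat_lit 3295) (nat_lit 202) (.e (nat_lit 573485) (nat_lit 13) (.e (nat_lit 65630) (nat_lit 14) (.e (nat_lit 401428) (nat_lit 3) (.e (nat_lit 204866) (nat_lit 28) .nil))))) .nil)))) (.nd (nat_lit 5) (.nd (nat_lit 6) 
(.lf (nat_lit 101405) (.g (nat_lit 2436) (.e (nat_lit 7936) (nat_lit 200) (.e (nat_lit 557105) (nat_lit 14) (.e (nat_lit 180252) (nat_lit 10) (.e (nat_lit 573482) (nat_lit 13) (.e (nat_lit 73472) (nat_lit 17) .nil))))) .nil)) 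
(.lf (nat_lit 101469) (.g (nat_lit 2155) (.e (nat_lit 3295) (nat_lit 202) (.e (nat_lit 573481) (nat_lit 13) (.e (nat_lit 65619) (nat_lit 10) (.e (nat_lit 344129) (nat_lit 26) (.e (nat_lit 557066) (nat_lit 9) (.e (nat_lit 310) (nat_lit 23) (.e (nat_lit 352260) (nat_lit 0) .nil))))))) (.g (nat_lit 4) .nil .nil)))) (.nd (nat_lit 6) 
(.lf (nat_lit 101437) (.g (nat_lit 1549) (.e (nat_lit 7936) (nat_lit 200) (.e (nat_lit 557109) (nat_lit 15) (.e (nat_lit 188461) (nat_lit 26) (.e (nat_lit 261888) (nat_lit 0) .nil)))) .nil)) 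
(.lf (nat_lit 101501) (.g (nat_lit 2974) (.e (nat_lit 3296) (nat_lit 202) (.e (nat_lit 573482) (nat_lit 13) (.e (nat_lit 65619) (nat_lit 10) (.e (nat_lit 344129) (nat_lit 26) (.e (nat_lit 557066) (nat_lit 9) (.e (nat_lit 312) (nat_lit 23) (.e (nat_lit 360192) (nat_lit 0) .nil))))))) (.g (nat_lit 6) .nil .nil)))))))) 
(.nd (nat_lit 2) (.nd (nat_lit 3) (.nd (nat_lit 4) (.nd (nat_lit 5) (.nd (nat_lit 6) 
(.lf (nat_lit 101379) (.g (nat_lit 1907) (.e (nat_lit 7936) (nat_lit 200) (.e (nat_lit 557100) (nat_lit 13) (.e (nat_lit 172113) (nat_lit 10) (.e (nat_lit 434248) (nat_lit 28) (.e (nat_lit 573470) (nat_lit 11) .nil))))) .nil)) 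
(.lf (nat_lit 101443) (.g (nat_lit 1788) (.e (nat_lit 7936) (nat_lit 200) (.e (nat_lit 557109) (nat_lit 15) (.e (nat_lit 188461) (nat_lit 26) (.e (nat_lit 253987) (nat_lit 10) .nil)))) .nil))) (.nd (nat_lit 6) 
(.lf (nat_lit 101411) (.g (nat_lit 2918) (.e (nat_lit 7936) (nat_lit 200) (.e (nat_lit 557105) (nat_lit 14) (.e (nat_lit 180252) (nat_lit 10) (.e (nat_lit 573488) (nat_lit 14) (.e (nat_lit 81664) (nat_lit 1) .nil))))) .nil)) 
(.lf (nat_lit 101475) (.g (nat_lit 1745) (.e (nat_lit 3295) (nat_lit 202) (.e (nat_lit 573482) (nat_lit 13) (.e (nat_lit 65619) (nat_lit 10) (.e (nat_lit 344126) (nat_lit 25) (.e (nat_lit 548873) (nat_lit 5) .nil))))) .nil)))) (.nd (nat_lit 5) (.nd (nat_lit 6) 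
(.lf (nat_lit 101395) (.g (nat_lit 2240) (.e (nat_lit 7936) (nat_lit 200) (.e (nat_lit 557104) (nat_lit 14) (.e (nat_lit 180252) (nat_lit 10) (.e (nat_lit 573487) (nat_lit 14) (.e (nat_lit 81664) (nat_lit 5) .nil))))) .nil)) 
(.lf (nat_lit 101459) (.g (nat_lit 2461) (.e (nat_lit 3289) (nat_lit 201) (.e (nat_lit 565268) (nat_lit 5) (.e (nat_lit 73755) (nat_lit 8) (.e (nat_lit 557098) (nat_lit 13) (.e (nat_lit 172062) (nat_lit 2) .nil))))) .nil))) (.nd (nat_lit 6) 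
(.lf (nat_lit 101427) (.g (nat_lit 2634) (.e (nat_lit 7936) (nat_lit 200) (.e (nat_lit 557109) (nat_lit 15) (.e (nat_lit 188450) (nat_lit 23) (.e (nat_lit 204863) (nat_lit 27) .nil)))) .nil)) 
(.lf (nat_lit 101491) (.g (nat_lit 4121) (.e (nat_lit 3295) (nat_lit 202) (.e (nat_lit 573493) (nat_lit 15) (.e (nat_lit 81956) (nat_lit 23) (.e (nat_lit 98384) (nat_lit 32) .nil)))) .nil))))) (.nd (nat_lit 4) (.nd (nat_lit 5) (.nd (nat_lit 6) 
(.lf (nat_lit 101387) (.g (nat_lit 2148) (.e (nat_lit 7936) (nat_lit 200) (.e (nat_lit 557103) (nat_lit 14) (.e (nat_lit 180250) (nat_lit 10) (.e (nat_lit 573485) (nat_lit 13) (.e (nat_lit 65568) (nat_lit 2) .nil))))) .nil)) 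
(.lf (nat_lit 101451) (.g (nat_lit 711) (.e (nat_lit 3289) (nat_lit 201) (.e (nat_lit 565268) (nat_lit 5) (.e (nat_lit 73753) (nat_lit 8) (.e (nat_lit 557098) (nat_lit 13) .nil)))) .nil))) (.nd (nat_lit 6) 
(.lf (nat_lit 101419) (.g (nat_lit 1808) (.e (nat_lit 7936) (nat_lit 200) (.e (nat_lit 557108) (nat_lit 15) (.e (nat_lit 188446) (nat_lit 21) (.e (nat_lit 164177) (nat_lit 154) .nil)))) .nil)) 
(.lf (nat_lit 101483) (.g (nat_lit 1976) (.e (nat_lit 3295) (nat_lit 202) (.e (nat_lit 573485) (nat_lit 13) (.e (nat_lit 65619) (nat_lit 10) (.e (nat_lit 344129) (nat_lit 26) (.e (nat_lit 557074) (nat_lit 9) (.e (nat_lit 7936) (nat_lit 23) (.e (nat_lit 352261) (nat_lit 0) .nil))))))) (.g (nat_lit 4) .nil .nil))))) (.nd (nat_lit 5) (.nd (nat_lit 6) 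
(.lf (nat_lit 101403) (.g (nat_lit 2860) (.e (nat_lit 7936) (nat_lit 200) (.e (nat_lit 557105) (nat_lit 14) (.e (nat_lit 180252) (nat_lit 10) (.e (nat_lit 573482) (nat_lit 13) (.e (nat_lit 65631) (nat_lit 15) .nil))))) .nil)) 
(.lf (nat_lit 101467) (.g (nat_lit 1066) (.e (nat_lit 3295) (nat_lit 202) (.e (nat_lit 573480) (nat_lit 13) (.e (nat_lit 65630) (nat_lit 14) (.e (nat_lit 401428) (nat_lit 3) .nil)))) .nil))) (.nd (nat_lit 6) 
(.lf (nat_lit 101435) (.g (nat_lit 4242) (.e (nat_lit 7936) (nat_lit 200) (.e (nat_lit 557109) (nat_lit 15) (.e (nat_lit 188452) (nat_lit 23) (.e (nat_lit 204874) (nat_lit 30) .nil)))) .nil)) 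
(.lf (nat_lit 101499) (.g (nat_lit 734) (.e (nat_lit 3296) (nat_lit 202) (.e (nat_lit 573479) (nat_lit 13) (.e (nat_lit 65619) (nat_lit 10) (.e (nat_lit 344126) (nat_lit 25) .nil)))) .nil)))))) (.nd (nat_lit 3) (.nd (nat_lit 4) (.nd (nat_lit 5) (.nd (nat_lit 6) 
(.lf (nat_lit 101383) (.g (nat_lit 2064) (.e (nat_lit 7936) (nat_lit 200) (.e (nat_lit 557103) (nat_lit 14) (.e (nat_lit 180250) (nat_lit 10) (.e (nat_lit 573480) (nat_lit 13) (.e (nat_lit 65568) (nat_lit 2) .nil))))) .nil)) 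
(.lf (nat_lit 101447) (.g (nat_lit 728) (.e (nat_lit 3289) (nat_lit 201) (.e (nat_lit 565251) (nat_lit 0) (.e (nat_lit 1589) (nat_lit 111) (.e (nat_lit 360493) (nat_lit 27) (.e (nat_lit 819221) (nat_lit 6) .nil))))) .nil))) (.nd (nat_lit 6) 
(.lf (nat_lit 101415) (.g (nat_lit 2061) (.e (nat_lit 7936) (nat_lit 200) (.e (nat_lit 557105) (nat_lit 14) (.e (nat_lit 180252) (nat_lit 10) (.e (nat_lit 573489) (nat_lit 14) (.e (nat_lit 81664) (nat_lit 5) .nil))))) .nil)) 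
(.lf (nat_lit 101479) (.g (nat_lit 1603) (.e (nat_lit 3295) (nat_lit 202) (.e (nat_lit 573485) (nat_lit 13) (.e (nat_lit 65619) (nat_lit 10) (.e (nat_lit 344117) (nat_lit 21) (.e (nat_lit 516098) (nat_lit 0) .nil))))) .nil)))) (.nd (nat_lit 5) (.nd (nat_lit 6) 
(.lf (nat_lit 101399) (.g (nat_lit 3038) (.e (nat_lit 7936) (nat_lit 200) (.e (nat_lit 557105) (nat_lit 14) (.e (nat_lit 180252) (nat_lit 10) (.e (nat_lit 573451) (nat_lit 9) (.e (nat_lit 1449) (nat_lit 108) .nil))))) .nil)) 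
(.lf (nat_lit 101463) (.g (nat_lit 2561) (.e (nat_lit 3289) (nat_lit 201) (.e (nat_lit 565268) (nat_lit 5) (.e (nat_lit 73755) (nat_lit 8) (.e (nat_lit 557104) (nat_lit 14) (.e (nat_lit 180237) (nat_lit 1) .nil))))) .nil))) (.nd (nat_lit 6) 
(.lf (nat_lit 101431) (.g (nat_lit 4275) (.e (nat_lit 7936) (nat_lit 200) (.e (nat_lit 557109) (nat_lit 15) (.e (nat_lit 188452) (nat_lit 23) (.e (nat_lit 204861) (nat_lit 26) .nil)))) .nil)) 
(.lf (nat_lit 101495) (.g (nat_lit 2431) (.e (nat_lit 3296) (nat_lit 202) (.e (nat_lit 573454) (nat_lit 9) (.e (nat_lit 1315) (nat_lit 98) (.e (nat_lit 147495) (nat_lit 11) (.e (nat_lit 24601) (nat_lit 2) .nil))))) .nil))))) (.nd (nat_lit 4) (.nd (nat_lit 5) (.nd (nat_lit 6) 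
(.lf (nat_lit 101391) (.g (nat_lit 2320) (.e (nat_lit 7936) (nat_lit 200) (.e (nat_lit 557103) (nat_lit 14) (.e (nat_lit 180250) (nat_lit 10) (.e (nat_lit 573489) (nat_lit 14) (.e (nat_lit 73757) (nat_lit 11) .nil))))) .nil)) 
(.lf (nat_lit 101455) (.g (nat_lit 660) (.e (nat_lit 3289) (nat_lit 201) (.e (nat_lit 565268) (nat_lit 5) (.e (nat_lit 73754) (nat_lit 8) (.e (nat_lit 557101) (nat_lit 13) .nil)))) .nil))) (.nd (nat_lit 6) 
(.lf (nat_lit 101423) (.g (nat_lit 454) (.e (nat_lit 7936) (nat_lit 200) (.e (nat_lit 557109) (nat_lit 15) (.e (nat_lit 196352) (nat_lit 9) .nil))) .nil)) 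
(.lf (nat_lit 101487) (.g (nat_lit 3668) (.e (nat_lit 3295) (nat_lit 202) (.e (nat_lit 573492) (nat_lit 15) (.e (nat_lit 81956) (nat_lit 23) (.e (nat_lit 98384) (nat_lit 32) .nil)))) .nil)))) (.nd (nat_lit 5) (.nd (nat_lit 6) 
(.lf (nat_lit 101407) (.g (nat_lit 1849) (.e (nat_lit 7936) (nat_lit 200) (.e (nat_lit 557105) (nat_lit 14) (.e (nat_lit 180252) (nat_lit 10) (.e (nat_lit 573487) (nat_lit 14) (.e (nat_lit 81664) (nat_lit 1) .nil))))) .nil)) 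
(.lf (nat_lit 101471) (.g (nat_lit 1275) (.e (nat_lit 3295) (nat_lit 202) (.e (nat_lit 573482) (nat_lit 13) (.e (nat_lit 65604) (nat_lit 9) (.e (nat_lit 336013) (nat_lit 2) .nil)))) .nil))) (.nd (nat_lit 6) 
(.lf (nat_lit 101439) (.g (nat_lit 1544) (.e (nat_lit 7936) (nat_lit 200) (.e (nat_lit 557109) (nat_lit 15) (.e (nat_lit 188461) (nat_lit 26) (.e (nat_lit 253963) (nat_lit 9) .nil)))) .nil)) 
(.lf (nat_lit 101503) (.g (nat_lit 2897) (.e (nat_lit 3296) (nat_lit 202) (.e (nat_lit 573482) (nat_lit 13) (.e (nat_lit 65624) (nat_lit 12) (.e (nat_lit 385074) (nat_lit 31) (.e (nat_lit 573493) (nat_lit 15) .nil))))) .nil)))))))))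

noncomputable def tv1381 : DT := (.nd (nat_lit 0) (.nd (nat_lit 1) (.nd (nat_lit 2) (.nd (nat_lit 3) (.nd (nat_lit 4) (.nd (nat_lit 5) 
(.lf (nat_lit 101504) (.g (nat_lit 922) (.e (nat_lit 3296) (nat_lit 202) (.e (nat_lit 573482) (nat_lit 13) (.e (nat_lit 65630) (nat_lit 14) .nil))) .nil)) 
(.lf (nat_lit 101536) (.g (nat_lit 2590) (.e (nat_lit 3297) (nat_lit 202) (.e (nat_lit 573471) (nat_lit 11) (.e (nat_lit 16406) (nat_lit 1) (.e (nat_lit 164398) (nat_lit 256) (.e (nat_lit 57445) (nat_lit 19) (.e (nat_lit 393300) (nat_lit 27) (.e (nat_lit 491577) (nat_lit 15) .nil))))))) (.g (nat_lit 4) .nil .nil)))) (.nd (nat_lit 5) 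
(.lf (nat_lit 101520) (.g (nat_lit 4923) (.e (nat_lit 3297) (nat_lit 202) (.e (nat_lit 573451) (nat_lit 9) (.e (nat_lit 1595) (nat_lit 111) (.e (nat_lit 360467) (nat_lit 3) (.e (nat_lit 516179) (nat_lit 15) (.e (nat_lit 475210) (nat_lit 41) (.e (nat_lit 712719) (nat_lit 15) .nil))))))) (.g (nat_lit 6) .nil .nil))) 
(.lf (nat_lit 101552) (.g (nat_lit 2356) (.e (nat_lit 3297) (nat_lit 202) (.e (nat_lit 573471) (nat_lit 11) (.e (nat_lit 16425) (nat_lit 7) (.e (nat_lit 409623) (nat_lit 10) .nil)))) .nil)))) (.nd (nat_lit 4) (.nd (nat_lit 5) 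
(.lf (nat_lit 101512) (.g (nat_lit 586) (.e (nat_lit 3297) (nat_lit 202) (.e (nat_lit 573451) (nat_lit 9) (.e (nat_lit 1592) (nat_lit 111) .nil))) .nil)) 
(.lf (nat_lit 101544) (.g (nat_lit 4556) (.e (nat_lit 3297) (nat_lit 202) (.e (nat_lit 573471) (nat_lit 11) (.e (nat_lit 16406) (nat_lit 1) (.e (nat_lit 164401) (nat_lit 256) (.e (nat_lit 57447) (nat_lit 19) (.e (nat_lit 393301) (nat_lit 27) (.e (nat_lit 491577) (nat_lit 15) .nil))))))) (.g (nat_lit 6) .nil .nil)))) (.nd (nat_lit 5) 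
(.lf (nat_lit 101528) (.g (nat_lit 2260) (.e (nat_lit 3297) (nat_lit 202) (.e (nat_lit 573451) (nat_lit 9) (.e (nat_lit 1595) (nat_lit 111) (.e (nat_lit 360473) (nat_lit 8) (.e (nat_lit 557068) (nat_lit 9) .nil))))) .nil)) 
(.lf (nat_lit 101560) (.g (nat_lit 4169) (.e (nat_lit 3297) (nat_lit 202) (.e (nat_lit 573471) (nat_lit 11) (.e (nat_lit 16433) (nat_lit 9) (.e (nat_lit 426392) (nat_lit 15) .nil)))) .nil))))) (.nd (nat_lit 3) (.nd (nat_lit 4) (.nd (nat_lit 5) 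
(.lf (nat_lit 101508) (.g (nat_lit 1047) (.e (nat_lit 3297) (nat_lit 202) (.e (nat_lit 573449) (nat_lit 9) (.e (nat_lit 1598) (nat_lit 111) (.e (nat_lit 360466) (nat_lit 3) .nil)))) .nil)) 
(.lf (nat_lit 101540) (.g (nat_lit 3396) (.e (nat_lit 3297) (nat_lit 202) (.e (nat_lit 573471) (nat_lit 11) (.e (nat_lit 16406) (nat_lit 1) (.e (nat_lit 164399) (nat_lit 256) (.e (nat_lit 57447) (nat_lit 19) (.e (nat_lit 393300) (nat_lit 27) (.e (nat_lit 491577) (nat_lit 15) .nil))))))) (.g (nat_lit 5) .nil .nil)))) (.nd (nat_lit 5) 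
(.lf (nat_lit 101524) (.g (nat_lit 2323) (.e (nat_lit 3297) (nat_lit 202) (.e (nat_lit 573451) (nat_lit 9) (.e (nat_lit 1595) (nat_lit 111) (.e (nat_lit 360467) (nat_lit 3) (.e (nat_lit 516182) (nat_lit 15) (.e (nat_lit 475211) (nat_lit 41) (.e (nat_lit 712719) (nat_lit 15) .nil))))))) (.g (nat_lit 4) .nil .nil))) 
(.lf (nat_lit 101556) (.g (nat_lit 4254) (.e (nat_lit 3297) (nat_lit 202) (.e (nat_lit 573471) (nat_lit 11) (.e (nat_lit 16433) (nat_lit 9) (.e (nat_lit 426361) (nat_lit 15) .nil)))) .nil)))) (.nd (nat_lit 4) (.nd (nat_lit 5) 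
(.lf (nat_lit 101516) (.g (nat_lit 2097) (.e (nat_lit 3297) (nat_lit 202) (.e (nat_lit 573451) (nat_lit 9) (.e (nat_lit 1595) (nat_lit 111) (.e (nat_lit 360467) (nat_lit 3) (.e (nat_lit 516105) (nat_lit 0) .nil))))) .nil)) 
(.lf (nat_lit 101548) (.g (nat_lit 1965) (.e (nat_lit 3297) (nat_lit 202) (.e (nat_lit 573471) (nat_lit 11) (.e (nat_lit 16425) (nat_lit 7) (.e (nat_lit 409615) (nat_lit 10) .nil)))) .nil))) (.nd (nat_lit 5) 
(.lf (nat_lit 101532) (.g (nat_lit 771) (.e (nat_lit 3297) (nat_lit 202) (.e (nat_lit 573471) (nat_lit 11) (.e (nat_lit 16387) (nat_lit 0) .nil))) .nil)) 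
(.lf (nat_lit 101564) (.g (nat_lit 2684) (.e (nat_lit 3297) (nat_lit 202) (.e (nat_lit 573471) (nat_lit 11) (.e (nat_lit 16456) (nat_lit 12) (.e (nat_lit 475184) (nat_lit 29) (.e (nat_lit 557109) (nat_lit 15) .nil))))) .nil)))))) (.nd (nat_lit 2) (.nd (nat_lit 3) (.nd (nat_lit 4) (.nd (nat_lit 5) 
(.lf (nat_lit 101506) (.g (nat_lit 2879) (.e (nat_lit 3296) (nat_lit 202) (.e (nat_lit 573492) (nat_lit 15) (.e (nat_lit 81956) (nat_lit 23) (.e (nat_lit 98389) (nat_lit 33) .nil)))) .nil)) 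
(.lf (nat_lit 101538) (.g (nat_lit 3572) (.e (nat_lit 3297) (nat_lit 202) (.e (nat_lit 573471) (nat_lit 11) (.e (nat_lit 16406) (nat_lit 1) (.e (nat_lit 164398) (nat_lit 256) (.e (nat_lit 57448) (nat_lit 19) (.e (nat_lit 393301) (nat_lit 27) (.e (nat_lit 491577) (nat_lit 15) .nil))))))) (.g (nat_lit 5) .nil .nil)))) (.nd (nat_lit 5) 
(.lf (nat_lit 101522) (.g (nat_lit 2650) (.e (nat_lit 3297) (nat_lit 202) (.e (nat_lit 573451) (nat_lit 9) (.e (nat_lit 1595) (nat_lit 111) (.e (nat_lit 360467) (nat_lit 3) (.e (nat_lit 516181) (nat_lit 15) (.e (nat_lit 475209) (nat_lit 41) (.e (nat_lit 712719) (nat_lit 15) .nil))))))) (.g (nat_lit 4) .nil .nil))) 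
(.lf (nat_lit 101554) (.g (nat_lit 3947) (.e (nat_lit 3297) (nat_lit 202) (.e (nat_lit 573471) (nat_lit 11) (.e (nat_lit 16433) (nat_lit 9) (.e (nat_lit 426354) (nat_lit 15) .nil)))) .nil)))) (.nd (nat_lit 4) (.nd (nat_lit 5) 
(.lf (nat_lit 101514) (.g (nat_lit 2394) (.e (nat_lit 3297) (nat_lit 202) (.e (nat_lit 573451) (nat_lit 9) (.e (nat_lit 1595) (nat_lit 111) (.e (nat_lit 360466) (nat_lit 3) (.e (nat_lit 516183) (nat_lit 16) .nil))))) .nil)) 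
(.lf (nat_lit 101546) (.g (nat_lit 4252) (.e (nat_lit 3297) (nat_lit 202) (.e (nat_lit 573471) (nat_lit 11) (.e (nat_lit 16406) (nat_lit 1) (.e (nat_lit 164403) (nat_lit 256) (.e (nat_lit 57447) (nat_lit 19) (.e (nat_lit 393300) (nat_lit 27) (.e (nat_lit 491577) (nat_lit 15) .nil))))))) (.g (nat_lit 5) .nil .nil)))) (.nd (nat_lit 5) 
(.lf (nat_lit 101530) (.g (nat_lit 2332) (.e (nat_lit 3297) (nat_lit 202) (.e (nat_lit 573451) (nat_lit 9) (.e (nat_lit 1595) (nat_lit 111) (.e (nat_lit 360473) (nat_lit 8) (.e (nat_lit 557073) (nat_lit 9) .nil))))) .nil)) 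
(.lf (nat_lit 101562) (.g (nat_lit 3761) (.e (nat_lit 3297) (nat_lit 202) (.e (nat_lit 573471) (nat_lit 11) (.e (nat_lit 16455) (nat_lit 12) (.e (nat_lit 475185) (nat_lit 29) (.e (nat_lit 557109) (nat_lit 15) (.e (nat_lit 188434) (nat_lit 20) .nil)))))) (.g (nat_lit 4) .nil .nil)))))) (.nd (nat_lit 3) (.nd (nat_lit 4) (.nd (nat_lit 5) 
(.lf (nat_lit 101510) (.g (nat_lit 2049) (.e (nat_lit 3297) (nat_lit 202) (.e (nat_lit 573449) (nat_lit 9) (.e (nat_lit 1669) (nat_lit 116) (.e (nat_lit 401454) (nat_lit 12) (.e (nat_lit 483072) (nat_lit 2) .nil))))) .nil)) 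
(.lf (nat_lit 101542) (.g (nat_lit 2670) (.e (nat_lit 3297) (nat_lit 202) (.e (nat_lit 573471) (nat_lit 11) (.e (nat_lit 16406) (nat_lit 1) (.e (nat_lit 164399) (nat_lit 256) (.e (nat_lit 57448) (nat_lit 19) (.e (nat_lit 393301) (nat_lit 27) (.e (nat_lit 491577) (nat_lit 15) .nil))))))) (.g (nat_lit 4) .nil .nil)))) (.nd (nat_lit 5) 
(.lf (nat_lit 101526) (.g (nat_lit 4108) (.e (nat_lit 3297) (nat_lit 202) (.e (nat_lit 573451) (nat_lit 9) (.e (nat_lit 1595) (nat_lit 111) (.e (nat_lit 360467) (nat_lit 3) (.e (nat_lit 516184) (nat_lit 16) (.e (nat_lit 491549) (nat_lit 9) (.e (nat_lit 336306) (nat_lit 15) .nil))))))) (.g (nat_lit 7) .nil .nil))) 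
(.lf (nat_lit 101558) (.g (nat_lit 4373) (.e (nat_lit 3297) (nat_lit 202) (.e (nat_lit 573471) (nat_lit 11) (.e (nat_lit 16433) (nat_lit 9) (.e (nat_lit 426363) (nat_lit 15) (.e (nat_lit 1859) (nat_lit 124) .nil))))) .nil)))) (.nd (nat_lit 4) (.nd (nat_lit 5) 
(.lf (nat_lit 101518) (.g (nat_lit 2376) (.e (nat_lit 3297) (nat_lit 202) (.e (nat_lit 573451) (nat_lit 9) (.e (nat_lit 1595) (nat_lit 111) (.e (nat_lit 360467) (nat_lit 3) (.e (nat_lit 516144) (nat_lit 9) (.e (nat_lit 426364) (nat_lit 15) (.e (nat_lit 2160) (nat_lit 143) (.e (nat_lit 712719) (nat_lit 15) .nil)))))))) (.g (nat_lit 4) .nil .nil))) 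
(.lf (nat_lit 101550) (.g (nat_lit 2676) (.e (nat_lit 3297) (nat_lit 202) (.e (nat_lit 573471) (nat_lit 11) (.e (nat_lit 16425) (nat_lit 7) (.e (nat_lit 409617) (nat_lit 10) (.e (nat_lit 7936) (nat_lit 43) (.e (nat_lit 516163) (nat_lit 11) (.e (nat_lit 442408) (nat_lit 20) .nil))))))) (.g (nat_lit 4) .nil .nil)))) (.nd (nat_lit 5) 
(.lf (nat_lit 101534) (.g (nat_lit 3723) (.e (nat_lit 3297) (nat_lit 202) (.e (nat_lit 573471) (nat_lit 11) (.e (nat_lit 16405) (nat_lit 1) (.e (nat_lit 164398) (nat_lit 256) (.e (nat_lit 57447) (nat_lit 19) (.e (nat_lit 393301) (nat_lit 27) (.e (nat_lit 491577) (nat_lit 15) .nil))))))) (.g (nat_lit 5) .nil .nil))) 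
(.lf (nat_lit 101566) (.g (nat_lit 4032) (.e (nat_lit 3297) (nat_lit 202) (.e (nat_lit 573471) (nat_lit 11) (.e (nat_lit 16456) (nat_lit 12) (.e (nat_lit 475185) (nat_lit 29) (.e (nat_lit 557109) (nat_lit 15) .nil))))) .nil))))))) (.nd (nat_lit 1) (.nd (nat_lit 2) (.nd (nat_lit 3) (.nd (nat_lit 4) (.nd (nat_lit 5) 
(.lf (nat_lit 101505) (.g (nat_lit 1742) (.e (nat_lit 3296) (nat_lit 202) (.e (nat_lit 573485) (nat_lit 13) (.e (nat_lit 65604) (nat_lit 9) (.e (nat_lit 336013) (nat_lit 2) (.e (nat_lit 90165) (nat_lit 12) .nil))))) .nil)) 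
(.lf (nat_lit 101537) (.g (nat_lit 3946) (.e (nat_lit 3297) (nat_lit 202) (.e (nat_lit 573471) (nat_lit 11) (.e (nat_lit 16406) (nat_lit 1) (.e (nat_lit 164398) (nat_lit 256) (.e (nat_lit 57447) (nat_lit 19) (.e (nat_lit 393300) (nat_lit 27) (.e (nat_lit 491577) (nat_lit 15) .nil))))))) (.g (nat_lit 5) .nil .nil)))) (.nd (nat_lit 5) 
(.lf (nat_lit 101521) (.g (nat_lit 3977) (.e (nat_lit 3297) (nat_lit 202) (.e (nat_lit 573451) (nat_lit 9) (.e (nat_lit 1595) (nat_lit 111) (.e (nat_lit 360467) (nat_lit 3) (.e (nat_lit 516179) (nat_lit 15) (.e (nat_lit 475211) (nat_lit 41) (.e (nat_lit 712719) (nat_lit 15) .nil))))))) (.g (nat_lit 5) .nil .nil))) 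
(.lf (nat_lit 101553) (.g (nat_lit 771) (.e (nat_lit 3297) (nat_lit 202) (.e (nat_lit 573471) (nat_lit 11) (.e (nat_lit 16433) (nat_lit 9) .nil))) .nil)))) (.nd (nat_lit 4) (.nd (nat_lit 5) 
(.lf (nat_lit 101513) (.g (nat_lit 1577) (.e (nat_lit 3297) (nat_lit 202) (.e (nat_lit 573451) (nat_lit 9) (.e (nat_lit 1595) (nat_lit 111) (.e (nat_lit 360466) (nat_lit 3) .nil)))) .nil)) 
(.lf (nat_lit 101545) (.g (nat_lit 2753) (.e (nat_lit 3297) (nat_lit 202) (.e (nat_lit 573471) (nat_lit 11) (.e (nat_lit 16406) (nat_lit 1) (.e (nat_lit 164403) (nat_lit 256) (.e (nat_lit 57445) (nat_lit 19) (.e (nat_lit 393300) (nat_lit 27) (.e (nat_lit 491577) (nat_lit 15) .nil))))))) (.g (nat_lit 4) .nil .nil)))) (.nd (nat_lit 5) 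
(.lf (nat_lit 101529) (.g (nat_lit 2386) (.e (nat_lit 3297) (nat_lit 202) (.e (nat_lit 573451) (nat_lit 9) (.e (nat_lit 1595) (nat_lit 111) (.e (nat_lit 360473) (nat_lit 8) (.e (nat_lit 557072) (nat_lit 9) .nil))))) .nil)) 
(.lf (nat_lit 101561) (.g (nat_lit 1433) (.e (nat_lit 3297) (nat_lit 202) (.e (nat_lit 573471) (nat_lit 11) (.e (nat_lit 16455) (nat_lit 12) (.e (nat_lit 475185) (nat_lit 29) .nil)))) .nil))))) (.nd (nat_lit 3) (.nd (nat_lit 4) (.nd (nat_lit 5) 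
(.lf (nat_lit 101509) (.g (nat_lit 459) (.e (nat_lit 3297) (nat_lit 202) (.e (nat_lit 573449) (nat_lit 9) (.e (nat_lit 1615) (nat_lit 113) .nil))) .nil)) 
(.lf (nat_lit 101541) (.g (nat_lit 3628) (.e (nat_lit 3297) (nat_lit 202) (.e (nat_lit 573471) (nat_lit 11) (.e (nat_lit 16406) (nat_lit 1) (.e (nat_lit 164399) (nat_lit 256) (.e (nat_lit 57447) (nat_lit 19) (.e (nat_lit 393301) (nat_lit 27) (.e (nat_lit 491577) (nat_lit 15) .nil))))))) (.g (nat_lit 5) .nil .nil)))) (.nd (nat_lit 5) 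
(.lf (nat_lit 101525) (.g (nat_lit 3606) (.e (nat_lit 3297) (nat_lit 202) (.e (nat_lit 573451) (nat_lit 9) (.e (nat_lit 1595) (nat_lit 111) (.e (nat_lit 360467) (nat_lit 3) (.e (nat_lit 516183) (nat_lit 16) (.e (nat_lit 491549) (nat_lit 9) (.e (nat_lit 336306) (nat_lit 15) .nil))))))) (.g (nat_lit 6) .nil .nil))) 
(.lf (nat_lit 101557) (.g (nat_lit 4143) (.e (nat_lit 3297) (nat_lit 202) (.e (nat_lit 573471) (nat_lit 11) (.e (nat_lit 16433) (nat_lit 9) (.e (nat_lit 426363) (nat_lit 15) .nil)))) .nil)))) (.nd (nat_lit 4) (.nd (nat_lit 5) 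
(.lf (nat_lit 101517) (.g (nat_lit 2240) (.e (nat_lit 3297) (nat_lit 202) (.e (nat_lit 573451) (nat_lit 9) (.e (nat_lit 1595) (nat_lit 111) (.e (nat_lit 360467) (nat_lit 3) (.e (nat_lit 516105) (nat_lit 0) (.e (nat_lit 7562) (nat_lit 402) (.e (nat_lit 1427) (nat_lit 108) (.e (nat_lit 336306) (nat_lit 15) .nil)))))))) (.g (nat_lit 4) .nil .nil))) 
(.lf (nat_lit 101549) (.g (nat_lit 2635) (.e (nat_lit 3297) (nat_lit 202) (.e (nat_lit 573471) (nat_lit 11) (.e (nat_lit 16425) (nat_lit 7) (.e (nat_lit 409617) (nat_lit 10) (.e (nat_lit 7936) (nat_lit 43) (.e (nat_lit 516163) (nat_lit 11) (.e (nat_lit 442407) (nat_lit 20) .nil))))))) (.g (nat_lit 4) .nil .nil)))) (.nd (nat_lit 5) 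
(.lf (nat_lit 101533) (.g (nat_lit 1988) (.e (nat_lit 3297) (nat_lit 202) (.e (nat_lit 573471) (nat_lit 11) (.e (nat_lit 16388) (nat_lit 0) (.e (nat_lit 7545) (nat_lit 402) .nil)))) .nil)) 
(.lf (nat_lit 101565) (.g (nat_lit 2142) (.e (nat_lit 3297) (nat_lit 202) (.e (nat_lit 573471) (nat_lit 11) (.e (nat_lit 16456) (nat_lit 12) (.e (nat_lit 475185) (nat_lit 29) .nil)))) .nil)))))) (.nd (nat_lit 2) (.nd (nat_lit 3) (.nd (nat_lit 4) (.nd (nat_lit 5) 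
(.lf (nat_lit 101507) (.g (nat_lit 2093) (.e (nat_lit 3297) (nat_lit 202) (.e (nat_lit 573449) (nat_lit 9) (.e (nat_lit 1588) (nat_lit 111) (.e (nat_lit 360475) (nat_lit 8) (.e (nat_lit 557086) (nat_lit 11) .nil))))) .nil)) 
(.lf (nat_lit 101539) (.g (nat_lit 2665) (.e (nat_lit 3297) (nat_lit 202) (.e (nat_lit 573471) (nat_lit 11) (.e (nat_lit 16406) (nat_lit 1) (.e (nat_lit 164399) (nat_lit 256) (.e (nat_lit 57445) (nat_lit 19) (.e (nat_lit 393300) (nat_lit 27) (.e (nat_lit 491577) (nat_lit 15) .nil))))))) (.g (nat_lit 4) .nil .nil)))) (.nd (nat_lit 5) 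
(.lf (nat_lit 101523) (.g (nat_lit 3421) (.e (nat_lit 3297) (nat_lit 202) (.e (nat_lit 573451) (nat_lit 9) (.e (nat_lit 1595) (nat_lit 111) (.e (nat_lit 360467) (nat_lit 3) (.e (nat_lit 516182) (nat_lit 15) (.e (nat_lit 475209) (nat_lit 41) (.e (nat_lit 712719) (nat_lit 15) .nil))))))) (.g (nat_lit 6) .nil .nil))) 
(.lf (nat_lit 101555) (.g (nat_lit 3812) (.e (nat_lit 3297) (nat_lit 202) (.e (nat_lit 573471) (nat_lit 11) (.e (nat_lit 16433) (nat_lit 9) (.e (nat_lit 426360) (nat_lit 15) .nil)))) .nil)))) (.nd (nat_lit 4) (.nd (nat_lit 5) 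
(.lf (nat_lit 101515) (.g (nat_lit 1061) (.e (nat_lit 3297) (nat_lit 202) (.e (nat_lit 573451) (nat_lit 9) (.e (nat_lit 1595) (nat_lit 111) (.e (nat_lit 360467) (nat_lit 3) .nil)))) .nil)) 
(.lf (nat_lit 101547) (.g (nat_lit 4050) (.e (nat_lit 3297) (nat_lit 202) (.e (nat_lit 573471) (nat_lit 11) (.e (nat_lit 16406) (nat_lit 1) (.e (nat_lit 164403) (nat_lit 256) (.e (nat_lit 57447) (nat_lit 19) (.e (nat_lit 393301) (nat_lit 27) (.e (nat_lit 491577) (nat_lit 15) .nil))))))) (.g (nat_lit 5) .nil .nil)))) (.nd (nat_lit 5) 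
(.lf (nat_lit 101531) (.g (nat_lit 3870) (.e (nat_lit 3297) (nat_lit 202) (.e (nat_lit 573451) (nat_lit 9) (.e (nat_lit 1595) (nat_lit 111) (.e (nat_lit 360473) (nat_lit 8) (.e (nat_lit 557086) (nat_lit 11) (.e (nat_lit 24630) (nat_lit 9) (.e (nat_lit 336306) (nat_lit 15) .nil))))))) (.g (nat_lit 6) .nil .nil))) 
(.lf (nat_lit 101563) (.g (nat_lit 2189) (.e (nat_lit 3297) (nat_lit 202) (.e (nat_lit 573471) (nat_lit 11) (.e (nat_lit 16456) (nat_lit 12) (.e (nat_lit 475183) (nat_lit 29) .nil)))) .nil))))) (.nd (nat_lit 3) (.nd (nat_lit 4) (.nd (nat_lit 5) 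
(.lf (nat_lit 101511) (.g (nat_lit 618) (.e (nat_lit 3297) (nat_lit 202) (.e (nat_lit 573450) (nat_lit 9) (.e (nat_lit 1615) (nat_lit 113) .nil))) .nil)) 
(.lf (nat_lit 101543) (.g (nat_lit 4107) (.e (nat_lit 3297) (nat_lit 202) (.e (nat_lit 573471) (nat_lit 11) (.e (nat_lit 16406) (nat_lit 1) (.e (nat_lit 164401) (nat_lit 256) (.e (nat_lit 57447) (nat_lit 19) (.e (nat_lit 393300) (nat_lit 27) (.e (nat_lit 491577) (nat_lit 15) .nil))))))) (.g (nat_lit 6) .nil .nil)))) (.nd (nat_lit 5) 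
(.lf (nat_lit 101527) (.g (nat_lit 1439) (.e (nat_lit 3297) (nat_lit 202) (.e (nat_lit 573451) (nat_lit 9) (.e (nat_lit 1595) (nat_lit 111) (.e (nat_lit 360473) (nat_lit 8) .nil)))) .nil)) 
(.lf (nat_lit 101559) (.g (nat_lit 4135) (.e (nat_lit 3297) (nat_lit 202) (.e (nat_lit 573471) (nat_lit 11) (.e (nat_lit 16433) (nat_lit 9) (.e (nat_lit 426364) (nat_lit 15) .nil)))) .nil)))) (.nd (nat_lit 4) (.nd (nat_lit 5) 
(.lf (nat_lit 101519) (.g (nat_lit 3802) (.e (nat_lit 3297) (nat_lit 202) (.e (nat_lit 573451) (nat_lit 9) (.e (nat_lit 1595) (nat_lit 111) (.e (nat_lit 360467) (nat_lit 3) (.e (nat_lit 516179) (nat_lit 15) (.e (nat_lit 475208) (nat_lit 41) (.e (nat_lit 712719) (nat_lit 15) .nil))))))) (.g (nat_lit 5) .nil .nil))) 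
(.lf (nat_lit 101551) (.g (nat_lit 1916) (.e (nat_lit 3297) (nat_lit 202) (.e (nat_lit 573471) (nat_lit 11) (.e (nat_lit 16425) (nat_lit 7) (.e (nat_lit 409622) (nat_lit 10) .nil)))) .nil))) (.nd (nat_lit 5) 
(.lf (nat_lit 101535) (.g (nat_lit 3222) (.e (nat_lit 3297) (nat_lit 202) (.e (nat_lit 573471) (nat_lit 11) (.e (nat_lit 16405) (nat_lit 1) (.e (nat_lit 164398) (nat_lit 256) (.e (nat_lit 57448) (nat_lit 19) (.e (nat_lit 393301) (nat_lit 27) (.e (nat_lit 491577) (nat_lit 15) .nil))))))) (.g (nat_lit 4) .nil .nil))) 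
(.lf (nat_lit 101567) (.g (nat_lit 753) (.e (nat_lit 3297) (nat_lit 202) (.e (nat_lit 573471) (nat_lit 11) (.e (nat_lit 16458) (nat_lit 12) .nil))) .nil))))))))

noncomputable def tv1382 : DT := (.nd (nat_lit 0) (.nd (nat_lit 1) (.nd (nat_lit 2) (.nd (nat_lit 3) (.nd (nat_lit 4) (.nd (nat_lit 5) 
(.lf (nat_lit 101568) (.g (nat_lit 1617) (.e (nat_lit 3297) (nat_lit 202) (.e (nat_lit 573471) (nat_lit 11) (.e (nat_lit 16458) (nat_lit 12) (.e (nat_lit 475184) (nat_lit 29) (.e (nat_lit 557109) (nat_lit 15) .nil))))) .nil)) 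
(.lf (nat_lit 101600) (.g (nat_lit 2315) (.e (nat_lit 3297) (nat_lit 202) (.e (nat_lit 573481) (nat_lit 13) (.e (nat_lit 65619) (nat_lit 10) (.e (nat_lit 344117) (nat_lit 21) (.e (nat_lit 516097) (nat_lit 0) (.e (nat_lit 7513) (nat_lit 402) (.e (nat_lit 1427) (nat_lit 108) (.e (nat_lit 336306) (nat_lit 15) .nil)))))))) (.g (nat_lit 4) .nil .nil)))) (.nd (nat_lit 5) 
(.lf (nat_lit 101584) (.g (nat_lit 1887) (.e (nat_lit 3297) (nat_lit 202) (.e (nat_lit 573481) (nat_lit 13) (.e (nat_lit 65604) (nat_lit 9) (.e (nat_lit 336013) (nat_lit 2) (.e (nat_lit 90165) (nat_lit 12) (.e (nat_lit 164236) (nat_lit 187) (.e (nat_lit 1515) (nat_lit 108) (.e (nat_lit 343808) (nat_lit 15) .nil)))))))) (.g (nat_lit 4) .nil .nil))) 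
(.lf (nat_lit 101616) (.g (nat_lit 2694) (.e (nat_lit 3297) (nat_lit 202) (.e (nat_lit 573481) (nat_lit 13) (.e (nat_lit 65619) (nat_lit 10) (.e (nat_lit 344126) (nat_lit 25) (.e (nat_lit 548873) (nat_lit 5) (.e (nat_lit 1575) (nat_lit 110) (.e (nat_lit 360192) (nat_lit 0) .nil))))))) (.g (nat_lit 6) .nil .nil))))) (.nd (nat_lit 4) (.nd (nat_lit 5) 
(.lf (nat_lit 101576) (.g (nat_lit 2439) (.e (nat_lit 3297) (nat_lit 202) (.e (nat_lit 573479) (nat_lit 13) (.e (nat_lit 65619) (nat_lit 10) (.e (nat_lit 344117) (nat_lit 21) (.e (nat_lit 516106) (nat_lit 0) (.e (nat_lit 7556) (nat_lit 402) (.e (nat_lit 1427) (nat_lit 108) (.e (nat_lit 336306) (nat_lit 15) .nil)))))))) (.g (nat_lit 5) .nil .nil))) 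
(.lf (nat_lit 101608) (.g (nat_lit 4176) (.e (nat_lit 3297) (nat_lit 202) (.e (nat_lit 573481) (nat_lit 13) (.e (nat_lit 65619) (nat_lit 10) (.e (nat_lit 344117) (nat_lit 21) (.e (nat_lit 516106) (nat_lit 0) (.e (nat_lit 7556) (nat_lit 402) (.e (nat_lit 1425) (nat_lit 108) (.e (nat_lit 336306) (nat_lit 15) .nil)))))))) (.g (nat_lit 0) .nil .nil)))) (.nd (nat_lit 5) 
(.lf (nat_lit 101592) (.g (nat_lit 3682) (.e (nat_lit 3297) (nat_lit 202) (.e (nat_lit 573481) (nat_lit 13) (.e (nat_lit 65604) (nat_lit 9) (.e (nat_lit 336013) (nat_lit 2) (.e (nat_lit 90165) (nat_lit 12) (.e (nat_lit 164238) (nat_lit 187) (.e (nat_lit 1425) (nat_lit 108) (.e (nat_lit 336306) (nat_lit 15) .nil)))))))) (.g (nat_lit 0) .nil .nil))) 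
(.lf (nat_lit 101624) (.g (nat_lit 3354) (.e (nat_lit 3297) (nat_lit 202) (.e (nat_lit 573481) (nat_lit 13) (.e (nat_lit 65619) (nat_lit 10) (.e (nat_lit 344129) (nat_lit 26) (.e (nat_lit 557065) (nat_lit 9) (.e (nat_lit 290) (nat_lit 21) (.e (nat_lit 336086) (nat_lit 9) (.e (nat_lit 336306) (nat_lit 15) .nil)))))))) (.g (nat_lit 5) .nil .nil)))))) 
(.nd (nat_lit 3) (.nd (nat_lit 4) (.nd (nat_lit 5) 
(.lf (nat_lit 101572) (.g (nat_lit 3944) (.e (nat_lit 3297) (nat_lit 202) (.e (nat_lit 573471) (nat_lit 11) (.e (nat_lit 16470) (nat_lit 14) (.e (nat_lit 491536) (nat_lit 2) .nil)))) .nil)) 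
(.lf (nat_lit 101604) (.g (nat_lit 3142) (.e (nat_lit 3297) (nat_lit 202) (.e (nat_lit 573481) (nat_lit 13) (.e (nat_lit 65619) (nat_lit 10) (.e (nat_lit 344117) (nat_lit 21) (.e (nat_lit 516106) (nat_lit 0) (.e (nat_lit 7550) (nat_lit 402) (.e (nat_lit 1515) (nat_lit 108) (.e (nat_lit 336305) (nat_lit 15) .nil)))))))) (.g (nat_lit 5) .nil .nil)))) (.nd (nat_lit 5) 
(.lf (nat_lit 101588) (.g (nat_lit 2958) (.e (nat_lit 3297) (nat_lit 202) (.e (nat_lit 573481) (nat_lit 13) (.e (nat_lit 65604) (nat_lit 9) (.e (nat_lit 336013) (nat_lit 2) (.e (nat_lit 90165) (nat_lit 12) (.e (nat_lit 164237) (nat_lit 187) (.e (nat_lit 1515) (nat_lit 108) (.e (nat_lit 336305) (nat_lit 15) .nil)))))))) (.g (nat_lit 5) .nil .nil))) 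
(.lf (nat_lit 101620) (.g (nat_lit 3622) (.e (nat_lit 3297) (nat_lit 202) (.e (nat_lit 573481) (nat_lit 13) (.e (nat_lit 65619) (nat_lit 10) (.e (nat_lit 344126) (nat_lit 25) (.e (nat_lit 548874) (nat_lit 5) (.e (nat_lit 1572) (nat_lit 110) (.e (nat_lit 360192) (nat_lit 0) .nil))))))) (.g (nat_lit 6) .nil .nil))))) (.nd (nat_lit 4) (.nd (nat_lit 5) 
(.lf (nat_lit 101580) (.g (nat_lit 1870) (.e (nat_lit 3297) (nat_lit 202) (.e (nat_lit 573479) (nat_lit 13) (.e (nat_lit 65619) (nat_lit 10) (.e (nat_lit 344117) (nat_lit 21) (.e (nat_lit 516184) (nat_lit 16) (.e (nat_lit 491549) (nat_lit 9) (.e (nat_lit 336306) (nat_lit 15) .nil))))))) (.g (nat_lit 4) .nil .nil))) 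
(.lf (nat_lit 101612) (.g (nat_lit 2794) (.e (nat_lit 3297) (nat_lit 202) (.e (nat_lit 573481) (nat_lit 13) (.e (nat_lit 65619) (nat_lit 10) (.e (nat_lit 344126) (nat_lit 25) (.e (nat_lit 548872) (nat_lit 5) (.e (nat_lit 1575) (nat_lit 110) (.e (nat_lit 360192) (nat_lit 0) .nil))))))) (.g (nat_lit 6) .nil .nil)))) (.nd (nat_lit 5) 
(.lf (nat_lit 101596) (.g (nat_lit 3621) (.e (nat_lit 3297) (nat_lit 202) (.e (nat_lit 573481) (nat_lit 13) (.e (nat_lit 65604) (nat_lit 9) (.e (nat_lit 336013) (nat_lit 2) (.e (nat_lit 90165) (nat_lit 12) (.e (nat_lit 164239) (nat_lit 187) (.e (nat_lit 1426) (nat_lit 108) (.e (nat_lit 336306) (nat_lit 15) .nil)))))))) (.g (nat_lit 0) .nil .nil))) 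
(.lf (nat_lit 101628) (.g (nat_lit 3287) (.e (nat_lit 3297) (nat_lit 202) (.e (nat_lit 573481) (nat_lit 13) (.e (nat_lit 65619) (nat_lit 10) (.e (nat_lit 344129) (nat_lit 26) (.e (nat_lit 557066) (nat_lit 9) (.e (nat_lit 312) (nat_lit 23) (.e (nat_lit 360192) (nat_lit 0) .nil))))))) (.g (nat_lit 6) .nil .nil))))))) (.nd (nat_lit 2) (.nd (nat_lit 3) (.nd (nat_lit 4) (.nd (nat_lit 5) 
(.lf (nat_lit 101570) (.g (nat_lit 804) (.e (nat_lit 3297) (nat_lit 202) (.e (nat_lit 573471) (nat_lit 11) (.e (nat_lit 16461) (nat_lit 12) .nil))) .nil)) 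
(.lf (nat_lit 101602) (.g (nat_lit 3285) (.e (nat_lit 3297) (nat_lit 202) (.e (nat_lit 573481) (nat_lit 13) (.e (nat_lit 65619) (nat_lit 10) (.e (nat_lit 344117) (nat_lit 21) (.e (nat_lit 516097) (nat_lit 0) (.e (nat_lit 7562) (nat_lit 402) (.e (nat_lit 1427) (nat_lit 108) (.e (nat_lit 336306) (nat_lit 15) .nil)))))))) (.g (nat_lit 5) .nil .nil)))) (.nd (nat_lit 5) 
(.lf (nat_lit 101586) (.g (nat_lit 1783) (.e (nat_lit 3297) (nat_lit 202) (.e (nat_lit 573481) (nat_lit 13) (.e (nat_lit 65604) (nat_lit 9) (.e (nat_lit 336013) (nat_lit 2) (.e (nat_lit 90165) (nat_lit 12) (.e (nat_lit 164236) (nat_lit 187) (.e (nat_lit 1517) (nat_lit 108) (.e (nat_lit 343808) (nat_lit 15) .nil)))))))) (.g (nat_lit 4) .nil .nil))) 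
(.lf (nat_lit 101618) (.g (nat_lit 1838) (.e (nat_lit 3297) (nat_lit 202) (.e (nat_lit 573481) (nat_lit 13) (.e (nat_lit 65619) (nat_lit 10) (.e (nat_lit 344126) (nat_lit 25) (.e (nat_lit 548874) (nat_lit 5) (.e (nat_lit 1562) (nat_lit 110) (.e (nat_lit 360192) (nat_lit 0) .nil))))))) (.g (nat_lit 4) .nil .nil))))) (.nd (nat_lit 4) (.nd (nat_lit 5) 
(.lf (nat_lit 101578) (.g (nat_lit 1775) (.e (nat_lit 3297) (nat_lit 202) (.e (nat_lit 573479) (nat_lit 13) (.e (nat_lit 65619) (nat_lit 10) (.e (nat_lit 344117) (nat_lit 21) (.e (nat_lit 516183) (nat_lit 16) (.e (nat_lit 491549) (nat_lit 9) (.e (nat_lit 336306) (nat_lit 15) .nil))))))) (.g (nat_lit 4) .nil .nil))) 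
(.lf (nat_lit 101610) (.g (nat_lit 4542) (.e (nat_lit 3297) (nat_lit 202) (.e (nat_lit 573481) (nat_lit 13) (.e (nat_lit 65619) (nat_lit 10) (.e (nat_lit 344117) (nat_lit 21) (.e (nat_lit 516106) (nat_lit 0) (.e (nat_lit 7556) (nat_lit 402) (.e (nat_lit 1428) (nat_lit 108) (.e (nat_lit 336306) (nat_lit 15) .nil)))))))) (.g (nat_lit 0) .nil .nil)))) (.nd (nat_lit 5) 
(.lf (nat_lit 101594) (.g (nat_lit 4064) (.e (nat_lit 3297) (nat_lit 202) (.e (nat_lit 573481) (nat_lit 13) (.e (nat_lit 65604) (nat_lit 9) (.e (nat_lit 336013) (nat_lit 2) (.e (nat_lit 90165) (nat_lit 12) (.e (nat_lit 164238) (nat_lit 187) (.e (nat_lit 1428) (nat_lit 108) (.e (nat_lit 336306) (nat_lit 15) .nil)))))))) (.g (nat_lit 0) .nil .nil))) 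
(.lf (nat_lit 101626) (.g (nat_lit 2947) (.e (nat_lit 3297) (nat_lit 202) (.e (nat_lit 573481) (nat_lit 13) (.e (nat_lit 65619) (nat_lit 10) (.e (nat_lit 344129) (nat_lit 26) (.e (nat_lit 557066) (nat_lit 9) (.e (nat_lit 309) (nat_lit 23) (.e (nat_lit 360192) (nat_lit 0) .nil))))))) (.g (nat_lit 5) .nil .nil)))))) (.nd (nat_lit 3) (.nd (nat_lit 4) (.nd (nat_lit 5) 
(.lf (nat_lit 101574) (.g (nat_lit 2089) (.e (nat_lit 3297) (nat_lit 202) (.e (nat_lit 573471) (nat_lit 11) (.e (nat_lit 16473) (nat_lit 14) (.e (nat_lit 491536) (nat_lit 2) .nil)))) .nil)) 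
(.lf (nat_lit 101606) (.g (nat_lit 3188) (.e (nat_lit 3297) (nat_lit 202) (.e (nat_lit 573481) (nat_lit 13) (.e (nat_lit 65619) (nat_lit 10) (.e (nat_lit 344117) (nat_lit 21) (.e (nat_lit 516106) (nat_lit 0) (.e (nat_lit 7550) (nat_lit 402) (.e (nat_lit 1516) (nat_lit 108) (.e (nat_lit 343808) (nat_lit 15) .nil)))))))) (.g (nat_lit 7) .nil .nil)))) (.nd (nat_lit 5) 
(.lf (nat_lit 101590) (.g (nat_lit 3004) (.e (nat_lit 3297) (nat_lit 202) (.e (nat_lit 573481) (nat_lit 13) (.e (nat_lit 65604) (nat_lit 9) (.e (nat_lit 336013) (nat_lit 2) (.e (nat_lit 90165) (nat_lit 12) (.e (nat_lit 164237) (nat_lit 187) (.e (nat_lit 1516) (nat_lit 108) (.e (nat_lit 343808) (nat_lit 15) .nil)))))))) (.g (nat_lit 7) .nil .nil))) 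
(.lf (nat_lit 101622) (.g (nat_lit 2022) (.e (nat_lit 3297) (nat_lit 202) (.e (nat_lit 573481) (nat_lit 13) (.e (nat_lit 65619) (nat_lit 10) (.e (nat_lit 344129) (nat_lit 26) (.e (nat_lit 557065) (nat_lit 9) (.e (nat_lit 249) (nat_lit 21) (.e (nat_lit 336085) (nat_lit 9) (.e (nat_lit 336306) (nat_lit 15) .nil)))))))) (.g (nat_lit 4) .nil .nil))))) (.nd (nat_lit 4) (.nd (nat_lit 5) 
(.lf (nat_lit 101582) (.g (nat_lit 3285) (.e (nat_lit 3297) (nat_lit 202) (.e (nat_lit 573481) (nat_lit 13) (.e (nat_lit 65604) (nat_lit 9) (.e (nat_lit 336013) (nat_lit 2) (.e (nat_lit 90165) (nat_lit 12) (.e (nat_lit 164236) (nat_lit 187) (.e (nat_lit 1512) (nat_lit 108) (.e (nat_lit 336305) (nat_lit 15) .nil)))))))) (.g (nat_lit 6) .nil .nil))) 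
(.lf (nat_lit 101614) (.g (nat_lit 2575) (.e (nat_lit 3297) (nat_lit 202) (.e (nat_lit 573481) (nat_lit 13) (.e (nat_lit 65619) (nat_lit 10) (.e (nat_lit 344126) (nat_lit 25) (.e (nat_lit 548873) (nat_lit 5) (.e (nat_lit 1569) (nat_lit 110) (.e (nat_lit 360192) (nat_lit 0) .nil))))))) (.g (nat_lit 5) .nil .nil)))) (.nd (nat_lit 5) 
(.lf (nat_lit 101598) (.g (nat_lit 3703) (.e (nat_lit 3297) (nat_lit 202) (.e (nat_lit 573481) (nat_lit 13) (.e (nat_lit 65604) (nat_lit 9) (.e (nat_lit 336013) (nat_lit 2) (.e (nat_lit 90165) (nat_lit 12) (.e (nat_lit 164239) (nat_lit 187) (.e (nat_lit 1428) (nat_lit 108) (.e (nat_lit 336306) (nat_lit 15) .nil)))))))) (.g (nat_lit 0) .nil .nil))) 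
(.lf (nat_lit 101630) (.g (nat_lit 3218) (.e (nat_lit 3297) (nat_lit 202) (.e (nat_lit 573481) (nat_lit 13) (.e (nat_lit 65619) (nat_lit 10) (.e (nat_lit 344129) (nat_lit 26) (.e (nat_lit 557074) (nat_lit 9) (.e (nat_lit 284) (nat_lit 21) (.e (nat_lit 336076) (nat_lit 9) (.e (nat_lit 336306) (nat_lit 15) .nil)))))))) (.g (nat_lit 5) .nil .nil)))))))) 
(.nd (nat_lit 1) (.nd (nat_lit 2) (.nd (nat_lit 3) (.nd (nat_lit 4) (.nd (nat_lit 5) 
(.lf (nat_lit 101569) (.g (nat_lit 3612) (.e (nat_lit 3297) (nat_lit 202) (.e (nat_lit 573471) (nat_lit 11) (.e (nat_lit 16459) (nat_lit 12) (.e (nat_lit 475185) (nat_lit 29) (.e (nat_lit 557109) (nat_lit 15) .nil))))) .nil)) 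
(.lf (nat_lit 101601) (.g (nat_lit 2341) (.e (nat_lit 3297) (nat_lit 202) (.e (nat_lit 573481) (nat_lit 13) (.e (nat_lit 65619) (nat_lit 10) (.e (nat_lit 344117) (nat_lit 21) (.e (nat_lit 516097) (nat_lit 0) (.e (nat_lit 7516) (nat_lit 402) (.e (nat_lit 1427) (nat_lit 108) (.e (nat_lit 336306) (nat_lit 15) .nil)))))))) (.g (nat_lit 4) .nil .nil)))) (.nd (nat_lit 5) 
(.lf (nat_lit 101585) (.g (nat_lit 3190) (.e (nat_lit 3297) (nat_lit 202) (.e (nat_lit 573481) (nat_lit 13) (.e (nat_lit 65604) (nat_lit 9) (.e (nat_lit 336013) (nat_lit 2) (.e (nat_lit 90165) (nat_lit 12) (.e (nat_lit 164236) (nat_lit 187) (.e (nat_lit 1516) (nat_lit 108) (.e (nat_lit 343808) (nat_lit 15) .nil)))))))) (.g (nat_lit 7) .nil .nil))) 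
(.lf (nat_lit 101617) (.g (nat_lit 3163) (.e (nat_lit 3297) (nat_lit 202) (.e (nat_lit 573481) (nat_lit 13) (.e (nat_lit 65619) (nat_lit 10) (.e (nat_lit 344126) (nat_lit 25) (.e (nat_lit 548874) (nat_lit 5) (.e (nat_lit 1559) (nat_lit 110) (.e (nat_lit 360192) (nat_lit 0) .nil))))))) (.g (nat_lit 6) .nil .nil))))) (.nd (nat_lit 4) (.nd (nat_lit 5) 
(.lf (nat_lit 101577) (.g (nat_lit 1609) (.e (nat_lit 3297) (nat_lit 202) (.e (nat_lit 573479) (nat_lit 13) (.e (nat_lit 65619) (nat_lit 10) (.e (nat_lit 344117) (nat_lit 21) (.e (nat_lit 516180) (nat_lit 15) (.e (nat_lit 475209) (nat_lit 41) (.e (nat_lit 712719) (nat_lit 15) .nil))))))) (.g (nat_lit 4) .nil .nil))) 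
(.lf (nat_lit 101609) (.g (nat_lit 4786) (.e (nat_lit 3297) (nat_lit 202) (.e (nat_lit 573481) (nat_lit 13) (.e (nat_lit 65619) (nat_lit 10) (.e (nat_lit 344117) (nat_lit 21) (.e (nat_lit 516106) (nat_lit 0) (.e (nat_lit 7556) (nat_lit 402) (.e (nat_lit 1427) (nat_lit 108) (.e (nat_lit 336306) (nat_lit 15) .nil)))))))) (.g (nat_lit 0) .nil .nil)))) (.nd (nat_lit 5) 
(.lf (nat_lit 101593) (.g (nat_lit 4810) (.e (nat_lit 3297) (nat_lit 202) (.e (nat_lit 573481) (nat_lit 13) (.e (nat_lit 65604) (nat_lit 9) (.e (nat_lit 336013) (nat_lit 2) (.e (nat_lit 90165) (nat_lit 12) (.e (nat_lit 164238) (nat_lit 187) (.e (nat_lit 1427) (nat_lit 108) (.e (nat_lit 336306) (nat_lit 15) .nil)))))))) (.g (nat_lit 0) .nil .nil))) 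
(.lf (nat_lit 101625) (.g (nat_lit 3742) (.e (nat_lit 3297) (nat_lit 202) (.e (nat_lit 573481) (nat_lit 13) (.e (nat_lit 65619) (nat_lit 10) (.e (nat_lit 344129) (nat_lit 26) (.e (nat_lit 557066) (nat_lit 9) (.e (nat_lit 232) (nat_lit 21) (.e (nat_lit 336089) (nat_lit 9) (.e (nat_lit 336306) (nat_lit 15) .nil)))))))) (.g (nat_lit 6) .nil .nil)))))) 
(.nd (nat_lit 3) (.nd (nat_lit 4) (.nd (nat_lit 5) 
(.lf (nat_lit 101573) (.g (nat_lit 905) (.e (nat_lit 3297) (nat_lit 202) (.e (nat_lit 573471) (nat_lit 11) (.e (nat_lit 16471) (nat_lit 14) .nil))) .nil)) 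
(.lf (nat_lit 101605) (.g (nat_lit 3129) (.e (nat_lit 3297) (nat_lit 202) (.e (nat_lit 573481) (nat_lit 13) (.e (nat_lit 65619) (nat_lit 10) (.e (nat_lit 344117) (nat_lit 21) (.e (nat_lit 516106) (nat_lit 0) (.e (nat_lit 7550) (nat_lit 402) (.e (nat_lit 1516) (nat_lit 108) (.e (nat_lit 336305) (nat_lit 15) .nil)))))))) (.g (nat_lit 5) .nil .nil)))) (.nd (nat_lit 5) 
(.lf (nat_lit 101589) (.g (nat_lit 2934) (.e (nat_lit 3297) (nat_lit 202) (.e (nat_lit 573481) (nat_lit 13) (.e (nat_lit 65604) (nat_lit 9) (.e (nat_lit 336013) (nat_lit 2) (.e (nat_lit 90165) (nat_lit 12) (.e (nat_lit 164237) (nat_lit 187) (.e (nat_lit 1516) (nat_lit 108) (.e (nat_lit 336305) (nat_lit 15) .nil)))))))) (.g (nat_lit 5) .nil .nil))) 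
(.lf (nat_lit 101621) (.g (nat_lit 3221) (.e (nat_lit 3297) (nat_lit 202) (.e (nat_lit 573481) (nat_lit 13) (.e (nat_lit 65619) (nat_lit 10) (.e (nat_lit 344126) (nat_lit 25) (.e (nat_lit 548874) (nat_lit 5) (.e (nat_lit 1575) (nat_lit 110) (.e (nat_lit 360192) (nat_lit 0) .nil))))))) (.g (nat_lit 6) .nil .nil))))) (.nd (nat_lit 4) (.nd (nat_lit 5) 
(.lf (nat_lit 101581) (.g (nat_lit 1584) (.e (nat_lit 3297) (nat_lit 202) (.e (nat_lit 573479) (nat_lit 13) (.e (nat_lit 65619) (nat_lit 10) (.e (nat_lit 344117) (nat_lit 21) (.e (nat_lit 516184) (nat_lit 16) (.e (nat_lit 491550) (nat_lit 9) (.e (nat_lit 336306) (nat_lit 15) .nil))))))) (.g (nat_lit 4) .nil .nil))) 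
(.lf (nat_lit 101613) (.g (nat_lit 2613) (.e (nat_lit 3297) (nat_lit 202) (.e (nat_lit 573481) (nat_lit 13) (.e (nat_lit 65619) (nat_lit 10) (.e (nat_lit 344126) (nat_lit 25) (.e (nat_lit 548873) (nat_lit 5) (.e (nat_lit 1559) (nat_lit 110) (.e (nat_lit 360192) (nat_lit 0) .nil))))))) (.g (nat_lit 6) .nil .nil)))) (.nd (nat_lit 5) 
(.lf (nat_lit 101597) (.g (nat_lit 4118) (.e (nat_lit 3297) (nat_lit 202) (.e (nat_lit 573481) (nat_lit 13) (.e (nat_lit 65604) (nat_lit 9) (.e (nat_lit 336013) (nat_lit 2) (.e (nat_lit 90165) (nat_lit 12) (.e (nat_lit 164239) (nat_lit 187) (.e (nat_lit 1427) (nat_lit 108) (.e (nat_lit 336306) (nat_lit 15) .nil)))))))) (.g (nat_lit 0) .nil .nil))) 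
(.lf (nat_lit 101629) (.g (nat_lit 2940) (.e (nat_lit 3297) (nat_lit 202) (.e (nat_lit 573481) (nat_lit 13) (.e (nat_lit 65619) (nat_lit 10) (.e (nat_lit 344129) (nat_lit 26) (.e (nat_lit 557074) (nat_lit 9) (.e (nat_lit 278) (nat_lit 21) (.e (nat_lit 336154) (nat_lit 9) (.e (nat_lit 336305) (nat_lit 15) .nil)))))))) (.g (nat_lit 5) .nil .nil))))))) 
(.nd (nat_lit 2) (.nd (nat_lit 3) (.nd (nat_lit 4) (.nd (nat_lit 5) 
(.lf (nat_lit 101571) (.g (nat_lit 1456) (.e (nat_lit 3297) (nat_lit 202) (.e (nat_lit 573471) (nat_lit 11) (.e (nat_lit 16461) (nat_lit 12) (.e (nat_lit 475184) (nat_lit 29) .nil)))) .nil)) 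
(.lf (nat_lit 101603) (.g (nat_lit 2872) (.e (nat_lit 3297) (nat_lit 202) (.e (nat_lit 573481) (nat_lit 13) (.e (nat_lit 65619) (nat_lit 10) (.e (nat_lit 344117) (nat_lit 21) (.e (nat_lit 516098) (nat_lit 0) (.e (nat_lit 7545) (nat_lit 402) (.e (nat_lit 1416) (nat_lit 108) (.e (nat_lit 336306) (nat_lit 15) .nil)))))))) (.g (nat_lit 5) .nil .nil)))) (.nd (nat_lit 5) 
(.lf (nat_lit 101587) (.g (nat_lit 1788) (.e (nat_lit 3297) (nat_lit 202) (.e (nat_lit 573481) (nat_lit 13) (.e (nat_lit 65604) (nat_lit 9) (.e (nat_lit 336013) (nat_lit 2) (.e (nat_lit 90165) (nat_lit 12) (.e (nat_lit 164237) (nat_lit 187) (.e (nat_lit 1512) (nat_lit 108) (.e (nat_lit 343808) (nat_lit 15) .nil)))))))) (.g (nat_lit 4) .nil .nil))) 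
(.lf (nat_lit 101619) (.g (nat_lit 2979) (.e (nat_lit 3297) (nat_lit 202) (.e (nat_lit 573481) (nat_lit 13) (.e (nat_lit 65619) (nat_lit 10) (.e (nat_lit 344126) (nat_lit 25) (.e (nat_lit 548874) (nat_lit 5) (.e (nat_lit 1569) (nat_lit 110) (.e (nat_lit 360192) (nat_lit 0) .nil))))))) (.g (nat_lit 5) .nil .nil))))) (.nd (nat_lit 4) (.nd (nat_lit 5) 
(.lf (nat_lit 101579) (.g (nat_lit 1539) (.e (nat_lit 3297) (nat_lit 202) (.e (nat_lit 573479) (nat_lit 13) (.e (nat_lit 65619) (nat_lit 10) (.e (nat_lit 344117) (nat_lit 21) (.e (nat_lit 516183) (nat_lit 16) (.e (nat_lit 491550) (nat_lit 9) (.e (nat_lit 336306) (nat_lit 15) .nil))))))) (.g (nat_lit 4) .nil .nil))) 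
(.lf (nat_lit 101611) (.g (nat_lit 2472) (.e (nat_lit 3297) (nat_lit 202) (.e (nat_lit 573481) (nat_lit 13) (.e (nat_lit 65619) (nat_lit 10) (.e (nat_lit 344126) (nat_lit 25) (.e (nat_lit 548872) (nat_lit 5) (.e (nat_lit 1569) (nat_lit 110) (.e (nat_lit 360192) (nat_lit 0) .nil))))))) (.g (nat_lit 5) .nil .nil)))) (.nd (nat_lit 5) 
(.lf (nat_lit 101595) (.g (nat_lit 3396) (.e (nat_lit 3297) (nat_lit 202) (.e (nat_lit 573481) (nat_lit 13) (.e (nat_lit 65604) (nat_lit 9) (.e (nat_lit 336013) (nat_lit 2) (.e (nat_lit 90165) (nat_lit 12) (.e (nat_lit 164239) (nat_lit 187) (.e (nat_lit 1425) (nat_lit 108) (.e (nat_lit 336306) (nat_lit 15) .nil)))))))) (.g (nat_lit 0) .nil .nil))) 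
(.lf (nat_lit 101627) (.g (nat_lit 3520) (.e (nat_lit 3297) (nat_lit 202) (.e (nat_lit 573481) (nat_lit 13) (.e (nat_lit 65619) (nat_lit 10) (.e (nat_lit 344129) (nat_lit 26) (.e (nat_lit 557066) (nat_lit 9) (.e (nat_lit 310) (nat_lit 23) (.e (nat_lit 360192) (nat_lit 0) .nil))))))) (.g (nat_lit 6) .nil .nil)))))) (.nd (nat_lit 3) (.nd (nat_lit 4) (.nd (nat_lit 5) 
(.lf (nat_lit 101575) (.g (nat_lit 1692) (.e (nat_lit 3297) (nat_lit 202) (.e (nat_lit 573479) (nat_lit 13) (.e (nat_lit 65619) (nat_lit 10) (.e (nat_lit 344117) (nat_lit 21) (.e (nat_lit 516106) (nat_lit 0) (.e (nat_lit 7008) (nat_lit 377) (.e (nat_lit 2789) (nat_lit 179) (.e (nat_lit 294966) (nat_lit 15) .nil)))))))) (.g (nat_lit 4) .nil .nil))) 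
(.lf (nat_lit 101607) (.g (nat_lit 3126) (.e (nat_lit 3297) (nat_lit 202) (.e (nat_lit 573481) (nat_lit 13) (.e (nat_lit 65619) (nat_lit 10) (.e (nat_lit 344117) (nat_lit 21) (.e (nat_lit 516106) (nat_lit 0) (.e (nat_lit 7550) (nat_lit 402) (.e (nat_lit 1517) (nat_lit 108) (.e (nat_lit 336305) (nat_lit 15) .nil)))))))) (.g (nat_lit 5) .nil .nil)))) (.nd (nat_lit 5) 
(.lf (nat_lit 101591) (.g (nat_lit 2904) (.e (nat_lit 3297) (nat_lit 202) (.e (nat_lit 573481) (nat_lit 13) (.e (nat_lit 65604) (nat_lit 9) (.e (nat_lit 336013) (nat_lit 2) (.e (nat_lit 90165) (nat_lit 12) (.e (nat_lit 164237) (nat_lit 187) (.e (nat_lit 1517) (nat_lit 108) (.e (nat_lit 336305) (nat_lit 15) .nil)))))))) (.g (nat_lit 5) .nil .nil))) 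
(.lf (nat_lit 101623) (.g (nat_lit 3407) (.e (nat_lit 3297) (nat_lit 202) (.e (nat_lit 573481) (nat_lit 13) (.e (nat_lit 65619) (nat_lit 10) (.e (nat_lit 344129) (nat_lit 26) (.e (nat_lit 557065) (nat_lit 9) (.e (nat_lit 290) (nat_lit 21) (.e (nat_lit 336078) (nat_lit 9) (.e (nat_lit 336306) (nat_lit 15) .nil)))))))) (.g (nat_lit 5) .nil .nil))))) (.nd (nat_lit 4) (.nd (nat_lit 5) 
(.lf (nat_lit 101583) (.g (nat_lit 1975) (.e (nat_lit 3297) (nat_lit 202) (.e (nat_lit 573481) (nat_lit 13) (.e (nat_lit 65604) (nat_lit 9) (.e (nat_lit 336013) (nat_lit 2) (.e (nat_lit 90165) (nat_lit 12) (.e (nat_lit 164236) (nat_lit 187) (.e (nat_lit 1512) (nat_lit 108) (.e (nat_lit 343808) (nat_lit 15) .nil)))))))) (.g (nat_lit 4) .nil .nil))) 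
(.lf (nat_lit 101615) (.g (nat_lit 2896) (.e (nat_lit 3297) (nat_lit 202) (.e (nat_lit 573481) (nat_lit 13) (.e (nat_lit 65619) (nat_lit 10) (.e (nat_lit 344126) (nat_lit 25) (.e (nat_lit 548873) (nat_lit 5) (.e (nat_lit 1572) (nat_lit 110) (.e (nat_lit 360192) (nat_lit 0) .nil))))))) (.g (nat_lit 6) .nil .nil)))) (.nd (nat_lit 5) 
(.lf (nat_lit 101599) (.g (nat_lit 2333) (.e (nat_lit 3297) (nat_lit 202) (.e (nat_lit 573481) (nat_lit 13) (.e (nat_lit 65619) (nat_lit 10) (.e (nat_lit 344117) (nat_lit 21) (.e (nat_lit 516097) (nat_lit 0) (.e (nat_lit 7511) (nat_lit 402) (.e (nat_lit 1427) (nat_lit 108) (.e (nat_lit 336306) (nat_lit 15) .nil)))))))) (.g (nat_lit 4) .nil .nil))) 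
(.lf (nat_lit 101631) (.g (nat_lit 4657) (.e (nat_lit 3297) (nat_lit 202) (.e (nat_lit 573481) (nat_lit 13) (.e (nat_lit 65619) (nat_lit 10) (.e (nat_lit 344129) (nat_lit 26) (.e (nat_lit 557074) (nat_lit 9) (.e (nat_lit 284) (nat_lit 21) (.e (nat_lit 336078) (nat_lit 9) (.e (nat_lit 336306) (nat_lit 15) .nil)))))))) (.g (nat_lit 7) .nil .nil)))))))))

noncomputable def tv1383 : DT := (.nd (nat_lit 0) (.nd (nat_lit 1) (.nd (nat_lit 2) (.nd (nat_lit 3) (.nd (nat_lit 4) (.nd (nat_lit 5) 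
(.lf (nat_lit 101632) (.g (nat_lit 2599) (.e (nat_lit 3297) (nat_lit 202) (.e (nat_lit 573481) (nat_lit 13) (.e (nat_lit 65619) (nat_lit 10) (.e (nat_lit 344129) (nat_lit 26) (.e (nat_lit 557074) (nat_lit 9) (.e (nat_lit 7936) (nat_lit 23) (.e (nat_lit 360192) (nat_lit 0) .nil))))))) (.g (nat_lit 5) .nil .nil))) 
(.lf (nat_lit 101664) (.g (nat_lit 2686) (.e (nat_lit 3297) (nat_lit 202) (.e (nat_lit 573492) (nat_lit 15) (.e (nat_lit 81953) (nat_lit 22) (.e (nat_lit 90165) (nat_lit 12) (.e (nat_lit 164239) (nat_lit 187) (.e (nat_lit 1425) (nat_lit 108) (.e (nat_lit 336306) (nat_lit 15) .nil))))))) (.g (nat_lit 0) .nil .nil)))) (.nd (nat_lit 5) 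
(.lf (nat_lit 101648) (.g (nat_lit 2424) (.e (nat_lit 3297) (nat_lit 202) (.e (nat_lit 573491) (nat_lit 15) (.e (nat_lit 81951) (nat_lit 22) (.e (nat_lit 90165) (nat_lit 12) (.e (nat_lit 164239) (nat_lit 187) (.e (nat_lit 1425) (nat_lit 108) (.e (nat_lit 336306) (nat_lit 15) .nil))))))) (.g (nat_lit 0) .nil .nil))) 
(.lf (nat_lit 101680) (.g (nat_lit 446) (.e (nat_lit 3298) (nat_lit 202) (.e (nat_lit 573471) (nat_lit 11) (.e (nat_lit 16425) (nat_lit 7) .nil))) .nil)))) (.nd (nat_lit 4) (.nd (nat_lit 5) 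
(.lf (nat_lit 101640) (.g (nat_lit 2215) (.e (nat_lit 3297) (nat_lit 202) (.e (nat_lit 573491) (nat_lit 15) (.e (nat_lit 81951) (nat_lit 22) (.e (nat_lit 90165) (nat_lit 12) (.e (nat_lit 164236) (nat_lit 187) (.e (nat_lit 1516) (nat_lit 108) (.e (nat_lit 343808) (nat_lit 15) .nil))))))) (.g (nat_lit 6) .nil .nil))) 
(.lf (nat_lit 101672) (.g (nat_lit 5683) (.e (nat_lit 3297) (nat_lit 202) (.e (nat_lit 573493) (nat_lit 15) (.e (nat_lit 81956) (nat_lit 23) (.e (nat_lit 98389) (nat_lit 33) .nil)))) .nil))) (.nd (nat_lit 5) 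
(.lf (nat_lit 101656) (.g (nat_lit 2263) (.e (nat_lit 3297) (nat_lit 202) (.e (nat_lit 573492) (nat_lit 15) (.e (nat_lit 81953) (nat_lit 22) (.e (nat_lit 90165) (nat_lit 12) (.e (nat_lit 164237) (nat_lit 187) (.e (nat_lit 1512) (nat_lit 108) (.e (nat_lit 336305) (nat_lit 15) .nil))))))) (.g (nat_lit 4) .nil .nil))) 
(.lf (nat_lit 101688) (.g (nat_lit 4040) (.e (nat_lit 3298) (nat_lit 202) (.e (nat_lit 573471) (nat_lit 11) (.e (nat_lit 16470) (nat_lit 14) (.e (nat_lit 491536) (nat_lit 2) .nil)))) .nil))))) (.nd (nat_lit 3) (.nd (nat_lit 4) (.nd (nat_lit 5) 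
(.lf (nat_lit 101636) (.g (nat_lit 3200) (.e (nat_lit 3297) (nat_lit 202) (.e (nat_lit 573484) (nat_lit 13) (.e (nat_lit 65610) (nat_lit 10) (.e (nat_lit 344117) (nat_lit 21) (.e (nat_lit 516179) (nat_lit 15) .nil))))) .nil)) 
(.lf (nat_lit 101668) (.g (nat_lit 1944) (.e (nat_lit 3297) (nat_lit 202) (.e (nat_lit 573492) (nat_lit 15) (.e (nat_lit 81956) (nat_lit 23) (.e (nat_lit 98384) (nat_lit 32) .nil)))) .nil))) (.nd (nat_lit 5) 
(.lf (nat_lit 101652) (.g (nat_lit 1170) (.e (nat_lit 3297) (nat_lit 202) (.e (nat_lit 573491) (nat_lit 15) (.e (nat_lit 81954) (nat_lit 23) (.e (nat_lit 98385) (nat_lit 32) .nil)))) .nil)) 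
(.lf (nat_lit 101684) (.g (nat_lit 2150) (.e (nat_lit 3298) (nat_lit 202) (.e (nat_lit 573471) (nat_lit 11) (.e (nat_lit 16425) (nat_lit 7) (.e (nat_lit 409617) (nat_lit 10) (.e (nat_lit 7936) (nat_lit 43) .nil))))) .nil)))) (.nd (nat_lit 4) (.nd (nat_lit 5) 
(.lf (nat_lit 101644) (.g (nat_lit 1971) (.e (nat_lit 3297) (nat_lit 202) (.e (nat_lit 573491) (nat_lit 15) (.e (nat_lit 81951) (nat_lit 22) (.e (nat_lit 90165) (nat_lit 12) (.e (nat_lit 164237) (nat_lit 187) (.e (nat_lit 1517) (nat_lit 108) (.e (nat_lit 336305) (nat_lit 15) .nil))))))) (.g (nat_lit 4) .nil .nil))) 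
(.lf (nat_lit 101676) (.g (nat_lit 1889) (.e (nat_lit 3298) (nat_lit 202) (.e (nat_lit 573451) (nat_lit 9) (.e (nat_lit 1595) (nat_lit 111) (.e (nat_lit 360467) (nat_lit 3) (.e (nat_lit 516184) (nat_lit 16) .nil))))) .nil))) (.nd (nat_lit 5) 
(.lf (nat_lit 101660) (.g (nat_lit 2123) (.e (nat_lit 3297) (nat_lit 202) (.e (nat_lit 573492) (nat_lit 15) (.e (nat_lit 81953) (nat_lit 22) (.e (nat_lit 90165) (nat_lit 12) (.e (nat_lit 164237) (nat_lit 187) (.e (nat_lit 1517) (nat_lit 108) (.e (nat_lit 336305) (nat_lit 15) .nil))))))) (.g (nat_lit 4) .nil .nil))) 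
(.lf (nat_lit 101692) (.g (nat_lit 2912) (.e (nat_lit 3298) (nat_lit 202) (.e (nat_lit 573481) (nat_lit 13) (.e (nat_lit 65604) (nat_lit 9) (.e (nat_lit 336013) (nat_lit 2) (.e (nat_lit 90165) (nat_lit 12) (.e (nat_lit 164236) (nat_lit 187) (.e (nat_lit 1516) (nat_lit 108) (.e (nat_lit 343808) (nat_lit 15) .nil)))))))) (.g (nat_lit 7) .nil .nil))))))) 
(.nd (nat_lit 2) (.nd (nat_lit 3) (.nd (nat_lit 4) (.nd (nat_lit 5) 
(.lf (nat_lit 101634) (.g (nat_lit 1056) (.e (nat_lit 3297) (nat_lit 202) (.e (nat_lit 573482) (nat_lit 13) (.e (nat_lit 65619) (nat_lit 10) .nil))) .nil)) 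
(.lf (nat_lit 101666) (.g (nat_lit 3412) (.e (nat_lit 3297) (nat_lit 202) (.e (nat_lit 573492) (nat_lit 15) (.e (nat_lit 81953) (nat_lit 22) (.e (nat_lit 90165) (nat_lit 12) (.e (nat_lit 164239) (nat_lit 187) (.e (nat_lit 1427) (nat_lit 108) (.e (nat_lit 336306) (nat_lit 15) .nil))))))) (.g (nat_lit 0) .nil .nil)))) (.nd (nat_lit 5) 
(.lf (nat_lit 101650) (.g (nat_lit 3152) (.e (nat_lit 3297) (nat_lit 202) (.e (nat_lit 573491) (nat_lit 15) (.e (nat_lit 81951) (nat_lit 22) (.e (nat_lit 90165) (nat_lit 12) (.e (nat_lit 164239) (nat_lit 187) (.e (nat_lit 1427) (nat_lit 108) (.e (nat_lit 336306) (nat_lit 15) .nil))))))) (.g (nat_lit 0) .nil .nil))) 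
(.lf (nat_lit 101682) (.g (nat_lit 3024) (.e (nat_lit 3298) (nat_lit 202) (.e (nat_lit 573471) (nat_lit 11) (.e (nat_lit 16425) (nat_lit 7) (.e (nat_lit 409616) (nat_lit 10) (.e (nat_lit 7936) (nat_lit 43) (.e (nat_lit 516163) (nat_lit 11) (.e (nat_lit 442392) (nat_lit 20) .nil))))))) (.g (nat_lit 4) .nil .nil))))) (.nd (nat_lit 4) (.nd (nat_lit 5) 
(.lf (nat_lit 101642) (.g (nat_lit 2001) (.e (nat_lit 3297) (nat_lit 202) (.e (nat_lit 573491) (nat_lit 15) (.e (nat_lit 81951) (nat_lit 22) (.e (nat_lit 90165) (nat_lit 12) (.e (nat_lit 164237) (nat_lit 187) (.e (nat_lit 1516) (nat_lit 108) (.e (nat_lit 336305) (nat_lit 15) .nil))))))) (.g (nat_lit 4) .nil .nil))) 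
(.lf (nat_lit 101674) (.g (nat_lit 2174) (.e (nat_lit 3298) (nat_lit 202) (.e (nat_lit 573451) (nat_lit 9) (.e (nat_lit 1595) (nat_lit 111) (.e (nat_lit 360467) (nat_lit 3) (.e (nat_lit 516100) (nat_lit 0) (.e (nat_lit 7562) (nat_lit 402) (.e (nat_lit 1427) (nat_lit 108) (.e (nat_lit 336306) (nat_lit 15) .nil)))))))) (.g (nat_lit 4) .nil .nil)))) (.nd (nat_lit 5) 
(.lf (nat_lit 101658) (.g (nat_lit 2156) (.e (nat_lit 3297) (nat_lit 202) (.e (nat_lit 573492) (nat_lit 15) (.e (nat_lit 81953) (nat_lit 22) (.e (nat_lit 90165) (nat_lit 12) (.e (nat_lit 164237) (nat_lit 187) (.e (nat_lit 1516) (nat_lit 108) (.e (nat_lit 336305) (nat_lit 15) .nil))))))) (.g (nat_lit 4) .nil .nil))) 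
(.lf (nat_lit 101690) (.g (nat_lit 1854) (.e (nat_lit 3298) (nat_lit 202) (.e (nat_lit 573474) (nat_lit 12) (.e (nat_lit 57572) (nat_lit 54) (.e (nat_lit 770072) (nat_lit 8) .nil)))) .nil))))) (.nd (nat_lit 3) (.nd (nat_lit 4) (.nd (nat_lit 5) 
(.lf (nat_lit 101638) (.g (nat_lit 2329) (.e (nat_lit 3297) (nat_lit 202) (.e (nat_lit 573491) (nat_lit 15) (.e (nat_lit 81951) (nat_lit 22) (.e (nat_lit 90165) (nat_lit 12) (.e (nat_lit 164236) (nat_lit 187) (.e (nat_lit 1512) (nat_lit 108) (.e (nat_lit 336305) (nat_lit 15) .nil))))))) (.g (nat_lit 5) .nil .nil))) 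
(.lf (nat_lit 101670) (.g (nat_lit 3619) (.e (nat_lit 3297) (nat_lit 202) (.e (nat_lit 573493) (nat_lit 15) (.e (nat_lit 81953) (nat_lit 22) (.e (nat_lit 90134) (nat_lit 9) .nil)))) .nil))) (.nd (nat_lit 5) 
(.lf (nat_lit 101654) (.g (nat_lit 2308) (.e (nat_lit 3297) (nat_lit 202) (.e (nat_lit 573492) (nat_lit 15) (.e (nat_lit 81953) (nat_lit 22) (.e (nat_lit 90165) (nat_lit 12) (.e (nat_lit 164236) (nat_lit 187) (.e (nat_lit 1516) (nat_lit 108) (.e (nat_lit 343808) (nat_lit 15) .nil))))))) (.g (nat_lit 6) .nil .nil))) 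
(.lf (nat_lit 101686) (.g (nat_lit 4400) (.e (nat_lit 3298) (nat_lit 202) (.e (nat_lit 573471) (nat_lit 11) (.e (nat_lit 16433) (nat_lit 9) (.e (nat_lit 426363) (nat_lit 15) .nil)))) .nil)))) (.nd (nat_lit 4) (.nd (nat_lit 5) 
(.lf (nat_lit 101646) (.g (nat_lit 3880) (.e (nat_lit 3297) (nat_lit 202) (.e (nat_lit 573491) (nat_lit 15) (.e (nat_lit 81951) (nat_lit 22) (.e (nat_lit 90165) (nat_lit 12) (.e (nat_lit 164238) (nat_lit 187) (.e (nat_lit 1427) (nat_lit 108) (.e (nat_lit 336306) (nat_lit 15) .nil))))))) (.g (nat_lit 0) .nil .nil))) 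
(.lf (nat_lit 101678) (.g (nat_lit 2436) (.e (nat_lit 3298) (nat_lit 202) (.e (nat_lit 573451) (nat_lit 9) (.e (nat_lit 1595) (nat_lit 111) (.e (nat_lit 360473) (nat_lit 8) (.e (nat_lit 557085) (nat_lit 11) .nil))))) .nil))) (.nd (nat_lit 5) 
(.lf (nat_lit 101662) (.g (nat_lit 4134) (.e (nat_lit 3297) (nat_lit 202) (.e (nat_lit 573492) (nat_lit 15) (.e (nat_lit 81953) (nat_lit 22) (.e (nat_lit 90165) (nat_lit 12) (.e (nat_lit 164238) (nat_lit 187) (.e (nat_lit 1427) (nat_lit 108) (.e (nat_lit 336306) (nat_lit 15) .nil))))))) (.g (nat_lit 0) .nil .nil))) 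
(.lf (nat_lit 101694) (.g (nat_lit 1720) (.e (nat_lit 3298) (nat_lit 202) (.e (nat_lit 573481) (nat_lit 13) (.e (nat_lit 65604) (nat_lit 9) (.e (nat_lit 336013) (nat_lit 2) (.e (nat_lit 90165) (nat_lit 12) (.e (nat_lit 164237) (nat_lit 187) (.e (nat_lit 1512) (nat_lit 108) (.e (nat_lit 343808) (nat_lit 15) .nil)))))))) (.g (nat_lit 4) .nil .nil)))))))) 
(.nd (nat_lit 1) (.nd (nat_lit 2) (.nd (nat_lit 3) (.nd (nat_lit 4) (.nd (nat_lit 5) 
(.lf (nat_lit 101633) (.g (nat_lit 1082) (.e (nat_lit 3297) (nat_lit 202) (.e (nat_lit 573482) (nat_lit 13) (.e (nat_lit 65604) (nat_lit 9) .nil))) .nil)) 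
(.lf (nat_lit 101665) (.g (nat_lit 2904) (.e (nat_lit 3297) (nat_lit 202) (.e (nat_lit 573492) (nat_lit 15) (.e (nat_lit 81953) (nat_lit 22) (.e (nat_lit 90165) (nat_lit 12) (.e (nat_lit 164239) (nat_lit 187) (.e (nat_lit 1426) (nat_lit 108) (.e (nat_lit 336306) (nat_lit 15) .nil))))))) (.g (nat_lit 0) .nil .nil)))) (.nd (nat_lit 5) 
(.lf (nat_lit 101649) (.g (nat_lit 2646) (.e (nat_lit 3297) (nat_lit 202) (.e (nat_lit 573491) (nat_lit 15) (.e (nat_lit 81951) (nat_lit 22) (.e (nat_lit 90165) (nat_lit 12) (.e (nat_lit 164239) (nat_lit 187) (.e (nat_lit 1426) (nat_lit 108) (.e (nat_lit 336306) (nat_lit 15) .nil))))))) (.g (nat_lit 0) .nil .nil))) 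
(.lf (nat_lit 101681) (.g (nat_lit 2307) (.e (nat_lit 3298) (nat_lit 202) (.e (nat_lit 573471) (nat_lit 11) (.e (nat_lit 16425) (nat_lit 7) (.e (nat_lit 409616) (nat_lit 10) (.e (nat_lit 7936) (nat_lit 43) .nil))))) .nil)))) (.nd (nat_lit 4) (.nd (nat_lit 5) 
(.lf (nat_lit 101641) (.g (nat_lit 2027) (.e (nat_lit 3297) (nat_lit 202) (.e (nat_lit 573491) (nat_lit 15) (.e (nat_lit 81951) (nat_lit 22) (.e (nat_lit 90165) (nat_lit 12) (.e (nat_lit 164237) (nat_lit 187) (.e (nat_lit 1515) (nat_lit 108) (.e (nat_lit 336305) (nat_lit 15) .nil))))))) (.g (nat_lit 4) .nil .nil))) 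
(.lf (nat_lit 101673) (.g (nat_lit 2060) (.e (nat_lit 3298) (nat_lit 202) (.e (nat_lit 573451) (nat_lit 9) (.e (nat_lit 1595) (nat_lit 111) (.e (nat_lit 360467) (nat_lit 3) (.e (nat_lit 516100) (nat_lit 0) .nil))))) .nil))) (.nd (nat_lit 5) 
(.lf (nat_lit 101657) (.g (nat_lit 2179) (.e (nat_lit 3297) (nat_lit 202) (.e (nat_lit 573492) (nat_lit 15) (.e (nat_lit 81953) (nat_lit 22) (.e (nat_lit 90165) (nat_lit 12) (.e (nat_lit 164237) (nat_lit 187) (.e (nat_lit 1515) (nat_lit 108) (.e (nat_lit 336305) (nat_lit 15) .nil))))))) (.g (nat_lit 4) .nil .nil))) 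
(.lf (nat_lit 101689) (.g (nat_lit 2129) (.e (nat_lit 3298) (nat_lit 202) (.e (nat_lit 573471) (nat_lit 11) (.e (nat_lit 16473) (nat_lit 14) (.e (nat_lit 491536) (nat_lit 2) .nil)))) .nil))))) (.nd (nat_lit 3) (.nd (nat_lit 4) (.nd (nat_lit 5) 
(.lf (nat_lit 101637) (.g (nat_lit 3671) (.e (nat_lit 3297) (nat_lit 202) (.e (nat_lit 573484) (nat_lit 13) (.e (nat_lit 65610) (nat_lit 10) (.e (nat_lit 344117) (nat_lit 21) (.e (nat_lit 516180) (nat_lit 15) .nil))))) .nil)) 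
(.lf (nat_lit 101669) (.g (nat_lit 2175) (.e (nat_lit 3297) (nat_lit 202) (.e (nat_lit 573492) (nat_lit 15) (.e (nat_lit 81956) (nat_lit 23) (.e (nat_lit 98389) (nat_lit 33) (.e (nat_lit 491546) (nat_lit 9) .nil))))) .nil))) (.nd (nat_lit 5) 
(.lf (nat_lit 101653) (.g (nat_lit 2453) (.e (nat_lit 3297) (nat_lit 202) (.e (nat_lit 573492) (nat_lit 15) (.e (nat_lit 81953) (nat_lit 22) (.e (nat_lit 90165) (nat_lit 12) (.e (nat_lit 164236) (nat_lit 187) (.e (nat_lit 1512) (nat_lit 108) (.e (nat_lit 336305) (nat_lit 15) .nil))))))) (.g (nat_lit 5) .nil .nil))) 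
(.lf (nat_lit 101685) (.g (nat_lit 2987) (.e (nat_lit 3298) (nat_lit 202) (.e (nat_lit 573471) (nat_lit 11) (.e (nat_lit 16425) (nat_lit 7) (.e (nat_lit 409617) (nat_lit 10) (.e (nat_lit 7936) (nat_lit 43) (.e (nat_lit 516163) (nat_lit 11) (.e (nat_lit 442408) (nat_lit 20) .nil))))))) (.g (nat_lit 4) .nil .nil))))) (.nd (nat_lit 4) (.nd (nat_lit 5) 
(.lf (nat_lit 101645) (.g (nat_lit 2717) (.e (nat_lit 3297) (nat_lit 202) (.e (nat_lit 573491) (nat_lit 15) (.e (nat_lit 81951) (nat_lit 22) (.e (nat_lit 90165) (nat_lit 12) (.e (nat_lit 164238) (nat_lit 187) (.e (nat_lit 1425) (nat_lit 108) (.e (nat_lit 336306) (nat_lit 15) .nil))))))) (.g (nat_lit 0) .nil .nil))) 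
(.lf (nat_lit 101677) (.g (nat_lit 1432) (.e (nat_lit 3298) (nat_lit 202) (.e (nat_lit 573451) (nat_lit 9) (.e (nat_lit 1595) (nat_lit 111) (.e (nat_lit 360473) (nat_lit 8) .nil)))) .nil))) (.nd (nat_lit 5) 
(.lf (nat_lit 101661) (.g (nat_lit 2967) (.e (nat_lit 3297) (nat_lit 202) (.e (nat_lit 573492) (nat_lit 15) (.e (nat_lit 81953) (nat_lit 22) (.e (nat_lit 90165) (nat_lit 12) (.e (nat_lit 164238) (nat_lit 187) (.e (nat_lit 1425) (nat_lit 108) (.e (nat_lit 336306) (nat_lit 15) .nil))))))) (.g (nat_lit 0) .nil .nil))) 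
(.lf (nat_lit 101693) (.g (nat_lit 1735) (.e (nat_lit 3298) (nat_lit 202) (.e (nat_lit 573481) (nat_lit 13) (.e (nat_lit 65604) (nat_lit 9) (.e (nat_lit 336013) (nat_lit 2) (.e (nat_lit 90165) (nat_lit 12) (.e (nat_lit 164236) (nat_lit 187) (.e (nat_lit 1517) (nat_lit 108) (.e (nat_lit 343808) (nat_lit 15) .nil)))))))) (.g (nat_lit 4) .nil .nil))))))) 
(.nd (nat_lit 2) (.nd (nat_lit 3) (.nd (nat_lit 4) (.nd (nat_lit 5) 
(.lf (nat_lit 101635) (.g (nat_lit 1957) (.e (nat_lit 3297) (nat_lit 202) (.e (nat_lit 573482) (nat_lit 13) (.e (nat_lit 65619) (nat_lit 10) (.e (nat_lit 344117) (nat_lit 21) .nil)))) .nil)) 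
(.lf (nat_lit 101667) (.g (nat_lit 3002) (.e (nat_lit 3297) (nat_lit 202) (.e (nat_lit 573492) (nat_lit 15) (.e (nat_lit 81953) (nat_lit 22) (.e (nat_lit 90165) (nat_lit 12) (.e (nat_lit 164239) (nat_lit 187) (.e (nat_lit 1428) (nat_lit 108) (.e (nat_lit 336306) (nat_lit 15) .nil))))))) (.g (nat_lit 0) .nil .nil)))) (.nd (nat_lit 5) 
(.lf (nat_lit 101651) (.g (nat_lit 2742) (.e (nat_lit 3297) (nat_lit 202) (.e (nat_lit 573491) (nat_lit 15) (.e (nat_lit 81951) (nat_lit 22) (.e (nat_lit 90165) (nat_lit 12) (.e (nat_lit 164239) (nat_lit 187) (.e (nat_lit 1428) (nat_lit 108) (.e (nat_lit 336306) (nat_lit 15) .nil))))))) (.g (nat_lit 0) .nil .nil))) 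
(.lf (nat_lit 101683) (.g (nat_lit 3215) (.e (nat_lit 3298) (nat_lit 202) (.e (nat_lit 573471) (nat_lit 11) (.e (nat_lit 16425) (nat_lit 7) (.e (nat_lit 409616) (nat_lit 10) (.e (nat_lit 7936) (nat_lit 43) (.e (nat_lit 516163) (nat_lit 11) (.e (nat_lit 442412) (nat_lit 20) .nil))))))) (.g (nat_lit 4) .nil .nil))))) (.nd (nat_lit 4) (.nd (nat_lit 5) 
(.lf (nat_lit 101643) (.g (nat_lit 2069) (.e (nat_lit 3297) (nat_lit 202) (.e (nat_lit 573491) (nat_lit 15) (.e (nat_lit 81951) (nat_lit 22) (.e (nat_lit 90165) (nat_lit 12) (.e (nat_lit 164237) (nat_lit 187) (.e (nat_lit 1516) (nat_lit 108) (.e (nat_lit 343808) (nat_lit 15) .nil))))))) (.g (nat_lit 6) .nil .nil))) 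
(.lf (nat_lit 101675) (.g (nat_lit 2079) (.e (nat_lit 3298) (nat_lit 202) (.e (nat_lit 573451) (nat_lit 9) (.e (nat_lit 1595) (nat_lit 111) (.e (nat_lit 360467) (nat_lit 3) (.e (nat_lit 516183) (nat_lit 16) .nil))))) .nil))) (.nd (nat_lit 5) 
(.lf (nat_lit 101659) (.g (nat_lit 2169) (.e (nat_lit 3297) (nat_lit 202) (.e (nat_lit 573492) (nat_lit 15) (.e (nat_lit 81953) (nat_lit 22) (.e (nat_lit 90165) (nat_lit 12) (.e (nat_lit 164237) (nat_lit 187) (.e (nat_lit 1516) (nat_lit 108) (.e (nat_lit 343808) (nat_lit 15) .nil))))))) (.g (nat_lit 6) .nil .nil))) 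
(.lf (nat_lit 101691) (.g (nat_lit 1907) (.e (nat_lit 3298) (nat_lit 202) (.e (nat_lit 573481) (nat_lit 13) (.e (nat_lit 65604) (nat_lit 9) (.e (nat_lit 336013) (nat_lit 2) (.e (nat_lit 90165) (nat_lit 12) (.e (nat_lit 164236) (nat_lit 187) (.e (nat_lit 1512) (nat_lit 108) (.e (nat_lit 343808) (nat_lit 15) .nil)))))))) (.g (nat_lit 4) .nil .nil)))))) 
(.nd (nat_lit 3) (.nd (nat_lit 4) (.nd (nat_lit 5) 
(.lf (nat_lit 101639) (.g (nat_lit 2209) (.e (nat_lit 3297) (nat_lit 202) (.e (nat_lit 573491) (nat_lit 15) (.e (nat_lit 81951) (nat_lit 22) (.e (nat_lit 90165) (nat_lit 12) (.e (nat_lit 164236) (nat_lit 187) (.e (nat_lit 1515) (nat_lit 108) (.e (nat_lit 336305) (nat_lit 15) .nil))))))) (.g (nat_lit 5) .nil .nil))) 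
(.lf (nat_lit 101671) (.g (nat_lit 5781) (.e (nat_lit 3297) (nat_lit 202) (.e (nat_lit 573493) (nat_lit 15) (.e (nat_lit 81956) (nat_lit 23) (.e (nat_lit 98388) (nat_lit 33) .nil)))) .nil))) (.nd (nat_lit 5) 
(.lf (nat_lit 101655) (.g (nat_lit 2290) (.e (nat_lit 3297) (nat_lit 202) (.e (nat_lit 573492) (nat_lit 15) (.e (nat_lit 81953) (nat_lit 22) (.e (nat_lit 90165) (nat_lit 12) (.e (nat_lit 164236) (nat_lit 187) (.e (nat_lit 1517) (nat_lit 108) (.e (nat_lit 336305) (nat_lit 15) .nil))))))) (.g (nat_lit 4) .nil .nil))) 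
(.lf (nat_lit 101687) (.g (nat_lit 675) (.e (nat_lit 3298) (nat_lit 202) (.e (nat_lit 573471) (nat_lit 11) (.e (nat_lit 16470) (nat_lit 14) .nil))) .nil)))) (.nd (nat_lit 4) (.nd (nat_lit 5) 
(.lf (nat_lit 101647) (.g (nat_lit 3109) (.e (nat_lit 3297) (nat_lit 202) (.e (nat_lit 573491) (nat_lit 15) (.e (nat_lit 81951) (nat_lit 22) (.e (nat_lit 90165) (nat_lit 12) (.e (nat_lit 164238) (nat_lit 187) (.e (nat_lit 1428) (nat_lit 108) (.e (nat_lit 336306) (nat_lit 15) .nil))))))) (.g (nat_lit 0) .nil .nil))) 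
(.lf (nat_lit 101679) (.g (nat_lit 2016) (.e (nat_lit 3298) (nat_lit 202) (.e (nat_lit 573471) (nat_lit 11) (.e (nat_lit 16388) (nat_lit 0) (.e (nat_lit 7545) (nat_lit 402) .nil)))) .nil))) (.nd (nat_lit 5) 
(.lf (nat_lit 101663) (.g (nat_lit 3363) (.e (nat_lit 3297) (nat_lit 202) (.e (nat_lit 573492) (nat_lit 15) (.e (nat_lit 81953) (nat_lit 22) (.e (nat_lit 90165) (nat_lit 12) (.e (nat_lit 164238) (nat_lit 187) (.e (nat_lit 1428) (nat_lit 108) (.e (nat_lit 336306) (nat_lit 15) .nil))))))) (.g (nat_lit 0) .nil .nil))) 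
(.lf (nat_lit 101695) (.g (nat_lit 1813) (.e (nat_lit 3298) (nat_lit 202) (.e (nat_lit 573481) (nat_lit 13) (.e (nat_lit 65604) (nat_lit 9) (.e (nat_lit 336013) (nat_lit 2) (.e (nat_lit 90165) (nat_lit 12) (.e (nat_lit 164237) (nat_lit 187) (.e (nat_lit 1515) (nat_lit 108) (.e (nat_lit 343808) (nat_lit 15) .nil)))))))) (.g (nat_lit 4) .nil .nil)))))))))

noncomputable def tv1384 : DT := (.nd (nat_lit 0) (.nd (nat_lit 1) (.nd (nat_lit 2) (.nd (nat_lit 3) (.nd (nat_lit 4) (.nd (nat_lit 5) 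
(.lf (nat_lit 101696) (.g (nat_lit 2726) (.e (nat_lit 3298) (nat_lit 202) (.e (nat_lit 573481) (nat_lit 13) (.e (nat_lit 65604) (nat_lit 9) (.e (nat_lit 336013) (nat_lit 2) (.e (nat_lit 90165) (nat_lit 12) (.e (nat_lit 164237) (nat_lit 187) (.e (nat_lit 1516) (nat_lit 108) (.e (nat_lit 343808) (nat_lit 15) .nil)))))))) (.g (nat_lit 7) .nil .nil))) 
(.lf (nat_lit 101728) (.g (nat_lit 3894) (.e (nat_lit 3298) (nat_lit 202) (.e (nat_lit 573492) (nat_lit 15) (.e (nat_lit 81953) (nat_lit 22) (.e (nat_lit 90165) (nat_lit 12) (.e (nat_lit 164238) (nat_lit 187) (.e (nat_lit 1427) (nat_lit 108) (.e (nat_lit 336306) (nat_lit 15) .nil))))))) (.g (nat_lit 0) .nil .nil)))) (.nd (nat_lit 5) 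
(.lf (nat_lit 101712) (.g (nat_lit 2283) (.e (nat_lit 3298) (nat_lit 202) (.e (nat_lit 573482) (nat_lit 13) (.e (nat_lit 65619) (nat_lit 10) (.e (nat_lit 344117) (nat_lit 21) (.e (nat_lit 516184) (nat_lit 16) .nil))))) .nil)) 
(.lf (nat_lit 101744) (.g (nat_lit 3233) (.e (nat_lit 3298) (nat_lit 202) (.e (nat_lit 573493) (nat_lit 15) (.e (nat_lit 81956) (nat_lit 23) (.e (nat_lit 98388) (nat_lit 33) .nil)))) .nil)))) (.nd (nat_lit 4) (.nd (nat_lit 5) 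
(.lf (nat_lit 101704) (.g (nat_lit 4376) (.e (nat_lit 3298) (nat_lit 202) (.e (nat_lit 573481) (nat_lit 13) (.e (nat_lit 65619) (nat_lit 10) (.e (nat_lit 344129) (nat_lit 26) (.e (nat_lit 557074) (nat_lit 9) (.e (nat_lit 284) (nat_lit 21) (.e (nat_lit 336086) (nat_lit 9) (.e (nat_lit 336306) (nat_lit 15) .nil)))))))) (.g (nat_lit 8) .nil .nil))) 
(.lf (nat_lit 101736) (.g (nat_lit 4768) (.e (nat_lit 3298) (nat_lit 202) (.e (nat_lit 573493) (nat_lit 15) (.e (nat_lit 81953) (nat_lit 22) (.e (nat_lit 90130) (nat_lit 9) .nil)))) .nil))) (.nd (nat_lit 5) 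
(.lf (nat_lit 101720) (.g (nat_lit 2410) (.e (nat_lit 3298) (nat_lit 202) (.e (nat_lit 573490) (nat_lit 15) (.e (nat_lit 81956) (nat_lit 23) (.e (nat_lit 98389) (nat_lit 33) .nil)))) .nil)) 
(.lf (nat_lit 101752) (.g (nat_lit 1556) (.e (nat_lit 3301) (nat_lit 202) (.e (nat_lit 573483) (nat_lit 13) (.e (nat_lit 65630) (nat_lit 14) (.e (nat_lit 401428) (nat_lit 3) (.e (nat_lit 204866) (nat_lit 28) .nil))))) .nil))))) (.nd (nat_lit 3) (.nd (nat_lit 4) (.nd (nat_lit 5) 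
(.lf (nat_lit 101700) (.g (nat_lit 3230) (.e (nat_lit 3298) (nat_lit 202) (.e (nat_lit 573481) (nat_lit 13) (.e (nat_lit 65619) (nat_lit 10) (.e (nat_lit 344129) (nat_lit 26) (.e (nat_lit 557066) (nat_lit 9) (.e (nat_lit 310) (nat_lit 23) (.e (nat_lit 360192) (nat_lit 0) .nil))))))) (.g (nat_lit 6) .nil .nil))) 
(.lf (nat_lit 101732) (.g (nat_lit 2737) (.e (nat_lit 3298) (nat_lit 202) (.e (nat_lit 573492) (nat_lit 15) (.e (nat_lit 81953) (nat_lit 22) (.e (nat_lit 90165) (nat_lit 12) (.e (nat_lit 164239) (nat_lit 187) (.e (nat_lit 1428) (nat_lit 108) (.e (nat_lit 336306) (nat_lit 15) .nil))))))) (.g (nat_lit 0) .nil .nil)))) (.nd (nat_lit 5) 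
(.lf (nat_lit 101716) (.g (nat_lit 1880) (.e (nat_lit 3298) (nat_lit 202) (.e (nat_lit 573482) (nat_lit 13) (.e (nat_lit 65619) (nat_lit 10) (.e (nat_lit 344129) (nat_lit 26) (.e (nat_lit 557066) (nat_lit 9) .nil))))) .nil)) 
(.lf (nat_lit 101748) (.g (nat_lit 3724) (.e (nat_lit 3300) (nat_lit 202) (.e (nat_lit 573471) (nat_lit 11) (.e (nat_lit 16425) (nat_lit 7) (.e (nat_lit 409617) (nat_lit 10) .nil)))) .nil)))) (.nd (nat_lit 4) (.nd (nat_lit 5) 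
(.lf (nat_lit 101708) (.g (nat_lit 2324) (.e (nat_lit 3298) (nat_lit 202) (.e (nat_lit 573482) (nat_lit 13) (.e (nat_lit 65604) (nat_lit 9) (.e (nat_lit 336013) (nat_lit 2) (.e (nat_lit 90165) (nat_lit 12) (.e (nat_lit 164239) (nat_lit 187) (.e (nat_lit 1427) (nat_lit 108) (.e (nat_lit 336306) (nat_lit 15) .nil)))))))) (.g (nat_lit 4) .nil .nil))) 
(.lf (nat_lit 101740) (.g (nat_lit 2689) (.e (nat_lit 3298) (nat_lit 202) (.e (nat_lit 573493) (nat_lit 15) (.e (nat_lit 81953) (nat_lit 22) (.e (nat_lit 90165) (nat_lit 12) (.e (nat_lit 164237) (nat_lit 187) (.e (nat_lit 1516) (nat_lit 108) (.e (nat_lit 343808) (nat_lit 15) .nil))))))) (.g (nat_lit 6) .nil .nil)))) (.nd (nat_lit 5) 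
(.lf (nat_lit 101724) (.g (nat_lit 2117) (.e (nat_lit 3298) (nat_lit 202) (.e (nat_lit 573492) (nat_lit 15) (.e (nat_lit 81953) (nat_lit 22) (.e (nat_lit 90165) (nat_lit 12) (.e (nat_lit 164236) (nat_lit 187) (.e (nat_lit 1516) (nat_lit 108) (.e (nat_lit 343808) (nat_lit 15) .nil))))))) (.g (nat_lit 6) .nil .nil))) 
(.lf (nat_lit 101756) (.g (nat_lit 922) (.e (nat_lit 3302) (nat_lit 202) (.e (nat_lit 573450) (nat_lit 9) (.e (nat_lit 1615) (nat_lit 113) (.e (nat_lit 376869) (nat_lit 23) .nil)))) .nil)))))) (.nd (nat_lit 2) (.nd (nat_lit 3) (.nd (nat_lit 4) (.nd (nat_lit 5) 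
(.lf (nat_lit 101698) (.g (nat_lit 2899) (.e (nat_lit 3298) (nat_lit 202) (.e (nat_lit 573481) (nat_lit 13) (.e (nat_lit 65619) (nat_lit 10) (.e (nat_lit 344117) (nat_lit 21) (.e (nat_lit 516106) (nat_lit 0) (.e (nat_lit 7550) (nat_lit 402) (.e (nat_lit 1516) (nat_lit 108) (.e (nat_lit 343808) (nat_lit 15) .nil)))))))) (.g (nat_lit 7) .nil .nil))) 
(.lf (nat_lit 101730) (.g (nat_lit 2664) (.e (nat_lit 3298) (nat_lit 202) (.e (nat_lit 573492) (nat_lit 15) (.e (nat_lit 81953) (nat_lit 22) (.e (nat_lit 90165) (nat_lit 12) (.e (nat_lit 164239) (nat_lit 187) (.e (nat_lit 1426) (nat_lit 108) (.e (nat_lit 336306) (nat_lit 15) .nil))))))) (.g (nat_lit 0) .nil .nil)))) (.nd (nat_lit 5) 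
(.lf (nat_lit 101714) (.g (nat_lit 1948) (.e (nat_lit 3298) (nat_lit 202) (.e (nat_lit 573482) (nat_lit 13) (.e (nat_lit 65619) (nat_lit 10) (.e (nat_lit 344126) (nat_lit 25) (.e (nat_lit 548874) (nat_lit 5) (.e (nat_lit 1572) (nat_lit 110) (.e (nat_lit 360192) (nat_lit 0) .nil))))))) (.g (nat_lit 4) .nil .nil))) 
(.lf (nat_lit 101746) (.g (nat_lit 1264) (.e (nat_lit 3299) (nat_lit 202) (.e (nat_lit 573471) (nat_lit 11) (.e (nat_lit 16425) (nat_lit 7) .nil))) .nil)))) (.nd (nat_lit 4) (.nd (nat_lit 5) 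
(.lf (nat_lit 101706) (.g (nat_lit 2108) (.e (nat_lit 3298) (nat_lit 202) (.e (nat_lit 573482) (nat_lit 13) (.e (nat_lit 65604) (nat_lit 9) (.e (nat_lit 336013) (nat_lit 2) (.e (nat_lit 90165) (nat_lit 12) .nil))))) .nil)) 
(.lf (nat_lit 101738) (.g (nat_lit 3148) (.e (nat_lit 3298) (nat_lit 202) (.e (nat_lit 573493) (nat_lit 15) (.e (nat_lit 81953) (nat_lit 22) (.e (nat_lit 90165) (nat_lit 12) (.e (nat_lit 164236) (nat_lit 187) (.e (nat_lit 1512) (nat_lit 108) (.e (nat_lit 336305) (nat_lit 15) .nil))))))) (.g (nat_lit 6) .nil .nil)))) (.nd (nat_lit 5) 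
(.lf (nat_lit 101722) (.g (nat_lit 1905) (.e (nat_lit 3298) (nat_lit 202) (.e (nat_lit 573491) (nat_lit 15) (.e (nat_lit 81951) (nat_lit 22) (.e (nat_lit 90165) (nat_lit 12) (.e (nat_lit 164237) (nat_lit 187) (.e (nat_lit 1516) (nat_lit 108) (.e (nat_lit 343808) (nat_lit 15) .nil))))))) (.g (nat_lit 6) .nil .nil))) 
(.lf (nat_lit 101754) (.g (nat_lit 594) (.e (nat_lit 3302) (nat_lit 202) (.e (nat_lit 573450) (nat_lit 9) (.e (nat_lit 1602) (nat_lit 112) .nil))) .nil))))) (.nd (nat_lit 3) (.nd (nat_lit 4) (.nd (nat_lit 5) 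
(.lf (nat_lit 101702) (.g (nat_lit 2851) (.e (nat_lit 3298) (nat_lit 202) (.e (nat_lit 573481) (nat_lit 13) (.e (nat_lit 65619) (nat_lit 10) (.e (nat_lit 344129) (nat_lit 26) (.e (nat_lit 557074) (nat_lit 9) (.e (nat_lit 278) (nat_lit 21) (.e (nat_lit 336154) (nat_lit 9) (.e (nat_lit 336305) (nat_lit 15) .nil)))))))) (.g (nat_lit 5) .nil .nil))) 
(.lf (nat_lit 101734) (.g (nat_lit 5416) (.e (nat_lit 3298) (nat_lit 202) (.e (nat_lit 573493) (nat_lit 15) (.e (nat_lit 81953) (nat_lit 22) (.e (nat_lit 90122) (nat_lit 9) .nil)))) .nil))) (.nd (nat_lit 5) 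
(.lf (nat_lit 101718) (.g (nat_lit 3073) (.e (nat_lit 3298) (nat_lit 202) (.e (nat_lit 573482) (nat_lit 13) (.e (nat_lit 65619) (nat_lit 10) (.e (nat_lit 344129) (nat_lit 26) (.e (nat_lit 557074) (nat_lit 9) (.e (nat_lit 284) (nat_lit 21) (.e (nat_lit 336078) (nat_lit 9) (.e (nat_lit 336306) (nat_lit 15) .nil)))))))) (.g (nat_lit 5) .nil .nil))) 
(.lf (nat_lit 101750) (.g (nat_lit 3789) (.e (nat_lit 3301) (nat_lit 202) (.e (nat_lit 573471) (nat_lit 11) (.e (nat_lit 16425) (nat_lit 7) (.e (nat_lit 409616) (nat_lit 10) .nil)))) .nil)))) (.nd (nat_lit 4) (.nd (nat_lit 5) 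
(.lf (nat_lit 101710) (.g (nat_lit 2462) (.e (nat_lit 3298) (nat_lit 202) (.e (nat_lit 573482) (nat_lit 13) (.e (nat_lit 65619) (nat_lit 10) (.e (nat_lit 344117) (nat_lit 21) (.e (nat_lit 516102) (nat_lit 0) .nil))))) .nil)) 
(.lf (nat_lit 101742) (.g (nat_lit 2335) (.e (nat_lit 3298) (nat_lit 202) (.e (nat_lit 573493) (nat_lit 15) (.e (nat_lit 81954) (nat_lit 23) (.e (nat_lit 98350) (nat_lit 24) .nil)))) .nil))) (.nd (nat_lit 5) 
(.lf (nat_lit 101726) (.g (nat_lit 2146) (.e (nat_lit 3298) (nat_lit 202) (.e (nat_lit 573492) (nat_lit 15) (.e (nat_lit 81953) (nat_lit 22) (.e (nat_lit 90165) (nat_lit 12) (.e (nat_lit 164237) (nat_lit 187) (.e (nat_lit 1516) (nat_lit 108) (.e (nat_lit 336305) (nat_lit 15) .nil))))))) (.g (nat_lit 0) .nil .nil))) 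
(.lf (nat_lit 101758) (.g (nat_lit 4440) (.e (nat_lit 3302) (nat_lit 202) (.e (nat_lit 573471) (nat_lit 11) (.e (nat_lit 16425) (nat_lit 7) (.e (nat_lit 409616) (nat_lit 10) (.e (nat_lit 7936) (nat_lit 43) (.e (nat_lit 516151) (nat_lit 9) (.e (nat_lit 426211) (nat_lit 9) (.e (nat_lit 433920) (nat_lit 0) .nil)))))))) (.g (nat_lit 4) .nil .nil)))))))) 
(.nd (nat_lit 1) (.nd (nat_lit 2) (.nd (nat_lit 3) (.nd (nat_lit 4) (.nd (nat_lit 5) 
(.lf (nat_lit 101697) (.g (nat_lit 3082) (.e (nat_lit 3298) (nat_lit 202) (.e (nat_lit 573481) (nat_lit 13) (.e (nat_lit 65619) (nat_lit 10) (.e (nat_lit 344117) (nat_lit 21) (.e (nat_lit 516097) (nat_lit 0) (.e (nat_lit 7562) (nat_lit 402) (.e (nat_lit 1427) (nat_lit 108) (.e (nat_lit 336306) (nat_lit 15) .nil)))))))) (.g (nat_lit 5) .nil .nil))) 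
(.lf (nat_lit 101729) (.g (nat_lit 2432) (.e (nat_lit 3298) (nat_lit 202) (.e (nat_lit 573492) (nat_lit 15) (.e (nat_lit 81953) (nat_lit 22) (.e (nat_lit 90165) (nat_lit 12) (.e (nat_lit 164239) (nat_lit 187) (.e (nat_lit 1425) (nat_lit 108) (.e (nat_lit 336306) (nat_lit 15) .nil))))))) (.g (nat_lit 0) .nil .nil)))) (.nd (nat_lit 5) 
(.lf (nat_lit 101713) (.g (nat_lit 2008) (.e (nat_lit 3298) (nat_lit 202) (.e (nat_lit 573482) (nat_lit 13) (.e (nat_lit 65619) (nat_lit 10) (.e (nat_lit 344117) (nat_lit 21) (.e (nat_lit 516185) (nat_lit 16) .nil))))) .nil)) 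
(.lf (nat_lit 101745) (.g (nat_lit 579) (.e (nat_lit 3298) (nat_lit 202) (.e (nat_lit 573493) (nat_lit 15) (.e (nat_lit 81959) (nat_lit 24) .nil))) .nil)))) (.nd (nat_lit 4) (.nd (nat_lit 5) 
(.lf (nat_lit 101705) (.g (nat_lit 2300) (.e (nat_lit 3298) (nat_lit 202) (.e (nat_lit 573481) (nat_lit 13) (.e (nat_lit 65619) (nat_lit 10) (.e (nat_lit 344129) (nat_lit 26) (.e (nat_lit 557074) (nat_lit 9) (.e (nat_lit 7936) (nat_lit 23) (.e (nat_lit 360192) (nat_lit 0) .nil))))))) (.g (nat_lit 5) .nil .nil))) 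
(.lf (nat_lit 101737) (.g (nat_lit 3208) (.e (nat_lit 3298) (nat_lit 202) (.e (nat_lit 573493) (nat_lit 15) (.e (nat_lit 81953) (nat_lit 22) (.e (nat_lit 90134) (nat_lit 9) (.e (nat_lit 3096) (nat_lit 192) .nil))))) .nil))) (.nd (nat_lit 5) 
(.lf (nat_lit 101721) (.g (nat_lit 2051) (.e (nat_lit 3298) (nat_lit 202) (.e (nat_lit 573491) (nat_lit 15) (.e (nat_lit 81951) (nat_lit 22) (.e (nat_lit 90165) (nat_lit 12) (.e (nat_lit 164236) (nat_lit 187) (.e (nat_lit 1516) (nat_lit 108) (.e (nat_lit 343808) (nat_lit 15) .nil))))))) (.g (nat_lit 6) .nil .nil))) 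
(.lf (nat_lit 101753) (.g (nat_lit 2285) (.e (nat_lit 3302) (nat_lit 202) (.e (nat_lit 573449) (nat_lit 9) (.e (nat_lit 1595) (nat_lit 111) (.e (nat_lit 360467) (nat_lit 3) (.e (nat_lit 516182) (nat_lit 15) .nil))))) .nil))))) (.nd (nat_lit 3) (.nd (nat_lit 4) (.nd (nat_lit 5) 
(.lf (nat_lit 101701) (.g (nat_lit 2988) (.e (nat_lit 3298) (nat_lit 202) (.e (nat_lit 573481) (nat_lit 13) (.e (nat_lit 65619) (nat_lit 10) (.e (nat_lit 344129) (nat_lit 26) (.e (nat_lit 557066) (nat_lit 9) (.e (nat_lit 312) (nat_lit 23) (.e (nat_lit 360192) (nat_lit 0) .nil))))))) (.g (nat_lit 6) .nil .nil))) 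
(.lf (nat_lit 101733) (.g (nat_lit 2652) (.e (nat_lit 3298) (nat_lit 202) (.e (nat_lit 573493) (nat_lit 15) (.e (nat_lit 81951) (nat_lit 22) (.e (nat_lit 90165) (nat_lit 12) (.e (nat_lit 164238) (nat_lit 187) .nil))))) .nil))) (.nd (nat_lit 5) 
(.lf (nat_lit 101717) (.g (nat_lit 2145) (.e (nat_lit 3298) (nat_lit 202) (.e (nat_lit 573482) (nat_lit 13) (.e (nat_lit 65619) (nat_lit 10) (.e (nat_lit 344129) (nat_lit 26) (.e (nat_lit 557074) (nat_lit 9) .nil))))) .nil)) 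
(.lf (nat_lit 101749) (.g (nat_lit 4322) (.e (nat_lit 3301) (nat_lit 202) (.e (nat_lit 573451) (nat_lit 9) (.e (nat_lit 1595) (nat_lit 111) (.e (nat_lit 360473) (nat_lit 8) (.e (nat_lit 557087) (nat_lit 11) (.e (nat_lit 24625) (nat_lit 9) (.e (nat_lit 336257) (nat_lit 15) .nil))))))) (.g (nat_lit 7) .nil .nil))))) (.nd (nat_lit 4) (.nd (nat_lit 5) 
(.lf (nat_lit 101709) (.g (nat_lit 2088) (.e (nat_lit 3298) (nat_lit 202) (.e (nat_lit 573482) (nat_lit 13) (.e (nat_lit 65619) (nat_lit 10) (.e (nat_lit 344117) (nat_lit 21) (.e (nat_lit 516097) (nat_lit 0) .nil))))) .nil)) 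
(.lf (nat_lit 101741) (.g (nat_lit 2944) (.e (nat_lit 3298) (nat_lit 202) (.e (nat_lit 573493) (nat_lit 15) (.e (nat_lit 81954) (nat_lit 23) (.e (nat_lit 98323) (nat_lit 17) (.e (nat_lit 6989) (nat_lit 377) .nil))))) .nil))) (.nd (nat_lit 5) 
(.lf (nat_lit 101725) (.g (nat_lit 2235) (.e (nat_lit 3298) (nat_lit 202) (.e (nat_lit 573492) (nat_lit 15) (.e (nat_lit 81953) (nat_lit 22) (.e (nat_lit 90165) (nat_lit 12) (.e (nat_lit 164237) (nat_lit 187) (.e (nat_lit 1512) (nat_lit 108) (.e (nat_lit 336305) (nat_lit 15) .nil))))))) (.g (nat_lit 0) .nil .nil))) 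
(.lf (nat_lit 101757) (.g (nat_lit 4525) (.e (nat_lit 3302) (nat_lit 202) (.e (nat_lit 573451) (nat_lit 9) (.e (nat_lit 1595) (nat_lit 111) (.e (nat_lit 360473) (nat_lit 8) (.e (nat_lit 557087) (nat_lit 11) (.e (nat_lit 24625) (nat_lit 9) (.e (nat_lit 336284) (nat_lit 15) .nil))))))) (.g (nat_lit 6) .nil .nil))))))) (.nd (nat_lit 2) (.nd (nat_lit 3) (.nd (nat_lit 4) (.nd (nat_lit 5) 
(.lf (nat_lit 101699) (.g (nat_lit 2871) (.e (nat_lit 3298) (nat_lit 202) (.e (nat_lit 573481) (nat_lit 13) (.e (nat_lit 65619) (nat_lit 10) (.e (nat_lit 344129) (nat_lit 26) (.e (nat_lit 557066) (nat_lit 9) (.e (nat_lit 309) (nat_lit 23) (.e (nat_lit 360192) (nat_lit 0) .nil))))))) (.g (nat_lit 6) .nil .nil))) 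
(.lf (nat_lit 101731) (.g (nat_lit 3148) (.e (nat_lit 3298) (nat_lit 202) (.e (nat_lit 573492) (nat_lit 15) (.e (nat_lit 81953) (nat_lit 22) (.e (nat_lit 90165) (nat_lit 12) (.e (nat_lit 164239) (nat_lit 187) (.e (nat_lit 1427) (nat_lit 108) (.e (nat_lit 336306) (nat_lit 15) .nil))))))) (.g (nat_lit 0) .nil .nil)))) (.nd (nat_lit 5) 
(.lf (nat_lit 101715) (.g (nat_lit 2076) (.e (nat_lit 3298) (nat_lit 202) (.e (nat_lit 573482) (nat_lit 13) (.e (nat_lit 65619) (nat_lit 10) (.e (nat_lit 344129) (nat_lit 26) (.e (nat_lit 557065) (nat_lit 9) .nil))))) .nil)) 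
(.lf (nat_lit 101747) (.g (nat_lit 3788) (.e (nat_lit 3300) (nat_lit 202) (.e (nat_lit 573471) (nat_lit 11) (.e (nat_lit 16425) (nat_lit 7) (.e (nat_lit 409616) (nat_lit 10) .nil)))) .nil)))) (.nd (nat_lit 4) (.nd (nat_lit 5) 
(.lf (nat_lit 101707) (.g (nat_lit 2267) (.e (nat_lit 3298) (nat_lit 202) (.e (nat_lit 573482) (nat_lit 13) (.e (nat_lit 65604) (nat_lit 9) (.e (nat_lit 336013) (nat_lit 2) (.e (nat_lit 90165) (nat_lit 12) (.e (nat_lit 164238) (nat_lit 187) (.e (nat_lit 1428) (nat_lit 108) (.e (nat_lit 336306) (nat_lit 15) .nil)))))))) (.g (nat_lit 4) .nil .nil))) 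
(.lf (nat_lit 101739) (.g (nat_lit 2818) (.e (nat_lit 3298) (nat_lit 202) (.e (nat_lit 573493) (nat_lit 15) (.e (nat_lit 81953) (nat_lit 22) (.e (nat_lit 90165) (nat_lit 12) (.e (nat_lit 164236) (nat_lit 187) (.e (nat_lit 1516) (nat_lit 108) (.e (nat_lit 343808) (nat_lit 15) .nil))))))) (.g (nat_lit 6) .nil .nil)))) (.nd (nat_lit 5) 
(.lf (nat_lit 101723) (.g (nat_lit 1783) (.e (nat_lit 3298) (nat_lit 202) (.e (nat_lit 573491) (nat_lit 15) (.e (nat_lit 81954) (nat_lit 23) (.e (nat_lit 98323) (nat_lit 17) (.e (nat_lit 6989) (nat_lit 377) .nil))))) .nil)) 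
(.lf (nat_lit 101755) (.g (nat_lit 595) (.e (nat_lit 3302) (nat_lit 202) (.e (nat_lit 573450) (nat_lit 9) (.e (nat_lit 1615) (nat_lit 113) .nil))) .nil))))) (.nd (nat_lit 3) (.nd (nat_lit 4) (.nd (nat_lit 5) 
(.lf (nat_lit 101703) (.g (nat_lit 4445) (.e (nat_lit 3298) (nat_lit 202) (.e (nat_lit 573481) (nat_lit 13) (.e (nat_lit 65619) (nat_lit 10) (.e (nat_lit 344129) (nat_lit 26) (.e (nat_lit 557074) (nat_lit 9) (.e (nat_lit 284) (nat_lit 21) (.e (nat_lit 336078) (nat_lit 9) (.e (nat_lit 336306) (nat_lit 15) .nil)))))))) (.g (nat_lit 7) .nil .nil))) 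
(.lf (nat_lit 101735) (.g (nat_lit 5430) (.e (nat_lit 3298) (nat_lit 202) (.e (nat_lit 573493) (nat_lit 15) (.e (nat_lit 81953) (nat_lit 22) (.e (nat_lit 90125) (nat_lit 9) .nil)))) .nil))) (.nd (nat_lit 5) 
(.lf (nat_lit 101719) (.g (nat_lit 2670) (.e (nat_lit 3298) (nat_lit 202) (.e (nat_lit 573490) (nat_lit 15) (.e (nat_lit 81956) (nat_lit 23) (.e (nat_lit 98388) (nat_lit 33) .nil)))) .nil)) 
(.lf (nat_lit 101751) (.g (nat_lit 3727) (.e (nat_lit 3301) (nat_lit 202) (.e (nat_lit 573471) (nat_lit 11) (.e (nat_lit 16425) (nat_lit 7) (.e (nat_lit 409617) (nat_lit 10) .nil)))) .nil)))) (.nd (nat_lit 4) (.nd (nat_lit 5) 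
(.lf (nat_lit 101711) (.g (nat_lit 2183) (.e (nat_lit 3298) (nat_lit 202) (.e (nat_lit 573482) (nat_lit 13) (.e (nat_lit 65619) (nat_lit 10) (.e (nat_lit 344117) (nat_lit 21) (.e (nat_lit 516106) (nat_lit 0) .nil))))) .nil)) 
(.lf (nat_lit 101743) (.g (nat_lit 2546) (.e (nat_lit 3298) (nat_lit 202) (.e (nat_lit 573493) (nat_lit 15) (.e (nat_lit 81954) (nat_lit 23) (.e (nat_lit 98388) (nat_lit 33) .nil)))) .nil))) (.nd (nat_lit 5) 
(.lf (nat_lit 101727) (.g (nat_lit 1978) (.e (nat_lit 3298) (nat_lit 202) (.e (nat_lit 573492) (nat_lit 15) (.e (nat_lit 81953) (nat_lit 22) (.e (nat_lit 90165) (nat_lit 12) (.e (nat_lit 164237) (nat_lit 187) (.e (nat_lit 1516) (nat_lit 108) (.e (nat_lit 343808) (nat_lit 15) .nil))))))) (.g (nat_lit 6) .nil .nil))) 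
(.lf (nat_lit 101759) (.g (nat_lit 4140) (.e (nat_lit 3302) (nat_lit 202) (.e (nat_lit 573471) (nat_lit 11) (.e (nat_lit 16425) (nat_lit 7) (.e (nat_lit 409617) (nat_lit 10) (.e (nat_lit 7936) (nat_lit 43) (.e (nat_lit 516151) (nat_lit 9) (.e (nat_lit 426211) (nat_lit 9) (.e (nat_lit 433920) (nat_lit 0) .nil)))))))) (.g (nat_lit 4) .nil .nil)))))))))

noncomputable def tv1385 : DT := (.nd (nat_lit 0) (.nd (nat_lit 1) (.nd (nat_lit 2) (.nd (nat_lit 3) (.nd (nat_lit 4) (.nd (nat_lit 5) 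
(.lf (nat_lit 101760) (.g (nat_lit 2004) (.e (nat_lit 3302) (nat_lit 202) (.e (nat_lit 573479) (nat_lit 13) (.e (nat_lit 65619) (nat_lit 10) (.e (nat_lit 344126) (nat_lit 25) (.e (nat_lit 548874) (nat_lit 5) (.e (nat_lit 1575) (nat_lit 110) (.e (nat_lit 352261) (nat_lit 0) .nil))))))) (.g (nat_lit 4) .nil .nil))) 
(.lf (nat_lit 101792) (.g (nat_lit 1714) (.e (nat_lit 3302) (nat_lit 202) (.e (nat_lit 573484) (nat_lit 13) (.e (nat_lit 65617) (nat_lit 10) (.e (nat_lit 344130) (nat_lit 26) (.e (nat_lit 557087) (nat_lit 11) .nil))))) .nil))) (.nd (nat_lit 5) 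
(.lf (nat_lit 101776) (.g (nat_lit 3104) (.e (nat_lit 3302) (nat_lit 202) (.e (nat_lit 573481) (nat_lit 13) (.e (nat_lit 65619) (nat_lit 10) (.e (nat_lit 344129) (nat_lit 26) (.e (nat_lit 557074) (nat_lit 9) (.e (nat_lit 7936) (nat_lit 23) (.e (nat_lit 352261) (nat_lit 0) .nil))))))) (.g (nat_lit 4) .nil .nil))) 
(.lf (nat_lit 101808) (.g (nat_lit 3311) (.e (nat_lit 3302) (nat_lit 202) (.e (nat_lit 573485) (nat_lit 13) (.e (nat_lit 65619) (nat_lit 10) (.e (nat_lit 344129) (nat_lit 26) (.e (nat_lit 557066) (nat_lit 9) (.e (nat_lit 312) (nat_lit 23) (.e (nat_lit 360192) (nat_lit 0) .nil))))))) (.g (nat_lit 6) .nil .nil))))) (.nd (nat_lit 4) (.nd (nat_lit 5) 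
(.lf (nat_lit 101768) (.g (nat_lit 2999) (.e (nat_lit 3302) (nat_lit 202) (.e (nat_lit 573481) (nat_lit 13) (.e (nat_lit 65619) (nat_lit 10) (.e (nat_lit 344126) (nat_lit 25) (.e (nat_lit 548874) (nat_lit 5) (.e (nat_lit 1559) (nat_lit 110) (.e (nat_lit 360192) (nat_lit 0) .nil))))))) (.g (nat_lit 5) .nil .nil))) 
(.lf (nat_lit 101800) (.g (nat_lit 1881) (.e (nat_lit 3302) (nat_lit 202) (.e (nat_lit 573485) (nat_lit 13) (.e (nat_lit 65619) (nat_lit 10) (.e (nat_lit 344126) (nat_lit 25) (.e (nat_lit 548873) (nat_lit 5) (.e (nat_lit 1569) (nat_lit 110) (.e (nat_lit 360192) (nat_lit 0) .nil))))))) (.g (nat_lit 4) .nil .nil)))) (.nd (nat_lit 5) 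
(.lf (nat_lit 101784) (.g (nat_lit 4042) (.e (nat_lit 3302) (nat_lit 202) (.e (nat_lit 573482) (nat_lit 13) (.e (nat_lit 65619) (nat_lit 10) (.e (nat_lit 344129) (nat_lit 26) (.e (nat_lit 557066) (nat_lit 9) (.e (nat_lit 312) (nat_lit 23) (.e (nat_lit 352261) (nat_lit 0) .nil))))))) (.g (nat_lit 6) .nil .nil))) 
(.lf (nat_lit 101816) (.g (nat_lit 1960) (.e (nat_lit 3302) (nat_lit 202) (.e (nat_lit 573491) (nat_lit 15) (.e (nat_lit 81943) (nat_lit 20) (.e (nat_lit 1841) (nat_lit 123) (.e (nat_lit 548874) (nat_lit 5) (.e (nat_lit 1559) (nat_lit 110) (.e (nat_lit 352261) (nat_lit 0) .nil))))))) (.g (nat_lit 5) .nil .nil)))))) (.nd (nat_lit 3) (.nd (nat_lit 4) (.nd (nat_lit 5) 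
(.lf (nat_lit 101764) (.g (nat_lit 2449) (.e (nat_lit 3302) (nat_lit 202) (.e (nat_lit 573481) (nat_lit 13) (.e (nat_lit 65619) (nat_lit 10) (.e (nat_lit 344126) (nat_lit 25) (.e (nat_lit 548873) (nat_lit 5) (.e (nat_lit 1559) (nat_lit 110) (.e (nat_lit 360192) (nat_lit 0) .nil))))))) (.g (nat_lit 5) .nil .nil))) 
(.lf (nat_lit 101796) (.g (nat_lit 2210) (.e (nat_lit 3302) (nat_lit 202) (.e (nat_lit 573485) (nat_lit 13) (.e (nat_lit 65619) (nat_lit 10) (.e (nat_lit 344126) (nat_lit 25) (.e (nat_lit 548872) (nat_lit 5) (.e (nat_lit 1575) (nat_lit 110) (.e (nat_lit 352261) (nat_lit 0) .nil))))))) (.g (nat_lit 4) .nil .nil)))) (.nd (nat_lit 5) 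
(.lf (nat_lit 101780) (.g (nat_lit 869) (.e (nat_lit 3302) (nat_lit 202) (.e (nat_lit 573482) (nat_lit 13) (.e (nat_lit 65619) (nat_lit 10) .nil))) .nil)) 
(.lf (nat_lit 101812) (.g (nat_lit 1975) (.e (nat_lit 3302) (nat_lit 202) (.e (nat_lit 573491) (nat_lit 15) (.e (nat_lit 81943) (nat_lit 20) (.e (nat_lit 1840) (nat_lit 123) (.e (nat_lit 548874) (nat_lit 5) (.e (nat_lit 1559) (nat_lit 110) (.e (nat_lit 352261) (nat_lit 0) .nil))))))) (.g (nat_lit 5) .nil .nil))))) (.nd (nat_lit 4) (.nd (nat_lit 5) 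
(.lf (nat_lit 101772) (.g (nat_lit 2181) (.e (nat_lit 3302) (nat_lit 202) (.e (nat_lit 573481) (nat_lit 13) (.e (nat_lit 65619) (nat_lit 10) (.e (nat_lit 344129) (nat_lit 26) (.e (nat_lit 557065) (nat_lit 9) .nil))))) .nil)) 
(.lf (nat_lit 101804) (.g (nat_lit 2676) (.e (nat_lit 3302) (nat_lit 202) (.e (nat_lit 573485) (nat_lit 13) (.e (nat_lit 65619) (nat_lit 10) (.e (nat_lit 344126) (nat_lit 25) (.e (nat_lit 548874) (nat_lit 5) (.e (nat_lit 1575) (nat_lit 110) (.e (nat_lit 352261) (nat_lit 0) .nil))))))) (.g (nat_lit 5) .nil .nil)))) (.nd (nat_lit 5) 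
(.lf (nat_lit 101788) (.g (nat_lit 2739) (.e (nat_lit 3302) (nat_lit 202) (.e (nat_lit 573484) (nat_lit 13) (.e (nat_lit 65610) (nat_lit 10) (.e (nat_lit 344129) (nat_lit 26) (.e (nat_lit 557066) (nat_lit 9) (.e (nat_lit 310) (nat_lit 23) (.e (nat_lit 352261) (nat_lit 0) .nil))))))) (.g (nat_lit 4) .nil .nil))) 
(.lf (nat_lit 101820) (.g (nat_lit 1732) (.e (nat_lit 3302) (nat_lit 202) (.e (nat_lit 573491) (nat_lit 15) (.e (nat_lit 81943) (nat_lit 20) (.e (nat_lit 1842) (nat_lit 123) (.e (nat_lit 548872) (nat_lit 5) (.e (nat_lit 1575) (nat_lit 110) (.e (nat_lit 360192) (nat_lit 0) .nil))))))) (.g (nat_lit 5) .nil .nil))))))) (.nd (nat_lit 2) (.nd (nat_lit 3) (.nd (nat_lit 4) (.nd (nat_lit 5) 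
(.lf (nat_lit 101762) (.g (nat_lit 1926) (.e (nat_lit 3302) (nat_lit 202) (.e (nat_lit 573481) (nat_lit 13) (.e (nat_lit 65619) (nat_lit 10) (.e (nat_lit 344126) (nat_lit 25) (.e (nat_lit 548872) (nat_lit 5) (.e (nat_lit 1569) (nat_lit 110) (.e (nat_lit 360192) (nat_lit 0) .nil))))))) (.g (nat_lit 4) .nil .nil))) 
(.lf (nat_lit 101794) (.g (nat_lit 1135) (.e (nat_lit 3302) (nat_lit 202) (.e (nat_lit 573485) (nat_lit 13) (.e (nat_lit 65619) (nat_lit 10) (.e (nat_lit 344117) (nat_lit 21) .nil)))) .nil))) (.nd (nat_lit 5) 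
(.lf (nat_lit 101778) (.g (nat_lit 2025) (.e (nat_lit 3302) (nat_lit 202) (.e (nat_lit 573481) (nat_lit 13) (.e (nat_lit 65619) (nat_lit 10) (.e (nat_lit 344129) (nat_lit 26) (.e (nat_lit 557087) (nat_lit 11) .nil))))) .nil)) 
(.lf (nat_lit 101810) (.g (nat_lit 2234) (.e (nat_lit 3302) (nat_lit 202) (.e (nat_lit 573485) (nat_lit 13) (.e (nat_lit 65619) (nat_lit 10) (.e (nat_lit 344129) (nat_lit 26) (.e (nat_lit 557074) (nat_lit 9) (.e (nat_lit 7936) (nat_lit 26) (.e (nat_lit 376832) (nat_lit 0) .nil))))))) (.g (nat_lit 4) .nil .nil))))) (.nd (nat_lit 4) (.nd (nat_lit 5) 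
(.lf (nat_lit 101770) (.g (nat_lit 3147) (.e (nat_lit 3302) (nat_lit 202) (.e (nat_lit 573481) (nat_lit 13) (.e (nat_lit 65619) (nat_lit 10) (.e (nat_lit 344126) (nat_lit 25) (.e (nat_lit 548874) (nat_lit 5) (.e (nat_lit 1575) (nat_lit 110) (.e (nat_lit 352261) (nat_lit 0) .nil))))))) (.g (nat_lit 5) .nil .nil))) 
(.lf (nat_lit 101802) (.g (nat_lit 2227) (.e (nat_lit 3302) (nat_lit 202) (.e (nat_lit 573485) (nat_lit 13) (.e (nat_lit 65619) (nat_lit 10) (.e (nat_lit 344126) (nat_lit 25) (.e (nat_lit 548874) (nat_lit 5) (.e (nat_lit 1559) (nat_lit 110) (.e (nat_lit 352261) (nat_lit 0) .nil))))))) (.g (nat_lit 4) .nil .nil)))) (.nd (nat_lit 5) 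
(.lf (nat_lit 101786) (.g (nat_lit 2955) (.e (nat_lit 3302) (nat_lit 202) (.e (nat_lit 573482) (nat_lit 13) (.e (nat_lit 65619) (nat_lit 10) (.e (nat_lit 344129) (nat_lit 26) (.e (nat_lit 557074) (nat_lit 9) (.e (nat_lit 7936) (nat_lit 26) (.e (nat_lit 376833) (nat_lit 0) .nil))))))) (.g (nat_lit 4) .nil .nil))) 
(.lf (nat_lit 101818) (.g (nat_lit 1787) (.e (nat_lit 3302) (nat_lit 202) (.e (nat_lit 573491) (nat_lit 15) (.e (nat_lit 81943) (nat_lit 20) (.e (nat_lit 1841) (nat_lit 123) (.e (nat_lit 548874) (nat_lit 5) (.e (nat_lit 1575) (nat_lit 110) (.e (nat_lit 360192) (nat_lit 0) .nil))))))) (.g (nat_lit 5) .nil .nil)))))) (.nd (nat_lit 3) (.nd (nat_lit 4) (.nd (nat_lit 5) 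
(.lf (nat_lit 101766) (.g (nat_lit 2529) (.e (nat_lit 3302) (nat_lit 202) (.e (nat_lit 573481) (nat_lit 13) (.e (nat_lit 65619) (nat_lit 10) (.e (nat_lit 344126) (nat_lit 25) (.e (nat_lit 548873) (nat_lit 5) (.e (nat_lit 1575) (nat_lit 110) (.e (nat_lit 360192) (nat_lit 0) .nil))))))) (.g (nat_lit 5) .nil .nil))) 
(.lf (nat_lit 101798) (.g (nat_lit 1800) (.e (nat_lit 3302) (nat_lit 202) (.e (nat_lit 573485) (nat_lit 13) (.e (nat_lit 65619) (nat_lit 10) (.e (nat_lit 344126) (nat_lit 25) (.e (nat_lit 548873) (nat_lit 5) .nil))))) .nil))) (.nd (nat_lit 5) 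
(.lf (nat_lit 101782) (.g (nat_lit 2715) (.e (nat_lit 3302) (nat_lit 202) (.e (nat_lit 573482) (nat_lit 13) (.e (nat_lit 65619) (nat_lit 10) (.e (nat_lit 344129) (nat_lit 26) (.e (nat_lit 557065) (nat_lit 9) (.e (nat_lit 312) (nat_lit 23) (.e (nat_lit 352261) (nat_lit 0) .nil))))))) (.g (nat_lit 4) .nil .nil))) 
(.lf (nat_lit 101814) (.g (nat_lit 1723) (.e (nat_lit 3302) (nat_lit 202) (.e (nat_lit 573491) (nat_lit 15) (.e (nat_lit 81943) (nat_lit 20) (.e (nat_lit 1840) (nat_lit 123) (.e (nat_lit 548874) (nat_lit 5) (.e (nat_lit 1575) (nat_lit 110) (.e (nat_lit 360192) (nat_lit 0) .nil))))))) (.g (nat_lit 5) .nil .nil))))) (.nd (nat_lit 4) (.nd (nat_lit 5) 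
(.lf (nat_lit 101774) (.g (nat_lit 3628) (.e (nat_lit 3302) (nat_lit 202) (.e (nat_lit 573481) (nat_lit 13) (.e (nat_lit 65619) (nat_lit 10) (.e (nat_lit 344129) (nat_lit 26) (.e (nat_lit 557066) (nat_lit 9) (.e (nat_lit 312) (nat_lit 23) (.e (nat_lit 360192) (nat_lit 0) .nil))))))) (.g (nat_lit 5) .nil .nil))) 
(.lf (nat_lit 101806) (.g (nat_lit 2468) (.e (nat_lit 3302) (nat_lit 202) (.e (nat_lit 573485) (nat_lit 13) (.e (nat_lit 65619) (nat_lit 10) (.e (nat_lit 344129) (nat_lit 26) (.e (nat_lit 557065) (nat_lit 9) (.e (nat_lit 312) (nat_lit 23) (.e (nat_lit 352261) (nat_lit 0) .nil))))))) (.g (nat_lit 4) .nil .nil)))) (.nd (nat_lit 5) 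
(.lf (nat_lit 101790) (.g (nat_lit 2311) (.e (nat_lit 3302) (nat_lit 202) (.e (nat_lit 573484) (nat_lit 13) (.e (nat_lit 65610) (nat_lit 10) (.e (nat_lit 344129) (nat_lit 26) (.e (nat_lit 557087) (nat_lit 11) .nil))))) .nil)) 
(.lf (nat_lit 101822) (.g (nat_lit 1766) (.e (nat_lit 3302) (nat_lit 202) (.e (nat_lit 573491) (nat_lit 15) (.e (nat_lit 81943) (nat_lit 20) (.e (nat_lit 1842) (nat_lit 123) (.e (nat_lit 548873) (nat_lit 5) (.e (nat_lit 1575) (nat_lit 110) (.e (nat_lit 360192) (nat_lit 0) .nil))))))) (.g (nat_lit 5) .nil .nil)))))))) 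
(.nd (nat_lit 1) (.nd (nat_lit 2) (.nd (nat_lit 3) (.nd (nat_lit 4) (.nd (nat_lit 5) 
(.lf (nat_lit 101761) (.g (nat_lit 1667) (.e (nat_lit 3302) (nat_lit 202) (.e (nat_lit 573479) (nat_lit 13) (.e (nat_lit 65619) (nat_lit 10) (.e (nat_lit 344129) (nat_lit 26) (.e (nat_lit 557066) (nat_lit 9) .nil))))) .nil)) 
(.lf (nat_lit 101793) (.g (nat_lit 1916) (.e (nat_lit 3302) (nat_lit 202) (.e (nat_lit 573485) (nat_lit 13) (.e (nat_lit 65604) (nat_lit 9) (.e (nat_lit 336013) (nat_lit 2) (.e (nat_lit 90165) (nat_lit 12) .nil))))) .nil))) (.nd (nat_lit 5) 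
(.lf (nat_lit 101777) (.g (nat_lit 2546) (.e (nat_lit 3302) (nat_lit 202) (.e (nat_lit 573481) (nat_lit 13) (.e (nat_lit 65619) (nat_lit 10) (.e (nat_lit 344129) (nat_lit 26) (.e (nat_lit 557074) (nat_lit 9) (.e (nat_lit 7936) (nat_lit 26) (.e (nat_lit 376832) (nat_lit 0) .nil))))))) (.g (nat_lit 4) .nil .nil))) 
(.lf (nat_lit 101809) (.g (nat_lit 2501) (.e (nat_lit 3302) (nat_lit 202) (.e (nat_lit 573485) (nat_lit 13) (.e (nat_lit 65619) (nat_lit 10) (.e (nat_lit 344129) (nat_lit 26) (.e (nat_lit 557074) (nat_lit 9) (.e (nat_lit 7936) (nat_lit 23) (.e (nat_lit 352261) (nat_lit 0) .nil))))))) (.g (nat_lit 4) .nil .nil))))) (.nd (nat_lit 4) (.nd (nat_lit 5) 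
(.lf (nat_lit 101769) (.g (nat_lit 2433) (.e (nat_lit 3302) (nat_lit 202) (.e (nat_lit 573481) (nat_lit 13) (.e (nat_lit 65619) (nat_lit 10) (.e (nat_lit 344126) (nat_lit 25) (.e (nat_lit 548874) (nat_lit 5) (.e (nat_lit 1569) (nat_lit 110) (.e (nat_lit 360192) (nat_lit 0) .nil))))))) (.g (nat_lit 5) .nil .nil))) 
(.lf (nat_lit 101801) (.g (nat_lit 2381) (.e (nat_lit 3302) (nat_lit 202) (.e (nat_lit 573485) (nat_lit 13) (.e (nat_lit 65619) (nat_lit 10) (.e (nat_lit 344126) (nat_lit 25) (.e (nat_lit 548873) (nat_lit 5) (.e (nat_lit 1575) (nat_lit 110) (.e (nat_lit 360192) (nat_lit 0) .nil))))))) (.g (nat_lit 5) .nil .nil)))) (.nd (nat_lit 5) 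
(.lf (nat_lit 101785) (.g (nat_lit 2721) (.e (nat_lit 3302) (nat_lit 202) (.e (nat_lit 573482) (nat_lit 13) (.e (nat_lit 65619) (nat_lit 10) (.e (nat_lit 344129) (nat_lit 26) (.e (nat_lit 557074) (nat_lit 9) (.e (nat_lit 7936) (nat_lit 23) (.e (nat_lit 352261) (nat_lit 0) .nil))))))) (.g (nat_lit 4) .nil .nil))) 
(.lf (nat_lit 101817) (.g (nat_lit 1689) (.e (nat_lit 3302) (nat_lit 202) (.e (nat_lit 573491) (nat_lit 15) (.e (nat_lit 81943) (nat_lit 20) (.e (nat_lit 1841) (nat_lit 123) (.e (nat_lit 548874) (nat_lit 5) (.e (nat_lit 1559) (nat_lit 110) (.e (nat_lit 360192) (nat_lit 0) .nil))))))) (.g (nat_lit 5) .nil .nil)))))) (.nd (nat_lit 3) (.nd (nat_lit 4) (.nd (nat_lit 5) 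
(.lf (nat_lit 101765) (.g (nat_lit 2029) (.e (nat_lit 3302) (nat_lit 202) (.e (nat_lit 573481) (nat_lit 13) (.e (nat_lit 65619) (nat_lit 10) (.e (nat_lit 344126) (nat_lit 25) (.e (nat_lit 548873) (nat_lit 5) (.e (nat_lit 1569) (nat_lit 110) (.e (nat_lit 360192) (nat_lit 0) .nil))))))) (.g (nat_lit 4) .nil .nil))) 
(.lf (nat_lit 101797) (.g (nat_lit 2488) (.e (nat_lit 3302) (nat_lit 202) (.e (nat_lit 573485) (nat_lit 13) (.e (nat_lit 65619) (nat_lit 10) (.e (nat_lit 344126) (nat_lit 25) (.e (nat_lit 548872) (nat_lit 5) (.e (nat_lit 1575) (nat_lit 110) (.e (nat_lit 360192) (nat_lit 0) .nil))))))) (.g (nat_lit 5) .nil .nil)))) (.nd (nat_lit 5) 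
(.lf (nat_lit 101781) (.g (nat_lit 2848) (.e (nat_lit 3302) (nat_lit 202) (.e (nat_lit 573482) (nat_lit 13) (.e (nat_lit 65619) (nat_lit 10) (.e (nat_lit 344126) (nat_lit 25) (.e (nat_lit 548874) (nat_lit 5) (.e (nat_lit 1575) (nat_lit 110) (.e (nat_lit 352261) (nat_lit 0) .nil))))))) (.g (nat_lit 4) .nil .nil))) 
(.lf (nat_lit 101813) (.g (nat_lit 1711) (.e (nat_lit 3302) (nat_lit 202) (.e (nat_lit 573491) (nat_lit 15) (.e (nat_lit 81943) (nat_lit 20) (.e (nat_lit 1840) (nat_lit 123) (.e (nat_lit 548874) (nat_lit 5) (.e (nat_lit 1559) (nat_lit 110) (.e (nat_lit 360192) (nat_lit 0) .nil))))))) (.g (nat_lit 5) .nil .nil))))) (.nd (nat_lit 4) (.nd (nat_lit 5) 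
(.lf (nat_lit 101773) (.g (nat_lit 3152) (.e (nat_lit 3302) (nat_lit 202) (.e (nat_lit 573481) (nat_lit 13) (.e (nat_lit 65619) (nat_lit 10) (.e (nat_lit 344129) (nat_lit 26) (.e (nat_lit 557066) (nat_lit 9) (.e (nat_lit 310) (nat_lit 23) (.e (nat_lit 352261) (nat_lit 0) .nil))))))) (.g (nat_lit 5) .nil .nil))) 
(.lf (nat_lit 101805) (.g (nat_lit 2902) (.e (nat_lit 3302) (nat_lit 202) (.e (nat_lit 573485) (nat_lit 13) (.e (nat_lit 65619) (nat_lit 10) (.e (nat_lit 344126) (nat_lit 25) (.e (nat_lit 548874) (nat_lit 5) (.e (nat_lit 1575) (nat_lit 110) (.e (nat_lit 360192) (nat_lit 0) .nil))))))) (.g (nat_lit 5) .nil .nil)))) (.nd (nat_lit 5) 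
(.lf (nat_lit 101789) (.g (nat_lit 4150) (.e (nat_lit 3302) (nat_lit 202) (.e (nat_lit 573484) (nat_lit 13) (.e (nat_lit 65610) (nat_lit 10) (.e (nat_lit 344129) (nat_lit 26) (.e (nat_lit 557066) (nat_lit 9) (.e (nat_lit 312) (nat_lit 23) (.e (nat_lit 352261) (nat_lit 0) .nil))))))) (.g (nat_lit 6) .nil .nil))) 
(.lf (nat_lit 101821) (.g (nat_lit 1743) (.e (nat_lit 3302) (nat_lit 202) (.e (nat_lit 573491) (nat_lit 15) (.e (nat_lit 81943) (nat_lit 20) (.e (nat_lit 1842) (nat_lit 123) (.e (nat_lit 548873) (nat_lit 5) (.e (nat_lit 1559) (nat_lit 110) (.e (nat_lit 360192) (nat_lit 0) .nil))))))) (.g (nat_lit 4) .nil .nil))))))) (.nd (nat_lit 2) (.nd (nat_lit 3) (.nd (nat_lit 4) (.nd (nat_lit 5) 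
(.lf (nat_lit 101763) (.g (nat_lit 2629) (.e (nat_lit 3302) (nat_lit 202) (.e (nat_lit 573481) (nat_lit 13) (.e (nat_lit 65619) (nat_lit 10) (.e (nat_lit 344126) (nat_lit 25) (.e (nat_lit 548872) (nat_lit 5) (.e (nat_lit 1575) (nat_lit 110) (.e (nat_lit 360192) (nat_lit 0) .nil))))))) (.g (nat_lit 6) .nil .nil))) 
(.lf (nat_lit 101795) (.g (nat_lit 1913) (.e (nat_lit 3302) (nat_lit 202) (.e (nat_lit 573485) (nat_lit 13) (.e (nat_lit 65619) (nat_lit 10) (.e (nat_lit 344126) (nat_lit 25) (.e (nat_lit 548872) (nat_lit 5) .nil))))) .nil))) (.nd (nat_lit 5) 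
(.lf (nat_lit 101779) (.g (nat_lit 1123) (.e (nat_lit 3302) (nat_lit 202) (.e (nat_lit 573482) (nat_lit 13) (.e (nat_lit 65604) (nat_lit 9) .nil))) .nil)) 
(.lf (nat_lit 101811) (.g (nat_lit 254) (.e (nat_lit 3302) (nat_lit 202) (.e (nat_lit 573490) (nat_lit 15) (.e (nat_lit 81956) (nat_lit 23) .nil))) .nil)))) (.nd (nat_lit 4) (.nd (nat_lit 5) 
(.lf (nat_lit 101771) (.g (nat_lit 3056) (.e (nat_lit 3302) (nat_lit 202) (.e (nat_lit 573481) (nat_lit 13) (.e (nat_lit 65619) (nat_lit 10) (.e (nat_lit 344126) (nat_lit 25) (.e (nat_lit 548874) (nat_lit 5) (.e (nat_lit 1575) (nat_lit 110) (.e (nat_lit 360192) (nat_lit 0) .nil))))))) (.g (nat_lit 5) .nil .nil))) 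
(.lf (nat_lit 101803) (.g (nat_lit 2845) (.e (nat_lit 3302) (nat_lit 202) (.e (nat_lit 573485) (nat_lit 13) (.e (nat_lit 65619) (nat_lit 10) (.e (nat_lit 344126) (nat_lit 25) (.e (nat_lit 548874) (nat_lit 5) (.e (nat_lit 1559) (nat_lit 110) (.e (nat_lit 360192) (nat_lit 0) .nil))))))) (.g (nat_lit 5) .nil .nil)))) (.nd (nat_lit 5) 
(.lf (nat_lit 101787) (.g (nat_lit 2628) (.e (nat_lit 3302) (nat_lit 202) (.e (nat_lit 573484) (nat_lit 13) (.e (nat_lit 65610) (nat_lit 10) (.e (nat_lit 344117) (nat_lit 21) (.e (nat_lit 516181) (nat_lit 15) .nil))))) .nil)) 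
(.lf (nat_lit 101819) (.g (nat_lit 2292) (.e (nat_lit 3302) (nat_lit 202) (.e (nat_lit 573491) (nat_lit 15) (.e (nat_lit 81943) (nat_lit 20) (.e (nat_lit 1841) (nat_lit 123) (.e (nat_lit 548891) (nat_lit 11) (.e (nat_lit 89856) (nat_lit 0) .nil)))))) (.g (nat_lit 5) .nil .nil)))))) (.nd (nat_lit 3) (.nd (nat_lit 4) (.nd (nat_lit 5) 
(.lf (nat_lit 101767) (.g (nat_lit 2698) (.e (nat_lit 3302) (nat_lit 202) (.e (nat_lit 573481) (nat_lit 13) (.e (nat_lit 65619) (nat_lit 10) (.e (nat_lit 344126) (nat_lit 25) (.e (nat_lit 548874) (nat_lit 5) (.e (nat_lit 1559) (nat_lit 110) (.e (nat_lit 352261) (nat_lit 0) .nil))))))) (.g (nat_lit 5) .nil .nil))) 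
(.lf (nat_lit 101799) (.g (nat_lit 2301) (.e (nat_lit 3302) (nat_lit 202) (.e (nat_lit 573485) (nat_lit 13) (.e (nat_lit 65619) (nat_lit 10) (.e (nat_lit 344126) (nat_lit 25) (.e (nat_lit 548873) (nat_lit 5) (.e (nat_lit 1559) (nat_lit 110) (.e (nat_lit 360192) (nat_lit 0) .nil))))))) (.g (nat_lit 5) .nil .nil)))) (.nd (nat_lit 5) 
(.lf (nat_lit 101783) (.g (nat_lit 2742) (.e (nat_lit 3302) (nat_lit 202) (.e (nat_lit 573482) (nat_lit 13) (.e (nat_lit 65619) (nat_lit 10) (.e (nat_lit 344129) (nat_lit 26) (.e (nat_lit 557066) (nat_lit 9) (.e (nat_lit 310) (nat_lit 23) (.e (nat_lit 352261) (nat_lit 0) .nil))))))) (.g (nat_lit 4) .nil .nil))) 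
(.lf (nat_lit 101815) (.g (nat_lit 2138) (.e (nat_lit 3302) (nat_lit 202) (.e (nat_lit 573491) (nat_lit 15) (.e (nat_lit 81943) (nat_lit 20) (.e (nat_lit 1840) (nat_lit 123) (.e (nat_lit 548891) (nat_lit 11) (.e (nat_lit 89856) (nat_lit 0) .nil)))))) (.g (nat_lit 5) .nil .nil))))) (.nd (nat_lit 4) (.nd (nat_lit 5) 
(.lf (nat_lit 101775) (.g (nat_lit 2228) (.e (nat_lit 3302) (nat_lit 202) (.e (nat_lit 573481) (nat_lit 13) (.e (nat_lit 65619) (nat_lit 10) (.e (nat_lit 344129) (nat_lit 26) (.e (nat_lit 557066) (nat_lit 9) (.e (nat_lit 314) (nat_lit 23) (.e (nat_lit 360192) (nat_lit 0) .nil))))))) (.g (nat_lit 4) .nil .nil))) 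
(.lf (nat_lit 101807) (.g (nat_lit 1836) (.e (nat_lit 3302) (nat_lit 202) (.e (nat_lit 573485) (nat_lit 13) (.e (nat_lit 65619) (nat_lit 10) (.e (nat_lit 344129) (nat_lit 26) (.e (nat_lit 557065) (nat_lit 9) (.e (nat_lit 312) (nat_lit 23) (.e (nat_lit 360192) (nat_lit 0) .nil))))))) (.g (nat_lit 4) .nil .nil)))) (.nd (nat_lit 5) 
(.lf (nat_lit 101791) (.g (nat_lit 3164) (.e (nat_lit 3302) (nat_lit 202) (.e (nat_lit 573484) (nat_lit 13) (.e (nat_lit 65617) (nat_lit 10) (.e (nat_lit 344130) (nat_lit 26) (.e (nat_lit 557066) (nat_lit 9) (.e (nat_lit 312) (nat_lit 23) (.e (nat_lit 360192) (nat_lit 0) .nil))))))) (.g (nat_lit 5) .nil .nil))) 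
(.lf (nat_lit 101823) (.g (nat_lit 2379) (.e (nat_lit 3302) (nat_lit 202) (.e (nat_lit 573491) (nat_lit 15) (.e (nat_lit 81943) (nat_lit 20) (.e (nat_lit 1842) (nat_lit 123) (.e (nat_lit 548874) (nat_lit 5) (.e (nat_lit 1559) (nat_lit 110) (.e (nat_lit 352261) (nat_lit 0) .nil))))))) (.g (nat_lit 5) .nil .nil)))))))))

noncomputable def tv1386 : DT := (.nd (nat_lit 0) (.nd (nat_lit 1) (.nd (nat_lit 2) (.nd (nat_lit 3) (.nd (nat_lit 4) (.nd (nat_lit 5) 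
(.lf (nat_lit 101824) (.g (nat_lit 2117) (.e (nat_lit 3302) (nat_lit 202) (.e (nat_lit 573491) (nat_lit 15) (.e (nat_lit 81943) (nat_lit 20) (.e (nat_lit 1842) (nat_lit 123) (.e (nat_lit 548874) (nat_lit 5) (.e (nat_lit 1559) (nat_lit 110) (.e (nat_lit 360192) (nat_lit 0) .nil))))))) (.g (nat_lit 5) .nil .nil))) 
(.lf (nat_lit 101856) (.g (nat_lit 3077) (.e (nat_lit 3304) (nat_lit 202) (.e (nat_lit 573451) (nat_lit 9) (.e (nat_lit 1595) (nat_lit 111) (.e (nat_lit 360467) (nat_lit 3) (.e (nat_lit 516146) (nat_lit 9) (.e (nat_lit 426444) (nat_lit 19) (.e (nat_lit 106500) (nat_lit 0) (.e (nat_lit 2453) (nat_lit 157) .nil)))))))) (.g (nat_lit 5) .nil .nil)))) (.nd (nat_lit 5) 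
(.lf (nat_lit 101840) (.g (nat_lit 2922) (.e (nat_lit 3302) (nat_lit 202) (.e (nat_lit 573492) (nat_lit 15) (.e (nat_lit 81956) (nat_lit 23) (.e (nat_lit 98356) (nat_lit 26) (.e (nat_lit 426439) (nat_lit 19) .nil))))) .nil)) 
(.lf (nat_lit 101872) (.g (nat_lit 2506) (.e (nat_lit 3304) (nat_lit 202) (.e (nat_lit 573471) (nat_lit 11) (.e (nat_lit 16473) (nat_lit 14) (.e (nat_lit 491529) (nat_lit 0) .nil)))) .nil)))) (.nd (nat_lit 4) (.nd (nat_lit 5) 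
(.lf (nat_lit 101832) (.g (nat_lit 2727) (.e (nat_lit 3302) (nat_lit 202) (.e (nat_lit 573491) (nat_lit 15) (.e (nat_lit 81946) (nat_lit 20) (.e (nat_lit 1842) (nat_lit 123) (.e (nat_lit 548891) (nat_lit 11) (.e (nat_lit 89856) (nat_lit 0) .nil)))))) (.g (nat_lit 5) .nil .nil))) 
(.lf (nat_lit 101864) (.g (nat_lit 3537) (.e (nat_lit 3304) (nat_lit 202) (.e (nat_lit 573454) (nat_lit 9) (.e (nat_lit 1315) (nat_lit 98) (.e (nat_lit 147495) (nat_lit 11) (.e (nat_lit 24608) (nat_lit 3) (.e (nat_lit 98381) (nat_lit 31) (.e (nat_lit 466967) (nat_lit 20) .nil))))))) (.g (nat_lit 5) .nil .nil)))) (.nd (nat_lit 5) 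
(.lf (nat_lit 101848) (.g (nat_lit 4315) (.e (nat_lit 3302) (nat_lit 202) (.e (nat_lit 573493) (nat_lit 15) (.e (nat_lit 81956) (nat_lit 23) (.e (nat_lit 98388) (nat_lit 33) .nil)))) .nil)) 
(.lf (nat_lit 101880) (.g (nat_lit 1886) (.e (nat_lit 3304) (nat_lit 202) (.e (nat_lit 573475) (nat_lit 12) (.e (nat_lit 57347) (nat_lit 0) (.e (nat_lit 7261) (nat_lit 384) .nil)))) .nil))))) (.nd (nat_lit 3) (.nd (nat_lit 4) (.nd (nat_lit 5) 
(.lf (nat_lit 101828) (.g (nat_lit 2225) (.e (nat_lit 3302) (nat_lit 202) (.e (nat_lit 573491) (nat_lit 15) (.e (nat_lit 81946) (nat_lit 20) (.e (nat_lit 1841) (nat_lit 123) (.e (nat_lit 548874) (nat_lit 5) (.e (nat_lit 1575) (nat_lit 110) (.e (nat_lit 352261) (nat_lit 0) .nil))))))) (.g (nat_lit 4) .nil .nil))) 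
(.lf (nat_lit 101860) (.g (nat_lit 4458) (.e (nat_lit 3304) (nat_lit 202) (.e (nat_lit 573451) (nat_lit 9) (.e (nat_lit 1595) (nat_lit 111) (.e (nat_lit 360473) (nat_lit 8) (.e (nat_lit 557087) (nat_lit 11) (.e (nat_lit 24625) (nat_lit 9) (.e (nat_lit 336261) (nat_lit 15) .nil))))))) (.g (nat_lit 6) .nil .nil)))) (.nd (nat_lit 5) 
(.lf (nat_lit 101844) (.g (nat_lit 2644) (.e (nat_lit 3302) (nat_lit 202) (.e (nat_lit 573493) (nat_lit 15) (.e (nat_lit 81954) (nat_lit 23) (.e (nat_lit 98386) (nat_lit 32) .nil)))) .nil)) 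
(.lf (nat_lit 101876) (.g (nat_lit 1828) (.e (nat_lit 3304) (nat_lit 202) (.e (nat_lit 573473) (nat_lit 12) (.e (nat_lit 57348) (nat_lit 0) (.e (nat_lit 7265) (nat_lit 384) (.e (nat_lit 57431) (nat_lit 16) (.e (nat_lit 368676) (nat_lit 21) (.e (nat_lit 516176) (nat_lit 14) (.e (nat_lit 466967) (nat_lit 20) .nil)))))))) (.g (nat_lit 4) .nil .nil))))) (.nd (nat_lit 4) (.nd (nat_lit 5) 
(.lf (nat_lit 101836) (.g (nat_lit 1595) (.e (nat_lit 3302) (nat_lit 202) (.e (nat_lit 573492) (nat_lit 15) (.e (nat_lit 81956) (nat_lit 23) (.e (nat_lit 98349) (nat_lit 24) .nil)))) .nil)) 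
(.lf (nat_lit 101868) (.g (nat_lit 3232) (.e (nat_lit 3304) (nat_lit 202) (.e (nat_lit 573454) (nat_lit 9) (.e (nat_lit 1315) (nat_lit 98) (.e (nat_lit 147496) (nat_lit 11) (.e (nat_lit 24608) (nat_lit 3) (.e (nat_lit 98381) (nat_lit 31) (.e (nat_lit 466967) (nat_lit 20) .nil))))))) (.g (nat_lit 5) .nil .nil)))) (.nd (nat_lit 5) 
(.lf (nat_lit 101852) (.g (nat_lit 3031) (.e (nat_lit 3303) (nat_lit 202) (.e (nat_lit 573489) (nat_lit 14) (.e (nat_lit 73755) (nat_lit 8) (.e (nat_lit 557097) (nat_lit 13) (.e (nat_lit 172133) (nat_lit 15) .nil))))) .nil)) 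
(.lf (nat_lit 101884) (.g (nat_lit 2871) (.e (nat_lit 3304) (nat_lit 202) (.e (nat_lit 573475) (nat_lit 12) (.e (nat_lit 57347) (nat_lit 0) (.e (nat_lit 7265) (nat_lit 384) (.e (nat_lit 57431) (nat_lit 16) (.e (nat_lit 368676) (nat_lit 21) (.e (nat_lit 516176) (nat_lit 14) (.e (nat_lit 466967) (nat_lit 20) .nil)))))))) (.g (nat_lit 5) .nil .nil))))))) 
(.nd (nat_lit 2) (.nd (nat_lit 3) (.nd (nat_lit 4) (.nd (nat_lit 5) 
(.lf (nat_lit 101826) (.g (nat_lit 2141) (.e (nat_lit 3302) (nat_lit 202) (.e (nat_lit 573491) (nat_lit 15) (.e (nat_lit 81943) (nat_lit 20) (.e (nat_lit 1842) (nat_lit 123) (.e (nat_lit 548874) (nat_lit 5) (.e (nat_lit 1575) (nat_lit 110) (.e (nat_lit 360192) (nat_lit 0) .nil))))))) (.g (nat_lit 5) .nil .nil))) 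
(.lf (nat_lit 101858) (.g (nat_lit 2224) (.e (nat_lit 3304) (nat_lit 202) (.e (nat_lit 573451) (nat_lit 9) (.e (nat_lit 1595) (nat_lit 111) (.e (nat_lit 360467) (nat_lit 3) (.e (nat_lit 516182) (nat_lit 15) (.e (nat_lit 475209) (nat_lit 41) (.e (nat_lit 712719) (nat_lit 15) .nil))))))) (.g (nat_lit 4) .nil .nil)))) (.nd (nat_lit 5) 
(.lf (nat_lit 101842) (.g (nat_lit 3604) (.e (nat_lit 3302) (nat_lit 202) (.e (nat_lit 573493) (nat_lit 15) (.e (nat_lit 81953) (nat_lit 22) (.e (nat_lit 90170) (nat_lit 13) (.e (nat_lit 172138) (nat_lit 15) .nil))))) .nil)) 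
(.lf (nat_lit 101874) (.g (nat_lit 2263) (.e (nat_lit 3304) (nat_lit 202) (.e (nat_lit 573473) (nat_lit 12) (.e (nat_lit 57347) (nat_lit 0) (.e (nat_lit 7266) (nat_lit 384) (.e (nat_lit 57431) (nat_lit 16) .nil))))) .nil)))) (.nd (nat_lit 4) (.nd (nat_lit 5) 
(.lf (nat_lit 101834) (.g (nat_lit 1776) (.e (nat_lit 3302) (nat_lit 202) (.e (nat_lit 573491) (nat_lit 15) (.e (nat_lit 81947) (nat_lit 20) (.e (nat_lit 1842) (nat_lit 123) (.e (nat_lit 548874) (nat_lit 5) (.e (nat_lit 1559) (nat_lit 110) (.e (nat_lit 360192) (nat_lit 0) .nil))))))) (.g (nat_lit 4) .nil .nil))) 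
(.lf (nat_lit 101866) (.g (nat_lit 2230) (.e (nat_lit 3304) (nat_lit 202) (.e (nat_lit 573454) (nat_lit 9) (.e (nat_lit 1315) (nat_lit 98) (.e (nat_lit 147496) (nat_lit 11) (.e (nat_lit 24603) (nat_lit 2) (.e (nat_lit 90176) (nat_lit 15) (.e (nat_lit 188424) (nat_lit 20) .nil))))))) (.g (nat_lit 4) .nil .nil)))) (.nd (nat_lit 5) 
(.lf (nat_lit 101850) (.g (nat_lit 3302) (.e (nat_lit 3303) (nat_lit 202) (.e (nat_lit 573471) (nat_lit 11) (.e (nat_lit 16425) (nat_lit 7) (.e (nat_lit 409616) (nat_lit 10) .nil)))) .nil)) 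
(.lf (nat_lit 101882) (.g (nat_lit 2562) (.e (nat_lit 3304) (nat_lit 202) (.e (nat_lit 573475) (nat_lit 12) (.e (nat_lit 57347) (nat_lit 0) (.e (nat_lit 7261) (nat_lit 384) (.e (nat_lit 57431) (nat_lit 16) (.e (nat_lit 368676) (nat_lit 21) (.e (nat_lit 516176) (nat_lit 14) (.e (nat_lit 466967) (nat_lit 20) .nil)))))))) (.g (nat_lit 4) .nil .nil)))))) 
(.nd (nat_lit 3) (.nd (nat_lit 4) (.nd (nat_lit 5) 
(.lf (nat_lit 101830) (.g (nat_lit 1937) (.e (nat_lit 3302) (nat_lit 202) (.e (nat_lit 573491) (nat_lit 15) (.e (nat_lit 81946) (nat_lit 20) (.e (nat_lit 1842) (nat_lit 123) (.e (nat_lit 548874) (nat_lit 5) (.e (nat_lit 1559) (nat_lit 110) (.e (nat_lit 360192) (nat_lit 0) .nil))))))) (.g (nat_lit 4) .nil .nil))) 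
(.lf (nat_lit 101862) (.g (nat_lit 3660) (.e (nat_lit 3304) (nat_lit 202) (.e (nat_lit 573454) (nat_lit 9) (.e (nat_lit 1315) (nat_lit 98) (.e (nat_lit 147495) (nat_lit 11) (.e (nat_lit 24604) (nat_lit 2) (.e (nat_lit 90176) (nat_lit 15) (.e (nat_lit 188439) (nat_lit 20) .nil))))))) (.g (nat_lit 5) .nil .nil)))) (.nd (nat_lit 5) 
(.lf (nat_lit 101846) (.g (nat_lit 3316) (.e (nat_lit 3302) (nat_lit 202) (.e (nat_lit 573493) (nat_lit 15) (.e (nat_lit 81956) (nat_lit 23) (.e (nat_lit 98386) (nat_lit 32) .nil)))) .nil)) 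
(.lf (nat_lit 101878) (.g (nat_lit 1853) (.e (nat_lit 3304) (nat_lit 202) (.e (nat_lit 573473) (nat_lit 12) (.e (nat_lit 57353) (nat_lit 0) (.e (nat_lit 7266) (nat_lit 384) (.e (nat_lit 57430) (nat_lit 16) (.e (nat_lit 368676) (nat_lit 21) (.e (nat_lit 516176) (nat_lit 14) (.e (nat_lit 466967) (nat_lit 20) .nil)))))))) (.g (nat_lit 4) .nil .nil))))) (.nd (nat_lit 4) (.nd (nat_lit 5) 
(.lf (nat_lit 101838) (.g (nat_lit 3546) (.e (nat_lit 3302) (nat_lit 202) (.e (nat_lit 573492) (nat_lit 15) (.e (nat_lit 81956) (nat_lit 23) (.e (nat_lit 98350) (nat_lit 24) (.e (nat_lit 409616) (nat_lit 10) (.e (nat_lit 5353) (nat_lit 298) (.e (nat_lit 40) (nat_lit 0) .nil))))))) (.g (nat_lit 4) .nil .nil))) 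
(.lf (nat_lit 101870) (.g (nat_lit 5150) (.e (nat_lit 3304) (nat_lit 202) (.e (nat_lit 573471) (nat_lit 11) (.e (nat_lit 16470) (nat_lit 14) (.e (nat_lit 491537) (nat_lit 2) (.e (nat_lit 90178) (nat_lit 15) .nil))))) .nil))) (.nd (nat_lit 5) 
(.lf (nat_lit 101854) (.g (nat_lit 1724) (.e (nat_lit 3304) (nat_lit 202) (.e (nat_lit 573450) (nat_lit 9) (.e (nat_lit 375) (nat_lit 32) (.e (nat_lit 426173) (nat_lit 7) .nil)))) .nil)) 
(.lf (nat_lit 101886) (.g (nat_lit 3721) (.e (nat_lit 3304) (nat_lit 202) (.e (nat_lit 573475) (nat_lit 12) (.e (nat_lit 57347) (nat_lit 0) (.e (nat_lit 7266) (nat_lit 384) (.e (nat_lit 57430) (nat_lit 16) (.e (nat_lit 368676) (nat_lit 21) (.e (nat_lit 516176) (nat_lit 14) (.e (nat_lit 466967) (nat_lit 20) .nil)))))))) (.g (nat_lit 5) .nil .nil)))))))) 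
(.nd (nat_lit 1) (.nd (nat_lit 2) (.nd (nat_lit 3) (.nd (nat_lit 4) (.nd (nat_lit 5) 
(.lf (nat_lit 101825) (.g (nat_lit 1698) (.e (nat_lit 3302) (nat_lit 202) (.e (nat_lit 573491) (nat_lit 15) (.e (nat_lit 81943) (nat_lit 20) (.e (nat_lit 1842) (nat_lit 123) (.e (nat_lit 548874) (nat_lit 5) (.e (nat_lit 1562) (nat_lit 110) (.e (nat_lit 360192) (nat_lit 0) .nil))))))) (.g (nat_lit 4) .nil .nil))) 
(.lf (nat_lit 101857) (.g (nat_lit 3697) (.e (nat_lit 3304) (nat_lit 202) (.e (nat_lit 573451) (nat_lit 9) (.e (nat_lit 1595) (nat_lit 111) (.e (nat_lit 360467) (nat_lit 3) (.e (nat_lit 516179) (nat_lit 15) (.e (nat_lit 475209) (nat_lit 41) (.e (nat_lit 712719) (nat_lit 15) .nil))))))) (.g (nat_lit 5) .nil .nil)))) (.nd (nat_lit 5) 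
(.lf (nat_lit 101841) (.g (nat_lit 2102) (.e (nat_lit 3302) (nat_lit 202) (.e (nat_lit 573492) (nat_lit 15) (.e (nat_lit 81956) (nat_lit 23) (.e (nat_lit 98389) (nat_lit 33) .nil)))) .nil)) 
(.lf (nat_lit 101873) (.g (nat_lit 2736) (.e (nat_lit 3304) (nat_lit 202) (.e (nat_lit 573473) (nat_lit 12) (.e (nat_lit 57347) (nat_lit 0) (.e (nat_lit 7266) (nat_lit 384) (.e (nat_lit 57430) (nat_lit 16) (.e (nat_lit 368676) (nat_lit 21) (.e (nat_lit 516176) (nat_lit 14) (.e (nat_lit 466967) (nat_lit 20) .nil)))))))) (.g (nat_lit 4) .nil .nil))))) (.nd (nat_lit 4) (.nd (nat_lit 5) 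
(.lf (nat_lit 101833) (.g (nat_lit 1152) (.e (nat_lit 3302) (nat_lit 202) (.e (nat_lit 573491) (nat_lit 15) (.e (nat_lit 81947) (nat_lit 20) (.e (nat_lit 1841) (nat_lit 123) .nil)))) .nil)) 
(.lf (nat_lit 101865) (.g (nat_lit 1959) (.e (nat_lit 3304) (nat_lit 202) (.e (nat_lit 573454) (nat_lit 9) (.e (nat_lit 1315) (nat_lit 98) (.e (nat_lit 147496) (nat_lit 11) (.e (nat_lit 24603) (nat_lit 2) .nil))))) .nil))) (.nd (nat_lit 5) 
(.lf (nat_lit 101849) (.g (nat_lit 3403) (.e (nat_lit 3302) (nat_lit 202) (.e (nat_lit 573493) (nat_lit 15) (.e (nat_lit 81956) (nat_lit 23) (.e (nat_lit 98389) (nat_lit 33) .nil)))) .nil)) 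
(.lf (nat_lit 101881) (.g (nat_lit 2704) (.e (nat_lit 3304) (nat_lit 202) (.e (nat_lit 573475) (nat_lit 12) (.e (nat_lit 57347) (nat_lit 0) (.e (nat_lit 7261) (nat_lit 384) (.e (nat_lit 57430) (nat_lit 16) (.e (nat_lit 368676) (nat_lit 21) (.e (nat_lit 516176) (nat_lit 14) (.e (nat_lit 466967) (nat_lit 20) .nil)))))))) (.g (nat_lit 4) .nil .nil)))))) 
(.nd (nat_lit 3) (.nd (nat_lit 4) (.nd (nat_lit 5) 
(.lf (nat_lit 101829) (.g (nat_lit 2196) (.e (nat_lit 3302) (nat_lit 202) (.e (nat_lit 573491) (nat_lit 15) (.e (nat_lit 81946) (nat_lit 20) (.e (nat_lit 1842) (nat_lit 123) (.e (nat_lit 548874) (nat_lit 5) (.e (nat_lit 1559) (nat_lit 110) (.e (nat_lit 352261) (nat_lit 0) .nil))))))) (.g (nat_lit 4) .nil .nil))) 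
(.lf (nat_lit 101861) (.g (nat_lit 2625) (.e (nat_lit 3304) (nat_lit 202) (.e (nat_lit 573454) (nat_lit 9) (.e (nat_lit 1315) (nat_lit 98) (.e (nat_lit 147495) (nat_lit 11) (.e (nat_lit 24601) (nat_lit 2) (.e (nat_lit 90176) (nat_lit 15) (.e (nat_lit 188439) (nat_lit 20) .nil))))))) (.g (nat_lit 4) .nil .nil)))) (.nd (nat_lit 5) 
(.lf (nat_lit 101845) (.g (nat_lit 3192) (.e (nat_lit 3302) (nat_lit 202) (.e (nat_lit 573493) (nat_lit 15) (.e (nat_lit 81956) (nat_lit 23) (.e (nat_lit 98384) (nat_lit 32) .nil)))) .nil)) 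
(.lf (nat_lit 101877) (.g (nat_lit 1759) (.e (nat_lit 3304) (nat_lit 202) (.e (nat_lit 573473) (nat_lit 12) (.e (nat_lit 57353) (nat_lit 0) (.e (nat_lit 7265) (nat_lit 384) (.e (nat_lit 57431) (nat_lit 16) (.e (nat_lit 368676) (nat_lit 21) (.e (nat_lit 516176) (nat_lit 14) (.e (nat_lit 466967) (nat_lit 20) .nil)))))))) (.g (nat_lit 4) .nil .nil))))) (.nd (nat_lit 4) (.nd (nat_lit 5) 
(.lf (nat_lit 101837) (.g (nat_lit 2792) (.e (nat_lit 3302) (nat_lit 202) (.e (nat_lit 573492) (nat_lit 15) (.e (nat_lit 81956) (nat_lit 23) (.e (nat_lit 98350) (nat_lit 24) (.e (nat_lit 409616) (nat_lit 10) .nil))))) .nil)) 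
(.lf (nat_lit 101869) (.g (nat_lit 963) (.e (nat_lit 3304) (nat_lit 202) (.e (nat_lit 573469) (nat_lit 11) (.e (nat_lit 16461) (nat_lit 12) (.e (nat_lit 475185) (nat_lit 29) .nil)))) .nil))) (.nd (nat_lit 5) 
(.lf (nat_lit 101853) (.g (nat_lit 3667) (.e (nat_lit 3303) (nat_lit 202) (.e (nat_lit 573489) (nat_lit 14) (.e (nat_lit 73755) (nat_lit 8) (.e (nat_lit 557098) (nat_lit 13) (.e (nat_lit 172133) (nat_lit 15) .nil))))) .nil)) 
(.lf (nat_lit 101885) (.g (nat_lit 2889) (.e (nat_lit 3304) (nat_lit 202) (.e (nat_lit 573475) (nat_lit 12) (.e (nat_lit 57347) (nat_lit 0) (.e (nat_lit 7266) (nat_lit 384) (.e (nat_lit 57430) (nat_lit 16) .nil))))) .nil)))))) (.nd (nat_lit 2) (.nd (nat_lit 3) (.nd (nat_lit 4) (.nd (nat_lit 5) 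
(.lf (nat_lit 101827) (.g (nat_lit 2506) (.e (nat_lit 3302) (nat_lit 202) (.e (nat_lit 573491) (nat_lit 15) (.e (nat_lit 81943) (nat_lit 20) (.e (nat_lit 1842) (nat_lit 123) (.e (nat_lit 548891) (nat_lit 11) (.e (nat_lit 89856) (nat_lit 0) .nil)))))) (.g (nat_lit 5) .nil .nil))) 
(.lf (nat_lit 101859) (.g (nat_lit 1876) (.e (nat_lit 3304) (nat_lit 202) (.e (nat_lit 573451) (nat_lit 9) (.e (nat_lit 1595) (nat_lit 111) (.e (nat_lit 360473) (nat_lit 8) (.e (nat_lit 557087) (nat_lit 11) .nil))))) .nil))) (.nd (nat_lit 5) 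
(.lf (nat_lit 101843) (.g (nat_lit 2845) (.e (nat_lit 3302) (nat_lit 202) (.e (nat_lit 573493) (nat_lit 15) (.e (nat_lit 81954) (nat_lit 23) (.e (nat_lit 98384) (nat_lit 32) .nil)))) .nil)) 
(.lf (nat_lit 101875) (.g (nat_lit 1877) (.e (nat_lit 3304) (nat_lit 202) (.e (nat_lit 573473) (nat_lit 12) (.e (nat_lit 57348) (nat_lit 0) (.e (nat_lit 7265) (nat_lit 384) (.e (nat_lit 57430) (nat_lit 16) (.e (nat_lit 368676) (nat_lit 21) (.e (nat_lit 516176) (nat_lit 14) (.e (nat_lit 466967) (nat_lit 20) .nil)))))))) (.g (nat_lit 4) .nil .nil))))) (.nd (nat_lit 4) (.nd (nat_lit 5) 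
(.lf (nat_lit 101835) (.g (nat_lit 1898) (.e (nat_lit 3302) (nat_lit 202) (.e (nat_lit 573491) (nat_lit 15) (.e (nat_lit 81947) (nat_lit 20) (.e (nat_lit 1842) (nat_lit 123) (.e (nat_lit 548874) (nat_lit 5) (.e (nat_lit 1575) (nat_lit 110) (.e (nat_lit 360192) (nat_lit 0) .nil))))))) (.g (nat_lit 4) .nil .nil))) 
(.lf (nat_lit 101867) (.g (nat_lit 2236) (.e (nat_lit 3304) (nat_lit 202) (.e (nat_lit 573454) (nat_lit 9) (.e (nat_lit 1315) (nat_lit 98) (.e (nat_lit 147496) (nat_lit 11) (.e (nat_lit 24603) (nat_lit 2) (.e (nat_lit 90176) (nat_lit 15) (.e (nat_lit 188442) (nat_lit 20) .nil))))))) (.g (nat_lit 4) .nil .nil)))) (.nd (nat_lit 5) 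
(.lf (nat_lit 101851) (.g (nat_lit 3199) (.e (nat_lit 3303) (nat_lit 202) (.e (nat_lit 573471) (nat_lit 11) (.e (nat_lit 16425) (nat_lit 7) (.e (nat_lit 409617) (nat_lit 10) .nil)))) .nil)) 
(.lf (nat_lit 101883) (.g (nat_lit 2952) (.e (nat_lit 3304) (nat_lit 202) (.e (nat_lit 573475) (nat_lit 12) (.e (nat_lit 57347) (nat_lit 0) (.e (nat_lit 7265) (nat_lit 384) (.e (nat_lit 57430) (nat_lit 16) (.e (nat_lit 368676) (nat_lit 21) (.e (nat_lit 516176) (nat_lit 14) (.e (nat_lit 466967) (nat_lit 20) .nil)))))))) (.g (nat_lit 5) .nil .nil)))))) 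
(.nd (nat_lit 3) (.nd (nat_lit 4) (.nd (nat_lit 5) 
(.lf (nat_lit 101831) (.g (nat_lit 1945) (.e (nat_lit 3302) (nat_lit 202) (.e (nat_lit 573491) (nat_lit 15) (.e (nat_lit 81946) (nat_lit 20) (.e (nat_lit 1842) (nat_lit 123) (.e (nat_lit 548874) (nat_lit 5) (.e (nat_lit 1575) (nat_lit 110) (.e (nat_lit 360192) (nat_lit 0) .nil))))))) (.g (nat_lit 4) .nil .nil))) 
(.lf (nat_lit 101863) (.g (nat_lit 4536) (.e (nat_lit 3304) (nat_lit 202) (.e (nat_lit 573454) (nat_lit 9) (.e (nat_lit 1315) (nat_lit 98) (.e (nat_lit 147495) (nat_lit 11) (.e (nat_lit 24604) (nat_lit 2) (.e (nat_lit 90178) (nat_lit 15) (.e (nat_lit 188442) (nat_lit 20) .nil))))))) (.g (nat_lit 6) .nil .nil)))) (.nd (nat_lit 5) 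
(.lf (nat_lit 101847) (.g (nat_lit 3113) (.e (nat_lit 3302) (nat_lit 202) (.e (nat_lit 573493) (nat_lit 15) (.e (nat_lit 81956) (nat_lit 23) (.e (nat_lit 106240) (nat_lit 32) .nil)))) .nil)) 
(.lf (nat_lit 101879) (.g (nat_lit 774) (.e (nat_lit 3304) (nat_lit 202) (.e (nat_lit 573474) (nat_lit 12) (.e (nat_lit 57572) (nat_lit 54) .nil))) .nil)))) (.nd (nat_lit 4) (.nd (nat_lit 5) 
(.lf (nat_lit 101839) (.g (nat_lit 5115) (.e (nat_lit 3302) (nat_lit 202) (.e (nat_lit 573492) (nat_lit 15) (.e (nat_lit 81956) (nat_lit 23) (.e (nat_lit 98350) (nat_lit 24) (.e (nat_lit 409617) (nat_lit 10) (.e (nat_lit 5353) (nat_lit 298) (.e (nat_lit 40) (nat_lit 0) .nil))))))) (.g (nat_lit 5) .nil .nil))) 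
(.lf (nat_lit 101871) (.g (nat_lit 4130) (.e (nat_lit 3304) (nat_lit 202) (.e (nat_lit 573471) (nat_lit 11) (.e (nat_lit 16470) (nat_lit 14) (.e (nat_lit 491540) (nat_lit 3) .nil)))) .nil))) (.nd (nat_lit 5) 
(.lf (nat_lit 101855) (.g (nat_lit 1429) (.e (nat_lit 3304) (nat_lit 202) (.e (nat_lit 573451) (nat_lit 9) (.e (nat_lit 1595) (nat_lit 111) (.e (nat_lit 360465) (nat_lit 3) .nil)))) .nil)) 
(.lf (nat_lit 101887) (.g (nat_lit 2849) (.e (nat_lit 3304) (nat_lit 202) (.e (nat_lit 573475) (nat_lit 12) (.e (nat_lit 57347) (nat_lit 0) (.e (nat_lit 7266) (nat_lit 384) (.e (nat_lit 57431) (nat_lit 16) .nil))))) .nil))))))))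

noncomputable def tv1387 : DT := (.nd (nat_lit 0) (.nd (nat_lit 1) (.nd (nat_lit 2) (.nd (nat_lit 3) (.nd (nat_lit 4) (.nd (nat_lit 5) 
(.lf (nat_lit 101888) (.g (nat_lit 3118) (.e (nat_lit 3304) (nat_lit 202) (.e (nat_lit 573475) (nat_lit 12) (.e (nat_lit 57347) (nat_lit 0) (.e (nat_lit 7266) (nat_lit 384) (.e (nat_lit 57431) (nat_lit 16) (.e (nat_lit 368676) (nat_lit 21) (.e (nat_lit 516176) (nat_lit 14) (.e (nat_lit 466967) (nat_lit 20) .nil)))))))) (.g (nat_lit 4) .nil .nil))) 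
(.lf (nat_lit 101920) (.g (nat_lit 2724) (.e (nat_lit 3304) (nat_lit 202) (.e (nat_lit 573485) (nat_lit 13) (.e (nat_lit 65619) (nat_lit 10) (.e (nat_lit 344129) (nat_lit 26) (.e (nat_lit 557066) (nat_lit 9) (.e (nat_lit 309) (nat_lit 23) (.e (nat_lit 352260) (nat_lit 0) .nil))))))) (.g (nat_lit 5) .nil .nil)))) (.nd (nat_lit 5) 
(.lf (nat_lit 101904) (.g (nat_lit 2212) (.e (nat_lit 3304) (nat_lit 202) (.e (nat_lit 573482) (nat_lit 13) (.e (nat_lit 65619) (nat_lit 10) (.e (nat_lit 344129) (nat_lit 26) (.e (nat_lit 557065) (nat_lit 9) (.e (nat_lit 309) (nat_lit 23) (.e (nat_lit 352260) (nat_lit 0) .nil))))))) (.g (nat_lit 4) .nil .nil))) 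
(.lf (nat_lit 101936) (.g (nat_lit 2995) (.e (nat_lit 3304) (nat_lit 202) (.e (nat_lit 573489) (nat_lit 14) (.e (nat_lit 73755) (nat_lit 8) (.e (nat_lit 557098) (nat_lit 13) (.e (nat_lit 179968) (nat_lit 18) .nil))))) .nil)))) (.nd (nat_lit 4) (.nd (nat_lit 5) 
(.lf (nat_lit 101896) (.g (nat_lit 1894) (.e (nat_lit 3304) (nat_lit 202) (.e (nat_lit 573475) (nat_lit 12) (.e (nat_lit 57351) (nat_lit 0) (.e (nat_lit 7261) (nat_lit 384) (.e (nat_lit 57432) (nat_lit 16) (.e (nat_lit 368676) (nat_lit 21) (.e (nat_lit 516176) (nat_lit 14) (.e (nat_lit 466967) (nat_lit 20) .nil)))))))) (.g (nat_lit 4) .nil .nil))) 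
(.lf (nat_lit 101928) (.g (nat_lit 2919) (.e (nat_lit 3304) (nat_lit 202) (.e (nat_lit 573489) (nat_lit 14) (.e (nat_lit 73755) (nat_lit 8) (.e (nat_lit 557096) (nat_lit 13) (.e (nat_lit 172133) (nat_lit 15) (.e (nat_lit 1800) (nat_lit 119) (.e (nat_lit 516120) (nat_lit 1) (.e (nat_lit 164330) (nat_lit 230) (.e (nat_lit 163857) (nat_lit 0) .nil))))))))) (.g (nat_lit 4) .nil .nil)))) 
(.nd (nat_lit 5) 
(.lf (nat_lit 101912) (.g (nat_lit 1537) (.e (nat_lit 3304) (nat_lit 202) (.e (nat_lit 573484) (nat_lit 13) (.e (nat_lit 65617) (nat_lit 10) (.e (nat_lit 344130) (nat_lit 26) (.e (nat_lit 557087) (nat_lit 11) .nil))))) .nil)) 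
(.lf (nat_lit 101944) (.g (nat_lit 2960) (.e (nat_lit 3304) (nat_lit 202) (.e (nat_lit 573493) (nat_lit 15) (.e (nat_lit 81953) (nat_lit 22) (.e (nat_lit 90170) (nat_lit 13) (.e (nat_lit 172068) (nat_lit 4) .nil))))) .nil))))) (.nd (nat_lit 3) (.nd (nat_lit 4) (.nd (nat_lit 5) 
(.lf (nat_lit 101892) (.g (nat_lit 2226) (.e (nat_lit 3304) (nat_lit 202) (.e (nat_lit 573475) (nat_lit 12) (.e (nat_lit 57348) (nat_lit 0) (.e (nat_lit 7265) (nat_lit 384) (.e (nat_lit 57431) (nat_lit 16) (.e (nat_lit 368676) (nat_lit 21) (.e (nat_lit 516176) (nat_lit 14) (.e (nat_lit 466967) (nat_lit 20) .nil)))))))) (.g (nat_lit 4) .nil .nil))) 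
(.lf (nat_lit 101924) (.g (nat_lit 2436) (.e (nat_lit 3304) (nat_lit 202) (.e (nat_lit 573485) (nat_lit 13) (.e (nat_lit 65619) (nat_lit 10) (.e (nat_lit 344129) (nat_lit 26) (.e (nat_lit 557074) (nat_lit 9) (.e (nat_lit 7936) (nat_lit 23) (.e (nat_lit 352266) (nat_lit 0) .nil))))))) (.g (nat_lit 4) .nil .nil)))) (.nd (nat_lit 5) 
(.lf (nat_lit 101908) (.g (nat_lit 2648) (.e (nat_lit 3304) (nat_lit 202) (.e (nat_lit 573482) (nat_lit 13) (.e (nat_lit 65619) (nat_lit 10) (.e (nat_lit 344129) (nat_lit 26) (.e (nat_lit 557074) (nat_lit 9) (.e (nat_lit 7936) (nat_lit 23) (.e (nat_lit 352260) (nat_lit 0) .nil))))))) (.g (nat_lit 4) .nil .nil))) 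
(.lf (nat_lit 101940) (.g (nat_lit 3887) (.e (nat_lit 3304) (nat_lit 202) (.e (nat_lit 573492) (nat_lit 15) (.e (nat_lit 81953) (nat_lit 22) (.e (nat_lit 90170) (nat_lit 13) .nil)))) .nil)))) (.nd (nat_lit 4) (.nd (nat_lit 5) 
(.lf (nat_lit 101900) (.g (nat_lit 3342) (.e (nat_lit 3304) (nat_lit 202) (.e (nat_lit 573477) (nat_lit 12) (.e (nat_lit 57353) (nat_lit 0) (.e (nat_lit 7266) (nat_lit 384) (.e (nat_lit 57431) (nat_lit 16) (.e (nat_lit 368676) (nat_lit 21) (.e (nat_lit 516176) (nat_lit 14) (.e (nat_lit 466967) (nat_lit 20) .nil)))))))) (.g (nat_lit 7) .nil .nil))) 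
(.lf (nat_lit 101932) (.g (nat_lit 3807) (.e (nat_lit 3304) (nat_lit 202) (.e (nat_lit 573489) (nat_lit 14) (.e (nat_lit 73755) (nat_lit 8) (.e (nat_lit 557098) (nat_lit 13) (.e (nat_lit 172132) (nat_lit 15) (.e (nat_lit 1796) (nat_lit 119) (.e (nat_lit 516120) (nat_lit 1) (.e (nat_lit 164329) (nat_lit 230) (.e (nat_lit 163850) (nat_lit 0) .nil))))))))) (.g (nat_lit 4) .nil .nil)))) 
(.nd (nat_lit 5) 
(.lf (nat_lit 101916) (.g (nat_lit 2354) (.e (nat_lit 3304) (nat_lit 202) (.e (nat_lit 573485) (nat_lit 13) (.e (nat_lit 65619) (nat_lit 10) (.e (nat_lit 344129) (nat_lit 26) (.e (nat_lit 557065) (nat_lit 9) (.e (nat_lit 309) (nat_lit 23) (.e (nat_lit 352260) (nat_lit 0) .nil))))))) (.g (nat_lit 4) .nil .nil))) 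
(.lf (nat_lit 101948) (.g (nat_lit 2442) (.e (nat_lit 3304) (nat_lit 202) (.e (nat_lit 573493) (nat_lit 15) (.e (nat_lit 81954) (nat_lit 23) (.e (nat_lit 98386) (nat_lit 32) .nil)))) .nil)))))) (.nd (nat_lit 2) (.nd (nat_lit 3) (.nd (nat_lit 4) (.nd (nat_lit 5) 
(.lf (nat_lit 101890) (.g (nat_lit 2034) (.e (nat_lit 3304) (nat_lit 202) (.e (nat_lit 573475) (nat_lit 12) (.e (nat_lit 57348) (nat_lit 0) (.e (nat_lit 7261) (nat_lit 384) (.e (nat_lit 57432) (nat_lit 16) (.e (nat_lit 368676) (nat_lit 21) (.e (nat_lit 516176) (nat_lit 14) (.e (nat_lit 466967) (nat_lit 20) .nil)))))))) (.g (nat_lit 4) .nil .nil))) 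
(.lf (nat_lit 101922) (.g (nat_lit 2687) (.e (nat_lit 3304) (nat_lit 202) (.e (nat_lit 573485) (nat_lit 13) (.e (nat_lit 65619) (nat_lit 10) (.e (nat_lit 344129) (nat_lit 26) (.e (nat_lit 557066) (nat_lit 9) (.e (nat_lit 312) (nat_lit 23) (.e (nat_lit 352265) (nat_lit 0) .nil))))))) (.g (nat_lit 5) .nil .nil)))) (.nd (nat_lit 5) 
(.lf (nat_lit 101906) (.g (nat_lit 3530) (.e (nat_lit 3304) (nat_lit 202) (.e (nat_lit 573482) (nat_lit 13) (.e (nat_lit 65619) (nat_lit 10) (.e (nat_lit 344129) (nat_lit 26) (.e (nat_lit 557066) (nat_lit 9) (.e (nat_lit 312) (nat_lit 23) (.e (nat_lit 352260) (nat_lit 0) .nil))))))) (.g (nat_lit 6) .nil .nil))) 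
(.lf (nat_lit 101938) (.g (nat_lit 3110) (.e (nat_lit 3304) (nat_lit 202) (.e (nat_lit 573491) (nat_lit 15) (.e (nat_lit 81954) (nat_lit 23) (.e (nat_lit 98384) (nat_lit 32) (.e (nat_lit 475209) (nat_lit 41) .nil))))) .nil)))) (.nd (nat_lit 4) (.nd (nat_lit 5) 
(.lf (nat_lit 101898) (.g (nat_lit 3598) (.e (nat_lit 3304) (nat_lit 202) (.e (nat_lit 573477) (nat_lit 12) (.e (nat_lit 57351) (nat_lit 0) (.e (nat_lit 7266) (nat_lit 384) (.e (nat_lit 57430) (nat_lit 16) (.e (nat_lit 368676) (nat_lit 21) (.e (nat_lit 516176) (nat_lit 14) (.e (nat_lit 466967) (nat_lit 20) .nil)))))))) (.g (nat_lit 7) .nil .nil))) 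
(.lf (nat_lit 101930) (.g (nat_lit 3412) (.e (nat_lit 3304) (nat_lit 202) (.e (nat_lit 573489) (nat_lit 14) (.e (nat_lit 73755) (nat_lit 8) (.e (nat_lit 557098) (nat_lit 13) (.e (nat_lit 172131) (nat_lit 15) .nil))))) .nil))) (.nd (nat_lit 5) 
(.lf (nat_lit 101914) (.g (nat_lit 1421) (.e (nat_lit 3304) (nat_lit 202) (.e (nat_lit 573485) (nat_lit 13) (.e (nat_lit 65619) (nat_lit 10) (.e (nat_lit 344117) (nat_lit 21) (.e (nat_lit 516098) (nat_lit 0) .nil))))) .nil)) 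
(.lf (nat_lit 101946) (.g (nat_lit 4912) (.e (nat_lit 3304) (nat_lit 202) (.e (nat_lit 573493) (nat_lit 15) (.e (nat_lit 81954) (nat_lit 23) (.e (nat_lit 98384) (nat_lit 32) (.e (nat_lit 475209) (nat_lit 41) .nil))))) .nil))))) (.nd (nat_lit 3) (.nd (nat_lit 4) (.nd (nat_lit 5) 
(.lf (nat_lit 101894) (.g (nat_lit 2129) (.e (nat_lit 3304) (nat_lit 202) (.e (nat_lit 573475) (nat_lit 12) (.e (nat_lit 57348) (nat_lit 0) (.e (nat_lit 7266) (nat_lit 384) (.e (nat_lit 57431) (nat_lit 16) (.e (nat_lit 368676) (nat_lit 21) (.e (nat_lit 516176) (nat_lit 14) (.e (nat_lit 466967) (nat_lit 20) .nil)))))))) (.g (nat_lit 4) .nil .nil))) 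
(.lf (nat_lit 101926) (.g (nat_lit 2952) (.e (nat_lit 3304) (nat_lit 202) (.e (nat_lit 573489) (nat_lit 14) (.e (nat_lit 73754) (nat_lit 8) (.e (nat_lit 557100) (nat_lit 13) (.e (nat_lit 172138) (nat_lit 15) .nil))))) .nil))) (.nd (nat_lit 5) 
(.lf (nat_lit 101910) (.g (nat_lit 1770) (.e (nat_lit 3304) (nat_lit 202) (.e (nat_lit 573482) (nat_lit 13) (.e (nat_lit 65628) (nat_lit 14) (.e (nat_lit 401428) (nat_lit 3) (.e (nat_lit 204866) (nat_lit 28) .nil))))) .nil)) 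
(.lf (nat_lit 101942) (.g (nat_lit 2677) (.e (nat_lit 3304) (nat_lit 202) (.e (nat_lit 573493) (nat_lit 15) (.e (nat_lit 81951) (nat_lit 22) (.e (nat_lit 90170) (nat_lit 13) .nil)))) .nil)))) (.nd (nat_lit 4) (.nd (nat_lit 5) 
(.lf (nat_lit 101902) (.g (nat_lit 2074) (.e (nat_lit 3304) (nat_lit 202) (.e (nat_lit 573482) (nat_lit 13) (.e (nat_lit 65619) (nat_lit 10) (.e (nat_lit 344117) (nat_lit 21) (.e (nat_lit 516180) (nat_lit 15) .nil))))) .nil)) 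
(.lf (nat_lit 101934) (.g (nat_lit 2808) (.e (nat_lit 3304) (nat_lit 202) (.e (nat_lit 573489) (nat_lit 14) (.e (nat_lit 73755) (nat_lit 8) (.e (nat_lit 557098) (nat_lit 13) (.e (nat_lit 172136) (nat_lit 15) .nil))))) .nil))) (.nd (nat_lit 5) 
(.lf (nat_lit 101918) (.g (nat_lit 2987) (.e (nat_lit 3304) (nat_lit 202) (.e (nat_lit 573485) (nat_lit 13) (.e (nat_lit 65619) (nat_lit 10) (.e (nat_lit 344129) (nat_lit 26) (.e (nat_lit 557065) (nat_lit 9) (.e (nat_lit 315) (nat_lit 23) (.e (nat_lit 352265) (nat_lit 0) .nil))))))) (.g (nat_lit 5) .nil .nil))) 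
(.lf (nat_lit 101950) (.g (nat_lit 5068) (.e (nat_lit 3304) (nat_lit 202) (.e (nat_lit 573493) (nat_lit 15) (.e (nat_lit 81956) (nat_lit 23) (.e (nat_lit 98384) (nat_lit 32) (.e (nat_lit 475208) (nat_lit 41) .nil))))) .nil))))))) (.nd (nat_lit 1) (.nd (nat_lit 2) (.nd (nat_lit 3) (.nd (nat_lit 4) (.nd (nat_lit 5) 
(.lf (nat_lit 101889) (.g (nat_lit 2013) (.e (nat_lit 3304) (nat_lit 202) (.e (nat_lit 573475) (nat_lit 12) (.e (nat_lit 57348) (nat_lit 0) (.e (nat_lit 7261) (nat_lit 384) (.e (nat_lit 57430) (nat_lit 16) (.e (nat_lit 368676) (nat_lit 21) (.e (nat_lit 516176) (nat_lit 14) (.e (nat_lit 466967) (nat_lit 20) .nil)))))))) (.g (nat_lit 4) .nil .nil))) 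
(.lf (nat_lit 101921) (.g (nat_lit 3683) (.e (nat_lit 3304) (nat_lit 202) (.e (nat_lit 573485) (nat_lit 13) (.e (nat_lit 65619) (nat_lit 10) (.e (nat_lit 344129) (nat_lit 26) (.e (nat_lit 557066) (nat_lit 9) (.e (nat_lit 312) (nat_lit 23) (.e (nat_lit 352260) (nat_lit 0) .nil))))))) (.g (nat_lit 6) .nil .nil)))) (.nd (nat_lit 5) 
(.lf (nat_lit 101905) (.g (nat_lit 3673) (.e (nat_lit 3304) (nat_lit 202) (.e (nat_lit 573482) (nat_lit 13) (.e (nat_lit 65619) (nat_lit 10) (.e (nat_lit 344129) (nat_lit 26) (.e (nat_lit 557066) (nat_lit 9) (.e (nat_lit 310) (nat_lit 23) (.e (nat_lit 352260) (nat_lit 0) .nil))))))) (.g (nat_lit 6) .nil .nil))) 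
(.lf (nat_lit 101937) (.g (nat_lit 2789) (.e (nat_lit 3304) (nat_lit 202) (.e (nat_lit 573491) (nat_lit 15) (.e (nat_lit 81951) (nat_lit 22) (.e (nat_lit 90170) (nat_lit 13) (.e (nat_lit 172069) (nat_lit 4) .nil))))) .nil)))) (.nd (nat_lit 4) (.nd (nat_lit 5) 
(.lf (nat_lit 101897) (.g (nat_lit 1887) (.e (nat_lit 3304) (nat_lit 202) (.e (nat_lit 573475) (nat_lit 12) (.e (nat_lit 57351) (nat_lit 0) (.e (nat_lit 7266) (nat_lit 384) (.e (nat_lit 57431) (nat_lit 16) (.e (nat_lit 368676) (nat_lit 21) (.e (nat_lit 516176) (nat_lit 14) (.e (nat_lit 466967) (nat_lit 20) .nil)))))))) (.g (nat_lit 4) .nil .nil))) 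
(.lf (nat_lit 101929) (.g (nat_lit 2224) (.e (nat_lit 3304) (nat_lit 202) (.e (nat_lit 573489) (nat_lit 14) (.e (nat_lit 73755) (nat_lit 8) (.e (nat_lit 557096) (nat_lit 13) (.e (nat_lit 179968) (nat_lit 18) .nil))))) .nil))) (.nd (nat_lit 5) 
(.lf (nat_lit 101913) (.g (nat_lit 1533) (.e (nat_lit 3304) (nat_lit 202) (.e (nat_lit 573485) (nat_lit 13) (.e (nat_lit 65619) (nat_lit 10) (.e (nat_lit 344117) (nat_lit 21) (.e (nat_lit 516097) (nat_lit 0) .nil))))) .nil)) 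
(.lf (nat_lit 101945) (.g (nat_lit 2989) (.e (nat_lit 3304) (nat_lit 202) (.e (nat_lit 573493) (nat_lit 15) (.e (nat_lit 81953) (nat_lit 22) (.e (nat_lit 90170) (nat_lit 13) (.e (nat_lit 172070) (nat_lit 4) .nil))))) .nil))))) (.nd (nat_lit 3) (.nd (nat_lit 4) (.nd (nat_lit 5) 
(.lf (nat_lit 101893) (.g (nat_lit 2723) (.e (nat_lit 3304) (nat_lit 202) (.e (nat_lit 573475) (nat_lit 12) (.e (nat_lit 57348) (nat_lit 0) (.e (nat_lit 7266) (nat_lit 384) (.e (nat_lit 57430) (nat_lit 16) (.e (nat_lit 368676) (nat_lit 21) (.e (nat_lit 516176) (nat_lit 14) (.e (nat_lit 466967) (nat_lit 20) .nil)))))))) (.g (nat_lit 5) .nil .nil))) 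
(.lf (nat_lit 101925) (.g (nat_lit 1994) (.e (nat_lit 3304) (nat_lit 202) (.e (nat_lit 573485) (nat_lit 13) (.e (nat_lit 65619) (nat_lit 10) (.e (nat_lit 344129) (nat_lit 26) (.e (nat_lit 557074) (nat_lit 9) (.e (nat_lit 7936) (nat_lit 26) (.e (nat_lit 376834) (nat_lit 0) .nil))))))) (.g (nat_lit 4) .nil .nil)))) (.nd (nat_lit 5) 
(.lf (nat_lit 101909) (.g (nat_lit 2273) (.e (nat_lit 3304) (nat_lit 202) (.e (nat_lit 573482) (nat_lit 13) (.e (nat_lit 65619) (nat_lit 10) (.e (nat_lit 344129) (nat_lit 26) (.e (nat_lit 557074) (nat_lit 9) (.e (nat_lit 7936) (nat_lit 23) (.e (nat_lit 352266) (nat_lit 0) .nil))))))) (.g (nat_lit 4) .nil .nil))) 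
(.lf (nat_lit 101941) (.g (nat_lit 2948) (.e (nat_lit 3304) (nat_lit 202) (.e (nat_lit 573493) (nat_lit 15) (.e (nat_lit 81951) (nat_lit 22) (.e (nat_lit 90167) (nat_lit 13) .nil)))) .nil)))) (.nd (nat_lit 4) (.nd (nat_lit 5) 
(.lf (nat_lit 101901) (.g (nat_lit 2042) (.e (nat_lit 3304) (nat_lit 202) (.e (nat_lit 573482) (nat_lit 13) (.e (nat_lit 65619) (nat_lit 10) (.e (nat_lit 344117) (nat_lit 21) (.e (nat_lit 516151) (nat_lit 9) .nil))))) .nil)) 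
(.lf (nat_lit 101933) (.g (nat_lit 2910) (.e (nat_lit 3304) (nat_lit 202) (.e (nat_lit 573489) (nat_lit 14) (.e (nat_lit 73755) (nat_lit 8) (.e (nat_lit 557098) (nat_lit 13) (.e (nat_lit 172133) (nat_lit 15) .nil))))) .nil))) (.nd (nat_lit 5) 
(.lf (nat_lit 101917) (.g (nat_lit 2872) (.e (nat_lit 3304) (nat_lit 202) (.e (nat_lit 573485) (nat_lit 13) (.e (nat_lit 65619) (nat_lit 10) (.e (nat_lit 344129) (nat_lit 26) (.e (nat_lit 557065) (nat_lit 9) (.e (nat_lit 310) (nat_lit 23) (.e (nat_lit 352260) (nat_lit 0) .nil))))))) (.g (nat_lit 5) .nil .nil))) 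
(.lf (nat_lit 101949) (.g (nat_lit 2902) (.e (nat_lit 3304) (nat_lit 202) (.e (nat_lit 573493) (nat_lit 15) (.e (nat_lit 81956) (nat_lit 23) (.e (nat_lit 98383) (nat_lit 32) .nil)))) .nil)))))) (.nd (nat_lit 2) (.nd (nat_lit 3) (.nd (nat_lit 4) (.nd (nat_lit 5) 
(.lf (nat_lit 101891) (.g (nat_lit 2274) (.e (nat_lit 3304) (nat_lit 202) (.e (nat_lit 573475) (nat_lit 12) (.e (nat_lit 57348) (nat_lit 0) (.e (nat_lit 7265) (nat_lit 384) (.e (nat_lit 57430) (nat_lit 16) (.e (nat_lit 368676) (nat_lit 21) (.e (nat_lit 516176) (nat_lit 14) (.e (nat_lit 466967) (nat_lit 20) .nil)))))))) (.g (nat_lit 4) .nil .nil))) 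
(.lf (nat_lit 101923) (.g (nat_lit 2831) (.e (nat_lit 3304) (nat_lit 202) (.e (nat_lit 573485) (nat_lit 13) (.e (nat_lit 65619) (nat_lit 10) (.e (nat_lit 344129) (nat_lit 26) (.e (nat_lit 557066) (nat_lit 9) (.e (nat_lit 312) (nat_lit 23) (.e (nat_lit 360192) (nat_lit 0) .nil))))))) (.g (nat_lit 5) .nil .nil)))) (.nd (nat_lit 5) 
(.lf (nat_lit 101907) (.g (nat_lit 2678) (.e (nat_lit 3304) (nat_lit 202) (.e (nat_lit 573482) (nat_lit 13) (.e (nat_lit 65619) (nat_lit 10) (.e (nat_lit 344129) (nat_lit 26) (.e (nat_lit 557066) (nat_lit 9) (.e (nat_lit 312) (nat_lit 23) (.e (nat_lit 360192) (nat_lit 0) .nil))))))) (.g (nat_lit 5) .nil .nil))) 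
(.lf (nat_lit 101939) (.g (nat_lit 6107) (.e (nat_lit 3304) (nat_lit 202) (.e (nat_lit 573492) (nat_lit 15) (.e (nat_lit 81953) (nat_lit 22) (.e (nat_lit 90167) (nat_lit 13) .nil)))) .nil)))) (.nd (nat_lit 4) (.nd (nat_lit 5) 
(.lf (nat_lit 101899) (.g (nat_lit 1739) (.e (nat_lit 3304) (nat_lit 202) (.e (nat_lit 573477) (nat_lit 12) (.e (nat_lit 57352) (nat_lit 0) (.e (nat_lit 7266) (nat_lit 384) (.e (nat_lit 57431) (nat_lit 16) (.e (nat_lit 368676) (nat_lit 21) (.e (nat_lit 516176) (nat_lit 14) (.e (nat_lit 466967) (nat_lit 20) .nil)))))))) (.g (nat_lit 4) .nil .nil))) 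
(.lf (nat_lit 101931) (.g (nat_lit 3338) (.e (nat_lit 3304) (nat_lit 202) (.e (nat_lit 573489) (nat_lit 14) (.e (nat_lit 73755) (nat_lit 8) (.e (nat_lit 557098) (nat_lit 13) (.e (nat_lit 172132) (nat_lit 15) .nil))))) .nil))) (.nd (nat_lit 5) 
(.lf (nat_lit 101915) (.g (nat_lit 1503) (.e (nat_lit 3304) (nat_lit 202) (.e (nat_lit 573485) (nat_lit 13) (.e (nat_lit 65619) (nat_lit 10) (.e (nat_lit 344117) (nat_lit 21) (.e (nat_lit 516185) (nat_lit 16) .nil))))) .nil)) 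
(.lf (nat_lit 101947) (.g (nat_lit 4295) (.e (nat_lit 3304) (nat_lit 202) (.e (nat_lit 573493) (nat_lit 15) (.e (nat_lit 81954) (nat_lit 23) (.e (nat_lit 98384) (nat_lit 32) (.e (nat_lit 475210) (nat_lit 41) .nil))))) .nil))))) (.nd (nat_lit 3) (.nd (nat_lit 4) (.nd (nat_lit 5) 
(.lf (nat_lit 101895) (.g (nat_lit 1862) (.e (nat_lit 3304) (nat_lit 202) (.e (nat_lit 573475) (nat_lit 12) (.e (nat_lit 57351) (nat_lit 0) (.e (nat_lit 7261) (nat_lit 384) (.e (nat_lit 57430) (nat_lit 16) (.e (nat_lit 368676) (nat_lit 21) (.e (nat_lit 516176) (nat_lit 14) (.e (nat_lit 466967) (nat_lit 20) .nil)))))))) (.g (nat_lit 4) .nil .nil))) 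
(.lf (nat_lit 101927) (.g (nat_lit 2707) (.e (nat_lit 3304) (nat_lit 202) (.e (nat_lit 573489) (nat_lit 14) (.e (nat_lit 73755) (nat_lit 8) (.e (nat_lit 557096) (nat_lit 13) (.e (nat_lit 172133) (nat_lit 15) (.e (nat_lit 1800) (nat_lit 119) (.e (nat_lit 516120) (nat_lit 1) (.e (nat_lit 164330) (nat_lit 230) (.e (nat_lit 163853) (nat_lit 0) .nil))))))))) (.g (nat_lit 4) .nil .nil)))) 
(.nd (nat_lit 5) 
(.lf (nat_lit 101911) (.g (nat_lit 2260) (.e (nat_lit 3304) (nat_lit 202) (.e (nat_lit 573484) (nat_lit 13) (.e (nat_lit 65610) (nat_lit 10) (.e (nat_lit 344129) (nat_lit 26) (.e (nat_lit 557087) (nat_lit 11) .nil))))) .nil)) 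
(.lf (nat_lit 101943) (.g (nat_lit 4045) (.e (nat_lit 3304) (nat_lit 202) (.e (nat_lit 573493) (nat_lit 15) (.e (nat_lit 81951) (nat_lit 22) (.e (nat_lit 90170) (nat_lit 13) (.e (nat_lit 172070) (nat_lit 4) .nil))))) .nil)))) (.nd (nat_lit 4) (.nd (nat_lit 5) 
(.lf (nat_lit 101903) (.g (nat_lit 1809) (.e (nat_lit 3304) (nat_lit 202) (.e (nat_lit 573482) (nat_lit 13) (.e (nat_lit 65619) (nat_lit 10) (.e (nat_lit 344117) (nat_lit 21) (.e (nat_lit 516185) (nat_lit 16) .nil))))) .nil)) 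
(.lf (nat_lit 101935) (.g (nat_lit 3317) (.e (nat_lit 3304) (nat_lit 202) (.e (nat_lit 573489) (nat_lit 14) (.e (nat_lit 73755) (nat_lit 8) (.e (nat_lit 557098) (nat_lit 13) (.e (nat_lit 179968) (nat_lit 15) (.e (nat_lit 1800) (nat_lit 119) (.e (nat_lit 516117) (nat_lit 1) (.e (nat_lit 164329) (nat_lit 230) (.e (nat_lit 163850) (nat_lit 0) .nil))))))))) (.g (nat_lit 4) .nil .nil)))) 
(.nd (nat_lit 5) 
(.lf (nat_lit 101919) (.g (nat_lit 3166) (.e (nat_lit 3304) (nat_lit 202) (.e (nat_lit 573485) (nat_lit 13) (.e (nat_lit 65619) (nat_lit 10) (.e (nat_lit 344129) (nat_lit 26) (.e (nat_lit 557065) (nat_lit 9) (.e (nat_lit 315) (nat_lit 23) (.e (nat_lit 352266) (nat_lit 0) .nil))))))) (.g (nat_lit 5) .nil .nil))) 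
(.lf (nat_lit 101951) (.g (nat_lit 4872) (.e (nat_lit 3304) (nat_lit 202) (.e (nat_lit 573493) (nat_lit 15) (.e (nat_lit 81956) (nat_lit 23) (.e (nat_lit 98384) (nat_lit 32) (.e (nat_lit 475209) (nat_lit 41) .nil))))) .nil))))))))

noncomputable def tv1388 : DT := (.nd (nat_lit 0) (.nd (nat_lit 1) (.nd (nat_lit 2) (.nd (nat_lit 3) (.nd (nat_lit 4) (.nd (nat_lit 5) 
(.lf (nat_lit 101952) (.g (nat_lit 4465) (.e (nat_lit 3304) (nat_lit 202) (.e (nat_lit 573493) (nat_lit 15) (.e (nat_lit 81956) (nat_lit 23) (.e (nat_lit 98384) (nat_lit 32) (.e (nat_lit 475210) (nat_lit 41) .nil))))) .nil)) 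
(.lf (nat_lit 101984) (.g (nat_lit 2819) (.e (nat_lit 3305) (nat_lit 202) (.e (nat_lit 573475) (nat_lit 12) (.e (nat_lit 57520) (nat_lit 44) (.e (nat_lit 688171) (nat_lit 15) (.e (nat_lit 57478) (nat_lit 28) (.e (nat_lit 557105) (nat_lit 14) (.e (nat_lit 180251) (nat_lit 10) (.e (nat_lit 573485) (nat_lit 13) (.e (nat_lit 65641) (nat_lit 15) .nil))))))))) (.g (nat_lit 4) .nil .nil)))) 
(.nd (nat_lit 5) 
(.lf (nat_lit 101968) (.g (nat_lit 3253) (.e (nat_lit 3305) (nat_lit 202) (.e (nat_lit 573475) (nat_lit 12) (.e (nat_lit 57520) (nat_lit 44) (.e (nat_lit 688170) (nat_lit 15) (.e (nat_lit 57479) (nat_lit 28) (.e (nat_lit 557103) (nat_lit 14) (.e (nat_lit 180250) (nat_lit 10) (.e (nat_lit 573485) (nat_lit 13) (.e (nat_lit 65641) (nat_lit 15) .nil))))))))) (.g (nat_lit 5) .nil .nil))) 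
(.lf (nat_lit 102000) (.g (nat_lit 1994) (.e (nat_lit 3305) (nat_lit 202) (.e (nat_lit 573478) (nat_lit 12) (.e (nat_lit 57520) (nat_lit 44) (.e (nat_lit 688171) (nat_lit 15) (.e (nat_lit 57478) (nat_lit 28) (.e (nat_lit 557105) (nat_lit 14) (.e (nat_lit 180252) (nat_lit 10) (.e (nat_lit 573481) (nat_lit 13) (.e (nat_lit 65637) (nat_lit 15) .nil))))))))) (.g (nat_lit 4) .nil .nil))))) 
(.nd (nat_lit 4) (.nd (nat_lit 5) 
(.lf (nat_lit 101960) (.g (nat_lit 3092) (.e (nat_lit 3305) (nat_lit 202) (.e (nat_lit 573475) (nat_lit 12) (.e (nat_lit 57347) (nat_lit 0) (.e (nat_lit 7266) (nat_lit 384) (.e (nat_lit 57430) (nat_lit 16) (.e (nat_lit 368676) (nat_lit 21) (.e (nat_lit 516176) (nat_lit 14) (.e (nat_lit 466967) (nat_lit 20) .nil)))))))) (.g (nat_lit 4) .nil .nil))) 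
(.lf (nat_lit 101992) (.g (nat_lit 3522) (.e (nat_lit 3305) (nat_lit 202) (.e (nat_lit 573477) (nat_lit 12) (.e (nat_lit 57351) (nat_lit 0) (.e (nat_lit 7266) (nat_lit 384) (.e (nat_lit 57431) (nat_lit 16) (.e (nat_lit 368676) (nat_lit 21) (.e (nat_lit 516176) (nat_lit 14) (.e (nat_lit 466967) (nat_lit 20) .nil)))))))) (.g (nat_lit 7) .nil .nil)))) (.nd (nat_lit 5) 
(.lf (nat_lit 101976) (.g (nat_lit 3214) (.e (nat_lit 3305) (nat_lit 202) (.e (nat_lit 573475) (nat_lit 12) (.e (nat_lit 57520) (nat_lit 44) (.e (nat_lit 688170) (nat_lit 15) (.e (nat_lit 57480) (nat_lit 28) (.e (nat_lit 557105) (nat_lit 14) (.e (nat_lit 180251) (nat_lit 10) (.e (nat_lit 573485) (nat_lit 13) (.e (nat_lit 65640) (nat_lit 15) .nil))))))))) (.g (nat_lit 5) .nil .nil))) 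
(.lf (nat_lit 102008) (.g (nat_lit 674) (.e (nat_lit 3305) (nat_lit 202) (.e (nat_lit 573481) (nat_lit 13) (.e (nat_lit 65619) (nat_lit 10) .nil))) .nil))))) (.nd (nat_lit 3) (.nd (nat_lit 4) (.nd (nat_lit 5) 
(.lf (nat_lit 101956) (.g (nat_lit 3073) (.e (nat_lit 3304) (nat_lit 202) (.e (nat_lit 573493) (nat_lit 15) (.e (nat_lit 81956) (nat_lit 23) (.e (nat_lit 98389) (nat_lit 33) .nil)))) .nil)) 
(.lf (nat_lit 101988) (.g (nat_lit 3234) (.e (nat_lit 3305) (nat_lit 202) (.e (nat_lit 573475) (nat_lit 12) (.e (nat_lit 57520) (nat_lit 44) (.e (nat_lit 688171) (nat_lit 15) (.e (nat_lit 57480) (nat_lit 28) (.e (nat_lit 557105) (nat_lit 14) (.e (nat_lit 180251) (nat_lit 10) (.e (nat_lit 573485) (nat_lit 13) (.e (nat_lit 65640) (nat_lit 15) .nil))))))))) (.g (nat_lit 5) .nil .nil)))) 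
(.nd (nat_lit 5) 
(.lf (nat_lit 101972) (.g (nat_lit 2755) (.e (nat_lit 3305) (nat_lit 202) (.e (nat_lit 573475) (nat_lit 12) (.e (nat_lit 57520) (nat_lit 44) (.e (nat_lit 688170) (nat_lit 15) (.e (nat_lit 57479) (nat_lit 28) (.e (nat_lit 557105) (nat_lit 14) (.e (nat_lit 180252) (nat_lit 10) (.e (nat_lit 573482) (nat_lit 13) (.e (nat_lit 65637) (nat_lit 15) .nil))))))))) (.g (nat_lit 4) .nil .nil))) 
(.lf (nat_lit 102004) (.g (nat_lit 3138) (.e (nat_lit 3305) (nat_lit 202) (.e (nat_lit 573479) (nat_lit 13) (.e (nat_lit 65619) (nat_lit 10) (.e (nat_lit 344117) (nat_lit 21) (.e (nat_lit 516097) (nat_lit 0) (.e (nat_lit 7587) (nat_lit 406) (.e (nat_lit 65637) (nat_lit 15) .nil))))))) (.g (nat_lit 6) .nil .nil))))) (.nd (nat_lit 4) (.nd (nat_lit 5) 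
(.lf (nat_lit 101964) (.g (nat_lit 3301) (.e (nat_lit 3305) (nat_lit 202) (.e (nat_lit 573475) (nat_lit 12) (.e (nat_lit 57520) (nat_lit 44) (.e (nat_lit 688170) (nat_lit 15) (.e (nat_lit 57479) (nat_lit 28) (.e (nat_lit 557103) (nat_lit 14) (.e (nat_lit 180250) (nat_lit 10) (.e (nat_lit 573482) (nat_lit 13) (.e (nat_lit 65640) (nat_lit 15) .nil))))))))) (.g (nat_lit 5) .nil .nil))) 
(.lf (nat_lit 101996) (.g (nat_lit 2170) (.e (nat_lit 3305) (nat_lit 202) (.e (nat_lit 573478) (nat_lit 12) (.e (nat_lit 57520) (nat_lit 44) (.e (nat_lit 688170) (nat_lit 15) (.e (nat_lit 57478) (nat_lit 28) (.e (nat_lit 557105) (nat_lit 14) (.e (nat_lit 180252) (nat_lit 10) (.e (nat_lit 573481) (nat_lit 13) (.e (nat_lit 65640) (nat_lit 15) .nil))))))))) (.g (nat_lit 4) .nil .nil)))) 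
(.nd (nat_lit 5) 
(.lf (nat_lit 101980) (.g (nat_lit 3160) (.e (nat_lit 3305) (nat_lit 202) (.e (nat_lit 573475) (nat_lit 12) (.e (nat_lit 57520) (nat_lit 44) (.e (nat_lit 688171) (nat_lit 15) (.e (nat_lit 57478) (nat_lit 28) (.e (nat_lit 557103) (nat_lit 14) (.e (nat_lit 180250) (nat_lit 10) (.e (nat_lit 573482) (nat_lit 13) (.e (nat_lit 65640) (nat_lit 15) .nil))))))))) (.g (nat_lit 5) .nil .nil))) 
(.lf (nat_lit 102012) (.g (nat_lit 1323) (.e (nat_lit 3305) (nat_lit 202) (.e (nat_lit 573482) (nat_lit 13) (.e (nat_lit 65604) (nat_lit 9) (.e (nat_lit 336013) (nat_lit 2) .nil)))) .nil)))))) (.nd (nat_lit 2) (.nd (nat_lit 3) (.nd (nat_lit 4) (.nd (nat_lit 5) 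
(.lf (nat_lit 101954) (.g (nat_lit 2194) (.e (nat_lit 3304) (nat_lit 202) (.e (nat_lit 573493) (nat_lit 15) (.e (nat_lit 81956) (nat_lit 23) (.e (nat_lit 98387) (nat_lit 33) .nil)))) .nil)) 
(.lf (nat_lit 101986) (.g (nat_lit 3127) (.e (nat_lit 3305) (nat_lit 202) (.e (nat_lit 573475) (nat_lit 12) (.e (nat_lit 57520) (nat_lit 44) (.e (nat_lit 688171) (nat_lit 15) (.e (nat_lit 57479) (nat_lit 28) (.e (nat_lit 557105) (nat_lit 14) (.e (nat_lit 180251) (nat_lit 10) (.e (nat_lit 573485) (nat_lit 13) (.e (nat_lit 65641) (nat_lit 15) .nil))))))))) (.g (nat_lit 5) .nil .nil)))) 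
(.nd (nat_lit 5) 
(.lf (nat_lit 101970) (.g (nat_lit 3174) (.e (nat_lit 3305) (nat_lit 202) (.e (nat_lit 573475) (nat_lit 12) (.e (nat_lit 57520) (nat_lit 44) (.e (nat_lit 688170) (nat_lit 15) (.e (nat_lit 57479) (nat_lit 28) (.e (nat_lit 557105) (nat_lit 14) (.e (nat_lit 180251) (nat_lit 10) (.e (nat_lit 573485) (nat_lit 13) (.e (nat_lit 65641) (nat_lit 15) .nil))))))))) (.g (nat_lit 5) .nil .nil))) 
(.lf (nat_lit 102002) (.g (nat_lit 2224) (.e (nat_lit 3305) (nat_lit 202) (.e (nat_lit 573478) (nat_lit 12) (.e (nat_lit 57520) (nat_lit 44) (.e (nat_lit 688171) (nat_lit 15) (.e (nat_lit 57480) (nat_lit 28) (.e (nat_lit 557105) (nat_lit 14) (.e (nat_lit 180252) (nat_lit 10) (.e (nat_lit 573481) (nat_lit 13) (.e (nat_lit 65640) (nat_lit 15) .nil))))))))) (.g (nat_lit 4) .nil .nil))))) 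
(.nd (nat_lit 4) (.nd (nat_lit 5) 
(.lf (nat_lit 101962) (.g (nat_lit 2867) (.e (nat_lit 3305) (nat_lit 202) (.e (nat_lit 573475) (nat_lit 12) (.e (nat_lit 57520) (nat_lit 44) (.e (nat_lit 688170) (nat_lit 15) (.e (nat_lit 57478) (nat_lit 28) (.e (nat_lit 557105) (nat_lit 14) (.e (nat_lit 180251) (nat_lit 10) (.e (nat_lit 573485) (nat_lit 13) (.e (nat_lit 65640) (nat_lit 15) .nil))))))))) (.g (nat_lit 4) .nil .nil))) 
(.lf (nat_lit 101994) (.g (nat_lit 2854) (.e (nat_lit 3305) (nat_lit 202) (.e (nat_lit 573477) (nat_lit 12) (.e (nat_lit 57575) (nat_lit 55) (.e (nat_lit 778362) (nat_lit 9) (.e (nat_lit 297) (nat_lit 22) (.e (nat_lit 344119) (nat_lit 21) (.e (nat_lit 516176) (nat_lit 14) (.e (nat_lit 466967) (nat_lit 20) .nil)))))))) (.g (nat_lit 5) .nil .nil)))) (.nd (nat_lit 5) 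
(.lf (nat_lit 101978) (.g (nat_lit 4327) (.e (nat_lit 3305) (nat_lit 202) (.e (nat_lit 573475) (nat_lit 12) (.e (nat_lit 57520) (nat_lit 44) (.e (nat_lit 688170) (nat_lit 15) (.e (nat_lit 57480) (nat_lit 28) (.e (nat_lit 557105) (nat_lit 14) (.e (nat_lit 180252) (nat_lit 10) (.e (nat_lit 573482) (nat_lit 13) (.e (nat_lit 65640) (nat_lit 15) .nil))))))))) (.g (nat_lit 6) .nil .nil))) 
(.lf (nat_lit 102010) (.g (nat_lit 2037) (.e (nat_lit 3305) (nat_lit 202) (.e (nat_lit 573482) (nat_lit 13) (.e (nat_lit 65598) (nat_lit 9) (.e (nat_lit 336013) (nat_lit 2) .nil)))) .nil))))) (.nd (nat_lit 3) (.nd (nat_lit 4) (.nd (nat_lit 5) 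
(.lf (nat_lit 101958) (.g (nat_lit 3760) (.e (nat_lit 3305) (nat_lit 202) (.e (nat_lit 573471) (nat_lit 11) (.e (nat_lit 16425) (nat_lit 7) (.e (nat_lit 409616) (nat_lit 10) .nil)))) .nil)) 
(.lf (nat_lit 101990) (.g (nat_lit 4370) (.e (nat_lit 3305) (nat_lit 202) (.e (nat_lit 573475) (nat_lit 12) (.e (nat_lit 57520) (nat_lit 44) (.e (nat_lit 688171) (nat_lit 15) (.e (nat_lit 57480) (nat_lit 28) (.e (nat_lit 557105) (nat_lit 14) (.e (nat_lit 180252) (nat_lit 10) (.e (nat_lit 573482) (nat_lit 13) (.e (nat_lit 65640) (nat_lit 15) .nil))))))))) (.g (nat_lit 6) .nil .nil)))) 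
(.nd (nat_lit 5) 
(.lf (nat_lit 101974) (.g (nat_lit 2979) (.e (nat_lit 3305) (nat_lit 202) (.e (nat_lit 573475) (nat_lit 12) (.e (nat_lit 57520) (nat_lit 44) (.e (nat_lit 688170) (nat_lit 15) (.e (nat_lit 57480) (nat_lit 28) (.e (nat_lit 557103) (nat_lit 14) (.e (nat_lit 180250) (nat_lit 10) (.e (nat_lit 573485) (nat_lit 13) (.e (nat_lit 65640) (nat_lit 15) .nil))))))))) (.g (nat_lit 4) .nil .nil))) 
(.lf (nat_lit 102006) (.g (nat_lit 2680) (.e (nat_lit 3305) (nat_lit 202) (.e (nat_lit 573479) (nat_lit 13) (.e (nat_lit 65619) (nat_lit 10) (.e (nat_lit 344117) (nat_lit 21) (.e (nat_lit 516106) (nat_lit 0) (.e (nat_lit 7936) (nat_lit 406) (.e (nat_lit 65637) (nat_lit 15) .nil))))))) (.g (nat_lit 5) .nil .nil))))) (.nd (nat_lit 4) (.nd (nat_lit 5) 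
(.lf (nat_lit 101966) (.g (nat_lit 5165) (.e (nat_lit 3305) (nat_lit 202) (.e (nat_lit 573475) (nat_lit 12) (.e (nat_lit 57520) (nat_lit 44) (.e (nat_lit 688170) (nat_lit 15) (.e (nat_lit 57479) (nat_lit 28) (.e (nat_lit 557103) (nat_lit 14) (.e (nat_lit 180250) (nat_lit 10) (.e (nat_lit 573484) (nat_lit 13) (.e (nat_lit 65642) (nat_lit 15) .nil))))))))) (.g (nat_lit 6) .nil .nil))) 
(.lf (nat_lit 101998) (.g (nat_lit 2181) (.e (nat_lit 3305) (nat_lit 202) (.e (nat_lit 573478) (nat_lit 12) (.e (nat_lit 57520) (nat_lit 44) (.e (nat_lit 688170) (nat_lit 15) (.e (nat_lit 57480) (nat_lit 28) (.e (nat_lit 557105) (nat_lit 14) (.e (nat_lit 180252) (nat_lit 10) (.e (nat_lit 573481) (nat_lit 13) (.e (nat_lit 65640) (nat_lit 15) .nil))))))))) (.g (nat_lit 4) .nil .nil)))) 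
(.nd (nat_lit 5) 
(.lf (nat_lit 101982) (.g (nat_lit 3176) (.e (nat_lit 3305) (nat_lit 202) (.e (nat_lit 573475) (nat_lit 12) (.e (nat_lit 57520) (nat_lit 44) (.e (nat_lit 688171) (nat_lit 15) (.e (nat_lit 57478) (nat_lit 28) (.e (nat_lit 557103) (nat_lit 14) (.e (nat_lit 180250) (nat_lit 10) (.e (nat_lit 573485) (nat_lit 13) (.e (nat_lit 65641) (nat_lit 15) .nil))))))))) (.g (nat_lit 5) .nil .nil))) 
(.lf (nat_lit 102014) (.g (nat_lit 969) (.e (nat_lit 3305) (nat_lit 202) (.e (nat_lit 573482) (nat_lit 13) (.e (nat_lit 65616) (nat_lit 10) .nil))) .nil))))))) (.nd (nat_lit 1) (.nd (nat_lit 2) (.nd (nat_lit 3) (.nd (nat_lit 4) (.nd (nat_lit 5) 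
(.lf (nat_lit 101953) (.g (nat_lit 3606) (.e (nat_lit 3304) (nat_lit 202) (.e (nat_lit 573493) (nat_lit 15) (.e (nat_lit 81956) (nat_lit 23) (.e (nat_lit 98385) (nat_lit 32) .nil)))) .nil)) 
(.lf (nat_lit 101985) (.g (nat_lit 2587) (.e (nat_lit 3305) (nat_lit 202) (.e (nat_lit 573475) (nat_lit 12) (.e (nat_lit 57520) (nat_lit 44) (.e (nat_lit 688171) (nat_lit 15) (.e (nat_lit 57478) (nat_lit 28) (.e (nat_lit 557105) (nat_lit 14) (.e (nat_lit 180252) (nat_lit 10) (.e (nat_lit 573481) (nat_lit 13) (.e (nat_lit 65637) (nat_lit 15) .nil))))))))) (.g (nat_lit 4) .nil .nil)))) 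
(.nd (nat_lit 5) 
(.lf (nat_lit 101969) (.g (nat_lit 3544) (.e (nat_lit 3305) (nat_lit 202) (.e (nat_lit 573475) (nat_lit 12) (.e (nat_lit 57520) (nat_lit 44) (.e (nat_lit 688170) (nat_lit 15) (.e (nat_lit 57479) (nat_lit 28) (.e (nat_lit 557105) (nat_lit 14) (.e (nat_lit 180251) (nat_lit 10) (.e (nat_lit 573485) (nat_lit 13) (.e (nat_lit 65640) (nat_lit 15) .nil))))))))) (.g (nat_lit 5) .nil .nil))) 
(.lf (nat_lit 102001) (.g (nat_lit 2904) (.e (nat_lit 3305) (nat_lit 202) (.e (nat_lit 573478) (nat_lit 12) (.e (nat_lit 57520) (nat_lit 44) (.e (nat_lit 688171) (nat_lit 15) (.e (nat_lit 57479) (nat_lit 28) (.e (nat_lit 557105) (nat_lit 14) (.e (nat_lit 180251) (nat_lit 10) (.e (nat_lit 573485) (nat_lit 13) (.e (nat_lit 65640) (nat_lit 15) .nil))))))))) (.g (nat_lit 6) .nil .nil))))) 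
(.nd (nat_lit 4) (.nd (nat_lit 5) 
(.lf (nat_lit 101961) (.g (nat_lit 739) (.e (nat_lit 3305) (nat_lit 202) (.e (nat_lit 573475) (nat_lit 12) (.e (nat_lit 57520) (nat_lit 44) .nil))) .nil)) 
(.lf (nat_lit 101993) (.g (nat_lit 3705) (.e (nat_lit 3305) (nat_lit 202) (.e (nat_lit 573477) (nat_lit 12) (.e (nat_lit 57574) (nat_lit 55) (.e (nat_lit 778362) (nat_lit 9) (.e (nat_lit 297) (nat_lit 22) (.e (nat_lit 344119) (nat_lit 21) (.e (nat_lit 516176) (nat_lit 14) (.e (nat_lit 466967) (nat_lit 20) .nil)))))))) (.g (nat_lit 4) .nil .nil)))) (.nd (nat_lit 5) 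
(.lf (nat_lit 101977) (.g (nat_lit 2844) (.e (nat_lit 3305) (nat_lit 202) (.e (nat_lit 573475) (nat_lit 12) (.e (nat_lit 57520) (nat_lit 44) (.e (nat_lit 688170) (nat_lit 15) (.e (nat_lit 57480) (nat_lit 28) (.e (nat_lit 557105) (nat_lit 14) (.e (nat_lit 180251) (nat_lit 10) (.e (nat_lit 573485) (nat_lit 13) (.e (nat_lit 65641) (nat_lit 15) .nil))))))))) (.g (nat_lit 4) .nil .nil))) 
(.lf (nat_lit 102009) (.g (nat_lit 2302) (.e (nat_lit 3305) (nat_lit 202) (.e (nat_lit 573482) (nat_lit 13) (.e (nat_lit 65589) (nat_lit 9) (.e (nat_lit 336013) (nat_lit 2) (.e (nat_lit 98048) (nat_lit 18) .nil))))) .nil))))) (.nd (nat_lit 3) (.nd (nat_lit 4) (.nd (nat_lit 5) 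
(.lf (nat_lit 101957) (.g (nat_lit 1909) (.e (nat_lit 3305) (nat_lit 202) (.e (nat_lit 573451) (nat_lit 9) (.e (nat_lit 1595) (nat_lit 111) (.e (nat_lit 360473) (nat_lit 8) (.e (nat_lit 557087) (nat_lit 11) .nil))))) .nil)) 
(.lf (nat_lit 101989) (.g (nat_lit 2864) (.e (nat_lit 3305) (nat_lit 202) (.e (nat_lit 573475) (nat_lit 12) (.e (nat_lit 57520) (nat_lit 44) (.e (nat_lit 688171) (nat_lit 15) (.e (nat_lit 57480) (nat_lit 28) (.e (nat_lit 557105) (nat_lit 14) (.e (nat_lit 180251) (nat_lit 10) (.e (nat_lit 573485) (nat_lit 13) (.e (nat_lit 65641) (nat_lit 15) .nil))))))))) (.g (nat_lit 4) .nil .nil)))) 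
(.nd (nat_lit 5) 
(.lf (nat_lit 101973) (.g (nat_lit 2894) (.e (nat_lit 3305) (nat_lit 202) (.e (nat_lit 573475) (nat_lit 12) (.e (nat_lit 57520) (nat_lit 44) (.e (nat_lit 688170) (nat_lit 15) (.e (nat_lit 57480) (nat_lit 28) (.e (nat_lit 557103) (nat_lit 14) (.e (nat_lit 180250) (nat_lit 10) (.e (nat_lit 573482) (nat_lit 13) (.e (nat_lit 65640) (nat_lit 15) .nil))))))))) (.g (nat_lit 4) .nil .nil))) 
(.lf (nat_lit 102005) (.g (nat_lit 2853) (.e (nat_lit 3305) (nat_lit 202) (.e (nat_lit 573479) (nat_lit 13) (.e (nat_lit 65619) (nat_lit 10) (.e (nat_lit 344117) (nat_lit 21) (.e (nat_lit 516098) (nat_lit 0) (.e (nat_lit 7587) (nat_lit 406) (.e (nat_lit 65637) (nat_lit 15) .nil))))))) (.g (nat_lit 6) .nil .nil))))) (.nd (nat_lit 4) (.nd (nat_lit 5) 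
(.lf (nat_lit 101965) (.g (nat_lit 2721) (.e (nat_lit 3305) (nat_lit 202) (.e (nat_lit 573475) (nat_lit 12) (.e (nat_lit 57520) (nat_lit 44) (.e (nat_lit 688170) (nat_lit 15) (.e (nat_lit 57479) (nat_lit 28) (.e (nat_lit 557103) (nat_lit 14) (.e (nat_lit 180250) (nat_lit 10) (.e (nat_lit 573484) (nat_lit 13) (.e (nat_lit 65641) (nat_lit 15) .nil))))))))) (.g (nat_lit 4) .nil .nil))) 
(.lf (nat_lit 101997) (.g (nat_lit 2951) (.e (nat_lit 3305) (nat_lit 202) (.e (nat_lit 573478) (nat_lit 12) (.e (nat_lit 57520) (nat_lit 44) (.e (nat_lit 688170) (nat_lit 15) (.e (nat_lit 57479) (nat_lit 28) (.e (nat_lit 557105) (nat_lit 14) (.e (nat_lit 180251) (nat_lit 10) (.e (nat_lit 573485) (nat_lit 13) (.e (nat_lit 65640) (nat_lit 15) .nil))))))))) (.g (nat_lit 5) .nil .nil)))) 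
(.nd (nat_lit 5) 
(.lf (nat_lit 101981) (.g (nat_lit 3309) (.e (nat_lit 3305) (nat_lit 202) (.e (nat_lit 573475) (nat_lit 12) (.e (nat_lit 57520) (nat_lit 44) (.e (nat_lit 688171) (nat_lit 15) (.e (nat_lit 57478) (nat_lit 28) (.e (nat_lit 557103) (nat_lit 14) (.e (nat_lit 180250) (nat_lit 10) (.e (nat_lit 573485) (nat_lit 13) (.e (nat_lit 65640) (nat_lit 15) .nil))))))))) (.g (nat_lit 5) .nil .nil))) 
(.lf (nat_lit 102013) (.g (nat_lit 2043) (.e (nat_lit 3305) (nat_lit 202) (.e (nat_lit 573482) (nat_lit 13) (.e (nat_lit 65604) (nat_lit 9) (.e (nat_lit 336028) (nat_lit 3) (.e (nat_lit 98325) (nat_lit 17) .nil))))) .nil)))))) (.nd (nat_lit 2) (.nd (nat_lit 3) (.nd (nat_lit 4) (.nd (nat_lit 5) 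
(.lf (nat_lit 101955) (.g (nat_lit 4197) (.e (nat_lit 3304) (nat_lit 202) (.e (nat_lit 573493) (nat_lit 15) (.e (nat_lit 81956) (nat_lit 23) (.e (nat_lit 98388) (nat_lit 33) .nil)))) .nil)) 
(.lf (nat_lit 101987) (.g (nat_lit 2706) (.e (nat_lit 3305) (nat_lit 202) (.e (nat_lit 573475) (nat_lit 12) (.e (nat_lit 57520) (nat_lit 44) (.e (nat_lit 688171) (nat_lit 15) (.e (nat_lit 57479) (nat_lit 28) (.e (nat_lit 557105) (nat_lit 14) (.e (nat_lit 180252) (nat_lit 10) (.e (nat_lit 573482) (nat_lit 13) (.e (nat_lit 65637) (nat_lit 15) .nil))))))))) (.g (nat_lit 4) .nil .nil)))) 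
(.nd (nat_lit 5) 
(.lf (nat_lit 101971) (.g (nat_lit 3475) (.e (nat_lit 3305) (nat_lit 202) (.e (nat_lit 573475) (nat_lit 12) (.e (nat_lit 57520) (nat_lit 44) (.e (nat_lit 688170) (nat_lit 15) (.e (nat_lit 57479) (nat_lit 28) (.e (nat_lit 557105) (nat_lit 14) (.e (nat_lit 180252) (nat_lit 10) (.e (nat_lit 573480) (nat_lit 13) (.e (nat_lit 65642) (nat_lit 15) .nil))))))))) (.g (nat_lit 5) .nil .nil))) 
(.lf (nat_lit 102003) (.g (nat_lit 1575) (.e (nat_lit 3305) (nat_lit 202) (.e (nat_lit 573479) (nat_lit 13) (.e (nat_lit 65604) (nat_lit 9) (.e (nat_lit 336013) (nat_lit 2) (.e (nat_lit 90165) (nat_lit 12) .nil))))) .nil)))) (.nd (nat_lit 4) (.nd (nat_lit 5) 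
(.lf (nat_lit 101963) (.g (nat_lit 2938) (.e (nat_lit 3305) (nat_lit 202) (.e (nat_lit 573475) (nat_lit 12) (.e (nat_lit 57520) (nat_lit 44) (.e (nat_lit 688170) (nat_lit 15) (.e (nat_lit 57478) (nat_lit 28) (.e (nat_lit 557105) (nat_lit 14) (.e (nat_lit 180252) (nat_lit 10) (.e (nat_lit 573480) (nat_lit 13) (.e (nat_lit 65642) (nat_lit 15) .nil))))))))) (.g (nat_lit 4) .nil .nil))) 
(.lf (nat_lit 101995) (.g (nat_lit 2274) (.e (nat_lit 3305) (nat_lit 202) (.e (nat_lit 573478) (nat_lit 12) (.e (nat_lit 57520) (nat_lit 44) (.e (nat_lit 688170) (nat_lit 15) (.e (nat_lit 57478) (nat_lit 28) (.e (nat_lit 557105) (nat_lit 14) (.e (nat_lit 180251) (nat_lit 10) (.e (nat_lit 573485) (nat_lit 13) (.e (nat_lit 65640) (nat_lit 15) .nil))))))))) (.g (nat_lit 4) .nil .nil)))) 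
(.nd (nat_lit 5) 
(.lf (nat_lit 101979) (.g (nat_lit 2859) (.e (nat_lit 3305) (nat_lit 202) (.e (nat_lit 573475) (nat_lit 12) (.e (nat_lit 57520) (nat_lit 44) (.e (nat_lit 688171) (nat_lit 15) (.e (nat_lit 57465) (nat_lit 23) (.e (nat_lit 516129) (nat_lit 3) (.e (nat_lit 221210) (nat_lit 22) (.e (nat_lit 196666) (nat_lit 13) (.e (nat_lit 65642) (nat_lit 15) .nil))))))))) (.g (nat_lit 4) .nil .nil))) 
(.lf (nat_lit 102011) (.g (nat_lit 3800) (.e (nat_lit 3305) (nat_lit 202) (.e (nat_lit 573482) (nat_lit 13) (.e (nat_lit 65598) (nat_lit 9) (.e (nat_lit 336013) (nat_lit 2) (.e (nat_lit 90189) (nat_lit 18) .nil))))) .nil))))) (.nd (nat_lit 3) (.nd (nat_lit 4) (.nd (nat_lit 5) 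
(.lf (nat_lit 101959) (.g (nat_lit 1969) (.e (nat_lit 3305) (nat_lit 202) (.e (nat_lit 573473) (nat_lit 12) (.e (nat_lit 57521) (nat_lit 44) (.e (nat_lit 688171) (nat_lit 15) (.e (nat_lit 57478) (nat_lit 28) (.e (nat_lit 557105) (nat_lit 14) (.e (nat_lit 180252) (nat_lit 10) (.e (nat_lit 573481) (nat_lit 13) (.e (nat_lit 65640) (nat_lit 15) .nil))))))))) (.g (nat_lit 4) .nil .nil))) 
(.lf (nat_lit 101991) (.g (nat_lit 3451) (.e (nat_lit 3305) (nat_lit 202) (.e (nat_lit 573477) (nat_lit 12) (.e (nat_lit 57351) (nat_lit 0) (.e (nat_lit 7261) (nat_lit 384) (.e (nat_lit 57432) (nat_lit 16) (.e (nat_lit 368676) (nat_lit 21) (.e (nat_lit 516176) (nat_lit 14) (.e (nat_lit 466967) (nat_lit 20) .nil)))))))) (.g (nat_lit 7) .nil .nil)))) (.nd (nat_lit 5) 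
(.lf (nat_lit 101975) (.g (nat_lit 2846) (.e (nat_lit 3305) (nat_lit 202) (.e (nat_lit 573475) (nat_lit 12) (.e (nat_lit 57520) (nat_lit 44) (.e (nat_lit 688170) (nat_lit 15) (.e (nat_lit 57480) (nat_lit 28) (.e (nat_lit 557103) (nat_lit 14) (.e (nat_lit 180250) (nat_lit 10) (.e (nat_lit 573485) (nat_lit 13) (.e (nat_lit 65641) (nat_lit 15) .nil))))))))) (.g (nat_lit 4) .nil .nil))) 
(.lf (nat_lit 102007) (.g (nat_lit 3016) (.e (nat_lit 3305) (nat_lit 202) (.e (nat_lit 573479) (nat_lit 13) (.e (nat_lit 65619) (nat_lit 10) (.e (nat_lit 344117) (nat_lit 21) (.e (nat_lit 516185) (nat_lit 16) (.e (nat_lit 491556) (nat_lit 9) (.e (nat_lit 336300) (nat_lit 15) .nil))))))) (.g (nat_lit 6) .nil .nil))))) (.nd (nat_lit 4) (.nd (nat_lit 5) 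
(.lf (nat_lit 101967) (.g (nat_lit 3386) (.e (nat_lit 3305) (nat_lit 202) (.e (nat_lit 573475) (nat_lit 12) (.e (nat_lit 57520) (nat_lit 44) (.e (nat_lit 688170) (nat_lit 15) (.e (nat_lit 57479) (nat_lit 28) (.e (nat_lit 557103) (nat_lit 14) (.e (nat_lit 180250) (nat_lit 10) (.e (nat_lit 573485) (nat_lit 13) (.e (nat_lit 65640) (nat_lit 15) .nil))))))))) (.g (nat_lit 5) .nil .nil))) 
(.lf (nat_lit 101999) (.g (nat_lit 2596) (.e (nat_lit 3305) (nat_lit 202) (.e (nat_lit 573478) (nat_lit 12) (.e (nat_lit 57520) (nat_lit 44) (.e (nat_lit 688171) (nat_lit 15) (.e (nat_lit 57478) (nat_lit 28) (.e (nat_lit 557105) (nat_lit 14) (.e (nat_lit 180251) (nat_lit 10) (.e (nat_lit 573485) (nat_lit 13) (.e (nat_lit 65640) (nat_lit 15) .nil))))))))) (.g (nat_lit 5) .nil .nil)))) 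
(.nd (nat_lit 5) 
(.lf (nat_lit 101983) (.g (nat_lit 3189) (.e (nat_lit 3305) (nat_lit 202) (.e (nat_lit 573475) (nat_lit 12) (.e (nat_lit 57520) (nat_lit 44) (.e (nat_lit 688171) (nat_lit 15) (.e (nat_lit 57478) (nat_lit 28) (.e (nat_lit 557105) (nat_lit 14) (.e (nat_lit 180251) (nat_lit 10) (.e (nat_lit 573485) (nat_lit 13) (.e (nat_lit 65640) (nat_lit 15) .nil))))))))) (.g (nat_lit 5) .nil .nil))) 
(.lf (nat_lit 102015) (.g (nat_lit 1357) (.e (nat_lit 3305) (nat_lit 202) (.e (nat_lit 573482) (nat_lit 13) (.e (nat_lit 65619) (nat_lit 10) (.e (nat_lit 344115) (nat_lit 20) .nil)))) .nil))))))))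

noncomputable def tv1389 : DT := (.nd (nat_lit 0) (.nd (nat_lit 1) (.nd (nat_lit 2) (.nd (nat_lit 3) (.nd (nat_lit 4) (.nd (nat_lit 5) 
(.lf (nat_lit 102016) (.g (nat_lit 1842) (.e (nat_lit 3305) (nat_lit 202) (.e (nat_lit 573482) (nat_lit 13) (.e (nat_lit 65619) (nat_lit 10) (.e (nat_lit 344117) (nat_lit 21) (.e (nat_lit 516097) (nat_lit 0) .nil))))) .nil)) 
(.lf (nat_lit 102048) (.g (nat_lit 2400) (.e (nat_lit 3305) (nat_lit 202) (.e (nat_lit 573484) (nat_lit 13) (.e (nat_lit 65617) (nat_lit 10) (.e (nat_lit 344133) (nat_lit 26) (.e (nat_lit 564992) (nat_lit 9) (.e (nat_lit 316) (nat_lit 23) (.e (nat_lit 352267) (nat_lit 0) .nil))))))) (.g (nat_lit 4) .nil .nil)))) (.nd (nat_lit 5) 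
(.lf (nat_lit 102032) (.g (nat_lit 2066) (.e (nat_lit 3305) (nat_lit 202) (.e (nat_lit 573484) (nat_lit 13) (.e (nat_lit 65610) (nat_lit 10) (.e (nat_lit 344117) (nat_lit 21) (.e (nat_lit 516185) (nat_lit 16) .nil))))) .nil)) 
(.lf (nat_lit 102064) (.g (nat_lit 2382) (.e (nat_lit 3305) (nat_lit 202) (.e (nat_lit 573485) (nat_lit 13) (.e (nat_lit 65619) (nat_lit 10) (.e (nat_lit 344129) (nat_lit 26) (.e (nat_lit 557074) (nat_lit 9) (.e (nat_lit 7936) (nat_lit 26) (.e (nat_lit 376837) (nat_lit 0) .nil))))))) (.g (nat_lit 4) .nil .nil))))) (.nd (nat_lit 4) (.nd (nat_lit 5) 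
(.lf (nat_lit 102024) (.g (nat_lit 2023) (.e (nat_lit 3305) (nat_lit 202) (.e (nat_lit 573483) (nat_lit 13) (.e (nat_lit 65630) (nat_lit 14) (.e (nat_lit 401428) (nat_lit 3) (.e (nat_lit 204877) (nat_lit 31) (.e (nat_lit 376835) (nat_lit 0) .nil)))))) (.g (nat_lit 4) .nil .nil))) 
(.lf (nat_lit 102056) (.g (nat_lit 1129) (.e (nat_lit 3305) (nat_lit 202) (.e (nat_lit 573485) (nat_lit 13) (.e (nat_lit 65619) (nat_lit 10) (.e (nat_lit 344126) (nat_lit 25) .nil)))) .nil))) (.nd (nat_lit 5) 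
(.lf (nat_lit 102040) (.g (nat_lit 1232) (.e (nat_lit 3305) (nat_lit 202) (.e (nat_lit 573484) (nat_lit 13) (.e (nat_lit 65617) (nat_lit 10) (.e (nat_lit 344105) (nat_lit 19) .nil)))) .nil)) 
(.lf (nat_lit 102072) (.g (nat_lit 2793) (.e (nat_lit 3305) (nat_lit 202) (.e (nat_lit 573491) (nat_lit 15) (.e (nat_lit 81947) (nat_lit 20) (.e (nat_lit 1842) (nat_lit 123) (.e (nat_lit 548891) (nat_lit 11) (.e (nat_lit 81924) (nat_lit 0) .nil)))))) (.g (nat_lit 5) .nil .nil)))))) (.nd (nat_lit 3) (.nd (nat_lit 4) (.nd (nat_lit 5) 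
(.lf (nat_lit 102020) (.g (nat_lit 2348) (.e (nat_lit 3305) (nat_lit 202) (.e (nat_lit 573482) (nat_lit 13) (.e (nat_lit 65619) (nat_lit 10) (.e (nat_lit 344129) (nat_lit 26) (.e (nat_lit 557074) (nat_lit 9) (.e (nat_lit 7936) (nat_lit 26) (.e (nat_lit 376835) (nat_lit 0) .nil))))))) (.g (nat_lit 4) .nil .nil))) 
(.lf (nat_lit 102052) (.g (nat_lit 2288) (.e (nat_lit 3305) (nat_lit 202) (.e (nat_lit 573485) (nat_lit 13) (.e (nat_lit 65604) (nat_lit 9) (.e (nat_lit 336028) (nat_lit 3) (.e (nat_lit 98325) (nat_lit 17) (.e (nat_lit 7549) (nat_lit 402) (.e (nat_lit 1515) (nat_lit 108) (.e (nat_lit 336300) (nat_lit 15) .nil)))))))) (.g (nat_lit 4) .nil .nil)))) (.nd (nat_lit 5) 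
(.lf (nat_lit 102036) (.g (nat_lit 3307) (.e (nat_lit 3305) (nat_lit 202) (.e (nat_lit 573484) (nat_lit 13) (.e (nat_lit 65610) (nat_lit 10) (.e (nat_lit 344129) (nat_lit 26) (.e (nat_lit 557080) (nat_lit 9) (.e (nat_lit 316) (nat_lit 23) (.e (nat_lit 352267) (nat_lit 0) .nil))))))) (.g (nat_lit 4) .nil .nil))) 
(.lf (nat_lit 102068) (.g (nat_lit 3707) (.e (nat_lit 3305) (nat_lit 202) (.e (nat_lit 573490) (nat_lit 15) (.e (nat_lit 81956) (nat_lit 23) (.e (nat_lit 98389) (nat_lit 33) (.e (nat_lit 491552) (nat_lit 9) (.e (nat_lit 336282) (nat_lit 15) .nil)))))) (.g (nat_lit 4) .nil .nil))))) (.nd (nat_lit 4) (.nd (nat_lit 5) 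
(.lf (nat_lit 102028) (.g (nat_lit 2137) (.e (nat_lit 3305) (nat_lit 202) (.e (nat_lit 573484) (nat_lit 13) (.e (nat_lit 65610) (nat_lit 10) (.e (nat_lit 344117) (nat_lit 21) (.e (nat_lit 516098) (nat_lit 0) .nil))))) .nil)) 
(.lf (nat_lit 102060) (.g (nat_lit 3097) (.e (nat_lit 3305) (nat_lit 202) (.e (nat_lit 573485) (nat_lit 13) (.e (nat_lit 65619) (nat_lit 10) (.e (nat_lit 344129) (nat_lit 26) (.e (nat_lit 557065) (nat_lit 9) (.e (nat_lit 7936) (nat_lit 23) (.e (nat_lit 352267) (nat_lit 0) .nil))))))) (.g (nat_lit 5) .nil .nil)))) (.nd (nat_lit 5) 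
(.lf (nat_lit 102044) (.g (nat_lit 2478) (.e (nat_lit 3305) (nat_lit 202) (.e (nat_lit 573484) (nat_lit 13) (.e (nat_lit 65617) (nat_lit 10) (.e (nat_lit 344130) (nat_lit 26) (.e (nat_lit 564992) (nat_lit 9) (.e (nat_lit 316) (nat_lit 23) (.e (nat_lit 352267) (nat_lit 0) .nil))))))) (.g (nat_lit 4) .nil .nil))) 
(.lf (nat_lit 102076) (.g (nat_lit 774) (.e (nat_lit 3305) (nat_lit 202) (.e (nat_lit 573493) (nat_lit 15) (.e (nat_lit 81950) (nat_lit 21) .nil))) .nil)))))) (.nd (nat_lit 2) (.nd (nat_lit 3) (.nd (nat_lit 4) (.nd (nat_lit 5) 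
(.lf (nat_lit 102018) (.g (nat_lit 1360) (.e (nat_lit 3305) (nat_lit 202) (.e (nat_lit 573482) (nat_lit 13) (.e (nat_lit 65619) (nat_lit 10) (.e (nat_lit 344126) (nat_lit 25) .nil)))) .nil)) 
(.lf (nat_lit 102050) (.g (nat_lit 2141) (.e (nat_lit 3305) (nat_lit 202) (.e (nat_lit 573484) (nat_lit 13) (.e (nat_lit 65619) (nat_lit 10) (.e (nat_lit 344117) (nat_lit 21) (.e (nat_lit 516185) (nat_lit 16) .nil))))) .nil))) (.nd (nat_lit 5) 
(.lf (nat_lit 102034) (.g (nat_lit 2738) (.e (nat_lit 3305) (nat_lit 202) (.e (nat_lit 573484) (nat_lit 13) (.e (nat_lit 65610) (nat_lit 10) (.e (nat_lit 344129) (nat_lit 26) (.e (nat_lit 557065) (nat_lit 9) (.e (nat_lit 312) (nat_lit 23) (.e (nat_lit 352262) (nat_lit 0) .nil))))))) (.g (nat_lit 4) .nil .nil))) 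
(.lf (nat_lit 102066) (.g (nat_lit 2718) (.e (nat_lit 3305) (nat_lit 202) (.e (nat_lit 573490) (nat_lit 15) (.e (nat_lit 81956) (nat_lit 23) (.e (nat_lit 98320) (nat_lit 17) .nil)))) .nil)))) (.nd (nat_lit 4) (.nd (nat_lit 5) 
(.lf (nat_lit 102026) (.g (nat_lit 1699) (.e (nat_lit 3305) (nat_lit 202) (.e (nat_lit 573484) (nat_lit 13) (.e (nat_lit 65610) (nat_lit 10) (.e (nat_lit 344105) (nat_lit 19) .nil)))) .nil)) 
(.lf (nat_lit 102058) (.g (nat_lit 3223) (.e (nat_lit 3305) (nat_lit 202) (.e (nat_lit 573485) (nat_lit 13) (.e (nat_lit 65619) (nat_lit 10) (.e (nat_lit 344129) (nat_lit 26) (.e (nat_lit 557065) (nat_lit 9) (.e (nat_lit 312) (nat_lit 23) (.e (nat_lit 352262) (nat_lit 0) .nil))))))) (.g (nat_lit 5) .nil .nil)))) (.nd (nat_lit 5) 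
(.lf (nat_lit 102042) (.g (nat_lit 2891) (.e (nat_lit 3305) (nat_lit 202) (.e (nat_lit 573484) (nat_lit 13) (.e (nat_lit 65617) (nat_lit 10) (.e (nat_lit 344130) (nat_lit 26) (.e (nat_lit 557066) (nat_lit 9) (.e (nat_lit 312) (nat_lit 23) (.e (nat_lit 352260) (nat_lit 0) .nil))))))) (.g (nat_lit 4) .nil .nil))) 
(.lf (nat_lit 102074) (.g (nat_lit 473) (.e (nat_lit 3305) (nat_lit 202) (.e (nat_lit 573491) (nat_lit 15) (.e (nat_lit 81956) (nat_lit 23) .nil))) .nil))))) (.nd (nat_lit 3) (.nd (nat_lit 4) (.nd (nat_lit 5) 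
(.lf (nat_lit 102022) (.g (nat_lit 1951) (.e (nat_lit 3305) (nat_lit 202) (.e (nat_lit 573483) (nat_lit 13) (.e (nat_lit 65630) (nat_lit 14) (.e (nat_lit 401428) (nat_lit 3) (.e (nat_lit 204866) (nat_lit 28) (.e (nat_lit 352262) (nat_lit 0) .nil)))))) (.g (nat_lit 4) .nil .nil))) 
(.lf (nat_lit 102054) (.g (nat_lit 1521) (.e (nat_lit 3305) (nat_lit 202) (.e (nat_lit 573485) (nat_lit 13) (.e (nat_lit 65619) (nat_lit 10) (.e (nat_lit 344117) (nat_lit 21) (.e (nat_lit 516098) (nat_lit 0) .nil))))) .nil))) (.nd (nat_lit 5) 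
(.lf (nat_lit 102038) (.g (nat_lit 981) (.e (nat_lit 3305) (nat_lit 202) (.e (nat_lit 573484) (nat_lit 13) (.e (nat_lit 65617) (nat_lit 10) (.e (nat_lit 344091) (nat_lit 18) .nil)))) .nil)) 
(.lf (nat_lit 102070) (.g (nat_lit 2784) (.e (nat_lit 3305) (nat_lit 202) (.e (nat_lit 573491) (nat_lit 15) (.e (nat_lit 81946) (nat_lit 20) (.e (nat_lit 1858) (nat_lit 124) (.e (nat_lit 557080) (nat_lit 9) (.e (nat_lit 316) (nat_lit 23) (.e (nat_lit 352267) (nat_lit 0) .nil))))))) (.g (nat_lit 4) .nil .nil))))) (.nd (nat_lit 4) (.nd (nat_lit 5) 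
(.lf (nat_lit 102030) (.g (nat_lit 4681) (.e (nat_lit 3305) (nat_lit 202) (.e (nat_lit 573484) (nat_lit 13) (.e (nat_lit 65610) (nat_lit 10) (.e (nat_lit 344117) (nat_lit 21) (.e (nat_lit 516106) (nat_lit 0) (.e (nat_lit 7550) (nat_lit 402) (.e (nat_lit 1515) (nat_lit 108) (.e (nat_lit 336300) (nat_lit 15) .nil)))))))) (.g (nat_lit 0) .nil .nil))) 
(.lf (nat_lit 102062) (.g (nat_lit 3651) (.e (nat_lit 3305) (nat_lit 202) (.e (nat_lit 573485) (nat_lit 13) (.e (nat_lit 65619) (nat_lit 10) (.e (nat_lit 344129) (nat_lit 26) (.e (nat_lit 557070) (nat_lit 9) (.e (nat_lit 313) (nat_lit 23) (.e (nat_lit 352267) (nat_lit 0) .nil))))))) (.g (nat_lit 5) .nil .nil)))) (.nd (nat_lit 5) 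
(.lf (nat_lit 102046) (.g (nat_lit 2590) (.e (nat_lit 3305) (nat_lit 202) (.e (nat_lit 573484) (nat_lit 13) (.e (nat_lit 65617) (nat_lit 10) (.e (nat_lit 344132) (nat_lit 26) (.e (nat_lit 557064) (nat_lit 9) (.e (nat_lit 314) (nat_lit 23) (.e (nat_lit 352267) (nat_lit 0) .nil))))))) (.g (nat_lit 4) .nil .nil))) 
(.lf (nat_lit 102078) (.g (nat_lit 2400) (.e (nat_lit 3305) (nat_lit 202) (.e (nat_lit 573493) (nat_lit 15) (.e (nat_lit 81954) (nat_lit 23) (.e (nat_lit 98319) (nat_lit 17) .nil)))) .nil))))))) (.nd (nat_lit 1) (.nd (nat_lit 2) (.nd (nat_lit 3) (.nd (nat_lit 4) (.nd (nat_lit 5) 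
(.lf (nat_lit 102017) (.g (nat_lit 1937) (.e (nat_lit 3305) (nat_lit 202) (.e (nat_lit 573482) (nat_lit 13) (.e (nat_lit 65619) (nat_lit 10) (.e (nat_lit 344117) (nat_lit 21) (.e (nat_lit 516106) (nat_lit 0) .nil))))) .nil)) 
(.lf (nat_lit 102049) (.g (nat_lit 2064) (.e (nat_lit 3305) (nat_lit 202) (.e (nat_lit 573484) (nat_lit 13) (.e (nat_lit 65619) (nat_lit 10) (.e (nat_lit 344117) (nat_lit 21) (.e (nat_lit 516097) (nat_lit 0) .nil))))) .nil))) (.nd (nat_lit 5) 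
(.lf (nat_lit 102033) (.g (nat_lit 3433) (.e (nat_lit 3305) (nat_lit 202) (.e (nat_lit 573484) (nat_lit 13) (.e (nat_lit 65610) (nat_lit 10) (.e (nat_lit 344129) (nat_lit 26) (.e (nat_lit 557064) (nat_lit 9) (.e (nat_lit 314) (nat_lit 23) (.e (nat_lit 352267) (nat_lit 0) .nil))))))) (.g (nat_lit 4) .nil .nil))) 
(.lf (nat_lit 102065) (.g (nat_lit 2726) (.e (nat_lit 3305) (nat_lit 202) (.e (nat_lit 573485) (nat_lit 13) (.e (nat_lit 65619) (nat_lit 10) (.e (nat_lit 344129) (nat_lit 26) (.e (nat_lit 557080) (nat_lit 9) (.e (nat_lit 316) (nat_lit 23) (.e (nat_lit 352267) (nat_lit 0) .nil))))))) (.g (nat_lit 4) .nil .nil))))) (.nd (nat_lit 4) (.nd (nat_lit 5) 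
(.lf (nat_lit 102025) (.g (nat_lit 1339) (.e (nat_lit 3305) (nat_lit 202) (.e (nat_lit 573484) (nat_lit 13) (.e (nat_lit 65610) (nat_lit 10) (.e (nat_lit 344097) (nat_lit 18) .nil)))) .nil)) 
(.lf (nat_lit 102057) (.g (nat_lit 2822) (.e (nat_lit 3305) (nat_lit 202) (.e (nat_lit 573485) (nat_lit 13) (.e (nat_lit 65619) (nat_lit 10) (.e (nat_lit 344129) (nat_lit 26) (.e (nat_lit 557064) (nat_lit 9) (.e (nat_lit 314) (nat_lit 23) (.e (nat_lit 352267) (nat_lit 0) .nil))))))) (.g (nat_lit 4) .nil .nil)))) (.nd (nat_lit 5) 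
(.lf (nat_lit 102041) (.g (nat_lit 3001) (.e (nat_lit 3305) (nat_lit 202) (.e (nat_lit 573484) (nat_lit 13) (.e (nat_lit 65617) (nat_lit 10) (.e (nat_lit 344130) (nat_lit 26) (.e (nat_lit 557066) (nat_lit 9) (.e (nat_lit 310) (nat_lit 23) (.e (nat_lit 352260) (nat_lit 0) .nil))))))) (.g (nat_lit 4) .nil .nil))) 
(.lf (nat_lit 102073) (.g (nat_lit 2549) (.e (nat_lit 3305) (nat_lit 202) (.e (nat_lit 573491) (nat_lit 15) (.e (nat_lit 81954) (nat_lit 23) (.e (nat_lit 98325) (nat_lit 17) (.e (nat_lit 7550) (nat_lit 402) (.e (nat_lit 1512) (nat_lit 108) (.e (nat_lit 336300) (nat_lit 15) .nil))))))) (.g (nat_lit 0) .nil .nil)))))) (.nd (nat_lit 3) (.nd (nat_lit 4) (.nd (nat_lit 5) 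
(.lf (nat_lit 102021) (.g (nat_lit 1684) (.e (nat_lit 3305) (nat_lit 202) (.e (nat_lit 573483) (nat_lit 13) (.e (nat_lit 65630) (nat_lit 14) (.e (nat_lit 401428) (nat_lit 3) (.e (nat_lit 204865) (nat_lit 28) (.e (nat_lit 352262) (nat_lit 0) .nil)))))) (.g (nat_lit 4) .nil .nil))) 
(.lf (nat_lit 102053) (.g (nat_lit 1633) (.e (nat_lit 3305) (nat_lit 202) (.e (nat_lit 573485) (nat_lit 13) (.e (nat_lit 65619) (nat_lit 10) (.e (nat_lit 344117) (nat_lit 21) (.e (nat_lit 516097) (nat_lit 0) .nil))))) .nil))) (.nd (nat_lit 5) 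
(.lf (nat_lit 102037) (.g (nat_lit 1878) (.e (nat_lit 3305) (nat_lit 202) (.e (nat_lit 573484) (nat_lit 13) (.e (nat_lit 65610) (nat_lit 10) (.e (nat_lit 344129) (nat_lit 26) (.e (nat_lit 557087) (nat_lit 11) .nil))))) .nil)) 
(.lf (nat_lit 102069) (.g (nat_lit 613) (.e (nat_lit 3305) (nat_lit 202) (.e (nat_lit 573491) (nat_lit 15) (.e (nat_lit 81938) (nat_lit 20) .nil))) .nil)))) (.nd (nat_lit 4) (.nd (nat_lit 5) 
(.lf (nat_lit 102029) (.g (nat_lit 4813) (.e (nat_lit 3305) (nat_lit 202) (.e (nat_lit 573484) (nat_lit 13) (.e (nat_lit 65610) (nat_lit 10) (.e (nat_lit 344117) (nat_lit 21) (.e (nat_lit 516106) (nat_lit 0) (.e (nat_lit 7550) (nat_lit 402) (.e (nat_lit 1512) (nat_lit 108) (.e (nat_lit 336300) (nat_lit 15) .nil)))))))) (.g (nat_lit 0) .nil .nil))) 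
(.lf (nat_lit 102061) (.g (nat_lit 1515) (.e (nat_lit 3305) (nat_lit 202) (.e (nat_lit 573485) (nat_lit 13) (.e (nat_lit 65619) (nat_lit 10) (.e (nat_lit 344129) (nat_lit 26) (.e (nat_lit 557066) (nat_lit 9) .nil))))) .nil))) (.nd (nat_lit 5) 
(.lf (nat_lit 102045) (.g (nat_lit 1320) (.e (nat_lit 3305) (nat_lit 202) (.e (nat_lit 573484) (nat_lit 13) (.e (nat_lit 65617) (nat_lit 10) (.e (nat_lit 344130) (nat_lit 26) (.e (nat_lit 557087) (nat_lit 11) .nil))))) .nil)) 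
(.lf (nat_lit 102077) (.g (nat_lit 1754) (.e (nat_lit 3305) (nat_lit 202) (.e (nat_lit 573493) (nat_lit 15) (.e (nat_lit 81951) (nat_lit 22) (.e (nat_lit 98048) (nat_lit 18) .nil)))) .nil)))))) (.nd (nat_lit 2) (.nd (nat_lit 3) (.nd (nat_lit 4) (.nd (nat_lit 5) 
(.lf (nat_lit 102019) (.g (nat_lit 2992) (.e (nat_lit 3305) (nat_lit 202) (.e (nat_lit 573482) (nat_lit 13) (.e (nat_lit 65619) (nat_lit 10) (.e (nat_lit 344129) (nat_lit 26) (.e (nat_lit 557066) (nat_lit 9) (.e (nat_lit 314) (nat_lit 23) (.e (nat_lit 352267) (nat_lit 0) .nil))))))) (.g (nat_lit 5) .nil .nil))) 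
(.lf (nat_lit 102051) (.g (nat_lit 1601) (.e (nat_lit 3305) (nat_lit 202) (.e (nat_lit 573485) (nat_lit 13) (.e (nat_lit 65598) (nat_lit 9) (.e (nat_lit 336013) (nat_lit 2) (.e (nat_lit 98048) (nat_lit 18) .nil))))) .nil))) (.nd (nat_lit 5) 
(.lf (nat_lit 102035) (.g (nat_lit 2804) (.e (nat_lit 3305) (nat_lit 202) (.e (nat_lit 573484) (nat_lit 13) (.e (nat_lit 65610) (nat_lit 10) (.e (nat_lit 344129) (nat_lit 26) (.e (nat_lit 557066) (nat_lit 9) (.e (nat_lit 314) (nat_lit 23) (.e (nat_lit 352265) (nat_lit 0) .nil))))))) (.g (nat_lit 4) .nil .nil))) 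
(.lf (nat_lit 102067) (.g (nat_lit 2444) (.e (nat_lit 3305) (nat_lit 202) (.e (nat_lit 573490) (nat_lit 15) (.e (nat_lit 81956) (nat_lit 23) (.e (nat_lit 98389) (nat_lit 33) .nil)))) .nil)))) (.nd (nat_lit 4) (.nd (nat_lit 5) 
(.lf (nat_lit 102027) (.g (nat_lit 1351) (.e (nat_lit 3305) (nat_lit 202) (.e (nat_lit 573484) (nat_lit 13) (.e (nat_lit 65610) (nat_lit 10) (.e (nat_lit 344107) (nat_lit 19) .nil)))) .nil)) 
(.lf (nat_lit 102059) (.g (nat_lit 3347) (.e (nat_lit 3305) (nat_lit 202) (.e (nat_lit 573485) (nat_lit 13) (.e (nat_lit 65619) (nat_lit 10) (.e (nat_lit 344129) (nat_lit 26) (.e (nat_lit 557065) (nat_lit 9) (.e (nat_lit 314) (nat_lit 23) (.e (nat_lit 352267) (nat_lit 0) .nil))))))) (.g (nat_lit 5) .nil .nil)))) (.nd (nat_lit 5) 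
(.lf (nat_lit 102043) (.g (nat_lit 2546) (.e (nat_lit 3305) (nat_lit 202) (.e (nat_lit 573484) (nat_lit 13) (.e (nat_lit 65617) (nat_lit 10) (.e (nat_lit 344130) (nat_lit 26) (.e (nat_lit 557066) (nat_lit 9) (.e (nat_lit 314) (nat_lit 23) (.e (nat_lit 352266) (nat_lit 0) .nil))))))) (.g (nat_lit 4) .nil .nil))) 
(.lf (nat_lit 102075) (.g (nat_lit 2331) (.e (nat_lit 3305) (nat_lit 202) (.e (nat_lit 573491) (nat_lit 15) (.e (nat_lit 81956) (nat_lit 23) (.e (nat_lit 98320) (nat_lit 17) .nil)))) .nil))))) (.nd (nat_lit 3) (.nd (nat_lit 4) (.nd (nat_lit 5) 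
(.lf (nat_lit 102023) (.g (nat_lit 1927) (.e (nat_lit 3305) (nat_lit 202) (.e (nat_lit 573483) (nat_lit 13) (.e (nat_lit 65630) (nat_lit 14) (.e (nat_lit 401428) (nat_lit 3) (.e (nat_lit 204876) (nat_lit 31) (.e (nat_lit 376835) (nat_lit 0) .nil)))))) (.g (nat_lit 4) .nil .nil))) 
(.lf (nat_lit 102055) (.g (nat_lit 1596) (.e (nat_lit 3305) (nat_lit 202) (.e (nat_lit 573485) (nat_lit 13) (.e (nat_lit 65619) (nat_lit 10) (.e (nat_lit 344117) (nat_lit 21) (.e (nat_lit 516185) (nat_lit 16) .nil))))) .nil))) (.nd (nat_lit 5) 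
(.lf (nat_lit 102039) (.g (nat_lit 1645) (.e (nat_lit 3305) (nat_lit 202) (.e (nat_lit 573484) (nat_lit 13) (.e (nat_lit 65617) (nat_lit 10) (.e (nat_lit 344096) (nat_lit 18) (.e (nat_lit 3950) (nat_lit 239) .nil))))) .nil)) 
(.lf (nat_lit 102071) (.g (nat_lit 2826) (.e (nat_lit 3305) (nat_lit 202) (.e (nat_lit 573491) (nat_lit 15) (.e (nat_lit 81947) (nat_lit 20) (.e (nat_lit 1842) (nat_lit 123) (.e (nat_lit 548891) (nat_lit 11) (.e (nat_lit 81922) (nat_lit 0) .nil)))))) (.g (nat_lit 5) .nil .nil))))) (.nd (nat_lit 4) (.nd (nat_lit 5) 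
(.lf (nat_lit 102031) (.g (nat_lit 1678) (.e (nat_lit 3305) (nat_lit 202) (.e (nat_lit 573484) (nat_lit 13) (.e (nat_lit 65610) (nat_lit 10) (.e (nat_lit 344117) (nat_lit 21) (.e (nat_lit 516184) (nat_lit 16) .nil))))) .nil)) 
(.lf (nat_lit 102063) (.g (nat_lit 3164) (.e (nat_lit 3305) (nat_lit 202) (.e (nat_lit 573485) (nat_lit 13) (.e (nat_lit 65619) (nat_lit 10) (.e (nat_lit 344129) (nat_lit 26) (.e (nat_lit 557070) (nat_lit 9) (.e (nat_lit 7936) (nat_lit 23) (.e (nat_lit 352267) (nat_lit 0) .nil))))))) (.g (nat_lit 5) .nil .nil)))) (.nd (nat_lit 5) 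
(.lf (nat_lit 102047) (.g (nat_lit 2972) (.e (nat_lit 3305) (nat_lit 202) (.e (nat_lit 573484) (nat_lit 13) (.e (nat_lit 65617) (nat_lit 10) (.e (nat_lit 344133) (nat_lit 26) (.e (nat_lit 557065) (nat_lit 9) (.e (nat_lit 314) (nat_lit 23) (.e (nat_lit 352267) (nat_lit 0) .nil))))))) (.g (nat_lit 5) .nil .nil))) 
(.lf (nat_lit 102079) (.g (nat_lit 2048) (.e (nat_lit 3305) (nat_lit 202) (.e (nat_lit 573493) (nat_lit 15) (.e (nat_lit 81956) (nat_lit 23) (.e (nat_lit 98320) (nat_lit 17) .nil)))) .nil))))))))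

noncomputable def tv1390 : DT := (.nd (nat_lit 0) (.nd (nat_lit 1) (.nd (nat_lit 2) (.nd (nat_lit 3) (.nd (nat_lit 4) (.nd (nat_lit 5) 
(.lf (nat_lit 102080) (.g (nat_lit 3552) (.e (nat_lit 3305) (nat_lit 202) (.e (nat_lit 573493) (nat_lit 15) (.e (nat_lit 81956) (nat_lit 23) (.e (nat_lit 98325) (nat_lit 17) (.e (nat_lit 7550) (nat_lit 402) (.e (nat_lit 1512) (nat_lit 108) (.e (nat_lit 336300) (nat_lit 15) .nil))))))) (.g (nat_lit 0) .nil .nil))) 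
(.lf (nat_lit 102112) (.g (nat_lit 2489) (.e (nat_lit 3307) (nat_lit 202) (.e (nat_lit 573475) (nat_lit 12) (.e (nat_lit 57570) (nat_lit 54) (.e (nat_lit 770076) (nat_lit 12) (.e (nat_lit 131094) (nat_lit 2) (.e (nat_lit 90178) (nat_lit 15) (.e (nat_lit 188440) (nat_lit 20) .nil))))))) (.g (nat_lit 4) .nil .nil)))) (.nd (nat_lit 5) 
(.lf (nat_lit 102096) (.g (nat_lit 2142) (.e (nat_lit 3307) (nat_lit 202) (.e (nat_lit 573454) (nat_lit 9) (.e (nat_lit 1315) (nat_lit 98) (.e (nat_lit 147496) (nat_lit 11) (.e (nat_lit 24601) (nat_lit 2) .nil))))) .nil)) 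
(.lf (nat_lit 102128) (.g (nat_lit 2238) (.e (nat_lit 3307) (nat_lit 202) (.e (nat_lit 573485) (nat_lit 13) (.e (nat_lit 65604) (nat_lit 9) (.e (nat_lit 336013) (nat_lit 2) (.e (nat_lit 90165) (nat_lit 12) (.e (nat_lit 164237) (nat_lit 187) (.e (nat_lit 1515) (nat_lit 108) (.e (nat_lit 343808) (nat_lit 15) .nil)))))))) (.g (nat_lit 4) .nil .nil))))) (.nd (nat_lit 4) (.nd (nat_lit 5) 
(.lf (nat_lit 102088) (.g (nat_lit 3082) (.e (nat_lit 3306) (nat_lit 202) (.e (nat_lit 573489) (nat_lit 14) (.e (nat_lit 73755) (nat_lit 8) (.e (nat_lit 557097) (nat_lit 13) (.e (nat_lit 172133) (nat_lit 15) .nil))))) .nil)) 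
(.lf (nat_lit 102120) (.g (nat_lit 2466) (.e (nat_lit 3307) (nat_lit 202) (.e (nat_lit 573484) (nat_lit 13) (.e (nat_lit 65610) (nat_lit 10) (.e (nat_lit 344117) (nat_lit 21) (.e (nat_lit 516099) (nat_lit 0) (.e (nat_lit 7562) (nat_lit 402) (.e (nat_lit 1426) (nat_lit 108) (.e (nat_lit 336306) (nat_lit 15) .nil)))))))) (.g (nat_lit 4) .nil .nil)))) (.nd (nat_lit 5) 
(.lf (nat_lit 102104) (.g (nat_lit 2522) (.e (nat_lit 3307) (nat_lit 202) (.e (nat_lit 573475) (nat_lit 12) (.e (nat_lit 57347) (nat_lit 0) (.e (nat_lit 7124) (nat_lit 382) (.e (nat_lit 1296) (nat_lit 96) .nil))))) .nil)) 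
(.lf (nat_lit 102136) (.g (nat_lit 4395) (.e (nat_lit 3307) (nat_lit 202) (.e (nat_lit 573485) (nat_lit 13) (.e (nat_lit 65604) (nat_lit 9) (.e (nat_lit 336013) (nat_lit 2) (.e (nat_lit 90165) (nat_lit 12) (.e (nat_lit 164239) (nat_lit 187) (.e (nat_lit 1427) (nat_lit 108) (.e (nat_lit 336306) (nat_lit 15) .nil)))))))) (.g (nat_lit 0) .nil .nil)))))) 
(.nd (nat_lit 3) (.nd (nat_lit 4) (.nd (nat_lit 5) 
(.lf (nat_lit 102084) (.g (nat_lit 3754) (.e (nat_lit 3306) (nat_lit 202) (.e (nat_lit 573471) (nat_lit 11) (.e (nat_lit 16425) (nat_lit 7) (.e (nat_lit 409616) (nat_lit 10) .nil)))) .nil)) 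
(.lf (nat_lit 102116) (.g (nat_lit 589) (.e (nat_lit 3307) (nat_lit 202) (.e (nat_lit 573484) (nat_lit 13) (.e (nat_lit 65569) (nat_lit 3) .nil))) .nil))) (.nd (nat_lit 5) 
(.lf (nat_lit 102100) (.g (nat_lit 2666) (.e (nat_lit 3307) (nat_lit 202) (.e (nat_lit 573474) (nat_lit 12) (.e (nat_lit 57347) (nat_lit 0) (.e (nat_lit 7265) (nat_lit 384) .nil)))) .nil)) 
(.lf (nat_lit 102132) (.g (nat_lit 5096) (.e (nat_lit 3307) (nat_lit 202) (.e (nat_lit 573485) (nat_lit 13) (.e (nat_lit 65604) (nat_lit 9) (.e (nat_lit 336013) (nat_lit 2) (.e (nat_lit 90165) (nat_lit 12) (.e (nat_lit 164238) (nat_lit 187) (.e (nat_lit 1427) (nat_lit 108) (.e (nat_lit 336306) (nat_lit 15) .nil)))))))) (.g (nat_lit 0) .nil .nil))))) (.nd (nat_lit 4) (.nd (nat_lit 5) 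
(.lf (nat_lit 102092) (.g (nat_lit 3591) (.e (nat_lit 3306) (nat_lit 202) (.e (nat_lit 573489) (nat_lit 14) (.e (nat_lit 73755) (nat_lit 8) (.e (nat_lit 557098) (nat_lit 13) (.e (nat_lit 172136) (nat_lit 15) .nil))))) .nil)) 
(.lf (nat_lit 102124) (.g (nat_lit 2419) (.e (nat_lit 3307) (nat_lit 202) (.e (nat_lit 573485) (nat_lit 13) (.e (nat_lit 65604) (nat_lit 9) (.e (nat_lit 336013) (nat_lit 2) (.e (nat_lit 90165) (nat_lit 12) (.e (nat_lit 164236) (nat_lit 187) (.e (nat_lit 1515) (nat_lit 108) (.e (nat_lit 343808) (nat_lit 15) .nil)))))))) (.g (nat_lit 5) .nil .nil)))) (.nd (nat_lit 5) 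
(.lf (nat_lit 102108) (.g (nat_lit 3894) (.e (nat_lit 3307) (nat_lit 202) (.e (nat_lit 573475) (nat_lit 12) (.e (nat_lit 57348) (nat_lit 0) (.e (nat_lit 7265) (nat_lit 384) (.e (nat_lit 57406) (nat_lit 12) (.e (nat_lit 336016) (nat_lit 2) (.e (nat_lit 90178) (nat_lit 15) (.e (nat_lit 188440) (nat_lit 20) .nil)))))))) (.g (nat_lit 6) .nil .nil))) 
(.lf (nat_lit 102140) (.g (nat_lit 1927) (.e (nat_lit 3307) (nat_lit 202) (.e (nat_lit 573485) (nat_lit 13) (.e (nat_lit 65604) (nat_lit 9) (.e (nat_lit 336028) (nat_lit 3) (.e (nat_lit 98325) (nat_lit 17) (.e (nat_lit 7550) (nat_lit 402) (.e (nat_lit 1512) (nat_lit 108) (.e (nat_lit 343808) (nat_lit 15) .nil)))))))) (.g (nat_lit 4) .nil .nil))))))) 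
(.nd (nat_lit 2) (.nd (nat_lit 3) (.nd (nat_lit 4) (.nd (nat_lit 5) 
(.lf (nat_lit 102082) (.g (nat_lit 1670) (.e (nat_lit 3305) (nat_lit 202) (.e (nat_lit 573493) (nat_lit 15) (.e (nat_lit 81959) (nat_lit 24) (.e (nat_lit 130816) (nat_lit 140) .nil)))) .nil)) 
(.lf (nat_lit 102114) (.g (nat_lit 2581) (.e (nat_lit 3307) (nat_lit 202) (.e (nat_lit 573477) (nat_lit 12) (.e (nat_lit 57750) (nat_lit 201) (.e (nat_lit 2856) (nat_lit 184) (.e (nat_lit 426537) (nat_lit 28) .nil))))) .nil))) (.nd (nat_lit 5) 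
(.lf (nat_lit 102098) (.g (nat_lit 4725) (.e (nat_lit 3307) (nat_lit 202) (.e (nat_lit 573471) (nat_lit 11) (.e (nat_lit 16470) (nat_lit 14) (.e (nat_lit 491537) (nat_lit 2) .nil)))) .nil)) 
(.lf (nat_lit 102130) (.g (nat_lit 2018) (.e (nat_lit 3307) (nat_lit 202) (.e (nat_lit 573485) (nat_lit 13) (.e (nat_lit 65604) (nat_lit 9) (.e (nat_lit 336013) (nat_lit 2) (.e (nat_lit 90165) (nat_lit 12) (.e (nat_lit 164237) (nat_lit 187) (.e (nat_lit 1517) (nat_lit 108) (.e (nat_lit 343808) (nat_lit 15) .nil)))))))) (.g (nat_lit 4) .nil .nil))))) (.nd (nat_lit 4) (.nd (nat_lit 5) 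
(.lf (nat_lit 102090) (.g (nat_lit 3692) (.e (nat_lit 3306) (nat_lit 202) (.e (nat_lit 573489) (nat_lit 14) (.e (nat_lit 73755) (nat_lit 8) (.e (nat_lit 557098) (nat_lit 13) (.e (nat_lit 172133) (nat_lit 15) .nil))))) .nil)) 
(.lf (nat_lit 102122) (.g (nat_lit 3763) (.e (nat_lit 3307) (nat_lit 202) (.e (nat_lit 573484) (nat_lit 13) (.e (nat_lit 65610) (nat_lit 10) (.e (nat_lit 344117) (nat_lit 21) (.e (nat_lit 516106) (nat_lit 0) (.e (nat_lit 7550) (nat_lit 402) (.e (nat_lit 1516) (nat_lit 108) (.e (nat_lit 343808) (nat_lit 15) .nil)))))))) (.g (nat_lit 5) .nil .nil)))) (.nd (nat_lit 5) 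
(.lf (nat_lit 102106) (.g (nat_lit 2315) (.e (nat_lit 3307) (nat_lit 202) (.e (nat_lit 573475) (nat_lit 12) (.e (nat_lit 57347) (nat_lit 0) (.e (nat_lit 7261) (nat_lit 384) (.e (nat_lit 57406) (nat_lit 12) .nil))))) .nil)) 
(.lf (nat_lit 102138) (.g (nat_lit 2107) (.e (nat_lit 3307) (nat_lit 202) (.e (nat_lit 573485) (nat_lit 13) (.e (nat_lit 65604) (nat_lit 9) (.e (nat_lit 336028) (nat_lit 3) (.e (nat_lit 98325) (nat_lit 17) (.e (nat_lit 7549) (nat_lit 402) (.e (nat_lit 1515) (nat_lit 108) (.e (nat_lit 336305) (nat_lit 15) .nil)))))))) (.g (nat_lit 4) .nil .nil)))))) 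
(.nd (nat_lit 3) (.nd (nat_lit 4) (.nd (nat_lit 5) 
(.lf (nat_lit 102086) (.g (nat_lit 2526) (.e (nat_lit 3306) (nat_lit 202) (.e (nat_lit 573482) (nat_lit 13) (.e (nat_lit 65604) (nat_lit 9) (.e (nat_lit 336013) (nat_lit 2) (.e (nat_lit 90170) (nat_lit 13) .nil))))) .nil)) 
(.lf (nat_lit 102118) (.g (nat_lit 3703) (.e (nat_lit 3307) (nat_lit 202) (.e (nat_lit 573484) (nat_lit 13) (.e (nat_lit 65569) (nat_lit 3) (.e (nat_lit 98325) (nat_lit 17) (.e (nat_lit 3579) (nat_lit 223) (.e (nat_lit 745486) (nat_lit 3) (.e (nat_lit 57464) (nat_lit 23) (.e (nat_lit 516151) (nat_lit 9) (.e (nat_lit 426042) (nat_lit 0) .nil))))))))) (.g (nat_lit 4) .nil .nil)))) (.nd (nat_lit 5) 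
(.lf (nat_lit 102102) (.g (nat_lit 3004) (.e (nat_lit 3307) (nat_lit 202) (.e (nat_lit 573474) (nat_lit 12) (.e (nat_lit 57572) (nat_lit 54) (.e (nat_lit 770076) (nat_lit 12) (.e (nat_lit 131094) (nat_lit 2) (.e (nat_lit 90178) (nat_lit 15) (.e (nat_lit 188440) (nat_lit 20) .nil))))))) (.g (nat_lit 4) .nil .nil))) 
(.lf (nat_lit 102134) (.g (nat_lit 3638) (.e (nat_lit 3307) (nat_lit 202) (.e (nat_lit 573485) (nat_lit 13) (.e (nat_lit 65604) (nat_lit 9) (.e (nat_lit 336013) (nat_lit 2) (.e (nat_lit 90165) (nat_lit 12) (.e (nat_lit 164239) (nat_lit 187) (.e (nat_lit 1425) (nat_lit 108) (.e (nat_lit 336306) (nat_lit 15) .nil)))))))) (.g (nat_lit 0) .nil .nil))))) (.nd (nat_lit 4) (.nd (nat_lit 5) 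
(.lf (nat_lit 102094) (.g (nat_lit 1451) (.e (nat_lit 3307) (nat_lit 202) (.e (nat_lit 573451) (nat_lit 9) (.e (nat_lit 1595) (nat_lit 111) (.e (nat_lit 360473) (nat_lit 8) .nil)))) .nil)) 
(.lf (nat_lit 102126) (.g (nat_lit 2195) (.e (nat_lit 3307) (nat_lit 202) (.e (nat_lit 573485) (nat_lit 13) (.e (nat_lit 65604) (nat_lit 9) (.e (nat_lit 336013) (nat_lit 2) (.e (nat_lit 90165) (nat_lit 12) (.e (nat_lit 164236) (nat_lit 187) (.e (nat_lit 1517) (nat_lit 108) (.e (nat_lit 343808) (nat_lit 15) .nil)))))))) (.g (nat_lit 4) .nil .nil)))) (.nd (nat_lit 5) 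
(.lf (nat_lit 102110) (.g (nat_lit 774) (.e (nat_lit 3307) (nat_lit 202) (.e (nat_lit 573475) (nat_lit 12) (.e (nat_lit 57569) (nat_lit 53) .nil))) .nil)) 
(.lf (nat_lit 102142) (.g (nat_lit 2978) (.e (nat_lit 3307) (nat_lit 202) (.e (nat_lit 573485) (nat_lit 13) (.e (nat_lit 65604) (nat_lit 9) (.e (nat_lit 336028) (nat_lit 3) (.e (nat_lit 98325) (nat_lit 17) (.e (nat_lit 7550) (nat_lit 402) (.e (nat_lit 1516) (nat_lit 108) (.e (nat_lit 343808) (nat_lit 15) .nil)))))))) (.g (nat_lit 7) .nil .nil)))))))) 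
(.nd (nat_lit 1) (.nd (nat_lit 2) (.nd (nat_lit 3) (.nd (nat_lit 4) (.nd (nat_lit 5) 
(.lf (nat_lit 102081) (.g (nat_lit 1598) (.e (nat_lit 3305) (nat_lit 202) (.e (nat_lit 573493) (nat_lit 15) (.e (nat_lit 81957) (nat_lit 24) (.e (nat_lit 130816) (nat_lit 140) .nil)))) .nil)) 
(.lf (nat_lit 102113) (.g (nat_lit 2246) (.e (nat_lit 3307) (nat_lit 202) (.e (nat_lit 573477) (nat_lit 12) (.e (nat_lit 65280) (nat_lit 57) (.e (nat_lit 794637) (nat_lit 11) (.e (nat_lit 336012) (nat_lit 2) (.e (nat_lit 90176) (nat_lit 15) (.e (nat_lit 188438) (nat_lit 20) .nil))))))) (.g (nat_lit 5) .nil .nil)))) (.nd (nat_lit 5) 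
(.lf (nat_lit 102097) (.g (nat_lit 2221) (.e (nat_lit 3307) (nat_lit 202) (.e (nat_lit 573471) (nat_lit 11) (.e (nat_lit 16388) (nat_lit 0) (.e (nat_lit 7545) (nat_lit 402) (.e (nat_lit 1238) (nat_lit 91) .nil))))) .nil)) 
(.lf (nat_lit 102129) (.g (nat_lit 3185) (.e (nat_lit 3307) (nat_lit 202) (.e (nat_lit 573485) (nat_lit 13) (.e (nat_lit 65604) (nat_lit 9) (.e (nat_lit 336013) (nat_lit 2) (.e (nat_lit 90165) (nat_lit 12) (.e (nat_lit 164237) (nat_lit 187) (.e (nat_lit 1516) (nat_lit 108) (.e (nat_lit 343808) (nat_lit 15) .nil)))))))) (.g (nat_lit 7) .nil .nil))))) (.nd (nat_lit 4) (.nd (nat_lit 5) 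
(.lf (nat_lit 102089) (.g (nat_lit 4121) (.e (nat_lit 3306) (nat_lit 202) (.e (nat_lit 573489) (nat_lit 14) (.e (nat_lit 73755) (nat_lit 8) (.e (nat_lit 557098) (nat_lit 13) (.e (nat_lit 172132) (nat_lit 15) .nil))))) .nil)) 
(.lf (nat_lit 102121) (.g (nat_lit 2710) (.e (nat_lit 3307) (nat_lit 202) (.e (nat_lit 573484) (nat_lit 13) (.e (nat_lit 65610) (nat_lit 10) (.e (nat_lit 344117) (nat_lit 21) (.e (nat_lit 516099) (nat_lit 0) (.e (nat_lit 7562) (nat_lit 402) (.e (nat_lit 1428) (nat_lit 108) (.e (nat_lit 336260) (nat_lit 15) .nil)))))))) (.g (nat_lit 4) .nil .nil)))) (.nd (nat_lit 5) 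
(.lf (nat_lit 102105) (.g (nat_lit 2474) (.e (nat_lit 3307) (nat_lit 202) (.e (nat_lit 573475) (nat_lit 12) (.e (nat_lit 57347) (nat_lit 0) (.e (nat_lit 7125) (nat_lit 382) (.e (nat_lit 1296) (nat_lit 96) .nil))))) .nil)) 
(.lf (nat_lit 102137) (.g (nat_lit 3946) (.e (nat_lit 3307) (nat_lit 202) (.e (nat_lit 573485) (nat_lit 13) (.e (nat_lit 65604) (nat_lit 9) (.e (nat_lit 336013) (nat_lit 2) (.e (nat_lit 90165) (nat_lit 12) (.e (nat_lit 164239) (nat_lit 187) (.e (nat_lit 1428) (nat_lit 108) (.e (nat_lit 336306) (nat_lit 15) .nil)))))))) (.g (nat_lit 0) .nil .nil)))))) 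
(.nd (nat_lit 3) (.nd (nat_lit 4) (.nd (nat_lit 5) 
(.lf (nat_lit 102085) (.g (nat_lit 3653) (.e (nat_lit 3306) (nat_lit 202) (.e (nat_lit 573471) (nat_lit 11) (.e (nat_lit 16425) (nat_lit 7) (.e (nat_lit 409617) (nat_lit 10) .nil)))) .nil)) 
(.lf (nat_lit 102117) (.g (nat_lit 2740) (.e (nat_lit 3307) (nat_lit 202) (.e (nat_lit 573484) (nat_lit 13) (.e (nat_lit 65569) (nat_lit 3) (.e (nat_lit 98317) (nat_lit 9) (.e (nat_lit 336288) (nat_lit 15) .nil))))) .nil))) (.nd (nat_lit 5) 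
(.lf (nat_lit 102101) (.g (nat_lit 1778) (.e (nat_lit 3307) (nat_lit 202) (.e (nat_lit 573474) (nat_lit 12) (.e (nat_lit 57572) (nat_lit 54) (.e (nat_lit 770072) (nat_lit 8) .nil)))) .nil)) 
(.lf (nat_lit 102133) (.g (nat_lit 4299) (.e (nat_lit 3307) (nat_lit 202) (.e (nat_lit 573485) (nat_lit 13) (.e (nat_lit 65604) (nat_lit 9) (.e (nat_lit 336013) (nat_lit 2) (.e (nat_lit 90165) (nat_lit 12) (.e (nat_lit 164238) (nat_lit 187) (.e (nat_lit 1428) (nat_lit 108) (.e (nat_lit 336306) (nat_lit 15) .nil)))))))) (.g (nat_lit 0) .nil .nil))))) (.nd (nat_lit 4) (.nd (nat_lit 5) 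
(.lf (nat_lit 102093) (.g (nat_lit 583) (.e (nat_lit 3307) (nat_lit 202) (.e (nat_lit 573450) (nat_lit 9) (.e (nat_lit 375) (nat_lit 32) .nil))) .nil)) 
(.lf (nat_lit 102125) (.g (nat_lit 3371) (.e (nat_lit 3307) (nat_lit 202) (.e (nat_lit 573485) (nat_lit 13) (.e (nat_lit 65604) (nat_lit 9) (.e (nat_lit 336013) (nat_lit 2) (.e (nat_lit 90165) (nat_lit 12) (.e (nat_lit 164236) (nat_lit 187) (.e (nat_lit 1516) (nat_lit 108) (.e (nat_lit 343808) (nat_lit 15) .nil)))))))) (.g (nat_lit 7) .nil .nil)))) (.nd (nat_lit 5) 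
(.lf (nat_lit 102109) (.g (nat_lit 3901) (.e (nat_lit 3307) (nat_lit 202) (.e (nat_lit 573475) (nat_lit 12) (.e (nat_lit 57351) (nat_lit 0) (.e (nat_lit 7265) (nat_lit 384) (.e (nat_lit 57406) (nat_lit 12) (.e (nat_lit 336016) (nat_lit 2) (.e (nat_lit 90178) (nat_lit 15) (.e (nat_lit 188440) (nat_lit 20) .nil)))))))) (.g (nat_lit 6) .nil .nil))) 
(.lf (nat_lit 102141) (.g (nat_lit 2033) (.e (nat_lit 3307) (nat_lit 202) (.e (nat_lit 573485) (nat_lit 13) (.e (nat_lit 65604) (nat_lit 9) (.e (nat_lit 336028) (nat_lit 3) (.e (nat_lit 98325) (nat_lit 17) (.e (nat_lit 7550) (nat_lit 402) (.e (nat_lit 1515) (nat_lit 108) (.e (nat_lit 343808) (nat_lit 15) .nil)))))))) (.g (nat_lit 4) .nil .nil))))))) 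
(.nd (nat_lit 2) (.nd (nat_lit 3) (.nd (nat_lit 4) (.nd (nat_lit 5) 
(.lf (nat_lit 102083) (.g (nat_lit 1951) (.e (nat_lit 3306) (nat_lit 202) (.e (nat_lit 573454) (nat_lit 9) (.e (nat_lit 1315) (nat_lit 98) (.e (nat_lit 147496) (nat_lit 11) (.e (nat_lit 24603) (nat_lit 2) .nil))))) .nil)) 
(.lf (nat_lit 102115) (.g (nat_lit 2897) (.e (nat_lit 3307) (nat_lit 202) (.e (nat_lit 573478) (nat_lit 12) (.e (nat_lit 57353) (nat_lit 0) (.e (nat_lit 7265) (nat_lit 384) (.e (nat_lit 57406) (nat_lit 12) (.e (nat_lit 336016) (nat_lit 2) (.e (nat_lit 90178) (nat_lit 15) (.e (nat_lit 188440) (nat_lit 20) .nil)))))))) (.g (nat_lit 5) .nil .nil)))) (.nd (nat_lit 5) 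
(.lf (nat_lit 102099) (.g (nat_lit 2508) (.e (nat_lit 3307) (nat_lit 202) (.e (nat_lit 573474) (nat_lit 12) (.e (nat_lit 57347) (nat_lit 0) (.e (nat_lit 7125) (nat_lit 382) .nil)))) .nil)) 
(.lf (nat_lit 102131) (.g (nat_lit 3924) (.e (nat_lit 3307) (nat_lit 202) (.e (nat_lit 573485) (nat_lit 13) (.e (nat_lit 65604) (nat_lit 9) (.e (nat_lit 336013) (nat_lit 2) (.e (nat_lit 90165) (nat_lit 12) (.e (nat_lit 164238) (nat_lit 187) (.e (nat_lit 1425) (nat_lit 108) (.e (nat_lit 336306) (nat_lit 15) .nil)))))))) (.g (nat_lit 0) .nil .nil))))) (.nd (nat_lit 4) (.nd (nat_lit 5) 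
(.lf (nat_lit 102091) (.g (nat_lit 3771) (.e (nat_lit 3306) (nat_lit 202) (.e (nat_lit 573489) (nat_lit 14) (.e (nat_lit 73755) (nat_lit 8) (.e (nat_lit 557098) (nat_lit 13) (.e (nat_lit 172133) (nat_lit 15) (.e (nat_lit 1800) (nat_lit 119) (.e (nat_lit 516120) (nat_lit 1) (.e (nat_lit 164329) (nat_lit 230) (.e (nat_lit 163850) (nat_lit 0) .nil))))))))) (.g (nat_lit 4) .nil .nil))) 
(.lf (nat_lit 102123) (.g (nat_lit 2352) (.e (nat_lit 3307) (nat_lit 202) (.e (nat_lit 573485) (nat_lit 13) (.e (nat_lit 65604) (nat_lit 9) (.e (nat_lit 336013) (nat_lit 2) (.e (nat_lit 90165) (nat_lit 12) (.e (nat_lit 164236) (nat_lit 187) (.e (nat_lit 1512) (nat_lit 108) (.e (nat_lit 343808) (nat_lit 15) .nil)))))))) (.g (nat_lit 4) .nil .nil)))) (.nd (nat_lit 5) 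
(.lf (nat_lit 102107) (.g (nat_lit 4694) (.e (nat_lit 3307) (nat_lit 202) (.e (nat_lit 573475) (nat_lit 12) (.e (nat_lit 57347) (nat_lit 0) (.e (nat_lit 7265) (nat_lit 384) (.e (nat_lit 57406) (nat_lit 12) (.e (nat_lit 336016) (nat_lit 2) (.e (nat_lit 90178) (nat_lit 15) (.e (nat_lit 188440) (nat_lit 20) .nil)))))))) (.g (nat_lit 6) .nil .nil))) 
(.lf (nat_lit 102139) (.g (nat_lit 2273) (.e (nat_lit 3307) (nat_lit 202) (.e (nat_lit 573485) (nat_lit 13) (.e (nat_lit 65604) (nat_lit 9) (.e (nat_lit 336028) (nat_lit 3) (.e (nat_lit 98325) (nat_lit 17) (.e (nat_lit 7549) (nat_lit 402) (.e (nat_lit 1516) (nat_lit 108) (.e (nat_lit 343808) (nat_lit 15) .nil)))))))) (.g (nat_lit 4) .nil .nil)))))) 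
(.nd (nat_lit 3) (.nd (nat_lit 4) (.nd (nat_lit 5) 
(.lf (nat_lit 102087) (.g (nat_lit 3065) (.e (nat_lit 3306) (nat_lit 202) (.e (nat_lit 573489) (nat_lit 14) (.e (nat_lit 73755) (nat_lit 8) (.e (nat_lit 557096) (nat_lit 13) (.e (nat_lit 172133) (nat_lit 15) .nil))))) .nil)) 
(.lf (nat_lit 102119) (.g (nat_lit 3816) (.e (nat_lit 3307) (nat_lit 202) (.e (nat_lit 573484) (nat_lit 13) (.e (nat_lit 65569) (nat_lit 3) (.e (nat_lit 98334) (nat_lit 18) (.e (nat_lit 164195) (nat_lit 158) (.e (nat_lit 1172) (nat_lit 87) (.e (nat_lit 57464) (nat_lit 23) (.e (nat_lit 516151) (nat_lit 9) (.e (nat_lit 426042) (nat_lit 0) .nil))))))))) (.g (nat_lit 4) .nil .nil)))) (.nd (nat_lit 5) 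
(.lf (nat_lit 102103) (.g (nat_lit 2140) (.e (nat_lit 3307) (nat_lit 202) (.e (nat_lit 573475) (nat_lit 12) (.e (nat_lit 57347) (nat_lit 0) (.e (nat_lit 7122) (nat_lit 382) .nil)))) .nil)) 
(.lf (nat_lit 102135) (.g (nat_lit 3873) (.e (nat_lit 3307) (nat_lit 202) (.e (nat_lit 573485) (nat_lit 13) (.e (nat_lit 65604) (nat_lit 9) (.e (nat_lit 336013) (nat_lit 2) (.e (nat_lit 90165) (nat_lit 12) (.e (nat_lit 164239) (nat_lit 187) (.e (nat_lit 1426) (nat_lit 108) (.e (nat_lit 336306) (nat_lit 15) .nil)))))))) (.g (nat_lit 0) .nil .nil))))) (.nd (nat_lit 4) (.nd (nat_lit 5) 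
(.lf (nat_lit 102095) (.g (nat_lit 2750) (.e (nat_lit 3307) (nat_lit 202) (.e (nat_lit 573454) (nat_lit 9) (.e (nat_lit 1315) (nat_lit 98) (.e (nat_lit 147495) (nat_lit 11) (.e (nat_lit 24603) (nat_lit 2) .nil))))) .nil)) 
(.lf (nat_lit 102127) (.g (nat_lit 2165) (.e (nat_lit 3307) (nat_lit 202) (.e (nat_lit 573485) (nat_lit 13) (.e (nat_lit 65604) (nat_lit 9) (.e (nat_lit 336013) (nat_lit 2) (.e (nat_lit 90165) (nat_lit 12) (.e (nat_lit 164237) (nat_lit 187) (.e (nat_lit 1512) (nat_lit 108) (.e (nat_lit 343808) (nat_lit 15) .nil)))))))) (.g (nat_lit 4) .nil .nil)))) (.nd (nat_lit 5) 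
(.lf (nat_lit 102111) (.g (nat_lit 890) (.e (nat_lit 3307) (nat_lit 202) (.e (nat_lit 573475) (nat_lit 12) (.e (nat_lit 57570) (nat_lit 54) .nil))) .nil)) 
(.lf (nat_lit 102143) (.g (nat_lit 3432) (.e (nat_lit 3307) (nat_lit 202) (.e (nat_lit 573485) (nat_lit 13) (.e (nat_lit 65604) (nat_lit 9) (.e (nat_lit 336028) (nat_lit 3) (.e (nat_lit 98325) (nat_lit 17) (.e (nat_lit 7556) (nat_lit 402) (.e (nat_lit 1425) (nat_lit 108) (.e (nat_lit 336306) (nat_lit 15) .nil)))))))) (.g (nat_lit 0) .nil .nil)))))))))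

noncomputable def tv1391 : DT := (.nd (nat_lit 0) (.nd (nat_lit 1) (.nd (nat_lit 2) (.nd (nat_lit 3) (.nd (nat_lit 4) (.nd (nat_lit 5) 
(.lf (nat_lit 102144) (.g (nat_lit 3549) (.e (nat_lit 3307) (nat_lit 202) (.e (nat_lit 573485) (nat_lit 13) (.e (nat_lit 65604) (nat_lit 9) (.e (nat_lit 336028) (nat_lit 3) (.e (nat_lit 98325) (nat_lit 17) (.e (nat_lit 7556) (nat_lit 402) (.e (nat_lit 1426) (nat_lit 108) (.e (nat_lit 336306) (nat_lit 15) .nil)))))))) (.g (nat_lit 0) .nil .nil))) 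
(.lf (nat_lit 102176) (.g (nat_lit 3244) (.e (nat_lit 3307) (nat_lit 202) (.e (nat_lit 573485) (nat_lit 13) (.e (nat_lit 65619) (nat_lit 10) (.e (nat_lit 344126) (nat_lit 25) (.e (nat_lit 548874) (nat_lit 5) (.e (nat_lit 1575) (nat_lit 110) (.e (nat_lit 360192) (nat_lit 0) .nil))))))) (.g (nat_lit 6) .nil .nil)))) (.nd (nat_lit 5) 
(.lf (nat_lit 102160) (.g (nat_lit 2574) (.e (nat_lit 3307) (nat_lit 202) (.e (nat_lit 573485) (nat_lit 13) (.e (nat_lit 65619) (nat_lit 10) (.e (nat_lit 344117) (nat_lit 21) (.e (nat_lit 516106) (nat_lit 0) (.e (nat_lit 7556) (nat_lit 402) (.e (nat_lit 1427) (nat_lit 108) (.e (nat_lit 336260) (nat_lit 15) .nil)))))))) (.g (nat_lit 4) .nil .nil))) 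
(.lf (nat_lit 102192) (.g (nat_lit 3298) (.e (nat_lit 3307) (nat_lit 202) (.e (nat_lit 573485) (nat_lit 13) (.e (nat_lit 65619) (nat_lit 10) (.e (nat_lit 344129) (nat_lit 26) (.e (nat_lit 557074) (nat_lit 9) (.e (nat_lit 250) (nat_lit 21) (.e (nat_lit 336086) (nat_lit 9) (.e (nat_lit 336306) (nat_lit 15) .nil)))))))) (.g (nat_lit 5) .nil .nil))))) (.nd (nat_lit 4) (.nd (nat_lit 5) 
(.lf (nat_lit 102152) (.g (nat_lit 3329) (.e (nat_lit 3307) (nat_lit 202) (.e (nat_lit 573485) (nat_lit 13) (.e (nat_lit 65619) (nat_lit 10) (.e (nat_lit 344117) (nat_lit 21) (.e (nat_lit 516097) (nat_lit 0) (.e (nat_lit 7562) (nat_lit 402) (.e (nat_lit 1427) (nat_lit 108) (.e (nat_lit 336306) (nat_lit 15) .nil)))))))) (.g (nat_lit 5) .nil .nil))) 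
(.lf (nat_lit 102184) (.g (nat_lit 4032) (.e (nat_lit 3307) (nat_lit 202) (.e (nat_lit 573485) (nat_lit 13) (.e (nat_lit 65619) (nat_lit 10) (.e (nat_lit 344129) (nat_lit 26) (.e (nat_lit 557066) (nat_lit 9) (.e (nat_lit 232) (nat_lit 21) (.e (nat_lit 336089) (nat_lit 9) (.e (nat_lit 336303) (nat_lit 15) .nil)))))))) (.g (nat_lit 6) .nil .nil)))) (.nd (nat_lit 5) 
(.lf (nat_lit 102168) (.g (nat_lit 2702) (.e (nat_lit 3307) (nat_lit 202) (.e (nat_lit 573485) (nat_lit 13) (.e (nat_lit 65619) (nat_lit 10) (.e (nat_lit 344126) (nat_lit 25) (.e (nat_lit 548873) (nat_lit 5) (.e (nat_lit 1569) (nat_lit 110) (.e (nat_lit 360192) (nat_lit 0) .nil))))))) (.g (nat_lit 6) .nil .nil))) 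
(.lf (nat_lit 102200) (.g (nat_lit 1047) (.e (nat_lit 3307) (nat_lit 202) (.e (nat_lit 573489) (nat_lit 14) (.e (nat_lit 73748) (nat_lit 3) (.e (nat_lit 524032) (nat_lit 32) .nil)))) .nil))))) (.nd (nat_lit 3) (.nd (nat_lit 4) (.nd (nat_lit 5) 
(.lf (nat_lit 102148) (.g (nat_lit 2084) (.e (nat_lit 3307) (nat_lit 202) (.e (nat_lit 573485) (nat_lit 13) (.e (nat_lit 65619) (nat_lit 10) (.e (nat_lit 344117) (nat_lit 21) (.e (nat_lit 516097) (nat_lit 0) (.e (nat_lit 7511) (nat_lit 402) (.e (nat_lit 1428) (nat_lit 108) (.e (nat_lit 336306) (nat_lit 15) .nil)))))))) (.g (nat_lit 4) .nil .nil))) 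
(.lf (nat_lit 102180) (.g (nat_lit 2159) (.e (nat_lit 3307) (nat_lit 202) (.e (nat_lit 573485) (nat_lit 13) (.e (nat_lit 65619) (nat_lit 10) (.e (nat_lit 344129) (nat_lit 26) (.e (nat_lit 557065) (nat_lit 9) (.e (nat_lit 249) (nat_lit 21) (.e (nat_lit 336086) (nat_lit 9) (.e (nat_lit 336306) (nat_lit 15) .nil)))))))) (.g (nat_lit 4) .nil .nil)))) (.nd (nat_lit 5) 
(.lf (nat_lit 102164) (.g (nat_lit 2830) (.e (nat_lit 3307) (nat_lit 202) (.e (nat_lit 573485) (nat_lit 13) (.e (nat_lit 65619) (nat_lit 10) (.e (nat_lit 344126) (nat_lit 25) (.e (nat_lit 548872) (nat_lit 5) (.e (nat_lit 1575) (nat_lit 110) (.e (nat_lit 360192) (nat_lit 0) .nil))))))) (.g (nat_lit 6) .nil .nil))) 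
(.lf (nat_lit 102196) (.g (nat_lit 4826) (.e (nat_lit 3307) (nat_lit 202) (.e (nat_lit 573485) (nat_lit 13) (.e (nat_lit 65619) (nat_lit 10) (.e (nat_lit 344129) (nat_lit 26) (.e (nat_lit 557074) (nat_lit 9) (.e (nat_lit 284) (nat_lit 21) (.e (nat_lit 336078) (nat_lit 9) (.e (nat_lit 336306) (nat_lit 15) .nil)))))))) (.g (nat_lit 7) .nil .nil))))) (.nd (nat_lit 4) (.nd (nat_lit 5) 
(.lf (nat_lit 102156) (.g (nat_lit 3108) (.e (nat_lit 3307) (nat_lit 202) (.e (nat_lit 573485) (nat_lit 13) (.e (nat_lit 65619) (nat_lit 10) (.e (nat_lit 344117) (nat_lit 21) (.e (nat_lit 516106) (nat_lit 0) (.e (nat_lit 7550) (nat_lit 402) (.e (nat_lit 1516) (nat_lit 108) (.e (nat_lit 343808) (nat_lit 15) .nil)))))))) (.g (nat_lit 7) .nil .nil))) 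
(.lf (nat_lit 102188) (.g (nat_lit 3100) (.e (nat_lit 3307) (nat_lit 202) (.e (nat_lit 573485) (nat_lit 13) (.e (nat_lit 65619) (nat_lit 10) (.e (nat_lit 344129) (nat_lit 26) (.e (nat_lit 557066) (nat_lit 9) (.e (nat_lit 309) (nat_lit 23) (.e (nat_lit 360192) (nat_lit 0) .nil))))))) (.g (nat_lit 6) .nil .nil)))) (.nd (nat_lit 5) 
(.lf (nat_lit 102172) (.g (nat_lit 3186) (.e (nat_lit 3307) (nat_lit 202) (.e (nat_lit 573485) (nat_lit 13) (.e (nat_lit 65619) (nat_lit 10) (.e (nat_lit 344126) (nat_lit 25) (.e (nat_lit 548874) (nat_lit 5) (.e (nat_lit 1559) (nat_lit 110) (.e (nat_lit 360192) (nat_lit 0) .nil))))))) (.g (nat_lit 6) .nil .nil))) 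
(.lf (nat_lit 102204) (.g (nat_lit 3012) (.e (nat_lit 3307) (nat_lit 202) (.e (nat_lit 573489) (nat_lit 14) (.e (nat_lit 73754) (nat_lit 8) (.e (nat_lit 557100) (nat_lit 13) (.e (nat_lit 172138) (nat_lit 15) (.e (nat_lit 1800) (nat_lit 119) (.e (nat_lit 516120) (nat_lit 1) (.e (nat_lit 164330) (nat_lit 230) (.e (nat_lit 163840) (nat_lit 0) .nil))))))))) (.g (nat_lit 4) .nil .nil))))))) 
(.nd (nat_lit 2) (.nd (nat_lit 3) (.nd (nat_lit 4) (.nd (nat_lit 5) 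
(.lf (nat_lit 102146) (.g (nat_lit 3784) (.e (nat_lit 3307) (nat_lit 202) (.e (nat_lit 573485) (nat_lit 13) (.e (nat_lit 65604) (nat_lit 9) (.e (nat_lit 336028) (nat_lit 3) (.e (nat_lit 98325) (nat_lit 17) (.e (nat_lit 7556) (nat_lit 402) (.e (nat_lit 1428) (nat_lit 108) (.e (nat_lit 336306) (nat_lit 15) .nil)))))))) (.g (nat_lit 0) .nil .nil))) 
(.lf (nat_lit 102178) (.g (nat_lit 2168) (.e (nat_lit 3307) (nat_lit 202) (.e (nat_lit 573485) (nat_lit 13) (.e (nat_lit 65619) (nat_lit 10) (.e (nat_lit 344129) (nat_lit 26) (.e (nat_lit 557065) (nat_lit 9) (.e (nat_lit 249) (nat_lit 21) (.e (nat_lit 336078) (nat_lit 9) (.e (nat_lit 336306) (nat_lit 15) .nil)))))))) (.g (nat_lit 4) .nil .nil)))) (.nd (nat_lit 5) 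
(.lf (nat_lit 102162) (.g (nat_lit 4552) (.e (nat_lit 3307) (nat_lit 202) (.e (nat_lit 573485) (nat_lit 13) (.e (nat_lit 65619) (nat_lit 10) (.e (nat_lit 344117) (nat_lit 21) (.e (nat_lit 516106) (nat_lit 0) (.e (nat_lit 7556) (nat_lit 402) (.e (nat_lit 1428) (nat_lit 108) (.e (nat_lit 336306) (nat_lit 15) .nil)))))))) (.g (nat_lit 0) .nil .nil))) 
(.lf (nat_lit 102194) (.g (nat_lit 3338) (.e (nat_lit 3307) (nat_lit 202) (.e (nat_lit 573485) (nat_lit 13) (.e (nat_lit 65619) (nat_lit 10) (.e (nat_lit 344129) (nat_lit 26) (.e (nat_lit 557074) (nat_lit 9) (.e (nat_lit 278) (nat_lit 21) (.e (nat_lit 336154) (nat_lit 9) (.e (nat_lit 336305) (nat_lit 15) .nil)))))))) (.g (nat_lit 5) .nil .nil))))) (.nd (nat_lit 4) (.nd (nat_lit 5) 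
(.lf (nat_lit 102154) (.g (nat_lit 2036) (.e (nat_lit 3307) (nat_lit 202) (.e (nat_lit 573485) (nat_lit 13) (.e (nat_lit 65619) (nat_lit 10) (.e (nat_lit 344117) (nat_lit 21) (.e (nat_lit 516106) (nat_lit 0) (.e (nat_lit 7550) (nat_lit 402) (.e (nat_lit 1512) (nat_lit 108) (.e (nat_lit 343808) (nat_lit 15) .nil)))))))) (.g (nat_lit 4) .nil .nil))) 
(.lf (nat_lit 102186) (.g (nat_lit 2038) (.e (nat_lit 3307) (nat_lit 202) (.e (nat_lit 573485) (nat_lit 13) (.e (nat_lit 65619) (nat_lit 10) (.e (nat_lit 344129) (nat_lit 26) (.e (nat_lit 557066) (nat_lit 9) (.e (nat_lit 245) (nat_lit 21) (.e (nat_lit 336084) (nat_lit 9) (.e (nat_lit 336306) (nat_lit 15) .nil)))))))) (.g (nat_lit 4) .nil .nil)))) (.nd (nat_lit 5) 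
(.lf (nat_lit 102170) (.g (nat_lit 2723) (.e (nat_lit 3307) (nat_lit 202) (.e (nat_lit 573485) (nat_lit 13) (.e (nat_lit 65619) (nat_lit 10) (.e (nat_lit 344126) (nat_lit 25) (.e (nat_lit 548873) (nat_lit 5) (.e (nat_lit 1575) (nat_lit 110) (.e (nat_lit 360192) (nat_lit 0) .nil))))))) (.g (nat_lit 6) .nil .nil))) 
(.lf (nat_lit 102202) (.g (nat_lit 1734) (.e (nat_lit 3307) (nat_lit 202) (.e (nat_lit 573489) (nat_lit 14) (.e (nat_lit 73754) (nat_lit 8) (.e (nat_lit 557060) (nat_lit 0) .nil)))) .nil))))) (.nd (nat_lit 3) (.nd (nat_lit 4) (.nd (nat_lit 5) 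
(.lf (nat_lit 102150) (.g (nat_lit 2385) (.e (nat_lit 3307) (nat_lit 202) (.e (nat_lit 573485) (nat_lit 13) (.e (nat_lit 65619) (nat_lit 10) (.e (nat_lit 344117) (nat_lit 21) (.e (nat_lit 516097) (nat_lit 0) (.e (nat_lit 7516) (nat_lit 402) (.e (nat_lit 1427) (nat_lit 108) (.e (nat_lit 336306) (nat_lit 15) .nil)))))))) (.g (nat_lit 4) .nil .nil))) 
(.lf (nat_lit 102182) (.g (nat_lit 2846) (.e (nat_lit 3307) (nat_lit 202) (.e (nat_lit 573485) (nat_lit 13) (.e (nat_lit 65619) (nat_lit 10) (.e (nat_lit 344129) (nat_lit 26) (.e (nat_lit 557065) (nat_lit 9) (.e (nat_lit 309) (nat_lit 23) (.e (nat_lit 360192) (nat_lit 0) .nil))))))) (.g (nat_lit 5) .nil .nil)))) (.nd (nat_lit 5) 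
(.lf (nat_lit 102166) (.g (nat_lit 2642) (.e (nat_lit 3307) (nat_lit 202) (.e (nat_lit 573485) (nat_lit 13) (.e (nat_lit 65619) (nat_lit 10) (.e (nat_lit 344126) (nat_lit 25) (.e (nat_lit 548873) (nat_lit 5) (.e (nat_lit 1559) (nat_lit 110) (.e (nat_lit 360192) (nat_lit 0) .nil))))))) (.g (nat_lit 6) .nil .nil))) 
(.lf (nat_lit 102198) (.g (nat_lit 2571) (.e (nat_lit 3307) (nat_lit 202) (.e (nat_lit 573485) (nat_lit 13) (.e (nat_lit 65619) (nat_lit 10) (.e (nat_lit 344129) (nat_lit 26) (.e (nat_lit 557074) (nat_lit 9) (.e (nat_lit 7936) (nat_lit 23) (.e (nat_lit 360192) (nat_lit 0) .nil))))))) (.g (nat_lit 5) .nil .nil))))) (.nd (nat_lit 4) (.nd (nat_lit 5) 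
(.lf (nat_lit 102158) (.g (nat_lit 3504) (.e (nat_lit 3307) (nat_lit 202) (.e (nat_lit 573485) (nat_lit 13) (.e (nat_lit 65619) (nat_lit 10) (.e (nat_lit 344117) (nat_lit 21) (.e (nat_lit 516106) (nat_lit 0) (.e (nat_lit 7554) (nat_lit 402) (.e (nat_lit 1427) (nat_lit 108) (.e (nat_lit 336306) (nat_lit 15) .nil)))))))) (.g (nat_lit 5) .nil .nil))) 
(.lf (nat_lit 102190) (.g (nat_lit 3222) (.e (nat_lit 3307) (nat_lit 202) (.e (nat_lit 573485) (nat_lit 13) (.e (nat_lit 65619) (nat_lit 10) (.e (nat_lit 344129) (nat_lit 26) (.e (nat_lit 557066) (nat_lit 9) (.e (nat_lit 312) (nat_lit 23) (.e (nat_lit 360192) (nat_lit 0) .nil))))))) (.g (nat_lit 6) .nil .nil)))) (.nd (nat_lit 5) 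
(.lf (nat_lit 102174) (.g (nat_lit 3100) (.e (nat_lit 3307) (nat_lit 202) (.e (nat_lit 573485) (nat_lit 13) (.e (nat_lit 65619) (nat_lit 10) (.e (nat_lit 344126) (nat_lit 25) (.e (nat_lit 548874) (nat_lit 5) (.e (nat_lit 1569) (nat_lit 110) (.e (nat_lit 360192) (nat_lit 0) .nil))))))) (.g (nat_lit 6) .nil .nil))) 
(.lf (nat_lit 102206) (.g (nat_lit 3277) (.e (nat_lit 3307) (nat_lit 202) (.e (nat_lit 573489) (nat_lit 14) (.e (nat_lit 73754) (nat_lit 8) (.e (nat_lit 557100) (nat_lit 13) (.e (nat_lit 172138) (nat_lit 15) (.e (nat_lit 1800) (nat_lit 119) (.e (nat_lit 516120) (nat_lit 1) (.e (nat_lit 164330) (nat_lit 230) (.e (nat_lit 163853) (nat_lit 0) .nil))))))))) (.g (nat_lit 4) .nil .nil)))))))) 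
(.nd (nat_lit 1) (.nd (nat_lit 2) (.nd (nat_lit 3) (.nd (nat_lit 4) (.nd (nat_lit 5) 
(.lf (nat_lit 102145) (.g (nat_lit 4041) (.e (nat_lit 3307) (nat_lit 202) (.e (nat_lit 573485) (nat_lit 13) (.e (nat_lit 65604) (nat_lit 9) (.e (nat_lit 336028) (nat_lit 3) (.e (nat_lit 98325) (nat_lit 17) (.e (nat_lit 7556) (nat_lit 402) (.e (nat_lit 1427) (nat_lit 108) (.e (nat_lit 336306) (nat_lit 15) .nil)))))))) (.g (nat_lit 0) .nil .nil))) 
(.lf (nat_lit 102177) (.g (nat_lit 3346) (.e (nat_lit 3307) (nat_lit 202) (.e (nat_lit 573485) (nat_lit 13) (.e (nat_lit 65619) (nat_lit 10) (.e (nat_lit 344126) (nat_lit 25) (.e (nat_lit 548874) (nat_lit 5) (.e (nat_lit 1576) (nat_lit 110) (.e (nat_lit 360192) (nat_lit 0) .nil))))))) (.g (nat_lit 6) .nil .nil)))) (.nd (nat_lit 5) 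
(.lf (nat_lit 102161) (.g (nat_lit 4832) (.e (nat_lit 3307) (nat_lit 202) (.e (nat_lit 573485) (nat_lit 13) (.e (nat_lit 65619) (nat_lit 10) (.e (nat_lit 344117) (nat_lit 21) (.e (nat_lit 516106) (nat_lit 0) (.e (nat_lit 7556) (nat_lit 402) (.e (nat_lit 1427) (nat_lit 108) (.e (nat_lit 336306) (nat_lit 15) .nil)))))))) (.g (nat_lit 0) .nil .nil))) 
(.lf (nat_lit 102193) (.g (nat_lit 2401) (.e (nat_lit 3307) (nat_lit 202) (.e (nat_lit 573485) (nat_lit 13) (.e (nat_lit 65619) (nat_lit 10) (.e (nat_lit 344129) (nat_lit 26) (.e (nat_lit 557074) (nat_lit 9) (.e (nat_lit 278) (nat_lit 21) (.e (nat_lit 336153) (nat_lit 9) (.e (nat_lit 336305) (nat_lit 15) .nil)))))))) (.g (nat_lit 4) .nil .nil))))) (.nd (nat_lit 4) (.nd (nat_lit 5) 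
(.lf (nat_lit 102153) (.g (nat_lit 2900) (.e (nat_lit 3307) (nat_lit 202) (.e (nat_lit 573485) (nat_lit 13) (.e (nat_lit 65619) (nat_lit 10) (.e (nat_lit 344117) (nat_lit 21) (.e (nat_lit 516097) (nat_lit 0) (.e (nat_lit 7562) (nat_lit 402) (.e (nat_lit 1428) (nat_lit 108) (.e (nat_lit 336306) (nat_lit 15) .nil)))))))) (.g (nat_lit 5) .nil .nil))) 
(.lf (nat_lit 102185) (.g (nat_lit 3882) (.e (nat_lit 3307) (nat_lit 202) (.e (nat_lit 573485) (nat_lit 13) (.e (nat_lit 65619) (nat_lit 10) (.e (nat_lit 344129) (nat_lit 26) (.e (nat_lit 557066) (nat_lit 9) (.e (nat_lit 232) (nat_lit 21) (.e (nat_lit 336089) (nat_lit 9) (.e (nat_lit 336306) (nat_lit 15) .nil)))))))) (.g (nat_lit 6) .nil .nil)))) (.nd (nat_lit 5) 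
(.lf (nat_lit 102169) (.g (nat_lit 2929) (.e (nat_lit 3307) (nat_lit 202) (.e (nat_lit 573485) (nat_lit 13) (.e (nat_lit 65619) (nat_lit 10) (.e (nat_lit 344126) (nat_lit 25) (.e (nat_lit 548873) (nat_lit 5) (.e (nat_lit 1572) (nat_lit 110) (.e (nat_lit 360192) (nat_lit 0) .nil))))))) (.g (nat_lit 6) .nil .nil))) 
(.lf (nat_lit 102201) (.g (nat_lit 760) (.e (nat_lit 3307) (nat_lit 202) (.e (nat_lit 573489) (nat_lit 14) (.e (nat_lit 73752) (nat_lit 8) .nil))) .nil))))) (.nd (nat_lit 3) (.nd (nat_lit 4) (.nd (nat_lit 5) 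
(.lf (nat_lit 102149) (.g (nat_lit 2359) (.e (nat_lit 3307) (nat_lit 202) (.e (nat_lit 573485) (nat_lit 13) (.e (nat_lit 65619) (nat_lit 10) (.e (nat_lit 344117) (nat_lit 21) (.e (nat_lit 516097) (nat_lit 0) (.e (nat_lit 7513) (nat_lit 402) (.e (nat_lit 1427) (nat_lit 108) (.e (nat_lit 336306) (nat_lit 15) .nil)))))))) (.g (nat_lit 4) .nil .nil))) 
(.lf (nat_lit 102181) (.g (nat_lit 3433) (.e (nat_lit 3307) (nat_lit 202) (.e (nat_lit 573485) (nat_lit 13) (.e (nat_lit 65619) (nat_lit 10) (.e (nat_lit 344129) (nat_lit 26) (.e (nat_lit 557065) (nat_lit 9) (.e (nat_lit 290) (nat_lit 21) (.e (nat_lit 336086) (nat_lit 9) (.e (nat_lit 336306) (nat_lit 15) .nil)))))))) (.g (nat_lit 5) .nil .nil)))) (.nd (nat_lit 5) 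
(.lf (nat_lit 102165) (.g (nat_lit 2441) (.e (nat_lit 3307) (nat_lit 202) (.e (nat_lit 573485) (nat_lit 13) (.e (nat_lit 65619) (nat_lit 10) (.e (nat_lit 344126) (nat_lit 25) (.e (nat_lit 548872) (nat_lit 5) (.e (nat_lit 1576) (nat_lit 110) (.e (nat_lit 360192) (nat_lit 0) .nil))))))) (.g (nat_lit 5) .nil .nil))) 
(.lf (nat_lit 102197) (.g (nat_lit 2888) (.e (nat_lit 3307) (nat_lit 202) (.e (nat_lit 573485) (nat_lit 13) (.e (nat_lit 65619) (nat_lit 10) (.e (nat_lit 344129) (nat_lit 26) (.e (nat_lit 557074) (nat_lit 9) (.e (nat_lit 284) (nat_lit 21) (.e (nat_lit 336087) (nat_lit 9) (.e (nat_lit 336306) (nat_lit 15) .nil)))))))) (.g (nat_lit 5) .nil .nil))))) (.nd (nat_lit 4) (.nd (nat_lit 5) 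
(.lf (nat_lit 102157) (.g (nat_lit 1946) (.e (nat_lit 3307) (nat_lit 202) (.e (nat_lit 573485) (nat_lit 13) (.e (nat_lit 65619) (nat_lit 10) (.e (nat_lit 344117) (nat_lit 21) (.e (nat_lit 516106) (nat_lit 0) (.e (nat_lit 7550) (nat_lit 402) (.e (nat_lit 1517) (nat_lit 108) (.e (nat_lit 343808) (nat_lit 15) .nil)))))))) (.g (nat_lit 4) .nil .nil))) 
(.lf (nat_lit 102189) (.g (nat_lit 3368) (.e (nat_lit 3307) (nat_lit 202) (.e (nat_lit 573485) (nat_lit 13) (.e (nat_lit 65619) (nat_lit 10) (.e (nat_lit 344129) (nat_lit 26) (.e (nat_lit 557066) (nat_lit 9) (.e (nat_lit 310) (nat_lit 23) (.e (nat_lit 360192) (nat_lit 0) .nil))))))) (.g (nat_lit 6) .nil .nil)))) (.nd (nat_lit 5) 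
(.lf (nat_lit 102173) (.g (nat_lit 2753) (.e (nat_lit 3307) (nat_lit 202) (.e (nat_lit 573485) (nat_lit 13) (.e (nat_lit 65619) (nat_lit 10) (.e (nat_lit 344126) (nat_lit 25) (.e (nat_lit 548874) (nat_lit 5) (.e (nat_lit 1562) (nat_lit 110) (.e (nat_lit 360192) (nat_lit 0) .nil))))))) (.g (nat_lit 5) .nil .nil))) 
(.lf (nat_lit 102205) (.g (nat_lit 3201) (.e (nat_lit 3307) (nat_lit 202) (.e (nat_lit 573489) (nat_lit 14) (.e (nat_lit 73754) (nat_lit 8) (.e (nat_lit 557100) (nat_lit 13) (.e (nat_lit 172138) (nat_lit 15) (.e (nat_lit 1800) (nat_lit 119) (.e (nat_lit 516120) (nat_lit 1) (.e (nat_lit 164330) (nat_lit 230) (.e (nat_lit 163851) (nat_lit 0) .nil))))))))) (.g (nat_lit 4) .nil .nil))))))) 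
(.nd (nat_lit 2) (.nd (nat_lit 3) (.nd (nat_lit 4) (.nd (nat_lit 5) 
(.lf (nat_lit 102147) (.g (nat_lit 2377) (.e (nat_lit 3307) (nat_lit 202) (.e (nat_lit 573485) (nat_lit 13) (.e (nat_lit 65619) (nat_lit 10) (.e (nat_lit 344117) (nat_lit 21) (.e (nat_lit 516097) (nat_lit 0) (.e (nat_lit 7511) (nat_lit 402) (.e (nat_lit 1427) (nat_lit 108) (.e (nat_lit 336306) (nat_lit 15) .nil)))))))) (.g (nat_lit 4) .nil .nil))) 
(.lf (nat_lit 102179) (.g (nat_lit 2130) (.e (nat_lit 3307) (nat_lit 202) (.e (nat_lit 573485) (nat_lit 13) (.e (nat_lit 65619) (nat_lit 10) (.e (nat_lit 344129) (nat_lit 26) (.e (nat_lit 557065) (nat_lit 9) (.e (nat_lit 249) (nat_lit 21) (.e (nat_lit 336085) (nat_lit 9) (.e (nat_lit 336306) (nat_lit 15) .nil)))))))) (.g (nat_lit 4) .nil .nil)))) (.nd (nat_lit 5) 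
(.lf (nat_lit 102163) (.g (nat_lit 2606) (.e (nat_lit 3307) (nat_lit 202) (.e (nat_lit 573485) (nat_lit 13) (.e (nat_lit 65619) (nat_lit 10) (.e (nat_lit 344126) (nat_lit 25) (.e (nat_lit 548872) (nat_lit 5) (.e (nat_lit 1569) (nat_lit 110) (.e (nat_lit 360192) (nat_lit 0) .nil))))))) (.g (nat_lit 5) .nil .nil))) 
(.lf (nat_lit 102195) (.g (nat_lit 2880) (.e (nat_lit 3307) (nat_lit 202) (.e (nat_lit 573485) (nat_lit 13) (.e (nat_lit 65619) (nat_lit 10) (.e (nat_lit 344129) (nat_lit 26) (.e (nat_lit 557074) (nat_lit 9) (.e (nat_lit 284) (nat_lit 21) (.e (nat_lit 336074) (nat_lit 9) (.e (nat_lit 336306) (nat_lit 15) .nil)))))))) (.g (nat_lit 5) .nil .nil))))) (.nd (nat_lit 4) (.nd (nat_lit 5) 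
(.lf (nat_lit 102155) (.g (nat_lit 2141) (.e (nat_lit 3307) (nat_lit 202) (.e (nat_lit 573485) (nat_lit 13) (.e (nat_lit 65619) (nat_lit 10) (.e (nat_lit 344117) (nat_lit 21) (.e (nat_lit 516106) (nat_lit 0) (.e (nat_lit 7550) (nat_lit 402) (.e (nat_lit 1515) (nat_lit 108) (.e (nat_lit 343808) (nat_lit 15) .nil)))))))) (.g (nat_lit 4) .nil .nil))) 
(.lf (nat_lit 102187) (.g (nat_lit 2930) (.e (nat_lit 3307) (nat_lit 202) (.e (nat_lit 573485) (nat_lit 13) (.e (nat_lit 65619) (nat_lit 10) (.e (nat_lit 344129) (nat_lit 26) (.e (nat_lit 557066) (nat_lit 9) (.e (nat_lit 245) (nat_lit 21) (.e (nat_lit 336085) (nat_lit 9) (.e (nat_lit 336306) (nat_lit 15) .nil)))))))) (.g (nat_lit 5) .nil .nil)))) (.nd (nat_lit 5) 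
(.lf (nat_lit 102171) (.g (nat_lit 2737) (.e (nat_lit 3307) (nat_lit 202) (.e (nat_lit 573485) (nat_lit 13) (.e (nat_lit 65619) (nat_lit 10) (.e (nat_lit 344126) (nat_lit 25) (.e (nat_lit 548873) (nat_lit 5) (.e (nat_lit 1576) (nat_lit 110) (.e (nat_lit 360192) (nat_lit 0) .nil))))))) (.g (nat_lit 6) .nil .nil))) 
(.lf (nat_lit 102203) (.g (nat_lit 3315) (.e (nat_lit 3307) (nat_lit 202) (.e (nat_lit 573489) (nat_lit 14) (.e (nat_lit 73754) (nat_lit 8) (.e (nat_lit 557100) (nat_lit 13) (.e (nat_lit 172138) (nat_lit 15) (.e (nat_lit 1800) (nat_lit 119) (.e (nat_lit 516115) (nat_lit 1) (.e (nat_lit 164325) (nat_lit 230) (.e (nat_lit 163851) (nat_lit 0) .nil))))))))) (.g (nat_lit 4) .nil .nil)))))) 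
(.nd (nat_lit 3) (.nd (nat_lit 4) (.nd (nat_lit 5) 
(.lf (nat_lit 102151) (.g (nat_lit 2952) (.e (nat_lit 3307) (nat_lit 202) (.e (nat_lit 573485) (nat_lit 13) (.e (nat_lit 65619) (nat_lit 10) (.e (nat_lit 344117) (nat_lit 21) (.e (nat_lit 516097) (nat_lit 0) (.e (nat_lit 7540) (nat_lit 402) (.e (nat_lit 1425) (nat_lit 108) (.e (nat_lit 336306) (nat_lit 15) .nil)))))))) (.g (nat_lit 5) .nil .nil))) 
(.lf (nat_lit 102183) (.g (nat_lit 2253) (.e (nat_lit 3307) (nat_lit 202) (.e (nat_lit 573485) (nat_lit 13) (.e (nat_lit 65619) (nat_lit 10) (.e (nat_lit 344129) (nat_lit 26) (.e (nat_lit 557065) (nat_lit 9) (.e (nat_lit 7936) (nat_lit 23) (.e (nat_lit 360192) (nat_lit 0) .nil))))))) (.g (nat_lit 4) .nil .nil)))) (.nd (nat_lit 5) 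
(.lf (nat_lit 102167) (.g (nat_lit 2240) (.e (nat_lit 3307) (nat_lit 202) (.e (nat_lit 573485) (nat_lit 13) (.e (nat_lit 65619) (nat_lit 10) (.e (nat_lit 344126) (nat_lit 25) (.e (nat_lit 548873) (nat_lit 5) (.e (nat_lit 1562) (nat_lit 110) (.e (nat_lit 360192) (nat_lit 0) .nil))))))) (.g (nat_lit 4) .nil .nil))) 
(.lf (nat_lit 102199) (.g (nat_lit 1628) (.e (nat_lit 3307) (nat_lit 202) (.e (nat_lit 573487) (nat_lit 14) (.e (nat_lit 73746) (nat_lit 3) (.e (nat_lit 524032) (nat_lit 32) .nil)))) .nil)))) (.nd (nat_lit 4) (.nd (nat_lit 5) 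
(.lf (nat_lit 102159) (.g (nat_lit 4187) (.e (nat_lit 3307) (nat_lit 202) (.e (nat_lit 573485) (nat_lit 13) (.e (nat_lit 65619) (nat_lit 10) (.e (nat_lit 344117) (nat_lit 21) (.e (nat_lit 516106) (nat_lit 0) (.e (nat_lit 7556) (nat_lit 402) (.e (nat_lit 1425) (nat_lit 108) (.e (nat_lit 336306) (nat_lit 15) .nil)))))))) (.g (nat_lit 0) .nil .nil))) 
(.lf (nat_lit 102191) (.g (nat_lit 2687) (.e (nat_lit 3307) (nat_lit 202) (.e (nat_lit 573485) (nat_lit 13) (.e (nat_lit 65619) (nat_lit 10) (.e (nat_lit 344129) (nat_lit 26) (.e (nat_lit 557066) (nat_lit 9) (.e (nat_lit 314) (nat_lit 23) (.e (nat_lit 360192) (nat_lit 0) .nil))))))) (.g (nat_lit 5) .nil .nil)))) (.nd (nat_lit 5) 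
(.lf (nat_lit 102175) (.g (nat_lit 3649) (.e (nat_lit 3307) (nat_lit 202) (.e (nat_lit 573485) (nat_lit 13) (.e (nat_lit 65619) (nat_lit 10) (.e (nat_lit 344126) (nat_lit 25) (.e (nat_lit 548874) (nat_lit 5) (.e (nat_lit 1572) (nat_lit 110) (.e (nat_lit 360192) (nat_lit 0) .nil))))))) (.g (nat_lit 6) .nil .nil))) 
(.lf (nat_lit 102207) (.g (nat_lit 3346) (.e (nat_lit 3307) (nat_lit 202) (.e (nat_lit 573489) (nat_lit 14) (.e (nat_lit 73755) (nat_lit 8) (.e (nat_lit 557057) (nat_lit 0) (.e (nat_lit 1638) (nat_lit 114) (.e (nat_lit 392960) (nat_lit 24) (.e (nat_lit 516151) (nat_lit 9) (.e (nat_lit 426042) (nat_lit 0) .nil)))))))) (.g (nat_lit 5) .nil .nil)))))))))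

noncomputable def tv1392 : DT := (.nd (nat_lit 0) (.nd (nat_lit 1) (.nd (nat_lit 2) (.nd (nat_lit 3) (.nd (nat_lit 4) (.nd (nat_lit 5) 
(.lf (nat_lit 102208) (.g (nat_lit 3305) (.e (nat_lit 3307) (nat_lit 202) (.e (nat_lit 573489) (nat_lit 14) (.e (nat_lit 73755) (nat_lit 8) (.e (nat_lit 557067) (nat_lit 9) (.e (nat_lit 20) (nat_lit 0) .nil))))) .nil)) 
(.lf (nat_lit 102240) (.g (nat_lit 3413) (.e (nat_lit 3307) (nat_lit 202) (.e (nat_lit 573489) (nat_lit 14) (.e (nat_lit 73755) (nat_lit 8) (.e (nat_lit 557098) (nat_lit 13) (.e (nat_lit 179968) (nat_lit 15) (.e (nat_lit 1800) (nat_lit 119) (.e (nat_lit 516120) (nat_lit 1) (.e (nat_lit 164330) (nat_lit 230) (.e (nat_lit 163853) (nat_lit 0) .nil))))))))) (.g (nat_lit 4) .nil .nil)))) 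
(.nd (nat_lit 5) 
(.lf (nat_lit 102224) (.g (nat_lit 3035) (.e (nat_lit 3307) (nat_lit 202) (.e (nat_lit 573489) (nat_lit 14) (.e (nat_lit 73755) (nat_lit 8) (.e (nat_lit 557091) (nat_lit 12) (.e (nat_lit 164012) (nat_lit 42) .nil))))) .nil)) 
(.lf (nat_lit 102256) (.g (nat_lit 1716) (.e (nat_lit 3308) (nat_lit 202) (.e (nat_lit 573471) (nat_lit 11) (.e (nat_lit 16388) (nat_lit 0) (.e (nat_lit 7545) (nat_lit 402) .nil)))) .nil)))) (.nd (nat_lit 4) (.nd (nat_lit 5) 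
(.lf (nat_lit 102216) (.g (nat_lit 3638) (.e (nat_lit 3307) (nat_lit 202) (.e (nat_lit 573489) (nat_lit 14) (.e (nat_lit 73755) (nat_lit 8) (.e (nat_lit 557090) (nat_lit 12) (.e (nat_lit 164005) (nat_lit 41) (.e (nat_lit 663565) (nat_lit 3) (.e (nat_lit 57466) (nat_lit 23) (.e (nat_lit 516151) (nat_lit 9) (.e (nat_lit 426042) (nat_lit 0) .nil))))))))) (.g (nat_lit 4) .nil .nil))) 
(.lf (nat_lit 102248) (.g (nat_lit 2710) (.e (nat_lit 3307) (nat_lit 202) (.e (nat_lit 573493) (nat_lit 15) (.e (nat_lit 81954) (nat_lit 23) (.e (nat_lit 98349) (nat_lit 24) .nil)))) .nil))) (.nd (nat_lit 5) 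
(.lf (nat_lit 102232) (.g (nat_lit 3540) (.e (nat_lit 3307) (nat_lit 202) (.e (nat_lit 573489) (nat_lit 14) (.e (nat_lit 73755) (nat_lit 8) (.e (nat_lit 557098) (nat_lit 13) (.e (nat_lit 172133) (nat_lit 15) (.e (nat_lit 1800) (nat_lit 119) (.e (nat_lit 516117) (nat_lit 1) (.e (nat_lit 164330) (nat_lit 230) (.e (nat_lit 163840) (nat_lit 0) .nil))))))))) (.g (nat_lit 4) .nil .nil))) 
(.lf (nat_lit 102264) (.g (nat_lit 3988) (.e (nat_lit 3308) (nat_lit 202) (.e (nat_lit 573471) (nat_lit 11) (.e (nat_lit 16470) (nat_lit 14) (.e (nat_lit 491536) (nat_lit 2) .nil)))) .nil))))) (.nd (nat_lit 3) (.nd (nat_lit 4) (.nd (nat_lit 5) 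
(.lf (nat_lit 102212) (.g (nat_lit 1423) (.e (nat_lit 3307) (nat_lit 202) (.e (nat_lit 573489) (nat_lit 14) (.e (nat_lit 73755) (nat_lit 8) (.e (nat_lit 557089) (nat_lit 12) .nil)))) .nil)) 
(.lf (nat_lit 102244) (.g (nat_lit 2542) (.e (nat_lit 3307) (nat_lit 202) (.e (nat_lit 573491) (nat_lit 15) (.e (nat_lit 81956) (nat_lit 23) (.e (nat_lit 98388) (nat_lit 33) .nil)))) .nil))) (.nd (nat_lit 5) 
(.lf (nat_lit 102228) (.g (nat_lit 3216) (.e (nat_lit 3307) (nat_lit 202) (.e (nat_lit 573489) (nat_lit 14) (.e (nat_lit 73755) (nat_lit 8) (.e (nat_lit 557098) (nat_lit 13) (.e (nat_lit 172131) (nat_lit 15) (.e (nat_lit 1800) (nat_lit 119) (.e (nat_lit 516120) (nat_lit 1) (.e (nat_lit 164330) (nat_lit 230) (.e (nat_lit 163840) (nat_lit 0) .nil))))))))) (.g (nat_lit 4) .nil .nil))) 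
(.lf (nat_lit 102260) (.g (nat_lit 3276) (.e (nat_lit 3308) (nat_lit 202) (.e (nat_lit 573471) (nat_lit 11) (.e (nat_lit 16433) (nat_lit 9) (.e (nat_lit 426363) (nat_lit 15) .nil)))) .nil)))) (.nd (nat_lit 4) (.nd (nat_lit 5) 
(.lf (nat_lit 102220) (.g (nat_lit 1757) (.e (nat_lit 3307) (nat_lit 202) (.e (nat_lit 573489) (nat_lit 14) (.e (nat_lit 73755) (nat_lit 8) (.e (nat_lit 557091) (nat_lit 12) .nil)))) .nil)) 
(.lf (nat_lit 102252) (.g (nat_lit 3186) (.e (nat_lit 3307) (nat_lit 202) (.e (nat_lit 573493) (nat_lit 15) (.e (nat_lit 81954) (nat_lit 23) (.e (nat_lit 98389) (nat_lit 33) .nil)))) .nil))) (.nd (nat_lit 5) 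
(.lf (nat_lit 102236) (.g (nat_lit 3008) (.e (nat_lit 3307) (nat_lit 202) (.e (nat_lit 573489) (nat_lit 14) (.e (nat_lit 73755) (nat_lit 8) (.e (nat_lit 557098) (nat_lit 13) (.e (nat_lit 172133) (nat_lit 15) (.e (nat_lit 1800) (nat_lit 119) (.e (nat_lit 516120) (nat_lit 1) (.e (nat_lit 164329) (nat_lit 230) (.e (nat_lit 163851) (nat_lit 0) .nil))))))))) (.g (nat_lit 4) .nil .nil))) 
(.lf (nat_lit 102268) (.g (nat_lit 2797) (.e (nat_lit 3308) (nat_lit 202) (.e (nat_lit 573475) (nat_lit 12) (.e (nat_lit 57347) (nat_lit 0) (.e (nat_lit 7266) (nat_lit 384) (.e (nat_lit 57430) (nat_lit 16) .nil))))) .nil)))))) (.nd (nat_lit 2) (.nd (nat_lit 3) (.nd (nat_lit 4) (.nd (nat_lit 5) 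
(.lf (nat_lit 102210) (.g (nat_lit 4234) (.e (nat_lit 3307) (nat_lit 202) (.e (nat_lit 573489) (nat_lit 14) (.e (nat_lit 73755) (nat_lit 8) (.e (nat_lit 557084) (nat_lit 10) (.e (nat_lit 8365) (nat_lit 91) (.e (nat_lit 737284) (nat_lit 0) (.e (nat_lit 580) (nat_lit 43) (.e (nat_lit 516151) (nat_lit 9) (.e (nat_lit 426042) (nat_lit 0) .nil))))))))) (.g (nat_lit 4) .nil .nil))) 
(.lf (nat_lit 102242) (.g (nat_lit 735) (.e (nat_lit 3307) (nat_lit 202) (.e (nat_lit 573489) (nat_lit 14) (.e (nat_lit 73757) (nat_lit 11) .nil))) .nil))) (.nd (nat_lit 5) 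
(.lf (nat_lit 102226) (.g (nat_lit 3013) (.e (nat_lit 3307) (nat_lit 202) (.e (nat_lit 573489) (nat_lit 14) (.e (nat_lit 73755) (nat_lit 8) (.e (nat_lit 557096) (nat_lit 13) (.e (nat_lit 172133) (nat_lit 15) (.e (nat_lit 1800) (nat_lit 119) (.e (nat_lit 516119) (nat_lit 1) (.e (nat_lit 164326) (nat_lit 230) (.e (nat_lit 163851) (nat_lit 0) .nil))))))))) (.g (nat_lit 4) .nil .nil))) 
(.lf (nat_lit 102258) (.g (nat_lit 2477) (.e (nat_lit 3308) (nat_lit 202) (.e (nat_lit 573471) (nat_lit 11) (.e (nat_lit 16425) (nat_lit 7) (.e (nat_lit 409617) (nat_lit 10) .nil)))) .nil)))) (.nd (nat_lit 4) (.nd (nat_lit 5) 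
(.lf (nat_lit 102218) (.g (nat_lit 3150) (.e (nat_lit 3307) (nat_lit 202) (.e (nat_lit 573489) (nat_lit 14) (.e (nat_lit 73755) (nat_lit 8) (.e (nat_lit 557090) (nat_lit 12) (.e (nat_lit 164010) (nat_lit 41) (.e (nat_lit 663564) (nat_lit 3) (.e (nat_lit 57464) (nat_lit 23) (.e (nat_lit 516151) (nat_lit 9) (.e (nat_lit 426042) (nat_lit 0) .nil))))))))) (.g (nat_lit 4) .nil .nil))) 
(.lf (nat_lit 102250) (.g (nat_lit 2996) (.e (nat_lit 3307) (nat_lit 202) (.e (nat_lit 573493) (nat_lit 15) (.e (nat_lit 81954) (nat_lit 23) (.e (nat_lit 98387) (nat_lit 33) .nil)))) .nil))) (.nd (nat_lit 5) 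
(.lf (nat_lit 102234) (.g (nat_lit 3195) (.e (nat_lit 3307) (nat_lit 202) (.e (nat_lit 573489) (nat_lit 14) (.e (nat_lit 73755) (nat_lit 8) (.e (nat_lit 557098) (nat_lit 13) (.e (nat_lit 172133) (nat_lit 15) (.e (nat_lit 1800) (nat_lit 119) (.e (nat_lit 516119) (nat_lit 1) (.e (nat_lit 164325) (nat_lit 230) (.e (nat_lit 163851) (nat_lit 0) .nil))))))))) (.g (nat_lit 4) .nil .nil))) 
(.lf (nat_lit 102266) (.g (nat_lit 3829) (.e (nat_lit 3308) (nat_lit 202) (.e (nat_lit 573471) (nat_lit 11) (.e (nat_lit 16470) (nat_lit 14) (.e (nat_lit 491540) (nat_lit 3) .nil)))) .nil))))) (.nd (nat_lit 3) (.nd (nat_lit 4) (.nd (nat_lit 5) 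
(.lf (nat_lit 102214) (.g (nat_lit 3064) (.e (nat_lit 3307) (nat_lit 202) (.e (nat_lit 573489) (nat_lit 14) (.e (nat_lit 73755) (nat_lit 8) (.e (nat_lit 557089) (nat_lit 12) (.e (nat_lit 164010) (nat_lit 41) (.e (nat_lit 663564) (nat_lit 3) (.e (nat_lit 57464) (nat_lit 23) (.e (nat_lit 516151) (nat_lit 9) (.e (nat_lit 426042) (nat_lit 0) .nil))))))))) (.g (nat_lit 4) .nil .nil))) 
(.lf (nat_lit 102246) (.g (nat_lit 5134) (.e (nat_lit 3307) (nat_lit 202) (.e (nat_lit 573492) (nat_lit 15) (.e (nat_lit 81956) (nat_lit 23) (.e (nat_lit 98388) (nat_lit 33) .nil)))) .nil))) (.nd (nat_lit 5) 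
(.lf (nat_lit 102230) (.g (nat_lit 3481) (.e (nat_lit 3307) (nat_lit 202) (.e (nat_lit 573489) (nat_lit 14) (.e (nat_lit 73755) (nat_lit 8) (.e (nat_lit 557098) (nat_lit 13) (.e (nat_lit 172131) (nat_lit 15) (.e (nat_lit 1800) (nat_lit 119) (.e (nat_lit 516120) (nat_lit 1) (.e (nat_lit 164330) (nat_lit 230) (.e (nat_lit 163853) (nat_lit 0) .nil))))))))) (.g (nat_lit 4) .nil .nil))) 
(.lf (nat_lit 102262) (.g (nat_lit 1634) (.e (nat_lit 3308) (nat_lit 202) (.e (nat_lit 573471) (nat_lit 11) (.e (nat_lit 16455) (nat_lit 12) (.e (nat_lit 475185) (nat_lit 29) .nil)))) .nil)))) (.nd (nat_lit 4) (.nd (nat_lit 5) 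
(.lf (nat_lit 102222) (.g (nat_lit 4062) (.e (nat_lit 3307) (nat_lit 202) (.e (nat_lit 573489) (nat_lit 14) (.e (nat_lit 73755) (nat_lit 8) (.e (nat_lit 557091) (nat_lit 12) (.e (nat_lit 164006) (nat_lit 41) (.e (nat_lit 663564) (nat_lit 3) (.e (nat_lit 57464) (nat_lit 23) (.e (nat_lit 516151) (nat_lit 9) (.e (nat_lit 426042) (nat_lit 0) .nil))))))))) (.g (nat_lit 5) .nil .nil))) 
(.lf (nat_lit 102254) (.g (nat_lit 1450) (.e (nat_lit 3308) (nat_lit 202) (.e (nat_lit 573451) (nat_lit 9) (.e (nat_lit 1595) (nat_lit 111) (.e (nat_lit 360473) (nat_lit 8) .nil)))) .nil))) (.nd (nat_lit 5) 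
(.lf (nat_lit 102238) (.g (nat_lit 3382) (.e (nat_lit 3307) (nat_lit 202) (.e (nat_lit 573489) (nat_lit 14) (.e (nat_lit 73755) (nat_lit 8) (.e (nat_lit 557098) (nat_lit 13) (.e (nat_lit 179968) (nat_lit 15) (.e (nat_lit 1800) (nat_lit 119) (.e (nat_lit 516115) (nat_lit 1) (.e (nat_lit 164325) (nat_lit 230) (.e (nat_lit 163851) (nat_lit 0) .nil))))))))) (.g (nat_lit 4) .nil .nil))) 
(.lf (nat_lit 102270) (.g (nat_lit 2757) (.e (nat_lit 3308) (nat_lit 202) (.e (nat_lit 573475) (nat_lit 12) (.e (nat_lit 57347) (nat_lit 0) (.e (nat_lit 7266) (nat_lit 384) (.e (nat_lit 57431) (nat_lit 16) .nil))))) .nil))))))) (.nd (nat_lit 1) (.nd (nat_lit 2) (.nd (nat_lit 3) (.nd (nat_lit 4) (.nd (nat_lit 5) 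
(.lf (nat_lit 102209) (.g (nat_lit 2307) (.e (nat_lit 3307) (nat_lit 202) (.e (nat_lit 573489) (nat_lit 14) (.e (nat_lit 73755) (nat_lit 8) (.e (nat_lit 557083) (nat_lit 10) .nil)))) .nil)) 
(.lf (nat_lit 102241) (.g (nat_lit 3884) (.e (nat_lit 3307) (nat_lit 202) (.e (nat_lit 573489) (nat_lit 14) (.e (nat_lit 73755) (nat_lit 8) (.e (nat_lit 557119) (nat_lit 18) (.e (nat_lit 2797) (nat_lit 180) (.e (nat_lit 311040) (nat_lit 18) (.e (nat_lit 98359) (nat_lit 26) (.e (nat_lit 426042) (nat_lit 0) .nil)))))))) (.g (nat_lit 5) .nil .nil)))) (.nd (nat_lit 5) 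
(.lf (nat_lit 102225) (.g (nat_lit 3182) (.e (nat_lit 3307) (nat_lit 202) (.e (nat_lit 573489) (nat_lit 14) (.e (nat_lit 73755) (nat_lit 8) (.e (nat_lit 557096) (nat_lit 13) (.e (nat_lit 172133) (nat_lit 15) (.e (nat_lit 1800) (nat_lit 119) (.e (nat_lit 516117) (nat_lit 1) (.e (nat_lit 164330) (nat_lit 230) (.e (nat_lit 163851) (nat_lit 0) .nil))))))))) (.g (nat_lit 4) .nil .nil))) 
(.lf (nat_lit 102257) (.g (nat_lit 2916) (.e (nat_lit 3308) (nat_lit 202) (.e (nat_lit 573471) (nat_lit 11) (.e (nat_lit 16425) (nat_lit 7) (.e (nat_lit 409616) (nat_lit 10) (.e (nat_lit 7936) (nat_lit 43) .nil))))) .nil)))) (.nd (nat_lit 4) (.nd (nat_lit 5) 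
(.lf (nat_lit 102217) (.g (nat_lit 3194) (.e (nat_lit 3307) (nat_lit 202) (.e (nat_lit 573489) (nat_lit 14) (.e (nat_lit 73755) (nat_lit 8) (.e (nat_lit 557090) (nat_lit 12) (.e (nat_lit 164007) (nat_lit 41) (.e (nat_lit 663565) (nat_lit 3) (.e (nat_lit 57466) (nat_lit 23) (.e (nat_lit 516151) (nat_lit 9) (.e (nat_lit 426042) (nat_lit 0) .nil))))))))) (.g (nat_lit 4) .nil .nil))) 
(.lf (nat_lit 102249) (.g (nat_lit 2964) (.e (nat_lit 3307) (nat_lit 202) (.e (nat_lit 573493) (nat_lit 15) (.e (nat_lit 81954) (nat_lit 23) (.e (nat_lit 98367) (nat_lit 27) .nil)))) .nil))) (.nd (nat_lit 5) 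
(.lf (nat_lit 102233) (.g (nat_lit 3780) (.e (nat_lit 3307) (nat_lit 202) (.e (nat_lit 573489) (nat_lit 14) (.e (nat_lit 73755) (nat_lit 8) (.e (nat_lit 557098) (nat_lit 13) (.e (nat_lit 172133) (nat_lit 15) (.e (nat_lit 1800) (nat_lit 119) (.e (nat_lit 516117) (nat_lit 1) (.e (nat_lit 164330) (nat_lit 230) (.e (nat_lit 163853) (nat_lit 0) .nil))))))))) (.g (nat_lit 4) .nil .nil))) 
(.lf (nat_lit 102265) (.g (nat_lit 5997) (.e (nat_lit 3308) (nat_lit 202) (.e (nat_lit 573471) (nat_lit 11) (.e (nat_lit 16470) (nat_lit 14) (.e (nat_lit 491537) (nat_lit 2) (.e (nat_lit 90178) (nat_lit 15) .nil))))) .nil))))) (.nd (nat_lit 3) (.nd (nat_lit 4) (.nd (nat_lit 5) 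
(.lf (nat_lit 102213) (.g (nat_lit 2829) (.e (nat_lit 3307) (nat_lit 202) (.e (nat_lit 573489) (nat_lit 14) (.e (nat_lit 73755) (nat_lit 8) (.e (nat_lit 557089) (nat_lit 12) (.e (nat_lit 164007) (nat_lit 41) (.e (nat_lit 663565) (nat_lit 3) (.e (nat_lit 57466) (nat_lit 23) (.e (nat_lit 516151) (nat_lit 9) (.e (nat_lit 426042) (nat_lit 0) .nil))))))))) (.g (nat_lit 4) .nil .nil))) 
(.lf (nat_lit 102245) (.g (nat_lit 2402) (.e (nat_lit 3307) (nat_lit 202) (.e (nat_lit 573491) (nat_lit 15) (.e (nat_lit 81956) (nat_lit 23) (.e (nat_lit 98389) (nat_lit 33) .nil)))) .nil))) (.nd (nat_lit 5) 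
(.lf (nat_lit 102229) (.g (nat_lit 3401) (.e (nat_lit 3307) (nat_lit 202) (.e (nat_lit 573489) (nat_lit 14) (.e (nat_lit 73755) (nat_lit 8) (.e (nat_lit 557098) (nat_lit 13) (.e (nat_lit 172131) (nat_lit 15) (.e (nat_lit 1800) (nat_lit 119) (.e (nat_lit 516120) (nat_lit 1) (.e (nat_lit 164330) (nat_lit 230) (.e (nat_lit 163851) (nat_lit 0) .nil))))))))) (.g (nat_lit 4) .nil .nil))) 
(.lf (nat_lit 102261) (.g (nat_lit 3539) (.e (nat_lit 3308) (nat_lit 202) (.e (nat_lit 573471) (nat_lit 11) (.e (nat_lit 16433) (nat_lit 9) (.e (nat_lit 426364) (nat_lit 15) .nil)))) .nil)))) (.nd (nat_lit 4) (.nd (nat_lit 5) 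
(.lf (nat_lit 102221) (.g (nat_lit 3047) (.e (nat_lit 3307) (nat_lit 202) (.e (nat_lit 573489) (nat_lit 14) (.e (nat_lit 73755) (nat_lit 8) (.e (nat_lit 557091) (nat_lit 12) (.e (nat_lit 164005) (nat_lit 41) (.e (nat_lit 663565) (nat_lit 3) (.e (nat_lit 57466) (nat_lit 23) (.e (nat_lit 516151) (nat_lit 9) (.e (nat_lit 426042) (nat_lit 0) .nil))))))))) (.g (nat_lit 4) .nil .nil))) 
(.lf (nat_lit 102253) (.g (nat_lit 2041) (.e (nat_lit 3307) (nat_lit 202) (.e (nat_lit 573493) (nat_lit 15) (.e (nat_lit 81956) (nat_lit 23) (.e (nat_lit 98388) (nat_lit 33) .nil)))) .nil))) (.nd (nat_lit 5) 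
(.lf (nat_lit 102237) (.g (nat_lit 3691) (.e (nat_lit 3307) (nat_lit 202) (.e (nat_lit 573489) (nat_lit 14) (.e (nat_lit 73755) (nat_lit 8) (.e (nat_lit 557098) (nat_lit 13) (.e (nat_lit 172136) (nat_lit 15) (.e (nat_lit 1800) (nat_lit 119) (.e (nat_lit 516120) (nat_lit 1) (.e (nat_lit 164330) (nat_lit 230) (.e (nat_lit 163840) (nat_lit 0) .nil))))))))) (.g (nat_lit 4) .nil .nil))) 
(.lf (nat_lit 102269) (.g (nat_lit 3086) (.e (nat_lit 3308) (nat_lit 202) (.e (nat_lit 573475) (nat_lit 12) (.e (nat_lit 57347) (nat_lit 0) (.e (nat_lit 7266) (nat_lit 384) (.e (nat_lit 57430) (nat_lit 16) (.e (nat_lit 368676) (nat_lit 21) (.e (nat_lit 516176) (nat_lit 14) (.e (nat_lit 466963) (nat_lit 20) .nil)))))))) (.g (nat_lit 4) .nil .nil))))))) 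
(.nd (nat_lit 2) (.nd (nat_lit 3) (.nd (nat_lit 4) (.nd (nat_lit 5) 
(.lf (nat_lit 102211) (.g (nat_lit 3930) (.e (nat_lit 3307) (nat_lit 202) (.e (nat_lit 573489) (nat_lit 14) (.e (nat_lit 73755) (nat_lit 8) (.e (nat_lit 557084) (nat_lit 10) (.e (nat_lit 8369) (nat_lit 91) (.e (nat_lit 737290) (nat_lit 0) (.e (nat_lit 577) (nat_lit 43) (.e (nat_lit 516151) (nat_lit 9) (.e (nat_lit 426042) (nat_lit 0) .nil))))))))) (.g (nat_lit 4) .nil .nil))) 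
(.lf (nat_lit 102243) (.g (nat_lit 1660) (.e (nat_lit 3307) (nat_lit 202) (.e (nat_lit 573489) (nat_lit 14) (.e (nat_lit 73769) (nat_lit 20) (.e (nat_lit 655378) (nat_lit 4) (.e (nat_lit 172076) (nat_lit 6) .nil))))) .nil))) (.nd (nat_lit 5) 
(.lf (nat_lit 102227) (.g (nat_lit 1573) (.e (nat_lit 3307) (nat_lit 202) (.e (nat_lit 573489) (nat_lit 14) (.e (nat_lit 73755) (nat_lit 8) (.e (nat_lit 557098) (nat_lit 13) .nil)))) .nil)) 
(.lf (nat_lit 102259) (.g (nat_lit 3404) (.e (nat_lit 3308) (nat_lit 202) (.e (nat_lit 573471) (nat_lit 11) (.e (nat_lit 16433) (nat_lit 9) (.e (nat_lit 426360) (nat_lit 15) .nil)))) .nil)))) (.nd (nat_lit 4) (.nd (nat_lit 5) 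
(.lf (nat_lit 102219) (.g (nat_lit 3369) (.e (nat_lit 3307) (nat_lit 202) (.e (nat_lit 573489) (nat_lit 14) (.e (nat_lit 73755) (nat_lit 8) (.e (nat_lit 557090) (nat_lit 12) (.e (nat_lit 164011) (nat_lit 42) .nil))))) .nil)) 
(.lf (nat_lit 102251) (.g (nat_lit 3234) (.e (nat_lit 3307) (nat_lit 202) (.e (nat_lit 573493) (nat_lit 15) (.e (nat_lit 81954) (nat_lit 23) (.e (nat_lit 98388) (nat_lit 33) .nil)))) .nil))) (.nd (nat_lit 5) 
(.lf (nat_lit 102235) (.g (nat_lit 3563) (.e (nat_lit 3307) (nat_lit 202) (.e (nat_lit 573489) (nat_lit 14) (.e (nat_lit 73755) (nat_lit 8) (.e (nat_lit 557098) (nat_lit 13) (.e (nat_lit 172133) (nat_lit 15) (.e (nat_lit 1800) (nat_lit 119) (.e (nat_lit 516119) (nat_lit 1) (.e (nat_lit 164326) (nat_lit 230) (.e (nat_lit 163851) (nat_lit 0) .nil))))))))) (.g (nat_lit 4) .nil .nil))) 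
(.lf (nat_lit 102267) (.g (nat_lit 2750) (.e (nat_lit 3308) (nat_lit 202) (.e (nat_lit 573471) (nat_lit 11) (.e (nat_lit 16473) (nat_lit 14) (.e (nat_lit 491535) (nat_lit 2) (.e (nat_lit 90178) (nat_lit 15) .nil))))) .nil))))) (.nd (nat_lit 3) (.nd (nat_lit 4) (.nd (nat_lit 5) 
(.lf (nat_lit 102215) (.g (nat_lit 1934) (.e (nat_lit 3307) (nat_lit 202) (.e (nat_lit 573489) (nat_lit 14) (.e (nat_lit 73755) (nat_lit 8) (.e (nat_lit 557090) (nat_lit 12) .nil)))) .nil)) 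
(.lf (nat_lit 102247) (.g (nat_lit 5108) (.e (nat_lit 3307) (nat_lit 202) (.e (nat_lit 573492) (nat_lit 15) (.e (nat_lit 81956) (nat_lit 23) (.e (nat_lit 98389) (nat_lit 33) .nil)))) .nil))) (.nd (nat_lit 5) 
(.lf (nat_lit 102231) (.g (nat_lit 3022) (.e (nat_lit 3307) (nat_lit 202) (.e (nat_lit 573489) (nat_lit 14) (.e (nat_lit 73755) (nat_lit 8) (.e (nat_lit 557098) (nat_lit 13) (.e (nat_lit 172132) (nat_lit 15) .nil))))) .nil)) 
(.lf (nat_lit 102263) (.g (nat_lit 3993) (.e (nat_lit 3308) (nat_lit 202) (.e (nat_lit 573471) (nat_lit 11) (.e (nat_lit 16470) (nat_lit 14) (.e (nat_lit 491535) (nat_lit 2) .nil)))) .nil)))) (.nd (nat_lit 4) (.nd (nat_lit 5) 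
(.lf (nat_lit 102223) (.g (nat_lit 3380) (.e (nat_lit 3307) (nat_lit 202) (.e (nat_lit 573489) (nat_lit 14) (.e (nat_lit 73755) (nat_lit 8) (.e (nat_lit 557091) (nat_lit 12) (.e (nat_lit 164006) (nat_lit 41) (.e (nat_lit 663565) (nat_lit 3) (.e (nat_lit 57466) (nat_lit 23) (.e (nat_lit 516151) (nat_lit 9) (.e (nat_lit 426042) (nat_lit 0) .nil))))))))) (.g (nat_lit 4) .nil .nil))) 
(.lf (nat_lit 102255) (.g (nat_lit 4218) (.e (nat_lit 3308) (nat_lit 202) (.e (nat_lit 573452) (nat_lit 9) (.e (nat_lit 1401) (nat_lit 106) (.e (nat_lit 319531) (nat_lit 16) (.e (nat_lit 286735) (nat_lit 3) (.e (nat_lit 98359) (nat_lit 26) (.e (nat_lit 426338) (nat_lit 14) (.e (nat_lit 491577) (nat_lit 15) .nil)))))))) (.g (nat_lit 7) .nil .nil)))) (.nd (nat_lit 5) 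
(.lf (nat_lit 102239) (.g (nat_lit 3333) (.e (nat_lit 3307) (nat_lit 202) (.e (nat_lit 573489) (nat_lit 14) (.e (nat_lit 73755) (nat_lit 8) (.e (nat_lit 557098) (nat_lit 13) (.e (nat_lit 179968) (nat_lit 15) (.e (nat_lit 1800) (nat_lit 119) (.e (nat_lit 516120) (nat_lit 1) (.e (nat_lit 164330) (nat_lit 230) (.e (nat_lit 163851) (nat_lit 0) .nil))))))))) (.g (nat_lit 4) .nil .nil))) 
(.lf (nat_lit 102271) (.g (nat_lit 665) (.e (nat_lit 3308) (nat_lit 202) (.e (nat_lit 573475) (nat_lit 12) (.e (nat_lit 57574) (nat_lit 55) .nil))) .nil))))))))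

noncomputable def tv1393 : DT := (.nd (nat_lit 0) (.nd (nat_lit 1) (.nd (nat_lit 2) (.nd (nat_lit 3) (.nd (nat_lit 4) 
(.lf (nat_lit 102272) (.g (nat_lit 2341) (.e (nat_lit 3308) (nat_lit 202) (.e (nat_lit 573482) (nat_lit 13) (.e (nat_lit 65604) (nat_lit 9) (.e (nat_lit 336013) (nat_lit 2) (.e (nat_lit 90165) (nat_lit 12) (.e (nat_lit 164236) (nat_lit 187) (.e (nat_lit 1512) (nat_lit 108) (.e (nat_lit 343808) (nat_lit 15) .nil)))))))) (.g (nat_lit 4) .nil .nil))) 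
(.lf (nat_lit 102288) (.g (nat_lit 2953) (.e (nat_lit 3308) (nat_lit 202) (.e (nat_lit 573482) (nat_lit 13) (.e (nat_lit 65604) (nat_lit 9) (.e (nat_lit 336028) (nat_lit 3) (.e (nat_lit 98325) (nat_lit 17) (.e (nat_lit 7550) (nat_lit 402) (.e (nat_lit 1516) (nat_lit 108) (.e (nat_lit 343808) (nat_lit 15) .nil)))))))) (.g (nat_lit 7) .nil .nil)))) (.nd (nat_lit 4) 
(.lf (nat_lit 102280) (.g (nat_lit 5027) (.e (nat_lit 3308) (nat_lit 202) (.e (nat_lit 573482) (nat_lit 13) (.e (nat_lit 65604) (nat_lit 9) (.e (nat_lit 336013) (nat_lit 2) (.e (nat_lit 90165) (nat_lit 12) (.e (nat_lit 164238) (nat_lit 187) (.e (nat_lit 1427) (nat_lit 108) (.e (nat_lit 336306) (nat_lit 15) .nil)))))))) (.g (nat_lit 0) .nil .nil))) 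
(.lf (nat_lit 102296) (.g (nat_lit 2373) (.e (nat_lit 3308) (nat_lit 202) (.e (nat_lit 573482) (nat_lit 13) (.e (nat_lit 65619) (nat_lit 10) (.e (nat_lit 344117) (nat_lit 21) (.e (nat_lit 516097) (nat_lit 0) (.e (nat_lit 7513) (nat_lit 402) (.e (nat_lit 1427) (nat_lit 108) (.e (nat_lit 336306) (nat_lit 15) .nil)))))))) (.g (nat_lit 4) .nil .nil))))) (.nd (nat_lit 3) (.nd (nat_lit 4) 
(.lf (nat_lit 102276) (.g (nat_lit 2154) (.e (nat_lit 3308) (nat_lit 202) (.e (nat_lit 573482) (nat_lit 13) (.e (nat_lit 65604) (nat_lit 9) (.e (nat_lit 336013) (nat_lit 2) (.e (nat_lit 90165) (nat_lit 12) (.e (nat_lit 164237) (nat_lit 187) (.e (nat_lit 1512) (nat_lit 108) (.e (nat_lit 343808) (nat_lit 15) .nil)))))))) (.g (nat_lit 4) .nil .nil))) 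
(.lf (nat_lit 102292) (.g (nat_lit 3473) (.e (nat_lit 3308) (nat_lit 202) (.e (nat_lit 573482) (nat_lit 13) (.e (nat_lit 65604) (nat_lit 9) (.e (nat_lit 336028) (nat_lit 3) (.e (nat_lit 98325) (nat_lit 17) (.e (nat_lit 7556) (nat_lit 402) (.e (nat_lit 1426) (nat_lit 108) (.e (nat_lit 336306) (nat_lit 15) .nil)))))))) (.g (nat_lit 0) .nil .nil)))) (.nd (nat_lit 4) 
(.lf (nat_lit 102284) (.g (nat_lit 4311) (.e (nat_lit 3308) (nat_lit 202) (.e (nat_lit 573482) (nat_lit 13) (.e (nat_lit 65604) (nat_lit 9) (.e (nat_lit 336013) (nat_lit 2) (.e (nat_lit 90165) (nat_lit 12) (.e (nat_lit 164239) (nat_lit 187) (.e (nat_lit 1427) (nat_lit 108) (.e (nat_lit 336306) (nat_lit 15) .nil)))))))) (.g (nat_lit 0) .nil .nil))) 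
(.lf (nat_lit 102300) (.g (nat_lit 2062) (.e (nat_lit 3308) (nat_lit 202) (.e (nat_lit 573482) (nat_lit 13) (.e (nat_lit 65619) (nat_lit 10) (.e (nat_lit 344117) (nat_lit 21) (.e (nat_lit 516106) (nat_lit 0) (.e (nat_lit 7550) (nat_lit 402) (.e (nat_lit 1512) (nat_lit 108) (.e (nat_lit 343808) (nat_lit 15) .nil)))))))) (.g (nat_lit 4) .nil .nil)))))) 
(.nd (nat_lit 2) (.nd (nat_lit 3) (.nd (nat_lit 4) 
(.lf (nat_lit 102274) (.g (nat_lit 3354) (.e (nat_lit 3308) (nat_lit 202) (.e (nat_lit 573482) (nat_lit 13) (.e (nat_lit 65604) (nat_lit 9) (.e (nat_lit 336013) (nat_lit 2) (.e (nat_lit 90165) (nat_lit 12) (.e (nat_lit 164236) (nat_lit 187) (.e (nat_lit 1516) (nat_lit 108) (.e (nat_lit 343808) (nat_lit 15) .nil)))))))) (.g (nat_lit 7) .nil .nil))) 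
(.lf (nat_lit 102290) (.g (nat_lit 3944) (.e (nat_lit 3308) (nat_lit 202) (.e (nat_lit 573482) (nat_lit 13) (.e (nat_lit 65604) (nat_lit 9) (.e (nat_lit 336028) (nat_lit 3) (.e (nat_lit 98325) (nat_lit 17) (.e (nat_lit 7554) (nat_lit 402) (.e (nat_lit 1427) (nat_lit 108) (.e (nat_lit 336306) (nat_lit 15) .nil)))))))) (.g (nat_lit 8) .nil .nil)))) (.nd (nat_lit 4) 
(.lf (nat_lit 102282) (.g (nat_lit 3578) (.e (nat_lit 3308) (nat_lit 202) (.e (nat_lit 573482) (nat_lit 13) (.e (nat_lit 65604) (nat_lit 9) (.e (nat_lit 336013) (nat_lit 2) (.e (nat_lit 90165) (nat_lit 12) (.e (nat_lit 164239) (nat_lit 187) (.e (nat_lit 1425) (nat_lit 108) (.e (nat_lit 336306) (nat_lit 15) .nil)))))))) (.g (nat_lit 0) .nil .nil))) 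
(.lf (nat_lit 102298) (.g (nat_lit 3341) (.e (nat_lit 3308) (nat_lit 202) (.e (nat_lit 573482) (nat_lit 13) (.e (nat_lit 65619) (nat_lit 10) (.e (nat_lit 344117) (nat_lit 21) (.e (nat_lit 516097) (nat_lit 0) (.e (nat_lit 7562) (nat_lit 402) (.e (nat_lit 1427) (nat_lit 108) (.e (nat_lit 336306) (nat_lit 15) .nil)))))))) (.g (nat_lit 5) .nil .nil))))) (.nd (nat_lit 3) (.nd (nat_lit 4) 
(.lf (nat_lit 102278) (.g (nat_lit 3168) (.e (nat_lit 3308) (nat_lit 202) (.e (nat_lit 573482) (nat_lit 13) (.e (nat_lit 65604) (nat_lit 9) (.e (nat_lit 336013) (nat_lit 2) (.e (nat_lit 90165) (nat_lit 12) (.e (nat_lit 164237) (nat_lit 187) (.e (nat_lit 1516) (nat_lit 108) (.e (nat_lit 343808) (nat_lit 15) .nil)))))))) (.g (nat_lit 7) .nil .nil))) 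
(.lf (nat_lit 102294) (.g (nat_lit 3713) (.e (nat_lit 3308) (nat_lit 202) (.e (nat_lit 573482) (nat_lit 13) (.e (nat_lit 65604) (nat_lit 9) (.e (nat_lit 336028) (nat_lit 3) (.e (nat_lit 98325) (nat_lit 17) (.e (nat_lit 7556) (nat_lit 402) (.e (nat_lit 1428) (nat_lit 108) (.e (nat_lit 336306) (nat_lit 15) .nil)))))))) (.g (nat_lit 0) .nil .nil)))) (.nd (nat_lit 4) 
(.lf (nat_lit 102286) (.g (nat_lit 1765) (.e (nat_lit 3308) (nat_lit 202) (.e (nat_lit 573482) (nat_lit 13) (.e (nat_lit 65604) (nat_lit 9) (.e (nat_lit 336013) (nat_lit 2) (.e (nat_lit 90170) (nat_lit 13) .nil))))) .nil)) 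
(.lf (nat_lit 102302) (.g (nat_lit 4154) (.e (nat_lit 3308) (nat_lit 202) (.e (nat_lit 573482) (nat_lit 13) (.e (nat_lit 65619) (nat_lit 10) (.e (nat_lit 344117) (nat_lit 21) (.e (nat_lit 516106) (nat_lit 0) (.e (nat_lit 7556) (nat_lit 402) (.e (nat_lit 1425) (nat_lit 108) (.e (nat_lit 336306) (nat_lit 15) .nil)))))))) (.g (nat_lit 0) .nil .nil))))))) 
(.nd (nat_lit 1) (.nd (nat_lit 2) (.nd (nat_lit 3) (.nd (nat_lit 4) 
(.lf (nat_lit 102273) (.g (nat_lit 2253) (.e (nat_lit 3308) (nat_lit 202) (.e (nat_lit 573482) (nat_lit 13) (.e (nat_lit 65604) (nat_lit 9) (.e (nat_lit 336013) (nat_lit 2) (.e (nat_lit 90165) (nat_lit 12) (.e (nat_lit 164236) (nat_lit 187) (.e (nat_lit 1515) (nat_lit 108) (.e (nat_lit 343808) (nat_lit 15) .nil)))))))) (.g (nat_lit 4) .nil .nil))) 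
(.lf (nat_lit 102289) (.g (nat_lit 2630) (.e (nat_lit 3308) (nat_lit 202) (.e (nat_lit 573482) (nat_lit 13) (.e (nat_lit 65604) (nat_lit 9) (.e (nat_lit 336028) (nat_lit 3) (.e (nat_lit 98325) (nat_lit 17) (.e (nat_lit 7554) (nat_lit 402) (.e (nat_lit 1425) (nat_lit 108) (.e (nat_lit 336306) (nat_lit 15) .nil)))))))) (.g (nat_lit 5) .nil .nil)))) (.nd (nat_lit 4) 
(.lf (nat_lit 102281) (.g (nat_lit 4235) (.e (nat_lit 3308) (nat_lit 202) (.e (nat_lit 573482) (nat_lit 13) (.e (nat_lit 65604) (nat_lit 9) (.e (nat_lit 336013) (nat_lit 2) (.e (nat_lit 90165) (nat_lit 12) (.e (nat_lit 164238) (nat_lit 187) (.e (nat_lit 1428) (nat_lit 108) (.e (nat_lit 336306) (nat_lit 15) .nil)))))))) (.g (nat_lit 0) .nil .nil))) 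
(.lf (nat_lit 102297) (.g (nat_lit 2356) (.e (nat_lit 3308) (nat_lit 202) (.e (nat_lit 573482) (nat_lit 13) (.e (nat_lit 65619) (nat_lit 10) (.e (nat_lit 344117) (nat_lit 21) (.e (nat_lit 516097) (nat_lit 0) (.e (nat_lit 7516) (nat_lit 402) (.e (nat_lit 1427) (nat_lit 108) (.e (nat_lit 336306) (nat_lit 15) .nil)))))))) (.g (nat_lit 4) .nil .nil))))) (.nd (nat_lit 3) (.nd (nat_lit 4) 
(.lf (nat_lit 102277) (.g (nat_lit 2072) (.e (nat_lit 3308) (nat_lit 202) (.e (nat_lit 573482) (nat_lit 13) (.e (nat_lit 65604) (nat_lit 9) (.e (nat_lit 336013) (nat_lit 2) (.e (nat_lit 90165) (nat_lit 12) (.e (nat_lit 164237) (nat_lit 187) (.e (nat_lit 1515) (nat_lit 108) (.e (nat_lit 343808) (nat_lit 15) .nil)))))))) (.g (nat_lit 4) .nil .nil))) 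
(.lf (nat_lit 102293) (.g (nat_lit 3954) (.e (nat_lit 3308) (nat_lit 202) (.e (nat_lit 573482) (nat_lit 13) (.e (nat_lit 65604) (nat_lit 9) (.e (nat_lit 336028) (nat_lit 3) (.e (nat_lit 98325) (nat_lit 17) (.e (nat_lit 7556) (nat_lit 402) (.e (nat_lit 1427) (nat_lit 108) (.e (nat_lit 336306) (nat_lit 15) .nil)))))))) (.g (nat_lit 0) .nil .nil)))) (.nd (nat_lit 4) 
(.lf (nat_lit 102285) (.g (nat_lit 3883) (.e (nat_lit 3308) (nat_lit 202) (.e (nat_lit 573482) (nat_lit 13) (.e (nat_lit 65604) (nat_lit 9) (.e (nat_lit 336013) (nat_lit 2) (.e (nat_lit 90165) (nat_lit 12) (.e (nat_lit 164239) (nat_lit 187) (.e (nat_lit 1428) (nat_lit 108) (.e (nat_lit 336306) (nat_lit 15) .nil)))))))) (.g (nat_lit 0) .nil .nil))) 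
(.lf (nat_lit 102301) (.g (nat_lit 3128) (.e (nat_lit 3308) (nat_lit 202) (.e (nat_lit 573482) (nat_lit 13) (.e (nat_lit 65619) (nat_lit 10) (.e (nat_lit 344117) (nat_lit 21) (.e (nat_lit 516106) (nat_lit 0) (.e (nat_lit 7550) (nat_lit 402) (.e (nat_lit 1516) (nat_lit 108) (.e (nat_lit 343808) (nat_lit 15) .nil)))))))) (.g (nat_lit 7) .nil .nil)))))) 
(.nd (nat_lit 2) (.nd (nat_lit 3) (.nd (nat_lit 4) 
(.lf (nat_lit 102275) (.g (nat_lit 2178) (.e (nat_lit 3308) (nat_lit 202) (.e (nat_lit 573482) (nat_lit 13) (.e (nat_lit 65604) (nat_lit 9) (.e (nat_lit 336013) (nat_lit 2) (.e (nat_lit 90165) (nat_lit 12) (.e (nat_lit 164236) (nat_lit 187) (.e (nat_lit 1517) (nat_lit 108) (.e (nat_lit 343808) (nat_lit 15) .nil)))))))) (.g (nat_lit 4) .nil .nil))) 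
(.lf (nat_lit 102291) (.g (nat_lit 3364) (.e (nat_lit 3308) (nat_lit 202) (.e (nat_lit 573482) (nat_lit 13) (.e (nat_lit 65604) (nat_lit 9) (.e (nat_lit 336028) (nat_lit 3) (.e (nat_lit 98325) (nat_lit 17) (.e (nat_lit 7556) (nat_lit 402) (.e (nat_lit 1425) (nat_lit 108) (.e (nat_lit 336306) (nat_lit 15) .nil)))))))) (.g (nat_lit 0) .nil .nil)))) (.nd (nat_lit 4) 
(.lf (nat_lit 102283) (.g (nat_lit 3807) (.e (nat_lit 3308) (nat_lit 202) (.e (nat_lit 573482) (nat_lit 13) (.e (nat_lit 65604) (nat_lit 9) (.e (nat_lit 336013) (nat_lit 2) (.e (nat_lit 90165) (nat_lit 12) (.e (nat_lit 164239) (nat_lit 187) (.e (nat_lit 1426) (nat_lit 108) (.e (nat_lit 336306) (nat_lit 15) .nil)))))))) (.g (nat_lit 0) .nil .nil))) 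
(.lf (nat_lit 102299) (.g (nat_lit 2306) (.e (nat_lit 3308) (nat_lit 202) (.e (nat_lit 573482) (nat_lit 13) (.e (nat_lit 65619) (nat_lit 10) (.e (nat_lit 344117) (nat_lit 21) (.e (nat_lit 516102) (nat_lit 0) .nil))))) .nil)))) (.nd (nat_lit 3) (.nd (nat_lit 4) 
(.lf (nat_lit 102279) (.g (nat_lit 2001) (.e (nat_lit 3308) (nat_lit 202) (.e (nat_lit 573482) (nat_lit 13) (.e (nat_lit 65604) (nat_lit 9) (.e (nat_lit 336013) (nat_lit 2) (.e (nat_lit 90165) (nat_lit 12) (.e (nat_lit 164237) (nat_lit 187) (.e (nat_lit 1517) (nat_lit 108) (.e (nat_lit 343808) (nat_lit 15) .nil)))))))) (.g (nat_lit 4) .nil .nil))) 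
(.lf (nat_lit 102295) (.g (nat_lit 2391) (.e (nat_lit 3308) (nat_lit 202) (.e (nat_lit 573482) (nat_lit 13) (.e (nat_lit 65619) (nat_lit 10) (.e (nat_lit 344117) (nat_lit 21) (.e (nat_lit 516097) (nat_lit 0) (.e (nat_lit 7511) (nat_lit 402) (.e (nat_lit 1427) (nat_lit 108) (.e (nat_lit 336306) (nat_lit 15) .nil)))))))) (.g (nat_lit 4) .nil .nil)))) (.nd (nat_lit 4) 
(.lf (nat_lit 102287) (.g (nat_lit 2248) (.e (nat_lit 3308) (nat_lit 202) (.e (nat_lit 573482) (nat_lit 13) (.e (nat_lit 65604) (nat_lit 9) (.e (nat_lit 336028) (nat_lit 3) (.e (nat_lit 98325) (nat_lit 17) (.e (nat_lit 7549) (nat_lit 402) (.e (nat_lit 1516) (nat_lit 108) (.e (nat_lit 343808) (nat_lit 15) .nil)))))))) (.g (nat_lit 4) .nil .nil))) 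
(.lf (nat_lit 102303) (.g (nat_lit 2216) (.e (nat_lit 3308) (nat_lit 202) (.e (nat_lit 573482) (nat_lit 13) (.e (nat_lit 65619) (nat_lit 10) (.e (nat_lit 344117) (nat_lit 21) (.e (nat_lit 516106) (nat_lit 0) (.e (nat_lit 7556) (nat_lit 402) (.e (nat_lit 1427) (nat_lit 108) (.e (nat_lit 336260) (nat_lit 15) .nil)))))))) (.g (nat_lit 4) .nil .nil))))))))

noncomputable def tv1394 : DT := (.nd (nat_lit 0) (.nd (nat_lit 1) (.nd (nat_lit 2) (.nd (nat_lit 3) (.nd (nat_lit 4) 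
(.lf (nat_lit 102304) (.g (nat_lit 4780) (.e (nat_lit 3308) (nat_lit 202) (.e (nat_lit 573482) (nat_lit 13) (.e (nat_lit 65619) (nat_lit 10) (.e (nat_lit 344117) (nat_lit 21) (.e (nat_lit 516106) (nat_lit 0) (.e (nat_lit 7556) (nat_lit 402) (.e (nat_lit 1427) (nat_lit 108) (.e (nat_lit 336306) (nat_lit 15) .nil)))))))) (.g (nat_lit 0) .nil .nil))) 
(.lf (nat_lit 102320) (.g (nat_lit 3113) (.e (nat_lit 3308) (nat_lit 202) (.e (nat_lit 573482) (nat_lit 13) (.e (nat_lit 65619) (nat_lit 10) (.e (nat_lit 344126) (nat_lit 25) (.e (nat_lit 548874) (nat_lit 5) (.e (nat_lit 1569) (nat_lit 110) (.e (nat_lit 360192) (nat_lit 0) .nil))))))) (.g (nat_lit 6) .nil .nil)))) (.nd (nat_lit 4) 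
(.lf (nat_lit 102312) (.g (nat_lit 2289) (.e (nat_lit 3308) (nat_lit 202) (.e (nat_lit 573482) (nat_lit 13) (.e (nat_lit 65619) (nat_lit 10) (.e (nat_lit 344126) (nat_lit 25) (.e (nat_lit 548872) (nat_lit 5) (.e (nat_lit 1576) (nat_lit 110) (.e (nat_lit 360192) (nat_lit 0) .nil))))))) (.g (nat_lit 4) .nil .nil))) 
(.lf (nat_lit 102328) (.g (nat_lit 3452) (.e (nat_lit 3308) (nat_lit 202) (.e (nat_lit 573482) (nat_lit 13) (.e (nat_lit 65619) (nat_lit 10) (.e (nat_lit 344129) (nat_lit 26) (.e (nat_lit 557065) (nat_lit 9) (.e (nat_lit 290) (nat_lit 21) (.e (nat_lit 336086) (nat_lit 9) (.e (nat_lit 336306) (nat_lit 15) .nil)))))))) (.g (nat_lit 5) .nil .nil))))) (.nd (nat_lit 3) (.nd (nat_lit 4) 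
(.lf (nat_lit 102308) (.g (nat_lit 2117) (.e (nat_lit 3308) (nat_lit 202) (.e (nat_lit 573482) (nat_lit 13) (.e (nat_lit 65619) (nat_lit 10) (.e (nat_lit 344117) (nat_lit 21) (.e (nat_lit 516180) (nat_lit 15) .nil))))) .nil)) 
(.lf (nat_lit 102324) (.g (nat_lit 1794) (.e (nat_lit 3308) (nat_lit 202) (.e (nat_lit 573482) (nat_lit 13) (.e (nat_lit 65619) (nat_lit 10) (.e (nat_lit 344129) (nat_lit 26) (.e (nat_lit 557065) (nat_lit 9) .nil))))) .nil))) (.nd (nat_lit 4) 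
(.lf (nat_lit 102316) (.g (nat_lit 2710) (.e (nat_lit 3308) (nat_lit 202) (.e (nat_lit 573482) (nat_lit 13) (.e (nat_lit 65619) (nat_lit 10) (.e (nat_lit 344126) (nat_lit 25) (.e (nat_lit 548873) (nat_lit 5) (.e (nat_lit 1575) (nat_lit 110) (.e (nat_lit 360192) (nat_lit 0) .nil))))))) (.g (nat_lit 6) .nil .nil))) 
(.lf (nat_lit 102332) (.g (nat_lit 3864) (.e (nat_lit 3308) (nat_lit 202) (.e (nat_lit 573482) (nat_lit 13) (.e (nat_lit 65619) (nat_lit 10) (.e (nat_lit 344129) (nat_lit 26) (.e (nat_lit 557066) (nat_lit 9) (.e (nat_lit 232) (nat_lit 21) (.e (nat_lit 336089) (nat_lit 9) (.e (nat_lit 336306) (nat_lit 15) .nil)))))))) (.g (nat_lit 6) .nil .nil)))))) 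
(.nd (nat_lit 2) (.nd (nat_lit 3) (.nd (nat_lit 4) 
(.lf (nat_lit 102306) (.g (nat_lit 2381) (.e (nat_lit 3308) (nat_lit 202) (.e (nat_lit 573482) (nat_lit 13) (.e (nat_lit 65619) (nat_lit 10) (.e (nat_lit 344117) (nat_lit 21) (.e (nat_lit 516144) (nat_lit 9) .nil))))) .nil)) 
(.lf (nat_lit 102322) (.g (nat_lit 3257) (.e (nat_lit 3308) (nat_lit 202) (.e (nat_lit 573482) (nat_lit 13) (.e (nat_lit 65619) (nat_lit 10) (.e (nat_lit 344126) (nat_lit 25) (.e (nat_lit 548874) (nat_lit 5) (.e (nat_lit 1575) (nat_lit 110) (.e (nat_lit 360192) (nat_lit 0) .nil))))))) (.g (nat_lit 6) .nil .nil)))) (.nd (nat_lit 4) 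
(.lf (nat_lit 102314) (.g (nat_lit 2689) (.e (nat_lit 3308) (nat_lit 202) (.e (nat_lit 573482) (nat_lit 13) (.e (nat_lit 65619) (nat_lit 10) (.e (nat_lit 344126) (nat_lit 25) (.e (nat_lit 548873) (nat_lit 5) (.e (nat_lit 1569) (nat_lit 110) (.e (nat_lit 360192) (nat_lit 0) .nil))))))) (.g (nat_lit 6) .nil .nil))) 
(.lf (nat_lit 102330) (.g (nat_lit 2283) (.e (nat_lit 3308) (nat_lit 202) (.e (nat_lit 573482) (nat_lit 13) (.e (nat_lit 65619) (nat_lit 10) (.e (nat_lit 344129) (nat_lit 26) (.e (nat_lit 557065) (nat_lit 9) (.e (nat_lit 7936) (nat_lit 23) (.e (nat_lit 360192) (nat_lit 0) .nil))))))) (.g (nat_lit 4) .nil .nil))))) (.nd (nat_lit 3) (.nd (nat_lit 4) 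
(.lf (nat_lit 102310) (.g (nat_lit 2584) (.e (nat_lit 3308) (nat_lit 202) (.e (nat_lit 573482) (nat_lit 13) (.e (nat_lit 65619) (nat_lit 10) (.e (nat_lit 344126) (nat_lit 25) (.e (nat_lit 548872) (nat_lit 5) (.e (nat_lit 1569) (nat_lit 110) (.e (nat_lit 360192) (nat_lit 0) .nil))))))) (.g (nat_lit 5) .nil .nil))) 
(.lf (nat_lit 102326) (.g (nat_lit 2147) (.e (nat_lit 3308) (nat_lit 202) (.e (nat_lit 573482) (nat_lit 13) (.e (nat_lit 65619) (nat_lit 10) (.e (nat_lit 344129) (nat_lit 26) (.e (nat_lit 557065) (nat_lit 9) (.e (nat_lit 249) (nat_lit 21) (.e (nat_lit 336085) (nat_lit 9) (.e (nat_lit 336306) (nat_lit 15) .nil)))))))) (.g (nat_lit 4) .nil .nil)))) (.nd (nat_lit 4) 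
(.lf (nat_lit 102318) (.g (nat_lit 3199) (.e (nat_lit 3308) (nat_lit 202) (.e (nat_lit 573482) (nat_lit 13) (.e (nat_lit 65619) (nat_lit 10) (.e (nat_lit 344126) (nat_lit 25) (.e (nat_lit 548874) (nat_lit 5) (.e (nat_lit 1559) (nat_lit 110) (.e (nat_lit 360192) (nat_lit 0) .nil))))))) (.g (nat_lit 6) .nil .nil))) 
(.lf (nat_lit 102334) (.g (nat_lit 2936) (.e (nat_lit 3308) (nat_lit 202) (.e (nat_lit 573482) (nat_lit 13) (.e (nat_lit 65619) (nat_lit 10) (.e (nat_lit 344129) (nat_lit 26) (.e (nat_lit 557066) (nat_lit 9) (.e (nat_lit 245) (nat_lit 21) (.e (nat_lit 336085) (nat_lit 9) (.e (nat_lit 336306) (nat_lit 15) .nil)))))))) (.g (nat_lit 5) .nil .nil))))))) 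
(.nd (nat_lit 1) (.nd (nat_lit 2) (.nd (nat_lit 3) (.nd (nat_lit 4) 
(.lf (nat_lit 102305) (.g (nat_lit 4516) (.e (nat_lit 3308) (nat_lit 202) (.e (nat_lit 573482) (nat_lit 13) (.e (nat_lit 65619) (nat_lit 10) (.e (nat_lit 344117) (nat_lit 21) (.e (nat_lit 516106) (nat_lit 0) (.e (nat_lit 7556) (nat_lit 402) (.e (nat_lit 1428) (nat_lit 108) (.e (nat_lit 336306) (nat_lit 15) .nil)))))))) (.g (nat_lit 0) .nil .nil))) 
(.lf (nat_lit 102321) (.g (nat_lit 3640) (.e (nat_lit 3308) (nat_lit 202) (.e (nat_lit 573482) (nat_lit 13) (.e (nat_lit 65619) (nat_lit 10) (.e (nat_lit 344126) (nat_lit 25) (.e (nat_lit 548874) (nat_lit 5) (.e (nat_lit 1572) (nat_lit 110) (.e (nat_lit 360192) (nat_lit 0) .nil))))))) (.g (nat_lit 6) .nil .nil)))) (.nd (nat_lit 4) 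
(.lf (nat_lit 102313) (.g (nat_lit 2629) (.e (nat_lit 3308) (nat_lit 202) (.e (nat_lit 573482) (nat_lit 13) (.e (nat_lit 65619) (nat_lit 10) (.e (nat_lit 344126) (nat_lit 25) (.e (nat_lit 548873) (nat_lit 5) (.e (nat_lit 1559) (nat_lit 110) (.e (nat_lit 360192) (nat_lit 0) .nil))))))) (.g (nat_lit 6) .nil .nil))) 
(.lf (nat_lit 102329) (.g (nat_lit 2883) (.e (nat_lit 3308) (nat_lit 202) (.e (nat_lit 573482) (nat_lit 13) (.e (nat_lit 65619) (nat_lit 10) (.e (nat_lit 344129) (nat_lit 26) (.e (nat_lit 557065) (nat_lit 9) (.e (nat_lit 309) (nat_lit 23) (.e (nat_lit 360192) (nat_lit 0) .nil))))))) (.g (nat_lit 5) .nil .nil))))) (.nd (nat_lit 3) (.nd (nat_lit 4) 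
(.lf (nat_lit 102309) (.g (nat_lit 2407) (.e (nat_lit 3308) (nat_lit 202) (.e (nat_lit 573482) (nat_lit 13) (.e (nat_lit 65619) (nat_lit 10) (.e (nat_lit 344126) (nat_lit 25) (.e (nat_lit 548872) (nat_lit 5) (.e (nat_lit 1553) (nat_lit 110) (.e (nat_lit 360192) (nat_lit 0) .nil))))))) (.g (nat_lit 5) .nil .nil))) 
(.lf (nat_lit 102325) (.g (nat_lit 2169) (.e (nat_lit 3308) (nat_lit 202) (.e (nat_lit 573482) (nat_lit 13) (.e (nat_lit 65619) (nat_lit 10) (.e (nat_lit 344129) (nat_lit 26) (.e (nat_lit 557065) (nat_lit 9) (.e (nat_lit 249) (nat_lit 21) (.e (nat_lit 336078) (nat_lit 9) (.e (nat_lit 336306) (nat_lit 15) .nil)))))))) (.g (nat_lit 4) .nil .nil)))) (.nd (nat_lit 4) 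
(.lf (nat_lit 102317) (.g (nat_lit 2594) (.e (nat_lit 3308) (nat_lit 202) (.e (nat_lit 573482) (nat_lit 13) (.e (nat_lit 65619) (nat_lit 10) (.e (nat_lit 344126) (nat_lit 25) (.e (nat_lit 548873) (nat_lit 5) (.e (nat_lit 1576) (nat_lit 110) (.e (nat_lit 360192) (nat_lit 0) .nil))))))) (.g (nat_lit 5) .nil .nil))) 
(.lf (nat_lit 102333) (.g (nat_lit 2020) (.e (nat_lit 3308) (nat_lit 202) (.e (nat_lit 573482) (nat_lit 13) (.e (nat_lit 65619) (nat_lit 10) (.e (nat_lit 344129) (nat_lit 26) (.e (nat_lit 557066) (nat_lit 9) (.e (nat_lit 245) (nat_lit 21) (.e (nat_lit 336084) (nat_lit 9) (.e (nat_lit 336306) (nat_lit 15) .nil)))))))) (.g (nat_lit 4) .nil .nil)))))) 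
(.nd (nat_lit 2) (.nd (nat_lit 3) (.nd (nat_lit 4) 
(.lf (nat_lit 102307) (.g (nat_lit 2034) (.e (nat_lit 3308) (nat_lit 202) (.e (nat_lit 573482) (nat_lit 13) (.e (nat_lit 65619) (nat_lit 10) (.e (nat_lit 344117) (nat_lit 21) (.e (nat_lit 516147) (nat_lit 9) .nil))))) .nil)) 
(.lf (nat_lit 102323) (.g (nat_lit 3229) (.e (nat_lit 3308) (nat_lit 202) (.e (nat_lit 573482) (nat_lit 13) (.e (nat_lit 65619) (nat_lit 10) (.e (nat_lit 344126) (nat_lit 25) (.e (nat_lit 548874) (nat_lit 5) (.e (nat_lit 1576) (nat_lit 110) (.e (nat_lit 360192) (nat_lit 0) .nil))))))) (.g (nat_lit 5) .nil .nil)))) (.nd (nat_lit 4) 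
(.lf (nat_lit 102315) (.g (nat_lit 2894) (.e (nat_lit 3308) (nat_lit 202) (.e (nat_lit 573482) (nat_lit 13) (.e (nat_lit 65619) (nat_lit 10) (.e (nat_lit 344126) (nat_lit 25) (.e (nat_lit 548873) (nat_lit 5) (.e (nat_lit 1572) (nat_lit 110) (.e (nat_lit 360192) (nat_lit 0) .nil))))))) (.g (nat_lit 6) .nil .nil))) 
(.lf (nat_lit 102331) (.g (nat_lit 4344) (.e (nat_lit 3308) (nat_lit 202) (.e (nat_lit 573482) (nat_lit 13) (.e (nat_lit 65619) (nat_lit 10) (.e (nat_lit 344129) (nat_lit 26) (.e (nat_lit 557066) (nat_lit 9) (.e (nat_lit 232) (nat_lit 21) (.e (nat_lit 336089) (nat_lit 9) (.e (nat_lit 336261) (nat_lit 15) .nil)))))))) (.g (nat_lit 8) .nil .nil))))) (.nd (nat_lit 3) (.nd (nat_lit 4) 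
(.lf (nat_lit 102311) (.g (nat_lit 2808) (.e (nat_lit 3308) (nat_lit 202) (.e (nat_lit 573482) (nat_lit 13) (.e (nat_lit 65619) (nat_lit 10) (.e (nat_lit 344126) (nat_lit 25) (.e (nat_lit 548872) (nat_lit 5) (.e (nat_lit 1575) (nat_lit 110) (.e (nat_lit 360192) (nat_lit 0) .nil))))))) (.g (nat_lit 6) .nil .nil))) 
(.lf (nat_lit 102327) (.g (nat_lit 2158) (.e (nat_lit 3308) (nat_lit 202) (.e (nat_lit 573482) (nat_lit 13) (.e (nat_lit 65619) (nat_lit 10) (.e (nat_lit 344129) (nat_lit 26) (.e (nat_lit 557065) (nat_lit 9) (.e (nat_lit 249) (nat_lit 21) (.e (nat_lit 336086) (nat_lit 9) (.e (nat_lit 336306) (nat_lit 15) .nil)))))))) (.g (nat_lit 4) .nil .nil)))) (.nd (nat_lit 4) 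
(.lf (nat_lit 102319) (.g (nat_lit 2076) (.e (nat_lit 3308) (nat_lit 202) (.e (nat_lit 573482) (nat_lit 13) (.e (nat_lit 65619) (nat_lit 10) (.e (nat_lit 344126) (nat_lit 25) (.e (nat_lit 548874) (nat_lit 5) (.e (nat_lit 1562) (nat_lit 110) (.e (nat_lit 360192) (nat_lit 0) .nil))))))) (.g (nat_lit 4) .nil .nil))) 
(.lf (nat_lit 102335) (.g (nat_lit 3126) (.e (nat_lit 3308) (nat_lit 202) (.e (nat_lit 573482) (nat_lit 13) (.e (nat_lit 65619) (nat_lit 10) (.e (nat_lit 344129) (nat_lit 26) (.e (nat_lit 557066) (nat_lit 9) (.e (nat_lit 309) (nat_lit 23) (.e (nat_lit 360192) (nat_lit 0) .nil))))))) (.g (nat_lit 6) .nil .nil))))))))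

noncomputable def tv1395 : DT := (.nd (nat_lit 0) (.nd (nat_lit 1) (.nd (nat_lit 2) (.nd (nat_lit 3) (.nd (nat_lit 4) (.nd (nat_lit 5) 
(.lf (nat_lit 102336) (.g (nat_lit 3483) (.e (nat_lit 3308) (nat_lit 202) (.e (nat_lit 573482) (nat_lit 13) (.e (nat_lit 65619) (nat_lit 10) (.e (nat_lit 344129) (nat_lit 26) (.e (nat_lit 557066) (nat_lit 9) (.e (nat_lit 310) (nat_lit 23) (.e (nat_lit 360192) (nat_lit 0) .nil))))))) (.g (nat_lit 6) .nil .nil))) 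
(.lf (nat_lit 102368) (.g (nat_lit 1641) (.e (nat_lit 3308) (nat_lit 202) (.e (nat_lit 573491) (nat_lit 15) (.e (nat_lit 81946) (nat_lit 20) (.e (nat_lit 1841) (nat_lit 123) (.e (nat_lit 548874) (nat_lit 5) (.e (nat_lit 1575) (nat_lit 110) (.e (nat_lit 360192) (nat_lit 0) .nil))))))) (.g (nat_lit 4) .nil .nil)))) (.nd (nat_lit 5) 
(.lf (nat_lit 102352) (.g (nat_lit 3521) (.e (nat_lit 3308) (nat_lit 202) (.e (nat_lit 573489) (nat_lit 14) (.e (nat_lit 73755) (nat_lit 8) (.e (nat_lit 557098) (nat_lit 13) (.e (nat_lit 172133) (nat_lit 15) (.e (nat_lit 1800) (nat_lit 119) (.e (nat_lit 516120) (nat_lit 1) (.e (nat_lit 164330) (nat_lit 230) (.e (nat_lit 163853) (nat_lit 0) .nil))))))))) (.g (nat_lit 4) .nil .nil))) 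
(.lf (nat_lit 102384) (.g (nat_lit 2703) (.e (nat_lit 3308) (nat_lit 202) (.e (nat_lit 573491) (nat_lit 15) (.e (nat_lit 81954) (nat_lit 23) (.e (nat_lit 98384) (nat_lit 32) (.e (nat_lit 475207) (nat_lit 41) .nil))))) .nil)))) (.nd (nat_lit 4) (.nd (nat_lit 5) 
(.lf (nat_lit 102344) (.g (nat_lit 2860) (.e (nat_lit 3308) (nat_lit 202) (.e (nat_lit 573482) (nat_lit 13) (.e (nat_lit 65619) (nat_lit 10) (.e (nat_lit 344129) (nat_lit 26) (.e (nat_lit 557074) (nat_lit 9) (.e (nat_lit 284) (nat_lit 21) (.e (nat_lit 336087) (nat_lit 9) (.e (nat_lit 336306) (nat_lit 15) .nil)))))))) (.g (nat_lit 5) .nil .nil))) 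
(.lf (nat_lit 102376) (.g (nat_lit 2021) (.e (nat_lit 3308) (nat_lit 202) (.e (nat_lit 573491) (nat_lit 15) (.e (nat_lit 81947) (nat_lit 20) (.e (nat_lit 1842) (nat_lit 123) (.e (nat_lit 548873) (nat_lit 5) (.e (nat_lit 1575) (nat_lit 110) (.e (nat_lit 360192) (nat_lit 0) .nil))))))) (.g (nat_lit 6) .nil .nil)))) (.nd (nat_lit 5) 
(.lf (nat_lit 102360) (.g (nat_lit 1646) (.e (nat_lit 3308) (nat_lit 202) (.e (nat_lit 573491) (nat_lit 15) (.e (nat_lit 81943) (nat_lit 20) (.e (nat_lit 1842) (nat_lit 123) (.e (nat_lit 548873) (nat_lit 5) (.e (nat_lit 1559) (nat_lit 110) (.e (nat_lit 360192) (nat_lit 0) .nil))))))) (.g (nat_lit 6) .nil .nil))) 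
(.lf (nat_lit 102392) (.g (nat_lit 4262) (.e (nat_lit 3308) (nat_lit 202) (.e (nat_lit 573493) (nat_lit 15) (.e (nat_lit 81951) (nat_lit 22) (.e (nat_lit 90165) (nat_lit 12) (.e (nat_lit 164238) (nat_lit 187) (.e (nat_lit 1427) (nat_lit 108) (.e (nat_lit 336306) (nat_lit 15) .nil))))))) (.g (nat_lit 6) .nil .nil)))))) (.nd (nat_lit 3) (.nd (nat_lit 4) (.nd (nat_lit 5) 
(.lf (nat_lit 102340) (.g (nat_lit 3219) (.e (nat_lit 3308) (nat_lit 202) (.e (nat_lit 573482) (nat_lit 13) (.e (nat_lit 65619) (nat_lit 10) (.e (nat_lit 344129) (nat_lit 26) (.e (nat_lit 557074) (nat_lit 9) (.e (nat_lit 278) (nat_lit 21) (.e (nat_lit 336154) (nat_lit 9) (.e (nat_lit 336305) (nat_lit 15) .nil)))))))) (.g (nat_lit 5) .nil .nil))) 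
(.lf (nat_lit 102372) (.g (nat_lit 1963) (.e (nat_lit 3308) (nat_lit 202) (.e (nat_lit 573491) (nat_lit 15) (.e (nat_lit 81946) (nat_lit 20) (.e (nat_lit 1842) (nat_lit 123) (.e (nat_lit 548874) (nat_lit 5) (.e (nat_lit 1575) (nat_lit 110) (.e (nat_lit 360192) (nat_lit 0) .nil))))))) (.g (nat_lit 4) .nil .nil)))) (.nd (nat_lit 5) 
(.lf (nat_lit 102356) (.g (nat_lit 1599) (.e (nat_lit 3308) (nat_lit 202) (.e (nat_lit 573491) (nat_lit 15) (.e (nat_lit 81943) (nat_lit 20) (.e (nat_lit 1841) (nat_lit 123) (.e (nat_lit 548874) (nat_lit 5) (.e (nat_lit 1559) (nat_lit 110) (.e (nat_lit 360192) (nat_lit 0) .nil))))))) (.g (nat_lit 6) .nil .nil))) 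
(.lf (nat_lit 102388) (.g (nat_lit 2168) (.e (nat_lit 3308) (nat_lit 202) (.e (nat_lit 573491) (nat_lit 15) (.e (nat_lit 81956) (nat_lit 23) (.e (nat_lit 98388) (nat_lit 33) .nil)))) .nil)))) (.nd (nat_lit 4) (.nd (nat_lit 5) 
(.lf (nat_lit 102348) (.g (nat_lit 2402) (.e (nat_lit 3308) (nat_lit 202) (.e (nat_lit 573489) (nat_lit 14) (.e (nat_lit 73755) (nat_lit 8) (.e (nat_lit 557089) (nat_lit 12) .nil)))) .nil)) 
(.lf (nat_lit 102380) (.g (nat_lit 2455) (.e (nat_lit 3308) (nat_lit 202) (.e (nat_lit 573491) (nat_lit 15) (.e (nat_lit 81947) (nat_lit 20) (.e (nat_lit 1842) (nat_lit 123) (.e (nat_lit 548874) (nat_lit 5) (.e (nat_lit 1575) (nat_lit 110) (.e (nat_lit 360192) (nat_lit 0) .nil))))))) (.g (nat_lit 6) .nil .nil)))) (.nd (nat_lit 5) 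
(.lf (nat_lit 102364) (.g (nat_lit 1732) (.e (nat_lit 3308) (nat_lit 202) (.e (nat_lit 573491) (nat_lit 15) (.e (nat_lit 81943) (nat_lit 20) (.e (nat_lit 1842) (nat_lit 123) (.e (nat_lit 548874) (nat_lit 5) (.e (nat_lit 1562) (nat_lit 110) (.e (nat_lit 360192) (nat_lit 0) .nil))))))) (.g (nat_lit 6) .nil .nil))) 
(.lf (nat_lit 102396) (.g (nat_lit 3983) (.e (nat_lit 3308) (nat_lit 202) (.e (nat_lit 573493) (nat_lit 15) (.e (nat_lit 81953) (nat_lit 22) (.e (nat_lit 90121) (nat_lit 9) .nil)))) .nil)))))) (.nd (nat_lit 2) (.nd (nat_lit 3) (.nd (nat_lit 4) (.nd (nat_lit 5) 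
(.lf (nat_lit 102338) (.g (nat_lit 3276) (.e (nat_lit 3308) (nat_lit 202) (.e (nat_lit 573482) (nat_lit 13) (.e (nat_lit 65619) (nat_lit 10) (.e (nat_lit 344129) (nat_lit 26) (.e (nat_lit 557074) (nat_lit 9) (.e (nat_lit 250) (nat_lit 21) (.e (nat_lit 336086) (nat_lit 9) (.e (nat_lit 336306) (nat_lit 15) .nil)))))))) (.g (nat_lit 5) .nil .nil))) 
(.lf (nat_lit 102370) (.g (nat_lit 1729) (.e (nat_lit 3308) (nat_lit 202) (.e (nat_lit 573491) (nat_lit 15) (.e (nat_lit 81946) (nat_lit 20) (.e (nat_lit 1842) (nat_lit 123) (.e (nat_lit 548874) (nat_lit 5) (.e (nat_lit 1562) (nat_lit 110) (.e (nat_lit 360192) (nat_lit 0) .nil))))))) (.g (nat_lit 4) .nil .nil)))) (.nd (nat_lit 5) 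
(.lf (nat_lit 102354) (.g (nat_lit 2028) (.e (nat_lit 3308) (nat_lit 202) (.e (nat_lit 573491) (nat_lit 15) (.e (nat_lit 81943) (nat_lit 20) (.e (nat_lit 1840) (nat_lit 123) (.e (nat_lit 548874) (nat_lit 5) (.e (nat_lit 1572) (nat_lit 110) (.e (nat_lit 360192) (nat_lit 0) .nil))))))) (.g (nat_lit 6) .nil .nil))) 
(.lf (nat_lit 102386) (.g (nat_lit 2259) (.e (nat_lit 3308) (nat_lit 202) (.e (nat_lit 573491) (nat_lit 15) (.e (nat_lit 81954) (nat_lit 23) (.e (nat_lit 98386) (nat_lit 32) (.e (nat_lit 475209) (nat_lit 41) .nil))))) .nil)))) (.nd (nat_lit 4) (.nd (nat_lit 5) 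
(.lf (nat_lit 102346) (.g (nat_lit 2559) (.e (nat_lit 3308) (nat_lit 202) (.e (nat_lit 573482) (nat_lit 13) (.e (nat_lit 65619) (nat_lit 10) (.e (nat_lit 344129) (nat_lit 26) (.e (nat_lit 557074) (nat_lit 9) (.e (nat_lit 7936) (nat_lit 26) (.e (nat_lit 384768) (nat_lit 0) .nil))))))) (.g (nat_lit 5) .nil .nil))) 
(.lf (nat_lit 102378) (.g (nat_lit 1850) (.e (nat_lit 3308) (nat_lit 202) (.e (nat_lit 573491) (nat_lit 15) (.e (nat_lit 81947) (nat_lit 20) (.e (nat_lit 1842) (nat_lit 123) (.e (nat_lit 548874) (nat_lit 5) (.e (nat_lit 1562) (nat_lit 110) (.e (nat_lit 360192) (nat_lit 0) .nil))))))) (.g (nat_lit 5) .nil .nil)))) (.nd (nat_lit 5) 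
(.lf (nat_lit 102362) (.g (nat_lit 1670) (.e (nat_lit 3308) (nat_lit 202) (.e (nat_lit 573491) (nat_lit 15) (.e (nat_lit 81943) (nat_lit 20) (.e (nat_lit 1842) (nat_lit 123) (.e (nat_lit 548873) (nat_lit 5) (.e (nat_lit 1575) (nat_lit 110) (.e (nat_lit 360192) (nat_lit 0) .nil))))))) (.g (nat_lit 6) .nil .nil))) 
(.lf (nat_lit 102394) (.g (nat_lit 2948) (.e (nat_lit 3308) (nat_lit 202) (.e (nat_lit 573493) (nat_lit 15) (.e (nat_lit 81951) (nat_lit 22) (.e (nat_lit 90165) (nat_lit 12) (.e (nat_lit 164239) (nat_lit 187) (.e (nat_lit 1426) (nat_lit 108) (.e (nat_lit 336306) (nat_lit 15) .nil))))))) (.g (nat_lit 4) .nil .nil)))))) (.nd (nat_lit 3) (.nd (nat_lit 4) (.nd (nat_lit 5) 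
(.lf (nat_lit 102342) (.g (nat_lit 2355) (.e (nat_lit 3308) (nat_lit 202) (.e (nat_lit 573482) (nat_lit 13) (.e (nat_lit 65619) (nat_lit 10) (.e (nat_lit 344129) (nat_lit 26) (.e (nat_lit 557074) (nat_lit 9) (.e (nat_lit 284) (nat_lit 21) (.e (nat_lit 336076) (nat_lit 9) (.e (nat_lit 336257) (nat_lit 15) .nil)))))))) (.g (nat_lit 4) .nil .nil))) 
(.lf (nat_lit 102374) (.g (nat_lit 1993) (.e (nat_lit 3308) (nat_lit 202) (.e (nat_lit 573491) (nat_lit 15) (.e (nat_lit 81947) (nat_lit 20) (.e (nat_lit 1842) (nat_lit 123) (.e (nat_lit 548873) (nat_lit 5) (.e (nat_lit 1559) (nat_lit 110) (.e (nat_lit 360192) (nat_lit 0) .nil))))))) (.g (nat_lit 6) .nil .nil)))) (.nd (nat_lit 5) 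
(.lf (nat_lit 102358) (.g (nat_lit 1698) (.e (nat_lit 3308) (nat_lit 202) (.e (nat_lit 573491) (nat_lit 15) (.e (nat_lit 81943) (nat_lit 20) (.e (nat_lit 1841) (nat_lit 123) (.e (nat_lit 548874) (nat_lit 5) (.e (nat_lit 1575) (nat_lit 110) (.e (nat_lit 360192) (nat_lit 0) .nil))))))) (.g (nat_lit 6) .nil .nil))) 
(.lf (nat_lit 102390) (.g (nat_lit 1696) (.e (nat_lit 3308) (nat_lit 202) (.e (nat_lit 573492) (nat_lit 15) (.e (nat_lit 81956) (nat_lit 23) (.e (nat_lit 98388) (nat_lit 33) .nil)))) .nil)))) (.nd (nat_lit 4) (.nd (nat_lit 5) 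
(.lf (nat_lit 102350) (.g (nat_lit 2553) (.e (nat_lit 3308) (nat_lit 202) (.e (nat_lit 573489) (nat_lit 14) (.e (nat_lit 73755) (nat_lit 8) (.e (nat_lit 557096) (nat_lit 13) (.e (nat_lit 172133) (nat_lit 15) (.e (nat_lit 1800) (nat_lit 119) (.e (nat_lit 516120) (nat_lit 1) (.e (nat_lit 164330) (nat_lit 230) (.e (nat_lit 163853) (nat_lit 0) .nil))))))))) (.g (nat_lit 4) .nil .nil))) 
(.lf (nat_lit 102382) (.g (nat_lit 2174) (.e (nat_lit 3308) (nat_lit 202) (.e (nat_lit 573491) (nat_lit 15) (.e (nat_lit 81951) (nat_lit 22) (.e (nat_lit 90165) (nat_lit 12) (.e (nat_lit 164236) (nat_lit 187) (.e (nat_lit 1516) (nat_lit 108) (.e (nat_lit 343808) (nat_lit 15) .nil))))))) (.g (nat_lit 6) .nil .nil)))) (.nd (nat_lit 5) 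
(.lf (nat_lit 102366) (.g (nat_lit 2045) (.e (nat_lit 3308) (nat_lit 202) (.e (nat_lit 573491) (nat_lit 15) (.e (nat_lit 81943) (nat_lit 20) (.e (nat_lit 1842) (nat_lit 123) (.e (nat_lit 548874) (nat_lit 5) (.e (nat_lit 1575) (nat_lit 110) (.e (nat_lit 360192) (nat_lit 0) .nil))))))) (.g (nat_lit 6) .nil .nil))) 
(.lf (nat_lit 102398) (.g (nat_lit 1568) (.e (nat_lit 3308) (nat_lit 202) (.e (nat_lit 573493) (nat_lit 15) (.e (nat_lit 81953) (nat_lit 22) (.e (nat_lit 90134) (nat_lit 9) .nil)))) .nil))))))) (.nd (nat_lit 1) (.nd (nat_lit 2) (.nd (nat_lit 3) (.nd (nat_lit 4) (.nd (nat_lit 5) 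
(.lf (nat_lit 102337) (.g (nat_lit 3241) (.e (nat_lit 3308) (nat_lit 202) (.e (nat_lit 573482) (nat_lit 13) (.e (nat_lit 65619) (nat_lit 10) (.e (nat_lit 344129) (nat_lit 26) (.e (nat_lit 557066) (nat_lit 9) (.e (nat_lit 312) (nat_lit 23) (.e (nat_lit 360192) (nat_lit 0) .nil))))))) (.g (nat_lit 6) .nil .nil))) 
(.lf (nat_lit 102369) (.g (nat_lit 1954) (.e (nat_lit 3308) (nat_lit 202) (.e (nat_lit 573491) (nat_lit 15) (.e (nat_lit 81946) (nat_lit 20) (.e (nat_lit 1842) (nat_lit 123) (.e (nat_lit 548874) (nat_lit 5) (.e (nat_lit 1559) (nat_lit 110) (.e (nat_lit 360192) (nat_lit 0) .nil))))))) (.g (nat_lit 4) .nil .nil)))) (.nd (nat_lit 5) 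
(.lf (nat_lit 102353) (.g (nat_lit 1607) (.e (nat_lit 3308) (nat_lit 202) (.e (nat_lit 573491) (nat_lit 15) (.e (nat_lit 81943) (nat_lit 20) (.e (nat_lit 1840) (nat_lit 123) (.e (nat_lit 548874) (nat_lit 5) (.e (nat_lit 1559) (nat_lit 110) (.e (nat_lit 360192) (nat_lit 0) .nil))))))) (.g (nat_lit 6) .nil .nil))) 
(.lf (nat_lit 102385) (.g (nat_lit 1137) (.e (nat_lit 3308) (nat_lit 202) (.e (nat_lit 573491) (nat_lit 15) (.e (nat_lit 81954) (nat_lit 23) (.e (nat_lit 98385) (nat_lit 32) .nil)))) .nil)))) (.nd (nat_lit 4) (.nd (nat_lit 5) 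
(.lf (nat_lit 102345) (.g (nat_lit 2580) (.e (nat_lit 3308) (nat_lit 202) (.e (nat_lit 573482) (nat_lit 13) (.e (nat_lit 65619) (nat_lit 10) (.e (nat_lit 344129) (nat_lit 26) (.e (nat_lit 557074) (nat_lit 9) (.e (nat_lit 7936) (nat_lit 23) (.e (nat_lit 360192) (nat_lit 0) .nil))))))) (.g (nat_lit 5) .nil .nil))) 
(.lf (nat_lit 102377) (.g (nat_lit 2332) (.e (nat_lit 3308) (nat_lit 202) (.e (nat_lit 573491) (nat_lit 15) (.e (nat_lit 81947) (nat_lit 20) (.e (nat_lit 1842) (nat_lit 123) (.e (nat_lit 548874) (nat_lit 5) (.e (nat_lit 1559) (nat_lit 110) (.e (nat_lit 360192) (nat_lit 0) .nil))))))) (.g (nat_lit 6) .nil .nil)))) (.nd (nat_lit 5) 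
(.lf (nat_lit 102361) (.g (nat_lit 1892) (.e (nat_lit 3308) (nat_lit 202) (.e (nat_lit 573491) (nat_lit 15) (.e (nat_lit 81943) (nat_lit 20) (.e (nat_lit 1842) (nat_lit 123) (.e (nat_lit 548873) (nat_lit 5) (.e (nat_lit 1572) (nat_lit 110) (.e (nat_lit 360192) (nat_lit 0) .nil))))))) (.g (nat_lit 6) .nil .nil))) 
(.lf (nat_lit 102393) (.g (nat_lit 3438) (.e (nat_lit 3308) (nat_lit 202) (.e (nat_lit 573493) (nat_lit 15) (.e (nat_lit 81951) (nat_lit 22) (.e (nat_lit 90165) (nat_lit 12) (.e (nat_lit 164238) (nat_lit 187) (.e (nat_lit 1428) (nat_lit 108) (.e (nat_lit 336306) (nat_lit 15) .nil))))))) (.g (nat_lit 5) .nil .nil)))))) (.nd (nat_lit 3) (.nd (nat_lit 4) (.nd (nat_lit 5) 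
(.lf (nat_lit 102341) (.g (nat_lit 2852) (.e (nat_lit 3308) (nat_lit 202) (.e (nat_lit 573482) (nat_lit 13) (.e (nat_lit 65619) (nat_lit 10) (.e (nat_lit 344129) (nat_lit 26) (.e (nat_lit 557074) (nat_lit 9) (.e (nat_lit 284) (nat_lit 21) (.e (nat_lit 336074) (nat_lit 9) (.e (nat_lit 336306) (nat_lit 15) .nil)))))))) (.g (nat_lit 5) .nil .nil))) 
(.lf (nat_lit 102373) (.g (nat_lit 1590) (.e (nat_lit 3308) (nat_lit 202) (.e (nat_lit 573491) (nat_lit 15) (.e (nat_lit 81947) (nat_lit 20) (.e (nat_lit 1842) (nat_lit 123) (.e (nat_lit 548872) (nat_lit 5) (.e (nat_lit 1575) (nat_lit 110) (.e (nat_lit 360192) (nat_lit 0) .nil))))))) (.g (nat_lit 4) .nil .nil)))) (.nd (nat_lit 5) 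
(.lf (nat_lit 102357) (.g (nat_lit 2033) (.e (nat_lit 3308) (nat_lit 202) (.e (nat_lit 573491) (nat_lit 15) (.e (nat_lit 81943) (nat_lit 20) (.e (nat_lit 1841) (nat_lit 123) (.e (nat_lit 548874) (nat_lit 5) (.e (nat_lit 1572) (nat_lit 110) (.e (nat_lit 360192) (nat_lit 0) .nil))))))) (.g (nat_lit 6) .nil .nil))) 
(.lf (nat_lit 102389) (.g (nat_lit 1918) (.e (nat_lit 3308) (nat_lit 202) (.e (nat_lit 573491) (nat_lit 15) (.e (nat_lit 81956) (nat_lit 23) (.e (nat_lit 98389) (nat_lit 33) .nil)))) .nil)))) (.nd (nat_lit 4) (.nd (nat_lit 5) 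
(.lf (nat_lit 102349) (.g (nat_lit 2013) (.e (nat_lit 3308) (nat_lit 202) (.e (nat_lit 573489) (nat_lit 14) (.e (nat_lit 73755) (nat_lit 8) (.e (nat_lit 557090) (nat_lit 12) .nil)))) .nil)) 
(.lf (nat_lit 102381) (.g (nat_lit 1441) (.e (nat_lit 3308) (nat_lit 202) (.e (nat_lit 573491) (nat_lit 15) (.e (nat_lit 81951) (nat_lit 22) (.e (nat_lit 90165) (nat_lit 12) (.e (nat_lit 164207) (nat_lit 176) .nil))))) .nil))) (.nd (nat_lit 5) 
(.lf (nat_lit 102365) (.g (nat_lit 2439) (.e (nat_lit 3308) (nat_lit 202) (.e (nat_lit 573491) (nat_lit 15) (.e (nat_lit 81943) (nat_lit 20) (.e (nat_lit 1842) (nat_lit 123) (.e (nat_lit 548874) (nat_lit 5) (.e (nat_lit 1572) (nat_lit 110) (.e (nat_lit 360192) (nat_lit 0) .nil))))))) (.g (nat_lit 6) .nil .nil))) 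
(.lf (nat_lit 102397) (.g (nat_lit 4912) (.e (nat_lit 3308) (nat_lit 202) (.e (nat_lit 573493) (nat_lit 15) (.e (nat_lit 81953) (nat_lit 22) (.e (nat_lit 90122) (nat_lit 9) .nil)))) .nil)))))) (.nd (nat_lit 2) (.nd (nat_lit 3) (.nd (nat_lit 4) (.nd (nat_lit 5) 
(.lf (nat_lit 102339) (.g (nat_lit 2178) (.e (nat_lit 3308) (nat_lit 202) (.e (nat_lit 573482) (nat_lit 13) (.e (nat_lit 65619) (nat_lit 10) (.e (nat_lit 344129) (nat_lit 26) (.e (nat_lit 557074) (nat_lit 9) (.e (nat_lit 278) (nat_lit 21) (.e (nat_lit 336153) (nat_lit 9) (.e (nat_lit 336305) (nat_lit 15) .nil)))))))) (.g (nat_lit 4) .nil .nil))) 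
(.lf (nat_lit 102371) (.g (nat_lit 2560) (.e (nat_lit 3308) (nat_lit 202) (.e (nat_lit 573491) (nat_lit 15) (.e (nat_lit 81946) (nat_lit 20) (.e (nat_lit 1842) (nat_lit 123) (.e (nat_lit 548874) (nat_lit 5) (.e (nat_lit 1572) (nat_lit 110) (.e (nat_lit 360192) (nat_lit 0) .nil))))))) (.g (nat_lit 5) .nil .nil)))) (.nd (nat_lit 5) 
(.lf (nat_lit 102355) (.g (nat_lit 1620) (.e (nat_lit 3308) (nat_lit 202) (.e (nat_lit 573491) (nat_lit 15) (.e (nat_lit 81943) (nat_lit 20) (.e (nat_lit 1840) (nat_lit 123) (.e (nat_lit 548874) (nat_lit 5) (.e (nat_lit 1575) (nat_lit 110) (.e (nat_lit 360192) (nat_lit 0) .nil))))))) (.g (nat_lit 6) .nil .nil))) 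
(.lf (nat_lit 102387) (.g (nat_lit 2005) (.e (nat_lit 3308) (nat_lit 202) (.e (nat_lit 573491) (nat_lit 15) (.e (nat_lit 81956) (nat_lit 23) (.e (nat_lit 98325) (nat_lit 17) (.e (nat_lit 6986) (nat_lit 377) .nil))))) .nil)))) (.nd (nat_lit 4) (.nd (nat_lit 5) 
(.lf (nat_lit 102347) (.g (nat_lit 3610) (.e (nat_lit 3308) (nat_lit 202) (.e (nat_lit 573482) (nat_lit 13) (.e (nat_lit 65619) (nat_lit 10) (.e (nat_lit 344129) (nat_lit 26) (.e (nat_lit 557084) (nat_lit 10) (.e (nat_lit 8568) (nat_lit 250) (.e (nat_lit 1428) (nat_lit 108) (.e (nat_lit 336306) (nat_lit 15) .nil)))))))) (.g (nat_lit 5) .nil .nil))) 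
(.lf (nat_lit 102379) (.g (nat_lit 2661) (.e (nat_lit 3308) (nat_lit 202) (.e (nat_lit 573491) (nat_lit 15) (.e (nat_lit 81947) (nat_lit 20) (.e (nat_lit 1842) (nat_lit 123) (.e (nat_lit 548874) (nat_lit 5) (.e (nat_lit 1572) (nat_lit 110) (.e (nat_lit 360192) (nat_lit 0) .nil))))))) (.g (nat_lit 6) .nil .nil)))) (.nd (nat_lit 5) 
(.lf (nat_lit 102363) (.g (nat_lit 2020) (.e (nat_lit 3308) (nat_lit 202) (.e (nat_lit 573491) (nat_lit 15) (.e (nat_lit 81943) (nat_lit 20) (.e (nat_lit 1842) (nat_lit 123) (.e (nat_lit 548874) (nat_lit 5) (.e (nat_lit 1559) (nat_lit 110) (.e (nat_lit 360192) (nat_lit 0) .nil))))))) (.g (nat_lit 6) .nil .nil))) 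
(.lf (nat_lit 102395) (.g (nat_lit 3017) (.e (nat_lit 3308) (nat_lit 202) (.e (nat_lit 573493) (nat_lit 15) (.e (nat_lit 81951) (nat_lit 22) (.e (nat_lit 90165) (nat_lit 12) (.e (nat_lit 164239) (nat_lit 187) (.e (nat_lit 1428) (nat_lit 108) (.e (nat_lit 336306) (nat_lit 15) .nil))))))) (.g (nat_lit 4) .nil .nil)))))) (.nd (nat_lit 3) (.nd (nat_lit 4) (.nd (nat_lit 5) 
(.lf (nat_lit 102343) (.g (nat_lit 4806) (.e (nat_lit 3308) (nat_lit 202) (.e (nat_lit 573482) (nat_lit 13) (.e (nat_lit 65619) (nat_lit 10) (.e (nat_lit 344129) (nat_lit 26) (.e (nat_lit 557074) (nat_lit 9) (.e (nat_lit 284) (nat_lit 21) (.e (nat_lit 336078) (nat_lit 9) (.e (nat_lit 336306) (nat_lit 15) .nil)))))))) (.g (nat_lit 7) .nil .nil))) 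
(.lf (nat_lit 102375) (.g (nat_lit 2007) (.e (nat_lit 3308) (nat_lit 202) (.e (nat_lit 573491) (nat_lit 15) (.e (nat_lit 81947) (nat_lit 20) (.e (nat_lit 1842) (nat_lit 123) (.e (nat_lit 548873) (nat_lit 5) (.e (nat_lit 1572) (nat_lit 110) (.e (nat_lit 360192) (nat_lit 0) .nil))))))) (.g (nat_lit 6) .nil .nil)))) (.nd (nat_lit 5) 
(.lf (nat_lit 102359) (.g (nat_lit 1636) (.e (nat_lit 3308) (nat_lit 202) (.e (nat_lit 573491) (nat_lit 15) (.e (nat_lit 81943) (nat_lit 20) (.e (nat_lit 1842) (nat_lit 123) (.e (nat_lit 548872) (nat_lit 5) (.e (nat_lit 1575) (nat_lit 110) (.e (nat_lit 360192) (nat_lit 0) .nil))))))) (.g (nat_lit 6) .nil .nil))) 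
(.lf (nat_lit 102391) (.g (nat_lit 3070) (.e (nat_lit 3308) (nat_lit 202) (.e (nat_lit 573493) (nat_lit 15) (.e (nat_lit 81951) (nat_lit 22) (.e (nat_lit 90165) (nat_lit 12) (.e (nat_lit 164238) (nat_lit 187) (.e (nat_lit 1425) (nat_lit 108) (.e (nat_lit 336306) (nat_lit 15) .nil))))))) (.g (nat_lit 4) .nil .nil))))) (.nd (nat_lit 4) (.nd (nat_lit 5) 
(.lf (nat_lit 102351) (.g (nat_lit 3182) (.e (nat_lit 3308) (nat_lit 202) (.e (nat_lit 573489) (nat_lit 14) (.e (nat_lit 73755) (nat_lit 8) (.e (nat_lit 557098) (nat_lit 13) (.e (nat_lit 172133) (nat_lit 15) .nil))))) .nil)) 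
(.lf (nat_lit 102383) (.g (nat_lit 2028) (.e (nat_lit 3308) (nat_lit 202) (.e (nat_lit 573491) (nat_lit 15) (.e (nat_lit 81951) (nat_lit 22) (.e (nat_lit 90165) (nat_lit 12) (.e (nat_lit 164237) (nat_lit 187) (.e (nat_lit 1516) (nat_lit 108) (.e (nat_lit 343808) (nat_lit 15) .nil))))))) (.g (nat_lit 6) .nil .nil)))) (.nd (nat_lit 5) 
(.lf (nat_lit 102367) (.g (nat_lit 1553) (.e (nat_lit 3308) (nat_lit 202) (.e (nat_lit 573491) (nat_lit 15) (.e (nat_lit 81946) (nat_lit 20) (.e (nat_lit 1841) (nat_lit 123) (.e (nat_lit 548874) (nat_lit 5) (.e (nat_lit 1559) (nat_lit 110) (.e (nat_lit 360192) (nat_lit 0) .nil))))))) (.g (nat_lit 4) .nil .nil))) 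
(.lf (nat_lit 102399) (.g (nat_lit 5015) (.e (nat_lit 3308) (nat_lit 202) (.e (nat_lit 573493) (nat_lit 15) (.e (nat_lit 81953) (nat_lit 22) (.e (nat_lit 90135) (nat_lit 9) .nil)))) .nil))))))))

noncomputable def tv1396 : DT := (.nd (nat_lit 0) (.nd (nat_lit 1) (.nd (nat_lit 2) (.nd (nat_lit 3) (.nd (nat_lit 4) (.nd (nat_lit 5) 
(.lf (nat_lit 102400) (.g (nat_lit 2888) (.e (nat_lit 3308) (nat_lit 202) (.e (nat_lit 573493) (nat_lit 15) (.e (nat_lit 81953) (nat_lit 22) (.e (nat_lit 90165) (nat_lit 12) (.e (nat_lit 164236) (nat_lit 187) (.e (nat_lit 1516) (nat_lit 108) (.e (nat_lit 343808) (nat_lit 15) .nil))))))) (.g (nat_lit 6) .nil .nil))) 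
(.lf (nat_lit 102432) (.g (nat_lit 2862) (.e (nat_lit 3309) (nat_lit 202) (.e (nat_lit 573484) (nat_lit 13) (.e (nat_lit 65617) (nat_lit 10) (.e (nat_lit 344130) (nat_lit 26) (.e (nat_lit 557086) (nat_lit 11) (.e (nat_lit 24627) (nat_lit 9) (.e (nat_lit 336238) (nat_lit 15) .nil))))))) (.g (nat_lit 6) .nil .nil)))) (.nd (nat_lit 5) 
(.lf (nat_lit 102416) (.g (nat_lit 4676) (.e (nat_lit 3308) (nat_lit 202) (.e (nat_lit 573493) (nat_lit 15) (.e (nat_lit 81956) (nat_lit 23) (.e (nat_lit 98384) (nat_lit 32) (.e (nat_lit 475209) (nat_lit 41) .nil))))) .nil)) 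
(.lf (nat_lit 102448) (.g (nat_lit 4417) (.e (nat_lit 3309) (nat_lit 202) (.e (nat_lit 573484) (nat_lit 13) (.e (nat_lit 65617) (nat_lit 10) (.e (nat_lit 344130) (nat_lit 26) (.e (nat_lit 557087) (nat_lit 11) (.e (nat_lit 24628) (nat_lit 9) (.e (nat_lit 336240) (nat_lit 15) .nil))))))) (.g (nat_lit 6) .nil .nil))))) (.nd (nat_lit 4) (.nd (nat_lit 5) 
(.lf (nat_lit 102408) (.g (nat_lit 2209) (.e (nat_lit 3308) (nat_lit 202) (.e (nat_lit 573493) (nat_lit 15) (.e (nat_lit 81954) (nat_lit 23) (.e (nat_lit 98367) (nat_lit 27) .nil)))) .nil)) 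
(.lf (nat_lit 102440) (.g (nat_lit 4881) (.e (nat_lit 3309) (nat_lit 202) (.e (nat_lit 573484) (nat_lit 13) (.e (nat_lit 65617) (nat_lit 10) (.e (nat_lit 344130) (nat_lit 26) (.e (nat_lit 557087) (nat_lit 11) (.e (nat_lit 24625) (nat_lit 9) (.e (nat_lit 336238) (nat_lit 15) .nil))))))) (.g (nat_lit 6) .nil .nil)))) (.nd (nat_lit 5) 
(.lf (nat_lit 102424) (.g (nat_lit 2444) (.e (nat_lit 3309) (nat_lit 202) (.e (nat_lit 573484) (nat_lit 13) (.e (nat_lit 65610) (nat_lit 10) (.e (nat_lit 344129) (nat_lit 26) (.e (nat_lit 557086) (nat_lit 11) .nil))))) .nil)) 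
(.lf (nat_lit 102456) (.g (nat_lit 4849) (.e (nat_lit 3309) (nat_lit 202) (.e (nat_lit 573484) (nat_lit 13) (.e (nat_lit 65617) (nat_lit 10) (.e (nat_lit 344133) (nat_lit 26) (.e (nat_lit 557085) (nat_lit 11) (.e (nat_lit 24625) (nat_lit 9) (.e (nat_lit 336240) (nat_lit 15) .nil))))))) (.g (nat_lit 7) .nil .nil)))))) (.nd (nat_lit 3) (.nd (nat_lit 4) (.nd (nat_lit 5) 
(.lf (nat_lit 102404) (.g (nat_lit 3092) (.e (nat_lit 3308) (nat_lit 202) (.e (nat_lit 573493) (nat_lit 15) (.e (nat_lit 81953) (nat_lit 22) (.e (nat_lit 90165) (nat_lit 12) (.e (nat_lit 164239) (nat_lit 187) (.e (nat_lit 1425) (nat_lit 108) (.e (nat_lit 336306) (nat_lit 15) .nil))))))) (.g (nat_lit 0) .nil .nil))) 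
(.lf (nat_lit 102436) (.g (nat_lit 3152) (.e (nat_lit 3309) (nat_lit 202) (.e (nat_lit 573484) (nat_lit 13) (.e (nat_lit 65617) (nat_lit 10) (.e (nat_lit 344130) (nat_lit 26) (.e (nat_lit 557087) (nat_lit 11) (.e (nat_lit 24623) (nat_lit 9) (.e (nat_lit 336240) (nat_lit 15) .nil))))))) (.g (nat_lit 5) .nil .nil)))) (.nd (nat_lit 5) 
(.lf (nat_lit 102420) (.g (nat_lit 3614) (.e (nat_lit 3309) (nat_lit 202) (.e (nat_lit 573471) (nat_lit 11) (.e (nat_lit 16425) (nat_lit 7) (.e (nat_lit 409617) (nat_lit 10) .nil)))) .nil)) 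
(.lf (nat_lit 102452) (.g (nat_lit 3397) (.e (nat_lit 3309) (nat_lit 202) (.e (nat_lit 573484) (nat_lit 13) (.e (nat_lit 65617) (nat_lit 10) (.e (nat_lit 344130) (nat_lit 26) (.e (nat_lit 557087) (nat_lit 11) (.e (nat_lit 24636) (nat_lit 9) (.e (nat_lit 343808) (nat_lit 15) .nil))))))) (.g (nat_lit 6) .nil .nil))))) (.nd (nat_lit 4) (.nd (nat_lit 5) 
(.lf (nat_lit 102412) (.g (nat_lit 3409) (.e (nat_lit 3308) (nat_lit 202) (.e (nat_lit 573493) (nat_lit 15) (.e (nat_lit 81956) (nat_lit 23) (.e (nat_lit 98318) (nat_lit 17) (.e (nat_lit 6989) (nat_lit 377) .nil))))) .nil)) 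
(.lf (nat_lit 102444) (.g (nat_lit 4103) (.e (nat_lit 3309) (nat_lit 202) (.e (nat_lit 573484) (nat_lit 13) (.e (nat_lit 65617) (nat_lit 10) (.e (nat_lit 344130) (nat_lit 26) (.e (nat_lit 557087) (nat_lit 11) (.e (nat_lit 24626) (nat_lit 9) (.e (nat_lit 336240) (nat_lit 15) .nil))))))) (.g (nat_lit 7) .nil .nil)))) (.nd (nat_lit 5) 
(.lf (nat_lit 102428) (.g (nat_lit 4679) (.e (nat_lit 3309) (nat_lit 202) (.e (nat_lit 573484) (nat_lit 13) (.e (nat_lit 65617) (nat_lit 10) (.e (nat_lit 344130) (nat_lit 26) (.e (nat_lit 557085) (nat_lit 11) (.e (nat_lit 24628) (nat_lit 9) (.e (nat_lit 336240) (nat_lit 15) .nil))))))) (.g (nat_lit 0) .nil .nil))) 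
(.lf (nat_lit 102460) (.g (nat_lit 4580) (.e (nat_lit 3309) (nat_lit 202) (.e (nat_lit 573484) (nat_lit 13) (.e (nat_lit 65617) (nat_lit 10) (.e (nat_lit 344133) (nat_lit 26) (.e (nat_lit 557085) (nat_lit 11) (.e (nat_lit 24628) (nat_lit 9) (.e (nat_lit 336240) (nat_lit 15) .nil))))))) (.g (nat_lit 7) .nil .nil))))))) (.nd (nat_lit 2) (.nd (nat_lit 3) (.nd (nat_lit 4) (.nd (nat_lit 5) 
(.lf (nat_lit 102402) (.g (nat_lit 2759) (.e (nat_lit 3308) (nat_lit 202) (.e (nat_lit 573493) (nat_lit 15) (.e (nat_lit 81953) (nat_lit 22) (.e (nat_lit 90165) (nat_lit 12) (.e (nat_lit 164237) (nat_lit 187) (.e (nat_lit 1516) (nat_lit 108) (.e (nat_lit 343808) (nat_lit 15) .nil))))))) (.g (nat_lit 6) .nil .nil))) 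
(.lf (nat_lit 102434) (.g (nat_lit 4804) (.e (nat_lit 3309) (nat_lit 202) (.e (nat_lit 573484) (nat_lit 13) (.e (nat_lit 65617) (nat_lit 10) (.e (nat_lit 344130) (nat_lit 26) (.e (nat_lit 557086) (nat_lit 11) (.e (nat_lit 24628) (nat_lit 9) (.e (nat_lit 336240) (nat_lit 15) .nil))))))) (.g (nat_lit 7) .nil .nil)))) (.nd (nat_lit 5) 
(.lf (nat_lit 102418) (.g (nat_lit 1724) (.e (nat_lit 3309) (nat_lit 202) (.e (nat_lit 573450) (nat_lit 9) (.e (nat_lit 375) (nat_lit 32) (.e (nat_lit 426173) (nat_lit 7) .nil)))) .nil)) 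
(.lf (nat_lit 102450) (.g (nat_lit 4073) (.e (nat_lit 3309) (nat_lit 202) (.e (nat_lit 573484) (nat_lit 13) (.e (nat_lit 65617) (nat_lit 10) (.e (nat_lit 344130) (nat_lit 26) (.e (nat_lit 557087) (nat_lit 11) (.e (nat_lit 24630) (nat_lit 9) (.e (nat_lit 336240) (nat_lit 15) .nil))))))) (.g (nat_lit 5) .nil .nil))))) (.nd (nat_lit 4) (.nd (nat_lit 5) 
(.lf (nat_lit 102410) (.g (nat_lit 2172) (.e (nat_lit 3308) (nat_lit 202) (.e (nat_lit 573493) (nat_lit 15) (.e (nat_lit 81954) (nat_lit 23) (.e (nat_lit 98386) (nat_lit 32) .nil)))) .nil)) 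
(.lf (nat_lit 102442) (.g (nat_lit 3731) (.e (nat_lit 3309) (nat_lit 202) (.e (nat_lit 573484) (nat_lit 13) (.e (nat_lit 65617) (nat_lit 10) (.e (nat_lit 344130) (nat_lit 26) (.e (nat_lit 557087) (nat_lit 11) (.e (nat_lit 24625) (nat_lit 9) (.e (nat_lit 343808) (nat_lit 15) .nil))))))) (.g (nat_lit 6) .nil .nil)))) (.nd (nat_lit 5) 
(.lf (nat_lit 102426) (.g (nat_lit 2315) (.e (nat_lit 3309) (nat_lit 202) (.e (nat_lit 573484) (nat_lit 13) (.e (nat_lit 65617) (nat_lit 10) (.e (nat_lit 344127) (nat_lit 26) (.e (nat_lit 557085) (nat_lit 11) (.e (nat_lit 24625) (nat_lit 9) (.e (nat_lit 336240) (nat_lit 15) .nil))))))) (.g (nat_lit 4) .nil .nil))) 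
(.lf (nat_lit 102458) (.g (nat_lit 2380) (.e (nat_lit 3309) (nat_lit 202) (.e (nat_lit 573484) (nat_lit 13) (.e (nat_lit 65617) (nat_lit 10) (.e (nat_lit 344133) (nat_lit 26) (.e (nat_lit 557085) (nat_lit 11) (.e (nat_lit 24627) (nat_lit 9) (.e (nat_lit 336238) (nat_lit 15) .nil))))))) (.g (nat_lit 4) .nil .nil)))))) (.nd (nat_lit 3) (.nd (nat_lit 4) (.nd (nat_lit 5) 
(.lf (nat_lit 102406) (.g (nat_lit 3826) (.e (nat_lit 3308) (nat_lit 202) (.e (nat_lit 573493) (nat_lit 15) (.e (nat_lit 81953) (nat_lit 22) (.e (nat_lit 90165) (nat_lit 12) (.e (nat_lit 164239) (nat_lit 187) (.e (nat_lit 1427) (nat_lit 108) (.e (nat_lit 336306) (nat_lit 15) .nil))))))) (.g (nat_lit 0) .nil .nil))) 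
(.lf (nat_lit 102438) (.g (nat_lit 4198) (.e (nat_lit 3309) (nat_lit 202) (.e (nat_lit 573484) (nat_lit 13) (.e (nat_lit 65617) (nat_lit 10) (.e (nat_lit 344130) (nat_lit 26) (.e (nat_lit 557087) (nat_lit 11) (.e (nat_lit 24624) (nat_lit 9) (.e (nat_lit 336240) (nat_lit 15) .nil))))))) (.g (nat_lit 6) .nil .nil)))) (.nd (nat_lit 5) 
(.lf (nat_lit 102422) (.g (nat_lit 1857) (.e (nat_lit 3309) (nat_lit 202) (.e (nat_lit 573482) (nat_lit 13) (.e (nat_lit 65619) (nat_lit 10) (.e (nat_lit 344129) (nat_lit 26) .nil)))) .nil)) 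
(.lf (nat_lit 102454) (.g (nat_lit 5115) (.e (nat_lit 3309) (nat_lit 202) (.e (nat_lit 573484) (nat_lit 13) (.e (nat_lit 65617) (nat_lit 10) (.e (nat_lit 344132) (nat_lit 26) (.e (nat_lit 557085) (nat_lit 11) (.e (nat_lit 24630) (nat_lit 9) (.e (nat_lit 336240) (nat_lit 15) .nil))))))) (.g (nat_lit 0) .nil .nil))))) (.nd (nat_lit 4) (.nd (nat_lit 5) 
(.lf (nat_lit 102414) (.g (nat_lit 3569) (.e (nat_lit 3308) (nat_lit 202) (.e (nat_lit 573493) (nat_lit 15) (.e (nat_lit 81956) (nat_lit 23) (.e (nat_lit 98367) (nat_lit 27) (.e (nat_lit 434271) (nat_lit 38) .nil))))) .nil)) 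
(.lf (nat_lit 102446) (.g (nat_lit 2699) (.e (nat_lit 3309) (nat_lit 202) (.e (nat_lit 573484) (nat_lit 13) (.e (nat_lit 65617) (nat_lit 10) (.e (nat_lit 344130) (nat_lit 26) (.e (nat_lit 557087) (nat_lit 11) (.e (nat_lit 24626) (nat_lit 9) (.e (nat_lit 343808) (nat_lit 15) .nil))))))) (.g (nat_lit 5) .nil .nil)))) (.nd (nat_lit 5) 
(.lf (nat_lit 102430) (.g (nat_lit 3165) (.e (nat_lit 3309) (nat_lit 202) (.e (nat_lit 573484) (nat_lit 13) (.e (nat_lit 65617) (nat_lit 10) (.e (nat_lit 344130) (nat_lit 26) (.e (nat_lit 557086) (nat_lit 11) (.e (nat_lit 24624) (nat_lit 9) (.e (nat_lit 336240) (nat_lit 15) .nil))))))) (.g (nat_lit 6) .nil .nil))) 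
(.lf (nat_lit 102462) (.g (nat_lit 3320) (.e (nat_lit 3309) (nat_lit 202) (.e (nat_lit 573484) (nat_lit 13) (.e (nat_lit 65617) (nat_lit 10) (.e (nat_lit 344133) (nat_lit 26) (.e (nat_lit 557086) (nat_lit 11) (.e (nat_lit 24624) (nat_lit 9) (.e (nat_lit 336240) (nat_lit 15) .nil))))))) (.g (nat_lit 6) .nil .nil)))))))) 
(.nd (nat_lit 1) (.nd (nat_lit 2) (.nd (nat_lit 3) (.nd (nat_lit 4) (.nd (nat_lit 5) 
(.lf (nat_lit 102401) (.g (nat_lit 2791) (.e (nat_lit 3308) (nat_lit 202) (.e (nat_lit 573493) (nat_lit 15) (.e (nat_lit 81953) (nat_lit 22) (.e (nat_lit 90165) (nat_lit 12) (.e (nat_lit 164237) (nat_lit 187) (.e (nat_lit 1516) (nat_lit 108) (.e (nat_lit 336305) (nat_lit 15) .nil))))))) (.g (nat_lit 0) .nil .nil))) 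
(.lf (nat_lit 102433) (.g (nat_lit 2809) (.e (nat_lit 3309) (nat_lit 202) (.e (nat_lit 573484) (nat_lit 13) (.e (nat_lit 65617) (nat_lit 10) (.e (nat_lit 344130) (nat_lit 26) (.e (nat_lit 557086) (nat_lit 11) (.e (nat_lit 24627) (nat_lit 9) (.e (nat_lit 343808) (nat_lit 15) .nil))))))) (.g (nat_lit 6) .nil .nil)))) (.nd (nat_lit 5) 
(.lf (nat_lit 102417) (.g (nat_lit 4261) (.e (nat_lit 3308) (nat_lit 202) (.e (nat_lit 573493) (nat_lit 15) (.e (nat_lit 81956) (nat_lit 23) (.e (nat_lit 98385) (nat_lit 32) (.e (nat_lit 475209) (nat_lit 41) .nil))))) .nil)) 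
(.lf (nat_lit 102449) (.g (nat_lit 3673) (.e (nat_lit 3309) (nat_lit 202) (.e (nat_lit 573484) (nat_lit 13) (.e (nat_lit 65617) (nat_lit 10) (.e (nat_lit 344130) (nat_lit 26) (.e (nat_lit 557087) (nat_lit 11) (.e (nat_lit 24628) (nat_lit 9) (.e (nat_lit 336258) (nat_lit 15) .nil))))))) (.g (nat_lit 5) .nil .nil))))) (.nd (nat_lit 4) (.nd (nat_lit 5) 
(.lf (nat_lit 102409) (.g (nat_lit 4642) (.e (nat_lit 3308) (nat_lit 202) (.e (nat_lit 573493) (nat_lit 15) (.e (nat_lit 81954) (nat_lit 23) (.e (nat_lit 98384) (nat_lit 32) (.e (nat_lit 475209) (nat_lit 41) .nil))))) .nil)) 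
(.lf (nat_lit 102441) (.g (nat_lit 4746) (.e (nat_lit 3309) (nat_lit 202) (.e (nat_lit 573484) (nat_lit 13) (.e (nat_lit 65617) (nat_lit 10) (.e (nat_lit 344130) (nat_lit 26) (.e (nat_lit 557087) (nat_lit 11) (.e (nat_lit 24625) (nat_lit 9) (.e (nat_lit 336257) (nat_lit 15) .nil))))))) (.g (nat_lit 6) .nil .nil)))) (.nd (nat_lit 5) 
(.lf (nat_lit 102425) (.g (nat_lit 1707) (.e (nat_lit 3309) (nat_lit 202) (.e (nat_lit 573484) (nat_lit 13) (.e (nat_lit 65610) (nat_lit 10) (.e (nat_lit 344131) (nat_lit 26) .nil)))) .nil)) 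
(.lf (nat_lit 102457) (.g (nat_lit 2909) (.e (nat_lit 3309) (nat_lit 202) (.e (nat_lit 573484) (nat_lit 13) (.e (nat_lit 65617) (nat_lit 10) (.e (nat_lit 344133) (nat_lit 26) (.e (nat_lit 557085) (nat_lit 11) (.e (nat_lit 24625) (nat_lit 9) (.e (nat_lit 336258) (nat_lit 15) .nil))))))) (.g (nat_lit 4) .nil .nil)))))) (.nd (nat_lit 3) (.nd (nat_lit 4) (.nd (nat_lit 5) 
(.lf (nat_lit 102405) (.g (nat_lit 3325) (.e (nat_lit 3308) (nat_lit 202) (.e (nat_lit 573493) (nat_lit 15) (.e (nat_lit 81953) (nat_lit 22) (.e (nat_lit 90165) (nat_lit 12) (.e (nat_lit 164239) (nat_lit 187) (.e (nat_lit 1426) (nat_lit 108) (.e (nat_lit 336306) (nat_lit 15) .nil))))))) (.g (nat_lit 0) .nil .nil))) 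
(.lf (nat_lit 102437) (.g (nat_lit 2643) (.e (nat_lit 3309) (nat_lit 202) (.e (nat_lit 573484) (nat_lit 13) (.e (nat_lit 65617) (nat_lit 10) (.e (nat_lit 344130) (nat_lit 26) (.e (nat_lit 557087) (nat_lit 11) (.e (nat_lit 24623) (nat_lit 9) (.e (nat_lit 336258) (nat_lit 15) .nil))))))) (.g (nat_lit 4) .nil .nil)))) (.nd (nat_lit 5) 
(.lf (nat_lit 102421) (.g (nat_lit 1056) (.e (nat_lit 3309) (nat_lit 202) (.e (nat_lit 573482) (nat_lit 13) (.e (nat_lit 65619) (nat_lit 10) .nil))) .nil)) 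
(.lf (nat_lit 102453) (.g (nat_lit 4249) (.e (nat_lit 3309) (nat_lit 202) (.e (nat_lit 573484) (nat_lit 13) (.e (nat_lit 65617) (nat_lit 10) (.e (nat_lit 344132) (nat_lit 26) (.e (nat_lit 557085) (nat_lit 11) (.e (nat_lit 24627) (nat_lit 9) (.e (nat_lit 336240) (nat_lit 15) .nil))))))) (.g (nat_lit 6) .nil .nil))))) (.nd (nat_lit 4) (.nd (nat_lit 5) 
(.lf (nat_lit 102413) (.g (nat_lit 3417) (.e (nat_lit 3308) (nat_lit 202) (.e (nat_lit 573493) (nat_lit 15) (.e (nat_lit 81956) (nat_lit 23) (.e (nat_lit 98366) (nat_lit 27) (.e (nat_lit 434272) (nat_lit 38) .nil))))) .nil)) 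
(.lf (nat_lit 102445) (.g (nat_lit 3402) (.e (nat_lit 3309) (nat_lit 202) (.e (nat_lit 573484) (nat_lit 13) (.e (nat_lit 65617) (nat_lit 10) (.e (nat_lit 344130) (nat_lit 26) (.e (nat_lit 557087) (nat_lit 11) (.e (nat_lit 24626) (nat_lit 9) (.e (nat_lit 336258) (nat_lit 15) .nil))))))) (.g (nat_lit 5) .nil .nil)))) (.nd (nat_lit 5) 
(.lf (nat_lit 102429) (.g (nat_lit 4311) (.e (nat_lit 3309) (nat_lit 202) (.e (nat_lit 573484) (nat_lit 13) (.e (nat_lit 65617) (nat_lit 10) (.e (nat_lit 344130) (nat_lit 26) (.e (nat_lit 557085) (nat_lit 11) (.e (nat_lit 24630) (nat_lit 9) (.e (nat_lit 336240) (nat_lit 15) .nil))))))) (.g (nat_lit 0) .nil .nil))) 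
(.lf (nat_lit 102461) (.g (nat_lit 4496) (.e (nat_lit 3309) (nat_lit 202) (.e (nat_lit 573484) (nat_lit 13) (.e (nat_lit 65617) (nat_lit 10) (.e (nat_lit 344133) (nat_lit 26) (.e (nat_lit 557085) (nat_lit 11) (.e (nat_lit 24630) (nat_lit 9) (.e (nat_lit 336240) (nat_lit 15) .nil))))))) (.g (nat_lit 7) .nil .nil))))))) (.nd (nat_lit 2) (.nd (nat_lit 3) (.nd (nat_lit 4) (.nd (nat_lit 5) 
(.lf (nat_lit 102403) (.g (nat_lit 4569) (.e (nat_lit 3308) (nat_lit 202) (.e (nat_lit 573493) (nat_lit 15) (.e (nat_lit 81953) (nat_lit 22) (.e (nat_lit 90165) (nat_lit 12) (.e (nat_lit 164238) (nat_lit 187) (.e (nat_lit 1427) (nat_lit 108) (.e (nat_lit 336306) (nat_lit 15) .nil))))))) (.g (nat_lit 0) .nil .nil))) 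
(.lf (nat_lit 102435) (.g (nat_lit 4282) (.e (nat_lit 3309) (nat_lit 202) (.e (nat_lit 573484) (nat_lit 13) (.e (nat_lit 65617) (nat_lit 10) (.e (nat_lit 344130) (nat_lit 26) (.e (nat_lit 557086) (nat_lit 11) (.e (nat_lit 24630) (nat_lit 9) (.e (nat_lit 336240) (nat_lit 15) .nil))))))) (.g (nat_lit 0) .nil .nil)))) (.nd (nat_lit 5) 
(.lf (nat_lit 102419) (.g (nat_lit 3742) (.e (nat_lit 3309) (nat_lit 202) (.e (nat_lit 573471) (nat_lit 11) (.e (nat_lit 16425) (nat_lit 7) (.e (nat_lit 409616) (nat_lit 10) .nil)))) .nil)) 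
(.lf (nat_lit 102451) (.g (nat_lit 2624) (.e (nat_lit 3309) (nat_lit 202) (.e (nat_lit 573484) (nat_lit 13) (.e (nat_lit 65617) (nat_lit 10) (.e (nat_lit 344130) (nat_lit 26) (.e (nat_lit 557087) (nat_lit 11) (.e (nat_lit 24631) (nat_lit 9) (.e (nat_lit 343808) (nat_lit 15) .nil))))))) (.g (nat_lit 5) .nil .nil))))) (.nd (nat_lit 4) (.nd (nat_lit 5) 
(.lf (nat_lit 102411) (.g (nat_lit 2313) (.e (nat_lit 3308) (nat_lit 202) (.e (nat_lit 573493) (nat_lit 15) (.e (nat_lit 81954) (nat_lit 23) (.e (nat_lit 98389) (nat_lit 33) .nil)))) .nil)) 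
(.lf (nat_lit 102443) (.g (nat_lit 2808) (.e (nat_lit 3309) (nat_lit 202) (.e (nat_lit 573484) (nat_lit 13) (.e (nat_lit 65617) (nat_lit 10) (.e (nat_lit 344130) (nat_lit 26) (.e (nat_lit 557087) (nat_lit 11) (.e (nat_lit 24626) (nat_lit 9) (.e (nat_lit 336238) (nat_lit 15) .nil))))))) (.g (nat_lit 5) .nil .nil)))) (.nd (nat_lit 5) 
(.lf (nat_lit 102427) (.g (nat_lit 4136) (.e (nat_lit 3309) (nat_lit 202) (.e (nat_lit 573484) (nat_lit 13) (.e (nat_lit 65617) (nat_lit 10) (.e (nat_lit 344130) (nat_lit 26) (.e (nat_lit 557085) (nat_lit 11) (.e (nat_lit 24627) (nat_lit 9) (.e (nat_lit 336240) (nat_lit 15) .nil))))))) (.g (nat_lit 6) .nil .nil))) 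
(.lf (nat_lit 102459) (.g (nat_lit 3960) (.e (nat_lit 3309) (nat_lit 202) (.e (nat_lit 573484) (nat_lit 13) (.e (nat_lit 65617) (nat_lit 10) (.e (nat_lit 344133) (nat_lit 26) (.e (nat_lit 557085) (nat_lit 11) (.e (nat_lit 24627) (nat_lit 9) (.e (nat_lit 336240) (nat_lit 15) .nil))))))) (.g (nat_lit 6) .nil .nil)))))) (.nd (nat_lit 3) (.nd (nat_lit 4) (.nd (nat_lit 5) 
(.lf (nat_lit 102407) (.g (nat_lit 3394) (.e (nat_lit 3308) (nat_lit 202) (.e (nat_lit 573493) (nat_lit 15) (.e (nat_lit 81953) (nat_lit 22) (.e (nat_lit 90165) (nat_lit 12) (.e (nat_lit 164239) (nat_lit 187) (.e (nat_lit 1428) (nat_lit 108) (.e (nat_lit 336306) (nat_lit 15) .nil))))))) (.g (nat_lit 0) .nil .nil))) 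
(.lf (nat_lit 102439) (.g (nat_lit 2724) (.e (nat_lit 3309) (nat_lit 202) (.e (nat_lit 573484) (nat_lit 13) (.e (nat_lit 65617) (nat_lit 10) (.e (nat_lit 344130) (nat_lit 26) (.e (nat_lit 557087) (nat_lit 11) (.e (nat_lit 24624) (nat_lit 9) (.e (nat_lit 336258) (nat_lit 15) .nil))))))) (.g (nat_lit 4) .nil .nil)))) (.nd (nat_lit 5) 
(.lf (nat_lit 102423) (.g (nat_lit 1661) (.e (nat_lit 3309) (nat_lit 202) (.e (nat_lit 573484) (nat_lit 13) (.e (nat_lit 65610) (nat_lit 10) (.e (nat_lit 344117) (nat_lit 21) (.e (nat_lit 516184) (nat_lit 16) .nil))))) .nil)) 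
(.lf (nat_lit 102455) (.g (nat_lit 2488) (.e (nat_lit 3309) (nat_lit 202) (.e (nat_lit 573484) (nat_lit 13) (.e (nat_lit 65617) (nat_lit 10) (.e (nat_lit 344132) (nat_lit 26) (.e (nat_lit 557085) (nat_lit 11) (.e (nat_lit 24630) (nat_lit 9) (.e (nat_lit 336258) (nat_lit 15) .nil))))))) (.g (nat_lit 4) .nil .nil))))) (.nd (nat_lit 4) (.nd (nat_lit 5) 
(.lf (nat_lit 102415) (.g (nat_lit 3767) (.e (nat_lit 3308) (nat_lit 202) (.e (nat_lit 573493) (nat_lit 15) (.e (nat_lit 81956) (nat_lit 23) (.e (nat_lit 98383) (nat_lit 32) .nil)))) .nil)) 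
(.lf (nat_lit 102447) (.g (nat_lit 3941) (.e (nat_lit 3309) (nat_lit 202) (.e (nat_lit 573484) (nat_lit 13) (.e (nat_lit 65617) (nat_lit 10) (.e (nat_lit 344130) (nat_lit 26) (.e (nat_lit 557087) (nat_lit 11) (.e (nat_lit 24627) (nat_lit 9) (.e (nat_lit 336240) (nat_lit 15) .nil))))))) (.g (nat_lit 6) .nil .nil)))) (.nd (nat_lit 5) 
(.lf (nat_lit 102431) (.g (nat_lit 2439) (.e (nat_lit 3309) (nat_lit 202) (.e (nat_lit 573484) (nat_lit 13) (.e (nat_lit 65617) (nat_lit 10) (.e (nat_lit 344130) (nat_lit 26) (.e (nat_lit 557086) (nat_lit 11) (.e (nat_lit 24626) (nat_lit 9) (.e (nat_lit 336240) (nat_lit 15) .nil))))))) (.g (nat_lit 4) .nil .nil))) 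
(.lf (nat_lit 102463) (.g (nat_lit 3880) (.e (nat_lit 3309) (nat_lit 202) (.e (nat_lit 573484) (nat_lit 13) (.e (nat_lit 65617) (nat_lit 10) (.e (nat_lit 344133) (nat_lit 26) (.e (nat_lit 557086) (nat_lit 11) (.e (nat_lit 24625) (nat_lit 9) (.e (nat_lit 336240) (nat_lit 15) .nil))))))) (.g (nat_lit 6) .nil .nil)))))))))

noncomputable def tv1397 : DT := (.nd (nat_lit 0) (.nd (nat_lit 1) (.nd (nat_lit 2) (.nd (nat_lit 3) (.nd (nat_lit 4) (.nd (nat_lit 5) 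
(.lf (nat_lit 102464) (.g (nat_lit 3001) (.e (nat_lit 3309) (nat_lit 202) (.e (nat_lit 573484) (nat_lit 13) (.e (nat_lit 65617) (nat_lit 10) (.e (nat_lit 344133) (nat_lit 26) (.e (nat_lit 557086) (nat_lit 11) (.e (nat_lit 24627) (nat_lit 9) (.e (nat_lit 336238) (nat_lit 15) .nil))))))) (.g (nat_lit 6) .nil .nil))) 
(.lf (nat_lit 102496) (.g (nat_lit 3128) (.e (nat_lit 3309) (nat_lit 202) (.e (nat_lit 573485) (nat_lit 13) (.e (nat_lit 65619) (nat_lit 10) (.e (nat_lit 344126) (nat_lit 25) (.e (nat_lit 548874) (nat_lit 5) (.e (nat_lit 1572) (nat_lit 110) (.e (nat_lit 360192) (nat_lit 0) .nil))))))) (.g (nat_lit 5) .nil .nil)))) (.nd (nat_lit 5) 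
(.lf (nat_lit 102480) (.g (nat_lit 1719) (.e (nat_lit 3309) (nat_lit 202) (.e (nat_lit 573485) (nat_lit 13) (.e (nat_lit 65619) (nat_lit 10) (.e (nat_lit 344117) (nat_lit 21) (.e (nat_lit 516097) (nat_lit 0) .nil))))) .nil)) 
(.lf (nat_lit 102512) (.g (nat_lit 3130) (.e (nat_lit 3309) (nat_lit 202) (.e (nat_lit 573485) (nat_lit 13) (.e (nat_lit 65619) (nat_lit 10) (.e (nat_lit 344129) (nat_lit 26) (.e (nat_lit 557066) (nat_lit 9) (.e (nat_lit 336) (nat_lit 26) (.e (nat_lit 384768) (nat_lit 0) .nil))))))) (.g (nat_lit 5) .nil .nil))))) (.nd (nat_lit 4) (.nd (nat_lit 5) 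
(.lf (nat_lit 102472) (.g (nat_lit 2755) (.e (nat_lit 3309) (nat_lit 202) (.e (nat_lit 573485) (nat_lit 13) (.e (nat_lit 65604) (nat_lit 9) (.e (nat_lit 336013) (nat_lit 2) (.e (nat_lit 90165) (nat_lit 12) (.e (nat_lit 164236) (nat_lit 187) (.e (nat_lit 1516) (nat_lit 108) (.e (nat_lit 336239) (nat_lit 15) .nil)))))))) (.g (nat_lit 5) .nil .nil))) 
(.lf (nat_lit 102504) (.g (nat_lit 3519) (.e (nat_lit 3309) (nat_lit 202) (.e (nat_lit 573485) (nat_lit 13) (.e (nat_lit 65619) (nat_lit 10) (.e (nat_lit 344129) (nat_lit 26) (.e (nat_lit 557065) (nat_lit 9) (.e (nat_lit 336) (nat_lit 26) (.e (nat_lit 384768) (nat_lit 0) .nil))))))) (.g (nat_lit 5) .nil .nil)))) (.nd (nat_lit 5) 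
(.lf (nat_lit 102488) (.g (nat_lit 2752) (.e (nat_lit 3309) (nat_lit 202) (.e (nat_lit 573485) (nat_lit 13) (.e (nat_lit 65619) (nat_lit 10) (.e (nat_lit 344126) (nat_lit 25) (.e (nat_lit 548873) (nat_lit 5) (.e (nat_lit 1559) (nat_lit 110) (.e (nat_lit 360192) (nat_lit 0) .nil))))))) (.g (nat_lit 6) .nil .nil))) 
(.lf (nat_lit 102520) (.g (nat_lit 2118) (.e (nat_lit 3309) (nat_lit 202) (.e (nat_lit 573485) (nat_lit 13) (.e (nat_lit 65619) (nat_lit 10) (.e (nat_lit 344129) (nat_lit 26) (.e (nat_lit 557074) (nat_lit 9) (.e (nat_lit 278) (nat_lit 21) (.e (nat_lit 336154) (nat_lit 9) (.e (nat_lit 343808) (nat_lit 15) .nil)))))))) (.g (nat_lit 4) .nil .nil)))))) 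
(.nd (nat_lit 3) (.nd (nat_lit 4) (.nd (nat_lit 5) 
(.lf (nat_lit 102468) (.g (nat_lit 5829) (.e (nat_lit 3309) (nat_lit 202) (.e (nat_lit 573484) (nat_lit 13) (.e (nat_lit 65617) (nat_lit 10) (.e (nat_lit 344133) (nat_lit 26) (.e (nat_lit 557087) (nat_lit 11) (.e (nat_lit 24625) (nat_lit 9) (.e (nat_lit 336240) (nat_lit 15) .nil))))))) (.g (nat_lit 7) .nil .nil))) 
(.lf (nat_lit 102500) (.g (nat_lit 2928) (.e (nat_lit 3309) (nat_lit 202) (.e (nat_lit 573485) (nat_lit 13) (.e (nat_lit 65619) (nat_lit 10) (.e (nat_lit 344129) (nat_lit 26) (.e (nat_lit 557065) (nat_lit 9) (.e (nat_lit 309) (nat_lit 23) (.e (nat_lit 360192) (nat_lit 0) .nil))))))) (.g (nat_lit 5) .nil .nil)))) (.nd (nat_lit 5) 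
(.lf (nat_lit 102484) (.g (nat_lit 2260) (.e (nat_lit 3309) (nat_lit 202) (.e (nat_lit 573485) (nat_lit 13) (.e (nat_lit 65619) (nat_lit 10) (.e (nat_lit 344117) (nat_lit 21) (.e (nat_lit 516106) (nat_lit 0) (.e (nat_lit 7550) (nat_lit 402) (.e (nat_lit 1516) (nat_lit 108) (.e (nat_lit 343808) (nat_lit 15) .nil)))))))) (.g (nat_lit 4) .nil .nil))) 
(.lf (nat_lit 102516) (.g (nat_lit 3143) (.e (nat_lit 3309) (nat_lit 202) (.e (nat_lit 573485) (nat_lit 13) (.e (nat_lit 65619) (nat_lit 10) (.e (nat_lit 344129) (nat_lit 26) (.e (nat_lit 557074) (nat_lit 9) (.e (nat_lit 278) (nat_lit 21) (.e (nat_lit 336116) (nat_lit 9) (.e (nat_lit 336239) (nat_lit 15) .nil)))))))) (.g (nat_lit 5) .nil .nil))))) (.nd (nat_lit 4) (.nd (nat_lit 5) 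
(.lf (nat_lit 102476) (.g (nat_lit 2426) (.e (nat_lit 3309) (nat_lit 202) (.e (nat_lit 573485) (nat_lit 13) (.e (nat_lit 65604) (nat_lit 9) (.e (nat_lit 336013) (nat_lit 2) (.e (nat_lit 90165) (nat_lit 12) (.e (nat_lit 164237) (nat_lit 187) (.e (nat_lit 1512) (nat_lit 108) (.e (nat_lit 343808) (nat_lit 15) .nil)))))))) (.g (nat_lit 4) .nil .nil))) 
(.lf (nat_lit 102508) (.g (nat_lit 3579) (.e (nat_lit 3309) (nat_lit 202) (.e (nat_lit 573485) (nat_lit 13) (.e (nat_lit 65619) (nat_lit 10) (.e (nat_lit 344129) (nat_lit 26) (.e (nat_lit 557066) (nat_lit 9) (.e (nat_lit 310) (nat_lit 23) (.e (nat_lit 360192) (nat_lit 0) .nil))))))) (.g (nat_lit 6) .nil .nil)))) (.nd (nat_lit 5) 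
(.lf (nat_lit 102492) (.g (nat_lit 2807) (.e (nat_lit 3309) (nat_lit 202) (.e (nat_lit 573485) (nat_lit 13) (.e (nat_lit 65619) (nat_lit 10) (.e (nat_lit 344126) (nat_lit 25) (.e (nat_lit 548873) (nat_lit 5) (.e (nat_lit 1575) (nat_lit 110) (.e (nat_lit 360192) (nat_lit 0) .nil))))))) (.g (nat_lit 6) .nil .nil))) 
(.lf (nat_lit 102524) (.g (nat_lit 2299) (.e (nat_lit 3309) (nat_lit 202) (.e (nat_lit 573485) (nat_lit 13) (.e (nat_lit 65619) (nat_lit 10) (.e (nat_lit 344129) (nat_lit 26) (.e (nat_lit 557074) (nat_lit 9) (.e (nat_lit 7936) (nat_lit 21) (.e (nat_lit 336121) (nat_lit 9) (.e (nat_lit 336239) (nat_lit 15) .nil)))))))) (.g (nat_lit 4) .nil .nil))))))) 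
(.nd (nat_lit 2) (.nd (nat_lit 3) (.nd (nat_lit 4) (.nd (nat_lit 5) 
(.lf (nat_lit 102466) (.g (nat_lit 4878) (.e (nat_lit 3309) (nat_lit 202) (.e (nat_lit 573484) (nat_lit 13) (.e (nat_lit 65617) (nat_lit 10) (.e (nat_lit 344133) (nat_lit 26) (.e (nat_lit 557086) (nat_lit 11) (.e (nat_lit 24628) (nat_lit 9) (.e (nat_lit 336240) (nat_lit 15) .nil))))))) (.g (nat_lit 7) .nil .nil))) 
(.lf (nat_lit 102498) (.g (nat_lit 1692) (.e (nat_lit 3309) (nat_lit 202) (.e (nat_lit 573485) (nat_lit 13) (.e (nat_lit 65619) (nat_lit 10) (.e (nat_lit 344129) (nat_lit 26) (.e (nat_lit 557065) (nat_lit 9) .nil))))) .nil))) (.nd (nat_lit 5) 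
(.lf (nat_lit 102482) (.g (nat_lit 2352) (.e (nat_lit 3309) (nat_lit 202) (.e (nat_lit 573485) (nat_lit 13) (.e (nat_lit 65619) (nat_lit 10) (.e (nat_lit 344117) (nat_lit 21) (.e (nat_lit 516106) (nat_lit 0) (.e (nat_lit 7550) (nat_lit 402) (.e (nat_lit 1512) (nat_lit 108) (.e (nat_lit 343808) (nat_lit 15) .nil)))))))) (.g (nat_lit 4) .nil .nil))) 
(.lf (nat_lit 102514) (.g (nat_lit 3137) (.e (nat_lit 3309) (nat_lit 202) (.e (nat_lit 573485) (nat_lit 13) (.e (nat_lit 65619) (nat_lit 10) (.e (nat_lit 344129) (nat_lit 26) (.e (nat_lit 557074) (nat_lit 9) (.e (nat_lit 250) (nat_lit 21) (.e (nat_lit 336088) (nat_lit 9) (.e (nat_lit 336240) (nat_lit 15) .nil)))))))) (.g (nat_lit 5) .nil .nil))))) (.nd (nat_lit 4) (.nd (nat_lit 5) 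
(.lf (nat_lit 102474) (.g (nat_lit 2352) (.e (nat_lit 3309) (nat_lit 202) (.e (nat_lit 573485) (nat_lit 13) (.e (nat_lit 65604) (nat_lit 9) (.e (nat_lit 336013) (nat_lit 2) (.e (nat_lit 90165) (nat_lit 12) (.e (nat_lit 164236) (nat_lit 187) (.e (nat_lit 1517) (nat_lit 108) (.e (nat_lit 336239) (nat_lit 15) .nil)))))))) (.g (nat_lit 4) .nil .nil))) 
(.lf (nat_lit 102506) (.g (nat_lit 2817) (.e (nat_lit 3309) (nat_lit 202) (.e (nat_lit 573485) (nat_lit 13) (.e (nat_lit 65619) (nat_lit 10) (.e (nat_lit 344129) (nat_lit 26) (.e (nat_lit 557066) (nat_lit 9) (.e (nat_lit 293) (nat_lit 21) (.e (nat_lit 336119) (nat_lit 9) (.e (nat_lit 336239) (nat_lit 15) .nil)))))))) (.g (nat_lit 5) .nil .nil)))) (.nd (nat_lit 5) 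
(.lf (nat_lit 102490) (.g (nat_lit 2714) (.e (nat_lit 3309) (nat_lit 202) (.e (nat_lit 573485) (nat_lit 13) (.e (nat_lit 65619) (nat_lit 10) (.e (nat_lit 344126) (nat_lit 25) (.e (nat_lit 548873) (nat_lit 5) (.e (nat_lit 1569) (nat_lit 110) (.e (nat_lit 360192) (nat_lit 0) .nil))))))) (.g (nat_lit 5) .nil .nil))) 
(.lf (nat_lit 102522) (.g (nat_lit 2195) (.e (nat_lit 3309) (nat_lit 202) (.e (nat_lit 573485) (nat_lit 13) (.e (nat_lit 65619) (nat_lit 10) (.e (nat_lit 344129) (nat_lit 26) (.e (nat_lit 557074) (nat_lit 9) (.e (nat_lit 284) (nat_lit 21) (.e (nat_lit 336150) (nat_lit 9) (.e (nat_lit 336239) (nat_lit 15) .nil)))))))) (.g (nat_lit 4) .nil .nil)))))) 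
(.nd (nat_lit 3) (.nd (nat_lit 4) (.nd (nat_lit 5) 
(.lf (nat_lit 102470) (.g (nat_lit 2495) (.e (nat_lit 3309) (nat_lit 202) (.e (nat_lit 573484) (nat_lit 13) (.e (nat_lit 65617) (nat_lit 10) (.e (nat_lit 344133) (nat_lit 26) (.e (nat_lit 557087) (nat_lit 11) (.e (nat_lit 24627) (nat_lit 9) (.e (nat_lit 336240) (nat_lit 15) .nil))))))) (.g (nat_lit 4) .nil .nil))) 
(.lf (nat_lit 102502) (.g (nat_lit 3387) (.e (nat_lit 3309) (nat_lit 202) (.e (nat_lit 573485) (nat_lit 13) (.e (nat_lit 65619) (nat_lit 10) (.e (nat_lit 344129) (nat_lit 26) (.e (nat_lit 557065) (nat_lit 9) (.e (nat_lit 315) (nat_lit 23) (.e (nat_lit 360192) (nat_lit 0) .nil))))))) (.g (nat_lit 5) .nil .nil)))) (.nd (nat_lit 5) 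
(.lf (nat_lit 102486) (.g (nat_lit 2618) (.e (nat_lit 3309) (nat_lit 202) (.e (nat_lit 573485) (nat_lit 13) (.e (nat_lit 65619) (nat_lit 10) (.e (nat_lit 344126) (nat_lit 25) (.e (nat_lit 548872) (nat_lit 5) (.e (nat_lit 1569) (nat_lit 110) (.e (nat_lit 360192) (nat_lit 0) .nil))))))) (.g (nat_lit 5) .nil .nil))) 
(.lf (nat_lit 102518) (.g (nat_lit 3143) (.e (nat_lit 3309) (nat_lit 202) (.e (nat_lit 573485) (nat_lit 13) (.e (nat_lit 65619) (nat_lit 10) (.e (nat_lit 344129) (nat_lit 26) (.e (nat_lit 557074) (nat_lit 9) (.e (nat_lit 278) (nat_lit 21) (.e (nat_lit 336151) (nat_lit 9) (.e (nat_lit 336239) (nat_lit 15) .nil)))))))) (.g (nat_lit 5) .nil .nil))))) (.nd (nat_lit 4) (.nd (nat_lit 5) 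
(.lf (nat_lit 102478) (.g (nat_lit 2175) (.e (nat_lit 3309) (nat_lit 202) (.e (nat_lit 573485) (nat_lit 13) (.e (nat_lit 65604) (nat_lit 9) (.e (nat_lit 336013) (nat_lit 2) (.e (nat_lit 90165) (nat_lit 12) (.e (nat_lit 164237) (nat_lit 187) (.e (nat_lit 1517) (nat_lit 108) (.e (nat_lit 336239) (nat_lit 15) .nil)))))))) (.g (nat_lit 4) .nil .nil))) 
(.lf (nat_lit 102510) (.g (nat_lit 2978) (.e (nat_lit 3309) (nat_lit 202) (.e (nat_lit 573485) (nat_lit 13) (.e (nat_lit 65619) (nat_lit 10) (.e (nat_lit 344129) (nat_lit 26) (.e (nat_lit 557066) (nat_lit 9) (.e (nat_lit 314) (nat_lit 23) (.e (nat_lit 360192) (nat_lit 0) .nil))))))) (.g (nat_lit 5) .nil .nil)))) (.nd (nat_lit 5) 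
(.lf (nat_lit 102494) (.g (nat_lit 3357) (.e (nat_lit 3309) (nat_lit 202) (.e (nat_lit 573485) (nat_lit 13) (.e (nat_lit 65619) (nat_lit 10) (.e (nat_lit 344126) (nat_lit 25) (.e (nat_lit 548874) (nat_lit 5) (.e (nat_lit 1562) (nat_lit 110) (.e (nat_lit 360192) (nat_lit 0) .nil))))))) (.g (nat_lit 6) .nil .nil))) 
(.lf (nat_lit 102526) (.g (nat_lit 2869) (.e (nat_lit 3309) (nat_lit 202) (.e (nat_lit 573489) (nat_lit 14) (.e (nat_lit 73755) (nat_lit 8) (.e (nat_lit 557096) (nat_lit 13) (.e (nat_lit 172133) (nat_lit 15) (.e (nat_lit 1800) (nat_lit 119) (.e (nat_lit 516120) (nat_lit 1) (.e (nat_lit 164330) (nat_lit 230) (.e (nat_lit 163841) (nat_lit 0) .nil))))))))) (.g (nat_lit 4) .nil .nil)))))))) 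
(.nd (nat_lit 1) (.nd (nat_lit 2) (.nd (nat_lit 3) (.nd (nat_lit 4) (.nd (nat_lit 5) 
(.lf (nat_lit 102465) (.g (nat_lit 2926) (.e (nat_lit 3309) (nat_lit 202) (.e (nat_lit 573484) (nat_lit 13) (.e (nat_lit 65617) (nat_lit 10) (.e (nat_lit 344133) (nat_lit 26) (.e (nat_lit 557086) (nat_lit 11) (.e (nat_lit 24627) (nat_lit 9) (.e (nat_lit 343808) (nat_lit 15) .nil))))))) (.g (nat_lit 6) .nil .nil))) 
(.lf (nat_lit 102497) (.g (nat_lit 3328) (.e (nat_lit 3309) (nat_lit 202) (.e (nat_lit 573485) (nat_lit 13) (.e (nat_lit 65619) (nat_lit 10) (.e (nat_lit 344126) (nat_lit 25) (.e (nat_lit 548874) (nat_lit 5) (.e (nat_lit 1575) (nat_lit 110) (.e (nat_lit 360192) (nat_lit 0) .nil))))))) (.g (nat_lit 6) .nil .nil)))) (.nd (nat_lit 5) 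
(.lf (nat_lit 102481) (.g (nat_lit 1607) (.e (nat_lit 3309) (nat_lit 202) (.e (nat_lit 573485) (nat_lit 13) (.e (nat_lit 65619) (nat_lit 10) (.e (nat_lit 344117) (nat_lit 21) (.e (nat_lit 516098) (nat_lit 0) .nil))))) .nil)) 
(.lf (nat_lit 102513) (.g (nat_lit 1749) (.e (nat_lit 3309) (nat_lit 202) (.e (nat_lit 573485) (nat_lit 13) (.e (nat_lit 65619) (nat_lit 10) (.e (nat_lit 344129) (nat_lit 26) (.e (nat_lit 557074) (nat_lit 9) .nil))))) .nil)))) (.nd (nat_lit 4) (.nd (nat_lit 5) 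
(.lf (nat_lit 102473) (.g (nat_lit 2468) (.e (nat_lit 3309) (nat_lit 202) (.e (nat_lit 573485) (nat_lit 13) (.e (nat_lit 65604) (nat_lit 9) (.e (nat_lit 336013) (nat_lit 2) (.e (nat_lit 90165) (nat_lit 12) (.e (nat_lit 164236) (nat_lit 187) (.e (nat_lit 1516) (nat_lit 108) (.e (nat_lit 343808) (nat_lit 15) .nil)))))))) (.g (nat_lit 5) .nil .nil))) 
(.lf (nat_lit 102505) (.g (nat_lit 3339) (.e (nat_lit 3309) (nat_lit 202) (.e (nat_lit 573485) (nat_lit 13) (.e (nat_lit 65619) (nat_lit 10) (.e (nat_lit 344129) (nat_lit 26) (.e (nat_lit 557066) (nat_lit 9) (.e (nat_lit 228) (nat_lit 21) (.e (nat_lit 336083) (nat_lit 9) (.e (nat_lit 336240) (nat_lit 15) .nil)))))))) (.g (nat_lit 5) .nil .nil)))) (.nd (nat_lit 5) 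
(.lf (nat_lit 102489) (.g (nat_lit 2844) (.e (nat_lit 3309) (nat_lit 202) (.e (nat_lit 573485) (nat_lit 13) (.e (nat_lit 65619) (nat_lit 10) (.e (nat_lit 344126) (nat_lit 25) (.e (nat_lit 548873) (nat_lit 5) (.e (nat_lit 1562) (nat_lit 110) (.e (nat_lit 360192) (nat_lit 0) .nil))))))) (.g (nat_lit 6) .nil .nil))) 
(.lf (nat_lit 102521) (.g (nat_lit 2893) (.e (nat_lit 3309) (nat_lit 202) (.e (nat_lit 573485) (nat_lit 13) (.e (nat_lit 65619) (nat_lit 10) (.e (nat_lit 344129) (nat_lit 26) (.e (nat_lit 557074) (nat_lit 9) (.e (nat_lit 284) (nat_lit 21) (.e (nat_lit 336077) (nat_lit 9) (.e (nat_lit 336240) (nat_lit 15) .nil)))))))) (.g (nat_lit 5) .nil .nil)))))) 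
(.nd (nat_lit 3) (.nd (nat_lit 4) (.nd (nat_lit 5) 
(.lf (nat_lit 102469) (.g (nat_lit 4163) (.e (nat_lit 3309) (nat_lit 202) (.e (nat_lit 573484) (nat_lit 13) (.e (nat_lit 65617) (nat_lit 10) (.e (nat_lit 344133) (nat_lit 26) (.e (nat_lit 557087) (nat_lit 11) (.e (nat_lit 24625) (nat_lit 9) (.e (nat_lit 336257) (nat_lit 15) .nil))))))) (.g (nat_lit 5) .nil .nil))) 
(.lf (nat_lit 102501) (.g (nat_lit 1890) (.e (nat_lit 3309) (nat_lit 202) (.e (nat_lit 573485) (nat_lit 13) (.e (nat_lit 65619) (nat_lit 10) (.e (nat_lit 344129) (nat_lit 26) (.e (nat_lit 557065) (nat_lit 9) (.e (nat_lit 312) (nat_lit 23) (.e (nat_lit 360192) (nat_lit 0) .nil))))))) (.g (nat_lit 4) .nil .nil)))) (.nd (nat_lit 5) 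
(.lf (nat_lit 102485) (.g (nat_lit 2279) (.e (nat_lit 3309) (nat_lit 202) (.e (nat_lit 573485) (nat_lit 13) (.e (nat_lit 65619) (nat_lit 10) (.e (nat_lit 344117) (nat_lit 21) (.e (nat_lit 516106) (nat_lit 0) (.e (nat_lit 7550) (nat_lit 402) (.e (nat_lit 1517) (nat_lit 108) (.e (nat_lit 343808) (nat_lit 15) .nil)))))))) (.g (nat_lit 4) .nil .nil))) 
(.lf (nat_lit 102517) (.g (nat_lit 2295) (.e (nat_lit 3309) (nat_lit 202) (.e (nat_lit 573485) (nat_lit 13) (.e (nat_lit 65619) (nat_lit 10) (.e (nat_lit 344129) (nat_lit 26) (.e (nat_lit 557074) (nat_lit 9) (.e (nat_lit 278) (nat_lit 21) (.e (nat_lit 336150) (nat_lit 9) (.e (nat_lit 336239) (nat_lit 15) .nil)))))))) (.g (nat_lit 4) .nil .nil))))) (.nd (nat_lit 4) (.nd (nat_lit 5) 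
(.lf (nat_lit 102477) (.g (nat_lit 2282) (.e (nat_lit 3309) (nat_lit 202) (.e (nat_lit 573485) (nat_lit 13) (.e (nat_lit 65604) (nat_lit 9) (.e (nat_lit 336013) (nat_lit 2) (.e (nat_lit 90165) (nat_lit 12) (.e (nat_lit 164237) (nat_lit 187) (.e (nat_lit 1516) (nat_lit 108) (.e (nat_lit 343808) (nat_lit 15) .nil)))))))) (.g (nat_lit 4) .nil .nil))) 
(.lf (nat_lit 102509) (.g (nat_lit 3365) (.e (nat_lit 3309) (nat_lit 202) (.e (nat_lit 573485) (nat_lit 13) (.e (nat_lit 65619) (nat_lit 10) (.e (nat_lit 344129) (nat_lit 26) (.e (nat_lit 557066) (nat_lit 9) (.e (nat_lit 312) (nat_lit 23) (.e (nat_lit 360192) (nat_lit 0) .nil))))))) (.g (nat_lit 6) .nil .nil)))) (.nd (nat_lit 5) 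
(.lf (nat_lit 102493) (.g (nat_lit 3296) (.e (nat_lit 3309) (nat_lit 202) (.e (nat_lit 573485) (nat_lit 13) (.e (nat_lit 65619) (nat_lit 10) (.e (nat_lit 344126) (nat_lit 25) (.e (nat_lit 548874) (nat_lit 5) (.e (nat_lit 1559) (nat_lit 110) (.e (nat_lit 360192) (nat_lit 0) .nil))))))) (.g (nat_lit 6) .nil .nil))) 
(.lf (nat_lit 102525) (.g (nat_lit 2672) (.e (nat_lit 3309) (nat_lit 202) (.e (nat_lit 573485) (nat_lit 13) (.e (nat_lit 65619) (nat_lit 10) (.e (nat_lit 344129) (nat_lit 26) (.e (nat_lit 557074) (nat_lit 9) (.e (nat_lit 7936) (nat_lit 26) (.e (nat_lit 384768) (nat_lit 0) .nil))))))) (.g (nat_lit 5) .nil .nil))))))) (.nd (nat_lit 2) (.nd (nat_lit 3) (.nd (nat_lit 4) (.nd (nat_lit 5) 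
(.lf (nat_lit 102467) (.g (nat_lit 4502) (.e (nat_lit 3309) (nat_lit 202) (.e (nat_lit 573484) (nat_lit 13) (.e (nat_lit 65617) (nat_lit 10) (.e (nat_lit 344133) (nat_lit 26) (.e (nat_lit 557086) (nat_lit 11) (.e (nat_lit 24630) (nat_lit 9) (.e (nat_lit 336240) (nat_lit 15) .nil))))))) (.g (nat_lit 0) .nil .nil))) 
(.lf (nat_lit 102499) (.g (nat_lit 3234) (.e (nat_lit 3309) (nat_lit 202) (.e (nat_lit 573485) (nat_lit 13) (.e (nat_lit 65619) (nat_lit 10) (.e (nat_lit 344129) (nat_lit 26) (.e (nat_lit 557065) (nat_lit 9) (.e (nat_lit 272) (nat_lit 21) (.e (nat_lit 336075) (nat_lit 9) (.e (nat_lit 336240) (nat_lit 15) .nil)))))))) (.g (nat_lit 5) .nil .nil)))) (.nd (nat_lit 5) 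
(.lf (nat_lit 102483) (.g (nat_lit 2500) (.e (nat_lit 3309) (nat_lit 202) (.e (nat_lit 573485) (nat_lit 13) (.e (nat_lit 65619) (nat_lit 10) (.e (nat_lit 344117) (nat_lit 21) (.e (nat_lit 516106) (nat_lit 0) (.e (nat_lit 7550) (nat_lit 402) (.e (nat_lit 1516) (nat_lit 108) (.e (nat_lit 336239) (nat_lit 15) .nil)))))))) (.g (nat_lit 4) .nil .nil))) 
(.lf (nat_lit 102515) (.g (nat_lit 2295) (.e (nat_lit 3309) (nat_lit 202) (.e (nat_lit 573485) (nat_lit 13) (.e (nat_lit 65619) (nat_lit 10) (.e (nat_lit 344129) (nat_lit 26) (.e (nat_lit 557074) (nat_lit 9) (.e (nat_lit 278) (nat_lit 21) (.e (nat_lit 336113) (nat_lit 9) (.e (nat_lit 336239) (nat_lit 15) .nil)))))))) (.g (nat_lit 4) .nil .nil))))) (.nd (nat_lit 4) (.nd (nat_lit 5) 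
(.lf (nat_lit 102475) (.g (nat_lit 2473) (.e (nat_lit 3309) (nat_lit 202) (.e (nat_lit 573485) (nat_lit 13) (.e (nat_lit 65604) (nat_lit 9) (.e (nat_lit 336013) (nat_lit 2) (.e (nat_lit 90165) (nat_lit 12) (.e (nat_lit 164236) (nat_lit 187) (.e (nat_lit 1517) (nat_lit 108) (.e (nat_lit 343808) (nat_lit 15) .nil)))))))) (.g (nat_lit 5) .nil .nil))) 
(.lf (nat_lit 102507) (.g (nat_lit 3182) (.e (nat_lit 3309) (nat_lit 202) (.e (nat_lit 573485) (nat_lit 13) (.e (nat_lit 65619) (nat_lit 10) (.e (nat_lit 344129) (nat_lit 26) (.e (nat_lit 557066) (nat_lit 9) (.e (nat_lit 309) (nat_lit 23) (.e (nat_lit 360192) (nat_lit 0) .nil))))))) (.g (nat_lit 6) .nil .nil)))) (.nd (nat_lit 5) 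
(.lf (nat_lit 102491) (.g (nat_lit 2408) (.e (nat_lit 3309) (nat_lit 202) (.e (nat_lit 573485) (nat_lit 13) (.e (nat_lit 65619) (nat_lit 10) (.e (nat_lit 344126) (nat_lit 25) (.e (nat_lit 548873) (nat_lit 5) (.e (nat_lit 1572) (nat_lit 110) (.e (nat_lit 360192) (nat_lit 0) .nil))))))) (.g (nat_lit 5) .nil .nil))) 
(.lf (nat_lit 102523) (.g (nat_lit 2080) (.e (nat_lit 3309) (nat_lit 202) (.e (nat_lit 573485) (nat_lit 13) (.e (nat_lit 65619) (nat_lit 10) (.e (nat_lit 344129) (nat_lit 26) (.e (nat_lit 557074) (nat_lit 9) (.e (nat_lit 7936) (nat_lit 21) (.e (nat_lit 336118) (nat_lit 9) (.e (nat_lit 336239) (nat_lit 15) .nil)))))))) (.g (nat_lit 4) .nil .nil)))))) 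
(.nd (nat_lit 3) (.nd (nat_lit 4) (.nd (nat_lit 5) 
(.lf (nat_lit 102471) (.g (nat_lit 2613) (.e (nat_lit 3309) (nat_lit 202) (.e (nat_lit 573485) (nat_lit 13) (.e (nat_lit 65604) (nat_lit 9) (.e (nat_lit 336013) (nat_lit 2) (.e (nat_lit 90165) (nat_lit 12) (.e (nat_lit 164236) (nat_lit 187) (.e (nat_lit 1512) (nat_lit 108) (.e (nat_lit 343808) (nat_lit 15) .nil)))))))) (.g (nat_lit 5) .nil .nil))) 
(.lf (nat_lit 102503) (.g (nat_lit 3696) (.e (nat_lit 3309) (nat_lit 202) (.e (nat_lit 573485) (nat_lit 13) (.e (nat_lit 65619) (nat_lit 10) (.e (nat_lit 344129) (nat_lit 26) (.e (nat_lit 557065) (nat_lit 9) (.e (nat_lit 334) (nat_lit 26) (.e (nat_lit 384768) (nat_lit 0) .nil))))))) (.g (nat_lit 6) .nil .nil)))) (.nd (nat_lit 5) 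
(.lf (nat_lit 102487) (.g (nat_lit 2914) (.e (nat_lit 3309) (nat_lit 202) (.e (nat_lit 573485) (nat_lit 13) (.e (nat_lit 65619) (nat_lit 10) (.e (nat_lit 344126) (nat_lit 25) (.e (nat_lit 548872) (nat_lit 5) (.e (nat_lit 1575) (nat_lit 110) (.e (nat_lit 360192) (nat_lit 0) .nil))))))) (.g (nat_lit 6) .nil .nil))) 
(.lf (nat_lit 102519) (.g (nat_lit 3927) (.e (nat_lit 3309) (nat_lit 202) (.e (nat_lit 573485) (nat_lit 13) (.e (nat_lit 65619) (nat_lit 10) (.e (nat_lit 344129) (nat_lit 26) (.e (nat_lit 557074) (nat_lit 9) (.e (nat_lit 278) (nat_lit 21) (.e (nat_lit 336152) (nat_lit 9) (.e (nat_lit 336239) (nat_lit 15) .nil)))))))) (.g (nat_lit 7) .nil .nil))))) (.nd (nat_lit 4) (.nd (nat_lit 5) 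
(.lf (nat_lit 102479) (.g (nat_lit 2296) (.e (nat_lit 3309) (nat_lit 202) (.e (nat_lit 573485) (nat_lit 13) (.e (nat_lit 65604) (nat_lit 9) (.e (nat_lit 336013) (nat_lit 2) (.e (nat_lit 90165) (nat_lit 12) (.e (nat_lit 164237) (nat_lit 187) (.e (nat_lit 1517) (nat_lit 108) (.e (nat_lit 343808) (nat_lit 15) .nil)))))))) (.g (nat_lit 4) .nil .nil))) 
(.lf (nat_lit 102511) (.g (nat_lit 3503) (.e (nat_lit 3309) (nat_lit 202) (.e (nat_lit 573485) (nat_lit 13) (.e (nat_lit 65619) (nat_lit 10) (.e (nat_lit 344129) (nat_lit 26) (.e (nat_lit 557066) (nat_lit 9) (.e (nat_lit 334) (nat_lit 26) (.e (nat_lit 384768) (nat_lit 0) .nil))))))) (.g (nat_lit 6) .nil .nil)))) (.nd (nat_lit 5) 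
(.lf (nat_lit 102495) (.g (nat_lit 3112) (.e (nat_lit 3309) (nat_lit 202) (.e (nat_lit 573485) (nat_lit 13) (.e (nat_lit 65619) (nat_lit 10) (.e (nat_lit 344126) (nat_lit 25) (.e (nat_lit 548874) (nat_lit 5) (.e (nat_lit 1569) (nat_lit 110) (.e (nat_lit 360192) (nat_lit 0) .nil))))))) (.g (nat_lit 5) .nil .nil))) 
(.lf (nat_lit 102527) (.g (nat_lit 2240) (.e (nat_lit 3309) (nat_lit 202) (.e (nat_lit 573489) (nat_lit 14) (.e (nat_lit 73755) (nat_lit 8) (.e (nat_lit 557096) (nat_lit 13) (.e (nat_lit 179968) (nat_lit 18) .nil))))) .nil))))))))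

noncomputable def tv1398 : DT := (.nd (nat_lit 0) (.nd (nat_lit 1) (.nd (nat_lit 2) (.nd (nat_lit 3) (.nd (nat_lit 4) (.nd (nat_lit 5) 
(.lf (nat_lit 102528) (.g (nat_lit 2749) (.e (nat_lit 3309) (nat_lit 202) (.e (nat_lit 573489) (nat_lit 14) (.e (nat_lit 73755) (nat_lit 8) (.e (nat_lit 557097) (nat_lit 13) (.e (nat_lit 172133) (nat_lit 15) (.e (nat_lit 1800) (nat_lit 119) (.e (nat_lit 516119) (nat_lit 1) (.e (nat_lit 164325) (nat_lit 230) (.e (nat_lit 163841) (nat_lit 0) .nil))))))))) (.g (nat_lit 4) .nil .nil))) 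
(.lf (nat_lit 102560) (.g (nat_lit 4037) (.e (nat_lit 3312) (nat_lit 202) (.e (nat_lit 573481) (nat_lit 13) (.e (nat_lit 65619) (nat_lit 10) (.e (nat_lit 344129) (nat_lit 26) (.e (nat_lit 557066) (nat_lit 9) (.e (nat_lit 312) (nat_lit 23) (.e (nat_lit 352256) (nat_lit 0) .nil))))))) (.g (nat_lit 6) .nil .nil)))) (.nd (nat_lit 5) 
(.lf (nat_lit 102544) (.g (nat_lit 3756) (.e (nat_lit 3310) (nat_lit 202) (.e (nat_lit 573471) (nat_lit 11) (.e (nat_lit 16425) (nat_lit 7) (.e (nat_lit 409616) (nat_lit 10) .nil)))) .nil)) 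
(.lf (nat_lit 102576) (.g (nat_lit 3651) (.e (nat_lit 3348) (nat_lit 206) (.e (nat_lit 606222) (nat_lit 3) (.e (nat_lit 57480) (nat_lit 28) (.e (nat_lit 557108) (nat_lit 15) (.e (nat_lit 188452) (nat_lit 23) (.e (nat_lit 204885) (nat_lit 33) (.e (nat_lit 401414) (nat_lit 0) .nil))))))) (.g (nat_lit 0) .nil .nil))))) (.nd (nat_lit 4) (.nd (nat_lit 5) 
(.lf (nat_lit 102536) (.g (nat_lit 3004) (.e (nat_lit 3309) (nat_lit 202) (.e (nat_lit 573489) (nat_lit 14) (.e (nat_lit 73755) (nat_lit 8) (.e (nat_lit 557098) (nat_lit 13) (.e (nat_lit 179968) (nat_lit 18) .nil))))) .nil)) 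
(.lf (nat_lit 102568) (.g (nat_lit 4479) (.e (nat_lit 3346) (nat_lit 206) (.e (nat_lit 606223) (nat_lit 3) (.e (nat_lit 57478) (nat_lit 28) (.e (nat_lit 557108) (nat_lit 15) (.e (nat_lit 188452) (nat_lit 23) (.e (nat_lit 204885) (nat_lit 33) (.e (nat_lit 401414) (nat_lit 0) .nil))))))) (.g (nat_lit 0) .nil .nil)))) (.nd (nat_lit 5) 
(.lf (nat_lit 102552) (.g (nat_lit 1709) (.e (nat_lit 3311) (nat_lit 202) (.e (nat_lit 573482) (nat_lit 13) (.e (nat_lit 65619) (nat_lit 10) (.e (nat_lit 344126) (nat_lit 25) .nil)))) .nil)) 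
(.lf (nat_lit 102584) (.g (nat_lit 3811) (.e (nat_lit 3349) (nat_lit 206) (.e (nat_lit 606223) (nat_lit 3) (.e (nat_lit 57480) (nat_lit 28) (.e (nat_lit 557108) (nat_lit 15) (.e (nat_lit 188452) (nat_lit 23) (.e (nat_lit 204885) (nat_lit 33) (.e (nat_lit 401414) (nat_lit 0) .nil))))))) (.g (nat_lit 0) .nil .nil)))))) (.nd (nat_lit 3) (.nd (nat_lit 4) (.nd (nat_lit 5) 
(.lf (nat_lit 102532) (.g (nat_lit 3003) (.e (nat_lit 3309) (nat_lit 202) (.e (nat_lit 573489) (nat_lit 14) (.e (nat_lit 73755) (nat_lit 8) (.e (nat_lit 557098) (nat_lit 13) (.e (nat_lit 172133) (nat_lit 15) (.e (nat_lit 1800) (nat_lit 119) (.e (nat_lit 516115) (nat_lit 1) (.e (nat_lit 164325) (nat_lit 230) (.e (nat_lit 163845) (nat_lit 0) .nil))))))))) (.g (nat_lit 4) .nil .nil))) 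
(.lf (nat_lit 102564) (.g (nat_lit 154) (.e (nat_lit 3316) (nat_lit 203) (.e (nat_lit 581652) (nat_lit 5) (.e (nat_lit 180241) (nat_lit 4) .nil))) .nil))) (.nd (nat_lit 5) 
(.lf (nat_lit 102548) (.g (nat_lit 3793) (.e (nat_lit 3311) (nat_lit 202) (.e (nat_lit 573471) (nat_lit 11) (.e (nat_lit 16425) (nat_lit 7) (.e (nat_lit 409616) (nat_lit 10) .nil)))) .nil)) 
(.lf (nat_lit 102580) (.g (nat_lit 3791) (.e (nat_lit 3348) (nat_lit 206) (.e (nat_lit 606226) (nat_lit 4) (.e (nat_lit 65630) (nat_lit 14) (.e (nat_lit 401459) (nat_lit 13) (.e (nat_lit 483411) (nat_lit 27) (.e (nat_lit 401414) (nat_lit 0) .nil)))))) (.g (nat_lit 0) .nil .nil))))) (.nd (nat_lit 4) (.nd (nat_lit 5) 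
(.lf (nat_lit 102540) (.g (nat_lit 3770) (.e (nat_lit 3309) (nat_lit 202) (.e (nat_lit 573492) (nat_lit 15) (.e (nat_lit 81956) (nat_lit 23) (.e (nat_lit 98389) (nat_lit 33) .nil)))) .nil)) 
(.lf (nat_lit 102572) (.g (nat_lit 4355) (.e (nat_lit 3347) (nat_lit 206) (.e (nat_lit 606223) (nat_lit 3) (.e (nat_lit 57478) (nat_lit 28) (.e (nat_lit 557108) (nat_lit 15) (.e (nat_lit 188452) (nat_lit 23) (.e (nat_lit 204885) (nat_lit 33) (.e (nat_lit 401414) (nat_lit 0) .nil))))))) (.g (nat_lit 7) .nil .nil)))) (.nd (nat_lit 5) 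
(.lf (nat_lit 102556) (.g (nat_lit 4612) (.e (nat_lit 3311) (nat_lit 202) (.e (nat_lit 573492) (nat_lit 15) (.e (nat_lit 81956) (nat_lit 23) (.e (nat_lit 98389) (nat_lit 33) .nil)))) .nil)) 
(.lf (nat_lit 102588) (.g (nat_lit 3167) (.e (nat_lit 3350) (nat_lit 206) (.e (nat_lit 606226) (nat_lit 4) (.e (nat_lit 65628) (nat_lit 14) (.e (nat_lit 401459) (nat_lit 13) (.e (nat_lit 483411) (nat_lit 27) (.e (nat_lit 401408) (nat_lit 0) .nil)))))) (.g (nat_lit 5) .nil .nil))))))) (.nd (nat_lit 2) (.nd (nat_lit 3) (.nd (nat_lit 4) (.nd (nat_lit 5) 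
(.lf (nat_lit 102530) (.g (nat_lit 3421) (.e (nat_lit 3309) (nat_lit 202) (.e (nat_lit 573489) (nat_lit 14) (.e (nat_lit 73755) (nat_lit 8) (.e (nat_lit 557098) (nat_lit 13) (.e (nat_lit 172131) (nat_lit 15) .nil))))) .nil)) 
(.lf (nat_lit 102562) (.g (nat_lit 1573) (.e (nat_lit 7936) (nat_lit 202) (.e (nat_lit 573482) (nat_lit 13) (.e (nat_lit 65628) (nat_lit 14) (.e (nat_lit 401428) (nat_lit 3) .nil)))) .nil))) (.nd (nat_lit 5) 
(.lf (nat_lit 102546) (.g (nat_lit 3241) (.e (nat_lit 3310) (nat_lit 202) (.e (nat_lit 573471) (nat_lit 11) (.e (nat_lit 16425) (nat_lit 7) (.e (nat_lit 409623) (nat_lit 10) .nil)))) .nil)) 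
(.lf (nat_lit 102578) (.g (nat_lit 3798) (.e (nat_lit 3348) (nat_lit 206) (.e (nat_lit 606223) (nat_lit 3) (.e (nat_lit 57480) (nat_lit 28) (.e (nat_lit 557108) (nat_lit 15) (.e (nat_lit 188452) (nat_lit 23) (.e (nat_lit 204885) (nat_lit 33) (.e (nat_lit 401414) (nat_lit 0) .nil))))))) (.g (nat_lit 0) .nil .nil))))) (.nd (nat_lit 4) (.nd (nat_lit 5) 
(.lf (nat_lit 102538) (.g (nat_lit 4310) (.e (nat_lit 3309) (nat_lit 202) (.e (nat_lit 573492) (nat_lit 15) (.e (nat_lit 81956) (nat_lit 23) (.e (nat_lit 98350) (nat_lit 24) (.e (nat_lit 409616) (nat_lit 10) (.e (nat_lit 7936) (nat_lit 298) (.e (nat_lit 2) (nat_lit 0) .nil))))))) (.g (nat_lit 4) .nil .nil))) 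
(.lf (nat_lit 102570) (.g (nat_lit 3711) (.e (nat_lit 3346) (nat_lit 206) (.e (nat_lit 606226) (nat_lit 4) (.e (nat_lit 65630) (nat_lit 14) (.e (nat_lit 401459) (nat_lit 13) (.e (nat_lit 483411) (nat_lit 27) (.e (nat_lit 401414) (nat_lit 0) .nil)))))) (.g (nat_lit 0) .nil .nil)))) (.nd (nat_lit 5) 
(.lf (nat_lit 102554) (.g (nat_lit 1586) (.e (nat_lit 3311) (nat_lit 202) (.e (nat_lit 573482) (nat_lit 13) (.e (nat_lit 65619) (nat_lit 10) (.e (nat_lit 344129) (nat_lit 26) .nil)))) .nil)) 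
(.lf (nat_lit 102586) (.g (nat_lit 3185) (.e (nat_lit 3349) (nat_lit 206) (.e (nat_lit 606226) (nat_lit 4) (.e (nat_lit 65630) (nat_lit 14) (.e (nat_lit 401459) (nat_lit 13) (.e (nat_lit 483411) (nat_lit 27) (.e (nat_lit 401408) (nat_lit 0) .nil)))))) (.g (nat_lit 6) .nil .nil)))))) (.nd (nat_lit 3) (.nd (nat_lit 4) (.nd (nat_lit 5) 
(.lf (nat_lit 102534) (.g (nat_lit 3503) (.e (nat_lit 3309) (nat_lit 202) (.e (nat_lit 573489) (nat_lit 14) (.e (nat_lit 73755) (nat_lit 8) (.e (nat_lit 557098) (nat_lit 13) (.e (nat_lit 172133) (nat_lit 15) (.e (nat_lit 1800) (nat_lit 119) (.e (nat_lit 516120) (nat_lit 1) (.e (nat_lit 164330) (nat_lit 230) (.e (nat_lit 163845) (nat_lit 0) .nil))))))))) (.g (nat_lit 4) .nil .nil))) 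
(.lf (nat_lit 102566) (.g (nat_lit 3058) (.e (nat_lit 3344) (nat_lit 206) (.e (nat_lit 606226) (nat_lit 4) (.e (nat_lit 65628) (nat_lit 14) (.e (nat_lit 401459) (nat_lit 13) (.e (nat_lit 483411) (nat_lit 27) (.e (nat_lit 401408) (nat_lit 0) .nil)))))) (.g (nat_lit 5) .nil .nil)))) (.nd (nat_lit 5) 
(.lf (nat_lit 102550) (.g (nat_lit 1753) (.e (nat_lit 3311) (nat_lit 202) (.e (nat_lit 573479) (nat_lit 13) (.e (nat_lit 65619) (nat_lit 10) (.e (nat_lit 344126) (nat_lit 25) (.e (nat_lit 548872) (nat_lit 5) (.e (nat_lit 1575) (nat_lit 110) (.e (nat_lit 352256) (nat_lit 0) .nil))))))) (.g (nat_lit 5) .nil .nil))) 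
(.lf (nat_lit 102582) (.g (nat_lit 3688) (.e (nat_lit 3349) (nat_lit 206) (.e (nat_lit 606222) (nat_lit 3) (.e (nat_lit 57480) (nat_lit 28) (.e (nat_lit 557108) (nat_lit 15) (.e (nat_lit 188452) (nat_lit 23) (.e (nat_lit 204885) (nat_lit 33) (.e (nat_lit 401414) (nat_lit 0) .nil))))))) (.g (nat_lit 0) .nil .nil))))) (.nd (nat_lit 4) (.nd (nat_lit 5) 
(.lf (nat_lit 102542) (.g (nat_lit 3139) (.e (nat_lit 3309) (nat_lit 202) (.e (nat_lit 573493) (nat_lit 15) (.e (nat_lit 81956) (nat_lit 23) (.e (nat_lit 98389) (nat_lit 33) .nil)))) .nil)) 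
(.lf (nat_lit 102574) (.g (nat_lit 3713) (.e (nat_lit 3347) (nat_lit 206) (.e (nat_lit 606225) (nat_lit 4) (.e (nat_lit 65628) (nat_lit 14) (.e (nat_lit 401459) (nat_lit 13) (.e (nat_lit 483411) (nat_lit 27) (.e (nat_lit 401414) (nat_lit 0) .nil)))))) (.g (nat_lit 6) .nil .nil)))) (.nd (nat_lit 5) 
(.lf (nat_lit 102558) (.g (nat_lit 3732) (.e (nat_lit 3312) (nat_lit 202) (.e (nat_lit 573471) (nat_lit 11) (.e (nat_lit 16425) (nat_lit 7) (.e (nat_lit 409617) (nat_lit 10) .nil)))) .nil)) 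
(.lf (nat_lit 102590) (.g (nat_lit 1042) (.e (nat_lit 3376) (nat_lit 209) (.e (nat_lit 630818) (nat_lit 15) (.e (nat_lit 57477) (nat_lit 28) (.e (nat_lit 557107) (nat_lit 15) (.e (nat_lit 196352) (nat_lit 18) .nil))))) .nil))))))) (.nd (nat_lit 1) (.nd (nat_lit 2) (.nd (nat_lit 3) (.nd (nat_lit 4) (.nd (nat_lit 5) 
(.lf (nat_lit 102529) (.g (nat_lit 2155) (.e (nat_lit 3309) (nat_lit 202) (.e (nat_lit 573489) (nat_lit 14) (.e (nat_lit 73755) (nat_lit 8) (.e (nat_lit 557097) (nat_lit 13) (.e (nat_lit 179968) (nat_lit 18) .nil))))) .nil)) 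
(.lf (nat_lit 102561) (.g (nat_lit 1767) (.e (nat_lit 3312) (nat_lit 202) (.e (nat_lit 573483) (nat_lit 13) (.e (nat_lit 65630) (nat_lit 14) (.e (nat_lit 401428) (nat_lit 3) (.e (nat_lit 204865) (nat_lit 28) (.e (nat_lit 352256) (nat_lit 0) .nil)))))) (.g (nat_lit 4) .nil .nil)))) (.nd (nat_lit 5) 
(.lf (nat_lit 102545) (.g (nat_lit 3651) (.e (nat_lit 3310) (nat_lit 202) (.e (nat_lit 573471) (nat_lit 11) (.e (nat_lit 16425) (nat_lit 7) (.e (nat_lit 409617) (nat_lit 10) .nil)))) .nil)) 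
(.lf (nat_lit 102577) (.g (nat_lit 4391) (.e (nat_lit 3348) (nat_lit 206) (.e (nat_lit 606223) (nat_lit 3) (.e (nat_lit 57478) (nat_lit 28) (.e (nat_lit 557108) (nat_lit 15) (.e (nat_lit 188452) (nat_lit 23) (.e (nat_lit 204885) (nat_lit 33) (.e (nat_lit 401414) (nat_lit 0) .nil))))))) (.g (nat_lit 0) .nil .nil))))) (.nd (nat_lit 4) (.nd (nat_lit 5) 
(.lf (nat_lit 102537) (.g (nat_lit 3659) (.e (nat_lit 3309) (nat_lit 202) (.e (nat_lit 573492) (nat_lit 15) (.e (nat_lit 81956) (nat_lit 23) (.e (nat_lit 98350) (nat_lit 24) .nil)))) .nil)) 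
(.lf (nat_lit 102569) (.g (nat_lit 3889) (.e (nat_lit 3346) (nat_lit 206) (.e (nat_lit 606223) (nat_lit 3) (.e (nat_lit 57480) (nat_lit 28) (.e (nat_lit 557108) (nat_lit 15) (.e (nat_lit 188452) (nat_lit 23) (.e (nat_lit 204885) (nat_lit 33) (.e (nat_lit 401414) (nat_lit 0) .nil))))))) (.g (nat_lit 0) .nil .nil)))) (.nd (nat_lit 5) 
(.lf (nat_lit 102553) (.g (nat_lit 2152) (.e (nat_lit 3311) (nat_lit 202) (.e (nat_lit 573482) (nat_lit 13) (.e (nat_lit 65619) (nat_lit 10) (.e (nat_lit 344126) (nat_lit 25) (.e (nat_lit 548874) (nat_lit 5) .nil))))) .nil)) 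
(.lf (nat_lit 102585) (.g (nat_lit 3455) (.e (nat_lit 3349) (nat_lit 206) (.e (nat_lit 606226) (nat_lit 4) (.e (nat_lit 65628) (nat_lit 14) (.e (nat_lit 401459) (nat_lit 13) (.e (nat_lit 483411) (nat_lit 27) (.e (nat_lit 401408) (nat_lit 0) .nil)))))) (.g (nat_lit 0) .nil .nil)))))) (.nd (nat_lit 3) (.nd (nat_lit 4) (.nd (nat_lit 5) 
(.lf (nat_lit 102533) (.g (nat_lit 3824) (.e (nat_lit 3309) (nat_lit 202) (.e (nat_lit 573489) (nat_lit 14) (.e (nat_lit 73755) (nat_lit 8) (.e (nat_lit 557098) (nat_lit 13) (.e (nat_lit 172133) (nat_lit 15) (.e (nat_lit 1800) (nat_lit 119) (.e (nat_lit 516120) (nat_lit 1) (.e (nat_lit 164330) (nat_lit 230) (.e (nat_lit 163841) (nat_lit 0) .nil))))))))) (.g (nat_lit 5) .nil .nil))) 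
(.lf (nat_lit 102565) (.g (nat_lit 1807) (.e (nat_lit 3344) (nat_lit 206) (.e (nat_lit 606226) (nat_lit 4) (.e (nat_lit 65628) (nat_lit 14) (.e (nat_lit 401459) (nat_lit 13) (.e (nat_lit 483411) (nat_lit 27) .nil))))) .nil))) (.nd (nat_lit 5) 
(.lf (nat_lit 102549) (.g (nat_lit 909) (.e (nat_lit 3311) (nat_lit 202) (.e (nat_lit 573479) (nat_lit 13) (.e (nat_lit 65619) (nat_lit 10) (.e (nat_lit 344115) (nat_lit 20) .nil)))) .nil)) 
(.lf (nat_lit 102581) (.g (nat_lit 3850) (.e (nat_lit 3348) (nat_lit 206) (.e (nat_lit 606228) (nat_lit 6) (.e (nat_lit 81959) (nat_lit 24) (.e (nat_lit 123229) (nat_lit 282) (.e (nat_lit 163896) (nat_lit 10) (.e (nat_lit 409649) (nat_lit 18) (.e (nat_lit 303111) (nat_lit 0) .nil))))))) (.g (nat_lit 0) .nil .nil))))) (.nd (nat_lit 4) (.nd (nat_lit 5) 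
(.lf (nat_lit 102541) (.g (nat_lit 3930) (.e (nat_lit 3309) (nat_lit 202) (.e (nat_lit 573493) (nat_lit 15) (.e (nat_lit 81956) (nat_lit 23) (.e (nat_lit 98388) (nat_lit 33) .nil)))) .nil)) 
(.lf (nat_lit 102573) (.g (nat_lit 3762) (.e (nat_lit 3347) (nat_lit 206) (.e (nat_lit 606223) (nat_lit 3) (.e (nat_lit 57480) (nat_lit 28) (.e (nat_lit 557108) (nat_lit 15) (.e (nat_lit 188452) (nat_lit 23) (.e (nat_lit 204885) (nat_lit 33) (.e (nat_lit 401414) (nat_lit 0) .nil))))))) (.g (nat_lit 7) .nil .nil)))) (.nd (nat_lit 5) 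
(.lf (nat_lit 102557) (.g (nat_lit 3787) (.e (nat_lit 3312) (nat_lit 202) (.e (nat_lit 573471) (nat_lit 11) (.e (nat_lit 16425) (nat_lit 7) (.e (nat_lit 409616) (nat_lit 10) .nil)))) .nil)) 
(.lf (nat_lit 102589) (.g (nat_lit 2914) (.e (nat_lit 3350) (nat_lit 206) (.e (nat_lit 606226) (nat_lit 4) (.e (nat_lit 65630) (nat_lit 14) (.e (nat_lit 401459) (nat_lit 13) (.e (nat_lit 483411) (nat_lit 27) (.e (nat_lit 401408) (nat_lit 0) .nil)))))) (.g (nat_lit 5) .nil .nil))))))) (.nd (nat_lit 2) (.nd (nat_lit 3) (.nd (nat_lit 4) (.nd (nat_lit 5) 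
(.lf (nat_lit 102531) (.g (nat_lit 2919) (.e (nat_lit 3309) (nat_lit 202) (.e (nat_lit 573489) (nat_lit 14) (.e (nat_lit 73755) (nat_lit 8) (.e (nat_lit 557098) (nat_lit 13) (.e (nat_lit 172133) (nat_lit 15) .nil))))) .nil)) 
(.lf (nat_lit 102563) (.g (nat_lit 2074) (.e (nat_lit 7936) (nat_lit 202) (.e (nat_lit 573493) (nat_lit 15) (.e (nat_lit 81956) (nat_lit 23) (.e (nat_lit 98389) (nat_lit 33) .nil)))) .nil))) (.nd (nat_lit 5) 
(.lf (nat_lit 102547) (.g (nat_lit 1270) (.e (nat_lit 3311) (nat_lit 202) (.e (nat_lit 573471) (nat_lit 11) (.e (nat_lit 16425) (nat_lit 7) .nil))) .nil)) 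
(.lf (nat_lit 102579) (.g (nat_lit 3745) (.e (nat_lit 3348) (nat_lit 206) (.e (nat_lit 606226) (nat_lit 4) (.e (nat_lit 65628) (nat_lit 14) (.e (nat_lit 401459) (nat_lit 13) (.e (nat_lit 483411) (nat_lit 27) (.e (nat_lit 401414) (nat_lit 0) .nil)))))) (.g (nat_lit 0) .nil .nil))))) (.nd (nat_lit 4) (.nd (nat_lit 5) 
(.lf (nat_lit 102539) (.g (nat_lit 4729) (.e (nat_lit 3309) (nat_lit 202) (.e (nat_lit 573492) (nat_lit 15) (.e (nat_lit 81956) (nat_lit 23) (.e (nat_lit 98388) (nat_lit 33) .nil)))) .nil)) 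
(.lf (nat_lit 102571) (.g (nat_lit 3651) (.e (nat_lit 3347) (nat_lit 206) (.e (nat_lit 606222) (nat_lit 3) (.e (nat_lit 57480) (nat_lit 28) (.e (nat_lit 557108) (nat_lit 15) (.e (nat_lit 188452) (nat_lit 23) (.e (nat_lit 204885) (nat_lit 33) (.e (nat_lit 401414) (nat_lit 0) .nil))))))) (.g (nat_lit 0) .nil .nil)))) (.nd (nat_lit 5) 
(.lf (nat_lit 102555) (.g (nat_lit 709) (.e (nat_lit 3311) (nat_lit 202) (.e (nat_lit 573491) (nat_lit 15) (.e (nat_lit 81943) (nat_lit 20) .nil))) .nil)) 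
(.lf (nat_lit 102587) (.g (nat_lit 3819) (.e (nat_lit 3349) (nat_lit 206) (.e (nat_lit 606226) (nat_lit 4) (.e (nat_lit 65630) (nat_lit 14) (.e (nat_lit 401459) (nat_lit 13) (.e (nat_lit 483411) (nat_lit 27) (.e (nat_lit 401414) (nat_lit 0) .nil)))))) (.g (nat_lit 0) .nil .nil)))))) (.nd (nat_lit 3) (.nd (nat_lit 4) (.nd (nat_lit 5) 
(.lf (nat_lit 102535) (.g (nat_lit 3004) (.e (nat_lit 3309) (nat_lit 202) (.e (nat_lit 573489) (nat_lit 14) (.e (nat_lit 73755) (nat_lit 8) (.e (nat_lit 557098) (nat_lit 13) (.e (nat_lit 179968) (nat_lit 15) .nil))))) .nil)) 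
(.lf (nat_lit 102567) (.g (nat_lit 3734) (.e (nat_lit 3346) (nat_lit 206) (.e (nat_lit 606222) (nat_lit 3) (.e (nat_lit 57480) (nat_lit 28) (.e (nat_lit 557108) (nat_lit 15) (.e (nat_lit 188452) (nat_lit 23) (.e (nat_lit 204885) (nat_lit 33) (.e (nat_lit 401414) (nat_lit 0) .nil))))))) (.g (nat_lit 0) .nil .nil)))) (.nd (nat_lit 5) 
(.lf (nat_lit 102551) (.g (nat_lit 932) (.e (nat_lit 3311) (nat_lit 202) (.e (nat_lit 573482) (nat_lit 13) (.e (nat_lit 65619) (nat_lit 10) .nil))) .nil)) 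
(.lf (nat_lit 102583) (.g (nat_lit 4379) (.e (nat_lit 3349) (nat_lit 206) (.e (nat_lit 606223) (nat_lit 3) (.e (nat_lit 57478) (nat_lit 28) (.e (nat_lit 557108) (nat_lit 15) (.e (nat_lit 188452) (nat_lit 23) (.e (nat_lit 204885) (nat_lit 33) (.e (nat_lit 401414) (nat_lit 0) .nil))))))) (.g (nat_lit 0) .nil .nil))))) (.nd (nat_lit 4) (.nd (nat_lit 5) 
(.lf (nat_lit 102543) (.g (nat_lit 1236) (.e (nat_lit 3310) (nat_lit 202) (.e (nat_lit 573471) (nat_lit 11) (.e (nat_lit 16425) (nat_lit 7) .nil))) .nil)) 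
(.lf (nat_lit 102575) (.g (nat_lit 3612) (.e (nat_lit 3347) (nat_lit 206) (.e (nat_lit 606225) (nat_lit 4) (.e (nat_lit 65630) (nat_lit 14) (.e (nat_lit 401459) (nat_lit 13) (.e (nat_lit 483411) (nat_lit 27) (.e (nat_lit 401414) (nat_lit 0) .nil)))))) (.g (nat_lit 6) .nil .nil)))) (.nd (nat_lit 5) 
(.lf (nat_lit 102559) (.g (nat_lit 1884) (.e (nat_lit 3312) (nat_lit 202) (.e (nat_lit 573479) (nat_lit 13) (.e (nat_lit 65619) (nat_lit 10) (.e (nat_lit 344129) (nat_lit 26) (.e (nat_lit 557074) (nat_lit 9) .nil))))) .nil)) 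
(.lf (nat_lit 102591) (.g (nat_lit 1139) (.e (nat_lit 3376) (nat_lit 209) (.e (nat_lit 630818) (nat_lit 15) (.e (nat_lit 57477) (nat_lit 28) (.e (nat_lit 557107) (nat_lit 15) (.e (nat_lit 196352) (nat_lit 18) (.e (nat_lit 393237) (nat_lit 17) .nil)))))) (.g (nat_lit 4) .nil .nil)))))))))

noncomputable def tv1399 : DT := (.nd (nat_lit 0) (.nd (nat_lit 1) (.nd (nat_lit 2) (.nd (nat_lit 3) (.nd (nat_lit 4) (.nd (nat_lit 5) 
(.lf (nat_lit 102592) (.g (nat_lit 2862) (.e (nat_lit 3376) (nat_lit 209) (.e (nat_lit 630818) (nat_lit 15) (.e (nat_lit 57479) (nat_lit 28) (.e (nat_lit 557109) (nat_lit 15) (.e (nat_lit 196352) (nat_lit 18) .nil))))) .nil)) 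
(.lf (nat_lit 102624) (.g (nat_lit 1767) (.e (nat_lit 3388) (nat_lit 210) (.e (nat_lit 639017) (nat_lit 15) (.e (nat_lit 57480) (nat_lit 28) (.e (nat_lit 557107) (nat_lit 15) .nil)))) .nil))) (.nd (nat_lit 5) 
(.lf (nat_lit 102608) (.g (nat_lit 1625) (.e (nat_lit 3386) (nat_lit 210) (.e (nat_lit 639017) (nat_lit 15) (.e (nat_lit 57480) (nat_lit 28) (.e (nat_lit 557108) (nat_lit 15) (.e (nat_lit 196352) (nat_lit 18) .nil))))) .nil)) 
(.lf (nat_lit 102640) (.g (nat_lit 2079) (.e (nat_lit 3390) (nat_lit 210) (.e (nat_lit 639017) (nat_lit 15) (.e (nat_lit 57480) (nat_lit 28) (.e (nat_lit 557097) (nat_lit 13) (.e (nat_lit 172123) (nat_lit 13) (.e (nat_lit 483337) (nat_lit 9) (.e (nat_lit 426035) (nat_lit 0) .nil))))))) (.g (nat_lit 4) .nil .nil))))) (.nd (nat_lit 4) (.nd (nat_lit 5) 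
(.lf (nat_lit 102600) (.g (nat_lit 1429) (.e (nat_lit 3377) (nat_lit 209) (.e (nat_lit 630819) (nat_lit 15) (.e (nat_lit 57479) (nat_lit 28) (.e (nat_lit 557109) (nat_lit 15) .nil)))) .nil)) 
(.lf (nat_lit 102632) (.g (nat_lit 585) (.e (nat_lit 3390) (nat_lit 210) (.e (nat_lit 639007) (nat_lit 13) (.e (nat_lit 1599) (nat_lit 111) (.e (nat_lit 360480) (nat_lit 14) (.e (nat_lit 639001) (nat_lit 10) (.e (nat_lit 188435) (nat_lit 20) .nil)))))) (.g (nat_lit 0) .nil .nil)))) (.nd (nat_lit 5) 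
(.lf (nat_lit 102616) (.g (nat_lit 2117) (.e (nat_lit 3387) (nat_lit 210) (.e (nat_lit 639021) (nat_lit 16) (.e (nat_lit 65571) (nat_lit 3) (.e (nat_lit 98372) (nat_lit 29) (.e (nat_lit 458496) (nat_lit 3) .nil))))) .nil)) 
(.lf (nat_lit 102648) (.g (nat_lit 2558) (.e (nat_lit 3390) (nat_lit 210) (.e (nat_lit 639017) (nat_lit 15) (.e (nat_lit 57480) (nat_lit 28) (.e (nat_lit 557107) (nat_lit 15) (.e (nat_lit 188459) (nat_lit 26) .nil))))) .nil))))) (.nd (nat_lit 3) (.nd (nat_lit 4) (.nd (nat_lit 5) 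
(.lf (nat_lit 102596) (.g (nat_lit 2176) (.e (nat_lit 3376) (nat_lit 209) (.e (nat_lit 630821) (nat_lit 16) (.e (nat_lit 65583) (nat_lit 7) (.e (nat_lit 319530) (nat_lit 16) (.e (nat_lit 286739) (nat_lit 7) (.e (nat_lit 319538) (nat_lit 19) (.e (nat_lit 311300) (nat_lit 0) .nil))))))) (.g (nat_lit 7) .nil .nil))) 
(.lf (nat_lit 102628) (.g (nat_lit 3109) (.e (nat_lit 3389) (nat_lit 210) (.e (nat_lit 639017) (nat_lit 15) (.e (nat_lit 57479) (nat_lit 28) (.e (nat_lit 557105) (nat_lit 14) (.e (nat_lit 180252) (nat_lit 10) .nil))))) .nil))) (.nd (nat_lit 5) 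
(.lf (nat_lit 102612) (.g (nat_lit 2331) (.e (nat_lit 3386) (nat_lit 210) (.e (nat_lit 639022) (nat_lit 17) (.e (nat_lit 73746) (nat_lit 3) (.e (nat_lit 516146) (nat_lit 9) (.e (nat_lit 426294) (nat_lit 11) (.e (nat_lit 466688) (nat_lit 21) (.e (nat_lit 516106) (nat_lit 0) .nil))))))) (.g (nat_lit 5) .nil .nil))) 
(.lf (nat_lit 102644) (.g (nat_lit 2678) (.e (nat_lit 3390) (nat_lit 210) (.e (nat_lit 639017) (nat_lit 15) (.e (nat_lit 57480) (nat_lit 28) (.e (nat_lit 557103) (nat_lit 14) (.e (nat_lit 180243) (nat_lit 5) .nil))))) .nil)))) (.nd (nat_lit 4) (.nd (nat_lit 5) 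
(.lf (nat_lit 102604) (.g (nat_lit 687) (.e (nat_lit 3382) (nat_lit 209) (.e (nat_lit 630821) (nat_lit 16) (.e (nat_lit 65569) (nat_lit 3) (.e (nat_lit 98372) (nat_lit 29) .nil)))) .nil)) 
(.lf (nat_lit 102636) (.g (nat_lit 2252) (.e (nat_lit 3390) (nat_lit 210) (.e (nat_lit 639017) (nat_lit 15) (.e (nat_lit 57479) (nat_lit 28) (.e (nat_lit 557107) (nat_lit 15) .nil)))) .nil))) (.nd (nat_lit 5) 
(.lf (nat_lit 102620) (.g (nat_lit 3079) (.e (nat_lit 3388) (nat_lit 210) (.e (nat_lit 639017) (nat_lit 15) (.e (nat_lit 57480) (nat_lit 28) (.e (nat_lit 557103) (nat_lit 14) (.e (nat_lit 180252) (nat_lit 10) .nil))))) .nil)) 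
(.lf (nat_lit 102652) (.g (nat_lit 4729) (.e (nat_lit 3390) (nat_lit 210) (.e (nat_lit 639018) (nat_lit 15) (.e (nat_lit 57479) (nat_lit 28) (.e (nat_lit 557105) (nat_lit 14) (.e (nat_lit 180252) (nat_lit 10) (.e (nat_lit 573489) (nat_lit 14) (.e (nat_lit 73755) (nat_lit 8) (.e (nat_lit 557067) (nat_lit 9) (.e (nat_lit 2467) (nat_lit 157) .nil))))))))) (.g (nat_lit 9) .nil .nil))))))) 
(.nd (nat_lit 2) (.nd (nat_lit 3) (.nd (nat_lit 4) (.nd (nat_lit 5) 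
(.lf (nat_lit 102594) (.g (nat_lit 2031) (.e (nat_lit 3376) (nat_lit 209) (.e (nat_lit 630818) (nat_lit 15) (.e (nat_lit 57480) (nat_lit 28) (.e (nat_lit 557108) (nat_lit 15) (.e (nat_lit 196352) (nat_lit 18) .nil))))) .nil)) 
(.lf (nat_lit 102626) (.g (nat_lit 5946) (.e (nat_lit 3388) (nat_lit 210) (.e (nat_lit 639018) (nat_lit 15) (.e (nat_lit 57479) (nat_lit 28) (.e (nat_lit 557105) (nat_lit 14) (.e (nat_lit 180252) (nat_lit 10) (.e (nat_lit 573489) (nat_lit 14) (.e (nat_lit 73755) (nat_lit 8) (.e (nat_lit 557067) (nat_lit 9) (.e (nat_lit 2464) (nat_lit 157) .nil))))))))) (.g (nat_lit 9) .nil .nil)))) 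
(.nd (nat_lit 5) 
(.lf (nat_lit 102610) (.g (nat_lit 2690) (.e (nat_lit 3386) (nat_lit 210) (.e (nat_lit 639018) (nat_lit 15) (.e (nat_lit 57479) (nat_lit 28) (.e (nat_lit 557105) (nat_lit 14) (.e (nat_lit 180252) (nat_lit 10) .nil))))) .nil)) 
(.lf (nat_lit 102642) (.g (nat_lit 2602) (.e (nat_lit 3390) (nat_lit 210) (.e (nat_lit 639017) (nat_lit 15) (.e (nat_lit 57480) (nat_lit 28) (.e (nat_lit 557098) (nat_lit 13) (.e (nat_lit 172122) (nat_lit 13) (.e (nat_lit 483337) (nat_lit 9) (.e (nat_lit 426035) (nat_lit 0) .nil))))))) (.g (nat_lit 4) .nil .nil))))) (.nd (nat_lit 4) (.nd (nat_lit 5) 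
(.lf (nat_lit 102602) (.g (nat_lit 1020) (.e (nat_lit 3377) (nat_lit 209) (.e (nat_lit 630821) (nat_lit 16) (.e (nat_lit 65570) (nat_lit 3) (.e (nat_lit 98374) (nat_lit 29) (.e (nat_lit 458496) (nat_lit 3) .nil))))) .nil)) 
(.lf (nat_lit 102634) (.g (nat_lit 2532) (.e (nat_lit 3390) (nat_lit 210) (.e (nat_lit 639017) (nat_lit 15) (.e (nat_lit 57479) (nat_lit 28) (.e (nat_lit 557100) (nat_lit 13) (.e (nat_lit 172065) (nat_lit 3) .nil))))) .nil))) (.nd (nat_lit 5) 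
(.lf (nat_lit 102618) (.g (nat_lit 2803) (.e (nat_lit 3388) (nat_lit 210) (.e (nat_lit 639017) (nat_lit 15) (.e (nat_lit 57478) (nat_lit 28) (.e (nat_lit 557105) (nat_lit 14) (.e (nat_lit 180252) (nat_lit 10) (.e (nat_lit 573489) (nat_lit 14) (.e (nat_lit 73755) (nat_lit 8) (.e (nat_lit 557067) (nat_lit 9) (.e (nat_lit 2467) (nat_lit 157) .nil))))))))) (.g (nat_lit 5) .nil .nil))) 
(.lf (nat_lit 102650) (.g (nat_lit 1465) (.e (nat_lit 3390) (nat_lit 210) (.e (nat_lit 639017) (nat_lit 15) (.e (nat_lit 57480) (nat_lit 28) (.e (nat_lit 557108) (nat_lit 15) (.e (nat_lit 196352) (nat_lit 18) .nil))))) .nil))))) (.nd (nat_lit 3) (.nd (nat_lit 4) (.nd (nat_lit 5) 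
(.lf (nat_lit 102598) (.g (nat_lit 1667) (.e (nat_lit 3376) (nat_lit 209) (.e (nat_lit 630822) (nat_lit 17) (.e (nat_lit 73746) (nat_lit 3) (.e (nat_lit 516165) (nat_lit 12) (.e (nat_lit 458496) (nat_lit 3) .nil))))) .nil)) 
(.lf (nat_lit 102630) (.g (nat_lit 2819) (.e (nat_lit 3389) (nat_lit 210) (.e (nat_lit 639017) (nat_lit 15) (.e (nat_lit 57480) (nat_lit 28) (.e (nat_lit 557103) (nat_lit 14) (.e (nat_lit 180243) (nat_lit 5) .nil))))) .nil))) (.nd (nat_lit 5) 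
(.lf (nat_lit 102614) (.g (nat_lit 1671) (.e (nat_lit 3387) (nat_lit 210) (.e (nat_lit 639017) (nat_lit 15) (.e (nat_lit 57480) (nat_lit 28) (.e (nat_lit 557108) (nat_lit 15) (.e (nat_lit 196352) (nat_lit 18) .nil))))) .nil)) 
(.lf (nat_lit 102646) (.g (nat_lit 2121) (.e (nat_lit 3390) (nat_lit 210) (.e (nat_lit 639017) (nat_lit 15) (.e (nat_lit 57480) (nat_lit 28) (.e (nat_lit 557105) (nat_lit 14) (.e (nat_lit 180245) (nat_lit 5) (.e (nat_lit 532515) (nat_lit 3) (.e (nat_lit 114719) (nat_lit 23) (.e (nat_lit 98325) (nat_lit 17) .nil)))))))) (.g (nat_lit 4) .nil .nil))))) (.nd (nat_lit 4) (.nd (nat_lit 5) 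
(.lf (nat_lit 102606) (.g (nat_lit 1803) (.e (nat_lit 3385) (nat_lit 210) (.e (nat_lit 639017) (nat_lit 15) (.e (nat_lit 57480) (nat_lit 28) (.e (nat_lit 557108) (nat_lit 15) (.e (nat_lit 196352) (nat_lit 18) (.e (nat_lit 393232) (nat_lit 17) .nil)))))) (.g (nat_lit 4) .nil .nil))) 
(.lf (nat_lit 102638) (.g (nat_lit 3311) (.e (nat_lit 3390) (nat_lit 210) (.e (nat_lit 639017) (nat_lit 15) (.e (nat_lit 57479) (nat_lit 28) (.e (nat_lit 557109) (nat_lit 15) (.e (nat_lit 188461) (nat_lit 26) (.e (nat_lit 253954) (nat_lit 0) (.e (nat_lit 2887) (nat_lit 184) (.e (nat_lit 426043) (nat_lit 0) .nil)))))))) (.g (nat_lit 4) .nil .nil)))) (.nd (nat_lit 5) 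
(.lf (nat_lit 102622) (.g (nat_lit 2042) (.e (nat_lit 3388) (nat_lit 210) (.e (nat_lit 639017) (nat_lit 15) (.e (nat_lit 57480) (nat_lit 28) (.e (nat_lit 557105) (nat_lit 14) (.e (nat_lit 180252) (nat_lit 10) .nil))))) .nil)) 
(.lf (nat_lit 102654) (.g (nat_lit 1696) (.e (nat_lit 3390) (nat_lit 210) (.e (nat_lit 639020) (nat_lit 16) (.e (nat_lit 65627) (nat_lit 13) (.e (nat_lit 393284) (nat_lit 24) (.e (nat_lit 434276) (nat_lit 39) .nil))))) .nil))))))) (.nd (nat_lit 1) (.nd (nat_lit 2) (.nd (nat_lit 3) (.nd (nat_lit 4) (.nd (nat_lit 5) 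
(.lf (nat_lit 102593) (.g (nat_lit 1778) (.e (nat_lit 3376) (nat_lit 209) (.e (nat_lit 630818) (nat_lit 15) (.e (nat_lit 57480) (nat_lit 28) (.e (nat_lit 557107) (nat_lit 15) (.e (nat_lit 196352) (nat_lit 18) (.e (nat_lit 393241) (nat_lit 17) .nil)))))) (.g (nat_lit 4) .nil .nil))) 
(.lf (nat_lit 102625) (.g (nat_lit 1660) (.e (nat_lit 3388) (nat_lit 210) (.e (nat_lit 639017) (nat_lit 15) (.e (nat_lit 57480) (nat_lit 28) (.e (nat_lit 557108) (nat_lit 15) (.e (nat_lit 196352) (nat_lit 18) .nil))))) .nil))) (.nd (nat_lit 5) 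
(.lf (nat_lit 102609) (.g (nat_lit 1798) (.e (nat_lit 3386) (nat_lit 210) (.e (nat_lit 639017) (nat_lit 15) (.e (nat_lit 57480) (nat_lit 28) (.e (nat_lit 557108) (nat_lit 15) (.e (nat_lit 196352) (nat_lit 18) (.e (nat_lit 393231) (nat_lit 17) .nil)))))) (.g (nat_lit 4) .nil .nil))) 
(.lf (nat_lit 102641) (.g (nat_lit 2444) (.e (nat_lit 3390) (nat_lit 210) (.e (nat_lit 639017) (nat_lit 15) (.e (nat_lit 57480) (nat_lit 28) (.e (nat_lit 557098) (nat_lit 13) (.e (nat_lit 172067) (nat_lit 3) .nil))))) .nil)))) (.nd (nat_lit 4) (.nd (nat_lit 5) 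
(.lf (nat_lit 102601) (.g (nat_lit 1536) (.e (nat_lit 3377) (nat_lit 209) (.e (nat_lit 630819) (nat_lit 15) (.e (nat_lit 57480) (nat_lit 28) (.e (nat_lit 557108) (nat_lit 15) (.e (nat_lit 196352) (nat_lit 18) .nil))))) .nil)) 
(.lf (nat_lit 102633) (.g (nat_lit 1668) (.e (nat_lit 3390) (nat_lit 210) (.e (nat_lit 639017) (nat_lit 15) (.e (nat_lit 57478) (nat_lit 28) (.e (nat_lit 557107) (nat_lit 15) (.e (nat_lit 188459) (nat_lit 26) .nil))))) .nil))) (.nd (nat_lit 5) 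
(.lf (nat_lit 102617) (.g (nat_lit 1817) (.e (nat_lit 3387) (nat_lit 210) (.e (nat_lit 639021) (nat_lit 16) (.e (nat_lit 65571) (nat_lit 3) (.e (nat_lit 98373) (nat_lit 29) (.e (nat_lit 458496) (nat_lit 3) .nil))))) .nil)) 
(.lf (nat_lit 102649) (.g (nat_lit 2603) (.e (nat_lit 3390) (nat_lit 210) (.e (nat_lit 639017) (nat_lit 15) (.e (nat_lit 57480) (nat_lit 28) (.e (nat_lit 557107) (nat_lit 15) (.e (nat_lit 188459) (nat_lit 26) (.e (nat_lit 253954) (nat_lit 0) (.e (nat_lit 2887) (nat_lit 184) (.e (nat_lit 426043) (nat_lit 0) .nil)))))))) (.g (nat_lit 4) .nil .nil)))))) 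
(.nd (nat_lit 3) (.nd (nat_lit 4) (.nd (nat_lit 5) 
(.lf (nat_lit 102597) (.g (nat_lit 2054) (.e (nat_lit 3376) (nat_lit 209) (.e (nat_lit 630821) (nat_lit 16) (.e (nat_lit 65583) (nat_lit 7) (.e (nat_lit 319530) (nat_lit 16) (.e (nat_lit 286739) (nat_lit 7) (.e (nat_lit 319539) (nat_lit 19) (.e (nat_lit 311299) (nat_lit 0) .nil))))))) (.g (nat_lit 0) .nil .nil))) 
(.lf (nat_lit 102629) (.g (nat_lit 3132) (.e (nat_lit 3389) (nat_lit 210) (.e (nat_lit 639017) (nat_lit 15) (.e (nat_lit 57479) (nat_lit 28) (.e (nat_lit 557105) (nat_lit 14) (.e (nat_lit 180252) (nat_lit 10) (.e (nat_lit 573489) (nat_lit 14) (.e (nat_lit 73755) (nat_lit 8) (.e (nat_lit 557067) (nat_lit 9) (.e (nat_lit 2466) (nat_lit 157) .nil))))))))) (.g (nat_lit 4) .nil .nil)))) 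
(.nd (nat_lit 5) 
(.lf (nat_lit 102613) (.g (nat_lit 1912) (.e (nat_lit 3386) (nat_lit 210) (.e (nat_lit 639022) (nat_lit 17) (.e (nat_lit 73746) (nat_lit 3) (.e (nat_lit 516150) (nat_lit 9) (.e (nat_lit 426294) (nat_lit 11) (.e (nat_lit 466688) (nat_lit 21) (.e (nat_lit 516106) (nat_lit 0) .nil))))))) (.g (nat_lit 5) .nil .nil))) 
(.lf (nat_lit 102645) (.g (nat_lit 2950) (.e (nat_lit 3390) (nat_lit 210) (.e (nat_lit 639017) (nat_lit 15) (.e (nat_lit 57480) (nat_lit 28) (.e (nat_lit 557103) (nat_lit 14) (.e (nat_lit 180252) (nat_lit 10) (.e (nat_lit 573489) (nat_lit 14) (.e (nat_lit 73755) (nat_lit 8) (.e (nat_lit 557067) (nat_lit 9) (.e (nat_lit 2467) (nat_lit 157) .nil))))))))) (.g (nat_lit 4) .nil .nil))))) 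
(.nd (nat_lit 4) (.nd (nat_lit 5) 
(.lf (nat_lit 102605) (.g (nat_lit 519) (.e (nat_lit 3382) (nat_lit 209) (.e (nat_lit 630821) (nat_lit 16) (.e (nat_lit 65569) (nat_lit 3) (.e (nat_lit 98373) (nat_lit 29) .nil)))) .nil)) 
(.lf (nat_lit 102637) (.g (nat_lit 2045) (.e (nat_lit 3390) (nat_lit 210) (.e (nat_lit 639017) (nat_lit 15) (.e (nat_lit 57479) (nat_lit 28) (.e (nat_lit 557109) (nat_lit 15) .nil)))) .nil))) (.nd (nat_lit 5) 
(.lf (nat_lit 102621) (.g (nat_lit 2893) (.e (nat_lit 3388) (nat_lit 210) (.e (nat_lit 639017) (nat_lit 15) (.e (nat_lit 57480) (nat_lit 28) (.e (nat_lit 557104) (nat_lit 14) (.e (nat_lit 180252) (nat_lit 10) (.e (nat_lit 573489) (nat_lit 14) (.e (nat_lit 73755) (nat_lit 8) (.e (nat_lit 557067) (nat_lit 9) (.e (nat_lit 2467) (nat_lit 157) .nil))))))))) (.g (nat_lit 5) .nil .nil))) 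
(.lf (nat_lit 102653) (.g (nat_lit 1697) (.e (nat_lit 3390) (nat_lit 210) (.e (nat_lit 639020) (nat_lit 16) (.e (nat_lit 65586) (nat_lit 7) (.e (nat_lit 319531) (nat_lit 16) (.e (nat_lit 286727) (nat_lit 0) .nil))))) .nil)))))) (.nd (nat_lit 2) (.nd (nat_lit 3) (.nd (nat_lit 4) (.nd (nat_lit 5) 
(.lf (nat_lit 102595) (.g (nat_lit 1958) (.e (nat_lit 3376) (nat_lit 209) (.e (nat_lit 630821) (nat_lit 16) (.e (nat_lit 65583) (nat_lit 7) (.e (nat_lit 319530) (nat_lit 16) (.e (nat_lit 286739) (nat_lit 7) (.e (nat_lit 319537) (nat_lit 19) (.e (nat_lit 311300) (nat_lit 0) .nil))))))) (.g (nat_lit 7) .nil .nil))) 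
(.lf (nat_lit 102627) (.g (nat_lit 3551) (.e (nat_lit 3388) (nat_lit 210) (.e (nat_lit 639018) (nat_lit 15) (.e (nat_lit 57480) (nat_lit 28) (.e (nat_lit 557105) (nat_lit 14) (.e (nat_lit 180252) (nat_lit 10) (.e (nat_lit 573489) (nat_lit 14) (.e (nat_lit 73755) (nat_lit 8) (.e (nat_lit 557067) (nat_lit 9) (.e (nat_lit 2467) (nat_lit 157) .nil))))))))) (.g (nat_lit 5) .nil .nil)))) 
(.nd (nat_lit 5) 
(.lf (nat_lit 102611) (.g (nat_lit 2165) (.e (nat_lit 3386) (nat_lit 210) (.e (nat_lit 639021) (nat_lit 16) (.e (nat_lit 65586) (nat_lit 7) (.e (nat_lit 319531) (nat_lit 16) (.e (nat_lit 286727) (nat_lit 0) (.e (nat_lit 7936) (nat_lit 364) (.e (nat_lit 237580) (nat_lit 0) .nil))))))) (.g (nat_lit 5) .nil .nil))) 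
(.lf (nat_lit 102643) (.g (nat_lit 2816) (.e (nat_lit 3390) (nat_lit 210) (.e (nat_lit 639017) (nat_lit 15) (.e (nat_lit 57480) (nat_lit 28) (.e (nat_lit 557098) (nat_lit 13) (.e (nat_lit 172123) (nat_lit 13) .nil))))) .nil)))) (.nd (nat_lit 4) (.nd (nat_lit 5) 
(.lf (nat_lit 102603) (.g (nat_lit 1368) (.e (nat_lit 3377) (nat_lit 209) (.e (nat_lit 630821) (nat_lit 16) (.e (nat_lit 65586) (nat_lit 7) (.e (nat_lit 319531) (nat_lit 16) (.e (nat_lit 286739) (nat_lit 7) .nil))))) .nil)) 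
(.lf (nat_lit 102635) (.g (nat_lit 5462) (.e (nat_lit 3390) (nat_lit 210) (.e (nat_lit 639017) (nat_lit 15) (.e (nat_lit 57479) (nat_lit 28) (.e (nat_lit 557105) (nat_lit 14) (.e (nat_lit 180252) (nat_lit 10) (.e (nat_lit 573489) (nat_lit 14) (.e (nat_lit 73755) (nat_lit 8) (.e (nat_lit 557067) (nat_lit 9) (.e (nat_lit 2467) (nat_lit 157) .nil))))))))) (.g (nat_lit 9) .nil .nil)))) 
(.nd (nat_lit 5) 
(.lf (nat_lit 102619) (.g (nat_lit 3169) (.e (nat_lit 3388) (nat_lit 210) (.e (nat_lit 639017) (nat_lit 15) (.e (nat_lit 57479) (nat_lit 28) (.e (nat_lit 557105) (nat_lit 14) (.e (nat_lit 180252) (nat_lit 10) .nil))))) .nil)) 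
(.lf (nat_lit 102651) (.g (nat_lit 2732) (.e (nat_lit 3390) (nat_lit 210) (.e (nat_lit 639018) (nat_lit 15) (.e (nat_lit 57478) (nat_lit 28) (.e (nat_lit 557105) (nat_lit 14) (.e (nat_lit 180252) (nat_lit 10) (.e (nat_lit 573489) (nat_lit 14) (.e (nat_lit 73755) (nat_lit 8) (.e (nat_lit 557067) (nat_lit 9) (.e (nat_lit 2466) (nat_lit 157) .nil))))))))) (.g (nat_lit 5) .nil .nil)))))) 
(.nd (nat_lit 3) (.nd (nat_lit 4) (.nd (nat_lit 5) 
(.lf (nat_lit 102599) (.g (nat_lit 908) (.e (nat_lit 3376) (nat_lit 209) (.e (nat_lit 630822) (nat_lit 17) (.e (nat_lit 73747) (nat_lit 3) (.e (nat_lit 516166) (nat_lit 12) .nil)))) .nil)) 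
(.lf (nat_lit 102631) (.g (nat_lit 1585) (.e (nat_lit 3389) (nat_lit 210) (.e (nat_lit 639017) (nat_lit 15) (.e (nat_lit 57480) (nat_lit 28) (.e (nat_lit 557108) (nat_lit 15) (.e (nat_lit 196352) (nat_lit 18) .nil))))) .nil))) (.nd (nat_lit 5) 
(.lf (nat_lit 102615) (.g (nat_lit 2133) (.e (nat_lit 3387) (nat_lit 210) (.e (nat_lit 639018) (nat_lit 15) (.e (nat_lit 57480) (nat_lit 28) (.e (nat_lit 557108) (nat_lit 15) (.e (nat_lit 196352) (nat_lit 18) .nil))))) .nil)) 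
(.lf (nat_lit 102647) (.g (nat_lit 1316) (.e (nat_lit 3390) (nat_lit 210) (.e (nat_lit 639017) (nat_lit 15) (.e (nat_lit 57480) (nat_lit 28) (.e (nat_lit 557107) (nat_lit 15) .nil)))) .nil)))) (.nd (nat_lit 4) (.nd (nat_lit 5) 
(.lf (nat_lit 102607) (.g (nat_lit 2132) (.e (nat_lit 3385) (nat_lit 210) (.e (nat_lit 639018) (nat_lit 15) (.e (nat_lit 57480) (nat_lit 28) (.e (nat_lit 557108) (nat_lit 15) (.e (nat_lit 196352) (nat_lit 18) .nil))))) .nil)) 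
(.lf (nat_lit 102639) (.g (nat_lit 2035) (.e (nat_lit 3390) (nat_lit 210) (.e (nat_lit 639017) (nat_lit 15) (.e (nat_lit 57480) (nat_lit 28) (.e (nat_lit 557096) (nat_lit 13) .nil)))) .nil))) (.nd (nat_lit 5) 
(.lf (nat_lit 102623) (.g (nat_lit 3981) (.e (nat_lit 3388) (nat_lit 210) (.e (nat_lit 639017) (nat_lit 15) (.e (nat_lit 57480) (nat_lit 28) (.e (nat_lit 557105) (nat_lit 14) (.e (nat_lit 180252) (nat_lit 10) (.e (nat_lit 573489) (nat_lit 14) (.e (nat_lit 73755) (nat_lit 8) (.e (nat_lit 557067) (nat_lit 9) (.e (nat_lit 2467) (nat_lit 157) .nil))))))))) (.g (nat_lit 6) .nil .nil))) 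
(.lf (nat_lit 102655) (.g (nat_lit 2914) (.e (nat_lit 3390) (nat_lit 210) (.e (nat_lit 639021) (nat_lit 16) (.e (nat_lit 65583) (nat_lit 7) (.e (nat_lit 319530) (nat_lit 16) (.e (nat_lit 286727) (nat_lit 0) (.e (nat_lit 6149) (nat_lit 332) (.e (nat_lit 7936) (nat_lit 104) (.e (nat_lit 303111) (nat_lit 0) .nil)))))))) (.g (nat_lit 5) .nil .nil)))))))))

noncomputable def tv1400 : DT := (.nd (nat_lit 0) (.nd (nat_lit 1) (.nd (nat_lit 2) (.nd (nat_lit 3) (.nd (nat_lit 4) (.nd (nat_lit 5) 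
(.lf (nat_lit 102656) (.g (nat_lit 2139) (.e (nat_lit 3390) (nat_lit 210) (.e (nat_lit 639021) (nat_lit 16) (.e (nat_lit 65583) (nat_lit 7) (.e (nat_lit 319530) (nat_lit 16) (.e (nat_lit 286741) (nat_lit 8) (.e (nat_lit 335616) (nat_lit 18) (.e (nat_lit 303111) (nat_lit 0) .nil))))))) (.g (nat_lit 5) .nil .nil))) 
(.lf (nat_lit 102688) (.g (nat_lit 2884) (.e (nat_lit 3391) (nat_lit 210) (.e (nat_lit 639021) (nat_lit 16) (.e (nat_lit 65586) (nat_lit 7) (.e (nat_lit 319531) (nat_lit 16) (.e (nat_lit 286727) (nat_lit 0) (.e (nat_lit 6092) (nat_lit 332) (.e (nat_lit 1379) (nat_lit 104) (.e (nat_lit 303109) (nat_lit 0) .nil)))))))) (.g (nat_lit 8) .nil .nil)))) (.nd (nat_lit 5) 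
(.lf (nat_lit 102672) (.g (nat_lit 2591) (.e (nat_lit 3391) (nat_lit 210) (.e (nat_lit 639018) (nat_lit 15) (.e (nat_lit 57478) (nat_lit 28) (.e (nat_lit 557107) (nat_lit 15) (.e (nat_lit 196352) (nat_lit 18) .nil))))) .nil)) 
(.lf (nat_lit 102704) (.g (nat_lit 1814) (.e (nat_lit 3393) (nat_lit 210) (.e (nat_lit 639021) (nat_lit 16) (.e (nat_lit 65571) (nat_lit 3) (.e (nat_lit 98373) (nat_lit 29) (.e (nat_lit 458496) (nat_lit 3) .nil))))) .nil)))) (.nd (nat_lit 4) (.nd (nat_lit 5) 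
(.lf (nat_lit 102664) (.g (nat_lit 1004) (.e (nat_lit 3391) (nat_lit 210) (.e (nat_lit 639008) (nat_lit 13) (.e (nat_lit 1595) (nat_lit 111) (.e (nat_lit 360480) (nat_lit 14) (.e (nat_lit 639001) (nat_lit 10) (.e (nat_lit 188438) (nat_lit 20) .nil)))))) (.g (nat_lit 0) .nil .nil))) 
(.lf (nat_lit 102696) (.g (nat_lit 1015) (.e (nat_lit 3391) (nat_lit 210) (.e (nat_lit 639023) (nat_lit 18) (.e (nat_lit 81947) (nat_lit 20) (.e (nat_lit 1963) (nat_lit 134) (.e (nat_lit 639001) (nat_lit 10) (.e (nat_lit 188438) (nat_lit 20) .nil)))))) (.g (nat_lit 0) .nil .nil)))) (.nd (nat_lit 5) 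
(.lf (nat_lit 102680) (.g (nat_lit 2764) (.e (nat_lit 3391) (nat_lit 210) (.e (nat_lit 639018) (nat_lit 15) (.e (nat_lit 57480) (nat_lit 28) (.e (nat_lit 557107) (nat_lit 15) (.e (nat_lit 196352) (nat_lit 18) .nil))))) .nil)) 
(.lf (nat_lit 102712) (.g (nat_lit 1410) (.e (nat_lit 3397) (nat_lit 211) (.e (nat_lit 647181) (nat_lit 3) (.e (nat_lit 163977) (nat_lit 30) (.e (nat_lit 573479) (nat_lit 13) .nil)))) .nil))))) (.nd (nat_lit 3) (.nd (nat_lit 4) (.nd (nat_lit 5) 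
(.lf (nat_lit 102660) (.g (nat_lit 666) (.e (nat_lit 3391) (nat_lit 210) (.e (nat_lit 639008) (nat_lit 13) (.e (nat_lit 1592) (nat_lit 111) (.e (nat_lit 360480) (nat_lit 14) (.e (nat_lit 639001) (nat_lit 10) (.e (nat_lit 188435) (nat_lit 20) .nil)))))) (.g (nat_lit 0) .nil .nil))) 
(.lf (nat_lit 102692) (.g (nat_lit 728) (.e (nat_lit 3391) (nat_lit 210) (.e (nat_lit 639023) (nat_lit 18) (.e (nat_lit 81943) (nat_lit 20) (.e (nat_lit 1963) (nat_lit 134) (.e (nat_lit 639001) (nat_lit 10) (.e (nat_lit 188438) (nat_lit 20) .nil)))))) (.g (nat_lit 0) .nil .nil)))) (.nd (nat_lit 5) 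
(.lf (nat_lit 102676) (.g (nat_lit 3163) (.e (nat_lit 3391) (nat_lit 210) (.e (nat_lit 639018) (nat_lit 15) (.e (nat_lit 57479) (nat_lit 28) (.e (nat_lit 557109) (nat_lit 15) (.e (nat_lit 196352) (nat_lit 18) .nil))))) .nil)) 
(.lf (nat_lit 102708) (.g (nat_lit 2120) (.e (nat_lit 3394) (nat_lit 210) (.e (nat_lit 639018) (nat_lit 15) (.e (nat_lit 57480) (nat_lit 28) (.e (nat_lit 557108) (nat_lit 15) (.e (nat_lit 196352) (nat_lit 18) .nil))))) .nil)))) (.nd (nat_lit 4) (.nd (nat_lit 5) 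
(.lf (nat_lit 102668) (.g (nat_lit 1087) (.e (nat_lit 3391) (nat_lit 210) (.e (nat_lit 639017) (nat_lit 15) (.e (nat_lit 57480) (nat_lit 28) (.e (nat_lit 557108) (nat_lit 15) .nil)))) .nil)) 
(.lf (nat_lit 102700) (.g (nat_lit 1651) (.e (nat_lit 3393) (nat_lit 210) (.e (nat_lit 639017) (nat_lit 15) (.e (nat_lit 57480) (nat_lit 28) (.e (nat_lit 557107) (nat_lit 15) .nil)))) .nil))) (.nd (nat_lit 5) 
(.lf (nat_lit 102684) (.g (nat_lit 1550) (.e (nat_lit 3391) (nat_lit 210) (.e (nat_lit 639021) (nat_lit 16) (.e (nat_lit 65571) (nat_lit 3) (.e (nat_lit 98374) (nat_lit 29) .nil)))) .nil)) 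
(.lf (nat_lit 102716) (.g (nat_lit 2578) (.e (nat_lit 3397) (nat_lit 211) (.e (nat_lit 647181) (nat_lit 3) (.e (nat_lit 163977) (nat_lit 30) (.e (nat_lit 573479) (nat_lit 13) (.e (nat_lit 65619) (nat_lit 10) (.e (nat_lit 344117) (nat_lit 21) (.e (nat_lit 516151) (nat_lit 9) (.e (nat_lit 426025) (nat_lit 0) .nil)))))))) (.g (nat_lit 5) .nil .nil))))))) 
(.nd (nat_lit 2) (.nd (nat_lit 3) (.nd (nat_lit 4) (.nd (nat_lit 5) 
(.lf (nat_lit 102658) (.g (nat_lit 1615) (.e (nat_lit 3390) (nat_lit 210) (.e (nat_lit 639021) (nat_lit 16) (.e (nat_lit 65586) (nat_lit 7) (.e (nat_lit 319531) (nat_lit 16) (.e (nat_lit 286728) (nat_lit 0) .nil))))) .nil)) 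
(.lf (nat_lit 102690) (.g (nat_lit 2207) (.e (nat_lit 3391) (nat_lit 210) (.e (nat_lit 639022) (nat_lit 17) (.e (nat_lit 73747) (nat_lit 3) (.e (nat_lit 516146) (nat_lit 9) (.e (nat_lit 426294) (nat_lit 11) (.e (nat_lit 466688) (nat_lit 21) (.e (nat_lit 516106) (nat_lit 0) .nil))))))) (.g (nat_lit 4) .nil .nil)))) (.nd (nat_lit 5) 
(.lf (nat_lit 102674) (.g (nat_lit 5480) (.e (nat_lit 3391) (nat_lit 210) (.e (nat_lit 639018) (nat_lit 15) (.e (nat_lit 57479) (nat_lit 28) (.e (nat_lit 557105) (nat_lit 14) (.e (nat_lit 180252) (nat_lit 10) (.e (nat_lit 573489) (nat_lit 14) (.e (nat_lit 73755) (nat_lit 8) (.e (nat_lit 557067) (nat_lit 9) (.e (nat_lit 2466) (nat_lit 157) .nil))))))))) (.g (nat_lit 9) .nil .nil))) 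
(.lf (nat_lit 102706) (.g (nat_lit 1593) (.e (nat_lit 3394) (nat_lit 210) (.e (nat_lit 639017) (nat_lit 15) (.e (nat_lit 57480) (nat_lit 28) (.e (nat_lit 557108) (nat_lit 15) (.e (nat_lit 196352) (nat_lit 18) .nil))))) .nil)))) (.nd (nat_lit 4) (.nd (nat_lit 5) 
(.lf (nat_lit 102666) (.g (nat_lit 3111) (.e (nat_lit 3391) (nat_lit 210) (.e (nat_lit 639017) (nat_lit 15) (.e (nat_lit 57479) (nat_lit 28) (.e (nat_lit 557105) (nat_lit 14) (.e (nat_lit 180252) (nat_lit 10) .nil))))) .nil)) 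
(.lf (nat_lit 102698) (.g (nat_lit 1595) (.e (nat_lit 3392) (nat_lit 210) (.e (nat_lit 639017) (nat_lit 15) (.e (nat_lit 57480) (nat_lit 28) (.e (nat_lit 557108) (nat_lit 15) (.e (nat_lit 196352) (nat_lit 18) .nil))))) .nil))) (.nd (nat_lit 5) 
(.lf (nat_lit 102682) (.g (nat_lit 2888) (.e (nat_lit 3391) (nat_lit 210) (.e (nat_lit 639018) (nat_lit 15) (.e (nat_lit 57480) (nat_lit 28) (.e (nat_lit 557109) (nat_lit 15) (.e (nat_lit 196352) (nat_lit 18) .nil))))) .nil)) 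
(.lf (nat_lit 102714) (.g (nat_lit 2362) (.e (nat_lit 3397) (nat_lit 211) (.e (nat_lit 647181) (nat_lit 3) (.e (nat_lit 163977) (nat_lit 30) (.e (nat_lit 573479) (nat_lit 13) (.e (nat_lit 65619) (nat_lit 10) (.e (nat_lit 344117) (nat_lit 21) (.e (nat_lit 516151) (nat_lit 9) (.e (nat_lit 426003) (nat_lit 0) .nil)))))))) (.g (nat_lit 4) .nil .nil)))))) 
(.nd (nat_lit 3) (.nd (nat_lit 4) (.nd (nat_lit 5) 
(.lf (nat_lit 102662) (.g (nat_lit 763) (.e (nat_lit 3391) (nat_lit 210) (.e (nat_lit 639008) (nat_lit 13) (.e (nat_lit 1592) (nat_lit 111) (.e (nat_lit 360480) (nat_lit 14) (.e (nat_lit 639001) (nat_lit 10) (.e (nat_lit 188439) (nat_lit 20) .nil)))))) (.g (nat_lit 0) .nil .nil))) 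
(.lf (nat_lit 102694) (.g (nat_lit 962) (.e (nat_lit 3391) (nat_lit 210) (.e (nat_lit 639023) (nat_lit 18) (.e (nat_lit 81946) (nat_lit 20) (.e (nat_lit 1963) (nat_lit 134) (.e (nat_lit 639001) (nat_lit 10) (.e (nat_lit 188438) (nat_lit 20) .nil)))))) (.g (nat_lit 0) .nil .nil)))) (.nd (nat_lit 5) 
(.lf (nat_lit 102678) (.g (nat_lit 2488) (.e (nat_lit 3391) (nat_lit 210) (.e (nat_lit 639018) (nat_lit 15) (.e (nat_lit 57480) (nat_lit 28) (.e (nat_lit 557105) (nat_lit 14) (.e (nat_lit 180245) (nat_lit 5) .nil))))) .nil)) 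
(.lf (nat_lit 102710) (.g (nat_lit 1588) (.e (nat_lit 7936) (nat_lit 210) (.e (nat_lit 639017) (nat_lit 15) (.e (nat_lit 57480) (nat_lit 28) (.e (nat_lit 557108) (nat_lit 15) (.e (nat_lit 196352) (nat_lit 18) .nil))))) .nil)))) (.nd (nat_lit 4) (.nd (nat_lit 5) 
(.lf (nat_lit 102670) (.g (nat_lit 2340) (.e (nat_lit 3391) (nat_lit 210) (.e (nat_lit 639018) (nat_lit 15) (.e (nat_lit 57478) (nat_lit 28) (.e (nat_lit 557103) (nat_lit 14) (.e (nat_lit 180250) (nat_lit 10) .nil))))) .nil)) 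
(.lf (nat_lit 102702) (.g (nat_lit 1765) (.e (nat_lit 3393) (nat_lit 210) (.e (nat_lit 639017) (nat_lit 15) (.e (nat_lit 57480) (nat_lit 28) (.e (nat_lit 557108) (nat_lit 15) (.e (nat_lit 196352) (nat_lit 18) (.e (nat_lit 393235) (nat_lit 17) .nil)))))) (.g (nat_lit 4) .nil .nil)))) (.nd (nat_lit 5) 
(.lf (nat_lit 102686) (.g (nat_lit 1265) (.e (nat_lit 3391) (nat_lit 210) (.e (nat_lit 639021) (nat_lit 16) (.e (nat_lit 65583) (nat_lit 7) (.e (nat_lit 319530) (nat_lit 16) (.e (nat_lit 286740) (nat_lit 7) (.e (nat_lit 327424) (nat_lit 18) (.e (nat_lit 303108) (nat_lit 0) .nil))))))) (.g (nat_lit 5) .nil .nil))) 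
(.lf (nat_lit 102718) (.g (nat_lit 1481) (.e (nat_lit 3397) (nat_lit 211) (.e (nat_lit 647183) (nat_lit 4) (.e (nat_lit 172097) (nat_lit 9) (.e (nat_lit 426025) (nat_lit 0) (.e (nat_lit 3399) (nat_lit 211) .nil))))) .nil))))))) (.nd (nat_lit 1) (.nd (nat_lit 2) (.nd (nat_lit 3) (.nd (nat_lit 4) (.nd (nat_lit 5) 
(.lf (nat_lit 102657) (.g (nat_lit 2276) (.e (nat_lit 3390) (nat_lit 210) (.e (nat_lit 639021) (nat_lit 16) (.e (nat_lit 65586) (nat_lit 7) (.e (nat_lit 319531) (nat_lit 16) (.e (nat_lit 286721) (nat_lit 0) (.e (nat_lit 6097) (nat_lit 332) (.e (nat_lit 7936) (nat_lit 104) (.e (nat_lit 303111) (nat_lit 0) .nil)))))))) (.g (nat_lit 4) .nil .nil))) 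
(.lf (nat_lit 102689) (.g (nat_lit 1985) (.e (nat_lit 3391) (nat_lit 210) (.e (nat_lit 639021) (nat_lit 16) (.e (nat_lit 65586) (nat_lit 7) (.e (nat_lit 319531) (nat_lit 16) (.e (nat_lit 286740) (nat_lit 7) (.e (nat_lit 327424) (nat_lit 18) (.e (nat_lit 303108) (nat_lit 0) .nil))))))) (.g (nat_lit 5) .nil .nil)))) (.nd (nat_lit 5) 
(.lf (nat_lit 102673) (.g (nat_lit 2712) (.e (nat_lit 3391) (nat_lit 210) (.e (nat_lit 639018) (nat_lit 15) (.e (nat_lit 57478) (nat_lit 28) (.e (nat_lit 557109) (nat_lit 15) (.e (nat_lit 196352) (nat_lit 18) .nil))))) .nil)) 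
(.lf (nat_lit 102705) (.g (nat_lit 1803) (.e (nat_lit 3393) (nat_lit 210) (.e (nat_lit 639022) (nat_lit 17) (.e (nat_lit 73747) (nat_lit 3) (.e (nat_lit 516150) (nat_lit 9) (.e (nat_lit 426294) (nat_lit 11) .nil))))) .nil)))) (.nd (nat_lit 4) (.nd (nat_lit 5) 
(.lf (nat_lit 102665) (.g (nat_lit 2186) (.e (nat_lit 3391) (nat_lit 210) (.e (nat_lit 639016) (nat_lit 15) (.e (nat_lit 57479) (nat_lit 28) (.e (nat_lit 557105) (nat_lit 14) (.e (nat_lit 180252) (nat_lit 10) (.e (nat_lit 573489) (nat_lit 14) (.e (nat_lit 73755) (nat_lit 8) (.e (nat_lit 557067) (nat_lit 9) (.e (nat_lit 2467) (nat_lit 157) .nil))))))))) (.g (nat_lit 4) .nil .nil))) 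
(.lf (nat_lit 102697) (.g (nat_lit 1101) (.e (nat_lit 3391) (nat_lit 210) (.e (nat_lit 639023) (nat_lit 18) (.e (nat_lit 81947) (nat_lit 20) (.e (nat_lit 1963) (nat_lit 134) (.e (nat_lit 639001) (nat_lit 10) (.e (nat_lit 188439) (nat_lit 20) .nil)))))) (.g (nat_lit 0) .nil .nil)))) (.nd (nat_lit 5) 
(.lf (nat_lit 102681) (.g (nat_lit 2217) (.e (nat_lit 3391) (nat_lit 210) (.e (nat_lit 639018) (nat_lit 15) (.e (nat_lit 57480) (nat_lit 28) (.e (nat_lit 557108) (nat_lit 15) (.e (nat_lit 196352) (nat_lit 18) .nil))))) .nil)) 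
(.lf (nat_lit 102713) (.g (nat_lit 2011) (.e (nat_lit 3397) (nat_lit 211) (.e (nat_lit 647181) (nat_lit 3) (.e (nat_lit 163977) (nat_lit 30) (.e (nat_lit 573479) (nat_lit 13) (.e (nat_lit 65619) (nat_lit 10) (.e (nat_lit 344117) (nat_lit 21) (.e (nat_lit 516143) (nat_lit 9) (.e (nat_lit 426025) (nat_lit 0) .nil)))))))) (.g (nat_lit 4) .nil .nil)))))) 
(.nd (nat_lit 3) (.nd (nat_lit 4) (.nd (nat_lit 5) 
(.lf (nat_lit 102661) (.g (nat_lit 683) (.e (nat_lit 3391) (nat_lit 210) (.e (nat_lit 639008) (nat_lit 13) (.e (nat_lit 1592) (nat_lit 111) (.e (nat_lit 360480) (nat_lit 14) (.e (nat_lit 639001) (nat_lit 10) (.e (nat_lit 188438) (nat_lit 20) .nil)))))) (.g (nat_lit 0) .nil .nil))) 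
(.lf (nat_lit 102693) (.g (nat_lit 948) (.e (nat_lit 3391) (nat_lit 210) (.e (nat_lit 639023) (nat_lit 18) (.e (nat_lit 81946) (nat_lit 20) (.e (nat_lit 1963) (nat_lit 134) (.e (nat_lit 639001) (nat_lit 10) (.e (nat_lit 188435) (nat_lit 20) .nil)))))) (.g (nat_lit 0) .nil .nil)))) (.nd (nat_lit 5) 
(.lf (nat_lit 102677) (.g (nat_lit 3040) (.e (nat_lit 3391) (nat_lit 210) (.e (nat_lit 639018) (nat_lit 15) (.e (nat_lit 57480) (nat_lit 28) (.e (nat_lit 557098) (nat_lit 13) (.e (nat_lit 172123) (nat_lit 13) .nil))))) .nil)) 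
(.lf (nat_lit 102709) (.g (nat_lit 2151) (.e (nat_lit 3394) (nat_lit 210) (.e (nat_lit 639018) (nat_lit 15) (.e (nat_lit 57480) (nat_lit 28) (.e (nat_lit 557108) (nat_lit 15) (.e (nat_lit 196352) (nat_lit 18) (.e (nat_lit 393233) (nat_lit 17) .nil)))))) (.g (nat_lit 4) .nil .nil))))) (.nd (nat_lit 4) (.nd (nat_lit 5) 
(.lf (nat_lit 102669) (.g (nat_lit 1670) (.e (nat_lit 3391) (nat_lit 210) (.e (nat_lit 639017) (nat_lit 15) (.e (nat_lit 57480) (nat_lit 28) (.e (nat_lit 557108) (nat_lit 15) (.e (nat_lit 196352) (nat_lit 18) (.e (nat_lit 393242) (nat_lit 17) .nil)))))) (.g (nat_lit 4) .nil .nil))) 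
(.lf (nat_lit 102701) (.g (nat_lit 1592) (.e (nat_lit 3393) (nat_lit 210) (.e (nat_lit 639017) (nat_lit 15) (.e (nat_lit 57480) (nat_lit 28) (.e (nat_lit 557108) (nat_lit 15) (.e (nat_lit 196352) (nat_lit 11) .nil))))) .nil))) (.nd (nat_lit 5) 
(.lf (nat_lit 102685) (.g (nat_lit 1870) (.e (nat_lit 3391) (nat_lit 210) (.e (nat_lit 639021) (nat_lit 16) (.e (nat_lit 65583) (nat_lit 7) (.e (nat_lit 319530) (nat_lit 16) (.e (nat_lit 286727) (nat_lit 0) (.e (nat_lit 7936) (nat_lit 361) (.e (nat_lit 172052) (nat_lit 0) .nil))))))) (.g (nat_lit 5) .nil .nil))) 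
(.lf (nat_lit 102717) (.g (nat_lit 1462) (.e (nat_lit 3397) (nat_lit 211) (.e (nat_lit 647183) (nat_lit 4) (.e (nat_lit 172097) (nat_lit 9) (.e (nat_lit 426025) (nat_lit 0) (.e (nat_lit 3397) (nat_lit 211) .nil))))) .nil)))))) (.nd (nat_lit 2) (.nd (nat_lit 3) (.nd (nat_lit 4) (.nd (nat_lit 5) 
(.lf (nat_lit 102659) (.g (nat_lit 2231) (.e (nat_lit 3390) (nat_lit 210) (.e (nat_lit 639021) (nat_lit 16) (.e (nat_lit 65586) (nat_lit 7) (.e (nat_lit 319534) (nat_lit 16) (.e (nat_lit 286721) (nat_lit 0) .nil))))) .nil)) 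
(.lf (nat_lit 102691) (.g (nat_lit 715) (.e (nat_lit 3391) (nat_lit 210) (.e (nat_lit 639023) (nat_lit 18) (.e (nat_lit 81943) (nat_lit 20) (.e (nat_lit 1963) (nat_lit 134) (.e (nat_lit 639001) (nat_lit 10) (.e (nat_lit 188435) (nat_lit 20) .nil)))))) (.g (nat_lit 0) .nil .nil)))) (.nd (nat_lit 5) 
(.lf (nat_lit 102675) (.g (nat_lit 3163) (.e (nat_lit 3391) (nat_lit 210) (.e (nat_lit 639018) (nat_lit 15) (.e (nat_lit 57479) (nat_lit 28) (.e (nat_lit 557107) (nat_lit 15) (.e (nat_lit 196352) (nat_lit 18) .nil))))) .nil)) 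
(.lf (nat_lit 102707) (.g (nat_lit 2238) (.e (nat_lit 3394) (nat_lit 210) (.e (nat_lit 639018) (nat_lit 15) (.e (nat_lit 57479) (nat_lit 28) (.e (nat_lit 557107) (nat_lit 15) .nil)))) .nil)))) (.nd (nat_lit 4) (.nd (nat_lit 5) 
(.lf (nat_lit 102667) (.g (nat_lit 1670) (.e (nat_lit 3391) (nat_lit 210) (.e (nat_lit 639017) (nat_lit 15) (.e (nat_lit 57480) (nat_lit 28) (.e (nat_lit 557107) (nat_lit 15) .nil)))) .nil)) 
(.lf (nat_lit 102699) (.g (nat_lit 2916) (.e (nat_lit 3393) (nat_lit 210) (.e (nat_lit 639017) (nat_lit 15) (.e (nat_lit 57480) (nat_lit 28) (.e (nat_lit 557098) (nat_lit 13) (.e (nat_lit 172123) (nat_lit 13) .nil))))) .nil))) (.nd (nat_lit 5) 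
(.lf (nat_lit 102683) (.g (nat_lit 1808) (.e (nat_lit 3391) (nat_lit 210) (.e (nat_lit 639021) (nat_lit 16) (.e (nat_lit 65571) (nat_lit 3) (.e (nat_lit 98370) (nat_lit 28) (.e (nat_lit 442433) (nat_lit 25) .nil))))) .nil)) 
(.lf (nat_lit 102715) (.g (nat_lit 2220) (.e (nat_lit 3397) (nat_lit 211) (.e (nat_lit 647181) (nat_lit 3) (.e (nat_lit 163977) (nat_lit 30) (.e (nat_lit 573479) (nat_lit 13) (.e (nat_lit 65619) (nat_lit 10) (.e (nat_lit 344117) (nat_lit 21) (.e (nat_lit 516151) (nat_lit 9) (.e (nat_lit 426023) (nat_lit 0) .nil)))))))) (.g (nat_lit 4) .nil .nil)))))) 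
(.nd (nat_lit 3) (.nd (nat_lit 4) (.nd (nat_lit 5) 
(.lf (nat_lit 102663) (.g (nat_lit 1004) (.e (nat_lit 3391) (nat_lit 210) (.e (nat_lit 639008) (nat_lit 13) (.e (nat_lit 1592) (nat_lit 111) (.e (nat_lit 360480) (nat_lit 14) (.e (nat_lit 639001) (nat_lit 10) (.e (nat_lit 188440) (nat_lit 20) .nil)))))) (.g (nat_lit 0) .nil .nil))) 
(.lf (nat_lit 102695) (.g (nat_lit 1002) (.e (nat_lit 3391) (nat_lit 210) (.e (nat_lit 639023) (nat_lit 18) (.e (nat_lit 81947) (nat_lit 20) (.e (nat_lit 1963) (nat_lit 134) (.e (nat_lit 639001) (nat_lit 10) (.e (nat_lit 188435) (nat_lit 20) .nil)))))) (.g (nat_lit 0) .nil .nil)))) (.nd (nat_lit 5) 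
(.lf (nat_lit 102679) (.g (nat_lit 2270) (.e (nat_lit 3391) (nat_lit 210) (.e (nat_lit 639018) (nat_lit 15) (.e (nat_lit 57480) (nat_lit 28) (.e (nat_lit 557105) (nat_lit 14) (.e (nat_lit 180252) (nat_lit 10) .nil))))) .nil)) 
(.lf (nat_lit 102711) (.g (nat_lit 630) (.e (nat_lit 3397) (nat_lit 211) (.e (nat_lit 647170) (nat_lit 0) (.e (nat_lit 2450) (nat_lit 157) (.e (nat_lit 3223) (nat_lit 196) .nil)))) .nil)))) (.nd (nat_lit 4) (.nd (nat_lit 5) 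
(.lf (nat_lit 102671) (.g (nat_lit 4262) (.e (nat_lit 3391) (nat_lit 210) (.e (nat_lit 639018) (nat_lit 15) (.e (nat_lit 57478) (nat_lit 28) (.e (nat_lit 557105) (nat_lit 14) (.e (nat_lit 180252) (nat_lit 10) (.e (nat_lit 573489) (nat_lit 14) (.e (nat_lit 73755) (nat_lit 8) (.e (nat_lit 557067) (nat_lit 9) (.e (nat_lit 2467) (nat_lit 157) .nil))))))))) (.g (nat_lit 8) .nil .nil))) 
(.lf (nat_lit 102703) (.g (nat_lit 2113) (.e (nat_lit 3393) (nat_lit 210) (.e (nat_lit 639021) (nat_lit 16) (.e (nat_lit 65571) (nat_lit 3) (.e (nat_lit 98372) (nat_lit 29) (.e (nat_lit 458496) (nat_lit 3) .nil))))) .nil))) (.nd (nat_lit 5) 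
(.lf (nat_lit 102687) (.g (nat_lit 1717) (.e (nat_lit 3391) (nat_lit 210) (.e (nat_lit 639021) (nat_lit 16) (.e (nat_lit 65583) (nat_lit 7) (.e (nat_lit 319530) (nat_lit 16) (.e (nat_lit 286741) (nat_lit 8) (.e (nat_lit 335616) (nat_lit 18) (.e (nat_lit 303111) (nat_lit 0) .nil))))))) (.g (nat_lit 5) .nil .nil))) 
(.lf (nat_lit 102719) (.g (nat_lit 1322) (.e (nat_lit 3397) (nat_lit 211) (.e (nat_lit 647183) (nat_lit 4) (.e (nat_lit 172105) (nat_lit 10) (.e (nat_lit 434272) (nat_lit 38) (.e (nat_lit 655380) (nat_lit 6) (.e (nat_lit 188427) (nat_lit 20) .nil)))))) (.g (nat_lit 4) .nil .nil)))))))))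

noncomputable def tv1401 : DT := (.nd (nat_lit 0) (.nd (nat_lit 1) (.nd (nat_lit 2) (.nd (nat_lit 3) (.nd (nat_lit 4) (.nd (nat_lit 5) 
(.lf (nat_lit 102720) (.g (nat_lit 1482) (.e (nat_lit 3397) (nat_lit 211) (.e (nat_lit 647183) (nat_lit 4) (.e (nat_lit 172105) (nat_lit 10) (.e (nat_lit 434272) (nat_lit 38) (.e (nat_lit 655380) (nat_lit 6) (.e (nat_lit 188431) (nat_lit 20) .nil)))))) (.g (nat_lit 4) .nil .nil))) 
(.lf (nat_lit 102752) (.g (nat_lit 1738) (.e (nat_lit 3397) (nat_lit 211) (.e (nat_lit 647185) (nat_lit 6) (.e (nat_lit 188440) (nat_lit 20) (.e (nat_lit 3409) (nat_lit 212) (.e (nat_lit 655380) (nat_lit 6) (.e (nat_lit 188427) (nat_lit 20) .nil)))))) (.g (nat_lit 0) .nil .nil)))) (.nd (nat_lit 5) 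
(.lf (nat_lit 102736) (.g (nat_lit 1794) (.e (nat_lit 3397) (nat_lit 211) (.e (nat_lit 647183) (nat_lit 4) (.e (nat_lit 172124) (nat_lit 14) (.e (nat_lit 491550) (nat_lit 9) (.e (nat_lit 336430) (nat_lit 29) (.e (nat_lit 442398) (nat_lit 20) .nil)))))) (.g (nat_lit 4) .nil .nil))) 
(.lf (nat_lit 102768) (.g (nat_lit 2289) (.e (nat_lit 3399) (nat_lit 211) (.e (nat_lit 647183) (nat_lit 4) (.e (nat_lit 172106) (nat_lit 10) (.e (nat_lit 434272) (nat_lit 38) (.e (nat_lit 655380) (nat_lit 6) (.e (nat_lit 188431) (nat_lit 20) .nil)))))) (.g (nat_lit 0) .nil .nil))))) (.nd (nat_lit 4) (.nd (nat_lit 5) 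
(.lf (nat_lit 102728) (.g (nat_lit 2119) (.e (nat_lit 3397) (nat_lit 211) (.e (nat_lit 647183) (nat_lit 4) (.e (nat_lit 172113) (nat_lit 10) (.e (nat_lit 434272) (nat_lit 38) (.e (nat_lit 655380) (nat_lit 6) (.e (nat_lit 188430) (nat_lit 20) .nil)))))) (.g (nat_lit 5) .nil .nil))) 
(.lf (nat_lit 102760) (.g (nat_lit 1842) (.e (nat_lit 3399) (nat_lit 211) (.e (nat_lit 647181) (nat_lit 3) (.e (nat_lit 163977) (nat_lit 30) (.e (nat_lit 573479) (nat_lit 13) (.e (nat_lit 65619) (nat_lit 10) .nil))))) .nil))) (.nd (nat_lit 5) 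
(.lf (nat_lit 102744) (.g (nat_lit 1793) (.e (nat_lit 3397) (nat_lit 211) (.e (nat_lit 647185) (nat_lit 6) (.e (nat_lit 188418) (nat_lit 0) (.e (nat_lit 2058) (nat_lit 142) (.e (nat_lit 704598) (nat_lit 6) (.e (nat_lit 188427) (nat_lit 20) .nil)))))) (.g (nat_lit 0) .nil .nil))) 
(.lf (nat_lit 102776) (.g (nat_lit 1653) (.e (nat_lit 3399) (nat_lit 211) (.e (nat_lit 647183) (nat_lit 4) (.e (nat_lit 172116) (nat_lit 10) (.e (nat_lit 434272) (nat_lit 38) (.e (nat_lit 655380) (nat_lit 6) (.e (nat_lit 188430) (nat_lit 20) .nil)))))) (.g (nat_lit 5) .nil .nil)))))) (.nd (nat_lit 3) (.nd (nat_lit 4) (.nd (nat_lit 5) 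
(.lf (nat_lit 102724) (.g (nat_lit 2038) (.e (nat_lit 3397) (nat_lit 211) (.e (nat_lit 647183) (nat_lit 4) (.e (nat_lit 172112) (nat_lit 10) (.e (nat_lit 434272) (nat_lit 38) (.e (nat_lit 655380) (nat_lit 6) (.e (nat_lit 188427) (nat_lit 20) .nil)))))) (.g (nat_lit 6) .nil .nil))) 
(.lf (nat_lit 102756) (.g (nat_lit 1710) (.e (nat_lit 3397) (nat_lit 211) (.e (nat_lit 647185) (nat_lit 6) (.e (nat_lit 188441) (nat_lit 20) (.e (nat_lit 3409) (nat_lit 212) (.e (nat_lit 655380) (nat_lit 6) (.e (nat_lit 188430) (nat_lit 20) .nil)))))) (.g (nat_lit 5) .nil .nil)))) (.nd (nat_lit 5) 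
(.lf (nat_lit 102740) (.g (nat_lit 3103) (.e (nat_lit 3397) (nat_lit 211) (.e (nat_lit 647183) (nat_lit 4) (.e (nat_lit 172126) (nat_lit 14) (.e (nat_lit 491549) (nat_lit 9) (.e (nat_lit 336430) (nat_lit 29) (.e (nat_lit 442399) (nat_lit 20) .nil)))))) (.g (nat_lit 0) .nil .nil))) 
(.lf (nat_lit 102772) (.g (nat_lit 2018) (.e (nat_lit 3399) (nat_lit 211) (.e (nat_lit 647183) (nat_lit 4) (.e (nat_lit 172112) (nat_lit 10) (.e (nat_lit 434272) (nat_lit 38) (.e (nat_lit 655380) (nat_lit 6) (.e (nat_lit 188431) (nat_lit 20) .nil)))))) (.g (nat_lit 0) .nil .nil))))) (.nd (nat_lit 4) (.nd (nat_lit 5) 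
(.lf (nat_lit 102732) (.g (nat_lit 1698) (.e (nat_lit 3397) (nat_lit 211) (.e (nat_lit 647183) (nat_lit 4) (.e (nat_lit 172116) (nat_lit 10) (.e (nat_lit 434272) (nat_lit 38) (.e (nat_lit 655380) (nat_lit 6) (.e (nat_lit 188430) (nat_lit 20) .nil)))))) (.g (nat_lit 5) .nil .nil))) 
(.lf (nat_lit 102764) (.g (nat_lit 1271) (.e (nat_lit 3399) (nat_lit 211) (.e (nat_lit 647183) (nat_lit 4) (.e (nat_lit 172089) (nat_lit 9) (.e (nat_lit 426025) (nat_lit 0) (.e (nat_lit 3399) (nat_lit 211) .nil))))) .nil))) (.nd (nat_lit 5) 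
(.lf (nat_lit 102748) (.g (nat_lit 1468) (.e (nat_lit 3397) (nat_lit 211) (.e (nat_lit 647185) (nat_lit 6) (.e (nat_lit 188435) (nat_lit 20) (.e (nat_lit 3409) (nat_lit 212) (.e (nat_lit 655380) (nat_lit 6) (.e (nat_lit 188427) (nat_lit 20) .nil)))))) (.g (nat_lit 6) .nil .nil))) 
(.lf (nat_lit 102780) (.g (nat_lit 385) (.e (nat_lit 3399) (nat_lit 211) (.e (nat_lit 647183) (nat_lit 4) (.e (nat_lit 172126) (nat_lit 14) .nil))) .nil)))))) (.nd (nat_lit 2) (.nd (nat_lit 3) (.nd (nat_lit 4) (.nd (nat_lit 5) 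
(.lf (nat_lit 102722) (.g (nat_lit 2543) (.e (nat_lit 3397) (nat_lit 211) (.e (nat_lit 647183) (nat_lit 4) (.e (nat_lit 172106) (nat_lit 10) (.e (nat_lit 434272) (nat_lit 38) (.e (nat_lit 655380) (nat_lit 6) (.e (nat_lit 188431) (nat_lit 20) .nil)))))) (.g (nat_lit 0) .nil .nil))) 
(.lf (nat_lit 102754) (.g (nat_lit 1921) (.e (nat_lit 3397) (nat_lit 211) (.e (nat_lit 647185) (nat_lit 6) (.e (nat_lit 188440) (nat_lit 20) (.e (nat_lit 3409) (nat_lit 212) (.e (nat_lit 655380) (nat_lit 6) (.e (nat_lit 188431) (nat_lit 20) .nil)))))) (.g (nat_lit 0) .nil .nil)))) (.nd (nat_lit 5) 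
(.lf (nat_lit 102738) (.g (nat_lit 417) (.e (nat_lit 3397) (nat_lit 211) (.e (nat_lit 647183) (nat_lit 4) (.e (nat_lit 172126) (nat_lit 14) .nil))) .nil)) 
(.lf (nat_lit 102770) (.g (nat_lit 2107) (.e (nat_lit 3399) (nat_lit 211) (.e (nat_lit 647183) (nat_lit 4) (.e (nat_lit 172107) (nat_lit 10) (.e (nat_lit 434272) (nat_lit 38) (.e (nat_lit 655380) (nat_lit 6) (.e (nat_lit 188431) (nat_lit 20) .nil)))))) (.g (nat_lit 0) .nil .nil))))) (.nd (nat_lit 4) (.nd (nat_lit 5) 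
(.lf (nat_lit 102730) (.g (nat_lit 2013) (.e (nat_lit 3397) (nat_lit 211) (.e (nat_lit 647183) (nat_lit 4) (.e (nat_lit 172115) (nat_lit 10) (.e (nat_lit 434272) (nat_lit 38) (.e (nat_lit 655380) (nat_lit 6) (.e (nat_lit 188430) (nat_lit 20) .nil)))))) (.g (nat_lit 5) .nil .nil))) 
(.lf (nat_lit 102762) (.g (nat_lit 1880) (.e (nat_lit 3399) (nat_lit 211) (.e (nat_lit 647181) (nat_lit 3) (.e (nat_lit 163977) (nat_lit 30) (.e (nat_lit 573479) (nat_lit 13) (.e (nat_lit 65619) (nat_lit 10) (.e (nat_lit 344117) (nat_lit 21) (.e (nat_lit 516151) (nat_lit 9) (.e (nat_lit 426023) (nat_lit 0) .nil)))))))) (.g (nat_lit 4) .nil .nil)))) (.nd (nat_lit 5) 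
(.lf (nat_lit 102746) (.g (nat_lit 1638) (.e (nat_lit 3397) (nat_lit 211) (.e (nat_lit 647185) (nat_lit 6) (.e (nat_lit 188420) (nat_lit 0) (.e (nat_lit 2058) (nat_lit 142) (.e (nat_lit 704598) (nat_lit 6) (.e (nat_lit 188427) (nat_lit 20) .nil)))))) (.g (nat_lit 0) .nil .nil))) 
(.lf (nat_lit 102778) (.g (nat_lit 383) (.e (nat_lit 3399) (nat_lit 211) (.e (nat_lit 647183) (nat_lit 4) (.e (nat_lit 172124) (nat_lit 14) .nil))) .nil))))) (.nd (nat_lit 3) (.nd (nat_lit 4) (.nd (nat_lit 5) 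
(.lf (nat_lit 102726) (.g (nat_lit 2219) (.e (nat_lit 3397) (nat_lit 211) (.e (nat_lit 647183) (nat_lit 4) (.e (nat_lit 172112) (nat_lit 10) (.e (nat_lit 434272) (nat_lit 38) (.e (nat_lit 655380) (nat_lit 6) (.e (nat_lit 188431) (nat_lit 20) .nil)))))) (.g (nat_lit 0) .nil .nil))) 
(.lf (nat_lit 102758) (.g (nat_lit 3988) (.e (nat_lit 3397) (nat_lit 211) (.e (nat_lit 647201) (nat_lit 12) (.e (nat_lit 57540) (nat_lit 46) (.e (nat_lit 704736) (nat_lit 11) (.e (nat_lit 16425) (nat_lit 7) (.e (nat_lit 409649) (nat_lit 18) (.e (nat_lit 303132) (nat_lit 9) (.e (nat_lit 426025) (nat_lit 0) .nil)))))))) (.g (nat_lit 7) .nil .nil)))) (.nd (nat_lit 5) 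
(.lf (nat_lit 102742) (.g (nat_lit 2788) (.e (nat_lit 3397) (nat_lit 211) (.e (nat_lit 647183) (nat_lit 4) (.e (nat_lit 172126) (nat_lit 14) (.e (nat_lit 491550) (nat_lit 9) (.e (nat_lit 336430) (nat_lit 29) (.e (nat_lit 442399) (nat_lit 20) .nil)))))) (.g (nat_lit 6) .nil .nil))) 
(.lf (nat_lit 102774) (.g (nat_lit 2450) (.e (nat_lit 3399) (nat_lit 211) (.e (nat_lit 647183) (nat_lit 4) (.e (nat_lit 172113) (nat_lit 10) (.e (nat_lit 434272) (nat_lit 38) (.e (nat_lit 655380) (nat_lit 6) (.e (nat_lit 188431) (nat_lit 20) .nil)))))) (.g (nat_lit 0) .nil .nil))))) (.nd (nat_lit 4) (.nd (nat_lit 5) 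
(.lf (nat_lit 102734) (.g (nat_lit 438) (.e (nat_lit 3397) (nat_lit 211) (.e (nat_lit 647183) (nat_lit 4) (.e (nat_lit 172124) (nat_lit 14) .nil))) .nil)) 
(.lf (nat_lit 102766) (.g (nat_lit 1500) (.e (nat_lit 3399) (nat_lit 211) (.e (nat_lit 647183) (nat_lit 4) (.e (nat_lit 172097) (nat_lit 9) (.e (nat_lit 426025) (nat_lit 0) (.e (nat_lit 3397) (nat_lit 211) .nil))))) .nil))) (.nd (nat_lit 5) 
(.lf (nat_lit 102750) (.g (nat_lit 1640) (.e (nat_lit 3397) (nat_lit 211) (.e (nat_lit 647185) (nat_lit 6) (.e (nat_lit 188439) (nat_lit 20) (.e (nat_lit 3409) (nat_lit 212) (.e (nat_lit 655380) (nat_lit 6) (.e (nat_lit 188427) (nat_lit 20) .nil)))))) (.g (nat_lit 0) .nil .nil))) 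
(.lf (nat_lit 102782) (.g (nat_lit 1554) (.e (nat_lit 3399) (nat_lit 211) (.e (nat_lit 647183) (nat_lit 4) (.e (nat_lit 172126) (nat_lit 14) (.e (nat_lit 491566) (nat_lit 12) .nil)))) .nil))))))) (.nd (nat_lit 1) (.nd (nat_lit 2) (.nd (nat_lit 3) (.nd (nat_lit 4) (.nd (nat_lit 5) 
(.lf (nat_lit 102721) (.g (nat_lit 2023) (.e (nat_lit 3397) (nat_lit 211) (.e (nat_lit 647183) (nat_lit 4) (.e (nat_lit 172106) (nat_lit 10) (.e (nat_lit 434272) (nat_lit 38) (.e (nat_lit 655380) (nat_lit 6) (.e (nat_lit 188430) (nat_lit 20) .nil)))))) (.g (nat_lit 5) .nil .nil))) 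
(.lf (nat_lit 102753) (.g (nat_lit 1383) (.e (nat_lit 3397) (nat_lit 211) (.e (nat_lit 647185) (nat_lit 6) (.e (nat_lit 188440) (nat_lit 20) (.e (nat_lit 3409) (nat_lit 212) (.e (nat_lit 655380) (nat_lit 6) (.e (nat_lit 188430) (nat_lit 20) .nil)))))) (.g (nat_lit 5) .nil .nil)))) (.nd (nat_lit 5) 
(.lf (nat_lit 102737) (.g (nat_lit 2748) (.e (nat_lit 3397) (nat_lit 211) (.e (nat_lit 647183) (nat_lit 4) (.e (nat_lit 172124) (nat_lit 14) (.e (nat_lit 491550) (nat_lit 9) (.e (nat_lit 336430) (nat_lit 29) (.e (nat_lit 442399) (nat_lit 20) .nil)))))) (.g (nat_lit 0) .nil .nil))) 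
(.lf (nat_lit 102769) (.g (nat_lit 1772) (.e (nat_lit 3399) (nat_lit 211) (.e (nat_lit 647183) (nat_lit 4) (.e (nat_lit 172107) (nat_lit 10) (.e (nat_lit 434272) (nat_lit 38) (.e (nat_lit 655380) (nat_lit 6) (.e (nat_lit 188430) (nat_lit 20) .nil)))))) (.g (nat_lit 0) .nil .nil))))) (.nd (nat_lit 4) (.nd (nat_lit 5) 
(.lf (nat_lit 102729) (.g (nat_lit 2650) (.e (nat_lit 3397) (nat_lit 211) (.e (nat_lit 647183) (nat_lit 4) (.e (nat_lit 172113) (nat_lit 10) (.e (nat_lit 434272) (nat_lit 38) (.e (nat_lit 655380) (nat_lit 6) (.e (nat_lit 188431) (nat_lit 20) .nil)))))) (.g (nat_lit 0) .nil .nil))) 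
(.lf (nat_lit 102761) (.g (nat_lit 2104) (.e (nat_lit 3399) (nat_lit 211) (.e (nat_lit 647181) (nat_lit 3) (.e (nat_lit 163977) (nat_lit 30) (.e (nat_lit 573479) (nat_lit 13) (.e (nat_lit 65619) (nat_lit 10) (.e (nat_lit 344117) (nat_lit 21) (.e (nat_lit 516151) (nat_lit 9) (.e (nat_lit 426003) (nat_lit 0) .nil)))))))) (.g (nat_lit 4) .nil .nil)))) (.nd (nat_lit 5) 
(.lf (nat_lit 102745) (.g (nat_lit 1861) (.e (nat_lit 3397) (nat_lit 211) (.e (nat_lit 647185) (nat_lit 6) (.e (nat_lit 188418) (nat_lit 0) (.e (nat_lit 2058) (nat_lit 142) (.e (nat_lit 704598) (nat_lit 6) (.e (nat_lit 188431) (nat_lit 20) .nil)))))) (.g (nat_lit 0) .nil .nil))) 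
(.lf (nat_lit 102777) (.g (nat_lit 1987) (.e (nat_lit 3399) (nat_lit 211) (.e (nat_lit 647183) (nat_lit 4) (.e (nat_lit 172116) (nat_lit 10) (.e (nat_lit 434272) (nat_lit 38) (.e (nat_lit 655380) (nat_lit 6) (.e (nat_lit 188431) (nat_lit 20) .nil)))))) (.g (nat_lit 6) .nil .nil)))))) (.nd (nat_lit 3) (.nd (nat_lit 4) (.nd (nat_lit 5) 
(.lf (nat_lit 102725) (.g (nat_lit 1680) (.e (nat_lit 3397) (nat_lit 211) (.e (nat_lit 647183) (nat_lit 4) (.e (nat_lit 172112) (nat_lit 10) (.e (nat_lit 434272) (nat_lit 38) (.e (nat_lit 655380) (nat_lit 6) (.e (nat_lit 188430) (nat_lit 20) .nil)))))) (.g (nat_lit 5) .nil .nil))) 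
(.lf (nat_lit 102757) (.g (nat_lit 2258) (.e (nat_lit 3397) (nat_lit 211) (.e (nat_lit 647185) (nat_lit 6) (.e (nat_lit 188441) (nat_lit 20) (.e (nat_lit 3409) (nat_lit 212) (.e (nat_lit 655380) (nat_lit 6) (.e (nat_lit 188431) (nat_lit 20) .nil)))))) (.g (nat_lit 0) .nil .nil)))) (.nd (nat_lit 5) 
(.lf (nat_lit 102741) (.g (nat_lit 2769) (.e (nat_lit 3397) (nat_lit 211) (.e (nat_lit 647183) (nat_lit 4) (.e (nat_lit 172126) (nat_lit 14) (.e (nat_lit 491550) (nat_lit 9) (.e (nat_lit 336430) (nat_lit 29) (.e (nat_lit 442395) (nat_lit 20) .nil)))))) (.g (nat_lit 6) .nil .nil))) 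
(.lf (nat_lit 102773) (.g (nat_lit 2116) (.e (nat_lit 3399) (nat_lit 211) (.e (nat_lit 647183) (nat_lit 4) (.e (nat_lit 172113) (nat_lit 10) (.e (nat_lit 434272) (nat_lit 38) (.e (nat_lit 655380) (nat_lit 6) (.e (nat_lit 188430) (nat_lit 20) .nil)))))) (.g (nat_lit 6) .nil .nil))))) (.nd (nat_lit 4) (.nd (nat_lit 5) 
(.lf (nat_lit 102733) (.g (nat_lit 2237) (.e (nat_lit 3397) (nat_lit 211) (.e (nat_lit 647183) (nat_lit 4) (.e (nat_lit 172116) (nat_lit 10) (.e (nat_lit 434272) (nat_lit 38) (.e (nat_lit 655380) (nat_lit 6) (.e (nat_lit 188431) (nat_lit 20) .nil)))))) (.g (nat_lit 0) .nil .nil))) 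
(.lf (nat_lit 102765) (.g (nat_lit 1801) (.e (nat_lit 3399) (nat_lit 211) (.e (nat_lit 647183) (nat_lit 4) (.e (nat_lit 172094) (nat_lit 9) (.e (nat_lit 426025) (nat_lit 0) (.e (nat_lit 3397) (nat_lit 211) .nil))))) .nil))) (.nd (nat_lit 5) 
(.lf (nat_lit 102749) (.g (nat_lit 1099) (.e (nat_lit 3397) (nat_lit 211) (.e (nat_lit 647185) (nat_lit 6) (.e (nat_lit 188435) (nat_lit 20) (.e (nat_lit 3409) (nat_lit 212) (.e (nat_lit 655380) (nat_lit 6) (.e (nat_lit 188430) (nat_lit 20) .nil)))))) (.g (nat_lit 5) .nil .nil))) 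
(.lf (nat_lit 102781) (.g (nat_lit 2642) (.e (nat_lit 3399) (nat_lit 211) (.e (nat_lit 647183) (nat_lit 4) (.e (nat_lit 172126) (nat_lit 14) (.e (nat_lit 491549) (nat_lit 9) (.e (nat_lit 336368) (nat_lit 27) .nil))))) .nil)))))) (.nd (nat_lit 2) (.nd (nat_lit 3) (.nd (nat_lit 4) (.nd (nat_lit 5) 
(.lf (nat_lit 102723) (.g (nat_lit 1841) (.e (nat_lit 3397) (nat_lit 211) (.e (nat_lit 647183) (nat_lit 4) (.e (nat_lit 172107) (nat_lit 10) (.e (nat_lit 434272) (nat_lit 38) (.e (nat_lit 655380) (nat_lit 6) (.e (nat_lit 188430) (nat_lit 20) .nil)))))) (.g (nat_lit 5) .nil .nil))) 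
(.lf (nat_lit 102755) (.g (nat_lit 2104) (.e (nat_lit 3397) (nat_lit 211) (.e (nat_lit 647185) (nat_lit 6) (.e (nat_lit 188441) (nat_lit 20) (.e (nat_lit 3409) (nat_lit 212) (.e (nat_lit 655380) (nat_lit 6) (.e (nat_lit 188427) (nat_lit 20) .nil)))))) (.g (nat_lit 0) .nil .nil)))) (.nd (nat_lit 5) 
(.lf (nat_lit 102739) (.g (nat_lit 3032) (.e (nat_lit 3397) (nat_lit 211) (.e (nat_lit 647183) (nat_lit 4) (.e (nat_lit 172126) (nat_lit 14) (.e (nat_lit 491549) (nat_lit 9) (.e (nat_lit 336430) (nat_lit 29) (.e (nat_lit 442395) (nat_lit 20) .nil)))))) (.g (nat_lit 6) .nil .nil))) 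
(.lf (nat_lit 102771) (.g (nat_lit 1673) (.e (nat_lit 3399) (nat_lit 211) (.e (nat_lit 647183) (nat_lit 4) (.e (nat_lit 172112) (nat_lit 10) (.e (nat_lit 434272) (nat_lit 38) (.e (nat_lit 655380) (nat_lit 6) (.e (nat_lit 188430) (nat_lit 20) .nil)))))) (.g (nat_lit 6) .nil .nil))))) (.nd (nat_lit 4) (.nd (nat_lit 5) 
(.lf (nat_lit 102731) (.g (nat_lit 2072) (.e (nat_lit 3397) (nat_lit 211) (.e (nat_lit 647183) (nat_lit 4) (.e (nat_lit 172116) (nat_lit 10) (.e (nat_lit 434272) (nat_lit 38) (.e (nat_lit 655380) (nat_lit 6) (.e (nat_lit 188427) (nat_lit 20) .nil)))))) (.g (nat_lit 6) .nil .nil))) 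
(.lf (nat_lit 102763) (.g (nat_lit 586) (.e (nat_lit 3399) (nat_lit 211) (.e (nat_lit 647183) (nat_lit 4) (.e (nat_lit 172038) (nat_lit 0) (.e (nat_lit 7107) (nat_lit 380) .nil)))) .nil))) (.nd (nat_lit 5) 
(.lf (nat_lit 102747) (.g (nat_lit 1779) (.e (nat_lit 3397) (nat_lit 211) (.e (nat_lit 647185) (nat_lit 6) (.e (nat_lit 188420) (nat_lit 0) (.e (nat_lit 2059) (nat_lit 142) (.e (nat_lit 704598) (nat_lit 6) (.e (nat_lit 188427) (nat_lit 20) .nil)))))) (.g (nat_lit 0) .nil .nil))) 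
(.lf (nat_lit 102779) (.g (nat_lit 968) (.e (nat_lit 3399) (nat_lit 211) (.e (nat_lit 647183) (nat_lit 4) (.e (nat_lit 172124) (nat_lit 14) (.e (nat_lit 491548) (nat_lit 9) .nil)))) .nil))))) (.nd (nat_lit 3) (.nd (nat_lit 4) (.nd (nat_lit 5) 
(.lf (nat_lit 102727) (.g (nat_lit 2482) (.e (nat_lit 3397) (nat_lit 211) (.e (nat_lit 647183) (nat_lit 4) (.e (nat_lit 172113) (nat_lit 10) (.e (nat_lit 434272) (nat_lit 38) (.e (nat_lit 655380) (nat_lit 6) (.e (nat_lit 188427) (nat_lit 20) .nil)))))) (.g (nat_lit 0) .nil .nil))) 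
(.lf (nat_lit 102759) (.g (nat_lit 470) (.e (nat_lit 3399) (nat_lit 211) (.e (nat_lit 647170) (nat_lit 0) (.e (nat_lit 2749) (nat_lit 175) .nil))) .nil))) (.nd (nat_lit 5) 
(.lf (nat_lit 102743) (.g (nat_lit 717) (.e (nat_lit 3397) (nat_lit 211) (.e (nat_lit 647185) (nat_lit 6) (.e (nat_lit 188418) (nat_lit 0) (.e (nat_lit 2056) (nat_lit 142) .nil)))) .nil)) 
(.lf (nat_lit 102775) (.g (nat_lit 2325) (.e (nat_lit 3399) (nat_lit 211) (.e (nat_lit 647183) (nat_lit 4) (.e (nat_lit 172115) (nat_lit 10) (.e (nat_lit 434272) (nat_lit 38) (.e (nat_lit 655380) (nat_lit 6) (.e (nat_lit 188431) (nat_lit 20) .nil)))))) (.g (nat_lit 0) .nil .nil))))) (.nd (nat_lit 4) (.nd (nat_lit 5) 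
(.lf (nat_lit 102735) (.g (nat_lit 2990) (.e (nat_lit 3397) (nat_lit 211) (.e (nat_lit 647183) (nat_lit 4) (.e (nat_lit 172124) (nat_lit 14) (.e (nat_lit 491549) (nat_lit 9) (.e (nat_lit 336430) (nat_lit 29) (.e (nat_lit 442399) (nat_lit 20) .nil)))))) (.g (nat_lit 0) .nil .nil))) 
(.lf (nat_lit 102767) (.g (nat_lit 386) (.e (nat_lit 3399) (nat_lit 211) (.e (nat_lit 647183) (nat_lit 4) (.e (nat_lit 172106) (nat_lit 10) .nil))) .nil))) (.nd (nat_lit 5) 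
(.lf (nat_lit 102751) (.g (nat_lit 1272) (.e (nat_lit 3397) (nat_lit 211) (.e (nat_lit 647185) (nat_lit 6) (.e (nat_lit 188439) (nat_lit 20) (.e (nat_lit 3409) (nat_lit 212) (.e (nat_lit 655380) (nat_lit 6) (.e (nat_lit 188430) (nat_lit 20) .nil)))))) (.g (nat_lit 5) .nil .nil))) 
(.lf (nat_lit 102783) (.g (nat_lit 1290) (.e (nat_lit 3399) (nat_lit 211) (.e (nat_lit 647183) (nat_lit 4) (.e (nat_lit 172126) (nat_lit 14) (.e (nat_lit 491568) (nat_lit 13) .nil)))) .nil))))))))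

noncomputable def tv1402 : DT := (.nd (nat_lit 0) (.nd (nat_lit 1) (.nd (nat_lit 2) (.nd (nat_lit 3) (.nd (nat_lit 4) (.nd (nat_lit 5) 
(.lf (nat_lit 102784) (.g (nat_lit 1939) (.e (nat_lit 3399) (nat_lit 211) (.e (nat_lit 647183) (nat_lit 4) (.e (nat_lit 172126) (nat_lit 14) (.e (nat_lit 491570) (nat_lit 13) (.e (nat_lit 393274) (nat_lit 23) .nil))))) .nil)) 
(.lf (nat_lit 102816) (.g (nat_lit 1759) (.e (nat_lit 3402) (nat_lit 211) (.e (nat_lit 647183) (nat_lit 4) (.e (nat_lit 172116) (nat_lit 10) (.e (nat_lit 434272) (nat_lit 38) (.e (nat_lit 655380) (nat_lit 6) (.e (nat_lit 188428) (nat_lit 20) .nil)))))) (.g (nat_lit 0) .nil .nil)))) (.nd (nat_lit 5) 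
(.lf (nat_lit 102800) (.g (nat_lit 1544) (.e (nat_lit 3402) (nat_lit 211) (.e (nat_lit 647183) (nat_lit 4) (.e (nat_lit 172097) (nat_lit 9) (.e (nat_lit 426025) (nat_lit 0) (.e (nat_lit 3399) (nat_lit 211) .nil))))) .nil)) 
(.lf (nat_lit 102832) (.g (nat_lit 2006) (.e (nat_lit 3406) (nat_lit 212) (.e (nat_lit 655375) (nat_lit 3) (.e (nat_lit 163979) (nat_lit 30) (.e (nat_lit 573491) (nat_lit 15) (.e (nat_lit 81954) (nat_lit 23) .nil))))) .nil)))) (.nd (nat_lit 4) (.nd (nat_lit 5) 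
(.lf (nat_lit 102792) (.g (nat_lit 1482) (.e (nat_lit 3399) (nat_lit 211) (.e (nat_lit 647185) (nat_lit 6) (.e (nat_lit 188435) (nat_lit 20) (.e (nat_lit 3409) (nat_lit 212) (.e (nat_lit 655380) (nat_lit 6) (.e (nat_lit 188431) (nat_lit 20) .nil)))))) (.g (nat_lit 6) .nil .nil))) 
(.lf (nat_lit 102824) (.g (nat_lit 1623) (.e (nat_lit 3402) (nat_lit 211) (.e (nat_lit 647183) (nat_lit 4) (.e (nat_lit 172126) (nat_lit 14) (.e (nat_lit 491548) (nat_lit 9) (.e (nat_lit 336431) (nat_lit 29) .nil))))) .nil))) (.nd (nat_lit 5) 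
(.lf (nat_lit 102808) (.g (nat_lit 1716) (.e (nat_lit 3402) (nat_lit 211) (.e (nat_lit 647183) (nat_lit 4) (.e (nat_lit 172112) (nat_lit 10) (.e (nat_lit 434272) (nat_lit 38) (.e (nat_lit 655380) (nat_lit 6) (.e (nat_lit 188428) (nat_lit 20) .nil)))))) (.g (nat_lit 0) .nil .nil))) 
(.lf (nat_lit 102840) (.g (nat_lit 2241) (.e (nat_lit 3407) (nat_lit 212) (.e (nat_lit 655375) (nat_lit 3) (.e (nat_lit 163977) (nat_lit 30) (.e (nat_lit 573481) (nat_lit 13) (.e (nat_lit 65604) (nat_lit 9) .nil))))) .nil))))) (.nd (nat_lit 3) (.nd (nat_lit 4) (.nd (nat_lit 5) 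
(.lf (nat_lit 102788) (.g (nat_lit 1730) (.e (nat_lit 3399) (nat_lit 211) (.e (nat_lit 647185) (nat_lit 6) (.e (nat_lit 188418) (nat_lit 0) (.e (nat_lit 2059) (nat_lit 142) (.e (nat_lit 704598) (nat_lit 6) (.e (nat_lit 188431) (nat_lit 20) .nil)))))) (.g (nat_lit 6) .nil .nil))) 
(.lf (nat_lit 102820) (.g (nat_lit 1325) (.e (nat_lit 3402) (nat_lit 211) (.e (nat_lit 647183) (nat_lit 4) (.e (nat_lit 172124) (nat_lit 14) (.e (nat_lit 491548) (nat_lit 9) (.e (nat_lit 336431) (nat_lit 29) .nil))))) .nil))) (.nd (nat_lit 5) 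
(.lf (nat_lit 102804) (.g (nat_lit 1958) (.e (nat_lit 3402) (nat_lit 211) (.e (nat_lit 647183) (nat_lit 4) (.e (nat_lit 172107) (nat_lit 10) (.e (nat_lit 434272) (nat_lit 38) (.e (nat_lit 655380) (nat_lit 6) (.e (nat_lit 188427) (nat_lit 20) .nil)))))) (.g (nat_lit 6) .nil .nil))) 
(.lf (nat_lit 102836) (.g (nat_lit 1644) (.e (nat_lit 3406) (nat_lit 212) (.e (nat_lit 655379) (nat_lit 5) (.e (nat_lit 180278) (nat_lit 32) (.e (nat_lit 1425) (nat_lit 108) (.e (nat_lit 336430) (nat_lit 29) (.e (nat_lit 442402) (nat_lit 20) .nil)))))) (.g (nat_lit 0) .nil .nil))))) (.nd (nat_lit 4) (.nd (nat_lit 5) 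
(.lf (nat_lit 102796) (.g (nat_lit 2537) (.e (nat_lit 3399) (nat_lit 211) (.e (nat_lit 647185) (nat_lit 6) (.e (nat_lit 188455) (nat_lit 24) (.e (nat_lit 229663) (nat_lit 240) (.e (nat_lit 7936) (nat_lit 166) .nil))))) .nil)) 
(.lf (nat_lit 102828) (.g (nat_lit 2045) (.e (nat_lit 7936) (nat_lit 211) (.e (nat_lit 647181) (nat_lit 3) (.e (nat_lit 163978) (nat_lit 30) (.e (nat_lit 573485) (nat_lit 13) (.e (nat_lit 65619) (nat_lit 10) .nil))))) .nil))) (.nd (nat_lit 5) 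
(.lf (nat_lit 102812) (.g (nat_lit 2211) (.e (nat_lit 3402) (nat_lit 211) (.e (nat_lit 647183) (nat_lit 4) (.e (nat_lit 172115) (nat_lit 10) (.e (nat_lit 434272) (nat_lit 38) (.e (nat_lit 655380) (nat_lit 6) (.e (nat_lit 188427) (nat_lit 20) .nil)))))) (.g (nat_lit 6) .nil .nil))) 
(.lf (nat_lit 102844) (.g (nat_lit 2147) (.e (nat_lit 3409) (nat_lit 212) (.e (nat_lit 655364) (nat_lit 0) (.e (nat_lit 2964) (nat_lit 185) (.e (nat_lit 434209) (nat_lit 18) (.e (nat_lit 6270) (nat_lit 337) (.e (nat_lit 1207) (nat_lit 89) (.e (nat_lit 73754) (nat_lit 8) (.e (nat_lit 557101) (nat_lit 13) (.e (nat_lit 172051) (nat_lit 0) .nil))))))))) (.g (nat_lit 4) .nil .nil))))))) 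
(.nd (nat_lit 2) (.nd (nat_lit 3) (.nd (nat_lit 4) (.nd (nat_lit 5) 
(.lf (nat_lit 102786) (.g (nat_lit 1020) (.e (nat_lit 3399) (nat_lit 211) (.e (nat_lit 647185) (nat_lit 6) (.e (nat_lit 188417) (nat_lit 0) (.e (nat_lit 2148) (nat_lit 142) (.e (nat_lit 704597) (nat_lit 6) (.e (nat_lit 188431) (nat_lit 20) .nil)))))) (.g (nat_lit 0) .nil .nil))) 
(.lf (nat_lit 102818) (.g (nat_lit 1632) (.e (nat_lit 3402) (nat_lit 211) (.e (nat_lit 647183) (nat_lit 4) (.e (nat_lit 172120) (nat_lit 12) (.e (nat_lit 475198) (nat_lit 40) (.e (nat_lit 704599) (nat_lit 6) .nil))))) .nil))) (.nd (nat_lit 5) 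
(.lf (nat_lit 102802) (.g (nat_lit 2053) (.e (nat_lit 3402) (nat_lit 211) (.e (nat_lit 647183) (nat_lit 4) (.e (nat_lit 172106) (nat_lit 10) (.e (nat_lit 434272) (nat_lit 38) (.e (nat_lit 655380) (nat_lit 6) (.e (nat_lit 188428) (nat_lit 20) .nil)))))) (.g (nat_lit 0) .nil .nil))) 
(.lf (nat_lit 102834) (.g (nat_lit 2589) (.e (nat_lit 3406) (nat_lit 212) (.e (nat_lit 655379) (nat_lit 5) (.e (nat_lit 180277) (nat_lit 32) (.e (nat_lit 1427) (nat_lit 108) (.e (nat_lit 336430) (nat_lit 29) (.e (nat_lit 442402) (nat_lit 20) .nil)))))) (.g (nat_lit 0) .nil .nil))))) (.nd (nat_lit 4) (.nd (nat_lit 5) 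
(.lf (nat_lit 102794) (.g (nat_lit 1804) (.e (nat_lit 3399) (nat_lit 211) (.e (nat_lit 647185) (nat_lit 6) (.e (nat_lit 188440) (nat_lit 20) (.e (nat_lit 3409) (nat_lit 212) (.e (nat_lit 655380) (nat_lit 6) (.e (nat_lit 188431) (nat_lit 20) .nil)))))) (.g (nat_lit 6) .nil .nil))) 
(.lf (nat_lit 102826) (.g (nat_lit 1666) (.e (nat_lit 3402) (nat_lit 211) (.e (nat_lit 647183) (nat_lit 4) (.e (nat_lit 172126) (nat_lit 14) (.e (nat_lit 491549) (nat_lit 9) (.e (nat_lit 336430) (nat_lit 29) .nil))))) .nil))) (.nd (nat_lit 5) 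
(.lf (nat_lit 102810) (.g (nat_lit 2141) (.e (nat_lit 3402) (nat_lit 211) (.e (nat_lit 647183) (nat_lit 4) (.e (nat_lit 172113) (nat_lit 10) (.e (nat_lit 434272) (nat_lit 38) (.e (nat_lit 655380) (nat_lit 6) (.e (nat_lit 188428) (nat_lit 20) .nil)))))) (.g (nat_lit 0) .nil .nil))) 
(.lf (nat_lit 102842) (.g (nat_lit 1972) (.e (nat_lit 3407) (nat_lit 212) (.e (nat_lit 655375) (nat_lit 3) (.e (nat_lit 163979) (nat_lit 30) (.e (nat_lit 573479) (nat_lit 13) .nil)))) .nil))))) (.nd (nat_lit 3) (.nd (nat_lit 4) (.nd (nat_lit 5) 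
(.lf (nat_lit 102790) (.g (nat_lit 1607) (.e (nat_lit 3399) (nat_lit 211) (.e (nat_lit 647185) (nat_lit 6) (.e (nat_lit 188420) (nat_lit 0) (.e (nat_lit 2058) (nat_lit 142) (.e (nat_lit 704598) (nat_lit 6) (.e (nat_lit 188431) (nat_lit 20) .nil)))))) (.g (nat_lit 0) .nil .nil))) 
(.lf (nat_lit 102822) (.g (nat_lit 2379) (.e (nat_lit 3402) (nat_lit 211) (.e (nat_lit 647183) (nat_lit 4) (.e (nat_lit 172124) (nat_lit 14) (.e (nat_lit 491549) (nat_lit 9) (.e (nat_lit 336428) (nat_lit 29) (.e (nat_lit 442399) (nat_lit 20) .nil)))))) (.g (nat_lit 5) .nil .nil)))) (.nd (nat_lit 5) 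
(.lf (nat_lit 102806) (.g (nat_lit 1699) (.e (nat_lit 3402) (nat_lit 211) (.e (nat_lit 647183) (nat_lit 4) (.e (nat_lit 172107) (nat_lit 10) (.e (nat_lit 434272) (nat_lit 38) (.e (nat_lit 655380) (nat_lit 6) (.e (nat_lit 188430) (nat_lit 20) .nil)))))) (.g (nat_lit 5) .nil .nil))) 
(.lf (nat_lit 102838) (.g (nat_lit 2612) (.e (nat_lit 3406) (nat_lit 212) (.e (nat_lit 655379) (nat_lit 5) (.e (nat_lit 180278) (nat_lit 32) (.e (nat_lit 1427) (nat_lit 108) (.e (nat_lit 336430) (nat_lit 29) (.e (nat_lit 442402) (nat_lit 20) .nil)))))) (.g (nat_lit 0) .nil .nil))))) (.nd (nat_lit 4) (.nd (nat_lit 5) 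
(.lf (nat_lit 102798) (.g (nat_lit 2428) (.e (nat_lit 3401) (nat_lit 211) (.e (nat_lit 647181) (nat_lit 3) (.e (nat_lit 163979) (nat_lit 30) (.e (nat_lit 573481) (nat_lit 13) (.e (nat_lit 65604) (nat_lit 9) .nil))))) .nil)) 
(.lf (nat_lit 102830) (.g (nat_lit 2046) (.e (nat_lit 3406) (nat_lit 212) (.e (nat_lit 655375) (nat_lit 3) (.e (nat_lit 163977) (nat_lit 30) (.e (nat_lit 573481) (nat_lit 13) (.e (nat_lit 65604) (nat_lit 9) .nil))))) .nil))) (.nd (nat_lit 5) 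
(.lf (nat_lit 102814) (.g (nat_lit 1876) (.e (nat_lit 3402) (nat_lit 211) (.e (nat_lit 647183) (nat_lit 4) (.e (nat_lit 172115) (nat_lit 10) (.e (nat_lit 434272) (nat_lit 38) (.e (nat_lit 655380) (nat_lit 6) (.e (nat_lit 188430) (nat_lit 20) .nil)))))) (.g (nat_lit 5) .nil .nil))) 
(.lf (nat_lit 102846) (.g (nat_lit 3018) (.e (nat_lit 3409) (nat_lit 212) (.e (nat_lit 655375) (nat_lit 3) (.e (nat_lit 163978) (nat_lit 30) (.e (nat_lit 573451) (nat_lit 9) (.e (nat_lit 1595) (nat_lit 111) .nil))))) .nil))))))) (.nd (nat_lit 1) (.nd (nat_lit 2) (.nd (nat_lit 3) (.nd (nat_lit 4) (.nd (nat_lit 5) 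
(.lf (nat_lit 102785) (.g (nat_lit 742) (.e (nat_lit 3399) (nat_lit 211) (.e (nat_lit 647183) (nat_lit 4) (.e (nat_lit 172126) (nat_lit 14) (.e (nat_lit 491571) (nat_lit 13) .nil)))) .nil)) 
(.lf (nat_lit 102817) (.g (nat_lit 1722) (.e (nat_lit 3402) (nat_lit 211) (.e (nat_lit 647183) (nat_lit 4) (.e (nat_lit 172116) (nat_lit 10) (.e (nat_lit 434272) (nat_lit 38) (.e (nat_lit 655380) (nat_lit 6) (.e (nat_lit 188430) (nat_lit 20) .nil)))))) (.g (nat_lit 0) .nil .nil)))) (.nd (nat_lit 5) 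
(.lf (nat_lit 102801) (.g (nat_lit 1283) (.e (nat_lit 3402) (nat_lit 211) (.e (nat_lit 647183) (nat_lit 4) (.e (nat_lit 172105) (nat_lit 10) (.e (nat_lit 434272) (nat_lit 38) (.e (nat_lit 655380) (nat_lit 6) .nil))))) .nil)) 
(.lf (nat_lit 102833) (.g (nat_lit 1547) (.e (nat_lit 3406) (nat_lit 212) (.e (nat_lit 655379) (nat_lit 5) (.e (nat_lit 180277) (nat_lit 32) (.e (nat_lit 1425) (nat_lit 108) (.e (nat_lit 336430) (nat_lit 29) (.e (nat_lit 442402) (nat_lit 20) .nil)))))) (.g (nat_lit 0) .nil .nil))))) (.nd (nat_lit 4) (.nd (nat_lit 5) 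
(.lf (nat_lit 102793) (.g (nat_lit 1684) (.e (nat_lit 3399) (nat_lit 211) (.e (nat_lit 647185) (nat_lit 6) (.e (nat_lit 188439) (nat_lit 20) (.e (nat_lit 3409) (nat_lit 212) (.e (nat_lit 655380) (nat_lit 6) (.e (nat_lit 188431) (nat_lit 20) .nil)))))) (.g (nat_lit 0) .nil .nil))) 
(.lf (nat_lit 102825) (.g (nat_lit 1938) (.e (nat_lit 3402) (nat_lit 211) (.e (nat_lit 647183) (nat_lit 4) (.e (nat_lit 172126) (nat_lit 14) (.e (nat_lit 491549) (nat_lit 9) (.e (nat_lit 336426) (nat_lit 29) (.e (nat_lit 442396) (nat_lit 20) .nil)))))) (.g (nat_lit 4) .nil .nil)))) (.nd (nat_lit 5) 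
(.lf (nat_lit 102809) (.g (nat_lit 1679) (.e (nat_lit 3402) (nat_lit 211) (.e (nat_lit 647183) (nat_lit 4) (.e (nat_lit 172112) (nat_lit 10) (.e (nat_lit 434272) (nat_lit 38) (.e (nat_lit 655380) (nat_lit 6) (.e (nat_lit 188430) (nat_lit 20) .nil)))))) (.g (nat_lit 0) .nil .nil))) 
(.lf (nat_lit 102841) (.g (nat_lit 1515) (.e (nat_lit 3407) (nat_lit 212) (.e (nat_lit 655375) (nat_lit 3) (.e (nat_lit 163978) (nat_lit 30) (.e (nat_lit 573483) (nat_lit 13) .nil)))) .nil))))) (.nd (nat_lit 3) (.nd (nat_lit 4) (.nd (nat_lit 5) 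
(.lf (nat_lit 102789) (.g (nat_lit 1115) (.e (nat_lit 3399) (nat_lit 211) (.e (nat_lit 647185) (nat_lit 6) (.e (nat_lit 188420) (nat_lit 0) (.e (nat_lit 2056) (nat_lit 142) (.e (nat_lit 704598) (nat_lit 6) (.e (nat_lit 188431) (nat_lit 20) .nil)))))) (.g (nat_lit 0) .nil .nil))) 
(.lf (nat_lit 102821) (.g (nat_lit 2002) (.e (nat_lit 3402) (nat_lit 211) (.e (nat_lit 647183) (nat_lit 4) (.e (nat_lit 172124) (nat_lit 14) (.e (nat_lit 491549) (nat_lit 9) (.e (nat_lit 336426) (nat_lit 29) (.e (nat_lit 442396) (nat_lit 20) .nil)))))) (.g (nat_lit 4) .nil .nil)))) (.nd (nat_lit 5) 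
(.lf (nat_lit 102805) (.g (nat_lit 1733) (.e (nat_lit 3402) (nat_lit 211) (.e (nat_lit 647183) (nat_lit 4) (.e (nat_lit 172107) (nat_lit 10) (.e (nat_lit 434272) (nat_lit 38) (.e (nat_lit 655380) (nat_lit 6) (.e (nat_lit 188428) (nat_lit 20) .nil)))))) (.g (nat_lit 5) .nil .nil))) 
(.lf (nat_lit 102837) (.g (nat_lit 1786) (.e (nat_lit 3406) (nat_lit 212) (.e (nat_lit 655379) (nat_lit 5) (.e (nat_lit 180278) (nat_lit 32) (.e (nat_lit 1426) (nat_lit 108) (.e (nat_lit 336430) (nat_lit 29) (.e (nat_lit 442402) (nat_lit 20) .nil)))))) (.g (nat_lit 0) .nil .nil))))) (.nd (nat_lit 4) (.nd (nat_lit 5) 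
(.lf (nat_lit 102797) (.g (nat_lit 2040) (.e (nat_lit 3401) (nat_lit 211) (.e (nat_lit 647181) (nat_lit 3) (.e (nat_lit 163977) (nat_lit 30) (.e (nat_lit 573479) (nat_lit 13) (.e (nat_lit 65619) (nat_lit 10) (.e (nat_lit 344117) (nat_lit 21) (.e (nat_lit 516151) (nat_lit 9) (.e (nat_lit 426023) (nat_lit 0) .nil)))))))) (.g (nat_lit 4) .nil .nil))) 
(.lf (nat_lit 102829) (.g (nat_lit 2361) (.e (nat_lit 3406) (nat_lit 212) (.e (nat_lit 655375) (nat_lit 3) (.e (nat_lit 163977) (nat_lit 30) (.e (nat_lit 573479) (nat_lit 13) (.e (nat_lit 65619) (nat_lit 10) (.e (nat_lit 344117) (nat_lit 21) (.e (nat_lit 516151) (nat_lit 9) (.e (nat_lit 426043) (nat_lit 0) .nil)))))))) (.g (nat_lit 5) .nil .nil)))) (.nd (nat_lit 5) 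
(.lf (nat_lit 102813) (.g (nat_lit 1891) (.e (nat_lit 3402) (nat_lit 211) (.e (nat_lit 647183) (nat_lit 4) (.e (nat_lit 172115) (nat_lit 10) (.e (nat_lit 434272) (nat_lit 38) (.e (nat_lit 655380) (nat_lit 6) (.e (nat_lit 188428) (nat_lit 20) .nil)))))) (.g (nat_lit 5) .nil .nil))) 
(.lf (nat_lit 102845) (.g (nat_lit 2348) (.e (nat_lit 3409) (nat_lit 212) (.e (nat_lit 655364) (nat_lit 0) (.e (nat_lit 2964) (nat_lit 185) (.e (nat_lit 434209) (nat_lit 18) (.e (nat_lit 6272) (nat_lit 337) (.e (nat_lit 1207) (nat_lit 89) (.e (nat_lit 73754) (nat_lit 8) (.e (nat_lit 557101) (nat_lit 13) (.e (nat_lit 172051) (nat_lit 0) .nil))))))))) (.g (nat_lit 4) .nil .nil))))))) 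
(.nd (nat_lit 2) (.nd (nat_lit 3) (.nd (nat_lit 4) (.nd (nat_lit 5) 
(.lf (nat_lit 102787) (.g (nat_lit 1730) (.e (nat_lit 3399) (nat_lit 211) (.e (nat_lit 647185) (nat_lit 6) (.e (nat_lit 188418) (nat_lit 0) (.e (nat_lit 2058) (nat_lit 142) (.e (nat_lit 704598) (nat_lit 6) (.e (nat_lit 188431) (nat_lit 20) .nil)))))) (.g (nat_lit 0) .nil .nil))) 
(.lf (nat_lit 102819) (.g (nat_lit 1454) (.e (nat_lit 3402) (nat_lit 211) (.e (nat_lit 647183) (nat_lit 4) (.e (nat_lit 172124) (nat_lit 14) (.e (nat_lit 491548) (nat_lit 9) (.e (nat_lit 336428) (nat_lit 29) .nil))))) .nil))) (.nd (nat_lit 5) 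
(.lf (nat_lit 102803) (.g (nat_lit 2027) (.e (nat_lit 3402) (nat_lit 211) (.e (nat_lit 647183) (nat_lit 4) (.e (nat_lit 172106) (nat_lit 10) (.e (nat_lit 434272) (nat_lit 38) (.e (nat_lit 655380) (nat_lit 6) (.e (nat_lit 188430) (nat_lit 20) .nil)))))) (.g (nat_lit 0) .nil .nil))) 
(.lf (nat_lit 102835) (.g (nat_lit 2127) (.e (nat_lit 3406) (nat_lit 212) (.e (nat_lit 655379) (nat_lit 5) (.e (nat_lit 180277) (nat_lit 32) (.e (nat_lit 1428) (nat_lit 108) (.e (nat_lit 336430) (nat_lit 29) (.e (nat_lit 442402) (nat_lit 20) .nil)))))) (.g (nat_lit 0) .nil .nil))))) (.nd (nat_lit 4) (.nd (nat_lit 5) 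
(.lf (nat_lit 102795) (.g (nat_lit 2159) (.e (nat_lit 3399) (nat_lit 211) (.e (nat_lit 647185) (nat_lit 6) (.e (nat_lit 188441) (nat_lit 20) (.e (nat_lit 3409) (nat_lit 212) (.e (nat_lit 655380) (nat_lit 6) (.e (nat_lit 188431) (nat_lit 20) .nil)))))) (.g (nat_lit 0) .nil .nil))) 
(.lf (nat_lit 102827) (.g (nat_lit 1890) (.e (nat_lit 7936) (nat_lit 211) (.e (nat_lit 647181) (nat_lit 3) (.e (nat_lit 163978) (nat_lit 30) (.e (nat_lit 573484) (nat_lit 13) (.e (nat_lit 65610) (nat_lit 10) .nil))))) .nil))) (.nd (nat_lit 5) 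
(.lf (nat_lit 102811) (.g (nat_lit 2102) (.e (nat_lit 3402) (nat_lit 211) (.e (nat_lit 647183) (nat_lit 4) (.e (nat_lit 172113) (nat_lit 10) (.e (nat_lit 434272) (nat_lit 38) (.e (nat_lit 655380) (nat_lit 6) (.e (nat_lit 188430) (nat_lit 20) .nil)))))) (.g (nat_lit 0) .nil .nil))) 
(.lf (nat_lit 102843) (.g (nat_lit 990) (.e (nat_lit 3408) (nat_lit 212) (.e (nat_lit 655364) (nat_lit 0) (.e (nat_lit 2828) (nat_lit 182) (.e (nat_lit 417536) (nat_lit 6) .nil)))) .nil))))) (.nd (nat_lit 3) (.nd (nat_lit 4) (.nd (nat_lit 5) 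
(.lf (nat_lit 102791) (.g (nat_lit 1728) (.e (nat_lit 3399) (nat_lit 211) (.e (nat_lit 647185) (nat_lit 6) (.e (nat_lit 188420) (nat_lit 0) (.e (nat_lit 2059) (nat_lit 142) (.e (nat_lit 704598) (nat_lit 6) (.e (nat_lit 188431) (nat_lit 20) .nil)))))) (.g (nat_lit 0) .nil .nil))) 
(.lf (nat_lit 102823) (.g (nat_lit 840) (.e (nat_lit 3402) (nat_lit 211) (.e (nat_lit 647183) (nat_lit 4) (.e (nat_lit 172124) (nat_lit 14) (.e (nat_lit 491550) (nat_lit 9) .nil)))) .nil))) (.nd (nat_lit 5) 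
(.lf (nat_lit 102807) (.g (nat_lit 2156) (.e (nat_lit 3402) (nat_lit 211) (.e (nat_lit 647183) (nat_lit 4) (.e (nat_lit 172107) (nat_lit 10) (.e (nat_lit 434272) (nat_lit 38) (.e (nat_lit 655380) (nat_lit 6) (.e (nat_lit 188431) (nat_lit 20) .nil)))))) (.g (nat_lit 6) .nil .nil))) 
(.lf (nat_lit 102839) (.g (nat_lit 2218) (.e (nat_lit 3406) (nat_lit 212) (.e (nat_lit 655379) (nat_lit 5) (.e (nat_lit 180278) (nat_lit 32) (.e (nat_lit 1428) (nat_lit 108) (.e (nat_lit 336430) (nat_lit 29) (.e (nat_lit 442402) (nat_lit 20) .nil)))))) (.g (nat_lit 0) .nil .nil))))) (.nd (nat_lit 4) (.nd (nat_lit 5) 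
(.lf (nat_lit 102799) (.g (nat_lit 1991) (.e (nat_lit 3402) (nat_lit 211) (.e (nat_lit 647181) (nat_lit 3) (.e (nat_lit 163977) (nat_lit 30) (.e (nat_lit 573479) (nat_lit 13) (.e (nat_lit 65619) (nat_lit 10) .nil))))) .nil)) 
(.lf (nat_lit 102831) (.g (nat_lit 2072) (.e (nat_lit 3406) (nat_lit 212) (.e (nat_lit 655375) (nat_lit 3) (.e (nat_lit 163978) (nat_lit 30) (.e (nat_lit 573483) (nat_lit 13) .nil)))) .nil))) (.nd (nat_lit 5) 
(.lf (nat_lit 102815) (.g (nat_lit 2345) (.e (nat_lit 3402) (nat_lit 211) (.e (nat_lit 647183) (nat_lit 4) (.e (nat_lit 172115) (nat_lit 10) (.e (nat_lit 434272) (nat_lit 38) (.e (nat_lit 655380) (nat_lit 6) (.e (nat_lit 188431) (nat_lit 20) .nil)))))) (.g (nat_lit 6) .nil .nil))) 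
(.lf (nat_lit 102847) (.g (nat_lit 2830) (.e (nat_lit 3409) (nat_lit 212) (.e (nat_lit 655375) (nat_lit 3) (.e (nat_lit 163978) (nat_lit 30) (.e (nat_lit 573481) (nat_lit 13) (.e (nat_lit 65604) (nat_lit 9) .nil))))) .nil))))))))

noncomputable def tv1403 : DT := (.nd (nat_lit 0) (.nd (nat_lit 1) (.nd (nat_lit 2) (.nd (nat_lit 3) (.nd (nat_lit 4) (.nd (nat_lit 5) 
(.lf (nat_lit 102848) (.g (nat_lit 2052) (.e (nat_lit 3409) (nat_lit 212) (.e (nat_lit 655375) (nat_lit 3) (.e (nat_lit 163978) (nat_lit 30) (.e (nat_lit 573483) (nat_lit 13) .nil)))) .nil)) 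
(.lf (nat_lit 102880) (.g (nat_lit 732) (.e (nat_lit 3419) (nat_lit 213) (.e (nat_lit 663565) (nat_lit 3) (.e (nat_lit 57466) (nat_lit 23) (.e (nat_lit 516176) (nat_lit 14) .nil)))) .nil))) (.nd (nat_lit 5) 
(.lf (nat_lit 102864) (.g (nat_lit 2740) (.e (nat_lit 3409) (nat_lit 212) (.e (nat_lit 655378) (nat_lit 4) (.e (nat_lit 172126) (nat_lit 14) (.e (nat_lit 491569) (nat_lit 13) (.e (nat_lit 393274) (nat_lit 23) .nil))))) .nil)) 
(.lf (nat_lit 102896) (.g (nat_lit 442) (.e (nat_lit 3431) (nat_lit 213) (.e (nat_lit 663565) (nat_lit 3) (.e (nat_lit 57466) (nat_lit 23) .nil))) .nil)))) (.nd (nat_lit 4) (.nd (nat_lit 5) 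
(.lf (nat_lit 102856) (.g (nat_lit 1188) (.e (nat_lit 3409) (nat_lit 212) (.e (nat_lit 655378) (nat_lit 4) (.e (nat_lit 172113) (nat_lit 10) (.e (nat_lit 434270) (nat_lit 38) .nil)))) .nil)) 
(.lf (nat_lit 102888) (.g (nat_lit 465) (.e (nat_lit 3421) (nat_lit 213) (.e (nat_lit 663565) (nat_lit 3) (.e (nat_lit 57466) (nat_lit 23) .nil))) .nil))) (.nd (nat_lit 5) 
(.lf (nat_lit 102872) (.g (nat_lit 2952) (.e (nat_lit 3417) (nat_lit 213) (.e (nat_lit 663554) (nat_lit 0) (.e (nat_lit 1669) (nat_lit 116) (.e (nat_lit 401454) (nat_lit 12) (.e (nat_lit 475208) (nat_lit 41) .nil))))) .nil)) 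
(.lf (nat_lit 102904) (.g (nat_lit 1181) (.e (nat_lit 3432) (nat_lit 213) (.e (nat_lit 663565) (nat_lit 3) (.e (nat_lit 57465) (nat_lit 23) (.e (nat_lit 516176) (nat_lit 14) (.e (nat_lit 474880) (nat_lit 18) .nil))))) .nil))))) (.nd (nat_lit 3) (.nd (nat_lit 4) (.nd (nat_lit 5) 
(.lf (nat_lit 102852) (.g (nat_lit 1499) (.e (nat_lit 3409) (nat_lit 212) (.e (nat_lit 655378) (nat_lit 4) (.e (nat_lit 172089) (nat_lit 9) (.e (nat_lit 426025) (nat_lit 0) (.e (nat_lit 3399) (nat_lit 211) .nil))))) .nil)) 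
(.lf (nat_lit 102884) (.g (nat_lit 2217) (.e (nat_lit 3421) (nat_lit 213) (.e (nat_lit 663554) (nat_lit 0) (.e (nat_lit 1401) (nat_lit 106) (.e (nat_lit 319531) (nat_lit 16) (.e (nat_lit 286760) (nat_lit 13) .nil))))) .nil))) (.nd (nat_lit 5) 
(.lf (nat_lit 102868) (.g (nat_lit 3627) (.e (nat_lit 3415) (nat_lit 213) (.e (nat_lit 663554) (nat_lit 0) (.e (nat_lit 1669) (nat_lit 116) (.e (nat_lit 401454) (nat_lit 12) (.e (nat_lit 475196) (nat_lit 40) .nil))))) .nil)) 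
(.lf (nat_lit 102900) (.g (nat_lit 1276) (.e (nat_lit 3432) (nat_lit 213) (.e (nat_lit 663554) (nat_lit 0) (.e (nat_lit 1401) (nat_lit 106) (.e (nat_lit 319534) (nat_lit 16) (.e (nat_lit 286761) (nat_lit 13) .nil))))) .nil)))) (.nd (nat_lit 4) (.nd (nat_lit 5) 
(.lf (nat_lit 102860) (.g (nat_lit 2494) (.e (nat_lit 3409) (nat_lit 212) (.e (nat_lit 655378) (nat_lit 4) (.e (nat_lit 172125) (nat_lit 14) (.e (nat_lit 491571) (nat_lit 13) (.e (nat_lit 393266) (nat_lit 23) .nil))))) .nil)) 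
(.lf (nat_lit 102892) (.g (nat_lit 1786) (.e (nat_lit 3428) (nat_lit 213) (.e (nat_lit 663568) (nat_lit 5) (.e (nat_lit 73775) (nat_lit 26) (.e (nat_lit 778362) (nat_lit 9) (.e (nat_lit 297) (nat_lit 22) .nil))))) .nil))) (.nd (nat_lit 5) 
(.lf (nat_lit 102876) (.g (nat_lit 2380) (.e (nat_lit 3418) (nat_lit 213) (.e (nat_lit 663554) (nat_lit 0) (.e (nat_lit 1669) (nat_lit 116) (.e (nat_lit 401454) (nat_lit 12) (.e (nat_lit 475210) (nat_lit 41) .nil))))) .nil)) 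
(.lf (nat_lit 102908) (.g (nat_lit 1426) (.e (nat_lit 3432) (nat_lit 213) (.e (nat_lit 663565) (nat_lit 3) (.e (nat_lit 57466) (nat_lit 23) (.e (nat_lit 516174) (nat_lit 14) (.e (nat_lit 474880) (nat_lit 18) (.e (nat_lit 393233) (nat_lit 17) .nil)))))) (.g (nat_lit 4) .nil .nil))))))) (.nd (nat_lit 2) (.nd (nat_lit 3) (.nd (nat_lit 4) (.nd (nat_lit 5) 
(.lf (nat_lit 102850) (.g (nat_lit 1114) (.e (nat_lit 3409) (nat_lit 212) (.e (nat_lit 655378) (nat_lit 4) (.e (nat_lit 172082) (nat_lit 7) (.e (nat_lit 409641) (nat_lit 17) .nil)))) .nil)) 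
(.lf (nat_lit 102882) (.g (nat_lit 1528) (.e (nat_lit 3421) (nat_lit 213) (.e (nat_lit 663554) (nat_lit 0) (.e (nat_lit 1393) (nat_lit 106) (.e (nat_lit 319531) (nat_lit 16) (.e (nat_lit 286761) (nat_lit 13) .nil))))) .nil))) (.nd (nat_lit 5) 
(.lf (nat_lit 102866) (.g (nat_lit 1290) (.e (nat_lit 3409) (nat_lit 212) (.e (nat_lit 655380) (nat_lit 6) (.e (nat_lit 188420) (nat_lit 0) (.e (nat_lit 2058) (nat_lit 142) (.e (nat_lit 704598) (nat_lit 6) (.e (nat_lit 188435) (nat_lit 20) .nil)))))) (.g (nat_lit 0) .nil .nil))) 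
(.lf (nat_lit 102898) (.g (nat_lit 470) (.e (nat_lit 3432) (nat_lit 213) (.e (nat_lit 663554) (nat_lit 0) (.e (nat_lit 1246) (nat_lit 92) .nil))) .nil)))) (.nd (nat_lit 4) (.nd (nat_lit 5) 
(.lf (nat_lit 102858) (.g (nat_lit 364) (.e (nat_lit 3409) (nat_lit 212) (.e (nat_lit 655378) (nat_lit 4) (.e (nat_lit 172120) (nat_lit 12) .nil))) .nil)) 
(.lf (nat_lit 102890) (.g (nat_lit 750) (.e (nat_lit 3421) (nat_lit 213) (.e (nat_lit 663565) (nat_lit 3) (.e (nat_lit 57466) (nat_lit 23) (.e (nat_lit 516164) (nat_lit 11) .nil)))) .nil))) (.nd (nat_lit 5) 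
(.lf (nat_lit 102874) (.g (nat_lit 3780) (.e (nat_lit 3417) (nat_lit 213) (.e (nat_lit 663554) (nat_lit 0) (.e (nat_lit 1669) (nat_lit 116) (.e (nat_lit 401454) (nat_lit 12) (.e (nat_lit 475209) (nat_lit 41) (.e (nat_lit 712752) (nat_lit 29) (.e (nat_lit 442411) (nat_lit 20) .nil))))))) (.g (nat_lit 6) .nil .nil))) 
(.lf (nat_lit 102906) (.g (nat_lit 1550) (.e (nat_lit 3432) (nat_lit 213) (.e (nat_lit 663565) (nat_lit 3) (.e (nat_lit 57466) (nat_lit 23) (.e (nat_lit 516163) (nat_lit 11) (.e (nat_lit 450304) (nat_lit 18) .nil))))) .nil))))) (.nd (nat_lit 3) (.nd (nat_lit 4) (.nd (nat_lit 5) 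
(.lf (nat_lit 102854) (.g (nat_lit 1880) (.e (nat_lit 3409) (nat_lit 212) (.e (nat_lit 655378) (nat_lit 4) (.e (nat_lit 172094) (nat_lit 9) (.e (nat_lit 426025) (nat_lit 0) (.e (nat_lit 3399) (nat_lit 211) .nil))))) .nil)) 
(.lf (nat_lit 102886) (.g (nat_lit 2605) (.e (nat_lit 3421) (nat_lit 213) (.e (nat_lit 663554) (nat_lit 0) (.e (nat_lit 1669) (nat_lit 116) (.e (nat_lit 401454) (nat_lit 12) (.e (nat_lit 475197) (nat_lit 40) .nil))))) .nil))) (.nd (nat_lit 5) 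
(.lf (nat_lit 102870) (.g (nat_lit 2196) (.e (nat_lit 3415) (nat_lit 213) (.e (nat_lit 663554) (nat_lit 0) (.e (nat_lit 1669) (nat_lit 116) (.e (nat_lit 401454) (nat_lit 12) (.e (nat_lit 475209) (nat_lit 41) .nil))))) .nil)) 
(.lf (nat_lit 102902) (.g (nat_lit 1471) (.e (nat_lit 3432) (nat_lit 213) (.e (nat_lit 663557) (nat_lit 0) (.e (nat_lit 1234) (nat_lit 91) (.e (nat_lit 90185) (nat_lit 17) (.e (nat_lit 237601) (nat_lit 9) .nil))))) .nil)))) (.nd (nat_lit 4) (.nd (nat_lit 5) 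
(.lf (nat_lit 102862) (.g (nat_lit 2441) (.e (nat_lit 3409) (nat_lit 212) (.e (nat_lit 655378) (nat_lit 4) (.e (nat_lit 172125) (nat_lit 14) (.e (nat_lit 491571) (nat_lit 13) (.e (nat_lit 393275) (nat_lit 23) .nil))))) .nil)) 
(.lf (nat_lit 102894) (.g (nat_lit 3235) (.e (nat_lit 3430) (nat_lit 213) (.e (nat_lit 663554) (nat_lit 0) (.e (nat_lit 1669) (nat_lit 116) (.e (nat_lit 401454) (nat_lit 12) (.e (nat_lit 475198) (nat_lit 40) (.e (nat_lit 704598) (nat_lit 6) (.e (nat_lit 188425) (nat_lit 20) .nil))))))) (.g (nat_lit 5) .nil .nil)))) (.nd (nat_lit 5) 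
(.lf (nat_lit 102878) (.g (nat_lit 465) (.e (nat_lit 3419) (nat_lit 213) (.e (nat_lit 663565) (nat_lit 3) (.e (nat_lit 57465) (nat_lit 23) .nil))) .nil)) 
(.lf (nat_lit 102910) (.g (nat_lit 482) (.e (nat_lit 3432) (nat_lit 213) (.e (nat_lit 663567) (nat_lit 4) (.e (nat_lit 65651) (nat_lit 27) .nil))) .nil))))))) (.nd (nat_lit 1) (.nd (nat_lit 2) (.nd (nat_lit 3) (.nd (nat_lit 4) (.nd (nat_lit 5) 
(.lf (nat_lit 102849) (.g (nat_lit 1592) (.e (nat_lit 3409) (nat_lit 212) (.e (nat_lit 655376) (nat_lit 4) (.e (nat_lit 172120) (nat_lit 12) (.e (nat_lit 475211) (nat_lit 41) (.e (nat_lit 712752) (nat_lit 29) .nil))))) .nil)) 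
(.lf (nat_lit 102881) (.g (nat_lit 1539) (.e (nat_lit 3419) (nat_lit 213) (.e (nat_lit 663584) (nat_lit 12) (.e (nat_lit 164007) (nat_lit 41) (.e (nat_lit 663574) (nat_lit 9) (.e (nat_lit 249) (nat_lit 21) .nil))))) .nil))) (.nd (nat_lit 5) 
(.lf (nat_lit 102865) (.g (nat_lit 1563) (.e (nat_lit 3409) (nat_lit 212) (.e (nat_lit 655380) (nat_lit 6) (.e (nat_lit 188418) (nat_lit 0) (.e (nat_lit 2058) (nat_lit 142) (.e (nat_lit 704598) (nat_lit 6) (.e (nat_lit 188435) (nat_lit 20) .nil)))))) (.g (nat_lit 0) .nil .nil))) 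
(.lf (nat_lit 102897) (.g (nat_lit 509) (.e (nat_lit 3431) (nat_lit 213) (.e (nat_lit 663567) (nat_lit 4) (.e (nat_lit 65651) (nat_lit 27) .nil))) .nil)))) (.nd (nat_lit 4) (.nd (nat_lit 5) 
(.lf (nat_lit 102857) (.g (nat_lit 2690) (.e (nat_lit 3409) (nat_lit 212) (.e (nat_lit 655378) (nat_lit 4) (.e (nat_lit 172118) (nat_lit 12) (.e (nat_lit 475210) (nat_lit 41) (.e (nat_lit 712752) (nat_lit 29) (.e (nat_lit 442411) (nat_lit 20) .nil)))))) (.g (nat_lit 5) .nil .nil))) 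
(.lf (nat_lit 102889) (.g (nat_lit 1553) (.e (nat_lit 3421) (nat_lit 213) (.e (nat_lit 663565) (nat_lit 3) (.e (nat_lit 57466) (nat_lit 23) (.e (nat_lit 516163) (nat_lit 11) (.e (nat_lit 450304) (nat_lit 18) .nil))))) .nil))) (.nd (nat_lit 5) 
(.lf (nat_lit 102873) (.g (nat_lit 2194) (.e (nat_lit 3417) (nat_lit 213) (.e (nat_lit 663554) (nat_lit 0) (.e (nat_lit 1669) (nat_lit 116) (.e (nat_lit 401454) (nat_lit 12) (.e (nat_lit 475209) (nat_lit 41) .nil))))) .nil)) 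
(.lf (nat_lit 102905) (.g (nat_lit 467) (.e (nat_lit 3432) (nat_lit 213) (.e (nat_lit 663565) (nat_lit 3) (.e (nat_lit 57466) (nat_lit 23) .nil))) .nil))))) (.nd (nat_lit 3) (.nd (nat_lit 4) (.nd (nat_lit 5) 
(.lf (nat_lit 102853) (.g (nat_lit 1858) (.e (nat_lit 3409) (nat_lit 212) (.e (nat_lit 655378) (nat_lit 4) (.e (nat_lit 172094) (nat_lit 9) (.e (nat_lit 426025) (nat_lit 0) (.e (nat_lit 3397) (nat_lit 211) .nil))))) .nil)) 
(.lf (nat_lit 102885) (.g (nat_lit 1930) (.e (nat_lit 3421) (nat_lit 213) (.e (nat_lit 663554) (nat_lit 0) (.e (nat_lit 1401) (nat_lit 106) (.e (nat_lit 319534) (nat_lit 16) (.e (nat_lit 286749) (nat_lit 9) .nil))))) .nil))) (.nd (nat_lit 5) 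
(.lf (nat_lit 102869) (.g (nat_lit 2677) (.e (nat_lit 3415) (nat_lit 213) (.e (nat_lit 663554) (nat_lit 0) (.e (nat_lit 1669) (nat_lit 116) (.e (nat_lit 401454) (nat_lit 12) (.e (nat_lit 475197) (nat_lit 40) .nil))))) .nil)) 
(.lf (nat_lit 102901) (.g (nat_lit 2645) (.e (nat_lit 3432) (nat_lit 213) (.e (nat_lit 663554) (nat_lit 0) (.e (nat_lit 1669) (nat_lit 116) (.e (nat_lit 401454) (nat_lit 12) (.e (nat_lit 475197) (nat_lit 40) .nil))))) .nil)))) (.nd (nat_lit 4) (.nd (nat_lit 5) 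
(.lf (nat_lit 102861) (.g (nat_lit 2657) (.e (nat_lit 3409) (nat_lit 212) (.e (nat_lit 655378) (nat_lit 4) (.e (nat_lit 172125) (nat_lit 14) (.e (nat_lit 491571) (nat_lit 13) (.e (nat_lit 393274) (nat_lit 23) .nil))))) .nil)) 
(.lf (nat_lit 102893) (.g (nat_lit 2667) (.e (nat_lit 3430) (nat_lit 213) (.e (nat_lit 663554) (nat_lit 0) (.e (nat_lit 1669) (nat_lit 116) (.e (nat_lit 401454) (nat_lit 12) (.e (nat_lit 475197) (nat_lit 40) .nil))))) .nil))) (.nd (nat_lit 5) 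
(.lf (nat_lit 102877) (.g (nat_lit 998) (.e (nat_lit 3419) (nat_lit 213) (.e (nat_lit 663560) (nat_lit 0) (.e (nat_lit 1255) (nat_lit 92) (.e (nat_lit 98370) (nat_lit 28) (.e (nat_lit 450304) (nat_lit 18) .nil))))) .nil)) 
(.lf (nat_lit 102909) (.g (nat_lit 747) (.e (nat_lit 3432) (nat_lit 213) (.e (nat_lit 663565) (nat_lit 3) (.e (nat_lit 57466) (nat_lit 23) (.e (nat_lit 516177) (nat_lit 14) .nil)))) .nil)))))) (.nd (nat_lit 2) (.nd (nat_lit 3) (.nd (nat_lit 4) (.nd (nat_lit 5) 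
(.lf (nat_lit 102851) (.g (nat_lit 1492) (.e (nat_lit 3409) (nat_lit 212) (.e (nat_lit 655378) (nat_lit 4) (.e (nat_lit 172089) (nat_lit 9) (.e (nat_lit 426025) (nat_lit 0) (.e (nat_lit 3397) (nat_lit 211) .nil))))) .nil)) 
(.lf (nat_lit 102883) (.g (nat_lit 1768) (.e (nat_lit 3421) (nat_lit 213) (.e (nat_lit 663554) (nat_lit 0) (.e (nat_lit 1401) (nat_lit 106) (.e (nat_lit 319531) (nat_lit 16) (.e (nat_lit 286748) (nat_lit 9) .nil))))) .nil))) (.nd (nat_lit 5) 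
(.lf (nat_lit 102867) (.g (nat_lit 1149) (.e (nat_lit 3411) (nat_lit 212) (.e (nat_lit 655364) (nat_lit 0) (.e (nat_lit 2828) (nat_lit 182) (.e (nat_lit 417536) (nat_lit 7) .nil)))) .nil)) 
(.lf (nat_lit 102899) (.g (nat_lit 467) (.e (nat_lit 3432) (nat_lit 213) (.e (nat_lit 663554) (nat_lit 0) (.e (nat_lit 1256) (nat_lit 92) .nil))) .nil)))) (.nd (nat_lit 4) (.nd (nat_lit 5) 
(.lf (nat_lit 102859) (.g (nat_lit 2083) (.e (nat_lit 3409) (nat_lit 212) (.e (nat_lit 655378) (nat_lit 4) (.e (nat_lit 172124) (nat_lit 14) (.e (nat_lit 491571) (nat_lit 13) (.e (nat_lit 393274) (nat_lit 23) .nil))))) .nil)) 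
(.lf (nat_lit 102891) (.g (nat_lit 2617) (.e (nat_lit 3421) (nat_lit 213) (.e (nat_lit 663567) (nat_lit 4) (.e (nat_lit 65586) (nat_lit 7) (.e (nat_lit 319531) (nat_lit 16) (.e (nat_lit 286767) (nat_lit 27) .nil))))) .nil))) (.nd (nat_lit 5) 
(.lf (nat_lit 102875) (.g (nat_lit 3077) (.e (nat_lit 3418) (nat_lit 213) (.e (nat_lit 663554) (nat_lit 0) (.e (nat_lit 1668) (nat_lit 116) (.e (nat_lit 401454) (nat_lit 12) (.e (nat_lit 475209) (nat_lit 41) (.e (nat_lit 712752) (nat_lit 29) (.e (nat_lit 442408) (nat_lit 20) .nil))))))) (.g (nat_lit 6) .nil .nil))) 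
(.lf (nat_lit 102907) (.g (nat_lit 1476) (.e (nat_lit 3432) (nat_lit 213) (.e (nat_lit 663565) (nat_lit 3) (.e (nat_lit 57466) (nat_lit 23) (.e (nat_lit 516174) (nat_lit 14) (.e (nat_lit 474880) (nat_lit 18) (.e (nat_lit 393232) (nat_lit 17) .nil)))))) (.g (nat_lit 4) .nil .nil)))))) (.nd (nat_lit 3) (.nd (nat_lit 4) (.nd (nat_lit 5) 
(.lf (nat_lit 102855) (.g (nat_lit 620) (.e (nat_lit 3409) (nat_lit 212) (.e (nat_lit 655378) (nat_lit 4) (.e (nat_lit 172100) (nat_lit 9) .nil))) .nil)) 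
(.lf (nat_lit 102887) (.g (nat_lit 1546) (.e (nat_lit 3421) (nat_lit 213) (.e (nat_lit 663565) (nat_lit 3) (.e (nat_lit 57465) (nat_lit 23) (.e (nat_lit 516174) (nat_lit 14) (.e (nat_lit 474880) (nat_lit 18) .nil))))) .nil))) (.nd (nat_lit 5) 
(.lf (nat_lit 102871) (.g (nat_lit 3625) (.e (nat_lit 3416) (nat_lit 213) (.e (nat_lit 663554) (nat_lit 0) (.e (nat_lit 1669) (nat_lit 116) (.e (nat_lit 401454) (nat_lit 12) (.e (nat_lit 475196) (nat_lit 40) .nil))))) .nil)) 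
(.lf (nat_lit 102903) (.g (nat_lit 1538) (.e (nat_lit 3432) (nat_lit 213) (.e (nat_lit 663565) (nat_lit 3) (.e (nat_lit 57465) (nat_lit 23) (.e (nat_lit 516174) (nat_lit 14) (.e (nat_lit 474880) (nat_lit 18) .nil))))) .nil)))) (.nd (nat_lit 4) (.nd (nat_lit 5) 
(.lf (nat_lit 102863) (.g (nat_lit 2849) (.e (nat_lit 3409) (nat_lit 212) (.e (nat_lit 655378) (nat_lit 4) (.e (nat_lit 172126) (nat_lit 14) (.e (nat_lit 491556) (nat_lit 9) (.e (nat_lit 336429) (nat_lit 29) .nil))))) .nil)) 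
(.lf (nat_lit 102895) (.g (nat_lit 562) (.e (nat_lit 3430) (nat_lit 213) (.e (nat_lit 663574) (nat_lit 9) (.e (nat_lit 2700) (nat_lit 169) .nil))) .nil))) (.nd (nat_lit 5) 
(.lf (nat_lit 102879) (.g (nat_lit 734) (.e (nat_lit 3419) (nat_lit 213) (.e (nat_lit 663565) (nat_lit 3) (.e (nat_lit 57466) (nat_lit 23) (.e (nat_lit 516174) (nat_lit 14) .nil)))) .nil)) 
(.lf (nat_lit 102911) (.g (nat_lit 1162) (.e (nat_lit 3434) (nat_lit 214) (.e (nat_lit 671762) (nat_lit 4) (.e (nat_lit 65580) (nat_lit 6) (.e (nat_lit 147467) (nat_lit 9) .nil)))) .nil))))))))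

noncomputable def tv1404 : DT := (.nd (nat_lit 0) (.nd (nat_lit 1) (.nd (nat_lit 2) (.nd (nat_lit 3) (.nd (nat_lit 4) (.nd (nat_lit 5) 
(.lf (nat_lit 102912) (.g (nat_lit 1579) (.e (nat_lit 3434) (nat_lit 214) (.e (nat_lit 671762) (nat_lit 4) (.e (nat_lit 65580) (nat_lit 6) (.e (nat_lit 147467) (nat_lit 9) (.e (nat_lit 297) (nat_lit 22) .nil))))) .nil)) 
(.lf (nat_lit 102944) (.g (nat_lit 3847) (.e (nat_lit 3452) (nat_lit 216) (.e (nat_lit 688186) (nat_lit 18) (.e (nat_lit 81965) (nat_lit 26) (.e (nat_lit 147495) (nat_lit 11) (.e (nat_lit 24665) (nat_lit 14) (.e (nat_lit 401414) (nat_lit 0) .nil)))))) (.g (nat_lit 0) .nil .nil)))) (.nd (nat_lit 5) 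
(.lf (nat_lit 102928) (.g (nat_lit 4080) (.e (nat_lit 3452) (nat_lit 216) (.e (nat_lit 688171) (nat_lit 15) (.e (nat_lit 57478) (nat_lit 28) (.e (nat_lit 557105) (nat_lit 14) (.e (nat_lit 180252) (nat_lit 10) (.e (nat_lit 573481) (nat_lit 13) (.e (nat_lit 65571) (nat_lit 3) (.e (nat_lit 98325) (nat_lit 17) .nil)))))))) (.g (nat_lit 8) .nil .nil))) 
(.lf (nat_lit 102960) (.g (nat_lit 2075) (.e (nat_lit 3453) (nat_lit 216) (.e (nat_lit 688175) (nat_lit 16) (.e (nat_lit 65626) (nat_lit 13) (.e (nat_lit 393259) (nat_lit 21) (.e (nat_lit 409645) (nat_lit 18) (.e (nat_lit 303106) (nat_lit 0) .nil)))))) (.g (nat_lit 6) .nil .nil))))) (.nd (nat_lit 4) (.nd (nat_lit 5) 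
(.lf (nat_lit 102920) (.g (nat_lit 1535) (.e (nat_lit 3437) (nat_lit 214) (.e (nat_lit 671762) (nat_lit 4) (.e (nat_lit 65578) (nat_lit 6) (.e (nat_lit 147467) (nat_lit 9) (.e (nat_lit 297) (nat_lit 22) .nil))))) .nil)) 
(.lf (nat_lit 102952) (.g (nat_lit 4205) (.e (nat_lit 3453) (nat_lit 216) (.e (nat_lit 688175) (nat_lit 16) (.e (nat_lit 65619) (nat_lit 10) (.e (nat_lit 344177) (nat_lit 43) (.e (nat_lit 770072) (nat_lit 8) (.e (nat_lit 65630) (nat_lit 14) (.e (nat_lit 401412) (nat_lit 0) .nil))))))) (.g (nat_lit 0) .nil .nil)))) (.nd (nat_lit 5) 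
(.lf (nat_lit 102936) (.g (nat_lit 2763) (.e (nat_lit 3452) (nat_lit 216) (.e (nat_lit 688185) (nat_lit 18) (.e (nat_lit 81965) (nat_lit 26) (.e (nat_lit 147492) (nat_lit 11) (.e (nat_lit 24665) (nat_lit 14) (.e (nat_lit 401413) (nat_lit 0) .nil)))))) (.g (nat_lit 0) .nil .nil))) 
(.lf (nat_lit 102968) (.g (nat_lit 2009) (.e (nat_lit 3453) (nat_lit 216) (.e (nat_lit 688175) (nat_lit 16) (.e (nat_lit 65627) (nat_lit 13) (.e (nat_lit 393259) (nat_lit 21) (.e (nat_lit 409645) (nat_lit 18) (.e (nat_lit 303106) (nat_lit 0) .nil)))))) (.g (nat_lit 5) .nil .nil)))))) (.nd (nat_lit 3) (.nd (nat_lit 4) (.nd (nat_lit 5) 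
(.lf (nat_lit 102916) (.g (nat_lit 2788) (.e (nat_lit 3437) (nat_lit 214) (.e (nat_lit 671748) (nat_lit 0) (.e (nat_lit 1669) (nat_lit 116) (.e (nat_lit 401454) (nat_lit 12) (.e (nat_lit 475197) (nat_lit 40) .nil))))) .nil)) 
(.lf (nat_lit 102948) (.g (nat_lit 3266) (.e (nat_lit 3453) (nat_lit 216) (.e (nat_lit 688175) (nat_lit 16) (.e (nat_lit 65571) (nat_lit 3) (.e (nat_lit 98370) (nat_lit 28) (.e (nat_lit 442427) (nat_lit 23) (.e (nat_lit 212736) (nat_lit 0) .nil)))))) (.g (nat_lit 5) .nil .nil)))) (.nd (nat_lit 5) 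
(.lf (nat_lit 102932) (.g (nat_lit 1368) (.e (nat_lit 3452) (nat_lit 216) (.e (nat_lit 688182) (nat_lit 17) (.e (nat_lit 73754) (nat_lit 8) (.e (nat_lit 557093) (nat_lit 12) (.e (nat_lit 164239) (nat_lit 187) .nil))))) .nil)) 
(.lf (nat_lit 102964) (.g (nat_lit 1968) (.e (nat_lit 3453) (nat_lit 216) (.e (nat_lit 688175) (nat_lit 16) (.e (nat_lit 65626) (nat_lit 13) (.e (nat_lit 393260) (nat_lit 21) (.e (nat_lit 409647) (nat_lit 18) (.e (nat_lit 303106) (nat_lit 0) .nil)))))) (.g (nat_lit 5) .nil .nil))))) (.nd (nat_lit 4) (.nd (nat_lit 5) 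
(.lf (nat_lit 102924) (.g (nat_lit 1636) (.e (nat_lit 3438) (nat_lit 214) (.e (nat_lit 671762) (nat_lit 4) (.e (nat_lit 65580) (nat_lit 6) (.e (nat_lit 147467) (nat_lit 9) (.e (nat_lit 297) (nat_lit 22) .nil))))) .nil)) 
(.lf (nat_lit 102956) (.g (nat_lit 3081) (.e (nat_lit 3453) (nat_lit 216) (.e (nat_lit 688175) (nat_lit 16) (.e (nat_lit 65625) (nat_lit 13) (.e (nat_lit 393260) (nat_lit 21) (.e (nat_lit 409645) (nat_lit 18) (.e (nat_lit 303106) (nat_lit 0) .nil)))))) (.g (nat_lit 6) .nil .nil)))) (.nd (nat_lit 5) 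
(.lf (nat_lit 102940) (.g (nat_lit 2912) (.e (nat_lit 3452) (nat_lit 216) (.e (nat_lit 688186) (nat_lit 18) (.e (nat_lit 81965) (nat_lit 26) (.e (nat_lit 147492) (nat_lit 11) (.e (nat_lit 24665) (nat_lit 14) (.e (nat_lit 401413) (nat_lit 0) .nil)))))) (.g (nat_lit 0) .nil .nil))) 
(.lf (nat_lit 102972) (.g (nat_lit 2326) (.e (nat_lit 3453) (nat_lit 216) (.e (nat_lit 688175) (nat_lit 16) (.e (nat_lit 65627) (nat_lit 13) (.e (nat_lit 393260) (nat_lit 21) (.e (nat_lit 409649) (nat_lit 18) (.e (nat_lit 303106) (nat_lit 0) .nil)))))) (.g (nat_lit 5) .nil .nil))))))) (.nd (nat_lit 2) (.nd (nat_lit 3) (.nd (nat_lit 4) (.nd (nat_lit 5) 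
(.lf (nat_lit 102914) (.g (nat_lit 2350) (.e (nat_lit 3437) (nat_lit 214) (.e (nat_lit 671747) (nat_lit 0) (.e (nat_lit 1669) (nat_lit 116) (.e (nat_lit 401454) (nat_lit 12) (.e (nat_lit 475197) (nat_lit 40) .nil))))) .nil)) 
(.lf (nat_lit 102946) (.g (nat_lit 3119) (.e (nat_lit 3453) (nat_lit 216) (.e (nat_lit 688173) (nat_lit 16) (.e (nat_lit 65568) (nat_lit 2) (.e (nat_lit 90170) (nat_lit 13) (.e (nat_lit 172106) (nat_lit 10) (.e (nat_lit 434231) (nat_lit 23) (.e (nat_lit 540416) (nat_lit 17) .nil))))))) (.g (nat_lit 6) .nil .nil)))) (.nd (nat_lit 5) 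
(.lf (nat_lit 102930) (.g (nat_lit 762) (.e (nat_lit 3452) (nat_lit 216) (.e (nat_lit 688178) (nat_lit 16) (.e (nat_lit 65626) (nat_lit 13) (.e (nat_lit 393260) (nat_lit 21) .nil)))) .nil)) 
(.lf (nat_lit 102962) (.g (nat_lit 2681) (.e (nat_lit 3453) (nat_lit 216) (.e (nat_lit 688175) (nat_lit 16) (.e (nat_lit 65626) (nat_lit 13) (.e (nat_lit 393260) (nat_lit 21) (.e (nat_lit 409645) (nat_lit 18) (.e (nat_lit 303106) (nat_lit 0) .nil)))))) (.g (nat_lit 6) .nil .nil))))) (.nd (nat_lit 4) (.nd (nat_lit 5) 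
(.lf (nat_lit 102922) (.g (nat_lit 1203) (.e (nat_lit 3437) (nat_lit 214) (.e (nat_lit 671762) (nat_lit 4) (.e (nat_lit 65580) (nat_lit 6) (.e (nat_lit 147467) (nat_lit 9) .nil)))) .nil)) 
(.lf (nat_lit 102954) (.g (nat_lit 2226) (.e (nat_lit 3453) (nat_lit 216) (.e (nat_lit 688175) (nat_lit 16) (.e (nat_lit 65625) (nat_lit 13) (.e (nat_lit 393260) (nat_lit 21) (.e (nat_lit 409643) (nat_lit 18) (.e (nat_lit 303106) (nat_lit 0) .nil)))))) (.g (nat_lit 5) .nil .nil)))) (.nd (nat_lit 5) 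
(.lf (nat_lit 102938) (.g (nat_lit 3588) (.e (nat_lit 3452) (nat_lit 216) (.e (nat_lit 688185) (nat_lit 18) (.e (nat_lit 81965) (nat_lit 26) (.e (nat_lit 147494) (nat_lit 11) (.e (nat_lit 24665) (nat_lit 14) (.e (nat_lit 401418) (nat_lit 0) .nil)))))) (.g (nat_lit 6) .nil .nil))) 
(.lf (nat_lit 102970) (.g (nat_lit 2490) (.e (nat_lit 3453) (nat_lit 216) (.e (nat_lit 688175) (nat_lit 16) (.e (nat_lit 65627) (nat_lit 13) (.e (nat_lit 393260) (nat_lit 21) (.e (nat_lit 409646) (nat_lit 18) (.e (nat_lit 303106) (nat_lit 0) .nil)))))) (.g (nat_lit 0) .nil .nil)))))) (.nd (nat_lit 3) (.nd (nat_lit 4) (.nd (nat_lit 5) 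
(.lf (nat_lit 102918) (.g (nat_lit 2039) (.e (nat_lit 3437) (nat_lit 214) (.e (nat_lit 671762) (nat_lit 4) (.e (nat_lit 65546) (nat_lit 0) (.e (nat_lit 2281) (nat_lit 150) (.e (nat_lit 770073) (nat_lit 9) .nil))))) .nil)) 
(.lf (nat_lit 102950) (.g (nat_lit 3896) (.e (nat_lit 3453) (nat_lit 216) (.e (nat_lit 688175) (nat_lit 16) (.e (nat_lit 65619) (nat_lit 10) (.e (nat_lit 344177) (nat_lit 43) (.e (nat_lit 770071) (nat_lit 8) (.e (nat_lit 65630) (nat_lit 14) (.e (nat_lit 401412) (nat_lit 0) .nil))))))) (.g (nat_lit 0) .nil .nil)))) (.nd (nat_lit 5) 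
(.lf (nat_lit 102934) (.g (nat_lit 1166) (.e (nat_lit 3452) (nat_lit 216) (.e (nat_lit 688182) (nat_lit 17) (.e (nat_lit 73755) (nat_lit 8) (.e (nat_lit 557104) (nat_lit 14) .nil)))) .nil)) 
(.lf (nat_lit 102966) (.g (nat_lit 2806) (.e (nat_lit 3453) (nat_lit 216) (.e (nat_lit 688175) (nat_lit 16) (.e (nat_lit 65626) (nat_lit 13) (.e (nat_lit 393260) (nat_lit 21) (.e (nat_lit 409648) (nat_lit 18) (.e (nat_lit 303106) (nat_lit 0) .nil)))))) (.g (nat_lit 0) .nil .nil))))) (.nd (nat_lit 4) (.nd (nat_lit 5) 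
(.lf (nat_lit 102926) (.g (nat_lit 877) (.e (nat_lit 3439) (nat_lit 214) (.e (nat_lit 671748) (nat_lit 0) (.e (nat_lit 1665) (nat_lit 115) (.e (nat_lit 393281) (nat_lit 23) .nil)))) .nil)) 
(.lf (nat_lit 102958) (.g (nat_lit 2425) (.e (nat_lit 3453) (nat_lit 216) (.e (nat_lit 688175) (nat_lit 16) (.e (nat_lit 65625) (nat_lit 13) (.e (nat_lit 393260) (nat_lit 21) (.e (nat_lit 409648) (nat_lit 18) (.e (nat_lit 303106) (nat_lit 0) .nil)))))) (.g (nat_lit 5) .nil .nil)))) (.nd (nat_lit 5) 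
(.lf (nat_lit 102942) (.g (nat_lit 3739) (.e (nat_lit 3452) (nat_lit 216) (.e (nat_lit 688186) (nat_lit 18) (.e (nat_lit 81965) (nat_lit 26) (.e (nat_lit 147494) (nat_lit 11) (.e (nat_lit 24665) (nat_lit 14) (.e (nat_lit 401418) (nat_lit 0) .nil)))))) (.g (nat_lit 6) .nil .nil))) 
(.lf (nat_lit 102974) (.g (nat_lit 562) (.e (nat_lit 3453) (nat_lit 216) (.e (nat_lit 688177) (nat_lit 16) (.e (nat_lit 65625) (nat_lit 13) .nil))) .nil))))))) (.nd (nat_lit 1) (.nd (nat_lit 2) (.nd (nat_lit 3) (.nd (nat_lit 4) (.nd (nat_lit 5) 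
(.lf (nat_lit 102913) (.g (nat_lit 1556) (.e (nat_lit 3437) (nat_lit 214) (.e (nat_lit 671747) (nat_lit 0) (.e (nat_lit 1401) (nat_lit 106) (.e (nat_lit 319531) (nat_lit 16) (.e (nat_lit 286743) (nat_lit 9) .nil))))) .nil)) 
(.lf (nat_lit 102945) (.g (nat_lit 3848) (.e (nat_lit 3452) (nat_lit 216) (.e (nat_lit 688186) (nat_lit 18) (.e (nat_lit 81965) (nat_lit 26) (.e (nat_lit 147495) (nat_lit 11) (.e (nat_lit 24665) (nat_lit 14) (.e (nat_lit 401418) (nat_lit 0) .nil)))))) (.g (nat_lit 0) .nil .nil)))) (.nd (nat_lit 5) 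
(.lf (nat_lit 102929) (.g (nat_lit 3838) (.e (nat_lit 3452) (nat_lit 216) (.e (nat_lit 688171) (nat_lit 15) (.e (nat_lit 57480) (nat_lit 28) (.e (nat_lit 557105) (nat_lit 14) (.e (nat_lit 180252) (nat_lit 10) (.e (nat_lit 573481) (nat_lit 13) (.e (nat_lit 65571) (nat_lit 3) (.e (nat_lit 98325) (nat_lit 17) .nil)))))))) (.g (nat_lit 7) .nil .nil))) 
(.lf (nat_lit 102961) (.g (nat_lit 2348) (.e (nat_lit 3453) (nat_lit 216) (.e (nat_lit 688175) (nat_lit 16) (.e (nat_lit 65626) (nat_lit 13) (.e (nat_lit 393260) (nat_lit 21) (.e (nat_lit 409644) (nat_lit 18) (.e (nat_lit 303106) (nat_lit 0) .nil)))))) (.g (nat_lit 6) .nil .nil))))) (.nd (nat_lit 4) (.nd (nat_lit 5) 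
(.lf (nat_lit 102921) (.g (nat_lit 683) (.e (nat_lit 3437) (nat_lit 214) (.e (nat_lit 671762) (nat_lit 4) (.e (nat_lit 65580) (nat_lit 6) .nil))) .nil)) 
(.lf (nat_lit 102953) (.g (nat_lit 2505) (.e (nat_lit 3453) (nat_lit 216) (.e (nat_lit 688175) (nat_lit 16) (.e (nat_lit 65625) (nat_lit 13) (.e (nat_lit 393259) (nat_lit 21) (.e (nat_lit 409645) (nat_lit 18) (.e (nat_lit 303106) (nat_lit 0) .nil)))))) (.g (nat_lit 0) .nil .nil)))) (.nd (nat_lit 5) 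
(.lf (nat_lit 102937) (.g (nat_lit 3296) (.e (nat_lit 3452) (nat_lit 216) (.e (nat_lit 688185) (nat_lit 18) (.e (nat_lit 81965) (nat_lit 26) (.e (nat_lit 147492) (nat_lit 11) (.e (nat_lit 24665) (nat_lit 14) (.e (nat_lit 401414) (nat_lit 0) .nil)))))) (.g (nat_lit 0) .nil .nil))) 
(.lf (nat_lit 102969) (.g (nat_lit 2679) (.e (nat_lit 3453) (nat_lit 216) (.e (nat_lit 688175) (nat_lit 16) (.e (nat_lit 65627) (nat_lit 13) (.e (nat_lit 393260) (nat_lit 21) (.e (nat_lit 409645) (nat_lit 18) (.e (nat_lit 303106) (nat_lit 0) .nil)))))) (.g (nat_lit 5) .nil .nil)))))) (.nd (nat_lit 3) (.nd (nat_lit 4) (.nd (nat_lit 5) 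
(.lf (nat_lit 102917) (.g (nat_lit 746) (.e (nat_lit 3437) (nat_lit 214) (.e (nat_lit 671762) (nat_lit 4) (.e (nat_lit 65541) (nat_lit 0) .nil))) .nil)) 
(.lf (nat_lit 102949) (.g (nat_lit 2295) (.e (nat_lit 3453) (nat_lit 216) (.e (nat_lit 688175) (nat_lit 16) (.e (nat_lit 65571) (nat_lit 3) (.e (nat_lit 98381) (nat_lit 31) (.e (nat_lit 466977) (nat_lit 22) (.e (nat_lit 196624) (nat_lit 9) (.e (nat_lit 3) (nat_lit 0) .nil))))))) (.g (nat_lit 4) .nil .nil)))) (.nd (nat_lit 5) 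
(.lf (nat_lit 102933) (.g (nat_lit 2320) (.e (nat_lit 3452) (nat_lit 216) (.e (nat_lit 688182) (nat_lit 17) (.e (nat_lit 73755) (nat_lit 8) (.e (nat_lit 557090) (nat_lit 12) (.e (nat_lit 164238) (nat_lit 187) .nil))))) .nil)) 
(.lf (nat_lit 102965) (.g (nat_lit 2603) (.e (nat_lit 3453) (nat_lit 216) (.e (nat_lit 688175) (nat_lit 16) (.e (nat_lit 65626) (nat_lit 13) (.e (nat_lit 393260) (nat_lit 21) (.e (nat_lit 409648) (nat_lit 18) (.e (nat_lit 303104) (nat_lit 0) .nil)))))) (.g (nat_lit 6) .nil .nil))))) (.nd (nat_lit 4) (.nd (nat_lit 5) 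
(.lf (nat_lit 102925) (.g (nat_lit 747) (.e (nat_lit 3439) (nat_lit 214) (.e (nat_lit 671748) (nat_lit 0) (.e (nat_lit 1395) (nat_lit 106) (.e (nat_lit 319530) (nat_lit 16) .nil)))) .nil)) 
(.lf (nat_lit 102957) (.g (nat_lit 2451) (.e (nat_lit 3453) (nat_lit 216) (.e (nat_lit 688175) (nat_lit 16) (.e (nat_lit 65625) (nat_lit 13) (.e (nat_lit 393260) (nat_lit 21) (.e (nat_lit 409646) (nat_lit 18) (.e (nat_lit 303106) (nat_lit 0) .nil)))))) (.g (nat_lit 6) .nil .nil)))) (.nd (nat_lit 5) 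
(.lf (nat_lit 102941) (.g (nat_lit 3466) (.e (nat_lit 3452) (nat_lit 216) (.e (nat_lit 688186) (nat_lit 18) (.e (nat_lit 81965) (nat_lit 26) (.e (nat_lit 147492) (nat_lit 11) (.e (nat_lit 24665) (nat_lit 14) (.e (nat_lit 401414) (nat_lit 0) .nil)))))) (.g (nat_lit 0) .nil .nil))) 
(.lf (nat_lit 102973) (.g (nat_lit 3408) (.e (nat_lit 3453) (nat_lit 216) (.e (nat_lit 688177) (nat_lit 16) (.e (nat_lit 65566) (nat_lit 2) (.e (nat_lit 90170) (nat_lit 13) (.e (nat_lit 172106) (nat_lit 10) (.e (nat_lit 434231) (nat_lit 23) (.e (nat_lit 540416) (nat_lit 17) .nil))))))) (.g (nat_lit 6) .nil .nil))))))) (.nd (nat_lit 2) (.nd (nat_lit 3) (.nd (nat_lit 4) (.nd (nat_lit 5) 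
(.lf (nat_lit 102915) (.g (nat_lit 1211) (.e (nat_lit 3437) (nat_lit 214) (.e (nat_lit 671748) (nat_lit 0) (.e (nat_lit 1669) (nat_lit 116) (.e (nat_lit 401450) (nat_lit 12) .nil)))) .nil)) 
(.lf (nat_lit 102947) (.g (nat_lit 3364) (.e (nat_lit 3453) (nat_lit 216) (.e (nat_lit 688175) (nat_lit 16) (.e (nat_lit 65566) (nat_lit 2) (.e (nat_lit 90170) (nat_lit 13) (.e (nat_lit 172106) (nat_lit 10) (.e (nat_lit 434231) (nat_lit 23) (.e (nat_lit 540416) (nat_lit 17) .nil))))))) (.g (nat_lit 6) .nil .nil)))) (.nd (nat_lit 5) 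
(.lf (nat_lit 102931) (.g (nat_lit 3119) (.e (nat_lit 3452) (nat_lit 216) (.e (nat_lit 688178) (nat_lit 16) (.e (nat_lit 65626) (nat_lit 13) (.e (nat_lit 393260) (nat_lit 21) (.e (nat_lit 409645) (nat_lit 18) (.e (nat_lit 303112) (nat_lit 0) .nil)))))) (.g (nat_lit 0) .nil .nil))) 
(.lf (nat_lit 102963) (.g (nat_lit 2251) (.e (nat_lit 3453) (nat_lit 216) (.e (nat_lit 688175) (nat_lit 16) (.e (nat_lit 65626) (nat_lit 13) (.e (nat_lit 393260) (nat_lit 21) (.e (nat_lit 409646) (nat_lit 18) (.e (nat_lit 303106) (nat_lit 0) .nil)))))) (.g (nat_lit 5) .nil .nil))))) (.nd (nat_lit 4) (.nd (nat_lit 5) 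
(.lf (nat_lit 102923) (.g (nat_lit 1218) (.e (nat_lit 3438) (nat_lit 214) (.e (nat_lit 671762) (nat_lit 4) (.e (nat_lit 65580) (nat_lit 6) (.e (nat_lit 147467) (nat_lit 9) .nil)))) .nil)) 
(.lf (nat_lit 102955) (.g (nat_lit 2467) (.e (nat_lit 3453) (nat_lit 216) (.e (nat_lit 688175) (nat_lit 16) (.e (nat_lit 65625) (nat_lit 13) (.e (nat_lit 393260) (nat_lit 21) (.e (nat_lit 409644) (nat_lit 18) (.e (nat_lit 303106) (nat_lit 0) .nil)))))) (.g (nat_lit 5) .nil .nil)))) (.nd (nat_lit 5) 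
(.lf (nat_lit 102939) (.g (nat_lit 2894) (.e (nat_lit 3452) (nat_lit 216) (.e (nat_lit 688186) (nat_lit 18) (.e (nat_lit 81965) (nat_lit 26) (.e (nat_lit 147492) (nat_lit 11) (.e (nat_lit 24664) (nat_lit 14) (.e (nat_lit 401414) (nat_lit 0) .nil)))))) (.g (nat_lit 6) .nil .nil))) 
(.lf (nat_lit 102971) (.g (nat_lit 2251) (.e (nat_lit 3453) (nat_lit 216) (.e (nat_lit 688175) (nat_lit 16) (.e (nat_lit 65627) (nat_lit 13) (.e (nat_lit 393260) (nat_lit 21) (.e (nat_lit 409648) (nat_lit 18) (.e (nat_lit 303106) (nat_lit 0) .nil)))))) (.g (nat_lit 5) .nil .nil)))))) (.nd (nat_lit 3) (.nd (nat_lit 4) (.nd (nat_lit 5) 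
(.lf (nat_lit 102919) (.g (nat_lit 1353) (.e (nat_lit 3437) (nat_lit 214) (.e (nat_lit 671762) (nat_lit 4) (.e (nat_lit 65565) (nat_lit 1) (.e (nat_lit 57655) (nat_lit 152) .nil)))) .nil)) 
(.lf (nat_lit 102951) (.g (nat_lit 3478) (.e (nat_lit 3453) (nat_lit 216) (.e (nat_lit 688175) (nat_lit 16) (.e (nat_lit 65619) (nat_lit 10) (.e (nat_lit 344177) (nat_lit 43) (.e (nat_lit 770072) (nat_lit 8) (.e (nat_lit 65629) (nat_lit 14) (.e (nat_lit 401412) (nat_lit 0) .nil))))))) (.g (nat_lit 7) .nil .nil)))) (.nd (nat_lit 5) 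
(.lf (nat_lit 102935) (.g (nat_lit 2727) (.e (nat_lit 3452) (nat_lit 216) (.e (nat_lit 688185) (nat_lit 18) (.e (nat_lit 81965) (nat_lit 26) (.e (nat_lit 147492) (nat_lit 11) (.e (nat_lit 24664) (nat_lit 14) (.e (nat_lit 401414) (nat_lit 0) .nil)))))) (.g (nat_lit 6) .nil .nil))) 
(.lf (nat_lit 102967) (.g (nat_lit 2820) (.e (nat_lit 3453) (nat_lit 216) (.e (nat_lit 688175) (nat_lit 16) (.e (nat_lit 65626) (nat_lit 13) (.e (nat_lit 393260) (nat_lit 21) (.e (nat_lit 409649) (nat_lit 18) (.e (nat_lit 303106) (nat_lit 0) .nil)))))) (.g (nat_lit 6) .nil .nil))))) (.nd (nat_lit 4) (.nd (nat_lit 5) 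
(.lf (nat_lit 102927) (.g (nat_lit 2794) (.e (nat_lit 3439) (nat_lit 214) (.e (nat_lit 671748) (nat_lit 0) (.e (nat_lit 1669) (nat_lit 116) (.e (nat_lit 401454) (nat_lit 12) (.e (nat_lit 475197) (nat_lit 40) .nil))))) .nil)) 
(.lf (nat_lit 102959) (.g (nat_lit 2650) (.e (nat_lit 3453) (nat_lit 216) (.e (nat_lit 688175) (nat_lit 16) (.e (nat_lit 65625) (nat_lit 13) (.e (nat_lit 393260) (nat_lit 21) (.e (nat_lit 409649) (nat_lit 18) (.e (nat_lit 303106) (nat_lit 0) .nil)))))) (.g (nat_lit 6) .nil .nil)))) (.nd (nat_lit 5) 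
(.lf (nat_lit 102943) (.g (nat_lit 3399) (.e (nat_lit 3452) (nat_lit 216) (.e (nat_lit 688186) (nat_lit 18) (.e (nat_lit 81965) (nat_lit 26) (.e (nat_lit 147495) (nat_lit 11) (.e (nat_lit 24665) (nat_lit 14) (.e (nat_lit 401413) (nat_lit 0) .nil)))))) (.g (nat_lit 6) .nil .nil))) 
(.lf (nat_lit 102975) (.g (nat_lit 3238) (.e (nat_lit 3453) (nat_lit 216) (.e (nat_lit 688178) (nat_lit 16) (.e (nat_lit 65566) (nat_lit 2) (.e (nat_lit 90170) (nat_lit 13) (.e (nat_lit 172106) (nat_lit 10) (.e (nat_lit 434231) (nat_lit 23) (.e (nat_lit 540416) (nat_lit 17) .nil))))))) (.g (nat_lit 6) .nil .nil)))))))))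

noncomputable def tv1405 : DT := (.nd (nat_lit 0) (.nd (nat_lit 1) (.nd (nat_lit 2) (.nd (nat_lit 3) (.nd (nat_lit 4) (.nd (nat_lit 5) 
(.lf (nat_lit 102976) (.g (nat_lit 1892) (.e (nat_lit 3453) (nat_lit 216) (.e (nat_lit 688178) (nat_lit 16) (.e (nat_lit 65626) (nat_lit 13) (.e (nat_lit 393238) (nat_lit 17) (.e (nat_lit 6989) (nat_lit 377) (.e (nat_lit 2810) (nat_lit 180) (.e (nat_lit 303106) (nat_lit 0) .nil))))))) (.g (nat_lit 5) .nil .nil))) 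
(.lf (nat_lit 103008) (.g (nat_lit 2917) (.e (nat_lit 3453) (nat_lit 216) (.e (nat_lit 688182) (nat_lit 17) (.e (nat_lit 73755) (nat_lit 8) (.e (nat_lit 557098) (nat_lit 13) (.e (nat_lit 172137) (nat_lit 15) .nil))))) .nil))) (.nd (nat_lit 5) 
(.lf (nat_lit 102992) (.g (nat_lit 2072) (.e (nat_lit 3453) (nat_lit 216) (.e (nat_lit 688182) (nat_lit 17) (.e (nat_lit 73755) (nat_lit 8) (.e (nat_lit 557068) (nat_lit 9) (.e (nat_lit 3096) (nat_lit 192) .nil))))) .nil)) 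
(.lf (nat_lit 103024) (.g (nat_lit 2340) (.e (nat_lit 3453) (nat_lit 216) (.e (nat_lit 688186) (nat_lit 18) (.e (nat_lit 81950) (nat_lit 21) (.e (nat_lit 57847) (nat_lit 252) (.e (nat_lit 57368) (nat_lit 1) (.e (nat_lit 57854) (nat_lit 252) (.e (nat_lit 57406) (nat_lit 12) (.e (nat_lit 336240) (nat_lit 15) .nil)))))))) (.g (nat_lit 4) .nil .nil))))) (.nd (nat_lit 4) (.nd (nat_lit 5) 
(.lf (nat_lit 102984) (.g (nat_lit 2229) (.e (nat_lit 3453) (nat_lit 216) (.e (nat_lit 688178) (nat_lit 16) (.e (nat_lit 65626) (nat_lit 13) (.e (nat_lit 393260) (nat_lit 21) (.e (nat_lit 409648) (nat_lit 18) (.e (nat_lit 303104) (nat_lit 0) .nil)))))) (.g (nat_lit 5) .nil .nil))) 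
(.lf (nat_lit 103016) (.g (nat_lit 3365) (.e (nat_lit 3453) (nat_lit 216) (.e (nat_lit 688182) (nat_lit 17) (.e (nat_lit 73755) (nat_lit 8) (.e (nat_lit 557104) (nat_lit 14) (.e (nat_lit 180233) (nat_lit 0) (.e (nat_lit 5448) (nat_lit 306) (.e (nat_lit 2725) (nat_lit 172) (.e (nat_lit 237570) (nat_lit 0) .nil)))))))) (.g (nat_lit 7) .nil .nil)))) (.nd (nat_lit 5) 
(.lf (nat_lit 103000) (.g (nat_lit 2109) (.e (nat_lit 3453) (nat_lit 216) (.e (nat_lit 688182) (nat_lit 17) (.e (nat_lit 73755) (nat_lit 8) (.e (nat_lit 557091) (nat_lit 12) (.e (nat_lit 164238) (nat_lit 187) .nil))))) .nil)) 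
(.lf (nat_lit 103032) (.g (nat_lit 2380) (.e (nat_lit 3453) (nat_lit 216) (.e (nat_lit 688186) (nat_lit 18) (.e (nat_lit 81965) (nat_lit 26) (.e (nat_lit 147492) (nat_lit 11) (.e (nat_lit 24664) (nat_lit 14) (.e (nat_lit 401409) (nat_lit 0) .nil)))))) (.g (nat_lit 0) .nil .nil)))))) (.nd (nat_lit 3) (.nd (nat_lit 4) (.nd (nat_lit 5) 
(.lf (nat_lit 102980) (.g (nat_lit 2115) (.e (nat_lit 3453) (nat_lit 216) (.e (nat_lit 688178) (nat_lit 16) (.e (nat_lit 65626) (nat_lit 13) (.e (nat_lit 393260) (nat_lit 21) (.e (nat_lit 409644) (nat_lit 18) (.e (nat_lit 303106) (nat_lit 0) .nil)))))) (.g (nat_lit 6) .nil .nil))) 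
(.lf (nat_lit 103012) (.g (nat_lit 2172) (.e (nat_lit 3453) (nat_lit 216) (.e (nat_lit 688182) (nat_lit 17) (.e (nat_lit 73755) (nat_lit 8) (.e (nat_lit 557104) (nat_lit 14) (.e (nat_lit 180229) (nat_lit 0) (.e (nat_lit 5548) (nat_lit 306) (.e (nat_lit 2628) (nat_lit 164) (.e (nat_lit 172041) (nat_lit 0) .nil)))))))) (.g (nat_lit 4) .nil .nil)))) (.nd (nat_lit 5) 
(.lf (nat_lit 102996) (.g (nat_lit 1694) (.e (nat_lit 3453) (nat_lit 216) (.e (nat_lit 688182) (nat_lit 17) (.e (nat_lit 73755) (nat_lit 8) (.e (nat_lit 557089) (nat_lit 12) (.e (nat_lit 171776) (nat_lit 194) .nil))))) .nil)) 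
(.lf (nat_lit 103028) (.g (nat_lit 321) (.e (nat_lit 3453) (nat_lit 216) (.e (nat_lit 688186) (nat_lit 18) (.e (nat_lit 81965) (nat_lit 26) .nil))) .nil)))) (.nd (nat_lit 4) (.nd (nat_lit 5) 
(.lf (nat_lit 102988) (.g (nat_lit 1581) (.e (nat_lit 3453) (nat_lit 216) (.e (nat_lit 688181) (nat_lit 17) (.e (nat_lit 73755) (nat_lit 8) (.e (nat_lit 557104) (nat_lit 14) (.e (nat_lit 180233) (nat_lit 0) .nil))))) .nil)) 
(.lf (nat_lit 103020) (.g (nat_lit 1960) (.e (nat_lit 3453) (nat_lit 216) (.e (nat_lit 688182) (nat_lit 17) (.e (nat_lit 73755) (nat_lit 8) (.e (nat_lit 557119) (nat_lit 18) (.e (nat_lit 7936) (nat_lit 102) (.e (nat_lit 286761) (nat_lit 13) (.e (nat_lit 393237) (nat_lit 17) .nil))))))) (.g (nat_lit 4) .nil .nil)))) (.nd (nat_lit 5) 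
(.lf (nat_lit 103004) (.g (nat_lit 4020) (.e (nat_lit 3453) (nat_lit 216) (.e (nat_lit 688182) (nat_lit 17) (.e (nat_lit 73755) (nat_lit 8) (.e (nat_lit 557097) (nat_lit 13) (.e (nat_lit 172133) (nat_lit 15) (.e (nat_lit 2175) (nat_lit 143) (.e (nat_lit 712745) (nat_lit 27) (.e (nat_lit 425984) (nat_lit 0) .nil)))))))) (.g (nat_lit 8) .nil .nil))) 
(.lf (nat_lit 103036) (.g (nat_lit 2547) (.e (nat_lit 3453) (nat_lit 216) (.e (nat_lit 688186) (nat_lit 18) (.e (nat_lit 81965) (nat_lit 26) (.e (nat_lit 147492) (nat_lit 11) (.e (nat_lit 24665) (nat_lit 14) (.e (nat_lit 409344) (nat_lit 0) .nil)))))) (.g (nat_lit 5) .nil .nil))))))) (.nd (nat_lit 2) (.nd (nat_lit 3) (.nd (nat_lit 4) (.nd (nat_lit 5) 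
(.lf (nat_lit 102978) (.g (nat_lit 2055) (.e (nat_lit 3453) (nat_lit 216) (.e (nat_lit 688178) (nat_lit 16) (.e (nat_lit 65626) (nat_lit 13) (.e (nat_lit 393260) (nat_lit 21) (.e (nat_lit 409623) (nat_lit 10) (.e (nat_lit 5664) (nat_lit 312) (.e (nat_lit 2440) (nat_lit 157) .nil))))))) (.g (nat_lit 6) .nil .nil))) 
(.lf (nat_lit 103010) (.g (nat_lit 2118) (.e (nat_lit 3453) (nat_lit 216) (.e (nat_lit 688182) (nat_lit 17) (.e (nat_lit 73755) (nat_lit 8) (.e (nat_lit 557103) (nat_lit 14) (.e (nat_lit 180233) (nat_lit 0) .nil))))) .nil))) (.nd (nat_lit 5) 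
(.lf (nat_lit 102994) (.g (nat_lit 1088) (.e (nat_lit 3453) (nat_lit 216) (.e (nat_lit 688182) (nat_lit 17) (.e (nat_lit 73755) (nat_lit 8) (.e (nat_lit 557089) (nat_lit 12) .nil)))) .nil)) 
(.lf (nat_lit 103026) (.g (nat_lit 2264) (.e (nat_lit 3453) (nat_lit 216) (.e (nat_lit 688186) (nat_lit 18) (.e (nat_lit 81950) (nat_lit 21) (.e (nat_lit 57849) (nat_lit 252) (.e (nat_lit 57365) (nat_lit 1) (.e (nat_lit 57854) (nat_lit 252) (.e (nat_lit 57406) (nat_lit 12) (.e (nat_lit 336240) (nat_lit 15) .nil)))))))) (.g (nat_lit 4) .nil .nil))))) (.nd (nat_lit 4) (.nd (nat_lit 5) 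
(.lf (nat_lit 102986) (.g (nat_lit 2468) (.e (nat_lit 3453) (nat_lit 216) (.e (nat_lit 688178) (nat_lit 16) (.e (nat_lit 65626) (nat_lit 13) (.e (nat_lit 393260) (nat_lit 21) (.e (nat_lit 409649) (nat_lit 18) (.e (nat_lit 303106) (nat_lit 0) .nil)))))) (.g (nat_lit 6) .nil .nil))) 
(.lf (nat_lit 103018) (.g (nat_lit 2211) (.e (nat_lit 3453) (nat_lit 216) (.e (nat_lit 688182) (nat_lit 17) (.e (nat_lit 73755) (nat_lit 8) (.e (nat_lit 557104) (nat_lit 14) (.e (nat_lit 180261) (nat_lit 20) .nil))))) .nil))) (.nd (nat_lit 5) 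
(.lf (nat_lit 103002) (.g (nat_lit 1317) (.e (nat_lit 3453) (nat_lit 216) (.e (nat_lit 688182) (nat_lit 17) (.e (nat_lit 73755) (nat_lit 8) (.e (nat_lit 557097) (nat_lit 13) .nil)))) .nil)) 
(.lf (nat_lit 103034) (.g (nat_lit 1844) (.e (nat_lit 3453) (nat_lit 216) (.e (nat_lit 688186) (nat_lit 18) (.e (nat_lit 81965) (nat_lit 26) (.e (nat_lit 147492) (nat_lit 11) (.e (nat_lit 24664) (nat_lit 14) (.e (nat_lit 409344) (nat_lit 0) .nil)))))) (.g (nat_lit 5) .nil .nil)))))) (.nd (nat_lit 3) (.nd (nat_lit 4) (.nd (nat_lit 5) 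
(.lf (nat_lit 102982) (.g (nat_lit 2161) (.e (nat_lit 3453) (nat_lit 216) (.e (nat_lit 688178) (nat_lit 16) (.e (nat_lit 65626) (nat_lit 13) (.e (nat_lit 393260) (nat_lit 21) (.e (nat_lit 409646) (nat_lit 18) (.e (nat_lit 303106) (nat_lit 0) .nil)))))) (.g (nat_lit 5) .nil .nil))) 
(.lf (nat_lit 103014) (.g (nat_lit 1868) (.e (nat_lit 3453) (nat_lit 216) (.e (nat_lit 688182) (nat_lit 17) (.e (nat_lit 73755) (nat_lit 8) (.e (nat_lit 557104) (nat_lit 14) (.e (nat_lit 180233) (nat_lit 0) .nil))))) .nil))) (.nd (nat_lit 5) 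
(.lf (nat_lit 102998) (.g (nat_lit 2480) (.e (nat_lit 3453) (nat_lit 216) (.e (nat_lit 688182) (nat_lit 17) (.e (nat_lit 73755) (nat_lit 8) (.e (nat_lit 557090) (nat_lit 12) (.e (nat_lit 171776) (nat_lit 187) .nil))))) .nil)) 
(.lf (nat_lit 103030) (.g (nat_lit 5372) (.e (nat_lit 3453) (nat_lit 216) (.e (nat_lit 688186) (nat_lit 18) (.e (nat_lit 81965) (nat_lit 26) (.e (nat_lit 147492) (nat_lit 11) (.e (nat_lit 24662) (nat_lit 14) (.e (nat_lit 401410) (nat_lit 0) .nil)))))) (.g (nat_lit 6) .nil .nil))))) (.nd (nat_lit 4) (.nd (nat_lit 5) 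
(.lf (nat_lit 102990) (.g (nat_lit 1136) (.e (nat_lit 3453) (nat_lit 216) (.e (nat_lit 688182) (nat_lit 17) (.e (nat_lit 73754) (nat_lit 8) (.e (nat_lit 557094) (nat_lit 12) (.e (nat_lit 164238) (nat_lit 187) .nil))))) .nil)) 
(.lf (nat_lit 103022) (.g (nat_lit 1791) (.e (nat_lit 3453) (nat_lit 216) (.e (nat_lit 688186) (nat_lit 18) (.e (nat_lit 81926) (nat_lit 11) (.e (nat_lit 426172) (nat_lit 7) (.e (nat_lit 409644) (nat_lit 18) (.e (nat_lit 303106) (nat_lit 0) .nil)))))) (.g (nat_lit 0) .nil .nil)))) (.nd (nat_lit 5) 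
(.lf (nat_lit 103006) (.g (nat_lit 2413) (.e (nat_lit 3453) (nat_lit 216) (.e (nat_lit 688182) (nat_lit 17) (.e (nat_lit 73755) (nat_lit 8) (.e (nat_lit 557098) (nat_lit 13) (.e (nat_lit 172136) (nat_lit 15) .nil))))) .nil)) 
(.lf (nat_lit 103038) (.g (nat_lit 3365) (.e (nat_lit 3453) (nat_lit 216) (.e (nat_lit 688186) (nat_lit 18) (.e (nat_lit 81965) (nat_lit 26) (.e (nat_lit 147494) (nat_lit 11) (.e (nat_lit 24665) (nat_lit 14) (.e (nat_lit 401409) (nat_lit 0) .nil)))))) (.g (nat_lit 6) .nil .nil)))))))) (.nd (nat_lit 1) (.nd (nat_lit 2) (.nd (nat_lit 3) (.nd (nat_lit 4) (.nd (nat_lit 5) 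
(.lf (nat_lit 102977) (.g (nat_lit 2249) (.e (nat_lit 3453) (nat_lit 216) (.e (nat_lit 688178) (nat_lit 16) (.e (nat_lit 65626) (nat_lit 13) (.e (nat_lit 393259) (nat_lit 21) (.e (nat_lit 409645) (nat_lit 18) (.e (nat_lit 303106) (nat_lit 0) .nil)))))) (.g (nat_lit 0) .nil .nil))) 
(.lf (nat_lit 103009) (.g (nat_lit 2370) (.e (nat_lit 3453) (nat_lit 216) (.e (nat_lit 688182) (nat_lit 17) (.e (nat_lit 73755) (nat_lit 8) (.e (nat_lit 557103) (nat_lit 14) (.e (nat_lit 180232) (nat_lit 0) .nil))))) .nil))) (.nd (nat_lit 5) 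
(.lf (nat_lit 102993) (.g (nat_lit 1739) (.e (nat_lit 3453) (nat_lit 216) (.e (nat_lit 688182) (nat_lit 17) (.e (nat_lit 73755) (nat_lit 8) (.e (nat_lit 557072) (nat_lit 9) .nil)))) .nil)) 
(.lf (nat_lit 103025) (.g (nat_lit 4947) (.e (nat_lit 3453) (nat_lit 216) (.e (nat_lit 688186) (nat_lit 18) (.e (nat_lit 81950) (nat_lit 21) (.e (nat_lit 57848) (nat_lit 252) (.e (nat_lit 57368) (nat_lit 1) (.e (nat_lit 57854) (nat_lit 252) (.e (nat_lit 57409) (nat_lit 12) (.e (nat_lit 336240) (nat_lit 15) .nil)))))))) (.g (nat_lit 8) .nil .nil))))) (.nd (nat_lit 4) (.nd (nat_lit 5) 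
(.lf (nat_lit 102985) (.g (nat_lit 2512) (.e (nat_lit 3453) (nat_lit 216) (.e (nat_lit 688178) (nat_lit 16) (.e (nat_lit 65626) (nat_lit 13) (.e (nat_lit 393260) (nat_lit 21) (.e (nat_lit 409648) (nat_lit 18) (.e (nat_lit 303106) (nat_lit 0) .nil)))))) (.g (nat_lit 6) .nil .nil))) 
(.lf (nat_lit 103017) (.g (nat_lit 4151) (.e (nat_lit 3453) (nat_lit 216) (.e (nat_lit 688182) (nat_lit 17) (.e (nat_lit 73755) (nat_lit 8) (.e (nat_lit 557104) (nat_lit 14) (.e (nat_lit 180233) (nat_lit 0) (.e (nat_lit 5599) (nat_lit 310) (.e (nat_lit 163905) (nat_lit 12) (.e (nat_lit 425986) (nat_lit 0) .nil)))))))) (.g (nat_lit 0) .nil .nil)))) (.nd (nat_lit 5) 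
(.lf (nat_lit 103001) (.g (nat_lit 3520) (.e (nat_lit 3453) (nat_lit 216) (.e (nat_lit 688182) (nat_lit 17) (.e (nat_lit 73755) (nat_lit 8) (.e (nat_lit 557096) (nat_lit 13) (.e (nat_lit 172133) (nat_lit 15) (.e (nat_lit 2175) (nat_lit 143) (.e (nat_lit 712745) (nat_lit 27) (.e (nat_lit 425984) (nat_lit 0) .nil)))))))) (.g (nat_lit 7) .nil .nil))) 
(.lf (nat_lit 103033) (.g (nat_lit 2105) (.e (nat_lit 3453) (nat_lit 216) (.e (nat_lit 688186) (nat_lit 18) (.e (nat_lit 81965) (nat_lit 26) (.e (nat_lit 147492) (nat_lit 11) (.e (nat_lit 24664) (nat_lit 14) (.e (nat_lit 401411) (nat_lit 0) .nil)))))) (.g (nat_lit 6) .nil .nil)))))) (.nd (nat_lit 3) (.nd (nat_lit 4) (.nd (nat_lit 5) 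
(.lf (nat_lit 102981) (.g (nat_lit 2439) (.e (nat_lit 3453) (nat_lit 216) (.e (nat_lit 688178) (nat_lit 16) (.e (nat_lit 65626) (nat_lit 13) (.e (nat_lit 393260) (nat_lit 21) (.e (nat_lit 409645) (nat_lit 18) (.e (nat_lit 303106) (nat_lit 0) .nil)))))) (.g (nat_lit 6) .nil .nil))) 
(.lf (nat_lit 103013) (.g (nat_lit 2579) (.e (nat_lit 3453) (nat_lit 216) (.e (nat_lit 688182) (nat_lit 17) (.e (nat_lit 73755) (nat_lit 8) (.e (nat_lit 557104) (nat_lit 14) (.e (nat_lit 180232) (nat_lit 0) .nil))))) .nil))) (.nd (nat_lit 5) 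
(.lf (nat_lit 102997) (.g (nat_lit 2455) (.e (nat_lit 3453) (nat_lit 216) (.e (nat_lit 688182) (nat_lit 17) (.e (nat_lit 73755) (nat_lit 8) (.e (nat_lit 557090) (nat_lit 12) (.e (nat_lit 164238) (nat_lit 187) .nil))))) .nil)) 
(.lf (nat_lit 103029) (.g (nat_lit 1170) (.e (nat_lit 3453) (nat_lit 216) (.e (nat_lit 688186) (nat_lit 18) (.e (nat_lit 81965) (nat_lit 26) (.e (nat_lit 147492) (nat_lit 11) (.e (nat_lit 24580) (nat_lit 0) .nil))))) .nil)))) (.nd (nat_lit 4) (.nd (nat_lit 5) 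
(.lf (nat_lit 102989) (.g (nat_lit 1579) (.e (nat_lit 3453) (nat_lit 216) (.e (nat_lit 688182) (nat_lit 17) (.e (nat_lit 73754) (nat_lit 8) (.e (nat_lit 557093) (nat_lit 12) (.e (nat_lit 164239) (nat_lit 187) (.e (nat_lit 1661) (nat_lit 115) (.e (nat_lit 393231) (nat_lit 17) .nil))))))) (.g (nat_lit 4) .nil .nil))) 
(.lf (nat_lit 103021) (.g (nat_lit 1452) (.e (nat_lit 3453) (nat_lit 216) (.e (nat_lit 688186) (nat_lit 18) (.e (nat_lit 81926) (nat_lit 11) (.e (nat_lit 426166) (nat_lit 7) (.e (nat_lit 409645) (nat_lit 18) (.e (nat_lit 303106) (nat_lit 0) .nil)))))) (.g (nat_lit 0) .nil .nil)))) (.nd (nat_lit 5) 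
(.lf (nat_lit 103005) (.g (nat_lit 2447) (.e (nat_lit 3453) (nat_lit 216) (.e (nat_lit 688182) (nat_lit 17) (.e (nat_lit 73755) (nat_lit 8) (.e (nat_lit 557098) (nat_lit 13) (.e (nat_lit 172133) (nat_lit 15) .nil))))) .nil)) 
(.lf (nat_lit 103037) (.g (nat_lit 3158) (.e (nat_lit 3453) (nat_lit 216) (.e (nat_lit 688186) (nat_lit 18) (.e (nat_lit 81965) (nat_lit 26) (.e (nat_lit 147494) (nat_lit 11) (.e (nat_lit 24665) (nat_lit 14) (.e (nat_lit 401408) (nat_lit 0) .nil)))))) (.g (nat_lit 0) .nil .nil))))))) (.nd (nat_lit 2) (.nd (nat_lit 3) (.nd (nat_lit 4) (.nd (nat_lit 5) 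
(.lf (nat_lit 102979) (.g (nat_lit 1792) (.e (nat_lit 3453) (nat_lit 216) (.e (nat_lit 688178) (nat_lit 16) (.e (nat_lit 65626) (nat_lit 13) (.e (nat_lit 393260) (nat_lit 21) (.e (nat_lit 409643) (nat_lit 18) (.e (nat_lit 303106) (nat_lit 0) .nil)))))) (.g (nat_lit 5) .nil .nil))) 
(.lf (nat_lit 103011) (.g (nat_lit 2101) (.e (nat_lit 3453) (nat_lit 216) (.e (nat_lit 688182) (nat_lit 17) (.e (nat_lit 73755) (nat_lit 8) (.e (nat_lit 557104) (nat_lit 14) (.e (nat_lit 180229) (nat_lit 0) .nil))))) .nil))) (.nd (nat_lit 5) 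
(.lf (nat_lit 102995) (.g (nat_lit 1748) (.e (nat_lit 3453) (nat_lit 216) (.e (nat_lit 688182) (nat_lit 17) (.e (nat_lit 73755) (nat_lit 8) (.e (nat_lit 557089) (nat_lit 12) (.e (nat_lit 171776) (nat_lit 187) (.e (nat_lit 1665) (nat_lit 115) (.e (nat_lit 393237) (nat_lit 17) .nil))))))) (.g (nat_lit 4) .nil .nil))) 
(.lf (nat_lit 103027) (.g (nat_lit 2244) (.e (nat_lit 3453) (nat_lit 216) (.e (nat_lit 688186) (nat_lit 18) (.e (nat_lit 81950) (nat_lit 21) (.e (nat_lit 57849) (nat_lit 252) (.e (nat_lit 57368) (nat_lit 1) (.e (nat_lit 57854) (nat_lit 252) (.e (nat_lit 57406) (nat_lit 12) (.e (nat_lit 336240) (nat_lit 15) .nil)))))))) (.g (nat_lit 4) .nil .nil))))) (.nd (nat_lit 4) (.nd (nat_lit 5) 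
(.lf (nat_lit 102987) (.g (nat_lit 1792) (.e (nat_lit 3453) (nat_lit 216) (.e (nat_lit 688181) (nat_lit 17) (.e (nat_lit 73755) (nat_lit 8) (.e (nat_lit 557097) (nat_lit 13) (.e (nat_lit 172133) (nat_lit 15) (.e (nat_lit 2175) (nat_lit 143) (.e (nat_lit 712745) (nat_lit 27) (.e (nat_lit 425984) (nat_lit 0) .nil)))))))) (.g (nat_lit 4) .nil .nil))) 
(.lf (nat_lit 103019) (.g (nat_lit 1610) (.e (nat_lit 3453) (nat_lit 216) (.e (nat_lit 688182) (nat_lit 17) (.e (nat_lit 73755) (nat_lit 8) (.e (nat_lit 557105) (nat_lit 14) (.e (nat_lit 180233) (nat_lit 0) .nil))))) .nil))) (.nd (nat_lit 5) 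
(.lf (nat_lit 103003) (.g (nat_lit 1984) (.e (nat_lit 3453) (nat_lit 216) (.e (nat_lit 688182) (nat_lit 17) (.e (nat_lit 73755) (nat_lit 8) (.e (nat_lit 557097) (nat_lit 13) (.e (nat_lit 172133) (nat_lit 15) .nil))))) .nil)) 
(.lf (nat_lit 103035) (.g (nat_lit 2681) (.e (nat_lit 3453) (nat_lit 216) (.e (nat_lit 688186) (nat_lit 18) (.e (nat_lit 81965) (nat_lit 26) (.e (nat_lit 147492) (nat_lit 11) (.e (nat_lit 24665) (nat_lit 14) (.e (nat_lit 401408) (nat_lit 0) .nil)))))) (.g (nat_lit 0) .nil .nil)))))) (.nd (nat_lit 3) (.nd (nat_lit 4) (.nd (nat_lit 5) 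
(.lf (nat_lit 102983) (.g (nat_lit 2128) (.e (nat_lit 3453) (nat_lit 216) (.e (nat_lit 688178) (nat_lit 16) (.e (nat_lit 65626) (nat_lit 13) (.e (nat_lit 393260) (nat_lit 21) (.e (nat_lit 409647) (nat_lit 18) (.e (nat_lit 303106) (nat_lit 0) .nil)))))) (.g (nat_lit 6) .nil .nil))) 
(.lf (nat_lit 103015) (.g (nat_lit 3553) (.e (nat_lit 3453) (nat_lit 216) (.e (nat_lit 688182) (nat_lit 17) (.e (nat_lit 73755) (nat_lit 8) (.e (nat_lit 557104) (nat_lit 14) (.e (nat_lit 180233) (nat_lit 0) (.e (nat_lit 5448) (nat_lit 306) (.e (nat_lit 2725) (nat_lit 172) (.e (nat_lit 237569) (nat_lit 0) .nil)))))))) (.g (nat_lit 7) .nil .nil)))) (.nd (nat_lit 5) 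
(.lf (nat_lit 102999) (.g (nat_lit 1302) (.e (nat_lit 3453) (nat_lit 216) (.e (nat_lit 688182) (nat_lit 17) (.e (nat_lit 73755) (nat_lit 8) (.e (nat_lit 557091) (nat_lit 12) .nil)))) .nil)) 
(.lf (nat_lit 103031) (.g (nat_lit 2363) (.e (nat_lit 3453) (nat_lit 216) (.e (nat_lit 688186) (nat_lit 18) (.e (nat_lit 81965) (nat_lit 26) (.e (nat_lit 147492) (nat_lit 11) (.e (nat_lit 24664) (nat_lit 14) (.e (nat_lit 401408) (nat_lit 0) .nil)))))) (.g (nat_lit 0) .nil .nil))))) (.nd (nat_lit 4) (.nd (nat_lit 5) 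
(.lf (nat_lit 102991) (.g (nat_lit 143) (.e (nat_lit 3453) (nat_lit 216) (.e (nat_lit 688182) (nat_lit 17) (.e (nat_lit 73755) (nat_lit 8) .nil))) .nil)) 
(.lf (nat_lit 103023) (.g (nat_lit 1822) (.e (nat_lit 3453) (nat_lit 216) (.e (nat_lit 688186) (nat_lit 18) (.e (nat_lit 81926) (nat_lit 11) (.e (nat_lit 426172) (nat_lit 7) (.e (nat_lit 409648) (nat_lit 18) (.e (nat_lit 303104) (nat_lit 0) .nil)))))) (.g (nat_lit 0) .nil .nil)))) (.nd (nat_lit 5) 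
(.lf (nat_lit 103007) (.g (nat_lit 4196) (.e (nat_lit 3453) (nat_lit 216) (.e (nat_lit 688182) (nat_lit 17) (.e (nat_lit 73755) (nat_lit 8) (.e (nat_lit 557098) (nat_lit 13) (.e (nat_lit 172136) (nat_lit 15) (.e (nat_lit 2174) (nat_lit 143) (.e (nat_lit 712745) (nat_lit 27) (.e (nat_lit 425984) (nat_lit 0) .nil)))))))) (.g (nat_lit 8) .nil .nil))) 
(.lf (nat_lit 103039) (.g (nat_lit 3192) (.e (nat_lit 3453) (nat_lit 216) (.e (nat_lit 688186) (nat_lit 18) (.e (nat_lit 81965) (nat_lit 26) (.e (nat_lit 147495) (nat_lit 11) (.e (nat_lit 24665) (nat_lit 14) (.e (nat_lit 401408) (nat_lit 0) .nil)))))) (.g (nat_lit 0) .nil .nil)))))))))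

noncomputable def tv1406 : DT := (.nd (nat_lit 0) (.nd (nat_lit 1) (.nd (nat_lit 2) (.nd (nat_lit 3) (.nd (nat_lit 4) (.nd (nat_lit 5) 
(.lf (nat_lit 103040) (.g (nat_lit 1475) (.e (nat_lit 3453) (nat_lit 216) (.e (nat_lit 688190) (nat_lit 20) (.e (nat_lit 131091) (nat_lit 2) (.e (nat_lit 90185) (nat_lit 17) (.e (nat_lit 237605) (nat_lit 9) (.e (nat_lit 426131) (nat_lit 3) (.e (nat_lit 212736) (nat_lit 0) .nil))))))) (.g (nat_lit 4) .nil .nil))) 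
(.lf (nat_lit 103072) (.g (nat_lit 2860) (.e (nat_lit 3459) (nat_lit 216) (.e (nat_lit 688169) (nat_lit 15) (.e (nat_lit 57478) (nat_lit 28) (.e (nat_lit 557105) (nat_lit 14) (.e (nat_lit 180252) (nat_lit 10) (.e (nat_lit 573481) (nat_lit 13) (.e (nat_lit 65571) (nat_lit 3) (.e (nat_lit 98325) (nat_lit 17) .nil)))))))) (.g (nat_lit 5) .nil .nil)))) (.nd (nat_lit 5) 
(.lf (nat_lit 103056) (.g (nat_lit 656) (.e (nat_lit 3458) (nat_lit 216) (.e (nat_lit 688160) (nat_lit 13) (.e (nat_lit 1661) (nat_lit 115) (.e (nat_lit 401152) (nat_lit 11) .nil)))) .nil)) 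
(.lf (nat_lit 103088) (.g (nat_lit 3273) (.e (nat_lit 3459) (nat_lit 216) (.e (nat_lit 688170) (nat_lit 15) (.e (nat_lit 57479) (nat_lit 28) (.e (nat_lit 557103) (nat_lit 14) (.e (nat_lit 180250) (nat_lit 10) (.e (nat_lit 573485) (nat_lit 13) (.e (nat_lit 65570) (nat_lit 3) (.e (nat_lit 98325) (nat_lit 17) .nil)))))))) (.g (nat_lit 5) .nil .nil))))) (.nd (nat_lit 4) (.nd (nat_lit 5) 
(.lf (nat_lit 103048) (.g (nat_lit 1775) (.e (nat_lit 3454) (nat_lit 216) (.e (nat_lit 688182) (nat_lit 17) (.e (nat_lit 73755) (nat_lit 8) (.e (nat_lit 557104) (nat_lit 14) (.e (nat_lit 180233) (nat_lit 0) .nil))))) .nil)) 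
(.lf (nat_lit 103080) (.g (nat_lit 4159) (.e (nat_lit 3459) (nat_lit 216) (.e (nat_lit 688170) (nat_lit 15) (.e (nat_lit 57478) (nat_lit 28) (.e (nat_lit 557105) (nat_lit 14) (.e (nat_lit 180252) (nat_lit 10) (.e (nat_lit 573481) (nat_lit 13) (.e (nat_lit 65571) (nat_lit 3) (.e (nat_lit 98325) (nat_lit 17) .nil)))))))) (.g (nat_lit 7) .nil .nil)))) (.nd (nat_lit 5) 
(.lf (nat_lit 103064) (.g (nat_lit 2277) (.e (nat_lit 3458) (nat_lit 216) (.e (nat_lit 688178) (nat_lit 16) (.e (nat_lit 65626) (nat_lit 13) (.e (nat_lit 393260) (nat_lit 21) (.e (nat_lit 409644) (nat_lit 18) (.e (nat_lit 303106) (nat_lit 0) .nil)))))) (.g (nat_lit 0) .nil .nil))) 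
(.lf (nat_lit 103096) (.g (nat_lit 4184) (.e (nat_lit 3459) (nat_lit 216) (.e (nat_lit 688170) (nat_lit 15) (.e (nat_lit 57479) (nat_lit 28) (.e (nat_lit 557105) (nat_lit 14) (.e (nat_lit 180252) (nat_lit 10) (.e (nat_lit 573481) (nat_lit 13) (.e (nat_lit 65570) (nat_lit 3) (.e (nat_lit 98325) (nat_lit 17) .nil)))))))) (.g (nat_lit 5) .nil .nil)))))) 
(.nd (nat_lit 3) (.nd (nat_lit 4) (.nd (nat_lit 5) 
(.lf (nat_lit 103044) (.g (nat_lit 1627) (.e (nat_lit 3454) (nat_lit 216) (.e (nat_lit 688182) (nat_lit 17) (.e (nat_lit 73755) (nat_lit 8) (.e (nat_lit 557089) (nat_lit 12) (.e (nat_lit 171776) (nat_lit 191) .nil))))) .nil)) 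
(.lf (nat_lit 103076) (.g (nat_lit 2260) (.e (nat_lit 3459) (nat_lit 216) (.e (nat_lit 688170) (nat_lit 15) (.e (nat_lit 57478) (nat_lit 28) (.e (nat_lit 557105) (nat_lit 14) (.e (nat_lit 180251) (nat_lit 10) (.e (nat_lit 573485) (nat_lit 13) (.e (nat_lit 65570) (nat_lit 3) (.e (nat_lit 98325) (nat_lit 17) .nil)))))))) (.g (nat_lit 4) .nil .nil)))) (.nd (nat_lit 5) 
(.lf (nat_lit 103060) (.g (nat_lit 1071) (.e (nat_lit 3458) (nat_lit 216) (.e (nat_lit 688177) (nat_lit 16) (.e (nat_lit 65625) (nat_lit 13) (.e (nat_lit 393260) (nat_lit 21) .nil)))) .nil)) 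
(.lf (nat_lit 103092) (.g (nat_lit 2363) (.e (nat_lit 3459) (nat_lit 216) (.e (nat_lit 688170) (nat_lit 15) (.e (nat_lit 57479) (nat_lit 28) (.e (nat_lit 557105) (nat_lit 14) (.e (nat_lit 180251) (nat_lit 10) (.e (nat_lit 573485) (nat_lit 13) (.e (nat_lit 65570) (nat_lit 3) (.e (nat_lit 98318) (nat_lit 17) .nil)))))))) (.g (nat_lit 4) .nil .nil))))) (.nd (nat_lit 4) (.nd (nat_lit 5) 
(.lf (nat_lit 103052) (.g (nat_lit 1639) (.e (nat_lit 3455) (nat_lit 216) (.e (nat_lit 688185) (nat_lit 18) (.e (nat_lit 81926) (nat_lit 11) (.e (nat_lit 426172) (nat_lit 7) (.e (nat_lit 409648) (nat_lit 18) (.e (nat_lit 303104) (nat_lit 0) .nil)))))) (.g (nat_lit 6) .nil .nil))) 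
(.lf (nat_lit 103084) (.g (nat_lit 3335) (.e (nat_lit 3459) (nat_lit 216) (.e (nat_lit 688170) (nat_lit 15) (.e (nat_lit 57479) (nat_lit 28) (.e (nat_lit 557103) (nat_lit 14) (.e (nat_lit 180250) (nat_lit 10) (.e (nat_lit 573482) (nat_lit 13) (.e (nat_lit 65570) (nat_lit 3) (.e (nat_lit 98325) (nat_lit 17) .nil)))))))) (.g (nat_lit 5) .nil .nil)))) (.nd (nat_lit 5) 
(.lf (nat_lit 103068) (.g (nat_lit 1618) (.e (nat_lit 3458) (nat_lit 216) (.e (nat_lit 688178) (nat_lit 16) (.e (nat_lit 65627) (nat_lit 13) (.e (nat_lit 393260) (nat_lit 21) (.e (nat_lit 409643) (nat_lit 18) (.e (nat_lit 303106) (nat_lit 0) .nil)))))) (.g (nat_lit 4) .nil .nil))) 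
(.lf (nat_lit 103100) (.g (nat_lit 3601) (.e (nat_lit 3459) (nat_lit 216) (.e (nat_lit 688170) (nat_lit 15) (.e (nat_lit 57479) (nat_lit 28) (.e (nat_lit 557105) (nat_lit 14) (.e (nat_lit 180252) (nat_lit 10) (.e (nat_lit 573487) (nat_lit 14) (.e (nat_lit 73747) (nat_lit 3) (.e (nat_lit 516107) (nat_lit 0) .nil)))))))) (.g (nat_lit 5) .nil .nil))))))) 
(.nd (nat_lit 2) (.nd (nat_lit 3) (.nd (nat_lit 4) (.nd (nat_lit 5) 
(.lf (nat_lit 103042) (.g (nat_lit 1581) (.e (nat_lit 3454) (nat_lit 216) (.e (nat_lit 688181) (nat_lit 17) (.e (nat_lit 73755) (nat_lit 8) (.e (nat_lit 557104) (nat_lit 14) (.e (nat_lit 180233) (nat_lit 0) .nil))))) .nil)) 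
(.lf (nat_lit 103074) (.g (nat_lit 2901) (.e (nat_lit 3459) (nat_lit 216) (.e (nat_lit 688170) (nat_lit 15) (.e (nat_lit 57478) (nat_lit 28) (.e (nat_lit 557103) (nat_lit 14) (.e (nat_lit 180250) (nat_lit 10) (.e (nat_lit 573482) (nat_lit 13) (.e (nat_lit 65569) (nat_lit 3) (.e (nat_lit 98325) (nat_lit 17) .nil)))))))) (.g (nat_lit 5) .nil .nil)))) (.nd (nat_lit 5) 
(.lf (nat_lit 103058) (.g (nat_lit 4218) (.e (nat_lit 3458) (nat_lit 216) (.e (nat_lit 688171) (nat_lit 15) (.e (nat_lit 57478) (nat_lit 28) (.e (nat_lit 557105) (nat_lit 14) (.e (nat_lit 180252) (nat_lit 10) (.e (nat_lit 573481) (nat_lit 13) (.e (nat_lit 65571) (nat_lit 3) (.e (nat_lit 98321) (nat_lit 17) .nil)))))))) (.g (nat_lit 8) .nil .nil))) 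
(.lf (nat_lit 103090) (.g (nat_lit 3041) (.e (nat_lit 3459) (nat_lit 216) (.e (nat_lit 688170) (nat_lit 15) (.e (nat_lit 57479) (nat_lit 28) (.e (nat_lit 557103) (nat_lit 14) (.e (nat_lit 180250) (nat_lit 10) (.e (nat_lit 573485) (nat_lit 13) (.e (nat_lit 65571) (nat_lit 3) (.e (nat_lit 98325) (nat_lit 17) .nil)))))))) (.g (nat_lit 4) .nil .nil))))) (.nd (nat_lit 4) (.nd (nat_lit 5) 
(.lf (nat_lit 103050) (.g (nat_lit 3053) (.e (nat_lit 3455) (nat_lit 216) (.e (nat_lit 688181) (nat_lit 17) (.e (nat_lit 73730) (nat_lit 0) (.e (nat_lit 7454) (nat_lit 396) (.e (nat_lit 1189) (nat_lit 88) (.e (nat_lit 65619) (nat_lit 10) (.e (nat_lit 344117) (nat_lit 21) (.e (nat_lit 516097) (nat_lit 0) .nil)))))))) (.g (nat_lit 8) .nil .nil))) 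
(.lf (nat_lit 103082) (.g (nat_lit 2811) (.e (nat_lit 3459) (nat_lit 216) (.e (nat_lit 688170) (nat_lit 15) (.e (nat_lit 57479) (nat_lit 28) (.e (nat_lit 557103) (nat_lit 14) (.e (nat_lit 180250) (nat_lit 10) (.e (nat_lit 573480) (nat_lit 13) (.e (nat_lit 65571) (nat_lit 3) (.e (nat_lit 98325) (nat_lit 17) .nil)))))))) (.g (nat_lit 4) .nil .nil)))) (.nd (nat_lit 5) 
(.lf (nat_lit 103066) (.g (nat_lit 2399) (.e (nat_lit 3458) (nat_lit 216) (.e (nat_lit 688178) (nat_lit 16) (.e (nat_lit 65626) (nat_lit 13) (.e (nat_lit 393260) (nat_lit 21) (.e (nat_lit 409648) (nat_lit 18) (.e (nat_lit 303104) (nat_lit 0) .nil)))))) (.g (nat_lit 0) .nil .nil))) 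
(.lf (nat_lit 103098) (.g (nat_lit 4639) (.e (nat_lit 3459) (nat_lit 216) (.e (nat_lit 688170) (nat_lit 15) (.e (nat_lit 57479) (nat_lit 28) (.e (nat_lit 557105) (nat_lit 14) (.e (nat_lit 180252) (nat_lit 10) (.e (nat_lit 573482) (nat_lit 13) (.e (nat_lit 65569) (nat_lit 3) (.e (nat_lit 98325) (nat_lit 17) .nil)))))))) (.g (nat_lit 6) .nil .nil)))))) 
(.nd (nat_lit 3) (.nd (nat_lit 4) (.nd (nat_lit 5) 
(.lf (nat_lit 103046) (.g (nat_lit 2040) (.e (nat_lit 3454) (nat_lit 216) (.e (nat_lit 688182) (nat_lit 17) (.e (nat_lit 73755) (nat_lit 8) (.e (nat_lit 557091) (nat_lit 12) (.e (nat_lit 164238) (nat_lit 187) .nil))))) .nil)) 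
(.lf (nat_lit 103078) (.g (nat_lit 3033) (.e (nat_lit 3459) (nat_lit 216) (.e (nat_lit 688170) (nat_lit 15) (.e (nat_lit 57478) (nat_lit 28) (.e (nat_lit 557105) (nat_lit 14) (.e (nat_lit 180252) (nat_lit 10) (.e (nat_lit 573481) (nat_lit 13) (.e (nat_lit 65569) (nat_lit 3) (.e (nat_lit 98325) (nat_lit 17) .nil)))))))) (.g (nat_lit 5) .nil .nil)))) (.nd (nat_lit 5) 
(.lf (nat_lit 103062) (.g (nat_lit 991) (.e (nat_lit 3458) (nat_lit 216) (.e (nat_lit 688177) (nat_lit 16) (.e (nat_lit 65627) (nat_lit 13) (.e (nat_lit 393260) (nat_lit 21) .nil)))) .nil)) 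
(.lf (nat_lit 103094) (.g (nat_lit 2544) (.e (nat_lit 3459) (nat_lit 216) (.e (nat_lit 688170) (nat_lit 15) (.e (nat_lit 57479) (nat_lit 28) (.e (nat_lit 557105) (nat_lit 14) (.e (nat_lit 180251) (nat_lit 10) (.e (nat_lit 573485) (nat_lit 13) (.e (nat_lit 65570) (nat_lit 3) (.e (nat_lit 98326) (nat_lit 17) .nil)))))))) (.g (nat_lit 4) .nil .nil))))) (.nd (nat_lit 4) (.nd (nat_lit 5) 
(.lf (nat_lit 103054) (.g (nat_lit 2514) (.e (nat_lit 3455) (nat_lit 216) (.e (nat_lit 688185) (nat_lit 18) (.e (nat_lit 81965) (nat_lit 26) (.e (nat_lit 147492) (nat_lit 11) (.e (nat_lit 24665) (nat_lit 14) (.e (nat_lit 401408) (nat_lit 0) .nil)))))) (.g (nat_lit 6) .nil .nil))) 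
(.lf (nat_lit 103086) (.g (nat_lit 3125) (.e (nat_lit 3459) (nat_lit 216) (.e (nat_lit 688170) (nat_lit 15) (.e (nat_lit 57479) (nat_lit 28) (.e (nat_lit 557103) (nat_lit 14) (.e (nat_lit 180250) (nat_lit 10) (.e (nat_lit 573482) (nat_lit 13) (.e (nat_lit 65571) (nat_lit 3) (.e (nat_lit 98318) (nat_lit 17) .nil)))))))) (.g (nat_lit 5) .nil .nil)))) (.nd (nat_lit 5) 
(.lf (nat_lit 103070) (.g (nat_lit 2918) (.e (nat_lit 3459) (nat_lit 216) (.e (nat_lit 688157) (nat_lit 13) (.e (nat_lit 1524) (nat_lit 108) (.e (nat_lit 336012) (nat_lit 2) (.e (nat_lit 90176) (nat_lit 15) (.e (nat_lit 188450) (nat_lit 23) (.e (nat_lit 212736) (nat_lit 0) .nil))))))) (.g (nat_lit 6) .nil .nil))) 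
(.lf (nat_lit 103102) (.g (nat_lit 2305) (.e (nat_lit 3459) (nat_lit 216) (.e (nat_lit 688170) (nat_lit 15) (.e (nat_lit 57479) (nat_lit 28) (.e (nat_lit 557105) (nat_lit 14) (.e (nat_lit 180252) (nat_lit 10) (.e (nat_lit 573489) (nat_lit 14) (.e (nat_lit 73748) (nat_lit 3) (.e (nat_lit 516106) (nat_lit 0) .nil)))))))) (.g (nat_lit 4) .nil .nil)))))))) 
(.nd (nat_lit 1) (.nd (nat_lit 2) (.nd (nat_lit 3) (.nd (nat_lit 4) (.nd (nat_lit 5) 
(.lf (nat_lit 103041) (.g (nat_lit 3990) (.e (nat_lit 3454) (nat_lit 216) (.e (nat_lit 688180) (nat_lit 17) (.e (nat_lit 73729) (nat_lit 0) (.e (nat_lit 7454) (nat_lit 396) (.e (nat_lit 1189) (nat_lit 88) (.e (nat_lit 65619) (nat_lit 10) (.e (nat_lit 344117) (nat_lit 21) (.e (nat_lit 516097) (nat_lit 0) .nil)))))))) (.g (nat_lit 8) .nil .nil))) 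
(.lf (nat_lit 103073) (.g (nat_lit 3811) (.e (nat_lit 3459) (nat_lit 216) (.e (nat_lit 688169) (nat_lit 15) (.e (nat_lit 57479) (nat_lit 28) (.e (nat_lit 557105) (nat_lit 14) (.e (nat_lit 180252) (nat_lit 10) (.e (nat_lit 573481) (nat_lit 13) (.e (nat_lit 65571) (nat_lit 3) (.e (nat_lit 98325) (nat_lit 17) .nil)))))))) (.g (nat_lit 5) .nil .nil)))) (.nd (nat_lit 5) 
(.lf (nat_lit 103057) (.g (nat_lit 2564) (.e (nat_lit 3458) (nat_lit 216) (.e (nat_lit 688170) (nat_lit 15) (.e (nat_lit 57479) (nat_lit 28) (.e (nat_lit 557103) (nat_lit 14) (.e (nat_lit 180250) (nat_lit 10) (.e (nat_lit 573485) (nat_lit 13) (.e (nat_lit 65569) (nat_lit 3) (.e (nat_lit 98321) (nat_lit 17) .nil)))))))) (.g (nat_lit 4) .nil .nil))) 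
(.lf (nat_lit 103089) (.g (nat_lit 2407) (.e (nat_lit 3459) (nat_lit 216) (.e (nat_lit 688170) (nat_lit 15) (.e (nat_lit 57479) (nat_lit 28) (.e (nat_lit 557103) (nat_lit 14) (.e (nat_lit 180250) (nat_lit 10) (.e (nat_lit 573485) (nat_lit 13) (.e (nat_lit 65570) (nat_lit 3) (.e (nat_lit 98326) (nat_lit 17) .nil)))))))) (.g (nat_lit 4) .nil .nil))))) (.nd (nat_lit 4) (.nd (nat_lit 5) 
(.lf (nat_lit 103049) (.g (nat_lit 2226) (.e (nat_lit 3454) (nat_lit 216) (.e (nat_lit 688186) (nat_lit 18) (.e (nat_lit 81965) (nat_lit 26) (.e (nat_lit 147492) (nat_lit 11) (.e (nat_lit 24665) (nat_lit 14) (.e (nat_lit 401408) (nat_lit 0) .nil)))))) (.g (nat_lit 5) .nil .nil))) 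
(.lf (nat_lit 103081) (.g (nat_lit 2403) (.e (nat_lit 3459) (nat_lit 216) (.e (nat_lit 688170) (nat_lit 15) (.e (nat_lit 57479) (nat_lit 28) (.e (nat_lit 557103) (nat_lit 14) (.e (nat_lit 180250) (nat_lit 10) .nil))))) .nil))) (.nd (nat_lit 5) 
(.lf (nat_lit 103065) (.g (nat_lit 2309) (.e (nat_lit 3458) (nat_lit 216) (.e (nat_lit 688178) (nat_lit 16) (.e (nat_lit 65626) (nat_lit 13) (.e (nat_lit 393260) (nat_lit 21) (.e (nat_lit 409646) (nat_lit 18) (.e (nat_lit 303106) (nat_lit 0) .nil)))))) (.g (nat_lit 0) .nil .nil))) 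
(.lf (nat_lit 103097) (.g (nat_lit 4183) (.e (nat_lit 3459) (nat_lit 216) (.e (nat_lit 688170) (nat_lit 15) (.e (nat_lit 57479) (nat_lit 28) (.e (nat_lit 557105) (nat_lit 14) (.e (nat_lit 180252) (nat_lit 10) (.e (nat_lit 573481) (nat_lit 13) (.e (nat_lit 65571) (nat_lit 3) (.e (nat_lit 98318) (nat_lit 17) .nil)))))))) (.g (nat_lit 5) .nil .nil)))))) 
(.nd (nat_lit 3) (.nd (nat_lit 4) (.nd (nat_lit 5) 
(.lf (nat_lit 103045) (.g (nat_lit 1658) (.e (nat_lit 3454) (nat_lit 216) (.e (nat_lit 688182) (nat_lit 17) (.e (nat_lit 73755) (nat_lit 8) (.e (nat_lit 557089) (nat_lit 12) (.e (nat_lit 171776) (nat_lit 191) (.e (nat_lit 65653) (nat_lit 27) (.e (nat_lit 426009) (nat_lit 0) .nil))))))) (.g (nat_lit 4) .nil .nil))) 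
(.lf (nat_lit 103077) (.g (nat_lit 2838) (.e (nat_lit 3459) (nat_lit 216) (.e (nat_lit 688170) (nat_lit 15) (.e (nat_lit 57478) (nat_lit 28) (.e (nat_lit 557105) (nat_lit 14) (.e (nat_lit 180252) (nat_lit 10) (.e (nat_lit 573480) (nat_lit 13) (.e (nat_lit 65571) (nat_lit 3) (.e (nat_lit 98325) (nat_lit 17) .nil)))))))) (.g (nat_lit 5) .nil .nil)))) (.nd (nat_lit 5) 
(.lf (nat_lit 103061) (.g (nat_lit 517) (.e (nat_lit 3458) (nat_lit 216) (.e (nat_lit 688177) (nat_lit 16) (.e (nat_lit 65627) (nat_lit 13) .nil))) .nil)) 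
(.lf (nat_lit 103093) (.g (nat_lit 3410) (.e (nat_lit 3459) (nat_lit 216) (.e (nat_lit 688170) (nat_lit 15) (.e (nat_lit 57479) (nat_lit 28) (.e (nat_lit 557105) (nat_lit 14) (.e (nat_lit 180251) (nat_lit 10) (.e (nat_lit 573485) (nat_lit 13) (.e (nat_lit 65570) (nat_lit 3) (.e (nat_lit 98325) (nat_lit 17) .nil)))))))) (.g (nat_lit 5) .nil .nil))))) (.nd (nat_lit 4) (.nd (nat_lit 5) 
(.lf (nat_lit 103053) (.g (nat_lit 2238) (.e (nat_lit 3455) (nat_lit 216) (.e (nat_lit 688185) (nat_lit 18) (.e (nat_lit 81965) (nat_lit 26) (.e (nat_lit 147492) (nat_lit 11) (.e (nat_lit 24664) (nat_lit 14) (.e (nat_lit 401408) (nat_lit 0) .nil)))))) (.g (nat_lit 6) .nil .nil))) 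
(.lf (nat_lit 103085) (.g (nat_lit 2469) (.e (nat_lit 3459) (nat_lit 216) (.e (nat_lit 688170) (nat_lit 15) (.e (nat_lit 57479) (nat_lit 28) (.e (nat_lit 557103) (nat_lit 14) (.e (nat_lit 180250) (nat_lit 10) (.e (nat_lit 573482) (nat_lit 13) (.e (nat_lit 65570) (nat_lit 3) (.e (nat_lit 98326) (nat_lit 17) .nil)))))))) (.g (nat_lit 4) .nil .nil)))) (.nd (nat_lit 5) 
(.lf (nat_lit 103069) (.g (nat_lit 3057) (.e (nat_lit 3459) (nat_lit 216) (.e (nat_lit 688157) (nat_lit 13) (.e (nat_lit 1524) (nat_lit 108) (.e (nat_lit 336004) (nat_lit 2) (.e (nat_lit 90176) (nat_lit 15) (.e (nat_lit 188450) (nat_lit 23) (.e (nat_lit 212736) (nat_lit 0) .nil))))))) (.g (nat_lit 6) .nil .nil))) 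
(.lf (nat_lit 103101) (.g (nat_lit 2007) (.e (nat_lit 3459) (nat_lit 216) (.e (nat_lit 688170) (nat_lit 15) (.e (nat_lit 57479) (nat_lit 28) (.e (nat_lit 557105) (nat_lit 14) (.e (nat_lit 180252) (nat_lit 10) (.e (nat_lit 573489) (nat_lit 14) (.e (nat_lit 73748) (nat_lit 3) (.e (nat_lit 516096) (nat_lit 0) .nil)))))))) (.g (nat_lit 4) .nil .nil))))))) 
(.nd (nat_lit 2) (.nd (nat_lit 3) (.nd (nat_lit 4) (.nd (nat_lit 5) 
(.lf (nat_lit 103043) (.g (nat_lit 1627) (.e (nat_lit 3454) (nat_lit 216) (.e (nat_lit 688182) (nat_lit 17) (.e (nat_lit 73755) (nat_lit 8) (.e (nat_lit 557089) (nat_lit 12) (.e (nat_lit 171776) (nat_lit 187) .nil))))) .nil)) 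
(.lf (nat_lit 103075) (.g (nat_lit 2048) (.e (nat_lit 3459) (nat_lit 216) (.e (nat_lit 688170) (nat_lit 15) (.e (nat_lit 57478) (nat_lit 28) (.e (nat_lit 557105) (nat_lit 14) (.e (nat_lit 180251) (nat_lit 10) (.e (nat_lit 573485) (nat_lit 13) (.e (nat_lit 65569) (nat_lit 3) (.e (nat_lit 98325) (nat_lit 17) .nil)))))))) (.g (nat_lit 4) .nil .nil)))) (.nd (nat_lit 5) 
(.lf (nat_lit 103059) (.g (nat_lit 1195) (.e (nat_lit 3458) (nat_lit 216) (.e (nat_lit 688177) (nat_lit 16) (.e (nat_lit 65625) (nat_lit 13) (.e (nat_lit 393259) (nat_lit 21) .nil)))) .nil)) 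
(.lf (nat_lit 103091) (.g (nat_lit 3198) (.e (nat_lit 3459) (nat_lit 216) (.e (nat_lit 688170) (nat_lit 15) (.e (nat_lit 57479) (nat_lit 28) (.e (nat_lit 557105) (nat_lit 14) (.e (nat_lit 180251) (nat_lit 10) (.e (nat_lit 573485) (nat_lit 13) (.e (nat_lit 65569) (nat_lit 3) (.e (nat_lit 98325) (nat_lit 17) .nil)))))))) (.g (nat_lit 5) .nil .nil))))) (.nd (nat_lit 4) (.nd (nat_lit 5) 
(.lf (nat_lit 103051) (.g (nat_lit 3499) (.e (nat_lit 3455) (nat_lit 216) (.e (nat_lit 688181) (nat_lit 17) (.e (nat_lit 73731) (nat_lit 0) (.e (nat_lit 7454) (nat_lit 396) (.e (nat_lit 1189) (nat_lit 88) (.e (nat_lit 65619) (nat_lit 10) (.e (nat_lit 344117) (nat_lit 21) (.e (nat_lit 516097) (nat_lit 0) .nil)))))))) (.g (nat_lit 8) .nil .nil))) 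
(.lf (nat_lit 103083) (.g (nat_lit 3795) (.e (nat_lit 3459) (nat_lit 216) (.e (nat_lit 688170) (nat_lit 15) (.e (nat_lit 57479) (nat_lit 28) (.e (nat_lit 557103) (nat_lit 14) (.e (nat_lit 180250) (nat_lit 10) (.e (nat_lit 573482) (nat_lit 13) (.e (nat_lit 65569) (nat_lit 3) (.e (nat_lit 98325) (nat_lit 17) .nil)))))))) (.g (nat_lit 6) .nil .nil)))) (.nd (nat_lit 5) 
(.lf (nat_lit 103067) (.g (nat_lit 2651) (.e (nat_lit 3458) (nat_lit 216) (.e (nat_lit 688178) (nat_lit 16) (.e (nat_lit 65626) (nat_lit 13) (.e (nat_lit 393260) (nat_lit 21) (.e (nat_lit 409648) (nat_lit 18) (.e (nat_lit 303106) (nat_lit 0) .nil)))))) (.g (nat_lit 0) .nil .nil))) 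
(.lf (nat_lit 103099) (.g (nat_lit 4265) (.e (nat_lit 3459) (nat_lit 216) (.e (nat_lit 688170) (nat_lit 15) (.e (nat_lit 57479) (nat_lit 28) (.e (nat_lit 557105) (nat_lit 14) (.e (nat_lit 180252) (nat_lit 10) (.e (nat_lit 573482) (nat_lit 13) (.e (nat_lit 65570) (nat_lit 3) (.e (nat_lit 98325) (nat_lit 17) .nil)))))))) (.g (nat_lit 6) .nil .nil)))))) 
(.nd (nat_lit 3) (.nd (nat_lit 4) (.nd (nat_lit 5) 
(.lf (nat_lit 103047) (.g (nat_lit 1915) (.e (nat_lit 3454) (nat_lit 216) (.e (nat_lit 688182) (nat_lit 17) (.e (nat_lit 73755) (nat_lit 8) (.e (nat_lit 557097) (nat_lit 13) (.e (nat_lit 172133) (nat_lit 15) .nil))))) .nil)) 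
(.lf (nat_lit 103079) (.g (nat_lit 3482) (.e (nat_lit 3459) (nat_lit 216) (.e (nat_lit 688170) (nat_lit 15) (.e (nat_lit 57478) (nat_lit 28) (.e (nat_lit 557105) (nat_lit 14) (.e (nat_lit 180252) (nat_lit 10) (.e (nat_lit 573481) (nat_lit 13) (.e (nat_lit 65570) (nat_lit 3) (.e (nat_lit 98325) (nat_lit 17) .nil)))))))) (.g (nat_lit 6) .nil .nil)))) (.nd (nat_lit 5) 
(.lf (nat_lit 103063) (.g (nat_lit 346) (.e (nat_lit 3458) (nat_lit 216) (.e (nat_lit 688178) (nat_lit 16) (.e (nat_lit 65570) (nat_lit 3) .nil))) .nil)) 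
(.lf (nat_lit 103095) (.g (nat_lit 2976) (.e (nat_lit 3459) (nat_lit 216) (.e (nat_lit 688170) (nat_lit 15) (.e (nat_lit 57479) (nat_lit 28) (.e (nat_lit 557105) (nat_lit 14) (.e (nat_lit 180251) (nat_lit 10) (.e (nat_lit 573485) (nat_lit 13) (.e (nat_lit 65571) (nat_lit 3) (.e (nat_lit 98325) (nat_lit 17) .nil)))))))) (.g (nat_lit 5) .nil .nil))))) (.nd (nat_lit 4) (.nd (nat_lit 5) 
(.lf (nat_lit 103055) (.g (nat_lit 2999) (.e (nat_lit 3455) (nat_lit 216) (.e (nat_lit 688185) (nat_lit 18) (.e (nat_lit 81965) (nat_lit 26) (.e (nat_lit 147494) (nat_lit 11) (.e (nat_lit 24665) (nat_lit 14) (.e (nat_lit 401408) (nat_lit 0) .nil)))))) (.g (nat_lit 6) .nil .nil))) 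
(.lf (nat_lit 103087) (.g (nat_lit 3311) (.e (nat_lit 3459) (nat_lit 216) (.e (nat_lit 688170) (nat_lit 15) (.e (nat_lit 57479) (nat_lit 28) (.e (nat_lit 557103) (nat_lit 14) (.e (nat_lit 180250) (nat_lit 10) (.e (nat_lit 573485) (nat_lit 13) (.e (nat_lit 65569) (nat_lit 3) (.e (nat_lit 98325) (nat_lit 17) .nil)))))))) (.g (nat_lit 5) .nil .nil)))) (.nd (nat_lit 5) 
(.lf (nat_lit 103071) (.g (nat_lit 1015) (.e (nat_lit 3459) (nat_lit 216) (.e (nat_lit 688161) (nat_lit 13) (.e (nat_lit 1427) (nat_lit 108) (.e (nat_lit 336454) (nat_lit 34) .nil)))) .nil)) 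
(.lf (nat_lit 103103) (.g (nat_lit 3264) (.e (nat_lit 3459) (nat_lit 216) (.e (nat_lit 688170) (nat_lit 15) (.e (nat_lit 57480) (nat_lit 28) (.e (nat_lit 557103) (nat_lit 14) (.e (nat_lit 180250) (nat_lit 10) (.e (nat_lit 573482) (nat_lit 13) (.e (nat_lit 65569) (nat_lit 3) (.e (nat_lit 98325) (nat_lit 17) .nil)))))))) (.g (nat_lit 5) .nil .nil)))))))))

noncomputable def tv1407 : DT := (.nd (nat_lit 0) (.nd (nat_lit 1) (.nd (nat_lit 2) (.nd (nat_lit 3) (.nd (nat_lit 4) (.nd (nat_lit 5) 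
(.lf (nat_lit 103104) (.g (nat_lit 3470) (.e (nat_lit 3459) (nat_lit 216) (.e (nat_lit 688170) (nat_lit 15) (.e (nat_lit 57480) (nat_lit 28) (.e (nat_lit 557103) (nat_lit 14) (.e (nat_lit 180250) (nat_lit 10) (.e (nat_lit 573482) (nat_lit 13) (.e (nat_lit 65571) (nat_lit 3) (.e (nat_lit 98325) (nat_lit 17) .nil)))))))) (.g (nat_lit 5) .nil .nil))) 
(.lf (nat_lit 103136) (.g (nat_lit 2642) (.e (nat_lit 3459) (nat_lit 216) (.e (nat_lit 688176) (nat_lit 16) (.e (nat_lit 65626) (nat_lit 13) (.e (nat_lit 393260) (nat_lit 21) (.e (nat_lit 409649) (nat_lit 18) (.e (nat_lit 303107) (nat_lit 0) .nil)))))) (.g (nat_lit 5) .nil .nil)))) (.nd (nat_lit 5) 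
(.lf (nat_lit 103120) (.g (nat_lit 2944) (.e (nat_lit 3459) (nat_lit 216) (.e (nat_lit 688171) (nat_lit 15) (.e (nat_lit 57479) (nat_lit 28) (.e (nat_lit 557103) (nat_lit 14) (.e (nat_lit 180250) (nat_lit 10) (.e (nat_lit 573482) (nat_lit 13) (.e (nat_lit 65569) (nat_lit 3) (.e (nat_lit 98325) (nat_lit 17) .nil)))))))) (.g (nat_lit 5) .nil .nil))) 
(.lf (nat_lit 103152) (.g (nat_lit 2310) (.e (nat_lit 3459) (nat_lit 216) (.e (nat_lit 688178) (nat_lit 16) (.e (nat_lit 65625) (nat_lit 13) (.e (nat_lit 393260) (nat_lit 21) (.e (nat_lit 409646) (nat_lit 18) (.e (nat_lit 303111) (nat_lit 0) .nil)))))) (.g (nat_lit 5) .nil .nil))))) (.nd (nat_lit 4) (.nd (nat_lit 5) 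
(.lf (nat_lit 103112) (.g (nat_lit 4154) (.e (nat_lit 3459) (nat_lit 216) (.e (nat_lit 688170) (nat_lit 15) (.e (nat_lit 57480) (nat_lit 28) (.e (nat_lit 557105) (nat_lit 14) (.e (nat_lit 180252) (nat_lit 10) (.e (nat_lit 573481) (nat_lit 13) (.e (nat_lit 65571) (nat_lit 3) (.e (nat_lit 98325) (nat_lit 17) .nil)))))))) (.g (nat_lit 7) .nil .nil))) 
(.lf (nat_lit 103144) (.g (nat_lit 2126) (.e (nat_lit 3459) (nat_lit 216) (.e (nat_lit 688177) (nat_lit 16) (.e (nat_lit 65627) (nat_lit 13) (.e (nat_lit 393260) (nat_lit 21) (.e (nat_lit 409647) (nat_lit 18) (.e (nat_lit 303111) (nat_lit 0) .nil)))))) (.g (nat_lit 4) .nil .nil)))) (.nd (nat_lit 5) 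
(.lf (nat_lit 103128) (.g (nat_lit 4951) (.e (nat_lit 3459) (nat_lit 216) (.e (nat_lit 688171) (nat_lit 15) (.e (nat_lit 57479) (nat_lit 28) (.e (nat_lit 557105) (nat_lit 14) (.e (nat_lit 180252) (nat_lit 10) (.e (nat_lit 573482) (nat_lit 13) (.e (nat_lit 65571) (nat_lit 3) (.e (nat_lit 98325) (nat_lit 17) .nil)))))))) (.g (nat_lit 7) .nil .nil))) 
(.lf (nat_lit 103160) (.g (nat_lit 2503) (.e (nat_lit 3459) (nat_lit 216) (.e (nat_lit 688178) (nat_lit 16) (.e (nat_lit 65627) (nat_lit 13) (.e (nat_lit 393260) (nat_lit 21) (.e (nat_lit 409648) (nat_lit 18) (.e (nat_lit 303104) (nat_lit 0) .nil)))))) (.g (nat_lit 5) .nil .nil)))))) (.nd (nat_lit 3) (.nd (nat_lit 4) (.nd (nat_lit 5) 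
(.lf (nat_lit 103108) (.g (nat_lit 2591) (.e (nat_lit 3459) (nat_lit 216) (.e (nat_lit 688170) (nat_lit 15) (.e (nat_lit 57480) (nat_lit 28) (.e (nat_lit 557105) (nat_lit 14) (.e (nat_lit 180251) (nat_lit 10) (.e (nat_lit 573485) (nat_lit 13) (.e (nat_lit 65570) (nat_lit 3) (.e (nat_lit 98325) (nat_lit 17) .nil)))))))) (.g (nat_lit 4) .nil .nil))) 
(.lf (nat_lit 103140) (.g (nat_lit 3095) (.e (nat_lit 3459) (nat_lit 216) (.e (nat_lit 688177) (nat_lit 16) (.e (nat_lit 65625) (nat_lit 13) (.e (nat_lit 393260) (nat_lit 21) (.e (nat_lit 409648) (nat_lit 18) (.e (nat_lit 303104) (nat_lit 0) .nil)))))) (.g (nat_lit 6) .nil .nil)))) (.nd (nat_lit 5) 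
(.lf (nat_lit 103124) (.g (nat_lit 3157) (.e (nat_lit 3459) (nat_lit 216) (.e (nat_lit 688171) (nat_lit 15) (.e (nat_lit 57479) (nat_lit 28) (.e (nat_lit 557105) (nat_lit 14) (.e (nat_lit 180251) (nat_lit 10) (.e (nat_lit 573485) (nat_lit 13) (.e (nat_lit 65570) (nat_lit 3) (.e (nat_lit 98325) (nat_lit 17) .nil)))))))) (.g (nat_lit 6) .nil .nil))) 
(.lf (nat_lit 103156) (.g (nat_lit 2896) (.e (nat_lit 3459) (nat_lit 216) (.e (nat_lit 688178) (nat_lit 16) (.e (nat_lit 65626) (nat_lit 13) (.e (nat_lit 393260) (nat_lit 21) (.e (nat_lit 409648) (nat_lit 18) (.e (nat_lit 303104) (nat_lit 0) .nil)))))) (.g (nat_lit 0) .nil .nil))))) (.nd (nat_lit 4) (.nd (nat_lit 5) 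
(.lf (nat_lit 103116) (.g (nat_lit 3517) (.e (nat_lit 3459) (nat_lit 216) (.e (nat_lit 688171) (nat_lit 15) (.e (nat_lit 57478) (nat_lit 28) (.e (nat_lit 557105) (nat_lit 14) (.e (nat_lit 180252) (nat_lit 10) (.e (nat_lit 573481) (nat_lit 13) (.e (nat_lit 65569) (nat_lit 3) (.e (nat_lit 98325) (nat_lit 17) .nil)))))))) (.g (nat_lit 6) .nil .nil))) 
(.lf (nat_lit 103148) (.g (nat_lit 3530) (.e (nat_lit 3459) (nat_lit 216) (.e (nat_lit 688178) (nat_lit 16) (.e (nat_lit 65589) (nat_lit 9) (.e (nat_lit 336369) (nat_lit 27) (.e (nat_lit 426173) (nat_lit 7) (.e (nat_lit 409649) (nat_lit 18) (.e (nat_lit 303111) (nat_lit 0) .nil))))))) (.g (nat_lit 7) .nil .nil)))) (.nd (nat_lit 5) 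
(.lf (nat_lit 103132) (.g (nat_lit 4331) (.e (nat_lit 3459) (nat_lit 216) (.e (nat_lit 688171) (nat_lit 15) (.e (nat_lit 57480) (nat_lit 28) (.e (nat_lit 557105) (nat_lit 14) (.e (nat_lit 180252) (nat_lit 10) (.e (nat_lit 573481) (nat_lit 13) (.e (nat_lit 65571) (nat_lit 3) (.e (nat_lit 98325) (nat_lit 17) .nil)))))))) (.g (nat_lit 7) .nil .nil))) 
(.lf (nat_lit 103164) (.g (nat_lit 2263) (.e (nat_lit 3459) (nat_lit 216) (.e (nat_lit 688183) (nat_lit 18) (.e (nat_lit 81963) (nat_lit 26) (.e (nat_lit 147494) (nat_lit 11) (.e (nat_lit 24665) (nat_lit 14) (.e (nat_lit 401413) (nat_lit 0) .nil)))))) (.g (nat_lit 5) .nil .nil))))))) (.nd (nat_lit 2) (.nd (nat_lit 3) (.nd (nat_lit 4) (.nd (nat_lit 5) 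
(.lf (nat_lit 103106) (.g (nat_lit 2626) (.e (nat_lit 3459) (nat_lit 216) (.e (nat_lit 688170) (nat_lit 15) (.e (nat_lit 57480) (nat_lit 28) (.e (nat_lit 557105) (nat_lit 14) (.e (nat_lit 180251) (nat_lit 10) (.e (nat_lit 573484) (nat_lit 13) (.e (nat_lit 65571) (nat_lit 3) (.e (nat_lit 98325) (nat_lit 17) .nil)))))))) (.g (nat_lit 4) .nil .nil))) 
(.lf (nat_lit 103138) (.g (nat_lit 3816) (.e (nat_lit 3459) (nat_lit 216) (.e (nat_lit 688177) (nat_lit 16) (.e (nat_lit 65566) (nat_lit 2) (.e (nat_lit 90170) (nat_lit 13) (.e (nat_lit 172106) (nat_lit 10) (.e (nat_lit 434231) (nat_lit 23) (.e (nat_lit 540416) (nat_lit 17) .nil))))))) (.g (nat_lit 6) .nil .nil)))) (.nd (nat_lit 5) 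
(.lf (nat_lit 103122) (.g (nat_lit 2460) (.e (nat_lit 3459) (nat_lit 216) (.e (nat_lit 688171) (nat_lit 15) (.e (nat_lit 57479) (nat_lit 28) (.e (nat_lit 557103) (nat_lit 14) (.e (nat_lit 180250) (nat_lit 10) (.e (nat_lit 573485) (nat_lit 13) (.e (nat_lit 65569) (nat_lit 3) (.e (nat_lit 98325) (nat_lit 17) .nil)))))))) (.g (nat_lit 4) .nil .nil))) 
(.lf (nat_lit 103154) (.g (nat_lit 2532) (.e (nat_lit 3459) (nat_lit 216) (.e (nat_lit 688178) (nat_lit 16) (.e (nat_lit 65625) (nat_lit 13) (.e (nat_lit 393260) (nat_lit 21) (.e (nat_lit 409648) (nat_lit 18) (.e (nat_lit 303107) (nat_lit 0) .nil)))))) (.g (nat_lit 5) .nil .nil))))) (.nd (nat_lit 4) (.nd (nat_lit 5) 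
(.lf (nat_lit 103114) (.g (nat_lit 2890) (.e (nat_lit 3459) (nat_lit 216) (.e (nat_lit 688170) (nat_lit 15) (.e (nat_lit 57480) (nat_lit 28) (.e (nat_lit 557105) (nat_lit 14) (.e (nat_lit 180252) (nat_lit 10) (.e (nat_lit 573488) (nat_lit 14) (.e (nat_lit 73747) (nat_lit 3) (.e (nat_lit 516107) (nat_lit 0) .nil)))))))) (.g (nat_lit 5) .nil .nil))) 
(.lf (nat_lit 103146) (.g (nat_lit 3257) (.e (nat_lit 3459) (nat_lit 216) (.e (nat_lit 688177) (nat_lit 16) (.e (nat_lit 65627) (nat_lit 13) (.e (nat_lit 393260) (nat_lit 21) (.e (nat_lit 409649) (nat_lit 18) (.e (nat_lit 303107) (nat_lit 0) .nil)))))) (.g (nat_lit 5) .nil .nil)))) (.nd (nat_lit 5) 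
(.lf (nat_lit 103130) (.g (nat_lit 3073) (.e (nat_lit 3459) (nat_lit 216) (.e (nat_lit 688171) (nat_lit 15) (.e (nat_lit 57480) (nat_lit 28) (.e (nat_lit 557103) (nat_lit 14) (.e (nat_lit 180250) (nat_lit 10) (.e (nat_lit 573482) (nat_lit 13) (.e (nat_lit 65569) (nat_lit 3) (.e (nat_lit 98325) (nat_lit 17) .nil)))))))) (.g (nat_lit 5) .nil .nil))) 
(.lf (nat_lit 103162) (.g (nat_lit 3019) (.e (nat_lit 3459) (nat_lit 216) (.e (nat_lit 688178) (nat_lit 16) (.e (nat_lit 65627) (nat_lit 13) (.e (nat_lit 393260) (nat_lit 21) (.e (nat_lit 409649) (nat_lit 18) (.e (nat_lit 303111) (nat_lit 0) .nil)))))) (.g (nat_lit 5) .nil .nil)))))) (.nd (nat_lit 3) (.nd (nat_lit 4) (.nd (nat_lit 5) 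
(.lf (nat_lit 103110) (.g (nat_lit 2430) (.e (nat_lit 3459) (nat_lit 216) (.e (nat_lit 688170) (nat_lit 15) (.e (nat_lit 57480) (nat_lit 28) (.e (nat_lit 557105) (nat_lit 14) (.e (nat_lit 180252) (nat_lit 10) (.e (nat_lit 573481) (nat_lit 13) (.e (nat_lit 65570) (nat_lit 3) (.e (nat_lit 98318) (nat_lit 17) .nil)))))))) (.g (nat_lit 4) .nil .nil))) 
(.lf (nat_lit 103142) (.g (nat_lit 1805) (.e (nat_lit 3459) (nat_lit 216) (.e (nat_lit 688177) (nat_lit 16) (.e (nat_lit 65626) (nat_lit 13) (.e (nat_lit 393260) (nat_lit 21) (.e (nat_lit 409648) (nat_lit 18) .nil))))) .nil))) (.nd (nat_lit 5) 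
(.lf (nat_lit 103126) (.g (nat_lit 4605) (.e (nat_lit 3459) (nat_lit 216) (.e (nat_lit 688171) (nat_lit 15) (.e (nat_lit 57479) (nat_lit 28) (.e (nat_lit 557105) (nat_lit 14) (.e (nat_lit 180252) (nat_lit 10) (.e (nat_lit 573481) (nat_lit 13) (.e (nat_lit 65571) (nat_lit 3) (.e (nat_lit 98325) (nat_lit 17) .nil)))))))) (.g (nat_lit 7) .nil .nil))) 
(.lf (nat_lit 103158) (.g (nat_lit 3010) (.e (nat_lit 3459) (nat_lit 216) (.e (nat_lit 688178) (nat_lit 16) (.e (nat_lit 65626) (nat_lit 13) (.e (nat_lit 393260) (nat_lit 21) (.e (nat_lit 409649) (nat_lit 18) (.e (nat_lit 303107) (nat_lit 0) .nil)))))) (.g (nat_lit 5) .nil .nil))))) (.nd (nat_lit 4) (.nd (nat_lit 5) 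
(.lf (nat_lit 103118) (.g (nat_lit 3980) (.e (nat_lit 3459) (nat_lit 216) (.e (nat_lit 688171) (nat_lit 15) (.e (nat_lit 57478) (nat_lit 28) (.e (nat_lit 557105) (nat_lit 14) (.e (nat_lit 180252) (nat_lit 10) (.e (nat_lit 573481) (nat_lit 13) (.e (nat_lit 65571) (nat_lit 3) (.e (nat_lit 98318) (nat_lit 17) .nil)))))))) (.g (nat_lit 7) .nil .nil))) 
(.lf (nat_lit 103150) (.g (nat_lit 3440) (.e (nat_lit 3459) (nat_lit 216) (.e (nat_lit 688178) (nat_lit 16) (.e (nat_lit 65604) (nat_lit 9) (.e (nat_lit 336048) (nat_lit 6) (.e (nat_lit 147494) (nat_lit 11) (.e (nat_lit 24665) (nat_lit 14) (.e (nat_lit 401413) (nat_lit 0) .nil))))))) (.g (nat_lit 7) .nil .nil)))) (.nd (nat_lit 5) 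
(.lf (nat_lit 103134) (.g (nat_lit 2560) (.e (nat_lit 3459) (nat_lit 216) (.e (nat_lit 688176) (nat_lit 16) (.e (nat_lit 65626) (nat_lit 13) (.e (nat_lit 393260) (nat_lit 21) (.e (nat_lit 409648) (nat_lit 18) (.e (nat_lit 303104) (nat_lit 0) .nil)))))) (.g (nat_lit 6) .nil .nil))) 
(.lf (nat_lit 103166) (.g (nat_lit 722) (.e (nat_lit 3460) (nat_lit 216) (.e (nat_lit 688161) (nat_lit 13) (.e (nat_lit 1661) (nat_lit 115) (.e (nat_lit 401152) (nat_lit 11) .nil)))) .nil))))))) (.nd (nat_lit 1) (.nd (nat_lit 2) (.nd (nat_lit 3) (.nd (nat_lit 4) (.nd (nat_lit 5) 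
(.lf (nat_lit 103105) (.g (nat_lit 2510) (.e (nat_lit 3459) (nat_lit 216) (.e (nat_lit 688170) (nat_lit 15) (.e (nat_lit 57480) (nat_lit 28) (.e (nat_lit 557103) (nat_lit 14) (.e (nat_lit 180250) (nat_lit 10) (.e (nat_lit 573485) (nat_lit 13) (.e (nat_lit 65571) (nat_lit 3) (.e (nat_lit 98325) (nat_lit 17) .nil)))))))) (.g (nat_lit 4) .nil .nil))) 
(.lf (nat_lit 103137) (.g (nat_lit 2726) (.e (nat_lit 3459) (nat_lit 216) (.e (nat_lit 688176) (nat_lit 16) (.e (nat_lit 65627) (nat_lit 13) (.e (nat_lit 393260) (nat_lit 21) (.e (nat_lit 409649) (nat_lit 18) (.e (nat_lit 303107) (nat_lit 0) .nil)))))) (.g (nat_lit 5) .nil .nil)))) (.nd (nat_lit 5) 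
(.lf (nat_lit 103121) (.g (nat_lit 2484) (.e (nat_lit 3459) (nat_lit 216) (.e (nat_lit 688171) (nat_lit 15) (.e (nat_lit 57479) (nat_lit 28) (.e (nat_lit 557103) (nat_lit 14) (.e (nat_lit 180250) (nat_lit 10) (.e (nat_lit 573482) (nat_lit 13) (.e (nat_lit 65570) (nat_lit 3) (.e (nat_lit 98325) (nat_lit 17) .nil)))))))) (.g (nat_lit 4) .nil .nil))) 
(.lf (nat_lit 103153) (.g (nat_lit 2459) (.e (nat_lit 3459) (nat_lit 216) (.e (nat_lit 688178) (nat_lit 16) (.e (nat_lit 65625) (nat_lit 13) (.e (nat_lit 393260) (nat_lit 21) (.e (nat_lit 409648) (nat_lit 18) (.e (nat_lit 303104) (nat_lit 0) .nil)))))) (.g (nat_lit 5) .nil .nil))))) (.nd (nat_lit 4) (.nd (nat_lit 5) 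
(.lf (nat_lit 103113) (.g (nat_lit 2356) (.e (nat_lit 3459) (nat_lit 216) (.e (nat_lit 688170) (nat_lit 15) (.e (nat_lit 57480) (nat_lit 28) (.e (nat_lit 557105) (nat_lit 14) (.e (nat_lit 180252) (nat_lit 10) (.e (nat_lit 573488) (nat_lit 14) (.e (nat_lit 73747) (nat_lit 3) (.e (nat_lit 516096) (nat_lit 0) .nil)))))))) (.g (nat_lit 4) .nil .nil))) 
(.lf (nat_lit 103145) (.g (nat_lit 3073) (.e (nat_lit 3459) (nat_lit 216) (.e (nat_lit 688177) (nat_lit 16) (.e (nat_lit 65627) (nat_lit 13) (.e (nat_lit 393260) (nat_lit 21) (.e (nat_lit 409648) (nat_lit 18) (.e (nat_lit 303104) (nat_lit 0) .nil)))))) (.g (nat_lit 6) .nil .nil)))) (.nd (nat_lit 5) 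
(.lf (nat_lit 103129) (.g (nat_lit 3135) (.e (nat_lit 3459) (nat_lit 216) (.e (nat_lit 688171) (nat_lit 15) (.e (nat_lit 57479) (nat_lit 28) (.e (nat_lit 557105) (nat_lit 14) (.e (nat_lit 180252) (nat_lit 10) (.e (nat_lit 573489) (nat_lit 14) (.e (nat_lit 73748) (nat_lit 3) (.e (nat_lit 516107) (nat_lit 0) .nil)))))))) (.g (nat_lit 6) .nil .nil))) 
(.lf (nat_lit 103161) (.g (nat_lit 2590) (.e (nat_lit 3459) (nat_lit 216) (.e (nat_lit 688178) (nat_lit 16) (.e (nat_lit 65627) (nat_lit 13) (.e (nat_lit 393260) (nat_lit 21) (.e (nat_lit 409648) (nat_lit 18) (.e (nat_lit 303107) (nat_lit 0) .nil)))))) (.g (nat_lit 5) .nil .nil)))))) (.nd (nat_lit 3) (.nd (nat_lit 4) (.nd (nat_lit 5) 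
(.lf (nat_lit 103109) (.g (nat_lit 3028) (.e (nat_lit 3459) (nat_lit 216) (.e (nat_lit 688170) (nat_lit 15) (.e (nat_lit 57480) (nat_lit 28) (.e (nat_lit 557105) (nat_lit 14) (.e (nat_lit 180252) (nat_lit 10) (.e (nat_lit 573481) (nat_lit 13) (.e (nat_lit 65569) (nat_lit 3) (.e (nat_lit 98325) (nat_lit 17) .nil)))))))) (.g (nat_lit 5) .nil .nil))) 
(.lf (nat_lit 103141) (.g (nat_lit 3122) (.e (nat_lit 3459) (nat_lit 216) (.e (nat_lit 688177) (nat_lit 16) (.e (nat_lit 65625) (nat_lit 13) (.e (nat_lit 393260) (nat_lit 21) (.e (nat_lit 409649) (nat_lit 18) (.e (nat_lit 303107) (nat_lit 0) .nil)))))) (.g (nat_lit 5) .nil .nil)))) (.nd (nat_lit 5) 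
(.lf (nat_lit 103125) (.g (nat_lit 2722) (.e (nat_lit 3459) (nat_lit 216) (.e (nat_lit 688171) (nat_lit 15) (.e (nat_lit 57479) (nat_lit 28) (.e (nat_lit 557105) (nat_lit 14) (.e (nat_lit 180251) (nat_lit 10) (.e (nat_lit 573485) (nat_lit 13) (.e (nat_lit 65571) (nat_lit 3) (.e (nat_lit 98325) (nat_lit 17) .nil)))))))) (.g (nat_lit 5) .nil .nil))) 
(.lf (nat_lit 103157) (.g (nat_lit 2260) (.e (nat_lit 3459) (nat_lit 216) (.e (nat_lit 688178) (nat_lit 16) (.e (nat_lit 65626) (nat_lit 13) (.e (nat_lit 393260) (nat_lit 21) (.e (nat_lit 409648) (nat_lit 18) (.e (nat_lit 303108) (nat_lit 0) .nil)))))) (.g (nat_lit 5) .nil .nil))))) (.nd (nat_lit 4) (.nd (nat_lit 5) 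
(.lf (nat_lit 103117) (.g (nat_lit 3966) (.e (nat_lit 3459) (nat_lit 216) (.e (nat_lit 688171) (nat_lit 15) (.e (nat_lit 57478) (nat_lit 28) (.e (nat_lit 557105) (nat_lit 14) (.e (nat_lit 180252) (nat_lit 10) (.e (nat_lit 573481) (nat_lit 13) (.e (nat_lit 65570) (nat_lit 3) (.e (nat_lit 98325) (nat_lit 17) .nil)))))))) (.g (nat_lit 7) .nil .nil))) 
(.lf (nat_lit 103149) (.g (nat_lit 3449) (.e (nat_lit 3459) (nat_lit 216) (.e (nat_lit 688178) (nat_lit 16) (.e (nat_lit 65590) (nat_lit 9) (.e (nat_lit 336369) (nat_lit 27) (.e (nat_lit 426173) (nat_lit 7) (.e (nat_lit 409649) (nat_lit 18) (.e (nat_lit 303111) (nat_lit 0) .nil))))))) (.g (nat_lit 0) .nil .nil)))) (.nd (nat_lit 5) 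
(.lf (nat_lit 103133) (.g (nat_lit 2605) (.e (nat_lit 3459) (nat_lit 216) (.e (nat_lit 688176) (nat_lit 16) (.e (nat_lit 65595) (nat_lit 9) (.e (nat_lit 336048) (nat_lit 6) (.e (nat_lit 147494) (nat_lit 11) (.e (nat_lit 24665) (nat_lit 14) (.e (nat_lit 401413) (nat_lit 0) .nil))))))) (.g (nat_lit 7) .nil .nil))) 
(.lf (nat_lit 103165) (.g (nat_lit 1836) (.e (nat_lit 3460) (nat_lit 216) (.e (nat_lit 688161) (nat_lit 13) (.e (nat_lit 1661) (nat_lit 115) (.e (nat_lit 393229) (nat_lit 9) (.e (nat_lit 336184) (nat_lit 11) .nil))))) .nil)))))) (.nd (nat_lit 2) (.nd (nat_lit 3) (.nd (nat_lit 4) (.nd (nat_lit 5) 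
(.lf (nat_lit 103107) (.g (nat_lit 2379) (.e (nat_lit 3459) (nat_lit 216) (.e (nat_lit 688170) (nat_lit 15) (.e (nat_lit 57480) (nat_lit 28) (.e (nat_lit 557105) (nat_lit 14) (.e (nat_lit 180251) (nat_lit 10) (.e (nat_lit 573485) (nat_lit 13) (.e (nat_lit 65569) (nat_lit 3) (.e (nat_lit 98325) (nat_lit 17) .nil)))))))) (.g (nat_lit 4) .nil .nil))) 
(.lf (nat_lit 103139) (.g (nat_lit 2010) (.e (nat_lit 3459) (nat_lit 216) (.e (nat_lit 688177) (nat_lit 16) (.e (nat_lit 65625) (nat_lit 13) (.e (nat_lit 393259) (nat_lit 21) (.e (nat_lit 409646) (nat_lit 18) (.e (nat_lit 303111) (nat_lit 0) .nil)))))) (.g (nat_lit 4) .nil .nil)))) (.nd (nat_lit 5) 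
(.lf (nat_lit 103123) (.g (nat_lit 2422) (.e (nat_lit 3459) (nat_lit 216) (.e (nat_lit 688171) (nat_lit 15) (.e (nat_lit 57479) (nat_lit 28) (.e (nat_lit 557103) (nat_lit 14) (.e (nat_lit 180250) (nat_lit 10) (.e (nat_lit 573485) (nat_lit 13) (.e (nat_lit 65570) (nat_lit 3) (.e (nat_lit 98325) (nat_lit 17) .nil)))))))) (.g (nat_lit 4) .nil .nil))) 
(.lf (nat_lit 103155) (.g (nat_lit 2516) (.e (nat_lit 3459) (nat_lit 216) (.e (nat_lit 688178) (nat_lit 16) (.e (nat_lit 65626) (nat_lit 13) (.e (nat_lit 393260) (nat_lit 21) (.e (nat_lit 409647) (nat_lit 18) (.e (nat_lit 303111) (nat_lit 0) .nil)))))) (.g (nat_lit 6) .nil .nil))))) (.nd (nat_lit 4) (.nd (nat_lit 5) 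
(.lf (nat_lit 103115) (.g (nat_lit 2731) (.e (nat_lit 3459) (nat_lit 216) (.e (nat_lit 688171) (nat_lit 15) (.e (nat_lit 57478) (nat_lit 28) (.e (nat_lit 557105) (nat_lit 14) (.e (nat_lit 180251) (nat_lit 10) (.e (nat_lit 573485) (nat_lit 13) (.e (nat_lit 65570) (nat_lit 3) (.e (nat_lit 98325) (nat_lit 17) .nil)))))))) (.g (nat_lit 5) .nil .nil))) 
(.lf (nat_lit 103147) (.g (nat_lit 3662) (.e (nat_lit 3459) (nat_lit 216) (.e (nat_lit 688177) (nat_lit 16) (.e (nat_lit 65627) (nat_lit 13) (.e (nat_lit 393260) (nat_lit 21) (.e (nat_lit 409649) (nat_lit 18) (.e (nat_lit 303111) (nat_lit 0) .nil)))))) (.g (nat_lit 6) .nil .nil)))) (.nd (nat_lit 5) 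
(.lf (nat_lit 103131) (.g (nat_lit 3655) (.e (nat_lit 3459) (nat_lit 216) (.e (nat_lit 688171) (nat_lit 15) (.e (nat_lit 57480) (nat_lit 28) (.e (nat_lit 557105) (nat_lit 14) (.e (nat_lit 180252) (nat_lit 10) (.e (nat_lit 573481) (nat_lit 13) (.e (nat_lit 65570) (nat_lit 3) (.e (nat_lit 98325) (nat_lit 17) .nil)))))))) (.g (nat_lit 6) .nil .nil))) 
(.lf (nat_lit 103163) (.g (nat_lit 2001) (.e (nat_lit 3459) (nat_lit 216) (.e (nat_lit 688183) (nat_lit 18) (.e (nat_lit 81963) (nat_lit 26) (.e (nat_lit 147492) (nat_lit 11) (.e (nat_lit 24665) (nat_lit 14) (.e (nat_lit 401413) (nat_lit 0) .nil)))))) (.g (nat_lit 5) .nil .nil)))))) (.nd (nat_lit 3) (.nd (nat_lit 4) (.nd (nat_lit 5) 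
(.lf (nat_lit 103111) (.g (nat_lit 3477) (.e (nat_lit 3459) (nat_lit 216) (.e (nat_lit 688170) (nat_lit 15) (.e (nat_lit 57480) (nat_lit 28) (.e (nat_lit 557105) (nat_lit 14) (.e (nat_lit 180252) (nat_lit 10) (.e (nat_lit 573481) (nat_lit 13) (.e (nat_lit 65570) (nat_lit 3) (.e (nat_lit 98325) (nat_lit 17) .nil)))))))) (.g (nat_lit 6) .nil .nil))) 
(.lf (nat_lit 103143) (.g (nat_lit 438) (.e (nat_lit 3459) (nat_lit 216) (.e (nat_lit 688177) (nat_lit 16) (.e (nat_lit 65627) (nat_lit 13) .nil))) .nil))) (.nd (nat_lit 5) 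
(.lf (nat_lit 103127) (.g (nat_lit 4010) (.e (nat_lit 3459) (nat_lit 216) (.e (nat_lit 688171) (nat_lit 15) (.e (nat_lit 57479) (nat_lit 28) (.e (nat_lit 557105) (nat_lit 14) (.e (nat_lit 180252) (nat_lit 10) (.e (nat_lit 573482) (nat_lit 13) (.e (nat_lit 65570) (nat_lit 3) (.e (nat_lit 98325) (nat_lit 17) .nil)))))))) (.g (nat_lit 6) .nil .nil))) 
(.lf (nat_lit 103159) (.g (nat_lit 2408) (.e (nat_lit 3459) (nat_lit 216) (.e (nat_lit 688178) (nat_lit 16) (.e (nat_lit 65627) (nat_lit 13) (.e (nat_lit 393260) (nat_lit 21) (.e (nat_lit 409646) (nat_lit 18) (.e (nat_lit 303111) (nat_lit 0) .nil)))))) (.g (nat_lit 5) .nil .nil))))) (.nd (nat_lit 4) (.nd (nat_lit 5) 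
(.lf (nat_lit 103119) (.g (nat_lit 4642) (.e (nat_lit 3459) (nat_lit 216) (.e (nat_lit 688171) (nat_lit 15) (.e (nat_lit 57478) (nat_lit 28) (.e (nat_lit 557105) (nat_lit 14) (.e (nat_lit 180252) (nat_lit 10) (.e (nat_lit 573481) (nat_lit 13) (.e (nat_lit 65571) (nat_lit 3) (.e (nat_lit 98325) (nat_lit 17) .nil)))))))) (.g (nat_lit 0) .nil .nil))) 
(.lf (nat_lit 103151) (.g (nat_lit 4245) (.e (nat_lit 3459) (nat_lit 216) (.e (nat_lit 688178) (nat_lit 16) (.e (nat_lit 65604) (nat_lit 9) (.e (nat_lit 336048) (nat_lit 6) (.e (nat_lit 147494) (nat_lit 11) (.e (nat_lit 24665) (nat_lit 14) (.e (nat_lit 401414) (nat_lit 0) .nil))))))) (.g (nat_lit 0) .nil .nil)))) (.nd (nat_lit 5) 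
(.lf (nat_lit 103135) (.g (nat_lit 2602) (.e (nat_lit 3459) (nat_lit 216) (.e (nat_lit 688176) (nat_lit 16) (.e (nat_lit 65626) (nat_lit 13) (.e (nat_lit 393260) (nat_lit 21) (.e (nat_lit 409648) (nat_lit 18) (.e (nat_lit 303107) (nat_lit 0) .nil)))))) (.g (nat_lit 0) .nil .nil))) 
(.lf (nat_lit 103167) (.g (nat_lit 4677) (.e (nat_lit 3460) (nat_lit 216) (.e (nat_lit 688170) (nat_lit 15) (.e (nat_lit 57478) (nat_lit 28) (.e (nat_lit 557105) (nat_lit 14) (.e (nat_lit 180252) (nat_lit 10) (.e (nat_lit 573481) (nat_lit 13) (.e (nat_lit 65571) (nat_lit 3) (.e (nat_lit 98319) (nat_lit 17) .nil)))))))) (.g (nat_lit 8) .nil .nil)))))))))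

noncomputable def tv1408 : DT := (.nd (nat_lit 0) (.nd (nat_lit 1) (.nd (nat_lit 2) (.nd (nat_lit 3) (.nd (nat_lit 4) (.nd (nat_lit 5) (.nd (nat_lit 6) 
(.lf (nat_lit 103168) (.g (nat_lit 5460) (.e (nat_lit 3460) (nat_lit 216) (.e (nat_lit 688170) (nat_lit 15) (.e (nat_lit 57478) (nat_lit 28) (.e (nat_lit 557105) (nat_lit 14) (.e (nat_lit 180252) (nat_lit 10) (.e (nat_lit 573488) (nat_lit 14) (.e (nat_lit 73747) (nat_lit 3) (.e (nat_lit 516097) (nat_lit 0) .nil)))))))) (.g (nat_lit 8) .nil .nil))) 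
(.lf (nat_lit 103232) (.g (nat_lit 371) (.e (nat_lit 3469) (nat_lit 217) (.e (nat_lit 696344) (nat_lit 8) (.e (nat_lit 172123) (nat_lit 13) .nil))) .nil))) (.nd (nat_lit 6) 
(.lf (nat_lit 103200) (.g (nat_lit 610) (.e (nat_lit 7936) (nat_lit 216) (.e (nat_lit 688177) (nat_lit 16) (.e (nat_lit 65578) (nat_lit 6) .nil))) .nil)) 
(.lf (nat_lit 103264) (.g (nat_lit 2358) (.e (nat_lit 3471) (nat_lit 217) (.e (nat_lit 696344) (nat_lit 8) (.e (nat_lit 172067) (nat_lit 3) (.e (nat_lit 204880) (nat_lit 32) .nil)))) .nil)))) (.nd (nat_lit 5) (.nd (nat_lit 6) 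
(.lf (nat_lit 103184) (.g (nat_lit 1627) (.e (nat_lit 3461) (nat_lit 216) (.e (nat_lit 688182) (nat_lit 17) (.e (nat_lit 73755) (nat_lit 8) (.e (nat_lit 557089) (nat_lit 12) (.e (nat_lit 171776) (nat_lit 191) .nil))))) .nil)) 
(.lf (nat_lit 103248) (.g (nat_lit 1141) (.e (nat_lit 3471) (nat_lit 217) (.e (nat_lit 696343) (nat_lit 8) (.e (nat_lit 172091) (nat_lit 9) (.e (nat_lit 426160) (nat_lit 6) (.e (nat_lit 253990) (nat_lit 11) (.e (nat_lit 16446) (nat_lit 9) (.e (nat_lit 426014) (nat_lit 0) .nil))))))) (.g (nat_lit 4) .nil .nil)))) (.nd (nat_lit 6) 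
(.lf (nat_lit 103216) (.g (nat_lit 3684) (.e (nat_lit 3468) (nat_lit 217) (.e (nat_lit 696363) (nat_lit 18) (.e (nat_lit 81965) (nat_lit 26) (.e (nat_lit 147494) (nat_lit 11) (.e (nat_lit 24665) (nat_lit 14) (.e (nat_lit 401414) (nat_lit 0) .nil)))))) (.g (nat_lit 0) .nil .nil))) 
(.lf (nat_lit 103280) (.g (nat_lit 496) (.e (nat_lit 3471) (nat_lit 217) (.e (nat_lit 696344) (nat_lit 8) (.e (nat_lit 172113) (nat_lit 10) .nil))) .nil))))) (.nd (nat_lit 4) (.nd (nat_lit 5) (.nd (nat_lit 6) 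
(.lf (nat_lit 103176) (.g (nat_lit 5459) (.e (nat_lit 3460) (nat_lit 216) (.e (nat_lit 688170) (nat_lit 15) (.e (nat_lit 57480) (nat_lit 28) (.e (nat_lit 557105) (nat_lit 14) (.e (nat_lit 180252) (nat_lit 10) (.e (nat_lit 573488) (nat_lit 14) (.e (nat_lit 73747) (nat_lit 3) (.e (nat_lit 516097) (nat_lit 0) .nil)))))))) (.g (nat_lit 0) .nil .nil))) 
(.lf (nat_lit 103240) (.g (nat_lit 2174) (.e (nat_lit 3471) (nat_lit 217) (.e (nat_lit 696343) (nat_lit 8) (.e (nat_lit 172079) (nat_lit 7) (.e (nat_lit 409648) (nat_lit 18) (.e (nat_lit 303137) (nat_lit 10) .nil))))) .nil))) (.nd (nat_lit 6) 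
(.lf (nat_lit 103208) (.g (nat_lit 915) (.e (nat_lit 3467) (nat_lit 217) (.e (nat_lit 696344) (nat_lit 8) (.e (nat_lit 172076) (nat_lit 6) (.e (nat_lit 261888) (nat_lit 6) .nil)))) .nil)) 
(.lf (nat_lit 103272) (.g (nat_lit 1767) (.e (nat_lit 3471) (nat_lit 217) (.e (nat_lit 696344) (nat_lit 8) (.e (nat_lit 172094) (nat_lit 9) (.e (nat_lit 426007) (nat_lit 0) (.e (nat_lit 3512) (nat_lit 218) (.e (nat_lit 704734) (nat_lit 11) (.e (nat_lit 16436) (nat_lit 9) (.e (nat_lit 425986) (nat_lit 0) .nil)))))))) (.g (nat_lit 4) .nil .nil))))) (.nd (nat_lit 5) (.nd (nat_lit 6) 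
(.lf (nat_lit 103192) (.g (nat_lit 2118) (.e (nat_lit 3461) (nat_lit 216) (.e (nat_lit 688182) (nat_lit 17) (.e (nat_lit 73755) (nat_lit 8) (.e (nat_lit 557104) (nat_lit 14) (.e (nat_lit 180261) (nat_lit 20) .nil))))) .nil)) 
(.lf (nat_lit 103256) (.g (nat_lit 2220) (.e (nat_lit 3471) (nat_lit 217) (.e (nat_lit 696343) (nat_lit 8) (.e (nat_lit 172113) (nat_lit 10) (.e (nat_lit 434208) (nat_lit 18) (.e (nat_lit 6420) (nat_lit 341) (.e (nat_lit 163920) (nat_lit 14) (.e (nat_lit 442392) (nat_lit 20) .nil))))))) (.g (nat_lit 4) .nil .nil)))) (.nd (nat_lit 6) 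
(.lf (nat_lit 103224) (.g (nat_lit 1670) (.e (nat_lit 3469) (nat_lit 217) (.e (nat_lit 696344) (nat_lit 8) (.e (nat_lit 172113) (nat_lit 10) (.e (nat_lit 434203) (nat_lit 18) (.e (nat_lit 6262) (nat_lit 337) .nil))))) .nil)) 
(.lf (nat_lit 103288) (.g (nat_lit 1758) (.e (nat_lit 3491) (nat_lit 218) (.e (nat_lit 704738) (nat_lit 11) (.e (nat_lit 16425) (nat_lit 7) (.e (nat_lit 409649) (nat_lit 18) .nil)))) .nil)))))) (.nd (nat_lit 3) (.nd (nat_lit 4) (.nd (nat_lit 5) (.nd (nat_lit 6) 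
(.lf (nat_lit 103172) (.g (nat_lit 4133) (.e (nat_lit 3460) (nat_lit 216) (.e (nat_lit 688170) (nat_lit 15) (.e (nat_lit 57479) (nat_lit 28) (.e (nat_lit 557103) (nat_lit 14) (.e (nat_lit 180250) (nat_lit 10) (.e (nat_lit 573487) (nat_lit 14) (.e (nat_lit 73746) (nat_lit 3) (.e (nat_lit 516100) (nat_lit 0) .nil)))))))) (.g (nat_lit 6) .nil .nil))) 
(.lf (nat_lit 103236) (.g (nat_lit 926) (.e (nat_lit 3471) (nat_lit 217) (.e (nat_lit 696343) (nat_lit 8) (.e (nat_lit 172076) (nat_lit 6) (.e (nat_lit 261888) (nat_lit 6) .nil)))) .nil))) (.nd (nat_lit 6) 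
(.lf (nat_lit 103204) (.g (nat_lit 1785) (.e (nat_lit 3464) (nat_lit 217) (.e (nat_lit 696343) (nat_lit 8) (.e (nat_lit 172079) (nat_lit 7) (.e (nat_lit 409645) (nat_lit 18) (.e (nat_lit 303139) (nat_lit 10) .nil))))) .nil)) 
(.lf (nat_lit 103268) (.g (nat_lit 1783) (.e (nat_lit 3471) (nat_lit 217) (.e (nat_lit 696344) (nat_lit 8) (.e (nat_lit 172082) (nat_lit 7) (.e (nat_lit 409646) (nat_lit 18) (.e (nat_lit 303133) (nat_lit 9) .nil))))) .nil)))) (.nd (nat_lit 5) (.nd (nat_lit 6) 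
(.lf (nat_lit 103188) (.g (nat_lit 2410) (.e (nat_lit 3461) (nat_lit 216) (.e (nat_lit 688182) (nat_lit 17) (.e (nat_lit 73755) (nat_lit 8) (.e (nat_lit 557090) (nat_lit 12) (.e (nat_lit 171776) (nat_lit 187) .nil))))) .nil)) 
(.lf (nat_lit 103252) (.g (nat_lit 1883) (.e (nat_lit 3471) (nat_lit 217) (.e (nat_lit 696343) (nat_lit 8) (.e (nat_lit 172106) (nat_lit 10) (.e (nat_lit 434202) (nat_lit 18) (.e (nat_lit 6420) (nat_lit 341) (.e (nat_lit 163920) (nat_lit 14) (.e (nat_lit 442392) (nat_lit 20) .nil))))))) (.g (nat_lit 4) .nil .nil)))) (.nd (nat_lit 6) 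
(.lf (nat_lit 103220) (.g (nat_lit 547) (.e (nat_lit 3469) (nat_lit 217) (.e (nat_lit 696344) (nat_lit 8) (.e (nat_lit 172067) (nat_lit 3) .nil))) .nil)) 
(.lf (nat_lit 103284) (.g (nat_lit 640) (.e (nat_lit 3474) (nat_lit 218) (.e (nat_lit 704595) (nat_lit 5) (.e (nat_lit 180259) (nat_lit 17) .nil))) .nil))))) (.nd (nat_lit 4) (.nd (nat_lit 5) (.nd (nat_lit 6) 
(.lf (nat_lit 103180) (.g (nat_lit 3341) (.e (nat_lit 3460) (nat_lit 216) (.e (nat_lit 688177) (nat_lit 16) (.e (nat_lit 65566) (nat_lit 2) (.e (nat_lit 90170) (nat_lit 13) (.e (nat_lit 172106) (nat_lit 10) (.e (nat_lit 434231) (nat_lit 23) (.e (nat_lit 540416) (nat_lit 17) .nil))))))) (.g (nat_lit 6) .nil .nil))) 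
(.lf (nat_lit 103244) (.g (nat_lit 2645) (.e (nat_lit 3471) (nat_lit 217) (.e (nat_lit 696343) (nat_lit 8) (.e (nat_lit 172082) (nat_lit 7) (.e (nat_lit 409646) (nat_lit 18) (.e (nat_lit 303141) (nat_lit 11) (.e (nat_lit 458774) (nat_lit 18) (.e (nat_lit 5964) (nat_lit 324) (.e (nat_lit 163844) (nat_lit 0) .nil)))))))) (.g (nat_lit 4) .nil .nil)))) (.nd (nat_lit 6) 
(.lf (nat_lit 103212) (.g (nat_lit 1682) (.e (nat_lit 3468) (nat_lit 217) (.e (nat_lit 696361) (nat_lit 16) (.e (nat_lit 65589) (nat_lit 9) (.e (nat_lit 336369) (nat_lit 27) (.e (nat_lit 426173) (nat_lit 7) (.e (nat_lit 409649) (nat_lit 18) (.e (nat_lit 303111) (nat_lit 0) .nil))))))) (.g (nat_lit 4) .nil .nil))) 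
(.lf (nat_lit 103276) (.g (nat_lit 2127) (.e (nat_lit 3471) (nat_lit 217) (.e (nat_lit 696344) (nat_lit 8) (.e (nat_lit 172106) (nat_lit 10) (.e (nat_lit 434209) (nat_lit 18) (.e (nat_lit 6272) (nat_lit 337) .nil))))) .nil)))) (.nd (nat_lit 5) (.nd (nat_lit 6) 
(.lf (nat_lit 103196) (.g (nat_lit 1807) (.e (nat_lit 7936) (nat_lit 216) (.e (nat_lit 688169) (nat_lit 15) (.e (nat_lit 57480) (nat_lit 28) (.e (nat_lit 557105) (nat_lit 14) (.e (nat_lit 180251) (nat_lit 10) .nil))))) .nil)) 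
(.lf (nat_lit 103260) (.g (nat_lit 418) (.e (nat_lit 3471) (nat_lit 217) (.e (nat_lit 696343) (nat_lit 8) (.e (nat_lit 172122) (nat_lit 13) .nil))) .nil))) (.nd (nat_lit 6) 
(.lf (nat_lit 103228) (.g (nat_lit 1366) (.e (nat_lit 3469) (nat_lit 217) (.e (nat_lit 696344) (nat_lit 8) (.e (nat_lit 172115) (nat_lit 10) (.e (nat_lit 434202) (nat_lit 18) (.e (nat_lit 6255) (nat_lit 337) .nil))))) .nil)) 
(.lf (nat_lit 103292) (.g (nat_lit 3559) (.e (nat_lit 3492) (nat_lit 218) (.e (nat_lit 704738) (nat_lit 11) (.e (nat_lit 16425) (nat_lit 7) (.e (nat_lit 409648) (nat_lit 18) (.e (nat_lit 303137) (nat_lit 10) .nil))))) .nil))))))) (.nd (nat_lit 2) (.nd (nat_lit 3) (.nd (nat_lit 4) (.nd (nat_lit 5) (.nd (nat_lit 6) 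
(.lf (nat_lit 103170) (.g (nat_lit 3171) (.e (nat_lit 3460) (nat_lit 216) (.e (nat_lit 688170) (nat_lit 15) (.e (nat_lit 57479) (nat_lit 28) (.e (nat_lit 557103) (nat_lit 14) (.e (nat_lit 180250) (nat_lit 10) (.e (nat_lit 573480) (nat_lit 13) (.e (nat_lit 65571) (nat_lit 3) (.e (nat_lit 98319) (nat_lit 17) .nil)))))))) (.g (nat_lit 5) .nil .nil))) 
(.lf (nat_lit 103234) (.g (nat_lit 4107) (.e (nat_lit 3469) (nat_lit 217) (.e (nat_lit 696363) (nat_lit 18) (.e (nat_lit 81965) (nat_lit 26) (.e (nat_lit 147493) (nat_lit 11) (.e (nat_lit 24665) (nat_lit 14) (.e (nat_lit 401414) (nat_lit 0) .nil)))))) (.g (nat_lit 6) .nil .nil)))) (.nd (nat_lit 6) 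
(.lf (nat_lit 103202) (.g (nat_lit 1768) (.e (nat_lit 7936) (nat_lit 216) (.e (nat_lit 688182) (nat_lit 17) (.e (nat_lit 73755) (nat_lit 8) (.e (nat_lit 557097) (nat_lit 13) (.e (nat_lit 172136) (nat_lit 15) .nil))))) .nil)) 
(.lf (nat_lit 103266) (.g (nat_lit 2237) (.e (nat_lit 3471) (nat_lit 217) (.e (nat_lit 696344) (nat_lit 8) (.e (nat_lit 172079) (nat_lit 7) (.e (nat_lit 409645) (nat_lit 18) (.e (nat_lit 303141) (nat_lit 11) .nil))))) .nil)))) (.nd (nat_lit 5) (.nd (nat_lit 6) 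
(.lf (nat_lit 103186) (.g (nat_lit 2552) (.e (nat_lit 3461) (nat_lit 216) (.e (nat_lit 688182) (nat_lit 17) (.e (nat_lit 73755) (nat_lit 8) (.e (nat_lit 557090) (nat_lit 12) (.e (nat_lit 164238) (nat_lit 187) (.e (nat_lit 1661) (nat_lit 115) (.e (nat_lit 393231) (nat_lit 17) .nil))))))) (.g (nat_lit 4) .nil .nil))) 
(.lf (nat_lit 103250) (.g (nat_lit 1347) (.e (nat_lit 3471) (nat_lit 217) (.e (nat_lit 696343) (nat_lit 8) (.e (nat_lit 172094) (nat_lit 9) (.e (nat_lit 426160) (nat_lit 6) (.e (nat_lit 253990) (nat_lit 11) .nil))))) .nil))) (.nd (nat_lit 6) 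
(.lf (nat_lit 103218) (.g (nat_lit 1431) (.e (nat_lit 3468) (nat_lit 217) (.e (nat_lit 696365) (nat_lit 20) (.e (nat_lit 131127) (nat_lit 13) (.e (nat_lit 393260) (nat_lit 21) (.e (nat_lit 409646) (nat_lit 18) (.e (nat_lit 303111) (nat_lit 0) .nil)))))) (.g (nat_lit 4) .nil .nil))) 
(.lf (nat_lit 103282) (.g (nat_lit 2623) (.e (nat_lit 3473) (nat_lit 218) (.e (nat_lit 704734) (nat_lit 11) (.e (nat_lit 16416) (nat_lit 3) (.e (nat_lit 204829) (nat_lit 18) (.e (nat_lit 57735) (nat_lit 183) .nil))))) .nil))))) (.nd (nat_lit 4) (.nd (nat_lit 5) (.nd (nat_lit 6) 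
(.lf (nat_lit 103178) (.g (nat_lit 3649) (.e (nat_lit 3460) (nat_lit 216) (.e (nat_lit 688171) (nat_lit 15) (.e (nat_lit 57479) (nat_lit 28) (.e (nat_lit 557105) (nat_lit 14) (.e (nat_lit 180252) (nat_lit 10) (.e (nat_lit 573482) (nat_lit 13) (.e (nat_lit 65536) (nat_lit 0) (.e (nat_lit 1788) (nat_lit 119) (.e (nat_lit 516097) (nat_lit 0) .nil))))))))) (.g (nat_lit 6) .nil .nil))) 
(.lf (nat_lit 103242) (.g (nat_lit 2305) (.e (nat_lit 3471) (nat_lit 217) (.e (nat_lit 696343) (nat_lit 8) (.e (nat_lit 172082) (nat_lit 7) (.e (nat_lit 409646) (nat_lit 18) (.e (nat_lit 303135) (nat_lit 10) .nil))))) .nil))) (.nd (nat_lit 6) 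
(.lf (nat_lit 103210) (.g (nat_lit 512) (.e (nat_lit 3468) (nat_lit 217) (.e (nat_lit 696344) (nat_lit 8) (.e (nat_lit 172076) (nat_lit 6) .nil))) .nil)) 
(.lf (nat_lit 103274) (.g (nat_lit 1766) (.e (nat_lit 3471) (nat_lit 217) (.e (nat_lit 696344) (nat_lit 8) (.e (nat_lit 172094) (nat_lit 9) (.e (nat_lit 426160) (nat_lit 6) (.e (nat_lit 253992) (nat_lit 11) (.e (nat_lit 16436) (nat_lit 9) (.e (nat_lit 425986) (nat_lit 0) .nil))))))) (.g (nat_lit 4) .nil .nil))))) (.nd (nat_lit 5) (.nd (nat_lit 6) 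
(.lf (nat_lit 103194) (.g (nat_lit 1336) (.e (nat_lit 3461) (nat_lit 216) (.e (nat_lit 688186) (nat_lit 18) (.e (nat_lit 81965) (nat_lit 26) (.e (nat_lit 147492) (nat_lit 11) (.e (nat_lit 24664) (nat_lit 14) (.e (nat_lit 401408) (nat_lit 0) .nil)))))) (.g (nat_lit 4) .nil .nil))) 
(.lf (nat_lit 103258) (.g (nat_lit 420) (.e (nat_lit 3471) (nat_lit 217) (.e (nat_lit 696343) (nat_lit 8) (.e (nat_lit 172121) (nat_lit 13) .nil))) .nil))) (.nd (nat_lit 6) 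
(.lf (nat_lit 103226) (.g (nat_lit 1650) (.e (nat_lit 3469) (nat_lit 217) (.e (nat_lit 696344) (nat_lit 8) (.e (nat_lit 172113) (nat_lit 10) (.e (nat_lit 434208) (nat_lit 18) (.e (nat_lit 6262) (nat_lit 337) .nil))))) .nil)) 
(.lf (nat_lit 103290) (.g (nat_lit 4353) (.e (nat_lit 3491) (nat_lit 218) (.e (nat_lit 704738) (nat_lit 11) (.e (nat_lit 16425) (nat_lit 7) (.e (nat_lit 409649) (nat_lit 18) (.e (nat_lit 303140) (nat_lit 10) (.e (nat_lit 434275) (nat_lit 39) (.e (nat_lit 663580) (nat_lit 9) (.e (nat_lit 2515) (nat_lit 157) .nil)))))))) (.g (nat_lit 7) .nil .nil))))))) 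
(.nd (nat_lit 3) (.nd (nat_lit 4) (.nd (nat_lit 5) (.nd (nat_lit 6) 
(.lf (nat_lit 103174) (.g (nat_lit 4426) (.e (nat_lit 3460) (nat_lit 216) (.e (nat_lit 688170) (nat_lit 15) (.e (nat_lit 57479) (nat_lit 28) (.e (nat_lit 557105) (nat_lit 14) (.e (nat_lit 180252) (nat_lit 10) (.e (nat_lit 573489) (nat_lit 14) (.e (nat_lit 73748) (nat_lit 3) (.e (nat_lit 516097) (nat_lit 0) .nil)))))))) (.g (nat_lit 8) .nil .nil))) 
(.lf (nat_lit 103238) (.g (nat_lit 1513) (.e (nat_lit 3471) (nat_lit 217) (.e (nat_lit 696343) (nat_lit 8) (.e (nat_lit 172079) (nat_lit 7) (.e (nat_lit 409645) (nat_lit 18) (.e (nat_lit 303135) (nat_lit 10) .nil))))) .nil))) (.nd (nat_lit 6) 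
(.lf (nat_lit 103206) (.g (nat_lit 2776) (.e (nat_lit 3464) (nat_lit 217) (.e (nat_lit 696343) (nat_lit 8) (.e (nat_lit 172124) (nat_lit 14) (.e (nat_lit 491566) (nat_lit 12) (.e (nat_lit 385107) (nat_lit 51) .nil))))) .nil)) 
(.lf (nat_lit 103270) (.g (nat_lit 1805) (.e (nat_lit 3471) (nat_lit 217) (.e (nat_lit 696344) (nat_lit 8) (.e (nat_lit 172082) (nat_lit 7) (.e (nat_lit 409648) (nat_lit 18) (.e (nat_lit 303137) (nat_lit 10) .nil))))) .nil)))) (.nd (nat_lit 5) (.nd (nat_lit 6) 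
(.lf (nat_lit 103190) (.g (nat_lit 2400) (.e (nat_lit 3461) (nat_lit 216) (.e (nat_lit 688182) (nat_lit 17) (.e (nat_lit 73755) (nat_lit 8) (.e (nat_lit 557098) (nat_lit 13) (.e (nat_lit 172133) (nat_lit 15) .nil))))) .nil)) 
(.lf (nat_lit 103254) (.g (nat_lit 1110) (.e (nat_lit 3471) (nat_lit 217) (.e (nat_lit 696343) (nat_lit 8) (.e (nat_lit 172113) (nat_lit 10) (.e (nat_lit 434203) (nat_lit 18) .nil)))) .nil))) (.nd (nat_lit 6) 
(.lf (nat_lit 103222) (.g (nat_lit 391) (.e (nat_lit 3469) (nat_lit 217) (.e (nat_lit 696344) (nat_lit 8) (.e (nat_lit 172113) (nat_lit 10) .nil))) .nil)) 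
(.lf (nat_lit 103286) (.g (nat_lit 3076) (.e (nat_lit 3491) (nat_lit 218) (.e (nat_lit 704738) (nat_lit 11) (.e (nat_lit 16425) (nat_lit 7) (.e (nat_lit 409648) (nat_lit 18) (.e (nat_lit 303137) (nat_lit 10) .nil))))) .nil))))) (.nd (nat_lit 4) (.nd (nat_lit 5) (.nd (nat_lit 6) 
(.lf (nat_lit 103182) (.g (nat_lit 2172) (.e (nat_lit 3461) (nat_lit 216) (.e (nat_lit 688171) (nat_lit 15) (.e (nat_lit 57479) (nat_lit 28) (.e (nat_lit 557103) (nat_lit 14) (.e (nat_lit 180250) (nat_lit 10) .nil))))) .nil)) 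
(.lf (nat_lit 103246) (.g (nat_lit 2805) (.e (nat_lit 3471) (nat_lit 217) (.e (nat_lit 696343) (nat_lit 8) (.e (nat_lit 172082) (nat_lit 7) (.e (nat_lit 409649) (nat_lit 18) (.e (nat_lit 303135) (nat_lit 10) .nil))))) .nil))) (.nd (nat_lit 6) 
(.lf (nat_lit 103214) (.g (nat_lit 2586) (.e (nat_lit 3468) (nat_lit 217) (.e (nat_lit 696363) (nat_lit 18) (.e (nat_lit 81927) (nat_lit 11) (.e (nat_lit 426172) (nat_lit 7) (.e (nat_lit 409649) (nat_lit 18) (.e (nat_lit 303111) (nat_lit 0) .nil)))))) (.g (nat_lit 6) .nil .nil))) 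
(.lf (nat_lit 103278) (.g (nat_lit 1226) (.e (nat_lit 3471) (nat_lit 217) (.e (nat_lit 696344) (nat_lit 8) (.e (nat_lit 172106) (nat_lit 10) (.e (nat_lit 434288) (nat_lit 43) .nil)))) .nil)))) (.nd (nat_lit 5) (.nd (nat_lit 6) 
(.lf (nat_lit 103198) (.g (nat_lit 2558) (.e (nat_lit 7936) (nat_lit 216) (.e (nat_lit 688170) (nat_lit 15) (.e (nat_lit 57480) (nat_lit 28) (.e (nat_lit 557104) (nat_lit 14) (.e (nat_lit 180250) (nat_lit 10) .nil))))) .nil)) 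
(.lf (nat_lit 103262) (.g (nat_lit 1414) (.e (nat_lit 3471) (nat_lit 217) (.e (nat_lit 696344) (nat_lit 8) (.e (nat_lit 172064) (nat_lit 2) (.e (nat_lit 196666) (nat_lit 13) .nil)))) .nil))) (.nd (nat_lit 6) 
(.lf (nat_lit 103230) (.g (nat_lit 613) (.e (nat_lit 3469) (nat_lit 217) (.e (nat_lit 696344) (nat_lit 8) (.e (nat_lit 172121) (nat_lit 13) .nil))) .nil)) 
(.lf (nat_lit 103294) (.g (nat_lit 2986) (.e (nat_lit 3492) (nat_lit 218) (.e (nat_lit 704738) (nat_lit 11) (.e (nat_lit 16425) (nat_lit 7) (.e (nat_lit 409649) (nat_lit 18) (.e (nat_lit 303140) (nat_lit 10) (.e (nat_lit 434275) (nat_lit 39) (.e (nat_lit 663572) (nat_lit 9) (.e (nat_lit 2402) (nat_lit 157) .nil)))))))) (.g (nat_lit 4) .nil .nil))))))))) 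
(.nd (nat_lit 1) (.nd (nat_lit 2) (.nd (nat_lit 3) (.nd (nat_lit 4) (.nd (nat_lit 5) 
(.nd (nat_lit 6) 
(.lf (nat_lit 103169) (.g (nat_lit 2363) (.e (nat_lit 3460) (nat_lit 216) (.e (nat_lit 688170) (nat_lit 15) (.e (nat_lit 57479) (nat_lit 28) (.e (nat_lit 557103) (nat_lit 14) (.e (nat_lit 180250) (nat_lit 10) .nil))))) .nil)) 
(.lf (nat_lit 103233) (.g (nat_lit 1658) (.e (nat_lit 3469) (nat_lit 217) (.e (nat_lit 696345) (nat_lit 9) (.e (nat_lit 180243) (nat_lit 5) (.e (nat_lit 532501) (nat_lit 1) (.e (nat_lit 57730) (nat_lit 181) .nil))))) .nil))) (.nd (nat_lit 6) 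
(.lf (nat_lit 103201) (.g (nat_lit 2348) (.e (nat_lit 7936) (nat_lit 216) (.e (nat_lit 688182) (nat_lit 17) (.e (nat_lit 73754) (nat_lit 8) (.e (nat_lit 557100) (nat_lit 13) (.e (nat_lit 172138) (nat_lit 15) .nil))))) .nil)) 
(.lf (nat_lit 103265) (.g (nat_lit 1927) (.e (nat_lit 3471) (nat_lit 217) (.e (nat_lit 696344) (nat_lit 8) (.e (nat_lit 172079) (nat_lit 7) (.e (nat_lit 409645) (nat_lit 18) (.e (nat_lit 303133) (nat_lit 9) .nil))))) .nil)))) (.nd (nat_lit 5) (.nd (nat_lit 6) 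
(.lf (nat_lit 103185) (.g (nat_lit 3286) (.e (nat_lit 3461) (nat_lit 216) (.e (nat_lit 688182) (nat_lit 17) (.e (nat_lit 73755) (nat_lit 8) (.e (nat_lit 557090) (nat_lit 12) (.e (nat_lit 164238) (nat_lit 187) (.e (nat_lit 1659) (nat_lit 115) (.e (nat_lit 393234) (nat_lit 17) .nil))))))) (.g (nat_lit 5) .nil .nil))) 
(.lf (nat_lit 103249) (.g (nat_lit 406) (.e (nat_lit 3471) (nat_lit 217) (.e (nat_lit 696343) (nat_lit 8) (.e (nat_lit 172094) (nat_lit 9) .nil))) .nil))) (.nd (nat_lit 6) 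
(.lf (nat_lit 103217) (.g (nat_lit 3146) (.e (nat_lit 3468) (nat_lit 217) (.e (nat_lit 696365) (nat_lit 20) (.e (nat_lit 131109) (nat_lit 9) (.e (nat_lit 336369) (nat_lit 27) (.e (nat_lit 426173) (nat_lit 7) (.e (nat_lit 409649) (nat_lit 18) (.e (nat_lit 303111) (nat_lit 0) .nil))))))) (.g (nat_lit 7) .nil .nil))) 
(.lf (nat_lit 103281) (.g (nat_lit 607) (.e (nat_lit 3471) (nat_lit 217) (.e (nat_lit 696344) (nat_lit 8) (.e (nat_lit 172121) (nat_lit 13) .nil))) .nil))))) (.nd (nat_lit 4) (.nd (nat_lit 5) (.nd (nat_lit 6) 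
(.lf (nat_lit 103177) (.g (nat_lit 4329) (.e (nat_lit 3460) (nat_lit 216) (.e (nat_lit 688171) (nat_lit 15) (.e (nat_lit 57478) (nat_lit 28) (.e (nat_lit 557105) (nat_lit 14) (.e (nat_lit 180252) (nat_lit 10) (.e (nat_lit 573481) (nat_lit 13) (.e (nat_lit 65571) (nat_lit 3) (.e (nat_lit 98319) (nat_lit 17) .nil)))))))) (.g (nat_lit 8) .nil .nil))) 
(.lf (nat_lit 103241) (.g (nat_lit 1819) (.e (nat_lit 3471) (nat_lit 217) (.e (nat_lit 696343) (nat_lit 8) (.e (nat_lit 172082) (nat_lit 7) (.e (nat_lit 409646) (nat_lit 18) (.e (nat_lit 303133) (nat_lit 9) .nil))))) .nil))) (.nd (nat_lit 6) 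
(.lf (nat_lit 103209) (.g (nat_lit 2081) (.e (nat_lit 3468) (nat_lit 217) (.e (nat_lit 696344) (nat_lit 8) (.e (nat_lit 172067) (nat_lit 3) (.e (nat_lit 204855) (nat_lit 26) .nil)))) .nil)) 
(.lf (nat_lit 103273) (.g (nat_lit 1224) (.e (nat_lit 3471) (nat_lit 217) (.e (nat_lit 696344) (nat_lit 8) (.e (nat_lit 172094) (nat_lit 9) (.e (nat_lit 426160) (nat_lit 6) .nil)))) .nil)))) (.nd (nat_lit 5) (.nd (nat_lit 6) 
(.lf (nat_lit 103193) (.g (nat_lit 1663) (.e (nat_lit 3461) (nat_lit 216) (.e (nat_lit 688182) (nat_lit 17) (.e (nat_lit 73755) (nat_lit 8) (.e (nat_lit 557121) (nat_lit 18) .nil)))) .nil)) 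
(.lf (nat_lit 103257) (.g (nat_lit 1143) (.e (nat_lit 3471) (nat_lit 217) (.e (nat_lit 696343) (nat_lit 8) (.e (nat_lit 172113) (nat_lit 10) (.e (nat_lit 434289) (nat_lit 43) .nil)))) .nil))) (.nd (nat_lit 6) 
(.lf (nat_lit 103225) (.g (nat_lit 1624) (.e (nat_lit 3469) (nat_lit 217) (.e (nat_lit 696344) (nat_lit 8) (.e (nat_lit 172113) (nat_lit 10) (.e (nat_lit 434208) (nat_lit 18) (.e (nat_lit 6255) (nat_lit 337) .nil))))) .nil)) 
(.lf (nat_lit 103289) (.g (nat_lit 4448) (.e (nat_lit 3491) (nat_lit 218) (.e (nat_lit 704738) (nat_lit 11) (.e (nat_lit 16425) (nat_lit 7) (.e (nat_lit 409649) (nat_lit 18) (.e (nat_lit 303140) (nat_lit 10) (.e (nat_lit 434275) (nat_lit 39) (.e (nat_lit 663580) (nat_lit 9) (.e (nat_lit 2505) (nat_lit 157) .nil)))))))) (.g (nat_lit 7) .nil .nil))))))) 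
(.nd (nat_lit 3) (.nd (nat_lit 4) (.nd (nat_lit 5) (.nd (nat_lit 6) 
(.lf (nat_lit 103173) (.g (nat_lit 4028) (.e (nat_lit 3460) (nat_lit 216) (.e (nat_lit 688170) (nat_lit 15) (.e (nat_lit 57479) (nat_lit 28) (.e (nat_lit 557105) (nat_lit 14) (.e (nat_lit 180252) (nat_lit 10) (.e (nat_lit 573482) (nat_lit 13) (.e (nat_lit 65536) (nat_lit 0) (.e (nat_lit 1788) (nat_lit 119) (.e (nat_lit 516097) (nat_lit 0) .nil))))))))) (.g (nat_lit 6) .nil .nil))) 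
(.lf (nat_lit 103237) (.g (nat_lit 1593) (.e (nat_lit 3471) (nat_lit 217) (.e (nat_lit 696343) (nat_lit 8) (.e (nat_lit 172079) (nat_lit 7) (.e (nat_lit 409645) (nat_lit 18) (.e (nat_lit 303133) (nat_lit 9) .nil))))) .nil))) (.nd (nat_lit 6) 
(.lf (nat_lit 103205) (.g (nat_lit 2377) (.e (nat_lit 3464) (nat_lit 217) (.e (nat_lit 696343) (nat_lit 8) (.e (nat_lit 172082) (nat_lit 7) (.e (nat_lit 409646) (nat_lit 18) (.e (nat_lit 303139) (nat_lit 10) .nil))))) .nil)) 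
(.lf (nat_lit 103269) (.g (nat_lit 2563) (.e (nat_lit 3471) (nat_lit 217) (.e (nat_lit 696344) (nat_lit 8) (.e (nat_lit 172082) (nat_lit 7) (.e (nat_lit 409646) (nat_lit 18) (.e (nat_lit 303141) (nat_lit 11) .nil))))) .nil)))) (.nd (nat_lit 5) (.nd (nat_lit 6) 
(.lf (nat_lit 103189) (.g (nat_lit 1661) (.e (nat_lit 3461) (nat_lit 216) (.e (nat_lit 688182) (nat_lit 17) (.e (nat_lit 73755) (nat_lit 8) (.e (nat_lit 557096) (nat_lit 13) (.e (nat_lit 172133) (nat_lit 15) (.e (nat_lit 2175) (nat_lit 143) (.e (nat_lit 712745) (nat_lit 27) (.e (nat_lit 425984) (nat_lit 0) .nil)))))))) (.g (nat_lit 4) .nil .nil))) 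
(.lf (nat_lit 103253) (.g (nat_lit 924) (.e (nat_lit 3471) (nat_lit 217) (.e (nat_lit 696343) (nat_lit 8) (.e (nat_lit 172106) (nat_lit 10) (.e (nat_lit 434289) (nat_lit 43) .nil)))) .nil))) (.nd (nat_lit 6) 
(.lf (nat_lit 103221) (.g (nat_lit 611) (.e (nat_lit 3469) (nat_lit 217) (.e (nat_lit 696344) (nat_lit 8) (.e (nat_lit 172076) (nat_lit 6) .nil))) .nil)) 
(.lf (nat_lit 103285) (.g (nat_lit 2638) (.e (nat_lit 3480) (nat_lit 218) (.e (nat_lit 704731) (nat_lit 11) (.e (nat_lit 16468) (nat_lit 13) (.e (nat_lit 483372) (nat_lit 21) (.e (nat_lit 319511) (nat_lit 10) (.e (nat_lit 5664) (nat_lit 312) (.e (nat_lit 2435) (nat_lit 157) .nil))))))) (.g (nat_lit 6) .nil .nil)))))) (.nd (nat_lit 4) (.nd (nat_lit 5) (.nd (nat_lit 6) 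
(.lf (nat_lit 103181) (.g (nat_lit 489) (.e (nat_lit 3460) (nat_lit 216) (.e (nat_lit 688177) (nat_lit 16) (.e (nat_lit 65569) (nat_lit 3) .nil))) .nil)) 
(.lf (nat_lit 103245) (.g (nat_lit 1746) (.e (nat_lit 3471) (nat_lit 217) (.e (nat_lit 696343) (nat_lit 8) (.e (nat_lit 172082) (nat_lit 7) (.e (nat_lit 409648) (nat_lit 18) (.e (nat_lit 303137) (nat_lit 10) .nil))))) .nil))) (.nd (nat_lit 6) 
(.lf (nat_lit 103213) (.g (nat_lit 2484) (.e (nat_lit 3468) (nat_lit 217) (.e (nat_lit 696361) (nat_lit 16) (.e (nat_lit 65626) (nat_lit 13) (.e (nat_lit 393260) (nat_lit 21) (.e (nat_lit 409649) (nat_lit 18) (.e (nat_lit 303111) (nat_lit 0) .nil)))))) (.g (nat_lit 5) .nil .nil))) 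
(.lf (nat_lit 103277) (.g (nat_lit 2090) (.e (nat_lit 3471) (nat_lit 217) (.e (nat_lit 696344) (nat_lit 8) (.e (nat_lit 172106) (nat_lit 10) (.e (nat_lit 434209) (nat_lit 18) (.e (nat_lit 6273) (nat_lit 337) .nil))))) .nil)))) (.nd (nat_lit 5) (.nd (nat_lit 6) 
(.lf (nat_lit 103197) (.g (nat_lit 2402) (.e (nat_lit 7936) (nat_lit 216) (.e (nat_lit 688170) (nat_lit 15) (.e (nat_lit 57479) (nat_lit 28) (.e (nat_lit 557103) (nat_lit 14) (.e (nat_lit 180250) (nat_lit 10) .nil))))) .nil)) 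
(.lf (nat_lit 103261) (.g (nat_lit 2681) (.e (nat_lit 3471) (nat_lit 217) (.e (nat_lit 696343) (nat_lit 8) (.e (nat_lit 172126) (nat_lit 14) (.e (nat_lit 491566) (nat_lit 12) (.e (nat_lit 385092) (nat_lit 49) .nil))))) .nil))) (.nd (nat_lit 6) 
(.lf (nat_lit 103229) (.g (nat_lit 1778) (.e (nat_lit 3469) (nat_lit 217) (.e (nat_lit 696344) (nat_lit 8) (.e (nat_lit 172115) (nat_lit 10) (.e (nat_lit 434209) (nat_lit 18) (.e (nat_lit 6284) (nat_lit 337) .nil))))) .nil)) 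
(.lf (nat_lit 103293) (.g (nat_lit 2880) (.e (nat_lit 3492) (nat_lit 218) (.e (nat_lit 704738) (nat_lit 11) (.e (nat_lit 16425) (nat_lit 7) (.e (nat_lit 409649) (nat_lit 18) (.e (nat_lit 303140) (nat_lit 10) .nil))))) .nil))))))) (.nd (nat_lit 2) (.nd (nat_lit 3) (.nd (nat_lit 4) (.nd (nat_lit 5) (.nd (nat_lit 6) 
(.lf (nat_lit 103171) (.g (nat_lit 2536) (.e (nat_lit 3460) (nat_lit 216) (.e (nat_lit 688170) (nat_lit 15) (.e (nat_lit 57479) (nat_lit 28) (.e (nat_lit 557103) (nat_lit 14) (.e (nat_lit 180250) (nat_lit 10) (.e (nat_lit 573485) (nat_lit 13) (.e (nat_lit 65569) (nat_lit 3) (.e (nat_lit 98321) (nat_lit 17) .nil)))))))) (.g (nat_lit 4) .nil .nil))) 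
(.lf (nat_lit 103235) (.g (nat_lit 2284) (.e (nat_lit 3469) (nat_lit 217) (.e (nat_lit 696365) (nat_lit 20) (.e (nat_lit 131127) (nat_lit 13) (.e (nat_lit 393260) (nat_lit 21) (.e (nat_lit 409648) (nat_lit 18) (.e (nat_lit 303108) (nat_lit 0) .nil)))))) (.g (nat_lit 5) .nil .nil)))) (.nd (nat_lit 6) 
(.lf (nat_lit 103203) (.g (nat_lit 1461) (.e (nat_lit 7936) (nat_lit 216) (.e (nat_lit 688182) (nat_lit 17) (.e (nat_lit 73755) (nat_lit 8) (.e (nat_lit 557121) (nat_lit 18) .nil)))) .nil)) 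
(.lf (nat_lit 103267) (.g (nat_lit 2396) (.e (nat_lit 3471) (nat_lit 217) (.e (nat_lit 696344) (nat_lit 8) (.e (nat_lit 172079) (nat_lit 7) (.e (nat_lit 409648) (nat_lit 18) (.e (nat_lit 303137) (nat_lit 10) .nil))))) .nil)))) (.nd (nat_lit 5) (.nd (nat_lit 6) 
(.lf (nat_lit 103187) (.g (nat_lit 2537) (.e (nat_lit 3461) (nat_lit 216) (.e (nat_lit 688182) (nat_lit 17) (.e (nat_lit 73755) (nat_lit 8) (.e (nat_lit 557090) (nat_lit 12) (.e (nat_lit 164238) (nat_lit 187) (.e (nat_lit 1661) (nat_lit 115) (.e (nat_lit 393232) (nat_lit 17) .nil))))))) (.g (nat_lit 4) .nil .nil))) 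
(.lf (nat_lit 103251) (.g (nat_lit 937) (.e (nat_lit 3471) (nat_lit 217) (.e (nat_lit 696343) (nat_lit 8) (.e (nat_lit 172106) (nat_lit 10) (.e (nat_lit 434202) (nat_lit 18) .nil)))) .nil))) (.nd (nat_lit 6) 
(.lf (nat_lit 103219) (.g (nat_lit 2341) (.e (nat_lit 3469) (nat_lit 217) (.e (nat_lit 696344) (nat_lit 8) (.e (nat_lit 172064) (nat_lit 2) (.e (nat_lit 196666) (nat_lit 13) (.e (nat_lit 65617) (nat_lit 10) .nil))))) .nil)) 
(.lf (nat_lit 103283) (.g (nat_lit 2384) (.e (nat_lit 3473) (nat_lit 218) (.e (nat_lit 704734) (nat_lit 11) (.e (nat_lit 16416) (nat_lit 3) (.e (nat_lit 204830) (nat_lit 18) (.e (nat_lit 57735) (nat_lit 183) .nil))))) .nil))))) (.nd (nat_lit 4) (.nd (nat_lit 5) (.nd (nat_lit 6) 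
(.lf (nat_lit 103179) (.g (nat_lit 4111) (.e (nat_lit 3460) (nat_lit 216) (.e (nat_lit 688171) (nat_lit 15) (.e (nat_lit 57480) (nat_lit 28) (.e (nat_lit 557105) (nat_lit 14) (.e (nat_lit 180252) (nat_lit 10) (.e (nat_lit 573481) (nat_lit 13) (.e (nat_lit 65571) (nat_lit 3) (.e (nat_lit 98319) (nat_lit 17) .nil)))))))) (.g (nat_lit 7) .nil .nil))) 
(.lf (nat_lit 103243) (.g (nat_lit 2405) (.e (nat_lit 3471) (nat_lit 217) (.e (nat_lit 696343) (nat_lit 8) (.e (nat_lit 172082) (nat_lit 7) (.e (nat_lit 409646) (nat_lit 18) (.e (nat_lit 303139) (nat_lit 10) .nil))))) .nil))) (.nd (nat_lit 6) 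
(.lf (nat_lit 103211) (.g (nat_lit 1253) (.e (nat_lit 3468) (nat_lit 217) (.e (nat_lit 696344) (nat_lit 8) (.e (nat_lit 172106) (nat_lit 10) (.e (nat_lit 434287) (nat_lit 43) .nil)))) .nil)) 
(.lf (nat_lit 103275) (.g (nat_lit 1110) (.e (nat_lit 3471) (nat_lit 217) (.e (nat_lit 696344) (nat_lit 8) (.e (nat_lit 172106) (nat_lit 10) (.e (nat_lit 434202) (nat_lit 18) .nil)))) .nil)))) (.nd (nat_lit 5) (.nd (nat_lit 6) 
(.lf (nat_lit 103195) (.g (nat_lit 1268) (.e (nat_lit 7936) (nat_lit 216) (.e (nat_lit 688166) (nat_lit 15) (.e (nat_lit 57477) (nat_lit 28) (.e (nat_lit 557103) (nat_lit 14) (.e (nat_lit 180250) (nat_lit 10) .nil))))) .nil)) 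
(.lf (nat_lit 103259) (.g (nat_lit 1025) (.e (nat_lit 3471) (nat_lit 217) (.e (nat_lit 696343) (nat_lit 8) (.e (nat_lit 172121) (nat_lit 13) (.e (nat_lit 483412) (nat_lit 27) .nil)))) .nil))) (.nd (nat_lit 6) 
(.lf (nat_lit 103227) (.g (nat_lit 911) (.e (nat_lit 3469) (nat_lit 217) (.e (nat_lit 696344) (nat_lit 8) (.e (nat_lit 172115) (nat_lit 10) (.e (nat_lit 434202) (nat_lit 18) .nil)))) .nil)) 
(.lf (nat_lit 103291) (.g (nat_lit 3990) (.e (nat_lit 3491) (nat_lit 218) (.e (nat_lit 704738) (nat_lit 11) (.e (nat_lit 16425) (nat_lit 7) (.e (nat_lit 409649) (nat_lit 18) (.e (nat_lit 303140) (nat_lit 10) (.e (nat_lit 434275) (nat_lit 39) (.e (nat_lit 663580) (nat_lit 9) (.e (nat_lit 7936) (nat_lit 157) .nil)))))))) (.g (nat_lit 7) .nil .nil))))))) 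
(.nd (nat_lit 3) (.nd (nat_lit 4) (.nd (nat_lit 5) (.nd (nat_lit 6) 
(.lf (nat_lit 103175) (.g (nat_lit 4688) (.e (nat_lit 3460) (nat_lit 216) (.e (nat_lit 688170) (nat_lit 15) (.e (nat_lit 57480) (nat_lit 28) (.e (nat_lit 557105) (nat_lit 14) (.e (nat_lit 180252) (nat_lit 10) (.e (nat_lit 573481) (nat_lit 13) (.e (nat_lit 65571) (nat_lit 3) (.e (nat_lit 98319) (nat_lit 17) .nil)))))))) (.g (nat_lit 0) .nil .nil))) 
(.lf (nat_lit 103239) (.g (nat_lit 1827) (.e (nat_lit 3471) (nat_lit 217) (.e (nat_lit 696343) (nat_lit 8) (.e (nat_lit 172079) (nat_lit 7) (.e (nat_lit 409645) (nat_lit 18) (.e (nat_lit 303139) (nat_lit 10) .nil))))) .nil))) (.nd (nat_lit 6) 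
(.lf (nat_lit 103207) (.g (nat_lit 2939) (.e (nat_lit 3464) (nat_lit 217) (.e (nat_lit 696343) (nat_lit 8) (.e (nat_lit 172125) (nat_lit 14) (.e (nat_lit 491566) (nat_lit 12) (.e (nat_lit 385107) (nat_lit 51) .nil))))) .nil)) 
(.lf (nat_lit 103271) (.g (nat_lit 643) (.e (nat_lit 3471) (nat_lit 217) (.e (nat_lit 696344) (nat_lit 8) (.e (nat_lit 172091) (nat_lit 9) .nil))) .nil)))) (.nd (nat_lit 5) (.nd (nat_lit 6) 
(.lf (nat_lit 103191) (.g (nat_lit 2380) (.e (nat_lit 3461) (nat_lit 216) (.e (nat_lit 688182) (nat_lit 17) (.e (nat_lit 73755) (nat_lit 8) (.e (nat_lit 557098) (nat_lit 13) (.e (nat_lit 172136) (nat_lit 15) (.e (nat_lit 2174) (nat_lit 143) (.e (nat_lit 712745) (nat_lit 27) (.e (nat_lit 425984) (nat_lit 0) .nil)))))))) (.g (nat_lit 4) .nil .nil))) 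
(.lf (nat_lit 103255) (.g (nat_lit 1998) (.e (nat_lit 3471) (nat_lit 217) (.e (nat_lit 696343) (nat_lit 8) (.e (nat_lit 172113) (nat_lit 10) (.e (nat_lit 434203) (nat_lit 18) (.e (nat_lit 6420) (nat_lit 341) (.e (nat_lit 163920) (nat_lit 14) (.e (nat_lit 442392) (nat_lit 20) .nil))))))) (.g (nat_lit 4) .nil .nil)))) (.nd (nat_lit 6) 
(.lf (nat_lit 103223) (.g (nat_lit 1523) (.e (nat_lit 3469) (nat_lit 217) (.e (nat_lit 696344) (nat_lit 8) (.e (nat_lit 172113) (nat_lit 10) (.e (nat_lit 434203) (nat_lit 18) (.e (nat_lit 6255) (nat_lit 337) .nil))))) .nil)) 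
(.lf (nat_lit 103287) (.g (nat_lit 3687) (.e (nat_lit 3491) (nat_lit 218) (.e (nat_lit 704738) (nat_lit 11) (.e (nat_lit 16425) (nat_lit 7) (.e (nat_lit 409648) (nat_lit 18) (.e (nat_lit 303137) (nat_lit 10) (.e (nat_lit 434275) (nat_lit 39) (.e (nat_lit 663580) (nat_lit 9) (.e (nat_lit 2515) (nat_lit 157) .nil)))))))) (.g (nat_lit 5) .nil .nil)))))) 
(.nd (nat_lit 4) (.nd (nat_lit 5) (.nd (nat_lit 6) 
(.lf (nat_lit 103183) (.g (nat_lit 3326) (.e (nat_lit 3461) (nat_lit 216) (.e (nat_lit 688177) (nat_lit 16) (.e (nat_lit 65566) (nat_lit 2) (.e (nat_lit 90170) (nat_lit 13) (.e (nat_lit 172106) (nat_lit 10) (.e (nat_lit 434231) (nat_lit 23) (.e (nat_lit 540416) (nat_lit 17) .nil))))))) (.g (nat_lit 6) .nil .nil))) 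
(.lf (nat_lit 103247) (.g (nat_lit 1919) (.e (nat_lit 3471) (nat_lit 217) (.e (nat_lit 696343) (nat_lit 8) (.e (nat_lit 172082) (nat_lit 7) (.e (nat_lit 409649) (nat_lit 18) (.e (nat_lit 303140) (nat_lit 10) .nil))))) .nil))) (.nd (nat_lit 6) 
(.lf (nat_lit 103215) (.g (nat_lit 3308) (.e (nat_lit 3468) (nat_lit 217) (.e (nat_lit 696363) (nat_lit 18) (.e (nat_lit 81965) (nat_lit 26) (.e (nat_lit 147492) (nat_lit 11) (.e (nat_lit 24665) (nat_lit 14) (.e (nat_lit 401414) (nat_lit 0) .nil)))))) (.g (nat_lit 0) .nil .nil))) 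
(.lf (nat_lit 103279) (.g (nat_lit 1284) (.e (nat_lit 3471) (nat_lit 217) (.e (nat_lit 696344) (nat_lit 8) (.e (nat_lit 172106) (nat_lit 10) (.e (nat_lit 434290) (nat_lit 44) .nil)))) .nil)))) (.nd (nat_lit 5) (.nd (nat_lit 6) 
(.lf (nat_lit 103199) (.g (nat_lit 2226) (.e (nat_lit 7936) (nat_lit 216) (.e (nat_lit 688170) (nat_lit 15) (.e (nat_lit 57480) (nat_lit 28) (.e (nat_lit 557105) (nat_lit 14) (.e (nat_lit 180250) (nat_lit 10) .nil))))) .nil)) 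
(.lf (nat_lit 103263) (.g (nat_lit 2579) (.e (nat_lit 3471) (nat_lit 217) (.e (nat_lit 696344) (nat_lit 8) (.e (nat_lit 172067) (nat_lit 3) (.e (nat_lit 204855) (nat_lit 26) (.e (nat_lit 336176) (nat_lit 10) .nil))))) .nil))) (.nd (nat_lit 6) 
(.lf (nat_lit 103231) (.g (nat_lit 508) (.e (nat_lit 3469) (nat_lit 217) (.e (nat_lit 696344) (nat_lit 8) (.e (nat_lit 172122) (nat_lit 13) .nil))) .nil)) 
(.lf (nat_lit 103295) (.g (nat_lit 3062) (.e (nat_lit 3492) (nat_lit 218) (.e (nat_lit 704738) (nat_lit 11) (.e (nat_lit 16425) (nat_lit 7) (.e (nat_lit 409649) (nat_lit 18) (.e (nat_lit 303140) (nat_lit 10) (.e (nat_lit 434275) (nat_lit 39) (.e (nat_lit 663572) (nat_lit 9) (.e (nat_lit 2403) (nat_lit 157) .nil)))))))) (.g (nat_lit 4) .nil .nil))))))))))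

noncomputable def tv1409 : DT := (.nd (nat_lit 0) (.nd (nat_lit 1) (.nd (nat_lit 2) (.nd (nat_lit 3) (.nd (nat_lit 4) (.nd (nat_lit 5) 
(.lf (nat_lit 103296) (.g (nat_lit 3130) (.e (nat_lit 3492) (nat_lit 218) (.e (nat_lit 704738) (nat_lit 11) (.e (nat_lit 16425) (nat_lit 7) (.e (nat_lit 409649) (nat_lit 18) (.e (nat_lit 303140) (nat_lit 10) (.e (nat_lit 434275) (nat_lit 39) (.e (nat_lit 663573) (nat_lit 9) (.e (nat_lit 2403) (nat_lit 157) .nil)))))))) (.g (nat_lit 4) .nil .nil))) 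
(.lf (nat_lit 103328) (.g (nat_lit 1516) (.e (nat_lit 3499) (nat_lit 218) (.e (nat_lit 704737) (nat_lit 11) (.e (nat_lit 16392) (nat_lit 0) (.e (nat_lit 7936) (nat_lit 200) .nil)))) .nil))) (.nd (nat_lit 5) 
(.lf (nat_lit 103312) (.g (nat_lit 3435) (.e (nat_lit 3496) (nat_lit 218) (.e (nat_lit 704738) (nat_lit 11) (.e (nat_lit 16425) (nat_lit 7) (.e (nat_lit 409648) (nat_lit 18) (.e (nat_lit 303137) (nat_lit 10) (.e (nat_lit 434275) (nat_lit 39) (.e (nat_lit 663579) (nat_lit 9) (.e (nat_lit 2425) (nat_lit 157) .nil)))))))) (.g (nat_lit 4) .nil .nil))) 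
(.lf (nat_lit 103344) (.g (nat_lit 2232) (.e (nat_lit 3503) (nat_lit 218) (.e (nat_lit 704738) (nat_lit 11) (.e (nat_lit 16425) (nat_lit 7) (.e (nat_lit 409648) (nat_lit 18) .nil)))) .nil)))) (.nd (nat_lit 4) (.nd (nat_lit 5) 
(.lf (nat_lit 103304) (.g (nat_lit 4710) (.e (nat_lit 3494) (nat_lit 218) (.e (nat_lit 704738) (nat_lit 11) (.e (nat_lit 16425) (nat_lit 7) (.e (nat_lit 409649) (nat_lit 18) (.e (nat_lit 303140) (nat_lit 10) (.e (nat_lit 434275) (nat_lit 39) (.e (nat_lit 663580) (nat_lit 9) (.e (nat_lit 7936) (nat_lit 157) .nil)))))))) (.g (nat_lit 7) .nil .nil))) 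
(.lf (nat_lit 103336) (.g (nat_lit 3657) (.e (nat_lit 3499) (nat_lit 218) (.e (nat_lit 704738) (nat_lit 11) (.e (nat_lit 16425) (nat_lit 7) (.e (nat_lit 409649) (nat_lit 18) (.e (nat_lit 303140) (nat_lit 10) (.e (nat_lit 434275) (nat_lit 39) (.e (nat_lit 663580) (nat_lit 9) (.e (nat_lit 7936) (nat_lit 157) .nil)))))))) (.g (nat_lit 6) .nil .nil)))) (.nd (nat_lit 5) 
(.lf (nat_lit 103320) (.g (nat_lit 2868) (.e (nat_lit 3498) (nat_lit 218) (.e (nat_lit 704738) (nat_lit 11) (.e (nat_lit 16425) (nat_lit 7) (.e (nat_lit 409617) (nat_lit 10) (.e (nat_lit 848) (nat_lit 73) .nil))))) .nil)) 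
(.lf (nat_lit 103352) (.g (nat_lit 2384) (.e (nat_lit 3513) (nat_lit 218) (.e (nat_lit 704734) (nat_lit 11) (.e (nat_lit 16416) (nat_lit 3) (.e (nat_lit 204830) (nat_lit 18) (.e (nat_lit 57735) (nat_lit 183) .nil))))) .nil))))) (.nd (nat_lit 3) (.nd (nat_lit 4) (.nd (nat_lit 5) 
(.lf (nat_lit 103300) (.g (nat_lit 2942) (.e (nat_lit 3493) (nat_lit 218) (.e (nat_lit 704738) (nat_lit 11) (.e (nat_lit 16425) (nat_lit 7) (.e (nat_lit 409649) (nat_lit 18) (.e (nat_lit 303140) (nat_lit 10) .nil))))) .nil)) 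
(.lf (nat_lit 103332) (.g (nat_lit 2141) (.e (nat_lit 3499) (nat_lit 218) (.e (nat_lit 704738) (nat_lit 11) (.e (nat_lit 16425) (nat_lit 7) (.e (nat_lit 409649) (nat_lit 18) (.e (nat_lit 303140) (nat_lit 10) .nil))))) .nil))) (.nd (nat_lit 5) 
(.lf (nat_lit 103316) (.g (nat_lit 2263) (.e (nat_lit 3498) (nat_lit 218) (.e (nat_lit 704737) (nat_lit 11) (.e (nat_lit 16425) (nat_lit 7) (.e (nat_lit 409648) (nat_lit 18) (.e (nat_lit 303137) (nat_lit 10) .nil))))) .nil)) 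
(.lf (nat_lit 103348) (.g (nat_lit 2255) (.e (nat_lit 3503) (nat_lit 218) (.e (nat_lit 704738) (nat_lit 11) (.e (nat_lit 16425) (nat_lit 7) (.e (nat_lit 409649) (nat_lit 18) (.e (nat_lit 303140) (nat_lit 10) (.e (nat_lit 434275) (nat_lit 39) (.e (nat_lit 663580) (nat_lit 9) (.e (nat_lit 2416) (nat_lit 157) .nil)))))))) (.g (nat_lit 4) .nil .nil))))) (.nd (nat_lit 4) (.nd (nat_lit 5) 
(.lf (nat_lit 103308) (.g (nat_lit 4359) (.e (nat_lit 3495) (nat_lit 218) (.e (nat_lit 704738) (nat_lit 11) (.e (nat_lit 16425) (nat_lit 7) (.e (nat_lit 409649) (nat_lit 18) (.e (nat_lit 303140) (nat_lit 10) (.e (nat_lit 434275) (nat_lit 39) (.e (nat_lit 663574) (nat_lit 9) (.e (nat_lit 7936) (nat_lit 157) .nil)))))))) (.g (nat_lit 6) .nil .nil))) 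
(.lf (nat_lit 103340) (.g (nat_lit 2991) (.e (nat_lit 3500) (nat_lit 218) (.e (nat_lit 704738) (nat_lit 11) (.e (nat_lit 16425) (nat_lit 7) (.e (nat_lit 409649) (nat_lit 18) (.e (nat_lit 303140) (nat_lit 10) (.e (nat_lit 434275) (nat_lit 39) (.e (nat_lit 663574) (nat_lit 9) (.e (nat_lit 7936) (nat_lit 157) .nil)))))))) (.g (nat_lit 4) .nil .nil)))) (.nd (nat_lit 5) 
(.lf (nat_lit 103324) (.g (nat_lit 2500) (.e (nat_lit 3498) (nat_lit 218) (.e (nat_lit 704738) (nat_lit 11) (.e (nat_lit 16425) (nat_lit 7) (.e (nat_lit 409649) (nat_lit 18) (.e (nat_lit 303140) (nat_lit 10) (.e (nat_lit 434275) (nat_lit 39) (.e (nat_lit 663574) (nat_lit 9) (.e (nat_lit 2437) (nat_lit 157) .nil)))))))) (.g (nat_lit 5) .nil .nil))) 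
(.lf (nat_lit 103356) (.g (nat_lit 3827) (.e (nat_lit 3516) (nat_lit 218) (.e (nat_lit 704736) (nat_lit 11) (.e (nat_lit 16425) (nat_lit 7) (.e (nat_lit 409649) (nat_lit 18) (.e (nat_lit 303140) (nat_lit 10) (.e (nat_lit 434275) (nat_lit 39) (.e (nat_lit 663580) (nat_lit 9) (.e (nat_lit 2442) (nat_lit 157) .nil)))))))) (.g (nat_lit 7) .nil .nil))))))) 
(.nd (nat_lit 2) (.nd (nat_lit 3) (.nd (nat_lit 4) (.nd (nat_lit 5) 
(.lf (nat_lit 103298) (.g (nat_lit 3572) (.e (nat_lit 3493) (nat_lit 218) (.e (nat_lit 704738) (nat_lit 11) (.e (nat_lit 16425) (nat_lit 7) (.e (nat_lit 409648) (nat_lit 18) (.e (nat_lit 303137) (nat_lit 10) .nil))))) .nil)) 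
(.lf (nat_lit 103330) (.g (nat_lit 3351) (.e (nat_lit 3499) (nat_lit 218) (.e (nat_lit 704738) (nat_lit 11) (.e (nat_lit 16416) (nat_lit 3) (.e (nat_lit 204829) (nat_lit 18) .nil)))) .nil))) (.nd (nat_lit 5) 
(.lf (nat_lit 103314) (.g (nat_lit 666) (.e (nat_lit 3498) (nat_lit 218) (.e (nat_lit 704629) (nat_lit 9) (.e (nat_lit 1277) (nat_lit 94) .nil))) .nil)) 
(.lf (nat_lit 103346) (.g (nat_lit 2077) (.e (nat_lit 3503) (nat_lit 218) (.e (nat_lit 704738) (nat_lit 11) (.e (nat_lit 16425) (nat_lit 7) (.e (nat_lit 409649) (nat_lit 18) (.e (nat_lit 303140) (nat_lit 10) .nil))))) .nil)))) (.nd (nat_lit 4) (.nd (nat_lit 5) 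
(.lf (nat_lit 103306) (.g (nat_lit 3480) (.e (nat_lit 3495) (nat_lit 218) (.e (nat_lit 704738) (nat_lit 11) (.e (nat_lit 16425) (nat_lit 7) (.e (nat_lit 409648) (nat_lit 18) (.e (nat_lit 303137) (nat_lit 10) (.e (nat_lit 434275) (nat_lit 39) (.e (nat_lit 663580) (nat_lit 9) (.e (nat_lit 7936) (nat_lit 157) .nil)))))))) (.g (nat_lit 4) .nil .nil))) 
(.lf (nat_lit 103338) (.g (nat_lit 2811) (.e (nat_lit 3500) (nat_lit 218) (.e (nat_lit 704738) (nat_lit 11) (.e (nat_lit 16425) (nat_lit 7) (.e (nat_lit 409649) (nat_lit 18) (.e (nat_lit 303140) (nat_lit 10) .nil))))) .nil))) (.nd (nat_lit 5) 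
(.lf (nat_lit 103322) (.g (nat_lit 2535) (.e (nat_lit 3498) (nat_lit 218) (.e (nat_lit 704738) (nat_lit 11) (.e (nat_lit 16425) (nat_lit 7) (.e (nat_lit 409648) (nat_lit 18) (.e (nat_lit 303137) (nat_lit 10) .nil))))) .nil)) 
(.lf (nat_lit 103354) (.g (nat_lit 2837) (.e (nat_lit 3516) (nat_lit 218) (.e (nat_lit 704736) (nat_lit 11) (.e (nat_lit 16425) (nat_lit 7) (.e (nat_lit 409648) (nat_lit 18) (.e (nat_lit 303137) (nat_lit 10) (.e (nat_lit 434275) (nat_lit 39) (.e (nat_lit 663574) (nat_lit 9) (.e (nat_lit 2450) (nat_lit 157) .nil)))))))) (.g (nat_lit 5) .nil .nil)))))) 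
(.nd (nat_lit 3) (.nd (nat_lit 4) (.nd (nat_lit 5) 
(.lf (nat_lit 103302) (.g (nat_lit 3563) (.e (nat_lit 3494) (nat_lit 218) (.e (nat_lit 704738) (nat_lit 11) (.e (nat_lit 16425) (nat_lit 7) (.e (nat_lit 409648) (nat_lit 18) (.e (nat_lit 303137) (nat_lit 10) .nil))))) .nil)) 
(.lf (nat_lit 103334) (.g (nat_lit 3696) (.e (nat_lit 3499) (nat_lit 218) (.e (nat_lit 704738) (nat_lit 11) (.e (nat_lit 16425) (nat_lit 7) (.e (nat_lit 409649) (nat_lit 18) (.e (nat_lit 303140) (nat_lit 10) (.e (nat_lit 434275) (nat_lit 39) (.e (nat_lit 663579) (nat_lit 9) (.e (nat_lit 2424) (nat_lit 157) .nil)))))))) (.g (nat_lit 6) .nil .nil)))) (.nd (nat_lit 5) 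
(.lf (nat_lit 103318) (.g (nat_lit 2291) (.e (nat_lit 3498) (nat_lit 218) (.e (nat_lit 704737) (nat_lit 11) (.e (nat_lit 16448) (nat_lit 10) (.e (nat_lit 434288) (nat_lit 43) .nil)))) .nil)) 
(.lf (nat_lit 103350) (.g (nat_lit 1332) (.e (nat_lit 3512) (nat_lit 218) (.e (nat_lit 704734) (nat_lit 11) (.e (nat_lit 16436) (nat_lit 9) (.e (nat_lit 425986) (nat_lit 0) .nil)))) .nil)))) (.nd (nat_lit 4) (.nd (nat_lit 5) 
(.lf (nat_lit 103310) (.g (nat_lit 3360) (.e (nat_lit 3496) (nat_lit 218) (.e (nat_lit 704738) (nat_lit 11) (.e (nat_lit 16425) (nat_lit 7) (.e (nat_lit 409648) (nat_lit 18) (.e (nat_lit 303137) (nat_lit 10) .nil))))) .nil)) 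
(.lf (nat_lit 103342) (.g (nat_lit 2137) (.e (nat_lit 3501) (nat_lit 218) (.e (nat_lit 704736) (nat_lit 11) (.e (nat_lit 16425) (nat_lit 7) (.e (nat_lit 409648) (nat_lit 18) (.e (nat_lit 303137) (nat_lit 10) .nil))))) .nil))) (.nd (nat_lit 5) 
(.lf (nat_lit 103326) (.g (nat_lit 3477) (.e (nat_lit 3498) (nat_lit 218) (.e (nat_lit 704738) (nat_lit 11) (.e (nat_lit 16425) (nat_lit 7) (.e (nat_lit 409649) (nat_lit 18) (.e (nat_lit 303140) (nat_lit 10) (.e (nat_lit 434275) (nat_lit 39) (.e (nat_lit 663580) (nat_lit 9) (.e (nat_lit 7936) (nat_lit 157) .nil)))))))) (.g (nat_lit 7) .nil .nil))) 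
(.lf (nat_lit 103358) (.g (nat_lit 2137) (.e (nat_lit 3520) (nat_lit 218) (.e (nat_lit 704736) (nat_lit 11) (.e (nat_lit 16425) (nat_lit 7) (.e (nat_lit 409648) (nat_lit 18) (.e (nat_lit 303137) (nat_lit 10) .nil))))) .nil))))))) (.nd (nat_lit 1) (.nd (nat_lit 2) (.nd (nat_lit 3) (.nd (nat_lit 4) (.nd (nat_lit 5) 
(.lf (nat_lit 103297) (.g (nat_lit 4639) (.e (nat_lit 3492) (nat_lit 218) (.e (nat_lit 704738) (nat_lit 11) (.e (nat_lit 16425) (nat_lit 7) (.e (nat_lit 409649) (nat_lit 18) (.e (nat_lit 303140) (nat_lit 10) (.e (nat_lit 434275) (nat_lit 39) (.e (nat_lit 663580) (nat_lit 9) (.e (nat_lit 7936) (nat_lit 157) .nil)))))))) (.g (nat_lit 7) .nil .nil))) 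
(.lf (nat_lit 103329) (.g (nat_lit 1991) (.e (nat_lit 3499) (nat_lit 218) (.e (nat_lit 704737) (nat_lit 11) (.e (nat_lit 16473) (nat_lit 14) (.e (nat_lit 491584) (nat_lit 28) .nil)))) .nil))) (.nd (nat_lit 5) 
(.lf (nat_lit 103313) (.g (nat_lit 2381) (.e (nat_lit 3496) (nat_lit 218) (.e (nat_lit 704738) (nat_lit 11) (.e (nat_lit 16425) (nat_lit 7) (.e (nat_lit 409649) (nat_lit 18) (.e (nat_lit 303140) (nat_lit 10) .nil))))) .nil)) 
(.lf (nat_lit 103345) (.g (nat_lit 3263) (.e (nat_lit 3503) (nat_lit 218) (.e (nat_lit 704738) (nat_lit 11) (.e (nat_lit 16425) (nat_lit 7) (.e (nat_lit 409648) (nat_lit 18) (.e (nat_lit 303137) (nat_lit 10) .nil))))) .nil)))) (.nd (nat_lit 4) (.nd (nat_lit 5) 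
(.lf (nat_lit 103305) (.g (nat_lit 3488) (.e (nat_lit 3495) (nat_lit 218) (.e (nat_lit 704738) (nat_lit 11) (.e (nat_lit 16425) (nat_lit 7) (.e (nat_lit 409648) (nat_lit 18) (.e (nat_lit 303137) (nat_lit 10) (.e (nat_lit 434275) (nat_lit 39) (.e (nat_lit 663574) (nat_lit 9) (.e (nat_lit 7936) (nat_lit 157) .nil)))))))) (.g (nat_lit 4) .nil .nil))) 
(.lf (nat_lit 103337) (.g (nat_lit 3538) (.e (nat_lit 3500) (nat_lit 218) (.e (nat_lit 704738) (nat_lit 11) (.e (nat_lit 16425) (nat_lit 7) (.e (nat_lit 409648) (nat_lit 18) (.e (nat_lit 303137) (nat_lit 10) .nil))))) .nil))) (.nd (nat_lit 5) 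
(.lf (nat_lit 103321) (.g (nat_lit 3076) (.e (nat_lit 3498) (nat_lit 218) (.e (nat_lit 704738) (nat_lit 11) (.e (nat_lit 16425) (nat_lit 7) (.e (nat_lit 409617) (nat_lit 10) (.e (nat_lit 848) (nat_lit 73) (.e (nat_lit 761906) (nat_lit 16) (.e (nat_lit 172097) (nat_lit 9) (.e (nat_lit 426025) (nat_lit 0) .nil)))))))) (.g (nat_lit 4) .nil .nil))) 
(.lf (nat_lit 103353) (.g (nat_lit 2401) (.e (nat_lit 3516) (nat_lit 218) (.e (nat_lit 704736) (nat_lit 11) (.e (nat_lit 16425) (nat_lit 7) (.e (nat_lit 409648) (nat_lit 18) (.e (nat_lit 303137) (nat_lit 10) (.e (nat_lit 434275) (nat_lit 39) (.e (nat_lit 663574) (nat_lit 9) (.e (nat_lit 2441) (nat_lit 157) .nil)))))))) (.g (nat_lit 4) .nil .nil)))))) 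
(.nd (nat_lit 3) (.nd (nat_lit 4) (.nd (nat_lit 5) 
(.lf (nat_lit 103301) (.g (nat_lit 4746) (.e (nat_lit 3493) (nat_lit 218) (.e (nat_lit 704738) (nat_lit 11) (.e (nat_lit 16425) (nat_lit 7) (.e (nat_lit 409649) (nat_lit 18) (.e (nat_lit 303140) (nat_lit 10) (.e (nat_lit 434275) (nat_lit 39) (.e (nat_lit 663580) (nat_lit 9) (.e (nat_lit 7936) (nat_lit 157) .nil)))))))) (.g (nat_lit 7) .nil .nil))) 
(.lf (nat_lit 103333) (.g (nat_lit 2353) (.e (nat_lit 3499) (nat_lit 218) (.e (nat_lit 704738) (nat_lit 11) (.e (nat_lit 16425) (nat_lit 7) (.e (nat_lit 409649) (nat_lit 18) (.e (nat_lit 303140) (nat_lit 10) (.e (nat_lit 434275) (nat_lit 39) (.e (nat_lit 663576) (nat_lit 9) (.e (nat_lit 2425) (nat_lit 157) .nil)))))))) (.g (nat_lit 4) .nil .nil)))) (.nd (nat_lit 5) 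
(.lf (nat_lit 103317) (.g (nat_lit 1986) (.e (nat_lit 3498) (nat_lit 218) (.e (nat_lit 704737) (nat_lit 11) (.e (nat_lit 16425) (nat_lit 7) (.e (nat_lit 409649) (nat_lit 18) (.e (nat_lit 303140) (nat_lit 10) (.e (nat_lit 434275) (nat_lit 39) (.e (nat_lit 663574) (nat_lit 9) (.e (nat_lit 2417) (nat_lit 157) .nil)))))))) (.g (nat_lit 4) .nil .nil))) 
(.lf (nat_lit 103349) (.g (nat_lit 3553) (.e (nat_lit 3503) (nat_lit 218) (.e (nat_lit 704738) (nat_lit 11) (.e (nat_lit 16425) (nat_lit 7) (.e (nat_lit 409649) (nat_lit 18) (.e (nat_lit 303140) (nat_lit 10) (.e (nat_lit 434275) (nat_lit 39) (.e (nat_lit 663580) (nat_lit 9) (.e (nat_lit 7936) (nat_lit 157) .nil)))))))) (.g (nat_lit 6) .nil .nil))))) (.nd (nat_lit 4) (.nd (nat_lit 5) 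
(.lf (nat_lit 103309) (.g (nat_lit 4824) (.e (nat_lit 3495) (nat_lit 218) (.e (nat_lit 704738) (nat_lit 11) (.e (nat_lit 16425) (nat_lit 7) (.e (nat_lit 409649) (nat_lit 18) (.e (nat_lit 303140) (nat_lit 10) (.e (nat_lit 434275) (nat_lit 39) (.e (nat_lit 663580) (nat_lit 9) (.e (nat_lit 7936) (nat_lit 157) .nil)))))))) (.g (nat_lit 7) .nil .nil))) 
(.lf (nat_lit 103341) (.g (nat_lit 4842) (.e (nat_lit 3500) (nat_lit 218) (.e (nat_lit 704738) (nat_lit 11) (.e (nat_lit 16425) (nat_lit 7) (.e (nat_lit 409649) (nat_lit 18) (.e (nat_lit 303140) (nat_lit 10) (.e (nat_lit 434275) (nat_lit 39) (.e (nat_lit 663580) (nat_lit 9) (.e (nat_lit 7936) (nat_lit 157) .nil)))))))) (.g (nat_lit 7) .nil .nil)))) (.nd (nat_lit 5) 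
(.lf (nat_lit 103325) (.g (nat_lit 3190) (.e (nat_lit 3498) (nat_lit 218) (.e (nat_lit 704738) (nat_lit 11) (.e (nat_lit 16425) (nat_lit 7) (.e (nat_lit 409649) (nat_lit 18) (.e (nat_lit 303140) (nat_lit 10) (.e (nat_lit 434275) (nat_lit 39) (.e (nat_lit 663579) (nat_lit 9) (.e (nat_lit 2438) (nat_lit 157) .nil)))))))) (.g (nat_lit 6) .nil .nil))) 
(.lf (nat_lit 103357) (.g (nat_lit 3972) (.e (nat_lit 3516) (nat_lit 218) (.e (nat_lit 704736) (nat_lit 11) (.e (nat_lit 16425) (nat_lit 7) (.e (nat_lit 409649) (nat_lit 18) (.e (nat_lit 303140) (nat_lit 10) (.e (nat_lit 434275) (nat_lit 39) (.e (nat_lit 663580) (nat_lit 9) (.e (nat_lit 2449) (nat_lit 157) .nil)))))))) (.g (nat_lit 7) .nil .nil))))))) 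
(.nd (nat_lit 2) (.nd (nat_lit 3) (.nd (nat_lit 4) (.nd (nat_lit 5) 
(.lf (nat_lit 103299) (.g (nat_lit 2463) (.e (nat_lit 3493) (nat_lit 218) (.e (nat_lit 704738) (nat_lit 11) (.e (nat_lit 16425) (nat_lit 7) (.e (nat_lit 409649) (nat_lit 18) .nil)))) .nil)) 
(.lf (nat_lit 103331) (.g (nat_lit 3043) (.e (nat_lit 3499) (nat_lit 218) (.e (nat_lit 704738) (nat_lit 11) (.e (nat_lit 16425) (nat_lit 7) (.e (nat_lit 409648) (nat_lit 18) (.e (nat_lit 303137) (nat_lit 10) .nil))))) .nil))) (.nd (nat_lit 5) 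
(.lf (nat_lit 103315) (.g (nat_lit 2236) (.e (nat_lit 3498) (nat_lit 218) (.e (nat_lit 704736) (nat_lit 11) (.e (nat_lit 16425) (nat_lit 7) (.e (nat_lit 409648) (nat_lit 18) (.e (nat_lit 303137) (nat_lit 10) (.e (nat_lit 434275) (nat_lit 39) (.e (nat_lit 663574) (nat_lit 9) (.e (nat_lit 2417) (nat_lit 157) .nil)))))))) (.g (nat_lit 4) .nil .nil))) 
(.lf (nat_lit 103347) (.g (nat_lit 3551) (.e (nat_lit 3503) (nat_lit 218) (.e (nat_lit 704738) (nat_lit 11) (.e (nat_lit 16425) (nat_lit 7) (.e (nat_lit 409649) (nat_lit 18) (.e (nat_lit 303140) (nat_lit 10) (.e (nat_lit 434275) (nat_lit 39) (.e (nat_lit 663579) (nat_lit 9) (.e (nat_lit 2424) (nat_lit 157) .nil)))))))) (.g (nat_lit 6) .nil .nil))))) (.nd (nat_lit 4) (.nd (nat_lit 5) 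
(.lf (nat_lit 103307) (.g (nat_lit 2258) (.e (nat_lit 3495) (nat_lit 218) (.e (nat_lit 704738) (nat_lit 11) (.e (nat_lit 16425) (nat_lit 7) (.e (nat_lit 409649) (nat_lit 18) .nil)))) .nil)) 
(.lf (nat_lit 103339) (.g (nat_lit 4550) (.e (nat_lit 3500) (nat_lit 218) (.e (nat_lit 704738) (nat_lit 11) (.e (nat_lit 16425) (nat_lit 7) (.e (nat_lit 409649) (nat_lit 18) (.e (nat_lit 303140) (nat_lit 10) (.e (nat_lit 434275) (nat_lit 39) (.e (nat_lit 663574) (nat_lit 9) (.e (nat_lit 2418) (nat_lit 157) .nil)))))))) (.g (nat_lit 6) .nil .nil)))) (.nd (nat_lit 5) 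
(.lf (nat_lit 103323) (.g (nat_lit 3097) (.e (nat_lit 3498) (nat_lit 218) (.e (nat_lit 704738) (nat_lit 11) (.e (nat_lit 16425) (nat_lit 7) (.e (nat_lit 409648) (nat_lit 18) (.e (nat_lit 303137) (nat_lit 10) (.e (nat_lit 434275) (nat_lit 39) (.e (nat_lit 663579) (nat_lit 9) (.e (nat_lit 2438) (nat_lit 157) .nil)))))))) (.g (nat_lit 5) .nil .nil))) 
(.lf (nat_lit 103355) (.g (nat_lit 2745) (.e (nat_lit 3516) (nat_lit 218) (.e (nat_lit 704736) (nat_lit 11) (.e (nat_lit 16425) (nat_lit 7) (.e (nat_lit 409649) (nat_lit 18) (.e (nat_lit 303140) (nat_lit 10) (.e (nat_lit 434275) (nat_lit 39) (.e (nat_lit 663574) (nat_lit 9) (.e (nat_lit 2441) (nat_lit 157) .nil)))))))) (.g (nat_lit 5) .nil .nil)))))) 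
(.nd (nat_lit 3) (.nd (nat_lit 4) (.nd (nat_lit 5) 
(.lf (nat_lit 103303) (.g (nat_lit 2900) (.e (nat_lit 3494) (nat_lit 218) (.e (nat_lit 704738) (nat_lit 11) (.e (nat_lit 16425) (nat_lit 7) (.e (nat_lit 409649) (nat_lit 18) (.e (nat_lit 303140) (nat_lit 10) .nil))))) .nil)) 
(.lf (nat_lit 103335) (.g (nat_lit 3717) (.e (nat_lit 3499) (nat_lit 218) (.e (nat_lit 704738) (nat_lit 11) (.e (nat_lit 16425) (nat_lit 7) (.e (nat_lit 409649) (nat_lit 18) (.e (nat_lit 303140) (nat_lit 10) (.e (nat_lit 434275) (nat_lit 39) (.e (nat_lit 663579) (nat_lit 9) (.e (nat_lit 2425) (nat_lit 157) .nil)))))))) (.g (nat_lit 6) .nil .nil)))) (.nd (nat_lit 5) 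
(.lf (nat_lit 103319) (.g (nat_lit 2558) (.e (nat_lit 3498) (nat_lit 218) (.e (nat_lit 704737) (nat_lit 11) (.e (nat_lit 16448) (nat_lit 10) (.e (nat_lit 434289) (nat_lit 43) .nil)))) .nil)) 
(.lf (nat_lit 103351) (.g (nat_lit 2623) (.e (nat_lit 3513) (nat_lit 218) (.e (nat_lit 704734) (nat_lit 11) (.e (nat_lit 16416) (nat_lit 3) (.e (nat_lit 204829) (nat_lit 18) (.e (nat_lit 57735) (nat_lit 183) .nil))))) .nil)))) (.nd (nat_lit 4) (.nd (nat_lit 5) 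
(.lf (nat_lit 103311) (.g (nat_lit 3465) (.e (nat_lit 3496) (nat_lit 218) (.e (nat_lit 704738) (nat_lit 11) (.e (nat_lit 16425) (nat_lit 7) (.e (nat_lit 409648) (nat_lit 18) (.e (nat_lit 303137) (nat_lit 10) (.e (nat_lit 434275) (nat_lit 39) (.e (nat_lit 663574) (nat_lit 9) (.e (nat_lit 2418) (nat_lit 157) .nil)))))))) (.g (nat_lit 4) .nil .nil))) 
(.lf (nat_lit 103343) (.g (nat_lit 3086) (.e (nat_lit 3503) (nat_lit 218) (.e (nat_lit 704738) (nat_lit 11) (.e (nat_lit 16425) (nat_lit 7) (.e (nat_lit 409617) (nat_lit 10) (.e (nat_lit 848) (nat_lit 73) .nil))))) .nil))) (.nd (nat_lit 5) 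
(.lf (nat_lit 103327) (.g (nat_lit 1586) (.e (nat_lit 3499) (nat_lit 218) (.e (nat_lit 704736) (nat_lit 11) (.e (nat_lit 16473) (nat_lit 14) (.e (nat_lit 491584) (nat_lit 28) .nil)))) .nil)) 
(.lf (nat_lit 103359) (.g (nat_lit 2147) (.e (nat_lit 3521) (nat_lit 218) (.e (nat_lit 704736) (nat_lit 11) (.e (nat_lit 16425) (nat_lit 7) (.e (nat_lit 409648) (nat_lit 18) (.e (nat_lit 303137) (nat_lit 10) .nil))))) .nil))))))))

noncomputable def tv1410 : DT := (.nd (nat_lit 0) (.nd (nat_lit 1) (.nd (nat_lit 2) (.nd (nat_lit 3) (.nd (nat_lit 4) (.nd (nat_lit 5) 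
(.lf (nat_lit 103360) (.g (nat_lit 3703) (.e (nat_lit 3521) (nat_lit 218) (.e (nat_lit 704736) (nat_lit 11) (.e (nat_lit 16425) (nat_lit 7) (.e (nat_lit 409649) (nat_lit 18) (.e (nat_lit 303140) (nat_lit 10) (.e (nat_lit 434275) (nat_lit 39) (.e (nat_lit 663580) (nat_lit 9) (.e (nat_lit 2449) (nat_lit 157) .nil)))))))) (.g (nat_lit 7) .nil .nil))) 
(.lf (nat_lit 103392) (.g (nat_lit 3213) (.e (nat_lit 3535) (nat_lit 218) (.e (nat_lit 704738) (nat_lit 11) (.e (nat_lit 16425) (nat_lit 7) (.e (nat_lit 409648) (nat_lit 18) (.e (nat_lit 303137) (nat_lit 10) (.e (nat_lit 434275) (nat_lit 39) (.e (nat_lit 663580) (nat_lit 9) (.e (nat_lit 2480) (nat_lit 157) .nil)))))))) (.g (nat_lit 5) .nil .nil)))) (.nd (nat_lit 5) 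
(.lf (nat_lit 103376) (.g (nat_lit 5065) (.e (nat_lit 3525) (nat_lit 218) (.e (nat_lit 704738) (nat_lit 11) (.e (nat_lit 16425) (nat_lit 7) (.e (nat_lit 409649) (nat_lit 18) (.e (nat_lit 303140) (nat_lit 10) (.e (nat_lit 434275) (nat_lit 39) (.e (nat_lit 663580) (nat_lit 9) (.e (nat_lit 7936) (nat_lit 157) .nil)))))))) (.g (nat_lit 7) .nil .nil))) 
(.lf (nat_lit 103408) (.g (nat_lit 519) (.e (nat_lit 3537) (nat_lit 218) (.e (nat_lit 704737) (nat_lit 11) (.e (nat_lit 16392) (nat_lit 0) .nil))) .nil)))) (.nd (nat_lit 4) (.nd (nat_lit 5) 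
(.lf (nat_lit 103368) (.g (nat_lit 2185) (.e (nat_lit 3521) (nat_lit 218) (.e (nat_lit 704738) (nat_lit 11) (.e (nat_lit 16425) (nat_lit 7) (.e (nat_lit 409649) (nat_lit 18) (.e (nat_lit 303140) (nat_lit 10) .nil))))) .nil)) 
(.lf (nat_lit 103400) (.g (nat_lit 4364) (.e (nat_lit 3535) (nat_lit 218) (.e (nat_lit 704738) (nat_lit 11) (.e (nat_lit 16425) (nat_lit 7) (.e (nat_lit 409649) (nat_lit 18) (.e (nat_lit 303140) (nat_lit 10) (.e (nat_lit 434275) (nat_lit 39) (.e (nat_lit 663574) (nat_lit 9) (.e (nat_lit 2461) (nat_lit 157) .nil)))))))) (.g (nat_lit 7) .nil .nil)))) (.nd (nat_lit 5) 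
(.lf (nat_lit 103384) (.g (nat_lit 2605) (.e (nat_lit 3535) (nat_lit 218) (.e (nat_lit 704738) (nat_lit 11) (.e (nat_lit 16425) (nat_lit 7) (.e (nat_lit 409617) (nat_lit 10) (.e (nat_lit 848) (nat_lit 73) .nil))))) .nil)) 
(.lf (nat_lit 103416) (.g (nat_lit 2829) (.e (nat_lit 3537) (nat_lit 218) (.e (nat_lit 704738) (nat_lit 11) (.e (nat_lit 16425) (nat_lit 7) (.e (nat_lit 409648) (nat_lit 18) (.e (nat_lit 303137) (nat_lit 10) (.e (nat_lit 434200) (nat_lit 18) (.e (nat_lit 5971) (nat_lit 324) (.e (nat_lit 163850) (nat_lit 0) .nil)))))))) (.g (nat_lit 4) .nil .nil)))))) 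
(.nd (nat_lit 3) (.nd (nat_lit 4) (.nd (nat_lit 5) 
(.lf (nat_lit 103364) (.g (nat_lit 3756) (.e (nat_lit 3521) (nat_lit 218) (.e (nat_lit 704737) (nat_lit 11) (.e (nat_lit 16473) (nat_lit 14) (.e (nat_lit 491563) (nat_lit 12) (.e (nat_lit 385109) (nat_lit 51) .nil))))) .nil)) 
(.lf (nat_lit 103396) (.g (nat_lit 3841) (.e (nat_lit 3535) (nat_lit 218) (.e (nat_lit 704738) (nat_lit 11) (.e (nat_lit 16425) (nat_lit 7) (.e (nat_lit 409649) (nat_lit 18) (.e (nat_lit 303140) (nat_lit 10) (.e (nat_lit 434275) (nat_lit 39) (.e (nat_lit 663574) (nat_lit 9) (.e (nat_lit 2417) (nat_lit 157) .nil)))))))) (.g (nat_lit 7) .nil .nil)))) (.nd (nat_lit 5) 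
(.lf (nat_lit 103380) (.g (nat_lit 2479) (.e (nat_lit 3527) (nat_lit 218) (.e (nat_lit 704741) (nat_lit 11) (.e (nat_lit 16412) (nat_lit 2) (.e (nat_lit 196666) (nat_lit 13) (.e (nat_lit 65610) (nat_lit 10) (.e (nat_lit 344129) (nat_lit 26) (.e (nat_lit 557074) (nat_lit 9) (.e (nat_lit 2515) (nat_lit 157) .nil)))))))) (.g (nat_lit 5) .nil .nil))) 
(.lf (nat_lit 103412) (.g (nat_lit 2080) (.e (nat_lit 3537) (nat_lit 218) (.e (nat_lit 704738) (nat_lit 11) (.e (nat_lit 16425) (nat_lit 7) (.e (nat_lit 409648) (nat_lit 18) (.e (nat_lit 303136) (nat_lit 10) (.e (nat_lit 434206) (nat_lit 18) (.e (nat_lit 5970) (nat_lit 324) (.e (nat_lit 163850) (nat_lit 0) .nil)))))))) (.g (nat_lit 4) .nil .nil))))) (.nd (nat_lit 4) (.nd (nat_lit 5) 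
(.lf (nat_lit 103372) (.g (nat_lit 3436) (.e (nat_lit 3525) (nat_lit 218) (.e (nat_lit 704738) (nat_lit 11) (.e (nat_lit 16425) (nat_lit 7) (.e (nat_lit 409648) (nat_lit 18) (.e (nat_lit 303137) (nat_lit 10) .nil))))) .nil)) 
(.lf (nat_lit 103404) (.g (nat_lit 3045) (.e (nat_lit 3536) (nat_lit 218) (.e (nat_lit 704738) (nat_lit 11) (.e (nat_lit 16425) (nat_lit 7) (.e (nat_lit 409648) (nat_lit 18) (.e (nat_lit 303137) (nat_lit 10) .nil))))) .nil))) (.nd (nat_lit 5) 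
(.lf (nat_lit 103388) (.g (nat_lit 3173) (.e (nat_lit 3535) (nat_lit 218) (.e (nat_lit 704738) (nat_lit 11) (.e (nat_lit 16425) (nat_lit 7) (.e (nat_lit 409648) (nat_lit 18) (.e (nat_lit 303137) (nat_lit 10) (.e (nat_lit 434275) (nat_lit 39) (.e (nat_lit 663574) (nat_lit 9) (.e (nat_lit 2461) (nat_lit 157) .nil)))))))) (.g (nat_lit 5) .nil .nil))) 
(.lf (nat_lit 103420) (.g (nat_lit 2683) (.e (nat_lit 3537) (nat_lit 218) (.e (nat_lit 704738) (nat_lit 11) (.e (nat_lit 16425) (nat_lit 7) (.e (nat_lit 409648) (nat_lit 18) (.e (nat_lit 303137) (nat_lit 10) (.e (nat_lit 434275) (nat_lit 39) (.e (nat_lit 663580) (nat_lit 9) (.e (nat_lit 2481) (nat_lit 157) .nil)))))))) (.g (nat_lit 4) .nil .nil))))))) 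
(.nd (nat_lit 2) (.nd (nat_lit 3) (.nd (nat_lit 4) (.nd (nat_lit 5) 
(.lf (nat_lit 103362) (.g (nat_lit 2400) (.e (nat_lit 3521) (nat_lit 218) (.e (nat_lit 704737) (nat_lit 11) (.e (nat_lit 16470) (nat_lit 14) (.e (nat_lit 491566) (nat_lit 12) .nil)))) .nil)) 
(.lf (nat_lit 103394) (.g (nat_lit 2673) (.e (nat_lit 3535) (nat_lit 218) (.e (nat_lit 704738) (nat_lit 11) (.e (nat_lit 16425) (nat_lit 7) (.e (nat_lit 409649) (nat_lit 18) (.e (nat_lit 303140) (nat_lit 10) (.e (nat_lit 434202) (nat_lit 18) (.e (nat_lit 5964) (nat_lit 324) (.e (nat_lit 163850) (nat_lit 0) .nil)))))))) (.g (nat_lit 5) .nil .nil)))) (.nd (nat_lit 5) 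
(.lf (nat_lit 103378) (.g (nat_lit 1838) (.e (nat_lit 3527) (nat_lit 218) (.e (nat_lit 704597) (nat_lit 6) (.e (nat_lit 188452) (nat_lit 23) (.e (nat_lit 204817) (nat_lit 17) (.e (nat_lit 7936) (nat_lit 149) (.e (nat_lit 761906) (nat_lit 16) (.e (nat_lit 172052) (nat_lit 0) .nil))))))) (.g (nat_lit 4) .nil .nil))) 
(.lf (nat_lit 103410) (.g (nat_lit 1977) (.e (nat_lit 3537) (nat_lit 218) (.e (nat_lit 704738) (nat_lit 11) (.e (nat_lit 16392) (nat_lit 0) (.e (nat_lit 3545) (nat_lit 219) .nil)))) .nil)))) (.nd (nat_lit 4) (.nd (nat_lit 5) 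
(.lf (nat_lit 103370) (.g (nat_lit 4344) (.e (nat_lit 3521) (nat_lit 218) (.e (nat_lit 704738) (nat_lit 11) (.e (nat_lit 16425) (nat_lit 7) (.e (nat_lit 409649) (nat_lit 18) (.e (nat_lit 303140) (nat_lit 10) (.e (nat_lit 434275) (nat_lit 39) (.e (nat_lit 663580) (nat_lit 9) (.e (nat_lit 2442) (nat_lit 157) .nil)))))))) (.g (nat_lit 7) .nil .nil))) 
(.lf (nat_lit 103402) (.g (nat_lit 2860) (.e (nat_lit 3535) (nat_lit 218) (.e (nat_lit 704738) (nat_lit 11) (.e (nat_lit 16425) (nat_lit 7) (.e (nat_lit 409649) (nat_lit 18) (.e (nat_lit 303140) (nat_lit 10) (.e (nat_lit 434275) (nat_lit 39) (.e (nat_lit 663580) (nat_lit 9) (.e (nat_lit 7936) (nat_lit 157) .nil)))))))) (.g (nat_lit 6) .nil .nil)))) (.nd (nat_lit 5) 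
(.lf (nat_lit 103386) (.g (nat_lit 2584) (.e (nat_lit 3535) (nat_lit 218) (.e (nat_lit 704738) (nat_lit 11) (.e (nat_lit 16425) (nat_lit 7) (.e (nat_lit 409648) (nat_lit 18) (.e (nat_lit 303137) (nat_lit 10) (.e (nat_lit 434275) (nat_lit 39) (.e (nat_lit 663574) (nat_lit 9) (.e (nat_lit 2419) (nat_lit 157) .nil)))))))) (.g (nat_lit 4) .nil .nil))) 
(.lf (nat_lit 103418) (.g (nat_lit 2517) (.e (nat_lit 3537) (nat_lit 218) (.e (nat_lit 704738) (nat_lit 11) (.e (nat_lit 16425) (nat_lit 7) (.e (nat_lit 409648) (nat_lit 18) (.e (nat_lit 303137) (nat_lit 10) (.e (nat_lit 434275) (nat_lit 39) (.e (nat_lit 663574) (nat_lit 9) (.e (nat_lit 2457) (nat_lit 157) .nil)))))))) (.g (nat_lit 4) .nil .nil)))))) 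
(.nd (nat_lit 3) (.nd (nat_lit 4) (.nd (nat_lit 5) 
(.lf (nat_lit 103366) (.g (nat_lit 2927) (.e (nat_lit 3521) (nat_lit 218) (.e (nat_lit 704738) (nat_lit 11) (.e (nat_lit 16425) (nat_lit 7) (.e (nat_lit 409648) (nat_lit 18) (.e (nat_lit 303137) (nat_lit 10) (.e (nat_lit 434275) (nat_lit 39) (.e (nat_lit 663580) (nat_lit 9) (.e (nat_lit 2446) (nat_lit 157) .nil)))))))) (.g (nat_lit 4) .nil .nil))) 
(.lf (nat_lit 103398) (.g (nat_lit 3053) (.e (nat_lit 3535) (nat_lit 218) (.e (nat_lit 704738) (nat_lit 11) (.e (nat_lit 16425) (nat_lit 7) (.e (nat_lit 409649) (nat_lit 18) (.e (nat_lit 303140) (nat_lit 10) (.e (nat_lit 434275) (nat_lit 39) (.e (nat_lit 663574) (nat_lit 9) (.e (nat_lit 2436) (nat_lit 157) .nil)))))))) (.g (nat_lit 6) .nil .nil)))) (.nd (nat_lit 5) 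
(.lf (nat_lit 103382) (.g (nat_lit 2319) (.e (nat_lit 3529) (nat_lit 218) (.e (nat_lit 704741) (nat_lit 11) (.e (nat_lit 16468) (nat_lit 13) (.e (nat_lit 483372) (nat_lit 21) (.e (nat_lit 319511) (nat_lit 10) (.e (nat_lit 5664) (nat_lit 312) (.e (nat_lit 7936) (nat_lit 157) .nil))))))) (.g (nat_lit 6) .nil .nil))) 
(.lf (nat_lit 103414) (.g (nat_lit 2672) (.e (nat_lit 3537) (nat_lit 218) (.e (nat_lit 704738) (nat_lit 11) (.e (nat_lit 16425) (nat_lit 7) (.e (nat_lit 409648) (nat_lit 18) (.e (nat_lit 303137) (nat_lit 10) (.e (nat_lit 434200) (nat_lit 18) (.e (nat_lit 5964) (nat_lit 324) (.e (nat_lit 163850) (nat_lit 0) .nil)))))))) (.g (nat_lit 4) .nil .nil))))) (.nd (nat_lit 4) (.nd (nat_lit 5) 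
(.lf (nat_lit 103374) (.g (nat_lit 2801) (.e (nat_lit 3525) (nat_lit 218) (.e (nat_lit 704738) (nat_lit 11) (.e (nat_lit 16425) (nat_lit 7) (.e (nat_lit 409649) (nat_lit 18) (.e (nat_lit 303140) (nat_lit 10) .nil))))) .nil)) 
(.lf (nat_lit 103406) (.g (nat_lit 2395) (.e (nat_lit 3536) (nat_lit 218) (.e (nat_lit 704738) (nat_lit 11) (.e (nat_lit 16425) (nat_lit 7) (.e (nat_lit 409649) (nat_lit 18) (.e (nat_lit 303140) (nat_lit 10) (.e (nat_lit 434275) (nat_lit 39) (.e (nat_lit 663574) (nat_lit 9) (.e (nat_lit 2436) (nat_lit 157) .nil)))))))) (.g (nat_lit 4) .nil .nil)))) (.nd (nat_lit 5) 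
(.lf (nat_lit 103390) (.g (nat_lit 2785) (.e (nat_lit 3535) (nat_lit 218) (.e (nat_lit 704738) (nat_lit 11) (.e (nat_lit 16425) (nat_lit 7) (.e (nat_lit 409648) (nat_lit 18) (.e (nat_lit 303137) (nat_lit 10) (.e (nat_lit 434275) (nat_lit 39) (.e (nat_lit 663574) (nat_lit 9) (.e (nat_lit 2482) (nat_lit 157) .nil)))))))) (.g (nat_lit 4) .nil .nil))) 
(.lf (nat_lit 103422) (.g (nat_lit 1406) (.e (nat_lit 3537) (nat_lit 218) (.e (nat_lit 704738) (nat_lit 11) (.e (nat_lit 16425) (nat_lit 7) (.e (nat_lit 409649) (nat_lit 18) (.e (nat_lit 303140) (nat_lit 10) .nil))))) .nil))))))) (.nd (nat_lit 1) (.nd (nat_lit 2) (.nd (nat_lit 3) (.nd (nat_lit 4) (.nd (nat_lit 5) 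
(.lf (nat_lit 103361) (.g (nat_lit 3532) (.e (nat_lit 3521) (nat_lit 218) (.e (nat_lit 704736) (nat_lit 11) (.e (nat_lit 16473) (nat_lit 14) (.e (nat_lit 491563) (nat_lit 12) (.e (nat_lit 385107) (nat_lit 51) .nil))))) .nil)) 
(.lf (nat_lit 103393) (.g (nat_lit 2677) (.e (nat_lit 3535) (nat_lit 218) (.e (nat_lit 704738) (nat_lit 11) (.e (nat_lit 16425) (nat_lit 7) (.e (nat_lit 409648) (nat_lit 18) (.e (nat_lit 303137) (nat_lit 10) (.e (nat_lit 434275) (nat_lit 39) (.e (nat_lit 663580) (nat_lit 9) (.e (nat_lit 2515) (nat_lit 157) .nil)))))))) (.g (nat_lit 4) .nil .nil)))) (.nd (nat_lit 5) 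
(.lf (nat_lit 103377) (.g (nat_lit 1041) (.e (nat_lit 3527) (nat_lit 218) (.e (nat_lit 704597) (nat_lit 6) (.e (nat_lit 188452) (nat_lit 23) (.e (nat_lit 204817) (nat_lit 17) .nil)))) .nil)) 
(.lf (nat_lit 103409) (.g (nat_lit 2201) (.e (nat_lit 3537) (nat_lit 218) (.e (nat_lit 704738) (nat_lit 11) (.e (nat_lit 16392) (nat_lit 0) (.e (nat_lit 3543) (nat_lit 219) .nil)))) .nil)))) (.nd (nat_lit 4) (.nd (nat_lit 5) 
(.lf (nat_lit 103369) (.g (nat_lit 3286) (.e (nat_lit 3521) (nat_lit 218) (.e (nat_lit 704738) (nat_lit 11) (.e (nat_lit 16425) (nat_lit 7) (.e (nat_lit 409649) (nat_lit 18) (.e (nat_lit 303140) (nat_lit 10) (.e (nat_lit 434275) (nat_lit 39) (.e (nat_lit 663574) (nat_lit 9) (.e (nat_lit 2441) (nat_lit 157) .nil)))))))) (.g (nat_lit 5) .nil .nil))) 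
(.lf (nat_lit 103401) (.g (nat_lit 1773) (.e (nat_lit 3535) (nat_lit 218) (.e (nat_lit 704738) (nat_lit 11) (.e (nat_lit 16425) (nat_lit 7) (.e (nat_lit 409649) (nat_lit 18) (.e (nat_lit 303140) (nat_lit 10) (.e (nat_lit 434275) (nat_lit 39) (.e (nat_lit 663579) (nat_lit 9) (.e (nat_lit 2481) (nat_lit 157) .nil)))))))) (.g (nat_lit 4) .nil .nil)))) (.nd (nat_lit 5) 
(.lf (nat_lit 103385) (.g (nat_lit 2581) (.e (nat_lit 3535) (nat_lit 218) (.e (nat_lit 704738) (nat_lit 11) (.e (nat_lit 16425) (nat_lit 7) (.e (nat_lit 409648) (nat_lit 18) (.e (nat_lit 303137) (nat_lit 10) .nil))))) .nil)) 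
(.lf (nat_lit 103417) (.g (nat_lit 2556) (.e (nat_lit 3537) (nat_lit 218) (.e (nat_lit 704738) (nat_lit 11) (.e (nat_lit 16425) (nat_lit 7) (.e (nat_lit 409648) (nat_lit 18) (.e (nat_lit 303137) (nat_lit 10) (.e (nat_lit 434202) (nat_lit 18) (.e (nat_lit 5964) (nat_lit 324) (.e (nat_lit 163850) (nat_lit 0) .nil)))))))) (.g (nat_lit 4) .nil .nil)))))) 
(.nd (nat_lit 3) (.nd (nat_lit 4) (.nd (nat_lit 5) 
(.lf (nat_lit 103365) (.g (nat_lit 2823) (.e (nat_lit 3521) (nat_lit 218) (.e (nat_lit 704738) (nat_lit 11) (.e (nat_lit 16425) (nat_lit 7) (.e (nat_lit 409648) (nat_lit 18) (.e (nat_lit 303137) (nat_lit 10) .nil))))) .nil)) 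
(.lf (nat_lit 103397) (.g (nat_lit 3074) (.e (nat_lit 3535) (nat_lit 218) (.e (nat_lit 704738) (nat_lit 11) (.e (nat_lit 16425) (nat_lit 7) (.e (nat_lit 409649) (nat_lit 18) (.e (nat_lit 303140) (nat_lit 10) (.e (nat_lit 434275) (nat_lit 39) (.e (nat_lit 663574) (nat_lit 9) (.e (nat_lit 2419) (nat_lit 157) .nil)))))))) (.g (nat_lit 6) .nil .nil)))) (.nd (nat_lit 5) 
(.lf (nat_lit 103381) (.g (nat_lit 1748) (.e (nat_lit 3528) (nat_lit 218) (.e (nat_lit 704597) (nat_lit 6) (.e (nat_lit 188452) (nat_lit 23) (.e (nat_lit 204817) (nat_lit 17) (.e (nat_lit 7936) (nat_lit 149) .nil))))) .nil)) 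
(.lf (nat_lit 103413) (.g (nat_lit 2301) (.e (nat_lit 3537) (nat_lit 218) (.e (nat_lit 704738) (nat_lit 11) (.e (nat_lit 16425) (nat_lit 7) (.e (nat_lit 409648) (nat_lit 18) (.e (nat_lit 303137) (nat_lit 10) .nil))))) .nil)))) (.nd (nat_lit 4) (.nd (nat_lit 5) 
(.lf (nat_lit 103373) (.g (nat_lit 3666) (.e (nat_lit 3525) (nat_lit 218) (.e (nat_lit 704738) (nat_lit 11) (.e (nat_lit 16425) (nat_lit 7) (.e (nat_lit 409648) (nat_lit 18) (.e (nat_lit 303137) (nat_lit 10) (.e (nat_lit 434275) (nat_lit 39) (.e (nat_lit 663580) (nat_lit 9) (.e (nat_lit 7936) (nat_lit 157) .nil)))))))) (.g (nat_lit 4) .nil .nil))) 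
(.lf (nat_lit 103405) (.g (nat_lit 2335) (.e (nat_lit 3536) (nat_lit 218) (.e (nat_lit 704738) (nat_lit 11) (.e (nat_lit 16425) (nat_lit 7) (.e (nat_lit 409649) (nat_lit 18) (.e (nat_lit 303140) (nat_lit 10) .nil))))) .nil))) (.nd (nat_lit 5) 
(.lf (nat_lit 103389) (.g (nat_lit 2721) (.e (nat_lit 3535) (nat_lit 218) (.e (nat_lit 704738) (nat_lit 11) (.e (nat_lit 16425) (nat_lit 7) (.e (nat_lit 409648) (nat_lit 18) (.e (nat_lit 303137) (nat_lit 10) (.e (nat_lit 434275) (nat_lit 39) (.e (nat_lit 663574) (nat_lit 9) (.e (nat_lit 2476) (nat_lit 157) .nil)))))))) (.g (nat_lit 4) .nil .nil))) 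
(.lf (nat_lit 103421) (.g (nat_lit 2411) (.e (nat_lit 3537) (nat_lit 218) (.e (nat_lit 704738) (nat_lit 11) (.e (nat_lit 16425) (nat_lit 7) (.e (nat_lit 409648) (nat_lit 18) (.e (nat_lit 303138) (nat_lit 10) (.e (nat_lit 434203) (nat_lit 18) (.e (nat_lit 5964) (nat_lit 324) (.e (nat_lit 163850) (nat_lit 0) .nil)))))))) (.g (nat_lit 4) .nil .nil))))))) 
(.nd (nat_lit 2) (.nd (nat_lit 3) (.nd (nat_lit 4) (.nd (nat_lit 5) 
(.lf (nat_lit 103363) (.g (nat_lit 3583) (.e (nat_lit 3521) (nat_lit 218) (.e (nat_lit 704737) (nat_lit 11) (.e (nat_lit 16473) (nat_lit 14) (.e (nat_lit 491562) (nat_lit 12) (.e (nat_lit 385109) (nat_lit 51) .nil))))) .nil)) 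
(.lf (nat_lit 103395) (.g (nat_lit 1855) (.e (nat_lit 3535) (nat_lit 218) (.e (nat_lit 704738) (nat_lit 11) (.e (nat_lit 16425) (nat_lit 7) (.e (nat_lit 409649) (nat_lit 18) (.e (nat_lit 303140) (nat_lit 10) (.e (nat_lit 434202) (nat_lit 18) (.e (nat_lit 5964) (nat_lit 324) (.e (nat_lit 163851) (nat_lit 0) .nil)))))))) (.g (nat_lit 4) .nil .nil)))) (.nd (nat_lit 5) 
(.lf (nat_lit 103379) (.g (nat_lit 1761) (.e (nat_lit 3527) (nat_lit 218) (.e (nat_lit 704597) (nat_lit 6) (.e (nat_lit 188452) (nat_lit 23) (.e (nat_lit 204817) (nat_lit 17) (.e (nat_lit 7936) (nat_lit 149) (.e (nat_lit 761906) (nat_lit 16) (.e (nat_lit 172055) (nat_lit 0) .nil))))))) (.g (nat_lit 4) .nil .nil))) 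
(.lf (nat_lit 103411) (.g (nat_lit 2059) (.e (nat_lit 3537) (nat_lit 218) (.e (nat_lit 704738) (nat_lit 11) (.e (nat_lit 16425) (nat_lit 7) (.e (nat_lit 409648) (nat_lit 18) (.e (nat_lit 303136) (nat_lit 10) .nil))))) .nil)))) (.nd (nat_lit 4) (.nd (nat_lit 5) 
(.lf (nat_lit 103371) (.g (nat_lit 2471) (.e (nat_lit 3521) (nat_lit 218) (.e (nat_lit 704738) (nat_lit 11) (.e (nat_lit 16425) (nat_lit 7) (.e (nat_lit 409649) (nat_lit 18) (.e (nat_lit 303140) (nat_lit 10) (.e (nat_lit 434275) (nat_lit 39) (.e (nat_lit 663580) (nat_lit 9) (.e (nat_lit 7936) (nat_lit 157) .nil)))))))) (.g (nat_lit 4) .nil .nil))) 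
(.lf (nat_lit 103403) (.g (nat_lit 2828) (.e (nat_lit 3536) (nat_lit 218) (.e (nat_lit 704738) (nat_lit 11) (.e (nat_lit 16425) (nat_lit 7) (.e (nat_lit 409617) (nat_lit 10) (.e (nat_lit 848) (nat_lit 73) .nil))))) .nil))) (.nd (nat_lit 5) 
(.lf (nat_lit 103387) (.g (nat_lit 3158) (.e (nat_lit 3535) (nat_lit 218) (.e (nat_lit 704738) (nat_lit 11) (.e (nat_lit 16425) (nat_lit 7) (.e (nat_lit 409648) (nat_lit 18) (.e (nat_lit 303137) (nat_lit 10) (.e (nat_lit 434275) (nat_lit 39) (.e (nat_lit 663574) (nat_lit 9) (.e (nat_lit 2457) (nat_lit 157) .nil)))))))) (.g (nat_lit 5) .nil .nil))) 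
(.lf (nat_lit 103419) (.g (nat_lit 3102) (.e (nat_lit 3537) (nat_lit 218) (.e (nat_lit 704738) (nat_lit 11) (.e (nat_lit 16425) (nat_lit 7) (.e (nat_lit 409648) (nat_lit 18) (.e (nat_lit 303137) (nat_lit 10) (.e (nat_lit 434275) (nat_lit 39) (.e (nat_lit 663580) (nat_lit 9) (.e (nat_lit 2480) (nat_lit 157) .nil)))))))) (.g (nat_lit 5) .nil .nil)))))) 
(.nd (nat_lit 3) (.nd (nat_lit 4) (.nd (nat_lit 5) 
(.lf (nat_lit 103367) (.g (nat_lit 3053) (.e (nat_lit 3521) (nat_lit 218) (.e (nat_lit 704738) (nat_lit 11) (.e (nat_lit 16425) (nat_lit 7) (.e (nat_lit 409648) (nat_lit 18) (.e (nat_lit 303137) (nat_lit 10) (.e (nat_lit 434275) (nat_lit 39) (.e (nat_lit 663580) (nat_lit 9) (.e (nat_lit 2448) (nat_lit 157) .nil)))))))) (.g (nat_lit 4) .nil .nil))) 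
(.lf (nat_lit 103399) (.g (nat_lit 4326) (.e (nat_lit 3535) (nat_lit 218) (.e (nat_lit 704738) (nat_lit 11) (.e (nat_lit 16425) (nat_lit 7) (.e (nat_lit 409649) (nat_lit 18) (.e (nat_lit 303140) (nat_lit 10) (.e (nat_lit 434275) (nat_lit 39) (.e (nat_lit 663574) (nat_lit 9) (.e (nat_lit 2457) (nat_lit 157) .nil)))))))) (.g (nat_lit 7) .nil .nil)))) (.nd (nat_lit 5) 
(.lf (nat_lit 103383) (.g (nat_lit 2347) (.e (nat_lit 3535) (nat_lit 218) (.e (nat_lit 704738) (nat_lit 11) (.e (nat_lit 16412) (nat_lit 2) (.e (nat_lit 196666) (nat_lit 13) (.e (nat_lit 65610) (nat_lit 10) .nil))))) .nil)) 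
(.lf (nat_lit 103415) (.g (nat_lit 2806) (.e (nat_lit 3537) (nat_lit 218) (.e (nat_lit 704738) (nat_lit 11) (.e (nat_lit 16425) (nat_lit 7) (.e (nat_lit 409648) (nat_lit 18) (.e (nat_lit 303137) (nat_lit 10) (.e (nat_lit 434200) (nat_lit 18) (.e (nat_lit 5970) (nat_lit 324) (.e (nat_lit 163850) (nat_lit 0) .nil)))))))) (.g (nat_lit 4) .nil .nil))))) (.nd (nat_lit 4) (.nd (nat_lit 5) 
(.lf (nat_lit 103375) (.g (nat_lit 4163) (.e (nat_lit 3525) (nat_lit 218) (.e (nat_lit 704738) (nat_lit 11) (.e (nat_lit 16425) (nat_lit 7) (.e (nat_lit 409649) (nat_lit 18) (.e (nat_lit 303140) (nat_lit 10) (.e (nat_lit 434275) (nat_lit 39) (.e (nat_lit 663574) (nat_lit 9) (.e (nat_lit 7936) (nat_lit 157) .nil)))))))) (.g (nat_lit 5) .nil .nil))) 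
(.lf (nat_lit 103407) (.g (nat_lit 3636) (.e (nat_lit 3536) (nat_lit 218) (.e (nat_lit 704738) (nat_lit 11) (.e (nat_lit 16425) (nat_lit 7) (.e (nat_lit 409649) (nat_lit 18) (.e (nat_lit 303140) (nat_lit 10) (.e (nat_lit 434275) (nat_lit 39) (.e (nat_lit 663580) (nat_lit 9) (.e (nat_lit 2416) (nat_lit 157) .nil)))))))) (.g (nat_lit 6) .nil .nil)))) (.nd (nat_lit 5) 
(.lf (nat_lit 103391) (.g (nat_lit 3242) (.e (nat_lit 3535) (nat_lit 218) (.e (nat_lit 704738) (nat_lit 11) (.e (nat_lit 16425) (nat_lit 7) (.e (nat_lit 409648) (nat_lit 18) (.e (nat_lit 303137) (nat_lit 10) (.e (nat_lit 434275) (nat_lit 39) (.e (nat_lit 663580) (nat_lit 9) (.e (nat_lit 2477) (nat_lit 157) .nil)))))))) (.g (nat_lit 5) .nil .nil))) 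
(.lf (nat_lit 103423) (.g (nat_lit 1905) (.e (nat_lit 3537) (nat_lit 218) (.e (nat_lit 704738) (nat_lit 11) (.e (nat_lit 16425) (nat_lit 7) (.e (nat_lit 409649) (nat_lit 18) (.e (nat_lit 303140) (nat_lit 10) (.e (nat_lit 434199) (nat_lit 18) (.e (nat_lit 5971) (nat_lit 324) (.e (nat_lit 163850) (nat_lit 0) .nil)))))))) (.g (nat_lit 4) .nil .nil)))))))))

noncomputable def tv1411 : DT := (.nd (nat_lit 0) (.nd (nat_lit 1) (.nd (nat_lit 2) (.nd (nat_lit 3) (.nd (nat_lit 4) (.nd (nat_lit 5) (.nd (nat_lit 6) 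
(.lf (nat_lit 103424) (.g (nat_lit 2658) (.e (nat_lit 3537) (nat_lit 218) (.e (nat_lit 704738) (nat_lit 11) (.e (nat_lit 16425) (nat_lit 7) (.e (nat_lit 409649) (nat_lit 18) (.e (nat_lit 303140) (nat_lit 10) (.e (nat_lit 434200) (nat_lit 18) (.e (nat_lit 5964) (nat_lit 324) (.e (nat_lit 163850) (nat_lit 0) .nil)))))))) (.g (nat_lit 5) .nil .nil))) 
(.lf (nat_lit 103488) (.g (nat_lit 2764) (.e (nat_lit 3543) (nat_lit 219) (.e (nat_lit 712755) (nat_lit 30) (.e (nat_lit 450588) (nat_lit 10) (.e (nat_lit 573475) (nat_lit 12) (.e (nat_lit 57500) (nat_lit 37) .nil))))) .nil))) (.nd (nat_lit 6) 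
(.lf (nat_lit 103456) (.g (nat_lit 2668) (.e (nat_lit 3540) (nat_lit 218) (.e (nat_lit 704736) (nat_lit 11) (.e (nat_lit 16425) (nat_lit 7) (.e (nat_lit 409649) (nat_lit 18) (.e (nat_lit 303140) (nat_lit 10) (.e (nat_lit 434275) (nat_lit 39) (.e (nat_lit 663580) (nat_lit 9) (.e (nat_lit 2416) (nat_lit 157) .nil)))))))) (.g (nat_lit 5) .nil .nil))) 
(.lf (nat_lit 103520) (.g (nat_lit 2612) (.e (nat_lit 3548) (nat_lit 219) (.e (nat_lit 712755) (nat_lit 30) (.e (nat_lit 450587) (nat_lit 10) (.e (nat_lit 573475) (nat_lit 12) .nil)))) .nil)))) (.nd (nat_lit 5) (.nd (nat_lit 6) 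
(.lf (nat_lit 103440) (.g (nat_lit 2706) (.e (nat_lit 3538) (nat_lit 218) (.e (nat_lit 704738) (nat_lit 11) (.e (nat_lit 16425) (nat_lit 7) (.e (nat_lit 409617) (nat_lit 10) (.e (nat_lit 848) (nat_lit 73) (.e (nat_lit 761905) (nat_lit 16) (.e (nat_lit 172094) (nat_lit 9) (.e (nat_lit 426007) (nat_lit 0) .nil)))))))) (.g (nat_lit 4) .nil .nil))) 
(.lf (nat_lit 103504) (.g (nat_lit 1079) (.e (nat_lit 3545) (nat_lit 219) (.e (nat_lit 712762) (nat_lit 35) (.e (nat_lit 491566) (nat_lit 12) (.e (nat_lit 392960) (nat_lit 24) .nil)))) .nil))) (.nd (nat_lit 6) 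
(.lf (nat_lit 103472) (.g (nat_lit 1956) (.e (nat_lit 3543) (nat_lit 219) (.e (nat_lit 712755) (nat_lit 30) (.e (nat_lit 450587) (nat_lit 10) (.e (nat_lit 573478) (nat_lit 12) (.e (nat_lit 57509) (nat_lit 39) .nil))))) .nil)) 
(.lf (nat_lit 103536) (.g (nat_lit 3153) (.e (nat_lit 3548) (nat_lit 219) (.e (nat_lit 712755) (nat_lit 30) (.e (nat_lit 450588) (nat_lit 10) (.e (nat_lit 573475) (nat_lit 12) (.e (nat_lit 57508) (nat_lit 39) .nil))))) .nil))))) (.nd (nat_lit 4) (.nd (nat_lit 5) (.nd (nat_lit 6) 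
(.lf (nat_lit 103432) (.g (nat_lit 2860) (.e (nat_lit 3537) (nat_lit 218) (.e (nat_lit 704738) (nat_lit 11) (.e (nat_lit 16425) (nat_lit 7) (.e (nat_lit 409649) (nat_lit 18) (.e (nat_lit 303140) (nat_lit 10) (.e (nat_lit 434214) (nat_lit 18) (.e (nat_lit 5969) (nat_lit 324) (.e (nat_lit 163850) (nat_lit 0) .nil)))))))) (.g (nat_lit 5) .nil .nil))) 
(.lf (nat_lit 103496) (.g (nat_lit 1861) (.e (nat_lit 3544) (nat_lit 219) (.e (nat_lit 712755) (nat_lit 30) (.e (nat_lit 450588) (nat_lit 10) (.e (nat_lit 573473) (nat_lit 12) .nil)))) .nil))) (.nd (nat_lit 6) 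
(.lf (nat_lit 103464) (.g (nat_lit 605) (.e (nat_lit 7936) (nat_lit 218) (.e (nat_lit 704595) (nat_lit 5) (.e (nat_lit 180227) (nat_lit 0) .nil))) .nil)) 
(.lf (nat_lit 103528) (.g (nat_lit 3025) (.e (nat_lit 3548) (nat_lit 219) (.e (nat_lit 712755) (nat_lit 30) (.e (nat_lit 450588) (nat_lit 10) (.e (nat_lit 573473) (nat_lit 12) (.e (nat_lit 57510) (nat_lit 39) .nil))))) .nil)))) (.nd (nat_lit 5) (.nd (nat_lit 6) 
(.lf (nat_lit 103448) (.g (nat_lit 4141) (.e (nat_lit 3538) (nat_lit 218) (.e (nat_lit 704738) (nat_lit 11) (.e (nat_lit 16425) (nat_lit 7) (.e (nat_lit 409649) (nat_lit 18) (.e (nat_lit 303140) (nat_lit 10) (.e (nat_lit 434275) (nat_lit 39) (.e (nat_lit 663580) (nat_lit 9) (.e (nat_lit 2416) (nat_lit 157) .nil)))))))) (.g (nat_lit 8) .nil .nil))) 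
(.lf (nat_lit 103512) (.g (nat_lit 1540) (.e (nat_lit 3546) (nat_lit 219) (.e (nat_lit 712753) (nat_lit 30) (.e (nat_lit 450586) (nat_lit 10) (.e (nat_lit 573477) (nat_lit 12) (.e (nat_lit 57511) (nat_lit 39) .nil))))) .nil))) (.nd (nat_lit 6) 
(.lf (nat_lit 103480) (.g (nat_lit 3324) (.e (nat_lit 3543) (nat_lit 219) (.e (nat_lit 712755) (nat_lit 30) (.e (nat_lit 450588) (nat_lit 10) (.e (nat_lit 573474) (nat_lit 12) (.e (nat_lit 57348) (nat_lit 0) .nil))))) .nil)) 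
(.lf (nat_lit 103544) (.g (nat_lit 1800) (.e (nat_lit 3549) (nat_lit 219) (.e (nat_lit 712753) (nat_lit 30) (.e (nat_lit 450579) (nat_lit 5) (.e (nat_lit 532504) (nat_lit 1) (.e (nat_lit 57663) (nat_lit 152) .nil))))) .nil)))))) (.nd (nat_lit 3) (.nd (nat_lit 4) (.nd (nat_lit 5) (.nd (nat_lit 6) 
(.lf (nat_lit 103428) (.g (nat_lit 2743) (.e (nat_lit 3537) (nat_lit 218) (.e (nat_lit 704738) (nat_lit 11) (.e (nat_lit 16425) (nat_lit 7) (.e (nat_lit 409649) (nat_lit 18) (.e (nat_lit 303140) (nat_lit 10) (.e (nat_lit 434202) (nat_lit 18) (.e (nat_lit 5964) (nat_lit 324) (.e (nat_lit 163852) (nat_lit 0) .nil)))))))) (.g (nat_lit 5) .nil .nil))) 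
(.lf (nat_lit 103492) (.g (nat_lit 3100) (.e (nat_lit 3543) (nat_lit 219) (.e (nat_lit 712755) (nat_lit 30) (.e (nat_lit 450588) (nat_lit 10) (.e (nat_lit 573475) (nat_lit 12) (.e (nat_lit 57508) (nat_lit 39) .nil))))) .nil))) (.nd (nat_lit 6) 
(.lf (nat_lit 103460) (.g (nat_lit 2465) (.e (nat_lit 3542) (nat_lit 218) (.e (nat_lit 704738) (nat_lit 11) (.e (nat_lit 16425) (nat_lit 7) (.e (nat_lit 409649) (nat_lit 18) (.e (nat_lit 303140) (nat_lit 10) (.e (nat_lit 434275) (nat_lit 39) (.e (nat_lit 663576) (nat_lit 9) (.e (nat_lit 2425) (nat_lit 157) .nil)))))))) (.g (nat_lit 4) .nil .nil))) 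
(.lf (nat_lit 103524) (.g (nat_lit 2027) (.e (nat_lit 3548) (nat_lit 219) (.e (nat_lit 712755) (nat_lit 30) (.e (nat_lit 450587) (nat_lit 10) (.e (nat_lit 573478) (nat_lit 12) (.e (nat_lit 57509) (nat_lit 39) .nil))))) .nil)))) (.nd (nat_lit 5) (.nd (nat_lit 6) 
(.lf (nat_lit 103444) (.g (nat_lit 3010) (.e (nat_lit 3538) (nat_lit 218) (.e (nat_lit 704738) (nat_lit 11) (.e (nat_lit 16425) (nat_lit 7) (.e (nat_lit 409648) (nat_lit 18) (.e (nat_lit 303137) (nat_lit 10) (.e (nat_lit 434275) (nat_lit 39) (.e (nat_lit 663574) (nat_lit 9) (.e (nat_lit 2419) (nat_lit 157) .nil)))))))) (.g (nat_lit 5) .nil .nil))) 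
(.lf (nat_lit 103508) (.g (nat_lit 2084) (.e (nat_lit 3546) (nat_lit 219) (.e (nat_lit 712753) (nat_lit 30) (.e (nat_lit 450586) (nat_lit 10) (.e (nat_lit 573475) (nat_lit 12) (.e (nat_lit 57508) (nat_lit 39) .nil))))) .nil))) (.nd (nat_lit 6) 
(.lf (nat_lit 103476) (.g (nat_lit 3080) (.e (nat_lit 3543) (nat_lit 219) (.e (nat_lit 712755) (nat_lit 30) (.e (nat_lit 450588) (nat_lit 10) (.e (nat_lit 573473) (nat_lit 12) (.e (nat_lit 57509) (nat_lit 39) .nil))))) .nil)) 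
(.lf (nat_lit 103540) (.g (nat_lit 1934) (.e (nat_lit 3549) (nat_lit 219) (.e (nat_lit 712752) (nat_lit 29) (.e (nat_lit 442427) (nat_lit 23) (.e (nat_lit 204817) (nat_lit 17) .nil)))) .nil))))) (.nd (nat_lit 4) (.nd (nat_lit 5) (.nd (nat_lit 6) 
(.lf (nat_lit 103436) (.g (nat_lit 4088) (.e (nat_lit 3537) (nat_lit 218) (.e (nat_lit 704738) (nat_lit 11) (.e (nat_lit 16425) (nat_lit 7) (.e (nat_lit 409649) (nat_lit 18) (.e (nat_lit 303140) (nat_lit 10) (.e (nat_lit 434275) (nat_lit 39) (.e (nat_lit 663580) (nat_lit 9) (.e (nat_lit 2481) (nat_lit 157) .nil)))))))) (.g (nat_lit 7) .nil .nil))) 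
(.lf (nat_lit 103500) (.g (nat_lit 3387) (.e (nat_lit 3544) (nat_lit 219) (.e (nat_lit 712755) (nat_lit 30) (.e (nat_lit 450588) (nat_lit 10) (.e (nat_lit 573475) (nat_lit 12) (.e (nat_lit 57508) (nat_lit 39) .nil))))) .nil))) (.nd (nat_lit 6) 
(.lf (nat_lit 103468) (.g (nat_lit 2590) (.e (nat_lit 3543) (nat_lit 219) (.e (nat_lit 712747) (nat_lit 28) (.e (nat_lit 434203) (nat_lit 18) (.e (nat_lit 5943) (nat_lit 322) (.e (nat_lit 57372) (nat_lit 2) (.e (nat_lit 90176) (nat_lit 15) (.e (nat_lit 188431) (nat_lit 20) .nil))))))) (.g (nat_lit 7) .nil .nil))) 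
(.lf (nat_lit 103532) (.g (nat_lit 3679) (.e (nat_lit 3548) (nat_lit 219) (.e (nat_lit 712755) (nat_lit 30) (.e (nat_lit 450588) (nat_lit 10) (.e (nat_lit 573474) (nat_lit 12) (.e (nat_lit 57510) (nat_lit 39) .nil))))) .nil)))) (.nd (nat_lit 5) (.nd (nat_lit 6) 
(.lf (nat_lit 103452) (.g (nat_lit 4271) (.e (nat_lit 3539) (nat_lit 218) (.e (nat_lit 704738) (nat_lit 11) (.e (nat_lit 16425) (nat_lit 7) (.e (nat_lit 409649) (nat_lit 18) (.e (nat_lit 303140) (nat_lit 10) (.e (nat_lit 434275) (nat_lit 39) (.e (nat_lit 663580) (nat_lit 9) (.e (nat_lit 7936) (nat_lit 157) .nil)))))))) (.g (nat_lit 6) .nil .nil))) 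
(.lf (nat_lit 103516) (.g (nat_lit 3794) (.e (nat_lit 3547) (nat_lit 219) (.e (nat_lit 712747) (nat_lit 28) (.e (nat_lit 434268) (nat_lit 36) (.e (nat_lit 639017) (nat_lit 15) (.e (nat_lit 57480) (nat_lit 28) (.e (nat_lit 557109) (nat_lit 15) (.e (nat_lit 188427) (nat_lit 20) .nil))))))) (.g (nat_lit 0) .nil .nil)))) (.nd (nat_lit 6) 
(.lf (nat_lit 103484) (.g (nat_lit 3573) (.e (nat_lit 3543) (nat_lit 219) (.e (nat_lit 712755) (nat_lit 30) (.e (nat_lit 450588) (nat_lit 10) (.e (nat_lit 573474) (nat_lit 12) (.e (nat_lit 57511) (nat_lit 39) .nil))))) .nil)) 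
(.lf (nat_lit 103548) (.g (nat_lit 3722) (.e (nat_lit 3549) (nat_lit 219) (.e (nat_lit 712753) (nat_lit 30) (.e (nat_lit 450586) (nat_lit 10) (.e (nat_lit 573473) (nat_lit 12) (.e (nat_lit 57508) (nat_lit 39) (.e (nat_lit 647195) (nat_lit 9) (.e (nat_lit 426) (nat_lit 32) (.e (nat_lit 426011) (nat_lit 0) .nil)))))))) (.g (nat_lit 8) .nil .nil)))))))) 
(.nd (nat_lit 2) (.nd (nat_lit 3) (.nd (nat_lit 4) (.nd (nat_lit 5) (.nd (nat_lit 6) 
(.lf (nat_lit 103426) (.g (nat_lit 2861) (.e (nat_lit 3537) (nat_lit 218) (.e (nat_lit 704738) (nat_lit 11) (.e (nat_lit 16425) (nat_lit 7) (.e (nat_lit 409649) (nat_lit 18) (.e (nat_lit 303140) (nat_lit 10) (.e (nat_lit 434200) (nat_lit 18) (.e (nat_lit 5971) (nat_lit 324) (.e (nat_lit 163850) (nat_lit 0) .nil)))))))) (.g (nat_lit 5) .nil .nil))) 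
(.lf (nat_lit 103490) (.g (nat_lit 3388) (.e (nat_lit 3543) (nat_lit 219) (.e (nat_lit 712755) (nat_lit 30) (.e (nat_lit 450588) (nat_lit 10) (.e (nat_lit 573475) (nat_lit 12) (.e (nat_lit 57506) (nat_lit 39) .nil))))) .nil))) (.nd (nat_lit 6) 
(.lf (nat_lit 103458) (.g (nat_lit 3337) (.e (nat_lit 3542) (nat_lit 218) (.e (nat_lit 704738) (nat_lit 11) (.e (nat_lit 16425) (nat_lit 7) (.e (nat_lit 409648) (nat_lit 18) (.e (nat_lit 303137) (nat_lit 10) .nil))))) .nil)) 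
(.lf (nat_lit 103522) (.g (nat_lit 2221) (.e (nat_lit 3548) (nat_lit 219) (.e (nat_lit 712755) (nat_lit 30) (.e (nat_lit 450587) (nat_lit 10) (.e (nat_lit 573477) (nat_lit 12) (.e (nat_lit 57510) (nat_lit 39) .nil))))) .nil)))) (.nd (nat_lit 5) (.nd (nat_lit 6) 
(.lf (nat_lit 103442) (.g (nat_lit 2442) (.e (nat_lit 3538) (nat_lit 218) (.e (nat_lit 704738) (nat_lit 11) (.e (nat_lit 16425) (nat_lit 7) (.e (nat_lit 409617) (nat_lit 10) (.e (nat_lit 848) (nat_lit 73) (.e (nat_lit 761906) (nat_lit 16) (.e (nat_lit 172097) (nat_lit 9) (.e (nat_lit 426004) (nat_lit 0) .nil)))))))) (.g (nat_lit 4) .nil .nil))) 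
(.lf (nat_lit 103506) (.g (nat_lit 1722) (.e (nat_lit 3546) (nat_lit 219) (.e (nat_lit 712753) (nat_lit 30) (.e (nat_lit 450586) (nat_lit 10) (.e (nat_lit 573473) (nat_lit 12) (.e (nat_lit 57511) (nat_lit 39) .nil))))) .nil))) (.nd (nat_lit 6) 
(.lf (nat_lit 103474) (.g (nat_lit 2711) (.e (nat_lit 3543) (nat_lit 219) (.e (nat_lit 712755) (nat_lit 30) (.e (nat_lit 450588) (nat_lit 10) (.e (nat_lit 573473) (nat_lit 12) (.e (nat_lit 57507) (nat_lit 39) .nil))))) .nil)) 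
(.lf (nat_lit 103538) (.g (nat_lit 3846) (.e (nat_lit 3549) (nat_lit 219) (.e (nat_lit 712749) (nat_lit 28) (.e (nat_lit 434268) (nat_lit 36) (.e (nat_lit 639017) (nat_lit 15) (.e (nat_lit 57480) (nat_lit 28) (.e (nat_lit 557109) (nat_lit 15) (.e (nat_lit 188426) (nat_lit 20) .nil))))))) (.g (nat_lit 7) .nil .nil)))))) (.nd (nat_lit 4) (.nd (nat_lit 5) (.nd (nat_lit 6) 
(.lf (nat_lit 103434) (.g (nat_lit 3025) (.e (nat_lit 3537) (nat_lit 218) (.e (nat_lit 704738) (nat_lit 11) (.e (nat_lit 16425) (nat_lit 7) (.e (nat_lit 409649) (nat_lit 18) (.e (nat_lit 303140) (nat_lit 10) (.e (nat_lit 434275) (nat_lit 39) (.e (nat_lit 663579) (nat_lit 9) (.e (nat_lit 2458) (nat_lit 157) .nil)))))))) (.g (nat_lit 6) .nil .nil))) 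
(.lf (nat_lit 103498) (.g (nat_lit 2942) (.e (nat_lit 3544) (nat_lit 219) (.e (nat_lit 712755) (nat_lit 30) (.e (nat_lit 450588) (nat_lit 10) (.e (nat_lit 573473) (nat_lit 12) (.e (nat_lit 57511) (nat_lit 39) .nil))))) .nil))) (.nd (nat_lit 6) 
(.lf (nat_lit 103466) (.g (nat_lit 279) (.e (nat_lit 7936) (nat_lit 218) (.e (nat_lit 704734) (nat_lit 11) (.e (nat_lit 24320) (nat_lit 34) (.e (nat_lit 393289) (nat_lit 25) (.e (nat_lit 466688) (nat_lit 21) .nil))))) .nil)) 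
(.lf (nat_lit 103530) (.g (nat_lit 3398) (.e (nat_lit 3548) (nat_lit 219) (.e (nat_lit 712755) (nat_lit 30) (.e (nat_lit 450588) (nat_lit 10) (.e (nat_lit 573474) (nat_lit 12) (.e (nat_lit 57508) (nat_lit 39) .nil))))) .nil)))) (.nd (nat_lit 5) (.nd (nat_lit 6) 
(.lf (nat_lit 103450) (.g (nat_lit 930) (.e (nat_lit 3539) (nat_lit 218) (.e (nat_lit 704738) (nat_lit 11) (.e (nat_lit 16425) (nat_lit 7) .nil))) .nil)) 
(.lf (nat_lit 103514) (.g (nat_lit 1265) (.e (nat_lit 3546) (nat_lit 219) (.e (nat_lit 712753) (nat_lit 30) (.e (nat_lit 450586) (nat_lit 10) (.e (nat_lit 573478) (nat_lit 12) (.e (nat_lit 57509) (nat_lit 39) .nil))))) .nil))) (.nd (nat_lit 6) 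
(.lf (nat_lit 103482) (.g (nat_lit 3536) (.e (nat_lit 3543) (nat_lit 219) (.e (nat_lit 712755) (nat_lit 30) (.e (nat_lit 450588) (nat_lit 10) (.e (nat_lit 573474) (nat_lit 12) (.e (nat_lit 57509) (nat_lit 39) .nil))))) .nil)) 
(.lf (nat_lit 103546) (.g (nat_lit 1849) (.e (nat_lit 3549) (nat_lit 219) (.e (nat_lit 712753) (nat_lit 30) (.e (nat_lit 450586) (nat_lit 10) (.e (nat_lit 573473) (nat_lit 12) (.e (nat_lit 57507) (nat_lit 39) .nil))))) .nil)))))) (.nd (nat_lit 3) (.nd (nat_lit 4) (.nd (nat_lit 5) (.nd (nat_lit 6) 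
(.lf (nat_lit 103430) (.g (nat_lit 2525) (.e (nat_lit 3537) (nat_lit 218) (.e (nat_lit 704738) (nat_lit 11) (.e (nat_lit 16425) (nat_lit 7) (.e (nat_lit 409649) (nat_lit 18) (.e (nat_lit 303140) (nat_lit 10) (.e (nat_lit 434202) (nat_lit 18) (.e (nat_lit 5968) (nat_lit 324) (.e (nat_lit 163850) (nat_lit 0) .nil)))))))) (.g (nat_lit 5) .nil .nil))) 
(.lf (nat_lit 103494) (.g (nat_lit 2050) (.e (nat_lit 3544) (nat_lit 219) (.e (nat_lit 712750) (nat_lit 29) (.e (nat_lit 450304) (nat_lit 3) (.e (nat_lit 98335) (nat_lit 18) (.e (nat_lit 164330) (nat_lit 230) (.e (nat_lit 163915) (nat_lit 12) (.e (nat_lit 426009) (nat_lit 0) .nil))))))) (.g (nat_lit 5) .nil .nil)))) (.nd (nat_lit 6) 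
(.lf (nat_lit 103462) (.g (nat_lit 3823) (.e (nat_lit 3542) (nat_lit 218) (.e (nat_lit 704738) (nat_lit 11) (.e (nat_lit 16425) (nat_lit 7) (.e (nat_lit 409649) (nat_lit 18) (.e (nat_lit 303140) (nat_lit 10) (.e (nat_lit 434275) (nat_lit 39) (.e (nat_lit 663579) (nat_lit 9) (.e (nat_lit 2425) (nat_lit 157) .nil)))))))) (.g (nat_lit 6) .nil .nil))) 
(.lf (nat_lit 103526) (.g (nat_lit 2783) (.e (nat_lit 3548) (nat_lit 219) (.e (nat_lit 712755) (nat_lit 30) (.e (nat_lit 450588) (nat_lit 10) (.e (nat_lit 573473) (nat_lit 12) (.e (nat_lit 57507) (nat_lit 39) .nil))))) .nil)))) (.nd (nat_lit 5) (.nd (nat_lit 6) 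
(.lf (nat_lit 103446) (.g (nat_lit 3389) (.e (nat_lit 3538) (nat_lit 218) (.e (nat_lit 704738) (nat_lit 11) (.e (nat_lit 16425) (nat_lit 7) (.e (nat_lit 409649) (nat_lit 18) (.e (nat_lit 303140) (nat_lit 10) (.e (nat_lit 434275) (nat_lit 39) (.e (nat_lit 663572) (nat_lit 9) (.e (nat_lit 2421) (nat_lit 157) .nil)))))))) (.g (nat_lit 7) .nil .nil))) 
(.lf (nat_lit 103510) (.g (nat_lit 1543) (.e (nat_lit 3546) (nat_lit 219) (.e (nat_lit 712753) (nat_lit 30) (.e (nat_lit 450586) (nat_lit 10) (.e (nat_lit 573477) (nat_lit 12) (.e (nat_lit 57509) (nat_lit 39) .nil))))) .nil))) (.nd (nat_lit 6) 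
(.lf (nat_lit 103478) (.g (nat_lit 1635) (.e (nat_lit 3543) (nat_lit 219) (.e (nat_lit 712755) (nat_lit 30) (.e (nat_lit 450588) (nat_lit 10) (.e (nat_lit 573474) (nat_lit 12) .nil)))) .nil)) 
(.lf (nat_lit 103542) (.g (nat_lit 878) (.e (nat_lit 3549) (nat_lit 219) (.e (nat_lit 712753) (nat_lit 30) (.e (nat_lit 450579) (nat_lit 5) (.e (nat_lit 532501) (nat_lit 1) .nil)))) .nil))))) (.nd (nat_lit 4) (.nd (nat_lit 5) (.nd (nat_lit 6) 
(.lf (nat_lit 103438) (.g (nat_lit 2325) (.e (nat_lit 3538) (nat_lit 218) (.e (nat_lit 704738) (nat_lit 11) (.e (nat_lit 16425) (nat_lit 7) (.e (nat_lit 409617) (nat_lit 10) (.e (nat_lit 848) (nat_lit 73) .nil))))) .nil)) 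
(.lf (nat_lit 103502) (.g (nat_lit 4383) (.e (nat_lit 3545) (nat_lit 219) (.e (nat_lit 712747) (nat_lit 28) (.e (nat_lit 434268) (nat_lit 36) (.e (nat_lit 639017) (nat_lit 15) (.e (nat_lit 57480) (nat_lit 28) (.e (nat_lit 557108) (nat_lit 15) (.e (nat_lit 188427) (nat_lit 20) .nil))))))) (.g (nat_lit 7) .nil .nil)))) (.nd (nat_lit 6) 
(.lf (nat_lit 103470) (.g (nat_lit 2074) (.e (nat_lit 3543) (nat_lit 219) (.e (nat_lit 712752) (nat_lit 29) (.e (nat_lit 442424) (nat_lit 22) (.e (nat_lit 196683) (nat_lit 18) .nil)))) .nil)) 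
(.lf (nat_lit 103534) (.g (nat_lit 3441) (.e (nat_lit 3548) (nat_lit 219) (.e (nat_lit 712755) (nat_lit 30) (.e (nat_lit 450588) (nat_lit 10) (.e (nat_lit 573475) (nat_lit 12) (.e (nat_lit 57506) (nat_lit 39) .nil))))) .nil)))) (.nd (nat_lit 5) (.nd (nat_lit 6) 
(.lf (nat_lit 103454) (.g (nat_lit 2331) (.e (nat_lit 3540) (nat_lit 218) (.e (nat_lit 704736) (nat_lit 11) (.e (nat_lit 16425) (nat_lit 7) (.e (nat_lit 409648) (nat_lit 18) (.e (nat_lit 303137) (nat_lit 10) (.e (nat_lit 434275) (nat_lit 39) (.e (nat_lit 663579) (nat_lit 9) (.e (nat_lit 2438) (nat_lit 157) .nil)))))))) (.g (nat_lit 4) .nil .nil))) 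
(.lf (nat_lit 103518) (.g (nat_lit 3227) (.e (nat_lit 3547) (nat_lit 219) (.e (nat_lit 712759) (nat_lit 33) (.e (nat_lit 475193) (nat_lit 38) (.e (nat_lit 688170) (nat_lit 15) (.e (nat_lit 57480) (nat_lit 28) (.e (nat_lit 557109) (nat_lit 15) (.e (nat_lit 188427) (nat_lit 20) .nil))))))) (.g (nat_lit 6) .nil .nil)))) (.nd (nat_lit 6) 
(.lf (nat_lit 103486) (.g (nat_lit 3611) (.e (nat_lit 3543) (nat_lit 219) (.e (nat_lit 712755) (nat_lit 30) (.e (nat_lit 450588) (nat_lit 10) (.e (nat_lit 573474) (nat_lit 12) (.e (nat_lit 57513) (nat_lit 40) .nil))))) .nil)) 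
(.lf (nat_lit 103550) (.g (nat_lit 1769) (.e (nat_lit 3549) (nat_lit 219) (.e (nat_lit 712753) (nat_lit 30) (.e (nat_lit 450586) (nat_lit 10) (.e (nat_lit 573473) (nat_lit 12) (.e (nat_lit 57510) (nat_lit 39) (.e (nat_lit 647199) (nat_lit 11) (.e (nat_lit 16388) (nat_lit 0) .nil))))))) (.g (nat_lit 4) .nil .nil))))))))) 
(.nd (nat_lit 1) (.nd (nat_lit 2) (.nd (nat_lit 3) (.nd (nat_lit 4) (.nd (nat_lit 5) 
(.nd (nat_lit 6) 
(.lf (nat_lit 103425) (.g (nat_lit 2792) (.e (nat_lit 3537) (nat_lit 218) (.e (nat_lit 704738) (nat_lit 11) (.e (nat_lit 16425) (nat_lit 7) (.e (nat_lit 409649) (nat_lit 18) (.e (nat_lit 303140) (nat_lit 10) (.e (nat_lit 434200) (nat_lit 18) (.e (nat_lit 5970) (nat_lit 324) (.e (nat_lit 163850) (nat_lit 0) .nil)))))))) (.g (nat_lit 5) .nil .nil))) 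
(.lf (nat_lit 103489) (.g (nat_lit 3042) (.e (nat_lit 3543) (nat_lit 219) (.e (nat_lit 712755) (nat_lit 30) (.e (nat_lit 450588) (nat_lit 10) (.e (nat_lit 573475) (nat_lit 12) (.e (nat_lit 57501) (nat_lit 37) .nil))))) .nil))) (.nd (nat_lit 6) 
(.lf (nat_lit 103457) (.g (nat_lit 2306) (.e (nat_lit 3542) (nat_lit 218) (.e (nat_lit 704738) (nat_lit 11) (.e (nat_lit 16425) (nat_lit 7) (.e (nat_lit 409648) (nat_lit 18) .nil)))) .nil)) 
(.lf (nat_lit 103521) (.g (nat_lit 3701) (.e (nat_lit 3548) (nat_lit 219) (.e (nat_lit 712755) (nat_lit 30) (.e (nat_lit 450587) (nat_lit 10) (.e (nat_lit 573475) (nat_lit 12) (.e (nat_lit 57503) (nat_lit 38) .nil))))) .nil)))) (.nd (nat_lit 5) (.nd (nat_lit 6) 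
(.lf (nat_lit 103441) (.g (nat_lit 2465) (.e (nat_lit 3538) (nat_lit 218) (.e (nat_lit 704738) (nat_lit 11) (.e (nat_lit 16425) (nat_lit 7) (.e (nat_lit 409617) (nat_lit 10) (.e (nat_lit 848) (nat_lit 73) (.e (nat_lit 761905) (nat_lit 16) (.e (nat_lit 172095) (nat_lit 9) (.e (nat_lit 426008) (nat_lit 0) .nil)))))))) (.g (nat_lit 4) .nil .nil))) 
(.lf (nat_lit 103505) (.g (nat_lit 1775) (.e (nat_lit 3546) (nat_lit 219) (.e (nat_lit 712753) (nat_lit 30) (.e (nat_lit 450586) (nat_lit 10) (.e (nat_lit 573473) (nat_lit 12) (.e (nat_lit 57510) (nat_lit 39) .nil))))) .nil))) (.nd (nat_lit 6) 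
(.lf (nat_lit 103473) (.g (nat_lit 1633) (.e (nat_lit 3543) (nat_lit 219) (.e (nat_lit 712755) (nat_lit 30) (.e (nat_lit 450588) (nat_lit 10) (.e (nat_lit 573473) (nat_lit 12) .nil)))) .nil)) 
(.lf (nat_lit 103537) (.g (nat_lit 3570) (.e (nat_lit 3548) (nat_lit 219) (.e (nat_lit 712755) (nat_lit 30) (.e (nat_lit 450588) (nat_lit 10) (.e (nat_lit 573475) (nat_lit 12) (.e (nat_lit 57509) (nat_lit 39) (.e (nat_lit 647199) (nat_lit 11) (.e (nat_lit 16388) (nat_lit 0) .nil))))))) (.g (nat_lit 6) .nil .nil)))))) (.nd (nat_lit 4) (.nd (nat_lit 5) (.nd (nat_lit 6) 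
(.lf (nat_lit 103433) (.g (nat_lit 4073) (.e (nat_lit 3537) (nat_lit 218) (.e (nat_lit 704738) (nat_lit 11) (.e (nat_lit 16425) (nat_lit 7) (.e (nat_lit 409649) (nat_lit 18) (.e (nat_lit 303140) (nat_lit 10) (.e (nat_lit 434275) (nat_lit 39) (.e (nat_lit 663574) (nat_lit 9) (.e (nat_lit 2472) (nat_lit 157) .nil)))))))) (.g (nat_lit 7) .nil .nil))) 
(.lf (nat_lit 103497) (.g (nat_lit 2879) (.e (nat_lit 3544) (nat_lit 219) (.e (nat_lit 712755) (nat_lit 30) (.e (nat_lit 450588) (nat_lit 10) (.e (nat_lit 573473) (nat_lit 12) (.e (nat_lit 57508) (nat_lit 39) .nil))))) .nil))) (.nd (nat_lit 6) 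
(.lf (nat_lit 103465) (.g (nat_lit 919) (.e (nat_lit 7936) (nat_lit 218) (.e (nat_lit 704598) (nat_lit 6) (.e (nat_lit 188450) (nat_lit 23) (.e (nat_lit 204830) (nat_lit 18) .nil)))) .nil)) 
(.lf (nat_lit 103529) (.g (nat_lit 1707) (.e (nat_lit 3548) (nat_lit 219) (.e (nat_lit 712755) (nat_lit 30) (.e (nat_lit 450588) (nat_lit 10) (.e (nat_lit 573474) (nat_lit 12) .nil)))) .nil)))) (.nd (nat_lit 5) (.nd (nat_lit 6) 
(.lf (nat_lit 103449) (.g (nat_lit 3520) (.e (nat_lit 3538) (nat_lit 218) (.e (nat_lit 704738) (nat_lit 11) (.e (nat_lit 16425) (nat_lit 7) (.e (nat_lit 409649) (nat_lit 18) (.e (nat_lit 303140) (nat_lit 10) (.e (nat_lit 434275) (nat_lit 39) (.e (nat_lit 663580) (nat_lit 9) (.e (nat_lit 7936) (nat_lit 157) .nil)))))))) (.g (nat_lit 7) .nil .nil))) 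
(.lf (nat_lit 103513) (.g (nat_lit 955) (.e (nat_lit 3546) (nat_lit 219) (.e (nat_lit 712753) (nat_lit 30) (.e (nat_lit 450586) (nat_lit 10) (.e (nat_lit 573478) (nat_lit 12) .nil)))) .nil))) (.nd (nat_lit 6) 
(.lf (nat_lit 103481) (.g (nat_lit 3325) (.e (nat_lit 3543) (nat_lit 219) (.e (nat_lit 712755) (nat_lit 30) (.e (nat_lit 450588) (nat_lit 10) (.e (nat_lit 573474) (nat_lit 12) (.e (nat_lit 57508) (nat_lit 39) .nil))))) .nil)) 
(.lf (nat_lit 103545) (.g (nat_lit 1490) (.e (nat_lit 3549) (nat_lit 219) (.e (nat_lit 712753) (nat_lit 30) (.e (nat_lit 450579) (nat_lit 5) (.e (nat_lit 532504) (nat_lit 1) (.e (nat_lit 57670) (nat_lit 152) .nil))))) .nil)))))) (.nd (nat_lit 3) (.nd (nat_lit 4) (.nd (nat_lit 5) (.nd (nat_lit 6) 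
(.lf (nat_lit 103429) (.g (nat_lit 2835) (.e (nat_lit 3537) (nat_lit 218) (.e (nat_lit 704738) (nat_lit 11) (.e (nat_lit 16425) (nat_lit 7) (.e (nat_lit 409649) (nat_lit 18) (.e (nat_lit 303140) (nat_lit 10) (.e (nat_lit 434202) (nat_lit 18) (.e (nat_lit 5967) (nat_lit 324) (.e (nat_lit 163852) (nat_lit 0) .nil)))))))) (.g (nat_lit 5) .nil .nil))) 
(.lf (nat_lit 103493) (.g (nat_lit 3396) (.e (nat_lit 3543) (nat_lit 219) (.e (nat_lit 712755) (nat_lit 30) (.e (nat_lit 450588) (nat_lit 10) (.e (nat_lit 573475) (nat_lit 12) (.e (nat_lit 57513) (nat_lit 40) .nil))))) .nil))) (.nd (nat_lit 6) 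
(.lf (nat_lit 103461) (.g (nat_lit 2589) (.e (nat_lit 3542) (nat_lit 218) (.e (nat_lit 704738) (nat_lit 11) (.e (nat_lit 16425) (nat_lit 7) (.e (nat_lit 409649) (nat_lit 18) (.e (nat_lit 303140) (nat_lit 10) (.e (nat_lit 434275) (nat_lit 39) (.e (nat_lit 663578) (nat_lit 9) (.e (nat_lit 2425) (nat_lit 157) .nil)))))))) (.g (nat_lit 4) .nil .nil))) 
(.lf (nat_lit 103525) (.g (nat_lit 1705) (.e (nat_lit 3548) (nat_lit 219) (.e (nat_lit 712755) (nat_lit 30) (.e (nat_lit 450588) (nat_lit 10) (.e (nat_lit 573473) (nat_lit 12) .nil)))) .nil)))) (.nd (nat_lit 5) (.nd (nat_lit 6) 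
(.lf (nat_lit 103445) (.g (nat_lit 2855) (.e (nat_lit 3538) (nat_lit 218) (.e (nat_lit 704738) (nat_lit 11) (.e (nat_lit 16425) (nat_lit 7) (.e (nat_lit 409648) (nat_lit 18) (.e (nat_lit 303137) (nat_lit 10) (.e (nat_lit 434275) (nat_lit 39) (.e (nat_lit 663574) (nat_lit 9) (.e (nat_lit 2420) (nat_lit 157) .nil)))))))) (.g (nat_lit 4) .nil .nil))) 
(.lf (nat_lit 103509) (.g (nat_lit 1847) (.e (nat_lit 3546) (nat_lit 219) (.e (nat_lit 712753) (nat_lit 30) (.e (nat_lit 450586) (nat_lit 10) (.e (nat_lit 573475) (nat_lit 12) (.e (nat_lit 57509) (nat_lit 39) .nil))))) .nil))) (.nd (nat_lit 6) 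
(.lf (nat_lit 103477) (.g (nat_lit 2952) (.e (nat_lit 3543) (nat_lit 219) (.e (nat_lit 712755) (nat_lit 30) (.e (nat_lit 450588) (nat_lit 10) (.e (nat_lit 573473) (nat_lit 12) (.e (nat_lit 57510) (nat_lit 39) .nil))))) .nil)) 
(.lf (nat_lit 103541) (.g (nat_lit 1307) (.e (nat_lit 3549) (nat_lit 219) (.e (nat_lit 712753) (nat_lit 30) (.e (nat_lit 450579) (nat_lit 5) (.e (nat_lit 532484) (nat_lit 0) (.e (nat_lit 7936) (nat_lit 149) .nil))))) .nil))))) (.nd (nat_lit 4) (.nd (nat_lit 5) (.nd (nat_lit 6) 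
(.lf (nat_lit 103437) (.g (nat_lit 2474) (.e (nat_lit 3537) (nat_lit 218) (.e (nat_lit 704738) (nat_lit 11) (.e (nat_lit 16425) (nat_lit 7) (.e (nat_lit 409649) (nat_lit 18) (.e (nat_lit 303140) (nat_lit 10) (.e (nat_lit 434275) (nat_lit 39) (.e (nat_lit 663580) (nat_lit 9) (.e (nat_lit 7936) (nat_lit 157) .nil)))))))) (.g (nat_lit 5) .nil .nil))) 
(.lf (nat_lit 103501) (.g (nat_lit 3108) (.e (nat_lit 3544) (nat_lit 219) (.e (nat_lit 712755) (nat_lit 30) (.e (nat_lit 450588) (nat_lit 10) (.e (nat_lit 573475) (nat_lit 12) (.e (nat_lit 57509) (nat_lit 39) .nil))))) .nil))) (.nd (nat_lit 6) 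
(.lf (nat_lit 103469) (.g (nat_lit 2626) (.e (nat_lit 3543) (nat_lit 219) (.e (nat_lit 712747) (nat_lit 28) (.e (nat_lit 434203) (nat_lit 18) (.e (nat_lit 5943) (nat_lit 322) (.e (nat_lit 57375) (nat_lit 2) (.e (nat_lit 90176) (nat_lit 15) (.e (nat_lit 188431) (nat_lit 20) .nil))))))) (.g (nat_lit 7) .nil .nil))) 
(.lf (nat_lit 103533) (.g (nat_lit 3645) (.e (nat_lit 3548) (nat_lit 219) (.e (nat_lit 712755) (nat_lit 30) (.e (nat_lit 450588) (nat_lit 10) (.e (nat_lit 573474) (nat_lit 12) (.e (nat_lit 57511) (nat_lit 39) .nil))))) .nil)))) (.nd (nat_lit 5) (.nd (nat_lit 6) 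
(.lf (nat_lit 103453) (.g (nat_lit 2195) (.e (nat_lit 3540) (nat_lit 218) (.e (nat_lit 704736) (nat_lit 11) (.e (nat_lit 16425) (nat_lit 7) (.e (nat_lit 409648) (nat_lit 18) (.e (nat_lit 303137) (nat_lit 10) (.e (nat_lit 434275) (nat_lit 39) (.e (nat_lit 663574) (nat_lit 9) (.e (nat_lit 2417) (nat_lit 157) .nil)))))))) (.g (nat_lit 4) .nil .nil))) 
(.lf (nat_lit 103517) (.g (nat_lit 248) (.e (nat_lit 3547) (nat_lit 219) (.e (nat_lit 712759) (nat_lit 33) (.e (nat_lit 475193) (nat_lit 38) .nil))) .nil))) (.nd (nat_lit 6) 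
(.lf (nat_lit 103485) (.g (nat_lit 3612) (.e (nat_lit 3543) (nat_lit 219) (.e (nat_lit 712755) (nat_lit 30) (.e (nat_lit 450588) (nat_lit 10) (.e (nat_lit 573474) (nat_lit 12) (.e (nat_lit 57512) (nat_lit 40) .nil))))) .nil)) 
(.lf (nat_lit 103549) (.g (nat_lit 1364) (.e (nat_lit 3549) (nat_lit 219) (.e (nat_lit 712753) (nat_lit 30) (.e (nat_lit 450586) (nat_lit 10) (.e (nat_lit 573473) (nat_lit 12) (.e (nat_lit 57508) (nat_lit 39) (.e (nat_lit 647199) (nat_lit 11) (.e (nat_lit 16385) (nat_lit 0) .nil))))))) (.g (nat_lit 4) .nil .nil)))))))) 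
(.nd (nat_lit 2) (.nd (nat_lit 3) (.nd (nat_lit 4) (.nd (nat_lit 5) (.nd (nat_lit 6) 
(.lf (nat_lit 103427) (.g (nat_lit 4450) (.e (nat_lit 3537) (nat_lit 218) (.e (nat_lit 704738) (nat_lit 11) (.e (nat_lit 16425) (nat_lit 7) (.e (nat_lit 409649) (nat_lit 18) (.e (nat_lit 303140) (nat_lit 10) (.e (nat_lit 434202) (nat_lit 18) (.e (nat_lit 5964) (nat_lit 324) (.e (nat_lit 163850) (nat_lit 0) .nil)))))))) (.g (nat_lit 0) .nil .nil))) 
(.lf (nat_lit 103491) (.g (nat_lit 2685) (.e (nat_lit 3543) (nat_lit 219) (.e (nat_lit 712755) (nat_lit 30) (.e (nat_lit 450588) (nat_lit 10) (.e (nat_lit 573475) (nat_lit 12) (.e (nat_lit 57507) (nat_lit 39) .nil))))) .nil))) (.nd (nat_lit 6) 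
(.lf (nat_lit 103459) (.g (nat_lit 2433) (.e (nat_lit 3542) (nat_lit 218) (.e (nat_lit 704738) (nat_lit 11) (.e (nat_lit 16425) (nat_lit 7) (.e (nat_lit 409649) (nat_lit 18) (.e (nat_lit 303140) (nat_lit 10) .nil))))) .nil)) 
(.lf (nat_lit 103523) (.g (nat_lit 1384) (.e (nat_lit 3548) (nat_lit 219) (.e (nat_lit 712755) (nat_lit 30) (.e (nat_lit 450587) (nat_lit 10) (.e (nat_lit 573478) (nat_lit 12) .nil)))) .nil)))) (.nd (nat_lit 5) (.nd (nat_lit 6) 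
(.lf (nat_lit 103443) (.g (nat_lit 2507) (.e (nat_lit 3538) (nat_lit 218) (.e (nat_lit 704738) (nat_lit 11) (.e (nat_lit 16425) (nat_lit 7) (.e (nat_lit 409648) (nat_lit 18) (.e (nat_lit 303137) (nat_lit 10) .nil))))) .nil)) 
(.lf (nat_lit 103507) (.g (nat_lit 2037) (.e (nat_lit 3546) (nat_lit 219) (.e (nat_lit 712753) (nat_lit 30) (.e (nat_lit 450586) (nat_lit 10) (.e (nat_lit 573475) (nat_lit 12) (.e (nat_lit 57507) (nat_lit 39) .nil))))) .nil))) (.nd (nat_lit 6) 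
(.lf (nat_lit 103475) (.g (nat_lit 2641) (.e (nat_lit 3543) (nat_lit 219) (.e (nat_lit 712755) (nat_lit 30) (.e (nat_lit 450588) (nat_lit 10) (.e (nat_lit 573473) (nat_lit 12) (.e (nat_lit 57508) (nat_lit 39) .nil))))) .nil)) 
(.lf (nat_lit 103539) (.g (nat_lit 772) (.e (nat_lit 3549) (nat_lit 219) (.e (nat_lit 712752) (nat_lit 29) (.e (nat_lit 442427) (nat_lit 23) .nil))) .nil))))) (.nd (nat_lit 4) (.nd (nat_lit 5) (.nd (nat_lit 6) 
(.lf (nat_lit 103435) (.g (nat_lit 4307) (.e (nat_lit 3537) (nat_lit 218) (.e (nat_lit 704738) (nat_lit 11) (.e (nat_lit 16425) (nat_lit 7) (.e (nat_lit 409649) (nat_lit 18) (.e (nat_lit 303140) (nat_lit 10) (.e (nat_lit 434275) (nat_lit 39) (.e (nat_lit 663580) (nat_lit 9) (.e (nat_lit 2477) (nat_lit 157) .nil)))))))) (.g (nat_lit 7) .nil .nil))) 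
(.lf (nat_lit 103499) (.g (nat_lit 2971) (.e (nat_lit 3544) (nat_lit 219) (.e (nat_lit 712755) (nat_lit 30) (.e (nat_lit 450588) (nat_lit 10) (.e (nat_lit 573475) (nat_lit 12) (.e (nat_lit 57507) (nat_lit 39) .nil))))) .nil))) (.nd (nat_lit 6) 
(.lf (nat_lit 103467) (.g (nat_lit 247) (.e (nat_lit 7936) (nat_lit 218) (.e (nat_lit 704741) (nat_lit 11) (.e (nat_lit 24320) (nat_lit 34) (.e (nat_lit 393289) (nat_lit 25) (.e (nat_lit 466688) (nat_lit 21) .nil))))) .nil)) 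
(.lf (nat_lit 103531) (.g (nat_lit 3608) (.e (nat_lit 3548) (nat_lit 219) (.e (nat_lit 712755) (nat_lit 30) (.e (nat_lit 450588) (nat_lit 10) (.e (nat_lit 573474) (nat_lit 12) (.e (nat_lit 57509) (nat_lit 39) .nil))))) .nil)))) (.nd (nat_lit 5) (.nd (nat_lit 6) 
(.lf (nat_lit 103451) (.g (nat_lit 3559) (.e (nat_lit 3539) (nat_lit 218) (.e (nat_lit 704738) (nat_lit 11) (.e (nat_lit 16425) (nat_lit 7) (.e (nat_lit 409648) (nat_lit 18) (.e (nat_lit 303137) (nat_lit 10) .nil))))) .nil)) 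
(.lf (nat_lit 103515) (.g (nat_lit 4045) (.e (nat_lit 3547) (nat_lit 219) (.e (nat_lit 712747) (nat_lit 28) (.e (nat_lit 434268) (nat_lit 36) (.e (nat_lit 639017) (nat_lit 15) (.e (nat_lit 57480) (nat_lit 28) (.e (nat_lit 557108) (nat_lit 15) (.e (nat_lit 188427) (nat_lit 20) .nil))))))) (.g (nat_lit 0) .nil .nil)))) (.nd (nat_lit 6) 
(.lf (nat_lit 103483) (.g (nat_lit 3607) (.e (nat_lit 3543) (nat_lit 219) (.e (nat_lit 712755) (nat_lit 30) (.e (nat_lit 450588) (nat_lit 10) (.e (nat_lit 573474) (nat_lit 12) (.e (nat_lit 57510) (nat_lit 39) .nil))))) .nil)) 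
(.lf (nat_lit 103547) (.g (nat_lit 1323) (.e (nat_lit 3549) (nat_lit 219) (.e (nat_lit 712753) (nat_lit 30) (.e (nat_lit 450586) (nat_lit 10) (.e (nat_lit 573473) (nat_lit 12) (.e (nat_lit 57508) (nat_lit 39) .nil))))) .nil)))))) (.nd (nat_lit 3) (.nd (nat_lit 4) (.nd (nat_lit 5) (.nd (nat_lit 6) 
(.lf (nat_lit 103431) (.g (nat_lit 2656) (.e (nat_lit 3537) (nat_lit 218) (.e (nat_lit 704738) (nat_lit 11) (.e (nat_lit 16425) (nat_lit 7) (.e (nat_lit 409649) (nat_lit 18) (.e (nat_lit 303140) (nat_lit 10) (.e (nat_lit 434202) (nat_lit 18) (.e (nat_lit 5970) (nat_lit 324) (.e (nat_lit 163850) (nat_lit 0) .nil)))))))) (.g (nat_lit 5) .nil .nil))) 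
(.lf (nat_lit 103495) (.g (nat_lit 718) (.e (nat_lit 3544) (nat_lit 219) (.e (nat_lit 712755) (nat_lit 30) (.e (nat_lit 450587) (nat_lit 10) .nil))) .nil))) (.nd (nat_lit 6) 
(.lf (nat_lit 103463) (.g (nat_lit 1234) (.e (nat_lit 7936) (nat_lit 218) (.e (nat_lit 704590) (nat_lit 3) (.e (nat_lit 163962) (nat_lit 25) (.e (nat_lit 532545) (nat_lit 10) .nil)))) .nil)) 
(.lf (nat_lit 103527) (.g (nat_lit 2714) (.e (nat_lit 3548) (nat_lit 219) (.e (nat_lit 712755) (nat_lit 30) (.e (nat_lit 450588) (nat_lit 10) (.e (nat_lit 573473) (nat_lit 12) (.e (nat_lit 57508) (nat_lit 39) .nil))))) .nil)))) (.nd (nat_lit 5) (.nd (nat_lit 6) 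
(.lf (nat_lit 103447) (.g (nat_lit 1817) (.e (nat_lit 3538) (nat_lit 218) (.e (nat_lit 704738) (nat_lit 11) (.e (nat_lit 16425) (nat_lit 7) (.e (nat_lit 409649) (nat_lit 18) (.e (nat_lit 303140) (nat_lit 10) (.e (nat_lit 434275) (nat_lit 39) (.e (nat_lit 663574) (nat_lit 9) (.e (nat_lit 7936) (nat_lit 157) .nil)))))))) (.g (nat_lit 4) .nil .nil))) 
(.lf (nat_lit 103511) (.g (nat_lit 1492) (.e (nat_lit 3546) (nat_lit 219) (.e (nat_lit 712753) (nat_lit 30) (.e (nat_lit 450586) (nat_lit 10) (.e (nat_lit 573477) (nat_lit 12) (.e (nat_lit 57510) (nat_lit 39) .nil))))) .nil))) (.nd (nat_lit 6) 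
(.lf (nat_lit 103479) (.g (nat_lit 3081) (.e (nat_lit 3543) (nat_lit 219) (.e (nat_lit 712755) (nat_lit 30) (.e (nat_lit 450588) (nat_lit 10) (.e (nat_lit 573474) (nat_lit 12) (.e (nat_lit 57347) (nat_lit 0) .nil))))) .nil)) 
(.lf (nat_lit 103543) (.g (nat_lit 1399) (.e (nat_lit 3549) (nat_lit 219) (.e (nat_lit 712753) (nat_lit 30) (.e (nat_lit 450579) (nat_lit 5) (.e (nat_lit 532501) (nat_lit 1) (.e (nat_lit 57670) (nat_lit 152) .nil))))) .nil))))) (.nd (nat_lit 4) (.nd (nat_lit 5) (.nd (nat_lit 6) 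
(.lf (nat_lit 103439) (.g (nat_lit 2851) (.e (nat_lit 3538) (nat_lit 218) (.e (nat_lit 704738) (nat_lit 11) (.e (nat_lit 16425) (nat_lit 7) (.e (nat_lit 409617) (nat_lit 10) (.e (nat_lit 848) (nat_lit 73) (.e (nat_lit 761905) (nat_lit 16) (.e (nat_lit 172094) (nat_lit 9) (.e (nat_lit 426004) (nat_lit 0) .nil)))))))) (.g (nat_lit 5) .nil .nil))) 
(.lf (nat_lit 103503) (.g (nat_lit 3372) (.e (nat_lit 3545) (nat_lit 219) (.e (nat_lit 712747) (nat_lit 28) (.e (nat_lit 434268) (nat_lit 36) (.e (nat_lit 639017) (nat_lit 15) (.e (nat_lit 57480) (nat_lit 28) (.e (nat_lit 557109) (nat_lit 15) (.e (nat_lit 188427) (nat_lit 20) .nil))))))) (.g (nat_lit 6) .nil .nil)))) (.nd (nat_lit 6) 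
(.lf (nat_lit 103471) (.g (nat_lit 2151) (.e (nat_lit 3543) (nat_lit 219) (.e (nat_lit 712755) (nat_lit 30) (.e (nat_lit 450587) (nat_lit 10) (.e (nat_lit 573477) (nat_lit 12) (.e (nat_lit 57510) (nat_lit 39) .nil))))) .nil)) 
(.lf (nat_lit 103535) (.g (nat_lit 2737) (.e (nat_lit 3548) (nat_lit 219) (.e (nat_lit 712755) (nat_lit 30) (.e (nat_lit 450588) (nat_lit 10) (.e (nat_lit 573475) (nat_lit 12) (.e (nat_lit 57507) (nat_lit 39) .nil))))) .nil)))) (.nd (nat_lit 5) (.nd (nat_lit 6) 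
(.lf (nat_lit 103455) (.g (nat_lit 2271) (.e (nat_lit 3540) (nat_lit 218) (.e (nat_lit 704736) (nat_lit 11) (.e (nat_lit 16425) (nat_lit 7) (.e (nat_lit 409648) (nat_lit 18) (.e (nat_lit 303137) (nat_lit 10) (.e (nat_lit 434275) (nat_lit 39) (.e (nat_lit 663580) (nat_lit 9) (.e (nat_lit 2416) (nat_lit 157) .nil)))))))) (.g (nat_lit 4) .nil .nil))) 
(.lf (nat_lit 103519) (.g (nat_lit 1934) (.e (nat_lit 3548) (nat_lit 219) (.e (nat_lit 712752) (nat_lit 29) (.e (nat_lit 442427) (nat_lit 23) (.e (nat_lit 204817) (nat_lit 17) .nil)))) .nil))) (.nd (nat_lit 6) 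
(.lf (nat_lit 103487) (.g (nat_lit 1647) (.e (nat_lit 3543) (nat_lit 219) (.e (nat_lit 712755) (nat_lit 30) (.e (nat_lit 450588) (nat_lit 10) (.e (nat_lit 573475) (nat_lit 12) .nil)))) .nil)) 
(.lf (nat_lit 103551) (.g (nat_lit 1705) (.e (nat_lit 3549) (nat_lit 219) (.e (nat_lit 712753) (nat_lit 30) (.e (nat_lit 450586) (nat_lit 10) (.e (nat_lit 573473) (nat_lit 12) (.e (nat_lit 57511) (nat_lit 39) .nil))))) .nil)))))))))

noncomputable def tv1412 : DT := (.nd (nat_lit 0) (.nd (nat_lit 1) (.nd (nat_lit 2) (.nd (nat_lit 3) (.nd (nat_lit 4) (.nd (nat_lit 5) 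
(.lf (nat_lit 103552) (.g (nat_lit 2020) (.e (nat_lit 3549) (nat_lit 219) (.e (nat_lit 712753) (nat_lit 30) (.e (nat_lit 450586) (nat_lit 10) (.e (nat_lit 573475) (nat_lit 12) (.e (nat_lit 57507) (nat_lit 39) .nil))))) .nil)) 
(.lf (nat_lit 103584) (.g (nat_lit 2211) (.e (nat_lit 7936) (nat_lit 219) (.e (nat_lit 712755) (nat_lit 30) (.e (nat_lit 450580) (nat_lit 5) (.e (nat_lit 532501) (nat_lit 1) (.e (nat_lit 57663) (nat_lit 152) .nil))))) .nil))) (.nd (nat_lit 5) 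
(.lf (nat_lit 103568) (.g (nat_lit 3358) (.e (nat_lit 3549) (nat_lit 219) (.e (nat_lit 712755) (nat_lit 30) (.e (nat_lit 450588) (nat_lit 10) (.e (nat_lit 573474) (nat_lit 12) (.e (nat_lit 57508) (nat_lit 39) .nil))))) .nil)) 
(.lf (nat_lit 103600) (.g (nat_lit 2518) (.e (nat_lit 7936) (nat_lit 219) (.e (nat_lit 712755) (nat_lit 30) (.e (nat_lit 450588) (nat_lit 10) (.e (nat_lit 573473) (nat_lit 12) (.e (nat_lit 57508) (nat_lit 39) .nil))))) .nil)))) (.nd (nat_lit 4) (.nd (nat_lit 5) 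
(.lf (nat_lit 103560) (.g (nat_lit 2677) (.e (nat_lit 3549) (nat_lit 219) (.e (nat_lit 712755) (nat_lit 30) (.e (nat_lit 450588) (nat_lit 10) (.e (nat_lit 573473) (nat_lit 12) (.e (nat_lit 57503) (nat_lit 38) .nil))))) .nil)) 
(.lf (nat_lit 103592) (.g (nat_lit 1185) (.e (nat_lit 7936) (nat_lit 219) (.e (nat_lit 712755) (nat_lit 30) (.e (nat_lit 450587) (nat_lit 10) (.e (nat_lit 573478) (nat_lit 12) .nil)))) .nil))) (.nd (nat_lit 5) 
(.lf (nat_lit 103576) (.g (nat_lit 879) (.e (nat_lit 7936) (nat_lit 219) (.e (nat_lit 712749) (nat_lit 28) (.e (nat_lit 434202) (nat_lit 18) (.e (nat_lit 5943) (nat_lit 322) .nil)))) .nil)) 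
(.lf (nat_lit 103608) (.g (nat_lit 2893) (.e (nat_lit 7936) (nat_lit 219) (.e (nat_lit 712755) (nat_lit 30) (.e (nat_lit 450588) (nat_lit 10) (.e (nat_lit 573474) (nat_lit 12) (.e (nat_lit 57504) (nat_lit 38) .nil))))) .nil))))) (.nd (nat_lit 3) (.nd (nat_lit 4) (.nd (nat_lit 5) 
(.lf (nat_lit 103556) (.g (nat_lit 3386) (.e (nat_lit 3549) (nat_lit 219) (.e (nat_lit 712755) (nat_lit 30) (.e (nat_lit 450587) (nat_lit 10) (.e (nat_lit 573475) (nat_lit 12) (.e (nat_lit 57503) (nat_lit 38) .nil))))) .nil)) 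
(.lf (nat_lit 103588) (.g (nat_lit 3018) (.e (nat_lit 7936) (nat_lit 219) (.e (nat_lit 712755) (nat_lit 30) (.e (nat_lit 450587) (nat_lit 10) (.e (nat_lit 573475) (nat_lit 12) (.e (nat_lit 57503) (nat_lit 38) .nil))))) .nil))) (.nd (nat_lit 5) 
(.lf (nat_lit 103572) (.g (nat_lit 3382) (.e (nat_lit 3549) (nat_lit 219) (.e (nat_lit 712755) (nat_lit 30) (.e (nat_lit 450588) (nat_lit 10) (.e (nat_lit 573475) (nat_lit 12) (.e (nat_lit 57506) (nat_lit 39) .nil))))) .nil)) 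
(.lf (nat_lit 103604) (.g (nat_lit 1505) (.e (nat_lit 7936) (nat_lit 219) (.e (nat_lit 712755) (nat_lit 30) (.e (nat_lit 450588) (nat_lit 10) (.e (nat_lit 573474) (nat_lit 12) .nil)))) .nil)))) (.nd (nat_lit 4) (.nd (nat_lit 5) 
(.lf (nat_lit 103564) (.g (nat_lit 2985) (.e (nat_lit 3549) (nat_lit 219) (.e (nat_lit 712755) (nat_lit 30) (.e (nat_lit 450588) (nat_lit 10) (.e (nat_lit 573473) (nat_lit 12) (.e (nat_lit 57510) (nat_lit 39) .nil))))) .nil)) 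
(.lf (nat_lit 103596) (.g (nat_lit 2955) (.e (nat_lit 7936) (nat_lit 219) (.e (nat_lit 712755) (nat_lit 30) (.e (nat_lit 450588) (nat_lit 10) (.e (nat_lit 573473) (nat_lit 12) (.e (nat_lit 57500) (nat_lit 37) .nil))))) .nil))) (.nd (nat_lit 5) 
(.lf (nat_lit 103580) (.g (nat_lit 1449) (.e (nat_lit 7936) (nat_lit 219) (.e (nat_lit 712755) (nat_lit 30) (.e (nat_lit 450579) (nat_lit 5) (.e (nat_lit 532484) (nat_lit 0) (.e (nat_lit 7936) (nat_lit 149) .nil))))) .nil)) 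
(.lf (nat_lit 103612) (.g (nat_lit 3477) (.e (nat_lit 7936) (nat_lit 219) (.e (nat_lit 712755) (nat_lit 30) (.e (nat_lit 450588) (nat_lit 10) (.e (nat_lit 573474) (nat_lit 12) (.e (nat_lit 57510) (nat_lit 39) .nil))))) .nil)))))) (.nd (nat_lit 2) (.nd (nat_lit 3) (.nd (nat_lit 4) (.nd (nat_lit 5) 
(.lf (nat_lit 103554) (.g (nat_lit 1525) (.e (nat_lit 3549) (nat_lit 219) (.e (nat_lit 712753) (nat_lit 30) (.e (nat_lit 450586) (nat_lit 10) (.e (nat_lit 573477) (nat_lit 12) (.e (nat_lit 57509) (nat_lit 39) .nil))))) .nil)) 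
(.lf (nat_lit 103586) (.g (nat_lit 1592) (.e (nat_lit 7936) (nat_lit 219) (.e (nat_lit 712755) (nat_lit 30) (.e (nat_lit 450581) (nat_lit 5) (.e (nat_lit 532501) (nat_lit 1) (.e (nat_lit 57663) (nat_lit 152) .nil))))) .nil))) (.nd (nat_lit 5) 
(.lf (nat_lit 103570) (.g (nat_lit 3640) (.e (nat_lit 3549) (nat_lit 219) (.e (nat_lit 712755) (nat_lit 30) (.e (nat_lit 450588) (nat_lit 10) (.e (nat_lit 573474) (nat_lit 12) (.e (nat_lit 57510) (nat_lit 39) .nil))))) .nil)) 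
(.lf (nat_lit 103602) (.g (nat_lit 2829) (.e (nat_lit 7936) (nat_lit 219) (.e (nat_lit 712755) (nat_lit 30) (.e (nat_lit 450588) (nat_lit 10) (.e (nat_lit 573473) (nat_lit 12) (.e (nat_lit 57510) (nat_lit 39) .nil))))) .nil)))) (.nd (nat_lit 4) (.nd (nat_lit 5) 
(.lf (nat_lit 103562) (.g (nat_lit 2674) (.e (nat_lit 3549) (nat_lit 219) (.e (nat_lit 712755) (nat_lit 30) (.e (nat_lit 450588) (nat_lit 10) (.e (nat_lit 573473) (nat_lit 12) (.e (nat_lit 57508) (nat_lit 39) .nil))))) .nil)) 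
(.lf (nat_lit 103594) (.g (nat_lit 1833) (.e (nat_lit 7936) (nat_lit 219) (.e (nat_lit 712755) (nat_lit 30) (.e (nat_lit 450587) (nat_lit 10) (.e (nat_lit 573478) (nat_lit 12) (.e (nat_lit 57509) (nat_lit 39) .nil))))) .nil))) (.nd (nat_lit 5) 
(.lf (nat_lit 103578) (.g (nat_lit 1404) (.e (nat_lit 7936) (nat_lit 219) (.e (nat_lit 712753) (nat_lit 30) (.e (nat_lit 450580) (nat_lit 5) (.e (nat_lit 532484) (nat_lit 0) (.e (nat_lit 7936) (nat_lit 149) .nil))))) .nil)) 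
(.lf (nat_lit 103610) (.g (nat_lit 3195) (.e (nat_lit 7936) (nat_lit 219) (.e (nat_lit 712755) (nat_lit 30) (.e (nat_lit 450588) (nat_lit 10) (.e (nat_lit 573474) (nat_lit 12) (.e (nat_lit 57508) (nat_lit 39) .nil))))) .nil))))) (.nd (nat_lit 3) (.nd (nat_lit 4) (.nd (nat_lit 5) 
(.lf (nat_lit 103558) (.g (nat_lit 1989) (.e (nat_lit 3549) (nat_lit 219) (.e (nat_lit 712755) (nat_lit 30) (.e (nat_lit 450587) (nat_lit 10) (.e (nat_lit 573478) (nat_lit 12) (.e (nat_lit 57509) (nat_lit 39) .nil))))) .nil)) 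
(.lf (nat_lit 103590) (.g (nat_lit 2037) (.e (nat_lit 7936) (nat_lit 219) (.e (nat_lit 712755) (nat_lit 30) (.e (nat_lit 450587) (nat_lit 10) (.e (nat_lit 573477) (nat_lit 12) (.e (nat_lit 57510) (nat_lit 39) .nil))))) .nil))) (.nd (nat_lit 5) 
(.lf (nat_lit 103574) (.g (nat_lit 3093) (.e (nat_lit 3549) (nat_lit 219) (.e (nat_lit 712755) (nat_lit 30) (.e (nat_lit 450588) (nat_lit 10) (.e (nat_lit 573475) (nat_lit 12) (.e (nat_lit 57508) (nat_lit 39) .nil))))) .nil)) 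
(.lf (nat_lit 103606) (.g (nat_lit 3194) (.e (nat_lit 7936) (nat_lit 219) (.e (nat_lit 712755) (nat_lit 30) (.e (nat_lit 450588) (nat_lit 10) (.e (nat_lit 573474) (nat_lit 12) (.e (nat_lit 57348) (nat_lit 0) .nil))))) .nil)))) (.nd (nat_lit 4) (.nd (nat_lit 5) 
(.lf (nat_lit 103566) (.g (nat_lit 3075) (.e (nat_lit 3549) (nat_lit 219) (.e (nat_lit 712755) (nat_lit 30) (.e (nat_lit 450588) (nat_lit 10) (.e (nat_lit 573474) (nat_lit 12) (.e (nat_lit 57503) (nat_lit 38) .nil))))) .nil)) 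
(.lf (nat_lit 103598) (.g (nat_lit 2802) (.e (nat_lit 7936) (nat_lit 219) (.e (nat_lit 712755) (nat_lit 30) (.e (nat_lit 450588) (nat_lit 10) (.e (nat_lit 573473) (nat_lit 12) (.e (nat_lit 57504) (nat_lit 38) .nil))))) .nil))) (.nd (nat_lit 5) 
(.lf (nat_lit 103582) (.g (nat_lit 2074) (.e (nat_lit 7936) (nat_lit 219) (.e (nat_lit 712755) (nat_lit 30) (.e (nat_lit 450579) (nat_lit 5) (.e (nat_lit 532504) (nat_lit 1) (.e (nat_lit 57663) (nat_lit 152) .nil))))) .nil)) 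
(.lf (nat_lit 103614) (.g (nat_lit 3481) (.e (nat_lit 7936) (nat_lit 219) (.e (nat_lit 712755) (nat_lit 30) (.e (nat_lit 450588) (nat_lit 10) (.e (nat_lit 573474) (nat_lit 12) (.e (nat_lit 57512) (nat_lit 40) .nil))))) .nil))))))) (.nd (nat_lit 1) (.nd (nat_lit 2) (.nd (nat_lit 3) (.nd (nat_lit 4) (.nd (nat_lit 5) 
(.lf (nat_lit 103553) (.g (nat_lit 2067) (.e (nat_lit 3549) (nat_lit 219) (.e (nat_lit 712753) (nat_lit 30) (.e (nat_lit 450586) (nat_lit 10) (.e (nat_lit 573475) (nat_lit 12) (.e (nat_lit 57508) (nat_lit 39) .nil))))) .nil)) 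
(.lf (nat_lit 103585) (.g (nat_lit 416) (.e (nat_lit 7936) (nat_lit 219) (.e (nat_lit 712755) (nat_lit 30) (.e (nat_lit 450581) (nat_lit 5) .nil))) .nil))) (.nd (nat_lit 5) 
(.lf (nat_lit 103569) (.g (nat_lit 3568) (.e (nat_lit 3549) (nat_lit 219) (.e (nat_lit 712755) (nat_lit 30) (.e (nat_lit 450588) (nat_lit 10) (.e (nat_lit 573474) (nat_lit 12) (.e (nat_lit 57509) (nat_lit 39) .nil))))) .nil)) 
(.lf (nat_lit 103601) (.g (nat_lit 2956) (.e (nat_lit 7936) (nat_lit 219) (.e (nat_lit 712755) (nat_lit 30) (.e (nat_lit 450588) (nat_lit 10) (.e (nat_lit 573473) (nat_lit 12) (.e (nat_lit 57509) (nat_lit 39) .nil))))) .nil)))) (.nd (nat_lit 4) (.nd (nat_lit 5) 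
(.lf (nat_lit 103561) (.g (nat_lit 2743) (.e (nat_lit 3549) (nat_lit 219) (.e (nat_lit 712755) (nat_lit 30) (.e (nat_lit 450588) (nat_lit 10) (.e (nat_lit 573473) (nat_lit 12) (.e (nat_lit 57507) (nat_lit 39) .nil))))) .nil)) 
(.lf (nat_lit 103593) (.g (nat_lit 1733) (.e (nat_lit 7936) (nat_lit 219) (.e (nat_lit 712755) (nat_lit 30) (.e (nat_lit 450587) (nat_lit 10) (.e (nat_lit 573478) (nat_lit 12) (.e (nat_lit 57500) (nat_lit 37) .nil))))) .nil))) (.nd (nat_lit 5) 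
(.lf (nat_lit 103577) (.g (nat_lit 1273) (.e (nat_lit 7936) (nat_lit 219) (.e (nat_lit 712749) (nat_lit 28) (.e (nat_lit 434268) (nat_lit 36) (.e (nat_lit 639017) (nat_lit 15) (.e (nat_lit 57478) (nat_lit 28) .nil))))) .nil)) 
(.lf (nat_lit 103609) (.g (nat_lit 3071) (.e (nat_lit 7936) (nat_lit 219) (.e (nat_lit 712755) (nat_lit 30) (.e (nat_lit 450588) (nat_lit 10) (.e (nat_lit 573474) (nat_lit 12) (.e (nat_lit 57507) (nat_lit 39) .nil))))) .nil))))) (.nd (nat_lit 3) (.nd (nat_lit 4) (.nd (nat_lit 5) 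
(.lf (nat_lit 103557) (.g (nat_lit 2183) (.e (nat_lit 3549) (nat_lit 219) (.e (nat_lit 712755) (nat_lit 30) (.e (nat_lit 450587) (nat_lit 10) (.e (nat_lit 573477) (nat_lit 12) (.e (nat_lit 57510) (nat_lit 39) .nil))))) .nil)) 
(.lf (nat_lit 103589) (.g (nat_lit 1207) (.e (nat_lit 7936) (nat_lit 219) (.e (nat_lit 712755) (nat_lit 30) (.e (nat_lit 450587) (nat_lit 10) (.e (nat_lit 573477) (nat_lit 12) .nil)))) .nil))) (.nd (nat_lit 5) 
(.lf (nat_lit 103573) (.g (nat_lit 2678) (.e (nat_lit 3549) (nat_lit 219) (.e (nat_lit 712755) (nat_lit 30) (.e (nat_lit 450588) (nat_lit 10) (.e (nat_lit 573475) (nat_lit 12) (.e (nat_lit 57507) (nat_lit 39) .nil))))) .nil)) 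
(.lf (nat_lit 103605) (.g (nat_lit 2950) (.e (nat_lit 7936) (nat_lit 219) (.e (nat_lit 712755) (nat_lit 30) (.e (nat_lit 450588) (nat_lit 10) (.e (nat_lit 573474) (nat_lit 12) (.e (nat_lit 57347) (nat_lit 0) .nil))))) .nil)))) (.nd (nat_lit 4) (.nd (nat_lit 5) 
(.lf (nat_lit 103565) (.g (nat_lit 1668) (.e (nat_lit 3549) (nat_lit 219) (.e (nat_lit 712755) (nat_lit 30) (.e (nat_lit 450588) (nat_lit 10) (.e (nat_lit 573474) (nat_lit 12) .nil)))) .nil)) 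
(.lf (nat_lit 103597) (.g (nat_lit 2521) (.e (nat_lit 7936) (nat_lit 219) (.e (nat_lit 712755) (nat_lit 30) (.e (nat_lit 450588) (nat_lit 10) (.e (nat_lit 573473) (nat_lit 12) (.e (nat_lit 57503) (nat_lit 38) .nil))))) .nil))) (.nd (nat_lit 5) 
(.lf (nat_lit 103581) (.g (nat_lit 1898) (.e (nat_lit 7936) (nat_lit 219) (.e (nat_lit 712755) (nat_lit 30) (.e (nat_lit 450579) (nat_lit 5) (.e (nat_lit 532501) (nat_lit 1) (.e (nat_lit 57663) (nat_lit 152) .nil))))) .nil)) 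
(.lf (nat_lit 103613) (.g (nat_lit 3442) (.e (nat_lit 7936) (nat_lit 219) (.e (nat_lit 712755) (nat_lit 30) (.e (nat_lit 450588) (nat_lit 10) (.e (nat_lit 573474) (nat_lit 12) (.e (nat_lit 57511) (nat_lit 39) .nil))))) .nil)))))) (.nd (nat_lit 2) (.nd (nat_lit 3) (.nd (nat_lit 4) (.nd (nat_lit 5) 
(.lf (nat_lit 103555) (.g (nat_lit 1720) (.e (nat_lit 3549) (nat_lit 219) (.e (nat_lit 712753) (nat_lit 30) (.e (nat_lit 450586) (nat_lit 10) (.e (nat_lit 573477) (nat_lit 12) (.e (nat_lit 57511) (nat_lit 39) (.e (nat_lit 647199) (nat_lit 11) (.e (nat_lit 16388) (nat_lit 0) .nil))))))) (.g (nat_lit 5) .nil .nil))) 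
(.lf (nat_lit 103587) (.g (nat_lit 2491) (.e (nat_lit 7936) (nat_lit 219) (.e (nat_lit 712755) (nat_lit 30) (.e (nat_lit 450587) (nat_lit 10) (.e (nat_lit 573473) (nat_lit 12) .nil)))) .nil))) (.nd (nat_lit 5) 
(.lf (nat_lit 103571) (.g (nat_lit 3605) (.e (nat_lit 3549) (nat_lit 219) (.e (nat_lit 712755) (nat_lit 30) (.e (nat_lit 450588) (nat_lit 10) (.e (nat_lit 573474) (nat_lit 12) (.e (nat_lit 57511) (nat_lit 39) .nil))))) .nil)) 
(.lf (nat_lit 103603) (.g (nat_lit 2582) (.e (nat_lit 7936) (nat_lit 219) (.e (nat_lit 712755) (nat_lit 30) (.e (nat_lit 450588) (nat_lit 10) (.e (nat_lit 573473) (nat_lit 12) (.e (nat_lit 57511) (nat_lit 39) .nil))))) .nil)))) (.nd (nat_lit 4) (.nd (nat_lit 5) 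
(.lf (nat_lit 103563) (.g (nat_lit 2698) (.e (nat_lit 3549) (nat_lit 219) (.e (nat_lit 712755) (nat_lit 30) (.e (nat_lit 450588) (nat_lit 10) (.e (nat_lit 573473) (nat_lit 12) (.e (nat_lit 57508) (nat_lit 39) (.e (nat_lit 647195) (nat_lit 9) (.e (nat_lit 422) (nat_lit 32) (.e (nat_lit 426012) (nat_lit 0) .nil)))))))) (.g (nat_lit 4) .nil .nil))) 
(.lf (nat_lit 103595) (.g (nat_lit 1549) (.e (nat_lit 7936) (nat_lit 219) (.e (nat_lit 712755) (nat_lit 30) (.e (nat_lit 450588) (nat_lit 10) (.e (nat_lit 581376) (nat_lit 0) .nil)))) .nil))) (.nd (nat_lit 5) 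
(.lf (nat_lit 103579) (.g (nat_lit 508) (.e (nat_lit 7936) (nat_lit 219) (.e (nat_lit 712755) (nat_lit 30) (.e (nat_lit 458496) (nat_lit 1) .nil))) .nil)) 
(.lf (nat_lit 103611) (.g (nat_lit 3406) (.e (nat_lit 7936) (nat_lit 219) (.e (nat_lit 712755) (nat_lit 30) (.e (nat_lit 450588) (nat_lit 10) (.e (nat_lit 573474) (nat_lit 12) (.e (nat_lit 57509) (nat_lit 39) .nil))))) .nil))))) (.nd (nat_lit 3) (.nd (nat_lit 4) (.nd (nat_lit 5) 
(.lf (nat_lit 103559) (.g (nat_lit 1665) (.e (nat_lit 3549) (nat_lit 219) (.e (nat_lit 712755) (nat_lit 30) (.e (nat_lit 450588) (nat_lit 10) (.e (nat_lit 573473) (nat_lit 12) .nil)))) .nil)) 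
(.lf (nat_lit 103591) (.g (nat_lit 2080) (.e (nat_lit 7936) (nat_lit 219) (.e (nat_lit 712755) (nat_lit 30) (.e (nat_lit 450587) (nat_lit 10) (.e (nat_lit 573477) (nat_lit 12) (.e (nat_lit 57511) (nat_lit 39) .nil))))) .nil))) (.nd (nat_lit 5) 
(.lf (nat_lit 103575) (.g (nat_lit 1298) (.e (nat_lit 7936) (nat_lit 219) (.e (nat_lit 712729) (nat_lit 18) (.e (nat_lit 204863) (nat_lit 27) (.e (nat_lit 344131) (nat_lit 26) .nil)))) .nil)) 
(.lf (nat_lit 103607) (.g (nat_lit 2912) (.e (nat_lit 7936) (nat_lit 219) (.e (nat_lit 712755) (nat_lit 30) (.e (nat_lit 450588) (nat_lit 10) (.e (nat_lit 573474) (nat_lit 12) (.e (nat_lit 57503) (nat_lit 38) .nil))))) .nil)))) (.nd (nat_lit 4) (.nd (nat_lit 5) 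
(.lf (nat_lit 103567) (.g (nat_lit 3233) (.e (nat_lit 3549) (nat_lit 219) (.e (nat_lit 712755) (nat_lit 30) (.e (nat_lit 450588) (nat_lit 10) (.e (nat_lit 573474) (nat_lit 12) (.e (nat_lit 57507) (nat_lit 39) .nil))))) .nil)) 
(.lf (nat_lit 103599) (.g (nat_lit 2587) (.e (nat_lit 7936) (nat_lit 219) (.e (nat_lit 712755) (nat_lit 30) (.e (nat_lit 450588) (nat_lit 10) (.e (nat_lit 573473) (nat_lit 12) (.e (nat_lit 57507) (nat_lit 39) .nil))))) .nil))) (.nd (nat_lit 5) 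
(.lf (nat_lit 103583) (.g (nat_lit 1312) (.e (nat_lit 7936) (nat_lit 219) (.e (nat_lit 712755) (nat_lit 30) (.e (nat_lit 450580) (nat_lit 5) (.e (nat_lit 532484) (nat_lit 0) .nil)))) .nil)) 
(.lf (nat_lit 103615) (.g (nat_lit 3481) (.e (nat_lit 7936) (nat_lit 219) (.e (nat_lit 712755) (nat_lit 30) (.e (nat_lit 450588) (nat_lit 10) (.e (nat_lit 573474) (nat_lit 12) (.e (nat_lit 57513) (nat_lit 40) .nil))))) .nil))))))))

noncomputable def tv1413 : DT := (.nd (nat_lit 0) (.nd (nat_lit 1) (.nd (nat_lit 2) (.nd (nat_lit 3) (.nd (nat_lit 4) (.nd (nat_lit 5) 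
(.lf (nat_lit 103616) (.g (nat_lit 1408) (.e (nat_lit 7936) (nat_lit 219) (.e (nat_lit 712755) (nat_lit 30) (.e (nat_lit 450588) (nat_lit 10) (.e (nat_lit 573475) (nat_lit 12) .nil)))) .nil)) 
(.lf (nat_lit 103648) (.g (nat_lit 761) (.e (nat_lit 3569) (nat_lit 222) (.e (nat_lit 737300) (nat_lit 7) (.e (nat_lit 286753) (nat_lit 10) (.e (nat_lit 344123) (nat_lit 24) (.e (nat_lit 540724) (nat_lit 28) .nil))))) .nil))) (.nd (nat_lit 5) 
(.lf (nat_lit 103632) (.g (nat_lit 3054) (.e (nat_lit 3555) (nat_lit 220) (.e (nat_lit 720956) (nat_lit 25) (.e (nat_lit 114719) (nat_lit 23) (.e (nat_lit 98387) (nat_lit 33) (.e (nat_lit 491571) (nat_lit 13) (.e (nat_lit 393232) (nat_lit 17) .nil)))))) (.g (nat_lit 0) .nil .nil))) 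
(.lf (nat_lit 103664) (.g (nat_lit 911) (.e (nat_lit 3572) (nat_lit 222) (.e (nat_lit 737283) (nat_lit 0) (.e (nat_lit 5412) (nat_lit 303) (.e (nat_lit 73750) (nat_lit 6) (.e (nat_lit 540724) (nat_lit 28) (.e (nat_lit 442398) (nat_lit 20) .nil)))))) (.g (nat_lit 0) .nil .nil))))) (.nd (nat_lit 4) (.nd (nat_lit 5) 
(.lf (nat_lit 103624) (.g (nat_lit 1844) (.e (nat_lit 3554) (nat_lit 220) (.e (nat_lit 720941) (nat_lit 22) (.e (nat_lit 90172) (nat_lit 14) (.e (nat_lit 180244) (nat_lit 5) (.e (nat_lit 532503) (nat_lit 1) .nil))))) .nil)) 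
(.lf (nat_lit 103656) (.g (nat_lit 692) (.e (nat_lit 3571) (nat_lit 222) (.e (nat_lit 737300) (nat_lit 7) (.e (nat_lit 286755) (nat_lit 10) (.e (nat_lit 344123) (nat_lit 24) (.e (nat_lit 540724) (nat_lit 28) (.e (nat_lit 442398) (nat_lit 20) .nil)))))) (.g (nat_lit 4) .nil .nil)))) (.nd (nat_lit 5) 
(.lf (nat_lit 103640) (.g (nat_lit 1226) (.e (nat_lit 7936) (nat_lit 220) (.e (nat_lit 720941) (nat_lit 22) (.e (nat_lit 90185) (nat_lit 17) (.e (nat_lit 237587) (nat_lit 2) .nil)))) .nil)) 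
(.lf (nat_lit 103672) (.g (nat_lit 3526) (.e (nat_lit 3572) (nat_lit 222) (.e (nat_lit 737284) (nat_lit 0) (.e (nat_lit 5412) (nat_lit 303) (.e (nat_lit 73753) (nat_lit 8) (.e (nat_lit 557119) (nat_lit 18) (.e (nat_lit 2798) (nat_lit 180) (.e (nat_lit 303133) (nat_lit 9) (.e (nat_lit 426022) (nat_lit 0) .nil)))))))) (.g (nat_lit 8) .nil .nil)))))) 
(.nd (nat_lit 3) (.nd (nat_lit 4) (.nd (nat_lit 5) 
(.lf (nat_lit 103620) (.g (nat_lit 2446) (.e (nat_lit 7936) (nat_lit 219) (.e (nat_lit 712755) (nat_lit 30) (.e (nat_lit 450588) (nat_lit 10) (.e (nat_lit 573475) (nat_lit 12) (.e (nat_lit 57507) (nat_lit 39) .nil))))) .nil)) 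
(.lf (nat_lit 103652) (.g (nat_lit 1359) (.e (nat_lit 3571) (nat_lit 222) (.e (nat_lit 737300) (nat_lit 7) (.e (nat_lit 286753) (nat_lit 10) (.e (nat_lit 344123) (nat_lit 24) (.e (nat_lit 540724) (nat_lit 28) (.e (nat_lit 442395) (nat_lit 20) .nil)))))) (.g (nat_lit 6) .nil .nil)))) (.nd (nat_lit 5) 
(.lf (nat_lit 103636) (.g (nat_lit 892) (.e (nat_lit 7936) (nat_lit 220) (.e (nat_lit 720938) (nat_lit 22) (.e (nat_lit 90174) (nat_lit 14) (.e (nat_lit 180243) (nat_lit 5) .nil)))) .nil)) 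
(.lf (nat_lit 103668) (.g (nat_lit 713) (.e (nat_lit 3572) (nat_lit 222) (.e (nat_lit 737283) (nat_lit 0) (.e (nat_lit 5413) (nat_lit 303) (.e (nat_lit 73750) (nat_lit 6) (.e (nat_lit 540724) (nat_lit 28) (.e (nat_lit 442398) (nat_lit 20) .nil)))))) (.g (nat_lit 0) .nil .nil))))) (.nd (nat_lit 4) (.nd (nat_lit 5) 
(.lf (nat_lit 103628) (.g (nat_lit 1869) (.e (nat_lit 3555) (nat_lit 220) (.e (nat_lit 720956) (nat_lit 25) (.e (nat_lit 114719) (nat_lit 23) (.e (nat_lit 98350) (nat_lit 24) (.e (nat_lit 409616) (nat_lit 10) .nil))))) .nil)) 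
(.lf (nat_lit 103660) (.g (nat_lit 872) (.e (nat_lit 3572) (nat_lit 222) (.e (nat_lit 737283) (nat_lit 0) (.e (nat_lit 5409) (nat_lit 303) (.e (nat_lit 73750) (nat_lit 6) (.e (nat_lit 540724) (nat_lit 28) (.e (nat_lit 442398) (nat_lit 20) .nil)))))) (.g (nat_lit 0) .nil .nil)))) (.nd (nat_lit 5) 
(.lf (nat_lit 103644) (.g (nat_lit 200) (.e (nat_lit 7936) (nat_lit 221) (.e (nat_lit 729097) (nat_lit 11) (.e (nat_lit 433920) (nat_lit 34) (.e (nat_lit 393289) (nat_lit 25) (.e (nat_lit 466688) (nat_lit 21) .nil))))) .nil)) 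
(.lf (nat_lit 103676) (.g (nat_lit 1228) (.e (nat_lit 3572) (nat_lit 222) (.e (nat_lit 737300) (nat_lit 7) (.e (nat_lit 286755) (nat_lit 10) (.e (nat_lit 344123) (nat_lit 24) (.e (nat_lit 540724) (nat_lit 28) (.e (nat_lit 442395) (nat_lit 20) .nil)))))) (.g (nat_lit 0) .nil .nil))))))) (.nd (nat_lit 2) (.nd (nat_lit 3) (.nd (nat_lit 4) (.nd (nat_lit 5) 
(.lf (nat_lit 103618) (.g (nat_lit 2636) (.e (nat_lit 7936) (nat_lit 219) (.e (nat_lit 712755) (nat_lit 30) (.e (nat_lit 450588) (nat_lit 10) (.e (nat_lit 573475) (nat_lit 12) (.e (nat_lit 57504) (nat_lit 38) .nil))))) .nil)) 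
(.lf (nat_lit 103650) (.g (nat_lit 2132) (.e (nat_lit 3570) (nat_lit 222) (.e (nat_lit 737300) (nat_lit 7) (.e (nat_lit 286749) (nat_lit 9) (.e (nat_lit 336013) (nat_lit 2) (.e (nat_lit 98048) (nat_lit 2) (.e (nat_lit 16446) (nat_lit 9) (.e (nat_lit 426009) (nat_lit 0) .nil))))))) (.g (nat_lit 4) .nil .nil)))) (.nd (nat_lit 5) 
(.lf (nat_lit 103634) (.g (nat_lit 1586) (.e (nat_lit 7936) (nat_lit 220) (.e (nat_lit 720938) (nat_lit 22) (.e (nat_lit 90172) (nat_lit 14) (.e (nat_lit 180243) (nat_lit 5) (.e (nat_lit 532503) (nat_lit 1) .nil))))) .nil)) 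
(.lf (nat_lit 103666) (.g (nat_lit 3423) (.e (nat_lit 3572) (nat_lit 222) (.e (nat_lit 737283) (nat_lit 0) (.e (nat_lit 5412) (nat_lit 303) (.e (nat_lit 73753) (nat_lit 8) (.e (nat_lit 557119) (nat_lit 18) (.e (nat_lit 2798) (nat_lit 180) (.e (nat_lit 303133) (nat_lit 9) (.e (nat_lit 426023) (nat_lit 0) .nil)))))))) (.g (nat_lit 8) .nil .nil))))) (.nd (nat_lit 4) (.nd (nat_lit 5) 
(.lf (nat_lit 103626) (.g (nat_lit 1286) (.e (nat_lit 3555) (nat_lit 220) (.e (nat_lit 720956) (nat_lit 25) (.e (nat_lit 114716) (nat_lit 22) (.e (nat_lit 90181) (nat_lit 16) (.e (nat_lit 229593) (nat_lit 187) .nil))))) .nil)) 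
(.lf (nat_lit 103658) (.g (nat_lit 1069) (.e (nat_lit 3571) (nat_lit 222) (.e (nat_lit 737300) (nat_lit 7) (.e (nat_lit 286756) (nat_lit 10) (.e (nat_lit 344123) (nat_lit 24) (.e (nat_lit 540724) (nat_lit 28) (.e (nat_lit 442398) (nat_lit 20) .nil)))))) (.g (nat_lit 4) .nil .nil)))) (.nd (nat_lit 5) 
(.lf (nat_lit 103642) (.g (nat_lit 184) (.e (nat_lit 7936) (nat_lit 221) (.e (nat_lit 729095) (nat_lit 11) (.e (nat_lit 433920) (nat_lit 34) (.e (nat_lit 393289) (nat_lit 25) (.e (nat_lit 466688) (nat_lit 21) .nil))))) .nil)) 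
(.lf (nat_lit 103674) (.g (nat_lit 835) (.e (nat_lit 3572) (nat_lit 222) (.e (nat_lit 737299) (nat_lit 7) (.e (nat_lit 286747) (nat_lit 9) (.e (nat_lit 336013) (nat_lit 2) (.e (nat_lit 98048) (nat_lit 0) (.e (nat_lit 463) (nat_lit 34) (.e (nat_lit 442396) (nat_lit 20) .nil))))))) (.g (nat_lit 4) .nil .nil)))))) (.nd (nat_lit 3) (.nd (nat_lit 4) (.nd (nat_lit 5) 
(.lf (nat_lit 103622) (.g (nat_lit 2583) (.e (nat_lit 7936) (nat_lit 219) (.e (nat_lit 712755) (nat_lit 30) (.e (nat_lit 450588) (nat_lit 10) (.e (nat_lit 573475) (nat_lit 12) (.e (nat_lit 57509) (nat_lit 39) .nil))))) .nil)) 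
(.lf (nat_lit 103654) (.g (nat_lit 814) (.e (nat_lit 3571) (nat_lit 222) (.e (nat_lit 737300) (nat_lit 7) (.e (nat_lit 286754) (nat_lit 10) (.e (nat_lit 344123) (nat_lit 24) (.e (nat_lit 540724) (nat_lit 28) (.e (nat_lit 442398) (nat_lit 20) .nil)))))) (.g (nat_lit 4) .nil .nil)))) (.nd (nat_lit 5) 
(.lf (nat_lit 103638) (.g (nat_lit 2470) (.e (nat_lit 7936) (nat_lit 220) (.e (nat_lit 720941) (nat_lit 22) (.e (nat_lit 90172) (nat_lit 14) (.e (nat_lit 180250) (nat_lit 10) (.e (nat_lit 581376) (nat_lit 5) .nil))))) .nil)) 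
(.lf (nat_lit 103670) (.g (nat_lit 675) (.e (nat_lit 3572) (nat_lit 222) (.e (nat_lit 737284) (nat_lit 0) (.e (nat_lit 5410) (nat_lit 303) (.e (nat_lit 73750) (nat_lit 6) (.e (nat_lit 540724) (nat_lit 28) (.e (nat_lit 442396) (nat_lit 20) .nil)))))) (.g (nat_lit 0) .nil .nil))))) (.nd (nat_lit 4) (.nd (nat_lit 5) 
(.lf (nat_lit 103630) (.g (nat_lit 3259) (.e (nat_lit 3555) (nat_lit 220) (.e (nat_lit 720956) (nat_lit 25) (.e (nat_lit 114719) (nat_lit 23) (.e (nat_lit 98387) (nat_lit 33) (.e (nat_lit 491569) (nat_lit 13) (.e (nat_lit 393234) (nat_lit 17) .nil)))))) (.g (nat_lit 6) .nil .nil))) 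
(.lf (nat_lit 103662) (.g (nat_lit 753) (.e (nat_lit 3572) (nat_lit 222) (.e (nat_lit 737283) (nat_lit 0) (.e (nat_lit 5410) (nat_lit 303) (.e (nat_lit 73750) (nat_lit 6) (.e (nat_lit 540724) (nat_lit 28) (.e (nat_lit 442398) (nat_lit 20) .nil)))))) (.g (nat_lit 0) .nil .nil)))) (.nd (nat_lit 5) 
(.lf (nat_lit 103646) (.g (nat_lit 1152) (.e (nat_lit 3567) (nat_lit 222) (.e (nat_lit 737300) (nat_lit 7) (.e (nat_lit 286753) (nat_lit 10) (.e (nat_lit 344123) (nat_lit 24) (.e (nat_lit 540724) (nat_lit 28) (.e (nat_lit 442398) (nat_lit 20) .nil)))))) (.g (nat_lit 6) .nil .nil))) 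
(.lf (nat_lit 103678) (.g (nat_lit 787) (.e (nat_lit 3573) (nat_lit 223) (.e (nat_lit 745491) (nat_lit 4) (.e (nat_lit 65586) (nat_lit 7) (.e (nat_lit 319500) (nat_lit 10) .nil)))) .nil))))))) (.nd (nat_lit 1) (.nd (nat_lit 2) (.nd (nat_lit 3) (.nd (nat_lit 4) (.nd (nat_lit 5) 
(.lf (nat_lit 103617) (.g (nat_lit 2463) (.e (nat_lit 7936) (nat_lit 219) (.e (nat_lit 712755) (nat_lit 30) (.e (nat_lit 450588) (nat_lit 10) (.e (nat_lit 573475) (nat_lit 12) (.e (nat_lit 57503) (nat_lit 38) .nil))))) .nil)) 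
(.lf (nat_lit 103649) (.g (nat_lit 221) (.e (nat_lit 3569) (nat_lit 222) (.e (nat_lit 737300) (nat_lit 7) (.e (nat_lit 286755) (nat_lit 10) .nil))) .nil))) (.nd (nat_lit 5) 
(.lf (nat_lit 103633) (.g (nat_lit 2764) (.e (nat_lit 3557) (nat_lit 220) (.e (nat_lit 720943) (nat_lit 23) (.e (nat_lit 98317) (nat_lit 9) (.e (nat_lit 336204) (nat_lit 12) .nil)))) .nil)) 
(.lf (nat_lit 103665) (.g (nat_lit 3577) (.e (nat_lit 3572) (nat_lit 222) (.e (nat_lit 737283) (nat_lit 0) (.e (nat_lit 5412) (nat_lit 303) (.e (nat_lit 73753) (nat_lit 8) (.e (nat_lit 557119) (nat_lit 18) (.e (nat_lit 2798) (nat_lit 180) (.e (nat_lit 303133) (nat_lit 9) (.e (nat_lit 426022) (nat_lit 0) .nil)))))))) (.g (nat_lit 8) .nil .nil))))) (.nd (nat_lit 4) (.nd (nat_lit 5) 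
(.lf (nat_lit 103625) (.g (nat_lit 834) (.e (nat_lit 3555) (nat_lit 220) (.e (nat_lit 720956) (nat_lit 25) (.e (nat_lit 114715) (nat_lit 22) (.e (nat_lit 90165) (nat_lit 12) (.e (nat_lit 171776) (nat_lit 191) .nil))))) .nil)) 
(.lf (nat_lit 103657) (.g (nat_lit 1532) (.e (nat_lit 3571) (nat_lit 222) (.e (nat_lit 737300) (nat_lit 7) (.e (nat_lit 286756) (nat_lit 10) (.e (nat_lit 344123) (nat_lit 24) (.e (nat_lit 540724) (nat_lit 28) (.e (nat_lit 442395) (nat_lit 20) .nil)))))) (.g (nat_lit 0) .nil .nil)))) (.nd (nat_lit 5) 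
(.lf (nat_lit 103641) (.g (nat_lit 1130) (.e (nat_lit 7936) (nat_lit 220) (.e (nat_lit 720941) (nat_lit 22) (.e (nat_lit 90185) (nat_lit 17) (.e (nat_lit 237592) (nat_lit 3) .nil)))) .nil)) 
(.lf (nat_lit 103673) (.g (nat_lit 3387) (.e (nat_lit 3572) (nat_lit 222) (.e (nat_lit 737284) (nat_lit 0) (.e (nat_lit 5412) (nat_lit 303) (.e (nat_lit 73753) (nat_lit 8) (.e (nat_lit 557119) (nat_lit 18) (.e (nat_lit 2798) (nat_lit 180) (.e (nat_lit 303133) (nat_lit 9) (.e (nat_lit 426023) (nat_lit 0) .nil)))))))) (.g (nat_lit 8) .nil .nil)))))) 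
(.nd (nat_lit 3) (.nd (nat_lit 4) (.nd (nat_lit 5) 
(.lf (nat_lit 103621) (.g (nat_lit 2813) (.e (nat_lit 7936) (nat_lit 219) (.e (nat_lit 712755) (nat_lit 30) (.e (nat_lit 450588) (nat_lit 10) (.e (nat_lit 573475) (nat_lit 12) (.e (nat_lit 57508) (nat_lit 39) .nil))))) .nil)) 
(.lf (nat_lit 103653) (.g (nat_lit 898) (.e (nat_lit 3571) (nat_lit 222) (.e (nat_lit 737300) (nat_lit 7) (.e (nat_lit 286753) (nat_lit 10) (.e (nat_lit 344123) (nat_lit 24) (.e (nat_lit 540724) (nat_lit 28) (.e (nat_lit 442398) (nat_lit 20) .nil)))))) (.g (nat_lit 4) .nil .nil)))) (.nd (nat_lit 5) 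
(.lf (nat_lit 103637) (.g (nat_lit 1188) (.e (nat_lit 7936) (nat_lit 220) (.e (nat_lit 720941) (nat_lit 22) (.e (nat_lit 90172) (nat_lit 14) (.e (nat_lit 180236) (nat_lit 1) (.e (nat_lit 499965) (nat_lit 14) .nil))))) .nil)) 
(.lf (nat_lit 103669) (.g (nat_lit 797) (.e (nat_lit 3572) (nat_lit 222) (.e (nat_lit 737284) (nat_lit 0) (.e (nat_lit 5409) (nat_lit 303) (.e (nat_lit 73750) (nat_lit 6) (.e (nat_lit 540724) (nat_lit 28) (.e (nat_lit 442396) (nat_lit 20) .nil)))))) (.g (nat_lit 0) .nil .nil))))) (.nd (nat_lit 4) (.nd (nat_lit 5) 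
(.lf (nat_lit 103629) (.g (nat_lit 1197) (.e (nat_lit 3555) (nat_lit 220) (.e (nat_lit 720956) (nat_lit 25) (.e (nat_lit 114719) (nat_lit 23) (.e (nat_lit 98387) (nat_lit 33) (.e (nat_lit 491568) (nat_lit 13) .nil))))) .nil)) 
(.lf (nat_lit 103661) (.g (nat_lit 729) (.e (nat_lit 3572) (nat_lit 222) (.e (nat_lit 737283) (nat_lit 0) (.e (nat_lit 5410) (nat_lit 303) (.e (nat_lit 73750) (nat_lit 6) (.e (nat_lit 540724) (nat_lit 28) (.e (nat_lit 442396) (nat_lit 20) .nil)))))) (.g (nat_lit 0) .nil .nil)))) (.nd (nat_lit 5) 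
(.lf (nat_lit 103645) (.g (nat_lit 1126) (.e (nat_lit 3567) (nat_lit 222) (.e (nat_lit 737300) (nat_lit 7) (.e (nat_lit 286753) (nat_lit 10) (.e (nat_lit 344123) (nat_lit 24) (.e (nat_lit 540724) (nat_lit 28) (.e (nat_lit 442396) (nat_lit 20) .nil)))))) (.g (nat_lit 6) .nil .nil))) 
(.lf (nat_lit 103677) (.g (nat_lit 1106) (.e (nat_lit 3572) (nat_lit 222) (.e (nat_lit 737300) (nat_lit 7) (.e (nat_lit 286755) (nat_lit 10) (.e (nat_lit 344123) (nat_lit 24) (.e (nat_lit 540724) (nat_lit 28) (.e (nat_lit 442398) (nat_lit 20) .nil)))))) (.g (nat_lit 0) .nil .nil))))))) (.nd (nat_lit 2) (.nd (nat_lit 3) (.nd (nat_lit 4) (.nd (nat_lit 5) 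
(.lf (nat_lit 103619) (.g (nat_lit 3102) (.e (nat_lit 7936) (nat_lit 219) (.e (nat_lit 712755) (nat_lit 30) (.e (nat_lit 450588) (nat_lit 10) (.e (nat_lit 573475) (nat_lit 12) (.e (nat_lit 57506) (nat_lit 39) .nil))))) .nil)) 
(.lf (nat_lit 103651) (.g (nat_lit 3631) (.e (nat_lit 3571) (nat_lit 222) (.e (nat_lit 737284) (nat_lit 0) (.e (nat_lit 5271) (nat_lit 298) (.e (nat_lit 1400) (nat_lit 106) (.e (nat_lit 319505) (nat_lit 10) (.e (nat_lit 618) (nat_lit 48) (.e (nat_lit 557109) (nat_lit 15) (.e (nat_lit 188427) (nat_lit 20) .nil)))))))) (.g (nat_lit 8) .nil .nil)))) (.nd (nat_lit 5) 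
(.lf (nat_lit 103635) (.g (nat_lit 936) (.e (nat_lit 7936) (nat_lit 220) (.e (nat_lit 720938) (nat_lit 22) (.e (nat_lit 90172) (nat_lit 14) (.e (nat_lit 180244) (nat_lit 5) .nil)))) .nil)) 
(.lf (nat_lit 103667) (.g (nat_lit 690) (.e (nat_lit 3572) (nat_lit 222) (.e (nat_lit 737283) (nat_lit 0) (.e (nat_lit 5413) (nat_lit 303) (.e (nat_lit 73750) (nat_lit 6) (.e (nat_lit 540724) (nat_lit 28) (.e (nat_lit 442396) (nat_lit 20) .nil)))))) (.g (nat_lit 0) .nil .nil))))) (.nd (nat_lit 4) (.nd (nat_lit 5) 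
(.lf (nat_lit 103627) (.g (nat_lit 1254) (.e (nat_lit 3555) (nat_lit 220) (.e (nat_lit 720956) (nat_lit 25) (.e (nat_lit 114716) (nat_lit 22) (.e (nat_lit 90181) (nat_lit 16) (.e (nat_lit 237312) (nat_lit 191) (.e (nat_lit 65653) (nat_lit 27) (.e (nat_lit 426010) (nat_lit 0) .nil))))))) (.g (nat_lit 4) .nil .nil))) 
(.lf (nat_lit 103659) (.g (nat_lit 847) (.e (nat_lit 3572) (nat_lit 222) (.e (nat_lit 737283) (nat_lit 0) (.e (nat_lit 5409) (nat_lit 303) (.e (nat_lit 73750) (nat_lit 6) (.e (nat_lit 540724) (nat_lit 28) (.e (nat_lit 442396) (nat_lit 20) .nil)))))) (.g (nat_lit 0) .nil .nil)))) (.nd (nat_lit 5) 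
(.lf (nat_lit 103643) (.g (nat_lit 370) (.e (nat_lit 7936) (nat_lit 221) (.e (nat_lit 729097) (nat_lit 11) (.e (nat_lit 426563) (nat_lit 34) (.e (nat_lit 393289) (nat_lit 25) (.e (nat_lit 466688) (nat_lit 21) .nil))))) .nil)) 
(.lf (nat_lit 103675) (.g (nat_lit 543) (.e (nat_lit 3572) (nat_lit 222) (.e (nat_lit 737299) (nat_lit 7) (.e (nat_lit 286753) (nat_lit 10) (.e (nat_lit 344123) (nat_lit 24) .nil)))) .nil))))) (.nd (nat_lit 3) (.nd (nat_lit 4) (.nd (nat_lit 5) 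
(.lf (nat_lit 103623) (.g (nat_lit 3109) (.e (nat_lit 7936) (nat_lit 219) (.e (nat_lit 712755) (nat_lit 30) (.e (nat_lit 450588) (nat_lit 10) (.e (nat_lit 573475) (nat_lit 12) (.e (nat_lit 57513) (nat_lit 40) .nil))))) .nil)) 
(.lf (nat_lit 103655) (.g (nat_lit 1154) (.e (nat_lit 3571) (nat_lit 222) (.e (nat_lit 737300) (nat_lit 7) (.e (nat_lit 286755) (nat_lit 10) (.e (nat_lit 344123) (nat_lit 24) (.e (nat_lit 540724) (nat_lit 28) (.e (nat_lit 442395) (nat_lit 20) .nil)))))) (.g (nat_lit 0) .nil .nil)))) (.nd (nat_lit 5) 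
(.lf (nat_lit 103639) (.g (nat_lit 1715) (.e (nat_lit 7936) (nat_lit 220) (.e (nat_lit 720941) (nat_lit 22) (.e (nat_lit 90174) (nat_lit 14) (.e (nat_lit 180243) (nat_lit 5) (.e (nat_lit 532503) (nat_lit 1) .nil))))) .nil)) 
(.lf (nat_lit 103671) (.g (nat_lit 852) (.e (nat_lit 3572) (nat_lit 222) (.e (nat_lit 737284) (nat_lit 0) (.e (nat_lit 5412) (nat_lit 303) (.e (nat_lit 73750) (nat_lit 6) (.e (nat_lit 540724) (nat_lit 28) (.e (nat_lit 442396) (nat_lit 20) .nil)))))) (.g (nat_lit 0) .nil .nil))))) (.nd (nat_lit 4) (.nd (nat_lit 5) 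
(.lf (nat_lit 103631) (.g (nat_lit 2569) (.e (nat_lit 3555) (nat_lit 220) (.e (nat_lit 720956) (nat_lit 25) (.e (nat_lit 114719) (nat_lit 23) (.e (nat_lit 98387) (nat_lit 33) (.e (nat_lit 491571) (nat_lit 13) (.e (nat_lit 393231) (nat_lit 17) .nil)))))) (.g (nat_lit 6) .nil .nil))) 
(.lf (nat_lit 103663) (.g (nat_lit 888) (.e (nat_lit 3572) (nat_lit 222) (.e (nat_lit 737283) (nat_lit 0) (.e (nat_lit 5412) (nat_lit 303) (.e (nat_lit 73750) (nat_lit 6) (.e (nat_lit 540724) (nat_lit 28) (.e (nat_lit 442396) (nat_lit 20) .nil)))))) (.g (nat_lit 0) .nil .nil)))) (.nd (nat_lit 5) 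
(.lf (nat_lit 103647) (.g (nat_lit 1314) (.e (nat_lit 3567) (nat_lit 222) (.e (nat_lit 737300) (nat_lit 7) (.e (nat_lit 286753) (nat_lit 10) (.e (nat_lit 344123) (nat_lit 24) (.e (nat_lit 540724) (nat_lit 28) (.e (nat_lit 442399) (nat_lit 20) .nil)))))) (.g (nat_lit 6) .nil .nil))) 
(.lf (nat_lit 103679) (.g (nat_lit 417) (.e (nat_lit 3576) (nat_lit 223) (.e (nat_lit 745476) (nat_lit 0) (.e (nat_lit 1586) (nat_lit 111) .nil))) .nil))))))))

noncomputable def tv1414 : DT := (.nd (nat_lit 0) (.nd (nat_lit 1) (.nd (nat_lit 2) (.nd (nat_lit 3) (.nd (nat_lit 4) (.nd (nat_lit 5) 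
(.lf (nat_lit 103680) (.g (nat_lit 463) (.e (nat_lit 3576) (nat_lit 223) (.e (nat_lit 745476) (nat_lit 0) (.e (nat_lit 1589) (nat_lit 111) .nil))) .nil)) 
(.lf (nat_lit 103712) (.g (nat_lit 1068) (.e (nat_lit 3578) (nat_lit 223) (.e (nat_lit 745476) (nat_lit 0) (.e (nat_lit 1586) (nat_lit 111) (.e (nat_lit 368384) (nat_lit 11) .nil)))) .nil))) (.nd (nat_lit 5) 
(.lf (nat_lit 103696) (.g (nat_lit 1940) (.e (nat_lit 3577) (nat_lit 223) (.e (nat_lit 745476) (nat_lit 0) (.e (nat_lit 1401) (nat_lit 106) (.e (nat_lit 319531) (nat_lit 16) (.e (nat_lit 286761) (nat_lit 13) .nil))))) .nil)) 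
(.lf (nat_lit 103728) (.g (nat_lit 2112) (.e (nat_lit 3578) (nat_lit 223) (.e (nat_lit 745476) (nat_lit 0) (.e (nat_lit 1599) (nat_lit 111) (.e (nat_lit 360477) (nat_lit 11) (.e (nat_lit 581653) (nat_lit 6) (.e (nat_lit 188439) (nat_lit 20) .nil)))))) (.g (nat_lit 0) .nil .nil))))) (.nd (nat_lit 4) (.nd (nat_lit 5) 
(.lf (nat_lit 103688) (.g (nat_lit 787) (.e (nat_lit 3576) (nat_lit 223) (.e (nat_lit 745491) (nat_lit 4) (.e (nat_lit 65611) (nat_lit 10) (.e (nat_lit 344123) (nat_lit 24) (.e (nat_lit 540724) (nat_lit 28) (.e (nat_lit 442409) (nat_lit 20) .nil)))))) (.g (nat_lit 4) .nil .nil))) 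
(.lf (nat_lit 103720) (.g (nat_lit 1552) (.e (nat_lit 3578) (nat_lit 223) (.e (nat_lit 745476) (nat_lit 0) (.e (nat_lit 1595) (nat_lit 111) (.e (nat_lit 360477) (nat_lit 11) (.e (nat_lit 589568) (nat_lit 6) .nil))))) .nil))) (.nd (nat_lit 5) 
(.lf (nat_lit 103704) (.g (nat_lit 808) (.e (nat_lit 3578) (nat_lit 223) (.e (nat_lit 745475) (nat_lit 0) (.e (nat_lit 1599) (nat_lit 111) (.e (nat_lit 360477) (nat_lit 11) (.e (nat_lit 589568) (nat_lit 6) .nil))))) .nil)) 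
(.lf (nat_lit 103736) (.g (nat_lit 1106) (.e (nat_lit 3578) (nat_lit 223) (.e (nat_lit 745491) (nat_lit 4) (.e (nat_lit 65610) (nat_lit 10) (.e (nat_lit 344123) (nat_lit 24) (.e (nat_lit 540724) (nat_lit 28) (.e (nat_lit 442402) (nat_lit 20) .nil)))))) (.g (nat_lit 4) .nil .nil)))))) (.nd (nat_lit 3) (.nd (nat_lit 4) (.nd (nat_lit 5) 
(.lf (nat_lit 103684) (.g (nat_lit 450) (.e (nat_lit 3576) (nat_lit 223) (.e (nat_lit 745476) (nat_lit 0) (.e (nat_lit 1598) (nat_lit 111) .nil))) .nil)) 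
(.lf (nat_lit 103716) (.g (nat_lit 2247) (.e (nat_lit 3578) (nat_lit 223) (.e (nat_lit 745476) (nat_lit 0) (.e (nat_lit 1595) (nat_lit 111) (.e (nat_lit 360477) (nat_lit 11) (.e (nat_lit 581653) (nat_lit 6) (.e (nat_lit 188435) (nat_lit 20) .nil)))))) (.g (nat_lit 0) .nil .nil)))) (.nd (nat_lit 5) 
(.lf (nat_lit 103700) (.g (nat_lit 1077) (.e (nat_lit 3577) (nat_lit 223) (.e (nat_lit 745491) (nat_lit 4) (.e (nat_lit 65619) (nat_lit 10) (.e (nat_lit 344123) (nat_lit 24) (.e (nat_lit 540724) (nat_lit 28) .nil))))) .nil)) 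
(.lf (nat_lit 103732) (.g (nat_lit 2527) (.e (nat_lit 3578) (nat_lit 223) (.e (nat_lit 745491) (nat_lit 4) (.e (nat_lit 65583) (nat_lit 7) (.e (nat_lit 319499) (nat_lit 10) (.e (nat_lit 618) (nat_lit 48) (.e (nat_lit 557107) (nat_lit 15) (.e (nat_lit 188441) (nat_lit 20) .nil))))))) (.g (nat_lit 6) .nil .nil))))) (.nd (nat_lit 4) (.nd (nat_lit 5) 
(.lf (nat_lit 103692) (.g (nat_lit 641) (.e (nat_lit 3577) (nat_lit 223) (.e (nat_lit 745475) (nat_lit 0) (.e (nat_lit 1589) (nat_lit 111) (.e (nat_lit 360470) (nat_lit 6) .nil)))) .nil)) 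
(.lf (nat_lit 103724) (.g (nat_lit 2674) (.e (nat_lit 3578) (nat_lit 223) (.e (nat_lit 745476) (nat_lit 0) (.e (nat_lit 1598) (nat_lit 111) (.e (nat_lit 360477) (nat_lit 11) (.e (nat_lit 581653) (nat_lit 6) (.e (nat_lit 188439) (nat_lit 20) .nil)))))) (.g (nat_lit 0) .nil .nil)))) (.nd (nat_lit 5) 
(.lf (nat_lit 103708) (.g (nat_lit 2957) (.e (nat_lit 3578) (nat_lit 223) (.e (nat_lit 745476) (nat_lit 0) (.e (nat_lit 1586) (nat_lit 111) (.e (nat_lit 360475) (nat_lit 8) (.e (nat_lit 557119) (nat_lit 18) (.e (nat_lit 2798) (nat_lit 180) (.e (nat_lit 303133) (nat_lit 9) (.e (nat_lit 426048) (nat_lit 0) .nil)))))))) (.g (nat_lit 5) .nil .nil))) 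
(.lf (nat_lit 103740) (.g (nat_lit 764) (.e (nat_lit 3578) (nat_lit 223) (.e (nat_lit 745491) (nat_lit 4) (.e (nat_lit 65611) (nat_lit 10) (.e (nat_lit 344123) (nat_lit 24) (.e (nat_lit 540724) (nat_lit 28) (.e (nat_lit 442402) (nat_lit 20) .nil)))))) (.g (nat_lit 4) .nil .nil))))))) (.nd (nat_lit 2) (.nd (nat_lit 3) (.nd (nat_lit 4) (.nd (nat_lit 5) 
(.lf (nat_lit 103682) (.g (nat_lit 552) (.e (nat_lit 3576) (nat_lit 223) (.e (nat_lit 745476) (nat_lit 0) (.e (nat_lit 1595) (nat_lit 111) .nil))) .nil)) 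
(.lf (nat_lit 103714) (.g (nat_lit 418) (.e (nat_lit 3578) (nat_lit 223) (.e (nat_lit 745476) (nat_lit 0) (.e (nat_lit 1592) (nat_lit 111) .nil))) .nil))) (.nd (nat_lit 5) 
(.lf (nat_lit 103698) (.g (nat_lit 790) (.e (nat_lit 3577) (nat_lit 223) (.e (nat_lit 745491) (nat_lit 4) (.e (nat_lit 65611) (nat_lit 10) (.e (nat_lit 344123) (nat_lit 24) (.e (nat_lit 540724) (nat_lit 28) .nil))))) .nil)) 
(.lf (nat_lit 103730) (.g (nat_lit 2093) (.e (nat_lit 3578) (nat_lit 223) (.e (nat_lit 745476) (nat_lit 0) (.e (nat_lit 1599) (nat_lit 111) (.e (nat_lit 360477) (nat_lit 11) (.e (nat_lit 581653) (nat_lit 6) (.e (nat_lit 188441) (nat_lit 20) .nil)))))) (.g (nat_lit 0) .nil .nil))))) (.nd (nat_lit 4) (.nd (nat_lit 5) 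
(.lf (nat_lit 103690) (.g (nat_lit 722) (.e (nat_lit 3577) (nat_lit 223) (.e (nat_lit 745475) (nat_lit 0) (.e (nat_lit 1586) (nat_lit 111) (.e (nat_lit 368384) (nat_lit 5) .nil)))) .nil)) 
(.lf (nat_lit 103722) (.g (nat_lit 1189) (.e (nat_lit 3578) (nat_lit 223) (.e (nat_lit 745476) (nat_lit 0) (.e (nat_lit 1598) (nat_lit 111) (.e (nat_lit 360466) (nat_lit 3) (.e (nat_lit 516120) (nat_lit 1) .nil))))) .nil))) (.nd (nat_lit 5) 
(.lf (nat_lit 103706) (.g (nat_lit 1395) (.e (nat_lit 3578) (nat_lit 223) (.e (nat_lit 745476) (nat_lit 0) (.e (nat_lit 1575) (nat_lit 110) (.e (nat_lit 352269) (nat_lit 7) (.e (nat_lit 245778) (nat_lit 6) (.e (nat_lit 188435) (nat_lit 20) .nil)))))) (.g (nat_lit 0) .nil .nil))) 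
(.lf (nat_lit 103738) (.g (nat_lit 1526) (.e (nat_lit 3578) (nat_lit 223) (.e (nat_lit 745491) (nat_lit 4) (.e (nat_lit 65610) (nat_lit 10) (.e (nat_lit 344123) (nat_lit 24) (.e (nat_lit 540724) (nat_lit 28) (.e (nat_lit 442409) (nat_lit 20) .nil)))))) (.g (nat_lit 0) .nil .nil)))))) (.nd (nat_lit 3) (.nd (nat_lit 4) (.nd (nat_lit 5) 
(.lf (nat_lit 103686) (.g (nat_lit 542) (.e (nat_lit 3576) (nat_lit 223) (.e (nat_lit 745476) (nat_lit 0) (.e (nat_lit 1599) (nat_lit 111) .nil))) .nil)) 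
(.lf (nat_lit 103718) (.g (nat_lit 2699) (.e (nat_lit 3578) (nat_lit 223) (.e (nat_lit 745476) (nat_lit 0) (.e (nat_lit 1595) (nat_lit 111) (.e (nat_lit 360477) (nat_lit 11) (.e (nat_lit 581653) (nat_lit 6) (.e (nat_lit 188440) (nat_lit 20) .nil)))))) (.g (nat_lit 0) .nil .nil)))) (.nd (nat_lit 5) 
(.lf (nat_lit 103702) (.g (nat_lit 4131) (.e (nat_lit 3578) (nat_lit 223) (.e (nat_lit 745475) (nat_lit 0) (.e (nat_lit 1464) (nat_lit 108) (.e (nat_lit 336060) (nat_lit 7) (.e (nat_lit 319505) (nat_lit 10) (.e (nat_lit 618) (nat_lit 48) (.e (nat_lit 557109) (nat_lit 15) (.e (nat_lit 188434) (nat_lit 20) .nil)))))))) (.g (nat_lit 8) .nil .nil))) 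
(.lf (nat_lit 103734) (.g (nat_lit 1918) (.e (nat_lit 3578) (nat_lit 223) (.e (nat_lit 745491) (nat_lit 4) (.e (nat_lit 65586) (nat_lit 7) (.e (nat_lit 319500) (nat_lit 10) (.e (nat_lit 616) (nat_lit 48) (.e (nat_lit 557107) (nat_lit 15) (.e (nat_lit 188439) (nat_lit 20) .nil))))))) (.g (nat_lit 6) .nil .nil))))) (.nd (nat_lit 4) (.nd (nat_lit 5) 
(.lf (nat_lit 103694) (.g (nat_lit 406) (.e (nat_lit 3577) (nat_lit 223) (.e (nat_lit 745475) (nat_lit 0) (.e (nat_lit 1598) (nat_lit 111) (.e (nat_lit 360470) (nat_lit 6) .nil)))) .nil)) 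
(.lf (nat_lit 103726) (.g (nat_lit 1532) (.e (nat_lit 3578) (nat_lit 223) (.e (nat_lit 745476) (nat_lit 0) (.e (nat_lit 1598) (nat_lit 111) (.e (nat_lit 360477) (nat_lit 11) (.e (nat_lit 589568) (nat_lit 6) .nil))))) .nil))) (.nd (nat_lit 5) 
(.lf (nat_lit 103710) (.g (nat_lit 1849) (.e (nat_lit 3578) (nat_lit 223) (.e (nat_lit 745476) (nat_lit 0) (.e (nat_lit 1586) (nat_lit 111) (.e (nat_lit 360477) (nat_lit 11) (.e (nat_lit 589568) (nat_lit 6) .nil))))) .nil)) 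
(.lf (nat_lit 103742) (.g (nat_lit 1163) (.e (nat_lit 3578) (nat_lit 223) (.e (nat_lit 745491) (nat_lit 4) (.e (nat_lit 65611) (nat_lit 10) (.e (nat_lit 344123) (nat_lit 24) (.e (nat_lit 540724) (nat_lit 28) (.e (nat_lit 442409) (nat_lit 20) .nil)))))) (.g (nat_lit 6) .nil .nil)))))))) (.nd (nat_lit 1) (.nd (nat_lit 2) (.nd (nat_lit 3) (.nd (nat_lit 4) (.nd (nat_lit 5) 
(.lf (nat_lit 103681) (.g (nat_lit 1068) (.e (nat_lit 3576) (nat_lit 223) (.e (nat_lit 745476) (nat_lit 0) (.e (nat_lit 1589) (nat_lit 111) (.e (nat_lit 360470) (nat_lit 6) .nil)))) .nil)) 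
(.lf (nat_lit 103713) (.g (nat_lit 1506) (.e (nat_lit 3578) (nat_lit 223) (.e (nat_lit 745476) (nat_lit 0) (.e (nat_lit 1589) (nat_lit 111) (.e (nat_lit 360477) (nat_lit 11) (.e (nat_lit 589568) (nat_lit 6) .nil))))) .nil))) (.nd (nat_lit 5) 
(.lf (nat_lit 103697) (.g (nat_lit 801) (.e (nat_lit 3577) (nat_lit 223) (.e (nat_lit 745491) (nat_lit 4) (.e (nat_lit 65610) (nat_lit 10) (.e (nat_lit 344123) (nat_lit 24) .nil)))) .nil)) 
(.lf (nat_lit 103729) (.g (nat_lit 2186) (.e (nat_lit 3578) (nat_lit 223) (.e (nat_lit 745476) (nat_lit 0) (.e (nat_lit 1599) (nat_lit 111) (.e (nat_lit 360477) (nat_lit 11) (.e (nat_lit 581653) (nat_lit 6) (.e (nat_lit 188440) (nat_lit 20) .nil)))))) (.g (nat_lit 0) .nil .nil))))) (.nd (nat_lit 4) (.nd (nat_lit 5) 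
(.lf (nat_lit 103689) (.g (nat_lit 1068) (.e (nat_lit 3576) (nat_lit 223) (.e (nat_lit 745491) (nat_lit 4) (.e (nat_lit 65619) (nat_lit 10) (.e (nat_lit 344123) (nat_lit 24) (.e (nat_lit 540724) (nat_lit 28) .nil))))) .nil)) 
(.lf (nat_lit 103721) (.g (nat_lit 391) (.e (nat_lit 3578) (nat_lit 223) (.e (nat_lit 745476) (nat_lit 0) (.e (nat_lit 1598) (nat_lit 111) .nil))) .nil))) (.nd (nat_lit 5) 
(.lf (nat_lit 103705) (.g (nat_lit 3358) (.e (nat_lit 3578) (nat_lit 223) (.e (nat_lit 745476) (nat_lit 0) (.e (nat_lit 1449) (nat_lit 108) (.e (nat_lit 336060) (nat_lit 7) (.e (nat_lit 319505) (nat_lit 10) (.e (nat_lit 618) (nat_lit 48) (.e (nat_lit 557107) (nat_lit 15) (.e (nat_lit 188439) (nat_lit 20) .nil)))))))) (.g (nat_lit 8) .nil .nil))) 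
(.lf (nat_lit 103737) (.g (nat_lit 1151) (.e (nat_lit 3578) (nat_lit 223) (.e (nat_lit 745491) (nat_lit 4) (.e (nat_lit 65610) (nat_lit 10) (.e (nat_lit 344123) (nat_lit 24) (.e (nat_lit 540724) (nat_lit 28) (.e (nat_lit 442408) (nat_lit 20) .nil)))))) (.g (nat_lit 4) .nil .nil)))))) (.nd (nat_lit 3) (.nd (nat_lit 4) (.nd (nat_lit 5) 
(.lf (nat_lit 103685) (.g (nat_lit 954) (.e (nat_lit 3576) (nat_lit 223) (.e (nat_lit 745476) (nat_lit 0) (.e (nat_lit 1598) (nat_lit 111) (.e (nat_lit 360470) (nat_lit 6) .nil)))) .nil)) 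
(.lf (nat_lit 103717) (.g (nat_lit 2626) (.e (nat_lit 3578) (nat_lit 223) (.e (nat_lit 745476) (nat_lit 0) (.e (nat_lit 1595) (nat_lit 111) (.e (nat_lit 360477) (nat_lit 11) (.e (nat_lit 581653) (nat_lit 6) (.e (nat_lit 188439) (nat_lit 20) .nil)))))) (.g (nat_lit 0) .nil .nil)))) (.nd (nat_lit 5) 
(.lf (nat_lit 103701) (.g (nat_lit 534) (.e (nat_lit 3578) (nat_lit 223) (.e (nat_lit 745474) (nat_lit 0) (.e (nat_lit 1592) (nat_lit 111) (.e (nat_lit 360477) (nat_lit 11) (.e (nat_lit 581653) (nat_lit 6) .nil))))) .nil)) 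
(.lf (nat_lit 103733) (.g (nat_lit 806) (.e (nat_lit 3578) (nat_lit 223) (.e (nat_lit 745491) (nat_lit 4) (.e (nat_lit 65583) (nat_lit 7) (.e (nat_lit 319503) (nat_lit 10) .nil)))) .nil)))) (.nd (nat_lit 4) (.nd (nat_lit 5) 
(.lf (nat_lit 103693) (.g (nat_lit 623) (.e (nat_lit 3577) (nat_lit 223) (.e (nat_lit 745475) (nat_lit 0) (.e (nat_lit 1595) (nat_lit 111) (.e (nat_lit 360470) (nat_lit 6) .nil)))) .nil)) 
(.lf (nat_lit 103725) (.g (nat_lit 2748) (.e (nat_lit 3578) (nat_lit 223) (.e (nat_lit 745476) (nat_lit 0) (.e (nat_lit 1598) (nat_lit 111) (.e (nat_lit 360477) (nat_lit 11) (.e (nat_lit 581653) (nat_lit 6) (.e (nat_lit 188440) (nat_lit 20) .nil)))))) (.g (nat_lit 0) .nil .nil)))) (.nd (nat_lit 5) 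
(.lf (nat_lit 103709) (.g (nat_lit 2464) (.e (nat_lit 3578) (nat_lit 223) (.e (nat_lit 745476) (nat_lit 0) (.e (nat_lit 1586) (nat_lit 111) (.e (nat_lit 360477) (nat_lit 11) (.e (nat_lit 581653) (nat_lit 6) (.e (nat_lit 188438) (nat_lit 20) .nil)))))) (.g (nat_lit 6) .nil .nil))) 
(.lf (nat_lit 103741) (.g (nat_lit 802) (.e (nat_lit 3578) (nat_lit 223) (.e (nat_lit 745491) (nat_lit 4) (.e (nat_lit 65611) (nat_lit 10) (.e (nat_lit 344123) (nat_lit 24) (.e (nat_lit 540724) (nat_lit 28) (.e (nat_lit 442408) (nat_lit 20) .nil)))))) (.g (nat_lit 4) .nil .nil))))))) (.nd (nat_lit 2) (.nd (nat_lit 3) (.nd (nat_lit 4) (.nd (nat_lit 5) 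
(.lf (nat_lit 103683) (.g (nat_lit 1162) (.e (nat_lit 3576) (nat_lit 223) (.e (nat_lit 745476) (nat_lit 0) (.e (nat_lit 1595) (nat_lit 111) (.e (nat_lit 360470) (nat_lit 6) .nil)))) .nil)) 
(.lf (nat_lit 103715) (.g (nat_lit 2678) (.e (nat_lit 3578) (nat_lit 223) (.e (nat_lit 745476) (nat_lit 0) (.e (nat_lit 1595) (nat_lit 111) (.e (nat_lit 360473) (nat_lit 8) (.e (nat_lit 557119) (nat_lit 18) (.e (nat_lit 2798) (nat_lit 180) (.e (nat_lit 303133) (nat_lit 9) (.e (nat_lit 426043) (nat_lit 0) .nil)))))))) (.g (nat_lit 5) .nil .nil)))) (.nd (nat_lit 5) 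
(.lf (nat_lit 103699) (.g (nat_lit 757) (.e (nat_lit 3577) (nat_lit 223) (.e (nat_lit 745491) (nat_lit 4) (.e (nat_lit 65616) (nat_lit 10) (.e (nat_lit 344123) (nat_lit 24) (.e (nat_lit 540724) (nat_lit 28) .nil))))) .nil)) 
(.lf (nat_lit 103731) (.g (nat_lit 1080) (.e (nat_lit 3578) (nat_lit 223) (.e (nat_lit 745476) (nat_lit 0) (.e (nat_lit 1599) (nat_lit 111) (.e (nat_lit 360477) (nat_lit 11) (.e (nat_lit 589568) (nat_lit 6) .nil))))) .nil)))) (.nd (nat_lit 4) (.nd (nat_lit 5) 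
(.lf (nat_lit 103691) (.g (nat_lit 1407) (.e (nat_lit 3577) (nat_lit 223) (.e (nat_lit 745475) (nat_lit 0) (.e (nat_lit 1586) (nat_lit 111) (.e (nat_lit 360477) (nat_lit 11) (.e (nat_lit 581653) (nat_lit 6) .nil))))) .nil)) 
(.lf (nat_lit 103723) (.g (nat_lit 2296) (.e (nat_lit 3578) (nat_lit 223) (.e (nat_lit 745476) (nat_lit 0) (.e (nat_lit 1598) (nat_lit 111) (.e (nat_lit 360477) (nat_lit 11) (.e (nat_lit 581653) (nat_lit 6) (.e (nat_lit 188435) (nat_lit 20) .nil)))))) (.g (nat_lit 0) .nil .nil)))) (.nd (nat_lit 5) 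
(.lf (nat_lit 103707) (.g (nat_lit 3591) (.e (nat_lit 3578) (nat_lit 223) (.e (nat_lit 745476) (nat_lit 0) (.e (nat_lit 1586) (nat_lit 111) (.e (nat_lit 360475) (nat_lit 8) (.e (nat_lit 557119) (nat_lit 18) (.e (nat_lit 2798) (nat_lit 180) (.e (nat_lit 303133) (nat_lit 9) (.e (nat_lit 426043) (nat_lit 0) .nil)))))))) (.g (nat_lit 6) .nil .nil))) 
(.lf (nat_lit 103739) (.g (nat_lit 1310) (.e (nat_lit 3578) (nat_lit 223) (.e (nat_lit 745491) (nat_lit 4) (.e (nat_lit 65610) (nat_lit 10) (.e (nat_lit 344123) (nat_lit 24) (.e (nat_lit 540724) (nat_lit 28) (.e (nat_lit 442412) (nat_lit 20) .nil)))))) (.g (nat_lit 5) .nil .nil)))))) (.nd (nat_lit 3) (.nd (nat_lit 4) (.nd (nat_lit 5) 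
(.lf (nat_lit 103687) (.g (nat_lit 787) (.e (nat_lit 3576) (nat_lit 223) (.e (nat_lit 745491) (nat_lit 4) (.e (nat_lit 65586) (nat_lit 7) (.e (nat_lit 319500) (nat_lit 10) .nil)))) .nil)) 
(.lf (nat_lit 103719) (.g (nat_lit 2605) (.e (nat_lit 3578) (nat_lit 223) (.e (nat_lit 745476) (nat_lit 0) (.e (nat_lit 1595) (nat_lit 111) (.e (nat_lit 360477) (nat_lit 11) (.e (nat_lit 581653) (nat_lit 6) (.e (nat_lit 188441) (nat_lit 20) .nil)))))) (.g (nat_lit 0) .nil .nil)))) (.nd (nat_lit 5) 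
(.lf (nat_lit 103703) (.g (nat_lit 1185) (.e (nat_lit 3578) (nat_lit 223) (.e (nat_lit 745475) (nat_lit 0) (.e (nat_lit 1589) (nat_lit 111) (.e (nat_lit 360477) (nat_lit 11) (.e (nat_lit 589568) (nat_lit 6) .nil))))) .nil)) 
(.lf (nat_lit 103735) (.g (nat_lit 1567) (.e (nat_lit 3578) (nat_lit 223) (.e (nat_lit 745491) (nat_lit 4) (.e (nat_lit 65598) (nat_lit 9) (.e (nat_lit 336013) (nat_lit 2) (.e (nat_lit 98048) (nat_lit 0) .nil))))) .nil)))) (.nd (nat_lit 4) (.nd (nat_lit 5) 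
(.lf (nat_lit 103695) (.g (nat_lit 278) (.e (nat_lit 3577) (nat_lit 223) (.e (nat_lit 745475) (nat_lit 0) (.e (nat_lit 1599) (nat_lit 111) (.e (nat_lit 360470) (nat_lit 6) .nil)))) .nil)) 
(.lf (nat_lit 103727) (.g (nat_lit 1736) (.e (nat_lit 3578) (nat_lit 223) (.e (nat_lit 745476) (nat_lit 0) (.e (nat_lit 1599) (nat_lit 111) (.e (nat_lit 360477) (nat_lit 11) (.e (nat_lit 581653) (nat_lit 6) (.e (nat_lit 188435) (nat_lit 20) .nil)))))) (.g (nat_lit 0) .nil .nil)))) (.nd (nat_lit 5) 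
(.lf (nat_lit 103711) (.g (nat_lit 1937) (.e (nat_lit 3578) (nat_lit 223) (.e (nat_lit 745476) (nat_lit 0) (.e (nat_lit 1586) (nat_lit 111) (.e (nat_lit 360477) (nat_lit 11) (.e (nat_lit 589568) (nat_lit 6) (.e (nat_lit 188434) (nat_lit 20) .nil)))))) (.g (nat_lit 4) .nil .nil))) 
(.lf (nat_lit 103743) (.g (nat_lit 955) (.e (nat_lit 3578) (nat_lit 223) (.e (nat_lit 745491) (nat_lit 4) (.e (nat_lit 65611) (nat_lit 10) (.e (nat_lit 344123) (nat_lit 24) (.e (nat_lit 540724) (nat_lit 28) (.e (nat_lit 442412) (nat_lit 20) .nil)))))) (.g (nat_lit 4) .nil .nil)))))))))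

noncomputable def tv1415 : DT := (.nd (nat_lit 0) (.nd (nat_lit 1) (.nd (nat_lit 2) (.nd (nat_lit 3) (.nd (nat_lit 4) (.nd (nat_lit 5) 
(.lf (nat_lit 103744) (.g (nat_lit 734) (.e (nat_lit 3578) (nat_lit 223) (.e (nat_lit 745491) (nat_lit 4) (.e (nat_lit 65616) (nat_lit 10) (.e (nat_lit 344123) (nat_lit 24) (.e (nat_lit 540724) (nat_lit 28) .nil))))) .nil)) 
(.lf (nat_lit 103776) (.g (nat_lit 4520) (.e (nat_lit 3579) (nat_lit 223) (.e (nat_lit 745476) (nat_lit 0) (.e (nat_lit 1256) (nat_lit 92) (.e (nat_lit 98366) (nat_lit 27) (.e (nat_lit 434244) (nat_lit 28) (.e (nat_lit 573481) (nat_lit 13) (.e (nat_lit 65570) (nat_lit 3) (.e (nat_lit 98325) (nat_lit 17) .nil)))))))) (.g (nat_lit 7) .nil .nil)))) (.nd (nat_lit 5) 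
(.lf (nat_lit 103760) (.g (nat_lit 3246) (.e (nat_lit 3579) (nat_lit 223) (.e (nat_lit 745475) (nat_lit 0) (.e (nat_lit 1589) (nat_lit 111) (.e (nat_lit 360473) (nat_lit 8) (.e (nat_lit 557119) (nat_lit 18) (.e (nat_lit 2798) (nat_lit 180) (.e (nat_lit 303133) (nat_lit 9) (.e (nat_lit 426043) (nat_lit 0) .nil)))))))) (.g (nat_lit 7) .nil .nil))) 
(.lf (nat_lit 103792) (.g (nat_lit 2883) (.e (nat_lit 3579) (nat_lit 223) (.e (nat_lit 745476) (nat_lit 0) (.e (nat_lit 1589) (nat_lit 111) (.e (nat_lit 360473) (nat_lit 8) (.e (nat_lit 557119) (nat_lit 18) (.e (nat_lit 2798) (nat_lit 180) (.e (nat_lit 303133) (nat_lit 9) (.e (nat_lit 426033) (nat_lit 0) .nil)))))))) (.g (nat_lit 6) .nil .nil))))) (.nd (nat_lit 4) (.nd (nat_lit 5) 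
(.lf (nat_lit 103752) (.g (nat_lit 1585) (.e (nat_lit 3578) (nat_lit 223) (.e (nat_lit 745493) (nat_lit 6) (.e (nat_lit 81943) (nat_lit 20) (.e (nat_lit 1886) (nat_lit 127) (.e (nat_lit 581653) (nat_lit 6) (.e (nat_lit 188440) (nat_lit 20) .nil)))))) (.g (nat_lit 0) .nil .nil))) 
(.lf (nat_lit 103784) (.g (nat_lit 2938) (.e (nat_lit 3579) (nat_lit 223) (.e (nat_lit 745476) (nat_lit 0) (.e (nat_lit 1586) (nat_lit 111) (.e (nat_lit 360475) (nat_lit 8) (.e (nat_lit 557119) (nat_lit 18) (.e (nat_lit 2798) (nat_lit 180) (.e (nat_lit 303133) (nat_lit 9) (.e (nat_lit 426034) (nat_lit 0) .nil)))))))) (.g (nat_lit 5) .nil .nil)))) (.nd (nat_lit 5) 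
(.lf (nat_lit 103768) (.g (nat_lit 3276) (.e (nat_lit 3579) (nat_lit 223) (.e (nat_lit 745475) (nat_lit 0) (.e (nat_lit 1595) (nat_lit 111) (.e (nat_lit 360473) (nat_lit 8) (.e (nat_lit 557119) (nat_lit 18) (.e (nat_lit 2798) (nat_lit 180) (.e (nat_lit 303133) (nat_lit 9) (.e (nat_lit 426042) (nat_lit 0) .nil)))))))) (.g (nat_lit 6) .nil .nil))) 
(.lf (nat_lit 103800) (.g (nat_lit 1516) (.e (nat_lit 3579) (nat_lit 223) (.e (nat_lit 745476) (nat_lit 0) (.e (nat_lit 1589) (nat_lit 111) (.e (nat_lit 360477) (nat_lit 11) (.e (nat_lit 589568) (nat_lit 6) .nil))))) .nil))))) (.nd (nat_lit 3) (.nd (nat_lit 4) (.nd (nat_lit 5) 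
(.lf (nat_lit 103748) (.g (nat_lit 1353) (.e (nat_lit 3578) (nat_lit 223) (.e (nat_lit 745491) (nat_lit 4) (.e (nat_lit 65619) (nat_lit 10) (.e (nat_lit 344123) (nat_lit 24) (.e (nat_lit 540724) (nat_lit 28) (.e (nat_lit 442409) (nat_lit 20) .nil)))))) (.g (nat_lit 5) .nil .nil))) 
(.lf (nat_lit 103780) (.g (nat_lit 862) (.e (nat_lit 3579) (nat_lit 223) (.e (nat_lit 745476) (nat_lit 0) (.e (nat_lit 1572) (nat_lit 110) (.e (nat_lit 352269) (nat_lit 7) .nil)))) .nil))) (.nd (nat_lit 5) 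
(.lf (nat_lit 103764) (.g (nat_lit 4047) (.e (nat_lit 3579) (nat_lit 223) (.e (nat_lit 745475) (nat_lit 0) (.e (nat_lit 1589) (nat_lit 111) (.e (nat_lit 360475) (nat_lit 8) (.e (nat_lit 557119) (nat_lit 18) (.e (nat_lit 2798) (nat_lit 180) (.e (nat_lit 303133) (nat_lit 9) (.e (nat_lit 426043) (nat_lit 0) .nil)))))))) (.g (nat_lit 7) .nil .nil))) 
(.lf (nat_lit 103796) (.g (nat_lit 3220) (.e (nat_lit 3579) (nat_lit 223) (.e (nat_lit 745476) (nat_lit 0) (.e (nat_lit 1589) (nat_lit 111) (.e (nat_lit 360475) (nat_lit 8) (.e (nat_lit 557119) (nat_lit 18) (.e (nat_lit 2798) (nat_lit 180) (.e (nat_lit 303133) (nat_lit 9) (.e (nat_lit 426033) (nat_lit 0) .nil)))))))) (.g (nat_lit 5) .nil .nil))))) (.nd (nat_lit 4) (.nd (nat_lit 5) 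
(.lf (nat_lit 103756) (.g (nat_lit 4625) (.e (nat_lit 3579) (nat_lit 223) (.e (nat_lit 745475) (nat_lit 0) (.e (nat_lit 1586) (nat_lit 111) (.e (nat_lit 360475) (nat_lit 8) (.e (nat_lit 557119) (nat_lit 18) (.e (nat_lit 2798) (nat_lit 180) (.e (nat_lit 303133) (nat_lit 9) (.e (nat_lit 426048) (nat_lit 0) .nil)))))))) (.g (nat_lit 7) .nil .nil))) 
(.lf (nat_lit 103788) (.g (nat_lit 1844) (.e (nat_lit 3579) (nat_lit 223) (.e (nat_lit 745476) (nat_lit 0) (.e (nat_lit 1586) (nat_lit 111) (.e (nat_lit 360477) (nat_lit 11) (.e (nat_lit 589568) (nat_lit 6) .nil))))) .nil))) (.nd (nat_lit 5) 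
(.lf (nat_lit 103772) (.g (nat_lit 3342) (.e (nat_lit 3579) (nat_lit 223) (.e (nat_lit 745475) (nat_lit 0) (.e (nat_lit 1598) (nat_lit 111) (.e (nat_lit 360473) (nat_lit 8) (.e (nat_lit 557119) (nat_lit 18) (.e (nat_lit 2798) (nat_lit 180) (.e (nat_lit 303133) (nat_lit 9) (.e (nat_lit 426048) (nat_lit 0) .nil)))))))) (.g (nat_lit 7) .nil .nil))) 
(.lf (nat_lit 103804) (.g (nat_lit 901) (.e (nat_lit 3579) (nat_lit 223) (.e (nat_lit 745476) (nat_lit 0) (.e (nat_lit 1595) (nat_lit 111) (.e (nat_lit 360470) (nat_lit 6) .nil)))) .nil)))))) (.nd (nat_lit 2) (.nd (nat_lit 3) (.nd (nat_lit 4) (.nd (nat_lit 5) 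
(.lf (nat_lit 103746) (.g (nat_lit 874) (.e (nat_lit 3578) (nat_lit 223) (.e (nat_lit 745491) (nat_lit 4) (.e (nat_lit 65616) (nat_lit 10) (.e (nat_lit 344123) (nat_lit 24) (.e (nat_lit 540724) (nat_lit 28) (.e (nat_lit 442412) (nat_lit 20) .nil)))))) (.g (nat_lit 4) .nil .nil))) 
(.lf (nat_lit 103778) (.g (nat_lit 1497) (.e (nat_lit 3579) (nat_lit 223) (.e (nat_lit 745476) (nat_lit 0) (.e (nat_lit 1559) (nat_lit 110) (.e (nat_lit 352269) (nat_lit 7) (.e (nat_lit 245778) (nat_lit 6) (.e (nat_lit 188435) (nat_lit 20) .nil)))))) (.g (nat_lit 0) .nil .nil)))) (.nd (nat_lit 5) 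
(.lf (nat_lit 103762) (.g (nat_lit 3077) (.e (nat_lit 3579) (nat_lit 223) (.e (nat_lit 745475) (nat_lit 0) (.e (nat_lit 1589) (nat_lit 111) (.e (nat_lit 360475) (nat_lit 8) (.e (nat_lit 557119) (nat_lit 18) (.e (nat_lit 2798) (nat_lit 180) (.e (nat_lit 303133) (nat_lit 9) (.e (nat_lit 426003) (nat_lit 0) .nil)))))))) (.g (nat_lit 5) .nil .nil))) 
(.lf (nat_lit 103794) (.g (nat_lit 3518) (.e (nat_lit 3579) (nat_lit 223) (.e (nat_lit 745476) (nat_lit 0) (.e (nat_lit 1589) (nat_lit 111) (.e (nat_lit 360473) (nat_lit 8) (.e (nat_lit 557119) (nat_lit 18) (.e (nat_lit 2798) (nat_lit 180) (.e (nat_lit 303133) (nat_lit 9) (.e (nat_lit 426043) (nat_lit 0) .nil)))))))) (.g (nat_lit 7) .nil .nil))))) (.nd (nat_lit 4) (.nd (nat_lit 5) 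
(.lf (nat_lit 103754) (.g (nat_lit 1796) (.e (nat_lit 3578) (nat_lit 223) (.e (nat_lit 745493) (nat_lit 6) (.e (nat_lit 81947) (nat_lit 20) (.e (nat_lit 1886) (nat_lit 127) (.e (nat_lit 581653) (nat_lit 6) (.e (nat_lit 188440) (nat_lit 20) .nil)))))) (.g (nat_lit 0) .nil .nil))) 
(.lf (nat_lit 103786) (.g (nat_lit 2251) (.e (nat_lit 3579) (nat_lit 223) (.e (nat_lit 745476) (nat_lit 0) (.e (nat_lit 1586) (nat_lit 111) (.e (nat_lit 360475) (nat_lit 8) (.e (nat_lit 557119) (nat_lit 18) (.e (nat_lit 2798) (nat_lit 180) (.e (nat_lit 303133) (nat_lit 9) (.e (nat_lit 426047) (nat_lit 0) .nil)))))))) (.g (nat_lit 4) .nil .nil)))) (.nd (nat_lit 5) 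
(.lf (nat_lit 103770) (.g (nat_lit 2186) (.e (nat_lit 3579) (nat_lit 223) (.e (nat_lit 745475) (nat_lit 0) (.e (nat_lit 1595) (nat_lit 111) (.e (nat_lit 360477) (nat_lit 11) (.e (nat_lit 581653) (nat_lit 6) (.e (nat_lit 188435) (nat_lit 20) .nil)))))) (.g (nat_lit 0) .nil .nil))) 
(.lf (nat_lit 103802) (.g (nat_lit 554) (.e (nat_lit 3579) (nat_lit 223) (.e (nat_lit 745476) (nat_lit 0) (.e (nat_lit 1592) (nat_lit 111) (.e (nat_lit 368384) (nat_lit 5) .nil)))) .nil))))) (.nd (nat_lit 3) (.nd (nat_lit 4) (.nd (nat_lit 5) 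
(.lf (nat_lit 103750) (.g (nat_lit 313) (.e (nat_lit 3578) (nat_lit 223) (.e (nat_lit 745493) (nat_lit 6) (.e (nat_lit 81931) (nat_lit 20) (.e (nat_lit 1874) (nat_lit 126) .nil)))) .nil)) 
(.lf (nat_lit 103782) (.g (nat_lit 542) (.e (nat_lit 3579) (nat_lit 223) (.e (nat_lit 745476) (nat_lit 0) (.e (nat_lit 1576) (nat_lit 110) (.e (nat_lit 352269) (nat_lit 7) .nil)))) .nil))) (.nd (nat_lit 5) 
(.lf (nat_lit 103766) (.g (nat_lit 2145) (.e (nat_lit 3579) (nat_lit 223) (.e (nat_lit 745475) (nat_lit 0) (.e (nat_lit 1589) (nat_lit 111) (.e (nat_lit 360477) (nat_lit 11) (.e (nat_lit 581653) (nat_lit 6) (.e (nat_lit 188438) (nat_lit 20) .nil)))))) (.g (nat_lit 0) .nil .nil))) 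
(.lf (nat_lit 103798) (.g (nat_lit 3855) (.e (nat_lit 3579) (nat_lit 223) (.e (nat_lit 745476) (nat_lit 0) (.e (nat_lit 1589) (nat_lit 111) (.e (nat_lit 360475) (nat_lit 8) (.e (nat_lit 557119) (nat_lit 18) (.e (nat_lit 2798) (nat_lit 180) (.e (nat_lit 303133) (nat_lit 9) (.e (nat_lit 426043) (nat_lit 0) .nil)))))))) (.g (nat_lit 6) .nil .nil))))) (.nd (nat_lit 4) (.nd (nat_lit 5) 
(.lf (nat_lit 103758) (.g (nat_lit 2036) (.e (nat_lit 3579) (nat_lit 223) (.e (nat_lit 745475) (nat_lit 0) (.e (nat_lit 1586) (nat_lit 111) (.e (nat_lit 360477) (nat_lit 11) (.e (nat_lit 589568) (nat_lit 6) (.e (nat_lit 188434) (nat_lit 20) .nil)))))) (.g (nat_lit 4) .nil .nil))) 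
(.lf (nat_lit 103790) (.g (nat_lit 927) (.e (nat_lit 3579) (nat_lit 223) (.e (nat_lit 745476) (nat_lit 0) (.e (nat_lit 1589) (nat_lit 111) (.e (nat_lit 360470) (nat_lit 6) .nil)))) .nil))) (.nd (nat_lit 5) 
(.lf (nat_lit 103774) (.g (nat_lit 1787) (.e (nat_lit 3579) (nat_lit 223) (.e (nat_lit 745475) (nat_lit 0) (.e (nat_lit 1599) (nat_lit 111) (.e (nat_lit 360477) (nat_lit 11) (.e (nat_lit 581653) (nat_lit 6) (.e (nat_lit 188438) (nat_lit 20) .nil)))))) (.g (nat_lit 0) .nil .nil))) 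
(.lf (nat_lit 103806) (.g (nat_lit 2572) (.e (nat_lit 3579) (nat_lit 223) (.e (nat_lit 745476) (nat_lit 0) (.e (nat_lit 1595) (nat_lit 111) (.e (nat_lit 360477) (nat_lit 11) (.e (nat_lit 581653) (nat_lit 6) (.e (nat_lit 188435) (nat_lit 20) .nil)))))) (.g (nat_lit 0) .nil .nil)))))))) (.nd (nat_lit 1) (.nd (nat_lit 2) (.nd (nat_lit 3) (.nd (nat_lit 4) (.nd (nat_lit 5) 
(.lf (nat_lit 103745) (.g (nat_lit 1083) (.e (nat_lit 3578) (nat_lit 223) (.e (nat_lit 745491) (nat_lit 4) (.e (nat_lit 65616) (nat_lit 10) (.e (nat_lit 344123) (nat_lit 24) (.e (nat_lit 540724) (nat_lit 28) (.e (nat_lit 442409) (nat_lit 20) .nil)))))) (.g (nat_lit 5) .nil .nil))) 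
(.lf (nat_lit 103777) (.g (nat_lit 2886) (.e (nat_lit 3579) (nat_lit 223) (.e (nat_lit 745476) (nat_lit 0) (.e (nat_lit 1413) (nat_lit 108) (.e (nat_lit 336060) (nat_lit 7) (.e (nat_lit 319505) (nat_lit 10) (.e (nat_lit 618) (nat_lit 48) (.e (nat_lit 557107) (nat_lit 15) (.e (nat_lit 188439) (nat_lit 20) .nil)))))))) (.g (nat_lit 6) .nil .nil)))) (.nd (nat_lit 5) 
(.lf (nat_lit 103761) (.g (nat_lit 3216) (.e (nat_lit 3579) (nat_lit 223) (.e (nat_lit 745475) (nat_lit 0) (.e (nat_lit 1589) (nat_lit 111) (.e (nat_lit 360473) (nat_lit 8) (.e (nat_lit 557119) (nat_lit 18) (.e (nat_lit 2798) (nat_lit 180) (.e (nat_lit 303133) (nat_lit 9) (.e (nat_lit 426048) (nat_lit 0) .nil)))))))) (.g (nat_lit 7) .nil .nil))) 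
(.lf (nat_lit 103793) (.g (nat_lit 3570) (.e (nat_lit 3579) (nat_lit 223) (.e (nat_lit 745476) (nat_lit 0) (.e (nat_lit 1589) (nat_lit 111) (.e (nat_lit 360473) (nat_lit 8) (.e (nat_lit 557119) (nat_lit 18) (.e (nat_lit 2798) (nat_lit 180) (.e (nat_lit 303133) (nat_lit 9) (.e (nat_lit 426042) (nat_lit 0) .nil)))))))) (.g (nat_lit 7) .nil .nil))))) (.nd (nat_lit 4) (.nd (nat_lit 5) 
(.lf (nat_lit 103753) (.g (nat_lit 1343) (.e (nat_lit 3578) (nat_lit 223) (.e (nat_lit 745493) (nat_lit 6) (.e (nat_lit 81947) (nat_lit 20) (.e (nat_lit 1886) (nat_lit 127) (.e (nat_lit 581653) (nat_lit 6) (.e (nat_lit 188435) (nat_lit 20) .nil)))))) (.g (nat_lit 0) .nil .nil))) 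
(.lf (nat_lit 103785) (.g (nat_lit 4218) (.e (nat_lit 3579) (nat_lit 223) (.e (nat_lit 745476) (nat_lit 0) (.e (nat_lit 1586) (nat_lit 111) (.e (nat_lit 360475) (nat_lit 8) (.e (nat_lit 557119) (nat_lit 18) (.e (nat_lit 2798) (nat_lit 180) (.e (nat_lit 303133) (nat_lit 9) (.e (nat_lit 426042) (nat_lit 0) .nil)))))))) (.g (nat_lit 7) .nil .nil)))) (.nd (nat_lit 5) 
(.lf (nat_lit 103769) (.g (nat_lit 3285) (.e (nat_lit 3579) (nat_lit 223) (.e (nat_lit 745475) (nat_lit 0) (.e (nat_lit 1595) (nat_lit 111) (.e (nat_lit 360473) (nat_lit 8) (.e (nat_lit 557119) (nat_lit 18) (.e (nat_lit 2798) (nat_lit 180) (.e (nat_lit 303133) (nat_lit 9) (.e (nat_lit 426043) (nat_lit 0) .nil)))))))) (.g (nat_lit 6) .nil .nil))) 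
(.lf (nat_lit 103801) (.g (nat_lit 904) (.e (nat_lit 3579) (nat_lit 223) (.e (nat_lit 745476) (nat_lit 0) (.e (nat_lit 1589) (nat_lit 111) (.e (nat_lit 368384) (nat_lit 11) .nil)))) .nil))))) (.nd (nat_lit 3) (.nd (nat_lit 4) (.nd (nat_lit 5) 
(.lf (nat_lit 103749) (.g (nat_lit 1146) (.e (nat_lit 3578) (nat_lit 223) (.e (nat_lit 745491) (nat_lit 4) (.e (nat_lit 65619) (nat_lit 10) (.e (nat_lit 344123) (nat_lit 24) (.e (nat_lit 540724) (nat_lit 28) (.e (nat_lit 442412) (nat_lit 20) .nil)))))) (.g (nat_lit 4) .nil .nil))) 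
(.lf (nat_lit 103781) (.g (nat_lit 1717) (.e (nat_lit 3579) (nat_lit 223) (.e (nat_lit 745476) (nat_lit 0) (.e (nat_lit 1575) (nat_lit 110) (.e (nat_lit 352269) (nat_lit 7) (.e (nat_lit 245778) (nat_lit 6) (.e (nat_lit 188435) (nat_lit 20) .nil)))))) (.g (nat_lit 0) .nil .nil)))) (.nd (nat_lit 5) 
(.lf (nat_lit 103765) (.g (nat_lit 4017) (.e (nat_lit 3579) (nat_lit 223) (.e (nat_lit 745475) (nat_lit 0) (.e (nat_lit 1589) (nat_lit 111) (.e (nat_lit 360475) (nat_lit 8) (.e (nat_lit 557119) (nat_lit 18) (.e (nat_lit 2798) (nat_lit 180) (.e (nat_lit 303133) (nat_lit 9) (.e (nat_lit 426048) (nat_lit 0) .nil)))))))) (.g (nat_lit 7) .nil .nil))) 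
(.lf (nat_lit 103797) (.g (nat_lit 3907) (.e (nat_lit 3579) (nat_lit 223) (.e (nat_lit 745476) (nat_lit 0) (.e (nat_lit 1589) (nat_lit 111) (.e (nat_lit 360475) (nat_lit 8) (.e (nat_lit 557119) (nat_lit 18) (.e (nat_lit 2798) (nat_lit 180) (.e (nat_lit 303133) (nat_lit 9) (.e (nat_lit 426042) (nat_lit 0) .nil)))))))) (.g (nat_lit 6) .nil .nil))))) (.nd (nat_lit 4) (.nd (nat_lit 5) 
(.lf (nat_lit 103757) (.g (nat_lit 1564) (.e (nat_lit 3579) (nat_lit 223) (.e (nat_lit 745475) (nat_lit 0) (.e (nat_lit 1586) (nat_lit 111) (.e (nat_lit 360477) (nat_lit 11) (.e (nat_lit 589568) (nat_lit 6) .nil))))) .nil)) 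
(.lf (nat_lit 103789) (.g (nat_lit 2360) (.e (nat_lit 3579) (nat_lit 223) (.e (nat_lit 745476) (nat_lit 0) (.e (nat_lit 1586) (nat_lit 111) (.e (nat_lit 360477) (nat_lit 11) (.e (nat_lit 589568) (nat_lit 6) (.e (nat_lit 188434) (nat_lit 20) .nil)))))) (.g (nat_lit 4) .nil .nil)))) (.nd (nat_lit 5) 
(.lf (nat_lit 103773) (.g (nat_lit 1068) (.e (nat_lit 3579) (nat_lit 223) (.e (nat_lit 745475) (nat_lit 0) (.e (nat_lit 1599) (nat_lit 111) (.e (nat_lit 360470) (nat_lit 6) (.e (nat_lit 540724) (nat_lit 28) (.e (nat_lit 442408) (nat_lit 20) .nil)))))) (.g (nat_lit 0) .nil .nil))) 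
(.lf (nat_lit 103805) (.g (nat_lit 3309) (.e (nat_lit 3579) (nat_lit 223) (.e (nat_lit 745476) (nat_lit 0) (.e (nat_lit 1595) (nat_lit 111) (.e (nat_lit 360473) (nat_lit 8) (.e (nat_lit 557119) (nat_lit 18) (.e (nat_lit 2798) (nat_lit 180) (.e (nat_lit 303133) (nat_lit 9) (.e (nat_lit 426042) (nat_lit 0) .nil)))))))) (.g (nat_lit 6) .nil .nil))))))) 
(.nd (nat_lit 2) (.nd (nat_lit 3) (.nd (nat_lit 4) (.nd (nat_lit 5) 
(.lf (nat_lit 103747) (.g (nat_lit 1064) (.e (nat_lit 3578) (nat_lit 223) (.e (nat_lit 745491) (nat_lit 4) (.e (nat_lit 65619) (nat_lit 10) (.e (nat_lit 344123) (nat_lit 24) (.e (nat_lit 540724) (nat_lit 28) .nil))))) .nil)) 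
(.lf (nat_lit 103779) (.g (nat_lit 1385) (.e (nat_lit 3579) (nat_lit 223) (.e (nat_lit 745476) (nat_lit 0) (.e (nat_lit 1569) (nat_lit 110) (.e (nat_lit 352269) (nat_lit 7) (.e (nat_lit 245778) (nat_lit 6) (.e (nat_lit 188435) (nat_lit 20) .nil)))))) (.g (nat_lit 0) .nil .nil)))) (.nd (nat_lit 5) 
(.lf (nat_lit 103763) (.g (nat_lit 4036) (.e (nat_lit 3579) (nat_lit 223) (.e (nat_lit 745475) (nat_lit 0) (.e (nat_lit 1589) (nat_lit 111) (.e (nat_lit 360475) (nat_lit 8) (.e (nat_lit 557119) (nat_lit 18) (.e (nat_lit 2798) (nat_lit 180) (.e (nat_lit 303133) (nat_lit 9) (.e (nat_lit 426042) (nat_lit 0) .nil)))))))) (.g (nat_lit 7) .nil .nil))) 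
(.lf (nat_lit 103795) (.g (nat_lit 3505) (.e (nat_lit 3579) (nat_lit 223) (.e (nat_lit 745476) (nat_lit 0) (.e (nat_lit 1589) (nat_lit 111) (.e (nat_lit 360473) (nat_lit 8) (.e (nat_lit 557119) (nat_lit 18) (.e (nat_lit 2798) (nat_lit 180) (.e (nat_lit 303133) (nat_lit 9) (.e (nat_lit 426048) (nat_lit 0) .nil)))))))) (.g (nat_lit 7) .nil .nil))))) (.nd (nat_lit 4) (.nd (nat_lit 5) 
(.lf (nat_lit 103755) (.g (nat_lit 4644) (.e (nat_lit 3579) (nat_lit 223) (.e (nat_lit 745475) (nat_lit 0) (.e (nat_lit 1586) (nat_lit 111) (.e (nat_lit 360475) (nat_lit 8) (.e (nat_lit 557119) (nat_lit 18) (.e (nat_lit 2798) (nat_lit 180) (.e (nat_lit 303133) (nat_lit 9) (.e (nat_lit 426042) (nat_lit 0) .nil)))))))) (.g (nat_lit 8) .nil .nil))) 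
(.lf (nat_lit 103787) (.g (nat_lit 2745) (.e (nat_lit 3579) (nat_lit 223) (.e (nat_lit 745476) (nat_lit 0) (.e (nat_lit 1586) (nat_lit 111) (.e (nat_lit 360477) (nat_lit 11) (.e (nat_lit 581653) (nat_lit 6) (.e (nat_lit 188435) (nat_lit 20) .nil)))))) (.g (nat_lit 0) .nil .nil)))) (.nd (nat_lit 5) 
(.lf (nat_lit 103771) (.g (nat_lit 3358) (.e (nat_lit 3579) (nat_lit 223) (.e (nat_lit 745475) (nat_lit 0) (.e (nat_lit 1598) (nat_lit 111) (.e (nat_lit 360473) (nat_lit 8) (.e (nat_lit 557119) (nat_lit 18) (.e (nat_lit 2798) (nat_lit 180) (.e (nat_lit 303133) (nat_lit 9) (.e (nat_lit 426042) (nat_lit 0) .nil)))))))) (.g (nat_lit 8) .nil .nil))) 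
(.lf (nat_lit 103803) (.g (nat_lit 2106) (.e (nat_lit 3579) (nat_lit 223) (.e (nat_lit 745476) (nat_lit 0) (.e (nat_lit 1592) (nat_lit 111) (.e (nat_lit 360477) (nat_lit 11) (.e (nat_lit 581653) (nat_lit 6) (.e (nat_lit 188435) (nat_lit 20) .nil)))))) (.g (nat_lit 0) .nil .nil)))))) (.nd (nat_lit 3) (.nd (nat_lit 4) (.nd (nat_lit 5) 
(.lf (nat_lit 103751) (.g (nat_lit 1130) (.e (nat_lit 3578) (nat_lit 223) (.e (nat_lit 745493) (nat_lit 6) (.e (nat_lit 81943) (nat_lit 20) (.e (nat_lit 1886) (nat_lit 127) (.e (nat_lit 581653) (nat_lit 6) (.e (nat_lit 188435) (nat_lit 20) .nil)))))) (.g (nat_lit 0) .nil .nil))) 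
(.lf (nat_lit 103783) (.g (nat_lit 3208) (.e (nat_lit 3579) (nat_lit 223) (.e (nat_lit 745476) (nat_lit 0) (.e (nat_lit 1586) (nat_lit 111) (.e (nat_lit 360475) (nat_lit 8) (.e (nat_lit 557119) (nat_lit 18) (.e (nat_lit 2798) (nat_lit 180) (.e (nat_lit 303133) (nat_lit 9) (.e (nat_lit 426003) (nat_lit 0) .nil)))))))) (.g (nat_lit 5) .nil .nil)))) (.nd (nat_lit 5) 
(.lf (nat_lit 103767) (.g (nat_lit 147) (.e (nat_lit 3579) (nat_lit 223) (.e (nat_lit 745475) (nat_lit 0) (.e (nat_lit 1592) (nat_lit 111) .nil))) .nil)) 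
(.lf (nat_lit 103799) (.g (nat_lit 3842) (.e (nat_lit 3579) (nat_lit 223) (.e (nat_lit 745476) (nat_lit 0) (.e (nat_lit 1589) (nat_lit 111) (.e (nat_lit 360475) (nat_lit 8) (.e (nat_lit 557119) (nat_lit 18) (.e (nat_lit 2798) (nat_lit 180) (.e (nat_lit 303133) (nat_lit 9) (.e (nat_lit 426048) (nat_lit 0) .nil)))))))) (.g (nat_lit 6) .nil .nil))))) (.nd (nat_lit 4) (.nd (nat_lit 5) 
(.lf (nat_lit 103759) (.g (nat_lit 3235) (.e (nat_lit 3579) (nat_lit 223) (.e (nat_lit 745475) (nat_lit 0) (.e (nat_lit 1589) (nat_lit 111) (.e (nat_lit 360473) (nat_lit 8) (.e (nat_lit 557119) (nat_lit 18) (.e (nat_lit 2798) (nat_lit 180) (.e (nat_lit 303133) (nat_lit 9) (.e (nat_lit 426042) (nat_lit 0) .nil)))))))) (.g (nat_lit 7) .nil .nil))) 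
(.lf (nat_lit 103791) (.g (nat_lit 1805) (.e (nat_lit 3579) (nat_lit 223) (.e (nat_lit 745476) (nat_lit 0) (.e (nat_lit 1589) (nat_lit 111) (.e (nat_lit 360470) (nat_lit 6) (.e (nat_lit 540724) (nat_lit 28) (.e (nat_lit 442408) (nat_lit 20) .nil)))))) (.g (nat_lit 0) .nil .nil)))) (.nd (nat_lit 5) 
(.lf (nat_lit 103775) (.g (nat_lit 2349) (.e (nat_lit 3579) (nat_lit 223) (.e (nat_lit 745476) (nat_lit 0) (.e (nat_lit 1239) (nat_lit 91) (.e (nat_lit 90174) (nat_lit 14) (.e (nat_lit 180250) (nat_lit 10) .nil))))) .nil)) 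
(.lf (nat_lit 103807) (.g (nat_lit 1554) (.e (nat_lit 3579) (nat_lit 223) (.e (nat_lit 745476) (nat_lit 0) (.e (nat_lit 1595) (nat_lit 111) (.e (nat_lit 360477) (nat_lit 11) (.e (nat_lit 589568) (nat_lit 6) .nil))))) .nil))))))))

noncomputable def tv1416 : DT := (.nd (nat_lit 0) (.nd (nat_lit 1) (.nd (nat_lit 2) (.nd (nat_lit 3) (.nd (nat_lit 4) (.nd (nat_lit 5) 
(.lf (nat_lit 103808) (.g (nat_lit 929) (.e (nat_lit 3579) (nat_lit 223) (.e (nat_lit 745476) (nat_lit 0) (.e (nat_lit 1595) (nat_lit 111) (.e (nat_lit 368384) (nat_lit 11) .nil)))) .nil)) 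
(.lf (nat_lit 103840) (.g (nat_lit 3268) (.e (nat_lit 3597) (nat_lit 225) (.e (nat_lit 761905) (nat_lit 16) (.e (nat_lit 172124) (nat_lit 14) (.e (nat_lit 491544) (nat_lit 7) (.e (nat_lit 319531) (nat_lit 16) (.e (nat_lit 286748) (nat_lit 9) (.e (nat_lit 336295) (nat_lit 15) .nil))))))) (.g (nat_lit 5) .nil .nil)))) (.nd (nat_lit 5) 
(.lf (nat_lit 103824) (.g (nat_lit 3339) (.e (nat_lit 3579) (nat_lit 223) (.e (nat_lit 745491) (nat_lit 4) (.e (nat_lit 65586) (nat_lit 7) (.e (nat_lit 319505) (nat_lit 10) (.e (nat_lit 618) (nat_lit 48) (.e (nat_lit 557109) (nat_lit 15) (.e (nat_lit 188435) (nat_lit 20) .nil))))))) (.g (nat_lit 6) .nil .nil))) 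
(.lf (nat_lit 103856) (.g (nat_lit 1662) (.e (nat_lit 3605) (nat_lit 225) (.e (nat_lit 761905) (nat_lit 16) (.e (nat_lit 172113) (nat_lit 10) (.e (nat_lit 434203) (nat_lit 18) (.e (nat_lit 5177) (nat_lit 292) .nil))))) .nil)))) (.nd (nat_lit 4) (.nd (nat_lit 5) 
(.lf (nat_lit 103816) (.g (nat_lit 1385) (.e (nat_lit 3579) (nat_lit 223) (.e (nat_lit 745476) (nat_lit 0) (.e (nat_lit 1599) (nat_lit 111) (.e (nat_lit 360470) (nat_lit 6) (.e (nat_lit 540724) (nat_lit 28) (.e (nat_lit 442408) (nat_lit 20) .nil)))))) (.g (nat_lit 0) .nil .nil))) 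
(.lf (nat_lit 103848) (.g (nat_lit 1615) (.e (nat_lit 3604) (nat_lit 225) (.e (nat_lit 761913) (nat_lit 18) (.e (nat_lit 188446) (nat_lit 21) (.e (nat_lit 164305) (nat_lit 226) (.e (nat_lit 7936) (nat_lit 90) (.e (nat_lit 89856) (nat_lit 0) .nil)))))) (.g (nat_lit 4) .nil .nil)))) (.nd (nat_lit 5) 
(.lf (nat_lit 103832) (.g (nat_lit 1384) (.e (nat_lit 3579) (nat_lit 223) (.e (nat_lit 745493) (nat_lit 6) (.e (nat_lit 81939) (nat_lit 20) (.e (nat_lit 1886) (nat_lit 127) (.e (nat_lit 581653) (nat_lit 6) (.e (nat_lit 188438) (nat_lit 20) .nil)))))) (.g (nat_lit 0) .nil .nil))) 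
(.lf (nat_lit 103864) (.g (nat_lit 1643) (.e (nat_lit 3609) (nat_lit 226) (.e (nat_lit 770072) (nat_lit 8) (.e (nat_lit 65583) (nat_lit 7) (.e (nat_lit 319530) (nat_lit 16) (.e (nat_lit 286743) (nat_lit 9) .nil))))) .nil))))) (.nd (nat_lit 3) (.nd (nat_lit 4) (.nd (nat_lit 5) 
(.lf (nat_lit 103812) (.g (nat_lit 3815) (.e (nat_lit 3579) (nat_lit 223) (.e (nat_lit 745476) (nat_lit 0) (.e (nat_lit 1598) (nat_lit 111) (.e (nat_lit 360473) (nat_lit 8) (.e (nat_lit 557119) (nat_lit 18) (.e (nat_lit 2798) (nat_lit 180) (.e (nat_lit 303133) (nat_lit 9) (.e (nat_lit 426048) (nat_lit 0) .nil)))))))) (.g (nat_lit 7) .nil .nil))) 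
(.lf (nat_lit 103844) (.g (nat_lit 409) (.e (nat_lit 3601) (nat_lit 225) (.e (nat_lit 761906) (nat_lit 16) (.e (nat_lit 172119) (nat_lit 12) .nil))) .nil))) (.nd (nat_lit 5) 
(.lf (nat_lit 103828) (.g (nat_lit 2532) (.e (nat_lit 3579) (nat_lit 223) (.e (nat_lit 745491) (nat_lit 4) (.e (nat_lit 65610) (nat_lit 10) (.e (nat_lit 344129) (nat_lit 26) (.e (nat_lit 557119) (nat_lit 18) (.e (nat_lit 2798) (nat_lit 180) (.e (nat_lit 303133) (nat_lit 9) (.e (nat_lit 426048) (nat_lit 0) .nil)))))))) (.g (nat_lit 4) .nil .nil))) 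
(.lf (nat_lit 103860) (.g (nat_lit 2897) (.e (nat_lit 3605) (nat_lit 225) (.e (nat_lit 761906) (nat_lit 16) (.e (nat_lit 172119) (nat_lit 12) (.e (nat_lit 475193) (nat_lit 38) (.e (nat_lit 688184) (nat_lit 18) (.e (nat_lit 89856) (nat_lit 0) .nil)))))) (.g (nat_lit 5) .nil .nil))))) (.nd (nat_lit 4) (.nd (nat_lit 5) 
(.lf (nat_lit 103820) (.g (nat_lit 2128) (.e (nat_lit 3579) (nat_lit 223) (.e (nat_lit 745491) (nat_lit 4) (.e (nat_lit 65583) (nat_lit 7) (.e (nat_lit 319505) (nat_lit 10) (.e (nat_lit 618) (nat_lit 48) (.e (nat_lit 557107) (nat_lit 15) (.e (nat_lit 188439) (nat_lit 20) .nil))))))) (.g (nat_lit 4) .nil .nil))) 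
(.lf (nat_lit 103852) (.g (nat_lit 1595) (.e (nat_lit 3605) (nat_lit 225) (.e (nat_lit 769792) (nat_lit 8) (.e (nat_lit 65586) (nat_lit 7) (.e (nat_lit 319531) (nat_lit 16) (.e (nat_lit 286748) (nat_lit 9) (.e (nat_lit 336295) (nat_lit 15) (.e (nat_lit 3757) (nat_lit 229) (.e (nat_lit 794638) (nat_lit 20) .nil)))))))) (.g (nat_lit 4) .nil .nil)))) (.nd (nat_lit 5) 
(.lf (nat_lit 103836) (.g (nat_lit 1704) (.e (nat_lit 3579) (nat_lit 223) (.e (nat_lit 745493) (nat_lit 6) (.e (nat_lit 81947) (nat_lit 20) (.e (nat_lit 1886) (nat_lit 127) (.e (nat_lit 581653) (nat_lit 6) (.e (nat_lit 188438) (nat_lit 20) .nil)))))) (.g (nat_lit 0) .nil .nil))) 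
(.lf (nat_lit 103868) (.g (nat_lit 1827) (.e (nat_lit 3610) (nat_lit 226) (.e (nat_lit 770072) (nat_lit 8) (.e (nat_lit 65583) (nat_lit 7) (.e (nat_lit 319530) (nat_lit 16) (.e (nat_lit 286743) (nat_lit 9) .nil))))) .nil)))))) (.nd (nat_lit 2) (.nd (nat_lit 3) (.nd (nat_lit 4) (.nd (nat_lit 5) 
(.lf (nat_lit 103810) (.g (nat_lit 1715) (.e (nat_lit 3579) (nat_lit 223) (.e (nat_lit 745476) (nat_lit 0) (.e (nat_lit 1598) (nat_lit 111) (.e (nat_lit 360470) (nat_lit 6) (.e (nat_lit 540724) (nat_lit 28) (.e (nat_lit 442408) (nat_lit 20) .nil)))))) (.g (nat_lit 0) .nil .nil))) 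
(.lf (nat_lit 103842) (.g (nat_lit 702) (.e (nat_lit 3600) (nat_lit 225) (.e (nat_lit 761912) (nat_lit 18) (.e (nat_lit 196352) (nat_lit 0) (.e (nat_lit 2028) (nat_lit 140) (.e (nat_lit 688184) (nat_lit 18) (.e (nat_lit 89856) (nat_lit 0) .nil)))))) (.g (nat_lit 5) .nil .nil)))) (.nd (nat_lit 5) 
(.lf (nat_lit 103826) (.g (nat_lit 2388) (.e (nat_lit 3579) (nat_lit 223) (.e (nat_lit 745491) (nat_lit 4) (.e (nat_lit 65610) (nat_lit 10) (.e (nat_lit 344117) (nat_lit 21) (.e (nat_lit 516115) (nat_lit 1) .nil))))) .nil)) 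
(.lf (nat_lit 103858) (.g (nat_lit 2903) (.e (nat_lit 3605) (nat_lit 225) (.e (nat_lit 761905) (nat_lit 16) (.e (nat_lit 172118) (nat_lit 12) (.e (nat_lit 475193) (nat_lit 38) (.e (nat_lit 688184) (nat_lit 18) (.e (nat_lit 89856) (nat_lit 0) .nil)))))) (.g (nat_lit 5) .nil .nil))))) (.nd (nat_lit 4) (.nd (nat_lit 5) 
(.lf (nat_lit 103818) (.g (nat_lit 2059) (.e (nat_lit 3579) (nat_lit 223) (.e (nat_lit 745476) (nat_lit 0) (.e (nat_lit 1599) (nat_lit 111) (.e (nat_lit 360477) (nat_lit 11) (.e (nat_lit 581653) (nat_lit 6) (.e (nat_lit 188435) (nat_lit 20) .nil)))))) (.g (nat_lit 0) .nil .nil))) 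
(.lf (nat_lit 103850) (.g (nat_lit 1636) (.e (nat_lit 3604) (nat_lit 225) (.e (nat_lit 761914) (nat_lit 18) (.e (nat_lit 196352) (nat_lit 0) (.e (nat_lit 2031) (nat_lit 140) (.e (nat_lit 688184) (nat_lit 18) (.e (nat_lit 89856) (nat_lit 0) .nil)))))) (.g (nat_lit 5) .nil .nil)))) (.nd (nat_lit 5) 
(.lf (nat_lit 103834) (.g (nat_lit 1440) (.e (nat_lit 3579) (nat_lit 223) (.e (nat_lit 745493) (nat_lit 6) (.e (nat_lit 81943) (nat_lit 20) (.e (nat_lit 1886) (nat_lit 127) (.e (nat_lit 581653) (nat_lit 6) (.e (nat_lit 188435) (nat_lit 20) .nil)))))) (.g (nat_lit 0) .nil .nil))) 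
(.lf (nat_lit 103866) (.g (nat_lit 3142) (.e (nat_lit 3609) (nat_lit 226) (.e (nat_lit 770072) (nat_lit 8) (.e (nat_lit 65586) (nat_lit 7) (.e (nat_lit 319531) (nat_lit 16) (.e (nat_lit 286743) (nat_lit 9) (.e (nat_lit 336337) (nat_lit 20) (.e (nat_lit 221198) (nat_lit 20) .nil))))))) (.g (nat_lit 6) .nil .nil)))))) (.nd (nat_lit 3) (.nd (nat_lit 4) (.nd (nat_lit 5) 
(.lf (nat_lit 103814) (.g (nat_lit 1542) (.e (nat_lit 3579) (nat_lit 223) (.e (nat_lit 745476) (nat_lit 0) (.e (nat_lit 1598) (nat_lit 111) (.e (nat_lit 360477) (nat_lit 11) (.e (nat_lit 589568) (nat_lit 6) .nil))))) .nil)) 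
(.lf (nat_lit 103846) (.g (nat_lit 2235) (.e (nat_lit 3604) (nat_lit 225) (.e (nat_lit 761896) (nat_lit 15) (.e (nat_lit 163975) (nat_lit 30) (.e (nat_lit 573451) (nat_lit 9) (.e (nat_lit 1569) (nat_lit 110) (.e (nat_lit 360192) (nat_lit 18) (.e (nat_lit 491264) (nat_lit 0) .nil))))))) (.g (nat_lit 5) .nil .nil)))) (.nd (nat_lit 5) 
(.lf (nat_lit 103830) (.g (nat_lit 2339) (.e (nat_lit 3579) (nat_lit 223) (.e (nat_lit 745491) (nat_lit 4) (.e (nat_lit 65617) (nat_lit 10) (.e (nat_lit 344130) (nat_lit 26) (.e (nat_lit 557119) (nat_lit 18) (.e (nat_lit 2798) (nat_lit 180) (.e (nat_lit 303133) (nat_lit 9) (.e (nat_lit 426043) (nat_lit 0) .nil)))))))) (.g (nat_lit 4) .nil .nil))) 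
(.lf (nat_lit 103862) (.g (nat_lit 2417) (.e (nat_lit 3607) (nat_lit 226) (.e (nat_lit 770076) (nat_lit 12) (.e (nat_lit 131094) (nat_lit 2) (.e (nat_lit 90185) (nat_lit 17) (.e (nat_lit 237605) (nat_lit 9) (.e (nat_lit 426436) (nat_lit 18) (.e (nat_lit 98320) (nat_lit 17) .nil))))))) (.g (nat_lit 6) .nil .nil))))) (.nd (nat_lit 4) (.nd (nat_lit 5) 
(.lf (nat_lit 103822) (.g (nat_lit 3685) (.e (nat_lit 3579) (nat_lit 223) (.e (nat_lit 745491) (nat_lit 4) (.e (nat_lit 65586) (nat_lit 7) (.e (nat_lit 319500) (nat_lit 10) (.e (nat_lit 618) (nat_lit 48) (.e (nat_lit 557109) (nat_lit 15) (.e (nat_lit 188435) (nat_lit 20) .nil))))))) (.g (nat_lit 6) .nil .nil))) 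
(.lf (nat_lit 103854) (.g (nat_lit 1828) (.e (nat_lit 3605) (nat_lit 225) (.e (nat_lit 761899) (nat_lit 15) (.e (nat_lit 163977) (nat_lit 30) (.e (nat_lit 573451) (nat_lit 9) (.e (nat_lit 1569) (nat_lit 110) (.e (nat_lit 360192) (nat_lit 18) (.e (nat_lit 491264) (nat_lit 0) .nil))))))) (.g (nat_lit 4) .nil .nil)))) (.nd (nat_lit 5) 
(.lf (nat_lit 103838) (.g (nat_lit 2796) (.e (nat_lit 3588) (nat_lit 224) (.e (nat_lit 753693) (nat_lit 13) (.e (nat_lit 1255) (nat_lit 92) (.e (nat_lit 98372) (nat_lit 29) (.e (nat_lit 450579) (nat_lit 5) (.e (nat_lit 532530) (nat_lit 9) (.e (nat_lit 336259) (nat_lit 15) .nil))))))) (.g (nat_lit 6) .nil .nil))) 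
(.lf (nat_lit 103870) (.g (nat_lit 1939) (.e (nat_lit 3610) (nat_lit 226) (.e (nat_lit 770072) (nat_lit 8) (.e (nat_lit 65583) (nat_lit 7) (.e (nat_lit 319530) (nat_lit 16) (.e (nat_lit 286748) (nat_lit 9) .nil))))) .nil))))))) (.nd (nat_lit 1) (.nd (nat_lit 2) (.nd (nat_lit 3) (.nd (nat_lit 4) (.nd (nat_lit 5) 
(.lf (nat_lit 103809) (.g (nat_lit 866) (.e (nat_lit 3579) (nat_lit 223) (.e (nat_lit 745476) (nat_lit 0) (.e (nat_lit 1598) (nat_lit 111) (.e (nat_lit 360466) (nat_lit 3) .nil)))) .nil)) 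
(.lf (nat_lit 103841) (.g (nat_lit 283) (.e (nat_lit 3598) (nat_lit 225) (.e (nat_lit 761912) (nat_lit 18) (.e (nat_lit 196352) (nat_lit 0) .nil))) .nil))) (.nd (nat_lit 5) 
(.lf (nat_lit 103825) (.g (nat_lit 1552) (.e (nat_lit 3579) (nat_lit 223) (.e (nat_lit 745491) (nat_lit 4) (.e (nat_lit 65598) (nat_lit 9) (.e (nat_lit 336013) (nat_lit 2) (.e (nat_lit 98048) (nat_lit 0) .nil))))) .nil)) 
(.lf (nat_lit 103857) (.g (nat_lit 1523) (.e (nat_lit 3605) (nat_lit 225) (.e (nat_lit 761905) (nat_lit 16) (.e (nat_lit 172113) (nat_lit 10) (.e (nat_lit 434208) (nat_lit 18) (.e (nat_lit 5120) (nat_lit 292) .nil))))) .nil)))) (.nd (nat_lit 4) (.nd (nat_lit 5) 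
(.lf (nat_lit 103817) (.g (nat_lit 2982) (.e (nat_lit 3579) (nat_lit 223) (.e (nat_lit 745476) (nat_lit 0) (.e (nat_lit 1599) (nat_lit 111) (.e (nat_lit 360475) (nat_lit 8) (.e (nat_lit 557119) (nat_lit 18) (.e (nat_lit 2798) (nat_lit 180) (.e (nat_lit 303133) (nat_lit 9) (.e (nat_lit 426043) (nat_lit 0) .nil)))))))) (.g (nat_lit 5) .nil .nil))) 
(.lf (nat_lit 103849) (.g (nat_lit 971) (.e (nat_lit 3604) (nat_lit 225) (.e (nat_lit 761913) (nat_lit 18) (.e (nat_lit 188446) (nat_lit 21) (.e (nat_lit 164309) (nat_lit 226) .nil)))) .nil))) (.nd (nat_lit 5) 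
(.lf (nat_lit 103833) (.g (nat_lit 1386) (.e (nat_lit 3579) (nat_lit 223) (.e (nat_lit 745493) (nat_lit 6) (.e (nat_lit 81942) (nat_lit 20) (.e (nat_lit 1886) (nat_lit 127) (.e (nat_lit 581653) (nat_lit 6) (.e (nat_lit 188438) (nat_lit 20) .nil)))))) (.g (nat_lit 0) .nil .nil))) 
(.lf (nat_lit 103865) (.g (nat_lit 2816) (.e (nat_lit 3609) (nat_lit 226) (.e (nat_lit 770072) (nat_lit 8) (.e (nat_lit 65583) (nat_lit 7) (.e (nat_lit 319530) (nat_lit 16) (.e (nat_lit 286743) (nat_lit 9) (.e (nat_lit 336337) (nat_lit 20) (.e (nat_lit 221198) (nat_lit 20) .nil))))))) (.g (nat_lit 0) .nil .nil)))))) (.nd (nat_lit 3) (.nd (nat_lit 4) (.nd (nat_lit 5) 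
(.lf (nat_lit 103813) (.g (nat_lit 2619) (.e (nat_lit 3579) (nat_lit 223) (.e (nat_lit 745476) (nat_lit 0) (.e (nat_lit 1598) (nat_lit 111) (.e (nat_lit 360477) (nat_lit 11) (.e (nat_lit 581653) (nat_lit 6) (.e (nat_lit 188435) (nat_lit 20) .nil)))))) (.g (nat_lit 0) .nil .nil))) 
(.lf (nat_lit 103845) (.g (nat_lit 325) (.e (nat_lit 3603) (nat_lit 225) (.e (nat_lit 761903) (nat_lit 16) (.e (nat_lit 179968) (nat_lit 17) .nil))) .nil))) (.nd (nat_lit 5) 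
(.lf (nat_lit 103829) (.g (nat_lit 2291) (.e (nat_lit 3579) (nat_lit 223) (.e (nat_lit 745491) (nat_lit 4) (.e (nat_lit 65617) (nat_lit 10) (.e (nat_lit 344130) (nat_lit 26) (.e (nat_lit 557119) (nat_lit 18) (.e (nat_lit 2798) (nat_lit 180) (.e (nat_lit 303133) (nat_lit 9) (.e (nat_lit 426042) (nat_lit 0) .nil)))))))) (.g (nat_lit 4) .nil .nil))) 
(.lf (nat_lit 103861) (.g (nat_lit 1288) (.e (nat_lit 3605) (nat_lit 225) (.e (nat_lit 761912) (nat_lit 18) (.e (nat_lit 196352) (nat_lit 0) (.e (nat_lit 2032) (nat_lit 140) (.e (nat_lit 688184) (nat_lit 18) (.e (nat_lit 89856) (nat_lit 0) .nil)))))) (.g (nat_lit 5) .nil .nil))))) (.nd (nat_lit 4) (.nd (nat_lit 5) 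
(.lf (nat_lit 103821) (.g (nat_lit 3000) (.e (nat_lit 3579) (nat_lit 223) (.e (nat_lit 745491) (nat_lit 4) (.e (nat_lit 65585) (nat_lit 7) (.e (nat_lit 319505) (nat_lit 10) (.e (nat_lit 618) (nat_lit 48) (.e (nat_lit 557107) (nat_lit 15) (.e (nat_lit 188439) (nat_lit 20) .nil))))))) (.g (nat_lit 6) .nil .nil))) 
(.lf (nat_lit 103853) (.g (nat_lit 2432) (.e (nat_lit 3605) (nat_lit 225) (.e (nat_lit 769792) (nat_lit 8) (.e (nat_lit 65586) (nat_lit 7) (.e (nat_lit 319531) (nat_lit 16) (.e (nat_lit 286748) (nat_lit 9) (.e (nat_lit 336295) (nat_lit 15) (.e (nat_lit 3757) (nat_lit 229) (.e (nat_lit 794642) (nat_lit 20) .nil)))))))) (.g (nat_lit 6) .nil .nil)))) (.nd (nat_lit 5) 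
(.lf (nat_lit 103837) (.g (nat_lit 2047) (.e (nat_lit 3581) (nat_lit 223) (.e (nat_lit 745491) (nat_lit 4) (.e (nat_lit 65598) (nat_lit 9) (.e (nat_lit 336013) (nat_lit 2) (.e (nat_lit 98048) (nat_lit 2) (.e (nat_lit 16446) (nat_lit 9) (.e (nat_lit 426014) (nat_lit 0) .nil))))))) (.g (nat_lit 6) .nil .nil))) 
(.lf (nat_lit 103869) (.g (nat_lit 1849) (.e (nat_lit 3610) (nat_lit 226) (.e (nat_lit 770072) (nat_lit 8) (.e (nat_lit 65583) (nat_lit 7) (.e (nat_lit 319530) (nat_lit 16) (.e (nat_lit 286743) (nat_lit 9) (.e (nat_lit 336337) (nat_lit 20) (.e (nat_lit 221196) (nat_lit 20) .nil))))))) (.g (nat_lit 4) .nil .nil))))))) (.nd (nat_lit 2) (.nd (nat_lit 3) (.nd (nat_lit 4) (.nd (nat_lit 5) 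
(.lf (nat_lit 103811) (.g (nat_lit 2886) (.e (nat_lit 3579) (nat_lit 223) (.e (nat_lit 745476) (nat_lit 0) (.e (nat_lit 1598) (nat_lit 111) (.e (nat_lit 360473) (nat_lit 8) (.e (nat_lit 557119) (nat_lit 18) (.e (nat_lit 2798) (nat_lit 180) (.e (nat_lit 303133) (nat_lit 9) (.e (nat_lit 426003) (nat_lit 0) .nil)))))))) (.g (nat_lit 6) .nil .nil))) 
(.lf (nat_lit 103843) (.g (nat_lit 671) (.e (nat_lit 3600) (nat_lit 225) (.e (nat_lit 761912) (nat_lit 18) (.e (nat_lit 196352) (nat_lit 0) (.e (nat_lit 2032) (nat_lit 140) (.e (nat_lit 688184) (nat_lit 18) (.e (nat_lit 89856) (nat_lit 0) .nil)))))) (.g (nat_lit 5) .nil .nil)))) (.nd (nat_lit 5) 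
(.lf (nat_lit 103827) (.g (nat_lit 1919) (.e (nat_lit 3579) (nat_lit 223) (.e (nat_lit 745491) (nat_lit 4) (.e (nat_lit 65610) (nat_lit 10) (.e (nat_lit 344129) (nat_lit 26) (.e (nat_lit 557119) (nat_lit 18) (.e (nat_lit 2798) (nat_lit 180) (.e (nat_lit 303133) (nat_lit 9) (.e (nat_lit 426033) (nat_lit 0) .nil)))))))) (.g (nat_lit 4) .nil .nil))) 
(.lf (nat_lit 103859) (.g (nat_lit 2958) (.e (nat_lit 3605) (nat_lit 225) (.e (nat_lit 761905) (nat_lit 16) (.e (nat_lit 172120) (nat_lit 12) (.e (nat_lit 475193) (nat_lit 38) (.e (nat_lit 688184) (nat_lit 18) (.e (nat_lit 89856) (nat_lit 0) .nil)))))) (.g (nat_lit 5) .nil .nil))))) (.nd (nat_lit 4) (.nd (nat_lit 5) 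
(.lf (nat_lit 103819) (.g (nat_lit 3524) (.e (nat_lit 3579) (nat_lit 223) (.e (nat_lit 745491) (nat_lit 4) (.e (nat_lit 65583) (nat_lit 7) (.e (nat_lit 319499) (nat_lit 10) (.e (nat_lit 618) (nat_lit 48) (.e (nat_lit 557109) (nat_lit 15) (.e (nat_lit 188435) (nat_lit 20) .nil))))))) (.g (nat_lit 6) .nil .nil))) 
(.lf (nat_lit 103851) (.g (nat_lit 2254) (.e (nat_lit 3604) (nat_lit 225) (.e (nat_lit 761914) (nat_lit 18) (.e (nat_lit 188446) (nat_lit 21) (.e (nat_lit 164305) (nat_lit 226) (.e (nat_lit 7936) (nat_lit 90) (.e (nat_lit 89856) (nat_lit 0) .nil)))))) (.g (nat_lit 4) .nil .nil)))) (.nd (nat_lit 5) 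
(.lf (nat_lit 103835) (.g (nat_lit 1659) (.e (nat_lit 3579) (nat_lit 223) (.e (nat_lit 745493) (nat_lit 6) (.e (nat_lit 81947) (nat_lit 20) (.e (nat_lit 1886) (nat_lit 127) (.e (nat_lit 581653) (nat_lit 6) (.e (nat_lit 188435) (nat_lit 20) .nil)))))) (.g (nat_lit 0) .nil .nil))) 
(.lf (nat_lit 103867) (.g (nat_lit 1735) (.e (nat_lit 3609) (nat_lit 226) (.e (nat_lit 770072) (nat_lit 8) (.e (nat_lit 65586) (nat_lit 7) (.e (nat_lit 319531) (nat_lit 16) (.e (nat_lit 286748) (nat_lit 9) .nil))))) .nil))))) (.nd (nat_lit 3) (.nd (nat_lit 4) (.nd (nat_lit 5) 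
(.lf (nat_lit 103815) (.g (nat_lit 856) (.e (nat_lit 3579) (nat_lit 223) (.e (nat_lit 745476) (nat_lit 0) (.e (nat_lit 1598) (nat_lit 111) (.e (nat_lit 368384) (nat_lit 11) .nil)))) .nil)) 
(.lf (nat_lit 103847) (.g (nat_lit 1293) (.e (nat_lit 3604) (nat_lit 225) (.e (nat_lit 761912) (nat_lit 18) (.e (nat_lit 196352) (nat_lit 0) (.e (nat_lit 2032) (nat_lit 140) (.e (nat_lit 688184) (nat_lit 18) (.e (nat_lit 89856) (nat_lit 0) .nil)))))) (.g (nat_lit 5) .nil .nil)))) (.nd (nat_lit 5) 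
(.lf (nat_lit 103831) (.g (nat_lit 2249) (.e (nat_lit 3579) (nat_lit 223) (.e (nat_lit 745491) (nat_lit 4) (.e (nat_lit 65617) (nat_lit 10) (.e (nat_lit 344130) (nat_lit 26) (.e (nat_lit 557119) (nat_lit 18) (.e (nat_lit 2798) (nat_lit 180) (.e (nat_lit 303133) (nat_lit 9) (.e (nat_lit 426048) (nat_lit 0) .nil)))))))) (.g (nat_lit 4) .nil .nil))) 
(.lf (nat_lit 103863) (.g (nat_lit 2423) (.e (nat_lit 3608) (nat_lit 226) (.e (nat_lit 770076) (nat_lit 12) (.e (nat_lit 131094) (nat_lit 2) (.e (nat_lit 90185) (nat_lit 17) (.e (nat_lit 237605) (nat_lit 9) (.e (nat_lit 426436) (nat_lit 18) (.e (nat_lit 98320) (nat_lit 17) .nil))))))) (.g (nat_lit 6) .nil .nil))))) (.nd (nat_lit 4) (.nd (nat_lit 5) 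
(.lf (nat_lit 103823) (.g (nat_lit 3577) (.e (nat_lit 3579) (nat_lit 223) (.e (nat_lit 745491) (nat_lit 4) (.e (nat_lit 65586) (nat_lit 7) (.e (nat_lit 319505) (nat_lit 10) (.e (nat_lit 618) (nat_lit 48) (.e (nat_lit 557107) (nat_lit 15) (.e (nat_lit 188440) (nat_lit 20) .nil))))))) (.g (nat_lit 6) .nil .nil))) 
(.lf (nat_lit 103855) (.g (nat_lit 1662) (.e (nat_lit 3605) (nat_lit 225) (.e (nat_lit 761905) (nat_lit 16) (.e (nat_lit 172113) (nat_lit 10) (.e (nat_lit 434203) (nat_lit 18) (.e (nat_lit 5120) (nat_lit 292) .nil))))) .nil))) (.nd (nat_lit 5) 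
(.lf (nat_lit 103839) (.g (nat_lit 2660) (.e (nat_lit 3588) (nat_lit 224) (.e (nat_lit 753696) (nat_lit 13) (.e (nat_lit 1252) (nat_lit 92) (.e (nat_lit 98372) (nat_lit 29) (.e (nat_lit 450579) (nat_lit 5) (.e (nat_lit 532530) (nat_lit 9) (.e (nat_lit 336259) (nat_lit 15) .nil))))))) (.g (nat_lit 6) .nil .nil))) 
(.lf (nat_lit 103871) (.g (nat_lit 1836) (.e (nat_lit 3610) (nat_lit 226) (.e (nat_lit 770072) (nat_lit 8) (.e (nat_lit 65586) (nat_lit 7) (.e (nat_lit 319531) (nat_lit 16) (.e (nat_lit 286748) (nat_lit 9) .nil))))) .nil))))))))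

noncomputable def tv1417 : DT := (.nd (nat_lit 0) (.nd (nat_lit 1) (.nd (nat_lit 2) (.nd (nat_lit 3) (.nd (nat_lit 4) (.nd (nat_lit 5) 
(.lf (nat_lit 103872) (.g (nat_lit 1802) (.e (nat_lit 3611) (nat_lit 226) (.e (nat_lit 770071) (nat_lit 8) (.e (nat_lit 65586) (nat_lit 7) (.e (nat_lit 319531) (nat_lit 16) (.e (nat_lit 286748) (nat_lit 9) .nil))))) .nil)) 
(.lf (nat_lit 103904) (.g (nat_lit 1873) (.e (nat_lit 3615) (nat_lit 226) (.e (nat_lit 770072) (nat_lit 8) (.e (nat_lit 65571) (nat_lit 3) (.e (nat_lit 98381) (nat_lit 31) .nil)))) .nil))) (.nd (nat_lit 5) 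
(.lf (nat_lit 103888) (.g (nat_lit 3197) (.e (nat_lit 3614) (nat_lit 226) (.e (nat_lit 770071) (nat_lit 8) (.e (nat_lit 65586) (nat_lit 7) (.e (nat_lit 319531) (nat_lit 16) (.e (nat_lit 286743) (nat_lit 9) (.e (nat_lit 336337) (nat_lit 20) (.e (nat_lit 221195) (nat_lit 20) .nil))))))) (.g (nat_lit 6) .nil .nil))) 
(.lf (nat_lit 103920) (.g (nat_lit 2096) (.e (nat_lit 3616) (nat_lit 226) (.e (nat_lit 770073) (nat_lit 9) (.e (nat_lit 73747) (nat_lit 3) (.e (nat_lit 516174) (nat_lit 14) (.e (nat_lit 466945) (nat_lit 0) .nil))))) .nil)))) (.nd (nat_lit 4) (.nd (nat_lit 5) 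
(.lf (nat_lit 103880) (.g (nat_lit 1836) (.e (nat_lit 3612) (nat_lit 226) (.e (nat_lit 770072) (nat_lit 8) (.e (nat_lit 65586) (nat_lit 7) (.e (nat_lit 319531) (nat_lit 16) (.e (nat_lit 286748) (nat_lit 9) .nil))))) .nil)) 
(.lf (nat_lit 103912) (.g (nat_lit 3399) (.e (nat_lit 3616) (nat_lit 226) (.e (nat_lit 770071) (nat_lit 8) (.e (nat_lit 65586) (nat_lit 7) (.e (nat_lit 319531) (nat_lit 16) (.e (nat_lit 286759) (nat_lit 12) (.e (nat_lit 385107) (nat_lit 51) (.e (nat_lit 794642) (nat_lit 20) .nil))))))) (.g (nat_lit 6) .nil .nil)))) (.nd (nat_lit 5) 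
(.lf (nat_lit 103896) (.g (nat_lit 2900) (.e (nat_lit 3614) (nat_lit 226) (.e (nat_lit 770071) (nat_lit 8) (.e (nat_lit 65586) (nat_lit 7) (.e (nat_lit 319531) (nat_lit 16) (.e (nat_lit 286759) (nat_lit 12) (.e (nat_lit 385110) (nat_lit 52) (.e (nat_lit 802832) (nat_lit 20) .nil))))))) (.g (nat_lit 7) .nil .nil))) 
(.lf (nat_lit 103928) (.g (nat_lit 3165) (.e (nat_lit 3618) (nat_lit 227) (.e (nat_lit 778320) (nat_lit 4) (.e (nat_lit 65630) (nat_lit 14) (.e (nat_lit 401459) (nat_lit 13) (.e (nat_lit 483380) (nat_lit 23) (.e (nat_lit 336257) (nat_lit 15) .nil)))))) (.g (nat_lit 5) .nil .nil)))))) (.nd (nat_lit 3) (.nd (nat_lit 4) (.nd (nat_lit 5) 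
(.lf (nat_lit 103876) (.g (nat_lit 2102) (.e (nat_lit 3612) (nat_lit 226) (.e (nat_lit 770071) (nat_lit 8) (.e (nat_lit 65571) (nat_lit 3) (.e (nat_lit 98370) (nat_lit 28) (.e (nat_lit 450304) (nat_lit 3) .nil))))) .nil)) 
(.lf (nat_lit 103908) (.g (nat_lit 2631) (.e (nat_lit 3616) (nat_lit 226) (.e (nat_lit 770069) (nat_lit 7) (.e (nat_lit 57479) (nat_lit 28) (.e (nat_lit 557109) (nat_lit 15) (.e (nat_lit 188461) (nat_lit 26) .nil))))) .nil))) (.nd (nat_lit 5) 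
(.lf (nat_lit 103892) (.g (nat_lit 3019) (.e (nat_lit 3614) (nat_lit 226) (.e (nat_lit 770071) (nat_lit 8) (.e (nat_lit 65586) (nat_lit 7) (.e (nat_lit 319531) (nat_lit 16) (.e (nat_lit 286748) (nat_lit 9) (.e (nat_lit 336295) (nat_lit 15) (.e (nat_lit 3757) (nat_lit 229) (.e (nat_lit 794649) (nat_lit 20) .nil)))))))) (.g (nat_lit 8) .nil .nil))) 
(.lf (nat_lit 103924) (.g (nat_lit 3374) (.e (nat_lit 3617) (nat_lit 227) (.e (nat_lit 778320) (nat_lit 4) (.e (nat_lit 65630) (nat_lit 14) (.e (nat_lit 401459) (nat_lit 13) (.e (nat_lit 483380) (nat_lit 23) (.e (nat_lit 336258) (nat_lit 15) .nil)))))) (.g (nat_lit 6) .nil .nil))))) (.nd (nat_lit 4) (.nd (nat_lit 5) 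
(.lf (nat_lit 103884) (.g (nat_lit 2111) (.e (nat_lit 3613) (nat_lit 226) (.e (nat_lit 770073) (nat_lit 9) (.e (nat_lit 73747) (nat_lit 3) (.e (nat_lit 516174) (nat_lit 14) (.e (nat_lit 474880) (nat_lit 3) .nil))))) .nil)) 
(.lf (nat_lit 103916) (.g (nat_lit 3288) (.e (nat_lit 3616) (nat_lit 226) (.e (nat_lit 770072) (nat_lit 8) (.e (nat_lit 65586) (nat_lit 7) (.e (nat_lit 319531) (nat_lit 16) (.e (nat_lit 286748) (nat_lit 9) (.e (nat_lit 336295) (nat_lit 15) (.e (nat_lit 3757) (nat_lit 229) (.e (nat_lit 794642) (nat_lit 20) .nil)))))))) (.g (nat_lit 0) .nil .nil)))) (.nd (nat_lit 5) 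
(.lf (nat_lit 103900) (.g (nat_lit 1836) (.e (nat_lit 3614) (nat_lit 226) (.e (nat_lit 770072) (nat_lit 8) (.e (nat_lit 65586) (nat_lit 7) (.e (nat_lit 319531) (nat_lit 16) (.e (nat_lit 286748) (nat_lit 9) .nil))))) .nil)) 
(.lf (nat_lit 103932) (.g (nat_lit 433) (.e (nat_lit 3620) (nat_lit 227) (.e (nat_lit 778327) (nat_lit 6) (.e (nat_lit 89856) (nat_lit 8) (.e (nat_lit 262148) (nat_lit 0) (.e (nat_lit 1555) (nat_lit 110) (.e (nat_lit 360192) (nat_lit 0) .nil)))))) (.g (nat_lit 5) .nil .nil))))))) (.nd (nat_lit 2) (.nd (nat_lit 3) (.nd (nat_lit 4) (.nd (nat_lit 5) 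
(.lf (nat_lit 103874) (.g (nat_lit 2274) (.e (nat_lit 3611) (nat_lit 226) (.e (nat_lit 770072) (nat_lit 8) (.e (nat_lit 65586) (nat_lit 7) (.e (nat_lit 319531) (nat_lit 16) (.e (nat_lit 286743) (nat_lit 9) .nil))))) .nil)) 
(.lf (nat_lit 103906) (.g (nat_lit 2343) (.e (nat_lit 3615) (nat_lit 226) (.e (nat_lit 770072) (nat_lit 8) (.e (nat_lit 65586) (nat_lit 7) (.e (nat_lit 319531) (nat_lit 16) (.e (nat_lit 286743) (nat_lit 9) (.e (nat_lit 336337) (nat_lit 20) (.e (nat_lit 221195) (nat_lit 20) .nil))))))) (.g (nat_lit 4) .nil .nil)))) (.nd (nat_lit 5) 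
(.lf (nat_lit 103890) (.g (nat_lit 2750) (.e (nat_lit 3614) (nat_lit 226) (.e (nat_lit 770071) (nat_lit 8) (.e (nat_lit 65586) (nat_lit 7) (.e (nat_lit 319531) (nat_lit 16) (.e (nat_lit 286748) (nat_lit 9) (.e (nat_lit 336295) (nat_lit 15) (.e (nat_lit 3757) (nat_lit 229) (.e (nat_lit 794638) (nat_lit 20) .nil)))))))) (.g (nat_lit 6) .nil .nil))) 
(.lf (nat_lit 103922) (.g (nat_lit 2084) (.e (nat_lit 3616) (nat_lit 226) (.e (nat_lit 770073) (nat_lit 9) (.e (nat_lit 73747) (nat_lit 3) (.e (nat_lit 516174) (nat_lit 14) (.e (nat_lit 474880) (nat_lit 3) .nil))))) .nil)))) (.nd (nat_lit 4) (.nd (nat_lit 5) 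
(.lf (nat_lit 103882) (.g (nat_lit 795) (.e (nat_lit 3612) (nat_lit 226) (.e (nat_lit 770073) (nat_lit 9) (.e (nat_lit 73746) (nat_lit 3) (.e (nat_lit 516176) (nat_lit 14) .nil)))) .nil)) 
(.lf (nat_lit 103914) (.g (nat_lit 1843) (.e (nat_lit 3616) (nat_lit 226) (.e (nat_lit 770072) (nat_lit 8) (.e (nat_lit 65586) (nat_lit 7) (.e (nat_lit 319531) (nat_lit 16) (.e (nat_lit 286748) (nat_lit 9) .nil))))) .nil))) (.nd (nat_lit 5) 
(.lf (nat_lit 103898) (.g (nat_lit 2359) (.e (nat_lit 3614) (nat_lit 226) (.e (nat_lit 770071) (nat_lit 8) (.e (nat_lit 65630) (nat_lit 14) (.e (nat_lit 401454) (nat_lit 12) (.e (nat_lit 475210) (nat_lit 41) .nil))))) .nil)) 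
(.lf (nat_lit 103930) (.g (nat_lit 2420) (.e (nat_lit 3618) (nat_lit 227) (.e (nat_lit 778320) (nat_lit 4) (.e (nat_lit 65630) (nat_lit 14) (.e (nat_lit 401459) (nat_lit 13) (.e (nat_lit 483381) (nat_lit 23) .nil))))) .nil))))) (.nd (nat_lit 3) (.nd (nat_lit 4) (.nd (nat_lit 5) 
(.lf (nat_lit 103878) (.g (nat_lit 2233) (.e (nat_lit 3612) (nat_lit 226) (.e (nat_lit 770072) (nat_lit 8) (.e (nat_lit 65571) (nat_lit 3) (.e (nat_lit 98370) (nat_lit 28) .nil)))) .nil)) 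
(.lf (nat_lit 103910) (.g (nat_lit 3143) (.e (nat_lit 3616) (nat_lit 226) (.e (nat_lit 770071) (nat_lit 8) (.e (nat_lit 65586) (nat_lit 7) (.e (nat_lit 319531) (nat_lit 16) (.e (nat_lit 286748) (nat_lit 9) (.e (nat_lit 336295) (nat_lit 15) (.e (nat_lit 3757) (nat_lit 229) (.e (nat_lit 794641) (nat_lit 20) .nil)))))))) (.g (nat_lit 0) .nil .nil)))) (.nd (nat_lit 5) 
(.lf (nat_lit 103894) (.g (nat_lit 3211) (.e (nat_lit 3614) (nat_lit 226) (.e (nat_lit 770071) (nat_lit 8) (.e (nat_lit 65586) (nat_lit 7) (.e (nat_lit 319531) (nat_lit 16) (.e (nat_lit 286748) (nat_lit 9) (.e (nat_lit 336295) (nat_lit 15) (.e (nat_lit 3784) (nat_lit 230) (.e (nat_lit 802832) (nat_lit 20) .nil)))))))) (.g (nat_lit 8) .nil .nil))) 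
(.lf (nat_lit 103926) (.g (nat_lit 2340) (.e (nat_lit 3617) (nat_lit 227) (.e (nat_lit 778462) (nat_lit 11) (.e (nat_lit 24608) (nat_lit 3) (.e (nat_lit 98370) (nat_lit 28) (.e (nat_lit 450304) (nat_lit 3) .nil))))) .nil)))) (.nd (nat_lit 4) (.nd (nat_lit 5) 
(.lf (nat_lit 103886) (.g (nat_lit 2531) (.e (nat_lit 3614) (nat_lit 226) (.e (nat_lit 770071) (nat_lit 8) (.e (nat_lit 65583) (nat_lit 7) (.e (nat_lit 319530) (nat_lit 16) (.e (nat_lit 286743) (nat_lit 9) (.e (nat_lit 336337) (nat_lit 20) (.e (nat_lit 221195) (nat_lit 20) .nil))))))) (.g (nat_lit 7) .nil .nil))) 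
(.lf (nat_lit 103918) (.g (nat_lit 3414) (.e (nat_lit 3616) (nat_lit 226) (.e (nat_lit 770072) (nat_lit 8) (.e (nat_lit 65586) (nat_lit 7) (.e (nat_lit 319531) (nat_lit 16) (.e (nat_lit 286759) (nat_lit 12) (.e (nat_lit 385107) (nat_lit 51) (.e (nat_lit 794642) (nat_lit 20) .nil))))))) (.g (nat_lit 6) .nil .nil)))) (.nd (nat_lit 5) 
(.lf (nat_lit 103902) (.g (nat_lit 1908) (.e (nat_lit 3614) (nat_lit 226) (.e (nat_lit 770072) (nat_lit 8) (.e (nat_lit 65586) (nat_lit 7) (.e (nat_lit 319531) (nat_lit 16) (.e (nat_lit 286748) (nat_lit 9) (.e (nat_lit 336295) (nat_lit 15) (.e (nat_lit 3757) (nat_lit 229) (.e (nat_lit 794649) (nat_lit 20) .nil)))))))) (.g (nat_lit 4) .nil .nil))) 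
(.lf (nat_lit 103934) (.g (nat_lit 3076) (.e (nat_lit 3624) (nat_lit 227) (.e (nat_lit 778320) (nat_lit 4) (.e (nat_lit 65630) (nat_lit 14) (.e (nat_lit 401459) (nat_lit 13) (.e (nat_lit 483380) (nat_lit 23) (.e (nat_lit 336240) (nat_lit 15) .nil)))))) (.g (nat_lit 5) .nil .nil)))))))) (.nd (nat_lit 1) (.nd (nat_lit 2) (.nd (nat_lit 3) (.nd (nat_lit 4) (.nd (nat_lit 5) 
(.lf (nat_lit 103873) (.g (nat_lit 1809) (.e (nat_lit 3611) (nat_lit 226) (.e (nat_lit 770071) (nat_lit 8) (.e (nat_lit 65586) (nat_lit 7) (.e (nat_lit 319531) (nat_lit 16) (.e (nat_lit 286748) (nat_lit 9) (.e (nat_lit 336295) (nat_lit 15) (.e (nat_lit 3757) (nat_lit 229) (.e (nat_lit 794648) (nat_lit 20) .nil)))))))) (.g (nat_lit 4) .nil .nil))) 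
(.lf (nat_lit 103905) (.g (nat_lit 1870) (.e (nat_lit 3615) (nat_lit 226) (.e (nat_lit 770072) (nat_lit 8) (.e (nat_lit 65583) (nat_lit 7) (.e (nat_lit 319530) (nat_lit 16) (.e (nat_lit 286748) (nat_lit 9) .nil))))) .nil))) (.nd (nat_lit 5) 
(.lf (nat_lit 103889) (.g (nat_lit 1788) (.e (nat_lit 3614) (nat_lit 226) (.e (nat_lit 770071) (nat_lit 8) (.e (nat_lit 65586) (nat_lit 7) (.e (nat_lit 319531) (nat_lit 16) (.e (nat_lit 286748) (nat_lit 9) .nil))))) .nil)) 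
(.lf (nat_lit 103921) (.g (nat_lit 2198) (.e (nat_lit 3616) (nat_lit 226) (.e (nat_lit 770073) (nat_lit 9) (.e (nat_lit 73747) (nat_lit 3) (.e (nat_lit 516174) (nat_lit 14) (.e (nat_lit 466945) (nat_lit 0) (.e (nat_lit 1786) (nat_lit 119) (.e (nat_lit 516097) (nat_lit 0) .nil))))))) (.g (nat_lit 4) .nil .nil))))) (.nd (nat_lit 4) (.nd (nat_lit 5) 
(.lf (nat_lit 103881) (.g (nat_lit 881) (.e (nat_lit 3612) (nat_lit 226) (.e (nat_lit 770073) (nat_lit 9) (.e (nat_lit 73746) (nat_lit 3) (.e (nat_lit 516174) (nat_lit 14) .nil)))) .nil)) 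
(.lf (nat_lit 103913) (.g (nat_lit 627) (.e (nat_lit 3616) (nat_lit 226) (.e (nat_lit 770072) (nat_lit 8) (.e (nat_lit 65571) (nat_lit 3) .nil))) .nil))) (.nd (nat_lit 5) 
(.lf (nat_lit 103897) (.g (nat_lit 2767) (.e (nat_lit 3614) (nat_lit 226) (.e (nat_lit 770071) (nat_lit 8) (.e (nat_lit 65630) (nat_lit 14) (.e (nat_lit 401454) (nat_lit 12) (.e (nat_lit 475209) (nat_lit 41) (.e (nat_lit 712732) (nat_lit 20) (.e (nat_lit 221195) (nat_lit 20) .nil))))))) (.g (nat_lit 6) .nil .nil))) 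
(.lf (nat_lit 103929) (.g (nat_lit 3173) (.e (nat_lit 3618) (nat_lit 227) (.e (nat_lit 778320) (nat_lit 4) (.e (nat_lit 65630) (nat_lit 14) (.e (nat_lit 401459) (nat_lit 13) (.e (nat_lit 483380) (nat_lit 23) (.e (nat_lit 336259) (nat_lit 15) .nil)))))) (.g (nat_lit 5) .nil .nil)))))) (.nd (nat_lit 3) (.nd (nat_lit 4) (.nd (nat_lit 5) 
(.lf (nat_lit 103877) (.g (nat_lit 1802) (.e (nat_lit 3612) (nat_lit 226) (.e (nat_lit 770071) (nat_lit 8) (.e (nat_lit 65586) (nat_lit 7) (.e (nat_lit 319531) (nat_lit 16) (.e (nat_lit 286748) (nat_lit 9) .nil))))) .nil)) 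
(.lf (nat_lit 103909) (.g (nat_lit 1808) (.e (nat_lit 3616) (nat_lit 226) (.e (nat_lit 770071) (nat_lit 8) (.e (nat_lit 65586) (nat_lit 7) (.e (nat_lit 319531) (nat_lit 16) (.e (nat_lit 286748) (nat_lit 9) .nil))))) .nil))) (.nd (nat_lit 5) 
(.lf (nat_lit 103893) (.g (nat_lit 1813) (.e (nat_lit 3614) (nat_lit 226) (.e (nat_lit 770071) (nat_lit 8) (.e (nat_lit 65586) (nat_lit 7) (.e (nat_lit 319531) (nat_lit 16) (.e (nat_lit 286748) (nat_lit 9) (.e (nat_lit 336295) (nat_lit 15) (.e (nat_lit 3761) (nat_lit 229) (.e (nat_lit 794648) (nat_lit 20) .nil)))))))) (.g (nat_lit 4) .nil .nil))) 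
(.lf (nat_lit 103925) (.g (nat_lit 1874) (.e (nat_lit 3617) (nat_lit 227) (.e (nat_lit 778462) (nat_lit 11) (.e (nat_lit 24608) (nat_lit 3) (.e (nat_lit 98365) (nat_lit 26) (.e (nat_lit 426187) (nat_lit 9) .nil))))) .nil)))) (.nd (nat_lit 4) (.nd (nat_lit 5) 
(.lf (nat_lit 103885) (.g (nat_lit 2076) (.e (nat_lit 3613) (nat_lit 226) (.e (nat_lit 770073) (nat_lit 9) (.e (nat_lit 73747) (nat_lit 3) (.e (nat_lit 516176) (nat_lit 14) (.e (nat_lit 474880) (nat_lit 3) (.e (nat_lit 98325) (nat_lit 17) .nil)))))) (.g (nat_lit 4) .nil .nil))) 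
(.lf (nat_lit 103917) (.g (nat_lit 2099) (.e (nat_lit 3616) (nat_lit 226) (.e (nat_lit 770072) (nat_lit 8) (.e (nat_lit 65586) (nat_lit 7) (.e (nat_lit 319531) (nat_lit 16) (.e (nat_lit 286748) (nat_lit 9) (.e (nat_lit 336295) (nat_lit 15) (.e (nat_lit 3758) (nat_lit 229) (.e (nat_lit 794642) (nat_lit 20) .nil)))))))) (.g (nat_lit 4) .nil .nil)))) (.nd (nat_lit 5) 
(.lf (nat_lit 103901) (.g (nat_lit 1970) (.e (nat_lit 3614) (nat_lit 226) (.e (nat_lit 770072) (nat_lit 8) (.e (nat_lit 65586) (nat_lit 7) (.e (nat_lit 319531) (nat_lit 16) (.e (nat_lit 286748) (nat_lit 9) (.e (nat_lit 336295) (nat_lit 15) (.e (nat_lit 3757) (nat_lit 229) (.e (nat_lit 794648) (nat_lit 20) .nil)))))))) (.g (nat_lit 4) .nil .nil))) 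
(.lf (nat_lit 103933) (.g (nat_lit 3809) (.e (nat_lit 3623) (nat_lit 227) (.e (nat_lit 778320) (nat_lit 4) (.e (nat_lit 65630) (nat_lit 14) (.e (nat_lit 401459) (nat_lit 13) (.e (nat_lit 483380) (nat_lit 23) (.e (nat_lit 336240) (nat_lit 15) .nil)))))) (.g (nat_lit 0) .nil .nil))))))) (.nd (nat_lit 2) (.nd (nat_lit 3) (.nd (nat_lit 4) (.nd (nat_lit 5) 
(.lf (nat_lit 103875) (.g (nat_lit 1836) (.e (nat_lit 3611) (nat_lit 226) (.e (nat_lit 770072) (nat_lit 8) (.e (nat_lit 65586) (nat_lit 7) (.e (nat_lit 319531) (nat_lit 16) (.e (nat_lit 286748) (nat_lit 9) .nil))))) .nil)) 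
(.lf (nat_lit 103907) (.g (nat_lit 1838) (.e (nat_lit 3615) (nat_lit 226) (.e (nat_lit 770072) (nat_lit 8) (.e (nat_lit 65586) (nat_lit 7) (.e (nat_lit 319531) (nat_lit 16) (.e (nat_lit 286748) (nat_lit 9) .nil))))) .nil))) (.nd (nat_lit 5) 
(.lf (nat_lit 103891) (.g (nat_lit 3081) (.e (nat_lit 3614) (nat_lit 226) (.e (nat_lit 770071) (nat_lit 8) (.e (nat_lit 65586) (nat_lit 7) (.e (nat_lit 319531) (nat_lit 16) (.e (nat_lit 286748) (nat_lit 9) (.e (nat_lit 336295) (nat_lit 15) (.e (nat_lit 3757) (nat_lit 229) (.e (nat_lit 794648) (nat_lit 20) .nil)))))))) (.g (nat_lit 0) .nil .nil))) 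
(.lf (nat_lit 103923) (.g (nat_lit 2026) (.e (nat_lit 3616) (nat_lit 226) (.e (nat_lit 770073) (nat_lit 9) (.e (nat_lit 73747) (nat_lit 3) (.e (nat_lit 516176) (nat_lit 14) (.e (nat_lit 466945) (nat_lit 0) (.e (nat_lit 1796) (nat_lit 119) (.e (nat_lit 516097) (nat_lit 0) .nil))))))) (.g (nat_lit 4) .nil .nil))))) (.nd (nat_lit 4) (.nd (nat_lit 5) 
(.lf (nat_lit 103883) (.g (nat_lit 965) (.e (nat_lit 3612) (nat_lit 226) (.e (nat_lit 770073) (nat_lit 9) (.e (nat_lit 73747) (nat_lit 3) (.e (nat_lit 516176) (nat_lit 14) .nil)))) .nil)) 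
(.lf (nat_lit 103915) (.g (nat_lit 3271) (.e (nat_lit 3616) (nat_lit 226) (.e (nat_lit 770072) (nat_lit 8) (.e (nat_lit 65586) (nat_lit 7) (.e (nat_lit 319531) (nat_lit 16) (.e (nat_lit 286748) (nat_lit 9) (.e (nat_lit 336295) (nat_lit 15) (.e (nat_lit 3757) (nat_lit 229) (.e (nat_lit 794641) (nat_lit 20) .nil)))))))) (.g (nat_lit 0) .nil .nil)))) (.nd (nat_lit 5) 
(.lf (nat_lit 103899) (.g (nat_lit 1954) (.e (nat_lit 3614) (nat_lit 226) (.e (nat_lit 770072) (nat_lit 8) (.e (nat_lit 65583) (nat_lit 7) (.e (nat_lit 319530) (nat_lit 16) (.e (nat_lit 286743) (nat_lit 9) (.e (nat_lit 336337) (nat_lit 20) (.e (nat_lit 221195) (nat_lit 20) .nil))))))) (.g (nat_lit 4) .nil .nil))) 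
(.lf (nat_lit 103931) (.g (nat_lit 3151) (.e (nat_lit 3620) (nat_lit 227) (.e (nat_lit 778320) (nat_lit 4) (.e (nat_lit 65630) (nat_lit 14) (.e (nat_lit 401459) (nat_lit 13) (.e (nat_lit 483380) (nat_lit 23) (.e (nat_lit 336257) (nat_lit 15) .nil)))))) (.g (nat_lit 5) .nil .nil)))))) (.nd (nat_lit 3) (.nd (nat_lit 4) (.nd (nat_lit 5) 
(.lf (nat_lit 103879) (.g (nat_lit 2354) (.e (nat_lit 3612) (nat_lit 226) (.e (nat_lit 770072) (nat_lit 8) (.e (nat_lit 65586) (nat_lit 7) (.e (nat_lit 319531) (nat_lit 16) (.e (nat_lit 286743) (nat_lit 9) (.e (nat_lit 336337) (nat_lit 20) (.e (nat_lit 221195) (nat_lit 20) .nil))))))) (.g (nat_lit 4) .nil .nil))) 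
(.lf (nat_lit 103911) (.g (nat_lit 3160) (.e (nat_lit 3616) (nat_lit 226) (.e (nat_lit 770071) (nat_lit 8) (.e (nat_lit 65586) (nat_lit 7) (.e (nat_lit 319531) (nat_lit 16) (.e (nat_lit 286748) (nat_lit 9) (.e (nat_lit 336295) (nat_lit 15) (.e (nat_lit 3757) (nat_lit 229) (.e (nat_lit 794642) (nat_lit 20) .nil)))))))) (.g (nat_lit 0) .nil .nil)))) (.nd (nat_lit 5) 
(.lf (nat_lit 103895) (.g (nat_lit 3817) (.e (nat_lit 3614) (nat_lit 226) (.e (nat_lit 770071) (nat_lit 8) (.e (nat_lit 65586) (nat_lit 7) (.e (nat_lit 319531) (nat_lit 16) (.e (nat_lit 286759) (nat_lit 12) (.e (nat_lit 385107) (nat_lit 51) (.e (nat_lit 794648) (nat_lit 20) .nil))))))) (.g (nat_lit 6) .nil .nil))) 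
(.lf (nat_lit 103927) (.g (nat_lit 1942) (.e (nat_lit 3618) (nat_lit 227) (.e (nat_lit 778317) (nat_lit 3) (.e (nat_lit 57479) (nat_lit 28) (.e (nat_lit 557101) (nat_lit 13) (.e (nat_lit 172115) (nat_lit 10) (.e (nat_lit 434231) (nat_lit 23) (.e (nat_lit 532531) (nat_lit 9) (.e (nat_lit 336306) (nat_lit 15) .nil)))))))) (.g (nat_lit 4) .nil .nil))))) (.nd (nat_lit 4) (.nd (nat_lit 5) 
(.lf (nat_lit 103887) (.g (nat_lit 2753) (.e (nat_lit 3614) (nat_lit 226) (.e (nat_lit 770071) (nat_lit 8) (.e (nat_lit 65583) (nat_lit 7) (.e (nat_lit 319530) (nat_lit 16) (.e (nat_lit 286759) (nat_lit 12) (.e (nat_lit 385110) (nat_lit 52) (.e (nat_lit 802832) (nat_lit 20) .nil))))))) (.g (nat_lit 0) .nil .nil))) 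
(.lf (nat_lit 103919) (.g (nat_lit 1874) (.e (nat_lit 3616) (nat_lit 226) (.e (nat_lit 770073) (nat_lit 9) (.e (nat_lit 73746) (nat_lit 3) (.e (nat_lit 516174) (nat_lit 14) (.e (nat_lit 466944) (nat_lit 0) .nil))))) .nil))) (.nd (nat_lit 5) 
(.lf (nat_lit 103903) (.g (nat_lit 2128) (.e (nat_lit 3614) (nat_lit 226) (.e (nat_lit 770073) (nat_lit 9) (.e (nat_lit 73747) (nat_lit 3) (.e (nat_lit 516174) (nat_lit 14) (.e (nat_lit 474880) (nat_lit 3) .nil))))) .nil)) 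
(.lf (nat_lit 103935) (.g (nat_lit 3270) (.e (nat_lit 3624) (nat_lit 227) (.e (nat_lit 778320) (nat_lit 4) (.e (nat_lit 65630) (nat_lit 14) (.e (nat_lit 401459) (nat_lit 13) (.e (nat_lit 483380) (nat_lit 23) (.e (nat_lit 336257) (nat_lit 15) .nil)))))) (.g (nat_lit 6) .nil .nil)))))))))

noncomputable def tv1418 : DT := (.nd (nat_lit 0) (.nd (nat_lit 1) (.nd (nat_lit 2) (.nd (nat_lit 3) (.nd (nat_lit 4) (.nd (nat_lit 5) 
(.lf (nat_lit 103936) (.g (nat_lit 3596) (.e (nat_lit 3626) (nat_lit 227) (.e (nat_lit 778320) (nat_lit 4) (.e (nat_lit 65630) (nat_lit 14) (.e (nat_lit 401459) (nat_lit 13) (.e (nat_lit 483380) (nat_lit 23) (.e (nat_lit 336240) (nat_lit 15) .nil)))))) (.g (nat_lit 6) .nil .nil))) 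
(.lf (nat_lit 103968) (.g (nat_lit 3746) (.e (nat_lit 3629) (nat_lit 227) (.e (nat_lit 778317) (nat_lit 3) (.e (nat_lit 57479) (nat_lit 28) (.e (nat_lit 557101) (nat_lit 13) (.e (nat_lit 172115) (nat_lit 10) (.e (nat_lit 434231) (nat_lit 23) (.e (nat_lit 532528) (nat_lit 9) (.e (nat_lit 336263) (nat_lit 15) .nil)))))))) (.g (nat_lit 6) .nil .nil)))) (.nd (nat_lit 5) 
(.lf (nat_lit 103952) (.g (nat_lit 3375) (.e (nat_lit 3629) (nat_lit 227) (.e (nat_lit 778317) (nat_lit 3) (.e (nat_lit 57476) (nat_lit 28) (.e (nat_lit 557108) (nat_lit 15) (.e (nat_lit 188452) (nat_lit 23) (.e (nat_lit 204851) (nat_lit 26) (.e (nat_lit 336265) (nat_lit 15) .nil))))))) (.g (nat_lit 5) .nil .nil))) 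
(.lf (nat_lit 103984) (.g (nat_lit 3836) (.e (nat_lit 3629) (nat_lit 227) (.e (nat_lit 778317) (nat_lit 3) (.e (nat_lit 57480) (nat_lit 28) (.e (nat_lit 557109) (nat_lit 15) (.e (nat_lit 188452) (nat_lit 23) (.e (nat_lit 204856) (nat_lit 26) (.e (nat_lit 336292) (nat_lit 15) .nil))))))) (.g (nat_lit 5) .nil .nil))))) (.nd (nat_lit 4) (.nd (nat_lit 5) 
(.lf (nat_lit 103944) (.g (nat_lit 1492) (.e (nat_lit 3629) (nat_lit 227) (.e (nat_lit 778317) (nat_lit 3) (.e (nat_lit 57476) (nat_lit 28) (.e (nat_lit 557107) (nat_lit 15) (.e (nat_lit 188450) (nat_lit 23) (.e (nat_lit 204851) (nat_lit 26) (.e (nat_lit 336269) (nat_lit 15) .nil))))))) (.g (nat_lit 4) .nil .nil))) 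
(.lf (nat_lit 103976) (.g (nat_lit 3743) (.e (nat_lit 3629) (nat_lit 227) (.e (nat_lit 778317) (nat_lit 3) (.e (nat_lit 57480) (nat_lit 28) (.e (nat_lit 557108) (nat_lit 15) (.e (nat_lit 188452) (nat_lit 23) (.e (nat_lit 204852) (nat_lit 26) (.e (nat_lit 336297) (nat_lit 15) .nil))))))) (.g (nat_lit 5) .nil .nil)))) (.nd (nat_lit 5) 
(.lf (nat_lit 103960) (.g (nat_lit 3197) (.e (nat_lit 3629) (nat_lit 227) (.e (nat_lit 778317) (nat_lit 3) (.e (nat_lit 57477) (nat_lit 28) (.e (nat_lit 557107) (nat_lit 15) (.e (nat_lit 188450) (nat_lit 23) (.e (nat_lit 204852) (nat_lit 26) (.e (nat_lit 336261) (nat_lit 15) .nil))))))) (.g (nat_lit 7) .nil .nil))) 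
(.lf (nat_lit 103992) (.g (nat_lit 3403) (.e (nat_lit 3629) (nat_lit 227) (.e (nat_lit 778320) (nat_lit 4) (.e (nat_lit 65630) (nat_lit 14) (.e (nat_lit 401459) (nat_lit 13) (.e (nat_lit 483380) (nat_lit 23) (.e (nat_lit 336261) (nat_lit 15) .nil)))))) (.g (nat_lit 0) .nil .nil)))))) (.nd (nat_lit 3) (.nd (nat_lit 4) (.nd (nat_lit 5) 
(.lf (nat_lit 103940) (.g (nat_lit 4099) (.e (nat_lit 3629) (nat_lit 227) (.e (nat_lit 778317) (nat_lit 3) (.e (nat_lit 57476) (nat_lit 28) (.e (nat_lit 557097) (nat_lit 13) (.e (nat_lit 172097) (nat_lit 9) (.e (nat_lit 426140) (nat_lit 3) (.e (nat_lit 204855) (nat_lit 26) (.e (nat_lit 336295) (nat_lit 15) .nil)))))))) (.g (nat_lit 8) .nil .nil))) 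
(.lf (nat_lit 103972) (.g (nat_lit 2810) (.e (nat_lit 3629) (nat_lit 227) (.e (nat_lit 778317) (nat_lit 3) (.e (nat_lit 57480) (nat_lit 28) (.e (nat_lit 557098) (nat_lit 13) (.e (nat_lit 172115) (nat_lit 10) (.e (nat_lit 434231) (nat_lit 23) (.e (nat_lit 532531) (nat_lit 9) (.e (nat_lit 336265) (nat_lit 15) .nil)))))))) (.g (nat_lit 5) .nil .nil)))) (.nd (nat_lit 5) 
(.lf (nat_lit 103956) (.g (nat_lit 4051) (.e (nat_lit 3629) (nat_lit 227) (.e (nat_lit 778317) (nat_lit 3) (.e (nat_lit 57476) (nat_lit 28) (.e (nat_lit 557108) (nat_lit 15) (.e (nat_lit 188452) (nat_lit 23) (.e (nat_lit 204852) (nat_lit 26) (.e (nat_lit 336297) (nat_lit 15) .nil))))))) (.g (nat_lit 6) .nil .nil))) 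
(.lf (nat_lit 103988) (.g (nat_lit 2488) (.e (nat_lit 3629) (nat_lit 227) (.e (nat_lit 778318) (nat_lit 3) (.e (nat_lit 57476) (nat_lit 28) (.e (nat_lit 557108) (nat_lit 15) (.e (nat_lit 188458) (nat_lit 25) .nil))))) .nil)))) (.nd (nat_lit 4) (.nd (nat_lit 5) 
(.lf (nat_lit 103948) (.g (nat_lit 3311) (.e (nat_lit 3629) (nat_lit 227) (.e (nat_lit 778317) (nat_lit 3) (.e (nat_lit 57476) (nat_lit 28) (.e (nat_lit 557107) (nat_lit 15) (.e (nat_lit 188450) (nat_lit 23) (.e (nat_lit 204855) (nat_lit 26) (.e (nat_lit 336295) (nat_lit 15) .nil))))))) (.g (nat_lit 7) .nil .nil))) 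
(.lf (nat_lit 103980) (.g (nat_lit 4629) (.e (nat_lit 3629) (nat_lit 227) (.e (nat_lit 778317) (nat_lit 3) (.e (nat_lit 57480) (nat_lit 28) (.e (nat_lit 557109) (nat_lit 15) (.e (nat_lit 188452) (nat_lit 23) (.e (nat_lit 204852) (nat_lit 26) (.e (nat_lit 336257) (nat_lit 15) .nil))))))) (.g (nat_lit 6) .nil .nil)))) (.nd (nat_lit 5) 
(.lf (nat_lit 103964) (.g (nat_lit 3994) (.e (nat_lit 3629) (nat_lit 227) (.e (nat_lit 778317) (nat_lit 3) (.e (nat_lit 57477) (nat_lit 28) (.e (nat_lit 557108) (nat_lit 15) (.e (nat_lit 188452) (nat_lit 23) (.e (nat_lit 204852) (nat_lit 26) (.e (nat_lit 336261) (nat_lit 15) .nil))))))) (.g (nat_lit 7) .nil .nil))) 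
(.lf (nat_lit 103996) (.g (nat_lit 1591) (.e (nat_lit 3629) (nat_lit 227) (.e (nat_lit 778320) (nat_lit 4) (.e (nat_lit 65630) (nat_lit 14) (.e (nat_lit 401459) (nat_lit 13) (.e (nat_lit 483386) (nat_lit 23) .nil))))) .nil)))))) (.nd (nat_lit 2) (.nd (nat_lit 3) (.nd (nat_lit 4) (.nd (nat_lit 5) 
(.lf (nat_lit 103938) (.g (nat_lit 2233) (.e (nat_lit 3628) (nat_lit 227) (.e (nat_lit 778318) (nat_lit 3) (.e (nat_lit 57464) (nat_lit 23) (.e (nat_lit 516166) (nat_lit 12) (.e (nat_lit 450563) (nat_lit 0) .nil))))) .nil)) 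
(.lf (nat_lit 103970) (.g (nat_lit 1932) (.e (nat_lit 3629) (nat_lit 227) (.e (nat_lit 778317) (nat_lit 3) (.e (nat_lit 57479) (nat_lit 28) (.e (nat_lit 557101) (nat_lit 13) (.e (nat_lit 172115) (nat_lit 10) (.e (nat_lit 434231) (nat_lit 23) (.e (nat_lit 532531) (nat_lit 9) (.e (nat_lit 336306) (nat_lit 15) .nil)))))))) (.g (nat_lit 4) .nil .nil)))) (.nd (nat_lit 5) 
(.lf (nat_lit 103954) (.g (nat_lit 4334) (.e (nat_lit 3629) (nat_lit 227) (.e (nat_lit 778317) (nat_lit 3) (.e (nat_lit 57476) (nat_lit 28) (.e (nat_lit 557108) (nat_lit 15) (.e (nat_lit 188452) (nat_lit 23) (.e (nat_lit 204852) (nat_lit 26) (.e (nat_lit 336257) (nat_lit 15) .nil))))))) (.g (nat_lit 6) .nil .nil))) 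
(.lf (nat_lit 103986) (.g (nat_lit 3112) (.e (nat_lit 3629) (nat_lit 227) (.e (nat_lit 778317) (nat_lit 3) (.e (nat_lit 57480) (nat_lit 28) (.e (nat_lit 557109) (nat_lit 15) (.e (nat_lit 188458) (nat_lit 25) (.e (nat_lit 245784) (nat_lit 9) (.e (nat_lit 1440) (nat_lit 108) (.e (nat_lit 336295) (nat_lit 15) .nil)))))))) (.g (nat_lit 5) .nil .nil))))) (.nd (nat_lit 4) (.nd (nat_lit 5) 
(.lf (nat_lit 103946) (.g (nat_lit 3405) (.e (nat_lit 3629) (nat_lit 227) (.e (nat_lit 778317) (nat_lit 3) (.e (nat_lit 57476) (nat_lit 28) (.e (nat_lit 557107) (nat_lit 15) (.e (nat_lit 188450) (nat_lit 23) (.e (nat_lit 204852) (nat_lit 26) (.e (nat_lit 336261) (nat_lit 15) .nil))))))) (.g (nat_lit 7) .nil .nil))) 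
(.lf (nat_lit 103978) (.g (nat_lit 3514) (.e (nat_lit 3629) (nat_lit 227) (.e (nat_lit 778317) (nat_lit 3) (.e (nat_lit 57480) (nat_lit 28) (.e (nat_lit 557109) (nat_lit 15) (.e (nat_lit 188452) (nat_lit 23) (.e (nat_lit 204851) (nat_lit 26) (.e (nat_lit 336263) (nat_lit 15) .nil))))))) (.g (nat_lit 5) .nil .nil)))) (.nd (nat_lit 5) 
(.lf (nat_lit 103962) (.g (nat_lit 2905) (.e (nat_lit 3629) (nat_lit 227) (.e (nat_lit 778317) (nat_lit 3) (.e (nat_lit 57477) (nat_lit 28) (.e (nat_lit 557108) (nat_lit 15) (.e (nat_lit 188452) (nat_lit 23) (.e (nat_lit 204851) (nat_lit 26) (.e (nat_lit 336265) (nat_lit 15) .nil))))))) (.g (nat_lit 5) .nil .nil))) 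
(.lf (nat_lit 103994) (.g (nat_lit 2412) (.e (nat_lit 3629) (nat_lit 227) (.e (nat_lit 778320) (nat_lit 4) (.e (nat_lit 65630) (nat_lit 14) (.e (nat_lit 401459) (nat_lit 13) (.e (nat_lit 483381) (nat_lit 23) .nil))))) .nil))))) (.nd (nat_lit 3) (.nd (nat_lit 4) (.nd (nat_lit 5) 
(.lf (nat_lit 103942) (.g (nat_lit 4854) (.e (nat_lit 3629) (nat_lit 227) (.e (nat_lit 778317) (nat_lit 3) (.e (nat_lit 57476) (nat_lit 28) (.e (nat_lit 557097) (nat_lit 13) (.e (nat_lit 172115) (nat_lit 10) (.e (nat_lit 434231) (nat_lit 23) (.e (nat_lit 532535) (nat_lit 9) (.e (nat_lit 336295) (nat_lit 15) .nil)))))))) (.g (nat_lit 0) .nil .nil))) 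
(.lf (nat_lit 103974) (.g (nat_lit 3762) (.e (nat_lit 3629) (nat_lit 227) (.e (nat_lit 778317) (nat_lit 3) (.e (nat_lit 57480) (nat_lit 28) (.e (nat_lit 557107) (nat_lit 15) (.e (nat_lit 188450) (nat_lit 23) (.e (nat_lit 204852) (nat_lit 26) (.e (nat_lit 336261) (nat_lit 15) .nil))))))) (.g (nat_lit 7) .nil .nil)))) (.nd (nat_lit 5) 
(.lf (nat_lit 103958) (.g (nat_lit 3230) (.e (nat_lit 3629) (nat_lit 227) (.e (nat_lit 778317) (nat_lit 3) (.e (nat_lit 57477) (nat_lit 28) (.e (nat_lit 557097) (nat_lit 13) (.e (nat_lit 172115) (nat_lit 10) (.e (nat_lit 434231) (nat_lit 23) (.e (nat_lit 532528) (nat_lit 9) (.e (nat_lit 336263) (nat_lit 15) .nil)))))))) (.g (nat_lit 6) .nil .nil))) 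
(.lf (nat_lit 103990) (.g (nat_lit 4647) (.e (nat_lit 3629) (nat_lit 227) (.e (nat_lit 778318) (nat_lit 3) (.e (nat_lit 57521) (nat_lit 44) (.e (nat_lit 688177) (nat_lit 16) (.e (nat_lit 65586) (nat_lit 7) (.e (nat_lit 319531) (nat_lit 16) (.e (nat_lit 286748) (nat_lit 9) (.e (nat_lit 336295) (nat_lit 15) .nil)))))))) (.g (nat_lit 8) .nil .nil))))) (.nd (nat_lit 4) (.nd (nat_lit 5) 
(.lf (nat_lit 103950) (.g (nat_lit 3936) (.e (nat_lit 3629) (nat_lit 227) (.e (nat_lit 778317) (nat_lit 3) (.e (nat_lit 57476) (nat_lit 28) (.e (nat_lit 557108) (nat_lit 15) (.e (nat_lit 188449) (nat_lit 22) (.e (nat_lit 196666) (nat_lit 13) (.e (nat_lit 65642) (nat_lit 15) .nil))))))) (.g (nat_lit 0) .nil .nil))) 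
(.lf (nat_lit 103982) (.g (nat_lit 4416) (.e (nat_lit 3629) (nat_lit 227) (.e (nat_lit 778317) (nat_lit 3) (.e (nat_lit 57480) (nat_lit 28) (.e (nat_lit 557109) (nat_lit 15) (.e (nat_lit 188452) (nat_lit 23) (.e (nat_lit 204852) (nat_lit 26) (.e (nat_lit 336297) (nat_lit 15) .nil))))))) (.g (nat_lit 6) .nil .nil)))) (.nd (nat_lit 5) 
(.lf (nat_lit 103966) (.g (nat_lit 6125) (.e (nat_lit 3629) (nat_lit 227) (.e (nat_lit 778317) (nat_lit 3) (.e (nat_lit 57479) (nat_lit 28) (.e (nat_lit 557095) (nat_lit 13) (.e (nat_lit 172106) (nat_lit 10) (.e (nat_lit 434231) (nat_lit 23) (.e (nat_lit 532535) (nat_lit 9) (.e (nat_lit 336295) (nat_lit 15) .nil)))))))) (.g (nat_lit 7) .nil .nil))) 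
(.lf (nat_lit 103998) (.g (nat_lit 1030) (.e (nat_lit 3629) (nat_lit 227) (.e (nat_lit 778323) (nat_lit 5) (.e (nat_lit 73729) (nat_lit 0) (.e (nat_lit 7122) (nat_lit 382) .nil)))) .nil))))))) (.nd (nat_lit 1) (.nd (nat_lit 2) (.nd (nat_lit 3) (.nd (nat_lit 4) (.nd (nat_lit 5) 
(.lf (nat_lit 103937) (.g (nat_lit 1724) (.e (nat_lit 3627) (nat_lit 227) (.e (nat_lit 778320) (nat_lit 4) (.e (nat_lit 65630) (nat_lit 14) (.e (nat_lit 401459) (nat_lit 13) (.e (nat_lit 483386) (nat_lit 23) (.e (nat_lit 336280) (nat_lit 15) .nil)))))) (.g (nat_lit 4) .nil .nil))) 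
(.lf (nat_lit 103969) (.g (nat_lit 2783) (.e (nat_lit 3629) (nat_lit 227) (.e (nat_lit 778317) (nat_lit 3) (.e (nat_lit 57479) (nat_lit 28) (.e (nat_lit 557101) (nat_lit 13) (.e (nat_lit 172115) (nat_lit 10) (.e (nat_lit 434231) (nat_lit 23) (.e (nat_lit 532531) (nat_lit 9) (.e (nat_lit 336263) (nat_lit 15) .nil)))))))) (.g (nat_lit 5) .nil .nil)))) (.nd (nat_lit 5) 
(.lf (nat_lit 103953) (.g (nat_lit 3228) (.e (nat_lit 3629) (nat_lit 227) (.e (nat_lit 778317) (nat_lit 3) (.e (nat_lit 57476) (nat_lit 28) (.e (nat_lit 557108) (nat_lit 15) (.e (nat_lit 188452) (nat_lit 23) (.e (nat_lit 204851) (nat_lit 26) (.e (nat_lit 336285) (nat_lit 15) .nil))))))) (.g (nat_lit 5) .nil .nil))) 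
(.lf (nat_lit 103985) (.g (nat_lit 5085) (.e (nat_lit 3629) (nat_lit 227) (.e (nat_lit 778317) (nat_lit 3) (.e (nat_lit 57480) (nat_lit 28) (.e (nat_lit 557109) (nat_lit 15) (.e (nat_lit 188452) (nat_lit 23) (.e (nat_lit 204858) (nat_lit 26) (.e (nat_lit 336295) (nat_lit 15) .nil))))))) (.g (nat_lit 5) .nil .nil))))) (.nd (nat_lit 4) (.nd (nat_lit 5) 
(.lf (nat_lit 103945) (.g (nat_lit 3024) (.e (nat_lit 3629) (nat_lit 227) (.e (nat_lit 778317) (nat_lit 3) (.e (nat_lit 57476) (nat_lit 28) (.e (nat_lit 557107) (nat_lit 15) (.e (nat_lit 188450) (nat_lit 23) (.e (nat_lit 204852) (nat_lit 26) (.e (nat_lit 336257) (nat_lit 15) .nil))))))) (.g (nat_lit 6) .nil .nil))) 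
(.lf (nat_lit 103977) (.g (nat_lit 4423) (.e (nat_lit 3629) (nat_lit 227) (.e (nat_lit 778317) (nat_lit 3) (.e (nat_lit 57480) (nat_lit 28) (.e (nat_lit 557109) (nat_lit 15) (.e (nat_lit 188449) (nat_lit 22) (.e (nat_lit 196666) (nat_lit 13) (.e (nat_lit 65642) (nat_lit 15) .nil))))))) (.g (nat_lit 0) .nil .nil)))) (.nd (nat_lit 5) 
(.lf (nat_lit 103961) (.g (nat_lit 2883) (.e (nat_lit 3629) (nat_lit 227) (.e (nat_lit 778317) (nat_lit 3) (.e (nat_lit 57477) (nat_lit 28) (.e (nat_lit 557107) (nat_lit 15) (.e (nat_lit 188450) (nat_lit 23) (.e (nat_lit 204852) (nat_lit 26) (.e (nat_lit 336297) (nat_lit 15) .nil))))))) (.g (nat_lit 6) .nil .nil))) 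
(.lf (nat_lit 103993) (.g (nat_lit 3179) (.e (nat_lit 3629) (nat_lit 227) (.e (nat_lit 778320) (nat_lit 4) (.e (nat_lit 65630) (nat_lit 14) (.e (nat_lit 401459) (nat_lit 13) (.e (nat_lit 483380) (nat_lit 23) (.e (nat_lit 336297) (nat_lit 15) .nil)))))) (.g (nat_lit 0) .nil .nil)))))) (.nd (nat_lit 3) (.nd (nat_lit 4) (.nd (nat_lit 5) 
(.lf (nat_lit 103941) (.g (nat_lit 3506) (.e (nat_lit 3629) (nat_lit 227) (.e (nat_lit 778317) (nat_lit 3) (.e (nat_lit 57476) (nat_lit 28) (.e (nat_lit 557097) (nat_lit 13) (.e (nat_lit 172115) (nat_lit 10) (.e (nat_lit 434231) (nat_lit 23) (.e (nat_lit 532528) (nat_lit 9) (.e (nat_lit 336263) (nat_lit 15) .nil)))))))) (.g (nat_lit 6) .nil .nil))) 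
(.lf (nat_lit 103973) (.g (nat_lit 2387) (.e (nat_lit 3629) (nat_lit 227) (.e (nat_lit 778317) (nat_lit 3) (.e (nat_lit 57480) (nat_lit 28) (.e (nat_lit 557107) (nat_lit 15) (.e (nat_lit 188450) (nat_lit 23) (.e (nat_lit 204851) (nat_lit 26) (.e (nat_lit 336265) (nat_lit 15) .nil))))))) (.g (nat_lit 5) .nil .nil)))) (.nd (nat_lit 5) 
(.lf (nat_lit 103957) (.g (nat_lit 4002) (.e (nat_lit 3629) (nat_lit 227) (.e (nat_lit 778317) (nat_lit 3) (.e (nat_lit 57476) (nat_lit 28) (.e (nat_lit 557108) (nat_lit 15) (.e (nat_lit 188452) (nat_lit 23) (.e (nat_lit 204855) (nat_lit 26) (.e (nat_lit 336295) (nat_lit 15) .nil))))))) (.g (nat_lit 7) .nil .nil))) 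
(.lf (nat_lit 103989) (.g (nat_lit 2297) (.e (nat_lit 3629) (nat_lit 227) (.e (nat_lit 778318) (nat_lit 3) (.e (nat_lit 57520) (nat_lit 44) (.e (nat_lit 688177) (nat_lit 16) (.e (nat_lit 65583) (nat_lit 7) (.e (nat_lit 319530) (nat_lit 16) (.e (nat_lit 286748) (nat_lit 9) (.e (nat_lit 336295) (nat_lit 15) .nil)))))))) (.g (nat_lit 4) .nil .nil))))) (.nd (nat_lit 4) (.nd (nat_lit 5) 
(.lf (nat_lit 103949) (.g (nat_lit 1882) (.e (nat_lit 3629) (nat_lit 227) (.e (nat_lit 778317) (nat_lit 3) (.e (nat_lit 57476) (nat_lit 28) (.e (nat_lit 557108) (nat_lit 15) (.e (nat_lit 188433) (nat_lit 20) .nil))))) .nil)) 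
(.lf (nat_lit 103981) (.g (nat_lit 4754) (.e (nat_lit 3629) (nat_lit 227) (.e (nat_lit 778317) (nat_lit 3) (.e (nat_lit 57480) (nat_lit 28) (.e (nat_lit 557109) (nat_lit 15) (.e (nat_lit 188452) (nat_lit 23) (.e (nat_lit 204852) (nat_lit 26) (.e (nat_lit 336261) (nat_lit 15) .nil))))))) (.g (nat_lit 7) .nil .nil)))) (.nd (nat_lit 5) 
(.lf (nat_lit 103965) (.g (nat_lit 3687) (.e (nat_lit 3629) (nat_lit 227) (.e (nat_lit 778317) (nat_lit 3) (.e (nat_lit 57477) (nat_lit 28) (.e (nat_lit 557108) (nat_lit 15) (.e (nat_lit 188452) (nat_lit 23) (.e (nat_lit 204852) (nat_lit 26) (.e (nat_lit 336297) (nat_lit 15) .nil))))))) (.g (nat_lit 6) .nil .nil))) 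
(.lf (nat_lit 103997) (.g (nat_lit 515) (.e (nat_lit 3629) (nat_lit 227) (.e (nat_lit 778323) (nat_lit 5) (.e (nat_lit 73729) (nat_lit 0) .nil))) .nil)))))) (.nd (nat_lit 2) (.nd (nat_lit 3) (.nd (nat_lit 4) (.nd (nat_lit 5) 
(.lf (nat_lit 103939) (.g (nat_lit 4467) (.e (nat_lit 3629) (nat_lit 227) (.e (nat_lit 778317) (nat_lit 3) (.e (nat_lit 57476) (nat_lit 28) (.e (nat_lit 557097) (nat_lit 13) (.e (nat_lit 172097) (nat_lit 9) (.e (nat_lit 426125) (nat_lit 2) (.e (nat_lit 196666) (nat_lit 13) (.e (nat_lit 65642) (nat_lit 15) .nil)))))))) (.g (nat_lit 0) .nil .nil))) 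
(.lf (nat_lit 103971) (.g (nat_lit 3851) (.e (nat_lit 3629) (nat_lit 227) (.e (nat_lit 778317) (nat_lit 3) (.e (nat_lit 57480) (nat_lit 28) (.e (nat_lit 557098) (nat_lit 13) (.e (nat_lit 172115) (nat_lit 10) (.e (nat_lit 434231) (nat_lit 23) (.e (nat_lit 532528) (nat_lit 9) (.e (nat_lit 336263) (nat_lit 15) .nil)))))))) (.g (nat_lit 6) .nil .nil)))) (.nd (nat_lit 5) 
(.lf (nat_lit 103955) (.g (nat_lit 4399) (.e (nat_lit 3629) (nat_lit 227) (.e (nat_lit 778317) (nat_lit 3) (.e (nat_lit 57476) (nat_lit 28) (.e (nat_lit 557108) (nat_lit 15) (.e (nat_lit 188452) (nat_lit 23) (.e (nat_lit 204852) (nat_lit 26) (.e (nat_lit 336261) (nat_lit 15) .nil))))))) (.g (nat_lit 0) .nil .nil))) 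
(.lf (nat_lit 103987) (.g (nat_lit 2387) (.e (nat_lit 3629) (nat_lit 227) (.e (nat_lit 778318) (nat_lit 3) (.e (nat_lit 57464) (nat_lit 23) (.e (nat_lit 516166) (nat_lit 12) (.e (nat_lit 450563) (nat_lit 0) (.e (nat_lit 6420) (nat_lit 341) (.e (nat_lit 163885) (nat_lit 5) (.e (nat_lit 221204) (nat_lit 20) .nil)))))))) (.g (nat_lit 4) .nil .nil))))) (.nd (nat_lit 4) (.nd (nat_lit 5) 
(.lf (nat_lit 103947) (.g (nat_lit 3050) (.e (nat_lit 3629) (nat_lit 227) (.e (nat_lit 778317) (nat_lit 3) (.e (nat_lit 57476) (nat_lit 28) (.e (nat_lit 557107) (nat_lit 15) (.e (nat_lit 188450) (nat_lit 23) (.e (nat_lit 204852) (nat_lit 26) (.e (nat_lit 336297) (nat_lit 15) .nil))))))) (.g (nat_lit 7) .nil .nil))) 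
(.lf (nat_lit 103979) (.g (nat_lit 3605) (.e (nat_lit 3629) (nat_lit 227) (.e (nat_lit 778317) (nat_lit 3) (.e (nat_lit 57480) (nat_lit 28) (.e (nat_lit 557109) (nat_lit 15) (.e (nat_lit 188452) (nat_lit 23) (.e (nat_lit 204851) (nat_lit 26) (.e (nat_lit 336265) (nat_lit 15) .nil))))))) (.g (nat_lit 5) .nil .nil)))) (.nd (nat_lit 5) 
(.lf (nat_lit 103963) (.g (nat_lit 3943) (.e (nat_lit 3629) (nat_lit 227) (.e (nat_lit 778317) (nat_lit 3) (.e (nat_lit 57477) (nat_lit 28) (.e (nat_lit 557108) (nat_lit 15) (.e (nat_lit 188452) (nat_lit 23) (.e (nat_lit 204852) (nat_lit 26) (.e (nat_lit 336257) (nat_lit 15) .nil))))))) (.g (nat_lit 6) .nil .nil))) 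
(.lf (nat_lit 103995) (.g (nat_lit 2682) (.e (nat_lit 3629) (nat_lit 227) (.e (nat_lit 778320) (nat_lit 4) (.e (nat_lit 65630) (nat_lit 14) (.e (nat_lit 401459) (nat_lit 13) (.e (nat_lit 483381) (nat_lit 23) (.e (nat_lit 336286) (nat_lit 15) .nil)))))) (.g (nat_lit 5) .nil .nil)))))) (.nd (nat_lit 3) (.nd (nat_lit 4) (.nd (nat_lit 5) 
(.lf (nat_lit 103943) (.g (nat_lit 3696) (.e (nat_lit 3629) (nat_lit 227) (.e (nat_lit 778317) (nat_lit 3) (.e (nat_lit 57476) (nat_lit 28) (.e (nat_lit 557107) (nat_lit 15) (.e (nat_lit 188447) (nat_lit 22) (.e (nat_lit 196666) (nat_lit 13) (.e (nat_lit 65642) (nat_lit 15) .nil))))))) (.g (nat_lit 0) .nil .nil))) 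
(.lf (nat_lit 103975) (.g (nat_lit 3455) (.e (nat_lit 3629) (nat_lit 227) (.e (nat_lit 778317) (nat_lit 3) (.e (nat_lit 57480) (nat_lit 28) (.e (nat_lit 557107) (nat_lit 15) (.e (nat_lit 188450) (nat_lit 23) (.e (nat_lit 204852) (nat_lit 26) (.e (nat_lit 336297) (nat_lit 15) .nil))))))) (.g (nat_lit 6) .nil .nil)))) (.nd (nat_lit 5) 
(.lf (nat_lit 103959) (.g (nat_lit 1822) (.e (nat_lit 3629) (nat_lit 227) (.e (nat_lit 778317) (nat_lit 3) (.e (nat_lit 57477) (nat_lit 28) (.e (nat_lit 557107) (nat_lit 15) (.e (nat_lit 188450) (nat_lit 23) (.e (nat_lit 204851) (nat_lit 26) (.e (nat_lit 336265) (nat_lit 15) .nil))))))) (.g (nat_lit 5) .nil .nil))) 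
(.lf (nat_lit 103991) (.g (nat_lit 2115) (.e (nat_lit 3629) (nat_lit 227) (.e (nat_lit 778320) (nat_lit 4) (.e (nat_lit 65630) (nat_lit 14) (.e (nat_lit 401459) (nat_lit 13) (.e (nat_lit 483380) (nat_lit 23) .nil))))) .nil)))) (.nd (nat_lit 4) (.nd (nat_lit 5) 
(.lf (nat_lit 103951) (.g (nat_lit 3276) (.e (nat_lit 3629) (nat_lit 227) (.e (nat_lit 778317) (nat_lit 3) (.e (nat_lit 57476) (nat_lit 28) (.e (nat_lit 557108) (nat_lit 15) (.e (nat_lit 188452) (nat_lit 23) (.e (nat_lit 204851) (nat_lit 26) (.e (nat_lit 336263) (nat_lit 15) .nil))))))) (.g (nat_lit 5) .nil .nil))) 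
(.lf (nat_lit 103983) (.g (nat_lit 4479) (.e (nat_lit 3629) (nat_lit 227) (.e (nat_lit 778317) (nat_lit 3) (.e (nat_lit 57480) (nat_lit 28) (.e (nat_lit 557109) (nat_lit 15) (.e (nat_lit 188452) (nat_lit 23) (.e (nat_lit 204855) (nat_lit 26) (.e (nat_lit 336295) (nat_lit 15) .nil))))))) (.g (nat_lit 0) .nil .nil)))) (.nd (nat_lit 5) 
(.lf (nat_lit 103967) (.g (nat_lit 2858) (.e (nat_lit 3629) (nat_lit 227) (.e (nat_lit 778317) (nat_lit 3) (.e (nat_lit 57479) (nat_lit 28) (.e (nat_lit 557095) (nat_lit 13) (.e (nat_lit 172115) (nat_lit 10) .nil))))) .nil)) 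
(.lf (nat_lit 103999) (.g (nat_lit 1062) (.e (nat_lit 3629) (nat_lit 227) (.e (nat_lit 778323) (nat_lit 5) (.e (nat_lit 73780) (nat_lit 32) (.e (nat_lit 2940) (nat_lit 184) (.e (nat_lit 426541) (nat_lit 29) (.e (nat_lit 352267) (nat_lit 0) .nil)))))) (.g (nat_lit 0) .nil .nil)))))))))

noncomputable def tv1419 : DT := (.nd (nat_lit 0) (.nd (nat_lit 1) (.nd (nat_lit 2) (.nd (nat_lit 3) (.nd (nat_lit 4) 
(.lf (nat_lit 104000) (.g (nat_lit 315) (.e (nat_lit 3629) (nat_lit 227) (.e (nat_lit 778323) (nat_lit 5) (.e (nat_lit 73781) (nat_lit 32) .nil))) .nil)) 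
(.lf (nat_lit 104016) (.g (nat_lit 2059) (.e (nat_lit 3629) (nat_lit 227) (.e (nat_lit 778327) (nat_lit 6) (.e (nat_lit 81959) (nat_lit 24) (.e (nat_lit 123185) (nat_lit 264) (.e (nat_lit 1222) (nat_lit 90) (.e (nat_lit 81924) (nat_lit 0) .nil)))))) (.g (nat_lit 6) .nil .nil)))) (.nd (nat_lit 4) 
(.lf (nat_lit 104008) (.g (nat_lit 423) (.e (nat_lit 3629) (nat_lit 227) (.e (nat_lit 778324) (nat_lit 5) (.e (nat_lit 73792) (nat_lit 45) .nil))) .nil)) 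
(.lf (nat_lit 104024) (.g (nat_lit 3233) (.e (nat_lit 3630) (nat_lit 227) (.e (nat_lit 778317) (nat_lit 3) (.e (nat_lit 57476) (nat_lit 28) (.e (nat_lit 557107) (nat_lit 15) (.e (nat_lit 188450) (nat_lit 23) (.e (nat_lit 204855) (nat_lit 26) (.e (nat_lit 336295) (nat_lit 15) .nil))))))) (.g (nat_lit 7) .nil .nil))))) (.nd (nat_lit 3) (.nd (nat_lit 4) 
(.lf (nat_lit 104004) (.g (nat_lit 295) (.e (nat_lit 3629) (nat_lit 227) (.e (nat_lit 778323) (nat_lit 5) (.e (nat_lit 81664) (nat_lit 32) .nil))) .nil)) 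
(.lf (nat_lit 104020) (.g (nat_lit 4465) (.e (nat_lit 3630) (nat_lit 227) (.e (nat_lit 778317) (nat_lit 3) (.e (nat_lit 57476) (nat_lit 28) (.e (nat_lit 557100) (nat_lit 13) (.e (nat_lit 172106) (nat_lit 10) (.e (nat_lit 434231) (nat_lit 23) (.e (nat_lit 532535) (nat_lit 9) (.e (nat_lit 336295) (nat_lit 15) .nil)))))))) (.g (nat_lit 7) .nil .nil)))) (.nd (nat_lit 4) 
(.lf (nat_lit 104012) (.g (nat_lit 1117) (.e (nat_lit 3629) (nat_lit 227) (.e (nat_lit 778326) (nat_lit 6) (.e (nat_lit 81943) (nat_lit 20) (.e (nat_lit 2005) (nat_lit 138) (.e (nat_lit 671764) (nat_lit 6) (.e (nat_lit 81924) (nat_lit 0) .nil)))))) (.g (nat_lit 0) .nil .nil))) 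
(.lf (nat_lit 104028) (.g (nat_lit 3265) (.e (nat_lit 3630) (nat_lit 227) (.e (nat_lit 778317) (nat_lit 3) (.e (nat_lit 57476) (nat_lit 28) (.e (nat_lit 557108) (nat_lit 15) (.e (nat_lit 188452) (nat_lit 23) (.e (nat_lit 204851) (nat_lit 26) (.e (nat_lit 336265) (nat_lit 15) .nil))))))) (.g (nat_lit 5) .nil .nil)))))) (.nd (nat_lit 2) (.nd (nat_lit 3) (.nd (nat_lit 4) 
(.lf (nat_lit 104002) (.g (nat_lit 277) (.e (nat_lit 3629) (nat_lit 227) (.e (nat_lit 778323) (nat_lit 5) (.e (nat_lit 73782) (nat_lit 32) .nil))) .nil)) 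
(.lf (nat_lit 104018) (.g (nat_lit 3984) (.e (nat_lit 3630) (nat_lit 227) (.e (nat_lit 778317) (nat_lit 3) (.e (nat_lit 57476) (nat_lit 28) (.e (nat_lit 557097) (nat_lit 13) (.e (nat_lit 172097) (nat_lit 9) (.e (nat_lit 426140) (nat_lit 3) (.e (nat_lit 204855) (nat_lit 26) (.e (nat_lit 336295) (nat_lit 15) .nil)))))))) (.g (nat_lit 8) .nil .nil)))) (.nd (nat_lit 4) 
(.lf (nat_lit 104010) (.g (nat_lit 1321) (.e (nat_lit 3629) (nat_lit 227) (.e (nat_lit 778326) (nat_lit 6) (.e (nat_lit 81935) (nat_lit 20) (.e (nat_lit 1999) (nat_lit 137) (.e (nat_lit 663569) (nat_lit 6) (.e (nat_lit 81924) (nat_lit 0) .nil)))))) (.g (nat_lit 0) .nil .nil))) 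
(.lf (nat_lit 104026) (.g (nat_lit 3857) (.e (nat_lit 3630) (nat_lit 227) (.e (nat_lit 778317) (nat_lit 3) (.e (nat_lit 57476) (nat_lit 28) (.e (nat_lit 557108) (nat_lit 15) (.e (nat_lit 188449) (nat_lit 22) (.e (nat_lit 196666) (nat_lit 13) (.e (nat_lit 65642) (nat_lit 15) .nil))))))) (.g (nat_lit 7) .nil .nil))))) (.nd (nat_lit 3) (.nd (nat_lit 4) 
(.lf (nat_lit 104006) (.g (nat_lit 1041) (.e (nat_lit 3629) (nat_lit 227) (.e (nat_lit 778323) (nat_lit 5) (.e (nat_lit 73794) (nat_lit 46) (.e (nat_lit 57864) (nat_lit 256) (.e (nat_lit 317) (nat_lit 23) (.e (nat_lit 352267) (nat_lit 0) .nil)))))) (.g (nat_lit 0) .nil .nil))) 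
(.lf (nat_lit 104022) (.g (nat_lit 2141) (.e (nat_lit 3630) (nat_lit 227) (.e (nat_lit 778317) (nat_lit 3) (.e (nat_lit 57476) (nat_lit 28) (.e (nat_lit 557107) (nat_lit 15) (.e (nat_lit 188450) (nat_lit 23) (.e (nat_lit 204851) (nat_lit 26) (.e (nat_lit 336263) (nat_lit 15) .nil))))))) (.g (nat_lit 5) .nil .nil)))) (.nd (nat_lit 4) 
(.lf (nat_lit 104014) (.g (nat_lit 2824) (.e (nat_lit 3629) (nat_lit 227) (.e (nat_lit 778326) (nat_lit 6) (.e (nat_lit 81957) (nat_lit 24) (.e (nat_lit 123184) (nat_lit 264) (.e (nat_lit 1222) (nat_lit 90) (.e (nat_lit 81924) (nat_lit 0) .nil)))))) (.g (nat_lit 0) .nil .nil))) 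
(.lf (nat_lit 104030) (.g (nat_lit 3893) (.e (nat_lit 3630) (nat_lit 227) (.e (nat_lit 778317) (nat_lit 3) (.e (nat_lit 57476) (nat_lit 28) (.e (nat_lit 557108) (nat_lit 15) (.e (nat_lit 188452) (nat_lit 23) (.e (nat_lit 204855) (nat_lit 26) (.e (nat_lit 336295) (nat_lit 15) .nil))))))) (.g (nat_lit 7) .nil .nil))))))) (.nd (nat_lit 1) (.nd (nat_lit 2) (.nd (nat_lit 3) (.nd (nat_lit 4) 
(.lf (nat_lit 104001) (.g (nat_lit 2338) (.e (nat_lit 3629) (nat_lit 227) (.e (nat_lit 778323) (nat_lit 5) (.e (nat_lit 73781) (nat_lit 32) (.e (nat_lit 3090) (nat_lit 191) (.e (nat_lit 483380) (nat_lit 23) (.e (nat_lit 336297) (nat_lit 15) .nil)))))) (.g (nat_lit 5) .nil .nil))) 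
(.lf (nat_lit 104017) (.g (nat_lit 4380) (.e (nat_lit 3630) (nat_lit 227) (.e (nat_lit 778317) (nat_lit 3) (.e (nat_lit 57476) (nat_lit 28) (.e (nat_lit 557097) (nat_lit 13) (.e (nat_lit 172097) (nat_lit 9) (.e (nat_lit 426125) (nat_lit 2) (.e (nat_lit 196666) (nat_lit 13) (.e (nat_lit 65642) (nat_lit 15) .nil)))))))) (.g (nat_lit 8) .nil .nil)))) (.nd (nat_lit 4) 
(.lf (nat_lit 104009) (.g (nat_lit 1278) (.e (nat_lit 3629) (nat_lit 227) (.e (nat_lit 778326) (nat_lit 6) (.e (nat_lit 81935) (nat_lit 20) (.e (nat_lit 1998) (nat_lit 137) (.e (nat_lit 663569) (nat_lit 6) (.e (nat_lit 81924) (nat_lit 0) .nil)))))) (.g (nat_lit 0) .nil .nil))) 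
(.lf (nat_lit 104025) (.g (nat_lit 1880) (.e (nat_lit 3630) (nat_lit 227) (.e (nat_lit 778317) (nat_lit 3) (.e (nat_lit 57476) (nat_lit 28) (.e (nat_lit 557108) (nat_lit 15) (.e (nat_lit 188433) (nat_lit 20) .nil))))) .nil)))) (.nd (nat_lit 3) (.nd (nat_lit 4) 
(.lf (nat_lit 104005) (.g (nat_lit 1068) (.e (nat_lit 3629) (nat_lit 227) (.e (nat_lit 778323) (nat_lit 5) (.e (nat_lit 73787) (nat_lit 45) (.e (nat_lit 1378) (nat_lit 104) (.e (nat_lit 303155) (nat_lit 29) (.e (nat_lit 352267) (nat_lit 0) .nil)))))) (.g (nat_lit 0) .nil .nil))) 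
(.lf (nat_lit 104021) (.g (nat_lit 3647) (.e (nat_lit 3630) (nat_lit 227) (.e (nat_lit 778317) (nat_lit 3) (.e (nat_lit 57476) (nat_lit 28) (.e (nat_lit 557107) (nat_lit 15) (.e (nat_lit 188447) (nat_lit 22) (.e (nat_lit 196666) (nat_lit 13) (.e (nat_lit 65642) (nat_lit 15) .nil))))))) (.g (nat_lit 7) .nil .nil)))) (.nd (nat_lit 4) 
(.lf (nat_lit 104013) (.g (nat_lit 3129) (.e (nat_lit 3629) (nat_lit 227) (.e (nat_lit 778326) (nat_lit 6) (.e (nat_lit 81957) (nat_lit 24) (.e (nat_lit 123182) (nat_lit 264) (.e (nat_lit 1222) (nat_lit 90) (.e (nat_lit 81924) (nat_lit 0) .nil)))))) (.g (nat_lit 0) .nil .nil))) 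
(.lf (nat_lit 104029) (.g (nat_lit 3941) (.e (nat_lit 3630) (nat_lit 227) (.e (nat_lit 778317) (nat_lit 3) (.e (nat_lit 57476) (nat_lit 28) (.e (nat_lit 557108) (nat_lit 15) (.e (nat_lit 188452) (nat_lit 23) (.e (nat_lit 204852) (nat_lit 26) (.e (nat_lit 336297) (nat_lit 15) .nil))))))) (.g (nat_lit 6) .nil .nil)))))) (.nd (nat_lit 2) (.nd (nat_lit 3) (.nd (nat_lit 4) 
(.lf (nat_lit 104003) (.g (nat_lit 2690) (.e (nat_lit 3629) (nat_lit 227) (.e (nat_lit 778323) (nat_lit 5) (.e (nat_lit 73782) (nat_lit 32) (.e (nat_lit 3090) (nat_lit 191) (.e (nat_lit 483380) (nat_lit 23) (.e (nat_lit 336301) (nat_lit 15) .nil)))))) (.g (nat_lit 5) .nil .nil))) 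
(.lf (nat_lit 104019) (.g (nat_lit 4733) (.e (nat_lit 3630) (nat_lit 227) (.e (nat_lit 778317) (nat_lit 3) (.e (nat_lit 57476) (nat_lit 28) (.e (nat_lit 557097) (nat_lit 13) (.e (nat_lit 172115) (nat_lit 10) (.e (nat_lit 434231) (nat_lit 23) (.e (nat_lit 532535) (nat_lit 9) (.e (nat_lit 336295) (nat_lit 15) .nil)))))))) (.g (nat_lit 0) .nil .nil)))) (.nd (nat_lit 4) 
(.lf (nat_lit 104011) (.g (nat_lit 1325) (.e (nat_lit 3629) (nat_lit 227) (.e (nat_lit 778326) (nat_lit 6) (.e (nat_lit 81938) (nat_lit 20) (.e (nat_lit 2005) (nat_lit 138) (.e (nat_lit 671764) (nat_lit 6) (.e (nat_lit 81924) (nat_lit 0) .nil)))))) (.g (nat_lit 6) .nil .nil))) 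
(.lf (nat_lit 104027) (.g (nat_lit 3605) (.e (nat_lit 3630) (nat_lit 227) (.e (nat_lit 778317) (nat_lit 3) (.e (nat_lit 57476) (nat_lit 28) (.e (nat_lit 557108) (nat_lit 15) (.e (nat_lit 188452) (nat_lit 23) (.e (nat_lit 204851) (nat_lit 26) (.e (nat_lit 336263) (nat_lit 15) .nil))))))) (.g (nat_lit 6) .nil .nil))))) (.nd (nat_lit 3) (.nd (nat_lit 4) 
(.lf (nat_lit 104007) (.g (nat_lit 1028) (.e (nat_lit 3629) (nat_lit 227) (.e (nat_lit 778323) (nat_lit 5) (.e (nat_lit 73795) (nat_lit 47) (.e (nat_lit 123165) (nat_lit 256) (.e (nat_lit 318) (nat_lit 23) (.e (nat_lit 352267) (nat_lit 0) .nil)))))) (.g (nat_lit 0) .nil .nil))) 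
(.lf (nat_lit 104023) (.g (nat_lit 2974) (.e (nat_lit 3630) (nat_lit 227) (.e (nat_lit 778317) (nat_lit 3) (.e (nat_lit 57476) (nat_lit 28) (.e (nat_lit 557107) (nat_lit 15) (.e (nat_lit 188450) (nat_lit 23) (.e (nat_lit 204852) (nat_lit 26) (.e (nat_lit 336297) (nat_lit 15) .nil))))))) (.g (nat_lit 6) .nil .nil)))) (.nd (nat_lit 4) 
(.lf (nat_lit 104015) (.g (nat_lit 2794) (.e (nat_lit 3629) (nat_lit 227) (.e (nat_lit 778327) (nat_lit 6) (.e (nat_lit 81957) (nat_lit 24) (.e (nat_lit 123184) (nat_lit 264) (.e (nat_lit 1222) (nat_lit 90) (.e (nat_lit 81924) (nat_lit 0) .nil)))))) (.g (nat_lit 0) .nil .nil))) 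
(.lf (nat_lit 104031) (.g (nat_lit 3989) (.e (nat_lit 3630) (nat_lit 227) (.e (nat_lit 778317) (nat_lit 3) (.e (nat_lit 57477) (nat_lit 28) (.e (nat_lit 557097) (nat_lit 13) (.e (nat_lit 172097) (nat_lit 9) (.e (nat_lit 426125) (nat_lit 2) (.e (nat_lit 196666) (nat_lit 13) (.e (nat_lit 65642) (nat_lit 15) .nil)))))))) (.g (nat_lit 0) .nil .nil))))))))

noncomputable def tv1420 : DT := (.nd (nat_lit 0) (.nd (nat_lit 1) (.nd (nat_lit 2) (.nd (nat_lit 3) (.nd (nat_lit 4) 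
(.lf (nat_lit 104032) (.g (nat_lit 3622) (.e (nat_lit 3630) (nat_lit 227) (.e (nat_lit 778317) (nat_lit 3) (.e (nat_lit 57477) (nat_lit 28) (.e (nat_lit 557097) (nat_lit 13) (.e (nat_lit 172097) (nat_lit 9) (.e (nat_lit 426140) (nat_lit 3) (.e (nat_lit 204855) (nat_lit 26) (.e (nat_lit 336295) (nat_lit 15) .nil)))))))) (.g (nat_lit 0) .nil .nil))) 
(.lf (nat_lit 104048) (.g (nat_lit 3960) (.e (nat_lit 3630) (nat_lit 227) (.e (nat_lit 778317) (nat_lit 3) (.e (nat_lit 57480) (nat_lit 28) (.e (nat_lit 557107) (nat_lit 15) (.e (nat_lit 188447) (nat_lit 22) (.e (nat_lit 196666) (nat_lit 13) (.e (nat_lit 65642) (nat_lit 15) .nil))))))) (.g (nat_lit 0) .nil .nil)))) (.nd (nat_lit 4) 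
(.lf (nat_lit 104040) (.g (nat_lit 2865) (.e (nat_lit 3630) (nat_lit 227) (.e (nat_lit 778317) (nat_lit 3) (.e (nat_lit 57479) (nat_lit 28) (.e (nat_lit 557095) (nat_lit 13) (.e (nat_lit 172115) (nat_lit 10) .nil))))) .nil)) 
(.lf (nat_lit 104056) (.g (nat_lit 2248) (.e (nat_lit 3630) (nat_lit 227) (.e (nat_lit 778318) (nat_lit 3) (.e (nat_lit 57520) (nat_lit 44) (.e (nat_lit 688177) (nat_lit 16) (.e (nat_lit 65586) (nat_lit 7) .nil))))) .nil)))) (.nd (nat_lit 3) (.nd (nat_lit 4) 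
(.lf (nat_lit 104036) (.g (nat_lit 3022) (.e (nat_lit 3630) (nat_lit 227) (.e (nat_lit 778317) (nat_lit 3) (.e (nat_lit 57477) (nat_lit 28) (.e (nat_lit 557107) (nat_lit 15) (.e (nat_lit 188450) (nat_lit 23) (.e (nat_lit 204855) (nat_lit 26) (.e (nat_lit 336295) (nat_lit 15) .nil))))))) (.g (nat_lit 0) .nil .nil))) 
(.lf (nat_lit 104052) (.g (nat_lit 3741) (.e (nat_lit 3630) (nat_lit 227) (.e (nat_lit 778317) (nat_lit 3) (.e (nat_lit 57480) (nat_lit 28) (.e (nat_lit 557108) (nat_lit 15) (.e (nat_lit 188452) (nat_lit 23) (.e (nat_lit 204852) (nat_lit 26) (.e (nat_lit 336297) (nat_lit 15) .nil))))))) (.g (nat_lit 5) .nil .nil)))) (.nd (nat_lit 4) 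
(.lf (nat_lit 104044) (.g (nat_lit 4927) (.e (nat_lit 3630) (nat_lit 227) (.e (nat_lit 778317) (nat_lit 3) (.e (nat_lit 57479) (nat_lit 28) (.e (nat_lit 557101) (nat_lit 13) (.e (nat_lit 172115) (nat_lit 10) (.e (nat_lit 434231) (nat_lit 23) (.e (nat_lit 532535) (nat_lit 9) (.e (nat_lit 336295) (nat_lit 15) .nil)))))))) (.g (nat_lit 0) .nil .nil))) 
(.lf (nat_lit 104060) (.g (nat_lit 2406) (.e (nat_lit 3630) (nat_lit 227) (.e (nat_lit 778320) (nat_lit 4) (.e (nat_lit 65630) (nat_lit 14) (.e (nat_lit 401459) (nat_lit 13) (.e (nat_lit 483381) (nat_lit 23) .nil))))) .nil))))) (.nd (nat_lit 2) (.nd (nat_lit 3) (.nd (nat_lit 4) 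
(.lf (nat_lit 104034) (.g (nat_lit 3392) (.e (nat_lit 3630) (nat_lit 227) (.e (nat_lit 778317) (nat_lit 3) (.e (nat_lit 57477) (nat_lit 28) (.e (nat_lit 557107) (nat_lit 15) (.e (nat_lit 188447) (nat_lit 22) (.e (nat_lit 196666) (nat_lit 13) (.e (nat_lit 65642) (nat_lit 15) .nil))))))) (.g (nat_lit 0) .nil .nil))) 
(.lf (nat_lit 104050) (.g (nat_lit 3593) (.e (nat_lit 3630) (nat_lit 227) (.e (nat_lit 778317) (nat_lit 3) (.e (nat_lit 57480) (nat_lit 28) (.e (nat_lit 557107) (nat_lit 15) (.e (nat_lit 188450) (nat_lit 23) (.e (nat_lit 204855) (nat_lit 26) (.e (nat_lit 336295) (nat_lit 15) .nil))))))) (.g (nat_lit 0) .nil .nil)))) (.nd (nat_lit 4) 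
(.lf (nat_lit 104042) (.g (nat_lit 4474) (.e (nat_lit 3630) (nat_lit 227) (.e (nat_lit 778317) (nat_lit 3) (.e (nat_lit 57479) (nat_lit 28) (.e (nat_lit 557101) (nat_lit 13) (.e (nat_lit 172097) (nat_lit 9) (.e (nat_lit 426140) (nat_lit 3) (.e (nat_lit 204855) (nat_lit 26) (.e (nat_lit 336295) (nat_lit 15) .nil)))))))) (.g (nat_lit 0) .nil .nil))) 
(.lf (nat_lit 104058) (.g (nat_lit 2726) (.e (nat_lit 3630) (nat_lit 227) (.e (nat_lit 778320) (nat_lit 4) (.e (nat_lit 65630) (nat_lit 14) (.e (nat_lit 401437) (nat_lit 9) (.e (nat_lit 426542) (nat_lit 29) (.e (nat_lit 352267) (nat_lit 0) .nil)))))) (.g (nat_lit 5) .nil .nil))))) (.nd (nat_lit 3) (.nd (nat_lit 4) 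
(.lf (nat_lit 104038) (.g (nat_lit 3630) (.e (nat_lit 3630) (nat_lit 227) (.e (nat_lit 778317) (nat_lit 3) (.e (nat_lit 57477) (nat_lit 28) (.e (nat_lit 557108) (nat_lit 15) (.e (nat_lit 188452) (nat_lit 23) (.e (nat_lit 204852) (nat_lit 26) (.e (nat_lit 336297) (nat_lit 15) .nil))))))) (.g (nat_lit 6) .nil .nil))) 
(.lf (nat_lit 104054) (.g (nat_lit 4364) (.e (nat_lit 3630) (nat_lit 227) (.e (nat_lit 778317) (nat_lit 3) (.e (nat_lit 57480) (nat_lit 28) (.e (nat_lit 557109) (nat_lit 15) (.e (nat_lit 188452) (nat_lit 23) (.e (nat_lit 204852) (nat_lit 26) (.e (nat_lit 336297) (nat_lit 15) .nil))))))) (.g (nat_lit 6) .nil .nil)))) (.nd (nat_lit 4) 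
(.lf (nat_lit 104046) (.g (nat_lit 4413) (.e (nat_lit 3630) (nat_lit 227) (.e (nat_lit 778317) (nat_lit 3) (.e (nat_lit 57480) (nat_lit 28) (.e (nat_lit 557098) (nat_lit 13) (.e (nat_lit 172097) (nat_lit 9) (.e (nat_lit 426140) (nat_lit 3) (.e (nat_lit 204855) (nat_lit 26) (.e (nat_lit 336295) (nat_lit 15) .nil)))))))) (.g (nat_lit 0) .nil .nil))) 
(.lf (nat_lit 104062) (.g (nat_lit 345) (.e (nat_lit 3630) (nat_lit 227) (.e (nat_lit 778323) (nat_lit 5) (.e (nat_lit 73779) (nat_lit 32) .nil))) .nil)))))) (.nd (nat_lit 1) (.nd (nat_lit 2) (.nd (nat_lit 3) (.nd (nat_lit 4) 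
(.lf (nat_lit 104033) (.g (nat_lit 4347) (.e (nat_lit 3630) (nat_lit 227) (.e (nat_lit 778317) (nat_lit 3) (.e (nat_lit 57477) (nat_lit 28) (.e (nat_lit 557097) (nat_lit 13) (.e (nat_lit 172115) (nat_lit 10) (.e (nat_lit 434231) (nat_lit 23) (.e (nat_lit 532535) (nat_lit 9) (.e (nat_lit 336295) (nat_lit 15) .nil)))))))) (.g (nat_lit 0) .nil .nil))) 
(.lf (nat_lit 104049) (.g (nat_lit 3406) (.e (nat_lit 3630) (nat_lit 227) (.e (nat_lit 778317) (nat_lit 3) (.e (nat_lit 57480) (nat_lit 28) (.e (nat_lit 557107) (nat_lit 15) (.e (nat_lit 188450) (nat_lit 23) (.e (nat_lit 204852) (nat_lit 26) (.e (nat_lit 336297) (nat_lit 15) .nil))))))) (.g (nat_lit 6) .nil .nil)))) (.nd (nat_lit 4) 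
(.lf (nat_lit 104041) (.g (nat_lit 4842) (.e (nat_lit 3630) (nat_lit 227) (.e (nat_lit 778317) (nat_lit 3) (.e (nat_lit 57479) (nat_lit 28) (.e (nat_lit 557101) (nat_lit 13) (.e (nat_lit 172097) (nat_lit 9) (.e (nat_lit 426125) (nat_lit 2) (.e (nat_lit 196666) (nat_lit 13) (.e (nat_lit 65642) (nat_lit 15) .nil)))))))) (.g (nat_lit 0) .nil .nil))) 
(.lf (nat_lit 104057) (.g (nat_lit 1771) (.e (nat_lit 3630) (nat_lit 227) (.e (nat_lit 778320) (nat_lit 4) (.e (nat_lit 65630) (nat_lit 14) (.e (nat_lit 401436) (nat_lit 9) (.e (nat_lit 426540) (nat_lit 29) .nil))))) .nil)))) (.nd (nat_lit 3) (.nd (nat_lit 4) 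
(.lf (nat_lit 104037) (.g (nat_lit 3456) (.e (nat_lit 3630) (nat_lit 227) (.e (nat_lit 778317) (nat_lit 3) (.e (nat_lit 57477) (nat_lit 28) (.e (nat_lit 557108) (nat_lit 15) (.e (nat_lit 188449) (nat_lit 22) (.e (nat_lit 196666) (nat_lit 13) (.e (nat_lit 65642) (nat_lit 15) .nil))))))) (.g (nat_lit 0) .nil .nil))) 
(.lf (nat_lit 104053) (.g (nat_lit 4336) (.e (nat_lit 3630) (nat_lit 227) (.e (nat_lit 778317) (nat_lit 3) (.e (nat_lit 57480) (nat_lit 28) (.e (nat_lit 557109) (nat_lit 15) (.e (nat_lit 188449) (nat_lit 22) (.e (nat_lit 196666) (nat_lit 13) (.e (nat_lit 65642) (nat_lit 15) .nil))))))) (.g (nat_lit 0) .nil .nil)))) (.nd (nat_lit 4) 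
(.lf (nat_lit 104045) (.g (nat_lit 4786) (.e (nat_lit 3630) (nat_lit 227) (.e (nat_lit 778317) (nat_lit 3) (.e (nat_lit 57480) (nat_lit 28) (.e (nat_lit 557098) (nat_lit 13) (.e (nat_lit 172097) (nat_lit 9) (.e (nat_lit 426125) (nat_lit 2) (.e (nat_lit 196666) (nat_lit 13) (.e (nat_lit 65642) (nat_lit 15) .nil)))))))) (.g (nat_lit 0) .nil .nil))) 
(.lf (nat_lit 104061) (.g (nat_lit 2660) (.e (nat_lit 3630) (nat_lit 227) (.e (nat_lit 778320) (nat_lit 4) (.e (nat_lit 65630) (nat_lit 14) (.e (nat_lit 401459) (nat_lit 13) (.e (nat_lit 483386) (nat_lit 23) (.e (nat_lit 336295) (nat_lit 15) .nil)))))) (.g (nat_lit 0) .nil .nil)))))) (.nd (nat_lit 2) (.nd (nat_lit 3) (.nd (nat_lit 4) 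
(.lf (nat_lit 104035) (.g (nat_lit 2829) (.e (nat_lit 3630) (nat_lit 227) (.e (nat_lit 778317) (nat_lit 3) (.e (nat_lit 57477) (nat_lit 28) (.e (nat_lit 557107) (nat_lit 15) (.e (nat_lit 188450) (nat_lit 23) (.e (nat_lit 204852) (nat_lit 26) (.e (nat_lit 336297) (nat_lit 15) .nil))))))) (.g (nat_lit 6) .nil .nil))) 
(.lf (nat_lit 104051) (.g (nat_lit 3388) (.e (nat_lit 3630) (nat_lit 227) (.e (nat_lit 778317) (nat_lit 3) (.e (nat_lit 57480) (nat_lit 28) (.e (nat_lit 557108) (nat_lit 15) (.e (nat_lit 188452) (nat_lit 23) (.e (nat_lit 204851) (nat_lit 26) (.e (nat_lit 336263) (nat_lit 15) .nil))))))) (.g (nat_lit 5) .nil .nil)))) (.nd (nat_lit 4) 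
(.lf (nat_lit 104043) (.g (nat_lit 2708) (.e (nat_lit 3630) (nat_lit 227) (.e (nat_lit 778317) (nat_lit 3) (.e (nat_lit 57479) (nat_lit 28) (.e (nat_lit 557101) (nat_lit 13) (.e (nat_lit 172115) (nat_lit 10) (.e (nat_lit 434231) (nat_lit 23) (.e (nat_lit 532531) (nat_lit 9) (.e (nat_lit 336265) (nat_lit 15) .nil)))))))) (.g (nat_lit 5) .nil .nil))) 
(.lf (nat_lit 104059) (.g (nat_lit 3213) (.e (nat_lit 3630) (nat_lit 227) (.e (nat_lit 778320) (nat_lit 4) (.e (nat_lit 65630) (nat_lit 14) (.e (nat_lit 401459) (nat_lit 13) (.e (nat_lit 483380) (nat_lit 23) (.e (nat_lit 336297) (nat_lit 15) .nil)))))) (.g (nat_lit 6) .nil .nil))))) (.nd (nat_lit 3) (.nd (nat_lit 4) 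
(.lf (nat_lit 104039) (.g (nat_lit 3605) (.e (nat_lit 3630) (nat_lit 227) (.e (nat_lit 778317) (nat_lit 3) (.e (nat_lit 57477) (nat_lit 28) (.e (nat_lit 557108) (nat_lit 15) (.e (nat_lit 188452) (nat_lit 23) (.e (nat_lit 204855) (nat_lit 26) (.e (nat_lit 336295) (nat_lit 15) .nil))))))) (.g (nat_lit 0) .nil .nil))) 
(.lf (nat_lit 104055) (.g (nat_lit 4380) (.e (nat_lit 3630) (nat_lit 227) (.e (nat_lit 778317) (nat_lit 3) (.e (nat_lit 57480) (nat_lit 28) (.e (nat_lit 557109) (nat_lit 15) (.e (nat_lit 188452) (nat_lit 23) (.e (nat_lit 204855) (nat_lit 26) (.e (nat_lit 336295) (nat_lit 15) .nil))))))) (.g (nat_lit 0) .nil .nil)))) (.nd (nat_lit 4) 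
(.lf (nat_lit 104047) (.g (nat_lit 4965) (.e (nat_lit 3630) (nat_lit 227) (.e (nat_lit 778317) (nat_lit 3) (.e (nat_lit 57480) (nat_lit 28) (.e (nat_lit 557098) (nat_lit 13) (.e (nat_lit 172115) (nat_lit 10) (.e (nat_lit 434231) (nat_lit 23) (.e (nat_lit 532535) (nat_lit 9) (.e (nat_lit 336295) (nat_lit 15) .nil)))))))) (.g (nat_lit 0) .nil .nil))) 
(.lf (nat_lit 104063) (.g (nat_lit 310) (.e (nat_lit 3630) (nat_lit 227) (.e (nat_lit 778323) (nat_lit 5) (.e (nat_lit 73780) (nat_lit 32) .nil))) .nil)))))))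

noncomputable def tv1421 : DT := (.nd (nat_lit 0) (.nd (nat_lit 1) (.nd (nat_lit 2) (.nd (nat_lit 3) (.nd (nat_lit 4) (.nd (nat_lit 5) 
(.lf (nat_lit 104064) (.g (nat_lit 1086) (.e (nat_lit 3630) (nat_lit 227) (.e (nat_lit 778323) (nat_lit 5) (.e (nat_lit 73780) (nat_lit 32) (.e (nat_lit 2936) (nat_lit 184) (.e (nat_lit 426541) (nat_lit 29) (.e (nat_lit 352267) (nat_lit 0) .nil)))))) (.g (nat_lit 0) .nil .nil))) 
(.lf (nat_lit 104096) (.g (nat_lit 1576) (.e (nat_lit 3630) (nat_lit 227) (.e (nat_lit 778326) (nat_lit 6) (.e (nat_lit 81950) (nat_lit 21) (.e (nat_lit 57870) (nat_lit 264) (.e (nat_lit 1219) (nat_lit 90) (.e (nat_lit 81924) (nat_lit 0) .nil)))))) (.g (nat_lit 6) .nil .nil)))) (.nd (nat_lit 5) 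
(.lf (nat_lit 104080) (.g (nat_lit 1019) (.e (nat_lit 3630) (nat_lit 227) (.e (nat_lit 778323) (nat_lit 5) (.e (nat_lit 73795) (nat_lit 47) (.e (nat_lit 123165) (nat_lit 256) (.e (nat_lit 318) (nat_lit 23) (.e (nat_lit 352267) (nat_lit 0) .nil)))))) (.g (nat_lit 0) .nil .nil))) 
(.lf (nat_lit 104112) (.g (nat_lit 1176) (.e (nat_lit 3630) (nat_lit 227) (.e (nat_lit 778327) (nat_lit 6) (.e (nat_lit 81959) (nat_lit 24) (.e (nat_lit 123197) (nat_lit 266) (.e (nat_lit 57435) (nat_lit 17) (.e (nat_lit 376835) (nat_lit 0) .nil)))))) (.g (nat_lit 4) .nil .nil))))) (.nd (nat_lit 4) (.nd (nat_lit 5) 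
(.lf (nat_lit 104072) (.g (nat_lit 1436) (.e (nat_lit 3630) (nat_lit 227) (.e (nat_lit 778323) (nat_lit 5) (.e (nat_lit 73787) (nat_lit 45) (.e (nat_lit 1374) (nat_lit 104) (.e (nat_lit 303155) (nat_lit 29) (.e (nat_lit 352267) (nat_lit 0) .nil)))))) (.g (nat_lit 0) .nil .nil))) 
(.lf (nat_lit 104104) (.g (nat_lit 2857) (.e (nat_lit 3630) (nat_lit 227) (.e (nat_lit 778326) (nat_lit 6) (.e (nat_lit 81959) (nat_lit 24) (.e (nat_lit 123182) (nat_lit 264) (.e (nat_lit 1224) (nat_lit 90) (.e (nat_lit 81922) (nat_lit 0) .nil)))))) (.g (nat_lit 5) .nil .nil)))) (.nd (nat_lit 5) 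
(.lf (nat_lit 104088) (.g (nat_lit 1355) (.e (nat_lit 3630) (nat_lit 227) (.e (nat_lit 778326) (nat_lit 6) (.e (nat_lit 81935) (nat_lit 20) (.e (nat_lit 1999) (nat_lit 137) (.e (nat_lit 663569) (nat_lit 6) (.e (nat_lit 81924) (nat_lit 0) .nil)))))) (.g (nat_lit 0) .nil .nil))) 
(.lf (nat_lit 104120) (.g (nat_lit 4015) (.e (nat_lit 3631) (nat_lit 227) (.e (nat_lit 778317) (nat_lit 3) (.e (nat_lit 57476) (nat_lit 28) (.e (nat_lit 557097) (nat_lit 13) (.e (nat_lit 172115) (nat_lit 10) (.e (nat_lit 434231) (nat_lit 23) (.e (nat_lit 532528) (nat_lit 9) (.e (nat_lit 336285) (nat_lit 15) .nil)))))))) (.g (nat_lit 6) .nil .nil)))))) 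
(.nd (nat_lit 3) (.nd (nat_lit 4) (.nd (nat_lit 5) 
(.lf (nat_lit 104068) (.g (nat_lit 2119) (.e (nat_lit 3630) (nat_lit 227) (.e (nat_lit 778323) (nat_lit 5) (.e (nat_lit 73782) (nat_lit 32) (.e (nat_lit 2854) (nat_lit 184) (.e (nat_lit 426542) (nat_lit 29) (.e (nat_lit 352267) (nat_lit 0) .nil)))))) (.g (nat_lit 0) .nil .nil))) 
(.lf (nat_lit 104100) (.g (nat_lit 2864) (.e (nat_lit 3630) (nat_lit 227) (.e (nat_lit 778326) (nat_lit 6) (.e (nat_lit 81957) (nat_lit 24) (.e (nat_lit 123184) (nat_lit 264) (.e (nat_lit 1222) (nat_lit 90) (.e (nat_lit 81924) (nat_lit 0) .nil)))))) (.g (nat_lit 0) .nil .nil)))) (.nd (nat_lit 5) 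
(.lf (nat_lit 104084) (.g (nat_lit 772) (.e (nat_lit 3630) (nat_lit 227) (.e (nat_lit 778326) (nat_lit 6) (.e (nat_lit 81921) (nat_lit 0) (.e (nat_lit 3711) (nat_lit 227) (.e (nat_lit 778325) (nat_lit 6) (.e (nat_lit 81924) (nat_lit 0) .nil)))))) (.g (nat_lit 0) .nil .nil))) 
(.lf (nat_lit 104116) (.g (nat_lit 3790) (.e (nat_lit 3631) (nat_lit 227) (.e (nat_lit 778317) (nat_lit 3) (.e (nat_lit 57476) (nat_lit 28) (.e (nat_lit 557097) (nat_lit 13) (.e (nat_lit 172097) (nat_lit 9) (.e (nat_lit 426140) (nat_lit 3) (.e (nat_lit 204855) (nat_lit 26) (.e (nat_lit 336291) (nat_lit 15) .nil)))))))) (.g (nat_lit 7) .nil .nil))))) (.nd (nat_lit 4) (.nd (nat_lit 5) 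
(.lf (nat_lit 104076) (.g (nat_lit 1741) (.e (nat_lit 3630) (nat_lit 227) (.e (nat_lit 778323) (nat_lit 5) (.e (nat_lit 73789) (nat_lit 45) (.e (nat_lit 1386) (nat_lit 105) (.e (nat_lit 311358) (nat_lit 29) (.e (nat_lit 352267) (nat_lit 0) .nil)))))) (.g (nat_lit 0) .nil .nil))) 
(.lf (nat_lit 104108) (.g (nat_lit 415) (.e (nat_lit 3630) (nat_lit 227) (.e (nat_lit 778327) (nat_lit 6) (.e (nat_lit 81922) (nat_lit 0) (.e (nat_lit 3630) (nat_lit 227) .nil)))) .nil))) (.nd (nat_lit 5) 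
(.lf (nat_lit 104092) (.g (nat_lit 1162) (.e (nat_lit 3630) (nat_lit 227) (.e (nat_lit 778326) (nat_lit 6) (.e (nat_lit 81943) (nat_lit 20) (.e (nat_lit 2006) (nat_lit 138) (.e (nat_lit 671764) (nat_lit 6) (.e (nat_lit 81924) (nat_lit 0) .nil)))))) (.g (nat_lit 0) .nil .nil))) 
(.lf (nat_lit 104124) (.g (nat_lit 4902) (.e (nat_lit 3631) (nat_lit 227) (.e (nat_lit 778317) (nat_lit 3) (.e (nat_lit 57476) (nat_lit 28) (.e (nat_lit 557097) (nat_lit 13) (.e (nat_lit 172115) (nat_lit 10) (.e (nat_lit 434231) (nat_lit 23) (.e (nat_lit 532535) (nat_lit 9) (.e (nat_lit 336291) (nat_lit 15) .nil)))))))) (.g (nat_lit 7) .nil .nil))))))) 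
(.nd (nat_lit 2) (.nd (nat_lit 3) (.nd (nat_lit 4) (.nd (nat_lit 5) 
(.lf (nat_lit 104066) (.g (nat_lit 332) (.e (nat_lit 3630) (nat_lit 227) (.e (nat_lit 778323) (nat_lit 5) (.e (nat_lit 73781) (nat_lit 32) .nil))) .nil)) 
(.lf (nat_lit 104098) (.g (nat_lit 3149) (.e (nat_lit 3630) (nat_lit 227) (.e (nat_lit 778326) (nat_lit 6) (.e (nat_lit 81957) (nat_lit 24) (.e (nat_lit 123182) (nat_lit 264) (.e (nat_lit 1222) (nat_lit 90) (.e (nat_lit 81924) (nat_lit 0) .nil)))))) (.g (nat_lit 0) .nil .nil)))) (.nd (nat_lit 5) 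
(.lf (nat_lit 104082) (.g (nat_lit 218) (.e (nat_lit 3630) (nat_lit 227) (.e (nat_lit 778324) (nat_lit 5) (.e (nat_lit 81664) (nat_lit 39) .nil))) .nil)) 
(.lf (nat_lit 104114) (.g (nat_lit 465) (.e (nat_lit 3631) (nat_lit 227) (.e (nat_lit 778317) (nat_lit 3) (.e (nat_lit 57476) (nat_lit 28) .nil))) .nil)))) (.nd (nat_lit 4) (.nd (nat_lit 5) 
(.lf (nat_lit 104074) (.g (nat_lit 1433) (.e (nat_lit 3630) (nat_lit 227) (.e (nat_lit 778323) (nat_lit 5) (.e (nat_lit 73789) (nat_lit 45) (.e (nat_lit 1383) (nat_lit 105) (.e (nat_lit 311358) (nat_lit 29) (.e (nat_lit 352267) (nat_lit 0) .nil)))))) (.g (nat_lit 0) .nil .nil))) 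
(.lf (nat_lit 104106) (.g (nat_lit 661) (.e (nat_lit 3630) (nat_lit 227) (.e (nat_lit 778327) (nat_lit 6) (.e (nat_lit 81920) (nat_lit 0) (.e (nat_lit 3715) (nat_lit 227) (.e (nat_lit 778325) (nat_lit 6) .nil))))) .nil))) (.nd (nat_lit 5) 
(.lf (nat_lit 104090) (.g (nat_lit 1032) (.e (nat_lit 3630) (nat_lit 227) (.e (nat_lit 778326) (nat_lit 6) (.e (nat_lit 81943) (nat_lit 20) (.e (nat_lit 2003) (nat_lit 138) (.e (nat_lit 671764) (nat_lit 6) (.e (nat_lit 81924) (nat_lit 0) .nil)))))) (.g (nat_lit 0) .nil .nil))) 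
(.lf (nat_lit 104122) (.g (nat_lit 3171) (.e (nat_lit 3631) (nat_lit 227) (.e (nat_lit 778317) (nat_lit 3) (.e (nat_lit 57476) (nat_lit 28) (.e (nat_lit 557097) (nat_lit 13) (.e (nat_lit 172115) (nat_lit 10) (.e (nat_lit 434231) (nat_lit 23) (.e (nat_lit 532531) (nat_lit 9) (.e (nat_lit 336263) (nat_lit 15) .nil)))))))) (.g (nat_lit 6) .nil .nil)))))) 
(.nd (nat_lit 3) (.nd (nat_lit 4) (.nd (nat_lit 5) 
(.lf (nat_lit 104070) (.g (nat_lit 301) (.e (nat_lit 3630) (nat_lit 227) (.e (nat_lit 778323) (nat_lit 5) (.e (nat_lit 81664) (nat_lit 36) .nil))) .nil)) 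
(.lf (nat_lit 104102) (.g (nat_lit 2152) (.e (nat_lit 3630) (nat_lit 227) (.e (nat_lit 778326) (nat_lit 6) (.e (nat_lit 81957) (nat_lit 24) (.e (nat_lit 123185) (nat_lit 264) (.e (nat_lit 1222) (nat_lit 90) (.e (nat_lit 81924) (nat_lit 0) .nil)))))) (.g (nat_lit 0) .nil .nil)))) (.nd (nat_lit 5) 
(.lf (nat_lit 104086) (.g (nat_lit 1410) (.e (nat_lit 3630) (nat_lit 227) (.e (nat_lit 778326) (nat_lit 6) (.e (nat_lit 81935) (nat_lit 20) (.e (nat_lit 1998) (nat_lit 137) (.e (nat_lit 663569) (nat_lit 6) (.e (nat_lit 81922) (nat_lit 0) .nil)))))) (.g (nat_lit 6) .nil .nil))) 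
(.lf (nat_lit 104118) (.g (nat_lit 4050) (.e (nat_lit 3631) (nat_lit 227) (.e (nat_lit 778317) (nat_lit 3) (.e (nat_lit 57476) (nat_lit 28) (.e (nat_lit 557097) (nat_lit 13) (.e (nat_lit 172115) (nat_lit 10) (.e (nat_lit 434231) (nat_lit 23) (.e (nat_lit 532528) (nat_lit 9) (.e (nat_lit 336265) (nat_lit 15) .nil)))))))) (.g (nat_lit 6) .nil .nil))))) (.nd (nat_lit 4) (.nd (nat_lit 5) 
(.lf (nat_lit 104078) (.g (nat_lit 1036) (.e (nat_lit 3630) (nat_lit 227) (.e (nat_lit 778323) (nat_lit 5) (.e (nat_lit 73794) (nat_lit 46) (.e (nat_lit 57864) (nat_lit 256) (.e (nat_lit 317) (nat_lit 23) (.e (nat_lit 352267) (nat_lit 0) .nil)))))) (.g (nat_lit 0) .nil .nil))) 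
(.lf (nat_lit 104110) (.g (nat_lit 1064) (.e (nat_lit 3630) (nat_lit 227) (.e (nat_lit 778327) (nat_lit 6) (.e (nat_lit 81922) (nat_lit 0) (.e (nat_lit 3631) (nat_lit 227) (.e (nat_lit 778327) (nat_lit 6) (.e (nat_lit 81922) (nat_lit 0) .nil)))))) (.g (nat_lit 4) .nil .nil)))) (.nd (nat_lit 5) 
(.lf (nat_lit 104094) (.g (nat_lit 2232) (.e (nat_lit 3630) (nat_lit 227) (.e (nat_lit 778326) (nat_lit 6) (.e (nat_lit 81948) (nat_lit 21) (.e (nat_lit 57872) (nat_lit 264) (.e (nat_lit 1219) (nat_lit 90) (.e (nat_lit 81924) (nat_lit 0) .nil)))))) (.g (nat_lit 0) .nil .nil))) 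
(.lf (nat_lit 104126) (.g (nat_lit 3406) (.e (nat_lit 3631) (nat_lit 227) (.e (nat_lit 778317) (nat_lit 3) (.e (nat_lit 57476) (nat_lit 28) (.e (nat_lit 557107) (nat_lit 15) (.e (nat_lit 188447) (nat_lit 22) (.e (nat_lit 196666) (nat_lit 13) (.e (nat_lit 65640) (nat_lit 15) .nil))))))) (.g (nat_lit 6) .nil .nil)))))))) 
(.nd (nat_lit 1) (.nd (nat_lit 2) (.nd (nat_lit 3) (.nd (nat_lit 4) (.nd (nat_lit 5) 
(.lf (nat_lit 104065) (.g (nat_lit 1040) (.e (nat_lit 3630) (nat_lit 227) (.e (nat_lit 778323) (nat_lit 5) (.e (nat_lit 73780) (nat_lit 32) (.e (nat_lit 2940) (nat_lit 184) (.e (nat_lit 426541) (nat_lit 29) (.e (nat_lit 352267) (nat_lit 0) .nil)))))) (.g (nat_lit 0) .nil .nil))) 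
(.lf (nat_lit 104097) (.g (nat_lit 2067) (.e (nat_lit 3630) (nat_lit 227) (.e (nat_lit 778326) (nat_lit 6) (.e (nat_lit 81950) (nat_lit 21) (.e (nat_lit 57873) (nat_lit 264) (.e (nat_lit 1219) (nat_lit 90) (.e (nat_lit 81924) (nat_lit 0) .nil)))))) (.g (nat_lit 6) .nil .nil)))) (.nd (nat_lit 5) 
(.lf (nat_lit 104081) (.g (nat_lit 1033) (.e (nat_lit 3630) (nat_lit 227) (.e (nat_lit 778323) (nat_lit 5) (.e (nat_lit 73795) (nat_lit 47) (.e (nat_lit 123166) (nat_lit 256) (.e (nat_lit 318) (nat_lit 23) (.e (nat_lit 352267) (nat_lit 0) .nil)))))) (.g (nat_lit 0) .nil .nil))) 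
(.lf (nat_lit 104113) (.g (nat_lit 2215) (.e (nat_lit 3631) (nat_lit 227) (.e (nat_lit 778317) (nat_lit 3) (.e (nat_lit 57464) (nat_lit 23) (.e (nat_lit 516166) (nat_lit 12) (.e (nat_lit 450563) (nat_lit 0) (.e (nat_lit 6420) (nat_lit 341) (.e (nat_lit 163885) (nat_lit 5) (.e (nat_lit 221204) (nat_lit 20) .nil)))))))) (.g (nat_lit 4) .nil .nil))))) (.nd (nat_lit 4) (.nd (nat_lit 5) 
(.lf (nat_lit 104073) (.g (nat_lit 1052) (.e (nat_lit 3630) (nat_lit 227) (.e (nat_lit 778323) (nat_lit 5) (.e (nat_lit 73787) (nat_lit 45) (.e (nat_lit 1378) (nat_lit 104) (.e (nat_lit 303155) (nat_lit 29) (.e (nat_lit 352267) (nat_lit 0) .nil)))))) (.g (nat_lit 0) .nil .nil))) 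
(.lf (nat_lit 104105) (.g (nat_lit 2051) (.e (nat_lit 3630) (nat_lit 227) (.e (nat_lit 778326) (nat_lit 6) (.e (nat_lit 81959) (nat_lit 24) (.e (nat_lit 123185) (nat_lit 264) (.e (nat_lit 1222) (nat_lit 90) (.e (nat_lit 81924) (nat_lit 0) .nil)))))) (.g (nat_lit 6) .nil .nil)))) (.nd (nat_lit 5) 
(.lf (nat_lit 104089) (.g (nat_lit 871) (.e (nat_lit 3630) (nat_lit 227) (.e (nat_lit 778326) (nat_lit 6) (.e (nat_lit 81939) (nat_lit 20) (.e (nat_lit 2006) (nat_lit 138) (.e (nat_lit 671764) (nat_lit 6) (.e (nat_lit 81924) (nat_lit 0) .nil)))))) (.g (nat_lit 6) .nil .nil))) 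
(.lf (nat_lit 104121) (.g (nat_lit 4513) (.e (nat_lit 3631) (nat_lit 227) (.e (nat_lit 778317) (nat_lit 3) (.e (nat_lit 57476) (nat_lit 28) (.e (nat_lit 557097) (nat_lit 13) (.e (nat_lit 172115) (nat_lit 10) (.e (nat_lit 434231) (nat_lit 23) (.e (nat_lit 532529) (nat_lit 9) (.e (nat_lit 336297) (nat_lit 15) .nil)))))))) (.g (nat_lit 7) .nil .nil)))))) 
(.nd (nat_lit 3) (.nd (nat_lit 4) (.nd (nat_lit 5) 
(.lf (nat_lit 104069) (.g (nat_lit 2681) (.e (nat_lit 3630) (nat_lit 227) (.e (nat_lit 778323) (nat_lit 5) (.e (nat_lit 73782) (nat_lit 32) (.e (nat_lit 2857) (nat_lit 184) (.e (nat_lit 426542) (nat_lit 29) (.e (nat_lit 352267) (nat_lit 0) .nil)))))) (.g (nat_lit 0) .nil .nil))) 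
(.lf (nat_lit 104101) (.g (nat_lit 2153) (.e (nat_lit 3630) (nat_lit 227) (.e (nat_lit 778326) (nat_lit 6) (.e (nat_lit 81957) (nat_lit 24) (.e (nat_lit 123184) (nat_lit 264) (.e (nat_lit 1224) (nat_lit 90) (.e (nat_lit 81922) (nat_lit 0) .nil)))))) (.g (nat_lit 6) .nil .nil)))) (.nd (nat_lit 5) 
(.lf (nat_lit 104085) (.g (nat_lit 680) (.e (nat_lit 3630) (nat_lit 227) (.e (nat_lit 778326) (nat_lit 6) (.e (nat_lit 81921) (nat_lit 0) (.e (nat_lit 3714) (nat_lit 227) (.e (nat_lit 778325) (nat_lit 6) (.e (nat_lit 81924) (nat_lit 0) .nil)))))) (.g (nat_lit 0) .nil .nil))) 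
(.lf (nat_lit 104117) (.g (nat_lit 4117) (.e (nat_lit 3631) (nat_lit 227) (.e (nat_lit 778317) (nat_lit 3) (.e (nat_lit 57476) (nat_lit 28) (.e (nat_lit 557097) (nat_lit 13) (.e (nat_lit 172115) (nat_lit 10) (.e (nat_lit 434231) (nat_lit 23) (.e (nat_lit 532528) (nat_lit 9) (.e (nat_lit 336263) (nat_lit 15) .nil)))))))) (.g (nat_lit 7) .nil .nil))))) (.nd (nat_lit 4) (.nd (nat_lit 5) 
(.lf (nat_lit 104077) (.g (nat_lit 1032) (.e (nat_lit 3630) (nat_lit 227) (.e (nat_lit 778323) (nat_lit 5) (.e (nat_lit 73794) (nat_lit 46) (.e (nat_lit 57862) (nat_lit 256) (.e (nat_lit 317) (nat_lit 23) (.e (nat_lit 352267) (nat_lit 0) .nil)))))) (.g (nat_lit 0) .nil .nil))) 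
(.lf (nat_lit 104109) (.g (nat_lit 897) (.e (nat_lit 3630) (nat_lit 227) (.e (nat_lit 778327) (nat_lit 6) (.e (nat_lit 81922) (nat_lit 0) (.e (nat_lit 3631) (nat_lit 227) (.e (nat_lit 778326) (nat_lit 6) (.e (nat_lit 81924) (nat_lit 0) .nil)))))) (.g (nat_lit 4) .nil .nil)))) (.nd (nat_lit 5) 
(.lf (nat_lit 104093) (.g (nat_lit 1457) (.e (nat_lit 3630) (nat_lit 227) (.e (nat_lit 778326) (nat_lit 6) (.e (nat_lit 81948) (nat_lit 21) (.e (nat_lit 57870) (nat_lit 264) (.e (nat_lit 1219) (nat_lit 90) (.e (nat_lit 81924) (nat_lit 0) .nil)))))) (.g (nat_lit 0) .nil .nil))) 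
(.lf (nat_lit 104125) (.g (nat_lit 2550) (.e (nat_lit 3631) (nat_lit 227) (.e (nat_lit 778317) (nat_lit 3) (.e (nat_lit 57476) (nat_lit 28) (.e (nat_lit 557098) (nat_lit 13) (.e (nat_lit 172097) (nat_lit 9) .nil))))) .nil)))))) (.nd (nat_lit 2) (.nd (nat_lit 3) (.nd (nat_lit 4) (.nd (nat_lit 5) 
(.lf (nat_lit 104067) (.g (nat_lit 280) (.e (nat_lit 3630) (nat_lit 227) (.e (nat_lit 778323) (nat_lit 5) (.e (nat_lit 73782) (nat_lit 32) .nil))) .nil)) 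
(.lf (nat_lit 104099) (.g (nat_lit 2674) (.e (nat_lit 3630) (nat_lit 227) (.e (nat_lit 778326) (nat_lit 6) (.e (nat_lit 81957) (nat_lit 24) (.e (nat_lit 123182) (nat_lit 264) (.e (nat_lit 1224) (nat_lit 90) (.e (nat_lit 81922) (nat_lit 0) .nil)))))) (.g (nat_lit 5) .nil .nil)))) (.nd (nat_lit 5) 
(.lf (nat_lit 104083) (.g (nat_lit 392) (.e (nat_lit 3630) (nat_lit 227) (.e (nat_lit 778324) (nat_lit 5) (.e (nat_lit 73795) (nat_lit 47) .nil))) .nil)) 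
(.lf (nat_lit 104115) (.g (nat_lit 5523) (.e (nat_lit 3631) (nat_lit 227) (.e (nat_lit 778317) (nat_lit 3) (.e (nat_lit 57476) (nat_lit 28) (.e (nat_lit 557097) (nat_lit 13) (.e (nat_lit 172097) (nat_lit 9) (.e (nat_lit 426125) (nat_lit 2) (.e (nat_lit 196666) (nat_lit 13) (.e (nat_lit 65640) (nat_lit 15) .nil)))))))) (.g (nat_lit 8) .nil .nil))))) (.nd (nat_lit 4) (.nd (nat_lit 5) 
(.lf (nat_lit 104075) (.g (nat_lit 1809) (.e (nat_lit 3630) (nat_lit 227) (.e (nat_lit 778323) (nat_lit 5) (.e (nat_lit 73789) (nat_lit 45) (.e (nat_lit 1385) (nat_lit 105) (.e (nat_lit 311358) (nat_lit 29) (.e (nat_lit 352267) (nat_lit 0) .nil)))))) (.g (nat_lit 0) .nil .nil))) 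
(.lf (nat_lit 104107) (.g (nat_lit 147) (.e (nat_lit 3630) (nat_lit 227) (.e (nat_lit 778327) (nat_lit 6) (.e (nat_lit 81922) (nat_lit 0) .nil))) .nil))) (.nd (nat_lit 5) 
(.lf (nat_lit 104091) (.g (nat_lit 1152) (.e (nat_lit 3630) (nat_lit 227) (.e (nat_lit 778326) (nat_lit 6) (.e (nat_lit 81943) (nat_lit 20) (.e (nat_lit 2005) (nat_lit 138) (.e (nat_lit 671764) (nat_lit 6) (.e (nat_lit 81924) (nat_lit 0) .nil)))))) (.g (nat_lit 0) .nil .nil))) 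
(.lf (nat_lit 104123) (.g (nat_lit 3114) (.e (nat_lit 3631) (nat_lit 227) (.e (nat_lit 778317) (nat_lit 3) (.e (nat_lit 57476) (nat_lit 28) (.e (nat_lit 557097) (nat_lit 13) (.e (nat_lit 172115) (nat_lit 10) (.e (nat_lit 434231) (nat_lit 23) (.e (nat_lit 532531) (nat_lit 9) (.e (nat_lit 336265) (nat_lit 15) .nil)))))))) (.g (nat_lit 6) .nil .nil)))))) 
(.nd (nat_lit 3) (.nd (nat_lit 4) (.nd (nat_lit 5) 
(.lf (nat_lit 104071) (.g (nat_lit 1224) (.e (nat_lit 3630) (nat_lit 227) (.e (nat_lit 778323) (nat_lit 5) (.e (nat_lit 73786) (nat_lit 45) (.e (nat_lit 1374) (nat_lit 104) (.e (nat_lit 303155) (nat_lit 29) .nil))))) .nil)) 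
(.lf (nat_lit 104103) (.g (nat_lit 2944) (.e (nat_lit 3630) (nat_lit 227) (.e (nat_lit 778326) (nat_lit 6) (.e (nat_lit 81959) (nat_lit 24) (.e (nat_lit 123182) (nat_lit 264) (.e (nat_lit 1222) (nat_lit 90) (.e (nat_lit 81924) (nat_lit 0) .nil)))))) (.g (nat_lit 6) .nil .nil)))) (.nd (nat_lit 5) 
(.lf (nat_lit 104087) (.g (nat_lit 1302) (.e (nat_lit 3630) (nat_lit 227) (.e (nat_lit 778326) (nat_lit 6) (.e (nat_lit 81935) (nat_lit 20) (.e (nat_lit 1998) (nat_lit 137) (.e (nat_lit 663569) (nat_lit 6) (.e (nat_lit 81924) (nat_lit 0) .nil)))))) (.g (nat_lit 0) .nil .nil))) 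
(.lf (nat_lit 104119) (.g (nat_lit 3790) (.e (nat_lit 3631) (nat_lit 227) (.e (nat_lit 778317) (nat_lit 3) (.e (nat_lit 57476) (nat_lit 28) (.e (nat_lit 557097) (nat_lit 13) (.e (nat_lit 172115) (nat_lit 10) (.e (nat_lit 434231) (nat_lit 23) (.e (nat_lit 532528) (nat_lit 9) (.e (nat_lit 336269) (nat_lit 15) .nil)))))))) (.g (nat_lit 6) .nil .nil))))) (.nd (nat_lit 4) (.nd (nat_lit 5) 
(.lf (nat_lit 104079) (.g (nat_lit 963) (.e (nat_lit 3630) (nat_lit 227) (.e (nat_lit 778323) (nat_lit 5) (.e (nat_lit 73795) (nat_lit 47) (.e (nat_lit 123163) (nat_lit 256) (.e (nat_lit 318) (nat_lit 23) (.e (nat_lit 352267) (nat_lit 0) .nil)))))) (.g (nat_lit 0) .nil .nil))) 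
(.lf (nat_lit 104111) (.g (nat_lit 190) (.e (nat_lit 3630) (nat_lit 227) (.e (nat_lit 778327) (nat_lit 6) (.e (nat_lit 89856) (nat_lit 8) .nil))) .nil))) (.nd (nat_lit 5) 
(.lf (nat_lit 104095) (.g (nat_lit 1983) (.e (nat_lit 3630) (nat_lit 227) (.e (nat_lit 778326) (nat_lit 6) (.e (nat_lit 81948) (nat_lit 21) (.e (nat_lit 57873) (nat_lit 264) (.e (nat_lit 1219) (nat_lit 90) (.e (nat_lit 81924) (nat_lit 0) .nil)))))) (.g (nat_lit 0) .nil .nil))) 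
(.lf (nat_lit 104127) (.g (nat_lit 3711) (.e (nat_lit 3631) (nat_lit 227) (.e (nat_lit 778317) (nat_lit 3) (.e (nat_lit 57476) (nat_lit 28) (.e (nat_lit 557107) (nat_lit 15) (.e (nat_lit 188447) (nat_lit 22) (.e (nat_lit 196666) (nat_lit 13) (.e (nat_lit 65641) (nat_lit 15) .nil))))))) (.g (nat_lit 6) .nil .nil)))))))))

noncomputable def tv1422 : DT := (.nd (nat_lit 0) (.nd (nat_lit 1) (.nd (nat_lit 2) (.nd (nat_lit 3) (.nd (nat_lit 4) (.nd (nat_lit 5) 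
(.lf (nat_lit 104128) (.g (nat_lit 1964) (.e (nat_lit 3631) (nat_lit 227) (.e (nat_lit 778317) (nat_lit 3) (.e (nat_lit 57476) (nat_lit 28) (.e (nat_lit 557107) (nat_lit 15) (.e (nat_lit 188450) (nat_lit 23) (.e (nat_lit 204851) (nat_lit 26) (.e (nat_lit 336262) (nat_lit 15) .nil))))))) (.g (nat_lit 4) .nil .nil))) 
(.lf (nat_lit 104160) (.g (nat_lit 4798) (.e (nat_lit 3631) (nat_lit 227) (.e (nat_lit 778317) (nat_lit 3) (.e (nat_lit 57476) (nat_lit 28) (.e (nat_lit 557108) (nat_lit 15) (.e (nat_lit 188452) (nat_lit 23) (.e (nat_lit 204852) (nat_lit 26) (.e (nat_lit 336285) (nat_lit 15) .nil))))))) (.g (nat_lit 6) .nil .nil)))) (.nd (nat_lit 5) 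
(.lf (nat_lit 104144) (.g (nat_lit 2006) (.e (nat_lit 3631) (nat_lit 227) (.e (nat_lit 778317) (nat_lit 3) (.e (nat_lit 57476) (nat_lit 28) (.e (nat_lit 557108) (nat_lit 15) (.e (nat_lit 188433) (nat_lit 20) .nil))))) .nil)) 
(.lf (nat_lit 104176) (.g (nat_lit 3839) (.e (nat_lit 3631) (nat_lit 227) (.e (nat_lit 778317) (nat_lit 3) (.e (nat_lit 57477) (nat_lit 28) (.e (nat_lit 557097) (nat_lit 13) (.e (nat_lit 172115) (nat_lit 10) (.e (nat_lit 434231) (nat_lit 23) (.e (nat_lit 532528) (nat_lit 9) (.e (nat_lit 336265) (nat_lit 15) .nil)))))))) (.g (nat_lit 6) .nil .nil))))) (.nd (nat_lit 4) (.nd (nat_lit 5) 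
(.lf (nat_lit 104136) (.g (nat_lit 3693) (.e (nat_lit 3631) (nat_lit 227) (.e (nat_lit 778317) (nat_lit 3) (.e (nat_lit 57476) (nat_lit 28) (.e (nat_lit 557107) (nat_lit 15) (.e (nat_lit 188450) (nat_lit 23) (.e (nat_lit 204852) (nat_lit 26) (.e (nat_lit 336265) (nat_lit 15) .nil))))))) (.g (nat_lit 6) .nil .nil))) 
(.lf (nat_lit 104168) (.g (nat_lit 4258) (.e (nat_lit 3631) (nat_lit 227) (.e (nat_lit 778317) (nat_lit 3) (.e (nat_lit 57476) (nat_lit 28) (.e (nat_lit 557108) (nat_lit 15) (.e (nat_lit 188452) (nat_lit 23) (.e (nat_lit 204859) (nat_lit 26) (.e (nat_lit 336300) (nat_lit 15) .nil))))))) (.g (nat_lit 6) .nil .nil)))) (.nd (nat_lit 5) 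
(.lf (nat_lit 104152) (.g (nat_lit 3903) (.e (nat_lit 3631) (nat_lit 227) (.e (nat_lit 778317) (nat_lit 3) (.e (nat_lit 57476) (nat_lit 28) (.e (nat_lit 557108) (nat_lit 15) (.e (nat_lit 188452) (nat_lit 23) (.e (nat_lit 204851) (nat_lit 26) (.e (nat_lit 336263) (nat_lit 15) .nil))))))) (.g (nat_lit 6) .nil .nil))) 
(.lf (nat_lit 104184) (.g (nat_lit 6130) (.e (nat_lit 3631) (nat_lit 227) (.e (nat_lit 778317) (nat_lit 3) (.e (nat_lit 57477) (nat_lit 28) (.e (nat_lit 557100) (nat_lit 13) (.e (nat_lit 172106) (nat_lit 10) (.e (nat_lit 434231) (nat_lit 23) (.e (nat_lit 532535) (nat_lit 9) (.e (nat_lit 336295) (nat_lit 15) .nil)))))))) (.g (nat_lit 8) .nil .nil)))))) 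
(.nd (nat_lit 3) (.nd (nat_lit 4) (.nd (nat_lit 5) 
(.lf (nat_lit 104132) (.g (nat_lit 2360) (.e (nat_lit 3631) (nat_lit 227) (.e (nat_lit 778317) (nat_lit 3) (.e (nat_lit 57476) (nat_lit 28) (.e (nat_lit 557107) (nat_lit 15) (.e (nat_lit 188450) (nat_lit 23) (.e (nat_lit 204851) (nat_lit 26) (.e (nat_lit 336285) (nat_lit 15) .nil))))))) (.g (nat_lit 5) .nil .nil))) 
(.lf (nat_lit 104164) (.g (nat_lit 3900) (.e (nat_lit 3631) (nat_lit 227) (.e (nat_lit 778317) (nat_lit 3) (.e (nat_lit 57476) (nat_lit 28) (.e (nat_lit 557108) (nat_lit 15) (.e (nat_lit 188452) (nat_lit 23) (.e (nat_lit 204855) (nat_lit 26) (.e (nat_lit 336291) (nat_lit 15) .nil))))))) (.g (nat_lit 6) .nil .nil)))) (.nd (nat_lit 5) 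
(.lf (nat_lit 104148) (.g (nat_lit 4354) (.e (nat_lit 3631) (nat_lit 227) (.e (nat_lit 778317) (nat_lit 3) (.e (nat_lit 57476) (nat_lit 28) (.e (nat_lit 557108) (nat_lit 15) (.e (nat_lit 188449) (nat_lit 22) (.e (nat_lit 196666) (nat_lit 13) (.e (nat_lit 65641) (nat_lit 15) .nil))))))) (.g (nat_lit 6) .nil .nil))) 
(.lf (nat_lit 104180) (.g (nat_lit 4283) (.e (nat_lit 3631) (nat_lit 227) (.e (nat_lit 778317) (nat_lit 3) (.e (nat_lit 57477) (nat_lit 28) (.e (nat_lit 557097) (nat_lit 13) (.e (nat_lit 172115) (nat_lit 10) (.e (nat_lit 434231) (nat_lit 23) (.e (nat_lit 532529) (nat_lit 9) (.e (nat_lit 336297) (nat_lit 15) .nil)))))))) (.g (nat_lit 7) .nil .nil))))) (.nd (nat_lit 4) (.nd (nat_lit 5) 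
(.lf (nat_lit 104140) (.g (nat_lit 2472) (.e (nat_lit 3631) (nat_lit 227) (.e (nat_lit 778317) (nat_lit 3) (.e (nat_lit 57476) (nat_lit 28) (.e (nat_lit 557107) (nat_lit 15) (.e (nat_lit 188450) (nat_lit 23) (.e (nat_lit 204855) (nat_lit 26) (.e (nat_lit 336294) (nat_lit 15) .nil))))))) (.g (nat_lit 5) .nil .nil))) 
(.lf (nat_lit 104172) (.g (nat_lit 417) (.e (nat_lit 3631) (nat_lit 227) (.e (nat_lit 778317) (nat_lit 3) (.e (nat_lit 57477) (nat_lit 28) .nil))) .nil))) (.nd (nat_lit 5) 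
(.lf (nat_lit 104156) (.g (nat_lit 3385) (.e (nat_lit 3631) (nat_lit 227) (.e (nat_lit 778317) (nat_lit 3) (.e (nat_lit 57476) (nat_lit 28) (.e (nat_lit 557108) (nat_lit 15) (.e (nat_lit 188452) (nat_lit 23) (.e (nat_lit 204851) (nat_lit 26) (.e (nat_lit 336301) (nat_lit 15) .nil))))))) (.g (nat_lit 5) .nil .nil))) 
(.lf (nat_lit 104188) (.g (nat_lit 2289) (.e (nat_lit 3631) (nat_lit 227) (.e (nat_lit 778317) (nat_lit 3) (.e (nat_lit 57477) (nat_lit 28) (.e (nat_lit 557107) (nat_lit 15) (.e (nat_lit 188450) (nat_lit 23) (.e (nat_lit 204851) (nat_lit 26) (.e (nat_lit 336263) (nat_lit 15) .nil))))))) (.g (nat_lit 5) .nil .nil))))))) (.nd (nat_lit 2) (.nd (nat_lit 3) (.nd (nat_lit 4) (.nd (nat_lit 5) 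
(.lf (nat_lit 104130) (.g (nat_lit 2535) (.e (nat_lit 3631) (nat_lit 227) (.e (nat_lit 778317) (nat_lit 3) (.e (nat_lit 57476) (nat_lit 28) (.e (nat_lit 557107) (nat_lit 15) (.e (nat_lit 188450) (nat_lit 23) (.e (nat_lit 204851) (nat_lit 26) (.e (nat_lit 336265) (nat_lit 15) .nil))))))) (.g (nat_lit 5) .nil .nil))) 
(.lf (nat_lit 104162) (.g (nat_lit 4565) (.e (nat_lit 3631) (nat_lit 227) (.e (nat_lit 778317) (nat_lit 3) (.e (nat_lit 57476) (nat_lit 28) (.e (nat_lit 557108) (nat_lit 15) (.e (nat_lit 188452) (nat_lit 23) (.e (nat_lit 204852) (nat_lit 26) (.e (nat_lit 336301) (nat_lit 15) .nil))))))) (.g (nat_lit 6) .nil .nil)))) (.nd (nat_lit 5) 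
(.lf (nat_lit 104146) (.g (nat_lit 1817) (.e (nat_lit 3631) (nat_lit 227) (.e (nat_lit 778317) (nat_lit 3) (.e (nat_lit 57476) (nat_lit 28) (.e (nat_lit 557108) (nat_lit 15) (.e (nat_lit 188434) (nat_lit 20) .nil))))) .nil)) 
(.lf (nat_lit 104178) (.g (nat_lit 3797) (.e (nat_lit 3631) (nat_lit 227) (.e (nat_lit 778317) (nat_lit 3) (.e (nat_lit 57477) (nat_lit 28) (.e (nat_lit 557097) (nat_lit 13) (.e (nat_lit 172115) (nat_lit 10) (.e (nat_lit 434231) (nat_lit 23) (.e (nat_lit 532528) (nat_lit 9) (.e (nat_lit 336285) (nat_lit 15) .nil)))))))) (.g (nat_lit 6) .nil .nil))))) (.nd (nat_lit 4) (.nd (nat_lit 5) 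
(.lf (nat_lit 104138) (.g (nat_lit 3588) (.e (nat_lit 3631) (nat_lit 227) (.e (nat_lit 778317) (nat_lit 3) (.e (nat_lit 57476) (nat_lit 28) (.e (nat_lit 557107) (nat_lit 15) (.e (nat_lit 188450) (nat_lit 23) (.e (nat_lit 204852) (nat_lit 26) (.e (nat_lit 336297) (nat_lit 15) .nil))))))) (.g (nat_lit 7) .nil .nil))) 
(.lf (nat_lit 104170) (.g (nat_lit 2386) (.e (nat_lit 3631) (nat_lit 227) (.e (nat_lit 778317) (nat_lit 3) (.e (nat_lit 57476) (nat_lit 28) (.e (nat_lit 557108) (nat_lit 15) (.e (nat_lit 188458) (nat_lit 25) (.e (nat_lit 245790) (nat_lit 13) (.e (nat_lit 65641) (nat_lit 15) .nil))))))) (.g (nat_lit 4) .nil .nil)))) (.nd (nat_lit 5) 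
(.lf (nat_lit 104154) (.g (nat_lit 3835) (.e (nat_lit 3631) (nat_lit 227) (.e (nat_lit 778317) (nat_lit 3) (.e (nat_lit 57476) (nat_lit 28) (.e (nat_lit 557108) (nat_lit 15) (.e (nat_lit 188452) (nat_lit 23) (.e (nat_lit 204851) (nat_lit 26) (.e (nat_lit 336269) (nat_lit 15) .nil))))))) (.g (nat_lit 5) .nil .nil))) 
(.lf (nat_lit 104186) (.g (nat_lit 3709) (.e (nat_lit 3631) (nat_lit 227) (.e (nat_lit 778317) (nat_lit 3) (.e (nat_lit 57477) (nat_lit 28) (.e (nat_lit 557107) (nat_lit 15) (.e (nat_lit 188447) (nat_lit 22) (.e (nat_lit 196666) (nat_lit 13) (.e (nat_lit 65641) (nat_lit 15) .nil))))))) (.g (nat_lit 6) .nil .nil)))))) (.nd (nat_lit 3) (.nd (nat_lit 4) (.nd (nat_lit 5) 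
(.lf (nat_lit 104134) (.g (nat_lit 3714) (.e (nat_lit 3631) (nat_lit 227) (.e (nat_lit 778317) (nat_lit 3) (.e (nat_lit 57476) (nat_lit 28) (.e (nat_lit 557107) (nat_lit 15) (.e (nat_lit 188450) (nat_lit 23) (.e (nat_lit 204852) (nat_lit 26) (.e (nat_lit 336262) (nat_lit 15) .nil))))))) (.g (nat_lit 6) .nil .nil))) 
(.lf (nat_lit 104166) (.g (nat_lit 3520) (.e (nat_lit 3631) (nat_lit 227) (.e (nat_lit 778317) (nat_lit 3) (.e (nat_lit 57476) (nat_lit 28) (.e (nat_lit 557108) (nat_lit 15) (.e (nat_lit 188452) (nat_lit 23) (.e (nat_lit 204856) (nat_lit 26) (.e (nat_lit 336292) (nat_lit 15) .nil))))))) (.g (nat_lit 5) .nil .nil)))) (.nd (nat_lit 5) 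
(.lf (nat_lit 104150) (.g (nat_lit 5746) (.e (nat_lit 3631) (nat_lit 227) (.e (nat_lit 778317) (nat_lit 3) (.e (nat_lit 57476) (nat_lit 28) (.e (nat_lit 557108) (nat_lit 15) (.e (nat_lit 188449) (nat_lit 22) (.e (nat_lit 196680) (nat_lit 17) (.e (nat_lit 131133) (nat_lit 15) .nil))))))) (.g (nat_lit 5) .nil .nil))) 
(.lf (nat_lit 104182) (.g (nat_lit 2903) (.e (nat_lit 3631) (nat_lit 227) (.e (nat_lit 778317) (nat_lit 3) (.e (nat_lit 57477) (nat_lit 28) (.e (nat_lit 557097) (nat_lit 13) (.e (nat_lit 172115) (nat_lit 10) (.e (nat_lit 434231) (nat_lit 23) (.e (nat_lit 532531) (nat_lit 9) (.e (nat_lit 336265) (nat_lit 15) .nil)))))))) (.g (nat_lit 6) .nil .nil))))) (.nd (nat_lit 4) (.nd (nat_lit 5) 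
(.lf (nat_lit 104142) (.g (nat_lit 2468) (.e (nat_lit 3631) (nat_lit 227) (.e (nat_lit 778317) (nat_lit 3) (.e (nat_lit 57476) (nat_lit 28) (.e (nat_lit 557107) (nat_lit 15) (.e (nat_lit 188450) (nat_lit 23) (.e (nat_lit 204858) (nat_lit 26) (.e (nat_lit 336295) (nat_lit 15) .nil))))))) (.g (nat_lit 5) .nil .nil))) 
(.lf (nat_lit 104174) (.g (nat_lit 3608) (.e (nat_lit 3631) (nat_lit 227) (.e (nat_lit 778317) (nat_lit 3) (.e (nat_lit 57477) (nat_lit 28) (.e (nat_lit 557097) (nat_lit 13) (.e (nat_lit 172097) (nat_lit 9) (.e (nat_lit 426140) (nat_lit 3) (.e (nat_lit 204855) (nat_lit 26) (.e (nat_lit 336291) (nat_lit 15) .nil)))))))) (.g (nat_lit 7) .nil .nil)))) (.nd (nat_lit 5) 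
(.lf (nat_lit 104158) (.g (nat_lit 4766) (.e (nat_lit 3631) (nat_lit 227) (.e (nat_lit 778317) (nat_lit 3) (.e (nat_lit 57476) (nat_lit 28) (.e (nat_lit 557108) (nat_lit 15) (.e (nat_lit 188452) (nat_lit 23) (.e (nat_lit 204852) (nat_lit 26) (.e (nat_lit 336263) (nat_lit 15) .nil))))))) (.g (nat_lit 6) .nil .nil))) 
(.lf (nat_lit 104190) (.g (nat_lit 2368) (.e (nat_lit 3631) (nat_lit 227) (.e (nat_lit 778317) (nat_lit 3) (.e (nat_lit 57477) (nat_lit 28) (.e (nat_lit 557107) (nat_lit 15) (.e (nat_lit 188450) (nat_lit 23) (.e (nat_lit 204851) (nat_lit 26) (.e (nat_lit 336269) (nat_lit 15) .nil))))))) (.g (nat_lit 5) .nil .nil)))))))) 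
(.nd (nat_lit 1) (.nd (nat_lit 2) (.nd (nat_lit 3) (.nd (nat_lit 4) (.nd (nat_lit 5) 
(.lf (nat_lit 104129) (.g (nat_lit 2405) (.e (nat_lit 3631) (nat_lit 227) (.e (nat_lit 778317) (nat_lit 3) (.e (nat_lit 57476) (nat_lit 28) (.e (nat_lit 557107) (nat_lit 15) (.e (nat_lit 188450) (nat_lit 23) (.e (nat_lit 204851) (nat_lit 26) (.e (nat_lit 336263) (nat_lit 15) .nil))))))) (.g (nat_lit 5) .nil .nil))) 
(.lf (nat_lit 104161) (.g (nat_lit 4631) (.e (nat_lit 3631) (nat_lit 227) (.e (nat_lit 778317) (nat_lit 3) (.e (nat_lit 57476) (nat_lit 28) (.e (nat_lit 557108) (nat_lit 15) (.e (nat_lit 188452) (nat_lit 23) (.e (nat_lit 204852) (nat_lit 26) (.e (nat_lit 336297) (nat_lit 15) .nil))))))) (.g (nat_lit 7) .nil .nil)))) (.nd (nat_lit 5) 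
(.lf (nat_lit 104145) (.g (nat_lit 2499) (.e (nat_lit 3631) (nat_lit 227) (.e (nat_lit 778317) (nat_lit 3) (.e (nat_lit 57476) (nat_lit 28) (.e (nat_lit 557108) (nat_lit 15) (.e (nat_lit 188433) (nat_lit 20) (.e (nat_lit 3127) (nat_lit 193) (.e (nat_lit 500065) (nat_lit 18) (.e (nat_lit 65642) (nat_lit 15) .nil)))))))) (.g (nat_lit 4) .nil .nil))) 
(.lf (nat_lit 104177) (.g (nat_lit 3597) (.e (nat_lit 3631) (nat_lit 227) (.e (nat_lit 778317) (nat_lit 3) (.e (nat_lit 57477) (nat_lit 28) (.e (nat_lit 557097) (nat_lit 13) (.e (nat_lit 172115) (nat_lit 10) (.e (nat_lit 434231) (nat_lit 23) (.e (nat_lit 532528) (nat_lit 9) (.e (nat_lit 336269) (nat_lit 15) .nil)))))))) (.g (nat_lit 6) .nil .nil))))) (.nd (nat_lit 4) (.nd (nat_lit 5) 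
(.lf (nat_lit 104137) (.g (nat_lit 3737) (.e (nat_lit 3631) (nat_lit 227) (.e (nat_lit 778317) (nat_lit 3) (.e (nat_lit 57476) (nat_lit 28) (.e (nat_lit 557107) (nat_lit 15) (.e (nat_lit 188450) (nat_lit 23) (.e (nat_lit 204852) (nat_lit 26) (.e (nat_lit 336285) (nat_lit 15) .nil))))))) (.g (nat_lit 6) .nil .nil))) 
(.lf (nat_lit 104169) (.g (nat_lit 2247) (.e (nat_lit 3631) (nat_lit 227) (.e (nat_lit 778317) (nat_lit 3) (.e (nat_lit 57476) (nat_lit 28) (.e (nat_lit 557108) (nat_lit 15) (.e (nat_lit 188458) (nat_lit 25) (.e (nat_lit 245790) (nat_lit 13) (.e (nat_lit 65635) (nat_lit 15) .nil))))))) (.g (nat_lit 4) .nil .nil)))) (.nd (nat_lit 5) 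
(.lf (nat_lit 104153) (.g (nat_lit 4018) (.e (nat_lit 3631) (nat_lit 227) (.e (nat_lit 778317) (nat_lit 3) (.e (nat_lit 57476) (nat_lit 28) (.e (nat_lit 557108) (nat_lit 15) (.e (nat_lit 188452) (nat_lit 23) (.e (nat_lit 204851) (nat_lit 26) (.e (nat_lit 336265) (nat_lit 15) .nil))))))) (.g (nat_lit 6) .nil .nil))) 
(.lf (nat_lit 104185) (.g (nat_lit 3362) (.e (nat_lit 3631) (nat_lit 227) (.e (nat_lit 778317) (nat_lit 3) (.e (nat_lit 57477) (nat_lit 28) (.e (nat_lit 557107) (nat_lit 15) (.e (nat_lit 188447) (nat_lit 22) (.e (nat_lit 196666) (nat_lit 13) (.e (nat_lit 65640) (nat_lit 15) .nil))))))) (.g (nat_lit 6) .nil .nil)))))) (.nd (nat_lit 3) (.nd (nat_lit 4) (.nd (nat_lit 5) 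
(.lf (nat_lit 104133) (.g (nat_lit 1925) (.e (nat_lit 3631) (nat_lit 227) (.e (nat_lit 778317) (nat_lit 3) (.e (nat_lit 57476) (nat_lit 28) (.e (nat_lit 557107) (nat_lit 15) (.e (nat_lit 188450) (nat_lit 23) (.e (nat_lit 204851) (nat_lit 26) (.e (nat_lit 336301) (nat_lit 15) .nil))))))) (.g (nat_lit 4) .nil .nil))) 
(.lf (nat_lit 104165) (.g (nat_lit 4055) (.e (nat_lit 3631) (nat_lit 227) (.e (nat_lit 778317) (nat_lit 3) (.e (nat_lit 57476) (nat_lit 28) (.e (nat_lit 557108) (nat_lit 15) (.e (nat_lit 188452) (nat_lit 23) (.e (nat_lit 204855) (nat_lit 26) (.e (nat_lit 336294) (nat_lit 15) .nil))))))) (.g (nat_lit 6) .nil .nil)))) (.nd (nat_lit 5) 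
(.lf (nat_lit 104149) (.g (nat_lit 5674) (.e (nat_lit 3631) (nat_lit 227) (.e (nat_lit 778317) (nat_lit 3) (.e (nat_lit 57476) (nat_lit 28) (.e (nat_lit 557108) (nat_lit 15) (.e (nat_lit 188449) (nat_lit 22) (.e (nat_lit 196679) (nat_lit 17) (.e (nat_lit 131133) (nat_lit 15) .nil))))))) (.g (nat_lit 5) .nil .nil))) 
(.lf (nat_lit 104181) (.g (nat_lit 2846) (.e (nat_lit 3631) (nat_lit 227) (.e (nat_lit 778317) (nat_lit 3) (.e (nat_lit 57477) (nat_lit 28) (.e (nat_lit 557097) (nat_lit 13) (.e (nat_lit 172115) (nat_lit 10) (.e (nat_lit 434231) (nat_lit 23) (.e (nat_lit 532531) (nat_lit 9) (.e (nat_lit 336263) (nat_lit 15) .nil)))))))) (.g (nat_lit 6) .nil .nil))))) (.nd (nat_lit 4) (.nd (nat_lit 5) 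
(.lf (nat_lit 104141) (.g (nat_lit 2268) (.e (nat_lit 3631) (nat_lit 227) (.e (nat_lit 778317) (nat_lit 3) (.e (nat_lit 57476) (nat_lit 28) (.e (nat_lit 557107) (nat_lit 15) (.e (nat_lit 188450) (nat_lit 23) (.e (nat_lit 204858) (nat_lit 26) (.e (nat_lit 336292) (nat_lit 15) .nil))))))) (.g (nat_lit 5) .nil .nil))) 
(.lf (nat_lit 104173) (.g (nat_lit 5311) (.e (nat_lit 3631) (nat_lit 227) (.e (nat_lit 778317) (nat_lit 3) (.e (nat_lit 57477) (nat_lit 28) (.e (nat_lit 557097) (nat_lit 13) (.e (nat_lit 172097) (nat_lit 9) (.e (nat_lit 426125) (nat_lit 2) (.e (nat_lit 196666) (nat_lit 13) (.e (nat_lit 65640) (nat_lit 15) .nil)))))))) (.g (nat_lit 0) .nil .nil)))) (.nd (nat_lit 5) 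
(.lf (nat_lit 104157) (.g (nat_lit 4812) (.e (nat_lit 3631) (nat_lit 227) (.e (nat_lit 778317) (nat_lit 3) (.e (nat_lit 57476) (nat_lit 28) (.e (nat_lit 557108) (nat_lit 15) (.e (nat_lit 188452) (nat_lit 23) (.e (nat_lit 204852) (nat_lit 26) (.e (nat_lit 336262) (nat_lit 15) .nil))))))) (.g (nat_lit 6) .nil .nil))) 
(.lf (nat_lit 104189) (.g (nat_lit 2533) (.e (nat_lit 3631) (nat_lit 227) (.e (nat_lit 778317) (nat_lit 3) (.e (nat_lit 57477) (nat_lit 28) (.e (nat_lit 557107) (nat_lit 15) (.e (nat_lit 188450) (nat_lit 23) (.e (nat_lit 204851) (nat_lit 26) (.e (nat_lit 336265) (nat_lit 15) .nil))))))) (.g (nat_lit 5) .nil .nil))))))) (.nd (nat_lit 2) (.nd (nat_lit 3) (.nd (nat_lit 4) (.nd (nat_lit 5) 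
(.lf (nat_lit 104131) (.g (nat_lit 2352) (.e (nat_lit 3631) (nat_lit 227) (.e (nat_lit 778317) (nat_lit 3) (.e (nat_lit 57476) (nat_lit 28) (.e (nat_lit 557107) (nat_lit 15) (.e (nat_lit 188450) (nat_lit 23) (.e (nat_lit 204851) (nat_lit 26) (.e (nat_lit 336269) (nat_lit 15) .nil))))))) (.g (nat_lit 5) .nil .nil))) 
(.lf (nat_lit 104163) (.g (nat_lit 3819) (.e (nat_lit 3631) (nat_lit 227) (.e (nat_lit 778317) (nat_lit 3) (.e (nat_lit 57476) (nat_lit 28) (.e (nat_lit 557108) (nat_lit 15) (.e (nat_lit 188452) (nat_lit 23) (.e (nat_lit 204855) (nat_lit 26) (.e (nat_lit 336282) (nat_lit 15) .nil))))))) (.g (nat_lit 6) .nil .nil)))) (.nd (nat_lit 5) 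
(.lf (nat_lit 104147) (.g (nat_lit 4072) (.e (nat_lit 3631) (nat_lit 227) (.e (nat_lit 778317) (nat_lit 3) (.e (nat_lit 57476) (nat_lit 28) (.e (nat_lit 557108) (nat_lit 15) (.e (nat_lit 188449) (nat_lit 22) (.e (nat_lit 196666) (nat_lit 13) (.e (nat_lit 65640) (nat_lit 15) .nil))))))) (.g (nat_lit 6) .nil .nil))) 
(.lf (nat_lit 104179) (.g (nat_lit 3352) (.e (nat_lit 3631) (nat_lit 227) (.e (nat_lit 778317) (nat_lit 3) (.e (nat_lit 57477) (nat_lit 28) (.e (nat_lit 557097) (nat_lit 13) (.e (nat_lit 172115) (nat_lit 10) (.e (nat_lit 434231) (nat_lit 23) (.e (nat_lit 532528) (nat_lit 9) (.e (nat_lit 336301) (nat_lit 15) .nil)))))))) (.g (nat_lit 6) .nil .nil))))) (.nd (nat_lit 4) (.nd (nat_lit 5) 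
(.lf (nat_lit 104139) (.g (nat_lit 3562) (.e (nat_lit 3631) (nat_lit 227) (.e (nat_lit 778317) (nat_lit 3) (.e (nat_lit 57476) (nat_lit 28) (.e (nat_lit 557107) (nat_lit 15) (.e (nat_lit 188450) (nat_lit 23) (.e (nat_lit 204855) (nat_lit 26) (.e (nat_lit 336291) (nat_lit 15) .nil))))))) (.g (nat_lit 6) .nil .nil))) 
(.lf (nat_lit 104171) (.g (nat_lit 2300) (.e (nat_lit 3631) (nat_lit 227) (.e (nat_lit 778317) (nat_lit 3) (.e (nat_lit 57476) (nat_lit 28) (.e (nat_lit 557108) (nat_lit 15) (.e (nat_lit 188458) (nat_lit 25) (.e (nat_lit 245790) (nat_lit 13) (.e (nat_lit 65642) (nat_lit 15) .nil))))))) (.g (nat_lit 4) .nil .nil)))) (.nd (nat_lit 5) 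
(.lf (nat_lit 104155) (.g (nat_lit 3843) (.e (nat_lit 3631) (nat_lit 227) (.e (nat_lit 778317) (nat_lit 3) (.e (nat_lit 57476) (nat_lit 28) (.e (nat_lit 557108) (nat_lit 15) (.e (nat_lit 188452) (nat_lit 23) (.e (nat_lit 204851) (nat_lit 26) (.e (nat_lit 336285) (nat_lit 15) .nil))))))) (.g (nat_lit 5) .nil .nil))) 
(.lf (nat_lit 104187) (.g (nat_lit 1971) (.e (nat_lit 3631) (nat_lit 227) (.e (nat_lit 778317) (nat_lit 3) (.e (nat_lit 57477) (nat_lit 28) (.e (nat_lit 557107) (nat_lit 15) (.e (nat_lit 188450) (nat_lit 23) (.e (nat_lit 204851) (nat_lit 26) (.e (nat_lit 336262) (nat_lit 15) .nil))))))) (.g (nat_lit 4) .nil .nil)))))) (.nd (nat_lit 3) (.nd (nat_lit 4) (.nd (nat_lit 5) 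
(.lf (nat_lit 104135) (.g (nat_lit 3654) (.e (nat_lit 3631) (nat_lit 227) (.e (nat_lit 778317) (nat_lit 3) (.e (nat_lit 57476) (nat_lit 28) (.e (nat_lit 557107) (nat_lit 15) (.e (nat_lit 188450) (nat_lit 23) (.e (nat_lit 204852) (nat_lit 26) (.e (nat_lit 336263) (nat_lit 15) .nil))))))) (.g (nat_lit 6) .nil .nil))) 
(.lf (nat_lit 104167) (.g (nat_lit 4436) (.e (nat_lit 3631) (nat_lit 227) (.e (nat_lit 778317) (nat_lit 3) (.e (nat_lit 57476) (nat_lit 28) (.e (nat_lit 557108) (nat_lit 15) (.e (nat_lit 188452) (nat_lit 23) (.e (nat_lit 204858) (nat_lit 26) (.e (nat_lit 336295) (nat_lit 15) .nil))))))) (.g (nat_lit 5) .nil .nil)))) (.nd (nat_lit 5) 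
(.lf (nat_lit 104151) (.g (nat_lit 3447) (.e (nat_lit 3631) (nat_lit 227) (.e (nat_lit 778317) (nat_lit 3) (.e (nat_lit 57476) (nat_lit 28) (.e (nat_lit 557108) (nat_lit 15) (.e (nat_lit 188452) (nat_lit 23) (.e (nat_lit 204851) (nat_lit 26) (.e (nat_lit 336262) (nat_lit 15) .nil))))))) (.g (nat_lit 5) .nil .nil))) 
(.lf (nat_lit 104183) (.g (nat_lit 4696) (.e (nat_lit 3631) (nat_lit 227) (.e (nat_lit 778317) (nat_lit 3) (.e (nat_lit 57477) (nat_lit 28) (.e (nat_lit 557097) (nat_lit 13) (.e (nat_lit 172115) (nat_lit 10) (.e (nat_lit 434231) (nat_lit 23) (.e (nat_lit 532535) (nat_lit 9) (.e (nat_lit 336291) (nat_lit 15) .nil)))))))) (.g (nat_lit 8) .nil .nil))))) (.nd (nat_lit 4) (.nd (nat_lit 5) 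
(.lf (nat_lit 104143) (.g (nat_lit 2033) (.e (nat_lit 3631) (nat_lit 227) (.e (nat_lit 778317) (nat_lit 3) (.e (nat_lit 57476) (nat_lit 28) (.e (nat_lit 557107) (nat_lit 15) (.e (nat_lit 188450) (nat_lit 23) (.e (nat_lit 204859) (nat_lit 26) (.e (nat_lit 336300) (nat_lit 15) .nil))))))) (.g (nat_lit 4) .nil .nil))) 
(.lf (nat_lit 104175) (.g (nat_lit 3792) (.e (nat_lit 3631) (nat_lit 227) (.e (nat_lit 778317) (nat_lit 3) (.e (nat_lit 57477) (nat_lit 28) (.e (nat_lit 557097) (nat_lit 13) (.e (nat_lit 172115) (nat_lit 10) (.e (nat_lit 434231) (nat_lit 23) (.e (nat_lit 532528) (nat_lit 9) (.e (nat_lit 336263) (nat_lit 15) .nil)))))))) (.g (nat_lit 7) .nil .nil)))) (.nd (nat_lit 5) 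
(.lf (nat_lit 104159) (.g (nat_lit 4761) (.e (nat_lit 3631) (nat_lit 227) (.e (nat_lit 778317) (nat_lit 3) (.e (nat_lit 57476) (nat_lit 28) (.e (nat_lit 557108) (nat_lit 15) (.e (nat_lit 188452) (nat_lit 23) (.e (nat_lit 204852) (nat_lit 26) (.e (nat_lit 336265) (nat_lit 15) .nil))))))) (.g (nat_lit 6) .nil .nil))) 
(.lf (nat_lit 104191) (.g (nat_lit 2351) (.e (nat_lit 3631) (nat_lit 227) (.e (nat_lit 778317) (nat_lit 3) (.e (nat_lit 57477) (nat_lit 28) (.e (nat_lit 557107) (nat_lit 15) (.e (nat_lit 188450) (nat_lit 23) (.e (nat_lit 204851) (nat_lit 26) (.e (nat_lit 336285) (nat_lit 15) .nil))))))) (.g (nat_lit 5) .nil .nil)))))))))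

noncomputable def tv1423 : DT := (.nd (nat_lit 0) (.nd (nat_lit 1) (.nd (nat_lit 2) (.nd (nat_lit 3) (.nd (nat_lit 4) (.nd (nat_lit 5) 
(.lf (nat_lit 104192) (.g (nat_lit 1941) (.e (nat_lit 3631) (nat_lit 227) (.e (nat_lit 778317) (nat_lit 3) (.e (nat_lit 57477) (nat_lit 28) (.e (nat_lit 557107) (nat_lit 15) (.e (nat_lit 188450) (nat_lit 23) (.e (nat_lit 204851) (nat_lit 26) (.e (nat_lit 336301) (nat_lit 15) .nil))))))) (.g (nat_lit 5) .nil .nil))) 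
(.lf (nat_lit 104224) (.g (nat_lit 3887) (.e (nat_lit 3631) (nat_lit 227) (.e (nat_lit 778317) (nat_lit 3) (.e (nat_lit 57477) (nat_lit 28) (.e (nat_lit 557108) (nat_lit 15) (.e (nat_lit 188452) (nat_lit 23) (.e (nat_lit 204858) (nat_lit 26) (.e (nat_lit 336292) (nat_lit 15) .nil))))))) (.g (nat_lit 5) .nil .nil)))) (.nd (nat_lit 5) 
(.lf (nat_lit 104208) (.g (nat_lit 3051) (.e (nat_lit 3631) (nat_lit 227) (.e (nat_lit 778317) (nat_lit 3) (.e (nat_lit 57477) (nat_lit 28) (.e (nat_lit 557108) (nat_lit 15) (.e (nat_lit 188452) (nat_lit 23) (.e (nat_lit 204851) (nat_lit 26) (.e (nat_lit 336262) (nat_lit 15) .nil))))))) (.g (nat_lit 5) .nil .nil))) 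
(.lf (nat_lit 104240) (.g (nat_lit 5415) (.e (nat_lit 3631) (nat_lit 227) (.e (nat_lit 778317) (nat_lit 3) (.e (nat_lit 57479) (nat_lit 28) (.e (nat_lit 557101) (nat_lit 13) (.e (nat_lit 172106) (nat_lit 10) (.e (nat_lit 434231) (nat_lit 23) (.e (nat_lit 532535) (nat_lit 9) (.e (nat_lit 336295) (nat_lit 15) .nil)))))))) (.g (nat_lit 7) .nil .nil))))) (.nd (nat_lit 4) (.nd (nat_lit 5) 
(.lf (nat_lit 104200) (.g (nat_lit 2486) (.e (nat_lit 3631) (nat_lit 227) (.e (nat_lit 778317) (nat_lit 3) (.e (nat_lit 57477) (nat_lit 28) (.e (nat_lit 557107) (nat_lit 15) (.e (nat_lit 188450) (nat_lit 23) (.e (nat_lit 204855) (nat_lit 26) (.e (nat_lit 336294) (nat_lit 15) .nil))))))) (.g (nat_lit 5) .nil .nil))) 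
(.lf (nat_lit 104232) (.g (nat_lit 3010) (.e (nat_lit 3631) (nat_lit 227) (.e (nat_lit 778317) (nat_lit 3) (.e (nat_lit 57479) (nat_lit 28) (.e (nat_lit 557095) (nat_lit 13) (.e (nat_lit 172115) (nat_lit 10) (.e (nat_lit 434231) (nat_lit 23) (.e (nat_lit 532535) (nat_lit 9) (.e (nat_lit 336291) (nat_lit 15) .nil)))))))) (.g (nat_lit 4) .nil .nil)))) (.nd (nat_lit 5) 
(.lf (nat_lit 104216) (.g (nat_lit 4541) (.e (nat_lit 3631) (nat_lit 227) (.e (nat_lit 778317) (nat_lit 3) (.e (nat_lit 57477) (nat_lit 28) (.e (nat_lit 557108) (nat_lit 15) (.e (nat_lit 188452) (nat_lit 23) (.e (nat_lit 204852) (nat_lit 26) (.e (nat_lit 336265) (nat_lit 15) .nil))))))) (.g (nat_lit 6) .nil .nil))) 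
(.lf (nat_lit 104248) (.g (nat_lit 4794) (.e (nat_lit 3631) (nat_lit 227) (.e (nat_lit 778317) (nat_lit 3) (.e (nat_lit 57479) (nat_lit 28) (.e (nat_lit 557101) (nat_lit 13) (.e (nat_lit 172115) (nat_lit 10) (.e (nat_lit 434231) (nat_lit 23) (.e (nat_lit 532529) (nat_lit 9) (.e (nat_lit 336297) (nat_lit 15) .nil)))))))) (.g (nat_lit 7) .nil .nil)))))) 
(.nd (nat_lit 3) (.nd (nat_lit 4) (.nd (nat_lit 5) 
(.lf (nat_lit 104196) (.g (nat_lit 3713) (.e (nat_lit 3631) (nat_lit 227) (.e (nat_lit 778317) (nat_lit 3) (.e (nat_lit 57477) (nat_lit 28) (.e (nat_lit 557107) (nat_lit 15) (.e (nat_lit 188450) (nat_lit 23) (.e (nat_lit 204852) (nat_lit 26) (.e (nat_lit 336285) (nat_lit 15) .nil))))))) (.g (nat_lit 6) .nil .nil))) 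
(.lf (nat_lit 104228) (.g (nat_lit 2020) (.e (nat_lit 3631) (nat_lit 227) (.e (nat_lit 778317) (nat_lit 3) (.e (nat_lit 57477) (nat_lit 28) (.e (nat_lit 557108) (nat_lit 15) (.e (nat_lit 188458) (nat_lit 25) (.e (nat_lit 245790) (nat_lit 13) (.e (nat_lit 65642) (nat_lit 15) .nil))))))) (.g (nat_lit 4) .nil .nil)))) (.nd (nat_lit 5) 
(.lf (nat_lit 104212) (.g (nat_lit 3431) (.e (nat_lit 3631) (nat_lit 227) (.e (nat_lit 778317) (nat_lit 3) (.e (nat_lit 57477) (nat_lit 28) (.e (nat_lit 557108) (nat_lit 15) (.e (nat_lit 188452) (nat_lit 23) (.e (nat_lit 204851) (nat_lit 26) (.e (nat_lit 336285) (nat_lit 15) .nil))))))) (.g (nat_lit 5) .nil .nil))) 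
(.lf (nat_lit 104244) (.g (nat_lit 3086) (.e (nat_lit 3631) (nat_lit 227) (.e (nat_lit 778317) (nat_lit 3) (.e (nat_lit 57479) (nat_lit 28) (.e (nat_lit 557101) (nat_lit 13) (.e (nat_lit 172115) (nat_lit 10) (.e (nat_lit 434231) (nat_lit 23) (.e (nat_lit 532528) (nat_lit 9) (.e (nat_lit 336270) (nat_lit 15) .nil)))))))) (.g (nat_lit 5) .nil .nil))))) (.nd (nat_lit 4) (.nd (nat_lit 5) 
(.lf (nat_lit 104204) (.g (nat_lit 3845) (.e (nat_lit 3631) (nat_lit 227) (.e (nat_lit 778317) (nat_lit 3) (.e (nat_lit 57477) (nat_lit 28) (.e (nat_lit 557108) (nat_lit 15) (.e (nat_lit 188449) (nat_lit 22) (.e (nat_lit 196666) (nat_lit 13) (.e (nat_lit 65640) (nat_lit 15) .nil))))))) (.g (nat_lit 7) .nil .nil))) 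
(.lf (nat_lit 104236) (.g (nat_lit 4388) (.e (nat_lit 3631) (nat_lit 227) (.e (nat_lit 778317) (nat_lit 3) (.e (nat_lit 57479) (nat_lit 28) (.e (nat_lit 557101) (nat_lit 13) (.e (nat_lit 172097) (nat_lit 9) (.e (nat_lit 426140) (nat_lit 3) (.e (nat_lit 204855) (nat_lit 26) (.e (nat_lit 336282) (nat_lit 15) .nil)))))))) (.g (nat_lit 7) .nil .nil)))) (.nd (nat_lit 5) 
(.lf (nat_lit 104220) (.g (nat_lit 3719) (.e (nat_lit 3631) (nat_lit 227) (.e (nat_lit 778317) (nat_lit 3) (.e (nat_lit 57477) (nat_lit 28) (.e (nat_lit 557108) (nat_lit 15) (.e (nat_lit 188452) (nat_lit 23) (.e (nat_lit 204855) (nat_lit 26) (.e (nat_lit 336282) (nat_lit 15) .nil))))))) (.g (nat_lit 6) .nil .nil))) 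
(.lf (nat_lit 104252) (.g (nat_lit 2951) (.e (nat_lit 3631) (nat_lit 227) (.e (nat_lit 778317) (nat_lit 3) (.e (nat_lit 57479) (nat_lit 28) (.e (nat_lit 557101) (nat_lit 13) (.e (nat_lit 172115) (nat_lit 10) (.e (nat_lit 434231) (nat_lit 23) (.e (nat_lit 532531) (nat_lit 9) (.e (nat_lit 336285) (nat_lit 15) .nil)))))))) (.g (nat_lit 5) .nil .nil))))))) 
(.nd (nat_lit 2) (.nd (nat_lit 3) (.nd (nat_lit 4) (.nd (nat_lit 5) 
(.lf (nat_lit 104194) (.g (nat_lit 3523) (.e (nat_lit 3631) (nat_lit 227) (.e (nat_lit 778317) (nat_lit 3) (.e (nat_lit 57477) (nat_lit 28) (.e (nat_lit 557107) (nat_lit 15) (.e (nat_lit 188450) (nat_lit 23) (.e (nat_lit 204852) (nat_lit 26) (.e (nat_lit 336263) (nat_lit 15) .nil))))))) (.g (nat_lit 6) .nil .nil))) 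
(.lf (nat_lit 104226) (.g (nat_lit 2119) (.e (nat_lit 3631) (nat_lit 227) (.e (nat_lit 778317) (nat_lit 3) (.e (nat_lit 57477) (nat_lit 28) (.e (nat_lit 557108) (nat_lit 15) (.e (nat_lit 188458) (nat_lit 25) (.e (nat_lit 245790) (nat_lit 13) (.e (nat_lit 65635) (nat_lit 15) .nil))))))) (.g (nat_lit 4) .nil .nil)))) (.nd (nat_lit 5) 
(.lf (nat_lit 104210) (.g (nat_lit 3613) (.e (nat_lit 3631) (nat_lit 227) (.e (nat_lit 778317) (nat_lit 3) (.e (nat_lit 57477) (nat_lit 28) (.e (nat_lit 557108) (nat_lit 15) (.e (nat_lit 188452) (nat_lit 23) (.e (nat_lit 204851) (nat_lit 26) (.e (nat_lit 336265) (nat_lit 15) .nil))))))) (.g (nat_lit 5) .nil .nil))) 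
(.lf (nat_lit 104242) (.g (nat_lit 4346) (.e (nat_lit 3631) (nat_lit 227) (.e (nat_lit 778317) (nat_lit 3) (.e (nat_lit 57479) (nat_lit 28) (.e (nat_lit 557101) (nat_lit 13) (.e (nat_lit 172115) (nat_lit 10) (.e (nat_lit 434231) (nat_lit 23) (.e (nat_lit 532528) (nat_lit 9) (.e (nat_lit 336265) (nat_lit 15) .nil)))))))) (.g (nat_lit 6) .nil .nil))))) (.nd (nat_lit 4) (.nd (nat_lit 5) 
(.lf (nat_lit 104202) (.g (nat_lit 2274) (.e (nat_lit 3631) (nat_lit 227) (.e (nat_lit 778317) (nat_lit 3) (.e (nat_lit 57477) (nat_lit 28) (.e (nat_lit 557107) (nat_lit 15) (.e (nat_lit 188450) (nat_lit 23) (.e (nat_lit 204858) (nat_lit 26) (.e (nat_lit 336292) (nat_lit 15) .nil))))))) (.g (nat_lit 5) .nil .nil))) 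
(.lf (nat_lit 104234) (.g (nat_lit 6185) (.e (nat_lit 3631) (nat_lit 227) (.e (nat_lit 778317) (nat_lit 3) (.e (nat_lit 57479) (nat_lit 28) (.e (nat_lit 557101) (nat_lit 13) (.e (nat_lit 172097) (nat_lit 9) (.e (nat_lit 426125) (nat_lit 2) (.e (nat_lit 196666) (nat_lit 13) (.e (nat_lit 65640) (nat_lit 15) .nil)))))))) (.g (nat_lit 0) .nil .nil)))) (.nd (nat_lit 5) 
(.lf (nat_lit 104218) (.g (nat_lit 4571) (.e (nat_lit 3631) (nat_lit 227) (.e (nat_lit 778317) (nat_lit 3) (.e (nat_lit 57477) (nat_lit 28) (.e (nat_lit 557108) (nat_lit 15) (.e (nat_lit 188452) (nat_lit 23) (.e (nat_lit 204852) (nat_lit 26) (.e (nat_lit 336285) (nat_lit 15) .nil))))))) (.g (nat_lit 6) .nil .nil))) 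
(.lf (nat_lit 104250) (.g (nat_lit 3512) (.e (nat_lit 3631) (nat_lit 227) (.e (nat_lit 778317) (nat_lit 3) (.e (nat_lit 57479) (nat_lit 28) (.e (nat_lit 557101) (nat_lit 13) (.e (nat_lit 172115) (nat_lit 10) (.e (nat_lit 434231) (nat_lit 23) (.e (nat_lit 532531) (nat_lit 9) (.e (nat_lit 336265) (nat_lit 15) .nil)))))))) (.g (nat_lit 6) .nil .nil)))))) 
(.nd (nat_lit 3) (.nd (nat_lit 4) (.nd (nat_lit 5) 
(.lf (nat_lit 104198) (.g (nat_lit 3429) (.e (nat_lit 3631) (nat_lit 227) (.e (nat_lit 778317) (nat_lit 3) (.e (nat_lit 57477) (nat_lit 28) (.e (nat_lit 557107) (nat_lit 15) (.e (nat_lit 188450) (nat_lit 23) (.e (nat_lit 204852) (nat_lit 26) (.e (nat_lit 336301) (nat_lit 15) .nil))))))) (.g (nat_lit 6) .nil .nil))) 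
(.lf (nat_lit 104230) (.g (nat_lit 6579) (.e (nat_lit 3631) (nat_lit 227) (.e (nat_lit 778317) (nat_lit 3) (.e (nat_lit 57479) (nat_lit 28) (.e (nat_lit 557095) (nat_lit 13) (.e (nat_lit 172106) (nat_lit 10) (.e (nat_lit 434231) (nat_lit 23) (.e (nat_lit 532535) (nat_lit 9) (.e (nat_lit 336295) (nat_lit 15) .nil)))))))) (.g (nat_lit 7) .nil .nil)))) (.nd (nat_lit 5) 
(.lf (nat_lit 104214) (.g (nat_lit 4601) (.e (nat_lit 3631) (nat_lit 227) (.e (nat_lit 778317) (nat_lit 3) (.e (nat_lit 57477) (nat_lit 28) (.e (nat_lit 557108) (nat_lit 15) (.e (nat_lit 188452) (nat_lit 23) (.e (nat_lit 204852) (nat_lit 26) (.e (nat_lit 336262) (nat_lit 15) .nil))))))) (.g (nat_lit 6) .nil .nil))) 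
(.lf (nat_lit 104246) (.g (nat_lit 3074) (.e (nat_lit 3631) (nat_lit 227) (.e (nat_lit 778317) (nat_lit 3) (.e (nat_lit 57479) (nat_lit 28) (.e (nat_lit 557101) (nat_lit 13) (.e (nat_lit 172115) (nat_lit 10) (.e (nat_lit 434231) (nat_lit 23) (.e (nat_lit 532528) (nat_lit 9) (.e (nat_lit 336286) (nat_lit 15) .nil)))))))) (.g (nat_lit 5) .nil .nil))))) (.nd (nat_lit 4) (.nd (nat_lit 5) 
(.lf (nat_lit 104206) (.g (nat_lit 5493) (.e (nat_lit 3631) (nat_lit 227) (.e (nat_lit 778317) (nat_lit 3) (.e (nat_lit 57477) (nat_lit 28) (.e (nat_lit 557108) (nat_lit 15) (.e (nat_lit 188449) (nat_lit 22) (.e (nat_lit 196679) (nat_lit 17) (.e (nat_lit 131133) (nat_lit 15) .nil))))))) (.g (nat_lit 5) .nil .nil))) 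
(.lf (nat_lit 104238) (.g (nat_lit 3286) (.e (nat_lit 3631) (nat_lit 227) (.e (nat_lit 778317) (nat_lit 3) (.e (nat_lit 57479) (nat_lit 28) (.e (nat_lit 557101) (nat_lit 13) (.e (nat_lit 172097) (nat_lit 9) (.e (nat_lit 426140) (nat_lit 3) (.e (nat_lit 204855) (nat_lit 26) (.e (nat_lit 336294) (nat_lit 15) .nil)))))))) (.g (nat_lit 5) .nil .nil)))) (.nd (nat_lit 5) 
(.lf (nat_lit 104222) (.g (nat_lit 3955) (.e (nat_lit 3631) (nat_lit 227) (.e (nat_lit 778317) (nat_lit 3) (.e (nat_lit 57477) (nat_lit 28) (.e (nat_lit 557108) (nat_lit 15) (.e (nat_lit 188452) (nat_lit 23) (.e (nat_lit 204855) (nat_lit 26) (.e (nat_lit 336294) (nat_lit 15) .nil))))))) (.g (nat_lit 6) .nil .nil))) 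
(.lf (nat_lit 104254) (.g (nat_lit 402) (.e (nat_lit 3631) (nat_lit 227) (.e (nat_lit 778317) (nat_lit 3) (.e (nat_lit 57480) (nat_lit 28) .nil))) .nil))))))) (.nd (nat_lit 1) (.nd (nat_lit 2) (.nd (nat_lit 3) (.nd (nat_lit 4) (.nd (nat_lit 5) 
(.lf (nat_lit 104193) (.g (nat_lit 3706) (.e (nat_lit 3631) (nat_lit 227) (.e (nat_lit 778317) (nat_lit 3) (.e (nat_lit 57477) (nat_lit 28) (.e (nat_lit 557107) (nat_lit 15) (.e (nat_lit 188450) (nat_lit 23) (.e (nat_lit 204852) (nat_lit 26) (.e (nat_lit 336262) (nat_lit 15) .nil))))))) (.g (nat_lit 6) .nil .nil))) 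
(.lf (nat_lit 104225) (.g (nat_lit 4134) (.e (nat_lit 3631) (nat_lit 227) (.e (nat_lit 778317) (nat_lit 3) (.e (nat_lit 57477) (nat_lit 28) (.e (nat_lit 557108) (nat_lit 15) (.e (nat_lit 188452) (nat_lit 23) (.e (nat_lit 204859) (nat_lit 26) (.e (nat_lit 336300) (nat_lit 15) .nil))))))) (.g (nat_lit 6) .nil .nil)))) (.nd (nat_lit 5) 
(.lf (nat_lit 104209) (.g (nat_lit 3384) (.e (nat_lit 3631) (nat_lit 227) (.e (nat_lit 778317) (nat_lit 3) (.e (nat_lit 57477) (nat_lit 28) (.e (nat_lit 557108) (nat_lit 15) (.e (nat_lit 188452) (nat_lit 23) (.e (nat_lit 204851) (nat_lit 26) (.e (nat_lit 336263) (nat_lit 15) .nil))))))) (.g (nat_lit 6) .nil .nil))) 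
(.lf (nat_lit 104241) (.g (nat_lit 4403) (.e (nat_lit 3631) (nat_lit 227) (.e (nat_lit 778317) (nat_lit 3) (.e (nat_lit 57479) (nat_lit 28) (.e (nat_lit 557101) (nat_lit 13) (.e (nat_lit 172115) (nat_lit 10) (.e (nat_lit 434231) (nat_lit 23) (.e (nat_lit 532528) (nat_lit 9) (.e (nat_lit 336263) (nat_lit 15) .nil)))))))) (.g (nat_lit 7) .nil .nil))))) (.nd (nat_lit 4) (.nd (nat_lit 5) 
(.lf (nat_lit 104201) (.g (nat_lit 1579) (.e (nat_lit 3631) (nat_lit 227) (.e (nat_lit 778317) (nat_lit 3) (.e (nat_lit 57477) (nat_lit 28) (.e (nat_lit 557107) (nat_lit 15) (.e (nat_lit 188450) (nat_lit 23) (.e (nat_lit 204858) (nat_lit 26) (.e (nat_lit 336291) (nat_lit 15) .nil))))))) (.g (nat_lit 4) .nil .nil))) 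
(.lf (nat_lit 104233) (.g (nat_lit 3229) (.e (nat_lit 3631) (nat_lit 227) (.e (nat_lit 778317) (nat_lit 3) (.e (nat_lit 57479) (nat_lit 28) (.e (nat_lit 557095) (nat_lit 13) (.e (nat_lit 172115) (nat_lit 10) (.e (nat_lit 434231) (nat_lit 23) (.e (nat_lit 532535) (nat_lit 9) (.e (nat_lit 336295) (nat_lit 15) .nil)))))))) (.g (nat_lit 4) .nil .nil)))) (.nd (nat_lit 5) 
(.lf (nat_lit 104217) (.g (nat_lit 3758) (.e (nat_lit 3631) (nat_lit 227) (.e (nat_lit 778317) (nat_lit 3) (.e (nat_lit 57477) (nat_lit 28) (.e (nat_lit 557108) (nat_lit 15) (.e (nat_lit 188452) (nat_lit 23) (.e (nat_lit 204852) (nat_lit 26) (.e (nat_lit 336269) (nat_lit 15) .nil))))))) (.g (nat_lit 6) .nil .nil))) 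
(.lf (nat_lit 104249) (.g (nat_lit 3559) (.e (nat_lit 3631) (nat_lit 227) (.e (nat_lit 778317) (nat_lit 3) (.e (nat_lit 57479) (nat_lit 28) (.e (nat_lit 557101) (nat_lit 13) (.e (nat_lit 172115) (nat_lit 10) (.e (nat_lit 434231) (nat_lit 23) (.e (nat_lit 532531) (nat_lit 9) (.e (nat_lit 336263) (nat_lit 15) .nil)))))))) (.g (nat_lit 6) .nil .nil)))))) 
(.nd (nat_lit 3) (.nd (nat_lit 4) (.nd (nat_lit 5) 
(.lf (nat_lit 104197) (.g (nat_lit 3552) (.e (nat_lit 3631) (nat_lit 227) (.e (nat_lit 778317) (nat_lit 3) (.e (nat_lit 57477) (nat_lit 28) (.e (nat_lit 557107) (nat_lit 15) (.e (nat_lit 188450) (nat_lit 23) (.e (nat_lit 204852) (nat_lit 26) (.e (nat_lit 336297) (nat_lit 15) .nil))))))) (.g (nat_lit 7) .nil .nil))) 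
(.lf (nat_lit 104229) (.g (nat_lit 3096) (.e (nat_lit 3631) (nat_lit 227) (.e (nat_lit 778317) (nat_lit 3) (.e (nat_lit 57479) (nat_lit 28) (.e (nat_lit 557095) (nat_lit 13) (.e (nat_lit 172097) (nat_lit 9) .nil))))) .nil))) (.nd (nat_lit 5) 
(.lf (nat_lit 104213) (.g (nat_lit 2998) (.e (nat_lit 3631) (nat_lit 227) (.e (nat_lit 778317) (nat_lit 3) (.e (nat_lit 57477) (nat_lit 28) (.e (nat_lit 557108) (nat_lit 15) (.e (nat_lit 188452) (nat_lit 23) (.e (nat_lit 204851) (nat_lit 26) (.e (nat_lit 336301) (nat_lit 15) .nil))))))) (.g (nat_lit 5) .nil .nil))) 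
(.lf (nat_lit 104245) (.g (nat_lit 4311) (.e (nat_lit 3631) (nat_lit 227) (.e (nat_lit 778317) (nat_lit 3) (.e (nat_lit 57479) (nat_lit 28) (.e (nat_lit 557101) (nat_lit 13) (.e (nat_lit 172115) (nat_lit 10) (.e (nat_lit 434231) (nat_lit 23) (.e (nat_lit 532528) (nat_lit 9) (.e (nat_lit 336285) (nat_lit 15) .nil)))))))) (.g (nat_lit 6) .nil .nil))))) (.nd (nat_lit 4) (.nd (nat_lit 5) 
(.lf (nat_lit 104205) (.g (nat_lit 4169) (.e (nat_lit 3631) (nat_lit 227) (.e (nat_lit 778317) (nat_lit 3) (.e (nat_lit 57477) (nat_lit 28) (.e (nat_lit 557108) (nat_lit 15) (.e (nat_lit 188449) (nat_lit 22) (.e (nat_lit 196666) (nat_lit 13) (.e (nat_lit 65641) (nat_lit 15) .nil))))))) (.g (nat_lit 6) .nil .nil))) 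
(.lf (nat_lit 104237) (.g (nat_lit 4467) (.e (nat_lit 3631) (nat_lit 227) (.e (nat_lit 778317) (nat_lit 3) (.e (nat_lit 57479) (nat_lit 28) (.e (nat_lit 557101) (nat_lit 13) (.e (nat_lit 172097) (nat_lit 9) (.e (nat_lit 426140) (nat_lit 3) (.e (nat_lit 204855) (nat_lit 26) (.e (nat_lit 336291) (nat_lit 15) .nil)))))))) (.g (nat_lit 7) .nil .nil)))) (.nd (nat_lit 5) 
(.lf (nat_lit 104221) (.g (nat_lit 3787) (.e (nat_lit 3631) (nat_lit 227) (.e (nat_lit 778317) (nat_lit 3) (.e (nat_lit 57477) (nat_lit 28) (.e (nat_lit 557108) (nat_lit 15) (.e (nat_lit 188452) (nat_lit 23) (.e (nat_lit 204855) (nat_lit 26) (.e (nat_lit 336291) (nat_lit 15) .nil))))))) (.g (nat_lit 0) .nil .nil))) 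
(.lf (nat_lit 104253) (.g (nat_lit 5283) (.e (nat_lit 3631) (nat_lit 227) (.e (nat_lit 778317) (nat_lit 3) (.e (nat_lit 57479) (nat_lit 28) (.e (nat_lit 557101) (nat_lit 13) (.e (nat_lit 172115) (nat_lit 10) (.e (nat_lit 434231) (nat_lit 23) (.e (nat_lit 532535) (nat_lit 9) (.e (nat_lit 336291) (nat_lit 15) .nil)))))))) (.g (nat_lit 8) .nil .nil))))))) 
(.nd (nat_lit 2) (.nd (nat_lit 3) (.nd (nat_lit 4) (.nd (nat_lit 5) 
(.lf (nat_lit 104195) (.g (nat_lit 3676) (.e (nat_lit 3631) (nat_lit 227) (.e (nat_lit 778317) (nat_lit 3) (.e (nat_lit 57477) (nat_lit 28) (.e (nat_lit 557107) (nat_lit 15) (.e (nat_lit 188450) (nat_lit 23) (.e (nat_lit 204852) (nat_lit 26) (.e (nat_lit 336265) (nat_lit 15) .nil))))))) (.g (nat_lit 6) .nil .nil))) 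
(.lf (nat_lit 104227) (.g (nat_lit 2258) (.e (nat_lit 3631) (nat_lit 227) (.e (nat_lit 778317) (nat_lit 3) (.e (nat_lit 57477) (nat_lit 28) (.e (nat_lit 557108) (nat_lit 15) (.e (nat_lit 188458) (nat_lit 25) (.e (nat_lit 245790) (nat_lit 13) (.e (nat_lit 65641) (nat_lit 15) .nil))))))) (.g (nat_lit 4) .nil .nil)))) (.nd (nat_lit 5) 
(.lf (nat_lit 104211) (.g (nat_lit 3448) (.e (nat_lit 3631) (nat_lit 227) (.e (nat_lit 778317) (nat_lit 3) (.e (nat_lit 57477) (nat_lit 28) (.e (nat_lit 557108) (nat_lit 15) (.e (nat_lit 188452) (nat_lit 23) (.e (nat_lit 204851) (nat_lit 26) (.e (nat_lit 336269) (nat_lit 15) .nil))))))) (.g (nat_lit 5) .nil .nil))) 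
(.lf (nat_lit 104243) (.g (nat_lit 4086) (.e (nat_lit 3631) (nat_lit 227) (.e (nat_lit 778317) (nat_lit 3) (.e (nat_lit 57479) (nat_lit 28) (.e (nat_lit 557101) (nat_lit 13) (.e (nat_lit 172115) (nat_lit 10) (.e (nat_lit 434231) (nat_lit 23) (.e (nat_lit 532528) (nat_lit 9) (.e (nat_lit 336269) (nat_lit 15) .nil)))))))) (.g (nat_lit 6) .nil .nil))))) (.nd (nat_lit 4) (.nd (nat_lit 5) 
(.lf (nat_lit 104203) (.g (nat_lit 1805) (.e (nat_lit 3631) (nat_lit 227) (.e (nat_lit 778317) (nat_lit 3) (.e (nat_lit 57477) (nat_lit 28) (.e (nat_lit 557107) (nat_lit 15) (.e (nat_lit 188450) (nat_lit 23) (.e (nat_lit 204859) (nat_lit 26) (.e (nat_lit 336300) (nat_lit 15) .nil))))))) (.g (nat_lit 4) .nil .nil))) 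
(.lf (nat_lit 104235) (.g (nat_lit 2320) (.e (nat_lit 3631) (nat_lit 227) (.e (nat_lit 778317) (nat_lit 3) (.e (nat_lit 57479) (nat_lit 28) (.e (nat_lit 557101) (nat_lit 13) (.e (nat_lit 172097) (nat_lit 9) (.e (nat_lit 426140) (nat_lit 3) (.e (nat_lit 204855) (nat_lit 26) (.e (nat_lit 336267) (nat_lit 15) .nil)))))))) (.g (nat_lit 4) .nil .nil)))) (.nd (nat_lit 5) 
(.lf (nat_lit 104219) (.g (nat_lit 4363) (.e (nat_lit 3631) (nat_lit 227) (.e (nat_lit 778317) (nat_lit 3) (.e (nat_lit 57477) (nat_lit 28) (.e (nat_lit 557108) (nat_lit 15) (.e (nat_lit 188452) (nat_lit 23) (.e (nat_lit 204852) (nat_lit 26) (.e (nat_lit 336301) (nat_lit 15) .nil))))))) (.g (nat_lit 6) .nil .nil))) 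
(.lf (nat_lit 104251) (.g (nat_lit 2902) (.e (nat_lit 3631) (nat_lit 227) (.e (nat_lit 778317) (nat_lit 3) (.e (nat_lit 57479) (nat_lit 28) (.e (nat_lit 557101) (nat_lit 13) (.e (nat_lit 172115) (nat_lit 10) (.e (nat_lit 434231) (nat_lit 23) (.e (nat_lit 532531) (nat_lit 9) (.e (nat_lit 336269) (nat_lit 15) .nil)))))))) (.g (nat_lit 5) .nil .nil)))))) 
(.nd (nat_lit 3) (.nd (nat_lit 4) (.nd (nat_lit 5) 
(.lf (nat_lit 104199) (.g (nat_lit 3563) (.e (nat_lit 3631) (nat_lit 227) (.e (nat_lit 778317) (nat_lit 3) (.e (nat_lit 57477) (nat_lit 28) (.e (nat_lit 557107) (nat_lit 15) (.e (nat_lit 188450) (nat_lit 23) (.e (nat_lit 204855) (nat_lit 26) (.e (nat_lit 336291) (nat_lit 15) .nil))))))) (.g (nat_lit 6) .nil .nil))) 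
(.lf (nat_lit 104231) (.g (nat_lit 2935) (.e (nat_lit 3631) (nat_lit 227) (.e (nat_lit 778317) (nat_lit 3) (.e (nat_lit 57479) (nat_lit 28) (.e (nat_lit 557095) (nat_lit 13) (.e (nat_lit 172115) (nat_lit 10) .nil))))) .nil))) (.nd (nat_lit 5) 
(.lf (nat_lit 104215) (.g (nat_lit 4432) (.e (nat_lit 3631) (nat_lit 227) (.e (nat_lit 778317) (nat_lit 3) (.e (nat_lit 57477) (nat_lit 28) (.e (nat_lit 557108) (nat_lit 15) (.e (nat_lit 188452) (nat_lit 23) (.e (nat_lit 204852) (nat_lit 26) (.e (nat_lit 336263) (nat_lit 15) .nil))))))) (.g (nat_lit 6) .nil .nil))) 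
(.lf (nat_lit 104247) (.g (nat_lit 3841) (.e (nat_lit 3631) (nat_lit 227) (.e (nat_lit 778317) (nat_lit 3) (.e (nat_lit 57479) (nat_lit 28) (.e (nat_lit 557101) (nat_lit 13) (.e (nat_lit 172115) (nat_lit 10) (.e (nat_lit 434231) (nat_lit 23) (.e (nat_lit 532528) (nat_lit 9) (.e (nat_lit 336301) (nat_lit 15) .nil)))))))) (.g (nat_lit 6) .nil .nil))))) (.nd (nat_lit 4) (.nd (nat_lit 5) 
(.lf (nat_lit 104207) (.g (nat_lit 5595) (.e (nat_lit 3631) (nat_lit 227) (.e (nat_lit 778317) (nat_lit 3) (.e (nat_lit 57477) (nat_lit 28) (.e (nat_lit 557108) (nat_lit 15) (.e (nat_lit 188449) (nat_lit 22) (.e (nat_lit 196680) (nat_lit 17) (.e (nat_lit 131133) (nat_lit 15) .nil))))))) (.g (nat_lit 5) .nil .nil))) 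
(.lf (nat_lit 104239) (.g (nat_lit 2323) (.e (nat_lit 3631) (nat_lit 227) (.e (nat_lit 778317) (nat_lit 3) (.e (nat_lit 57479) (nat_lit 28) (.e (nat_lit 557101) (nat_lit 13) (.e (nat_lit 172097) (nat_lit 9) (.e (nat_lit 426140) (nat_lit 3) (.e (nat_lit 204859) (nat_lit 26) (.e (nat_lit 336300) (nat_lit 15) .nil)))))))) (.g (nat_lit 4) .nil .nil)))) (.nd (nat_lit 5) 
(.lf (nat_lit 104223) (.g (nat_lit 3042) (.e (nat_lit 3631) (nat_lit 227) (.e (nat_lit 778317) (nat_lit 3) (.e (nat_lit 57477) (nat_lit 28) (.e (nat_lit 557108) (nat_lit 15) (.e (nat_lit 188452) (nat_lit 23) (.e (nat_lit 204856) (nat_lit 26) (.e (nat_lit 336292) (nat_lit 15) .nil))))))) (.g (nat_lit 5) .nil .nil))) 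
(.lf (nat_lit 104255) (.g (nat_lit 4873) (.e (nat_lit 3631) (nat_lit 227) (.e (nat_lit 778317) (nat_lit 3) (.e (nat_lit 57480) (nat_lit 28) (.e (nat_lit 557096) (nat_lit 13) (.e (nat_lit 172106) (nat_lit 10) (.e (nat_lit 434231) (nat_lit 23) (.e (nat_lit 532535) (nat_lit 9) (.e (nat_lit 336295) (nat_lit 15) .nil)))))))) (.g (nat_lit 7) .nil .nil)))))))))

noncomputable def tv1424 : DT := (.nd (nat_lit 0) (.nd (nat_lit 1) (.nd (nat_lit 2) (.nd (nat_lit 3) (.nd (nat_lit 4) (.nd (nat_lit 5) 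
(.lf (nat_lit 104256) (.g (nat_lit 2593) (.e (nat_lit 3631) (nat_lit 227) (.e (nat_lit 778317) (nat_lit 3) (.e (nat_lit 57480) (nat_lit 28) (.e (nat_lit 557097) (nat_lit 13) (.e (nat_lit 172097) (nat_lit 9) .nil))))) .nil)) 
(.lf (nat_lit 104288) (.g (nat_lit 3599) (.e (nat_lit 3631) (nat_lit 227) (.e (nat_lit 778317) (nat_lit 3) (.e (nat_lit 57480) (nat_lit 28) (.e (nat_lit 557107) (nat_lit 15) (.e (nat_lit 188450) (nat_lit 23) (.e (nat_lit 204852) (nat_lit 26) (.e (nat_lit 336269) (nat_lit 15) .nil))))))) (.g (nat_lit 6) .nil .nil)))) (.nd (nat_lit 5) 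
(.lf (nat_lit 104272) (.g (nat_lit 3523) (.e (nat_lit 3631) (nat_lit 227) (.e (nat_lit 778317) (nat_lit 3) (.e (nat_lit 57480) (nat_lit 28) (.e (nat_lit 557098) (nat_lit 13) (.e (nat_lit 172115) (nat_lit 10) (.e (nat_lit 434231) (nat_lit 23) (.e (nat_lit 532531) (nat_lit 9) (.e (nat_lit 336265) (nat_lit 15) .nil)))))))) (.g (nat_lit 6) .nil .nil))) 
(.lf (nat_lit 104304) (.g (nat_lit 3732) (.e (nat_lit 3631) (nat_lit 227) (.e (nat_lit 778317) (nat_lit 3) (.e (nat_lit 57480) (nat_lit 28) (.e (nat_lit 557108) (nat_lit 15) (.e (nat_lit 188452) (nat_lit 23) (.e (nat_lit 204851) (nat_lit 26) (.e (nat_lit 336285) (nat_lit 15) .nil))))))) (.g (nat_lit 5) .nil .nil))))) (.nd (nat_lit 4) (.nd (nat_lit 5) 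
(.lf (nat_lit 104264) (.g (nat_lit 4472) (.e (nat_lit 3631) (nat_lit 227) (.e (nat_lit 778317) (nat_lit 3) (.e (nat_lit 57480) (nat_lit 28) (.e (nat_lit 557098) (nat_lit 13) (.e (nat_lit 172115) (nat_lit 10) (.e (nat_lit 434231) (nat_lit 23) (.e (nat_lit 532528) (nat_lit 9) (.e (nat_lit 336265) (nat_lit 15) .nil)))))))) (.g (nat_lit 6) .nil .nil))) 
(.lf (nat_lit 104296) (.g (nat_lit 2839) (.e (nat_lit 3631) (nat_lit 227) (.e (nat_lit 778317) (nat_lit 3) (.e (nat_lit 57480) (nat_lit 28) (.e (nat_lit 557107) (nat_lit 15) (.e (nat_lit 188450) (nat_lit 23) (.e (nat_lit 204858) (nat_lit 26) (.e (nat_lit 336292) (nat_lit 15) .nil))))))) (.g (nat_lit 5) .nil .nil)))) (.nd (nat_lit 5) 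
(.lf (nat_lit 104280) (.g (nat_lit 2851) (.e (nat_lit 3631) (nat_lit 227) (.e (nat_lit 778317) (nat_lit 3) (.e (nat_lit 57480) (nat_lit 28) (.e (nat_lit 557107) (nat_lit 15) (.e (nat_lit 188450) (nat_lit 23) (.e (nat_lit 204851) (nat_lit 26) (.e (nat_lit 336263) (nat_lit 15) .nil))))))) (.g (nat_lit 5) .nil .nil))) 
(.lf (nat_lit 104312) (.g (nat_lit 4070) (.e (nat_lit 3631) (nat_lit 227) (.e (nat_lit 778317) (nat_lit 3) (.e (nat_lit 57480) (nat_lit 28) (.e (nat_lit 557109) (nat_lit 15) (.e (nat_lit 188450) (nat_lit 23) (.e (nat_lit 204855) (nat_lit 26) (.e (nat_lit 336282) (nat_lit 15) .nil))))))) (.g (nat_lit 5) .nil .nil)))))) (.nd (nat_lit 3) (.nd (nat_lit 4) (.nd (nat_lit 5) 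
(.lf (nat_lit 104260) (.g (nat_lit 4332) (.e (nat_lit 3631) (nat_lit 227) (.e (nat_lit 778317) (nat_lit 3) (.e (nat_lit 57480) (nat_lit 28) (.e (nat_lit 557098) (nat_lit 13) (.e (nat_lit 172097) (nat_lit 9) (.e (nat_lit 426140) (nat_lit 3) (.e (nat_lit 204855) (nat_lit 26) (.e (nat_lit 336282) (nat_lit 15) .nil)))))))) (.g (nat_lit 7) .nil .nil))) 
(.lf (nat_lit 104292) (.g (nat_lit 3679) (.e (nat_lit 3631) (nat_lit 227) (.e (nat_lit 778317) (nat_lit 3) (.e (nat_lit 57480) (nat_lit 28) (.e (nat_lit 557107) (nat_lit 15) (.e (nat_lit 188450) (nat_lit 23) (.e (nat_lit 204855) (nat_lit 26) (.e (nat_lit 336282) (nat_lit 15) .nil))))))) (.g (nat_lit 6) .nil .nil)))) (.nd (nat_lit 5) 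
(.lf (nat_lit 104276) (.g (nat_lit 6827) (.e (nat_lit 3631) (nat_lit 227) (.e (nat_lit 778317) (nat_lit 3) (.e (nat_lit 57480) (nat_lit 28) (.e (nat_lit 557100) (nat_lit 13) (.e (nat_lit 172106) (nat_lit 10) (.e (nat_lit 434231) (nat_lit 23) (.e (nat_lit 532535) (nat_lit 9) (.e (nat_lit 336295) (nat_lit 15) .nil)))))))) (.g (nat_lit 8) .nil .nil))) 
(.lf (nat_lit 104308) (.g (nat_lit 2232) (.e (nat_lit 3631) (nat_lit 227) (.e (nat_lit 778317) (nat_lit 3) (.e (nat_lit 57480) (nat_lit 28) (.e (nat_lit 557109) (nat_lit 15) (.e (nat_lit 188426) (nat_lit 20) .nil))))) .nil)))) (.nd (nat_lit 4) (.nd (nat_lit 5) 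
(.lf (nat_lit 104268) (.g (nat_lit 3213) (.e (nat_lit 3631) (nat_lit 227) (.e (nat_lit 778317) (nat_lit 3) (.e (nat_lit 57480) (nat_lit 28) (.e (nat_lit 557098) (nat_lit 13) (.e (nat_lit 172115) (nat_lit 10) (.e (nat_lit 434231) (nat_lit 23) (.e (nat_lit 532528) (nat_lit 9) (.e (nat_lit 336286) (nat_lit 15) .nil)))))))) (.g (nat_lit 5) .nil .nil))) 
(.lf (nat_lit 104300) (.g (nat_lit 3325) (.e (nat_lit 3631) (nat_lit 227) (.e (nat_lit 778317) (nat_lit 3) (.e (nat_lit 57480) (nat_lit 28) (.e (nat_lit 557108) (nat_lit 15) (.e (nat_lit 188452) (nat_lit 23) (.e (nat_lit 204851) (nat_lit 26) (.e (nat_lit 336262) (nat_lit 15) .nil))))))) (.g (nat_lit 5) .nil .nil)))) (.nd (nat_lit 5) 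
(.lf (nat_lit 104284) (.g (nat_lit 2504) (.e (nat_lit 3631) (nat_lit 227) (.e (nat_lit 778317) (nat_lit 3) (.e (nat_lit 57480) (nat_lit 28) (.e (nat_lit 557107) (nat_lit 15) (.e (nat_lit 188450) (nat_lit 23) (.e (nat_lit 204851) (nat_lit 26) (.e (nat_lit 336301) (nat_lit 15) .nil))))))) (.g (nat_lit 5) .nil .nil))) 
(.lf (nat_lit 104316) (.g (nat_lit 4317) (.e (nat_lit 3631) (nat_lit 227) (.e (nat_lit 778317) (nat_lit 3) (.e (nat_lit 57480) (nat_lit 28) (.e (nat_lit 557109) (nat_lit 15) (.e (nat_lit 188452) (nat_lit 23) (.e (nat_lit 204851) (nat_lit 26) (.e (nat_lit 336265) (nat_lit 15) .nil))))))) (.g (nat_lit 5) .nil .nil))))))) (.nd (nat_lit 2) (.nd (nat_lit 3) (.nd (nat_lit 4) (.nd (nat_lit 5) 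
(.lf (nat_lit 104258) (.g (nat_lit 6117) (.e (nat_lit 3631) (nat_lit 227) (.e (nat_lit 778317) (nat_lit 3) (.e (nat_lit 57480) (nat_lit 28) (.e (nat_lit 557098) (nat_lit 13) (.e (nat_lit 172097) (nat_lit 9) (.e (nat_lit 426125) (nat_lit 2) (.e (nat_lit 196666) (nat_lit 13) (.e (nat_lit 65640) (nat_lit 15) .nil)))))))) (.g (nat_lit 0) .nil .nil))) 
(.lf (nat_lit 104290) (.g (nat_lit 4103) (.e (nat_lit 3631) (nat_lit 227) (.e (nat_lit 778317) (nat_lit 3) (.e (nat_lit 57480) (nat_lit 28) (.e (nat_lit 557107) (nat_lit 15) (.e (nat_lit 188450) (nat_lit 23) (.e (nat_lit 204852) (nat_lit 26) (.e (nat_lit 336297) (nat_lit 15) .nil))))))) (.g (nat_lit 7) .nil .nil)))) (.nd (nat_lit 5) 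
(.lf (nat_lit 104274) (.g (nat_lit 2954) (.e (nat_lit 3631) (nat_lit 227) (.e (nat_lit 778317) (nat_lit 3) (.e (nat_lit 57480) (nat_lit 28) (.e (nat_lit 557098) (nat_lit 13) (.e (nat_lit 172115) (nat_lit 10) (.e (nat_lit 434231) (nat_lit 23) (.e (nat_lit 532531) (nat_lit 9) (.e (nat_lit 336285) (nat_lit 15) .nil)))))))) (.g (nat_lit 5) .nil .nil))) 
(.lf (nat_lit 104306) (.g (nat_lit 4465) (.e (nat_lit 3631) (nat_lit 227) (.e (nat_lit 778317) (nat_lit 3) (.e (nat_lit 57480) (nat_lit 28) (.e (nat_lit 557108) (nat_lit 15) (.e (nat_lit 188452) (nat_lit 23) (.e (nat_lit 204852) (nat_lit 26) (.e (nat_lit 336297) (nat_lit 15) .nil))))))) (.g (nat_lit 5) .nil .nil))))) (.nd (nat_lit 4) (.nd (nat_lit 5) 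
(.lf (nat_lit 104266) (.g (nat_lit 3225) (.e (nat_lit 3631) (nat_lit 227) (.e (nat_lit 778317) (nat_lit 3) (.e (nat_lit 57480) (nat_lit 28) (.e (nat_lit 557098) (nat_lit 13) (.e (nat_lit 172115) (nat_lit 10) (.e (nat_lit 434231) (nat_lit 23) (.e (nat_lit 532528) (nat_lit 9) (.e (nat_lit 336270) (nat_lit 15) .nil)))))))) (.g (nat_lit 5) .nil .nil))) 
(.lf (nat_lit 104298) (.g (nat_lit 2374) (.e (nat_lit 3631) (nat_lit 227) (.e (nat_lit 778317) (nat_lit 3) (.e (nat_lit 57480) (nat_lit 28) (.e (nat_lit 557107) (nat_lit 15) (.e (nat_lit 188450) (nat_lit 23) (.e (nat_lit 204859) (nat_lit 26) (.e (nat_lit 336300) (nat_lit 15) .nil))))))) (.g (nat_lit 4) .nil .nil)))) (.nd (nat_lit 5) 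
(.lf (nat_lit 104282) (.g (nat_lit 2931) (.e (nat_lit 3631) (nat_lit 227) (.e (nat_lit 778317) (nat_lit 3) (.e (nat_lit 57480) (nat_lit 28) (.e (nat_lit 557107) (nat_lit 15) (.e (nat_lit 188450) (nat_lit 23) (.e (nat_lit 204851) (nat_lit 26) (.e (nat_lit 336269) (nat_lit 15) .nil))))))) (.g (nat_lit 5) .nil .nil))) 
(.lf (nat_lit 104314) (.g (nat_lit 3727) (.e (nat_lit 3631) (nat_lit 227) (.e (nat_lit 778317) (nat_lit 3) (.e (nat_lit 57480) (nat_lit 28) (.e (nat_lit 557109) (nat_lit 15) (.e (nat_lit 188452) (nat_lit 23) (.e (nat_lit 204851) (nat_lit 26) (.e (nat_lit 336262) (nat_lit 15) .nil))))))) (.g (nat_lit 5) .nil .nil)))))) (.nd (nat_lit 3) (.nd (nat_lit 4) (.nd (nat_lit 5) 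
(.lf (nat_lit 104262) (.g (nat_lit 3237) (.e (nat_lit 3631) (nat_lit 227) (.e (nat_lit 778317) (nat_lit 3) (.e (nat_lit 57480) (nat_lit 28) (.e (nat_lit 557098) (nat_lit 13) (.e (nat_lit 172097) (nat_lit 9) (.e (nat_lit 426140) (nat_lit 3) (.e (nat_lit 204855) (nat_lit 26) (.e (nat_lit 336294) (nat_lit 15) .nil)))))))) (.g (nat_lit 5) .nil .nil))) 
(.lf (nat_lit 104294) (.g (nat_lit 3050) (.e (nat_lit 3631) (nat_lit 227) (.e (nat_lit 778317) (nat_lit 3) (.e (nat_lit 57480) (nat_lit 28) (.e (nat_lit 557107) (nat_lit 15) (.e (nat_lit 188450) (nat_lit 23) (.e (nat_lit 204855) (nat_lit 26) (.e (nat_lit 336294) (nat_lit 15) .nil))))))) (.g (nat_lit 5) .nil .nil)))) (.nd (nat_lit 5) 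
(.lf (nat_lit 104278) (.g (nat_lit 4272) (.e (nat_lit 3631) (nat_lit 227) (.e (nat_lit 778317) (nat_lit 3) (.e (nat_lit 57480) (nat_lit 28) (.e (nat_lit 557107) (nat_lit 15) (.e (nat_lit 188447) (nat_lit 22) (.e (nat_lit 196666) (nat_lit 13) (.e (nat_lit 65641) (nat_lit 15) .nil))))))) (.g (nat_lit 6) .nil .nil))) 
(.lf (nat_lit 104310) (.g (nat_lit 4919) (.e (nat_lit 3631) (nat_lit 227) (.e (nat_lit 778317) (nat_lit 3) (.e (nat_lit 57480) (nat_lit 28) (.e (nat_lit 557109) (nat_lit 15) (.e (nat_lit 188449) (nat_lit 22) (.e (nat_lit 196666) (nat_lit 13) (.e (nat_lit 65641) (nat_lit 15) .nil))))))) (.g (nat_lit 6) .nil .nil))))) (.nd (nat_lit 4) (.nd (nat_lit 5) 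
(.lf (nat_lit 104270) (.g (nat_lit 4887) (.e (nat_lit 3631) (nat_lit 227) (.e (nat_lit 778317) (nat_lit 3) (.e (nat_lit 57480) (nat_lit 28) (.e (nat_lit 557098) (nat_lit 13) (.e (nat_lit 172115) (nat_lit 10) (.e (nat_lit 434231) (nat_lit 23) (.e (nat_lit 532529) (nat_lit 9) (.e (nat_lit 336297) (nat_lit 15) .nil)))))))) (.g (nat_lit 7) .nil .nil))) 
(.lf (nat_lit 104302) (.g (nat_lit 3915) (.e (nat_lit 3631) (nat_lit 227) (.e (nat_lit 778317) (nat_lit 3) (.e (nat_lit 57480) (nat_lit 28) (.e (nat_lit 557108) (nat_lit 15) (.e (nat_lit 188452) (nat_lit 23) (.e (nat_lit 204851) (nat_lit 26) (.e (nat_lit 336265) (nat_lit 15) .nil))))))) (.g (nat_lit 5) .nil .nil)))) (.nd (nat_lit 5) 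
(.lf (nat_lit 104286) (.g (nat_lit 4087) (.e (nat_lit 3631) (nat_lit 227) (.e (nat_lit 778317) (nat_lit 3) (.e (nat_lit 57480) (nat_lit 28) (.e (nat_lit 557107) (nat_lit 15) (.e (nat_lit 188450) (nat_lit 23) (.e (nat_lit 204852) (nat_lit 26) (.e (nat_lit 336263) (nat_lit 15) .nil))))))) (.g (nat_lit 6) .nil .nil))) 
(.lf (nat_lit 104318) (.g (nat_lit 4134) (.e (nat_lit 3631) (nat_lit 227) (.e (nat_lit 778317) (nat_lit 3) (.e (nat_lit 57480) (nat_lit 28) (.e (nat_lit 557109) (nat_lit 15) (.e (nat_lit 188452) (nat_lit 23) (.e (nat_lit 204851) (nat_lit 26) (.e (nat_lit 336285) (nat_lit 15) .nil))))))) (.g (nat_lit 5) .nil .nil)))))))) 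
(.nd (nat_lit 1) (.nd (nat_lit 2) (.nd (nat_lit 3) (.nd (nat_lit 4) (.nd (nat_lit 5) 
(.lf (nat_lit 104257) (.g (nat_lit 2669) (.e (nat_lit 3631) (nat_lit 227) (.e (nat_lit 778317) (nat_lit 3) (.e (nat_lit 57480) (nat_lit 28) (.e (nat_lit 557097) (nat_lit 13) (.e (nat_lit 172105) (nat_lit 10) .nil))))) .nil)) 
(.lf (nat_lit 104289) (.g (nat_lit 4282) (.e (nat_lit 3631) (nat_lit 227) (.e (nat_lit 778317) (nat_lit 3) (.e (nat_lit 57480) (nat_lit 28) (.e (nat_lit 557107) (nat_lit 15) (.e (nat_lit 188450) (nat_lit 23) (.e (nat_lit 204852) (nat_lit 26) (.e (nat_lit 336285) (nat_lit 15) .nil))))))) (.g (nat_lit 6) .nil .nil)))) (.nd (nat_lit 5) 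
(.lf (nat_lit 104273) (.g (nat_lit 2926) (.e (nat_lit 3631) (nat_lit 227) (.e (nat_lit 778317) (nat_lit 3) (.e (nat_lit 57480) (nat_lit 28) (.e (nat_lit 557098) (nat_lit 13) (.e (nat_lit 172115) (nat_lit 10) (.e (nat_lit 434231) (nat_lit 23) (.e (nat_lit 532531) (nat_lit 9) (.e (nat_lit 336269) (nat_lit 15) .nil)))))))) (.g (nat_lit 5) .nil .nil))) 
(.lf (nat_lit 104305) (.g (nat_lit 3295) (.e (nat_lit 3631) (nat_lit 227) (.e (nat_lit 778317) (nat_lit 3) (.e (nat_lit 57480) (nat_lit 28) (.e (nat_lit 557108) (nat_lit 15) (.e (nat_lit 188452) (nat_lit 23) (.e (nat_lit 204851) (nat_lit 26) (.e (nat_lit 336301) (nat_lit 15) .nil))))))) (.g (nat_lit 5) .nil .nil))))) (.nd (nat_lit 4) (.nd (nat_lit 5) 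
(.lf (nat_lit 104265) (.g (nat_lit 4225) (.e (nat_lit 3631) (nat_lit 227) (.e (nat_lit 778317) (nat_lit 3) (.e (nat_lit 57480) (nat_lit 28) (.e (nat_lit 557098) (nat_lit 13) (.e (nat_lit 172115) (nat_lit 10) (.e (nat_lit 434231) (nat_lit 23) (.e (nat_lit 532528) (nat_lit 9) (.e (nat_lit 336269) (nat_lit 15) .nil)))))))) (.g (nat_lit 6) .nil .nil))) 
(.lf (nat_lit 104297) (.g (nat_lit 2896) (.e (nat_lit 3631) (nat_lit 227) (.e (nat_lit 778317) (nat_lit 3) (.e (nat_lit 57480) (nat_lit 28) (.e (nat_lit 557107) (nat_lit 15) (.e (nat_lit 188450) (nat_lit 23) (.e (nat_lit 204858) (nat_lit 26) (.e (nat_lit 336295) (nat_lit 15) .nil))))))) (.g (nat_lit 5) .nil .nil)))) (.nd (nat_lit 5) 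
(.lf (nat_lit 104281) (.g (nat_lit 3101) (.e (nat_lit 3631) (nat_lit 227) (.e (nat_lit 778317) (nat_lit 3) (.e (nat_lit 57480) (nat_lit 28) (.e (nat_lit 557107) (nat_lit 15) (.e (nat_lit 188450) (nat_lit 23) (.e (nat_lit 204851) (nat_lit 26) (.e (nat_lit 336265) (nat_lit 15) .nil))))))) (.g (nat_lit 5) .nil .nil))) 
(.lf (nat_lit 104313) (.g (nat_lit 4610) (.e (nat_lit 3631) (nat_lit 227) (.e (nat_lit 778317) (nat_lit 3) (.e (nat_lit 57480) (nat_lit 28) (.e (nat_lit 557109) (nat_lit 15) (.e (nat_lit 188450) (nat_lit 23) (.e (nat_lit 204855) (nat_lit 26) (.e (nat_lit 336295) (nat_lit 15) .nil))))))) (.g (nat_lit 6) .nil .nil)))))) (.nd (nat_lit 3) (.nd (nat_lit 4) (.nd (nat_lit 5) 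
(.lf (nat_lit 104261) (.g (nat_lit 4400) (.e (nat_lit 3631) (nat_lit 227) (.e (nat_lit 778317) (nat_lit 3) (.e (nat_lit 57480) (nat_lit 28) (.e (nat_lit 557098) (nat_lit 13) (.e (nat_lit 172097) (nat_lit 9) (.e (nat_lit 426140) (nat_lit 3) (.e (nat_lit 204855) (nat_lit 26) (.e (nat_lit 336291) (nat_lit 15) .nil)))))))) (.g (nat_lit 7) .nil .nil))) 
(.lf (nat_lit 104293) (.g (nat_lit 4131) (.e (nat_lit 3631) (nat_lit 227) (.e (nat_lit 778317) (nat_lit 3) (.e (nat_lit 57480) (nat_lit 28) (.e (nat_lit 557107) (nat_lit 15) (.e (nat_lit 188450) (nat_lit 23) (.e (nat_lit 204855) (nat_lit 26) (.e (nat_lit 336291) (nat_lit 15) .nil))))))) (.g (nat_lit 6) .nil .nil)))) (.nd (nat_lit 5) 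
(.lf (nat_lit 104277) (.g (nat_lit 3935) (.e (nat_lit 3631) (nat_lit 227) (.e (nat_lit 778317) (nat_lit 3) (.e (nat_lit 57480) (nat_lit 28) (.e (nat_lit 557107) (nat_lit 15) (.e (nat_lit 188447) (nat_lit 22) (.e (nat_lit 196666) (nat_lit 13) (.e (nat_lit 65640) (nat_lit 15) .nil))))))) (.g (nat_lit 6) .nil .nil))) 
(.lf (nat_lit 104309) (.g (nat_lit 4663) (.e (nat_lit 3631) (nat_lit 227) (.e (nat_lit 778317) (nat_lit 3) (.e (nat_lit 57480) (nat_lit 28) (.e (nat_lit 557109) (nat_lit 15) (.e (nat_lit 188449) (nat_lit 22) (.e (nat_lit 196666) (nat_lit 13) (.e (nat_lit 65640) (nat_lit 15) .nil))))))) (.g (nat_lit 7) .nil .nil))))) (.nd (nat_lit 4) (.nd (nat_lit 5) 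
(.lf (nat_lit 104269) (.g (nat_lit 3980) (.e (nat_lit 3631) (nat_lit 227) (.e (nat_lit 778317) (nat_lit 3) (.e (nat_lit 57480) (nat_lit 28) (.e (nat_lit 557098) (nat_lit 13) (.e (nat_lit 172115) (nat_lit 10) (.e (nat_lit 434231) (nat_lit 23) (.e (nat_lit 532528) (nat_lit 9) (.e (nat_lit 336301) (nat_lit 15) .nil)))))))) (.g (nat_lit 6) .nil .nil))) 
(.lf (nat_lit 104301) (.g (nat_lit 3680) (.e (nat_lit 3631) (nat_lit 227) (.e (nat_lit 778317) (nat_lit 3) (.e (nat_lit 57480) (nat_lit 28) (.e (nat_lit 557108) (nat_lit 15) (.e (nat_lit 188452) (nat_lit 23) (.e (nat_lit 204851) (nat_lit 26) (.e (nat_lit 336263) (nat_lit 15) .nil))))))) (.g (nat_lit 5) .nil .nil)))) (.nd (nat_lit 5) 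
(.lf (nat_lit 104285) (.g (nat_lit 4248) (.e (nat_lit 3631) (nat_lit 227) (.e (nat_lit 778317) (nat_lit 3) (.e (nat_lit 57480) (nat_lit 28) (.e (nat_lit 557107) (nat_lit 15) (.e (nat_lit 188450) (nat_lit 23) (.e (nat_lit 204852) (nat_lit 26) (.e (nat_lit 336262) (nat_lit 15) .nil))))))) (.g (nat_lit 6) .nil .nil))) 
(.lf (nat_lit 104317) (.g (nat_lit 4147) (.e (nat_lit 3631) (nat_lit 227) (.e (nat_lit 778317) (nat_lit 3) (.e (nat_lit 57480) (nat_lit 28) (.e (nat_lit 557109) (nat_lit 15) (.e (nat_lit 188452) (nat_lit 23) (.e (nat_lit 204851) (nat_lit 26) (.e (nat_lit 336269) (nat_lit 15) .nil))))))) (.g (nat_lit 5) .nil .nil))))))) (.nd (nat_lit 2) (.nd (nat_lit 3) (.nd (nat_lit 4) (.nd (nat_lit 5) 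
(.lf (nat_lit 104259) (.g (nat_lit 2279) (.e (nat_lit 3631) (nat_lit 227) (.e (nat_lit 778317) (nat_lit 3) (.e (nat_lit 57480) (nat_lit 28) (.e (nat_lit 557098) (nat_lit 13) (.e (nat_lit 172097) (nat_lit 9) (.e (nat_lit 426140) (nat_lit 3) (.e (nat_lit 204855) (nat_lit 26) (.e (nat_lit 336267) (nat_lit 15) .nil)))))))) (.g (nat_lit 4) .nil .nil))) 
(.lf (nat_lit 104291) (.g (nat_lit 3994) (.e (nat_lit 3631) (nat_lit 227) (.e (nat_lit 778317) (nat_lit 3) (.e (nat_lit 57480) (nat_lit 28) (.e (nat_lit 557107) (nat_lit 15) (.e (nat_lit 188450) (nat_lit 23) (.e (nat_lit 204852) (nat_lit 26) (.e (nat_lit 336301) (nat_lit 15) .nil))))))) (.g (nat_lit 6) .nil .nil)))) (.nd (nat_lit 5) 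
(.lf (nat_lit 104275) (.g (nat_lit 5315) (.e (nat_lit 3631) (nat_lit 227) (.e (nat_lit 778317) (nat_lit 3) (.e (nat_lit 57480) (nat_lit 28) (.e (nat_lit 557098) (nat_lit 13) (.e (nat_lit 172115) (nat_lit 10) (.e (nat_lit 434231) (nat_lit 23) (.e (nat_lit 532535) (nat_lit 9) (.e (nat_lit 336291) (nat_lit 15) .nil)))))))) (.g (nat_lit 8) .nil .nil))) 
(.lf (nat_lit 104307) (.g (nat_lit 4450) (.e (nat_lit 3631) (nat_lit 227) (.e (nat_lit 778317) (nat_lit 3) (.e (nat_lit 57480) (nat_lit 28) (.e (nat_lit 557108) (nat_lit 15) (.e (nat_lit 188452) (nat_lit 23) (.e (nat_lit 204852) (nat_lit 26) (.e (nat_lit 336301) (nat_lit 15) .nil))))))) (.g (nat_lit 5) .nil .nil))))) (.nd (nat_lit 4) (.nd (nat_lit 5) 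
(.lf (nat_lit 104267) (.g (nat_lit 4429) (.e (nat_lit 3631) (nat_lit 227) (.e (nat_lit 778317) (nat_lit 3) (.e (nat_lit 57480) (nat_lit 28) (.e (nat_lit 557098) (nat_lit 13) (.e (nat_lit 172115) (nat_lit 10) (.e (nat_lit 434231) (nat_lit 23) (.e (nat_lit 532528) (nat_lit 9) (.e (nat_lit 336285) (nat_lit 15) .nil)))))))) (.g (nat_lit 6) .nil .nil))) 
(.lf (nat_lit 104299) (.g (nat_lit 2448) (.e (nat_lit 3631) (nat_lit 227) (.e (nat_lit 778317) (nat_lit 3) (.e (nat_lit 57480) (nat_lit 28) (.e (nat_lit 557107) (nat_lit 15) (.e (nat_lit 188450) (nat_lit 23) (.e (nat_lit 204861) (nat_lit 26) (.e (nat_lit 336293) (nat_lit 15) .nil))))))) (.g (nat_lit 4) .nil .nil)))) (.nd (nat_lit 5) 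
(.lf (nat_lit 104283) (.g (nat_lit 2918) (.e (nat_lit 3631) (nat_lit 227) (.e (nat_lit 778317) (nat_lit 3) (.e (nat_lit 57480) (nat_lit 28) (.e (nat_lit 557107) (nat_lit 15) (.e (nat_lit 188450) (nat_lit 23) (.e (nat_lit 204851) (nat_lit 26) (.e (nat_lit 336285) (nat_lit 15) .nil))))))) (.g (nat_lit 5) .nil .nil))) 
(.lf (nat_lit 104315) (.g (nat_lit 4082) (.e (nat_lit 3631) (nat_lit 227) (.e (nat_lit 778317) (nat_lit 3) (.e (nat_lit 57480) (nat_lit 28) (.e (nat_lit 557109) (nat_lit 15) (.e (nat_lit 188452) (nat_lit 23) (.e (nat_lit 204851) (nat_lit 26) (.e (nat_lit 336263) (nat_lit 15) .nil))))))) (.g (nat_lit 6) .nil .nil)))))) (.nd (nat_lit 3) (.nd (nat_lit 4) (.nd (nat_lit 5) 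
(.lf (nat_lit 104263) (.g (nat_lit 4419) (.e (nat_lit 3631) (nat_lit 227) (.e (nat_lit 778317) (nat_lit 3) (.e (nat_lit 57480) (nat_lit 28) (.e (nat_lit 557098) (nat_lit 13) (.e (nat_lit 172115) (nat_lit 10) (.e (nat_lit 434231) (nat_lit 23) (.e (nat_lit 532528) (nat_lit 9) (.e (nat_lit 336263) (nat_lit 15) .nil)))))))) (.g (nat_lit 7) .nil .nil))) 
(.lf (nat_lit 104295) (.g (nat_lit 2149) (.e (nat_lit 3631) (nat_lit 227) (.e (nat_lit 778317) (nat_lit 3) (.e (nat_lit 57480) (nat_lit 28) (.e (nat_lit 557107) (nat_lit 15) (.e (nat_lit 188450) (nat_lit 23) (.e (nat_lit 204856) (nat_lit 26) (.e (nat_lit 336292) (nat_lit 15) .nil))))))) (.g (nat_lit 4) .nil .nil)))) (.nd (nat_lit 5) 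
(.lf (nat_lit 104279) (.g (nat_lit 2511) (.e (nat_lit 3631) (nat_lit 227) (.e (nat_lit 778317) (nat_lit 3) (.e (nat_lit 57480) (nat_lit 28) (.e (nat_lit 557107) (nat_lit 15) (.e (nat_lit 188450) (nat_lit 23) (.e (nat_lit 204851) (nat_lit 26) (.e (nat_lit 336262) (nat_lit 15) .nil))))))) (.g (nat_lit 4) .nil .nil))) 
(.lf (nat_lit 104311) (.g (nat_lit 5707) (.e (nat_lit 3631) (nat_lit 227) (.e (nat_lit 778317) (nat_lit 3) (.e (nat_lit 57480) (nat_lit 28) (.e (nat_lit 557109) (nat_lit 15) (.e (nat_lit 188449) (nat_lit 22) (.e (nat_lit 196680) (nat_lit 17) (.e (nat_lit 131133) (nat_lit 15) .nil))))))) (.g (nat_lit 5) .nil .nil))))) (.nd (nat_lit 4) (.nd (nat_lit 5) 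
(.lf (nat_lit 104271) (.g (nat_lit 3460) (.e (nat_lit 3631) (nat_lit 227) (.e (nat_lit 778317) (nat_lit 3) (.e (nat_lit 57480) (nat_lit 28) (.e (nat_lit 557098) (nat_lit 13) (.e (nat_lit 172115) (nat_lit 10) (.e (nat_lit 434231) (nat_lit 23) (.e (nat_lit 532531) (nat_lit 9) (.e (nat_lit 336263) (nat_lit 15) .nil)))))))) (.g (nat_lit 6) .nil .nil))) 
(.lf (nat_lit 104303) (.g (nat_lit 3745) (.e (nat_lit 3631) (nat_lit 227) (.e (nat_lit 778317) (nat_lit 3) (.e (nat_lit 57480) (nat_lit 28) (.e (nat_lit 557108) (nat_lit 15) (.e (nat_lit 188452) (nat_lit 23) (.e (nat_lit 204851) (nat_lit 26) (.e (nat_lit 336269) (nat_lit 15) .nil))))))) (.g (nat_lit 5) .nil .nil)))) (.nd (nat_lit 5) 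
(.lf (nat_lit 104287) (.g (nat_lit 4246) (.e (nat_lit 3631) (nat_lit 227) (.e (nat_lit 778317) (nat_lit 3) (.e (nat_lit 57480) (nat_lit 28) (.e (nat_lit 557107) (nat_lit 15) (.e (nat_lit 188450) (nat_lit 23) (.e (nat_lit 204852) (nat_lit 26) (.e (nat_lit 336265) (nat_lit 15) .nil))))))) (.g (nat_lit 6) .nil .nil))) 
(.lf (nat_lit 104319) (.g (nat_lit 3720) (.e (nat_lit 3631) (nat_lit 227) (.e (nat_lit 778317) (nat_lit 3) (.e (nat_lit 57480) (nat_lit 28) (.e (nat_lit 557109) (nat_lit 15) (.e (nat_lit 188452) (nat_lit 23) (.e (nat_lit 204851) (nat_lit 26) (.e (nat_lit 336301) (nat_lit 15) .nil))))))) (.g (nat_lit 5) .nil .nil)))))))))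

noncomputable def tv1425 : DT := (.nd (nat_lit 0) (.nd (nat_lit 1) (.nd (nat_lit 2) (.nd (nat_lit 3) (.nd (nat_lit 4) (.nd (nat_lit 5) 
(.lf (nat_lit 104320) (.g (nat_lit 5261) (.e (nat_lit 3631) (nat_lit 227) (.e (nat_lit 778317) (nat_lit 3) (.e (nat_lit 57480) (nat_lit 28) (.e (nat_lit 557109) (nat_lit 15) (.e (nat_lit 188452) (nat_lit 23) (.e (nat_lit 204852) (nat_lit 26) (.e (nat_lit 336262) (nat_lit 15) .nil))))))) (.g (nat_lit 6) .nil .nil))) 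
(.lf (nat_lit 104352) (.g (nat_lit 1053) (.e (nat_lit 3631) (nat_lit 227) (.e (nat_lit 778320) (nat_lit 4) (.e (nat_lit 65630) (nat_lit 14) (.e (nat_lit 401436) (nat_lit 9) .nil)))) .nil))) (.nd (nat_lit 5) 
(.lf (nat_lit 104336) (.g (nat_lit 2805) (.e (nat_lit 3631) (nat_lit 227) (.e (nat_lit 778317) (nat_lit 3) (.e (nat_lit 57480) (nat_lit 28) (.e (nat_lit 557109) (nat_lit 15) (.e (nat_lit 188458) (nat_lit 25) (.e (nat_lit 245794) (nat_lit 17) (.e (nat_lit 131135) (nat_lit 15) .nil))))))) (.g (nat_lit 4) .nil .nil))) 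
(.lf (nat_lit 104368) (.g (nat_lit 2931) (.e (nat_lit 3631) (nat_lit 227) (.e (nat_lit 778320) (nat_lit 4) (.e (nat_lit 65630) (nat_lit 14) (.e (nat_lit 401459) (nat_lit 13) (.e (nat_lit 483380) (nat_lit 23) (.e (nat_lit 336268) (nat_lit 15) .nil)))))) (.g (nat_lit 4) .nil .nil))))) (.nd (nat_lit 4) (.nd (nat_lit 5) 
(.lf (nat_lit 104328) (.g (nat_lit 4589) (.e (nat_lit 3631) (nat_lit 227) (.e (nat_lit 778317) (nat_lit 3) (.e (nat_lit 57480) (nat_lit 28) (.e (nat_lit 557109) (nat_lit 15) (.e (nat_lit 188452) (nat_lit 23) (.e (nat_lit 204855) (nat_lit 26) (.e (nat_lit 336291) (nat_lit 15) .nil))))))) (.g (nat_lit 0) .nil .nil))) 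
(.lf (nat_lit 104360) (.g (nat_lit 3552) (.e (nat_lit 3631) (nat_lit 227) (.e (nat_lit 778320) (nat_lit 4) (.e (nat_lit 65630) (nat_lit 14) (.e (nat_lit 401459) (nat_lit 13) (.e (nat_lit 483344) (nat_lit 17) (.e (nat_lit 6448) (nat_lit 343) (.e (nat_lit 46) (nat_lit 0) .nil))))))) (.g (nat_lit 5) .nil .nil)))) (.nd (nat_lit 5) 
(.lf (nat_lit 104344) (.g (nat_lit 4972) (.e (nat_lit 3631) (nat_lit 227) (.e (nat_lit 778318) (nat_lit 3) (.e (nat_lit 57521) (nat_lit 44) (.e (nat_lit 688177) (nat_lit 16) (.e (nat_lit 65583) (nat_lit 7) (.e (nat_lit 319530) (nat_lit 16) (.e (nat_lit 286748) (nat_lit 9) (.e (nat_lit 336295) (nat_lit 15) .nil)))))))) (.g (nat_lit 0) .nil .nil))) 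
(.lf (nat_lit 104376) (.g (nat_lit 3132) (.e (nat_lit 3631) (nat_lit 227) (.e (nat_lit 778320) (nat_lit 4) (.e (nat_lit 65630) (nat_lit 14) (.e (nat_lit 401459) (nat_lit 13) (.e (nat_lit 483381) (nat_lit 23) (.e (nat_lit 336270) (nat_lit 15) .nil)))))) (.g (nat_lit 4) .nil .nil)))))) (.nd (nat_lit 3) (.nd (nat_lit 4) (.nd (nat_lit 5) 
(.lf (nat_lit 104324) (.g (nat_lit 5259) (.e (nat_lit 3631) (nat_lit 227) (.e (nat_lit 778317) (nat_lit 3) (.e (nat_lit 57480) (nat_lit 28) (.e (nat_lit 557109) (nat_lit 15) (.e (nat_lit 188452) (nat_lit 23) (.e (nat_lit 204852) (nat_lit 26) (.e (nat_lit 336285) (nat_lit 15) .nil))))))) (.g (nat_lit 6) .nil .nil))) 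
(.lf (nat_lit 104356) (.g (nat_lit 3153) (.e (nat_lit 3631) (nat_lit 227) (.e (nat_lit 778320) (nat_lit 4) (.e (nat_lit 65630) (nat_lit 14) (.e (nat_lit 401438) (nat_lit 9) (.e (nat_lit 426542) (nat_lit 29) (.e (nat_lit 352265) (nat_lit 0) .nil)))))) (.g (nat_lit 5) .nil .nil)))) (.nd (nat_lit 5) 
(.lf (nat_lit 104340) (.g (nat_lit 1965) (.e (nat_lit 3631) (nat_lit 227) (.e (nat_lit 778318) (nat_lit 3) (.e (nat_lit 57354) (nat_lit 0) (.e (nat_lit 6320) (nat_lit 337) (.e (nat_lit 1199) (nat_lit 88) .nil))))) .nil)) 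
(.lf (nat_lit 104372) (.g (nat_lit 3138) (.e (nat_lit 3631) (nat_lit 227) (.e (nat_lit 778320) (nat_lit 4) (.e (nat_lit 65630) (nat_lit 14) (.e (nat_lit 401459) (nat_lit 13) (.e (nat_lit 483380) (nat_lit 23) (.e (nat_lit 336301) (nat_lit 15) .nil)))))) (.g (nat_lit 5) .nil .nil))))) (.nd (nat_lit 4) (.nd (nat_lit 5) 
(.lf (nat_lit 104332) (.g (nat_lit 5082) (.e (nat_lit 3631) (nat_lit 227) (.e (nat_lit 778317) (nat_lit 3) (.e (nat_lit 57480) (nat_lit 28) (.e (nat_lit 557109) (nat_lit 15) (.e (nat_lit 188452) (nat_lit 23) (.e (nat_lit 204858) (nat_lit 26) (.e (nat_lit 336291) (nat_lit 15) .nil))))))) (.g (nat_lit 5) .nil .nil))) 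
(.lf (nat_lit 104364) (.g (nat_lit 2322) (.e (nat_lit 3631) (nat_lit 227) (.e (nat_lit 778320) (nat_lit 4) (.e (nat_lit 65630) (nat_lit 14) (.e (nat_lit 401459) (nat_lit 13) (.e (nat_lit 483379) (nat_lit 23) (.e (nat_lit 336270) (nat_lit 15) .nil)))))) (.g (nat_lit 4) .nil .nil)))) (.nd (nat_lit 5) 
(.lf (nat_lit 104348) (.g (nat_lit 1806) (.e (nat_lit 3631) (nat_lit 227) (.e (nat_lit 778320) (nat_lit 4) (.e (nat_lit 65624) (nat_lit 12) (.e (nat_lit 385092) (nat_lit 49) (.e (nat_lit 778327) (nat_lit 6) (.e (nat_lit 81922) (nat_lit 0) .nil)))))) (.g (nat_lit 4) .nil .nil))) 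
(.lf (nat_lit 104380) (.g (nat_lit 2468) (.e (nat_lit 3631) (nat_lit 227) (.e (nat_lit 778320) (nat_lit 4) (.e (nat_lit 65630) (nat_lit 14) (.e (nat_lit 401459) (nat_lit 13) (.e (nat_lit 483386) (nat_lit 23) (.e (nat_lit 336282) (nat_lit 15) .nil)))))) (.g (nat_lit 4) .nil .nil))))))) (.nd (nat_lit 2) (.nd (nat_lit 3) (.nd (nat_lit 4) (.nd (nat_lit 5) 
(.lf (nat_lit 104322) (.g (nat_lit 5237) (.e (nat_lit 3631) (nat_lit 227) (.e (nat_lit 778317) (nat_lit 3) (.e (nat_lit 57480) (nat_lit 28) (.e (nat_lit 557109) (nat_lit 15) (.e (nat_lit 188452) (nat_lit 23) (.e (nat_lit 204852) (nat_lit 26) (.e (nat_lit 336265) (nat_lit 15) .nil))))))) (.g (nat_lit 6) .nil .nil))) 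
(.lf (nat_lit 104354) (.g (nat_lit 3139) (.e (nat_lit 3631) (nat_lit 227) (.e (nat_lit 778320) (nat_lit 4) (.e (nat_lit 65630) (nat_lit 14) (.e (nat_lit 401437) (nat_lit 9) (.e (nat_lit 426542) (nat_lit 29) (.e (nat_lit 352267) (nat_lit 0) .nil)))))) (.g (nat_lit 5) .nil .nil)))) (.nd (nat_lit 5) 
(.lf (nat_lit 104338) (.g (nat_lit 5216) (.e (nat_lit 3631) (nat_lit 227) (.e (nat_lit 778317) (nat_lit 3) (.e (nat_lit 57521) (nat_lit 44) (.e (nat_lit 688177) (nat_lit 16) (.e (nat_lit 65586) (nat_lit 7) (.e (nat_lit 319531) (nat_lit 16) (.e (nat_lit 286748) (nat_lit 9) (.e (nat_lit 336295) (nat_lit 15) .nil)))))))) (.g (nat_lit 8) .nil .nil))) 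
(.lf (nat_lit 104370) (.g (nat_lit 3666) (.e (nat_lit 3631) (nat_lit 227) (.e (nat_lit 778320) (nat_lit 4) (.e (nat_lit 65630) (nat_lit 14) (.e (nat_lit 401459) (nat_lit 13) (.e (nat_lit 483380) (nat_lit 23) (.e (nat_lit 336283) (nat_lit 15) .nil)))))) (.g (nat_lit 5) .nil .nil))))) (.nd (nat_lit 4) (.nd (nat_lit 5) 
(.lf (nat_lit 104330) (.g (nat_lit 4539) (.e (nat_lit 3631) (nat_lit 227) (.e (nat_lit 778317) (nat_lit 3) (.e (nat_lit 57480) (nat_lit 28) (.e (nat_lit 557109) (nat_lit 15) (.e (nat_lit 188452) (nat_lit 23) (.e (nat_lit 204856) (nat_lit 26) (.e (nat_lit 336291) (nat_lit 15) .nil))))))) (.g (nat_lit 6) .nil .nil))) 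
(.lf (nat_lit 104362) (.g (nat_lit 2301) (.e (nat_lit 3631) (nat_lit 227) (.e (nat_lit 778320) (nat_lit 4) (.e (nat_lit 65630) (nat_lit 14) (.e (nat_lit 401459) (nat_lit 13) (.e (nat_lit 483379) (nat_lit 23) .nil))))) .nil))) (.nd (nat_lit 5) 
(.lf (nat_lit 104346) (.g (nat_lit 1646) (.e (nat_lit 3631) (nat_lit 227) (.e (nat_lit 778320) (nat_lit 4) (.e (nat_lit 65624) (nat_lit 12) (.e (nat_lit 385092) (nat_lit 49) (.e (nat_lit 778326) (nat_lit 6) (.e (nat_lit 81922) (nat_lit 0) .nil)))))) (.g (nat_lit 4) .nil .nil))) 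
(.lf (nat_lit 104378) (.g (nat_lit 2445) (.e (nat_lit 3631) (nat_lit 227) (.e (nat_lit 778320) (nat_lit 4) (.e (nat_lit 65630) (nat_lit 14) (.e (nat_lit 401459) (nat_lit 13) (.e (nat_lit 483381) (nat_lit 23) (.e (nat_lit 336301) (nat_lit 15) .nil)))))) (.g (nat_lit 4) .nil .nil)))))) (.nd (nat_lit 3) (.nd (nat_lit 4) (.nd (nat_lit 5) 
(.lf (nat_lit 104326) (.g (nat_lit 5048) (.e (nat_lit 3631) (nat_lit 227) (.e (nat_lit 778317) (nat_lit 3) (.e (nat_lit 57480) (nat_lit 28) (.e (nat_lit 557109) (nat_lit 15) (.e (nat_lit 188452) (nat_lit 23) (.e (nat_lit 204852) (nat_lit 26) (.e (nat_lit 336301) (nat_lit 15) .nil))))))) (.g (nat_lit 6) .nil .nil))) 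
(.lf (nat_lit 104358) (.g (nat_lit 2165) (.e (nat_lit 3631) (nat_lit 227) (.e (nat_lit 778320) (nat_lit 4) (.e (nat_lit 65630) (nat_lit 14) (.e (nat_lit 401454) (nat_lit 12) (.e (nat_lit 483072) (nat_lit 15) (.e (nat_lit 131133) (nat_lit 15) .nil)))))) (.g (nat_lit 4) .nil .nil)))) (.nd (nat_lit 5) 
(.lf (nat_lit 104342) (.g (nat_lit 2531) (.e (nat_lit 3631) (nat_lit 227) (.e (nat_lit 778318) (nat_lit 3) (.e (nat_lit 57520) (nat_lit 44) (.e (nat_lit 688177) (nat_lit 16) (.e (nat_lit 65583) (nat_lit 7) (.e (nat_lit 319530) (nat_lit 16) (.e (nat_lit 286748) (nat_lit 9) (.e (nat_lit 336295) (nat_lit 15) .nil)))))))) (.g (nat_lit 4) .nil .nil))) 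
(.lf (nat_lit 104374) (.g (nat_lit 2537) (.e (nat_lit 3631) (nat_lit 227) (.e (nat_lit 778320) (nat_lit 4) (.e (nat_lit 65630) (nat_lit 14) (.e (nat_lit 401459) (nat_lit 13) (.e (nat_lit 483381) (nat_lit 23) (.e (nat_lit 336264) (nat_lit 15) .nil)))))) (.g (nat_lit 4) .nil .nil))))) (.nd (nat_lit 4) (.nd (nat_lit 5) 
(.lf (nat_lit 104334) (.g (nat_lit 5867) (.e (nat_lit 3631) (nat_lit 227) (.e (nat_lit 778317) (nat_lit 3) (.e (nat_lit 57480) (nat_lit 28) (.e (nat_lit 557109) (nat_lit 15) (.e (nat_lit 188452) (nat_lit 23) (.e (nat_lit 204858) (nat_lit 26) (.e (nat_lit 336295) (nat_lit 15) .nil))))))) (.g (nat_lit 6) .nil .nil))) 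
(.lf (nat_lit 104366) (.g (nat_lit 4224) (.e (nat_lit 3631) (nat_lit 227) (.e (nat_lit 778320) (nat_lit 4) (.e (nat_lit 65630) (nat_lit 14) (.e (nat_lit 401459) (nat_lit 13) (.e (nat_lit 483380) (nat_lit 23) (.e (nat_lit 336264) (nat_lit 15) .nil)))))) (.g (nat_lit 5) .nil .nil)))) (.nd (nat_lit 5) 
(.lf (nat_lit 104350) (.g (nat_lit 2746) (.e (nat_lit 3631) (nat_lit 227) (.e (nat_lit 778320) (nat_lit 4) (.e (nat_lit 65624) (nat_lit 12) (.e (nat_lit 385093) (nat_lit 49) (.e (nat_lit 778327) (nat_lit 6) (.e (nat_lit 81922) (nat_lit 0) .nil)))))) (.g (nat_lit 6) .nil .nil))) 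
(.lf (nat_lit 104382) (.g (nat_lit 2829) (.e (nat_lit 3631) (nat_lit 227) (.e (nat_lit 778320) (nat_lit 4) (.e (nat_lit 65630) (nat_lit 14) (.e (nat_lit 401459) (nat_lit 13) (.e (nat_lit 483387) (nat_lit 23) (.e (nat_lit 336267) (nat_lit 15) .nil)))))) (.g (nat_lit 4) .nil .nil)))))))) (.nd (nat_lit 1) (.nd (nat_lit 2) (.nd (nat_lit 3) (.nd (nat_lit 4) (.nd (nat_lit 5) 
(.lf (nat_lit 104321) (.g (nat_lit 5099) (.e (nat_lit 3631) (nat_lit 227) (.e (nat_lit 778317) (nat_lit 3) (.e (nat_lit 57480) (nat_lit 28) (.e (nat_lit 557109) (nat_lit 15) (.e (nat_lit 188452) (nat_lit 23) (.e (nat_lit 204852) (nat_lit 26) (.e (nat_lit 336263) (nat_lit 15) .nil))))))) (.g (nat_lit 6) .nil .nil))) 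
(.lf (nat_lit 104353) (.g (nat_lit 2178) (.e (nat_lit 3631) (nat_lit 227) (.e (nat_lit 778320) (nat_lit 4) (.e (nat_lit 65630) (nat_lit 14) (.e (nat_lit 401436) (nat_lit 9) (.e (nat_lit 426542) (nat_lit 29) (.e (nat_lit 352267) (nat_lit 0) .nil)))))) (.g (nat_lit 4) .nil .nil)))) (.nd (nat_lit 5) 
(.lf (nat_lit 104337) (.g (nat_lit 5157) (.e (nat_lit 3631) (nat_lit 227) (.e (nat_lit 778317) (nat_lit 3) (.e (nat_lit 57521) (nat_lit 44) (.e (nat_lit 688177) (nat_lit 16) (.e (nat_lit 65583) (nat_lit 7) (.e (nat_lit 319530) (nat_lit 16) (.e (nat_lit 286748) (nat_lit 9) (.e (nat_lit 336295) (nat_lit 15) .nil)))))))) (.g (nat_lit 8) .nil .nil))) 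
(.lf (nat_lit 104369) (.g (nat_lit 2989) (.e (nat_lit 3631) (nat_lit 227) (.e (nat_lit 778320) (nat_lit 4) (.e (nat_lit 65630) (nat_lit 14) (.e (nat_lit 401459) (nat_lit 13) (.e (nat_lit 483380) (nat_lit 23) (.e (nat_lit 336269) (nat_lit 15) .nil)))))) (.g (nat_lit 4) .nil .nil))))) (.nd (nat_lit 4) (.nd (nat_lit 5) 
(.lf (nat_lit 104329) (.g (nat_lit 4667) (.e (nat_lit 3631) (nat_lit 227) (.e (nat_lit 778317) (nat_lit 3) (.e (nat_lit 57480) (nat_lit 28) (.e (nat_lit 557109) (nat_lit 15) (.e (nat_lit 188452) (nat_lit 23) (.e (nat_lit 204855) (nat_lit 26) (.e (nat_lit 336294) (nat_lit 15) .nil))))))) (.g (nat_lit 6) .nil .nil))) 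
(.lf (nat_lit 104361) (.g (nat_lit 3156) (.e (nat_lit 3631) (nat_lit 227) (.e (nat_lit 778320) (nat_lit 4) (.e (nat_lit 65630) (nat_lit 14) (.e (nat_lit 401459) (nat_lit 13) (.e (nat_lit 483344) (nat_lit 17) (.e (nat_lit 6449) (nat_lit 343) (.e (nat_lit 46) (nat_lit 0) .nil))))))) (.g (nat_lit 4) .nil .nil)))) (.nd (nat_lit 5) 
(.lf (nat_lit 104345) (.g (nat_lit 2619) (.e (nat_lit 3631) (nat_lit 227) (.e (nat_lit 778320) (nat_lit 4) (.e (nat_lit 65623) (nat_lit 12) (.e (nat_lit 385094) (nat_lit 49) (.e (nat_lit 778326) (nat_lit 6) (.e (nat_lit 81924) (nat_lit 0) .nil)))))) (.g (nat_lit 0) .nil .nil))) 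
(.lf (nat_lit 104377) (.g (nat_lit 3175) (.e (nat_lit 3631) (nat_lit 227) (.e (nat_lit 778320) (nat_lit 4) (.e (nat_lit 65630) (nat_lit 14) (.e (nat_lit 401459) (nat_lit 13) (.e (nat_lit 483381) (nat_lit 23) (.e (nat_lit 336286) (nat_lit 15) .nil)))))) (.g (nat_lit 4) .nil .nil)))))) (.nd (nat_lit 3) (.nd (nat_lit 4) (.nd (nat_lit 5) 
(.lf (nat_lit 104325) (.g (nat_lit 5101) (.e (nat_lit 3631) (nat_lit 227) (.e (nat_lit 778317) (nat_lit 3) (.e (nat_lit 57480) (nat_lit 28) (.e (nat_lit 557109) (nat_lit 15) (.e (nat_lit 188452) (nat_lit 23) (.e (nat_lit 204852) (nat_lit 26) (.e (nat_lit 336297) (nat_lit 15) .nil))))))) (.g (nat_lit 7) .nil .nil))) 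
(.lf (nat_lit 104357) (.g (nat_lit 2801) (.e (nat_lit 3631) (nat_lit 227) (.e (nat_lit 778320) (nat_lit 4) (.e (nat_lit 65630) (nat_lit 14) (.e (nat_lit 401438) (nat_lit 9) (.e (nat_lit 426542) (nat_lit 29) (.e (nat_lit 352266) (nat_lit 0) .nil)))))) (.g (nat_lit 5) .nil .nil)))) (.nd (nat_lit 5) 
(.lf (nat_lit 104341) (.g (nat_lit 2514) (.e (nat_lit 3631) (nat_lit 227) (.e (nat_lit 778318) (nat_lit 3) (.e (nat_lit 57476) (nat_lit 28) (.e (nat_lit 557108) (nat_lit 15) (.e (nat_lit 188458) (nat_lit 25) .nil))))) .nil)) 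
(.lf (nat_lit 104373) (.g (nat_lit 2603) (.e (nat_lit 3631) (nat_lit 227) (.e (nat_lit 778320) (nat_lit 4) (.e (nat_lit 65630) (nat_lit 14) (.e (nat_lit 401459) (nat_lit 13) (.e (nat_lit 483381) (nat_lit 23) (.e (nat_lit 336263) (nat_lit 15) .nil)))))) (.g (nat_lit 4) .nil .nil))))) (.nd (nat_lit 4) (.nd (nat_lit 5) 
(.lf (nat_lit 104333) (.g (nat_lit 5750) (.e (nat_lit 3631) (nat_lit 227) (.e (nat_lit 778317) (nat_lit 3) (.e (nat_lit 57480) (nat_lit 28) (.e (nat_lit 557109) (nat_lit 15) (.e (nat_lit 188452) (nat_lit 23) (.e (nat_lit 204858) (nat_lit 26) (.e (nat_lit 336292) (nat_lit 15) .nil))))))) (.g (nat_lit 5) .nil .nil))) 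
(.lf (nat_lit 104365) (.g (nat_lit 3538) (.e (nat_lit 3631) (nat_lit 227) (.e (nat_lit 778320) (nat_lit 4) (.e (nat_lit 65630) (nat_lit 14) (.e (nat_lit 401459) (nat_lit 13) (.e (nat_lit 483380) (nat_lit 23) (.e (nat_lit 336262) (nat_lit 15) .nil)))))) (.g (nat_lit 5) .nil .nil)))) (.nd (nat_lit 5) 
(.lf (nat_lit 104349) (.g (nat_lit 2081) (.e (nat_lit 3631) (nat_lit 227) (.e (nat_lit 778320) (nat_lit 4) (.e (nat_lit 65624) (nat_lit 12) (.e (nat_lit 385093) (nat_lit 49) (.e (nat_lit 778326) (nat_lit 6) (.e (nat_lit 81922) (nat_lit 0) .nil)))))) (.g (nat_lit 4) .nil .nil))) 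
(.lf (nat_lit 104381) (.g (nat_lit 2567) (.e (nat_lit 3631) (nat_lit 227) (.e (nat_lit 778320) (nat_lit 4) (.e (nat_lit 65630) (nat_lit 14) (.e (nat_lit 401459) (nat_lit 13) (.e (nat_lit 483386) (nat_lit 23) (.e (nat_lit 336291) (nat_lit 15) .nil)))))) (.g (nat_lit 5) .nil .nil))))))) (.nd (nat_lit 2) (.nd (nat_lit 3) (.nd (nat_lit 4) (.nd (nat_lit 5) 
(.lf (nat_lit 104323) (.g (nat_lit 4546) (.e (nat_lit 3631) (nat_lit 227) (.e (nat_lit 778317) (nat_lit 3) (.e (nat_lit 57480) (nat_lit 28) (.e (nat_lit 557109) (nat_lit 15) (.e (nat_lit 188452) (nat_lit 23) (.e (nat_lit 204852) (nat_lit 26) (.e (nat_lit 336269) (nat_lit 15) .nil))))))) (.g (nat_lit 6) .nil .nil))) 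
(.lf (nat_lit 104355) (.g (nat_lit 2051) (.e (nat_lit 3631) (nat_lit 227) (.e (nat_lit 778320) (nat_lit 4) (.e (nat_lit 65630) (nat_lit 14) (.e (nat_lit 401438) (nat_lit 9) (.e (nat_lit 426539) (nat_lit 29) .nil))))) .nil))) (.nd (nat_lit 5) 
(.lf (nat_lit 104339) (.g (nat_lit 2799) (.e (nat_lit 3631) (nat_lit 227) (.e (nat_lit 778317) (nat_lit 3) (.e (nat_lit 57521) (nat_lit 44) (.e (nat_lit 688178) (nat_lit 16) (.e (nat_lit 65583) (nat_lit 7) (.e (nat_lit 319530) (nat_lit 16) (.e (nat_lit 286748) (nat_lit 9) (.e (nat_lit 336295) (nat_lit 15) .nil)))))))) (.g (nat_lit 4) .nil .nil))) 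
(.lf (nat_lit 104371) (.g (nat_lit 3699) (.e (nat_lit 3631) (nat_lit 227) (.e (nat_lit 778320) (nat_lit 4) (.e (nat_lit 65630) (nat_lit 14) (.e (nat_lit 401459) (nat_lit 13) (.e (nat_lit 483380) (nat_lit 23) (.e (nat_lit 336297) (nat_lit 15) .nil)))))) (.g (nat_lit 0) .nil .nil))))) (.nd (nat_lit 4) (.nd (nat_lit 5) 
(.lf (nat_lit 104331) (.g (nat_lit 5041) (.e (nat_lit 3631) (nat_lit 227) (.e (nat_lit 778317) (nat_lit 3) (.e (nat_lit 57480) (nat_lit 28) (.e (nat_lit 557109) (nat_lit 15) (.e (nat_lit 188452) (nat_lit 23) (.e (nat_lit 204856) (nat_lit 26) (.e (nat_lit 336292) (nat_lit 15) .nil))))))) (.g (nat_lit 6) .nil .nil))) 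
(.lf (nat_lit 104363) (.g (nat_lit 2980) (.e (nat_lit 3631) (nat_lit 227) (.e (nat_lit 778320) (nat_lit 4) (.e (nat_lit 65630) (nat_lit 14) (.e (nat_lit 401459) (nat_lit 13) (.e (nat_lit 483379) (nat_lit 23) (.e (nat_lit 336266) (nat_lit 15) .nil)))))) (.g (nat_lit 4) .nil .nil)))) (.nd (nat_lit 5) 
(.lf (nat_lit 104347) (.g (nat_lit 2309) (.e (nat_lit 3631) (nat_lit 227) (.e (nat_lit 778320) (nat_lit 4) (.e (nat_lit 65624) (nat_lit 12) (.e (nat_lit 385092) (nat_lit 49) (.e (nat_lit 778326) (nat_lit 6) (.e (nat_lit 81924) (nat_lit 0) .nil)))))) (.g (nat_lit 6) .nil .nil))) 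
(.lf (nat_lit 104379) (.g (nat_lit 2933) (.e (nat_lit 3631) (nat_lit 227) (.e (nat_lit 778320) (nat_lit 4) (.e (nat_lit 65630) (nat_lit 14) (.e (nat_lit 401459) (nat_lit 13) (.e (nat_lit 483386) (nat_lit 23) (.e (nat_lit 336267) (nat_lit 15) .nil)))))) (.g (nat_lit 5) .nil .nil)))))) (.nd (nat_lit 3) (.nd (nat_lit 4) (.nd (nat_lit 5) 
(.lf (nat_lit 104327) (.g (nat_lit 4534) (.e (nat_lit 3631) (nat_lit 227) (.e (nat_lit 778317) (nat_lit 3) (.e (nat_lit 57480) (nat_lit 28) (.e (nat_lit 557109) (nat_lit 15) (.e (nat_lit 188452) (nat_lit 23) (.e (nat_lit 204855) (nat_lit 26) (.e (nat_lit 336282) (nat_lit 15) .nil))))))) (.g (nat_lit 6) .nil .nil))) 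
(.lf (nat_lit 104359) (.g (nat_lit 1005) (.e (nat_lit 3631) (nat_lit 227) (.e (nat_lit 778320) (nat_lit 4) (.e (nat_lit 65630) (nat_lit 14) (.e (nat_lit 401459) (nat_lit 13) .nil)))) .nil))) (.nd (nat_lit 5) 
(.lf (nat_lit 104343) (.g (nat_lit 2879) (.e (nat_lit 3631) (nat_lit 227) (.e (nat_lit 778318) (nat_lit 3) (.e (nat_lit 57520) (nat_lit 44) (.e (nat_lit 688177) (nat_lit 16) (.e (nat_lit 65586) (nat_lit 7) (.e (nat_lit 319531) (nat_lit 16) (.e (nat_lit 286748) (nat_lit 9) (.e (nat_lit 336295) (nat_lit 15) .nil)))))))) (.g (nat_lit 5) .nil .nil))) 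
(.lf (nat_lit 104375) (.g (nat_lit 3137) (.e (nat_lit 3631) (nat_lit 227) (.e (nat_lit 778320) (nat_lit 4) (.e (nat_lit 65630) (nat_lit 14) (.e (nat_lit 401459) (nat_lit 13) (.e (nat_lit 483381) (nat_lit 23) (.e (nat_lit 336266) (nat_lit 15) .nil)))))) (.g (nat_lit 4) .nil .nil))))) (.nd (nat_lit 4) (.nd (nat_lit 5) 
(.lf (nat_lit 104335) (.g (nat_lit 4770) (.e (nat_lit 3631) (nat_lit 227) (.e (nat_lit 778317) (nat_lit 3) (.e (nat_lit 57480) (nat_lit 28) (.e (nat_lit 557109) (nat_lit 15) (.e (nat_lit 188452) (nat_lit 23) (.e (nat_lit 204859) (nat_lit 26) (.e (nat_lit 336300) (nat_lit 15) .nil))))))) (.g (nat_lit 6) .nil .nil))) 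
(.lf (nat_lit 104367) (.g (nat_lit 3218) (.e (nat_lit 3631) (nat_lit 227) (.e (nat_lit 778320) (nat_lit 4) (.e (nat_lit 65630) (nat_lit 14) (.e (nat_lit 401459) (nat_lit 13) (.e (nat_lit 483380) (nat_lit 23) (.e (nat_lit 336265) (nat_lit 15) .nil)))))) (.g (nat_lit 5) .nil .nil)))) (.nd (nat_lit 5) 
(.lf (nat_lit 104351) (.g (nat_lit 2976) (.e (nat_lit 3631) (nat_lit 227) (.e (nat_lit 778320) (nat_lit 4) (.e (nat_lit 65624) (nat_lit 12) (.e (nat_lit 385094) (nat_lit 49) (.e (nat_lit 778326) (nat_lit 6) (.e (nat_lit 81924) (nat_lit 0) .nil)))))) (.g (nat_lit 0) .nil .nil))) 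
(.lf (nat_lit 104383) (.g (nat_lit 2656) (.e (nat_lit 3631) (nat_lit 227) (.e (nat_lit 778320) (nat_lit 4) (.e (nat_lit 65630) (nat_lit 14) (.e (nat_lit 401459) (nat_lit 13) (.e (nat_lit 483387) (nat_lit 23) (.e (nat_lit 336291) (nat_lit 15) .nil)))))) (.g (nat_lit 4) .nil .nil)))))))))

noncomputable def tv1426 : DT := (.nd (nat_lit 0) (.nd (nat_lit 1) (.nd (nat_lit 2) (.nd (nat_lit 3) (.nd (nat_lit 4) (.nd (nat_lit 5) 
(.lf (nat_lit 104384) (.g (nat_lit 2882) (.e (nat_lit 3631) (nat_lit 227) (.e (nat_lit 778320) (nat_lit 4) (.e (nat_lit 65630) (nat_lit 14) (.e (nat_lit 401459) (nat_lit 13) (.e (nat_lit 483387) (nat_lit 23) (.e (nat_lit 336292) (nat_lit 15) .nil)))))) (.g (nat_lit 4) .nil .nil))) 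
(.lf (nat_lit 104416) (.g (nat_lit 1871) (.e (nat_lit 3632) (nat_lit 227) (.e (nat_lit 778317) (nat_lit 3) (.e (nat_lit 57476) (nat_lit 28) (.e (nat_lit 557097) (nat_lit 13) (.e (nat_lit 172097) (nat_lit 9) (.e (nat_lit 426140) (nat_lit 3) (.e (nat_lit 212736) (nat_lit 26) (.e (nat_lit 336300) (nat_lit 15) .nil)))))))) (.g (nat_lit 4) .nil .nil)))) (.nd (nat_lit 5) 
(.lf (nat_lit 104400) (.g (nat_lit 1925) (.e (nat_lit 3631) (nat_lit 227) (.e (nat_lit 778326) (nat_lit 6) (.e (nat_lit 81957) (nat_lit 24) (.e (nat_lit 123197) (nat_lit 266) (.e (nat_lit 57435) (nat_lit 17) (.e (nat_lit 376835) (nat_lit 0) .nil)))))) (.g (nat_lit 5) .nil .nil))) 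
(.lf (nat_lit 104432) (.g (nat_lit 2682) (.e (nat_lit 3632) (nat_lit 227) (.e (nat_lit 778317) (nat_lit 3) (.e (nat_lit 57476) (nat_lit 28) (.e (nat_lit 557098) (nat_lit 13) (.e (nat_lit 172097) (nat_lit 9) .nil))))) .nil)))) (.nd (nat_lit 4) (.nd (nat_lit 5) 
(.lf (nat_lit 104392) (.g (nat_lit 2157) (.e (nat_lit 3631) (nat_lit 227) (.e (nat_lit 778323) (nat_lit 5) (.e (nat_lit 73782) (nat_lit 32) (.e (nat_lit 2856) (nat_lit 184) (.e (nat_lit 426556) (nat_lit 32) .nil))))) .nil)) 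
(.lf (nat_lit 104424) (.g (nat_lit 3639) (.e (nat_lit 3632) (nat_lit 227) (.e (nat_lit 778317) (nat_lit 3) (.e (nat_lit 57476) (nat_lit 28) (.e (nat_lit 557097) (nat_lit 13) (.e (nat_lit 172115) (nat_lit 10) (.e (nat_lit 434231) (nat_lit 23) (.e (nat_lit 532531) (nat_lit 9) (.e (nat_lit 336263) (nat_lit 15) .nil)))))))) (.g (nat_lit 6) .nil .nil)))) (.nd (nat_lit 5) 
(.lf (nat_lit 104408) (.g (nat_lit 5095) (.e (nat_lit 3632) (nat_lit 227) (.e (nat_lit 778317) (nat_lit 3) (.e (nat_lit 57476) (nat_lit 28) (.e (nat_lit 557096) (nat_lit 13) (.e (nat_lit 172106) (nat_lit 10) (.e (nat_lit 434231) (nat_lit 23) (.e (nat_lit 532535) (nat_lit 9) (.e (nat_lit 336295) (nat_lit 15) .nil)))))))) (.g (nat_lit 7) .nil .nil))) 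
(.lf (nat_lit 104440) (.g (nat_lit 2364) (.e (nat_lit 3632) (nat_lit 227) (.e (nat_lit 778317) (nat_lit 3) (.e (nat_lit 57476) (nat_lit 28) (.e (nat_lit 557107) (nat_lit 15) (.e (nat_lit 188450) (nat_lit 23) (.e (nat_lit 204851) (nat_lit 26) (.e (nat_lit 336285) (nat_lit 15) .nil))))))) (.g (nat_lit 4) .nil .nil)))))) (.nd (nat_lit 3) (.nd (nat_lit 4) (.nd (nat_lit 5) 
(.lf (nat_lit 104388) (.g (nat_lit 2271) (.e (nat_lit 3631) (nat_lit 227) (.e (nat_lit 778323) (nat_lit 5) (.e (nat_lit 73781) (nat_lit 32) (.e (nat_lit 2857) (nat_lit 184) (.e (nat_lit 426542) (nat_lit 29) (.e (nat_lit 352265) (nat_lit 0) .nil)))))) (.g (nat_lit 5) .nil .nil))) 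
(.lf (nat_lit 104420) (.g (nat_lit 3656) (.e (nat_lit 3632) (nat_lit 227) (.e (nat_lit 778317) (nat_lit 3) (.e (nat_lit 57476) (nat_lit 28) (.e (nat_lit 557097) (nat_lit 13) (.e (nat_lit 172115) (nat_lit 10) (.e (nat_lit 434231) (nat_lit 23) (.e (nat_lit 532528) (nat_lit 9) (.e (nat_lit 336270) (nat_lit 15) .nil)))))))) (.g (nat_lit 6) .nil .nil)))) (.nd (nat_lit 5) 
(.lf (nat_lit 104404) (.g (nat_lit 3095) (.e (nat_lit 3631) (nat_lit 227) (.e (nat_lit 778327) (nat_lit 6) (.e (nat_lit 81957) (nat_lit 24) (.e (nat_lit 123182) (nat_lit 264) (.e (nat_lit 1224) (nat_lit 90) (.e (nat_lit 81922) (nat_lit 0) .nil)))))) (.g (nat_lit 5) .nil .nil))) 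
(.lf (nat_lit 104436) (.g (nat_lit 1522) (.e (nat_lit 3632) (nat_lit 227) (.e (nat_lit 778317) (nat_lit 3) (.e (nat_lit 57476) (nat_lit 28) (.e (nat_lit 557107) (nat_lit 15) (.e (nat_lit 188450) (nat_lit 23) .nil))))) .nil)))) (.nd (nat_lit 4) (.nd (nat_lit 5) 
(.lf (nat_lit 104396) (.g (nat_lit 2286) (.e (nat_lit 3631) (nat_lit 227) (.e (nat_lit 778326) (nat_lit 6) (.e (nat_lit 81948) (nat_lit 21) (.e (nat_lit 57872) (nat_lit 264) (.e (nat_lit 1219) (nat_lit 90) (.e (nat_lit 81922) (nat_lit 0) .nil)))))) (.g (nat_lit 5) .nil .nil))) 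
(.lf (nat_lit 104428) (.g (nat_lit 5245) (.e (nat_lit 3632) (nat_lit 227) (.e (nat_lit 778317) (nat_lit 3) (.e (nat_lit 57476) (nat_lit 28) (.e (nat_lit 557097) (nat_lit 13) (.e (nat_lit 172115) (nat_lit 10) (.e (nat_lit 434231) (nat_lit 23) (.e (nat_lit 532535) (nat_lit 9) (.e (nat_lit 336291) (nat_lit 15) .nil)))))))) (.g (nat_lit 7) .nil .nil)))) (.nd (nat_lit 5) 
(.lf (nat_lit 104412) (.g (nat_lit 4264) (.e (nat_lit 3632) (nat_lit 227) (.e (nat_lit 778317) (nat_lit 3) (.e (nat_lit 57476) (nat_lit 28) (.e (nat_lit 557097) (nat_lit 13) (.e (nat_lit 172097) (nat_lit 9) (.e (nat_lit 426140) (nat_lit 3) (.e (nat_lit 204855) (nat_lit 26) (.e (nat_lit 336291) (nat_lit 15) .nil)))))))) (.g (nat_lit 7) .nil .nil))) 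
(.lf (nat_lit 104444) (.g (nat_lit 3815) (.e (nat_lit 3632) (nat_lit 227) (.e (nat_lit 778317) (nat_lit 3) (.e (nat_lit 57476) (nat_lit 28) (.e (nat_lit 557107) (nat_lit 15) (.e (nat_lit 188450) (nat_lit 23) (.e (nat_lit 204852) (nat_lit 26) (.e (nat_lit 336285) (nat_lit 15) .nil))))))) (.g (nat_lit 6) .nil .nil))))))) (.nd (nat_lit 2) (.nd (nat_lit 3) (.nd (nat_lit 4) (.nd (nat_lit 5) 
(.lf (nat_lit 104386) (.g (nat_lit 2297) (.e (nat_lit 3631) (nat_lit 227) (.e (nat_lit 778323) (nat_lit 5) (.e (nat_lit 73731) (nat_lit 0) (.e (nat_lit 7125) (nat_lit 382) (.e (nat_lit 1214) (nat_lit 89) (.e (nat_lit 73746) (nat_lit 3) (.e (nat_lit 516129) (nat_lit 3) (.e (nat_lit 221203) (nat_lit 20) .nil)))))))) (.g (nat_lit 4) .nil .nil))) 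
(.lf (nat_lit 104418) (.g (nat_lit 3817) (.e (nat_lit 3632) (nat_lit 227) (.e (nat_lit 778317) (nat_lit 3) (.e (nat_lit 57476) (nat_lit 28) (.e (nat_lit 557097) (nat_lit 13) (.e (nat_lit 172115) (nat_lit 10) (.e (nat_lit 434231) (nat_lit 23) (.e (nat_lit 532528) (nat_lit 9) (.e (nat_lit 336262) (nat_lit 15) .nil)))))))) (.g (nat_lit 6) .nil .nil)))) (.nd (nat_lit 5) 
(.lf (nat_lit 104402) (.g (nat_lit 2194) (.e (nat_lit 3631) (nat_lit 227) (.e (nat_lit 778327) (nat_lit 6) (.e (nat_lit 81950) (nat_lit 21) (.e (nat_lit 57872) (nat_lit 264) (.e (nat_lit 1219) (nat_lit 90) (.e (nat_lit 81924) (nat_lit 0) .nil)))))) (.g (nat_lit 5) .nil .nil))) 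
(.lf (nat_lit 104434) (.g (nat_lit 3664) (.e (nat_lit 3632) (nat_lit 227) (.e (nat_lit 778317) (nat_lit 3) (.e (nat_lit 57476) (nat_lit 28) (.e (nat_lit 557107) (nat_lit 15) (.e (nat_lit 188447) (nat_lit 22) (.e (nat_lit 196666) (nat_lit 13) (.e (nat_lit 65640) (nat_lit 15) .nil))))))) (.g (nat_lit 6) .nil .nil))))) (.nd (nat_lit 4) (.nd (nat_lit 5) 
(.lf (nat_lit 104394) (.g (nat_lit 236) (.e (nat_lit 3631) (nat_lit 227) (.e (nat_lit 778323) (nat_lit 5) (.e (nat_lit 81664) (nat_lit 32) .nil))) .nil)) 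
(.lf (nat_lit 104426) (.g (nat_lit 2527) (.e (nat_lit 3632) (nat_lit 227) (.e (nat_lit 778317) (nat_lit 3) (.e (nat_lit 57476) (nat_lit 28) (.e (nat_lit 557097) (nat_lit 13) (.e (nat_lit 172115) (nat_lit 10) (.e (nat_lit 434231) (nat_lit 23) (.e (nat_lit 532531) (nat_lit 9) (.e (nat_lit 336285) (nat_lit 15) .nil)))))))) (.g (nat_lit 4) .nil .nil)))) (.nd (nat_lit 5) 
(.lf (nat_lit 104410) (.g (nat_lit 5753) (.e (nat_lit 3632) (nat_lit 227) (.e (nat_lit 778317) (nat_lit 3) (.e (nat_lit 57476) (nat_lit 28) (.e (nat_lit 557097) (nat_lit 13) (.e (nat_lit 172097) (nat_lit 9) (.e (nat_lit 426125) (nat_lit 2) (.e (nat_lit 196666) (nat_lit 13) (.e (nat_lit 65640) (nat_lit 15) .nil)))))))) (.g (nat_lit 7) .nil .nil))) 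
(.lf (nat_lit 104442) (.g (nat_lit 4236) (.e (nat_lit 3632) (nat_lit 227) (.e (nat_lit 778317) (nat_lit 3) (.e (nat_lit 57476) (nat_lit 28) (.e (nat_lit 557107) (nat_lit 15) (.e (nat_lit 188450) (nat_lit 23) (.e (nat_lit 204852) (nat_lit 26) (.e (nat_lit 336262) (nat_lit 15) .nil))))))) (.g (nat_lit 6) .nil .nil)))))) (.nd (nat_lit 3) (.nd (nat_lit 4) (.nd (nat_lit 5) 
(.lf (nat_lit 104390) (.g (nat_lit 1985) (.e (nat_lit 3631) (nat_lit 227) (.e (nat_lit 778323) (nat_lit 5) (.e (nat_lit 73782) (nat_lit 32) (.e (nat_lit 2854) (nat_lit 184) (.e (nat_lit 426542) (nat_lit 29) (.e (nat_lit 352265) (nat_lit 0) .nil)))))) (.g (nat_lit 5) .nil .nil))) 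
(.lf (nat_lit 104422) (.g (nat_lit 4061) (.e (nat_lit 3632) (nat_lit 227) (.e (nat_lit 778317) (nat_lit 3) (.e (nat_lit 57476) (nat_lit 28) (.e (nat_lit 557097) (nat_lit 13) (.e (nat_lit 172115) (nat_lit 10) (.e (nat_lit 434231) (nat_lit 23) (.e (nat_lit 532528) (nat_lit 9) (.e (nat_lit 336301) (nat_lit 15) .nil)))))))) (.g (nat_lit 6) .nil .nil)))) (.nd (nat_lit 5) 
(.lf (nat_lit 104406) (.g (nat_lit 2471) (.e (nat_lit 3632) (nat_lit 227) (.e (nat_lit 778317) (nat_lit 3) (.e (nat_lit 57464) (nat_lit 23) (.e (nat_lit 516160) (nat_lit 10) (.e (nat_lit 434248) (nat_lit 28) (.e (nat_lit 573482) (nat_lit 13) (.e (nat_lit 73472) (nat_lit 18) (.e (nat_lit 204803) (nat_lit 0) .nil)))))))) (.g (nat_lit 4) .nil .nil))) 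
(.lf (nat_lit 104438) (.g (nat_lit 3002) (.e (nat_lit 3632) (nat_lit 227) (.e (nat_lit 778317) (nat_lit 3) (.e (nat_lit 57476) (nat_lit 28) (.e (nat_lit 557107) (nat_lit 15) (.e (nat_lit 188450) (nat_lit 23) (.e (nat_lit 204851) (nat_lit 26) (.e (nat_lit 336263) (nat_lit 15) .nil))))))) (.g (nat_lit 5) .nil .nil))))) (.nd (nat_lit 4) (.nd (nat_lit 5) 
(.lf (nat_lit 104398) (.g (nat_lit 2394) (.e (nat_lit 3631) (nat_lit 227) (.e (nat_lit 778326) (nat_lit 6) (.e (nat_lit 81950) (nat_lit 21) (.e (nat_lit 57872) (nat_lit 264) (.e (nat_lit 1219) (nat_lit 90) (.e (nat_lit 81922) (nat_lit 0) .nil)))))) (.g (nat_lit 5) .nil .nil))) 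
(.lf (nat_lit 104430) (.g (nat_lit 3758) (.e (nat_lit 3632) (nat_lit 227) (.e (nat_lit 778317) (nat_lit 3) (.e (nat_lit 57476) (nat_lit 28) (.e (nat_lit 557097) (nat_lit 13) (.e (nat_lit 172115) (nat_lit 10) (.e (nat_lit 434231) (nat_lit 23) (.e (nat_lit 532536) (nat_lit 9) (.e (nat_lit 336291) (nat_lit 15) .nil)))))))) (.g (nat_lit 6) .nil .nil)))) (.nd (nat_lit 5) 
(.lf (nat_lit 104414) (.g (nat_lit 2923) (.e (nat_lit 3632) (nat_lit 227) (.e (nat_lit 778317) (nat_lit 3) (.e (nat_lit 57476) (nat_lit 28) (.e (nat_lit 557097) (nat_lit 13) (.e (nat_lit 172097) (nat_lit 9) (.e (nat_lit 426140) (nat_lit 3) (.e (nat_lit 204859) (nat_lit 26) (.e (nat_lit 336300) (nat_lit 15) .nil)))))))) (.g (nat_lit 5) .nil .nil))) 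
(.lf (nat_lit 104446) (.g (nat_lit 3974) (.e (nat_lit 3632) (nat_lit 227) (.e (nat_lit 778317) (nat_lit 3) (.e (nat_lit 57476) (nat_lit 28) (.e (nat_lit 557107) (nat_lit 15) (.e (nat_lit 188450) (nat_lit 23) (.e (nat_lit 204852) (nat_lit 26) (.e (nat_lit 336301) (nat_lit 15) .nil))))))) (.g (nat_lit 6) .nil .nil)))))))) 
(.nd (nat_lit 1) (.nd (nat_lit 2) (.nd (nat_lit 3) (.nd (nat_lit 4) (.nd (nat_lit 5) 
(.lf (nat_lit 104385) (.g (nat_lit 2686) (.e (nat_lit 3631) (nat_lit 227) (.e (nat_lit 778320) (nat_lit 4) (.e (nat_lit 65630) (nat_lit 14) (.e (nat_lit 401459) (nat_lit 13) (.e (nat_lit 483391) (nat_lit 23) (.e (nat_lit 336300) (nat_lit 15) .nil)))))) (.g (nat_lit 4) .nil .nil))) 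
(.lf (nat_lit 104417) (.g (nat_lit 4798) (.e (nat_lit 3632) (nat_lit 227) (.e (nat_lit 778317) (nat_lit 3) (.e (nat_lit 57476) (nat_lit 28) (.e (nat_lit 557097) (nat_lit 13) (.e (nat_lit 172115) (nat_lit 10) (.e (nat_lit 434231) (nat_lit 23) (.e (nat_lit 532527) (nat_lit 9) (.e (nat_lit 336282) (nat_lit 15) .nil)))))))) (.g (nat_lit 7) .nil .nil)))) (.nd (nat_lit 5) 
(.lf (nat_lit 104401) (.g (nat_lit 1657) (.e (nat_lit 3631) (nat_lit 227) (.e (nat_lit 778327) (nat_lit 6) (.e (nat_lit 81949) (nat_lit 21) (.e (nat_lit 57870) (nat_lit 264) (.e (nat_lit 1219) (nat_lit 90) (.e (nat_lit 81924) (nat_lit 0) .nil)))))) (.g (nat_lit 4) .nil .nil))) 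
(.lf (nat_lit 104433) (.g (nat_lit 1071) (.e (nat_lit 3632) (nat_lit 227) (.e (nat_lit 778317) (nat_lit 3) (.e (nat_lit 57476) (nat_lit 28) (.e (nat_lit 557107) (nat_lit 15) .nil)))) .nil)))) (.nd (nat_lit 4) (.nd (nat_lit 5) 
(.lf (nat_lit 104393) (.g (nat_lit 2380) (.e (nat_lit 3631) (nat_lit 227) (.e (nat_lit 778323) (nat_lit 5) (.e (nat_lit 73782) (nat_lit 32) (.e (nat_lit 2857) (nat_lit 184) (.e (nat_lit 426542) (nat_lit 29) (.e (nat_lit 352265) (nat_lit 0) .nil)))))) (.g (nat_lit 5) .nil .nil))) 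
(.lf (nat_lit 104425) (.g (nat_lit 2670) (.e (nat_lit 3632) (nat_lit 227) (.e (nat_lit 778317) (nat_lit 3) (.e (nat_lit 57476) (nat_lit 28) (.e (nat_lit 557097) (nat_lit 13) (.e (nat_lit 172115) (nat_lit 10) (.e (nat_lit 434231) (nat_lit 23) (.e (nat_lit 532531) (nat_lit 9) (.e (nat_lit 336265) (nat_lit 15) .nil)))))))) (.g (nat_lit 5) .nil .nil)))) (.nd (nat_lit 5) 
(.lf (nat_lit 104409) (.g (nat_lit 5214) (.e (nat_lit 3632) (nat_lit 227) (.e (nat_lit 778317) (nat_lit 3) (.e (nat_lit 57476) (nat_lit 28) (.e (nat_lit 557097) (nat_lit 13) (.e (nat_lit 172094) (nat_lit 9) (.e (nat_lit 426125) (nat_lit 2) (.e (nat_lit 196665) (nat_lit 13) (.e (nat_lit 65637) (nat_lit 15) .nil)))))))) (.g (nat_lit 6) .nil .nil))) 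
(.lf (nat_lit 104441) (.g (nat_lit 2471) (.e (nat_lit 3632) (nat_lit 227) (.e (nat_lit 778317) (nat_lit 3) (.e (nat_lit 57476) (nat_lit 28) (.e (nat_lit 557107) (nat_lit 15) (.e (nat_lit 188450) (nat_lit 23) (.e (nat_lit 204851) (nat_lit 26) (.e (nat_lit 336301) (nat_lit 15) .nil))))))) (.g (nat_lit 5) .nil .nil)))))) (.nd (nat_lit 3) (.nd (nat_lit 4) (.nd (nat_lit 5) 
(.lf (nat_lit 104389) (.g (nat_lit 285) (.e (nat_lit 3631) (nat_lit 227) (.e (nat_lit 778323) (nat_lit 5) (.e (nat_lit 73782) (nat_lit 32) .nil))) .nil)) 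
(.lf (nat_lit 104421) (.g (nat_lit 3934) (.e (nat_lit 3632) (nat_lit 227) (.e (nat_lit 778317) (nat_lit 3) (.e (nat_lit 57476) (nat_lit 28) (.e (nat_lit 557097) (nat_lit 13) (.e (nat_lit 172115) (nat_lit 10) (.e (nat_lit 434231) (nat_lit 23) (.e (nat_lit 532528) (nat_lit 9) (.e (nat_lit 336285) (nat_lit 15) .nil)))))))) (.g (nat_lit 6) .nil .nil)))) (.nd (nat_lit 5) 
(.lf (nat_lit 104405) (.g (nat_lit 1521) (.e (nat_lit 3631) (nat_lit 227) (.e (nat_lit 778327) (nat_lit 6) (.e (nat_lit 81957) (nat_lit 24) (.e (nat_lit 123197) (nat_lit 266) (.e (nat_lit 57435) (nat_lit 17) (.e (nat_lit 376835) (nat_lit 0) .nil)))))) (.g (nat_lit 4) .nil .nil))) 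
(.lf (nat_lit 104437) (.g (nat_lit 2422) (.e (nat_lit 3632) (nat_lit 227) (.e (nat_lit 778317) (nat_lit 3) (.e (nat_lit 57476) (nat_lit 28) (.e (nat_lit 557107) (nat_lit 15) (.e (nat_lit 188450) (nat_lit 23) (.e (nat_lit 204851) (nat_lit 26) (.e (nat_lit 336262) (nat_lit 15) .nil))))))) (.g (nat_lit 5) .nil .nil))))) (.nd (nat_lit 4) (.nd (nat_lit 5) 
(.lf (nat_lit 104397) (.g (nat_lit 2273) (.e (nat_lit 3631) (nat_lit 227) (.e (nat_lit 778326) (nat_lit 6) (.e (nat_lit 81948) (nat_lit 21) (.e (nat_lit 57872) (nat_lit 264) (.e (nat_lit 1221) (nat_lit 90) (.e (nat_lit 81923) (nat_lit 0) .nil)))))) (.g (nat_lit 5) .nil .nil))) 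
(.lf (nat_lit 104429) (.g (nat_lit 4194) (.e (nat_lit 3632) (nat_lit 227) (.e (nat_lit 778317) (nat_lit 3) (.e (nat_lit 57476) (nat_lit 28) (.e (nat_lit 557097) (nat_lit 13) (.e (nat_lit 172115) (nat_lit 10) (.e (nat_lit 434231) (nat_lit 23) (.e (nat_lit 532536) (nat_lit 9) (.e (nat_lit 336282) (nat_lit 15) .nil)))))))) (.g (nat_lit 6) .nil .nil)))) (.nd (nat_lit 5) 
(.lf (nat_lit 104413) (.g (nat_lit 2475) (.e (nat_lit 3632) (nat_lit 227) (.e (nat_lit 778317) (nat_lit 3) (.e (nat_lit 57476) (nat_lit 28) (.e (nat_lit 557097) (nat_lit 13) (.e (nat_lit 172097) (nat_lit 9) (.e (nat_lit 426140) (nat_lit 3) (.e (nat_lit 204855) (nat_lit 26) (.e (nat_lit 336294) (nat_lit 15) .nil)))))))) (.g (nat_lit 4) .nil .nil))) 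
(.lf (nat_lit 104445) (.g (nat_lit 3837) (.e (nat_lit 3632) (nat_lit 227) (.e (nat_lit 778317) (nat_lit 3) (.e (nat_lit 57476) (nat_lit 28) (.e (nat_lit 557107) (nat_lit 15) (.e (nat_lit 188450) (nat_lit 23) (.e (nat_lit 204852) (nat_lit 26) (.e (nat_lit 336297) (nat_lit 15) .nil))))))) (.g (nat_lit 6) .nil .nil))))))) (.nd (nat_lit 2) (.nd (nat_lit 3) (.nd (nat_lit 4) (.nd (nat_lit 5) 
(.lf (nat_lit 104387) (.g (nat_lit 285) (.e (nat_lit 3631) (nat_lit 227) (.e (nat_lit 778323) (nat_lit 5) (.e (nat_lit 73781) (nat_lit 32) .nil))) .nil)) 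
(.lf (nat_lit 104419) (.g (nat_lit 4685) (.e (nat_lit 3632) (nat_lit 227) (.e (nat_lit 778317) (nat_lit 3) (.e (nat_lit 57476) (nat_lit 28) (.e (nat_lit 557097) (nat_lit 13) (.e (nat_lit 172115) (nat_lit 10) (.e (nat_lit 434231) (nat_lit 23) (.e (nat_lit 532528) (nat_lit 9) (.e (nat_lit 336263) (nat_lit 15) .nil)))))))) (.g (nat_lit 7) .nil .nil)))) (.nd (nat_lit 5) 
(.lf (nat_lit 104403) (.g (nat_lit 1909) (.e (nat_lit 3631) (nat_lit 227) (.e (nat_lit 778327) (nat_lit 6) (.e (nat_lit 81950) (nat_lit 21) (.e (nat_lit 57873) (nat_lit 264) (.e (nat_lit 1219) (nat_lit 90) (.e (nat_lit 81922) (nat_lit 0) .nil)))))) (.g (nat_lit 4) .nil .nil))) 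
(.lf (nat_lit 104435) (.g (nat_lit 3074) (.e (nat_lit 3632) (nat_lit 227) (.e (nat_lit 778317) (nat_lit 3) (.e (nat_lit 57476) (nat_lit 28) (.e (nat_lit 557107) (nat_lit 15) (.e (nat_lit 188447) (nat_lit 22) (.e (nat_lit 196666) (nat_lit 13) (.e (nat_lit 65641) (nat_lit 15) .nil))))))) (.g (nat_lit 5) .nil .nil))))) (.nd (nat_lit 4) (.nd (nat_lit 5) 
(.lf (nat_lit 104395) (.g (nat_lit 236) (.e (nat_lit 3631) (nat_lit 227) (.e (nat_lit 778323) (nat_lit 5) (.e (nat_lit 81664) (nat_lit 36) .nil))) .nil)) 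
(.lf (nat_lit 104427) (.g (nat_lit 6156) (.e (nat_lit 3632) (nat_lit 227) (.e (nat_lit 778317) (nat_lit 3) (.e (nat_lit 57476) (nat_lit 28) (.e (nat_lit 557097) (nat_lit 13) (.e (nat_lit 172115) (nat_lit 10) (.e (nat_lit 434231) (nat_lit 23) (.e (nat_lit 532535) (nat_lit 9) (.e (nat_lit 336282) (nat_lit 15) .nil)))))))) (.g (nat_lit 0) .nil .nil)))) (.nd (nat_lit 5) 
(.lf (nat_lit 104411) (.g (nat_lit 5222) (.e (nat_lit 3632) (nat_lit 227) (.e (nat_lit 778317) (nat_lit 3) (.e (nat_lit 57476) (nat_lit 28) (.e (nat_lit 557097) (nat_lit 13) (.e (nat_lit 172097) (nat_lit 9) (.e (nat_lit 426140) (nat_lit 3) (.e (nat_lit 204855) (nat_lit 26) (.e (nat_lit 336282) (nat_lit 15) .nil)))))))) (.g (nat_lit 0) .nil .nil))) 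
(.lf (nat_lit 104443) (.g (nat_lit 4152) (.e (nat_lit 3632) (nat_lit 227) (.e (nat_lit 778317) (nat_lit 3) (.e (nat_lit 57476) (nat_lit 28) (.e (nat_lit 557107) (nat_lit 15) (.e (nat_lit 188450) (nat_lit 23) (.e (nat_lit 204852) (nat_lit 26) (.e (nat_lit 336263) (nat_lit 15) .nil))))))) (.g (nat_lit 6) .nil .nil)))))) (.nd (nat_lit 3) (.nd (nat_lit 4) (.nd (nat_lit 5) 
(.lf (nat_lit 104391) (.g (nat_lit 2067) (.e (nat_lit 3631) (nat_lit 227) (.e (nat_lit 778323) (nat_lit 5) (.e (nat_lit 73782) (nat_lit 32) (.e (nat_lit 2855) (nat_lit 184) (.e (nat_lit 426542) (nat_lit 29) (.e (nat_lit 352265) (nat_lit 0) .nil)))))) (.g (nat_lit 5) .nil .nil))) 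
(.lf (nat_lit 104423) (.g (nat_lit 4439) (.e (nat_lit 3632) (nat_lit 227) (.e (nat_lit 778317) (nat_lit 3) (.e (nat_lit 57476) (nat_lit 28) (.e (nat_lit 557097) (nat_lit 13) (.e (nat_lit 172115) (nat_lit 10) (.e (nat_lit 434231) (nat_lit 23) (.e (nat_lit 532529) (nat_lit 9) (.e (nat_lit 336297) (nat_lit 15) .nil)))))))) (.g (nat_lit 6) .nil .nil)))) (.nd (nat_lit 5) 
(.lf (nat_lit 104407) (.g (nat_lit 546) (.e (nat_lit 3632) (nat_lit 227) (.e (nat_lit 778317) (nat_lit 3) (.e (nat_lit 57476) (nat_lit 28) .nil))) .nil)) 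
(.lf (nat_lit 104439) (.g (nat_lit 2121) (.e (nat_lit 3632) (nat_lit 227) (.e (nat_lit 778317) (nat_lit 3) (.e (nat_lit 57476) (nat_lit 28) (.e (nat_lit 557107) (nat_lit 15) (.e (nat_lit 188450) (nat_lit 23) (.e (nat_lit 204851) (nat_lit 26) (.e (nat_lit 336265) (nat_lit 15) .nil))))))) (.g (nat_lit 4) .nil .nil))))) (.nd (nat_lit 4) (.nd (nat_lit 5) 
(.lf (nat_lit 104399) (.g (nat_lit 2345) (.e (nat_lit 3631) (nat_lit 227) (.e (nat_lit 778326) (nat_lit 6) (.e (nat_lit 81950) (nat_lit 21) (.e (nat_lit 57872) (nat_lit 264) (.e (nat_lit 1221) (nat_lit 90) (.e (nat_lit 81923) (nat_lit 0) .nil)))))) (.g (nat_lit 5) .nil .nil))) 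
(.lf (nat_lit 104431) (.g (nat_lit 3321) (.e (nat_lit 3632) (nat_lit 227) (.e (nat_lit 778317) (nat_lit 3) (.e (nat_lit 57476) (nat_lit 28) (.e (nat_lit 557097) (nat_lit 13) (.e (nat_lit 172115) (nat_lit 10) (.e (nat_lit 434231) (nat_lit 23) (.e (nat_lit 532536) (nat_lit 9) (.e (nat_lit 336292) (nat_lit 15) .nil)))))))) (.g (nat_lit 5) .nil .nil)))) (.nd (nat_lit 5) 
(.lf (nat_lit 104415) (.g (nat_lit 2839) (.e (nat_lit 3632) (nat_lit 227) (.e (nat_lit 778317) (nat_lit 3) (.e (nat_lit 57476) (nat_lit 28) (.e (nat_lit 557097) (nat_lit 13) (.e (nat_lit 172097) (nat_lit 9) (.e (nat_lit 426140) (nat_lit 3) (.e (nat_lit 212736) (nat_lit 26) (.e (nat_lit 336277) (nat_lit 15) .nil)))))))) (.g (nat_lit 5) .nil .nil))) 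
(.lf (nat_lit 104447) (.g (nat_lit 4618) (.e (nat_lit 3632) (nat_lit 227) (.e (nat_lit 778317) (nat_lit 3) (.e (nat_lit 57476) (nat_lit 28) (.e (nat_lit 557107) (nat_lit 15) (.e (nat_lit 188450) (nat_lit 23) (.e (nat_lit 204855) (nat_lit 26) (.e (nat_lit 336282) (nat_lit 15) .nil))))))) (.g (nat_lit 0) .nil .nil)))))))))

noncomputable def tv1427 : DT := (.nd (nat_lit 0) (.nd (nat_lit 1) (.nd (nat_lit 2) (.nd (nat_lit 3) (.nd (nat_lit 4) (.nd (nat_lit 5) 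
(.lf (nat_lit 104448) (.g (nat_lit 4066) (.e (nat_lit 3632) (nat_lit 227) (.e (nat_lit 778317) (nat_lit 3) (.e (nat_lit 57476) (nat_lit 28) (.e (nat_lit 557107) (nat_lit 15) (.e (nat_lit 188450) (nat_lit 23) (.e (nat_lit 204855) (nat_lit 26) (.e (nat_lit 336291) (nat_lit 15) .nil))))))) (.g (nat_lit 6) .nil .nil))) 
(.lf (nat_lit 104480) (.g (nat_lit 4494) (.e (nat_lit 3632) (nat_lit 227) (.e (nat_lit 778317) (nat_lit 3) (.e (nat_lit 57476) (nat_lit 28) (.e (nat_lit 557108) (nat_lit 15) (.e (nat_lit 188452) (nat_lit 23) (.e (nat_lit 204851) (nat_lit 26) (.e (nat_lit 336263) (nat_lit 15) .nil))))))) (.g (nat_lit 6) .nil .nil)))) (.nd (nat_lit 5) 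
(.lf (nat_lit 104464) (.g (nat_lit 2820) (.e (nat_lit 3632) (nat_lit 227) (.e (nat_lit 778317) (nat_lit 3) (.e (nat_lit 57476) (nat_lit 28) (.e (nat_lit 557108) (nat_lit 15) (.e (nat_lit 188433) (nat_lit 20) (.e (nat_lit 3140) (nat_lit 193) (.e (nat_lit 500065) (nat_lit 18) (.e (nat_lit 65642) (nat_lit 15) .nil)))))))) (.g (nat_lit 4) .nil .nil))) 
(.lf (nat_lit 104496) (.g (nat_lit 3351) (.e (nat_lit 3632) (nat_lit 227) (.e (nat_lit 778317) (nat_lit 3) (.e (nat_lit 57476) (nat_lit 28) (.e (nat_lit 557108) (nat_lit 15) (.e (nat_lit 188452) (nat_lit 23) (.e (nat_lit 212736) (nat_lit 26) (.e (nat_lit 336277) (nat_lit 15) .nil))))))) (.g (nat_lit 5) .nil .nil))))) (.nd (nat_lit 4) (.nd (nat_lit 5) 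
(.lf (nat_lit 104456) (.g (nat_lit 2119) (.e (nat_lit 3632) (nat_lit 227) (.e (nat_lit 778317) (nat_lit 3) (.e (nat_lit 57476) (nat_lit 28) (.e (nat_lit 557107) (nat_lit 15) (.e (nat_lit 188450) (nat_lit 23) (.e (nat_lit 212736) (nat_lit 26) (.e (nat_lit 336277) (nat_lit 15) .nil))))))) (.g (nat_lit 4) .nil .nil))) 
(.lf (nat_lit 104488) (.g (nat_lit 5105) (.e (nat_lit 3632) (nat_lit 227) (.e (nat_lit 778317) (nat_lit 3) (.e (nat_lit 57476) (nat_lit 28) (.e (nat_lit 557108) (nat_lit 15) (.e (nat_lit 188452) (nat_lit 23) (.e (nat_lit 204852) (nat_lit 26) (.e (nat_lit 336301) (nat_lit 15) .nil))))))) (.g (nat_lit 6) .nil .nil)))) (.nd (nat_lit 5) 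
(.lf (nat_lit 104472) (.g (nat_lit 6579) (.e (nat_lit 3632) (nat_lit 227) (.e (nat_lit 778317) (nat_lit 3) (.e (nat_lit 57476) (nat_lit 28) (.e (nat_lit 557108) (nat_lit 15) (.e (nat_lit 188449) (nat_lit 22) (.e (nat_lit 196680) (nat_lit 17) (.e (nat_lit 131133) (nat_lit 15) .nil))))))) (.g (nat_lit 6) .nil .nil))) 
(.lf (nat_lit 104504) (.g (nat_lit 4854) (.e (nat_lit 3632) (nat_lit 227) (.e (nat_lit 778317) (nat_lit 3) (.e (nat_lit 57477) (nat_lit 28) (.e (nat_lit 557096) (nat_lit 13) (.e (nat_lit 172106) (nat_lit 10) (.e (nat_lit 434231) (nat_lit 23) (.e (nat_lit 532535) (nat_lit 9) (.e (nat_lit 336295) (nat_lit 15) .nil)))))))) (.g (nat_lit 7) .nil .nil)))))) 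
(.nd (nat_lit 3) (.nd (nat_lit 4) (.nd (nat_lit 5) 
(.lf (nat_lit 104452) (.g (nat_lit 2267) (.e (nat_lit 3632) (nat_lit 227) (.e (nat_lit 778317) (nat_lit 3) (.e (nat_lit 57476) (nat_lit 28) (.e (nat_lit 557107) (nat_lit 15) (.e (nat_lit 188450) (nat_lit 23) (.e (nat_lit 204858) (nat_lit 26) (.e (nat_lit 336292) (nat_lit 15) .nil))))))) (.g (nat_lit 4) .nil .nil))) 
(.lf (nat_lit 104484) (.g (nat_lit 5333) (.e (nat_lit 3632) (nat_lit 227) (.e (nat_lit 778317) (nat_lit 3) (.e (nat_lit 57476) (nat_lit 28) (.e (nat_lit 557108) (nat_lit 15) (.e (nat_lit 188452) (nat_lit 23) (.e (nat_lit 204852) (nat_lit 26) (.e (nat_lit 336262) (nat_lit 15) .nil))))))) (.g (nat_lit 6) .nil .nil)))) (.nd (nat_lit 5) 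
(.lf (nat_lit 104468) (.g (nat_lit 5790) (.e (nat_lit 3632) (nat_lit 227) (.e (nat_lit 778317) (nat_lit 3) (.e (nat_lit 57476) (nat_lit 28) (.e (nat_lit 557108) (nat_lit 15) (.e (nat_lit 188449) (nat_lit 22) (.e (nat_lit 196663) (nat_lit 13) (.e (nat_lit 65642) (nat_lit 15) .nil))))))) (.g (nat_lit 5) .nil .nil))) 
(.lf (nat_lit 104500) (.g (nat_lit 2553) (.e (nat_lit 3632) (nat_lit 227) (.e (nat_lit 778317) (nat_lit 3) (.e (nat_lit 57476) (nat_lit 28) (.e (nat_lit 557108) (nat_lit 15) (.e (nat_lit 188458) (nat_lit 25) (.e (nat_lit 245794) (nat_lit 17) (.e (nat_lit 131133) (nat_lit 15) .nil))))))) (.g (nat_lit 4) .nil .nil))))) (.nd (nat_lit 4) (.nd (nat_lit 5) 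
(.lf (nat_lit 104460) (.g (nat_lit 2730) (.e (nat_lit 3632) (nat_lit 227) (.e (nat_lit 778317) (nat_lit 3) (.e (nat_lit 57476) (nat_lit 28) (.e (nat_lit 557108) (nat_lit 15) (.e (nat_lit 188433) (nat_lit 20) (.e (nat_lit 3132) (nat_lit 193) (.e (nat_lit 500065) (nat_lit 18) (.e (nat_lit 65642) (nat_lit 15) .nil)))))))) (.g (nat_lit 4) .nil .nil))) 
(.lf (nat_lit 104492) (.g (nat_lit 4154) (.e (nat_lit 3632) (nat_lit 227) (.e (nat_lit 778317) (nat_lit 3) (.e (nat_lit 57476) (nat_lit 28) (.e (nat_lit 557108) (nat_lit 15) (.e (nat_lit 188452) (nat_lit 23) (.e (nat_lit 204857) (nat_lit 26) (.e (nat_lit 336295) (nat_lit 15) .nil))))))) (.g (nat_lit 5) .nil .nil)))) (.nd (nat_lit 5) 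
(.lf (nat_lit 104476) (.g (nat_lit 2607) (.e (nat_lit 3632) (nat_lit 227) (.e (nat_lit 778317) (nat_lit 3) (.e (nat_lit 57476) (nat_lit 28) (.e (nat_lit 557108) (nat_lit 15) (.e (nat_lit 188450) (nat_lit 23) (.e (nat_lit 204855) (nat_lit 26) (.e (nat_lit 336282) (nat_lit 15) .nil))))))) (.g (nat_lit 4) .nil .nil))) 
(.lf (nat_lit 104508) (.g (nat_lit 2506) (.e (nat_lit 3632) (nat_lit 227) (.e (nat_lit 778317) (nat_lit 3) (.e (nat_lit 57477) (nat_lit 28) (.e (nat_lit 557097) (nat_lit 13) (.e (nat_lit 172097) (nat_lit 9) (.e (nat_lit 426140) (nat_lit 3) (.e (nat_lit 212736) (nat_lit 26) (.e (nat_lit 336277) (nat_lit 15) .nil)))))))) (.g (nat_lit 5) .nil .nil))))))) 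
(.nd (nat_lit 2) (.nd (nat_lit 3) (.nd (nat_lit 4) (.nd (nat_lit 5) 
(.lf (nat_lit 104450) (.g (nat_lit 2852) (.e (nat_lit 3632) (nat_lit 227) (.e (nat_lit 778317) (nat_lit 3) (.e (nat_lit 57476) (nat_lit 28) (.e (nat_lit 557107) (nat_lit 15) (.e (nat_lit 188450) (nat_lit 23) (.e (nat_lit 204856) (nat_lit 26) (.e (nat_lit 336282) (nat_lit 15) .nil))))))) (.g (nat_lit 5) .nil .nil))) 
(.lf (nat_lit 104482) (.g (nat_lit 3841) (.e (nat_lit 3632) (nat_lit 227) (.e (nat_lit 778317) (nat_lit 3) (.e (nat_lit 57476) (nat_lit 28) (.e (nat_lit 557108) (nat_lit 15) (.e (nat_lit 188452) (nat_lit 23) (.e (nat_lit 204851) (nat_lit 26) (.e (nat_lit 336285) (nat_lit 15) .nil))))))) (.g (nat_lit 5) .nil .nil)))) (.nd (nat_lit 5) 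
(.lf (nat_lit 104466) (.g (nat_lit 4330) (.e (nat_lit 3632) (nat_lit 227) (.e (nat_lit 778317) (nat_lit 3) (.e (nat_lit 57476) (nat_lit 28) (.e (nat_lit 557108) (nat_lit 15) (.e (nat_lit 188447) (nat_lit 22) (.e (nat_lit 196664) (nat_lit 13) (.e (nat_lit 65637) (nat_lit 15) .nil))))))) (.g (nat_lit 5) .nil .nil))) 
(.lf (nat_lit 104498) (.g (nat_lit 2180) (.e (nat_lit 3632) (nat_lit 227) (.e (nat_lit 778317) (nat_lit 3) (.e (nat_lit 57476) (nat_lit 28) (.e (nat_lit 557108) (nat_lit 15) (.e (nat_lit 188458) (nat_lit 25) .nil))))) .nil)))) (.nd (nat_lit 4) (.nd (nat_lit 5) 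
(.lf (nat_lit 104458) (.g (nat_lit 1260) (.e (nat_lit 3632) (nat_lit 227) (.e (nat_lit 778317) (nat_lit 3) (.e (nat_lit 57476) (nat_lit 28) (.e (nat_lit 557108) (nat_lit 15) .nil)))) .nil)) 
(.lf (nat_lit 104490) (.g (nat_lit 3538) (.e (nat_lit 3632) (nat_lit 227) (.e (nat_lit 778317) (nat_lit 3) (.e (nat_lit 57476) (nat_lit 28) (.e (nat_lit 557108) (nat_lit 15) (.e (nat_lit 188452) (nat_lit 23) (.e (nat_lit 204856) (nat_lit 26) (.e (nat_lit 336291) (nat_lit 15) .nil))))))) (.g (nat_lit 5) .nil .nil)))) (.nd (nat_lit 5) 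
(.lf (nat_lit 104474) (.g (nat_lit 2638) (.e (nat_lit 3632) (nat_lit 227) (.e (nat_lit 778317) (nat_lit 3) (.e (nat_lit 57476) (nat_lit 28) (.e (nat_lit 557108) (nat_lit 15) (.e (nat_lit 188449) (nat_lit 22) (.e (nat_lit 204544) (nat_lit 17) (.e (nat_lit 131133) (nat_lit 15) .nil))))))) (.g (nat_lit 4) .nil .nil))) 
(.lf (nat_lit 104506) (.g (nat_lit 3899) (.e (nat_lit 3632) (nat_lit 227) (.e (nat_lit 778317) (nat_lit 3) (.e (nat_lit 57477) (nat_lit 28) (.e (nat_lit 557097) (nat_lit 13) (.e (nat_lit 172097) (nat_lit 9) (.e (nat_lit 426140) (nat_lit 3) (.e (nat_lit 204855) (nat_lit 26) (.e (nat_lit 336291) (nat_lit 15) .nil)))))))) (.g (nat_lit 7) .nil .nil)))))) 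
(.nd (nat_lit 3) (.nd (nat_lit 4) (.nd (nat_lit 5) 
(.lf (nat_lit 104454) (.g (nat_lit 3228) (.e (nat_lit 3632) (nat_lit 227) (.e (nat_lit 778317) (nat_lit 3) (.e (nat_lit 57476) (nat_lit 28) (.e (nat_lit 557107) (nat_lit 15) (.e (nat_lit 188450) (nat_lit 23) (.e (nat_lit 204859) (nat_lit 26) (.e (nat_lit 336300) (nat_lit 15) .nil))))))) (.g (nat_lit 6) .nil .nil))) 
(.lf (nat_lit 104486) (.g (nat_lit 4904) (.e (nat_lit 3632) (nat_lit 227) (.e (nat_lit 778317) (nat_lit 3) (.e (nat_lit 57476) (nat_lit 28) (.e (nat_lit 557108) (nat_lit 15) (.e (nat_lit 188452) (nat_lit 23) (.e (nat_lit 204852) (nat_lit 26) (.e (nat_lit 336285) (nat_lit 15) .nil))))))) (.g (nat_lit 6) .nil .nil)))) (.nd (nat_lit 5) 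
(.lf (nat_lit 104470) (.g (nat_lit 6533) (.e (nat_lit 3632) (nat_lit 227) (.e (nat_lit 778317) (nat_lit 3) (.e (nat_lit 57476) (nat_lit 28) (.e (nat_lit 557108) (nat_lit 15) (.e (nat_lit 188449) (nat_lit 22) (.e (nat_lit 196679) (nat_lit 17) (.e (nat_lit 131133) (nat_lit 15) .nil))))))) (.g (nat_lit 5) .nil .nil))) 
(.lf (nat_lit 104502) (.g (nat_lit 2595) (.e (nat_lit 3632) (nat_lit 227) (.e (nat_lit 778317) (nat_lit 3) (.e (nat_lit 57476) (nat_lit 28) (.e (nat_lit 557109) (nat_lit 15) (.e (nat_lit 188452) (nat_lit 23) .nil))))) .nil)))) (.nd (nat_lit 4) (.nd (nat_lit 5) 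
(.lf (nat_lit 104462) (.g (nat_lit 2701) (.e (nat_lit 3632) (nat_lit 227) (.e (nat_lit 778317) (nat_lit 3) (.e (nat_lit 57476) (nat_lit 28) (.e (nat_lit 557108) (nat_lit 15) (.e (nat_lit 188433) (nat_lit 20) (.e (nat_lit 3138) (nat_lit 193) (.e (nat_lit 500065) (nat_lit 18) (.e (nat_lit 65642) (nat_lit 15) .nil)))))))) (.g (nat_lit 4) .nil .nil))) 
(.lf (nat_lit 104494) (.g (nat_lit 5093) (.e (nat_lit 3632) (nat_lit 227) (.e (nat_lit 778317) (nat_lit 3) (.e (nat_lit 57476) (nat_lit 28) (.e (nat_lit 557108) (nat_lit 15) (.e (nat_lit 188452) (nat_lit 23) (.e (nat_lit 204859) (nat_lit 26) (.e (nat_lit 336277) (nat_lit 15) .nil))))))) (.g (nat_lit 7) .nil .nil)))) (.nd (nat_lit 5) 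
(.lf (nat_lit 104478) (.g (nat_lit 2192) (.e (nat_lit 3632) (nat_lit 227) (.e (nat_lit 778317) (nat_lit 3) (.e (nat_lit 57476) (nat_lit 28) (.e (nat_lit 557108) (nat_lit 15) (.e (nat_lit 188452) (nat_lit 23) (.e (nat_lit 204850) (nat_lit 26) (.e (nat_lit 336282) (nat_lit 15) .nil))))))) (.g (nat_lit 4) .nil .nil))) 
(.lf (nat_lit 104510) (.g (nat_lit 4237) (.e (nat_lit 3632) (nat_lit 227) (.e (nat_lit 778317) (nat_lit 3) (.e (nat_lit 57477) (nat_lit 28) (.e (nat_lit 557097) (nat_lit 13) (.e (nat_lit 172115) (nat_lit 10) (.e (nat_lit 434231) (nat_lit 23) (.e (nat_lit 532528) (nat_lit 9) (.e (nat_lit 336263) (nat_lit 15) .nil)))))))) (.g (nat_lit 7) .nil .nil)))))))) 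
(.nd (nat_lit 1) (.nd (nat_lit 2) (.nd (nat_lit 3) (.nd (nat_lit 4) (.nd (nat_lit 5) 
(.lf (nat_lit 104449) (.g (nat_lit 2359) (.e (nat_lit 3632) (nat_lit 227) (.e (nat_lit 778317) (nat_lit 3) (.e (nat_lit 57476) (nat_lit 28) (.e (nat_lit 557107) (nat_lit 15) (.e (nat_lit 188450) (nat_lit 23) (.e (nat_lit 204855) (nat_lit 26) (.e (nat_lit 336294) (nat_lit 15) .nil))))))) (.g (nat_lit 4) .nil .nil))) 
(.lf (nat_lit 104481) (.g (nat_lit 3598) (.e (nat_lit 3632) (nat_lit 227) (.e (nat_lit 778317) (nat_lit 3) (.e (nat_lit 57476) (nat_lit 28) (.e (nat_lit 557108) (nat_lit 15) (.e (nat_lit 188452) (nat_lit 23) (.e (nat_lit 204851) (nat_lit 26) (.e (nat_lit 336265) (nat_lit 15) .nil))))))) (.g (nat_lit 5) .nil .nil)))) (.nd (nat_lit 5) 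
(.lf (nat_lit 104465) (.g (nat_lit 2811) (.e (nat_lit 3632) (nat_lit 227) (.e (nat_lit 778317) (nat_lit 3) (.e (nat_lit 57476) (nat_lit 28) (.e (nat_lit 557108) (nat_lit 15) (.e (nat_lit 188433) (nat_lit 20) (.e (nat_lit 3148) (nat_lit 193) (.e (nat_lit 500065) (nat_lit 18) (.e (nat_lit 65642) (nat_lit 15) .nil)))))))) (.g (nat_lit 4) .nil .nil))) 
(.lf (nat_lit 104497) (.g (nat_lit 2383) (.e (nat_lit 3632) (nat_lit 227) (.e (nat_lit 778317) (nat_lit 3) (.e (nat_lit 57476) (nat_lit 28) (.e (nat_lit 557108) (nat_lit 15) (.e (nat_lit 188452) (nat_lit 23) (.e (nat_lit 212736) (nat_lit 26) (.e (nat_lit 336300) (nat_lit 15) .nil))))))) (.g (nat_lit 4) .nil .nil))))) (.nd (nat_lit 4) (.nd (nat_lit 5) 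
(.lf (nat_lit 104457) (.g (nat_lit 1843) (.e (nat_lit 3632) (nat_lit 227) (.e (nat_lit 778317) (nat_lit 3) (.e (nat_lit 57476) (nat_lit 28) (.e (nat_lit 557107) (nat_lit 15) (.e (nat_lit 188452) (nat_lit 23) .nil))))) .nil)) 
(.lf (nat_lit 104489) (.g (nat_lit 4398) (.e (nat_lit 3632) (nat_lit 227) (.e (nat_lit 778317) (nat_lit 3) (.e (nat_lit 57476) (nat_lit 28) (.e (nat_lit 557108) (nat_lit 15) (.e (nat_lit 188452) (nat_lit 23) (.e (nat_lit 204855) (nat_lit 26) (.e (nat_lit 336291) (nat_lit 15) .nil))))))) (.g (nat_lit 6) .nil .nil)))) (.nd (nat_lit 5) 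
(.lf (nat_lit 104473) (.g (nat_lit 5896) (.e (nat_lit 3632) (nat_lit 227) (.e (nat_lit 778317) (nat_lit 3) (.e (nat_lit 57476) (nat_lit 28) (.e (nat_lit 557108) (nat_lit 15) (.e (nat_lit 188449) (nat_lit 22) (.e (nat_lit 196680) (nat_lit 17) (.e (nat_lit 131135) (nat_lit 15) .nil))))))) (.g (nat_lit 5) .nil .nil))) 
(.lf (nat_lit 104505) (.g (nat_lit 5344) (.e (nat_lit 3632) (nat_lit 227) (.e (nat_lit 778317) (nat_lit 3) (.e (nat_lit 57477) (nat_lit 28) (.e (nat_lit 557097) (nat_lit 13) (.e (nat_lit 172097) (nat_lit 9) (.e (nat_lit 426125) (nat_lit 2) (.e (nat_lit 196666) (nat_lit 13) (.e (nat_lit 65640) (nat_lit 15) .nil)))))))) (.g (nat_lit 7) .nil .nil)))))) 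
(.nd (nat_lit 3) (.nd (nat_lit 4) (.nd (nat_lit 5) 
(.lf (nat_lit 104453) (.g (nat_lit 2635) (.e (nat_lit 3632) (nat_lit 227) (.e (nat_lit 778317) (nat_lit 3) (.e (nat_lit 57476) (nat_lit 28) (.e (nat_lit 557107) (nat_lit 15) (.e (nat_lit 188450) (nat_lit 23) (.e (nat_lit 204859) (nat_lit 26) (.e (nat_lit 336277) (nat_lit 15) .nil))))))) (.g (nat_lit 5) .nil .nil))) 
(.lf (nat_lit 104485) (.g (nat_lit 5258) (.e (nat_lit 3632) (nat_lit 227) (.e (nat_lit 778317) (nat_lit 3) (.e (nat_lit 57476) (nat_lit 28) (.e (nat_lit 557108) (nat_lit 15) (.e (nat_lit 188452) (nat_lit 23) (.e (nat_lit 204852) (nat_lit 26) (.e (nat_lit 336263) (nat_lit 15) .nil))))))) (.g (nat_lit 6) .nil .nil)))) (.nd (nat_lit 5) 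
(.lf (nat_lit 104469) (.g (nat_lit 4324) (.e (nat_lit 3632) (nat_lit 227) (.e (nat_lit 778317) (nat_lit 3) (.e (nat_lit 57476) (nat_lit 28) (.e (nat_lit 557108) (nat_lit 15) (.e (nat_lit 188449) (nat_lit 22) (.e (nat_lit 196666) (nat_lit 13) (.e (nat_lit 65640) (nat_lit 15) .nil))))))) (.g (nat_lit 6) .nil .nil))) 
(.lf (nat_lit 104501) (.g (nat_lit 2210) (.e (nat_lit 3632) (nat_lit 227) (.e (nat_lit 778317) (nat_lit 3) (.e (nat_lit 57476) (nat_lit 28) (.e (nat_lit 557108) (nat_lit 15) (.e (nat_lit 188458) (nat_lit 25) (.e (nat_lit 245794) (nat_lit 17) (.e (nat_lit 131135) (nat_lit 15) .nil))))))) (.g (nat_lit 4) .nil .nil))))) (.nd (nat_lit 4) (.nd (nat_lit 5) 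
(.lf (nat_lit 104461) (.g (nat_lit 2834) (.e (nat_lit 3632) (nat_lit 227) (.e (nat_lit 778317) (nat_lit 3) (.e (nat_lit 57476) (nat_lit 28) (.e (nat_lit 557108) (nat_lit 15) (.e (nat_lit 188433) (nat_lit 20) (.e (nat_lit 3136) (nat_lit 193) (.e (nat_lit 500065) (nat_lit 18) (.e (nat_lit 65642) (nat_lit 15) .nil)))))))) (.g (nat_lit 4) .nil .nil))) 
(.lf (nat_lit 104493) (.g (nat_lit 5279) (.e (nat_lit 3632) (nat_lit 227) (.e (nat_lit 778317) (nat_lit 3) (.e (nat_lit 57476) (nat_lit 28) (.e (nat_lit 557108) (nat_lit 15) (.e (nat_lit 188452) (nat_lit 23) (.e (nat_lit 204858) (nat_lit 26) (.e (nat_lit 336295) (nat_lit 15) .nil))))))) (.g (nat_lit 6) .nil .nil)))) (.nd (nat_lit 5) 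
(.lf (nat_lit 104477) (.g (nat_lit 2362) (.e (nat_lit 3632) (nat_lit 227) (.e (nat_lit 778317) (nat_lit 3) (.e (nat_lit 57476) (nat_lit 28) (.e (nat_lit 557108) (nat_lit 15) (.e (nat_lit 188450) (nat_lit 23) (.e (nat_lit 204855) (nat_lit 26) (.e (nat_lit 336295) (nat_lit 15) .nil))))))) (.g (nat_lit 4) .nil .nil))) 
(.lf (nat_lit 104509) (.g (nat_lit 1964) (.e (nat_lit 3632) (nat_lit 227) (.e (nat_lit 778317) (nat_lit 3) (.e (nat_lit 57477) (nat_lit 28) (.e (nat_lit 557097) (nat_lit 13) (.e (nat_lit 172109) (nat_lit 10) (.e (nat_lit 434217) (nat_lit 19) (.e (nat_lit 500065) (nat_lit 18) (.e (nat_lit 65642) (nat_lit 15) .nil)))))))) (.g (nat_lit 4) .nil .nil))))))) 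
(.nd (nat_lit 2) (.nd (nat_lit 3) (.nd (nat_lit 4) (.nd (nat_lit 5) 
(.lf (nat_lit 104451) (.g (nat_lit 2149) (.e (nat_lit 3632) (nat_lit 227) (.e (nat_lit 778317) (nat_lit 3) (.e (nat_lit 57476) (nat_lit 28) (.e (nat_lit 557107) (nat_lit 15) (.e (nat_lit 188450) (nat_lit 23) (.e (nat_lit 204858) (nat_lit 26) (.e (nat_lit 336291) (nat_lit 15) .nil))))))) (.g (nat_lit 4) .nil .nil))) 
(.lf (nat_lit 104483) (.g (nat_lit 3925) (.e (nat_lit 3632) (nat_lit 227) (.e (nat_lit 778317) (nat_lit 3) (.e (nat_lit 57476) (nat_lit 28) (.e (nat_lit 557108) (nat_lit 15) (.e (nat_lit 188452) (nat_lit 23) (.e (nat_lit 204851) (nat_lit 26) (.e (nat_lit 336301) (nat_lit 15) .nil))))))) (.g (nat_lit 5) .nil .nil)))) (.nd (nat_lit 5) 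
(.lf (nat_lit 104467) (.g (nat_lit 4906) (.e (nat_lit 3632) (nat_lit 227) (.e (nat_lit 778317) (nat_lit 3) (.e (nat_lit 57476) (nat_lit 28) (.e (nat_lit 557108) (nat_lit 15) (.e (nat_lit 188447) (nat_lit 22) (.e (nat_lit 196665) (nat_lit 13) (.e (nat_lit 65637) (nat_lit 15) .nil))))))) (.g (nat_lit 5) .nil .nil))) 
(.lf (nat_lit 104499) (.g (nat_lit 3718) (.e (nat_lit 3632) (nat_lit 227) (.e (nat_lit 778317) (nat_lit 3) (.e (nat_lit 57476) (nat_lit 28) (.e (nat_lit 557108) (nat_lit 15) (.e (nat_lit 188458) (nat_lit 25) (.e (nat_lit 245790) (nat_lit 13) (.e (nat_lit 65642) (nat_lit 15) .nil))))))) (.g (nat_lit 6) .nil .nil))))) (.nd (nat_lit 4) (.nd (nat_lit 5) 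
(.lf (nat_lit 104459) (.g (nat_lit 2840) (.e (nat_lit 3632) (nat_lit 227) (.e (nat_lit 778317) (nat_lit 3) (.e (nat_lit 57476) (nat_lit 28) (.e (nat_lit 557108) (nat_lit 15) (.e (nat_lit 188433) (nat_lit 20) (.e (nat_lit 3130) (nat_lit 193) (.e (nat_lit 500065) (nat_lit 18) (.e (nat_lit 65642) (nat_lit 15) .nil)))))))) (.g (nat_lit 4) .nil .nil))) 
(.lf (nat_lit 104491) (.g (nat_lit 3604) (.e (nat_lit 3632) (nat_lit 227) (.e (nat_lit 778317) (nat_lit 3) (.e (nat_lit 57476) (nat_lit 28) (.e (nat_lit 557108) (nat_lit 15) (.e (nat_lit 188452) (nat_lit 23) (.e (nat_lit 204856) (nat_lit 26) (.e (nat_lit 336292) (nat_lit 15) .nil))))))) (.g (nat_lit 5) .nil .nil)))) (.nd (nat_lit 5) 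
(.lf (nat_lit 104475) (.g (nat_lit 2032) (.e (nat_lit 3632) (nat_lit 227) (.e (nat_lit 778317) (nat_lit 3) (.e (nat_lit 57476) (nat_lit 28) (.e (nat_lit 557108) (nat_lit 15) (.e (nat_lit 188450) (nat_lit 23) .nil))))) .nil)) 
(.lf (nat_lit 104507) (.g (nat_lit 2087) (.e (nat_lit 3632) (nat_lit 227) (.e (nat_lit 778317) (nat_lit 3) (.e (nat_lit 57477) (nat_lit 28) (.e (nat_lit 557097) (nat_lit 13) (.e (nat_lit 172097) (nat_lit 9) (.e (nat_lit 426140) (nat_lit 3) (.e (nat_lit 204855) (nat_lit 26) (.e (nat_lit 336294) (nat_lit 15) .nil)))))))) (.g (nat_lit 4) .nil .nil)))))) 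
(.nd (nat_lit 3) (.nd (nat_lit 4) (.nd (nat_lit 5) 
(.lf (nat_lit 104455) (.g (nat_lit 3066) (.e (nat_lit 3632) (nat_lit 227) (.e (nat_lit 778317) (nat_lit 3) (.e (nat_lit 57476) (nat_lit 28) (.e (nat_lit 557107) (nat_lit 15) (.e (nat_lit 188450) (nat_lit 23) (.e (nat_lit 204861) (nat_lit 26) (.e (nat_lit 336293) (nat_lit 15) .nil))))))) (.g (nat_lit 5) .nil .nil))) 
(.lf (nat_lit 104487) (.g (nat_lit 4835) (.e (nat_lit 3632) (nat_lit 227) (.e (nat_lit 778317) (nat_lit 3) (.e (nat_lit 57476) (nat_lit 28) (.e (nat_lit 557108) (nat_lit 15) (.e (nat_lit 188452) (nat_lit 23) (.e (nat_lit 204852) (nat_lit 26) (.e (nat_lit 336297) (nat_lit 15) .nil))))))) (.g (nat_lit 6) .nil .nil)))) (.nd (nat_lit 5) 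
(.lf (nat_lit 104471) (.g (nat_lit 6063) (.e (nat_lit 3632) (nat_lit 227) (.e (nat_lit 778317) (nat_lit 3) (.e (nat_lit 57476) (nat_lit 28) (.e (nat_lit 557108) (nat_lit 15) (.e (nat_lit 188449) (nat_lit 22) (.e (nat_lit 196680) (nat_lit 17) (.e (nat_lit 131132) (nat_lit 15) .nil))))))) (.g (nat_lit 5) .nil .nil))) 
(.lf (nat_lit 104503) (.g (nat_lit 480) (.e (nat_lit 3632) (nat_lit 227) (.e (nat_lit 778317) (nat_lit 3) (.e (nat_lit 57477) (nat_lit 28) .nil))) .nil)))) (.nd (nat_lit 4) (.nd (nat_lit 5) 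
(.lf (nat_lit 104463) (.g (nat_lit 2753) (.e (nat_lit 3632) (nat_lit 227) (.e (nat_lit 778317) (nat_lit 3) (.e (nat_lit 57476) (nat_lit 28) (.e (nat_lit 557108) (nat_lit 15) (.e (nat_lit 188433) (nat_lit 20) (.e (nat_lit 3139) (nat_lit 193) (.e (nat_lit 500065) (nat_lit 18) (.e (nat_lit 65642) (nat_lit 15) .nil)))))))) (.g (nat_lit 4) .nil .nil))) 
(.lf (nat_lit 104495) (.g (nat_lit 5141) (.e (nat_lit 3632) (nat_lit 227) (.e (nat_lit 778317) (nat_lit 3) (.e (nat_lit 57476) (nat_lit 28) (.e (nat_lit 557108) (nat_lit 15) (.e (nat_lit 188452) (nat_lit 23) (.e (nat_lit 204861) (nat_lit 26) (.e (nat_lit 336293) (nat_lit 15) .nil))))))) (.g (nat_lit 5) .nil .nil)))) (.nd (nat_lit 5) 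
(.lf (nat_lit 104479) (.g (nat_lit 3899) (.e (nat_lit 3632) (nat_lit 227) (.e (nat_lit 778317) (nat_lit 3) (.e (nat_lit 57476) (nat_lit 28) (.e (nat_lit 557108) (nat_lit 15) (.e (nat_lit 188452) (nat_lit 23) (.e (nat_lit 204851) (nat_lit 26) (.e (nat_lit 336262) (nat_lit 15) .nil))))))) (.g (nat_lit 5) .nil .nil))) 
(.lf (nat_lit 104511) (.g (nat_lit 3580) (.e (nat_lit 3632) (nat_lit 227) (.e (nat_lit 778317) (nat_lit 3) (.e (nat_lit 57477) (nat_lit 28) (.e (nat_lit 557097) (nat_lit 13) (.e (nat_lit 172115) (nat_lit 10) (.e (nat_lit 434231) (nat_lit 23) (.e (nat_lit 532528) (nat_lit 9) (.e (nat_lit 336285) (nat_lit 15) .nil)))))))) (.g (nat_lit 6) .nil .nil)))))))))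

noncomputable def tv1428 : DT := (.nd (nat_lit 0) (.nd (nat_lit 1) (.nd (nat_lit 2) (.nd (nat_lit 3) (.nd (nat_lit 4) (.nd (nat_lit 5) 
(.lf (nat_lit 104512) (.g (nat_lit 3598) (.e (nat_lit 3632) (nat_lit 227) (.e (nat_lit 778317) (nat_lit 3) (.e (nat_lit 57477) (nat_lit 28) (.e (nat_lit 557097) (nat_lit 13) (.e (nat_lit 172115) (nat_lit 10) (.e (nat_lit 434231) (nat_lit 23) (.e (nat_lit 532528) (nat_lit 9) (.e (nat_lit 336301) (nat_lit 15) .nil)))))))) (.g (nat_lit 6) .nil .nil))) 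
(.lf (nat_lit 104544) (.g (nat_lit 4396) (.e (nat_lit 3632) (nat_lit 227) (.e (nat_lit 778317) (nat_lit 3) (.e (nat_lit 57477) (nat_lit 28) (.e (nat_lit 557108) (nat_lit 15) (.e (nat_lit 188447) (nat_lit 22) (.e (nat_lit 196665) (nat_lit 13) (.e (nat_lit 65637) (nat_lit 15) .nil))))))) (.g (nat_lit 5) .nil .nil)))) (.nd (nat_lit 5) 
(.lf (nat_lit 104528) (.g (nat_lit 3907) (.e (nat_lit 3632) (nat_lit 227) (.e (nat_lit 778317) (nat_lit 3) (.e (nat_lit 57477) (nat_lit 28) (.e (nat_lit 557107) (nat_lit 15) (.e (nat_lit 188450) (nat_lit 23) (.e (nat_lit 204852) (nat_lit 26) (.e (nat_lit 336262) (nat_lit 15) .nil))))))) (.g (nat_lit 6) .nil .nil))) 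
(.lf (nat_lit 104560) (.g (nat_lit 4772) (.e (nat_lit 3632) (nat_lit 227) (.e (nat_lit 778317) (nat_lit 3) (.e (nat_lit 57477) (nat_lit 28) (.e (nat_lit 557108) (nat_lit 15) (.e (nat_lit 188452) (nat_lit 23) (.e (nat_lit 204852) (nat_lit 26) (.e (nat_lit 336263) (nat_lit 15) .nil))))))) (.g (nat_lit 6) .nil .nil))))) (.nd (nat_lit 4) (.nd (nat_lit 5) 
(.lf (nat_lit 104520) (.g (nat_lit 2952) (.e (nat_lit 3632) (nat_lit 227) (.e (nat_lit 778317) (nat_lit 3) (.e (nat_lit 57477) (nat_lit 28) (.e (nat_lit 557097) (nat_lit 13) (.e (nat_lit 172115) (nat_lit 10) (.e (nat_lit 434231) (nat_lit 23) (.e (nat_lit 532536) (nat_lit 9) (.e (nat_lit 336292) (nat_lit 15) .nil)))))))) (.g (nat_lit 5) .nil .nil))) 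
(.lf (nat_lit 104552) (.g (nat_lit 5555) (.e (nat_lit 3632) (nat_lit 227) (.e (nat_lit 778317) (nat_lit 3) (.e (nat_lit 57477) (nat_lit 28) (.e (nat_lit 557108) (nat_lit 15) (.e (nat_lit 188449) (nat_lit 22) (.e (nat_lit 196680) (nat_lit 17) (.e (nat_lit 131135) (nat_lit 15) .nil))))))) (.g (nat_lit 5) .nil .nil)))) (.nd (nat_lit 5) 
(.lf (nat_lit 104536) (.g (nat_lit 2578) (.e (nat_lit 3632) (nat_lit 227) (.e (nat_lit 778317) (nat_lit 3) (.e (nat_lit 57477) (nat_lit 28) (.e (nat_lit 557107) (nat_lit 15) (.e (nat_lit 188450) (nat_lit 23) (.e (nat_lit 204856) (nat_lit 26) (.e (nat_lit 336282) (nat_lit 15) .nil))))))) (.g (nat_lit 5) .nil .nil))) 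
(.lf (nat_lit 104568) (.g (nat_lit 1999) (.e (nat_lit 3632) (nat_lit 227) (.e (nat_lit 778317) (nat_lit 3) (.e (nat_lit 57477) (nat_lit 28) (.e (nat_lit 557108) (nat_lit 15) (.e (nat_lit 188452) (nat_lit 23) (.e (nat_lit 212736) (nat_lit 26) (.e (nat_lit 336300) (nat_lit 15) .nil))))))) (.g (nat_lit 4) .nil .nil)))))) (.nd (nat_lit 3) (.nd (nat_lit 4) (.nd (nat_lit 5) 
(.lf (nat_lit 104516) (.g (nat_lit 5713) (.e (nat_lit 3632) (nat_lit 227) (.e (nat_lit 778317) (nat_lit 3) (.e (nat_lit 57477) (nat_lit 28) (.e (nat_lit 557097) (nat_lit 13) (.e (nat_lit 172115) (nat_lit 10) (.e (nat_lit 434231) (nat_lit 23) (.e (nat_lit 532535) (nat_lit 9) (.e (nat_lit 336282) (nat_lit 15) .nil)))))))) (.g (nat_lit 0) .nil .nil))) 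
(.lf (nat_lit 104548) (.g (nat_lit 5436) (.e (nat_lit 3632) (nat_lit 227) (.e (nat_lit 778317) (nat_lit 3) (.e (nat_lit 57477) (nat_lit 28) (.e (nat_lit 557108) (nat_lit 15) (.e (nat_lit 188449) (nat_lit 22) (.e (nat_lit 196679) (nat_lit 17) (.e (nat_lit 131132) (nat_lit 15) .nil))))))) (.g (nat_lit 5) .nil .nil)))) (.nd (nat_lit 5) 
(.lf (nat_lit 104532) (.g (nat_lit 3671) (.e (nat_lit 3632) (nat_lit 227) (.e (nat_lit 778317) (nat_lit 3) (.e (nat_lit 57477) (nat_lit 28) (.e (nat_lit 557107) (nat_lit 15) (.e (nat_lit 188450) (nat_lit 23) (.e (nat_lit 204852) (nat_lit 26) (.e (nat_lit 336301) (nat_lit 15) .nil))))))) (.g (nat_lit 6) .nil .nil))) 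
(.lf (nat_lit 104564) (.g (nat_lit 4935) (.e (nat_lit 3632) (nat_lit 227) (.e (nat_lit 778317) (nat_lit 3) (.e (nat_lit 57477) (nat_lit 28) (.e (nat_lit 557108) (nat_lit 15) (.e (nat_lit 188452) (nat_lit 23) (.e (nat_lit 204855) (nat_lit 26) (.e (nat_lit 336282) (nat_lit 15) .nil))))))) (.g (nat_lit 0) .nil .nil))))) (.nd (nat_lit 4) (.nd (nat_lit 5) 
(.lf (nat_lit 104524) (.g (nat_lit 2729) (.e (nat_lit 3632) (nat_lit 227) (.e (nat_lit 778317) (nat_lit 3) (.e (nat_lit 57477) (nat_lit 28) (.e (nat_lit 557107) (nat_lit 15) (.e (nat_lit 188450) (nat_lit 23) (.e (nat_lit 204851) (nat_lit 26) (.e (nat_lit 336263) (nat_lit 15) .nil))))))) (.g (nat_lit 5) .nil .nil))) 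
(.lf (nat_lit 104556) (.g (nat_lit 3021) (.e (nat_lit 3632) (nat_lit 227) (.e (nat_lit 778317) (nat_lit 3) (.e (nat_lit 57477) (nat_lit 28) (.e (nat_lit 557108) (nat_lit 15) (.e (nat_lit 188452) (nat_lit 23) (.e (nat_lit 204851) (nat_lit 26) (.e (nat_lit 336265) (nat_lit 15) .nil))))))) (.g (nat_lit 5) .nil .nil)))) (.nd (nat_lit 5) 
(.lf (nat_lit 104540) (.g (nat_lit 2770) (.e (nat_lit 3632) (nat_lit 227) (.e (nat_lit 778317) (nat_lit 3) (.e (nat_lit 57477) (nat_lit 28) (.e (nat_lit 557107) (nat_lit 15) (.e (nat_lit 188450) (nat_lit 23) (.e (nat_lit 204859) (nat_lit 26) (.e (nat_lit 336300) (nat_lit 15) .nil))))))) (.g (nat_lit 5) .nil .nil))) 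
(.lf (nat_lit 104572) (.g (nat_lit 1892) (.e (nat_lit 3632) (nat_lit 227) (.e (nat_lit 778317) (nat_lit 3) (.e (nat_lit 57477) (nat_lit 28) (.e (nat_lit 557108) (nat_lit 15) (.e (nat_lit 188458) (nat_lit 25) (.e (nat_lit 245794) (nat_lit 17) (.e (nat_lit 131135) (nat_lit 15) .nil))))))) (.g (nat_lit 4) .nil .nil))))))) (.nd (nat_lit 2) (.nd (nat_lit 3) (.nd (nat_lit 4) (.nd (nat_lit 5) 
(.lf (nat_lit 104514) (.g (nat_lit 3191) (.e (nat_lit 3632) (nat_lit 227) (.e (nat_lit 778317) (nat_lit 3) (.e (nat_lit 57477) (nat_lit 28) (.e (nat_lit 557097) (nat_lit 13) (.e (nat_lit 172115) (nat_lit 10) (.e (nat_lit 434231) (nat_lit 23) (.e (nat_lit 532531) (nat_lit 9) (.e (nat_lit 336263) (nat_lit 15) .nil)))))))) (.g (nat_lit 6) .nil .nil))) 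
(.lf (nat_lit 104546) (.g (nat_lit 5356) (.e (nat_lit 3632) (nat_lit 227) (.e (nat_lit 778317) (nat_lit 3) (.e (nat_lit 57477) (nat_lit 28) (.e (nat_lit 557108) (nat_lit 15) (.e (nat_lit 188449) (nat_lit 22) (.e (nat_lit 196663) (nat_lit 13) (.e (nat_lit 65642) (nat_lit 15) .nil))))))) (.g (nat_lit 5) .nil .nil)))) (.nd (nat_lit 5) 
(.lf (nat_lit 104530) (.g (nat_lit 3621) (.e (nat_lit 3632) (nat_lit 227) (.e (nat_lit 778317) (nat_lit 3) (.e (nat_lit 57477) (nat_lit 28) (.e (nat_lit 557107) (nat_lit 15) (.e (nat_lit 188450) (nat_lit 23) (.e (nat_lit 204852) (nat_lit 26) (.e (nat_lit 336285) (nat_lit 15) .nil))))))) (.g (nat_lit 6) .nil .nil))) 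
(.lf (nat_lit 104562) (.g (nat_lit 4317) (.e (nat_lit 3632) (nat_lit 227) (.e (nat_lit 778317) (nat_lit 3) (.e (nat_lit 57477) (nat_lit 28) (.e (nat_lit 557108) (nat_lit 15) (.e (nat_lit 188452) (nat_lit 23) (.e (nat_lit 204852) (nat_lit 26) (.e (nat_lit 336297) (nat_lit 15) .nil))))))) (.g (nat_lit 6) .nil .nil))))) (.nd (nat_lit 4) (.nd (nat_lit 5) 
(.lf (nat_lit 104522) (.g (nat_lit 3389) (.e (nat_lit 3632) (nat_lit 227) (.e (nat_lit 778317) (nat_lit 3) (.e (nat_lit 57477) (nat_lit 28) (.e (nat_lit 557107) (nat_lit 15) (.e (nat_lit 188447) (nat_lit 22) (.e (nat_lit 196666) (nat_lit 13) (.e (nat_lit 65640) (nat_lit 15) .nil))))))) (.g (nat_lit 6) .nil .nil))) 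
(.lf (nat_lit 104554) (.g (nat_lit 3187) (.e (nat_lit 3632) (nat_lit 227) (.e (nat_lit 778317) (nat_lit 3) (.e (nat_lit 57477) (nat_lit 28) (.e (nat_lit 557108) (nat_lit 15) (.e (nat_lit 188452) (nat_lit 23) (.e (nat_lit 204851) (nat_lit 26) (.e (nat_lit 336262) (nat_lit 15) .nil))))))) (.g (nat_lit 5) .nil .nil)))) (.nd (nat_lit 5) 
(.lf (nat_lit 104538) (.g (nat_lit 2063) (.e (nat_lit 3632) (nat_lit 227) (.e (nat_lit 778317) (nat_lit 3) (.e (nat_lit 57477) (nat_lit 28) (.e (nat_lit 557107) (nat_lit 15) (.e (nat_lit 188450) (nat_lit 23) (.e (nat_lit 204858) (nat_lit 26) (.e (nat_lit 336292) (nat_lit 15) .nil))))))) (.g (nat_lit 4) .nil .nil))) 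
(.lf (nat_lit 104570) (.g (nat_lit 3307) (.e (nat_lit 3632) (nat_lit 227) (.e (nat_lit 778317) (nat_lit 3) (.e (nat_lit 57477) (nat_lit 28) (.e (nat_lit 557108) (nat_lit 15) (.e (nat_lit 188458) (nat_lit 25) (.e (nat_lit 245790) (nat_lit 13) (.e (nat_lit 65642) (nat_lit 15) .nil))))))) (.g (nat_lit 6) .nil .nil)))))) (.nd (nat_lit 3) (.nd (nat_lit 4) (.nd (nat_lit 5) 
(.lf (nat_lit 104518) (.g (nat_lit 3751) (.e (nat_lit 3632) (nat_lit 227) (.e (nat_lit 778317) (nat_lit 3) (.e (nat_lit 57477) (nat_lit 28) (.e (nat_lit 557097) (nat_lit 13) (.e (nat_lit 172115) (nat_lit 10) (.e (nat_lit 434231) (nat_lit 23) (.e (nat_lit 532536) (nat_lit 9) (.e (nat_lit 336282) (nat_lit 15) .nil)))))))) (.g (nat_lit 6) .nil .nil))) 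
(.lf (nat_lit 104550) (.g (nat_lit 5722) (.e (nat_lit 3632) (nat_lit 227) (.e (nat_lit 778317) (nat_lit 3) (.e (nat_lit 57477) (nat_lit 28) (.e (nat_lit 557108) (nat_lit 15) (.e (nat_lit 188449) (nat_lit 22) (.e (nat_lit 196680) (nat_lit 17) (.e (nat_lit 131132) (nat_lit 15) .nil))))))) (.g (nat_lit 5) .nil .nil)))) (.nd (nat_lit 5) 
(.lf (nat_lit 104534) (.g (nat_lit 3850) (.e (nat_lit 3632) (nat_lit 227) (.e (nat_lit 778317) (nat_lit 3) (.e (nat_lit 57477) (nat_lit 28) (.e (nat_lit 557107) (nat_lit 15) (.e (nat_lit 188450) (nat_lit 23) (.e (nat_lit 204855) (nat_lit 26) (.e (nat_lit 336291) (nat_lit 15) .nil))))))) (.g (nat_lit 6) .nil .nil))) 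
(.lf (nat_lit 104566) (.g (nat_lit 2921) (.e (nat_lit 3632) (nat_lit 227) (.e (nat_lit 778317) (nat_lit 3) (.e (nat_lit 57477) (nat_lit 28) (.e (nat_lit 557108) (nat_lit 15) (.e (nat_lit 188452) (nat_lit 23) (.e (nat_lit 204856) (nat_lit 26) (.e (nat_lit 336292) (nat_lit 15) .nil))))))) (.g (nat_lit 5) .nil .nil))))) (.nd (nat_lit 4) (.nd (nat_lit 5) 
(.lf (nat_lit 104526) (.g (nat_lit 2185) (.e (nat_lit 3632) (nat_lit 227) (.e (nat_lit 778317) (nat_lit 3) (.e (nat_lit 57477) (nat_lit 28) (.e (nat_lit 557107) (nat_lit 15) (.e (nat_lit 188450) (nat_lit 23) (.e (nat_lit 204851) (nat_lit 26) (.e (nat_lit 336285) (nat_lit 15) .nil))))))) (.g (nat_lit 4) .nil .nil))) 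
(.lf (nat_lit 104558) (.g (nat_lit 3239) (.e (nat_lit 3632) (nat_lit 227) (.e (nat_lit 778317) (nat_lit 3) (.e (nat_lit 57477) (nat_lit 28) (.e (nat_lit 557108) (nat_lit 15) (.e (nat_lit 188452) (nat_lit 23) (.e (nat_lit 204851) (nat_lit 26) (.e (nat_lit 336301) (nat_lit 15) .nil))))))) (.g (nat_lit 5) .nil .nil)))) (.nd (nat_lit 5) 
(.lf (nat_lit 104542) (.g (nat_lit 1874) (.e (nat_lit 3632) (nat_lit 227) (.e (nat_lit 778317) (nat_lit 3) (.e (nat_lit 57477) (nat_lit 28) (.e (nat_lit 557107) (nat_lit 15) (.e (nat_lit 188450) (nat_lit 23) (.e (nat_lit 212736) (nat_lit 26) (.e (nat_lit 336277) (nat_lit 15) .nil))))))) (.g (nat_lit 4) .nil .nil))) 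
(.lf (nat_lit 104574) (.g (nat_lit 3539) (.e (nat_lit 3632) (nat_lit 227) (.e (nat_lit 778317) (nat_lit 3) (.e (nat_lit 57479) (nat_lit 28) (.e (nat_lit 557095) (nat_lit 13) (.e (nat_lit 172106) (nat_lit 10) (.e (nat_lit 434231) (nat_lit 23) (.e (nat_lit 532535) (nat_lit 9) (.e (nat_lit 336282) (nat_lit 15) .nil)))))))) (.g (nat_lit 4) .nil .nil)))))))) 
(.nd (nat_lit 1) (.nd (nat_lit 2) (.nd (nat_lit 3) (.nd (nat_lit 4) (.nd (nat_lit 5) 
(.lf (nat_lit 104513) (.g (nat_lit 3959) (.e (nat_lit 3632) (nat_lit 227) (.e (nat_lit 778317) (nat_lit 3) (.e (nat_lit 57477) (nat_lit 28) (.e (nat_lit 557097) (nat_lit 13) (.e (nat_lit 172115) (nat_lit 10) (.e (nat_lit 434231) (nat_lit 23) (.e (nat_lit 532529) (nat_lit 9) (.e (nat_lit 336297) (nat_lit 15) .nil)))))))) (.g (nat_lit 6) .nil .nil))) 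
(.lf (nat_lit 104545) (.g (nat_lit 4427) (.e (nat_lit 3632) (nat_lit 227) (.e (nat_lit 778317) (nat_lit 3) (.e (nat_lit 57477) (nat_lit 28) (.e (nat_lit 557108) (nat_lit 15) (.e (nat_lit 188449) (nat_lit 22) (.e (nat_lit 196662) (nat_lit 13) (.e (nat_lit 65642) (nat_lit 15) .nil))))))) (.g (nat_lit 6) .nil .nil)))) (.nd (nat_lit 5) 
(.lf (nat_lit 104529) (.g (nat_lit 3864) (.e (nat_lit 3632) (nat_lit 227) (.e (nat_lit 778317) (nat_lit 3) (.e (nat_lit 57477) (nat_lit 28) (.e (nat_lit 557107) (nat_lit 15) (.e (nat_lit 188450) (nat_lit 23) (.e (nat_lit 204852) (nat_lit 26) (.e (nat_lit 336263) (nat_lit 15) .nil))))))) (.g (nat_lit 6) .nil .nil))) 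
(.lf (nat_lit 104561) (.g (nat_lit 4512) (.e (nat_lit 3632) (nat_lit 227) (.e (nat_lit 778317) (nat_lit 3) (.e (nat_lit 57477) (nat_lit 28) (.e (nat_lit 557108) (nat_lit 15) (.e (nat_lit 188452) (nat_lit 23) (.e (nat_lit 204852) (nat_lit 26) (.e (nat_lit 336285) (nat_lit 15) .nil))))))) (.g (nat_lit 6) .nil .nil))))) (.nd (nat_lit 4) (.nd (nat_lit 5) 
(.lf (nat_lit 104521) (.g (nat_lit 2223) (.e (nat_lit 3632) (nat_lit 227) (.e (nat_lit 778317) (nat_lit 3) (.e (nat_lit 57477) (nat_lit 28) (.e (nat_lit 557098) (nat_lit 13) (.e (nat_lit 172097) (nat_lit 9) .nil))))) .nil)) 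
(.lf (nat_lit 104553) (.g (nat_lit 2250) (.e (nat_lit 3632) (nat_lit 227) (.e (nat_lit 778317) (nat_lit 3) (.e (nat_lit 57477) (nat_lit 28) (.e (nat_lit 557108) (nat_lit 15) (.e (nat_lit 188449) (nat_lit 22) (.e (nat_lit 204544) (nat_lit 17) (.e (nat_lit 131133) (nat_lit 15) .nil))))))) (.g (nat_lit 4) .nil .nil)))) (.nd (nat_lit 5) 
(.lf (nat_lit 104537) (.g (nat_lit 1925) (.e (nat_lit 3632) (nat_lit 227) (.e (nat_lit 778317) (nat_lit 3) (.e (nat_lit 57477) (nat_lit 28) (.e (nat_lit 557107) (nat_lit 15) (.e (nat_lit 188450) (nat_lit 23) (.e (nat_lit 204858) (nat_lit 26) (.e (nat_lit 336291) (nat_lit 15) .nil))))))) (.g (nat_lit 4) .nil .nil))) 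
(.lf (nat_lit 104569) (.g (nat_lit 1818) (.e (nat_lit 3632) (nat_lit 227) (.e (nat_lit 778317) (nat_lit 3) (.e (nat_lit 57477) (nat_lit 28) (.e (nat_lit 557108) (nat_lit 15) (.e (nat_lit 188458) (nat_lit 25) .nil))))) .nil))))) (.nd (nat_lit 3) (.nd (nat_lit 4) (.nd (nat_lit 5) 
(.lf (nat_lit 104517) (.g (nat_lit 4856) (.e (nat_lit 3632) (nat_lit 227) (.e (nat_lit 778317) (nat_lit 3) (.e (nat_lit 57477) (nat_lit 28) (.e (nat_lit 557097) (nat_lit 13) (.e (nat_lit 172115) (nat_lit 10) (.e (nat_lit 434231) (nat_lit 23) (.e (nat_lit 532535) (nat_lit 9) (.e (nat_lit 336291) (nat_lit 15) .nil)))))))) (.g (nat_lit 7) .nil .nil))) 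
(.lf (nat_lit 104549) (.g (nat_lit 6132) (.e (nat_lit 3632) (nat_lit 227) (.e (nat_lit 778317) (nat_lit 3) (.e (nat_lit 57477) (nat_lit 28) (.e (nat_lit 557108) (nat_lit 15) (.e (nat_lit 188449) (nat_lit 22) (.e (nat_lit 196679) (nat_lit 17) (.e (nat_lit 131133) (nat_lit 15) .nil))))))) (.g (nat_lit 5) .nil .nil)))) (.nd (nat_lit 5) 
(.lf (nat_lit 104533) (.g (nat_lit 4348) (.e (nat_lit 3632) (nat_lit 227) (.e (nat_lit 778317) (nat_lit 3) (.e (nat_lit 57477) (nat_lit 28) (.e (nat_lit 557107) (nat_lit 15) (.e (nat_lit 188450) (nat_lit 23) (.e (nat_lit 204855) (nat_lit 26) (.e (nat_lit 336282) (nat_lit 15) .nil))))))) (.g (nat_lit 0) .nil .nil))) 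
(.lf (nat_lit 104565) (.g (nat_lit 4073) (.e (nat_lit 3632) (nat_lit 227) (.e (nat_lit 778317) (nat_lit 3) (.e (nat_lit 57477) (nat_lit 28) (.e (nat_lit 557108) (nat_lit 15) (.e (nat_lit 188452) (nat_lit 23) (.e (nat_lit 204855) (nat_lit 26) (.e (nat_lit 336291) (nat_lit 15) .nil))))))) (.g (nat_lit 6) .nil .nil))))) (.nd (nat_lit 4) (.nd (nat_lit 5) 
(.lf (nat_lit 104525) (.g (nat_lit 1942) (.e (nat_lit 3632) (nat_lit 227) (.e (nat_lit 778317) (nat_lit 3) (.e (nat_lit 57477) (nat_lit 28) (.e (nat_lit 557107) (nat_lit 15) (.e (nat_lit 188450) (nat_lit 23) (.e (nat_lit 204851) (nat_lit 26) (.e (nat_lit 336265) (nat_lit 15) .nil))))))) (.g (nat_lit 4) .nil .nil))) 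
(.lf (nat_lit 104557) (.g (nat_lit 3264) (.e (nat_lit 3632) (nat_lit 227) (.e (nat_lit 778317) (nat_lit 3) (.e (nat_lit 57477) (nat_lit 28) (.e (nat_lit 557108) (nat_lit 15) (.e (nat_lit 188452) (nat_lit 23) (.e (nat_lit 204851) (nat_lit 26) (.e (nat_lit 336285) (nat_lit 15) .nil))))))) (.g (nat_lit 5) .nil .nil)))) (.nd (nat_lit 5) 
(.lf (nat_lit 104541) (.g (nat_lit 2790) (.e (nat_lit 3632) (nat_lit 227) (.e (nat_lit 778317) (nat_lit 3) (.e (nat_lit 57477) (nat_lit 28) (.e (nat_lit 557107) (nat_lit 15) (.e (nat_lit 188450) (nat_lit 23) (.e (nat_lit 204861) (nat_lit 26) (.e (nat_lit 336293) (nat_lit 15) .nil))))))) (.g (nat_lit 5) .nil .nil))) 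
(.lf (nat_lit 104573) (.g (nat_lit 3300) (.e (nat_lit 3632) (nat_lit 227) (.e (nat_lit 778317) (nat_lit 3) (.e (nat_lit 57479) (nat_lit 28) (.e (nat_lit 557095) (nat_lit 13) (.e (nat_lit 172097) (nat_lit 9) .nil))))) .nil)))))) (.nd (nat_lit 2) (.nd (nat_lit 3) (.nd (nat_lit 4) (.nd (nat_lit 5) 
(.lf (nat_lit 104515) (.g (nat_lit 2173) (.e (nat_lit 3632) (nat_lit 227) (.e (nat_lit 778317) (nat_lit 3) (.e (nat_lit 57477) (nat_lit 28) (.e (nat_lit 557097) (nat_lit 13) (.e (nat_lit 172115) (nat_lit 10) (.e (nat_lit 434231) (nat_lit 23) (.e (nat_lit 532531) (nat_lit 9) (.e (nat_lit 336285) (nat_lit 15) .nil)))))))) (.g (nat_lit 4) .nil .nil))) 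
(.lf (nat_lit 104547) (.g (nat_lit 3871) (.e (nat_lit 3632) (nat_lit 227) (.e (nat_lit 778317) (nat_lit 3) (.e (nat_lit 57477) (nat_lit 28) (.e (nat_lit 557108) (nat_lit 15) (.e (nat_lit 188449) (nat_lit 22) (.e (nat_lit 196666) (nat_lit 13) (.e (nat_lit 65640) (nat_lit 15) .nil))))))) (.g (nat_lit 6) .nil .nil)))) (.nd (nat_lit 5) 
(.lf (nat_lit 104531) (.g (nat_lit 3517) (.e (nat_lit 3632) (nat_lit 227) (.e (nat_lit 778317) (nat_lit 3) (.e (nat_lit 57477) (nat_lit 28) (.e (nat_lit 557107) (nat_lit 15) (.e (nat_lit 188450) (nat_lit 23) (.e (nat_lit 204852) (nat_lit 26) (.e (nat_lit 336297) (nat_lit 15) .nil))))))) (.g (nat_lit 6) .nil .nil))) 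
(.lf (nat_lit 104563) (.g (nat_lit 4604) (.e (nat_lit 3632) (nat_lit 227) (.e (nat_lit 778317) (nat_lit 3) (.e (nat_lit 57477) (nat_lit 28) (.e (nat_lit 557108) (nat_lit 15) (.e (nat_lit 188452) (nat_lit 23) (.e (nat_lit 204852) (nat_lit 26) (.e (nat_lit 336301) (nat_lit 15) .nil))))))) (.g (nat_lit 6) .nil .nil))))) (.nd (nat_lit 4) (.nd (nat_lit 5) 
(.lf (nat_lit 104523) (.g (nat_lit 2108) (.e (nat_lit 3632) (nat_lit 227) (.e (nat_lit 778317) (nat_lit 3) (.e (nat_lit 57477) (nat_lit 28) (.e (nat_lit 557107) (nat_lit 15) (.e (nat_lit 188450) (nat_lit 23) (.e (nat_lit 204851) (nat_lit 26) (.e (nat_lit 336262) (nat_lit 15) .nil))))))) (.g (nat_lit 4) .nil .nil))) 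
(.lf (nat_lit 104555) (.g (nat_lit 3823) (.e (nat_lit 3632) (nat_lit 227) (.e (nat_lit 778317) (nat_lit 3) (.e (nat_lit 57477) (nat_lit 28) (.e (nat_lit 557108) (nat_lit 15) (.e (nat_lit 188452) (nat_lit 23) (.e (nat_lit 204851) (nat_lit 26) (.e (nat_lit 336263) (nat_lit 15) .nil))))))) (.g (nat_lit 5) .nil .nil)))) (.nd (nat_lit 5) 
(.lf (nat_lit 104539) (.g (nat_lit 2209) (.e (nat_lit 3632) (nat_lit 227) (.e (nat_lit 778317) (nat_lit 3) (.e (nat_lit 57477) (nat_lit 28) (.e (nat_lit 557107) (nat_lit 15) (.e (nat_lit 188450) (nat_lit 23) (.e (nat_lit 204859) (nat_lit 26) (.e (nat_lit 336277) (nat_lit 15) .nil))))))) (.g (nat_lit 4) .nil .nil))) 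
(.lf (nat_lit 104571) (.g (nat_lit 2205) (.e (nat_lit 3632) (nat_lit 227) (.e (nat_lit 778317) (nat_lit 3) (.e (nat_lit 57477) (nat_lit 28) (.e (nat_lit 557108) (nat_lit 15) (.e (nat_lit 188458) (nat_lit 25) (.e (nat_lit 245794) (nat_lit 17) (.e (nat_lit 131133) (nat_lit 15) .nil))))))) (.g (nat_lit 4) .nil .nil)))))) (.nd (nat_lit 3) (.nd (nat_lit 4) (.nd (nat_lit 5) 
(.lf (nat_lit 104519) (.g (nat_lit 3369) (.e (nat_lit 3632) (nat_lit 227) (.e (nat_lit 778317) (nat_lit 3) (.e (nat_lit 57477) (nat_lit 28) (.e (nat_lit 557097) (nat_lit 13) (.e (nat_lit 172115) (nat_lit 10) (.e (nat_lit 434231) (nat_lit 23) (.e (nat_lit 532536) (nat_lit 9) (.e (nat_lit 336291) (nat_lit 15) .nil)))))))) (.g (nat_lit 6) .nil .nil))) 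
(.lf (nat_lit 104551) (.g (nat_lit 6208) (.e (nat_lit 3632) (nat_lit 227) (.e (nat_lit 778317) (nat_lit 3) (.e (nat_lit 57477) (nat_lit 28) (.e (nat_lit 557108) (nat_lit 15) (.e (nat_lit 188449) (nat_lit 22) (.e (nat_lit 196680) (nat_lit 17) (.e (nat_lit 131133) (nat_lit 15) .nil))))))) (.g (nat_lit 6) .nil .nil)))) (.nd (nat_lit 5) 
(.lf (nat_lit 104535) (.g (nat_lit 2120) (.e (nat_lit 3632) (nat_lit 227) (.e (nat_lit 778317) (nat_lit 3) (.e (nat_lit 57477) (nat_lit 28) (.e (nat_lit 557107) (nat_lit 15) (.e (nat_lit 188450) (nat_lit 23) (.e (nat_lit 204855) (nat_lit 26) (.e (nat_lit 336294) (nat_lit 15) .nil))))))) (.g (nat_lit 4) .nil .nil))) 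
(.lf (nat_lit 104567) (.g (nat_lit 2999) (.e (nat_lit 3632) (nat_lit 227) (.e (nat_lit 778317) (nat_lit 3) (.e (nat_lit 57477) (nat_lit 28) (.e (nat_lit 557108) (nat_lit 15) (.e (nat_lit 188452) (nat_lit 23) (.e (nat_lit 212736) (nat_lit 26) (.e (nat_lit 336277) (nat_lit 15) .nil))))))) (.g (nat_lit 5) .nil .nil))))) (.nd (nat_lit 4) (.nd (nat_lit 5) 
(.lf (nat_lit 104527) (.g (nat_lit 2183) (.e (nat_lit 3632) (nat_lit 227) (.e (nat_lit 778317) (nat_lit 3) (.e (nat_lit 57477) (nat_lit 28) (.e (nat_lit 557107) (nat_lit 15) (.e (nat_lit 188450) (nat_lit 23) (.e (nat_lit 204851) (nat_lit 26) (.e (nat_lit 336301) (nat_lit 15) .nil))))))) (.g (nat_lit 5) .nil .nil))) 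
(.lf (nat_lit 104559) (.g (nat_lit 4806) (.e (nat_lit 3632) (nat_lit 227) (.e (nat_lit 778317) (nat_lit 3) (.e (nat_lit 57477) (nat_lit 28) (.e (nat_lit 557108) (nat_lit 15) (.e (nat_lit 188452) (nat_lit 23) (.e (nat_lit 204852) (nat_lit 26) (.e (nat_lit 336262) (nat_lit 15) .nil))))))) (.g (nat_lit 6) .nil .nil)))) (.nd (nat_lit 5) 
(.lf (nat_lit 104543) (.g (nat_lit 3820) (.e (nat_lit 3632) (nat_lit 227) (.e (nat_lit 778317) (nat_lit 3) (.e (nat_lit 57477) (nat_lit 28) (.e (nat_lit 557108) (nat_lit 15) (.e (nat_lit 188447) (nat_lit 22) (.e (nat_lit 196664) (nat_lit 13) (.e (nat_lit 65637) (nat_lit 15) .nil))))))) (.g (nat_lit 5) .nil .nil))) 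
(.lf (nat_lit 104575) (.g (nat_lit 7093) (.e (nat_lit 3632) (nat_lit 227) (.e (nat_lit 778317) (nat_lit 3) (.e (nat_lit 57479) (nat_lit 28) (.e (nat_lit 557095) (nat_lit 13) (.e (nat_lit 172106) (nat_lit 10) (.e (nat_lit 434231) (nat_lit 23) (.e (nat_lit 532535) (nat_lit 9) (.e (nat_lit 336295) (nat_lit 15) .nil)))))))) (.g (nat_lit 8) .nil .nil)))))))))

noncomputable def tv1429 : DT := (.nd (nat_lit 0) (.nd (nat_lit 1) (.nd (nat_lit 2) (.nd (nat_lit 3) (.nd (nat_lit 4) (.nd (nat_lit 5) 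
(.lf (nat_lit 104576) (.g (nat_lit 3139) (.e (nat_lit 3632) (nat_lit 227) (.e (nat_lit 778317) (nat_lit 3) (.e (nat_lit 57479) (nat_lit 28) (.e (nat_lit 557095) (nat_lit 13) (.e (nat_lit 172115) (nat_lit 10) .nil))))) .nil)) 
(.lf (nat_lit 104608) (.g (nat_lit 2691) (.e (nat_lit 3632) (nat_lit 227) (.e (nat_lit 778317) (nat_lit 3) (.e (nat_lit 57480) (nat_lit 28) (.e (nat_lit 557097) (nat_lit 13) (.e (nat_lit 172097) (nat_lit 9) .nil))))) .nil))) (.nd (nat_lit 5) 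
(.lf (nat_lit 104592) (.g (nat_lit 4702) (.e (nat_lit 3632) (nat_lit 227) (.e (nat_lit 778317) (nat_lit 3) (.e (nat_lit 57479) (nat_lit 28) (.e (nat_lit 557101) (nat_lit 13) (.e (nat_lit 172115) (nat_lit 10) (.e (nat_lit 434231) (nat_lit 23) (.e (nat_lit 532528) (nat_lit 9) (.e (nat_lit 336263) (nat_lit 15) .nil)))))))) (.g (nat_lit 7) .nil .nil))) 
(.lf (nat_lit 104624) (.g (nat_lit 5006) (.e (nat_lit 3632) (nat_lit 227) (.e (nat_lit 778317) (nat_lit 3) (.e (nat_lit 57480) (nat_lit 28) (.e (nat_lit 557098) (nat_lit 13) (.e (nat_lit 172115) (nat_lit 10) (.e (nat_lit 434231) (nat_lit 23) (.e (nat_lit 532527) (nat_lit 9) (.e (nat_lit 336282) (nat_lit 15) .nil)))))))) (.g (nat_lit 7) .nil .nil))))) (.nd (nat_lit 4) (.nd (nat_lit 5) 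
(.lf (nat_lit 104584) (.g (nat_lit 2782) (.e (nat_lit 3632) (nat_lit 227) (.e (nat_lit 778317) (nat_lit 3) (.e (nat_lit 57479) (nat_lit 28) (.e (nat_lit 557101) (nat_lit 13) (.e (nat_lit 172097) (nat_lit 9) (.e (nat_lit 426140) (nat_lit 3) (.e (nat_lit 204855) (nat_lit 26) (.e (nat_lit 336294) (nat_lit 15) .nil)))))))) (.g (nat_lit 5) .nil .nil))) 
(.lf (nat_lit 104616) (.g (nat_lit 2969) (.e (nat_lit 3632) (nat_lit 227) (.e (nat_lit 778317) (nat_lit 3) (.e (nat_lit 57480) (nat_lit 28) (.e (nat_lit 557098) (nat_lit 13) (.e (nat_lit 172097) (nat_lit 9) (.e (nat_lit 426140) (nat_lit 3) (.e (nat_lit 204855) (nat_lit 26) (.e (nat_lit 336294) (nat_lit 15) .nil)))))))) (.g (nat_lit 5) .nil .nil)))) (.nd (nat_lit 5) 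
(.lf (nat_lit 104600) (.g (nat_lit 2796) (.e (nat_lit 3632) (nat_lit 227) (.e (nat_lit 778317) (nat_lit 3) (.e (nat_lit 57479) (nat_lit 28) (.e (nat_lit 557101) (nat_lit 13) (.e (nat_lit 172115) (nat_lit 10) (.e (nat_lit 434231) (nat_lit 23) (.e (nat_lit 532531) (nat_lit 9) (.e (nat_lit 336301) (nat_lit 15) .nil)))))))) (.g (nat_lit 5) .nil .nil))) 
(.lf (nat_lit 104632) (.g (nat_lit 2366) (.e (nat_lit 3632) (nat_lit 227) (.e (nat_lit 778317) (nat_lit 3) (.e (nat_lit 57480) (nat_lit 28) (.e (nat_lit 557098) (nat_lit 13) (.e (nat_lit 172115) (nat_lit 10) (.e (nat_lit 434231) (nat_lit 23) (.e (nat_lit 532531) (nat_lit 9) (.e (nat_lit 336270) (nat_lit 15) .nil)))))))) (.g (nat_lit 4) .nil .nil)))))) 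
(.nd (nat_lit 3) (.nd (nat_lit 4) (.nd (nat_lit 5) 
(.lf (nat_lit 104580) (.g (nat_lit 3743) (.e (nat_lit 3632) (nat_lit 227) (.e (nat_lit 778317) (nat_lit 3) (.e (nat_lit 57479) (nat_lit 28) (.e (nat_lit 557095) (nat_lit 13) (.e (nat_lit 172115) (nat_lit 10) (.e (nat_lit 434231) (nat_lit 23) (.e (nat_lit 532535) (nat_lit 9) (.e (nat_lit 336295) (nat_lit 15) .nil)))))))) (.g (nat_lit 4) .nil .nil))) 
(.lf (nat_lit 104612) (.g (nat_lit 6248) (.e (nat_lit 3632) (nat_lit 227) (.e (nat_lit 778317) (nat_lit 3) (.e (nat_lit 57480) (nat_lit 28) (.e (nat_lit 557098) (nat_lit 13) (.e (nat_lit 172097) (nat_lit 9) (.e (nat_lit 426125) (nat_lit 2) (.e (nat_lit 196664) (nat_lit 13) (.e (nat_lit 65637) (nat_lit 15) .nil)))))))) (.g (nat_lit 6) .nil .nil)))) (.nd (nat_lit 5) 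
(.lf (nat_lit 104596) (.g (nat_lit 3758) (.e (nat_lit 3632) (nat_lit 227) (.e (nat_lit 778317) (nat_lit 3) (.e (nat_lit 57479) (nat_lit 28) (.e (nat_lit 557101) (nat_lit 13) (.e (nat_lit 172115) (nat_lit 10) (.e (nat_lit 434231) (nat_lit 23) (.e (nat_lit 532531) (nat_lit 9) (.e (nat_lit 336263) (nat_lit 15) .nil)))))))) (.g (nat_lit 6) .nil .nil))) 
(.lf (nat_lit 104628) (.g (nat_lit 4371) (.e (nat_lit 3632) (nat_lit 227) (.e (nat_lit 778317) (nat_lit 3) (.e (nat_lit 57480) (nat_lit 28) (.e (nat_lit 557098) (nat_lit 13) (.e (nat_lit 172115) (nat_lit 10) (.e (nat_lit 434231) (nat_lit 23) (.e (nat_lit 532528) (nat_lit 9) (.e (nat_lit 336301) (nat_lit 15) .nil)))))))) (.g (nat_lit 6) .nil .nil))))) (.nd (nat_lit 4) (.nd (nat_lit 5) 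
(.lf (nat_lit 104588) (.g (nat_lit 2312) (.e (nat_lit 3632) (nat_lit 227) (.e (nat_lit 778317) (nat_lit 3) (.e (nat_lit 57479) (nat_lit 28) (.e (nat_lit 557101) (nat_lit 13) (.e (nat_lit 172097) (nat_lit 9) (.e (nat_lit 426140) (nat_lit 3) (.e (nat_lit 212736) (nat_lit 26) (.e (nat_lit 336300) (nat_lit 15) .nil)))))))) (.g (nat_lit 4) .nil .nil))) 
(.lf (nat_lit 104620) (.g (nat_lit 2327) (.e (nat_lit 3632) (nat_lit 227) (.e (nat_lit 778317) (nat_lit 3) (.e (nat_lit 57480) (nat_lit 28) (.e (nat_lit 557098) (nat_lit 13) (.e (nat_lit 172097) (nat_lit 9) (.e (nat_lit 426140) (nat_lit 3) (.e (nat_lit 212736) (nat_lit 26) (.e (nat_lit 336300) (nat_lit 15) .nil)))))))) (.g (nat_lit 4) .nil .nil)))) (.nd (nat_lit 5) 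
(.lf (nat_lit 104604) (.g (nat_lit 3844) (.e (nat_lit 3632) (nat_lit 227) (.e (nat_lit 778317) (nat_lit 3) (.e (nat_lit 57479) (nat_lit 28) (.e (nat_lit 557101) (nat_lit 13) (.e (nat_lit 172115) (nat_lit 10) (.e (nat_lit 434231) (nat_lit 23) (.e (nat_lit 532536) (nat_lit 9) (.e (nat_lit 336291) (nat_lit 15) .nil)))))))) (.g (nat_lit 6) .nil .nil))) 
(.lf (nat_lit 104636) (.g (nat_lit 6366) (.e (nat_lit 3632) (nat_lit 227) (.e (nat_lit 778317) (nat_lit 3) (.e (nat_lit 57480) (nat_lit 28) (.e (nat_lit 557098) (nat_lit 13) (.e (nat_lit 172115) (nat_lit 10) (.e (nat_lit 434231) (nat_lit 23) (.e (nat_lit 532535) (nat_lit 9) (.e (nat_lit 336282) (nat_lit 15) .nil)))))))) (.g (nat_lit 0) .nil .nil))))))) 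
(.nd (nat_lit 2) (.nd (nat_lit 3) (.nd (nat_lit 4) (.nd (nat_lit 5) 
(.lf (nat_lit 104578) (.g (nat_lit 3279) (.e (nat_lit 3632) (nat_lit 227) (.e (nat_lit 778317) (nat_lit 3) (.e (nat_lit 57479) (nat_lit 28) (.e (nat_lit 557095) (nat_lit 13) (.e (nat_lit 172115) (nat_lit 10) (.e (nat_lit 434231) (nat_lit 23) (.e (nat_lit 532529) (nat_lit 9) (.e (nat_lit 336263) (nat_lit 15) .nil)))))))) (.g (nat_lit 4) .nil .nil))) 
(.lf (nat_lit 104610) (.g (nat_lit 3180) (.e (nat_lit 3632) (nat_lit 227) (.e (nat_lit 778317) (nat_lit 3) (.e (nat_lit 57480) (nat_lit 28) (.e (nat_lit 557097) (nat_lit 13) (.e (nat_lit 172115) (nat_lit 10) (.e (nat_lit 434231) (nat_lit 23) (.e (nat_lit 532535) (nat_lit 9) (.e (nat_lit 336282) (nat_lit 15) .nil)))))))) (.g (nat_lit 4) .nil .nil)))) (.nd (nat_lit 5) 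
(.lf (nat_lit 104594) (.g (nat_lit 4097) (.e (nat_lit 3632) (nat_lit 227) (.e (nat_lit 778317) (nat_lit 3) (.e (nat_lit 57479) (nat_lit 28) (.e (nat_lit 557101) (nat_lit 13) (.e (nat_lit 172115) (nat_lit 10) (.e (nat_lit 434231) (nat_lit 23) (.e (nat_lit 532528) (nat_lit 9) (.e (nat_lit 336301) (nat_lit 15) .nil)))))))) (.g (nat_lit 6) .nil .nil))) 
(.lf (nat_lit 104626) (.g (nat_lit 4994) (.e (nat_lit 3632) (nat_lit 227) (.e (nat_lit 778317) (nat_lit 3) (.e (nat_lit 57480) (nat_lit 28) (.e (nat_lit 557098) (nat_lit 13) (.e (nat_lit 172115) (nat_lit 10) (.e (nat_lit 434231) (nat_lit 23) (.e (nat_lit 532528) (nat_lit 9) (.e (nat_lit 336263) (nat_lit 15) .nil)))))))) (.g (nat_lit 7) .nil .nil))))) (.nd (nat_lit 4) (.nd (nat_lit 5) 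
(.lf (nat_lit 104586) (.g (nat_lit 3291) (.e (nat_lit 3632) (nat_lit 227) (.e (nat_lit 778317) (nat_lit 3) (.e (nat_lit 57479) (nat_lit 28) (.e (nat_lit 557101) (nat_lit 13) (.e (nat_lit 172097) (nat_lit 9) (.e (nat_lit 426140) (nat_lit 3) (.e (nat_lit 204859) (nat_lit 26) (.e (nat_lit 336300) (nat_lit 15) .nil)))))))) (.g (nat_lit 5) .nil .nil))) 
(.lf (nat_lit 104618) (.g (nat_lit 3344) (.e (nat_lit 3632) (nat_lit 227) (.e (nat_lit 778317) (nat_lit 3) (.e (nat_lit 57480) (nat_lit 28) (.e (nat_lit 557098) (nat_lit 13) (.e (nat_lit 172097) (nat_lit 9) (.e (nat_lit 426140) (nat_lit 3) (.e (nat_lit 204859) (nat_lit 26) (.e (nat_lit 336300) (nat_lit 15) .nil)))))))) (.g (nat_lit 5) .nil .nil)))) (.nd (nat_lit 5) 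
(.lf (nat_lit 104602) (.g (nat_lit 5344) (.e (nat_lit 3632) (nat_lit 227) (.e (nat_lit 778317) (nat_lit 3) (.e (nat_lit 57479) (nat_lit 28) (.e (nat_lit 557101) (nat_lit 13) (.e (nat_lit 172115) (nat_lit 10) (.e (nat_lit 434231) (nat_lit 23) (.e (nat_lit 532535) (nat_lit 9) (.e (nat_lit 336291) (nat_lit 15) .nil)))))))) (.g (nat_lit 7) .nil .nil))) 
(.lf (nat_lit 104634) (.g (nat_lit 2274) (.e (nat_lit 3632) (nat_lit 227) (.e (nat_lit 778317) (nat_lit 3) (.e (nat_lit 57480) (nat_lit 28) (.e (nat_lit 557098) (nat_lit 13) (.e (nat_lit 172115) (nat_lit 10) (.e (nat_lit 434231) (nat_lit 23) (.e (nat_lit 532531) (nat_lit 9) (.e (nat_lit 336286) (nat_lit 15) .nil)))))))) (.g (nat_lit 4) .nil .nil)))))) 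
(.nd (nat_lit 3) (.nd (nat_lit 4) (.nd (nat_lit 5) 
(.lf (nat_lit 104582) (.g (nat_lit 5574) (.e (nat_lit 3632) (nat_lit 227) (.e (nat_lit 778317) (nat_lit 3) (.e (nat_lit 57479) (nat_lit 28) (.e (nat_lit 557101) (nat_lit 13) (.e (nat_lit 172097) (nat_lit 9) (.e (nat_lit 426140) (nat_lit 3) (.e (nat_lit 204855) (nat_lit 26) (.e (nat_lit 336282) (nat_lit 15) .nil)))))))) (.g (nat_lit 0) .nil .nil))) 
(.lf (nat_lit 104614) (.g (nat_lit 5629) (.e (nat_lit 3632) (nat_lit 227) (.e (nat_lit 778317) (nat_lit 3) (.e (nat_lit 57480) (nat_lit 28) (.e (nat_lit 557098) (nat_lit 13) (.e (nat_lit 172097) (nat_lit 9) (.e (nat_lit 426140) (nat_lit 3) (.e (nat_lit 204855) (nat_lit 26) (.e (nat_lit 336282) (nat_lit 15) .nil)))))))) (.g (nat_lit 0) .nil .nil)))) (.nd (nat_lit 5) 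
(.lf (nat_lit 104598) (.g (nat_lit 2240) (.e (nat_lit 3632) (nat_lit 227) (.e (nat_lit 778317) (nat_lit 3) (.e (nat_lit 57479) (nat_lit 28) (.e (nat_lit 557101) (nat_lit 13) (.e (nat_lit 172115) (nat_lit 10) (.e (nat_lit 434231) (nat_lit 23) (.e (nat_lit 532531) (nat_lit 9) (.e (nat_lit 336270) (nat_lit 15) .nil)))))))) (.g (nat_lit 4) .nil .nil))) 
(.lf (nat_lit 104630) (.g (nat_lit 3935) (.e (nat_lit 3632) (nat_lit 227) (.e (nat_lit 778317) (nat_lit 3) (.e (nat_lit 57480) (nat_lit 28) (.e (nat_lit 557098) (nat_lit 13) (.e (nat_lit 172115) (nat_lit 10) (.e (nat_lit 434231) (nat_lit 23) (.e (nat_lit 532531) (nat_lit 9) (.e (nat_lit 336263) (nat_lit 15) .nil)))))))) (.g (nat_lit 6) .nil .nil))))) (.nd (nat_lit 4) (.nd (nat_lit 5) 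
(.lf (nat_lit 104590) (.g (nat_lit 3746) (.e (nat_lit 3632) (nat_lit 227) (.e (nat_lit 778317) (nat_lit 3) (.e (nat_lit 57479) (nat_lit 28) (.e (nat_lit 557101) (nat_lit 13) (.e (nat_lit 172115) (nat_lit 10) (.e (nat_lit 434220) (nat_lit 19) (.e (nat_lit 500062) (nat_lit 18) (.e (nat_lit 65637) (nat_lit 15) .nil)))))))) (.g (nat_lit 5) .nil .nil))) 
(.lf (nat_lit 104622) (.g (nat_lit 2038) (.e (nat_lit 3632) (nat_lit 227) (.e (nat_lit 778317) (nat_lit 3) (.e (nat_lit 57480) (nat_lit 28) (.e (nat_lit 557098) (nat_lit 13) (.e (nat_lit 172112) (nat_lit 10) (.e (nat_lit 434217) (nat_lit 19) (.e (nat_lit 500065) (nat_lit 18) (.e (nat_lit 65642) (nat_lit 15) .nil)))))))) (.g (nat_lit 4) .nil .nil)))) (.nd (nat_lit 5) 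
(.lf (nat_lit 104606) (.g (nat_lit 480) (.e (nat_lit 3632) (nat_lit 227) (.e (nat_lit 778317) (nat_lit 3) (.e (nat_lit 57480) (nat_lit 28) .nil))) .nil)) 
(.lf (nat_lit 104638) (.g (nat_lit 4416) (.e (nat_lit 3632) (nat_lit 227) (.e (nat_lit 778317) (nat_lit 3) (.e (nat_lit 57480) (nat_lit 28) (.e (nat_lit 557098) (nat_lit 13) (.e (nat_lit 172115) (nat_lit 10) (.e (nat_lit 434231) (nat_lit 23) (.e (nat_lit 532536) (nat_lit 9) (.e (nat_lit 336282) (nat_lit 15) .nil)))))))) (.g (nat_lit 6) .nil .nil)))))))) 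
(.nd (nat_lit 1) (.nd (nat_lit 2) (.nd (nat_lit 3) (.nd (nat_lit 4) (.nd (nat_lit 5) 
(.lf (nat_lit 104577) (.g (nat_lit 3536) (.e (nat_lit 3632) (nat_lit 227) (.e (nat_lit 778317) (nat_lit 3) (.e (nat_lit 57479) (nat_lit 28) (.e (nat_lit 557095) (nat_lit 13) (.e (nat_lit 172115) (nat_lit 10) (.e (nat_lit 434219) (nat_lit 19) (.e (nat_lit 500062) (nat_lit 18) (.e (nat_lit 65637) (nat_lit 15) .nil)))))))) (.g (nat_lit 4) .nil .nil))) 
(.lf (nat_lit 104609) (.g (nat_lit 2768) (.e (nat_lit 3632) (nat_lit 227) (.e (nat_lit 778317) (nat_lit 3) (.e (nat_lit 57480) (nat_lit 28) (.e (nat_lit 557097) (nat_lit 13) (.e (nat_lit 172105) (nat_lit 10) .nil))))) .nil))) (.nd (nat_lit 5) 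
(.lf (nat_lit 104593) (.g (nat_lit 3975) (.e (nat_lit 3632) (nat_lit 227) (.e (nat_lit 778317) (nat_lit 3) (.e (nat_lit 57479) (nat_lit 28) (.e (nat_lit 557101) (nat_lit 13) (.e (nat_lit 172115) (nat_lit 10) (.e (nat_lit 434231) (nat_lit 23) (.e (nat_lit 532528) (nat_lit 9) (.e (nat_lit 336285) (nat_lit 15) .nil)))))))) (.g (nat_lit 6) .nil .nil))) 
(.lf (nat_lit 104625) (.g (nat_lit 4124) (.e (nat_lit 3632) (nat_lit 227) (.e (nat_lit 778317) (nat_lit 3) (.e (nat_lit 57480) (nat_lit 28) (.e (nat_lit 557098) (nat_lit 13) (.e (nat_lit 172115) (nat_lit 10) (.e (nat_lit 434231) (nat_lit 23) (.e (nat_lit 532528) (nat_lit 9) (.e (nat_lit 336262) (nat_lit 15) .nil)))))))) (.g (nat_lit 6) .nil .nil))))) (.nd (nat_lit 4) (.nd (nat_lit 5) 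
(.lf (nat_lit 104585) (.g (nat_lit 2521) (.e (nat_lit 3632) (nat_lit 227) (.e (nat_lit 778317) (nat_lit 3) (.e (nat_lit 57479) (nat_lit 28) (.e (nat_lit 557101) (nat_lit 13) (.e (nat_lit 172097) (nat_lit 9) (.e (nat_lit 426140) (nat_lit 3) (.e (nat_lit 204859) (nat_lit 26) (.e (nat_lit 336277) (nat_lit 15) .nil)))))))) (.g (nat_lit 4) .nil .nil))) 
(.lf (nat_lit 104617) (.g (nat_lit 2664) (.e (nat_lit 3632) (nat_lit 227) (.e (nat_lit 778317) (nat_lit 3) (.e (nat_lit 57480) (nat_lit 28) (.e (nat_lit 557098) (nat_lit 13) (.e (nat_lit 172097) (nat_lit 9) (.e (nat_lit 426140) (nat_lit 3) (.e (nat_lit 204859) (nat_lit 26) (.e (nat_lit 336277) (nat_lit 15) .nil)))))))) (.g (nat_lit 4) .nil .nil)))) (.nd (nat_lit 5) 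
(.lf (nat_lit 104601) (.g (nat_lit 6212) (.e (nat_lit 3632) (nat_lit 227) (.e (nat_lit 778317) (nat_lit 3) (.e (nat_lit 57479) (nat_lit 28) (.e (nat_lit 557101) (nat_lit 13) (.e (nat_lit 172115) (nat_lit 10) (.e (nat_lit 434231) (nat_lit 23) (.e (nat_lit 532535) (nat_lit 9) (.e (nat_lit 336282) (nat_lit 15) .nil)))))))) (.g (nat_lit 0) .nil .nil))) 
(.lf (nat_lit 104633) (.g (nat_lit 2829) (.e (nat_lit 3632) (nat_lit 227) (.e (nat_lit 778317) (nat_lit 3) (.e (nat_lit 57480) (nat_lit 28) (.e (nat_lit 557098) (nat_lit 13) (.e (nat_lit 172115) (nat_lit 10) (.e (nat_lit 434231) (nat_lit 23) (.e (nat_lit 532531) (nat_lit 9) (.e (nat_lit 336285) (nat_lit 15) .nil)))))))) (.g (nat_lit 5) .nil .nil)))))) 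
(.nd (nat_lit 3) (.nd (nat_lit 4) (.nd (nat_lit 5) 
(.lf (nat_lit 104581) (.g (nat_lit 6126) (.e (nat_lit 3632) (nat_lit 227) (.e (nat_lit 778317) (nat_lit 3) (.e (nat_lit 57479) (nat_lit 28) (.e (nat_lit 557101) (nat_lit 13) (.e (nat_lit 172097) (nat_lit 9) (.e (nat_lit 426125) (nat_lit 2) (.e (nat_lit 196666) (nat_lit 13) (.e (nat_lit 65640) (nat_lit 15) .nil)))))))) (.g (nat_lit 7) .nil .nil))) 
(.lf (nat_lit 104613) (.g (nat_lit 6209) (.e (nat_lit 3632) (nat_lit 227) (.e (nat_lit 778317) (nat_lit 3) (.e (nat_lit 57480) (nat_lit 28) (.e (nat_lit 557098) (nat_lit 13) (.e (nat_lit 172097) (nat_lit 9) (.e (nat_lit 426125) (nat_lit 2) (.e (nat_lit 196666) (nat_lit 13) (.e (nat_lit 65640) (nat_lit 15) .nil)))))))) (.g (nat_lit 7) .nil .nil)))) (.nd (nat_lit 5) 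
(.lf (nat_lit 104597) (.g (nat_lit 2846) (.e (nat_lit 3632) (nat_lit 227) (.e (nat_lit 778317) (nat_lit 3) (.e (nat_lit 57479) (nat_lit 28) (.e (nat_lit 557101) (nat_lit 13) (.e (nat_lit 172115) (nat_lit 10) (.e (nat_lit 434231) (nat_lit 23) (.e (nat_lit 532531) (nat_lit 9) (.e (nat_lit 336265) (nat_lit 15) .nil)))))))) (.g (nat_lit 5) .nil .nil))) 
(.lf (nat_lit 104629) (.g (nat_lit 4616) (.e (nat_lit 3632) (nat_lit 227) (.e (nat_lit 778317) (nat_lit 3) (.e (nat_lit 57480) (nat_lit 28) (.e (nat_lit 557098) (nat_lit 13) (.e (nat_lit 172115) (nat_lit 10) (.e (nat_lit 434231) (nat_lit 23) (.e (nat_lit 532529) (nat_lit 9) (.e (nat_lit 336297) (nat_lit 15) .nil)))))))) (.g (nat_lit 6) .nil .nil))))) (.nd (nat_lit 4) (.nd (nat_lit 5) 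
(.lf (nat_lit 104589) (.g (nat_lit 5950) (.e (nat_lit 3632) (nat_lit 227) (.e (nat_lit 778317) (nat_lit 3) (.e (nat_lit 57479) (nat_lit 28) (.e (nat_lit 557101) (nat_lit 13) (.e (nat_lit 172106) (nat_lit 10) (.e (nat_lit 434231) (nat_lit 23) (.e (nat_lit 532535) (nat_lit 9) (.e (nat_lit 336295) (nat_lit 15) .nil)))))))) (.g (nat_lit 8) .nil .nil))) 
(.lf (nat_lit 104621) (.g (nat_lit 4755) (.e (nat_lit 3632) (nat_lit 227) (.e (nat_lit 778317) (nat_lit 3) (.e (nat_lit 57480) (nat_lit 28) (.e (nat_lit 557098) (nat_lit 13) (.e (nat_lit 172105) (nat_lit 10) (.e (nat_lit 434231) (nat_lit 23) (.e (nat_lit 532535) (nat_lit 9) (.e (nat_lit 336295) (nat_lit 15) .nil)))))))) (.g (nat_lit 7) .nil .nil)))) (.nd (nat_lit 5) 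
(.lf (nat_lit 104605) (.g (nat_lit 3467) (.e (nat_lit 3632) (nat_lit 227) (.e (nat_lit 778317) (nat_lit 3) (.e (nat_lit 57479) (nat_lit 28) (.e (nat_lit 557101) (nat_lit 13) (.e (nat_lit 172115) (nat_lit 10) (.e (nat_lit 434231) (nat_lit 23) (.e (nat_lit 532536) (nat_lit 9) (.e (nat_lit 336292) (nat_lit 15) .nil)))))))) (.g (nat_lit 5) .nil .nil))) 
(.lf (nat_lit 104637) (.g (nat_lit 5457) (.e (nat_lit 3632) (nat_lit 227) (.e (nat_lit 778317) (nat_lit 3) (.e (nat_lit 57480) (nat_lit 28) (.e (nat_lit 557098) (nat_lit 13) (.e (nat_lit 172115) (nat_lit 10) (.e (nat_lit 434231) (nat_lit 23) (.e (nat_lit 532535) (nat_lit 9) (.e (nat_lit 336291) (nat_lit 15) .nil)))))))) (.g (nat_lit 7) .nil .nil))))))) 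
(.nd (nat_lit 2) (.nd (nat_lit 3) (.nd (nat_lit 4) (.nd (nat_lit 5) 
(.lf (nat_lit 104579) (.g (nat_lit 3918) (.e (nat_lit 3632) (nat_lit 227) (.e (nat_lit 778317) (nat_lit 3) (.e (nat_lit 57479) (nat_lit 28) (.e (nat_lit 557095) (nat_lit 13) (.e (nat_lit 172115) (nat_lit 10) (.e (nat_lit 434231) (nat_lit 23) (.e (nat_lit 532535) (nat_lit 9) (.e (nat_lit 336282) (nat_lit 15) .nil)))))))) (.g (nat_lit 4) .nil .nil))) 
(.lf (nat_lit 104611) (.g (nat_lit 3002) (.e (nat_lit 3632) (nat_lit 227) (.e (nat_lit 778317) (nat_lit 3) (.e (nat_lit 57480) (nat_lit 28) (.e (nat_lit 557097) (nat_lit 13) (.e (nat_lit 172115) (nat_lit 10) (.e (nat_lit 434231) (nat_lit 23) (.e (nat_lit 532535) (nat_lit 9) (.e (nat_lit 336295) (nat_lit 15) .nil)))))))) (.g (nat_lit 4) .nil .nil)))) (.nd (nat_lit 5) 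
(.lf (nat_lit 104595) (.g (nat_lit 4350) (.e (nat_lit 3632) (nat_lit 227) (.e (nat_lit 778317) (nat_lit 3) (.e (nat_lit 57479) (nat_lit 28) (.e (nat_lit 557101) (nat_lit 13) (.e (nat_lit 172115) (nat_lit 10) (.e (nat_lit 434231) (nat_lit 23) (.e (nat_lit 532529) (nat_lit 9) (.e (nat_lit 336297) (nat_lit 15) .nil)))))))) (.g (nat_lit 6) .nil .nil))) 
(.lf (nat_lit 104627) (.g (nat_lit 4249) (.e (nat_lit 3632) (nat_lit 227) (.e (nat_lit 778317) (nat_lit 3) (.e (nat_lit 57480) (nat_lit 28) (.e (nat_lit 557098) (nat_lit 13) (.e (nat_lit 172115) (nat_lit 10) (.e (nat_lit 434231) (nat_lit 23) (.e (nat_lit 532528) (nat_lit 9) (.e (nat_lit 336285) (nat_lit 15) .nil)))))))) (.g (nat_lit 6) .nil .nil))))) (.nd (nat_lit 4) (.nd (nat_lit 5) 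
(.lf (nat_lit 104587) (.g (nat_lit 3255) (.e (nat_lit 3632) (nat_lit 227) (.e (nat_lit 778317) (nat_lit 3) (.e (nat_lit 57479) (nat_lit 28) (.e (nat_lit 557101) (nat_lit 13) (.e (nat_lit 172097) (nat_lit 9) (.e (nat_lit 426140) (nat_lit 3) (.e (nat_lit 212736) (nat_lit 26) (.e (nat_lit 336277) (nat_lit 15) .nil)))))))) (.g (nat_lit 5) .nil .nil))) 
(.lf (nat_lit 104619) (.g (nat_lit 3360) (.e (nat_lit 3632) (nat_lit 227) (.e (nat_lit 778317) (nat_lit 3) (.e (nat_lit 57480) (nat_lit 28) (.e (nat_lit 557098) (nat_lit 13) (.e (nat_lit 172097) (nat_lit 9) (.e (nat_lit 426140) (nat_lit 3) (.e (nat_lit 212736) (nat_lit 26) (.e (nat_lit 336277) (nat_lit 15) .nil)))))))) (.g (nat_lit 5) .nil .nil)))) (.nd (nat_lit 5) 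
(.lf (nat_lit 104603) (.g (nat_lit 4237) (.e (nat_lit 3632) (nat_lit 227) (.e (nat_lit 778317) (nat_lit 3) (.e (nat_lit 57479) (nat_lit 28) (.e (nat_lit 557101) (nat_lit 13) (.e (nat_lit 172115) (nat_lit 10) (.e (nat_lit 434231) (nat_lit 23) (.e (nat_lit 532536) (nat_lit 9) (.e (nat_lit 336282) (nat_lit 15) .nil)))))))) (.g (nat_lit 6) .nil .nil))) 
(.lf (nat_lit 104635) (.g (nat_lit 2955) (.e (nat_lit 3632) (nat_lit 227) (.e (nat_lit 778317) (nat_lit 3) (.e (nat_lit 57480) (nat_lit 28) (.e (nat_lit 557098) (nat_lit 13) (.e (nat_lit 172115) (nat_lit 10) (.e (nat_lit 434231) (nat_lit 23) (.e (nat_lit 532531) (nat_lit 9) (.e (nat_lit 336301) (nat_lit 15) .nil)))))))) (.g (nat_lit 5) .nil .nil)))))) 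
(.nd (nat_lit 3) (.nd (nat_lit 4) (.nd (nat_lit 5) 
(.lf (nat_lit 104583) (.g (nat_lit 4659) (.e (nat_lit 3632) (nat_lit 227) (.e (nat_lit 778317) (nat_lit 3) (.e (nat_lit 57479) (nat_lit 28) (.e (nat_lit 557101) (nat_lit 13) (.e (nat_lit 172097) (nat_lit 9) (.e (nat_lit 426140) (nat_lit 3) (.e (nat_lit 204855) (nat_lit 26) (.e (nat_lit 336291) (nat_lit 15) .nil)))))))) (.g (nat_lit 7) .nil .nil))) 
(.lf (nat_lit 104615) (.g (nat_lit 4673) (.e (nat_lit 3632) (nat_lit 227) (.e (nat_lit 778317) (nat_lit 3) (.e (nat_lit 57480) (nat_lit 28) (.e (nat_lit 557098) (nat_lit 13) (.e (nat_lit 172097) (nat_lit 9) (.e (nat_lit 426140) (nat_lit 3) (.e (nat_lit 204855) (nat_lit 26) (.e (nat_lit 336291) (nat_lit 15) .nil)))))))) (.g (nat_lit 7) .nil .nil)))) (.nd (nat_lit 5) 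
(.lf (nat_lit 104599) (.g (nat_lit 2148) (.e (nat_lit 3632) (nat_lit 227) (.e (nat_lit 778317) (nat_lit 3) (.e (nat_lit 57479) (nat_lit 28) (.e (nat_lit 557101) (nat_lit 13) (.e (nat_lit 172115) (nat_lit 10) (.e (nat_lit 434231) (nat_lit 23) (.e (nat_lit 532531) (nat_lit 9) (.e (nat_lit 336286) (nat_lit 15) .nil)))))))) (.g (nat_lit 4) .nil .nil))) 
(.lf (nat_lit 104631) (.g (nat_lit 2972) (.e (nat_lit 3632) (nat_lit 227) (.e (nat_lit 778317) (nat_lit 3) (.e (nat_lit 57480) (nat_lit 28) (.e (nat_lit 557098) (nat_lit 13) (.e (nat_lit 172115) (nat_lit 10) (.e (nat_lit 434231) (nat_lit 23) (.e (nat_lit 532531) (nat_lit 9) (.e (nat_lit 336265) (nat_lit 15) .nil)))))))) (.g (nat_lit 5) .nil .nil))))) (.nd (nat_lit 4) (.nd (nat_lit 5) 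
(.lf (nat_lit 104591) (.g (nat_lit 4884) (.e (nat_lit 3632) (nat_lit 227) (.e (nat_lit 778317) (nat_lit 3) (.e (nat_lit 57479) (nat_lit 28) (.e (nat_lit 557101) (nat_lit 13) (.e (nat_lit 172115) (nat_lit 10) (.e (nat_lit 434231) (nat_lit 23) (.e (nat_lit 532527) (nat_lit 9) (.e (nat_lit 336282) (nat_lit 15) .nil)))))))) (.g (nat_lit 7) .nil .nil))) 
(.lf (nat_lit 104623) (.g (nat_lit 4917) (.e (nat_lit 3632) (nat_lit 227) (.e (nat_lit 778317) (nat_lit 3) (.e (nat_lit 57480) (nat_lit 28) (.e (nat_lit 557098) (nat_lit 13) (.e (nat_lit 172115) (nat_lit 10) (.e (nat_lit 434219) (nat_lit 19) (.e (nat_lit 500061) (nat_lit 18) (.e (nat_lit 65637) (nat_lit 15) .nil)))))))) (.g (nat_lit 6) .nil .nil)))) (.nd (nat_lit 5) 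
(.lf (nat_lit 104607) (.g (nat_lit 5490) (.e (nat_lit 3632) (nat_lit 227) (.e (nat_lit 778317) (nat_lit 3) (.e (nat_lit 57480) (nat_lit 28) (.e (nat_lit 557096) (nat_lit 13) (.e (nat_lit 172106) (nat_lit 10) (.e (nat_lit 434231) (nat_lit 23) (.e (nat_lit 532535) (nat_lit 9) (.e (nat_lit 336295) (nat_lit 15) .nil)))))))) (.g (nat_lit 8) .nil .nil))) 
(.lf (nat_lit 104639) (.g (nat_lit 3982) (.e (nat_lit 3632) (nat_lit 227) (.e (nat_lit 778317) (nat_lit 3) (.e (nat_lit 57480) (nat_lit 28) (.e (nat_lit 557098) (nat_lit 13) (.e (nat_lit 172115) (nat_lit 10) (.e (nat_lit 434231) (nat_lit 23) (.e (nat_lit 532536) (nat_lit 9) (.e (nat_lit 336291) (nat_lit 15) .nil)))))))) (.g (nat_lit 6) .nil .nil)))))))))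

noncomputable def tv1430 : DT := (.nd (nat_lit 0) (.nd (nat_lit 1) (.nd (nat_lit 2) (.nd (nat_lit 3) (.nd (nat_lit 4) (.nd (nat_lit 5) 
(.lf (nat_lit 104640) (.g (nat_lit 3596) (.e (nat_lit 3632) (nat_lit 227) (.e (nat_lit 778317) (nat_lit 3) (.e (nat_lit 57480) (nat_lit 28) (.e (nat_lit 557098) (nat_lit 13) (.e (nat_lit 172115) (nat_lit 10) (.e (nat_lit 434231) (nat_lit 23) (.e (nat_lit 532536) (nat_lit 9) (.e (nat_lit 336292) (nat_lit 15) .nil)))))))) (.g (nat_lit 5) .nil .nil))) 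
(.lf (nat_lit 104672) (.g (nat_lit 2983) (.e (nat_lit 3632) (nat_lit 227) (.e (nat_lit 778317) (nat_lit 3) (.e (nat_lit 57480) (nat_lit 28) (.e (nat_lit 557108) (nat_lit 15) (.e (nat_lit 188452) (nat_lit 23) (.e (nat_lit 204851) (nat_lit 26) (.e (nat_lit 336286) (nat_lit 15) .nil))))))) (.g (nat_lit 4) .nil .nil)))) (.nd (nat_lit 5) 
(.lf (nat_lit 104656) (.g (nat_lit 4946) (.e (nat_lit 3632) (nat_lit 227) (.e (nat_lit 778317) (nat_lit 3) (.e (nat_lit 57480) (nat_lit 28) (.e (nat_lit 557107) (nat_lit 15) (.e (nat_lit 188450) (nat_lit 23) (.e (nat_lit 204855) (nat_lit 26) (.e (nat_lit 336282) (nat_lit 15) .nil))))))) (.g (nat_lit 0) .nil .nil))) 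
(.lf (nat_lit 104688) (.g (nat_lit 5067) (.e (nat_lit 3632) (nat_lit 227) (.e (nat_lit 778317) (nat_lit 3) (.e (nat_lit 57480) (nat_lit 28) (.e (nat_lit 557109) (nat_lit 15) (.e (nat_lit 188449) (nat_lit 22) (.e (nat_lit 196662) (nat_lit 13) (.e (nat_lit 65642) (nat_lit 15) .nil))))))) (.g (nat_lit 6) .nil .nil))))) (.nd (nat_lit 4) (.nd (nat_lit 5) 
(.lf (nat_lit 104648) (.g (nat_lit 2785) (.e (nat_lit 3632) (nat_lit 227) (.e (nat_lit 778317) (nat_lit 3) (.e (nat_lit 57480) (nat_lit 28) (.e (nat_lit 557107) (nat_lit 15) (.e (nat_lit 188450) (nat_lit 23) (.e (nat_lit 204851) (nat_lit 26) (.e (nat_lit 336285) (nat_lit 15) .nil))))))) (.g (nat_lit 4) .nil .nil))) 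
(.lf (nat_lit 104680) (.g (nat_lit 3842) (.e (nat_lit 3632) (nat_lit 227) (.e (nat_lit 778317) (nat_lit 3) (.e (nat_lit 57480) (nat_lit 28) (.e (nat_lit 557109) (nat_lit 15) (.e (nat_lit 188433) (nat_lit 20) (.e (nat_lit 3142) (nat_lit 193) (.e (nat_lit 500065) (nat_lit 18) (.e (nat_lit 65642) (nat_lit 15) .nil)))))))) (.g (nat_lit 5) .nil .nil)))) (.nd (nat_lit 5) 
(.lf (nat_lit 104664) (.g (nat_lit 3346) (.e (nat_lit 3632) (nat_lit 227) (.e (nat_lit 778317) (nat_lit 3) (.e (nat_lit 57480) (nat_lit 28) (.e (nat_lit 557107) (nat_lit 15) (.e (nat_lit 188450) (nat_lit 23) (.e (nat_lit 204859) (nat_lit 26) (.e (nat_lit 336300) (nat_lit 15) .nil))))))) (.g (nat_lit 5) .nil .nil))) 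
(.lf (nat_lit 104696) (.g (nat_lit 5342) (.e (nat_lit 3632) (nat_lit 227) (.e (nat_lit 778317) (nat_lit 3) (.e (nat_lit 57480) (nat_lit 28) (.e (nat_lit 557109) (nat_lit 15) (.e (nat_lit 188450) (nat_lit 23) (.e (nat_lit 204855) (nat_lit 26) (.e (nat_lit 336282) (nat_lit 15) .nil))))))) (.g (nat_lit 6) .nil .nil)))))) (.nd (nat_lit 3) (.nd (nat_lit 4) (.nd (nat_lit 5) 
(.lf (nat_lit 104644) (.g (nat_lit 2835) (.e (nat_lit 3632) (nat_lit 227) (.e (nat_lit 778317) (nat_lit 3) (.e (nat_lit 57480) (nat_lit 28) (.e (nat_lit 557107) (nat_lit 15) (.e (nat_lit 188450) (nat_lit 23) (.e (nat_lit 204851) (nat_lit 26) (.e (nat_lit 336262) (nat_lit 15) .nil))))))) (.g (nat_lit 5) .nil .nil))) 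
(.lf (nat_lit 104676) (.g (nat_lit 3008) (.e (nat_lit 3632) (nat_lit 227) (.e (nat_lit 778317) (nat_lit 3) (.e (nat_lit 57480) (nat_lit 28) (.e (nat_lit 557109) (nat_lit 15) (.e (nat_lit 188424) (nat_lit 20) .nil))))) .nil))) (.nd (nat_lit 5) 
(.lf (nat_lit 104660) (.g (nat_lit 2040) (.e (nat_lit 3632) (nat_lit 227) (.e (nat_lit 778317) (nat_lit 3) (.e (nat_lit 57480) (nat_lit 28) (.e (nat_lit 557107) (nat_lit 15) (.e (nat_lit 188450) (nat_lit 23) (.e (nat_lit 204856) (nat_lit 26) (.e (nat_lit 336292) (nat_lit 15) .nil))))))) (.g (nat_lit 4) .nil .nil))) 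
(.lf (nat_lit 104692) (.g (nat_lit 5835) (.e (nat_lit 3632) (nat_lit 227) (.e (nat_lit 778317) (nat_lit 3) (.e (nat_lit 57480) (nat_lit 28) (.e (nat_lit 557109) (nat_lit 15) (.e (nat_lit 188449) (nat_lit 22) (.e (nat_lit 196680) (nat_lit 17) (.e (nat_lit 131132) (nat_lit 15) .nil))))))) (.g (nat_lit 5) .nil .nil))))) (.nd (nat_lit 4) (.nd (nat_lit 5) 
(.lf (nat_lit 104652) (.g (nat_lit 4554) (.e (nat_lit 3632) (nat_lit 227) (.e (nat_lit 778317) (nat_lit 3) (.e (nat_lit 57480) (nat_lit 28) (.e (nat_lit 557107) (nat_lit 15) (.e (nat_lit 188450) (nat_lit 23) (.e (nat_lit 204852) (nat_lit 26) (.e (nat_lit 336263) (nat_lit 15) .nil))))))) (.g (nat_lit 6) .nil .nil))) 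
(.lf (nat_lit 104684) (.g (nat_lit 3401) (.e (nat_lit 3632) (nat_lit 227) (.e (nat_lit 778317) (nat_lit 3) (.e (nat_lit 57480) (nat_lit 28) (.e (nat_lit 557109) (nat_lit 15) (.e (nat_lit 188441) (nat_lit 20) (.e (nat_lit 3107) (nat_lit 193) (.e (nat_lit 500065) (nat_lit 18) (.e (nat_lit 65642) (nat_lit 15) .nil)))))))) (.g (nat_lit 4) .nil .nil)))) (.nd (nat_lit 5) 
(.lf (nat_lit 104668) (.g (nat_lit 3599) (.e (nat_lit 3632) (nat_lit 227) (.e (nat_lit 778317) (nat_lit 3) (.e (nat_lit 57480) (nat_lit 28) (.e (nat_lit 557108) (nat_lit 15) (.e (nat_lit 188452) (nat_lit 23) (.e (nat_lit 204851) (nat_lit 26) (.e (nat_lit 336262) (nat_lit 15) .nil))))))) (.g (nat_lit 5) .nil .nil))) 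
(.lf (nat_lit 104700) (.g (nat_lit 4653) (.e (nat_lit 3632) (nat_lit 227) (.e (nat_lit 778317) (nat_lit 3) (.e (nat_lit 57480) (nat_lit 28) (.e (nat_lit 557109) (nat_lit 15) (.e (nat_lit 188452) (nat_lit 23) (.e (nat_lit 204851) (nat_lit 26) (.e (nat_lit 336263) (nat_lit 15) .nil))))))) (.g (nat_lit 6) .nil .nil))))))) (.nd (nat_lit 2) (.nd (nat_lit 3) (.nd (nat_lit 4) (.nd (nat_lit 5) 
(.lf (nat_lit 104642) (.g (nat_lit 1055) (.e (nat_lit 3632) (nat_lit 227) (.e (nat_lit 778317) (nat_lit 3) (.e (nat_lit 57480) (nat_lit 28) (.e (nat_lit 557107) (nat_lit 15) .nil)))) .nil)) 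
(.lf (nat_lit 104674) (.g (nat_lit 4587) (.e (nat_lit 3632) (nat_lit 227) (.e (nat_lit 778317) (nat_lit 3) (.e (nat_lit 57480) (nat_lit 28) (.e (nat_lit 557108) (nat_lit 15) (.e (nat_lit 188452) (nat_lit 23) (.e (nat_lit 204852) (nat_lit 26) (.e (nat_lit 336285) (nat_lit 15) .nil))))))) (.g (nat_lit 5) .nil .nil)))) (.nd (nat_lit 5) 
(.lf (nat_lit 104658) (.g (nat_lit 2774) (.e (nat_lit 3632) (nat_lit 227) (.e (nat_lit 778317) (nat_lit 3) (.e (nat_lit 57480) (nat_lit 28) (.e (nat_lit 557107) (nat_lit 15) (.e (nat_lit 188450) (nat_lit 23) (.e (nat_lit 204855) (nat_lit 26) (.e (nat_lit 336294) (nat_lit 15) .nil))))))) (.g (nat_lit 4) .nil .nil))) 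
(.lf (nat_lit 104690) (.g (nat_lit 4750) (.e (nat_lit 3632) (nat_lit 227) (.e (nat_lit 778317) (nat_lit 3) (.e (nat_lit 57480) (nat_lit 28) (.e (nat_lit 557109) (nat_lit 15) (.e (nat_lit 188449) (nat_lit 22) (.e (nat_lit 196666) (nat_lit 13) (.e (nat_lit 65640) (nat_lit 15) .nil))))))) (.g (nat_lit 6) .nil .nil))))) (.nd (nat_lit 4) (.nd (nat_lit 5) 
(.lf (nat_lit 104650) (.g (nat_lit 2887) (.e (nat_lit 3632) (nat_lit 227) (.e (nat_lit 778317) (nat_lit 3) (.e (nat_lit 57480) (nat_lit 28) (.e (nat_lit 557107) (nat_lit 15) (.e (nat_lit 188450) (nat_lit 23) (.e (nat_lit 204851) (nat_lit 26) (.e (nat_lit 336301) (nat_lit 15) .nil))))))) (.g (nat_lit 5) .nil .nil))) 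
(.lf (nat_lit 104682) (.g (nat_lit 3000) (.e (nat_lit 3632) (nat_lit 227) (.e (nat_lit 778317) (nat_lit 3) (.e (nat_lit 57480) (nat_lit 28) (.e (nat_lit 557109) (nat_lit 15) (.e (nat_lit 188434) (nat_lit 20) (.e (nat_lit 3134) (nat_lit 193) (.e (nat_lit 500065) (nat_lit 18) (.e (nat_lit 65642) (nat_lit 15) .nil)))))))) (.g (nat_lit 4) .nil .nil)))) (.nd (nat_lit 5) 
(.lf (nat_lit 104666) (.g (nat_lit 2486) (.e (nat_lit 3632) (nat_lit 227) (.e (nat_lit 778317) (nat_lit 3) (.e (nat_lit 57480) (nat_lit 28) (.e (nat_lit 557107) (nat_lit 15) (.e (nat_lit 188450) (nat_lit 23) (.e (nat_lit 212736) (nat_lit 26) (.e (nat_lit 336277) (nat_lit 15) .nil))))))) (.g (nat_lit 4) .nil .nil))) 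
(.lf (nat_lit 104698) (.g (nat_lit 5090) (.e (nat_lit 3632) (nat_lit 227) (.e (nat_lit 778317) (nat_lit 3) (.e (nat_lit 57480) (nat_lit 28) (.e (nat_lit 557109) (nat_lit 15) (.e (nat_lit 188450) (nat_lit 23) (.e (nat_lit 204855) (nat_lit 26) (.e (nat_lit 336295) (nat_lit 15) .nil))))))) (.g (nat_lit 6) .nil .nil)))))) (.nd (nat_lit 3) (.nd (nat_lit 4) (.nd (nat_lit 5) 
(.lf (nat_lit 104646) (.g (nat_lit 2542) (.e (nat_lit 3632) (nat_lit 227) (.e (nat_lit 778317) (nat_lit 3) (.e (nat_lit 57480) (nat_lit 28) (.e (nat_lit 557107) (nat_lit 15) (.e (nat_lit 188450) (nat_lit 23) (.e (nat_lit 204851) (nat_lit 26) (.e (nat_lit 336265) (nat_lit 15) .nil))))))) (.g (nat_lit 4) .nil .nil))) 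
(.lf (nat_lit 104678) (.g (nat_lit 3649) (.e (nat_lit 3632) (nat_lit 227) (.e (nat_lit 778317) (nat_lit 3) (.e (nat_lit 57480) (nat_lit 28) (.e (nat_lit 557109) (nat_lit 15) (.e (nat_lit 188433) (nat_lit 20) (.e (nat_lit 3107) (nat_lit 193) (.e (nat_lit 500065) (nat_lit 18) (.e (nat_lit 65642) (nat_lit 15) .nil)))))))) (.g (nat_lit 5) .nil .nil)))) (.nd (nat_lit 5) 
(.lf (nat_lit 104662) (.g (nat_lit 2639) (.e (nat_lit 3632) (nat_lit 227) (.e (nat_lit 778317) (nat_lit 3) (.e (nat_lit 57480) (nat_lit 28) (.e (nat_lit 557107) (nat_lit 15) (.e (nat_lit 188450) (nat_lit 23) (.e (nat_lit 204858) (nat_lit 26) (.e (nat_lit 336292) (nat_lit 15) .nil))))))) (.g (nat_lit 4) .nil .nil))) 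
(.lf (nat_lit 104694) (.g (nat_lit 6476) (.e (nat_lit 3632) (nat_lit 227) (.e (nat_lit 778317) (nat_lit 3) (.e (nat_lit 57480) (nat_lit 28) (.e (nat_lit 557109) (nat_lit 15) (.e (nat_lit 188449) (nat_lit 22) (.e (nat_lit 196682) (nat_lit 17) (.e (nat_lit 131133) (nat_lit 15) .nil))))))) (.g (nat_lit 5) .nil .nil))))) (.nd (nat_lit 4) (.nd (nat_lit 5) 
(.lf (nat_lit 104654) (.g (nat_lit 4117) (.e (nat_lit 3632) (nat_lit 227) (.e (nat_lit 778317) (nat_lit 3) (.e (nat_lit 57480) (nat_lit 28) (.e (nat_lit 557107) (nat_lit 15) (.e (nat_lit 188450) (nat_lit 23) (.e (nat_lit 204852) (nat_lit 26) (.e (nat_lit 336297) (nat_lit 15) .nil))))))) (.g (nat_lit 6) .nil .nil))) 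
(.lf (nat_lit 104686) (.g (nat_lit 5592) (.e (nat_lit 3632) (nat_lit 227) (.e (nat_lit 778317) (nat_lit 3) (.e (nat_lit 57480) (nat_lit 28) (.e (nat_lit 557109) (nat_lit 15) (.e (nat_lit 188447) (nat_lit 22) (.e (nat_lit 196663) (nat_lit 13) (.e (nat_lit 65637) (nat_lit 15) .nil))))))) (.g (nat_lit 5) .nil .nil)))) (.nd (nat_lit 5) 
(.lf (nat_lit 104670) (.g (nat_lit 3035) (.e (nat_lit 3632) (nat_lit 227) (.e (nat_lit 778317) (nat_lit 3) (.e (nat_lit 57480) (nat_lit 28) (.e (nat_lit 557108) (nat_lit 15) (.e (nat_lit 188452) (nat_lit 23) (.e (nat_lit 204851) (nat_lit 26) (.e (nat_lit 336270) (nat_lit 15) .nil))))))) (.g (nat_lit 4) .nil .nil))) 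
(.lf (nat_lit 104702) (.g (nat_lit 4006) (.e (nat_lit 3632) (nat_lit 227) (.e (nat_lit 778317) (nat_lit 3) (.e (nat_lit 57480) (nat_lit 28) (.e (nat_lit 557109) (nat_lit 15) (.e (nat_lit 188452) (nat_lit 23) (.e (nat_lit 204851) (nat_lit 26) (.e (nat_lit 336285) (nat_lit 15) .nil))))))) (.g (nat_lit 5) .nil .nil)))))))) 
(.nd (nat_lit 1) (.nd (nat_lit 2) (.nd (nat_lit 3) (.nd (nat_lit 4) (.nd (nat_lit 5) 
(.lf (nat_lit 104641) (.g (nat_lit 2378) (.e (nat_lit 3632) (nat_lit 227) (.e (nat_lit 778317) (nat_lit 3) (.e (nat_lit 57480) (nat_lit 28) (.e (nat_lit 557098) (nat_lit 13) (.e (nat_lit 172115) (nat_lit 10) (.e (nat_lit 434231) (nat_lit 23) (.e (nat_lit 532536) (nat_lit 9) (.e (nat_lit 336294) (nat_lit 15) .nil)))))))) (.g (nat_lit 4) .nil .nil))) 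
(.lf (nat_lit 104673) (.g (nat_lit 3628) (.e (nat_lit 3632) (nat_lit 227) (.e (nat_lit 778317) (nat_lit 3) (.e (nat_lit 57480) (nat_lit 28) (.e (nat_lit 557108) (nat_lit 15) (.e (nat_lit 188452) (nat_lit 23) (.e (nat_lit 204851) (nat_lit 26) (.e (nat_lit 336301) (nat_lit 15) .nil))))))) (.g (nat_lit 5) .nil .nil)))) (.nd (nat_lit 5) 
(.lf (nat_lit 104657) (.g (nat_lit 4396) (.e (nat_lit 3632) (nat_lit 227) (.e (nat_lit 778317) (nat_lit 3) (.e (nat_lit 57480) (nat_lit 28) (.e (nat_lit 557107) (nat_lit 15) (.e (nat_lit 188450) (nat_lit 23) (.e (nat_lit 204855) (nat_lit 26) (.e (nat_lit 336291) (nat_lit 15) .nil))))))) (.g (nat_lit 6) .nil .nil))) 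
(.lf (nat_lit 104689) (.g (nat_lit 5565) (.e (nat_lit 3632) (nat_lit 227) (.e (nat_lit 778317) (nat_lit 3) (.e (nat_lit 57480) (nat_lit 28) (.e (nat_lit 557109) (nat_lit 15) (.e (nat_lit 188449) (nat_lit 22) (.e (nat_lit 196663) (nat_lit 13) (.e (nat_lit 65642) (nat_lit 15) .nil))))))) (.g (nat_lit 5) .nil .nil))))) (.nd (nat_lit 4) (.nd (nat_lit 5) 
(.lf (nat_lit 104649) (.g (nat_lit 2219) (.e (nat_lit 3632) (nat_lit 227) (.e (nat_lit 778317) (nat_lit 3) (.e (nat_lit 57480) (nat_lit 28) (.e (nat_lit 557107) (nat_lit 15) (.e (nat_lit 188450) (nat_lit 23) (.e (nat_lit 204851) (nat_lit 26) (.e (nat_lit 336286) (nat_lit 15) .nil))))))) (.g (nat_lit 4) .nil .nil))) 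
(.lf (nat_lit 104681) (.g (nat_lit 4029) (.e (nat_lit 3632) (nat_lit 227) (.e (nat_lit 778317) (nat_lit 3) (.e (nat_lit 57480) (nat_lit 28) (.e (nat_lit 557109) (nat_lit 15) (.e (nat_lit 188434) (nat_lit 20) (.e (nat_lit 3107) (nat_lit 193) (.e (nat_lit 500062) (nat_lit 18) (.e (nat_lit 65637) (nat_lit 15) .nil)))))))) (.g (nat_lit 4) .nil .nil)))) (.nd (nat_lit 5) 
(.lf (nat_lit 104665) (.g (nat_lit 3338) (.e (nat_lit 3632) (nat_lit 227) (.e (nat_lit 778317) (nat_lit 3) (.e (nat_lit 57480) (nat_lit 28) (.e (nat_lit 557107) (nat_lit 15) (.e (nat_lit 188450) (nat_lit 23) (.e (nat_lit 204861) (nat_lit 26) (.e (nat_lit 336293) (nat_lit 15) .nil))))))) (.g (nat_lit 5) .nil .nil))) 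
(.lf (nat_lit 104697) (.g (nat_lit 4333) (.e (nat_lit 3632) (nat_lit 227) (.e (nat_lit 778317) (nat_lit 3) (.e (nat_lit 57480) (nat_lit 28) (.e (nat_lit 557109) (nat_lit 15) (.e (nat_lit 188450) (nat_lit 23) (.e (nat_lit 204855) (nat_lit 26) (.e (nat_lit 336291) (nat_lit 15) .nil))))))) (.g (nat_lit 5) .nil .nil)))))) (.nd (nat_lit 3) (.nd (nat_lit 4) (.nd (nat_lit 5) 
(.lf (nat_lit 104645) (.g (nat_lit 3417) (.e (nat_lit 3632) (nat_lit 227) (.e (nat_lit 778317) (nat_lit 3) (.e (nat_lit 57480) (nat_lit 28) (.e (nat_lit 557107) (nat_lit 15) (.e (nat_lit 188450) (nat_lit 23) (.e (nat_lit 204851) (nat_lit 26) (.e (nat_lit 336263) (nat_lit 15) .nil))))))) (.g (nat_lit 5) .nil .nil))) 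
(.lf (nat_lit 104677) (.g (nat_lit 2906) (.e (nat_lit 3632) (nat_lit 227) (.e (nat_lit 778317) (nat_lit 3) (.e (nat_lit 57480) (nat_lit 28) (.e (nat_lit 557109) (nat_lit 15) (.e (nat_lit 188425) (nat_lit 20) .nil))))) .nil))) (.nd (nat_lit 5) 
(.lf (nat_lit 104661) (.g (nat_lit 2470) (.e (nat_lit 3632) (nat_lit 227) (.e (nat_lit 778317) (nat_lit 3) (.e (nat_lit 57480) (nat_lit 28) (.e (nat_lit 557107) (nat_lit 15) (.e (nat_lit 188450) (nat_lit 23) (.e (nat_lit 204858) (nat_lit 26) (.e (nat_lit 336291) (nat_lit 15) .nil))))))) (.g (nat_lit 4) .nil .nil))) 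
(.lf (nat_lit 104693) (.g (nat_lit 6272) (.e (nat_lit 3632) (nat_lit 227) (.e (nat_lit 778317) (nat_lit 3) (.e (nat_lit 57480) (nat_lit 28) (.e (nat_lit 557109) (nat_lit 15) (.e (nat_lit 188449) (nat_lit 22) (.e (nat_lit 196680) (nat_lit 17) (.e (nat_lit 131133) (nat_lit 15) .nil))))))) (.g (nat_lit 5) .nil .nil))))) (.nd (nat_lit 4) (.nd (nat_lit 5) 
(.lf (nat_lit 104653) (.g (nat_lit 4223) (.e (nat_lit 3632) (nat_lit 227) (.e (nat_lit 778317) (nat_lit 3) (.e (nat_lit 57480) (nat_lit 28) (.e (nat_lit 557107) (nat_lit 15) (.e (nat_lit 188450) (nat_lit 23) (.e (nat_lit 204852) (nat_lit 26) (.e (nat_lit 336285) (nat_lit 15) .nil))))))) (.g (nat_lit 6) .nil .nil))) 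
(.lf (nat_lit 104685) (.g (nat_lit 2493) (.e (nat_lit 3632) (nat_lit 227) (.e (nat_lit 778317) (nat_lit 3) (.e (nat_lit 57480) (nat_lit 28) (.e (nat_lit 557109) (nat_lit 15) (.e (nat_lit 188447) (nat_lit 22) .nil))))) .nil))) (.nd (nat_lit 5) 
(.lf (nat_lit 104669) (.g (nat_lit 4196) (.e (nat_lit 3632) (nat_lit 227) (.e (nat_lit 778317) (nat_lit 3) (.e (nat_lit 57480) (nat_lit 28) (.e (nat_lit 557108) (nat_lit 15) (.e (nat_lit 188452) (nat_lit 23) (.e (nat_lit 204851) (nat_lit 26) (.e (nat_lit 336263) (nat_lit 15) .nil))))))) (.g (nat_lit 5) .nil .nil))) 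
(.lf (nat_lit 104701) (.g (nat_lit 3763) (.e (nat_lit 3632) (nat_lit 227) (.e (nat_lit 778317) (nat_lit 3) (.e (nat_lit 57480) (nat_lit 28) (.e (nat_lit 557109) (nat_lit 15) (.e (nat_lit 188452) (nat_lit 23) (.e (nat_lit 204851) (nat_lit 26) (.e (nat_lit 336265) (nat_lit 15) .nil))))))) (.g (nat_lit 5) .nil .nil))))))) (.nd (nat_lit 2) (.nd (nat_lit 3) (.nd (nat_lit 4) (.nd (nat_lit 5) 
(.lf (nat_lit 104643) (.g (nat_lit 4017) (.e (nat_lit 3632) (nat_lit 227) (.e (nat_lit 778317) (nat_lit 3) (.e (nat_lit 57480) (nat_lit 28) (.e (nat_lit 557107) (nat_lit 15) (.e (nat_lit 188447) (nat_lit 22) (.e (nat_lit 196666) (nat_lit 13) (.e (nat_lit 65640) (nat_lit 15) .nil))))))) (.g (nat_lit 6) .nil .nil))) 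
(.lf (nat_lit 104675) (.g (nat_lit 4390) (.e (nat_lit 3632) (nat_lit 227) (.e (nat_lit 778317) (nat_lit 3) (.e (nat_lit 57480) (nat_lit 28) (.e (nat_lit 557108) (nat_lit 15) (.e (nat_lit 188452) (nat_lit 23) (.e (nat_lit 204852) (nat_lit 26) (.e (nat_lit 336297) (nat_lit 15) .nil))))))) (.g (nat_lit 5) .nil .nil)))) (.nd (nat_lit 5) 
(.lf (nat_lit 104659) (.g (nat_lit 3188) (.e (nat_lit 3632) (nat_lit 227) (.e (nat_lit 778317) (nat_lit 3) (.e (nat_lit 57480) (nat_lit 28) (.e (nat_lit 557107) (nat_lit 15) (.e (nat_lit 188450) (nat_lit 23) (.e (nat_lit 204856) (nat_lit 26) (.e (nat_lit 336282) (nat_lit 15) .nil))))))) (.g (nat_lit 5) .nil .nil))) 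
(.lf (nat_lit 104691) (.g (nat_lit 5676) (.e (nat_lit 3632) (nat_lit 227) (.e (nat_lit 778317) (nat_lit 3) (.e (nat_lit 57480) (nat_lit 28) (.e (nat_lit 557109) (nat_lit 15) (.e (nat_lit 188449) (nat_lit 22) (.e (nat_lit 196679) (nat_lit 17) (.e (nat_lit 131133) (nat_lit 15) .nil))))))) (.g (nat_lit 5) .nil .nil))))) (.nd (nat_lit 4) (.nd (nat_lit 5) 
(.lf (nat_lit 104651) (.g (nat_lit 4636) (.e (nat_lit 3632) (nat_lit 227) (.e (nat_lit 778317) (nat_lit 3) (.e (nat_lit 57480) (nat_lit 28) (.e (nat_lit 557107) (nat_lit 15) (.e (nat_lit 188450) (nat_lit 23) (.e (nat_lit 204852) (nat_lit 26) (.e (nat_lit 336262) (nat_lit 15) .nil))))))) (.g (nat_lit 6) .nil .nil))) 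
(.lf (nat_lit 104683) (.g (nat_lit 2856) (.e (nat_lit 3632) (nat_lit 227) (.e (nat_lit 778317) (nat_lit 3) (.e (nat_lit 57480) (nat_lit 28) (.e (nat_lit 557109) (nat_lit 15) (.e (nat_lit 188441) (nat_lit 20) .nil))))) .nil))) (.nd (nat_lit 5) 
(.lf (nat_lit 104667) (.g (nat_lit 3208) (.e (nat_lit 3632) (nat_lit 227) (.e (nat_lit 778317) (nat_lit 3) (.e (nat_lit 57480) (nat_lit 28) (.e (nat_lit 557107) (nat_lit 15) (.e (nat_lit 188456) (nat_lit 25) (.e (nat_lit 245790) (nat_lit 13) (.e (nat_lit 65637) (nat_lit 15) .nil))))))) (.g (nat_lit 4) .nil .nil))) 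
(.lf (nat_lit 104699) (.g (nat_lit 4056) (.e (nat_lit 3632) (nat_lit 227) (.e (nat_lit 778317) (nat_lit 3) (.e (nat_lit 57480) (nat_lit 28) (.e (nat_lit 557109) (nat_lit 15) (.e (nat_lit 188452) (nat_lit 23) (.e (nat_lit 204851) (nat_lit 26) (.e (nat_lit 336262) (nat_lit 15) .nil))))))) (.g (nat_lit 5) .nil .nil)))))) (.nd (nat_lit 3) (.nd (nat_lit 4) (.nd (nat_lit 5) 
(.lf (nat_lit 104647) (.g (nat_lit 2271) (.e (nat_lit 3632) (nat_lit 227) (.e (nat_lit 778317) (nat_lit 3) (.e (nat_lit 57480) (nat_lit 28) (.e (nat_lit 557107) (nat_lit 15) (.e (nat_lit 188450) (nat_lit 23) (.e (nat_lit 204851) (nat_lit 26) (.e (nat_lit 336270) (nat_lit 15) .nil))))))) (.g (nat_lit 4) .nil .nil))) 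
(.lf (nat_lit 104679) (.g (nat_lit 3854) (.e (nat_lit 3632) (nat_lit 227) (.e (nat_lit 778317) (nat_lit 3) (.e (nat_lit 57480) (nat_lit 28) (.e (nat_lit 557109) (nat_lit 15) (.e (nat_lit 188433) (nat_lit 20) (.e (nat_lit 3128) (nat_lit 193) (.e (nat_lit 500065) (nat_lit 18) (.e (nat_lit 65642) (nat_lit 15) .nil)))))))) (.g (nat_lit 5) .nil .nil)))) (.nd (nat_lit 5) 
(.lf (nat_lit 104663) (.g (nat_lit 2818) (.e (nat_lit 3632) (nat_lit 227) (.e (nat_lit 778317) (nat_lit 3) (.e (nat_lit 57480) (nat_lit 28) (.e (nat_lit 557107) (nat_lit 15) (.e (nat_lit 188450) (nat_lit 23) (.e (nat_lit 204859) (nat_lit 26) (.e (nat_lit 336277) (nat_lit 15) .nil))))))) (.g (nat_lit 4) .nil .nil))) 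
(.lf (nat_lit 104695) (.g (nat_lit 2271) (.e (nat_lit 3632) (nat_lit 227) (.e (nat_lit 778317) (nat_lit 3) (.e (nat_lit 57480) (nat_lit 28) (.e (nat_lit 557109) (nat_lit 15) (.e (nat_lit 188449) (nat_lit 22) (.e (nat_lit 204544) (nat_lit 17) (.e (nat_lit 131133) (nat_lit 15) .nil))))))) (.g (nat_lit 4) .nil .nil))))) (.nd (nat_lit 4) (.nd (nat_lit 5) 
(.lf (nat_lit 104655) (.g (nat_lit 4377) (.e (nat_lit 3632) (nat_lit 227) (.e (nat_lit 778317) (nat_lit 3) (.e (nat_lit 57480) (nat_lit 28) (.e (nat_lit 557107) (nat_lit 15) (.e (nat_lit 188450) (nat_lit 23) (.e (nat_lit 204852) (nat_lit 26) (.e (nat_lit 336301) (nat_lit 15) .nil))))))) (.g (nat_lit 6) .nil .nil))) 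
(.lf (nat_lit 104687) (.g (nat_lit 5903) (.e (nat_lit 3632) (nat_lit 227) (.e (nat_lit 778317) (nat_lit 3) (.e (nat_lit 57480) (nat_lit 28) (.e (nat_lit 557109) (nat_lit 15) (.e (nat_lit 188447) (nat_lit 22) (.e (nat_lit 196664) (nat_lit 13) (.e (nat_lit 65637) (nat_lit 15) .nil))))))) (.g (nat_lit 5) .nil .nil)))) (.nd (nat_lit 5) 
(.lf (nat_lit 104671) (.g (nat_lit 3549) (.e (nat_lit 3632) (nat_lit 227) (.e (nat_lit 778317) (nat_lit 3) (.e (nat_lit 57480) (nat_lit 28) (.e (nat_lit 557108) (nat_lit 15) (.e (nat_lit 188452) (nat_lit 23) (.e (nat_lit 204851) (nat_lit 26) (.e (nat_lit 336285) (nat_lit 15) .nil))))))) (.g (nat_lit 5) .nil .nil))) 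
(.lf (nat_lit 104703) (.g (nat_lit 4108) (.e (nat_lit 3632) (nat_lit 227) (.e (nat_lit 778317) (nat_lit 3) (.e (nat_lit 57480) (nat_lit 28) (.e (nat_lit 557109) (nat_lit 15) (.e (nat_lit 188452) (nat_lit 23) (.e (nat_lit 204851) (nat_lit 26) (.e (nat_lit 336301) (nat_lit 15) .nil))))))) (.g (nat_lit 5) .nil .nil)))))))))

noncomputable def tv1431 : DT := (.nd (nat_lit 0) (.nd (nat_lit 1) (.nd (nat_lit 2) (.nd (nat_lit 3) (.nd (nat_lit 4) (.nd (nat_lit 5) 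
(.lf (nat_lit 104704) (.g (nat_lit 5659) (.e (nat_lit 3632) (nat_lit 227) (.e (nat_lit 778317) (nat_lit 3) (.e (nat_lit 57480) (nat_lit 28) (.e (nat_lit 557109) (nat_lit 15) (.e (nat_lit 188452) (nat_lit 23) (.e (nat_lit 204852) (nat_lit 26) (.e (nat_lit 336262) (nat_lit 15) .nil))))))) (.g (nat_lit 6) .nil .nil))) 
(.lf (nat_lit 104736) (.g (nat_lit 827) (.e (nat_lit 3632) (nat_lit 227) (.e (nat_lit 778320) (nat_lit 4) (.e (nat_lit 65630) (nat_lit 14) (.e (nat_lit 401457) (nat_lit 13) .nil)))) .nil))) (.nd (nat_lit 5) 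
(.lf (nat_lit 104720) (.g (nat_lit 4137) (.e (nat_lit 3632) (nat_lit 227) (.e (nat_lit 778317) (nat_lit 3) (.e (nat_lit 57480) (nat_lit 28) (.e (nat_lit 557109) (nat_lit 15) (.e (nat_lit 188457) (nat_lit 25) (.e (nat_lit 245790) (nat_lit 13) (.e (nat_lit 65637) (nat_lit 15) .nil))))))) (.g (nat_lit 4) .nil .nil))) 
(.lf (nat_lit 104752) (.g (nat_lit 2442) (.e (nat_lit 3632) (nat_lit 227) (.e (nat_lit 778320) (nat_lit 4) (.e (nat_lit 65630) (nat_lit 14) (.e (nat_lit 401459) (nat_lit 13) (.e (nat_lit 483381) (nat_lit 23) .nil))))) .nil)))) (.nd (nat_lit 4) (.nd (nat_lit 5) 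
(.lf (nat_lit 104712) (.g (nat_lit 4937) (.e (nat_lit 3632) (nat_lit 227) (.e (nat_lit 778317) (nat_lit 3) (.e (nat_lit 57480) (nat_lit 28) (.e (nat_lit 557109) (nat_lit 15) (.e (nat_lit 188452) (nat_lit 23) (.e (nat_lit 204856) (nat_lit 26) (.e (nat_lit 336292) (nat_lit 15) .nil))))))) (.g (nat_lit 6) .nil .nil))) 
(.lf (nat_lit 104744) (.g (nat_lit 3343) (.e (nat_lit 3632) (nat_lit 227) (.e (nat_lit 778320) (nat_lit 4) (.e (nat_lit 65630) (nat_lit 14) (.e (nat_lit 401459) (nat_lit 13) (.e (nat_lit 483378) (nat_lit 23) (.e (nat_lit 336282) (nat_lit 15) .nil)))))) (.g (nat_lit 5) .nil .nil)))) (.nd (nat_lit 5) 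
(.lf (nat_lit 104728) (.g (nat_lit 3480) (.e (nat_lit 3632) (nat_lit 227) (.e (nat_lit 778318) (nat_lit 3) (.e (nat_lit 57476) (nat_lit 28) (.e (nat_lit 557108) (nat_lit 15) (.e (nat_lit 188458) (nat_lit 25) (.e (nat_lit 245790) (nat_lit 13) (.e (nat_lit 65637) (nat_lit 15) .nil))))))) (.g (nat_lit 5) .nil .nil))) 
(.lf (nat_lit 104760) (.g (nat_lit 2694) (.e (nat_lit 3632) (nat_lit 227) (.e (nat_lit 778320) (nat_lit 4) (.e (nat_lit 65630) (nat_lit 14) (.e (nat_lit 401459) (nat_lit 13) (.e (nat_lit 483391) (nat_lit 23) (.e (nat_lit 336277) (nat_lit 15) .nil)))))) (.g (nat_lit 4) .nil .nil)))))) (.nd (nat_lit 3) (.nd (nat_lit 4) (.nd (nat_lit 5) 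
(.lf (nat_lit 104708) (.g (nat_lit 5436) (.e (nat_lit 3632) (nat_lit 227) (.e (nat_lit 778317) (nat_lit 3) (.e (nat_lit 57480) (nat_lit 28) (.e (nat_lit 557109) (nat_lit 15) (.e (nat_lit 188452) (nat_lit 23) (.e (nat_lit 204852) (nat_lit 26) (.e (nat_lit 336301) (nat_lit 15) .nil))))))) (.g (nat_lit 6) .nil .nil))) 
(.lf (nat_lit 104740) (.g (nat_lit 1834) (.e (nat_lit 3632) (nat_lit 227) (.e (nat_lit 778320) (nat_lit 4) (.e (nat_lit 65630) (nat_lit 14) (.e (nat_lit 401458) (nat_lit 13) (.e (nat_lit 483391) (nat_lit 23) .nil))))) .nil))) (.nd (nat_lit 5) 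
(.lf (nat_lit 104724) (.g (nat_lit 3508) (.e (nat_lit 3632) (nat_lit 227) (.e (nat_lit 778317) (nat_lit 3) (.e (nat_lit 57520) (nat_lit 44) (.e (nat_lit 688177) (nat_lit 16) (.e (nat_lit 65583) (nat_lit 7) (.e (nat_lit 319530) (nat_lit 16) (.e (nat_lit 286748) (nat_lit 9) (.e (nat_lit 336295) (nat_lit 15) .nil)))))))) (.g (nat_lit 4) .nil .nil))) 
(.lf (nat_lit 104756) (.g (nat_lit 3222) (.e (nat_lit 3632) (nat_lit 227) (.e (nat_lit 778320) (nat_lit 4) (.e (nat_lit 65630) (nat_lit 14) (.e (nat_lit 401459) (nat_lit 13) (.e (nat_lit 483381) (nat_lit 23) (.e (nat_lit 336286) (nat_lit 15) .nil)))))) (.g (nat_lit 5) .nil .nil))))) (.nd (nat_lit 4) (.nd (nat_lit 5) 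
(.lf (nat_lit 104716) (.g (nat_lit 5708) (.e (nat_lit 3632) (nat_lit 227) (.e (nat_lit 778317) (nat_lit 3) (.e (nat_lit 57480) (nat_lit 28) (.e (nat_lit 557109) (nat_lit 15) (.e (nat_lit 188452) (nat_lit 23) (.e (nat_lit 204859) (nat_lit 26) (.e (nat_lit 336300) (nat_lit 15) .nil))))))) (.g (nat_lit 0) .nil .nil))) 
(.lf (nat_lit 104748) (.g (nat_lit 4183) (.e (nat_lit 3632) (nat_lit 227) (.e (nat_lit 778320) (nat_lit 4) (.e (nat_lit 65630) (nat_lit 14) (.e (nat_lit 401459) (nat_lit 13) (.e (nat_lit 483380) (nat_lit 23) (.e (nat_lit 336264) (nat_lit 15) .nil)))))) (.g (nat_lit 5) .nil .nil)))) (.nd (nat_lit 5) 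
(.lf (nat_lit 104732) (.g (nat_lit 2431) (.e (nat_lit 3632) (nat_lit 227) (.e (nat_lit 778320) (nat_lit 4) (.e (nat_lit 65630) (nat_lit 14) (.e (nat_lit 401436) (nat_lit 9) (.e (nat_lit 426542) (nat_lit 29) (.e (nat_lit 352267) (nat_lit 0) .nil)))))) (.g (nat_lit 5) .nil .nil))) 
(.lf (nat_lit 104764) (.g (nat_lit 273) (.e (nat_lit 3632) (nat_lit 227) (.e (nat_lit 778323) (nat_lit 5) (.e (nat_lit 81664) (nat_lit 36) .nil))) .nil)))))) (.nd (nat_lit 2) (.nd (nat_lit 3) (.nd (nat_lit 4) (.nd (nat_lit 5) 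
(.lf (nat_lit 104706) (.g (nat_lit 5239) (.e (nat_lit 3632) (nat_lit 227) (.e (nat_lit 778317) (nat_lit 3) (.e (nat_lit 57480) (nat_lit 28) (.e (nat_lit 557109) (nat_lit 15) (.e (nat_lit 188452) (nat_lit 23) (.e (nat_lit 204852) (nat_lit 26) (.e (nat_lit 336285) (nat_lit 15) .nil))))))) (.g (nat_lit 6) .nil .nil))) 
(.lf (nat_lit 104738) (.g (nat_lit 1486) (.e (nat_lit 3632) (nat_lit 227) (.e (nat_lit 778320) (nat_lit 4) (.e (nat_lit 65630) (nat_lit 14) (.e (nat_lit 401457) (nat_lit 13) (.e (nat_lit 491264) (nat_lit 23) .nil))))) .nil))) (.nd (nat_lit 5) 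
(.lf (nat_lit 104722) (.g (nat_lit 3920) (.e (nat_lit 3632) (nat_lit 227) (.e (nat_lit 778317) (nat_lit 3) (.e (nat_lit 57480) (nat_lit 28) (.e (nat_lit 557109) (nat_lit 15) (.e (nat_lit 188458) (nat_lit 25) (.e (nat_lit 245794) (nat_lit 17) (.e (nat_lit 131133) (nat_lit 15) .nil))))))) (.g (nat_lit 5) .nil .nil))) 
(.lf (nat_lit 104754) (.g (nat_lit 3345) (.e (nat_lit 3632) (nat_lit 227) (.e (nat_lit 778320) (nat_lit 4) (.e (nat_lit 65630) (nat_lit 14) (.e (nat_lit 401459) (nat_lit 13) (.e (nat_lit 483381) (nat_lit 23) (.e (nat_lit 336270) (nat_lit 15) .nil)))))) (.g (nat_lit 6) .nil .nil))))) (.nd (nat_lit 4) (.nd (nat_lit 5) 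
(.lf (nat_lit 104714) (.g (nat_lit 5411) (.e (nat_lit 3632) (nat_lit 227) (.e (nat_lit 778317) (nat_lit 3) (.e (nat_lit 57480) (nat_lit 28) (.e (nat_lit 557109) (nat_lit 15) (.e (nat_lit 188452) (nat_lit 23) (.e (nat_lit 204858) (nat_lit 26) (.e (nat_lit 336291) (nat_lit 15) .nil))))))) (.g (nat_lit 5) .nil .nil))) 
(.lf (nat_lit 104746) (.g (nat_lit 2586) (.e (nat_lit 3632) (nat_lit 227) (.e (nat_lit 778320) (nat_lit 4) (.e (nat_lit 65630) (nat_lit 14) (.e (nat_lit 401459) (nat_lit 13) (.e (nat_lit 483379) (nat_lit 23) (.e (nat_lit 336270) (nat_lit 15) .nil)))))) (.g (nat_lit 4) .nil .nil)))) (.nd (nat_lit 5) 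
(.lf (nat_lit 104730) (.g (nat_lit 2070) (.e (nat_lit 3632) (nat_lit 227) (.e (nat_lit 778320) (nat_lit 4) (.e (nat_lit 65624) (nat_lit 12) (.e (nat_lit 385105) (nat_lit 50) (.e (nat_lit 786480) (nat_lit 29) .nil))))) .nil)) 
(.lf (nat_lit 104762) (.g (nat_lit 2288) (.e (nat_lit 3632) (nat_lit 227) (.e (nat_lit 778320) (nat_lit 4) (.e (nat_lit 65630) (nat_lit 14) (.e (nat_lit 401459) (nat_lit 13) (.e (nat_lit 491264) (nat_lit 23) .nil))))) .nil))))) (.nd (nat_lit 3) (.nd (nat_lit 4) (.nd (nat_lit 5) 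
(.lf (nat_lit 104710) (.g (nat_lit 4859) (.e (nat_lit 3632) (nat_lit 227) (.e (nat_lit 778317) (nat_lit 3) (.e (nat_lit 57480) (nat_lit 28) (.e (nat_lit 557109) (nat_lit 15) (.e (nat_lit 188452) (nat_lit 23) (.e (nat_lit 204855) (nat_lit 26) (.e (nat_lit 336291) (nat_lit 15) .nil))))))) (.g (nat_lit 6) .nil .nil))) 
(.lf (nat_lit 104742) (.g (nat_lit 3898) (.e (nat_lit 3632) (nat_lit 227) (.e (nat_lit 778320) (nat_lit 4) (.e (nat_lit 65630) (nat_lit 14) (.e (nat_lit 401459) (nat_lit 13) (.e (nat_lit 483344) (nat_lit 17) (.e (nat_lit 6449) (nat_lit 343) (.e (nat_lit 46) (nat_lit 0) .nil))))))) (.g (nat_lit 5) .nil .nil)))) (.nd (nat_lit 5) 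
(.lf (nat_lit 104726) (.g (nat_lit 3553) (.e (nat_lit 3632) (nat_lit 227) (.e (nat_lit 778318) (nat_lit 3) (.e (nat_lit 57476) (nat_lit 28) (.e (nat_lit 557097) (nat_lit 13) (.e (nat_lit 172115) (nat_lit 10) (.e (nat_lit 434219) (nat_lit 19) (.e (nat_lit 500059) (nat_lit 18) (.e (nat_lit 65637) (nat_lit 15) .nil)))))))) (.g (nat_lit 5) .nil .nil))) 
(.lf (nat_lit 104758) (.g (nat_lit 2660) (.e (nat_lit 3632) (nat_lit 227) (.e (nat_lit 778320) (nat_lit 4) (.e (nat_lit 65630) (nat_lit 14) (.e (nat_lit 401459) (nat_lit 13) (.e (nat_lit 483387) (nat_lit 23) .nil))))) .nil)))) (.nd (nat_lit 4) (.nd (nat_lit 5) 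
(.lf (nat_lit 104718) (.g (nat_lit 4260) (.e (nat_lit 3632) (nat_lit 227) (.e (nat_lit 778317) (nat_lit 3) (.e (nat_lit 57480) (nat_lit 28) (.e (nat_lit 557109) (nat_lit 15) (.e (nat_lit 188452) (nat_lit 23) (.e (nat_lit 212736) (nat_lit 26) (.e (nat_lit 336277) (nat_lit 15) .nil))))))) (.g (nat_lit 5) .nil .nil))) 
(.lf (nat_lit 104750) (.g (nat_lit 3613) (.e (nat_lit 3632) (nat_lit 227) (.e (nat_lit 778320) (nat_lit 4) (.e (nat_lit 65630) (nat_lit 14) (.e (nat_lit 401459) (nat_lit 13) (.e (nat_lit 483380) (nat_lit 23) (.e (nat_lit 336297) (nat_lit 15) .nil)))))) (.g (nat_lit 5) .nil .nil)))) (.nd (nat_lit 5) 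
(.lf (nat_lit 104734) (.g (nat_lit 2156) (.e (nat_lit 3632) (nat_lit 227) (.e (nat_lit 778320) (nat_lit 4) (.e (nat_lit 65630) (nat_lit 14) (.e (nat_lit 401438) (nat_lit 9) (.e (nat_lit 426553) (nat_lit 32) .nil))))) .nil)) 
(.lf (nat_lit 104766) (.g (nat_lit 586) (.e (nat_lit 3632) (nat_lit 227) (.e (nat_lit 778323) (nat_lit 5) (.e (nat_lit 73791) (nat_lit 45) .nil))) .nil))))))) (.nd (nat_lit 1) (.nd (nat_lit 2) (.nd (nat_lit 3) (.nd (nat_lit 4) (.nd (nat_lit 5) 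
(.lf (nat_lit 104705) (.g (nat_lit 5571) (.e (nat_lit 3632) (nat_lit 227) (.e (nat_lit 778317) (nat_lit 3) (.e (nat_lit 57480) (nat_lit 28) (.e (nat_lit 557109) (nat_lit 15) (.e (nat_lit 188452) (nat_lit 23) (.e (nat_lit 204852) (nat_lit 26) (.e (nat_lit 336263) (nat_lit 15) .nil))))))) (.g (nat_lit 6) .nil .nil))) 
(.lf (nat_lit 104737) (.g (nat_lit 2259) (.e (nat_lit 3632) (nat_lit 227) (.e (nat_lit 778320) (nat_lit 4) (.e (nat_lit 65630) (nat_lit 14) (.e (nat_lit 401457) (nat_lit 13) (.e (nat_lit 483391) (nat_lit 23) (.e (nat_lit 336300) (nat_lit 15) .nil)))))) (.g (nat_lit 4) .nil .nil)))) (.nd (nat_lit 5) 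
(.lf (nat_lit 104721) (.g (nat_lit 4472) (.e (nat_lit 3632) (nat_lit 227) (.e (nat_lit 778317) (nat_lit 3) (.e (nat_lit 57480) (nat_lit 28) (.e (nat_lit 557109) (nat_lit 15) (.e (nat_lit 188458) (nat_lit 25) (.e (nat_lit 245790) (nat_lit 13) (.e (nat_lit 65642) (nat_lit 15) .nil))))))) (.g (nat_lit 6) .nil .nil))) 
(.lf (nat_lit 104753) (.g (nat_lit 2564) (.e (nat_lit 3632) (nat_lit 227) (.e (nat_lit 778320) (nat_lit 4) (.e (nat_lit 65630) (nat_lit 14) (.e (nat_lit 401459) (nat_lit 13) (.e (nat_lit 483381) (nat_lit 23) (.e (nat_lit 336263) (nat_lit 15) .nil)))))) (.g (nat_lit 4) .nil .nil))))) (.nd (nat_lit 4) (.nd (nat_lit 5) 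
(.lf (nat_lit 104713) (.g (nat_lit 5035) (.e (nat_lit 3632) (nat_lit 227) (.e (nat_lit 778317) (nat_lit 3) (.e (nat_lit 57480) (nat_lit 28) (.e (nat_lit 557109) (nat_lit 15) (.e (nat_lit 188452) (nat_lit 23) (.e (nat_lit 204857) (nat_lit 26) (.e (nat_lit 336295) (nat_lit 15) .nil))))))) (.g (nat_lit 5) .nil .nil))) 
(.lf (nat_lit 104745) (.g (nat_lit 2397) (.e (nat_lit 3632) (nat_lit 227) (.e (nat_lit 778320) (nat_lit 4) (.e (nat_lit 65630) (nat_lit 14) (.e (nat_lit 401459) (nat_lit 13) (.e (nat_lit 483379) (nat_lit 23) .nil))))) .nil))) (.nd (nat_lit 5) 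
(.lf (nat_lit 104729) (.g (nat_lit 2185) (.e (nat_lit 3632) (nat_lit 227) (.e (nat_lit 778320) (nat_lit 4) (.e (nat_lit 65624) (nat_lit 12) (.e (nat_lit 385105) (nat_lit 50) (.e (nat_lit 786478) (nat_lit 29) .nil))))) .nil)) 
(.lf (nat_lit 104761) (.g (nat_lit 3124) (.e (nat_lit 3632) (nat_lit 227) (.e (nat_lit 778320) (nat_lit 4) (.e (nat_lit 65630) (nat_lit 14) (.e (nat_lit 401459) (nat_lit 13) (.e (nat_lit 483393) (nat_lit 23) (.e (nat_lit 336293) (nat_lit 15) .nil)))))) (.g (nat_lit 4) .nil .nil)))))) (.nd (nat_lit 3) (.nd (nat_lit 4) (.nd (nat_lit 5) 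
(.lf (nat_lit 104709) (.g (nat_lit 5788) (.e (nat_lit 3632) (nat_lit 227) (.e (nat_lit 778317) (nat_lit 3) (.e (nat_lit 57480) (nat_lit 28) (.e (nat_lit 557109) (nat_lit 15) (.e (nat_lit 188452) (nat_lit 23) (.e (nat_lit 204855) (nat_lit 26) (.e (nat_lit 336282) (nat_lit 15) .nil))))))) (.g (nat_lit 0) .nil .nil))) 
(.lf (nat_lit 104741) (.g (nat_lit 2315) (.e (nat_lit 3632) (nat_lit 227) (.e (nat_lit 778320) (nat_lit 4) (.e (nat_lit 65630) (nat_lit 14) (.e (nat_lit 401459) (nat_lit 13) (.e (nat_lit 483344) (nat_lit 17) .nil))))) .nil))) (.nd (nat_lit 5) 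
(.lf (nat_lit 104725) (.g (nat_lit 3957) (.e (nat_lit 3632) (nat_lit 227) (.e (nat_lit 778317) (nat_lit 3) (.e (nat_lit 57520) (nat_lit 44) (.e (nat_lit 688177) (nat_lit 16) (.e (nat_lit 65586) (nat_lit 7) (.e (nat_lit 319531) (nat_lit 16) (.e (nat_lit 286748) (nat_lit 9) (.e (nat_lit 336295) (nat_lit 15) .nil)))))))) (.g (nat_lit 5) .nil .nil))) 
(.lf (nat_lit 104757) (.g (nat_lit 2291) (.e (nat_lit 3632) (nat_lit 227) (.e (nat_lit 778320) (nat_lit 4) (.e (nat_lit 65630) (nat_lit 14) (.e (nat_lit 401459) (nat_lit 13) (.e (nat_lit 483386) (nat_lit 23) (.e (nat_lit 336291) (nat_lit 15) .nil)))))) (.g (nat_lit 5) .nil .nil))))) (.nd (nat_lit 4) (.nd (nat_lit 5) 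
(.lf (nat_lit 104717) (.g (nat_lit 6105) (.e (nat_lit 3632) (nat_lit 227) (.e (nat_lit 778317) (nat_lit 3) (.e (nat_lit 57480) (nat_lit 28) (.e (nat_lit 557109) (nat_lit 15) (.e (nat_lit 188452) (nat_lit 23) (.e (nat_lit 204861) (nat_lit 26) (.e (nat_lit 336293) (nat_lit 15) .nil))))))) (.g (nat_lit 5) .nil .nil))) 
(.lf (nat_lit 104749) (.g (nat_lit 4129) (.e (nat_lit 3632) (nat_lit 227) (.e (nat_lit 778320) (nat_lit 4) (.e (nat_lit 65630) (nat_lit 14) (.e (nat_lit 401459) (nat_lit 13) (.e (nat_lit 483380) (nat_lit 23) (.e (nat_lit 336283) (nat_lit 15) .nil)))))) (.g (nat_lit 5) .nil .nil)))) (.nd (nat_lit 5) 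
(.lf (nat_lit 104733) (.g (nat_lit 3095) (.e (nat_lit 3632) (nat_lit 227) (.e (nat_lit 778320) (nat_lit 4) (.e (nat_lit 65630) (nat_lit 14) (.e (nat_lit 401438) (nat_lit 9) (.e (nat_lit 426542) (nat_lit 29) (.e (nat_lit 352265) (nat_lit 0) .nil)))))) (.g (nat_lit 5) .nil .nil))) 
(.lf (nat_lit 104765) (.g (nat_lit 1689) (.e (nat_lit 3632) (nat_lit 227) (.e (nat_lit 778323) (nat_lit 5) (.e (nat_lit 81664) (nat_lit 38) (.e (nat_lit 229433) (nat_lit 25) (.e (nat_lit 532515) (nat_lit 3) (.e (nat_lit 114723) (nat_lit 24) (.e (nat_lit 106512) (nat_lit 9) (.e (nat_lit 52) (nat_lit 0) .nil)))))))) (.g (nat_lit 5) .nil .nil))))))) 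
(.nd (nat_lit 2) (.nd (nat_lit 3) (.nd (nat_lit 4) (.nd (nat_lit 5) 
(.lf (nat_lit 104707) (.g (nat_lit 5081) (.e (nat_lit 3632) (nat_lit 227) (.e (nat_lit 778317) (nat_lit 3) (.e (nat_lit 57480) (nat_lit 28) (.e (nat_lit 557109) (nat_lit 15) (.e (nat_lit 188452) (nat_lit 23) (.e (nat_lit 204852) (nat_lit 26) (.e (nat_lit 336297) (nat_lit 15) .nil))))))) (.g (nat_lit 6) .nil .nil))) 
(.lf (nat_lit 104739) (.g (nat_lit 972) (.e (nat_lit 3632) (nat_lit 227) (.e (nat_lit 778320) (nat_lit 4) (.e (nat_lit 65630) (nat_lit 14) (.e (nat_lit 401458) (nat_lit 13) .nil)))) .nil))) (.nd (nat_lit 5) 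
(.lf (nat_lit 104723) (.g (nat_lit 3661) (.e (nat_lit 3632) (nat_lit 227) (.e (nat_lit 778317) (nat_lit 3) (.e (nat_lit 57480) (nat_lit 28) (.e (nat_lit 557109) (nat_lit 15) (.e (nat_lit 188458) (nat_lit 25) (.e (nat_lit 245794) (nat_lit 17) (.e (nat_lit 131135) (nat_lit 15) .nil))))))) (.g (nat_lit 5) .nil .nil))) 
(.lf (nat_lit 104755) (.g (nat_lit 2535) (.e (nat_lit 3632) (nat_lit 227) (.e (nat_lit 778320) (nat_lit 4) (.e (nat_lit 65630) (nat_lit 14) (.e (nat_lit 401459) (nat_lit 13) (.e (nat_lit 483381) (nat_lit 23) (.e (nat_lit 336283) (nat_lit 15) .nil)))))) (.g (nat_lit 4) .nil .nil))))) (.nd (nat_lit 4) (.nd (nat_lit 5) 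
(.lf (nat_lit 104715) (.g (nat_lit 5555) (.e (nat_lit 3632) (nat_lit 227) (.e (nat_lit 778317) (nat_lit 3) (.e (nat_lit 57480) (nat_lit 28) (.e (nat_lit 557109) (nat_lit 15) (.e (nat_lit 188452) (nat_lit 23) (.e (nat_lit 204858) (nat_lit 26) (.e (nat_lit 336292) (nat_lit 15) .nil))))))) (.g (nat_lit 5) .nil .nil))) 
(.lf (nat_lit 104747) (.g (nat_lit 2762) (.e (nat_lit 3632) (nat_lit 227) (.e (nat_lit 778320) (nat_lit 4) (.e (nat_lit 65630) (nat_lit 14) (.e (nat_lit 401459) (nat_lit 13) (.e (nat_lit 483380) (nat_lit 23) (.e (nat_lit 336263) (nat_lit 15) .nil)))))) (.g (nat_lit 4) .nil .nil)))) (.nd (nat_lit 5) 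
(.lf (nat_lit 104731) (.g (nat_lit 1135) (.e (nat_lit 3632) (nat_lit 227) (.e (nat_lit 778320) (nat_lit 4) (.e (nat_lit 65630) (nat_lit 14) (.e (nat_lit 401436) (nat_lit 9) .nil)))) .nil)) 
(.lf (nat_lit 104763) (.g (nat_lit 1543) (.e (nat_lit 3632) (nat_lit 227) (.e (nat_lit 778321) (nat_lit 4) (.e (nat_lit 65623) (nat_lit 12) (.e (nat_lit 385094) (nat_lit 49) (.e (nat_lit 778326) (nat_lit 6) (.e (nat_lit 81922) (nat_lit 0) .nil)))))) (.g (nat_lit 4) .nil .nil)))))) (.nd (nat_lit 3) (.nd (nat_lit 4) (.nd (nat_lit 5) 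
(.lf (nat_lit 104711) (.g (nat_lit 4815) (.e (nat_lit 3632) (nat_lit 227) (.e (nat_lit 778317) (nat_lit 3) (.e (nat_lit 57480) (nat_lit 28) (.e (nat_lit 557109) (nat_lit 15) (.e (nat_lit 188452) (nat_lit 23) (.e (nat_lit 204856) (nat_lit 26) (.e (nat_lit 336291) (nat_lit 15) .nil))))))) (.g (nat_lit 6) .nil .nil))) 
(.lf (nat_lit 104743) (.g (nat_lit 2729) (.e (nat_lit 3632) (nat_lit 227) (.e (nat_lit 778320) (nat_lit 4) (.e (nat_lit 65630) (nat_lit 14) (.e (nat_lit 401459) (nat_lit 13) (.e (nat_lit 483347) (nat_lit 17) (.e (nat_lit 6497) (nat_lit 343) (.e (nat_lit 46) (nat_lit 0) .nil))))))) (.g (nat_lit 4) .nil .nil)))) (.nd (nat_lit 5) 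
(.lf (nat_lit 104727) (.g (nat_lit 4244) (.e (nat_lit 3632) (nat_lit 227) (.e (nat_lit 778318) (nat_lit 3) (.e (nat_lit 57476) (nat_lit 28) (.e (nat_lit 557097) (nat_lit 13) (.e (nat_lit 172115) (nat_lit 10) (.e (nat_lit 434219) (nat_lit 19) (.e (nat_lit 500062) (nat_lit 18) (.e (nat_lit 65637) (nat_lit 15) .nil)))))))) (.g (nat_lit 6) .nil .nil))) 
(.lf (nat_lit 104759) (.g (nat_lit 3411) (.e (nat_lit 3632) (nat_lit 227) (.e (nat_lit 778320) (nat_lit 4) (.e (nat_lit 65630) (nat_lit 14) (.e (nat_lit 401459) (nat_lit 13) (.e (nat_lit 483388) (nat_lit 23) (.e (nat_lit 336295) (nat_lit 15) .nil)))))) (.g (nat_lit 4) .nil .nil))))) (.nd (nat_lit 4) (.nd (nat_lit 5) 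
(.lf (nat_lit 104719) (.g (nat_lit 3157) (.e (nat_lit 3632) (nat_lit 227) (.e (nat_lit 778317) (nat_lit 3) (.e (nat_lit 57480) (nat_lit 28) (.e (nat_lit 557109) (nat_lit 15) (.e (nat_lit 188457) (nat_lit 25) .nil))))) .nil)) 
(.lf (nat_lit 104751) (.g (nat_lit 2705) (.e (nat_lit 3632) (nat_lit 227) (.e (nat_lit 778320) (nat_lit 4) (.e (nat_lit 65630) (nat_lit 14) (.e (nat_lit 401459) (nat_lit 13) (.e (nat_lit 483380) (nat_lit 23) (.e (nat_lit 336301) (nat_lit 15) .nil)))))) (.g (nat_lit 4) .nil .nil)))) (.nd (nat_lit 5) 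
(.lf (nat_lit 104735) (.g (nat_lit 2156) (.e (nat_lit 3632) (nat_lit 227) (.e (nat_lit 778320) (nat_lit 4) (.e (nat_lit 65630) (nat_lit 14) (.e (nat_lit 401438) (nat_lit 9) (.e (nat_lit 426556) (nat_lit 32) .nil))))) .nil)) 
(.lf (nat_lit 104767) (.g (nat_lit 150) (.e (nat_lit 3632) (nat_lit 227) (.e (nat_lit 778324) (nat_lit 5) (.e (nat_lit 73781) (nat_lit 32) .nil))) .nil))))))))

noncomputable def tv1432 : DT := (.nd (nat_lit 0) (.nd (nat_lit 1) (.nd (nat_lit 2) (.nd (nat_lit 3) (.nd (nat_lit 4) (.nd (nat_lit 5) 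
(.lf (nat_lit 104768) (.g (nat_lit 1880) (.e (nat_lit 3632) (nat_lit 227) (.e (nat_lit 778324) (nat_lit 5) (.e (nat_lit 73781) (nat_lit 32) (.e (nat_lit 2856) (nat_lit 184) (.e (nat_lit 426556) (nat_lit 32) (.e (nat_lit 376835) (nat_lit 0) .nil)))))) (.g (nat_lit 4) .nil .nil))) 
(.lf (nat_lit 104800) (.g (nat_lit 2128) (.e (nat_lit 3649) (nat_lit 227) (.e (nat_lit 778462) (nat_lit 11) (.e (nat_lit 24608) (nat_lit 3) (.e (nat_lit 98365) (nat_lit 26) (.e (nat_lit 426187) (nat_lit 9) .nil))))) .nil))) (.nd (nat_lit 5) 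
(.lf (nat_lit 104784) (.g (nat_lit 3035) (.e (nat_lit 3632) (nat_lit 227) (.e (nat_lit 778327) (nat_lit 6) (.e (nat_lit 81957) (nat_lit 24) (.e (nat_lit 123182) (nat_lit 264) (.e (nat_lit 1224) (nat_lit 90) (.e (nat_lit 81922) (nat_lit 0) .nil)))))) (.g (nat_lit 5) .nil .nil))) 
(.lf (nat_lit 104816) (.g (nat_lit 2196) (.e (nat_lit 3663) (nat_lit 227) (.e (nat_lit 778462) (nat_lit 11) (.e (nat_lit 24608) (nat_lit 3) (.e (nat_lit 98365) (nat_lit 26) (.e (nat_lit 426188) (nat_lit 9) .nil))))) .nil)))) (.nd (nat_lit 4) (.nd (nat_lit 5) 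
(.lf (nat_lit 104776) (.g (nat_lit 2294) (.e (nat_lit 3632) (nat_lit 227) (.e (nat_lit 778326) (nat_lit 6) (.e (nat_lit 81950) (nat_lit 21) (.e (nat_lit 57872) (nat_lit 264) (.e (nat_lit 1221) (nat_lit 90) (.e (nat_lit 81923) (nat_lit 0) .nil)))))) (.g (nat_lit 5) .nil .nil))) 
(.lf (nat_lit 104808) (.g (nat_lit 1566) (.e (nat_lit 3651) (nat_lit 227) (.e (nat_lit 778468) (nat_lit 11) (.e (nat_lit 24608) (nat_lit 3) (.e (nat_lit 98365) (nat_lit 26) (.e (nat_lit 426188) (nat_lit 9) .nil))))) .nil))) (.nd (nat_lit 5) 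
(.lf (nat_lit 104792) (.g (nat_lit 1952) (.e (nat_lit 3634) (nat_lit 227) (.e (nat_lit 778470) (nat_lit 11) (.e (nat_lit 24628) (nat_lit 9) (.e (nat_lit 336443) (nat_lit 32) (.e (nat_lit 466969) (nat_lit 21) .nil))))) .nil)) 
(.lf (nat_lit 104824) (.g (nat_lit 1490) (.e (nat_lit 3687) (nat_lit 227) (.e (nat_lit 778465) (nat_lit 11) (.e (nat_lit 24604) (nat_lit 2) (.e (nat_lit 90185) (nat_lit 17) .nil)))) .nil))))) (.nd (nat_lit 3) (.nd (nat_lit 4) (.nd (nat_lit 5) 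
(.lf (nat_lit 104772) (.g (nat_lit 2346) (.e (nat_lit 3632) (nat_lit 227) (.e (nat_lit 778326) (nat_lit 6) (.e (nat_lit 81948) (nat_lit 21) (.e (nat_lit 57872) (nat_lit 264) (.e (nat_lit 1219) (nat_lit 90) (.e (nat_lit 81922) (nat_lit 0) .nil)))))) (.g (nat_lit 5) .nil .nil))) 
(.lf (nat_lit 104804) (.g (nat_lit 2086) (.e (nat_lit 3651) (nat_lit 227) (.e (nat_lit 778460) (nat_lit 11) (.e (nat_lit 24604) (nat_lit 2) (.e (nat_lit 90185) (nat_lit 17) (.e (nat_lit 237601) (nat_lit 9) .nil))))) .nil))) (.nd (nat_lit 5) 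
(.lf (nat_lit 104788) (.g (nat_lit 3393) (.e (nat_lit 3634) (nat_lit 227) (.e (nat_lit 778320) (nat_lit 4) (.e (nat_lit 65630) (nat_lit 14) (.e (nat_lit 401459) (nat_lit 13) (.e (nat_lit 483380) (nat_lit 23) (.e (nat_lit 336261) (nat_lit 15) .nil)))))) (.g (nat_lit 0) .nil .nil))) 
(.lf (nat_lit 104820) (.g (nat_lit 1663) (.e (nat_lit 3681) (nat_lit 227) (.e (nat_lit 778362) (nat_lit 9) (.e (nat_lit 232) (nat_lit 21) (.e (nat_lit 336060) (nat_lit 7) .nil)))) .nil)))) (.nd (nat_lit 4) (.nd (nat_lit 5) 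
(.lf (nat_lit 104780) (.g (nat_lit 1764) (.e (nat_lit 3632) (nat_lit 227) (.e (nat_lit 778327) (nat_lit 6) (.e (nat_lit 81948) (nat_lit 21) (.e (nat_lit 57872) (nat_lit 264) (.e (nat_lit 1219) (nat_lit 90) (.e (nat_lit 81924) (nat_lit 0) .nil)))))) (.g (nat_lit 4) .nil .nil))) 
(.lf (nat_lit 104812) (.g (nat_lit 2126) (.e (nat_lit 3657) (nat_lit 227) (.e (nat_lit 778462) (nat_lit 11) (.e (nat_lit 24608) (nat_lit 3) (.e (nat_lit 98365) (nat_lit 26) (.e (nat_lit 426187) (nat_lit 9) .nil))))) .nil))) (.nd (nat_lit 5) 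
(.lf (nat_lit 104796) (.g (nat_lit 3308) (.e (nat_lit 3637) (nat_lit 227) (.e (nat_lit 778320) (nat_lit 4) (.e (nat_lit 65630) (nat_lit 14) (.e (nat_lit 401459) (nat_lit 13) (.e (nat_lit 483380) (nat_lit 23) (.e (nat_lit 336258) (nat_lit 15) .nil)))))) (.g (nat_lit 6) .nil .nil))) 
(.lf (nat_lit 104828) (.g (nat_lit 3283) (.e (nat_lit 3687) (nat_lit 227) (.e (nat_lit 778466) (nat_lit 11) (.e (nat_lit 24608) (nat_lit 3) (.e (nat_lit 98365) (nat_lit 26) (.e (nat_lit 426187) (nat_lit 9) (.e (nat_lit 426436) (nat_lit 18) (.e (nat_lit 98320) (nat_lit 17) .nil))))))) (.g (nat_lit 0) .nil .nil))))))) (.nd (nat_lit 2) (.nd (nat_lit 3) (.nd (nat_lit 4) (.nd (nat_lit 5) 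
(.lf (nat_lit 104770) (.g (nat_lit 1011) (.e (nat_lit 3632) (nat_lit 227) (.e (nat_lit 778324) (nat_lit 5) (.e (nat_lit 73781) (nat_lit 32) (.e (nat_lit 3088) (nat_lit 191) (.e (nat_lit 491264) (nat_lit 23) .nil))))) .nil)) 
(.lf (nat_lit 104802) (.g (nat_lit 2129) (.e (nat_lit 3650) (nat_lit 227) (.e (nat_lit 778462) (nat_lit 11) (.e (nat_lit 24608) (nat_lit 3) (.e (nat_lit 98365) (nat_lit 26) (.e (nat_lit 426187) (nat_lit 9) .nil))))) .nil))) (.nd (nat_lit 5) 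
(.lf (nat_lit 104786) (.g (nat_lit 3929) (.e (nat_lit 3634) (nat_lit 227) (.e (nat_lit 778317) (nat_lit 3) (.e (nat_lit 57476) (nat_lit 28) (.e (nat_lit 557108) (nat_lit 15) (.e (nat_lit 188452) (nat_lit 23) (.e (nat_lit 204852) (nat_lit 26) (.e (nat_lit 336261) (nat_lit 15) .nil))))))) (.g (nat_lit 6) .nil .nil))) 
(.lf (nat_lit 104818) (.g (nat_lit 3321) (.e (nat_lit 3666) (nat_lit 227) (.e (nat_lit 778477) (nat_lit 12) (.e (nat_lit 164034) (nat_lit 54) (.e (nat_lit 770071) (nat_lit 8) (.e (nat_lit 65586) (nat_lit 7) (.e (nat_lit 319531) (nat_lit 16) (.e (nat_lit 286748) (nat_lit 9) (.e (nat_lit 336295) (nat_lit 15) .nil)))))))) (.g (nat_lit 8) .nil .nil))))) (.nd (nat_lit 4) (.nd (nat_lit 5) 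
(.lf (nat_lit 104778) (.g (nat_lit 3076) (.e (nat_lit 3632) (nat_lit 227) (.e (nat_lit 778326) (nat_lit 6) (.e (nat_lit 81957) (nat_lit 24) (.e (nat_lit 123195) (nat_lit 266) (.e (nat_lit 57423) (nat_lit 14) (.e (nat_lit 352262) (nat_lit 0) .nil)))))) (.g (nat_lit 5) .nil .nil))) 
(.lf (nat_lit 104810) (.g (nat_lit 2143) (.e (nat_lit 3654) (nat_lit 227) (.e (nat_lit 778462) (nat_lit 11) (.e (nat_lit 24608) (nat_lit 3) (.e (nat_lit 98365) (nat_lit 26) (.e (nat_lit 426187) (nat_lit 9) .nil))))) .nil))) (.nd (nat_lit 5) 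
(.lf (nat_lit 104794) (.g (nat_lit 3396) (.e (nat_lit 3635) (nat_lit 227) (.e (nat_lit 778320) (nat_lit 4) (.e (nat_lit 65630) (nat_lit 14) (.e (nat_lit 401459) (nat_lit 13) (.e (nat_lit 483380) (nat_lit 23) (.e (nat_lit 336261) (nat_lit 15) .nil)))))) (.g (nat_lit 0) .nil .nil))) 
(.lf (nat_lit 104826) (.g (nat_lit 3247) (.e (nat_lit 3687) (nat_lit 227) (.e (nat_lit 778465) (nat_lit 11) (.e (nat_lit 24608) (nat_lit 3) (.e (nat_lit 98365) (nat_lit 26) (.e (nat_lit 426187) (nat_lit 9) (.e (nat_lit 426436) (nat_lit 18) (.e (nat_lit 98320) (nat_lit 17) .nil))))))) (.g (nat_lit 7) .nil .nil)))))) (.nd (nat_lit 3) (.nd (nat_lit 4) (.nd (nat_lit 5) 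
(.lf (nat_lit 104774) (.g (nat_lit 2522) (.e (nat_lit 3632) (nat_lit 227) (.e (nat_lit 778326) (nat_lit 6) (.e (nat_lit 81948) (nat_lit 21) (.e (nat_lit 57873) (nat_lit 264) (.e (nat_lit 1219) (nat_lit 90) (.e (nat_lit 81922) (nat_lit 0) .nil)))))) (.g (nat_lit 0) .nil .nil))) 
(.lf (nat_lit 104806) (.g (nat_lit 2212) (.e (nat_lit 3651) (nat_lit 227) (.e (nat_lit 778460) (nat_lit 11) (.e (nat_lit 24608) (nat_lit 3) (.e (nat_lit 98365) (nat_lit 26) (.e (nat_lit 426188) (nat_lit 9) .nil))))) .nil))) (.nd (nat_lit 5) 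
(.lf (nat_lit 104790) (.g (nat_lit 1717) (.e (nat_lit 3634) (nat_lit 227) (.e (nat_lit 778327) (nat_lit 6) (.e (nat_lit 81956) (nat_lit 23) (.e (nat_lit 98313) (nat_lit 9) .nil)))) .nil)) 
(.lf (nat_lit 104822) (.g (nat_lit 1744) (.e (nat_lit 3686) (nat_lit 227) (.e (nat_lit 778466) (nat_lit 11) (.e (nat_lit 24604) (nat_lit 2) (.e (nat_lit 90185) (nat_lit 17) (.e (nat_lit 237605) (nat_lit 9) .nil))))) .nil)))) (.nd (nat_lit 4) (.nd (nat_lit 5) 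
(.lf (nat_lit 104782) (.g (nat_lit 1935) (.e (nat_lit 3632) (nat_lit 227) (.e (nat_lit 778327) (nat_lit 6) (.e (nat_lit 81950) (nat_lit 21) (.e (nat_lit 57873) (nat_lit 264) (.e (nat_lit 1219) (nat_lit 90) (.e (nat_lit 81922) (nat_lit 0) .nil)))))) (.g (nat_lit 4) .nil .nil))) 
(.lf (nat_lit 104814) (.g (nat_lit 2055) (.e (nat_lit 3659) (nat_lit 227) (.e (nat_lit 778462) (nat_lit 11) (.e (nat_lit 24608) (nat_lit 3) (.e (nat_lit 98365) (nat_lit 26) (.e (nat_lit 426187) (nat_lit 9) .nil))))) .nil))) (.nd (nat_lit 5) 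
(.lf (nat_lit 104798) (.g (nat_lit 2191) (.e (nat_lit 3647) (nat_lit 227) (.e (nat_lit 778462) (nat_lit 11) (.e (nat_lit 24608) (nat_lit 3) (.e (nat_lit 98365) (nat_lit 26) (.e (nat_lit 426188) (nat_lit 9) .nil))))) .nil)) 
(.lf (nat_lit 104830) (.g (nat_lit 1483) (.e (nat_lit 3689) (nat_lit 227) (.e (nat_lit 778465) (nat_lit 11) (.e (nat_lit 24604) (nat_lit 2) (.e (nat_lit 90185) (nat_lit 17) .nil)))) .nil))))))) (.nd (nat_lit 1) (.nd (nat_lit 2) (.nd (nat_lit 3) (.nd (nat_lit 4) (.nd (nat_lit 5) 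
(.lf (nat_lit 104769) (.g (nat_lit 1649) (.e (nat_lit 3632) (nat_lit 227) (.e (nat_lit 778324) (nat_lit 5) (.e (nat_lit 73781) (nat_lit 32) (.e (nat_lit 2857) (nat_lit 184) (.e (nat_lit 426556) (nat_lit 32) (.e (nat_lit 376835) (nat_lit 0) .nil)))))) (.g (nat_lit 4) .nil .nil))) 
(.lf (nat_lit 104801) (.g (nat_lit 2188) (.e (nat_lit 3649) (nat_lit 227) (.e (nat_lit 778462) (nat_lit 11) (.e (nat_lit 24608) (nat_lit 3) (.e (nat_lit 98365) (nat_lit 26) (.e (nat_lit 426188) (nat_lit 9) .nil))))) .nil))) (.nd (nat_lit 5) 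
(.lf (nat_lit 104785) (.g (nat_lit 3326) (.e (nat_lit 3633) (nat_lit 227) (.e (nat_lit 778320) (nat_lit 4) (.e (nat_lit 65630) (nat_lit 14) (.e (nat_lit 401459) (nat_lit 13) (.e (nat_lit 483380) (nat_lit 23) (.e (nat_lit 336261) (nat_lit 15) .nil)))))) (.g (nat_lit 0) .nil .nil))) 
(.lf (nat_lit 104817) (.g (nat_lit 1736) (.e (nat_lit 3665) (nat_lit 227) (.e (nat_lit 778460) (nat_lit 11) (.e (nat_lit 24604) (nat_lit 2) (.e (nat_lit 90178) (nat_lit 15) (.e (nat_lit 196352) (nat_lit 3) .nil))))) .nil)))) (.nd (nat_lit 4) (.nd (nat_lit 5) 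
(.lf (nat_lit 104777) (.g (nat_lit 3413) (.e (nat_lit 3632) (nat_lit 227) (.e (nat_lit 778326) (nat_lit 6) (.e (nat_lit 81957) (nat_lit 24) (.e (nat_lit 123184) (nat_lit 264) (.e (nat_lit 1222) (nat_lit 90) (.e (nat_lit 81924) (nat_lit 0) .nil)))))) (.g (nat_lit 0) .nil .nil))) 
(.lf (nat_lit 104809) (.g (nat_lit 1582) (.e (nat_lit 3653) (nat_lit 227) (.e (nat_lit 778262) (nat_lit 0) (.e (nat_lit 1659) (nat_lit 115) (.e (nat_lit 393301) (nat_lit 27) (.e (nat_lit 491538) (nat_lit 3) .nil))))) .nil))) (.nd (nat_lit 5) 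
(.lf (nat_lit 104793) (.g (nat_lit 2108) (.e (nat_lit 3634) (nat_lit 227) (.e (nat_lit 778470) (nat_lit 11) (.e (nat_lit 24628) (nat_lit 9) (.e (nat_lit 336443) (nat_lit 32) (.e (nat_lit 466972) (nat_lit 21) .nil))))) .nil)) 
(.lf (nat_lit 104825) (.g (nat_lit 1625) (.e (nat_lit 3687) (nat_lit 227) (.e (nat_lit 778465) (nat_lit 11) (.e (nat_lit 24607) (nat_lit 3) (.e (nat_lit 98365) (nat_lit 26) .nil)))) .nil))))) (.nd (nat_lit 3) (.nd (nat_lit 4) (.nd (nat_lit 5) 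
(.lf (nat_lit 104773) (.g (nat_lit 2242) (.e (nat_lit 3632) (nat_lit 227) (.e (nat_lit 778326) (nat_lit 6) (.e (nat_lit 81948) (nat_lit 21) (.e (nat_lit 57872) (nat_lit 264) (.e (nat_lit 1221) (nat_lit 90) (.e (nat_lit 81923) (nat_lit 0) .nil)))))) (.g (nat_lit 5) .nil .nil))) 
(.lf (nat_lit 104805) (.g (nat_lit 2028) (.e (nat_lit 3651) (nat_lit 227) (.e (nat_lit 778460) (nat_lit 11) (.e (nat_lit 24604) (nat_lit 2) (.e (nat_lit 90185) (nat_lit 17) (.e (nat_lit 237605) (nat_lit 9) (.e (nat_lit 426436) (nat_lit 18) (.e (nat_lit 98321) (nat_lit 17) .nil))))))) (.g (nat_lit 4) .nil .nil)))) (.nd (nat_lit 5) 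
(.lf (nat_lit 104789) (.g (nat_lit 1454) (.e (nat_lit 3634) (nat_lit 227) (.e (nat_lit 778324) (nat_lit 5) (.e (nat_lit 73781) (nat_lit 32) (.e (nat_lit 3090) (nat_lit 191) (.e (nat_lit 483380) (nat_lit 23) .nil))))) .nil)) 
(.lf (nat_lit 104821) (.g (nat_lit 2056) (.e (nat_lit 3686) (nat_lit 227) (.e (nat_lit 778465) (nat_lit 11) (.e (nat_lit 24604) (nat_lit 2) (.e (nat_lit 90185) (nat_lit 17) (.e (nat_lit 237616) (nat_lit 12) .nil))))) .nil)))) (.nd (nat_lit 4) (.nd (nat_lit 5) 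
(.lf (nat_lit 104781) (.g (nat_lit 2432) (.e (nat_lit 3632) (nat_lit 227) (.e (nat_lit 778327) (nat_lit 6) (.e (nat_lit 81950) (nat_lit 21) (.e (nat_lit 57872) (nat_lit 264) (.e (nat_lit 1219) (nat_lit 90) (.e (nat_lit 81924) (nat_lit 0) .nil)))))) (.g (nat_lit 5) .nil .nil))) 
(.lf (nat_lit 104813) (.g (nat_lit 2186) (.e (nat_lit 3657) (nat_lit 227) (.e (nat_lit 778462) (nat_lit 11) (.e (nat_lit 24608) (nat_lit 3) (.e (nat_lit 98365) (nat_lit 26) (.e (nat_lit 426188) (nat_lit 9) .nil))))) .nil))) (.nd (nat_lit 5) 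
(.lf (nat_lit 104797) (.g (nat_lit 2132) (.e (nat_lit 3647) (nat_lit 227) (.e (nat_lit 778462) (nat_lit 11) (.e (nat_lit 24608) (nat_lit 3) (.e (nat_lit 98365) (nat_lit 26) (.e (nat_lit 426187) (nat_lit 9) .nil))))) .nil)) 
(.lf (nat_lit 104829) (.g (nat_lit 3437) (.e (nat_lit 3687) (nat_lit 227) (.e (nat_lit 778466) (nat_lit 11) (.e (nat_lit 24608) (nat_lit 3) (.e (nat_lit 98365) (nat_lit 26) (.e (nat_lit 426188) (nat_lit 9) (.e (nat_lit 426436) (nat_lit 18) (.e (nat_lit 98320) (nat_lit 17) .nil))))))) (.g (nat_lit 0) .nil .nil))))))) (.nd (nat_lit 2) (.nd (nat_lit 3) (.nd (nat_lit 4) (.nd (nat_lit 5) 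
(.lf (nat_lit 104771) (.g (nat_lit 569) (.e (nat_lit 3632) (nat_lit 227) (.e (nat_lit 778326) (nat_lit 6) (.e (nat_lit 81922) (nat_lit 0) (.e (nat_lit 3630) (nat_lit 227) .nil)))) .nil)) 
(.lf (nat_lit 104803) (.g (nat_lit 2189) (.e (nat_lit 3650) (nat_lit 227) (.e (nat_lit 778462) (nat_lit 11) (.e (nat_lit 24608) (nat_lit 3) (.e (nat_lit 98365) (nat_lit 26) (.e (nat_lit 426188) (nat_lit 9) .nil))))) .nil))) (.nd (nat_lit 5) 
(.lf (nat_lit 104787) (.g (nat_lit 3585) (.e (nat_lit 3634) (nat_lit 227) (.e (nat_lit 778317) (nat_lit 3) (.e (nat_lit 57477) (nat_lit 28) (.e (nat_lit 557108) (nat_lit 15) (.e (nat_lit 188452) (nat_lit 23) (.e (nat_lit 204852) (nat_lit 26) (.e (nat_lit 336261) (nat_lit 15) .nil))))))) (.g (nat_lit 6) .nil .nil))) 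
(.lf (nat_lit 104819) (.g (nat_lit 1510) (.e (nat_lit 3671) (nat_lit 227) (.e (nat_lit 778324) (nat_lit 5) (.e (nat_lit 73781) (nat_lit 32) (.e (nat_lit 3090) (nat_lit 191) (.e (nat_lit 483380) (nat_lit 23) .nil))))) .nil)))) (.nd (nat_lit 4) (.nd (nat_lit 5) 
(.lf (nat_lit 104779) (.g (nat_lit 2121) (.e (nat_lit 3632) (nat_lit 227) (.e (nat_lit 778326) (nat_lit 6) (.e (nat_lit 81958) (nat_lit 24) (.e (nat_lit 123184) (nat_lit 264) (.e (nat_lit 1222) (nat_lit 90) (.e (nat_lit 81924) (nat_lit 0) .nil)))))) (.g (nat_lit 5) .nil .nil))) 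
(.lf (nat_lit 104811) (.g (nat_lit 2203) (.e (nat_lit 3654) (nat_lit 227) (.e (nat_lit 778462) (nat_lit 11) (.e (nat_lit 24608) (nat_lit 3) (.e (nat_lit 98365) (nat_lit 26) (.e (nat_lit 426188) (nat_lit 9) .nil))))) .nil))) (.nd (nat_lit 5) 
(.lf (nat_lit 104795) (.g (nat_lit 3384) (.e (nat_lit 3636) (nat_lit 227) (.e (nat_lit 778320) (nat_lit 4) (.e (nat_lit 65630) (nat_lit 14) (.e (nat_lit 401459) (nat_lit 13) (.e (nat_lit 483380) (nat_lit 23) (.e (nat_lit 336261) (nat_lit 15) .nil)))))) (.g (nat_lit 6) .nil .nil))) 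
(.lf (nat_lit 104827) (.g (nat_lit 1163) (.e (nat_lit 3687) (nat_lit 227) (.e (nat_lit 778466) (nat_lit 11) (.e (nat_lit 24604) (nat_lit 2) (.e (nat_lit 90185) (nat_lit 17) .nil)))) .nil))))) (.nd (nat_lit 3) (.nd (nat_lit 4) (.nd (nat_lit 5) 
(.lf (nat_lit 104775) (.g (nat_lit 2429) (.e (nat_lit 3632) (nat_lit 227) (.e (nat_lit 778326) (nat_lit 6) (.e (nat_lit 81950) (nat_lit 21) (.e (nat_lit 57872) (nat_lit 264) (.e (nat_lit 1219) (nat_lit 90) (.e (nat_lit 81922) (nat_lit 0) .nil)))))) (.g (nat_lit 5) .nil .nil))) 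
(.lf (nat_lit 104807) (.g (nat_lit 1554) (.e (nat_lit 3651) (nat_lit 227) (.e (nat_lit 778468) (nat_lit 11) (.e (nat_lit 24608) (nat_lit 3) (.e (nat_lit 98365) (nat_lit 26) (.e (nat_lit 426187) (nat_lit 9) .nil))))) .nil))) (.nd (nat_lit 5) 
(.lf (nat_lit 104791) (.g (nat_lit 2046) (.e (nat_lit 3634) (nat_lit 227) (.e (nat_lit 778459) (nat_lit 11) (.e (nat_lit 24628) (nat_lit 9) (.e (nat_lit 336443) (nat_lit 32) (.e (nat_lit 466969) (nat_lit 21) .nil))))) .nil)) 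
(.lf (nat_lit 104823) (.g (nat_lit 616) (.e (nat_lit 3687) (nat_lit 227) (.e (nat_lit 778465) (nat_lit 11) (.e (nat_lit 24603) (nat_lit 2) .nil))) .nil)))) (.nd (nat_lit 4) (.nd (nat_lit 5) 
(.lf (nat_lit 104783) (.g (nat_lit 1950) (.e (nat_lit 3632) (nat_lit 227) (.e (nat_lit 778327) (nat_lit 6) (.e (nat_lit 81950) (nat_lit 21) (.e (nat_lit 57873) (nat_lit 264) (.e (nat_lit 1219) (nat_lit 90) (.e (nat_lit 81924) (nat_lit 0) .nil)))))) (.g (nat_lit 4) .nil .nil))) 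
(.lf (nat_lit 104815) (.g (nat_lit 2136) (.e (nat_lit 3663) (nat_lit 227) (.e (nat_lit 778462) (nat_lit 11) (.e (nat_lit 24608) (nat_lit 3) (.e (nat_lit 98365) (nat_lit 26) (.e (nat_lit 426187) (nat_lit 9) .nil))))) .nil))) (.nd (nat_lit 5) 
(.lf (nat_lit 104799) (.g (nat_lit 1493) (.e (nat_lit 3647) (nat_lit 227) (.e (nat_lit 778462) (nat_lit 11) (.e (nat_lit 24628) (nat_lit 9) (.e (nat_lit 336443) (nat_lit 32) (.e (nat_lit 466969) (nat_lit 21) .nil))))) .nil)) 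
(.lf (nat_lit 104831) (.g (nat_lit 1841) (.e (nat_lit 3689) (nat_lit 227) (.e (nat_lit 778466) (nat_lit 11) (.e (nat_lit 24604) (nat_lit 2) (.e (nat_lit 90185) (nat_lit 17) (.e (nat_lit 237605) (nat_lit 9) .nil))))) .nil))))))))

noncomputable def tv1433 : DT := (.nd (nat_lit 0) (.nd (nat_lit 1) (.nd (nat_lit 2) (.nd (nat_lit 3) (.nd (nat_lit 4) (.nd (nat_lit 5) 
(.lf (nat_lit 104832) (.g (nat_lit 1804) (.e (nat_lit 3689) (nat_lit 227) (.e (nat_lit 778466) (nat_lit 11) (.e (nat_lit 24604) (nat_lit 2) (.e (nat_lit 90185) (nat_lit 17) (.e (nat_lit 237616) (nat_lit 12) (.e (nat_lit 475177) (nat_lit 24) (.e (nat_lit 516097) (nat_lit 0) .nil))))))) (.g (nat_lit 4) .nil .nil))) 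
(.lf (nat_lit 104864) (.g (nat_lit 2266) (.e (nat_lit 3710) (nat_lit 227) (.e (nat_lit 778465) (nat_lit 11) (.e (nat_lit 24604) (nat_lit 2) (.e (nat_lit 90185) (nat_lit 17) (.e (nat_lit 237601) (nat_lit 9) (.e (nat_lit 426436) (nat_lit 18) (.e (nat_lit 98320) (nat_lit 17) .nil))))))) (.g (nat_lit 4) .nil .nil)))) (.nd (nat_lit 5) 
(.lf (nat_lit 104848) (.g (nat_lit 1746) (.e (nat_lit 3694) (nat_lit 227) (.e (nat_lit 778466) (nat_lit 11) (.e (nat_lit 24608) (nat_lit 3) (.e (nat_lit 98365) (nat_lit 26) (.e (nat_lit 426187) (nat_lit 9) (.e (nat_lit 426436) (nat_lit 18) (.e (nat_lit 98319) (nat_lit 17) .nil))))))) (.g (nat_lit 4) .nil .nil))) 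
(.lf (nat_lit 104880) (.g (nat_lit 2479) (.e (nat_lit 3711) (nat_lit 227) (.e (nat_lit 778322) (nat_lit 5) (.e (nat_lit 73782) (nat_lit 32) (.e (nat_lit 2856) (nat_lit 184) (.e (nat_lit 426542) (nat_lit 29) (.e (nat_lit 352264) (nat_lit 0) .nil)))))) (.g (nat_lit 0) .nil .nil))))) (.nd (nat_lit 4) (.nd (nat_lit 5) 
(.lf (nat_lit 104840) (.g (nat_lit 820) (.e (nat_lit 3693) (nat_lit 227) (.e (nat_lit 778466) (nat_lit 11) (.e (nat_lit 24608) (nat_lit 3) .nil))) .nil)) 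
(.lf (nat_lit 104872) (.g (nat_lit 2221) (.e (nat_lit 3711) (nat_lit 227) (.e (nat_lit 778319) (nat_lit 4) (.e (nat_lit 65624) (nat_lit 12) (.e (nat_lit 385094) (nat_lit 49) (.e (nat_lit 778326) (nat_lit 6) (.e (nat_lit 81921) (nat_lit 0) .nil)))))) (.g (nat_lit 5) .nil .nil)))) (.nd (nat_lit 5) 
(.lf (nat_lit 104856) (.g (nat_lit 684) (.e (nat_lit 3703) (nat_lit 227) (.e (nat_lit 778465) (nat_lit 11) (.e (nat_lit 24608) (nat_lit 3) .nil))) .nil)) 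
(.lf (nat_lit 104888) (.g (nat_lit 1478) (.e (nat_lit 3711) (nat_lit 227) (.e (nat_lit 786176) (nat_lit 5) (.e (nat_lit 73782) (nat_lit 32) (.e (nat_lit 3090) (nat_lit 191) (.e (nat_lit 483386) (nat_lit 23) (.e (nat_lit 336290) (nat_lit 15) .nil)))))) (.g (nat_lit 5) .nil .nil)))))) (.nd (nat_lit 3) (.nd (nat_lit 4) (.nd (nat_lit 5) 
(.lf (nat_lit 104836) (.g (nat_lit 1883) (.e (nat_lit 3689) (nat_lit 227) (.e (nat_lit 778466) (nat_lit 11) (.e (nat_lit 24608) (nat_lit 3) (.e (nat_lit 98365) (nat_lit 26) (.e (nat_lit 426306) (nat_lit 12) .nil))))) .nil)) 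
(.lf (nat_lit 104868) (.g (nat_lit 2740) (.e (nat_lit 3711) (nat_lit 227) (.e (nat_lit 786176) (nat_lit 3) (.e (nat_lit 57477) (nat_lit 28) (.e (nat_lit 557097) (nat_lit 13) (.e (nat_lit 172097) (nat_lit 9) (.e (nat_lit 426140) (nat_lit 3) (.e (nat_lit 204855) (nat_lit 26) (.e (nat_lit 336290) (nat_lit 15) .nil)))))))) (.g (nat_lit 7) .nil .nil)))) (.nd (nat_lit 5) 
(.lf (nat_lit 104852) (.g (nat_lit 2005) (.e (nat_lit 3703) (nat_lit 227) (.e (nat_lit 778465) (nat_lit 11) (.e (nat_lit 24604) (nat_lit 2) (.e (nat_lit 90185) (nat_lit 17) (.e (nat_lit 237605) (nat_lit 9) .nil))))) .nil)) 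
(.lf (nat_lit 104884) (.g (nat_lit 628) (.e (nat_lit 3711) (nat_lit 227) (.e (nat_lit 778322) (nat_lit 5) (.e (nat_lit 73794) (nat_lit 46) (.e (nat_lit 57864) (nat_lit 256) (.e (nat_lit 317) (nat_lit 23) (.e (nat_lit 352264) (nat_lit 0) .nil)))))) (.g (nat_lit 0) .nil .nil))))) (.nd (nat_lit 4) (.nd (nat_lit 5) 
(.lf (nat_lit 104844) (.g (nat_lit 1740) (.e (nat_lit 3694) (nat_lit 227) (.e (nat_lit 778465) (nat_lit 11) (.e (nat_lit 24608) (nat_lit 3) (.e (nat_lit 98365) (nat_lit 26) (.e (nat_lit 426187) (nat_lit 9) (.e (nat_lit 426436) (nat_lit 18) (.e (nat_lit 98320) (nat_lit 17) .nil))))))) (.g (nat_lit 4) .nil .nil))) 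
(.lf (nat_lit 104876) (.g (nat_lit 1683) (.e (nat_lit 3711) (nat_lit 227) (.e (nat_lit 786176) (nat_lit 4) (.e (nat_lit 65630) (nat_lit 14) (.e (nat_lit 401459) (nat_lit 13) (.e (nat_lit 483386) (nat_lit 23) (.e (nat_lit 336290) (nat_lit 15) .nil)))))) (.g (nat_lit 5) .nil .nil)))) (.nd (nat_lit 5) 
(.lf (nat_lit 104860) (.g (nat_lit 2034) (.e (nat_lit 3703) (nat_lit 227) (.e (nat_lit 778466) (nat_lit 11) (.e (nat_lit 24604) (nat_lit 2) (.e (nat_lit 90185) (nat_lit 17) (.e (nat_lit 237605) (nat_lit 9) .nil))))) .nil)) 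
(.lf (nat_lit 104892) (.g (nat_lit 607) (.e (nat_lit 3711) (nat_lit 227) (.e (nat_lit 778325) (nat_lit 6) (.e (nat_lit 81920) (nat_lit 0) (.e (nat_lit 3715) (nat_lit 227) (.e (nat_lit 778325) (nat_lit 6) (.e (nat_lit 81921) (nat_lit 0) .nil)))))) (.g (nat_lit 4) .nil .nil))))))) (.nd (nat_lit 2) (.nd (nat_lit 3) (.nd (nat_lit 4) (.nd (nat_lit 5) 
(.lf (nat_lit 104834) (.g (nat_lit 1968) (.e (nat_lit 3689) (nat_lit 227) (.e (nat_lit 778466) (nat_lit 11) (.e (nat_lit 24608) (nat_lit 3) (.e (nat_lit 98365) (nat_lit 26) (.e (nat_lit 426187) (nat_lit 9) .nil))))) .nil)) 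
(.lf (nat_lit 104866) (.g (nat_lit 3181) (.e (nat_lit 3710) (nat_lit 227) (.e (nat_lit 778466) (nat_lit 11) (.e (nat_lit 24608) (nat_lit 3) (.e (nat_lit 98365) (nat_lit 26) (.e (nat_lit 426187) (nat_lit 9) (.e (nat_lit 426436) (nat_lit 18) (.e (nat_lit 98320) (nat_lit 17) .nil))))))) (.g (nat_lit 7) .nil .nil)))) (.nd (nat_lit 5) 
(.lf (nat_lit 104850) (.g (nat_lit 2182) (.e (nat_lit 3703) (nat_lit 227) (.e (nat_lit 778362) (nat_lit 9) (.e (nat_lit 232) (nat_lit 21) (.e (nat_lit 336060) (nat_lit 7) (.e (nat_lit 319533) (nat_lit 16) .nil))))) .nil)) 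
(.lf (nat_lit 104882) (.g (nat_lit 1391) (.e (nat_lit 3711) (nat_lit 227) (.e (nat_lit 778322) (nat_lit 5) (.e (nat_lit 73789) (nat_lit 45) (.e (nat_lit 1385) (nat_lit 105) (.e (nat_lit 311358) (nat_lit 29) (.e (nat_lit 352264) (nat_lit 0) .nil)))))) (.g (nat_lit 0) .nil .nil))))) (.nd (nat_lit 4) (.nd (nat_lit 5) 
(.lf (nat_lit 104842) (.g (nat_lit 962) (.e (nat_lit 3693) (nat_lit 227) (.e (nat_lit 778466) (nat_lit 11) (.e (nat_lit 24658) (nat_lit 13) .nil))) .nil)) 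
(.lf (nat_lit 104874) (.g (nat_lit 2210) (.e (nat_lit 3711) (nat_lit 227) (.e (nat_lit 786176) (nat_lit 4) (.e (nat_lit 65630) (nat_lit 14) (.e (nat_lit 401437) (nat_lit 9) (.e (nat_lit 426542) (nat_lit 29) (.e (nat_lit 352264) (nat_lit 0) .nil)))))) (.g (nat_lit 5) .nil .nil)))) (.nd (nat_lit 5) 
(.lf (nat_lit 104858) (.g (nat_lit 1597) (.e (nat_lit 3703) (nat_lit 227) (.e (nat_lit 778466) (nat_lit 11) (.e (nat_lit 24604) (nat_lit 2) (.e (nat_lit 90185) (nat_lit 17) .nil)))) .nil)) 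
(.lf (nat_lit 104890) (.g (nat_lit 909) (.e (nat_lit 3711) (nat_lit 227) (.e (nat_lit 786176) (nat_lit 5) (.e (nat_lit 73792) (nat_lit 45) (.e (nat_lit 1385) (nat_lit 105) (.e (nat_lit 311358) (nat_lit 29) (.e (nat_lit 352264) (nat_lit 0) .nil)))))) (.g (nat_lit 5) .nil .nil)))))) (.nd (nat_lit 3) (.nd (nat_lit 4) (.nd (nat_lit 5) 
(.lf (nat_lit 104838) (.g (nat_lit 1926) (.e (nat_lit 3693) (nat_lit 227) (.e (nat_lit 778466) (nat_lit 11) (.e (nat_lit 24604) (nat_lit 2) (.e (nat_lit 90185) (nat_lit 17) (.e (nat_lit 237605) (nat_lit 9) .nil))))) .nil)) 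
(.lf (nat_lit 104870) (.g (nat_lit 2309) (.e (nat_lit 3711) (nat_lit 227) (.e (nat_lit 786176) (nat_lit 3) (.e (nat_lit 57478) (nat_lit 28) (.e (nat_lit 557107) (nat_lit 15) (.e (nat_lit 188450) (nat_lit 23) (.e (nat_lit 204855) (nat_lit 26) (.e (nat_lit 336290) (nat_lit 15) .nil))))))) (.g (nat_lit 6) .nil .nil)))) (.nd (nat_lit 5) 
(.lf (nat_lit 104854) (.g (nat_lit 2114) (.e (nat_lit 3703) (nat_lit 227) (.e (nat_lit 778465) (nat_lit 11) (.e (nat_lit 24604) (nat_lit 2) (.e (nat_lit 90185) (nat_lit 17) (.e (nat_lit 237616) (nat_lit 12) (.e (nat_lit 475177) (nat_lit 24) (.e (nat_lit 516097) (nat_lit 0) .nil))))))) (.g (nat_lit 4) .nil .nil))) 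
(.lf (nat_lit 104886) (.g (nat_lit 2061) (.e (nat_lit 3711) (nat_lit 227) (.e (nat_lit 786176) (nat_lit 5) (.e (nat_lit 73781) (nat_lit 32) (.e (nat_lit 2856) (nat_lit 184) (.e (nat_lit 426542) (nat_lit 29) (.e (nat_lit 352264) (nat_lit 0) .nil)))))) (.g (nat_lit 5) .nil .nil))))) (.nd (nat_lit 4) (.nd (nat_lit 5) 
(.lf (nat_lit 104846) (.g (nat_lit 2157) (.e (nat_lit 3694) (nat_lit 227) (.e (nat_lit 778466) (nat_lit 11) (.e (nat_lit 24604) (nat_lit 2) (.e (nat_lit 90185) (nat_lit 17) (.e (nat_lit 237605) (nat_lit 9) (.e (nat_lit 426436) (nat_lit 18) (.e (nat_lit 98319) (nat_lit 17) .nil))))))) (.g (nat_lit 5) .nil .nil))) 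
(.lf (nat_lit 104878) (.g (nat_lit 2168) (.e (nat_lit 3711) (nat_lit 227) (.e (nat_lit 778322) (nat_lit 5) (.e (nat_lit 73781) (nat_lit 32) (.e (nat_lit 2856) (nat_lit 184) (.e (nat_lit 426542) (nat_lit 29) (.e (nat_lit 352264) (nat_lit 0) .nil)))))) (.g (nat_lit 5) .nil .nil)))) (.nd (nat_lit 5) 
(.lf (nat_lit 104862) (.g (nat_lit 1968) (.e (nat_lit 3703) (nat_lit 227) (.e (nat_lit 778466) (nat_lit 11) (.e (nat_lit 24608) (nat_lit 3) (.e (nat_lit 98365) (nat_lit 26) (.e (nat_lit 426187) (nat_lit 9) .nil))))) .nil)) 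
(.lf (nat_lit 104894) (.g (nat_lit 905) (.e (nat_lit 3711) (nat_lit 227) (.e (nat_lit 778325) (nat_lit 6) (.e (nat_lit 81921) (nat_lit 0) (.e (nat_lit 3715) (nat_lit 227) (.e (nat_lit 778325) (nat_lit 6) (.e (nat_lit 81921) (nat_lit 0) .nil)))))) (.g (nat_lit 0) .nil .nil)))))))) (.nd (nat_lit 1) (.nd (nat_lit 2) (.nd (nat_lit 3) (.nd (nat_lit 4) (.nd (nat_lit 5) 
(.lf (nat_lit 104833) (.g (nat_lit 830) (.e (nat_lit 3689) (nat_lit 227) (.e (nat_lit 778466) (nat_lit 11) (.e (nat_lit 24608) (nat_lit 3) .nil))) .nil)) 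
(.lf (nat_lit 104865) (.g (nat_lit 2466) (.e (nat_lit 3710) (nat_lit 227) (.e (nat_lit 778465) (nat_lit 11) (.e (nat_lit 24608) (nat_lit 3) (.e (nat_lit 98365) (nat_lit 26) (.e (nat_lit 426188) (nat_lit 9) (.e (nat_lit 426436) (nat_lit 18) (.e (nat_lit 98320) (nat_lit 17) .nil))))))) (.g (nat_lit 5) .nil .nil)))) (.nd (nat_lit 5) 
(.lf (nat_lit 104849) (.g (nat_lit 3425) (.e (nat_lit 3694) (nat_lit 227) (.e (nat_lit 778466) (nat_lit 11) (.e (nat_lit 24608) (nat_lit 3) (.e (nat_lit 98365) (nat_lit 26) (.e (nat_lit 426187) (nat_lit 9) (.e (nat_lit 426436) (nat_lit 18) (.e (nat_lit 98320) (nat_lit 17) .nil))))))) (.g (nat_lit 0) .nil .nil))) 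
(.lf (nat_lit 104881) (.g (nat_lit 636) (.e (nat_lit 3711) (nat_lit 227) (.e (nat_lit 778322) (nat_lit 5) (.e (nat_lit 73787) (nat_lit 45) (.e (nat_lit 1378) (nat_lit 104) (.e (nat_lit 303155) (nat_lit 29) (.e (nat_lit 352264) (nat_lit 0) .nil)))))) (.g (nat_lit 0) .nil .nil))))) (.nd (nat_lit 4) (.nd (nat_lit 5) 
(.lf (nat_lit 104841) (.g (nat_lit 3496) (.e (nat_lit 3693) (nat_lit 227) (.e (nat_lit 778466) (nat_lit 11) (.e (nat_lit 24608) (nat_lit 3) (.e (nat_lit 98365) (nat_lit 26) (.e (nat_lit 426306) (nat_lit 12) (.e (nat_lit 475179) (nat_lit 24) (.e (nat_lit 516102) (nat_lit 0) .nil))))))) (.g (nat_lit 6) .nil .nil))) 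
(.lf (nat_lit 104873) (.g (nat_lit 2291) (.e (nat_lit 3711) (nat_lit 227) (.e (nat_lit 786176) (nat_lit 4) (.e (nat_lit 65628) (nat_lit 14) (.e (nat_lit 401437) (nat_lit 9) (.e (nat_lit 426542) (nat_lit 29) (.e (nat_lit 352264) (nat_lit 0) .nil)))))) (.g (nat_lit 5) .nil .nil)))) (.nd (nat_lit 5) 
(.lf (nat_lit 104857) (.g (nat_lit 1895) (.e (nat_lit 3703) (nat_lit 227) (.e (nat_lit 778465) (nat_lit 11) (.e (nat_lit 24628) (nat_lit 9) (.e (nat_lit 336443) (nat_lit 32) .nil)))) .nil)) 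
(.lf (nat_lit 104889) (.g (nat_lit 1047) (.e (nat_lit 3711) (nat_lit 227) (.e (nat_lit 786176) (nat_lit 5) (.e (nat_lit 73789) (nat_lit 45) (.e (nat_lit 1385) (nat_lit 105) (.e (nat_lit 311358) (nat_lit 29) (.e (nat_lit 352264) (nat_lit 0) .nil)))))) (.g (nat_lit 5) .nil .nil)))))) (.nd (nat_lit 3) (.nd (nat_lit 4) (.nd (nat_lit 5) 
(.lf (nat_lit 104837) (.g (nat_lit 2228) (.e (nat_lit 3693) (nat_lit 227) (.e (nat_lit 778466) (nat_lit 11) (.e (nat_lit 24604) (nat_lit 2) (.e (nat_lit 90185) (nat_lit 17) (.e (nat_lit 237601) (nat_lit 9) (.e (nat_lit 426438) (nat_lit 18) (.e (nat_lit 98323) (nat_lit 17) .nil))))))) (.g (nat_lit 5) .nil .nil))) 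
(.lf (nat_lit 104869) (.g (nat_lit 2695) (.e (nat_lit 3711) (nat_lit 227) (.e (nat_lit 786176) (nat_lit 3) (.e (nat_lit 57478) (nat_lit 28) (.e (nat_lit 557107) (nat_lit 15) (.e (nat_lit 188447) (nat_lit 22) (.e (nat_lit 196666) (nat_lit 13) (.e (nat_lit 65639) (nat_lit 15) .nil))))))) (.g (nat_lit 6) .nil .nil)))) (.nd (nat_lit 5) 
(.lf (nat_lit 104853) (.g (nat_lit 2052) (.e (nat_lit 3703) (nat_lit 227) (.e (nat_lit 778465) (nat_lit 11) (.e (nat_lit 24604) (nat_lit 2) (.e (nat_lit 90185) (nat_lit 17) (.e (nat_lit 237616) (nat_lit 12) .nil))))) .nil)) 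
(.lf (nat_lit 104885) (.g (nat_lit 625) (.e (nat_lit 3711) (nat_lit 227) (.e (nat_lit 778322) (nat_lit 5) (.e (nat_lit 73795) (nat_lit 47) (.e (nat_lit 123165) (nat_lit 256) (.e (nat_lit 318) (nat_lit 23) (.e (nat_lit 352264) (nat_lit 0) .nil)))))) (.g (nat_lit 0) .nil .nil))))) (.nd (nat_lit 4) (.nd (nat_lit 5) 
(.lf (nat_lit 104845) (.g (nat_lit 1903) (.e (nat_lit 3694) (nat_lit 227) (.e (nat_lit 778465) (nat_lit 11) (.e (nat_lit 24608) (nat_lit 3) (.e (nat_lit 98365) (nat_lit 26) (.e (nat_lit 426188) (nat_lit 9) (.e (nat_lit 426436) (nat_lit 18) (.e (nat_lit 98320) (nat_lit 17) .nil))))))) (.g (nat_lit 4) .nil .nil))) 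
(.lf (nat_lit 104877) (.g (nat_lit 631) (.e (nat_lit 3711) (nat_lit 227) (.e (nat_lit 778322) (nat_lit 5) (.e (nat_lit 73780) (nat_lit 32) (.e (nat_lit 2940) (nat_lit 184) (.e (nat_lit 426541) (nat_lit 29) (.e (nat_lit 352264) (nat_lit 0) .nil)))))) (.g (nat_lit 0) .nil .nil)))) (.nd (nat_lit 5) 
(.lf (nat_lit 104861) (.g (nat_lit 848) (.e (nat_lit 3703) (nat_lit 227) (.e (nat_lit 778466) (nat_lit 11) (.e (nat_lit 24608) (nat_lit 3) .nil))) .nil)) 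
(.lf (nat_lit 104893) (.g (nat_lit 916) (.e (nat_lit 3711) (nat_lit 227) (.e (nat_lit 778325) (nat_lit 6) (.e (nat_lit 81921) (nat_lit 0) (.e (nat_lit 3711) (nat_lit 227) (.e (nat_lit 778325) (nat_lit 6) (.e (nat_lit 81921) (nat_lit 0) .nil)))))) (.g (nat_lit 0) .nil .nil))))))) (.nd (nat_lit 2) (.nd (nat_lit 3) (.nd (nat_lit 4) (.nd (nat_lit 5) 
(.lf (nat_lit 104835) (.g (nat_lit 1997) (.e (nat_lit 3689) (nat_lit 227) (.e (nat_lit 778466) (nat_lit 11) (.e (nat_lit 24608) (nat_lit 3) (.e (nat_lit 98365) (nat_lit 26) (.e (nat_lit 426188) (nat_lit 9) .nil))))) .nil)) 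
(.lf (nat_lit 104867) (.g (nat_lit 3309) (.e (nat_lit 3711) (nat_lit 227) (.e (nat_lit 778240) (nat_lit 0) (.e (nat_lit 974) (nat_lit 81) (.e (nat_lit 1860) (nat_lit 124) (.e (nat_lit 557100) (nat_lit 13) (.e (nat_lit 172106) (nat_lit 10) (.e (nat_lit 434231) (nat_lit 23) (.e (nat_lit 532535) (nat_lit 9) (.e (nat_lit 336290) (nat_lit 15) .nil))))))))) (.g (nat_lit 8) .nil .nil)))) 
(.nd (nat_lit 5) 
(.lf (nat_lit 104851) (.g (nat_lit 1480) (.e (nat_lit 3703) (nat_lit 227) (.e (nat_lit 778465) (nat_lit 11) (.e (nat_lit 24604) (nat_lit 2) (.e (nat_lit 90185) (nat_lit 17) .nil)))) .nil)) 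
(.lf (nat_lit 104883) (.g (nat_lit 1110) (.e (nat_lit 3711) (nat_lit 227) (.e (nat_lit 778322) (nat_lit 5) (.e (nat_lit 73791) (nat_lit 45) (.e (nat_lit 1386) (nat_lit 105) (.e (nat_lit 311358) (nat_lit 29) (.e (nat_lit 352264) (nat_lit 0) .nil)))))) (.g (nat_lit 5) .nil .nil))))) (.nd (nat_lit 4) (.nd (nat_lit 5) 
(.lf (nat_lit 104843) (.g (nat_lit 2008) (.e (nat_lit 3694) (nat_lit 227) (.e (nat_lit 778465) (nat_lit 11) (.e (nat_lit 24604) (nat_lit 2) (.e (nat_lit 90185) (nat_lit 17) (.e (nat_lit 237605) (nat_lit 9) .nil))))) .nil)) 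
(.lf (nat_lit 104875) (.g (nat_lit 1841) (.e (nat_lit 3711) (nat_lit 227) (.e (nat_lit 786176) (nat_lit 4) (.e (nat_lit 65630) (nat_lit 14) (.e (nat_lit 401438) (nat_lit 9) (.e (nat_lit 426542) (nat_lit 29) (.e (nat_lit 352264) (nat_lit 0) .nil)))))) (.g (nat_lit 5) .nil .nil)))) (.nd (nat_lit 5) 
(.lf (nat_lit 104859) (.g (nat_lit 2106) (.e (nat_lit 3703) (nat_lit 227) (.e (nat_lit 778466) (nat_lit 11) (.e (nat_lit 24604) (nat_lit 2) (.e (nat_lit 90185) (nat_lit 17) (.e (nat_lit 237601) (nat_lit 9) .nil))))) .nil)) 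
(.lf (nat_lit 104891) (.g (nat_lit 1226) (.e (nat_lit 3711) (nat_lit 227) (.e (nat_lit 786176) (nat_lit 5) (.e (nat_lit 73792) (nat_lit 45) (.e (nat_lit 1386) (nat_lit 105) (.e (nat_lit 311358) (nat_lit 29) (.e (nat_lit 352264) (nat_lit 0) .nil)))))) (.g (nat_lit 5) .nil .nil)))))) (.nd (nat_lit 3) (.nd (nat_lit 4) (.nd (nat_lit 5) 
(.lf (nat_lit 104839) (.g (nat_lit 2456) (.e (nat_lit 3693) (nat_lit 227) (.e (nat_lit 778466) (nat_lit 11) (.e (nat_lit 24604) (nat_lit 2) (.e (nat_lit 90185) (nat_lit 17) (.e (nat_lit 237605) (nat_lit 9) (.e (nat_lit 426438) (nat_lit 18) (.e (nat_lit 98323) (nat_lit 17) .nil))))))) (.g (nat_lit 5) .nil .nil))) 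
(.lf (nat_lit 104871) (.g (nat_lit 3130) (.e (nat_lit 3711) (nat_lit 227) (.e (nat_lit 786176) (nat_lit 3) (.e (nat_lit 57478) (nat_lit 28) (.e (nat_lit 557109) (nat_lit 15) (.e (nat_lit 188452) (nat_lit 23) (.e (nat_lit 204855) (nat_lit 26) (.e (nat_lit 336290) (nat_lit 15) .nil))))))) (.g (nat_lit 6) .nil .nil)))) (.nd (nat_lit 5) 
(.lf (nat_lit 104855) (.g (nat_lit 2114) (.e (nat_lit 3703) (nat_lit 227) (.e (nat_lit 778465) (nat_lit 11) (.e (nat_lit 24604) (nat_lit 2) (.e (nat_lit 90185) (nat_lit 17) (.e (nat_lit 237619) (nat_lit 12) (.e (nat_lit 475179) (nat_lit 24) (.e (nat_lit 516105) (nat_lit 0) .nil))))))) (.g (nat_lit 4) .nil .nil))) 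
(.lf (nat_lit 104887) (.g (nat_lit 2133) (.e (nat_lit 3711) (nat_lit 227) (.e (nat_lit 786176) (nat_lit 5) (.e (nat_lit 73782) (nat_lit 32) (.e (nat_lit 2856) (nat_lit 184) (.e (nat_lit 426542) (nat_lit 29) (.e (nat_lit 352264) (nat_lit 0) .nil)))))) (.g (nat_lit 5) .nil .nil))))) (.nd (nat_lit 4) (.nd (nat_lit 5) 
(.lf (nat_lit 104847) (.g (nat_lit 506) (.e (nat_lit 3694) (nat_lit 227) (.e (nat_lit 778466) (nat_lit 11) (.e (nat_lit 24608) (nat_lit 3) .nil))) .nil)) 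
(.lf (nat_lit 104879) (.g (nat_lit 1620) (.e (nat_lit 3711) (nat_lit 227) (.e (nat_lit 778322) (nat_lit 5) (.e (nat_lit 73781) (nat_lit 32) (.e (nat_lit 3090) (nat_lit 191) (.e (nat_lit 483386) (nat_lit 23) (.e (nat_lit 336290) (nat_lit 15) .nil)))))) (.g (nat_lit 4) .nil .nil)))) (.nd (nat_lit 5) 
(.lf (nat_lit 104863) (.g (nat_lit 1997) (.e (nat_lit 3703) (nat_lit 227) (.e (nat_lit 778466) (nat_lit 11) (.e (nat_lit 24608) (nat_lit 3) (.e (nat_lit 98365) (nat_lit 26) (.e (nat_lit 426188) (nat_lit 9) .nil))))) .nil)) 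
(.lf (nat_lit 104895) (.g (nat_lit 840) (.e (nat_lit 3711) (nat_lit 227) (.e (nat_lit 778325) (nat_lit 6) (.e (nat_lit 81922) (nat_lit 0) (.e (nat_lit 3630) (nat_lit 227) (.e (nat_lit 778326) (nat_lit 6) (.e (nat_lit 81921) (nat_lit 0) .nil)))))) (.g (nat_lit 5) .nil .nil)))))))))

noncomputable def tv1434 : DT := (.nd (nat_lit 0) (.nd (nat_lit 1) (.nd (nat_lit 2) (.nd (nat_lit 3) (.nd (nat_lit 4) (.nd (nat_lit 5) 
(.lf (nat_lit 104896) (.g (nat_lit 1224) (.e (nat_lit 3711) (nat_lit 227) (.e (nat_lit 778325) (nat_lit 6) (.e (nat_lit 81924) (nat_lit 0) (.e (nat_lit 3631) (nat_lit 227) (.e (nat_lit 778326) (nat_lit 6) (.e (nat_lit 81921) (nat_lit 0) .nil)))))) (.g (nat_lit 0) .nil .nil))) 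
(.lf (nat_lit 104928) (.g (nat_lit 534) (.e (nat_lit 3714) (nat_lit 227) (.e (nat_lit 778322) (nat_lit 5) (.e (nat_lit 73794) (nat_lit 46) (.e (nat_lit 57862) (nat_lit 256) (.e (nat_lit 317) (nat_lit 23) (.e (nat_lit 352264) (nat_lit 0) .nil)))))) (.g (nat_lit 0) .nil .nil)))) (.nd (nat_lit 5) 
(.lf (nat_lit 104912) (.g (nat_lit 2330) (.e (nat_lit 3714) (nat_lit 227) (.e (nat_lit 786176) (nat_lit 3) (.e (nat_lit 57478) (nat_lit 28) (.e (nat_lit 557107) (nat_lit 15) (.e (nat_lit 188450) (nat_lit 23) (.e (nat_lit 204855) (nat_lit 26) (.e (nat_lit 336290) (nat_lit 15) .nil))))))) (.g (nat_lit 6) .nil .nil))) 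
(.lf (nat_lit 104944) (.g (nat_lit 561) (.e (nat_lit 3714) (nat_lit 227) (.e (nat_lit 778325) (nat_lit 6) (.e (nat_lit 81921) (nat_lit 0) (.e (nat_lit 3716) (nat_lit 227) (.e (nat_lit 778325) (nat_lit 6) (.e (nat_lit 81921) (nat_lit 0) .nil)))))) (.g (nat_lit 0) .nil .nil))))) (.nd (nat_lit 4) (.nd (nat_lit 5) 
(.lf (nat_lit 104904) (.g (nat_lit 1230) (.e (nat_lit 3711) (nat_lit 227) (.e (nat_lit 786176) (nat_lit 6) (.e (nat_lit 81935) (nat_lit 20) (.e (nat_lit 1999) (nat_lit 137) (.e (nat_lit 663569) (nat_lit 6) (.e (nat_lit 81921) (nat_lit 0) .nil)))))) (.g (nat_lit 5) .nil .nil))) 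
(.lf (nat_lit 104936) (.g (nat_lit 1064) (.e (nat_lit 3714) (nat_lit 227) (.e (nat_lit 786176) (nat_lit 5) (.e (nat_lit 73789) (nat_lit 45) (.e (nat_lit 1385) (nat_lit 105) (.e (nat_lit 311358) (nat_lit 29) (.e (nat_lit 352264) (nat_lit 0) .nil)))))) (.g (nat_lit 5) .nil .nil)))) (.nd (nat_lit 5) 
(.lf (nat_lit 104920) (.g (nat_lit 1546) (.e (nat_lit 3714) (nat_lit 227) (.e (nat_lit 778322) (nat_lit 5) (.e (nat_lit 73781) (nat_lit 32) (.e (nat_lit 3090) (nat_lit 191) (.e (nat_lit 483386) (nat_lit 23) (.e (nat_lit 336290) (nat_lit 15) .nil)))))) (.g (nat_lit 4) .nil .nil))) 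
(.lf (nat_lit 104952) (.g (nat_lit 1057) (.e (nat_lit 3714) (nat_lit 227) (.e (nat_lit 778325) (nat_lit 6) (.e (nat_lit 81943) (nat_lit 20) (.e (nat_lit 2006) (nat_lit 138) (.e (nat_lit 671764) (nat_lit 6) (.e (nat_lit 81921) (nat_lit 0) .nil)))))) (.g (nat_lit 0) .nil .nil)))))) (.nd (nat_lit 3) (.nd (nat_lit 4) (.nd (nat_lit 5) 
(.lf (nat_lit 104900) (.g (nat_lit 2258) (.e (nat_lit 3711) (nat_lit 227) (.e (nat_lit 778325) (nat_lit 6) (.e (nat_lit 81948) (nat_lit 21) (.e (nat_lit 57872) (nat_lit 264) (.e (nat_lit 1219) (nat_lit 90) (.e (nat_lit 81921) (nat_lit 0) .nil)))))) (.g (nat_lit 0) .nil .nil))) 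
(.lf (nat_lit 104932) (.g (nat_lit 550) (.e (nat_lit 3714) (nat_lit 227) (.e (nat_lit 778322) (nat_lit 5) (.e (nat_lit 73795) (nat_lit 47) (.e (nat_lit 123166) (nat_lit 256) (.e (nat_lit 318) (nat_lit 23) (.e (nat_lit 352264) (nat_lit 0) .nil)))))) (.g (nat_lit 0) .nil .nil)))) (.nd (nat_lit 5) 
(.lf (nat_lit 104916) (.g (nat_lit 2151) (.e (nat_lit 3714) (nat_lit 227) (.e (nat_lit 778319) (nat_lit 4) (.e (nat_lit 65630) (nat_lit 14) (.e (nat_lit 401459) (nat_lit 13) (.e (nat_lit 483386) (nat_lit 23) (.e (nat_lit 336290) (nat_lit 15) .nil)))))) (.g (nat_lit 0) .nil .nil))) 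
(.lf (nat_lit 104948) (.g (nat_lit 1320) (.e (nat_lit 3714) (nat_lit 227) (.e (nat_lit 778325) (nat_lit 6) (.e (nat_lit 81935) (nat_lit 20) (.e (nat_lit 1998) (nat_lit 137) (.e (nat_lit 663569) (nat_lit 6) (.e (nat_lit 81921) (nat_lit 0) .nil)))))) (.g (nat_lit 0) .nil .nil))))) (.nd (nat_lit 4) (.nd (nat_lit 5) 
(.lf (nat_lit 104908) (.g (nat_lit 3248) (.e (nat_lit 3714) (nat_lit 227) (.e (nat_lit 778240) (nat_lit 0) (.e (nat_lit 974) (nat_lit 81) (.e (nat_lit 1860) (nat_lit 124) (.e (nat_lit 557100) (nat_lit 13) (.e (nat_lit 172106) (nat_lit 10) (.e (nat_lit 434231) (nat_lit 23) (.e (nat_lit 532535) (nat_lit 9) (.e (nat_lit 336290) (nat_lit 15) .nil))))))))) (.g (nat_lit 8) .nil .nil))) 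
(.lf (nat_lit 104940) (.g (nat_lit 498) (.e (nat_lit 3714) (nat_lit 227) (.e (nat_lit 778325) (nat_lit 6) (.e (nat_lit 81920) (nat_lit 0) (.e (nat_lit 3715) (nat_lit 227) (.e (nat_lit 778325) (nat_lit 6) (.e (nat_lit 81921) (nat_lit 0) .nil)))))) (.g (nat_lit 4) .nil .nil)))) (.nd (nat_lit 5) 
(.lf (nat_lit 104924) (.g (nat_lit 536) (.e (nat_lit 3714) (nat_lit 227) (.e (nat_lit 778322) (nat_lit 5) (.e (nat_lit 73787) (nat_lit 45) (.e (nat_lit 1378) (nat_lit 104) (.e (nat_lit 303155) (nat_lit 29) (.e (nat_lit 352264) (nat_lit 0) .nil)))))) (.g (nat_lit 0) .nil .nil))) 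
(.lf (nat_lit 104956) (.g (nat_lit 1566) (.e (nat_lit 3714) (nat_lit 227) (.e (nat_lit 778325) (nat_lit 6) (.e (nat_lit 81950) (nat_lit 21) (.e (nat_lit 57870) (nat_lit 264) (.e (nat_lit 1219) (nat_lit 90) (.e (nat_lit 81921) (nat_lit 0) .nil)))))) (.g (nat_lit 5) .nil .nil))))))) (.nd (nat_lit 2) (.nd (nat_lit 3) (.nd (nat_lit 4) (.nd (nat_lit 5) 
(.lf (nat_lit 104898) (.g (nat_lit 1370) (.e (nat_lit 3711) (nat_lit 227) (.e (nat_lit 778325) (nat_lit 6) (.e (nat_lit 81947) (nat_lit 20) (.e (nat_lit 2005) (nat_lit 138) (.e (nat_lit 671764) (nat_lit 6) (.e (nat_lit 81921) (nat_lit 0) .nil)))))) (.g (nat_lit 5) .nil .nil))) 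
(.lf (nat_lit 104930) (.g (nat_lit 479) (.e (nat_lit 3714) (nat_lit 227) (.e (nat_lit 778322) (nat_lit 5) (.e (nat_lit 73795) (nat_lit 47) (.e (nat_lit 123163) (nat_lit 256) (.e (nat_lit 318) (nat_lit 23) (.e (nat_lit 352264) (nat_lit 0) .nil)))))) (.g (nat_lit 0) .nil .nil)))) (.nd (nat_lit 5) 
(.lf (nat_lit 104914) (.g (nat_lit 2176) (.e (nat_lit 3714) (nat_lit 227) (.e (nat_lit 778319) (nat_lit 4) (.e (nat_lit 65624) (nat_lit 12) (.e (nat_lit 385094) (nat_lit 49) (.e (nat_lit 778326) (nat_lit 6) (.e (nat_lit 81921) (nat_lit 0) .nil)))))) (.g (nat_lit 5) .nil .nil))) 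
(.lf (nat_lit 104946) (.g (nat_lit 1114) (.e (nat_lit 3714) (nat_lit 227) (.e (nat_lit 778325) (nat_lit 6) (.e (nat_lit 81924) (nat_lit 0) (.e (nat_lit 3631) (nat_lit 227) (.e (nat_lit 778326) (nat_lit 6) (.e (nat_lit 81921) (nat_lit 0) .nil)))))) (.g (nat_lit 0) .nil .nil))))) (.nd (nat_lit 4) (.nd (nat_lit 5) 
(.lf (nat_lit 104906) (.g (nat_lit 1312) (.e (nat_lit 3711) (nat_lit 227) (.e (nat_lit 778337) (nat_lit 9) (.e (nat_lit 301) (nat_lit 22) (.e (nat_lit 344119) (nat_lit 21) (.e (nat_lit 516175) (nat_lit 14) (.e (nat_lit 474880) (nat_lit 3) (.e (nat_lit 98325) (nat_lit 17) .nil))))))) (.g (nat_lit 4) .nil .nil))) 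
(.lf (nat_lit 104938) (.g (nat_lit 920) (.e (nat_lit 3714) (nat_lit 227) (.e (nat_lit 786176) (nat_lit 5) (.e (nat_lit 73792) (nat_lit 45) (.e (nat_lit 1385) (nat_lit 105) (.e (nat_lit 311358) (nat_lit 29) (.e (nat_lit 352264) (nat_lit 0) .nil)))))) (.g (nat_lit 5) .nil .nil)))) (.nd (nat_lit 5) 
(.lf (nat_lit 104922) (.g (nat_lit 2394) (.e (nat_lit 3714) (nat_lit 227) (.e (nat_lit 778322) (nat_lit 5) (.e (nat_lit 73782) (nat_lit 32) (.e (nat_lit 2856) (nat_lit 184) (.e (nat_lit 426542) (nat_lit 29) (.e (nat_lit 352264) (nat_lit 0) .nil)))))) (.g (nat_lit 0) .nil .nil))) 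
(.lf (nat_lit 104954) (.g (nat_lit 1399) (.e (nat_lit 3714) (nat_lit 227) (.e (nat_lit 778325) (nat_lit 6) (.e (nat_lit 81948) (nat_lit 21) (.e (nat_lit 57870) (nat_lit 264) (.e (nat_lit 1219) (nat_lit 90) (.e (nat_lit 81921) (nat_lit 0) .nil)))))) (.g (nat_lit 0) .nil .nil)))))) (.nd (nat_lit 3) (.nd (nat_lit 4) (.nd (nat_lit 5) 
(.lf (nat_lit 104902) (.g (nat_lit 1433) (.e (nat_lit 3711) (nat_lit 227) (.e (nat_lit 778325) (nat_lit 6) (.e (nat_lit 81950) (nat_lit 21) (.e (nat_lit 57871) (nat_lit 264) (.e (nat_lit 1219) (nat_lit 90) (.e (nat_lit 81921) (nat_lit 0) .nil)))))) (.g (nat_lit 5) .nil .nil))) 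
(.lf (nat_lit 104934) (.g (nat_lit 2184) (.e (nat_lit 3714) (nat_lit 227) (.e (nat_lit 786176) (nat_lit 5) (.e (nat_lit 73782) (nat_lit 32) (.e (nat_lit 2856) (nat_lit 184) (.e (nat_lit 426542) (nat_lit 29) (.e (nat_lit 352264) (nat_lit 0) .nil)))))) (.g (nat_lit 5) .nil .nil)))) (.nd (nat_lit 5) 
(.lf (nat_lit 104918) (.g (nat_lit 578) (.e (nat_lit 3714) (nat_lit 227) (.e (nat_lit 778322) (nat_lit 5) (.e (nat_lit 73780) (nat_lit 32) (.e (nat_lit 2936) (nat_lit 184) (.e (nat_lit 426541) (nat_lit 29) (.e (nat_lit 352264) (nat_lit 0) .nil)))))) (.g (nat_lit 0) .nil .nil))) 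
(.lf (nat_lit 104950) (.g (nat_lit 1030) (.e (nat_lit 3714) (nat_lit 227) (.e (nat_lit 778325) (nat_lit 6) (.e (nat_lit 81943) (nat_lit 20) (.e (nat_lit 2003) (nat_lit 138) (.e (nat_lit 671764) (nat_lit 6) (.e (nat_lit 81921) (nat_lit 0) .nil)))))) (.g (nat_lit 0) .nil .nil))))) (.nd (nat_lit 4) (.nd (nat_lit 5) 
(.lf (nat_lit 104910) (.g (nat_lit 2879) (.e (nat_lit 3714) (nat_lit 227) (.e (nat_lit 778316) (nat_lit 3) (.e (nat_lit 57477) (nat_lit 28) (.e (nat_lit 557097) (nat_lit 13) (.e (nat_lit 172097) (nat_lit 9) (.e (nat_lit 426140) (nat_lit 3) (.e (nat_lit 204855) (nat_lit 26) (.e (nat_lit 336290) (nat_lit 15) .nil)))))))) (.g (nat_lit 0) .nil .nil))) 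
(.lf (nat_lit 104942) (.g (nat_lit 716) (.e (nat_lit 3714) (nat_lit 227) (.e (nat_lit 778325) (nat_lit 6) (.e (nat_lit 81921) (nat_lit 0) (.e (nat_lit 3714) (nat_lit 227) (.e (nat_lit 778325) (nat_lit 6) (.e (nat_lit 81921) (nat_lit 0) .nil)))))) (.g (nat_lit 0) .nil .nil)))) (.nd (nat_lit 5) 
(.lf (nat_lit 104926) (.g (nat_lit 1301) (.e (nat_lit 3714) (nat_lit 227) (.e (nat_lit 778322) (nat_lit 5) (.e (nat_lit 73789) (nat_lit 45) (.e (nat_lit 1385) (nat_lit 105) (.e (nat_lit 311358) (nat_lit 29) (.e (nat_lit 352264) (nat_lit 0) .nil)))))) (.g (nat_lit 0) .nil .nil))) 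
(.lf (nat_lit 104958) (.g (nat_lit 3010) (.e (nat_lit 3714) (nat_lit 227) (.e (nat_lit 778325) (nat_lit 6) (.e (nat_lit 81957) (nat_lit 24) (.e (nat_lit 123182) (nat_lit 264) (.e (nat_lit 1222) (nat_lit 90) (.e (nat_lit 81921) (nat_lit 0) .nil)))))) (.g (nat_lit 0) .nil .nil)))))))) (.nd (nat_lit 1) (.nd (nat_lit 2) (.nd (nat_lit 3) (.nd (nat_lit 4) (.nd (nat_lit 5) 
(.lf (nat_lit 104897) (.g (nat_lit 1157) (.e (nat_lit 3711) (nat_lit 227) (.e (nat_lit 778325) (nat_lit 6) (.e (nat_lit 81943) (nat_lit 20) (.e (nat_lit 2006) (nat_lit 138) (.e (nat_lit 671764) (nat_lit 6) (.e (nat_lit 81921) (nat_lit 0) .nil)))))) (.g (nat_lit 0) .nil .nil))) 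
(.lf (nat_lit 104929) (.g (nat_lit 539) (.e (nat_lit 3714) (nat_lit 227) (.e (nat_lit 778322) (nat_lit 5) (.e (nat_lit 73794) (nat_lit 46) (.e (nat_lit 57864) (nat_lit 256) (.e (nat_lit 317) (nat_lit 23) (.e (nat_lit 352264) (nat_lit 0) .nil)))))) (.g (nat_lit 0) .nil .nil)))) (.nd (nat_lit 5) 
(.lf (nat_lit 104913) (.g (nat_lit 3151) (.e (nat_lit 3714) (nat_lit 227) (.e (nat_lit 786176) (nat_lit 3) (.e (nat_lit 57478) (nat_lit 28) (.e (nat_lit 557109) (nat_lit 15) (.e (nat_lit 188452) (nat_lit 23) (.e (nat_lit 204855) (nat_lit 26) (.e (nat_lit 336290) (nat_lit 15) .nil))))))) (.g (nat_lit 6) .nil .nil))) 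
(.lf (nat_lit 104945) (.g (nat_lit 747) (.e (nat_lit 3714) (nat_lit 227) (.e (nat_lit 778325) (nat_lit 6) (.e (nat_lit 81922) (nat_lit 0) (.e (nat_lit 3630) (nat_lit 227) (.e (nat_lit 778326) (nat_lit 6) (.e (nat_lit 81921) (nat_lit 0) .nil)))))) (.g (nat_lit 5) .nil .nil))))) (.nd (nat_lit 4) (.nd (nat_lit 5) 
(.lf (nat_lit 104905) (.g (nat_lit 1725) (.e (nat_lit 3711) (nat_lit 227) (.e (nat_lit 778334) (nat_lit 9) (.e (nat_lit 306) (nat_lit 22) (.e (nat_lit 344117) (nat_lit 21) (.e (nat_lit 516176) (nat_lit 14) (.e (nat_lit 474880) (nat_lit 3) (.e (nat_lit 98325) (nat_lit 17) .nil))))))) (.g (nat_lit 5) .nil .nil))) 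
(.lf (nat_lit 104937) (.g (nat_lit 1003) (.e (nat_lit 3714) (nat_lit 227) (.e (nat_lit 786176) (nat_lit 5) (.e (nat_lit 73789) (nat_lit 45) (.e (nat_lit 1386) (nat_lit 105) (.e (nat_lit 311358) (nat_lit 29) (.e (nat_lit 352264) (nat_lit 0) .nil)))))) (.g (nat_lit 5) .nil .nil)))) (.nd (nat_lit 5) 
(.lf (nat_lit 104921) (.g (nat_lit 1388) (.e (nat_lit 3714) (nat_lit 227) (.e (nat_lit 778322) (nat_lit 5) (.e (nat_lit 73782) (nat_lit 32) (.e (nat_lit 2854) (nat_lit 184) (.e (nat_lit 426542) (nat_lit 29) (.e (nat_lit 352264) (nat_lit 0) .nil)))))) (.g (nat_lit 0) .nil .nil))) 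
(.lf (nat_lit 104953) (.g (nat_lit 1445) (.e (nat_lit 3714) (nat_lit 227) (.e (nat_lit 778325) (nat_lit 6) (.e (nat_lit 81947) (nat_lit 20) (.e (nat_lit 2006) (nat_lit 138) (.e (nat_lit 671764) (nat_lit 6) (.e (nat_lit 81921) (nat_lit 0) .nil)))))) (.g (nat_lit 5) .nil .nil)))))) (.nd (nat_lit 3) (.nd (nat_lit 4) (.nd (nat_lit 5) 
(.lf (nat_lit 104901) (.g (nat_lit 1665) (.e (nat_lit 3711) (nat_lit 227) (.e (nat_lit 778325) (nat_lit 6) (.e (nat_lit 81950) (nat_lit 21) (.e (nat_lit 57870) (nat_lit 264) (.e (nat_lit 1219) (nat_lit 90) (.e (nat_lit 81921) (nat_lit 0) .nil)))))) (.g (nat_lit 5) .nil .nil))) 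
(.lf (nat_lit 104933) (.g (nat_lit 2120) (.e (nat_lit 3714) (nat_lit 227) (.e (nat_lit 786176) (nat_lit 5) (.e (nat_lit 73781) (nat_lit 32) (.e (nat_lit 2856) (nat_lit 184) (.e (nat_lit 426542) (nat_lit 29) (.e (nat_lit 352264) (nat_lit 0) .nil)))))) (.g (nat_lit 5) .nil .nil)))) (.nd (nat_lit 5) 
(.lf (nat_lit 104917) (.g (nat_lit 1762) (.e (nat_lit 3714) (nat_lit 227) (.e (nat_lit 786176) (nat_lit 4) (.e (nat_lit 65628) (nat_lit 14) (.e (nat_lit 401438) (nat_lit 9) (.e (nat_lit 426542) (nat_lit 29) (.e (nat_lit 352264) (nat_lit 0) .nil)))))) (.g (nat_lit 5) .nil .nil))) 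
(.lf (nat_lit 104949) (.g (nat_lit 1353) (.e (nat_lit 3714) (nat_lit 227) (.e (nat_lit 778325) (nat_lit 6) (.e (nat_lit 81935) (nat_lit 20) (.e (nat_lit 1999) (nat_lit 137) (.e (nat_lit 663569) (nat_lit 6) (.e (nat_lit 81921) (nat_lit 0) .nil)))))) (.g (nat_lit 0) .nil .nil))))) (.nd (nat_lit 4) (.nd (nat_lit 5) 
(.lf (nat_lit 104909) (.g (nat_lit 610) (.e (nat_lit 3714) (nat_lit 227) (.e (nat_lit 778279) (nat_lit 0) (.e (nat_lit 1454) (nat_lit 108) (.e (nat_lit 336057) (nat_lit 7) .nil)))) .nil)) 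
(.lf (nat_lit 104941) (.g (nat_lit 815) (.e (nat_lit 3714) (nat_lit 227) (.e (nat_lit 778325) (nat_lit 6) (.e (nat_lit 81921) (nat_lit 0) (.e (nat_lit 3711) (nat_lit 227) (.e (nat_lit 778325) (nat_lit 6) (.e (nat_lit 81921) (nat_lit 0) .nil)))))) (.g (nat_lit 0) .nil .nil)))) (.nd (nat_lit 5) 
(.lf (nat_lit 104925) (.g (nat_lit 925) (.e (nat_lit 3714) (nat_lit 227) (.e (nat_lit 778322) (nat_lit 5) (.e (nat_lit 73789) (nat_lit 45) (.e (nat_lit 1383) (nat_lit 105) (.e (nat_lit 311358) (nat_lit 29) (.e (nat_lit 352264) (nat_lit 0) .nil)))))) (.g (nat_lit 0) .nil .nil))) 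
(.lf (nat_lit 104957) (.g (nat_lit 1337) (.e (nat_lit 3714) (nat_lit 227) (.e (nat_lit 778325) (nat_lit 6) (.e (nat_lit 81950) (nat_lit 21) (.e (nat_lit 57871) (nat_lit 264) (.e (nat_lit 1219) (nat_lit 90) (.e (nat_lit 81921) (nat_lit 0) .nil)))))) (.g (nat_lit 5) .nil .nil))))))) (.nd (nat_lit 2) (.nd (nat_lit 3) (.nd (nat_lit 4) (.nd (nat_lit 5) 
(.lf (nat_lit 104899) (.g (nat_lit 1546) (.e (nat_lit 3711) (nat_lit 227) (.e (nat_lit 778325) (nat_lit 6) (.e (nat_lit 81947) (nat_lit 20) (.e (nat_lit 2006) (nat_lit 138) (.e (nat_lit 671764) (nat_lit 6) (.e (nat_lit 81921) (nat_lit 0) .nil)))))) (.g (nat_lit 5) .nil .nil))) 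
(.lf (nat_lit 104931) (.g (nat_lit 531) (.e (nat_lit 3714) (nat_lit 227) (.e (nat_lit 778322) (nat_lit 5) (.e (nat_lit 73795) (nat_lit 47) (.e (nat_lit 123165) (nat_lit 256) (.e (nat_lit 318) (nat_lit 23) (.e (nat_lit 352264) (nat_lit 0) .nil)))))) (.g (nat_lit 0) .nil .nil)))) (.nd (nat_lit 5) 
(.lf (nat_lit 104915) (.g (nat_lit 2298) (.e (nat_lit 3714) (nat_lit 227) (.e (nat_lit 778319) (nat_lit 4) (.e (nat_lit 65630) (nat_lit 14) (.e (nat_lit 401438) (nat_lit 9) (.e (nat_lit 426542) (nat_lit 29) (.e (nat_lit 352264) (nat_lit 0) .nil)))))) (.g (nat_lit 0) .nil .nil))) 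
(.lf (nat_lit 104947) (.g (nat_lit 1288) (.e (nat_lit 3714) (nat_lit 227) (.e (nat_lit 778325) (nat_lit 6) (.e (nat_lit 81935) (nat_lit 20) (.e (nat_lit 1994) (nat_lit 137) (.e (nat_lit 663569) (nat_lit 6) (.e (nat_lit 81921) (nat_lit 0) .nil)))))) (.g (nat_lit 0) .nil .nil))))) (.nd (nat_lit 4) (.nd (nat_lit 5) 
(.lf (nat_lit 104907) (.g (nat_lit 1799) (.e (nat_lit 3711) (nat_lit 227) (.e (nat_lit 778337) (nat_lit 9) (.e (nat_lit 306) (nat_lit 22) (.e (nat_lit 344117) (nat_lit 21) (.e (nat_lit 516176) (nat_lit 14) (.e (nat_lit 474880) (nat_lit 3) (.e (nat_lit 98325) (nat_lit 17) .nil))))))) (.g (nat_lit 5) .nil .nil))) 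
(.lf (nat_lit 104939) (.g (nat_lit 1237) (.e (nat_lit 3714) (nat_lit 227) (.e (nat_lit 786176) (nat_lit 5) (.e (nat_lit 73792) (nat_lit 45) (.e (nat_lit 1386) (nat_lit 105) (.e (nat_lit 311358) (nat_lit 29) (.e (nat_lit 352264) (nat_lit 0) .nil)))))) (.g (nat_lit 5) .nil .nil)))) (.nd (nat_lit 5) 
(.lf (nat_lit 104923) (.g (nat_lit 917) (.e (nat_lit 3714) (nat_lit 227) (.e (nat_lit 778322) (nat_lit 5) (.e (nat_lit 73787) (nat_lit 45) (.e (nat_lit 1374) (nat_lit 104) (.e (nat_lit 303155) (nat_lit 29) (.e (nat_lit 352264) (nat_lit 0) .nil)))))) (.g (nat_lit 0) .nil .nil))) 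
(.lf (nat_lit 104955) (.g (nat_lit 2154) (.e (nat_lit 3714) (nat_lit 227) (.e (nat_lit 778325) (nat_lit 6) (.e (nat_lit 81948) (nat_lit 21) (.e (nat_lit 57872) (nat_lit 264) (.e (nat_lit 1219) (nat_lit 90) (.e (nat_lit 81921) (nat_lit 0) .nil)))))) (.g (nat_lit 0) .nil .nil)))))) (.nd (nat_lit 3) (.nd (nat_lit 4) (.nd (nat_lit 5) 
(.lf (nat_lit 104903) (.g (nat_lit 1154) (.e (nat_lit 3711) (nat_lit 227) (.e (nat_lit 786176) (nat_lit 6) (.e (nat_lit 81935) (nat_lit 20) (.e (nat_lit 1994) (nat_lit 137) (.e (nat_lit 663569) (nat_lit 6) (.e (nat_lit 81921) (nat_lit 0) .nil)))))) (.g (nat_lit 5) .nil .nil))) 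
(.lf (nat_lit 104935) (.g (nat_lit 1533) (.e (nat_lit 3714) (nat_lit 227) (.e (nat_lit 786176) (nat_lit 5) (.e (nat_lit 73782) (nat_lit 32) (.e (nat_lit 3090) (nat_lit 191) (.e (nat_lit 483386) (nat_lit 23) (.e (nat_lit 336290) (nat_lit 15) .nil)))))) (.g (nat_lit 5) .nil .nil)))) (.nd (nat_lit 5) 
(.lf (nat_lit 104919) (.g (nat_lit 529) (.e (nat_lit 3714) (nat_lit 227) (.e (nat_lit 778322) (nat_lit 5) (.e (nat_lit 73780) (nat_lit 32) (.e (nat_lit 2940) (nat_lit 184) (.e (nat_lit 426541) (nat_lit 29) (.e (nat_lit 352264) (nat_lit 0) .nil)))))) (.g (nat_lit 0) .nil .nil))) 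
(.lf (nat_lit 104951) (.g (nat_lit 1033) (.e (nat_lit 3714) (nat_lit 227) (.e (nat_lit 778325) (nat_lit 6) (.e (nat_lit 81943) (nat_lit 20) (.e (nat_lit 2005) (nat_lit 138) (.e (nat_lit 671764) (nat_lit 6) (.e (nat_lit 81921) (nat_lit 0) .nil)))))) (.g (nat_lit 0) .nil .nil))))) (.nd (nat_lit 4) (.nd (nat_lit 5) 
(.lf (nat_lit 104911) (.g (nat_lit 3601) (.e (nat_lit 3714) (nat_lit 227) (.e (nat_lit 778316) (nat_lit 3) (.e (nat_lit 57480) (nat_lit 28) (.e (nat_lit 557109) (nat_lit 15) (.e (nat_lit 188452) (nat_lit 23) (.e (nat_lit 204855) (nat_lit 26) (.e (nat_lit 336290) (nat_lit 15) .nil))))))) (.g (nat_lit 0) .nil .nil))) 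
(.lf (nat_lit 104943) (.g (nat_lit 794) (.e (nat_lit 3714) (nat_lit 227) (.e (nat_lit 778325) (nat_lit 6) (.e (nat_lit 81921) (nat_lit 0) (.e (nat_lit 3715) (nat_lit 227) (.e (nat_lit 778325) (nat_lit 6) (.e (nat_lit 81921) (nat_lit 0) .nil)))))) (.g (nat_lit 0) .nil .nil)))) (.nd (nat_lit 5) 
(.lf (nat_lit 104927) (.g (nat_lit 1240) (.e (nat_lit 3714) (nat_lit 227) (.e (nat_lit 778322) (nat_lit 5) (.e (nat_lit 73789) (nat_lit 45) (.e (nat_lit 1386) (nat_lit 105) (.e (nat_lit 311358) (nat_lit 29) (.e (nat_lit 352264) (nat_lit 0) .nil)))))) (.g (nat_lit 0) .nil .nil))) 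
(.lf (nat_lit 104959) (.g (nat_lit 2166) (.e (nat_lit 3714) (nat_lit 227) (.e (nat_lit 778325) (nat_lit 6) (.e (nat_lit 81957) (nat_lit 24) (.e (nat_lit 123183) (nat_lit 264) (.e (nat_lit 1222) (nat_lit 90) (.e (nat_lit 81921) (nat_lit 0) .nil)))))) (.g (nat_lit 0) .nil .nil)))))))))

noncomputable def tv1435 : DT := (.nd (nat_lit 0) (.nd (nat_lit 1) (.nd (nat_lit 2) (.nd (nat_lit 3) (.nd (nat_lit 4) (.nd (nat_lit 5) 
(.lf (nat_lit 104960) (.g (nat_lit 2812) (.e (nat_lit 3714) (nat_lit 227) (.e (nat_lit 778325) (nat_lit 6) (.e (nat_lit 81957) (nat_lit 24) (.e (nat_lit 123184) (nat_lit 264) (.e (nat_lit 1222) (nat_lit 90) (.e (nat_lit 81921) (nat_lit 0) .nil)))))) (.g (nat_lit 0) .nil .nil))) 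
(.lf (nat_lit 104992) (.g (nat_lit 728) (.e (nat_lit 3716) (nat_lit 227) (.e (nat_lit 778322) (nat_lit 5) (.e (nat_lit 73788) (nat_lit 45) (.e (nat_lit 1385) (nat_lit 105) (.e (nat_lit 311358) (nat_lit 29) (.e (nat_lit 352264) (nat_lit 0) .nil)))))) (.g (nat_lit 5) .nil .nil)))) (.nd (nat_lit 5) 
(.lf (nat_lit 104976) (.g (nat_lit 1608) (.e (nat_lit 3715) (nat_lit 227) (.e (nat_lit 778325) (nat_lit 6) (.e (nat_lit 81948) (nat_lit 21) (.e (nat_lit 57870) (nat_lit 264) (.e (nat_lit 1219) (nat_lit 90) (.e (nat_lit 81920) (nat_lit 0) .nil)))))) (.g (nat_lit 6) .nil .nil))) 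
(.lf (nat_lit 105008) (.g (nat_lit 1699) (.e (nat_lit 3720) (nat_lit 227) (.e (nat_lit 778466) (nat_lit 11) (.e (nat_lit 24604) (nat_lit 2) (.e (nat_lit 90185) (nat_lit 17) (.e (nat_lit 237605) (nat_lit 9) (.e (nat_lit 426436) (nat_lit 18) (.e (nat_lit 98323) (nat_lit 17) .nil))))))) (.g (nat_lit 4) .nil .nil))))) (.nd (nat_lit 4) (.nd (nat_lit 5) 
(.lf (nat_lit 104968) (.g (nat_lit 1610) (.e (nat_lit 3715) (nat_lit 227) (.e (nat_lit 778322) (nat_lit 5) (.e (nat_lit 73781) (nat_lit 32) (.e (nat_lit 3090) (nat_lit 191) (.e (nat_lit 483386) (nat_lit 23) (.e (nat_lit 336290) (nat_lit 15) .nil)))))) (.g (nat_lit 4) .nil .nil))) 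
(.lf (nat_lit 105000) (.g (nat_lit 2619) (.e (nat_lit 3716) (nat_lit 227) (.e (nat_lit 778325) (nat_lit 6) (.e (nat_lit 81957) (nat_lit 24) (.e (nat_lit 123195) (nat_lit 266) (.e (nat_lit 57423) (nat_lit 14) (.e (nat_lit 352258) (nat_lit 0) .nil)))))) (.g (nat_lit 5) .nil .nil)))) (.nd (nat_lit 5) 
(.lf (nat_lit 104984) (.g (nat_lit 2591) (.e (nat_lit 3715) (nat_lit 227) (.e (nat_lit 778325) (nat_lit 6) (.e (nat_lit 81959) (nat_lit 24) (.e (nat_lit 123184) (nat_lit 264) (.e (nat_lit 1222) (nat_lit 90) (.e (nat_lit 81921) (nat_lit 0) .nil)))))) (.g (nat_lit 6) .nil .nil))) 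
(.lf (nat_lit 105016) (.g (nat_lit 683) (.e (nat_lit 3721) (nat_lit 227) (.e (nat_lit 778465) (nat_lit 11) (.e (nat_lit 24604) (nat_lit 2) .nil))) .nil))))) (.nd (nat_lit 3) (.nd (nat_lit 4) (.nd (nat_lit 5) 
(.lf (nat_lit 104964) (.g (nat_lit 1876) (.e (nat_lit 3715) (nat_lit 227) (.e (nat_lit 786176) (nat_lit 4) (.e (nat_lit 65630) (nat_lit 14) (.e (nat_lit 401436) (nat_lit 9) (.e (nat_lit 426542) (nat_lit 29) (.e (nat_lit 352264) (nat_lit 0) .nil)))))) (.g (nat_lit 5) .nil .nil))) 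
(.lf (nat_lit 104996) (.g (nat_lit 405) (.e (nat_lit 3716) (nat_lit 227) (.e (nat_lit 778322) (nat_lit 5) (.e (nat_lit 73789) (nat_lit 45) (.e (nat_lit 1384) (nat_lit 105) (.e (nat_lit 319232) (nat_lit 29) .nil))))) .nil))) (.nd (nat_lit 5) 
(.lf (nat_lit 104980) (.g (nat_lit 1635) (.e (nat_lit 3715) (nat_lit 227) (.e (nat_lit 778325) (nat_lit 6) (.e (nat_lit 81950) (nat_lit 21) (.e (nat_lit 57870) (nat_lit 264) (.e (nat_lit 1219) (nat_lit 90) (.e (nat_lit 81921) (nat_lit 0) .nil)))))) (.g (nat_lit 5) .nil .nil))) 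
(.lf (nat_lit 105012) (.g (nat_lit 3805) (.e (nat_lit 3720) (nat_lit 227) (.e (nat_lit 778466) (nat_lit 11) (.e (nat_lit 24608) (nat_lit 3) (.e (nat_lit 98365) (nat_lit 26) (.e (nat_lit 426306) (nat_lit 12) (.e (nat_lit 475179) (nat_lit 24) (.e (nat_lit 516102) (nat_lit 0) .nil))))))) (.g (nat_lit 7) .nil .nil))))) (.nd (nat_lit 4) (.nd (nat_lit 5) 
(.lf (nat_lit 104972) (.g (nat_lit 1446) (.e (nat_lit 3715) (nat_lit 227) (.e (nat_lit 778325) (nat_lit 6) (.e (nat_lit 81947) (nat_lit 20) (.e (nat_lit 2005) (nat_lit 138) (.e (nat_lit 671764) (nat_lit 6) (.e (nat_lit 81920) (nat_lit 0) .nil)))))) (.g (nat_lit 5) .nil .nil))) 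
(.lf (nat_lit 105004) (.g (nat_lit 1607) (.e (nat_lit 3716) (nat_lit 227) (.e (nat_lit 778325) (nat_lit 6) (.e (nat_lit 81959) (nat_lit 24) (.e (nat_lit 123198) (nat_lit 266) (.e (nat_lit 57423) (nat_lit 14) (.e (nat_lit 352258) (nat_lit 0) .nil)))))) (.g (nat_lit 6) .nil .nil)))) (.nd (nat_lit 5) 
(.lf (nat_lit 104988) (.g (nat_lit 2333) (.e (nat_lit 3716) (nat_lit 227) (.e (nat_lit 778319) (nat_lit 4) (.e (nat_lit 65624) (nat_lit 12) (.e (nat_lit 385105) (nat_lit 50) (.e (nat_lit 786478) (nat_lit 29) (.e (nat_lit 352258) (nat_lit 0) .nil)))))) (.g (nat_lit 5) .nil .nil))) 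
(.lf (nat_lit 105020) (.g (nat_lit 2940) (.e (nat_lit 3721) (nat_lit 227) (.e (nat_lit 778482) (nat_lit 12) (.e (nat_lit 163978) (nat_lit 30) (.e (nat_lit 573478) (nat_lit 12) (.e (nat_lit 57548) (nat_lit 47) (.e (nat_lit 712729) (nat_lit 18) (.e (nat_lit 204862) (nat_lit 27) (.e (nat_lit 344117) (nat_lit 21) (.e (nat_lit 516106) (nat_lit 0) .nil))))))))) (.g (nat_lit 5) .nil .nil))))))) 
(.nd (nat_lit 2) (.nd (nat_lit 3) (.nd (nat_lit 4) (.nd (nat_lit 5) 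
(.lf (nat_lit 104962) (.g (nat_lit 3086) (.e (nat_lit 3714) (nat_lit 227) (.e (nat_lit 778337) (nat_lit 9) (.e (nat_lit 226) (nat_lit 21) (.e (nat_lit 336211) (nat_lit 13) (.e (nat_lit 393291) (nat_lit 26) (.e (nat_lit 475214) (nat_lit 42) (.e (nat_lit 728832) (nat_lit 0) .nil))))))) (.g (nat_lit 6) .nil .nil))) 
(.lf (nat_lit 104994) (.g (nat_lit 865) (.e (nat_lit 3716) (nat_lit 227) (.e (nat_lit 778322) (nat_lit 5) (.e (nat_lit 73788) (nat_lit 45) (.e (nat_lit 1386) (nat_lit 105) (.e (nat_lit 311358) (nat_lit 29) (.e (nat_lit 352264) (nat_lit 0) .nil)))))) (.g (nat_lit 5) .nil .nil)))) (.nd (nat_lit 5) 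
(.lf (nat_lit 104978) (.g (nat_lit 2124) (.e (nat_lit 3715) (nat_lit 227) (.e (nat_lit 778325) (nat_lit 6) (.e (nat_lit 81948) (nat_lit 21) (.e (nat_lit 57872) (nat_lit 264) (.e (nat_lit 1221) (nat_lit 90) (.e (nat_lit 81920) (nat_lit 0) .nil)))))) (.g (nat_lit 5) .nil .nil))) 
(.lf (nat_lit 105010) (.g (nat_lit 3417) (.e (nat_lit 3720) (nat_lit 227) (.e (nat_lit 778466) (nat_lit 11) (.e (nat_lit 24608) (nat_lit 3) (.e (nat_lit 98365) (nat_lit 26) (.e (nat_lit 426187) (nat_lit 9) (.e (nat_lit 426438) (nat_lit 18) (.e (nat_lit 98323) (nat_lit 17) .nil))))))) (.g (nat_lit 0) .nil .nil))))) (.nd (nat_lit 4) (.nd (nat_lit 5) 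
(.lf (nat_lit 104970) (.g (nat_lit 1116) (.e (nat_lit 3715) (nat_lit 227) (.e (nat_lit 778322) (nat_lit 5) (.e (nat_lit 73791) (nat_lit 45) (.e (nat_lit 1386) (nat_lit 105) (.e (nat_lit 311358) (nat_lit 29) (.e (nat_lit 352264) (nat_lit 0) .nil)))))) (.g (nat_lit 5) .nil .nil))) 
(.lf (nat_lit 105002) (.g (nat_lit 1882) (.e (nat_lit 3716) (nat_lit 227) (.e (nat_lit 778325) (nat_lit 6) (.e (nat_lit 81959) (nat_lit 24) (.e (nat_lit 123185) (nat_lit 264) (.e (nat_lit 1222) (nat_lit 90) (.e (nat_lit 81921) (nat_lit 0) .nil)))))) (.g (nat_lit 6) .nil .nil)))) (.nd (nat_lit 5) 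
(.lf (nat_lit 104986) (.g (nat_lit 2114) (.e (nat_lit 3715) (nat_lit 227) (.e (nat_lit 778325) (nat_lit 6) (.e (nat_lit 81959) (nat_lit 24) (.e (nat_lit 123185) (nat_lit 264) (.e (nat_lit 1222) (nat_lit 90) (.e (nat_lit 81921) (nat_lit 0) .nil)))))) (.g (nat_lit 6) .nil .nil))) 
(.lf (nat_lit 105018) (.g (nat_lit 1408) (.e (nat_lit 3721) (nat_lit 227) (.e (nat_lit 778466) (nat_lit 11) (.e (nat_lit 24608) (nat_lit 3) (.e (nat_lit 98365) (nat_lit 26) .nil)))) .nil))))) (.nd (nat_lit 3) (.nd (nat_lit 4) (.nd (nat_lit 5) 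
(.lf (nat_lit 104966) (.g (nat_lit 1775) (.e (nat_lit 3715) (nat_lit 227) (.e (nat_lit 786176) (nat_lit 4) (.e (nat_lit 65630) (nat_lit 14) (.e (nat_lit 401459) (nat_lit 13) (.e (nat_lit 483386) (nat_lit 23) (.e (nat_lit 336290) (nat_lit 15) .nil)))))) (.g (nat_lit 5) .nil .nil))) 
(.lf (nat_lit 104998) (.g (nat_lit 1265) (.e (nat_lit 3716) (nat_lit 227) (.e (nat_lit 778322) (nat_lit 5) (.e (nat_lit 73792) (nat_lit 45) (.e (nat_lit 1386) (nat_lit 105) (.e (nat_lit 311358) (nat_lit 29) (.e (nat_lit 352264) (nat_lit 0) .nil)))))) (.g (nat_lit 5) .nil .nil)))) (.nd (nat_lit 5) 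
(.lf (nat_lit 104982) (.g (nat_lit 1427) (.e (nat_lit 3715) (nat_lit 227) (.e (nat_lit 778325) (nat_lit 6) (.e (nat_lit 81950) (nat_lit 21) (.e (nat_lit 57871) (nat_lit 264) (.e (nat_lit 1219) (nat_lit 90) (.e (nat_lit 81921) (nat_lit 0) .nil)))))) (.g (nat_lit 5) .nil .nil))) 
(.lf (nat_lit 105014) (.g (nat_lit 964) (.e (nat_lit 3721) (nat_lit 227) (.e (nat_lit 778464) (nat_lit 11) (.e (nat_lit 24604) (nat_lit 2) (.e (nat_lit 90185) (nat_lit 17) .nil)))) .nil)))) (.nd (nat_lit 4) (.nd (nat_lit 5) 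
(.lf (nat_lit 104974) (.g (nat_lit 1571) (.e (nat_lit 3715) (nat_lit 227) (.e (nat_lit 778325) (nat_lit 6) (.e (nat_lit 81947) (nat_lit 20) (.e (nat_lit 2006) (nat_lit 138) (.e (nat_lit 671764) (nat_lit 6) (.e (nat_lit 81920) (nat_lit 0) .nil)))))) (.g (nat_lit 5) .nil .nil))) 
(.lf (nat_lit 105006) (.g (nat_lit 825) (.e (nat_lit 3719) (nat_lit 227) (.e (nat_lit 778466) (nat_lit 11) (.e (nat_lit 24603) (nat_lit 2) .nil))) .nil))) (.nd (nat_lit 5) 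
(.lf (nat_lit 104990) (.g (nat_lit 3006) (.e (nat_lit 3716) (nat_lit 227) (.e (nat_lit 778319) (nat_lit 4) (.e (nat_lit 65630) (nat_lit 14) (.e (nat_lit 401459) (nat_lit 13) (.e (nat_lit 483380) (nat_lit 23) (.e (nat_lit 336296) (nat_lit 15) .nil)))))) (.g (nat_lit 6) .nil .nil))) 
(.lf (nat_lit 105022) (.g (nat_lit 2859) (.e (nat_lit 3722) (nat_lit 227) (.e (nat_lit 778466) (nat_lit 11) (.e (nat_lit 24617) (nat_lit 7) (.e (nat_lit 319534) (nat_lit 16) (.e (nat_lit 286756) (nat_lit 10) .nil))))) .nil))))))) (.nd (nat_lit 1) (.nd (nat_lit 2) (.nd (nat_lit 3) (.nd (nat_lit 4) (.nd (nat_lit 5) 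
(.lf (nat_lit 104961) (.g (nat_lit 2034) (.e (nat_lit 3714) (nat_lit 227) (.e (nat_lit 778325) (nat_lit 6) (.e (nat_lit 81957) (nat_lit 24) (.e (nat_lit 123185) (nat_lit 264) (.e (nat_lit 1222) (nat_lit 90) (.e (nat_lit 81921) (nat_lit 0) .nil)))))) (.g (nat_lit 0) .nil .nil))) 
(.lf (nat_lit 104993) (.g (nat_lit 401) (.e (nat_lit 3716) (nat_lit 227) (.e (nat_lit 778322) (nat_lit 5) (.e (nat_lit 73788) (nat_lit 45) (.e (nat_lit 1385) (nat_lit 105) (.e (nat_lit 319232) (nat_lit 29) (.e (nat_lit 352258) (nat_lit 0) .nil)))))) (.g (nat_lit 4) .nil .nil)))) (.nd (nat_lit 5) 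
(.lf (nat_lit 104977) (.g (nat_lit 2359) (.e (nat_lit 3715) (nat_lit 227) (.e (nat_lit 778325) (nat_lit 6) (.e (nat_lit 81948) (nat_lit 21) (.e (nat_lit 57872) (nat_lit 264) (.e (nat_lit 1219) (nat_lit 90) (.e (nat_lit 81920) (nat_lit 0) .nil)))))) (.g (nat_lit 6) .nil .nil))) 
(.lf (nat_lit 105009) (.g (nat_lit 2168) (.e (nat_lit 3720) (nat_lit 227) (.e (nat_lit 778466) (nat_lit 11) (.e (nat_lit 24608) (nat_lit 3) (.e (nat_lit 98363) (nat_lit 26) .nil)))) .nil)))) (.nd (nat_lit 4) (.nd (nat_lit 5) 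
(.lf (nat_lit 104969) (.g (nat_lit 818) (.e (nat_lit 3715) (nat_lit 227) (.e (nat_lit 778322) (nat_lit 5) (.e (nat_lit 73786) (nat_lit 45) (.e (nat_lit 1374) (nat_lit 104) (.e (nat_lit 303155) (nat_lit 29) .nil))))) .nil)) 
(.lf (nat_lit 105001) (.g (nat_lit 2368) (.e (nat_lit 3716) (nat_lit 227) (.e (nat_lit 778325) (nat_lit 6) (.e (nat_lit 81959) (nat_lit 24) (.e (nat_lit 123184) (nat_lit 264) (.e (nat_lit 1222) (nat_lit 90) (.e (nat_lit 81921) (nat_lit 0) .nil)))))) (.g (nat_lit 6) .nil .nil)))) (.nd (nat_lit 5) 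
(.lf (nat_lit 104985) (.g (nat_lit 2026) (.e (nat_lit 3715) (nat_lit 227) (.e (nat_lit 778325) (nat_lit 6) (.e (nat_lit 81959) (nat_lit 24) (.e (nat_lit 123184) (nat_lit 264) (.e (nat_lit 1224) (nat_lit 90) (.e (nat_lit 81920) (nat_lit 0) .nil)))))) (.g (nat_lit 5) .nil .nil))) 
(.lf (nat_lit 105017) (.g (nat_lit 1475) (.e (nat_lit 3721) (nat_lit 227) (.e (nat_lit 778466) (nat_lit 11) (.e (nat_lit 24604) (nat_lit 2) (.e (nat_lit 90185) (nat_lit 17) .nil)))) .nil))))) (.nd (nat_lit 3) (.nd (nat_lit 4) (.nd (nat_lit 5) 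
(.lf (nat_lit 104965) (.g (nat_lit 1931) (.e (nat_lit 3715) (nat_lit 227) (.e (nat_lit 786176) (nat_lit 4) (.e (nat_lit 65630) (nat_lit 14) (.e (nat_lit 401438) (nat_lit 9) (.e (nat_lit 426542) (nat_lit 29) (.e (nat_lit 352264) (nat_lit 0) .nil)))))) (.g (nat_lit 5) .nil .nil))) 
(.lf (nat_lit 104997) (.g (nat_lit 965) (.e (nat_lit 3716) (nat_lit 227) (.e (nat_lit 778322) (nat_lit 5) (.e (nat_lit 73792) (nat_lit 45) (.e (nat_lit 1385) (nat_lit 105) (.e (nat_lit 311358) (nat_lit 29) (.e (nat_lit 352264) (nat_lit 0) .nil)))))) (.g (nat_lit 5) .nil .nil)))) (.nd (nat_lit 5) 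
(.lf (nat_lit 104981) (.g (nat_lit 1526) (.e (nat_lit 3715) (nat_lit 227) (.e (nat_lit 778325) (nat_lit 6) (.e (nat_lit 81950) (nat_lit 21) (.e (nat_lit 57871) (nat_lit 264) (.e (nat_lit 1219) (nat_lit 90) (.e (nat_lit 81920) (nat_lit 0) .nil)))))) (.g (nat_lit 5) .nil .nil))) 
(.lf (nat_lit 105013) (.g (nat_lit 1693) (.e (nat_lit 3721) (nat_lit 227) (.e (nat_lit 778464) (nat_lit 11) (.e (nat_lit 24604) (nat_lit 2) (.e (nat_lit 90176) (nat_lit 15) (.e (nat_lit 196352) (nat_lit 3) (.e (nat_lit 98325) (nat_lit 17) .nil)))))) (.g (nat_lit 4) .nil .nil))))) (.nd (nat_lit 4) (.nd (nat_lit 5) 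
(.lf (nat_lit 104973) (.g (nat_lit 1380) (.e (nat_lit 3715) (nat_lit 227) (.e (nat_lit 778325) (nat_lit 6) (.e (nat_lit 81947) (nat_lit 20) (.e (nat_lit 2005) (nat_lit 138) (.e (nat_lit 671764) (nat_lit 6) (.e (nat_lit 81921) (nat_lit 0) .nil)))))) (.g (nat_lit 5) .nil .nil))) 
(.lf (nat_lit 105005) (.g (nat_lit 667) (.e (nat_lit 3719) (nat_lit 227) (.e (nat_lit 778362) (nat_lit 9) (.e (nat_lit 297) (nat_lit 22) .nil))) .nil))) (.nd (nat_lit 5) 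
(.lf (nat_lit 104989) (.g (nat_lit 2321) (.e (nat_lit 3716) (nat_lit 227) (.e (nat_lit 778319) (nat_lit 4) (.e (nat_lit 65630) (nat_lit 14) (.e (nat_lit 401437) (nat_lit 9) (.e (nat_lit 426542) (nat_lit 29) (.e (nat_lit 352264) (nat_lit 0) .nil)))))) (.g (nat_lit 5) .nil .nil))) 
(.lf (nat_lit 105021) (.g (nat_lit 3559) (.e (nat_lit 3722) (nat_lit 227) (.e (nat_lit 778466) (nat_lit 11) (.e (nat_lit 24617) (nat_lit 7) (.e (nat_lit 319533) (nat_lit 16) (.e (nat_lit 286753) (nat_lit 10) .nil))))) .nil)))))) (.nd (nat_lit 2) (.nd (nat_lit 3) (.nd (nat_lit 4) (.nd (nat_lit 5) 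
(.lf (nat_lit 104963) (.g (nat_lit 2082) (.e (nat_lit 3715) (nat_lit 227) (.e (nat_lit 778319) (nat_lit 4) (.e (nat_lit 65624) (nat_lit 12) (.e (nat_lit 385094) (nat_lit 49) (.e (nat_lit 778326) (nat_lit 6) (.e (nat_lit 81921) (nat_lit 0) .nil)))))) (.g (nat_lit 5) .nil .nil))) 
(.lf (nat_lit 104995) (.g (nat_lit 599) (.e (nat_lit 3716) (nat_lit 227) (.e (nat_lit 778322) (nat_lit 5) (.e (nat_lit 73788) (nat_lit 45) (.e (nat_lit 1386) (nat_lit 105) (.e (nat_lit 319232) (nat_lit 29) (.e (nat_lit 352258) (nat_lit 0) .nil)))))) (.g (nat_lit 4) .nil .nil)))) (.nd (nat_lit 5) 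
(.lf (nat_lit 104979) (.g (nat_lit 1753) (.e (nat_lit 3715) (nat_lit 227) (.e (nat_lit 778325) (nat_lit 6) (.e (nat_lit 81950) (nat_lit 21) (.e (nat_lit 57870) (nat_lit 264) (.e (nat_lit 1219) (nat_lit 90) (.e (nat_lit 81920) (nat_lit 0) .nil)))))) (.g (nat_lit 5) .nil .nil))) 
(.lf (nat_lit 105011) (.g (nat_lit 3893) (.e (nat_lit 3720) (nat_lit 227) (.e (nat_lit 778466) (nat_lit 11) (.e (nat_lit 24608) (nat_lit 3) (.e (nat_lit 98365) (nat_lit 26) (.e (nat_lit 426188) (nat_lit 9) (.e (nat_lit 426438) (nat_lit 18) (.e (nat_lit 98323) (nat_lit 17) .nil))))))) (.g (nat_lit 0) .nil .nil))))) (.nd (nat_lit 4) (.nd (nat_lit 5) 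
(.lf (nat_lit 104971) (.g (nat_lit 709) (.e (nat_lit 3715) (nat_lit 227) (.e (nat_lit 778325) (nat_lit 6) (.e (nat_lit 81921) (nat_lit 0) (.e (nat_lit 3711) (nat_lit 227) (.e (nat_lit 786176) (nat_lit 6) (.e (nat_lit 81920) (nat_lit 0) .nil)))))) (.g (nat_lit 4) .nil .nil))) 
(.lf (nat_lit 105003) (.g (nat_lit 1875) (.e (nat_lit 3716) (nat_lit 227) (.e (nat_lit 778325) (nat_lit 6) (.e (nat_lit 81959) (nat_lit 24) (.e (nat_lit 123197) (nat_lit 266) (.e (nat_lit 57423) (nat_lit 14) (.e (nat_lit 352258) (nat_lit 0) .nil)))))) (.g (nat_lit 5) .nil .nil)))) (.nd (nat_lit 5) 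
(.lf (nat_lit 104987) (.g (nat_lit 1744) (.e (nat_lit 3715) (nat_lit 227) (.e (nat_lit 778325) (nat_lit 6) (.e (nat_lit 81959) (nat_lit 24) (.e (nat_lit 123185) (nat_lit 264) (.e (nat_lit 1224) (nat_lit 90) (.e (nat_lit 81920) (nat_lit 0) .nil)))))) (.g (nat_lit 5) .nil .nil))) 
(.lf (nat_lit 105019) (.g (nat_lit 3669) (.e (nat_lit 3721) (nat_lit 227) (.e (nat_lit 778482) (nat_lit 12) (.e (nat_lit 163978) (nat_lit 30) (.e (nat_lit 573475) (nat_lit 12) (.e (nat_lit 57543) (nat_lit 47) (.e (nat_lit 712729) (nat_lit 18) (.e (nat_lit 204863) (nat_lit 27) (.e (nat_lit 344117) (nat_lit 21) (.e (nat_lit 516106) (nat_lit 0) .nil))))))))) (.g (nat_lit 4) .nil .nil)))))) 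
(.nd (nat_lit 3) (.nd (nat_lit 4) (.nd (nat_lit 5) 
(.lf (nat_lit 104967) (.g (nat_lit 2190) (.e (nat_lit 3715) (nat_lit 227) (.e (nat_lit 778322) (nat_lit 5) (.e (nat_lit 73781) (nat_lit 32) (.e (nat_lit 2856) (nat_lit 184) (.e (nat_lit 426542) (nat_lit 29) (.e (nat_lit 352264) (nat_lit 0) .nil)))))) (.g (nat_lit 5) .nil .nil))) 
(.lf (nat_lit 104999) (.g (nat_lit 1408) (.e (nat_lit 3716) (nat_lit 227) (.e (nat_lit 778325) (nat_lit 6) (.e (nat_lit 81950) (nat_lit 21) (.e (nat_lit 57870) (nat_lit 264) (.e (nat_lit 1219) (nat_lit 90) (.e (nat_lit 81921) (nat_lit 0) .nil)))))) (.g (nat_lit 5) .nil .nil)))) (.nd (nat_lit 5) 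
(.lf (nat_lit 104983) (.g (nat_lit 2435) (.e (nat_lit 3715) (nat_lit 227) (.e (nat_lit 778325) (nat_lit 6) (.e (nat_lit 81950) (nat_lit 21) (.e (nat_lit 57872) (nat_lit 264) (.e (nat_lit 1221) (nat_lit 90) (.e (nat_lit 81920) (nat_lit 0) .nil)))))) (.g (nat_lit 5) .nil .nil))) 
(.lf (nat_lit 105015) (.g (nat_lit 1742) (.e (nat_lit 3721) (nat_lit 227) (.e (nat_lit 778464) (nat_lit 11) (.e (nat_lit 24604) (nat_lit 2) (.e (nat_lit 90185) (nat_lit 17) (.e (nat_lit 237601) (nat_lit 9) .nil))))) .nil)))) (.nd (nat_lit 4) (.nd (nat_lit 5) 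
(.lf (nat_lit 104975) (.g (nat_lit 1554) (.e (nat_lit 3715) (nat_lit 227) (.e (nat_lit 778325) (nat_lit 6) (.e (nat_lit 81947) (nat_lit 20) (.e (nat_lit 2006) (nat_lit 138) (.e (nat_lit 671764) (nat_lit 6) (.e (nat_lit 81921) (nat_lit 0) .nil)))))) (.g (nat_lit 5) .nil .nil))) 
(.lf (nat_lit 105007) (.g (nat_lit 1400) (.e (nat_lit 3719) (nat_lit 227) (.e (nat_lit 778466) (nat_lit 11) (.e (nat_lit 24608) (nat_lit 3) (.e (nat_lit 98365) (nat_lit 26) .nil)))) .nil))) (.nd (nat_lit 5) 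
(.lf (nat_lit 104991) (.g (nat_lit 2330) (.e (nat_lit 3716) (nat_lit 227) (.e (nat_lit 778319) (nat_lit 4) (.e (nat_lit 65630) (nat_lit 14) (.e (nat_lit 401459) (nat_lit 13) (.e (nat_lit 483380) (nat_lit 23) (.e (nat_lit 343808) (nat_lit 15) .nil)))))) (.g (nat_lit 5) .nil .nil))) 
(.lf (nat_lit 105023) (.g (nat_lit 1593) (.e (nat_lit 3724) (nat_lit 227) (.e (nat_lit 778466) (nat_lit 11) (.e (nat_lit 24604) (nat_lit 2) (.e (nat_lit 90185) (nat_lit 17) .nil)))) .nil))))))))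

noncomputable def tv1436 : DT := (.nd (nat_lit 0) (.nd (nat_lit 1) (.nd (nat_lit 2) (.nd (nat_lit 3) (.nd (nat_lit 4) (.nd (nat_lit 5) 
(.lf (nat_lit 105024) (.g (nat_lit 1993) (.e (nat_lit 3724) (nat_lit 227) (.e (nat_lit 778466) (nat_lit 11) (.e (nat_lit 24604) (nat_lit 2) (.e (nat_lit 90185) (nat_lit 17) (.e (nat_lit 237616) (nat_lit 12) .nil))))) .nil)) 
(.lf (nat_lit 105056) (.g (nat_lit 1652) (.e (nat_lit 3744) (nat_lit 228) (.e (nat_lit 786489) (nat_lit 34) (.e (nat_lit 393299) (nat_lit 27) (.e (nat_lit 491538) (nat_lit 3) (.e (nat_lit 98342) (nat_lit 20) .nil))))) .nil))) (.nd (nat_lit 5) 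
(.lf (nat_lit 105040) (.g (nat_lit 2975) (.e (nat_lit 3733) (nat_lit 228) (.e (nat_lit 786483) (nat_lit 30) (.e (nat_lit 360453) (nat_lit 0) (.e (nat_lit 5907) (nat_lit 320) (.e (nat_lit 1221) (nat_lit 90) (.e (nat_lit 81923) (nat_lit 0) .nil)))))) (.g (nat_lit 5) .nil .nil))) 
(.lf (nat_lit 105072) (.g (nat_lit 1697) (.e (nat_lit 3747) (nat_lit 228) (.e (nat_lit 786473) (nat_lit 27) (.e (nat_lit 336206) (nat_lit 12) (.e (nat_lit 385094) (nat_lit 49) (.e (nat_lit 778326) (nat_lit 6) (.e (nat_lit 81922) (nat_lit 0) .nil)))))) (.g (nat_lit 4) .nil .nil))))) (.nd (nat_lit 4) (.nd (nat_lit 5) 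
(.lf (nat_lit 105032) (.g (nat_lit 1799) (.e (nat_lit 3733) (nat_lit 228) (.e (nat_lit 786470) (nat_lit 27) (.e (nat_lit 336226) (nat_lit 14) (.e (nat_lit 401458) (nat_lit 13) (.e (nat_lit 483379) (nat_lit 23) (.e (nat_lit 336260) (nat_lit 15) .nil)))))) (.g (nat_lit 4) .nil .nil))) 
(.lf (nat_lit 105064) (.g (nat_lit 1056) (.e (nat_lit 3746) (nat_lit 228) (.e (nat_lit 786480) (nat_lit 29) (.e (nat_lit 352309) (nat_lit 21) (.e (nat_lit 57871) (nat_lit 264) .nil)))) .nil))) (.nd (nat_lit 5) 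
(.lf (nat_lit 105048) (.g (nat_lit 2468) (.e (nat_lit 3744) (nat_lit 228) (.e (nat_lit 786454) (nat_lit 17) (.e (nat_lit 90170) (nat_lit 13) (.e (nat_lit 172113) (nat_lit 10) (.e (nat_lit 434203) (nat_lit 18) .nil))))) .nil)) 
(.lf (nat_lit 105080) (.g (nat_lit 1939) (.e (nat_lit 3747) (nat_lit 228) (.e (nat_lit 786473) (nat_lit 27) (.e (nat_lit 336235) (nat_lit 14) (.e (nat_lit 401458) (nat_lit 13) (.e (nat_lit 483379) (nat_lit 23) .nil))))) .nil))))) (.nd (nat_lit 3) (.nd (nat_lit 4) (.nd (nat_lit 5) 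
(.lf (nat_lit 105028) (.g (nat_lit 2119) (.e (nat_lit 7936) (nat_lit 227) (.e (nat_lit 778320) (nat_lit 4) (.e (nat_lit 65630) (nat_lit 14) (.e (nat_lit 401459) (nat_lit 13) (.e (nat_lit 483380) (nat_lit 23) .nil))))) .nil)) 
(.lf (nat_lit 105060) (.g (nat_lit 797) (.e (nat_lit 3746) (nat_lit 228) (.e (nat_lit 786479) (nat_lit 29) (.e (nat_lit 352318) (nat_lit 24) (.e (nat_lit 123197) (nat_lit 266) .nil)))) .nil))) (.nd (nat_lit 5) 
(.lf (nat_lit 105044) (.g (nat_lit 800) (.e (nat_lit 3736) (nat_lit 228) (.e (nat_lit 786478) (nat_lit 29) (.e (nat_lit 352270) (nat_lit 8) (.e (nat_lit 262148) (nat_lit 0) (.e (nat_lit 1555) (nat_lit 110) .nil))))) .nil)) 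
(.lf (nat_lit 105076) (.g (nat_lit 4433) (.e (nat_lit 3747) (nat_lit 228) (.e (nat_lit 786473) (nat_lit 27) (.e (nat_lit 336235) (nat_lit 14) (.e (nat_lit 401437) (nat_lit 9) (.e (nat_lit 426540) (nat_lit 29) (.e (nat_lit 352262) (nat_lit 0) .nil)))))) (.g (nat_lit 0) .nil .nil))))) (.nd (nat_lit 4) (.nd (nat_lit 5) 
(.lf (nat_lit 105036) (.g (nat_lit 2826) (.e (nat_lit 3733) (nat_lit 228) (.e (nat_lit 786470) (nat_lit 27) (.e (nat_lit 336226) (nat_lit 14) (.e (nat_lit 401459) (nat_lit 13) (.e (nat_lit 483381) (nat_lit 23) (.e (nat_lit 336260) (nat_lit 15) .nil)))))) (.g (nat_lit 6) .nil .nil))) 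
(.lf (nat_lit 105068) (.g (nat_lit 5732) (.e (nat_lit 3747) (nat_lit 228) (.e (nat_lit 786473) (nat_lit 27) (.e (nat_lit 336051) (nat_lit 6) (.e (nat_lit 147466) (nat_lit 9) (.e (nat_lit 307) (nat_lit 22) (.e (nat_lit 344117) (nat_lit 21) (.e (nat_lit 516130) (nat_lit 3) (.e (nat_lit 221204) (nat_lit 20) .nil)))))))) (.g (nat_lit 7) .nil .nil)))) (.nd (nat_lit 5) 
(.lf (nat_lit 105052) (.g (nat_lit 1672) (.e (nat_lit 3744) (nat_lit 228) (.e (nat_lit 786456) (nat_lit 18) (.e (nat_lit 98372) (nat_lit 29) (.e (nat_lit 450563) (nat_lit 0) (.e (nat_lit 6420) (nat_lit 341) .nil))))) .nil)) 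
(.lf (nat_lit 105084) (.g (nat_lit 4380) (.e (nat_lit 3747) (nat_lit 228) (.e (nat_lit 786473) (nat_lit 27) (.e (nat_lit 336235) (nat_lit 14) (.e (nat_lit 401458) (nat_lit 13) (.e (nat_lit 483383) (nat_lit 23) (.e (nat_lit 336265) (nat_lit 15) .nil)))))) (.g (nat_lit 5) .nil .nil))))))) (.nd (nat_lit 2) (.nd (nat_lit 3) (.nd (nat_lit 4) (.nd (nat_lit 5) 
(.lf (nat_lit 105026) (.g (nat_lit 1997) (.e (nat_lit 3724) (nat_lit 227) (.e (nat_lit 778466) (nat_lit 11) (.e (nat_lit 24608) (nat_lit 3) (.e (nat_lit 98365) (nat_lit 26) (.e (nat_lit 426188) (nat_lit 9) .nil))))) .nil)) 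
(.lf (nat_lit 105058) (.g (nat_lit 2954) (.e (nat_lit 3746) (nat_lit 228) (.e (nat_lit 786457) (nat_lit 18) (.e (nat_lit 98373) (nat_lit 29) (.e (nat_lit 450562) (nat_lit 0) (.e (nat_lit 6416) (nat_lit 341) (.e (nat_lit 163885) (nat_lit 5) (.e (nat_lit 221204) (nat_lit 20) .nil))))))) (.g (nat_lit 4) .nil .nil)))) (.nd (nat_lit 5) 
(.lf (nat_lit 105042) (.g (nat_lit 2343) (.e (nat_lit 3733) (nat_lit 228) (.e (nat_lit 786489) (nat_lit 34) (.e (nat_lit 393301) (nat_lit 27) (.e (nat_lit 491538) (nat_lit 3) (.e (nat_lit 98342) (nat_lit 20) (.e (nat_lit 221198) (nat_lit 20) .nil)))))) (.g (nat_lit 5) .nil .nil))) 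
(.lf (nat_lit 105074) (.g (nat_lit 2250) (.e (nat_lit 3747) (nat_lit 228) (.e (nat_lit 786473) (nat_lit 27) (.e (nat_lit 336206) (nat_lit 12) (.e (nat_lit 385094) (nat_lit 49) (.e (nat_lit 778327) (nat_lit 6) (.e (nat_lit 81922) (nat_lit 0) .nil)))))) (.g (nat_lit 6) .nil .nil))))) (.nd (nat_lit 4) (.nd (nat_lit 5) 
(.lf (nat_lit 105034) (.g (nat_lit 2780) (.e (nat_lit 3733) (nat_lit 228) (.e (nat_lit 786470) (nat_lit 27) (.e (nat_lit 336226) (nat_lit 14) (.e (nat_lit 401459) (nat_lit 13) (.e (nat_lit 483379) (nat_lit 23) (.e (nat_lit 336260) (nat_lit 15) .nil)))))) (.g (nat_lit 5) .nil .nil))) 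
(.lf (nat_lit 105066) (.g (nat_lit 2248) (.e (nat_lit 3747) (nat_lit 228) (.e (nat_lit 786470) (nat_lit 27) (.e (nat_lit 336200) (nat_lit 12) (.e (nat_lit 385094) (nat_lit 49) (.e (nat_lit 778326) (nat_lit 6) (.e (nat_lit 81924) (nat_lit 0) .nil)))))) (.g (nat_lit 0) .nil .nil)))) (.nd (nat_lit 5) 
(.lf (nat_lit 105050) (.g (nat_lit 2524) (.e (nat_lit 3744) (nat_lit 228) (.e (nat_lit 786454) (nat_lit 17) (.e (nat_lit 90170) (nat_lit 13) (.e (nat_lit 172113) (nat_lit 10) (.e (nat_lit 434208) (nat_lit 18) (.e (nat_lit 6416) (nat_lit 341) (.e (nat_lit 163885) (nat_lit 5) (.e (nat_lit 221198) (nat_lit 20) .nil)))))))) (.g (nat_lit 4) .nil .nil))) 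
(.lf (nat_lit 105082) (.g (nat_lit 1896) (.e (nat_lit 3747) (nat_lit 228) (.e (nat_lit 786473) (nat_lit 27) (.e (nat_lit 336235) (nat_lit 14) (.e (nat_lit 401458) (nat_lit 13) (.e (nat_lit 483380) (nat_lit 23) .nil))))) .nil))))) (.nd (nat_lit 3) (.nd (nat_lit 4) (.nd (nat_lit 5) 
(.lf (nat_lit 105030) (.g (nat_lit 2452) (.e (nat_lit 3733) (nat_lit 228) (.e (nat_lit 786447) (nat_lit 15) (.e (nat_lit 1855) (nat_lit 124) (.e (nat_lit 557100) (nat_lit 13) (.e (nat_lit 172106) (nat_lit 10) (.e (nat_lit 434231) (nat_lit 23) (.e (nat_lit 532531) (nat_lit 9) (.e (nat_lit 336260) (nat_lit 15) .nil)))))))) (.g (nat_lit 5) .nil .nil))) 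
(.lf (nat_lit 105062) (.g (nat_lit 531) (.e (nat_lit 3746) (nat_lit 228) (.e (nat_lit 786480) (nat_lit 29) (.e (nat_lit 360192) (nat_lit 0) .nil))) .nil))) (.nd (nat_lit 5) 
(.lf (nat_lit 105046) (.g (nat_lit 2140) (.e (nat_lit 3740) (nat_lit 228) (.e (nat_lit 786473) (nat_lit 27) (.e (nat_lit 336235) (nat_lit 14) (.e (nat_lit 401458) (nat_lit 13) (.e (nat_lit 483383) (nat_lit 23) .nil))))) .nil)) 
(.lf (nat_lit 105078) (.g (nat_lit 2122) (.e (nat_lit 3747) (nat_lit 228) (.e (nat_lit 786473) (nat_lit 27) (.e (nat_lit 336235) (nat_lit 14) (.e (nat_lit 401457) (nat_lit 13) (.e (nat_lit 483391) (nat_lit 23) (.e (nat_lit 336300) (nat_lit 15) .nil)))))) (.g (nat_lit 4) .nil .nil))))) (.nd (nat_lit 4) (.nd (nat_lit 5) 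
(.lf (nat_lit 105038) (.g (nat_lit 3106) (.e (nat_lit 3733) (nat_lit 228) (.e (nat_lit 786483) (nat_lit 30) (.e (nat_lit 360452) (nat_lit 0) (.e (nat_lit 5907) (nat_lit 320) (.e (nat_lit 1221) (nat_lit 90) (.e (nat_lit 81923) (nat_lit 0) .nil)))))) (.g (nat_lit 5) .nil .nil))) 
(.lf (nat_lit 105070) (.g (nat_lit 1922) (.e (nat_lit 3747) (nat_lit 228) (.e (nat_lit 786473) (nat_lit 27) (.e (nat_lit 336206) (nat_lit 12) (.e (nat_lit 385093) (nat_lit 49) (.e (nat_lit 778326) (nat_lit 6) (.e (nat_lit 81924) (nat_lit 0) .nil)))))) (.g (nat_lit 5) .nil .nil)))) (.nd (nat_lit 5) 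
(.lf (nat_lit 105054) (.g (nat_lit 4440) (.e (nat_lit 3744) (nat_lit 228) (.e (nat_lit 786457) (nat_lit 18) (.e (nat_lit 98373) (nat_lit 29) (.e (nat_lit 450563) (nat_lit 0) (.e (nat_lit 6420) (nat_lit 341) (.e (nat_lit 163885) (nat_lit 5) (.e (nat_lit 221198) (nat_lit 20) .nil))))))) (.g (nat_lit 0) .nil .nil))) 
(.lf (nat_lit 105086) (.g (nat_lit 3066) (.e (nat_lit 3747) (nat_lit 228) (.e (nat_lit 786473) (nat_lit 27) (.e (nat_lit 336235) (nat_lit 14) (.e (nat_lit 401458) (nat_lit 13) (.e (nat_lit 483383) (nat_lit 23) (.e (nat_lit 336286) (nat_lit 15) .nil)))))) (.g (nat_lit 4) .nil .nil)))))))) (.nd (nat_lit 1) (.nd (nat_lit 2) (.nd (nat_lit 3) (.nd (nat_lit 4) (.nd (nat_lit 5) 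
(.lf (nat_lit 105025) (.g (nat_lit 1922) (.e (nat_lit 3724) (nat_lit 227) (.e (nat_lit 778466) (nat_lit 11) (.e (nat_lit 24604) (nat_lit 2) (.e (nat_lit 90185) (nat_lit 17) (.e (nat_lit 237619) (nat_lit 12) (.e (nat_lit 475179) (nat_lit 24) (.e (nat_lit 516102) (nat_lit 0) .nil))))))) (.g (nat_lit 4) .nil .nil))) 
(.lf (nat_lit 105057) (.g (nat_lit 2142) (.e (nat_lit 3745) (nat_lit 228) (.e (nat_lit 786489) (nat_lit 34) (.e (nat_lit 393301) (nat_lit 27) (.e (nat_lit 491526) (nat_lit 0) (.e (nat_lit 1788) (nat_lit 119) .nil))))) .nil))) (.nd (nat_lit 5) 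
(.lf (nat_lit 105041) (.g (nat_lit 1318) (.e (nat_lit 3733) (nat_lit 228) (.e (nat_lit 786483) (nat_lit 30) (.e (nat_lit 360454) (nat_lit 0) (.e (nat_lit 5907) (nat_lit 320) (.e (nat_lit 1219) (nat_lit 90) .nil))))) .nil)) 
(.lf (nat_lit 105073) (.g (nat_lit 2321) (.e (nat_lit 3747) (nat_lit 228) (.e (nat_lit 786473) (nat_lit 27) (.e (nat_lit 336206) (nat_lit 12) (.e (nat_lit 385094) (nat_lit 49) (.e (nat_lit 778326) (nat_lit 6) (.e (nat_lit 81924) (nat_lit 0) .nil)))))) (.g (nat_lit 0) .nil .nil))))) (.nd (nat_lit 4) (.nd (nat_lit 5) 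
(.lf (nat_lit 105033) (.g (nat_lit 3389) (.e (nat_lit 3733) (nat_lit 228) (.e (nat_lit 786470) (nat_lit 27) (.e (nat_lit 336226) (nat_lit 14) (.e (nat_lit 401458) (nat_lit 13) (.e (nat_lit 483383) (nat_lit 23) (.e (nat_lit 336260) (nat_lit 15) .nil)))))) (.g (nat_lit 0) .nil .nil))) 
(.lf (nat_lit 105065) (.g (nat_lit 1554) (.e (nat_lit 3746) (nat_lit 228) (.e (nat_lit 786480) (nat_lit 29) (.e (nat_lit 352309) (nat_lit 21) (.e (nat_lit 65280) (nat_lit 266) .nil)))) .nil))) (.nd (nat_lit 5) 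
(.lf (nat_lit 105049) (.g (nat_lit 2528) (.e (nat_lit 3744) (nat_lit 228) (.e (nat_lit 786454) (nat_lit 17) (.e (nat_lit 90170) (nat_lit 13) (.e (nat_lit 172113) (nat_lit 10) (.e (nat_lit 434207) (nat_lit 18) .nil))))) .nil)) 
(.lf (nat_lit 105081) (.g (nat_lit 2288) (.e (nat_lit 3747) (nat_lit 228) (.e (nat_lit 786473) (nat_lit 27) (.e (nat_lit 336235) (nat_lit 14) (.e (nat_lit 401458) (nat_lit 13) (.e (nat_lit 483379) (nat_lit 23) (.e (nat_lit 336266) (nat_lit 15) .nil)))))) (.g (nat_lit 4) .nil .nil)))))) (.nd (nat_lit 3) (.nd (nat_lit 4) (.nd (nat_lit 5) 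
(.lf (nat_lit 105029) (.g (nat_lit 1811) (.e (nat_lit 7936) (nat_lit 227) (.e (nat_lit 778462) (nat_lit 11) (.e (nat_lit 24608) (nat_lit 3) (.e (nat_lit 98365) (nat_lit 26) (.e (nat_lit 426187) (nat_lit 9) .nil))))) .nil)) 
(.lf (nat_lit 105061) (.g (nat_lit 740) (.e (nat_lit 3746) (nat_lit 228) (.e (nat_lit 786479) (nat_lit 29) (.e (nat_lit 352318) (nat_lit 24) (.e (nat_lit 123198) (nat_lit 266) .nil)))) .nil))) (.nd (nat_lit 5) 
(.lf (nat_lit 105045) (.g (nat_lit 710) (.e (nat_lit 3736) (nat_lit 228) (.e (nat_lit 786480) (nat_lit 29) (.e (nat_lit 352270) (nat_lit 8) .nil))) .nil)) 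
(.lf (nat_lit 105077) (.g (nat_lit 2028) (.e (nat_lit 3747) (nat_lit 228) (.e (nat_lit 786473) (nat_lit 27) (.e (nat_lit 336235) (nat_lit 14) (.e (nat_lit 401444) (nat_lit 9) (.e (nat_lit 426541) (nat_lit 29) (.e (nat_lit 352267) (nat_lit 0) .nil)))))) (.g (nat_lit 4) .nil .nil))))) (.nd (nat_lit 4) (.nd (nat_lit 5) 
(.lf (nat_lit 105037) (.g (nat_lit 2619) (.e (nat_lit 3733) (nat_lit 228) (.e (nat_lit 786481) (nat_lit 30) (.e (nat_lit 360453) (nat_lit 0) (.e (nat_lit 5907) (nat_lit 320) (.e (nat_lit 1221) (nat_lit 90) (.e (nat_lit 81923) (nat_lit 0) .nil)))))) (.g (nat_lit 5) .nil .nil))) 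
(.lf (nat_lit 105069) (.g (nat_lit 2652) (.e (nat_lit 3747) (nat_lit 228) (.e (nat_lit 786473) (nat_lit 27) (.e (nat_lit 336051) (nat_lit 6) (.e (nat_lit 147467) (nat_lit 9) (.e (nat_lit 297) (nat_lit 22) (.e (nat_lit 344119) (nat_lit 21) (.e (nat_lit 516129) (nat_lit 3) (.e (nat_lit 221204) (nat_lit 20) .nil)))))))) (.g (nat_lit 4) .nil .nil)))) (.nd (nat_lit 5) 
(.lf (nat_lit 105053) (.g (nat_lit 2390) (.e (nat_lit 3744) (nat_lit 228) (.e (nat_lit 786457) (nat_lit 18) (.e (nat_lit 98373) (nat_lit 29) (.e (nat_lit 450561) (nat_lit 0) (.e (nat_lit 6420) (nat_lit 341) .nil))))) .nil)) 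
(.lf (nat_lit 105085) (.g (nat_lit 2996) (.e (nat_lit 3747) (nat_lit 228) (.e (nat_lit 786473) (nat_lit 27) (.e (nat_lit 336235) (nat_lit 14) (.e (nat_lit 401458) (nat_lit 13) (.e (nat_lit 483383) (nat_lit 23) (.e (nat_lit 336285) (nat_lit 15) .nil)))))) (.g (nat_lit 4) .nil .nil))))))) (.nd (nat_lit 2) (.nd (nat_lit 3) (.nd (nat_lit 4) (.nd (nat_lit 5) 
(.lf (nat_lit 105027) (.g (nat_lit 3190) (.e (nat_lit 7936) (nat_lit 227) (.e (nat_lit 778317) (nat_lit 3) (.e (nat_lit 57479) (nat_lit 28) (.e (nat_lit 557095) (nat_lit 13) (.e (nat_lit 172115) (nat_lit 10) .nil))))) .nil)) 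
(.lf (nat_lit 105059) (.g (nat_lit 3114) (.e (nat_lit 3746) (nat_lit 228) (.e (nat_lit 786457) (nat_lit 18) (.e (nat_lit 98373) (nat_lit 29) (.e (nat_lit 450563) (nat_lit 0) (.e (nat_lit 6416) (nat_lit 341) (.e (nat_lit 163885) (nat_lit 5) (.e (nat_lit 221204) (nat_lit 20) .nil))))))) (.g (nat_lit 4) .nil .nil)))) (.nd (nat_lit 5) 
(.lf (nat_lit 105043) (.g (nat_lit 2275) (.e (nat_lit 3735) (nat_lit 228) (.e (nat_lit 786473) (nat_lit 27) (.e (nat_lit 336235) (nat_lit 14) (.e (nat_lit 401459) (nat_lit 13) (.e (nat_lit 483381) (nat_lit 23) .nil))))) .nil)) 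
(.lf (nat_lit 105075) (.g (nat_lit 3200) (.e (nat_lit 3747) (nat_lit 228) (.e (nat_lit 786473) (nat_lit 27) (.e (nat_lit 336235) (nat_lit 14) (.e (nat_lit 401437) (nat_lit 9) (.e (nat_lit 426540) (nat_lit 29) (.e (nat_lit 352260) (nat_lit 0) .nil)))))) (.g (nat_lit 5) .nil .nil))))) (.nd (nat_lit 4) (.nd (nat_lit 5) 
(.lf (nat_lit 105035) (.g (nat_lit 3332) (.e (nat_lit 3733) (nat_lit 228) (.e (nat_lit 786470) (nat_lit 27) (.e (nat_lit 336226) (nat_lit 14) (.e (nat_lit 401459) (nat_lit 13) (.e (nat_lit 483380) (nat_lit 23) (.e (nat_lit 336260) (nat_lit 15) .nil)))))) (.g (nat_lit 0) .nil .nil))) 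
(.lf (nat_lit 105067) (.g (nat_lit 3323) (.e (nat_lit 3747) (nat_lit 228) (.e (nat_lit 786473) (nat_lit 27) (.e (nat_lit 336051) (nat_lit 6) (.e (nat_lit 147466) (nat_lit 9) (.e (nat_lit 307) (nat_lit 22) (.e (nat_lit 344117) (nat_lit 21) (.e (nat_lit 516129) (nat_lit 3) (.e (nat_lit 221204) (nat_lit 20) .nil)))))))) (.g (nat_lit 4) .nil .nil)))) (.nd (nat_lit 5) 
(.lf (nat_lit 105051) (.g (nat_lit 2321) (.e (nat_lit 3744) (nat_lit 228) (.e (nat_lit 786455) (nat_lit 17) (.e (nat_lit 90170) (nat_lit 13) (.e (nat_lit 172113) (nat_lit 10) (.e (nat_lit 434203) (nat_lit 18) (.e (nat_lit 6420) (nat_lit 341) (.e (nat_lit 163885) (nat_lit 5) (.e (nat_lit 221198) (nat_lit 20) .nil)))))))) (.g (nat_lit 5) .nil .nil))) 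
(.lf (nat_lit 105083) (.g (nat_lit 3595) (.e (nat_lit 3747) (nat_lit 228) (.e (nat_lit 786473) (nat_lit 27) (.e (nat_lit 336235) (nat_lit 14) (.e (nat_lit 401458) (nat_lit 13) (.e (nat_lit 483383) (nat_lit 23) (.e (nat_lit 336263) (nat_lit 15) .nil)))))) (.g (nat_lit 5) .nil .nil)))))) (.nd (nat_lit 3) (.nd (nat_lit 4) (.nd (nat_lit 5) 
(.lf (nat_lit 105031) (.g (nat_lit 1701) (.e (nat_lit 3733) (nat_lit 228) (.e (nat_lit 786455) (nat_lit 17) (.e (nat_lit 90170) (nat_lit 13) (.e (nat_lit 172113) (nat_lit 10) (.e (nat_lit 434203) (nat_lit 18) .nil))))) .nil)) 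
(.lf (nat_lit 105063) (.g (nat_lit 540) (.e (nat_lit 3746) (nat_lit 228) (.e (nat_lit 786480) (nat_lit 29) (.e (nat_lit 352302) (nat_lit 20) .nil))) .nil))) (.nd (nat_lit 5) 
(.lf (nat_lit 105047) (.g (nat_lit 3299) (.e (nat_lit 3743) (nat_lit 228) (.e (nat_lit 786447) (nat_lit 15) (.e (nat_lit 1848) (nat_lit 124) (.e (nat_lit 557107) (nat_lit 15) (.e (nat_lit 188450) (nat_lit 23) (.e (nat_lit 204852) (nat_lit 26) (.e (nat_lit 336284) (nat_lit 15) .nil))))))) (.g (nat_lit 6) .nil .nil))) 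
(.lf (nat_lit 105079) (.g (nat_lit 2615) (.e (nat_lit 3747) (nat_lit 228) (.e (nat_lit 786473) (nat_lit 27) (.e (nat_lit 336235) (nat_lit 14) (.e (nat_lit 401457) (nat_lit 13) (.e (nat_lit 483393) (nat_lit 23) (.e (nat_lit 336275) (nat_lit 15) .nil)))))) (.g (nat_lit 4) .nil .nil))))) (.nd (nat_lit 4) (.nd (nat_lit 5) 
(.lf (nat_lit 105039) (.g (nat_lit 1841) (.e (nat_lit 3733) (nat_lit 228) (.e (nat_lit 786483) (nat_lit 30) (.e (nat_lit 360453) (nat_lit 0) (.e (nat_lit 5907) (nat_lit 320) (.e (nat_lit 1219) (nat_lit 90) .nil))))) .nil)) 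
(.lf (nat_lit 105071) (.g (nat_lit 2126) (.e (nat_lit 3747) (nat_lit 228) (.e (nat_lit 786473) (nat_lit 27) (.e (nat_lit 336206) (nat_lit 12) (.e (nat_lit 385093) (nat_lit 49) (.e (nat_lit 778327) (nat_lit 6) (.e (nat_lit 81922) (nat_lit 0) .nil)))))) (.g (nat_lit 5) .nil .nil)))) (.nd (nat_lit 5) 
(.lf (nat_lit 105055) (.g (nat_lit 1231) (.e (nat_lit 3744) (nat_lit 228) (.e (nat_lit 786477) (nat_lit 28) (.e (nat_lit 344177) (nat_lit 43) (.e (nat_lit 770073) (nat_lit 9) .nil)))) .nil)) 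
(.lf (nat_lit 105087) (.g (nat_lit 2514) (.e (nat_lit 3747) (nat_lit 228) (.e (nat_lit 786473) (nat_lit 27) (.e (nat_lit 336235) (nat_lit 14) (.e (nat_lit 401458) (nat_lit 13) (.e (nat_lit 483387) (nat_lit 23) (.e (nat_lit 336267) (nat_lit 15) .nil)))))) (.g (nat_lit 4) .nil .nil)))))))))

noncomputable def tv1437 : DT := (.nd (nat_lit 0) (.nd (nat_lit 1) (.nd (nat_lit 2) (.nd (nat_lit 3) (.nd (nat_lit 4) (.nd (nat_lit 5) 
(.lf (nat_lit 105088) (.g (nat_lit 2446) (.e (nat_lit 3747) (nat_lit 228) (.e (nat_lit 786473) (nat_lit 27) (.e (nat_lit 336235) (nat_lit 14) (.e (nat_lit 401458) (nat_lit 13) (.e (nat_lit 483387) (nat_lit 23) (.e (nat_lit 336291) (nat_lit 15) .nil)))))) (.g (nat_lit 4) .nil .nil))) 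
(.lf (nat_lit 105120) (.g (nat_lit 1847) (.e (nat_lit 3747) (nat_lit 228) (.e (nat_lit 786478) (nat_lit 29) (.e (nat_lit 352309) (nat_lit 21) (.e (nat_lit 57871) (nat_lit 264) (.e (nat_lit 1219) (nat_lit 90) (.e (nat_lit 81924) (nat_lit 0) .nil)))))) (.g (nat_lit 4) .nil .nil)))) (.nd (nat_lit 5) 
(.lf (nat_lit 105104) (.g (nat_lit 3415) (.e (nat_lit 3747) (nat_lit 228) (.e (nat_lit 786473) (nat_lit 27) (.e (nat_lit 336235) (nat_lit 14) (.e (nat_lit 401459) (nat_lit 13) (.e (nat_lit 483381) (nat_lit 23) (.e (nat_lit 336266) (nat_lit 15) .nil)))))) (.g (nat_lit 5) .nil .nil))) 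
(.lf (nat_lit 105136) (.g (nat_lit 316) (.e (nat_lit 3747) (nat_lit 228) (.e (nat_lit 786481) (nat_lit 30) (.e (nat_lit 368384) (nat_lit 0) .nil))) .nil)))) (.nd (nat_lit 4) (.nd (nat_lit 5) 
(.lf (nat_lit 105096) (.g (nat_lit 2270) (.e (nat_lit 3747) (nat_lit 228) (.e (nat_lit 786473) (nat_lit 27) (.e (nat_lit 336235) (nat_lit 14) (.e (nat_lit 401459) (nat_lit 13) (.e (nat_lit 483379) (nat_lit 23) (.e (nat_lit 336265) (nat_lit 15) .nil)))))) (.g (nat_lit 4) .nil .nil))) 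
(.lf (nat_lit 105128) (.g (nat_lit 2873) (.e (nat_lit 3747) (nat_lit 228) (.e (nat_lit 786480) (nat_lit 29) (.e (nat_lit 352309) (nat_lit 21) (.e (nat_lit 57872) (nat_lit 264) (.e (nat_lit 1221) (nat_lit 90) (.e (nat_lit 81923) (nat_lit 0) .nil)))))) (.g (nat_lit 5) .nil .nil)))) (.nd (nat_lit 5) 
(.lf (nat_lit 105112) (.g (nat_lit 3206) (.e (nat_lit 3747) (nat_lit 228) (.e (nat_lit 786473) (nat_lit 27) (.e (nat_lit 336235) (nat_lit 14) (.e (nat_lit 401459) (nat_lit 13) (.e (nat_lit 483387) (nat_lit 23) (.e (nat_lit 336267) (nat_lit 15) .nil)))))) (.g (nat_lit 4) .nil .nil))) 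
(.lf (nat_lit 105144) (.g (nat_lit 1309) (.e (nat_lit 3747) (nat_lit 228) (.e (nat_lit 786483) (nat_lit 30) (.e (nat_lit 360486) (nat_lit 18) (.e (nat_lit 671748) (nat_lit 0) .nil)))) .nil))))) (.nd (nat_lit 3) (.nd (nat_lit 4) (.nd (nat_lit 5) 
(.lf (nat_lit 105092) (.g (nat_lit 2194) (.e (nat_lit 3747) (nat_lit 228) (.e (nat_lit 786473) (nat_lit 27) (.e (nat_lit 336235) (nat_lit 14) (.e (nat_lit 401458) (nat_lit 13) (.e (nat_lit 483391) (nat_lit 23) (.e (nat_lit 336300) (nat_lit 15) .nil)))))) (.g (nat_lit 4) .nil .nil))) 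
(.lf (nat_lit 105124) (.g (nat_lit 1257) (.e (nat_lit 3747) (nat_lit 228) (.e (nat_lit 786480) (nat_lit 29) (.e (nat_lit 352309) (nat_lit 21) (.e (nat_lit 57870) (nat_lit 264) .nil)))) .nil))) (.nd (nat_lit 5) 
(.lf (nat_lit 105108) (.g (nat_lit 2928) (.e (nat_lit 3747) (nat_lit 228) (.e (nat_lit 786473) (nat_lit 27) (.e (nat_lit 336235) (nat_lit 14) (.e (nat_lit 401459) (nat_lit 13) (.e (nat_lit 483386) (nat_lit 23) (.e (nat_lit 336267) (nat_lit 15) .nil)))))) (.g (nat_lit 5) .nil .nil))) 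
(.lf (nat_lit 105140) (.g (nat_lit 2612) (.e (nat_lit 3747) (nat_lit 228) (.e (nat_lit 786483) (nat_lit 30) (.e (nat_lit 360452) (nat_lit 0) (.e (nat_lit 5905) (nat_lit 320) (.e (nat_lit 1219) (nat_lit 90) (.e (nat_lit 81924) (nat_lit 0) .nil)))))) (.g (nat_lit 4) .nil .nil))))) (.nd (nat_lit 4) (.nd (nat_lit 5) 
(.lf (nat_lit 105100) (.g (nat_lit 3705) (.e (nat_lit 3747) (nat_lit 228) (.e (nat_lit 786473) (nat_lit 27) (.e (nat_lit 336235) (nat_lit 14) (.e (nat_lit 401459) (nat_lit 13) (.e (nat_lit 483380) (nat_lit 23) (.e (nat_lit 336265) (nat_lit 15) .nil)))))) (.g (nat_lit 5) .nil .nil))) 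
(.lf (nat_lit 105132) (.g (nat_lit 3370) (.e (nat_lit 3747) (nat_lit 228) (.e (nat_lit 786480) (nat_lit 29) (.e (nat_lit 352318) (nat_lit 24) (.e (nat_lit 123184) (nat_lit 264) (.e (nat_lit 1222) (nat_lit 90) (.e (nat_lit 81924) (nat_lit 0) .nil)))))) (.g (nat_lit 6) .nil .nil)))) (.nd (nat_lit 5) 
(.lf (nat_lit 105116) (.g (nat_lit 2149) (.e (nat_lit 3747) (nat_lit 228) (.e (nat_lit 786473) (nat_lit 27) (.e (nat_lit 336235) (nat_lit 14) (.e (nat_lit 401459) (nat_lit 13) (.e (nat_lit 483391) (nat_lit 23) (.e (nat_lit 336275) (nat_lit 15) .nil)))))) (.g (nat_lit 4) .nil .nil))) 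
(.lf (nat_lit 105148) (.g (nat_lit 2970) (.e (nat_lit 3748) (nat_lit 228) (.e (nat_lit 786470) (nat_lit 27) (.e (nat_lit 336193) (nat_lit 12) (.e (nat_lit 385105) (nat_lit 50) (.e (nat_lit 786480) (nat_lit 29) (.e (nat_lit 352262) (nat_lit 0) .nil)))))) (.g (nat_lit 5) .nil .nil))))))) (.nd (nat_lit 2) (.nd (nat_lit 3) (.nd (nat_lit 4) (.nd (nat_lit 5) 
(.lf (nat_lit 105090) (.g (nat_lit 2252) (.e (nat_lit 3747) (nat_lit 228) (.e (nat_lit 786473) (nat_lit 27) (.e (nat_lit 336235) (nat_lit 14) (.e (nat_lit 401458) (nat_lit 13) (.e (nat_lit 483387) (nat_lit 23) (.e (nat_lit 336294) (nat_lit 15) .nil)))))) (.g (nat_lit 4) .nil .nil))) 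
(.lf (nat_lit 105122) (.g (nat_lit 2136) (.e (nat_lit 3747) (nat_lit 228) (.e (nat_lit 786479) (nat_lit 29) (.e (nat_lit 352309) (nat_lit 21) (.e (nat_lit 57872) (nat_lit 264) (.e (nat_lit 1219) (nat_lit 90) (.e (nat_lit 81924) (nat_lit 0) .nil)))))) (.g (nat_lit 5) .nil .nil)))) (.nd (nat_lit 5) 
(.lf (nat_lit 105106) (.g (nat_lit 3435) (.e (nat_lit 3747) (nat_lit 228) (.e (nat_lit 786473) (nat_lit 27) (.e (nat_lit 336235) (nat_lit 14) (.e (nat_lit 401459) (nat_lit 13) (.e (nat_lit 483381) (nat_lit 23) (.e (nat_lit 336286) (nat_lit 15) .nil)))))) (.g (nat_lit 5) .nil .nil))) 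
(.lf (nat_lit 105138) (.g (nat_lit 654) (.e (nat_lit 3747) (nat_lit 228) (.e (nat_lit 786483) (nat_lit 30) (.e (nat_lit 360448) (nat_lit 0) .nil))) .nil)))) (.nd (nat_lit 4) (.nd (nat_lit 5) 
(.lf (nat_lit 105098) (.g (nat_lit 3944) (.e (nat_lit 3747) (nat_lit 228) (.e (nat_lit 786473) (nat_lit 27) (.e (nat_lit 336235) (nat_lit 14) (.e (nat_lit 401459) (nat_lit 13) (.e (nat_lit 483380) (nat_lit 23) (.e (nat_lit 336262) (nat_lit 15) .nil)))))) (.g (nat_lit 5) .nil .nil))) 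
(.lf (nat_lit 105130) (.g (nat_lit 2688) (.e (nat_lit 3747) (nat_lit 228) (.e (nat_lit 786480) (nat_lit 29) (.e (nat_lit 352309) (nat_lit 21) (.e (nat_lit 57873) (nat_lit 264) (.e (nat_lit 1219) (nat_lit 90) (.e (nat_lit 81924) (nat_lit 0) .nil)))))) (.g (nat_lit 4) .nil .nil)))) (.nd (nat_lit 5) 
(.lf (nat_lit 105114) (.g (nat_lit 3308) (.e (nat_lit 3747) (nat_lit 228) (.e (nat_lit 786473) (nat_lit 27) (.e (nat_lit 336235) (nat_lit 14) (.e (nat_lit 401459) (nat_lit 13) (.e (nat_lit 483387) (nat_lit 23) (.e (nat_lit 336292) (nat_lit 15) .nil)))))) (.g (nat_lit 4) .nil .nil))) 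
(.lf (nat_lit 105146) (.g (nat_lit 2295) (.e (nat_lit 3748) (nat_lit 228) (.e (nat_lit 786467) (nat_lit 27) (.e (nat_lit 336205) (nat_lit 12) (.e (nat_lit 385106) (nat_lit 50) (.e (nat_lit 786480) (nat_lit 29) (.e (nat_lit 352265) (nat_lit 0) .nil)))))) (.g (nat_lit 5) .nil .nil)))))) (.nd (nat_lit 3) (.nd (nat_lit 4) (.nd (nat_lit 5) 
(.lf (nat_lit 105094) (.g (nat_lit 2322) (.e (nat_lit 3747) (nat_lit 228) (.e (nat_lit 786473) (nat_lit 27) (.e (nat_lit 336235) (nat_lit 14) (.e (nat_lit 401459) (nat_lit 13) (.e (nat_lit 483379) (nat_lit 23) (.e (nat_lit 336262) (nat_lit 15) .nil)))))) (.g (nat_lit 4) .nil .nil))) 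
(.lf (nat_lit 105126) (.g (nat_lit 3326) (.e (nat_lit 3747) (nat_lit 228) (.e (nat_lit 786480) (nat_lit 29) (.e (nat_lit 352309) (nat_lit 21) (.e (nat_lit 57872) (nat_lit 264) (.e (nat_lit 1219) (nat_lit 90) (.e (nat_lit 81922) (nat_lit 0) .nil)))))) (.g (nat_lit 5) .nil .nil)))) (.nd (nat_lit 5) 
(.lf (nat_lit 105110) (.g (nat_lit 2672) (.e (nat_lit 3747) (nat_lit 228) (.e (nat_lit 786473) (nat_lit 27) (.e (nat_lit 336235) (nat_lit 14) (.e (nat_lit 401459) (nat_lit 13) (.e (nat_lit 483386) (nat_lit 23) (.e (nat_lit 336291) (nat_lit 15) .nil)))))) (.g (nat_lit 5) .nil .nil))) 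
(.lf (nat_lit 105142) (.g (nat_lit 425) (.e (nat_lit 3747) (nat_lit 228) (.e (nat_lit 786483) (nat_lit 30) (.e (nat_lit 368384) (nat_lit 0) .nil))) .nil)))) (.nd (nat_lit 4) (.nd (nat_lit 5) 
(.lf (nat_lit 105102) (.g (nat_lit 3108) (.e (nat_lit 3747) (nat_lit 228) (.e (nat_lit 786473) (nat_lit 27) (.e (nat_lit 336235) (nat_lit 14) (.e (nat_lit 401459) (nat_lit 13) (.e (nat_lit 483381) (nat_lit 23) (.e (nat_lit 336264) (nat_lit 15) .nil)))))) (.g (nat_lit 4) .nil .nil))) 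
(.lf (nat_lit 105134) (.g (nat_lit 1760) (.e (nat_lit 3747) (nat_lit 228) (.e (nat_lit 786481) (nat_lit 30) (.e (nat_lit 360449) (nat_lit 0) (.e (nat_lit 5896) (nat_lit 320) (.e (nat_lit 7936) (nat_lit 90) (.e (nat_lit 81924) (nat_lit 0) .nil)))))) (.g (nat_lit 4) .nil .nil)))) (.nd (nat_lit 5) 
(.lf (nat_lit 105118) (.g (nat_lit 2969) (.e (nat_lit 3747) (nat_lit 228) (.e (nat_lit 786473) (nat_lit 27) (.e (nat_lit 336235) (nat_lit 14) (.e (nat_lit 401459) (nat_lit 13) (.e (nat_lit 483393) (nat_lit 23) (.e (nat_lit 336275) (nat_lit 15) .nil)))))) (.g (nat_lit 4) .nil .nil))) 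
(.lf (nat_lit 105150) (.g (nat_lit 1813) (.e (nat_lit 3748) (nat_lit 228) (.e (nat_lit 786473) (nat_lit 27) (.e (nat_lit 336206) (nat_lit 12) (.e (nat_lit 385105) (nat_lit 50) (.e (nat_lit 786478) (nat_lit 29) (.e (nat_lit 352262) (nat_lit 0) .nil)))))) (.g (nat_lit 4) .nil .nil)))))))) (.nd (nat_lit 1) (.nd (nat_lit 2) (.nd (nat_lit 3) (.nd (nat_lit 4) (.nd (nat_lit 5) 
(.lf (nat_lit 105089) (.g (nat_lit 2590) (.e (nat_lit 3747) (nat_lit 228) (.e (nat_lit 786473) (nat_lit 27) (.e (nat_lit 336235) (nat_lit 14) (.e (nat_lit 401458) (nat_lit 13) (.e (nat_lit 483387) (nat_lit 23) (.e (nat_lit 336292) (nat_lit 15) .nil)))))) (.g (nat_lit 4) .nil .nil))) 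
(.lf (nat_lit 105121) (.g (nat_lit 2701) (.e (nat_lit 3747) (nat_lit 228) (.e (nat_lit 786478) (nat_lit 29) (.e (nat_lit 352309) (nat_lit 21) (.e (nat_lit 57872) (nat_lit 264) (.e (nat_lit 1219) (nat_lit 90) (.e (nat_lit 81924) (nat_lit 0) .nil)))))) (.g (nat_lit 5) .nil .nil)))) (.nd (nat_lit 5) 
(.lf (nat_lit 105105) (.g (nat_lit 3447) (.e (nat_lit 3747) (nat_lit 228) (.e (nat_lit 786473) (nat_lit 27) (.e (nat_lit 336235) (nat_lit 14) (.e (nat_lit 401459) (nat_lit 13) (.e (nat_lit 483381) (nat_lit 23) (.e (nat_lit 336270) (nat_lit 15) .nil)))))) (.g (nat_lit 5) .nil .nil))) 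
(.lf (nat_lit 105137) (.g (nat_lit 316) (.e (nat_lit 3747) (nat_lit 228) (.e (nat_lit 786481) (nat_lit 30) (.e (nat_lit 368384) (nat_lit 17) .nil))) .nil)))) (.nd (nat_lit 4) (.nd (nat_lit 5) 
(.lf (nat_lit 105097) (.g (nat_lit 2427) (.e (nat_lit 3747) (nat_lit 228) (.e (nat_lit 786473) (nat_lit 27) (.e (nat_lit 336235) (nat_lit 14) (.e (nat_lit 401459) (nat_lit 13) (.e (nat_lit 483379) (nat_lit 23) (.e (nat_lit 336266) (nat_lit 15) .nil)))))) (.g (nat_lit 4) .nil .nil))) 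
(.lf (nat_lit 105129) (.g (nat_lit 2836) (.e (nat_lit 3747) (nat_lit 228) (.e (nat_lit 786480) (nat_lit 29) (.e (nat_lit 352309) (nat_lit 21) (.e (nat_lit 57873) (nat_lit 264) (.e (nat_lit 1219) (nat_lit 90) (.e (nat_lit 81922) (nat_lit 0) .nil)))))) (.g (nat_lit 4) .nil .nil)))) (.nd (nat_lit 5) 
(.lf (nat_lit 105113) (.g (nat_lit 3168) (.e (nat_lit 3747) (nat_lit 228) (.e (nat_lit 786473) (nat_lit 27) (.e (nat_lit 336235) (nat_lit 14) (.e (nat_lit 401459) (nat_lit 13) (.e (nat_lit 483387) (nat_lit 23) (.e (nat_lit 336291) (nat_lit 15) .nil)))))) (.g (nat_lit 4) .nil .nil))) 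
(.lf (nat_lit 105145) (.g (nat_lit 2781) (.e (nat_lit 3748) (nat_lit 228) (.e (nat_lit 786450) (nat_lit 15) (.e (nat_lit 1853) (nat_lit 124) (.e (nat_lit 557100) (nat_lit 13) (.e (nat_lit 172106) (nat_lit 10) (.e (nat_lit 434231) (nat_lit 23) (.e (nat_lit 532535) (nat_lit 9) (.e (nat_lit 336282) (nat_lit 15) .nil)))))))) (.g (nat_lit 4) .nil .nil)))))) 
(.nd (nat_lit 3) (.nd (nat_lit 4) (.nd (nat_lit 5) 
(.lf (nat_lit 105093) (.g (nat_lit 2842) (.e (nat_lit 3747) (nat_lit 228) (.e (nat_lit 786473) (nat_lit 27) (.e (nat_lit 336235) (nat_lit 14) (.e (nat_lit 401458) (nat_lit 13) (.e (nat_lit 483393) (nat_lit 23) (.e (nat_lit 336275) (nat_lit 15) .nil)))))) (.g (nat_lit 4) .nil .nil))) 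
(.lf (nat_lit 105125) (.g (nat_lit 2790) (.e (nat_lit 3747) (nat_lit 228) (.e (nat_lit 786480) (nat_lit 29) (.e (nat_lit 352309) (nat_lit 21) (.e (nat_lit 57870) (nat_lit 264) (.e (nat_lit 1219) (nat_lit 90) (.e (nat_lit 81924) (nat_lit 0) .nil)))))) (.g (nat_lit 5) .nil .nil)))) (.nd (nat_lit 5) 
(.lf (nat_lit 105109) (.g (nat_lit 2456) (.e (nat_lit 3747) (nat_lit 228) (.e (nat_lit 786473) (nat_lit 27) (.e (nat_lit 336235) (nat_lit 14) (.e (nat_lit 401459) (nat_lit 13) (.e (nat_lit 483386) (nat_lit 23) (.e (nat_lit 336282) (nat_lit 15) .nil)))))) (.g (nat_lit 4) .nil .nil))) 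
(.lf (nat_lit 105141) (.g (nat_lit 2972) (.e (nat_lit 3747) (nat_lit 228) (.e (nat_lit 786483) (nat_lit 30) (.e (nat_lit 360453) (nat_lit 0) (.e (nat_lit 5907) (nat_lit 320) (.e (nat_lit 1219) (nat_lit 90) (.e (nat_lit 81924) (nat_lit 0) .nil)))))) (.g (nat_lit 5) .nil .nil))))) (.nd (nat_lit 4) (.nd (nat_lit 5) 
(.lf (nat_lit 105101) (.g (nat_lit 3437) (.e (nat_lit 3747) (nat_lit 228) (.e (nat_lit 786473) (nat_lit 27) (.e (nat_lit 336235) (nat_lit 14) (.e (nat_lit 401459) (nat_lit 13) (.e (nat_lit 483381) (nat_lit 23) (.e (nat_lit 336263) (nat_lit 15) .nil)))))) (.g (nat_lit 5) .nil .nil))) 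
(.lf (nat_lit 105133) (.g (nat_lit 1810) (.e (nat_lit 3747) (nat_lit 228) (.e (nat_lit 786481) (nat_lit 30) (.e (nat_lit 360449) (nat_lit 0) (.e (nat_lit 5896) (nat_lit 320) (.e (nat_lit 7936) (nat_lit 90) (.e (nat_lit 81922) (nat_lit 0) .nil)))))) (.g (nat_lit 4) .nil .nil)))) (.nd (nat_lit 5) 
(.lf (nat_lit 105117) (.g (nat_lit 2362) (.e (nat_lit 3747) (nat_lit 228) (.e (nat_lit 786473) (nat_lit 27) (.e (nat_lit 336235) (nat_lit 14) (.e (nat_lit 401459) (nat_lit 13) (.e (nat_lit 483391) (nat_lit 23) (.e (nat_lit 336300) (nat_lit 15) .nil)))))) (.g (nat_lit 4) .nil .nil))) 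
(.lf (nat_lit 105149) (.g (nat_lit 547) (.e (nat_lit 3748) (nat_lit 228) (.e (nat_lit 786473) (nat_lit 27) (.e (nat_lit 335874) (nat_lit 0) (.e (nat_lit 6717) (nat_lit 361) .nil)))) .nil)))))) (.nd (nat_lit 2) (.nd (nat_lit 3) (.nd (nat_lit 4) (.nd (nat_lit 5) 
(.lf (nat_lit 105091) (.g (nat_lit 1974) (.e (nat_lit 3747) (nat_lit 228) (.e (nat_lit 786473) (nat_lit 27) (.e (nat_lit 336235) (nat_lit 14) (.e (nat_lit 401458) (nat_lit 13) (.e (nat_lit 483391) (nat_lit 23) (.e (nat_lit 336275) (nat_lit 15) .nil)))))) (.g (nat_lit 4) .nil .nil))) 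
(.lf (nat_lit 105123) (.g (nat_lit 768) (.e (nat_lit 3747) (nat_lit 228) (.e (nat_lit 786480) (nat_lit 29) (.e (nat_lit 352308) (nat_lit 21) .nil))) .nil))) (.nd (nat_lit 5) 
(.lf (nat_lit 105107) (.g (nat_lit 2841) (.e (nat_lit 3747) (nat_lit 228) (.e (nat_lit 786473) (nat_lit 27) (.e (nat_lit 336235) (nat_lit 14) (.e (nat_lit 401459) (nat_lit 13) (.e (nat_lit 483381) (nat_lit 23) (.e (nat_lit 336301) (nat_lit 15) .nil)))))) (.g (nat_lit 4) .nil .nil))) 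
(.lf (nat_lit 105139) (.g (nat_lit 2351) (.e (nat_lit 3747) (nat_lit 228) (.e (nat_lit 786483) (nat_lit 30) (.e (nat_lit 360452) (nat_lit 0) (.e (nat_lit 5905) (nat_lit 320) (.e (nat_lit 1219) (nat_lit 90) (.e (nat_lit 81922) (nat_lit 0) .nil)))))) (.g (nat_lit 4) .nil .nil))))) (.nd (nat_lit 4) (.nd (nat_lit 5) 
(.lf (nat_lit 105099) (.g (nat_lit 3576) (.e (nat_lit 3747) (nat_lit 228) (.e (nat_lit 786473) (nat_lit 27) (.e (nat_lit 336235) (nat_lit 14) (.e (nat_lit 401459) (nat_lit 13) (.e (nat_lit 483380) (nat_lit 23) (.e (nat_lit 336264) (nat_lit 15) .nil)))))) (.g (nat_lit 5) .nil .nil))) 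
(.lf (nat_lit 105131) (.g (nat_lit 2710) (.e (nat_lit 3747) (nat_lit 228) (.e (nat_lit 786480) (nat_lit 29) (.e (nat_lit 352318) (nat_lit 24) (.e (nat_lit 123182) (nat_lit 264) (.e (nat_lit 1224) (nat_lit 90) (.e (nat_lit 81922) (nat_lit 0) .nil)))))) (.g (nat_lit 4) .nil .nil)))) (.nd (nat_lit 5) 
(.lf (nat_lit 105115) (.g (nat_lit 3040) (.e (nat_lit 3747) (nat_lit 228) (.e (nat_lit 786473) (nat_lit 27) (.e (nat_lit 336235) (nat_lit 14) (.e (nat_lit 401459) (nat_lit 13) (.e (nat_lit 483387) (nat_lit 23) (.e (nat_lit 336294) (nat_lit 15) .nil)))))) (.g (nat_lit 4) .nil .nil))) 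
(.lf (nat_lit 105147) (.g (nat_lit 2832) (.e (nat_lit 3748) (nat_lit 228) (.e (nat_lit 786470) (nat_lit 27) (.e (nat_lit 336193) (nat_lit 12) (.e (nat_lit 385105) (nat_lit 50) (.e (nat_lit 786478) (nat_lit 29) (.e (nat_lit 352262) (nat_lit 0) .nil)))))) (.g (nat_lit 5) .nil .nil)))))) (.nd (nat_lit 3) (.nd (nat_lit 4) (.nd (nat_lit 5) 
(.lf (nat_lit 105095) (.g (nat_lit 2027) (.e (nat_lit 3747) (nat_lit 228) (.e (nat_lit 786473) (nat_lit 27) (.e (nat_lit 336235) (nat_lit 14) (.e (nat_lit 401459) (nat_lit 13) (.e (nat_lit 483379) (nat_lit 23) (.e (nat_lit 336263) (nat_lit 15) .nil)))))) (.g (nat_lit 4) .nil .nil))) 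
(.lf (nat_lit 105127) (.g (nat_lit 2383) (.e (nat_lit 3747) (nat_lit 228) (.e (nat_lit 786480) (nat_lit 29) (.e (nat_lit 352309) (nat_lit 21) (.e (nat_lit 57872) (nat_lit 264) (.e (nat_lit 1221) (nat_lit 90) (.e (nat_lit 81922) (nat_lit 0) .nil)))))) (.g (nat_lit 4) .nil .nil)))) (.nd (nat_lit 5) 
(.lf (nat_lit 105111) (.g (nat_lit 2213) (.e (nat_lit 3747) (nat_lit 228) (.e (nat_lit 786473) (nat_lit 27) (.e (nat_lit 336235) (nat_lit 14) (.e (nat_lit 401459) (nat_lit 13) (.e (nat_lit 483386) (nat_lit 23) (.e (nat_lit 336294) (nat_lit 15) .nil)))))) (.g (nat_lit 4) .nil .nil))) 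
(.lf (nat_lit 105143) (.g (nat_lit 2243) (.e (nat_lit 3747) (nat_lit 228) (.e (nat_lit 786483) (nat_lit 30) (.e (nat_lit 368384) (nat_lit 0) (.e (nat_lit 5905) (nat_lit 320) (.e (nat_lit 1219) (nat_lit 90) (.e (nat_lit 81922) (nat_lit 0) .nil)))))) (.g (nat_lit 5) .nil .nil))))) (.nd (nat_lit 4) (.nd (nat_lit 5) 
(.lf (nat_lit 105103) (.g (nat_lit 3465) (.e (nat_lit 3747) (nat_lit 228) (.e (nat_lit 786473) (nat_lit 27) (.e (nat_lit 336235) (nat_lit 14) (.e (nat_lit 401459) (nat_lit 13) (.e (nat_lit 483381) (nat_lit 23) (.e (nat_lit 336265) (nat_lit 15) .nil)))))) (.g (nat_lit 5) .nil .nil))) 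
(.lf (nat_lit 105135) (.g (nat_lit 2442) (.e (nat_lit 3747) (nat_lit 228) (.e (nat_lit 786481) (nat_lit 30) (.e (nat_lit 360452) (nat_lit 0) (.e (nat_lit 5905) (nat_lit 320) (.e (nat_lit 1219) (nat_lit 90) (.e (nat_lit 81922) (nat_lit 0) .nil)))))) (.g (nat_lit 5) .nil .nil)))) (.nd (nat_lit 5) 
(.lf (nat_lit 105119) (.g (nat_lit 2615) (.e (nat_lit 3747) (nat_lit 228) (.e (nat_lit 786473) (nat_lit 27) (.e (nat_lit 336235) (nat_lit 14) (.e (nat_lit 401459) (nat_lit 13) (.e (nat_lit 483393) (nat_lit 23) (.e (nat_lit 336293) (nat_lit 15) .nil)))))) (.g (nat_lit 4) .nil .nil))) 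
(.lf (nat_lit 105151) (.g (nat_lit 2994) (.e (nat_lit 3748) (nat_lit 228) (.e (nat_lit 786473) (nat_lit 27) (.e (nat_lit 336235) (nat_lit 14) (.e (nat_lit 401457) (nat_lit 13) (.e (nat_lit 483391) (nat_lit 23) (.e (nat_lit 336300) (nat_lit 15) .nil)))))) (.g (nat_lit 6) .nil .nil)))))))))

noncomputable def tv1438 : DT := (.nd (nat_lit 0) (.nd (nat_lit 1) (.nd (nat_lit 2) (.nd (nat_lit 3) (.nd (nat_lit 4) (.nd (nat_lit 5) 
(.lf (nat_lit 105152) (.g (nat_lit 3592) (.e (nat_lit 3748) (nat_lit 228) (.e (nat_lit 786473) (nat_lit 27) (.e (nat_lit 336235) (nat_lit 14) (.e (nat_lit 401458) (nat_lit 13) (.e (nat_lit 483383) (nat_lit 23) (.e (nat_lit 336265) (nat_lit 15) .nil)))))) (.g (nat_lit 5) .nil .nil))) 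
(.lf (nat_lit 105184) (.g (nat_lit 1657) (.e (nat_lit 3748) (nat_lit 228) (.e (nat_lit 786481) (nat_lit 30) (.e (nat_lit 360449) (nat_lit 0) (.e (nat_lit 5896) (nat_lit 320) (.e (nat_lit 7936) (nat_lit 90) (.e (nat_lit 81922) (nat_lit 0) .nil)))))) (.g (nat_lit 4) .nil .nil)))) (.nd (nat_lit 5) 
(.lf (nat_lit 105168) (.g (nat_lit 1598) (.e (nat_lit 3748) (nat_lit 228) (.e (nat_lit 786478) (nat_lit 29) (.e (nat_lit 352309) (nat_lit 21) (.e (nat_lit 57871) (nat_lit 264) (.e (nat_lit 1219) (nat_lit 90) (.e (nat_lit 81924) (nat_lit 0) .nil)))))) (.g (nat_lit 4) .nil .nil))) 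
(.lf (nat_lit 105200) (.g (nat_lit 2350) (.e (nat_lit 3754) (nat_lit 229) (.e (nat_lit 794637) (nat_lit 11) (.e (nat_lit 336021) (nat_lit 3) (.e (nat_lit 98365) (nat_lit 26) (.e (nat_lit 426188) (nat_lit 9) .nil))))) .nil)))) (.nd (nat_lit 4) (.nd (nat_lit 5) 
(.lf (nat_lit 105160) (.g (nat_lit 3062) (.e (nat_lit 3748) (nat_lit 228) (.e (nat_lit 786473) (nat_lit 27) (.e (nat_lit 336235) (nat_lit 14) (.e (nat_lit 401459) (nat_lit 13) (.e (nat_lit 483381) (nat_lit 23) (.e (nat_lit 336270) (nat_lit 15) .nil)))))) (.g (nat_lit 5) .nil .nil))) 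
(.lf (nat_lit 105192) (.g (nat_lit 2918) (.e (nat_lit 3748) (nat_lit 228) (.e (nat_lit 786483) (nat_lit 30) (.e (nat_lit 360453) (nat_lit 0) (.e (nat_lit 5907) (nat_lit 320) (.e (nat_lit 1219) (nat_lit 90) (.e (nat_lit 81924) (nat_lit 0) .nil)))))) (.g (nat_lit 5) .nil .nil)))) (.nd (nat_lit 5) 
(.lf (nat_lit 105176) (.g (nat_lit 3296) (.e (nat_lit 3748) (nat_lit 228) (.e (nat_lit 786480) (nat_lit 29) (.e (nat_lit 352309) (nat_lit 21) (.e (nat_lit 57872) (nat_lit 264) (.e (nat_lit 1219) (nat_lit 90) (.e (nat_lit 81922) (nat_lit 0) .nil)))))) (.g (nat_lit 5) .nil .nil))) 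
(.lf (nat_lit 105208) (.g (nat_lit 1938) (.e (nat_lit 3757) (nat_lit 229) (.e (nat_lit 794637) (nat_lit 11) (.e (nat_lit 336012) (nat_lit 2) (.e (nat_lit 90176) (nat_lit 15) (.e (nat_lit 196352) (nat_lit 3) (.e (nat_lit 98319) (nat_lit 17) .nil)))))) (.g (nat_lit 4) .nil .nil)))))) (.nd (nat_lit 3) (.nd (nat_lit 4) (.nd (nat_lit 5) 
(.lf (nat_lit 105156) (.g (nat_lit 3069) (.e (nat_lit 3748) (nat_lit 228) (.e (nat_lit 786473) (nat_lit 27) (.e (nat_lit 336235) (nat_lit 14) (.e (nat_lit 401458) (nat_lit 13) (.e (nat_lit 483391) (nat_lit 23) (.e (nat_lit 336300) (nat_lit 15) .nil)))))) (.g (nat_lit 6) .nil .nil))) 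
(.lf (nat_lit 105188) (.g (nat_lit 1756) (.e (nat_lit 3748) (nat_lit 228) (.e (nat_lit 786483) (nat_lit 30) (.e (nat_lit 360451) (nat_lit 0) (.e (nat_lit 5898) (nat_lit 320) (.e (nat_lit 1218) (nat_lit 90) (.e (nat_lit 81924) (nat_lit 0) .nil)))))) (.g (nat_lit 4) .nil .nil)))) (.nd (nat_lit 5) 
(.lf (nat_lit 105172) (.g (nat_lit 705) (.e (nat_lit 3748) (nat_lit 228) (.e (nat_lit 786480) (nat_lit 29) (.e (nat_lit 352308) (nat_lit 21) .nil))) .nil)) 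
(.lf (nat_lit 105204) (.g (nat_lit 1593) (.e (nat_lit 3757) (nat_lit 229) (.e (nat_lit 794637) (nat_lit 11) (.e (nat_lit 336002) (nat_lit 2) (.e (nat_lit 90185) (nat_lit 17) (.e (nat_lit 237619) (nat_lit 12) .nil))))) .nil)))) (.nd (nat_lit 4) (.nd (nat_lit 5) 
(.lf (nat_lit 105164) (.g (nat_lit 2517) (.e (nat_lit 3748) (nat_lit 228) (.e (nat_lit 786473) (nat_lit 27) (.e (nat_lit 336235) (nat_lit 14) (.e (nat_lit 401459) (nat_lit 13) (.e (nat_lit 483387) (nat_lit 23) (.e (nat_lit 336291) (nat_lit 15) .nil)))))) (.g (nat_lit 4) .nil .nil))) 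
(.lf (nat_lit 105196) (.g (nat_lit 595) (.e (nat_lit 3753) (nat_lit 228) (.e (nat_lit 786478) (nat_lit 29) (.e (nat_lit 352270) (nat_lit 8) .nil))) .nil))) (.nd (nat_lit 5) 
(.lf (nat_lit 105180) (.g (nat_lit 2554) (.e (nat_lit 3748) (nat_lit 228) (.e (nat_lit 786480) (nat_lit 29) (.e (nat_lit 352309) (nat_lit 21) (.e (nat_lit 57873) (nat_lit 264) (.e (nat_lit 1219) (nat_lit 90) (.e (nat_lit 81924) (nat_lit 0) .nil)))))) (.g (nat_lit 4) .nil .nil))) 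
(.lf (nat_lit 105212) (.g (nat_lit 1502) (.e (nat_lit 3757) (nat_lit 229) (.e (nat_lit 794637) (nat_lit 11) (.e (nat_lit 336012) (nat_lit 2) (.e (nat_lit 90185) (nat_lit 17) (.e (nat_lit 237616) (nat_lit 12) .nil))))) .nil)))))) (.nd (nat_lit 2) (.nd (nat_lit 3) (.nd (nat_lit 4) (.nd (nat_lit 5) 
(.lf (nat_lit 105154) (.g (nat_lit 2662) (.e (nat_lit 3748) (nat_lit 228) (.e (nat_lit 786473) (nat_lit 27) (.e (nat_lit 336235) (nat_lit 14) (.e (nat_lit 401458) (nat_lit 13) (.e (nat_lit 483387) (nat_lit 23) (.e (nat_lit 336282) (nat_lit 15) .nil)))))) (.g (nat_lit 4) .nil .nil))) 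
(.lf (nat_lit 105186) (.g (nat_lit 2138) (.e (nat_lit 3748) (nat_lit 228) (.e (nat_lit 786483) (nat_lit 30) (.e (nat_lit 360450) (nat_lit 0) (.e (nat_lit 5898) (nat_lit 320) (.e (nat_lit 7936) (nat_lit 90) (.e (nat_lit 81924) (nat_lit 0) .nil)))))) (.g (nat_lit 4) .nil .nil)))) (.nd (nat_lit 5) 
(.lf (nat_lit 105170) (.g (nat_lit 2793) (.e (nat_lit 3748) (nat_lit 228) (.e (nat_lit 786478) (nat_lit 29) (.e (nat_lit 352318) (nat_lit 24) (.e (nat_lit 123197) (nat_lit 266) (.e (nat_lit 57424) (nat_lit 14) (.e (nat_lit 352262) (nat_lit 0) .nil)))))) (.g (nat_lit 5) .nil .nil))) 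
(.lf (nat_lit 105202) (.g (nat_lit 1610) (.e (nat_lit 3757) (nat_lit 229) (.e (nat_lit 794633) (nat_lit 11) (.e (nat_lit 336012) (nat_lit 2) (.e (nat_lit 90178) (nat_lit 15) (.e (nat_lit 196352) (nat_lit 3) .nil))))) .nil)))) (.nd (nat_lit 4) (.nd (nat_lit 5) 
(.lf (nat_lit 105162) (.g (nat_lit 1986) (.e (nat_lit 3748) (nat_lit 228) (.e (nat_lit 786473) (nat_lit 27) (.e (nat_lit 336235) (nat_lit 14) (.e (nat_lit 401459) (nat_lit 13) (.e (nat_lit 483386) (nat_lit 23) (.e (nat_lit 336291) (nat_lit 15) .nil)))))) (.g (nat_lit 4) .nil .nil))) 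
(.lf (nat_lit 105194) (.g (nat_lit 2189) (.e (nat_lit 3748) (nat_lit 228) (.e (nat_lit 786483) (nat_lit 30) (.e (nat_lit 368384) (nat_lit 0) (.e (nat_lit 5905) (nat_lit 320) (.e (nat_lit 1219) (nat_lit 90) (.e (nat_lit 81922) (nat_lit 0) .nil)))))) (.g (nat_lit 5) .nil .nil)))) (.nd (nat_lit 5) 
(.lf (nat_lit 105178) (.g (nat_lit 2431) (.e (nat_lit 3748) (nat_lit 228) (.e (nat_lit 786480) (nat_lit 29) (.e (nat_lit 352309) (nat_lit 21) (.e (nat_lit 57872) (nat_lit 264) (.e (nat_lit 1221) (nat_lit 90) (.e (nat_lit 81923) (nat_lit 0) .nil)))))) (.g (nat_lit 4) .nil .nil))) 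
(.lf (nat_lit 105210) (.g (nat_lit 892) (.e (nat_lit 3757) (nat_lit 229) (.e (nat_lit 794637) (nat_lit 11) (.e (nat_lit 336012) (nat_lit 2) (.e (nat_lit 90185) (nat_lit 17) .nil)))) .nil))))) (.nd (nat_lit 3) (.nd (nat_lit 4) (.nd (nat_lit 5) 
(.lf (nat_lit 105158) (.g (nat_lit 3049) (.e (nat_lit 3748) (nat_lit 228) (.e (nat_lit 786473) (nat_lit 27) (.e (nat_lit 336235) (nat_lit 14) (.e (nat_lit 401459) (nat_lit 13) (.e (nat_lit 483381) (nat_lit 23) (.e (nat_lit 336263) (nat_lit 15) .nil)))))) (.g (nat_lit 5) .nil .nil))) 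
(.lf (nat_lit 105190) (.g (nat_lit 2306) (.e (nat_lit 3748) (nat_lit 228) (.e (nat_lit 786483) (nat_lit 30) (.e (nat_lit 360452) (nat_lit 0) (.e (nat_lit 5905) (nat_lit 320) (.e (nat_lit 1219) (nat_lit 90) (.e (nat_lit 81924) (nat_lit 0) .nil)))))) (.g (nat_lit 4) .nil .nil)))) (.nd (nat_lit 5) 
(.lf (nat_lit 105174) (.g (nat_lit 2449) (.e (nat_lit 3748) (nat_lit 228) (.e (nat_lit 786480) (nat_lit 29) (.e (nat_lit 352309) (nat_lit 21) (.e (nat_lit 57870) (nat_lit 264) (.e (nat_lit 1219) (nat_lit 90) (.e (nat_lit 81922) (nat_lit 0) .nil)))))) (.g (nat_lit 5) .nil .nil))) 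
(.lf (nat_lit 105206) (.g (nat_lit 1012) (.e (nat_lit 3757) (nat_lit 229) (.e (nat_lit 794637) (nat_lit 11) (.e (nat_lit 336012) (nat_lit 2) (.e (nat_lit 90176) (nat_lit 15) .nil)))) .nil)))) (.nd (nat_lit 4) (.nd (nat_lit 5) 
(.lf (nat_lit 105166) (.g (nat_lit 2334) (.e (nat_lit 3748) (nat_lit 228) (.e (nat_lit 786473) (nat_lit 27) (.e (nat_lit 336235) (nat_lit 14) (.e (nat_lit 401459) (nat_lit 13) (.e (nat_lit 483387) (nat_lit 23) (.e (nat_lit 336294) (nat_lit 15) .nil)))))) (.g (nat_lit 4) .nil .nil))) 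
(.lf (nat_lit 105198) (.g (nat_lit 1173) (.e (nat_lit 3754) (nat_lit 229) (.e (nat_lit 794637) (nat_lit 11) (.e (nat_lit 336012) (nat_lit 2) (.e (nat_lit 90178) (nat_lit 15) .nil)))) .nil))) (.nd (nat_lit 5) 
(.lf (nat_lit 105182) (.g (nat_lit 2589) (.e (nat_lit 3748) (nat_lit 228) (.e (nat_lit 786480) (nat_lit 29) (.e (nat_lit 352318) (nat_lit 24) (.e (nat_lit 123182) (nat_lit 264) (.e (nat_lit 1224) (nat_lit 90) (.e (nat_lit 81922) (nat_lit 0) .nil)))))) (.g (nat_lit 4) .nil .nil))) 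
(.lf (nat_lit 105214) (.g (nat_lit 415) (.e (nat_lit 3757) (nat_lit 229) (.e (nat_lit 794637) (nat_lit 11) (.e (nat_lit 336021) (nat_lit 3) .nil))) .nil))))))) (.nd (nat_lit 1) (.nd (nat_lit 2) (.nd (nat_lit 3) (.nd (nat_lit 4) (.nd (nat_lit 5) 
(.lf (nat_lit 105153) (.g (nat_lit 2226) (.e (nat_lit 3748) (nat_lit 228) (.e (nat_lit 786473) (nat_lit 27) (.e (nat_lit 336235) (nat_lit 14) (.e (nat_lit 401458) (nat_lit 13) (.e (nat_lit 483386) (nat_lit 23) .nil))))) .nil)) 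
(.lf (nat_lit 105185) (.g (nat_lit 1512) (.e (nat_lit 3748) (nat_lit 228) (.e (nat_lit 786481) (nat_lit 30) (.e (nat_lit 360449) (nat_lit 0) (.e (nat_lit 5896) (nat_lit 320) (.e (nat_lit 7936) (nat_lit 90) (.e (nat_lit 81924) (nat_lit 0) .nil)))))) (.g (nat_lit 4) .nil .nil)))) (.nd (nat_lit 5) 
(.lf (nat_lit 105169) (.g (nat_lit 2460) (.e (nat_lit 3748) (nat_lit 228) (.e (nat_lit 786478) (nat_lit 29) (.e (nat_lit 352309) (nat_lit 21) (.e (nat_lit 57872) (nat_lit 264) (.e (nat_lit 1219) (nat_lit 90) (.e (nat_lit 81924) (nat_lit 0) .nil)))))) (.g (nat_lit 5) .nil .nil))) 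
(.lf (nat_lit 105201) (.g (nat_lit 1414) (.e (nat_lit 3757) (nat_lit 229) (.e (nat_lit 794633) (nat_lit 11) (.e (nat_lit 336012) (nat_lit 2) (.e (nat_lit 90176) (nat_lit 15) (.e (nat_lit 196352) (nat_lit 3) (.e (nat_lit 98319) (nat_lit 17) .nil)))))) (.g (nat_lit 4) .nil .nil))))) (.nd (nat_lit 4) (.nd (nat_lit 5) 
(.lf (nat_lit 105161) (.g (nat_lit 3343) (.e (nat_lit 3748) (nat_lit 228) (.e (nat_lit 786473) (nat_lit 27) (.e (nat_lit 336235) (nat_lit 14) (.e (nat_lit 401459) (nat_lit 13) (.e (nat_lit 483381) (nat_lit 23) (.e (nat_lit 336286) (nat_lit 15) .nil)))))) (.g (nat_lit 0) .nil .nil))) 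
(.lf (nat_lit 105193) (.g (nat_lit 836) (.e (nat_lit 3748) (nat_lit 228) (.e (nat_lit 786483) (nat_lit 30) (.e (nat_lit 360457) (nat_lit 0) (.e (nat_lit 5446) (nat_lit 306) .nil)))) .nil))) (.nd (nat_lit 5) 
(.lf (nat_lit 105177) (.g (nat_lit 2444) (.e (nat_lit 3748) (nat_lit 228) (.e (nat_lit 786480) (nat_lit 29) (.e (nat_lit 352309) (nat_lit 21) (.e (nat_lit 57872) (nat_lit 264) (.e (nat_lit 1221) (nat_lit 90) (.e (nat_lit 81922) (nat_lit 0) .nil)))))) (.g (nat_lit 4) .nil .nil))) 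
(.lf (nat_lit 105209) (.g (nat_lit 1907) (.e (nat_lit 3757) (nat_lit 229) (.e (nat_lit 794637) (nat_lit 11) (.e (nat_lit 336012) (nat_lit 2) (.e (nat_lit 90178) (nat_lit 15) (.e (nat_lit 196352) (nat_lit 3) .nil))))) .nil))))) (.nd (nat_lit 3) (.nd (nat_lit 4) (.nd (nat_lit 5) 
(.lf (nat_lit 105157) (.g (nat_lit 3099) (.e (nat_lit 3748) (nat_lit 228) (.e (nat_lit 786473) (nat_lit 27) (.e (nat_lit 336235) (nat_lit 14) (.e (nat_lit 401459) (nat_lit 13) (.e (nat_lit 483380) (nat_lit 23) (.e (nat_lit 336297) (nat_lit 15) .nil)))))) (.g (nat_lit 5) .nil .nil))) 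
(.lf (nat_lit 105189) (.g (nat_lit 2237) (.e (nat_lit 3748) (nat_lit 228) (.e (nat_lit 786483) (nat_lit 30) (.e (nat_lit 360452) (nat_lit 0) (.e (nat_lit 5905) (nat_lit 320) (.e (nat_lit 1219) (nat_lit 90) (.e (nat_lit 81922) (nat_lit 0) .nil)))))) (.g (nat_lit 4) .nil .nil)))) (.nd (nat_lit 5) 
(.lf (nat_lit 105173) (.g (nat_lit 1072) (.e (nat_lit 3748) (nat_lit 228) (.e (nat_lit 786480) (nat_lit 29) (.e (nat_lit 352309) (nat_lit 21) (.e (nat_lit 57870) (nat_lit 264) .nil)))) .nil)) 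
(.lf (nat_lit 105205) (.g (nat_lit 1202) (.e (nat_lit 3757) (nat_lit 229) (.e (nat_lit 794637) (nat_lit 11) (.e (nat_lit 336004) (nat_lit 2) (.e (nat_lit 90185) (nat_lit 17) .nil)))) .nil)))) (.nd (nat_lit 4) (.nd (nat_lit 5) 
(.lf (nat_lit 105165) (.g (nat_lit 3068) (.e (nat_lit 3748) (nat_lit 228) (.e (nat_lit 786473) (nat_lit 27) (.e (nat_lit 336235) (nat_lit 14) (.e (nat_lit 401459) (nat_lit 13) (.e (nat_lit 483387) (nat_lit 23) (.e (nat_lit 336292) (nat_lit 15) .nil)))))) (.g (nat_lit 5) .nil .nil))) 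
(.lf (nat_lit 105197) (.g (nat_lit 1384) (.e (nat_lit 3754) (nat_lit 229) (.e (nat_lit 794632) (nat_lit 11) (.e (nat_lit 336027) (nat_lit 3) (.e (nat_lit 98369) (nat_lit 28) (.e (nat_lit 450304) (nat_lit 3) (.e (nat_lit 98320) (nat_lit 17) .nil)))))) (.g (nat_lit 4) .nil .nil)))) (.nd (nat_lit 5) 
(.lf (nat_lit 105181) (.g (nat_lit 705) (.e (nat_lit 3748) (nat_lit 228) (.e (nat_lit 786480) (nat_lit 29) (.e (nat_lit 352317) (nat_lit 24) .nil))) .nil)) 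
(.lf (nat_lit 105213) (.g (nat_lit 1470) (.e (nat_lit 3757) (nat_lit 229) (.e (nat_lit 794637) (nat_lit 11) (.e (nat_lit 336012) (nat_lit 2) (.e (nat_lit 90185) (nat_lit 17) (.e (nat_lit 237619) (nat_lit 12) .nil))))) .nil)))))) (.nd (nat_lit 2) (.nd (nat_lit 3) (.nd (nat_lit 4) (.nd (nat_lit 5) 
(.lf (nat_lit 105155) (.g (nat_lit 2353) (.e (nat_lit 3748) (nat_lit 228) (.e (nat_lit 786473) (nat_lit 27) (.e (nat_lit 336235) (nat_lit 14) (.e (nat_lit 401458) (nat_lit 13) (.e (nat_lit 483387) (nat_lit 23) (.e (nat_lit 336292) (nat_lit 15) .nil)))))) (.g (nat_lit 4) .nil .nil))) 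
(.lf (nat_lit 105187) (.g (nat_lit 1139) (.e (nat_lit 3748) (nat_lit 228) (.e (nat_lit 786483) (nat_lit 30) (.e (nat_lit 360451) (nat_lit 0) (.e (nat_lit 5440) (nat_lit 306) (.e (nat_lit 130) (nat_lit 6) .nil))))) .nil))) (.nd (nat_lit 5) 
(.lf (nat_lit 105171) (.g (nat_lit 2169) (.e (nat_lit 3748) (nat_lit 228) (.e (nat_lit 786479) (nat_lit 29) (.e (nat_lit 352309) (nat_lit 21) (.e (nat_lit 57872) (nat_lit 264) (.e (nat_lit 1219) (nat_lit 90) (.e (nat_lit 81924) (nat_lit 0) .nil)))))) (.g (nat_lit 5) .nil .nil))) 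
(.lf (nat_lit 105203) (.g (nat_lit 1595) (.e (nat_lit 3757) (nat_lit 229) (.e (nat_lit 794637) (nat_lit 11) (.e (nat_lit 336002) (nat_lit 2) (.e (nat_lit 90185) (nat_lit 17) (.e (nat_lit 237616) (nat_lit 12) .nil))))) .nil)))) (.nd (nat_lit 4) (.nd (nat_lit 5) 
(.lf (nat_lit 105163) (.g (nat_lit 3341) (.e (nat_lit 3748) (nat_lit 228) (.e (nat_lit 786473) (nat_lit 27) (.e (nat_lit 336235) (nat_lit 14) (.e (nat_lit 401459) (nat_lit 13) (.e (nat_lit 483386) (nat_lit 23) (.e (nat_lit 336295) (nat_lit 15) .nil)))))) (.g (nat_lit 0) .nil .nil))) 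
(.lf (nat_lit 105195) (.g (nat_lit 354) (.e (nat_lit 3750) (nat_lit 228) (.e (nat_lit 786473) (nat_lit 27) (.e (nat_lit 336429) (nat_lit 29) .nil))) .nil))) (.nd (nat_lit 5) 
(.lf (nat_lit 105179) (.g (nat_lit 2824) (.e (nat_lit 3748) (nat_lit 228) (.e (nat_lit 786480) (nat_lit 29) (.e (nat_lit 352309) (nat_lit 21) (.e (nat_lit 57873) (nat_lit 264) (.e (nat_lit 1219) (nat_lit 90) (.e (nat_lit 81922) (nat_lit 0) .nil)))))) (.g (nat_lit 4) .nil .nil))) 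
(.lf (nat_lit 105211) (.g (nat_lit 1615) (.e (nat_lit 3757) (nat_lit 229) (.e (nat_lit 794637) (nat_lit 11) (.e (nat_lit 336012) (nat_lit 2) (.e (nat_lit 90185) (nat_lit 17) (.e (nat_lit 237601) (nat_lit 9) .nil))))) .nil))))) (.nd (nat_lit 3) (.nd (nat_lit 4) (.nd (nat_lit 5) 
(.lf (nat_lit 105159) (.g (nat_lit 2685) (.e (nat_lit 3748) (nat_lit 228) (.e (nat_lit 786473) (nat_lit 27) (.e (nat_lit 336235) (nat_lit 14) (.e (nat_lit 401459) (nat_lit 13) (.e (nat_lit 483381) (nat_lit 23) (.e (nat_lit 336265) (nat_lit 15) .nil)))))) (.g (nat_lit 4) .nil .nil))) 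
(.lf (nat_lit 105191) (.g (nat_lit 2933) (.e (nat_lit 3748) (nat_lit 228) (.e (nat_lit 786483) (nat_lit 30) (.e (nat_lit 360453) (nat_lit 0) (.e (nat_lit 5907) (nat_lit 320) (.e (nat_lit 1219) (nat_lit 90) (.e (nat_lit 81922) (nat_lit 0) .nil)))))) (.g (nat_lit 5) .nil .nil)))) (.nd (nat_lit 5) 
(.lf (nat_lit 105175) (.g (nat_lit 2593) (.e (nat_lit 3748) (nat_lit 228) (.e (nat_lit 786480) (nat_lit 29) (.e (nat_lit 352309) (nat_lit 21) (.e (nat_lit 57871) (nat_lit 264) (.e (nat_lit 1219) (nat_lit 90) (.e (nat_lit 81922) (nat_lit 0) .nil)))))) (.g (nat_lit 5) .nil .nil))) 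
(.lf (nat_lit 105207) (.g (nat_lit 1868) (.e (nat_lit 3757) (nat_lit 229) (.e (nat_lit 794637) (nat_lit 11) (.e (nat_lit 336012) (nat_lit 2) (.e (nat_lit 90176) (nat_lit 15) (.e (nat_lit 196352) (nat_lit 3) .nil))))) .nil)))) (.nd (nat_lit 4) (.nd (nat_lit 5) 
(.lf (nat_lit 105167) (.g (nat_lit 3234) (.e (nat_lit 3748) (nat_lit 228) (.e (nat_lit 786473) (nat_lit 27) (.e (nat_lit 336235) (nat_lit 14) (.e (nat_lit 401459) (nat_lit 13) (.e (nat_lit 483391) (nat_lit 23) (.e (nat_lit 336300) (nat_lit 15) .nil)))))) (.g (nat_lit 0) .nil .nil))) 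
(.lf (nat_lit 105199) (.g (nat_lit 2343) (.e (nat_lit 3754) (nat_lit 229) (.e (nat_lit 794637) (nat_lit 11) (.e (nat_lit 336021) (nat_lit 3) (.e (nat_lit 98365) (nat_lit 26) (.e (nat_lit 426187) (nat_lit 9) .nil))))) .nil))) (.nd (nat_lit 5) 
(.lf (nat_lit 105183) (.g (nat_lit 1835) (.e (nat_lit 3748) (nat_lit 228) (.e (nat_lit 786480) (nat_lit 29) (.e (nat_lit 352318) (nat_lit 24) (.e (nat_lit 123185) (nat_lit 264) (.e (nat_lit 1224) (nat_lit 90) (.e (nat_lit 81922) (nat_lit 0) .nil)))))) (.g (nat_lit 4) .nil .nil))) 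
(.lf (nat_lit 105215) (.g (nat_lit 1431) (.e (nat_lit 3757) (nat_lit 229) (.e (nat_lit 794637) (nat_lit 11) (.e (nat_lit 336021) (nat_lit 3) (.e (nat_lit 98365) (nat_lit 26) .nil)))) .nil))))))))

noncomputable def tv1439 : DT := (.nd (nat_lit 0) (.nd (nat_lit 1) (.nd (nat_lit 2) (.nd (nat_lit 3) (.nd (nat_lit 4) (.nd (nat_lit 5) (.nd (nat_lit 6) 
(.lf (nat_lit 105216) (.g (nat_lit 2178) (.e (nat_lit 3757) (nat_lit 229) (.e (nat_lit 794637) (nat_lit 11) (.e (nat_lit 336021) (nat_lit 3) (.e (nat_lit 98365) (nat_lit 26) (.e (nat_lit 426306) (nat_lit 12) .nil))))) .nil)) 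
(.lf (nat_lit 105280) (.g (nat_lit 3494) (.e (nat_lit 3832) (nat_lit 233) (.e (nat_lit 1221) (nat_lit 90) (.e (nat_lit 81956) (nat_lit 23) (.e (nat_lit 98350) (nat_lit 24) (.e (nat_lit 409649) (nat_lit 18) (.e (nat_lit 303111) (nat_lit 0) (.e (nat_lit 2424) (nat_lit 157) .nil))))))) (.g (nat_lit 7) .nil .nil)))) (.nd (nat_lit 6) 
(.lf (nat_lit 105248) (.g (nat_lit 1360) (.e (nat_lit 3774) (nat_lit 229) (.e (nat_lit 794633) (nat_lit 11) (.e (nat_lit 336012) (nat_lit 2) (.e (nat_lit 90176) (nat_lit 15) (.e (nat_lit 196352) (nat_lit 3) .nil))))) .nil)) 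
(.lf (nat_lit 105312) (.g (nat_lit 3206) (.e (nat_lit 3903) (nat_lit 236) (.e (nat_lit 122919) (nat_lit 15) (.e (nat_lit 360475) (nat_lit 8) (.e (nat_lit 557091) (nat_lit 12) (.e (nat_lit 164022) (nat_lit 46) .nil))))) .nil)))) (.nd (nat_lit 5) (.nd (nat_lit 6) 
(.lf (nat_lit 105232) (.g (nat_lit 3390) (.e (nat_lit 3771) (nat_lit 229) (.e (nat_lit 794668) (nat_lit 22) (.e (nat_lit 196661) (nat_lit 12) (.e (nat_lit 57357) (nat_lit 0) (.e (nat_lit 5195) (nat_lit 294) (.e (nat_lit 57379) (nat_lit 3) (.e (nat_lit 98313) (nat_lit 9) (.e (nat_lit 336027) (nat_lit 3) (.e (nat_lit 98321) (nat_lit 17) .nil))))))))) (.g (nat_lit 8) .nil .nil))) 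
(.lf (nat_lit 105296) (.g (nat_lit 1548) (.e (nat_lit 3877) (nat_lit 233) (.e (nat_lit 1221) (nat_lit 90) (.e (nat_lit 81956) (nat_lit 23) (.e (nat_lit 98350) (nat_lit 24) .nil)))) .nil))) (.nd (nat_lit 6) 
(.lf (nat_lit 105264) (.g (nat_lit 2154) (.e (nat_lit 3781) (nat_lit 230) (.e (nat_lit 802826) (nat_lit 11) (.e (nat_lit 336088) (nat_lit 9) (.e (nat_lit 336443) (nat_lit 32) (.e (nat_lit 466972) (nat_lit 21) .nil))))) .nil)) 
(.lf (nat_lit 105328) (.g (nat_lit 2878) (.e (nat_lit 3915) (nat_lit 239) (.e (nat_lit 1223) (nat_lit 90) (.e (nat_lit 81956) (nat_lit 23) (.e (nat_lit 98389) (nat_lit 33) (.e (nat_lit 491560) (nat_lit 10) .nil))))) .nil))))) (.nd (nat_lit 4) (.nd (nat_lit 5) (.nd (nat_lit 6) 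
(.lf (nat_lit 105224) (.g (nat_lit 1204) (.e (nat_lit 3771) (nat_lit 229) (.e (nat_lit 794633) (nat_lit 11) (.e (nat_lit 336027) (nat_lit 3) (.e (nat_lit 98369) (nat_lit 28) (.e (nat_lit 450304) (nat_lit 3) .nil))))) .nil)) 
(.lf (nat_lit 105288) (.g (nat_lit 2722) (.e (nat_lit 3843) (nat_lit 233) (.e (nat_lit 1218) (nat_lit 90) (.e (nat_lit 81956) (nat_lit 23) (.e (nat_lit 98350) (nat_lit 24) (.e (nat_lit 409648) (nat_lit 18) .nil))))) .nil))) (.nd (nat_lit 6) 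
(.lf (nat_lit 105256) (.g (nat_lit 3045) (.e (nat_lit 3774) (nat_lit 229) (.e (nat_lit 794633) (nat_lit 11) (.e (nat_lit 336223) (nat_lit 13) (.e (nat_lit 393281) (nat_lit 23) (.e (nat_lit 426099) (nat_lit 1) (.e (nat_lit 164332) (nat_lit 230) (.e (nat_lit 163843) (nat_lit 0) .nil))))))) (.g (nat_lit 6) .nil .nil))) 
(.lf (nat_lit 105320) (.g (nat_lit 1303) (.e (nat_lit 3915) (nat_lit 239) (.e (nat_lit 1222) (nat_lit 90) (.e (nat_lit 81951) (nat_lit 22) (.e (nat_lit 90165) (nat_lit 12) .nil)))) .nil)))) (.nd (nat_lit 5) (.nd (nat_lit 6) 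
(.lf (nat_lit 105240) (.g (nat_lit 1566) (.e (nat_lit 3773) (nat_lit 229) (.e (nat_lit 794633) (nat_lit 11) (.e (nat_lit 336012) (nat_lit 2) (.e (nat_lit 90185) (nat_lit 17) (.e (nat_lit 237601) (nat_lit 9) .nil))))) .nil)) 
(.lf (nat_lit 105304) (.g (nat_lit 2019) (.e (nat_lit 3881) (nat_lit 233) (.e (nat_lit 1220) (nat_lit 90) (.e (nat_lit 81956) (nat_lit 23) (.e (nat_lit 98350) (nat_lit 24) (.e (nat_lit 409649) (nat_lit 18) .nil))))) .nil))) (.nd (nat_lit 6) 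
(.lf (nat_lit 105272) (.g (nat_lit 3427) (.e (nat_lit 3806) (nat_lit 231) (.e (nat_lit 811045) (nat_lit 14) (.e (nat_lit 40997) (nat_lit 11) (.e (nat_lit 24617) (nat_lit 7) (.e (nat_lit 319531) (nat_lit 16) (.e (nat_lit 286748) (nat_lit 9) (.e (nat_lit 336295) (nat_lit 15) .nil))))))) (.g (nat_lit 7) .nil .nil))) 
(.lf (nat_lit 105336) (.g (nat_lit 1073) (.e (nat_lit 3920) (nat_lit 239) (.e (nat_lit 1212) (nat_lit 89) (.e (nat_lit 73782) (nat_lit 32) (.e (nat_lit 2664) (nat_lit 167) .nil)))) .nil)))))) (.nd (nat_lit 3) (.nd (nat_lit 4) (.nd (nat_lit 5) (.nd (nat_lit 6) 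
(.lf (nat_lit 105220) (.g (nat_lit 1807) (.e (nat_lit 3757) (nat_lit 229) (.e (nat_lit 794637) (nat_lit 11) (.e (nat_lit 336223) (nat_lit 13) (.e (nat_lit 393281) (nat_lit 23) (.e (nat_lit 426100) (nat_lit 1) (.e (nat_lit 164332) (nat_lit 230) (.e (nat_lit 163847) (nat_lit 0) .nil))))))) (.g (nat_lit 5) .nil .nil))) 
(.lf (nat_lit 105284) (.g (nat_lit 2124) (.e (nat_lit 3836) (nat_lit 233) (.e (nat_lit 1220) (nat_lit 90) (.e (nat_lit 81956) (nat_lit 23) (.e (nat_lit 98350) (nat_lit 24) (.e (nat_lit 409648) (nat_lit 18) .nil))))) .nil))) (.nd (nat_lit 6) 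
(.lf (nat_lit 105252) (.g (nat_lit 1915) (.e (nat_lit 3774) (nat_lit 229) (.e (nat_lit 794633) (nat_lit 11) (.e (nat_lit 336012) (nat_lit 2) (.e (nat_lit 90185) (nat_lit 17) (.e (nat_lit 237605) (nat_lit 9) (.e (nat_lit 426436) (nat_lit 18) (.e (nat_lit 98321) (nat_lit 17) .nil))))))) (.g (nat_lit 4) .nil .nil))) 
(.lf (nat_lit 105316) (.g (nat_lit 2453) (.e (nat_lit 3913) (nat_lit 239) (.e (nat_lit 1224) (nat_lit 90) (.e (nat_lit 81956) (nat_lit 23) (.e (nat_lit 98389) (nat_lit 33) .nil)))) .nil)))) (.nd (nat_lit 5) (.nd (nat_lit 6) 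
(.lf (nat_lit 105236) (.g (nat_lit 1741) (.e (nat_lit 3771) (nat_lit 229) (.e (nat_lit 794669) (nat_lit 22) (.e (nat_lit 196668) (nat_lit 14) (.e (nat_lit 73747) (nat_lit 3) (.e (nat_lit 516119) (nat_lit 1) .nil))))) .nil)) 
(.lf (nat_lit 105300) (.g (nat_lit 1183) (.e (nat_lit 3878) (nat_lit 233) (.e (nat_lit 1221) (nat_lit 90) (.e (nat_lit 81956) (nat_lit 23) (.e (nat_lit 98350) (nat_lit 24) .nil)))) .nil))) (.nd (nat_lit 6) 
(.lf (nat_lit 105268) (.g (nat_lit 815) (.e (nat_lit 3783) (nat_lit 230) (.e (nat_lit 802827) (nat_lit 12) (.e (nat_lit 344119) (nat_lit 21) (.e (nat_lit 516164) (nat_lit 11) (.e (nat_lit 450304) (nat_lit 3) (.e (nat_lit 98319) (nat_lit 17) .nil)))))) (.g (nat_lit 4) .nil .nil))) 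
(.lf (nat_lit 105332) (.g (nat_lit 2558) (.e (nat_lit 3919) (nat_lit 239) (.e (nat_lit 1212) (nat_lit 89) (.e (nat_lit 73782) (nat_lit 32) (.e (nat_lit 2682) (nat_lit 168) (.e (nat_lit 204869) (nat_lit 29) (.e (nat_lit 368384) (nat_lit 0) .nil)))))) (.g (nat_lit 5) .nil .nil)))))) (.nd (nat_lit 4) (.nd (nat_lit 5) (.nd (nat_lit 6) 
(.lf (nat_lit 105228) (.g (nat_lit 1636) (.e (nat_lit 3771) (nat_lit 229) (.e (nat_lit 794637) (nat_lit 11) (.e (nat_lit 336012) (nat_lit 2) (.e (nat_lit 90185) (nat_lit 17) (.e (nat_lit 237605) (nat_lit 9) (.e (nat_lit 426436) (nat_lit 18) (.e (nat_lit 98321) (nat_lit 17) .nil))))))) (.g (nat_lit 4) .nil .nil))) 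
(.lf (nat_lit 105292) (.g (nat_lit 2637) (.e (nat_lit 3875) (nat_lit 233) (.e (nat_lit 1221) (nat_lit 90) (.e (nat_lit 81956) (nat_lit 23) (.e (nat_lit 98350) (nat_lit 24) (.e (nat_lit 409648) (nat_lit 18) (.e (nat_lit 303108) (nat_lit 0) (.e (nat_lit 2425) (nat_lit 157) .nil))))))) (.g (nat_lit 5) .nil .nil)))) (.nd (nat_lit 6) 
(.lf (nat_lit 105260) (.g (nat_lit 2492) (.e (nat_lit 3774) (nat_lit 229) (.e (nat_lit 794637) (nat_lit 11) (.e (nat_lit 336088) (nat_lit 9) (.e (nat_lit 336443) (nat_lit 32) (.e (nat_lit 466972) (nat_lit 21) (.e (nat_lit 164332) (nat_lit 230) (.e (nat_lit 163847) (nat_lit 0) .nil))))))) (.g (nat_lit 4) .nil .nil))) 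
(.lf (nat_lit 105324) (.g (nat_lit 2503) (.e (nat_lit 3915) (nat_lit 239) (.e (nat_lit 1222) (nat_lit 90) (.e (nat_lit 81956) (nat_lit 23) (.e (nat_lit 98389) (nat_lit 33) .nil)))) .nil)))) (.nd (nat_lit 5) (.nd (nat_lit 6) 
(.lf (nat_lit 105244) (.g (nat_lit 1895) (.e (nat_lit 3773) (nat_lit 229) (.e (nat_lit 794637) (nat_lit 11) (.e (nat_lit 336078) (nat_lit 9) (.e (nat_lit 336443) (nat_lit 32) (.e (nat_lit 466969) (nat_lit 21) .nil))))) .nil)) 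
(.lf (nat_lit 105308) (.g (nat_lit 2595) (.e (nat_lit 3883) (nat_lit 233) (.e (nat_lit 1218) (nat_lit 90) (.e (nat_lit 81956) (nat_lit 23) (.e (nat_lit 98350) (nat_lit 24) (.e (nat_lit 409649) (nat_lit 18) .nil))))) .nil))) (.nd (nat_lit 6) 
(.lf (nat_lit 105276) (.g (nat_lit 5095) (.e (nat_lit 3828) (nat_lit 233) (.e (nat_lit 1222) (nat_lit 90) (.e (nat_lit 81956) (nat_lit 23) (.e (nat_lit 98350) (nat_lit 24) (.e (nat_lit 409649) (nat_lit 18) .nil))))) .nil)) 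
(.lf (nat_lit 105340) (.g (nat_lit 1932) (.e (nat_lit 3920) (nat_lit 239) (.e (nat_lit 1215) (nat_lit 90) (.e (nat_lit 81956) (nat_lit 23) (.e (nat_lit 98389) (nat_lit 33) .nil)))) .nil))))))) (.nd (nat_lit 2) (.nd (nat_lit 3) (.nd (nat_lit 4) (.nd (nat_lit 5) (.nd (nat_lit 6) 
(.lf (nat_lit 105218) (.g (nat_lit 1957) (.e (nat_lit 3757) (nat_lit 229) (.e (nat_lit 794637) (nat_lit 11) (.e (nat_lit 336088) (nat_lit 9) (.e (nat_lit 336443) (nat_lit 32) (.e (nat_lit 466969) (nat_lit 21) .nil))))) .nil)) 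
(.lf (nat_lit 105282) (.g (nat_lit 2175) (.e (nat_lit 3834) (nat_lit 233) (.e (nat_lit 1220) (nat_lit 90) (.e (nat_lit 81956) (nat_lit 23) (.e (nat_lit 98350) (nat_lit 24) (.e (nat_lit 409648) (nat_lit 18) .nil))))) .nil))) (.nd (nat_lit 6) 
(.lf (nat_lit 105250) (.g (nat_lit 1722) (.e (nat_lit 3774) (nat_lit 229) (.e (nat_lit 794633) (nat_lit 11) (.e (nat_lit 336012) (nat_lit 2) (.e (nat_lit 90185) (nat_lit 17) (.e (nat_lit 237601) (nat_lit 9) (.e (nat_lit 426436) (nat_lit 18) (.e (nat_lit 98321) (nat_lit 17) .nil))))))) (.g (nat_lit 4) .nil .nil))) 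
(.lf (nat_lit 105314) (.g (nat_lit 2148) (.e (nat_lit 3913) (nat_lit 239) (.e (nat_lit 1223) (nat_lit 90) (.e (nat_lit 81956) (nat_lit 23) (.e (nat_lit 98389) (nat_lit 33) .nil)))) .nil)))) (.nd (nat_lit 5) (.nd (nat_lit 6) 
(.lf (nat_lit 105234) (.g (nat_lit 1986) (.e (nat_lit 3771) (nat_lit 229) (.e (nat_lit 794668) (nat_lit 22) (.e (nat_lit 196666) (nat_lit 13) (.e (nat_lit 65571) (nat_lit 3) (.e (nat_lit 98334) (nat_lit 18) .nil))))) .nil)) 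
(.lf (nat_lit 105298) (.g (nat_lit 2305) (.e (nat_lit 3877) (nat_lit 233) (.e (nat_lit 1221) (nat_lit 90) (.e (nat_lit 81956) (nat_lit 23) (.e (nat_lit 98350) (nat_lit 24) (.e (nat_lit 409648) (nat_lit 18) (.e (nat_lit 303108) (nat_lit 0) (.e (nat_lit 2438) (nat_lit 157) .nil))))))) (.g (nat_lit 4) .nil .nil)))) (.nd (nat_lit 6) 
(.lf (nat_lit 105266) (.g (nat_lit 1688) (.e (nat_lit 3783) (nat_lit 230) (.e (nat_lit 802822) (nat_lit 11) (.e (nat_lit 336027) (nat_lit 3) (.e (nat_lit 98381) (nat_lit 31) (.e (nat_lit 474880) (nat_lit 3) (.e (nat_lit 98319) (nat_lit 17) .nil)))))) (.g (nat_lit 4) .nil .nil))) 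
(.lf (nat_lit 105330) (.g (nat_lit 2377) (.e (nat_lit 3915) (nat_lit 239) (.e (nat_lit 1224) (nat_lit 90) (.e (nat_lit 81956) (nat_lit 23) (.e (nat_lit 98389) (nat_lit 33) .nil)))) .nil))))) (.nd (nat_lit 4) (.nd (nat_lit 5) (.nd (nat_lit 6) 
(.lf (nat_lit 105226) (.g (nat_lit 439) (.e (nat_lit 3771) (nat_lit 229) (.e (nat_lit 794637) (nat_lit 11) (.e (nat_lit 336012) (nat_lit 2) .nil))) .nil)) 
(.lf (nat_lit 105290) (.g (nat_lit 2817) (.e (nat_lit 3875) (nat_lit 233) (.e (nat_lit 1220) (nat_lit 90) (.e (nat_lit 81956) (nat_lit 23) (.e (nat_lit 98350) (nat_lit 24) (.e (nat_lit 409648) (nat_lit 18) (.e (nat_lit 303108) (nat_lit 0) (.e (nat_lit 2425) (nat_lit 157) .nil))))))) (.g (nat_lit 5) .nil .nil)))) (.nd (nat_lit 6) 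
(.lf (nat_lit 105258) (.g (nat_lit 2700) (.e (nat_lit 3774) (nat_lit 229) (.e (nat_lit 794633) (nat_lit 11) (.e (nat_lit 336223) (nat_lit 13) (.e (nat_lit 393281) (nat_lit 23) (.e (nat_lit 426100) (nat_lit 1) (.e (nat_lit 164332) (nat_lit 230) (.e (nat_lit 163847) (nat_lit 0) .nil))))))) (.g (nat_lit 5) .nil .nil))) 
(.lf (nat_lit 105322) (.g (nat_lit 1326) (.e (nat_lit 3915) (nat_lit 239) (.e (nat_lit 1222) (nat_lit 90) (.e (nat_lit 81954) (nat_lit 23) (.e (nat_lit 98325) (nat_lit 17) .nil)))) .nil)))) (.nd (nat_lit 5) (.nd (nat_lit 6) 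
(.lf (nat_lit 105242) (.g (nat_lit 1638) (.e (nat_lit 3773) (nat_lit 229) (.e (nat_lit 794633) (nat_lit 11) (.e (nat_lit 336027) (nat_lit 3) (.e (nat_lit 98370) (nat_lit 28) (.e (nat_lit 450304) (nat_lit 3) .nil))))) .nil)) 
(.lf (nat_lit 105306) (.g (nat_lit 3303) (.e (nat_lit 3881) (nat_lit 233) (.e (nat_lit 1221) (nat_lit 90) (.e (nat_lit 81956) (nat_lit 23) (.e (nat_lit 98350) (nat_lit 24) (.e (nat_lit 409648) (nat_lit 18) (.e (nat_lit 303108) (nat_lit 0) (.e (nat_lit 2423) (nat_lit 157) .nil))))))) (.g (nat_lit 7) .nil .nil)))) (.nd (nat_lit 6) 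
(.lf (nat_lit 105274) (.g (nat_lit 2284) (.e (nat_lit 3828) (nat_lit 233) (.e (nat_lit 1201) (nat_lit 88) (.e (nat_lit 65617) (nat_lit 10) (.e (nat_lit 344130) (nat_lit 26) (.e (nat_lit 557087) (nat_lit 11) .nil))))) .nil)) 
(.lf (nat_lit 105338) (.g (nat_lit 1277) (.e (nat_lit 3920) (nat_lit 239) (.e (nat_lit 1214) (nat_lit 89) (.e (nat_lit 73781) (nat_lit 32) (.e (nat_lit 2664) (nat_lit 167) (.e (nat_lit 196666) (nat_lit 13) .nil))))) .nil)))))) (.nd (nat_lit 3) (.nd (nat_lit 4) (.nd (nat_lit 5) (.nd (nat_lit 6) 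
(.lf (nat_lit 105222) (.g (nat_lit 1693) (.e (nat_lit 3765) (nat_lit 229) (.e (nat_lit 794633) (nat_lit 11) (.e (nat_lit 336027) (nat_lit 3) (.e (nat_lit 98370) (nat_lit 28) (.e (nat_lit 450304) (nat_lit 3) .nil))))) .nil)) 
(.lf (nat_lit 105286) (.g (nat_lit 3439) (.e (nat_lit 3836) (nat_lit 233) (.e (nat_lit 1221) (nat_lit 90) (.e (nat_lit 81956) (nat_lit 23) (.e (nat_lit 98350) (nat_lit 24) (.e (nat_lit 409649) (nat_lit 18) (.e (nat_lit 303111) (nat_lit 0) (.e (nat_lit 2425) (nat_lit 157) .nil))))))) (.g (nat_lit 7) .nil .nil)))) (.nd (nat_lit 6) 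
(.lf (nat_lit 105254) (.g (nat_lit 1611) (.e (nat_lit 3774) (nat_lit 229) (.e (nat_lit 794633) (nat_lit 11) (.e (nat_lit 336027) (nat_lit 3) (.e (nat_lit 98370) (nat_lit 28) (.e (nat_lit 450304) (nat_lit 3) .nil))))) .nil)) 
(.lf (nat_lit 105318) (.g (nat_lit 3403) (.e (nat_lit 3915) (nat_lit 239) (.e (nat_lit 1201) (nat_lit 88) (.e (nat_lit 65610) (nat_lit 10) (.e (nat_lit 344117) (nat_lit 21) (.e (nat_lit 516098) (nat_lit 0) .nil))))) .nil)))) (.nd (nat_lit 5) (.nd (nat_lit 6) 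
(.lf (nat_lit 105238) (.g (nat_lit 1653) (.e (nat_lit 3771) (nat_lit 229) (.e (nat_lit 794669) (nat_lit 22) (.e (nat_lit 196670) (nat_lit 14) (.e (nat_lit 73746) (nat_lit 3) (.e (nat_lit 516119) (nat_lit 1) .nil))))) .nil)) 
(.lf (nat_lit 105302) (.g (nat_lit 2890) (.e (nat_lit 3881) (nat_lit 233) (.e (nat_lit 1220) (nat_lit 90) (.e (nat_lit 81956) (nat_lit 23) (.e (nat_lit 98350) (nat_lit 24) (.e (nat_lit 409648) (nat_lit 18) (.e (nat_lit 303108) (nat_lit 0) (.e (nat_lit 2422) (nat_lit 157) .nil))))))) (.g (nat_lit 5) .nil .nil)))) (.nd (nat_lit 6) 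
(.lf (nat_lit 105270) (.g (nat_lit 583) (.e (nat_lit 3783) (nat_lit 230) (.e (nat_lit 810752) (nat_lit 12) (.e (nat_lit 344120) (nat_lit 21) (.e (nat_lit 516174) (nat_lit 14) (.e (nat_lit 474880) (nat_lit 3) (.e (nat_lit 98319) (nat_lit 17) .nil)))))) (.g (nat_lit 4) .nil .nil))) 
(.lf (nat_lit 105334) (.g (nat_lit 2090) (.e (nat_lit 3919) (nat_lit 239) (.e (nat_lit 1217) (nat_lit 90) (.e (nat_lit 81956) (nat_lit 23) (.e (nat_lit 98389) (nat_lit 33) .nil)))) .nil))))) (.nd (nat_lit 4) (.nd (nat_lit 5) (.nd (nat_lit 6) 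
(.lf (nat_lit 105230) (.g (nat_lit 1546) (.e (nat_lit 3771) (nat_lit 229) (.e (nat_lit 794637) (nat_lit 11) (.e (nat_lit 336215) (nat_lit 13) (.e (nat_lit 393281) (nat_lit 23) .nil)))) .nil)) 
(.lf (nat_lit 105294) (.g (nat_lit 2077) (.e (nat_lit 3877) (nat_lit 233) (.e (nat_lit 1220) (nat_lit 90) (.e (nat_lit 81956) (nat_lit 23) (.e (nat_lit 98350) (nat_lit 24) (.e (nat_lit 409648) (nat_lit 18) .nil))))) .nil))) (.nd (nat_lit 6) 
(.lf (nat_lit 105262) (.g (nat_lit 1874) (.e (nat_lit 3779) (nat_lit 229) (.e (nat_lit 794633) (nat_lit 11) (.e (nat_lit 336223) (nat_lit 13) (.e (nat_lit 393281) (nat_lit 23) (.e (nat_lit 426099) (nat_lit 1) .nil))))) .nil)) 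
(.lf (nat_lit 105326) (.g (nat_lit 2475) (.e (nat_lit 3915) (nat_lit 239) (.e (nat_lit 1223) (nat_lit 90) (.e (nat_lit 81956) (nat_lit 23) (.e (nat_lit 98320) (nat_lit 17) .nil)))) .nil)))) (.nd (nat_lit 5) (.nd (nat_lit 6) 
(.lf (nat_lit 105246) (.g (nat_lit 2085) (.e (nat_lit 3773) (nat_lit 229) (.e (nat_lit 794637) (nat_lit 11) (.e (nat_lit 336088) (nat_lit 9) (.e (nat_lit 336443) (nat_lit 32) (.e (nat_lit 466971) (nat_lit 21) .nil))))) .nil)) 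
(.lf (nat_lit 105310) (.g (nat_lit 2595) (.e (nat_lit 3893) (nat_lit 233) (.e (nat_lit 1218) (nat_lit 90) (.e (nat_lit 81956) (nat_lit 23) (.e (nat_lit 98350) (nat_lit 24) (.e (nat_lit 409649) (nat_lit 18) .nil))))) .nil))) (.nd (nat_lit 6) 
(.lf (nat_lit 105278) (.g (nat_lit 2439) (.e (nat_lit 3832) (nat_lit 233) (.e (nat_lit 1220) (nat_lit 90) (.e (nat_lit 81956) (nat_lit 23) (.e (nat_lit 98350) (nat_lit 24) (.e (nat_lit 409649) (nat_lit 18) (.e (nat_lit 303111) (nat_lit 0) (.e (nat_lit 2424) (nat_lit 157) .nil))))))) (.g (nat_lit 5) .nil .nil))) 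
(.lf (nat_lit 105342) (.g (nat_lit 2427) (.e (nat_lit 3920) (nat_lit 239) (.e (nat_lit 1216) (nat_lit 90) (.e (nat_lit 81956) (nat_lit 23) (.e (nat_lit 98388) (nat_lit 33) .nil)))) .nil)))))))) (.nd (nat_lit 1) (.nd (nat_lit 2) (.nd (nat_lit 3) (.nd (nat_lit 4) (.nd (nat_lit 5) (.nd (nat_lit 6) 
(.lf (nat_lit 105217) (.g (nat_lit 357) (.e (nat_lit 3757) (nat_lit 229) (.e (nat_lit 794637) (nat_lit 11) (.e (nat_lit 336027) (nat_lit 3) .nil))) .nil)) 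
(.lf (nat_lit 105281) (.g (nat_lit 3409) (.e (nat_lit 3832) (nat_lit 233) (.e (nat_lit 1221) (nat_lit 90) (.e (nat_lit 81956) (nat_lit 23) (.e (nat_lit 98350) (nat_lit 24) (.e (nat_lit 409649) (nat_lit 18) (.e (nat_lit 303111) (nat_lit 0) (.e (nat_lit 2425) (nat_lit 157) .nil))))))) (.g (nat_lit 7) .nil .nil)))) (.nd (nat_lit 6) 
(.lf (nat_lit 105249) (.g (nat_lit 1559) (.e (nat_lit 3774) (nat_lit 229) (.e (nat_lit 794633) (nat_lit 11) (.e (nat_lit 336012) (nat_lit 2) (.e (nat_lit 90178) (nat_lit 15) (.e (nat_lit 196352) (nat_lit 3) .nil))))) .nil)) 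
(.lf (nat_lit 105313) (.g (nat_lit 1917) (.e (nat_lit 3913) (nat_lit 239) (.e (nat_lit 1201) (nat_lit 88) (.e (nat_lit 65630) (nat_lit 14) (.e (nat_lit 401428) (nat_lit 3) .nil)))) .nil)))) (.nd (nat_lit 5) (.nd (nat_lit 6) 
(.lf (nat_lit 105233) (.g (nat_lit 1664) (.e (nat_lit 3771) (nat_lit 229) (.e (nat_lit 794668) (nat_lit 22) (.e (nat_lit 196666) (nat_lit 13) (.e (nat_lit 65566) (nat_lit 2) .nil)))) .nil)) 
(.lf (nat_lit 105297) (.g (nat_lit 3341) (.e (nat_lit 3877) (nat_lit 233) (.e (nat_lit 1221) (nat_lit 90) (.e (nat_lit 81956) (nat_lit 23) (.e (nat_lit 98350) (nat_lit 24) (.e (nat_lit 409648) (nat_lit 18) (.e (nat_lit 303108) (nat_lit 0) (.e (nat_lit 2416) (nat_lit 157) .nil))))))) (.g (nat_lit 5) .nil .nil)))) (.nd (nat_lit 6) 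
(.lf (nat_lit 105265) (.g (nat_lit 1619) (.e (nat_lit 3783) (nat_lit 230) (.e (nat_lit 802822) (nat_lit 11) (.e (nat_lit 336027) (nat_lit 3) (.e (nat_lit 98380) (nat_lit 31) (.e (nat_lit 474880) (nat_lit 3) .nil))))) .nil)) 
(.lf (nat_lit 105329) (.g (nat_lit 2656) (.e (nat_lit 3915) (nat_lit 239) (.e (nat_lit 1224) (nat_lit 90) (.e (nat_lit 81956) (nat_lit 23) (.e (nat_lit 98320) (nat_lit 17) .nil)))) .nil))))) (.nd (nat_lit 4) (.nd (nat_lit 5) (.nd (nat_lit 6) 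
(.lf (nat_lit 105225) (.g (nat_lit 1660) (.e (nat_lit 3771) (nat_lit 229) (.e (nat_lit 794633) (nat_lit 11) (.e (nat_lit 336027) (nat_lit 3) (.e (nat_lit 98370) (nat_lit 28) (.e (nat_lit 450304) (nat_lit 3) .nil))))) .nil)) 
(.lf (nat_lit 105289) (.g (nat_lit 2595) (.e (nat_lit 3861) (nat_lit 233) (.e (nat_lit 1218) (nat_lit 90) (.e (nat_lit 81956) (nat_lit 23) (.e (nat_lit 98350) (nat_lit 24) (.e (nat_lit 409649) (nat_lit 18) .nil))))) .nil))) (.nd (nat_lit 6) 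
(.lf (nat_lit 105257) (.g (nat_lit 3064) (.e (nat_lit 3774) (nat_lit 229) (.e (nat_lit 794633) (nat_lit 11) (.e (nat_lit 336223) (nat_lit 13) (.e (nat_lit 393281) (nat_lit 23) (.e (nat_lit 426100) (nat_lit 1) (.e (nat_lit 164332) (nat_lit 230) (.e (nat_lit 163843) (nat_lit 0) .nil))))))) (.g (nat_lit 6) .nil .nil))) 
(.lf (nat_lit 105321) (.g (nat_lit 1114) (.e (nat_lit 3915) (nat_lit 239) (.e (nat_lit 1222) (nat_lit 90) (.e (nat_lit 81954) (nat_lit 23) (.e (nat_lit 98319) (nat_lit 17) .nil)))) .nil)))) (.nd (nat_lit 5) (.nd (nat_lit 6) 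
(.lf (nat_lit 105241) (.g (nat_lit 1175) (.e (nat_lit 3773) (nat_lit 229) (.e (nat_lit 794633) (nat_lit 11) (.e (nat_lit 336027) (nat_lit 3) (.e (nat_lit 98369) (nat_lit 28) (.e (nat_lit 450304) (nat_lit 3) .nil))))) .nil)) 
(.lf (nat_lit 105305) (.g (nat_lit 2900) (.e (nat_lit 3881) (nat_lit 233) (.e (nat_lit 1221) (nat_lit 90) (.e (nat_lit 81956) (nat_lit 23) (.e (nat_lit 98350) (nat_lit 24) (.e (nat_lit 409648) (nat_lit 18) (.e (nat_lit 303108) (nat_lit 0) (.e (nat_lit 2422) (nat_lit 157) .nil))))))) (.g (nat_lit 5) .nil .nil)))) (.nd (nat_lit 6) 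
(.lf (nat_lit 105273) (.g (nat_lit 4928) (.e (nat_lit 3828) (nat_lit 233) (.e (nat_lit 1201) (nat_lit 88) (.e (nat_lit 65610) (nat_lit 10) (.e (nat_lit 344129) (nat_lit 26) (.e (nat_lit 557087) (nat_lit 11) (.e (nat_lit 24617) (nat_lit 7) (.e (nat_lit 319505) (nat_lit 10) (.e (nat_lit 11) (nat_lit 0) .nil)))))))) (.g (nat_lit 7) .nil .nil))) 
(.lf (nat_lit 105337) (.g (nat_lit 2554) (.e (nat_lit 3920) (nat_lit 239) (.e (nat_lit 1212) (nat_lit 89) (.e (nat_lit 73782) (nat_lit 32) (.e (nat_lit 2682) (nat_lit 168) (.e (nat_lit 204869) (nat_lit 29) (.e (nat_lit 368384) (nat_lit 0) .nil)))))) (.g (nat_lit 5) .nil .nil))))))) (.nd (nat_lit 3) (.nd (nat_lit 4) (.nd (nat_lit 5) (.nd (nat_lit 6) 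
(.lf (nat_lit 105221) (.g (nat_lit 1434) (.e (nat_lit 3765) (nat_lit 229) (.e (nat_lit 794633) (nat_lit 11) (.e (nat_lit 336012) (nat_lit 2) (.e (nat_lit 90176) (nat_lit 15) (.e (nat_lit 196352) (nat_lit 3) .nil))))) .nil)) 
(.lf (nat_lit 105285) (.g (nat_lit 2011) (.e (nat_lit 3836) (nat_lit 233) (.e (nat_lit 1221) (nat_lit 90) (.e (nat_lit 81956) (nat_lit 23) (.e (nat_lit 98350) (nat_lit 24) (.e (nat_lit 409648) (nat_lit 18) .nil))))) .nil))) (.nd (nat_lit 6) 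
(.lf (nat_lit 105253) (.g (nat_lit 1398) (.e (nat_lit 3774) (nat_lit 229) (.e (nat_lit 794633) (nat_lit 11) (.e (nat_lit 336027) (nat_lit 3) (.e (nat_lit 98369) (nat_lit 28) (.e (nat_lit 450304) (nat_lit 3) (.e (nat_lit 98321) (nat_lit 17) .nil)))))) (.g (nat_lit 4) .nil .nil))) 
(.lf (nat_lit 105317) (.g (nat_lit 3055) (.e (nat_lit 3914) (nat_lit 239) (.e (nat_lit 2630) (nat_lit 164) (.e (nat_lit 172126) (nat_lit 14) (.e (nat_lit 491537) (nat_lit 2) (.e (nat_lit 90170) (nat_lit 13) .nil))))) .nil)))) (.nd (nat_lit 5) (.nd (nat_lit 6) 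
(.lf (nat_lit 105237) (.g (nat_lit 1630) (.e (nat_lit 3771) (nat_lit 229) (.e (nat_lit 794669) (nat_lit 22) (.e (nat_lit 196670) (nat_lit 14) (.e (nat_lit 73746) (nat_lit 3) (.e (nat_lit 516117) (nat_lit 1) .nil))))) .nil)) 
(.lf (nat_lit 105301) (.g (nat_lit 2595) (.e (nat_lit 3880) (nat_lit 233) (.e (nat_lit 1218) (nat_lit 90) (.e (nat_lit 81956) (nat_lit 23) (.e (nat_lit 98350) (nat_lit 24) (.e (nat_lit 409649) (nat_lit 18) .nil))))) .nil))) (.nd (nat_lit 6) 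
(.lf (nat_lit 105269) (.g (nat_lit 1098) (.e (nat_lit 3783) (nat_lit 230) (.e (nat_lit 802827) (nat_lit 12) (.e (nat_lit 344119) (nat_lit 21) (.e (nat_lit 516176) (nat_lit 14) (.e (nat_lit 474880) (nat_lit 3) (.e (nat_lit 98319) (nat_lit 17) .nil)))))) (.g (nat_lit 4) .nil .nil))) 
(.lf (nat_lit 105333) (.g (nat_lit 2569) (.e (nat_lit 3919) (nat_lit 239) (.e (nat_lit 1217) (nat_lit 90) (.e (nat_lit 81956) (nat_lit 23) (.e (nat_lit 98320) (nat_lit 17) .nil)))) .nil))))) (.nd (nat_lit 4) (.nd (nat_lit 5) (.nd (nat_lit 6) 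
(.lf (nat_lit 105229) (.g (nat_lit 3242) (.e (nat_lit 3771) (nat_lit 229) (.e (nat_lit 794637) (nat_lit 11) (.e (nat_lit 336088) (nat_lit 9) (.e (nat_lit 336443) (nat_lit 32) (.e (nat_lit 466969) (nat_lit 21) (.e (nat_lit 164325) (nat_lit 230) (.e (nat_lit 163844) (nat_lit 0) .nil))))))) (.g (nat_lit 6) .nil .nil))) 
(.lf (nat_lit 105293) (.g (nat_lit 1881) (.e (nat_lit 3875) (nat_lit 233) (.e (nat_lit 1221) (nat_lit 90) (.e (nat_lit 81956) (nat_lit 23) (.e (nat_lit 98350) (nat_lit 24) (.e (nat_lit 409649) (nat_lit 18) .nil))))) .nil))) (.nd (nat_lit 6) 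
(.lf (nat_lit 105261) (.g (nat_lit 3816) (.e (nat_lit 3774) (nat_lit 229) (.e (nat_lit 794669) (nat_lit 22) (.e (nat_lit 196691) (nat_lit 18) (.e (nat_lit 1349) (nat_lit 102) (.e (nat_lit 286761) (nat_lit 13) (.e (nat_lit 393234) (nat_lit 17) (.e (nat_lit 3544) (nat_lit 219) (.e (nat_lit 712717) (nat_lit 15) .nil)))))))) (.g (nat_lit 8) .nil .nil))) 
(.lf (nat_lit 105325) (.g (nat_lit 3357) (.e (nat_lit 3915) (nat_lit 239) (.e (nat_lit 1222) (nat_lit 90) (.e (nat_lit 81956) (nat_lit 23) (.e (nat_lit 98389) (nat_lit 33) (.e (nat_lit 491560) (nat_lit 10) .nil))))) .nil)))) (.nd (nat_lit 5) (.nd (nat_lit 6) 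
(.lf (nat_lit 105245) (.g (nat_lit 2036) (.e (nat_lit 3773) (nat_lit 229) (.e (nat_lit 794637) (nat_lit 11) (.e (nat_lit 336078) (nat_lit 9) (.e (nat_lit 336443) (nat_lit 32) (.e (nat_lit 466972) (nat_lit 21) .nil))))) .nil)) 
(.lf (nat_lit 105309) (.g (nat_lit 2595) (.e (nat_lit 3887) (nat_lit 233) (.e (nat_lit 1218) (nat_lit 90) (.e (nat_lit 81956) (nat_lit 23) (.e (nat_lit 98350) (nat_lit 24) (.e (nat_lit 409649) (nat_lit 18) .nil))))) .nil))) (.nd (nat_lit 6) 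
(.lf (nat_lit 105277) (.g (nat_lit 2083) (.e (nat_lit 3832) (nat_lit 233) (.e (nat_lit 1220) (nat_lit 90) (.e (nat_lit 81956) (nat_lit 23) (.e (nat_lit 98350) (nat_lit 24) (.e (nat_lit 409648) (nat_lit 18) .nil))))) .nil)) 
(.lf (nat_lit 105341) (.g (nat_lit 2724) (.e (nat_lit 3920) (nat_lit 239) (.e (nat_lit 1215) (nat_lit 90) (.e (nat_lit 81956) (nat_lit 23) (.e (nat_lit 98389) (nat_lit 33) (.e (nat_lit 491558) (nat_lit 10) .nil))))) .nil))))))) (.nd (nat_lit 2) (.nd (nat_lit 3) (.nd (nat_lit 4) (.nd (nat_lit 5) (.nd (nat_lit 6) 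
(.lf (nat_lit 105219) (.g (nat_lit 1529) (.e (nat_lit 3757) (nat_lit 229) (.e (nat_lit 794637) (nat_lit 11) (.e (nat_lit 336215) (nat_lit 13) (.e (nat_lit 393281) (nat_lit 23) .nil)))) .nil)) 
(.lf (nat_lit 105283) (.g (nat_lit 2503) (.e (nat_lit 3834) (nat_lit 233) (.e (nat_lit 1220) (nat_lit 90) (.e (nat_lit 81956) (nat_lit 23) (.e (nat_lit 98350) (nat_lit 24) (.e (nat_lit 409649) (nat_lit 18) (.e (nat_lit 303111) (nat_lit 0) (.e (nat_lit 2424) (nat_lit 157) .nil))))))) (.g (nat_lit 5) .nil .nil)))) (.nd (nat_lit 6) 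
(.lf (nat_lit 105251) (.g (nat_lit 1729) (.e (nat_lit 3774) (nat_lit 229) (.e (nat_lit 794633) (nat_lit 11) (.e (nat_lit 336012) (nat_lit 2) (.e (nat_lit 90185) (nat_lit 17) (.e (nat_lit 237601) (nat_lit 9) (.e (nat_lit 426436) (nat_lit 18) (.e (nat_lit 98324) (nat_lit 17) .nil))))))) (.g (nat_lit 4) .nil .nil))) 
(.lf (nat_lit 105315) (.g (nat_lit 2849) (.e (nat_lit 3913) (nat_lit 239) (.e (nat_lit 1223) (nat_lit 90) (.e (nat_lit 81956) (nat_lit 23) (.e (nat_lit 98389) (nat_lit 33) (.e (nat_lit 491560) (nat_lit 10) .nil))))) .nil)))) (.nd (nat_lit 5) (.nd (nat_lit 6) 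
(.lf (nat_lit 105235) (.g (nat_lit 1321) (.e (nat_lit 3771) (nat_lit 229) (.e (nat_lit 794669) (nat_lit 22) (.e (nat_lit 196668) (nat_lit 14) (.e (nat_lit 73747) (nat_lit 3) (.e (nat_lit 516117) (nat_lit 1) .nil))))) .nil)) 
(.lf (nat_lit 105299) (.g (nat_lit 2171) (.e (nat_lit 3878) (nat_lit 233) (.e (nat_lit 1219) (nat_lit 90) (.e (nat_lit 81956) (nat_lit 23) (.e (nat_lit 98350) (nat_lit 24) .nil)))) .nil))) (.nd (nat_lit 6) 
(.lf (nat_lit 105267) (.g (nat_lit 1030) (.e (nat_lit 3783) (nat_lit 230) (.e (nat_lit 810752) (nat_lit 11) (.e (nat_lit 336012) (nat_lit 2) (.e (nat_lit 90176) (nat_lit 15) (.e (nat_lit 196352) (nat_lit 3) (.e (nat_lit 98319) (nat_lit 17) .nil)))))) (.g (nat_lit 4) .nil .nil))) 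
(.lf (nat_lit 105331) (.g (nat_lit 3104) (.e (nat_lit 3915) (nat_lit 239) (.e (nat_lit 1224) (nat_lit 90) (.e (nat_lit 81956) (nat_lit 23) (.e (nat_lit 98389) (nat_lit 33) (.e (nat_lit 491560) (nat_lit 10) .nil))))) .nil))))) (.nd (nat_lit 4) (.nd (nat_lit 5) (.nd (nat_lit 6) 
(.lf (nat_lit 105227) (.g (nat_lit 1669) (.e (nat_lit 3771) (nat_lit 229) (.e (nat_lit 794637) (nat_lit 11) (.e (nat_lit 336012) (nat_lit 2) (.e (nat_lit 90185) (nat_lit 17) (.e (nat_lit 237601) (nat_lit 9) .nil))))) .nil)) 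
(.lf (nat_lit 105291) (.g (nat_lit 2041) (.e (nat_lit 3875) (nat_lit 233) (.e (nat_lit 1220) (nat_lit 90) (.e (nat_lit 81956) (nat_lit 23) (.e (nat_lit 98350) (nat_lit 24) (.e (nat_lit 409649) (nat_lit 18) .nil))))) .nil))) (.nd (nat_lit 6) 
(.lf (nat_lit 105259) (.g (nat_lit 2438) (.e (nat_lit 3774) (nat_lit 229) (.e (nat_lit 794637) (nat_lit 11) (.e (nat_lit 336088) (nat_lit 9) (.e (nat_lit 336443) (nat_lit 32) (.e (nat_lit 466969) (nat_lit 21) (.e (nat_lit 164332) (nat_lit 230) (.e (nat_lit 163847) (nat_lit 0) .nil))))))) (.g (nat_lit 4) .nil .nil))) 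
(.lf (nat_lit 105323) (.g (nat_lit 2808) (.e (nat_lit 3915) (nat_lit 239) (.e (nat_lit 1222) (nat_lit 90) (.e (nat_lit 81956) (nat_lit 23) (.e (nat_lit 98320) (nat_lit 17) .nil)))) .nil)))) (.nd (nat_lit 5) (.nd (nat_lit 6) 
(.lf (nat_lit 105243) (.g (nat_lit 1148) (.e (nat_lit 3773) (nat_lit 229) (.e (nat_lit 794637) (nat_lit 11) (.e (nat_lit 336078) (nat_lit 9) (.e (nat_lit 336443) (nat_lit 32) .nil)))) .nil)) 
(.lf (nat_lit 105307) (.g (nat_lit 2078) (.e (nat_lit 3881) (nat_lit 233) (.e (nat_lit 1221) (nat_lit 90) (.e (nat_lit 81956) (nat_lit 23) (.e (nat_lit 98350) (nat_lit 24) (.e (nat_lit 409649) (nat_lit 18) .nil))))) .nil))) (.nd (nat_lit 6) 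
(.lf (nat_lit 105275) (.g (nat_lit 2951) (.e (nat_lit 3828) (nat_lit 233) (.e (nat_lit 1222) (nat_lit 90) (.e (nat_lit 81956) (nat_lit 23) (.e (nat_lit 98350) (nat_lit 24) .nil)))) .nil)) 
(.lf (nat_lit 105339) (.g (nat_lit 2373) (.e (nat_lit 3920) (nat_lit 239) (.e (nat_lit 1214) (nat_lit 89) (.e (nat_lit 73781) (nat_lit 32) (.e (nat_lit 2682) (nat_lit 168) (.e (nat_lit 204869) (nat_lit 29) (.e (nat_lit 368384) (nat_lit 0) .nil)))))) (.g (nat_lit 5) .nil .nil))))))) (.nd (nat_lit 3) (.nd (nat_lit 4) (.nd (nat_lit 5) (.nd (nat_lit 6) 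
(.lf (nat_lit 105223) (.g (nat_lit 1594) (.e (nat_lit 3771) (nat_lit 229) (.e (nat_lit 794632) (nat_lit 11) (.e (nat_lit 336012) (nat_lit 2) (.e (nat_lit 90185) (nat_lit 17) (.e (nat_lit 237601) (nat_lit 9) .nil))))) .nil)) 
(.lf (nat_lit 105287) (.g (nat_lit 2192) (.e (nat_lit 3837) (nat_lit 233) (.e (nat_lit 68) (nat_lit 0) (.e (nat_lit 1349) (nat_lit 102) (.e (nat_lit 286759) (nat_lit 12) (.e (nat_lit 385074) (nat_lit 31) .nil))))) .nil))) (.nd (nat_lit 6) 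
(.lf (nat_lit 105255) (.g (nat_lit 1745) (.e (nat_lit 3774) (nat_lit 229) (.e (nat_lit 794633) (nat_lit 11) (.e (nat_lit 336027) (nat_lit 3) (.e (nat_lit 98370) (nat_lit 28) (.e (nat_lit 450304) (nat_lit 3) (.e (nat_lit 98321) (nat_lit 17) .nil)))))) (.g (nat_lit 4) .nil .nil))) 
(.lf (nat_lit 105319) (.g (nat_lit 3308) (.e (nat_lit 3915) (nat_lit 239) (.e (nat_lit 1201) (nat_lit 88) (.e (nat_lit 65610) (nat_lit 10) (.e (nat_lit 344117) (nat_lit 21) (.e (nat_lit 516106) (nat_lit 0) .nil))))) .nil)))) (.nd (nat_lit 5) (.nd (nat_lit 6) 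
(.lf (nat_lit 105239) (.g (nat_lit 4454) (.e (nat_lit 3771) (nat_lit 229) (.e (nat_lit 794673) (nat_lit 23) (.e (nat_lit 204829) (nat_lit 18) (.e (nat_lit 57849) (nat_lit 252) (.e (nat_lit 57379) (nat_lit 3) (.e (nat_lit 98313) (nat_lit 9) (.e (nat_lit 336027) (nat_lit 3) (.e (nat_lit 98321) (nat_lit 17) .nil)))))))) (.g (nat_lit 0) .nil .nil))) 
(.lf (nat_lit 105303) (.g (nat_lit 3304) (.e (nat_lit 3881) (nat_lit 233) (.e (nat_lit 1220) (nat_lit 90) (.e (nat_lit 81956) (nat_lit 23) (.e (nat_lit 98350) (nat_lit 24) (.e (nat_lit 409648) (nat_lit 18) (.e (nat_lit 303108) (nat_lit 0) (.e (nat_lit 2423) (nat_lit 157) .nil))))))) (.g (nat_lit 7) .nil .nil)))) (.nd (nat_lit 6) 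
(.lf (nat_lit 105271) (.g (nat_lit 1212) (.e (nat_lit 3787) (nat_lit 230) (.e (nat_lit 802822) (nat_lit 11) (.e (nat_lit 336027) (nat_lit 3) (.e (nat_lit 98370) (nat_lit 28) .nil)))) .nil)) 
(.lf (nat_lit 105335) (.g (nat_lit 3317) (.e (nat_lit 3920) (nat_lit 239) (.e (nat_lit 1201) (nat_lit 88) (.e (nat_lit 65610) (nat_lit 10) (.e (nat_lit 344117) (nat_lit 21) (.e (nat_lit 516185) (nat_lit 16) .nil))))) .nil))))) (.nd (nat_lit 4) (.nd (nat_lit 5) (.nd (nat_lit 6) 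
(.lf (nat_lit 105231) (.g (nat_lit 2970) (.e (nat_lit 3771) (nat_lit 229) (.e (nat_lit 794668) (nat_lit 22) (.e (nat_lit 196661) (nat_lit 12) (.e (nat_lit 57357) (nat_lit 0) (.e (nat_lit 5195) (nat_lit 294) (.e (nat_lit 57377) (nat_lit 3) (.e (nat_lit 98313) (nat_lit 9) (.e (nat_lit 336027) (nat_lit 3) (.e (nat_lit 98321) (nat_lit 17) .nil))))))))) (.g (nat_lit 8) .nil .nil))) 
(.lf (nat_lit 105295) (.g (nat_lit 3097) (.e (nat_lit 3877) (nat_lit 233) (.e (nat_lit 1220) (nat_lit 90) (.e (nat_lit 81956) (nat_lit 23) (.e (nat_lit 98350) (nat_lit 24) (.e (nat_lit 409648) (nat_lit 18) (.e (nat_lit 303108) (nat_lit 0) (.e (nat_lit 2416) (nat_lit 157) .nil))))))) (.g (nat_lit 5) .nil .nil)))) (.nd (nat_lit 6) 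
(.lf (nat_lit 105263) (.g (nat_lit 1875) (.e (nat_lit 3780) (nat_lit 229) (.e (nat_lit 794633) (nat_lit 11) (.e (nat_lit 336223) (nat_lit 13) (.e (nat_lit 393281) (nat_lit 23) (.e (nat_lit 426099) (nat_lit 1) .nil))))) .nil)) 
(.lf (nat_lit 105327) (.g (nat_lit 2177) (.e (nat_lit 3915) (nat_lit 239) (.e (nat_lit 1223) (nat_lit 90) (.e (nat_lit 81956) (nat_lit 23) (.e (nat_lit 98389) (nat_lit 33) .nil)))) .nil)))) (.nd (nat_lit 5) (.nd (nat_lit 6) 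
(.lf (nat_lit 105247) (.g (nat_lit 1555) (.e (nat_lit 3773) (nat_lit 229) (.e (nat_lit 794637) (nat_lit 11) (.e (nat_lit 336215) (nat_lit 13) (.e (nat_lit 393281) (nat_lit 23) .nil)))) .nil)) 
(.lf (nat_lit 105311) (.g (nat_lit 2530) (.e (nat_lit 7936) (nat_lit 235) (.e (nat_lit 57400) (nat_lit 10) (.e (nat_lit 319531) (nat_lit 16) (.e (nat_lit 286735) (nat_lit 3) (.e (nat_lit 98373) (nat_lit 29) .nil))))) .nil))) (.nd (nat_lit 6) 
(.lf (nat_lit 105279) (.g (nat_lit 2011) (.e (nat_lit 3832) (nat_lit 233) (.e (nat_lit 1221) (nat_lit 90) (.e (nat_lit 81956) (nat_lit 23) (.e (nat_lit 98350) (nat_lit 24) (.e (nat_lit 409648) (nat_lit 18) .nil))))) .nil)) 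
(.lf (nat_lit 105343) (.g (nat_lit 2057) (.e (nat_lit 3920) (nat_lit 239) (.e (nat_lit 1216) (nat_lit 90) (.e (nat_lit 81956) (nat_lit 23) (.e (nat_lit 98389) (nat_lit 33) .nil)))) .nil)))))))))

noncomputable def tv1440 : DT := (.nd (nat_lit 0) (.nd (nat_lit 1) (.nd (nat_lit 2) (.nd (nat_lit 3) (.nd (nat_lit 4) (.nd (nat_lit 5) (.nd (nat_lit 6) 
(.lf (nat_lit 105344) (.g (nat_lit 2829) (.e (nat_lit 3920) (nat_lit 239) (.e (nat_lit 1216) (nat_lit 90) (.e (nat_lit 81956) (nat_lit 23) (.e (nat_lit 98389) (nat_lit 33) (.e (nat_lit 491558) (nat_lit 10) .nil))))) .nil)) 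
(.lf (nat_lit 105408) (.g (nat_lit 2872) (.e (nat_lit 3942) (nat_lit 239) (.e (nat_lit 1218) (nat_lit 90) (.e (nat_lit 81956) (nat_lit 23) (.e (nat_lit 98320) (nat_lit 17) (.e (nat_lit 7591) (nat_lit 407) .nil))))) .nil))) (.nd (nat_lit 6) 
(.lf (nat_lit 105376) (.g (nat_lit 2482) (.e (nat_lit 3927) (nat_lit 239) (.e (nat_lit 1219) (nat_lit 90) (.e (nat_lit 81956) (nat_lit 23) (.e (nat_lit 98389) (nat_lit 33) .nil)))) .nil)) 
(.lf (nat_lit 105440) (.g (nat_lit 1147) (.e (nat_lit 3962) (nat_lit 239) (.e (nat_lit 1200) (nat_lit 88) (.e (nat_lit 65619) (nat_lit 10) (.e (nat_lit 344117) (nat_lit 21) .nil)))) .nil)))) (.nd (nat_lit 5) (.nd (nat_lit 6) 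
(.lf (nat_lit 105360) (.g (nat_lit 2451) (.e (nat_lit 3920) (nat_lit 239) (.e (nat_lit 1224) (nat_lit 90) (.e (nat_lit 81956) (nat_lit 23) (.e (nat_lit 98389) (nat_lit 33) .nil)))) .nil)) 
(.lf (nat_lit 105424) (.g (nat_lit 892) (.e (nat_lit 3959) (nat_lit 239) (.e (nat_lit 1197) (nat_lit 88) (.e (nat_lit 65604) (nat_lit 9) (.e (nat_lit 336013) (nat_lit 2) .nil)))) .nil))) (.nd (nat_lit 6) 
(.lf (nat_lit 105392) (.g (nat_lit 1886) (.e (nat_lit 3928) (nat_lit 239) (.e (nat_lit 1216) (nat_lit 90) (.e (nat_lit 81956) (nat_lit 23) (.e (nat_lit 98319) (nat_lit 17) (.e (nat_lit 7593) (nat_lit 407) .nil))))) .nil)) 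
(.lf (nat_lit 105456) (.g (nat_lit 2731) (.e (nat_lit 3962) (nat_lit 239) (.e (nat_lit 1221) (nat_lit 90) (.e (nat_lit 81956) (nat_lit 23) (.e (nat_lit 98325) (nat_lit 17) (.e (nat_lit 7936) (nat_lit 407) .nil))))) .nil))))) (.nd (nat_lit 4) (.nd (nat_lit 5) (.nd (nat_lit 6) 
(.lf (nat_lit 105352) (.g (nat_lit 2482) (.e (nat_lit 3920) (nat_lit 239) (.e (nat_lit 1219) (nat_lit 90) (.e (nat_lit 81956) (nat_lit 23) (.e (nat_lit 98389) (nat_lit 33) .nil)))) .nil)) 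
(.lf (nat_lit 105416) (.g (nat_lit 2872) (.e (nat_lit 3947) (nat_lit 239) (.e (nat_lit 1218) (nat_lit 90) (.e (nat_lit 81956) (nat_lit 23) (.e (nat_lit 98320) (nat_lit 17) (.e (nat_lit 7591) (nat_lit 407) .nil))))) .nil))) (.nd (nat_lit 6) 
(.lf (nat_lit 105384) (.g (nat_lit 3090) (.e (nat_lit 3928) (nat_lit 239) (.e (nat_lit 1215) (nat_lit 90) (.e (nat_lit 81956) (nat_lit 23) (.e (nat_lit 98320) (nat_lit 17) (.e (nat_lit 7591) (nat_lit 407) .nil))))) .nil)) 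
(.lf (nat_lit 105448) (.g (nat_lit 3354) (.e (nat_lit 3962) (nat_lit 239) (.e (nat_lit 1220) (nat_lit 90) (.e (nat_lit 81956) (nat_lit 23) (.e (nat_lit 98389) (nat_lit 33) .nil)))) .nil)))) (.nd (nat_lit 5) (.nd (nat_lit 6) 
(.lf (nat_lit 105368) (.g (nat_lit 1827) (.e (nat_lit 3925) (nat_lit 239) (.e (nat_lit 1200) (nat_lit 88) (.e (nat_lit 65619) (nat_lit 10) (.e (nat_lit 344117) (nat_lit 21) (.e (nat_lit 516097) (nat_lit 0) .nil))))) .nil)) 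
(.lf (nat_lit 105432) (.g (nat_lit 272) (.e (nat_lit 3962) (nat_lit 239) (.e (nat_lit 1190) (nat_lit 88) (.e (nat_lit 65619) (nat_lit 10) .nil))) .nil))) (.nd (nat_lit 6) 
(.lf (nat_lit 105400) (.g (nat_lit 2928) (.e (nat_lit 3928) (nat_lit 239) (.e (nat_lit 1217) (nat_lit 90) (.e (nat_lit 81956) (nat_lit 23) (.e (nat_lit 98389) (nat_lit 33) (.e (nat_lit 491558) (nat_lit 10) .nil))))) .nil)) 
(.lf (nat_lit 105464) (.g (nat_lit 1966) (.e (nat_lit 3963) (nat_lit 239) (.e (nat_lit 1221) (nat_lit 90) (.e (nat_lit 81953) (nat_lit 22) (.e (nat_lit 90165) (nat_lit 12) (.e (nat_lit 164237) (nat_lit 187) .nil))))) .nil)))))) (.nd (nat_lit 3) (.nd (nat_lit 4) (.nd (nat_lit 5) (.nd (nat_lit 6) 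
(.lf (nat_lit 105348) (.g (nat_lit 2326) (.e (nat_lit 3920) (nat_lit 239) (.e (nat_lit 1217) (nat_lit 90) (.e (nat_lit 81956) (nat_lit 23) (.e (nat_lit 98389) (nat_lit 33) (.e (nat_lit 491560) (nat_lit 10) .nil))))) .nil)) 
(.lf (nat_lit 105412) (.g (nat_lit 2878) (.e (nat_lit 3945) (nat_lit 239) (.e (nat_lit 1218) (nat_lit 90) (.e (nat_lit 81956) (nat_lit 23) (.e (nat_lit 98320) (nat_lit 17) (.e (nat_lit 7593) (nat_lit 407) .nil))))) .nil))) (.nd (nat_lit 6) 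
(.lf (nat_lit 105380) (.g (nat_lit 3408) (.e (nat_lit 3927) (nat_lit 239) (.e (nat_lit 1221) (nat_lit 90) (.e (nat_lit 81956) (nat_lit 23) (.e (nat_lit 98320) (nat_lit 17) .nil)))) .nil)) 
(.lf (nat_lit 105444) (.g (nat_lit 462) (.e (nat_lit 3962) (nat_lit 239) (.e (nat_lit 1209) (nat_lit 89) (.e (nat_lit 81664) (nat_lit 32) .nil))) .nil)))) (.nd (nat_lit 5) (.nd (nat_lit 6) 
(.lf (nat_lit 105364) (.g (nat_lit 1540) (.e (nat_lit 3922) (nat_lit 239) (.e (nat_lit 1201) (nat_lit 88) (.e (nat_lit 65628) (nat_lit 14) (.e (nat_lit 401428) (nat_lit 3) .nil)))) .nil)) 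
(.lf (nat_lit 105428) (.g (nat_lit 2876) (.e (nat_lit 3959) (nat_lit 239) (.e (nat_lit 1218) (nat_lit 90) (.e (nat_lit 81956) (nat_lit 23) (.e (nat_lit 98320) (nat_lit 17) (.e (nat_lit 7593) (nat_lit 407) .nil))))) .nil))) (.nd (nat_lit 6) 
(.lf (nat_lit 105396) (.g (nat_lit 2868) (.e (nat_lit 3928) (nat_lit 239) (.e (nat_lit 1216) (nat_lit 90) (.e (nat_lit 81956) (nat_lit 23) (.e (nat_lit 98389) (nat_lit 33) (.e (nat_lit 491558) (nat_lit 10) .nil))))) .nil)) 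
(.lf (nat_lit 105460) (.g (nat_lit 497) (.e (nat_lit 3962) (nat_lit 239) (.e (nat_lit 1221) (nat_lit 90) (.e (nat_lit 81962) (nat_lit 25) .nil))) .nil))))) (.nd (nat_lit 4) (.nd (nat_lit 5) (.nd (nat_lit 6) 
(.lf (nat_lit 105356) (.g (nat_lit 3396) (.e (nat_lit 3920) (nat_lit 239) (.e (nat_lit 1221) (nat_lit 90) (.e (nat_lit 81956) (nat_lit 23) (.e (nat_lit 98388) (nat_lit 33) .nil)))) .nil)) 
(.lf (nat_lit 105420) (.g (nat_lit 1636) (.e (nat_lit 3950) (nat_lit 239) (.e (nat_lit 1218) (nat_lit 90) (.e (nat_lit 81956) (nat_lit 23) (.e (nat_lit 98389) (nat_lit 33) .nil)))) .nil))) (.nd (nat_lit 6) 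
(.lf (nat_lit 105388) (.g (nat_lit 1054) (.e (nat_lit 3928) (nat_lit 239) (.e (nat_lit 1216) (nat_lit 90) (.e (nat_lit 81953) (nat_lit 22) (.e (nat_lit 90165) (nat_lit 12) .nil)))) .nil)) 
(.lf (nat_lit 105452) (.g (nat_lit 2985) (.e (nat_lit 3962) (nat_lit 239) (.e (nat_lit 1221) (nat_lit 90) (.e (nat_lit 81956) (nat_lit 23) (.e (nat_lit 98319) (nat_lit 17) (.e (nat_lit 7591) (nat_lit 407) .nil))))) .nil)))) (.nd (nat_lit 5) (.nd (nat_lit 6) 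
(.lf (nat_lit 105372) (.g (nat_lit 3464) (.e (nat_lit 3926) (nat_lit 239) (.e (nat_lit 1221) (nat_lit 90) (.e (nat_lit 81956) (nat_lit 23) (.e (nat_lit 98320) (nat_lit 17) .nil)))) .nil)) 
(.lf (nat_lit 105436) (.g (nat_lit 4402) (.e (nat_lit 3962) (nat_lit 239) (.e (nat_lit 1190) (nat_lit 88) (.e (nat_lit 65630) (nat_lit 14) (.e (nat_lit 401428) (nat_lit 3) (.e (nat_lit 204869) (nat_lit 29) (.e (nat_lit 360455) (nat_lit 0) .nil)))))) (.g (nat_lit 6) .nil .nil)))) (.nd (nat_lit 6) 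
(.lf (nat_lit 105404) (.g (nat_lit 3134) (.e (nat_lit 3931) (nat_lit 239) (.e (nat_lit 2630) (nat_lit 164) (.e (nat_lit 172126) (nat_lit 14) (.e (nat_lit 491537) (nat_lit 2) (.e (nat_lit 90170) (nat_lit 13) .nil))))) .nil)) 
(.lf (nat_lit 105468) (.g (nat_lit 3273) (.e (nat_lit 3963) (nat_lit 239) (.e (nat_lit 1221) (nat_lit 90) (.e (nat_lit 81956) (nat_lit 23) (.e (nat_lit 98389) (nat_lit 33) .nil)))) .nil))))))) (.nd (nat_lit 2) (.nd (nat_lit 3) (.nd (nat_lit 4) (.nd (nat_lit 5) (.nd (nat_lit 6) 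
(.lf (nat_lit 105346) (.g (nat_lit 2522) (.e (nat_lit 3920) (nat_lit 239) (.e (nat_lit 1217) (nat_lit 90) (.e (nat_lit 81956) (nat_lit 23) (.e (nat_lit 98320) (nat_lit 17) .nil)))) .nil)) 
(.lf (nat_lit 105410) (.g (nat_lit 2878) (.e (nat_lit 3943) (nat_lit 239) (.e (nat_lit 1218) (nat_lit 90) (.e (nat_lit 81956) (nat_lit 23) (.e (nat_lit 98320) (nat_lit 17) (.e (nat_lit 7593) (nat_lit 407) .nil))))) .nil))) (.nd (nat_lit 6) 
(.lf (nat_lit 105378) (.g (nat_lit 3356) (.e (nat_lit 3927) (nat_lit 239) (.e (nat_lit 1220) (nat_lit 90) (.e (nat_lit 81956) (nat_lit 23) (.e (nat_lit 98389) (nat_lit 33) .nil)))) .nil)) 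
(.lf (nat_lit 105442) (.g (nat_lit 640) (.e (nat_lit 3962) (nat_lit 239) (.e (nat_lit 1209) (nat_lit 89) (.e (nat_lit 73781) (nat_lit 32) .nil))) .nil)))) (.nd (nat_lit 5) (.nd (nat_lit 6) 
(.lf (nat_lit 105362) (.g (nat_lit 1359) (.e (nat_lit 3922) (nat_lit 239) (.e (nat_lit 1187) (nat_lit 88) (.e (nat_lit 65619) (nat_lit 10) (.e (nat_lit 344117) (nat_lit 21) (.e (nat_lit 516185) (nat_lit 16) .nil))))) .nil)) 
(.lf (nat_lit 105426) (.g (nat_lit 2608) (.e (nat_lit 3959) (nat_lit 239) (.e (nat_lit 1197) (nat_lit 88) (.e (nat_lit 65610) (nat_lit 10) (.e (nat_lit 344117) (nat_lit 21) (.e (nat_lit 516185) (nat_lit 16) .nil))))) .nil))) (.nd (nat_lit 6) 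
(.lf (nat_lit 105394) (.g (nat_lit 3241) (.e (nat_lit 3928) (nat_lit 239) (.e (nat_lit 1216) (nat_lit 90) (.e (nat_lit 81956) (nat_lit 23) (.e (nat_lit 98320) (nat_lit 17) (.e (nat_lit 7593) (nat_lit 407) .nil))))) .nil)) 
(.lf (nat_lit 105458) (.g (nat_lit 2870) (.e (nat_lit 3962) (nat_lit 239) (.e (nat_lit 1221) (nat_lit 90) (.e (nat_lit 81956) (nat_lit 23) (.e (nat_lit 98389) (nat_lit 33) .nil)))) .nil))))) (.nd (nat_lit 4) (.nd (nat_lit 5) (.nd (nat_lit 6) 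
(.lf (nat_lit 105354) (.g (nat_lit 3035) (.e (nat_lit 3920) (nat_lit 239) (.e (nat_lit 1220) (nat_lit 90) (.e (nat_lit 81956) (nat_lit 23) (.e (nat_lit 98389) (nat_lit 33) .nil)))) .nil)) 
(.lf (nat_lit 105418) (.g (nat_lit 1850) (.e (nat_lit 3950) (nat_lit 239) (.e (nat_lit 1197) (nat_lit 88) (.e (nat_lit 65630) (nat_lit 14) (.e (nat_lit 401412) (nat_lit 0) (.e (nat_lit 3262) (nat_lit 198) .nil))))) .nil))) (.nd (nat_lit 6) 
(.lf (nat_lit 105386) (.g (nat_lit 2550) (.e (nat_lit 3928) (nat_lit 239) (.e (nat_lit 1215) (nat_lit 90) (.e (nat_lit 81956) (nat_lit 23) (.e (nat_lit 98389) (nat_lit 33) (.e (nat_lit 491558) (nat_lit 10) .nil))))) .nil)) 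
(.lf (nat_lit 105450) (.g (nat_lit 649) (.e (nat_lit 3962) (nat_lit 239) (.e (nat_lit 1221) (nat_lit 90) (.e (nat_lit 81954) (nat_lit 23) .nil))) .nil)))) (.nd (nat_lit 5) (.nd (nat_lit 6) 
(.lf (nat_lit 105370) (.g (nat_lit 3555) (.e (nat_lit 3926) (nat_lit 239) (.e (nat_lit 1220) (nat_lit 90) (.e (nat_lit 81956) (nat_lit 23) (.e (nat_lit 98320) (nat_lit 17) .nil)))) .nil)) 
(.lf (nat_lit 105434) (.g (nat_lit 1540) (.e (nat_lit 3962) (nat_lit 239) (.e (nat_lit 1190) (nat_lit 88) (.e (nat_lit 65619) (nat_lit 10) (.e (nat_lit 344117) (nat_lit 21) (.e (nat_lit 516098) (nat_lit 0) .nil))))) .nil))) (.nd (nat_lit 6) 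
(.lf (nat_lit 105402) (.g (nat_lit 2344) (.e (nat_lit 3929) (nat_lit 239) (.e (nat_lit 1215) (nat_lit 90) (.e (nat_lit 81956) (nat_lit 23) (.e (nat_lit 98320) (nat_lit 17) .nil)))) .nil)) 
(.lf (nat_lit 105466) (.g (nat_lit 3982) (.e (nat_lit 3963) (nat_lit 239) (.e (nat_lit 1221) (nat_lit 90) (.e (nat_lit 81956) (nat_lit 23) (.e (nat_lit 98320) (nat_lit 17) (.e (nat_lit 7591) (nat_lit 407) .nil))))) .nil)))))) (.nd (nat_lit 3) (.nd (nat_lit 4) (.nd (nat_lit 5) (.nd (nat_lit 6) 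
(.lf (nat_lit 105350) (.g (nat_lit 3818) (.e (nat_lit 3920) (nat_lit 239) (.e (nat_lit 1217) (nat_lit 90) (.e (nat_lit 81956) (nat_lit 23) (.e (nat_lit 98389) (nat_lit 33) (.e (nat_lit 491560) (nat_lit 10) (.e (nat_lit 344089) (nat_lit 18) .nil)))))) (.g (nat_lit 6) .nil .nil))) 
(.lf (nat_lit 105414) (.g (nat_lit 2876) (.e (nat_lit 3946) (nat_lit 239) (.e (nat_lit 1218) (nat_lit 90) (.e (nat_lit 81956) (nat_lit 23) (.e (nat_lit 98320) (nat_lit 17) (.e (nat_lit 7593) (nat_lit 407) .nil))))) .nil))) (.nd (nat_lit 6) 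
(.lf (nat_lit 105382) (.g (nat_lit 3665) (.e (nat_lit 3927) (nat_lit 239) (.e (nat_lit 1221) (nat_lit 90) (.e (nat_lit 81956) (nat_lit 23) (.e (nat_lit 98389) (nat_lit 33) (.e (nat_lit 491560) (nat_lit 10) .nil))))) .nil)) 
(.lf (nat_lit 105446) (.g (nat_lit 2488) (.e (nat_lit 3962) (nat_lit 239) (.e (nat_lit 1219) (nat_lit 90) (.e (nat_lit 81956) (nat_lit 23) (.e (nat_lit 98389) (nat_lit 33) .nil)))) .nil)))) (.nd (nat_lit 5) (.nd (nat_lit 6) 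
(.lf (nat_lit 105366) (.g (nat_lit 3122) (.e (nat_lit 3923) (nat_lit 239) (.e (nat_lit 1220) (nat_lit 90) (.e (nat_lit 81956) (nat_lit 23) (.e (nat_lit 98389) (nat_lit 33) .nil)))) .nil)) 
(.lf (nat_lit 105430) (.g (nat_lit 3743) (.e (nat_lit 3962) (nat_lit 239) (.e (nat_lit 1188) (nat_lit 88) (.e (nat_lit 65630) (nat_lit 14) (.e (nat_lit 401428) (nat_lit 3) (.e (nat_lit 204869) (nat_lit 29) (.e (nat_lit 360455) (nat_lit 0) .nil)))))) (.g (nat_lit 6) .nil .nil)))) (.nd (nat_lit 6) 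
(.lf (nat_lit 105398) (.g (nat_lit 1507) (.e (nat_lit 3928) (nat_lit 239) (.e (nat_lit 1217) (nat_lit 90) (.e (nat_lit 81953) (nat_lit 22) (.e (nat_lit 90165) (nat_lit 12) (.e (nat_lit 171776) (nat_lit 192) .nil))))) .nil)) 
(.lf (nat_lit 105462) (.g (nat_lit 1294) (.e (nat_lit 3963) (nat_lit 239) (.e (nat_lit 1221) (nat_lit 90) (.e (nat_lit 81953) (nat_lit 22) (.e (nat_lit 90165) (nat_lit 12) .nil)))) .nil))))) (.nd (nat_lit 4) (.nd (nat_lit 5) (.nd (nat_lit 6) 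
(.lf (nat_lit 105358) (.g (nat_lit 3676) (.e (nat_lit 3920) (nat_lit 239) (.e (nat_lit 1221) (nat_lit 90) (.e (nat_lit 81956) (nat_lit 23) (.e (nat_lit 98389) (nat_lit 33) (.e (nat_lit 491558) (nat_lit 10) .nil))))) .nil)) 
(.lf (nat_lit 105422) (.g (nat_lit 2120) (.e (nat_lit 3957) (nat_lit 239) (.e (nat_lit 1218) (nat_lit 90) (.e (nat_lit 81956) (nat_lit 23) (.e (nat_lit 98320) (nat_lit 17) .nil)))) .nil))) (.nd (nat_lit 6) 
(.lf (nat_lit 105390) (.g (nat_lit 1038) (.e (nat_lit 3928) (nat_lit 239) (.e (nat_lit 1216) (nat_lit 90) (.e (nat_lit 81954) (nat_lit 23) (.e (nat_lit 98325) (nat_lit 17) .nil)))) .nil)) 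
(.lf (nat_lit 105454) (.g (nat_lit 4793) (.e (nat_lit 3962) (nat_lit 239) (.e (nat_lit 1221) (nat_lit 90) (.e (nat_lit 81956) (nat_lit 23) (.e (nat_lit 98320) (nat_lit 17) (.e (nat_lit 7591) (nat_lit 407) (.e (nat_lit 73737) (nat_lit 0) .nil)))))) (.g (nat_lit 6) .nil .nil))))) (.nd (nat_lit 5) (.nd (nat_lit 6) 
(.lf (nat_lit 105374) (.g (nat_lit 2114) (.e (nat_lit 3927) (nat_lit 239) (.e (nat_lit 1218) (nat_lit 90) (.e (nat_lit 81956) (nat_lit 23) (.e (nat_lit 98320) (nat_lit 17) .nil)))) .nil)) 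
(.lf (nat_lit 105438) (.g (nat_lit 4222) (.e (nat_lit 3962) (nat_lit 239) (.e (nat_lit 1199) (nat_lit 88) (.e (nat_lit 65630) (nat_lit 14) (.e (nat_lit 401428) (nat_lit 3) (.e (nat_lit 204869) (nat_lit 29) (.e (nat_lit 360455) (nat_lit 0) .nil)))))) (.g (nat_lit 6) .nil .nil)))) (.nd (nat_lit 6) 
(.lf (nat_lit 105406) (.g (nat_lit 2653) (.e (nat_lit 3941) (nat_lit 239) (.e (nat_lit 1218) (nat_lit 90) (.e (nat_lit 81956) (nat_lit 23) (.e (nat_lit 98389) (nat_lit 33) (.e (nat_lit 491560) (nat_lit 10) .nil))))) .nil)) 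
(.lf (nat_lit 105470) (.g (nat_lit 3356) (.e (nat_lit 3964) (nat_lit 239) (.e (nat_lit 1220) (nat_lit 90) (.e (nat_lit 81956) (nat_lit 23) (.e (nat_lit 98389) (nat_lit 33) .nil)))) .nil)))))))) (.nd (nat_lit 1) (.nd (nat_lit 2) (.nd (nat_lit 3) (.nd (nat_lit 4) (.nd (nat_lit 5) (.nd (nat_lit 6) 
(.lf (nat_lit 105345) (.g (nat_lit 1479) (.e (nat_lit 3920) (nat_lit 239) (.e (nat_lit 1217) (nat_lit 90) (.e (nat_lit 81954) (nat_lit 23) (.e (nat_lit 98389) (nat_lit 33) (.e (nat_lit 491560) (nat_lit 10) .nil))))) .nil)) 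
(.lf (nat_lit 105409) (.g (nat_lit 2872) (.e (nat_lit 3943) (nat_lit 239) (.e (nat_lit 1218) (nat_lit 90) (.e (nat_lit 81956) (nat_lit 23) (.e (nat_lit 98320) (nat_lit 17) (.e (nat_lit 7591) (nat_lit 407) .nil))))) .nil))) (.nd (nat_lit 6) 
(.lf (nat_lit 105377) (.g (nat_lit 3555) (.e (nat_lit 3927) (nat_lit 239) (.e (nat_lit 1220) (nat_lit 90) (.e (nat_lit 81956) (nat_lit 23) (.e (nat_lit 98320) (nat_lit 17) .nil)))) .nil)) 
(.lf (nat_lit 105441) (.g (nat_lit 1803) (.e (nat_lit 3962) (nat_lit 239) (.e (nat_lit 1200) (nat_lit 88) (.e (nat_lit 65619) (nat_lit 10) (.e (nat_lit 344117) (nat_lit 21) (.e (nat_lit 516098) (nat_lit 0) .nil))))) .nil)))) (.nd (nat_lit 5) (.nd (nat_lit 6) 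
(.lf (nat_lit 105361) (.g (nat_lit 3178) (.e (nat_lit 3920) (nat_lit 239) (.e (nat_lit 1224) (nat_lit 90) (.e (nat_lit 81956) (nat_lit 23) (.e (nat_lit 98389) (nat_lit 33) (.e (nat_lit 491560) (nat_lit 10) .nil))))) .nil)) 
(.lf (nat_lit 105425) (.g (nat_lit 617) (.e (nat_lit 3959) (nat_lit 239) (.e (nat_lit 1197) (nat_lit 88) (.e (nat_lit 65604) (nat_lit 9) (.e (nat_lit 336028) (nat_lit 3) .nil)))) .nil))) (.nd (nat_lit 6) 
(.lf (nat_lit 105393) (.g (nat_lit 3226) (.e (nat_lit 3928) (nat_lit 239) (.e (nat_lit 1216) (nat_lit 90) (.e (nat_lit 81956) (nat_lit 23) (.e (nat_lit 98320) (nat_lit 17) (.e (nat_lit 7591) (nat_lit 407) .nil))))) .nil)) 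
(.lf (nat_lit 105457) (.g (nat_lit 1164) (.e (nat_lit 3962) (nat_lit 239) (.e (nat_lit 1221) (nat_lit 90) (.e (nat_lit 81956) (nat_lit 23) (.e (nat_lit 98350) (nat_lit 24) .nil)))) .nil))))) (.nd (nat_lit 4) (.nd (nat_lit 5) (.nd (nat_lit 6) 
(.lf (nat_lit 105353) (.g (nat_lit 3432) (.e (nat_lit 3920) (nat_lit 239) (.e (nat_lit 1220) (nat_lit 90) (.e (nat_lit 81956) (nat_lit 23) (.e (nat_lit 98388) (nat_lit 33) .nil)))) .nil)) 
(.lf (nat_lit 105417) (.g (nat_lit 2878) (.e (nat_lit 3947) (nat_lit 239) (.e (nat_lit 1218) (nat_lit 90) (.e (nat_lit 81956) (nat_lit 23) (.e (nat_lit 98320) (nat_lit 17) (.e (nat_lit 7593) (nat_lit 407) .nil))))) .nil))) (.nd (nat_lit 6) 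
(.lf (nat_lit 105385) (.g (nat_lit 3105) (.e (nat_lit 3928) (nat_lit 239) (.e (nat_lit 1215) (nat_lit 90) (.e (nat_lit 81956) (nat_lit 23) (.e (nat_lit 98320) (nat_lit 17) (.e (nat_lit 7593) (nat_lit 407) .nil))))) .nil)) 
(.lf (nat_lit 105449) (.g (nat_lit 1253) (.e (nat_lit 3962) (nat_lit 239) (.e (nat_lit 1221) (nat_lit 90) (.e (nat_lit 81953) (nat_lit 22) (.e (nat_lit 90165) (nat_lit 12) .nil)))) .nil)))) (.nd (nat_lit 5) (.nd (nat_lit 6) 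
(.lf (nat_lit 105369) (.g (nat_lit 1824) (.e (nat_lit 3925) (nat_lit 239) (.e (nat_lit 1200) (nat_lit 88) (.e (nat_lit 65619) (nat_lit 10) (.e (nat_lit 344129) (nat_lit 26) (.e (nat_lit 557087) (nat_lit 11) .nil))))) .nil)) 
(.lf (nat_lit 105433) (.g (nat_lit 1575) (.e (nat_lit 3962) (nat_lit 239) (.e (nat_lit 1190) (nat_lit 88) (.e (nat_lit 65619) (nat_lit 10) (.e (nat_lit 344117) (nat_lit 21) (.e (nat_lit 516097) (nat_lit 0) .nil))))) .nil))) (.nd (nat_lit 6) 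
(.lf (nat_lit 105401) (.g (nat_lit 2909) (.e (nat_lit 3928) (nat_lit 239) (.e (nat_lit 1217) (nat_lit 90) (.e (nat_lit 81956) (nat_lit 23) (.e (nat_lit 98389) (nat_lit 33) (.e (nat_lit 491560) (nat_lit 10) .nil))))) .nil)) 
(.lf (nat_lit 105465) (.g (nat_lit 3435) (.e (nat_lit 3963) (nat_lit 239) (.e (nat_lit 1221) (nat_lit 90) (.e (nat_lit 81956) (nat_lit 23) (.e (nat_lit 98320) (nat_lit 17) .nil)))) .nil)))))) (.nd (nat_lit 3) (.nd (nat_lit 4) (.nd (nat_lit 5) (.nd (nat_lit 6) 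
(.lf (nat_lit 105349) (.g (nat_lit 3777) (.e (nat_lit 3920) (nat_lit 239) (.e (nat_lit 1217) (nat_lit 90) (.e (nat_lit 81956) (nat_lit 23) (.e (nat_lit 98389) (nat_lit 33) (.e (nat_lit 491560) (nat_lit 10) (.e (nat_lit 344088) (nat_lit 18) .nil)))))) (.g (nat_lit 6) .nil .nil))) 
(.lf (nat_lit 105413) (.g (nat_lit 2870) (.e (nat_lit 3946) (nat_lit 239) (.e (nat_lit 1218) (nat_lit 90) (.e (nat_lit 81956) (nat_lit 23) (.e (nat_lit 98320) (nat_lit 17) (.e (nat_lit 7591) (nat_lit 407) .nil))))) .nil))) (.nd (nat_lit 6) 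
(.lf (nat_lit 105381) (.g (nat_lit 3767) (.e (nat_lit 3927) (nat_lit 239) (.e (nat_lit 1221) (nat_lit 90) (.e (nat_lit 81956) (nat_lit 23) (.e (nat_lit 98389) (nat_lit 33) (.e (nat_lit 491558) (nat_lit 10) .nil))))) .nil)) 
(.lf (nat_lit 105445) (.g (nat_lit 2729) (.e (nat_lit 3962) (nat_lit 239) (.e (nat_lit 1219) (nat_lit 90) (.e (nat_lit 81956) (nat_lit 23) (.e (nat_lit 98320) (nat_lit 17) .nil)))) .nil)))) (.nd (nat_lit 5) (.nd (nat_lit 6) 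
(.lf (nat_lit 105365) (.g (nat_lit 2482) (.e (nat_lit 3923) (nat_lit 239) (.e (nat_lit 1219) (nat_lit 90) (.e (nat_lit 81956) (nat_lit 23) (.e (nat_lit 98389) (nat_lit 33) .nil)))) .nil)) 
(.lf (nat_lit 105429) (.g (nat_lit 2491) (.e (nat_lit 3959) (nat_lit 239) (.e (nat_lit 1218) (nat_lit 90) (.e (nat_lit 81956) (nat_lit 23) (.e (nat_lit 98389) (nat_lit 33) (.e (nat_lit 491558) (nat_lit 10) .nil))))) .nil))) (.nd (nat_lit 6) 
(.lf (nat_lit 105397) (.g (nat_lit 786) (.e (nat_lit 3928) (nat_lit 239) (.e (nat_lit 1217) (nat_lit 90) (.e (nat_lit 81946) (nat_lit 20) (.e (nat_lit 1842) (nat_lit 123) .nil)))) .nil)) 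
(.lf (nat_lit 105461) (.g (nat_lit 3356) (.e (nat_lit 3963) (nat_lit 239) (.e (nat_lit 1220) (nat_lit 90) (.e (nat_lit 81956) (nat_lit 23) (.e (nat_lit 98389) (nat_lit 33) .nil)))) .nil))))) (.nd (nat_lit 4) (.nd (nat_lit 5) (.nd (nat_lit 6) 
(.lf (nat_lit 105357) (.g (nat_lit 2954) (.e (nat_lit 3920) (nat_lit 239) (.e (nat_lit 1221) (nat_lit 90) (.e (nat_lit 81956) (nat_lit 23) (.e (nat_lit 98389) (nat_lit 33) .nil)))) .nil)) 
(.lf (nat_lit 105421) (.g (nat_lit 2653) (.e (nat_lit 3952) (nat_lit 239) (.e (nat_lit 1218) (nat_lit 90) (.e (nat_lit 81956) (nat_lit 23) (.e (nat_lit 98389) (nat_lit 33) (.e (nat_lit 491560) (nat_lit 10) .nil))))) .nil))) (.nd (nat_lit 6) 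
(.lf (nat_lit 105389) (.g (nat_lit 1104) (.e (nat_lit 3928) (nat_lit 239) (.e (nat_lit 1216) (nat_lit 90) (.e (nat_lit 81954) (nat_lit 23) (.e (nat_lit 98320) (nat_lit 17) .nil)))) .nil)) 
(.lf (nat_lit 105453) (.g (nat_lit 4414) (.e (nat_lit 3962) (nat_lit 239) (.e (nat_lit 1221) (nat_lit 90) (.e (nat_lit 81956) (nat_lit 23) (.e (nat_lit 98320) (nat_lit 17) (.e (nat_lit 7591) (nat_lit 407) (.e (nat_lit 73735) (nat_lit 0) .nil)))))) (.g (nat_lit 5) .nil .nil))))) (.nd (nat_lit 5) (.nd (nat_lit 6) 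
(.lf (nat_lit 105373) (.g (nat_lit 3302) (.e (nat_lit 3926) (nat_lit 239) (.e (nat_lit 1221) (nat_lit 90) (.e (nat_lit 81956) (nat_lit 23) (.e (nat_lit 98389) (nat_lit 33) .nil)))) .nil)) 
(.lf (nat_lit 105437) (.g (nat_lit 2412) (.e (nat_lit 3962) (nat_lit 239) (.e (nat_lit 1199) (nat_lit 88) (.e (nat_lit 65610) (nat_lit 10) (.e (nat_lit 344117) (nat_lit 21) (.e (nat_lit 516106) (nat_lit 0) .nil))))) .nil))) (.nd (nat_lit 6) 
(.lf (nat_lit 105405) (.g (nat_lit 1454) (.e (nat_lit 3936) (nat_lit 239) (.e (nat_lit 2629) (nat_lit 164) (.e (nat_lit 172126) (nat_lit 14) (.e (nat_lit 491537) (nat_lit 2) .nil)))) .nil)) 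
(.lf (nat_lit 105469) (.g (nat_lit 4140) (.e (nat_lit 3963) (nat_lit 239) (.e (nat_lit 1221) (nat_lit 90) (.e (nat_lit 81956) (nat_lit 23) (.e (nat_lit 98389) (nat_lit 33) (.e (nat_lit 491556) (nat_lit 9) .nil))))) .nil))))))) (.nd (nat_lit 2) (.nd (nat_lit 3) (.nd (nat_lit 4) (.nd (nat_lit 5) (.nd (nat_lit 6) 
(.lf (nat_lit 105347) (.g (nat_lit 3046) (.e (nat_lit 3920) (nat_lit 239) (.e (nat_lit 1217) (nat_lit 90) (.e (nat_lit 81956) (nat_lit 23) (.e (nat_lit 98388) (nat_lit 33) (.e (nat_lit 491560) (nat_lit 10) .nil))))) .nil)) 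
(.lf (nat_lit 105411) (.g (nat_lit 2872) (.e (nat_lit 3945) (nat_lit 239) (.e (nat_lit 1218) (nat_lit 90) (.e (nat_lit 81956) (nat_lit 23) (.e (nat_lit 98320) (nat_lit 17) (.e (nat_lit 7591) (nat_lit 407) .nil))))) .nil))) (.nd (nat_lit 6) 
(.lf (nat_lit 105379) (.g (nat_lit 3888) (.e (nat_lit 3927) (nat_lit 239) (.e (nat_lit 1220) (nat_lit 90) (.e (nat_lit 81956) (nat_lit 23) (.e (nat_lit 98389) (nat_lit 33) (.e (nat_lit 491560) (nat_lit 10) .nil))))) .nil)) 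
(.lf (nat_lit 105443) (.g (nat_lit 4463) (.e (nat_lit 3962) (nat_lit 239) (.e (nat_lit 1209) (nat_lit 89) (.e (nat_lit 73782) (nat_lit 32) (.e (nat_lit 2682) (nat_lit 168) (.e (nat_lit 204869) (nat_lit 29) (.e (nat_lit 360455) (nat_lit 0) .nil)))))) (.g (nat_lit 6) .nil .nil))))) (.nd (nat_lit 5) (.nd (nat_lit 6) 
(.lf (nat_lit 105363) (.g (nat_lit 2480) (.e (nat_lit 3922) (nat_lit 239) (.e (nat_lit 1201) (nat_lit 88) (.e (nat_lit 65610) (nat_lit 10) (.e (nat_lit 344129) (nat_lit 26) (.e (nat_lit 557087) (nat_lit 11) .nil))))) .nil)) 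
(.lf (nat_lit 105427) (.g (nat_lit 2870) (.e (nat_lit 3959) (nat_lit 239) (.e (nat_lit 1218) (nat_lit 90) (.e (nat_lit 81956) (nat_lit 23) (.e (nat_lit 98320) (nat_lit 17) (.e (nat_lit 7591) (nat_lit 407) .nil))))) .nil))) (.nd (nat_lit 6) 
(.lf (nat_lit 105395) (.g (nat_lit 1358) (.e (nat_lit 3928) (nat_lit 239) (.e (nat_lit 1216) (nat_lit 90) (.e (nat_lit 81956) (nat_lit 23) (.e (nat_lit 98325) (nat_lit 17) .nil)))) .nil)) 
(.lf (nat_lit 105459) (.g (nat_lit 3490) (.e (nat_lit 3962) (nat_lit 239) (.e (nat_lit 1221) (nat_lit 90) (.e (nat_lit 81956) (nat_lit 23) (.e (nat_lit 98389) (nat_lit 33) (.e (nat_lit 491560) (nat_lit 10) .nil))))) .nil))))) (.nd (nat_lit 4) (.nd (nat_lit 5) (.nd (nat_lit 6) 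
(.lf (nat_lit 105355) (.g (nat_lit 3425) (.e (nat_lit 3920) (nat_lit 239) (.e (nat_lit 1221) (nat_lit 90) (.e (nat_lit 81956) (nat_lit 23) (.e (nat_lit 98320) (nat_lit 17) .nil)))) .nil)) 
(.lf (nat_lit 105419) (.g (nat_lit 776) (.e (nat_lit 3950) (nat_lit 239) (.e (nat_lit 1218) (nat_lit 90) (.e (nat_lit 81954) (nat_lit 23) (.e (nat_lit 98325) (nat_lit 17) .nil)))) .nil))) (.nd (nat_lit 6) 
(.lf (nat_lit 105387) (.g (nat_lit 1002) (.e (nat_lit 3928) (nat_lit 239) (.e (nat_lit 1216) (nat_lit 90) (.e (nat_lit 81951) (nat_lit 22) (.e (nat_lit 90165) (nat_lit 12) .nil)))) .nil)) 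
(.lf (nat_lit 105451) (.g (nat_lit 2401) (.e (nat_lit 3962) (nat_lit 239) (.e (nat_lit 1221) (nat_lit 90) (.e (nat_lit 81956) (nat_lit 23) (.e (nat_lit 98319) (nat_lit 17) .nil)))) .nil)))) (.nd (nat_lit 5) (.nd (nat_lit 6) 
(.lf (nat_lit 105371) (.g (nat_lit 3356) (.e (nat_lit 3926) (nat_lit 239) (.e (nat_lit 1220) (nat_lit 90) (.e (nat_lit 81956) (nat_lit 23) (.e (nat_lit 98389) (nat_lit 33) .nil)))) .nil)) 
(.lf (nat_lit 105435) (.g (nat_lit 2348) (.e (nat_lit 3962) (nat_lit 239) (.e (nat_lit 1190) (nat_lit 88) (.e (nat_lit 65619) (nat_lit 10) (.e (nat_lit 344117) (nat_lit 21) (.e (nat_lit 516106) (nat_lit 0) (.e (nat_lit 7936) (nat_lit 407) (.e (nat_lit 73736) (nat_lit 0) .nil))))))) (.g (nat_lit 5) .nil .nil)))) (.nd (nat_lit 6) 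
(.lf (nat_lit 105403) (.g (nat_lit 1932) (.e (nat_lit 3929) (nat_lit 239) (.e (nat_lit 1215) (nat_lit 90) (.e (nat_lit 81956) (nat_lit 23) (.e (nat_lit 98389) (nat_lit 33) .nil)))) .nil)) 
(.lf (nat_lit 105467) (.g (nat_lit 2411) (.e (nat_lit 3963) (nat_lit 239) (.e (nat_lit 1221) (nat_lit 90) (.e (nat_lit 81956) (nat_lit 23) (.e (nat_lit 98356) (nat_lit 26) .nil)))) .nil)))))) (.nd (nat_lit 3) (.nd (nat_lit 4) (.nd (nat_lit 5) (.nd (nat_lit 6) 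
(.lf (nat_lit 105351) (.g (nat_lit 2653) (.e (nat_lit 3920) (nat_lit 239) (.e (nat_lit 1218) (nat_lit 90) (.e (nat_lit 81956) (nat_lit 23) (.e (nat_lit 98389) (nat_lit 33) (.e (nat_lit 491560) (nat_lit 10) .nil))))) .nil)) 
(.lf (nat_lit 105415) (.g (nat_lit 2566) (.e (nat_lit 3946) (nat_lit 239) (.e (nat_lit 1218) (nat_lit 90) (.e (nat_lit 81956) (nat_lit 23) (.e (nat_lit 98389) (nat_lit 33) (.e (nat_lit 491558) (nat_lit 10) .nil))))) .nil))) (.nd (nat_lit 6) 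
(.lf (nat_lit 105383) (.g (nat_lit 226) (.e (nat_lit 3928) (nat_lit 239) (.e (nat_lit 1207) (nat_lit 89) (.e (nat_lit 73791) (nat_lit 45) .nil))) .nil)) 
(.lf (nat_lit 105447) (.g (nat_lit 3540) (.e (nat_lit 3962) (nat_lit 239) (.e (nat_lit 1220) (nat_lit 90) (.e (nat_lit 81956) (nat_lit 23) (.e (nat_lit 98320) (nat_lit 17) .nil)))) .nil)))) (.nd (nat_lit 5) (.nd (nat_lit 6) 
(.lf (nat_lit 105367) (.g (nat_lit 1154) (.e (nat_lit 3925) (nat_lit 239) (.e (nat_lit 1200) (nat_lit 88) (.e (nat_lit 65619) (nat_lit 10) (.e (nat_lit 344117) (nat_lit 21) .nil)))) .nil)) 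
(.lf (nat_lit 105431) (.g (nat_lit 1641) (.e (nat_lit 3962) (nat_lit 239) (.e (nat_lit 1190) (nat_lit 88) (.e (nat_lit 65604) (nat_lit 9) (.e (nat_lit 336028) (nat_lit 3) (.e (nat_lit 98325) (nat_lit 17) .nil))))) .nil))) (.nd (nat_lit 6) 
(.lf (nat_lit 105399) (.g (nat_lit 2569) (.e (nat_lit 3928) (nat_lit 239) (.e (nat_lit 1217) (nat_lit 90) (.e (nat_lit 81956) (nat_lit 23) (.e (nat_lit 98320) (nat_lit 17) .nil)))) .nil)) 
(.lf (nat_lit 105463) (.g (nat_lit 1954) (.e (nat_lit 3963) (nat_lit 239) (.e (nat_lit 1221) (nat_lit 90) (.e (nat_lit 81953) (nat_lit 22) (.e (nat_lit 90165) (nat_lit 12) (.e (nat_lit 164236) (nat_lit 187) .nil))))) .nil))))) (.nd (nat_lit 4) (.nd (nat_lit 5) (.nd (nat_lit 6) 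
(.lf (nat_lit 105359) (.g (nat_lit 2839) (.e (nat_lit 3920) (nat_lit 239) (.e (nat_lit 1223) (nat_lit 90) (.e (nat_lit 81956) (nat_lit 23) (.e (nat_lit 98389) (nat_lit 33) (.e (nat_lit 491558) (nat_lit 10) .nil))))) .nil)) 
(.lf (nat_lit 105423) (.g (nat_lit 2578) (.e (nat_lit 3957) (nat_lit 239) (.e (nat_lit 1218) (nat_lit 90) (.e (nat_lit 81956) (nat_lit 23) (.e (nat_lit 98389) (nat_lit 33) (.e (nat_lit 491560) (nat_lit 10) .nil))))) .nil))) (.nd (nat_lit 6) 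
(.lf (nat_lit 105391) (.g (nat_lit 1440) (.e (nat_lit 3928) (nat_lit 239) (.e (nat_lit 1216) (nat_lit 90) (.e (nat_lit 81954) (nat_lit 23) (.e (nat_lit 98389) (nat_lit 33) (.e (nat_lit 491558) (nat_lit 10) .nil))))) .nil)) 
(.lf (nat_lit 105455) (.g (nat_lit 3798) (.e (nat_lit 3962) (nat_lit 239) (.e (nat_lit 1221) (nat_lit 90) (.e (nat_lit 81956) (nat_lit 23) (.e (nat_lit 98320) (nat_lit 17) (.e (nat_lit 7593) (nat_lit 407) .nil))))) .nil)))) (.nd (nat_lit 5) (.nd (nat_lit 6) 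
(.lf (nat_lit 105375) (.g (nat_lit 2536) (.e (nat_lit 3927) (nat_lit 239) (.e (nat_lit 1218) (nat_lit 90) (.e (nat_lit 81956) (nat_lit 23) (.e (nat_lit 98389) (nat_lit 33) (.e (nat_lit 491560) (nat_lit 10) .nil))))) .nil)) 
(.lf (nat_lit 105439) (.g (nat_lit 1852) (.e (nat_lit 3962) (nat_lit 239) (.e (nat_lit 1200) (nat_lit 88) (.e (nat_lit 65604) (nat_lit 9) (.e (nat_lit 336028) (nat_lit 3) (.e (nat_lit 98325) (nat_lit 17) .nil))))) .nil))) (.nd (nat_lit 6) 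
(.lf (nat_lit 105407) (.g (nat_lit 2120) (.e (nat_lit 3942) (nat_lit 239) (.e (nat_lit 1218) (nat_lit 90) (.e (nat_lit 81956) (nat_lit 23) (.e (nat_lit 98320) (nat_lit 17) .nil)))) .nil)) 
(.lf (nat_lit 105471) (.g (nat_lit 3464) (.e (nat_lit 3964) (nat_lit 239) (.e (nat_lit 1221) (nat_lit 90) (.e (nat_lit 81956) (nat_lit 23) (.e (nat_lit 98320) (nat_lit 17) .nil)))) .nil)))))))))

noncomputable def tv1441 : DT := (.nd (nat_lit 0) (.nd (nat_lit 1) (.nd (nat_lit 2) (.nd (nat_lit 3) (.nd (nat_lit 4) (.nd (nat_lit 5) (.nd (nat_lit 6) 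
(.lf (nat_lit 105472) (.g (nat_lit 3302) (.e (nat_lit 3964) (nat_lit 239) (.e (nat_lit 1221) (nat_lit 90) (.e (nat_lit 81956) (nat_lit 23) (.e (nat_lit 98389) (nat_lit 33) .nil)))) .nil)) 
(.lf (nat_lit 105536) (.g (nat_lit 2029) (.e (nat_lit 3978) (nat_lit 239) (.e (nat_lit 2629) (nat_lit 164) (.e (nat_lit 172126) (nat_lit 14) (.e (nat_lit 491540) (nat_lit 3) (.e (nat_lit 98372) (nat_lit 29) .nil))))) .nil))) (.nd (nat_lit 6) 
(.lf (nat_lit 105504) (.g (nat_lit 3405) (.e (nat_lit 3972) (nat_lit 239) (.e (nat_lit 1221) (nat_lit 90) (.e (nat_lit 81956) (nat_lit 23) (.e (nat_lit 98320) (nat_lit 17) .nil)))) .nil)) 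
(.lf (nat_lit 105568) (.g (nat_lit 3066) (.e (nat_lit 7936) (nat_lit 239) (.e (nat_lit 1220) (nat_lit 90) (.e (nat_lit 81956) (nat_lit 23) (.e (nat_lit 98389) (nat_lit 33) (.e (nat_lit 491560) (nat_lit 10) .nil))))) .nil)))) (.nd (nat_lit 5) (.nd (nat_lit 6) 
(.lf (nat_lit 105488) (.g (nat_lit 2372) (.e (nat_lit 3971) (nat_lit 239) (.e (nat_lit 1220) (nat_lit 90) (.e (nat_lit 81956) (nat_lit 23) (.e (nat_lit 98319) (nat_lit 17) .nil)))) .nil)) 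
(.lf (nat_lit 105552) (.g (nat_lit 1971) (.e (nat_lit 3985) (nat_lit 239) (.e (nat_lit 1196) (nat_lit 88) (.e (nat_lit 65624) (nat_lit 12) (.e (nat_lit 385074) (nat_lit 31) (.e (nat_lit 573484) (nat_lit 13) .nil))))) .nil))) (.nd (nat_lit 6) 
(.lf (nat_lit 105520) (.g (nat_lit 3153) (.e (nat_lit 3975) (nat_lit 239) (.e (nat_lit 1220) (nat_lit 90) (.e (nat_lit 81956) (nat_lit 23) (.e (nat_lit 98388) (nat_lit 33) .nil)))) .nil)) 
(.lf (nat_lit 105584) (.g (nat_lit 2097) (.e (nat_lit 4003) (nat_lit 241) (.e (nat_lit 57427) (nat_lit 15) (.e (nat_lit 360475) (nat_lit 8) (.e (nat_lit 557068) (nat_lit 9) .nil)))) .nil))))) (.nd (nat_lit 4) (.nd (nat_lit 5) (.nd (nat_lit 6) 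
(.lf (nat_lit 105480) (.g (nat_lit 1822) (.e (nat_lit 3971) (nat_lit 239) (.e (nat_lit 1200) (nat_lit 88) (.e (nat_lit 65619) (nat_lit 10) (.e (nat_lit 344117) (nat_lit 21) (.e (nat_lit 516097) (nat_lit 0) .nil))))) .nil)) 
(.lf (nat_lit 105544) (.g (nat_lit 2868) (.e (nat_lit 3982) (nat_lit 239) (.e (nat_lit 1218) (nat_lit 90) (.e (nat_lit 81956) (nat_lit 23) (.e (nat_lit 98320) (nat_lit 17) (.e (nat_lit 7591) (nat_lit 407) .nil))))) .nil))) (.nd (nat_lit 6) 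
(.lf (nat_lit 105512) (.g (nat_lit 4237) (.e (nat_lit 3975) (nat_lit 239) (.e (nat_lit 1209) (nat_lit 89) (.e (nat_lit 73781) (nat_lit 32) (.e (nat_lit 2682) (nat_lit 168) (.e (nat_lit 204869) (nat_lit 29) (.e (nat_lit 360448) (nat_lit 0) .nil)))))) (.g (nat_lit 6) .nil .nil))) 
(.lf (nat_lit 105576) (.g (nat_lit 2186) (.e (nat_lit 3999) (nat_lit 241) (.e (nat_lit 57424) (nat_lit 14) (.e (nat_lit 352315) (nat_lit 23) (.e (nat_lit 98389) (nat_lit 33) (.e (nat_lit 491560) (nat_lit 10) .nil))))) .nil)))) (.nd (nat_lit 5) (.nd (nat_lit 6) 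
(.lf (nat_lit 105496) (.g (nat_lit 1742) (.e (nat_lit 3972) (nat_lit 239) (.e (nat_lit 1190) (nat_lit 88) (.e (nat_lit 65619) (nat_lit 10) (.e (nat_lit 344117) (nat_lit 21) (.e (nat_lit 516097) (nat_lit 0) .nil))))) .nil)) 
(.lf (nat_lit 105560) (.g (nat_lit 2045) (.e (nat_lit 7936) (nat_lit 239) (.e (nat_lit 1216) (nat_lit 90) (.e (nat_lit 81956) (nat_lit 23) (.e (nat_lit 98389) (nat_lit 33) .nil)))) .nil))) (.nd (nat_lit 6) 
(.lf (nat_lit 105528) (.g (nat_lit 2126) (.e (nat_lit 3975) (nat_lit 239) (.e (nat_lit 1221) (nat_lit 90) (.e (nat_lit 81956) (nat_lit 23) (.e (nat_lit 98325) (nat_lit 17) .nil)))) .nil)) 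
(.lf (nat_lit 105592) (.g (nat_lit 1917) (.e (nat_lit 4004) (nat_lit 242) (.e (nat_lit 122916) (nat_lit 14) (.e (nat_lit 352312) (nat_lit 22) (.e (nat_lit 90133) (nat_lit 9) (.e (nat_lit 2400) (nat_lit 157) .nil))))) .nil)))))) (.nd (nat_lit 3) (.nd (nat_lit 4) (.nd (nat_lit 5) (.nd (nat_lit 6) 
(.lf (nat_lit 105476) (.g (nat_lit 1939) (.e (nat_lit 3966) (nat_lit 239) (.e (nat_lit 2626) (nat_lit 164) (.e (nat_lit 172126) (nat_lit 14) (.e (nat_lit 491540) (nat_lit 3) (.e (nat_lit 98374) (nat_lit 29) .nil))))) .nil)) 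
(.lf (nat_lit 105540) (.g (nat_lit 1024) (.e (nat_lit 3982) (nat_lit 239) (.e (nat_lit 1196) (nat_lit 88) (.e (nat_lit 65619) (nat_lit 10) (.e (nat_lit 344117) (nat_lit 21) .nil)))) .nil))) (.nd (nat_lit 6) 
(.lf (nat_lit 105508) (.g (nat_lit 3804) (.e (nat_lit 3975) (nat_lit 239) (.e (nat_lit 1188) (nat_lit 88) (.e (nat_lit 65630) (nat_lit 14) (.e (nat_lit 401428) (nat_lit 3) (.e (nat_lit 204869) (nat_lit 29) (.e (nat_lit 360448) (nat_lit 0) .nil)))))) (.g (nat_lit 6) .nil .nil))) 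
(.lf (nat_lit 105572) (.g (nat_lit 2453) (.e (nat_lit 7936) (nat_lit 239) (.e (nat_lit 1224) (nat_lit 90) (.e (nat_lit 81956) (nat_lit 23) (.e (nat_lit 98389) (nat_lit 33) .nil)))) .nil)))) (.nd (nat_lit 5) (.nd (nat_lit 6) 
(.lf (nat_lit 105492) (.g (nat_lit 629) (.e (nat_lit 3971) (nat_lit 239) (.e (nat_lit 1221) (nat_lit 90) (.e (nat_lit 81953) (nat_lit 22) .nil))) .nil)) 
(.lf (nat_lit 105556) (.g (nat_lit 2878) (.e (nat_lit 3989) (nat_lit 239) (.e (nat_lit 1218) (nat_lit 90) (.e (nat_lit 81956) (nat_lit 23) (.e (nat_lit 98320) (nat_lit 17) (.e (nat_lit 7593) (nat_lit 407) .nil))))) .nil))) (.nd (nat_lit 6) 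
(.lf (nat_lit 105524) (.g (nat_lit 1763) (.e (nat_lit 3975) (nat_lit 239) (.e (nat_lit 1221) (nat_lit 90) (.e (nat_lit 81953) (nat_lit 22) (.e (nat_lit 90165) (nat_lit 12) (.e (nat_lit 171776) (nat_lit 192) .nil))))) .nil)) 
(.lf (nat_lit 105588) (.g (nat_lit 2906) (.e (nat_lit 7936) (nat_lit 241) (.e (nat_lit 57427) (nat_lit 15) (.e (nat_lit 360474) (nat_lit 8) (.e (nat_lit 557070) (nat_lit 9) (.e (nat_lit 7936) (nat_lit 24) .nil))))) .nil))))) (.nd (nat_lit 4) (.nd (nat_lit 5) (.nd (nat_lit 6) 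
(.lf (nat_lit 105484) (.g (nat_lit 1825) (.e (nat_lit 3971) (nat_lit 239) (.e (nat_lit 1218) (nat_lit 90) (.e (nat_lit 81956) (nat_lit 23) (.e (nat_lit 98389) (nat_lit 33) .nil)))) .nil)) 
(.lf (nat_lit 105548) (.g (nat_lit 2878) (.e (nat_lit 3983) (nat_lit 239) (.e (nat_lit 1218) (nat_lit 90) (.e (nat_lit 81956) (nat_lit 23) (.e (nat_lit 98320) (nat_lit 17) (.e (nat_lit 7593) (nat_lit 407) .nil))))) .nil))) (.nd (nat_lit 6) 
(.lf (nat_lit 105516) (.g (nat_lit 1437) (.e (nat_lit 3975) (nat_lit 239) (.e (nat_lit 1220) (nat_lit 90) (.e (nat_lit 81953) (nat_lit 22) (.e (nat_lit 90165) (nat_lit 12) .nil)))) .nil)) 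
(.lf (nat_lit 105580) (.g (nat_lit 546) (.e (nat_lit 4002) (nat_lit 241) (.e (nat_lit 57412) (nat_lit 12) (.e (nat_lit 336226) (nat_lit 14) .nil))) .nil)))) (.nd (nat_lit 5) (.nd (nat_lit 6) 
(.lf (nat_lit 105500) (.g (nat_lit 3130) (.e (nat_lit 3972) (nat_lit 239) (.e (nat_lit 1219) (nat_lit 90) (.e (nat_lit 81956) (nat_lit 23) (.e (nat_lit 98389) (nat_lit 33) (.e (nat_lit 491560) (nat_lit 10) .nil))))) .nil)) 
(.lf (nat_lit 105564) (.g (nat_lit 2653) (.e (nat_lit 7936) (nat_lit 239) (.e (nat_lit 1218) (nat_lit 90) (.e (nat_lit 81956) (nat_lit 23) (.e (nat_lit 98389) (nat_lit 33) (.e (nat_lit 491560) (nat_lit 10) .nil))))) .nil))) (.nd (nat_lit 6) 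
(.lf (nat_lit 105532) (.g (nat_lit 5200) (.e (nat_lit 3975) (nat_lit 239) (.e (nat_lit 1221) (nat_lit 90) (.e (nat_lit 81956) (nat_lit 23) (.e (nat_lit 98389) (nat_lit 33) (.e (nat_lit 491560) (nat_lit 10) (.e (nat_lit 344089) (nat_lit 18) .nil)))))) (.g (nat_lit 6) .nil .nil))) 
(.lf (nat_lit 105596) (.g (nat_lit 1956) (.e (nat_lit 4004) (nat_lit 242) (.e (nat_lit 122916) (nat_lit 14) (.e (nat_lit 352315) (nat_lit 23) (.e (nat_lit 98319) (nat_lit 17) (.e (nat_lit 7593) (nat_lit 407) (.e (nat_lit 73729) (nat_lit 0) .nil)))))) (.g (nat_lit 4) .nil .nil)))))))) (.nd (nat_lit 2) (.nd (nat_lit 3) (.nd (nat_lit 4) (.nd (nat_lit 5) (.nd (nat_lit 6) 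
(.lf (nat_lit 105474) (.g (nat_lit 3464) (.e (nat_lit 3965) (nat_lit 239) (.e (nat_lit 1221) (nat_lit 90) (.e (nat_lit 81956) (nat_lit 23) (.e (nat_lit 98320) (nat_lit 17) .nil)))) .nil)) 
(.lf (nat_lit 105538) (.g (nat_lit 1196) (.e (nat_lit 3978) (nat_lit 239) (.e (nat_lit 2638) (nat_lit 165) (.e (nat_lit 180278) (nat_lit 32) (.e (nat_lit 1252) (nat_lit 92) .nil)))) .nil))) (.nd (nat_lit 6) 
(.lf (nat_lit 105506) (.g (nat_lit 3739) (.e (nat_lit 3972) (nat_lit 239) (.e (nat_lit 1221) (nat_lit 90) (.e (nat_lit 81956) (nat_lit 23) (.e (nat_lit 98389) (nat_lit 33) (.e (nat_lit 491558) (nat_lit 10) .nil))))) .nil)) 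
(.lf (nat_lit 105570) (.g (nat_lit 3193) (.e (nat_lit 7936) (nat_lit 239) (.e (nat_lit 1221) (nat_lit 90) (.e (nat_lit 81956) (nat_lit 23) (.e (nat_lit 98389) (nat_lit 33) .nil)))) .nil)))) (.nd (nat_lit 5) (.nd (nat_lit 6) 
(.lf (nat_lit 105490) (.g (nat_lit 3025) (.e (nat_lit 3971) (nat_lit 239) (.e (nat_lit 1220) (nat_lit 90) (.e (nat_lit 81956) (nat_lit 23) (.e (nat_lit 98389) (nat_lit 33) .nil)))) .nil)) 
(.lf (nat_lit 105554) (.g (nat_lit 2553) (.e (nat_lit 3986) (nat_lit 239) (.e (nat_lit 1218) (nat_lit 90) (.e (nat_lit 81956) (nat_lit 23) (.e (nat_lit 98389) (nat_lit 33) (.e (nat_lit 491558) (nat_lit 10) .nil))))) .nil))) (.nd (nat_lit 6) 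
(.lf (nat_lit 105522) (.g (nat_lit 4933) (.e (nat_lit 3975) (nat_lit 239) (.e (nat_lit 1220) (nat_lit 90) (.e (nat_lit 81956) (nat_lit 23) (.e (nat_lit 98389) (nat_lit 33) (.e (nat_lit 491560) (nat_lit 10) (.e (nat_lit 344088) (nat_lit 18) .nil)))))) (.g (nat_lit 6) .nil .nil))) 
(.lf (nat_lit 105586) (.g (nat_lit 729) (.e (nat_lit 7936) (nat_lit 241) (.e (nat_lit 57427) (nat_lit 15) (.e (nat_lit 360471) (nat_lit 7) .nil))) .nil))))) (.nd (nat_lit 4) (.nd (nat_lit 5) (.nd (nat_lit 6) 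
(.lf (nat_lit 105482) (.g (nat_lit 2052) (.e (nat_lit 3971) (nat_lit 239) (.e (nat_lit 1200) (nat_lit 88) (.e (nat_lit 65619) (nat_lit 10) (.e (nat_lit 344117) (nat_lit 21) (.e (nat_lit 516106) (nat_lit 0) .nil))))) .nil)) 
(.lf (nat_lit 105546) (.g (nat_lit 2628) (.e (nat_lit 3982) (nat_lit 239) (.e (nat_lit 1218) (nat_lit 90) (.e (nat_lit 81956) (nat_lit 23) (.e (nat_lit 98389) (nat_lit 33) (.e (nat_lit 491560) (nat_lit 10) .nil))))) .nil))) (.nd (nat_lit 6) 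
(.lf (nat_lit 105514) (.g (nat_lit 2724) (.e (nat_lit 3975) (nat_lit 239) (.e (nat_lit 1219) (nat_lit 90) (.e (nat_lit 81956) (nat_lit 23) (.e (nat_lit 98320) (nat_lit 17) .nil)))) .nil)) 
(.lf (nat_lit 105578) (.g (nat_lit 1122) (.e (nat_lit 4001) (nat_lit 241) (.e (nat_lit 57426) (nat_lit 15) (.e (nat_lit 360466) (nat_lit 3) (.e (nat_lit 516185) (nat_lit 16) .nil)))) .nil)))) (.nd (nat_lit 5) (.nd (nat_lit 6) 
(.lf (nat_lit 105498) (.g (nat_lit 1755) (.e (nat_lit 3972) (nat_lit 239) (.e (nat_lit 1200) (nat_lit 88) (.e (nat_lit 65619) (nat_lit 10) (.e (nat_lit 344117) (nat_lit 21) (.e (nat_lit 516185) (nat_lit 16) .nil))))) .nil)) 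
(.lf (nat_lit 105562) (.g (nat_lit 2077) (.e (nat_lit 7936) (nat_lit 239) (.e (nat_lit 1217) (nat_lit 90) (.e (nat_lit 81956) (nat_lit 23) (.e (nat_lit 98389) (nat_lit 33) .nil)))) .nil))) (.nd (nat_lit 6) 
(.lf (nat_lit 105530) (.g (nat_lit 2889) (.e (nat_lit 3975) (nat_lit 239) (.e (nat_lit 1221) (nat_lit 90) (.e (nat_lit 81956) (nat_lit 23) (.e (nat_lit 98389) (nat_lit 33) .nil)))) .nil)) 
(.lf (nat_lit 105594) (.g (nat_lit 549) (.e (nat_lit 4004) (nat_lit 242) (.e (nat_lit 122916) (nat_lit 14) (.e (nat_lit 352315) (nat_lit 23) .nil))) .nil)))))) (.nd (nat_lit 3) (.nd (nat_lit 4) (.nd (nat_lit 5) (.nd (nat_lit 6) 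
(.lf (nat_lit 105478) (.g (nat_lit 2587) (.e (nat_lit 3971) (nat_lit 239) (.e (nat_lit 1199) (nat_lit 88) (.e (nat_lit 65610) (nat_lit 10) (.e (nat_lit 344117) (nat_lit 21) (.e (nat_lit 516185) (nat_lit 16) .nil))))) .nil)) 
(.lf (nat_lit 105542) (.g (nat_lit 1352) (.e (nat_lit 3982) (nat_lit 239) (.e (nat_lit 1196) (nat_lit 88) (.e (nat_lit 65630) (nat_lit 14) (.e (nat_lit 401427) (nat_lit 3) .nil)))) .nil))) (.nd (nat_lit 6) 
(.lf (nat_lit 105510) (.g (nat_lit 4263) (.e (nat_lit 3975) (nat_lit 239) (.e (nat_lit 1190) (nat_lit 88) (.e (nat_lit 65630) (nat_lit 14) (.e (nat_lit 401428) (nat_lit 3) (.e (nat_lit 204869) (nat_lit 29) (.e (nat_lit 360448) (nat_lit 0) .nil)))))) (.g (nat_lit 6) .nil .nil))) 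
(.lf (nat_lit 105574) (.g (nat_lit 1717) (.e (nat_lit 3998) (nat_lit 241) (.e (nat_lit 57368) (nat_lit 1) (.e (nat_lit 57854) (nat_lit 252) (.e (nat_lit 57420) (nat_lit 13) (.e (nat_lit 344117) (nat_lit 21) .nil))))) .nil)))) (.nd (nat_lit 5) (.nd (nat_lit 6) 
(.lf (nat_lit 105494) (.g (nat_lit 3872) (.e (nat_lit 3971) (nat_lit 239) (.e (nat_lit 1221) (nat_lit 90) (.e (nat_lit 81956) (nat_lit 23) (.e (nat_lit 98389) (nat_lit 33) (.e (nat_lit 491558) (nat_lit 10) .nil))))) .nil)) 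
(.lf (nat_lit 105558) (.g (nat_lit 2391) (.e (nat_lit 7936) (nat_lit 239) (.e (nat_lit 1216) (nat_lit 90) (.e (nat_lit 81956) (nat_lit 23) (.e (nat_lit 98320) (nat_lit 17) .nil)))) .nil))) (.nd (nat_lit 6) 
(.lf (nat_lit 105526) (.g (nat_lit 3900) (.e (nat_lit 3975) (nat_lit 239) (.e (nat_lit 1221) (nat_lit 90) (.e (nat_lit 81956) (nat_lit 23) (.e (nat_lit 98320) (nat_lit 17) (.e (nat_lit 7591) (nat_lit 407) .nil))))) .nil)) 
(.lf (nat_lit 105590) (.g (nat_lit 1331) (.e (nat_lit 4004) (nat_lit 242) (.e (nat_lit 122914) (nat_lit 14) (.e (nat_lit 352315) (nat_lit 23) (.e (nat_lit 98389) (nat_lit 33) .nil)))) .nil))))) (.nd (nat_lit 4) (.nd (nat_lit 5) (.nd (nat_lit 6) 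
(.lf (nat_lit 105486) (.g (nat_lit 3180) (.e (nat_lit 3971) (nat_lit 239) (.e (nat_lit 1219) (nat_lit 90) (.e (nat_lit 81956) (nat_lit 23) (.e (nat_lit 98389) (nat_lit 33) (.e (nat_lit 491560) (nat_lit 10) .nil))))) .nil)) 
(.lf (nat_lit 105550) (.g (nat_lit 1972) (.e (nat_lit 3984) (nat_lit 239) (.e (nat_lit 1196) (nat_lit 88) (.e (nat_lit 65624) (nat_lit 12) (.e (nat_lit 385074) (nat_lit 31) (.e (nat_lit 573484) (nat_lit 13) .nil))))) .nil))) (.nd (nat_lit 6) 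
(.lf (nat_lit 105518) (.g (nat_lit 3916) (.e (nat_lit 3975) (nat_lit 239) (.e (nat_lit 1220) (nat_lit 90) (.e (nat_lit 81956) (nat_lit 23) (.e (nat_lit 98320) (nat_lit 17) (.e (nat_lit 7593) (nat_lit 407) .nil))))) .nil)) 
(.lf (nat_lit 105582) (.g (nat_lit 3014) (.e (nat_lit 4003) (nat_lit 241) (.e (nat_lit 57427) (nat_lit 15) (.e (nat_lit 360474) (nat_lit 8) (.e (nat_lit 557070) (nat_lit 9) (.e (nat_lit 7936) (nat_lit 24) .nil))))) .nil)))) (.nd (nat_lit 5) (.nd (nat_lit 6) 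
(.lf (nat_lit 105502) (.g (nat_lit 3099) (.e (nat_lit 3972) (nat_lit 239) (.e (nat_lit 1220) (nat_lit 90) (.e (nat_lit 81956) (nat_lit 23) (.e (nat_lit 98389) (nat_lit 33) .nil)))) .nil)) 
(.lf (nat_lit 105566) (.g (nat_lit 3574) (.e (nat_lit 7936) (nat_lit 239) (.e (nat_lit 1220) (nat_lit 90) (.e (nat_lit 81956) (nat_lit 23) (.e (nat_lit 98320) (nat_lit 17) (.e (nat_lit 7593) (nat_lit 407) .nil))))) .nil))) (.nd (nat_lit 6) 
(.lf (nat_lit 105534) (.g (nat_lit 2129) (.e (nat_lit 3978) (nat_lit 239) (.e (nat_lit 2619) (nat_lit 164) (.e (nat_lit 172126) (nat_lit 14) (.e (nat_lit 491540) (nat_lit 3) (.e (nat_lit 98372) (nat_lit 29) .nil))))) .nil)) 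
(.lf (nat_lit 105598) (.g (nat_lit 1996) (.e (nat_lit 4004) (nat_lit 242) (.e (nat_lit 122916) (nat_lit 14) (.e (nat_lit 352315) (nat_lit 23) (.e (nat_lit 98320) (nat_lit 17) (.e (nat_lit 7593) (nat_lit 407) .nil))))) .nil)))))))) (.nd (nat_lit 1) (.nd (nat_lit 2) (.nd (nat_lit 3) (.nd (nat_lit 4) (.nd (nat_lit 5) (.nd (nat_lit 6) 
(.lf (nat_lit 105473) (.g (nat_lit 3356) (.e (nat_lit 3965) (nat_lit 239) (.e (nat_lit 1220) (nat_lit 90) (.e (nat_lit 81956) (nat_lit 23) (.e (nat_lit 98389) (nat_lit 33) .nil)))) .nil)) 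
(.lf (nat_lit 105537) (.g (nat_lit 1482) (.e (nat_lit 3978) (nat_lit 239) (.e (nat_lit 2638) (nat_lit 165) (.e (nat_lit 180277) (nat_lit 32) (.e (nat_lit 1252) (nat_lit 92) (.e (nat_lit 98373) (nat_lit 29) .nil))))) .nil))) (.nd (nat_lit 6) 
(.lf (nat_lit 105505) (.g (nat_lit 4059) (.e (nat_lit 3972) (nat_lit 239) (.e (nat_lit 1221) (nat_lit 90) (.e (nat_lit 81956) (nat_lit 23) (.e (nat_lit 98320) (nat_lit 17) (.e (nat_lit 7593) (nat_lit 407) .nil))))) .nil)) 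
(.lf (nat_lit 105569) (.g (nat_lit 3355) (.e (nat_lit 7936) (nat_lit 239) (.e (nat_lit 1221) (nat_lit 90) (.e (nat_lit 81956) (nat_lit 23) (.e (nat_lit 98320) (nat_lit 17) .nil)))) .nil)))) (.nd (nat_lit 5) (.nd (nat_lit 6) 
(.lf (nat_lit 105489) (.g (nat_lit 2087) (.e (nat_lit 3971) (nat_lit 239) (.e (nat_lit 1220) (nat_lit 90) (.e (nat_lit 81956) (nat_lit 23) (.e (nat_lit 98325) (nat_lit 17) .nil)))) .nil)) 
(.lf (nat_lit 105553) (.g (nat_lit 2120) (.e (nat_lit 3986) (nat_lit 239) (.e (nat_lit 1218) (nat_lit 90) (.e (nat_lit 81956) (nat_lit 23) (.e (nat_lit 98320) (nat_lit 17) .nil)))) .nil))) (.nd (nat_lit 6) 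
(.lf (nat_lit 105521) (.g (nat_lit 2713) (.e (nat_lit 3975) (nat_lit 239) (.e (nat_lit 1220) (nat_lit 90) (.e (nat_lit 81956) (nat_lit 23) (.e (nat_lit 98389) (nat_lit 33) .nil)))) .nil)) 
(.lf (nat_lit 105585) (.g (nat_lit 837) (.e (nat_lit 7936) (nat_lit 241) (.e (nat_lit 57424) (nat_lit 14) (.e (nat_lit 352315) (nat_lit 23) .nil))) .nil))))) (.nd (nat_lit 4) (.nd (nat_lit 5) (.nd (nat_lit 6) 
(.lf (nat_lit 105481) (.g (nat_lit 2036) (.e (nat_lit 3971) (nat_lit 239) (.e (nat_lit 1200) (nat_lit 88) (.e (nat_lit 65619) (nat_lit 10) (.e (nat_lit 344117) (nat_lit 21) (.e (nat_lit 516097) (nat_lit 0) (.e (nat_lit 7593) (nat_lit 407) (.e (nat_lit 73728) (nat_lit 0) .nil))))))) (.g (nat_lit 4) .nil .nil))) 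
(.lf (nat_lit 105545) (.g (nat_lit 2874) (.e (nat_lit 3982) (nat_lit 239) (.e (nat_lit 1218) (nat_lit 90) (.e (nat_lit 81956) (nat_lit 23) (.e (nat_lit 98320) (nat_lit 17) (.e (nat_lit 7593) (nat_lit 407) .nil))))) .nil))) (.nd (nat_lit 6) 
(.lf (nat_lit 105513) (.g (nat_lit 4242) (.e (nat_lit 3975) (nat_lit 239) (.e (nat_lit 1209) (nat_lit 89) (.e (nat_lit 73782) (nat_lit 32) (.e (nat_lit 2682) (nat_lit 168) (.e (nat_lit 204869) (nat_lit 29) (.e (nat_lit 360448) (nat_lit 0) .nil)))))) (.g (nat_lit 6) .nil .nil))) 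
(.lf (nat_lit 105577) (.g (nat_lit 1457) (.e (nat_lit 4001) (nat_lit 241) (.e (nat_lit 57423) (nat_lit 14) (.e (nat_lit 352315) (nat_lit 23) (.e (nat_lit 98389) (nat_lit 33) .nil)))) .nil)))) (.nd (nat_lit 5) (.nd (nat_lit 6) 
(.lf (nat_lit 105497) (.g (nat_lit 1791) (.e (nat_lit 3972) (nat_lit 239) (.e (nat_lit 1200) (nat_lit 88) (.e (nat_lit 65619) (nat_lit 10) (.e (nat_lit 344117) (nat_lit 21) (.e (nat_lit 516098) (nat_lit 0) .nil))))) .nil)) 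
(.lf (nat_lit 105561) (.g (nat_lit 2556) (.e (nat_lit 7936) (nat_lit 239) (.e (nat_lit 1217) (nat_lit 90) (.e (nat_lit 81956) (nat_lit 23) (.e (nat_lit 98320) (nat_lit 17) .nil)))) .nil))) (.nd (nat_lit 6) 
(.lf (nat_lit 105529) (.g (nat_lit 3319) (.e (nat_lit 3975) (nat_lit 239) (.e (nat_lit 1221) (nat_lit 90) (.e (nat_lit 81956) (nat_lit 23) (.e (nat_lit 98388) (nat_lit 33) .nil)))) .nil)) 
(.lf (nat_lit 105593) (.g (nat_lit 1939) (.e (nat_lit 4004) (nat_lit 242) (.e (nat_lit 122916) (nat_lit 14) (.e (nat_lit 352312) (nat_lit 22) (.e (nat_lit 90165) (nat_lit 12) (.e (nat_lit 171776) (nat_lit 192) (.e (nat_lit 73729) (nat_lit 0) .nil)))))) (.g (nat_lit 4) .nil .nil))))))) (.nd (nat_lit 3) (.nd (nat_lit 4) (.nd (nat_lit 5) (.nd (nat_lit 6) 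
(.lf (nat_lit 105477) (.g (nat_lit 1740) (.e (nat_lit 3971) (nat_lit 239) (.e (nat_lit 1190) (nat_lit 88) (.e (nat_lit 65619) (nat_lit 10) (.e (nat_lit 344117) (nat_lit 21) (.e (nat_lit 516097) (nat_lit 0) .nil))))) .nil)) 
(.lf (nat_lit 105541) (.g (nat_lit 224) (.e (nat_lit 3982) (nat_lit 239) (.e (nat_lit 1196) (nat_lit 88) (.e (nat_lit 65630) (nat_lit 14) .nil))) .nil))) (.nd (nat_lit 6) 
(.lf (nat_lit 105509) (.g (nat_lit 1645) (.e (nat_lit 3975) (nat_lit 239) (.e (nat_lit 1190) (nat_lit 88) (.e (nat_lit 65619) (nat_lit 10) (.e (nat_lit 344129) (nat_lit 26) (.e (nat_lit 557066) (nat_lit 9) .nil))))) .nil)) 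
(.lf (nat_lit 105573) (.g (nat_lit 1253) (.e (nat_lit 7936) (nat_lit 239) (.e (nat_lit 2638) (nat_lit 165) (.e (nat_lit 180277) (nat_lit 32) (.e (nat_lit 1252) (nat_lit 92) .nil)))) .nil)))) (.nd (nat_lit 5) (.nd (nat_lit 6) 
(.lf (nat_lit 105493) (.g (nat_lit 2494) (.e (nat_lit 3971) (nat_lit 239) (.e (nat_lit 1221) (nat_lit 90) (.e (nat_lit 81956) (nat_lit 23) (.e (nat_lit 98319) (nat_lit 17) .nil)))) .nil)) 
(.lf (nat_lit 105557) (.g (nat_lit 2120) (.e (nat_lit 3990) (nat_lit 239) (.e (nat_lit 1218) (nat_lit 90) (.e (nat_lit 81956) (nat_lit 23) (.e (nat_lit 98320) (nat_lit 17) .nil)))) .nil))) (.nd (nat_lit 6) 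
(.lf (nat_lit 105525) (.g (nat_lit 3018) (.e (nat_lit 3975) (nat_lit 239) (.e (nat_lit 1221) (nat_lit 90) (.e (nat_lit 81956) (nat_lit 23) (.e (nat_lit 98319) (nat_lit 17) (.e (nat_lit 7591) (nat_lit 407) .nil))))) .nil)) 
(.lf (nat_lit 105589) (.g (nat_lit 616) (.e (nat_lit 4004) (nat_lit 242) (.e (nat_lit 122914) (nat_lit 14) (.e (nat_lit 352315) (nat_lit 23) .nil))) .nil))))) (.nd (nat_lit 4) (.nd (nat_lit 5) (.nd (nat_lit 6) 
(.lf (nat_lit 105485) (.g (nat_lit 2482) (.e (nat_lit 3971) (nat_lit 239) (.e (nat_lit 1219) (nat_lit 90) (.e (nat_lit 81956) (nat_lit 23) (.e (nat_lit 98389) (nat_lit 33) .nil)))) .nil)) 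
(.lf (nat_lit 105549) (.g (nat_lit 2578) (.e (nat_lit 3983) (nat_lit 239) (.e (nat_lit 1218) (nat_lit 90) (.e (nat_lit 81956) (nat_lit 23) (.e (nat_lit 98389) (nat_lit 33) (.e (nat_lit 491560) (nat_lit 10) .nil))))) .nil))) (.nd (nat_lit 6) 
(.lf (nat_lit 105517) (.g (nat_lit 3882) (.e (nat_lit 3975) (nat_lit 239) (.e (nat_lit 1220) (nat_lit 90) (.e (nat_lit 81956) (nat_lit 23) (.e (nat_lit 98320) (nat_lit 17) (.e (nat_lit 7591) (nat_lit 407) .nil))))) .nil)) 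
(.lf (nat_lit 105581) (.g (nat_lit 2650) (.e (nat_lit 4003) (nat_lit 241) (.e (nat_lit 57389) (nat_lit 5) (.e (nat_lit 114719) (nat_lit 23) (.e (nat_lit 98365) (nat_lit 26) (.e (nat_lit 426115) (nat_lit 2) (.e (nat_lit 196656) (nat_lit 11) (.e (nat_lit 16392) (nat_lit 0) (.e (nat_lit 2397) (nat_lit 157) .nil)))))))) (.g (nat_lit 4) .nil .nil))))) (.nd (nat_lit 5) (.nd (nat_lit 6) 
(.lf (nat_lit 105501) (.g (nat_lit 3529) (.e (nat_lit 3972) (nat_lit 239) (.e (nat_lit 1220) (nat_lit 90) (.e (nat_lit 81956) (nat_lit 23) (.e (nat_lit 98320) (nat_lit 17) .nil)))) .nil)) 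
(.lf (nat_lit 105565) (.g (nat_lit 2911) (.e (nat_lit 7936) (nat_lit 239) (.e (nat_lit 1220) (nat_lit 90) (.e (nat_lit 81956) (nat_lit 23) (.e (nat_lit 98320) (nat_lit 17) .nil)))) .nil))) (.nd (nat_lit 6) 
(.lf (nat_lit 105533) (.g (nat_lit 498) (.e (nat_lit 3975) (nat_lit 239) (.e (nat_lit 1221) (nat_lit 90) (.e (nat_lit 81962) (nat_lit 25) .nil))) .nil)) 
(.lf (nat_lit 105597) (.g (nat_lit 1993) (.e (nat_lit 4004) (nat_lit 242) (.e (nat_lit 122916) (nat_lit 14) (.e (nat_lit 352315) (nat_lit 23) (.e (nat_lit 98320) (nat_lit 17) (.e (nat_lit 7591) (nat_lit 407) .nil))))) .nil))))))) (.nd (nat_lit 2) (.nd (nat_lit 3) (.nd (nat_lit 4) (.nd (nat_lit 5) (.nd (nat_lit 6) 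
(.lf (nat_lit 105475) (.g (nat_lit 3302) (.e (nat_lit 3965) (nat_lit 239) (.e (nat_lit 1221) (nat_lit 90) (.e (nat_lit 81956) (nat_lit 23) (.e (nat_lit 98389) (nat_lit 33) .nil)))) .nil)) 
(.lf (nat_lit 105539) (.g (nat_lit 941) (.e (nat_lit 3982) (nat_lit 239) (.e (nat_lit 1196) (nat_lit 88) (.e (nat_lit 65610) (nat_lit 10) (.e (nat_lit 344117) (nat_lit 21) .nil)))) .nil))) (.nd (nat_lit 6) 
(.lf (nat_lit 105507) (.g (nat_lit 3637) (.e (nat_lit 3972) (nat_lit 239) (.e (nat_lit 1221) (nat_lit 90) (.e (nat_lit 81956) (nat_lit 23) (.e (nat_lit 98389) (nat_lit 33) (.e (nat_lit 491560) (nat_lit 10) .nil))))) .nil)) 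
(.lf (nat_lit 105571) (.g (nat_lit 3813) (.e (nat_lit 7936) (nat_lit 239) (.e (nat_lit 1221) (nat_lit 90) (.e (nat_lit 81956) (nat_lit 23) (.e (nat_lit 98389) (nat_lit 33) (.e (nat_lit 491560) (nat_lit 10) .nil))))) .nil)))) (.nd (nat_lit 5) (.nd (nat_lit 6) 
(.lf (nat_lit 105491) (.g (nat_lit 3735) (.e (nat_lit 3971) (nat_lit 239) (.e (nat_lit 1220) (nat_lit 90) (.e (nat_lit 81956) (nat_lit 23) (.e (nat_lit 98389) (nat_lit 33) (.e (nat_lit 491558) (nat_lit 10) .nil))))) .nil)) 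
(.lf (nat_lit 105555) (.g (nat_lit 2120) (.e (nat_lit 3989) (nat_lit 239) (.e (nat_lit 1218) (nat_lit 90) (.e (nat_lit 81956) (nat_lit 23) (.e (nat_lit 98320) (nat_lit 17) .nil)))) .nil))) (.nd (nat_lit 6) 
(.lf (nat_lit 105523) (.g (nat_lit 4943) (.e (nat_lit 3975) (nat_lit 239) (.e (nat_lit 1220) (nat_lit 90) (.e (nat_lit 81956) (nat_lit 23) (.e (nat_lit 98389) (nat_lit 33) (.e (nat_lit 491560) (nat_lit 10) (.e (nat_lit 344089) (nat_lit 18) .nil)))))) (.g (nat_lit 6) .nil .nil))) 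
(.lf (nat_lit 105587) (.g (nat_lit 610) (.e (nat_lit 7936) (nat_lit 241) (.e (nat_lit 57427) (nat_lit 15) (.e (nat_lit 360474) (nat_lit 8) .nil))) .nil))))) (.nd (nat_lit 4) (.nd (nat_lit 5) (.nd (nat_lit 6) 
(.lf (nat_lit 105483) (.g (nat_lit 462) (.e (nat_lit 3971) (nat_lit 239) (.e (nat_lit 1209) (nat_lit 89) (.e (nat_lit 81664) (nat_lit 35) .nil))) .nil)) 
(.lf (nat_lit 105547) (.g (nat_lit 2120) (.e (nat_lit 3983) (nat_lit 239) (.e (nat_lit 1218) (nat_lit 90) (.e (nat_lit 81956) (nat_lit 23) (.e (nat_lit 98320) (nat_lit 17) .nil)))) .nil))) (.nd (nat_lit 6) 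
(.lf (nat_lit 105515) (.g (nat_lit 2482) (.e (nat_lit 3975) (nat_lit 239) (.e (nat_lit 1219) (nat_lit 90) (.e (nat_lit 81956) (nat_lit 23) (.e (nat_lit 98389) (nat_lit 33) .nil)))) .nil)) 
(.lf (nat_lit 105579) (.g (nat_lit 2527) (.e (nat_lit 4002) (nat_lit 241) (.e (nat_lit 57389) (nat_lit 5) (.e (nat_lit 114719) (nat_lit 23) (.e (nat_lit 98365) (nat_lit 26) (.e (nat_lit 426115) (nat_lit 2) .nil))))) .nil)))) (.nd (nat_lit 5) (.nd (nat_lit 6) 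
(.lf (nat_lit 105499) (.g (nat_lit 2724) (.e (nat_lit 3972) (nat_lit 239) (.e (nat_lit 1219) (nat_lit 90) (.e (nat_lit 81956) (nat_lit 23) (.e (nat_lit 98320) (nat_lit 17) .nil)))) .nil)) 
(.lf (nat_lit 105563) (.g (nat_lit 2120) (.e (nat_lit 7936) (nat_lit 239) (.e (nat_lit 1218) (nat_lit 90) (.e (nat_lit 81956) (nat_lit 23) (.e (nat_lit 98320) (nat_lit 17) .nil)))) .nil))) (.nd (nat_lit 6) 
(.lf (nat_lit 105531) (.g (nat_lit 5190) (.e (nat_lit 3975) (nat_lit 239) (.e (nat_lit 1221) (nat_lit 90) (.e (nat_lit 81956) (nat_lit 23) (.e (nat_lit 98389) (nat_lit 33) (.e (nat_lit 491560) (nat_lit 10) (.e (nat_lit 344088) (nat_lit 18) .nil)))))) (.g (nat_lit 6) .nil .nil))) 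
(.lf (nat_lit 105595) (.g (nat_lit 1625) (.e (nat_lit 4004) (nat_lit 242) (.e (nat_lit 122916) (nat_lit 14) (.e (nat_lit 352315) (nat_lit 23) (.e (nat_lit 98319) (nat_lit 17) .nil)))) .nil)))))) (.nd (nat_lit 3) (.nd (nat_lit 4) (.nd (nat_lit 5) (.nd (nat_lit 6) 
(.lf (nat_lit 105479) (.g (nat_lit 2069) (.e (nat_lit 3971) (nat_lit 239) (.e (nat_lit 1199) (nat_lit 88) (.e (nat_lit 65630) (nat_lit 14) (.e (nat_lit 401425) (nat_lit 2) (.e (nat_lit 196666) (nat_lit 13) .nil))))) .nil)) 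
(.lf (nat_lit 105543) (.g (nat_lit 1951) (.e (nat_lit 3982) (nat_lit 239) (.e (nat_lit 1196) (nat_lit 88) (.e (nat_lit 65630) (nat_lit 14) (.e (nat_lit 401428) (nat_lit 3) (.e (nat_lit 204870) (nat_lit 29) .nil))))) .nil))) (.nd (nat_lit 6) 
(.lf (nat_lit 105511) (.g (nat_lit 1688) (.e (nat_lit 3975) (nat_lit 239) (.e (nat_lit 1200) (nat_lit 88) (.e (nat_lit 65619) (nat_lit 10) (.e (nat_lit 344129) (nat_lit 26) (.e (nat_lit 557066) (nat_lit 9) .nil))))) .nil)) 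
(.lf (nat_lit 105575) (.g (nat_lit 1134) (.e (nat_lit 3998) (nat_lit 241) (.e (nat_lit 57389) (nat_lit 5) (.e (nat_lit 114716) (nat_lit 22) (.e (nat_lit 90185) (nat_lit 17) .nil)))) .nil)))) (.nd (nat_lit 5) (.nd (nat_lit 6) 
(.lf (nat_lit 105495) (.g (nat_lit 3770) (.e (nat_lit 3971) (nat_lit 239) (.e (nat_lit 1221) (nat_lit 90) (.e (nat_lit 81956) (nat_lit 23) (.e (nat_lit 98389) (nat_lit 33) (.e (nat_lit 491560) (nat_lit 10) .nil))))) .nil)) 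
(.lf (nat_lit 105559) (.g (nat_lit 3155) (.e (nat_lit 7936) (nat_lit 239) (.e (nat_lit 1216) (nat_lit 90) (.e (nat_lit 81956) (nat_lit 23) (.e (nat_lit 98320) (nat_lit 17) (.e (nat_lit 7593) (nat_lit 407) .nil))))) .nil))) (.nd (nat_lit 6) 
(.lf (nat_lit 105527) (.g (nat_lit 4006) (.e (nat_lit 3975) (nat_lit 239) (.e (nat_lit 1221) (nat_lit 90) (.e (nat_lit 81956) (nat_lit 23) (.e (nat_lit 98320) (nat_lit 17) (.e (nat_lit 7593) (nat_lit 407) .nil))))) .nil)) 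
(.lf (nat_lit 105591) (.g (nat_lit 1937) (.e (nat_lit 4004) (nat_lit 242) (.e (nat_lit 122916) (nat_lit 14) (.e (nat_lit 352312) (nat_lit 22) (.e (nat_lit 90133) (nat_lit 9) (.e (nat_lit 2397) (nat_lit 157) .nil))))) .nil))))) (.nd (nat_lit 4) (.nd (nat_lit 5) (.nd (nat_lit 6) 
(.lf (nat_lit 105487) (.g (nat_lit 1804) (.e (nat_lit 3971) (nat_lit 239) (.e (nat_lit 1220) (nat_lit 90) (.e (nat_lit 81953) (nat_lit 22) (.e (nat_lit 90165) (nat_lit 12) .nil)))) .nil)) 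
(.lf (nat_lit 105551) (.g (nat_lit 1825) (.e (nat_lit 3984) (nat_lit 239) (.e (nat_lit 1218) (nat_lit 90) (.e (nat_lit 81956) (nat_lit 23) (.e (nat_lit 98389) (nat_lit 33) .nil)))) .nil))) (.nd (nat_lit 6) 
(.lf (nat_lit 105519) (.g (nat_lit 1937) (.e (nat_lit 3975) (nat_lit 239) (.e (nat_lit 1220) (nat_lit 90) (.e (nat_lit 81956) (nat_lit 23) (.e (nat_lit 98325) (nat_lit 17) .nil)))) .nil)) 
(.lf (nat_lit 105583) (.g (nat_lit 1418) (.e (nat_lit 4003) (nat_lit 241) (.e (nat_lit 57427) (nat_lit 15) (.e (nat_lit 360474) (nat_lit 8) (.e (nat_lit 557072) (nat_lit 9) .nil)))) .nil)))) (.nd (nat_lit 5) (.nd (nat_lit 6) 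
(.lf (nat_lit 105503) (.g (nat_lit 2490) (.e (nat_lit 3972) (nat_lit 239) (.e (nat_lit 1221) (nat_lit 90) (.e (nat_lit 81956) (nat_lit 23) (.e (nat_lit 98319) (nat_lit 17) .nil)))) .nil)) 
(.lf (nat_lit 105567) (.g (nat_lit 2496) (.e (nat_lit 7936) (nat_lit 239) (.e (nat_lit 1220) (nat_lit 90) (.e (nat_lit 81956) (nat_lit 23) (.e (nat_lit 98389) (nat_lit 33) .nil)))) .nil))) (.nd (nat_lit 6) 
(.lf (nat_lit 105535) (.g (nat_lit 1290) (.e (nat_lit 3978) (nat_lit 239) (.e (nat_lit 2628) (nat_lit 164) (.e (nat_lit 172126) (nat_lit 14) (.e (nat_lit 491540) (nat_lit 3) .nil)))) .nil)) 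
(.lf (nat_lit 105599) (.g (nat_lit 1511) (.e (nat_lit 4004) (nat_lit 242) (.e (nat_lit 122916) (nat_lit 14) (.e (nat_lit 352315) (nat_lit 23) (.e (nat_lit 98389) (nat_lit 33) .nil)))) .nil)))))))))

noncomputable def tv1442 : DT := (.nd (nat_lit 0) (.nd (nat_lit 1) (.nd (nat_lit 2) (.nd (nat_lit 3) (.nd (nat_lit 4) (.nd (nat_lit 5) (.nd (nat_lit 6) 
(.lf (nat_lit 105600) (.g (nat_lit 3053) (.e (nat_lit 4004) (nat_lit 242) (.e (nat_lit 122916) (nat_lit 14) (.e (nat_lit 352315) (nat_lit 23) (.e (nat_lit 98389) (nat_lit 33) (.e (nat_lit 491560) (nat_lit 10) (.e (nat_lit 344088) (nat_lit 18) .nil)))))) (.g (nat_lit 5) .nil .nil))) 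
(.lf (nat_lit 105664) (.g (nat_lit 425) (.e (nat_lit 4140) (nat_lit 248) (.e (nat_lit 122919) (nat_lit 15) (.e (nat_lit 360451) (nat_lit 0) .nil))) .nil))) (.nd (nat_lit 6) 
(.lf (nat_lit 105632) (.g (nat_lit 1679) (.e (nat_lit 7936) (nat_lit 242) (.e (nat_lit 122919) (nat_lit 15) (.e (nat_lit 360471) (nat_lit 7) (.e (nat_lit 548873) (nat_lit 5) (.e (nat_lit 1586) (nat_lit 111) .nil))))) .nil)) 
(.lf (nat_lit 105696) (.g (nat_lit 4113) (.e (nat_lit 4168) (nat_lit 251) (.e (nat_lit 1220) (nat_lit 90) (.e (nat_lit 81956) (nat_lit 23) (.e (nat_lit 98389) (nat_lit 33) (.e (nat_lit 491562) (nat_lit 12) .nil))))) .nil)))) (.nd (nat_lit 5) (.nd (nat_lit 6) 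
(.lf (nat_lit 105616) (.g (nat_lit 2852) (.e (nat_lit 4007) (nat_lit 242) (.e (nat_lit 122919) (nat_lit 15) (.e (nat_lit 360475) (nat_lit 8) (.e (nat_lit 557087) (nat_lit 11) (.e (nat_lit 24640) (nat_lit 10) .nil))))) .nil)) 
(.lf (nat_lit 105680) (.g (nat_lit 3236) (.e (nat_lit 4147) (nat_lit 249) (.e (nat_lit 163885) (nat_lit 5) (.e (nat_lit 221194) (nat_lit 11) (.e (nat_lit 336027) (nat_lit 3) (.e (nat_lit 98373) (nat_lit 29) .nil))))) .nil))) (.nd (nat_lit 6) 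
(.lf (nat_lit 105648) (.g (nat_lit 1399) (.e (nat_lit 4117) (nat_lit 245) (.e (nat_lit 1220) (nat_lit 90) (.e (nat_lit 81965) (nat_lit 26) (.e (nat_lit 147511) (nat_lit 14) .nil)))) .nil)) 
(.lf (nat_lit 105712) (.g (nat_lit 3686) (.e (nat_lit 4174) (nat_lit 251) (.e (nat_lit 1123) (nat_lit 83) (.e (nat_lit 16470) (nat_lit 14) (.e (nat_lit 491537) (nat_lit 2) (.e (nat_lit 90170) (nat_lit 13) .nil))))) .nil))))) (.nd (nat_lit 4) (.nd (nat_lit 5) (.nd (nat_lit 6) 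
(.lf (nat_lit 105608) (.g (nat_lit 1758) (.e (nat_lit 4005) (nat_lit 242) (.e (nat_lit 122916) (nat_lit 14) (.e (nat_lit 352315) (nat_lit 23) (.e (nat_lit 98319) (nat_lit 17) .nil)))) .nil)) 
(.lf (nat_lit 105672) (.g (nat_lit 622) (.e (nat_lit 4144) (nat_lit 248) (.e (nat_lit 122917) (nat_lit 15) (.e (nat_lit 360466) (nat_lit 3) .nil))) .nil))) (.nd (nat_lit 6) 
(.lf (nat_lit 105640) (.g (nat_lit 1385) (.e (nat_lit 7936) (nat_lit 242) (.e (nat_lit 122919) (nat_lit 15) (.e (nat_lit 360475) (nat_lit 8) (.e (nat_lit 557068) (nat_lit 9) .nil)))) .nil)) 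
(.lf (nat_lit 105704) (.g (nat_lit 1896) (.e (nat_lit 4168) (nat_lit 251) (.e (nat_lit 1221) (nat_lit 90) (.e (nat_lit 81956) (nat_lit 23) (.e (nat_lit 98350) (nat_lit 24) (.e (nat_lit 409616) (nat_lit 10) (.e (nat_lit 7936) (nat_lit 299) (.e (nat_lit 8195) (nat_lit 0) .nil))))))) (.g (nat_lit 5) .nil .nil))))) (.nd (nat_lit 5) (.nd (nat_lit 6) 
(.lf (nat_lit 105624) (.g (nat_lit 622) (.e (nat_lit 7936) (nat_lit 242) (.e (nat_lit 122917) (nat_lit 15) (.e (nat_lit 360471) (nat_lit 7) .nil))) .nil)) 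
(.lf (nat_lit 105688) (.g (nat_lit 1074) (.e (nat_lit 4168) (nat_lit 251) (.e (nat_lit 1200) (nat_lit 88) (.e (nat_lit 65604) (nat_lit 9) (.e (nat_lit 336028) (nat_lit 3) .nil)))) .nil))) (.nd (nat_lit 6) 
(.lf (nat_lit 105656) (.g (nat_lit 2065) (.e (nat_lit 4120) (nat_lit 245) (.e (nat_lit 1221) (nat_lit 90) (.e (nat_lit 81965) (nat_lit 26) (.e (nat_lit 147512) (nat_lit 14) (.e (nat_lit 2807) (nat_lit 180) .nil))))) .nil)) 
(.lf (nat_lit 105720) (.g (nat_lit 2703) (.e (nat_lit 4175) (nat_lit 251) (.e (nat_lit 1217) (nat_lit 90) (.e (nat_lit 81956) (nat_lit 23) (.e (nat_lit 98388) (nat_lit 33) (.e (nat_lit 491566) (nat_lit 12) .nil))))) .nil)))))) (.nd (nat_lit 3) (.nd (nat_lit 4) (.nd (nat_lit 5) (.nd (nat_lit 6) 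
(.lf (nat_lit 105604) (.g (nat_lit 392) (.e (nat_lit 4004) (nat_lit 242) (.e (nat_lit 122919) (nat_lit 15) (.e (nat_lit 360475) (nat_lit 8) .nil))) .nil)) 
(.lf (nat_lit 105668) (.g (nat_lit 772) (.e (nat_lit 4143) (nat_lit 248) (.e (nat_lit 122916) (nat_lit 14) (.e (nat_lit 352315) (nat_lit 23) .nil))) .nil))) (.nd (nat_lit 6) 
(.lf (nat_lit 105636) (.g (nat_lit 1196) (.e (nat_lit 7936) (nat_lit 242) (.e (nat_lit 122919) (nat_lit 15) (.e (nat_lit 360474) (nat_lit 8) (.e (nat_lit 557073) (nat_lit 9) .nil)))) .nil)) 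
(.lf (nat_lit 105700) (.g (nat_lit 2800) (.e (nat_lit 4168) (nat_lit 251) (.e (nat_lit 1221) (nat_lit 90) (.e (nat_lit 81953) (nat_lit 22) (.e (nat_lit 90187) (nat_lit 18) .nil)))) .nil)))) (.nd (nat_lit 5) (.nd (nat_lit 6) 
(.lf (nat_lit 105620) (.g (nat_lit 1497) (.e (nat_lit 7936) (nat_lit 242) (.e (nat_lit 122916) (nat_lit 14) (.e (nat_lit 352315) (nat_lit 23) (.e (nat_lit 98320) (nat_lit 17) .nil)))) .nil)) 
(.lf (nat_lit 105684) (.g (nat_lit 992) (.e (nat_lit 4159) (nat_lit 250) (.e (nat_lit 229491) (nat_lit 75) (.e (nat_lit 352315) (nat_lit 23) (.e (nat_lit 98325) (nat_lit 17) (.e (nat_lit 7936) (nat_lit 407) .nil))))) .nil))) (.nd (nat_lit 6) 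
(.lf (nat_lit 105652) (.g (nat_lit 3050) (.e (nat_lit 4120) (nat_lit 245) (.e (nat_lit 1220) (nat_lit 90) (.e (nat_lit 81956) (nat_lit 23) (.e (nat_lit 98384) (nat_lit 32) (.e (nat_lit 475214) (nat_lit 42) .nil))))) .nil)) 
(.lf (nat_lit 105716) (.g (nat_lit 2145) (.e (nat_lit 4175) (nat_lit 251) (.e (nat_lit 1216) (nat_lit 90) (.e (nat_lit 81956) (nat_lit 23) (.e (nat_lit 98389) (nat_lit 33) .nil)))) .nil))))) (.nd (nat_lit 4) (.nd (nat_lit 5) (.nd (nat_lit 6) 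
(.lf (nat_lit 105612) (.g (nat_lit 645) (.e (nat_lit 4006) (nat_lit 242) (.e (nat_lit 122919) (nat_lit 15) (.e (nat_lit 360475) (nat_lit 8) .nil))) .nil)) 
(.lf (nat_lit 105676) (.g (nat_lit 1419) (.e (nat_lit 4144) (nat_lit 248) (.e (nat_lit 122919) (nat_lit 15) (.e (nat_lit 360451) (nat_lit 0) (.e (nat_lit 7710) (nat_lit 414) .nil)))) .nil))) (.nd (nat_lit 6) 
(.lf (nat_lit 105644) (.g (nat_lit 813) (.e (nat_lit 4012) (nat_lit 243) (.e (nat_lit 163907) (nat_lit 12) (.e (nat_lit 426320) (nat_lit 12) .nil))) .nil)) 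
(.lf (nat_lit 105708) (.g (nat_lit 3755) (.e (nat_lit 4168) (nat_lit 251) (.e (nat_lit 1221) (nat_lit 90) (.e (nat_lit 81956) (nat_lit 23) (.e (nat_lit 98389) (nat_lit 33) (.e (nat_lit 491552) (nat_lit 9) .nil))))) .nil)))) (.nd (nat_lit 5) (.nd (nat_lit 6) 
(.lf (nat_lit 105628) (.g (nat_lit 2246) (.e (nat_lit 7936) (nat_lit 242) (.e (nat_lit 122917) (nat_lit 15) (.e (nat_lit 360473) (nat_lit 8) (.e (nat_lit 557066) (nat_lit 9) (.e (nat_lit 321) (nat_lit 24) .nil))))) .nil)) 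
(.lf (nat_lit 105692) (.g (nat_lit 2549) (.e (nat_lit 4168) (nat_lit 251) (.e (nat_lit 1220) (nat_lit 90) (.e (nat_lit 81956) (nat_lit 23) (.e (nat_lit 98387) (nat_lit 33) .nil)))) .nil))) (.nd (nat_lit 6) 
(.lf (nat_lit 105660) (.g (nat_lit 814) (.e (nat_lit 4139) (nat_lit 247) (.e (nat_lit 57427) (nat_lit 15) (.e (nat_lit 360493) (nat_lit 27) .nil))) .nil)) 
(.lf (nat_lit 105724) (.g (nat_lit 3034) (.e (nat_lit 4176) (nat_lit 251) (.e (nat_lit 1223) (nat_lit 90) (.e (nat_lit 81956) (nat_lit 23) (.e (nat_lit 98389) (nat_lit 33) (.e (nat_lit 491562) (nat_lit 12) .nil))))) .nil))))))) (.nd (nat_lit 2) (.nd (nat_lit 3) (.nd (nat_lit 4) (.nd (nat_lit 5) (.nd (nat_lit 6) 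
(.lf (nat_lit 105602) (.g (nat_lit 4208) (.e (nat_lit 4004) (nat_lit 242) (.e (nat_lit 122916) (nat_lit 14) (.e (nat_lit 352315) (nat_lit 23) (.e (nat_lit 98389) (nat_lit 33) (.e (nat_lit 491560) (nat_lit 10) (.e (nat_lit 344096) (nat_lit 18) .nil)))))) (.g (nat_lit 0) .nil .nil))) 
(.lf (nat_lit 105666) (.g (nat_lit 915) (.e (nat_lit 4141) (nat_lit 248) (.e (nat_lit 122919) (nat_lit 15) (.e (nat_lit 360451) (nat_lit 0) .nil))) .nil))) (.nd (nat_lit 6) 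
(.lf (nat_lit 105634) (.g (nat_lit 2669) (.e (nat_lit 7936) (nat_lit 242) (.e (nat_lit 122919) (nat_lit 15) (.e (nat_lit 360474) (nat_lit 8) (.e (nat_lit 557070) (nat_lit 9) (.e (nat_lit 7936) (nat_lit 24) .nil))))) .nil)) 
(.lf (nat_lit 105698) (.g (nat_lit 629) (.e (nat_lit 4168) (nat_lit 251) (.e (nat_lit 1221) (nat_lit 90) (.e (nat_lit 81953) (nat_lit 22) .nil))) .nil)))) (.nd (nat_lit 5) (.nd (nat_lit 6) 
(.lf (nat_lit 105618) (.g (nat_lit 1536) (.e (nat_lit 7936) (nat_lit 242) (.e (nat_lit 122916) (nat_lit 14) (.e (nat_lit 352312) (nat_lit 22) (.e (nat_lit 90165) (nat_lit 12) (.e (nat_lit 171776) (nat_lit 192) .nil))))) .nil)) 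
(.lf (nat_lit 105682) (.g (nat_lit 2327) (.e (nat_lit 4153) (nat_lit 249) (.e (nat_lit 163864) (nat_lit 1) (.e (nat_lit 164403) (nat_lit 256) (.e (nat_lit 57373) (nat_lit 2) (.e (nat_lit 90174) (nat_lit 14) .nil))))) .nil))) (.nd (nat_lit 6) 
(.lf (nat_lit 105650) (.g (nat_lit 2267) (.e (nat_lit 4117) (nat_lit 245) (.e (nat_lit 1221) (nat_lit 90) (.e (nat_lit 81965) (nat_lit 26) (.e (nat_lit 147512) (nat_lit 14) (.e (nat_lit 2807) (nat_lit 180) .nil))))) .nil)) 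
(.lf (nat_lit 105714) (.g (nat_lit 3187) (.e (nat_lit 4174) (nat_lit 251) (.e (nat_lit 1201) (nat_lit 88) (.e (nat_lit 65610) (nat_lit 10) (.e (nat_lit 344117) (nat_lit 21) (.e (nat_lit 516183) (nat_lit 16) .nil))))) .nil))))) (.nd (nat_lit 4) (.nd (nat_lit 5) (.nd (nat_lit 6) 
(.lf (nat_lit 105610) (.g (nat_lit 2081) (.e (nat_lit 4005) (nat_lit 242) (.e (nat_lit 122916) (nat_lit 14) (.e (nat_lit 352315) (nat_lit 23) (.e (nat_lit 98325) (nat_lit 17) (.e (nat_lit 7936) (nat_lit 407) (.e (nat_lit 81664) (nat_lit 0) .nil)))))) (.g (nat_lit 4) .nil .nil))) 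
(.lf (nat_lit 105674) (.g (nat_lit 774) (.e (nat_lit 4144) (nat_lit 248) (.e (nat_lit 122919) (nat_lit 15) (.e (nat_lit 360451) (nat_lit 0) .nil))) .nil))) (.nd (nat_lit 6) 
(.lf (nat_lit 105642) (.g (nat_lit 1934) (.e (nat_lit 7936) (nat_lit 242) (.e (nat_lit 122919) (nat_lit 15) (.e (nat_lit 360475) (nat_lit 8) (.e (nat_lit 557074) (nat_lit 9) (.e (nat_lit 7936) (nat_lit 24) .nil))))) .nil)) 
(.lf (nat_lit 105706) (.g (nat_lit 3382) (.e (nat_lit 4168) (nat_lit 251) (.e (nat_lit 1221) (nat_lit 90) (.e (nat_lit 81956) (nat_lit 23) (.e (nat_lit 98388) (nat_lit 33) .nil)))) .nil)))) (.nd (nat_lit 5) (.nd (nat_lit 6) 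
(.lf (nat_lit 105626) (.g (nat_lit 1162) (.e (nat_lit 7936) (nat_lit 242) (.e (nat_lit 122917) (nat_lit 15) (.e (nat_lit 360471) (nat_lit 7) (.e (nat_lit 548874) (nat_lit 5) .nil)))) .nil)) 
(.lf (nat_lit 105690) (.g (nat_lit 3555) (.e (nat_lit 4168) (nat_lit 251) (.e (nat_lit 1220) (nat_lit 90) (.e (nat_lit 81956) (nat_lit 23) (.e (nat_lit 98320) (nat_lit 17) .nil)))) .nil))) (.nd (nat_lit 6) 
(.lf (nat_lit 105658) (.g (nat_lit 317) (.e (nat_lit 7936) (nat_lit 245) (.e (nat_lit 1224) (nat_lit 90) (.e (nat_lit 89856) (nat_lit 19) .nil))) .nil)) 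
(.lf (nat_lit 105722) (.g (nat_lit 2215) (.e (nat_lit 4176) (nat_lit 251) (.e (nat_lit 1218) (nat_lit 90) (.e (nat_lit 81956) (nat_lit 23) (.e (nat_lit 98388) (nat_lit 33) .nil)))) .nil)))))) (.nd (nat_lit 3) (.nd (nat_lit 4) (.nd (nat_lit 5) (.nd (nat_lit 6) 
(.lf (nat_lit 105606) (.g (nat_lit 2810) (.e (nat_lit 4004) (nat_lit 242) (.e (nat_lit 122919) (nat_lit 15) (.e (nat_lit 360475) (nat_lit 8) (.e (nat_lit 557087) (nat_lit 11) (.e (nat_lit 24640) (nat_lit 10) .nil))))) .nil)) 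
(.lf (nat_lit 105670) (.g (nat_lit 1311) (.e (nat_lit 4143) (nat_lit 248) (.e (nat_lit 122919) (nat_lit 15) (.e (nat_lit 360451) (nat_lit 0) (.e (nat_lit 7710) (nat_lit 414) .nil)))) .nil))) (.nd (nat_lit 6) 
(.lf (nat_lit 105638) (.g (nat_lit 2374) (.e (nat_lit 7936) (nat_lit 242) (.e (nat_lit 122919) (nat_lit 15) (.e (nat_lit 360475) (nat_lit 8) (.e (nat_lit 557065) (nat_lit 9) (.e (nat_lit 7936) (nat_lit 24) .nil))))) .nil)) 
(.lf (nat_lit 105702) (.g (nat_lit 3411) (.e (nat_lit 4168) (nat_lit 251) (.e (nat_lit 1221) (nat_lit 90) (.e (nat_lit 81956) (nat_lit 23) (.e (nat_lit 98320) (nat_lit 17) .nil)))) .nil)))) (.nd (nat_lit 5) (.nd (nat_lit 6) 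
(.lf (nat_lit 105622) (.g (nat_lit 1435) (.e (nat_lit 7936) (nat_lit 242) (.e (nat_lit 122916) (nat_lit 14) (.e (nat_lit 352315) (nat_lit 23) (.e (nat_lit 98389) (nat_lit 33) .nil)))) .nil)) 
(.lf (nat_lit 105686) (.g (nat_lit 3868) (.e (nat_lit 4168) (nat_lit 251) (.e (nat_lit 1125) (nat_lit 83) (.e (nat_lit 16470) (nat_lit 14) (.e (nat_lit 491537) (nat_lit 2) (.e (nat_lit 90170) (nat_lit 13) .nil))))) .nil))) (.nd (nat_lit 6) 
(.lf (nat_lit 105654) (.g (nat_lit 2383) (.e (nat_lit 4120) (nat_lit 245) (.e (nat_lit 1221) (nat_lit 90) (.e (nat_lit 81956) (nat_lit 23) (.e (nat_lit 98356) (nat_lit 26) .nil)))) .nil)) 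
(.lf (nat_lit 105718) (.g (nat_lit 2718) (.e (nat_lit 4175) (nat_lit 251) (.e (nat_lit 1217) (nat_lit 90) (.e (nat_lit 81956) (nat_lit 23) (.e (nat_lit 98350) (nat_lit 24) .nil)))) .nil))))) (.nd (nat_lit 4) (.nd (nat_lit 5) (.nd (nat_lit 6) 
(.lf (nat_lit 105614) (.g (nat_lit 3610) (.e (nat_lit 4007) (nat_lit 242) (.e (nat_lit 122916) (nat_lit 14) (.e (nat_lit 352315) (nat_lit 23) (.e (nat_lit 98389) (nat_lit 33) (.e (nat_lit 491560) (nat_lit 10) (.e (nat_lit 344088) (nat_lit 18) .nil)))))) (.g (nat_lit 6) .nil .nil))) 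
(.lf (nat_lit 105678) (.g (nat_lit 2078) (.e (nat_lit 4145) (nat_lit 248) (.e (nat_lit 122919) (nat_lit 15) (.e (nat_lit 360451) (nat_lit 0) (.e (nat_lit 7607) (nat_lit 410) (.e (nat_lit 2630) (nat_lit 164) .nil))))) .nil))) (.nd (nat_lit 6) 
(.lf (nat_lit 105646) (.g (nat_lit 885) (.e (nat_lit 4093) (nat_lit 245) (.e (nat_lit 1196) (nat_lit 88) (.e (nat_lit 65586) (nat_lit 7) (.e (nat_lit 319500) (nat_lit 10) .nil)))) .nil)) 
(.lf (nat_lit 105710) (.g (nat_lit 2164) (.e (nat_lit 4173) (nat_lit 251) (.e (nat_lit 1215) (nat_lit 90) (.e (nat_lit 81956) (nat_lit 23) (.e (nat_lit 98388) (nat_lit 33) .nil)))) .nil)))) (.nd (nat_lit 5) (.nd (nat_lit 6) 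
(.lf (nat_lit 105630) (.g (nat_lit 622) (.e (nat_lit 7936) (nat_lit 242) (.e (nat_lit 122917) (nat_lit 15) (.e (nat_lit 360475) (nat_lit 8) .nil))) .nil)) 
(.lf (nat_lit 105694) (.g (nat_lit 4041) (.e (nat_lit 4168) (nat_lit 251) (.e (nat_lit 1220) (nat_lit 90) (.e (nat_lit 81956) (nat_lit 23) (.e (nat_lit 98388) (nat_lit 33) (.e (nat_lit 491566) (nat_lit 12) .nil))))) .nil))) (.nd (nat_lit 6) 
(.lf (nat_lit 105662) (.g (nat_lit 659) (.e (nat_lit 4140) (nat_lit 248) (.e (nat_lit 122916) (nat_lit 14) (.e (nat_lit 352279) (nat_lit 19) .nil))) .nil)) 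
(.lf (nat_lit 105726) (.g (nat_lit 3501) (.e (nat_lit 4177) (nat_lit 251) (.e (nat_lit 1124) (nat_lit 83) (.e (nat_lit 16470) (nat_lit 14) (.e (nat_lit 491540) (nat_lit 3) (.e (nat_lit 98373) (nat_lit 29) .nil))))) .nil)))))))) (.nd (nat_lit 1) (.nd (nat_lit 2) (.nd (nat_lit 3) (.nd (nat_lit 4) (.nd (nat_lit 5) (.nd (nat_lit 6) 
(.lf (nat_lit 105601) (.g (nat_lit 3443) (.e (nat_lit 4004) (nat_lit 242) (.e (nat_lit 122916) (nat_lit 14) (.e (nat_lit 352315) (nat_lit 23) (.e (nat_lit 98389) (nat_lit 33) (.e (nat_lit 491560) (nat_lit 10) (.e (nat_lit 344094) (nat_lit 18) .nil)))))) (.g (nat_lit 6) .nil .nil))) 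
(.lf (nat_lit 105665) (.g (nat_lit 983) (.e (nat_lit 4140) (nat_lit 248) (.e (nat_lit 122919) (nat_lit 15) (.e (nat_lit 360451) (nat_lit 0) (.e (nat_lit 7710) (nat_lit 414) .nil)))) .nil))) (.nd (nat_lit 6) 
(.lf (nat_lit 105633) (.g (nat_lit 1955) (.e (nat_lit 7936) (nat_lit 242) (.e (nat_lit 122919) (nat_lit 15) (.e (nat_lit 360471) (nat_lit 7) (.e (nat_lit 548874) (nat_lit 5) (.e (nat_lit 1586) (nat_lit 111) .nil))))) .nil)) 
(.lf (nat_lit 105697) (.g (nat_lit 3876) (.e (nat_lit 4168) (nat_lit 251) (.e (nat_lit 1220) (nat_lit 90) (.e (nat_lit 81956) (nat_lit 23) (.e (nat_lit 98389) (nat_lit 33) (.e (nat_lit 491563) (nat_lit 12) .nil))))) .nil)))) (.nd (nat_lit 5) (.nd (nat_lit 6) 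
(.lf (nat_lit 105617) (.g (nat_lit 613) (.e (nat_lit 7936) (nat_lit 242) (.e (nat_lit 122916) (nat_lit 14) (.e (nat_lit 352312) (nat_lit 22) .nil))) .nil)) 
(.lf (nat_lit 105681) (.g (nat_lit 2264) (.e (nat_lit 4153) (nat_lit 249) (.e (nat_lit 163863) (nat_lit 1) (.e (nat_lit 164403) (nat_lit 256) (.e (nat_lit 57373) (nat_lit 2) (.e (nat_lit 90174) (nat_lit 14) .nil))))) .nil))) (.nd (nat_lit 6) 
(.lf (nat_lit 105649) (.g (nat_lit 1583) (.e (nat_lit 4117) (nat_lit 245) (.e (nat_lit 1220) (nat_lit 90) (.e (nat_lit 81965) (nat_lit 26) (.e (nat_lit 147512) (nat_lit 14) .nil)))) .nil)) 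
(.lf (nat_lit 105713) (.g (nat_lit 2825) (.e (nat_lit 4174) (nat_lit 251) (.e (nat_lit 1129) (nat_lit 83) (.e (nat_lit 16473) (nat_lit 14) (.e (nat_lit 491535) (nat_lit 2) (.e (nat_lit 90170) (nat_lit 13) .nil))))) .nil))))) (.nd (nat_lit 4) (.nd (nat_lit 5) (.nd (nat_lit 6) 
(.lf (nat_lit 105609) (.g (nat_lit 1738) (.e (nat_lit 4005) (nat_lit 242) (.e (nat_lit 122916) (nat_lit 14) (.e (nat_lit 352315) (nat_lit 23) (.e (nat_lit 98320) (nat_lit 17) .nil)))) .nil)) 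
(.lf (nat_lit 105673) (.g (nat_lit 1897) (.e (nat_lit 4144) (nat_lit 248) (.e (nat_lit 122917) (nat_lit 15) (.e (nat_lit 360466) (nat_lit 3) (.e (nat_lit 516146) (nat_lit 9) (.e (nat_lit 426467) (nat_lit 24) .nil))))) .nil))) (.nd (nat_lit 6) 
(.lf (nat_lit 105641) (.g (nat_lit 2486) (.e (nat_lit 7936) (nat_lit 242) (.e (nat_lit 122919) (nat_lit 15) (.e (nat_lit 360475) (nat_lit 8) (.e (nat_lit 557070) (nat_lit 9) .nil)))) .nil)) 
(.lf (nat_lit 105705) (.g (nat_lit 2453) (.e (nat_lit 4168) (nat_lit 251) (.e (nat_lit 1221) (nat_lit 90) (.e (nat_lit 81956) (nat_lit 23) (.e (nat_lit 98387) (nat_lit 33) .nil)))) .nil)))) (.nd (nat_lit 5) (.nd (nat_lit 6) 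
(.lf (nat_lit 105625) (.g (nat_lit 1715) (.e (nat_lit 7936) (nat_lit 242) (.e (nat_lit 122917) (nat_lit 15) (.e (nat_lit 360471) (nat_lit 7) (.e (nat_lit 548873) (nat_lit 5) (.e (nat_lit 1595) (nat_lit 111) .nil))))) .nil)) 
(.lf (nat_lit 105689) (.g (nat_lit 3049) (.e (nat_lit 4168) (nat_lit 251) (.e (nat_lit 1220) (nat_lit 90) (.e (nat_lit 81953) (nat_lit 22) (.e (nat_lit 90187) (nat_lit 18) .nil)))) .nil))) (.nd (nat_lit 6) 
(.lf (nat_lit 105657) (.g (nat_lit 416) (.e (nat_lit 7936) (nat_lit 245) (.e (nat_lit 1222) (nat_lit 90) (.e (nat_lit 89856) (nat_lit 19) .nil))) .nil)) 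
(.lf (nat_lit 105721) (.g (nat_lit 1907) (.e (nat_lit 4175) (nat_lit 251) (.e (nat_lit 1217) (nat_lit 90) (.e (nat_lit 81956) (nat_lit 23) (.e (nat_lit 98389) (nat_lit 33) .nil)))) .nil)))))) (.nd (nat_lit 3) (.nd (nat_lit 4) (.nd (nat_lit 5) (.nd (nat_lit 6) 
(.lf (nat_lit 105605) (.g (nat_lit 1803) (.e (nat_lit 4004) (nat_lit 242) (.e (nat_lit 122919) (nat_lit 15) (.e (nat_lit 360475) (nat_lit 8) (.e (nat_lit 557086) (nat_lit 11) .nil)))) .nil)) 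
(.lf (nat_lit 105669) (.g (nat_lit 696) (.e (nat_lit 4143) (nat_lit 248) (.e (nat_lit 122919) (nat_lit 15) (.e (nat_lit 360451) (nat_lit 0) .nil))) .nil))) (.nd (nat_lit 6) 
(.lf (nat_lit 105637) (.g (nat_lit 495) (.e (nat_lit 7936) (nat_lit 242) (.e (nat_lit 122919) (nat_lit 15) (.e (nat_lit 360475) (nat_lit 8) .nil))) .nil)) 
(.lf (nat_lit 105701) (.g (nat_lit 1468) (.e (nat_lit 4168) (nat_lit 251) (.e (nat_lit 1221) (nat_lit 90) (.e (nat_lit 81953) (nat_lit 22) (.e (nat_lit 98048) (nat_lit 18) .nil)))) .nil)))) (.nd (nat_lit 5) (.nd (nat_lit 6) 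
(.lf (nat_lit 105621) (.g (nat_lit 1399) (.e (nat_lit 7936) (nat_lit 242) (.e (nat_lit 122916) (nat_lit 14) (.e (nat_lit 352315) (nat_lit 23) (.e (nat_lit 98325) (nat_lit 17) .nil)))) .nil)) 
(.lf (nat_lit 105685) (.g (nat_lit 2498) (.e (nat_lit 4168) (nat_lit 251) (.e (nat_lit 1122) (nat_lit 83) (.e (nat_lit 16473) (nat_lit 14) (.e (nat_lit 491526) (nat_lit 0) (.e (nat_lit 1788) (nat_lit 119) .nil))))) .nil))) (.nd (nat_lit 6) 
(.lf (nat_lit 105653) (.g (nat_lit 568) (.e (nat_lit 4120) (nat_lit 245) (.e (nat_lit 1220) (nat_lit 90) (.e (nat_lit 81965) (nat_lit 26) .nil))) .nil)) 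
(.lf (nat_lit 105717) (.g (nat_lit 338) (.e (nat_lit 4175) (nat_lit 251) (.e (nat_lit 1217) (nat_lit 90) (.e (nat_lit 81953) (nat_lit 22) .nil))) .nil))))) (.nd (nat_lit 4) (.nd (nat_lit 5) (.nd (nat_lit 6) 
(.lf (nat_lit 105613) (.g (nat_lit 1783) (.e (nat_lit 4006) (nat_lit 242) (.e (nat_lit 122919) (nat_lit 15) (.e (nat_lit 360475) (nat_lit 8) (.e (nat_lit 557068) (nat_lit 9) .nil)))) .nil)) 
(.lf (nat_lit 105677) (.g (nat_lit 933) (.e (nat_lit 4145) (nat_lit 248) (.e (nat_lit 122919) (nat_lit 15) (.e (nat_lit 360451) (nat_lit 0) .nil))) .nil))) (.nd (nat_lit 6) 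
(.lf (nat_lit 105645) (.g (nat_lit 682) (.e (nat_lit 4076) (nat_lit 245) (.e (nat_lit 2557) (nat_lit 159) (.e (nat_lit 24628) (nat_lit 9) (.e (nat_lit 336019) (nat_lit 3) .nil)))) .nil)) 
(.lf (nat_lit 105709) (.g (nat_lit 1743) (.e (nat_lit 4173) (nat_lit 251) (.e (nat_lit 1215) (nat_lit 90) (.e (nat_lit 81953) (nat_lit 22) (.e (nat_lit 98048) (nat_lit 18) .nil)))) .nil)))) (.nd (nat_lit 5) (.nd (nat_lit 6) 
(.lf (nat_lit 105629) (.g (nat_lit 2271) (.e (nat_lit 7936) (nat_lit 242) (.e (nat_lit 122917) (nat_lit 15) (.e (nat_lit 360473) (nat_lit 8) (.e (nat_lit 557066) (nat_lit 9) (.e (nat_lit 324) (nat_lit 24) .nil))))) .nil)) 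
(.lf (nat_lit 105693) (.g (nat_lit 3458) (.e (nat_lit 4168) (nat_lit 251) (.e (nat_lit 1220) (nat_lit 90) (.e (nat_lit 81956) (nat_lit 23) (.e (nat_lit 98388) (nat_lit 33) .nil)))) .nil))) (.nd (nat_lit 6) 
(.lf (nat_lit 105661) (.g (nat_lit 623) (.e (nat_lit 4140) (nat_lit 248) (.e (nat_lit 122914) (nat_lit 14) (.e (nat_lit 352279) (nat_lit 19) .nil))) .nil)) 
(.lf (nat_lit 105725) (.g (nat_lit 2274) (.e (nat_lit 4177) (nat_lit 251) (.e (nat_lit 1122) (nat_lit 83) (.e (nat_lit 16473) (nat_lit 14) (.e (nat_lit 491535) (nat_lit 2) (.e (nat_lit 90170) (nat_lit 13) .nil))))) .nil))))))) (.nd (nat_lit 2) (.nd (nat_lit 3) (.nd (nat_lit 4) (.nd (nat_lit 5) (.nd (nat_lit 6) 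
(.lf (nat_lit 105603) (.g (nat_lit 2837) (.e (nat_lit 4004) (nat_lit 242) (.e (nat_lit 122919) (nat_lit 15) (.e (nat_lit 360471) (nat_lit 7) (.e (nat_lit 548889) (nat_lit 9) (.e (nat_lit 65617) (nat_lit 10) .nil))))) .nil)) 
(.lf (nat_lit 105667) (.g (nat_lit 623) (.e (nat_lit 4142) (nat_lit 248) (.e (nat_lit 122914) (nat_lit 14) (.e (nat_lit 352279) (nat_lit 19) .nil))) .nil))) (.nd (nat_lit 6) 
(.lf (nat_lit 105635) (.g (nat_lit 1107) (.e (nat_lit 7936) (nat_lit 242) (.e (nat_lit 122919) (nat_lit 15) (.e (nat_lit 360474) (nat_lit 8) (.e (nat_lit 557072) (nat_lit 9) .nil)))) .nil)) 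
(.lf (nat_lit 105699) (.g (nat_lit 4859) (.e (nat_lit 4168) (nat_lit 251) (.e (nat_lit 1221) (nat_lit 90) (.e (nat_lit 81953) (nat_lit 22) (.e (nat_lit 90134) (nat_lit 9) (.e (nat_lit 3098) (nat_lit 192) (.e (nat_lit 491566) (nat_lit 12) (.e (nat_lit 385046) (nat_lit 21) .nil))))))) (.g (nat_lit 6) .nil .nil))))) (.nd (nat_lit 5) (.nd (nat_lit 6) 
(.lf (nat_lit 105619) (.g (nat_lit 1517) (.e (nat_lit 7936) (nat_lit 242) (.e (nat_lit 122916) (nat_lit 14) (.e (nat_lit 352315) (nat_lit 23) (.e (nat_lit 98319) (nat_lit 17) .nil)))) .nil)) 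
(.lf (nat_lit 105683) (.g (nat_lit 2386) (.e (nat_lit 7936) (nat_lit 249) (.e (nat_lit 163885) (nat_lit 5) (.e (nat_lit 221194) (nat_lit 11) (.e (nat_lit 336027) (nat_lit 3) .nil)))) .nil))) (.nd (nat_lit 6) 
(.lf (nat_lit 105651) (.g (nat_lit 2298) (.e (nat_lit 4120) (nat_lit 245) (.e (nat_lit 1211) (nat_lit 89) (.e (nat_lit 73755) (nat_lit 8) (.e (nat_lit 557105) (nat_lit 14) (.e (nat_lit 180252) (nat_lit 10) (.e (nat_lit 581376) (nat_lit 5) (.e (nat_lit 188160) (nat_lit 0) .nil))))))) (.g (nat_lit 5) .nil .nil))) 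
(.lf (nat_lit 105715) (.g (nat_lit 2502) (.e (nat_lit 4175) (nat_lit 251) (.e (nat_lit 1216) (nat_lit 90) (.e (nat_lit 81956) (nat_lit 23) (.e (nat_lit 98388) (nat_lit 33) .nil)))) .nil))))) (.nd (nat_lit 4) (.nd (nat_lit 5) (.nd (nat_lit 6) 
(.lf (nat_lit 105611) (.g (nat_lit 772) (.e (nat_lit 4006) (nat_lit 242) (.e (nat_lit 122916) (nat_lit 14) (.e (nat_lit 352315) (nat_lit 23) .nil))) .nil)) 
(.lf (nat_lit 105675) (.g (nat_lit 1532) (.e (nat_lit 4144) (nat_lit 248) (.e (nat_lit 122919) (nat_lit 15) (.e (nat_lit 360451) (nat_lit 0) (.e (nat_lit 7686) (nat_lit 410) .nil)))) .nil))) (.nd (nat_lit 6) 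
(.lf (nat_lit 105643) (.g (nat_lit 2945) (.e (nat_lit 7936) (nat_lit 242) (.e (nat_lit 122919) (nat_lit 15) (.e (nat_lit 360475) (nat_lit 8) (.e (nat_lit 557087) (nat_lit 11) (.e (nat_lit 24640) (nat_lit 10) .nil))))) .nil)) 
(.lf (nat_lit 105707) (.g (nat_lit 3905) (.e (nat_lit 4168) (nat_lit 251) (.e (nat_lit 1221) (nat_lit 90) (.e (nat_lit 81956) (nat_lit 23) (.e (nat_lit 98388) (nat_lit 33) (.e (nat_lit 491566) (nat_lit 12) .nil))))) .nil)))) (.nd (nat_lit 5) (.nd (nat_lit 6) 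
(.lf (nat_lit 105627) (.g (nat_lit 2300) (.e (nat_lit 7936) (nat_lit 242) (.e (nat_lit 122917) (nat_lit 15) (.e (nat_lit 360471) (nat_lit 7) (.e (nat_lit 548874) (nat_lit 5) (.e (nat_lit 1598) (nat_lit 111) .nil))))) .nil)) 
(.lf (nat_lit 105691) (.g (nat_lit 1772) (.e (nat_lit 4168) (nat_lit 251) (.e (nat_lit 1220) (nat_lit 90) (.e (nat_lit 81956) (nat_lit 23) (.e (nat_lit 98350) (nat_lit 24) (.e (nat_lit 409616) (nat_lit 10) .nil))))) .nil))) (.nd (nat_lit 6) 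
(.lf (nat_lit 105659) (.g (nat_lit 744) (.e (nat_lit 4139) (nat_lit 247) (.e (nat_lit 57423) (nat_lit 14) (.e (nat_lit 352279) (nat_lit 19) .nil))) .nil)) 
(.lf (nat_lit 105723) (.g (nat_lit 2500) (.e (nat_lit 4176) (nat_lit 251) (.e (nat_lit 1223) (nat_lit 90) (.e (nat_lit 81956) (nat_lit 23) (.e (nat_lit 98388) (nat_lit 33) .nil)))) .nil)))))) (.nd (nat_lit 3) (.nd (nat_lit 4) (.nd (nat_lit 5) (.nd (nat_lit 6) 
(.lf (nat_lit 105607) (.g (nat_lit 3079) (.e (nat_lit 4004) (nat_lit 242) (.e (nat_lit 122919) (nat_lit 15) (.e (nat_lit 360475) (nat_lit 8) (.e (nat_lit 557087) (nat_lit 11) (.e (nat_lit 24641) (nat_lit 10) .nil))))) .nil)) 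
(.lf (nat_lit 105671) (.g (nat_lit 2286) (.e (nat_lit 4144) (nat_lit 248) (.e (nat_lit 122916) (nat_lit 14) (.e (nat_lit 352315) (nat_lit 23) (.e (nat_lit 98356) (nat_lit 26) (.e (nat_lit 426467) (nat_lit 24) .nil))))) .nil))) (.nd (nat_lit 6) 
(.lf (nat_lit 105639) (.g (nat_lit 2957) (.e (nat_lit 7936) (nat_lit 242) (.e (nat_lit 122919) (nat_lit 15) (.e (nat_lit 360475) (nat_lit 8) (.e (nat_lit 557066) (nat_lit 9) (.e (nat_lit 324) (nat_lit 24) .nil))))) .nil)) 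
(.lf (nat_lit 105703) (.g (nat_lit 1235) (.e (nat_lit 4168) (nat_lit 251) (.e (nat_lit 1221) (nat_lit 90) (.e (nat_lit 81956) (nat_lit 23) (.e (nat_lit 98350) (nat_lit 24) .nil)))) .nil)))) (.nd (nat_lit 5) (.nd (nat_lit 6) 
(.lf (nat_lit 105623) (.g (nat_lit 1919) (.e (nat_lit 7936) (nat_lit 242) (.e (nat_lit 122916) (nat_lit 14) (.e (nat_lit 352315) (nat_lit 23) (.e (nat_lit 98389) (nat_lit 33) (.e (nat_lit 491560) (nat_lit 10) .nil))))) .nil)) 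
(.lf (nat_lit 105687) (.g (nat_lit 920) (.e (nat_lit 4168) (nat_lit 251) (.e (nat_lit 1126) (nat_lit 83) (.e (nat_lit 16473) (nat_lit 14) (.e (nat_lit 491538) (nat_lit 3) .nil)))) .nil))) (.nd (nat_lit 6) 
(.lf (nat_lit 105655) (.g (nat_lit 2506) (.e (nat_lit 4120) (nat_lit 245) (.e (nat_lit 1221) (nat_lit 90) (.e (nat_lit 81956) (nat_lit 23) (.e (nat_lit 98384) (nat_lit 32) .nil)))) .nil)) 
(.lf (nat_lit 105719) (.g (nat_lit 2161) (.e (nat_lit 4175) (nat_lit 251) (.e (nat_lit 1217) (nat_lit 90) (.e (nat_lit 81956) (nat_lit 23) (.e (nat_lit 98387) (nat_lit 33) (.e (nat_lit 491566) (nat_lit 12) .nil))))) .nil))))) (.nd (nat_lit 4) (.nd (nat_lit 5) (.nd (nat_lit 6) 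
(.lf (nat_lit 105615) (.g (nat_lit 3599) (.e (nat_lit 4007) (nat_lit 242) (.e (nat_lit 122916) (nat_lit 14) (.e (nat_lit 352315) (nat_lit 23) (.e (nat_lit 98389) (nat_lit 33) (.e (nat_lit 491560) (nat_lit 10) (.e (nat_lit 344089) (nat_lit 18) .nil)))))) (.g (nat_lit 6) .nil .nil))) 
(.lf (nat_lit 105679) (.g (nat_lit 2394) (.e (nat_lit 4147) (nat_lit 249) (.e (nat_lit 163885) (nat_lit 5) (.e (nat_lit 221194) (nat_lit 11) (.e (nat_lit 336027) (nat_lit 3) .nil)))) .nil))) (.nd (nat_lit 6) 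
(.lf (nat_lit 105647) (.g (nat_lit 80) (.e (nat_lit 4093) (nat_lit 245) (.e (nat_lit 1197) (nat_lit 88) (.e (nat_lit 65583) (nat_lit 7) .nil))) .nil)) 
(.lf (nat_lit 105711) (.g (nat_lit 1931) (.e (nat_lit 4173) (nat_lit 251) (.e (nat_lit 1215) (nat_lit 90) (.e (nat_lit 81956) (nat_lit 23) (.e (nat_lit 98389) (nat_lit 33) .nil)))) .nil)))) (.nd (nat_lit 5) (.nd (nat_lit 6) 
(.lf (nat_lit 105631) (.g (nat_lit 442) (.e (nat_lit 7936) (nat_lit 242) (.e (nat_lit 122919) (nat_lit 15) (.e (nat_lit 360471) (nat_lit 7) .nil))) .nil)) 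
(.lf (nat_lit 105695) (.g (nat_lit 3356) (.e (nat_lit 4168) (nat_lit 251) (.e (nat_lit 1220) (nat_lit 90) (.e (nat_lit 81956) (nat_lit 23) (.e (nat_lit 98389) (nat_lit 33) .nil)))) .nil))) (.nd (nat_lit 6) 
(.lf (nat_lit 105663) (.g (nat_lit 2139) (.e (nat_lit 4140) (nat_lit 248) (.e (nat_lit 122916) (nat_lit 14) (.e (nat_lit 352315) (nat_lit 23) (.e (nat_lit 98367) (nat_lit 27) (.e (nat_lit 434275) (nat_lit 39) .nil))))) .nil)) 
(.lf (nat_lit 105727) (.g (nat_lit 3937) (.e (nat_lit 4177) (nat_lit 251) (.e (nat_lit 1129) (nat_lit 83) (.e (nat_lit 16470) (nat_lit 14) (.e (nat_lit 491537) (nat_lit 2) (.e (nat_lit 90170) (nat_lit 13) .nil))))) .nil)))))))))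

noncomputable def tv1443 : DT := (.nd (nat_lit 0) (.nd (nat_lit 1) (.nd (nat_lit 2) (.nd (nat_lit 3) (.nd (nat_lit 4) (.nd (nat_lit 5) (.nd (nat_lit 6) 
(.lf (nat_lit 105728) (.g (nat_lit 3894) (.e (nat_lit 4177) (nat_lit 251) (.e (nat_lit 1130) (nat_lit 83) (.e (nat_lit 16470) (nat_lit 14) (.e (nat_lit 491537) (nat_lit 2) (.e (nat_lit 90170) (nat_lit 13) .nil))))) .nil)) 
(.lf (nat_lit 105792) (.g (nat_lit 1574) (.e (nat_lit 4203) (nat_lit 251) (.e (nat_lit 1221) (nat_lit 90) (.e (nat_lit 81956) (nat_lit 23) (.e (nat_lit 98350) (nat_lit 24) (.e (nat_lit 409616) (nat_lit 10) .nil))))) .nil))) (.nd (nat_lit 6) 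
(.lf (nat_lit 105760) (.g (nat_lit 3435) (.e (nat_lit 4196) (nat_lit 251) (.e (nat_lit 1221) (nat_lit 90) (.e (nat_lit 81956) (nat_lit 23) (.e (nat_lit 98388) (nat_lit 33) .nil)))) .nil)) 
(.lf (nat_lit 105824) (.g (nat_lit 3876) (.e (nat_lit 4211) (nat_lit 251) (.e (nat_lit 1220) (nat_lit 90) (.e (nat_lit 81956) (nat_lit 23) (.e (nat_lit 98389) (nat_lit 33) (.e (nat_lit 491563) (nat_lit 12) .nil))))) .nil)))) (.nd (nat_lit 5) (.nd (nat_lit 6) 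
(.lf (nat_lit 105744) (.g (nat_lit 3188) (.e (nat_lit 4185) (nat_lit 251) (.e (nat_lit 1201) (nat_lit 88) (.e (nat_lit 65610) (nat_lit 10) (.e (nat_lit 344117) (nat_lit 21) (.e (nat_lit 516183) (nat_lit 16) .nil))))) .nil)) 
(.lf (nat_lit 105808) (.g (nat_lit 2274) (.e (nat_lit 4208) (nat_lit 251) (.e (nat_lit 1122) (nat_lit 83) (.e (nat_lit 16473) (nat_lit 14) (.e (nat_lit 491535) (nat_lit 2) (.e (nat_lit 90170) (nat_lit 13) .nil))))) .nil))) (.nd (nat_lit 6) 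
(.lf (nat_lit 105776) (.g (nat_lit 2010) (.e (nat_lit 4201) (nat_lit 251) (.e (nat_lit 1220) (nat_lit 90) (.e (nat_lit 81956) (nat_lit 23) (.e (nat_lit 98350) (nat_lit 24) (.e (nat_lit 409649) (nat_lit 18) .nil))))) .nil)) 
(.lf (nat_lit 105840) (.g (nat_lit 2052) (.e (nat_lit 4215) (nat_lit 251) (.e (nat_lit 1122) (nat_lit 83) (.e (nat_lit 16473) (nat_lit 14) (.e (nat_lit 491538) (nat_lit 3) (.e (nat_lit 98374) (nat_lit 29) .nil))))) .nil))))) (.nd (nat_lit 4) (.nd (nat_lit 5) (.nd (nat_lit 6) 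
(.lf (nat_lit 105736) (.g (nat_lit 2930) (.e (nat_lit 4178) (nat_lit 251) (.e (nat_lit 1201) (nat_lit 88) (.e (nat_lit 65610) (nat_lit 10) (.e (nat_lit 344117) (nat_lit 21) (.e (nat_lit 516184) (nat_lit 16) .nil))))) .nil)) 
(.lf (nat_lit 105800) (.g (nat_lit 3458) (.e (nat_lit 4204) (nat_lit 251) (.e (nat_lit 1220) (nat_lit 90) (.e (nat_lit 81956) (nat_lit 23) (.e (nat_lit 98388) (nat_lit 33) .nil)))) .nil))) (.nd (nat_lit 6) 
(.lf (nat_lit 105768) (.g (nat_lit 2876) (.e (nat_lit 4199) (nat_lit 251) (.e (nat_lit 1220) (nat_lit 90) (.e (nat_lit 81953) (nat_lit 22) (.e (nat_lit 90134) (nat_lit 9) (.e (nat_lit 3098) (nat_lit 192) .nil))))) .nil)) 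
(.lf (nat_lit 105832) (.g (nat_lit 4031) (.e (nat_lit 4213) (nat_lit 251) (.e (nat_lit 1220) (nat_lit 90) (.e (nat_lit 81956) (nat_lit 23) (.e (nat_lit 98388) (nat_lit 33) (.e (nat_lit 491566) (nat_lit 12) .nil))))) .nil)))) (.nd (nat_lit 5) (.nd (nat_lit 6) 
(.lf (nat_lit 105752) (.g (nat_lit 3356) (.e (nat_lit 4192) (nat_lit 251) (.e (nat_lit 1220) (nat_lit 90) (.e (nat_lit 81956) (nat_lit 23) (.e (nat_lit 98389) (nat_lit 33) .nil)))) .nil)) 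
(.lf (nat_lit 105816) (.g (nat_lit 3236) (.e (nat_lit 4211) (nat_lit 251) (.e (nat_lit 1209) (nat_lit 89) (.e (nat_lit 73753) (nat_lit 8) (.e (nat_lit 557098) (nat_lit 13) (.e (nat_lit 172140) (nat_lit 22) (.e (nat_lit 139280) (nat_lit 4) (.e (nat_lit 65541) (nat_lit 0) (.e (nat_lit 1076) (nat_lit 81) .nil)))))))) (.g (nat_lit 6) .nil .nil)))) (.nd (nat_lit 6) 
(.lf (nat_lit 105784) (.g (nat_lit 3958) (.e (nat_lit 4202) (nat_lit 251) (.e (nat_lit 1221) (nat_lit 90) (.e (nat_lit 81956) (nat_lit 23) (.e (nat_lit 98388) (nat_lit 33) (.e (nat_lit 491566) (nat_lit 12) .nil))))) .nil)) 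
(.lf (nat_lit 105848) (.g (nat_lit 2426) (.e (nat_lit 4215) (nat_lit 251) (.e (nat_lit 1211) (nat_lit 89) (.e (nat_lit 73755) (nat_lit 8) (.e (nat_lit 557098) (nat_lit 13) (.e (nat_lit 179968) (nat_lit 22) .nil))))) .nil)))))) (.nd (nat_lit 3) (.nd (nat_lit 4) (.nd (nat_lit 5) (.nd (nat_lit 6) 
(.lf (nat_lit 105732) (.g (nat_lit 2215) (.e (nat_lit 4177) (nat_lit 251) (.e (nat_lit 1218) (nat_lit 90) (.e (nat_lit 81956) (nat_lit 23) (.e (nat_lit 98388) (nat_lit 33) .nil)))) .nil)) 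
(.lf (nat_lit 105796) (.g (nat_lit 3938) (.e (nat_lit 4203) (nat_lit 251) (.e (nat_lit 1221) (nat_lit 90) (.e (nat_lit 81956) (nat_lit 23) (.e (nat_lit 98389) (nat_lit 33) (.e (nat_lit 491552) (nat_lit 9) .nil))))) .nil))) (.nd (nat_lit 6) 
(.lf (nat_lit 105764) (.g (nat_lit 3179) (.e (nat_lit 4197) (nat_lit 251) (.e (nat_lit 1221) (nat_lit 90) (.e (nat_lit 81956) (nat_lit 23) (.e (nat_lit 98389) (nat_lit 33) .nil)))) .nil)) 
(.lf (nat_lit 105828) (.g (nat_lit 1511) (.e (nat_lit 4211) (nat_lit 251) (.e (nat_lit 1221) (nat_lit 90) (.e (nat_lit 81956) (nat_lit 23) (.e (nat_lit 98350) (nat_lit 24) (.e (nat_lit 409616) (nat_lit 10) .nil))))) .nil)))) (.nd (nat_lit 5) (.nd (nat_lit 6) 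
(.lf (nat_lit 105748) (.g (nat_lit 4035) (.e (nat_lit 4189) (nat_lit 251) (.e (nat_lit 1220) (nat_lit 90) (.e (nat_lit 81956) (nat_lit 23) (.e (nat_lit 98388) (nat_lit 33) (.e (nat_lit 491566) (nat_lit 12) .nil))))) .nil)) 
(.lf (nat_lit 105812) (.g (nat_lit 1272) (.e (nat_lit 4211) (nat_lit 251) (.e (nat_lit 1200) (nat_lit 88) (.e (nat_lit 65619) (nat_lit 10) (.e (nat_lit 344126) (nat_lit 25) .nil)))) .nil))) (.nd (nat_lit 6) 
(.lf (nat_lit 105780) (.g (nat_lit 3464) (.e (nat_lit 4202) (nat_lit 251) (.e (nat_lit 1221) (nat_lit 90) (.e (nat_lit 81956) (nat_lit 23) (.e (nat_lit 98320) (nat_lit 17) .nil)))) .nil)) 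
(.lf (nat_lit 105844) (.g (nat_lit 2409) (.e (nat_lit 4215) (nat_lit 251) (.e (nat_lit 1209) (nat_lit 89) (.e (nat_lit 73753) (nat_lit 8) (.e (nat_lit 557098) (nat_lit 13) (.e (nat_lit 179968) (nat_lit 22) .nil))))) .nil))))) (.nd (nat_lit 4) (.nd (nat_lit 5) (.nd (nat_lit 6) 
(.lf (nat_lit 105740) (.g (nat_lit 2908) (.e (nat_lit 4182) (nat_lit 251) (.e (nat_lit 1215) (nat_lit 90) (.e (nat_lit 81956) (nat_lit 23) (.e (nat_lit 98388) (nat_lit 33) (.e (nat_lit 491566) (nat_lit 12) .nil))))) .nil)) 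
(.lf (nat_lit 105804) (.g (nat_lit 1462) (.e (nat_lit 4205) (nat_lit 251) (.e (nat_lit 1125) (nat_lit 83) (.e (nat_lit 16473) (nat_lit 14) (.e (nat_lit 491538) (nat_lit 3) .nil)))) .nil))) (.nd (nat_lit 6) 
(.lf (nat_lit 105772) (.g (nat_lit 3458) (.e (nat_lit 4200) (nat_lit 251) (.e (nat_lit 1220) (nat_lit 90) (.e (nat_lit 81956) (nat_lit 23) (.e (nat_lit 98388) (nat_lit 33) .nil)))) .nil)) 
(.lf (nat_lit 105836) (.g (nat_lit 1917) (.e (nat_lit 4214) (nat_lit 251) (.e (nat_lit 1221) (nat_lit 90) (.e (nat_lit 81956) (nat_lit 23) (.e (nat_lit 98350) (nat_lit 24) (.e (nat_lit 409616) (nat_lit 10) (.e (nat_lit 7936) (nat_lit 299) (.e (nat_lit 8198) (nat_lit 0) .nil))))))) (.g (nat_lit 5) .nil .nil))))) (.nd (nat_lit 5) (.nd (nat_lit 6) 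
(.lf (nat_lit 105756) (.g (nat_lit 3263) (.e (nat_lit 4194) (nat_lit 251) (.e (nat_lit 1220) (nat_lit 90) (.e (nat_lit 81956) (nat_lit 23) (.e (nat_lit 98388) (nat_lit 33) .nil)))) .nil)) 
(.lf (nat_lit 105820) (.g (nat_lit 1900) (.e (nat_lit 4211) (nat_lit 251) (.e (nat_lit 1211) (nat_lit 89) (.e (nat_lit 73755) (nat_lit 8) (.e (nat_lit 557097) (nat_lit 13) (.e (nat_lit 172064) (nat_lit 2) .nil))))) .nil))) (.nd (nat_lit 6) 
(.lf (nat_lit 105788) (.g (nat_lit 3458) (.e (nat_lit 4203) (nat_lit 251) (.e (nat_lit 1220) (nat_lit 90) (.e (nat_lit 81956) (nat_lit 23) (.e (nat_lit 98388) (nat_lit 33) .nil)))) .nil)) 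
(.lf (nat_lit 105852) (.g (nat_lit 1595) (.e (nat_lit 4215) (nat_lit 251) (.e (nat_lit 1221) (nat_lit 90) (.e (nat_lit 81953) (nat_lit 22) (.e (nat_lit 90133) (nat_lit 9) .nil)))) .nil))))))) (.nd (nat_lit 2) (.nd (nat_lit 3) (.nd (nat_lit 4) (.nd (nat_lit 5) (.nd (nat_lit 6) 
(.lf (nat_lit 105730) (.g (nat_lit 2746) (.e (nat_lit 4177) (nat_lit 251) (.e (nat_lit 1201) (nat_lit 88) (.e (nat_lit 65610) (nat_lit 10) (.e (nat_lit 344117) (nat_lit 21) (.e (nat_lit 516184) (nat_lit 16) .nil))))) .nil)) 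
(.lf (nat_lit 105794) (.g (nat_lit 3442) (.e (nat_lit 4203) (nat_lit 251) (.e (nat_lit 1221) (nat_lit 90) (.e (nat_lit 81956) (nat_lit 23) (.e (nat_lit 98388) (nat_lit 33) .nil)))) .nil))) (.nd (nat_lit 6) 
(.lf (nat_lit 105762) (.g (nat_lit 3398) (.e (nat_lit 4197) (nat_lit 251) (.e (nat_lit 1221) (nat_lit 90) (.e (nat_lit 81956) (nat_lit 23) (.e (nat_lit 98388) (nat_lit 33) .nil)))) .nil)) 
(.lf (nat_lit 105826) (.g (nat_lit 1511) (.e (nat_lit 4211) (nat_lit 251) (.e (nat_lit 1221) (nat_lit 90) (.e (nat_lit 81953) (nat_lit 22) (.e (nat_lit 90134) (nat_lit 9) .nil)))) .nil)))) (.nd (nat_lit 5) (.nd (nat_lit 6) 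
(.lf (nat_lit 105746) (.g (nat_lit 3207) (.e (nat_lit 4186) (nat_lit 251) (.e (nat_lit 1124) (nat_lit 83) (.e (nat_lit 16473) (nat_lit 14) (.e (nat_lit 491526) (nat_lit 0) (.e (nat_lit 1788) (nat_lit 119) .nil))))) .nil)) 
(.lf (nat_lit 105810) (.g (nat_lit 2996) (.e (nat_lit 4210) (nat_lit 251) (.e (nat_lit 1221) (nat_lit 90) (.e (nat_lit 81956) (nat_lit 23) (.e (nat_lit 98387) (nat_lit 33) (.e (nat_lit 491566) (nat_lit 12) .nil))))) .nil))) (.nd (nat_lit 6) 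
(.lf (nat_lit 105778) (.g (nat_lit 1779) (.e (nat_lit 4202) (nat_lit 251) (.e (nat_lit 1128) (nat_lit 83) (.e (nat_lit 16425) (nat_lit 7) (.e (nat_lit 409616) (nat_lit 10) (.e (nat_lit 7936) (nat_lit 43) .nil))))) .nil)) 
(.lf (nat_lit 105842) (.g (nat_lit 1900) (.e (nat_lit 4215) (nat_lit 251) (.e (nat_lit 1190) (nat_lit 88) (.e (nat_lit 65619) (nat_lit 10) (.e (nat_lit 344117) (nat_lit 21) (.e (nat_lit 516183) (nat_lit 16) .nil))))) .nil))))) (.nd (nat_lit 4) (.nd (nat_lit 5) (.nd (nat_lit 6) 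
(.lf (nat_lit 105738) (.g (nat_lit 2346) (.e (nat_lit 4181) (nat_lit 251) (.e (nat_lit 1215) (nat_lit 90) (.e (nat_lit 81956) (nat_lit 23) (.e (nat_lit 98320) (nat_lit 17) .nil)))) .nil)) 
(.lf (nat_lit 105802) (.g (nat_lit 3435) (.e (nat_lit 4204) (nat_lit 251) (.e (nat_lit 1221) (nat_lit 90) (.e (nat_lit 81956) (nat_lit 23) (.e (nat_lit 98388) (nat_lit 33) .nil)))) .nil))) (.nd (nat_lit 6) 
(.lf (nat_lit 105770) (.g (nat_lit 1779) (.e (nat_lit 4200) (nat_lit 251) (.e (nat_lit 1128) (nat_lit 83) (.e (nat_lit 16425) (nat_lit 7) (.e (nat_lit 409616) (nat_lit 10) (.e (nat_lit 7936) (nat_lit 43) .nil))))) .nil)) 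
(.lf (nat_lit 105834) (.g (nat_lit 2248) (.e (nat_lit 4214) (nat_lit 251) (.e (nat_lit 1220) (nat_lit 90) (.e (nat_lit 81956) (nat_lit 23) (.e (nat_lit 98350) (nat_lit 24) (.e (nat_lit 409616) (nat_lit 10) (.e (nat_lit 7936) (nat_lit 299) (.e (nat_lit 8192) (nat_lit 0) .nil))))))) (.g (nat_lit 5) .nil .nil))))) (.nd (nat_lit 5) (.nd (nat_lit 6) 
(.lf (nat_lit 105754) (.g (nat_lit 1848) (.e (nat_lit 4194) (nat_lit 251) (.e (nat_lit 1220) (nat_lit 90) (.e (nat_lit 81953) (nat_lit 22) (.e (nat_lit 90134) (nat_lit 9) .nil)))) .nil)) 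
(.lf (nat_lit 105818) (.g (nat_lit 2243) (.e (nat_lit 4211) (nat_lit 251) (.e (nat_lit 1209) (nat_lit 89) (.e (nat_lit 73753) (nat_lit 8) (.e (nat_lit 557101) (nat_lit 13) (.e (nat_lit 172064) (nat_lit 2) .nil))))) .nil))) (.nd (nat_lit 6) 
(.lf (nat_lit 105786) (.g (nat_lit 4064) (.e (nat_lit 4202) (nat_lit 251) (.e (nat_lit 1221) (nat_lit 90) (.e (nat_lit 81956) (nat_lit 23) (.e (nat_lit 98389) (nat_lit 33) (.e (nat_lit 491562) (nat_lit 12) .nil))))) .nil)) 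
(.lf (nat_lit 105850) (.g (nat_lit 3358) (.e (nat_lit 4215) (nat_lit 251) (.e (nat_lit 1220) (nat_lit 90) (.e (nat_lit 81956) (nat_lit 23) (.e (nat_lit 98388) (nat_lit 33) .nil)))) .nil)))))) (.nd (nat_lit 3) (.nd (nat_lit 4) (.nd (nat_lit 5) (.nd (nat_lit 6) 
(.lf (nat_lit 105734) (.g (nat_lit 3911) (.e (nat_lit 4178) (nat_lit 251) (.e (nat_lit 1122) (nat_lit 83) (.e (nat_lit 16470) (nat_lit 14) (.e (nat_lit 491537) (nat_lit 2) (.e (nat_lit 90170) (nat_lit 13) .nil))))) .nil)) 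
(.lf (nat_lit 105798) (.g (nat_lit 2749) (.e (nat_lit 4204) (nat_lit 251) (.e (nat_lit 1219) (nat_lit 90) (.e (nat_lit 81956) (nat_lit 23) (.e (nat_lit 98388) (nat_lit 33) .nil)))) .nil))) (.nd (nat_lit 6) 
(.lf (nat_lit 105766) (.g (nat_lit 3302) (.e (nat_lit 4198) (nat_lit 251) (.e (nat_lit 1221) (nat_lit 90) (.e (nat_lit 81956) (nat_lit 23) (.e (nat_lit 98389) (nat_lit 33) .nil)))) .nil)) 
(.lf (nat_lit 105830) (.g (nat_lit 3435) (.e (nat_lit 4212) (nat_lit 251) (.e (nat_lit 1221) (nat_lit 90) (.e (nat_lit 81956) (nat_lit 23) (.e (nat_lit 98388) (nat_lit 33) .nil)))) .nil)))) (.nd (nat_lit 5) (.nd (nat_lit 6) 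
(.lf (nat_lit 105750) (.g (nat_lit 3486) (.e (nat_lit 4190) (nat_lit 251) (.e (nat_lit 1220) (nat_lit 90) (.e (nat_lit 81956) (nat_lit 23) (.e (nat_lit 98388) (nat_lit 33) .nil)))) .nil)) 
(.lf (nat_lit 105814) (.g (nat_lit 2232) (.e (nat_lit 4211) (nat_lit 251) (.e (nat_lit 1209) (nat_lit 89) (.e (nat_lit 73753) (nat_lit 8) (.e (nat_lit 557096) (nat_lit 13) (.e (nat_lit 172064) (nat_lit 2) .nil))))) .nil))) (.nd (nat_lit 6) 
(.lf (nat_lit 105782) (.g (nat_lit 3066) (.e (nat_lit 4202) (nat_lit 251) (.e (nat_lit 1221) (nat_lit 90) (.e (nat_lit 81956) (nat_lit 23) (.e (nat_lit 98387) (nat_lit 33) (.e (nat_lit 491566) (nat_lit 12) .nil))))) .nil)) 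
(.lf (nat_lit 105846) (.g (nat_lit 499) (.e (nat_lit 4215) (nat_lit 251) (.e (nat_lit 1211) (nat_lit 89) (.e (nat_lit 73753) (nat_lit 8) .nil))) .nil))))) (.nd (nat_lit 4) (.nd (nat_lit 5) (.nd (nat_lit 6) 
(.lf (nat_lit 105742) (.g (nat_lit 1512) (.e (nat_lit 4184) (nat_lit 251) (.e (nat_lit 1124) (nat_lit 83) (.e (nat_lit 16469) (nat_lit 14) (.e (nat_lit 491540) (nat_lit 3) .nil)))) .nil)) 
(.lf (nat_lit 105806) (.g (nat_lit 3435) (.e (nat_lit 4205) (nat_lit 251) (.e (nat_lit 1221) (nat_lit 90) (.e (nat_lit 81956) (nat_lit 23) (.e (nat_lit 98388) (nat_lit 33) .nil)))) .nil))) (.nd (nat_lit 6) 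
(.lf (nat_lit 105774) (.g (nat_lit 2856) (.e (nat_lit 4201) (nat_lit 251) (.e (nat_lit 1126) (nat_lit 83) (.e (nat_lit 16470) (nat_lit 14) (.e (nat_lit 491540) (nat_lit 3) (.e (nat_lit 98373) (nat_lit 29) .nil))))) .nil)) 
(.lf (nat_lit 105838) (.g (nat_lit 1911) (.e (nat_lit 4214) (nat_lit 251) (.e (nat_lit 1221) (nat_lit 90) (.e (nat_lit 81956) (nat_lit 23) (.e (nat_lit 98350) (nat_lit 24) (.e (nat_lit 409616) (nat_lit 10) (.e (nat_lit 7936) (nat_lit 299) (.e (nat_lit 8200) (nat_lit 0) .nil))))))) (.g (nat_lit 5) .nil .nil))))) (.nd (nat_lit 5) (.nd (nat_lit 6) 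
(.lf (nat_lit 105758) (.g (nat_lit 2274) (.e (nat_lit 4195) (nat_lit 251) (.e (nat_lit 1122) (nat_lit 83) (.e (nat_lit 16473) (nat_lit 14) (.e (nat_lit 491535) (nat_lit 2) (.e (nat_lit 90170) (nat_lit 13) .nil))))) .nil)) 
(.lf (nat_lit 105822) (.g (nat_lit 2100) (.e (nat_lit 4211) (nat_lit 251) (.e (nat_lit 1220) (nat_lit 90) (.e (nat_lit 81956) (nat_lit 23) (.e (nat_lit 98350) (nat_lit 24) (.e (nat_lit 409648) (nat_lit 18) (.e (nat_lit 303149) (nat_lit 15) (.e (nat_lit 1077) (nat_lit 81) .nil))))))) (.g (nat_lit 4) .nil .nil)))) (.nd (nat_lit 6) 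
(.lf (nat_lit 105790) (.g (nat_lit 2797) (.e (nat_lit 4203) (nat_lit 251) (.e (nat_lit 1221) (nat_lit 90) (.e (nat_lit 81953) (nat_lit 22) (.e (nat_lit 90187) (nat_lit 18) .nil)))) .nil)) 
(.lf (nat_lit 105854) (.g (nat_lit 1189) (.e (nat_lit 4215) (nat_lit 251) (.e (nat_lit 1221) (nat_lit 90) (.e (nat_lit 81956) (nat_lit 23) (.e (nat_lit 98350) (nat_lit 24) .nil)))) .nil)))))))) (.nd (nat_lit 1) (.nd (nat_lit 2) (.nd (nat_lit 3) (.nd (nat_lit 4) (.nd (nat_lit 5) (.nd (nat_lit 6) 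
(.lf (nat_lit 105729) (.g (nat_lit 3004) (.e (nat_lit 4177) (nat_lit 251) (.e (nat_lit 1201) (nat_lit 88) (.e (nat_lit 65610) (nat_lit 10) (.e (nat_lit 344117) (nat_lit 21) (.e (nat_lit 516183) (nat_lit 16) .nil))))) .nil)) 
(.lf (nat_lit 105793) (.g (nat_lit 3073) (.e (nat_lit 4203) (nat_lit 251) (.e (nat_lit 1221) (nat_lit 90) (.e (nat_lit 81956) (nat_lit 23) (.e (nat_lit 98387) (nat_lit 33) (.e (nat_lit 491566) (nat_lit 12) .nil))))) .nil))) (.nd (nat_lit 6) 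
(.lf (nat_lit 105761) (.g (nat_lit 3007) (.e (nat_lit 4197) (nat_lit 251) (.e (nat_lit 1221) (nat_lit 90) (.e (nat_lit 81956) (nat_lit 23) (.e (nat_lit 98387) (nat_lit 33) (.e (nat_lit 491566) (nat_lit 12) .nil))))) .nil)) 
(.lf (nat_lit 105825) (.g (nat_lit 2887) (.e (nat_lit 4211) (nat_lit 251) (.e (nat_lit 1221) (nat_lit 90) (.e (nat_lit 81953) (nat_lit 22) (.e (nat_lit 90130) (nat_lit 9) .nil)))) .nil)))) (.nd (nat_lit 5) (.nd (nat_lit 6) 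
(.lf (nat_lit 105745) (.g (nat_lit 2931) (.e (nat_lit 4185) (nat_lit 251) (.e (nat_lit 1201) (nat_lit 88) (.e (nat_lit 65610) (nat_lit 10) (.e (nat_lit 344117) (nat_lit 21) (.e (nat_lit 516184) (nat_lit 16) .nil))))) .nil)) 
(.lf (nat_lit 105809) (.g (nat_lit 2274) (.e (nat_lit 4210) (nat_lit 251) (.e (nat_lit 1122) (nat_lit 83) (.e (nat_lit 16473) (nat_lit 14) (.e (nat_lit 491535) (nat_lit 2) (.e (nat_lit 90170) (nat_lit 13) .nil))))) .nil))) (.nd (nat_lit 6) 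
(.lf (nat_lit 105777) (.g (nat_lit 623) (.e (nat_lit 4201) (nat_lit 251) (.e (nat_lit 1221) (nat_lit 90) (.e (nat_lit 81956) (nat_lit 23) .nil))) .nil)) 
(.lf (nat_lit 105841) (.g (nat_lit 1732) (.e (nat_lit 4215) (nat_lit 251) (.e (nat_lit 1126) (nat_lit 83) (.e (nat_lit 16473) (nat_lit 14) (.e (nat_lit 491538) (nat_lit 3) (.e (nat_lit 98374) (nat_lit 29) .nil))))) .nil))))) (.nd (nat_lit 4) (.nd (nat_lit 5) (.nd (nat_lit 6) 
(.lf (nat_lit 105737) (.g (nat_lit 2909) (.e (nat_lit 4180) (nat_lit 251) (.e (nat_lit 1215) (nat_lit 90) (.e (nat_lit 81956) (nat_lit 23) (.e (nat_lit 98388) (nat_lit 33) (.e (nat_lit 491566) (nat_lit 12) .nil))))) .nil)) 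
(.lf (nat_lit 105801) (.g (nat_lit 1556) (.e (nat_lit 4204) (nat_lit 251) (.e (nat_lit 1221) (nat_lit 90) (.e (nat_lit 81956) (nat_lit 23) (.e (nat_lit 98350) (nat_lit 24) (.e (nat_lit 409616) (nat_lit 10) .nil))))) .nil))) (.nd (nat_lit 6) 
(.lf (nat_lit 105769) (.g (nat_lit 3435) (.e (nat_lit 4199) (nat_lit 251) (.e (nat_lit 1221) (nat_lit 90) (.e (nat_lit 81956) (nat_lit 23) (.e (nat_lit 98388) (nat_lit 33) .nil)))) .nil)) 
(.lf (nat_lit 105833) (.g (nat_lit 3958) (.e (nat_lit 4213) (nat_lit 251) (.e (nat_lit 1221) (nat_lit 90) (.e (nat_lit 81956) (nat_lit 23) (.e (nat_lit 98388) (nat_lit 33) (.e (nat_lit 491566) (nat_lit 12) .nil))))) .nil)))) (.nd (nat_lit 5) (.nd (nat_lit 6) 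
(.lf (nat_lit 105753) (.g (nat_lit 2274) (.e (nat_lit 4193) (nat_lit 251) (.e (nat_lit 1122) (nat_lit 83) (.e (nat_lit 16473) (nat_lit 14) (.e (nat_lit 491535) (nat_lit 2) (.e (nat_lit 90170) (nat_lit 13) .nil))))) .nil)) 
(.lf (nat_lit 105817) (.g (nat_lit 2989) (.e (nat_lit 4211) (nat_lit 251) (.e (nat_lit 1209) (nat_lit 89) (.e (nat_lit 73753) (nat_lit 8) (.e (nat_lit 557098) (nat_lit 13) (.e (nat_lit 172140) (nat_lit 22) (.e (nat_lit 139281) (nat_lit 5) (.e (nat_lit 73735) (nat_lit 0) .nil))))))) (.g (nat_lit 6) .nil .nil)))) (.nd (nat_lit 6) 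
(.lf (nat_lit 105785) (.g (nat_lit 3302) (.e (nat_lit 4202) (nat_lit 251) (.e (nat_lit 1221) (nat_lit 90) (.e (nat_lit 81956) (nat_lit 23) (.e (nat_lit 98389) (nat_lit 33) .nil)))) .nil)) 
(.lf (nat_lit 105849) (.g (nat_lit 2522) (.e (nat_lit 4215) (nat_lit 251) (.e (nat_lit 1220) (nat_lit 90) (.e (nat_lit 81956) (nat_lit 23) (.e (nat_lit 98387) (nat_lit 33) .nil)))) .nil)))))) (.nd (nat_lit 3) (.nd (nat_lit 4) (.nd (nat_lit 5) (.nd (nat_lit 6) 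
(.lf (nat_lit 105733) (.g (nat_lit 3059) (.e (nat_lit 4177) (nat_lit 251) (.e (nat_lit 1223) (nat_lit 90) (.e (nat_lit 81956) (nat_lit 23) (.e (nat_lit 98389) (nat_lit 33) (.e (nat_lit 491562) (nat_lit 12) .nil))))) .nil)) 
(.lf (nat_lit 105797) (.g (nat_lit 2403) (.e (nat_lit 4204) (nat_lit 251) (.e (nat_lit 1125) (nat_lit 83) (.e (nat_lit 16473) (nat_lit 14) (.e (nat_lit 491538) (nat_lit 3) (.e (nat_lit 98365) (nat_lit 26) .nil))))) .nil))) (.nd (nat_lit 6) 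
(.lf (nat_lit 105765) (.g (nat_lit 3435) (.e (nat_lit 4198) (nat_lit 251) (.e (nat_lit 1221) (nat_lit 90) (.e (nat_lit 81956) (nat_lit 23) (.e (nat_lit 98388) (nat_lit 33) .nil)))) .nil)) 
(.lf (nat_lit 105829) (.g (nat_lit 3123) (.e (nat_lit 4211) (nat_lit 251) (.e (nat_lit 1221) (nat_lit 90) (.e (nat_lit 81956) (nat_lit 23) (.e (nat_lit 98389) (nat_lit 33) .nil)))) .nil)))) (.nd (nat_lit 5) (.nd (nat_lit 6) 
(.lf (nat_lit 105749) (.g (nat_lit 2612) (.e (nat_lit 4190) (nat_lit 251) (.e (nat_lit 1220) (nat_lit 90) (.e (nat_lit 81956) (nat_lit 23) (.e (nat_lit 98387) (nat_lit 33) .nil)))) .nil)) 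
(.lf (nat_lit 105813) (.g (nat_lit 736) (.e (nat_lit 4211) (nat_lit 251) (.e (nat_lit 1209) (nat_lit 89) (.e (nat_lit 73753) (nat_lit 8) .nil))) .nil))) (.nd (nat_lit 6) 
(.lf (nat_lit 105781) (.g (nat_lit 1265) (.e (nat_lit 4202) (nat_lit 251) (.e (nat_lit 1221) (nat_lit 90) (.e (nat_lit 81956) (nat_lit 23) (.e (nat_lit 98350) (nat_lit 24) .nil)))) .nil)) 
(.lf (nat_lit 105845) (.g (nat_lit 1376) (.e (nat_lit 4215) (nat_lit 251) (.e (nat_lit 1209) (nat_lit 89) (.e (nat_lit 73753) (nat_lit 8) (.e (nat_lit 557101) (nat_lit 13) .nil)))) .nil))))) (.nd (nat_lit 4) (.nd (nat_lit 5) (.nd (nat_lit 6) 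
(.lf (nat_lit 105741) (.g (nat_lit 1899) (.e (nat_lit 4182) (nat_lit 251) (.e (nat_lit 1215) (nat_lit 90) (.e (nat_lit 81956) (nat_lit 23) (.e (nat_lit 98389) (nat_lit 33) .nil)))) .nil)) 
(.lf (nat_lit 105805) (.g (nat_lit 2876) (.e (nat_lit 4205) (nat_lit 251) (.e (nat_lit 1220) (nat_lit 90) (.e (nat_lit 81953) (nat_lit 22) (.e (nat_lit 90134) (nat_lit 9) (.e (nat_lit 3098) (nat_lit 192) .nil))))) .nil))) (.nd (nat_lit 6) 
(.lf (nat_lit 105773) (.g (nat_lit 3435) (.e (nat_lit 4200) (nat_lit 251) (.e (nat_lit 1221) (nat_lit 90) (.e (nat_lit 81956) (nat_lit 23) (.e (nat_lit 98388) (nat_lit 33) .nil)))) .nil)) 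
(.lf (nat_lit 105837) (.g (nat_lit 1937) (.e (nat_lit 4214) (nat_lit 251) (.e (nat_lit 1221) (nat_lit 90) (.e (nat_lit 81956) (nat_lit 23) (.e (nat_lit 98350) (nat_lit 24) (.e (nat_lit 409616) (nat_lit 10) (.e (nat_lit 7936) (nat_lit 299) (.e (nat_lit 8199) (nat_lit 0) .nil))))))) (.g (nat_lit 5) .nil .nil))))) (.nd (nat_lit 5) (.nd (nat_lit 6) 
(.lf (nat_lit 105757) (.g (nat_lit 3031) (.e (nat_lit 4194) (nat_lit 251) (.e (nat_lit 1220) (nat_lit 90) (.e (nat_lit 81956) (nat_lit 23) (.e (nat_lit 98389) (nat_lit 33) .nil)))) .nil)) 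
(.lf (nat_lit 105821) (.g (nat_lit 2414) (.e (nat_lit 4211) (nat_lit 251) (.e (nat_lit 1211) (nat_lit 89) (.e (nat_lit 73755) (nat_lit 8) (.e (nat_lit 557098) (nat_lit 13) (.e (nat_lit 172140) (nat_lit 22) .nil))))) .nil))) (.nd (nat_lit 6) 
(.lf (nat_lit 105789) (.g (nat_lit 3356) (.e (nat_lit 4203) (nat_lit 251) (.e (nat_lit 1220) (nat_lit 90) (.e (nat_lit 81956) (nat_lit 23) (.e (nat_lit 98389) (nat_lit 33) .nil)))) .nil)) 
(.lf (nat_lit 105853) (.g (nat_lit 5234) (.e (nat_lit 4215) (nat_lit 251) (.e (nat_lit 1221) (nat_lit 90) (.e (nat_lit 81953) (nat_lit 22) (.e (nat_lit 90134) (nat_lit 9) (.e (nat_lit 3098) (nat_lit 192) (.e (nat_lit 491566) (nat_lit 12) (.e (nat_lit 385054) (nat_lit 21) .nil))))))) (.g (nat_lit 6) .nil .nil)))))))) 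
(.nd (nat_lit 2) (.nd (nat_lit 3) (.nd (nat_lit 4) (.nd (nat_lit 5) (.nd (nat_lit 6) 
(.lf (nat_lit 105731) (.g (nat_lit 3020) (.e (nat_lit 4177) (nat_lit 251) (.e (nat_lit 1201) (nat_lit 88) (.e (nat_lit 65630) (nat_lit 14) (.e (nat_lit 401425) (nat_lit 2) (.e (nat_lit 196666) (nat_lit 13) .nil))))) .nil)) 
(.lf (nat_lit 105795) (.g (nat_lit 3965) (.e (nat_lit 4203) (nat_lit 251) (.e (nat_lit 1221) (nat_lit 90) (.e (nat_lit 81956) (nat_lit 23) (.e (nat_lit 98388) (nat_lit 33) (.e (nat_lit 491566) (nat_lit 12) .nil))))) .nil))) (.nd (nat_lit 6) 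
(.lf (nat_lit 105763) (.g (nat_lit 3921) (.e (nat_lit 4197) (nat_lit 251) (.e (nat_lit 1221) (nat_lit 90) (.e (nat_lit 81956) (nat_lit 23) (.e (nat_lit 98388) (nat_lit 33) (.e (nat_lit 491566) (nat_lit 12) .nil))))) .nil)) 
(.lf (nat_lit 105827) (.g (nat_lit 566) (.e (nat_lit 4211) (nat_lit 251) (.e (nat_lit 1221) (nat_lit 90) (.e (nat_lit 81956) (nat_lit 23) .nil))) .nil)))) (.nd (nat_lit 5) (.nd (nat_lit 6) 
(.lf (nat_lit 105747) (.g (nat_lit 2930) (.e (nat_lit 4186) (nat_lit 251) (.e (nat_lit 1201) (nat_lit 88) (.e (nat_lit 65610) (nat_lit 10) (.e (nat_lit 344117) (nat_lit 21) (.e (nat_lit 516184) (nat_lit 16) .nil))))) .nil)) 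
(.lf (nat_lit 105811) (.g (nat_lit 3930) (.e (nat_lit 4210) (nat_lit 251) (.e (nat_lit 1221) (nat_lit 90) (.e (nat_lit 81956) (nat_lit 23) (.e (nat_lit 98388) (nat_lit 33) (.e (nat_lit 491566) (nat_lit 12) .nil))))) .nil))) (.nd (nat_lit 6) 
(.lf (nat_lit 105779) (.g (nat_lit 3458) (.e (nat_lit 4202) (nat_lit 251) (.e (nat_lit 1220) (nat_lit 90) (.e (nat_lit 81956) (nat_lit 23) (.e (nat_lit 98388) (nat_lit 33) .nil)))) .nil)) 
(.lf (nat_lit 105843) (.g (nat_lit 2183) (.e (nat_lit 4215) (nat_lit 251) (.e (nat_lit 1200) (nat_lit 88) (.e (nat_lit 65604) (nat_lit 9) (.e (nat_lit 336013) (nat_lit 2) (.e (nat_lit 90134) (nat_lit 9) .nil))))) .nil))))) (.nd (nat_lit 4) (.nd (nat_lit 5) (.nd (nat_lit 6) 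
(.lf (nat_lit 105739) (.g (nat_lit 2163) (.e (nat_lit 4181) (nat_lit 251) (.e (nat_lit 1215) (nat_lit 90) (.e (nat_lit 81956) (nat_lit 23) (.e (nat_lit 98350) (nat_lit 24) .nil)))) .nil)) 
(.lf (nat_lit 105803) (.g (nat_lit 2274) (.e (nat_lit 4205) (nat_lit 251) (.e (nat_lit 1122) (nat_lit 83) (.e (nat_lit 16473) (nat_lit 14) (.e (nat_lit 491535) (nat_lit 2) (.e (nat_lit 90170) (nat_lit 13) .nil))))) .nil))) (.nd (nat_lit 6) 
(.lf (nat_lit 105771) (.g (nat_lit 2876) (.e (nat_lit 4200) (nat_lit 251) (.e (nat_lit 1220) (nat_lit 90) (.e (nat_lit 81953) (nat_lit 22) (.e (nat_lit 90134) (nat_lit 9) (.e (nat_lit 3098) (nat_lit 192) .nil))))) .nil)) 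
(.lf (nat_lit 105835) (.g (nat_lit 3966) (.e (nat_lit 4214) (nat_lit 251) (.e (nat_lit 1220) (nat_lit 90) (.e (nat_lit 81956) (nat_lit 23) (.e (nat_lit 98388) (nat_lit 33) (.e (nat_lit 491566) (nat_lit 12) .nil))))) .nil)))) (.nd (nat_lit 5) (.nd (nat_lit 6) 
(.lf (nat_lit 105755) (.g (nat_lit 2318) (.e (nat_lit 4194) (nat_lit 251) (.e (nat_lit 1220) (nat_lit 90) (.e (nat_lit 81956) (nat_lit 23) (.e (nat_lit 98350) (nat_lit 24) (.e (nat_lit 409616) (nat_lit 10) (.e (nat_lit 7936) (nat_lit 299) (.e (nat_lit 8192) (nat_lit 0) .nil))))))) (.g (nat_lit 5) .nil .nil))) 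
(.lf (nat_lit 105819) (.g (nat_lit 744) (.e (nat_lit 4211) (nat_lit 251) (.e (nat_lit 1209) (nat_lit 89) (.e (nat_lit 73754) (nat_lit 8) .nil))) .nil))) (.nd (nat_lit 6) 
(.lf (nat_lit 105787) (.g (nat_lit 2876) (.e (nat_lit 4203) (nat_lit 251) (.e (nat_lit 1220) (nat_lit 90) (.e (nat_lit 81953) (nat_lit 22) (.e (nat_lit 90134) (nat_lit 9) (.e (nat_lit 3098) (nat_lit 192) .nil))))) .nil)) 
(.lf (nat_lit 105851) (.g (nat_lit 3776) (.e (nat_lit 4215) (nat_lit 251) (.e (nat_lit 1220) (nat_lit 90) (.e (nat_lit 81956) (nat_lit 23) (.e (nat_lit 98389) (nat_lit 33) (.e (nat_lit 491563) (nat_lit 12) .nil))))) .nil)))))) (.nd (nat_lit 3) (.nd (nat_lit 4) (.nd (nat_lit 5) (.nd (nat_lit 6) 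
(.lf (nat_lit 105735) (.g (nat_lit 3187) (.e (nat_lit 4178) (nat_lit 251) (.e (nat_lit 1201) (nat_lit 88) (.e (nat_lit 65610) (nat_lit 10) (.e (nat_lit 344117) (nat_lit 21) (.e (nat_lit 516183) (nat_lit 16) .nil))))) .nil)) 
(.lf (nat_lit 105799) (.g (nat_lit 1772) (.e (nat_lit 4204) (nat_lit 251) (.e (nat_lit 1220) (nat_lit 90) (.e (nat_lit 81956) (nat_lit 23) (.e (nat_lit 98350) (nat_lit 24) (.e (nat_lit 409616) (nat_lit 10) .nil))))) .nil))) (.nd (nat_lit 6) 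
(.lf (nat_lit 105767) (.g (nat_lit 2274) (.e (nat_lit 4199) (nat_lit 251) (.e (nat_lit 1122) (nat_lit 83) (.e (nat_lit 16473) (nat_lit 14) (.e (nat_lit 491535) (nat_lit 2) (.e (nat_lit 90170) (nat_lit 13) .nil))))) .nil)) 
(.lf (nat_lit 105831) (.g (nat_lit 3302) (.e (nat_lit 4212) (nat_lit 251) (.e (nat_lit 1221) (nat_lit 90) (.e (nat_lit 81956) (nat_lit 23) (.e (nat_lit 98389) (nat_lit 33) .nil)))) .nil)))) (.nd (nat_lit 5) (.nd (nat_lit 6) 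
(.lf (nat_lit 105751) (.g (nat_lit 1615) (.e (nat_lit 4192) (nat_lit 251) (.e (nat_lit 1220) (nat_lit 90) (.e (nat_lit 81953) (nat_lit 22) (.e (nat_lit 98048) (nat_lit 18) .nil)))) .nil)) 
(.lf (nat_lit 105815) (.g (nat_lit 2230) (.e (nat_lit 4211) (nat_lit 251) (.e (nat_lit 1209) (nat_lit 89) (.e (nat_lit 73753) (nat_lit 8) (.e (nat_lit 557096) (nat_lit 13) (.e (nat_lit 172140) (nat_lit 22) .nil))))) .nil))) (.nd (nat_lit 6) 
(.lf (nat_lit 105783) (.g (nat_lit 3435) (.e (nat_lit 4202) (nat_lit 251) (.e (nat_lit 1221) (nat_lit 90) (.e (nat_lit 81956) (nat_lit 23) (.e (nat_lit 98388) (nat_lit 33) .nil)))) .nil)) 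
(.lf (nat_lit 105847) (.g (nat_lit 1722) (.e (nat_lit 4215) (nat_lit 251) (.e (nat_lit 1211) (nat_lit 89) (.e (nat_lit 73755) (nat_lit 8) (.e (nat_lit 557096) (nat_lit 13) (.e (nat_lit 172140) (nat_lit 22) .nil))))) .nil))))) (.nd (nat_lit 4) (.nd (nat_lit 5) (.nd (nat_lit 6) 
(.lf (nat_lit 105743) (.g (nat_lit 1613) (.e (nat_lit 4184) (nat_lit 251) (.e (nat_lit 1201) (nat_lit 88) (.e (nat_lit 65610) (nat_lit 10) (.e (nat_lit 344117) (nat_lit 21) .nil)))) .nil)) 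
(.lf (nat_lit 105807) (.g (nat_lit 2274) (.e (nat_lit 4206) (nat_lit 251) (.e (nat_lit 1122) (nat_lit 83) (.e (nat_lit 16473) (nat_lit 14) (.e (nat_lit 491535) (nat_lit 2) (.e (nat_lit 90170) (nat_lit 13) .nil))))) .nil))) (.nd (nat_lit 6) 
(.lf (nat_lit 105775) (.g (nat_lit 1336) (.e (nat_lit 4201) (nat_lit 251) (.e (nat_lit 1220) (nat_lit 90) (.e (nat_lit 81956) (nat_lit 23) (.e (nat_lit 98350) (nat_lit 24) .nil)))) .nil)) 
(.lf (nat_lit 105839) (.g (nat_lit 3943) (.e (nat_lit 4214) (nat_lit 251) (.e (nat_lit 1221) (nat_lit 90) (.e (nat_lit 81956) (nat_lit 23) (.e (nat_lit 98388) (nat_lit 33) (.e (nat_lit 491566) (nat_lit 12) .nil))))) .nil)))) (.nd (nat_lit 5) (.nd (nat_lit 6) 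
(.lf (nat_lit 105759) (.g (nat_lit 2274) (.e (nat_lit 4196) (nat_lit 251) (.e (nat_lit 1122) (nat_lit 83) (.e (nat_lit 16473) (nat_lit 14) (.e (nat_lit 491535) (nat_lit 2) (.e (nat_lit 90170) (nat_lit 13) .nil))))) .nil)) 
(.lf (nat_lit 105823) (.g (nat_lit 4041) (.e (nat_lit 4211) (nat_lit 251) (.e (nat_lit 1220) (nat_lit 90) (.e (nat_lit 81956) (nat_lit 23) (.e (nat_lit 98388) (nat_lit 33) (.e (nat_lit 491566) (nat_lit 12) .nil))))) .nil))) (.nd (nat_lit 6) 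
(.lf (nat_lit 105791) (.g (nat_lit 3471) (.e (nat_lit 4203) (nat_lit 251) (.e (nat_lit 1221) (nat_lit 90) (.e (nat_lit 81956) (nat_lit 23) (.e (nat_lit 98320) (nat_lit 17) .nil)))) .nil)) 
(.lf (nat_lit 105855) (.g (nat_lit 2444) (.e (nat_lit 4215) (nat_lit 251) (.e (nat_lit 1221) (nat_lit 90) (.e (nat_lit 81956) (nat_lit 23) (.e (nat_lit 98387) (nat_lit 33) .nil)))) .nil)))))))))

noncomputable def tv1444 : DT := (.nd (nat_lit 0) (.nd (nat_lit 1) (.nd (nat_lit 2) (.nd (nat_lit 3) (.nd (nat_lit 4) (.nd (nat_lit 5) (.nd (nat_lit 6) 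
(.lf (nat_lit 105856) (.g (nat_lit 3374) (.e (nat_lit 4215) (nat_lit 251) (.e (nat_lit 1221) (nat_lit 90) (.e (nat_lit 81956) (nat_lit 23) (.e (nat_lit 98388) (nat_lit 33) .nil)))) .nil)) 
(.lf (nat_lit 105920) (.g (nat_lit 1746) (.e (nat_lit 4291) (nat_lit 254) (.e (nat_lit 122916) (nat_lit 14) (.e (nat_lit 352315) (nat_lit 23) (.e (nat_lit 98388) (nat_lit 33) .nil)))) .nil))) (.nd (nat_lit 6) 
(.lf (nat_lit 105888) (.g (nat_lit 1953) (.e (nat_lit 4281) (nat_lit 253) (.e (nat_lit 57424) (nat_lit 14) (.e (nat_lit 352315) (nat_lit 23) (.e (nat_lit 98388) (nat_lit 33) .nil)))) .nil)) 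
(.lf (nat_lit 105952) (.g (nat_lit 5088) (.e (nat_lit 4411) (nat_lit 259) (.e (nat_lit 57379) (nat_lit 3) (.e (nat_lit 98373) (nat_lit 29) (.e (nat_lit 450588) (nat_lit 10) (.e (nat_lit 573475) (nat_lit 12) (.e (nat_lit 57574) (nat_lit 55) (.e (nat_lit 778455) (nat_lit 10) (.e (nat_lit 8286) (nat_lit 51) .nil)))))))) (.g (nat_lit 4) .nil .nil))))) (.nd (nat_lit 5) (.nd (nat_lit 6) 
(.lf (nat_lit 105872) (.g (nat_lit 3958) (.e (nat_lit 4255) (nat_lit 251) (.e (nat_lit 1221) (nat_lit 90) (.e (nat_lit 81956) (nat_lit 23) (.e (nat_lit 98388) (nat_lit 33) (.e (nat_lit 491566) (nat_lit 12) .nil))))) .nil)) 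
(.lf (nat_lit 105936) (.g (nat_lit 824) (.e (nat_lit 4409) (nat_lit 259) (.e (nat_lit 57445) (nat_lit 19) (.e (nat_lit 393298) (nat_lit 27) .nil))) .nil))) (.nd (nat_lit 6) 
(.lf (nat_lit 105904) (.g (nat_lit 4634) (.e (nat_lit 4288) (nat_lit 254) (.e (nat_lit 122916) (nat_lit 14) (.e (nat_lit 352315) (nat_lit 23) (.e (nat_lit 98387) (nat_lit 33) (.e (nat_lit 491566) (nat_lit 12) (.e (nat_lit 385050) (nat_lit 21) .nil)))))) (.g (nat_lit 0) .nil .nil))) 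
(.lf (nat_lit 105968) (.g (nat_lit 697) (.e (nat_lit 4413) (nat_lit 259) (.e (nat_lit 57379) (nat_lit 3) (.e (nat_lit 98373) (nat_lit 29) .nil))) .nil))))) (.nd (nat_lit 4) (.nd (nat_lit 5) (.nd (nat_lit 6) 
(.lf (nat_lit 105864) (.g (nat_lit 3040) (.e (nat_lit 4217) (nat_lit 251) (.e (nat_lit 1221) (nat_lit 90) (.e (nat_lit 81956) (nat_lit 23) (.e (nat_lit 98387) (nat_lit 33) (.e (nat_lit 491566) (nat_lit 12) .nil))))) .nil)) 
(.lf (nat_lit 105928) (.g (nat_lit 732) (.e (nat_lit 4409) (nat_lit 259) (.e (nat_lit 57375) (nat_lit 2) (.e (nat_lit 90172) (nat_lit 14) .nil))) .nil))) (.nd (nat_lit 6) 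
(.lf (nat_lit 105896) (.g (nat_lit 2051) (.e (nat_lit 4284) (nat_lit 253) (.e (nat_lit 57368) (nat_lit 1) (.e (nat_lit 57854) (nat_lit 252) (.e (nat_lit 57447) (nat_lit 19) (.e (nat_lit 401152) (nat_lit 11) .nil))))) .nil)) 
(.lf (nat_lit 105960) (.g (nat_lit 826) (.e (nat_lit 4412) (nat_lit 259) (.e (nat_lit 57378) (nat_lit 3) (.e (nat_lit 98373) (nat_lit 29) .nil))) .nil)))) (.nd (nat_lit 5) (.nd (nat_lit 6) 
(.lf (nat_lit 105880) (.g (nat_lit 1371) (.e (nat_lit 4278) (nat_lit 253) (.e (nat_lit 57592) (nat_lit 73) (.e (nat_lit 426200) (nat_lit 9) (.e (nat_lit 426354) (nat_lit 15) (.e (nat_lit 1860) (nat_lit 124) .nil))))) .nil)) 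
(.lf (nat_lit 105944) (.g (nat_lit 753) (.e (nat_lit 4411) (nat_lit 259) (.e (nat_lit 57375) (nat_lit 2) (.e (nat_lit 90176) (nat_lit 15) .nil))) .nil))) (.nd (nat_lit 6) 
(.lf (nat_lit 105912) (.g (nat_lit 3822) (.e (nat_lit 4289) (nat_lit 254) (.e (nat_lit 122916) (nat_lit 14) (.e (nat_lit 352315) (nat_lit 23) (.e (nat_lit 98387) (nat_lit 33) (.e (nat_lit 491566) (nat_lit 12) (.e (nat_lit 385046) (nat_lit 21) .nil)))))) (.g (nat_lit 0) .nil .nil))) 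
(.lf (nat_lit 105976) (.g (nat_lit 1816) (.e (nat_lit 4414) (nat_lit 259) (.e (nat_lit 57372) (nat_lit 2) (.e (nat_lit 90176) (nat_lit 15) (.e (nat_lit 188450) (nat_lit 23) (.e (nat_lit 204815) (nat_lit 17) .nil))))) .nil)))))) (.nd (nat_lit 3) (.nd (nat_lit 4) (.nd (nat_lit 5) (.nd (nat_lit 6) 
(.lf (nat_lit 105860) (.g (nat_lit 3916) (.e (nat_lit 4216) (nat_lit 251) (.e (nat_lit 1221) (nat_lit 90) (.e (nat_lit 81956) (nat_lit 23) (.e (nat_lit 98388) (nat_lit 33) (.e (nat_lit 491566) (nat_lit 12) .nil))))) .nil)) 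
(.lf (nat_lit 105924) (.g (nat_lit 1213) (.e (nat_lit 7936) (nat_lit 255) (.e (nat_lit 163902) (nat_lit 12) (.e (nat_lit 426428) (nat_lit 17) (.e (nat_lit 90174) (nat_lit 14) .nil)))) .nil))) (.nd (nat_lit 6) 
(.lf (nat_lit 105892) (.g (nat_lit 1914) (.e (nat_lit 4284) (nat_lit 253) (.e (nat_lit 57367) (nat_lit 1) (.e (nat_lit 57847) (nat_lit 252) (.e (nat_lit 57446) (nat_lit 19) .nil)))) .nil)) 
(.lf (nat_lit 105956) (.g (nat_lit 933) (.e (nat_lit 4412) (nat_lit 259) (.e (nat_lit 57373) (nat_lit 2) (.e (nat_lit 90176) (nat_lit 15) .nil))) .nil)))) (.nd (nat_lit 5) (.nd (nat_lit 6) 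
(.lf (nat_lit 105876) (.g (nat_lit 1302) (.e (nat_lit 4269) (nat_lit 251) (.e (nat_lit 2650) (nat_lit 166) (.e (nat_lit 188434) (nat_lit 20) (.e (nat_lit 3579) (nat_lit 223) .nil)))) .nil)) 
(.lf (nat_lit 105940) (.g (nat_lit 2134) (.e (nat_lit 4410) (nat_lit 259) (.e (nat_lit 57445) (nat_lit 19) (.e (nat_lit 393296) (nat_lit 26) (.e (nat_lit 475207) (nat_lit 41) (.e (nat_lit 712749) (nat_lit 28) (.e (nat_lit 434201) (nat_lit 18) .nil)))))) (.g (nat_lit 0) .nil .nil)))) (.nd (nat_lit 6) 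
(.lf (nat_lit 105908) (.g (nat_lit 2613) (.e (nat_lit 4288) (nat_lit 254) (.e (nat_lit 122919) (nat_lit 15) (.e (nat_lit 360475) (nat_lit 8) (.e (nat_lit 557086) (nat_lit 11) (.e (nat_lit 24650) (nat_lit 12) .nil))))) .nil)) 
(.lf (nat_lit 105972) (.g (nat_lit 603) (.e (nat_lit 4413) (nat_lit 259) (.e (nat_lit 57448) (nat_lit 19) (.e (nat_lit 393301) (nat_lit 27) .nil))) .nil))))) (.nd (nat_lit 4) (.nd (nat_lit 5) (.nd (nat_lit 6) 
(.lf (nat_lit 105868) (.g (nat_lit 2948) (.e (nat_lit 4255) (nat_lit 251) (.e (nat_lit 1220) (nat_lit 90) (.e (nat_lit 81956) (nat_lit 23) (.e (nat_lit 98387) (nat_lit 33) (.e (nat_lit 491566) (nat_lit 12) .nil))))) .nil)) 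
(.lf (nat_lit 105932) (.g (nat_lit 955) (.e (nat_lit 4409) (nat_lit 259) (.e (nat_lit 57379) (nat_lit 3) (.e (nat_lit 98350) (nat_lit 24) .nil))) .nil))) (.nd (nat_lit 6) 
(.lf (nat_lit 105900) (.g (nat_lit 3965) (.e (nat_lit 4284) (nat_lit 253) (.e (nat_lit 57426) (nat_lit 15) (.e (nat_lit 360466) (nat_lit 3) (.e (nat_lit 516183) (nat_lit 16) (.e (nat_lit 491566) (nat_lit 12) (.e (nat_lit 385045) (nat_lit 21) .nil)))))) (.g (nat_lit 0) .nil .nil))) 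
(.lf (nat_lit 105964) (.g (nat_lit 1394) (.e (nat_lit 4413) (nat_lit 259) (.e (nat_lit 57375) (nat_lit 2) (.e (nat_lit 90172) (nat_lit 14) (.e (nat_lit 180285) (nat_lit 45) .nil)))) .nil)))) (.nd (nat_lit 5) (.nd (nat_lit 6) 
(.lf (nat_lit 105884) (.g (nat_lit 3719) (.e (nat_lit 4280) (nat_lit 253) (.e (nat_lit 57437) (nat_lit 17) (.e (nat_lit 376869) (nat_lit 23) (.e (nat_lit 98387) (nat_lit 33) (.e (nat_lit 491566) (nat_lit 12) (.e (nat_lit 385044) (nat_lit 21) .nil)))))) (.g (nat_lit 5) .nil .nil))) 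
(.lf (nat_lit 105948) (.g (nat_lit 3559) (.e (nat_lit 4411) (nat_lit 259) (.e (nat_lit 57378) (nat_lit 3) (.e (nat_lit 98350) (nat_lit 24) (.e (nat_lit 409645) (nat_lit 18) (.e (nat_lit 303119) (nat_lit 3) .nil))))) .nil))) (.nd (nat_lit 6) 
(.lf (nat_lit 105916) (.g (nat_lit 658) (.e (nat_lit 4290) (nat_lit 254) (.e (nat_lit 122917) (nat_lit 15) (.e (nat_lit 360471) (nat_lit 7) .nil))) .nil)) 
(.lf (nat_lit 105980) (.g (nat_lit 1869) (.e (nat_lit 4414) (nat_lit 259) (.e (nat_lit 57372) (nat_lit 2) (.e (nat_lit 90176) (nat_lit 15) (.e (nat_lit 188450) (nat_lit 23) (.e (nat_lit 204885) (nat_lit 33) (.e (nat_lit 401414) (nat_lit 0) (.e (nat_lit 2423) (nat_lit 157) .nil))))))) (.g (nat_lit 4) .nil .nil)))))))) 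
(.nd (nat_lit 2) (.nd (nat_lit 3) (.nd (nat_lit 4) (.nd (nat_lit 5) (.nd (nat_lit 6) 
(.lf (nat_lit 105858) (.g (nat_lit 1514) (.e (nat_lit 4216) (nat_lit 251) (.e (nat_lit 1221) (nat_lit 90) (.e (nat_lit 81956) (nat_lit 23) (.e (nat_lit 98350) (nat_lit 24) (.e (nat_lit 409616) (nat_lit 10) .nil))))) .nil)) 
(.lf (nat_lit 105922) (.g (nat_lit 2460) (.e (nat_lit 4296) (nat_lit 255) (.e (nat_lit 163902) (nat_lit 12) (.e (nat_lit 426428) (nat_lit 17) (.e (nat_lit 90174) (nat_lit 14) (.e (nat_lit 180250) (nat_lit 10) (.e (nat_lit 573487) (nat_lit 14) (.e (nat_lit 81664) (nat_lit 0) .nil))))))) (.g (nat_lit 5) .nil .nil)))) (.nd (nat_lit 6) 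
(.lf (nat_lit 105890) (.g (nat_lit 2347) (.e (nat_lit 4282) (nat_lit 253) (.e (nat_lit 57384) (nat_lit 4) (.e (nat_lit 106536) (nat_lit 11) (.e (nat_lit 16416) (nat_lit 3) (.e (nat_lit 204868) (nat_lit 29) .nil))))) .nil)) 
(.lf (nat_lit 105954) (.g (nat_lit 2463) (.e (nat_lit 4411) (nat_lit 259) (.e (nat_lit 57448) (nat_lit 19) (.e (nat_lit 393298) (nat_lit 27) (.e (nat_lit 491570) (nat_lit 13) (.e (nat_lit 393238) (nat_lit 17) .nil))))) .nil)))) (.nd (nat_lit 5) (.nd (nat_lit 6) 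
(.lf (nat_lit 105874) (.g (nat_lit 1768) (.e (nat_lit 4269) (nat_lit 251) (.e (nat_lit 2649) (nat_lit 166) (.e (nat_lit 188434) (nat_lit 20) (.e (nat_lit 3579) (nat_lit 223) (.e (nat_lit 745476) (nat_lit 0) .nil))))) .nil)) 
(.lf (nat_lit 105938) (.g (nat_lit 2336) (.e (nat_lit 4410) (nat_lit 259) (.e (nat_lit 57375) (nat_lit 2) (.e (nat_lit 90176) (nat_lit 15) (.e (nat_lit 188450) (nat_lit 23) (.e (nat_lit 204885) (nat_lit 33) .nil))))) .nil))) (.nd (nat_lit 6) 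
(.lf (nat_lit 105906) (.g (nat_lit 2295) (.e (nat_lit 4288) (nat_lit 254) (.e (nat_lit 122916) (nat_lit 14) (.e (nat_lit 352315) (nat_lit 23) (.e (nat_lit 98388) (nat_lit 33) (.e (nat_lit 491566) (nat_lit 12) .nil))))) .nil)) 
(.lf (nat_lit 105970) (.g (nat_lit 3161) (.e (nat_lit 4413) (nat_lit 259) (.e (nat_lit 57379) (nat_lit 3) (.e (nat_lit 98373) (nat_lit 29) (.e (nat_lit 450588) (nat_lit 10) (.e (nat_lit 573471) (nat_lit 11) .nil))))) .nil))))) (.nd (nat_lit 4) (.nd (nat_lit 5) (.nd (nat_lit 6) 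
(.lf (nat_lit 105866) (.g (nat_lit 3435) (.e (nat_lit 4218) (nat_lit 251) (.e (nat_lit 1221) (nat_lit 90) (.e (nat_lit 81956) (nat_lit 23) (.e (nat_lit 98388) (nat_lit 33) .nil)))) .nil)) 
(.lf (nat_lit 105930) (.g (nat_lit 1322) (.e (nat_lit 4409) (nat_lit 259) (.e (nat_lit 57375) (nat_lit 2) (.e (nat_lit 90176) (nat_lit 15) (.e (nat_lit 188439) (nat_lit 20) .nil)))) .nil))) (.nd (nat_lit 6) 
(.lf (nat_lit 105898) (.g (nat_lit 3362) (.e (nat_lit 4284) (nat_lit 253) (.e (nat_lit 57385) (nat_lit 4) (.e (nat_lit 106536) (nat_lit 11) (.e (nat_lit 16416) (nat_lit 3) (.e (nat_lit 204868) (nat_lit 29) (.e (nat_lit 368384) (nat_lit 0) .nil)))))) (.g (nat_lit 5) .nil .nil))) 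
(.lf (nat_lit 105962) (.g (nat_lit 2053) (.e (nat_lit 4413) (nat_lit 259) (.e (nat_lit 57374) (nat_lit 2) (.e (nat_lit 90170) (nat_lit 13) (.e (nat_lit 172106) (nat_lit 10) (.e (nat_lit 434244) (nat_lit 28) .nil))))) .nil)))) (.nd (nat_lit 5) (.nd (nat_lit 6) 
(.lf (nat_lit 105882) (.g (nat_lit 3653) (.e (nat_lit 4279) (nat_lit 253) (.e (nat_lit 57426) (nat_lit 15) (.e (nat_lit 360466) (nat_lit 3) (.e (nat_lit 516183) (nat_lit 16) (.e (nat_lit 491566) (nat_lit 12) (.e (nat_lit 385045) (nat_lit 21) .nil)))))) (.g (nat_lit 6) .nil .nil))) 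
(.lf (nat_lit 105946) (.g (nat_lit 3626) (.e (nat_lit 4411) (nat_lit 259) (.e (nat_lit 57375) (nat_lit 2) (.e (nat_lit 90176) (nat_lit 15) (.e (nat_lit 188452) (nat_lit 23) (.e (nat_lit 204846) (nat_lit 24) .nil))))) .nil))) (.nd (nat_lit 6) 
(.lf (nat_lit 105914) (.g (nat_lit 628) (.e (nat_lit 4289) (nat_lit 254) (.e (nat_lit 122919) (nat_lit 15) (.e (nat_lit 360475) (nat_lit 8) .nil))) .nil)) 
(.lf (nat_lit 105978) (.g (nat_lit 2112) (.e (nat_lit 4414) (nat_lit 259) (.e (nat_lit 57372) (nat_lit 2) (.e (nat_lit 90176) (nat_lit 15) (.e (nat_lit 188450) (nat_lit 23) (.e (nat_lit 204816) (nat_lit 17) (.e (nat_lit 6714) (nat_lit 360) (.e (nat_lit 163842) (nat_lit 0) .nil))))))) (.g (nat_lit 4) .nil .nil))))))) (.nd (nat_lit 3) (.nd (nat_lit 4) (.nd (nat_lit 5) (.nd (nat_lit 6) 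
(.lf (nat_lit 105862) (.g (nat_lit 3458) (.e (nat_lit 4217) (nat_lit 251) (.e (nat_lit 1220) (nat_lit 90) (.e (nat_lit 81956) (nat_lit 23) (.e (nat_lit 98388) (nat_lit 33) .nil)))) .nil)) 
(.lf (nat_lit 105926) (.g (nat_lit 2448) (.e (nat_lit 4409) (nat_lit 259) (.e (nat_lit 57373) (nat_lit 2) (.e (nat_lit 90170) (nat_lit 13) (.e (nat_lit 172106) (nat_lit 10) (.e (nat_lit 434244) (nat_lit 28) .nil))))) .nil))) (.nd (nat_lit 6) 
(.lf (nat_lit 105894) (.g (nat_lit 1303) (.e (nat_lit 4284) (nat_lit 253) (.e (nat_lit 57368) (nat_lit 1) (.e (nat_lit 57854) (nat_lit 252) (.e (nat_lit 57446) (nat_lit 19) (.e (nat_lit 401152) (nat_lit 11) .nil))))) .nil)) 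
(.lf (nat_lit 105958) (.g (nat_lit 1555) (.e (nat_lit 4412) (nat_lit 259) (.e (nat_lit 57375) (nat_lit 2) (.e (nat_lit 90176) (nat_lit 15) (.e (nat_lit 188439) (nat_lit 20) .nil)))) .nil)))) (.nd (nat_lit 5) (.nd (nat_lit 6) 
(.lf (nat_lit 105878) (.g (nat_lit 2044) (.e (nat_lit 4278) (nat_lit 253) (.e (nat_lit 57424) (nat_lit 14) (.e (nat_lit 352315) (nat_lit 23) (.e (nat_lit 98387) (nat_lit 33) .nil)))) .nil)) 
(.lf (nat_lit 105942) (.g (nat_lit 3571) (.e (nat_lit 4411) (nat_lit 259) (.e (nat_lit 57375) (nat_lit 2) (.e (nat_lit 90170) (nat_lit 13) (.e (nat_lit 172106) (nat_lit 10) (.e (nat_lit 434244) (nat_lit 28) .nil))))) .nil))) (.nd (nat_lit 6) 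
(.lf (nat_lit 105910) (.g (nat_lit 4375) (.e (nat_lit 4289) (nat_lit 254) (.e (nat_lit 122916) (nat_lit 14) (.e (nat_lit 352315) (nat_lit 23) (.e (nat_lit 98387) (nat_lit 33) (.e (nat_lit 491566) (nat_lit 12) (.e (nat_lit 385044) (nat_lit 21) .nil)))))) (.g (nat_lit 6) .nil .nil))) 
(.lf (nat_lit 105974) (.g (nat_lit 2368) (.e (nat_lit 4414) (nat_lit 259) (.e (nat_lit 57371) (nat_lit 2) (.e (nat_lit 90176) (nat_lit 15) (.e (nat_lit 188450) (nat_lit 23) (.e (nat_lit 204885) (nat_lit 33) (.e (nat_lit 401414) (nat_lit 0) (.e (nat_lit 2424) (nat_lit 157) .nil))))))) (.g (nat_lit 4) .nil .nil)))))) (.nd (nat_lit 4) (.nd (nat_lit 5) (.nd (nat_lit 6) 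
(.lf (nat_lit 105870) (.g (nat_lit 623) (.e (nat_lit 4255) (nat_lit 251) (.e (nat_lit 1221) (nat_lit 90) (.e (nat_lit 81956) (nat_lit 23) .nil))) .nil)) 
(.lf (nat_lit 105934) (.g (nat_lit 3723) (.e (nat_lit 4409) (nat_lit 259) (.e (nat_lit 57379) (nat_lit 3) (.e (nat_lit 98373) (nat_lit 29) (.e (nat_lit 450587) (nat_lit 10) (.e (nat_lit 573477) (nat_lit 12) .nil))))) .nil))) (.nd (nat_lit 6) 
(.lf (nat_lit 105902) (.g (nat_lit 3756) (.e (nat_lit 4288) (nat_lit 254) (.e (nat_lit 122916) (nat_lit 14) (.e (nat_lit 352315) (nat_lit 23) (.e (nat_lit 98387) (nat_lit 33) (.e (nat_lit 491566) (nat_lit 12) (.e (nat_lit 385045) (nat_lit 21) .nil)))))) (.g (nat_lit 6) .nil .nil))) 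
(.lf (nat_lit 105966) (.g (nat_lit 1555) (.e (nat_lit 4413) (nat_lit 259) (.e (nat_lit 57375) (nat_lit 2) (.e (nat_lit 90176) (nat_lit 15) (.e (nat_lit 188439) (nat_lit 20) .nil)))) .nil)))) (.nd (nat_lit 5) (.nd (nat_lit 6) 
(.lf (nat_lit 105886) (.g (nat_lit 908) (.e (nat_lit 4281) (nat_lit 253) (.e (nat_lit 57424) (nat_lit 14) (.e (nat_lit 352312) (nat_lit 22) .nil))) .nil)) 
(.lf (nat_lit 105950) (.g (nat_lit 3754) (.e (nat_lit 4411) (nat_lit 259) (.e (nat_lit 57379) (nat_lit 3) (.e (nat_lit 98373) (nat_lit 29) (.e (nat_lit 450587) (nat_lit 10) (.e (nat_lit 573477) (nat_lit 12) .nil))))) .nil))) (.nd (nat_lit 6) 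
(.lf (nat_lit 105918) (.g (nat_lit 4149) (.e (nat_lit 4291) (nat_lit 254) (.e (nat_lit 122916) (nat_lit 14) (.e (nat_lit 352315) (nat_lit 23) (.e (nat_lit 98387) (nat_lit 33) (.e (nat_lit 491566) (nat_lit 12) (.e (nat_lit 385044) (nat_lit 21) .nil)))))) (.g (nat_lit 5) .nil .nil))) 
(.lf (nat_lit 105982) (.g (nat_lit 2620) (.e (nat_lit 4414) (nat_lit 259) (.e (nat_lit 57372) (nat_lit 2) (.e (nat_lit 90176) (nat_lit 15) (.e (nat_lit 188450) (nat_lit 23) (.e (nat_lit 204885) (nat_lit 33) (.e (nat_lit 401414) (nat_lit 0) (.e (nat_lit 2425) (nat_lit 157) .nil))))))) (.g (nat_lit 5) .nil .nil))))))))) 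
(.nd (nat_lit 1) (.nd (nat_lit 2) (.nd (nat_lit 3) (.nd (nat_lit 4) (.nd (nat_lit 5) 
(.nd (nat_lit 6) 
(.lf (nat_lit 105857) (.g (nat_lit 4041) (.e (nat_lit 4216) (nat_lit 251) (.e (nat_lit 1220) (nat_lit 90) (.e (nat_lit 81956) (nat_lit 23) (.e (nat_lit 98388) (nat_lit 33) (.e (nat_lit 491566) (nat_lit 12) .nil))))) .nil)) 
(.lf (nat_lit 105921) (.g (nat_lit 1371) (.e (nat_lit 4296) (nat_lit 255) (.e (nat_lit 163902) (nat_lit 12) (.e (nat_lit 426428) (nat_lit 17) (.e (nat_lit 90174) (nat_lit 14) .nil)))) .nil))) (.nd (nat_lit 6) 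
(.lf (nat_lit 105889) (.g (nat_lit 1142) (.e (nat_lit 4281) (nat_lit 253) (.e (nat_lit 57427) (nat_lit 15) (.e (nat_lit 360468) (nat_lit 3) (.e (nat_lit 516184) (nat_lit 16) .nil)))) .nil)) 
(.lf (nat_lit 105953) (.g (nat_lit 1891) (.e (nat_lit 4411) (nat_lit 259) (.e (nat_lit 57447) (nat_lit 19) (.e (nat_lit 393298) (nat_lit 27) (.e (nat_lit 491570) (nat_lit 13) .nil)))) .nil)))) (.nd (nat_lit 5) (.nd (nat_lit 6) 
(.lf (nat_lit 105873) (.g (nat_lit 1788) (.e (nat_lit 4269) (nat_lit 251) (.e (nat_lit 2649) (nat_lit 166) (.e (nat_lit 188434) (nat_lit 20) (.e (nat_lit 3579) (nat_lit 223) (.e (nat_lit 745475) (nat_lit 0) .nil))))) .nil)) 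
(.lf (nat_lit 105937) (.g (nat_lit 2571) (.e (nat_lit 4410) (nat_lit 259) (.e (nat_lit 57372) (nat_lit 2) (.e (nat_lit 90176) (nat_lit 15) (.e (nat_lit 188450) (nat_lit 23) (.e (nat_lit 204885) (nat_lit 33) .nil))))) .nil))) (.nd (nat_lit 6) 
(.lf (nat_lit 105905) (.g (nat_lit 4268) (.e (nat_lit 4288) (nat_lit 254) (.e (nat_lit 122916) (nat_lit 14) (.e (nat_lit 352315) (nat_lit 23) (.e (nat_lit 98387) (nat_lit 33) (.e (nat_lit 491566) (nat_lit 12) (.e (nat_lit 385051) (nat_lit 21) .nil)))))) (.g (nat_lit 0) .nil .nil))) 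
(.lf (nat_lit 105969) (.g (nat_lit 3505) (.e (nat_lit 4413) (nat_lit 259) (.e (nat_lit 57379) (nat_lit 3) (.e (nat_lit 98373) (nat_lit 29) (.e (nat_lit 450587) (nat_lit 10) (.e (nat_lit 573478) (nat_lit 12) .nil))))) .nil))))) (.nd (nat_lit 4) (.nd (nat_lit 5) (.nd (nat_lit 6) 
(.lf (nat_lit 105865) (.g (nat_lit 3932) (.e (nat_lit 4217) (nat_lit 251) (.e (nat_lit 1221) (nat_lit 90) (.e (nat_lit 81956) (nat_lit 23) (.e (nat_lit 98388) (nat_lit 33) (.e (nat_lit 491566) (nat_lit 12) .nil))))) .nil)) 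
(.lf (nat_lit 105929) (.g (nat_lit 705) (.e (nat_lit 4409) (nat_lit 259) (.e (nat_lit 57375) (nat_lit 2) (.e (nat_lit 90176) (nat_lit 15) .nil))) .nil))) (.nd (nat_lit 6) 
(.lf (nat_lit 105897) (.g (nat_lit 1694) (.e (nat_lit 4284) (nat_lit 253) (.e (nat_lit 57384) (nat_lit 4) (.e (nat_lit 106536) (nat_lit 11) (.e (nat_lit 16412) (nat_lit 2) .nil)))) .nil)) 
(.lf (nat_lit 105961) (.g (nat_lit 2371) (.e (nat_lit 4413) (nat_lit 259) (.e (nat_lit 57373) (nat_lit 2) (.e (nat_lit 90170) (nat_lit 13) (.e (nat_lit 172106) (nat_lit 10) (.e (nat_lit 434244) (nat_lit 28) .nil))))) .nil)))) (.nd (nat_lit 5) (.nd (nat_lit 6) 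
(.lf (nat_lit 105881) (.g (nat_lit 2044) (.e (nat_lit 4279) (nat_lit 253) (.e (nat_lit 57424) (nat_lit 14) (.e (nat_lit 352315) (nat_lit 23) (.e (nat_lit 98387) (nat_lit 33) .nil)))) .nil)) 
(.lf (nat_lit 105945) (.g (nat_lit 1555) (.e (nat_lit 4411) (nat_lit 259) (.e (nat_lit 57375) (nat_lit 2) (.e (nat_lit 90176) (nat_lit 15) (.e (nat_lit 188439) (nat_lit 20) .nil)))) .nil))) (.nd (nat_lit 6) 
(.lf (nat_lit 105913) (.g (nat_lit 2295) (.e (nat_lit 4289) (nat_lit 254) (.e (nat_lit 122916) (nat_lit 14) (.e (nat_lit 352315) (nat_lit 23) (.e (nat_lit 98388) (nat_lit 33) (.e (nat_lit 491566) (nat_lit 12) .nil))))) .nil)) 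
(.lf (nat_lit 105977) (.g (nat_lit 1826) (.e (nat_lit 4414) (nat_lit 259) (.e (nat_lit 57372) (nat_lit 2) (.e (nat_lit 90176) (nat_lit 15) (.e (nat_lit 188450) (nat_lit 23) (.e (nat_lit 204816) (nat_lit 17) .nil))))) .nil)))))) (.nd (nat_lit 3) (.nd (nat_lit 4) (.nd (nat_lit 5) (.nd (nat_lit 6) 
(.lf (nat_lit 105861) (.g (nat_lit 1336) (.e (nat_lit 4217) (nat_lit 251) (.e (nat_lit 1220) (nat_lit 90) (.e (nat_lit 81956) (nat_lit 23) (.e (nat_lit 98350) (nat_lit 24) .nil)))) .nil)) 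
(.lf (nat_lit 105925) (.g (nat_lit 695) (.e (nat_lit 7936) (nat_lit 255) (.e (nat_lit 163903) (nat_lit 12) (.e (nat_lit 426428) (nat_lit 17) .nil))) .nil))) (.nd (nat_lit 6) 
(.lf (nat_lit 105893) (.g (nat_lit 1600) (.e (nat_lit 4284) (nat_lit 253) (.e (nat_lit 57368) (nat_lit 1) (.e (nat_lit 57854) (nat_lit 252) (.e (nat_lit 57445) (nat_lit 19) (.e (nat_lit 401152) (nat_lit 11) .nil))))) .nil)) 
(.lf (nat_lit 105957) (.g (nat_lit 2457) (.e (nat_lit 4412) (nat_lit 259) (.e (nat_lit 57374) (nat_lit 2) (.e (nat_lit 90170) (nat_lit 13) (.e (nat_lit 172106) (nat_lit 10) (.e (nat_lit 434244) (nat_lit 28) .nil))))) .nil)))) (.nd (nat_lit 5) (.nd (nat_lit 6) 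
(.lf (nat_lit 105877) (.g (nat_lit 1983) (.e (nat_lit 4278) (nat_lit 253) (.e (nat_lit 57367) (nat_lit 1) (.e (nat_lit 57847) (nat_lit 252) (.e (nat_lit 57446) (nat_lit 19) .nil)))) .nil)) 
(.lf (nat_lit 105941) (.g (nat_lit 2450) (.e (nat_lit 4411) (nat_lit 259) (.e (nat_lit 57373) (nat_lit 2) (.e (nat_lit 90170) (nat_lit 13) (.e (nat_lit 172106) (nat_lit 10) (.e (nat_lit 434244) (nat_lit 28) .nil))))) .nil))) (.nd (nat_lit 6) 
(.lf (nat_lit 105909) (.g (nat_lit 4213) (.e (nat_lit 4289) (nat_lit 254) (.e (nat_lit 122916) (nat_lit 14) (.e (nat_lit 352315) (nat_lit 23) (.e (nat_lit 98387) (nat_lit 33) (.e (nat_lit 491566) (nat_lit 12) (.e (nat_lit 385043) (nat_lit 21) .nil)))))) (.g (nat_lit 0) .nil .nil))) 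
(.lf (nat_lit 105973) (.g (nat_lit 556) (.e (nat_lit 4414) (nat_lit 259) (.e (nat_lit 57371) (nat_lit 2) (.e (nat_lit 90176) (nat_lit 15) .nil))) .nil))))) (.nd (nat_lit 4) (.nd (nat_lit 5) (.nd (nat_lit 6) 
(.lf (nat_lit 105869) (.g (nat_lit 4041) (.e (nat_lit 4255) (nat_lit 251) (.e (nat_lit 1220) (nat_lit 90) (.e (nat_lit 81956) (nat_lit 23) (.e (nat_lit 98388) (nat_lit 33) (.e (nat_lit 491566) (nat_lit 12) .nil))))) .nil)) 
(.lf (nat_lit 105933) (.g (nat_lit 2394) (.e (nat_lit 4409) (nat_lit 259) (.e (nat_lit 57379) (nat_lit 3) (.e (nat_lit 98373) (nat_lit 29) (.e (nat_lit 450587) (nat_lit 10) (.e (nat_lit 573475) (nat_lit 12) .nil))))) .nil))) (.nd (nat_lit 6) 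
(.lf (nat_lit 105901) (.g (nat_lit 4462) (.e (nat_lit 4288) (nat_lit 254) (.e (nat_lit 122916) (nat_lit 14) (.e (nat_lit 352315) (nat_lit 23) (.e (nat_lit 98387) (nat_lit 33) (.e (nat_lit 491566) (nat_lit 12) (.e (nat_lit 385044) (nat_lit 21) .nil)))))) (.g (nat_lit 6) .nil .nil))) 
(.lf (nat_lit 105965) (.g (nat_lit 753) (.e (nat_lit 4413) (nat_lit 259) (.e (nat_lit 57375) (nat_lit 2) (.e (nat_lit 90176) (nat_lit 15) .nil))) .nil)))) (.nd (nat_lit 5) (.nd (nat_lit 6) 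
(.lf (nat_lit 105885) (.g (nat_lit 3297) (.e (nat_lit 4280) (nat_lit 253) (.e (nat_lit 57437) (nat_lit 17) (.e (nat_lit 376869) (nat_lit 23) (.e (nat_lit 98387) (nat_lit 33) (.e (nat_lit 491566) (nat_lit 12) (.e (nat_lit 385046) (nat_lit 21) .nil)))))) (.g (nat_lit 6) .nil .nil))) 
(.lf (nat_lit 105949) (.g (nat_lit 975) (.e (nat_lit 4411) (nat_lit 259) (.e (nat_lit 57379) (nat_lit 3) (.e (nat_lit 98350) (nat_lit 24) .nil))) .nil))) (.nd (nat_lit 6) 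
(.lf (nat_lit 105917) (.g (nat_lit 3809) (.e (nat_lit 4291) (nat_lit 254) (.e (nat_lit 122916) (nat_lit 14) (.e (nat_lit 352315) (nat_lit 23) (.e (nat_lit 98387) (nat_lit 33) (.e (nat_lit 491566) (nat_lit 12) (.e (nat_lit 385043) (nat_lit 21) .nil)))))) (.g (nat_lit 5) .nil .nil))) 
(.lf (nat_lit 105981) (.g (nat_lit 3711) (.e (nat_lit 4414) (nat_lit 259) (.e (nat_lit 57372) (nat_lit 2) (.e (nat_lit 90176) (nat_lit 15) (.e (nat_lit 188450) (nat_lit 23) (.e (nat_lit 204885) (nat_lit 33) (.e (nat_lit 401414) (nat_lit 0) (.e (nat_lit 2424) (nat_lit 157) .nil))))))) (.g (nat_lit 7) .nil .nil)))))))) 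
(.nd (nat_lit 2) (.nd (nat_lit 3) (.nd (nat_lit 4) (.nd (nat_lit 5) (.nd (nat_lit 6) 
(.lf (nat_lit 105859) (.g (nat_lit 3024) (.e (nat_lit 4216) (nat_lit 251) (.e (nat_lit 1221) (nat_lit 90) (.e (nat_lit 81956) (nat_lit 23) (.e (nat_lit 98387) (nat_lit 33) (.e (nat_lit 491566) (nat_lit 12) .nil))))) .nil)) 
(.lf (nat_lit 105923) (.g (nat_lit 2132) (.e (nat_lit 4296) (nat_lit 255) (.e (nat_lit 163902) (nat_lit 12) (.e (nat_lit 426428) (nat_lit 17) (.e (nat_lit 90174) (nat_lit 14) (.e (nat_lit 180250) (nat_lit 10) (.e (nat_lit 573489) (nat_lit 14) (.e (nat_lit 73728) (nat_lit 0) .nil))))))) (.g (nat_lit 4) .nil .nil)))) (.nd (nat_lit 6) 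
(.lf (nat_lit 105891) (.g (nat_lit 1981) (.e (nat_lit 4282) (nat_lit 253) (.e (nat_lit 57426) (nat_lit 15) (.e (nat_lit 360475) (nat_lit 8) (.e (nat_lit 557086) (nat_lit 11) .nil)))) .nil)) 
(.lf (nat_lit 105955) (.g (nat_lit 2448) (.e (nat_lit 4412) (nat_lit 259) (.e (nat_lit 57373) (nat_lit 2) (.e (nat_lit 90170) (nat_lit 13) (.e (nat_lit 172106) (nat_lit 10) (.e (nat_lit 434244) (nat_lit 28) .nil))))) .nil)))) (.nd (nat_lit 5) (.nd (nat_lit 6) 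
(.lf (nat_lit 105875) (.g (nat_lit 540) (.e (nat_lit 4269) (nat_lit 251) (.e (nat_lit 2650) (nat_lit 166) (.e (nat_lit 188434) (nat_lit 20) .nil))) .nil)) 
(.lf (nat_lit 105939) (.g (nat_lit 827) (.e (nat_lit 4410) (nat_lit 259) (.e (nat_lit 57445) (nat_lit 19) (.e (nat_lit 393273) (nat_lit 23) .nil))) .nil))) (.nd (nat_lit 6) 
(.lf (nat_lit 105907) (.g (nat_lit 585) (.e (nat_lit 4288) (nat_lit 254) (.e (nat_lit 122919) (nat_lit 15) (.e (nat_lit 360475) (nat_lit 8) .nil))) .nil)) 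
(.lf (nat_lit 105971) (.g (nat_lit 4918) (.e (nat_lit 4413) (nat_lit 259) (.e (nat_lit 57379) (nat_lit 3) (.e (nat_lit 98373) (nat_lit 29) (.e (nat_lit 450588) (nat_lit 10) (.e (nat_lit 573475) (nat_lit 12) .nil))))) .nil))))) (.nd (nat_lit 4) (.nd (nat_lit 5) (.nd (nat_lit 6) 
(.lf (nat_lit 105867) (.g (nat_lit 3302) (.e (nat_lit 4218) (nat_lit 251) (.e (nat_lit 1221) (nat_lit 90) (.e (nat_lit 81956) (nat_lit 23) (.e (nat_lit 98389) (nat_lit 33) .nil)))) .nil)) 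
(.lf (nat_lit 105931) (.g (nat_lit 3391) (.e (nat_lit 4409) (nat_lit 259) (.e (nat_lit 57375) (nat_lit 2) (.e (nat_lit 90176) (nat_lit 15) (.e (nat_lit 188452) (nat_lit 23) (.e (nat_lit 204846) (nat_lit 24) .nil))))) .nil))) (.nd (nat_lit 6) 
(.lf (nat_lit 105899) (.g (nat_lit 823) (.e (nat_lit 4284) (nat_lit 253) (.e (nat_lit 57411) (nat_lit 12) (.e (nat_lit 336182) (nat_lit 11) .nil))) .nil)) 
(.lf (nat_lit 105963) (.g (nat_lit 3550) (.e (nat_lit 4413) (nat_lit 259) (.e (nat_lit 57375) (nat_lit 2) (.e (nat_lit 90170) (nat_lit 13) (.e (nat_lit 172106) (nat_lit 10) (.e (nat_lit 434244) (nat_lit 28) .nil))))) .nil)))) (.nd (nat_lit 5) (.nd (nat_lit 6) 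
(.lf (nat_lit 105883) (.g (nat_lit 2044) (.e (nat_lit 4280) (nat_lit 253) (.e (nat_lit 57424) (nat_lit 14) (.e (nat_lit 352315) (nat_lit 23) (.e (nat_lit 98387) (nat_lit 33) .nil)))) .nil)) 
(.lf (nat_lit 105947) (.g (nat_lit 882) (.e (nat_lit 4411) (nat_lit 259) (.e (nat_lit 57378) (nat_lit 3) (.e (nat_lit 98350) (nat_lit 24) .nil))) .nil))) (.nd (nat_lit 6) 
(.lf (nat_lit 105915) (.g (nat_lit 4011) (.e (nat_lit 4290) (nat_lit 254) (.e (nat_lit 122917) (nat_lit 15) (.e (nat_lit 360466) (nat_lit 3) (.e (nat_lit 516183) (nat_lit 16) (.e (nat_lit 491566) (nat_lit 12) (.e (nat_lit 385045) (nat_lit 21) .nil)))))) (.g (nat_lit 6) .nil .nil))) 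
(.lf (nat_lit 105979) (.g (nat_lit 1858) (.e (nat_lit 4414) (nat_lit 259) (.e (nat_lit 57372) (nat_lit 2) (.e (nat_lit 90176) (nat_lit 15) (.e (nat_lit 188450) (nat_lit 23) (.e (nat_lit 204885) (nat_lit 33) .nil))))) .nil)))))) (.nd (nat_lit 3) (.nd (nat_lit 4) (.nd (nat_lit 5) (.nd (nat_lit 6) 
(.lf (nat_lit 105863) (.g (nat_lit 1530) (.e (nat_lit 4217) (nat_lit 251) (.e (nat_lit 1221) (nat_lit 90) (.e (nat_lit 81956) (nat_lit 23) (.e (nat_lit 98350) (nat_lit 24) (.e (nat_lit 409616) (nat_lit 10) .nil))))) .nil)) 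
(.lf (nat_lit 105927) (.g (nat_lit 2475) (.e (nat_lit 4409) (nat_lit 259) (.e (nat_lit 57374) (nat_lit 2) (.e (nat_lit 90170) (nat_lit 13) (.e (nat_lit 172106) (nat_lit 10) (.e (nat_lit 434244) (nat_lit 28) .nil))))) .nil))) (.nd (nat_lit 6) 
(.lf (nat_lit 105895) (.g (nat_lit 1277) (.e (nat_lit 4284) (nat_lit 253) (.e (nat_lit 57368) (nat_lit 1) (.e (nat_lit 57854) (nat_lit 252) (.e (nat_lit 57447) (nat_lit 19) .nil)))) .nil)) 
(.lf (nat_lit 105959) (.g (nat_lit 2336) (.e (nat_lit 4412) (nat_lit 259) (.e (nat_lit 57375) (nat_lit 2) (.e (nat_lit 90176) (nat_lit 15) (.e (nat_lit 188450) (nat_lit 23) (.e (nat_lit 204885) (nat_lit 33) .nil))))) .nil)))) (.nd (nat_lit 5) (.nd (nat_lit 6) 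
(.lf (nat_lit 105879) (.g (nat_lit 2148) (.e (nat_lit 4278) (nat_lit 253) (.e (nat_lit 57427) (nat_lit 15) (.e (nat_lit 360475) (nat_lit 8) (.e (nat_lit 557086) (nat_lit 11) .nil)))) .nil)) 
(.lf (nat_lit 105943) (.g (nat_lit 770) (.e (nat_lit 4411) (nat_lit 259) (.e (nat_lit 57375) (nat_lit 2) (.e (nat_lit 90172) (nat_lit 14) .nil))) .nil))) (.nd (nat_lit 6) 
(.lf (nat_lit 105911) (.g (nat_lit 3890) (.e (nat_lit 4289) (nat_lit 254) (.e (nat_lit 122916) (nat_lit 14) (.e (nat_lit 352315) (nat_lit 23) (.e (nat_lit 98387) (nat_lit 33) (.e (nat_lit 491566) (nat_lit 12) (.e (nat_lit 385045) (nat_lit 21) .nil)))))) (.g (nat_lit 0) .nil .nil))) 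
(.lf (nat_lit 105975) (.g (nat_lit 463) (.e (nat_lit 4414) (nat_lit 259) (.e (nat_lit 57372) (nat_lit 2) (.e (nat_lit 90176) (nat_lit 15) .nil))) .nil))))) (.nd (nat_lit 4) (.nd (nat_lit 5) (.nd (nat_lit 6) 
(.lf (nat_lit 105871) (.g (nat_lit 3066) (.e (nat_lit 4255) (nat_lit 251) (.e (nat_lit 1221) (nat_lit 90) (.e (nat_lit 81956) (nat_lit 23) (.e (nat_lit 98387) (nat_lit 33) (.e (nat_lit 491566) (nat_lit 12) .nil))))) .nil)) 
(.lf (nat_lit 105935) (.g (nat_lit 4990) (.e (nat_lit 4409) (nat_lit 259) (.e (nat_lit 57379) (nat_lit 3) (.e (nat_lit 98373) (nat_lit 29) (.e (nat_lit 450588) (nat_lit 10) (.e (nat_lit 573475) (nat_lit 12) .nil))))) .nil))) (.nd (nat_lit 6) 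
(.lf (nat_lit 105903) (.g (nat_lit 3811) (.e (nat_lit 4288) (nat_lit 254) (.e (nat_lit 122916) (nat_lit 14) (.e (nat_lit 352315) (nat_lit 23) (.e (nat_lit 98387) (nat_lit 33) (.e (nat_lit 491566) (nat_lit 12) (.e (nat_lit 385046) (nat_lit 21) .nil)))))) (.g (nat_lit 0) .nil .nil))) 
(.lf (nat_lit 105967) (.g (nat_lit 747) (.e (nat_lit 4413) (nat_lit 259) (.e (nat_lit 57379) (nat_lit 3) (.e (nat_lit 98372) (nat_lit 29) .nil))) .nil)))) (.nd (nat_lit 5) (.nd (nat_lit 6) 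
(.lf (nat_lit 105887) (.g (nat_lit 912) (.e (nat_lit 4281) (nat_lit 253) (.e (nat_lit 57424) (nat_lit 14) (.e (nat_lit 352315) (nat_lit 23) .nil))) .nil)) 
(.lf (nat_lit 105951) (.g (nat_lit 5021) (.e (nat_lit 4411) (nat_lit 259) (.e (nat_lit 57379) (nat_lit 3) (.e (nat_lit 98373) (nat_lit 29) (.e (nat_lit 450588) (nat_lit 10) (.e (nat_lit 573475) (nat_lit 12) .nil))))) .nil))) (.nd (nat_lit 6) 
(.lf (nat_lit 105919) (.g (nat_lit 3853) (.e (nat_lit 4291) (nat_lit 254) (.e (nat_lit 122916) (nat_lit 14) (.e (nat_lit 352315) (nat_lit 23) (.e (nat_lit 98387) (nat_lit 33) (.e (nat_lit 491566) (nat_lit 12) (.e (nat_lit 385045) (nat_lit 21) .nil)))))) (.g (nat_lit 0) .nil .nil))) 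
(.lf (nat_lit 105983) (.g (nat_lit 1549) (.e (nat_lit 4414) (nat_lit 259) (.e (nat_lit 57372) (nat_lit 2) (.e (nat_lit 90176) (nat_lit 15) (.e (nat_lit 188452) (nat_lit 23) .nil)))) .nil)))))))))

noncomputable def tv1445 : DT := (.nd (nat_lit 0) (.nd (nat_lit 1) (.nd (nat_lit 2) (.nd (nat_lit 3) (.nd (nat_lit 4) (.nd (nat_lit 5) (.nd (nat_lit 6) 
(.lf (nat_lit 105984) (.g (nat_lit 1524) (.e (nat_lit 4414) (nat_lit 259) (.e (nat_lit 57375) (nat_lit 2) (.e (nat_lit 90176) (nat_lit 15) (.e (nat_lit 188439) (nat_lit 20) .nil)))) .nil)) 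
(.lf (nat_lit 106048) (.g (nat_lit 1403) (.e (nat_lit 4447) (nat_lit 263) (.e (nat_lit 1220) (nat_lit 90) (.e (nat_lit 81965) (nat_lit 26) (.e (nat_lit 147463) (nat_lit 9) (.e (nat_lit 249) (nat_lit 21) .nil))))) .nil))) (.nd (nat_lit 6) 
(.lf (nat_lit 106016) (.g (nat_lit 540) (.e (nat_lit 4439) (nat_lit 263) (.e (nat_lit 1220) (nat_lit 90) (.e (nat_lit 81965) (nat_lit 26) .nil))) .nil)) 
(.lf (nat_lit 106080) (.g (nat_lit 2042) (.e (nat_lit 4490) (nat_lit 263) (.e (nat_lit 1294) (nat_lit 96) (.e (nat_lit 131094) (nat_lit 2) (.e (nat_lit 90176) (nat_lit 15) (.e (nat_lit 188450) (nat_lit 23) (.e (nat_lit 204815) (nat_lit 17) (.e (nat_lit 979) (nat_lit 81) .nil))))))) (.g (nat_lit 6) .nil .nil))))) (.nd (nat_lit 5) (.nd (nat_lit 6) 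
(.lf (nat_lit 106000) (.g (nat_lit 3239) (.e (nat_lit 4421) (nat_lit 261) (.e (nat_lit 163870) (nat_lit 2) (.e (nat_lit 196666) (nat_lit 13) (.e (nat_lit 65610) (nat_lit 10) (.e (nat_lit 344129) (nat_lit 26) (.e (nat_lit 557087) (nat_lit 11) (.e (nat_lit 24584) (nat_lit 0) (.e (nat_lit 970) (nat_lit 81) .nil)))))))) (.g (nat_lit 6) .nil .nil))) 
(.lf (nat_lit 106064) (.g (nat_lit 2313) (.e (nat_lit 4484) (nat_lit 263) (.e (nat_lit 1197) (nat_lit 88) (.e (nat_lit 65630) (nat_lit 14) (.e (nat_lit 401454) (nat_lit 12) (.e (nat_lit 475193) (nat_lit 38) .nil))))) .nil))) (.nd (nat_lit 6) 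
(.lf (nat_lit 106032) (.g (nat_lit 1855) (.e (nat_lit 4442) (nat_lit 263) (.e (nat_lit 1296) (nat_lit 96) (.e (nat_lit 131091) (nat_lit 2) (.e (nat_lit 90185) (nat_lit 17) (.e (nat_lit 237605) (nat_lit 9) .nil))))) .nil)) 
(.lf (nat_lit 106096) (.g (nat_lit 3565) (.e (nat_lit 4491) (nat_lit 263) (.e (nat_lit 1190) (nat_lit 88) (.e (nat_lit 65571) (nat_lit 3) (.e (nat_lit 98372) (nat_lit 29) (.e (nat_lit 450579) (nat_lit 5) (.e (nat_lit 532484) (nat_lit 0) (.e (nat_lit 7936) (nat_lit 81) .nil))))))) (.g (nat_lit 6) .nil .nil)))))) (.nd (nat_lit 4) (.nd (nat_lit 5) (.nd (nat_lit 6) 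
(.lf (nat_lit 105992) (.g (nat_lit 3067) (.e (nat_lit 4414) (nat_lit 259) (.e (nat_lit 57375) (nat_lit 2) (.e (nat_lit 90176) (nat_lit 15) (.e (nat_lit 188450) (nat_lit 23) (.e (nat_lit 204885) (nat_lit 33) (.e (nat_lit 401414) (nat_lit 0) (.e (nat_lit 2425) (nat_lit 157) .nil))))))) (.g (nat_lit 5) .nil .nil))) 
(.lf (nat_lit 106056) (.g (nat_lit 2400) (.e (nat_lit 4460) (nat_lit 263) (.e (nat_lit 2515) (nat_lit 157) (.e (nat_lit 2856) (nat_lit 184) (.e (nat_lit 426472) (nat_lit 25) (.e (nat_lit 319531) (nat_lit 16) (.e (nat_lit 286748) (nat_lit 9) (.e (nat_lit 336389) (nat_lit 27) (.e (nat_lit 426012) (nat_lit 0) (.e (nat_lit 2412) (nat_lit 157) .nil))))))))) (.g (nat_lit 6) .nil .nil)))) 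
(.nd (nat_lit 6) 
(.lf (nat_lit 106024) (.g (nat_lit 2342) (.e (nat_lit 4439) (nat_lit 263) (.e (nat_lit 1221) (nat_lit 90) (.e (nat_lit 81965) (nat_lit 26) (.e (nat_lit 147496) (nat_lit 11) (.e (nat_lit 24648) (nat_lit 12) .nil))))) .nil)) 
(.lf (nat_lit 106088) (.g (nat_lit 4790) (.e (nat_lit 4491) (nat_lit 263) (.e (nat_lit 1190) (nat_lit 88) (.e (nat_lit 65568) (nat_lit 2) (.e (nat_lit 90170) (nat_lit 13) (.e (nat_lit 172106) (nat_lit 10) (.e (nat_lit 434231) (nat_lit 23) (.e (nat_lit 532482) (nat_lit 0) (.e (nat_lit 971) (nat_lit 81) .nil)))))))) (.g (nat_lit 8) .nil .nil))))) (.nd (nat_lit 5) (.nd (nat_lit 6) 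
(.lf (nat_lit 106008) (.g (nat_lit 1710) (.e (nat_lit 4433) (nat_lit 263) (.e (nat_lit 1296) (nat_lit 96) (.e (nat_lit 131091) (nat_lit 2) (.e (nat_lit 90185) (nat_lit 17) (.e (nat_lit 237605) (nat_lit 9) .nil))))) .nil)) 
(.lf (nat_lit 106072) (.g (nat_lit 1354) (.e (nat_lit 4490) (nat_lit 263) (.e (nat_lit 1190) (nat_lit 88) (.e (nat_lit 65627) (nat_lit 13) (.e (nat_lit 393297) (nat_lit 27) .nil)))) .nil))) (.nd (nat_lit 6) 
(.lf (nat_lit 106040) (.g (nat_lit 2425) (.e (nat_lit 4443) (nat_lit 263) (.e (nat_lit 1296) (nat_lit 96) (.e (nat_lit 131094) (nat_lit 2) (.e (nat_lit 90176) (nat_lit 15) (.e (nat_lit 188450) (nat_lit 23) (.e (nat_lit 204817) (nat_lit 17) (.e (nat_lit 7936) (nat_lit 81) .nil))))))) (.g (nat_lit 5) .nil .nil))) 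
(.lf (nat_lit 106104) (.g (nat_lit 2418) (.e (nat_lit 4491) (nat_lit 263) (.e (nat_lit 1221) (nat_lit 90) (.e (nat_lit 81965) (nat_lit 26) (.e (nat_lit 147496) (nat_lit 11) (.e (nat_lit 24647) (nat_lit 12) .nil))))) .nil)))))) (.nd (nat_lit 3) (.nd (nat_lit 4) (.nd (nat_lit 5) (.nd (nat_lit 6) 
(.lf (nat_lit 105988) (.g (nat_lit 2559) (.e (nat_lit 4414) (nat_lit 259) (.e (nat_lit 57375) (nat_lit 2) (.e (nat_lit 90176) (nat_lit 15) (.e (nat_lit 188450) (nat_lit 23) (.e (nat_lit 204816) (nat_lit 17) (.e (nat_lit 6714) (nat_lit 360) (.e (nat_lit 163842) (nat_lit 0) .nil))))))) (.g (nat_lit 4) .nil .nil))) 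
(.lf (nat_lit 106052) (.g (nat_lit 2563) (.e (nat_lit 4447) (nat_lit 263) (.e (nat_lit 1220) (nat_lit 90) (.e (nat_lit 81965) (nat_lit 26) (.e (nat_lit 147496) (nat_lit 11) (.e (nat_lit 24648) (nat_lit 12) .nil))))) .nil))) (.nd (nat_lit 6) 
(.lf (nat_lit 106020) (.g (nat_lit 1105) (.e (nat_lit 4439) (nat_lit 263) (.e (nat_lit 1221) (nat_lit 90) (.e (nat_lit 81965) (nat_lit 26) (.e (nat_lit 147492) (nat_lit 11) .nil)))) .nil)) 
(.lf (nat_lit 106084) (.g (nat_lit 3449) (.e (nat_lit 4491) (nat_lit 263) (.e (nat_lit 1190) (nat_lit 88) (.e (nat_lit 65566) (nat_lit 2) (.e (nat_lit 90170) (nat_lit 13) (.e (nat_lit 172106) (nat_lit 10) (.e (nat_lit 434244) (nat_lit 28) (.e (nat_lit 573468) (nat_lit 10) (.e (nat_lit 8196) (nat_lit 0) .nil)))))))) (.g (nat_lit 7) .nil .nil))))) (.nd (nat_lit 5) (.nd (nat_lit 6) 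
(.lf (nat_lit 106004) (.g (nat_lit 3389) (.e (nat_lit 4425) (nat_lit 261) (.e (nat_lit 163869) (nat_lit 2) (.e (nat_lit 196666) (nat_lit 13) (.e (nat_lit 65617) (nat_lit 10) (.e (nat_lit 344130) (nat_lit 26) .nil))))) .nil)) 
(.lf (nat_lit 106068) (.g (nat_lit 3651) (.e (nat_lit 4490) (nat_lit 263) (.e (nat_lit 1190) (nat_lit 88) (.e (nat_lit 65568) (nat_lit 2) (.e (nat_lit 90170) (nat_lit 13) (.e (nat_lit 172106) (nat_lit 10) (.e (nat_lit 434231) (nat_lit 23) (.e (nat_lit 532482) (nat_lit 0) (.e (nat_lit 981) (nat_lit 81) .nil)))))))) (.g (nat_lit 6) .nil .nil)))) (.nd (nat_lit 6) 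
(.lf (nat_lit 106036) (.g (nat_lit 1782) (.e (nat_lit 4442) (nat_lit 263) (.e (nat_lit 1296) (nat_lit 96) (.e (nat_lit 131094) (nat_lit 2) (.e (nat_lit 90185) (nat_lit 17) (.e (nat_lit 237605) (nat_lit 9) .nil))))) .nil)) 
(.lf (nat_lit 106100) (.g (nat_lit 432) (.e (nat_lit 4491) (nat_lit 263) (.e (nat_lit 1221) (nat_lit 90) (.e (nat_lit 81965) (nat_lit 26) .nil))) .nil))))) (.nd (nat_lit 4) (.nd (nat_lit 5) (.nd (nat_lit 6) 
(.lf (nat_lit 105996) (.g (nat_lit 552) (.e (nat_lit 4415) (nat_lit 259) (.e (nat_lit 57445) (nat_lit 19) (.e (nat_lit 393296) (nat_lit 26) .nil))) .nil)) 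
(.lf (nat_lit 106060) (.g (nat_lit 2669) (.e (nat_lit 4468) (nat_lit 263) (.e (nat_lit 1179) (nat_lit 87) (.e (nat_lit 57479) (nat_lit 28) (.e (nat_lit 557109) (nat_lit 15) (.e (nat_lit 196352) (nat_lit 19) .nil))))) .nil))) (.nd (nat_lit 6) 
(.lf (nat_lit 106028) (.g (nat_lit 1710) (.e (nat_lit 4440) (nat_lit 263) (.e (nat_lit 1296) (nat_lit 96) (.e (nat_lit 131091) (nat_lit 2) (.e (nat_lit 90185) (nat_lit 17) (.e (nat_lit 237605) (nat_lit 9) .nil))))) .nil)) 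
(.lf (nat_lit 106092) (.g (nat_lit 434) (.e (nat_lit 4491) (nat_lit 263) (.e (nat_lit 1190) (nat_lit 88) (.e (nat_lit 65571) (nat_lit 3) .nil))) .nil)))) (.nd (nat_lit 5) (.nd (nat_lit 6) 
(.lf (nat_lit 106012) (.g (nat_lit 2509) (.e (nat_lit 4435) (nat_lit 263) (.e (nat_lit 1296) (nat_lit 96) (.e (nat_lit 131091) (nat_lit 2) (.e (nat_lit 90176) (nat_lit 15) (.e (nat_lit 188450) (nat_lit 23) (.e (nat_lit 204821) (nat_lit 17) (.e (nat_lit 991) (nat_lit 81) .nil))))))) (.g (nat_lit 5) .nil .nil))) 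
(.lf (nat_lit 106076) (.g (nat_lit 1465) (.e (nat_lit 4490) (nat_lit 263) (.e (nat_lit 1220) (nat_lit 90) (.e (nat_lit 81965) (nat_lit 26) (.e (nat_lit 147495) (nat_lit 11) .nil)))) .nil))) (.nd (nat_lit 6) 
(.lf (nat_lit 106044) (.g (nat_lit 2733) (.e (nat_lit 4444) (nat_lit 263) (.e (nat_lit 1296) (nat_lit 96) (.e (nat_lit 131091) (nat_lit 2) (.e (nat_lit 90176) (nat_lit 15) (.e (nat_lit 188450) (nat_lit 23) (.e (nat_lit 204817) (nat_lit 17) (.e (nat_lit 7936) (nat_lit 81) .nil))))))) (.g (nat_lit 6) .nil .nil))) 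
(.lf (nat_lit 106108) (.g (nat_lit 1200) (.e (nat_lit 4492) (nat_lit 263) (.e (nat_lit 1220) (nat_lit 90) (.e (nat_lit 81965) (nat_lit 26) (.e (nat_lit 147463) (nat_lit 9) .nil)))) .nil))))))) (.nd (nat_lit 2) (.nd (nat_lit 3) (.nd (nat_lit 4) (.nd (nat_lit 5) (.nd (nat_lit 6) 
(.lf (nat_lit 105986) (.g (nat_lit 2311) (.e (nat_lit 4414) (nat_lit 259) (.e (nat_lit 57375) (nat_lit 2) (.e (nat_lit 90176) (nat_lit 15) (.e (nat_lit 188450) (nat_lit 23) (.e (nat_lit 204815) (nat_lit 17) .nil))))) .nil)) 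
(.lf (nat_lit 106050) (.g (nat_lit 1628) (.e (nat_lit 4447) (nat_lit 263) (.e (nat_lit 1220) (nat_lit 90) (.e (nat_lit 81965) (nat_lit 26) (.e (nat_lit 147492) (nat_lit 11) (.e (nat_lit 24653) (nat_lit 12) .nil))))) .nil))) (.nd (nat_lit 6) 
(.lf (nat_lit 106018) (.g (nat_lit 1484) (.e (nat_lit 4439) (nat_lit 263) (.e (nat_lit 1220) (nat_lit 90) (.e (nat_lit 81965) (nat_lit 26) (.e (nat_lit 147495) (nat_lit 11) .nil)))) .nil)) 
(.lf (nat_lit 106082) (.g (nat_lit 3515) (.e (nat_lit 4491) (nat_lit 263) (.e (nat_lit 1190) (nat_lit 88) (.e (nat_lit 65566) (nat_lit 2) (.e (nat_lit 90170) (nat_lit 13) (.e (nat_lit 172106) (nat_lit 10) (.e (nat_lit 434231) (nat_lit 23) (.e (nat_lit 532486) (nat_lit 0) (.e (nat_lit 973) (nat_lit 81) .nil)))))))) (.g (nat_lit 8) .nil .nil))))) (.nd (nat_lit 5) (.nd (nat_lit 6) 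
(.lf (nat_lit 106002) (.g (nat_lit 3699) (.e (nat_lit 4423) (nat_lit 261) (.e (nat_lit 163875) (nat_lit 3) (.e (nat_lit 204846) (nat_lit 24) (.e (nat_lit 319530) (nat_lit 16) (.e (nat_lit 286735) (nat_lit 3) .nil))))) .nil)) 
(.lf (nat_lit 106066) (.g (nat_lit 5236) (.e (nat_lit 4490) (nat_lit 263) (.e (nat_lit 1190) (nat_lit 88) (.e (nat_lit 65568) (nat_lit 2) (.e (nat_lit 90170) (nat_lit 13) (.e (nat_lit 172106) (nat_lit 10) (.e (nat_lit 434231) (nat_lit 23) (.e (nat_lit 532481) (nat_lit 0) (.e (nat_lit 979) (nat_lit 81) .nil)))))))) (.g (nat_lit 7) .nil .nil)))) (.nd (nat_lit 6) 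
(.lf (nat_lit 106034) (.g (nat_lit 1571) (.e (nat_lit 4442) (nat_lit 263) (.e (nat_lit 1296) (nat_lit 96) (.e (nat_lit 131094) (nat_lit 2) (.e (nat_lit 90176) (nat_lit 15) (.e (nat_lit 188450) (nat_lit 23) (.e (nat_lit 204817) (nat_lit 17) (.e (nat_lit 996) (nat_lit 81) .nil))))))) (.g (nat_lit 4) .nil .nil))) 
(.lf (nat_lit 106098) (.g (nat_lit 415) (.e (nat_lit 4491) (nat_lit 263) (.e (nat_lit 1219) (nat_lit 90) (.e (nat_lit 81963) (nat_lit 26) .nil))) .nil))))) (.nd (nat_lit 4) (.nd (nat_lit 5) (.nd (nat_lit 6) 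
(.lf (nat_lit 105994) (.g (nat_lit 825) (.e (nat_lit 4414) (nat_lit 259) (.e (nat_lit 57445) (nat_lit 19) (.e (nat_lit 393273) (nat_lit 23) .nil))) .nil)) 
(.lf (nat_lit 106058) (.g (nat_lit 2165) (.e (nat_lit 4462) (nat_lit 263) (.e (nat_lit 2515) (nat_lit 157) (.e (nat_lit 2856) (nat_lit 184) (.e (nat_lit 426472) (nat_lit 25) (.e (nat_lit 319531) (nat_lit 16) (.e (nat_lit 286748) (nat_lit 9) (.e (nat_lit 336389) (nat_lit 27) (.e (nat_lit 426012) (nat_lit 0) (.e (nat_lit 2412) (nat_lit 157) .nil))))))))) (.g (nat_lit 5) .nil .nil)))) 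
(.nd (nat_lit 6) 
(.lf (nat_lit 106026) (.g (nat_lit 642) (.e (nat_lit 4439) (nat_lit 263) (.e (nat_lit 1296) (nat_lit 96) (.e (nat_lit 131091) (nat_lit 2) .nil))) .nil)) 
(.lf (nat_lit 106090) (.g (nat_lit 4019) (.e (nat_lit 4491) (nat_lit 263) (.e (nat_lit 1190) (nat_lit 88) (.e (nat_lit 65568) (nat_lit 2) (.e (nat_lit 90170) (nat_lit 13) (.e (nat_lit 172106) (nat_lit 10) (.e (nat_lit 434231) (nat_lit 23) (.e (nat_lit 532490) (nat_lit 0) (.e (nat_lit 7936) (nat_lit 81) .nil)))))))) (.g (nat_lit 7) .nil .nil))))) (.nd (nat_lit 5) (.nd (nat_lit 6) 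
(.lf (nat_lit 106010) (.g (nat_lit 1494) (.e (nat_lit 4433) (nat_lit 263) (.e (nat_lit 1296) (nat_lit 96) (.e (nat_lit 131094) (nat_lit 2) (.e (nat_lit 90176) (nat_lit 15) (.e (nat_lit 188450) (nat_lit 23) (.e (nat_lit 204821) (nat_lit 17) (.e (nat_lit 7936) (nat_lit 81) .nil))))))) (.g (nat_lit 4) .nil .nil))) 
(.lf (nat_lit 106074) (.g (nat_lit 2303) (.e (nat_lit 4490) (nat_lit 263) (.e (nat_lit 1209) (nat_lit 89) (.e (nat_lit 73747) (nat_lit 3) (.e (nat_lit 516163) (nat_lit 11) (.e (nat_lit 442427) (nat_lit 23) .nil))))) .nil))) (.nd (nat_lit 6) 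
(.lf (nat_lit 106042) (.g (nat_lit 659) (.e (nat_lit 4444) (nat_lit 263) (.e (nat_lit 1296) (nat_lit 96) (.e (nat_lit 131091) (nat_lit 2) .nil))) .nil)) 
(.lf (nat_lit 106106) (.g (nat_lit 2498) (.e (nat_lit 4492) (nat_lit 263) (.e (nat_lit 1209) (nat_lit 89) (.e (nat_lit 73747) (nat_lit 3) (.e (nat_lit 516176) (nat_lit 14) (.e (nat_lit 466976) (nat_lit 22) .nil))))) .nil)))))) (.nd (nat_lit 3) (.nd (nat_lit 4) (.nd (nat_lit 5) (.nd (nat_lit 6) 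
(.lf (nat_lit 105990) (.g (nat_lit 2316) (.e (nat_lit 4414) (nat_lit 259) (.e (nat_lit 57375) (nat_lit 2) (.e (nat_lit 90176) (nat_lit 15) (.e (nat_lit 188450) (nat_lit 23) (.e (nat_lit 204885) (nat_lit 33) (.e (nat_lit 401414) (nat_lit 0) (.e (nat_lit 2423) (nat_lit 157) .nil))))))) (.g (nat_lit 4) .nil .nil))) 
(.lf (nat_lit 106054) (.g (nat_lit 4748) (.e (nat_lit 4460) (nat_lit 263) (.e (nat_lit 1079) (nat_lit 81) (.e (nat_lit 1448) (nat_lit 108) (.e (nat_lit 336013) (nat_lit 2) (.e (nat_lit 90170) (nat_lit 13) (.e (nat_lit 172106) (nat_lit 10) (.e (nat_lit 434231) (nat_lit 23) (.e (nat_lit 532483) (nat_lit 0) (.e (nat_lit 982) (nat_lit 81) .nil))))))))) (.g (nat_lit 8) .nil .nil)))) (.nd (nat_lit 6) 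
(.lf (nat_lit 106022) (.g (nat_lit 1347) (.e (nat_lit 4439) (nat_lit 263) (.e (nat_lit 1221) (nat_lit 90) (.e (nat_lit 81965) (nat_lit 26) (.e (nat_lit 147493) (nat_lit 11) .nil)))) .nil)) 
(.lf (nat_lit 106086) (.g (nat_lit 1845) (.e (nat_lit 4491) (nat_lit 263) (.e (nat_lit 1190) (nat_lit 88) (.e (nat_lit 65568) (nat_lit 2) (.e (nat_lit 90170) (nat_lit 13) (.e (nat_lit 172106) (nat_lit 10) .nil))))) .nil)))) (.nd (nat_lit 5) (.nd (nat_lit 6) 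
(.lf (nat_lit 106006) (.g (nat_lit 1519) (.e (nat_lit 7936) (nat_lit 261) (.e (nat_lit 163870) (nat_lit 2) (.e (nat_lit 196666) (nat_lit 13) (.e (nat_lit 65610) (nat_lit 10) .nil)))) .nil)) 
(.lf (nat_lit 106070) (.g (nat_lit 1514) (.e (nat_lit 4490) (nat_lit 263) (.e (nat_lit 1190) (nat_lit 88) (.e (nat_lit 65571) (nat_lit 3) (.e (nat_lit 98370) (nat_lit 28) .nil)))) .nil))) (.nd (nat_lit 6) 
(.lf (nat_lit 106038) (.g (nat_lit 2635) (.e (nat_lit 4443) (nat_lit 263) (.e (nat_lit 1296) (nat_lit 96) (.e (nat_lit 131091) (nat_lit 2) (.e (nat_lit 90176) (nat_lit 15) (.e (nat_lit 188450) (nat_lit 23) (.e (nat_lit 204817) (nat_lit 17) (.e (nat_lit 7936) (nat_lit 81) .nil))))))) (.g (nat_lit 5) .nil .nil))) 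
(.lf (nat_lit 106102) (.g (nat_lit 1140) (.e (nat_lit 4491) (nat_lit 263) (.e (nat_lit 1221) (nat_lit 90) (.e (nat_lit 81965) (nat_lit 26) (.e (nat_lit 147492) (nat_lit 11) .nil)))) .nil))))) (.nd (nat_lit 4) (.nd (nat_lit 5) (.nd (nat_lit 6) 
(.lf (nat_lit 105998) (.g (nat_lit 867) (.e (nat_lit 4415) (nat_lit 259) (.e (nat_lit 57447) (nat_lit 19) (.e (nat_lit 393298) (nat_lit 27) .nil))) .nil)) 
(.lf (nat_lit 106062) (.g (nat_lit 1196) (.e (nat_lit 4482) (nat_lit 263) (.e (nat_lit 1208) (nat_lit 89) (.e (nat_lit 73747) (nat_lit 3) (.e (nat_lit 516177) (nat_lit 14) (.e (nat_lit 466977) (nat_lit 22) .nil))))) .nil))) (.nd (nat_lit 6) 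
(.lf (nat_lit 106030) (.g (nat_lit 1700) (.e (nat_lit 4442) (nat_lit 263) (.e (nat_lit 1296) (nat_lit 96) (.e (nat_lit 131091) (nat_lit 2) (.e (nat_lit 90176) (nat_lit 15) (.e (nat_lit 188450) (nat_lit 23) .nil))))) .nil)) 
(.lf (nat_lit 106094) (.g (nat_lit 3343) (.e (nat_lit 4491) (nat_lit 263) (.e (nat_lit 1190) (nat_lit 88) (.e (nat_lit 65571) (nat_lit 3) (.e (nat_lit 98370) (nat_lit 28) (.e (nat_lit 442427) (nat_lit 23) (.e (nat_lit 204821) (nat_lit 17) (.e (nat_lit 7936) (nat_lit 81) .nil))))))) (.g (nat_lit 5) .nil .nil))))) (.nd (nat_lit 5) (.nd (nat_lit 6) 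
(.lf (nat_lit 106014) (.g (nat_lit 1636) (.e (nat_lit 4435) (nat_lit 263) (.e (nat_lit 1296) (nat_lit 96) (.e (nat_lit 131094) (nat_lit 2) (.e (nat_lit 90185) (nat_lit 17) (.e (nat_lit 237605) (nat_lit 9) .nil))))) .nil)) 
(.lf (nat_lit 106078) (.g (nat_lit 2059) (.e (nat_lit 4490) (nat_lit 263) (.e (nat_lit 1221) (nat_lit 90) (.e (nat_lit 81965) (nat_lit 26) (.e (nat_lit 147492) (nat_lit 11) (.e (nat_lit 24650) (nat_lit 12) (.e (nat_lit 385049) (nat_lit 21) .nil)))))) (.g (nat_lit 6) .nil .nil)))) (.nd (nat_lit 6) 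
(.lf (nat_lit 106046) (.g (nat_lit 2439) (.e (nat_lit 4444) (nat_lit 263) (.e (nat_lit 1296) (nat_lit 96) (.e (nat_lit 131094) (nat_lit 2) (.e (nat_lit 90185) (nat_lit 17) (.e (nat_lit 237605) (nat_lit 9) (.e (nat_lit 426131) (nat_lit 3) (.e (nat_lit 204817) (nat_lit 17) (.e (nat_lit 7936) (nat_lit 81) .nil)))))))) (.g (nat_lit 6) .nil .nil))) 
(.lf (nat_lit 106110) (.g (nat_lit 1510) (.e (nat_lit 4492) (nat_lit 263) (.e (nat_lit 1220) (nat_lit 90) (.e (nat_lit 81965) (nat_lit 26) (.e (nat_lit 147492) (nat_lit 11) (.e (nat_lit 24648) (nat_lit 12) .nil))))) .nil)))))))) (.nd (nat_lit 1) (.nd (nat_lit 2) (.nd (nat_lit 3) (.nd (nat_lit 4) (.nd (nat_lit 5) (.nd (nat_lit 6) 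
(.lf (nat_lit 105985) (.g (nat_lit 1407) (.e (nat_lit 4414) (nat_lit 259) (.e (nat_lit 57375) (nat_lit 2) (.e (nat_lit 90176) (nat_lit 15) (.e (nat_lit 188450) (nat_lit 23) .nil)))) .nil)) 
(.lf (nat_lit 106049) (.g (nat_lit 1332) (.e (nat_lit 4447) (nat_lit 263) (.e (nat_lit 1220) (nat_lit 90) (.e (nat_lit 81965) (nat_lit 26) (.e (nat_lit 147492) (nat_lit 11) .nil)))) .nil))) (.nd (nat_lit 6) 
(.lf (nat_lit 106017) (.g (nat_lit 1363) (.e (nat_lit 4439) (nat_lit 263) (.e (nat_lit 1220) (nat_lit 90) (.e (nat_lit 81965) (nat_lit 26) (.e (nat_lit 147492) (nat_lit 11) .nil)))) .nil)) 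
(.lf (nat_lit 106081) (.g (nat_lit 4104) (.e (nat_lit 4491) (nat_lit 263) (.e (nat_lit 1190) (nat_lit 88) (.e (nat_lit 65566) (nat_lit 2) (.e (nat_lit 90170) (nat_lit 13) (.e (nat_lit 172106) (nat_lit 10) (.e (nat_lit 434231) (nat_lit 23) (.e (nat_lit 532482) (nat_lit 0) (.e (nat_lit 971) (nat_lit 81) .nil)))))))) (.g (nat_lit 8) .nil .nil))))) (.nd (nat_lit 5) (.nd (nat_lit 6) 
(.lf (nat_lit 106001) (.g (nat_lit 3668) (.e (nat_lit 4421) (nat_lit 261) (.e (nat_lit 163875) (nat_lit 3) (.e (nat_lit 204846) (nat_lit 24) (.e (nat_lit 319530) (nat_lit 16) (.e (nat_lit 286735) (nat_lit 3) .nil))))) .nil)) 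
(.lf (nat_lit 106065) (.g (nat_lit 1816) (.e (nat_lit 4490) (nat_lit 263) (.e (nat_lit 1190) (nat_lit 88) (.e (nat_lit 65568) (nat_lit 2) (.e (nat_lit 90170) (nat_lit 13) (.e (nat_lit 172106) (nat_lit 10) .nil))))) .nil))) (.nd (nat_lit 6) 
(.lf (nat_lit 106033) (.g (nat_lit 1548) (.e (nat_lit 4442) (nat_lit 263) (.e (nat_lit 1296) (nat_lit 96) (.e (nat_lit 131094) (nat_lit 2) (.e (nat_lit 90176) (nat_lit 15) (.e (nat_lit 188450) (nat_lit 23) .nil))))) .nil)) 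
(.lf (nat_lit 106097) (.g (nat_lit 2544) (.e (nat_lit 4491) (nat_lit 263) (.e (nat_lit 1209) (nat_lit 89) (.e (nat_lit 73747) (nat_lit 3) (.e (nat_lit 516176) (nat_lit 14) (.e (nat_lit 466981) (nat_lit 23) (.e (nat_lit 204814) (nat_lit 17) (.e (nat_lit 973) (nat_lit 81) .nil))))))) (.g (nat_lit 4) .nil .nil)))))) (.nd (nat_lit 4) (.nd (nat_lit 5) (.nd (nat_lit 6) 
(.lf (nat_lit 105993) (.g (nat_lit 898) (.e (nat_lit 4414) (nat_lit 259) (.e (nat_lit 57375) (nat_lit 2) (.e (nat_lit 90177) (nat_lit 15) .nil))) .nil)) 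
(.lf (nat_lit 106057) (.g (nat_lit 2217) (.e (nat_lit 4462) (nat_lit 263) (.e (nat_lit 2515) (nat_lit 157) (.e (nat_lit 2856) (nat_lit 184) (.e (nat_lit 426472) (nat_lit 25) (.e (nat_lit 319531) (nat_lit 16) (.e (nat_lit 286748) (nat_lit 9) (.e (nat_lit 336389) (nat_lit 27) (.e (nat_lit 426012) (nat_lit 0) (.e (nat_lit 2401) (nat_lit 157) .nil))))))))) (.g (nat_lit 5) .nil .nil)))) 
(.nd (nat_lit 6) 
(.lf (nat_lit 106025) (.g (nat_lit 2324) (.e (nat_lit 4439) (nat_lit 263) (.e (nat_lit 1221) (nat_lit 90) (.e (nat_lit 81965) (nat_lit 26) (.e (nat_lit 147496) (nat_lit 11) (.e (nat_lit 24651) (nat_lit 12) .nil))))) .nil)) 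
(.lf (nat_lit 106089) (.g (nat_lit 3977) (.e (nat_lit 4491) (nat_lit 263) (.e (nat_lit 1190) (nat_lit 88) (.e (nat_lit 65568) (nat_lit 2) (.e (nat_lit 90170) (nat_lit 13) (.e (nat_lit 172106) (nat_lit 10) (.e (nat_lit 434231) (nat_lit 23) (.e (nat_lit 532483) (nat_lit 0) (.e (nat_lit 7936) (nat_lit 81) .nil)))))))) (.g (nat_lit 6) .nil .nil))))) (.nd (nat_lit 5) (.nd (nat_lit 6) 
(.lf (nat_lit 106009) (.g (nat_lit 1580) (.e (nat_lit 4433) (nat_lit 263) (.e (nat_lit 1296) (nat_lit 96) (.e (nat_lit 131094) (nat_lit 2) (.e (nat_lit 90176) (nat_lit 15) (.e (nat_lit 188450) (nat_lit 23) (.e (nat_lit 204817) (nat_lit 17) (.e (nat_lit 996) (nat_lit 81) .nil))))))) (.g (nat_lit 4) .nil .nil))) 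
(.lf (nat_lit 106073) (.g (nat_lit 2015) (.e (nat_lit 4490) (nat_lit 263) (.e (nat_lit 1209) (nat_lit 89) (.e (nat_lit 73746) (nat_lit 3) (.e (nat_lit 516176) (nat_lit 14) (.e (nat_lit 466981) (nat_lit 23) .nil))))) .nil))) (.nd (nat_lit 6) 
(.lf (nat_lit 106041) (.g (nat_lit 2752) (.e (nat_lit 4443) (nat_lit 263) (.e (nat_lit 1296) (nat_lit 96) (.e (nat_lit 131094) (nat_lit 2) (.e (nat_lit 90176) (nat_lit 15) (.e (nat_lit 188450) (nat_lit 23) (.e (nat_lit 204821) (nat_lit 17) (.e (nat_lit 7936) (nat_lit 81) .nil))))))) (.g (nat_lit 6) .nil .nil))) 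
(.lf (nat_lit 106105) (.g (nat_lit 2352) (.e (nat_lit 4491) (nat_lit 263) (.e (nat_lit 1221) (nat_lit 90) (.e (nat_lit 81965) (nat_lit 26) (.e (nat_lit 147496) (nat_lit 11) (.e (nat_lit 24651) (nat_lit 12) .nil))))) .nil)))))) (.nd (nat_lit 3) (.nd (nat_lit 4) (.nd (nat_lit 5) (.nd (nat_lit 6) 
(.lf (nat_lit 105989) (.g (nat_lit 2304) (.e (nat_lit 4414) (nat_lit 259) (.e (nat_lit 57375) (nat_lit 2) (.e (nat_lit 90176) (nat_lit 15) (.e (nat_lit 188450) (nat_lit 23) (.e (nat_lit 204885) (nat_lit 33) .nil))))) .nil)) 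
(.lf (nat_lit 106053) (.g (nat_lit 1596) (.e (nat_lit 4452) (nat_lit 263) (.e (nat_lit 1207) (nat_lit 89) (.e (nat_lit 73746) (nat_lit 3) (.e (nat_lit 516176) (nat_lit 14) (.e (nat_lit 466977) (nat_lit 22) .nil))))) .nil))) (.nd (nat_lit 6) 
(.lf (nat_lit 106021) (.g (nat_lit 1402) (.e (nat_lit 4439) (nat_lit 263) (.e (nat_lit 1221) (nat_lit 90) (.e (nat_lit 81965) (nat_lit 26) (.e (nat_lit 147492) (nat_lit 11) (.e (nat_lit 24651) (nat_lit 12) .nil))))) .nil)) 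
(.lf (nat_lit 106085) (.g (nat_lit 1331) (.e (nat_lit 4491) (nat_lit 263) (.e (nat_lit 1190) (nat_lit 88) (.e (nat_lit 65566) (nat_lit 2) (.e (nat_lit 90176) (nat_lit 15) (.e (nat_lit 188450) (nat_lit 23) .nil))))) .nil)))) (.nd (nat_lit 5) (.nd (nat_lit 6) 
(.lf (nat_lit 106005) (.g (nat_lit 3668) (.e (nat_lit 4425) (nat_lit 261) (.e (nat_lit 163875) (nat_lit 3) (.e (nat_lit 204846) (nat_lit 24) (.e (nat_lit 319530) (nat_lit 16) (.e (nat_lit 286735) (nat_lit 3) .nil))))) .nil)) 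
(.lf (nat_lit 106069) (.g (nat_lit 3939) (.e (nat_lit 4490) (nat_lit 263) (.e (nat_lit 1190) (nat_lit 88) (.e (nat_lit 65568) (nat_lit 2) (.e (nat_lit 90170) (nat_lit 13) (.e (nat_lit 172106) (nat_lit 10) (.e (nat_lit 434231) (nat_lit 23) (.e (nat_lit 532483) (nat_lit 0) (.e (nat_lit 1068) (nat_lit 81) .nil)))))))) (.g (nat_lit 6) .nil .nil)))) (.nd (nat_lit 6) 
(.lf (nat_lit 106037) (.g (nat_lit 642) (.e (nat_lit 4443) (nat_lit 263) (.e (nat_lit 1296) (nat_lit 96) (.e (nat_lit 131091) (nat_lit 2) .nil))) .nil)) 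
(.lf (nat_lit 106101) (.g (nat_lit 1226) (.e (nat_lit 4491) (nat_lit 263) (.e (nat_lit 1221) (nat_lit 90) (.e (nat_lit 81965) (nat_lit 26) (.e (nat_lit 147463) (nat_lit 9) .nil)))) .nil))))) (.nd (nat_lit 4) (.nd (nat_lit 5) (.nd (nat_lit 6) 
(.lf (nat_lit 105997) (.g (nat_lit 2136) (.e (nat_lit 4415) (nat_lit 259) (.e (nat_lit 57445) (nat_lit 19) (.e (nat_lit 393296) (nat_lit 26) (.e (nat_lit 475207) (nat_lit 41) (.e (nat_lit 712749) (nat_lit 28) (.e (nat_lit 434201) (nat_lit 18) .nil)))))) (.g (nat_lit 6) .nil .nil))) 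
(.lf (nat_lit 106061) (.g (nat_lit 973) (.e (nat_lit 4482) (nat_lit 263) (.e (nat_lit 1208) (nat_lit 89) (.e (nat_lit 73747) (nat_lit 3) (.e (nat_lit 516177) (nat_lit 14) .nil)))) .nil))) (.nd (nat_lit 6) 
(.lf (nat_lit 106029) (.g (nat_lit 1636) (.e (nat_lit 4440) (nat_lit 263) (.e (nat_lit 1296) (nat_lit 96) (.e (nat_lit 131094) (nat_lit 2) (.e (nat_lit 90185) (nat_lit 17) (.e (nat_lit 237605) (nat_lit 9) .nil))))) .nil)) 
(.lf (nat_lit 106093) (.g (nat_lit 1418) (.e (nat_lit 4491) (nat_lit 263) (.e (nat_lit 1190) (nat_lit 88) (.e (nat_lit 65571) (nat_lit 3) (.e (nat_lit 98370) (nat_lit 28) .nil)))) .nil)))) (.nd (nat_lit 5) (.nd (nat_lit 6) 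
(.lf (nat_lit 106013) (.g (nat_lit 1710) (.e (nat_lit 4435) (nat_lit 263) (.e (nat_lit 1296) (nat_lit 96) (.e (nat_lit 131091) (nat_lit 2) (.e (nat_lit 90185) (nat_lit 17) (.e (nat_lit 237605) (nat_lit 9) .nil))))) .nil)) 
(.lf (nat_lit 106077) (.g (nat_lit 1085) (.e (nat_lit 4490) (nat_lit 263) (.e (nat_lit 1221) (nat_lit 90) (.e (nat_lit 81965) (nat_lit 26) (.e (nat_lit 147492) (nat_lit 11) .nil)))) .nil))) (.nd (nat_lit 6) 
(.lf (nat_lit 106045) (.g (nat_lit 2620) (.e (nat_lit 4444) (nat_lit 263) (.e (nat_lit 1296) (nat_lit 96) (.e (nat_lit 131091) (nat_lit 2) (.e (nat_lit 90185) (nat_lit 17) (.e (nat_lit 237605) (nat_lit 9) (.e (nat_lit 426131) (nat_lit 3) (.e (nat_lit 204817) (nat_lit 17) (.e (nat_lit 7936) (nat_lit 81) .nil)))))))) (.g (nat_lit 6) .nil .nil))) 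
(.lf (nat_lit 106109) (.g (nat_lit 1217) (.e (nat_lit 4492) (nat_lit 263) (.e (nat_lit 1220) (nat_lit 90) (.e (nat_lit 81965) (nat_lit 26) (.e (nat_lit 147492) (nat_lit 11) .nil)))) .nil))))))) (.nd (nat_lit 2) (.nd (nat_lit 3) (.nd (nat_lit 4) (.nd (nat_lit 5) (.nd (nat_lit 6) 
(.lf (nat_lit 105987) (.g (nat_lit 2290) (.e (nat_lit 4414) (nat_lit 259) (.e (nat_lit 57375) (nat_lit 2) (.e (nat_lit 90176) (nat_lit 15) (.e (nat_lit 188450) (nat_lit 23) (.e (nat_lit 204816) (nat_lit 17) .nil))))) .nil)) 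
(.lf (nat_lit 106051) (.g (nat_lit 2218) (.e (nat_lit 4447) (nat_lit 263) (.e (nat_lit 1220) (nat_lit 90) (.e (nat_lit 81965) (nat_lit 26) (.e (nat_lit 147495) (nat_lit 11) (.e (nat_lit 24647) (nat_lit 12) .nil))))) .nil))) (.nd (nat_lit 6) 
(.lf (nat_lit 106019) (.g (nat_lit 2566) (.e (nat_lit 4439) (nat_lit 263) (.e (nat_lit 1220) (nat_lit 90) (.e (nat_lit 81965) (nat_lit 26) (.e (nat_lit 147496) (nat_lit 11) (.e (nat_lit 24648) (nat_lit 12) .nil))))) .nil)) 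
(.lf (nat_lit 106083) (.g (nat_lit 3557) (.e (nat_lit 4491) (nat_lit 263) (.e (nat_lit 1190) (nat_lit 88) (.e (nat_lit 65566) (nat_lit 2) (.e (nat_lit 90170) (nat_lit 13) (.e (nat_lit 172106) (nat_lit 10) (.e (nat_lit 434244) (nat_lit 28) (.e (nat_lit 573468) (nat_lit 10) (.e (nat_lit 8195) (nat_lit 0) .nil)))))))) (.g (nat_lit 7) .nil .nil))))) (.nd (nat_lit 5) (.nd (nat_lit 6) 
(.lf (nat_lit 106003) (.g (nat_lit 2442) (.e (nat_lit 4425) (nat_lit 261) (.e (nat_lit 163869) (nat_lit 2) (.e (nat_lit 196666) (nat_lit 13) (.e (nat_lit 65610) (nat_lit 10) (.e (nat_lit 344129) (nat_lit 26) (.e (nat_lit 557087) (nat_lit 11) (.e (nat_lit 24584) (nat_lit 0) (.e (nat_lit 972) (nat_lit 81) .nil)))))))) (.g (nat_lit 4) .nil .nil))) 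
(.lf (nat_lit 106067) (.g (nat_lit 4178) (.e (nat_lit 4490) (nat_lit 263) (.e (nat_lit 1190) (nat_lit 88) (.e (nat_lit 65568) (nat_lit 2) (.e (nat_lit 90170) (nat_lit 13) (.e (nat_lit 172106) (nat_lit 10) (.e (nat_lit 434231) (nat_lit 23) (.e (nat_lit 532482) (nat_lit 0) (.e (nat_lit 979) (nat_lit 81) .nil)))))))) (.g (nat_lit 7) .nil .nil)))) (.nd (nat_lit 6) 
(.lf (nat_lit 106035) (.g (nat_lit 1796) (.e (nat_lit 4442) (nat_lit 263) (.e (nat_lit 1296) (nat_lit 96) (.e (nat_lit 131094) (nat_lit 2) (.e (nat_lit 90176) (nat_lit 15) (.e (nat_lit 188450) (nat_lit 23) (.e (nat_lit 204821) (nat_lit 17) (.e (nat_lit 7936) (nat_lit 81) .nil))))))) (.g (nat_lit 4) .nil .nil))) 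
(.lf (nat_lit 106099) (.g (nat_lit 553) (.e (nat_lit 4491) (nat_lit 263) (.e (nat_lit 1220) (nat_lit 90) (.e (nat_lit 81965) (nat_lit 26) .nil))) .nil))))) (.nd (nat_lit 4) (.nd (nat_lit 5) (.nd (nat_lit 6) 
(.lf (nat_lit 105995) (.g (nat_lit 2307) (.e (nat_lit 4414) (nat_lit 259) (.e (nat_lit 57445) (nat_lit 19) (.e (nat_lit 393296) (nat_lit 26) (.e (nat_lit 475207) (nat_lit 41) (.e (nat_lit 712749) (nat_lit 28) (.e (nat_lit 434201) (nat_lit 18) .nil)))))) (.g (nat_lit 6) .nil .nil))) 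
(.lf (nat_lit 106059) (.g (nat_lit 1515) (.e (nat_lit 4468) (nat_lit 263) (.e (nat_lit 1179) (nat_lit 87) (.e (nat_lit 57479) (nat_lit 28) (.e (nat_lit 557107) (nat_lit 15) .nil)))) .nil))) (.nd (nat_lit 6) 
(.lf (nat_lit 106027) (.g (nat_lit 1402) (.e (nat_lit 4439) (nat_lit 263) (.e (nat_lit 1296) (nat_lit 96) (.e (nat_lit 131094) (nat_lit 2) (.e (nat_lit 90176) (nat_lit 15) (.e (nat_lit 188450) (nat_lit 23) .nil))))) .nil)) 
(.lf (nat_lit 106091) (.g (nat_lit 2263) (.e (nat_lit 4491) (nat_lit 263) (.e (nat_lit 1190) (nat_lit 88) (.e (nat_lit 65568) (nat_lit 2) (.e (nat_lit 90176) (nat_lit 15) (.e (nat_lit 188450) (nat_lit 23) (.e (nat_lit 204819) (nat_lit 17) (.e (nat_lit 973) (nat_lit 81) .nil))))))) (.g (nat_lit 4) .nil .nil))))) (.nd (nat_lit 5) (.nd (nat_lit 6) 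
(.lf (nat_lit 106011) (.g (nat_lit 1636) (.e (nat_lit 4433) (nat_lit 263) (.e (nat_lit 1296) (nat_lit 96) (.e (nat_lit 131094) (nat_lit 2) (.e (nat_lit 90185) (nat_lit 17) (.e (nat_lit 237605) (nat_lit 9) .nil))))) .nil)) 
(.lf (nat_lit 106075) (.g (nat_lit 1599) (.e (nat_lit 4490) (nat_lit 263) (.e (nat_lit 1220) (nat_lit 90) (.e (nat_lit 81965) (nat_lit 26) (.e (nat_lit 147492) (nat_lit 11) (.e (nat_lit 24650) (nat_lit 12) .nil))))) .nil))) (.nd (nat_lit 6) 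
(.lf (nat_lit 106043) (.g (nat_lit 1840) (.e (nat_lit 4444) (nat_lit 263) (.e (nat_lit 1296) (nat_lit 96) (.e (nat_lit 131091) (nat_lit 2) (.e (nat_lit 90176) (nat_lit 15) (.e (nat_lit 188439) (nat_lit 20) .nil))))) .nil)) 
(.lf (nat_lit 106107) (.g (nat_lit 507) (.e (nat_lit 4492) (nat_lit 263) (.e (nat_lit 1220) (nat_lit 90) (.e (nat_lit 81965) (nat_lit 26) .nil))) .nil)))))) (.nd (nat_lit 3) (.nd (nat_lit 4) (.nd (nat_lit 5) (.nd (nat_lit 6) 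
(.lf (nat_lit 105991) (.g (nat_lit 4158) (.e (nat_lit 4414) (nat_lit 259) (.e (nat_lit 57375) (nat_lit 2) (.e (nat_lit 90176) (nat_lit 15) (.e (nat_lit 188450) (nat_lit 23) (.e (nat_lit 204885) (nat_lit 33) (.e (nat_lit 401414) (nat_lit 0) (.e (nat_lit 2424) (nat_lit 157) .nil))))))) (.g (nat_lit 7) .nil .nil))) 
(.lf (nat_lit 106055) (.g (nat_lit 4683) (.e (nat_lit 4460) (nat_lit 263) (.e (nat_lit 1079) (nat_lit 81) (.e (nat_lit 1463) (nat_lit 108) (.e (nat_lit 336013) (nat_lit 2) (.e (nat_lit 90170) (nat_lit 13) (.e (nat_lit 172106) (nat_lit 10) (.e (nat_lit 434231) (nat_lit 23) (.e (nat_lit 532481) (nat_lit 0) (.e (nat_lit 996) (nat_lit 81) .nil))))))))) (.g (nat_lit 8) .nil .nil)))) (.nd (nat_lit 6) 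
(.lf (nat_lit 106023) (.g (nat_lit 2103) (.e (nat_lit 4439) (nat_lit 263) (.e (nat_lit 1221) (nat_lit 90) (.e (nat_lit 81965) (nat_lit 26) (.e (nat_lit 147495) (nat_lit 11) (.e (nat_lit 24647) (nat_lit 12) .nil))))) .nil)) 
(.lf (nat_lit 106087) (.g (nat_lit 3633) (.e (nat_lit 4491) (nat_lit 263) (.e (nat_lit 1190) (nat_lit 88) (.e (nat_lit 65568) (nat_lit 2) (.e (nat_lit 90170) (nat_lit 13) (.e (nat_lit 172106) (nat_lit 10) (.e (nat_lit 434231) (nat_lit 23) (.e (nat_lit 532482) (nat_lit 0) (.e (nat_lit 969) (nat_lit 81) .nil)))))))) (.g (nat_lit 6) .nil .nil))))) (.nd (nat_lit 5) (.nd (nat_lit 6) 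
(.lf (nat_lit 106007) (.g (nat_lit 1762) (.e (nat_lit 4433) (nat_lit 263) (.e (nat_lit 1296) (nat_lit 96) (.e (nat_lit 131091) (nat_lit 2) (.e (nat_lit 90176) (nat_lit 15) (.e (nat_lit 188450) (nat_lit 23) (.e (nat_lit 204817) (nat_lit 17) (.e (nat_lit 996) (nat_lit 81) .nil))))))) (.g (nat_lit 4) .nil .nil))) 
(.lf (nat_lit 106071) (.g (nat_lit 3345) (.e (nat_lit 4490) (nat_lit 263) (.e (nat_lit 1190) (nat_lit 88) (.e (nat_lit 65571) (nat_lit 3) (.e (nat_lit 98370) (nat_lit 28) (.e (nat_lit 442427) (nat_lit 23) (.e (nat_lit 204821) (nat_lit 17) (.e (nat_lit 1074) (nat_lit 81) .nil))))))) (.g (nat_lit 5) .nil .nil)))) (.nd (nat_lit 6) 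
(.lf (nat_lit 106039) (.g (nat_lit 3011) (.e (nat_lit 4443) (nat_lit 263) (.e (nat_lit 1296) (nat_lit 96) (.e (nat_lit 131091) (nat_lit 2) (.e (nat_lit 90176) (nat_lit 15) (.e (nat_lit 188450) (nat_lit 23) (.e (nat_lit 204821) (nat_lit 17) (.e (nat_lit 7936) (nat_lit 81) .nil))))))) (.g (nat_lit 6) .nil .nil))) 
(.lf (nat_lit 106103) (.g (nat_lit 2104) (.e (nat_lit 4491) (nat_lit 263) (.e (nat_lit 1221) (nat_lit 90) (.e (nat_lit 81965) (nat_lit 26) (.e (nat_lit 147495) (nat_lit 11) (.e (nat_lit 24647) (nat_lit 12) .nil))))) .nil))))) (.nd (nat_lit 4) (.nd (nat_lit 5) (.nd (nat_lit 6) 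
(.lf (nat_lit 105999) (.g (nat_lit 1891) (.e (nat_lit 4415) (nat_lit 259) (.e (nat_lit 57447) (nat_lit 19) (.e (nat_lit 393298) (nat_lit 27) (.e (nat_lit 491570) (nat_lit 13) .nil)))) .nil)) 
(.lf (nat_lit 106063) (.g (nat_lit 1227) (.e (nat_lit 4484) (nat_lit 263) (.e (nat_lit 1196) (nat_lit 88) (.e (nat_lit 65630) (nat_lit 14) (.e (nat_lit 401454) (nat_lit 12) .nil)))) .nil))) (.nd (nat_lit 6) 
(.lf (nat_lit 106031) (.g (nat_lit 1753) (.e (nat_lit 4442) (nat_lit 263) (.e (nat_lit 1296) (nat_lit 96) (.e (nat_lit 131091) (nat_lit 2) (.e (nat_lit 90176) (nat_lit 15) (.e (nat_lit 188450) (nat_lit 23) (.e (nat_lit 204817) (nat_lit 17) (.e (nat_lit 996) (nat_lit 81) .nil))))))) (.g (nat_lit 4) .nil .nil))) 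
(.lf (nat_lit 106095) (.g (nat_lit 1799) (.e (nat_lit 4491) (nat_lit 263) (.e (nat_lit 1190) (nat_lit 88) (.e (nat_lit 65571) (nat_lit 3) (.e (nat_lit 98372) (nat_lit 29) (.e (nat_lit 450579) (nat_lit 5) .nil))))) .nil)))) (.nd (nat_lit 5) (.nd (nat_lit 6) 
(.lf (nat_lit 106015) (.g (nat_lit 338) (.e (nat_lit 4439) (nat_lit 263) (.e (nat_lit 1217) (nat_lit 90) (.e (nat_lit 81920) (nat_lit 0) .nil))) .nil)) 
(.lf (nat_lit 106079) (.g (nat_lit 1351) (.e (nat_lit 4490) (nat_lit 263) (.e (nat_lit 1221) (nat_lit 90) (.e (nat_lit 81965) (nat_lit 26) (.e (nat_lit 147495) (nat_lit 11) .nil)))) .nil))) (.nd (nat_lit 6) 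
(.lf (nat_lit 106047) (.g (nat_lit 493) (.e (nat_lit 4447) (nat_lit 263) (.e (nat_lit 1220) (nat_lit 90) (.e (nat_lit 81965) (nat_lit 26) .nil))) .nil)) 
(.lf (nat_lit 106111) (.g (nat_lit 1510) (.e (nat_lit 4492) (nat_lit 263) (.e (nat_lit 1220) (nat_lit 90) (.e (nat_lit 81965) (nat_lit 26) (.e (nat_lit 147492) (nat_lit 11) (.e (nat_lit 24650) (nat_lit 12) .nil))))) .nil)))))))))

noncomputable def tv1446 : DT := (.nd (nat_lit 0) (.nd (nat_lit 1) (.nd (nat_lit 2) (.nd (nat_lit 3) (.nd (nat_lit 4) (.nd (nat_lit 5) (.nd (nat_lit 6) 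
(.lf (nat_lit 106112) (.g (nat_lit 1512) (.e (nat_lit 4492) (nat_lit 263) (.e (nat_lit 1220) (nat_lit 90) (.e (nat_lit 81965) (nat_lit 26) (.e (nat_lit 147492) (nat_lit 11) (.e (nat_lit 24653) (nat_lit 12) .nil))))) .nil)) 
(.lf (nat_lit 106176) (.g (nat_lit 2307) (.e (nat_lit 4527) (nat_lit 265) (.e (nat_lit 57419) (nat_lit 12) (.e (nat_lit 336003) (nat_lit 2) (.e (nat_lit 90176) (nat_lit 15) (.e (nat_lit 188450) (nat_lit 23) (.e (nat_lit 204817) (nat_lit 17) (.e (nat_lit 7936) (nat_lit 81) .nil))))))) (.g (nat_lit 6) .nil .nil)))) (.nd (nat_lit 6) 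
(.lf (nat_lit 106144) (.g (nat_lit 3184) (.e (nat_lit 4526) (nat_lit 265) (.e (nat_lit 57404) (nat_lit 12) (.e (nat_lit 336013) (nat_lit 2) (.e (nat_lit 90170) (nat_lit 13) (.e (nat_lit 172106) (nat_lit 10) (.e (nat_lit 434231) (nat_lit 23) (.e (nat_lit 532483) (nat_lit 0) (.e (nat_lit 982) (nat_lit 81) .nil)))))))) (.g (nat_lit 6) .nil .nil))) 
(.lf (nat_lit 106208) (.g (nat_lit 2506) (.e (nat_lit 4586) (nat_lit 269) (.e (nat_lit 1194) (nat_lit 88) (.e (nat_lit 65630) (nat_lit 14) (.e (nat_lit 401459) (nat_lit 13) (.e (nat_lit 483344) (nat_lit 17) .nil))))) .nil)))) (.nd (nat_lit 5) (.nd (nat_lit 6) 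
(.lf (nat_lit 106128) (.g (nat_lit 1933) (.e (nat_lit 4500) (nat_lit 263) (.e (nat_lit 1221) (nat_lit 90) (.e (nat_lit 81965) (nat_lit 26) (.e (nat_lit 147492) (nat_lit 11) (.e (nat_lit 24650) (nat_lit 12) (.e (nat_lit 392960) (nat_lit 21) .nil)))))) (.g (nat_lit 5) .nil .nil))) 
(.lf (nat_lit 106192) (.g (nat_lit 3593) (.e (nat_lit 4549) (nat_lit 269) (.e (nat_lit 1201) (nat_lit 88) (.e (nat_lit 65630) (nat_lit 14) (.e (nat_lit 401459) (nat_lit 13) (.e (nat_lit 483411) (nat_lit 27) (.e (nat_lit 401414) (nat_lit 0) (.e (nat_lit 2423) (nat_lit 157) .nil))))))) (.g (nat_lit 4) .nil .nil)))) (.nd (nat_lit 6) 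
(.lf (nat_lit 106160) (.g (nat_lit 3941) (.e (nat_lit 4527) (nat_lit 265) (.e (nat_lit 57375) (nat_lit 2) (.e (nat_lit 90160) (nat_lit 11) (.e (nat_lit 24665) (nat_lit 14) (.e (nat_lit 401470) (nat_lit 27) (.e (nat_lit 336420) (nat_lit 28) (.e (nat_lit 434208) (nat_lit 18) .nil))))))) (.g (nat_lit 5) .nil .nil))) 
(.lf (nat_lit 106224) (.g (nat_lit 2779) (.e (nat_lit 4598) (nat_lit 269) (.e (nat_lit 1190) (nat_lit 88) (.e (nat_lit 65630) (nat_lit 14) (.e (nat_lit 401459) (nat_lit 13) (.e (nat_lit 483344) (nat_lit 17) .nil))))) .nil))))) (.nd (nat_lit 4) (.nd (nat_lit 5) (.nd (nat_lit 6) 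
(.lf (nat_lit 106120) (.g (nat_lit 1175) (.e (nat_lit 4500) (nat_lit 263) (.e (nat_lit 1209) (nat_lit 89) (.e (nat_lit 73746) (nat_lit 3) (.e (nat_lit 516176) (nat_lit 14) .nil)))) .nil)) 
(.lf (nat_lit 106184) (.g (nat_lit 786) (.e (nat_lit 4537) (nat_lit 267) (.e (nat_lit 163871) (nat_lit 2) (.e (nat_lit 196691) (nat_lit 18) .nil))) .nil))) (.nd (nat_lit 6) 
(.lf (nat_lit 106152) (.g (nat_lit 3616) (.e (nat_lit 4527) (nat_lit 265) (.e (nat_lit 57373) (nat_lit 2) (.e (nat_lit 90160) (nat_lit 11) (.e (nat_lit 24665) (nat_lit 14) (.e (nat_lit 409344) (nat_lit 27) (.e (nat_lit 336421) (nat_lit 28) (.e (nat_lit 434208) (nat_lit 18) .nil))))))) (.g (nat_lit 4) .nil .nil))) 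
(.lf (nat_lit 106216) (.g (nat_lit 3292) (.e (nat_lit 4598) (nat_lit 269) (.e (nat_lit 1181) (nat_lit 87) (.e (nat_lit 57480) (nat_lit 28) (.e (nat_lit 557109) (nat_lit 15) (.e (nat_lit 188441) (nat_lit 20) .nil))))) .nil)))) (.nd (nat_lit 5) (.nd (nat_lit 6) 
(.lf (nat_lit 106136) (.g (nat_lit 1057) (.e (nat_lit 7936) (nat_lit 263) (.e (nat_lit 1221) (nat_lit 90) (.e (nat_lit 81965) (nat_lit 26) (.e (nat_lit 147492) (nat_lit 11) .nil)))) .nil)) 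
(.lf (nat_lit 106200) (.g (nat_lit 3568) (.e (nat_lit 4557) (nat_lit 269) (.e (nat_lit 1201) (nat_lit 88) (.e (nat_lit 65610) (nat_lit 10) (.e (nat_lit 344117) (nat_lit 21) (.e (nat_lit 524032) (nat_lit 33) .nil))))) .nil))) (.nd (nat_lit 6) 
(.lf (nat_lit 106168) (.g (nat_lit 2829) (.e (nat_lit 4527) (nat_lit 265) (.e (nat_lit 57411) (nat_lit 12) (.e (nat_lit 336019) (nat_lit 3) (.e (nat_lit 98381) (nat_lit 31) (.e (nat_lit 466976) (nat_lit 22) (.e (nat_lit 196661) (nat_lit 12) (.e (nat_lit 65280) (nat_lit 0) .nil))))))) (.g (nat_lit 6) .nil .nil))) 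
(.lf (nat_lit 106232) (.g (nat_lit 3267) (.e (nat_lit 4598) (nat_lit 269) (.e (nat_lit 1200) (nat_lit 88) (.e (nat_lit 65628) (nat_lit 14) (.e (nat_lit 401459) (nat_lit 13) (.e (nat_lit 483411) (nat_lit 27) (.e (nat_lit 401408) (nat_lit 0) (.e (nat_lit 2449) (nat_lit 157) .nil))))))) (.g (nat_lit 5) .nil .nil))))))) (.nd (nat_lit 3) (.nd (nat_lit 4) (.nd (nat_lit 5) (.nd (nat_lit 6) 
(.lf (nat_lit 106116) (.g (nat_lit 2451) (.e (nat_lit 4492) (nat_lit 263) (.e (nat_lit 1220) (nat_lit 90) (.e (nat_lit 81965) (nat_lit 26) (.e (nat_lit 147496) (nat_lit 11) (.e (nat_lit 24648) (nat_lit 12) .nil))))) .nil)) 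
(.lf (nat_lit 106180) (.g (nat_lit 1812) (.e (nat_lit 4527) (nat_lit 265) (.e (nat_lit 57420) (nat_lit 13) (.e (nat_lit 344117) (nat_lit 21) (.e (nat_lit 516165) (nat_lit 12) (.e (nat_lit 450579) (nat_lit 5) .nil))))) .nil))) (.nd (nat_lit 6) 
(.lf (nat_lit 106148) (.g (nat_lit 1876) (.e (nat_lit 4527) (nat_lit 265) (.e (nat_lit 57373) (nat_lit 2) (.e (nat_lit 90160) (nat_lit 11) (.e (nat_lit 24617) (nat_lit 7) .nil)))) .nil)) 
(.lf (nat_lit 106212) (.g (nat_lit 4280) (.e (nat_lit 4598) (nat_lit 269) (.e (nat_lit 1181) (nat_lit 87) (.e (nat_lit 57479) (nat_lit 28) (.e (nat_lit 557109) (nat_lit 15) (.e (nat_lit 188441) (nat_lit 20) .nil))))) .nil)))) (.nd (nat_lit 5) (.nd (nat_lit 6) 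
(.lf (nat_lit 106132) (.g (nat_lit 3484) (.e (nat_lit 4506) (nat_lit 263) (.e (nat_lit 1079) (nat_lit 81) (.e (nat_lit 1463) (nat_lit 108) (.e (nat_lit 336013) (nat_lit 2) (.e (nat_lit 90170) (nat_lit 13) (.e (nat_lit 172106) (nat_lit 10) (.e (nat_lit 434231) (nat_lit 23) (.e (nat_lit 532483) (nat_lit 0) (.e (nat_lit 1030) (nat_lit 81) .nil))))))))) (.g (nat_lit 7) .nil .nil))) 
(.lf (nat_lit 106196) (.g (nat_lit 2698) (.e (nat_lit 4553) (nat_lit 269) (.e (nat_lit 1221) (nat_lit 90) (.e (nat_lit 81956) (nat_lit 23) (.e (nat_lit 106240) (nat_lit 16) .nil)))) .nil))) (.nd (nat_lit 6) 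
(.lf (nat_lit 106164) (.g (nat_lit 1960) (.e (nat_lit 4527) (nat_lit 265) (.e (nat_lit 57409) (nat_lit 12) (.e (nat_lit 336016) (nat_lit 2) (.e (nat_lit 90176) (nat_lit 15) (.e (nat_lit 188450) (nat_lit 23) .nil))))) .nil)) 
(.lf (nat_lit 106228) (.g (nat_lit 1883) (.e (nat_lit 4598) (nat_lit 269) (.e (nat_lit 1199) (nat_lit 88) (.e (nat_lit 65586) (nat_lit 7) (.e (nat_lit 319531) (nat_lit 16) (.e (nat_lit 286722) (nat_lit 0) .nil))))) .nil))))) (.nd (nat_lit 4) (.nd (nat_lit 5) (.nd (nat_lit 6) 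
(.lf (nat_lit 106124) (.g (nat_lit 3741) (.e (nat_lit 4500) (nat_lit 263) (.e (nat_lit 1209) (nat_lit 89) (.e (nat_lit 73747) (nat_lit 3) (.e (nat_lit 516163) (nat_lit 11) (.e (nat_lit 442427) (nat_lit 23) (.e (nat_lit 204821) (nat_lit 17) (.e (nat_lit 991) (nat_lit 81) .nil))))))) (.g (nat_lit 6) .nil .nil))) 
(.lf (nat_lit 106188) (.g (nat_lit 2358) (.e (nat_lit 4539) (nat_lit 267) (.e (nat_lit 163871) (nat_lit 2) (.e (nat_lit 196656) (nat_lit 11) (.e (nat_lit 16459) (nat_lit 12) .nil)))) .nil))) (.nd (nat_lit 6) 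
(.lf (nat_lit 106156) (.g (nat_lit 2480) (.e (nat_lit 4527) (nat_lit 265) (.e (nat_lit 57375) (nat_lit 2) (.e (nat_lit 90160) (nat_lit 11) (.e (nat_lit 24617) (nat_lit 7) (.e (nat_lit 319504) (nat_lit 10) .nil))))) .nil)) 
(.lf (nat_lit 106220) (.g (nat_lit 2167) (.e (nat_lit 4598) (nat_lit 269) (.e (nat_lit 1182) (nat_lit 87) (.e (nat_lit 57480) (nat_lit 28) (.e (nat_lit 557108) (nat_lit 15) (.e (nat_lit 188452) (nat_lit 23) (.e (nat_lit 204885) (nat_lit 33) (.e (nat_lit 401414) (nat_lit 0) (.e (nat_lit 2426) (nat_lit 157) .nil)))))))) (.g (nat_lit 4) .nil .nil))))) (.nd (nat_lit 5) (.nd (nat_lit 6) 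
(.lf (nat_lit 106140) (.g (nat_lit 1419) (.e (nat_lit 4523) (nat_lit 265) (.e (nat_lit 57419) (nat_lit 12) (.e (nat_lit 336213) (nat_lit 13) (.e (nat_lit 393298) (nat_lit 27) .nil)))) .nil)) 
(.lf (nat_lit 106204) (.g (nat_lit 3860) (.e (nat_lit 4561) (nat_lit 269) (.e (nat_lit 1180) (nat_lit 87) (.e (nat_lit 57480) (nat_lit 28) (.e (nat_lit 557108) (nat_lit 15) (.e (nat_lit 188452) (nat_lit 23) (.e (nat_lit 204885) (nat_lit 33) (.e (nat_lit 401414) (nat_lit 0) (.e (nat_lit 2438) (nat_lit 157) .nil)))))))) (.g (nat_lit 8) .nil .nil)))) (.nd (nat_lit 6) 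
(.lf (nat_lit 106172) (.g (nat_lit 3488) (.e (nat_lit 4527) (nat_lit 265) (.e (nat_lit 57411) (nat_lit 12) (.e (nat_lit 336211) (nat_lit 13) (.e (nat_lit 393297) (nat_lit 27) (.e (nat_lit 491566) (nat_lit 12) (.e (nat_lit 385044) (nat_lit 21) .nil)))))) (.g (nat_lit 6) .nil .nil))) 
(.lf (nat_lit 106236) (.g (nat_lit 2550) (.e (nat_lit 4598) (nat_lit 269) (.e (nat_lit 1200) (nat_lit 88) (.e (nat_lit 65629) (nat_lit 14) (.e (nat_lit 401459) (nat_lit 13) (.e (nat_lit 483343) (nat_lit 17) .nil))))) .nil))))))) (.nd (nat_lit 2) (.nd (nat_lit 3) (.nd (nat_lit 4) (.nd (nat_lit 5) (.nd (nat_lit 6) 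
(.lf (nat_lit 106114) (.g (nat_lit 2795) (.e (nat_lit 4492) (nat_lit 263) (.e (nat_lit 1220) (nat_lit 90) (.e (nat_lit 81965) (nat_lit 26) (.e (nat_lit 147495) (nat_lit 11) (.e (nat_lit 24647) (nat_lit 12) (.e (nat_lit 385047) (nat_lit 21) .nil)))))) (.g (nat_lit 6) .nil .nil))) 
(.lf (nat_lit 106178) (.g (nat_lit 2622) (.e (nat_lit 4527) (nat_lit 265) (.e (nat_lit 57419) (nat_lit 12) (.e (nat_lit 336012) (nat_lit 2) (.e (nat_lit 90176) (nat_lit 15) (.e (nat_lit 188450) (nat_lit 23) (.e (nat_lit 204817) (nat_lit 17) (.e (nat_lit 7936) (nat_lit 81) .nil))))))) (.g (nat_lit 6) .nil .nil)))) (.nd (nat_lit 6) 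
(.lf (nat_lit 106146) (.g (nat_lit 2336) (.e (nat_lit 4527) (nat_lit 265) (.e (nat_lit 57373) (nat_lit 2) (.e (nat_lit 90158) (nat_lit 11) (.e (nat_lit 24651) (nat_lit 12) .nil)))) .nil)) 
(.lf (nat_lit 106210) (.g (nat_lit 1965) (.e (nat_lit 4598) (nat_lit 269) (.e (nat_lit 1181) (nat_lit 87) (.e (nat_lit 57479) (nat_lit 28) (.e (nat_lit 557101) (nat_lit 13) (.e (nat_lit 172115) (nat_lit 10) .nil))))) .nil)))) (.nd (nat_lit 5) (.nd (nat_lit 6) 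
(.lf (nat_lit 106130) (.g (nat_lit 2181) (.e (nat_lit 4500) (nat_lit 263) (.e (nat_lit 1294) (nat_lit 96) (.e (nat_lit 131094) (nat_lit 2) (.e (nat_lit 90176) (nat_lit 15) (.e (nat_lit 188450) (nat_lit 23) (.e (nat_lit 204821) (nat_lit 17) (.e (nat_lit 991) (nat_lit 81) .nil))))))) (.g (nat_lit 6) .nil .nil))) 
(.lf (nat_lit 106194) (.g (nat_lit 1216) (.e (nat_lit 4553) (nat_lit 269) (.e (nat_lit 1200) (nat_lit 88) (.e (nat_lit 65628) (nat_lit 14) (.e (nat_lit 401458) (nat_lit 13) .nil)))) .nil))) (.nd (nat_lit 6) 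
(.lf (nat_lit 106162) (.g (nat_lit 3152) (.e (nat_lit 4527) (nat_lit 265) (.e (nat_lit 57375) (nat_lit 2) (.e (nat_lit 90160) (nat_lit 11) (.e (nat_lit 24665) (nat_lit 14) (.e (nat_lit 409344) (nat_lit 34) .nil))))) .nil)) 
(.lf (nat_lit 106226) (.g (nat_lit 1428) (.e (nat_lit 4598) (nat_lit 269) (.e (nat_lit 1199) (nat_lit 88) (.e (nat_lit 65583) (nat_lit 7) (.e (nat_lit 319530) (nat_lit 16) (.e (nat_lit 286722) (nat_lit 0) .nil))))) .nil))))) (.nd (nat_lit 4) (.nd (nat_lit 5) (.nd (nat_lit 6) 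
(.lf (nat_lit 106122) (.g (nat_lit 740) (.e (nat_lit 4500) (nat_lit 263) (.e (nat_lit 1209) (nat_lit 89) (.e (nat_lit 73747) (nat_lit 3) .nil))) .nil)) 
(.lf (nat_lit 106186) (.g (nat_lit 736) (.e (nat_lit 4539) (nat_lit 267) (.e (nat_lit 163869) (nat_lit 2) (.e (nat_lit 196656) (nat_lit 11) .nil))) .nil))) (.nd (nat_lit 6) 
(.lf (nat_lit 106154) (.g (nat_lit 1929) (.e (nat_lit 4527) (nat_lit 265) (.e (nat_lit 57375) (nat_lit 2) (.e (nat_lit 90160) (nat_lit 11) (.e (nat_lit 24584) (nat_lit 0) .nil)))) .nil)) 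
(.lf (nat_lit 106218) (.g (nat_lit 2628) (.e (nat_lit 4598) (nat_lit 269) (.e (nat_lit 1182) (nat_lit 87) (.e (nat_lit 57479) (nat_lit 28) (.e (nat_lit 557109) (nat_lit 15) (.e (nat_lit 196352) (nat_lit 0) .nil))))) .nil)))) (.nd (nat_lit 5) (.nd (nat_lit 6) 
(.lf (nat_lit 106138) (.g (nat_lit 582) (.e (nat_lit 4523) (nat_lit 265) (.e (nat_lit 57375) (nat_lit 2) (.e (nat_lit 90160) (nat_lit 11) .nil))) .nil)) 
(.lf (nat_lit 106202) (.g (nat_lit 2741) (.e (nat_lit 4559) (nat_lit 269) (.e (nat_lit 1220) (nat_lit 90) (.e (nat_lit 81956) (nat_lit 23) (.e (nat_lit 106240) (nat_lit 16) .nil)))) .nil))) (.nd (nat_lit 6) 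
(.lf (nat_lit 106170) (.g (nat_lit 806) (.e (nat_lit 4527) (nat_lit 265) (.e (nat_lit 57411) (nat_lit 12) (.e (nat_lit 336182) (nat_lit 11) .nil))) .nil)) 
(.lf (nat_lit 106234) (.g (nat_lit 3092) (.e (nat_lit 4598) (nat_lit 269) (.e (nat_lit 1200) (nat_lit 88) (.e (nat_lit 65628) (nat_lit 14) (.e (nat_lit 401459) (nat_lit 13) (.e (nat_lit 483411) (nat_lit 27) (.e (nat_lit 401414) (nat_lit 0) (.e (nat_lit 2446) (nat_lit 157) .nil))))))) (.g (nat_lit 5) .nil .nil))))))) (.nd (nat_lit 3) (.nd (nat_lit 4) (.nd (nat_lit 5) (.nd (nat_lit 6) 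
(.lf (nat_lit 106118) (.g (nat_lit 1281) (.e (nat_lit 4500) (nat_lit 263) (.e (nat_lit 1200) (nat_lit 88) (.e (nat_lit 65569) (nat_lit 3) (.e (nat_lit 98370) (nat_lit 28) .nil)))) .nil)) 
(.lf (nat_lit 106182) (.g (nat_lit 424) (.e (nat_lit 4530) (nat_lit 266) (.e (nat_lit 122919) (nat_lit 15) (.e (nat_lit 360484) (nat_lit 15) .nil))) .nil))) (.nd (nat_lit 6) 
(.lf (nat_lit 106150) (.g (nat_lit 3529) (.e (nat_lit 4527) (nat_lit 265) (.e (nat_lit 57373) (nat_lit 2) (.e (nat_lit 90160) (nat_lit 11) (.e (nat_lit 24665) (nat_lit 14) (.e (nat_lit 401470) (nat_lit 27) .nil))))) .nil)) 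
(.lf (nat_lit 106214) (.g (nat_lit 2471) (.e (nat_lit 4598) (nat_lit 269) (.e (nat_lit 1181) (nat_lit 87) (.e (nat_lit 57480) (nat_lit 28) (.e (nat_lit 557107) (nat_lit 15) (.e (nat_lit 188439) (nat_lit 20) .nil))))) .nil)))) (.nd (nat_lit 5) (.nd (nat_lit 6) 
(.lf (nat_lit 106134) (.g (nat_lit 530) (.e (nat_lit 4506) (nat_lit 263) (.e (nat_lit 2619) (nat_lit 164) (.e (nat_lit 172143) (nat_lit 25) .nil))) .nil)) 
(.lf (nat_lit 106198) (.g (nat_lit 3398) (.e (nat_lit 4554) (nat_lit 269) (.e (nat_lit 1201) (nat_lit 88) (.e (nat_lit 65630) (nat_lit 14) (.e (nat_lit 401459) (nat_lit 13) (.e (nat_lit 483411) (nat_lit 27) (.e (nat_lit 401414) (nat_lit 0) (.e (nat_lit 2425) (nat_lit 157) .nil))))))) (.g (nat_lit 4) .nil .nil)))) (.nd (nat_lit 6) 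
(.lf (nat_lit 106166) (.g (nat_lit 946) (.e (nat_lit 4527) (nat_lit 265) (.e (nat_lit 57411) (nat_lit 12) (.e (nat_lit 336019) (nat_lit 3) .nil))) .nil)) 
(.lf (nat_lit 106230) (.g (nat_lit 2190) (.e (nat_lit 4598) (nat_lit 269) (.e (nat_lit 1200) (nat_lit 88) (.e (nat_lit 65628) (nat_lit 14) (.e (nat_lit 401459) (nat_lit 13) (.e (nat_lit 483343) (nat_lit 17) .nil))))) .nil))))) (.nd (nat_lit 4) (.nd (nat_lit 5) (.nd (nat_lit 6) 
(.lf (nat_lit 106126) (.g (nat_lit 1164) (.e (nat_lit 4500) (nat_lit 263) (.e (nat_lit 1220) (nat_lit 90) (.e (nat_lit 81965) (nat_lit 26) (.e (nat_lit 147492) (nat_lit 11) .nil)))) .nil)) 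
(.lf (nat_lit 106190) (.g (nat_lit 1459) (.e (nat_lit 4539) (nat_lit 267) (.e (nat_lit 163907) (nat_lit 12) (.e (nat_lit 426472) (nat_lit 25) (.e (nat_lit 319531) (nat_lit 16) .nil)))) .nil))) (.nd (nat_lit 6) 
(.lf (nat_lit 106158) (.g (nat_lit 3420) (.e (nat_lit 4527) (nat_lit 265) (.e (nat_lit 57375) (nat_lit 2) (.e (nat_lit 90160) (nat_lit 11) (.e (nat_lit 24665) (nat_lit 14) (.e (nat_lit 401467) (nat_lit 27) .nil))))) .nil)) 
(.lf (nat_lit 106222) (.g (nat_lit 1843) (.e (nat_lit 4598) (nat_lit 269) (.e (nat_lit 1190) (nat_lit 88) (.e (nat_lit 65628) (nat_lit 14) (.e (nat_lit 401459) (nat_lit 13) (.e (nat_lit 483344) (nat_lit 17) .nil))))) .nil)))) (.nd (nat_lit 5) (.nd (nat_lit 6) 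
(.lf (nat_lit 106142) (.g (nat_lit 2151) (.e (nat_lit 4525) (nat_lit 265) (.e (nat_lit 57375) (nat_lit 2) (.e (nat_lit 90160) (nat_lit 11) (.e (nat_lit 24665) (nat_lit 14) .nil)))) .nil)) 
(.lf (nat_lit 106206) (.g (nat_lit 1779) (.e (nat_lit 4562) (nat_lit 269) (.e (nat_lit 1200) (nat_lit 88) (.e (nat_lit 65604) (nat_lit 9) (.e (nat_lit 336028) (nat_lit 3) (.e (nat_lit 106240) (nat_lit 16) .nil))))) .nil))) (.nd (nat_lit 6) 
(.lf (nat_lit 106174) (.g (nat_lit 3332) (.e (nat_lit 4527) (nat_lit 265) (.e (nat_lit 57411) (nat_lit 12) (.e (nat_lit 336211) (nat_lit 13) (.e (nat_lit 393298) (nat_lit 27) (.e (nat_lit 491566) (nat_lit 12) (.e (nat_lit 385043) (nat_lit 21) .nil)))))) (.g (nat_lit 0) .nil .nil))) 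
(.lf (nat_lit 106238) (.g (nat_lit 2773) (.e (nat_lit 4598) (nat_lit 269) (.e (nat_lit 1200) (nat_lit 88) (.e (nat_lit 65629) (nat_lit 14) (.e (nat_lit 401459) (nat_lit 13) (.e (nat_lit 483411) (nat_lit 27) .nil))))) .nil)))))))) (.nd (nat_lit 1) (.nd (nat_lit 2) (.nd (nat_lit 3) (.nd (nat_lit 4) (.nd (nat_lit 5) (.nd (nat_lit 6) 
(.lf (nat_lit 106113) (.g (nat_lit 2100) (.e (nat_lit 4492) (nat_lit 263) (.e (nat_lit 1220) (nat_lit 90) (.e (nat_lit 81965) (nat_lit 26) (.e (nat_lit 147495) (nat_lit 11) (.e (nat_lit 24647) (nat_lit 12) .nil))))) .nil)) 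
(.lf (nat_lit 106177) (.g (nat_lit 2690) (.e (nat_lit 4527) (nat_lit 265) (.e (nat_lit 57419) (nat_lit 12) (.e (nat_lit 336004) (nat_lit 2) (.e (nat_lit 90176) (nat_lit 15) (.e (nat_lit 188450) (nat_lit 23) (.e (nat_lit 204817) (nat_lit 17) (.e (nat_lit 7936) (nat_lit 81) .nil))))))) (.g (nat_lit 6) .nil .nil)))) (.nd (nat_lit 6) 
(.lf (nat_lit 106145) (.g (nat_lit 4003) (.e (nat_lit 4527) (nat_lit 265) (.e (nat_lit 57368) (nat_lit 1) (.e (nat_lit 57854) (nat_lit 252) (.e (nat_lit 57373) (nat_lit 2) (.e (nat_lit 98048) (nat_lit 6) (.e (nat_lit 81951) (nat_lit 22) (.e (nat_lit 90165) (nat_lit 12) (.e (nat_lit 163849) (nat_lit 0) .nil)))))))) (.g (nat_lit 6) .nil .nil))) 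
(.lf (nat_lit 106209) (.g (nat_lit 2729) (.e (nat_lit 4598) (nat_lit 269) (.e (nat_lit 1181) (nat_lit 87) (.e (nat_lit 57479) (nat_lit 28) (.e (nat_lit 557095) (nat_lit 13) (.e (nat_lit 172115) (nat_lit 10) .nil))))) .nil)))) (.nd (nat_lit 5) (.nd (nat_lit 6) 
(.lf (nat_lit 106129) (.g (nat_lit 1524) (.e (nat_lit 4500) (nat_lit 263) (.e (nat_lit 1221) (nat_lit 90) (.e (nat_lit 81965) (nat_lit 26) (.e (nat_lit 147492) (nat_lit 11) (.e (nat_lit 24664) (nat_lit 14) .nil))))) .nil)) 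
(.lf (nat_lit 106193) (.g (nat_lit 5103) (.e (nat_lit 4549) (nat_lit 269) (.e (nat_lit 1201) (nat_lit 88) (.e (nat_lit 65630) (nat_lit 14) (.e (nat_lit 401459) (nat_lit 13) (.e (nat_lit 483411) (nat_lit 27) (.e (nat_lit 401414) (nat_lit 0) (.e (nat_lit 2424) (nat_lit 157) .nil))))))) (.g (nat_lit 6) .nil .nil)))) (.nd (nat_lit 6) 
(.lf (nat_lit 106161) (.g (nat_lit 3152) (.e (nat_lit 4527) (nat_lit 265) (.e (nat_lit 57375) (nat_lit 2) (.e (nat_lit 90160) (nat_lit 11) (.e (nat_lit 24665) (nat_lit 14) (.e (nat_lit 409344) (nat_lit 27) .nil))))) .nil)) 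
(.lf (nat_lit 106225) (.g (nat_lit 1367) (.e (nat_lit 4598) (nat_lit 269) (.e (nat_lit 1196) (nat_lit 88) (.e (nat_lit 65583) (nat_lit 7) (.e (nat_lit 319530) (nat_lit 16) (.e (nat_lit 286722) (nat_lit 0) .nil))))) .nil))))) (.nd (nat_lit 4) (.nd (nat_lit 5) (.nd (nat_lit 6) 
(.lf (nat_lit 106121) (.g (nat_lit 3458) (.e (nat_lit 4500) (nat_lit 263) (.e (nat_lit 1209) (nat_lit 89) (.e (nat_lit 73746) (nat_lit 3) (.e (nat_lit 516176) (nat_lit 14) (.e (nat_lit 466981) (nat_lit 23) (.e (nat_lit 204821) (nat_lit 17) (.e (nat_lit 991) (nat_lit 81) .nil))))))) (.g (nat_lit 6) .nil .nil))) 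
(.lf (nat_lit 106185) (.g (nat_lit 1215) (.e (nat_lit 4539) (nat_lit 267) (.e (nat_lit 163869) (nat_lit 2) (.e (nat_lit 196654) (nat_lit 11) .nil))) .nil))) (.nd (nat_lit 6) 
(.lf (nat_lit 106153) (.g (nat_lit 490) (.e (nat_lit 4527) (nat_lit 265) (.e (nat_lit 57375) (nat_lit 2) (.e (nat_lit 90160) (nat_lit 11) .nil))) .nil)) 
(.lf (nat_lit 106217) (.g (nat_lit 1529) (.e (nat_lit 4598) (nat_lit 269) (.e (nat_lit 1182) (nat_lit 87) (.e (nat_lit 57479) (nat_lit 28) (.e (nat_lit 557107) (nat_lit 15) .nil)))) .nil)))) (.nd (nat_lit 5) (.nd (nat_lit 6) 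
(.lf (nat_lit 106137) (.g (nat_lit 776) (.e (nat_lit 4523) (nat_lit 265) (.e (nat_lit 57371) (nat_lit 2) (.e (nat_lit 90160) (nat_lit 11) .nil))) .nil)) 
(.lf (nat_lit 106201) (.g (nat_lit 2670) (.e (nat_lit 4557) (nat_lit 269) (.e (nat_lit 1201) (nat_lit 88) (.e (nat_lit 65610) (nat_lit 10) (.e (nat_lit 344129) (nat_lit 26) (.e (nat_lit 557119) (nat_lit 18) .nil))))) .nil))) (.nd (nat_lit 6) 
(.lf (nat_lit 106169) (.g (nat_lit 2169) (.e (nat_lit 4527) (nat_lit 265) (.e (nat_lit 57411) (nat_lit 12) (.e (nat_lit 336019) (nat_lit 3) (.e (nat_lit 98381) (nat_lit 31) (.e (nat_lit 466977) (nat_lit 22) (.e (nat_lit 196661) (nat_lit 12) (.e (nat_lit 65280) (nat_lit 0) .nil))))))) (.g (nat_lit 4) .nil .nil))) 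
(.lf (nat_lit 106233) (.g (nat_lit 3805) (.e (nat_lit 4598) (nat_lit 269) (.e (nat_lit 1200) (nat_lit 88) (.e (nat_lit 65628) (nat_lit 14) (.e (nat_lit 401459) (nat_lit 13) (.e (nat_lit 483411) (nat_lit 27) (.e (nat_lit 401414) (nat_lit 0) (.e (nat_lit 2422) (nat_lit 157) .nil))))))) (.g (nat_lit 6) .nil .nil))))))) (.nd (nat_lit 3) (.nd (nat_lit 4) (.nd (nat_lit 5) (.nd (nat_lit 6) 
(.lf (nat_lit 106117) (.g (nat_lit 4408) (.e (nat_lit 4500) (nat_lit 263) (.e (nat_lit 1200) (nat_lit 88) (.e (nat_lit 65568) (nat_lit 2) (.e (nat_lit 90170) (nat_lit 13) (.e (nat_lit 172106) (nat_lit 10) (.e (nat_lit 434231) (nat_lit 23) (.e (nat_lit 532490) (nat_lit 0) (.e (nat_lit 991) (nat_lit 81) .nil)))))))) (.g (nat_lit 8) .nil .nil))) 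
(.lf (nat_lit 106181) (.g (nat_lit 4974) (.e (nat_lit 4530) (nat_lit 266) (.e (nat_lit 122903) (nat_lit 12) (.e (nat_lit 336013) (nat_lit 2) (.e (nat_lit 90170) (nat_lit 13) (.e (nat_lit 172106) (nat_lit 10) (.e (nat_lit 434231) (nat_lit 23) (.e (nat_lit 532481) (nat_lit 0) (.e (nat_lit 996) (nat_lit 81) .nil)))))))) (.g (nat_lit 8) .nil .nil)))) (.nd (nat_lit 6) 
(.lf (nat_lit 106149) (.g (nat_lit 2031) (.e (nat_lit 4527) (nat_lit 265) (.e (nat_lit 57373) (nat_lit 2) (.e (nat_lit 90160) (nat_lit 11) (.e (nat_lit 24665) (nat_lit 14) .nil)))) .nil)) 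
(.lf (nat_lit 106213) (.g (nat_lit 3566) (.e (nat_lit 4598) (nat_lit 269) (.e (nat_lit 1181) (nat_lit 87) (.e (nat_lit 57479) (nat_lit 28) (.e (nat_lit 557109) (nat_lit 15) (.e (nat_lit 188452) (nat_lit 23) .nil))))) .nil)))) (.nd (nat_lit 5) (.nd (nat_lit 6) 
(.lf (nat_lit 106133) (.g (nat_lit 4568) (.e (nat_lit 4506) (nat_lit 263) (.e (nat_lit 2515) (nat_lit 157) (.e (nat_lit 2856) (nat_lit 184) (.e (nat_lit 426472) (nat_lit 25) (.e (nat_lit 319531) (nat_lit 16) (.e (nat_lit 286761) (nat_lit 13) (.e (nat_lit 393234) (nat_lit 17) (.e (nat_lit 2405) (nat_lit 157) .nil)))))))) (.g (nat_lit 7) .nil .nil))) 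
(.lf (nat_lit 106197) (.g (nat_lit 1154) (.e (nat_lit 4553) (nat_lit 269) (.e (nat_lit 1221) (nat_lit 90) (.e (nat_lit 81962) (nat_lit 25) (.e (nat_lit 139276) (nat_lit 2) (.e (nat_lit 16461) (nat_lit 12) .nil))))) .nil))) (.nd (nat_lit 6) 
(.lf (nat_lit 106165) (.g (nat_lit 1113) (.e (nat_lit 4527) (nat_lit 265) (.e (nat_lit 57411) (nat_lit 12) (.e (nat_lit 336016) (nat_lit 2) .nil))) .nil)) 
(.lf (nat_lit 106229) (.g (nat_lit 2809) (.e (nat_lit 4598) (nat_lit 269) (.e (nat_lit 1199) (nat_lit 88) (.e (nat_lit 65629) (nat_lit 14) (.e (nat_lit 401459) (nat_lit 13) (.e (nat_lit 483411) (nat_lit 27) .nil))))) .nil))))) (.nd (nat_lit 4) (.nd (nat_lit 5) (.nd (nat_lit 6) 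
(.lf (nat_lit 106125) (.g (nat_lit 1414) (.e (nat_lit 4500) (nat_lit 263) (.e (nat_lit 1209) (nat_lit 89) (.e (nat_lit 73747) (nat_lit 3) (.e (nat_lit 516176) (nat_lit 14) .nil)))) .nil)) 
(.lf (nat_lit 106189) (.g (nat_lit 955) (.e (nat_lit 4539) (nat_lit 267) (.e (nat_lit 163875) (nat_lit 3) (.e (nat_lit 204842) (nat_lit 22) .nil))) .nil))) (.nd (nat_lit 6) 
(.lf (nat_lit 106157) (.g (nat_lit 2071) (.e (nat_lit 4527) (nat_lit 265) (.e (nat_lit 57375) (nat_lit 2) (.e (nat_lit 90160) (nat_lit 11) (.e (nat_lit 24665) (nat_lit 14) .nil)))) .nil)) 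
(.lf (nat_lit 106221) (.g (nat_lit 2058) (.e (nat_lit 4598) (nat_lit 269) (.e (nat_lit 1189) (nat_lit 88) (.e (nat_lit 65629) (nat_lit 14) (.e (nat_lit 401459) (nat_lit 13) (.e (nat_lit 483344) (nat_lit 17) .nil))))) .nil)))) (.nd (nat_lit 5) (.nd (nat_lit 6) 
(.lf (nat_lit 106141) (.g (nat_lit 1867) (.e (nat_lit 4525) (nat_lit 265) (.e (nat_lit 57375) (nat_lit 2) (.e (nat_lit 90160) (nat_lit 11) (.e (nat_lit 24617) (nat_lit 7) .nil)))) .nil)) 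
(.lf (nat_lit 106205) (.g (nat_lit 1178) (.e (nat_lit 4561) (nat_lit 269) (.e (nat_lit 1220) (nat_lit 90) (.e (nat_lit 81962) (nat_lit 25) (.e (nat_lit 139276) (nat_lit 2) .nil)))) .nil))) (.nd (nat_lit 6) 
(.lf (nat_lit 106173) (.g (nat_lit 3085) (.e (nat_lit 4527) (nat_lit 265) (.e (nat_lit 57411) (nat_lit 12) (.e (nat_lit 336211) (nat_lit 13) (.e (nat_lit 393297) (nat_lit 27) (.e (nat_lit 491566) (nat_lit 12) (.e (nat_lit 385045) (nat_lit 21) .nil)))))) (.g (nat_lit 6) .nil .nil))) 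
(.lf (nat_lit 106237) (.g (nat_lit 2239) (.e (nat_lit 4598) (nat_lit 269) (.e (nat_lit 1200) (nat_lit 88) (.e (nat_lit 65629) (nat_lit 14) (.e (nat_lit 401459) (nat_lit 13) (.e (nat_lit 483410) (nat_lit 27) .nil))))) .nil))))))) (.nd (nat_lit 2) (.nd (nat_lit 3) (.nd (nat_lit 4) (.nd (nat_lit 5) (.nd (nat_lit 6) 
(.lf (nat_lit 106115) (.g (nat_lit 2490) (.e (nat_lit 4492) (nat_lit 263) (.e (nat_lit 1220) (nat_lit 90) (.e (nat_lit 81965) (nat_lit 26) (.e (nat_lit 147496) (nat_lit 11) (.e (nat_lit 24647) (nat_lit 12) .nil))))) .nil)) 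
(.lf (nat_lit 106179) (.g (nat_lit 2206) (.e (nat_lit 4527) (nat_lit 265) (.e (nat_lit 57419) (nat_lit 12) (.e (nat_lit 336012) (nat_lit 2) (.e (nat_lit 90176) (nat_lit 15) (.e (nat_lit 188450) (nat_lit 23) (.e (nat_lit 204821) (nat_lit 17) (.e (nat_lit 7936) (nat_lit 81) .nil))))))) (.g (nat_lit 5) .nil .nil)))) (.nd (nat_lit 6) 
(.lf (nat_lit 106147) (.g (nat_lit 3771) (.e (nat_lit 4527) (nat_lit 265) (.e (nat_lit 57373) (nat_lit 2) (.e (nat_lit 90158) (nat_lit 11) (.e (nat_lit 24665) (nat_lit 14) (.e (nat_lit 409344) (nat_lit 27) .nil))))) .nil)) 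
(.lf (nat_lit 106211) (.g (nat_lit 2003) (.e (nat_lit 4598) (nat_lit 269) (.e (nat_lit 1181) (nat_lit 87) (.e (nat_lit 57479) (nat_lit 28) (.e (nat_lit 557109) (nat_lit 15) .nil)))) .nil)))) (.nd (nat_lit 5) (.nd (nat_lit 6) 
(.lf (nat_lit 106131) (.g (nat_lit 3695) (.e (nat_lit 4506) (nat_lit 263) (.e (nat_lit 1078) (nat_lit 81) (.e (nat_lit 1463) (nat_lit 108) (.e (nat_lit 336013) (nat_lit 2) (.e (nat_lit 90170) (nat_lit 13) (.e (nat_lit 172106) (nat_lit 10) (.e (nat_lit 434231) (nat_lit 23) (.e (nat_lit 532483) (nat_lit 0) (.e (nat_lit 1030) (nat_lit 81) .nil))))))))) (.g (nat_lit 8) .nil .nil))) 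
(.lf (nat_lit 106195) (.g (nat_lit 2732) (.e (nat_lit 4553) (nat_lit 269) (.e (nat_lit 1220) (nat_lit 90) (.e (nat_lit 81956) (nat_lit 23) (.e (nat_lit 106240) (nat_lit 16) .nil)))) .nil))) (.nd (nat_lit 6) 
(.lf (nat_lit 106163) (.g (nat_lit 979) (.e (nat_lit 4527) (nat_lit 265) (.e (nat_lit 57379) (nat_lit 3) (.e (nat_lit 98334) (nat_lit 18) .nil))) .nil)) 
(.lf (nat_lit 106227) (.g (nat_lit 1426) (.e (nat_lit 4598) (nat_lit 269) (.e (nat_lit 1199) (nat_lit 88) (.e (nat_lit 65583) (nat_lit 7) (.e (nat_lit 319530) (nat_lit 16) (.e (nat_lit 286731) (nat_lit 1) .nil))))) .nil))))) (.nd (nat_lit 4) (.nd (nat_lit 5) (.nd (nat_lit 6) 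
(.lf (nat_lit 106123) (.g (nat_lit 1697) (.e (nat_lit 4500) (nat_lit 263) (.e (nat_lit 1209) (nat_lit 89) (.e (nat_lit 73747) (nat_lit 3) (.e (nat_lit 516163) (nat_lit 11) .nil)))) .nil)) 
(.lf (nat_lit 106187) (.g (nat_lit 663) (.e (nat_lit 4539) (nat_lit 267) (.e (nat_lit 163870) (nat_lit 2) (.e (nat_lit 196661) (nat_lit 12) .nil))) .nil))) (.nd (nat_lit 6) 
(.lf (nat_lit 106155) (.g (nat_lit 1782) (.e (nat_lit 4527) (nat_lit 265) (.e (nat_lit 57375) (nat_lit 2) (.e (nat_lit 90160) (nat_lit 11) (.e (nat_lit 24617) (nat_lit 7) .nil)))) .nil)) 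
(.lf (nat_lit 106219) (.g (nat_lit 2832) (.e (nat_lit 4598) (nat_lit 269) (.e (nat_lit 1182) (nat_lit 87) (.e (nat_lit 57479) (nat_lit 28) (.e (nat_lit 557109) (nat_lit 15) (.e (nat_lit 188455) (nat_lit 24) .nil))))) .nil)))) (.nd (nat_lit 5) (.nd (nat_lit 6) 
(.lf (nat_lit 106139) (.g (nat_lit 824) (.e (nat_lit 4523) (nat_lit 265) (.e (nat_lit 57411) (nat_lit 12) (.e (nat_lit 336115) (nat_lit 9) .nil))) .nil)) 
(.lf (nat_lit 106203) (.g (nat_lit 1679) (.e (nat_lit 4561) (nat_lit 269) (.e (nat_lit 1180) (nat_lit 87) (.e (nat_lit 57480) (nat_lit 28) (.e (nat_lit 557108) (nat_lit 15) (.e (nat_lit 188452) (nat_lit 23) .nil))))) .nil))) (.nd (nat_lit 6) 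
(.lf (nat_lit 106171) (.g (nat_lit 3196) (.e (nat_lit 4527) (nat_lit 265) (.e (nat_lit 57411) (nat_lit 12) (.e (nat_lit 336211) (nat_lit 13) (.e (nat_lit 393297) (nat_lit 27) (.e (nat_lit 491566) (nat_lit 12) (.e (nat_lit 385043) (nat_lit 21) .nil)))))) (.g (nat_lit 0) .nil .nil))) 
(.lf (nat_lit 106235) (.g (nat_lit 3734) (.e (nat_lit 4598) (nat_lit 269) (.e (nat_lit 1200) (nat_lit 88) (.e (nat_lit 65628) (nat_lit 14) (.e (nat_lit 401459) (nat_lit 13) (.e (nat_lit 483411) (nat_lit 27) (.e (nat_lit 401416) (nat_lit 0) (.e (nat_lit 2449) (nat_lit 157) .nil))))))) (.g (nat_lit 5) .nil .nil))))))) (.nd (nat_lit 3) (.nd (nat_lit 4) (.nd (nat_lit 5) (.nd (nat_lit 6) 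
(.lf (nat_lit 106119) (.g (nat_lit 1177) (.e (nat_lit 4500) (nat_lit 263) (.e (nat_lit 1209) (nat_lit 89) (.e (nat_lit 73746) (nat_lit 3) (.e (nat_lit 516174) (nat_lit 14) .nil)))) .nil)) 
(.lf (nat_lit 106183) (.g (nat_lit 874) (.e (nat_lit 4530) (nat_lit 266) (.e (nat_lit 122919) (nat_lit 15) (.e (nat_lit 360484) (nat_lit 15) (.e (nat_lit 647196) (nat_lit 9) .nil)))) .nil))) (.nd (nat_lit 6) 
(.lf (nat_lit 106151) (.g (nat_lit 3155) (.e (nat_lit 4527) (nat_lit 265) (.e (nat_lit 57373) (nat_lit 2) (.e (nat_lit 90160) (nat_lit 11) (.e (nat_lit 24665) (nat_lit 14) (.e (nat_lit 409344) (nat_lit 27) .nil))))) .nil)) 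
(.lf (nat_lit 106215) (.g (nat_lit 2595) (.e (nat_lit 4598) (nat_lit 269) (.e (nat_lit 1181) (nat_lit 87) (.e (nat_lit 57480) (nat_lit 28) (.e (nat_lit 557108) (nat_lit 15) (.e (nat_lit 188452) (nat_lit 23) .nil))))) .nil)))) (.nd (nat_lit 5) (.nd (nat_lit 6) 
(.lf (nat_lit 106135) (.g (nat_lit 3283) (.e (nat_lit 4511) (nat_lit 263) (.e (nat_lit 1196) (nat_lit 88) (.e (nat_lit 65568) (nat_lit 2) (.e (nat_lit 90170) (nat_lit 13) (.e (nat_lit 172106) (nat_lit 10) (.e (nat_lit 434231) (nat_lit 23) (.e (nat_lit 532483) (nat_lit 0) (.e (nat_lit 1036) (nat_lit 81) .nil)))))))) (.g (nat_lit 6) .nil .nil))) 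
(.lf (nat_lit 106199) (.g (nat_lit 2881) (.e (nat_lit 4556) (nat_lit 269) (.e (nat_lit 1201) (nat_lit 88) (.e (nat_lit 65630) (nat_lit 14) (.e (nat_lit 401459) (nat_lit 13) (.e (nat_lit 483410) (nat_lit 27) .nil))))) .nil))) (.nd (nat_lit 6) 
(.lf (nat_lit 106167) (.g (nat_lit 4139) (.e (nat_lit 4527) (nat_lit 265) (.e (nat_lit 57411) (nat_lit 12) (.e (nat_lit 336019) (nat_lit 3) (.e (nat_lit 98372) (nat_lit 29) (.e (nat_lit 450579) (nat_lit 5) (.e (nat_lit 532484) (nat_lit 0) (.e (nat_lit 7936) (nat_lit 81) .nil))))))) (.g (nat_lit 6) .nil .nil))) 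
(.lf (nat_lit 106231) (.g (nat_lit 1860) (.e (nat_lit 4598) (nat_lit 269) (.e (nat_lit 1200) (nat_lit 88) (.e (nat_lit 65628) (nat_lit 14) (.e (nat_lit 401459) (nat_lit 13) (.e (nat_lit 483411) (nat_lit 27) .nil))))) .nil))))) (.nd (nat_lit 4) (.nd (nat_lit 5) (.nd (nat_lit 6) 
(.lf (nat_lit 106127) (.g (nat_lit 1286) (.e (nat_lit 4500) (nat_lit 263) (.e (nat_lit 1221) (nat_lit 90) (.e (nat_lit 81965) (nat_lit 26) (.e (nat_lit 147492) (nat_lit 11) .nil)))) .nil)) 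
(.lf (nat_lit 106191) (.g (nat_lit 2886) (.e (nat_lit 4549) (nat_lit 269) (.e (nat_lit 1201) (nat_lit 88) (.e (nat_lit 65630) (nat_lit 14) (.e (nat_lit 401459) (nat_lit 13) (.e (nat_lit 483410) (nat_lit 27) .nil))))) .nil))) (.nd (nat_lit 6) 
(.lf (nat_lit 106159) (.g (nat_lit 3154) (.e (nat_lit 4527) (nat_lit 265) (.e (nat_lit 57375) (nat_lit 2) (.e (nat_lit 90160) (nat_lit 11) (.e (nat_lit 24665) (nat_lit 14) (.e (nat_lit 401468) (nat_lit 27) .nil))))) .nil)) 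
(.lf (nat_lit 106223) (.g (nat_lit 1989) (.e (nat_lit 4598) (nat_lit 269) (.e (nat_lit 1190) (nat_lit 88) (.e (nat_lit 65628) (nat_lit 14) (.e (nat_lit 401459) (nat_lit 13) (.e (nat_lit 483411) (nat_lit 27) .nil))))) .nil)))) (.nd (nat_lit 5) (.nd (nat_lit 6) 
(.lf (nat_lit 106143) (.g (nat_lit 1520) (.e (nat_lit 4525) (nat_lit 265) (.e (nat_lit 57423) (nat_lit 14) (.e (nat_lit 352276) (nat_lit 11) (.e (nat_lit 426347) (nat_lit 14) (.e (nat_lit 491566) (nat_lit 12) .nil))))) .nil)) 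
(.lf (nat_lit 106207) (.g (nat_lit 1960) (.e (nat_lit 4562) (nat_lit 269) (.e (nat_lit 1200) (nat_lit 88) (.e (nat_lit 65619) (nat_lit 10) (.e (nat_lit 344117) (nat_lit 21) (.e (nat_lit 524032) (nat_lit 33) .nil))))) .nil))) (.nd (nat_lit 6) 
(.lf (nat_lit 106175) (.g (nat_lit 3000) (.e (nat_lit 4527) (nat_lit 265) (.e (nat_lit 57411) (nat_lit 12) (.e (nat_lit 336211) (nat_lit 13) (.e (nat_lit 393298) (nat_lit 27) (.e (nat_lit 491566) (nat_lit 12) (.e (nat_lit 385045) (nat_lit 21) .nil)))))) (.g (nat_lit 6) .nil .nil))) 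
(.lf (nat_lit 106239) (.g (nat_lit 4463) (.e (nat_lit 4598) (nat_lit 269) (.e (nat_lit 1200) (nat_lit 88) (.e (nat_lit 65629) (nat_lit 14) (.e (nat_lit 401459) (nat_lit 13) (.e (nat_lit 483411) (nat_lit 27) (.e (nat_lit 401408) (nat_lit 0) (.e (nat_lit 2427) (nat_lit 157) .nil))))))) (.g (nat_lit 6) .nil .nil))))))))))

noncomputable def tv1447 : DT := (.nd (nat_lit 0) (.nd (nat_lit 1) (.nd (nat_lit 2) (.nd (nat_lit 3) (.nd (nat_lit 4) (.nd (nat_lit 5) (.nd (nat_lit 6) 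
(.lf (nat_lit 106240) (.g (nat_lit 3964) (.e (nat_lit 4598) (nat_lit 269) (.e (nat_lit 1200) (nat_lit 88) (.e (nat_lit 65629) (nat_lit 14) (.e (nat_lit 401459) (nat_lit 13) (.e (nat_lit 483411) (nat_lit 27) (.e (nat_lit 401408) (nat_lit 0) (.e (nat_lit 2449) (nat_lit 157) .nil))))))) (.g (nat_lit 5) .nil .nil))) 
(.lf (nat_lit 106304) (.g (nat_lit 2616) (.e (nat_lit 4605) (nat_lit 269) (.e (nat_lit 1181) (nat_lit 87) (.e (nat_lit 57480) (nat_lit 28) (.e (nat_lit 557108) (nat_lit 15) (.e (nat_lit 188452) (nat_lit 23) (.e (nat_lit 204885) (nat_lit 33) (.e (nat_lit 401414) (nat_lit 0) (.e (nat_lit 2458) (nat_lit 157) .nil)))))))) (.g (nat_lit 4) .nil .nil)))) (.nd (nat_lit 6) 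
(.lf (nat_lit 106272) (.g (nat_lit 2812) (.e (nat_lit 4598) (nat_lit 269) (.e (nat_lit 1221) (nat_lit 90) (.e (nat_lit 81959) (nat_lit 24) (.e (nat_lit 123182) (nat_lit 264) (.e (nat_lit 1212) (nat_lit 89) .nil))))) .nil)) 
(.lf (nat_lit 106336) (.g (nat_lit 4002) (.e (nat_lit 4616) (nat_lit 269) (.e (nat_lit 1178) (nat_lit 87) (.e (nat_lit 57480) (nat_lit 28) (.e (nat_lit 557108) (nat_lit 15) (.e (nat_lit 188452) (nat_lit 23) (.e (nat_lit 204885) (nat_lit 33) (.e (nat_lit 401414) (nat_lit 0) (.e (nat_lit 2425) (nat_lit 157) .nil)))))))) (.g (nat_lit 8) .nil .nil))))) (.nd (nat_lit 5) (.nd (nat_lit 6) 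
(.lf (nat_lit 106256) (.g (nat_lit 524) (.e (nat_lit 4598) (nat_lit 269) (.e (nat_lit 1221) (nat_lit 90) (.e (nat_lit 81948) (nat_lit 21) .nil))) .nil)) 
(.lf (nat_lit 106320) (.g (nat_lit 4513) (.e (nat_lit 4606) (nat_lit 269) (.e (nat_lit 1200) (nat_lit 88) (.e (nat_lit 65629) (nat_lit 14) (.e (nat_lit 401459) (nat_lit 13) (.e (nat_lit 483411) (nat_lit 27) (.e (nat_lit 401414) (nat_lit 0) (.e (nat_lit 2458) (nat_lit 157) .nil))))))) (.g (nat_lit 6) .nil .nil)))) (.nd (nat_lit 6) 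
(.lf (nat_lit 106288) (.g (nat_lit 2732) (.e (nat_lit 4602) (nat_lit 269) (.e (nat_lit 1220) (nat_lit 90) (.e (nat_lit 81956) (nat_lit 23) (.e (nat_lit 106240) (nat_lit 16) .nil)))) .nil)) 
(.lf (nat_lit 106352) (.g (nat_lit 2181) (.e (nat_lit 4616) (nat_lit 269) (.e (nat_lit 1221) (nat_lit 90) (.e (nat_lit 81959) (nat_lit 24) (.e (nat_lit 123195) (nat_lit 266) (.e (nat_lit 57403) (nat_lit 11) (.e (nat_lit 327700) (nat_lit 8) (.e (nat_lit 303111) (nat_lit 0) (.e (nat_lit 2425) (nat_lit 157) .nil)))))))) (.g (nat_lit 4) .nil .nil)))))) 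
(.nd (nat_lit 4) (.nd (nat_lit 5) (.nd (nat_lit 6) 
(.lf (nat_lit 106248) (.g (nat_lit 1616) (.e (nat_lit 4598) (nat_lit 269) (.e (nat_lit 1219) (nat_lit 90) (.e (nat_lit 81948) (nat_lit 21) (.e (nat_lit 57854) (nat_lit 252) (.e (nat_lit 57389) (nat_lit 5) .nil))))) .nil)) 
(.lf (nat_lit 106312) (.g (nat_lit 4087) (.e (nat_lit 4605) (nat_lit 269) (.e (nat_lit 1200) (nat_lit 88) (.e (nat_lit 65628) (nat_lit 14) (.e (nat_lit 401459) (nat_lit 13) (.e (nat_lit 483411) (nat_lit 27) (.e (nat_lit 401414) (nat_lit 0) (.e (nat_lit 2458) (nat_lit 157) .nil))))))) (.g (nat_lit 7) .nil .nil)))) (.nd (nat_lit 6) 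
(.lf (nat_lit 106280) (.g (nat_lit 1865) (.e (nat_lit 4602) (nat_lit 269) (.e (nat_lit 1190) (nat_lit 88) (.e (nat_lit 65619) (nat_lit 10) (.e (nat_lit 344117) (nat_lit 21) (.e (nat_lit 524032) (nat_lit 33) .nil))))) .nil)) 
(.lf (nat_lit 106344) (.g (nat_lit 2105) (.e (nat_lit 4616) (nat_lit 269) (.e (nat_lit 1200) (nat_lit 88) (.e (nat_lit 65628) (nat_lit 14) (.e (nat_lit 401459) (nat_lit 13) (.e (nat_lit 483344) (nat_lit 17) .nil))))) .nil)))) (.nd (nat_lit 5) (.nd (nat_lit 6) 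
(.lf (nat_lit 106264) (.g (nat_lit 2482) (.e (nat_lit 4598) (nat_lit 269) (.e (nat_lit 1221) (nat_lit 90) (.e (nat_lit 81950) (nat_lit 21) (.e (nat_lit 57848) (nat_lit 252) (.e (nat_lit 57390) (nat_lit 5) .nil))))) .nil)) 
(.lf (nat_lit 106328) (.g (nat_lit 3932) (.e (nat_lit 4607) (nat_lit 269) (.e (nat_lit 1200) (nat_lit 88) (.e (nat_lit 65628) (nat_lit 14) (.e (nat_lit 401459) (nat_lit 13) (.e (nat_lit 483411) (nat_lit 27) (.e (nat_lit 401414) (nat_lit 0) (.e (nat_lit 2478) (nat_lit 157) .nil))))))) (.g (nat_lit 6) .nil .nil)))) (.nd (nat_lit 6) 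
(.lf (nat_lit 106296) (.g (nat_lit 2698) (.e (nat_lit 4603) (nat_lit 269) (.e (nat_lit 1221) (nat_lit 90) (.e (nat_lit 81956) (nat_lit 23) (.e (nat_lit 106240) (nat_lit 16) .nil)))) .nil)) 
(.lf (nat_lit 106360) (.g (nat_lit 3150) (.e (nat_lit 4630) (nat_lit 271) (.e (nat_lit 57447) (nat_lit 19) (.e (nat_lit 393260) (nat_lit 21) (.e (nat_lit 409617) (nat_lit 10) (.e (nat_lit 632) (nat_lit 50) .nil))))) .nil)))))) (.nd (nat_lit 3) (.nd (nat_lit 4) (.nd (nat_lit 5) (.nd (nat_lit 6) 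
(.lf (nat_lit 106244) (.g (nat_lit 3548) (.e (nat_lit 4598) (nat_lit 269) (.e (nat_lit 1200) (nat_lit 88) (.e (nat_lit 65630) (nat_lit 14) (.e (nat_lit 401459) (nat_lit 13) (.e (nat_lit 483411) (nat_lit 27) (.e (nat_lit 401414) (nat_lit 0) (.e (nat_lit 2422) (nat_lit 157) .nil))))))) (.g (nat_lit 5) .nil .nil))) 
(.lf (nat_lit 106308) (.g (nat_lit 2410) (.e (nat_lit 4605) (nat_lit 269) (.e (nat_lit 1190) (nat_lit 88) (.e (nat_lit 65629) (nat_lit 14) (.e (nat_lit 401459) (nat_lit 13) (.e (nat_lit 483344) (nat_lit 17) .nil))))) .nil))) (.nd (nat_lit 6) 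
(.lf (nat_lit 106276) (.g (nat_lit 3980) (.e (nat_lit 4602) (nat_lit 269) (.e (nat_lit 1178) (nat_lit 87) (.e (nat_lit 57480) (nat_lit 28) (.e (nat_lit 557108) (nat_lit 15) (.e (nat_lit 188452) (nat_lit 23) (.e (nat_lit 204885) (nat_lit 33) (.e (nat_lit 401414) (nat_lit 0) (.e (nat_lit 2438) (nat_lit 157) .nil)))))))) (.g (nat_lit 8) .nil .nil))) 
(.lf (nat_lit 106340) (.g (nat_lit 4159) (.e (nat_lit 4616) (nat_lit 269) (.e (nat_lit 1190) (nat_lit 88) (.e (nat_lit 65628) (nat_lit 14) (.e (nat_lit 401459) (nat_lit 13) (.e (nat_lit 483411) (nat_lit 27) (.e (nat_lit 401414) (nat_lit 0) (.e (nat_lit 2425) (nat_lit 157) .nil))))))) (.g (nat_lit 7) .nil .nil))))) (.nd (nat_lit 5) (.nd (nat_lit 6) 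
(.lf (nat_lit 106260) (.g (nat_lit 2670) (.e (nat_lit 4598) (nat_lit 269) (.e (nat_lit 1221) (nat_lit 90) (.e (nat_lit 81950) (nat_lit 21) (.e (nat_lit 57846) (nat_lit 252) (.e (nat_lit 57388) (nat_lit 5) .nil))))) .nil)) 
(.lf (nat_lit 106324) (.g (nat_lit 2595) (.e (nat_lit 4607) (nat_lit 269) (.e (nat_lit 1181) (nat_lit 87) (.e (nat_lit 57480) (nat_lit 28) (.e (nat_lit 557108) (nat_lit 15) (.e (nat_lit 188452) (nat_lit 23) .nil))))) .nil))) (.nd (nat_lit 6) 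
(.lf (nat_lit 106292) (.g (nat_lit 2719) (.e (nat_lit 4603) (nat_lit 269) (.e (nat_lit 1190) (nat_lit 88) (.e (nat_lit 65630) (nat_lit 14) (.e (nat_lit 401459) (nat_lit 13) (.e (nat_lit 483411) (nat_lit 27) .nil))))) .nil)) 
(.lf (nat_lit 106356) (.g (nat_lit 703) (.e (nat_lit 4630) (nat_lit 271) (.e (nat_lit 57375) (nat_lit 2) (.e (nat_lit 90176) (nat_lit 15) .nil))) .nil))))) (.nd (nat_lit 4) (.nd (nat_lit 5) (.nd (nat_lit 6) 
(.lf (nat_lit 106252) (.g (nat_lit 2132) (.e (nat_lit 4598) (nat_lit 269) (.e (nat_lit 1220) (nat_lit 90) (.e (nat_lit 81950) (nat_lit 21) (.e (nat_lit 57848) (nat_lit 252) .nil)))) .nil)) 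
(.lf (nat_lit 106316) (.g (nat_lit 2521) (.e (nat_lit 4605) (nat_lit 269) (.e (nat_lit 1221) (nat_lit 90) (.e (nat_lit 81959) (nat_lit 24) (.e (nat_lit 123200) (nat_lit 268) .nil)))) .nil))) (.nd (nat_lit 6) 
(.lf (nat_lit 106284) (.g (nat_lit 2016) (.e (nat_lit 4602) (nat_lit 269) (.e (nat_lit 1199) (nat_lit 88) (.e (nat_lit 65617) (nat_lit 10) (.e (nat_lit 344133) (nat_lit 26) (.e (nat_lit 557119) (nat_lit 18) .nil))))) .nil)) 
(.lf (nat_lit 106348) (.g (nat_lit 4561) (.e (nat_lit 4616) (nat_lit 269) (.e (nat_lit 1200) (nat_lit 88) (.e (nat_lit 65629) (nat_lit 14) (.e (nat_lit 401459) (nat_lit 13) (.e (nat_lit 483411) (nat_lit 27) (.e (nat_lit 401414) (nat_lit 0) (.e (nat_lit 2425) (nat_lit 157) .nil))))))) (.g (nat_lit 6) .nil .nil))))) (.nd (nat_lit 5) (.nd (nat_lit 6) 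
(.lf (nat_lit 106268) (.g (nat_lit 1732) (.e (nat_lit 4598) (nat_lit 269) (.e (nat_lit 1221) (nat_lit 90) (.e (nat_lit 81959) (nat_lit 24) (.e (nat_lit 123156) (nat_lit 252) (.e (nat_lit 57389) (nat_lit 5) .nil))))) .nil)) 
(.lf (nat_lit 106332) (.g (nat_lit 2350) (.e (nat_lit 4607) (nat_lit 269) (.e (nat_lit 1200) (nat_lit 88) (.e (nat_lit 65630) (nat_lit 14) (.e (nat_lit 401459) (nat_lit 13) (.e (nat_lit 483344) (nat_lit 17) .nil))))) .nil))) (.nd (nat_lit 6) 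
(.lf (nat_lit 106300) (.g (nat_lit 1806) (.e (nat_lit 4605) (nat_lit 269) (.e (nat_lit 1181) (nat_lit 87) (.e (nat_lit 57479) (nat_lit 28) (.e (nat_lit 557095) (nat_lit 13) .nil)))) .nil)) 
(.lf (nat_lit 106364) (.g (nat_lit 3265) (.e (nat_lit 4632) (nat_lit 271) (.e (nat_lit 57374) (nat_lit 2) (.e (nat_lit 90170) (nat_lit 13) (.e (nat_lit 172106) (nat_lit 10) (.e (nat_lit 434202) (nat_lit 18) .nil))))) .nil))))))) (.nd (nat_lit 2) (.nd (nat_lit 3) (.nd (nat_lit 4) (.nd (nat_lit 5) (.nd (nat_lit 6) 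
(.lf (nat_lit 106242) (.g (nat_lit 4411) (.e (nat_lit 4598) (nat_lit 269) (.e (nat_lit 1200) (nat_lit 88) (.e (nat_lit 65629) (nat_lit 14) (.e (nat_lit 401459) (nat_lit 13) (.e (nat_lit 483411) (nat_lit 27) (.e (nat_lit 401416) (nat_lit 0) (.e (nat_lit 2449) (nat_lit 157) .nil))))))) (.g (nat_lit 5) .nil .nil))) 
(.lf (nat_lit 106306) (.g (nat_lit 2056) (.e (nat_lit 4605) (nat_lit 269) (.e (nat_lit 1182) (nat_lit 87) (.e (nat_lit 57480) (nat_lit 28) (.e (nat_lit 557108) (nat_lit 15) (.e (nat_lit 188452) (nat_lit 23) .nil))))) .nil))) (.nd (nat_lit 6) 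
(.lf (nat_lit 106274) (.g (nat_lit 2050) (.e (nat_lit 4598) (nat_lit 269) (.e (nat_lit 1221) (nat_lit 90) (.e (nat_lit 81959) (nat_lit 24) (.e (nat_lit 123195) (nat_lit 266) (.e (nat_lit 57400) (nat_lit 10) .nil))))) .nil)) 
(.lf (nat_lit 106338) (.g (nat_lit 2010) (.e (nat_lit 4616) (nat_lit 269) (.e (nat_lit 1190) (nat_lit 88) (.e (nat_lit 65628) (nat_lit 14) (.e (nat_lit 401459) (nat_lit 13) (.e (nat_lit 483411) (nat_lit 27) .nil))))) .nil)))) (.nd (nat_lit 5) (.nd (nat_lit 6) 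
(.lf (nat_lit 106258) (.g (nat_lit 2451) (.e (nat_lit 4598) (nat_lit 269) (.e (nat_lit 1221) (nat_lit 90) (.e (nat_lit 81950) (nat_lit 21) (.e (nat_lit 57844) (nat_lit 252) (.e (nat_lit 57389) (nat_lit 5) .nil))))) .nil)) 
(.lf (nat_lit 106322) (.g (nat_lit 3067) (.e (nat_lit 4607) (nat_lit 269) (.e (nat_lit 1178) (nat_lit 87) (.e (nat_lit 57480) (nat_lit 28) (.e (nat_lit 557108) (nat_lit 15) (.e (nat_lit 188452) (nat_lit 23) (.e (nat_lit 204885) (nat_lit 33) (.e (nat_lit 401418) (nat_lit 0) (.e (nat_lit 2475) (nat_lit 157) .nil)))))))) (.g (nat_lit 7) .nil .nil)))) (.nd (nat_lit 6) 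
(.lf (nat_lit 106290) (.g (nat_lit 1041) (.e (nat_lit 4602) (nat_lit 269) (.e (nat_lit 1221) (nat_lit 90) (.e (nat_lit 81962) (nat_lit 25) (.e (nat_lit 139276) (nat_lit 2) .nil)))) .nil)) 
(.lf (nat_lit 106354) (.g (nat_lit 1945) (.e (nat_lit 4630) (nat_lit 271) (.e (nat_lit 57372) (nat_lit 2) (.e (nat_lit 90176) (nat_lit 15) (.e (nat_lit 196352) (nat_lit 19) .nil)))) .nil))))) (.nd (nat_lit 4) (.nd (nat_lit 5) (.nd (nat_lit 6) 
(.lf (nat_lit 106250) (.g (nat_lit 2132) (.e (nat_lit 4598) (nat_lit 269) (.e (nat_lit 1220) (nat_lit 90) (.e (nat_lit 81950) (nat_lit 21) (.e (nat_lit 57844) (nat_lit 252) .nil)))) .nil)) 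
(.lf (nat_lit 106314) (.g (nat_lit 1701) (.e (nat_lit 4605) (nat_lit 269) (.e (nat_lit 1221) (nat_lit 90) (.e (nat_lit 81959) (nat_lit 24) (.e (nat_lit 123195) (nat_lit 266) .nil)))) .nil))) (.nd (nat_lit 6) 
(.lf (nat_lit 106282) (.g (nat_lit 2276) (.e (nat_lit 4602) (nat_lit 269) (.e (nat_lit 1199) (nat_lit 88) (.e (nat_lit 65610) (nat_lit 10) (.e (nat_lit 344129) (nat_lit 26) (.e (nat_lit 557119) (nat_lit 18) (.e (nat_lit 2798) (nat_lit 180) (.e (nat_lit 303133) (nat_lit 9) (.e (nat_lit 426412) (nat_lit 15) (.e (nat_lit 1039) (nat_lit 81) .nil))))))))) (.g (nat_lit 4) .nil .nil))) 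
(.lf (nat_lit 106346) (.g (nat_lit 2448) (.e (nat_lit 4616) (nat_lit 269) (.e (nat_lit 1200) (nat_lit 88) (.e (nat_lit 65629) (nat_lit 14) (.e (nat_lit 401459) (nat_lit 13) (.e (nat_lit 483344) (nat_lit 17) .nil))))) .nil)))) (.nd (nat_lit 5) (.nd (nat_lit 6) 
(.lf (nat_lit 106266) (.g (nat_lit 2587) (.e (nat_lit 4598) (nat_lit 269) (.e (nat_lit 1221) (nat_lit 90) (.e (nat_lit 81950) (nat_lit 21) (.e (nat_lit 57854) (nat_lit 252) (.e (nat_lit 57389) (nat_lit 5) .nil))))) .nil)) 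
(.lf (nat_lit 106330) (.g (nat_lit 2356) (.e (nat_lit 4607) (nat_lit 269) (.e (nat_lit 1200) (nat_lit 88) (.e (nat_lit 65629) (nat_lit 14) (.e (nat_lit 401459) (nat_lit 13) (.e (nat_lit 483410) (nat_lit 27) .nil))))) .nil))) (.nd (nat_lit 6) 
(.lf (nat_lit 106298) (.g (nat_lit 1134) (.e (nat_lit 4604) (nat_lit 269) (.e (nat_lit 1220) (nat_lit 90) (.e (nat_lit 81962) (nat_lit 25) (.e (nat_lit 139276) (nat_lit 2) (.e (nat_lit 16461) (nat_lit 12) .nil))))) .nil)) 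
(.lf (nat_lit 106362) (.g (nat_lit 2919) (.e (nat_lit 4631) (nat_lit 271) (.e (nat_lit 57447) (nat_lit 19) (.e (nat_lit 393260) (nat_lit 21) (.e (nat_lit 409616) (nat_lit 10) (.e (nat_lit 632) (nat_lit 50) .nil))))) .nil)))))) (.nd (nat_lit 3) (.nd (nat_lit 4) (.nd (nat_lit 5) (.nd (nat_lit 6) 
(.lf (nat_lit 106246) (.g (nat_lit 1808) (.e (nat_lit 4598) (nat_lit 269) (.e (nat_lit 1219) (nat_lit 90) (.e (nat_lit 81948) (nat_lit 21) (.e (nat_lit 57849) (nat_lit 252) (.e (nat_lit 57390) (nat_lit 5) .nil))))) .nil)) 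
(.lf (nat_lit 106310) (.g (nat_lit 706) (.e (nat_lit 4605) (nat_lit 269) (.e (nat_lit 1196) (nat_lit 88) (.e (nat_lit 65583) (nat_lit 7) (.e (nat_lit 319530) (nat_lit 16) .nil)))) .nil))) (.nd (nat_lit 6) 
(.lf (nat_lit 106278) (.g (nat_lit 1808) (.e (nat_lit 4602) (nat_lit 269) (.e (nat_lit 1178) (nat_lit 87) (.e (nat_lit 57480) (nat_lit 28) (.e (nat_lit 557108) (nat_lit 15) (.e (nat_lit 188452) (nat_lit 23) (.e (nat_lit 204885) (nat_lit 33) (.e (nat_lit 401418) (nat_lit 0) (.e (nat_lit 2475) (nat_lit 157) .nil)))))))) (.g (nat_lit 4) .nil .nil))) 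
(.lf (nat_lit 106342) (.g (nat_lit 3632) (.e (nat_lit 4616) (nat_lit 269) (.e (nat_lit 1199) (nat_lit 88) (.e (nat_lit 65630) (nat_lit 14) (.e (nat_lit 401459) (nat_lit 13) (.e (nat_lit 483411) (nat_lit 27) (.e (nat_lit 401414) (nat_lit 0) (.e (nat_lit 2424) (nat_lit 157) .nil))))))) (.g (nat_lit 5) .nil .nil))))) (.nd (nat_lit 5) (.nd (nat_lit 6) 
(.lf (nat_lit 106262) (.g (nat_lit 1931) (.e (nat_lit 4598) (nat_lit 269) (.e (nat_lit 1221) (nat_lit 90) (.e (nat_lit 81950) (nat_lit 21) (.e (nat_lit 57847) (nat_lit 252) .nil)))) .nil)) 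
(.lf (nat_lit 106326) (.g (nat_lit 2291) (.e (nat_lit 4607) (nat_lit 269) (.e (nat_lit 1199) (nat_lit 88) (.e (nat_lit 65630) (nat_lit 14) (.e (nat_lit 401459) (nat_lit 13) (.e (nat_lit 483344) (nat_lit 17) .nil))))) .nil))) (.nd (nat_lit 6) 
(.lf (nat_lit 106294) (.g (nat_lit 585) (.e (nat_lit 4603) (nat_lit 269) (.e (nat_lit 1209) (nat_lit 89) (.e (nat_lit 73782) (nat_lit 32) .nil))) .nil)) 
(.lf (nat_lit 106358) (.g (nat_lit 1618) (.e (nat_lit 4630) (nat_lit 271) (.e (nat_lit 57375) (nat_lit 2) (.e (nat_lit 90176) (nat_lit 15) (.e (nat_lit 188439) (nat_lit 20) (.e (nat_lit 3579) (nat_lit 223) .nil))))) .nil))))) (.nd (nat_lit 4) (.nd (nat_lit 5) (.nd (nat_lit 6) 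
(.lf (nat_lit 106254) (.g (nat_lit 2746) (.e (nat_lit 4598) (nat_lit 269) (.e (nat_lit 1220) (nat_lit 90) (.e (nat_lit 81950) (nat_lit 21) (.e (nat_lit 57849) (nat_lit 252) (.e (nat_lit 57390) (nat_lit 5) .nil))))) .nil)) 
(.lf (nat_lit 106318) (.g (nat_lit 2595) (.e (nat_lit 4606) (nat_lit 269) (.e (nat_lit 1181) (nat_lit 87) (.e (nat_lit 57480) (nat_lit 28) (.e (nat_lit 557108) (nat_lit 15) (.e (nat_lit 188452) (nat_lit 23) .nil))))) .nil))) (.nd (nat_lit 6) 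
(.lf (nat_lit 106286) (.g (nat_lit 1779) (.e (nat_lit 4602) (nat_lit 269) (.e (nat_lit 1200) (nat_lit 88) (.e (nat_lit 65604) (nat_lit 9) (.e (nat_lit 336028) (nat_lit 3) (.e (nat_lit 106240) (nat_lit 16) .nil))))) .nil)) 
(.lf (nat_lit 106350) (.g (nat_lit 2935) (.e (nat_lit 4616) (nat_lit 269) (.e (nat_lit 1209) (nat_lit 89) (.e (nat_lit 81664) (nat_lit 37) (.e (nat_lit 180271) (nat_lit 26) (.e (nat_lit 704738) (nat_lit 11) (.e (nat_lit 16392) (nat_lit 0) (.e (nat_lit 2397) (nat_lit 157) .nil))))))) (.g (nat_lit 6) .nil .nil))))) (.nd (nat_lit 5) (.nd (nat_lit 6) 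
(.lf (nat_lit 106270) (.g (nat_lit 1796) (.e (nat_lit 4598) (nat_lit 269) (.e (nat_lit 1221) (nat_lit 90) (.e (nat_lit 81959) (nat_lit 24) (.e (nat_lit 123157) (nat_lit 252) .nil)))) .nil)) 
(.lf (nat_lit 106334) (.g (nat_lit 2698) (.e (nat_lit 4608) (nat_lit 269) (.e (nat_lit 1221) (nat_lit 90) (.e (nat_lit 81956) (nat_lit 23) (.e (nat_lit 106240) (nat_lit 16) .nil)))) .nil))) (.nd (nat_lit 6) 
(.lf (nat_lit 106302) (.g (nat_lit 2856) (.e (nat_lit 4605) (nat_lit 269) (.e (nat_lit 1181) (nat_lit 87) (.e (nat_lit 57480) (nat_lit 28) (.e (nat_lit 557097) (nat_lit 13) (.e (nat_lit 172115) (nat_lit 10) .nil))))) .nil)) 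
(.lf (nat_lit 106366) (.g (nat_lit 1643) (.e (nat_lit 4632) (nat_lit 271) (.e (nat_lit 57375) (nat_lit 2) (.e (nat_lit 90172) (nat_lit 14) (.e (nat_lit 180276) (nat_lit 32) .nil)))) .nil)))))))) (.nd (nat_lit 1) (.nd (nat_lit 2) (.nd (nat_lit 3) (.nd (nat_lit 4) (.nd (nat_lit 5) (.nd (nat_lit 6) 
(.lf (nat_lit 106241) (.g (nat_lit 4726) (.e (nat_lit 4598) (nat_lit 269) (.e (nat_lit 1200) (nat_lit 88) (.e (nat_lit 65629) (nat_lit 14) (.e (nat_lit 401459) (nat_lit 13) (.e (nat_lit 483411) (nat_lit 27) (.e (nat_lit 401414) (nat_lit 0) (.e (nat_lit 2426) (nat_lit 157) .nil))))))) (.g (nat_lit 6) .nil .nil))) 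
(.lf (nat_lit 106305) (.g (nat_lit 2767) (.e (nat_lit 4605) (nat_lit 269) (.e (nat_lit 1182) (nat_lit 87) (.e (nat_lit 57479) (nat_lit 28) (.e (nat_lit 557095) (nat_lit 13) (.e (nat_lit 172115) (nat_lit 10) .nil))))) .nil))) (.nd (nat_lit 6) 
(.lf (nat_lit 106273) (.g (nat_lit 1551) (.e (nat_lit 4598) (nat_lit 269) (.e (nat_lit 1221) (nat_lit 90) (.e (nat_lit 81959) (nat_lit 24) (.e (nat_lit 123195) (nat_lit 266) .nil)))) .nil)) 
(.lf (nat_lit 106337) (.g (nat_lit 1503) (.e (nat_lit 4616) (nat_lit 269) (.e (nat_lit 1182) (nat_lit 87) (.e (nat_lit 57480) (nat_lit 28) (.e (nat_lit 557098) (nat_lit 13) (.e (nat_lit 172115) (nat_lit 10) .nil))))) .nil)))) (.nd (nat_lit 5) (.nd (nat_lit 6) 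
(.lf (nat_lit 106257) (.g (nat_lit 1931) (.e (nat_lit 4598) (nat_lit 269) (.e (nat_lit 1221) (nat_lit 90) (.e (nat_lit 81950) (nat_lit 21) (.e (nat_lit 57844) (nat_lit 252) .nil)))) .nil)) 
(.lf (nat_lit 106321) (.g (nat_lit 1812) (.e (nat_lit 4607) (nat_lit 269) (.e (nat_lit 1178) (nat_lit 87) (.e (nat_lit 57480) (nat_lit 28) (.e (nat_lit 557108) (nat_lit 15) (.e (nat_lit 188452) (nat_lit 23) (.e (nat_lit 204885) (nat_lit 33) (.e (nat_lit 401418) (nat_lit 0) (.e (nat_lit 2451) (nat_lit 157) .nil)))))))) (.g (nat_lit 4) .nil .nil)))) (.nd (nat_lit 6) 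
(.lf (nat_lit 106289) (.g (nat_lit 2698) (.e (nat_lit 4602) (nat_lit 269) (.e (nat_lit 1221) (nat_lit 90) (.e (nat_lit 81956) (nat_lit 23) (.e (nat_lit 106240) (nat_lit 16) .nil)))) .nil)) 
(.lf (nat_lit 106353) (.g (nat_lit 4122) (.e (nat_lit 4616) (nat_lit 269) (.e (nat_lit 1221) (nat_lit 90) (.e (nat_lit 81959) (nat_lit 24) (.e (nat_lit 123229) (nat_lit 282) (.e (nat_lit 163896) (nat_lit 10) (.e (nat_lit 409649) (nat_lit 18) (.e (nat_lit 303111) (nat_lit 0) (.e (nat_lit 2424) (nat_lit 157) .nil)))))))) (.g (nat_lit 7) .nil .nil)))))) 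
(.nd (nat_lit 4) (.nd (nat_lit 5) (.nd (nat_lit 6) 
(.lf (nat_lit 106249) (.g (nat_lit 478) (.e (nat_lit 4598) (nat_lit 269) (.e (nat_lit 1220) (nat_lit 90) (.e (nat_lit 81950) (nat_lit 21) .nil))) .nil)) 
(.lf (nat_lit 106313) (.g (nat_lit 545) (.e (nat_lit 4605) (nat_lit 269) (.e (nat_lit 1221) (nat_lit 90) (.e (nat_lit 81959) (nat_lit 24) .nil))) .nil))) (.nd (nat_lit 6) 
(.lf (nat_lit 106281) (.g (nat_lit 2134) (.e (nat_lit 4602) (nat_lit 269) (.e (nat_lit 1199) (nat_lit 88) (.e (nat_lit 65610) (nat_lit 10) (.e (nat_lit 344129) (nat_lit 26) (.e (nat_lit 557119) (nat_lit 18) (.e (nat_lit 2798) (nat_lit 180) (.e (nat_lit 303133) (nat_lit 9) (.e (nat_lit 426412) (nat_lit 15) (.e (nat_lit 1017) (nat_lit 81) .nil))))))))) (.g (nat_lit 4) .nil .nil))) 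
(.lf (nat_lit 106345) (.g (nat_lit 3928) (.e (nat_lit 4616) (nat_lit 269) (.e (nat_lit 1200) (nat_lit 88) (.e (nat_lit 65628) (nat_lit 14) (.e (nat_lit 401459) (nat_lit 13) (.e (nat_lit 483411) (nat_lit 27) (.e (nat_lit 401414) (nat_lit 0) (.e (nat_lit 2424) (nat_lit 157) .nil))))))) (.g (nat_lit 6) .nil .nil))))) (.nd (nat_lit 5) (.nd (nat_lit 6) 
(.lf (nat_lit 106265) (.g (nat_lit 1931) (.e (nat_lit 4598) (nat_lit 269) (.e (nat_lit 1221) (nat_lit 90) (.e (nat_lit 81950) (nat_lit 21) (.e (nat_lit 57854) (nat_lit 252) .nil)))) .nil)) 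
(.lf (nat_lit 106329) (.g (nat_lit 2462) (.e (nat_lit 4607) (nat_lit 269) (.e (nat_lit 1200) (nat_lit 88) (.e (nat_lit 65629) (nat_lit 14) (.e (nat_lit 401459) (nat_lit 13) (.e (nat_lit 483344) (nat_lit 17) .nil))))) .nil))) (.nd (nat_lit 6) 
(.lf (nat_lit 106297) (.g (nat_lit 1045) (.e (nat_lit 4603) (nat_lit 269) (.e (nat_lit 1221) (nat_lit 90) (.e (nat_lit 81962) (nat_lit 25) (.e (nat_lit 139276) (nat_lit 2) .nil)))) .nil)) 
(.lf (nat_lit 106361) (.g (nat_lit 941) (.e (nat_lit 4631) (nat_lit 271) (.e (nat_lit 57372) (nat_lit 2) (.e (nat_lit 90176) (nat_lit 15) .nil))) .nil)))))) (.nd (nat_lit 3) (.nd (nat_lit 4) (.nd (nat_lit 5) (.nd (nat_lit 6) 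
(.lf (nat_lit 106245) (.g (nat_lit 1753) (.e (nat_lit 4598) (nat_lit 269) (.e (nat_lit 1219) (nat_lit 90) (.e (nat_lit 81948) (nat_lit 21) (.e (nat_lit 57849) (nat_lit 252) (.e (nat_lit 57388) (nat_lit 5) .nil))))) .nil)) 
(.lf (nat_lit 106309) (.g (nat_lit 2933) (.e (nat_lit 4605) (nat_lit 269) (.e (nat_lit 1190) (nat_lit 88) (.e (nat_lit 65630) (nat_lit 14) (.e (nat_lit 401459) (nat_lit 13) (.e (nat_lit 483410) (nat_lit 27) (.e (nat_lit 401414) (nat_lit 0) (.e (nat_lit 2458) (nat_lit 157) .nil))))))) (.g (nat_lit 4) .nil .nil)))) (.nd (nat_lit 6) 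
(.lf (nat_lit 106277) (.g (nat_lit 3312) (.e (nat_lit 4602) (nat_lit 269) (.e (nat_lit 1178) (nat_lit 87) (.e (nat_lit 57480) (nat_lit 28) (.e (nat_lit 557108) (nat_lit 15) (.e (nat_lit 188452) (nat_lit 23) (.e (nat_lit 204885) (nat_lit 33) (.e (nat_lit 401418) (nat_lit 0) (.e (nat_lit 2452) (nat_lit 157) .nil)))))))) (.g (nat_lit 8) .nil .nil))) 
(.lf (nat_lit 106341) (.g (nat_lit 2127) (.e (nat_lit 4616) (nat_lit 269) (.e (nat_lit 1190) (nat_lit 88) (.e (nat_lit 65630) (nat_lit 14) (.e (nat_lit 401457) (nat_lit 13) (.e (nat_lit 483413) (nat_lit 27) .nil))))) .nil)))) (.nd (nat_lit 5) (.nd (nat_lit 6) 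
(.lf (nat_lit 106261) (.g (nat_lit 2670) (.e (nat_lit 4598) (nat_lit 269) (.e (nat_lit 1221) (nat_lit 90) (.e (nat_lit 81950) (nat_lit 21) (.e (nat_lit 57846) (nat_lit 252) (.e (nat_lit 57390) (nat_lit 5) .nil))))) .nil)) 
(.lf (nat_lit 106325) (.g (nat_lit 3222) (.e (nat_lit 4607) (nat_lit 269) (.e (nat_lit 1181) (nat_lit 87) (.e (nat_lit 57480) (nat_lit 28) (.e (nat_lit 557109) (nat_lit 15) (.e (nat_lit 188434) (nat_lit 20) .nil))))) .nil))) (.nd (nat_lit 6) 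
(.lf (nat_lit 106293) (.g (nat_lit 4435) (.e (nat_lit 4603) (nat_lit 269) (.e (nat_lit 1190) (nat_lit 88) (.e (nat_lit 65630) (nat_lit 14) (.e (nat_lit 401459) (nat_lit 13) (.e (nat_lit 483411) (nat_lit 27) (.e (nat_lit 401414) (nat_lit 0) (.e (nat_lit 2438) (nat_lit 157) .nil))))))) (.g (nat_lit 6) .nil .nil))) 
(.lf (nat_lit 106357) (.g (nat_lit 1354) (.e (nat_lit 4630) (nat_lit 271) (.e (nat_lit 57375) (nat_lit 2) (.e (nat_lit 90176) (nat_lit 15) (.e (nat_lit 188439) (nat_lit 20) .nil)))) .nil))))) (.nd (nat_lit 4) (.nd (nat_lit 5) (.nd (nat_lit 6) 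
(.lf (nat_lit 106253) (.g (nat_lit 2739) (.e (nat_lit 4598) (nat_lit 269) (.e (nat_lit 1220) (nat_lit 90) (.e (nat_lit 81950) (nat_lit 21) (.e (nat_lit 57849) (nat_lit 252) (.e (nat_lit 57388) (nat_lit 5) .nil))))) .nil)) 
(.lf (nat_lit 106317) (.g (nat_lit 3566) (.e (nat_lit 4606) (nat_lit 269) (.e (nat_lit 1181) (nat_lit 87) (.e (nat_lit 57479) (nat_lit 28) (.e (nat_lit 557109) (nat_lit 15) (.e (nat_lit 188452) (nat_lit 23) .nil))))) .nil))) (.nd (nat_lit 6) 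
(.lf (nat_lit 106285) (.g (nat_lit 1038) (.e (nat_lit 4602) (nat_lit 269) (.e (nat_lit 1199) (nat_lit 88) (.e (nat_lit 65629) (nat_lit 14) (.e (nat_lit 401459) (nat_lit 13) .nil)))) .nil)) 
(.lf (nat_lit 106349) (.g (nat_lit 2371) (.e (nat_lit 4616) (nat_lit 269) (.e (nat_lit 1200) (nat_lit 88) (.e (nat_lit 65630) (nat_lit 14) (.e (nat_lit 401459) (nat_lit 13) (.e (nat_lit 483344) (nat_lit 17) .nil))))) .nil)))) (.nd (nat_lit 5) (.nd (nat_lit 6) 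
(.lf (nat_lit 106269) (.g (nat_lit 1732) (.e (nat_lit 4598) (nat_lit 269) (.e (nat_lit 1221) (nat_lit 90) (.e (nat_lit 81959) (nat_lit 24) (.e (nat_lit 123156) (nat_lit 252) (.e (nat_lit 57390) (nat_lit 5) .nil))))) .nil)) 
(.lf (nat_lit 106333) (.g (nat_lit 2751) (.e (nat_lit 4608) (nat_lit 269) (.e (nat_lit 1220) (nat_lit 90) (.e (nat_lit 81956) (nat_lit 23) (.e (nat_lit 106240) (nat_lit 16) .nil)))) .nil))) (.nd (nat_lit 6) 
(.lf (nat_lit 106301) (.g (nat_lit 3566) (.e (nat_lit 4605) (nat_lit 269) (.e (nat_lit 1181) (nat_lit 87) (.e (nat_lit 57479) (nat_lit 28) (.e (nat_lit 557109) (nat_lit 15) (.e (nat_lit 188452) (nat_lit 23) .nil))))) .nil)) 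
(.lf (nat_lit 106365) (.g (nat_lit 770) (.e (nat_lit 4632) (nat_lit 271) (.e (nat_lit 57375) (nat_lit 2) (.e (nat_lit 90172) (nat_lit 14) .nil))) .nil))))))) (.nd (nat_lit 2) (.nd (nat_lit 3) (.nd (nat_lit 4) (.nd (nat_lit 5) (.nd (nat_lit 6) 
(.lf (nat_lit 106243) (.g (nat_lit 2894) (.e (nat_lit 4598) (nat_lit 269) (.e (nat_lit 1200) (nat_lit 88) (.e (nat_lit 65630) (nat_lit 14) (.e (nat_lit 401459) (nat_lit 13) (.e (nat_lit 483343) (nat_lit 17) .nil))))) .nil)) 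
(.lf (nat_lit 106307) (.g (nat_lit 3469) (.e (nat_lit 4605) (nat_lit 269) (.e (nat_lit 1188) (nat_lit 88) (.e (nat_lit 65630) (nat_lit 14) (.e (nat_lit 401459) (nat_lit 13) (.e (nat_lit 483411) (nat_lit 27) (.e (nat_lit 401414) (nat_lit 0) (.e (nat_lit 2458) (nat_lit 157) .nil))))))) (.g (nat_lit 6) .nil .nil)))) (.nd (nat_lit 6) 
(.lf (nat_lit 106275) (.g (nat_lit 1872) (.e (nat_lit 4602) (nat_lit 269) (.e (nat_lit 1178) (nat_lit 87) (.e (nat_lit 57480) (nat_lit 28) (.e (nat_lit 557108) (nat_lit 15) (.e (nat_lit 188452) (nat_lit 23) (.e (nat_lit 204885) (nat_lit 33) (.e (nat_lit 401414) (nat_lit 0) (.e (nat_lit 2416) (nat_lit 157) .nil)))))))) (.g (nat_lit 4) .nil .nil))) 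
(.lf (nat_lit 106339) (.g (nat_lit 4145) (.e (nat_lit 4616) (nat_lit 269) (.e (nat_lit 1190) (nat_lit 88) (.e (nat_lit 65628) (nat_lit 14) (.e (nat_lit 401459) (nat_lit 13) (.e (nat_lit 483411) (nat_lit 27) (.e (nat_lit 401414) (nat_lit 0) (.e (nat_lit 2424) (nat_lit 157) .nil))))))) (.g (nat_lit 7) .nil .nil))))) (.nd (nat_lit 5) (.nd (nat_lit 6) 
(.lf (nat_lit 106259) (.g (nat_lit 1931) (.e (nat_lit 4598) (nat_lit 269) (.e (nat_lit 1221) (nat_lit 90) (.e (nat_lit 81950) (nat_lit 21) (.e (nat_lit 57846) (nat_lit 252) .nil)))) .nil)) 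
(.lf (nat_lit 106323) (.g (nat_lit 3566) (.e (nat_lit 4607) (nat_lit 269) (.e (nat_lit 1181) (nat_lit 87) (.e (nat_lit 57479) (nat_lit 28) (.e (nat_lit 557109) (nat_lit 15) (.e (nat_lit 188452) (nat_lit 23) .nil))))) .nil))) (.nd (nat_lit 6) 
(.lf (nat_lit 106291) (.g (nat_lit 3271) (.e (nat_lit 4603) (nat_lit 269) (.e (nat_lit 1182) (nat_lit 87) (.e (nat_lit 57479) (nat_lit 28) (.e (nat_lit 557109) (nat_lit 15) (.e (nat_lit 188452) (nat_lit 23) (.e (nat_lit 204885) (nat_lit 33) (.e (nat_lit 401414) (nat_lit 0) (.e (nat_lit 2438) (nat_lit 157) .nil)))))))) (.g (nat_lit 4) .nil .nil))) 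
(.lf (nat_lit 106355) (.g (nat_lit 1965) (.e (nat_lit 4630) (nat_lit 271) (.e (nat_lit 57372) (nat_lit 2) (.e (nat_lit 90176) (nat_lit 15) (.e (nat_lit 188439) (nat_lit 20) (.e (nat_lit 3578) (nat_lit 223) .nil))))) .nil))))) (.nd (nat_lit 4) (.nd (nat_lit 5) (.nd (nat_lit 6) 
(.lf (nat_lit 106251) (.g (nat_lit 2132) (.e (nat_lit 4598) (nat_lit 269) (.e (nat_lit 1220) (nat_lit 90) (.e (nat_lit 81950) (nat_lit 21) (.e (nat_lit 57846) (nat_lit 252) .nil)))) .nil)) 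
(.lf (nat_lit 106315) (.g (nat_lit 2201) (.e (nat_lit 4605) (nat_lit 269) (.e (nat_lit 1221) (nat_lit 90) (.e (nat_lit 81959) (nat_lit 24) (.e (nat_lit 123195) (nat_lit 266) (.e (nat_lit 57400) (nat_lit 10) .nil))))) .nil))) (.nd (nat_lit 6) 
(.lf (nat_lit 106283) (.g (nat_lit 1927) (.e (nat_lit 4602) (nat_lit 269) (.e (nat_lit 1199) (nat_lit 88) (.e (nat_lit 65617) (nat_lit 10) (.e (nat_lit 344130) (nat_lit 26) (.e (nat_lit 557119) (nat_lit 18) .nil))))) .nil)) 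
(.lf (nat_lit 106347) (.g (nat_lit 4547) (.e (nat_lit 4616) (nat_lit 269) (.e (nat_lit 1200) (nat_lit 88) (.e (nat_lit 65629) (nat_lit 14) (.e (nat_lit 401459) (nat_lit 13) (.e (nat_lit 483411) (nat_lit 27) (.e (nat_lit 401414) (nat_lit 0) (.e (nat_lit 2424) (nat_lit 157) .nil))))))) (.g (nat_lit 6) .nil .nil))))) (.nd (nat_lit 5) (.nd (nat_lit 6) 
(.lf (nat_lit 106267) (.g (nat_lit 1491) (.e (nat_lit 4598) (nat_lit 269) (.e (nat_lit 1221) (nat_lit 90) (.e (nat_lit 81959) (nat_lit 24) (.e (nat_lit 123156) (nat_lit 252) .nil)))) .nil)) 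
(.lf (nat_lit 106331) (.g (nat_lit 4661) (.e (nat_lit 4607) (nat_lit 269) (.e (nat_lit 1200) (nat_lit 88) (.e (nat_lit 65629) (nat_lit 14) (.e (nat_lit 401459) (nat_lit 13) (.e (nat_lit 483411) (nat_lit 27) (.e (nat_lit 401414) (nat_lit 0) (.e (nat_lit 2478) (nat_lit 157) .nil))))))) (.g (nat_lit 6) .nil .nil)))) (.nd (nat_lit 6) 
(.lf (nat_lit 106299) (.g (nat_lit 1855) (.e (nat_lit 4605) (nat_lit 269) (.e (nat_lit 1178) (nat_lit 87) (.e (nat_lit 57480) (nat_lit 28) (.e (nat_lit 557108) (nat_lit 15) (.e (nat_lit 188452) (nat_lit 23) (.e (nat_lit 204885) (nat_lit 33) (.e (nat_lit 401414) (nat_lit 0) (.e (nat_lit 2480) (nat_lit 157) .nil)))))))) (.g (nat_lit 4) .nil .nil))) 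
(.lf (nat_lit 106363) (.g (nat_lit 3150) (.e (nat_lit 4631) (nat_lit 271) (.e (nat_lit 57447) (nat_lit 19) (.e (nat_lit 393260) (nat_lit 21) (.e (nat_lit 409617) (nat_lit 10) (.e (nat_lit 632) (nat_lit 50) .nil))))) .nil)))))) (.nd (nat_lit 3) (.nd (nat_lit 4) (.nd (nat_lit 5) (.nd (nat_lit 6) 
(.lf (nat_lit 106247) (.g (nat_lit 1616) (.e (nat_lit 4598) (nat_lit 269) (.e (nat_lit 1219) (nat_lit 90) (.e (nat_lit 81948) (nat_lit 21) (.e (nat_lit 57854) (nat_lit 252) (.e (nat_lit 57388) (nat_lit 5) .nil))))) .nil)) 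
(.lf (nat_lit 106311) (.g (nat_lit 3651) (.e (nat_lit 4605) (nat_lit 269) (.e (nat_lit 1199) (nat_lit 88) (.e (nat_lit 65630) (nat_lit 14) (.e (nat_lit 401459) (nat_lit 13) (.e (nat_lit 483411) (nat_lit 27) (.e (nat_lit 401414) (nat_lit 0) (.e (nat_lit 2458) (nat_lit 157) .nil))))))) (.g (nat_lit 5) .nil .nil)))) (.nd (nat_lit 6) 
(.lf (nat_lit 106279) (.g (nat_lit 1639) (.e (nat_lit 4602) (nat_lit 269) (.e (nat_lit 1190) (nat_lit 88) (.e (nat_lit 65604) (nat_lit 9) (.e (nat_lit 336028) (nat_lit 3) (.e (nat_lit 106240) (nat_lit 16) .nil))))) .nil)) 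
(.lf (nat_lit 106343) (.g (nat_lit 3646) (.e (nat_lit 4616) (nat_lit 269) (.e (nat_lit 1199) (nat_lit 88) (.e (nat_lit 65630) (nat_lit 14) (.e (nat_lit 401459) (nat_lit 13) (.e (nat_lit 483411) (nat_lit 27) (.e (nat_lit 401414) (nat_lit 0) (.e (nat_lit 2425) (nat_lit 157) .nil))))))) (.g (nat_lit 5) .nil .nil))))) (.nd (nat_lit 5) (.nd (nat_lit 6) 
(.lf (nat_lit 106263) (.g (nat_lit 1931) (.e (nat_lit 4598) (nat_lit 269) (.e (nat_lit 1221) (nat_lit 90) (.e (nat_lit 81950) (nat_lit 21) (.e (nat_lit 57848) (nat_lit 252) .nil)))) .nil)) 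
(.lf (nat_lit 106327) (.g (nat_lit 2104) (.e (nat_lit 4607) (nat_lit 269) (.e (nat_lit 1200) (nat_lit 88) (.e (nat_lit 65628) (nat_lit 14) (.e (nat_lit 401459) (nat_lit 13) (.e (nat_lit 483344) (nat_lit 17) .nil))))) .nil))) (.nd (nat_lit 6) 
(.lf (nat_lit 106295) (.g (nat_lit 2732) (.e (nat_lit 4603) (nat_lit 269) (.e (nat_lit 1220) (nat_lit 90) (.e (nat_lit 81956) (nat_lit 23) (.e (nat_lit 106240) (nat_lit 16) .nil)))) .nil)) 
(.lf (nat_lit 106359) (.g (nat_lit 2929) (.e (nat_lit 4630) (nat_lit 271) (.e (nat_lit 57447) (nat_lit 19) (.e (nat_lit 393260) (nat_lit 21) (.e (nat_lit 409616) (nat_lit 10) (.e (nat_lit 632) (nat_lit 50) (.e (nat_lit 573489) (nat_lit 14) (.e (nat_lit 73728) (nat_lit 0) .nil))))))) (.g (nat_lit 4) .nil .nil)))))) (.nd (nat_lit 4) (.nd (nat_lit 5) (.nd (nat_lit 6) 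
(.lf (nat_lit 106255) (.g (nat_lit 2132) (.e (nat_lit 4598) (nat_lit 269) (.e (nat_lit 1220) (nat_lit 90) (.e (nat_lit 81950) (nat_lit 21) (.e (nat_lit 57854) (nat_lit 252) .nil)))) .nil)) 
(.lf (nat_lit 106319) (.g (nat_lit 2331) (.e (nat_lit 4606) (nat_lit 269) (.e (nat_lit 1200) (nat_lit 88) (.e (nat_lit 65629) (nat_lit 14) (.e (nat_lit 401459) (nat_lit 13) (.e (nat_lit 483410) (nat_lit 27) .nil))))) .nil))) (.nd (nat_lit 6) 
(.lf (nat_lit 106287) (.g (nat_lit 1960) (.e (nat_lit 4602) (nat_lit 269) (.e (nat_lit 1200) (nat_lit 88) (.e (nat_lit 65619) (nat_lit 10) (.e (nat_lit 344117) (nat_lit 21) (.e (nat_lit 524032) (nat_lit 33) .nil))))) .nil)) 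
(.lf (nat_lit 106351) (.g (nat_lit 1338) (.e (nat_lit 4616) (nat_lit 269) (.e (nat_lit 1221) (nat_lit 90) (.e (nat_lit 81959) (nat_lit 24) (.e (nat_lit 123195) (nat_lit 266) .nil)))) .nil)))) (.nd (nat_lit 5) (.nd (nat_lit 6) 
(.lf (nat_lit 106271) (.g (nat_lit 1720) (.e (nat_lit 4598) (nat_lit 269) (.e (nat_lit 1221) (nat_lit 90) (.e (nat_lit 81959) (nat_lit 24) (.e (nat_lit 123182) (nat_lit 264) .nil)))) .nil)) 
(.lf (nat_lit 106335) (.g (nat_lit 4024) (.e (nat_lit 4616) (nat_lit 269) (.e (nat_lit 1178) (nat_lit 87) (.e (nat_lit 57480) (nat_lit 28) (.e (nat_lit 557108) (nat_lit 15) (.e (nat_lit 188452) (nat_lit 23) (.e (nat_lit 204885) (nat_lit 33) (.e (nat_lit 401414) (nat_lit 0) (.e (nat_lit 2424) (nat_lit 157) .nil)))))))) (.g (nat_lit 8) .nil .nil)))) (.nd (nat_lit 6) 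
(.lf (nat_lit 106303) (.g (nat_lit 2595) (.e (nat_lit 4605) (nat_lit 269) (.e (nat_lit 1181) (nat_lit 87) (.e (nat_lit 57480) (nat_lit 28) (.e (nat_lit 557108) (nat_lit 15) (.e (nat_lit 188452) (nat_lit 23) .nil))))) .nil)) 
(.lf (nat_lit 106367) (.g (nat_lit 471) (.e (nat_lit 4632) (nat_lit 271) (.e (nat_lit 57375) (nat_lit 2) (.e (nat_lit 90176) (nat_lit 15) .nil))) .nil)))))))))

noncomputable def tv1448 : DT := (.nd (nat_lit 0) (.nd (nat_lit 1) (.nd (nat_lit 2) (.nd (nat_lit 3) (.nd (nat_lit 4) (.nd (nat_lit 5) (.nd (nat_lit 6) 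
(.lf (nat_lit 106368) (.g (nat_lit 1220) (.e (nat_lit 4632) (nat_lit 271) (.e (nat_lit 57375) (nat_lit 2) (.e (nat_lit 90176) (nat_lit 15) (.e (nat_lit 196352) (nat_lit 19) .nil)))) .nil)) 
(.lf (nat_lit 106432) (.g (nat_lit 1040) (.e (nat_lit 4808) (nat_lit 281) (.e (nat_lit 1122) (nat_lit 83) (.e (nat_lit 16470) (nat_lit 14) (.e (nat_lit 491571) (nat_lit 13) .nil)))) .nil))) (.nd (nat_lit 6) 
(.lf (nat_lit 106400) (.g (nat_lit 923) (.e (nat_lit 4656) (nat_lit 275) (.e (nat_lit 1123) (nat_lit 83) (.e (nat_lit 16412) (nat_lit 2) (.e (nat_lit 196672) (nat_lit 15) .nil)))) .nil)) 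
(.lf (nat_lit 106464) (.g (nat_lit 2661) (.e (nat_lit 4841) (nat_lit 283) (.e (nat_lit 57372) (nat_lit 2) (.e (nat_lit 90176) (nat_lit 15) (.e (nat_lit 188450) (nat_lit 23) (.e (nat_lit 204855) (nat_lit 26) (.e (nat_lit 335928) (nat_lit 0) (.e (nat_lit 990) (nat_lit 81) .nil))))))) (.g (nat_lit 4) .nil .nil))))) (.nd (nat_lit 5) (.nd (nat_lit 6) 
(.lf (nat_lit 106384) (.g (nat_lit 742) (.e (nat_lit 4635) (nat_lit 271) (.e (nat_lit 57375) (nat_lit 2) (.e (nat_lit 90176) (nat_lit 15) .nil))) .nil)) 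
(.lf (nat_lit 106448) (.g (nat_lit 5578) (.e (nat_lit 4840) (nat_lit 283) (.e (nat_lit 57374) (nat_lit 2) (.e (nat_lit 90170) (nat_lit 13) (.e (nat_lit 172106) (nat_lit 10) (.e (nat_lit 434231) (nat_lit 23) (.e (nat_lit 532535) (nat_lit 9) (.e (nat_lit 335905) (nat_lit 0) (.e (nat_lit 968) (nat_lit 81) .nil)))))))) (.g (nat_lit 7) .nil .nil)))) (.nd (nat_lit 6) 
(.lf (nat_lit 106416) (.g (nat_lit 1621) (.e (nat_lit 4754) (nat_lit 281) (.e (nat_lit 1128) (nat_lit 83) (.e (nat_lit 16425) (nat_lit 7) (.e (nat_lit 409642) (nat_lit 17) .nil)))) .nil)) 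
(.lf (nat_lit 106480) (.g (nat_lit 3497) (.e (nat_lit 4841) (nat_lit 283) (.e (nat_lit 57375) (nat_lit 2) (.e (nat_lit 90176) (nat_lit 15) (.e (nat_lit 188450) (nat_lit 23) (.e (nat_lit 204863) (nat_lit 27) (.e (nat_lit 344088) (nat_lit 18) .nil)))))) (.g (nat_lit 6) .nil .nil)))))) (.nd (nat_lit 4) (.nd (nat_lit 5) (.nd (nat_lit 6) 
(.lf (nat_lit 106376) (.g (nat_lit 2998) (.e (nat_lit 4633) (nat_lit 271) (.e (nat_lit 57447) (nat_lit 19) (.e (nat_lit 393260) (nat_lit 21) (.e (nat_lit 409616) (nat_lit 10) (.e (nat_lit 632) (nat_lit 50) (.e (nat_lit 573489) (nat_lit 14) (.e (nat_lit 73728) (nat_lit 0) .nil))))))) (.g (nat_lit 4) .nil .nil))) 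
(.lf (nat_lit 106440) (.g (nat_lit 699) (.e (nat_lit 4840) (nat_lit 283) (.e (nat_lit 57371) (nat_lit 2) (.e (nat_lit 90176) (nat_lit 15) .nil))) .nil))) (.nd (nat_lit 6) 
(.lf (nat_lit 106408) (.g (nat_lit 2780) (.e (nat_lit 4751) (nat_lit 281) (.e (nat_lit 1083) (nat_lit 81) (.e (nat_lit 1661) (nat_lit 115) (.e (nat_lit 393260) (nat_lit 21) (.e (nat_lit 409648) (nat_lit 18) (.e (nat_lit 303151) (nat_lit 27) (.e (nat_lit 335894) (nat_lit 0) (.e (nat_lit 969) (nat_lit 81) .nil)))))))) (.g (nat_lit 5) .nil .nil))) 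
(.lf (nat_lit 106472) (.g (nat_lit 3696) (.e (nat_lit 4841) (nat_lit 283) (.e (nat_lit 57375) (nat_lit 2) (.e (nat_lit 90176) (nat_lit 15) (.e (nat_lit 188447) (nat_lit 22) (.e (nat_lit 196666) (nat_lit 13) (.e (nat_lit 65546) (nat_lit 0) (.e (nat_lit 990) (nat_lit 81) .nil))))))) (.g (nat_lit 7) .nil .nil))))) (.nd (nat_lit 5) (.nd (nat_lit 6) 
(.lf (nat_lit 106392) (.g (nat_lit 2447) (.e (nat_lit 4637) (nat_lit 272) (.e (nat_lit 122919) (nat_lit 15) (.e (nat_lit 360475) (nat_lit 8) (.e (nat_lit 557119) (nat_lit 18) (.e (nat_lit 2798) (nat_lit 180) .nil))))) .nil)) 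
(.lf (nat_lit 106456) (.g (nat_lit 699) (.e (nat_lit 4841) (nat_lit 283) (.e (nat_lit 57371) (nat_lit 2) (.e (nat_lit 90176) (nat_lit 15) .nil))) .nil))) (.nd (nat_lit 6) 
(.lf (nat_lit 106424) (.g (nat_lit 1221) (.e (nat_lit 4797) (nat_lit 281) (.e (nat_lit 1182) (nat_lit 87) (.e (nat_lit 57465) (nat_lit 23) (.e (nat_lit 516176) (nat_lit 14) (.e (nat_lit 466975) (nat_lit 22) .nil))))) .nil)) 
(.lf (nat_lit 106488) (.g (nat_lit 4143) (.e (nat_lit 4842) (nat_lit 283) (.e (nat_lit 57373) (nat_lit 2) (.e (nat_lit 90170) (nat_lit 13) (.e (nat_lit 172106) (nat_lit 10) (.e (nat_lit 434231) (nat_lit 23) (.e (nat_lit 532544) (nat_lit 10) (.e (nat_lit 344089) (nat_lit 18) .nil))))))) (.g (nat_lit 6) .nil .nil))))))) (.nd (nat_lit 3) (.nd (nat_lit 4) (.nd (nat_lit 5) (.nd (nat_lit 6) 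
(.lf (nat_lit 106372) (.g (nat_lit 3265) (.e (nat_lit 4633) (nat_lit 271) (.e (nat_lit 57374) (nat_lit 2) (.e (nat_lit 90170) (nat_lit 13) (.e (nat_lit 172106) (nat_lit 10) (.e (nat_lit 434202) (nat_lit 18) .nil))))) .nil)) 
(.lf (nat_lit 106436) (.g (nat_lit 2292) (.e (nat_lit 4825) (nat_lit 281) (.e (nat_lit 2540) (nat_lit 158) (.e (nat_lit 8326) (nat_lit 69) (.e (nat_lit 557100) (nat_lit 13) (.e (nat_lit 172106) (nat_lit 10) (.e (nat_lit 434231) (nat_lit 23) (.e (nat_lit 532535) (nat_lit 9) (.e (nat_lit 335925) (nat_lit 0) (.e (nat_lit 1013) (nat_lit 81) .nil))))))))) (.g (nat_lit 5) .nil .nil)))) (.nd (nat_lit 6) 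
(.lf (nat_lit 106404) (.g (nat_lit 721) (.e (nat_lit 4735) (nat_lit 277) (.e (nat_lit 57378) (nat_lit 3) (.e (nat_lit 98317) (nat_lit 9) .nil))) .nil)) 
(.lf (nat_lit 106468) (.g (nat_lit 2376) (.e (nat_lit 4841) (nat_lit 283) (.e (nat_lit 57373) (nat_lit 2) (.e (nat_lit 90170) (nat_lit 13) (.e (nat_lit 172106) (nat_lit 10) (.e (nat_lit 434231) (nat_lit 23) (.e (nat_lit 532529) (nat_lit 9) (.e (nat_lit 335878) (nat_lit 0) (.e (nat_lit 996) (nat_lit 81) .nil)))))))) (.g (nat_lit 4) .nil .nil))))) (.nd (nat_lit 5) (.nd (nat_lit 6) 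
(.lf (nat_lit 106388) (.g (nat_lit 3168) (.e (nat_lit 7936) (nat_lit 271) (.e (nat_lit 57427) (nat_lit 15) (.e (nat_lit 360474) (nat_lit 8) (.e (nat_lit 557119) (nat_lit 18) .nil)))) .nil)) 
(.lf (nat_lit 106452) (.g (nat_lit 824) (.e (nat_lit 4840) (nat_lit 283) (.e (nat_lit 57377) (nat_lit 3) (.e (nat_lit 98389) (nat_lit 33) .nil))) .nil))) (.nd (nat_lit 6) 
(.lf (nat_lit 106420) (.g (nat_lit 1734) (.e (nat_lit 4780) (nat_lit 281) (.e (nat_lit 1010) (nat_lit 81) (.e (nat_lit 1401) (nat_lit 106) (.e (nat_lit 319534) (nat_lit 16) (.e (nat_lit 286739) (nat_lit 7) .nil))))) .nil)) 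
(.lf (nat_lit 106484) (.g (nat_lit 1389) (.e (nat_lit 4841) (nat_lit 283) (.e (nat_lit 57379) (nat_lit 3) (.e (nat_lit 98365) (nat_lit 26) (.e (nat_lit 426298) (nat_lit 11) .nil)))) .nil))))) (.nd (nat_lit 4) (.nd (nat_lit 5) (.nd (nat_lit 6) 
(.lf (nat_lit 106380) (.g (nat_lit 1237) (.e (nat_lit 4634) (nat_lit 271) (.e (nat_lit 57375) (nat_lit 2) (.e (nat_lit 90176) (nat_lit 15) (.e (nat_lit 196352) (nat_lit 19) .nil)))) .nil)) 
(.lf (nat_lit 106444) (.g (nat_lit 2296) (.e (nat_lit 4840) (nat_lit 283) (.e (nat_lit 57372) (nat_lit 2) (.e (nat_lit 90176) (nat_lit 15) (.e (nat_lit 188450) (nat_lit 23) (.e (nat_lit 204855) (nat_lit 26) .nil))))) .nil))) (.nd (nat_lit 6) 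
(.lf (nat_lit 106412) (.g (nat_lit 3252) (.e (nat_lit 4752) (nat_lit 281) (.e (nat_lit 1028) (nat_lit 81) (.e (nat_lit 1237) (nat_lit 91) (.e (nat_lit 90170) (nat_lit 13) (.e (nat_lit 172106) (nat_lit 10) (.e (nat_lit 434231) (nat_lit 23) (.e (nat_lit 532535) (nat_lit 9) (.e (nat_lit 335928) (nat_lit 0) (.e (nat_lit 991) (nat_lit 81) .nil))))))))) (.g (nat_lit 9) .nil .nil))) 
(.lf (nat_lit 106476) (.g (nat_lit 1247) (.e (nat_lit 4841) (nat_lit 283) (.e (nat_lit 57375) (nat_lit 2) (.e (nat_lit 90176) (nat_lit 15) (.e (nat_lit 188450) (nat_lit 23) .nil)))) .nil)))) (.nd (nat_lit 5) (.nd (nat_lit 6) 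
(.lf (nat_lit 106396) (.g (nat_lit 2445) (.e (nat_lit 4640) (nat_lit 272) (.e (nat_lit 122919) (nat_lit 15) (.e (nat_lit 360475) (nat_lit 8) (.e (nat_lit 557119) (nat_lit 18) (.e (nat_lit 2798) (nat_lit 180) .nil))))) .nil)) 
(.lf (nat_lit 106460) (.g (nat_lit 2528) (.e (nat_lit 4841) (nat_lit 283) (.e (nat_lit 57372) (nat_lit 2) (.e (nat_lit 90176) (nat_lit 15) (.e (nat_lit 188447) (nat_lit 22) (.e (nat_lit 196666) (nat_lit 13) .nil))))) .nil))) (.nd (nat_lit 6) 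
(.lf (nat_lit 106428) (.g (nat_lit 445) (.e (nat_lit 4803) (nat_lit 281) (.e (nat_lit 1190) (nat_lit 88) (.e (nat_lit 73472) (nat_lit 27) .nil))) .nil)) 
(.lf (nat_lit 106492) (.g (nat_lit 4528) (.e (nat_lit 4842) (nat_lit 283) (.e (nat_lit 57374) (nat_lit 2) (.e (nat_lit 90170) (nat_lit 13) (.e (nat_lit 172106) (nat_lit 10) (.e (nat_lit 434231) (nat_lit 23) (.e (nat_lit 532535) (nat_lit 9) (.e (nat_lit 335928) (nat_lit 0) (.e (nat_lit 990) (nat_lit 81) .nil)))))))) (.g (nat_lit 8) .nil .nil)))))))) 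
(.nd (nat_lit 2) (.nd (nat_lit 3) (.nd (nat_lit 4) (.nd (nat_lit 5) (.nd (nat_lit 6) 
(.lf (nat_lit 106370) (.g (nat_lit 3036) (.e (nat_lit 4632) (nat_lit 271) (.e (nat_lit 57447) (nat_lit 19) (.e (nat_lit 393260) (nat_lit 21) (.e (nat_lit 409616) (nat_lit 10) (.e (nat_lit 632) (nat_lit 50) (.e (nat_lit 573489) (nat_lit 14) (.e (nat_lit 73728) (nat_lit 0) .nil))))))) (.g (nat_lit 4) .nil .nil))) 
(.lf (nat_lit 106434) (.g (nat_lit 1012) (.e (nat_lit 4808) (nat_lit 281) (.e (nat_lit 1181) (nat_lit 87) (.e (nat_lit 57466) (nat_lit 23) (.e (nat_lit 516177) (nat_lit 14) .nil)))) .nil))) (.nd (nat_lit 6) 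
(.lf (nat_lit 106402) (.g (nat_lit 4477) (.e (nat_lit 4734) (nat_lit 277) (.e (nat_lit 57377) (nat_lit 3) (.e (nat_lit 98317) (nat_lit 9) (.e (nat_lit 336204) (nat_lit 12) .nil)))) .nil)) 
(.lf (nat_lit 106466) (.g (nat_lit 2894) (.e (nat_lit 4841) (nat_lit 283) (.e (nat_lit 57372) (nat_lit 2) (.e (nat_lit 90176) (nat_lit 15) (.e (nat_lit 188450) (nat_lit 23) (.e (nat_lit 204864) (nat_lit 27) .nil))))) .nil)))) (.nd (nat_lit 5) (.nd (nat_lit 6) 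
(.lf (nat_lit 106386) (.g (nat_lit 2919) (.e (nat_lit 4636) (nat_lit 271) (.e (nat_lit 57447) (nat_lit 19) (.e (nat_lit 393260) (nat_lit 21) (.e (nat_lit 409616) (nat_lit 10) (.e (nat_lit 632) (nat_lit 50) .nil))))) .nil)) 
(.lf (nat_lit 106450) (.g (nat_lit 2049) (.e (nat_lit 4840) (nat_lit 283) (.e (nat_lit 57375) (nat_lit 2) (.e (nat_lit 90176) (nat_lit 15) (.e (nat_lit 188450) (nat_lit 23) (.e (nat_lit 204855) (nat_lit 26) .nil))))) .nil))) (.nd (nat_lit 6) 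
(.lf (nat_lit 106418) (.g (nat_lit 1648) (.e (nat_lit 4756) (nat_lit 281) (.e (nat_lit 1128) (nat_lit 83) (.e (nat_lit 16425) (nat_lit 7) (.e (nat_lit 409641) (nat_lit 17) .nil)))) .nil)) 
(.lf (nat_lit 106482) (.g (nat_lit 2126) (.e (nat_lit 4841) (nat_lit 283) (.e (nat_lit 57375) (nat_lit 2) (.e (nat_lit 90176) (nat_lit 15) (.e (nat_lit 188450) (nat_lit 23) (.e (nat_lit 204873) (nat_lit 30) .nil))))) .nil))))) (.nd (nat_lit 4) (.nd (nat_lit 5) (.nd (nat_lit 6) 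
(.lf (nat_lit 106378) (.g (nat_lit 770) (.e (nat_lit 4634) (nat_lit 271) (.e (nat_lit 57375) (nat_lit 2) (.e (nat_lit 90172) (nat_lit 14) .nil))) .nil)) 
(.lf (nat_lit 106442) (.g (nat_lit 3588) (.e (nat_lit 4840) (nat_lit 283) (.e (nat_lit 57372) (nat_lit 2) (.e (nat_lit 90176) (nat_lit 15) (.e (nat_lit 188447) (nat_lit 22) (.e (nat_lit 196666) (nat_lit 13) (.e (nat_lit 65539) (nat_lit 0) (.e (nat_lit 972) (nat_lit 81) .nil))))))) (.g (nat_lit 5) .nil .nil)))) (.nd (nat_lit 6) 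
(.lf (nat_lit 106410) (.g (nat_lit 762) (.e (nat_lit 4751) (nat_lit 281) (.e (nat_lit 1122) (nat_lit 83) (.e (nat_lit 16461) (nat_lit 12) (.e (nat_lit 475207) (nat_lit 41) (.e (nat_lit 712755) (nat_lit 30) .nil))))) .nil)) 
(.lf (nat_lit 106474) (.g (nat_lit 3573) (.e (nat_lit 4841) (nat_lit 283) (.e (nat_lit 57375) (nat_lit 2) (.e (nat_lit 90176) (nat_lit 15) (.e (nat_lit 188447) (nat_lit 22) (.e (nat_lit 196666) (nat_lit 13) (.e (nat_lit 65550) (nat_lit 0) (.e (nat_lit 989) (nat_lit 81) .nil))))))) (.g (nat_lit 5) .nil .nil))))) (.nd (nat_lit 5) (.nd (nat_lit 6) 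
(.lf (nat_lit 106394) (.g (nat_lit 1738) (.e (nat_lit 4638) (nat_lit 272) (.e (nat_lit 122916) (nat_lit 14) (.e (nat_lit 352315) (nat_lit 23) (.e (nat_lit 106240) (nat_lit 16) .nil)))) .nil)) 
(.lf (nat_lit 106458) (.g (nat_lit 2316) (.e (nat_lit 4841) (nat_lit 283) (.e (nat_lit 57371) (nat_lit 2) (.e (nat_lit 90176) (nat_lit 15) (.e (nat_lit 188450) (nat_lit 23) (.e (nat_lit 204863) (nat_lit 27) .nil))))) .nil))) (.nd (nat_lit 6) 
(.lf (nat_lit 106426) (.g (nat_lit 1737) (.e (nat_lit 4803) (nat_lit 281) (.e (nat_lit 1126) (nat_lit 83) (.e (nat_lit 16459) (nat_lit 12) (.e (nat_lit 475211) (nat_lit 41) (.e (nat_lit 712755) (nat_lit 30) .nil))))) .nil)) 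
(.lf (nat_lit 106490) (.g (nat_lit 2396) (.e (nat_lit 4842) (nat_lit 283) (.e (nat_lit 57373) (nat_lit 2) (.e (nat_lit 90176) (nat_lit 15) (.e (nat_lit 188447) (nat_lit 22) (.e (nat_lit 196666) (nat_lit 13) .nil))))) .nil)))))) (.nd (nat_lit 3) (.nd (nat_lit 4) (.nd (nat_lit 5) (.nd (nat_lit 6) 
(.lf (nat_lit 106374) (.g (nat_lit 1555) (.e (nat_lit 4633) (nat_lit 271) (.e (nat_lit 57375) (nat_lit 2) (.e (nat_lit 90176) (nat_lit 15) (.e (nat_lit 188439) (nat_lit 20) .nil)))) .nil)) 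
(.lf (nat_lit 106438) (.g (nat_lit 2358) (.e (nat_lit 4829) (nat_lit 281) (.e (nat_lit 2540) (nat_lit 158) (.e (nat_lit 8326) (nat_lit 69) (.e (nat_lit 557100) (nat_lit 13) (.e (nat_lit 172106) (nat_lit 10) (.e (nat_lit 434231) (nat_lit 23) (.e (nat_lit 532535) (nat_lit 9) (.e (nat_lit 335925) (nat_lit 0) (.e (nat_lit 994) (nat_lit 81) .nil))))))))) (.g (nat_lit 5) .nil .nil)))) (.nd (nat_lit 6) 
(.lf (nat_lit 106406) (.g (nat_lit 3484) (.e (nat_lit 4751) (nat_lit 281) (.e (nat_lit 1027) (nat_lit 81) (.e (nat_lit 1237) (nat_lit 91) (.e (nat_lit 90170) (nat_lit 13) (.e (nat_lit 172106) (nat_lit 10) (.e (nat_lit 434231) (nat_lit 23) (.e (nat_lit 532535) (nat_lit 9) (.e (nat_lit 335908) (nat_lit 0) (.e (nat_lit 973) (nat_lit 81) .nil))))))))) (.g (nat_lit 7) .nil .nil))) 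
(.lf (nat_lit 106470) (.g (nat_lit 5106) (.e (nat_lit 4841) (nat_lit 283) (.e (nat_lit 57374) (nat_lit 2) (.e (nat_lit 90170) (nat_lit 13) (.e (nat_lit 172106) (nat_lit 10) (.e (nat_lit 434231) (nat_lit 23) (.e (nat_lit 532535) (nat_lit 9) (.e (nat_lit 335925) (nat_lit 0) (.e (nat_lit 989) (nat_lit 81) .nil)))))))) (.g (nat_lit 8) .nil .nil))))) (.nd (nat_lit 5) (.nd (nat_lit 6) 
(.lf (nat_lit 106390) (.g (nat_lit 2944) (.e (nat_lit 7936) (nat_lit 271) (.e (nat_lit 57447) (nat_lit 19) (.e (nat_lit 393260) (nat_lit 21) (.e (nat_lit 409617) (nat_lit 10) (.e (nat_lit 632) (nat_lit 50) .nil))))) .nil)) 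
(.lf (nat_lit 106454) (.g (nat_lit 1158) (.e (nat_lit 4840) (nat_lit 283) (.e (nat_lit 57447) (nat_lit 19) (.e (nat_lit 393260) (nat_lit 21) .nil))) .nil))) (.nd (nat_lit 6) 
(.lf (nat_lit 106422) (.g (nat_lit 1661) (.e (nat_lit 4780) (nat_lit 281) (.e (nat_lit 1011) (nat_lit 81) (.e (nat_lit 1401) (nat_lit 106) (.e (nat_lit 319534) (nat_lit 16) (.e (nat_lit 286739) (nat_lit 7) .nil))))) .nil)) 
(.lf (nat_lit 106486) (.g (nat_lit 3397) (.e (nat_lit 4842) (nat_lit 283) (.e (nat_lit 57373) (nat_lit 2) (.e (nat_lit 90170) (nat_lit 13) (.e (nat_lit 172106) (nat_lit 10) (.e (nat_lit 434231) (nat_lit 23) (.e (nat_lit 532543) (nat_lit 10) (.e (nat_lit 344089) (nat_lit 18) .nil))))))) (.g (nat_lit 5) .nil .nil)))))) (.nd (nat_lit 4) (.nd (nat_lit 5) (.nd (nat_lit 6) 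
(.lf (nat_lit 106382) (.g (nat_lit 2919) (.e (nat_lit 4634) (nat_lit 271) (.e (nat_lit 57447) (nat_lit 19) (.e (nat_lit 393260) (nat_lit 21) (.e (nat_lit 409616) (nat_lit 10) (.e (nat_lit 632) (nat_lit 50) .nil))))) .nil)) 
(.lf (nat_lit 106446) (.g (nat_lit 3543) (.e (nat_lit 4840) (nat_lit 283) (.e (nat_lit 57373) (nat_lit 2) (.e (nat_lit 90170) (nat_lit 13) (.e (nat_lit 172106) (nat_lit 10) (.e (nat_lit 434231) (nat_lit 23) (.e (nat_lit 532535) (nat_lit 9) (.e (nat_lit 335908) (nat_lit 0) (.e (nat_lit 973) (nat_lit 81) .nil)))))))) (.g (nat_lit 5) .nil .nil)))) (.nd (nat_lit 6) 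
(.lf (nat_lit 106414) (.g (nat_lit 2247) (.e (nat_lit 4754) (nat_lit 281) (.e (nat_lit 1122) (nat_lit 83) (.e (nat_lit 16473) (nat_lit 14) (.e (nat_lit 491568) (nat_lit 13) (.e (nat_lit 393283) (nat_lit 24) .nil))))) .nil)) 
(.lf (nat_lit 106478) (.g (nat_lit 2208) (.e (nat_lit 4841) (nat_lit 283) (.e (nat_lit 57375) (nat_lit 2) (.e (nat_lit 90176) (nat_lit 15) (.e (nat_lit 188450) (nat_lit 23) (.e (nat_lit 204862) (nat_lit 27) .nil))))) .nil)))) (.nd (nat_lit 5) (.nd (nat_lit 6) 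
(.lf (nat_lit 106398) (.g (nat_lit 2316) (.e (nat_lit 7936) (nat_lit 272) (.e (nat_lit 122919) (nat_lit 15) (.e (nat_lit 360475) (nat_lit 8) (.e (nat_lit 557119) (nat_lit 18) (.e (nat_lit 2798) (nat_lit 180) .nil))))) .nil)) 
(.lf (nat_lit 106462) (.g (nat_lit 1699) (.e (nat_lit 4841) (nat_lit 283) (.e (nat_lit 57372) (nat_lit 2) (.e (nat_lit 90176) (nat_lit 15) (.e (nat_lit 188450) (nat_lit 23) .nil)))) .nil))) (.nd (nat_lit 6) 
(.lf (nat_lit 106430) (.g (nat_lit 1949) (.e (nat_lit 4803) (nat_lit 281) (.e (nat_lit 1211) (nat_lit 89) (.e (nat_lit 73775) (nat_lit 26) (.e (nat_lit 778465) (nat_lit 11) (.e (nat_lit 24665) (nat_lit 14) .nil))))) .nil)) 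
(.lf (nat_lit 106494) (.g (nat_lit 4707) (.e (nat_lit 4842) (nat_lit 283) (.e (nat_lit 57374) (nat_lit 2) (.e (nat_lit 90170) (nat_lit 13) (.e (nat_lit 172106) (nat_lit 10) (.e (nat_lit 434231) (nat_lit 23) (.e (nat_lit 532544) (nat_lit 10) (.e (nat_lit 344088) (nat_lit 18) .nil))))))) (.g (nat_lit 0) .nil .nil))))))))) 
(.nd (nat_lit 1) (.nd (nat_lit 2) (.nd (nat_lit 3) (.nd (nat_lit 4) (.nd (nat_lit 5) 
(.nd (nat_lit 6) 
(.lf (nat_lit 106369) (.g (nat_lit 2864) (.e (nat_lit 4632) (nat_lit 271) (.e (nat_lit 57426) (nat_lit 15) (.e (nat_lit 360475) (nat_lit 8) (.e (nat_lit 557119) (nat_lit 18) (.e (nat_lit 2797) (nat_lit 180) .nil))))) .nil)) 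
(.lf (nat_lit 106433) (.g (nat_lit 1488) (.e (nat_lit 4808) (nat_lit 281) (.e (nat_lit 1125) (nat_lit 83) (.e (nat_lit 16473) (nat_lit 14) (.e (nat_lit 491546) (nat_lit 9) .nil)))) .nil))) (.nd (nat_lit 6) 
(.lf (nat_lit 106401) (.g (nat_lit 1694) (.e (nat_lit 4734) (nat_lit 277) (.e (nat_lit 57375) (nat_lit 2) (.e (nat_lit 90185) (nat_lit 17) (.e (nat_lit 237585) (nat_lit 1) .nil)))) .nil)) 
(.lf (nat_lit 106465) (.g (nat_lit 2753) (.e (nat_lit 4841) (nat_lit 283) (.e (nat_lit 57372) (nat_lit 2) (.e (nat_lit 90176) (nat_lit 15) (.e (nat_lit 188450) (nat_lit 23) (.e (nat_lit 204862) (nat_lit 27) .nil))))) .nil)))) (.nd (nat_lit 5) (.nd (nat_lit 6) 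
(.lf (nat_lit 106385) (.g (nat_lit 1529) (.e (nat_lit 4635) (nat_lit 271) (.e (nat_lit 57375) (nat_lit 2) (.e (nat_lit 90176) (nat_lit 15) (.e (nat_lit 188439) (nat_lit 20) .nil)))) .nil)) 
(.lf (nat_lit 106449) (.g (nat_lit 4557) (.e (nat_lit 4840) (nat_lit 283) (.e (nat_lit 57374) (nat_lit 2) (.e (nat_lit 90170) (nat_lit 13) (.e (nat_lit 172106) (nat_lit 10) (.e (nat_lit 434231) (nat_lit 23) (.e (nat_lit 532535) (nat_lit 9) (.e (nat_lit 335908) (nat_lit 0) (.e (nat_lit 970) (nat_lit 81) .nil)))))))) (.g (nat_lit 6) .nil .nil)))) (.nd (nat_lit 6) 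
(.lf (nat_lit 106417) (.g (nat_lit 1702) (.e (nat_lit 4754) (nat_lit 281) (.e (nat_lit 1128) (nat_lit 83) (.e (nat_lit 16459) (nat_lit 12) (.e (nat_lit 475211) (nat_lit 41) (.e (nat_lit 712755) (nat_lit 30) .nil))))) .nil)) 
(.lf (nat_lit 106481) (.g (nat_lit 2388) (.e (nat_lit 4841) (nat_lit 283) (.e (nat_lit 57375) (nat_lit 2) (.e (nat_lit 90176) (nat_lit 15) (.e (nat_lit 188450) (nat_lit 23) (.e (nat_lit 204864) (nat_lit 27) .nil))))) .nil))))) (.nd (nat_lit 4) (.nd (nat_lit 5) (.nd (nat_lit 6) 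
(.lf (nat_lit 106377) (.g (nat_lit 3150) (.e (nat_lit 4633) (nat_lit 271) (.e (nat_lit 57447) (nat_lit 19) (.e (nat_lit 393260) (nat_lit 21) (.e (nat_lit 409617) (nat_lit 10) (.e (nat_lit 632) (nat_lit 50) .nil))))) .nil)) 
(.lf (nat_lit 106441) (.g (nat_lit 804) (.e (nat_lit 4840) (nat_lit 283) (.e (nat_lit 57372) (nat_lit 2) (.e (nat_lit 90176) (nat_lit 15) .nil))) .nil))) (.nd (nat_lit 6) 
(.lf (nat_lit 106409) (.g (nat_lit 3368) (.e (nat_lit 4751) (nat_lit 281) (.e (nat_lit 1083) (nat_lit 81) (.e (nat_lit 1661) (nat_lit 115) (.e (nat_lit 393260) (nat_lit 21) (.e (nat_lit 409649) (nat_lit 18) (.e (nat_lit 303151) (nat_lit 27) (.e (nat_lit 335894) (nat_lit 0) (.e (nat_lit 971) (nat_lit 81) .nil)))))))) (.g (nat_lit 5) .nil .nil))) 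
(.lf (nat_lit 106473) (.g (nat_lit 3692) (.e (nat_lit 4841) (nat_lit 283) (.e (nat_lit 57375) (nat_lit 2) (.e (nat_lit 90176) (nat_lit 15) (.e (nat_lit 188447) (nat_lit 22) (.e (nat_lit 196666) (nat_lit 13) (.e (nat_lit 65546) (nat_lit 0) (.e (nat_lit 991) (nat_lit 81) .nil))))))) (.g (nat_lit 7) .nil .nil))))) (.nd (nat_lit 5) (.nd (nat_lit 6) 
(.lf (nat_lit 106393) (.g (nat_lit 3252) (.e (nat_lit 4637) (nat_lit 272) (.e (nat_lit 122919) (nat_lit 15) (.e (nat_lit 360475) (nat_lit 8) (.e (nat_lit 557119) (nat_lit 18) (.e (nat_lit 2798) (nat_lit 180) (.e (nat_lit 303133) (nat_lit 9) (.e (nat_lit 426412) (nat_lit 15) (.e (nat_lit 7936) (nat_lit 81) .nil)))))))) (.g (nat_lit 5) .nil .nil))) 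
(.lf (nat_lit 106457) (.g (nat_lit 2056) (.e (nat_lit 4841) (nat_lit 283) (.e (nat_lit 57371) (nat_lit 2) (.e (nat_lit 90176) (nat_lit 15) (.e (nat_lit 188447) (nat_lit 22) (.e (nat_lit 196666) (nat_lit 13) .nil))))) .nil))) (.nd (nat_lit 6) 
(.lf (nat_lit 106425) (.g (nat_lit 2005) (.e (nat_lit 4803) (nat_lit 281) (.e (nat_lit 1126) (nat_lit 83) (.e (nat_lit 16458) (nat_lit 12) (.e (nat_lit 475207) (nat_lit 41) (.e (nat_lit 712755) (nat_lit 30) (.e (nat_lit 450563) (nat_lit 0) .nil)))))) (.g (nat_lit 6) .nil .nil))) 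
(.lf (nat_lit 106489) (.g (nat_lit 856) (.e (nat_lit 4842) (nat_lit 283) (.e (nat_lit 57373) (nat_lit 2) (.e (nat_lit 90176) (nat_lit 15) .nil))) .nil)))))) (.nd (nat_lit 3) (.nd (nat_lit 4) (.nd (nat_lit 5) (.nd (nat_lit 6) 
(.lf (nat_lit 106373) (.g (nat_lit 753) (.e (nat_lit 4633) (nat_lit 271) (.e (nat_lit 57375) (nat_lit 2) (.e (nat_lit 90176) (nat_lit 15) .nil))) .nil)) 
(.lf (nat_lit 106437) (.g (nat_lit 2752) (.e (nat_lit 4829) (nat_lit 281) (.e (nat_lit 1060) (nat_lit 81) (.e (nat_lit 1661) (nat_lit 115) (.e (nat_lit 393260) (nat_lit 21) (.e (nat_lit 409648) (nat_lit 18) (.e (nat_lit 303151) (nat_lit 27) (.e (nat_lit 335894) (nat_lit 0) (.e (nat_lit 974) (nat_lit 81) .nil)))))))) (.g (nat_lit 5) .nil .nil)))) (.nd (nat_lit 6) 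
(.lf (nat_lit 106405) (.g (nat_lit 4336) (.e (nat_lit 7936) (nat_lit 277) (.e (nat_lit 57377) (nat_lit 3) (.e (nat_lit 98317) (nat_lit 9) (.e (nat_lit 336204) (nat_lit 12) .nil)))) .nil)) 
(.lf (nat_lit 106469) (.g (nat_lit 3812) (.e (nat_lit 4841) (nat_lit 283) (.e (nat_lit 57373) (nat_lit 2) (.e (nat_lit 90170) (nat_lit 13) (.e (nat_lit 172106) (nat_lit 10) (.e (nat_lit 434231) (nat_lit 23) (.e (nat_lit 532535) (nat_lit 9) (.e (nat_lit 335928) (nat_lit 0) (.e (nat_lit 989) (nat_lit 81) .nil)))))))) (.g (nat_lit 7) .nil .nil))))) (.nd (nat_lit 5) (.nd (nat_lit 6) 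
(.lf (nat_lit 106389) (.g (nat_lit 1905) (.e (nat_lit 7936) (nat_lit 271) (.e (nat_lit 57447) (nat_lit 19) (.e (nat_lit 393260) (nat_lit 21) (.e (nat_lit 409616) (nat_lit 10) .nil)))) .nil)) 
(.lf (nat_lit 106453) (.g (nat_lit 1623) (.e (nat_lit 4840) (nat_lit 283) (.e (nat_lit 57379) (nat_lit 3) (.e (nat_lit 98381) (nat_lit 31) (.e (nat_lit 466977) (nat_lit 22) .nil)))) .nil))) (.nd (nat_lit 6) 
(.lf (nat_lit 106421) (.g (nat_lit 1528) (.e (nat_lit 4780) (nat_lit 281) (.e (nat_lit 1011) (nat_lit 81) (.e (nat_lit 1401) (nat_lit 106) (.e (nat_lit 319533) (nat_lit 16) (.e (nat_lit 286739) (nat_lit 7) .nil))))) .nil)) 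
(.lf (nat_lit 106485) (.g (nat_lit 2350) (.e (nat_lit 4842) (nat_lit 283) (.e (nat_lit 57373) (nat_lit 2) (.e (nat_lit 90170) (nat_lit 13) (.e (nat_lit 172106) (nat_lit 10) (.e (nat_lit 434231) (nat_lit 23) (.e (nat_lit 532529) (nat_lit 9) (.e (nat_lit 335971) (nat_lit 0) (.e (nat_lit 988) (nat_lit 81) .nil)))))))) (.g (nat_lit 4) .nil .nil)))))) (.nd (nat_lit 4) (.nd (nat_lit 5) (.nd (nat_lit 6) 
(.lf (nat_lit 106381) (.g (nat_lit 1592) (.e (nat_lit 4634) (nat_lit 271) (.e (nat_lit 57375) (nat_lit 2) (.e (nat_lit 90176) (nat_lit 15) (.e (nat_lit 188439) (nat_lit 20) (.e (nat_lit 3578) (nat_lit 223) .nil))))) .nil)) 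
(.lf (nat_lit 106445) (.g (nat_lit 2623) (.e (nat_lit 4840) (nat_lit 283) (.e (nat_lit 57372) (nat_lit 2) (.e (nat_lit 90176) (nat_lit 15) (.e (nat_lit 188450) (nat_lit 23) (.e (nat_lit 204861) (nat_lit 26) .nil))))) .nil))) (.nd (nat_lit 6) 
(.lf (nat_lit 106413) (.g (nat_lit 1474) (.e (nat_lit 4754) (nat_lit 281) (.e (nat_lit 991) (nat_lit 81) (.e (nat_lit 459) (nat_lit 34) (.e (nat_lit 442379) (nat_lit 0) (.e (nat_lit 2160) (nat_lit 143) .nil))))) .nil)) 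
(.lf (nat_lit 106477) (.g (nat_lit 2104) (.e (nat_lit 4841) (nat_lit 283) (.e (nat_lit 57375) (nat_lit 2) (.e (nat_lit 90176) (nat_lit 15) (.e (nat_lit 188450) (nat_lit 23) (.e (nat_lit 204855) (nat_lit 26) .nil))))) .nil)))) (.nd (nat_lit 5) (.nd (nat_lit 6) 
(.lf (nat_lit 106397) (.g (nat_lit 1290) (.e (nat_lit 7936) (nat_lit 272) (.e (nat_lit 122917) (nat_lit 15) (.e (nat_lit 360473) (nat_lit 8) (.e (nat_lit 557119) (nat_lit 18) .nil)))) .nil)) 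
(.lf (nat_lit 106461) (.g (nat_lit 3629) (.e (nat_lit 4841) (nat_lit 283) (.e (nat_lit 57372) (nat_lit 2) (.e (nat_lit 90176) (nat_lit 15) (.e (nat_lit 188447) (nat_lit 22) (.e (nat_lit 196666) (nat_lit 13) (.e (nat_lit 65553) (nat_lit 0) (.e (nat_lit 989) (nat_lit 81) .nil))))))) (.g (nat_lit 6) .nil .nil)))) (.nd (nat_lit 6) 
(.lf (nat_lit 106429) (.g (nat_lit 1354) (.e (nat_lit 4803) (nat_lit 281) (.e (nat_lit 1209) (nat_lit 89) (.e (nat_lit 73775) (nat_lit 26) (.e (nat_lit 778465) (nat_lit 11) .nil)))) .nil)) 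
(.lf (nat_lit 106493) (.g (nat_lit 3894) (.e (nat_lit 4842) (nat_lit 283) (.e (nat_lit 57374) (nat_lit 2) (.e (nat_lit 90170) (nat_lit 13) (.e (nat_lit 172106) (nat_lit 10) (.e (nat_lit 434231) (nat_lit 23) (.e (nat_lit 532543) (nat_lit 10) (.e (nat_lit 344088) (nat_lit 18) .nil))))))) (.g (nat_lit 6) .nil .nil)))))))) 
(.nd (nat_lit 2) (.nd (nat_lit 3) (.nd (nat_lit 4) (.nd (nat_lit 5) (.nd (nat_lit 6) 
(.lf (nat_lit 106371) (.g (nat_lit 3166) (.e (nat_lit 4632) (nat_lit 271) (.e (nat_lit 57447) (nat_lit 19) (.e (nat_lit 393260) (nat_lit 21) (.e (nat_lit 409617) (nat_lit 10) (.e (nat_lit 632) (nat_lit 50) (.e (nat_lit 573489) (nat_lit 14) (.e (nat_lit 73728) (nat_lit 0) .nil))))))) (.g (nat_lit 4) .nil .nil))) 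
(.lf (nat_lit 106435) (.g (nat_lit 2247) (.e (nat_lit 4809) (nat_lit 281) (.e (nat_lit 1122) (nat_lit 83) (.e (nat_lit 16473) (nat_lit 14) (.e (nat_lit 491568) (nat_lit 13) (.e (nat_lit 393283) (nat_lit 24) .nil))))) .nil))) (.nd (nat_lit 6) 
(.lf (nat_lit 106403) (.g (nat_lit 4476) (.e (nat_lit 4735) (nat_lit 277) (.e (nat_lit 57377) (nat_lit 3) (.e (nat_lit 98317) (nat_lit 9) (.e (nat_lit 336204) (nat_lit 12) .nil)))) .nil)) 
(.lf (nat_lit 106467) (.g (nat_lit 2584) (.e (nat_lit 4841) (nat_lit 283) (.e (nat_lit 57372) (nat_lit 2) (.e (nat_lit 90176) (nat_lit 15) (.e (nat_lit 188450) (nat_lit 23) (.e (nat_lit 204873) (nat_lit 30) .nil))))) .nil)))) (.nd (nat_lit 5) (.nd (nat_lit 6) 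
(.lf (nat_lit 106387) (.g (nat_lit 3150) (.e (nat_lit 4636) (nat_lit 271) (.e (nat_lit 57447) (nat_lit 19) (.e (nat_lit 393260) (nat_lit 21) (.e (nat_lit 409617) (nat_lit 10) (.e (nat_lit 632) (nat_lit 50) .nil))))) .nil)) 
(.lf (nat_lit 106451) (.g (nat_lit 2376) (.e (nat_lit 4840) (nat_lit 283) (.e (nat_lit 57375) (nat_lit 2) (.e (nat_lit 90176) (nat_lit 15) (.e (nat_lit 188450) (nat_lit 23) (.e (nat_lit 204861) (nat_lit 26) .nil))))) .nil))) (.nd (nat_lit 6) 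
(.lf (nat_lit 106419) (.g (nat_lit 1648) (.e (nat_lit 4756) (nat_lit 281) (.e (nat_lit 1128) (nat_lit 83) (.e (nat_lit 16425) (nat_lit 7) (.e (nat_lit 409642) (nat_lit 17) .nil)))) .nil)) 
(.lf (nat_lit 106483) (.g (nat_lit 2013) (.e (nat_lit 4841) (nat_lit 283) (.e (nat_lit 57378) (nat_lit 3) (.e (nat_lit 98365) (nat_lit 26) (.e (nat_lit 426298) (nat_lit 11) .nil)))) .nil))))) (.nd (nat_lit 4) (.nd (nat_lit 5) (.nd (nat_lit 6) 
(.lf (nat_lit 106379) (.g (nat_lit 1492) (.e (nat_lit 4634) (nat_lit 271) (.e (nat_lit 57375) (nat_lit 2) (.e (nat_lit 90172) (nat_lit 14) (.e (nat_lit 188160) (nat_lit 34) .nil)))) .nil)) 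
(.lf (nat_lit 106443) (.g (nat_lit 1396) (.e (nat_lit 4840) (nat_lit 283) (.e (nat_lit 57372) (nat_lit 2) (.e (nat_lit 90176) (nat_lit 15) (.e (nat_lit 188450) (nat_lit 23) .nil)))) .nil))) (.nd (nat_lit 6) 
(.lf (nat_lit 106411) (.g (nat_lit 1047) (.e (nat_lit 4751) (nat_lit 281) (.e (nat_lit 1126) (nat_lit 83) (.e (nat_lit 16473) (nat_lit 14) (.e (nat_lit 491567) (nat_lit 13) .nil)))) .nil)) 
(.lf (nat_lit 106475) (.g (nat_lit 2936) (.e (nat_lit 4841) (nat_lit 283) (.e (nat_lit 57375) (nat_lit 2) (.e (nat_lit 90176) (nat_lit 15) (.e (nat_lit 188447) (nat_lit 22) (.e (nat_lit 196668) (nat_lit 14) (.e (nat_lit 81664) (nat_lit 0) .nil)))))) (.g (nat_lit 5) .nil .nil))))) (.nd (nat_lit 5) (.nd (nat_lit 6) 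
(.lf (nat_lit 106395) (.g (nat_lit 2442) (.e (nat_lit 4639) (nat_lit 272) (.e (nat_lit 122919) (nat_lit 15) (.e (nat_lit 360475) (nat_lit 8) (.e (nat_lit 557119) (nat_lit 18) (.e (nat_lit 2797) (nat_lit 180) .nil))))) .nil)) 
(.lf (nat_lit 106459) (.g (nat_lit 948) (.e (nat_lit 4841) (nat_lit 283) (.e (nat_lit 57372) (nat_lit 2) (.e (nat_lit 90176) (nat_lit 15) .nil))) .nil))) (.nd (nat_lit 6) 
(.lf (nat_lit 106427) (.g (nat_lit 1981) (.e (nat_lit 4803) (nat_lit 281) (.e (nat_lit 1126) (nat_lit 83) (.e (nat_lit 16461) (nat_lit 12) (.e (nat_lit 475207) (nat_lit 41) (.e (nat_lit 712755) (nat_lit 30) (.e (nat_lit 450563) (nat_lit 0) .nil)))))) (.g (nat_lit 6) .nil .nil))) 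
(.lf (nat_lit 106491) (.g (nat_lit 2434) (.e (nat_lit 4842) (nat_lit 283) (.e (nat_lit 57373) (nat_lit 2) (.e (nat_lit 90176) (nat_lit 15) (.e (nat_lit 188450) (nat_lit 23) (.e (nat_lit 204863) (nat_lit 27) .nil))))) .nil)))))) (.nd (nat_lit 3) (.nd (nat_lit 4) (.nd (nat_lit 5) (.nd (nat_lit 6) 
(.lf (nat_lit 106375) (.g (nat_lit 1777) (.e (nat_lit 4633) (nat_lit 271) (.e (nat_lit 57375) (nat_lit 2) (.e (nat_lit 90176) (nat_lit 15) (.e (nat_lit 188439) (nat_lit 20) (.e (nat_lit 3579) (nat_lit 223) .nil))))) .nil)) 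
(.lf (nat_lit 106439) (.g (nat_lit 1864) (.e (nat_lit 4829) (nat_lit 281) (.e (nat_lit 2544) (nat_lit 158) (.e (nat_lit 8326) (nat_lit 69) (.e (nat_lit 557100) (nat_lit 13) (.e (nat_lit 172106) (nat_lit 10) (.e (nat_lit 434231) (nat_lit 23) (.e (nat_lit 532535) (nat_lit 9) (.e (nat_lit 335925) (nat_lit 0) (.e (nat_lit 994) (nat_lit 81) .nil))))))))) (.g (nat_lit 4) .nil .nil)))) (.nd (nat_lit 6) 
(.lf (nat_lit 106407) (.g (nat_lit 3357) (.e (nat_lit 4751) (nat_lit 281) (.e (nat_lit 1027) (nat_lit 81) (.e (nat_lit 1237) (nat_lit 91) (.e (nat_lit 90170) (nat_lit 13) (.e (nat_lit 172106) (nat_lit 10) (.e (nat_lit 434231) (nat_lit 23) (.e (nat_lit 532544) (nat_lit 10) (.e (nat_lit 352000) (nat_lit 18) .nil)))))))) (.g (nat_lit 7) .nil .nil))) 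
(.lf (nat_lit 106471) (.g (nat_lit 4196) (.e (nat_lit 4841) (nat_lit 283) (.e (nat_lit 57374) (nat_lit 2) (.e (nat_lit 90170) (nat_lit 13) (.e (nat_lit 172106) (nat_lit 10) (.e (nat_lit 434231) (nat_lit 23) (.e (nat_lit 532535) (nat_lit 9) (.e (nat_lit 335928) (nat_lit 0) (.e (nat_lit 988) (nat_lit 81) .nil)))))))) (.g (nat_lit 7) .nil .nil))))) (.nd (nat_lit 5) (.nd (nat_lit 6) 
(.lf (nat_lit 106391) (.g (nat_lit 1759) (.e (nat_lit 7936) (nat_lit 271) (.e (nat_lit 57448) (nat_lit 19) (.e (nat_lit 393260) (nat_lit 21) (.e (nat_lit 409616) (nat_lit 10) .nil)))) .nil)) 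
(.lf (nat_lit 106455) (.g (nat_lit 2662) (.e (nat_lit 4841) (nat_lit 283) (.e (nat_lit 57370) (nat_lit 2) (.e (nat_lit 90170) (nat_lit 13) (.e (nat_lit 172106) (nat_lit 10) (.e (nat_lit 434231) (nat_lit 23) (.e (nat_lit 532535) (nat_lit 9) (.e (nat_lit 335925) (nat_lit 0) (.e (nat_lit 991) (nat_lit 81) .nil)))))))) (.g (nat_lit 4) .nil .nil)))) (.nd (nat_lit 6) 
(.lf (nat_lit 106423) (.g (nat_lit 463) (.e (nat_lit 4797) (nat_lit 281) (.e (nat_lit 1181) (nat_lit 87) (.e (nat_lit 57466) (nat_lit 23) .nil))) .nil)) 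
(.lf (nat_lit 106487) (.g (nat_lit 4521) (.e (nat_lit 4842) (nat_lit 283) (.e (nat_lit 57373) (nat_lit 2) (.e (nat_lit 90170) (nat_lit 13) (.e (nat_lit 172106) (nat_lit 10) (.e (nat_lit 434231) (nat_lit 23) (.e (nat_lit 532544) (nat_lit 10) (.e (nat_lit 344088) (nat_lit 18) .nil))))))) (.g (nat_lit 7) .nil .nil)))))) (.nd (nat_lit 4) (.nd (nat_lit 5) (.nd (nat_lit 6) 
(.lf (nat_lit 106383) (.g (nat_lit 971) (.e (nat_lit 4635) (nat_lit 271) (.e (nat_lit 57372) (nat_lit 2) (.e (nat_lit 90176) (nat_lit 15) (.e (nat_lit 188439) (nat_lit 20) .nil)))) .nil)) 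
(.lf (nat_lit 106447) (.g (nat_lit 1678) (.e (nat_lit 4840) (nat_lit 283) (.e (nat_lit 57373) (nat_lit 2) (.e (nat_lit 90176) (nat_lit 15) (.e (nat_lit 188450) (nat_lit 23) .nil)))) .nil))) (.nd (nat_lit 6) 
(.lf (nat_lit 106415) (.g (nat_lit 2144) (.e (nat_lit 4754) (nat_lit 281) (.e (nat_lit 1126) (nat_lit 83) (.e (nat_lit 16473) (nat_lit 14) (.e (nat_lit 491568) (nat_lit 13) (.e (nat_lit 393282) (nat_lit 24) .nil))))) .nil)) 
(.lf (nat_lit 106479) (.g (nat_lit 2915) (.e (nat_lit 4841) (nat_lit 283) (.e (nat_lit 57375) (nat_lit 2) (.e (nat_lit 90176) (nat_lit 15) (.e (nat_lit 188450) (nat_lit 23) (.e (nat_lit 204862) (nat_lit 27) (.e (nat_lit 344088) (nat_lit 18) .nil)))))) (.g (nat_lit 5) .nil .nil))))) (.nd (nat_lit 5) (.nd (nat_lit 6) 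
(.lf (nat_lit 106399) (.g (nat_lit 2189) (.e (nat_lit 4644) (nat_lit 273) (.e (nat_lit 164084) (nat_lit 73) (.e (nat_lit 336027) (nat_lit 3) (.e (nat_lit 98372) (nat_lit 29) (.e (nat_lit 450579) (nat_lit 5) (.e (nat_lit 532484) (nat_lit 0) (.e (nat_lit 997) (nat_lit 81) .nil))))))) (.g (nat_lit 4) .nil .nil))) 
(.lf (nat_lit 106463) (.g (nat_lit 2599) (.e (nat_lit 4841) (nat_lit 283) (.e (nat_lit 57372) (nat_lit 2) (.e (nat_lit 90176) (nat_lit 15) (.e (nat_lit 188450) (nat_lit 23) (.e (nat_lit 204855) (nat_lit 26) .nil))))) .nil))) (.nd (nat_lit 6) 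
(.lf (nat_lit 106431) (.g (nat_lit 744) (.e (nat_lit 4807) (nat_lit 281) (.e (nat_lit 1209) (nat_lit 89) (.e (nat_lit 73775) (nat_lit 26) .nil))) .nil)) 
(.lf (nat_lit 106495) (.g (nat_lit 4354) (.e (nat_lit 4842) (nat_lit 283) (.e (nat_lit 57374) (nat_lit 2) (.e (nat_lit 90170) (nat_lit 13) (.e (nat_lit 172106) (nat_lit 10) (.e (nat_lit 434231) (nat_lit 23) (.e (nat_lit 532544) (nat_lit 10) (.e (nat_lit 344089) (nat_lit 18) .nil))))))) (.g (nat_lit 6) .nil .nil))))))))))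

noncomputable def tv1449 : DT := (.nd (nat_lit 0) (.nd (nat_lit 1) (.nd (nat_lit 2) (.nd (nat_lit 3) (.nd (nat_lit 4) (.nd (nat_lit 5) (.nd (nat_lit 6) 
(.lf (nat_lit 106496) (.g (nat_lit 3697) (.e (nat_lit 4842) (nat_lit 283) (.e (nat_lit 57375) (nat_lit 2) (.e (nat_lit 90170) (nat_lit 13) (.e (nat_lit 172106) (nat_lit 10) (.e (nat_lit 434231) (nat_lit 23) .nil))))) .nil)) 
(.lf (nat_lit 106560) (.g (nat_lit 3168) (.e (nat_lit 4919) (nat_lit 287) (.e (nat_lit 1348) (nat_lit 102) (.e (nat_lit 286761) (nat_lit 13) (.e (nat_lit 393291) (nat_lit 26) (.e (nat_lit 475219) (nat_lit 44) .nil))))) .nil))) (.nd (nat_lit 6) 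
(.lf (nat_lit 106528) (.g (nat_lit 1746) (.e (nat_lit 7936) (nat_lit 283) (.e (nat_lit 57373) (nat_lit 2) (.e (nat_lit 90176) (nat_lit 15) (.e (nat_lit 188447) (nat_lit 22) (.e (nat_lit 196668) (nat_lit 14) .nil))))) .nil)) 
(.lf (nat_lit 106592) (.g (nat_lit 3249) (.e (nat_lit 4961) (nat_lit 287) (.e (nat_lit 1348) (nat_lit 102) (.e (nat_lit 286761) (nat_lit 13) (.e (nat_lit 393291) (nat_lit 26) (.e (nat_lit 475220) (nat_lit 44) .nil))))) .nil)))) (.nd (nat_lit 5) (.nd (nat_lit 6) 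
(.lf (nat_lit 106512) (.g (nat_lit 1919) (.e (nat_lit 7936) (nat_lit 283) (.e (nat_lit 57371) (nat_lit 2) (.e (nat_lit 90176) (nat_lit 15) (.e (nat_lit 188447) (nat_lit 22) (.e (nat_lit 196668) (nat_lit 14) .nil))))) .nil)) 
(.lf (nat_lit 106576) (.g (nat_lit 2597) (.e (nat_lit 4921) (nat_lit 287) (.e (nat_lit 1348) (nat_lit 102) (.e (nat_lit 286761) (nat_lit 13) (.e (nat_lit 393293) (nat_lit 26) (.e (nat_lit 475219) (nat_lit 44) .nil))))) .nil))) (.nd (nat_lit 6) 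
(.lf (nat_lit 106544) (.g (nat_lit 866) (.e (nat_lit 7936) (nat_lit 283) (.e (nat_lit 57379) (nat_lit 3) (.e (nat_lit 98372) (nat_lit 29) (.e (nat_lit 450579) (nat_lit 5) .nil)))) .nil)) 
(.lf (nat_lit 106608) (.g (nat_lit 2685) (.e (nat_lit 4961) (nat_lit 287) (.e (nat_lit 1349) (nat_lit 102) (.e (nat_lit 286761) (nat_lit 13) (.e (nat_lit 393291) (nat_lit 26) (.e (nat_lit 475219) (nat_lit 44) .nil))))) .nil))))) (.nd (nat_lit 4) (.nd (nat_lit 5) (.nd (nat_lit 6) 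
(.lf (nat_lit 106504) (.g (nat_lit 1930) (.e (nat_lit 4842) (nat_lit 283) (.e (nat_lit 57375) (nat_lit 2) (.e (nat_lit 90176) (nat_lit 15) (.e (nat_lit 188450) (nat_lit 23) (.e (nat_lit 204855) (nat_lit 26) (.e (nat_lit 335928) (nat_lit 0) (.e (nat_lit 988) (nat_lit 81) .nil))))))) (.g (nat_lit 4) .nil .nil))) 
(.lf (nat_lit 106568) (.g (nat_lit 625) (.e (nat_lit 4921) (nat_lit 287) (.e (nat_lit 1348) (nat_lit 102) (.e (nat_lit 286761) (nat_lit 13) .nil))) .nil))) (.nd (nat_lit 6) 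
(.lf (nat_lit 106536) (.g (nat_lit 2009) (.e (nat_lit 7936) (nat_lit 283) (.e (nat_lit 57375) (nat_lit 2) (.e (nat_lit 90176) (nat_lit 15) (.e (nat_lit 188450) (nat_lit 23) (.e (nat_lit 204862) (nat_lit 27) .nil))))) .nil)) 
(.lf (nat_lit 106600) (.g (nat_lit 2998) (.e (nat_lit 4961) (nat_lit 287) (.e (nat_lit 1348) (nat_lit 102) (.e (nat_lit 286761) (nat_lit 13) (.e (nat_lit 393296) (nat_lit 26) (.e (nat_lit 475216) (nat_lit 44) .nil))))) .nil)))) (.nd (nat_lit 5) (.nd (nat_lit 6) 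
(.lf (nat_lit 106520) (.g (nat_lit 1966) (.e (nat_lit 7936) (nat_lit 283) (.e (nat_lit 57372) (nat_lit 2) (.e (nat_lit 90176) (nat_lit 15) (.e (nat_lit 188447) (nat_lit 22) (.e (nat_lit 196666) (nat_lit 13) .nil))))) .nil)) 
(.lf (nat_lit 106584) (.g (nat_lit 3552) (.e (nat_lit 4929) (nat_lit 287) (.e (nat_lit 1079) (nat_lit 81) (.e (nat_lit 5394) (nat_lit 301) (.e (nat_lit 57464) (nat_lit 23) (.e (nat_lit 516151) (nat_lit 9) (.e (nat_lit 426285) (nat_lit 10) (.e (nat_lit 434227) (nat_lit 20) (.e (nat_lit 507928) (nat_lit 10) .nil)))))))) (.g (nat_lit 8) .nil .nil)))) (.nd (nat_lit 6) 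
(.lf (nat_lit 106552) (.g (nat_lit 1686) (.e (nat_lit 4883) (nat_lit 287) (.e (nat_lit 1367) (nat_lit 103) (.e (nat_lit 294958) (nat_lit 13) (.e (nat_lit 393290) (nat_lit 26) (.e (nat_lit 475219) (nat_lit 44) (.e (nat_lit 737286) (nat_lit 0) .nil)))))) (.g (nat_lit 6) .nil .nil))) 
(.lf (nat_lit 106616) (.g (nat_lit 1794) (.e (nat_lit 4962) (nat_lit 287) (.e (nat_lit 1348) (nat_lit 102) (.e (nat_lit 286735) (nat_lit 3) (.e (nat_lit 98373) (nat_lit 29) (.e (nat_lit 450563) (nat_lit 0) .nil))))) .nil)))))) (.nd (nat_lit 3) (.nd (nat_lit 4) (.nd (nat_lit 5) (.nd (nat_lit 6) 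
(.lf (nat_lit 106500) (.g (nat_lit 2914) (.e (nat_lit 4842) (nat_lit 283) (.e (nat_lit 57375) (nat_lit 2) (.e (nat_lit 90176) (nat_lit 15) (.e (nat_lit 188447) (nat_lit 22) (.e (nat_lit 196668) (nat_lit 14) (.e (nat_lit 81664) (nat_lit 0) .nil)))))) (.g (nat_lit 5) .nil .nil))) 
(.lf (nat_lit 106564) (.g (nat_lit 2127) (.e (nat_lit 4919) (nat_lit 287) (.e (nat_lit 1348) (nat_lit 102) (.e (nat_lit 286761) (nat_lit 13) (.e (nat_lit 393293) (nat_lit 26) (.e (nat_lit 475218) (nat_lit 44) .nil))))) .nil))) (.nd (nat_lit 6) 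
(.lf (nat_lit 106532) (.g (nat_lit 455) (.e (nat_lit 7936) (nat_lit 283) (.e (nat_lit 57375) (nat_lit 2) (.e (nat_lit 90176) (nat_lit 15) .nil))) .nil)) 
(.lf (nat_lit 106596) (.g (nat_lit 2352) (.e (nat_lit 4961) (nat_lit 287) (.e (nat_lit 1348) (nat_lit 102) (.e (nat_lit 286761) (nat_lit 13) (.e (nat_lit 393293) (nat_lit 26) (.e (nat_lit 475216) (nat_lit 44) .nil))))) .nil)))) (.nd (nat_lit 5) (.nd (nat_lit 6) 
(.lf (nat_lit 106516) (.g (nat_lit 2163) (.e (nat_lit 7936) (nat_lit 283) (.e (nat_lit 57371) (nat_lit 2) (.e (nat_lit 90176) (nat_lit 15) (.e (nat_lit 188450) (nat_lit 23) (.e (nat_lit 204864) (nat_lit 27) .nil))))) .nil)) 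
(.lf (nat_lit 106580) (.g (nat_lit 1794) (.e (nat_lit 4925) (nat_lit 287) (.e (nat_lit 1348) (nat_lit 102) (.e (nat_lit 286735) (nat_lit 3) (.e (nat_lit 98373) (nat_lit 29) (.e (nat_lit 450563) (nat_lit 0) .nil))))) .nil))) (.nd (nat_lit 6) 
(.lf (nat_lit 106548) (.g (nat_lit 1012) (.e (nat_lit 4865) (nat_lit 287) (.e (nat_lit 1351) (nat_lit 102) (.e (nat_lit 286761) (nat_lit 13) (.e (nat_lit 393293) (nat_lit 26) .nil)))) .nil)) 
(.lf (nat_lit 106612) (.g (nat_lit 2133) (.e (nat_lit 4961) (nat_lit 287) (.e (nat_lit 1349) (nat_lit 102) (.e (nat_lit 286761) (nat_lit 13) (.e (nat_lit 393293) (nat_lit 26) (.e (nat_lit 475216) (nat_lit 44) .nil))))) .nil))))) (.nd (nat_lit 4) (.nd (nat_lit 5) (.nd (nat_lit 6) 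
(.lf (nat_lit 106508) (.g (nat_lit 1535) (.e (nat_lit 4842) (nat_lit 283) (.e (nat_lit 57375) (nat_lit 2) (.e (nat_lit 90185) (nat_lit 17) (.e (nat_lit 237605) (nat_lit 9) .nil)))) .nil)) 
(.lf (nat_lit 106572) (.g (nat_lit 2387) (.e (nat_lit 4921) (nat_lit 287) (.e (nat_lit 1348) (nat_lit 102) (.e (nat_lit 286761) (nat_lit 13) (.e (nat_lit 393293) (nat_lit 26) (.e (nat_lit 475198) (nat_lit 40) .nil))))) .nil))) (.nd (nat_lit 6) 
(.lf (nat_lit 106540) (.g (nat_lit 1031) (.e (nat_lit 7936) (nat_lit 283) (.e (nat_lit 57378) (nat_lit 3) (.e (nat_lit 98365) (nat_lit 26) (.e (nat_lit 426298) (nat_lit 11) .nil)))) .nil)) 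
(.lf (nat_lit 106604) (.g (nat_lit 1671) (.e (nat_lit 4961) (nat_lit 287) (.e (nat_lit 1349) (nat_lit 102) (.e (nat_lit 286761) (nat_lit 13) (.e (nat_lit 393270) (nat_lit 23) .nil)))) .nil)))) (.nd (nat_lit 5) (.nd (nat_lit 6) 
(.lf (nat_lit 106524) (.g (nat_lit 2054) (.e (nat_lit 7936) (nat_lit 283) (.e (nat_lit 57372) (nat_lit 2) (.e (nat_lit 90176) (nat_lit 15) (.e (nat_lit 188450) (nat_lit 23) (.e (nat_lit 204862) (nat_lit 27) .nil))))) .nil)) 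
(.lf (nat_lit 106588) (.g (nat_lit 2742) (.e (nat_lit 4961) (nat_lit 287) (.e (nat_lit 1348) (nat_lit 102) (.e (nat_lit 286761) (nat_lit 13) (.e (nat_lit 393270) (nat_lit 23) (.e (nat_lit 426402) (nat_lit 15) .nil))))) .nil))) (.nd (nat_lit 6) 
(.lf (nat_lit 106556) (.g (nat_lit 2133) (.e (nat_lit 4890) (nat_lit 287) (.e (nat_lit 1353) (nat_lit 102) (.e (nat_lit 286761) (nat_lit 13) (.e (nat_lit 393293) (nat_lit 26) (.e (nat_lit 475218) (nat_lit 44) .nil))))) .nil)) 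
(.lf (nat_lit 106620) (.g (nat_lit 1358) (.e (nat_lit 4962) (nat_lit 287) (.e (nat_lit 1348) (nat_lit 102) (.e (nat_lit 286761) (nat_lit 13) (.e (nat_lit 393293) (nat_lit 26) .nil)))) .nil))))))) (.nd (nat_lit 2) (.nd (nat_lit 3) (.nd (nat_lit 4) (.nd (nat_lit 5) (.nd (nat_lit 6) 
(.lf (nat_lit 106498) (.g (nat_lit 3001) (.e (nat_lit 4842) (nat_lit 283) (.e (nat_lit 57375) (nat_lit 2) (.e (nat_lit 90176) (nat_lit 15) (.e (nat_lit 188447) (nat_lit 22) (.e (nat_lit 196666) (nat_lit 13) (.e (nat_lit 65546) (nat_lit 0) (.e (nat_lit 989) (nat_lit 81) .nil))))))) (.g (nat_lit 5) .nil .nil))) 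
(.lf (nat_lit 106562) (.g (nat_lit 2527) (.e (nat_lit 4919) (nat_lit 287) (.e (nat_lit 1348) (nat_lit 102) (.e (nat_lit 286761) (nat_lit 13) (.e (nat_lit 393293) (nat_lit 26) (.e (nat_lit 475204) (nat_lit 40) .nil))))) .nil))) (.nd (nat_lit 6) 
(.lf (nat_lit 106530) (.g (nat_lit 1733) (.e (nat_lit 7936) (nat_lit 283) (.e (nat_lit 57373) (nat_lit 2) (.e (nat_lit 90176) (nat_lit 15) (.e (nat_lit 188450) (nat_lit 23) (.e (nat_lit 204864) (nat_lit 27) .nil))))) .nil)) 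
(.lf (nat_lit 106594) (.g (nat_lit 2290) (.e (nat_lit 4961) (nat_lit 287) (.e (nat_lit 1348) (nat_lit 102) (.e (nat_lit 286761) (nat_lit 13) (.e (nat_lit 393293) (nat_lit 26) (.e (nat_lit 475198) (nat_lit 40) .nil))))) .nil)))) (.nd (nat_lit 5) (.nd (nat_lit 6) 
(.lf (nat_lit 106514) (.g (nat_lit 1947) (.e (nat_lit 7936) (nat_lit 283) (.e (nat_lit 57371) (nat_lit 2) (.e (nat_lit 90176) (nat_lit 15) (.e (nat_lit 188450) (nat_lit 23) (.e (nat_lit 204855) (nat_lit 26) .nil))))) .nil)) 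
(.lf (nat_lit 106578) (.g (nat_lit 1155) (.e (nat_lit 4925) (nat_lit 287) (.e (nat_lit 1162) (nat_lit 86) (.e (nat_lit 49185) (nat_lit 11) (.e (nat_lit 16465) (nat_lit 13) (.e (nat_lit 483371) (nat_lit 21) .nil))))) .nil))) (.nd (nat_lit 6) 
(.lf (nat_lit 106546) (.g (nat_lit 2351) (.e (nat_lit 4848) (nat_lit 285) (.e (nat_lit 163869) (nat_lit 2) (.e (nat_lit 196666) (nat_lit 13) (.e (nat_lit 65610) (nat_lit 10) (.e (nat_lit 344117) (nat_lit 21) .nil))))) .nil)) 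
(.lf (nat_lit 106610) (.g (nat_lit 1424) (.e (nat_lit 4961) (nat_lit 287) (.e (nat_lit 1349) (nat_lit 102) (.e (nat_lit 286761) (nat_lit 13) (.e (nat_lit 393293) (nat_lit 26) .nil)))) .nil))))) (.nd (nat_lit 4) (.nd (nat_lit 5) (.nd (nat_lit 6) 
(.lf (nat_lit 106506) (.g (nat_lit 2143) (.e (nat_lit 4842) (nat_lit 283) (.e (nat_lit 57375) (nat_lit 2) (.e (nat_lit 90176) (nat_lit 15) (.e (nat_lit 188450) (nat_lit 23) (.e (nat_lit 204864) (nat_lit 27) .nil))))) .nil)) 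
(.lf (nat_lit 106570) (.g (nat_lit 1486) (.e (nat_lit 4921) (nat_lit 287) (.e (nat_lit 1348) (nat_lit 102) (.e (nat_lit 286761) (nat_lit 13) (.e (nat_lit 393293) (nat_lit 26) .nil)))) .nil))) (.nd (nat_lit 6) 
(.lf (nat_lit 106538) (.g (nat_lit 2112) (.e (nat_lit 7936) (nat_lit 283) (.e (nat_lit 57375) (nat_lit 2) (.e (nat_lit 90176) (nat_lit 15) (.e (nat_lit 188450) (nat_lit 23) (.e (nat_lit 204872) (nat_lit 30) .nil))))) .nil)) 
(.lf (nat_lit 106602) (.g (nat_lit 2028) (.e (nat_lit 4961) (nat_lit 287) (.e (nat_lit 1349) (nat_lit 102) (.e (nat_lit 286748) (nat_lit 9) (.e (nat_lit 336389) (nat_lit 27) (.e (nat_lit 426313) (nat_lit 12) .nil))))) .nil)))) (.nd (nat_lit 5) (.nd (nat_lit 6) 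
(.lf (nat_lit 106522) (.g (nat_lit 1541) (.e (nat_lit 7936) (nat_lit 283) (.e (nat_lit 57372) (nat_lit 2) (.e (nat_lit 90176) (nat_lit 15) (.e (nat_lit 188448) (nat_lit 22) .nil)))) .nil)) 
(.lf (nat_lit 106586) (.g (nat_lit 770) (.e (nat_lit 4961) (nat_lit 287) (.e (nat_lit 1348) (nat_lit 102) (.e (nat_lit 286748) (nat_lit 9) .nil))) .nil))) (.nd (nat_lit 6) 
(.lf (nat_lit 106554) (.g (nat_lit 301) (.e (nat_lit 4883) (nat_lit 287) (.e (nat_lit 1367) (nat_lit 103) (.e (nat_lit 294959) (nat_lit 13) .nil))) .nil)) 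
(.lf (nat_lit 106618) (.g (nat_lit 822) (.e (nat_lit 4962) (nat_lit 287) (.e (nat_lit 1348) (nat_lit 102) (.e (nat_lit 286748) (nat_lit 9) .nil))) .nil)))))) (.nd (nat_lit 3) (.nd (nat_lit 4) (.nd (nat_lit 5) (.nd (nat_lit 6) 
(.lf (nat_lit 106502) (.g (nat_lit 1878) (.e (nat_lit 4842) (nat_lit 283) (.e (nat_lit 57375) (nat_lit 2) (.e (nat_lit 90176) (nat_lit 15) (.e (nat_lit 188450) (nat_lit 23) (.e (nat_lit 204852) (nat_lit 26) .nil))))) .nil)) 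
(.lf (nat_lit 106566) (.g (nat_lit 2963) (.e (nat_lit 4919) (nat_lit 287) (.e (nat_lit 1348) (nat_lit 102) (.e (nat_lit 286761) (nat_lit 13) (.e (nat_lit 393293) (nat_lit 26) (.e (nat_lit 483072) (nat_lit 44) .nil))))) .nil))) (.nd (nat_lit 6) 
(.lf (nat_lit 106534) (.g (nat_lit 2363) (.e (nat_lit 7936) (nat_lit 283) (.e (nat_lit 57375) (nat_lit 2) (.e (nat_lit 90176) (nat_lit 15) (.e (nat_lit 188447) (nat_lit 22) (.e (nat_lit 196668) (nat_lit 14) .nil))))) .nil)) 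
(.lf (nat_lit 106598) (.g (nat_lit 2088) (.e (nat_lit 4961) (nat_lit 287) (.e (nat_lit 1348) (nat_lit 102) (.e (nat_lit 286761) (nat_lit 13) (.e (nat_lit 393293) (nat_lit 26) (.e (nat_lit 475218) (nat_lit 44) .nil))))) .nil)))) (.nd (nat_lit 5) (.nd (nat_lit 6) 
(.lf (nat_lit 106518) (.g (nat_lit 1854) (.e (nat_lit 7936) (nat_lit 283) (.e (nat_lit 57371) (nat_lit 2) (.e (nat_lit 90176) (nat_lit 15) (.e (nat_lit 188450) (nat_lit 23) (.e (nat_lit 204873) (nat_lit 30) .nil))))) .nil)) 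
(.lf (nat_lit 106582) (.g (nat_lit 1810) (.e (nat_lit 4925) (nat_lit 287) (.e (nat_lit 1349) (nat_lit 102) (.e (nat_lit 286761) (nat_lit 13) (.e (nat_lit 393291) (nat_lit 26) .nil)))) .nil))) (.nd (nat_lit 6) 
(.lf (nat_lit 106550) (.g (nat_lit 1156) (.e (nat_lit 4883) (nat_lit 287) (.e (nat_lit 1360) (nat_lit 102) (.e (nat_lit 286760) (nat_lit 13) (.e (nat_lit 393296) (nat_lit 26) .nil)))) .nil)) 
(.lf (nat_lit 106614) (.g (nat_lit 2042) (.e (nat_lit 4961) (nat_lit 287) (.e (nat_lit 1349) (nat_lit 102) (.e (nat_lit 286761) (nat_lit 13) (.e (nat_lit 393293) (nat_lit 26) (.e (nat_lit 475219) (nat_lit 44) .nil))))) .nil))))) (.nd (nat_lit 4) (.nd (nat_lit 5) (.nd (nat_lit 6) 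
(.lf (nat_lit 106510) (.g (nat_lit 869) (.e (nat_lit 4842) (nat_lit 283) (.e (nat_lit 57378) (nat_lit 3) (.e (nat_lit 98381) (nat_lit 31) .nil))) .nil)) 
(.lf (nat_lit 106574) (.g (nat_lit 2586) (.e (nat_lit 4921) (nat_lit 287) (.e (nat_lit 1348) (nat_lit 102) (.e (nat_lit 286761) (nat_lit 13) (.e (nat_lit 393293) (nat_lit 26) (.e (nat_lit 475204) (nat_lit 40) .nil))))) .nil))) (.nd (nat_lit 6) 
(.lf (nat_lit 106542) (.g (nat_lit 2806) (.e (nat_lit 7936) (nat_lit 283) (.e (nat_lit 57378) (nat_lit 3) (.e (nat_lit 98381) (nat_lit 31) (.e (nat_lit 466977) (nat_lit 22) (.e (nat_lit 196670) (nat_lit 14) .nil))))) .nil)) 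
(.lf (nat_lit 106606) (.g (nat_lit 2086) (.e (nat_lit 4961) (nat_lit 287) (.e (nat_lit 1349) (nat_lit 102) (.e (nat_lit 286761) (nat_lit 13) (.e (nat_lit 393282) (nat_lit 24) (.e (nat_lit 434275) (nat_lit 39) .nil))))) .nil)))) (.nd (nat_lit 5) (.nd (nat_lit 6) 
(.lf (nat_lit 106526) (.g (nat_lit 1885) (.e (nat_lit 7936) (nat_lit 283) (.e (nat_lit 57372) (nat_lit 2) (.e (nat_lit 90176) (nat_lit 15) (.e (nat_lit 188450) (nat_lit 23) (.e (nat_lit 204873) (nat_lit 30) .nil))))) .nil)) 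
(.lf (nat_lit 106590) (.g (nat_lit 2142) (.e (nat_lit 4961) (nat_lit 287) (.e (nat_lit 1348) (nat_lit 102) (.e (nat_lit 286761) (nat_lit 13) (.e (nat_lit 393290) (nat_lit 26) .nil)))) .nil))) (.nd (nat_lit 6) 
(.lf (nat_lit 106558) (.g (nat_lit 1635) (.e (nat_lit 4916) (nat_lit 287) (.e (nat_lit 1348) (nat_lit 102) (.e (nat_lit 286761) (nat_lit 13) (.e (nat_lit 393293) (nat_lit 26) .nil)))) .nil)) 
(.lf (nat_lit 106622) (.g (nat_lit 2895) (.e (nat_lit 4962) (nat_lit 287) (.e (nat_lit 1348) (nat_lit 102) (.e (nat_lit 286761) (nat_lit 13) (.e (nat_lit 393293) (nat_lit 26) (.e (nat_lit 483072) (nat_lit 44) .nil))))) .nil)))))))) (.nd (nat_lit 1) (.nd (nat_lit 2) (.nd (nat_lit 3) (.nd (nat_lit 4) (.nd (nat_lit 5) (.nd (nat_lit 6) 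
(.lf (nat_lit 106497) (.g (nat_lit 2087) (.e (nat_lit 4842) (nat_lit 283) (.e (nat_lit 57375) (nat_lit 2) (.e (nat_lit 90176) (nat_lit 15) (.e (nat_lit 188447) (nat_lit 22) (.e (nat_lit 196666) (nat_lit 13) .nil))))) .nil)) 
(.lf (nat_lit 106561) (.g (nat_lit 1440) (.e (nat_lit 4919) (nat_lit 287) (.e (nat_lit 1348) (nat_lit 102) (.e (nat_lit 286761) (nat_lit 13) (.e (nat_lit 393293) (nat_lit 26) .nil)))) .nil))) (.nd (nat_lit 6) 
(.lf (nat_lit 106529) (.g (nat_lit 1561) (.e (nat_lit 7936) (nat_lit 283) (.e (nat_lit 57373) (nat_lit 2) (.e (nat_lit 90176) (nat_lit 15) (.e (nat_lit 188450) (nat_lit 23) (.e (nat_lit 204862) (nat_lit 27) .nil))))) .nil)) 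
(.lf (nat_lit 106593) (.g (nat_lit 1388) (.e (nat_lit 4961) (nat_lit 287) (.e (nat_lit 1348) (nat_lit 102) (.e (nat_lit 286761) (nat_lit 13) (.e (nat_lit 393293) (nat_lit 26) .nil)))) .nil)))) (.nd (nat_lit 5) (.nd (nat_lit 6) 
(.lf (nat_lit 106513) (.g (nat_lit 969) (.e (nat_lit 7936) (nat_lit 283) (.e (nat_lit 57371) (nat_lit 2) (.e (nat_lit 90176) (nat_lit 15) (.e (nat_lit 188450) (nat_lit 23) .nil)))) .nil)) 
(.lf (nat_lit 106577) (.g (nat_lit 3022) (.e (nat_lit 4921) (nat_lit 287) (.e (nat_lit 1348) (nat_lit 102) (.e (nat_lit 286761) (nat_lit 13) (.e (nat_lit 393293) (nat_lit 26) (.e (nat_lit 483072) (nat_lit 44) .nil))))) .nil))) (.nd (nat_lit 6) 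
(.lf (nat_lit 106545) (.g (nat_lit 812) (.e (nat_lit 7936) (nat_lit 283) (.e (nat_lit 57379) (nat_lit 3) (.e (nat_lit 98381) (nat_lit 31) .nil))) .nil)) 
(.lf (nat_lit 106609) (.g (nat_lit 2775) (.e (nat_lit 4961) (nat_lit 287) (.e (nat_lit 1349) (nat_lit 102) (.e (nat_lit 286761) (nat_lit 13) (.e (nat_lit 393291) (nat_lit 26) (.e (nat_lit 475220) (nat_lit 44) .nil))))) .nil))))) (.nd (nat_lit 4) (.nd (nat_lit 5) (.nd (nat_lit 6) 
(.lf (nat_lit 106505) (.g (nat_lit 3428) (.e (nat_lit 4842) (nat_lit 283) (.e (nat_lit 57375) (nat_lit 2) (.e (nat_lit 90176) (nat_lit 15) (.e (nat_lit 188450) (nat_lit 23) (.e (nat_lit 204863) (nat_lit 27) (.e (nat_lit 344088) (nat_lit 18) .nil)))))) (.g (nat_lit 0) .nil .nil))) 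
(.lf (nat_lit 106569) (.g (nat_lit 3228) (.e (nat_lit 4921) (nat_lit 287) (.e (nat_lit 1348) (nat_lit 102) (.e (nat_lit 286761) (nat_lit 13) (.e (nat_lit 393291) (nat_lit 26) (.e (nat_lit 475219) (nat_lit 44) .nil))))) .nil))) (.nd (nat_lit 6) 
(.lf (nat_lit 106537) (.g (nat_lit 2187) (.e (nat_lit 7936) (nat_lit 283) (.e (nat_lit 57375) (nat_lit 2) (.e (nat_lit 90176) (nat_lit 15) (.e (nat_lit 188450) (nat_lit 23) (.e (nat_lit 204864) (nat_lit 27) .nil))))) .nil)) 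
(.lf (nat_lit 106601) (.g (nat_lit 1358) (.e (nat_lit 4961) (nat_lit 287) (.e (nat_lit 1349) (nat_lit 102) (.e (nat_lit 286748) (nat_lit 9) (.e (nat_lit 336389) (nat_lit 27) (.e (nat_lit 426308) (nat_lit 12) .nil))))) .nil)))) (.nd (nat_lit 5) (.nd (nat_lit 6) 
(.lf (nat_lit 106521) (.g (nat_lit 2370) (.e (nat_lit 7936) (nat_lit 283) (.e (nat_lit 57372) (nat_lit 2) (.e (nat_lit 90176) (nat_lit 15) (.e (nat_lit 188447) (nat_lit 22) (.e (nat_lit 196668) (nat_lit 14) .nil))))) .nil)) 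
(.lf (nat_lit 106585) (.g (nat_lit 1731) (.e (nat_lit 4961) (nat_lit 287) (.e (nat_lit 1348) (nat_lit 102) (.e (nat_lit 286735) (nat_lit 3) (.e (nat_lit 98373) (nat_lit 29) (.e (nat_lit 450563) (nat_lit 0) .nil))))) .nil))) (.nd (nat_lit 6) 
(.lf (nat_lit 106553) (.g (nat_lit 1907) (.e (nat_lit 4883) (nat_lit 287) (.e (nat_lit 1367) (nat_lit 103) (.e (nat_lit 294958) (nat_lit 13) (.e (nat_lit 393294) (nat_lit 26) (.e (nat_lit 475218) (nat_lit 44) .nil))))) .nil)) 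
(.lf (nat_lit 106617) (.g (nat_lit 795) (.e (nat_lit 4962) (nat_lit 287) (.e (nat_lit 1348) (nat_lit 102) (.e (nat_lit 286743) (nat_lit 9) .nil))) .nil)))))) (.nd (nat_lit 3) (.nd (nat_lit 4) (.nd (nat_lit 5) (.nd (nat_lit 6) 
(.lf (nat_lit 106501) (.g (nat_lit 1007) (.e (nat_lit 4842) (nat_lit 283) (.e (nat_lit 57375) (nat_lit 2) (.e (nat_lit 90176) (nat_lit 15) (.e (nat_lit 188450) (nat_lit 23) .nil)))) .nil)) 
(.lf (nat_lit 106565) (.g (nat_lit 2538) (.e (nat_lit 4919) (nat_lit 287) (.e (nat_lit 1348) (nat_lit 102) (.e (nat_lit 286761) (nat_lit 13) (.e (nat_lit 393293) (nat_lit 26) (.e (nat_lit 475219) (nat_lit 44) .nil))))) .nil))) (.nd (nat_lit 6) 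
(.lf (nat_lit 106533) (.g (nat_lit 2022) (.e (nat_lit 7936) (nat_lit 283) (.e (nat_lit 57375) (nat_lit 2) (.e (nat_lit 90176) (nat_lit 15) (.e (nat_lit 188447) (nat_lit 22) (.e (nat_lit 196666) (nat_lit 13) .nil))))) .nil)) 
(.lf (nat_lit 106597) (.g (nat_lit 2574) (.e (nat_lit 4961) (nat_lit 287) (.e (nat_lit 1348) (nat_lit 102) (.e (nat_lit 286761) (nat_lit 13) (.e (nat_lit 393293) (nat_lit 26) (.e (nat_lit 475217) (nat_lit 44) .nil))))) .nil)))) (.nd (nat_lit 5) (.nd (nat_lit 6) 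
(.lf (nat_lit 106517) (.g (nat_lit 1984) (.e (nat_lit 7936) (nat_lit 283) (.e (nat_lit 57371) (nat_lit 2) (.e (nat_lit 90176) (nat_lit 15) (.e (nat_lit 188450) (nat_lit 23) (.e (nat_lit 204872) (nat_lit 30) .nil))))) .nil)) 
(.lf (nat_lit 106581) (.g (nat_lit 693) (.e (nat_lit 4925) (nat_lit 287) (.e (nat_lit 1348) (nat_lit 102) (.e (nat_lit 286761) (nat_lit 13) .nil))) .nil))) (.nd (nat_lit 6) 
(.lf (nat_lit 106549) (.g (nat_lit 1187) (.e (nat_lit 4881) (nat_lit 287) (.e (nat_lit 1367) (nat_lit 103) (.e (nat_lit 294958) (nat_lit 13) (.e (nat_lit 393290) (nat_lit 26) (.e (nat_lit 475219) (nat_lit 44) .nil))))) .nil)) 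
(.lf (nat_lit 106613) (.g (nat_lit 1925) (.e (nat_lit 4961) (nat_lit 287) (.e (nat_lit 1349) (nat_lit 102) (.e (nat_lit 286761) (nat_lit 13) (.e (nat_lit 393293) (nat_lit 26) (.e (nat_lit 475218) (nat_lit 44) .nil))))) .nil))))) (.nd (nat_lit 4) (.nd (nat_lit 5) (.nd (nat_lit 6) 
(.lf (nat_lit 106509) (.g (nat_lit 2174) (.e (nat_lit 4842) (nat_lit 283) (.e (nat_lit 57378) (nat_lit 3) (.e (nat_lit 98365) (nat_lit 26) (.e (nat_lit 426298) (nat_lit 11) (.e (nat_lit 458789) (nat_lit 23) .nil))))) .nil)) 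
(.lf (nat_lit 106573) (.g (nat_lit 2745) (.e (nat_lit 4921) (nat_lit 287) (.e (nat_lit 1348) (nat_lit 102) (.e (nat_lit 286761) (nat_lit 13) (.e (nat_lit 393293) (nat_lit 26) (.e (nat_lit 475201) (nat_lit 40) .nil))))) .nil))) (.nd (nat_lit 6) 
(.lf (nat_lit 106541) (.g (nat_lit 2634) (.e (nat_lit 7936) (nat_lit 283) (.e (nat_lit 57378) (nat_lit 3) (.e (nat_lit 98381) (nat_lit 31) (.e (nat_lit 466977) (nat_lit 22) (.e (nat_lit 196668) (nat_lit 14) .nil))))) .nil)) 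
(.lf (nat_lit 106605) (.g (nat_lit 2297) (.e (nat_lit 4961) (nat_lit 287) (.e (nat_lit 1349) (nat_lit 102) (.e (nat_lit 286761) (nat_lit 13) (.e (nat_lit 393270) (nat_lit 23) (.e (nat_lit 426402) (nat_lit 15) .nil))))) .nil)))) (.nd (nat_lit 5) (.nd (nat_lit 6) 
(.lf (nat_lit 106525) (.g (nat_lit 2195) (.e (nat_lit 7936) (nat_lit 283) (.e (nat_lit 57372) (nat_lit 2) (.e (nat_lit 90176) (nat_lit 15) (.e (nat_lit 188450) (nat_lit 23) (.e (nat_lit 204864) (nat_lit 27) .nil))))) .nil)) 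
(.lf (nat_lit 106589) (.g (nat_lit 2767) (.e (nat_lit 4961) (nat_lit 287) (.e (nat_lit 1348) (nat_lit 102) (.e (nat_lit 286761) (nat_lit 13) (.e (nat_lit 393282) (nat_lit 24) (.e (nat_lit 434275) (nat_lit 39) .nil))))) .nil))) (.nd (nat_lit 6) 
(.lf (nat_lit 106557) (.g (nat_lit 1324) (.e (nat_lit 4900) (nat_lit 287) (.e (nat_lit 1353) (nat_lit 102) (.e (nat_lit 286761) (nat_lit 13) (.e (nat_lit 393293) (nat_lit 26) .nil)))) .nil)) 
(.lf (nat_lit 106621) (.g (nat_lit 2322) (.e (nat_lit 4962) (nat_lit 287) (.e (nat_lit 1348) (nat_lit 102) (.e (nat_lit 286761) (nat_lit 13) (.e (nat_lit 393293) (nat_lit 26) (.e (nat_lit 475216) (nat_lit 44) .nil))))) .nil))))))) (.nd (nat_lit 2) (.nd (nat_lit 3) (.nd (nat_lit 4) (.nd (nat_lit 5) (.nd (nat_lit 6) 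
(.lf (nat_lit 106499) (.g (nat_lit 3491) (.e (nat_lit 4842) (nat_lit 283) (.e (nat_lit 57375) (nat_lit 2) (.e (nat_lit 90176) (nat_lit 15) (.e (nat_lit 188447) (nat_lit 22) (.e (nat_lit 196666) (nat_lit 13) (.e (nat_lit 65550) (nat_lit 0) (.e (nat_lit 989) (nat_lit 81) .nil))))))) (.g (nat_lit 5) .nil .nil))) 
(.lf (nat_lit 106563) (.g (nat_lit 2613) (.e (nat_lit 4919) (nat_lit 287) (.e (nat_lit 1348) (nat_lit 102) (.e (nat_lit 286761) (nat_lit 13) (.e (nat_lit 393293) (nat_lit 26) (.e (nat_lit 475217) (nat_lit 44) .nil))))) .nil))) (.nd (nat_lit 6) 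
(.lf (nat_lit 106531) (.g (nat_lit 1519) (.e (nat_lit 7936) (nat_lit 283) (.e (nat_lit 57374) (nat_lit 2) (.e (nat_lit 90170) (nat_lit 13) (.e (nat_lit 172106) (nat_lit 10) .nil)))) .nil)) 
(.lf (nat_lit 106595) (.g (nat_lit 2489) (.e (nat_lit 4961) (nat_lit 287) (.e (nat_lit 1348) (nat_lit 102) (.e (nat_lit 286761) (nat_lit 13) (.e (nat_lit 393293) (nat_lit 26) (.e (nat_lit 475204) (nat_lit 40) .nil))))) .nil)))) (.nd (nat_lit 5) (.nd (nat_lit 6) 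
(.lf (nat_lit 106515) (.g (nat_lit 2051) (.e (nat_lit 7936) (nat_lit 283) (.e (nat_lit 57371) (nat_lit 2) (.e (nat_lit 90176) (nat_lit 15) (.e (nat_lit 188450) (nat_lit 23) (.e (nat_lit 204862) (nat_lit 27) .nil))))) .nil)) 
(.lf (nat_lit 106579) (.g (nat_lit 1987) (.e (nat_lit 4925) (nat_lit 287) (.e (nat_lit 1348) (nat_lit 102) (.e (nat_lit 286735) (nat_lit 3) (.e (nat_lit 98373) (nat_lit 29) (.e (nat_lit 450562) (nat_lit 0) .nil))))) .nil))) (.nd (nat_lit 6) 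
(.lf (nat_lit 106547) (.g (nat_lit 1213) (.e (nat_lit 4854) (nat_lit 287) (.e (nat_lit 1360) (nat_lit 102) (.e (nat_lit 286753) (nat_lit 10) (.e (nat_lit 344156) (nat_lit 36) .nil)))) .nil)) 
(.lf (nat_lit 106611) (.g (nat_lit 2018) (.e (nat_lit 4961) (nat_lit 287) (.e (nat_lit 1349) (nat_lit 102) (.e (nat_lit 286761) (nat_lit 13) (.e (nat_lit 393293) (nat_lit 26) (.e (nat_lit 475198) (nat_lit 40) .nil))))) .nil))))) (.nd (nat_lit 4) (.nd (nat_lit 5) (.nd (nat_lit 6) 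
(.lf (nat_lit 106507) (.g (nat_lit 1887) (.e (nat_lit 4842) (nat_lit 283) (.e (nat_lit 57375) (nat_lit 2) (.e (nat_lit 90176) (nat_lit 15) (.e (nat_lit 188450) (nat_lit 23) (.e (nat_lit 204873) (nat_lit 30) .nil))))) .nil)) 
(.lf (nat_lit 106571) (.g (nat_lit 2511) (.e (nat_lit 4921) (nat_lit 287) (.e (nat_lit 1348) (nat_lit 102) (.e (nat_lit 286761) (nat_lit 13) (.e (nat_lit 393293) (nat_lit 26) (.e (nat_lit 475196) (nat_lit 40) .nil))))) .nil))) (.nd (nat_lit 6) 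
(.lf (nat_lit 106539) (.g (nat_lit 1892) (.e (nat_lit 7936) (nat_lit 283) (.e (nat_lit 57375) (nat_lit 2) (.e (nat_lit 90176) (nat_lit 15) (.e (nat_lit 188450) (nat_lit 23) (.e (nat_lit 204873) (nat_lit 30) .nil))))) .nil)) 
(.lf (nat_lit 106603) (.g (nat_lit 1669) (.e (nat_lit 4961) (nat_lit 287) (.e (nat_lit 1349) (nat_lit 102) (.e (nat_lit 286748) (nat_lit 9) (.e (nat_lit 336389) (nat_lit 27) (.e (nat_lit 426315) (nat_lit 12) .nil))))) .nil)))) (.nd (nat_lit 5) (.nd (nat_lit 6) 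
(.lf (nat_lit 106523) (.g (nat_lit 1900) (.e (nat_lit 7936) (nat_lit 283) (.e (nat_lit 57372) (nat_lit 2) (.e (nat_lit 90176) (nat_lit 15) (.e (nat_lit 188450) (nat_lit 23) (.e (nat_lit 204855) (nat_lit 26) .nil))))) .nil)) 
(.lf (nat_lit 106587) (.g (nat_lit 570) (.e (nat_lit 4961) (nat_lit 287) (.e (nat_lit 1348) (nat_lit 102) (.e (nat_lit 286761) (nat_lit 13) .nil))) .nil))) (.nd (nat_lit 6) 
(.lf (nat_lit 106555) (.g (nat_lit 503) (.e (nat_lit 4886) (nat_lit 287) (.e (nat_lit 1360) (nat_lit 102) (.e (nat_lit 286753) (nat_lit 10) .nil))) .nil)) 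
(.lf (nat_lit 106619) (.g (nat_lit 1773) (.e (nat_lit 4962) (nat_lit 287) (.e (nat_lit 1348) (nat_lit 102) (.e (nat_lit 286761) (nat_lit 13) (.e (nat_lit 393270) (nat_lit 23) .nil)))) .nil)))))) (.nd (nat_lit 3) (.nd (nat_lit 4) (.nd (nat_lit 5) (.nd (nat_lit 6) 
(.lf (nat_lit 106503) (.g (nat_lit 1865) (.e (nat_lit 4842) (nat_lit 283) (.e (nat_lit 57375) (nat_lit 2) (.e (nat_lit 90176) (nat_lit 15) (.e (nat_lit 188450) (nat_lit 23) (.e (nat_lit 204855) (nat_lit 26) .nil))))) .nil)) 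
(.lf (nat_lit 106567) (.g (nat_lit 2549) (.e (nat_lit 4921) (nat_lit 287) (.e (nat_lit 1140) (nat_lit 84) (.e (nat_lit 32787) (nat_lit 9) (.e (nat_lit 65604) (nat_lit 9) (.e (nat_lit 336013) (nat_lit 2) (.e (nat_lit 90165) (nat_lit 12) (.e (nat_lit 164208) (nat_lit 176) (.e (nat_lit 2403) (nat_lit 157) .nil)))))))) (.g (nat_lit 6) .nil .nil)))) (.nd (nat_lit 6) 
(.lf (nat_lit 106535) (.g (nat_lit 1526) (.e (nat_lit 7936) (nat_lit 283) (.e (nat_lit 57375) (nat_lit 2) (.e (nat_lit 90176) (nat_lit 15) (.e (nat_lit 188448) (nat_lit 22) .nil)))) .nil)) 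
(.lf (nat_lit 106599) (.g (nat_lit 2499) (.e (nat_lit 4961) (nat_lit 287) (.e (nat_lit 1348) (nat_lit 102) (.e (nat_lit 286761) (nat_lit 13) (.e (nat_lit 393293) (nat_lit 26) (.e (nat_lit 475219) (nat_lit 44) .nil))))) .nil)))) (.nd (nat_lit 5) (.nd (nat_lit 6) 
(.lf (nat_lit 106519) (.g (nat_lit 458) (.e (nat_lit 7936) (nat_lit 283) (.e (nat_lit 57372) (nat_lit 2) (.e (nat_lit 90176) (nat_lit 15) .nil))) .nil)) 
(.lf (nat_lit 106583) (.g (nat_lit 1674) (.e (nat_lit 4925) (nat_lit 287) (.e (nat_lit 1349) (nat_lit 102) (.e (nat_lit 286761) (nat_lit 13) (.e (nat_lit 393293) (nat_lit 26) .nil)))) .nil))) (.nd (nat_lit 6) 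
(.lf (nat_lit 106551) (.g (nat_lit 1510) (.e (nat_lit 4883) (nat_lit 287) (.e (nat_lit 1360) (nat_lit 102) (.e (nat_lit 286761) (nat_lit 13) (.e (nat_lit 393293) (nat_lit 26) .nil)))) .nil)) 
(.lf (nat_lit 106615) (.g (nat_lit 2369) (.e (nat_lit 4961) (nat_lit 287) (.e (nat_lit 1349) (nat_lit 102) (.e (nat_lit 286761) (nat_lit 13) (.e (nat_lit 393296) (nat_lit 26) (.e (nat_lit 475216) (nat_lit 44) .nil))))) .nil))))) (.nd (nat_lit 4) (.nd (nat_lit 5) (.nd (nat_lit 6) 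
(.lf (nat_lit 106511) (.g (nat_lit 2160) (.e (nat_lit 4842) (nat_lit 283) (.e (nat_lit 57379) (nat_lit 3) (.e (nat_lit 98372) (nat_lit 29) (.e (nat_lit 450579) (nat_lit 5) (.e (nat_lit 532533) (nat_lit 9) .nil))))) .nil)) 
(.lf (nat_lit 106575) (.g (nat_lit 2843) (.e (nat_lit 4921) (nat_lit 287) (.e (nat_lit 1348) (nat_lit 102) (.e (nat_lit 286761) (nat_lit 13) (.e (nat_lit 393293) (nat_lit 26) (.e (nat_lit 475206) (nat_lit 40) .nil))))) .nil))) (.nd (nat_lit 6) 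
(.lf (nat_lit 106543) (.g (nat_lit 1188) (.e (nat_lit 7936) (nat_lit 283) (.e (nat_lit 57379) (nat_lit 3) (.e (nat_lit 98365) (nat_lit 26) (.e (nat_lit 426298) (nat_lit 11) .nil)))) .nil)) 
(.lf (nat_lit 106607) (.g (nat_lit 2008) (.e (nat_lit 4961) (nat_lit 287) (.e (nat_lit 1349) (nat_lit 102) (.e (nat_lit 286761) (nat_lit 13) (.e (nat_lit 393290) (nat_lit 26) .nil)))) .nil)))) (.nd (nat_lit 5) (.nd (nat_lit 6) 
(.lf (nat_lit 106527) (.g (nat_lit 2597) (.e (nat_lit 7936) (nat_lit 283) (.e (nat_lit 57373) (nat_lit 2) (.e (nat_lit 90170) (nat_lit 13) (.e (nat_lit 172106) (nat_lit 10) (.e (nat_lit 434231) (nat_lit 23) .nil))))) .nil)) 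
(.lf (nat_lit 106591) (.g (nat_lit 3166) (.e (nat_lit 4961) (nat_lit 287) (.e (nat_lit 1348) (nat_lit 102) (.e (nat_lit 286761) (nat_lit 13) (.e (nat_lit 393291) (nat_lit 26) (.e (nat_lit 475219) (nat_lit 44) .nil))))) .nil))) (.nd (nat_lit 6) 
(.lf (nat_lit 106559) (.g (nat_lit 574) (.e (nat_lit 4919) (nat_lit 287) (.e (nat_lit 1348) (nat_lit 102) (.e (nat_lit 286761) (nat_lit 13) .nil))) .nil)) 
(.lf (nat_lit 106623) (.g (nat_lit 2967) (.e (nat_lit 4962) (nat_lit 287) (.e (nat_lit 1348) (nat_lit 102) (.e (nat_lit 286761) (nat_lit 13) (.e (nat_lit 393296) (nat_lit 26) (.e (nat_lit 475216) (nat_lit 44) .nil))))) .nil)))))))))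

noncomputable def tv1450 : DT := (.nd (nat_lit 0) (.nd (nat_lit 1) (.nd (nat_lit 2) (.nd (nat_lit 3) (.nd (nat_lit 4) (.nd (nat_lit 5) (.nd (nat_lit 6) 
(.lf (nat_lit 106624) (.g (nat_lit 556) (.e (nat_lit 4962) (nat_lit 287) (.e (nat_lit 1349) (nat_lit 102) (.e (nat_lit 286761) (nat_lit 13) .nil))) .nil)) 
(.lf (nat_lit 106688) (.g (nat_lit 2159) (.e (nat_lit 4995) (nat_lit 288) (.e (nat_lit 57602) (nat_lit 107) (.e (nat_lit 704734) (nat_lit 11) (.e (nat_lit 16466) (nat_lit 13) (.e (nat_lit 483377) (nat_lit 22) (.e (nat_lit 327705) (nat_lit 10) .nil)))))) (.g (nat_lit 6) .nil .nil)))) (.nd (nat_lit 6) 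
(.lf (nat_lit 106656) (.g (nat_lit 1853) (.e (nat_lit 4965) (nat_lit 287) (.e (nat_lit 1349) (nat_lit 102) (.e (nat_lit 286748) (nat_lit 9) (.e (nat_lit 336389) (nat_lit 27) (.e (nat_lit 426307) (nat_lit 12) .nil))))) .nil)) 
(.lf (nat_lit 106720) (.g (nat_lit 1218) (.e (nat_lit 5024) (nat_lit 290) (.e (nat_lit 164112) (nat_lit 118) (.e (nat_lit 794635) (nat_lit 11) (.e (nat_lit 336209) (nat_lit 13) (.e (nat_lit 393264) (nat_lit 22) (.e (nat_lit 417817) (nat_lit 10) .nil)))))) (.g (nat_lit 0) .nil .nil))))) (.nd (nat_lit 5) (.nd (nat_lit 6) 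
(.lf (nat_lit 106640) (.g (nat_lit 2467) (.e (nat_lit 4963) (nat_lit 287) (.e (nat_lit 1348) (nat_lit 102) (.e (nat_lit 286761) (nat_lit 13) (.e (nat_lit 393293) (nat_lit 26) (.e (nat_lit 475204) (nat_lit 40) .nil))))) .nil)) 
(.lf (nat_lit 106704) (.g (nat_lit 525) (.e (nat_lit 5003) (nat_lit 288) (.e (nat_lit 57884) (nat_lit 270) (.e (nat_lit 1656) (nat_lit 115) .nil))) .nil))) (.nd (nat_lit 6) 
(.lf (nat_lit 106672) (.g (nat_lit 2068) (.e (nat_lit 4987) (nat_lit 288) (.e (nat_lit 57887) (nat_lit 270) (.e (nat_lit 1656) (nat_lit 115) (.e (nat_lit 393291) (nat_lit 26) (.e (nat_lit 475219) (nat_lit 44) .nil))))) .nil)) 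
(.lf (nat_lit 106736) (.g (nat_lit 2186) (.e (nat_lit 5055) (nat_lit 292) (.e (nat_lit 1201) (nat_lit 88) (.e (nat_lit 65610) (nat_lit 10) (.e (nat_lit 344157) (nat_lit 36) (.e (nat_lit 638985) (nat_lit 5) (.e (nat_lit 3022) (nat_lit 187) (.e (nat_lit 458496) (nat_lit 0) .nil))))))) (.g (nat_lit 4) .nil .nil)))))) (.nd (nat_lit 4) (.nd (nat_lit 5) (.nd (nat_lit 6) 
(.lf (nat_lit 106632) (.g (nat_lit 1322) (.e (nat_lit 4963) (nat_lit 287) (.e (nat_lit 1348) (nat_lit 102) (.e (nat_lit 286761) (nat_lit 13) (.e (nat_lit 393234) (nat_lit 17) .nil)))) .nil)) 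
(.lf (nat_lit 106696) (.g (nat_lit 1441) (.e (nat_lit 4995) (nat_lit 288) (.e (nat_lit 57902) (nat_lit 277) (.e (nat_lit 131140) (nat_lit 27) (.e (nat_lit 426306) (nat_lit 12) (.e (nat_lit 475220) (nat_lit 44) (.e (nat_lit 737286) (nat_lit 0) .nil)))))) (.g (nat_lit 6) .nil .nil)))) (.nd (nat_lit 6) 
(.lf (nat_lit 106664) (.g (nat_lit 1269) (.e (nat_lit 4965) (nat_lit 287) (.e (nat_lit 1349) (nat_lit 102) (.e (nat_lit 286761) (nat_lit 13) (.e (nat_lit 393293) (nat_lit 26) .nil)))) .nil)) 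
(.lf (nat_lit 106728) (.g (nat_lit 448) (.e (nat_lit 5045) (nat_lit 292) (.e (nat_lit 1212) (nat_lit 89) (.e (nat_lit 73789) (nat_lit 45) .nil))) .nil)))) (.nd (nat_lit 5) (.nd (nat_lit 6) 
(.lf (nat_lit 106648) (.g (nat_lit 556) (.e (nat_lit 4964) (nat_lit 287) (.e (nat_lit 1349) (nat_lit 102) (.e (nat_lit 286761) (nat_lit 13) .nil))) .nil)) 
(.lf (nat_lit 106712) (.g (nat_lit 1560) (.e (nat_lit 5022) (nat_lit 290) (.e (nat_lit 164112) (nat_lit 118) (.e (nat_lit 794637) (nat_lit 11) (.e (nat_lit 336222) (nat_lit 13) (.e (nat_lit 393260) (nat_lit 21) (.e (nat_lit 417536) (nat_lit 10) .nil)))))) (.g (nat_lit 5) .nil .nil)))) (.nd (nat_lit 6) 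
(.lf (nat_lit 106680) (.g (nat_lit 2736) (.e (nat_lit 4991) (nat_lit 288) (.e (nat_lit 57884) (nat_lit 270) (.e (nat_lit 1656) (nat_lit 115) (.e (nat_lit 393291) (nat_lit 26) (.e (nat_lit 475219) (nat_lit 44) .nil))))) .nil)) 
(.lf (nat_lit 106744) (.g (nat_lit 594) (.e (nat_lit 5055) (nat_lit 292) (.e (nat_lit 1212) (nat_lit 89) (.e (nat_lit 73789) (nat_lit 45) .nil))) .nil)))))) (.nd (nat_lit 3) (.nd (nat_lit 4) (.nd (nat_lit 5) (.nd (nat_lit 6) 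
(.lf (nat_lit 106628) (.g (nat_lit 1844) (.e (nat_lit 4963) (nat_lit 287) (.e (nat_lit 1348) (nat_lit 102) (.e (nat_lit 286743) (nat_lit 9) (.e (nat_lit 336428) (nat_lit 29) .nil)))) .nil)) 
(.lf (nat_lit 106692) (.g (nat_lit 1498) (.e (nat_lit 4995) (nat_lit 288) (.e (nat_lit 57902) (nat_lit 277) (.e (nat_lit 131140) (nat_lit 27) (.e (nat_lit 426306) (nat_lit 12) (.e (nat_lit 475216) (nat_lit 44) (.e (nat_lit 737286) (nat_lit 0) .nil)))))) (.g (nat_lit 6) .nil .nil)))) (.nd (nat_lit 6) 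
(.lf (nat_lit 106660) (.g (nat_lit 1974) (.e (nat_lit 4965) (nat_lit 287) (.e (nat_lit 1349) (nat_lit 102) (.e (nat_lit 286761) (nat_lit 13) (.e (nat_lit 393290) (nat_lit 26) .nil)))) .nil)) 
(.lf (nat_lit 106724) (.g (nat_lit 2218) (.e (nat_lit 5045) (nat_lit 292) (.e (nat_lit 1201) (nat_lit 88) (.e (nat_lit 65610) (nat_lit 10) (.e (nat_lit 344160) (nat_lit 37) (.e (nat_lit 647195) (nat_lit 9) (.e (nat_lit 7936) (nat_lit 35) (.e (nat_lit 450568) (nat_lit 0) .nil))))))) (.g (nat_lit 4) .nil .nil))))) (.nd (nat_lit 5) (.nd (nat_lit 6) 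
(.lf (nat_lit 106644) (.g (nat_lit 3380) (.e (nat_lit 4963) (nat_lit 287) (.e (nat_lit 1348) (nat_lit 102) (.e (nat_lit 286761) (nat_lit 13) (.e (nat_lit 393296) (nat_lit 26) (.e (nat_lit 475216) (nat_lit 44) (.e (nat_lit 737283) (nat_lit 0) .nil)))))) (.g (nat_lit 6) .nil .nil))) 
(.lf (nat_lit 106708) (.g (nat_lit 881) (.e (nat_lit 5005) (nat_lit 288) (.e (nat_lit 57881) (nat_lit 270) (.e (nat_lit 7936) (nat_lit 115) (.e (nat_lit 393296) (nat_lit 26) (.e (nat_lit 475216) (nat_lit 44) .nil))))) .nil))) (.nd (nat_lit 6) 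
(.lf (nat_lit 106676) (.g (nat_lit 1586) (.e (nat_lit 4990) (nat_lit 288) (.e (nat_lit 57884) (nat_lit 270) (.e (nat_lit 1529) (nat_lit 109) (.e (nat_lit 344156) (nat_lit 36) (.e (nat_lit 638998) (nat_lit 8) .nil))))) .nil)) 
(.lf (nat_lit 106740) (.g (nat_lit 2212) (.e (nat_lit 5055) (nat_lit 292) (.e (nat_lit 1201) (nat_lit 88) (.e (nat_lit 65610) (nat_lit 10) (.e (nat_lit 344157) (nat_lit 36) (.e (nat_lit 638986) (nat_lit 5) (.e (nat_lit 3022) (nat_lit 187) (.e (nat_lit 458496) (nat_lit 0) .nil))))))) (.g (nat_lit 4) .nil .nil)))))) (.nd (nat_lit 4) (.nd (nat_lit 5) (.nd (nat_lit 6) 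
(.lf (nat_lit 106636) (.g (nat_lit 2724) (.e (nat_lit 4963) (nat_lit 287) (.e (nat_lit 1348) (nat_lit 102) (.e (nat_lit 286761) (nat_lit 13) (.e (nat_lit 393270) (nat_lit 23) (.e (nat_lit 426402) (nat_lit 15) .nil))))) .nil)) 
(.lf (nat_lit 106700) (.g (nat_lit 1704) (.e (nat_lit 5001) (nat_lit 288) (.e (nat_lit 57884) (nat_lit 270) (.e (nat_lit 1656) (nat_lit 115) (.e (nat_lit 393290) (nat_lit 26) .nil)))) .nil))) (.nd (nat_lit 6) 
(.lf (nat_lit 106668) (.g (nat_lit 1443) (.e (nat_lit 4965) (nat_lit 287) (.e (nat_lit 1349) (nat_lit 102) (.e (nat_lit 286761) (nat_lit 13) (.e (nat_lit 393296) (nat_lit 26) .nil)))) .nil)) 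
(.lf (nat_lit 106732) (.g (nat_lit 888) (.e (nat_lit 5051) (nat_lit 292) (.e (nat_lit 2645) (nat_lit 166) (.e (nat_lit 188434) (nat_lit 20) (.e (nat_lit 3391) (nat_lit 210) .nil)))) .nil)))) (.nd (nat_lit 5) (.nd (nat_lit 6) 
(.lf (nat_lit 106652) (.g (nat_lit 1557) (.e (nat_lit 4965) (nat_lit 287) (.e (nat_lit 1348) (nat_lit 102) (.e (nat_lit 286761) (nat_lit 13) (.e (nat_lit 393293) (nat_lit 26) .nil)))) .nil)) 
(.lf (nat_lit 106716) (.g (nat_lit 1135) (.e (nat_lit 5022) (nat_lit 290) (.e (nat_lit 164356) (nat_lit 246) (.e (nat_lit 100) (nat_lit 2) (.e (nat_lit 90176) (nat_lit 15) .nil)))) .nil))) (.nd (nat_lit 6) 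
(.lf (nat_lit 106684) (.g (nat_lit 1751) (.e (nat_lit 4993) (nat_lit 288) (.e (nat_lit 57884) (nat_lit 270) (.e (nat_lit 1656) (nat_lit 115) (.e (nat_lit 393291) (nat_lit 26) .nil)))) .nil)) 
(.lf (nat_lit 106748) (.g (nat_lit 992) (.e (nat_lit 5055) (nat_lit 292) (.e (nat_lit 1222) (nat_lit 90) (.e (nat_lit 81943) (nat_lit 20) (.e (nat_lit 1962) (nat_lit 134) .nil)))) .nil))))))) (.nd (nat_lit 2) (.nd (nat_lit 3) (.nd (nat_lit 4) (.nd (nat_lit 5) (.nd (nat_lit 6) 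
(.lf (nat_lit 106626) (.g (nat_lit 1794) (.e (nat_lit 4963) (nat_lit 287) (.e (nat_lit 1348) (nat_lit 102) (.e (nat_lit 286735) (nat_lit 3) (.e (nat_lit 98373) (nat_lit 29) (.e (nat_lit 450563) (nat_lit 0) .nil))))) .nil)) 
(.lf (nat_lit 106690) (.g (nat_lit 806) (.e (nat_lit 4995) (nat_lit 288) (.e (nat_lit 57881) (nat_lit 270) (.e (nat_lit 7936) (nat_lit 115) (.e (nat_lit 393296) (nat_lit 26) (.e (nat_lit 475218) (nat_lit 44) .nil))))) .nil))) (.nd (nat_lit 6) 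
(.lf (nat_lit 106658) (.g (nat_lit 1568) (.e (nat_lit 4965) (nat_lit 287) (.e (nat_lit 1349) (nat_lit 102) (.e (nat_lit 286761) (nat_lit 13) (.e (nat_lit 393270) (nat_lit 23) .nil)))) .nil)) 
(.lf (nat_lit 106722) (.g (nat_lit 2366) (.e (nat_lit 5045) (nat_lit 292) (.e (nat_lit 1183) (nat_lit 87) (.e (nat_lit 57479) (nat_lit 28) (.e (nat_lit 557105) (nat_lit 14) (.e (nat_lit 180252) (nat_lit 10) .nil))))) .nil)))) (.nd (nat_lit 5) (.nd (nat_lit 6) 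
(.lf (nat_lit 106642) (.g (nat_lit 2477) (.e (nat_lit 4963) (nat_lit 287) (.e (nat_lit 1348) (nat_lit 102) (.e (nat_lit 286761) (nat_lit 13) (.e (nat_lit 393293) (nat_lit 26) (.e (nat_lit 475219) (nat_lit 44) .nil))))) .nil)) 
(.lf (nat_lit 106706) (.g (nat_lit 2068) (.e (nat_lit 5003) (nat_lit 288) (.e (nat_lit 57887) (nat_lit 270) (.e (nat_lit 1656) (nat_lit 115) (.e (nat_lit 393291) (nat_lit 26) (.e (nat_lit 475219) (nat_lit 44) .nil))))) .nil))) (.nd (nat_lit 6) 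
(.lf (nat_lit 106674) (.g (nat_lit 1120) (.e (nat_lit 4990) (nat_lit 288) (.e (nat_lit 57884) (nat_lit 270) (.e (nat_lit 1250) (nat_lit 92) (.e (nat_lit 98372) (nat_lit 29) .nil)))) .nil)) 
(.lf (nat_lit 106738) (.g (nat_lit 1843) (.e (nat_lit 5055) (nat_lit 292) (.e (nat_lit 1201) (nat_lit 88) (.e (nat_lit 65610) (nat_lit 10) (.e (nat_lit 344157) (nat_lit 36) (.e (nat_lit 638986) (nat_lit 5) .nil))))) .nil))))) (.nd (nat_lit 4) (.nd (nat_lit 5) (.nd (nat_lit 6) 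
(.lf (nat_lit 106634) (.g (nat_lit 2788) (.e (nat_lit 4963) (nat_lit 287) (.e (nat_lit 1348) (nat_lit 102) (.e (nat_lit 286761) (nat_lit 13) (.e (nat_lit 393270) (nat_lit 23) (.e (nat_lit 426354) (nat_lit 15) .nil))))) .nil)) 
(.lf (nat_lit 106698) (.g (nat_lit 1645) (.e (nat_lit 4995) (nat_lit 288) (.e (nat_lit 57902) (nat_lit 277) (.e (nat_lit 131140) (nat_lit 27) (.e (nat_lit 426315) (nat_lit 12) (.e (nat_lit 475219) (nat_lit 44) (.e (nat_lit 737286) (nat_lit 0) .nil)))))) (.g (nat_lit 0) .nil .nil)))) (.nd (nat_lit 6) 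
(.lf (nat_lit 106666) (.g (nat_lit 1942) (.e (nat_lit 4965) (nat_lit 287) (.e (nat_lit 1349) (nat_lit 102) (.e (nat_lit 286761) (nat_lit 13) (.e (nat_lit 393293) (nat_lit 26) (.e (nat_lit 475204) (nat_lit 40) (.e (nat_lit 704808) (nat_lit 14) (.e (nat_lit 1008) (nat_lit 81) .nil))))))) (.g (nat_lit 4) .nil .nil))) 
(.lf (nat_lit 106730) (.g (nat_lit 739) (.e (nat_lit 5045) (nat_lit 292) (.e (nat_lit 1217) (nat_lit 90) (.e (nat_lit 81946) (nat_lit 20) (.e (nat_lit 1963) (nat_lit 134) .nil)))) .nil)))) (.nd (nat_lit 5) (.nd (nat_lit 6) 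
(.lf (nat_lit 106650) (.g (nat_lit 1883) (.e (nat_lit 4965) (nat_lit 287) (.e (nat_lit 1348) (nat_lit 102) (.e (nat_lit 286761) (nat_lit 13) (.e (nat_lit 393270) (nat_lit 23) .nil)))) .nil)) 
(.lf (nat_lit 106714) (.g (nat_lit 1087) (.e (nat_lit 5022) (nat_lit 290) (.e (nat_lit 164354) (nat_lit 246) (.e (nat_lit 112) (nat_lit 3) (.e (nat_lit 98372) (nat_lit 29) (.e (nat_lit 458496) (nat_lit 26) .nil))))) .nil))) (.nd (nat_lit 6) 
(.lf (nat_lit 106682) (.g (nat_lit 2737) (.e (nat_lit 4992) (nat_lit 288) (.e (nat_lit 57884) (nat_lit 270) (.e (nat_lit 1656) (nat_lit 115) (.e (nat_lit 393291) (nat_lit 26) (.e (nat_lit 475219) (nat_lit 44) .nil))))) .nil)) 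
(.lf (nat_lit 106746) (.g (nat_lit 680) (.e (nat_lit 5055) (nat_lit 292) (.e (nat_lit 1214) (nat_lit 89) (.e (nat_lit 73792) (nat_lit 45) .nil))) .nil)))))) (.nd (nat_lit 3) (.nd (nat_lit 4) (.nd (nat_lit 5) (.nd (nat_lit 6) 
(.lf (nat_lit 106630) (.g (nat_lit 2382) (.e (nat_lit 4963) (nat_lit 287) (.e (nat_lit 1348) (nat_lit 102) (.e (nat_lit 286748) (nat_lit 9) (.e (nat_lit 336389) (nat_lit 27) (.e (nat_lit 426315) (nat_lit 12) .nil))))) .nil)) 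
(.lf (nat_lit 106694) (.g (nat_lit 1188) (.e (nat_lit 4995) (nat_lit 288) (.e (nat_lit 57902) (nat_lit 277) (.e (nat_lit 131140) (nat_lit 27) (.e (nat_lit 426306) (nat_lit 12) (.e (nat_lit 475218) (nat_lit 44) (.e (nat_lit 737286) (nat_lit 0) .nil)))))) (.g (nat_lit 4) .nil .nil)))) (.nd (nat_lit 6) 
(.lf (nat_lit 106662) (.g (nat_lit 3426) (.e (nat_lit 4965) (nat_lit 287) (.e (nat_lit 1349) (nat_lit 102) (.e (nat_lit 286761) (nat_lit 13) (.e (nat_lit 393291) (nat_lit 26) (.e (nat_lit 475219) (nat_lit 44) (.e (nat_lit 737281) (nat_lit 0) .nil)))))) (.g (nat_lit 6) .nil .nil))) 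
(.lf (nat_lit 106726) (.g (nat_lit 1294) (.e (nat_lit 5045) (nat_lit 292) (.e (nat_lit 1201) (nat_lit 88) (.e (nat_lit 65617) (nat_lit 10) (.e (nat_lit 344157) (nat_lit 36) .nil)))) .nil)))) (.nd (nat_lit 5) (.nd (nat_lit 6) 
(.lf (nat_lit 106646) (.g (nat_lit 3304) (.e (nat_lit 4964) (nat_lit 287) (.e (nat_lit 1348) (nat_lit 102) (.e (nat_lit 286761) (nat_lit 13) (.e (nat_lit 393291) (nat_lit 26) (.e (nat_lit 475219) (nat_lit 44) .nil))))) .nil)) 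
(.lf (nat_lit 106710) (.g (nat_lit 1476) (.e (nat_lit 5019) (nat_lit 290) (.e (nat_lit 164359) (nat_lit 246) (.e (nat_lit 2887) (nat_lit 184) (.e (nat_lit 426043) (nat_lit 0) .nil)))) .nil))) (.nd (nat_lit 6) 
(.lf (nat_lit 106678) (.g (nat_lit 1459) (.e (nat_lit 4990) (nat_lit 288) (.e (nat_lit 57884) (nat_lit 270) (.e (nat_lit 1656) (nat_lit 115) (.e (nat_lit 393293) (nat_lit 26) .nil)))) .nil)) 
(.lf (nat_lit 106742) (.g (nat_lit 1488) (.e (nat_lit 5055) (nat_lit 292) (.e (nat_lit 1201) (nat_lit 88) (.e (nat_lit 65610) (nat_lit 10) (.e (nat_lit 344160) (nat_lit 37) .nil)))) .nil))))) (.nd (nat_lit 4) (.nd (nat_lit 5) (.nd (nat_lit 6) 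
(.lf (nat_lit 106638) (.g (nat_lit 3156) (.e (nat_lit 4963) (nat_lit 287) (.e (nat_lit 1348) (nat_lit 102) (.e (nat_lit 286761) (nat_lit 13) (.e (nat_lit 393291) (nat_lit 26) (.e (nat_lit 475219) (nat_lit 44) .nil))))) .nil)) 
(.lf (nat_lit 106702) (.g (nat_lit 2166) (.e (nat_lit 5001) (nat_lit 288) (.e (nat_lit 57884) (nat_lit 270) (.e (nat_lit 1656) (nat_lit 115) (.e (nat_lit 393293) (nat_lit 26) (.e (nat_lit 475218) (nat_lit 44) .nil))))) .nil))) (.nd (nat_lit 6) 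
(.lf (nat_lit 106670) (.g (nat_lit 2562) (.e (nat_lit 7936) (nat_lit 287) (.e (nat_lit 1348) (nat_lit 102) (.e (nat_lit 286735) (nat_lit 3) (.e (nat_lit 98373) (nat_lit 29) (.e (nat_lit 450576) (nat_lit 2) .nil))))) .nil)) 
(.lf (nat_lit 106734) (.g (nat_lit 1611) (.e (nat_lit 5055) (nat_lit 292) (.e (nat_lit 1201) (nat_lit 88) (.e (nat_lit 65610) (nat_lit 10) (.e (nat_lit 344157) (nat_lit 36) .nil)))) .nil)))) (.nd (nat_lit 5) (.nd (nat_lit 6) 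
(.lf (nat_lit 106654) (.g (nat_lit 3104) (.e (nat_lit 4965) (nat_lit 287) (.e (nat_lit 1348) (nat_lit 102) (.e (nat_lit 286761) (nat_lit 13) (.e (nat_lit 393296) (nat_lit 26) (.e (nat_lit 475216) (nat_lit 44) .nil))))) .nil)) 
(.lf (nat_lit 106718) (.g (nat_lit 1683) (.e (nat_lit 5022) (nat_lit 290) (.e (nat_lit 164358) (nat_lit 246) (.e (nat_lit 112) (nat_lit 3) (.e (nat_lit 98373) (nat_lit 29) (.e (nat_lit 458496) (nat_lit 26) (.e (nat_lit 745216) (nat_lit 0) .nil)))))) (.g (nat_lit 4) .nil .nil)))) (.nd (nat_lit 6) 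
(.lf (nat_lit 106686) (.g (nat_lit 1487) (.e (nat_lit 4993) (nat_lit 288) (.e (nat_lit 57902) (nat_lit 277) (.e (nat_lit 131140) (nat_lit 27) (.e (nat_lit 426306) (nat_lit 12) (.e (nat_lit 475220) (nat_lit 44) (.e (nat_lit 745216) (nat_lit 0) .nil)))))) (.g (nat_lit 5) .nil .nil))) 
(.lf (nat_lit 106750) (.g (nat_lit 1112) (.e (nat_lit 5055) (nat_lit 292) (.e (nat_lit 1224) (nat_lit 90) (.e (nat_lit 81946) (nat_lit 20) (.e (nat_lit 1963) (nat_lit 134) (.e (nat_lit 638986) (nat_lit 5) .nil))))) .nil)))))))) (.nd (nat_lit 1) (.nd (nat_lit 2) (.nd (nat_lit 3) (.nd (nat_lit 4) (.nd (nat_lit 5) (.nd (nat_lit 6) 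
(.lf (nat_lit 106625) (.g (nat_lit 1988) (.e (nat_lit 4963) (nat_lit 287) (.e (nat_lit 1348) (nat_lit 102) (.e (nat_lit 286735) (nat_lit 3) (.e (nat_lit 98373) (nat_lit 29) (.e (nat_lit 450562) (nat_lit 0) .nil))))) .nil)) 
(.lf (nat_lit 106689) (.g (nat_lit 90) (.e (nat_lit 4995) (nat_lit 288) (.e (nat_lit 57608) (nat_lit 107) (.e (nat_lit 704738) (nat_lit 11) .nil))) .nil))) (.nd (nat_lit 6) 
(.lf (nat_lit 106657) (.g (nat_lit 2229) (.e (nat_lit 4965) (nat_lit 287) (.e (nat_lit 1349) (nat_lit 102) (.e (nat_lit 286760) (nat_lit 13) (.e (nat_lit 393296) (nat_lit 26) (.e (nat_lit 475216) (nat_lit 44) .nil))))) .nil)) 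
(.lf (nat_lit 106721) (.g (nat_lit 2207) (.e (nat_lit 5024) (nat_lit 290) (.e (nat_lit 164112) (nat_lit 118) (.e (nat_lit 794637) (nat_lit 11) (.e (nat_lit 336213) (nat_lit 13) (.e (nat_lit 393264) (nat_lit 22) (.e (nat_lit 417817) (nat_lit 10) .nil)))))) (.g (nat_lit 0) .nil .nil))))) (.nd (nat_lit 5) (.nd (nat_lit 6) 
(.lf (nat_lit 106641) (.g (nat_lit 2330) (.e (nat_lit 4963) (nat_lit 287) (.e (nat_lit 1348) (nat_lit 102) (.e (nat_lit 286761) (nat_lit 13) (.e (nat_lit 393293) (nat_lit 26) (.e (nat_lit 475216) (nat_lit 44) .nil))))) .nil)) 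
(.lf (nat_lit 106705) (.g (nat_lit 2726) (.e (nat_lit 5003) (nat_lit 288) (.e (nat_lit 57884) (nat_lit 270) (.e (nat_lit 1656) (nat_lit 115) (.e (nat_lit 393291) (nat_lit 26) (.e (nat_lit 475219) (nat_lit 44) .nil))))) .nil))) (.nd (nat_lit 6) 
(.lf (nat_lit 106673) (.g (nat_lit 597) (.e (nat_lit 4990) (nat_lit 288) (.e (nat_lit 57884) (nat_lit 270) (.e (nat_lit 1250) (nat_lit 92) .nil))) .nil)) 
(.lf (nat_lit 106737) (.g (nat_lit 2303) (.e (nat_lit 5055) (nat_lit 292) (.e (nat_lit 1201) (nat_lit 88) (.e (nat_lit 65610) (nat_lit 10) (.e (nat_lit 344157) (nat_lit 36) (.e (nat_lit 638985) (nat_lit 5) (.e (nat_lit 3027) (nat_lit 187) (.e (nat_lit 458496) (nat_lit 0) .nil))))))) (.g (nat_lit 4) .nil .nil)))))) (.nd (nat_lit 4) (.nd (nat_lit 5) (.nd (nat_lit 6) 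
(.lf (nat_lit 106633) (.g (nat_lit 1757) (.e (nat_lit 4963) (nat_lit 287) (.e (nat_lit 1348) (nat_lit 102) (.e (nat_lit 286761) (nat_lit 13) (.e (nat_lit 393270) (nat_lit 23) .nil)))) .nil)) 
(.lf (nat_lit 106697) (.g (nat_lit 1250) (.e (nat_lit 4995) (nat_lit 288) (.e (nat_lit 57902) (nat_lit 277) (.e (nat_lit 131140) (nat_lit 27) (.e (nat_lit 426315) (nat_lit 12) (.e (nat_lit 475216) (nat_lit 44) (.e (nat_lit 737286) (nat_lit 0) .nil)))))) (.g (nat_lit 4) .nil .nil)))) (.nd (nat_lit 6) 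
(.lf (nat_lit 106665) (.g (nat_lit 1905) (.e (nat_lit 4965) (nat_lit 287) (.e (nat_lit 1349) (nat_lit 102) (.e (nat_lit 286761) (nat_lit 13) (.e (nat_lit 393293) (nat_lit 26) (.e (nat_lit 475204) (nat_lit 40) .nil))))) .nil)) 
(.lf (nat_lit 106729) (.g (nat_lit 845) (.e (nat_lit 5045) (nat_lit 292) (.e (nat_lit 1212) (nat_lit 89) (.e (nat_lit 73789) (nat_lit 45) (.e (nat_lit 1340) (nat_lit 101) .nil)))) .nil)))) (.nd (nat_lit 5) (.nd (nat_lit 6) 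
(.lf (nat_lit 106649) (.g (nat_lit 1381) (.e (nat_lit 4965) (nat_lit 287) (.e (nat_lit 1348) (nat_lit 102) (.e (nat_lit 286735) (nat_lit 3) (.e (nat_lit 98373) (nat_lit 29) .nil)))) .nil)) 
(.lf (nat_lit 106713) (.g (nat_lit 329) (.e (nat_lit 5022) (nat_lit 290) (.e (nat_lit 164294) (nat_lit 224) (.e (nat_lit 164112) (nat_lit 118) (.e (nat_lit 802560) (nat_lit 13) .nil)))) .nil))) (.nd (nat_lit 6) 
(.lf (nat_lit 106681) (.g (nat_lit 1009) (.e (nat_lit 4992) (nat_lit 288) (.e (nat_lit 57881) (nat_lit 270) (.e (nat_lit 7936) (nat_lit 115) (.e (nat_lit 393296) (nat_lit 26) (.e (nat_lit 475219) (nat_lit 44) .nil))))) .nil)) 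
(.lf (nat_lit 106745) (.g (nat_lit 978) (.e (nat_lit 5055) (nat_lit 292) (.e (nat_lit 1212) (nat_lit 89) (.e (nat_lit 73789) (nat_lit 45) (.e (nat_lit 1340) (nat_lit 101) .nil)))) .nil)))))) (.nd (nat_lit 3) (.nd (nat_lit 4) (.nd (nat_lit 5) (.nd (nat_lit 6) 
(.lf (nat_lit 106629) (.g (nat_lit 1295) (.e (nat_lit 4963) (nat_lit 287) (.e (nat_lit 1348) (nat_lit 102) (.e (nat_lit 286748) (nat_lit 9) (.e (nat_lit 336389) (nat_lit 27) .nil)))) .nil)) 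
(.lf (nat_lit 106693) (.g (nat_lit 1415) (.e (nat_lit 4995) (nat_lit 288) (.e (nat_lit 57902) (nat_lit 277) (.e (nat_lit 131140) (nat_lit 27) (.e (nat_lit 426306) (nat_lit 12) (.e (nat_lit 475217) (nat_lit 44) (.e (nat_lit 737286) (nat_lit 0) .nil)))))) (.g (nat_lit 5) .nil .nil)))) (.nd (nat_lit 6) 
(.lf (nat_lit 106661) (.g (nat_lit 1583) (.e (nat_lit 4965) (nat_lit 287) (.e (nat_lit 1349) (nat_lit 102) (.e (nat_lit 286761) (nat_lit 13) (.e (nat_lit 393291) (nat_lit 26) .nil)))) .nil)) 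
(.lf (nat_lit 106725) (.g (nat_lit 2323) (.e (nat_lit 5045) (nat_lit 292) (.e (nat_lit 1201) (nat_lit 88) (.e (nat_lit 65610) (nat_lit 10) (.e (nat_lit 344160) (nat_lit 37) (.e (nat_lit 647195) (nat_lit 9) (.e (nat_lit 7936) (nat_lit 35) (.e (nat_lit 450569) (nat_lit 0) .nil))))))) (.g (nat_lit 4) .nil .nil))))) (.nd (nat_lit 5) (.nd (nat_lit 6) 
(.lf (nat_lit 106645) (.g (nat_lit 701) (.e (nat_lit 4964) (nat_lit 287) (.e (nat_lit 1348) (nat_lit 102) (.e (nat_lit 286761) (nat_lit 13) .nil))) .nil)) 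
(.lf (nat_lit 106709) (.g (nat_lit 675) (.e (nat_lit 5011) (nat_lit 289) (.e (nat_lit 123202) (nat_lit 270) (.e (nat_lit 7936) (nat_lit 115) (.e (nat_lit 393296) (nat_lit 26) (.e (nat_lit 475218) (nat_lit 44) .nil))))) .nil))) (.nd (nat_lit 6) 
(.lf (nat_lit 106677) (.g (nat_lit 2525) (.e (nat_lit 4990) (nat_lit 288) (.e (nat_lit 57884) (nat_lit 270) (.e (nat_lit 1656) (nat_lit 115) (.e (nat_lit 393291) (nat_lit 26) (.e (nat_lit 475219) (nat_lit 44) .nil))))) .nil)) 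
(.lf (nat_lit 106741) (.g (nat_lit 2284) (.e (nat_lit 5055) (nat_lit 292) (.e (nat_lit 1201) (nat_lit 88) (.e (nat_lit 65610) (nat_lit 10) (.e (nat_lit 344157) (nat_lit 36) (.e (nat_lit 638986) (nat_lit 5) (.e (nat_lit 3027) (nat_lit 187) (.e (nat_lit 458496) (nat_lit 0) .nil))))))) (.g (nat_lit 4) .nil .nil)))))) (.nd (nat_lit 4) (.nd (nat_lit 5) (.nd (nat_lit 6) 
(.lf (nat_lit 106637) (.g (nat_lit 3269) (.e (nat_lit 4963) (nat_lit 287) (.e (nat_lit 1348) (nat_lit 102) (.e (nat_lit 286761) (nat_lit 13) (.e (nat_lit 393291) (nat_lit 26) (.e (nat_lit 475216) (nat_lit 44) .nil))))) .nil)) 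
(.lf (nat_lit 106701) (.g (nat_lit 1614) (.e (nat_lit 5001) (nat_lit 288) (.e (nat_lit 57884) (nat_lit 270) (.e (nat_lit 1656) (nat_lit 115) (.e (nat_lit 393293) (nat_lit 26) .nil)))) .nil))) (.nd (nat_lit 6) 
(.lf (nat_lit 106669) (.g (nat_lit 3452) (.e (nat_lit 4979) (nat_lit 287) (.e (nat_lit 1079) (nat_lit 81) (.e (nat_lit 5394) (nat_lit 301) (.e (nat_lit 57464) (nat_lit 23) (.e (nat_lit 516151) (nat_lit 9) (.e (nat_lit 426285) (nat_lit 10) (.e (nat_lit 434227) (nat_lit 20) (.e (nat_lit 507929) (nat_lit 10) .nil)))))))) (.g (nat_lit 8) .nil .nil))) 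
(.lf (nat_lit 106733) (.g (nat_lit 1771) (.e (nat_lit 5055) (nat_lit 292) (.e (nat_lit 1201) (nat_lit 88) (.e (nat_lit 65610) (nat_lit 10) (.e (nat_lit 344156) (nat_lit 36) .nil)))) .nil)))) (.nd (nat_lit 5) (.nd (nat_lit 6) 
(.lf (nat_lit 106653) (.g (nat_lit 2668) (.e (nat_lit 4965) (nat_lit 287) (.e (nat_lit 1348) (nat_lit 102) (.e (nat_lit 286761) (nat_lit 13) (.e (nat_lit 393293) (nat_lit 26) (.e (nat_lit 475219) (nat_lit 44) .nil))))) .nil)) 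
(.lf (nat_lit 106717) (.g (nat_lit 1476) (.e (nat_lit 5022) (nat_lit 290) (.e (nat_lit 164358) (nat_lit 246) (.e (nat_lit 112) (nat_lit 3) (.e (nat_lit 98372) (nat_lit 29) (.e (nat_lit 458496) (nat_lit 26) (.e (nat_lit 745216) (nat_lit 0) .nil)))))) (.g (nat_lit 4) .nil .nil)))) (.nd (nat_lit 6) 
(.lf (nat_lit 106685) (.g (nat_lit 1496) (.e (nat_lit 4993) (nat_lit 288) (.e (nat_lit 57902) (nat_lit 277) (.e (nat_lit 131140) (nat_lit 27) (.e (nat_lit 426306) (nat_lit 12) (.e (nat_lit 475216) (nat_lit 44) (.e (nat_lit 745216) (nat_lit 0) .nil)))))) (.g (nat_lit 5) .nil .nil))) 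
(.lf (nat_lit 106749) (.g (nat_lit 1102) (.e (nat_lit 5055) (nat_lit 292) (.e (nat_lit 1224) (nat_lit 90) (.e (nat_lit 81946) (nat_lit 20) (.e (nat_lit 1962) (nat_lit 134) (.e (nat_lit 638985) (nat_lit 5) .nil))))) .nil))))))) (.nd (nat_lit 2) (.nd (nat_lit 3) (.nd (nat_lit 4) (.nd (nat_lit 5) (.nd (nat_lit 6) 
(.lf (nat_lit 106627) (.g (nat_lit 683) (.e (nat_lit 4963) (nat_lit 287) (.e (nat_lit 1348) (nat_lit 102) (.e (nat_lit 286743) (nat_lit 9) .nil))) .nil)) 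
(.lf (nat_lit 106691) (.g (nat_lit 2655) (.e (nat_lit 4995) (nat_lit 288) (.e (nat_lit 57884) (nat_lit 270) (.e (nat_lit 1656) (nat_lit 115) (.e (nat_lit 393291) (nat_lit 26) (.e (nat_lit 475219) (nat_lit 44) .nil))))) .nil))) (.nd (nat_lit 6) 
(.lf (nat_lit 106659) (.g (nat_lit 2229) (.e (nat_lit 4965) (nat_lit 287) (.e (nat_lit 1349) (nat_lit 102) (.e (nat_lit 286761) (nat_lit 13) (.e (nat_lit 393270) (nat_lit 23) (.e (nat_lit 433920) (nat_lit 15) .nil))))) .nil)) 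
(.lf (nat_lit 106723) (.g (nat_lit 1611) (.e (nat_lit 5045) (nat_lit 292) (.e (nat_lit 1201) (nat_lit 88) (.e (nat_lit 65610) (nat_lit 10) (.e (nat_lit 344157) (nat_lit 36) .nil)))) .nil)))) (.nd (nat_lit 5) (.nd (nat_lit 6) 
(.lf (nat_lit 106643) (.g (nat_lit 2942) (.e (nat_lit 4963) (nat_lit 287) (.e (nat_lit 1348) (nat_lit 102) (.e (nat_lit 286761) (nat_lit 13) (.e (nat_lit 393296) (nat_lit 26) (.e (nat_lit 475216) (nat_lit 44) .nil))))) .nil)) 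
(.lf (nat_lit 106707) (.g (nat_lit 509) (.e (nat_lit 5003) (nat_lit 288) (.e (nat_lit 57902) (nat_lit 277) (.e (nat_lit 131140) (nat_lit 27) (.e (nat_lit 426306) (nat_lit 12) .nil)))) .nil))) (.nd (nat_lit 6) 
(.lf (nat_lit 106675) (.g (nat_lit 538) (.e (nat_lit 4990) (nat_lit 288) (.e (nat_lit 57884) (nat_lit 270) (.e (nat_lit 1448) (nat_lit 108) .nil))) .nil)) 
(.lf (nat_lit 106739) (.g (nat_lit 2259) (.e (nat_lit 5055) (nat_lit 292) (.e (nat_lit 1201) (nat_lit 88) (.e (nat_lit 65610) (nat_lit 10) (.e (nat_lit 344157) (nat_lit 36) (.e (nat_lit 638986) (nat_lit 5) (.e (nat_lit 3015) (nat_lit 187) (.e (nat_lit 458496) (nat_lit 0) .nil))))))) (.g (nat_lit 4) .nil .nil)))))) (.nd (nat_lit 4) (.nd (nat_lit 5) (.nd (nat_lit 6) 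
(.lf (nat_lit 106635) (.g (nat_lit 2692) (.e (nat_lit 4963) (nat_lit 287) (.e (nat_lit 1348) (nat_lit 102) (.e (nat_lit 286761) (nat_lit 13) (.e (nat_lit 393270) (nat_lit 23) (.e (nat_lit 426360) (nat_lit 15) .nil))))) .nil)) 
(.lf (nat_lit 106699) (.g (nat_lit 1641) (.e (nat_lit 5000) (nat_lit 288) (.e (nat_lit 57884) (nat_lit 270) (.e (nat_lit 1656) (nat_lit 115) (.e (nat_lit 393291) (nat_lit 26) .nil)))) .nil))) (.nd (nat_lit 6) 
(.lf (nat_lit 106667) (.g (nat_lit 1978) (.e (nat_lit 4965) (nat_lit 287) (.e (nat_lit 1349) (nat_lit 102) (.e (nat_lit 286761) (nat_lit 13) (.e (nat_lit 393293) (nat_lit 26) (.e (nat_lit 475217) (nat_lit 44) .nil))))) .nil)) 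
(.lf (nat_lit 106731) (.g (nat_lit 892) (.e (nat_lit 5051) (nat_lit 292) (.e (nat_lit 1217) (nat_lit 90) (.e (nat_lit 81946) (nat_lit 20) (.e (nat_lit 1963) (nat_lit 134) (.e (nat_lit 638986) (nat_lit 5) .nil))))) .nil)))) (.nd (nat_lit 5) (.nd (nat_lit 6) 
(.lf (nat_lit 106651) (.g (nat_lit 3281) (.e (nat_lit 4965) (nat_lit 287) (.e (nat_lit 1348) (nat_lit 102) (.e (nat_lit 286761) (nat_lit 13) (.e (nat_lit 393291) (nat_lit 26) (.e (nat_lit 475219) (nat_lit 44) .nil))))) .nil)) 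
(.lf (nat_lit 106715) (.g (nat_lit 1256) (.e (nat_lit 5022) (nat_lit 290) (.e (nat_lit 164354) (nat_lit 246) (.e (nat_lit 112) (nat_lit 3) (.e (nat_lit 98373) (nat_lit 29) (.e (nat_lit 458496) (nat_lit 26) .nil))))) .nil))) (.nd (nat_lit 6) 
(.lf (nat_lit 106683) (.g (nat_lit 582) (.e (nat_lit 4993) (nat_lit 288) (.e (nat_lit 57884) (nat_lit 270) (.e (nat_lit 1250) (nat_lit 92) .nil))) .nil)) 
(.lf (nat_lit 106747) (.g (nat_lit 428) (.e (nat_lit 5055) (nat_lit 292) (.e (nat_lit 1222) (nat_lit 90) (.e (nat_lit 81943) (nat_lit 20) .nil))) .nil)))))) (.nd (nat_lit 3) (.nd (nat_lit 4) (.nd (nat_lit 5) (.nd (nat_lit 6) 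
(.lf (nat_lit 106631) (.g (nat_lit 617) (.e (nat_lit 4963) (nat_lit 287) (.e (nat_lit 1348) (nat_lit 102) (.e (nat_lit 286761) (nat_lit 13) .nil))) .nil)) 
(.lf (nat_lit 106695) (.g (nat_lit 1649) (.e (nat_lit 4995) (nat_lit 288) (.e (nat_lit 57902) (nat_lit 277) (.e (nat_lit 131140) (nat_lit 27) (.e (nat_lit 426306) (nat_lit 12) (.e (nat_lit 475219) (nat_lit 44) (.e (nat_lit 737286) (nat_lit 0) .nil)))))) (.g (nat_lit 0) .nil .nil)))) (.nd (nat_lit 6) 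
(.lf (nat_lit 106663) (.g (nat_lit 2800) (.e (nat_lit 4965) (nat_lit 287) (.e (nat_lit 1349) (nat_lit 102) (.e (nat_lit 286761) (nat_lit 13) (.e (nat_lit 393291) (nat_lit 26) (.e (nat_lit 475220) (nat_lit 44) .nil))))) .nil)) 
(.lf (nat_lit 106727) (.g (nat_lit 226) (.e (nat_lit 5045) (nat_lit 292) (.e (nat_lit 1207) (nat_lit 89) (.e (nat_lit 73791) (nat_lit 45) .nil))) .nil)))) (.nd (nat_lit 5) (.nd (nat_lit 6) 
(.lf (nat_lit 106647) (.g (nat_lit 2701) (.e (nat_lit 4964) (nat_lit 287) (.e (nat_lit 1348) (nat_lit 102) (.e (nat_lit 286761) (nat_lit 13) (.e (nat_lit 393293) (nat_lit 26) (.e (nat_lit 475219) (nat_lit 44) .nil))))) .nil)) 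
(.lf (nat_lit 106711) (.g (nat_lit 1589) (.e (nat_lit 5022) (nat_lit 290) (.e (nat_lit 164104) (nat_lit 116) (.e (nat_lit 778461) (nat_lit 11) (.e (nat_lit 24660) (nat_lit 13) (.e (nat_lit 393260) (nat_lit 21) (.e (nat_lit 417536) (nat_lit 10) .nil)))))) (.g (nat_lit 5) .nil .nil)))) (.nd (nat_lit 6) 
(.lf (nat_lit 106679) (.g (nat_lit 2031) (.e (nat_lit 4990) (nat_lit 288) (.e (nat_lit 57884) (nat_lit 270) (.e (nat_lit 1656) (nat_lit 115) (.e (nat_lit 393293) (nat_lit 26) (.e (nat_lit 475218) (nat_lit 44) .nil))))) .nil)) 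
(.lf (nat_lit 106743) (.g (nat_lit 2153) (.e (nat_lit 5055) (nat_lit 292) (.e (nat_lit 1201) (nat_lit 88) (.e (nat_lit 65610) (nat_lit 10) (.e (nat_lit 344160) (nat_lit 37) (.e (nat_lit 647195) (nat_lit 9) .nil))))) .nil))))) (.nd (nat_lit 4) (.nd (nat_lit 5) (.nd (nat_lit 6) 
(.lf (nat_lit 106639) (.g (nat_lit 1408) (.e (nat_lit 4963) (nat_lit 287) (.e (nat_lit 1348) (nat_lit 102) (.e (nat_lit 286761) (nat_lit 13) (.e (nat_lit 393293) (nat_lit 26) .nil)))) .nil)) 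
(.lf (nat_lit 106703) (.g (nat_lit 2665) (.e (nat_lit 5002) (nat_lit 288) (.e (nat_lit 57884) (nat_lit 270) (.e (nat_lit 1656) (nat_lit 115) (.e (nat_lit 393291) (nat_lit 26) (.e (nat_lit 475219) (nat_lit 44) .nil))))) .nil))) (.nd (nat_lit 6) 
(.lf (nat_lit 106671) (.g (nat_lit 1717) (.e (nat_lit 7936) (nat_lit 287) (.e (nat_lit 1348) (nat_lit 102) (.e (nat_lit 286761) (nat_lit 13) (.e (nat_lit 393293) (nat_lit 26) (.e (nat_lit 475218) (nat_lit 44) .nil))))) .nil)) 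
(.lf (nat_lit 106735) (.g (nat_lit 2246) (.e (nat_lit 5055) (nat_lit 292) (.e (nat_lit 1201) (nat_lit 88) (.e (nat_lit 65610) (nat_lit 10) (.e (nat_lit 344157) (nat_lit 36) (.e (nat_lit 638985) (nat_lit 5) (.e (nat_lit 3015) (nat_lit 187) (.e (nat_lit 458496) (nat_lit 0) .nil))))))) (.g (nat_lit 4) .nil .nil))))) (.nd (nat_lit 5) (.nd (nat_lit 6) 
(.lf (nat_lit 106655) (.g (nat_lit 345) (.e (nat_lit 4965) (nat_lit 287) (.e (nat_lit 1349) (nat_lit 102) (.e (nat_lit 286748) (nat_lit 9) .nil))) .nil)) 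
(.lf (nat_lit 106719) (.g (nat_lit 2306) (.e (nat_lit 5023) (nat_lit 290) (.e (nat_lit 164104) (nat_lit 116) (.e (nat_lit 778461) (nat_lit 11) (.e (nat_lit 24660) (nat_lit 13) (.e (nat_lit 393260) (nat_lit 21) (.e (nat_lit 409618) (nat_lit 10) .nil)))))) (.g (nat_lit 6) .nil .nil)))) (.nd (nat_lit 6) 
(.lf (nat_lit 106687) (.g (nat_lit 1454) (.e (nat_lit 4993) (nat_lit 288) (.e (nat_lit 57902) (nat_lit 277) (.e (nat_lit 131140) (nat_lit 27) (.e (nat_lit 426316) (nat_lit 12) (.e (nat_lit 475220) (nat_lit 44) (.e (nat_lit 745216) (nat_lit 0) .nil)))))) (.g (nat_lit 4) .nil .nil))) 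
(.lf (nat_lit 106751) (.g (nat_lit 978) (.e (nat_lit 5057) (nat_lit 292) (.e (nat_lit 1212) (nat_lit 89) (.e (nat_lit 73789) (nat_lit 45) (.e (nat_lit 1340) (nat_lit 101) .nil)))) .nil)))))))))

noncomputable def tv1451 : DT := (.nd (nat_lit 0) (.nd (nat_lit 1) (.nd (nat_lit 2) (.nd (nat_lit 3) (.nd (nat_lit 4) (.nd (nat_lit 5) (.nd (nat_lit 6) 
(.lf (nat_lit 106752) (.g (nat_lit 1691) (.e (nat_lit 5057) (nat_lit 292) (.e (nat_lit 1212) (nat_lit 89) (.e (nat_lit 73789) (nat_lit 45) (.e (nat_lit 1340) (nat_lit 101) (.e (nat_lit 278529) (nat_lit 0) (.e (nat_lit 5779) (nat_lit 317) (.e (nat_lit 188160) (nat_lit 0) .nil))))))) (.g (nat_lit 6) .nil .nil))) 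
(.lf (nat_lit 106816) (.g (nat_lit 1600) (.e (nat_lit 5072) (nat_lit 292) (.e (nat_lit 1201) (nat_lit 88) (.e (nat_lit 65617) (nat_lit 10) (.e (nat_lit 344156) (nat_lit 36) .nil)))) .nil))) (.nd (nat_lit 6) 
(.lf (nat_lit 106784) (.g (nat_lit 978) (.e (nat_lit 5060) (nat_lit 292) (.e (nat_lit 1212) (nat_lit 89) (.e (nat_lit 73789) (nat_lit 45) (.e (nat_lit 1340) (nat_lit 101) .nil)))) .nil)) 
(.lf (nat_lit 106848) (.g (nat_lit 1609) (.e (nat_lit 5077) (nat_lit 292) (.e (nat_lit 1201) (nat_lit 88) (.e (nat_lit 65610) (nat_lit 10) (.e (nat_lit 344157) (nat_lit 36) .nil)))) .nil)))) (.nd (nat_lit 5) (.nd (nat_lit 6) 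
(.lf (nat_lit 106768) (.g (nat_lit 1831) (.e (nat_lit 5057) (nat_lit 292) (.e (nat_lit 1222) (nat_lit 90) (.e (nat_lit 81943) (nat_lit 20) (.e (nat_lit 1963) (nat_lit 134) (.e (nat_lit 638986) (nat_lit 5) (.e (nat_lit 3015) (nat_lit 187) (.e (nat_lit 458496) (nat_lit 0) .nil))))))) (.g (nat_lit 6) .nil .nil))) 
(.lf (nat_lit 106832) (.g (nat_lit 1611) (.e (nat_lit 5073) (nat_lit 292) (.e (nat_lit 1201) (nat_lit 88) (.e (nat_lit 65610) (nat_lit 10) (.e (nat_lit 344157) (nat_lit 36) .nil)))) .nil))) (.nd (nat_lit 6) 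
(.lf (nat_lit 106800) (.g (nat_lit 1783) (.e (nat_lit 5071) (nat_lit 292) (.e (nat_lit 1201) (nat_lit 88) (.e (nat_lit 65610) (nat_lit 10) (.e (nat_lit 344157) (nat_lit 36) (.e (nat_lit 638985) (nat_lit 5) .nil))))) .nil)) 
(.lf (nat_lit 106864) (.g (nat_lit 1986) (.e (nat_lit 5112) (nat_lit 292) (.e (nat_lit 1220) (nat_lit 90) (.e (nat_lit 81938) (nat_lit 20) (.e (nat_lit 1962) (nat_lit 134) (.e (nat_lit 638985) (nat_lit 5) (.e (nat_lit 3027) (nat_lit 187) (.e (nat_lit 458496) (nat_lit 0) .nil))))))) (.g (nat_lit 6) .nil .nil)))))) (.nd (nat_lit 4) (.nd (nat_lit 5) (.nd (nat_lit 6) 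
(.lf (nat_lit 106760) (.g (nat_lit 1240) (.e (nat_lit 5057) (nat_lit 292) (.e (nat_lit 1214) (nat_lit 89) (.e (nat_lit 73792) (nat_lit 45) (.e (nat_lit 1342) (nat_lit 101) .nil)))) .nil)) 
(.lf (nat_lit 106824) (.g (nat_lit 420) (.e (nat_lit 5072) (nat_lit 292) (.e (nat_lit 1212) (nat_lit 89) (.e (nat_lit 73789) (nat_lit 45) .nil))) .nil))) (.nd (nat_lit 6) 
(.lf (nat_lit 106792) (.g (nat_lit 542) (.e (nat_lit 5062) (nat_lit 292) (.e (nat_lit 1201) (nat_lit 88) (.e (nat_lit 65610) (nat_lit 10) .nil))) .nil)) 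
(.lf (nat_lit 106856) (.g (nat_lit 1104) (.e (nat_lit 5079) (nat_lit 292) (.e (nat_lit 1187) (nat_lit 88) (.e (nat_lit 65619) (nat_lit 10) (.e (nat_lit 344157) (nat_lit 36) (.e (nat_lit 638985) (nat_lit 5) .nil))))) .nil)))) (.nd (nat_lit 5) (.nd (nat_lit 6) 
(.lf (nat_lit 106776) (.g (nat_lit 1915) (.e (nat_lit 5057) (nat_lit 292) (.e (nat_lit 1224) (nat_lit 90) (.e (nat_lit 81946) (nat_lit 20) (.e (nat_lit 1963) (nat_lit 134) (.e (nat_lit 638986) (nat_lit 5) (.e (nat_lit 3015) (nat_lit 187) (.e (nat_lit 458496) (nat_lit 0) .nil))))))) (.g (nat_lit 6) .nil .nil))) 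
(.lf (nat_lit 106840) (.g (nat_lit 1294) (.e (nat_lit 5074) (nat_lit 292) (.e (nat_lit 1201) (nat_lit 88) (.e (nat_lit 65617) (nat_lit 10) (.e (nat_lit 344157) (nat_lit 36) .nil)))) .nil))) (.nd (nat_lit 6) 
(.lf (nat_lit 106808) (.g (nat_lit 2343) (.e (nat_lit 5072) (nat_lit 292) (.e (nat_lit 1183) (nat_lit 87) (.e (nat_lit 57479) (nat_lit 28) (.e (nat_lit 557105) (nat_lit 14) (.e (nat_lit 180252) (nat_lit 10) .nil))))) .nil)) 
(.lf (nat_lit 106872) (.g (nat_lit 2337) (.e (nat_lit 5115) (nat_lit 292) (.e (nat_lit 1181) (nat_lit 87) (.e (nat_lit 57479) (nat_lit 28) (.e (nat_lit 557105) (nat_lit 14) (.e (nat_lit 180252) (nat_lit 10) .nil))))) .nil)))))) (.nd (nat_lit 3) (.nd (nat_lit 4) (.nd (nat_lit 5) (.nd (nat_lit 6) 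
(.lf (nat_lit 106756) (.g (nat_lit 1309) (.e (nat_lit 5057) (nat_lit 292) (.e (nat_lit 1212) (nat_lit 89) (.e (nat_lit 73789) (nat_lit 45) (.e (nat_lit 1343) (nat_lit 101) (.e (nat_lit 278532) (nat_lit 0) (.e (nat_lit 5779) (nat_lit 317) (.e (nat_lit 188160) (nat_lit 0) .nil))))))) (.g (nat_lit 6) .nil .nil))) 
(.lf (nat_lit 106820) (.g (nat_lit 1462) (.e (nat_lit 5072) (nat_lit 292) (.e (nat_lit 1201) (nat_lit 88) (.e (nat_lit 65617) (nat_lit 10) (.e (nat_lit 344164) (nat_lit 37) (.e (nat_lit 647190) (nat_lit 9) .nil))))) .nil))) (.nd (nat_lit 6) 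
(.lf (nat_lit 106788) (.g (nat_lit 986) (.e (nat_lit 5060) (nat_lit 292) (.e (nat_lit 1222) (nat_lit 90) (.e (nat_lit 81943) (nat_lit 20) (.e (nat_lit 1963) (nat_lit 134) .nil)))) .nil)) 
(.lf (nat_lit 106852) (.g (nat_lit 1313) (.e (nat_lit 5077) (nat_lit 292) (.e (nat_lit 1201) (nat_lit 88) (.e (nat_lit 65617) (nat_lit 10) (.e (nat_lit 344157) (nat_lit 36) .nil)))) .nil)))) (.nd (nat_lit 5) (.nd (nat_lit 6) 
(.lf (nat_lit 106772) (.g (nat_lit 419) (.e (nat_lit 5057) (nat_lit 292) (.e (nat_lit 1223) (nat_lit 90) (.e (nat_lit 81939) (nat_lit 20) (.e (nat_lit 1963) (nat_lit 134) .nil)))) .nil)) 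
(.lf (nat_lit 106836) (.g (nat_lit 1918) (.e (nat_lit 5074) (nat_lit 292) (.e (nat_lit 1201) (nat_lit 88) (.e (nat_lit 65610) (nat_lit 10) (.e (nat_lit 344157) (nat_lit 36) (.e (nat_lit 638985) (nat_lit 5) (.e (nat_lit 3015) (nat_lit 187) (.e (nat_lit 458496) (nat_lit 0) .nil))))))) (.g (nat_lit 4) .nil .nil)))) (.nd (nat_lit 6) 
(.lf (nat_lit 106804) (.g (nat_lit 1910) (.e (nat_lit 5071) (nat_lit 292) (.e (nat_lit 1201) (nat_lit 88) (.e (nat_lit 65610) (nat_lit 10) (.e (nat_lit 344157) (nat_lit 36) (.e (nat_lit 638986) (nat_lit 5) (.e (nat_lit 3015) (nat_lit 187) (.e (nat_lit 458496) (nat_lit 0) .nil))))))) (.g (nat_lit 4) .nil .nil))) 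
(.lf (nat_lit 106868) (.g (nat_lit 2153) (.e (nat_lit 5112) (nat_lit 292) (.e (nat_lit 1220) (nat_lit 90) (.e (nat_lit 81938) (nat_lit 20) (.e (nat_lit 1963) (nat_lit 134) (.e (nat_lit 638986) (nat_lit 5) (.e (nat_lit 3022) (nat_lit 187) (.e (nat_lit 458496) (nat_lit 0) .nil))))))) (.g (nat_lit 6) .nil .nil)))))) (.nd (nat_lit 4) (.nd (nat_lit 5) (.nd (nat_lit 6) 
(.lf (nat_lit 106764) (.g (nat_lit 988) (.e (nat_lit 5057) (nat_lit 292) (.e (nat_lit 1222) (nat_lit 90) (.e (nat_lit 81943) (nat_lit 20) (.e (nat_lit 1962) (nat_lit 134) .nil)))) .nil)) 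
(.lf (nat_lit 106828) (.g (nat_lit 1729) (.e (nat_lit 5072) (nat_lit 292) (.e (nat_lit 1296) (nat_lit 96) (.e (nat_lit 131096) (nat_lit 3) (.e (nat_lit 98372) (nat_lit 29) (.e (nat_lit 458496) (nat_lit 3) .nil))))) .nil))) (.nd (nat_lit 6) 
(.lf (nat_lit 106796) (.g (nat_lit 1771) (.e (nat_lit 5063) (nat_lit 292) (.e (nat_lit 1201) (nat_lit 88) (.e (nat_lit 65610) (nat_lit 10) (.e (nat_lit 344156) (nat_lit 36) .nil)))) .nil)) 
(.lf (nat_lit 106860) (.g (nat_lit 2349) (.e (nat_lit 5108) (nat_lit 292) (.e (nat_lit 1181) (nat_lit 87) (.e (nat_lit 57479) (nat_lit 28) (.e (nat_lit 557105) (nat_lit 14) (.e (nat_lit 180252) (nat_lit 10) .nil))))) .nil)))) (.nd (nat_lit 5) (.nd (nat_lit 6) 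
(.lf (nat_lit 106780) (.g (nat_lit 1630) (.e (nat_lit 5059) (nat_lit 292) (.e (nat_lit 1201) (nat_lit 88) (.e (nat_lit 65610) (nat_lit 10) (.e (nat_lit 344157) (nat_lit 36) .nil)))) .nil)) 
(.lf (nat_lit 106844) (.g (nat_lit 594) (.e (nat_lit 5076) (nat_lit 292) (.e (nat_lit 1212) (nat_lit 89) (.e (nat_lit 73789) (nat_lit 45) .nil))) .nil))) (.nd (nat_lit 6) 
(.lf (nat_lit 106812) (.g (nat_lit 2145) (.e (nat_lit 5072) (nat_lit 292) (.e (nat_lit 1201) (nat_lit 88) (.e (nat_lit 65610) (nat_lit 10) (.e (nat_lit 344156) (nat_lit 36) (.e (nat_lit 638985) (nat_lit 5) .nil))))) .nil)) 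
(.lf (nat_lit 106876) (.g (nat_lit 305) (.e (nat_lit 5116) (nat_lit 292) (.e (nat_lit 1199) (nat_lit 88) (.e (nat_lit 65610) (nat_lit 10) .nil))) .nil))))))) (.nd (nat_lit 2) (.nd (nat_lit 3) (.nd (nat_lit 4) (.nd (nat_lit 5) (.nd (nat_lit 6) 
(.lf (nat_lit 106754) (.g (nat_lit 1370) (.e (nat_lit 5057) (nat_lit 292) (.e (nat_lit 1212) (nat_lit 89) (.e (nat_lit 73789) (nat_lit 45) (.e (nat_lit 1342) (nat_lit 101) (.e (nat_lit 278531) (nat_lit 0) (.e (nat_lit 5779) (nat_lit 317) (.e (nat_lit 188160) (nat_lit 0) .nil))))))) (.g (nat_lit 6) .nil .nil))) 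
(.lf (nat_lit 106818) (.g (nat_lit 1371) (.e (nat_lit 5072) (nat_lit 292) (.e (nat_lit 1201) (nat_lit 88) (.e (nat_lit 65617) (nat_lit 10) (.e (nat_lit 344161) (nat_lit 37) (.e (nat_lit 647190) (nat_lit 9) .nil))))) .nil))) (.nd (nat_lit 6) 
(.lf (nat_lit 106786) (.g (nat_lit 973) (.e (nat_lit 5060) (nat_lit 292) (.e (nat_lit 1212) (nat_lit 89) (.e (nat_lit 73789) (nat_lit 45) (.e (nat_lit 1343) (nat_lit 101) .nil)))) .nil)) 
(.lf (nat_lit 106850) (.g (nat_lit 2164) (.e (nat_lit 5077) (nat_lit 292) (.e (nat_lit 1201) (nat_lit 88) (.e (nat_lit 65610) (nat_lit 10) (.e (nat_lit 344160) (nat_lit 37) (.e (nat_lit 647195) (nat_lit 9) .nil))))) .nil)))) (.nd (nat_lit 5) (.nd (nat_lit 6) 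
(.lf (nat_lit 106770) (.g (nat_lit 880) (.e (nat_lit 5057) (nat_lit 292) (.e (nat_lit 1223) (nat_lit 90) (.e (nat_lit 81938) (nat_lit 20) (.e (nat_lit 1963) (nat_lit 134) .nil)))) .nil)) 
(.lf (nat_lit 106834) (.g (nat_lit 1771) (.e (nat_lit 5074) (nat_lit 292) (.e (nat_lit 1201) (nat_lit 88) (.e (nat_lit 65610) (nat_lit 10) (.e (nat_lit 344156) (nat_lit 36) .nil)))) .nil))) (.nd (nat_lit 6) 
(.lf (nat_lit 106802) (.g (nat_lit 1954) (.e (nat_lit 5071) (nat_lit 292) (.e (nat_lit 1201) (nat_lit 88) (.e (nat_lit 65610) (nat_lit 10) (.e (nat_lit 344157) (nat_lit 36) (.e (nat_lit 638985) (nat_lit 5) (.e (nat_lit 3027) (nat_lit 187) (.e (nat_lit 458496) (nat_lit 0) .nil))))))) (.g (nat_lit 4) .nil .nil))) 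
(.lf (nat_lit 106866) (.g (nat_lit 1379) (.e (nat_lit 5112) (nat_lit 292) (.e (nat_lit 1220) (nat_lit 90) (.e (nat_lit 81938) (nat_lit 20) (.e (nat_lit 1963) (nat_lit 134) .nil)))) .nil))))) (.nd (nat_lit 4) (.nd (nat_lit 5) (.nd (nat_lit 6) 
(.lf (nat_lit 106762) (.g (nat_lit 835) (.e (nat_lit 5057) (nat_lit 292) (.e (nat_lit 1218) (nat_lit 90) (.e (nat_lit 81938) (nat_lit 20) (.e (nat_lit 1962) (nat_lit 134) (.e (nat_lit 638985) (nat_lit 5) .nil))))) .nil)) 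
(.lf (nat_lit 106826) (.g (nat_lit 1694) (.e (nat_lit 5072) (nat_lit 292) (.e (nat_lit 1296) (nat_lit 96) (.e (nat_lit 131091) (nat_lit 2) (.e (nat_lit 90185) (nat_lit 17) (.e (nat_lit 237605) (nat_lit 9) .nil))))) .nil))) (.nd (nat_lit 6) 
(.lf (nat_lit 106794) (.g (nat_lit 2154) (.e (nat_lit 5062) (nat_lit 292) (.e (nat_lit 1201) (nat_lit 88) (.e (nat_lit 65610) (nat_lit 10) (.e (nat_lit 344160) (nat_lit 37) (.e (nat_lit 647195) (nat_lit 9) .nil))))) .nil)) 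
(.lf (nat_lit 106858) (.g (nat_lit 578) (.e (nat_lit 5095) (nat_lit 292) (.e (nat_lit 1194) (nat_lit 88) (.e (nat_lit 65586) (nat_lit 7) (.e (nat_lit 319531) (nat_lit 16) .nil)))) .nil)))) (.nd (nat_lit 5) (.nd (nat_lit 6) 
(.lf (nat_lit 106778) (.g (nat_lit 1036) (.e (nat_lit 5057) (nat_lit 292) (.e (nat_lit 1224) (nat_lit 90) (.e (nat_lit 81947) (nat_lit 20) (.e (nat_lit 1963) (nat_lit 134) .nil)))) .nil)) 
(.lf (nat_lit 106842) (.g (nat_lit 421) (.e (nat_lit 5074) (nat_lit 292) (.e (nat_lit 1222) (nat_lit 90) (.e (nat_lit 81943) (nat_lit 20) .nil))) .nil))) (.nd (nat_lit 6) 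
(.lf (nat_lit 106810) (.g (nat_lit 705) (.e (nat_lit 5072) (nat_lit 292) (.e (nat_lit 1201) (nat_lit 88) (.e (nat_lit 65586) (nat_lit 7) .nil))) .nil)) 
(.lf (nat_lit 106874) (.g (nat_lit 1530) (.e (nat_lit 5116) (nat_lit 292) (.e (nat_lit 1182) (nat_lit 87) (.e (nat_lit 57479) (nat_lit 28) (.e (nat_lit 557107) (nat_lit 15) .nil)))) .nil)))))) (.nd (nat_lit 3) (.nd (nat_lit 4) (.nd (nat_lit 5) (.nd (nat_lit 6) 
(.lf (nat_lit 106758) (.g (nat_lit 1853) (.e (nat_lit 5057) (nat_lit 292) (.e (nat_lit 1214) (nat_lit 89) (.e (nat_lit 73746) (nat_lit 3) (.e (nat_lit 516150) (nat_lit 9) (.e (nat_lit 426294) (nat_lit 11) .nil))))) .nil)) 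
(.lf (nat_lit 106822) (.g (nat_lit 2376) (.e (nat_lit 5072) (nat_lit 292) (.e (nat_lit 1212) (nat_lit 89) (.e (nat_lit 73747) (nat_lit 3) (.e (nat_lit 516146) (nat_lit 9) (.e (nat_lit 426294) (nat_lit 11) .nil))))) .nil))) (.nd (nat_lit 6) 
(.lf (nat_lit 106790) (.g (nat_lit 937) (.e (nat_lit 5060) (nat_lit 292) (.e (nat_lit 1224) (nat_lit 90) (.e (nat_lit 81946) (nat_lit 20) (.e (nat_lit 1963) (nat_lit 134) .nil)))) .nil)) 
(.lf (nat_lit 106854) (.g (nat_lit 1152) (.e (nat_lit 5077) (nat_lit 292) (.e (nat_lit 1222) (nat_lit 90) (.e (nat_lit 81943) (nat_lit 20) (.e (nat_lit 1962) (nat_lit 134) (.e (nat_lit 638999) (nat_lit 8) .nil))))) .nil)))) (.nd (nat_lit 5) (.nd (nat_lit 6) 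
(.lf (nat_lit 106774) (.g (nat_lit 1869) (.e (nat_lit 5057) (nat_lit 292) (.e (nat_lit 1224) (nat_lit 90) (.e (nat_lit 81946) (nat_lit 20) (.e (nat_lit 1962) (nat_lit 134) (.e (nat_lit 638985) (nat_lit 5) (.e (nat_lit 3015) (nat_lit 187) (.e (nat_lit 458496) (nat_lit 0) .nil))))))) (.g (nat_lit 6) .nil .nil))) 
(.lf (nat_lit 106838) (.g (nat_lit 1931) (.e (nat_lit 5074) (nat_lit 292) (.e (nat_lit 1201) (nat_lit 88) (.e (nat_lit 65610) (nat_lit 10) (.e (nat_lit 344157) (nat_lit 36) (.e (nat_lit 638986) (nat_lit 5) (.e (nat_lit 3015) (nat_lit 187) (.e (nat_lit 458496) (nat_lit 0) .nil))))))) (.g (nat_lit 4) .nil .nil)))) (.nd (nat_lit 6) 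
(.lf (nat_lit 106806) (.g (nat_lit 2150) (.e (nat_lit 5071) (nat_lit 292) (.e (nat_lit 1201) (nat_lit 88) (.e (nat_lit 65610) (nat_lit 10) (.e (nat_lit 344160) (nat_lit 37) (.e (nat_lit 647195) (nat_lit 9) .nil))))) .nil)) 
(.lf (nat_lit 106870) (.g (nat_lit 2363) (.e (nat_lit 5113) (nat_lit 292) (.e (nat_lit 1181) (nat_lit 87) (.e (nat_lit 57479) (nat_lit 28) (.e (nat_lit 557105) (nat_lit 14) (.e (nat_lit 180252) (nat_lit 10) .nil))))) .nil))))) (.nd (nat_lit 4) (.nd (nat_lit 5) (.nd (nat_lit 6) 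
(.lf (nat_lit 106766) (.g (nat_lit 1782) (.e (nat_lit 5057) (nat_lit 292) (.e (nat_lit 1222) (nat_lit 90) (.e (nat_lit 81943) (nat_lit 20) (.e (nat_lit 1962) (nat_lit 134) (.e (nat_lit 638985) (nat_lit 5) (.e (nat_lit 3022) (nat_lit 187) (.e (nat_lit 458496) (nat_lit 0) .nil))))))) (.g (nat_lit 6) .nil .nil))) 
(.lf (nat_lit 106830) (.g (nat_lit 777) (.e (nat_lit 5072) (nat_lit 292) (.e (nat_lit 1296) (nat_lit 96) (.e (nat_lit 131097) (nat_lit 3) (.e (nat_lit 98372) (nat_lit 29) .nil)))) .nil))) (.nd (nat_lit 6) 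
(.lf (nat_lit 106798) (.g (nat_lit 2339) (.e (nat_lit 5071) (nat_lit 292) (.e (nat_lit 1183) (nat_lit 87) (.e (nat_lit 57479) (nat_lit 28) (.e (nat_lit 557105) (nat_lit 14) (.e (nat_lit 180252) (nat_lit 10) .nil))))) .nil)) 
(.lf (nat_lit 106862) (.g (nat_lit 654) (.e (nat_lit 5112) (nat_lit 292) (.e (nat_lit 1209) (nat_lit 89) (.e (nat_lit 73789) (nat_lit 45) .nil))) .nil)))) (.nd (nat_lit 5) (.nd (nat_lit 6) 
(.lf (nat_lit 106782) (.g (nat_lit 2154) (.e (nat_lit 5060) (nat_lit 292) (.e (nat_lit 1201) (nat_lit 88) (.e (nat_lit 65610) (nat_lit 10) (.e (nat_lit 344160) (nat_lit 37) (.e (nat_lit 647195) (nat_lit 9) .nil))))) .nil)) 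
(.lf (nat_lit 106846) (.g (nat_lit 425) (.e (nat_lit 5076) (nat_lit 292) (.e (nat_lit 1222) (nat_lit 90) (.e (nat_lit 81943) (nat_lit 20) .nil))) .nil))) (.nd (nat_lit 6) 
(.lf (nat_lit 106814) (.g (nat_lit 3088) (.e (nat_lit 5072) (nat_lit 292) (.e (nat_lit 1201) (nat_lit 88) (.e (nat_lit 65610) (nat_lit 10) (.e (nat_lit 344160) (nat_lit 37) (.e (nat_lit 647195) (nat_lit 9) (.e (nat_lit 7936) (nat_lit 35) (.e (nat_lit 450568) (nat_lit 0) .nil))))))) (.g (nat_lit 5) .nil .nil))) 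
(.lf (nat_lit 106878) (.g (nat_lit 1389) (.e (nat_lit 5116) (nat_lit 292) (.e (nat_lit 1221) (nat_lit 90) (.e (nat_lit 81938) (nat_lit 20) (.e (nat_lit 1962) (nat_lit 134) .nil)))) .nil)))))))) (.nd (nat_lit 1) (.nd (nat_lit 2) (.nd (nat_lit 3) (.nd (nat_lit 4) (.nd (nat_lit 5) (.nd (nat_lit 6) 
(.lf (nat_lit 106753) (.g (nat_lit 981) (.e (nat_lit 5057) (nat_lit 292) (.e (nat_lit 1212) (nat_lit 89) (.e (nat_lit 73789) (nat_lit 45) (.e (nat_lit 1342) (nat_lit 101) .nil)))) .nil)) 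
(.lf (nat_lit 106817) (.g (nat_lit 1342) (.e (nat_lit 5072) (nat_lit 292) (.e (nat_lit 1201) (nat_lit 88) (.e (nat_lit 65617) (nat_lit 10) (.e (nat_lit 344157) (nat_lit 36) .nil)))) .nil))) (.nd (nat_lit 6) 
(.lf (nat_lit 106785) (.g (nat_lit 980) (.e (nat_lit 5060) (nat_lit 292) (.e (nat_lit 1212) (nat_lit 89) (.e (nat_lit 73789) (nat_lit 45) (.e (nat_lit 1342) (nat_lit 101) .nil)))) .nil)) 
(.lf (nat_lit 106849) (.g (nat_lit 2782) (.e (nat_lit 5077) (nat_lit 292) (.e (nat_lit 1201) (nat_lit 88) (.e (nat_lit 65610) (nat_lit 10) (.e (nat_lit 344157) (nat_lit 36) (.e (nat_lit 638986) (nat_lit 5) (.e (nat_lit 3015) (nat_lit 187) (.e (nat_lit 450560) (nat_lit 0) .nil))))))) (.g (nat_lit 7) .nil .nil))))) (.nd (nat_lit 5) (.nd (nat_lit 6) 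
(.lf (nat_lit 106769) (.g (nat_lit 867) (.e (nat_lit 5057) (nat_lit 292) (.e (nat_lit 1223) (nat_lit 90) (.e (nat_lit 81938) (nat_lit 20) (.e (nat_lit 1962) (nat_lit 134) .nil)))) .nil)) 
(.lf (nat_lit 106833) (.g (nat_lit 1294) (.e (nat_lit 5073) (nat_lit 292) (.e (nat_lit 1201) (nat_lit 88) (.e (nat_lit 65617) (nat_lit 10) (.e (nat_lit 344157) (nat_lit 36) .nil)))) .nil))) (.nd (nat_lit 6) 
(.lf (nat_lit 106801) (.g (nat_lit 1897) (.e (nat_lit 5071) (nat_lit 292) (.e (nat_lit 1201) (nat_lit 88) (.e (nat_lit 65610) (nat_lit 10) (.e (nat_lit 344157) (nat_lit 36) (.e (nat_lit 638985) (nat_lit 5) (.e (nat_lit 3015) (nat_lit 187) (.e (nat_lit 458496) (nat_lit 0) .nil))))))) (.g (nat_lit 4) .nil .nil))) 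
(.lf (nat_lit 106865) (.g (nat_lit 1588) (.e (nat_lit 5112) (nat_lit 292) (.e (nat_lit 1220) (nat_lit 90) (.e (nat_lit 81938) (nat_lit 20) (.e (nat_lit 1962) (nat_lit 134) (.e (nat_lit 639001) (nat_lit 10) .nil))))) .nil))))) (.nd (nat_lit 4) (.nd (nat_lit 5) (.nd (nat_lit 6) 
(.lf (nat_lit 106761) (.g (nat_lit 1241) (.e (nat_lit 5057) (nat_lit 292) (.e (nat_lit 1214) (nat_lit 89) (.e (nat_lit 73792) (nat_lit 45) (.e (nat_lit 1343) (nat_lit 101) .nil)))) .nil)) 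
(.lf (nat_lit 106825) (.g (nat_lit 2834) (.e (nat_lit 5072) (nat_lit 292) (.e (nat_lit 1214) (nat_lit 89) (.e (nat_lit 73746) (nat_lit 3) (.e (nat_lit 516146) (nat_lit 9) (.e (nat_lit 426294) (nat_lit 11) (.e (nat_lit 466688) (nat_lit 21) (.e (nat_lit 516106) (nat_lit 0) (.e (nat_lit 2515) (nat_lit 157) .nil)))))))) (.g (nat_lit 5) .nil .nil)))) (.nd (nat_lit 6) 
(.lf (nat_lit 106793) (.g (nat_lit 1773) (.e (nat_lit 5062) (nat_lit 292) (.e (nat_lit 1201) (nat_lit 88) (.e (nat_lit 65610) (nat_lit 10) (.e (nat_lit 344156) (nat_lit 36) .nil)))) .nil)) 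
(.lf (nat_lit 106857) (.g (nat_lit 1017) (.e (nat_lit 5079) (nat_lit 292) (.e (nat_lit 1187) (nat_lit 88) (.e (nat_lit 65619) (nat_lit 10) (.e (nat_lit 344157) (nat_lit 36) (.e (nat_lit 638986) (nat_lit 5) .nil))))) .nil)))) (.nd (nat_lit 5) (.nd (nat_lit 6) 
(.lf (nat_lit 106777) (.g (nat_lit 1027) (.e (nat_lit 5057) (nat_lit 292) (.e (nat_lit 1224) (nat_lit 90) (.e (nat_lit 81947) (nat_lit 20) (.e (nat_lit 1962) (nat_lit 134) .nil)))) .nil)) 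
(.lf (nat_lit 106841) (.g (nat_lit 594) (.e (nat_lit 5074) (nat_lit 292) (.e (nat_lit 1212) (nat_lit 89) (.e (nat_lit 73789) (nat_lit 45) .nil))) .nil))) (.nd (nat_lit 6) 
(.lf (nat_lit 106809) (.g (nat_lit 509) (.e (nat_lit 5072) (nat_lit 292) (.e (nat_lit 1201) (nat_lit 88) (.e (nat_lit 65583) (nat_lit 7) .nil))) .nil)) 
(.lf (nat_lit 106873) (.g (nat_lit 2914) (.e (nat_lit 5116) (nat_lit 292) (.e (nat_lit 1181) (nat_lit 87) (.e (nat_lit 57479) (nat_lit 28) (.e (nat_lit 557109) (nat_lit 15) (.e (nat_lit 196352) (nat_lit 18) .nil))))) .nil)))))) (.nd (nat_lit 3) (.nd (nat_lit 4) (.nd (nat_lit 5) (.nd (nat_lit 6) 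
(.lf (nat_lit 106757) (.g (nat_lit 2138) (.e (nat_lit 5057) (nat_lit 292) (.e (nat_lit 1214) (nat_lit 89) (.e (nat_lit 73746) (nat_lit 3) (.e (nat_lit 516146) (nat_lit 9) (.e (nat_lit 426294) (nat_lit 11) .nil))))) .nil)) 
(.lf (nat_lit 106821) (.g (nat_lit 1933) (.e (nat_lit 5072) (nat_lit 292) (.e (nat_lit 1201) (nat_lit 88) (.e (nat_lit 65617) (nat_lit 10) (.e (nat_lit 344164) (nat_lit 37) (.e (nat_lit 647195) (nat_lit 9) (.e (nat_lit 7936) (nat_lit 35) (.e (nat_lit 450569) (nat_lit 0) .nil))))))) (.g (nat_lit 4) .nil .nil)))) (.nd (nat_lit 6) 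
(.lf (nat_lit 106789) (.g (nat_lit 962) (.e (nat_lit 5060) (nat_lit 292) (.e (nat_lit 1224) (nat_lit 90) (.e (nat_lit 81946) (nat_lit 20) (.e (nat_lit 1962) (nat_lit 134) .nil)))) .nil)) 
(.lf (nat_lit 106853) (.g (nat_lit 594) (.e (nat_lit 5077) (nat_lit 292) (.e (nat_lit 1212) (nat_lit 89) (.e (nat_lit 73789) (nat_lit 45) .nil))) .nil)))) (.nd (nat_lit 5) (.nd (nat_lit 6) 
(.lf (nat_lit 106773) (.g (nat_lit 975) (.e (nat_lit 5057) (nat_lit 292) (.e (nat_lit 1224) (nat_lit 90) (.e (nat_lit 81946) (nat_lit 20) (.e (nat_lit 1962) (nat_lit 134) .nil)))) .nil)) 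
(.lf (nat_lit 106837) (.g (nat_lit 1975) (.e (nat_lit 5074) (nat_lit 292) (.e (nat_lit 1201) (nat_lit 88) (.e (nat_lit 65610) (nat_lit 10) (.e (nat_lit 344157) (nat_lit 36) (.e (nat_lit 638985) (nat_lit 5) (.e (nat_lit 3027) (nat_lit 187) (.e (nat_lit 458496) (nat_lit 0) .nil))))))) (.g (nat_lit 4) .nil .nil)))) (.nd (nat_lit 6) 
(.lf (nat_lit 106805) (.g (nat_lit 1935) (.e (nat_lit 5071) (nat_lit 292) (.e (nat_lit 1201) (nat_lit 88) (.e (nat_lit 65610) (nat_lit 10) (.e (nat_lit 344157) (nat_lit 36) (.e (nat_lit 638986) (nat_lit 5) (.e (nat_lit 3027) (nat_lit 187) (.e (nat_lit 458496) (nat_lit 0) .nil))))))) (.g (nat_lit 4) .nil .nil))) 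
(.lf (nat_lit 106869) (.g (nat_lit 1923) (.e (nat_lit 5112) (nat_lit 292) (.e (nat_lit 1220) (nat_lit 90) (.e (nat_lit 81938) (nat_lit 20) (.e (nat_lit 1963) (nat_lit 134) (.e (nat_lit 638986) (nat_lit 5) (.e (nat_lit 3027) (nat_lit 187) (.e (nat_lit 458496) (nat_lit 0) .nil))))))) (.g (nat_lit 6) .nil .nil)))))) (.nd (nat_lit 4) (.nd (nat_lit 5) (.nd (nat_lit 6) 
(.lf (nat_lit 106765) (.g (nat_lit 1853) (.e (nat_lit 5057) (nat_lit 292) (.e (nat_lit 1222) (nat_lit 90) (.e (nat_lit 81943) (nat_lit 20) (.e (nat_lit 1962) (nat_lit 134) (.e (nat_lit 638985) (nat_lit 5) (.e (nat_lit 3015) (nat_lit 187) (.e (nat_lit 458496) (nat_lit 0) .nil))))))) (.g (nat_lit 6) .nil .nil))) 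
(.lf (nat_lit 106829) (.g (nat_lit 2032) (.e (nat_lit 5072) (nat_lit 292) (.e (nat_lit 1296) (nat_lit 96) (.e (nat_lit 131096) (nat_lit 3) (.e (nat_lit 98373) (nat_lit 29) (.e (nat_lit 458496) (nat_lit 3) .nil))))) .nil))) (.nd (nat_lit 6) 
(.lf (nat_lit 106797) (.g (nat_lit 1611) (.e (nat_lit 5063) (nat_lit 292) (.e (nat_lit 1201) (nat_lit 88) (.e (nat_lit 65610) (nat_lit 10) (.e (nat_lit 344157) (nat_lit 36) .nil)))) .nil)) 
(.lf (nat_lit 106861) (.g (nat_lit 1361) (.e (nat_lit 5112) (nat_lit 292) (.e (nat_lit 990) (nat_lit 81) (.e (nat_lit 1615) (nat_lit 113) (.e (nat_lit 376860) (nat_lit 21) (.e (nat_lit 57832) (nat_lit 250) (.e (nat_lit 7936) (nat_lit 166) (.e (nat_lit 188427) (nat_lit 20) (.e (nat_lit 2403) (nat_lit 157) .nil)))))))) (.g (nat_lit 5) .nil .nil))))) (.nd (nat_lit 5) (.nd (nat_lit 6) 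
(.lf (nat_lit 106781) (.g (nat_lit 1773) (.e (nat_lit 5060) (nat_lit 292) (.e (nat_lit 1201) (nat_lit 88) (.e (nat_lit 65610) (nat_lit 10) (.e (nat_lit 344156) (nat_lit 36) .nil)))) .nil)) 
(.lf (nat_lit 106845) (.g (nat_lit 978) (.e (nat_lit 5076) (nat_lit 292) (.e (nat_lit 1212) (nat_lit 89) (.e (nat_lit 73789) (nat_lit 45) (.e (nat_lit 1340) (nat_lit 101) .nil)))) .nil))) (.nd (nat_lit 6) 
(.lf (nat_lit 106813) (.g (nat_lit 1444) (.e (nat_lit 5072) (nat_lit 292) (.e (nat_lit 1201) (nat_lit 88) (.e (nat_lit 65610) (nat_lit 10) (.e (nat_lit 344157) (nat_lit 36) .nil)))) .nil)) 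
(.lf (nat_lit 106877) (.g (nat_lit 1107) (.e (nat_lit 5116) (nat_lit 292) (.e (nat_lit 1199) (nat_lit 88) (.e (nat_lit 65617) (nat_lit 10) (.e (nat_lit 344157) (nat_lit 36) .nil)))) .nil))))))) (.nd (nat_lit 2) (.nd (nat_lit 3) (.nd (nat_lit 4) (.nd (nat_lit 5) (.nd (nat_lit 6) 
(.lf (nat_lit 106755) (.g (nat_lit 973) (.e (nat_lit 5057) (nat_lit 292) (.e (nat_lit 1212) (nat_lit 89) (.e (nat_lit 73789) (nat_lit 45) (.e (nat_lit 1343) (nat_lit 101) .nil)))) .nil)) 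
(.lf (nat_lit 106819) (.g (nat_lit 2792) (.e (nat_lit 5072) (nat_lit 292) (.e (nat_lit 1201) (nat_lit 88) (.e (nat_lit 65617) (nat_lit 10) (.e (nat_lit 344161) (nat_lit 37) (.e (nat_lit 647195) (nat_lit 9) (.e (nat_lit 7936) (nat_lit 35) (.e (nat_lit 450569) (nat_lit 0) .nil))))))) (.g (nat_lit 5) .nil .nil)))) (.nd (nat_lit 6) 
(.lf (nat_lit 106787) (.g (nat_lit 1002) (.e (nat_lit 5060) (nat_lit 292) (.e (nat_lit 1222) (nat_lit 90) (.e (nat_lit 81943) (nat_lit 20) (.e (nat_lit 1962) (nat_lit 134) .nil)))) .nil)) 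
(.lf (nat_lit 106851) (.g (nat_lit 1571) (.e (nat_lit 5077) (nat_lit 292) (.e (nat_lit 1201) (nat_lit 88) (.e (nat_lit 65617) (nat_lit 10) (.e (nat_lit 344156) (nat_lit 36) .nil)))) .nil)))) (.nd (nat_lit 5) (.nd (nat_lit 6) 
(.lf (nat_lit 106771) (.g (nat_lit 419) (.e (nat_lit 5057) (nat_lit 292) (.e (nat_lit 1223) (nat_lit 90) (.e (nat_lit 81939) (nat_lit 20) (.e (nat_lit 1962) (nat_lit 134) .nil)))) .nil)) 
(.lf (nat_lit 106835) (.g (nat_lit 1611) (.e (nat_lit 5074) (nat_lit 292) (.e (nat_lit 1201) (nat_lit 88) (.e (nat_lit 65610) (nat_lit 10) (.e (nat_lit 344157) (nat_lit 36) .nil)))) .nil))) (.nd (nat_lit 6) 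
(.lf (nat_lit 106803) (.g (nat_lit 1815) (.e (nat_lit 5071) (nat_lit 292) (.e (nat_lit 1201) (nat_lit 88) (.e (nat_lit 65610) (nat_lit 10) (.e (nat_lit 344157) (nat_lit 36) (.e (nat_lit 638986) (nat_lit 5) .nil))))) .nil)) 
(.lf (nat_lit 106867) (.g (nat_lit 2210) (.e (nat_lit 5112) (nat_lit 292) (.e (nat_lit 1220) (nat_lit 90) (.e (nat_lit 81938) (nat_lit 20) (.e (nat_lit 1963) (nat_lit 134) (.e (nat_lit 638986) (nat_lit 5) (.e (nat_lit 3015) (nat_lit 187) (.e (nat_lit 458496) (nat_lit 0) .nil))))))) (.g (nat_lit 6) .nil .nil)))))) (.nd (nat_lit 4) (.nd (nat_lit 5) (.nd (nat_lit 6) 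
(.lf (nat_lit 106763) (.g (nat_lit 862) (.e (nat_lit 5057) (nat_lit 292) (.e (nat_lit 1218) (nat_lit 90) (.e (nat_lit 81938) (nat_lit 20) (.e (nat_lit 1963) (nat_lit 134) (.e (nat_lit 638986) (nat_lit 5) .nil))))) .nil)) 
(.lf (nat_lit 106827) (.g (nat_lit 1631) (.e (nat_lit 5072) (nat_lit 292) (.e (nat_lit 1296) (nat_lit 96) (.e (nat_lit 131094) (nat_lit 2) (.e (nat_lit 90185) (nat_lit 17) (.e (nat_lit 237605) (nat_lit 9) .nil))))) .nil))) (.nd (nat_lit 6) 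
(.lf (nat_lit 106795) (.g (nat_lit 1306) (.e (nat_lit 5062) (nat_lit 292) (.e (nat_lit 1201) (nat_lit 88) (.e (nat_lit 65617) (nat_lit 10) (.e (nat_lit 344157) (nat_lit 36) .nil)))) .nil)) 
(.lf (nat_lit 106859) (.g (nat_lit 862) (.e (nat_lit 5098) (nat_lit 292) (.e (nat_lit 1218) (nat_lit 90) (.e (nat_lit 81938) (nat_lit 20) (.e (nat_lit 1963) (nat_lit 134) (.e (nat_lit 638986) (nat_lit 5) .nil))))) .nil)))) (.nd (nat_lit 5) (.nd (nat_lit 6) 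
(.lf (nat_lit 106779) (.g (nat_lit 1611) (.e (nat_lit 5058) (nat_lit 292) (.e (nat_lit 1201) (nat_lit 88) (.e (nat_lit 65610) (nat_lit 10) (.e (nat_lit 344157) (nat_lit 36) .nil)))) .nil)) 
(.lf (nat_lit 106843) (.g (nat_lit 541) (.e (nat_lit 5075) (nat_lit 292) (.e (nat_lit 1201) (nat_lit 88) (.e (nat_lit 65610) (nat_lit 10) .nil))) .nil))) (.nd (nat_lit 6) 
(.lf (nat_lit 106811) (.g (nat_lit 1798) (.e (nat_lit 5072) (nat_lit 292) (.e (nat_lit 1201) (nat_lit 88) (.e (nat_lit 65586) (nat_lit 7) (.e (nat_lit 319531) (nat_lit 16) (.e (nat_lit 286727) (nat_lit 0) .nil))))) .nil)) 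
(.lf (nat_lit 106875) (.g (nat_lit 2628) (.e (nat_lit 5116) (nat_lit 292) (.e (nat_lit 1182) (nat_lit 87) (.e (nat_lit 57479) (nat_lit 28) (.e (nat_lit 557109) (nat_lit 15) (.e (nat_lit 196352) (nat_lit 18) .nil))))) .nil)))))) (.nd (nat_lit 3) (.nd (nat_lit 4) (.nd (nat_lit 5) (.nd (nat_lit 6) 
(.lf (nat_lit 106759) (.g (nat_lit 680) (.e (nat_lit 5057) (nat_lit 292) (.e (nat_lit 1214) (nat_lit 89) (.e (nat_lit 73792) (nat_lit 45) .nil))) .nil)) 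
(.lf (nat_lit 106823) (.g (nat_lit 1382) (.e (nat_lit 5072) (nat_lit 292) (.e (nat_lit 1212) (nat_lit 89) (.e (nat_lit 73747) (nat_lit 3) (.e (nat_lit 516150) (nat_lit 9) .nil)))) .nil))) (.nd (nat_lit 6) 
(.lf (nat_lit 106791) (.g (nat_lit 990) (.e (nat_lit 5061) (nat_lit 292) (.e (nat_lit 1222) (nat_lit 90) (.e (nat_lit 81943) (nat_lit 20) (.e (nat_lit 1962) (nat_lit 134) .nil)))) .nil)) 
(.lf (nat_lit 106855) (.g (nat_lit 1101) (.e (nat_lit 5077) (nat_lit 292) (.e (nat_lit 1222) (nat_lit 90) (.e (nat_lit 81943) (nat_lit 20) (.e (nat_lit 1963) (nat_lit 134) (.e (nat_lit 638999) (nat_lit 8) .nil))))) .nil)))) (.nd (nat_lit 5) (.nd (nat_lit 6) 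
(.lf (nat_lit 106775) (.g (nat_lit 1797) (.e (nat_lit 5057) (nat_lit 292) (.e (nat_lit 1224) (nat_lit 90) (.e (nat_lit 81946) (nat_lit 20) (.e (nat_lit 1962) (nat_lit 134) (.e (nat_lit 638985) (nat_lit 5) (.e (nat_lit 3022) (nat_lit 187) (.e (nat_lit 458496) (nat_lit 0) .nil))))))) (.g (nat_lit 6) .nil .nil))) 
(.lf (nat_lit 106839) (.g (nat_lit 1956) (.e (nat_lit 5074) (nat_lit 292) (.e (nat_lit 1201) (nat_lit 88) (.e (nat_lit 65610) (nat_lit 10) (.e (nat_lit 344157) (nat_lit 36) (.e (nat_lit 638986) (nat_lit 5) (.e (nat_lit 3027) (nat_lit 187) (.e (nat_lit 458496) (nat_lit 0) .nil))))))) (.g (nat_lit 4) .nil .nil)))) (.nd (nat_lit 6) 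
(.lf (nat_lit 106807) (.g (nat_lit 1306) (.e (nat_lit 5071) (nat_lit 292) (.e (nat_lit 1201) (nat_lit 88) (.e (nat_lit 65617) (nat_lit 10) (.e (nat_lit 344157) (nat_lit 36) .nil)))) .nil)) 
(.lf (nat_lit 106871) (.g (nat_lit 2322) (.e (nat_lit 5114) (nat_lit 292) (.e (nat_lit 1181) (nat_lit 87) (.e (nat_lit 57479) (nat_lit 28) (.e (nat_lit 557105) (nat_lit 14) (.e (nat_lit 180252) (nat_lit 10) .nil))))) .nil))))) (.nd (nat_lit 4) (.nd (nat_lit 5) (.nd (nat_lit 6) 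
(.lf (nat_lit 106767) (.g (nat_lit 970) (.e (nat_lit 5057) (nat_lit 292) (.e (nat_lit 1222) (nat_lit 90) (.e (nat_lit 81943) (nat_lit 20) (.e (nat_lit 1963) (nat_lit 134) .nil)))) .nil)) 
(.lf (nat_lit 106831) (.g (nat_lit 1903) (.e (nat_lit 5072) (nat_lit 292) (.e (nat_lit 1296) (nat_lit 96) (.e (nat_lit 131098) (nat_lit 3) (.e (nat_lit 98372) (nat_lit 29) (.e (nat_lit 458496) (nat_lit 3) .nil))))) .nil))) (.nd (nat_lit 6) 
(.lf (nat_lit 106799) (.g (nat_lit 2305) (.e (nat_lit 5071) (nat_lit 292) (.e (nat_lit 1201) (nat_lit 88) (.e (nat_lit 65610) (nat_lit 10) (.e (nat_lit 344156) (nat_lit 36) (.e (nat_lit 638985) (nat_lit 5) .nil))))) .nil)) 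
(.lf (nat_lit 106863) (.g (nat_lit 1286) (.e (nat_lit 5112) (nat_lit 292) (.e (nat_lit 1209) (nat_lit 89) (.e (nat_lit 73789) (nat_lit 45) (.e (nat_lit 1340) (nat_lit 101) (.e (nat_lit 278531) (nat_lit 0) .nil))))) .nil)))) (.nd (nat_lit 5) (.nd (nat_lit 6) 
(.lf (nat_lit 106783) (.g (nat_lit 1308) (.e (nat_lit 5060) (nat_lit 292) (.e (nat_lit 1201) (nat_lit 88) (.e (nat_lit 65617) (nat_lit 10) (.e (nat_lit 344157) (nat_lit 36) .nil)))) .nil)) 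
(.lf (nat_lit 106847) (.g (nat_lit 2314) (.e (nat_lit 5077) (nat_lit 292) (.e (nat_lit 1201) (nat_lit 88) (.e (nat_lit 65610) (nat_lit 10) (.e (nat_lit 344156) (nat_lit 36) (.e (nat_lit 638985) (nat_lit 5) .nil))))) .nil))) (.nd (nat_lit 6) 
(.lf (nat_lit 106815) (.g (nat_lit 3494) (.e (nat_lit 5072) (nat_lit 292) (.e (nat_lit 1201) (nat_lit 88) (.e (nat_lit 65610) (nat_lit 10) (.e (nat_lit 344160) (nat_lit 37) (.e (nat_lit 647195) (nat_lit 9) (.e (nat_lit 7936) (nat_lit 35) (.e (nat_lit 450569) (nat_lit 0) .nil))))))) (.g (nat_lit 5) .nil .nil))) 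
(.lf (nat_lit 106879) (.g (nat_lit 1434) (.e (nat_lit 5116) (nat_lit 292) (.e (nat_lit 1221) (nat_lit 90) (.e (nat_lit 81938) (nat_lit 20) (.e (nat_lit 1963) (nat_lit 134) .nil)))) .nil)))))))))

noncomputable def tv1452 : DT := (.nd (nat_lit 0) (.nd (nat_lit 1) (.nd (nat_lit 2) (.nd (nat_lit 3) (.nd (nat_lit 4) (.nd (nat_lit 5) (.nd (nat_lit 6) 
(.lf (nat_lit 106880) (.g (nat_lit 470) (.e (nat_lit 5116) (nat_lit 292) (.e (nat_lit 1221) (nat_lit 90) (.e (nat_lit 81947) (nat_lit 20) .nil))) .nil)) 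
(.lf (nat_lit 106944) (.g (nat_lit 1569) (.e (nat_lit 5156) (nat_lit 292) (.e (nat_lit 1221) (nat_lit 90) (.e (nat_lit 81938) (nat_lit 20) (.e (nat_lit 1963) (nat_lit 134) (.e (nat_lit 639001) (nat_lit 10) .nil))))) .nil))) (.nd (nat_lit 6) 
(.lf (nat_lit 106912) (.g (nat_lit 1394) (.e (nat_lit 5152) (nat_lit 292) (.e (nat_lit 1221) (nat_lit 90) (.e (nat_lit 81938) (nat_lit 20) (.e (nat_lit 1963) (nat_lit 134) .nil)))) .nil)) 
(.lf (nat_lit 106976) (.g (nat_lit 4248) (.e (nat_lit 5190) (nat_lit 294) (.e (nat_lit 57377) (nat_lit 3) (.e (nat_lit 98317) (nat_lit 9) (.e (nat_lit 336222) (nat_lit 13) .nil)))) .nil)))) (.nd (nat_lit 5) (.nd (nat_lit 6) 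
(.lf (nat_lit 106896) (.g (nat_lit 2280) (.e (nat_lit 5152) (nat_lit 292) (.e (nat_lit 1181) (nat_lit 87) (.e (nat_lit 57479) (nat_lit 28) (.e (nat_lit 557105) (nat_lit 14) (.e (nat_lit 180252) (nat_lit 10) .nil))))) .nil)) 
(.lf (nat_lit 106960) (.g (nat_lit 791) (.e (nat_lit 5190) (nat_lit 294) (.e (nat_lit 57371) (nat_lit 2) (.e (nat_lit 90113) (nat_lit 0) .nil))) .nil))) (.nd (nat_lit 6) 
(.lf (nat_lit 106928) (.g (nat_lit 1771) (.e (nat_lit 5153) (nat_lit 292) (.e (nat_lit 1221) (nat_lit 90) (.e (nat_lit 81959) (nat_lit 24) (.e (nat_lit 123153) (nat_lit 250) .nil)))) .nil)) 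
(.lf (nat_lit 106992) (.g (nat_lit 1238) (.e (nat_lit 5190) (nat_lit 294) (.e (nat_lit 57412) (nat_lit 12) (.e (nat_lit 336061) (nat_lit 7) (.e (nat_lit 319527) (nat_lit 15) .nil)))) .nil))))) (.nd (nat_lit 4) (.nd (nat_lit 5) (.nd (nat_lit 6) 
(.lf (nat_lit 106888) (.g (nat_lit 1018) (.e (nat_lit 5130) (nat_lit 292) (.e (nat_lit 1179) (nat_lit 87) (.e (nat_lit 57480) (nat_lit 28) (.e (nat_lit 557109) (nat_lit 15) .nil)))) .nil)) 
(.lf (nat_lit 106952) (.g (nat_lit 416) (.e (nat_lit 7936) (nat_lit 292) (.e (nat_lit 1222) (nat_lit 90) (.e (nat_lit 81943) (nat_lit 20) .nil))) .nil))) (.nd (nat_lit 6) 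
(.lf (nat_lit 106920) (.g (nat_lit 2127) (.e (nat_lit 5153) (nat_lit 292) (.e (nat_lit 1182) (nat_lit 87) (.e (nat_lit 57479) (nat_lit 28) (.e (nat_lit 557107) (nat_lit 15) (.e (nat_lit 196352) (nat_lit 18) .nil))))) .nil)) 
(.lf (nat_lit 106984) (.g (nat_lit 670) (.e (nat_lit 5190) (nat_lit 294) (.e (nat_lit 57407) (nat_lit 12) (.e (nat_lit 336456) (nat_lit 34) .nil))) .nil)))) (.nd (nat_lit 5) (.nd (nat_lit 6) 
(.lf (nat_lit 106904) (.g (nat_lit 1286) (.e (nat_lit 5152) (nat_lit 292) (.e (nat_lit 1209) (nat_lit 89) (.e (nat_lit 73789) (nat_lit 45) (.e (nat_lit 1340) (nat_lit 101) (.e (nat_lit 278529) (nat_lit 0) .nil))))) .nil)) 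
(.lf (nat_lit 106968) (.g (nat_lit 4125) (.e (nat_lit 5190) (nat_lit 294) (.e (nat_lit 57377) (nat_lit 3) (.e (nat_lit 98317) (nat_lit 9) (.e (nat_lit 336076) (nat_lit 9) .nil)))) .nil))) (.nd (nat_lit 6) 
(.lf (nat_lit 106936) (.g (nat_lit 2094) (.e (nat_lit 5155) (nat_lit 292) (.e (nat_lit 1182) (nat_lit 87) (.e (nat_lit 57479) (nat_lit 28) (.e (nat_lit 557107) (nat_lit 15) (.e (nat_lit 196352) (nat_lit 18) .nil))))) .nil)) 
(.lf (nat_lit 107000) (.g (nat_lit 589) (.e (nat_lit 5190) (nat_lit 294) (.e (nat_lit 57448) (nat_lit 19) (.e (nat_lit 393234) (nat_lit 17) .nil))) .nil)))))) (.nd (nat_lit 3) (.nd (nat_lit 4) (.nd (nat_lit 5) (.nd (nat_lit 6) 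
(.lf (nat_lit 106884) (.g (nat_lit 680) (.e (nat_lit 5116) (nat_lit 292) (.e (nat_lit 2509) (nat_lit 157) (.e (nat_lit 3026) (nat_lit 187) (.e (nat_lit 450564) (nat_lit 0) .nil)))) .nil)) 
(.lf (nat_lit 106948) (.g (nat_lit 1186) (.e (nat_lit 5156) (nat_lit 292) (.e (nat_lit 1221) (nat_lit 90) (.e (nat_lit 81965) (nat_lit 26) (.e (nat_lit 147492) (nat_lit 11) .nil)))) .nil))) (.nd (nat_lit 6) 
(.lf (nat_lit 106916) (.g (nat_lit 1414) (.e (nat_lit 5152) (nat_lit 292) (.e (nat_lit 1221) (nat_lit 90) (.e (nat_lit 81959) (nat_lit 24) (.e (nat_lit 123160) (nat_lit 254) .nil)))) .nil)) 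
(.lf (nat_lit 106980) (.g (nat_lit 1838) (.e (nat_lit 5190) (nat_lit 294) (.e (nat_lit 57406) (nat_lit 12) (.e (nat_lit 336456) (nat_lit 34) (.e (nat_lit 483395) (nat_lit 24) .nil)))) .nil)))) (.nd (nat_lit 5) (.nd (nat_lit 6) 
(.lf (nat_lit 106900) (.g (nat_lit 2700) (.e (nat_lit 5152) (nat_lit 292) (.e (nat_lit 1182) (nat_lit 87) (.e (nat_lit 57479) (nat_lit 28) (.e (nat_lit 557109) (nat_lit 15) (.e (nat_lit 196352) (nat_lit 18) .nil))))) .nil)) 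
(.lf (nat_lit 106964) (.g (nat_lit 2067) (.e (nat_lit 5190) (nat_lit 294) (.e (nat_lit 57371) (nat_lit 2) (.e (nat_lit 98048) (nat_lit 6) (.e (nat_lit 81951) (nat_lit 22) (.e (nat_lit 90172) (nat_lit 14) (.e (nat_lit 180229) (nat_lit 0) .nil)))))) (.g (nat_lit 5) .nil .nil)))) (.nd (nat_lit 6) 
(.lf (nat_lit 106932) (.g (nat_lit 1347) (.e (nat_lit 5154) (nat_lit 292) (.e (nat_lit 1220) (nat_lit 90) (.e (nat_lit 81938) (nat_lit 20) (.e (nat_lit 1963) (nat_lit 134) .nil)))) .nil)) 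
(.lf (nat_lit 106996) (.g (nat_lit 4310) (.e (nat_lit 5190) (nat_lit 294) (.e (nat_lit 57445) (nat_lit 19) (.e (nat_lit 393229) (nat_lit 9) (.e (nat_lit 336076) (nat_lit 9) .nil)))) .nil))))) (.nd (nat_lit 4) (.nd (nat_lit 5) (.nd (nat_lit 6) 
(.lf (nat_lit 106892) (.g (nat_lit 1412) (.e (nat_lit 5130) (nat_lit 292) (.e (nat_lit 1197) (nat_lit 88) (.e (nat_lit 65586) (nat_lit 7) (.e (nat_lit 319531) (nat_lit 16) (.e (nat_lit 286727) (nat_lit 0) .nil))))) .nil)) 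
(.lf (nat_lit 106956) (.g (nat_lit 4422) (.e (nat_lit 5187) (nat_lit 294) (.e (nat_lit 57377) (nat_lit 3) (.e (nat_lit 98317) (nat_lit 9) (.e (nat_lit 336215) (nat_lit 13) .nil)))) .nil))) (.nd (nat_lit 6) 
(.lf (nat_lit 106924) (.g (nat_lit 1662) (.e (nat_lit 5153) (nat_lit 292) (.e (nat_lit 1200) (nat_lit 88) (.e (nat_lit 65619) (nat_lit 10) (.e (nat_lit 344160) (nat_lit 37) (.e (nat_lit 647195) (nat_lit 9) .nil))))) .nil)) 
(.lf (nat_lit 106988) (.g (nat_lit 1914) (.e (nat_lit 5190) (nat_lit 294) (.e (nat_lit 57411) (nat_lit 12) (.e (nat_lit 336019) (nat_lit 3) (.e (nat_lit 98372) (nat_lit 29) .nil)))) .nil)))) (.nd (nat_lit 5) (.nd (nat_lit 6) 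
(.lf (nat_lit 106908) (.g (nat_lit 1410) (.e (nat_lit 5152) (nat_lit 292) (.e (nat_lit 1220) (nat_lit 90) (.e (nat_lit 81938) (nat_lit 20) (.e (nat_lit 1962) (nat_lit 134) .nil)))) .nil)) 
(.lf (nat_lit 106972) (.g (nat_lit 4123) (.e (nat_lit 5190) (nat_lit 294) (.e (nat_lit 57377) (nat_lit 3) (.e (nat_lit 98317) (nat_lit 9) (.e (nat_lit 336213) (nat_lit 13) .nil)))) .nil))) (.nd (nat_lit 6) 
(.lf (nat_lit 106940) (.g (nat_lit 2628) (.e (nat_lit 5156) (nat_lit 292) (.e (nat_lit 1182) (nat_lit 87) (.e (nat_lit 57479) (nat_lit 28) (.e (nat_lit 557109) (nat_lit 15) (.e (nat_lit 196352) (nat_lit 18) .nil))))) .nil)) 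
(.lf (nat_lit 107004) (.g (nat_lit 1762) (.e (nat_lit 5190) (nat_lit 294) (.e (nat_lit 57448) (nat_lit 19) (.e (nat_lit 393234) (nat_lit 17) (.e (nat_lit 2415) (nat_lit 157) (.e (nat_lit 5205) (nat_lit 294) .nil))))) .nil))))))) (.nd (nat_lit 2) (.nd (nat_lit 3) (.nd (nat_lit 4) (.nd (nat_lit 5) (.nd (nat_lit 6) 
(.lf (nat_lit 106882) (.g (nat_lit 1396) (.e (nat_lit 5116) (nat_lit 292) (.e (nat_lit 1221) (nat_lit 90) (.e (nat_lit 81959) (nat_lit 24) (.e (nat_lit 130816) (nat_lit 255) .nil)))) .nil)) 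
(.lf (nat_lit 106946) (.g (nat_lit 1497) (.e (nat_lit 5156) (nat_lit 292) (.e (nat_lit 1221) (nat_lit 90) (.e (nat_lit 81959) (nat_lit 24) (.e (nat_lit 123153) (nat_lit 250) .nil)))) .nil))) (.nd (nat_lit 6) 
(.lf (nat_lit 106914) (.g (nat_lit 465) (.e (nat_lit 5152) (nat_lit 292) (.e (nat_lit 1221) (nat_lit 90) (.e (nat_lit 81959) (nat_lit 24) .nil))) .nil)) 
(.lf (nat_lit 106978) (.g (nat_lit 2155) (.e (nat_lit 5190) (nat_lit 294) (.e (nat_lit 57389) (nat_lit 5) (.e (nat_lit 114712) (nat_lit 21) (.e (nat_lit 57852) (nat_lit 252) (.e (nat_lit 57421) (nat_lit 13) .nil))))) .nil)))) (.nd (nat_lit 5) (.nd (nat_lit 6) 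
(.lf (nat_lit 106898) (.g (nat_lit 2872) (.e (nat_lit 5152) (nat_lit 292) (.e (nat_lit 1181) (nat_lit 87) (.e (nat_lit 57479) (nat_lit 28) (.e (nat_lit 557109) (nat_lit 15) (.e (nat_lit 196352) (nat_lit 18) .nil))))) .nil)) 
(.lf (nat_lit 106962) (.g (nat_lit 1095) (.e (nat_lit 5190) (nat_lit 294) (.e (nat_lit 57371) (nat_lit 2) (.e (nat_lit 90115) (nat_lit 0) (.e (nat_lit 1583) (nat_lit 111) (.e (nat_lit 360467) (nat_lit 3) .nil))))) .nil))) (.nd (nat_lit 6) 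
(.lf (nat_lit 106930) (.g (nat_lit 1435) (.e (nat_lit 5154) (nat_lit 292) (.e (nat_lit 1220) (nat_lit 90) (.e (nat_lit 81938) (nat_lit 20) (.e (nat_lit 1962) (nat_lit 134) .nil)))) .nil)) 
(.lf (nat_lit 106994) (.g (nat_lit 648) (.e (nat_lit 5190) (nat_lit 294) (.e (nat_lit 57427) (nat_lit 15) (.e (nat_lit 360483) (nat_lit 15) .nil))) .nil))))) (.nd (nat_lit 4) (.nd (nat_lit 5) (.nd (nat_lit 6) 
(.lf (nat_lit 106890) (.g (nat_lit 2362) (.e (nat_lit 5130) (nat_lit 292) (.e (nat_lit 1197) (nat_lit 88) (.e (nat_lit 65583) (nat_lit 7) (.e (nat_lit 319530) (nat_lit 16) (.e (nat_lit 286727) (nat_lit 0) (.e (nat_lit 7936) (nat_lit 362) (.e (nat_lit 180226) (nat_lit 0) .nil))))))) (.g (nat_lit 5) .nil .nil))) 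
(.lf (nat_lit 106954) (.g (nat_lit 4138) (.e (nat_lit 5187) (nat_lit 294) (.e (nat_lit 57377) (nat_lit 3) (.e (nat_lit 98317) (nat_lit 9) (.e (nat_lit 336213) (nat_lit 13) .nil)))) .nil))) (.nd (nat_lit 6) 
(.lf (nat_lit 106922) (.g (nat_lit 2805) (.e (nat_lit 5153) (nat_lit 292) (.e (nat_lit 1182) (nat_lit 87) (.e (nat_lit 57479) (nat_lit 28) (.e (nat_lit 557109) (nat_lit 15) (.e (nat_lit 196352) (nat_lit 18) (.e (nat_lit 393233) (nat_lit 17) (.e (nat_lit 2398) (nat_lit 157) .nil))))))) (.g (nat_lit 4) .nil .nil))) 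
(.lf (nat_lit 106986) (.g (nat_lit 1991) (.e (nat_lit 5190) (nat_lit 294) (.e (nat_lit 57407) (nat_lit 12) (.e (nat_lit 336456) (nat_lit 34) (.e (nat_lit 483396) (nat_lit 24) (.e (nat_lit 344133) (nat_lit 26) .nil))))) .nil)))) (.nd (nat_lit 5) (.nd (nat_lit 6) 
(.lf (nat_lit 106906) (.g (nat_lit 1076) (.e (nat_lit 5152) (nat_lit 292) (.e (nat_lit 1209) (nat_lit 89) (.e (nat_lit 73789) (nat_lit 45) (.e (nat_lit 1343) (nat_lit 101) .nil)))) .nil)) 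
(.lf (nat_lit 106970) (.g (nat_lit 4233) (.e (nat_lit 5190) (nat_lit 294) (.e (nat_lit 57377) (nat_lit 3) (.e (nat_lit 98317) (nat_lit 9) (.e (nat_lit 336086) (nat_lit 9) .nil)))) .nil))) (.nd (nat_lit 6) 
(.lf (nat_lit 106938) (.g (nat_lit 2914) (.e (nat_lit 5156) (nat_lit 292) (.e (nat_lit 1181) (nat_lit 87) (.e (nat_lit 57479) (nat_lit 28) (.e (nat_lit 557109) (nat_lit 15) (.e (nat_lit 196352) (nat_lit 18) .nil))))) .nil)) 
(.lf (nat_lit 107002) (.g (nat_lit 1661) (.e (nat_lit 5190) (nat_lit 294) (.e (nat_lit 57448) (nat_lit 19) (.e (nat_lit 393234) (nat_lit 17) (.e (nat_lit 2413) (nat_lit 157) .nil)))) .nil)))))) (.nd (nat_lit 3) (.nd (nat_lit 4) (.nd (nat_lit 5) (.nd (nat_lit 6) 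
(.lf (nat_lit 106886) (.g (nat_lit 532) (.e (nat_lit 5117) (nat_lit 292) (.e (nat_lit 2650) (nat_lit 166) (.e (nat_lit 188434) (nat_lit 20) .nil))) .nil)) 
(.lf (nat_lit 106950) (.g (nat_lit 532) (.e (nat_lit 5169) (nat_lit 292) (.e (nat_lit 2650) (nat_lit 166) (.e (nat_lit 188434) (nat_lit 20) .nil))) .nil))) (.nd (nat_lit 6) 
(.lf (nat_lit 106918) (.g (nat_lit 2900) (.e (nat_lit 5153) (nat_lit 292) (.e (nat_lit 1181) (nat_lit 87) (.e (nat_lit 57479) (nat_lit 28) (.e (nat_lit 557109) (nat_lit 15) (.e (nat_lit 196352) (nat_lit 18) .nil))))) .nil)) 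
(.lf (nat_lit 106982) (.g (nat_lit 1073) (.e (nat_lit 5190) (nat_lit 294) (.e (nat_lit 57407) (nat_lit 12) (.e (nat_lit 336367) (nat_lit 27) (.e (nat_lit 426544) (nat_lit 30) .nil)))) .nil)))) (.nd (nat_lit 5) (.nd (nat_lit 6) 
(.lf (nat_lit 106902) (.g (nat_lit 1184) (.e (nat_lit 5152) (nat_lit 292) (.e (nat_lit 1200) (nat_lit 88) (.e (nat_lit 65619) (nat_lit 10) (.e (nat_lit 344157) (nat_lit 36) .nil)))) .nil)) 
(.lf (nat_lit 106966) (.g (nat_lit 1194) (.e (nat_lit 5190) (nat_lit 294) (.e (nat_lit 57372) (nat_lit 2) (.e (nat_lit 90115) (nat_lit 0) .nil))) .nil))) (.nd (nat_lit 6) 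
(.lf (nat_lit 106934) (.g (nat_lit 2309) (.e (nat_lit 5155) (nat_lit 292) (.e (nat_lit 1181) (nat_lit 87) (.e (nat_lit 57479) (nat_lit 28) (.e (nat_lit 557105) (nat_lit 14) (.e (nat_lit 180252) (nat_lit 10) .nil))))) .nil)) 
(.lf (nat_lit 106998) (.g (nat_lit 3964) (.e (nat_lit 5190) (nat_lit 294) (.e (nat_lit 57445) (nat_lit 19) (.e (nat_lit 393229) (nat_lit 9) (.e (nat_lit 336163) (nat_lit 10) .nil)))) .nil))))) (.nd (nat_lit 4) (.nd (nat_lit 5) (.nd (nat_lit 6) 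
(.lf (nat_lit 106894) (.g (nat_lit 654) (.e (nat_lit 5150) (nat_lit 292) (.e (nat_lit 1209) (nat_lit 89) (.e (nat_lit 73789) (nat_lit 45) .nil))) .nil)) 
(.lf (nat_lit 106958) (.g (nat_lit 3859) (.e (nat_lit 5187) (nat_lit 294) (.e (nat_lit 57377) (nat_lit 3) (.e (nat_lit 98317) (nat_lit 9) (.e (nat_lit 336223) (nat_lit 13) .nil)))) .nil))) (.nd (nat_lit 6) 
(.lf (nat_lit 106926) (.g (nat_lit 1327) (.e (nat_lit 5153) (nat_lit 292) (.e (nat_lit 1220) (nat_lit 90) (.e (nat_lit 81938) (nat_lit 20) (.e (nat_lit 1963) (nat_lit 134) .nil)))) .nil)) 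
(.lf (nat_lit 106990) (.g (nat_lit 823) (.e (nat_lit 5190) (nat_lit 294) (.e (nat_lit 57411) (nat_lit 12) (.e (nat_lit 336182) (nat_lit 11) .nil))) .nil)))) (.nd (nat_lit 5) (.nd (nat_lit 6) 
(.lf (nat_lit 106910) (.g (nat_lit 1354) (.e (nat_lit 5152) (nat_lit 292) (.e (nat_lit 1221) (nat_lit 90) (.e (nat_lit 81938) (nat_lit 20) (.e (nat_lit 1962) (nat_lit 134) .nil)))) .nil)) 
(.lf (nat_lit 106974) (.g (nat_lit 3454) (.e (nat_lit 5190) (nat_lit 294) (.e (nat_lit 57377) (nat_lit 3) (.e (nat_lit 98317) (nat_lit 9) (.e (nat_lit 336215) (nat_lit 13) .nil)))) .nil))) (.nd (nat_lit 6) 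
(.lf (nat_lit 106942) (.g (nat_lit 1487) (.e (nat_lit 5156) (nat_lit 292) (.e (nat_lit 1221) (nat_lit 90) (.e (nat_lit 81938) (nat_lit 20) (.e (nat_lit 1962) (nat_lit 134) (.e (nat_lit 638985) (nat_lit 5) .nil))))) .nil)) 
(.lf (nat_lit 107006) (.g (nat_lit 1650) (.e (nat_lit 5190) (nat_lit 294) (.e (nat_lit 57448) (nat_lit 19) (.e (nat_lit 393234) (nat_lit 17) (.e (nat_lit 2528) (nat_lit 157) .nil)))) .nil)))))))) (.nd (nat_lit 1) (.nd (nat_lit 2) (.nd (nat_lit 3) (.nd (nat_lit 4) (.nd (nat_lit 5) (.nd (nat_lit 6) 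
(.lf (nat_lit 106881) (.g (nat_lit 571) (.e (nat_lit 5116) (nat_lit 292) (.e (nat_lit 1221) (nat_lit 90) (.e (nat_lit 81959) (nat_lit 24) .nil))) .nil)) 
(.lf (nat_lit 106945) (.g (nat_lit 485) (.e (nat_lit 5156) (nat_lit 292) (.e (nat_lit 1221) (nat_lit 90) (.e (nat_lit 81959) (nat_lit 24) .nil))) .nil))) (.nd (nat_lit 6) 
(.lf (nat_lit 106913) (.g (nat_lit 471) (.e (nat_lit 5152) (nat_lit 292) (.e (nat_lit 1221) (nat_lit 90) (.e (nat_lit 81947) (nat_lit 20) .nil))) .nil)) 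
(.lf (nat_lit 106977) (.g (nat_lit 3859) (.e (nat_lit 5190) (nat_lit 294) (.e (nat_lit 57377) (nat_lit 3) (.e (nat_lit 98317) (nat_lit 9) (.e (nat_lit 336223) (nat_lit 13) .nil)))) .nil)))) (.nd (nat_lit 5) (.nd (nat_lit 6) 
(.lf (nat_lit 106897) (.g (nat_lit 2106) (.e (nat_lit 5152) (nat_lit 292) (.e (nat_lit 1181) (nat_lit 87) (.e (nat_lit 57479) (nat_lit 28) (.e (nat_lit 557107) (nat_lit 15) .nil)))) .nil)) 
(.lf (nat_lit 106961) (.g (nat_lit 774) (.e (nat_lit 5190) (nat_lit 294) (.e (nat_lit 57371) (nat_lit 2) (.e (nat_lit 90115) (nat_lit 0) .nil))) .nil))) (.nd (nat_lit 6) 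
(.lf (nat_lit 106929) (.g (nat_lit 555) (.e (nat_lit 5154) (nat_lit 292) (.e (nat_lit 1220) (nat_lit 90) (.e (nat_lit 81938) (nat_lit 20) .nil))) .nil)) 
(.lf (nat_lit 106993) (.g (nat_lit 1957) (.e (nat_lit 5190) (nat_lit 294) (.e (nat_lit 57421) (nat_lit 13) (.e (nat_lit 344117) (nat_lit 21) (.e (nat_lit 516165) (nat_lit 12) (.e (nat_lit 458496) (nat_lit 3) .nil))))) .nil))))) (.nd (nat_lit 4) (.nd (nat_lit 5) (.nd (nat_lit 6) 
(.lf (nat_lit 106889) (.g (nat_lit 1128) (.e (nat_lit 5130) (nat_lit 292) (.e (nat_lit 1197) (nat_lit 88) (.e (nat_lit 65583) (nat_lit 7) (.e (nat_lit 319530) (nat_lit 16) (.e (nat_lit 286722) (nat_lit 0) .nil))))) .nil)) 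
(.lf (nat_lit 106953) (.g (nat_lit 1288) (.e (nat_lit 5187) (nat_lit 294) (.e (nat_lit 57373) (nat_lit 2) (.e (nat_lit 90158) (nat_lit 11) .nil))) .nil))) (.nd (nat_lit 6) 
(.lf (nat_lit 106921) (.g (nat_lit 2661) (.e (nat_lit 5153) (nat_lit 292) (.e (nat_lit 1182) (nat_lit 87) (.e (nat_lit 57479) (nat_lit 28) (.e (nat_lit 557109) (nat_lit 15) (.e (nat_lit 196352) (nat_lit 18) .nil))))) .nil)) 
(.lf (nat_lit 106985) (.g (nat_lit 1438) (.e (nat_lit 5190) (nat_lit 294) (.e (nat_lit 57407) (nat_lit 12) (.e (nat_lit 336456) (nat_lit 34) (.e (nat_lit 483395) (nat_lit 24) .nil)))) .nil)))) (.nd (nat_lit 5) (.nd (nat_lit 6) 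
(.lf (nat_lit 106905) (.g (nat_lit 1051) (.e (nat_lit 5152) (nat_lit 292) (.e (nat_lit 1209) (nat_lit 89) (.e (nat_lit 73789) (nat_lit 45) (.e (nat_lit 1342) (nat_lit 101) .nil)))) .nil)) 
(.lf (nat_lit 106969) (.g (nat_lit 4697) (.e (nat_lit 5190) (nat_lit 294) (.e (nat_lit 57377) (nat_lit 3) (.e (nat_lit 98317) (nat_lit 9) (.e (nat_lit 336078) (nat_lit 9) .nil)))) .nil))) (.nd (nat_lit 6) 
(.lf (nat_lit 106937) (.g (nat_lit 2630) (.e (nat_lit 5155) (nat_lit 292) (.e (nat_lit 1182) (nat_lit 87) (.e (nat_lit 57479) (nat_lit 28) (.e (nat_lit 557109) (nat_lit 15) (.e (nat_lit 196352) (nat_lit 18) .nil))))) .nil)) 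
(.lf (nat_lit 107001) (.g (nat_lit 1535) (.e (nat_lit 5190) (nat_lit 294) (.e (nat_lit 57448) (nat_lit 19) (.e (nat_lit 393234) (nat_lit 17) (.e (nat_lit 2411) (nat_lit 157) .nil)))) .nil)))))) (.nd (nat_lit 3) (.nd (nat_lit 4) (.nd (nat_lit 5) (.nd (nat_lit 6) 
(.lf (nat_lit 106885) (.g (nat_lit 1078) (.e (nat_lit 5117) (nat_lit 292) (.e (nat_lit 1217) (nat_lit 90) (.e (nat_lit 81959) (nat_lit 24) (.e (nat_lit 123161) (nat_lit 255) .nil)))) .nil)) 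
(.lf (nat_lit 106949) (.g (nat_lit 2133) (.e (nat_lit 5156) (nat_lit 292) (.e (nat_lit 1221) (nat_lit 90) (.e (nat_lit 81965) (nat_lit 26) (.e (nat_lit 147495) (nat_lit 11) (.e (nat_lit 32512) (nat_lit 23) .nil))))) .nil))) (.nd (nat_lit 6) 
(.lf (nat_lit 106917) (.g (nat_lit 1689) (.e (nat_lit 5153) (nat_lit 292) (.e (nat_lit 989) (nat_lit 81) (.e (nat_lit 1615) (nat_lit 113) (.e (nat_lit 376860) (nat_lit 21) (.e (nat_lit 57830) (nat_lit 250) (.e (nat_lit 7936) (nat_lit 166) (.e (nat_lit 188427) (nat_lit 20) (.e (nat_lit 2403) (nat_lit 157) .nil)))))))) (.g (nat_lit 5) .nil .nil))) 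
(.lf (nat_lit 106981) (.g (nat_lit 1947) (.e (nat_lit 5190) (nat_lit 294) (.e (nat_lit 57406) (nat_lit 12) (.e (nat_lit 336456) (nat_lit 34) (.e (nat_lit 483396) (nat_lit 24) .nil)))) .nil)))) (.nd (nat_lit 5) (.nd (nat_lit 6) 
(.lf (nat_lit 106901) (.g (nat_lit 1834) (.e (nat_lit 5152) (nat_lit 292) (.e (nat_lit 1190) (nat_lit 88) (.e (nat_lit 65571) (nat_lit 3) (.e (nat_lit 98373) (nat_lit 29) (.e (nat_lit 458496) (nat_lit 3) .nil))))) .nil)) 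
(.lf (nat_lit 106965) (.g (nat_lit 1675) (.e (nat_lit 5190) (nat_lit 294) (.e (nat_lit 57371) (nat_lit 2) (.e (nat_lit 90159) (nat_lit 11) (.e (nat_lit 24657) (nat_lit 13) (.e (nat_lit 401152) (nat_lit 10) .nil))))) .nil))) (.nd (nat_lit 6) 
(.lf (nat_lit 106933) (.g (nat_lit 1721) (.e (nat_lit 5154) (nat_lit 292) (.e (nat_lit 1220) (nat_lit 90) (.e (nat_lit 81950) (nat_lit 21) (.e (nat_lit 57857) (nat_lit 254) .nil)))) .nil)) 
(.lf (nat_lit 106997) (.g (nat_lit 3961) (.e (nat_lit 5190) (nat_lit 294) (.e (nat_lit 57445) (nat_lit 19) (.e (nat_lit 393229) (nat_lit 9) (.e (nat_lit 336088) (nat_lit 9) .nil)))) .nil))))) (.nd (nat_lit 4) (.nd (nat_lit 5) (.nd (nat_lit 6) 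
(.lf (nat_lit 106893) (.g (nat_lit 2315) (.e (nat_lit 5148) (nat_lit 292) (.e (nat_lit 1181) (nat_lit 87) (.e (nat_lit 57479) (nat_lit 28) (.e (nat_lit 557105) (nat_lit 14) (.e (nat_lit 180252) (nat_lit 10) .nil))))) .nil)) 
(.lf (nat_lit 106957) (.g (nat_lit 4249) (.e (nat_lit 5187) (nat_lit 294) (.e (nat_lit 57377) (nat_lit 3) (.e (nat_lit 98317) (nat_lit 9) (.e (nat_lit 336222) (nat_lit 13) .nil)))) .nil))) (.nd (nat_lit 6) 
(.lf (nat_lit 106925) (.g (nat_lit 1410) (.e (nat_lit 5153) (nat_lit 292) (.e (nat_lit 1220) (nat_lit 90) (.e (nat_lit 81938) (nat_lit 20) (.e (nat_lit 1962) (nat_lit 134) .nil)))) .nil)) 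
(.lf (nat_lit 106989) (.g (nat_lit 1603) (.e (nat_lit 5190) (nat_lit 294) (.e (nat_lit 57411) (nat_lit 12) (.e (nat_lit 336019) (nat_lit 3) (.e (nat_lit 98381) (nat_lit 31) .nil)))) .nil)))) (.nd (nat_lit 5) (.nd (nat_lit 6) 
(.lf (nat_lit 106909) (.g (nat_lit 1327) (.e (nat_lit 5152) (nat_lit 292) (.e (nat_lit 1220) (nat_lit 90) (.e (nat_lit 81938) (nat_lit 20) (.e (nat_lit 1963) (nat_lit 134) .nil)))) .nil)) 
(.lf (nat_lit 106973) (.g (nat_lit 4430) (.e (nat_lit 5190) (nat_lit 294) (.e (nat_lit 57377) (nat_lit 3) (.e (nat_lit 98317) (nat_lit 9) (.e (nat_lit 336214) (nat_lit 13) .nil)))) .nil))) (.nd (nat_lit 6) 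
(.lf (nat_lit 106941) (.g (nat_lit 1336) (.e (nat_lit 5156) (nat_lit 292) (.e (nat_lit 1221) (nat_lit 90) (.e (nat_lit 81938) (nat_lit 20) (.e (nat_lit 1962) (nat_lit 134) .nil)))) .nil)) 
(.lf (nat_lit 107005) (.g (nat_lit 1647) (.e (nat_lit 5190) (nat_lit 294) (.e (nat_lit 57448) (nat_lit 19) (.e (nat_lit 393234) (nat_lit 17) (.e (nat_lit 2522) (nat_lit 157) .nil)))) .nil))))))) (.nd (nat_lit 2) (.nd (nat_lit 3) (.nd (nat_lit 4) (.nd (nat_lit 5) (.nd (nat_lit 6) 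
(.lf (nat_lit 106883) (.g (nat_lit 1593) (.e (nat_lit 5116) (nat_lit 292) (.e (nat_lit 1221) (nat_lit 90) (.e (nat_lit 81965) (nat_lit 26) (.e (nat_lit 147492) (nat_lit 11) (.e (nat_lit 32512) (nat_lit 23) .nil))))) .nil)) 
(.lf (nat_lit 106947) (.g (nat_lit 1119) (.e (nat_lit 5156) (nat_lit 292) (.e (nat_lit 1221) (nat_lit 90) (.e (nat_lit 81959) (nat_lit 24) (.e (nat_lit 130816) (nat_lit 255) .nil)))) .nil))) (.nd (nat_lit 6) 
(.lf (nat_lit 106915) (.g (nat_lit 1634) (.e (nat_lit 5152) (nat_lit 292) (.e (nat_lit 1221) (nat_lit 90) (.e (nat_lit 81959) (nat_lit 24) (.e (nat_lit 123147) (nat_lit 250) .nil)))) .nil)) 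
(.lf (nat_lit 106979) (.g (nat_lit 777) (.e (nat_lit 5190) (nat_lit 294) (.e (nat_lit 57406) (nat_lit 12) (.e (nat_lit 336456) (nat_lit 34) .nil))) .nil)))) (.nd (nat_lit 5) (.nd (nat_lit 6) 
(.lf (nat_lit 106899) (.g (nat_lit 2150) (.e (nat_lit 5152) (nat_lit 292) (.e (nat_lit 1182) (nat_lit 87) (.e (nat_lit 57479) (nat_lit 28) (.e (nat_lit 557107) (nat_lit 15) (.e (nat_lit 196352) (nat_lit 18) .nil))))) .nil)) 
(.lf (nat_lit 106963) (.g (nat_lit 580) (.e (nat_lit 5190) (nat_lit 294) (.e (nat_lit 57371) (nat_lit 2) (.e (nat_lit 98048) (nat_lit 6) .nil))) .nil))) (.nd (nat_lit 6) 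
(.lf (nat_lit 106931) (.g (nat_lit 1571) (.e (nat_lit 5154) (nat_lit 292) (.e (nat_lit 1220) (nat_lit 90) (.e (nat_lit 81938) (nat_lit 20) (.e (nat_lit 1962) (nat_lit 134) (.e (nat_lit 639001) (nat_lit 10) .nil))))) .nil)) 
(.lf (nat_lit 106995) (.g (nat_lit 1100) (.e (nat_lit 5190) (nat_lit 294) (.e (nat_lit 57427) (nat_lit 15) (.e (nat_lit 360484) (nat_lit 15) (.e (nat_lit 647195) (nat_lit 9) .nil)))) .nil))))) (.nd (nat_lit 4) (.nd (nat_lit 5) (.nd (nat_lit 6) 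
(.lf (nat_lit 106891) (.g (nat_lit 80) (.e (nat_lit 5130) (nat_lit 292) (.e (nat_lit 1197) (nat_lit 88) (.e (nat_lit 65586) (nat_lit 7) .nil))) .nil)) 
(.lf (nat_lit 106955) (.g (nat_lit 4431) (.e (nat_lit 5187) (nat_lit 294) (.e (nat_lit 57377) (nat_lit 3) (.e (nat_lit 98317) (nat_lit 9) (.e (nat_lit 336214) (nat_lit 13) .nil)))) .nil))) (.nd (nat_lit 6) 
(.lf (nat_lit 106923) (.g (nat_lit 2677) (.e (nat_lit 5153) (nat_lit 292) (.e (nat_lit 1182) (nat_lit 87) (.e (nat_lit 57479) (nat_lit 28) (.e (nat_lit 557109) (nat_lit 15) (.e (nat_lit 196352) (nat_lit 18) (.e (nat_lit 393234) (nat_lit 17) (.e (nat_lit 2398) (nat_lit 157) .nil))))))) (.g (nat_lit 4) .nil .nil))) 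
(.lf (nat_lit 106987) (.g (nat_lit 2972) (.e (nat_lit 5190) (nat_lit 294) (.e (nat_lit 57411) (nat_lit 12) (.e (nat_lit 336019) (nat_lit 3) (.e (nat_lit 98358) (nat_lit 26) (.e (nat_lit 426294) (nat_lit 11) (.e (nat_lit 466688) (nat_lit 21) (.e (nat_lit 516106) (nat_lit 0) (.e (nat_lit 2478) (nat_lit 157) .nil)))))))) (.g (nat_lit 4) .nil .nil))))) (.nd (nat_lit 5) (.nd (nat_lit 6) 
(.lf (nat_lit 106907) (.g (nat_lit 565) (.e (nat_lit 5152) (nat_lit 292) (.e (nat_lit 1209) (nat_lit 89) (.e (nat_lit 73792) (nat_lit 45) .nil))) .nil)) 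
(.lf (nat_lit 106971) (.g (nat_lit 3814) (.e (nat_lit 5190) (nat_lit 294) (.e (nat_lit 57377) (nat_lit 3) (.e (nat_lit 98317) (nat_lit 9) (.e (nat_lit 336088) (nat_lit 9) .nil)))) .nil))) (.nd (nat_lit 6) 
(.lf (nat_lit 106939) (.g (nat_lit 1530) (.e (nat_lit 5156) (nat_lit 292) (.e (nat_lit 1182) (nat_lit 87) (.e (nat_lit 57479) (nat_lit 28) (.e (nat_lit 557107) (nat_lit 15) .nil)))) .nil)) 
(.lf (nat_lit 107003) (.g (nat_lit 1661) (.e (nat_lit 5190) (nat_lit 294) (.e (nat_lit 57448) (nat_lit 19) (.e (nat_lit 393234) (nat_lit 17) (.e (nat_lit 2415) (nat_lit 157) .nil)))) .nil)))))) (.nd (nat_lit 3) (.nd (nat_lit 4) (.nd (nat_lit 5) (.nd (nat_lit 6) 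
(.lf (nat_lit 106887) (.g (nat_lit 1426) (.e (nat_lit 5117) (nat_lit 292) (.e (nat_lit 2650) (nat_lit 166) (.e (nat_lit 188434) (nat_lit 20) (.e (nat_lit 3391) (nat_lit 210) .nil)))) .nil)) 
(.lf (nat_lit 106951) (.g (nat_lit 569) (.e (nat_lit 5169) (nat_lit 292) (.e (nat_lit 2650) (nat_lit 166) (.e (nat_lit 188455) (nat_lit 24) .nil))) .nil))) (.nd (nat_lit 6) 
(.lf (nat_lit 106919) (.g (nat_lit 3755) (.e (nat_lit 5153) (nat_lit 292) (.e (nat_lit 1182) (nat_lit 87) (.e (nat_lit 57479) (nat_lit 28) (.e (nat_lit 557105) (nat_lit 14) (.e (nat_lit 180252) (nat_lit 10) (.e (nat_lit 573489) (nat_lit 14) (.e (nat_lit 73755) (nat_lit 8) (.e (nat_lit 557090) (nat_lit 12) (.e (nat_lit 171776) (nat_lit 0) .nil))))))))) (.g (nat_lit 8) .nil .nil))) 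
(.lf (nat_lit 106983) (.g (nat_lit 2032) (.e (nat_lit 5190) (nat_lit 294) (.e (nat_lit 57407) (nat_lit 12) (.e (nat_lit 336367) (nat_lit 27) (.e (nat_lit 426546) (nat_lit 30) (.e (nat_lit 360473) (nat_lit 8) (.e (nat_lit 557089) (nat_lit 12) (.e (nat_lit 163846) (nat_lit 0) .nil))))))) (.g (nat_lit 5) .nil .nil))))) (.nd (nat_lit 5) (.nd (nat_lit 6) 
(.lf (nat_lit 106903) (.g (nat_lit 1128) (.e (nat_lit 5152) (nat_lit 292) (.e (nat_lit 1209) (nat_lit 89) (.e (nat_lit 73789) (nat_lit 45) (.e (nat_lit 1340) (nat_lit 101) .nil)))) .nil)) 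
(.lf (nat_lit 106967) (.g (nat_lit 818) (.e (nat_lit 5190) (nat_lit 294) (.e (nat_lit 57373) (nat_lit 2) (.e (nat_lit 98048) (nat_lit 8) .nil))) .nil))) (.nd (nat_lit 6) 
(.lf (nat_lit 106935) (.g (nat_lit 2892) (.e (nat_lit 5155) (nat_lit 292) (.e (nat_lit 1181) (nat_lit 87) (.e (nat_lit 57479) (nat_lit 28) (.e (nat_lit 557109) (nat_lit 15) (.e (nat_lit 196352) (nat_lit 18) .nil))))) .nil)) 
(.lf (nat_lit 106999) (.g (nat_lit 548) (.e (nat_lit 5190) (nat_lit 294) (.e (nat_lit 57445) (nat_lit 19) (.e (nat_lit 401152) (nat_lit 12) .nil))) .nil))))) (.nd (nat_lit 4) (.nd (nat_lit 5) (.nd (nat_lit 6) 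
(.lf (nat_lit 106895) (.g (nat_lit 1940) (.e (nat_lit 5150) (nat_lit 292) (.e (nat_lit 1221) (nat_lit 90) (.e (nat_lit 81959) (nat_lit 24) (.e (nat_lit 123147) (nat_lit 250) .nil)))) .nil)) 
(.lf (nat_lit 106959) (.g (nat_lit 4323) (.e (nat_lit 5187) (nat_lit 294) (.e (nat_lit 57445) (nat_lit 19) (.e (nat_lit 393229) (nat_lit 9) (.e (nat_lit 336194) (nat_lit 12) .nil)))) .nil))) (.nd (nat_lit 6) 
(.lf (nat_lit 106927) (.g (nat_lit 1619) (.e (nat_lit 5153) (nat_lit 292) (.e (nat_lit 1221) (nat_lit 90) (.e (nat_lit 81938) (nat_lit 20) (.e (nat_lit 1963) (nat_lit 134) (.e (nat_lit 639001) (nat_lit 10) .nil))))) .nil)) 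
(.lf (nat_lit 106991) (.g (nat_lit 1542) (.e (nat_lit 5190) (nat_lit 294) (.e (nat_lit 57412) (nat_lit 12) (.e (nat_lit 336061) (nat_lit 7) (.e (nat_lit 319526) (nat_lit 15) (.e (nat_lit 278529) (nat_lit 0) .nil))))) .nil)))) (.nd (nat_lit 5) (.nd (nat_lit 6) 
(.lf (nat_lit 106911) (.g (nat_lit 1504) (.e (nat_lit 5152) (nat_lit 292) (.e (nat_lit 1221) (nat_lit 90) (.e (nat_lit 81938) (nat_lit 20) (.e (nat_lit 1962) (nat_lit 134) (.e (nat_lit 638985) (nat_lit 5) .nil))))) .nil)) 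
(.lf (nat_lit 106975) (.g (nat_lit 4314) (.e (nat_lit 5190) (nat_lit 294) (.e (nat_lit 57377) (nat_lit 3) (.e (nat_lit 98317) (nat_lit 9) (.e (nat_lit 336221) (nat_lit 13) .nil)))) .nil))) (.nd (nat_lit 6) 
(.lf (nat_lit 106943) (.g (nat_lit 1554) (.e (nat_lit 5156) (nat_lit 292) (.e (nat_lit 1221) (nat_lit 90) (.e (nat_lit 81938) (nat_lit 20) (.e (nat_lit 1963) (nat_lit 134) (.e (nat_lit 638986) (nat_lit 5) .nil))))) .nil)) 
(.lf (nat_lit 107007) (.g (nat_lit 1744) (.e (nat_lit 5190) (nat_lit 294) (.e (nat_lit 57448) (nat_lit 19) (.e (nat_lit 393234) (nat_lit 17) (.e (nat_lit 2528) (nat_lit 157) (.e (nat_lit 5193) (nat_lit 294) .nil))))) .nil)))))))))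


end

end Pool.Agent.Lib.MP_5854e1_co.Cz
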